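import Pool.Agent.Work.MP_9954fe_nt.Defs

/-!
The kernel-evaluated checker of the rank two argument.  Everything here is a plain definition by
recursors; the soundness is proved in `Sound.lean`.

A bad vector `v` (`Qf v = n`, `n` not represented) has for every split prime `p` two roots of the
quadratic polynomial `dot (lam x) v` modulo powers of `p`.  We use a *mask prime* `pm`, of which
only roots modulo `pm` are used (lines, bits of masks), and *digit primes* `p 0, p 1, ...` of which
the digits of a root are read by a trie.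
-/

set_option autoImplicit false

namespace Pool.Agent.Work.MP_9954fe_nt

/-- Integer 3x3 matrices, by rows. -/
structure M3 where
  (a b c d e f g h i : ℤ)

/-- Matrix times vector. -/
def M3.mul (M : M3) (v : V) : V :=
  (M.a * v.1 + M.b * v.2.1 + M.c * v.2.2, M.d * v.1 + M.e * v.2.1 + M.f * v.2.2,
    M.g * v.1 + M.h * v.2.1 + M.i * v.2.2)

/-- Transposed matrix times covector. -/
def M3.tmul (M : M3) (l : V) : V :=
  (M.a * l.1 + M.d * l.2.1 + M.g * l.2.2, M.b * l.1 + M.e * l.2.1 + M.h * l.2.2,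
    M.c * l.1 + M.f * l.2.1 + M.i * l.2.2)

/-- Tries.  `ev c m t`: the lines of the mask `m` are dead with code `c`; `nd c t`: read a digit,
missing digits are dead with code `c`; `br`, `ch`: digit chooser; `fin c`: final leaf. -/
inductive Tr where
  | dd
  | fin (c : ℕ)
  | ev (c m : ℕ) (t : Tr)
  | nd (c : ℕ) (t : Tr)
  | br (m : ℕ) (l r : Tr)
  | ch (d : ℕ) (t : Tr)

/-- Known residues: for each prime `p` a residue `X` modulo `P` (a power of `p`). -/
inductive Cs where
  | nil
  | cons (p X P : ℕ) (t : Cs)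

/-- Lists of Moebius maps, one for each prime. -/
inductive Mo where
  | nil
  | cons (a b c d : ℕ) (t : Mo)

/-- Result of applying a move to known residues. -/
inductive Rs where
  | dead
  | bad
  | ok (cs : Cs)

/-- A move: a matrix, its Moebius maps on the digit primes, its Moebius map `a b c d` on the mask
prime (or the reverse line `a`), and auxiliary data for its verification. -/
structure Mv where
  (M : M3) (mo : Mo) (a b c d : ℕ) (s : V) (mu : List ℤ) (mum : ℤ)

/-- Codes from `BIG` on are final. -/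
def BIG : ℕ := nat_lit 1000000
/-- Codes from `FAIL` on are failures. -/
def FAIL : ℕ := nat_lit 1000000000000000000000000
/-- The code of an unknown digit. -/
def ALL : ℕ := nat_lit 1000

/-- Evaluate the argument first. -/
noncomputable def fo {α : Type} (n : ℕ) (f : ℕ → α) : α :=
  Nat.rec (f (nat_lit 0)) (fun k _ => f (Nat.succ k)) n

/-- Boolean choice. -/
noncomputable def bi {α : Type} (b : Bool) (x y : α) : α := Bool.rec y x b

/-- Boolean conjunction. -/
noncomputable def an (a b : Bool) : Bool := Bool.rec false b a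

/-- `f d` for all `d < n`. -/
noncomputable def alln (f : ℕ → Bool) (n : ℕ) : Bool :=
  Nat.rec true (fun d b => an (f d) b) n

/-- Global constants of the trie queries: `FULL` mask. -/
noncomputable def pop (cs : Cs) : ℕ → (Cs → ℕ) → (ℕ → Cs → ℕ) → ℕ :=
  Cs.rec (motive := fun _ => ℕ → (Cs → ℕ) → (ℕ → Cs → ℕ) → ℕ)
    (fun _ kA _ => kA Cs.nil)
    (fun p X P t ih j kA kK =>
      Nat.rec (bi (Nat.ble P (nat_lit 1)) (kA (Cs.cons p X P t))
          (kK (Nat.mod X p) (Cs.cons p (Nat.div X p) (Nat.div P p) t)))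
        (fun j' _ => ih j' (fun t' => kA (Cs.cons p X P t')) (fun d t' => kK d (Cs.cons p X P t'))) j)
    cs

/-- First label of a list of labels. -/
noncomputable def hd (ls : List ℕ) : ℕ := List.rec (nat_lit 0) (fun a _ _ => a) ls
/-- The other labels. -/
noncomputable def tl (ls : List ℕ) : List ℕ := List.rec [] (fun _ t _ => t) ls

/-- `Nat.land a b`, without a look at `b` if `a = 0`. -/
noncomputable def lnd (a b : ℕ) : ℕ :=
  Nat.rec (motive := fun _ => ℕ) (nat_lit 0) (fun k _ => Nat.land (Nat.succ k) b) a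

/-- Conjunction of the results for an unknown digit. -/
noncomputable def lnf (f g : List ℕ → Cs → ℕ → ℕ → ℕ) (ls : List ℕ) (cs : Cs) (c df : ℕ) : ℕ :=
  lnd (f ls cs c df) (g ls cs c df)

/-- The mask of the lines known to be dead with a code less than `c`. -/
noncomputable def Qm (full : ℕ) (T : Tr) : ℕ → List ℕ → Cs → ℕ → ℕ → ℕ :=
  Tr.rec (motive := fun _ => ℕ → List ℕ → Cs → ℕ → ℕ → ℕ)
    (fun _ _ _ _ _ => nat_lit 0)
    (fun _ _ _ _ _ _ => nat_lit 0)
    (fun c' m _ ih d ls cs c df => Nat.lor (bi (Nat.ble c c') (nat_lit 0) m) (ih d ls cs c df))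
    (fun c' _ ih _ ls cs c _ => pop cs (hd ls)
      (fun cs' => lnd (bi (Nat.ble c c') (nat_lit 0) full)
        (ih ALL (tl ls) cs' c (bi (Nat.ble c c') (nat_lit 0) full)))
      (fun d cs' => ih d (tl ls) cs' c (bi (Nat.ble c c') (nat_lit 0) full)))
    (fun m _ _ ihl ihr d => Bool.rec (motive := fun _ => List ℕ → Cs → ℕ → ℕ → ℕ)
      (Bool.rec (motive := fun _ => List ℕ → Cs → ℕ → ℕ → ℕ) (ihl d) (ihr d) (Nat.ble m d))
      (lnf (ihl d) (ihr d)) (Nat.beq d (nat_lit 1000)))
    (fun d' _ ih d ls cs c df => bi (Nat.beq d (nat_lit 1000)) (ih (nat_lit 0) ls cs c (nat_lit 0))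
      (bi (Nat.beq d d') (ih (nat_lit 0) ls cs c (nat_lit 0)) df)) T

/-- Combination of final codes. -/
noncomputable def comb (a b : ℕ) : ℕ :=
  bi (Nat.beq a (nat_lit 0)) b (bi (Nat.beq b (nat_lit 0)) a (bi (Nat.beq a b) a FAIL))

/-- The final code reached (`0` if dead). -/
noncomputable def Qc (T : Tr) : ℕ → List ℕ → Cs → ℕ → ℕ :=
  Tr.rec (motive := fun _ => ℕ → List ℕ → Cs → ℕ → ℕ)
    (fun _ _ _ _ => nat_lit 0)
    (fun c _ _ _ _ => c)
    (fun _ _ _ ih d ls cs df => ih d ls cs df)
    (fun c' _ ih _ ls cs _ => pop cs (hd ls)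
      (fun cs' => comb (bi (Nat.ble BIG c') FAIL (nat_lit 0)) (ih ALL (tl ls) cs' (nat_lit 0)))
      (fun d cs' => ih d (tl ls) cs' (bi (Nat.ble BIG c') FAIL (nat_lit 0))))
    (fun m _ _ ihl ihr d ls cs df => bi (Nat.beq d ALL)
      (comb (ihl d ls cs df) (ihr d ls cs df)) (bi (Nat.ble m d) (ihr d ls cs df) (ihl d ls cs df)))
    (fun d' _ ih d ls cs df => bi (Nat.beq d ALL) (ih (nat_lit 0) ls cs (nat_lit 0))
      (bi (Nat.beq d d') (ih (nat_lit 0) ls cs (nat_lit 0)) df)) T

/-- Is the digit present in the chooser? -/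
noncomputable def has (T : Tr) (d : ℕ) : Bool :=
  Tr.rec (motive := fun _ => Bool) false (fun _ => false) (fun _ _ _ _ => false)
    (fun _ _ _ => false) (fun m _ _ x y => bi (Nat.ble m d) y x) (fun d' _ _ => Nat.beq d d') T

/-- One Newton step for the inverse of `D` modulo `P`. -/
noncomputable def nst (P D y : ℕ) : ℕ :=
  Nat.mod (Nat.mul y (Nat.add (nat_lit 2) (Nat.mul (Nat.sub P (nat_lit 1)) (Nat.mod (Nat.mul D y) P)))) P

/-- Candidate for the inverse of `D` modulo `P`, a power of `p` at most the eighth. -/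
noncomputable def inv (p P D : ℕ) : ℕ :=
  fo (Nat.mod (Nat.pow (Nat.mod D p) (Nat.sub p (nat_lit 2))) p) (fun y =>
    bi (Nat.beq P p) y (fo (nst P D y) (fun y => bi (Nat.beq (Nat.mod (Nat.mul D y) P) (nat_lit 1)) y
      (fo (nst P D y) (fun y => bi (Nat.beq (Nat.mod (Nat.mul D y) P) (nat_lit 1)) y
        (fo (nst P D y) (fun y => nst P D y)))))))

/-- Apply Moebius maps to known residues. -/
noncomputable def app (m : Mo) : Cs → Rs :=
  Mo.rec (motive := fun _ => Cs → Rs) (fun _ => Rs.ok Cs.nil)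
    (fun a b c d _ ih cs =>
      Cs.rec (motive := fun _ => Rs) (Rs.ok Cs.nil)
        (fun p X P t _ =>
          bi (Nat.ble P (nat_lit 1))
            (Rs.rec (motive := fun _ => Rs) Rs.dead Rs.bad (fun t' => Rs.ok (Cs.cons p (nat_lit 0) P t')) (ih t))
            (fo (Nat.mod (Nat.add (Nat.mul c X) d) P) (fun D =>
              bi (Nat.beq (Nat.mod D p) (nat_lit 0)) Rs.dead
                (fo (inv p P D) (fun y =>
                  bi (Nat.beq (Nat.mod (Nat.mul D y) P) (nat_lit 1))
                    (fo (Nat.mod (Nat.mul (Nat.add (Nat.mul a X) b) y) P) (fun X' =>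
                      Rs.rec (motive := fun _ => Rs) Rs.dead Rs.bad
                        (fun t' => Rs.ok (Cs.cons p X' P t')) (ih t)))
                    Rs.bad))))) cs) m

/-- Drop the first digit of the `i`th residue. -/
noncomputable def shiftc (cs : Cs) : ℕ → Cs :=
  Cs.rec (motive := fun _ => ℕ → Cs) (fun _ => Cs.nil)
    (fun p X P t ih i => Nat.rec (Cs.cons p (Nat.div X p) (Nat.div P p) t)
      (fun i' _ => Cs.cons p X P (ih i')) i) cs

/-- Add a digit at the end of the `j`th residue. -/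
noncomputable def push (cs : Cs) (d : ℕ) : ℕ → Cs :=
  Cs.rec (motive := fun _ => ℕ → Cs) (fun _ => Cs.nil)
    (fun p X P t ih i => Nat.rec
      (fo (Nat.add X (Nat.mul d P)) (fun X' => fo (Nat.mul P p) (fun P' => Cs.cons p X' P' t)))
      (fun i' _ => Cs.cons p X P (ih i')) i) cs

/-- The `i`th element of a list. -/
noncomputable def lget {α : Type} (z : α) (L : List α) : ℕ → α :=
  List.rec (motive := fun _ => ℕ → α) (fun _ => z)
    (fun a _ ih i => Nat.rec a (fun i' _ => ih i') i) L

/-- Use the `i`th residue. -/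
noncomputable def getc {α : Type} (z : α) (cs : Cs) (k : ℕ → ℕ → ℕ → α) : ℕ → α :=
  Cs.rec (motive := fun _ => ℕ → α) (fun _ => z)
    (fun p X P _ ih i => Nat.rec (k p X P) (fun i' _ => ih i') i) cs

/-- Parameters of a check. -/
structure Pr where
  (tab : ℕ → ℕ → ℕ → Mv) (oks : List ℕ) (ls : List ℕ) (T : Tr) (full ty1 pm : ℕ) (tys pks : List ℕ)

/-- Use the result of the move in direction `i` from the residues `cs`.  The table gives the move
in direction `i` from the first digit `l` of the first prime and from `e`: the first digit of the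
prime `i` (the second digit if `i = 0`).  Only for `i < 4`. -/
noncomputable def mvq (S : Pr) (k : Mv → Cs → Bool) (i : ℕ) (cs : Cs) : Bool :=
  getc false cs (fun p0 X0 _ => fo (Nat.mod X0 p0) (fun l => getc false cs (fun p X _ =>
    fo (Nat.rec (motive := fun _ => ℕ) (Nat.mod (Nat.div X p) p) (fun _ _ => Nat.mod X p) i)
      (fun e => Rs.rec (motive := fun _ => Bool) true false (fun cs' => k (S.tab i l e) cs')
        (app (S.tab i l e).mo (shiftc cs i)))) i)) (nat_lit 0)

/-- The same, over the possible continuations if only one digit is known. -/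
noncomputable def mvs (S : Pr) (k : Mv → Cs → Bool) (i : ℕ) (cs : Cs) : Bool :=
  getc false cs (fun p _ P => bi (Nat.beq P p)
    (alln (fun d => mvq S k i (push cs d i)) p) (bi (Nat.ble P p) false (mvq S k i cs))) i

/-- Test of a bit. -/
noncomputable def tb (m l : ℕ) : Bool :=
  Nat.beq (Nat.land (Nat.shiftRight m l) (nat_lit 1)) (nat_lit 1)

/-- The image of the line `l` under the Moebius map, tested in the mask `m`. -/
noncomputable def sg (p a b c d m l : ℕ) : Bool :=
  fo (Nat.mod (Nat.add (Nat.mul c l) d) p) (fun D => bi (Nat.beq D (nat_lit 0)) true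
    (tb m (Nat.mod (Nat.mul (Nat.add (Nat.mul a l) b) (Nat.pow D (Nat.sub p (nat_lit 2)))) p)))

/-- `f l` for all bits `l` of `m` (with fuel). -/
noncomputable def allb (f : ℕ → Bool) (fuel : ℕ) : ℕ → Bool :=
  Nat.rec (motive := fun _ => ℕ → Bool) (fun _ => false)
    (fun _ ih m => bi (Nat.beq m (nat_lit 0)) true
      (fo (Nat.log2 m) (fun l => an (f l) (fo (Nat.sub m (Nat.pow (nat_lit 2) l)) (fun m' => ih m'))))) fuel

/-- Conjunction of the results for the unknown digit, other than `x`. -/
noncomputable def QE (full x : ℕ) (T : Tr) : List ℕ → Cs → ℕ → ℕ :=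
  Tr.rec (motive := fun _ => List ℕ → Cs → ℕ → ℕ)
    (fun _ _ _ => nat_lit 0)
    (fun _ _ _ _ => nat_lit 0)
    (fun _ _ _ _ _ _ _ => nat_lit 0)
    (fun _ _ _ _ _ _ => nat_lit 0)
    (fun _ _ _ ihl ihr ls cs c => lnd (ihl ls cs c) (ihr ls cs c))
    (fun d' t _ ls cs c => bi (Nat.beq d' x) full (Qm full t (nat_lit 0) ls cs c (nat_lit 0))) T

/-- The same as `Qm` if the first digit of the `j`th residue is unknown but not `x`. -/
noncomputable def QX (full j x : ℕ) (T : Tr) : ℕ → List ℕ → Cs → ℕ → ℕ → ℕ :=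
  Tr.rec (motive := fun _ => ℕ → List ℕ → Cs → ℕ → ℕ → ℕ)
    (fun _ _ _ _ _ => nat_lit 0)
    (fun _ _ _ _ _ _ => nat_lit 0)
    (fun c' m _ ih d ls cs c df => Nat.lor (bi (Nat.ble c c') (nat_lit 0) m) (ih d ls cs c df))
    (fun c' t ih _ ls cs c _ => bi (Nat.beq (hd ls) j)
      (lnd (bi (Nat.ble c c') (nat_lit 0) full) (QE full x t (tl ls) cs c))
      (pop cs (hd ls)
        (fun cs' => lnd (bi (Nat.ble c c') (nat_lit 0) full)
          (ih ALL (tl ls) cs' c (bi (Nat.ble c c') (nat_lit 0) full)))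
        (fun d cs' => ih d (tl ls) cs' c (bi (Nat.ble c c') (nat_lit 0) full))))
    (fun m _ _ ihl ihr d ls cs c df => bi (Nat.beq d ALL)
      (lnd (ihl d ls cs c df) (ihr d ls cs c df)) (bi (Nat.ble m d) (ihr d ls cs c df) (ihl d ls cs c df)))
    (fun d' _ ih d ls cs c df => bi (Nat.beq d ALL) (ih (nat_lit 0) ls cs c (nat_lit 0))
      (bi (Nat.beq d d') (ih (nat_lit 0) ls cs c (nat_lit 0)) df)) T

/-- Use the `i`th Moebius map. -/
noncomputable def geto (m : Mo) (k : ℕ → ℕ → ℕ → ℕ → Bool) : ℕ → Bool :=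
  Mo.rec (motive := fun _ => ℕ → Bool) (fun _ => false)
    (fun a b c d _ ih i => Nat.rec (k a b c d) (fun i' _ => ih i') i) m

/-- Use the digit which is not in the image of the Moebius map (`ALL` if there is none). -/
noncomputable def exc (p a b c d : ℕ) (k : ℕ → Bool) : Bool :=
  fo (Nat.mod c p) (fun c' => bi (Nat.beq c' (nat_lit 0)) (k ALL)
    (fo (Nat.mod (Nat.mul a (Nat.pow c' (Nat.sub p (nat_lit 2)))) p) (fun t =>
      an (Nat.beq (Nat.mod (Nat.mul c' t) p) (Nat.mod a p))
        (an (bi (Nat.beq (Nat.mod (Nat.mul a d) p) (Nat.mod (Nat.mul b c) p)) false true) (k t)))))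

/-- Check of an event in direction `i > 0` if only one digit is known there: the next digit is
unknown, and the first digit of the new residue is not the one of the way back. -/
noncomputable def evx (S : Pr) (i c m : ℕ) (cs : Cs) : Bool :=
  getc false cs (fun p0 X0 _ => fo (Nat.mod X0 p0) (fun l => getc false cs (fun p X P =>
    an (Nat.beq P p) (fo (Nat.mod X p) (fun e =>
      Rs.rec (motive := fun _ => Bool) true false (fun cs' =>
        geto (S.tab i l e).mo (fun a b c1 d => exc p a b c1 d (fun x =>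
          fo (Nat.lor (QX S.full i x S.T (nat_lit 0) S.ls cs' c (nat_lit 0)) S.ty1) (fun q =>
            allb (fun l' => sg S.pm (S.tab i l e).a (S.tab i l e).b (S.tab i l e).c (S.tab i l e).d q l')
              S.pm m))) i)
        (app (S.tab i l e).mo (shiftc cs i))))) i)) (nat_lit 0)

/-- Check of an event. -/
noncomputable def evc (S : Pr) (c m acc : ℕ) (cs : Cs) : Bool :=
  fo (Nat.mod c (nat_lit 8)) (fun i =>
    bi (Nat.beq i (nat_lit 5))
      (an (Nat.beq (Nat.lor (Nat.lor acc m) S.ty1) S.full) (Nat.beq m (Nat.pow (nat_lit 2) (Nat.log2 m))))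
      (bi (Nat.beq i (nat_lit 4))
        (getc false cs (fun p0 X0 _ => fo (Nat.mod X0 p0) (fun l0 =>
          allb (fun l => Rs.rec (motive := fun _ => Bool) true false
              (fun cs' => Nat.beq (Nat.lor (Nat.lor (Qm S.full S.T (nat_lit 0) S.ls cs' c (nat_lit 0))
                (Nat.pow (nat_lit 2) (S.tab (nat_lit 4) l0 l).a)) S.ty1) S.full)
              (app (S.tab (nat_lit 4) l0 l).mo cs)) S.pm m)) (nat_lit 0))
        (bi (Nat.ble (nat_lit 6) i) (evx S (Nat.sub i (nat_lit 5)) c m cs)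
          (mvs S (fun mv cs' => fo (Nat.lor (Qm S.full S.T (nat_lit 0) S.ls cs' c (nat_lit 0)) S.ty1)
            (fun q => allb (fun l => sg S.pm mv.a mv.b mv.c mv.d q l) S.pm m)) i cs))))

/-- Is everything dead after the move in direction `j`? -/
noncomputable def fulld (S : Pr) (c j : ℕ) (cs : Cs) : Bool :=
  mvs S (fun _ cs' => Nat.beq (Nat.lor (Qm S.full S.T (nat_lit 0) S.ls cs' c (nat_lit 0)) S.ty1) S.full) j cs

/-- Run through the trie until one digit of the `j`th residue is left. -/
noncomputable def Sv (S : Pr) (c j : ℕ) (k : ℕ → ℕ → Tr → List ℕ → Cs → Bool) (T : Tr) :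
    ℕ → List ℕ → Cs → ℕ → ℕ → Bool :=
  Tr.rec (motive := fun _ => ℕ → List ℕ → Cs → ℕ → ℕ → Bool)
    (fun _ _ _ _ acc => Nat.beq (Nat.lor acc S.ty1) S.full)
    (fun _ _ _ _ _ acc => Nat.beq (Nat.lor acc S.ty1) S.full)
    (fun c' m _ ih d ls cs df acc =>
      fo (Nat.lor acc (bi (Nat.ble c c') (nat_lit 0) m)) (fun acc' => ih d ls cs df acc'))
    (fun c' t ih _ ls cs _ acc => getc false cs (fun p X P =>
      bi (an (Nat.beq (hd ls) j) (Nat.beq P p))
        (k acc (bi (Nat.ble c c') (nat_lit 0) S.full) t (tl ls) cs)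
        (bi (Nat.ble P (nat_lit 1)) false
          (ih (Nat.mod X p) (tl ls) (shiftc cs (hd ls)) (bi (Nat.ble c c') (nat_lit 0) S.full) acc)))
      (hd ls))
    (fun m _ _ ihl ihr d ls cs df acc => bi (Nat.ble m d) (ihr d ls cs df acc) (ihl d ls cs df acc))
    (fun d' _ ih d ls cs df acc => bi (Nat.beq d d') (ih (nat_lit 0) ls cs (nat_lit 0) acc)
      (Nat.beq (Nat.lor (Nat.lor acc df) S.ty1) S.full)) T

/-- Check of the missing digits of a chooser `t` of the `j`th residue. -/
noncomputable def miss (S : Pr) (c j : ℕ) (t : Tr) (cs : Cs) : Bool :=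
  getc false cs (fun p _ P => an (Nat.ble (Nat.mul P p) (S.pks.getD j (nat_lit 0)))
    (bi (Nat.ble P (nat_lit 1))
      (alln (fun d => bi (has t d) true (tb (S.tys.getD j (nat_lit 0)) d)) p)
      (bi (Nat.beq P p)
        (alln (fun d => bi (has t d) true (fulld S c j (push cs d j))) p)
        (mvq S (fun _ cs0 => mvq S (fun _ cs1 =>
          getc false cs0 (fun _ X0 _ => getc false cs1 (fun _ X1 _ =>
            fo (Nat.div X0 (Nat.div P p)) (fun t0 =>
              fo (Nat.mod (Nat.add (Nat.div X1 (Nat.div P p)) (Nat.sub p t0)) p) (fun dl =>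
                Sv S c j (fun acc df T' ls' cs' =>
                  fo acc (fun acc => fo df (fun df =>
                    alln (fun d => bi (has t d) true
                      (Nat.beq (Nat.lor (Nat.lor acc
                        (Qm S.full T' (Nat.mod (Nat.add t0 (Nat.mul d dl)) p) ls' (shiftc cs' j) c df))
                          S.ty1) S.full)) p)))
                  S.T (nat_lit 0) S.ls cs0 (nat_lit 0) (nat_lit 0)))) j) j)
            j (push cs (nat_lit 1) j)) j (push cs (nat_lit 0) j))))) j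

/-- Axis vector of a final code. -/
def axis (c : ℕ) : V :=
  (((c - BIG) % 1048576 : ℕ) - 524288, ((c - BIG) / 1048576 % 1048576 : ℕ) - 524288,
    ((c - BIG) / 1099511627776 : ℕ) - 524288)

/-- Check of the successor of a final leaf: `M w` is a multiple of `p` and parallel to the axis
of the final code `r`. -/
def finok (p : ℕ) (w : V) (M : M3) (r : ℕ) : Bool :=
  r.blt BIG || (r.blt FAIL && (decide (cross (M.mul w) (axis r) = 0) &&
    (decide ((M.mul w).1 % (p : ℤ) = 0) && (decide ((M.mul w).2.1 % (p : ℤ) = 0) &&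
      decide ((M.mul w).2.2 % (p : ℤ) = 0)))))

/-- Check of a final leaf. -/
noncomputable def finc (S : Pr) (c : ℕ) (cs : Cs) : Bool :=
  an (Nat.ble BIG c) (an (Nat.ble (Nat.succ c) FAIL)
    (an (decide (Int.gcd (axis c).1 (Int.gcd (axis c).2.1 (axis c).2.2) = 1))
      (an (decide ((Qf (axis c)).toNat ∈ S.oks))
        (getc false cs (fun p _ P => bi (Nat.ble P p) false
          (mvq S (fun mv cs' => finok p (axis c) mv.M (Qc S.T (nat_lit 0) S.ls cs' (nat_lit 0)))
            (nat_lit 0) cs)) (nat_lit 0)))))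

/-- Check of everything below a node.  `cm`: the last code, `acc`: mask of the dead lines,
`j`: the current label. -/
noncomputable def chk (S : Pr) (T : Tr) : List ℕ → Cs → ℕ → ℕ → ℕ → Bool :=
  Tr.rec (motive := fun _ => List ℕ → Cs → ℕ → ℕ → ℕ → Bool)
    (fun _ _ _ acc _ => Nat.beq (Nat.lor acc S.ty1) S.full)
    (fun c _ cs _ _ _ => finc S c cs)
    (fun c m _ ih ls cs cm acc j => an (Nat.beq j ALL) (an (Nat.ble (Nat.succ cm) c)
      (an (Nat.ble (Nat.succ c) BIG) (an (evc S c m acc cs)
        (fo (Nat.lor acc m) (fun acc' => ih ls cs c acc' ALL))))))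
    (fun c t ih ls cs cm acc j => an (Nat.beq j ALL) (an (Nat.ble (Nat.succ c) BIG)
      (an (miss S c (hd ls) t cs) (ih (tl ls) cs cm acc (hd ls)))))
    (fun _ _ _ ihl ihr ls cs cm acc j => bi (Nat.beq j ALL) false
      (an (ihl ls cs cm acc j) (ihr ls cs cm acc j)))
    (fun d _ ih ls cs cm acc j => bi (Nat.beq j ALL) false (an (Nat.ble (Nat.succ d) ALL)
      (ih ls (push cs d j) cm acc ALL))) T

/-- The child of the root for the digit `d`. -/
noncomputable def sub (T : Tr) (d : ℕ) : Tr :=
  Tr.rec (motive := fun _ => Tr) Tr.dd (fun _ => Tr.dd) (fun _ _ _ _ => Tr.dd)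
    (fun _ _ x => x) (fun m _ _ x y => bi (Nat.ble m d) y x)
    (fun d' t _ => bi (Nat.beq d d') t Tr.dd) T

/-- Check of the part of the root digit `l0`; `cs` are the residues with nothing known. -/
noncomputable def part (S : Pr) (cs : Cs) (l0 : ℕ) : Bool :=
  chk S (sub S.T l0) (tl S.ls) (push cs l0 (nat_lit 0)) (nat_lit 0) (nat_lit 0) ALL

end Pool.Agent.Work.MP_9954fe_nt
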