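import Pool.Agent.Work.MP_9954fe_nt.Miss

/-!
Soundness of the check of a trie: no line of a corner is dead.
-/

set_option autoImplicit false

namespace Pool.Agent.Work.MP_9954fe_nt

variable {S : Pr} {P0 : PD} {Pl : List PD} {Pm : PD} {cn : ℕ} {n : ℤ}

theorem bi_le {c c' x i : ℕ} (h : (bi (Nat.ble c c') 0 x).testBit i = true) : c' < c := by
  by_contra h1
  rw [ble_iff.mpr (by omega), bi_true] at h
  exact absurd h (by simp)

theorem bi_gt {c c' x : ℕ} (h : c' < c) : bi (Nat.ble c c') 0 x = x := by
  rw [ble_false.mpr h, bi_false]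

theorem hd_lt {ls : List ℕ} (h : ∀ a ∈ ls, a < 4) : hd ls < 4 := by
  cases ls with
  | nil => show (0 : ℕ) < 4; omega
  | cons a ls => exact h a (List.mem_cons_self ..)

theorem tl_lt {ls : List ℕ} (h : ∀ a ∈ ls, a < 4) : ∀ a ∈ tl ls, a < 4 := by
  cases ls with
  | nil => exact h
  | cons a ls => exact fun b hb => h b (List.mem_cons_of_mem _ hb)

/-- Soundness of `chk` for one corner and one code `c`. -/
theorem Ctx.chk_sound (H : Ctx S P0 Pl Pm cn n) {c : ℕ} (hcl : Cl S P0 Pl Pm cn n c) {v : V}
    {x0 : ℕ} {xr : List ℕ} (hc : Cnr P0 Pl cn n v x0 xr) (T : Tr) :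
    ∀ {ls : List ℕ} {cs : Cs} {cm acc j : ℕ} {er : Cs}, (∀ a ∈ ls, a < 4) →
    chk S T ls cs cm acc j = true → K0 cs →
    (cm < c → ∀ l, Line Pm v l → acc.testBit l = false) →
    (j = ALL → St (P0 :: Pl) (x0 :: xr) er cs →
      (∀ l, Line Pm v l → (Qm S.full T 0 ls er c 0).testBit l = false) →
      ∀ l, Line Pm v l → (Qm S.full T 0 ls er (c + 1) 0).testBit l = false) ∧
    (j ≠ ALL → ∀ d, d ≠ ALL → St (P0 :: Pl) (x0 :: xr) er (push cs d j) → ∀ df0 df1,
      (has T d = false → ∀ l, Line Pm v l → df1.testBit l = true → df0.testBit l = true) →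
      (∀ l, Line Pm v l → (Qm S.full T d ls er c df0).testBit l = false) →
      ∀ l, Line Pm v l → (Qm S.full T d ls er (c + 1) df1).testBit l = false) := by
  induction T with
  | dd =>
    intro ls cs cm acc j er _ _ _ _
    refine ⟨fun _ _ _ l _ => ?_, fun _ d _ _ df0 df1 _ _ l _ => ?_⟩
    · simp [Qm]
    · simp [Qm]
  | fin c0 =>
    intro ls cs cm acc j er _ _ _ _
    refine ⟨fun _ _ _ l _ => ?_, fun _ d _ _ df0 df1 _ _ l _ => ?_⟩
    · simp [Qm]
    · simp [Qm]
  | ev c' m t ih =>
    intro ls cs cm acc j er hls hchk h0 hacc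
    have h' : an (Nat.beq j ALL) (an (Nat.ble (Nat.succ cm) c')
      (an (Nat.ble (Nat.succ c') BIG) (an (evc S c' m acc cs)
        (fo (Nat.lor acc m) (fun acc' => chk S t ls cs c' acc' ALL))))) = true := hchk
    rw [an_iff, an_iff, an_iff, an_iff, fo_eq, beq_iff, ble_iff] at h'
    obtain ⟨h1, h2, -, h4, h5⟩ := h'
    refine ⟨fun _ hS hsub => ?_, fun hj => absurd h1 hj⟩
    have hm0 : c' < c → ∀ l, Line Pm v l → m.testBit l = false := by
      intro hcc l hl
      have h6 := hsub l hl
      rw [Qm_ev, lor_bit, bi_gt hcc, Bool.or_eq_false_iff] at h6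
      exact h6.1
    have hacc' : c' < c → ∀ l, Line Pm v l → (Nat.lor acc m).testBit l = false := by
      intro hcc l hl
      rw [lor_bit, hacc (by omega) l hl, hm0 hcc l hl]; rfl
    have hsub' : ∀ l, Line Pm v l → (Qm S.full t 0 ls er c 0).testBit l = false := by
      intro l hl
      have h6 := hsub l hl
      rw [Qm_ev, lor_bit, Bool.or_eq_false_iff] at h6
      exact h6.2
    have h7 := (ih (er := er) hls h5 h0 hacc').1 rfl hS hsub'
    intro l hl
    rw [Qm_ev, lor_bit, h7 l hl, Bool.or_false]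
    rcases hb : (bi (Nat.ble (c + 1) c') 0 m).testBit l with _ | _
    · rfl
    · exfalso
      have h8 := bi_le hb
      rw [bi_gt h8] at hb
      rcases Nat.lt_or_ge c' c with h9 | h9
      · rw [hm0 h9 l hl] at hb; exact absurd hb (by simp)
      · have h10 : c' = c := by omega
        subst h10
        rw [H.evc_sound hcl hc hS h0 (hacc (by omega)) h4 l hl] at hb
        exact absurd hb (by simp)
  | nd c' t ih =>
    intro ls cs cm acc j er hls hchk h0 hacc
    have h' : an (Nat.beq j ALL) (an (Nat.ble (Nat.succ c') BIG)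
      (an (miss S c' (hd ls) t cs) (chk S t (tl ls) cs cm acc (hd ls)))) = true := hchk
    rw [an_iff, an_iff, an_iff, beq_iff] at h'
    obtain ⟨h1, -, h3, h4⟩ := h'
    refine ⟨fun _ hS hsub => ?_, fun hj => absurd h1 hj⟩
    obtain ⟨D, x, k, er', g1, g2, g3, g4, g5, g6⟩ := H.miss_read hS h3
    have hj : hd ls ≠ ALL := by
      have h9 : ALL = 1000 := rfl
      have := hd_lt hls
      omega
    intro l hl
    rw [Qm_nd, g4]
    refine (ih (er := er') (tl_lt hls) h4 h0 hacc).2 hj _ g5 g6 (bi (Nat.ble c c') 0 S.full) _ ?_ ?_ l hl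
    · intro hh l hl hb
      have h8 := bi_le hb
      rcases Nat.lt_or_ge c' c with h9 | h9
      · rw [bi_gt h9]; rw [bi_gt h8] at hb; exact hb
      · have h10 : c' = c := by omega
        subst h10
        rw [H.miss_sound hcl hc hl hS h0 h3 g4] at hh
        exact absurd hh (by simp)
    · intro l hl
      have h6 := hsub l hl
      rw [Qm_nd, g4] at h6
      exact h6
  | br m x y ihx ihy =>
    intro ls cs cm acc j er hls hchk h0 hacc
    have h' : bi (Nat.beq j ALL) false (an (chk S x ls cs cm acc j) (chk S y ls cs cm acc j)) = true :=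
      hchk
    by_cases hj : j = ALL
    · rw [beq_iff.mpr hj, bi_true] at h'; exact absurd h' (by simp)
    rw [beq_false.mpr hj, bi_false, an_iff] at h'
    refine ⟨fun h => absurd h hj, fun _ d hd hS df0 df1 hh hsub l hl => ?_⟩
    have hhas : has (.br m x y) d = bi (Nat.ble m d) (has y d) (has x d) := rfl
    rw [hhas] at hh
    rw [Qm_br, beq_false.mpr hd, bi_false]
    have hsub' : ∀ l, Line Pm v l → (bi (Nat.ble m d) (Qm S.full y d ls er c df0)
        (Qm S.full x d ls er c df0)).testBit l = false := by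
      intro l hl
      have h6 := hsub l hl
      rw [Qm_br, beq_false.mpr hd, bi_false] at h6
      exact h6
    rcases hm : Nat.ble m d with _ | _
    · rw [bi_false]
      rw [hm, bi_false] at hh
      simp only [hm, bi_false] at hsub'
      exact (ihx (er := er) hls h'.1 h0 hacc).2 hj d hd hS df0 df1 hh hsub' l hl
    · rw [bi_true]
      rw [hm, bi_true] at hh
      simp only [hm, bi_true] at hsub'
      exact (ihy (er := er) hls h'.2 h0 hacc).2 hj d hd hS df0 df1 hh hsub' l hl
  | ch d' t ih =>
    intro ls cs cm acc j er hls hchk h0 hacc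
    have h' : bi (Nat.beq j ALL) false (an (Nat.ble (Nat.succ d') ALL)
      (chk S t ls (push cs d' j) cm acc ALL)) = true := hchk
    by_cases hj : j = ALL
    · rw [beq_iff.mpr hj, bi_true] at h'; exact absurd h' (by simp)
    rw [beq_false.mpr hj, bi_false, an_iff] at h'
    refine ⟨fun h => absurd h hj, fun _ d hd hS df0 df1 hh hsub l hl => ?_⟩
    have hhas : has (.ch d' t) d = Nat.beq d d' := rfl
    rw [hhas] at hh
    rw [Qm_ch, beq_false.mpr hd, bi_false]
    by_cases hdd : d = d'
    · subst hdd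
      rw [beq_iff.mpr rfl, bi_true]
      have hsub' : ∀ l, Line Pm v l → (Qm S.full t 0 ls er c 0).testBit l = false := by
        intro l hl
        have h6 := hsub l hl
        rw [Qm_ch, beq_false.mpr hd, bi_false, beq_iff.mpr rfl, bi_true] at h6
        exact h6
      refine (ih (er := er) hls h'.2 (h0.push ?_ d j) hacc).1 rfl hS hsub' l hl
      intro p X P hn
      by_cases h0j : 0 = j
      · exact hS.pos p _ _ (by rw [nth_push hn, if_pos h0j])
      · exact hS.pos p _ _ (by rw [nth_push hn, if_neg h0j])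
    · rw [beq_false.mpr hdd, bi_false]
      rcases hb : df1.testBit l with _ | _
      · rfl
      · exfalso
        have h1 := hh (beq_false.mpr hdd) l hl hb
        have h2 := hsub l hl
        rw [Qm_ch, beq_false.mpr hd, bi_false, beq_false.mpr hdd, bi_false, h1] at h2
        exact absurd h2 (by simp)

/-- A genuine chooser. -/
def gen : Tr → Bool
  | .br _ x y => gen x && gen y
  | .ch _ _ => true
  | .dd => true
  | _ => false

theorem Qm_sub {full : ℕ} {T : Tr} : gen T = true → ∀ {d : ℕ} {ls : List ℕ} {cs : Cs} {c : ℕ},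
    d ≠ ALL → Qm full T d ls cs c 0 = Qm full (sub T d) 0 ls cs c 0 := by
  induction T with
  | dd => intro _ d ls cs c hd; rfl
  | fin c0 => intro h; simp [gen] at h
  | ev c' m t ih => intro h; simp [gen] at h
  | nd c' t ih => intro h; simp [gen] at h
  | br m x y ihx ihy =>
    intro h d ls cs c hd
    have h' : gen x = true ∧ gen y = true := by simpa [gen] using h
    have hs : sub (.br m x y) d = bi (Nat.ble m d) (sub y d) (sub x d) := rfl
    rw [Qm_br, beq_false.mpr hd, bi_false, hs]
    rcases hm : Nat.ble m d with _ | _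
    · rw [bi_false, bi_false]; exact ihx h'.1 hd
    · rw [bi_true, bi_true]; exact ihy h'.2 hd
  | ch d' t ih =>
    intro h d ls cs c hd
    have hs : sub (.ch d' t) d = bi (Nat.beq d d') t .dd := rfl
    rw [Qm_ch, beq_false.mpr hd, bi_false, hs]
    rcases hm : Nat.beq d d' with _ | _
    · rw [bi_false, bi_false]; rfl
    · rw [bi_true, bi_true]

theorem Qc_sub {T : Tr} : gen T = true → ∀ {d : ℕ} {ls : List ℕ} {cs : Cs} {df : ℕ},
    d ≠ ALL → has T d = true → Qc T d ls cs df = Qc (sub T d) 0 ls cs 0 := by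
  induction T with
  | dd => intro _ d ls cs df hd h; simp [has] at h
  | fin c0 => intro h; simp [gen] at h
  | ev c' m t ih => intro h; simp [gen] at h
  | nd c' t ih => intro h; simp [gen] at h
  | br m x y ihx ihy =>
    intro h d ls cs df hd hh
    have h' : gen x = true ∧ gen y = true := by simpa [gen] using h
    have hs : sub (.br m x y) d = bi (Nat.ble m d) (sub y d) (sub x d) := rfl
    have hhas : has (.br m x y) d = bi (Nat.ble m d) (has y d) (has x d) := rfl
    rw [hhas] at hh
    rw [Qc_br, beq_false.mpr hd, bi_false, hs]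
    rcases hm : Nat.ble m d with _ | _
    · rw [hm, bi_false] at hh
      rw [bi_false, bi_false]; exact ihx h'.1 hd hh
    · rw [hm, bi_true] at hh
      rw [bi_true, bi_true]; exact ihy h'.2 hd hh
  | ch d' t ih =>
    intro h d ls cs df hd hh
    have hs : sub (.ch d' t) d = bi (Nat.beq d d') t .dd := rfl
    have hhas : has (.ch d' t) d = Nat.beq d d' := rfl
    rw [hhas] at hh
    rw [Qc_ch, beq_false.mpr hd, bi_false, hs, hh, bi_true, bi_true]

/-- Nothing known. -/
def zc : List PD → Cs
  | [] => .nil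
  | P :: Ps => .cons P.p 0 1 (zc Ps)

theorem St.init {v : V} {Ps : List PD} {xs : List ℕ} (h : Ends v Ps xs) (hok : ∀ P ∈ Ps, P.Ok) :
    St Ps xs (E Ps xs) (zc Ps) := by
  induction h with
  | nil => exact St.nil
  | @cons P x Ps xs hx h ih =>
    have h1 := ih (fun P hP => hok P (List.mem_cons_of_mem _ hP))
    have h2 := St.cons (hok P (List.mem_cons_self ..)).prime 0 (Nat.zero_le _) (x := x) h1
    rw [pow_zero, Nat.div_one, Nat.mod_one, Nat.sub_zero] at h2
    exact h2

/-- The trie is well formed at the root. -/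
structure RootOk (S : Pr) (P0 : PD) (Pl : List PD) (cn : ℕ) : Prop where
  ex : ∃ c0 t0, S.T = .nd c0 t0 ∧ BIG ≤ c0 ∧ gen t0 = true ∧ ∀ d < P0.p, cn.testBit d = true →
    has t0 d = true
  hd : hd S.ls = 0
  parts : ∀ d < P0.p, cn.testBit d = true → part S (zc (P0 :: Pl)) d = true

/-- The first digit of the first prime is read first. -/
theorem Ctx.first (H : Ctx S P0 Pl Pm cn n) {v : V} {x0 : ℕ} {xr : List ℕ}
    (hc : Cnr P0 Pl cn n v x0 xr) : ∃ er, rd (E (P0 :: Pl) (x0 :: xr)) 0 = some (x0 % P0.p, er) ∧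
      St (P0 :: Pl) (x0 :: xr) er (push (zc (P0 :: Pl)) (x0 % P0.p) 0) ∧
      K0 (push (zc (P0 :: Pl)) (x0 % P0.p) 0) := by
  have hS := St.init hc.e H.okd
  have hok := H.okd P0 (List.mem_cons_self ..)
  have hn : nth (zc (P0 :: Pl)) 0 = some (P0.p, 0, 1) := rfl
  obtain ⟨D, x, k, g1, g2, g3, g4, g5, g6, g7, g8⟩ := hS.nth hn
  simp only [List.getElem?_cons_zero, Option.some.injEq] at g1 g2
  subst g1 g2
  have hk : k = 0 := by
    by_contra hk
    have := Nat.one_lt_pow hk g4.one_lt
    omega
  subst hk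
  obtain ⟨er', g9, g10⟩ := g8 (by have := hok.K2; omega)
  rw [pow_zero, Nat.div_one] at g9 g10
  refine ⟨er', g9, g10, ?_⟩
  intro p X P h1
  rw [nth_push hn, if_pos rfl] at h1
  simp only [Option.some.injEq, Prod.mk.injEq] at h1
  obtain ⟨rfl, -, rfl⟩ := h1
  omega

/-- No line of a corner is dead. -/
theorem Ctx.claim (H : Ctx S P0 Pl Pm cn n) (hR : RootOk S P0 Pl cn) :
    ∀ c, c ≤ BIG → Cl S P0 Pl Pm cn n c := by
  obtain ⟨⟨c0, t0, hT, hc0, hg, hh⟩, hhd, hparts⟩ := hR
  intro c
  induction c with
  | zero =>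
    intro _ v x0 xr hc l hl
    have key : ∀ (T : Tr) (d : ℕ) (ls : List ℕ) (cs : Cs) (df : ℕ), df.testBit l = false →
        (Qm S.full T d ls cs 0 df).testBit l = false := by
      intro T
      induction T with
      | dd => intro d ls cs df h; simp [Qm]
      | fin c0 => intro d ls cs df h; simp [Qm]
      | ev c' m t ih =>
        intro d ls cs df h
        rw [Qm_ev, lor_bit, ih d ls cs df h, ble_iff.mpr (Nat.zero_le _), bi_true]
        simp
      | nd c' t ih =>
        intro d ls cs df h
        rw [Qm_nd, ble_iff.mpr (Nat.zero_le _), bi_true]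
        rcases rd cs (hd ls) with _ | r
        · simp only [land_bit]; simp
        · exact ih _ _ _ _ (by simp)
      | br m x y ihx ihy =>
        intro d ls cs df h
        rw [Qm_br]
        have h1 := ihx d ls cs df h
        have h2 := ihy d ls cs df h
        cases Nat.beq d ALL
        · cases Nat.ble m d
          · exact h1
          · exact h2
        · rw [bi_true, land_bit, h1]; rfl
      | ch d' t ih =>
        intro d ls cs df h
        rw [Qm_ch]
        have h1 := ih 0 ls cs 0 (by simp)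
        cases Nat.beq d ALL
        · cases Nat.beq d d'
          · exact h
          · exact h1
        · exact h1
    exact key _ _ _ _ _ (by simp)
  | succ c ih =>
    intro hcB v x0 xr hc l hl
    have hcl := ih (by omega)
    obtain ⟨er, h1, h2, h3⟩ := H.first hc
    have hok := H.okd P0 (List.mem_cons_self ..)
    have hd0 : x0 % P0.p < P0.p := Nat.mod_lt _ hok.prime.pos
    have hdA : x0 % P0.p ≠ ALL := by
      have h9 : ALL = 1000 := rfl
      have := hok.small
      omega
    have hroot : ∀ c, c ≤ BIG → Qm S.full S.T 0 S.ls (E (P0 :: Pl) (x0 :: xr)) c 0 =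
        Qm S.full (sub S.T (x0 % P0.p)) 0 (tl S.ls) er c 0 := by
      intro c hcB
      rw [hT, Qm_nd, hhd, h1]
      show Qm S.full t0 (x0 % P0.p) (tl S.ls) er c (bi (Nat.ble c c0) 0 S.full) = _
      rw [ble_iff.mpr (by omega), bi_true, Qm_sub hg hdA]
      rfl
    rw [hroot (c + 1) hcB]
    have hp : chk S (sub S.T (x0 % P0.p)) (tl S.ls) (push (zc (P0 :: Pl)) (x0 % P0.p) 0) 0 0 ALL =
        true := hparts _ hd0 hc.can
    have hsub : ∀ l, Line Pm v l →
        (Qm S.full (sub S.T (x0 % P0.p)) 0 (tl S.ls) er c 0).testBit l = false := by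
      intro l hl
      rw [← hroot c (by omega)]
      exact hcl v x0 xr hc l hl
    exact (H.chk_sound hcl hc _ (tl_lt H.lab) hp h3 (fun _ l _ => by simp)).1 rfl h2 hsub l hl

end Pool.Agent.Work.MP_9954fe_nt
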