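import Mathlib

/-!
# Legendre's three-square theorem

Proof of Dirichlet and Landau: reduction of positive definite ternary quadratic forms of
determinant one, Dirichlet's theorem on primes in arithmetic progressions and the
reciprocity law for Jacobi symbols.
-/

namespace Pool.Agent.Work.MP_9954fe_nt

/-- Shift of `b` into the interval `[-a/2, a/2]`. -/
theorem ts_shift (a b : ℤ) (ha : 0 < a) :
    ∃ k : ℤ, -a ≤ 2 * (b + k * a) ∧ 2 * (b + k * a) ≤ a := by
  have h1 := Int.emod_nonneg b ha.ne'
  have h2 := Int.emod_lt_of_pos b ha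
  have h3 := Int.mul_ediv_add_emod b a
  rcases le_or_gt (2 * (b % a)) a with h | h
  · refine ⟨-(b / a), ?_, ?_⟩ <;> nlinarith
  · refine ⟨-(b / a) - 1, ?_, ?_⟩ <;> nlinarith

/-- Positive definite binary forms of determinant one represent sums of two squares. -/
theorem ts_binary (N : ℕ) : ∀ a b c : ℤ, 0 < a → a ≤ N → a * c - b ^ 2 = 1 → ∀ x y : ℤ,
    ∃ u v : ℤ, a * x ^ 2 + 2 * b * x * y + c * y ^ 2 = u ^ 2 + v ^ 2 := by
  induction N with
  | zero =>
    intro a b c ha haN
    have : a ≤ 0 := by exact_mod_cast haN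
    omega
  | succ N ih =>
    intro a b c ha haN hdet x y
    rcases eq_or_lt_of_le (show (1 : ℤ) ≤ a by omega) with h1 | h1
    · subst h1
      exact ⟨x + b * y, y, by linear_combination y ^ 2 * hdet⟩
    · obtain ⟨k, hk1, hk2⟩ := ts_shift a b ha
      set b' := b + k * a with hb'
      set c' := c + 2 * k * b + k ^ 2 * a with hc'
      have hdet' : a * c' - b' ^ 2 = 1 := by
        rw [hb', hc']
        linear_combination hdet
      have hsq : 4 * b' ^ 2 ≤ a ^ 2 := by nlinarith
      have hc0 : 0 < c' := by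
        by_contra hcon
        have hcon : c' ≤ 0 := not_lt.1 hcon
        nlinarith [sq_nonneg b', mul_nonneg ha.le (neg_nonneg.2 hcon)]
      have hca : c' < a := by
        by_contra hcon
        have hcon : a ≤ c' := not_lt.1 hcon
        have h2 : a * a ≤ a * c' := mul_le_mul_of_nonneg_left hcon ha.le
        nlinarith
      have hcN : c' ≤ N := by
        push_cast at haN
        omega
      obtain ⟨u, v, huv⟩ := ih c' b' a hc0 hcN (by linear_combination hdet') y (x - k * y)
      refine ⟨u, v, ?_⟩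
      rw [← huv, hb', hc']
      ring

/-- Positive definite ternary forms of determinant one represent sums of three squares. -/
theorem ts_ternary (N : ℕ) : ∀ M : ℕ, ∀ a b c r s t : ℤ, 0 < a → a ≤ N → 0 < a * b - t ^ 2 →
    a * b - t ^ 2 ≤ M → a * b * c + 2 * r * s * t - a * r ^ 2 - b * s ^ 2 - c * t ^ 2 = 1 →
    ∀ x y z : ℤ, ∃ u v w : ℤ,
      a * x ^ 2 + b * y ^ 2 + c * z ^ 2 + 2 * r * y * z + 2 * s * x * z + 2 * t * x * y =
        u ^ 2 + v ^ 2 + w ^ 2 := by
  induction N with
  | zero =>
    intro M a b c r s t ha haN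
    have : a ≤ 0 := by exact_mod_cast haN
    omega
  | succ N ihN =>
    intro M
    induction M with
    | zero =>
      intro a b c r s t ha haN hg hgM
      have : a * b - t ^ 2 ≤ 0 := by exact_mod_cast hgM
      omega
    | succ M ihM =>
      intro a b c r s t ha haN hg hgM hdet x y z
      rcases eq_or_lt_of_le (show (1 : ℤ) ≤ a by omega) with h1 | h1
      · -- leading coefficient one
        subst h1
        obtain ⟨v, w, hvw⟩ := ts_binary (b - t ^ 2).toNat (b - t ^ 2) (r - s * t) (c - s ^ 2)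
          (by linarith) (by rw [Int.toNat_of_nonneg (by linarith)])
          (by linear_combination hdet) y z
        refine ⟨x + t * y + s * z, v, w, ?_⟩
        linear_combination hvw
      · -- reduce the second coefficient
        obtain ⟨k, hk1, hk2⟩ := ts_shift (a * b - t ^ 2) (a * r - s * t) hg
        set r1 := r + k * b with hr1
        set s1 := s + k * t with hs1
        set c1 := c + 2 * k * r + k ^ 2 * b with hc1
        have hdet1 : a * b * c1 + 2 * r1 * s1 * t - a * r1 ^ 2 - b * s1 ^ 2 - c1 * t ^ 2 = 1 := by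
          rw [hr1, hs1, hc1]
          linear_combination hdet
        have hval : a * x ^ 2 + b * y ^ 2 + c * z ^ 2 + 2 * r * y * z + 2 * s * x * z +
            2 * t * x * y = a * x ^ 2 + b * (y - k * z) ^ 2 + c1 * z ^ 2 +
              2 * r1 * (y - k * z) * z + 2 * s1 * x * z + 2 * t * x * (y - k * z) := by
          rw [hr1, hs1, hc1]
          ring
        rw [hval]
        generalize y - k * z = y1
        have hg12 : a * r - s * t + k * (a * b - t ^ 2) = a * r1 - s1 * t := by
          rw [hr1, hs1]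
          ring
        rw [hg12] at hk1 hk2
        clear_value r1 s1 c1
        clear hval hg12 hdet hr1 hs1 hc1
        set g11 := a * b - t ^ 2 with hg11
        set g12 := a * r1 - s1 * t with hg12
        set g22 := a * c1 - s1 ^ 2 with hg22
        have hid : g11 * g22 - g12 ^ 2 = a := by
          rw [hg11, hg12, hg22]
          linear_combination a * hdet1
        have hsq : 4 * g12 ^ 2 ≤ g11 ^ 2 := by nlinarith
        have hg22pos : 0 < g22 := by
          by_contra hcon
          have hcon : g22 ≤ 0 := not_lt.1 hcon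
          nlinarith [sq_nonneg g12, mul_nonneg hg.le (neg_nonneg.2 hcon)]
        rcases lt_or_ge g22 g11 with hlt | hge
        · -- swap the second and the third vector
          obtain ⟨u, v, w, huvw⟩ := ihM a c1 b r1 t s1 ha haN hg22pos
            (by push_cast at hgM; omega) (by linear_combination hdet1) x z y1
          exact ⟨u, v, w, by linear_combination huvw⟩
        · -- the first vector can be improved
          have h3 : 3 * g11 ^ 2 ≤ 4 * a := by nlinarith
          have h4 : 4 * g11 < 3 * a ^ 2 := by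
            by_contra hcon
            have hcon : 3 * a ^ 2 ≤ 4 * g11 := not_lt.1 hcon
            have h5 : (3 * a ^ 2) * (3 * a ^ 2) ≤ (4 * g11) * (4 * g11) :=
              mul_le_mul hcon hcon (by positivity) (by positivity)
            have h6 : 27 * (a ^ 2 * a ^ 2) ≤ 64 * a := by nlinarith
            have h7 : 8 ≤ a ^ 3 := by
              have : (2 : ℤ) ^ 3 ≤ a ^ 3 := pow_le_pow_left₀ (by norm_num) (by omega) 3
              linarith
            have h8 : a * 8 ≤ a * a ^ 3 := mul_le_mul_of_nonneg_left h7 ha.le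
            nlinarith
          obtain ⟨l, hl1, hl2⟩ := ts_shift a t ha
          set t2 := t + l * a with ht2
          set b2 := b + 2 * l * t + l ^ 2 * a with hb2
          set r2 := r1 + l * s1 with hr2
          have hab : a * b2 = g11 + t2 ^ 2 := by
            rw [hg11, hb2, ht2]
            ring
          have ht4 : 4 * t2 ^ 2 ≤ a ^ 2 := by nlinarith
          have hb0 : 0 < b2 := by
            by_contra hcon
            have hcon : b2 ≤ 0 := not_lt.1 hcon
            nlinarith [sq_nonneg t2, mul_nonneg ha.le (neg_nonneg.2 hcon)]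
          have hba : b2 < a := by
            by_contra hcon
            have hcon : a ≤ b2 := not_lt.1 hcon
            have h5 : a * a ≤ a * b2 := mul_le_mul_of_nonneg_left hcon ha.le
            nlinarith
          have hbN : b2 ≤ N := by
            push_cast at haN
            omega
          obtain ⟨u, v, w, huvw⟩ := ihN g11.toNat b2 a c1 s1 r2 t2 hb0 hbN
            (by linarith) (by rw [Int.toNat_of_nonneg hg.le]; linarith)
            (by rw [ht2, hb2, hr2]; linear_combination hdet1) y1 (x - l * y1) z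
          refine ⟨u, v, w, ?_⟩
          rw [← huvw, ht2, hb2, hr2]
          ring

/-- If `-d` is a square modulo `d m - 1`, then `m` is a sum of three squares. -/
theorem ts_of_square {m d e : ℤ} (hd : 0 < d) (hm : 0 < d * m - 1)
    (he : (d * m - 1) ∣ (e ^ 2 + d)) : ∃ x y z : ℤ, m = x ^ 2 + y ^ 2 + z ^ 2 := by
  obtain ⟨a, ha⟩ := he
  have ha0 : 0 < a := by
    by_contra hcon
    have hcon : a ≤ 0 := not_lt.1 hcon
    nlinarith [sq_nonneg e, mul_nonneg hm.le (neg_nonneg.2 hcon)]
  obtain ⟨u, v, w, h⟩ := ts_ternary a.toNat d.toNat a (d * m - 1) m 0 1 e ha0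
    (by rw [Int.toNat_of_nonneg ha0.le]) (by linarith)
    (by rw [Int.toNat_of_nonneg hd.le]; linarith)
    (by linear_combination -m * ha) 0 0 1
  exact ⟨u, v, w, by linear_combination h⟩

open NumberTheorySymbols ZMod in
/-- The criterion through Jacobi symbols. -/
theorem ts_of_jacobi {m d p : ℕ} (hp : p.Prime) (hd : 0 < d)
    (h : (d * m - 1 = p) ∨ (d * m - 1 = 2 * p ∧ p % 2 = 1 ∧ d % 2 = 1))
    (hJ : J(-(d : ℤ) | p) = 1) : ∃ x y z : ℤ, (m : ℤ) = x ^ 2 + y ^ 2 + z ^ 2 := by
  have : Fact p.Prime := ⟨hp⟩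
  have hp0 := hp.pos
  rw [← jacobiSym.legendreSym.to_jacobiSym] at hJ
  have hne : ((-(d : ℤ) : ℤ) : ZMod p) ≠ 0 := by
    intro h0
    rw [legendreSym.eq_zero_iff p _ |>.2 h0] at hJ
    exact zero_ne_one hJ
  obtain ⟨f, hf⟩ := (legendreSym.eq_one_iff p hne).1 hJ
  have hfe : (p : ℤ) ∣ (f.val : ℤ) ^ 2 + d := by
    rw [← ZMod.intCast_zmod_eq_zero_iff_dvd]
    push_cast
    rw [ZMod.natCast_val, ZMod.cast_id', id, pow_two, ← hf]
    push_cast
    ring
  have hdm : 1 ≤ d * m := by
    rcases h with h | ⟨h, -, -⟩ <;> omega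
  have hcast : (d : ℤ) * m - 1 = ((d * m - 1 : ℕ) : ℤ) := by
    push_cast [Nat.cast_sub hdm]
    ring
  rcases h with h | ⟨h, hp2, hd2⟩
  · refine ts_of_square (d := d) (e := f.val) (by exact_mod_cast hd) ?_ ?_
    · rw [hcast, h]
      exact_mod_cast hp0
    · rw [hcast, h]
      exact hfe
  · -- choose the root odd
    obtain ⟨e, he1, he2⟩ : ∃ e : ℤ, (p : ℤ) ∣ e ^ 2 + d ∧ e % 2 = 1 := by
      rcases Int.emod_two_eq_zero_or_one (f.val : ℤ) with h0 | h0
      · refine ⟨(f.val : ℤ) + p, ?_, by omega⟩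
        have : ((f.val : ℤ) + p) ^ 2 + d = ((f.val : ℤ) ^ 2 + d) + p * (2 * f.val + p) := by ring
        rw [this]
        exact dvd_add hfe (dvd_mul_right _ _)
      · exact ⟨f.val, hfe, h0⟩
    have he3 : (2 : ℤ) ∣ e ^ 2 + d := by
      obtain ⟨k, hk⟩ : ∃ k, e = 2 * k + 1 := ⟨e / 2, by omega⟩
      obtain ⟨l, hl⟩ : ∃ l : ℤ, (d : ℤ) = 2 * l + 1 := ⟨(d : ℤ) / 2, by omega⟩
      exact ⟨2 * k ^ 2 + 2 * k + l + 1, by rw [hk, hl]; ring⟩
    have hcop : IsCoprime (2 : ℤ) p := by
      rw [Int.isCoprime_iff_gcd_eq_one]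
      have : Nat.Coprime 2 p := by
        rw [Nat.coprime_two_left, Nat.odd_iff]
        exact hp2
      exact_mod_cast this
    refine ts_of_square (d := d) (e := e) (by exact_mod_cast hd) ?_ ?_
    · rw [hcast, h]
      push_cast
      have : (0 : ℤ) < p := by exact_mod_cast hp0
      linarith
    · rw [hcast, h]
      push_cast
      exact hcop.mul_dvd he3 he1

/-- Dirichlet's theorem in the form used here. -/
theorem ts_dirichlet (q a : ℕ) (hq : 0 < q) (h : Nat.Coprime a q) :
    ∃ j p : ℕ, p.Prime ∧ p = q * j + a := by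
  have : NeZero q := ⟨hq.ne'⟩
  obtain ⟨p, hpa, hp, hmod⟩ :=
    Nat.forall_exists_prime_gt_and_eq_mod ((ZMod.isUnit_iff_coprime a q).2 h) a
  rw [ZMod.natCast_eq_natCast_iff] at hmod
  obtain ⟨j, hj⟩ := (Nat.modEq_iff_dvd' hpa.le).1 hmod.symm
  exact ⟨j, p, hp, by omega⟩

open NumberTheorySymbols ZMod in
theorem three_squares_two_mod_four (m : ℕ) (h : m % 4 = 2) :
    ∃ x y z : ℤ, (m : ℤ) = x ^ 2 + y ^ 2 + z ^ 2 := by
  have hcop : Nat.Coprime (m - 1) (4 * m) := by
    apply Nat.Coprime.mul_right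
    · have : Nat.Coprime (m - 1) (2 ^ 2) := by
        apply Nat.Coprime.pow_right
        rw [Nat.coprime_two_right, Nat.odd_iff]
        omega
      exact this
    · have h1 : m = (m - 1) + 1 := by omega
      rw [h1, Nat.add_sub_cancel]
      simp
  obtain ⟨j, p, hp, hpj⟩ := ts_dirichlet (4 * m) (m - 1) (by omega) hcop
  set d := 4 * j + 1 with hd
  have hdm : d * m - 1 = p := by
    rw [hd, hpj]
    have : (4 * j + 1) * m = 4 * m * j + m := by ring
    omega
  have hp4 : p % 4 = 1 := by
    rw [hpj]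
    have : 4 * m * j = 4 * (m * j) := by ring
    omega
  have hpodd : Odd p := by
    rw [Nat.odd_iff]
    omega
  have hdodd : Odd d := by
    rw [Nat.odd_iff]
    omega
  refine ts_of_jacobi hp (by omega) (Or.inl hdm) ?_
  rw [jacobiSym.neg _ hpodd, ZMod.χ₄_nat_one_mod_four hp4, one_mul,
    jacobiSym.quadratic_reciprocity_one_mod_four (by omega) hpodd]
  have h1 : J((p : ℤ) | d) = J(-1 | d) := by
    apply jacobiSym.mod_left'
    have h2 : (p : ℤ) = (d : ℤ) * m - 1 := by
      have : 1 ≤ d * m := by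
        have := hp.pos
        omega
      rw [← hdm, Nat.cast_sub this]
      push_cast
      ring
    rw [h2, sub_eq_add_neg, add_comm, Int.add_mul_emod_self_left]
  rw [h1, jacobiSym.at_neg_one hdodd, ZMod.χ₄_nat_one_mod_four (by omega)]

open NumberTheorySymbols ZMod in
/-- The odd case: `c m - 1 = 2 q` with `q` odd. -/
theorem ts_odd (m c q : ℕ) (hm : m % 2 = 1) (hc : c = 1 ∨ c = 3) (hq : c * m = 2 * q + 1)
    (hq2 : q % 2 = 1) (hcm : c = 1 → q % 4 = 1) :
    ∃ x y z : ℤ, (m : ℤ) = x ^ 2 + y ^ 2 + z ^ 2 := by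
  have hcop : Nat.Coprime q (4 * m) := by
    apply Nat.Coprime.mul_right
    · have : Nat.Coprime q (2 ^ 2) := by
        apply Nat.Coprime.pow_right
        rw [Nat.coprime_two_right, Nat.odd_iff]
        exact hq2
      exact this
    · rw [Nat.coprime_iff_gcd_eq_one]
      have h1 : Nat.gcd q m ∣ 2 * q := (Nat.gcd_dvd_left q m).mul_left 2
      have h2 : Nat.gcd q m ∣ 2 * q + 1 := by
        rw [← hq]
        exact (Nat.gcd_dvd_right q m).mul_left c
      exact Nat.dvd_one.1 ((Nat.dvd_add_right h1).1 h2)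
  obtain ⟨j, p, hp, hpj⟩ := ts_dirichlet (4 * m) q (by omega) hcop
  set d := 8 * j + c with hd
  have hdm1 : d * m = 2 * p + 1 := by
    rw [hd, hpj]
    have : (8 * j + c) * m = 8 * (m * j) + c * m := by ring
    rw [this, hq]
    ring
  have hdm : d * m - 1 = 2 * p := by omega
  have hp4 : p % 4 = q % 4 := by
    rw [hpj]
    have : 4 * m * j = 4 * (m * j) := by ring
    omega
  have hpodd : Odd p := by
    rw [Nat.odd_iff]
    omega
  have hdodd : Odd d := by
    rw [Nat.odd_iff]
    omega
  have hd2 : J(2 | d) * J(2 | d) = 1 := by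
    have : J(2 | d) ^ 2 = 1 := jacobiSym.sq_one (by
      have : Nat.Coprime 2 d := by
        rw [Nat.coprime_two_left]
        exact hdodd
      exact_mod_cast this)
    rw [← pow_two]
    exact this
  have hneg2 : J(-2 | d) = 1 := by
    rw [jacobiSym.at_neg_two hdodd]
    have h1 : d % 8 = 1 ∨ d % 8 = 3 := by omega
    rw [ZMod.χ₈'_nat_eq_if_mod_eight]
    rcases h1 with h1 | h1 <;> simp [h1, show d % 2 ≠ 0 by omega]
  -- the value of (p | d)
  have hpd : J((p : ℤ) | d) = 1 := by
    have h1 : J(2 * (p : ℤ) | d) = J(-1 | d) := by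
      apply jacobiSym.mod_left'
      have h2 : 2 * (p : ℤ) = (d : ℤ) * m - 1 := by
        have : (d : ℤ) * m = 2 * p + 1 := by exact_mod_cast hdm1
        linarith
      rw [h2, sub_eq_add_neg, add_comm, Int.add_mul_emod_self_left]
    rw [jacobiSym.mul_left] at h1
    have h3 : J(-2 | d) = J(-1 | d) * J(2 | d) := by
      rw [← jacobiSym.mul_left]
      norm_num
    rw [hneg2, ← h1] at h3
    calc J((p : ℤ) | d) = J(2 | d) * J(2 | d) * J((p : ℤ) | d) := by rw [hd2, one_mul]
      _ = 1 := by rw [h3]; ring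
  refine ts_of_jacobi hp (by omega) (Or.inr ⟨hdm, by omega, by omega⟩) ?_
  rw [jacobiSym.neg _ hpodd]
  rcases (show p % 4 = 1 ∨ p % 4 = 3 by omega) with h1 | h3
  · rw [ZMod.χ₄_nat_one_mod_four h1, one_mul,
      jacobiSym.quadratic_reciprocity_one_mod_four' hdodd h1]
    exact hpd
  · have hc3 : c = 3 := by
      rcases hc with hc | hc
      · have := hcm hc
        omega
      · exact hc
    rw [ZMod.χ₄_nat_three_mod_four h3,
      jacobiSym.quadratic_reciprocity_three_mod_four (by omega) h3, hpd]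
    norm_num

/-- **Legendre's three-square theorem** (the sufficient condition). -/
theorem three_squares (m : ℕ) (h : ¬ ∃ a b : ℕ, m = 4 ^ a * (8 * b + 7)) :
    ∃ x y z : ℤ, (m : ℤ) = x ^ 2 + y ^ 2 + z ^ 2 := by
  induction m using Nat.strong_induction_on with
  | _ m ih =>
    rcases Nat.eq_zero_or_pos m with rfl | hpos
    · exact ⟨0, 0, 0, by norm_num⟩
    rcases (show m % 4 = 0 ∨ m % 4 = 2 ∨ m % 8 = 1 ∨ m % 8 = 3 ∨ m % 8 = 5 ∨ m % 8 = 7 by omega)
      with h0 | h0 | h0 | h0 | h0 | h0
    · obtain ⟨m', rfl⟩ : ∃ m', m = 4 * m' := ⟨m / 4, by omega⟩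
      obtain ⟨x, y, z, hxyz⟩ := ih m' (by omega) (by
        rintro ⟨a, b, hab⟩
        exact h ⟨a + 1, b, by rw [hab, pow_succ]; ring⟩)
      refine ⟨2 * x, 2 * y, 2 * z, ?_⟩
      push_cast
      rw [hxyz]
      ring
    · exact three_squares_two_mod_four m h0
    · obtain ⟨k, hk⟩ : ∃ k, m = 8 * k + 1 := ⟨m / 8, by omega⟩
      exact ts_odd m 3 (12 * k + 1) (by omega) (Or.inr rfl) (by omega) (by omega) (by omega)
    · obtain ⟨k, hk⟩ : ∃ k, m = 8 * k + 3 := ⟨m / 8, by omega⟩
      exact ts_odd m 1 (4 * k + 1) (by omega) (Or.inl rfl) (by omega) (by omega) (by omega)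
    · obtain ⟨k, hk⟩ : ∃ k, m = 8 * k + 5 := ⟨m / 8, by omega⟩
      exact ts_odd m 3 (12 * k + 7) (by omega) (Or.inr rfl) (by omega) (by omega) (by omega)
    · exact absurd ⟨0, m / 8, by omega⟩ h

end Pool.Agent.Work.MP_9954fe_nt
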