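import Pool.Agent.Work.MP_9954fe_nt.Defs
import Pool.Agent.Work.MP_9954fe_nt.ThreeSquares

/-!
Ramanujan's ternary form: representations by the genus.
-/

set_option autoImplicit false

namespace Pool.Agent.Work.MP_9954fe_nt

theorem genus_sq_mod5 (a : ℤ) : a ^ 2 % 5 = 0 ∧ (5 : ℤ) ∣ a ∨ a ^ 2 % 5 = 1 ∧ ¬ (5 : ℤ) ∣ a ∨
    a ^ 2 % 5 = 4 ∧ ¬ (5 : ℤ) ∣ a := by
  have h : a % 5 = 0 ∨ a % 5 = 1 ∨ a % 5 = 2 ∨ a % 5 = 3 ∨ a % 5 = 4 := by omega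
  have h2 : a ^ 2 % 5 = (a % 5) ^ 2 % 5 := by rw [sq, sq, Int.mul_emod]
  rcases h with h | h | h | h | h <;> rw [h] at h2 <;> norm_num at h2 <;> omega

theorem genus_sq_mod4 (a : ℤ) : a ^ 2 % 4 = 0 ∧ Even a ∨ a ^ 2 % 4 = 1 ∧ Odd a := by
  rcases Int.even_or_odd a with h | h
  · left
    obtain ⟨k, rfl⟩ := h
    refine ⟨?_, ⟨k, rfl⟩⟩
    have : (k + k) ^ 2 = 4 * k ^ 2 := by ring
    rw [this]; omega
  · right
    obtain ⟨k, rfl⟩ := h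
    refine ⟨?_, ⟨k, rfl⟩⟩
    have : (2 * k + 1) ^ 2 = 4 * (k ^ 2 + k) + 1 := by ring
    rw [this]; omega

/-- If `a ^ 2 + b ^ 2` is divisible by `5` then `a` is `3 b` or `- 3 b` modulo `5`. -/
theorem genus_mod5_of_sum (a b : ℤ) (h : (5 : ℤ) ∣ a ^ 2 + b ^ 2) :
    (5 : ℤ) ∣ a - 3 * b ∨ (5 : ℤ) ∣ a + 3 * b := by
  have hp : Prime (5 : ℤ) := by norm_num [Int.prime_iff_natAbs_prime]
  have h1 : (5 : ℤ) ∣ (a - 3 * b) * (a + 3 * b) := by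
    have : (a - 3 * b) * (a + 3 * b) = (a ^ 2 + b ^ 2) - 5 * (2 * b ^ 2) := by ring
    rw [this]
    exact dvd_sub h (dvd_mul_right _ _)
  exact hp.dvd_or_dvd h1

theorem rep_of_three' (n a b c : ℤ) (h : a ^ 2 + b ^ 2 + c ^ 2 = 10 * n) (h2 : Even c)
    (h5 : (5 : ℤ) ∣ c) : Rep n := by
  obtain ⟨z, rfl⟩ : (10 : ℤ) ∣ c := by
    obtain ⟨k, hk⟩ := h2
    omega
  have h10 : a ^ 2 + b ^ 2 = 10 * (n - 10 * z ^ 2) := by linarith
  have hpar : Even (a - 3 * b) := by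
    rcases genus_sq_mod4 a with ⟨ha, ha'⟩ | ⟨ha, ha'⟩ <;>
    rcases genus_sq_mod4 b with ⟨hb, hb'⟩ | ⟨hb, hb'⟩
    · exact ha'.sub (hb'.mul_left 3)
    · omega
    · omega
    · exact ha'.sub_odd ((by decide : Odd (3 : ℤ)).mul hb')
  have key : ∀ b' : ℤ, a ^ 2 + b' ^ 2 = 10 * (n - 10 * z ^ 2) → (10 : ℤ) ∣ a - 3 * b' → Rep n := by
    intro b' h1 h2
    obtain ⟨k, hk⟩ := h2
    have ha : a = 3 * b' + 10 * k := by linarith
    refine ⟨b' + 3 * k, k, z, ?_⟩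
    rw [ha] at h1
    nlinarith
  have h5' : (5 : ℤ) ∣ a ^ 2 + b ^ 2 := by rw [h10]; exact ⟨2 * (n - 10 * z ^ 2), by ring⟩
  obtain ⟨k, hk⟩ := hpar
  rcases genus_mod5_of_sum a b h5' with h6 | h6
  · exact key b h10 (by omega)
  · exact key (-b) (by linarith [neg_sq b]) (by omega)

theorem rep_of_three (n a b c : ℤ) (_hn : Odd n) (h : a ^ 2 + b ^ 2 + c ^ 2 = 10 * n)
    (h2 : Even c) (h5 : (5 : ℤ) ∣ c) : Rep n := rep_of_three' n a b c h h2 h5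

/-- The second class. -/
theorem genus_second (n a b c : ℤ) (h : a ^ 2 + b ^ 2 + c ^ 2 = 10 * n) (ha : Odd a) (hb : Odd b)
    (hc : Even c) (h5 : (5 : ℤ) ∣ a) (h5b : (5 : ℤ) ∣ b + 2 * c) : ∃ v : V, Qf v = n := by
  obtain ⟨z, rfl⟩ := h5
  obtain ⟨u, hu⟩ := h5b
  obtain ⟨y, hy⟩ : (2 : ℤ) ∣ c - 2 * u := by
    obtain ⟨k, hk⟩ := hc
    omega
  obtain ⟨x, hx⟩ : (2 : ℤ) ∣ u + z := by
    obtain ⟨k, hk⟩ := ha
    obtain ⟨k', hk'⟩ := hb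
    omega
  refine ⟨(x, y, z), ?_⟩
  simp only [Qf]
  have hu' : u = 2 * x - z := by linarith
  have hc' : c = 2 * y + 2 * u := by linarith
  have hb' : b = 5 * u - 2 * c := by linarith
  subst hu'
  subst hc'
  subst hb'
  nlinarith

theorem genus_aux (n a b c : ℤ) (h : a ^ 2 + b ^ 2 + c ^ 2 = 10 * n) (ha : Odd a) (hb : Odd b)
    (hc : Even c) : Rep n ∨ ∃ v : V, Qf v = n := by
  by_cases h5c : (5 : ℤ) ∣ c
  · exact Or.inl (rep_of_three' n a b c h hc h5c)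
  · right
    have hs : (a ^ 2 + b ^ 2 + c ^ 2) % 5 = 0 := by rw [h]; omega
    have key : ∀ a' b' : ℤ, a' ^ 2 + b' ^ 2 + c ^ 2 = 10 * n → Odd a' → Odd b' → (5 : ℤ) ∣ a' →
        ∃ v : V, Qf v = n := by
      intro a' b' h' ha' hb' h5
      have h6 : (5 : ℤ) ∣ b' ^ 2 + c ^ 2 := by
        obtain ⟨z, rfl⟩ := h5
        exact ⟨2 * n - 5 * z ^ 2, by linarith⟩
      rcases genus_mod5_of_sum b' c h6 with h7 | h7
      · exact genus_second n a' b' c h' ha' hb' hc h5 (by omega)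
      · refine genus_second n a' (-b') c (by linarith [neg_sq b']) ha' hb'.neg hc h5 (by omega)
    rcases genus_sq_mod5 a with ⟨h1, h1'⟩ | ⟨h1, h1'⟩ | ⟨h1, h1'⟩
    · exact key a b h ha hb h1'
    all_goals
      rcases genus_sq_mod5 b with ⟨h2, h2'⟩ | ⟨h2, h2'⟩ | ⟨h2, h2'⟩
      · exact key b a (by linarith) hb ha h2'
      all_goals
        rcases genus_sq_mod5 c with ⟨h3, h3'⟩ | ⟨h3, h3'⟩ | ⟨h3, h3'⟩ <;> omega

theorem genus_odd (n : ℕ) (hn : Odd n) : Rep n ∨ ∃ v : V, Qf v = n := by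
  obtain ⟨k, hk⟩ := hn
  obtain ⟨a, b, c, h⟩ := three_squares_two_mod_four (10 * n) (by omega)
  have h' : a ^ 2 + b ^ 2 + c ^ 2 = 10 * (n : ℤ) := by rw [← h]; push_cast; ring
  have hm : (a ^ 2 + b ^ 2 + c ^ 2) % 4 = 2 := by rw [h']; omega
  rcases genus_sq_mod4 a with ⟨ha, ha'⟩ | ⟨ha, ha'⟩ <;>
  rcases genus_sq_mod4 b with ⟨hb, hb'⟩ | ⟨hb, hb'⟩ <;>
  rcases genus_sq_mod4 c with ⟨hc, hc'⟩ | ⟨hc, hc'⟩
  · omega
  · omega
  · omega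
  · exact genus_aux n b c a (by linarith) hb' hc' ha'
  · omega
  · exact genus_aux n a c b (by linarith) ha' hc' hb'
  · exact genus_aux n a b c h' ha' hb' hc'
  · omega

theorem rep_even (n : ℕ) (h0 : 0 < n) (hn : Even n) (h : ¬ ∃ l m : ℕ, n = 4 ^ l * (16 * m + 6)) :
    Rep n := by
  obtain ⟨a, b, c, habc⟩ := three_squares (10 * n) (by
    rintro ⟨k, m, hkm⟩
    apply h
    obtain ⟨n', rfl⟩ := hn
    rcases k with _ | k
    · rw [pow_zero, one_mul] at hkm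
      omega
    · have h1 : 5 * n' = 4 ^ k * (8 * m + 7) := by
        rw [pow_succ] at hkm
        have : 4 * (5 * n') = 4 * (4 ^ k * (8 * m + 7)) := by linarith
        omega
      have h5 : 5 ∣ 8 * m + 7 := by
        have h2 : 5 ∣ 4 ^ k * (8 * m + 7) := ⟨n', h1.symm⟩
        refine (Nat.Coprime.dvd_of_dvd_mul_left ?_ h2)
        exact Nat.Coprime.pow_right _ (by norm_num)
      obtain ⟨q, hq⟩ := h5
      obtain ⟨r, hr⟩ : ∃ r, q = 8 * r + 3 := ⟨q / 8, by omega⟩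
      refine ⟨k, r, ?_⟩
      rw [hq, hr] at h1
      have h3 : n' = 4 ^ k * (8 * r + 3) := by
        have : 5 * n' = 5 * (4 ^ k * (8 * r + 3)) := by rw [h1]; ring
        omega
      rw [h3]; ring)
  have h' : a ^ 2 + b ^ 2 + c ^ 2 = 10 * (n : ℤ) := by rw [← habc]; push_cast; ring
  have hm : (a ^ 2 + b ^ 2 + c ^ 2) % 4 = 0 := by
    rw [h']
    obtain ⟨k, hk⟩ := hn
    omega
  have h5 : (a ^ 2 + b ^ 2 + c ^ 2) % 5 = 0 := by rw [h']; omega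
  have heven : Even a ∧ Even b ∧ Even c := by
    rcases genus_sq_mod4 a with ⟨ha, ha'⟩ | ⟨ha, ha'⟩ <;>
    rcases genus_sq_mod4 b with ⟨hb, hb'⟩ | ⟨hb, hb'⟩ <;>
    rcases genus_sq_mod4 c with ⟨hc, hc'⟩ | ⟨hc, hc'⟩
    · exact ⟨ha', hb', hc'⟩
    all_goals omega
  obtain ⟨e1, e2, e3⟩ := heven
  rcases genus_sq_mod5 a with ⟨ha, ha'⟩ | ⟨ha, ha'⟩ | ⟨ha, ha'⟩
  · exact rep_of_three' n b c a (by linarith) e1 ha'
  all_goals
    rcases genus_sq_mod5 b with ⟨hb, hb'⟩ | ⟨hb, hb'⟩ | ⟨hb, hb'⟩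
    · exact rep_of_three' n a c b (by linarith) e2 hb'
    all_goals
      rcases genus_sq_mod5 c with ⟨hc, hc'⟩ | ⟨hc, hc'⟩ | ⟨hc, hc'⟩
      · exact rep_of_three' n a b c h' e3 hc'
      all_goals omega

end Pool.Agent.Work.MP_9954fe_nt
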