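import Pool.Agent.Work.MP_9954fe_nt.Defs
import Pool.Agent.Work.MP_9954fe_nt.ThreeSquares

/-!
# Odd integers that are not squarefree are represented by `x^2+y^2+10z^2`

`n = m r^2`, `r` an odd prime: `10 m` is a sum of three squares, and a rational rotation of
denominator `r` moves a multiple of `10` into one coordinate.
-/

set_option autoImplicit false

namespace Pool.Agent.Work.MP_9954fe_nt

namespace NonSqfree

/-- A sum of three squares equal to `10 n` with one coordinate divisible by ten. -/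
theorem rep_three (n a b c : ℤ) (h : a ^ 2 + b ^ 2 + c ^ 2 = 10 * n)
    (h2 : (2 : ℤ) ∣ c) (h5 : (5 : ℤ) ∣ c) : Rep n := by
  obtain ⟨z, hz⟩ : (10 : ℤ) ∣ c := by omega
  subst hz
  have hab : a ^ 2 + b ^ 2 = 10 * (n - 10 * z ^ 2) := by linarith
  -- the sign
  have key : ∀ b' : ℤ, b' ^ 2 = b ^ 2 → (10 : ℤ) ∣ a - 3 * b' → Rep n := by
    intro b' hb' hd
    obtain ⟨q, hq⟩ := hd
    -- a = 3 b' + 10 q; x = (3a+b')/10 = b' + 3 q, y = (a - 3b')/10 = q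
    refine ⟨b' + 3 * q, q, z, ?_⟩
    have ha : a = 3 * b' + 10 * q := by linarith
    have h1 : (3 * b' + 10 * q) ^ 2 + b' ^ 2 = 10 * (n - 10 * z ^ 2) := by
      rw [← ha, hb', hab]
    nlinarith
  have hpar : (2 : ℤ) ∣ a - 3 * b := by
    have : (2 : ℤ) ∣ a ^ 2 + b ^ 2 := ⟨5 * (n - 10 * z ^ 2), by rw [hab]; ring⟩
    rcases Int.even_or_odd a with ⟨i, hi⟩ | ⟨i, hi⟩ <;>
      rcases Int.even_or_odd b with ⟨j, hj⟩ | ⟨j, hj⟩
    · omega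
    · exfalso
      obtain ⟨q, hq⟩ := this
      subst hi hj
      ring_nf at hq
      omega
    · exfalso
      obtain ⟨q, hq⟩ := this
      subst hi hj
      ring_nf at hq
      omega
    · omega
  have h5' : (5 : ℤ) ∣ (a - 3 * b) * (a + 3 * b) := by
    refine ⟨2 * (n - 10 * z ^ 2) - 2 * b ^ 2, ?_⟩
    linear_combination hab
  have hp5 : Prime (5 : ℤ) := by
    have : Nat.Prime 5 := by norm_num
    exact_mod_cast Nat.prime_iff_prime_int.1 this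
  rcases hp5.dvd_or_dvd h5' with h | h
  · exact key b rfl (by omega)
  · exact key (-b) (by ring) (by omega)

theorem rep_mul_sq (n r : ℤ) (h : Rep n) : Rep (n * r ^ 2) := by
  obtain ⟨x, y, z, h⟩ := h
  exact ⟨x * r, y * r, z * r, by rw [h]; ring⟩

/-! ### The rotation -/

theorem rot_norm (s t u k x y z : ℤ) :
    ((s ^ 2 + t ^ 2 - u ^ 2 - k ^ 2) * x + 2 * (t * u - s * k) * y + 2 * (t * k + s * u) * z) ^ 2 +
    (2 * (t * u + s * k) * x + (s ^ 2 - t ^ 2 + u ^ 2 - k ^ 2) * y + 2 * (u * k - s * t) * z) ^ 2 +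
    (2 * (t * k - s * u) * x + 2 * (u * k + s * t) * y + (s ^ 2 - t ^ 2 - u ^ 2 + k ^ 2) * z) ^ 2 =
    (s ^ 2 + t ^ 2 + u ^ 2 + k ^ 2) ^ 2 * (x ^ 2 + y ^ 2 + z ^ 2) := by
  ring

/-- The finite check modulo five. -/
theorem check : ∀ s t u k : ZMod 5, s ^ 2 + t ^ 2 + u ^ 2 + k ^ 2 ≠ 0 → s ≠ 0 →
    ¬ (t = 0 ∧ u = 0 ∧ k = 0) →
    ∃ ε : ZMod 5, (ε = 1 ∨ ε = -1) ∧
      (2 * (t * u - s * k) + 2 * ε * (s ^ 2 + t ^ 2 - u ^ 2 - k ^ 2) = 0 ∨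
       2 * (t * k + s * u) + 2 * ε * (s ^ 2 + t ^ 2 - u ^ 2 - k ^ 2) = 0 ∨
       2 * (t * u + s * k) + 2 * ε * (s ^ 2 - t ^ 2 + u ^ 2 - k ^ 2) = 0 ∨
       2 * (u * k - s * t) + 2 * ε * (s ^ 2 - t ^ 2 + u ^ 2 - k ^ 2) = 0 ∨
       2 * (t * k - s * u) + 2 * ε * (s ^ 2 - t ^ 2 - u ^ 2 + k ^ 2) = 0 ∨
       2 * (u * k + s * t) + 2 * ε * (s ^ 2 - t ^ 2 - u ^ 2 + k ^ 2) = 0) := by
  decide +kernel

/-- One coordinate after the rotation is divisible by five. -/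
theorem dvd_coord (Re Ro Rz e o z ε : ℤ) (hR : (5 : ℤ) ∣ Ro + 2 * ε * Re) (hε : ε ^ 2 = 1)
    (ho : (5 : ℤ) ∣ o - 2 * e) (hz : (5 : ℤ) ∣ z) :
    (5 : ℤ) ∣ Re * e + Ro * (-ε * o) + Rz * z := by
  obtain ⟨p, hp⟩ := hR
  obtain ⟨q, hq⟩ := ho
  obtain ⟨z', rfl⟩ := hz
  have hRo : Ro = 5 * p - 2 * ε * Re := by linarith
  have ho' : o = 2 * e + 5 * q := by linarith
  refine ⟨Re * e + 2 * Re * q - p * ε * (2 * e + 5 * q) + Rz * z', ?_⟩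
  rw [hRo, ho']
  linear_combination (2 * Re * (2 * e + 5 * q)) * hε

theorem even_coord (Re Ro Rz e o z ε : ℤ) (he : (2 : ℤ) ∣ e) (hRo : (2 : ℤ) ∣ Ro)
    (hRz : (2 : ℤ) ∣ Rz) : (2 : ℤ) ∣ Re * e + Ro * (-ε * o) + Rz * z :=
  dvd_add (dvd_add (Dvd.dvd.mul_left he _) (Dvd.dvd.mul_right hRo _)) (Dvd.dvd.mul_right hRz _)

/-- The rotation step. -/
theorem rot_step (m s t u k e o z : ℤ)
    (hs : ¬ (5 : ℤ) ∣ s) (htuk : ¬ ((5 : ℤ) ∣ t ∧ (5 : ℤ) ∣ u ∧ (5 : ℤ) ∣ k))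
    (hr : ¬ (5 : ℤ) ∣ s ^ 2 + t ^ 2 + u ^ 2 + k ^ 2)
    (hw : e ^ 2 + o ^ 2 + z ^ 2 = 10 * m) (he : (2 : ℤ) ∣ e) (ho : (5 : ℤ) ∣ o - 2 * e)
    (hz : (5 : ℤ) ∣ z) : Rep (m * (s ^ 2 + t ^ 2 + u ^ 2 + k ^ 2) ^ 2) := by
  have hc := check (s : ZMod 5) t u k ?_ ?_ ?_
  rotate_left
  · intro h0
    apply hr
    have h1 : ((s ^ 2 + t ^ 2 + u ^ 2 + k ^ 2 : ℤ) : ZMod 5) = 0 := by
      push_cast
      exact h0
    exact (ZMod.intCast_zmod_eq_zero_iff_dvd _ 5).1 h1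
  · intro h0
    exact hs ((ZMod.intCast_zmod_eq_zero_iff_dvd s 5).1 h0)
  · rintro ⟨h1, h2, h3⟩
    exact htuk ⟨(ZMod.intCast_zmod_eq_zero_iff_dvd t 5).1 h1,
      (ZMod.intCast_zmod_eq_zero_iff_dvd u 5).1 h2, (ZMod.intCast_zmod_eq_zero_iff_dvd k 5).1 h3⟩
  -- integer version
  obtain ⟨ε, hε, hd⟩ : ∃ ε : ℤ, ε ^ 2 = 1 ∧
      ((5 : ℤ) ∣ 2 * (t * u - s * k) + 2 * ε * (s ^ 2 + t ^ 2 - u ^ 2 - k ^ 2) ∨
       (5 : ℤ) ∣ 2 * (t * k + s * u) + 2 * ε * (s ^ 2 + t ^ 2 - u ^ 2 - k ^ 2) ∨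
       (5 : ℤ) ∣ 2 * (t * u + s * k) + 2 * ε * (s ^ 2 - t ^ 2 + u ^ 2 - k ^ 2) ∨
       (5 : ℤ) ∣ 2 * (u * k - s * t) + 2 * ε * (s ^ 2 - t ^ 2 + u ^ 2 - k ^ 2) ∨
       (5 : ℤ) ∣ 2 * (t * k - s * u) + 2 * ε * (s ^ 2 - t ^ 2 - u ^ 2 + k ^ 2) ∨
       (5 : ℤ) ∣ 2 * (u * k + s * t) + 2 * ε * (s ^ 2 - t ^ 2 - u ^ 2 + k ^ 2)) := by
    obtain ⟨ε, hε, hd⟩ := hc
    obtain ⟨ε', hε', rfl⟩ : ∃ ε' : ℤ, ε' ^ 2 = 1 ∧ ε = (ε' : ZMod 5) := by
      rcases hε with rfl | rfl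
      · exact ⟨1, by norm_num, by norm_num⟩
      · exact ⟨-1, by norm_num, by norm_num⟩
    refine ⟨ε', hε', ?_⟩
    have conv : ∀ x : ℤ, (5 : ℤ) ∣ x ↔ (x : ZMod 5) = 0 := fun x =>
      (ZMod.intCast_zmod_eq_zero_iff_dvd x 5).symm
    simp only [conv]
    push_cast
    exact hd
  have hN : ∀ x y w : ℤ, x ^ 2 + y ^ 2 + w ^ 2 = 10 * m →
      (s ^ 2 + t ^ 2 + u ^ 2 + k ^ 2) ^ 2 * (x ^ 2 + y ^ 2 + w ^ 2) =
        10 * (m * (s ^ 2 + t ^ 2 + u ^ 2 + k ^ 2) ^ 2) := by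
    intro x y w h
    rw [h]
    ring
  have h2 : ∀ x : ℤ, (2 : ℤ) ∣ 2 * x := fun x => dvd_mul_right 2 x
  have hε' : (-ε * o) ^ 2 = o ^ 2 := by linear_combination o ^ 2 * hε
  rcases hd with hd | hd | hd | hd | hd | hd
  · -- e' = 1, o' = 2
    have hn := rot_norm s t u k e (-ε * o) z
    refine rep_three _
      (2 * (t * u + s * k) * e + (s ^ 2 - t ^ 2 + u ^ 2 - k ^ 2) * (-ε * o) + 2 * (u * k - s * t) * z)
      (2 * (t * k - s * u) * e + 2 * (u * k + s * t) * (-ε * o) + (s ^ 2 - t ^ 2 - u ^ 2 + k ^ 2) * z) _ ?_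
      (even_coord (s ^ 2 + t ^ 2 - u ^ 2 - k ^ 2) (2 * (t * u - s * k)) (2 * (t * k + s * u))
        e o z ε he (h2 _) (h2 _))
      (dvd_coord _ _ (2 * (t * k + s * u)) e o z ε hd hε ho hz)
    · rw [← hN e (-ε * o) z (by rw [hε']; exact hw), ← hn]
      ring
  · -- e' = 1, o' = 3
    have hn := rot_norm s t u k e z (-ε * o)
    refine rep_three _
      (2 * (t * u + s * k) * e + (s ^ 2 - t ^ 2 + u ^ 2 - k ^ 2) * z + 2 * (u * k - s * t) * (-ε * o))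
      (2 * (t * k - s * u) * e + 2 * (u * k + s * t) * z + (s ^ 2 - t ^ 2 - u ^ 2 + k ^ 2) * (-ε * o)) _ ?_
      (even_coord (s ^ 2 + t ^ 2 - u ^ 2 - k ^ 2) (2 * (t * k + s * u)) (2 * (t * u - s * k))
        e o z ε he (h2 _) (h2 _))
      (dvd_coord _ _ (2 * (t * u - s * k)) e o z ε hd hε ho hz)
    · rw [← hN e z (-ε * o) (by rw [hε']; linarith), ← hn]
      ring
  · -- e' = 2, o' = 1
    have hn := rot_norm s t u k (-ε * o) e z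
    refine rep_three _
      ((s ^ 2 + t ^ 2 - u ^ 2 - k ^ 2) * (-ε * o) + 2 * (t * u - s * k) * e + 2 * (t * k + s * u) * z)
      (2 * (t * k - s * u) * (-ε * o) + 2 * (u * k + s * t) * e + (s ^ 2 - t ^ 2 - u ^ 2 + k ^ 2) * z) _ ?_
      (even_coord (s ^ 2 - t ^ 2 + u ^ 2 - k ^ 2) (2 * (t * u + s * k)) (2 * (u * k - s * t))
        e o z ε he (h2 _) (h2 _))
      (dvd_coord _ _ (2 * (u * k - s * t)) e o z ε hd hε ho hz)
    · rw [← hN (-ε * o) e z (by rw [hε']; linarith), ← hn]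
      ring
  · -- e' = 2, o' = 3
    have hn := rot_norm s t u k z e (-ε * o)
    refine rep_three _
      ((s ^ 2 + t ^ 2 - u ^ 2 - k ^ 2) * z + 2 * (t * u - s * k) * e + 2 * (t * k + s * u) * (-ε * o))
      (2 * (t * k - s * u) * z + 2 * (u * k + s * t) * e + (s ^ 2 - t ^ 2 - u ^ 2 + k ^ 2) * (-ε * o)) _ ?_
      (even_coord (s ^ 2 - t ^ 2 + u ^ 2 - k ^ 2) (2 * (u * k - s * t)) (2 * (t * u + s * k))
        e o z ε he (h2 _) (h2 _))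
      (dvd_coord _ _ (2 * (t * u + s * k)) e o z ε hd hε ho hz)
    · rw [← hN z e (-ε * o) (by rw [hε']; linarith), ← hn]
      ring
  · -- e' = 3, o' = 1
    have hn := rot_norm s t u k (-ε * o) z e
    refine rep_three _
      ((s ^ 2 + t ^ 2 - u ^ 2 - k ^ 2) * (-ε * o) + 2 * (t * u - s * k) * z + 2 * (t * k + s * u) * e)
      (2 * (t * u + s * k) * (-ε * o) + (s ^ 2 - t ^ 2 + u ^ 2 - k ^ 2) * z + 2 * (u * k - s * t) * e) _ ?_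
      (even_coord (s ^ 2 - t ^ 2 - u ^ 2 + k ^ 2) (2 * (t * k - s * u)) (2 * (u * k + s * t))
        e o z ε he (h2 _) (h2 _))
      (dvd_coord _ _ (2 * (u * k + s * t)) e o z ε hd hε ho hz)
    · rw [← hN (-ε * o) z e (by rw [hε']; linarith), ← hn]
      ring
  · -- e' = 3, o' = 2
    have hn := rot_norm s t u k z (-ε * o) e
    refine rep_three _
      ((s ^ 2 + t ^ 2 - u ^ 2 - k ^ 2) * z + 2 * (t * u - s * k) * (-ε * o) + 2 * (t * k + s * u) * e)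
      (2 * (t * u + s * k) * z + (s ^ 2 - t ^ 2 + u ^ 2 - k ^ 2) * (-ε * o) + 2 * (u * k - s * t) * e) _ ?_
      (even_coord (s ^ 2 - t ^ 2 - u ^ 2 + k ^ 2) (2 * (u * k + s * t)) (2 * (t * k - s * u))
        e o z ε he (h2 _) (h2 _))
      (dvd_coord _ _ (2 * (t * k - s * u)) e o z ε hd hε ho hz)
    · rw [← hN z (-ε * o) e (by rw [hε']; linarith), ← hn]
      ring

/-! ### The quaternion of norm `r` -/

theorem quat_of (r s : ℕ) (hs : s ^ 2 ≤ r) (hs5 : ¬ 5 ∣ s) (h5 : ¬ (5 ∣ r - s ^ 2))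
    (h : (r - s ^ 2) % 4 = 2 ∨ (r - s ^ 2) % 8 = 1 ∨ (r - s ^ 2) % 8 = 3 ∨ (r - s ^ 2) % 8 = 5) :
    ∃ s t u k : ℤ, (r : ℤ) = s ^ 2 + t ^ 2 + u ^ 2 + k ^ 2 ∧ ¬ (5 : ℤ) ∣ s ∧
      ¬ ((5 : ℤ) ∣ t ∧ (5 : ℤ) ∣ u ∧ (5 : ℤ) ∣ k) := by
  obtain ⟨t, u, k, htuk⟩ : ∃ t u k : ℤ, ((r - s ^ 2 : ℕ) : ℤ) = t ^ 2 + u ^ 2 + k ^ 2 := by
    rcases h with h | h
    · exact three_squares_two_mod_four _ h
    · refine three_squares _ ?_
      rintro ⟨a, b, hab⟩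
      rcases Nat.eq_zero_or_pos a with rfl | ha
      · rw [pow_zero, one_mul] at hab
        omega
      · obtain ⟨a, rfl⟩ : ∃ a', a = a' + 1 := ⟨a - 1, by omega⟩
        have : (r - s ^ 2) = 4 * (4 ^ a * (8 * b + 7)) := by rw [hab]; ring
        omega
  have hr : (r : ℤ) = (s : ℤ) ^ 2 + t ^ 2 + u ^ 2 + k ^ 2 := by
    have : ((r - s ^ 2 : ℕ) : ℤ) = (r : ℤ) - (s : ℤ) ^ 2 := by
      rw [Nat.cast_sub hs]
      push_cast
      ring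
    linarith
  refine ⟨s, t, u, k, hr, fun h0 => hs5 (by exact_mod_cast h0), ?_⟩
  rintro ⟨⟨t', rfl⟩, ⟨u', rfl⟩, ⟨k', rfl⟩⟩
  apply h5
  have : (5 : ℤ) ∣ ((r - s ^ 2 : ℕ) : ℤ) :=
    ⟨5 * t' ^ 2 + 5 * u' ^ 2 + 5 * k' ^ 2, by rw [htuk]; ring⟩
  exact_mod_cast this

theorem quat (r : ℕ) (hr : r.Prime) (h2 : r ≠ 2) (h5 : r ≠ 5) :
    ∃ s t u k : ℤ, (r : ℤ) = s ^ 2 + t ^ 2 + u ^ 2 + k ^ 2 ∧ ¬ (5 : ℤ) ∣ s ∧
      ¬ ((5 : ℤ) ∣ t ∧ (5 : ℤ) ∣ u ∧ (5 : ℤ) ∣ k) := by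
  have hodd : r % 2 = 1 := hr.eq_two_or_odd.resolve_left h2
  have h50 : r % 5 ≠ 0 := by
    intro h0
    exact h5 ((Nat.prime_dvd_prime_iff_eq (by norm_num) hr).1 (Nat.dvd_of_mod_eq_zero h0)).symm
  have h1 : r ≠ 1 := hr.one_lt.ne'
  have h9 : r ≠ 9 := by
    rintro rfl
    revert hr
    decide
  have h01 : r % 5 = 1 ∨ r % 5 = 4 ∨ (r % 5 = 2 ∨ r % 5 = 3) := by omega
  rcases h01 with h | h | h
  · by_cases h8 : r % 8 = 3
    · exact quat_of r 3 (by omega) (by decide) (by omega) (by omega)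
    · exact quat_of r 2 (by omega) (by decide) (by omega) (by omega)
  · by_cases h4 : r % 4 = 3
    · exact quat_of r 1 (by omega) (by decide) (by omega) (by omega)
    · exact quat_of r 4 (by omega) (by decide) (by omega) (by omega)
  · by_cases h4 : r % 4 = 3
    · exact quat_of r 1 (by omega) (by decide) (by omega) (by omega)
    · exact quat_of r 2 (by omega) (by decide) (by omega) (by omega)

/-! ### Residues of the coordinates -/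

theorem sq_mod_five (x : ℤ) : (5 : ℤ) ∣ x ∨ x ^ 2 % 5 = 1 ∨ x ^ 2 % 5 = 4 := by
  have h : x % 5 = 0 ∨ x % 5 = 1 ∨ x % 5 = 2 ∨ x % 5 = 3 ∨ x % 5 = 4 := by omega
  rcases h with h | h | h | h | h
  · left; omega
  all_goals
    right
    rw [pow_two, Int.mul_emod, h]
    norm_num

/-- Sorting of the coordinates: `e` even, `z` divisible by five. -/
theorem sorted (m : ℤ) (a b c : ℤ) (h : a ^ 2 + b ^ 2 + c ^ 2 = 10 * m) :
    Rep m ∨ ∃ e o z : ℤ, e ^ 2 + o ^ 2 + z ^ 2 = 10 * m ∧ (2 : ℤ) ∣ e ∧ (5 : ℤ) ∣ z ∧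
      (5 : ℤ) ∣ o - 2 * e := by
  -- the even coordinate in front
  obtain ⟨e, x, y, he, hexy⟩ : ∃ e x y : ℤ, (2 : ℤ) ∣ e ∧ e ^ 2 + x ^ 2 + y ^ 2 = 10 * m := by
    rcases Int.even_or_odd a with ha | ⟨i, hi⟩
    · exact ⟨a, b, c, ha.two_dvd, h⟩
    · rcases Int.even_or_odd b with hb | ⟨j, hj⟩
      · exact ⟨b, a, c, hb.two_dvd, by linarith⟩
      · rcases Int.even_or_odd c with hc | ⟨l, hl⟩
        · exact ⟨c, a, b, hc.two_dvd, by linarith⟩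
        · exfalso
          subst hi hj hl
          ring_nf at h
          omega
  by_cases he5 : (5 : ℤ) ∣ e
  · exact Or.inl (rep_three m x y e (by linarith) he he5)
  right
  -- a coordinate divisible by five
  have h5 : (5 : ℤ) ∣ x ∨ (5 : ℤ) ∣ y := by
    have e1 := (sq_mod_five e).resolve_left he5
    rcases sq_mod_five x with hx | hx
    · exact Or.inl hx
    rcases sq_mod_five y with hy | hy
    · exact Or.inr hy
    exfalso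
    omega
  obtain ⟨o, z, hoz, hz⟩ : ∃ o z : ℤ, e ^ 2 + o ^ 2 + z ^ 2 = 10 * m ∧ (5 : ℤ) ∣ z := by
    rcases h5 with h5 | h5
    · exact ⟨y, x, by linarith, h5⟩
    · exact ⟨x, y, hexy, h5⟩
  have h6 : (5 : ℤ) ∣ (o - 2 * e) * (o + 2 * e) := by
    obtain ⟨z', rfl⟩ := hz
    refine ⟨2 * m - 5 * z' ^ 2 - e ^ 2, ?_⟩
    linear_combination hoz
  have hp5 : Prime (5 : ℤ) := by
    have : Nat.Prime 5 := by norm_num
    exact_mod_cast Nat.prime_iff_prime_int.1 this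
  rcases hp5.dvd_or_dvd h6 with h | h
  · exact ⟨e, o, z, hoz, he, hz, h⟩
  · refine ⟨e, -o, z, by rw [neg_sq]; exact hoz, he, hz, ?_⟩
    obtain ⟨q, hq⟩ := h
    exact ⟨-q, by linarith⟩

end NonSqfree

open NonSqfree in
/-- Odd positive integers that are not squarefree are represented. -/
theorem rep_of_not_squarefree (n : ℕ) (hn : Odd n) (h : ¬ Squarefree n) : Rep n := by
  rw [Nat.squarefree_iff_prime_squarefree] at h
  push Not at h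
  obtain ⟨r, hr, m, hm⟩ := h
  have hmodd : Odd m := by
    rw [hm] at hn
    exact (Nat.odd_mul.1 hn).2
  have hrodd : Odd r := by
    rw [hm] at hn
    exact (Nat.odd_mul.1 (Nat.odd_mul.1 hn).1).1
  have hr2 : r ≠ 2 := by
    rintro rfl
    exact absurd hrodd (by decide)
  obtain ⟨a, b, c, habc⟩ := three_squares_two_mod_four (10 * m) (by
    obtain ⟨q, hq⟩ := hmodd
    omega)
  have hn' : ((n : ℕ) : ℤ) = (m : ℤ) * (r : ℤ) ^ 2 := by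
    rw [hm]
    push_cast
    ring
  rcases sorted (m : ℤ) a b c (by rw [← habc]; push_cast; ring) with hrep | hw
  · rw [hn']
    exact rep_mul_sq _ _ hrep
  obtain ⟨e, o, z, hw, he, hz, ho⟩ := hw
  by_cases hr5 : r = 5
  · subst hr5
    rw [hn']
    refine rep_three _ (3 * z - 4 * o) (4 * z + 3 * o) (5 * e) ?_ (Dvd.dvd.mul_left he 5)
      (dvd_mul_right 5 e)
    push_cast
    linear_combination 25 * hw
  · obtain ⟨s, t, u, k, hq, hs, htuk⟩ := quat r hr hr2 hr5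
    rw [hn', hq]
    refine rot_step m s t u k e o z hs htuk ?_ hw he ho hz
    rw [← hq]
    intro h0
    have h1 : 5 ∣ r := by exact_mod_cast h0
    exact hr5 ((Nat.prime_dvd_prime_iff_eq (by norm_num) hr).1 h1).symm

end Pool.Agent.Work.MP_9954fe_nt
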