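import Pool.Agent.Work.MP_9954fe_nt.Val
import Pool.Agent.Work.MP_9954fe_nt.Genus
import Pool.Agent.Work.MP_9954fe_nt.NonSqfree

/-!
From the checks of the data to the exceptional numbers.
-/

set_option autoImplicit false

namespace Pool.Agent.Work.MP_9954fe_nt

/-- `-10 n` is a nonzero square modulo `p`. -/
def Split (p : ℕ) (n : ℤ) : Prop := ¬ (p : ℤ) ∣ n ∧ ∃ r : ℤ, (p : ℤ) ∣ r ^ 2 + 10 * n

/-- The eighteen known exceptions. -/
def EE : List ℕ := [3, 7, 21, 31, 33, 43, 67, 79, 87, 133, 217, 219, 223, 253, 307, 391, 679, 2719]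

/-- Every listed value is even, a known exception or represented. -/
def okb : List ℕ → List V → Bool
  | [], _ => true
  | m :: ms, w :: ws => (Nat.beq (m % 2) 0 || (EE.contains m || ez (w.1 * w.1 + w.2.1 * w.2.1 +
      10 * w.2.2 * w.2.2 - Int.ofNat m))) && okb ms ws
  | _, _ => false

theorem okb_sound : ∀ {ms : List ℕ} {ws : List V}, okb ms ws = true → ∀ m ∈ ms,
    m % 2 = 0 ∨ m ∈ EE ∨ Rep m := by
  intro ms
  induction ms with
  | nil => intro ws _ m hm; simp at hm
  | cons a ms ih =>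
    intro ws h m hm
    cases ws with
    | nil => simp [okb] at h
    | cons w ws =>
      unfold okb at h
      simp only [Bool.and_eq_true, Bool.or_eq_true] at h
      obtain ⟨h1, h2⟩ := h
      rcases List.mem_cons.mp hm with rfl | hm
      · rcases h1 with h1 | h1 | h1
        · exact Or.inl (beq_iff.mp h1)
        · exact Or.inr (Or.inl (List.contains_iff_mem.mp h1))
        · right; right
          rw [ez_iff] at h1
          refine ⟨w.1, w.2.1, w.2.2, ?_⟩
          have h3 : Int.ofNat m = (m : ℤ) := rfl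
          rw [h3] at h1
          linarith
      · exact ih h2 m hm

theorem all1 {φ : ℕ → PD → Prop} {P0 : PD} (h0 : φ 0 P0) :
    ∀ (j : ℕ) (P : PD), [P0][j]? = some P → φ j P := by
  intro j P h
  match j, h with
  | 0, h => simp only [List.getElem?_cons_zero, Option.some.injEq] at h; rw [← h]; exact h0
  | j + 1, h => simp at h

theorem all2 {φ : ℕ → PD → Prop} {P0 P1 : PD} (h0 : φ 0 P0) (h1 : φ 1 P1) :
    ∀ (j : ℕ) (P : PD), [P0, P1][j]? = some P → φ j P := by
  intro j P h
  match j, h with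
  | 0, h => simp only [List.getElem?_cons_zero, Option.some.injEq] at h; rw [← h]; exact h0
  | 1, h =>
    simp only [List.getElem?_cons_zero, List.getElem?_cons_succ, Option.some.injEq] at h
    rw [← h]; exact h1
  | j + 2, h => simp at h

theorem all3 {φ : ℕ → PD → Prop} {P0 P1 P2 : PD} (h0 : φ 0 P0) (h1 : φ 1 P1) (h2 : φ 2 P2) :
    ∀ (j : ℕ) (P : PD), [P0, P1, P2][j]? = some P → φ j P := by
  intro j P h
  match j, h with
  | 0, h => simp only [List.getElem?_cons_zero, Option.some.injEq] at h; rw [← h]; exact h0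
  | 1, h =>
    simp only [List.getElem?_cons_zero, List.getElem?_cons_succ, Option.some.injEq] at h
    rw [← h]; exact h1
  | 2, h =>
    simp only [List.getElem?_cons_zero, List.getElem?_cons_succ, Option.some.injEq] at h
    rw [← h]; exact h2
  | j + 3, h => simp at h

/-- The conclusion from the checks. -/
theorem concl {S : Pr} {P0 : PD} {Pl : List PD} {Pm : PD} {cn : ℕ} {L : List C1} {U : List Mv}
    {ws : List V}
    (hok : ∀ P ∈ P0 :: Pl, P.Ok) (hm : Pm.Ok) (h1 : tyb Pm S.ty1 L = true)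
    (h2 : ∀ (j : ℕ) (P : PD), (P0 :: Pl)[j]? = some P → ∃ L, tyb P (S.tys.getD j 0) L = true)
    (h3 : ∀ (j : ℕ) (P : PD), (P0 :: Pl)[j]? = some P →
      Nat.ble (S.pks.getD j 0) (Nat.pow P.p P.K) = true)
    (h4 : mscb S P0 Pl Pm cn = true)
    (h5 : ∀ (i : ℕ) (P : PD), (P0 :: Pl)[i]? = some P → mvsb S P0 Pl Pm cn i P = true)
    (h6 : mmsb S P0 Pl Pm cn = true) (h7 : unb S P0 cn U = true)
    (h8 : ∀ d < P0.p, cn.testBit d = true → part S (zc (P0 :: Pl)) d = true)
    (h9 : okb S.oks ws = true) (n : ℕ) (ho : Odd n) (hr : ¬ Rep n)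
    (hs : ∀ P ∈ P0 :: Pl, Split P.p n) (hsm : Split Pm.p n) : n ∈ EE := by
  obtain ⟨k1, k2, k3, k4, k5, c0, t0, k6, k7, k8, k9⟩ := mscb_sound h4
  have hV : Val S P0 Pl Pm cn :=
    { okd := hok
      okm := hm
      len := k1
      pm := k2
      full := k3
      ty1 := tyb_sound h1
      tys := fun j P hP => by
        obtain ⟨L, hL⟩ := h2 j P hP
        exact tyb_sound hL
      pks := fun j P hP => ble_iff.mp (h3 j P hP)
      lab := k4
      mv := fun i P hP => mvsb_sound (h5 i P hP)
      mm := mmsb_sound h6 }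
  have hC : Ctx S P0 Pl Pm cn n :=
    { hV with
      bad := hr
      nd := fun P hP => (hs P hP).1
      ndm := hsm.1 }
  have hR : RootOk S P0 Pl cn := ⟨⟨c0, t0, k6, k7, k8, k9⟩, k5, h8⟩
  rcases genus_odd n ho with h | ⟨v, hv⟩
  · exact absurd h hr
  · obtain ⟨v, x0, xr, hc, l, hl⟩ := hC.exists_cnr (unb_sound h7) (fun P hP => (hs P hP).2) hsm.2 hv
    obtain ⟨t, m, hm, ht⟩ := hC.final hR hc hl
    have hsf : Squarefree n := by
      by_contra h
      exact hr (rep_of_not_squarefree n ho h)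
    have ht' : n = t.natAbs ^ 2 * m := by
      have : (n : ℤ) = ((t.natAbs ^ 2 * m : ℕ) : ℤ) := by
        rw [ht]; push_cast; rw [sq_abs]
      exact_mod_cast this
    have hu : IsUnit t.natAbs := hsf t.natAbs ⟨m, by rw [ht']; ring⟩
    have h1 : t.natAbs = 1 := Nat.isUnit_iff.mp hu
    have hnm : n = m := by rw [ht', h1]; ring
    subst hnm
    rcases okb_sound h9 n hm with h | h | h
    · exact absurd (Nat.odd_iff.mp ho) (by omega)
    · exact h
    · exact absurd h hr

end Pool.Agent.Work.MP_9954fe_nt
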