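import Mathlib

/-!
Ramanujan's ternary form: basic definitions for the rank two argument.
`Qf` is the second form of the genus of `x^2+y^2+10z^2`, `Qs` is ten times its dual form.
-/

set_option autoImplicit false

namespace Pool.Agent.Work.MP_9954fe_nt

/-- Integer vectors (and covectors). -/
abbrev V := ℤ × ℤ × ℤ

/-- `n` is represented by `x^2+y^2+10z^2`. -/
def Rep (n : ℤ) : Prop := ∃ x y z : ℤ, n = x ^ 2 + y ^ 2 + 10 * z ^ 2

/-- The second form of the genus: `2x^2-2xz+3z^2+2y^2`. -/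
def Qf (v : V) : ℤ := 2 * v.1 ^ 2 - 2 * v.1 * v.2.2 + 3 * v.2.2 ^ 2 + 2 * v.2.1 ^ 2

/-- Ten times the dual form of `Qf`. -/
def Qs (l : V) : ℤ := 6 * l.1 ^ 2 + 5 * l.2.1 ^ 2 + 4 * l.2.2 ^ 2 + 4 * l.1 * l.2.2

/-- The first form of the genus. -/
def Q1 (v : V) : ℤ := v.1 ^ 2 + v.2.1 ^ 2 + 10 * v.2.2 ^ 2

/-- Pairing of a covector and a vector. -/
def dot (l v : V) : ℤ := l.1 * v.1 + l.2.1 * v.2.1 + l.2.2 * v.2.2

/-- Cross product. -/
def cross (v w : V) : V :=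
  (v.2.1 * w.2.2 - v.2.2 * w.2.1, v.2.2 * w.1 - v.1 * w.2.2, v.1 * w.2.1 - v.2.1 * w.1)

end Pool.Agent.Work.MP_9954fe_nt
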