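import Pool.Agent.Work.MP_9954fe_nt.Step

/-!
Soundness of the checks of events.
-/

set_option autoImplicit false

namespace Pool.Agent.Work.MP_9954fe_nt

variable {S : Pr} {P0 : PD} {Pl : List PD} {Pm : PD} {cn : ℕ} {n : ℤ}

theorem mvq_true {k : Mv → Cs → Bool} {i : ℕ} {cs : Cs} (h : mvq S k i cs = true) :
    ∃ p0 X0 Q0 p X P, nth cs 0 = some (p0, X0, Q0) ∧ nth cs i = some (p, X, P) ∧
      (app (S.tab i (X0 % p0) (if i = 0 then X / p % p else X % p)).mo (shiftc cs i) = .dead ∨
        ∃ cs', app (S.tab i (X0 % p0) (if i = 0 then X / p % p else X % p)).mo (shiftc cs i) = .ok cs' ∧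
          k (S.tab i (X0 % p0) (if i = 0 then X / p % p else X % p)) cs' = true) := by
  have h0 : mvq S k i cs = getc false cs (fun p0 X0 _ => fo (X0 % p0) (fun l => getc false cs (fun p X _ =>
    fo (Nat.rec (motive := fun _ => ℕ) (Nat.mod (Nat.div X p) p) (fun _ _ => Nat.mod X p) i)
      (fun e => Rs.rec (motive := fun _ => Bool) true false (fun cs' => k (S.tab i l e) cs')
        (app (S.tab i l e).mo (shiftc cs i)))) i)) 0 := rfl
  rw [h0] at h
  obtain ⟨p0, X0, Q0, h1, h2⟩ := getc_true h
  rw [fo_eq] at h2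
  obtain ⟨p, X, P, h3, h4⟩ := getc_true h2
  rw [fo_eq] at h4
  have he : (Nat.rec (motive := fun _ => ℕ) (Nat.mod (Nat.div X p) p) (fun _ _ => Nat.mod X p) i : ℕ) =
      if i = 0 then X / p % p else X % p := by
    cases i with
    | zero => rfl
    | succ i => rw [if_neg (by omega)]; rfl
  rw [he] at h4
  refine ⟨p0, X0, Q0, p, X, P, h1, h3, ?_⟩
  generalize hm : S.tab i (X0 % p0) (if i = 0 then X / p % p else X % p) = mv at h4
  rcases ha : app mv.mo (shiftc cs i) with _ | _ | cs'
  · exact Or.inl rfl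
  · rw [ha] at h4; exact absurd h4 (by simp)
  · rw [ha] at h4; exact Or.inr ⟨cs', rfl, h4⟩

/-- `v'` with its residues is obtained from `v` by the move `mv` in direction `i`. -/
structure Mvd (S : Pr) (P0 : PD) (Pl : List PD) (Pm : PD) (i : ℕ) (v : V) (x0 : ℕ) (xr : List ℕ)
    (v' : V) (y0 : ℕ) (yr : List ℕ) (mv : Mv) : Prop where
  mul : i = 0 → mv.M.mul v = smul (P0.p : ℤ) v'
  img : Img mv.mo (shiftc (E (P0 :: Pl) (x0 :: xr)) i) (E (P0 :: Pl) (y0 :: yr))
  line : ∀ l, Line Pm v l → ∃ l', Line Pm v' l' ∧ ¬ Pm.p ∣ mv.c * l + mv.d ∧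
    (mv.c * l + mv.d) * l' ≡ mv.a * l + mv.b [MOD Pm.p]
  eq : i = 0 → mv = S.tab 0 (x0 % P0.p) (x0 / P0.p % P0.p)

theorem mod_digit {x p k : ℕ} (hk : 2 ≤ k) : x % p ^ k / p % p = x / p % p := by
  obtain ⟨k', rfl⟩ : ∃ k', k = k' + 2 := ⟨k - 2, by omega⟩
  rw [pow_succ', Nat.mod_mul_right_div_self]
  exact Nat.mod_mod_of_dvd _ (dvd_pow_self p (by omega))

theorem pow_lt_of {p k : ℕ} (hp : 1 < p) (h : p < p ^ k) : 2 ≤ k := by
  by_contra hk
  have : k = 0 ∨ k = 1 := by omega
  rcases this with rfl | rfl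
  · rw [pow_zero] at h; omega
  · rw [pow_one] at h; omega

/-- The move for residues `cs` known of a corner. -/
theorem Ctx.moveq (H : Ctx S P0 Pl Pm cn n) {v : V} {x0 : ℕ} {xr : List ℕ}
    (hc : Cnr P0 Pl cn n v x0 xr) {er cs : Cs} (hS : St (P0 :: Pl) (x0 :: xr) er cs)
    (h0 : ∀ p X P, nth cs 0 = some (p, X, P) → p ≤ P) {i p0 X0 Q0 p X P : ℕ}
    (hn0 : nth cs 0 = some (p0, X0, Q0)) (hni : nth cs i = some (p, X, P)) (hi : p < P) :
    ∃ v' y0 yr, Mvd S P0 Pl Pm i v x0 xr v' y0 yr
        (S.tab i (X0 % p0) (if i = 0 then X / p % p else X % p)) ∧ Cnr P0 Pl cn n v' y0 yr ∧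
      (app (S.tab i (X0 % p0) (if i = 0 then X / p % p else X % p)).mo (shiftc cs i) = .bad ∨
        ∃ cs', app (S.tab i (X0 % p0) (if i = 0 then X / p % p else X % p)).mo (shiftc cs i) = .ok cs' ∧
          Co (E (P0 :: Pl) (y0 :: yr)) cs') := by
  obtain ⟨D0, x0', k0, h1, h2, h3, h4, h5, h6, h7, -⟩ := hS.nth hn0
  obtain ⟨D, x, k, g1, g2, g3, g4, g5, g6, g7, -⟩ := hS.nth hni
  have hk0 : 1 ≤ k0 := by
    by_contra hk
    have : k0 = 0 := by omega
    have h8 := h0 _ _ _ hn0
    rw [h7, h3, this, pow_zero] at h8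
    have := h4.one_lt
    omega
  have hk : 2 ≤ k := pow_lt_of g4.one_lt (by rw [← g7, ← g3]; exact hi)
  simp only [List.getElem?_cons_zero, Option.some.injEq] at h1 h2
  subst h1 h2
  have e0 : X0 % p0 = x0 % P0.p := by
    rw [h6, h3]; exact Nat.mod_mod_of_dvd _ (dvd_pow_self _ (by omega))
  have ei : (if i = 0 then X / p % p else X % p) = if i = 0 then x0 / P0.p % P0.p else x % D.p := by
    by_cases hi0 : i = 0
    · rw [if_pos hi0, if_pos hi0]
      subst hi0
      simp only [List.getElem?_cons_zero, Option.some.injEq] at g1 g2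
      subst g1 g2
      rw [g6, g3]
      exact mod_digit hk
    · rw [if_neg hi0, if_neg hi0, g6, g3]
      exact Nat.mod_mod_of_dvd _ (dvd_pow_self _ (by omega))
  rw [e0, ei]
  obtain ⟨v', y0, yr, f1, f2, f3, f4⟩ := H.move hc g1 g2 rfl
  refine ⟨v', y0, yr, ⟨?_, f3, f4, ?_⟩, f1, ?_⟩
  · rintro rfl
    simp only [List.getElem?_cons_zero, Option.some.injEq] at g1
    subst g1
    exact f2
  · rintro rfl
    rw [if_pos rfl]
  · have hco := hS.co.shift hni (by have := g4.one_lt; omega)
    exact app_sound (f3.co hco)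

/-- Soundness of `mvq`. -/
theorem Ctx.mvq_sound (H : Ctx S P0 Pl Pm cn n) {v : V} {x0 : ℕ} {xr : List ℕ}
    (hc : Cnr P0 Pl cn n v x0 xr) {er cs : Cs} (hS : St (P0 :: Pl) (x0 :: xr) er cs)
    (h0 : ∀ p X P, nth cs 0 = some (p, X, P) → p ≤ P) {i : ℕ}
    (hi : ∀ p X P, nth cs i = some (p, X, P) → p < P) {k : Mv → Cs → Bool}
    (hq : mvq S k i cs = true) :
    ∃ v' y0 yr mv cs', Mvd S P0 Pl Pm i v x0 xr v' y0 yr mv ∧ Cnr P0 Pl cn n v' y0 yr ∧
      k mv cs' = true ∧ Co (E (P0 :: Pl) (y0 :: yr)) cs' := by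
  obtain ⟨p0, X0, Q0, p, X, P, h1, h2, h3⟩ := mvq_true hq
  obtain ⟨v', y0, yr, g1, g2, g3⟩ := H.moveq hc hS h0 h1 h2 (hi _ _ _ h2)
  rcases g3 with g3 | ⟨cs', g3, g4⟩
  · rcases h3 with h3 | ⟨cs'', h3, -⟩
    · rw [g3] at h3; exact absurd h3 (by simp)
    · rw [g3] at h3; exact absurd h3 (by simp)
  · rcases h3 with h3 | ⟨cs'', h3, h4⟩
    · rw [g3] at h3; exact absurd h3 (by simp)
    · rw [g3] at h3
      simp only [Rs.ok.injEq] at h3
      subst h3
      exact ⟨v', y0, yr, _, cs', g1, g2, h4, g4⟩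

theorem nth_push {cs : Cs} {d : ℕ} : ∀ {j i p X P : ℕ}, nth cs j = some (p, X, P) →
    nth (push cs d i) j = if j = i then some (p, X + d * P, P * p) else some (p, X, P) := by
  induction cs with
  | nil => intro j i p X P h; simp [nth] at h
  | cons q Y Q t ih =>
    intro j i p X P h
    cases i with
    | zero =>
      rw [push_zero]
      cases j with
      | zero =>
        simp only [nth, Option.some.injEq, Prod.mk.injEq] at h
        obtain ⟨rfl, rfl, rfl⟩ := h
        rw [if_pos rfl]; rfl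
      | succ j => rw [if_neg (by omega)]; exact h
    | succ i =>
      rw [push_succ]
      cases j with
      | zero => rw [if_neg (by omega)]; exact h
      | succ j =>
        have h2 := ih (j := j) (i := i) h
        simp only [nth]
        rw [h2]
        by_cases hji : j = i
        · rw [if_pos hji, if_pos (by omega)]
        · rw [if_neg hji, if_neg (by omega)]

theorem nth_push' {cs : Cs} {d : ℕ} : ∀ {j i : ℕ} {r : ℕ × ℕ × ℕ}, nth (push cs d i) j = some r →
    ∃ p X P, nth cs j = some (p, X, P) ∧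
      r = if j = i then (p, X + d * P, P * p) else (p, X, P) := by
  induction cs with
  | nil => intro j i r h; simp [nth, push] at h
  | cons q Y Q t ih =>
    intro j i r h
    cases i with
    | zero =>
      rw [push_zero] at h
      cases j with
      | zero =>
        simp only [nth, Option.some.injEq] at h
        exact ⟨q, Y, Q, rfl, by rw [if_pos rfl]; exact h.symm⟩
      | succ j =>
        simp only [nth] at h
        exact ⟨r.1, r.2.1, r.2.2, h, by rw [if_neg (by omega)]⟩
    | succ i =>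
      rw [push_succ] at h
      cases j with
      | zero =>
        simp only [nth, Option.some.injEq] at h
        exact ⟨q, Y, Q, rfl, by rw [if_neg (by omega)]; exact h.symm⟩
      | succ j =>
        simp only [nth] at h
        obtain ⟨p, X, P, h1, h2⟩ := ih h
        refine ⟨p, X, P, h1, ?_⟩
        by_cases hji : j = i
        · rw [if_pos hji] at h2; rw [if_pos (by omega), h2]
        · rw [if_neg hji] at h2; rw [if_neg (by omega), h2]

/-- Some digit of the first prime is known. -/
def K0 (cs : Cs) : Prop := ∀ p X P, nth cs 0 = some (p, X, P) → p ≤ P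

theorem K0.push {cs : Cs} (h : K0 cs) (hp : ∀ p X P, nth cs 0 = some (p, X, P) → 0 < p) (d i : ℕ) :
    K0 (push cs d i) := by
  intro p X P h1
  obtain ⟨p', X', P', h2, h3⟩ := nth_push' h1
  have h4 := h _ _ _ h2
  have h5 := hp _ _ _ h2
  split_ifs at h3 with h6
  · simp only [Prod.mk.injEq] at h3
    obtain ⟨rfl, rfl, rfl⟩ := h3
    exact h4.trans (Nat.le_mul_of_pos_right _ h5)
  · simp only [Prod.mk.injEq] at h3
    obtain ⟨rfl, rfl, rfl⟩ := h3
    exact h4

theorem St.pos {Ps : List PD} {xs : List ℕ} {er cs : Cs} (h : St Ps xs er cs) :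
    ∀ p X P, MP_9954fe_nt.nth cs 0 = some (p, X, P) → 0 < p := by
  intro p X P h1
  obtain ⟨D, x, k, -, -, h3, h4, -⟩ := h.nth h1
  rw [h3]; exact h4.pos

/-- Soundness of `mvs`. -/
theorem Ctx.mvs_sound (H : Ctx S P0 Pl Pm cn n) {v : V} {x0 : ℕ} {xr : List ℕ}
    (hc : Cnr P0 Pl cn n v x0 xr) {er cs : Cs} (hS : St (P0 :: Pl) (x0 :: xr) er cs)
    (h0 : K0 cs) {i : ℕ} {k : Mv → Cs → Bool} (hq : mvs S k i cs = true) :
    ∃ v' y0 yr mv cs', Mvd S P0 Pl Pm i v x0 xr v' y0 yr mv ∧ Cnr P0 Pl cn n v' y0 yr ∧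
      k mv cs' = true ∧ Co (E (P0 :: Pl) (y0 :: yr)) cs' := by
  have hq' : getc false cs (fun p _ P => bi (Nat.beq P p)
    (alln (fun d => mvq S k i (push cs d i)) p) (bi (Nat.ble P p) false (mvq S k i cs))) i = true := hq
  obtain ⟨p, X, P, h1, h2⟩ := getc_true hq'
  obtain ⟨D, x, m, g1, g2, g3, g4, g5, g6, g7, g8⟩ := hS.nth h1
  by_cases hP : P = p
  · rw [beq_iff.mpr hP, bi_true, alln_iff] at h2
    have hm : m = 1 := by
      have h3 : D.p ^ m = D.p ^ 1 := by rw [← g7, hP, g3, pow_one]
      exact Nat.pow_right_injective g4.two_le h3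
    have hK := (H.okd D (mem_of_get g1)).K2
    obtain ⟨er', g9, g10⟩ := g8 (by omega)
    have h3 := h2 (x / D.p ^ m % D.p) (by rw [g3]; exact Nat.mod_lt _ g4.pos)
    refine H.mvq_sound hc g10 (h0.push hS.pos _ _) ?_ h3
    intro q Y Q hq2
    rw [nth_push h1, if_pos rfl] at hq2
    simp only [Option.some.injEq, Prod.mk.injEq] at hq2
    obtain ⟨rfl, -, rfl⟩ := hq2
    rw [hP, g3]
    have := g4.two_le
    nlinarith
  · rw [beq_false.mpr hP, bi_false] at h2
    by_cases hP2 : P ≤ p
    · rw [ble_iff.mpr hP2, bi_true] at h2; exact absurd h2 (by simp)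
    · rw [ble_false.mpr (by omega), bi_false] at h2
      refine H.mvq_sound hc hS h0 ?_ h2
      intro q Y Q hq2
      rw [h1] at hq2
      simp only [Option.some.injEq, Prod.mk.injEq] at hq2
      obtain ⟨rfl, -, rfl⟩ := hq2
      omega

/-- A full test kills a corner. -/
theorem Ctx.dead_of_full (H : Ctx S P0 Pl Pm cn n) {c : ℕ} (hcl : Cl S P0 Pl Pm cn n c) {v : V}
    {x0 : ℕ} {xr : List ℕ} (hc : Cnr P0 Pl cn n v x0 xr) {l : ℕ} (hl : Line Pm v l) {cs : Cs}
    (hco : Co (E (P0 :: Pl) (x0 :: xr)) cs)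
    (hf : Nat.beq (Nat.lor (Qm S.full S.T 0 S.ls cs c 0) S.ty1) S.full = true) : False := by
  have h1 := H.no_line hc.q hl hf
  have h2 := (Qm_mono S.full S.T S.ls _ cs c l hco).1 0 0 h1
  rw [hcl v x0 xr hc l hl] at h2
  exact absurd h2 (by simp)

/-! ### Events with an unknown next digit -/

theorem Rs.mp_ok {r : Rs} {f : Cs → Cs} {t : Cs} (h : r.mp f = .ok t) : ∃ u, r = .ok u ∧ t = f u := by
  cases r with
  | dead => simp [Rs.mp] at h
  | bad => simp [Rs.mp] at h
  | ok u => simp only [Rs.mp, Rs.ok.injEq] at h; exact ⟨u, rfl, h.symm⟩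

theorem Rs.mp_dead {r : Rs} {f : Cs → Cs} (h : r.mp f = .dead) : r = .dead := by
  cases r with
  | dead => rfl
  | bad => simp [Rs.mp] at h
  | ok u => simp [Rs.mp] at h

theorem app_cons_ok {a b c d : ℕ} {mo : Mo} {p X P : ℕ} {t cs' : Cs}
    (h : app (.cons a b c d mo) (.cons p X P t) = .ok cs') : ∃ t', app mo t = .ok t' ∧
      ((P ≤ 1 ∧ cs' = .cons p 0 P t') ∨ (1 < P ∧ (c * X + d) % P % p ≠ 0 ∧ ∃ X', X' < P ∧
        ((c * X + d) * X' ≡ a * X + b [MOD P] ∧
          X' = (a * X + b) * inv p P ((c * X + d) % P) % P) ∧ cs' = .cons p X' P t')) := by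
  rw [app_cons] at h
  by_cases hP : P ≤ 1
  · rw [ble_iff.mpr hP, bi_true] at h
    obtain ⟨u, h1, h2⟩ := Rs.mp_ok h
    exact ⟨u, h1, Or.inl ⟨hP, h2⟩⟩
  · rw [ble_false.mpr (by omega), bi_false] at h
    by_cases h3 : (c * X + d) % P % p = 0
    · rw [beq_iff.mpr h3, bi_true] at h; exact absurd h (by simp)
    · rw [beq_false.mpr h3, bi_false] at h
      by_cases h4 : ((c * X + d) % P) * inv p P ((c * X + d) % P) % P = 1
      · rw [beq_iff.mpr h4, bi_true] at h
        obtain ⟨u, h1, h2⟩ := Rs.mp_ok h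
        refine ⟨u, h1, Or.inr ⟨by omega, h3, _, Nat.mod_lt _ (by omega), ⟨?_, rfl⟩, h2⟩⟩
        set I := inv p P ((c * X + d) % P) with hI
        have h5 : (c * X + d) * I ≡ 1 [MOD P] := by
          have h6 : (c * X + d) % P * I ≡ (c * X + d) * I [MOD P] :=
            (Nat.mod_modEq _ _).mul_right _
          have h7 : (c * X + d) % P * I ≡ 1 [MOD P] := by
            unfold Nat.ModEq; rw [h4, Nat.mod_eq_of_lt (by omega)]
          exact h6.symm.trans h7
        calc (c * X + d) * ((a * X + b) * I % P) ≡ (c * X + d) * ((a * X + b) * I) [MOD P] :=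
              (Nat.mod_modEq _ _).mul_left _
          _ = ((c * X + d) * I) * (a * X + b) := by ring
          _ ≡ 1 * (a * X + b) [MOD P] := h5.mul_right _
          _ = a * X + b := one_mul _
      · rw [beq_false.mpr h4, bi_false] at h; exact absurd h (by simp)

theorem app_cons_dead {a b c d : ℕ} {mo : Mo} {p X P : ℕ} {t : Cs}
    (h : app (.cons a b c d mo) (.cons p X P t) = .dead) :
    app mo t = .dead ∨ (1 < P ∧ (c * X + d) % P % p = 0) := by
  rw [app_cons] at h
  by_cases hP : P ≤ 1
  · rw [ble_iff.mpr hP, bi_true] at h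
    exact Or.inl (Rs.mp_dead h)
  · rw [ble_false.mpr (by omega), bi_false] at h
    by_cases h3 : (c * X + d) % P % p = 0
    · exact Or.inr ⟨by omega, h3⟩
    · rw [beq_false.mpr h3, bi_false] at h
      by_cases h4 : ((c * X + d) % P) * inv p P ((c * X + d) % P) % P = 1
      · rw [beq_iff.mpr h4, bi_true] at h
        exact Or.inl (Rs.mp_dead h)
      · rw [beq_false.mpr h4, bi_false] at h; exact absurd h (by simp)

theorem app_ok_co {mo : Mo} {cs ec cs' : Cs} (h : Img mo cs ec) (h1 : app mo cs = .ok cs') :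
    Co ec cs' := by
  rcases app_sound h with h2 | ⟨cs'', h2, h3⟩
  · rw [h2] at h1; exact absurd h1 (by simp)
  · rw [h2] at h1
    simp only [Rs.ok.injEq] at h1
    rw [← h1]; exact h3

theorem nth_E {Ps : List PD} : ∀ {xs : List ℕ} {i : ℕ} {D : PD} {x : ℕ}, Ps[i]? = some D →
    xs[i]? = some x → nth (E Ps xs) i = some (D.p, x, D.p ^ D.K) := by
  induction Ps with
  | nil => intro xs i D x h; simp at h
  | cons P Ps ih =>
    intro xs i D x h1 h2
    cases xs with
    | nil => simp at h2
    | cons y xs =>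
      cases i with
      | zero =>
        simp only [List.getElem?_cons_zero, Option.some.injEq] at h1 h2
        subst h1 h2
        rfl
      | succ i =>
        simp only [List.getElem?_cons_succ] at h1 h2
        exact ih h1 h2


theorem QE_sound {full x y : ℕ} (hxy : y ≠ x) (hy : y ≠ ALL) (T : Tr) : ∀ {ls : List ℕ} {cs : Cs}
    {c df l : ℕ}, (QE full x T ls cs c).testBit l = true → df.testBit l = true →
    (Qm full T y ls cs c df).testBit l = true := by
  induction T with
  | dd => intro ls cs c df l h _; exact absurd h (by simp [QE])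
  | fin c0 => intro ls cs c df l h _; exact absurd h (by simp [QE])
  | ev c' m t ih => intro ls cs c df l h _; exact absurd h (by simp [QE])
  | nd c' t ih => intro ls cs c df l h _; exact absurd h (by simp [QE])
  | br m u v ihu ihv =>
    intro ls cs c df l h hdf
    have h' : (lnd (QE full x u ls cs c) (QE full x v ls cs c)).testBit l = true := h
    rw [lnd_eq, land_bit, Bool.and_eq_true] at h'
    rw [Qm_br, beq_false.mpr hy, bi_false]
    cases Nat.ble m y
    · exact ihu h'.1 hdf
    · exact ihv h'.2 hdf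
  | ch d' t ih =>
    intro ls cs c df l h hdf
    have h' : (bi (Nat.beq d' x) full (Qm full t 0 ls cs c 0)).testBit l = true := h
    rw [Qm_ch, beq_false.mpr hy, bi_false]
    by_cases hd : y = d'
    · subst hd
      rw [beq_false.mpr hxy, bi_false] at h'
      rw [beq_iff.mpr rfl, bi_true]
      exact h'
    · rw [beq_false.mpr hd, bi_false]
      exact hdf

theorem rd_push_same {cs : Cs} {y : ℕ} : ∀ {j p : ℕ}, nth cs j = some (p, 0, 1) → y < p → 1 < p →
    rd (push cs y j) j = some (y, cs) := by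
  induction cs with
  | nil => intro j p h; simp [nth] at h
  | cons q Y Q t ih =>
    intro j p h hy hp
    cases j with
    | zero =>
      simp only [nth, Option.some.injEq, Prod.mk.injEq] at h
      obtain ⟨rfl, rfl, rfl⟩ := h
      rw [push_zero, rd, if_neg (by omega)]
      have h1 : (0 + y * 1) % q = y := by rw [Nat.zero_add, Nat.mul_one]; exact Nat.mod_eq_of_lt hy
      have h2 : (0 + y * 1) / q = 0 := by rw [Nat.zero_add, Nat.mul_one]; exact Nat.div_eq_of_lt hy
      have h3 : 1 * q / q = 1 := by rw [Nat.one_mul]; exact Nat.div_self (by omega)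
      rw [h1, h2, h3]
    | succ j =>
      rw [push_succ, rd, ih (j := j) h hy hp]
      rfl

theorem rd_push_other {cs : Cs} {y : ℕ} : ∀ {i j : ℕ}, i ≠ j →
    rd (push cs y j) i = (rd cs i).map (fun r => (r.1, push r.2 y j)) := by
  induction cs with
  | nil => intro i j _; rfl
  | cons q Y Q t ih =>
    intro i j hij
    cases j with
    | zero =>
      cases i with
      | zero => exact absurd rfl hij
      | succ i =>
        rw [push_zero, rd, rd]
        rcases rd t i with _ | r
        · rfl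
        · simp only [Option.map_some, push_zero]
    | succ j =>
      cases i with
      | zero =>
        rw [push_succ, rd, rd]
        by_cases h : Q ≤ 1
        · rw [if_pos h, if_pos h]; rfl
        · rw [if_neg h, if_neg h]
          simp only [Option.map_some, push_succ]
      | succ i =>
        rw [push_succ, rd, rd, ih (by omega : i ≠ j)]
        rcases rd t i with _ | r
        · rfl
        · simp only [Option.map_some, push_succ]

theorem nth_rd {cs : Cs} : ∀ {i j d : ℕ} {u : Cs}, i ≠ j → rd cs i = some (d, u) → nth u j = nth cs j := by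
  induction cs with
  | nil => intro i j d u _ h; simp [rd] at h
  | cons q Y Q t ih =>
    intro i j d u hij h
    cases i with
    | zero =>
      rw [rd] at h
      split_ifs at h with h1
      simp only [Option.some.injEq, Prod.mk.injEq] at h
      obtain ⟨-, rfl⟩ := h
      cases j with
      | zero => exact absurd rfl hij
      | succ j => rfl
    | succ i =>
      rw [rd, Option.map_eq_some_iff] at h
      obtain ⟨⟨d1, u1⟩, h1, h2⟩ := h
      simp only [Prod.mk.injEq] at h2
      obtain ⟨-, rfl⟩ := h2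
      cases j with
      | zero => rfl
      | succ j => exact ih (by omega : i ≠ j) h1

theorem QX_nd (full j x c' : ℕ) (t : Tr) (d : ℕ) (ls : List ℕ) (cs : Cs) (c df : ℕ) :
    QX full j x (.nd c' t) d ls cs c df = bi (Nat.beq (hd ls) j)
      (Nat.land (bi (Nat.ble c c') 0 full) (QE full x t (tl ls) cs c))
      (match rd cs (hd ls) with
      | none => Nat.land (bi (Nat.ble c c') 0 full)
          (QX full j x t ALL (tl ls) cs c (bi (Nat.ble c c') 0 full))
      | some r => QX full j x t r.1 (tl ls) r.2 c (bi (Nat.ble c c') 0 full)) := by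
  have h : QX full j x (.nd c' t) d ls cs c df = bi (Nat.beq (hd ls) j)
      (lnd (bi (Nat.ble c c') 0 full) (QE full x t (tl ls) cs c))
      (pop cs (hd ls)
        (fun cs' => lnd (bi (Nat.ble c c') 0 full)
          (QX full j x t ALL (tl ls) cs' c (bi (Nat.ble c c') 0 full)))
        (fun d cs' => QX full j x t d (tl ls) cs' c (bi (Nat.ble c c') 0 full))) := rfl
  rw [h, pop_eq]
  simp only [lnd_eq]
  rcases rd cs (hd ls) with _ | r <;> rfl

/-- Soundness of the query with an unknown digit. -/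
theorem QX_sound {full j x y p : ℕ} (hxy : y ≠ x) (hy : y ≠ ALL) (hyp : y < p) (hp : 1 < p) (T : Tr) :
    ∀ {d : ℕ} {ls : List ℕ} {cs : Cs} {c df l : ℕ}, nth cs j = some (p, 0, 1) →
    (QX full j x T d ls cs c df).testBit l = true →
    (Qm full T d ls (push cs y j) c df).testBit l = true := by
  induction T with
  | dd => intro d ls cs c df l _ h; exact absurd h (by simp [QX])
  | fin c0 => intro d ls cs c df l _ h; exact absurd h (by simp [QX])
  | ev c' m t ih =>
    intro d ls cs c df l hn h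
    have h' : (Nat.lor (bi (Nat.ble c c') 0 m) (QX full j x t d ls cs c df)).testBit l = true := h
    rw [lor_bit, Bool.or_eq_true] at h'
    rw [Qm_ev, lor_bit, Bool.or_eq_true]
    rcases h' with h' | h'
    · exact Or.inl h'
    · exact Or.inr (ih hn h')
  | nd c' t ih =>
    intro d ls cs c df l hn h
    rw [QX_nd] at h
    rw [Qm_nd]
    by_cases hj : hd ls = j
    · rw [beq_iff.mpr hj, bi_true, land_bit, Bool.and_eq_true] at h
      rw [hj, rd_push_same hn hyp hp]
      exact QE_sound hxy hy t h.2 h.1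
    · rw [beq_false.mpr hj, bi_false] at h
      rw [rd_push_other hj]
      rcases hr : rd cs (hd ls) with _ | ⟨e, u⟩
      · rw [hr] at h
        simp only [land_bit, Bool.and_eq_true] at h
        simp only [Option.map_none, land_bit, Bool.and_eq_true]
        exact ⟨h.1, ih hn h.2⟩
      · rw [hr] at h
        simp only [Option.map_some]
        exact ih (by rw [nth_rd hj hr]; exact hn) h
  | br m u v ihu ihv =>
    intro d ls cs c df l hn h
    have h' : (bi (Nat.beq d ALL) (lnd (QX full j x u d ls cs c df) (QX full j x v d ls cs c df))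
      (bi (Nat.ble m d) (QX full j x v d ls cs c df) (QX full j x u d ls cs c df))).testBit l = true := h
    rw [Qm_br]
    rcases hb : Nat.beq d ALL with _ | _
    · rw [hb, bi_false] at h'
      rw [bi_false]
      rcases hm : Nat.ble m d with _ | _
      · rw [hm, bi_false] at h'
        rw [bi_false]
        exact ihu hn h'
      · rw [hm, bi_true] at h'
        rw [bi_true]
        exact ihv hn h'
    · rw [hb, bi_true, lnd_eq, land_bit, Bool.and_eq_true] at h'
      rw [bi_true, land_bit, Bool.and_eq_true]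
      exact ⟨ihu hn h'.1, ihv hn h'.2⟩
  | ch d' t ih =>
    intro d ls cs c df l hn h
    have h' : (bi (Nat.beq d ALL) (QX full j x t 0 ls cs c 0)
      (bi (Nat.beq d d') (QX full j x t 0 ls cs c 0) df)).testBit l = true := h
    rw [Qm_ch]
    rcases hb : Nat.beq d ALL with _ | _
    · rw [hb, bi_false] at h'
      rw [bi_false]
      rcases hm : Nat.beq d d' with _ | _
      · rw [hm, bi_false] at h'
        rw [bi_false]
        exact h'
      · rw [hm, bi_true] at h'
        rw [bi_true]
        exact ih hn h'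
    · rw [hb, bi_true] at h'
      rw [bi_true]
      exact ih hn h'

/-- The digit of the way back. -/
theorem exc_sound {p a b c d : ℕ} {k : ℕ → Bool} (hp : p < 1000) (hp0 : 0 < p)
    (h : exc p a b c d k = true) :
    ∃ t, k t = true ∧ ∀ X y, (c * X + d) * y ≡ a * X + b [MOD p] → y % p ≠ t := by
  unfold exc at h
  rw [fo_eq] at h
  by_cases hc : Nat.mod c p = 0
  · rw [beq_iff.mpr hc, bi_true] at h
    refine ⟨ALL, h, ?_⟩
    intro X y _ hy
    have h1 : y % p < p := Nat.mod_lt _ hp0
    have h9 : ALL = 1000 := rfl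
    omega
  · rw [beq_false.mpr hc, bi_false, fo_eq, an_iff, an_iff, beq_iff] at h
    obtain ⟨h1, h2, h3⟩ := h
    refine ⟨_, h3, ?_⟩
    intro X y hxy hy
    have h4 : ¬ (Nat.mod (Nat.mul a d) p = Nat.mod (Nat.mul b c) p) := by
      intro h4
      rw [beq_iff.mpr h4, bi_true] at h2
      exact absurd h2 (by simp)
    apply h4
    set t := Nat.mod (Nat.mul a (Nat.pow (Nat.mod c p) (Nat.sub p 2))) p with ht
    have e1 : c * t ≡ a [MOD p] := by
      have : (c % p) * t ≡ a [MOD p] := h1
      exact ((Nat.mod_modEq c p).mul_right t).symm.trans this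
    have e2 : y ≡ t [MOD p] := by
      have : y % p = t := hy
      rw [← this]; exact (Nat.mod_modEq y p).symm
    have e3 : (c * X + d) * t ≡ a * X + b [MOD p] := (e2.mul_left _).symm.trans hxy
    have e4 : (c * X + d) * t ≡ a * X + d * t [MOD p] := by
      have : (c * X + d) * t = (c * t) * X + d * t := by ring
      rw [this]
      exact (e1.mul_right X).add_right _
    have e5 : d * t ≡ b [MOD p] := Nat.ModEq.add_left_cancel' (a * X) (e4.symm.trans e3)
    have e6 : a * d ≡ b * c [MOD p] := by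
      have f1 : a * d ≡ c * t * d [MOD p] := (e1.mul_right d).symm
      have f2 : c * t * d = (d * t) * c := by ring
      rw [f2] at f1
      exact f1.trans (e5.mul_right c)
    exact e6

theorem geto_zero (a b c d : ℕ) (mo : Mo) (k : ℕ → ℕ → ℕ → ℕ → Bool) :
    geto (.cons a b c d mo) k 0 = k a b c d := rfl
theorem geto_succ (a b c d : ℕ) (mo : Mo) (k : ℕ → ℕ → ℕ → ℕ → Bool) (i : ℕ) :
    geto (.cons a b c d mo) k (i + 1) = geto mo k i := rfl

/-- The image if the next digit is unknown. -/
theorem app_ex {mo : Mo} : ∀ {ex cs cs' ec : Cs} {i p X x K : ℕ}, p.Prime → 2 ≤ K →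
    Co ex cs → nth ex i = some (p, x, p ^ K) → nth cs i = some (p, X, p) →
    Img mo (shiftc ex i) ec → app mo (shiftc cs i) = .ok cs' →
    nth cs' i = some (p, 0, 1) ∧ ∃ y, Co ec (push cs' (y % p) i) ∧
      ∀ {k : ℕ → ℕ → ℕ → ℕ → Bool}, geto mo k i = true → ∃ a b c d Z, k a b c d = true ∧
        (c * Z + d) * y ≡ a * Z + b [MOD p] := by
  induction mo with
  | nil =>
    intro ex cs cs' ec i p X x K hp hK hco hex hcs hI ha
    exfalso
    cases ex with
    | nil => simp [nth] at hex
    | cons q Y Q t =>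
      cases i with
      | zero => rw [shiftc_zero] at hI; cases hI
      | succ i => rw [shiftc_succ] at hI; cases hI
  | cons a b c d mo ih =>
    intro ex cs cs' ec i p X x K hp hK hco hex hcs hI ha
    cases hco with
    | nil => simp [nth] at hex
    | @cons q Y Q Y' Q' t t' hq a1 b1 hab hQ hQ' hY hct =>
      cases i with
      | zero =>
        simp only [nth, Option.some.injEq, Prod.mk.injEq] at hex hcs
        obtain ⟨rfl, rfl, hQK⟩ := hex
        obtain ⟨-, rfl, hQp⟩ := hcs
        rw [shiftc_zero] at hI ha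
        have h1 : Q' / q = 1 := by rw [hQp]; exact Nat.div_self hp.pos
        have h2 : Q / q = q ^ (K - 1) := by
          rw [hQK]
          obtain ⟨K', rfl⟩ : ∃ K', K = K' + 1 := ⟨K - 1, by omega⟩
          rw [pow_succ, Nat.mul_div_cancel _ hp.pos]; rfl
        rw [h1, app_cons, ble_iff.mpr (le_refl 1), bi_true] at ha
        obtain ⟨u, hu, hcs'⟩ := Rs.mp_ok ha
        subst hcs'
        rw [h2] at hI
        cases hI with
        | @cons _ _ _ _ _ _ _ _ _ y Qe te hp' k' K' hkK hPk hQk hc ht =>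
          have hk1 : 1 ≤ k' := by
            by_contra hk
            have : k' = 0 := by omega
            rw [this, pow_zero] at hPk
            have : 1 < q ^ (K - 1) := Nat.one_lt_pow (by omega) hp.one_lt
            omega
          obtain ⟨c1, c2⟩ := hc hk1
          refine ⟨rfl, y, ?_, ?_⟩
          · rw [push_zero, Nat.zero_add, Nat.mul_one, Nat.one_mul]
            refine Co.cons hp.one_lt K' 1 (by omega) hQk (pow_one q).symm (Nat.mod_modEq _ _).symm ?_
            rcases app_sound (ht.co hct) with h3 | ⟨u', h3, h4⟩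
            · rw [h3] at hu; exact absurd hu (by simp)
            · rw [h3] at hu
              simp only [Rs.ok.injEq] at hu
              rw [← hu]; exact h4
          · intro k hk
            rw [geto_zero] at hk
            refine ⟨a, b, c, d, Y / q, hk, ?_⟩
            refine c2.of_dvd ?_
            exact dvd_pow_self q (by omega)
      | succ i =>
        have hall : Co ec cs' := app_ok_co
          (hI.co ((Co.cons hq a1 b1 hab hQ hQ' hY hct).shift hcs hp.one_lt)) ha
        rw [shiftc_succ] at hI ha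
        obtain ⟨u, hu, hcs'⟩ := app_cons_ok ha
        cases hI with
        | @cons _ _ _ _ _ _ _ _ _ y Qe te hp' k' K' hkK hPk hQk hc ht =>
          have hX : ∃ X'', cs' = .cons q X'' Q' u := by
            rcases hcs' with ⟨-, h⟩ | ⟨-, -, X'', -, -, h⟩
            · exact ⟨_, h⟩
            · exact ⟨_, h⟩
          obtain ⟨X'', rfl⟩ := hX
          obtain ⟨g1, y', g2, g3⟩ := ih hp hK hct hex hcs ht hu
          cases hall with
          | @cons _ _ _ _ _ _ _ hp2 a2 b2 hab2 hP2 hP2' hX2 ht2 =>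
            refine ⟨g1, y', ?_, ?_⟩
            · rw [push_succ]; exact Co.cons hp2 a2 b2 hab2 hP2 hP2' hX2 g2
            · intro k hk
              rw [geto_succ] at hk
              exact g3 hk

/-- Soundness of `evx`. -/
theorem Ctx.evx_sound (H : Ctx S P0 Pl Pm cn n) {c : ℕ} (hcl : Cl S P0 Pl Pm cn n c) {v : V}
    {x0 : ℕ} {xr : List ℕ} (hc : Cnr P0 Pl cn n v x0 xr) {er cs : Cs}
    (hS : St (P0 :: Pl) (x0 :: xr) er cs) (h0 : K0 cs) {m i : ℕ} (hi : i ≠ 0)
    (he : evx S i c m cs = true) {l : ℕ} (hl : Line Pm v l) (hml : m.testBit l = true) : False := by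
  have he' : getc false cs (fun p0 X0 _ => fo (Nat.mod X0 p0) (fun l => getc false cs (fun p X P =>
    an (Nat.beq P p) (fo (Nat.mod X p) (fun e =>
      Rs.rec (motive := fun _ => Bool) true false (fun cs' =>
        geto (S.tab i l e).mo (fun a b c1 d => exc p a b c1 d (fun x =>
          fo (Nat.lor (QX S.full i x S.T 0 S.ls cs' c 0) S.ty1) (fun q =>
            allb (fun l' => sg S.pm (S.tab i l e).a (S.tab i l e).b (S.tab i l e).c (S.tab i l e).d q l')
              S.pm m))) i)
        (app (S.tab i l e).mo (shiftc cs i))))) i)) 0 = true := he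
  obtain ⟨p0, X0, Q0, hn0, h2⟩ := getc_true he'
  rw [fo_eq] at h2
  obtain ⟨p, X, P, hni, h4⟩ := getc_true h2
  rw [an_iff, beq_iff, fo_eq] at h4
  obtain ⟨hPp, h5⟩ := h4
  subst hPp
  obtain ⟨D0, x0', k0, h1, h2, h3, h4, h5', h6, h7, -⟩ := hS.nth hn0
  obtain ⟨D, x, k, g1, g2, g3, g4, g5, g6, g7, -⟩ := hS.nth hni
  have hk0 : 1 ≤ k0 := by
    by_contra hk
    have : k0 = 0 := by omega
    have h8 := h0 _ _ _ hn0
    rw [h7, h3, this, pow_zero] at h8
    have := h4.one_lt
    omega
  have hk : k = 1 := by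
    have h8 : D.p ^ k = D.p ^ 1 := by rw [← g7, g3, pow_one]
    exact Nat.pow_right_injective g4.two_le h8
  subst hk
  simp only [List.getElem?_cons_zero, Option.some.injEq] at h1 h2
  subst h1 h2
  have e0 : Nat.mod X0 p0 = x0 % P0.p := by
    rw [h6, h3]; exact Nat.mod_mod_of_dvd _ (dvd_pow_self _ (by omega))
  have ei : Nat.mod X P = x % D.p := by
    rw [g6, g3, pow_one]; exact Nat.mod_mod _ _
  rw [e0, ei] at h5
  obtain ⟨v', y0, yr, f1, f2, f3, f4⟩ := H.move hc g1 g2 (e := x % D.p) (by rw [if_neg hi])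
  have hDok := H.okd D (mem_of_get g1)
  have hP1 : 1 < P := by rw [g3]; exact g4.one_lt
  have hPpr : P.Prime := by rw [g3]; exact g4
  have hco := hS.co.shift hni hP1
  rcases app_sound (f3.co hco) with f5 | ⟨cs', f5, f6⟩
  · rw [f5] at h5; exact absurd h5 (by simp)
  rw [f5] at h5
  simp only at h5
  have hex : nth (E (P0 :: Pl) (x0 :: xr)) i = some (P, x, P ^ D.K) := by
    rw [g3]; exact nth_E g1 g2
  obtain ⟨a1, y, a2, a3⟩ := app_ex hPpr hDok.K2 hS.co hex hni f3 f5
  obtain ⟨a, b, c1, d, Z, b1, b2⟩ := a3 h5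
  obtain ⟨t, b3, b4⟩ := exc_sound (by rw [g3]; exact hDok.small) hPpr.pos b1
  have hyt := b4 _ _ b2
  rw [fo_eq] at b3
  have c6 := allb_sound b3 l hml
  obtain ⟨l', d1, d2, d3⟩ := f4 l hl
  rw [H.pm] at c6
  have c7 := sg_sound H.okm.prime c6 (Nat.ModEq.refl l) d2 d3
  rw [Nat.mod_eq_of_lt d1.1] at c7
  have c8 := lor_false c7 (H.not_ty1 f1.q d1)
  have hyp : y % P < P := Nat.mod_lt _ hPpr.pos
  have hyA : y % P ≠ ALL := by
    have h9 : ALL = 1000 := rfl
    have := hDok.small
    rw [← g3] at this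
    omega
  have c9 := QX_sound hyt hyA hyp hP1 S.T a1 c8
  have c10 := (Qm_mono S.full S.T S.ls _ _ c l' a2).1 0 0 c9
  rw [hcl v' y0 yr f1 l' d1] at c10
  exact absurd c10 (by simp)

/-- Soundness of the checks of events. -/
theorem Ctx.evc_sound (H : Ctx S P0 Pl Pm cn n) {c : ℕ} (hcl : Cl S P0 Pl Pm cn n c) {v : V}
    {x0 : ℕ} {xr : List ℕ} (hc : Cnr P0 Pl cn n v x0 xr) {er cs : Cs}
    (hS : St (P0 :: Pl) (x0 :: xr) er cs) (h0 : K0 cs) {m acc : ℕ}
    (hacc : ∀ l, Line Pm v l → acc.testBit l = false) (he : evc S c m acc cs = true) :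
    ∀ l, Line Pm v l → m.testBit l = false := by
  have he' : fo (Nat.mod c 8) (fun i =>
    bi (Nat.beq i 5)
      (an (Nat.beq (Nat.lor (Nat.lor acc m) S.ty1) S.full) (Nat.beq m (Nat.pow 2 (Nat.log2 m))))
      (bi (Nat.beq i 4)
        (getc false cs (fun p0 X0 _ => fo (Nat.mod X0 p0) (fun l0 =>
          allb (fun l => Rs.rec (motive := fun _ => Bool) true false
              (fun cs' => Nat.beq (Nat.lor (Nat.lor (Qm S.full S.T 0 S.ls cs' c 0)
                (Nat.pow 2 (S.tab 4 l0 l).a)) S.ty1) S.full)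
              (app (S.tab 4 l0 l).mo cs)) S.pm m)) 0)
        (bi (Nat.ble 6 i) (evx S (Nat.sub i 5) c m cs)
          (mvs S (fun mv cs' => fo (Nat.lor (Qm S.full S.T 0 S.ls cs' c 0) S.ty1)
            (fun q => allb (fun l => sg S.pm mv.a mv.b mv.c mv.d q l) S.pm m)) i cs)))) = true := he
  rw [fo_eq] at he'
  intro l hl
  rcases hml : m.testBit l with _ | _
  · rfl
  exfalso
  by_cases h5 : Nat.mod c 8 = 5
  · rw [beq_iff.mpr h5, bi_true, an_iff] at he'
    obtain ⟨h6, h7⟩ := he'
    rw [beq_iff] at h7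
    obtain ⟨l', h8, h9⟩ := hl.other H.okm H.bad H.ndm hc.q
    have h10 := H.no_line hc.q h9 h6
    rw [lor_bit, hacc l' h9, Bool.false_or, h7] at h10
    have h11 : (2 ^ Nat.log2 m).testBit l' = true := h10
    rw [Nat.testBit_two_pow] at h11
    have h12 : (2 ^ Nat.log2 m).testBit l = true := by
      have h13 := hml
      rw [h7] at h13
      exact h13
    rw [Nat.testBit_two_pow] at h12
    simp only [decide_eq_true_eq] at h11 h12
    exact h8 (h11.symm.trans h12)
  · rw [beq_false.mpr h5, bi_false] at he'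
    by_cases h4 : Nat.mod c 8 = 4
    · rw [beq_iff.mpr h4, bi_true] at he'
      obtain ⟨p0, X0, Q0, h6, h7⟩ := getc_true he'
      rw [fo_eq] at h7
      have h8 := allb_sound h7 l hml
      obtain ⟨D0, x0', k0, e1, e2, e3, e4, e5, e6, e7, -⟩ := hS.nth h6
      simp only [List.getElem?_cons_zero, Option.some.injEq] at e1 e2
      subst e1 e2
      have hk0 : 1 ≤ k0 := by
        by_contra hk
        have : k0 = 0 := by omega
        have h8 := h0 _ _ _ h6
        rw [e7, e3, this, pow_zero] at h8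
        have := e4.one_lt
        omega
      have e0 : Nat.mod X0 p0 = x0 % P0.p := by
        rw [e6, e3]; exact Nat.mod_mod_of_dvd _ (dvd_pow_self _ (by omega))
      rw [e0] at h8
      obtain ⟨v', y0, yr, f1, f2, l', f3, f4⟩ := H.movem hc hl
      rcases app_sound (f2.co hS.co) with f5 | ⟨cs', f5, f6⟩
      · rw [f5] at h8; exact absurd h8 (by simp)
      · rw [f5] at h8
        simp only at h8
        have h9 := H.no_line f1.q f4 h8
        rw [lor_bit, Bool.or_eq_true] at h9
        rcases h9 with h9 | h9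
        · have h10 := (Qm_mono S.full S.T S.ls _ cs' c l' f6).1 0 0 h9
          rw [hcl v' y0 yr f1 l' f4] at h10
          exact absurd h10 (by simp)
        · have h10 : (2 ^ (S.tab 4 (x0 % P0.p) l).a).testBit l' = true := h9
          rw [Nat.testBit_two_pow] at h10
          simp only [decide_eq_true_eq] at h10
          exact f3 h10.symm
    · rw [beq_false.mpr h4, bi_false] at he'
      by_cases h6' : 6 ≤ Nat.mod c 8
      · rw [ble_iff.mpr h6', bi_true] at he'
        have hi : Nat.sub (Nat.mod c 8) 5 ≠ 0 := by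
          have : Nat.sub (Nat.mod c 8) 5 = Nat.mod c 8 - 5 := rfl
          omega
        exact H.evx_sound hcl hc hS h0 hi he' hl hml
      rw [ble_false.mpr (by omega), bi_false] at he'
      obtain ⟨v', y0, yr, mv, cs', f1, f2, f3, f4⟩ := H.mvs_sound hc hS h0 he'
      rw [fo_eq] at f3
      have h6 := allb_sound f3 l hml
      obtain ⟨l', g1, g2, g3⟩ := f1.line l hl
      rw [H.pm] at h6
      have h7 := sg_sound H.okm.prime h6 (Nat.ModEq.refl l) g2 g3
      rw [Nat.mod_eq_of_lt g1.1] at h7
      have h8 := lor_false h7 (H.not_ty1 f2.q g1)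
      have h10 := (Qm_mono S.full S.T S.ls _ cs' c l' f4).1 0 0 h8
      rw [hcl v' y0 yr f2 l' g1] at h10
      exact absurd h10 (by simp)

end Pool.Agent.Work.MP_9954fe_nt
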