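import Pool.Agent.Work.MP_9954fe_nt.Concl

/-!
A faster check of the validity of the moves: the congruences are checked with natural numbers,
and the dual similarity is deduced from the similarity.
-/

set_option autoImplicit false

namespace Pool.Agent.Work.MP_9954fe_nt

/-! ### The dual similarity -/

theorem dual_of_sim {k : ℤ} (hk : k ≠ 0) {M : M3} (h : ∀ v, Qf (M.mul v) = k * Qf v) :
    ∀ w, Qs (M.tmul w) = k * Qs w := by
  obtain ⟨a, b, c, d, e, f, g, h', i⟩ := M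
  -- the Gram identities
  have q1 := h (1, 0, 0)
  have q2 := h (0, 1, 0)
  have q3 := h (0, 0, 1)
  have q12 := h (1, 1, 0)
  have q13 := h (1, 0, 1)
  have q23 := h (0, 1, 1)
  simp only [Qf, M3.mul] at q1 q2 q3 q12 q13 q23
  ring_nf at q1 q2 q3 q12 q13 q23
  set A : Matrix (Fin 3) (Fin 3) ℚ := !![a, b, c; d, e, f; g, h', i] with hA
  set G : Matrix (Fin 3) (Fin 3) ℚ := !![2, 0, -1; 0, 2, 0; -1, 0, 3] with hG
  set T : Matrix (Fin 3) (Fin 3) ℚ := !![6, 0, 2; 0, 5, 0; 2, 0, 4] with hT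
  have hGT : G * T = (10 : ℚ) • (1 : Matrix (Fin 3) (Fin 3) ℚ) := by
    rw [hG, hT]
    ext x y
    fin_cases x <;> fin_cases y <;> simp [Matrix.mul_apply, Fin.sum_univ_three] <;> norm_num
  have hAGA : A.transpose * G * A = (k : ℚ) • G := by
    have r1 : (2 * a * a - 2 * a * g + 3 * g * g + 2 * d * d : ℚ) = 2 * k := by
      have : (2 * a * a - 2 * a * g + 3 * g * g + 2 * d * d : ℤ) = 2 * k := by linarith
      exact_mod_cast this
    have r2 : (2 * b * b - 2 * b * h' + 3 * h' * h' + 2 * e * e : ℚ) = 2 * k := by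
      have : (2 * b * b - 2 * b * h' + 3 * h' * h' + 2 * e * e : ℤ) = 2 * k := by linarith
      exact_mod_cast this
    have r3 : (2 * c * c - 2 * c * i + 3 * i * i + 2 * f * f : ℚ) = 3 * k := by
      have : (2 * c * c - 2 * c * i + 3 * i * i + 2 * f * f : ℤ) = 3 * k := by linarith
      exact_mod_cast this
    have r4 : (4 * a * b - 2 * a * h' - 2 * b * g + 6 * g * h' + 4 * d * e : ℚ) = 0 := by
      have : (4 * a * b - 2 * a * h' - 2 * b * g + 6 * g * h' + 4 * d * e : ℤ) = 0 := by linarith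
      exact_mod_cast this
    have r5 : (4 * a * c - 2 * a * i - 2 * c * g + 6 * g * i + 4 * d * f : ℚ) = - 2 * k := by
      have : (4 * a * c - 2 * a * i - 2 * c * g + 6 * g * i + 4 * d * f : ℤ) = - 2 * k := by linarith
      exact_mod_cast this
    have r6 : (4 * b * c - 2 * b * i - 2 * c * h' + 6 * h' * i + 4 * e * f : ℚ) = 0 := by
      have : (4 * b * c - 2 * b * i - 2 * c * h' + 6 * h' * i + 4 * e * f : ℤ) = 0 := by linarith
      exact_mod_cast this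
    rw [hA, hG]
    ext x y
    fin_cases x <;> fin_cases y <;>
      simp [Matrix.mul_apply, Fin.sum_univ_three] <;> linarith
  have hk' : (k : ℚ) ≠ 0 := by exact_mod_cast hk
  -- `N A = 1`
  have h10 : (10 : ℚ) ≠ 0 := by norm_num
  have hTG : T * G = (10 : ℚ) • (1 : Matrix (Fin 3) (Fin 3) ℚ) := by
    rw [hG, hT]
    ext x y
    fin_cases x <;> fin_cases y <;> simp [Matrix.mul_apply, Fin.sum_univ_three] <;> norm_num
  have hNA : ((10 * (k : ℚ))⁻¹ • (T * A.transpose * G)) * A = 1 := by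
    rw [Matrix.smul_mul]
    have : T * A.transpose * G * A = T * (A.transpose * G * A) := by
      simp only [Matrix.mul_assoc]
    rw [this, hAGA, Matrix.mul_smul, hTG, smul_smul, smul_smul]
    rw [show (10 * (k : ℚ))⁻¹ * k * 10 = 1 by field_simp, one_smul]
  have hAN := mul_eq_one_comm.mp hNA
  have hATA : A * T * A.transpose = (k : ℚ) • T := by
    have h1 : A * (T * A.transpose * G) = (10 * (k : ℚ)) • (1 : Matrix (Fin 3) (Fin 3) ℚ) := by
      rw [Matrix.mul_smul] at hAN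
      have : (10 * (k : ℚ)) • ((10 * (k : ℚ))⁻¹ • (A * (T * A.transpose * G))) =
          (10 * (k : ℚ)) • (1 : Matrix (Fin 3) (Fin 3) ℚ) := by rw [hAN]
      rwa [smul_smul, mul_inv_cancel₀ (mul_ne_zero h10 hk'), one_smul] at this
    have h2 : A * (T * A.transpose * G) * T = (10 : ℚ) • (A * T * A.transpose) := by
      simp only [Matrix.mul_assoc]
      rw [hGT]
      simp only [Matrix.mul_smul, Matrix.mul_one]
    rw [h1, Matrix.smul_mul, Matrix.one_mul] at h2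
    have h3 : (10 : ℚ)⁻¹ • ((10 * (k : ℚ)) • T) = (10 : ℚ)⁻¹ • ((10 : ℚ) • (A * T * A.transpose)) := by
      rw [h2]
    rw [smul_smul, smul_smul, show (10 : ℚ)⁻¹ * (10 * k) = k by field_simp,
      show (10 : ℚ)⁻¹ * 10 = 1 by norm_num, one_smul] at h3
    exact h3.symm
  -- entries
  have e00 := congrFun (congrFun hATA 0) 0
  have e11 := congrFun (congrFun hATA 1) 1
  have e22 := congrFun (congrFun hATA 2) 2
  have e01 := congrFun (congrFun hATA 0) 1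
  have e02 := congrFun (congrFun hATA 0) 2
  have e12 := congrFun (congrFun hATA 1) 2
  rw [hA, hT] at e00 e11 e22 e01 e02 e12
  simp [Matrix.mul_apply, Fin.sum_univ_three] at e00 e11 e22 e01 e02 e12
  have f00 : (6 * a * a + 5 * b * b + 4 * c * c + 4 * a * c : ℤ) = 6 * k := by
    have : (6 * a * a + 5 * b * b + 4 * c * c + 4 * a * c : ℚ) = 6 * k := by linarith
    exact_mod_cast this
  have f11 : (6 * d * d + 5 * e * e + 4 * f * f + 4 * d * f : ℤ) = 5 * k := by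
    have : (6 * d * d + 5 * e * e + 4 * f * f + 4 * d * f : ℚ) = 5 * k := by linarith
    exact_mod_cast this
  have f22 : (6 * g * g + 5 * h' * h' + 4 * i * i + 4 * g * i : ℤ) = 4 * k := by
    have : (6 * g * g + 5 * h' * h' + 4 * i * i + 4 * g * i : ℚ) = 4 * k := by linarith
    exact_mod_cast this
  have f01 : (12 * a * d + 10 * b * e + 8 * c * f + 4 * a * f + 4 * d * c : ℤ) = 0 := by
    have : (12 * a * d + 10 * b * e + 8 * c * f + 4 * a * f + 4 * d * c : ℚ) = 0 := by linarith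
    exact_mod_cast this
  have f02 : (12 * a * g + 10 * b * h' + 8 * c * i + 4 * a * i + 4 * g * c : ℤ) = 4 * k := by
    have : (12 * a * g + 10 * b * h' + 8 * c * i + 4 * a * i + 4 * g * c : ℚ) = 4 * k := by linarith
    exact_mod_cast this
  have f12 : (12 * d * g + 10 * e * h' + 8 * f * i + 4 * d * i + 4 * g * f : ℤ) = 0 := by
    have : (12 * d * g + 10 * e * h' + 8 * f * i + 4 * d * i + 4 * g * f : ℚ) = 0 := by linarith
    exact_mod_cast this
  rintro ⟨x, y, z⟩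
  simp only [Qs, M3.tmul]
  linear_combination x ^ 2 * f00 + y ^ 2 * f11 + z ^ 2 * f22 + x * y * f01 + x * z * f02 +
    y * z * f12

/-! ### Residues -/

/-- Nine natural numbers. -/
structure N9 where
  (a b c d e f g h i : ℕ)

/-- Residue of an integer modulo `W`. -/
noncomputable def zn (W : ℕ) (x : ℤ) : ℕ :=
  Int.rec (motive := fun _ => ℕ) (fun n => n)
    (fun n => Nat.mod (Nat.mul (Nat.succ n) (Nat.sub W (nat_lit 1))) W) x

theorem zn_mod {W : ℕ} (hW : 0 < W) (x : ℤ) : ((zn W x : ℕ) : ℤ) ≡ x [ZMOD W] := by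
  cases x with
  | ofNat n => exact Int.ModEq.refl _
  | negSucc n =>
    have h1 : zn W (Int.negSucc n) = ((n + 1) * (W - 1)) % W := rfl
    rw [h1, Int.natCast_mod]
    refine (Int.mod_modEq _ _).trans ?_
    rw [Int.modEq_iff_dvd]
    refine ⟨-(n + 1 : ℤ), ?_⟩
    rw [Int.negSucc_eq]
    push_cast [Nat.cast_sub (show 1 ≤ W from hW)]
    ring

/-- `M` is represented by `N` modulo `m`. -/
def RM (m : ℕ) (N : N9) (M : M3) : Prop :=
  (((N.a : ℕ) : ℤ) ≡ M.a [ZMOD m] ∧ ((N.b : ℕ) : ℤ) ≡ M.b [ZMOD m] ∧ ((N.c : ℕ) : ℤ) ≡ M.c [ZMOD m]) ∧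
  (((N.d : ℕ) : ℤ) ≡ M.d [ZMOD m] ∧ ((N.e : ℕ) : ℤ) ≡ M.e [ZMOD m] ∧ ((N.f : ℕ) : ℤ) ≡ M.f [ZMOD m]) ∧
  (((N.g : ℕ) : ℤ) ≡ M.g [ZMOD m] ∧ ((N.h : ℕ) : ℤ) ≡ M.h [ZMOD m] ∧ ((N.i : ℕ) : ℤ) ≡ M.i [ZMOD m])

/-- The conic of `P` is represented by `N` modulo `m`. -/
def RP (m : ℕ) (N : N9) (P : PD) : Prop :=
  (((N.a : ℕ) : ℤ) ≡ P.A.1 [ZMOD m] ∧ ((N.b : ℕ) : ℤ) ≡ P.A.2.1 [ZMOD m] ∧
    ((N.c : ℕ) : ℤ) ≡ P.A.2.2 [ZMOD m]) ∧
  (((N.d : ℕ) : ℤ) ≡ P.B.1 [ZMOD m] ∧ ((N.e : ℕ) : ℤ) ≡ P.B.2.1 [ZMOD m] ∧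
    ((N.f : ℕ) : ℤ) ≡ P.B.2.2 [ZMOD m]) ∧
  (((N.g : ℕ) : ℤ) ≡ P.C.1 [ZMOD m] ∧ ((N.h : ℕ) : ℤ) ≡ P.C.2.1 [ZMOD m] ∧
    ((N.i : ℕ) : ℤ) ≡ P.C.2.2 [ZMOD m])

theorem RM.of_dvd {m W : ℕ} (h : m ∣ W) {N : N9} {M : M3} (hM : RM W N M) : RM m N M := by
  have h' : (m : ℤ) ∣ (W : ℤ) := by exact_mod_cast h
  obtain ⟨⟨a, b, c⟩, ⟨d, e, f⟩, g, hh, i⟩ := hM
  exact ⟨⟨a.of_dvd h', b.of_dvd h', c.of_dvd h'⟩, ⟨d.of_dvd h', e.of_dvd h', f.of_dvd h'⟩,
    g.of_dvd h', hh.of_dvd h', i.of_dvd h'⟩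

theorem RP.of_dvd {m W : ℕ} (h : m ∣ W) {N : N9} {P : PD} (hM : RP W N P) : RP m N P := by
  have h' : (m : ℤ) ∣ (W : ℤ) := by exact_mod_cast h
  obtain ⟨⟨a, b, c⟩, ⟨d, e, f⟩, g, hh, i⟩ := hM
  exact ⟨⟨a.of_dvd h', b.of_dvd h', c.of_dvd h'⟩, ⟨d.of_dvd h', e.of_dvd h', f.of_dvd h'⟩,
    g.of_dvd h', hh.of_dvd h', i.of_dvd h'⟩

/-- Check that the transpose of `M` maps the covector `u, v, w` to `x, y, z`. -/
noncomputable def cvn (m : ℕ) (P M : N9) (u v w x y z : ℕ) : Bool :=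
  fo (Nat.add (Nat.mul u P.a) (Nat.add (Nat.mul v P.d) (Nat.mul w P.g))) (fun c1 =>
  fo (Nat.add (Nat.mul u P.b) (Nat.add (Nat.mul v P.e) (Nat.mul w P.h))) (fun c2 =>
  fo (Nat.add (Nat.mul u P.c) (Nat.add (Nat.mul v P.f) (Nat.mul w P.i))) (fun c3 =>
  an (Nat.beq (Nat.mod (Nat.add (Nat.mul M.a c1) (Nat.add (Nat.mul M.d c2) (Nat.mul M.g c3))) m)
    (Nat.mod (Nat.add (Nat.mul x P.a) (Nat.add (Nat.mul y P.d) (Nat.mul z P.g))) m))
  (an (Nat.beq (Nat.mod (Nat.add (Nat.mul M.b c1) (Nat.add (Nat.mul M.e c2) (Nat.mul M.h c3))) m)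
    (Nat.mod (Nat.add (Nat.mul x P.b) (Nat.add (Nat.mul y P.e) (Nat.mul z P.h))) m))
  (Nat.beq (Nat.mod (Nat.add (Nat.mul M.c c1) (Nat.add (Nat.mul M.f c2) (Nat.mul M.i c3))) m)
    (Nat.mod (Nat.add (Nat.mul x P.c) (Nat.add (Nat.mul y P.f) (Nat.mul z P.i))) m))))))

theorem dvd_of_zmod {m : ℕ} {a b : ℤ} (h : (a : ZMod m) = (b : ZMod m)) : (m : ℤ) ∣ a - b := by
  rw [← ZMod.intCast_eq_intCast_iff_dvd_sub]
  exact h.symm

theorem cvn_sound {m : ℕ} {N L : N9} {P : PD} {M : M3} (hP : RP m N P) (hM : RM m L M)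
    {u v w x y z : ℕ} (h : cvn m N L u v w x y z = true) :
    VDvd (m : ℤ) (M.tmul (P.cov u v w)) (P.cov x y z) := by
  unfold cvn at h
  rw [fo_eq, fo_eq, fo_eq, an_iff, an_iff, beq_iff, beq_iff, beq_iff] at h
  obtain ⟨h1, h2, h3⟩ := h
  obtain ⟨⟨p1, p2, p3⟩, ⟨p4, p5, p6⟩, p7, p8, p9⟩ := hP
  obtain ⟨⟨m1, m2, m3⟩, ⟨m4, m5, m6⟩, m7, m8, m9⟩ := hM
  rw [← ZMod.intCast_eq_intCast_iff] at p1 p2 p3 p4 p5 p6 p7 p8 p9 m1 m2 m3 m4 m5 m6 m7 m8 m9
  have g1 := (ZMod.natCast_eq_natCast_iff' _ _ _).mpr h1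
  have g2 := (ZMod.natCast_eq_natCast_iff' _ _ _).mpr h2
  have g3 := (ZMod.natCast_eq_natCast_iff' _ _ _).mpr h3
  simp only [Nat.add_eq, Nat.mul_eq, Nat.cast_add, Nat.cast_mul] at g1 g2 g3
  simp only [Int.cast_natCast] at p1 p2 p3 p4 p5 p6 p7 p8 p9 m1 m2 m3 m4 m5 m6 m7 m8 m9
  rw [p1, p2, p3, p4, p5, p6, p7, p8, p9] at g1 g2 g3
  rw [m1, m4, m7] at g1
  rw [m2, m5, m8] at g2
  rw [m3, m6, m9] at g3
  refine ⟨dvd_of_zmod ?_, dvd_of_zmod ?_, dvd_of_zmod ?_⟩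
  · simp only [M3.tmul, PD.cov]
    push_cast
    linear_combination g1
  · simp only [M3.tmul, PD.cov]
    push_cast
    linear_combination g2
  · simp only [M3.tmul, PD.cov]
    push_cast
    linear_combination g3

/-- `x` and `y` are not congruent modulo `p`. -/
noncomputable def ndv (p x y : ℕ) : Bool := bi (Nat.beq (Nat.mod x p) (Nat.mod y p)) false true

theorem ndv_sound {p x y : ℕ} (h : ndv p x y = true) : ¬ (p : ℤ) ∣ (x : ℤ) - y := by
  unfold ndv at h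
  intro hd
  have h1 : y % p = x % p := (Nat.modEq_iff_dvd (n := p) (a := y) (b := x)).mpr hd
  have h2 : Nat.beq (Nat.mod x p) (Nat.mod y p) = true := beq_iff.mpr h1.symm
  rw [h2, bi_true] at h
  exact absurd h (by simp)

/-- Transport identity. -/
noncomputable def trn (p m : ℕ) (P M : N9) (a b c d mu : ℕ) : Bool :=
  an (fo (Nat.mul a a) (fun u => fo (Nat.mul a c) (fun v => fo (Nat.mul c c) (fun w =>
    cvn m P M u v w mu (nat_lit 0) (nat_lit 0)))))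
  (an (fo (Nat.mul (nat_lit 2) (Nat.mul a b)) (fun u => fo (Nat.add (Nat.mul a d) (Nat.mul b c)) (fun v =>
    fo (Nat.mul (nat_lit 2) (Nat.mul c d)) (fun w => cvn m P M u v w (nat_lit 0) mu (nat_lit 0)))))
  (an (fo (Nat.mul b b) (fun u => fo (Nat.mul b d) (fun v => fo (Nat.mul d d) (fun w =>
    cvn m P M u v w (nat_lit 0) (nat_lit 0) mu))))
  (ndv p (Nat.mul a d) (Nat.mul b c))))

theorem VDvd.congr {m : ℤ} {u u' w w' : V} (h : VDvd m u w) (hu : u = u') (hw : w = w') :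
    VDvd m u' w' := by rw [← hu, ← hw]; exact h

theorem trn_sound {m : ℕ} {N L : N9} {P : PD} {M : M3} (hP : RP m N P) (hM : RM m L M)
    {a b c d mu : ℕ} (h : trn P.p m N L a b c d mu = true) : TrI P (m : ℤ) M a b c d (mu : ℤ) := by
  unfold trn at h
  rw [an_iff, an_iff, an_iff] at h
  obtain ⟨h1, h2, h3, h4⟩ := h
  rw [fo_eq, fo_eq, fo_eq] at h1 h2 h3
  refine ⟨?_, ?_, ?_, ?_⟩
  · refine (cvn_sound hP hM h1).congr ?_ ?_
    · congr 1; simp only [Nat.mul_eq, Nat.cast_mul, pow_two]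
    · simp only [PD.cov, smul, Prod.mk.injEq]; refine ⟨?_, ?_, ?_⟩ <;> push_cast <;> ring
  · refine (cvn_sound hP hM h2).congr ?_ ?_
    · congr 1
      simp only [Nat.mul_eq, Nat.add_eq, Nat.cast_mul, Nat.cast_add, Nat.cast_ofNat, mul_assoc]
    · simp only [PD.cov, smul, Prod.mk.injEq]; refine ⟨?_, ?_, ?_⟩ <;> push_cast <;> ring
  · refine (cvn_sound hP hM h3).congr ?_ ?_
    · congr 1; simp only [Nat.mul_eq, Nat.cast_mul, pow_two]
    · simp only [PD.cov, smul, Prod.mk.injEq]; refine ⟨?_, ?_, ?_⟩ <;> push_cast <;> ring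
  · have := ndv_sound h4
    simpa only [Nat.mul_eq, Nat.cast_mul] using this

/-- Own identity. -/
noncomputable def own (p m : ℕ) (P M : N9) (l a b c d mu : ℕ) : Bool :=
  fo (Nat.mul mu p) (fun mp =>
  an (fo (Nat.mul a a) (fun u => fo (Nat.mul a c) (fun v => fo (Nat.mul c c) (fun w =>
    fo (Nat.mul mp p) (fun mpp => cvn m P M u v w mpp (nat_lit 0) (nat_lit 0))))))
  (an (fo (Nat.mul (nat_lit 2) (Nat.mul a b)) (fun u => fo (Nat.add (Nat.mul a d) (Nat.mul b c)) (fun v =>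
    fo (Nat.mul (nat_lit 2) (Nat.mul c d)) (fun w =>
      fo (Nat.mul mp (Nat.mul (nat_lit 2) l)) (fun x => cvn m P M u v w x mp (nat_lit 0))))))
  (an (fo (Nat.mul b b) (fun u => fo (Nat.mul b d) (fun v => fo (Nat.mul d d) (fun w =>
    fo (Nat.mul mu l) (fun y => fo (Nat.mul y l) (fun x => cvn m P M u v w x y mu))))))
  (an (ndv p (Nat.mul a d) (Nat.mul b c)) (ndv p mu (nat_lit 0))))))

theorem own_sound {m : ℕ} {N L : N9} {P : PD} {M : M3} (hm : m = P.p ^ P.K) (hP : RP m N P)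
    (hM : RM m L M) {l a b c d mu : ℕ} (h : own P.p m N L l a b c d mu = true) :
    OwI P M l a b c d (mu : ℤ) := by
  unfold own at h
  rw [fo_eq, an_iff, an_iff, an_iff, an_iff] at h
  obtain ⟨h1, h2, h3, h4, h5⟩ := h
  rw [fo_eq, fo_eq, fo_eq, fo_eq] at h1 h2 h3
  rw [fo_eq] at h3
  have hmm : ((P.p : ℤ) ^ P.K) = (m : ℤ) := by rw [hm]; push_cast; rfl
  refine ⟨?_, ?_, ?_, ?_, ?_⟩
  · rw [hmm]
    refine (cvn_sound hP hM h1).congr ?_ ?_
    · congr 1; simp only [Nat.mul_eq, Nat.cast_mul, pow_two]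
    · simp only [PD.cov, smul, Prod.mk.injEq, Nat.mul_eq]
      refine ⟨?_, ?_, ?_⟩ <;> push_cast <;> ring
  · rw [hmm]
    refine (cvn_sound hP hM h2).congr ?_ ?_
    · congr 1
      simp only [Nat.mul_eq, Nat.add_eq, Nat.cast_mul, Nat.cast_add, Nat.cast_ofNat, mul_assoc]
    · simp only [PD.cov, smul, Prod.mk.injEq, Nat.mul_eq]
      refine ⟨?_, ?_, ?_⟩ <;> push_cast <;> ring
  · rw [hmm]
    refine (cvn_sound hP hM h3).congr ?_ ?_
    · congr 1; simp only [Nat.mul_eq, Nat.cast_mul, pow_two]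
    · simp only [PD.cov, PD.lam, smul, Prod.mk.injEq, Nat.mul_eq]
      refine ⟨?_, ?_, ?_⟩ <;> push_cast <;> ring
  · have := ndv_sound h4
    simpa only [Nat.mul_eq, Nat.cast_mul] using this
  · have := ndv_sound h5
    simpa using this

/-- Check of `Outer`. -/
noncomputable def outn (p : ℕ) (P M : N9) (s1 s2 s3 x : ℕ) : Bool :=
  fo (Nat.mul x x) (fun xx =>
  fo (Nat.mod (Nat.add (Nat.mul xx P.a) (Nat.add (Nat.mul x P.d) P.g)) p) (fun l1 =>
  fo (Nat.mod (Nat.add (Nat.mul xx P.b) (Nat.add (Nat.mul x P.e) P.h)) p) (fun l2 =>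
  fo (Nat.mod (Nat.add (Nat.mul xx P.c) (Nat.add (Nat.mul x P.f) P.i)) p) (fun l3 =>
  an (an (Nat.beq (Nat.mod M.a p) (Nat.mod (Nat.mul s1 l1) p))
    (an (Nat.beq (Nat.mod M.b p) (Nat.mod (Nat.mul s1 l2) p))
      (Nat.beq (Nat.mod M.c p) (Nat.mod (Nat.mul s1 l3) p))))
  (an (an (Nat.beq (Nat.mod M.d p) (Nat.mod (Nat.mul s2 l1) p))
    (an (Nat.beq (Nat.mod M.e p) (Nat.mod (Nat.mul s2 l2) p))
      (Nat.beq (Nat.mod M.f p) (Nat.mod (Nat.mul s2 l3) p))))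
  (an (Nat.beq (Nat.mod M.g p) (Nat.mod (Nat.mul s3 l1) p))
    (an (Nat.beq (Nat.mod M.h p) (Nat.mod (Nat.mul s3 l2) p))
      (Nat.beq (Nat.mod M.i p) (Nat.mod (Nat.mul s3 l3) p)))))))))

theorem outn_sound {p : ℕ} {N L : N9} {P : PD} {M : M3} (hP : RP p N P) (hM : RM p L M)
    {s1 s2 s3 x : ℕ} (h : outn p N L s1 s2 s3 x = true) :
    Outer p M ((s1 : ℤ), (s2 : ℤ), (s3 : ℤ)) (P.lam (x : ℤ)) := by
  unfold outn at h
  rw [fo_eq, fo_eq, fo_eq, fo_eq] at h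
  simp only [an_iff, beq_iff] at h
  obtain ⟨⟨h1, h2, h3⟩, ⟨h4, h5, h6⟩, h7, h8, h9⟩ := h
  obtain ⟨⟨p1, p2, p3⟩, ⟨p4, p5, p6⟩, p7, p8, p9⟩ := hP
  obtain ⟨⟨m1, m2, m3⟩, ⟨m4, m5, m6⟩, m7, m8, m9⟩ := hM
  rw [← ZMod.intCast_eq_intCast_iff] at p1 p2 p3 p4 p5 p6 p7 p8 p9 m1 m2 m3 m4 m5 m6 m7 m8 m9
  simp only [Int.cast_natCast] at p1 p2 p3 p4 p5 p6 p7 p8 p9 m1 m2 m3 m4 m5 m6 m7 m8 m9
  have key : ∀ {A S B : ℕ} {a b : ℤ}, Nat.mod A p = Nat.mod (Nat.mul S (Nat.mod B p)) p →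
      (A : ZMod p) = (a : ZMod p) → (B : ZMod p) = (b : ZMod p) → (p : ℤ) ∣ a - (S : ℤ) * b := by
    intro A S B a b h ha hb
    apply dvd_of_zmod
    have g := (ZMod.natCast_eq_natCast_iff' _ _ _).mpr h
    have g' : ((Nat.mod B p : ℕ) : ZMod p) = (B : ZMod p) := ZMod.natCast_mod B p
    simp only [Nat.mul_eq, Nat.cast_mul] at g
    rw [g'] at g
    push_cast
    rw [← ha, ← hb]
    exact g
  have l1 : ((Nat.add (Nat.mul (Nat.mul x x) N.a) (Nat.add (Nat.mul x N.d) N.g) : ℕ) : ZMod p) =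
      (((P.lam (x : ℤ)).1 : ℤ) : ZMod p) := by
    simp only [Nat.add_eq, Nat.mul_eq, PD.lam, PD.cov]
    push_cast
    rw [p1, p4, p7]; ring
  have l2 : ((Nat.add (Nat.mul (Nat.mul x x) N.b) (Nat.add (Nat.mul x N.e) N.h) : ℕ) : ZMod p) =
      (((P.lam (x : ℤ)).2.1 : ℤ) : ZMod p) := by
    simp only [Nat.add_eq, Nat.mul_eq, PD.lam, PD.cov]
    push_cast
    rw [p2, p5, p8]; ring
  have l3 : ((Nat.add (Nat.mul (Nat.mul x x) N.c) (Nat.add (Nat.mul x N.f) N.i) : ℕ) : ZMod p) =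
      (((P.lam (x : ℤ)).2.2 : ℤ) : ZMod p) := by
    simp only [Nat.add_eq, Nat.mul_eq, PD.lam, PD.cov]
    push_cast
    rw [p3, p6, p9]; ring
  exact ⟨⟨key h1 m1 l1, key h2 m2 l2, key h3 m3 l3⟩, ⟨key h4 m4 l1, key h5 m5 l2, key h6 m6 l3⟩,
    key h7 m7 l1, key h8 m8 l2, key h9 m9 l3⟩

/-! ### Checks of moves -/

/-- Data of a prime: `p`, `m = p^K` and the conic. -/
structure PN where
  (p m : ℕ) (N : N9)

/-- The data `x` represent `P`. -/
structure RPN (W : ℕ) (P : PD) (x : PN) : Prop where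
  p : x.p = P.p
  m : x.m = P.p ^ P.K
  dvd : P.p ^ P.K ∣ W
  N : RP W x.N P

/-- Compute the data of a prime. -/
noncomputable def pn1 (W : ℕ) (P : PD) (k : PN → Bool) : Bool :=
  fo P.p (fun p => fo (Nat.pow p P.K) (fun m => an (Nat.beq (Nat.mod W m) (nat_lit 0))
    (fo (zn W P.A.1) (fun a => fo (zn W P.A.2.1) (fun b => fo (zn W P.A.2.2) (fun c =>
    fo (zn W P.B.1) (fun d => fo (zn W P.B.2.1) (fun e => fo (zn W P.B.2.2) (fun f =>
    fo (zn W P.C.1) (fun g => fo (zn W P.C.2.1) (fun h => fo (zn W P.C.2.2) (fun i =>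
      k ⟨p, m, ⟨a, b, c, d, e, f, g, h, i⟩⟩))))))))))))

theorem pn1_sound {W : ℕ} (hW : 0 < W) {P : PD} {k : PN → Bool} (h : pn1 W P k = true) :
    ∃ x, RPN W P x ∧ k x = true := by
  unfold pn1 at h
  simp only [fo_eq] at h
  rw [an_iff, beq_iff] at h
  obtain ⟨h1, h2⟩ := h
  refine ⟨_, ⟨rfl, rfl, Nat.dvd_of_mod_eq_zero h1, ?_⟩, h2⟩
  exact ⟨⟨zn_mod hW _, zn_mod hW _, zn_mod hW _⟩, ⟨zn_mod hW _, zn_mod hW _, zn_mod hW _⟩,
    zn_mod hW _, zn_mod hW _, zn_mod hW _⟩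

/-- Compute the data of a list of primes. -/
noncomputable def pnl (W : ℕ) : List PD → (List PN → Bool) → Bool
  | [], k => k []
  | P :: Ps, k => pn1 W P (fun x => pnl W Ps (fun xs => k (x :: xs)))

theorem pnl_sound {W : ℕ} (hW : 0 < W) : ∀ {Ps : List PD} {k : List PN → Bool}, pnl W Ps k = true →
    ∃ xs, List.Forall₂ (RPN W) Ps xs ∧ k xs = true := by
  intro Ps
  induction Ps with
  | nil => intro k h; exact ⟨[], List.Forall₂.nil, h⟩
  | cons P Ps ih =>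
    intro k h
    obtain ⟨x, hx, h1⟩ := pn1_sound hW h
    obtain ⟨xs, hxs, h2⟩ := ih h1
    exact ⟨x :: xs, List.Forall₂.cons hx hxs, h2⟩

/-- Compute the residues of a matrix. -/
noncomputable def wM (W : ℕ) (M : M3) (k : N9 → Bool) : Bool :=
  M3.rec (motive := fun _ => Bool) (fun a b c d e f g h i =>
    fo (zn W a) (fun a => fo (zn W b) (fun b => fo (zn W c) (fun c =>
    fo (zn W d) (fun d => fo (zn W e) (fun e => fo (zn W f) (fun f =>
    fo (zn W g) (fun g => fo (zn W h) (fun h => fo (zn W i) (fun i =>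
      k ⟨a, b, c, d, e, f, g, h, i⟩)))))))))) M

theorem wM_sound {W : ℕ} (hW : 0 < W) {M : M3} {k : N9 → Bool} (h : wM W M k = true) :
    ∃ L, RM W L M ∧ k L = true := by
  obtain ⟨a, b, c, d, e, f, g, h', i⟩ := M
  have h1 : fo (zn W a) (fun a => fo (zn W b) (fun b => fo (zn W c) (fun c =>
    fo (zn W d) (fun d => fo (zn W e) (fun e => fo (zn W f) (fun f =>
    fo (zn W g) (fun g => fo (zn W h') (fun h => fo (zn W i) (fun i =>
      k ⟨a, b, c, d, e, f, g, h, i⟩))))))))) = true := h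
  simp only [fo_eq] at h1
  exact ⟨_, ⟨⟨zn_mod hW _, zn_mod hW _, zn_mod hW _⟩, ⟨zn_mod hW _, zn_mod hW _, zn_mod hW _⟩,
    zn_mod hW _, zn_mod hW _, zn_mod hW _⟩, h1⟩

/-- Use a nonnegative integer. -/
noncomputable def wz (x : ℤ) (k : ℕ → Bool) : Bool :=
  Int.rec (motive := fun _ => Bool) (fun n => fo n k) (fun _ => false) x

theorem wz_sound {x : ℤ} {k : ℕ → Bool} (h : wz x k = true) : ∃ n : ℕ, x = (n : ℤ) ∧ k n = true := by
  cases x with
  | ofNat n =>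
    have h1 : fo n k = true := h
    rw [fo_eq] at h1
    exact ⟨n, rfl, h1⟩
  | negSucc n => exact absurd (show false = true from h) (by simp)

/-- Check of `MoJ`. -/
noncomputable def mojn (M : N9) (q : ℕ) : List PN → Mo → List ℤ → Bool
  | [], .nil, _ => true
  | P :: Ps, .cons a b c d mo, mu :: mus =>
    an (ndv P.p q (nat_lit 0)) (an (wz mu (fun mu => trn P.p P.m P.N M a b c d mu))
      (mojn M q Ps mo mus))
  | _, _, _ => false

theorem mojn_sound {W : ℕ} {M : M3} {L : N9} (hM : RM W L M) {q : ℕ} : ∀ {Ps : List PD}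
    {xs : List PN} {mo : Mo} {mus : List ℤ}, List.Forall₂ (RPN W) Ps xs →
    mojn L q xs mo mus = true → MoJ M q Ps mo mus := by
  intro Ps
  induction Ps with
  | nil =>
    intro xs mo mus hx h
    cases hx
    cases mo with
    | nil => trivial
    | cons a b c d mo => simp [mojn] at h
  | cons P Ps ih =>
    intro xs mo mus hx h
    cases hx with
    | cons hx hxs =>
    rename_i x xs
    cases mo with
    | nil => simp [mojn] at h
    | cons a b c d mo =>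
      cases mus with
      | nil => simp [mojn] at h
      | cons mu mus =>
        unfold mojn at h
        rw [an_iff, an_iff] at h
        obtain ⟨h1, h2, h3⟩ := h
        obtain ⟨m, hm, h4⟩ := wz_sound h2
        refine ⟨?_, ?_, ih hxs h3⟩
        · have := ndv_sound h1
          rw [hx.p] at this
          simpa using this
        · have hd : x.m ∣ W := by rw [hx.m]; exact hx.dvd
          rw [hx.p] at h4
          have h5 := trn_sound (hx.N.of_dvd hd) (hM.of_dvd hd) h4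
          rw [hm]
          have h6 : ((x.m : ℕ) : ℤ) = (P.p : ℤ) ^ P.K := by rw [hx.m]; push_cast; rfl
          rw [← h6]; exact h5

/-- Check of `MoI`. -/
noncomputable def moin (M : N9) (l q : ℕ) : ℕ → List PN → Mo → List ℤ → Bool
  | 0, P :: Ps, .cons a b c d mo, mu :: mus =>
    an (Nat.beq q P.p) (an (wz mu (fun mu => own P.p P.m P.N M l a b c d mu)) (mojn M q Ps mo mus))
  | i + 1, P :: Ps, .cons a b c d mo, mu :: mus =>
    an (ndv P.p q (nat_lit 0)) (an (wz mu (fun mu => trn P.p P.m P.N M a b c d mu))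
      (moin M l q i Ps mo mus))
  | _, _, _, _ => false

theorem moin_sound {W : ℕ} {M : M3} {L : N9} (hM : RM W L M) {l q : ℕ} : ∀ {Ps : List PD}
    {xs : List PN} {mo : Mo} {mus : List ℤ} {i : ℕ}, List.Forall₂ (RPN W) Ps xs →
    moin L l q i xs mo mus = true → MoI M l q i Ps mo mus := by
  intro Ps
  induction Ps with
  | nil =>
    intro xs mo mus i hx h
    cases hx
    cases i <;> simp [moin] at h
  | cons P Ps ih =>
    intro xs mo mus i hx h
    cases hx with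
    | cons hx hxs =>
    rename_i x xs
    have hd : x.m ∣ W := by rw [hx.m]; exact hx.dvd
    cases mo with
    | nil => cases i <;> simp [moin] at h
    | cons a b c d mo =>
      cases mus with
      | nil => cases i <;> simp [moin] at h
      | cons mu mus =>
        cases i with
        | zero =>
          unfold moin at h
          rw [an_iff, an_iff] at h
          obtain ⟨h1, h2, h3⟩ := h
          obtain ⟨m, hm, h4⟩ := wz_sound h2
          rw [hx.p] at h4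
          refine ⟨?_, ?_, mojn_sound hM hxs h3⟩
          · rw [← hx.p]; exact beq_iff.mp h1
          · rw [hm]
            exact own_sound hx.m (hx.N.of_dvd hd) (hM.of_dvd hd) h4
        | succ i =>
          unfold moin at h
          rw [an_iff, an_iff] at h
          obtain ⟨h1, h2, h3⟩ := h
          obtain ⟨m, hm, h4⟩ := wz_sound h2
          rw [hx.p] at h4
          refine ⟨?_, ?_, ih hxs h3⟩
          · have := ndv_sound h1
            rw [hx.p] at this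
            simpa using this
          · have h5 := trn_sound (hx.N.of_dvd hd) (hM.of_dvd hd) h4
            rw [hm]
            have h6 : ((x.m : ℕ) : ℤ) = (P.p : ℤ) ^ P.K := by rw [hx.m]; push_cast; rfl
            rw [← h6]; exact h5

/-- Check of a move. -/
noncomputable def mvokn (W : ℕ) (xs : List PN) (Pm : PN) (p0 m0 i : ℕ) (P : PN) (l e : ℕ) : Mv → Bool
  | ⟨M, mo, a, b, c, d, s, mu, mum⟩ =>
    an (simb (Int.ofNat (Nat.mul P.p P.p)) M) (wM W M (fun L => fo (bi (Nat.beq i 0) l e) (fun f =>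
      an (wz s.1 (fun s1 => wz s.2.1 (fun s2 => wz s.2.2 (fun s3 => outn P.p P.N L s1 s2 s3 f))))
      (an (moin L f P.p i xs mo mu)
      (an (ndv Pm.p P.p (nat_lit 0))
      (an (wz mum (fun mum => trn Pm.p Pm.p Pm.N L a b c d mum))
        (sgh mo p0 m0 (bi (Nat.beq i 0) e l))))))))

theorem mvokn_sound {W : ℕ} (hW : 0 < W) {P0 : PD} {Pl : List PD} {Pm : PD} {xs : List PN}
    {xm : PN} (hx : List.Forall₂ (RPN W) (P0 :: Pl) xs) (hm : RPN W Pm xm) (hKm : Pm.K ≠ 0)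
    {m0 i : ℕ} {P : PD} {xp : PN} (hP : RPN W P xp) (hKp : P.K ≠ 0) (hp0 : P.p ≠ 0) {l e : ℕ} {mv : Mv}
    (h : mvokn W xs xm P0.p m0 i xp l e mv = true) : MvOk P0 Pl Pm m0 i P l e mv := by
  obtain ⟨M, mo, a, b, c, d, s, mu, mum⟩ := mv
  unfold mvokn at h
  rw [an_iff] at h
  obtain ⟨h1, h2⟩ := h
  obtain ⟨L, hM, h3⟩ := wM_sound hW h2
  rw [fo_eq, an_iff, an_iff, an_iff, an_iff] at h3
  obtain ⟨h4, h5, h6, h7, h8⟩ := h3
  obtain ⟨s1, e1, h9⟩ := wz_sound h4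
  obtain ⟨s2, e2, h10⟩ := wz_sound h9
  obtain ⟨s3, e3, h11⟩ := wz_sound h10
  obtain ⟨m, em, h12⟩ := wz_sound h7
  rw [hP.p] at h1 h5 h6 h11
  rw [hm.p] at h6 h12
  have hs := simb_sound h1
  rw [ofNat_mul] at hs
  have hk : ((P.p : ℤ) ^ 2) ≠ 0 := pow_ne_zero _ (by exact_mod_cast hp0)
  have hpd : P.p ∣ W := (dvd_pow_self _ hKp).trans hP.dvd
  have hmd : Pm.p ∣ W := (dvd_pow_self _ hKm).trans hm.dvd
  rw [bi_ite] at h5 h11 h8
  refine ⟨hs, dual_of_sim hk hs, ?_, moin_sound hM hx h5, ?_, ?_, h8⟩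
  · have h13 := outn_sound (hP.N.of_dvd hpd) (hM.of_dvd hpd) h11
    have h14 : s = ((s1 : ℤ), (s2 : ℤ), (s3 : ℤ)) := by rw [← e1, ← e2, ← e3]
    show Outer _ M s _
    rw [h14]; exact h13
  · have := ndv_sound h6
    simpa using this
  · have h13 := trn_sound (hm.N.of_dvd hmd) (hM.of_dvd hmd) h12
    show TrI Pm _ M a b c d mum
    rw [em]; exact h13

/-- Check of a mask move. -/
noncomputable def mmokn (W : ℕ) (xs : List PN) (Pm : PN) (p0 m0 l e : ℕ) : Mv → Bool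
  | ⟨M, mo, a, _, _, _, s, mu, _⟩ =>
    an (simb (Int.ofNat (Nat.mul Pm.p Pm.p)) M) (wM W M (fun L =>
      an (wz s.1 (fun s1 => wz s.2.1 (fun s2 => wz s.2.2 (fun s3 => outn Pm.p Pm.N L s1 s2 s3 e))))
      (an (mojn L Pm.p xs mo mu)
      (an (Nat.ble (Nat.succ a) Pm.p)
      (an (fo (Nat.mul a a) (fun u => fo (Nat.mul Pm.p Pm.p) (fun pp =>
        cvn pp Pm.N L u a (nat_lit 1) (nat_lit 0) (nat_lit 0) (nat_lit 0))))
        (sgh mo p0 m0 l))))))

theorem mmokn_sound {W : ℕ} (hW : 0 < W) {P0 : PD} {Pl : List PD} {Pm : PD} {xs : List PN}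
    {xm : PN} (hx : List.Forall₂ (RPN W) (P0 :: Pl) xs) (hm : RPN W Pm xm) (hKm : 2 ≤ Pm.K)
    {m0 : ℕ} {l e : ℕ} {mv : Mv}
    (h : mmokn W xs xm P0.p m0 l e mv = true) : MmOk P0 Pl Pm m0 l e mv := by
  obtain ⟨M, mo, a, b, c, d, s, mu, mum⟩ := mv
  unfold mmokn at h
  rw [an_iff] at h
  obtain ⟨h1, h2⟩ := h
  obtain ⟨L, hM, h3⟩ := wM_sound hW h2
  rw [an_iff, an_iff, an_iff, an_iff] at h3
  obtain ⟨h4, h5, h6, h7, h8⟩ := h3
  obtain ⟨s1, e1, h9⟩ := wz_sound h4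
  obtain ⟨s2, e2, h10⟩ := wz_sound h9
  obtain ⟨s3, e3, h11⟩ := wz_sound h10
  rw [fo_eq, fo_eq] at h7
  rw [hm.p] at h1 h5 h6 h7 h11
  have hs := simb_sound h1
  rw [ofNat_mul] at hs
  have hmd : Pm.p ∣ W := (dvd_pow_self _ (by omega)).trans hm.dvd
  have hmd2 : Pm.p * Pm.p ∣ W := by
    rw [← pow_two]; exact (pow_dvd_pow _ hKm).trans hm.dvd
  refine ⟨hs, ?_, mojn_sound hM hx h5, ble_iff.mp h6, ?_, h8⟩
  · have h13 := outn_sound (hm.N.of_dvd hmd) (hM.of_dvd hmd) h11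
    have h14 : s = ((s1 : ℤ), (s2 : ℤ), (s3 : ℤ)) := by rw [← e1, ← e2, ← e3]
    show Outer _ M s _
    rw [h14]; exact h13
  · have h13 := cvn_sound (hm.N.of_dvd hmd2) (hM.of_dvd hmd2) h7
    have h14 : ((Pm.p * Pm.p : ℕ) : ℤ) = (Pm.p : ℤ) ^ 2 := by push_cast; ring
    rw [h14] at h13
    refine h13.congr ?_ ?_
    · show M.tmul _ = M.tmul (Pm.lam (a : ℤ))
      congr 1
      simp only [PD.lam, Nat.mul_eq, Nat.cast_mul, pow_two]
      norm_num
    · simp [PD.cov]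

/-- Check of the moves in direction `i`. -/
noncomputable def mvsn (W : ℕ) (S : Pr) (P0 : PD) (Pl : List PD) (Pm : PD) (cn i : ℕ) (P : PD) : Bool :=
  an (Nat.ble (nat_lit 1) W) (pnl W (P0 :: Pl) (fun xs => pn1 W Pm (fun xm => pn1 W P (fun xp =>
  fo P0.p (fun p0 =>
  fo (Nat.lor cn (S.tys.getD 0 0)) (fun m0 => fo (bi (Nat.beq i 0) 0 (S.tys.getD i 0)) (fun ti =>
    alln (fun l => bi (tb cn l) (alln (fun e => bi (tb ti e) true
      (mvokn W xs xm p0 m0 i xp l e (S.tab i l e))) xp.p) true) p0)))))))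

theorem mvsn_sound {W : ℕ} {S : Pr} {P0 : PD} {Pl : List PD} {Pm : PD} {cn i : ℕ} {P : PD}
    (hKm : Pm.K ≠ 0) (hKp : P.K ≠ 0) (hp0 : P.p ≠ 0)
    (h : mvsn W S P0 Pl Pm cn i P = true) : ∀ l < P0.p, cn.testBit l = true →
    ∀ e < P.p, (i = 0 ∨ (S.tys.getD i 0).testBit e = false) →
    MvOk P0 Pl Pm (Nat.lor cn (S.tys.getD 0 0)) i P l e (S.tab i l e) := by
  intro l hl hcn e he hie
  unfold mvsn at h
  rw [an_iff, ble_iff] at h
  obtain ⟨hW, h⟩ := h
  obtain ⟨xs, hxs, h⟩ := pnl_sound hW h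
  obtain ⟨xm, hxm, h⟩ := pn1_sound hW h
  obtain ⟨xp, hxp, h⟩ := pn1_sound hW h
  rw [fo_eq, fo_eq, fo_eq, alln_iff] at h
  have h1 := h l hl
  rw [tb_eq, hcn, bi_true, alln_iff, hxp.p] at h1
  have h2 := h1 e he
  rw [tb_eq] at h2
  have h3 : (bi (Nat.beq i 0) 0 (S.tys.getD i 0)).testBit e = false := by
    rw [bi_ite]
    rcases hie with hie | hie
    · rw [if_pos hie]; simp
    · split_ifs
      · simp
      · exact hie
  rw [h3, bi_false] at h2
  exact mvokn_sound hW hxs hxm hKm hxp hKp hp0 h2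

/-- Check of the mask moves. -/
noncomputable def mmsn (W : ℕ) (S : Pr) (P0 : PD) (Pl : List PD) (Pm : PD) (cn : ℕ) : Bool :=
  an (Nat.ble (nat_lit 1) W) (pnl W (P0 :: Pl) (fun xs => pn1 W Pm (fun xm =>
  fo P0.p (fun p0 =>
  fo (Nat.lor cn (S.tys.getD 0 0)) (fun m0 =>
    alln (fun l => bi (tb cn l) (alln (fun e => bi (tb S.ty1 e) true
      (mmokn W xs xm p0 m0 l e (S.tab 4 l e))) xm.p) true) p0)))))

theorem mmsn_sound {W : ℕ} {S : Pr} {P0 : PD} {Pl : List PD} {Pm : PD} {cn : ℕ}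
    (hKm : 2 ≤ Pm.K) (h : mmsn W S P0 Pl Pm cn = true) : ∀ l < P0.p, cn.testBit l = true → ∀ e < Pm.p,
    S.ty1.testBit e = false → MmOk P0 Pl Pm (Nat.lor cn (S.tys.getD 0 0)) l e (S.tab 4 l e) := by
  intro l hl hcn e he hie
  unfold mmsn at h
  rw [an_iff, ble_iff] at h
  obtain ⟨hW, h⟩ := h
  obtain ⟨xs, hxs, h⟩ := pnl_sound hW h
  obtain ⟨xm, hxm, h⟩ := pn1_sound hW h
  rw [fo_eq, fo_eq, alln_iff] at h
  have h1 := h l hl
  rw [tb_eq, hcn, bi_true, alln_iff, hxm.p] at h1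
  have h2 := h1 e he
  rw [tb_eq, hie, bi_false] at h2
  exact mmokn_sound hW hxs hxm hKm h2

/-- The conclusion from the checks. -/
theorem concln {S : Pr} {P0 : PD} {Pl : List PD} {Pm : PD} {cn W : ℕ} {L : List C1} {U : List Mv}
    {ws : List V}
    (hok : ∀ P ∈ P0 :: Pl, P.Ok) (hm : Pm.Ok) (h1 : tyb Pm S.ty1 L = true)
    (h2 : ∀ (j : ℕ) (P : PD), (P0 :: Pl)[j]? = some P → ∃ L, tyb P (S.tys.getD j 0) L = true)
    (h3 : ∀ (j : ℕ) (P : PD), (P0 :: Pl)[j]? = some P →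
      Nat.ble (S.pks.getD j 0) (Nat.pow P.p P.K) = true)
    (h4 : mscb S P0 Pl Pm cn = true)
    (h5 : ∀ (i : ℕ) (P : PD), (P0 :: Pl)[i]? = some P → mvsn W S P0 Pl Pm cn i P = true)
    (h6 : mmsn W S P0 Pl Pm cn = true) (h7 : unb S P0 cn U = true)
    (h8 : ∀ d < P0.p, cn.testBit d = true → part S (zc (P0 :: Pl)) d = true)
    (h9 : okb S.oks ws = true) (n : ℕ) (ho : Odd n) (hr : ¬ Rep n)
    (hs : ∀ P ∈ P0 :: Pl, Split P.p n) (hsm : Split Pm.p n) : n ∈ EE := by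
  obtain ⟨k1, k2, k3, k4, k5, c0, t0, k6, k7, k8, k9⟩ := mscb_sound h4
  have hV : Val S P0 Pl Pm cn :=
    { okd := hok
      okm := hm
      len := k1
      pm := k2
      full := k3
      ty1 := tyb_sound h1
      tys := fun j P hP => by
        obtain ⟨L, hL⟩ := h2 j P hP
        exact tyb_sound hL
      pks := fun j P hP => ble_iff.mp (h3 j P hP)
      lab := k4
      mv := fun i P hP => mvsn_sound (by have := hm.K2; omega)
        (by have := (hok P (mem_of_get hP)).K2; omega) (hok P (mem_of_get hP)).prime.ne_zero (h5 i P hP)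
      mm := mmsn_sound hm.K2 h6 }
  have hC : Ctx S P0 Pl Pm cn n :=
    { hV with
      bad := hr
      nd := fun P hP => (hs P hP).1
      ndm := hsm.1 }
  have hR : RootOk S P0 Pl cn := ⟨⟨c0, t0, k6, k7, k8, k9⟩, k5, h8⟩
  rcases genus_odd n ho with h | ⟨v, hv⟩
  · exact absurd h hr
  · obtain ⟨v, x0, xr, hc, l, hl⟩ := hC.exists_cnr (unb_sound h7) (fun P hP => (hs P hP).2) hsm.2 hv
    obtain ⟨t, m, hm, ht⟩ := hC.final hR hc hl
    have hsf : Squarefree n := by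
      by_contra h
      exact hr (rep_of_not_squarefree n ho h)
    have ht' : n = t.natAbs ^ 2 * m := by
      have : (n : ℤ) = ((t.natAbs ^ 2 * m : ℕ) : ℤ) := by
        rw [ht]; push_cast; rw [sq_abs]
      exact_mod_cast this
    have hu : IsUnit t.natAbs := hsf t.natAbs ⟨m, by rw [ht']; ring⟩
    have h1 : t.natAbs = 1 := Nat.isUnit_iff.mp hu
    have hnm : n = m := by rw [ht', h1]; ring
    subst hnm
    rcases okb_sound h9 n hm with h | h | h
    · exact absurd (Nat.odd_iff.mp ho) (by omega)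
    · exact h
    · exact absurd h hr

end Pool.Agent.Work.MP_9954fe_nt
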