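import Pool.Agent.Work.MP_9954fe_nt.Defs

/-!
Ramanujan's ternary form: the p-adic parallelism lemma.
-/

set_option autoImplicit false

namespace Pool.Agent.Work.MP_9954fe_nt

theorem par_coprime {p j : ℕ} (hp : p.Prime) {a : ℤ} (ha : ¬ (p : ℤ) ∣ a) {x : ℤ}
    (h : (p : ℤ) ^ j ∣ x * a ^ 2) : (p : ℤ) ^ j ∣ x := by
  have hpp : Prime (p : ℤ) := Nat.prime_iff_prime_int.1 hp
  have h1 : IsCoprime (p : ℤ) a := (Prime.coprime_iff_not_dvd hpp).2 ha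
  exact (h1.pow (m := j) (n := 2)).dvd_of_dvd_mul_right h

theorem par_eq_zero {p : ℕ} (hp : p.Prime) {x : ℤ} (h : ∀ j : ℕ, (p : ℤ) ^ j ∣ x) : x = 0 := by
  apply Int.eq_zero_of_abs_lt_dvd (h x.natAbs)
  have h1 : x.natAbs < p ^ x.natAbs := Nat.lt_pow_self hp.one_lt
  have h2 : |x| = (x.natAbs : ℤ) := (Int.natCast_natAbs x).symm
  rw [h2]
  exact_mod_cast h1

theorem par_Qs_pos (c : V) (h : Qs c = 0) : c = 0 := by
  obtain ⟨a, b, c⟩ := c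
  have h1 : 5 * a ^ 2 + 5 * b ^ 2 + (a + 2 * c) ^ 2 = 0 := by
    unfold Qs at h
    simp only at h
    linarith
  have ha : a ^ 2 = 0 := by nlinarith [sq_nonneg a, sq_nonneg b, sq_nonneg (a + 2 * c)]
  have hb : b ^ 2 = 0 := by nlinarith [sq_nonneg a, sq_nonneg b, sq_nonneg (a + 2 * c)]
  have ha' : a = 0 := pow_eq_zero_iff (two_ne_zero) |>.1 ha
  have hb' : b = 0 := pow_eq_zero_iff (two_ne_zero) |>.1 hb
  subst ha' hb'
  have hc : c ^ 2 = 0 := by nlinarith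
  have hc' : c = 0 := pow_eq_zero_iff (two_ne_zero) |>.1 hc
  subst hc'
  rfl

theorem cross_eq_zero_of_forall (p : ℕ) (hp : p.Prime) (v w : V)
    (h : ∀ j : ℕ, ∃ l : V, ¬ ((p : ℤ) ∣ l.1 ∧ (p : ℤ) ∣ l.2.1 ∧ (p : ℤ) ∣ l.2.2) ∧
      (p : ℤ) ^ j ∣ dot l v ∧ (p : ℤ) ^ j ∣ dot l w ∧ (p : ℤ) ^ j ∣ Qs l) :
    cross v w = 0 := by
  apply par_Qs_pos
  apply par_eq_zero hp
  intro j
  obtain ⟨⟨l1, l2, l3⟩, hl, hv, hw, hq⟩ := h j
  obtain ⟨v1, v2, v3⟩ := v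
  obtain ⟨w1, w2, w3⟩ := w
  simp only [dot, Qs, cross] at hl hv hw hq ⊢
  obtain ⟨a, ha⟩ := hv
  obtain ⟨b, hb⟩ := hw
  obtain ⟨e, he⟩ := hq
  set c1 := v2 * w3 - v3 * w2 with hc1
  set c2 := v3 * w1 - v1 * w3 with hc2
  set c3 := v1 * w2 - v2 * w1 with hc3
  set P := (p : ℤ) ^ j with hP
  -- the minors
  have m1 : c2 * l3 - c3 * l2 = P * (a * w1 - b * v1) := by
    have : c2 * l3 - c3 * l2 =
        (l1 * v1 + l2 * v2 + l3 * v3) * w1 - (l1 * w1 + l2 * w2 + l3 * w3) * v1 := by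
      rw [hc2, hc3]; ring
    rw [this, ha, hb]; ring
  have m2 : c3 * l1 - c1 * l3 = P * (a * w2 - b * v2) := by
    have : c3 * l1 - c1 * l3 =
        (l1 * v1 + l2 * v2 + l3 * v3) * w2 - (l1 * w1 + l2 * w2 + l3 * w3) * v2 := by
      rw [hc1, hc3]; ring
    rw [this, ha, hb]; ring
  have m3 : c1 * l2 - c2 * l1 = P * (a * w3 - b * v3) := by
    have : c1 * l2 - c2 * l1 =
        (l1 * v1 + l2 * v2 + l3 * v3) * w3 - (l1 * w1 + l2 * w2 + l3 * w3) * v3 := by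
      rw [hc1, hc2]; ring
    rw [this, ha, hb]; ring
  generalize a * w1 - b * v1 = n1 at m1
  generalize a * w2 - b * v2 = n2 at m2
  generalize a * w3 - b * v3 = n3 at m3
  clear_value c1 c2 c3
  by_cases h1 : (p : ℤ) ∣ l1
  · by_cases h2 : (p : ℤ) ∣ l2
    · have h3 : ¬ (p : ℤ) ∣ l3 := fun h3 => hl ⟨h1, h2, h3⟩
      apply par_coprime hp h3
      have e1 : c1 * l3 = c3 * l1 - P * n2 := by linarith
      have e2 : c2 * l3 = c3 * l2 + P * n1 := by linarith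
      refine ⟨c3 ^ 2 * e + 6 * (-2 * c3 * l1 * n2 + P * n2 ^ 2) +
        5 * (2 * c3 * l2 * n1 + P * n1 ^ 2) - 4 * c3 * l3 * n2, ?_⟩
      have e3 : (6 * c1 ^ 2 + 5 * c2 ^ 2 + 4 * c3 ^ 2 + 4 * c1 * c3) * l3 ^ 2 =
        6 * (c1 * l3) ^ 2 + 5 * (c2 * l3) ^ 2 + 4 * c3 ^ 2 * l3 ^ 2 +
          4 * (c1 * l3) * (c3 * l3) := by ring
      rw [e3, e1, e2]
      linear_combination c3 ^ 2 * he
    · apply par_coprime hp h2
      have e1 : c1 * l2 = c2 * l1 + P * n3 := by linarith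
      have e2 : c3 * l2 = c2 * l3 - P * n1 := by linarith
      refine ⟨c2 ^ 2 * e + 6 * (2 * c2 * l1 * n3 + P * n3 ^ 2) +
        4 * (-2 * c2 * l3 * n1 + P * n1 ^ 2) +
        4 * (c2 * l3 * n3 - c2 * l1 * n1 - P * n3 * n1), ?_⟩
      have e3 : (6 * c1 ^ 2 + 5 * c2 ^ 2 + 4 * c3 ^ 2 + 4 * c1 * c3) * l2 ^ 2 =
        6 * (c1 * l2) ^ 2 + 5 * c2 ^ 2 * l2 ^ 2 + 4 * (c3 * l2) ^ 2 +
          4 * (c1 * l2) * (c3 * l2) := by ring
      rw [e3, e1, e2]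
      linear_combination c2 ^ 2 * he
  · apply par_coprime hp h1
    have e1 : c2 * l1 = c1 * l2 - P * n3 := by linarith
    have e2 : c3 * l1 = c1 * l3 + P * n2 := by linarith
    refine ⟨c1 ^ 2 * e + 5 * (-2 * c1 * l2 * n3 + P * n3 ^ 2) +
      4 * (2 * c1 * l3 * n2 + P * n2 ^ 2) + 4 * (c1 * l1 * n2), ?_⟩
    have e3 : (6 * c1 ^ 2 + 5 * c2 ^ 2 + 4 * c3 ^ 2 + 4 * c1 * c3) * l1 ^ 2 =
      6 * c1 ^ 2 * l1 ^ 2 + 5 * (c2 * l1) ^ 2 + 4 * (c3 * l1) ^ 2 +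
        4 * (c1 * l1) * (c3 * l1) := by ring
    rw [e3, e1, e2]
    linear_combination c1 ^ 2 * he

theorem eq_sq_mul_of_cross (v w : V) (hw : Int.gcd w.1 (Int.gcd w.2.1 w.2.2) = 1)
    (h : cross v w = 0) :
    ∃ t : ℤ, v = (t * w.1, t * w.2.1, t * w.2.2) ∧ Qf v = t ^ 2 * Qf w := by
  obtain ⟨v1, v2, v3⟩ := v
  obtain ⟨w1, w2, w3⟩ := w
  simp only [cross, Prod.mk_eq_zero] at h hw ⊢
  obtain ⟨h1, h2, h3⟩ := h
  have g1 := Int.gcd_eq_gcd_ab w1 (Int.gcd w2 w3)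
  have g2 := Int.gcd_eq_gcd_ab w2 w3
  rw [hw] at g1
  set α := Int.gcdA w1 (Int.gcd w2 w3)
  set β := Int.gcdB w1 (Int.gcd w2 w3)
  set γ := Int.gcdA w2 w3
  set δ := Int.gcdB w2 w3
  have hb : w1 * α + w2 * (γ * β) + w3 * (δ * β) = 1 := by
    rw [g2] at g1
    push_cast at g1
    linear_combination -g1
  set t := v1 * α + v2 * (γ * β) + v3 * (δ * β) with ht
  have e1 : v1 = t * w1 := by
    rw [ht]
    linear_combination (-v1) * hb + (γ * β) * h3 - (δ * β) * h2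
  have e2 : v2 = t * w2 := by
    rw [ht]
    linear_combination (-v2) * hb - α * h3 + (δ * β) * h1
  have e3 : v3 = t * w3 := by
    rw [ht]
    linear_combination (-v3) * hb + α * h2 - (γ * β) * h1
  refine ⟨t, ?_, ?_⟩
  · rw [← e1, ← e2, ← e3]
  · simp only [Qf]
    rw [e1, e2, e3]
    ring

end Pool.Agent.Work.MP_9954fe_nt
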