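import Pool.Agent.Work.MP_9954fe_nt.Chk
import Pool.Agent.Work.MP_9954fe_nt.Parallel

/-!
The corners that are left lie on finitely many lines through the origin.
-/

set_option autoImplicit false

namespace Pool.Agent.Work.MP_9954fe_nt

variable {S : Pr} {P0 : PD} {Pl : List PD} {Pm : PD} {cn : ℕ} {n : ℤ}

/-- The final code `c` is checked for the residues of `x0 :: xr`. -/
def Fn (S : Pr) (P0 : PD) (Pl : List PD) (x0 : ℕ) (xr : List ℕ) (c : ℕ) : Prop :=
  ∃ er cs, St (P0 :: Pl) (x0 :: xr) er cs ∧ K0 cs ∧ finc S c cs = true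

/-- At a corner the trie reaches a checked final leaf. -/
theorem Ctx.chk_fin (H : Ctx S P0 Pl Pm cn n) (hcl : ∀ c, c ≤ BIG → Cl S P0 Pl Pm cn n c) {v : V}
    {x0 : ℕ} {xr : List ℕ} (hc : Cnr P0 Pl cn n v x0 xr) {l0 : ℕ} (hl0 : Line Pm v l0) (T : Tr) :
    ∀ {ls : List ℕ} {cs : Cs} {cm acc j : ℕ} {er : Cs}, (∀ a ∈ ls, a < 4) →
    chk S T ls cs cm acc j = true → K0 cs → (∀ l, Line Pm v l → acc.testBit l = false) →
    (j = ALL → St (P0 :: Pl) (x0 :: xr) er cs →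
      (∀ l, Line Pm v l → (Qm S.full T 0 ls er BIG 0).testBit l = false) →
      Fn S P0 Pl x0 xr (Qc T 0 ls er 0)) ∧
    (j ≠ ALL → ∀ d, d ≠ ALL → has T d = true → St (P0 :: Pl) (x0 :: xr) er (push cs d j) → ∀ df0,
      (∀ l, Line Pm v l → (Qm S.full T d ls er BIG df0).testBit l = false) →
      ∀ df, Fn S P0 Pl x0 xr (Qc T d ls er df)) := by
  induction T with
  | dd =>
    intro ls cs cm acc j er _ hchk _ hacc
    refine ⟨fun _ _ _ => ?_, fun _ d _ hh => ?_⟩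
    · have h' : Nat.beq (Nat.lor acc S.ty1) S.full = true := hchk
      have h1 := H.no_line hc.q hl0 h'
      rw [hacc l0 hl0] at h1
      exact absurd h1 (by simp)
    · exact absurd hh (by simp [has])
  | fin c0 =>
    intro ls cs cm acc j er _ hchk h0 _
    refine ⟨fun _ hS _ => ?_, fun _ d _ hh => ?_⟩
    · exact ⟨er, cs, hS, h0, hchk⟩
    · exact absurd hh (by simp [has])
  | ev c' m t ih =>
    intro ls cs cm acc j er hls hchk h0 hacc
    have h' : an (Nat.beq j ALL) (an (Nat.ble (Nat.succ cm) c')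
      (an (Nat.ble (Nat.succ c') BIG) (an (evc S c' m acc cs)
        (fo (Nat.lor acc m) (fun acc' => chk S t ls cs c' acc' ALL))))) = true := hchk
    rw [an_iff, an_iff, an_iff, an_iff, fo_eq, beq_iff, ble_iff, ble_iff] at h'
    obtain ⟨h1, h2, h3, h4, h5⟩ := h'
    refine ⟨fun _ hS hsub => ?_, fun hj => absurd h1 hj⟩
    have hm0 : ∀ l, Line Pm v l → m.testBit l = false := by
      intro l hl
      have h6 := hsub l hl
      rw [Qm_ev, lor_bit, bi_gt (by omega), Bool.or_eq_false_iff] at h6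
      exact h6.1
    have hacc' : ∀ l, Line Pm v l → (Nat.lor acc m).testBit l = false := by
      intro l hl
      rw [lor_bit, hacc l hl, hm0 l hl]; rfl
    have hsub' : ∀ l, Line Pm v l → (Qm S.full t 0 ls er BIG 0).testBit l = false := by
      intro l hl
      have h6 := hsub l hl
      rw [Qm_ev, lor_bit, Bool.or_eq_false_iff] at h6
      exact h6.2
    rw [Qc_ev]
    exact (ih (er := er) hls h5 h0 hacc').1 rfl hS hsub'
  | nd c' t ih =>
    intro ls cs cm acc j er hls hchk h0 hacc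
    have h' : an (Nat.beq j ALL) (an (Nat.ble (Nat.succ c') BIG)
      (an (miss S c' (hd ls) t cs) (chk S t (tl ls) cs cm acc (hd ls)))) = true := hchk
    rw [an_iff, an_iff, an_iff, beq_iff, ble_iff] at h'
    obtain ⟨h1, h2, h3, h4⟩ := h'
    refine ⟨fun _ hS hsub => ?_, fun hj => absurd h1 hj⟩
    obtain ⟨D, x, k, er', g1, g2, g3, g4, g5, g6⟩ := H.miss_read hS h3
    have hj : hd ls ≠ ALL := by
      have h9 : ALL = 1000 := rfl
      have := hd_lt hls
      omega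
    have hh := H.miss_sound (hcl c' (by omega)) hc hl0 hS h0 h3 g4
    rw [Qc_nd, g4]
    refine (ih (er := er') (tl_lt hls) h4 h0 hacc).2 hj _ g5 hh g6
      (bi (Nat.ble BIG c') 0 S.full) ?_ _
    intro l hl
    have h6 := hsub l hl
    rw [Qm_nd, g4] at h6
    exact h6
  | br m x y ihx ihy =>
    intro ls cs cm acc j er hls hchk h0 hacc
    have h' : bi (Nat.beq j ALL) false (an (chk S x ls cs cm acc j) (chk S y ls cs cm acc j)) = true :=
      hchk
    by_cases hj : j = ALL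
    · rw [beq_iff.mpr hj, bi_true] at h'; exact absurd h' (by simp)
    rw [beq_false.mpr hj, bi_false, an_iff] at h'
    refine ⟨fun h => absurd h hj, fun _ d hd hh hS df0 hsub df => ?_⟩
    have hhas : has (.br m x y) d = bi (Nat.ble m d) (has y d) (has x d) := rfl
    rw [hhas] at hh
    rw [Qc_br, beq_false.mpr hd, bi_false]
    have hsub' : ∀ l, Line Pm v l → (bi (Nat.ble m d) (Qm S.full y d ls er BIG df0)
        (Qm S.full x d ls er BIG df0)).testBit l = false := by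
      intro l hl
      have h6 := hsub l hl
      rw [Qm_br, beq_false.mpr hd, bi_false] at h6
      exact h6
    rcases hm : Nat.ble m d with _ | _
    · rw [bi_false]
      rw [hm, bi_false] at hh
      simp only [hm, bi_false] at hsub'
      exact (ihx (er := er) hls h'.1 h0 hacc).2 hj d hd hh hS df0 hsub' df
    · rw [bi_true]
      rw [hm, bi_true] at hh
      simp only [hm, bi_true] at hsub'
      exact (ihy (er := er) hls h'.2 h0 hacc).2 hj d hd hh hS df0 hsub' df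
  | ch d' t ih =>
    intro ls cs cm acc j er hls hchk h0 hacc
    have h' : bi (Nat.beq j ALL) false (an (Nat.ble (Nat.succ d') ALL)
      (chk S t ls (push cs d' j) cm acc ALL)) = true := hchk
    by_cases hj : j = ALL
    · rw [beq_iff.mpr hj, bi_true] at h'; exact absurd h' (by simp)
    rw [beq_false.mpr hj, bi_false, an_iff] at h'
    refine ⟨fun h => absurd h hj, fun _ d hd hh hS df0 hsub df => ?_⟩
    have hhas : has (.ch d' t) d = Nat.beq d d' := rfl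
    rw [hhas, beq_iff] at hh
    rw [Qc_ch, beq_false.mpr hd, bi_false]
    subst hh
    rw [beq_iff.mpr rfl, bi_true]
    have hsub' : ∀ l, Line Pm v l → (Qm S.full t 0 ls er BIG 0).testBit l = false := by
      intro l hl
      have h6 := hsub l hl
      rw [Qm_ch, beq_false.mpr hd, bi_false, beq_iff.mpr rfl, bi_true] at h6
      exact h6
    refine (ih (er := er) hls h'.2 (h0.push ?_ d j) hacc).1 rfl hS hsub'
    intro p X P hn
    by_cases h0j : 0 = j
    · exact hS.pos p _ _ (by rw [nth_push hn, if_pos h0j])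
    · exact hS.pos p _ _ (by rw [nth_push hn, if_neg h0j])

/-- The final code of a corner. -/
noncomputable def cod (S : Pr) (P0 : PD) (Pl : List PD) (x0 : ℕ) (xr : List ℕ) : ℕ :=
  Qc S.T 0 S.ls (E (P0 :: Pl) (x0 :: xr)) 0

theorem Ctx.fin (H : Ctx S P0 Pl Pm cn n) (hR : RootOk S P0 Pl cn) {v : V}
    {x0 : ℕ} {xr : List ℕ} (hc : Cnr P0 Pl cn n v x0 xr) {l0 : ℕ} (hl0 : Line Pm v l0) :
    Fn S P0 Pl x0 xr (cod S P0 Pl x0 xr) := by
  have hcl := H.claim hR
  obtain ⟨⟨c0, t0, hT, hc0, hg, hh⟩, hhd, hparts⟩ := hR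
  obtain ⟨er, h1, h2, h3⟩ := H.first hc
  have hok := H.okd P0 (List.mem_cons_self ..)
  have hd0 : x0 % P0.p < P0.p := Nat.mod_lt _ hok.prime.pos
  have hdA : x0 % P0.p ≠ ALL := by
    have h9 : ALL = 1000 := rfl
    have := hok.small
    omega
  have hroot : Qm S.full S.T 0 S.ls (E (P0 :: Pl) (x0 :: xr)) BIG 0 =
      Qm S.full (sub S.T (x0 % P0.p)) 0 (tl S.ls) er BIG 0 := by
    rw [hT, Qm_nd, hhd, h1]
    show Qm S.full t0 (x0 % P0.p) (tl S.ls) er BIG (bi (Nat.ble BIG c0) 0 S.full) = _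
    rw [ble_iff.mpr (by omega), bi_true, Qm_sub hg hdA]
    rfl
  have hroot2 : cod S P0 Pl x0 xr = Qc (sub S.T (x0 % P0.p)) 0 (tl S.ls) er 0 := by
    rw [cod, hT, Qc_nd, hhd, h1]
    show Qc t0 (x0 % P0.p) (tl S.ls) er (bi (Nat.ble BIG c0) FAIL 0) = _
    rw [Qc_sub hg hdA (hh _ hd0 hc.can)]
    rfl
  rw [hroot2]
  have hp : chk S (sub S.T (x0 % P0.p)) (tl S.ls) (push (zc (P0 :: Pl)) (x0 % P0.p) 0) 0 0 ALL =
      true := hparts _ hd0 hc.can
  refine (H.chk_fin hcl hc hl0 _ (tl_lt H.lab) hp h3 (fun l _ => by simp)).1 rfl h2 ?_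
  intro l hl
  rw [← hroot]
  exact hcl BIG le_rfl v x0 xr hc l hl

/-- What a checked final code gives. -/
theorem finc_true {c : ℕ} {cs : Cs} (h : finc S c cs = true) : BIG ≤ c ∧ c < FAIL ∧
    Int.gcd (axis c).1 (Int.gcd (axis c).2.1 (axis c).2.2) = 1 ∧ (Qf (axis c)).toNat ∈ S.oks ∧
    ∃ p X P, nth cs 0 = some (p, X, P) ∧ p < P ∧
      mvq S (fun mv cs' => finok p (axis c) mv.M (Qc S.T 0 S.ls cs' 0)) 0 cs = true := by
  have h' : an (Nat.ble BIG c) (an (Nat.ble (Nat.succ c) FAIL)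
    (an (decide (Int.gcd (axis c).1 (Int.gcd (axis c).2.1 (axis c).2.2) = 1))
      (an (decide ((Qf (axis c)).toNat ∈ S.oks))
        (getc false cs (fun p _ P => bi (Nat.ble P p) false
          (mvq S (fun mv cs' => finok p (axis c) mv.M (Qc S.T 0 S.ls cs' 0))
            0 cs)) 0)))) = true := h
  rw [an_iff, an_iff, an_iff, an_iff, ble_iff, ble_iff, decide_eq_true_iff, decide_eq_true_iff] at h'
  obtain ⟨h1, h2, h3, h4, h5⟩ := h'
  obtain ⟨p, X, P, h6, h7⟩ := getc_true h5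
  refine ⟨h1, by omega, h3, h4, p, X, P, h6, ?_⟩
  by_cases hP : P ≤ p
  · rw [ble_iff.mpr hP, bi_true] at h7; exact absurd h7 (by simp)
  · rw [ble_false.mpr (by omega), bi_false] at h7
    exact ⟨by omega, h7⟩

/-- The next corner in the direction of the first prime, and its axis. -/
theorem Ctx.next (H : Ctx S P0 Pl Pm cn n) (hR : RootOk S P0 Pl cn) {v : V}
    {x0 : ℕ} {xr : List ℕ} (hc : Cnr P0 Pl cn n v x0 xr) {l0 : ℕ} (hl0 : Line Pm v l0) :
    ∃ v' y0 yr mv l', Mvd S P0 Pl Pm 0 v x0 xr v' y0 yr mv ∧ Cnr P0 Pl cn n v' y0 yr ∧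
      Line Pm v' l' ∧ cross (mv.M.mul (axis (cod S P0 Pl x0 xr))) (axis (cod S P0 Pl y0 yr)) = 0 ∧
      ∃ z, mv.M.mul (axis (cod S P0 Pl x0 xr)) = smul (P0.p : ℤ) z := by
  obtain ⟨er, cs, h1, h2, h3⟩ := H.fin hR hc hl0
  obtain ⟨g1, g2, g3, g4, p, X, P, g5, g6, g7⟩ := finc_true h3
  obtain ⟨D, x, k, e1, e2, e3, e4, e5, e6, e7, -⟩ := h1.nth g5
  simp only [List.getElem?_cons_zero, Option.some.injEq] at e1 e2
  subst e1 e2
  obtain ⟨v', y0, yr, mv, cs', f1, f2, f3, f4⟩ := H.mvq_sound hc h1 h2 (by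
    intro q Y Q hq
    rw [g5] at hq
    simp only [Option.some.injEq, Prod.mk.injEq] at hq
    obtain ⟨rfl, -, rfl⟩ := hq
    exact g6) g7
  obtain ⟨l', f5, -⟩ := f1.line l0 hl0
  obtain ⟨er', cs'', i1, i2, i3⟩ := H.fin hR f2 f5
  obtain ⟨j1, j2, -⟩ := finc_true i3
  have hdm : Dm (cod S P0 Pl y0 yr) (Qc S.T 0 S.ls cs' 0) := (Qc_mono S.T S.ls _ cs' f4).1 0 0
  have hne : cod S P0 Pl y0 yr ≠ 0 := by
    intro h
    rw [h] at j1
    exact absurd j1 (by decide)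
  unfold finok at f3
  rw [Bool.or_eq_true, Bool.and_eq_true, Bool.and_eq_true, Bool.and_eq_true, Bool.and_eq_true,
    decide_eq_true_iff, decide_eq_true_iff, decide_eq_true_iff, decide_eq_true_iff] at f3
  have hFB : ¬ FAIL < BIG := by decide
  have hblt : ∀ {a b : ℕ}, a.blt b = true → a < b := by
    intro a b hab
    exact Nat.le_of_ble_eq_true hab
  rcases f3 with f3 | ⟨f30, k1, k2, k3, k4⟩
  · exfalso
    have h4 := hblt f3
    rcases hdm with h | h | h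
    · exact hne h
    · omega
    · rw [h] at h4; exact hFB h4
  have hr : Qc S.T 0 S.ls cs' 0 = cod S P0 Pl y0 yr := by
    rcases hdm with h | h | h
    · exact absurd h hne
    · exact h
    · have h4 := hblt f30
      omega
  rw [hr] at k1
  refine ⟨v', y0, yr, mv, l', f1, f2, f5, k1, ?_⟩
  rw [e3] at k2 k3 k4
  obtain ⟨z1, hz1⟩ := Int.dvd_of_emod_eq_zero k2
  obtain ⟨z2, hz2⟩ := Int.dvd_of_emod_eq_zero k3
  obtain ⟨z3, hz3⟩ := Int.dvd_of_emod_eq_zero k4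
  exact ⟨(z1, z2, z3), Prod.ext hz1 (Prod.ext hz2 hz3)⟩

theorem cross_cancel {p : ℤ} (hp : p ≠ 0) {z w : V} (h : cross (smul p z) w = 0) :
    cross z w = 0 := by
  simp only [cross, smul, Prod.mk_eq_zero] at h ⊢
  obtain ⟨h1, h2, h3⟩ := h
  refine ⟨?_, ?_, ?_⟩
  · apply mul_left_cancel₀ hp; rw [mul_zero, ← h1]; ring
  · apply mul_left_cancel₀ hp; rw [mul_zero, ← h2]; ring
  · apply mul_left_cancel₀ hp; rw [mul_zero, ← h3]; ring

/-- The common covector. -/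
theorem Ctx.common (H : Ctx S P0 Pl Pm cn n) (hR : RootOk S P0 Pl cn) (j : ℕ) : ∀ {v : V}
    {x0 : ℕ} {xr : List ℕ} (_ : Cnr P0 Pl cn n v x0 xr) {l0 : ℕ} (_ : Line Pm v l0),
    ∃ (w : V) (u : ℤ), ¬ (P0.p : ℤ) ∣ u ∧ VDvd P0.p w (smul u (P0.lam (x0 : ℤ))) ∧
      (P0.p : ℤ) ^ j ∣ dot w v ∧ (P0.p : ℤ) ^ j ∣ dot w (axis (cod S P0 Pl x0 xr)) ∧
      (P0.p : ℤ) ^ j ∣ Qs w := by
  have hok := H.okd P0 (List.mem_cons_self ..)
  have hpr := intPrime hok.prime
  induction j with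
  | zero =>
    intro v x0 xr hc l0 hl0
    refine ⟨P0.lam (x0 : ℤ), 1, hpr.not_dvd_one, ?_, ?_, ?_, ?_⟩
    · refine ⟨?_, ?_, ?_⟩ <;> simp [smul]
    · rw [pow_zero]; exact one_dvd _
    · rw [pow_zero]; exact one_dvd _
    · rw [pow_zero]; exact one_dvd _
  | succ j ih =>
    intro v x0 xr hc l0 hl0
    obtain ⟨v', y0, yr, mv, l', f1, f2, f3, f4, z, f5⟩ := H.next hR hc hl0
    obtain ⟨w, u, h1, h2, h3, h4, h5⟩ := ih f2 f3
    have hd0 : x0 % P0.p < P0.p := Nat.mod_lt _ hok.prime.pos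
    have hm := H.mv 0 P0 rfl _ hd0 hc.can (x0 / P0.p % P0.p) (Nat.mod_lt _ hok.prime.pos) (Or.inl rfl)
    rw [← f1.eq rfl] at hm
    have hI := f1.img
    have hmo := hm.mo
    rw [if_pos rfl] at hmo
    -- the own Moebius map
    rw [E, E, shiftc_zero] at hI
    generalize hmoe : mv.mo = mo at hI hmo
    generalize hmue : mv.mu = mus at hmo
    have hK := hok.K2
    have h7 : P0.p ^ P0.K / P0.p = P0.p ^ (P0.K - 1) := by
      conv_lhs => rw [show P0.K = (P0.K - 1) + 1 by omega, pow_succ]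
      exact Nat.mul_div_cancel _ hok.prime.pos
    rw [h7] at hI
    cases hI with
    | @cons a b c d mo' p X P t y Q t' hp k' K' hkK hPk hQ hcc ht =>
      have hkk : k' = P0.K - 1 := Nat.pow_right_injective hok.prime.two_le (by
        show P0.p ^ k' = P0.p ^ (P0.K - 1)
        exact hPk.symm)
      obtain ⟨c1, c2⟩ := hcc (by omega)
      cases mus with
      | nil => simp [MoI] at hmo
      | cons mu mus =>
        obtain ⟨-, hOw, -⟩ := hmo
        have d1 : ¬ (P0.p : ℤ) ∣ (c : ℤ) * (x0 / P0.p : ℕ) + d := by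
          intro h
          apply c1
          have : ((P0.p : ℕ) : ℤ) ∣ ((c * (x0 / P0.p) + d : ℕ) : ℤ) := by push_cast; exact_mod_cast h
          exact Int.natCast_dvd_natCast.mp this
        have d2 : ((P0.p : ℤ) ^ (P0.K - 1)) ∣ ((c : ℤ) * (x0 / P0.p : ℕ) + d) * y0 -
            (a * (x0 / P0.p : ℕ) + b) := by
          have := Nat.modEq_iff_dvd.mp c2.symm
          push_cast at this
          exact_mod_cast this
        obtain ⟨u', e1, e2⟩ := hOw.cov_ hok rfl d1 d2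
        refine ⟨mv.M.tmul w, u * u', ?_, ?_, ?_, ?_, ?_⟩
        · intro h
          rcases hpr.dvd_or_dvd h with h | h
          · exact h1 h
          · exact e1 h
        · -- congruence
          obtain ⟨⟨a1, ha1⟩, ⟨a2, ha2⟩, ⟨a3, ha3⟩⟩ := h2
          obtain ⟨⟨b1, hb1⟩, ⟨b2, hb2⟩, ⟨b3, hb3⟩⟩ := e2
          simp only [smul, M3.tmul] at ha1 ha2 ha3 hb1 hb2 hb3 ⊢
          refine ⟨⟨mv.M.a * a1 + mv.M.d * a2 + mv.M.g * a3 + u * b1, ?_⟩,
            ⟨mv.M.b * a1 + mv.M.e * a2 + mv.M.h * a3 + u * b2, ?_⟩,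
            ⟨mv.M.c * a1 + mv.M.f * a2 + mv.M.i * a3 + u * b3, ?_⟩⟩
          · linear_combination mv.M.a * ha1 + mv.M.d * ha2 + mv.M.g * ha3 + u * hb1
          · linear_combination mv.M.b * ha1 + mv.M.e * ha2 + mv.M.h * ha3 + u * hb2
          · linear_combination mv.M.c * ha1 + mv.M.f * ha2 + mv.M.i * ha3 + u * hb3
        · rw [dot_tmul, f1.mul rfl]
          have : dot w (smul (P0.p : ℤ) v') = P0.p * dot w v' := by simp only [dot, smul]; ring
          rw [this, pow_succ']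
          exact mul_dvd_mul_left _ h3
        · rw [dot_tmul, f5]
          have : dot w (smul (P0.p : ℤ) z) = P0.p * dot w z := by simp only [dot, smul]; ring
          rw [this, pow_succ']
          apply mul_dvd_mul_left
          rw [f5] at f4
          have hp0 : (P0.p : ℤ) ≠ 0 := by exact_mod_cast hok.prime.ne_zero
          have f6 := cross_cancel hp0 f4
          obtain ⟨er', cs'', i1, i2, i3⟩ := H.fin hR f2 f3
          obtain ⟨-, -, j3, -⟩ := finc_true i3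
          obtain ⟨t, ht, -⟩ := eq_sq_mul_of_cross _ _ j3 f6
          rw [ht]
          have : dot w (t * (axis (cod S P0 Pl y0 yr)).1, t * (axis (cod S P0 Pl y0 yr)).2.1,
              t * (axis (cod S P0 Pl y0 yr)).2.2) = t * dot w (axis (cod S P0 Pl y0 yr)) := by
            simp only [dot]; ring
          rw [this]
          exact Dvd.dvd.mul_left h4 _
        · rw [hm.dual, pow_succ']
          have : (P0.p : ℤ) ^ 2 * Qs w = P0.p * (P0.p * Qs w) := by ring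
          rw [this]
          exact mul_dvd_mul_left _ (Dvd.dvd.mul_left h5 _)

/-- The covectors of the conic do not vanish modulo `p`. -/
theorem PD.Ok.nz {P : PD} (h : P.Ok) (x : ℤ) : ¬ ((P.p : ℤ) ∣ (P.lam x).1 ∧
    (P.p : ℤ) ∣ (P.lam x).2.1 ∧ (P.p : ℤ) ∣ (P.lam x).2.2) := by
  rintro ⟨h1, h2, h3⟩
  obtain ⟨s, hs, hd⟩ := h.disc
  have hpr := intPrime h.prime
  have h2' : ¬ (P.p : ℤ) ∣ 2 := fun h' => h.ten (h'.trans ⟨5, by norm_num⟩)
  -- the discriminant is a square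
  have key : ∀ v : V, (P.p : ℤ) ∣ (dot P.B v + 2 * x * dot P.A v) ^ 2 + 10 * s ^ 2 * Qf v := by
    intro v
    have h4 : (P.p : ℤ) ∣ dot (P.lam x) v := by
      simp only [dot]
      exact dvd_add (dvd_add (Dvd.dvd.mul_right h1 _) (Dvd.dvd.mul_right h2 _))
        (Dvd.dvd.mul_right h3 _)
    rw [dot_lam] at h4
    have h5 : (dot P.B v + 2 * x * dot P.A v) ^ 2 + 10 * s ^ 2 * Qf v =
        ((dot P.B v) ^ 2 - 4 * dot P.A v * dot P.C v + 10 * s ^ 2 * Qf v) +
        4 * dot P.A v * (x ^ 2 * dot P.A v + x * dot P.B v + dot P.C v) := by ring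
    rw [h5]
    exact dvd_add (hd v) (Dvd.dvd.mul_left h4 _)
  have k1 := key (1, 0, 0)
  have k2 := key (0, 1, 0)
  have k3 := key (1, 1, 0)
  simp only [dot, Qf] at k1 k2 k3
  set a := P.B.1 + 2 * x * P.A.1 with ha
  set b := P.B.2.1 + 2 * x * P.A.2.1 with hb
  have m1 : (P.p : ℤ) ∣ a ^ 2 + 20 * s ^ 2 := by
    have : a ^ 2 + 20 * s ^ 2 = (P.B.1 * 1 + P.B.2.1 * 0 + P.B.2.2 * 0 +
      2 * x * (P.A.1 * 1 + P.A.2.1 * 0 + P.A.2.2 * 0)) ^ 2 +
      10 * s ^ 2 * (2 * 1 ^ 2 - 2 * 1 * 0 + 3 * 0 ^ 2 + 2 * 0 ^ 2) := by rw [ha]; ring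
    rw [this]; exact k1
  have m2 : (P.p : ℤ) ∣ b ^ 2 + 20 * s ^ 2 := by
    have : b ^ 2 + 20 * s ^ 2 = (P.B.1 * 0 + P.B.2.1 * 1 + P.B.2.2 * 0 +
      2 * x * (P.A.1 * 0 + P.A.2.1 * 1 + P.A.2.2 * 0)) ^ 2 +
      10 * s ^ 2 * (2 * 0 ^ 2 - 2 * 0 * 0 + 3 * 0 ^ 2 + 2 * 1 ^ 2) := by rw [hb]; ring
    rw [this]; exact k2
  have m3 : (P.p : ℤ) ∣ (a + b) ^ 2 + 40 * s ^ 2 := by
    have : (a + b) ^ 2 + 40 * s ^ 2 = (P.B.1 * 1 + P.B.2.1 * 1 + P.B.2.2 * 0 +
      2 * x * (P.A.1 * 1 + P.A.2.1 * 1 + P.A.2.2 * 0)) ^ 2 +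
      10 * s ^ 2 * (2 * 1 ^ 2 - 2 * 1 * 0 + 3 * 0 ^ 2 + 2 * 1 ^ 2) := by rw [ha, hb]; ring
    rw [this]; exact k3
  have m4 : (P.p : ℤ) ∣ 2 * (a * b) := by
    have : 2 * (a * b) = ((a + b) ^ 2 + 40 * s ^ 2) - (a ^ 2 + 20 * s ^ 2) - (b ^ 2 + 20 * s ^ 2) := by
      ring
    rw [this]; exact dvd_sub (dvd_sub m3 m1) m2
  have m5 : (P.p : ℤ) ∣ 20 * s ^ 2 := by
    rcases hpr.dvd_or_dvd m4 with m | m
    · exact absurd m h2'
    · rcases hpr.dvd_or_dvd m with m | m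
      · have : 20 * s ^ 2 = (a ^ 2 + 20 * s ^ 2) - a * a := by ring
        rw [this]; exact dvd_sub m1 (Dvd.dvd.mul_left m _)
      · have : 20 * s ^ 2 = (b ^ 2 + 20 * s ^ 2) - b * b := by ring
        rw [this]; exact dvd_sub m2 (Dvd.dvd.mul_left m _)
  have m6 : (20 : ℤ) * s ^ 2 = 2 * (10 * s ^ 2) := by ring
  rw [m6] at m5
  rcases hpr.dvd_or_dvd m5 with m | m
  · exact h2' m
  · rcases hpr.dvd_or_dvd m with m | m
    · exact h.ten m
    · exact hs (hpr.dvd_of_dvd_pow m)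

/-- A bad number with a corner is a square times one of the listed values. -/
theorem Ctx.final (H : Ctx S P0 Pl Pm cn n) (hR : RootOk S P0 Pl cn) {v : V}
    {x0 : ℕ} {xr : List ℕ} (hc : Cnr P0 Pl cn n v x0 xr) {l0 : ℕ} (hl0 : Line Pm v l0) :
    ∃ (t : ℤ) (m : ℕ), m ∈ S.oks ∧ n = t ^ 2 * m := by
  have hok := H.okd P0 (List.mem_cons_self ..)
  have hpr := intPrime hok.prime
  obtain ⟨er, cs, h1, h2, h3⟩ := H.fin hR hc hl0
  obtain ⟨g1, g2, g3, g4, -⟩ := finc_true h3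
  have hcr : cross v (axis (cod S P0 Pl x0 xr)) = 0 := by
    apply cross_eq_zero_of_forall P0.p hok.prime
    intro j
    obtain ⟨w, u, a1, a2, a3, a4, a5⟩ := H.common hR j hc hl0
    refine ⟨w, ?_, a3, a4, a5⟩
    rintro ⟨b1, b2, b3⟩
    apply hok.nz (x0 : ℤ)
    have key : ∀ {x y : ℤ}, (P0.p : ℤ) ∣ x - u * y → (P0.p : ℤ) ∣ x → (P0.p : ℤ) ∣ y := by
      intro x y hxy hx
      have h4 : u * y = x - (x - u * y) := by ring
      have h5 : (P0.p : ℤ) ∣ u * y := by rw [h4]; exact dvd_sub hx hxy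
      exact (hpr.dvd_or_dvd h5).resolve_left a1
    exact ⟨key a2.1 b1, key a2.2.1 b2, key a2.2.2 b3⟩
  obtain ⟨t, -, ht⟩ := eq_sq_mul_of_cross v _ g3 hcr
  refine ⟨t, (Qf (axis (cod S P0 Pl x0 xr))).toNat, g4, ?_⟩
  have hpos : 0 ≤ Qf (axis (cod S P0 Pl x0 xr)) := by
    generalize axis (cod S P0 Pl x0 xr) = w
    unfold Qf
    nlinarith [sq_nonneg (w.1 - w.2.2), sq_nonneg w.1, sq_nonneg w.2.2, sq_nonneg w.2.1]
  rw [Int.toNat_of_nonneg hpos, ← ht, hc.q]

/-- A valid unit move. -/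
structure UnOk (P0 : PD) (m0 l : ℕ) (mv : Mv) : Prop where
  sim : ∀ v, Qf (mv.M.mul v) = Qf v
  msk : TrI P0 (P0.p : ℤ) mv.M mv.a mv.b mv.c mv.d mv.mum
  can : sg P0.p mv.a mv.b mv.c mv.d m0 l = true

/-- Existence of a corner. -/
theorem Ctx.exists_cnr (H : Ctx S P0 Pl Pm cn n)
    (hU : ∀ l < P0.p, cn.testBit l = true ∨ (S.tys.getD 0 0).testBit l = true ∨
      ∃ mv, UnOk P0 (Nat.lor cn (S.tys.getD 0 0)) l mv)
    (hsq : ∀ P ∈ P0 :: Pl, ∃ r : ℤ, (P.p : ℤ) ∣ r ^ 2 + 10 * n) (hsm : ∃ r : ℤ, (Pm.p : ℤ) ∣ r ^ 2 + 10 * n)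
    {v : V} (hv : Qf v = n) : ∃ v x0 xr, Cnr P0 Pl cn n v x0 xr ∧ ∃ l, Line Pm v l := by
  have hok := H.okd P0 (List.mem_cons_self ..)
  have hn0 := H.nd P0 (List.mem_cons_self ..)
  -- a vector with a canonical end
  have h1 : ∃ v x0, Qf v = n ∧ End P0 v x0 ∧ cn.testBit (x0 % P0.p) = true := by
    obtain ⟨r, hr⟩ := hsq P0 (List.mem_cons_self ..)
    obtain ⟨x, hx⟩ := hok.exists_end H.bad hn0 hv hr
    have hl := End.line hok hx
    rcases hU (x % P0.p) hl.1 with h | h | ⟨mv, h⟩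
    · exact ⟨v, x, hv, hx, h⟩
    · rw [H.not_ty hv rfl hx] at h; exact absurd h (by simp)
    · have hq : Qf (mv.M.mul v) = n := by rw [h.sim, hv]
      have hM : mv.M.mul v = smul 1 (mv.M.mul v) := by simp [smul]
      obtain ⟨g1, y, g2, g3⟩ := h.msk.line_ hok H.bad hq (fun h' => (intPrime hok.prime).not_dvd_one h')
        hM hl
      have g4 : (mv.c * (x % P0.p) + mv.d) * y ≡ mv.a * (x % P0.p) + mv.b [MOD P0.p] := by
        have := modEq_of (k := 1) (p := P0.p) (by rw [pow_one]; exact g2)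
        rwa [pow_one] at this
      have g5 := sg_sound hok.prime h.can (Nat.ModEq.refl _) (not_dvd_of g1) g4
      obtain ⟨z, g6, g7⟩ := hok.hensel hn0 hq (le_refl 1) (by rw [pow_one]; exact g3.2) (P0.K - 1)
      have hK := hok.K2
      rw [show 1 + (P0.K - 1) = P0.K by omega] at g7
      refine ⟨mv.M.mul v, z, hq, g7, ?_⟩
      have g8 : z % P0.p = y % P0.p := by
        have g9 : y ≡ z [MOD P0.p] := by
          rw [Nat.modEq_iff_dvd]; rw [pow_one] at g6; exact g6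
        exact g9.symm
      have hz : End P0 (mv.M.mul v) z := g7
      rw [← g8] at g5
      exact lor_false g5 (H.not_ty hq rfl hz)
  obtain ⟨v, x0, hv, hx0, hcan⟩ := h1
  have h2 : ∃ xr, Ends v Pl xr := by
    have key : ∀ Ps : List PD, (∀ P ∈ Ps, P ∈ P0 :: Pl) → ∃ xr, Ends v Ps xr := by
      intro Ps
      induction Ps with
      | nil => intro _; exact ⟨[], List.Forall₂.nil⟩
      | cons P Ps ih =>
        intro h
        obtain ⟨xr, hxr⟩ := ih (fun Q hQ => h Q (List.mem_cons_of_mem _ hQ))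
        have hP := h P (List.mem_cons_self ..)
        obtain ⟨r, hr⟩ := hsq P hP
        obtain ⟨x, hx⟩ := (H.okd P hP).exists_end H.bad (H.nd P hP) hv hr
        exact ⟨x :: xr, List.Forall₂.cons hx hxr⟩
    exact key Pl (fun P hP => List.mem_cons_of_mem _ hP)
  obtain ⟨xr, hxr⟩ := h2
  obtain ⟨r, hr⟩ := hsm
  obtain ⟨y, hy⟩ := H.okm.exists_end H.bad H.ndm hv hr
  exact ⟨v, x0, xr, ⟨hv, List.Forall₂.cons hx0 hxr, hcan⟩, _, End.line H.okm hy⟩

end Pool.Agent.Work.MP_9954fe_nt
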