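import Pool.Agent.Work.MP_9954fe_nt.Fast

/-!
Certificates for the sets {13, 19} of split primes.
-/

set_option autoImplicit false
set_option linter.all false
set_option maxRecDepth 100000

namespace Pool.Agent.Work.MP_9954fe_nt.P13_19

/-- Dummy move. -/
noncomputable def mz : Mv := ⟨⟨0, 0, 0, 0, 0, 0, 0, 0, 0⟩, .nil, (nat_lit 0), (nat_lit 0), (nat_lit 0), (nat_lit 0), (0, 0, 0), [], 0⟩

/-- Moves. -/
noncomputable def t0_2 : List Mv := [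
  ⟨⟨-1, -12, 9, 8, 5, 6, 8, -8, -7⟩, (.cons (nat_lit 5132696237) (nat_lit 9131290211) (nat_lit 1556376556) (nat_lit 1) .nil), (nat_lit 8), (nat_lit 18), (nat_lit 2), (nat_lit 1), (8, 1, 1), [8930823976], 3⟩,
  ⟨⟨9, 4, -16, -8, -5, -6, 8, -8, -7⟩, (.cons (nat_lit 7967154535) (nat_lit 7452037038) (nat_lit 6039819222) (nat_lit 1) .nil), (nat_lit 14), (nat_lit 7), (nat_lit 11), (nat_lit 1), (6, 12, 1), [6243335804], 2⟩,
  ⟨⟨9, 4, -16, -8, -5, -6, 8, -8, -7⟩, (.cons (nat_lit 7967154535) (nat_lit 7452037038) (nat_lit 6039819222) (nat_lit 1) .nil), (nat_lit 14), (nat_lit 7), (nat_lit 11), (nat_lit 1), (6, 12, 1), [6243335804], 2⟩,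
  ⟨⟨-1, -12, 9, -8, -5, -6, 8, -8, -7⟩, (.cons (nat_lit 2582838734) (nat_lit 10131402121) (nat_lit 6593669060) (nat_lit 1) .nil), (nat_lit 18), (nat_lit 4), (nat_lit 1), (nat_lit 1), (8, 12, 1), [572688855], 11⟩,
  ⟨⟨-1, -12, 9, 8, 5, 6, 8, -8, -7⟩, (.cons (nat_lit 5132696237) (nat_lit 9131290211) (nat_lit 1556376556) (nat_lit 1) .nil), (nat_lit 8), (nat_lit 18), (nat_lit 2), (nat_lit 1), (8, 1, 1), [8930823976], 3⟩,
  ⟨⟨9, 4, -16, 8, 5, 6, 8, -8, -7⟩, (.cons (nat_lit 9149646282) (nat_lit 7179333469) (nat_lit 4722459584) (nat_lit 1) .nil), (nat_lit 3), (nat_lit 3), (nat_lit 14), (nat_lit 1), (6, 1, 1), [9585805647], 6⟩,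
  ⟨⟨9, 4, -16, 8, 5, 6, 8, -8, -7⟩, (.cons (nat_lit 9149646282) (nat_lit 7179333469) (nat_lit 4722459584) (nat_lit 1) .nil), (nat_lit 3), (nat_lit 3), (nat_lit 14), (nat_lit 1), (6, 1, 1), [9585805647], 6⟩,
  ⟨⟨-1, -12, 9, -8, -5, -6, 8, -8, -7⟩, (.cons (nat_lit 2582838734) (nat_lit 10131402121) (nat_lit 6593669060) (nat_lit 1) .nil), (nat_lit 18), (nat_lit 4), (nat_lit 1), (nat_lit 1), (8, 12, 1), [572688855], 11⟩,
  ⟨⟨-1, -12, 9, -8, -5, -6, 8, -8, -7⟩, (.cons (nat_lit 2582838734) (nat_lit 10131402121) (nat_lit 6593669060) (nat_lit 1) .nil), (nat_lit 18), (nat_lit 4), (nat_lit 1), (nat_lit 1), (8, 12, 1), [572688855], 11⟩,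
  ⟨⟨-1, -12, 9, -8, -5, -6, 8, -8, -7⟩, (.cons (nat_lit 2582838734) (nat_lit 10131402121) (nat_lit 6593669060) (nat_lit 1) .nil), (nat_lit 18), (nat_lit 4), (nat_lit 1), (nat_lit 1), (8, 12, 1), [572688855], 11⟩,
  ⟨⟨-1, -12, 9, 8, 5, 6, 8, -8, -7⟩, (.cons (nat_lit 5132696237) (nat_lit 9131290211) (nat_lit 1556376556) (nat_lit 1) .nil), (nat_lit 8), (nat_lit 18), (nat_lit 2), (nat_lit 1), (8, 1, 1), [8930823976], 3⟩,
  ⟨⟨-1, -12, 9, -8, -5, -6, 8, -8, -7⟩, (.cons (nat_lit 2582838734) (nat_lit 10131402121) (nat_lit 6593669060) (nat_lit 1) .nil), (nat_lit 18), (nat_lit 4), (nat_lit 1), (nat_lit 1), (8, 12, 1), [572688855], 11⟩,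
  ⟨⟨-1, -12, 9, -8, -5, -6, 8, -8, -7⟩, (.cons (nat_lit 2582838734) (nat_lit 10131402121) (nat_lit 6593669060) (nat_lit 1) .nil), (nat_lit 18), (nat_lit 4), (nat_lit 1), (nat_lit 1), (8, 12, 1), [572688855], 11⟩]

/-- Moves. -/
noncomputable def t0_4 : List Mv := [
  ⟨⟨5, 12, -9, -12, 5, 6, 0, 0, -13⟩, (.cons (nat_lit 1214124060) (nat_lit 6442067673) (nat_lit 2590592113) (nat_lit 1) .nil), (nat_lit 1), (nat_lit 12), (nat_lit 1), (nat_lit 1), (12, 5, 0), [3574571199], 10⟩,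
  ⟨⟨-5, -12, -4, -12, 5, 6, 0, 0, -13⟩, (.cons (nat_lit 1723444148) (nat_lit 1849877728) (nat_lit 8384235570) (nat_lit 1) .nil), (nat_lit 18), (nat_lit 17), (nat_lit 16), (nat_lit 1), (1, 5, 0), [8754878325], 4⟩,
  ⟨⟨-5, -12, -4, -12, 5, 6, 0, 0, -13⟩, (.cons (nat_lit 1723444148) (nat_lit 1849877728) (nat_lit 8384235570) (nat_lit 1) .nil), (nat_lit 18), (nat_lit 17), (nat_lit 16), (nat_lit 1), (1, 5, 0), [8754878325], 4⟩,
  ⟨⟨-5, -12, -4, 12, -5, -6, 0, 0, -13⟩, (.cons (nat_lit 8885162716) (nat_lit 448622403) (nat_lit 5224249956) (nat_lit 1) .nil), (nat_lit 1), (nat_lit 1), (nat_lit 8), (nat_lit 1), (1, 8, 0), [10596366908], 15⟩,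
  ⟨⟨5, 12, -9, 12, -5, -6, 0, 0, -13⟩, (.cons (nat_lit 7947199784) (nat_lit 8799137528) (nat_lit 9940174479) (nat_lit 1) .nil), (nat_lit 18), (nat_lit 13), (nat_lit 10), (nat_lit 1), (12, 8, 0), [2759035141], 7⟩,
  ⟨⟨5, 12, -9, 12, -5, -6, 0, 0, -13⟩, (.cons (nat_lit 7947199784) (nat_lit 8799137528) (nat_lit 9940174479) (nat_lit 1) .nil), (nat_lit 18), (nat_lit 13), (nat_lit 10), (nat_lit 1), (12, 8, 0), [2759035141], 7⟩,
  ⟨⟨5, 12, -9, -12, 5, 6, 0, 0, -13⟩, (.cons (nat_lit 1214124060) (nat_lit 6442067673) (nat_lit 2590592113) (nat_lit 1) .nil), (nat_lit 1), (nat_lit 12), (nat_lit 1), (nat_lit 1), (12, 5, 0), [3574571199], 10⟩,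
  ⟨⟨5, 12, -9, 12, -5, -6, 0, 0, -13⟩, (.cons (nat_lit 7947199784) (nat_lit 8799137528) (nat_lit 9940174479) (nat_lit 1) .nil), (nat_lit 18), (nat_lit 13), (nat_lit 10), (nat_lit 1), (12, 8, 0), [2759035141], 7⟩,
  ⟨⟨5, 12, -9, 12, -5, -6, 0, 0, -13⟩, (.cons (nat_lit 7947199784) (nat_lit 8799137528) (nat_lit 9940174479) (nat_lit 1) .nil), (nat_lit 18), (nat_lit 13), (nat_lit 10), (nat_lit 1), (12, 8, 0), [2759035141], 7⟩,
  ⟨⟨-5, -12, -4, 12, -5, -6, 0, 0, -13⟩, (.cons (nat_lit 8885162716) (nat_lit 448622403) (nat_lit 5224249956) (nat_lit 1) .nil), (nat_lit 1), (nat_lit 1), (nat_lit 8), (nat_lit 1), (1, 8, 0), [10596366908], 15⟩,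
  ⟨⟨5, 12, -9, 12, -5, -6, 0, 0, -13⟩, (.cons (nat_lit 7947199784) (nat_lit 8799137528) (nat_lit 9940174479) (nat_lit 1) .nil), (nat_lit 18), (nat_lit 13), (nat_lit 10), (nat_lit 1), (12, 8, 0), [2759035141], 7⟩,
  ⟨⟨5, 12, -9, -12, 5, 6, 0, 0, -13⟩, (.cons (nat_lit 1214124060) (nat_lit 6442067673) (nat_lit 2590592113) (nat_lit 1) .nil), (nat_lit 1), (nat_lit 12), (nat_lit 1), (nat_lit 1), (12, 5, 0), [3574571199], 10⟩,
  ⟨⟨5, 12, -9, 12, -5, -6, 0, 0, -13⟩, (.cons (nat_lit 7947199784) (nat_lit 8799137528) (nat_lit 9940174479) (nat_lit 1) .nil), (nat_lit 18), (nat_lit 13), (nat_lit 10), (nat_lit 1), (12, 8, 0), [2759035141], 7⟩]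

/-- Moves. -/
noncomputable def t0_5 : List Mv := [
  ⟨⟨9, 8, -13, 10, -7, 0, 2, -4, -13⟩, (.cons (nat_lit 10162748757) (nat_lit 1197892596) (nat_lit 7796750030) (nat_lit 1) .nil), (nat_lit 7), (nat_lit 14), (nat_lit 2), (nat_lit 1), (2, 8, 12), [7737129337], 12⟩,
  ⟨⟨9, 8, -13, -10, 7, 0, 2, -4, -13⟩, (.cons (nat_lit 2002476439) (nat_lit 4052946179) (nat_lit 2699404314) (nat_lit 1) .nil), (nat_lit 4), (nat_lit 0), (nat_lit 13), (nat_lit 1), (2, 5, 12), [7274649331], 5⟩,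
  ⟨⟨9, 8, -13, -10, 7, 0, 2, -4, -13⟩, (.cons (nat_lit 2002476439) (nat_lit 4052946179) (nat_lit 2699404314) (nat_lit 1) .nil), (nat_lit 4), (nat_lit 0), (nat_lit 13), (nat_lit 1), (2, 5, 12), [7274649331], 5⟩,
  ⟨⟨9, 8, -13, -10, 7, 0, 2, -4, -13⟩, (.cons (nat_lit 2002476439) (nat_lit 4052946179) (nat_lit 2699404314) (nat_lit 1) .nil), (nat_lit 4), (nat_lit 0), (nat_lit 13), (nat_lit 1), (2, 5, 12), [7274649331], 5⟩,
  ⟨⟨-7, -12, 0, 10, -7, 0, 2, -4, -13⟩, (.cons (nat_lit 6616017905) (nat_lit 7703770707) (nat_lit 1240522861) (nat_lit 1) .nil), (nat_lit 1), (nat_lit 3), (nat_lit 1), (nat_lit 0), (10, 8, 12), [3167307025], 1⟩,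
  ⟨⟨9, 8, -13, 10, -7, 0, 2, -4, -13⟩, (.cons (nat_lit 10162748757) (nat_lit 1197892596) (nat_lit 7796750030) (nat_lit 1) .nil), (nat_lit 7), (nat_lit 14), (nat_lit 2), (nat_lit 1), (2, 8, 12), [7737129337], 12⟩,
  ⟨⟨9, 8, -13, 10, -7, 0, 2, -4, -13⟩, (.cons (nat_lit 10162748757) (nat_lit 1197892596) (nat_lit 7796750030) (nat_lit 1) .nil), (nat_lit 7), (nat_lit 14), (nat_lit 2), (nat_lit 1), (2, 8, 12), [7737129337], 12⟩,
  ⟨⟨9, 8, -13, -10, 7, 0, 2, -4, -13⟩, (.cons (nat_lit 2002476439) (nat_lit 4052946179) (nat_lit 2699404314) (nat_lit 1) .nil), (nat_lit 4), (nat_lit 0), (nat_lit 13), (nat_lit 1), (2, 5, 12), [7274649331], 5⟩,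
  ⟨⟨-7, -12, 0, 10, -7, 0, 2, -4, -13⟩, (.cons (nat_lit 6616017905) (nat_lit 7703770707) (nat_lit 1240522861) (nat_lit 1) .nil), (nat_lit 1), (nat_lit 3), (nat_lit 1), (nat_lit 0), (10, 8, 12), [3167307025], 1⟩,
  ⟨⟨-7, -12, 0, -10, 7, 0, 2, -4, -13⟩, (.cons (nat_lit 6709114246) (nat_lit 5606998323) (nat_lit 5583622601) (nat_lit 1) .nil), (nat_lit 18), (nat_lit 9), (nat_lit 10), (nat_lit 1), (10, 5, 12), [457409756], 14⟩,
  ⟨⟨9, 8, -13, -10, 7, 0, 2, -4, -13⟩, (.cons (nat_lit 2002476439) (nat_lit 4052946179) (nat_lit 2699404314) (nat_lit 1) .nil), (nat_lit 4), (nat_lit 0), (nat_lit 13), (nat_lit 1), (2, 5, 12), [7274649331], 5⟩,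
  ⟨⟨9, 8, -13, -10, 7, 0, 2, -4, -13⟩, (.cons (nat_lit 2002476439) (nat_lit 4052946179) (nat_lit 2699404314) (nat_lit 1) .nil), (nat_lit 4), (nat_lit 0), (nat_lit 13), (nat_lit 1), (2, 5, 12), [7274649331], 5⟩,
  ⟨⟨9, 8, -13, -10, 7, 0, 2, -4, -13⟩, (.cons (nat_lit 2002476439) (nat_lit 4052946179) (nat_lit 2699404314) (nat_lit 1) .nil), (nat_lit 4), (nat_lit 0), (nat_lit 13), (nat_lit 1), (2, 5, 12), [7274649331], 5⟩]

/-- Moves. -/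
noncomputable def t4_2 : List Mv := [
  mz,
  ⟨⟨15, -4, -23, -10, 9, -10, 12, 12, -7⟩, (.cons (nat_lit 7243535659) (nat_lit 4346900083) (nat_lit 8254178762) (nat_lit 1) .nil), (nat_lit 12), (nat_lit 0), (nat_lit 0), (nat_lit 0), (18, 7, 3), [1867645815], 0⟩,
  ⟨⟨9, 4, -25, -16, -5, -2, -2, 16, -5⟩, (.cons (nat_lit 7130233137) (nat_lit 10243792492) (nat_lit 4936003798) (nat_lit 1) .nil), (nat_lit 11), (nat_lit 0), (nat_lit 0), (nat_lit 0), (5, 8, 1), [6489132294], 0⟩,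
  mz,
  mz,
  ⟨⟨11, 12, 9, 16, -5, -18, 2, 16, -7⟩, (.cons (nat_lit 5641235220) (nat_lit 8060851916) (nat_lit 8788558135) (nat_lit 1) .nil), (nat_lit 16), (nat_lit 0), (nat_lit 0), (nat_lit 0), (1, 17, 14), [5573157442], 0⟩,
  ⟨⟨11, -12, 9, 16, 5, -18, 2, -16, -7⟩, (.cons (nat_lit 4863281079) (nat_lit 6549902689) (nat_lit 9649705131) (nat_lit 1) .nil), (nat_lit 16), (nat_lit 0), (nat_lit 0), (nat_lit 0), (14, 10, 6), [3119172109], 0⟩,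
  mz,
  ⟨⟨17, -12, -9, 4, 5, 18, 14, 8, -13⟩, (.cons (nat_lit 4270227096) (nat_lit 3985953619) (nat_lit 5206729652) (nat_lit 1) .nil), (nat_lit 5), (nat_lit 0), (nat_lit 0), (nat_lit 0), (9, 1, 13), [9750959741], 0⟩,
  mz,
  ⟨⟨9, -4, -25, 16, -5, 2, -2, -16, -5⟩, (.cons (nat_lit 2762080650) (nat_lit 6270954749) (nat_lit 7816027375) (nat_lit 1) .nil), (nat_lit 15), (nat_lit 0), (nat_lit 0), (nat_lit 0), (3, 18, 12), [6818024653], 0⟩,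
  ⟨⟨17, -12, -8, 4, 5, -22, 14, 8, -1⟩, (.cons (nat_lit 5630767080) (nat_lit 9490866733) (nat_lit 6124535695) (nat_lit 1) .nil), (nat_lit 5), (nat_lit 0), (nat_lit 0), (nat_lit 0), (10, 18, 6), [7026289755], 0⟩,
  ⟨⟨-3, 16, -13, 10, -9, -20, 12, 12, -5⟩, (.cons (nat_lit 1399574400) (nat_lit 5895405017) (nat_lit 1133388236) (nat_lit 1) .nil), (nat_lit 1), (nat_lit 0), (nat_lit 0), (nat_lit 0), (13, 1, 5), [10552577734], 0⟩,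
  ⟨⟨-3, -16, -13, -10, -9, 20, 12, -12, -5⟩, (.cons (nat_lit 10131558224) (nat_lit 4645953319) (nat_lit 9590748221) (nat_lit 1) .nil), (nat_lit 17), (nat_lit 0), (nat_lit 0), (nat_lit 0), (5, 4, 18), [4779548550], 0⟩,
  mz,
  ⟨⟨-3, -20, 7, -4, 5, 22, 14, -8, -1⟩, (.cons (nat_lit 3798056077) (nat_lit 3303873958) (nat_lit 2491649316) (nat_lit 1) .nil), (nat_lit 10), (nat_lit 0), (nat_lit 0), (nat_lit 0), (5, 13, 2), [2672685033], 0⟩,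
  ⟨⟨17, 12, -9, -4, 5, -18, 14, -8, -13⟩, (.cons (nat_lit 5814828385) (nat_lit 8537375200) (nat_lit 10390767710) (nat_lit 1) .nil), (nat_lit 6), (nat_lit 0), (nat_lit 0), (nat_lit 0), (15, 11, 9), [7825044075], 0⟩,
  ⟨⟨15, 4, -23, 10, 9, 10, 12, -12, -7⟩, (.cons (nat_lit 5845593135) (nat_lit 4536039694) (nat_lit 453933444) (nat_lit 1) .nil), (nat_lit 13), (nat_lit 0), (nat_lit 0), (nat_lit 0), (1, 7, 16), [6593107375], 0⟩]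

/-- Moves. -/
noncomputable def t4_4 : List Mv := [
  mz,
  ⟨⟨15, -4, -23, 10, -9, 10, 12, 12, -7⟩, (.cons (nat_lit 3589280490) (nat_lit 407511531) (nat_lit 355461675) (nat_lit 1) .nil), (nat_lit 13), (nat_lit 0), (nat_lit 0), (nat_lit 0), (18, 12, 3), [1803593719], 0⟩,
  ⟨⟨9, 4, -25, 16, 5, 2, -2, 16, -5⟩, (.cons (nat_lit 10106850977) (nat_lit 4448962316) (nat_lit 10191686075) (nat_lit 1) .nil), (nat_lit 15), (nat_lit 0), (nat_lit 0), (nat_lit 0), (5, 11, 1), [7803705576], 0⟩,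
  mz,
  mz,
  ⟨⟨11, 12, 9, -16, 5, 18, 2, 16, -7⟩, (.cons (nat_lit 2200239244) (nat_lit 9197653832) (nat_lit 3369431230) (nat_lit 1) .nil), (nat_lit 8), (nat_lit 0), (nat_lit 0), (nat_lit 0), (1, 2, 14), [1728439931], 0⟩,
  ⟨⟨11, -12, 9, 16, 5, -18, 2, -16, -7⟩, (.cons (nat_lit 4863281079) (nat_lit 6549902689) (nat_lit 9649705131) (nat_lit 1) .nil), (nat_lit 16), (nat_lit 0), (nat_lit 0), (nat_lit 0), (14, 10, 6), [3119172109], 0⟩,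
  mz,
  ⟨⟨-3, 20, -4, 4, 5, 18, 14, 8, -13⟩, (.cons (nat_lit 7154881067) (nat_lit 7388878855) (nat_lit 1820685046) (nat_lit 1) .nil), (nat_lit 2), (nat_lit 0), (nat_lit 0), (nat_lit 0), (4, 1, 13), [10377428251], 0⟩,
  mz,
  ⟨⟨-11, -12, 20, 16, -5, 2, -2, -16, -5⟩, (.cons (nat_lit 8118852784) (nat_lit 8831798285) (nat_lit 10193032799) (nat_lit 1) .nil), (nat_lit 8), (nat_lit 0), (nat_lit 0), (nat_lit 0), (9, 18, 12), [8847095877], 0⟩,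
  ⟨⟨-3, 20, 7, 4, 5, -22, 14, 8, -1⟩, (.cons (nat_lit 8913447076) (nat_lit 8320503076) (nat_lit 4472960975) (nat_lit 1) .nil), (nat_lit 2), (nat_lit 0), (nat_lit 0), (nat_lit 0), (15, 18, 6), [6285815970], 0⟩,
  ⟨⟨15, -4, 8, 10, -9, -20, 12, 12, -5⟩, (.cons (nat_lit 3891264188) (nat_lit 7370045903) (nat_lit 4397062342) (nat_lit 1) .nil), (nat_lit 13), (nat_lit 0), (nat_lit 0), (nat_lit 0), (11, 1, 5), [9618859619], 0⟩,
  ⟨⟨-3, -16, -13, 10, 9, -20, 12, -12, -5⟩, (.cons (nat_lit 8078086506) (nat_lit 4411333360) (nat_lit 8055921147) (nat_lit 1) .nil), (nat_lit 1), (nat_lit 0), (nat_lit 0), (nat_lit 0), (5, 15, 18), [4334794826], 0⟩,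
  mz,
  ⟨⟨17, 12, -8, -4, 5, 22, 14, -8, -1⟩, (.cons (nat_lit 7151868990) (nat_lit 4672041542) (nat_lit 5129776992) (nat_lit 1) .nil), (nat_lit 6), (nat_lit 0), (nat_lit 0), (nat_lit 0), (16, 13, 2), [7171917294], 0⟩,
  ⟨⟨17, 12, -9, -4, 5, -18, 14, -8, -13⟩, (.cons (nat_lit 5814828385) (nat_lit 8537375200) (nat_lit 10390767710) (nat_lit 1) .nil), (nat_lit 6), (nat_lit 0), (nat_lit 0), (nat_lit 0), (15, 11, 9), [7825044075], 0⟩,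
  ⟨⟨15, 4, -23, -10, -9, -10, 12, -12, -7⟩, (.cons (nat_lit 6880323076) (nat_lit 9981245322) (nat_lit 7605814741) (nat_lit 1) .nil), (nat_lit 12), (nat_lit 0), (nat_lit 0), (nat_lit 0), (1, 12, 16), [1489452450], 0⟩]

/-- Moves. -/
noncomputable def t4_5 : List Mv := [
  mz,
  ⟨⟨15, -4, -23, -10, 9, -10, 12, 12, -7⟩, (.cons (nat_lit 7243535659) (nat_lit 4346900083) (nat_lit 8254178762) (nat_lit 1) .nil), (nat_lit 12), (nat_lit 0), (nat_lit 0), (nat_lit 0), (18, 7, 3), [1867645815], 0⟩,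
  ⟨⟨9, 4, -25, -16, -5, -2, -2, 16, -5⟩, (.cons (nat_lit 7130233137) (nat_lit 10243792492) (nat_lit 4936003798) (nat_lit 1) .nil), (nat_lit 11), (nat_lit 0), (nat_lit 0), (nat_lit 0), (5, 8, 1), [6489132294], 0⟩,
  mz,
  mz,
  ⟨⟨-9, 4, -16, 16, -5, -18, 2, 16, -7⟩, (.cons (nat_lit 10192420000) (nat_lit 4343316160) (nat_lit 1993724272) (nat_lit 1) .nil), (nat_lit 11), (nat_lit 0), (nat_lit 0), (nat_lit 0), (13, 17, 14), [3716344282], 0⟩,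
  ⟨⟨-9, -4, -16, -16, -5, 18, 2, -16, -7⟩, (.cons (nat_lit 7672060433) (nat_lit 8437715518) (nat_lit 2989654178) (nat_lit 1) .nil), (nat_lit 15), (nat_lit 0), (nat_lit 0), (nat_lit 0), (11, 9, 6), [8813889841], 0⟩,
  mz,
  ⟨⟨17, -12, -9, -4, -5, -18, 14, 8, -13⟩, (.cons (nat_lit 8191291603) (nat_lit 5633231285) (nat_lit 6026832479) (nat_lit 1) .nil), (nat_lit 6), (nat_lit 0), (nat_lit 0), (nat_lit 0), (9, 18, 13), [1883131882], 0⟩,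
  mz,
  ⟨⟨9, -4, -25, -16, 5, -2, -2, -16, -5⟩, (.cons (nat_lit 32831531) (nat_lit 9276627989) (nat_lit 3095171578) (nat_lit 1) .nil), (nat_lit 11), (nat_lit 0), (nat_lit 0), (nat_lit 0), (3, 1, 12), [7530703560], 0⟩,
  ⟨⟨17, -12, -8, 4, 5, -22, 14, 8, -1⟩, (.cons (nat_lit 5630767080) (nat_lit 9490866733) (nat_lit 6124535695) (nat_lit 1) .nil), (nat_lit 5), (nat_lit 0), (nat_lit 0), (nat_lit 0), (10, 18, 6), [7026289755], 0⟩,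
  ⟨⟨-3, 16, -13, 10, -9, -20, 12, 12, -5⟩, (.cons (nat_lit 1399574400) (nat_lit 5895405017) (nat_lit 1133388236) (nat_lit 1) .nil), (nat_lit 1), (nat_lit 0), (nat_lit 0), (nat_lit 0), (13, 1, 5), [10552577734], 0⟩,
  ⟨⟨-3, -16, -13, 10, 9, -20, 12, -12, -5⟩, (.cons (nat_lit 8078086506) (nat_lit 4411333360) (nat_lit 8055921147) (nat_lit 1) .nil), (nat_lit 1), (nat_lit 0), (nat_lit 0), (nat_lit 0), (5, 15, 18), [4334794826], 0⟩,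
  mz,
  ⟨⟨17, 12, -8, -4, 5, 22, 14, -8, -1⟩, (.cons (nat_lit 7151868990) (nat_lit 4672041542) (nat_lit 5129776992) (nat_lit 1) .nil), (nat_lit 6), (nat_lit 0), (nat_lit 0), (nat_lit 0), (16, 13, 2), [7171917294], 0⟩,
  ⟨⟨17, 12, -9, -4, 5, -18, 14, -8, -13⟩, (.cons (nat_lit 5814828385) (nat_lit 8537375200) (nat_lit 10390767710) (nat_lit 1) .nil), (nat_lit 6), (nat_lit 0), (nat_lit 0), (nat_lit 0), (15, 11, 9), [7825044075], 0⟩,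
  ⟨⟨15, 4, -23, -10, -9, -10, 12, -12, -7⟩, (.cons (nat_lit 6880323076) (nat_lit 9981245322) (nat_lit 7605814741) (nat_lit 1) .nil), (nat_lit 12), (nat_lit 0), (nat_lit 0), (nat_lit 0), (1, 12, 16), [1489452450], 0⟩]

/-- All the moves. -/
noncomputable def tabs : List (List (List Mv)) := [[[], [], t0_2, [], t0_4, t0_5], [], [], [], [[], [], t4_2, [], t4_4, t4_5]]

/-- Subtrie. -/
noncomputable def T2 : Tr := (.ev (nat_lit 20) (nat_lit 4132) (.nd (nat_lit 32) (.br (nat_lit 5) (.br (nat_lit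
 2) (.br (nat_lit 1) (.ch (nat_lit 0) (.ev (nat_lit 48) (nat_lit 2048) (.nd (nat_lit 64) (.br (nat_lit 6) (.br
 (nat_lit 4) (.br (nat_lit 2) (.ch (nat_lit 0) (.ev (nat_lit 80) (nat_lit 256) (.nd (nat_lit 624) (.br (nat_lit
 6) (.br (nat_lit 4) (.br (nat_lit 1) (.ch (nat_lit 0) (.ev (nat_lit 640) (nat_lit 99330) (.nd (nat_lit 2624)
 (.br (nat_lit 6) (.ch (nat_lit 0) (.ev (nat_lit 2640) (nat_lit 131072) (.ev (nat_lit 3200) (nat_lit 8256)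
 .dd))) (.br (nat_lit 7) (.ch (nat_lit 6) (.ev (nat_lit 3700) (nat_lit 8192) (.ev (nat_lit 3844) (nat_lit 64)
 (.ev (nat_lit 3853) (nat_lit 131072) .dd)))) (.ch (nat_lit 7) (.ev (nat_lit 2640) (nat_lit 131072) (.ev
 (nat_lit 3488) (nat_lit 8256) .dd)))))))) (.ch (nat_lit 1) (.ev (nat_lit 640) (nat_lit 204866) (.nd (nat_lit
 2336) (.br (nat_lit 9) (.br (nat_lit 1) (.ch (nat_lit 0) (.ev (nat_lit 3876) (nat_lit 1024) (.ev (nat_lit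
 3885) (nat_lit 32768) .dd))) (.br (nat_lit 8) (.ch (nat_lit 1) (.ev (nat_lit 5364) (nat_lit 1024) (.ev
 (nat_lit 5373) (nat_lit 32768) .dd))) (.ch (nat_lit 8) (.ev (nat_lit 2788) (nat_lit 1024) (.ev (nat_lit 2797)
 (nat_lit 32768) .dd))))) (.br (nat_lit 11) (.ch (nat_lit 9) (.ev (nat_lit 2788) (nat_lit 32768) (.ev (nat_lit
 2797) (nat_lit 1024) .dd))) (.br (nat_lit 12) (.ch (nat_lit 11) (.ev (nat_lit 2788) (nat_lit 1024) (.ev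
 (nat_lit 2797) (nat_lit 32768) .dd))) (.ch (nat_lit 12) (.ev (nat_lit 2352) (nat_lit 32768) (.ev (nat_lit
 2365) (nat_lit 1024) .dd)))))))))) (.br (nat_lit 5) (.ch (nat_lit 4) (.ev (nat_lit 640) (nat_lit 66) (.nd
 (nat_lit 1408) (.br (nat_lit 6) (.br (nat_lit 3) (.br (nat_lit 2) (.ch (nat_lit 1) (.ev (nat_lit 1424)
 (nat_lit 106496) (.fin (nat_lit 576437112715821531)))) (.ch (nat_lit 2) (.ev (nat_lit 1424) (nat_lit 172032)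
 (.ev (nat_lit 3476) (nat_lit 1024) (.ev (nat_lit 3485) (nat_lit 65536) .dd))))) (.br (nat_lit 5) (.ch (nat_lit
 3) (.ev (nat_lit 1424) (nat_lit 1024) (.ev (nat_lit 1780) (nat_lit 32768) (.ev (nat_lit 2004) (nat_lit 8192)
 (.ev (nat_lit 2260) (nat_lit 131072) (.ev (nat_lit 2269) (nat_lit 65536) .dd)))))) (.ch (nat_lit 5) (.ev
 (nat_lit 1424) (nat_lit 73728) (.ev (nat_lit 1684) (nat_lit 1024) (.ev (nat_lit 4116) (nat_lit 32768) (.ev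
 (nat_lit 4125) (nat_lit 131072) .dd))))))) (.br (nat_lit 9) (.br (nat_lit 7) (.ch (nat_lit 6) (.ev (nat_lit
 1424) (nat_lit 99328) (.ev (nat_lit 2004) (nat_lit 8192) (.ev (nat_lit 2013) (nat_lit 131072) .dd)))) (.ch
 (nat_lit 7) (.ev (nat_lit 1424) (nat_lit 164864) (.ev (nat_lit 3728) (nat_lit 73728) .dd)))) (.br (nat_lit 11)
 (.ch (nat_lit 9) (.ev (nat_lit 1424) (nat_lit 196608) (.ev (nat_lit 1700) (nat_lit 1024) (.ev (nat_lit 2004)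
 (nat_lit 8192) (.ev (nat_lit 2013) (nat_lit 32768) .dd))))) (.br (nat_lit 12) (.ch (nat_lit 11) (.ev (nat_lit
 1424) (nat_lit 204800) (.ev (nat_lit 1684) (nat_lit 1024) (.ev (nat_lit 1693) (nat_lit 32768) .dd)))) (.ch
 (nat_lit 12) (.ev (nat_lit 1424) (nat_lit 196608) (.ev (nat_lit 2004) (nat_lit 8192) (.ev (nat_lit 3168)
 (nat_lit 1024) (.ev (nat_lit 3181) (nat_lit 32768) .dd)))))))))))) (.ch (nat_lit 5) (.ev (nat_lit 640)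
 (nat_lit 1024) (.ev (nat_lit 980) (nat_lit 8256) (.nd (nat_lit 1552) (.br (nat_lit 4) (.br (nat_lit 1) (.ch
 (nat_lit 0) (.ev (nat_lit 1876) (nat_lit 32768) (.ev (nat_lit 2004) (nat_lit 2) (.ev (nat_lit 3764) (nat_lit
 65536) (.ev (nat_lit 3773) (nat_lit 131072) .dd))))) (.br (nat_lit 2) (.ch (nat_lit 1) (.ev (nat_lit 1568)
 (nat_lit 131072) (.ev (nat_lit 5140) (nat_lit 65536) (.fin (nat_lit 576459103028068901))))) (.ch (nat_lit 2)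
 (.ev (nat_lit 1568) (nat_lit 131074) (.ev (nat_lit 6704) (nat_lit 65536) (.ev (nat_lit 6717) (nat_lit 32768)
 .dd)))))) (.br (nat_lit 11) (.br (nat_lit 7) (.ch (nat_lit 4) (.ev (nat_lit 1568) (nat_lit 65536) (.ev
 (nat_lit 1876) (nat_lit 32768) (.ev (nat_lit 2036) (nat_lit 131072) (.ev (nat_lit 2045) (nat_lit 2) .dd)))))
 (.ch (nat_lit 7) (.ev (nat_lit 1568) (nat_lit 32768) (.ev (nat_lit 2004) (nat_lit 2) (.ev (nat_lit 3220)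
 (nat_lit 65536) (.ev (nat_lit 3229) (nat_lit 131072) .dd)))))) (.br (nat_lit 12) (.ch (nat_lit 11) (.ev
 (nat_lit 1568) (nat_lit 32768) (.ev (nat_lit 1700) (nat_lit 65536) (.ev (nat_lit 2004) (nat_lit 2) (.ev
 (nat_lit 2013) (nat_lit 131072) .dd))))) (.ch (nat_lit 12) (.ev (nat_lit 1568) (nat_lit 65536) (.ev (nat_lit
 2036) (nat_lit 131072) (.ev (nat_lit 2180) (nat_lit 32768) (.ev (nat_lit 2189) (nat_lit 2) .dd))))))))))))))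
 (.br (nat_lit 8) (.br (nat_lit 7) (.ch (nat_lit 6) (.ev (nat_lit 640) (nat_lit 1088) (.ev (nat_lit 820)
 (nat_lit 32768) (.ev (nat_lit 996) (nat_lit 8192) (.nd (nat_lit 2336) (.br (nat_lit 4) (.br (nat_lit 2) (.br
 (nat_lit 1) (.ch (nat_lit 0) (.ev (nat_lit 2352) (nat_lit 196608) (.ev (nat_lit 2365) (nat_lit 2) .dd))) (.ch
 (nat_lit 1) (.ev (nat_lit 2352) (nat_lit 2) (.ev (nat_lit 2900) (nat_lit 65536) (.ev (nat_lit 2909) (nat_lit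
 131072) .dd))))) (.br (nat_lit 3) (.ch (nat_lit 2) (.ev (nat_lit 2352) (nat_lit 131072) (.ev (nat_lit 2676)
 (nat_lit 65536) (.ev (nat_lit 2685) (nat_lit 2) .dd)))) (.ch (nat_lit 3) (.ev (nat_lit 2352) (nat_lit 65536)
 (.ev (nat_lit 3652) (nat_lit 2) (.ev (nat_lit 3661) (nat_lit 131072) .dd)))))) (.br (nat_lit 8) (.br (nat_lit
 5) (.ch (nat_lit 4) (.ev (nat_lit 2352) (nat_lit 2) (.ev (nat_lit 2740) (nat_lit 131072) (.ev (nat_lit 2749)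
 (nat_lit 65536) .dd)))) (.ch (nat_lit 5) (.ev (nat_lit 2352) (nat_lit 196608) (.ev (nat_lit 2365) (nat_lit 2)
 .dd)))) (.br (nat_lit 9) (.ch (nat_lit 8) (.ev (nat_lit 2352) (nat_lit 131072) (.ev (nat_lit 3604) (nat_lit 2)
 (.ev (nat_lit 3613) (nat_lit 65536) .dd)))) (.br (nat_lit 12) (.ch (nat_lit 9) (.ev (nat_lit 2352) (nat_lit
 131072) (.ev (nat_lit 2420) (nat_lit 2) (.ev (nat_lit 2429) (nat_lit 65536) .dd)))) (.ch (nat_lit 12) (.ev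
 (nat_lit 2352) (nat_lit 131074) (.ev (nat_lit 2365) (nat_lit 65536) .dd)))))))))))) (.ch (nat_lit 7) (.ev
 (nat_lit 640) (nat_lit 230400) (.ev (nat_lit 1364) (nat_lit 2) (.nd (nat_lit 3984) (.br (nat_lit 9) (.ch
 (nat_lit 0) (.fin (nat_lit 576463501089260067))) (.ch (nat_lit 9) (.ev (nat_lit 4000) (nat_lit 8192) (.ev
 (nat_lit 4013) (nat_lit 64) .dd))))))))) (.br (nat_lit 10) (.ch (nat_lit 8) (.ev (nat_lit 640) (nat_lit
 172032) (.nd (nat_lit 2128) (.br (nat_lit 6) (.br (nat_lit 3) (.br (nat_lit 2) (.ch (nat_lit 1) (.ev (nat_lit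
 2388) (nat_lit 66560) (.ev (nat_lit 3044) (nat_lit 2) (.ev (nat_lit 3053) (nat_lit 64) .dd)))) (.ch (nat_lit
 2) (.ev (nat_lit 2144) (nat_lit 64) (.ev (nat_lit 2788) (nat_lit 2) (.ev (nat_lit 6544) (nat_lit 65536) (.ev
 (nat_lit 6557) (nat_lit 1024) .dd)))))) (.br (nat_lit 4) (.ch (nat_lit 3) (.ev (nat_lit 2144) (nat_lit 65602)
 (.ev (nat_lit 2157) (nat_lit 1024) .dd))) (.ch (nat_lit 4) (.ev (nat_lit 2144) (nat_lit 1024) (.ev (nat_lit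
 3764) (nat_lit 64) (.ev (nat_lit 6692) (nat_lit 65536) (.ev (nat_lit 6701) (nat_lit 2) .dd))))))) (.br
 (nat_lit 8) (.br (nat_lit 7) (.ch (nat_lit 6) (.ev (nat_lit 2144) (nat_lit 1088) (.ev (nat_lit 2420) (nat_lit
 65536) (.ev (nat_lit 2429) (nat_lit 2) .dd)))) (.ch (nat_lit 7) (.ev (nat_lit 2144) (nat_lit 1088) (.ev
 (nat_lit 2388) (nat_lit 65536) (.ev (nat_lit 2397) (nat_lit 2) .dd))))) (.br (nat_lit 9) (.ch (nat_lit 8) (.ev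
 (nat_lit 2144) (nat_lit 66560) (.ev (nat_lit 2676) (nat_lit 2) (.ev (nat_lit 2685) (nat_lit 64) .dd)))) (.ch
 (nat_lit 9) (.ev (nat_lit 2144) (nat_lit 66) (.ev (nat_lit 2372) (nat_lit 65536) (.ev (nat_lit 2381) (nat_lit
 1024) .dd)))))))))) (.br (nat_lit 11) (.ch (nat_lit 10) (.ev (nat_lit 640) (nat_lit 32768) (.ev (nat_lit 836)
 (nat_lit 1024) (.ev (nat_lit 916) (nat_lit 2) (.ev (nat_lit 980) (nat_lit 8192) (.ev (nat_lit 996) (nat_lit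
 64) (.nd (nat_lit 2336) (.br (nat_lit 5) (.br (nat_lit 3) (.br (nat_lit 2) (.ch (nat_lit 0) (.ev (nat_lit
 2352) (nat_lit 65536) (.ev (nat_lit 2365) (nat_lit 131072) .dd))) (.ch (nat_lit 2) (.ev (nat_lit 2352)
 (nat_lit 196608) .dd))) (.br (nat_lit 4) (.ch (nat_lit 3) (.ev (nat_lit 2352) (nat_lit 196608) .dd)) (.ch
 (nat_lit 4) (.ev (nat_lit 2352) (nat_lit 131072) (.ev (nat_lit 2365) (nat_lit 65536) .dd))))) (.br (nat_lit 9)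
 (.br (nat_lit 8) (.ch (nat_lit 5) (.ev (nat_lit 2352) (nat_lit 131072) (.ev (nat_lit 2365) (nat_lit 65536)
 .dd))) (.ch (nat_lit 8) (.ev (nat_lit 2352) (nat_lit 196608) .dd))) (.br (nat_lit 10) (.ch (nat_lit 9) (.ev
 (nat_lit 2352) (nat_lit 65536) (.ev (nat_lit 2365) (nat_lit 131072) .dd))) (.br (nat_lit 11) (.ch (nat_lit 10)
 (.ev (nat_lit 2372) (nat_lit 131072) (.ev (nat_lit 2381) (nat_lit 65536) .dd))) (.ch (nat_lit 11) (.ev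
 (nat_lit 3924) (nat_lit 131072) (.ev (nat_lit 3933) (nat_lit 65536) .dd)))))))))))))) (.ch (nat_lit 11) (.ev
 (nat_lit 640) (nat_lit 139328) (.ev (nat_lit 916) (nat_lit 2) (.nd (nat_lit 2624) (.br (nat_lit 5) (.br
 (nat_lit 2) (.br (nat_lit 1) (.ch (nat_lit 0) (.ev (nat_lit 3540) (nat_lit 65536) (.ev (nat_lit 4052) (nat_lit
 32768) (.ev (nat_lit 4061) (nat_lit 1024) .dd)))) (.ch (nat_lit 1) (.ev (nat_lit 2640) (nat_lit 32768) (.ev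
 (nat_lit 2676) (nat_lit 1024) (.ev (nat_lit 2685) (nat_lit 65536) .dd))))) (.br (nat_lit 3) (.ch (nat_lit 2)
 (.ev (nat_lit 2640) (nat_lit 33792) (.ev (nat_lit 2653) (nat_lit 65536) .dd))) (.ch (nat_lit 3) (.ev (nat_lit
 2640) (nat_lit 99328) .dd)))) (.br (nat_lit 8) (.br (nat_lit 6) (.ch (nat_lit 5) (.ev (nat_lit 3652) (nat_lit
 1024) (.ev (nat_lit 3700) (nat_lit 32768) (.ev (nat_lit 3709) (nat_lit 65536) .dd)))) (.ch (nat_lit 6) (.ev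
 (nat_lit 2640) (nat_lit 65536) (.ev (nat_lit 3764) (nat_lit 32768) (.ev (nat_lit 3773) (nat_lit 1024) .dd)))))
 (.br (nat_lit 12) (.ch (nat_lit 8) (.ev (nat_lit 2640) (nat_lit 33792) (.ev (nat_lit 2653) (nat_lit 65536)
 .dd))) (.ch (nat_lit 12) (.ev (nat_lit 2676) (nat_lit 1024) (.ev (nat_lit 5236) (nat_lit 32768) (.ev (nat_lit
 5245) (nat_lit 65536) .dd)))))))))))))))))) (.ch (nat_lit 2) (.ev (nat_lit 80) (nat_lit 66562) (.nd (nat_lit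
 576) (.br (nat_lit 6) (.br (nat_lit 3) (.br (nat_lit 2) (.ch (nat_lit 1) (.ev (nat_lit 592) (nat_lit 131392)
 (.fin (nat_lit 576464600651219522)))) (.ch (nat_lit 2) (.ev (nat_lit 1236) (nat_lit 8192) (.nd (nat_lit 1552)
 (.br (nat_lit 7) (.br (nat_lit 3) (.br (nat_lit 2) (.ch (nat_lit 1) (.ev (nat_lit 1568) (nat_lit 64) (.nd
 (nat_lit 4592) (.br (nat_lit 7) (.br (nat_lit 6) (.ch (nat_lit 2) (.ev (nat_lit 4608) (nat_lit 256) (.ev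
 (nat_lit 6464) (nat_lit 163840) .dd))) (.ch (nat_lit 6) (.ev (nat_lit 4608) (nat_lit 131072) (.ev (nat_lit
 4644) (nat_lit 256) (.ev (nat_lit 4653) (nat_lit 32768) .dd))))) (.br (nat_lit 8) (.ch (nat_lit 7) (.ev
 (nat_lit 4608) (nat_lit 131072) (.ev (nat_lit 6596) (nat_lit 32768) (.ev (nat_lit 6605) (nat_lit 256) .dd))))
 (.br (nat_lit 12) (.ch (nat_lit 8) (.ev (nat_lit 6596) (nat_lit 32768) (.ev (nat_lit 7124) (nat_lit 131072)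
 (.ev (nat_lit 7133) (nat_lit 256) .dd)))) (.ch (nat_lit 12) (.ev (nat_lit 4608) (nat_lit 131072) (.ev (nat_lit
 5236) (nat_lit 256) (.ev (nat_lit 5245) (nat_lit 32768) .dd)))))))))) (.ch (nat_lit 2) (.ev (nat_lit 1568)
 (nat_lit 64) (.ev (nat_lit 2820) (nat_lit 131072) (.ev (nat_lit 6964) (nat_lit 256) (.ev (nat_lit 6973)
 (nat_lit 32768) .dd)))))) (.br (nat_lit 4) (.ch (nat_lit 3) (.ev (nat_lit 1568) (nat_lit 163840) (.nd (nat_lit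
 4416) (.br (nat_lit 6) (.br (nat_lit 5) (.ch (nat_lit 0) (.ev (nat_lit 4432) (nat_lit 64) (.ev (nat_lit 4445)
 (nat_lit 256) .dd))) (.ch (nat_lit 5) (.ev (nat_lit 5248) (nat_lit 320) .dd))) (.br (nat_lit 7) (.ch (nat_lit
 6) (.ev (nat_lit 6020) (nat_lit 256) (.ev (nat_lit 6029) (nat_lit 64) .dd))) (.br (nat_lit 12) (.ch (nat_lit
 7) (.ev (nat_lit 4432) (nat_lit 64) (.ev (nat_lit 4445) (nat_lit 256) .dd))) (.ch (nat_lit 12) (.ev (nat_lit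
 4432) (nat_lit 256) (.ev (nat_lit 4445) (nat_lit 64) .dd))))))))) (.ch (nat_lit 4) (.ev (nat_lit 1568)
 (nat_lit 131136) (.ev (nat_lit 6644) (nat_lit 32768) (.ev (nat_lit 6653) (nat_lit 256) .dd)))))) (.br (nat_lit
 9) (.br (nat_lit 8) (.ch (nat_lit 7) (.ev (nat_lit 1568) (nat_lit 131392) (.ev (nat_lit 1581) (nat_lit 32768)
 .dd))) (.ch (nat_lit 8) (.ev (nat_lit 1568) (nat_lit 131136) (.ev (nat_lit 6692) (nat_lit 32768) (.ev (nat_lit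
 6701) (nat_lit 256) .dd))))) (.br (nat_lit 10) (.ch (nat_lit 9) (.ev (nat_lit 1568) (nat_lit 33024) (.ev
 (nat_lit 5492) (nat_lit 131072) (.ev (nat_lit 5501) (nat_lit 64) .dd)))) (.br (nat_lit 12) (.ch (nat_lit 10)
 (.ev (nat_lit 1568) (nat_lit 33024) (.ev (nat_lit 2180) (nat_lit 131072) (.ev (nat_lit 2189) (nat_lit 64)
 .dd)))) (.ch (nat_lit 12) (.ev (nat_lit 1568) (nat_lit 64) (.ev (nat_lit 6048) (nat_lit 131072) (.nd (nat_lit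
 7456) (.br (nat_lit 8) (.ch (nat_lit 6) (.fin (nat_lit 576470098259690052))) (.br (nat_lit 10) (.ch (nat_lit
 8) (.ev (nat_lit 7472) (nat_lit 256) (.ev (nat_lit 7485) (nat_lit 32768) .dd))) (.ch (nat_lit 10) (.ev
 (nat_lit 7472) (nat_lit 33024) .dd)))))))))))))))) (.br (nat_lit 5) (.ch (nat_lit 3) (.ev (nat_lit 592)
 (nat_lit 163840) (.nd (nat_lit 1264) (.br (nat_lit 6) (.br (nat_lit 2) (.ch (nat_lit 0) (.ev (nat_lit 1280)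
 (nat_lit 8192) (.ev (nat_lit 1492) (nat_lit 256) (.ev (nat_lit 1501) (nat_lit 64) .dd)))) (.br (nat_lit 5)
 (.ch (nat_lit 2) (.ev (nat_lit 1344) (nat_lit 8192) (.ev (nat_lit 2068) (nat_lit 64) (.ev (nat_lit 2077)
 (nat_lit 256) .dd)))) (.ch (nat_lit 5) (.ev (nat_lit 1280) (nat_lit 8256) (.ev (nat_lit 1293) (nat_lit 256)
 .dd))))) (.br (nat_lit 9) (.br (nat_lit 8) (.ch (nat_lit 6) (.ev (nat_lit 1280) (nat_lit 256) (.ev (nat_lit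
 1604) (nat_lit 64) (.ev (nat_lit 1613) (nat_lit 8192) .dd)))) (.ch (nat_lit 8) (.ev (nat_lit 1280) (nat_lit
 256) (.ev (nat_lit 5936) (nat_lit 8192) (.ev (nat_lit 5949) (nat_lit 64) .dd))))) (.br (nat_lit 11) (.ch
 (nat_lit 9) (.ev (nat_lit 2164) (nat_lit 8192) (.ev (nat_lit 3188) (nat_lit 64) (.ev (nat_lit 3197) (nat_lit
 256) .dd)))) (.ch (nat_lit 11) (.ev (nat_lit 1508) (nat_lit 256) (.ev (nat_lit 2164) (nat_lit 8192) (.ev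
 (nat_lit 2173) (nat_lit 64) .dd)))))))))) (.ch (nat_lit 5) (.ev (nat_lit 592) (nat_lit 163840) (.ev (nat_lit
 1124) (nat_lit 8192) (.nd (nat_lit 1552) (.br (nat_lit 4) (.br (nat_lit 2) (.ch (nat_lit 0) (.ev (nat_lit
 1568) (nat_lit 64) (.ev (nat_lit 1581) (nat_lit 256) .dd))) (.br (nat_lit 3) (.ch (nat_lit 2) (.ev (nat_lit
 6644) (nat_lit 64) (.ev (nat_lit 6653) (nat_lit 256) .dd))) (.ch (nat_lit 3) (.ev (nat_lit 1568) (nat_lit 64)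
 (.ev (nat_lit 1581) (nat_lit 256) .dd))))) (.br (nat_lit 5) (.ch (nat_lit 4) (.nd (nat_lit 4224) (.br (nat_lit
 7) (.br (nat_lit 5) (.ch (nat_lit 2) (.ev (nat_lit 6356) (nat_lit 256) (.ev (nat_lit 6365) (nat_lit 64) .dd)))
 (.ch (nat_lit 5) (.ev (nat_lit 4564) (nat_lit 256) (.ev (nat_lit 4573) (nat_lit 64) .dd)))) (.br (nat_lit 11)
 (.ch (nat_lit 7) (.ev (nat_lit 4240) (nat_lit 64) (.ev (nat_lit 4253) (nat_lit 256) .dd))) (.br (nat_lit 12)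
 (.ch (nat_lit 11) (.ev (nat_lit 4500) (nat_lit 256) (.ev (nat_lit 4509) (nat_lit 64) .dd))) (.ch (nat_lit 12)
 (.ev (nat_lit 6148) (nat_lit 256) (.ev (nat_lit 6157) (nat_lit 64) .dd)))))))) (.br (nat_lit 12) (.ch (nat_lit
 5) (.ev (nat_lit 2036) (nat_lit 64) (.ev (nat_lit 2045) (nat_lit 256) .dd))) (.ch (nat_lit 12) (.ev (nat_lit
 1568) (nat_lit 64) (.ev (nat_lit 1581) (nat_lit 256) .dd)))))))))))) (.br (nat_lit 8) (.br (nat_lit 7) (.ch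
 (nat_lit 6) (.ev (nat_lit 592) (nat_lit 139520) (.nd (nat_lit 2336) (.br (nat_lit 6) (.br (nat_lit 5) (.ch
 (nat_lit 3) (.ev (nat_lit 2352) (nat_lit 64) (.ev (nat_lit 2365) (nat_lit 32768) .dd))) (.ch (nat_lit 5) (.ev
 (nat_lit 3476) (nat_lit 64) (.ev (nat_lit 3485) (nat_lit 32768) .dd)))) (.br (nat_lit 7) (.ch (nat_lit 6) (.ev
 (nat_lit 2352) (nat_lit 64) (.ev (nat_lit 2365) (nat_lit 32768) .dd))) (.br (nat_lit 9) (.ch (nat_lit 7) (.ev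
 (nat_lit 2352) (nat_lit 32768) (.ev (nat_lit 2365) (nat_lit 64) .dd))) (.ch (nat_lit 9) (.ev (nat_lit 2740)
 (nat_lit 64) (.ev (nat_lit 2749) (nat_lit 32768) .dd))))))))) (.ch (nat_lit 7) (.ev (nat_lit 1124) (nat_lit
 8192) (.nd (nat_lit 1744) (.br (nat_lit 7) (.br (nat_lit 4) (.br (nat_lit 3) (.ch (nat_lit 1) (.ev (nat_lit
 1760) (nat_lit 32832) (.ev (nat_lit 5140) (nat_lit 256) (.ev (nat_lit 5149) (nat_lit 131072) .dd)))) (.ch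
 (nat_lit 3) (.ev (nat_lit 1760) (nat_lit 131072) (.ev (nat_lit 1780) (nat_lit 32768) (.ev (nat_lit 2420)
 (nat_lit 256) (.ev (nat_lit 2429) (nat_lit 64) .dd)))))) (.br (nat_lit 6) (.ch (nat_lit 4) (.ev (nat_lit 1760)
 (nat_lit 164096) (.ev (nat_lit 1773) (nat_lit 64) .dd))) (.ch (nat_lit 6) (.ev (nat_lit 1760) (nat_lit 320)
 (.ev (nat_lit 3908) (nat_lit 32768) (.ev (nat_lit 3917) (nat_lit 131072) .dd)))))) (.br (nat_lit 10) (.br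
 (nat_lit 9) (.ch (nat_lit 7) (.ev (nat_lit 1760) (nat_lit 164096) (.ev (nat_lit 1773) (nat_lit 64) .dd))) (.ch
 (nat_lit 9) (.ev (nat_lit 1760) (nat_lit 64) (.ev (nat_lit 3012) (nat_lit 131072) (.ev (nat_lit 3604) (nat_lit
 256) (.ev (nat_lit 3613) (nat_lit 32768) .dd)))))) (.br (nat_lit 11) (.ch (nat_lit 10) (.ev (nat_lit 1760)
 (nat_lit 131072) (.nd (nat_lit 4224) (.br (nat_lit 6) (.br (nat_lit 3) (.br (nat_lit 2) (.ch (nat_lit 0) (.ev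
 (nat_lit 4240) (nat_lit 320) (.ev (nat_lit 4253) (nat_lit 32768) .dd))) (.ch (nat_lit 2) (.ev (nat_lit 4240)
 (nat_lit 32832) (.ev (nat_lit 4253) (nat_lit 256) .dd)))) (.br (nat_lit 4) (.ch (nat_lit 3) (.ev (nat_lit
 4240) (nat_lit 64) (.ev (nat_lit 4656) (nat_lit 32768) (.ev (nat_lit 4669) (nat_lit 256) .dd)))) (.ch (nat_lit
 4) (.ev (nat_lit 4240) (nat_lit 320) (.ev (nat_lit 4253) (nat_lit 32768) .dd))))) (.br (nat_lit 9) (.br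
 (nat_lit 8) (.ch (nat_lit 6) (.ev (nat_lit 4240) (nat_lit 320) (.ev (nat_lit 4253) (nat_lit 32768) .dd))) (.ch
 (nat_lit 8) (.ev (nat_lit 4240) (nat_lit 64) (.ev (nat_lit 6740) (nat_lit 32768) (.ev (nat_lit 6749) (nat_lit
 256) .dd))))) (.br (nat_lit 11) (.ch (nat_lit 9) (.ev (nat_lit 4240) (nat_lit 320) (.ev (nat_lit 4253)
 (nat_lit 32768) .dd))) (.ch (nat_lit 11) (.ev (nat_lit 4240) (nat_lit 33024) (.ev (nat_lit 4253) (nat_lit 64)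
 .dd))))))))) (.br (nat_lit 12) (.ch (nat_lit 11) (.ev (nat_lit 1760) (nat_lit 320) (.ev (nat_lit 6644)
 (nat_lit 32768) (.ev (nat_lit 6653) (nat_lit 131072) .dd)))) (.ch (nat_lit 12) (.ev (nat_lit 1760) (nat_lit
 131328) (.ev (nat_lit 5716) (nat_lit 32768) (.ev (nat_lit 5725) (nat_lit 64) .dd)))))))))))) (.br (nat_lit 10)
 (.ch (nat_lit 8) (.ev (nat_lit 592) (nat_lit 131072) (.ev (nat_lit 1332) (nat_lit 8192) (.nd (nat_lit 1840)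
 (.br (nat_lit 8) (.br (nat_lit 4) (.br (nat_lit 1) (.ch (nat_lit 0) (.ev (nat_lit 1856) (nat_lit 64) (.ev
 (nat_lit 2788) (nat_lit 32768) (.ev (nat_lit 2797) (nat_lit 256) .dd)))) (.ch (nat_lit 1) (.ev (nat_lit 1856)
 (nat_lit 320) (.ev (nat_lit 1869) (nat_lit 32768) .dd)))) (.br (nat_lit 5) (.ch (nat_lit 4) (.ev (nat_lit
 1856) (nat_lit 32768) (.ev (nat_lit 3632) (nat_lit 320) .dd))) (.ch (nat_lit 5) (.ev (nat_lit 1856) (nat_lit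
 256) (.ev (nat_lit 6208) (nat_lit 32768) (.ev (nat_lit 6221) (nat_lit 64) .dd)))))) (.br (nat_lit 10) (.br
 (nat_lit 9) (.ch (nat_lit 8) (.ev (nat_lit 1856) (nat_lit 64) (.ev (nat_lit 2948) (nat_lit 32768) (.ev
 (nat_lit 2957) (nat_lit 256) .dd)))) (.ch (nat_lit 9) (.ev (nat_lit 1856) (nat_lit 256) (.ev (nat_lit 2036)
 (nat_lit 32768) (.ev (nat_lit 2045) (nat_lit 64) .dd))))) (.br (nat_lit 11) (.ch (nat_lit 10) (.ev (nat_lit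
 1856) (nat_lit 33088) .dd)) (.br (nat_lit 12) (.ch (nat_lit 11) (.ev (nat_lit 1856) (nat_lit 320) (.ev
 (nat_lit 1869) (nat_lit 32768) .dd))) (.ch (nat_lit 12) (.ev (nat_lit 1856) (nat_lit 32768) (.ev (nat_lit
 2196) (nat_lit 256) (.ev (nat_lit 2205) (nat_lit 64) .dd)))))))))))) (.br (nat_lit 12) (.ch (nat_lit 10) (.ev
 (nat_lit 592) (nat_lit 172352) .dd)) (.ch (nat_lit 12) (.ev (nat_lit 592) (nat_lit 8256) (.nd (nat_lit 1840)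
 (.br (nat_lit 6) (.br (nat_lit 4) (.ch (nat_lit 2) (.ev (nat_lit 1856) (nat_lit 32768) (.ev (nat_lit 2388)
 (nat_lit 131072) (.ev (nat_lit 2397) (nat_lit 256) .dd)))) (.br (nat_lit 5) (.ch (nat_lit 4) (.ev (nat_lit
 1856) (nat_lit 131328) (.ev (nat_lit 1869) (nat_lit 32768) .dd))) (.ch (nat_lit 5) (.ev (nat_lit 1856)
 (nat_lit 256) (.ev (nat_lit 2036) (nat_lit 32768) (.ev (nat_lit 2045) (nat_lit 131072) .dd)))))) (.br (nat_lit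
 8) (.ch (nat_lit 6) (.ev (nat_lit 1856) (nat_lit 131072) (.ev (nat_lit 3220) (nat_lit 32768) (.ev (nat_lit
 3229) (nat_lit 256) .dd)))) (.br (nat_lit 11) (.ch (nat_lit 8) (.ev (nat_lit 1856) (nat_lit 256) (.ev (nat_lit
 1876) (nat_lit 32768) (.ev (nat_lit 1885) (nat_lit 131072) .dd)))) (.ch (nat_lit 11) (.ev (nat_lit 1876)
 (nat_lit 32768) (.ev (nat_lit 3940) (nat_lit 256) (.ev (nat_lit 3949) (nat_lit 131072) .dd))))))))))))))))))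
 (.br (nat_lit 5) (.ch (nat_lit 4) (.ev (nat_lit 80) (nat_lit 165120) (.nd (nat_lit 624) (.br (nat_lit 7) (.br
 (nat_lit 4) (.br (nat_lit 3) (.ch (nat_lit 1) (.ev (nat_lit 640) (nat_lit 8256) (.nd (nat_lit 1968) (.br
 (nat_lit 8) (.br (nat_lit 6) (.ch (nat_lit 2) (.ev (nat_lit 4052) (nat_lit 2) (.ev (nat_lit 4061) (nat_lit
 65536) .dd))) (.ch (nat_lit 6) (.ev (nat_lit 6500) (nat_lit 65536) (.ev (nat_lit 6509) (nat_lit 2) .dd))))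
 (.br (nat_lit 9) (.ch (nat_lit 8) (.ev (nat_lit 2820) (nat_lit 2) (.ev (nat_lit 2829) (nat_lit 65536) .dd)))
 (.br (nat_lit 11) (.ch (nat_lit 9) (.ev (nat_lit 2260) (nat_lit 65536) (.ev (nat_lit 2269) (nat_lit 2) .dd)))
 (.ch (nat_lit 11) (.fin (nat_lit 576436013251379763))))))))) (.ch (nat_lit 3) (.ev (nat_lit 640) (nat_lit 64)
 (.nd (nat_lit 2128) (.br (nat_lit 7) (.br (nat_lit 2) (.ch (nat_lit 0) (.ev (nat_lit 2144) (nat_lit 8192) (.ev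
 (nat_lit 2740) (nat_lit 2) (.ev (nat_lit 2749) (nat_lit 65536) .dd)))) (.br (nat_lit 4) (.ch (nat_lit 2) (.ev
 (nat_lit 2144) (nat_lit 8192) (.ev (nat_lit 2740) (nat_lit 2) (.ev (nat_lit 2749) (nat_lit 65536) .dd)))) (.ch
 (nat_lit 4) (.ev (nat_lit 2144) (nat_lit 8192) (.ev (nat_lit 2388) (nat_lit 65536) (.ev (nat_lit 2397)
 (nat_lit 2) .dd)))))) (.br (nat_lit 8) (.ch (nat_lit 7) (.ev (nat_lit 2144) (nat_lit 65536) (.fin (nat_lit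
 576443709840114232)))) (.br (nat_lit 11) (.ch (nat_lit 8) (.ev (nat_lit 2144) (nat_lit 2) (.ev (nat_lit 2388)
 (nat_lit 65536) (.ev (nat_lit 2397) (nat_lit 8192) .dd)))) (.ch (nat_lit 11) (.ev (nat_lit 2144) (nat_lit
 8192) (.ev (nat_lit 2820) (nat_lit 65536) (.ev (nat_lit 2829) (nat_lit 2) .dd))))))))))) (.br (nat_lit 5) (.ch
 (nat_lit 4) (.ev (nat_lit 640) (nat_lit 73728) (.nd (nat_lit 2624) (.br (nat_lit 2) (.br (nat_lit 1) (.ch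
 (nat_lit 0) (.ev (nat_lit 2676) (nat_lit 2) (.ev (nat_lit 2685) (nat_lit 64) .dd))) (.ch (nat_lit 1) (.ev
 (nat_lit 2640) (nat_lit 64) (.ev (nat_lit 2653) (nat_lit 2) .dd)))) (.br (nat_lit 11) (.ch (nat_lit 2) (.ev
 (nat_lit 2640) (nat_lit 64) (.ev (nat_lit 2653) (nat_lit 2) .dd))) (.br (nat_lit 12) (.ch (nat_lit 11) (.ev
 (nat_lit 2640) (nat_lit 2) (.ev (nat_lit 2653) (nat_lit 64) .dd))) (.ch (nat_lit 12) (.ev (nat_lit 2740)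
 (nat_lit 64) (.ev (nat_lit 2749) (nat_lit 2) .dd))))))))) (.ch (nat_lit 5) (.ev (nat_lit 640) (nat_lit 8192)
 (.nd (nat_lit 2128) (.br (nat_lit 5) (.br (nat_lit 1) (.ch (nat_lit 0) (.ev (nat_lit 3012) (nat_lit 65536)
 (.fin (nat_lit 576466799606317639)))) (.br (nat_lit 2) (.ch (nat_lit 1) (.ev (nat_lit 2372) (nat_lit 2) (.ev
 (nat_lit 3076) (nat_lit 65536) (.ev (nat_lit 3085) (nat_lit 64) .dd)))) (.ch (nat_lit 2) (.ev (nat_lit 2144)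
 (nat_lit 65536) (.ev (nat_lit 2372) (nat_lit 2) (.ev (nat_lit 2381) (nat_lit 64) .dd)))))) (.br (nat_lit 6)
 (.ch (nat_lit 5) (.ev (nat_lit 2144) (nat_lit 64) (.ev (nat_lit 2788) (nat_lit 2) (.ev (nat_lit 2797) (nat_lit
 65536) .dd)))) (.br (nat_lit 8) (.ch (nat_lit 6) (.ev (nat_lit 2144) (nat_lit 65536) (.ev (nat_lit 2788)
 (nat_lit 2) (.ev (nat_lit 2797) (nat_lit 64) .dd)))) (.ch (nat_lit 8) (.ev (nat_lit 2144) (nat_lit 66) (.ev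
 (nat_lit 2157) (nat_lit 65536) .dd))))))))))) (.br (nat_lit 9) (.br (nat_lit 8) (.ch (nat_lit 7) (.ev (nat_lit
 640) (nat_lit 2) (.nd (nat_lit 2336) (.br (nat_lit 8) (.br (nat_lit 3) (.ch (nat_lit 0) (.ev (nat_lit 2352)
 (nat_lit 8256) (.ev (nat_lit 2365) (nat_lit 65536) .dd))) (.ch (nat_lit 3) (.ev (nat_lit 2352) (nat_lit 8192)
 (.ev (nat_lit 2948) (nat_lit 64) (.ev (nat_lit 2957) (nat_lit 65536) .dd))))) (.br (nat_lit 9) (.ch (nat_lit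
 8) (.ev (nat_lit 2352) (nat_lit 8192) (.ev (nat_lit 3076) (nat_lit 65536) (.ev (nat_lit 3085) (nat_lit 64)
 .dd)))) (.br (nat_lit 11) (.ch (nat_lit 9) (.ev (nat_lit 2352) (nat_lit 64) (.ev (nat_lit 3140) (nat_lit
 65536) (.ev (nat_lit 3149) (nat_lit 8192) .dd)))) (.ch (nat_lit 11) (.ev (nat_lit 2352) (nat_lit 65600) (.ev
 (nat_lit 2365) (nat_lit 8192) .dd))))))))) (.ch (nat_lit 8) (.ev (nat_lit 640) (nat_lit 66) (.nd (nat_lit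
 2128) (.br (nat_lit 7) (.br (nat_lit 3) (.ch (nat_lit 1) (.ev (nat_lit 2196) (nat_lit 65536) (.ev (nat_lit
 2205) (nat_lit 8192) .dd))) (.ch (nat_lit 3) (.ev (nat_lit 3220) (nat_lit 65536) (.ev (nat_lit 3229) (nat_lit
 8192) .dd)))) (.br (nat_lit 11) (.ch (nat_lit 7) (.ev (nat_lit 6356) (nat_lit 8192) (.ev (nat_lit 6365)
 (nat_lit 65536) .dd))) (.br (nat_lit 12) (.ch (nat_lit 11) (.ev (nat_lit 2144) (nat_lit 8192) (.ev (nat_lit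
 2157) (nat_lit 65536) .dd))) (.ch (nat_lit 12) (.ev (nat_lit 2144) (nat_lit 65536) (.ev (nat_lit 2157)
 (nat_lit 8192) .dd)))))))))) (.br (nat_lit 11) (.ch (nat_lit 9) (.ev (nat_lit 640) (nat_lit 65538) (.nd
 (nat_lit 3408) (.br (nat_lit 12) (.ch (nat_lit 6) (.ev (nat_lit 4032) (nat_lit 8256) .dd)) (.ch (nat_lit 12)
 (.ev (nat_lit 3476) (nat_lit 64) (.ev (nat_lit 3485) (nat_lit 8192) .dd))))))) (.ch (nat_lit 11) (.ev (nat_lit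
 640) (nat_lit 73728) (.ev (nat_lit 1124) (nat_lit 2) (.ev (nat_lit 1133) (nat_lit 64) .dd)))))))))) (.ch
 (nat_lit 5) (.ev (nat_lit 80) (nat_lit 139328) (.nd (nat_lit 672) (.br (nat_lit 6) (.br (nat_lit 3) (.ch
 (nat_lit 0) (.ev (nat_lit 688) (nat_lit 32770) (.nd (nat_lit 1648) (.br (nat_lit 4) (.br (nat_lit 1) (.ch
 (nat_lit 0) (.ev (nat_lit 1664) (nat_lit 1024) (.ev (nat_lit 2868) (nat_lit 65536) (.ev (nat_lit 2877)
 (nat_lit 256) .dd)))) (.br (nat_lit 2) (.ch (nat_lit 1) (.ev (nat_lit 2900) (nat_lit 1024) (.ev (nat_lit 6260)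
 (nat_lit 256) (.ev (nat_lit 6269) (nat_lit 65536) .dd)))) (.ch (nat_lit 2) (.ev (nat_lit 1664) (nat_lit 65536)
 (.ev (nat_lit 1892) (nat_lit 1024) (.ev (nat_lit 1901) (nat_lit 256) .dd)))))) (.br (nat_lit 8) (.br (nat_lit
 7) (.ch (nat_lit 4) (.ev (nat_lit 1664) (nat_lit 65536) (.ev (nat_lit 2068) (nat_lit 1024) (.ev (nat_lit 2077)
 (nat_lit 256) .dd)))) (.ch (nat_lit 7) (.ev (nat_lit 1664) (nat_lit 1024) (.nd (nat_lit 4592) (.br (nat_lit 4)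
 (.br (nat_lit 2) (.ch (nat_lit 1) (.ev (nat_lit 6740) (nat_lit 256) (.ev (nat_lit 6749) (nat_lit 65536) .dd)))
 (.ch (nat_lit 2) (.ev (nat_lit 5364) (nat_lit 256) (.ev (nat_lit 5373) (nat_lit 65536) .dd)))) (.br (nat_lit
 8) (.ch (nat_lit 4) (.ev (nat_lit 6788) (nat_lit 256) (.ev (nat_lit 6797) (nat_lit 65536) .dd))) (.br (nat_lit
 12) (.ch (nat_lit 8) (.ev (nat_lit 6644) (nat_lit 256) (.ev (nat_lit 6653) (nat_lit 65536) .dd))) (.ch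
 (nat_lit 12) (.ev (nat_lit 5936) (nat_lit 65792) .dd))))))))) (.br (nat_lit 12) (.ch (nat_lit 8) (.ev (nat_lit
 1664) (nat_lit 256) (.ev (nat_lit 1876) (nat_lit 65536) (.ev (nat_lit 1885) (nat_lit 1024) .dd)))) (.ch
 (nat_lit 12) (.ev (nat_lit 1664) (nat_lit 256) (.ev (nat_lit 1876) (nat_lit 1024) (.ev (nat_lit 1885) (nat_lit
 65536) .dd)))))))))) (.br (nat_lit 5) (.ch (nat_lit 3) (.ev (nat_lit 688) (nat_lit 2) (.nd (nat_lit 1408) (.br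
 (nat_lit 6) (.br (nat_lit 4) (.br (nat_lit 2) (.ch (nat_lit 0) (.ev (nat_lit 1424) (nat_lit 1280) (.ev
 (nat_lit 1876) (nat_lit 65536) (.ev (nat_lit 1885) (nat_lit 32768) .dd)))) (.ch (nat_lit 2) (.ev (nat_lit
 1876) (nat_lit 65536) (.nd (nat_lit 4304) (.br (nat_lit 8) (.ch (nat_lit 6) (.ev (nat_lit 5200) (nat_lit 1024)
 (.ev (nat_lit 7028) (nat_lit 256) (.ev (nat_lit 7037) (nat_lit 32768) .dd)))) (.br (nat_lit 10) (.ch (nat_lit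
 8) (.ev (nat_lit 4320) (nat_lit 32768) (.ev (nat_lit 6528) (nat_lit 1280) .dd))) (.ch (nat_lit 10) (.ev
 (nat_lit 4320) (nat_lit 33024) (.ev (nat_lit 4333) (nat_lit 1024) .dd))))))))) (.br (nat_lit 5) (.ch (nat_lit
 4) (.ev (nat_lit 1780) (nat_lit 1024) (.ev (nat_lit 1876) (nat_lit 65536) (.nd (nat_lit 3984) (.br (nat_lit
 11) (.ch (nat_lit 10) (.ev (nat_lit 4996) (nat_lit 32768) (.ev (nat_lit 5005) (nat_lit 256) .dd))) (.ch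
 (nat_lit 11) (.ev (nat_lit 4996) (nat_lit 32768) (.ev (nat_lit 5005) (nat_lit 256) .dd)))))))) (.ch (nat_lit
 5) (.ev (nat_lit 3252) (nat_lit 65536) (.ev (nat_lit 6500) (nat_lit 256) (.ev (nat_lit 6596) (nat_lit 32768)
 (.ev (nat_lit 6605) (nat_lit 1024) .dd))))))) (.br (nat_lit 10) (.br (nat_lit 7) (.ch (nat_lit 6) (.ev
 (nat_lit 1424) (nat_lit 66560) (.ev (nat_lit 1700) (nat_lit 32768) (.ev (nat_lit 1709) (nat_lit 256) .dd))))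
 (.ch (nat_lit 7) (.ev (nat_lit 1424) (nat_lit 98304) (.ev (nat_lit 1780) (nat_lit 1024) (.ev (nat_lit 1789)
 (nat_lit 256) .dd))))) (.br (nat_lit 11) (.ch (nat_lit 10) (.ev (nat_lit 1424) (nat_lit 33024) (.ev (nat_lit
 1780) (nat_lit 1024) (.ev (nat_lit 1789) (nat_lit 65536) .dd)))) (.br (nat_lit 12) (.ch (nat_lit 11) (.ev
 (nat_lit 1424) (nat_lit 98304) (.ev (nat_lit 1796) (nat_lit 1024) (.ev (nat_lit 1805) (nat_lit 256) .dd))))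
 (.ch (nat_lit 12) (.ev (nat_lit 1424) (nat_lit 1280) (.ev (nat_lit 1876) (nat_lit 65536) (.ev (nat_lit 1885)
 (nat_lit 32768) .dd))))))))))) (.ch (nat_lit 5) (.ev (nat_lit 688) (nat_lit 65792) (.nd (nat_lit 1648) (.br
 (nat_lit 4) (.ch (nat_lit 2) (.ev (nat_lit 2788) (nat_lit 2) (.ev (nat_lit 6176) (nat_lit 33792) .dd))) (.br
 (nat_lit 11) (.ch (nat_lit 4) (.ev (nat_lit 2004) (nat_lit 2) (.ev (nat_lit 3812) (nat_lit 1024) (.ev (nat_lit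
 3821) (nat_lit 32768) .dd)))) (.ch (nat_lit 11) (.ev (nat_lit 1780) (nat_lit 1024) (.ev (nat_lit 2388)
 (nat_lit 2) (.ev (nat_lit 2397) (nat_lit 32768) .dd))))))))))) (.br (nat_lit 8) (.br (nat_lit 7) (.ch (nat_lit
 6) (.ev (nat_lit 688) (nat_lit 32768) (.ev (nat_lit 916) (nat_lit 65536) (.ev (nat_lit 980) (nat_lit 1024)
 (.nd (nat_lit 1744) (.br (nat_lit 7) (.br (nat_lit 4) (.ch (nat_lit 1) (.ev (nat_lit 1760) (nat_lit 256) (.ev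
 (nat_lit 1773) (nat_lit 2) .dd))) (.br (nat_lit 5) (.ch (nat_lit 4) (.ev (nat_lit 2180) (nat_lit 2) (.ev
 (nat_lit 2189) (nat_lit 256) .dd))) (.ch (nat_lit 5) (.ev (nat_lit 1760) (nat_lit 258) .dd)))) (.br (nat_lit
 10) (.br (nat_lit 8) (.ch (nat_lit 7) (.ev (nat_lit 1760) (nat_lit 2) (.ev (nat_lit 1773) (nat_lit 256) .dd)))
 (.ch (nat_lit 8) (.ev (nat_lit 1760) (nat_lit 256) (.ev (nat_lit 1773) (nat_lit 2) .dd)))) (.br (nat_lit 12)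
 (.ch (nat_lit 10) (.ev (nat_lit 2420) (nat_lit 2) (.ev (nat_lit 2429) (nat_lit 256) .dd))) (.ch (nat_lit 12)
 (.ev (nat_lit 5376) (nat_lit 256) (.ev (nat_lit 5389) (nat_lit 2) .dd))))))))))) (.ch (nat_lit 7) (.ev
 (nat_lit 688) (nat_lit 1024) (.nd (nat_lit 1408) (.br (nat_lit 10) (.br (nat_lit 2) (.ch (nat_lit 0) (.ev
 (nat_lit 1424) (nat_lit 32768) (.ev (nat_lit 2244) (nat_lit 65536) (.fin (nat_lit 576553660979823310))))) (.br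
 (nat_lit 8) (.ch (nat_lit 2) (.ev (nat_lit 1424) (nat_lit 258) (.ev (nat_lit 6644) (nat_lit 65536) (.ev
 (nat_lit 6653) (nat_lit 32768) .dd)))) (.ch (nat_lit 8) (.ev (nat_lit 1424) (nat_lit 65536) (.ev (nat_lit
 3076) (nat_lit 256) (.ev (nat_lit 6020) (nat_lit 32768) (.ev (nat_lit 6029) (nat_lit 2) .dd))))))) (.br
 (nat_lit 11) (.ch (nat_lit 10) (.ev (nat_lit 1424) (nat_lit 256) (.ev (nat_lit 1876) (nat_lit 65536) (.ev
 (nat_lit 2036) (nat_lit 2) (.ev (nat_lit 2045) (nat_lit 32768) .dd))))) (.br (nat_lit 12) (.ch (nat_lit 11)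
 (.ev (nat_lit 1424) (nat_lit 33024) (.ev (nat_lit 1876) (nat_lit 65536) (.ev (nat_lit 1885) (nat_lit 2)
 .dd)))) (.ch (nat_lit 12) (.ev (nat_lit 1700) (nat_lit 32768) (.ev (nat_lit 2180) (nat_lit 65536) (.ev
 (nat_lit 2868) (nat_lit 256) (.ev (nat_lit 2877) (nat_lit 2) .dd)))))))))))) (.br (nat_lit 11) (.ch (nat_lit
 8) (.ev (nat_lit 688) (nat_lit 256) (.ev (nat_lit 1060) (nat_lit 65536) (.nd (nat_lit 1456) (.br (nat_lit 4)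
 (.br (nat_lit 2) (.ch (nat_lit 0) (.ev (nat_lit 1588) (nat_lit 2) (.ev (nat_lit 4132) (nat_lit 32768) (.ev
 (nat_lit 4141) (nat_lit 1024) .dd)))) (.br (nat_lit 3) (.ch (nat_lit 2) (.ev (nat_lit 1472) (nat_lit 33792)
 (.ev (nat_lit 1485) (nat_lit 2) .dd))) (.ch (nat_lit 3) (.ev (nat_lit 1472) (nat_lit 1024) (.ev (nat_lit 1588)
 (nat_lit 2) (.ev (nat_lit 1597) (nat_lit 32768) .dd)))))) (.br (nat_lit 10) (.br (nat_lit 5) (.ch (nat_lit 4)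
 (.ev (nat_lit 1472) (nat_lit 2) (.ev (nat_lit 5140) (nat_lit 1024) (.ev (nat_lit 5149) (nat_lit 32768) .dd))))
 (.ch (nat_lit 5) (.ev (nat_lit 1472) (nat_lit 1024) (.ev (nat_lit 5152) (nat_lit 32770) .dd)))) (.br (nat_lit
 11) (.ch (nat_lit 10) (.nd (nat_lit 4304) (.br (nat_lit 5) (.br (nat_lit 4) (.ch (nat_lit 1) (.ev (nat_lit
 4320) (nat_lit 33792) (.ev (nat_lit 4333) (nat_lit 2) .dd))) (.ch (nat_lit 4) (.ev (nat_lit 4320) (nat_lit 2)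
 (.ev (nat_lit 6452) (nat_lit 1024) (.ev (nat_lit 6461) (nat_lit 32768) .dd))))) (.br (nat_lit 11) (.ch
 (nat_lit 5) (.ev (nat_lit 4320) (nat_lit 1024) (.ev (nat_lit 4356) (nat_lit 2) (.ev (nat_lit 4365) (nat_lit
 32768) .dd)))) (.ch (nat_lit 11) (.ev (nat_lit 5188) (nat_lit 2) (.ev (nat_lit 6452) (nat_lit 1024) (.ev
 (nat_lit 6461) (nat_lit 32768) .dd)))))))) (.ch (nat_lit 11) (.ev (nat_lit 1472) (nat_lit 33792) (.ev (nat_lit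
 1485) (nat_lit 2) .dd)))))))))) (.ch (nat_lit 11) (.ev (nat_lit 688) (nat_lit 66560) (.nd (nat_lit 1552) (.br
 (nat_lit 7) (.br (nat_lit 5) (.ch (nat_lit 4) (.nd (nat_lit 3984) (.br (nat_lit 2) (.ch (nat_lit 0) (.ev
 (nat_lit 4000) (nat_lit 256) (.ev (nat_lit 6148) (nat_lit 32768) (.ev (nat_lit 6157) (nat_lit 2) .dd)))) (.br
 (nat_lit 12) (.ch (nat_lit 2) (.ev (nat_lit 4000) (nat_lit 32768) (.ev (nat_lit 6452) (nat_lit 2) (.ev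
 (nat_lit 6461) (nat_lit 256) .dd)))) (.ch (nat_lit 12) (.ev (nat_lit 4996) (nat_lit 32768) (.ev (nat_lit 6452)
 (nat_lit 2) (.ev (nat_lit 6461) (nat_lit 256) .dd)))))))) (.ch (nat_lit 5) (.ev (nat_lit 1568) (nat_lit 32768)
 (.ev (nat_lit 6692) (nat_lit 256) (.ev (nat_lit 6701) (nat_lit 2) .dd))))) (.br (nat_lit 8) (.ch (nat_lit 7)
 (.ev (nat_lit 1568) (nat_lit 256) (.ev (nat_lit 5504) (nat_lit 32770) .dd))) (.br (nat_lit 12) (.ch (nat_lit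
 8) (.ev (nat_lit 1568) (nat_lit 2) (.ev (nat_lit 5456) (nat_lit 33024) .dd))) (.ch (nat_lit 12) (.ev (nat_lit
 1568) (nat_lit 2) (.ev (nat_lit 2068) (nat_lit 256) (.ev (nat_lit 2077) (nat_lit 32768) .dd))))))))))))))))))
 (.br (nat_lit 8) (.br (nat_lit 7) (.ch (nat_lit 6) (.ev (nat_lit 80) (nat_lit 1088) (.nd (nat_lit 576) (.br
 (nat_lit 6) (.br (nat_lit 4) (.br (nat_lit 2) (.ch (nat_lit 0) (.ev (nat_lit 592) (nat_lit 8194) (.nd (nat_lit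
 1264) (.br (nat_lit 4) (.br (nat_lit 1) (.ch (nat_lit 0) (.ev (nat_lit 2100) (nat_lit 32768) (.ev (nat_lit
 3044) (nat_lit 131072) (.nd (nat_lit 4304) (.br (nat_lit 10) (.br (nat_lit 8) (.ch (nat_lit 7) (.ev (nat_lit
 4320) (nat_lit 256) (.ev (nat_lit 4333) (nat_lit 65536) .dd))) (.ch (nat_lit 8) (.ev (nat_lit 4320) (nat_lit
 256) (.ev (nat_lit 4333) (nat_lit 65536) .dd)))) (.br (nat_lit 11) (.ch (nat_lit 10) (.ev (nat_lit 4320)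
 (nat_lit 256) (.ev (nat_lit 4333) (nat_lit 65536) .dd))) (.br (nat_lit 12) (.ch (nat_lit 11) (.ev (nat_lit
 4320) (nat_lit 65536) (.ev (nat_lit 4333) (nat_lit 256) .dd))) (.ch (nat_lit 12) (.fin (nat_lit
 576466799618900550)))))))))) (.br (nat_lit 2) (.ch (nat_lit 1) (.ev (nat_lit 1280) (nat_lit 131328) (.ev
 (nat_lit 3012) (nat_lit 65536) (.ev (nat_lit 3021) (nat_lit 32768) .dd)))) (.ch (nat_lit 2) (.ev (nat_lit
 1280) (nat_lit 196864) (.ev (nat_lit 1293) (nat_lit 32768) .dd))))) (.br (nat_lit 11) (.br (nat_lit 7) (.ch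
 (nat_lit 4) (.ev (nat_lit 1700) (nat_lit 65536) (.ev (nat_lit 2432) (nat_lit 131072) (.ev (nat_lit 5844)
 (nat_lit 256) (.ev (nat_lit 5853) (nat_lit 32768) .dd))))) (.ch (nat_lit 7) (.ev (nat_lit 1280) (nat_lit
 32768) (.ev (nat_lit 2036) (nat_lit 131072) (.ev (nat_lit 3012) (nat_lit 65536) (.ev (nat_lit 3021) (nat_lit
 256) .dd)))))) (.br (nat_lit 12) (.ch (nat_lit 11) (.ev (nat_lit 1280) (nat_lit 32768) (.nd (nat_lit 3984)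
 (.br (nat_lit 7) (.br (nat_lit 2) (.ch (nat_lit 0) (.ev (nat_lit 4000) (nat_lit 131072) (.ev (nat_lit 5924)
 (nat_lit 256) (.ev (nat_lit 5933) (nat_lit 65536) .dd)))) (.br (nat_lit 6) (.ch (nat_lit 2) (.ev (nat_lit
 4000) (nat_lit 65536) (.ev (nat_lit 5924) (nat_lit 256) (.ev (nat_lit 5933) (nat_lit 131072) .dd)))) (.ch
 (nat_lit 6) (.ev (nat_lit 4000) (nat_lit 65792) (.ev (nat_lit 4013) (nat_lit 131072) .dd))))) (.br (nat_lit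
 10) (.ch (nat_lit 7) (.ev (nat_lit 4000) (nat_lit 131328) (.ev (nat_lit 4013) (nat_lit 65536) .dd))) (.br
 (nat_lit 12) (.ch (nat_lit 10) (.ev (nat_lit 4000) (nat_lit 256) (.ev (nat_lit 6416) (nat_lit 196608) .dd)))
 (.ch (nat_lit 12) (.ev (nat_lit 4000) (nat_lit 256) (.ev (nat_lit 6160) (nat_lit 196608) .dd))))))))) (.ch
 (nat_lit 12) (.ev (nat_lit 1684) (nat_lit 32768) (.ev (nat_lit 2036) (nat_lit 131072) (.nd (nat_lit 4224) (.br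
 (nat_lit 7) (.br (nat_lit 2) (.ch (nat_lit 0) (.ev (nat_lit 4240) (nat_lit 65536) (.ev (nat_lit 4253) (nat_lit
 256) .dd))) (.br (nat_lit 6) (.ch (nat_lit 2) (.ev (nat_lit 4240) (nat_lit 256) (.ev (nat_lit 4253) (nat_lit
 65536) .dd))) (.ch (nat_lit 6) (.ev (nat_lit 4240) (nat_lit 65536) (.ev (nat_lit 4253) (nat_lit 256) .dd)))))
 (.br (nat_lit 11) (.br (nat_lit 8) (.ch (nat_lit 7) (.ev (nat_lit 4240) (nat_lit 256) (.ev (nat_lit 4253)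
 (nat_lit 65536) .dd))) (.ch (nat_lit 8) (.ev (nat_lit 4240) (nat_lit 65536) (.ev (nat_lit 4253) (nat_lit 256)
 .dd)))) (.br (nat_lit 12) (.ch (nat_lit 11) (.ev (nat_lit 4240) (nat_lit 256) (.ev (nat_lit 4253) (nat_lit
 65536) .dd))) (.ch (nat_lit 12) (.ev (nat_lit 5248) (nat_lit 65792) .dd))))))))))))))) (.ch (nat_lit 2) (.ev
 (nat_lit 592) (nat_lit 32768) (.ev (nat_lit 932) (nat_lit 65536) (.nd (nat_lit 1408) (.br (nat_lit 6) (.br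
 (nat_lit 1) (.ch (nat_lit 0) (.ev (nat_lit 1424) (nat_lit 131072) (.nd (nat_lit 3984) (.br (nat_lit 10) (.br
 (nat_lit 8) (.ch (nat_lit 1) (.ev (nat_lit 4000) (nat_lit 258) (.ev (nat_lit 4013) (nat_lit 8192) .dd))) (.ch
 (nat_lit 8) (.ev (nat_lit 6020) (nat_lit 2) (.ev (nat_lit 6692) (nat_lit 8192) (.ev (nat_lit 6701) (nat_lit
 256) .dd))))) (.br (nat_lit 11) (.ch (nat_lit 10) (.ev (nat_lit 4000) (nat_lit 2) (.ev (nat_lit 6464) (nat_lit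
 8448) .dd))) (.ch (nat_lit 11) (.ev (nat_lit 4000) (nat_lit 8192) (.ev (nat_lit 5776) (nat_lit 258)
 .dd)))))))) (.br (nat_lit 2) (.ch (nat_lit 1) (.ev (nat_lit 1796) (nat_lit 256) (.ev (nat_lit 2372) (nat_lit
 8192) (.ev (nat_lit 2740) (nat_lit 131072) (.ev (nat_lit 2749) (nat_lit 2) .dd))))) (.ch (nat_lit 2) (.ev
 (nat_lit 1424) (nat_lit 8192) (.ev (nat_lit 2740) (nat_lit 131072) (.nd (nat_lit 4304) (.br (nat_lit 9) (.br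
 (nat_lit 8) (.ch (nat_lit 5) (.ev (nat_lit 4320) (nat_lit 258) .dd)) (.ch (nat_lit 8) (.ev (nat_lit 5776)
 (nat_lit 258) .dd))) (.br (nat_lit 11) (.ch (nat_lit 9) (.ev (nat_lit 4320) (nat_lit 256) (.ev (nat_lit 4333)
 (nat_lit 2) .dd))) (.ch (nat_lit 11) (.ev (nat_lit 6020) (nat_lit 256) (.ev (nat_lit 6029) (nat_lit 2)
 .dd))))))))))) (.br (nat_lit 8) (.br (nat_lit 7) (.ch (nat_lit 6) (.ev (nat_lit 1424) (nat_lit 139264) (.ev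
 (nat_lit 6356) (nat_lit 256) (.ev (nat_lit 6365) (nat_lit 2) .dd)))) (.ch (nat_lit 7) (.ev (nat_lit 1424)
 (nat_lit 8450) (.ev (nat_lit 1437) (nat_lit 131072) .dd)))) (.br (nat_lit 9) (.ch (nat_lit 8) (.ev (nat_lit
 1424) (nat_lit 131330) (.ev (nat_lit 1437) (nat_lit 8192) .dd))) (.ch (nat_lit 9) (.ev (nat_lit 1424) (nat_lit
 139264) (.ev (nat_lit 2372) (nat_lit 2) (.ev (nat_lit 2381) (nat_lit 256) .dd)))))))))))) (.br (nat_lit 5)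
 (.ch (nat_lit 4) (.ev (nat_lit 592) (nat_lit 131328) (.nd (nat_lit 1552) (.br (nat_lit 3) (.br (nat_lit 1)
 (.ch (nat_lit 0) (.ev (nat_lit 1568) (nat_lit 40962) (.ev (nat_lit 1581) (nat_lit 65536) .dd))) (.br (nat_lit
 2) (.ch (nat_lit 1) (.ev (nat_lit 1568) (nat_lit 40962) (.ev (nat_lit 1581) (nat_lit 65536) .dd))) (.ch
 (nat_lit 2) (.ev (nat_lit 1568) (nat_lit 32768) (.ev (nat_lit 1684) (nat_lit 65536) (.ev (nat_lit 5540)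
 (nat_lit 2) (.ev (nat_lit 5549) (nat_lit 8192) .dd))))))) (.br (nat_lit 8) (.br (nat_lit 4) (.ch (nat_lit 3)
 (.ev (nat_lit 1568) (nat_lit 65536) (.ev (nat_lit 1684) (nat_lit 32768) (.ev (nat_lit 6452) (nat_lit 8192)
 (.ev (nat_lit 6461) (nat_lit 2) .dd))))) (.ch (nat_lit 4) (.ev (nat_lit 3652) (nat_lit 2) (.nd (nat_lit 4864)
 (.br (nat_lit 6) (.br (nat_lit 1) (.ch (nat_lit 0) (.ev (nat_lit 4880) (nat_lit 106496) .dd)) (.br (nat_lit 3)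
 (.ch (nat_lit 1) (.ev (nat_lit 4880) (nat_lit 98304) (.ev (nat_lit 4893) (nat_lit 8192) .dd))) (.ch (nat_lit
 3) (.ev (nat_lit 4880) (nat_lit 98304) (.ev (nat_lit 4893) (nat_lit 8192) .dd))))) (.br (nat_lit 7) (.ch
 (nat_lit 6) (.ev (nat_lit 4880) (nat_lit 40960) (.ev (nat_lit 4893) (nat_lit 65536) .dd))) (.br (nat_lit 11)
 (.ch (nat_lit 7) (.ev (nat_lit 4880) (nat_lit 65536) (.fin (nat_lit 576909904007609848)))) (.ch (nat_lit 11)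
 (.ev (nat_lit 4880) (nat_lit 98304) (.ev (nat_lit 4893) (nat_lit 8192) .dd)))))))))) (.br (nat_lit 11) (.ch
 (nat_lit 8) (.ev (nat_lit 1568) (nat_lit 98304) (.ev (nat_lit 2388) (nat_lit 2) (.ev (nat_lit 2397) (nat_lit
 8192) .dd)))) (.ch (nat_lit 11) (.ev (nat_lit 1568) (nat_lit 65536) (.ev (nat_lit 2004) (nat_lit 2) (.ev
 (nat_lit 2432) (nat_lit 8192) (.ev (nat_lit 2445) (nat_lit 32768) .dd))))))))))) (.ch (nat_lit 5) (.ev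
 (nat_lit 592) (nat_lit 164096) (.nd (nat_lit 1840) (.br (nat_lit 6) (.br (nat_lit 4) (.br (nat_lit 2) (.ch
 (nat_lit 1) (.ev (nat_lit 1856) (nat_lit 65536) (.ev (nat_lit 2548) (nat_lit 2) (.ev (nat_lit 2557) (nat_lit
 8192) .dd)))) (.ch (nat_lit 2) (.ev (nat_lit 1856) (nat_lit 8194) (.ev (nat_lit 1869) (nat_lit 65536) .dd))))
 (.br (nat_lit 5) (.ch (nat_lit 4) (.ev (nat_lit 1856) (nat_lit 2) (.ev (nat_lit 2004) (nat_lit 8192) (.ev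
 (nat_lit 2013) (nat_lit 65536) .dd)))) (.ch (nat_lit 5) (.ev (nat_lit 2900) (nat_lit 65536) (.ev (nat_lit
 5716) (nat_lit 2) (.ev (nat_lit 5725) (nat_lit 8192) .dd)))))) (.br (nat_lit 11) (.br (nat_lit 7) (.ch
 (nat_lit 6) (.ev (nat_lit 1856) (nat_lit 65536) (.ev (nat_lit 2740) (nat_lit 2) (.ev (nat_lit 2749) (nat_lit
 8192) .dd)))) (.ch (nat_lit 7) (.ev (nat_lit 1856) (nat_lit 2) (.ev (nat_lit 1876) (nat_lit 65536) (.ev
 (nat_lit 1885) (nat_lit 8192) .dd))))) (.br (nat_lit 12) (.ch (nat_lit 11) (.ev (nat_lit 1876) (nat_lit 65536)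
 (.ev (nat_lit 2036) (nat_lit 8192) (.ev (nat_lit 2045) (nat_lit 2) .dd)))) (.ch (nat_lit 12) (.ev (nat_lit
 1856) (nat_lit 8192) (.ev (nat_lit 2180) (nat_lit 2) (.ev (nat_lit 2189) (nat_lit 65536) .dd)))))))))))) (.br
 (nat_lit 10) (.br (nat_lit 7) (.ch (nat_lit 6) (.ev (nat_lit 592) (nat_lit 65538) (.nd (nat_lit 1408) (.br
 (nat_lit 7) (.br (nat_lit 2) (.ch (nat_lit 1) (.ev (nat_lit 1424) (nat_lit 131072) (.ev (nat_lit 3876)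
 (nat_lit 32768) (.ev (nat_lit 6644) (nat_lit 256) (.ev (nat_lit 6653) (nat_lit 8192) .dd))))) (.br (nat_lit 3)
 (.ch (nat_lit 2) (.ev (nat_lit 1424) (nat_lit 131072) (.ev (nat_lit 1684) (nat_lit 32768) (.ev (nat_lit 1780)
 (nat_lit 8192) (.ev (nat_lit 1789) (nat_lit 256) .dd))))) (.ch (nat_lit 3) (.nd (nat_lit 3984) (.br (nat_lit
 5) (.br (nat_lit 4) (.ch (nat_lit 1) (.ev (nat_lit 4000) (nat_lit 139264) (.ev (nat_lit 6356) (nat_lit 32768)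
 (.ev (nat_lit 6365) (nat_lit 256) .dd)))) (.ch (nat_lit 4) (.ev (nat_lit 4000) (nat_lit 40960) (.fin (nat_lit
 576447008406454858))))) (.br (nat_lit 7) (.ch (nat_lit 5) (.ev (nat_lit 4000) (nat_lit 256) (.ev (nat_lit
 4356) (nat_lit 32768) (.fin (nat_lit 576544865025213012))))) (.br (nat_lit 12) (.ch (nat_lit 7) (.ev (nat_lit
 4000) (nat_lit 256) (.ev (nat_lit 4388) (nat_lit 131072) (.ev (nat_lit 5472) (nat_lit 8192) (.ev (nat_lit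
 5485) (nat_lit 32768) .dd))))) (.ch (nat_lit 12) (.ev (nat_lit 4000) (nat_lit 40960) (.ev (nat_lit 4388)
 (nat_lit 131072) (.ev (nat_lit 4397) (nat_lit 256) .dd))))))))))) (.br (nat_lit 9) (.br (nat_lit 8) (.ch
 (nat_lit 7) (.ev (nat_lit 1424) (nat_lit 8448) (.ev (nat_lit 1444) (nat_lit 131072) (.ev (nat_lit 1453)
 (nat_lit 32768) .dd)))) (.ch (nat_lit 8) (.ev (nat_lit 1424) (nat_lit 8192) (.ev (nat_lit 1684) (nat_lit
 32768) (.nd (nat_lit 4304) (.br (nat_lit 3) (.br (nat_lit 2) (.ch (nat_lit 1) (.ev (nat_lit 5300) (nat_lit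
 256) (.ev (nat_lit 5309) (nat_lit 131072) .dd))) (.ch (nat_lit 2) (.ev (nat_lit 4500) (nat_lit 131072) (.ev
 (nat_lit 4509) (nat_lit 256) .dd)))) (.br (nat_lit 7) (.ch (nat_lit 3) (.ev (nat_lit 4756) (nat_lit 256) (.ev
 (nat_lit 4765) (nat_lit 131072) .dd))) (.br (nat_lit 10) (.ch (nat_lit 7) (.ev (nat_lit 4692) (nat_lit 256)
 (.ev (nat_lit 4701) (nat_lit 131072) .dd))) (.ch (nat_lit 10) (.ev (nat_lit 4692) (nat_lit 256) (.ev (nat_lit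
 4701) (nat_lit 131072) .dd))))))))))) (.br (nat_lit 12) (.ch (nat_lit 9) (.ev (nat_lit 1424) (nat_lit 33024)
 (.ev (nat_lit 6900) (nat_lit 8192) (.ev (nat_lit 6909) (nat_lit 131072) .dd)))) (.ch (nat_lit 12) (.ev
 (nat_lit 1424) (nat_lit 32768) (.ev (nat_lit 2880) (nat_lit 8192) (.nd (nat_lit 4304) (.br (nat_lit 6) (.br
 (nat_lit 5) (.ch (nat_lit 3) (.ev (nat_lit 4320) (nat_lit 131072) (.ev (nat_lit 4333) (nat_lit 256) .dd)))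
 (.ch (nat_lit 5) (.ev (nat_lit 4320) (nat_lit 256) (.ev (nat_lit 4333) (nat_lit 131072) .dd)))) (.br (nat_lit
 10) (.ch (nat_lit 6) (.ev (nat_lit 5552) (nat_lit 131328) .dd)) (.ch (nat_lit 10) (.ev (nat_lit 4320) (nat_lit
 131072) (.ev (nat_lit 4333) (nat_lit 256) .dd))))))))))))))) (.ch (nat_lit 7) (.ev (nat_lit 592) (nat_lit
 196608) (.nd (nat_lit 1408) (.br (nat_lit 5) (.br (nat_lit 3) (.ch (nat_lit 2) (.ev (nat_lit 1424) (nat_lit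
 8448) (.ev (nat_lit 2948) (nat_lit 32768) (.ev (nat_lit 2957) (nat_lit 2) .dd)))) (.br (nat_lit 4) (.ch
 (nat_lit 3) (.ev (nat_lit 1424) (nat_lit 2) (.ev (nat_lit 2068) (nat_lit 256) (.ev (nat_lit 2752) (nat_lit
 32768) (.ev (nat_lit 2765) (nat_lit 8192) .dd))))) (.ch (nat_lit 4) (.ev (nat_lit 1424) (nat_lit 33024) (.ev
 (nat_lit 6356) (nat_lit 2) (.ev (nat_lit 6365) (nat_lit 8192) .dd)))))) (.br (nat_lit 7) (.ch (nat_lit 5) (.ev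
 (nat_lit 1424) (nat_lit 2) (.ev (nat_lit 2388) (nat_lit 32768) (.ev (nat_lit 3044) (nat_lit 8192) (.ev
 (nat_lit 3053) (nat_lit 256) .dd))))) (.br (nat_lit 12) (.ch (nat_lit 7) (.ev (nat_lit 1424) (nat_lit 33024)
 (.ev (nat_lit 1588) (nat_lit 8192) (.ev (nat_lit 1597) (nat_lit 2) .dd)))) (.ch (nat_lit 12) (.ev (nat_lit
 1424) (nat_lit 32768) (.nd (nat_lit 4304) (.br (nat_lit 8) (.br (nat_lit 6) (.ch (nat_lit 3) (.ev (nat_lit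
 4320) (nat_lit 2) (.ev (nat_lit 4356) (nat_lit 8192) (.ev (nat_lit 4365) (nat_lit 256) .dd)))) (.ch (nat_lit
 6) (.ev (nat_lit 4320) (nat_lit 256) (.ev (nat_lit 6500) (nat_lit 8192) (.ev (nat_lit 6509) (nat_lit 2)
 .dd))))) (.br (nat_lit 9) (.ch (nat_lit 8) (.ev (nat_lit 4356) (nat_lit 8192) (.ev (nat_lit 5776) (nat_lit
 256) (.ev (nat_lit 5789) (nat_lit 2) .dd)))) (.br (nat_lit 11) (.ch (nat_lit 9) (.ev (nat_lit 4320) (nat_lit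
 8192) (.fin (nat_lit 576062179010625573)))) (.ch (nat_lit 11) (.ev (nat_lit 4320) (nat_lit 256) (.ev (nat_lit
 4404) (nat_lit 8192) (.ev (nat_lit 4413) (nat_lit 2) .dd))))))))))))))))) (.br (nat_lit 11) (.ch (nat_lit 10)
 (.ev (nat_lit 592) (nat_lit 106496) (.nd (nat_lit 1408) (.br (nat_lit 10) (.br (nat_lit 7) (.ch (nat_lit 2)
 (.ev (nat_lit 2900) (nat_lit 256) (.ev (nat_lit 3764) (nat_lit 131072) (.ev (nat_lit 3773) (nat_lit 2) .dd))))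
 (.br (nat_lit 9) (.ch (nat_lit 7) (.ev (nat_lit 1424) (nat_lit 2) (.ev (nat_lit 2164) (nat_lit 131072) (.ev
 (nat_lit 2173) (nat_lit 256) .dd)))) (.ch (nat_lit 9) (.ev (nat_lit 1424) (nat_lit 256) (.ev (nat_lit 2900)
 (nat_lit 2) (.ev (nat_lit 2909) (nat_lit 131072) .dd)))))) (.br (nat_lit 11) (.ch (nat_lit 10) (.ev (nat_lit
 1424) (nat_lit 2) (.ev (nat_lit 2948) (nat_lit 131072) (.ev (nat_lit 2957) (nat_lit 256) .dd)))) (.br (nat_lit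
 12) (.ch (nat_lit 11) (.ev (nat_lit 1424) (nat_lit 256) (.ev (nat_lit 3044) (nat_lit 131072) (.ev (nat_lit
 3053) (nat_lit 2) .dd)))) (.ch (nat_lit 12) (.ev (nat_lit 1424) (nat_lit 131074) (.ev (nat_lit 1437) (nat_lit
 256) .dd))))))))) (.br (nat_lit 12) (.ch (nat_lit 11) (.ev (nat_lit 592) (nat_lit 33024) (.ev (nat_lit 868)
 (nat_lit 131072) (.nd (nat_lit 1456) (.br (nat_lit 6) (.br (nat_lit 2) (.ch (nat_lit 0) (.ev (nat_lit 1472)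
 (nat_lit 73728) (.ev (nat_lit 1485) (nat_lit 2) .dd))) (.br (nat_lit 5) (.ch (nat_lit 2) (.ev (nat_lit 2004)
 (nat_lit 8192) (.ev (nat_lit 6260) (nat_lit 65536) (.ev (nat_lit 6269) (nat_lit 2) .dd)))) (.ch (nat_lit 5)
 (.ev (nat_lit 1472) (nat_lit 2) (.ev (nat_lit 2900) (nat_lit 65536) (.ev (nat_lit 2909) (nat_lit 8192)
 .dd)))))) (.br (nat_lit 11) (.br (nat_lit 7) (.ch (nat_lit 6) (.ev (nat_lit 2004) (nat_lit 8192) (.ev (nat_lit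
 6596) (nat_lit 2) (.ev (nat_lit 6605) (nat_lit 65536) .dd)))) (.ch (nat_lit 7) (.ev (nat_lit 1472) (nat_lit 2)
 (.ev (nat_lit 2848) (nat_lit 8192) (.ev (nat_lit 2861) (nat_lit 65536) .dd))))) (.br (nat_lit 12) (.ch
 (nat_lit 11) (.ev (nat_lit 1472) (nat_lit 65536) (.ev (nat_lit 7108) (nat_lit 2) (.ev (nat_lit 7117) (nat_lit
 8192) .dd)))) (.ch (nat_lit 12) (.ev (nat_lit 1472) (nat_lit 8192) (.ev (nat_lit 2068) (nat_lit 65536) (.ev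
 (nat_lit 2077) (nat_lit 2) .dd))))))))))) (.ch (nat_lit 12) (.ev (nat_lit 592) (nat_lit 8194) (.nd (nat_lit
 1408) (.br (nat_lit 8) (.br (nat_lit 3) (.br (nat_lit 2) (.ch (nat_lit 0) (.ev (nat_lit 1424) (nat_lit 65536)
 (.ev (nat_lit 1588) (nat_lit 32768) (.nd (nat_lit 4416) (.br (nat_lit 12) (.ch (nat_lit 4) (.fin (nat_lit
 576016000193347675))) (.ch (nat_lit 12) (.ev (nat_lit 4432) (nat_lit 256) (.ev (nat_lit 4445) (nat_lit 131072)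
 .dd)))))))) (.ch (nat_lit 2) (.ev (nat_lit 1424) (nat_lit 229376) (.ev (nat_lit 1437) (nat_lit 256) .dd))))
 (.br (nat_lit 7) (.ch (nat_lit 3) (.ev (nat_lit 1604) (nat_lit 131072) (.ev (nat_lit 6304) (nat_lit 32768)
 (.ev (nat_lit 7028) (nat_lit 256) (.ev (nat_lit 7037) (nat_lit 65536) .dd))))) (.ch (nat_lit 7) (.ev (nat_lit
 1424) (nat_lit 256) (.ev (nat_lit 1588) (nat_lit 32768) (.ev (nat_lit 5876) (nat_lit 131072) (.ev (nat_lit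
 5885) (nat_lit 65536) .dd))))))) (.br (nat_lit 10) (.br (nat_lit 9) (.ch (nat_lit 8) (.ev (nat_lit 1424)
 (nat_lit 65536) (.nd (nat_lit 3984) (.br (nat_lit 5) (.br (nat_lit 1) (.ch (nat_lit 0) (.ev (nat_lit 4356)
 (nat_lit 256) (.ev (nat_lit 4468) (nat_lit 32768) (.ev (nat_lit 4477) (nat_lit 131072) .dd)))) (.ch (nat_lit
 1) (.ev (nat_lit 4000) (nat_lit 32768) (.ev (nat_lit 6452) (nat_lit 256) (.ev (nat_lit 6461) (nat_lit 131072)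
 .dd))))) (.br (nat_lit 8) (.ch (nat_lit 5) (.ev (nat_lit 4000) (nat_lit 32768) (.ev (nat_lit 4692) (nat_lit
 256) (.ev (nat_lit 4701) (nat_lit 131072) .dd)))) (.br (nat_lit 12) (.ch (nat_lit 8) (.ev (nat_lit 4356)
 (nat_lit 256) (.ev (nat_lit 6148) (nat_lit 131072) (.ev (nat_lit 6157) (nat_lit 32768) .dd)))) (.ch (nat_lit
 12) (.ev (nat_lit 4000) (nat_lit 32768) (.ev (nat_lit 6020) (nat_lit 131072) (.ev (nat_lit 6029) (nat_lit 256)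
 .dd)))))))))) (.ch (nat_lit 9) (.ev (nat_lit 1588) (nat_lit 32768) (.ev (nat_lit 2948) (nat_lit 65536) (.nd
 (nat_lit 4304) (.br (nat_lit 6) (.br (nat_lit 4) (.br (nat_lit 2) (.ch (nat_lit 0) (.ev (nat_lit 4320)
 (nat_lit 256) (.ev (nat_lit 4333) (nat_lit 131072) .dd))) (.ch (nat_lit 2) (.ev (nat_lit 5188) (nat_lit
 131072) (.ev (nat_lit 5197) (nat_lit 256) .dd)))) (.br (nat_lit 5) (.ch (nat_lit 4) (.ev (nat_lit 4320)
 (nat_lit 256) (.ev (nat_lit 4333) (nat_lit 131072) .dd))) (.ch (nat_lit 5) (.ev (nat_lit 5572) (nat_lit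
 131072) (.ev (nat_lit 5581) (nat_lit 256) .dd))))) (.br (nat_lit 10) (.br (nat_lit 8) (.ch (nat_lit 6) (.ev
 (nat_lit 4320) (nat_lit 131072) (.ev (nat_lit 4333) (nat_lit 256) .dd))) (.ch (nat_lit 8) (.ev (nat_lit 6260)
 (nat_lit 256) (.ev (nat_lit 6269) (nat_lit 131072) .dd)))) (.br (nat_lit 12) (.ch (nat_lit 10) (.ev (nat_lit
 4320) (nat_lit 131072) (.ev (nat_lit 4333) (nat_lit 256) .dd))) (.ch (nat_lit 12) (.ev (nat_lit 4320) (nat_lit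
 256) (.ev (nat_lit 4333) (nat_lit 131072) .dd))))))))))) (.br (nat_lit 12) (.ch (nat_lit 10) (.ev (nat_lit
 1424) (nat_lit 33024) (.ev (nat_lit 1508) (nat_lit 131072) (.ev (nat_lit 1517) (nat_lit 65536) .dd)))) (.ch
 (nat_lit 12) (.ev (nat_lit 1424) (nat_lit 131328) (.ev (nat_lit 1588) (nat_lit 32768) (.ev (nat_lit 1597)
 (nat_lit 65536) .dd))))))))))))))))) (.ch (nat_lit 7) (.ev (nat_lit 80) (nat_lit 238592) (.nd (nat_lit 1088)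
 (.br (nat_lit 6) (.br (nat_lit 1) (.ch (nat_lit 0) (.ev (nat_lit 1124) (nat_lit 2) (.nd (nat_lit 2336) (.br
 (nat_lit 6) (.br (nat_lit 2) (.ch (nat_lit 0) (.ev (nat_lit 2868) (nat_lit 64) (.ev (nat_lit 2877) (nat_lit
 256) .dd))) (.br (nat_lit 4) (.ch (nat_lit 2) (.ev (nat_lit 2352) (nat_lit 64) (.ev (nat_lit 2365) (nat_lit
 256) .dd))) (.ch (nat_lit 4) (.ev (nat_lit 3540) (nat_lit 64) (.ev (nat_lit 3549) (nat_lit 256) .dd))))) (.br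
 (nat_lit 9) (.br (nat_lit 7) (.ch (nat_lit 6) (.ev (nat_lit 2676) (nat_lit 64) (.ev (nat_lit 2685) (nat_lit
 256) .dd))) (.ch (nat_lit 7) (.ev (nat_lit 2352) (nat_lit 256) (.ev (nat_lit 2365) (nat_lit 64) .dd)))) (.br
 (nat_lit 10) (.ch (nat_lit 9) (.ev (nat_lit 2352) (nat_lit 256) (.ev (nat_lit 2365) (nat_lit 64) .dd))) (.ch
 (nat_lit 10) (.ev (nat_lit 2820) (nat_lit 256) (.ev (nat_lit 2829) (nat_lit 64) .dd))))))))) (.br (nat_lit 3)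
 (.ch (nat_lit 1) (.ev (nat_lit 1104) (nat_lit 2) (.nd (nat_lit 2624) (.br (nat_lit 3) (.ch (nat_lit 1) (.ev
 (nat_lit 2832) (nat_lit 256) (.ev (nat_lit 2845) (nat_lit 64) .dd))) (.br (nat_lit 7) (.ch (nat_lit 3) (.ev
 (nat_lit 2800) (nat_lit 256) (.ev (nat_lit 2813) (nat_lit 64) .dd))) (.ch (nat_lit 7) (.ev (nat_lit 2676)
 (nat_lit 64) (.ev (nat_lit 2685) (nat_lit 256) .dd)))))))) (.ch (nat_lit 3) (.ev (nat_lit 1104) (nat_lit 256)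
 (.nd (nat_lit 2336) (.br (nat_lit 6) (.br (nat_lit 2) (.br (nat_lit 1) (.ch (nat_lit 0) (.ev (nat_lit 2352)
 (nat_lit 66) .dd)) (.ch (nat_lit 1) (.ev (nat_lit 2352) (nat_lit 66) .dd))) (.br (nat_lit 3) (.ch (nat_lit 2)
 (.ev (nat_lit 6452) (nat_lit 2) (.ev (nat_lit 6461) (nat_lit 64) .dd))) (.ch (nat_lit 3) (.ev (nat_lit 2352)
 (nat_lit 2) (.ev (nat_lit 2365) (nat_lit 64) .dd))))) (.br (nat_lit 8) (.br (nat_lit 7) (.ch (nat_lit 6) (.ev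
 (nat_lit 2372) (nat_lit 64) (.ev (nat_lit 2381) (nat_lit 2) .dd))) (.ch (nat_lit 7) (.ev (nat_lit 2352)
 (nat_lit 64) (.ev (nat_lit 2365) (nat_lit 2) .dd)))) (.br (nat_lit 9) (.ch (nat_lit 8) (.ev (nat_lit 2372)
 (nat_lit 64) (.ev (nat_lit 2381) (nat_lit 2) .dd))) (.br (nat_lit 11) (.ch (nat_lit 9) (.ev (nat_lit 2372)
 (nat_lit 64) (.ev (nat_lit 2381) (nat_lit 2) .dd))) (.ch (nat_lit 11) (.ev (nat_lit 3540) (nat_lit 2) (.ev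
 (nat_lit 3549) (nat_lit 64) .dd)))))))))))) (.br (nat_lit 11) (.br (nat_lit 8) (.ch (nat_lit 6) (.ev (nat_lit
 1104) (nat_lit 256) (.nd (nat_lit 2336) (.br (nat_lit 8) (.br (nat_lit 4) (.ch (nat_lit 0) (.ev (nat_lit 2352)
 (nat_lit 2) (.ev (nat_lit 2365) (nat_lit 64) .dd))) (.br (nat_lit 5) (.ch (nat_lit 4) (.ev (nat_lit 2352)
 (nat_lit 2) (.ev (nat_lit 2365) (nat_lit 64) .dd))) (.ch (nat_lit 5) (.ev (nat_lit 2352) (nat_lit 64) (.ev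
 (nat_lit 2365) (nat_lit 2) .dd))))) (.br (nat_lit 11) (.br (nat_lit 10) (.ch (nat_lit 8) (.ev (nat_lit 2372)
 (nat_lit 2) (.ev (nat_lit 2381) (nat_lit 64) .dd))) (.ch (nat_lit 10) (.ev (nat_lit 2372) (nat_lit 2) (.ev
 (nat_lit 2381) (nat_lit 64) .dd)))) (.br (nat_lit 12) (.ch (nat_lit 11) (.ev (nat_lit 3604) (nat_lit 64) (.ev
 (nat_lit 3613) (nat_lit 2) .dd))) (.ch (nat_lit 12) (.ev (nat_lit 2352) (nat_lit 64) (.ev (nat_lit 2365)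
 (nat_lit 2) .dd))))))))) (.ch (nat_lit 8) (.ev (nat_lit 1104) (nat_lit 64) (.nd (nat_lit 2336) (.br (nat_lit
 7) (.br (nat_lit 2) (.ch (nat_lit 1) (.ev (nat_lit 6644) (nat_lit 2) (.ev (nat_lit 6653) (nat_lit 256) .dd)))
 (.ch (nat_lit 2) (.ev (nat_lit 2372) (nat_lit 2) (.ev (nat_lit 2381) (nat_lit 256) .dd)))) (.br (nat_lit 11)
 (.ch (nat_lit 7) (.ev (nat_lit 2352) (nat_lit 256) (.ev (nat_lit 2365) (nat_lit 2) .dd))) (.br (nat_lit 12)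
 (.ch (nat_lit 11) (.ev (nat_lit 2352) (nat_lit 256) (.ev (nat_lit 2365) (nat_lit 2) .dd))) (.ch (nat_lit 12)
 (.ev (nat_lit 2352) (nat_lit 2) (.ev (nat_lit 2365) (nat_lit 256) .dd)))))))))) (.br (nat_lit 12) (.ch
 (nat_lit 11) (.ev (nat_lit 1104) (nat_lit 2) (.nd (nat_lit 2624) (.br (nat_lit 3) (.br (nat_lit 1) (.ch
 (nat_lit 0) (.ev (nat_lit 2640) (nat_lit 64) (.ev (nat_lit 2653) (nat_lit 256) .dd))) (.br (nat_lit 2) (.ch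
 (nat_lit 1) (.ev (nat_lit 2640) (nat_lit 256) (.ev (nat_lit 2653) (nat_lit 64) .dd))) (.ch (nat_lit 2) (.ev
 (nat_lit 2640) (nat_lit 64) (.ev (nat_lit 2653) (nat_lit 256) .dd))))) (.br (nat_lit 7) (.br (nat_lit 5) (.ch
 (nat_lit 3) (.ev (nat_lit 2640) (nat_lit 64) (.ev (nat_lit 2653) (nat_lit 256) .dd))) (.ch (nat_lit 5) (.ev
 (nat_lit 6644) (nat_lit 64) (.ev (nat_lit 6653) (nat_lit 256) .dd)))) (.br (nat_lit 8) (.ch (nat_lit 7) (.ev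
 (nat_lit 2640) (nat_lit 64) (.ev (nat_lit 2653) (nat_lit 256) .dd))) (.ch (nat_lit 8) (.ev (nat_lit 2820)
 (nat_lit 64) (.ev (nat_lit 2829) (nat_lit 256) .dd))))))))) (.ch (nat_lit 12) (.ev (nat_lit 1104) (nat_lit 64)
 (.ev (nat_lit 1124) (nat_lit 2) (.ev (nat_lit 1133) (nat_lit 256) .dd))))))))))) (.br (nat_lit 10) (.ch
 (nat_lit 8) (.ev (nat_lit 80) (nat_lit 41026) (.nd (nat_lit 784) (.br (nat_lit 7) (.br (nat_lit 4) (.br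
 (nat_lit 3) (.ch (nat_lit 1) (.ev (nat_lit 800) (nat_lit 131072) (.nd (nat_lit 1840) (.br (nat_lit 9) (.br
 (nat_lit 7) (.ch (nat_lit 3) (.ev (nat_lit 1876) (nat_lit 1024) (.ev (nat_lit 3140) (nat_lit 256) (.ev
 (nat_lit 3149) (nat_lit 65536) .dd)))) (.br (nat_lit 8) (.ch (nat_lit 7) (.ev (nat_lit 2788) (nat_lit 1024)
 (.ev (nat_lit 5936) (nat_lit 65792) .dd))) (.ch (nat_lit 8) (.ev (nat_lit 1856) (nat_lit 256) (.ev (nat_lit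
 3540) (nat_lit 1024) (.ev (nat_lit 3549) (nat_lit 65536) .dd)))))) (.br (nat_lit 10) (.ch (nat_lit 9) (.ev
 (nat_lit 3652) (nat_lit 1024) (.ev (nat_lit 5696) (nat_lit 256) (.ev (nat_lit 5709) (nat_lit 65536) .dd))))
 (.br (nat_lit 12) (.ch (nat_lit 10) (.ev (nat_lit 1856) (nat_lit 65536) (.ev (nat_lit 3220) (nat_lit 256) (.ev
 (nat_lit 3229) (nat_lit 1024) .dd)))) (.ch (nat_lit 12) (.ev (nat_lit 1856) (nat_lit 65536) (.ev (nat_lit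
 1876) (nat_lit 1024) (.ev (nat_lit 1885) (nat_lit 256) .dd)))))))))) (.ch (nat_lit 3) (.ev (nat_lit 800)
 (nat_lit 65792) (.ev (nat_lit 916) (nat_lit 1024) (.ev (nat_lit 925) (nat_lit 131072) .dd))))) (.br (nat_lit
 5) (.ch (nat_lit 4) (.ev (nat_lit 800) (nat_lit 1280) (.nd (nat_lit 3408) (.br (nat_lit 5) (.br (nat_lit 3)
 (.ch (nat_lit 1) (.ev (nat_lit 3424) (nat_lit 65536) (.ev (nat_lit 3437) (nat_lit 131072) .dd))) (.ch (nat_lit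
 3) (.ev (nat_lit 3424) (nat_lit 65536) (.ev (nat_lit 3437) (nat_lit 131072) .dd)))) (.br (nat_lit 6) (.ch
 (nat_lit 5) (.ev (nat_lit 3652) (nat_lit 65536) (.ev (nat_lit 3661) (nat_lit 131072) .dd))) (.br (nat_lit 10)
 (.ch (nat_lit 6) (.ev (nat_lit 3424) (nat_lit 131072) (.ev (nat_lit 3437) (nat_lit 65536) .dd))) (.ch (nat_lit
 10) (.ev (nat_lit 6356) (nat_lit 65536) (.ev (nat_lit 6365) (nat_lit 131072) .dd))))))))) (.ch (nat_lit 5)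
 (.ev (nat_lit 800) (nat_lit 256) (.ev (nat_lit 996) (nat_lit 65536) (.nd (nat_lit 3408) (.br (nat_lit 9) (.br
 (nat_lit 4) (.ch (nat_lit 1) (.ev (nat_lit 3424) (nat_lit 1024) (.ev (nat_lit 3437) (nat_lit 131072) .dd)))
 (.ch (nat_lit 4) (.ev (nat_lit 3424) (nat_lit 131072) (.ev (nat_lit 3437) (nat_lit 1024) .dd)))) (.br (nat_lit
 12) (.ch (nat_lit 9) (.ev (nat_lit 3424) (nat_lit 132096) .dd)) (.ch (nat_lit 12) (.ev (nat_lit 3424) (nat_lit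
 132096) .dd)))))))))) (.br (nat_lit 9) (.br (nat_lit 8) (.ch (nat_lit 7) (.ev (nat_lit 800) (nat_lit 131072)
 (.nd (nat_lit 1968) (.br (nat_lit 7) (.br (nat_lit 1) (.ch (nat_lit 0) (.ev (nat_lit 2740) (nat_lit 256) (.ev
 (nat_lit 2788) (nat_lit 65536) (.ev (nat_lit 2797) (nat_lit 1024) .dd)))) (.br (nat_lit 2) (.ch (nat_lit 1)
 (.ev (nat_lit 1984) (nat_lit 65536) (.ev (nat_lit 2740) (nat_lit 256) (.ev (nat_lit 2749) (nat_lit 1024)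
 .dd)))) (.ch (nat_lit 2) (.ev (nat_lit 1984) (nat_lit 65536) (.ev (nat_lit 3188) (nat_lit 256) (.ev (nat_lit
 3197) (nat_lit 1024) .dd)))))) (.br (nat_lit 9) (.ch (nat_lit 7) (.ev (nat_lit 1984) (nat_lit 1280) (.ev
 (nat_lit 1997) (nat_lit 65536) .dd))) (.br (nat_lit 10) (.ch (nat_lit 9) (.ev (nat_lit 1984) (nat_lit 65536)
 (.ev (nat_lit 2164) (nat_lit 1024) (.ev (nat_lit 2173) (nat_lit 256) .dd)))) (.ch (nat_lit 10) (.ev (nat_lit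
 1984) (nat_lit 66560) (.ev (nat_lit 1997) (nat_lit 256) .dd))))))))) (.ch (nat_lit 8) (.ev (nat_lit 800)
 (nat_lit 131072) (.ev (nat_lit 980) (nat_lit 65536) (.nd (nat_lit 1648) (.br (nat_lit 10) (.br (nat_lit 9)
 (.ch (nat_lit 8) (.ev (nat_lit 1664) (nat_lit 1024) (.ev (nat_lit 1677) (nat_lit 256) .dd))) (.ch (nat_lit 9)
 (.ev (nat_lit 1664) (nat_lit 1024) (.ev (nat_lit 1677) (nat_lit 256) .dd)))) (.br (nat_lit 11) (.ch (nat_lit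
 10) (.ev (nat_lit 1684) (nat_lit 1024) (.ev (nat_lit 1693) (nat_lit 256) .dd))) (.br (nat_lit 12) (.ch
 (nat_lit 11) (.ev (nat_lit 2484) (nat_lit 1024) (.ev (nat_lit 2493) (nat_lit 256) .dd))) (.ch (nat_lit 12)
 (.ev (nat_lit 1664) (nat_lit 256) (.ev (nat_lit 1677) (nat_lit 1024) .dd))))))))))) (.br (nat_lit 11) (.ch
 (nat_lit 9) (.ev (nat_lit 800) (nat_lit 1024) (.nd (nat_lit 1744) (.br (nat_lit 7) (.br (nat_lit 3) (.ch
 (nat_lit 1) (.ev (nat_lit 1760) (nat_lit 131072) (.ev (nat_lit 3252) (nat_lit 65536) (.ev (nat_lit 3261)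
 (nat_lit 256) .dd)))) (.br (nat_lit 5) (.ch (nat_lit 3) (.ev (nat_lit 1760) (nat_lit 196608) (.ev (nat_lit
 1773) (nat_lit 256) .dd))) (.ch (nat_lit 5) (.ev (nat_lit 1760) (nat_lit 131072) (.ev (nat_lit 1876) (nat_lit
 65536) (.ev (nat_lit 1885) (nat_lit 256) .dd)))))) (.br (nat_lit 10) (.ch (nat_lit 7) (.ev (nat_lit 1760)
 (nat_lit 131072) (.fin (nat_lit 576055582549032964)))) (.br (nat_lit 11) (.ch (nat_lit 10) (.ev (nat_lit 1760)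
 (nat_lit 256) (.ev (nat_lit 6020) (nat_lit 65536) (.ev (nat_lit 6029) (nat_lit 131072) .dd)))) (.ch (nat_lit
 11) (.ev (nat_lit 1760) (nat_lit 65536) (.ev (nat_lit 3540) (nat_lit 131072) (.ev (nat_lit 3549) (nat_lit 256)
 .dd)))))))))) (.ch (nat_lit 11) (.ev (nat_lit 800) (nat_lit 197632) (.ev (nat_lit 813) (nat_lit 256)
 .dd))))))))) (.br (nat_lit 12) (.ch (nat_lit 10) (.ev (nat_lit 80) (nat_lit 320) (.ev (nat_lit 308) (nat_lit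
 8192) (.nd (nat_lit 624) (.br (nat_lit 5) (.br (nat_lit 3) (.br (nat_lit 2) (.ch (nat_lit 0) (.ev (nat_lit
 640) (nat_lit 132098) (.nd (nat_lit 1840) (.br (nat_lit 9) (.ch (nat_lit 0) (.fin (nat_lit
 575813689425740082))) (.br (nat_lit 11) (.ch (nat_lit 9) (.ev (nat_lit 2788) (nat_lit 65536) (.ev (nat_lit
 2797) (nat_lit 32768) .dd))) (.ch (nat_lit 11) (.ev (nat_lit 1876) (nat_lit 32768) (.ev (nat_lit 1885)
 (nat_lit 65536) .dd)))))))) (.ch (nat_lit 2) (.ev (nat_lit 980) (nat_lit 2) (.ev (nat_lit 1060) (nat_lit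
 65536) (.nd (nat_lit 1648) (.br (nat_lit 5) (.br (nat_lit 3) (.br (nat_lit 2) (.ch (nat_lit 1) (.ev (nat_lit
 1664) (nat_lit 132096) (.ev (nat_lit 1677) (nat_lit 32768) .dd))) (.ch (nat_lit 2) (.ev (nat_lit 1664)
 (nat_lit 33792) (.ev (nat_lit 1677) (nat_lit 131072) .dd)))) (.br (nat_lit 4) (.ch (nat_lit 3) (.ev (nat_lit
 1664) (nat_lit 131072) (.ev (nat_lit 1796) (nat_lit 32768) (.ev (nat_lit 1805) (nat_lit 1024) .dd)))) (.ch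
 (nat_lit 4) (.ev (nat_lit 1664) (nat_lit 1024) (.ev (nat_lit 2036) (nat_lit 131072) (.ev (nat_lit 2045)
 (nat_lit 32768) .dd)))))) (.br (nat_lit 7) (.br (nat_lit 6) (.ch (nat_lit 5) (.ev (nat_lit 1664) (nat_lit
 1024) (.ev (nat_lit 1796) (nat_lit 32768) (.ev (nat_lit 1805) (nat_lit 131072) .dd)))) (.ch (nat_lit 6) (.ev
 (nat_lit 1664) (nat_lit 131072) (.ev (nat_lit 6356) (nat_lit 1024) (.ev (nat_lit 6365) (nat_lit 32768)
 .dd))))) (.br (nat_lit 10) (.ch (nat_lit 7) (.ev (nat_lit 1664) (nat_lit 33792) (.ev (nat_lit 1677) (nat_lit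
 131072) .dd))) (.br (nat_lit 11) (.ch (nat_lit 10) (.ev (nat_lit 1664) (nat_lit 32768) (.ev (nat_lit 2004)
 (nat_lit 131072) (.ev (nat_lit 2013) (nat_lit 1024) .dd)))) (.ch (nat_lit 11) (.ev (nat_lit 1664) (nat_lit
 32768) (.ev (nat_lit 2004) (nat_lit 131072) (.ev (nat_lit 2013) (nat_lit 1024) .dd))))))))))))) (.br (nat_lit
 4) (.ch (nat_lit 3) (.ev (nat_lit 980) (nat_lit 2) (.nd (nat_lit 1648) (.br (nat_lit 7) (.br (nat_lit 4) (.br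
 (nat_lit 2) (.ch (nat_lit 1) (.ev (nat_lit 1664) (nat_lit 196608) (.ev (nat_lit 1780) (nat_lit 32768) (.ev
 (nat_lit 1789) (nat_lit 1024) .dd)))) (.ch (nat_lit 2) (.ev (nat_lit 1664) (nat_lit 131072) (.ev (nat_lit
 1796) (nat_lit 32768) (.ev (nat_lit 7204) (nat_lit 65536) (.ev (nat_lit 7213) (nat_lit 1024) .dd)))))) (.br
 (nat_lit 6) (.ch (nat_lit 4) (.ev (nat_lit 1664) (nat_lit 33792) (.ev (nat_lit 1796) (nat_lit 131072) (.ev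
 (nat_lit 1805) (nat_lit 65536) .dd)))) (.ch (nat_lit 6) (.ev (nat_lit 1780) (nat_lit 32768) (.ev (nat_lit
 6704) (nat_lit 1024) (.ev (nat_lit 6740) (nat_lit 65536) (.ev (nat_lit 6749) (nat_lit 131072) .dd))))))) (.br
 (nat_lit 9) (.br (nat_lit 8) (.ch (nat_lit 7) (.ev (nat_lit 1664) (nat_lit 132096) (.ev (nat_lit 6788)
 (nat_lit 65536) (.ev (nat_lit 6797) (nat_lit 32768) .dd)))) (.ch (nat_lit 8) (.ev (nat_lit 4724) (nat_lit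
 65536) (.ev (nat_lit 5764) (nat_lit 32768) (.ev (nat_lit 6288) (nat_lit 1024) (.ev (nat_lit 6301) (nat_lit
 131072) .dd)))))) (.br (nat_lit 11) (.ch (nat_lit 9) (.ev (nat_lit 1664) (nat_lit 230400) .dd)) (.br (nat_lit
 12) (.ch (nat_lit 11) (.ev (nat_lit 1664) (nat_lit 98304) (.ev (nat_lit 3056) (nat_lit 132096) .dd))) (.ch
 (nat_lit 12) (.ev (nat_lit 1664) (nat_lit 132096) (.ev (nat_lit 1700) (nat_lit 65536) (.ev (nat_lit 1709)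
 (nat_lit 32768) .dd))))))))))) (.ch (nat_lit 4) (.ev (nat_lit 640) (nat_lit 196610) (.nd (nat_lit 1968) (.br
 (nat_lit 3) (.br (nat_lit 2) (.ch (nat_lit 1) (.ev (nat_lit 5088) (nat_lit 33792) .dd)) (.ch (nat_lit 2) (.ev
 (nat_lit 1984) (nat_lit 1024) (.ev (nat_lit 1997) (nat_lit 32768) .dd)))) (.br (nat_lit 5) (.ch (nat_lit 3)
 (.ev (nat_lit 1984) (nat_lit 32768) (.ev (nat_lit 1997) (nat_lit 1024) .dd))) (.br (nat_lit 12) (.ch (nat_lit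
 5) (.ev (nat_lit 1984) (nat_lit 1024) (.ev (nat_lit 1997) (nat_lit 32768) .dd))) (.ch (nat_lit 12) (.ev
 (nat_lit 2740) (nat_lit 1024) (.ev (nat_lit 2749) (nat_lit 32768) .dd))))))))))) (.br (nat_lit 8) (.br
 (nat_lit 7) (.ch (nat_lit 5) (.ev (nat_lit 640) (nat_lit 32768) (.nd (nat_lit 1552) (.br (nat_lit 9) (.br
 (nat_lit 7) (.ch (nat_lit 6) (.ev (nat_lit 3332) (nat_lit 1024) (.ev (nat_lit 3700) (nat_lit 131072) (.ev
 (nat_lit 5668) (nat_lit 65536) (.ev (nat_lit 5677) (nat_lit 2) .dd))))) (.br (nat_lit 8) (.ch (nat_lit 7) (.ev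
 (nat_lit 1568) (nat_lit 131072) (.nd (nat_lit 4592) (.br (nat_lit 5) (.br (nat_lit 1) (.ch (nat_lit 0) (.ev
 (nat_lit 5140) (nat_lit 65536) (.ev (nat_lit 6160) (nat_lit 1026) .dd))) (.ch (nat_lit 1) (.ev (nat_lit 4944)
 (nat_lit 66562) .dd))) (.br (nat_lit 7) (.ch (nat_lit 5) (.ev (nat_lit 4608) (nat_lit 1024) (.ev (nat_lit
 5236) (nat_lit 65536) (.ev (nat_lit 5245) (nat_lit 2) .dd)))) (.br (nat_lit 10) (.ch (nat_lit 7) (.ev (nat_lit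
 4608) (nat_lit 65536) (.ev (nat_lit 5572) (nat_lit 1024) (.ev (nat_lit 5581) (nat_lit 2) .dd)))) (.ch (nat_lit
 10) (.ev (nat_lit 4608) (nat_lit 65536) (.ev (nat_lit 6260) (nat_lit 2) (.ev (nat_lit 6269) (nat_lit 1024)
 .dd)))))))))) (.ch (nat_lit 8) (.ev (nat_lit 1568) (nat_lit 66560) (.ev (nat_lit 1876) (nat_lit 2) (.ev
 (nat_lit 1885) (nat_lit 131072) .dd)))))) (.br (nat_lit 11) (.ch (nat_lit 9) (.ev (nat_lit 2180) (nat_lit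
 131072) (.nd (nat_lit 4864) (.br (nat_lit 7) (.br (nat_lit 5) (.ch (nat_lit 4) (.ev (nat_lit 4880) (nat_lit
 1024) (.ev (nat_lit 4932) (nat_lit 2) (.ev (nat_lit 4941) (nat_lit 65536) .dd)))) (.ch (nat_lit 5) (.ev
 (nat_lit 5188) (nat_lit 65536) (.ev (nat_lit 5492) (nat_lit 2) (.ev (nat_lit 5501) (nat_lit 1024) .dd)))))
 (.br (nat_lit 9) (.ch (nat_lit 7) (.ev (nat_lit 4880) (nat_lit 1024) (.ev (nat_lit 5188) (nat_lit 65536) (.ev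
 (nat_lit 5197) (nat_lit 2) .dd)))) (.br (nat_lit 10) (.ch (nat_lit 9) (.ev (nat_lit 4880) (nat_lit 65536) (.ev
 (nat_lit 6740) (nat_lit 1024) (.ev (nat_lit 6749) (nat_lit 2) .dd)))) (.ch (nat_lit 10) (.ev (nat_lit 4932)
 (nat_lit 2) (.ev (nat_lit 5188) (nat_lit 65536) (.ev (nat_lit 5197) (nat_lit 1024) .dd)))))))))) (.br (nat_lit
 12) (.ch (nat_lit 11) (.ev (nat_lit 1568) (nat_lit 132096) (.ev (nat_lit 4692) (nat_lit 2) (.ev (nat_lit 4701)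
 (nat_lit 65536) .dd)))) (.ch (nat_lit 12) (.ev (nat_lit 1568) (nat_lit 132096) (.ev (nat_lit 6596) (nat_lit 2)
 (.ev (nat_lit 6605) (nat_lit 65536) .dd)))))))))) (.ch (nat_lit 7) (.ev (nat_lit 640) (nat_lit 32768) (.nd
 (nat_lit 1840) (.br (nat_lit 8) (.br (nat_lit 4) (.ch (nat_lit 2) (.ev (nat_lit 1856) (nat_lit 196608) (.ev
 (nat_lit 3220) (nat_lit 2) (.ev (nat_lit 3229) (nat_lit 1024) .dd)))) (.br (nat_lit 6) (.ch (nat_lit 4) (.ev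
 (nat_lit 1856) (nat_lit 131072) (.ev (nat_lit 2948) (nat_lit 1024) (.ev (nat_lit 3220) (nat_lit 2) (.ev
 (nat_lit 3229) (nat_lit 65536) .dd))))) (.ch (nat_lit 6) (.ev (nat_lit 1856) (nat_lit 65536) (.ev (nat_lit
 2164) (nat_lit 2) (.ev (nat_lit 2820) (nat_lit 131072) (.ev (nat_lit 2829) (nat_lit 1024) .dd))))))) (.br
 (nat_lit 11) (.br (nat_lit 9) (.ch (nat_lit 8) (.ev (nat_lit 2164) (nat_lit 2) (.ev (nat_lit 2420) (nat_lit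
 131072) (.ev (nat_lit 3604) (nat_lit 65536) (.ev (nat_lit 3613) (nat_lit 1024) .dd))))) (.ch (nat_lit 9) (.ev
 (nat_lit 1856) (nat_lit 2) (.ev (nat_lit 2820) (nat_lit 65536) (.ev (nat_lit 2868) (nat_lit 131072) (.ev
 (nat_lit 2877) (nat_lit 1024) .dd)))))) (.br (nat_lit 12) (.ch (nat_lit 11) (.ev (nat_lit 1856) (nat_lit
 65538) (.ev (nat_lit 3140) (nat_lit 1024) (.ev (nat_lit 3149) (nat_lit 131072) .dd)))) (.ch (nat_lit 12) (.ev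
 (nat_lit 1856) (nat_lit 132096) (.ev (nat_lit 2948) (nat_lit 65536) (.ev (nat_lit 2957) (nat_lit 2)
 .dd))))))))))) (.br (nat_lit 9) (.ch (nat_lit 8) (.nd (nat_lit 1408) (.br (nat_lit 6) (.br (nat_lit 4) (.br
 (nat_lit 3) (.ch (nat_lit 0) (.ev (nat_lit 1424) (nat_lit 164866) (.ev (nat_lit 1437) (nat_lit 65536) .dd)))
 (.ch (nat_lit 3) (.ev (nat_lit 1424) (nat_lit 230400) (.ev (nat_lit 1437) (nat_lit 2) .dd)))) (.br (nat_lit 5)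
 (.ch (nat_lit 4) (.ev (nat_lit 1424) (nat_lit 163840) (.ev (nat_lit 3188) (nat_lit 65536) (.ev (nat_lit 6020)
 (nat_lit 2) (.ev (nat_lit 6029) (nat_lit 1024) .dd))))) (.ch (nat_lit 5) (.ev (nat_lit 1424) (nat_lit 197632)
 (.ev (nat_lit 1492) (nat_lit 2) (.ev (nat_lit 1501) (nat_lit 32768) .dd)))))) (.br (nat_lit 10) (.br (nat_lit
 8) (.ch (nat_lit 6) (.ev (nat_lit 1424) (nat_lit 66560) (.ev (nat_lit 2004) (nat_lit 131072) (.ev (nat_lit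
 6356) (nat_lit 32768) (.ev (nat_lit 6365) (nat_lit 2) .dd))))) (.ch (nat_lit 8) (.ev (nat_lit 1424) (nat_lit
 132096) (.ev (nat_lit 6692) (nat_lit 65536) (.ev (nat_lit 7028) (nat_lit 2) (.ev (nat_lit 7037) (nat_lit
 32768) .dd)))))) (.br (nat_lit 11) (.ch (nat_lit 10) (.ev (nat_lit 1424) (nat_lit 131074) (.ev (nat_lit 3812)
 (nat_lit 1024) (.ev (nat_lit 5844) (nat_lit 65536) (.ev (nat_lit 5853) (nat_lit 32768) .dd))))) (.br (nat_lit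
 12) (.ch (nat_lit 11) (.ev (nat_lit 1424) (nat_lit 131074) (.nd (nat_lit 7232) (.br (nat_lit 11) (.ch (nat_lit
 4) (.ev (nat_lit 7248) (nat_lit 65536) (.fin (nat_lit 574029173783732021)))) (.ch (nat_lit 11) (.ev (nat_lit
 7620) (nat_lit 1024) (.nd (nat_lit 8608) (.br (nat_lit 8) (.ch (nat_lit 2) (.ev (nat_lit 8624) (nat_lit 98304)
 .dd)) (.ch (nat_lit 8) (.nd (nat_lit 9376) (.br (nat_lit 9) (.ch (nat_lit 5) (.fin (nat_lit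
 576440411311522339))) (.ch (nat_lit 9) (.fin (nat_lit 585695006624801171)))))))))))))) (.ch (nat_lit 12) (.ev
 (nat_lit 1424) (nat_lit 1024) (.ev (nat_lit 4084) (nat_lit 131072) (.ev (nat_lit 6260) (nat_lit 65536) (.ev
 (nat_lit 6868) (nat_lit 32768) (.ev (nat_lit 6877) (nat_lit 2) .dd)))))))))))) (.br (nat_lit 11) (.ch (nat_lit
 9) (.ev (nat_lit 640) (nat_lit 99330) (.ev (nat_lit 653) (nat_lit 131072) .dd))) (.ch (nat_lit 11) (.ev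
 (nat_lit 640) (nat_lit 197632) (.nd (nat_lit 1968) (.br (nat_lit 9) (.br (nat_lit 4) (.ch (nat_lit 0) (.ev
 (nat_lit 3140) (nat_lit 32768) (.ev (nat_lit 3149) (nat_lit 2) .dd))) (.br (nat_lit 7) (.ch (nat_lit 4) (.ev
 (nat_lit 1984) (nat_lit 32768) (.ev (nat_lit 1997) (nat_lit 2) .dd))) (.ch (nat_lit 7) (.ev (nat_lit 1984)
 (nat_lit 2) (.ev (nat_lit 1997) (nat_lit 32768) .dd))))) (.br (nat_lit 10) (.ch (nat_lit 9) (.ev (nat_lit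
 2820) (nat_lit 2) (.ev (nat_lit 2829) (nat_lit 32768) .dd))) (.br (nat_lit 11) (.ch (nat_lit 10) (.ev (nat_lit
 1984) (nat_lit 32770) .dd)) (.ch (nat_lit 11) (.ev (nat_lit 1984) (nat_lit 2) (.ev (nat_lit 1997) (nat_lit
 32768) .dd))))))))))))))))) (.ch (nat_lit 12) (.ev (nat_lit 80) (nat_lit 65538) (.nd (nat_lit 672) (.br
 (nat_lit 5) (.br (nat_lit 3) (.br (nat_lit 1) (.ch (nat_lit 0) (.ev (nat_lit 688) (nat_lit 140288) (.nd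
 (nat_lit 1552) (.br (nat_lit 9) (.br (nat_lit 6) (.br (nat_lit 5) (.ch (nat_lit 3) (.ev (nat_lit 1568)
 (nat_lit 64) (.ev (nat_lit 2868) (nat_lit 256) (.ev (nat_lit 2877) (nat_lit 32768) .dd)))) (.ch (nat_lit 5)
 (.ev (nat_lit 1568) (nat_lit 256) (.ev (nat_lit 5876) (nat_lit 64) (.ev (nat_lit 5885) (nat_lit 32768)
 .dd))))) (.br (nat_lit 8) (.ch (nat_lit 6) (.ev (nat_lit 1568) (nat_lit 256) (.ev (nat_lit 2740) (nat_lit 64)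
 (.ev (nat_lit 2749) (nat_lit 32768) .dd)))) (.ch (nat_lit 8) (.ev (nat_lit 1568) (nat_lit 64) (.ev (nat_lit
 3044) (nat_lit 256) (.ev (nat_lit 3053) (nat_lit 32768) .dd)))))) (.br (nat_lit 11) (.br (nat_lit 10) (.ch
 (nat_lit 9) (.ev (nat_lit 1568) (nat_lit 32832) (.ev (nat_lit 1581) (nat_lit 256) .dd))) (.ch (nat_lit 10)
 (.ev (nat_lit 1568) (nat_lit 32768) (.ev (nat_lit 2164) (nat_lit 256) (.ev (nat_lit 2173) (nat_lit 64)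
 .dd))))) (.br (nat_lit 12) (.ch (nat_lit 11) (.ev (nat_lit 1568) (nat_lit 33024) (.ev (nat_lit 1581) (nat_lit
 64) .dd))) (.ch (nat_lit 12) (.ev (nat_lit 2372) (nat_lit 64) (.ev (nat_lit 6596) (nat_lit 32768) (.ev
 (nat_lit 6605) (nat_lit 256) .dd)))))))))) (.ch (nat_lit 1) (.nd (nat_lit 1264) (.br (nat_lit 6) (.br (nat_lit
 4) (.br (nat_lit 1) (.ch (nat_lit 0) (.ev (nat_lit 1280) (nat_lit 164928) (.ev (nat_lit 2372) (nat_lit 8192)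
 (.ev (nat_lit 2381) (nat_lit 256) .dd)))) (.ch (nat_lit 1) (.ev (nat_lit 1280) (nat_lit 8512) (.ev (nat_lit
 2820) (nat_lit 1024) (.ev (nat_lit 6596) (nat_lit 32768) (.ev (nat_lit 6605) (nat_lit 131072) .dd)))))) (.br
 (nat_lit 5) (.ch (nat_lit 4) (.ev (nat_lit 1280) (nat_lit 42240) (.ev (nat_lit 3812) (nat_lit 131072) (.ev
 (nat_lit 3821) (nat_lit 64) .dd)))) (.ch (nat_lit 5) (.ev (nat_lit 1280) (nat_lit 140608) (.ev (nat_lit 1293)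
 (nat_lit 32768) .dd))))) (.br (nat_lit 9) (.br (nat_lit 7) (.ch (nat_lit 6) (.ev (nat_lit 1280) (nat_lit
 41024) (.ev (nat_lit 2676) (nat_lit 1024) (.ev (nat_lit 6868) (nat_lit 256) (.ev (nat_lit 6877) (nat_lit
 131072) .dd))))) (.ch (nat_lit 7) (.ev (nat_lit 1280) (nat_lit 40960) (.ev (nat_lit 1344) (nat_lit 1088) (.ev
 (nat_lit 3488) (nat_lit 131328) .dd))))) (.br (nat_lit 11) (.ch (nat_lit 9) (.ev (nat_lit 1280) (nat_lit 256)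
 (.ev (nat_lit 2372) (nat_lit 8192) (.ev (nat_lit 2388) (nat_lit 131072) (.ev (nat_lit 6464) (nat_lit 32768)
 (.ev (nat_lit 6740) (nat_lit 64) (.ev (nat_lit 6749) (nat_lit 1024) .dd))))))) (.br (nat_lit 12) (.ch (nat_lit
 11) (.ev (nat_lit 1280) (nat_lit 131072) (.ev (nat_lit 1700) (nat_lit 32768) (.ev (nat_lit 2164) (nat_lit 64)
 (.ev (nat_lit 2372) (nat_lit 1024) (.ev (nat_lit 2788) (nat_lit 8192) (.ev (nat_lit 2797) (nat_lit 256)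
 .dd))))))) (.ch (nat_lit 12) (.ev (nat_lit 1280) (nat_lit 131328) (.ev (nat_lit 1312) (nat_lit 1024) (.ev
 (nat_lit 3540) (nat_lit 8192) (.ev (nat_lit 5968) (nat_lit 64) (.ev (nat_lit 5981) (nat_lit 32768)
 .dd))))))))))))) (.br (nat_lit 4) (.ch (nat_lit 3) (.ev (nat_lit 688) (nat_lit 139264) (.nd (nat_lit 1264)
 (.br (nat_lit 9) (.br (nat_lit 3) (.br (nat_lit 2) (.ch (nat_lit 1) (.ev (nat_lit 1280) (nat_lit 64) (.ev
 (nat_lit 2740) (nat_lit 1024) (.ev (nat_lit 5572) (nat_lit 32768) (.ev (nat_lit 5581) (nat_lit 256) .dd)))))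
 (.ch (nat_lit 2) (.ev (nat_lit 1280) (nat_lit 1280) (.ev (nat_lit 3892) (nat_lit 32768) (.ev (nat_lit 3901)
 (nat_lit 64) .dd))))) (.br (nat_lit 4) (.ch (nat_lit 3) (.ev (nat_lit 1280) (nat_lit 1024) (.nd (nat_lit 3984)
 (.br (nat_lit 8) (.br (nat_lit 2) (.ch (nat_lit 1) (.ev (nat_lit 4000) (nat_lit 64) (.ev (nat_lit 4388)
 (nat_lit 256) (.ev (nat_lit 4397) (nat_lit 32768) .dd)))) (.ch (nat_lit 2) (.ev (nat_lit 6452) (nat_lit 32768)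
 (.fin (nat_lit 576458003504906769))))) (.br (nat_lit 10) (.ch (nat_lit 8) (.ev (nat_lit 4000) (nat_lit 32832)
 (.ev (nat_lit 4013) (nat_lit 256) .dd))) (.ch (nat_lit 10) (.ev (nat_lit 4000) (nat_lit 256) (.ev (nat_lit
 5044) (nat_lit 32768) (.ev (nat_lit 5053) (nat_lit 64) .dd))))))))) (.ch (nat_lit 4) (.ev (nat_lit 1280)
 (nat_lit 32768) (.ev (nat_lit 3520) (nat_lit 64) (.ev (nat_lit 3924) (nat_lit 1024) (.ev (nat_lit 3933)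
 (nat_lit 256) .dd))))))) (.br (nat_lit 11) (.br (nat_lit 10) (.ch (nat_lit 9) (.ev (nat_lit 1280) (nat_lit
 1280) (.nd (nat_lit 4416) (.br (nat_lit 6) (.br (nat_lit 2) (.ch (nat_lit 0) (.ev (nat_lit 4468) (nat_lit
 32768) (.ev (nat_lit 4477) (nat_lit 64) .dd))) (.ch (nat_lit 2) (.ev (nat_lit 4468) (nat_lit 32768) (.ev
 (nat_lit 4477) (nat_lit 64) .dd)))) (.br (nat_lit 12) (.ch (nat_lit 6) (.fin (nat_lit 576290877715464515)))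
 (.ch (nat_lit 12) (.ev (nat_lit 4468) (nat_lit 32768) (.ev (nat_lit 4477) (nat_lit 64) .dd)))))))) (.ch
 (nat_lit 10) (.ev (nat_lit 1280) (nat_lit 32832) (.ev (nat_lit 2196) (nat_lit 256) (.ev (nat_lit 2205)
 (nat_lit 1024) .dd))))) (.br (nat_lit 12) (.ch (nat_lit 11) (.ev (nat_lit 1280) (nat_lit 33856) (.ev (nat_lit
 1293) (nat_lit 256) .dd))) (.ch (nat_lit 12) (.ev (nat_lit 1280) (nat_lit 1088) (.nd (nat_lit 3984) (.br
 (nat_lit 8) (.br (nat_lit 2) (.ch (nat_lit 1) (.ev (nat_lit 4356) (nat_lit 256) (.ev (nat_lit 4365) (nat_lit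
 32768) .dd))) (.br (nat_lit 4) (.ch (nat_lit 2) (.ev (nat_lit 4532) (nat_lit 32768) (.ev (nat_lit 4541)
 (nat_lit 256) .dd))) (.ch (nat_lit 4) (.ev (nat_lit 5044) (nat_lit 256) (.ev (nat_lit 5053) (nat_lit 32768)
 .dd))))) (.br (nat_lit 9) (.ch (nat_lit 8) (.ev (nat_lit 6148) (nat_lit 256) (.ev (nat_lit 6157) (nat_lit
 32768) .dd))) (.br (nat_lit 12) (.ch (nat_lit 9) (.ev (nat_lit 4000) (nat_lit 32768) (.ev (nat_lit 4013)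
 (nat_lit 256) .dd))) (.ch (nat_lit 12) (.ev (nat_lit 4356) (nat_lit 256) (.ev (nat_lit 4365) (nat_lit 32768)
 .dd))))))))))))))) (.ch (nat_lit 4) (.ev (nat_lit 688) (nat_lit 41024) (.ev (nat_lit 820) (nat_lit 131328)
 (.ev (nat_lit 829) (nat_lit 1024) .dd)))))) (.br (nat_lit 7) (.br (nat_lit 6) (.ch (nat_lit 5) (.ev (nat_lit
 688) (nat_lit 1088) (.nd (nat_lit 1264) (.br (nat_lit 6) (.br (nat_lit 2) (.br (nat_lit 1) (.ch (nat_lit 0)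
 (.ev (nat_lit 1280) (nat_lit 164096) (.ev (nat_lit 1293) (nat_lit 8192) .dd))) (.ch (nat_lit 1) (.ev (nat_lit
 1280) (nat_lit 40960) (.ev (nat_lit 2164) (nat_lit 131072) (.ev (nat_lit 2173) (nat_lit 256) .dd))))) (.br
 (nat_lit 5) (.ch (nat_lit 2) (.ev (nat_lit 1280) (nat_lit 139520) (.ev (nat_lit 1293) (nat_lit 32768) .dd)))
 (.ch (nat_lit 5) (.ev (nat_lit 1280) (nat_lit 172032) (.ev (nat_lit 1293) (nat_lit 256) .dd))))) (.br (nat_lit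
 10) (.br (nat_lit 9) (.ch (nat_lit 6) (.ev (nat_lit 1280) (nat_lit 8192) (.ev (nat_lit 6020) (nat_lit 131072)
 (.ev (nat_lit 6260) (nat_lit 256) (.ev (nat_lit 6269) (nat_lit 32768) .dd))))) (.ch (nat_lit 9) (.ev (nat_lit
 1280) (nat_lit 40960) (.ev (nat_lit 2244) (nat_lit 256) (.ev (nat_lit 2253) (nat_lit 131072) .dd))))) (.br
 (nat_lit 11) (.ch (nat_lit 10) (.ev (nat_lit 1280) (nat_lit 256) (.ev (nat_lit 2164) (nat_lit 131072) (.ev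
 (nat_lit 3476) (nat_lit 8192) (.ev (nat_lit 3485) (nat_lit 32768) .dd))))) (.br (nat_lit 12) (.ch (nat_lit 11)
 (.ev (nat_lit 1280) (nat_lit 131072) (.ev (nat_lit 1444) (nat_lit 32768) (.ev (nat_lit 2036) (nat_lit 256)
 (.ev (nat_lit 2045) (nat_lit 8192) .dd))))) (.ch (nat_lit 12) (.ev (nat_lit 1280) (nat_lit 40960) (.ev
 (nat_lit 5924) (nat_lit 256) (.ev (nat_lit 5933) (nat_lit 131072) .dd))))))))))) (.ch (nat_lit 6) (.ev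
 (nat_lit 688) (nat_lit 64) (.ev (nat_lit 1124) (nat_lit 9216) (.nd (nat_lit 1456) (.br (nat_lit 8) (.br
 (nat_lit 1) (.ch (nat_lit 0) (.ev (nat_lit 1472) (nat_lit 32768) (.nd (nat_lit 4224) (.br (nat_lit 5) (.br
 (nat_lit 3) (.ch (nat_lit 0) (.ev (nat_lit 6500) (nat_lit 256) (.ev (nat_lit 6509) (nat_lit 131072) .dd)))
 (.br (nat_lit 4) (.ch (nat_lit 3) (.ev (nat_lit 4240) (nat_lit 131328) .dd)) (.ch (nat_lit 4) (.ev (nat_lit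
 4240) (nat_lit 256) (.ev (nat_lit 4253) (nat_lit 131072) .dd))))) (.br (nat_lit 10) (.br (nat_lit 6) (.ch
 (nat_lit 5) (.nd (nat_lit 8240) (.br (nat_lit 10) (.ch (nat_lit 9) (.nd (nat_lit 9312) (.br (nat_lit 10) (.ch
 (nat_lit 9) (.fin (nat_lit 576361246719689331))) (.ch (nat_lit 10) (.ev (nat_lit 9328) (nat_lit 256) (.ev
 (nat_lit 9341) (nat_lit 131072) .dd)))))) (.ch (nat_lit 10) (.ev (nat_lit 8256) (nat_lit 131072) (.ev (nat_lit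
 8269) (nat_lit 256) .dd)))))) (.ch (nat_lit 6) (.ev (nat_lit 4240) (nat_lit 256) (.ev (nat_lit 4253) (nat_lit
 131072) .dd)))) (.br (nat_lit 12) (.ch (nat_lit 10) (.ev (nat_lit 5456) (nat_lit 131328) .dd)) (.ch (nat_lit
 12) (.ev (nat_lit 4240) (nat_lit 131072) (.ev (nat_lit 4253) (nat_lit 256) .dd))))))))) (.br (nat_lit 5) (.ch
 (nat_lit 1) (.nd (nat_lit 4224) (.br (nat_lit 8) (.br (nat_lit 4) (.ch (nat_lit 0) (.ev (nat_lit 6644)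
 (nat_lit 32768) (.ev (nat_lit 7060) (nat_lit 256) (.ev (nat_lit 7069) (nat_lit 131072) .dd)))) (.ch (nat_lit
 4) (.ev (nat_lit 4240) (nat_lit 256) (.ev (nat_lit 5044) (nat_lit 131072) (.ev (nat_lit 5053) (nat_lit 32768)
 .dd))))) (.br (nat_lit 10) (.ch (nat_lit 8) (.ev (nat_lit 4240) (nat_lit 256) (.ev (nat_lit 4704) (nat_lit
 163840) .dd))) (.br (nat_lit 11) (.ch (nat_lit 10) (.ev (nat_lit 4240) (nat_lit 131072) (.ev (nat_lit 6148)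
 (nat_lit 32768) (.ev (nat_lit 6157) (nat_lit 256) .dd)))) (.ch (nat_lit 11) (.ev (nat_lit 6400) (nat_lit 256)
 (.ev (nat_lit 6596) (nat_lit 32768) (.ev (nat_lit 6605) (nat_lit 131072) .dd))))))))) (.ch (nat_lit 5) (.nd
 (nat_lit 4304) (.br (nat_lit 8) (.br (nat_lit 4) (.ch (nat_lit 1) (.ev (nat_lit 4320) (nat_lit 33024) (.ev
 (nat_lit 4333) (nat_lit 131072) .dd))) (.br (nat_lit 7) (.ch (nat_lit 4) (.ev (nat_lit 4320) (nat_lit 33024)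
 (.ev (nat_lit 4333) (nat_lit 131072) .dd))) (.ch (nat_lit 7) (.ev (nat_lit 4320) (nat_lit 131072) (.ev
 (nat_lit 5728) (nat_lit 33024) .dd))))) (.br (nat_lit 11) (.br (nat_lit 10) (.ch (nat_lit 8) (.ev (nat_lit
 4320) (nat_lit 131328) (.ev (nat_lit 4333) (nat_lit 32768) .dd))) (.ch (nat_lit 10) (.ev (nat_lit 5140)
 (nat_lit 32768) (.ev (nat_lit 6900) (nat_lit 131072) (.ev (nat_lit 6909) (nat_lit 256) .dd))))) (.br (nat_lit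
 12) (.ch (nat_lit 11) (.ev (nat_lit 4320) (nat_lit 33024) (.ev (nat_lit 4333) (nat_lit 131072) .dd))) (.ch
 (nat_lit 12) (.ev (nat_lit 4320) (nat_lit 256) (.fin (nat_lit 576475595755962973))))))))))) (.br (nat_lit 11)
 (.br (nat_lit 10) (.ch (nat_lit 8) (.nd (nat_lit 4304) (.br (nat_lit 7) (.br (nat_lit 2) (.ch (nat_lit 0) (.ev
 (nat_lit 4320) (nat_lit 163840) (.ev (nat_lit 4333) (nat_lit 256) .dd))) (.br (nat_lit 4) (.ch (nat_lit 2)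
 (.ev (nat_lit 4320) (nat_lit 131072) (.fin (nat_lit 576529471760712287)))) (.ch (nat_lit 4) (.ev (nat_lit
 4320) (nat_lit 164096) .dd)))) (.br (nat_lit 10) (.br (nat_lit 9) (.ch (nat_lit 7) (.ev (nat_lit 5888)
 (nat_lit 164096) .dd)) (.ch (nat_lit 9) (.ev (nat_lit 4320) (nat_lit 256) (.ev (nat_lit 5188) (nat_lit 32768)
 (.ev (nat_lit 5197) (nat_lit 131072) .dd))))) (.br (nat_lit 11) (.ch (nat_lit 10) (.ev (nat_lit 4320) (nat_lit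
 131072) (.ev (nat_lit 6272) (nat_lit 33024) .dd))) (.ch (nat_lit 11) (.ev (nat_lit 4320) (nat_lit 131072) (.ev
 (nat_lit 5236) (nat_lit 32768) (.ev (nat_lit 5245) (nat_lit 256) .dd))))))))) (.ch (nat_lit 10) (.ev (nat_lit
 1472) (nat_lit 131328) (.ev (nat_lit 1485) (nat_lit 32768) .dd)))) (.br (nat_lit 12) (.ch (nat_lit 11) (.ev
 (nat_lit 1472) (nat_lit 131072) (.ev (nat_lit 1492) (nat_lit 32768) (.ev (nat_lit 1501) (nat_lit 256) .dd))))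
 (.ch (nat_lit 12) (.ev (nat_lit 1472) (nat_lit 32768) (.nd (nat_lit 4864) (.br (nat_lit 8) (.br (nat_lit 4)
 (.ch (nat_lit 3) (.ev (nat_lit 5680) (nat_lit 131328) .dd)) (.br (nat_lit 6) (.ch (nat_lit 4) (.ev (nat_lit
 4880) (nat_lit 131072) (.ev (nat_lit 4893) (nat_lit 256) .dd))) (.ch (nat_lit 6) (.ev (nat_lit 5728) (nat_lit
 131072) (.ev (nat_lit 5741) (nat_lit 256) .dd))))) (.br (nat_lit 9) (.ch (nat_lit 8) (.ev (nat_lit 4880)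
 (nat_lit 131072) (.ev (nat_lit 4893) (nat_lit 256) .dd))) (.br (nat_lit 10) (.ch (nat_lit 9) (.ev (nat_lit
 6512) (nat_lit 131328) .dd)) (.ch (nat_lit 10) (.ev (nat_lit 4880) (nat_lit 131328) .dd)))))))))))))))) (.br
 (nat_lit 10) (.ch (nat_lit 7) (.ev (nat_lit 688) (nat_lit 34048) (.nd (nat_lit 1968) (.br (nat_lit 7) (.br
 (nat_lit 4) (.br (nat_lit 3) (.ch (nat_lit 1) (.ev (nat_lit 1984) (nat_lit 8192) (.fin (nat_lit
 576449207436001851)))) (.ch (nat_lit 3) (.ev (nat_lit 1984) (nat_lit 8256) (.ev (nat_lit 1997) (nat_lit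
 131072) .dd)))) (.br (nat_lit 5) (.ch (nat_lit 4) (.ev (nat_lit 1984) (nat_lit 64) (.ev (nat_lit 2740)
 (nat_lit 131072) (.ev (nat_lit 2749) (nat_lit 8192) .dd)))) (.ch (nat_lit 5) (.ev (nat_lit 1984) (nat_lit
 131072) (.ev (nat_lit 2164) (nat_lit 8192) (.ev (nat_lit 2173) (nat_lit 64) .dd)))))) (.br (nat_lit 9) (.br
 (nat_lit 8) (.ch (nat_lit 7) (.ev (nat_lit 1984) (nat_lit 64) (.ev (nat_lit 2164) (nat_lit 8192) (.ev (nat_lit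
 2173) (nat_lit 131072) .dd)))) (.ch (nat_lit 8) (.ev (nat_lit 1984) (nat_lit 139264) (.ev (nat_lit 1997)
 (nat_lit 64) .dd)))) (.br (nat_lit 11) (.ch (nat_lit 9) (.ev (nat_lit 1984) (nat_lit 131072) (.ev (nat_lit
 2164) (nat_lit 8192) (.ev (nat_lit 2173) (nat_lit 64) .dd)))) (.br (nat_lit 12) (.ch (nat_lit 11) (.ev
 (nat_lit 1984) (nat_lit 8192) (.ev (nat_lit 2740) (nat_lit 64) (.ev (nat_lit 2749) (nat_lit 131072) .dd))))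
 (.ch (nat_lit 12) (.ev (nat_lit 1984) (nat_lit 139264) (.ev (nat_lit 1997) (nat_lit 64) .dd)))))))))) (.br
 (nat_lit 11) (.ch (nat_lit 10) (.ev (nat_lit 688) (nat_lit 140544) (.nd (nat_lit 1968) (.br (nat_lit 6) (.br
 (nat_lit 4) (.ch (nat_lit 3) (.ev (nat_lit 6644) (nat_lit 64) (.ev (nat_lit 6653) (nat_lit 32768) .dd))) (.br
 (nat_lit 5) (.ch (nat_lit 4) (.ev (nat_lit 1984) (nat_lit 32768) (.ev (nat_lit 1997) (nat_lit 64) .dd))) (.ch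
 (nat_lit 5) (.ev (nat_lit 2740) (nat_lit 64) (.ev (nat_lit 2749) (nat_lit 32768) .dd))))) (.br (nat_lit 8)
 (.ch (nat_lit 6) (.ev (nat_lit 2868) (nat_lit 64) (.ev (nat_lit 2877) (nat_lit 32768) .dd))) (.br (nat_lit 9)
 (.ch (nat_lit 8) (.ev (nat_lit 1984) (nat_lit 32768) (.ev (nat_lit 1997) (nat_lit 64) .dd))) (.ch (nat_lit 9)
 (.ev (nat_lit 1984) (nat_lit 32768) (.ev (nat_lit 1997) (nat_lit 64) .dd))))))))) (.ch (nat_lit 11) (.ev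
 (nat_lit 688) (nat_lit 33088) (.ev (nat_lit 1124) (nat_lit 8192) (.nd (nat_lit 2624) (.br (nat_lit 8) (.ch
 (nat_lit 2) (.ev (nat_lit 3188) (nat_lit 131072) (.ev (nat_lit 3197) (nat_lit 1024) .dd))) (.br (nat_lit 9)
 (.ch (nat_lit 8) (.ev (nat_lit 3044) (nat_lit 131072) (.ev (nat_lit 3053) (nat_lit 1024) .dd))) (.ch (nat_lit
 9) (.ev (nat_lit 3540) (nat_lit 1024) (.ev (nat_lit 3549) (nat_lit 131072) .dd))))))))))))))))))))))) (.ch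
 (nat_lit 1) (.ev (nat_lit 48) (nat_lit 197698) (.nd (nat_lit 480) (.br (nat_lit 6) (.br (nat_lit 2) (.br
 (nat_lit 1) (.ch (nat_lit 0) (.ev (nat_lit 496) (nat_lit 256) (.ev (nat_lit 516) (nat_lit 32768) (.nd (nat_lit
 1008) (.br (nat_lit 9) (.br (nat_lit 4) (.ch (nat_lit 0) (.nd (nat_lit 2336) (.br (nat_lit 5) (.br (nat_lit 4)
 (.ch (nat_lit 2) (.ev (nat_lit 2372) (nat_lit 2048) (.ev (nat_lit 2381) (nat_lit 8192) .dd))) (.ch (nat_lit 4)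
 (.ev (nat_lit 2372) (nat_lit 8192) (.ev (nat_lit 2381) (nat_lit 2048) .dd)))) (.br (nat_lit 8) (.ch (nat_lit
 5) (.ev (nat_lit 6356) (nat_lit 8192) (.ev (nat_lit 6365) (nat_lit 2048) .dd))) (.ch (nat_lit 8) (.ev (nat_lit
 2352) (nat_lit 2048) (.ev (nat_lit 2365) (nat_lit 8192) .dd))))))) (.br (nat_lit 7) (.ch (nat_lit 4) (.nd
 (nat_lit 1552) (.br (nat_lit 2) (.br (nat_lit 1) (.ch (nat_lit 0) (.ev (nat_lit 1568) (nat_lit 8192) (.ev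
 (nat_lit 1581) (nat_lit 2048) .dd))) (.ch (nat_lit 1) (.ev (nat_lit 2180) (nat_lit 2048) (.ev (nat_lit 2189)
 (nat_lit 8192) .dd)))) (.br (nat_lit 3) (.ch (nat_lit 2) (.ev (nat_lit 1568) (nat_lit 2048) (.ev (nat_lit
 1581) (nat_lit 8192) .dd))) (.br (nat_lit 12) (.ch (nat_lit 3) (.ev (nat_lit 2164) (nat_lit 2048) (.ev
 (nat_lit 2173) (nat_lit 8192) .dd))) (.ch (nat_lit 12) (.ev (nat_lit 5604) (nat_lit 8192) (.ev (nat_lit 5613)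
 (nat_lit 2048) .dd)))))))) (.ch (nat_lit 7) (.ev (nat_lit 1124) (nat_lit 2048) (.ev (nat_lit 1133) (nat_lit
 8192) .dd))))) (.br (nat_lit 11) (.br (nat_lit 10) (.ch (nat_lit 9) (.ev (nat_lit 1024) (nat_lit 2048) (.ev
 (nat_lit 1037) (nat_lit 8192) .dd))) (.ch (nat_lit 10) (.ev (nat_lit 1024) (nat_lit 10240) .dd))) (.br
 (nat_lit 12) (.ch (nat_lit 11) (.nd (nat_lit 1648) (.br (nat_lit 4) (.br (nat_lit 2) (.ch (nat_lit 0) (.ev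
 (nat_lit 1876) (nat_lit 2048) (.ev (nat_lit 1885) (nat_lit 8192) .dd))) (.br (nat_lit 3) (.ch (nat_lit 2) (.ev
 (nat_lit 1796) (nat_lit 8192) (.ev (nat_lit 1805) (nat_lit 2048) .dd))) (.ch (nat_lit 3) (.ev (nat_lit 1664)
 (nat_lit 2048) (.ev (nat_lit 1677) (nat_lit 8192) .dd))))) (.br (nat_lit 7) (.br (nat_lit 5) (.ch (nat_lit 4)
 (.ev (nat_lit 6596) (nat_lit 2048) (.ev (nat_lit 6605) (nat_lit 8192) .dd))) (.ch (nat_lit 5) (.ev (nat_lit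
 1876) (nat_lit 2048) (.ev (nat_lit 1885) (nat_lit 8192) .dd)))) (.br (nat_lit 9) (.ch (nat_lit 7) (.ev
 (nat_lit 1664) (nat_lit 10240) .dd)) (.ch (nat_lit 9) (.ev (nat_lit 1664) (nat_lit 2048) (.ev (nat_lit 1677)
 (nat_lit 8192) .dd)))))))) (.ch (nat_lit 12) (.nd (nat_lit 1648) (.br (nat_lit 5) (.br (nat_lit 4) (.ch
 (nat_lit 0) (.nd (nat_lit 4864) (.br (nat_lit 8) (.br (nat_lit 2) (.ch (nat_lit 1) (.ev (nat_lit 5364)
 (nat_lit 8192) (.ev (nat_lit 5373) (nat_lit 2048) .dd))) (.ch (nat_lit 2) (.ev (nat_lit 4932) (nat_lit 8192)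
 (.ev (nat_lit 4941) (nat_lit 2048) .dd)))) (.br (nat_lit 12) (.ch (nat_lit 8) (.ev (nat_lit 4932) (nat_lit
 2048) (.ev (nat_lit 4941) (nat_lit 8192) .dd))) (.ch (nat_lit 12) (.ev (nat_lit 5140) (nat_lit 8192) (.ev
 (nat_lit 5149) (nat_lit 2048) .dd))))))) (.ch (nat_lit 4) (.nd (nat_lit 4864) (.br (nat_lit 9) (.ch (nat_lit
 6) (.ev (nat_lit 5044) (nat_lit 8192) (.ev (nat_lit 5053) (nat_lit 2048) .dd))) (.ch (nat_lit 9) (.ev (nat_lit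
 4932) (nat_lit 8192) (.ev (nat_lit 4941) (nat_lit 2048) .dd))))))) (.br (nat_lit 6) (.ch (nat_lit 5) (.nd
 (nat_lit 4592) (.br (nat_lit 9) (.br (nat_lit 5) (.ch (nat_lit 2) (.ev (nat_lit 5808) (nat_lit 10240) .dd))
 (.ch (nat_lit 5) (.ev (nat_lit 4692) (nat_lit 8192) (.ev (nat_lit 4701) (nat_lit 2048) .dd)))) (.br (nat_lit
 10) (.ch (nat_lit 9) (.ev (nat_lit 4644) (nat_lit 2048) (.ev (nat_lit 4653) (nat_lit 8192) .dd))) (.br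
 (nat_lit 11) (.ch (nat_lit 10) (.ev (nat_lit 5188) (nat_lit 8192) (.ev (nat_lit 5197) (nat_lit 2048) .dd)))
 (.ch (nat_lit 11) (.ev (nat_lit 4644) (nat_lit 2048) (.ev (nat_lit 4653) (nat_lit 8192) .dd)))))))) (.br
 (nat_lit 10) (.ch (nat_lit 6) (.nd (nat_lit 4416) (.br (nat_lit 4) (.ch (nat_lit 0) (.ev (nat_lit 5056)
 (nat_lit 10240) .dd)) (.br (nat_lit 6) (.ch (nat_lit 4) (.ev (nat_lit 6868) (nat_lit 8192) (.ev (nat_lit 6877)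
 (nat_lit 2048) .dd))) (.ch (nat_lit 6) (.ev (nat_lit 4996) (nat_lit 8192) (.ev (nat_lit 5005) (nat_lit 2048)
 .dd))))))) (.ch (nat_lit 10) (.nd (nat_lit 4864) (.br (nat_lit 7) (.ch (nat_lit 5) (.ev (nat_lit 4932)
 (nat_lit 8192) (.ev (nat_lit 4941) (nat_lit 2048) .dd))) (.br (nat_lit 9) (.ch (nat_lit 7) (.ev (nat_lit 4932)
 (nat_lit 8192) (.ev (nat_lit 4941) (nat_lit 2048) .dd))) (.ch (nat_lit 9) (.ev (nat_lit 5236) (nat_lit 8192)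
 (.ev (nat_lit 5245) (nat_lit 2048) .dd))))))))))))))))))) (.ch (nat_lit 1) (.ev (nat_lit 496) (nat_lit 10240)
 (.nd (nat_lit 1264) (.br (nat_lit 7) (.br (nat_lit 3) (.ch (nat_lit 1) (.ev (nat_lit 3604) (nat_lit 32768)
 (.ev (nat_lit 3613) (nat_lit 256) .dd))) (.br (nat_lit 5) (.ch (nat_lit 3) (.ev (nat_lit 1280) (nat_lit 33024)
 .dd)) (.ch (nat_lit 5) (.ev (nat_lit 1300) (nat_lit 32768) (.ev (nat_lit 1309) (nat_lit 256) .dd))))) (.br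
 (nat_lit 10) (.br (nat_lit 8) (.ch (nat_lit 7) (.ev (nat_lit 1280) (nat_lit 256) (.ev (nat_lit 1293) (nat_lit
 32768) .dd))) (.ch (nat_lit 8) (.fin (nat_lit 576497585905680986)))) (.br (nat_lit 11) (.ch (nat_lit 10) (.nd
 (nat_lit 3984) (.br (nat_lit 7) (.br (nat_lit 4) (.ch (nat_lit 0) (.ev (nat_lit 4000) (nat_lit 256) (.ev
 (nat_lit 4013) (nat_lit 32768) .dd))) (.ch (nat_lit 4) (.ev (nat_lit 4000) (nat_lit 32768) (.ev (nat_lit 4013)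
 (nat_lit 256) .dd)))) (.br (nat_lit 8) (.ch (nat_lit 7) (.ev (nat_lit 6260) (nat_lit 32768) (.ev (nat_lit
 6269) (nat_lit 256) .dd))) (.br (nat_lit 9) (.ch (nat_lit 8) (.ev (nat_lit 4000) (nat_lit 256) (.ev (nat_lit
 4013) (nat_lit 32768) .dd))) (.ch (nat_lit 9) (.ev (nat_lit 4000) (nat_lit 256) (.ev (nat_lit 4013) (nat_lit
 32768) .dd)))))))) (.ch (nat_lit 11) (.ev (nat_lit 1280) (nat_lit 32768) (.ev (nat_lit 1293) (nat_lit 256)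
 .dd)))))))))) (.br (nat_lit 3) (.ch (nat_lit 2) (.ev (nat_lit 496) (nat_lit 33024) (.nd (nat_lit 1168) (.br
 (nat_lit 8) (.ch (nat_lit 3) (.nd (nat_lit 2624) (.br (nat_lit 8) (.br (nat_lit 3) (.ch (nat_lit 0) (.ev
 (nat_lit 6356) (nat_lit 2048) (.ev (nat_lit 6365) (nat_lit 8192) .dd))) (.ch (nat_lit 3) (.ev (nat_lit 2676)
 (nat_lit 2048) (.ev (nat_lit 2685) (nat_lit 8192) .dd)))) (.br (nat_lit 11) (.ch (nat_lit 8) (.ev (nat_lit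
 6400) (nat_lit 10240) .dd)) (.ch (nat_lit 11) (.ev (nat_lit 2948) (nat_lit 8192) (.ev (nat_lit 2957) (nat_lit
 2048) .dd))))))) (.br (nat_lit 11) (.ch (nat_lit 8) (.nd (nat_lit 2336) (.br (nat_lit 8) (.br (nat_lit 5) (.ch
 (nat_lit 1) (.ev (nat_lit 5140) (nat_lit 2048) (.ev (nat_lit 5149) (nat_lit 8192) .dd))) (.ch (nat_lit 5) (.ev
 (nat_lit 2688) (nat_lit 10240) .dd))) (.br (nat_lit 11) (.ch (nat_lit 8) (.ev (nat_lit 3844) (nat_lit 8192)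
 (.ev (nat_lit 3853) (nat_lit 2048) .dd))) (.ch (nat_lit 11) (.ev (nat_lit 3220) (nat_lit 8192) (.ev (nat_lit
 3229) (nat_lit 2048) .dd))))))) (.ch (nat_lit 11) (.nd (nat_lit 1968) (.br (nat_lit 9) (.br (nat_lit 2) (.ch
 (nat_lit 1) (.ev (nat_lit 6356) (nat_lit 8192) (.ev (nat_lit 6365) (nat_lit 2048) .dd))) (.ch (nat_lit 2) (.ev
 (nat_lit 2820) (nat_lit 8192) (.ev (nat_lit 2829) (nat_lit 2048) .dd)))) (.br (nat_lit 10) (.ch (nat_lit 9)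
 (.ev (nat_lit 7060) (nat_lit 2048) (.ev (nat_lit 7069) (nat_lit 8192) .dd))) (.br (nat_lit 12) (.ch (nat_lit
 10) (.ev (nat_lit 2084) (nat_lit 8192) (.ev (nat_lit 2093) (nat_lit 2048) .dd))) (.ch (nat_lit 12) (.ev
 (nat_lit 6148) (nat_lit 2048) (.ev (nat_lit 6157) (nat_lit 8192) .dd))))))))))))) (.ch (nat_lit 3) (.ev
 (nat_lit 496) (nat_lit 34816) (.nd (nat_lit 1264) (.br (nat_lit 3) (.br (nat_lit 1) (.ch (nat_lit 0) (.nd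
 (nat_lit 2336) (.br (nat_lit 6) (.br (nat_lit 1) (.ch (nat_lit 0) (.ev (nat_lit 2352) (nat_lit 8192) (.ev
 (nat_lit 2365) (nat_lit 256) .dd))) (.br (nat_lit 5) (.ch (nat_lit 1) (.ev (nat_lit 2372) (nat_lit 8192) (.ev
 (nat_lit 2381) (nat_lit 256) .dd))) (.ch (nat_lit 5) (.ev (nat_lit 3844) (nat_lit 256) (.ev (nat_lit 3853)
 (nat_lit 8192) .dd))))) (.br (nat_lit 8) (.ch (nat_lit 6) (.ev (nat_lit 2352) (nat_lit 256) (.ev (nat_lit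
 2365) (nat_lit 8192) .dd))) (.br (nat_lit 12) (.ch (nat_lit 8) (.ev (nat_lit 2352) (nat_lit 8192) (.ev
 (nat_lit 2365) (nat_lit 256) .dd))) (.ch (nat_lit 12) (.ev (nat_lit 2352) (nat_lit 8192) (.ev (nat_lit 2365)
 (nat_lit 256) .dd)))))))) (.br (nat_lit 2) (.ch (nat_lit 1) (.nd (nat_lit 3408) (.br (nat_lit 2) (.br (nat_lit
 1) (.ch (nat_lit 0) (.ev (nat_lit 6644) (nat_lit 8192) (.ev (nat_lit 6653) (nat_lit 256) .dd))) (.ch (nat_lit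
 1) (.ev (nat_lit 7028) (nat_lit 256) (.ev (nat_lit 7037) (nat_lit 8192) .dd)))) (.br (nat_lit 7) (.ch (nat_lit
 2) (.ev (nat_lit 3424) (nat_lit 8192) (.ev (nat_lit 3437) (nat_lit 256) .dd))) (.br (nat_lit 12) (.ch (nat_lit
 7) (.ev (nat_lit 3424) (nat_lit 256) (.ev (nat_lit 3437) (nat_lit 8192) .dd))) (.ch (nat_lit 12) (.ev (nat_lit
 3476) (nat_lit 8192) (.ev (nat_lit 3485) (nat_lit 256) .dd)))))))) (.ch (nat_lit 2) (.ev (nat_lit 3540)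
 (nat_lit 256) (.ev (nat_lit 3549) (nat_lit 8192) .dd))))) (.br (nat_lit 7) (.br (nat_lit 4) (.ch (nat_lit 3)
 (.ev (nat_lit 1280) (nat_lit 8448) .dd)) (.ch (nat_lit 4) (.ev (nat_lit 1280) (nat_lit 8192) (.ev (nat_lit
 1293) (nat_lit 256) .dd)))) (.br (nat_lit 11) (.ch (nat_lit 7) (.nd (nat_lit 3408) (.br (nat_lit 3) (.br
 (nat_lit 1) (.ch (nat_lit 0) (.ev (nat_lit 3700) (nat_lit 8192) (.ev (nat_lit 3709) (nat_lit 256) .dd))) (.br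
 (nat_lit 2) (.ch (nat_lit 1) (.ev (nat_lit 3424) (nat_lit 256) (.ev (nat_lit 3437) (nat_lit 8192) .dd))) (.ch
 (nat_lit 2) (.ev (nat_lit 5140) (nat_lit 8192) (.ev (nat_lit 5149) (nat_lit 256) .dd))))) (.br (nat_lit 6)
 (.br (nat_lit 5) (.ch (nat_lit 3) (.ev (nat_lit 3424) (nat_lit 8192) (.ev (nat_lit 3437) (nat_lit 256) .dd)))
 (.ch (nat_lit 5) (.ev (nat_lit 3424) (nat_lit 8192) (.ev (nat_lit 3437) (nat_lit 256) .dd)))) (.br (nat_lit 9)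
 (.ch (nat_lit 6) (.ev (nat_lit 3424) (nat_lit 256) (.ev (nat_lit 3437) (nat_lit 8192) .dd))) (.ch (nat_lit 9)
 (.ev (nat_lit 3476) (nat_lit 8192) (.ev (nat_lit 3485) (nat_lit 256) .dd)))))))) (.ch (nat_lit 11) (.ev
 (nat_lit 1280) (nat_lit 8448) .dd)))))))))) (.br (nat_lit 9) (.br (nat_lit 8) (.ch (nat_lit 6) (.nd (nat_lit
 1008) (.br (nat_lit 6) (.br (nat_lit 4) (.br (nat_lit 3) (.ch (nat_lit 2) (.ev (nat_lit 1024) (nat_lit 35072)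
 (.ev (nat_lit 1037) (nat_lit 8192) .dd))) (.ch (nat_lit 3) (.nd (nat_lit 1968) (.br (nat_lit 7) (.br (nat_lit
 2) (.ch (nat_lit 0) (.ev (nat_lit 1984) (nat_lit 2048) (.ev (nat_lit 2820) (nat_lit 32768) (.ev (nat_lit 4052)
 (nat_lit 256) (.ev (nat_lit 4061) (nat_lit 8192) .dd))))) (.br (nat_lit 3) (.ch (nat_lit 2) (.ev (nat_lit
 2164) (nat_lit 256) (.ev (nat_lit 3892) (nat_lit 2048) (.ev (nat_lit 6596) (nat_lit 32768) (.ev (nat_lit 6605)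
 (nat_lit 8192) .dd))))) (.ch (nat_lit 3) (.ev (nat_lit 1984) (nat_lit 10496) (.ev (nat_lit 1997) (nat_lit
 32768) .dd))))) (.br (nat_lit 10) (.br (nat_lit 9) (.ch (nat_lit 7) (.ev (nat_lit 1984) (nat_lit 33024) (.ev
 (nat_lit 2004) (nat_lit 2048) (.ev (nat_lit 2013) (nat_lit 8192) .dd)))) (.ch (nat_lit 9) (.ev (nat_lit 1984)
 (nat_lit 40960) (.fin (nat_lit 576544864834372258))))) (.br (nat_lit 11) (.ch (nat_lit 10) (.ev (nat_lit 1984)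
 (nat_lit 8192) (.ev (nat_lit 2004) (nat_lit 2048) (.ev (nat_lit 2900) (nat_lit 256) (.ev (nat_lit 2909)
 (nat_lit 32768) .dd))))) (.ch (nat_lit 11) (.ev (nat_lit 2004) (nat_lit 8192) (.ev (nat_lit 2036) (nat_lit
 32768) (.ev (nat_lit 2788) (nat_lit 2048) (.ev (nat_lit 2797) (nat_lit 256) .dd))))))))))) (.br (nat_lit 5)
 (.ch (nat_lit 4) (.ev (nat_lit 1024) (nat_lit 256) (.nd (nat_lit 2128) (.br (nat_lit 9) (.br (nat_lit 8) (.ch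
 (nat_lit 2) (.ev (nat_lit 2164) (nat_lit 10240) (.ev (nat_lit 2173) (nat_lit 32768) .dd))) (.ch (nat_lit 8)
 (.ev (nat_lit 2144) (nat_lit 8192) (.ev (nat_lit 7108) (nat_lit 2048) (.ev (nat_lit 7117) (nat_lit 32768)
 .dd))))) (.br (nat_lit 10) (.ch (nat_lit 9) (.ev (nat_lit 2144) (nat_lit 32768) (.fin (nat_lit
 576775762496406263)))) (.br (nat_lit 12) (.ch (nat_lit 10) (.ev (nat_lit 2144) (nat_lit 8192) (.ev (nat_lit
 3604) (nat_lit 2048) (.ev (nat_lit 3613) (nat_lit 32768) .dd)))) (.ch (nat_lit 12) (.ev (nat_lit 2144)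
 (nat_lit 8192) (.ev (nat_lit 2912) (nat_lit 34816) .dd))))))))) (.ch (nat_lit 5) (.nd (nat_lit 1744) (.br
 (nat_lit 5) (.br (nat_lit 3) (.br (nat_lit 2) (.ch (nat_lit 1) (.ev (nat_lit 1760) (nat_lit 40960) (.ev
 (nat_lit 2820) (nat_lit 256) (.ev (nat_lit 2829) (nat_lit 2048) .dd)))) (.ch (nat_lit 2) (.ev (nat_lit 2372)
 (nat_lit 256) (.ev (nat_lit 2484) (nat_lit 32768) (.nd (nat_lit 4592) (.br (nat_lit 3) (.br (nat_lit 2) (.ch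
 (nat_lit 1) (.ev (nat_lit 4644) (nat_lit 2048) (.ev (nat_lit 4653) (nat_lit 8192) .dd))) (.ch (nat_lit 2) (.ev
 (nat_lit 6260) (nat_lit 8192) (.ev (nat_lit 6269) (nat_lit 2048) .dd)))) (.br (nat_lit 7) (.ch (nat_lit 3)
 (.ev (nat_lit 4644) (nat_lit 2048) (.ev (nat_lit 4653) (nat_lit 8192) .dd))) (.br (nat_lit 10) (.ch (nat_lit
 7) (.ev (nat_lit 4644) (nat_lit 2048) (.ev (nat_lit 4653) (nat_lit 8192) .dd))) (.ch (nat_lit 10) (.ev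
 (nat_lit 4724) (nat_lit 8192) (.ev (nat_lit 4733) (nat_lit 2048) .dd))))))))))) (.br (nat_lit 4) (.ch (nat_lit
 3) (.ev (nat_lit 4164) (nat_lit 256) (.nd (nat_lit 4416) (.br (nat_lit 7) (.br (nat_lit 3) (.br (nat_lit 1)
 (.ch (nat_lit 0) (.ev (nat_lit 4432) (nat_lit 10240) (.ev (nat_lit 4445) (nat_lit 32768) .dd))) (.ch (nat_lit
 1) (.ev (nat_lit 4432) (nat_lit 32768) (.fin (nat_lit 576561357835944654))))) (.br (nat_lit 4) (.ch (nat_lit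
 3) (.ev (nat_lit 4432) (nat_lit 8192) (.ev (nat_lit 4996) (nat_lit 32768) (.ev (nat_lit 5005) (nat_lit 2048)
 .dd)))) (.ch (nat_lit 4) (.ev (nat_lit 4432) (nat_lit 32768) (.ev (nat_lit 4468) (nat_lit 8192) (.ev (nat_lit
 4477) (nat_lit 2048) .dd)))))) (.br (nat_lit 11) (.br (nat_lit 8) (.ch (nat_lit 7) (.ev (nat_lit 4852)
 (nat_lit 8192) (.ev (nat_lit 4996) (nat_lit 32768) (.ev (nat_lit 5005) (nat_lit 2048) .dd)))) (.ch (nat_lit 8)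
 (.ev (nat_lit 4432) (nat_lit 2048) (.fin (nat_lit 576324963861478600))))) (.br (nat_lit 12) (.ch (nat_lit 11)
 (.ev (nat_lit 4432) (nat_lit 8192) (.ev (nat_lit 4644) (nat_lit 32768) (.ev (nat_lit 4653) (nat_lit 2048)
 .dd)))) (.ch (nat_lit 12) (.ev (nat_lit 4432) (nat_lit 32768) (.ev (nat_lit 4532) (nat_lit 2048) (.ev (nat_lit
 4541) (nat_lit 8192) .dd)))))))))) (.ch (nat_lit 4) (.ev (nat_lit 1760) (nat_lit 33024) (.ev (nat_lit 3892)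
 (nat_lit 8192) (.ev (nat_lit 3901) (nat_lit 2048) .dd)))))) (.br (nat_lit 8) (.br (nat_lit 7) (.ch (nat_lit 5)
 (.ev (nat_lit 1760) (nat_lit 2304) (.ev (nat_lit 6260) (nat_lit 8192) (.ev (nat_lit 6269) (nat_lit 32768)
 .dd)))) (.ch (nat_lit 7) (.ev (nat_lit 1760) (nat_lit 8192) (.ev (nat_lit 5604) (nat_lit 32768) (.ev (nat_lit
 5876) (nat_lit 2048) (.ev (nat_lit 5885) (nat_lit 256) .dd)))))) (.br (nat_lit 10) (.ch (nat_lit 8) (.ev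
 (nat_lit 1760) (nat_lit 2304) (.ev (nat_lit 2452) (nat_lit 32768) (.ev (nat_lit 2461) (nat_lit 8192) .dd))))
 (.ch (nat_lit 10) (.ev (nat_lit 1760) (nat_lit 40960) (.ev (nat_lit 5604) (nat_lit 256) (.ev (nat_lit 5613)
 (nat_lit 2048) .dd))))))))))) (.br (nat_lit 8) (.br (nat_lit 7) (.ch (nat_lit 6) (.ev (nat_lit 1024) (nat_lit
 40960) (.nd (nat_lit 1968) (.br (nat_lit 3) (.br (nat_lit 2) (.ch (nat_lit 1) (.ev (nat_lit 6900) (nat_lit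
 256) (.ev (nat_lit 6909) (nat_lit 2048) .dd))) (.ch (nat_lit 2) (.ev (nat_lit 3604) (nat_lit 256) (.ev
 (nat_lit 3613) (nat_lit 2048) .dd)))) (.br (nat_lit 7) (.ch (nat_lit 3) (.ev (nat_lit 5716) (nat_lit 256) (.ev
 (nat_lit 5725) (nat_lit 2048) .dd))) (.br (nat_lit 10) (.ch (nat_lit 7) (.ev (nat_lit 2464) (nat_lit 2304)
 .dd)) (.ch (nat_lit 10) (.ev (nat_lit 2004) (nat_lit 2048) (.ev (nat_lit 2013) (nat_lit 256) .dd))))))))) (.ch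
 (nat_lit 7) (.ev (nat_lit 1024) (nat_lit 10240) (.ev (nat_lit 1044) (nat_lit 32768) (.ev (nat_lit 1053)
 (nat_lit 256) .dd))))) (.br (nat_lit 9) (.ch (nat_lit 8) (.ev (nat_lit 1024) (nat_lit 40960) (.ev (nat_lit
 1204) (nat_lit 256) (.ev (nat_lit 1213) (nat_lit 2048) .dd)))) (.br (nat_lit 12) (.ch (nat_lit 9) (.ev
 (nat_lit 1024) (nat_lit 2304) (.nd (nat_lit 2336) (.br (nat_lit 9) (.ch (nat_lit 6) (.ev (nat_lit 2388)
 (nat_lit 32768) (.ev (nat_lit 2397) (nat_lit 8192) .dd))) (.br (nat_lit 12) (.ch (nat_lit 9) (.ev (nat_lit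
 6596) (nat_lit 8192) (.ev (nat_lit 6605) (nat_lit 32768) .dd))) (.ch (nat_lit 12) (.ev (nat_lit 2372) (nat_lit
 32768) (.ev (nat_lit 2381) (nat_lit 8192) .dd)))))))) (.ch (nat_lit 12) (.nd (nat_lit 1840) (.br (nat_lit 6)
 (.br (nat_lit 3) (.br (nat_lit 2) (.ch (nat_lit 1) (.ev (nat_lit 1856) (nat_lit 32768) (.ev (nat_lit 6356)
 (nat_lit 8448) (.ev (nat_lit 6365) (nat_lit 2048) .dd)))) (.ch (nat_lit 2) (.ev (nat_lit 1856) (nat_lit 2048)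
 (.ev (nat_lit 3012) (nat_lit 256) (.ev (nat_lit 4996) (nat_lit 8192) (.ev (nat_lit 5005) (nat_lit 32768)
 .dd)))))) (.br (nat_lit 5) (.ch (nat_lit 3) (.ev (nat_lit 1856) (nat_lit 10240) (.ev (nat_lit 2948) (nat_lit
 256) (.ev (nat_lit 2957) (nat_lit 32768) .dd)))) (.ch (nat_lit 5) (.ev (nat_lit 1856) (nat_lit 8448) (.ev
 (nat_lit 2868) (nat_lit 2048) (.ev (nat_lit 2877) (nat_lit 32768) .dd)))))) (.br (nat_lit 10) (.br (nat_lit 7)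
 (.ch (nat_lit 6) (.ev (nat_lit 1856) (nat_lit 33024) (.ev (nat_lit 5604) (nat_lit 2048) (.ev (nat_lit 5613)
 (nat_lit 8192) .dd)))) (.ch (nat_lit 7) (.ev (nat_lit 1856) (nat_lit 256) (.ev (nat_lit 2004) (nat_lit 2048)
 (.ev (nat_lit 5844) (nat_lit 32768) (.ev (nat_lit 5853) (nat_lit 8192) .dd)))))) (.br (nat_lit 11) (.ch
 (nat_lit 10) (.ev (nat_lit 1856) (nat_lit 41216) (.ev (nat_lit 1869) (nat_lit 2048) .dd))) (.ch (nat_lit 11)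
 (.ev (nat_lit 1856) (nat_lit 2048) (.ev (nat_lit 3652) (nat_lit 256) (.nd (nat_lit 4864) (.br (nat_lit 10)
 (.br (nat_lit 4) (.ch (nat_lit 3) (.ev (nat_lit 6260) (nat_lit 32768) (.ev (nat_lit 6269) (nat_lit 8192)
 .dd))) (.ch (nat_lit 4) (.ev (nat_lit 4880) (nat_lit 8192) (.ev (nat_lit 4893) (nat_lit 32768) .dd)))) (.br
 (nat_lit 12) (.ch (nat_lit 10) (.ev (nat_lit 5492) (nat_lit 8192) (.ev (nat_lit 5501) (nat_lit 32768) .dd)))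
 (.ch (nat_lit 12) (.ev (nat_lit 4932) (nat_lit 8192) (.ev (nat_lit 4941) (nat_lit 32768)
 .dd)))))))))))))))))))) (.ch (nat_lit 8) (.ev (nat_lit 496) (nat_lit 40960) (.nd (nat_lit 1168) (.br (nat_lit
 6) (.br (nat_lit 5) (.ch (nat_lit 4) (.ev (nat_lit 1300) (nat_lit 2048) (.ev (nat_lit 1309) (nat_lit 256)
 .dd))) (.ch (nat_lit 5) (.nd (nat_lit 3408) (.br (nat_lit 10) (.br (nat_lit 8) (.ch (nat_lit 4) (.ev (nat_lit
 4020) (nat_lit 256) (.ev (nat_lit 4029) (nat_lit 2048) .dd))) (.ch (nat_lit 8) (.ev (nat_lit 3616) (nat_lit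
 2304) .dd))) (.br (nat_lit 12) (.ch (nat_lit 10) (.ev (nat_lit 3856) (nat_lit 2304) .dd)) (.ch (nat_lit 12)
 (.ev (nat_lit 3712) (nat_lit 2304) .dd))))))) (.br (nat_lit 10) (.ch (nat_lit 6) (.fin (nat_lit
 576461302051324458))) (.ch (nat_lit 10) (.nd (nat_lit 3408) (.br (nat_lit 8) (.ch (nat_lit 7) (.ev (nat_lit
 4020) (nat_lit 256) (.ev (nat_lit 4029) (nat_lit 2048) .dd))) (.ch (nat_lit 8) (.ev (nat_lit 4020) (nat_lit
 2048) (.ev (nat_lit 4029) (nat_lit 256) .dd)))))))))))) (.br (nat_lit 10) (.ch (nat_lit 9) (.ev (nat_lit 496)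
 (nat_lit 10240) (.nd (nat_lit 1168) (.br (nat_lit 4) (.br (nat_lit 1) (.ch (nat_lit 0) (.ev (nat_lit 1184)
 (nat_lit 256) (.ev (nat_lit 1197) (nat_lit 32768) .dd))) (.br (nat_lit 2) (.ch (nat_lit 1) (.nd (nat_lit 3408)
 (.br (nat_lit 7) (.br (nat_lit 5) (.ch (nat_lit 1) (.ev (nat_lit 3476) (nat_lit 32768) (.ev (nat_lit 3485)
 (nat_lit 256) .dd))) (.ch (nat_lit 5) (.ev (nat_lit 3956) (nat_lit 32768) (.ev (nat_lit 3965) (nat_lit 256)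
 .dd)))) (.br (nat_lit 10) (.ch (nat_lit 7) (.ev (nat_lit 3476) (nat_lit 32768) (.ev (nat_lit 3485) (nat_lit
 256) .dd))) (.ch (nat_lit 10) (.ev (nat_lit 6692) (nat_lit 256) (.ev (nat_lit 6701) (nat_lit 32768) .dd)))))))
 (.ch (nat_lit 2) (.ev (nat_lit 1184) (nat_lit 32768) (.ev (nat_lit 1197) (nat_lit 256) .dd))))) (.br (nat_lit
 7) (.br (nat_lit 6) (.ch (nat_lit 4) (.ev (nat_lit 1184) (nat_lit 32768) (.ev (nat_lit 1197) (nat_lit 256)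
 .dd))) (.ch (nat_lit 6) (.ev (nat_lit 1332) (nat_lit 32768) (.ev (nat_lit 1341) (nat_lit 256) .dd)))) (.br
 (nat_lit 11) (.ch (nat_lit 7) (.ev (nat_lit 1332) (nat_lit 32768) (.ev (nat_lit 1341) (nat_lit 256) .dd)))
 (.ch (nat_lit 11) (.ev (nat_lit 2868) (nat_lit 32768) (.ev (nat_lit 2877) (nat_lit 256) .dd))))))))) (.br
 (nat_lit 12) (.ch (nat_lit 10) (.nd (nat_lit 944) (.br (nat_lit 6) (.br (nat_lit 3) (.br (nat_lit 1) (.ch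
 (nat_lit 0) (.ev (nat_lit 960) (nat_lit 32768) (.nd (nat_lit 1552) (.br (nat_lit 9) (.br (nat_lit 5) (.br
 (nat_lit 4) (.ch (nat_lit 2) (.ev (nat_lit 1568) (nat_lit 8192) (.ev (nat_lit 3300) (nat_lit 2048) (.ev
 (nat_lit 3309) (nat_lit 256) .dd)))) (.ch (nat_lit 4) (.ev (nat_lit 2036) (nat_lit 256) (.ev (nat_lit 2244)
 (nat_lit 2048) (.ev (nat_lit 2253) (nat_lit 8192) .dd))))) (.br (nat_lit 7) (.ch (nat_lit 5) (.nd (nat_lit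
 4224) (.br (nat_lit 8) (.br (nat_lit 4) (.ch (nat_lit 0) (.ev (nat_lit 4240) (nat_lit 2048) (.ev (nat_lit
 6260) (nat_lit 8192) (.ev (nat_lit 6269) (nat_lit 256) .dd)))) (.ch (nat_lit 4) (.ev (nat_lit 4240) (nat_lit
 8192) (.ev (nat_lit 5744) (nat_lit 2304) .dd)))) (.br (nat_lit 11) (.ch (nat_lit 8) (.ev (nat_lit 6740)
 (nat_lit 8192) (.fin (nat_lit 576774662901941480)))) (.ch (nat_lit 11) (.ev (nat_lit 4240) (nat_lit 2048) (.ev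
 (nat_lit 4500) (nat_lit 8192) (.ev (nat_lit 4509) (nat_lit 256) .dd)))))))) (.ch (nat_lit 7) (.ev (nat_lit
 5152) (nat_lit 8192) (.ev (nat_lit 5540) (nat_lit 256) (.ev (nat_lit 5549) (nat_lit 2048) .dd)))))) (.br
 (nat_lit 11) (.br (nat_lit 10) (.ch (nat_lit 9) (.ev (nat_lit 1568) (nat_lit 2304) (.ev (nat_lit 1581)
 (nat_lit 8192) .dd))) (.ch (nat_lit 10) (.ev (nat_lit 1568) (nat_lit 8448) (.ev (nat_lit 1581) (nat_lit 2048)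
 .dd)))) (.br (nat_lit 12) (.ch (nat_lit 11) (.ev (nat_lit 1568) (nat_lit 8448) (.ev (nat_lit 1581) (nat_lit
 2048) .dd))) (.ch (nat_lit 12) (.ev (nat_lit 1568) (nat_lit 2048) (.ev (nat_lit 3044) (nat_lit 256) (.ev
 (nat_lit 3053) (nat_lit 8192) .dd)))))))))) (.ch (nat_lit 1) (.ev (nat_lit 960) (nat_lit 33024) (.nd (nat_lit
 1840) (.br (nat_lit 7) (.br (nat_lit 5) (.ch (nat_lit 3) (.ev (nat_lit 3188) (nat_lit 8192) (.ev (nat_lit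
 3197) (nat_lit 2048) .dd))) (.ch (nat_lit 5) (.ev (nat_lit 6976) (nat_lit 10240) .dd))) (.br (nat_lit 10) (.ch
 (nat_lit 7) (.nd (nat_lit 4864) (.br (nat_lit 6) (.br (nat_lit 4) (.ch (nat_lit 3) (.ev (nat_lit 6192)
 (nat_lit 10240) .dd)) (.ch (nat_lit 4) (.ev (nat_lit 4996) (nat_lit 8192) (.ev (nat_lit 5005) (nat_lit 2048)
 .dd)))) (.br (nat_lit 8) (.ch (nat_lit 6) (.ev (nat_lit 5604) (nat_lit 8192) (.ev (nat_lit 5613) (nat_lit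
 2048) .dd))) (.ch (nat_lit 8) (.ev (nat_lit 4996) (nat_lit 8192) (.ev (nat_lit 5005) (nat_lit 2048) .dd)))))))
 (.ch (nat_lit 10) (.ev (nat_lit 1876) (nat_lit 2048) (.ev (nat_lit 1885) (nat_lit 8192) .dd))))))))) (.br
 (nat_lit 5) (.ch (nat_lit 3) (.ev (nat_lit 960) (nat_lit 33024) (.nd (nat_lit 1968) (.br (nat_lit 5) (.ch
 (nat_lit 3) (.ev (nat_lit 3652) (nat_lit 8192) (.ev (nat_lit 3661) (nat_lit 2048) .dd))) (.br (nat_lit 6) (.ch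
 (nat_lit 5) (.ev (nat_lit 2004) (nat_lit 2048) (.ev (nat_lit 2013) (nat_lit 8192) .dd))) (.ch (nat_lit 6) (.ev
 (nat_lit 6452) (nat_lit 2048) (.ev (nat_lit 6461) (nat_lit 8192) .dd)))))))) (.ch (nat_lit 5) (.ev (nat_lit
 960) (nat_lit 256) (.nd (nat_lit 1840) (.br (nat_lit 4) (.br (nat_lit 3) (.ch (nat_lit 1) (.ev (nat_lit 1856)
 (nat_lit 32768) (.ev (nat_lit 2788) (nat_lit 8192) (.ev (nat_lit 2797) (nat_lit 2048) .dd)))) (.ch (nat_lit 3)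
 (.ev (nat_lit 1856) (nat_lit 32768) (.ev (nat_lit 2180) (nat_lit 2048) (.ev (nat_lit 2189) (nat_lit 8192)
 .dd))))) (.br (nat_lit 6) (.ch (nat_lit 4) (.ev (nat_lit 1856) (nat_lit 8192) (.ev (nat_lit 3540) (nat_lit
 32768) (.ev (nat_lit 3549) (nat_lit 2048) .dd)))) (.br (nat_lit 9) (.ch (nat_lit 6) (.ev (nat_lit 2004)
 (nat_lit 2048) (.fin (nat_lit 576448107957928504)))) (.ch (nat_lit 9) (.ev (nat_lit 1856) (nat_lit 34816) (.ev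
 (nat_lit 1869) (nat_lit 8192) .dd))))))))))) (.br (nat_lit 8) (.br (nat_lit 7) (.ch (nat_lit 6) (.ev (nat_lit
 960) (nat_lit 8448) (.nd (nat_lit 2336) (.br (nat_lit 1) (.ch (nat_lit 0) (.ev (nat_lit 4084) (nat_lit 32768)
 (.ev (nat_lit 4093) (nat_lit 2048) .dd))) (.br (nat_lit 6) (.ch (nat_lit 1) (.ev (nat_lit 2352) (nat_lit 2048)
 (.ev (nat_lit 2365) (nat_lit 32768) .dd))) (.ch (nat_lit 6) (.ev (nat_lit 2352) (nat_lit 32768) (.ev (nat_lit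
 2365) (nat_lit 2048) .dd)))))))) (.ch (nat_lit 7) (.ev (nat_lit 960) (nat_lit 40960) (.ev (nat_lit 1140)
 (nat_lit 2048) (.ev (nat_lit 1149) (nat_lit 256) .dd))))) (.br (nat_lit 10) (.ch (nat_lit 8) (.ev (nat_lit
 960) (nat_lit 2048) (.nd (nat_lit 1552) (.br (nat_lit 8) (.br (nat_lit 4) (.ch (nat_lit 0) (.ev (nat_lit 3540)
 (nat_lit 32768) (.ev (nat_lit 6512) (nat_lit 8448) .dd))) (.br (nat_lit 5) (.ch (nat_lit 4) (.ev (nat_lit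
 1568) (nat_lit 32768) (.nd (nat_lit 4224) (.br (nat_lit 10) (.ch (nat_lit 4) (.ev (nat_lit 6368) (nat_lit
 8448) .dd)) (.br (nat_lit 11) (.ch (nat_lit 10) (.ev (nat_lit 6512) (nat_lit 8448) .dd)) (.ch (nat_lit 11)
 (.ev (nat_lit 6692) (nat_lit 256) (.ev (nat_lit 6701) (nat_lit 8192) .dd)))))))) (.ch (nat_lit 5) (.ev
 (nat_lit 1568) (nat_lit 8448) (.ev (nat_lit 1581) (nat_lit 32768) .dd))))) (.br (nat_lit 10) (.br (nat_lit 9)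
 (.ch (nat_lit 8) (.ev (nat_lit 1568) (nat_lit 32768) (.ev (nat_lit 2688) (nat_lit 256) (.ev (nat_lit 2701)
 (nat_lit 8192) .dd)))) (.ch (nat_lit 9) (.ev (nat_lit 1568) (nat_lit 256) (.ev (nat_lit 3012) (nat_lit 8192)
 (.ev (nat_lit 3021) (nat_lit 32768) .dd))))) (.br (nat_lit 11) (.ch (nat_lit 10) (.nd (nat_lit 4304) (.br
 (nat_lit 4) (.ch (nat_lit 0) (.ev (nat_lit 4320) (nat_lit 256) (.ev (nat_lit 4692) (nat_lit 8192) (.ev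
 (nat_lit 4701) (nat_lit 32768) .dd)))) (.br (nat_lit 7) (.ch (nat_lit 4) (.ev (nat_lit 4320) (nat_lit 256)
 (.ev (nat_lit 5984) (nat_lit 40960) .dd))) (.ch (nat_lit 7) (.ev (nat_lit 4320) (nat_lit 32768) (.ev (nat_lit
 6148) (nat_lit 8192) (.ev (nat_lit 6157) (nat_lit 256) .dd)))))))) (.ch (nat_lit 11) (.ev (nat_lit 1568)
 (nat_lit 32768) (.nd (nat_lit 4224) (.br (nat_lit 8) (.ch (nat_lit 7) (.fin (nat_lit 576770264450679904)))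
 (.ch (nat_lit 8) (.ev (nat_lit 6272) (nat_lit 8448) .dd)))))))))))) (.br (nat_lit 12) (.ch (nat_lit 10) (.ev
 (nat_lit 960) (nat_lit 10240) (.nd (nat_lit 1968) (.br (nat_lit 5) (.ch (nat_lit 1) (.ev (nat_lit 2004)
 (nat_lit 256) (.ev (nat_lit 2013) (nat_lit 32768) .dd))) (.ch (nat_lit 5) (.ev (nat_lit 3220) (nat_lit 32768)
 (.ev (nat_lit 3229) (nat_lit 256) .dd))))))) (.ch (nat_lit 12) (.ev (nat_lit 960) (nat_lit 34816) (.nd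
 (nat_lit 1648) (.br (nat_lit 8) (.br (nat_lit 7) (.ch (nat_lit 5) (.ev (nat_lit 3616) (nat_lit 8448) .dd))
 (.ch (nat_lit 7) (.ev (nat_lit 1664) (nat_lit 8192) (.ev (nat_lit 1677) (nat_lit 256) .dd)))) (.br (nat_lit
 10) (.ch (nat_lit 8) (.ev (nat_lit 5236) (nat_lit 256) (.ev (nat_lit 5245) (nat_lit 8192) .dd))) (.ch (nat_lit
 10) (.fin (nat_lit 576463501093454375)))))))))))))) (.ch (nat_lit 12) (.ev (nat_lit 496) (nat_lit 256) (.nd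
 (nat_lit 1088) (.br (nat_lit 8) (.br (nat_lit 3) (.br (nat_lit 2) (.ch (nat_lit 1) (.ev (nat_lit 1104)
 (nat_lit 8192) (.ev (nat_lit 1204) (nat_lit 2048) (.ev (nat_lit 1213) (nat_lit 32768) .dd)))) (.ch (nat_lit 2)
 (.nd (nat_lit 1744) (.br (nat_lit 5) (.br (nat_lit 2) (.ch (nat_lit 1) (.ev (nat_lit 1760) (nat_lit 2048)
 (.fin (nat_lit 576479993409257426)))) (.br (nat_lit 3) (.ch (nat_lit 2) (.ev (nat_lit 2688) (nat_lit 2048)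
 (.ev (nat_lit 3540) (nat_lit 32768) (.ev (nat_lit 3549) (nat_lit 8192) .dd)))) (.ch (nat_lit 3) (.ev (nat_lit
 1760) (nat_lit 8192) (.ev (nat_lit 2800) (nat_lit 34816) .dd))))) (.br (nat_lit 10) (.br (nat_lit 7) (.ch
 (nat_lit 5) (.ev (nat_lit 1760) (nat_lit 32768) (.ev (nat_lit 3812) (nat_lit 8192) (.ev (nat_lit 3821)
 (nat_lit 2048) .dd)))) (.ch (nat_lit 7) (.ev (nat_lit 1760) (nat_lit 8192) (.ev (nat_lit 3540) (nat_lit 32768)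
 (.ev (nat_lit 3549) (nat_lit 2048) .dd))))) (.br (nat_lit 12) (.ch (nat_lit 10) (.ev (nat_lit 1760) (nat_lit
 2048) (.ev (nat_lit 2900) (nat_lit 8192) (.ev (nat_lit 2909) (nat_lit 32768) .dd)))) (.ch (nat_lit 12) (.ev
 (nat_lit 1760) (nat_lit 32768) (.ev (nat_lit 2948) (nat_lit 2048) (.ev (nat_lit 2957) (nat_lit 8192)
 .dd)))))))))) (.br (nat_lit 4) (.ch (nat_lit 3) (.ev (nat_lit 1104) (nat_lit 32768) (.nd (nat_lit 2128) (.br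
 (nat_lit 7) (.br (nat_lit 5) (.ch (nat_lit 1) (.ev (nat_lit 6452) (nat_lit 2048) (.ev (nat_lit 6461) (nat_lit
 8192) .dd))) (.br (nat_lit 6) (.ch (nat_lit 5) (.ev (nat_lit 5444) (nat_lit 2048) (.ev (nat_lit 5453) (nat_lit
 8192) .dd))) (.ch (nat_lit 6) (.ev (nat_lit 6900) (nat_lit 2048) (.ev (nat_lit 6909) (nat_lit 8192) .dd)))))
 (.br (nat_lit 8) (.ch (nat_lit 7) (.ev (nat_lit 6644) (nat_lit 8192) (.ev (nat_lit 6653) (nat_lit 2048) .dd)))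
 (.br (nat_lit 11) (.ch (nat_lit 8) (.ev (nat_lit 2144) (nat_lit 2048) (.ev (nat_lit 2157) (nat_lit 8192)
 .dd))) (.ch (nat_lit 11) (.ev (nat_lit 7040) (nat_lit 8192) (.ev (nat_lit 7053) (nat_lit 2048) .dd)))))))))
 (.ch (nat_lit 4) (.ev (nat_lit 1300) (nat_lit 32768) (.nd (nat_lit 2336) (.br (nat_lit 7) (.br (nat_lit 4)
 (.br (nat_lit 3) (.ch (nat_lit 0) (.ev (nat_lit 2352) (nat_lit 8192) (.ev (nat_lit 2365) (nat_lit 2048) .dd)))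
 (.ch (nat_lit 3) (.ev (nat_lit 2352) (nat_lit 2048) (.ev (nat_lit 2365) (nat_lit 8192) .dd)))) (.br (nat_lit
 6) (.ch (nat_lit 4) (.ev (nat_lit 2352) (nat_lit 8192) (.ev (nat_lit 2365) (nat_lit 2048) .dd))) (.ch (nat_lit
 6) (.ev (nat_lit 2352) (nat_lit 2048) (.ev (nat_lit 2365) (nat_lit 8192) .dd))))) (.br (nat_lit 9) (.br
 (nat_lit 8) (.ch (nat_lit 7) (.ev (nat_lit 2868) (nat_lit 8192) (.ev (nat_lit 2877) (nat_lit 2048) .dd))) (.ch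
 (nat_lit 8) (.ev (nat_lit 2352) (nat_lit 10240) .dd))) (.br (nat_lit 10) (.ch (nat_lit 9) (.ev (nat_lit 3476)
 (nat_lit 2048) (.ev (nat_lit 3485) (nat_lit 8192) .dd))) (.br (nat_lit 12) (.ch (nat_lit 10) (.ev (nat_lit
 2352) (nat_lit 8192) (.ev (nat_lit 2365) (nat_lit 2048) .dd))) (.ch (nat_lit 12) (.ev (nat_lit 2352) (nat_lit
 2048) (.ev (nat_lit 2365) (nat_lit 8192) .dd)))))))))))) (.br (nat_lit 11) (.br (nat_lit 9) (.ch (nat_lit 8)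
 (.ev (nat_lit 1204) (nat_lit 2048) (.ev (nat_lit 1300) (nat_lit 32768) (.ev (nat_lit 1309) (nat_lit 8192)
 .dd)))) (.ch (nat_lit 9) (.ev (nat_lit 1104) (nat_lit 2048) (.nd (nat_lit 2624) (.br (nat_lit 8) (.br (nat_lit
 6) (.ch (nat_lit 4) (.ev (nat_lit 3604) (nat_lit 32768) (.ev (nat_lit 3613) (nat_lit 8192) .dd))) (.br
 (nat_lit 7) (.ch (nat_lit 6) (.ev (nat_lit 2640) (nat_lit 32768) (.ev (nat_lit 2653) (nat_lit 8192) .dd)))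
 (.ch (nat_lit 7) (.ev (nat_lit 2740) (nat_lit 8192) (.ev (nat_lit 2749) (nat_lit 32768) .dd))))) (.br (nat_lit
 11) (.ch (nat_lit 8) (.ev (nat_lit 2676) (nat_lit 8192) (.ev (nat_lit 2685) (nat_lit 32768) .dd))) (.br
 (nat_lit 12) (.ch (nat_lit 11) (.ev (nat_lit 2640) (nat_lit 8192) (.ev (nat_lit 2653) (nat_lit 32768) .dd)))
 (.ch (nat_lit 12) (.ev (nat_lit 2676) (nat_lit 8192) (.ev (nat_lit 2685) (nat_lit 32768) .dd)))))))))) (.br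
 (nat_lit 12) (.ch (nat_lit 11) (.ev (nat_lit 1104) (nat_lit 32768) (.nd (nat_lit 3408) (.br (nat_lit 9) (.br
 (nat_lit 1) (.ch (nat_lit 0) (.ev (nat_lit 3424) (nat_lit 2048) (.ev (nat_lit 3437) (nat_lit 8192) .dd))) (.br
 (nat_lit 6) (.ch (nat_lit 1) (.ev (nat_lit 3424) (nat_lit 8192) (.ev (nat_lit 3437) (nat_lit 2048) .dd))) (.ch
 (nat_lit 6) (.ev (nat_lit 4116) (nat_lit 2048) (.ev (nat_lit 4125) (nat_lit 8192) .dd))))) (.br (nat_lit 11)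
 (.ch (nat_lit 9) (.ev (nat_lit 4020) (nat_lit 2048) (.ev (nat_lit 4029) (nat_lit 8192) .dd))) (.br (nat_lit
 12) (.ch (nat_lit 11) (.ev (nat_lit 3476) (nat_lit 8192) (.ev (nat_lit 3485) (nat_lit 2048) .dd))) (.ch
 (nat_lit 12) (.ev (nat_lit 3552) (nat_lit 10240) .dd)))))))) (.ch (nat_lit 12) (.ev (nat_lit 1104) (nat_lit
 10240) (.ev (nat_lit 1117) (nat_lit 32768) .dd))))))))))))))))) (.br (nat_lit 4) (.ch (nat_lit 2) (.ev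
 (nat_lit 48) (nat_lit 8192) (.nd (nat_lit 400) (.br (nat_lit 5) (.br (nat_lit 3) (.br (nat_lit 1) (.ch
 (nat_lit 0) (.ev (nat_lit 416) (nat_lit 258) (.nd (nat_lit 880) (.br (nat_lit 8) (.br (nat_lit 6) (.br
 (nat_lit 4) (.ch (nat_lit 0) (.ev (nat_lit 980) (nat_lit 64) (.ev (nat_lit 1204) (nat_lit 2048) (.nd (nat_lit
 1840) (.br (nat_lit 7) (.br (nat_lit 4) (.br (nat_lit 1) (.ch (nat_lit 0) (.ev (nat_lit 1856) (nat_lit 1024)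
 (.ev (nat_lit 1876) (nat_lit 65536) (.ev (nat_lit 2164) (nat_lit 131072) (.ev (nat_lit 2173) (nat_lit 32768)
 .dd))))) (.ch (nat_lit 1) (.ev (nat_lit 1856) (nat_lit 32768) (.ev (nat_lit 2084) (nat_lit 65536) (.ev
 (nat_lit 6964) (nat_lit 1024) (.ev (nat_lit 6973) (nat_lit 131072) .dd)))))) (.br (nat_lit 5) (.ch (nat_lit 4)
 (.ev (nat_lit 1856) (nat_lit 229376) (.ev (nat_lit 1869) (nat_lit 1024) .dd))) (.ch (nat_lit 5) (.ev (nat_lit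
 1856) (nat_lit 32768) (.ev (nat_lit 6528) (nat_lit 65536) (.ev (nat_lit 7028) (nat_lit 1024) (.ev (nat_lit
 7037) (nat_lit 131072) .dd))))))) (.br (nat_lit 9) (.br (nat_lit 8) (.ch (nat_lit 7) (.ev (nat_lit 1856)
 (nat_lit 65536) (.ev (nat_lit 6452) (nat_lit 32768) (.ev (nat_lit 6596) (nat_lit 1024) (.ev (nat_lit 6605)
 (nat_lit 131072) .dd))))) (.ch (nat_lit 8) (.ev (nat_lit 1856) (nat_lit 65536) (.ev (nat_lit 5492) (nat_lit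
 131072) (.nd (nat_lit 9472) (.ch (nat_lit 8) (.nd (nat_lit 9504) (.ch (nat_lit 10) (.nd (nat_lit 9584) (.ch
 (nat_lit 4) (.nd (nat_lit 9792) (.br (nat_lit 10) (.ch (nat_lit 4) (.ev (nat_lit 9808) (nat_lit 1024) (.ev
 (nat_lit 9821) (nat_lit 32768) .dd))) (.ch (nat_lit 10) (.fin (nat_lit 577222174257405027))))))))))))))) (.br
 (nat_lit 10) (.ch (nat_lit 9) (.ev (nat_lit 1856) (nat_lit 132096) (.ev (nat_lit 3604) (nat_lit 65536) (.ev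
 (nat_lit 3613) (nat_lit 32768) .dd)))) (.ch (nat_lit 10) (.ev (nat_lit 1856) (nat_lit 65536) (.ev (nat_lit
 1908) (nat_lit 32768) (.ev (nat_lit 6452) (nat_lit 1024) (.ev (nat_lit 6461) (nat_lit 131072) .dd))))))))))))
 (.ch (nat_lit 4) (.ev (nat_lit 896) (nat_lit 2112) (.ev (nat_lit 1060) (nat_lit 32768) (.ev (nat_lit 1332)
 (nat_lit 131072) (.nd (nat_lit 1648) (.br (nat_lit 7) (.br (nat_lit 3) (.ch (nat_lit 0) (.ev (nat_lit 5668)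
 (nat_lit 1024) (.ev (nat_lit 5677) (nat_lit 65536) .dd))) (.br (nat_lit 6) (.ch (nat_lit 3) (.ev (nat_lit
 2212) (nat_lit 1024) (.ev (nat_lit 2221) (nat_lit 65536) .dd))) (.ch (nat_lit 6) (.ev (nat_lit 1664) (nat_lit
 65536) (.ev (nat_lit 1677) (nat_lit 1024) .dd))))) (.br (nat_lit 9) (.br (nat_lit 8) (.ch (nat_lit 7) (.ev
 (nat_lit 1684) (nat_lit 65536) (.ev (nat_lit 1693) (nat_lit 1024) .dd))) (.ch (nat_lit 8) (.ev (nat_lit 3316)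
 (nat_lit 1024) (.ev (nat_lit 3325) (nat_lit 65536) .dd)))) (.br (nat_lit 12) (.ch (nat_lit 9) (.ev (nat_lit
 2960) (nat_lit 1024) (.ev (nat_lit 2973) (nat_lit 65536) .dd))) (.ch (nat_lit 12) (.ev (nat_lit 1664) (nat_lit
 66560) .dd))))))))))) (.br (nat_lit 7) (.ch (nat_lit 6) (.ev (nat_lit 896) (nat_lit 98304) (.nd (nat_lit 1648)
 (.br (nat_lit 9) (.br (nat_lit 3) (.ch (nat_lit 0) (.ev (nat_lit 1664) (nat_lit 1024) (.ev (nat_lit 2372)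
 (nat_lit 131072) (.ev (nat_lit 3044) (nat_lit 2048) (.ev (nat_lit 3053) (nat_lit 64) .dd))))) (.br (nat_lit 8)
 (.ch (nat_lit 3) (.ev (nat_lit 1664) (nat_lit 2112) (.ev (nat_lit 2372) (nat_lit 131072) (.ev (nat_lit 2381)
 (nat_lit 1024) .dd)))) (.ch (nat_lit 8) (.ev (nat_lit 1664) (nat_lit 2048) (.ev (nat_lit 3540) (nat_lit
 131072) (.ev (nat_lit 6452) (nat_lit 1024) (.ev (nat_lit 6461) (nat_lit 64) .dd))))))) (.br (nat_lit 11) (.br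
 (nat_lit 10) (.ch (nat_lit 9) (.ev (nat_lit 1664) (nat_lit 1088) (.ev (nat_lit 2820) (nat_lit 2048) (.ev
 (nat_lit 2829) (nat_lit 131072) .dd)))) (.ch (nat_lit 10) (.ev (nat_lit 1664) (nat_lit 131072) (.ev (nat_lit
 1732) (nat_lit 1024) (.ev (nat_lit 6356) (nat_lit 64) (.ev (nat_lit 6365) (nat_lit 2048) .dd)))))) (.br
 (nat_lit 12) (.ch (nat_lit 11) (.ev (nat_lit 1684) (nat_lit 64) (.ev (nat_lit 2372) (nat_lit 131072) (.ev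
 (nat_lit 6260) (nat_lit 1024) (.ev (nat_lit 6269) (nat_lit 2048) .dd))))) (.ch (nat_lit 12) (.ev (nat_lit
 1664) (nat_lit 133120) (.fin (nat_lit 576451406417314354)))))))))) (.ch (nat_lit 7) (.ev (nat_lit 896)
 (nat_lit 65536) (.nd (nat_lit 1456) (.br (nat_lit 5) (.br (nat_lit 2) (.br (nat_lit 1) (.ch (nat_lit 0) (.ev
 (nat_lit 1472) (nat_lit 3072) (.ev (nat_lit 1684) (nat_lit 64) (.ev (nat_lit 3604) (nat_lit 131072) (.ev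
 (nat_lit 3613) (nat_lit 32768) .dd))))) (.ch (nat_lit 1) (.ev (nat_lit 1472) (nat_lit 133120) (.ev (nat_lit
 2068) (nat_lit 64) (.ev (nat_lit 4932) (nat_lit 32768) (.ev (nat_lit 4941) (nat_lit 1024) .dd)))))) (.br
 (nat_lit 3) (.ch (nat_lit 2) (.ev (nat_lit 1472) (nat_lit 163904) (.ev (nat_lit 1876) (nat_lit 2048) (.ev
 (nat_lit 1885) (nat_lit 1024) .dd)))) (.ch (nat_lit 3) (.ev (nat_lit 1472) (nat_lit 163840) (.ev (nat_lit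
 1684) (nat_lit 64) (.ev (nat_lit 5300) (nat_lit 2048) (.ev (nat_lit 5309) (nat_lit 1024) .dd))))))) (.br
 (nat_lit 8) (.br (nat_lit 7) (.ch (nat_lit 5) (.ev (nat_lit 1472) (nat_lit 64) (.ev (nat_lit 2420) (nat_lit
 1024) (.ev (nat_lit 2900) (nat_lit 32768) (.ev (nat_lit 3764) (nat_lit 2048) (.ev (nat_lit 3773) (nat_lit
 131072) .dd)))))) (.ch (nat_lit 7) (.ev (nat_lit 1472) (nat_lit 34816) (.ev (nat_lit 1684) (nat_lit 64) (.fin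
 (nat_lit 576666910207721681)))))) (.br (nat_lit 9) (.ch (nat_lit 8) (.ev (nat_lit 1876) (nat_lit 2048) (.ev
 (nat_lit 2868) (nat_lit 1024) (.ev (nat_lit 3012) (nat_lit 131072) (.ev (nat_lit 6020) (nat_lit 32768) (.ev
 (nat_lit 6029) (nat_lit 64) .dd)))))) (.ch (nat_lit 9) (.ev (nat_lit 1472) (nat_lit 3072) (.ev (nat_lit 1684)
 (nat_lit 64) (.ev (nat_lit 2880) (nat_lit 32768) (.ev (nat_lit 2893) (nat_lit 131072) .dd))))))))))))) (.br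
 (nat_lit 10) (.br (nat_lit 9) (.ch (nat_lit 8) (.ev (nat_lit 896) (nat_lit 231424) (.nd (nat_lit 1840) (.br
 (nat_lit 9) (.ch (nat_lit 7) (.ev (nat_lit 2788) (nat_lit 64) (.ev (nat_lit 2797) (nat_lit 1024) .dd))) (.br
 (nat_lit 12) (.ch (nat_lit 9) (.ev (nat_lit 2036) (nat_lit 1024) (.ev (nat_lit 2045) (nat_lit 64) .dd))) (.ch
 (nat_lit 12) (.ev (nat_lit 1876) (nat_lit 1024) (.ev (nat_lit 1885) (nat_lit 64) .dd)))))))) (.ch (nat_lit 9)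
 (.ev (nat_lit 896) (nat_lit 34880) (.nd (nat_lit 1552) (.br (nat_lit 10) (.br (nat_lit 7) (.ch (nat_lit 4)
 (.ev (nat_lit 1568) (nat_lit 1024) (.ev (nat_lit 3604) (nat_lit 131072) (.ev (nat_lit 3613) (nat_lit 65536)
 .dd)))) (.br (nat_lit 9) (.ch (nat_lit 7) (.ev (nat_lit 1568) (nat_lit 1024) (.ev (nat_lit 4132) (nat_lit
 131072) (.ev (nat_lit 4141) (nat_lit 65536) .dd)))) (.ch (nat_lit 9) (.ev (nat_lit 1568) (nat_lit 131072) (.ev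
 (nat_lit 2820) (nat_lit 65536) (.ev (nat_lit 2829) (nat_lit 1024) .dd)))))) (.br (nat_lit 11) (.ch (nat_lit
 10) (.ev (nat_lit 3476) (nat_lit 131072) (.ev (nat_lit 6500) (nat_lit 1024) (.ev (nat_lit 6509) (nat_lit
 65536) .dd)))) (.br (nat_lit 12) (.ch (nat_lit 11) (.ev (nat_lit 1568) (nat_lit 65536) (.ev (nat_lit 1780)
 (nat_lit 1024) (.ev (nat_lit 1789) (nat_lit 131072) .dd)))) (.ch (nat_lit 12) (.ev (nat_lit 3012) (nat_lit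
 1024) (.ev (nat_lit 4052) (nat_lit 131072) (.ev (nat_lit 4061) (nat_lit 65536) .dd))))))))))) (.br (nat_lit
 11) (.ch (nat_lit 10) (.ev (nat_lit 896) (nat_lit 3136) (.nd (nat_lit 1744) (.br (nat_lit 3) (.br (nat_lit 2)
 (.ch (nat_lit 1) (.ev (nat_lit 1760) (nat_lit 65536) (.ev (nat_lit 1876) (nat_lit 32768) (.ev (nat_lit 1885)
 (nat_lit 131072) .dd)))) (.ch (nat_lit 2) (.ev (nat_lit 2676) (nat_lit 131072) (.ev (nat_lit 7060) (nat_lit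
 32768) (.ev (nat_lit 7069) (nat_lit 65536) .dd))))) (.br (nat_lit 8) (.ch (nat_lit 3) (.ev (nat_lit 2036)
 (nat_lit 32768) (.ev (nat_lit 3652) (nat_lit 131072) (.ev (nat_lit 3661) (nat_lit 65536) .dd)))) (.br (nat_lit
 12) (.ch (nat_lit 8) (.ev (nat_lit 1760) (nat_lit 32768) (.ev (nat_lit 2688) (nat_lit 196608) .dd))) (.ch
 (nat_lit 12) (.ev (nat_lit 1760) (nat_lit 65536) (.ev (nat_lit 2036) (nat_lit 32768) (.ev (nat_lit 2045)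
 (nat_lit 131072) .dd)))))))))) (.br (nat_lit 12) (.ch (nat_lit 11) (.ev (nat_lit 896) (nat_lit 132160) (.ev
 (nat_lit 1204) (nat_lit 2048) (.nd (nat_lit 1840) (.br (nat_lit 6) (.br (nat_lit 3) (.ch (nat_lit 0) (.ev
 (nat_lit 3764) (nat_lit 32768) (.ev (nat_lit 3773) (nat_lit 65536) .dd))) (.br (nat_lit 4) (.ch (nat_lit 3)
 (.ev (nat_lit 1856) (nat_lit 65536) (.ev (nat_lit 1869) (nat_lit 32768) .dd))) (.ch (nat_lit 4) (.ev (nat_lit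
 5300) (nat_lit 32768) (.ev (nat_lit 5309) (nat_lit 65536) .dd))))) (.br (nat_lit 8) (.ch (nat_lit 6) (.ev
 (nat_lit 1856) (nat_lit 65536) (.ev (nat_lit 1869) (nat_lit 32768) .dd))) (.br (nat_lit 9) (.ch (nat_lit 8)
 (.ev (nat_lit 5444) (nat_lit 65536) (.ev (nat_lit 5453) (nat_lit 32768) .dd))) (.ch (nat_lit 9) (.ev (nat_lit
 1856) (nat_lit 65536) (.ev (nat_lit 1869) (nat_lit 32768) .dd)))))))))) (.ch (nat_lit 12) (.ev (nat_lit 896)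
 (nat_lit 197632) (.nd (nat_lit 1744) (.br (nat_lit 6) (.br (nat_lit 5) (.ch (nat_lit 1) (.ev (nat_lit 1760)
 (nat_lit 64) (.ev (nat_lit 6500) (nat_lit 32768) (.ev (nat_lit 6509) (nat_lit 2048) .dd)))) (.ch (nat_lit 5)
 (.ev (nat_lit 1760) (nat_lit 64) (.ev (nat_lit 6260) (nat_lit 2048) (.ev (nat_lit 6269) (nat_lit 32768)
 .dd))))) (.br (nat_lit 12) (.ch (nat_lit 6) (.ev (nat_lit 1760) (nat_lit 32768) (.ev (nat_lit 5044) (nat_lit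
 2048) (.ev (nat_lit 5053) (nat_lit 64) .dd)))) (.ch (nat_lit 12) (.ev (nat_lit 1760) (nat_lit 64) (.ev
 (nat_lit 2004) (nat_lit 2048) (.ev (nat_lit 2013) (nat_lit 32768) .dd)))))))))))))))) (.ch (nat_lit 1) (.ev
 (nat_lit 416) (nat_lit 64) (.nd (nat_lit 736) (.br (nat_lit 7) (.br (nat_lit 3) (.br (nat_lit 2) (.ch (nat_lit
 1) (.ev (nat_lit 752) (nat_lit 131074) (.ev (nat_lit 916) (nat_lit 65536) (.ev (nat_lit 1204) (nat_lit 2048)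
 (.nd (nat_lit 1456) (.br (nat_lit 8) (.br (nat_lit 5) (.br (nat_lit 4) (.ch (nat_lit 2) (.ev (nat_lit 1472)
 (nat_lit 32768) (.nd (nat_lit 4864) (.br (nat_lit 3) (.ch (nat_lit 1) (.ev (nat_lit 5492) (nat_lit 256) (.ev
 (nat_lit 5501) (nat_lit 1024) .dd))) (.ch (nat_lit 3) (.ev (nat_lit 4880) (nat_lit 256) (.ev (nat_lit 4893)
 (nat_lit 1024) .dd))))))) (.ch (nat_lit 4) (.ev (nat_lit 1472) (nat_lit 34048) .dd))) (.br (nat_lit 7) (.ch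
 (nat_lit 5) (.nd (nat_lit 4224) (.br (nat_lit 11) (.br (nat_lit 5) (.ch (nat_lit 0) (.ev (nat_lit 4240)
 (nat_lit 1024) (.ev (nat_lit 5984) (nat_lit 33024) .dd))) (.ch (nat_lit 5) (.ev (nat_lit 4240) (nat_lit 33792)
 (.ev (nat_lit 4253) (nat_lit 256) .dd)))) (.br (nat_lit 12) (.ch (nat_lit 11) (.ev (nat_lit 4240) (nat_lit
 33024) (.ev (nat_lit 4253) (nat_lit 1024) .dd))) (.ch (nat_lit 12) (.ev (nat_lit 4240) (nat_lit 1024) (.ev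
 (nat_lit 6480) (nat_lit 256) (.ev (nat_lit 6493) (nat_lit 32768) .dd)))))))) (.ch (nat_lit 7) (.ev (nat_lit
 1472) (nat_lit 1280) (.ev (nat_lit 1485) (nat_lit 32768) .dd))))) (.br (nat_lit 10) (.br (nat_lit 9) (.ch
 (nat_lit 8) (.ev (nat_lit 1472) (nat_lit 1024) (.ev (nat_lit 2948) (nat_lit 256) (.ev (nat_lit 2957) (nat_lit
 32768) .dd)))) (.ch (nat_lit 9) (.ev (nat_lit 2484) (nat_lit 1024) (.ev (nat_lit 4116) (nat_lit 32768) (.ev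
 (nat_lit 4125) (nat_lit 256) .dd))))) (.br (nat_lit 11) (.ch (nat_lit 10) (.nd (nat_lit 4224) (.br (nat_lit 6)
 (.br (nat_lit 1) (.ch (nat_lit 0) (.ev (nat_lit 4240) (nat_lit 1024) (.fin (nat_lit 576647119554167283))))
 (.ch (nat_lit 1) (.ev (nat_lit 4240) (nat_lit 32768) (.ev (nat_lit 4756) (nat_lit 1024) (.ev (nat_lit 4765)
 (nat_lit 256) .dd))))) (.br (nat_lit 11) (.ch (nat_lit 6) (.ev (nat_lit 4240) (nat_lit 32768) (.ev (nat_lit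
 4996) (nat_lit 256) (.ev (nat_lit 5005) (nat_lit 1024) .dd)))) (.ch (nat_lit 11) (.ev (nat_lit 5044) (nat_lit
 256) (.fin (nat_lit 576506382018626125)))))))) (.ch (nat_lit 11) (.ev (nat_lit 1472) (nat_lit 32768) (.nd
 (nat_lit 4304) (.br (nat_lit 6) (.br (nat_lit 5) (.ch (nat_lit 3) (.ev (nat_lit 4320) (nat_lit 256) (.ev
 (nat_lit 4333) (nat_lit 1024) .dd))) (.ch (nat_lit 5) (.ev (nat_lit 4500) (nat_lit 1024) (.ev (nat_lit 4509)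
 (nat_lit 256) .dd)))) (.br (nat_lit 8) (.ch (nat_lit 6) (.fin (nat_lit 576463501125960197))) (.br (nat_lit 12)
 (.ch (nat_lit 8) (.ev (nat_lit 4500) (nat_lit 1024) (.ev (nat_lit 4509) (nat_lit 256) .dd))) (.ch (nat_lit 12)
 (.ev (nat_lit 4320) (nat_lit 256) (.ev (nat_lit 4333) (nat_lit 1024) .dd))))))))))))))))) (.ch (nat_lit 2)
 (.ev (nat_lit 752) (nat_lit 196610) (.ev (nat_lit 1220) (nat_lit 2048) (.nd (nat_lit 1456) (.br (nat_lit 7)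
 (.br (nat_lit 4) (.br (nat_lit 3) (.ch (nat_lit 0) (.ev (nat_lit 1492) (nat_lit 1024) (.nd (nat_lit 4224) (.br
 (nat_lit 9) (.br (nat_lit 8) (.ch (nat_lit 4) (.ev (nat_lit 5728) (nat_lit 33024) .dd)) (.ch (nat_lit 8) (.ev
 (nat_lit 4240) (nat_lit 32768) (.ev (nat_lit 4253) (nat_lit 256) .dd)))) (.br (nat_lit 12) (.ch (nat_lit 9)
 (.ev (nat_lit 4240) (nat_lit 33024) .dd)) (.ch (nat_lit 12) (.ev (nat_lit 4256) (nat_lit 32768) (.ev (nat_lit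
 4269) (nat_lit 256) .dd)))))))) (.ch (nat_lit 3) (.ev (nat_lit 1472) (nat_lit 256) (.ev (nat_lit 1492)
 (nat_lit 1024) (.ev (nat_lit 1501) (nat_lit 32768) .dd))))) (.br (nat_lit 6) (.ch (nat_lit 4) (.ev (nat_lit
 1472) (nat_lit 1024) (.ev (nat_lit 1492) (nat_lit 32768) (.ev (nat_lit 1501) (nat_lit 256) .dd)))) (.ch
 (nat_lit 6) (.ev (nat_lit 1472) (nat_lit 32768) (.ev (nat_lit 1620) (nat_lit 1024) (.ev (nat_lit 1629)
 (nat_lit 256) .dd)))))) (.br (nat_lit 9) (.br (nat_lit 8) (.ch (nat_lit 7) (.ev (nat_lit 5764) (nat_lit 32768)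
 (.fin (nat_lit 576390933269397992)))) (.ch (nat_lit 8) (.ev (nat_lit 1472) (nat_lit 256) (.ev (nat_lit 3812)
 (nat_lit 32768) (.ev (nat_lit 3821) (nat_lit 1024) .dd))))) (.br (nat_lit 11) (.ch (nat_lit 9) (.ev (nat_lit
 1492) (nat_lit 1024) (.ev (nat_lit 2260) (nat_lit 32768) (.ev (nat_lit 2269) (nat_lit 256) .dd)))) (.ch
 (nat_lit 11) (.ev (nat_lit 1472) (nat_lit 33792) (.ev (nat_lit 1485) (nat_lit 256) .dd))))))))))) (.br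
 (nat_lit 4) (.ch (nat_lit 3) (.ev (nat_lit 752) (nat_lit 34816) (.nd (nat_lit 1408) (.br (nat_lit 6) (.br
 (nat_lit 4) (.ch (nat_lit 2) (.ev (nat_lit 1424) (nat_lit 65536) (.ev (nat_lit 1492) (nat_lit 1024) (.ev
 (nat_lit 3076) (nat_lit 131072) (.ev (nat_lit 6020) (nat_lit 256) (.ev (nat_lit 6029) (nat_lit 2) .dd))))))
 (.br (nat_lit 5) (.ch (nat_lit 4) (.ev (nat_lit 1424) (nat_lit 131328) (.ev (nat_lit 1540) (nat_lit 65536)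
 (.ev (nat_lit 6596) (nat_lit 2) (.ev (nat_lit 6605) (nat_lit 1024) .dd))))) (.ch (nat_lit 5) (.ev (nat_lit
 1424) (nat_lit 131072) (.ev (nat_lit 1732) (nat_lit 2) (.nd (nat_lit 4416) (.br (nat_lit 7) (.ch (nat_lit 6)
 (.ev (nat_lit 4644) (nat_lit 256) (.ev (nat_lit 4756) (nat_lit 65536) (.ev (nat_lit 4765) (nat_lit 1024)
 .dd)))) (.br (nat_lit 11) (.ch (nat_lit 7) (.ev (nat_lit 6512) (nat_lit 1024) (.ev (nat_lit 6596) (nat_lit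
 256) (.ev (nat_lit 6605) (nat_lit 65536) .dd)))) (.ch (nat_lit 11) (.ev (nat_lit 4432) (nat_lit 65536) (.ev
 (nat_lit 4644) (nat_lit 256) (.ev (nat_lit 4653) (nat_lit 1024) .dd)))))))))))) (.br (nat_lit 11) (.br
 (nat_lit 10) (.ch (nat_lit 6) (.ev (nat_lit 1424) (nat_lit 65794) (.ev (nat_lit 2260) (nat_lit 131072) (.ev
 (nat_lit 2269) (nat_lit 1024) .dd)))) (.ch (nat_lit 10) (.ev (nat_lit 1424) (nat_lit 1026) (.ev (nat_lit 1588)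
 (nat_lit 131072) (.ev (nat_lit 3332) (nat_lit 65536) (.ev (nat_lit 3341) (nat_lit 256) .dd)))))) (.br (nat_lit
 12) (.ch (nat_lit 11) (.ev (nat_lit 1424) (nat_lit 1026) (.ev (nat_lit 3140) (nat_lit 256) (.nd (nat_lit 4864)
 (.br (nat_lit 3) (.ch (nat_lit 1) (.ev (nat_lit 4880) (nat_lit 131072) (.ev (nat_lit 4893) (nat_lit 65536)
 .dd))) (.br (nat_lit 10) (.ch (nat_lit 3) (.ev (nat_lit 5200) (nat_lit 131072) (.ev (nat_lit 5213) (nat_lit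
 65536) .dd))) (.ch (nat_lit 10) (.ev (nat_lit 4880) (nat_lit 65536) (.ev (nat_lit 4893) (nat_lit 131072)
 .dd))))))))) (.ch (nat_lit 12) (.ev (nat_lit 1424) (nat_lit 65538) (.nd (nat_lit 3984) (.br (nat_lit 4) (.br
 (nat_lit 3) (.ch (nat_lit 0) (.ev (nat_lit 4000) (nat_lit 131072) (.ev (nat_lit 5444) (nat_lit 256) (.ev
 (nat_lit 5453) (nat_lit 1024) .dd)))) (.ch (nat_lit 3) (.ev (nat_lit 4468) (nat_lit 1024) (.ev (nat_lit 6148)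
 (nat_lit 256) (.ev (nat_lit 6157) (nat_lit 131072) .dd))))) (.br (nat_lit 12) (.ch (nat_lit 4) (.ev (nat_lit
 4000) (nat_lit 1024) (.ev (nat_lit 4468) (nat_lit 256) (.ev (nat_lit 4477) (nat_lit 131072) .dd)))) (.ch
 (nat_lit 12) (.ev (nat_lit 4000) (nat_lit 256) (.ev (nat_lit 6692) (nat_lit 1024) (.ev (nat_lit 6701) (nat_lit
 131072) .dd))))))))))))))) (.ch (nat_lit 4) (.ev (nat_lit 752) (nat_lit 166144) (.nd (nat_lit 1552) (.br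
 (nat_lit 4) (.br (nat_lit 2) (.ch (nat_lit 0) (.ev (nat_lit 1568) (nat_lit 2) (.ev (nat_lit 2212) (nat_lit
 1024) (.ev (nat_lit 2221) (nat_lit 65536) .dd)))) (.br (nat_lit 3) (.ch (nat_lit 2) (.ev (nat_lit 1588)
 (nat_lit 1024) (.ev (nat_lit 2900) (nat_lit 65536) (.ev (nat_lit 2909) (nat_lit 2) .dd)))) (.ch (nat_lit 3)
 (.ev (nat_lit 1568) (nat_lit 66560) (.ev (nat_lit 1581) (nat_lit 2) .dd))))) (.br (nat_lit 9) (.ch (nat_lit 4)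
 (.ev (nat_lit 1588) (nat_lit 1024) (.ev (nat_lit 1684) (nat_lit 2) (.ev (nat_lit 1693) (nat_lit 65536) .dd))))
 (.br (nat_lit 12) (.ch (nat_lit 9) (.ev (nat_lit 1568) (nat_lit 65536) (.ev (nat_lit 6644) (nat_lit 2) (.ev
 (nat_lit 6653) (nat_lit 1024) .dd)))) (.ch (nat_lit 12) (.ev (nat_lit 1568) (nat_lit 1026) (.ev (nat_lit 1581)
 (nat_lit 65536) .dd))))))))))) (.br (nat_lit 9) (.br (nat_lit 8) (.ch (nat_lit 7) (.ev (nat_lit 752) (nat_lit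
 66816) (.nd (nat_lit 1552) (.br (nat_lit 6) (.br (nat_lit 1) (.ch (nat_lit 0) (.ev (nat_lit 1568) (nat_lit
 2050) (.ev (nat_lit 2740) (nat_lit 32768) (.ev (nat_lit 2749) (nat_lit 131072) .dd)))) (.br (nat_lit 4) (.ch
 (nat_lit 1) (.ev (nat_lit 1568) (nat_lit 131072) (.ev (nat_lit 1684) (nat_lit 2) (.ev (nat_lit 2388) (nat_lit
 2048) (.ev (nat_lit 2397) (nat_lit 32768) .dd))))) (.ch (nat_lit 4) (.ev (nat_lit 1568) (nat_lit 32768) (.ev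
 (nat_lit 1684) (nat_lit 2) (.fin (nat_lit 576487690366042708))))))) (.br (nat_lit 10) (.br (nat_lit 9) (.ch
 (nat_lit 6) (.ev (nat_lit 1568) (nat_lit 131074) (.ev (nat_lit 2388) (nat_lit 2048) (.ev (nat_lit 2397)
 (nat_lit 32768) .dd)))) (.ch (nat_lit 9) (.ev (nat_lit 1568) (nat_lit 2048) (.ev (nat_lit 1876) (nat_lit
 131072) (.ev (nat_lit 2212) (nat_lit 32768) (.ev (nat_lit 2221) (nat_lit 2) .dd)))))) (.br (nat_lit 12) (.ch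
 (nat_lit 10) (.ev (nat_lit 1568) (nat_lit 163840) (.ev (nat_lit 2196) (nat_lit 2) (.ev (nat_lit 2205) (nat_lit
 2048) .dd)))) (.ch (nat_lit 12) (.ev (nat_lit 1568) (nat_lit 34816) (.ev (nat_lit 2196) (nat_lit 2) (.ev
 (nat_lit 2205) (nat_lit 131072) .dd)))))))))) (.ch (nat_lit 8) (.ev (nat_lit 752) (nat_lit 67842) (.nd
 (nat_lit 1456) (.br (nat_lit 6) (.br (nat_lit 1) (.ch (nat_lit 0) (.ev (nat_lit 1472) (nat_lit 131072) (.ev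
 (nat_lit 6644) (nat_lit 32768) (.ev (nat_lit 6653) (nat_lit 1024) .dd)))) (.br (nat_lit 5) (.ch (nat_lit 1)
 (.ev (nat_lit 1472) (nat_lit 131072) (.ev (nat_lit 1492) (nat_lit 1024) (.ev (nat_lit 1501) (nat_lit 32768)
 .dd)))) (.ch (nat_lit 5) (.ev (nat_lit 1472) (nat_lit 131072) (.ev (nat_lit 1780) (nat_lit 32768) (.ev
 (nat_lit 1789) (nat_lit 1024) .dd)))))) (.br (nat_lit 7) (.ch (nat_lit 6) (.ev (nat_lit 1472) (nat_lit 1024)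
 (.ev (nat_lit 2036) (nat_lit 131072) (.ev (nat_lit 2045) (nat_lit 32768) .dd)))) (.br (nat_lit 12) (.ch
 (nat_lit 7) (.ev (nat_lit 1472) (nat_lit 1024) (.ev (nat_lit 3604) (nat_lit 32768) (.ev (nat_lit 3613)
 (nat_lit 131072) .dd)))) (.ch (nat_lit 12) (.ev (nat_lit 1472) (nat_lit 32768) (.ev (nat_lit 6500) (nat_lit
 131072) (.ev (nat_lit 6509) (nat_lit 1024) .dd))))))))))) (.br (nat_lit 10) (.ch (nat_lit 9) (.ev (nat_lit
 752) (nat_lit 35840) (.nd (nat_lit 1456) (.br (nat_lit 5) (.br (nat_lit 2) (.br (nat_lit 1) (.ch (nat_lit 0)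
 (.ev (nat_lit 1472) (nat_lit 256) (.nd (nat_lit 4592) (.br (nat_lit 9) (.br (nat_lit 5) (.ch (nat_lit 2) (.ev
 (nat_lit 4608) (nat_lit 65536) (.ev (nat_lit 4704) (nat_lit 131074) .dd))) (.ch (nat_lit 5) (.ev (nat_lit
 5236) (nat_lit 2) (.ev (nat_lit 6260) (nat_lit 131072) (.ev (nat_lit 6269) (nat_lit 65536) .dd))))) (.br
 (nat_lit 10) (.ch (nat_lit 9) (.ev (nat_lit 4608) (nat_lit 65536) (.ev (nat_lit 4932) (nat_lit 2) (.ev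
 (nat_lit 4941) (nat_lit 131072) .dd)))) (.br (nat_lit 11) (.ch (nat_lit 10) (.ev (nat_lit 4932) (nat_lit 2)
 (.ev (nat_lit 5572) (nat_lit 65536) (.ev (nat_lit 5581) (nat_lit 131072) .dd)))) (.ch (nat_lit 11) (.ev
 (nat_lit 4608) (nat_lit 65536) (.ev (nat_lit 4932) (nat_lit 2) (.ev (nat_lit 4941) (nat_lit 131072)
 .dd)))))))))) (.ch (nat_lit 1) (.nd (nat_lit 4864) (.br (nat_lit 6) (.br (nat_lit 3) (.ch (nat_lit 0) (.ev
 (nat_lit 4880) (nat_lit 65536) (.ev (nat_lit 6272) (nat_lit 2) (.ev (nat_lit 6880) (nat_lit 131328) .dd))))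
 (.br (nat_lit 4) (.ch (nat_lit 3) (.ev (nat_lit 4880) (nat_lit 65536) (.ev (nat_lit 6704) (nat_lit 2) (.ev
 (nat_lit 7028) (nat_lit 131072) (.ev (nat_lit 7037) (nat_lit 256) .dd))))) (.ch (nat_lit 4) (.ev (nat_lit
 4880) (nat_lit 131072) (.nd (nat_lit 7952) (.br (nat_lit 11) (.ch (nat_lit 0) (.ev (nat_lit 7968) (nat_lit 2)
 (.fin (nat_lit 587865436664059817)))) (.ch (nat_lit 11) (.ev (nat_lit 7968) (nat_lit 65536) (.nd (nat_lit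
 9392) (.ch (nat_lit 2) (.nd (nat_lit 9632) (.br (nat_lit 11) (.ch (nat_lit 1) (.fin (nat_lit
 576497585958109771))) (.ch (nat_lit 11) (.ev (nat_lit 9684) (nat_lit 256) (.ev (nat_lit 9693) (nat_lit 2)
 .dd))))))))))))))) (.br (nat_lit 8) (.ch (nat_lit 6) (.ev (nat_lit 4880) (nat_lit 258) (.ev (nat_lit 6032)
 (nat_lit 196608) .dd))) (.br (nat_lit 11) (.ch (nat_lit 8) (.ev (nat_lit 4880) (nat_lit 196608) (.ev (nat_lit
 5856) (nat_lit 258) .dd))) (.ch (nat_lit 11) (.ev (nat_lit 4880) (nat_lit 65538) (.ev (nat_lit 6368) (nat_lit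
 131328) .dd))))))))) (.br (nat_lit 4) (.ch (nat_lit 2) (.ev (nat_lit 1472) (nat_lit 65538) (.ev (nat_lit 3152)
 (nat_lit 131328) .dd))) (.ch (nat_lit 4) (.ev (nat_lit 1472) (nat_lit 131074) (.ev (nat_lit 1492) (nat_lit
 65536) (.ev (nat_lit 1501) (nat_lit 256) .dd)))))) (.br (nat_lit 8) (.br (nat_lit 7) (.ch (nat_lit 5) (.ev
 (nat_lit 1472) (nat_lit 256) (.ev (nat_lit 1892) (nat_lit 131072) (.ev (nat_lit 2244) (nat_lit 65536) (.ev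
 (nat_lit 2253) (nat_lit 2) .dd))))) (.ch (nat_lit 7) (.ev (nat_lit 1472) (nat_lit 196608) (.ev (nat_lit 3652)
 (nat_lit 2) (.ev (nat_lit 3661) (nat_lit 256) .dd))))) (.br (nat_lit 12) (.ch (nat_lit 8) (.ev (nat_lit 1472)
 (nat_lit 131072) (.nd (nat_lit 4864) (.br (nat_lit 10) (.br (nat_lit 7) (.ch (nat_lit 3) (.ev (nat_lit 4880)
 (nat_lit 65536) (.ev (nat_lit 6356) (nat_lit 256) (.ev (nat_lit 6365) (nat_lit 2) .dd)))) (.ch (nat_lit 7)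
 (.ev (nat_lit 4880) (nat_lit 256) (.ev (nat_lit 6500) (nat_lit 2) (.ev (nat_lit 6509) (nat_lit 65536) .dd)))))
 (.br (nat_lit 12) (.ch (nat_lit 10) (.ev (nat_lit 4880) (nat_lit 256) (.ev (nat_lit 6500) (nat_lit 2) (.ev
 (nat_lit 6509) (nat_lit 65536) .dd)))) (.ch (nat_lit 12) (.ev (nat_lit 4880) (nat_lit 2) (.ev (nat_lit 5776)
 (nat_lit 256) (.ev (nat_lit 5789) (nat_lit 65536) .dd))))))))) (.ch (nat_lit 12) (.ev (nat_lit 1472) (nat_lit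
 131074) (.ev (nat_lit 5540) (nat_lit 256) (.ev (nat_lit 5549) (nat_lit 65536) .dd)))))))))) (.br (nat_lit 12)
 (.ch (nat_lit 10) (.ev (nat_lit 752) (nat_lit 1024) (.ev (nat_lit 980) (nat_lit 32768) (.ev (nat_lit 1204)
 (nat_lit 2048) (.nd (nat_lit 1456) (.br (nat_lit 8) (.br (nat_lit 6) (.br (nat_lit 2) (.ch (nat_lit 0) (.ev
 (nat_lit 1472) (nat_lit 196866) .dd)) (.ch (nat_lit 2) (.ev (nat_lit 1472) (nat_lit 65792) (.ev (nat_lit 3616)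
 (nat_lit 2) (.ev (nat_lit 3629) (nat_lit 131072) .dd))))) (.br (nat_lit 7) (.ch (nat_lit 6) (.ev (nat_lit
 1472) (nat_lit 65536) (.ev (nat_lit 6720) (nat_lit 2) (.fin (nat_lit 576485491305038405))))) (.ch (nat_lit 7)
 (.ev (nat_lit 1472) (nat_lit 256) (.ev (nat_lit 5300) (nat_lit 131072) (.ev (nat_lit 6560) (nat_lit 65536)
 (.ev (nat_lit 6573) (nat_lit 2) .dd))))))) (.br (nat_lit 10) (.br (nat_lit 9) (.ch (nat_lit 8) (.ev (nat_lit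
 1472) (nat_lit 131072) (.ev (nat_lit 4064) (nat_lit 65536) (.ev (nat_lit 5236) (nat_lit 256) (.ev (nat_lit
 5245) (nat_lit 2) .dd))))) (.ch (nat_lit 9) (.ev (nat_lit 1472) (nat_lit 131074) (.ev (nat_lit 3876) (nat_lit
 65536) (.ev (nat_lit 3885) (nat_lit 256) .dd))))) (.br (nat_lit 11) (.ch (nat_lit 10) (.ev (nat_lit 1472)
 (nat_lit 131072) (.ev (nat_lit 1684) (nat_lit 65536) (.ev (nat_lit 2516) (nat_lit 256) (.ev (nat_lit 2525)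
 (nat_lit 2) .dd))))) (.br (nat_lit 12) (.ch (nat_lit 11) (.ev (nat_lit 1472) (nat_lit 196866) .dd)) (.ch
 (nat_lit 12) (.ev (nat_lit 1472) (nat_lit 196864) (.ev (nat_lit 1485) (nat_lit 2) .dd)))))))))))) (.ch
 (nat_lit 12) (.ev (nat_lit 752) (nat_lit 98304) (.nd (nat_lit 1408) (.br (nat_lit 6) (.br (nat_lit 3) (.br
 (nat_lit 2) (.ch (nat_lit 1) (.ev (nat_lit 1424) (nat_lit 1024) (.nd (nat_lit 3984) (.br (nat_lit 7) (.ch
 (nat_lit 2) (.ev (nat_lit 4000) (nat_lit 258) (.ev (nat_lit 5552) (nat_lit 133120) .dd))) (.br (nat_lit 11)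
 (.ch (nat_lit 7) (.ev (nat_lit 4000) (nat_lit 131072) (.ev (nat_lit 4084) (nat_lit 2) (.fin (nat_lit
 576461300430225092))))) (.ch (nat_lit 11) (.ev (nat_lit 4000) (nat_lit 258) (.ev (nat_lit 6464) (nat_lit
 133120) .dd)))))))) (.ch (nat_lit 2) (.ev (nat_lit 1424) (nat_lit 2) (.ev (nat_lit 2084) (nat_lit 256) (.nd
 (nat_lit 4592) (.br (nat_lit 9) (.ch (nat_lit 3) (.ev (nat_lit 6260) (nat_lit 2048) (.fin (nat_lit
 577007759528510041)))) (.ch (nat_lit 9) (.ev (nat_lit 4608) (nat_lit 1024) (.ev (nat_lit 6260) (nat_lit 2048)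
 (.ev (nat_lit 6269) (nat_lit 131072) .dd)))))))))) (.br (nat_lit 4) (.ch (nat_lit 3) (.ev (nat_lit 1424)
 (nat_lit 2306) (.ev (nat_lit 2948) (nat_lit 1024) (.ev (nat_lit 2957) (nat_lit 131072) .dd)))) (.ch (nat_lit
 4) (.ev (nat_lit 1424) (nat_lit 133120) (.nd (nat_lit 3984) (.br (nat_lit 7) (.br (nat_lit 4) (.ch (nat_lit 2)
 (.ev (nat_lit 4000) (nat_lit 256) (.ev (nat_lit 5924) (nat_lit 1024) (.ev (nat_lit 5933) (nat_lit 2) .dd))))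
 (.ch (nat_lit 4) (.ev (nat_lit 4000) (nat_lit 2) (.ev (nat_lit 4932) (nat_lit 1024) (.ev (nat_lit 4941)
 (nat_lit 256) .dd))))) (.br (nat_lit 11) (.ch (nat_lit 7) (.ev (nat_lit 4000) (nat_lit 256) (.ev (nat_lit
 4932) (nat_lit 1024) (.ev (nat_lit 4941) (nat_lit 2) .dd)))) (.ch (nat_lit 11) (.ev (nat_lit 4000) (nat_lit
 256) (.ev (nat_lit 5264) (nat_lit 1026) .dd)))))))))) (.br (nat_lit 9) (.br (nat_lit 8) (.ch (nat_lit 6) (.ev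
 (nat_lit 1424) (nat_lit 131074) (.ev (nat_lit 1876) (nat_lit 2048) (.ev (nat_lit 3044) (nat_lit 256) (.ev
 (nat_lit 3053) (nat_lit 1024) .dd))))) (.ch (nat_lit 8) (.ev (nat_lit 1424) (nat_lit 133120) (.nd (nat_lit
 4592) (.br (nat_lit 3) (.br (nat_lit 2) (.ch (nat_lit 0) (.ev (nat_lit 4608) (nat_lit 1280) (.ev (nat_lit
 4621) (nat_lit 2) .dd))) (.ch (nat_lit 2) (.ev (nat_lit 4608) (nat_lit 258) (.ev (nat_lit 4621) (nat_lit 1024)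
 .dd)))) (.br (nat_lit 5) (.ch (nat_lit 3) (.ev (nat_lit 6020) (nat_lit 2) (.ev (nat_lit 6320) (nat_lit 256)
 (.ev (nat_lit 6333) (nat_lit 1024) .dd)))) (.br (nat_lit 9) (.ch (nat_lit 5) (.ev (nat_lit 4608) (nat_lit 258)
 (.ev (nat_lit 4621) (nat_lit 1024) .dd))) (.ch (nat_lit 9) (.ev (nat_lit 4608) (nat_lit 2) (.ev (nat_lit 6160)
 (nat_lit 256) (.ev (nat_lit 6173) (nat_lit 1024) .dd))))))))))) (.br (nat_lit 10) (.ch (nat_lit 9) (.ev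
 (nat_lit 1424) (nat_lit 258) (.nd (nat_lit 4224) (.br (nat_lit 8) (.ch (nat_lit 0) (.ev (nat_lit 4240)
 (nat_lit 2048) (.ev (nat_lit 6020) (nat_lit 1024) (.ev (nat_lit 6029) (nat_lit 131072) .dd)))) (.br (nat_lit
 10) (.ch (nat_lit 8) (.ev (nat_lit 4644) (nat_lit 1024) (.ev (nat_lit 6020) (nat_lit 131072) (.ev (nat_lit
 6029) (nat_lit 2048) .dd)))) (.ch (nat_lit 10) (.ev (nat_lit 4240) (nat_lit 2048) (.ev (nat_lit 4644) (nat_lit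
 1024) (.ev (nat_lit 4653) (nat_lit 131072) .dd))))))))) (.br (nat_lit 12) (.ch (nat_lit 10) (.ev (nat_lit
 1424) (nat_lit 1280) (.ev (nat_lit 2740) (nat_lit 131072) (.ev (nat_lit 2900) (nat_lit 2) (.ev (nat_lit 2909)
 (nat_lit 2048) .dd))))) (.ch (nat_lit 12) (.ev (nat_lit 1424) (nat_lit 1280) (.ev (nat_lit 3252) (nat_lit 2)
 (.ev (nat_lit 6740) (nat_lit 131072) (.ev (nat_lit 6749) (nat_lit 2048) .dd)))))))))))))))))))) (.br (nat_lit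
 4) (.ch (nat_lit 3) (.ev (nat_lit 416) (nat_lit 322) (.nd (nat_lit 880) (.br (nat_lit 7) (.br (nat_lit 5) (.br
 (nat_lit 4) (.ch (nat_lit 0) (.ev (nat_lit 896) (nat_lit 1024) (.nd (nat_lit 1648) (.br (nat_lit 7) (.br
 (nat_lit 5) (.ch (nat_lit 3) (.ev (nat_lit 1664) (nat_lit 65536) (.ev (nat_lit 2788) (nat_lit 2048) (.nd
 (nat_lit 4864) (.br (nat_lit 3) (.br (nat_lit 2) (.ch (nat_lit 0) (.ev (nat_lit 4932) (nat_lit 32768) (.ev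
 (nat_lit 4941) (nat_lit 131072) .dd))) (.ch (nat_lit 2) (.ev (nat_lit 5668) (nat_lit 131072) (.ev (nat_lit
 5677) (nat_lit 32768) .dd)))) (.br (nat_lit 10) (.ch (nat_lit 3) (.ev (nat_lit 4880) (nat_lit 131072) (.ev
 (nat_lit 4893) (nat_lit 32768) .dd))) (.ch (nat_lit 10) (.ev (nat_lit 4932) (nat_lit 32768) (.ev (nat_lit
 4941) (nat_lit 131072) .dd))))))))) (.br (nat_lit 6) (.ch (nat_lit 5) (.ev (nat_lit 1664) (nat_lit 65536) (.ev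
 (nat_lit 2048) (nat_lit 2048) (.nd (nat_lit 4864) (.br (nat_lit 8) (.ch (nat_lit 7) (.ev (nat_lit 4880)
 (nat_lit 131072) (.ev (nat_lit 4893) (nat_lit 32768) .dd))) (.ch (nat_lit 8) (.ev (nat_lit 4932) (nat_lit
 32768) (.ev (nat_lit 4941) (nat_lit 131072) .dd)))))))) (.ch (nat_lit 6) (.ev (nat_lit 1664) (nat_lit 133120)
 (.nd (nat_lit 4592) (.br (nat_lit 5) (.ch (nat_lit 4) (.ev (nat_lit 6596) (nat_lit 65536) (.ev (nat_lit 6605)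
 (nat_lit 32768) .dd))) (.ch (nat_lit 5) (.ev (nat_lit 6356) (nat_lit 32768) (.ev (nat_lit 6365) (nat_lit
 65536) .dd))))))))) (.br (nat_lit 9) (.br (nat_lit 8) (.ch (nat_lit 7) (.ev (nat_lit 1664) (nat_lit 2048) (.nd
 (nat_lit 4416) (.br (nat_lit 6) (.br (nat_lit 5) (.ch (nat_lit 3) (.ev (nat_lit 4432) (nat_lit 32768) (.ev
 (nat_lit 6356) (nat_lit 131072) (.ev (nat_lit 6365) (nat_lit 65536) .dd)))) (.ch (nat_lit 5) (.ev (nat_lit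
 4432) (nat_lit 65536) (.ev (nat_lit 4500) (nat_lit 32768) (.ev (nat_lit 4509) (nat_lit 131072) .dd))))) (.br
 (nat_lit 12) (.ch (nat_lit 6) (.ev (nat_lit 4432) (nat_lit 65536) (.ev (nat_lit 5444) (nat_lit 32768) (.ev
 (nat_lit 5453) (nat_lit 131072) .dd)))) (.ch (nat_lit 12) (.ev (nat_lit 4432) (nat_lit 131072) (.ev (nat_lit
 4724) (nat_lit 32768) (.ev (nat_lit 4733) (nat_lit 65536) .dd))))))))) (.ch (nat_lit 8) (.ev (nat_lit 1664)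
 (nat_lit 131072) (.ev (nat_lit 2740) (nat_lit 2048) (.ev (nat_lit 3284) (nat_lit 32768) (.ev (nat_lit 3293)
 (nat_lit 65536) .dd)))))) (.br (nat_lit 12) (.ch (nat_lit 9) (.ev (nat_lit 1664) (nat_lit 34816) (.ev (nat_lit
 5876) (nat_lit 131072) (.ev (nat_lit 5885) (nat_lit 65536) .dd)))) (.ch (nat_lit 12) (.ev (nat_lit 3812)
 (nat_lit 65536) (.ev (nat_lit 5572) (nat_lit 2048) (.ev (nat_lit 6336) (nat_lit 32768) (.ev (nat_lit 6349)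
 (nat_lit 131072) .dd))))))))))) (.ch (nat_lit 4) (.ev (nat_lit 896) (nat_lit 99328) (.nd (nat_lit 1968) (.br
 (nat_lit 11) (.ch (nat_lit 1) (.fin (nat_lit 576432714920968455))) (.br (nat_lit 12) (.ch (nat_lit 11) (.ev
 (nat_lit 1984) (nat_lit 2048) (.ev (nat_lit 1997) (nat_lit 131072) .dd))) (.ch (nat_lit 12) (.ev (nat_lit
 1984) (nat_lit 131072) (.ev (nat_lit 1997) (nat_lit 2048) .dd))))))))) (.br (nat_lit 6) (.ch (nat_lit 5) (.ev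
 (nat_lit 896) (nat_lit 65536) (.ev (nat_lit 980) (nat_lit 32768) (.ev (nat_lit 1044) (nat_lit 131072) (.nd
 (nat_lit 1744) (.br (nat_lit 6) (.br (nat_lit 3) (.ch (nat_lit 0) (.ev (nat_lit 1760) (nat_lit 3072) .dd))
 (.br (nat_lit 5) (.ch (nat_lit 3) (.ev (nat_lit 1908) (nat_lit 1024) (.ev (nat_lit 1917) (nat_lit 2048) .dd)))
 (.ch (nat_lit 5) (.ev (nat_lit 6692) (nat_lit 2048) (.ev (nat_lit 6701) (nat_lit 1024) .dd))))) (.br (nat_lit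
 9) (.br (nat_lit 8) (.ch (nat_lit 6) (.ev (nat_lit 6868) (nat_lit 1024) (.ev (nat_lit 6877) (nat_lit 2048)
 .dd))) (.ch (nat_lit 8) (.ev (nat_lit 6260) (nat_lit 2048) (.ev (nat_lit 6269) (nat_lit 1024) .dd)))) (.br
 (nat_lit 12) (.ch (nat_lit 9) (.ev (nat_lit 1760) (nat_lit 2048) (.ev (nat_lit 1773) (nat_lit 1024) .dd)))
 (.ch (nat_lit 12) (.ev (nat_lit 2004) (nat_lit 2048) (.ev (nat_lit 2013) (nat_lit 1024) .dd))))))))))) (.ch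
 (nat_lit 6) (.ev (nat_lit 896) (nat_lit 166912) (.ev (nat_lit 909) (nat_lit 65536) .dd))))) (.br (nat_lit 10)
 (.br (nat_lit 8) (.ch (nat_lit 7) (.ev (nat_lit 896) (nat_lit 134144) (.nd (nat_lit 1648) (.br (nat_lit 6)
 (.br (nat_lit 1) (.ch (nat_lit 0) (.ev (nat_lit 1664) (nat_lit 32768) (.ev (nat_lit 1677) (nat_lit 65536)
 .dd))) (.br (nat_lit 5) (.ch (nat_lit 1) (.ev (nat_lit 1684) (nat_lit 65536) (.ev (nat_lit 1693) (nat_lit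
 32768) .dd))) (.ch (nat_lit 5) (.ev (nat_lit 1664) (nat_lit 65536) (.ev (nat_lit 1677) (nat_lit 32768)
 .dd))))) (.br (nat_lit 10) (.ch (nat_lit 6) (.nd (nat_lit 4592) (.br (nat_lit 9) (.br (nat_lit 4) (.ch
 (nat_lit 3) (.ev (nat_lit 4692) (nat_lit 32768) (.ev (nat_lit 4701) (nat_lit 65536) .dd))) (.ch (nat_lit 4)
 (.ev (nat_lit 4932) (nat_lit 65536) (.ev (nat_lit 4941) (nat_lit 32768) .dd)))) (.br (nat_lit 12) (.ch
 (nat_lit 9) (.ev (nat_lit 4692) (nat_lit 32768) (.ev (nat_lit 4701) (nat_lit 65536) .dd))) (.ch (nat_lit 12)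
 (.ev (nat_lit 4932) (nat_lit 65536) (.ev (nat_lit 4941) (nat_lit 32768) .dd))))))) (.br (nat_lit 12) (.ch
 (nat_lit 10) (.nd (nat_lit 4416) (.br (nat_lit 11) (.ch (nat_lit 7) (.ev (nat_lit 5236) (nat_lit 32768) (.ev
 (nat_lit 5245) (nat_lit 65536) .dd))) (.ch (nat_lit 11) (.ev (nat_lit 5844) (nat_lit 65536) (.ev (nat_lit
 5853) (nat_lit 32768) .dd)))))) (.ch (nat_lit 12) (.ev (nat_lit 1664) (nat_lit 32768) (.ev (nat_lit 1677)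
 (nat_lit 65536) .dd))))))))) (.ch (nat_lit 8) (.ev (nat_lit 896) (nat_lit 2048) (.nd (nat_lit 1552) (.br
 (nat_lit 6) (.br (nat_lit 3) (.ch (nat_lit 0) (.ev (nat_lit 1568) (nat_lit 1024) (.nd (nat_lit 4416) (.br
 (nat_lit 7) (.ch (nat_lit 6) (.ev (nat_lit 4432) (nat_lit 65536) (.ev (nat_lit 5264) (nat_lit 163840) .dd)))
 (.br (nat_lit 11) (.ch (nat_lit 7) (.ev (nat_lit 4432) (nat_lit 131072) (.ev (nat_lit 4996) (nat_lit 65536)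
 (.ev (nat_lit 5005) (nat_lit 32768) .dd)))) (.ch (nat_lit 11) (.ev (nat_lit 4644) (nat_lit 32768) (.ev
 (nat_lit 6500) (nat_lit 65536) (.ev (nat_lit 6509) (nat_lit 131072) .dd))))))))) (.br (nat_lit 5) (.ch
 (nat_lit 3) (.ev (nat_lit 1568) (nat_lit 163840) (.nd (nat_lit 4592) (.br (nat_lit 4) (.ch (nat_lit 1) (.ev
 (nat_lit 4996) (nat_lit 65536) (.ev (nat_lit 5005) (nat_lit 1024) .dd))) (.br (nat_lit 9) (.ch (nat_lit 4)
 (.ev (nat_lit 5044) (nat_lit 65536) (.ev (nat_lit 5053) (nat_lit 1024) .dd))) (.ch (nat_lit 9) (.ev (nat_lit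
 6500) (nat_lit 1024) (.ev (nat_lit 6509) (nat_lit 65536) .dd)))))))) (.ch (nat_lit 5) (.ev (nat_lit 2388)
 (nat_lit 131072) (.nd (nat_lit 4416) (.br (nat_lit 3) (.ch (nat_lit 2) (.ev (nat_lit 4432) (nat_lit 1024) (.ev
 (nat_lit 4644) (nat_lit 32768) (.ev (nat_lit 4653) (nat_lit 65536) .dd)))) (.br (nat_lit 11) (.ch (nat_lit 3)
 (.ev (nat_lit 4644) (nat_lit 32768) (.ev (nat_lit 5876) (nat_lit 1024) (.ev (nat_lit 5885) (nat_lit 65536)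
 .dd)))) (.ch (nat_lit 11) (.ev (nat_lit 4432) (nat_lit 65536) (.ev (nat_lit 4644) (nat_lit 32768) (.ev
 (nat_lit 4653) (nat_lit 1024) .dd))))))))))) (.br (nat_lit 8) (.ch (nat_lit 6) (.ev (nat_lit 1568) (nat_lit
 163840) (.ev (nat_lit 6596) (nat_lit 1024) (.ev (nat_lit 6605) (nat_lit 65536) .dd)))) (.br (nat_lit 12) (.ch
 (nat_lit 8) (.ev (nat_lit 2420) (nat_lit 131072) (.nd (nat_lit 4416) (.br (nat_lit 5) (.ch (nat_lit 4) (.ev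
 (nat_lit 4432) (nat_lit 1024) (.ev (nat_lit 6868) (nat_lit 32768) (.ev (nat_lit 6877) (nat_lit 65536) .dd))))
 (.br (nat_lit 12) (.ch (nat_lit 5) (.ev (nat_lit 4432) (nat_lit 32768) (.ev (nat_lit 5604) (nat_lit 1024) (.ev
 (nat_lit 5613) (nat_lit 65536) .dd)))) (.ch (nat_lit 12) (.ev (nat_lit 4432) (nat_lit 1024) (.ev (nat_lit
 4996) (nat_lit 65536) (.ev (nat_lit 5005) (nat_lit 32768) .dd))))))))) (.ch (nat_lit 12) (.ev (nat_lit 1568)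
 (nat_lit 131072) (.nd (nat_lit 4416) (.br (nat_lit 6) (.br (nat_lit 2) (.ch (nat_lit 0) (.ev (nat_lit 4432)
 (nat_lit 32768) (.ev (nat_lit 6356) (nat_lit 1024) (.ev (nat_lit 6365) (nat_lit 65536) .dd)))) (.br (nat_lit
 4) (.ch (nat_lit 2) (.ev (nat_lit 4432) (nat_lit 1024) (.ev (nat_lit 4644) (nat_lit 32768) (.ev (nat_lit 4653)
 (nat_lit 65536) .dd)))) (.ch (nat_lit 4) (.ev (nat_lit 4432) (nat_lit 65536) (.ev (nat_lit 4644) (nat_lit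
 1024) (.ev (nat_lit 4653) (nat_lit 32768) .dd)))))) (.br (nat_lit 7) (.ch (nat_lit 6) (.ev (nat_lit 4644)
 (nat_lit 33792) (.ev (nat_lit 4653) (nat_lit 65536) .dd))) (.br (nat_lit 8) (.ch (nat_lit 7) (.ev (nat_lit
 6096) (nat_lit 32768) (.fin (nat_lit 576372241660854835)))) (.ch (nat_lit 8) (.ev (nat_lit 4432) (nat_lit
 65536) (.ev (nat_lit 4644) (nat_lit 32768) (.ev (nat_lit 4653) (nat_lit 1024) .dd))))))))))))))))) (.br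
 (nat_lit 11) (.ch (nat_lit 10) (.ev (nat_lit 896) (nat_lit 2048) (.nd (nat_lit 1552) (.br (nat_lit 5) (.br
 (nat_lit 1) (.ch (nat_lit 0) (.ev (nat_lit 1568) (nat_lit 1024) (.nd (nat_lit 4224) (.br (nat_lit 8) (.br
 (nat_lit 5) (.br (nat_lit 4) (.ch (nat_lit 0) (.ev (nat_lit 4240) (nat_lit 65536) (.ev (nat_lit 4692) (nat_lit
 32768) (.ev (nat_lit 4701) (nat_lit 131072) .dd)))) (.ch (nat_lit 4) (.ev (nat_lit 5408) (nat_lit 65536) (.ev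
 (nat_lit 6148) (nat_lit 32768) (.ev (nat_lit 6157) (nat_lit 131072) .dd))))) (.br (nat_lit 6) (.ch (nat_lit 5)
 (.ev (nat_lit 4240) (nat_lit 163840) (.ev (nat_lit 4253) (nat_lit 65536) .dd))) (.ch (nat_lit 6) (.ev (nat_lit
 4240) (nat_lit 163840) (.ev (nat_lit 4253) (nat_lit 65536) .dd))))) (.br (nat_lit 11) (.br (nat_lit 10) (.ch
 (nat_lit 8) (.ev (nat_lit 4468) (nat_lit 32768) (.ev (nat_lit 4692) (nat_lit 131072) (.ev (nat_lit 4701)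
 (nat_lit 65536) .dd)))) (.ch (nat_lit 10) (.ev (nat_lit 4240) (nat_lit 65536) (.ev (nat_lit 4468) (nat_lit
 32768) (.ev (nat_lit 4477) (nat_lit 131072) .dd))))) (.br (nat_lit 12) (.ch (nat_lit 11) (.ev (nat_lit 4240)
 (nat_lit 65536) (.ev (nat_lit 4692) (nat_lit 131072) (.ev (nat_lit 4701) (nat_lit 32768) .dd)))) (.ch (nat_lit
 12) (.ev (nat_lit 4240) (nat_lit 131072) (.ev (nat_lit 5300) (nat_lit 32768) (.ev (nat_lit 5309) (nat_lit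
 65536) .dd)))))))))) (.br (nat_lit 3) (.ch (nat_lit 1) (.ev (nat_lit 1568) (nat_lit 131072) (.nd (nat_lit
 4304) (.br (nat_lit 10) (.ch (nat_lit 7) (.ev (nat_lit 4320) (nat_lit 65536) (.ev (nat_lit 6452) (nat_lit
 32768) (.ev (nat_lit 6461) (nat_lit 1024) .dd)))) (.br (nat_lit 12) (.ch (nat_lit 10) (.ev (nat_lit 4320)
 (nat_lit 1024) (.ev (nat_lit 5924) (nat_lit 32768) (.ev (nat_lit 5933) (nat_lit 65536) .dd)))) (.ch (nat_lit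
 12) (.ev (nat_lit 4320) (nat_lit 1024) (.ev (nat_lit 4388) (nat_lit 65536) (.ev (nat_lit 4397) (nat_lit 32768)
 .dd))))))))) (.ch (nat_lit 3) (.ev (nat_lit 1568) (nat_lit 131072) (.nd (nat_lit 4416) (.br (nat_lit 9) (.br
 (nat_lit 2) (.ch (nat_lit 1) (.ev (nat_lit 4432) (nat_lit 1024) (.ev (nat_lit 5472) (nat_lit 32768) (.ev
 (nat_lit 5485) (nat_lit 65536) .dd)))) (.br (nat_lit 8) (.ch (nat_lit 2) (.ev (nat_lit 4432) (nat_lit 1024)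
 (.ev (nat_lit 6128) (nat_lit 98304) .dd))) (.ch (nat_lit 8) (.ev (nat_lit 4432) (nat_lit 98304) (.ev (nat_lit
 4445) (nat_lit 1024) .dd))))) (.br (nat_lit 10) (.ch (nat_lit 9) (.ev (nat_lit 5540) (nat_lit 32768) (.fin
 (nat_lit 576512978852463218)))) (.br (nat_lit 12) (.ch (nat_lit 10) (.ev (nat_lit 4432) (nat_lit 1024) (.ev
 (nat_lit 4800) (nat_lit 98304) .dd))) (.ch (nat_lit 12) (.ev (nat_lit 4432) (nat_lit 1024) (.nd (nat_lit 8112)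
 (.br (nat_lit 11) (.ch (nat_lit 0) (.ev (nat_lit 8128) (nat_lit 65536) (.ev (nat_lit 8141) (nat_lit 32768)
 .dd))) (.ch (nat_lit 11) (.fin (nat_lit 576461302066004536))))))))))))))) (.br (nat_lit 10) (.br (nat_lit 6)
 (.ch (nat_lit 5) (.ev (nat_lit 1568) (nat_lit 1024) (.nd (nat_lit 4416) (.br (nat_lit 2) (.br (nat_lit 1) (.ch
 (nat_lit 0) (.ev (nat_lit 4432) (nat_lit 65536) (.ev (nat_lit 4580) (nat_lit 32768) (.ev (nat_lit 4589)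
 (nat_lit 131072) .dd)))) (.ch (nat_lit 1) (.ev (nat_lit 4432) (nat_lit 32768) (.ev (nat_lit 5300) (nat_lit
 65536) (.ev (nat_lit 5309) (nat_lit 131072) .dd))))) (.br (nat_lit 6) (.ch (nat_lit 2) (.ev (nat_lit 4432)
 (nat_lit 32768) (.ev (nat_lit 6148) (nat_lit 65536) (.ev (nat_lit 6157) (nat_lit 131072) .dd)))) (.br (nat_lit
 9) (.ch (nat_lit 6) (.ev (nat_lit 4432) (nat_lit 131072) (.ev (nat_lit 4756) (nat_lit 65536) (.ev (nat_lit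
 4765) (nat_lit 32768) .dd)))) (.ch (nat_lit 9) (.ev (nat_lit 4432) (nat_lit 32768) (.ev (nat_lit 4624)
 (nat_lit 196608) .dd))))))))) (.ch (nat_lit 6) (.nd (nat_lit 4304) (.br (nat_lit 5) (.br (nat_lit 1) (.ch
 (nat_lit 0) (.ev (nat_lit 4320) (nat_lit 66560) (.fin (nat_lit 576532770397307715)))) (.br (nat_lit 3) (.ch
 (nat_lit 1) (.ev (nat_lit 4320) (nat_lit 33792) (.ev (nat_lit 4548) (nat_lit 131072) (.ev (nat_lit 4557)
 (nat_lit 65536) .dd)))) (.ch (nat_lit 3) (.ev (nat_lit 4320) (nat_lit 98304) (.fin (nat_lit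
 574702083503505292)))))) (.br (nat_lit 9) (.ch (nat_lit 5) (.ev (nat_lit 4320) (nat_lit 66560) (.ev (nat_lit
 4356) (nat_lit 32768) (.ev (nat_lit 4365) (nat_lit 131072) .dd)))) (.br (nat_lit 10) (.ch (nat_lit 9) (.ev
 (nat_lit 4320) (nat_lit 197632) (.ev (nat_lit 4333) (nat_lit 32768) .dd))) (.ch (nat_lit 10) (.ev (nat_lit
 4320) (nat_lit 33792) (.ev (nat_lit 4820) (nat_lit 65536) (.ev (nat_lit 4829) (nat_lit 131072) .dd))))))))))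
 (.br (nat_lit 12) (.ch (nat_lit 10) (.ev (nat_lit 1568) (nat_lit 98304) (.ev (nat_lit 2484) (nat_lit 131072)
 (.ev (nat_lit 2493) (nat_lit 1024) .dd)))) (.ch (nat_lit 12) (.ev (nat_lit 1568) (nat_lit 98304) (.ev (nat_lit
 3876) (nat_lit 1024) (.ev (nat_lit 3885) (nat_lit 131072) .dd)))))))))) (.br (nat_lit 12) (.ch (nat_lit 11)
 (.ev (nat_lit 896) (nat_lit 98304) (.ev (nat_lit 1364) (nat_lit 2048) (.nd (nat_lit 1744) (.br (nat_lit 9)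
 (.br (nat_lit 8) (.ch (nat_lit 7) (.ev (nat_lit 1760) (nat_lit 131072) (.ev (nat_lit 1773) (nat_lit 1024)
 .dd))) (.ch (nat_lit 8) (.nd (nat_lit 4416) (.br (nat_lit 8) (.br (nat_lit 3) (.ch (nat_lit 1) (.ev (nat_lit
 6464) (nat_lit 131072) (.ev (nat_lit 6477) (nat_lit 1024) .dd))) (.ch (nat_lit 3) (.ev (nat_lit 6596) (nat_lit
 1024) (.ev (nat_lit 6605) (nat_lit 131072) .dd)))) (.br (nat_lit 12) (.ch (nat_lit 8) (.ev (nat_lit 6464)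
 (nat_lit 132096) .dd)) (.ch (nat_lit 12) (.ev (nat_lit 5104) (nat_lit 131072) (.ev (nat_lit 5117) (nat_lit
 1024) .dd)))))))) (.br (nat_lit 10) (.ch (nat_lit 9) (.ev (nat_lit 4084) (nat_lit 131072) (.ev (nat_lit 4093)
 (nat_lit 1024) .dd))) (.br (nat_lit 12) (.ch (nat_lit 10) (.ev (nat_lit 1780) (nat_lit 1024) (.ev (nat_lit
 1789) (nat_lit 131072) .dd))) (.ch (nat_lit 12) (.ev (nat_lit 1812) (nat_lit 1024) (.ev (nat_lit 1821)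
 (nat_lit 131072) .dd)))))))))) (.ch (nat_lit 12) (.ev (nat_lit 896) (nat_lit 131072) (.nd (nat_lit 1552) (.br
 (nat_lit 6) (.br (nat_lit 4) (.ch (nat_lit 1) (.ev (nat_lit 1568) (nat_lit 65536) (.ev (nat_lit 2388) (nat_lit
 2048) (.ev (nat_lit 3316) (nat_lit 32768) (.ev (nat_lit 3325) (nat_lit 1024) .dd))))) (.br (nat_lit 5) (.ch
 (nat_lit 4) (.ev (nat_lit 1568) (nat_lit 3072) (.ev (nat_lit 6596) (nat_lit 32768) (.ev (nat_lit 6605)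
 (nat_lit 65536) .dd)))) (.ch (nat_lit 5) (.ev (nat_lit 1568) (nat_lit 32768) (.ev (nat_lit 2388) (nat_lit
 2048) (.ev (nat_lit 2720) (nat_lit 65536) (.ev (nat_lit 2733) (nat_lit 1024) .dd))))))) (.br (nat_lit 10) (.br
 (nat_lit 7) (.ch (nat_lit 6) (.ev (nat_lit 1568) (nat_lit 65536) (.nd (nat_lit 4224) (.br (nat_lit 11) (.ch
 (nat_lit 6) (.ev (nat_lit 4240) (nat_lit 32768) (.ev (nat_lit 6020) (nat_lit 2048) (.ev (nat_lit 6029)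
 (nat_lit 1024) .dd)))) (.ch (nat_lit 11) (.ev (nat_lit 6020) (nat_lit 34816) (.ev (nat_lit 6029) (nat_lit
 1024) .dd))))))) (.ch (nat_lit 7) (.ev (nat_lit 1568) (nat_lit 98304) (.nd (nat_lit 4304) (.br (nat_lit 10)
 (.ch (nat_lit 8) (.ev (nat_lit 6644) (nat_lit 2048) (.ev (nat_lit 6653) (nat_lit 1024) .dd))) (.ch (nat_lit
 10) (.ev (nat_lit 5312) (nat_lit 3072) .dd))))))) (.br (nat_lit 11) (.ch (nat_lit 10) (.ev (nat_lit 1568)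
 (nat_lit 2048) (.ev (nat_lit 1684) (nat_lit 32768) (.nd (nat_lit 4592) (.br (nat_lit 8) (.ch (nat_lit 1) (.ev
 (nat_lit 4608) (nat_lit 1024) (.ev (nat_lit 4621) (nat_lit 65536) .dd))) (.ch (nat_lit 8) (.ev (nat_lit 5764)
 (nat_lit 65536) (.ev (nat_lit 5773) (nat_lit 1024) .dd)))))))) (.ch (nat_lit 11) (.ev (nat_lit 3604) (nat_lit
 32768) (.nd (nat_lit 4304) (.br (nat_lit 4) (.ch (nat_lit 2) (.ev (nat_lit 4320) (nat_lit 65536) (.ev (nat_lit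
 5008) (nat_lit 2048) (.ev (nat_lit 5021) (nat_lit 1024) .dd)))) (.br (nat_lit 9) (.ch (nat_lit 4) (.ev
 (nat_lit 4320) (nat_lit 1024) (.nd (nat_lit 8512) (.br (nat_lit 12) (.ch (nat_lit 1) (.ev (nat_lit 8532)
 (nat_lit 65536) (.ev (nat_lit 8541) (nat_lit 2048) .dd))) (.ch (nat_lit 12) (.fin (nat_lit
 576275484623978826))))))) (.ch (nat_lit 9) (.ev (nat_lit 4320) (nat_lit 2048) (.ev (nat_lit 5188) (nat_lit
 65536) (.ev (nat_lit 5197) (nat_lit 1024) .dd)))))))))))))))))))))) (.ch (nat_lit 4) (.ev (nat_lit 416)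
 (nat_lit 167232) (.nd (nat_lit 1168) (.br (nat_lit 7) (.br (nat_lit 2) (.ch (nat_lit 1) (.ev (nat_lit 1184)
 (nat_lit 65536) (.ev (nat_lit 1197) (nat_lit 2) .dd))) (.br (nat_lit 3) (.ch (nat_lit 2) (.nd (nat_lit 2336)
 (.br (nat_lit 10) (.br (nat_lit 3) (.ch (nat_lit 1) (.ev (nat_lit 2352) (nat_lit 65536) (.ev (nat_lit 2365)
 (nat_lit 2) .dd))) (.br (nat_lit 6) (.ch (nat_lit 3) (.ev (nat_lit 6160) (nat_lit 65536) (.ev (nat_lit 6173)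
 (nat_lit 2) .dd))) (.ch (nat_lit 6) (.ev (nat_lit 2352) (nat_lit 2) (.ev (nat_lit 2365) (nat_lit 65536)
 .dd))))) (.br (nat_lit 11) (.ch (nat_lit 10) (.ev (nat_lit 2352) (nat_lit 2) (.ev (nat_lit 2365) (nat_lit
 65536) .dd))) (.br (nat_lit 12) (.ch (nat_lit 11) (.ev (nat_lit 3044) (nat_lit 2) (.ev (nat_lit 3053) (nat_lit
 65536) .dd))) (.ch (nat_lit 12) (.ev (nat_lit 2788) (nat_lit 65536) (.ev (nat_lit 2797) (nat_lit 2)
 .dd)))))))) (.ch (nat_lit 3) (.ev (nat_lit 1184) (nat_lit 65536) (.ev (nat_lit 1197) (nat_lit 2) .dd))))) (.br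
 (nat_lit 11) (.br (nat_lit 9) (.ch (nat_lit 7) (.nd (nat_lit 3984) (.br (nat_lit 5) (.ch (nat_lit 3) (.ev
 (nat_lit 4020) (nat_lit 2) (.ev (nat_lit 4029) (nat_lit 65536) .dd))) (.br (nat_lit 9) (.ch (nat_lit 5) (.ev
 (nat_lit 4000) (nat_lit 2) (.ev (nat_lit 4013) (nat_lit 65536) .dd))) (.ch (nat_lit 9) (.ev (nat_lit 4000)
 (nat_lit 65536) (.ev (nat_lit 4013) (nat_lit 2) .dd))))))) (.ch (nat_lit 9) (.ev (nat_lit 1204) (nat_lit 2)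
 (.ev (nat_lit 1213) (nat_lit 65536) .dd)))) (.br (nat_lit 12) (.ch (nat_lit 11) (.ev (nat_lit 1184) (nat_lit
 2) (.ev (nat_lit 1197) (nat_lit 65536) .dd))) (.ch (nat_lit 12) (.ev (nat_lit 1332) (nat_lit 65536) (.ev
 (nat_lit 1341) (nat_lit 2) .dd))))))))))) (.br (nat_lit 7) (.br (nat_lit 6) (.ch (nat_lit 5) (.ev (nat_lit
 416) (nat_lit 2048) (.nd (nat_lit 672) (.br (nat_lit 7) (.br (nat_lit 5) (.br (nat_lit 2) (.ch (nat_lit 1)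
 (.ev (nat_lit 688) (nat_lit 1346) (.nd (nat_lit 1744) (.br (nat_lit 4) (.br (nat_lit 1) (.ch (nat_lit 0) (.ev
 (nat_lit 1760) (nat_lit 65536) (.ev (nat_lit 6452) (nat_lit 131072) (.ev (nat_lit 6461) (nat_lit 32768)
 .dd)))) (.br (nat_lit 2) (.ch (nat_lit 1) (.ev (nat_lit 1760) (nat_lit 32768) (.ev (nat_lit 2928) (nat_lit
 196608) .dd))) (.ch (nat_lit 2) (.ev (nat_lit 1760) (nat_lit 131072) (.ev (nat_lit 3604) (nat_lit 32768) (.ev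
 (nat_lit 3613) (nat_lit 65536) .dd)))))) (.br (nat_lit 8) (.br (nat_lit 5) (.ch (nat_lit 4) (.ev (nat_lit
 1760) (nat_lit 131072) (.ev (nat_lit 4932) (nat_lit 65536) (.ev (nat_lit 4941) (nat_lit 32768) .dd)))) (.ch
 (nat_lit 5) (.ev (nat_lit 1760) (nat_lit 65536) (.ev (nat_lit 2740) (nat_lit 131072) (.ev (nat_lit 2749)
 (nat_lit 32768) .dd))))) (.br (nat_lit 9) (.ch (nat_lit 8) (.ev (nat_lit 1760) (nat_lit 131072) (.ev (nat_lit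
 1780) (nat_lit 32768) (.ev (nat_lit 1789) (nat_lit 65536) .dd)))) (.ch (nat_lit 9) (.ev (nat_lit 1760)
 (nat_lit 32768) (.ev (nat_lit 6452) (nat_lit 131072) (.ev (nat_lit 6461) (nat_lit 65536) .dd)))))))))) (.ch
 (nat_lit 2) (.ev (nat_lit 688) (nat_lit 131136) (.nd (nat_lit 1456) (.br (nat_lit 5) (.br (nat_lit 2) (.ch
 (nat_lit 1) (.ev (nat_lit 1472) (nat_lit 32770) (.ev (nat_lit 1588) (nat_lit 256) (.ev (nat_lit 1684) (nat_lit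
 65536) (.ev (nat_lit 1693) (nat_lit 1024) .dd))))) (.br (nat_lit 4) (.ch (nat_lit 2) (.ev (nat_lit 1472)
 (nat_lit 1280) (.nd (nat_lit 4416) (.br (nat_lit 7) (.ch (nat_lit 0) (.ev (nat_lit 4432) (nat_lit 2) (.ev
 (nat_lit 6452) (nat_lit 65536) (.ev (nat_lit 6461) (nat_lit 32768) .dd)))) (.ch (nat_lit 7) (.ev (nat_lit
 4432) (nat_lit 32768) (.ev (nat_lit 5924) (nat_lit 2) (.ev (nat_lit 5933) (nat_lit 65536) .dd)))))))) (.ch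
 (nat_lit 4) (.ev (nat_lit 1472) (nat_lit 1024) (.ev (nat_lit 1684) (nat_lit 65536) (.nd (nat_lit 4416) (.br
 (nat_lit 5) (.br (nat_lit 2) (.ch (nat_lit 1) (.ev (nat_lit 4432) (nat_lit 2) (.ev (nat_lit 4644) (nat_lit
 32768) (.ev (nat_lit 4653) (nat_lit 256) .dd)))) (.ch (nat_lit 2) (.ev (nat_lit 4432) (nat_lit 258) (.ev
 (nat_lit 4445) (nat_lit 32768) .dd)))) (.br (nat_lit 7) (.ch (nat_lit 5) (.ev (nat_lit 4432) (nat_lit 32768)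
 (.ev (nat_lit 6260) (nat_lit 256) (.ev (nat_lit 6269) (nat_lit 2) .dd)))) (.ch (nat_lit 7) (.ev (nat_lit 4432)
 (nat_lit 2) (.ev (nat_lit 6500) (nat_lit 256) (.ev (nat_lit 6509) (nat_lit 32768) .dd)))))))))))) (.br
 (nat_lit 10) (.br (nat_lit 6) (.ch (nat_lit 5) (.ev (nat_lit 1472) (nat_lit 65792) (.ev (nat_lit 1492)
 (nat_lit 32768) (.ev (nat_lit 6192) (nat_lit 1026) .dd)))) (.ch (nat_lit 6) (.ev (nat_lit 1472) (nat_lit
 32768) (.ev (nat_lit 1684) (nat_lit 2) (.nd (nat_lit 4416) (.br (nat_lit 4) (.br (nat_lit 2) (.ch (nat_lit 1)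
 (.ev (nat_lit 4432) (nat_lit 1024) (.ev (nat_lit 6368) (nat_lit 256) (.ev (nat_lit 6381) (nat_lit 65536)
 .dd)))) (.ch (nat_lit 2) (.ev (nat_lit 4432) (nat_lit 256) (.ev (nat_lit 4944) (nat_lit 66560) .dd)))) (.br
 (nat_lit 7) (.ch (nat_lit 4) (.ev (nat_lit 4432) (nat_lit 256) (.ev (nat_lit 7028) (nat_lit 1024) (.ev
 (nat_lit 7037) (nat_lit 65536) .dd)))) (.br (nat_lit 10) (.ch (nat_lit 7) (.ev (nat_lit 4432) (nat_lit 65536)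
 (.ev (nat_lit 6800) (nat_lit 1280) .dd))) (.ch (nat_lit 10) (.ev (nat_lit 4432) (nat_lit 66560) (.ev (nat_lit
 4445) (nat_lit 256) .dd))))))))))) (.br (nat_lit 11) (.ch (nat_lit 10) (.ev (nat_lit 1472) (nat_lit 65536)
 (.ev (nat_lit 1684) (nat_lit 2) (.nd (nat_lit 4304) (.br (nat_lit 4) (.br (nat_lit 2) (.ch (nat_lit 1) (.ev
 (nat_lit 4320) (nat_lit 33024) (.ev (nat_lit 4333) (nat_lit 1024) .dd))) (.br (nat_lit 3) (.ch (nat_lit 2)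
 (.ev (nat_lit 4320) (nat_lit 1024) (.ev (nat_lit 4724) (nat_lit 32768) (.ev (nat_lit 4733) (nat_lit 256)
 .dd)))) (.ch (nat_lit 3) (.ev (nat_lit 5248) (nat_lit 1024) (.fin (nat_lit 576504182930358820)))))) (.br
 (nat_lit 8) (.br (nat_lit 7) (.ch (nat_lit 4) (.ev (nat_lit 4320) (nat_lit 1024) (.ev (nat_lit 6148) (nat_lit
 32768) (.ev (nat_lit 6157) (nat_lit 256) .dd)))) (.ch (nat_lit 7) (.ev (nat_lit 4320) (nat_lit 1280) (.ev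
 (nat_lit 4333) (nat_lit 32768) .dd)))) (.br (nat_lit 11) (.ch (nat_lit 8) (.ev (nat_lit 4320) (nat_lit 1024)
 (.ev (nat_lit 6500) (nat_lit 32768) (.ev (nat_lit 6509) (nat_lit 256) .dd)))) (.ch (nat_lit 11) (.ev (nat_lit
 5856) (nat_lit 256) (.ev (nat_lit 6148) (nat_lit 32768) (.ev (nat_lit 6157) (nat_lit 1024) .dd))))))))))) (.ch
 (nat_lit 11) (.ev (nat_lit 1472) (nat_lit 2) (.ev (nat_lit 1684) (nat_lit 1024) (.nd (nat_lit 4224) (.br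
 (nat_lit 6) (.br (nat_lit 2) (.ch (nat_lit 1) (.ev (nat_lit 4240) (nat_lit 65536) (.ev (nat_lit 5300) (nat_lit
 32768) (.ev (nat_lit 5309) (nat_lit 256) .dd)))) (.br (nat_lit 3) (.ch (nat_lit 2) (.ev (nat_lit 5044)
 (nat_lit 32768) (.ev (nat_lit 5376) (nat_lit 65536) (.ev (nat_lit 5389) (nat_lit 256) .dd)))) (.ch (nat_lit 3)
 (.ev (nat_lit 4240) (nat_lit 256) (.ev (nat_lit 4448) (nat_lit 65536) (.ev (nat_lit 4461) (nat_lit 32768)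
 .dd)))))) (.br (nat_lit 11) (.ch (nat_lit 6) (.ev (nat_lit 4240) (nat_lit 256) (.ev (nat_lit 4500) (nat_lit
 32768) (.ev (nat_lit 4509) (nat_lit 65536) .dd)))) (.br (nat_lit 12) (.ch (nat_lit 11) (.ev (nat_lit 4240)
 (nat_lit 98304) (.ev (nat_lit 4253) (nat_lit 256) .dd))) (.ch (nat_lit 12) (.ev (nat_lit 4240) (nat_lit 98304)
 (.ev (nat_lit 4253) (nat_lit 256) .dd))))))))))))))))) (.br (nat_lit 6) (.ch (nat_lit 5) (.ev (nat_lit 688)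
 (nat_lit 33024) (.ev (nat_lit 980) (nat_lit 1024) (.nd (nat_lit 1744) (.br (nat_lit 5) (.br (nat_lit 3) (.br
 (nat_lit 1) (.ch (nat_lit 0) (.ev (nat_lit 1760) (nat_lit 64) (.ev (nat_lit 2004) (nat_lit 2) (.ev (nat_lit
 3200) (nat_lit 65536) (.ev (nat_lit 3213) (nat_lit 131072) .dd))))) (.ch (nat_lit 1) (.ev (nat_lit 1760)
 (nat_lit 196610) (.ev (nat_lit 1773) (nat_lit 64) .dd)))) (.br (nat_lit 4) (.ch (nat_lit 3) (.ev (nat_lit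
 1760) (nat_lit 65538) (.ev (nat_lit 2740) (nat_lit 131072) (.ev (nat_lit 2749) (nat_lit 64) .dd)))) (.ch
 (nat_lit 4) (.ev (nat_lit 1760) (nat_lit 131072) (.ev (nat_lit 1892) (nat_lit 65536) (.ev (nat_lit 3012)
 (nat_lit 64) (.ev (nat_lit 3021) (nat_lit 2) .dd))))))) (.br (nat_lit 8) (.br (nat_lit 6) (.ch (nat_lit 5)
 (.ev (nat_lit 1760) (nat_lit 64) (.ev (nat_lit 3652) (nat_lit 2) (.ev (nat_lit 5188) (nat_lit 131072) (.ev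
 (nat_lit 5197) (nat_lit 65536) .dd))))) (.ch (nat_lit 6) (.ev (nat_lit 1760) (nat_lit 131072) (.ev (nat_lit
 1780) (nat_lit 65536) (.ev (nat_lit 6260) (nat_lit 64) (.ev (nat_lit 6269) (nat_lit 2) .dd)))))) (.br (nat_lit
 10) (.ch (nat_lit 8) (.ev (nat_lit 1760) (nat_lit 65600) (.ev (nat_lit 3812) (nat_lit 2) (.ev (nat_lit 3821)
 (nat_lit 131072) .dd)))) (.br (nat_lit 11) (.ch (nat_lit 10) (.ev (nat_lit 1760) (nat_lit 131072) (.ev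
 (nat_lit 2004) (nat_lit 2) (.ev (nat_lit 6452) (nat_lit 64) (.ev (nat_lit 6461) (nat_lit 65536) .dd))))) (.ch
 (nat_lit 11) (.ev (nat_lit 1760) (nat_lit 131138) (.ev (nat_lit 1773) (nat_lit 65536) .dd))))))))))) (.ch
 (nat_lit 6) (.ev (nat_lit 688) (nat_lit 196608) (.ev (nat_lit 1220) (nat_lit 2) (.nd (nat_lit 1456) (.br
 (nat_lit 7) (.br (nat_lit 2) (.ch (nat_lit 1) (.ev (nat_lit 1828) (nat_lit 64) (.ev (nat_lit 2084) (nat_lit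
 1024) (.nd (nat_lit 4864) (.br (nat_lit 12) (.ch (nat_lit 1) (.ev (nat_lit 6452) (nat_lit 32768) (.ev (nat_lit
 6461) (nat_lit 256) .dd))) (.ch (nat_lit 12) (.ev (nat_lit 4880) (nat_lit 256) (.ev (nat_lit 4893) (nat_lit
 32768) .dd)))))))) (.br (nat_lit 3) (.ch (nat_lit 2) (.ev (nat_lit 2068) (nat_lit 64) (.ev (nat_lit 2084)
 (nat_lit 1024) (.nd (nat_lit 4224) (.br (nat_lit 3) (.br (nat_lit 2) (.ch (nat_lit 1) (.ev (nat_lit 4768)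
 (nat_lit 33024) .dd)) (.ch (nat_lit 2) (.ev (nat_lit 5188) (nat_lit 32768) (.ev (nat_lit 5197) (nat_lit 256)
 .dd)))) (.br (nat_lit 7) (.ch (nat_lit 3) (.ev (nat_lit 4692) (nat_lit 32768) (.ev (nat_lit 4701) (nat_lit
 256) .dd))) (.br (nat_lit 10) (.ch (nat_lit 7) (.ev (nat_lit 6260) (nat_lit 256) (.ev (nat_lit 6269) (nat_lit
 32768) .dd))) (.ch (nat_lit 10) (.fin (nat_lit 576382137306399260)))))))))) (.ch (nat_lit 3) (.ev (nat_lit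
 1472) (nat_lit 32768) (.nd (nat_lit 4592) (.br (nat_lit 6) (.br (nat_lit 4) (.ch (nat_lit 0) (.ev (nat_lit
 4608) (nat_lit 1088) (.ev (nat_lit 4621) (nat_lit 256) .dd))) (.ch (nat_lit 4) (.ev (nat_lit 4608) (nat_lit
 1088) (.ev (nat_lit 4621) (nat_lit 256) .dd)))) (.br (nat_lit 7) (.ch (nat_lit 6) (.ev (nat_lit 4608) (nat_lit
 1024) (.ev (nat_lit 6192) (nat_lit 320) .dd))) (.br (nat_lit 9) (.ch (nat_lit 7) (.ev (nat_lit 4608) (nat_lit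
 1024) (.ev (nat_lit 5616) (nat_lit 320) .dd))) (.ch (nat_lit 9) (.ev (nat_lit 4608) (nat_lit 64) (.ev (nat_lit
 5716) (nat_lit 1024) (.ev (nat_lit 5725) (nat_lit 256) .dd)))))))))))) (.br (nat_lit 11) (.br (nat_lit 10)
 (.ch (nat_lit 7) (.ev (nat_lit 1472) (nat_lit 64) (.nd (nat_lit 4224) (.br (nat_lit 5) (.br (nat_lit 2) (.ch
 (nat_lit 0) (.ev (nat_lit 4240) (nat_lit 33792) (.ev (nat_lit 4253) (nat_lit 256) .dd))) (.ch (nat_lit 2) (.ev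
 (nat_lit 4240) (nat_lit 1024) (.ev (nat_lit 4944) (nat_lit 33024) .dd)))) (.br (nat_lit 8) (.ch (nat_lit 5)
 (.ev (nat_lit 4240) (nat_lit 32768) (.ev (nat_lit 5300) (nat_lit 256) (.ev (nat_lit 5309) (nat_lit 1024)
 .dd)))) (.br (nat_lit 11) (.ch (nat_lit 8) (.ev (nat_lit 4240) (nat_lit 1280) (.ev (nat_lit 4253) (nat_lit
 32768) .dd))) (.ch (nat_lit 11) (.ev (nat_lit 4240) (nat_lit 1024) (.ev (nat_lit 4944) (nat_lit 256) (.ev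
 (nat_lit 4957) (nat_lit 32768) .dd)))))))))) (.ch (nat_lit 10) (.ev (nat_lit 1492) (nat_lit 32768) (.ev
 (nat_lit 1588) (nat_lit 256) (.ev (nat_lit 2068) (nat_lit 64) (.ev (nat_lit 2077) (nat_lit 1024) .dd))))))
 (.br (nat_lit 12) (.ch (nat_lit 11) (.ev (nat_lit 1472) (nat_lit 33856) (.ev (nat_lit 1485) (nat_lit 256)
 .dd))) (.ch (nat_lit 12) (.ev (nat_lit 1472) (nat_lit 1344) (.ev (nat_lit 1485) (nat_lit 32768)
 .dd)))))))))))) (.br (nat_lit 9) (.br (nat_lit 8) (.ch (nat_lit 7) (.ev (nat_lit 688) (nat_lit 163906) (.ev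
 (nat_lit 980) (nat_lit 1024) (.nd (nat_lit 1840) (.br (nat_lit 9) (.br (nat_lit 3) (.ch (nat_lit 0) (.ev
 (nat_lit 1876) (nat_lit 65536) (.ev (nat_lit 1885) (nat_lit 256) .dd))) (.ch (nat_lit 3) (.ev (nat_lit 5188)
 (nat_lit 256) (.ev (nat_lit 5197) (nat_lit 65536) .dd)))) (.br (nat_lit 10) (.ch (nat_lit 9) (.ev (nat_lit
 5540) (nat_lit 65536) (.ev (nat_lit 5549) (nat_lit 256) .dd))) (.br (nat_lit 11) (.ch (nat_lit 10) (.ev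
 (nat_lit 3252) (nat_lit 256) (.ev (nat_lit 3261) (nat_lit 65536) .dd))) (.ch (nat_lit 11) (.ev (nat_lit 1856)
 (nat_lit 65536) (.ev (nat_lit 1869) (nat_lit 256) .dd)))))))))) (.ch (nat_lit 8) (.ev (nat_lit 688) (nat_lit
 132096) (.nd (nat_lit 1264) (.br (nat_lit 5) (.br (nat_lit 2) (.br (nat_lit 1) (.ch (nat_lit 0) (.ev (nat_lit
 1280) (nat_lit 2) (.ev (nat_lit 2484) (nat_lit 64) (.ev (nat_lit 3396) (nat_lit 32768) (.nd (nat_lit 4592)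
 (.br (nat_lit 4) (.ch (nat_lit 2) (.ev (nat_lit 4608) (nat_lit 256) (.ev (nat_lit 4621) (nat_lit 65536) .dd)))
 (.br (nat_lit 7) (.ch (nat_lit 4) (.ev (nat_lit 4932) (nat_lit 65536) (.ev (nat_lit 4941) (nat_lit 256) .dd)))
 (.ch (nat_lit 7) (.ev (nat_lit 4644) (nat_lit 256) (.ev (nat_lit 4653) (nat_lit 65536) .dd)))))))))) (.ch
 (nat_lit 1) (.ev (nat_lit 1280) (nat_lit 32768) (.ev (nat_lit 2740) (nat_lit 2) (.ev (nat_lit 3940) (nat_lit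
 65536) (.nd (nat_lit 4864) (.br (nat_lit 9) (.br (nat_lit 5) (.ch (nat_lit 4) (.ev (nat_lit 4880) (nat_lit 64)
 (.ev (nat_lit 4893) (nat_lit 256) .dd))) (.ch (nat_lit 5) (.ev (nat_lit 4880) (nat_lit 256) (.ev (nat_lit
 4893) (nat_lit 64) .dd)))) (.br (nat_lit 11) (.ch (nat_lit 9) (.ev (nat_lit 4880) (nat_lit 64) (.ev (nat_lit
 4893) (nat_lit 256) .dd))) (.br (nat_lit 12) (.ch (nat_lit 11) (.ev (nat_lit 4880) (nat_lit 64) (.ev (nat_lit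
 4893) (nat_lit 256) .dd))) (.ch (nat_lit 12) (.ev (nat_lit 6148) (nat_lit 256) (.ev (nat_lit 6157) (nat_lit
 64) .dd)))))))))))) (.br (nat_lit 4) (.ch (nat_lit 2) (.ev (nat_lit 1280) (nat_lit 65538) (.ev (nat_lit 1492)
 (nat_lit 32768) (.nd (nat_lit 4592) (.br (nat_lit 9) (.br (nat_lit 7) (.ch (nat_lit 4) (.ev (nat_lit 4608)
 (nat_lit 64) (.ev (nat_lit 4621) (nat_lit 256) .dd))) (.ch (nat_lit 7) (.ev (nat_lit 4608) (nat_lit 64) (.ev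
 (nat_lit 4621) (nat_lit 256) .dd)))) (.br (nat_lit 11) (.ch (nat_lit 9) (.ev (nat_lit 4608) (nat_lit 64) (.ev
 (nat_lit 4621) (nat_lit 256) .dd))) (.ch (nat_lit 11) (.ev (nat_lit 4608) (nat_lit 256) (.ev (nat_lit 4621)
 (nat_lit 64) .dd))))))))) (.ch (nat_lit 4) (.ev (nat_lit 1280) (nat_lit 320) (.ev (nat_lit 1444) (nat_lit
 65538) (.ev (nat_lit 1453) (nat_lit 32768) .dd)))))) (.br (nat_lit 9) (.br (nat_lit 8) (.ch (nat_lit 5) (.ev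
 (nat_lit 1280) (nat_lit 65602) (.ev (nat_lit 6868) (nat_lit 32768) (.ev (nat_lit 6877) (nat_lit 256) .dd))))
 (.ch (nat_lit 8) (.ev (nat_lit 1280) (nat_lit 32768) (.ev (nat_lit 1444) (nat_lit 2) (.nd (nat_lit 4224) (.br
 (nat_lit 5) (.br (nat_lit 2) (.ch (nat_lit 0) (.ev (nat_lit 4240) (nat_lit 65792) (.ev (nat_lit 4253) (nat_lit
 64) .dd))) (.br (nat_lit 3) (.ch (nat_lit 2) (.ev (nat_lit 4548) (nat_lit 65536) (.ev (nat_lit 5572) (nat_lit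
 64) (.ev (nat_lit 5581) (nat_lit 256) .dd)))) (.ch (nat_lit 3) (.ev (nat_lit 4240) (nat_lit 65600) (.ev
 (nat_lit 4253) (nat_lit 256) .dd))))) (.br (nat_lit 7) (.ch (nat_lit 5) (.ev (nat_lit 4240) (nat_lit 64) (.fin
 (nat_lit 576444809426190932)))) (.br (nat_lit 9) (.ch (nat_lit 7) (.ev (nat_lit 4240) (nat_lit 65600) (.ev
 (nat_lit 4253) (nat_lit 256) .dd))) (.ch (nat_lit 9) (.ev (nat_lit 4240) (nat_lit 256) (.ev (nat_lit 5188)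
 (nat_lit 65536) (.ev (nat_lit 5197) (nat_lit 64) .dd)))))))))))) (.br (nat_lit 11) (.ch (nat_lit 9) (.ev
 (nat_lit 1280) (nat_lit 258) (.ev (nat_lit 1492) (nat_lit 32768) (.ev (nat_lit 6148) (nat_lit 65536) (.ev
 (nat_lit 6157) (nat_lit 64) .dd))))) (.br (nat_lit 12) (.ch (nat_lit 11) (.ev (nat_lit 1280) (nat_lit 33024)
 (.nd (nat_lit 4224) (.br (nat_lit 10) (.br (nat_lit 4) (.ch (nat_lit 1) (.ev (nat_lit 4644) (nat_lit 2) (.ev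
 (nat_lit 5492) (nat_lit 65536) (.ev (nat_lit 5501) (nat_lit 64) .dd)))) (.ch (nat_lit 4) (.ev (nat_lit 4240)
 (nat_lit 64) (.ev (nat_lit 4356) (nat_lit 65536) (.ev (nat_lit 4365) (nat_lit 2) .dd))))) (.br (nat_lit 12)
 (.ch (nat_lit 10) (.ev (nat_lit 4996) (nat_lit 64) (.ev (nat_lit 6260) (nat_lit 65536) (.ev (nat_lit 6269)
 (nat_lit 2) .dd)))) (.ch (nat_lit 12) (.ev (nat_lit 4240) (nat_lit 2) (.ev (nat_lit 4388) (nat_lit 65536) (.ev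
 (nat_lit 4397) (nat_lit 64) .dd))))))))) (.ch (nat_lit 12) (.ev (nat_lit 1280) (nat_lit 65600) (.ev (nat_lit
 1492) (nat_lit 32768) (.ev (nat_lit 2740) (nat_lit 2) (.ev (nat_lit 2749) (nat_lit 256) .dd))))))))))))) (.br
 (nat_lit 10) (.ch (nat_lit 9) (.ev (nat_lit 688) (nat_lit 197698) (.nd (nat_lit 1552) (.br (nat_lit 11) (.ch
 (nat_lit 10) (.ev (nat_lit 2912) (nat_lit 33024) .dd)) (.br (nat_lit 12) (.ch (nat_lit 11) (.nd (nat_lit 4304)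
 (.br (nat_lit 4) (.ch (nat_lit 3) (.ev (nat_lit 5924) (nat_lit 32768) (.ev (nat_lit 5933) (nat_lit 256) .dd)))
 (.br (nat_lit 6) (.ch (nat_lit 4) (.ev (nat_lit 6416) (nat_lit 33024) .dd)) (.ch (nat_lit 6) (.ev (nat_lit
 4644) (nat_lit 256) (.ev (nat_lit 4653) (nat_lit 32768) .dd))))))) (.ch (nat_lit 12) (.nd (nat_lit 4224) (.br
 (nat_lit 6) (.ch (nat_lit 5) (.ev (nat_lit 4500) (nat_lit 256) (.ev (nat_lit 4509) (nat_lit 32768) .dd))) (.ch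
 (nat_lit 6) (.ev (nat_lit 5044) (nat_lit 256) (.ev (nat_lit 5053) (nat_lit 32768) .dd))))))))))) (.br (nat_lit
 11) (.ch (nat_lit 10) (.ev (nat_lit 688) (nat_lit 34048) (.nd (nat_lit 1744) (.br (nat_lit 5) (.br (nat_lit 1)
 (.ch (nat_lit 0) (.ev (nat_lit 1760) (nat_lit 66) (.ev (nat_lit 6260) (nat_lit 131072) (.ev (nat_lit 6269)
 (nat_lit 65536) .dd)))) (.br (nat_lit 3) (.ch (nat_lit 1) (.ev (nat_lit 1760) (nat_lit 66) (.ev (nat_lit 2068)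
 (nat_lit 65536) (.ev (nat_lit 2077) (nat_lit 131072) .dd)))) (.ch (nat_lit 3) (.ev (nat_lit 1760) (nat_lit
 131072) (.ev (nat_lit 2372) (nat_lit 2) (.ev (nat_lit 3700) (nat_lit 65536) (.ev (nat_lit 3709) (nat_lit 64)
 .dd))))))) (.br (nat_lit 8) (.ch (nat_lit 5) (.ev (nat_lit 1760) (nat_lit 64) (.ev (nat_lit 1780) (nat_lit
 65536) (.ev (nat_lit 2788) (nat_lit 2) (.ev (nat_lit 2797) (nat_lit 131072) .dd))))) (.br (nat_lit 12) (.ch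
 (nat_lit 8) (.ev (nat_lit 2740) (nat_lit 2) (.ev (nat_lit 7108) (nat_lit 131072) (.nd (nat_lit 7568) (.br
 (nat_lit 10) (.ch (nat_lit 6) (.ev (nat_lit 7584) (nat_lit 65536) (.ev (nat_lit 7597) (nat_lit 64) .dd))) (.ch
 (nat_lit 10) (.nd (nat_lit 8992) (.br (nat_lit 10) (.ch (nat_lit 4) (.ev (nat_lit 9008) (nat_lit 64) (.ev
 (nat_lit 9021) (nat_lit 65536) .dd))) (.ch (nat_lit 10) (.nd (nat_lit 9552) (.ch (nat_lit 9) (.nd (nat_lit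
 9728) (.br (nat_lit 9) (.ch (nat_lit 5) (.fin (nat_lit 573061602125227551))) (.ch (nat_lit 9) (.ev (nat_lit
 9744) (nat_lit 64) (.ev (nat_lit 9757) (nat_lit 65536) .dd)))))))))))))))) (.ch (nat_lit 12) (.ev (nat_lit
 1780) (nat_lit 65536) (.ev (nat_lit 2372) (nat_lit 2) (.ev (nat_lit 6260) (nat_lit 64) (.ev (nat_lit 6269)
 (nat_lit 131072) .dd))))))))))) (.ch (nat_lit 11) (.ev (nat_lit 688) (nat_lit 196608) (.ev (nat_lit 980)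
 (nat_lit 2) (.nd (nat_lit 1456) (.br (nat_lit 7) (.br (nat_lit 5) (.ch (nat_lit 1) (.ev (nat_lit 1472)
 (nat_lit 1024) (.nd (nat_lit 4864) (.br (nat_lit 4) (.br (nat_lit 1) (.ch (nat_lit 0) (.ev (nat_lit 4880)
 (nat_lit 32832) (.ev (nat_lit 4893) (nat_lit 256) .dd))) (.br (nat_lit 2) (.ch (nat_lit 1) (.ev (nat_lit 6452)
 (nat_lit 256) (.ev (nat_lit 7204) (nat_lit 32768) (.ev (nat_lit 7213) (nat_lit 64) .dd)))) (.ch (nat_lit 2)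
 (.ev (nat_lit 4880) (nat_lit 256) (.ev (nat_lit 5152) (nat_lit 32832) .dd))))) (.br (nat_lit 8) (.ch (nat_lit
 4) (.ev (nat_lit 4880) (nat_lit 256) (.ev (nat_lit 6160) (nat_lit 32832) .dd))) (.br (nat_lit 12) (.ch
 (nat_lit 8) (.ev (nat_lit 4880) (nat_lit 256) (.ev (nat_lit 6800) (nat_lit 64) (.ev (nat_lit 6813) (nat_lit
 32768) .dd)))) (.ch (nat_lit 12) (.ev (nat_lit 4880) (nat_lit 256) (.ev (nat_lit 6160) (nat_lit 32832)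
 .dd))))))))) (.br (nat_lit 6) (.ch (nat_lit 5) (.ev (nat_lit 1472) (nat_lit 32768) (.ev (nat_lit 1684)
 (nat_lit 1024) (.ev (nat_lit 6452) (nat_lit 64) (.ev (nat_lit 6461) (nat_lit 256) .dd))))) (.ch (nat_lit 6)
 (.ev (nat_lit 1472) (nat_lit 64) (.ev (nat_lit 2948) (nat_lit 1024) (.ev (nat_lit 6740) (nat_lit 256) (.ev
 (nat_lit 6749) (nat_lit 32768) .dd))))))) (.br (nat_lit 8) (.ch (nat_lit 7) (.ev (nat_lit 1472) (nat_lit 1024)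
 (.ev (nat_lit 1684) (nat_lit 32768) (.ev (nat_lit 3024) (nat_lit 64) (.ev (nat_lit 3037) (nat_lit 256)
 .dd))))) (.br (nat_lit 11) (.ch (nat_lit 8) (.ev (nat_lit 1472) (nat_lit 32768) (.ev (nat_lit 1684) (nat_lit
 256) (.ev (nat_lit 2880) (nat_lit 64) (.ev (nat_lit 2893) (nat_lit 1024) .dd))))) (.ch (nat_lit 11) (.ev
 (nat_lit 1472) (nat_lit 64) (.ev (nat_lit 2832) (nat_lit 1024) (.ev (nat_lit 4996) (nat_lit 256) (.ev (nat_lit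
 5005) (nat_lit 32768) .dd))))))))))))))))))) (.ch (nat_lit 6) (.ev (nat_lit 416) (nat_lit 2048) (.nd (nat_lit
 624) (.br (nat_lit 7) (.br (nat_lit 5) (.br (nat_lit 4) (.ch (nat_lit 2) (.ev (nat_lit 640) (nat_lit 64) (.ev
 (nat_lit 820) (nat_lit 65536) (.nd (nat_lit 1264) (.br (nat_lit 5) (.br (nat_lit 3) (.br (nat_lit 2) (.ch
 (nat_lit 1) (.ev (nat_lit 1280) (nat_lit 32768) (.ev (nat_lit 2180) (nat_lit 131072) (.nd (nat_lit 4304) (.br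
 (nat_lit 6) (.br (nat_lit 2) (.ch (nat_lit 0) (.ev (nat_lit 4320) (nat_lit 1282) .dd)) (.br (nat_lit 4) (.ch
 (nat_lit 2) (.ev (nat_lit 4644) (nat_lit 2) (.ev (nat_lit 5044) (nat_lit 256) (.ev (nat_lit 5053) (nat_lit
 1024) .dd)))) (.ch (nat_lit 4) (.ev (nat_lit 4320) (nat_lit 2) (.ev (nat_lit 4932) (nat_lit 256) (.ev (nat_lit
 4941) (nat_lit 1024) .dd)))))) (.br (nat_lit 9) (.ch (nat_lit 6) (.ev (nat_lit 4320) (nat_lit 2) (.ev (nat_lit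
 4996) (nat_lit 256) (.ev (nat_lit 5005) (nat_lit 1024) .dd)))) (.br (nat_lit 12) (.ch (nat_lit 9) (.ev
 (nat_lit 4320) (nat_lit 256) (.ev (nat_lit 4468) (nat_lit 1024) (.ev (nat_lit 4477) (nat_lit 2) .dd)))) (.ch
 (nat_lit 12) (.ev (nat_lit 4320) (nat_lit 1024) (.ev (nat_lit 4996) (nat_lit 256) (.ev (nat_lit 5005) (nat_lit
 2) .dd))))))))))) (.ch (nat_lit 2) (.ev (nat_lit 1280) (nat_lit 1280) (.ev (nat_lit 1444) (nat_lit 2) (.ev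
 (nat_lit 2196) (nat_lit 131072) (.ev (nat_lit 2205) (nat_lit 32768) .dd)))))) (.br (nat_lit 4) (.ch (nat_lit
 3) (.ev (nat_lit 1444) (nat_lit 2) (.ev (nat_lit 2420) (nat_lit 256) (.nd (nat_lit 4304) (.br (nat_lit 6) (.br
 (nat_lit 4) (.ch (nat_lit 2) (.ev (nat_lit 4320) (nat_lit 132096) (.ev (nat_lit 4333) (nat_lit 32768) .dd)))
 (.br (nat_lit 5) (.ch (nat_lit 4) (.ev (nat_lit 4320) (nat_lit 131072) (.ev (nat_lit 4564) (nat_lit 32768)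
 (.ev (nat_lit 4573) (nat_lit 1024) .dd)))) (.ch (nat_lit 5) (.ev (nat_lit 4320) (nat_lit 163840) (.ev (nat_lit
 4333) (nat_lit 1024) .dd))))) (.br (nat_lit 8) (.br (nat_lit 7) (.ch (nat_lit 6) (.ev (nat_lit 4320) (nat_lit
 131072) (.ev (nat_lit 5572) (nat_lit 32768) (.ev (nat_lit 5581) (nat_lit 1024) .dd)))) (.ch (nat_lit 7) (.ev
 (nat_lit 4320) (nat_lit 1024) (.ev (nat_lit 5504) (nat_lit 32768) (.ev (nat_lit 5517) (nat_lit 131072)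
 .dd))))) (.br (nat_lit 12) (.ch (nat_lit 8) (.ev (nat_lit 4320) (nat_lit 131072) (.ev (nat_lit 4356) (nat_lit
 32768) (.ev (nat_lit 4365) (nat_lit 1024) .dd)))) (.ch (nat_lit 12) (.ev (nat_lit 4320) (nat_lit 163840) (.ev
 (nat_lit 4333) (nat_lit 1024) .dd)))))))))) (.ch (nat_lit 4) (.ev (nat_lit 1280) (nat_lit 131074) (.ev
 (nat_lit 2036) (nat_lit 256) (.ev (nat_lit 6452) (nat_lit 1024) (.ev (nat_lit 6461) (nat_lit 32768) .dd)))))))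
 (.br (nat_lit 8) (.br (nat_lit 7) (.ch (nat_lit 5) (.ev (nat_lit 1280) (nat_lit 164864) (.nd (nat_lit 4864)
 (.br (nat_lit 8) (.ch (nat_lit 5) (.ev (nat_lit 4944) (nat_lit 258) .dd)) (.br (nat_lit 11) (.ch (nat_lit 8)
 (.ev (nat_lit 4880) (nat_lit 2) (.ev (nat_lit 4893) (nat_lit 256) .dd))) (.ch (nat_lit 11) (.ev (nat_lit 4880)
 (nat_lit 256) (.ev (nat_lit 4893) (nat_lit 2) .dd)))))))) (.ch (nat_lit 7) (.ev (nat_lit 1280) (nat_lit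
 164096) (.ev (nat_lit 1620) (nat_lit 2) (.ev (nat_lit 1629) (nat_lit 1024) .dd))))) (.br (nat_lit 11) (.ch
 (nat_lit 8) (.ev (nat_lit 1280) (nat_lit 1280) (.ev (nat_lit 1588) (nat_lit 131072) (.fin (nat_lit
 587513595627526907))))) (.br (nat_lit 12) (.ch (nat_lit 11) (.ev (nat_lit 1280) (nat_lit 131074) (.nd (nat_lit
 3984) (.br (nat_lit 10) (.br (nat_lit 6) (.ch (nat_lit 2) (.ev (nat_lit 4000) (nat_lit 256) (.ev (nat_lit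
 5604) (nat_lit 32768) (.ev (nat_lit 5613) (nat_lit 1024) .dd)))) (.ch (nat_lit 6) (.ev (nat_lit 4000) (nat_lit
 32768) (.fin (nat_lit 576426117714887112))))) (.br (nat_lit 12) (.ch (nat_lit 10) (.ev (nat_lit 4000) (nat_lit
 32768) (.ev (nat_lit 4276) (nat_lit 1024) (.ev (nat_lit 4285) (nat_lit 256) .dd)))) (.ch (nat_lit 12) (.ev
 (nat_lit 4000) (nat_lit 32768) (.ev (nat_lit 4960) (nat_lit 256) (.ev (nat_lit 4973) (nat_lit 1024)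
 .dd))))))))) (.ch (nat_lit 12) (.ev (nat_lit 1280) (nat_lit 163842) (.nd (nat_lit 3984) (.br (nat_lit 5) (.ch
 (nat_lit 1) (.ev (nat_lit 5044) (nat_lit 1024) (.ev (nat_lit 5053) (nat_lit 256) .dd))) (.ch (nat_lit 5) (.ev
 (nat_lit 6260) (nat_lit 1024) (.ev (nat_lit 6269) (nat_lit 256) .dd))))))))))))))) (.ch (nat_lit 4) (.ev
 (nat_lit 640) (nat_lit 98626) (.nd (nat_lit 1840) (.br (nat_lit 9) (.br (nat_lit 3) (.ch (nat_lit 0) (.ev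
 (nat_lit 1856) (nat_lit 131072) (.ev (nat_lit 1869) (nat_lit 1024) .dd))) (.br (nat_lit 8) (.ch (nat_lit 3)
 (.ev (nat_lit 6260) (nat_lit 1024) (.ev (nat_lit 6269) (nat_lit 131072) .dd))) (.ch (nat_lit 8) (.ev (nat_lit
 2372) (nat_lit 131072) (.ev (nat_lit 2381) (nat_lit 1024) .dd))))) (.br (nat_lit 10) (.ch (nat_lit 9) (.ev
 (nat_lit 1856) (nat_lit 131072) (.ev (nat_lit 1869) (nat_lit 1024) .dd))) (.br (nat_lit 11) (.ch (nat_lit 10)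
 (.ev (nat_lit 1856) (nat_lit 1024) (.ev (nat_lit 1869) (nat_lit 131072) .dd))) (.ch (nat_lit 11) (.ev (nat_lit
 2388) (nat_lit 131072) (.ev (nat_lit 2397) (nat_lit 1024) .dd)))))))))) (.br (nat_lit 6) (.ch (nat_lit 5) (.ev
 (nat_lit 640) (nat_lit 32768) (.ev (nat_lit 980) (nat_lit 64) (.nd (nat_lit 1456) (.br (nat_lit 6) (.br
 (nat_lit 4) (.br (nat_lit 2) (.ch (nat_lit 0) (.ev (nat_lit 1472) (nat_lit 65792) (.ev (nat_lit 1588) (nat_lit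
 1024) (.ev (nat_lit 1892) (nat_lit 131072) (.ev (nat_lit 1901) (nat_lit 2) .dd))))) (.ch (nat_lit 2) (.ev
 (nat_lit 1472) (nat_lit 256) (.ev (nat_lit 1684) (nat_lit 131072) (.nd (nat_lit 4592) (.br (nat_lit 6) (.br
 (nat_lit 5) (.ch (nat_lit 4) (.ev (nat_lit 4608) (nat_lit 2) (.ev (nat_lit 4692) (nat_lit 1024) (.ev (nat_lit
 4701) (nat_lit 65536) .dd)))) (.ch (nat_lit 5) (.ev (nat_lit 4608) (nat_lit 65538) (.ev (nat_lit 4621)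
 (nat_lit 1024) .dd)))) (.br (nat_lit 8) (.ch (nat_lit 6) (.ev (nat_lit 4932) (nat_lit 65536) (.ev (nat_lit
 4996) (nat_lit 1024) (.ev (nat_lit 5005) (nat_lit 2) .dd)))) (.br (nat_lit 10) (.ch (nat_lit 8) (.ev (nat_lit
 4608) (nat_lit 66560) (.ev (nat_lit 4621) (nat_lit 2) .dd))) (.ch (nat_lit 10) (.ev (nat_lit 4608) (nat_lit
 1026) (.ev (nat_lit 4621) (nat_lit 65536) .dd))))))))))) (.br (nat_lit 5) (.ch (nat_lit 4) (.ev (nat_lit 1472)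
 (nat_lit 65792) (.ev (nat_lit 1892) (nat_lit 131072) (.nd (nat_lit 4864) (.br (nat_lit 9) (.br (nat_lit 5)
 (.ch (nat_lit 1) (.ev (nat_lit 4932) (nat_lit 2) (.ev (nat_lit 4941) (nat_lit 1024) .dd))) (.ch (nat_lit 5)
 (.ev (nat_lit 4880) (nat_lit 1024) (.ev (nat_lit 4893) (nat_lit 2) .dd)))) (.br (nat_lit 12) (.ch (nat_lit 9)
 (.ev (nat_lit 5552) (nat_lit 1026) .dd)) (.ch (nat_lit 12) (.ev (nat_lit 6368) (nat_lit 1024) (.ev (nat_lit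
 6381) (nat_lit 2) .dd))))))))) (.ch (nat_lit 5) (.ev (nat_lit 1472) (nat_lit 258) (.ev (nat_lit 1684) (nat_lit
 131072) (.nd (nat_lit 4416) (.br (nat_lit 8) (.br (nat_lit 5) (.ch (nat_lit 4) (.ev (nat_lit 4432) (nat_lit
 1024) (.ev (nat_lit 4445) (nat_lit 65536) .dd))) (.br (nat_lit 6) (.ch (nat_lit 5) (.ev (nat_lit 4432)
 (nat_lit 66560) .dd)) (.ch (nat_lit 6) (.ev (nat_lit 4432) (nat_lit 1024) (.ev (nat_lit 4445) (nat_lit 65536)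
 .dd))))) (.br (nat_lit 10) (.ch (nat_lit 8) (.ev (nat_lit 4932) (nat_lit 1024) (.ev (nat_lit 4941) (nat_lit
 65536) .dd))) (.br (nat_lit 11) (.ch (nat_lit 10) (.ev (nat_lit 4432) (nat_lit 65536) (.ev (nat_lit 4445)
 (nat_lit 1024) .dd))) (.ch (nat_lit 11) (.ev (nat_lit 4944) (nat_lit 1024) (.ev (nat_lit 4957) (nat_lit 65536)
 .dd)))))))))))) (.br (nat_lit 10) (.br (nat_lit 8) (.ch (nat_lit 6) (.ev (nat_lit 1472) (nat_lit 131074) (.ev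
 (nat_lit 1492) (nat_lit 65536) (.ev (nat_lit 3140) (nat_lit 256) (.ev (nat_lit 3149) (nat_lit 1024) .dd)))))
 (.ch (nat_lit 8) (.ev (nat_lit 1472) (nat_lit 132098) (.ev (nat_lit 6644) (nat_lit 256) (.ev (nat_lit 6653)
 (nat_lit 65536) .dd))))) (.br (nat_lit 11) (.ch (nat_lit 10) (.ev (nat_lit 1472) (nat_lit 131074) (.nd
 (nat_lit 4304) (.br (nat_lit 8) (.br (nat_lit 7) (.ch (nat_lit 1) (.ev (nat_lit 5140) (nat_lit 1024) (.ev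
 (nat_lit 6148) (nat_lit 65536) (.ev (nat_lit 6157) (nat_lit 256) .dd)))) (.ch (nat_lit 7) (.ev (nat_lit 4320)
 (nat_lit 256) (.ev (nat_lit 4644) (nat_lit 1024) (.ev (nat_lit 4653) (nat_lit 65536) .dd))))) (.br (nat_lit
 10) (.ch (nat_lit 8) (.ev (nat_lit 4320) (nat_lit 65536) (.ev (nat_lit 4644) (nat_lit 1024) (.ev (nat_lit
 4653) (nat_lit 256) .dd)))) (.ch (nat_lit 10) (.ev (nat_lit 4320) (nat_lit 256) (.ev (nat_lit 5044) (nat_lit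
 1024) (.ev (nat_lit 5053) (nat_lit 65536) .dd))))))))) (.br (nat_lit 12) (.ch (nat_lit 11) (.ev (nat_lit 1472)
 (nat_lit 1280) (.ev (nat_lit 1492) (nat_lit 2) (.ev (nat_lit 6596) (nat_lit 65536) (.ev (nat_lit 6605)
 (nat_lit 131072) .dd))))) (.ch (nat_lit 12) (.ev (nat_lit 1472) (nat_lit 66562) (.ev (nat_lit 1780) (nat_lit
 256) (.ev (nat_lit 1789) (nat_lit 131072) .dd)))))))))))) (.ch (nat_lit 6) (.ev (nat_lit 640) (nat_lit 99648)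
 (.ev (nat_lit 1044) (nat_lit 131072) (.ev (nat_lit 1053) (nat_lit 2) .dd)))))) (.br (nat_lit 9) (.br (nat_lit
 8) (.ch (nat_lit 7) (.ev (nat_lit 640) (nat_lit 65538) (.ev (nat_lit 916) (nat_lit 256) (.ev (nat_lit 1140)
 (nat_lit 131072) (.nd (nat_lit 1648) (.br (nat_lit 5) (.br (nat_lit 1) (.ch (nat_lit 0) (.ev (nat_lit 6356)
 (nat_lit 64) (.ev (nat_lit 6644) (nat_lit 32768) (.ev (nat_lit 6653) (nat_lit 1024) .dd)))) (.br (nat_lit 3)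
 (.ch (nat_lit 1) (.ev (nat_lit 1664) (nat_lit 33792) (.ev (nat_lit 1677) (nat_lit 64) .dd))) (.ch (nat_lit 3)
 (.ev (nat_lit 1684) (nat_lit 32768) (.ev (nat_lit 1780) (nat_lit 64) (.ev (nat_lit 1789) (nat_lit 1024)
 .dd)))))) (.br (nat_lit 10) (.br (nat_lit 8) (.ch (nat_lit 5) (.ev (nat_lit 1664) (nat_lit 64) (.ev (nat_lit
 4096) (nat_lit 33792) .dd))) (.ch (nat_lit 8) (.ev (nat_lit 1664) (nat_lit 33856) .dd))) (.br (nat_lit 11)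
 (.ch (nat_lit 10) (.ev (nat_lit 2452) (nat_lit 1024) (.ev (nat_lit 3812) (nat_lit 64) (.ev (nat_lit 3821)
 (nat_lit 32768) .dd)))) (.ch (nat_lit 11) (.ev (nat_lit 1664) (nat_lit 1024) (.ev (nat_lit 1684) (nat_lit
 32768) (.ev (nat_lit 1693) (nat_lit 64) .dd)))))))))))) (.ch (nat_lit 8) (.ev (nat_lit 640) (nat_lit 131330)
 (.ev (nat_lit 1332) (nat_lit 65536) (.nd (nat_lit 1840) (.br (nat_lit 7) (.br (nat_lit 3) (.br (nat_lit 1)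
 (.ch (nat_lit 0) (.ev (nat_lit 1876) (nat_lit 64) (.ev (nat_lit 2004) (nat_lit 32768) (.ev (nat_lit 2013)
 (nat_lit 1024) .dd)))) (.ch (nat_lit 1) (.ev (nat_lit 1856) (nat_lit 1088) (.ev (nat_lit 1869) (nat_lit 32768)
 .dd)))) (.br (nat_lit 4) (.ch (nat_lit 3) (.ev (nat_lit 1856) (nat_lit 1024) (.ev (nat_lit 1908) (nat_lit 64)
 (.ev (nat_lit 1917) (nat_lit 32768) .dd)))) (.ch (nat_lit 4) (.ev (nat_lit 1856) (nat_lit 32832) (.ev (nat_lit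
 1869) (nat_lit 1024) .dd))))) (.br (nat_lit 9) (.br (nat_lit 8) (.ch (nat_lit 7) (.ev (nat_lit 1856) (nat_lit
 1024) (.ev (nat_lit 2820) (nat_lit 32768) (.ev (nat_lit 2829) (nat_lit 64) .dd)))) (.ch (nat_lit 8) (.ev
 (nat_lit 1876) (nat_lit 64) (.ev (nat_lit 2036) (nat_lit 1024) (.ev (nat_lit 2045) (nat_lit 32768) .dd)))))
 (.br (nat_lit 12) (.ch (nat_lit 9) (.ev (nat_lit 1856) (nat_lit 1024) (.ev (nat_lit 2004) (nat_lit 32768) (.ev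
 (nat_lit 2013) (nat_lit 64) .dd)))) (.ch (nat_lit 12) (.ev (nat_lit 1856) (nat_lit 33792) (.ev (nat_lit 1869)
 (nat_lit 64) .dd))))))))))) (.br (nat_lit 10) (.ch (nat_lit 9) (.ev (nat_lit 640) (nat_lit 132096) (.nd
 (nat_lit 1408) (.br (nat_lit 5) (.br (nat_lit 2) (.br (nat_lit 1) (.ch (nat_lit 0) (.ev (nat_lit 1424)
 (nat_lit 2) (.ev (nat_lit 2868) (nat_lit 65536) (.nd (nat_lit 4864) (.br (nat_lit 5) (.br (nat_lit 2) (.ch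
 (nat_lit 0) (.ev (nat_lit 4880) (nat_lit 32832) (.ev (nat_lit 4893) (nat_lit 256) .dd))) (.ch (nat_lit 2) (.ev
 (nat_lit 4880) (nat_lit 33088) .dd))) (.br (nat_lit 11) (.ch (nat_lit 5) (.ev (nat_lit 4880) (nat_lit 33024)
 (.ev (nat_lit 4893) (nat_lit 64) .dd))) (.ch (nat_lit 11) (.ev (nat_lit 4880) (nat_lit 64) (.ev (nat_lit 4996)
 (nat_lit 256) (.ev (nat_lit 5005) (nat_lit 32768) .dd)))))))))) (.ch (nat_lit 1) (.ev (nat_lit 1424) (nat_lit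
 98368) (.ev (nat_lit 2900) (nat_lit 256) (.ev (nat_lit 2909) (nat_lit 2) .dd))))) (.br (nat_lit 4) (.ch
 (nat_lit 2) (.ev (nat_lit 1424) (nat_lit 32832) (.ev (nat_lit 3604) (nat_lit 65536) (.ev (nat_lit 6544)
 (nat_lit 2) (.ev (nat_lit 6557) (nat_lit 256) .dd))))) (.ch (nat_lit 4) (.ev (nat_lit 1424) (nat_lit 258) (.nd
 (nat_lit 4416) (.br (nat_lit 9) (.br (nat_lit 4) (.ch (nat_lit 0) (.ev (nat_lit 4432) (nat_lit 32768) (.ev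
 (nat_lit 4468) (nat_lit 65536) (.ev (nat_lit 4477) (nat_lit 64) .dd)))) (.ch (nat_lit 4) (.ev (nat_lit 4432)
 (nat_lit 65536) (.ev (nat_lit 6368) (nat_lit 32832) .dd)))) (.br (nat_lit 12) (.ch (nat_lit 9) (.ev (nat_lit
 4432) (nat_lit 64) (.ev (nat_lit 6452) (nat_lit 65536) (.ev (nat_lit 6461) (nat_lit 32768) .dd)))) (.ch
 (nat_lit 12) (.ev (nat_lit 4432) (nat_lit 64) (.ev (nat_lit 4724) (nat_lit 65536) (.ev (nat_lit 4733) (nat_lit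
 32768) .dd))))))))))) (.br (nat_lit 9) (.br (nat_lit 6) (.ch (nat_lit 5) (.ev (nat_lit 1424) (nat_lit 33088)
 (.ev (nat_lit 6500) (nat_lit 65536) (.ev (nat_lit 6509) (nat_lit 2) .dd)))) (.ch (nat_lit 6) (.ev (nat_lit
 1424) (nat_lit 65538) (.ev (nat_lit 4164) (nat_lit 64) (.ev (nat_lit 5056) (nat_lit 32768) (.ev (nat_lit 5069)
 (nat_lit 256) .dd)))))) (.br (nat_lit 10) (.ch (nat_lit 9) (.ev (nat_lit 1424) (nat_lit 322) (.ev (nat_lit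
 2180) (nat_lit 32768) (.ev (nat_lit 2189) (nat_lit 65536) .dd)))) (.br (nat_lit 12) (.ch (nat_lit 10) (.ev
 (nat_lit 1424) (nat_lit 98368) (.ev (nat_lit 1908) (nat_lit 256) (.ev (nat_lit 1917) (nat_lit 2) .dd)))) (.ch
 (nat_lit 12) (.ev (nat_lit 1424) (nat_lit 33088) (.ev (nat_lit 5188) (nat_lit 65536) (.ev (nat_lit 5197)
 (nat_lit 2) .dd))))))))))) (.br (nat_lit 11) (.ch (nat_lit 10) (.ev (nat_lit 640) (nat_lit 164864) (.nd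
 (nat_lit 1648) (.br (nat_lit 8) (.br (nat_lit 5) (.br (nat_lit 4) (.ch (nat_lit 2) (.ev (nat_lit 3540)
 (nat_lit 65536) (.ev (nat_lit 5924) (nat_lit 2) (.ev (nat_lit 6596) (nat_lit 256) (.ev (nat_lit 6605) (nat_lit
 64) .dd))))) (.ch (nat_lit 4) (.ev (nat_lit 1664) (nat_lit 258) (.ev (nat_lit 6692) (nat_lit 64) (.ev (nat_lit
 6701) (nat_lit 65536) .dd))))) (.br (nat_lit 6) (.ch (nat_lit 5) (.ev (nat_lit 1664) (nat_lit 64) (.nd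
 (nat_lit 4304) (.br (nat_lit 5) (.br (nat_lit 2) (.ch (nat_lit 0) (.ev (nat_lit 4320) (nat_lit 256) (.ev
 (nat_lit 4644) (nat_lit 65536) (.ev (nat_lit 4653) (nat_lit 2) .dd)))) (.br (nat_lit 4) (.ch (nat_lit 2) (.ev
 (nat_lit 5300) (nat_lit 65536) (.ev (nat_lit 5444) (nat_lit 2) (.ev (nat_lit 5453) (nat_lit 256) .dd)))) (.ch
 (nat_lit 4) (.ev (nat_lit 4356) (nat_lit 2) (.ev (nat_lit 4644) (nat_lit 256) (.ev (nat_lit 4653) (nat_lit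
 65536) .dd)))))) (.br (nat_lit 11) (.ch (nat_lit 5) (.ev (nat_lit 4356) (nat_lit 2) (.ev (nat_lit 4644)
 (nat_lit 65536) (.ev (nat_lit 4653) (nat_lit 256) .dd)))) (.br (nat_lit 12) (.ch (nat_lit 11) (.ev (nat_lit
 4320) (nat_lit 65536) (.ev (nat_lit 5280) (nat_lit 256) (.ev (nat_lit 5293) (nat_lit 2) .dd)))) (.ch (nat_lit
 12) (.ev (nat_lit 4320) (nat_lit 256) (.ev (nat_lit 4356) (nat_lit 2) (.ev (nat_lit 4365) (nat_lit 65536)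
 .dd)))))))))) (.ch (nat_lit 6) (.ev (nat_lit 1664) (nat_lit 322) (.ev (nat_lit 1677) (nat_lit 65536) .dd)))))
 (.br (nat_lit 10) (.br (nat_lit 9) (.ch (nat_lit 8) (.ev (nat_lit 1664) (nat_lit 65794) (.ev (nat_lit 1677)
 (nat_lit 64) .dd))) (.ch (nat_lit 9) (.ev (nat_lit 1664) (nat_lit 65600) (.nd (nat_lit 4592) (.br (nat_lit 11)
 (.ch (nat_lit 1) (.ev (nat_lit 4644) (nat_lit 2) (.ev (nat_lit 4653) (nat_lit 256) .dd))) (.ch (nat_lit 11)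
 (.ev (nat_lit 5844) (nat_lit 2) (.ev (nat_lit 5853) (nat_lit 256) .dd)))))))) (.br (nat_lit 11) (.ch (nat_lit
 10) (.ev (nat_lit 1664) (nat_lit 64) (.nd (nat_lit 4592) (.br (nat_lit 8) (.br (nat_lit 4) (.ch (nat_lit 1)
 (.ev (nat_lit 4608) (nat_lit 65536) (.ev (nat_lit 4768) (nat_lit 256) (.ev (nat_lit 4781) (nat_lit 2) .dd))))
 (.ch (nat_lit 4) (.ev (nat_lit 4932) (nat_lit 65536) (.ev (nat_lit 5492) (nat_lit 256) (.ev (nat_lit 5501)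
 (nat_lit 2) .dd))))) (.br (nat_lit 9) (.ch (nat_lit 8) (.ev (nat_lit 4608) (nat_lit 65536) (.ev (nat_lit 5424)
 (nat_lit 2) (.ev (nat_lit 5437) (nat_lit 256) .dd)))) (.br (nat_lit 10) (.ch (nat_lit 9) (.ev (nat_lit 4932)
 (nat_lit 65536) (.nd (nat_lit 8144) (.br (nat_lit 8) (.ch (nat_lit 7) (.ev (nat_lit 8160) (nat_lit 256) (.ev
 (nat_lit 8173) (nat_lit 2) .dd))) (.ch (nat_lit 8) (.fin (nat_lit 576487690246504956))))))) (.ch (nat_lit 10)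
 (.ev (nat_lit 4820) (nat_lit 2) (.ev (nat_lit 5044) (nat_lit 65536) (.ev (nat_lit 5053) (nat_lit 256)
 .dd)))))))))) (.ch (nat_lit 11) (.ev (nat_lit 1664) (nat_lit 65536) (.ev (nat_lit 1780) (nat_lit 64) (.nd
 (nat_lit 4592) (.br (nat_lit 10) (.br (nat_lit 6) (.ch (nat_lit 1) (.ev (nat_lit 4608) (nat_lit 2) (.ev
 (nat_lit 4621) (nat_lit 256) .dd))) (.br (nat_lit 9) (.ch (nat_lit 6) (.ev (nat_lit 4644) (nat_lit 2) (.ev
 (nat_lit 4653) (nat_lit 256) .dd))) (.ch (nat_lit 9) (.ev (nat_lit 4608) (nat_lit 2) (.ev (nat_lit 4621)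
 (nat_lit 256) .dd))))) (.br (nat_lit 11) (.ch (nat_lit 10) (.ev (nat_lit 4644) (nat_lit 256) (.ev (nat_lit
 4653) (nat_lit 2) .dd))) (.br (nat_lit 12) (.ch (nat_lit 11) (.ev (nat_lit 4608) (nat_lit 256) (.ev (nat_lit
 4621) (nat_lit 2) .dd))) (.ch (nat_lit 12) (.ev (nat_lit 4608) (nat_lit 2) (.ev (nat_lit 4621) (nat_lit 256)
 .dd)))))))))))))))) (.ch (nat_lit 11) (.ev (nat_lit 640) (nat_lit 64) (.nd (nat_lit 1264) (.br (nat_lit 5)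
 (.br (nat_lit 2) (.br (nat_lit 1) (.ch (nat_lit 0) (.ev (nat_lit 1280) (nat_lit 33024) (.nd (nat_lit 4304)
 (.br (nat_lit 9) (.br (nat_lit 7) (.ch (nat_lit 1) (.ev (nat_lit 4320) (nat_lit 131072) (.ev (nat_lit 5044)
 (nat_lit 65536) (.ev (nat_lit 6148) (nat_lit 2) (.ev (nat_lit 6157) (nat_lit 1024) .dd))))) (.br (nat_lit 8)
 (.ch (nat_lit 7) (.ev (nat_lit 4320) (nat_lit 1024) (.ev (nat_lit 4644) (nat_lit 2) (.ev (nat_lit 4996)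
 (nat_lit 65536) (.ev (nat_lit 5005) (nat_lit 131072) .dd))))) (.ch (nat_lit 8) (.ev (nat_lit 4320) (nat_lit
 132096) (.ev (nat_lit 4644) (nat_lit 65536) (.ev (nat_lit 4653) (nat_lit 2) .dd)))))) (.br (nat_lit 10) (.ch
 (nat_lit 9) (.ev (nat_lit 4320) (nat_lit 196608) (.ev (nat_lit 4644) (nat_lit 2) (.ev (nat_lit 4653) (nat_lit
 1024) .dd)))) (.br (nat_lit 12) (.ch (nat_lit 10) (.ev (nat_lit 4320) (nat_lit 197632) (.ev (nat_lit 4333)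
 (nat_lit 2) .dd))) (.ch (nat_lit 12) (.ev (nat_lit 4320) (nat_lit 1026) (.ev (nat_lit 4644) (nat_lit 65536)
 (.ev (nat_lit 4653) (nat_lit 131072) .dd)))))))))) (.ch (nat_lit 1) (.ev (nat_lit 1280) (nat_lit 132096) (.ev
 (nat_lit 1344) (nat_lit 2) (.ev (nat_lit 1492) (nat_lit 256) (.ev (nat_lit 1508) (nat_lit 65536) (.ev (nat_lit
 1517) (nat_lit 32768) .dd))))))) (.br (nat_lit 4) (.ch (nat_lit 2) (.ev (nat_lit 1280) (nat_lit 32768) (.ev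
 (nat_lit 3908) (nat_lit 65536) (.nd (nat_lit 4592) (.br (nat_lit 9) (.br (nat_lit 7) (.ch (nat_lit 6) (.ev
 (nat_lit 4608) (nat_lit 1026) (.ev (nat_lit 5312) (nat_lit 131328) .dd))) (.ch (nat_lit 7) (.ev (nat_lit 4608)
 (nat_lit 1280) (.ev (nat_lit 5044) (nat_lit 2) (.ev (nat_lit 5053) (nat_lit 131072) .dd))))) (.br (nat_lit 11)
 (.ch (nat_lit 9) (.ev (nat_lit 4608) (nat_lit 1026) (.ev (nat_lit 4996) (nat_lit 131072) (.ev (nat_lit 5005)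
 (nat_lit 256) .dd)))) (.br (nat_lit 12) (.ch (nat_lit 11) (.ev (nat_lit 4608) (nat_lit 131328) (.ev (nat_lit
 4724) (nat_lit 2) (.ev (nat_lit 4733) (nat_lit 1024) .dd)))) (.ch (nat_lit 12) (.ev (nat_lit 4608) (nat_lit
 258) (.ev (nat_lit 4756) (nat_lit 1024) (.ev (nat_lit 4765) (nat_lit 131072) .dd))))))))))) (.ch (nat_lit 4)
 (.ev (nat_lit 1280) (nat_lit 165122) (.ev (nat_lit 1293) (nat_lit 65536) .dd))))) (.br (nat_lit 10) (.br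
 (nat_lit 6) (.ch (nat_lit 5) (.ev (nat_lit 1280) (nat_lit 132098) (.ev (nat_lit 2548) (nat_lit 256) (.ev
 (nat_lit 3300) (nat_lit 65536) (.ev (nat_lit 3309) (nat_lit 32768) .dd))))) (.ch (nat_lit 6) (.ev (nat_lit
 1280) (nat_lit 65792) (.nd (nat_lit 4416) (.br (nat_lit 5) (.br (nat_lit 1) (.ch (nat_lit 0) (.ev (nat_lit
 4432) (nat_lit 2) (.ev (nat_lit 4692) (nat_lit 132096) (.ev (nat_lit 4701) (nat_lit 32768) .dd)))) (.br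
 (nat_lit 3) (.ch (nat_lit 1) (.ev (nat_lit 4432) (nat_lit 32768) (.ev (nat_lit 4644) (nat_lit 2) (.ev (nat_lit
 4692) (nat_lit 131072) (.ev (nat_lit 4701) (nat_lit 1024) .dd))))) (.ch (nat_lit 3) (.ev (nat_lit 4432)
 (nat_lit 32770) (.ev (nat_lit 4656) (nat_lit 132096) .dd))))) (.br (nat_lit 7) (.ch (nat_lit 5) (.ev (nat_lit
 4432) (nat_lit 132096) (.ev (nat_lit 6596) (nat_lit 2) (.ev (nat_lit 6605) (nat_lit 32768) .dd)))) (.br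
 (nat_lit 11) (.ch (nat_lit 7) (.ev (nat_lit 4432) (nat_lit 32768) (.ev (nat_lit 5044) (nat_lit 2) (.ev
 (nat_lit 5140) (nat_lit 1024) (.ev (nat_lit 5149) (nat_lit 131072) .dd))))) (.ch (nat_lit 11) (.ev (nat_lit
 4432) (nat_lit 32770) (.ev (nat_lit 5764) (nat_lit 1024) (.ev (nat_lit 5773) (nat_lit 131072) .dd)))))))))))
 (.br (nat_lit 12) (.ch (nat_lit 10) (.ev (nat_lit 1280) (nat_lit 65536) (.ev (nat_lit 1492) (nat_lit 256) (.nd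
 (nat_lit 4304) (.br (nat_lit 6) (.br (nat_lit 1) (.ch (nat_lit 0) (.ev (nat_lit 4320) (nat_lit 33792) (.ev
 (nat_lit 5188) (nat_lit 2) (.ev (nat_lit 5197) (nat_lit 131072) .dd)))) (.br (nat_lit 2) (.ch (nat_lit 1) (.ev
 (nat_lit 4320) (nat_lit 32770) (.ev (nat_lit 4388) (nat_lit 1024) (.ev (nat_lit 4397) (nat_lit 131072) .dd))))
 (.ch (nat_lit 2) (.ev (nat_lit 4320) (nat_lit 33792) (.ev (nat_lit 4356) (nat_lit 2) (.ev (nat_lit 4365)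
 (nat_lit 131072) .dd)))))) (.br (nat_lit 9) (.ch (nat_lit 6) (.ev (nat_lit 4320) (nat_lit 132096) (.ev
 (nat_lit 5300) (nat_lit 32768) (.ev (nat_lit 5309) (nat_lit 2) .dd)))) (.br (nat_lit 11) (.ch (nat_lit 9) (.ev
 (nat_lit 4320) (nat_lit 131074) (.ev (nat_lit 4896) (nat_lit 32768) (.ev (nat_lit 4909) (nat_lit 1024) .dd))))
 (.ch (nat_lit 11) (.ev (nat_lit 4320) (nat_lit 163842) (.ev (nat_lit 4333) (nat_lit 1024) .dd)))))))))) (.ch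
 (nat_lit 12) (.ev (nat_lit 1280) (nat_lit 32770) (.nd (nat_lit 3984) (.br (nat_lit 6) (.br (nat_lit 1) (.ch
 (nat_lit 0) (.ev (nat_lit 4000) (nat_lit 131072) (.ev (nat_lit 5044) (nat_lit 256) (.fin (nat_lit
 576522874660536844))))) (.br (nat_lit 2) (.ch (nat_lit 1) (.ev (nat_lit 4000) (nat_lit 256) (.ev (nat_lit
 5008) (nat_lit 131072) (.ev (nat_lit 5056) (nat_lit 66560) .dd)))) (.ch (nat_lit 2) (.ev (nat_lit 4000)
 (nat_lit 132096) (.ev (nat_lit 6452) (nat_lit 65536) (.ev (nat_lit 6461) (nat_lit 256) .dd)))))) (.br (nat_lit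
 11) (.br (nat_lit 9) (.ch (nat_lit 6) (.ev (nat_lit 4000) (nat_lit 132096) (.ev (nat_lit 4820) (nat_lit 65536)
 (.ev (nat_lit 4829) (nat_lit 256) .dd)))) (.ch (nat_lit 9) (.ev (nat_lit 4000) (nat_lit 131328) (.ev (nat_lit
 4692) (nat_lit 65536) (.ev (nat_lit 4701) (nat_lit 1024) .dd))))) (.br (nat_lit 12) (.ch (nat_lit 11) (.ev
 (nat_lit 4000) (nat_lit 65792) (.ev (nat_lit 4960) (nat_lit 132096) .dd))) (.ch (nat_lit 12) (.ev (nat_lit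
 4000) (nat_lit 66560) (.ev (nat_lit 6788) (nat_lit 256) (.ev (nat_lit 6797) (nat_lit 131072)
 .dd)))))))))))))))))))))))) (.br (nat_lit 10) (.ch (nat_lit 7) (.ev (nat_lit 416) (nat_lit 197632) (.nd
 (nat_lit 880) (.br (nat_lit 7) (.br (nat_lit 4) (.br (nat_lit 2) (.ch (nat_lit 1) (.ev (nat_lit 896) (nat_lit
 256) (.ev (nat_lit 1044) (nat_lit 32768) (.ev (nat_lit 1140) (nat_lit 2) (.ev (nat_lit 1220) (nat_lit 2048)
 (.ev (nat_lit 1229) (nat_lit 64) .dd)))))) (.ch (nat_lit 2) (.ev (nat_lit 896) (nat_lit 33026) (.nd (nat_lit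
 2624) (.br (nat_lit 4) (.ch (nat_lit 3) (.ev (nat_lit 5444) (nat_lit 64) (.ev (nat_lit 5453) (nat_lit 2048)
 .dd))) (.br (nat_lit 5) (.ch (nat_lit 4) (.ev (nat_lit 6356) (nat_lit 64) (.ev (nat_lit 6365) (nat_lit 2048)
 .dd))) (.ch (nat_lit 5) (.ev (nat_lit 2676) (nat_lit 2048) (.ev (nat_lit 2685) (nat_lit 64) .dd))))))))) (.br
 (nat_lit 6) (.ch (nat_lit 4) (.ev (nat_lit 896) (nat_lit 32768) (.nd (nat_lit 2128) (.br (nat_lit 6) (.br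
 (nat_lit 4) (.ch (nat_lit 2) (.ev (nat_lit 2144) (nat_lit 258) (.ev (nat_lit 2372) (nat_lit 64) (.ev (nat_lit
 2381) (nat_lit 2048) .dd)))) (.br (nat_lit 5) (.ch (nat_lit 4) (.ev (nat_lit 2144) (nat_lit 2112) (.ev
 (nat_lit 2388) (nat_lit 256) (.ev (nat_lit 2397) (nat_lit 2) .dd)))) (.ch (nat_lit 5) (.ev (nat_lit 2144)
 (nat_lit 64) (.ev (nat_lit 2372) (nat_lit 2048) (.ev (nat_lit 2788) (nat_lit 2) (.ev (nat_lit 2797) (nat_lit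
 256) .dd))))))) (.br (nat_lit 10) (.br (nat_lit 9) (.ch (nat_lit 6) (.ev (nat_lit 2144) (nat_lit 2304) (.ev
 (nat_lit 2388) (nat_lit 64) (.ev (nat_lit 2397) (nat_lit 2) .dd)))) (.ch (nat_lit 9) (.ev (nat_lit 2144)
 (nat_lit 2) (.ev (nat_lit 3972) (nat_lit 64) (.ev (nat_lit 5876) (nat_lit 2048) (.ev (nat_lit 5885) (nat_lit
 256) .dd)))))) (.br (nat_lit 11) (.ch (nat_lit 10) (.ev (nat_lit 2420) (nat_lit 64) (.ev (nat_lit 2676)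
 (nat_lit 2) (.ev (nat_lit 6692) (nat_lit 256) (.ev (nat_lit 6701) (nat_lit 2048) .dd))))) (.ch (nat_lit 11)
 (.ev (nat_lit 2372) (nat_lit 2048) (.ev (nat_lit 2452) (nat_lit 320) (.ev (nat_lit 2461) (nat_lit 2)
 .dd)))))))))) (.ch (nat_lit 6) (.ev (nat_lit 896) (nat_lit 2368) (.nd (nat_lit 3408) (.br (nat_lit 4) (.ch
 (nat_lit 3) (.ev (nat_lit 3812) (nat_lit 32768) (.ev (nat_lit 3821) (nat_lit 2) .dd))) (.br (nat_lit 6) (.ch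
 (nat_lit 4) (.ev (nat_lit 3540) (nat_lit 32768) (.ev (nat_lit 3549) (nat_lit 2) .dd))) (.ch (nat_lit 6) (.ev
 (nat_lit 3700) (nat_lit 32768) (.ev (nat_lit 3709) (nat_lit 2) .dd)))))))))) (.br (nat_lit 10) (.br (nat_lit
 8) (.ch (nat_lit 7) (.ev (nat_lit 896) (nat_lit 2112) (.ev (nat_lit 1044) (nat_lit 32768) (.ev (nat_lit 1124)
 (nat_lit 2) (.ev (nat_lit 1133) (nat_lit 256) .dd))))) (.ch (nat_lit 8) (.ev (nat_lit 896) (nat_lit 2) (.nd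
 (nat_lit 2128) (.br (nat_lit 3) (.br (nat_lit 2) (.ch (nat_lit 0) (.ev (nat_lit 2144) (nat_lit 320) (.ev
 (nat_lit 3012) (nat_lit 32768) (.ev (nat_lit 3021) (nat_lit 2048) .dd)))) (.ch (nat_lit 2) (.ev (nat_lit 2144)
 (nat_lit 320) (.ev (nat_lit 2788) (nat_lit 2048) (.ev (nat_lit 2797) (nat_lit 32768) .dd))))) (.br (nat_lit 5)
 (.ch (nat_lit 3) (.ev (nat_lit 2144) (nat_lit 32832) (.ev (nat_lit 2688) (nat_lit 2304) .dd))) (.br (nat_lit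
 9) (.ch (nat_lit 5) (.ev (nat_lit 6356) (nat_lit 32768) (.ev (nat_lit 6512) (nat_lit 64) (.fin (nat_lit
 576398629247861232))))) (.ch (nat_lit 9) (.ev (nat_lit 5604) (nat_lit 2048) (.ev (nat_lit 6692) (nat_lit 64)
 (.ev (nat_lit 6788) (nat_lit 256) (.ev (nat_lit 6797) (nat_lit 32768) .dd)))))))))))) (.br (nat_lit 11) (.ch
 (nat_lit 10) (.ev (nat_lit 896) (nat_lit 2048) (.nd (nat_lit 2128) (.br (nat_lit 6) (.br (nat_lit 2) (.ch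
 (nat_lit 1) (.ev (nat_lit 2144) (nat_lit 258) (.ev (nat_lit 3540) (nat_lit 32768) (.ev (nat_lit 3549) (nat_lit
 64) .dd)))) (.br (nat_lit 4) (.ch (nat_lit 2) (.ev (nat_lit 2144) (nat_lit 32768) (.ev (nat_lit 2676) (nat_lit
 2) (.ev (nat_lit 4084) (nat_lit 256) (.ev (nat_lit 4093) (nat_lit 64) .dd))))) (.ch (nat_lit 4) (.ev (nat_lit
 2144) (nat_lit 320) (.ev (nat_lit 2676) (nat_lit 2) (.ev (nat_lit 2685) (nat_lit 32768) .dd)))))) (.br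
 (nat_lit 9) (.br (nat_lit 8) (.ch (nat_lit 6) (.ev (nat_lit 2676) (nat_lit 2) (.ev (nat_lit 2820) (nat_lit
 32768) (.ev (nat_lit 3844) (nat_lit 64) (.ev (nat_lit 3853) (nat_lit 256) .dd))))) (.ch (nat_lit 8) (.ev
 (nat_lit 2144) (nat_lit 32832) (.ev (nat_lit 2676) (nat_lit 2) (.ev (nat_lit 2685) (nat_lit 256) .dd))))) (.br
 (nat_lit 11) (.ch (nat_lit 9) (.ev (nat_lit 2144) (nat_lit 32832) (.ev (nat_lit 2676) (nat_lit 2) (.ev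
 (nat_lit 2685) (nat_lit 256) .dd)))) (.ch (nat_lit 11) (.ev (nat_lit 2144) (nat_lit 32832) (.ev (nat_lit 3652)
 (nat_lit 2) (.ev (nat_lit 3661) (nat_lit 256) .dd)))))))))) (.br (nat_lit 12) (.ch (nat_lit 11) (.ev (nat_lit
 896) (nat_lit 322) (.nd (nat_lit 2624) (.br (nat_lit 6) (.ch (nat_lit 1) (.ev (nat_lit 2676) (nat_lit 2048)
 (.ev (nat_lit 2685) (nat_lit 32768) .dd))) (.br (nat_lit 7) (.ch (nat_lit 6) (.ev (nat_lit 2676) (nat_lit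
 2048) (.ev (nat_lit 2685) (nat_lit 32768) .dd))) (.ch (nat_lit 7) (.ev (nat_lit 2900) (nat_lit 2048) (.ev
 (nat_lit 2909) (nat_lit 32768) .dd)))))))) (.ch (nat_lit 12) (.ev (nat_lit 896) (nat_lit 32770) (.nd (nat_lit
 2336) (.br (nat_lit 5) (.br (nat_lit 1) (.ch (nat_lit 0) (.ev (nat_lit 2352) (nat_lit 256) (.ev (nat_lit 3812)
 (nat_lit 2048) (.ev (nat_lit 3821) (nat_lit 64) .dd)))) (.br (nat_lit 2) (.ch (nat_lit 1) (.ev (nat_lit 2352)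
 (nat_lit 256) (.ev (nat_lit 2676) (nat_lit 2048) (.ev (nat_lit 2685) (nat_lit 64) .dd)))) (.ch (nat_lit 2)
 (.ev (nat_lit 2352) (nat_lit 2048) (.ev (nat_lit 2676) (nat_lit 64) (.ev (nat_lit 2685) (nat_lit 256)
 .dd)))))) (.br (nat_lit 8) (.ch (nat_lit 5) (.ev (nat_lit 2676) (nat_lit 2048) (.ev (nat_lit 5364) (nat_lit
 64) (.ev (nat_lit 5373) (nat_lit 256) .dd)))) (.br (nat_lit 12) (.ch (nat_lit 8) (.ev (nat_lit 2352) (nat_lit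
 256) (.ev (nat_lit 2740) (nat_lit 64) (.ev (nat_lit 2749) (nat_lit 2048) .dd)))) (.ch (nat_lit 12) (.ev
 (nat_lit 2676) (nat_lit 2112) (.ev (nat_lit 2685) (nat_lit 256) .dd)))))))))))))))) (.br (nat_lit 11) (.ch
 (nat_lit 10) (.ev (nat_lit 416) (nat_lit 229378) (.nd (nat_lit 944) (.br (nat_lit 6) (.br (nat_lit 4) (.br
 (nat_lit 3) (.ch (nat_lit 2) (.ev (nat_lit 1204) (nat_lit 256) (.nd (nat_lit 2128) (.br (nat_lit 6) (.br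
 (nat_lit 4) (.br (nat_lit 3) (.ch (nat_lit 0) (.ev (nat_lit 2144) (nat_lit 1024) (.ev (nat_lit 2180) (nat_lit
 64) (.ev (nat_lit 2189) (nat_lit 2048) .dd)))) (.ch (nat_lit 3) (.ev (nat_lit 2144) (nat_lit 2112) (.ev
 (nat_lit 2157) (nat_lit 1024) .dd)))) (.br (nat_lit 5) (.ch (nat_lit 4) (.ev (nat_lit 3700) (nat_lit 64) (.ev
 (nat_lit 6740) (nat_lit 2048) (.ev (nat_lit 6749) (nat_lit 1024) .dd)))) (.ch (nat_lit 5) (.ev (nat_lit 2144)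
 (nat_lit 1024) (.ev (nat_lit 2180) (nat_lit 64) (.ev (nat_lit 2189) (nat_lit 2048) .dd)))))) (.br (nat_lit 10)
 (.br (nat_lit 8) (.ch (nat_lit 6) (.ev (nat_lit 2144) (nat_lit 3072) (.ev (nat_lit 2157) (nat_lit 64) .dd)))
 (.ch (nat_lit 8) (.ev (nat_lit 2144) (nat_lit 64) (.fin (nat_lit 576472297155019319))))) (.br (nat_lit 11)
 (.ch (nat_lit 10) (.ev (nat_lit 2144) (nat_lit 1024) (.ev (nat_lit 2180) (nat_lit 2048) (.ev (nat_lit 2189)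
 (nat_lit 64) .dd)))) (.ch (nat_lit 11) (.ev (nat_lit 2144) (nat_lit 64) (.ev (nat_lit 2164) (nat_lit 1024)
 (.ev (nat_lit 2173) (nat_lit 2048) .dd)))))))))) (.ch (nat_lit 3) (.ev (nat_lit 960) (nat_lit 1280) (.nd
 (nat_lit 1968) (.br (nat_lit 7) (.br (nat_lit 4) (.ch (nat_lit 2) (.ev (nat_lit 2004) (nat_lit 64) (.ev
 (nat_lit 2013) (nat_lit 2048) .dd))) (.ch (nat_lit 4) (.ev (nat_lit 2004) (nat_lit 64) (.ev (nat_lit 2013)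
 (nat_lit 2048) .dd)))) (.br (nat_lit 11) (.ch (nat_lit 7) (.ev (nat_lit 2596) (nat_lit 64) (.ev (nat_lit 2605)
 (nat_lit 2048) .dd))) (.ch (nat_lit 11) (.ev (nat_lit 2788) (nat_lit 2048) (.ev (nat_lit 2797) (nat_lit 64)
 .dd))))))))) (.br (nat_lit 5) (.ch (nat_lit 4) (.ev (nat_lit 960) (nat_lit 320) (.nd (nat_lit 2336) (.br
 (nat_lit 6) (.br (nat_lit 4) (.ch (nat_lit 2) (.ev (nat_lit 3044) (nat_lit 2048) (.ev (nat_lit 3053) (nat_lit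
 1024) .dd))) (.ch (nat_lit 4) (.ev (nat_lit 5140) (nat_lit 2048) (.ev (nat_lit 5149) (nat_lit 1024) .dd))))
 (.br (nat_lit 11) (.ch (nat_lit 6) (.ev (nat_lit 3604) (nat_lit 2048) (.ev (nat_lit 3613) (nat_lit 1024)
 .dd))) (.ch (nat_lit 11) (.ev (nat_lit 3552) (nat_lit 3072) .dd))))))) (.ch (nat_lit 5) (.nd (nat_lit 1968)
 (.br (nat_lit 8) (.br (nat_lit 6) (.ch (nat_lit 2) (.ev (nat_lit 1984) (nat_lit 1024) (.ev (nat_lit 2324)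
 (nat_lit 64) (.ev (nat_lit 2372) (nat_lit 2048) (.ev (nat_lit 2381) (nat_lit 256) .dd))))) (.br (nat_lit 7)
 (.ch (nat_lit 6) (.ev (nat_lit 2740) (nat_lit 2304) (.ev (nat_lit 3012) (nat_lit 64) (.ev (nat_lit 3021)
 (nat_lit 1024) .dd)))) (.ch (nat_lit 7) (.ev (nat_lit 1984) (nat_lit 2304) (.ev (nat_lit 5492) (nat_lit 1024)
 (.ev (nat_lit 5501) (nat_lit 64) .dd)))))) (.br (nat_lit 9) (.ch (nat_lit 8) (.ev (nat_lit 1984) (nat_lit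
 1088) (.ev (nat_lit 2676) (nat_lit 256) (.ev (nat_lit 2685) (nat_lit 2048) .dd)))) (.br (nat_lit 11) (.ch
 (nat_lit 9) (.ev (nat_lit 2164) (nat_lit 64) (.ev (nat_lit 2372) (nat_lit 2048) (.ev (nat_lit 2740) (nat_lit
 1024) (.ev (nat_lit 2749) (nat_lit 256) .dd))))) (.ch (nat_lit 11) (.ev (nat_lit 2676) (nat_lit 256) (.ev
 (nat_lit 3908) (nat_lit 1024) (.ev (nat_lit 7028) (nat_lit 64) (.ev (nat_lit 7037) (nat_lit 2048)
 .dd)))))))))))) (.br (nat_lit 8) (.br (nat_lit 7) (.ch (nat_lit 6) (.ev (nat_lit 960) (nat_lit 2112) (.nd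
 (nat_lit 2336) (.br (nat_lit 12) (.ch (nat_lit 0) (.ev (nat_lit 3220) (nat_lit 256) (.ev (nat_lit 3229)
 (nat_lit 1024) .dd))) (.ch (nat_lit 12) (.ev (nat_lit 2372) (nat_lit 1024) (.ev (nat_lit 2381) (nat_lit 256)
 .dd))))))) (.ch (nat_lit 7) (.ev (nat_lit 960) (nat_lit 1024) (.nd (nat_lit 1968) (.br (nat_lit 6) (.br
 (nat_lit 4) (.ch (nat_lit 0) (.ev (nat_lit 1984) (nat_lit 256) (.ev (nat_lit 3488) (nat_lit 2112) .dd))) (.ch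
 (nat_lit 4) (.ev (nat_lit 1984) (nat_lit 256) (.ev (nat_lit 6900) (nat_lit 64) (.ev (nat_lit 6909) (nat_lit
 2048) .dd))))) (.br (nat_lit 8) (.ch (nat_lit 6) (.ev (nat_lit 1984) (nat_lit 64) (.ev (nat_lit 2372) (nat_lit
 2048) (.ev (nat_lit 2381) (nat_lit 256) .dd)))) (.br (nat_lit 11) (.ch (nat_lit 8) (.ev (nat_lit 3824)
 (nat_lit 64) (.fin (nat_lit 577108914123260750)))) (.ch (nat_lit 11) (.ev (nat_lit 1984) (nat_lit 256) (.ev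
 (nat_lit 2164) (nat_lit 64) (.ev (nat_lit 2173) (nat_lit 2048) .dd))))))))))) (.br (nat_lit 10) (.ch (nat_lit
 8) (.ev (nat_lit 960) (nat_lit 1280) (.nd (nat_lit 2128) (.br (nat_lit 1) (.ch (nat_lit 0) (.ev (nat_lit 5140)
 (nat_lit 64) (.ev (nat_lit 5149) (nat_lit 2048) .dd))) (.br (nat_lit 7) (.ch (nat_lit 1) (.ev (nat_lit 2820)
 (nat_lit 2048) (.ev (nat_lit 2829) (nat_lit 64) .dd))) (.ch (nat_lit 7) (.ev (nat_lit 2372) (nat_lit 2048)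
 (.ev (nat_lit 2381) (nat_lit 64) .dd)))))))) (.br (nat_lit 12) (.ch (nat_lit 10) (.ev (nat_lit 960) (nat_lit
 2304) (.nd (nat_lit 2624) (.br (nat_lit 6) (.ch (nat_lit 3) (.ev (nat_lit 3140) (nat_lit 1024) (.ev (nat_lit
 3149) (nat_lit 64) .dd))) (.br (nat_lit 10) (.ch (nat_lit 6) (.ev (nat_lit 3140) (nat_lit 1024) (.ev (nat_lit
 3149) (nat_lit 64) .dd))) (.ch (nat_lit 10) (.ev (nat_lit 3140) (nat_lit 1024) (.ev (nat_lit 3149) (nat_lit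
 64) .dd)))))))) (.ch (nat_lit 12) (.ev (nat_lit 960) (nat_lit 2112) (.ev (nat_lit 980) (nat_lit 1024) (.ev
 (nat_lit 989) (nat_lit 256) .dd))))))))))) (.ch (nat_lit 11) (.ev (nat_lit 416) (nat_lit 101440) (.nd (nat_lit
 944) (.br (nat_lit 7) (.br (nat_lit 4) (.ch (nat_lit 1) (.ev (nat_lit 960) (nat_lit 256) (.nd (nat_lit 3408)
 (.br (nat_lit 8) (.br (nat_lit 4) (.ch (nat_lit 0) (.ev (nat_lit 3424) (nat_lit 2) (.ev (nat_lit 3437)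
 (nat_lit 131072) .dd))) (.ch (nat_lit 4) (.ev (nat_lit 3476) (nat_lit 131072) (.ev (nat_lit 3485) (nat_lit 2)
 .dd)))) (.br (nat_lit 10) (.ch (nat_lit 8) (.ev (nat_lit 3476) (nat_lit 2) (.ev (nat_lit 3485) (nat_lit
 131072) .dd))) (.br (nat_lit 11) (.ch (nat_lit 10) (.ev (nat_lit 5072) (nat_lit 131074) .dd)) (.ch (nat_lit
 11) (.ev (nat_lit 3664) (nat_lit 2) (.ev (nat_lit 3677) (nat_lit 131072) .dd))))))))) (.br (nat_lit 6) (.ch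
 (nat_lit 4) (.nd (nat_lit 2128) (.br (nat_lit 3) (.br (nat_lit 1) (.ch (nat_lit 0) (.ev (nat_lit 2144)
 (nat_lit 131072) (.ev (nat_lit 2676) (nat_lit 2) (.ev (nat_lit 2685) (nat_lit 256) .dd)))) (.br (nat_lit 2)
 (.ch (nat_lit 1) (.ev (nat_lit 2144) (nat_lit 258) (.ev (nat_lit 2157) (nat_lit 131072) .dd))) (.ch (nat_lit
 2) (.ev (nat_lit 3012) (nat_lit 2) (.ev (nat_lit 7060) (nat_lit 131072) (.ev (nat_lit 7069) (nat_lit 256)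
 .dd)))))) (.br (nat_lit 9) (.br (nat_lit 5) (.ch (nat_lit 3) (.ev (nat_lit 2676) (nat_lit 2) (.ev (nat_lit
 2900) (nat_lit 256) (.ev (nat_lit 2909) (nat_lit 131072) .dd)))) (.ch (nat_lit 5) (.ev (nat_lit 2144) (nat_lit
 131072) (.ev (nat_lit 2180) (nat_lit 256) (.ev (nat_lit 2189) (nat_lit 2) .dd))))) (.br (nat_lit 12) (.ch
 (nat_lit 9) (.ev (nat_lit 2676) (nat_lit 2) (.ev (nat_lit 6596) (nat_lit 256) (.ev (nat_lit 6605) (nat_lit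
 131072) .dd)))) (.ch (nat_lit 12) (.ev (nat_lit 2144) (nat_lit 2) (.ev (nat_lit 3476) (nat_lit 131072) (.ev
 (nat_lit 3485) (nat_lit 256) .dd))))))))) (.ch (nat_lit 6) (.ev (nat_lit 960) (nat_lit 131072) (.nd (nat_lit
 1968) (.br (nat_lit 9) (.br (nat_lit 7) (.ch (nat_lit 0) (.ev (nat_lit 2164) (nat_lit 2) (.ev (nat_lit 2173)
 (nat_lit 256) .dd))) (.ch (nat_lit 7) (.ev (nat_lit 6260) (nat_lit 256) (.ev (nat_lit 6269) (nat_lit 2)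
 .dd)))) (.br (nat_lit 11) (.ch (nat_lit 9) (.ev (nat_lit 2164) (nat_lit 2) (.ev (nat_lit 2173) (nat_lit 256)
 .dd))) (.ch (nat_lit 11) (.ev (nat_lit 2164) (nat_lit 2) (.ev (nat_lit 2173) (nat_lit 256) .dd)))))))))) (.br
 (nat_lit 10) (.br (nat_lit 8) (.ch (nat_lit 7) (.ev (nat_lit 960) (nat_lit 131328) (.ev (nat_lit 973) (nat_lit
 2) .dd))) (.ch (nat_lit 8) (.ev (nat_lit 960) (nat_lit 131072) (.nd (nat_lit 2624) (.br (nat_lit 8) (.br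
 (nat_lit 1) (.ch (nat_lit 0) (.ev (nat_lit 3476) (nat_lit 2) (.ev (nat_lit 3485) (nat_lit 256) .dd))) (.br
 (nat_lit 4) (.ch (nat_lit 1) (.ev (nat_lit 2640) (nat_lit 256) (.ev (nat_lit 2653) (nat_lit 2) .dd))) (.ch
 (nat_lit 4) (.ev (nat_lit 3540) (nat_lit 2) (.ev (nat_lit 3549) (nat_lit 256) .dd))))) (.br (nat_lit 9) (.ch
 (nat_lit 8) (.ev (nat_lit 2640) (nat_lit 2) (.ev (nat_lit 2653) (nat_lit 256) .dd))) (.br (nat_lit 10) (.ch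
 (nat_lit 9) (.ev (nat_lit 3540) (nat_lit 256) (.ev (nat_lit 3549) (nat_lit 2) .dd))) (.ch (nat_lit 10) (.ev
 (nat_lit 2640) (nat_lit 256) (.ev (nat_lit 2653) (nat_lit 2) .dd)))))))))) (.br (nat_lit 11) (.ch (nat_lit 10)
 (.ev (nat_lit 960) (nat_lit 2) (.nd (nat_lit 3408) (.br (nat_lit 12) (.ch (nat_lit 0) (.ev (nat_lit 3476)
 (nat_lit 256) (.ev (nat_lit 3485) (nat_lit 131072) .dd))) (.ch (nat_lit 12) (.ev (nat_lit 3604) (nat_lit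
 131072) (.ev (nat_lit 3613) (nat_lit 256) .dd))))))) (.ch (nat_lit 11) (.ev (nat_lit 960) (nat_lit 2) (.nd
 (nat_lit 2128) (.br (nat_lit 10) (.ch (nat_lit 3) (.ev (nat_lit 2372) (nat_lit 131072) (.ev (nat_lit 2381)
 (nat_lit 256) .dd))) (.br (nat_lit 12) (.ch (nat_lit 10) (.ev (nat_lit 3876) (nat_lit 131072) (.ev (nat_lit
 3885) (nat_lit 256) .dd))) (.ch (nat_lit 12) (.ev (nat_lit 2164) (nat_lit 256) (.ev (nat_lit 2173) (nat_lit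
 131072) .dd))))))))))))))))))))) (.ch (nat_lit 4) (.ev (nat_lit 48) (nat_lit 11584) (.nd (nat_lit 224) (.br
 (nat_lit 6) (.br (nat_lit 4) (.br (nat_lit 3) (.ch (nat_lit 0) (.nd (nat_lit 736) (.br (nat_lit 4) (.br
 (nat_lit 2) (.ch (nat_lit 1) (.ev (nat_lit 752) (nat_lit 131074) (.nd (nat_lit 1648) (.br (nat_lit 10) (.ch
 (nat_lit 8) (.ev (nat_lit 3764) (nat_lit 65536) (.ev (nat_lit 3773) (nat_lit 32768) .dd))) (.br (nat_lit 12)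
 (.ch (nat_lit 10) (.ev (nat_lit 6148) (nat_lit 32768) (.ev (nat_lit 6157) (nat_lit 65536) .dd))) (.ch (nat_lit
 12) (.nd (nat_lit 7328) (.br (nat_lit 10) (.ch (nat_lit 8) (.fin (nat_lit 567227609324667077))) (.ch (nat_lit
 10) (.ev (nat_lit 7604) (nat_lit 65536) (.ev (nat_lit 7613) (nat_lit 32768) .dd))))))))))) (.br (nat_lit 3)
 (.ch (nat_lit 2) (.nd (nat_lit 1408) (.br (nat_lit 8) (.br (nat_lit 1) (.ch (nat_lit 0) (.ev (nat_lit 2452)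
 (nat_lit 2) (.nd (nat_lit 4416) (.br (nat_lit 4) (.br (nat_lit 3) (.ch (nat_lit 2) (.ev (nat_lit 4432)
 (nat_lit 65536) (.ev (nat_lit 6260) (nat_lit 32768) (.ev (nat_lit 6269) (nat_lit 131072) .dd)))) (.ch (nat_lit
 3) (.ev (nat_lit 4432) (nat_lit 65536) (.ev (nat_lit 6356) (nat_lit 32768) (.ev (nat_lit 6365) (nat_lit
 131072) .dd))))) (.br (nat_lit 5) (.ch (nat_lit 4) (.ev (nat_lit 4432) (nat_lit 131072) (.ev (nat_lit 5540)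
 (nat_lit 65536) (.ev (nat_lit 5549) (nat_lit 32768) .dd)))) (.br (nat_lit 6) (.ch (nat_lit 5) (.ev (nat_lit
 4432) (nat_lit 163840) (.ev (nat_lit 4445) (nat_lit 65536) .dd))) (.ch (nat_lit 6) (.ev (nat_lit 4432)
 (nat_lit 131072) (.ev (nat_lit 4944) (nat_lit 98304) .dd))))))))) (.br (nat_lit 5) (.ch (nat_lit 1) (.ev
 (nat_lit 1424) (nat_lit 32768) (.ev (nat_lit 5300) (nat_lit 2) (.ev (nat_lit 6260) (nat_lit 65536) (.ev
 (nat_lit 6269) (nat_lit 131072) .dd))))) (.ch (nat_lit 5) (.ev (nat_lit 1424) (nat_lit 163840) (.nd (nat_lit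
 4592) (.br (nat_lit 11) (.ch (nat_lit 8) (.ev (nat_lit 4932) (nat_lit 65536) (.ev (nat_lit 4941) (nat_lit 2)
 .dd))) (.ch (nat_lit 11) (.ev (nat_lit 6260) (nat_lit 65536) (.ev (nat_lit 6269) (nat_lit 2) .dd))))))))) (.br
 (nat_lit 11) (.br (nat_lit 9) (.ch (nat_lit 8) (.nd (nat_lit 4224) (.br (nat_lit 10) (.br (nat_lit 4) (.ch
 (nat_lit 0) (.ev (nat_lit 4240) (nat_lit 131072) (.ev (nat_lit 5236) (nat_lit 65536) (.ev (nat_lit 6704)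
 (nat_lit 2) (.ev (nat_lit 6717) (nat_lit 32768) .dd))))) (.ch (nat_lit 4) (.ev (nat_lit 4240) (nat_lit 196608)
 (.ev (nat_lit 5236) (nat_lit 32768) (.ev (nat_lit 5245) (nat_lit 2) .dd))))) (.br (nat_lit 11) (.ch (nat_lit
 10) (.ev (nat_lit 4240) (nat_lit 131074) (.ev (nat_lit 5540) (nat_lit 32768) (.ev (nat_lit 5549) (nat_lit
 65536) .dd)))) (.ch (nat_lit 11) (.ev (nat_lit 4240) (nat_lit 32768) (.ev (nat_lit 4276) (nat_lit 65536) (.ev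
 (nat_lit 5140) (nat_lit 131072) (.ev (nat_lit 5149) (nat_lit 2) .dd))))))))) (.ch (nat_lit 9) (.ev (nat_lit
 1424) (nat_lit 65538) (.ev (nat_lit 3316) (nat_lit 131072) (.ev (nat_lit 3325) (nat_lit 32768) .dd))))) (.br
 (nat_lit 12) (.ch (nat_lit 11) (.ev (nat_lit 1424) (nat_lit 32770) (.ev (nat_lit 4644) (nat_lit 65536) (.ev
 (nat_lit 4653) (nat_lit 131072) .dd)))) (.ch (nat_lit 12) (.ev (nat_lit 1424) (nat_lit 163840) (.ev (nat_lit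
 2452) (nat_lit 2) (.ev (nat_lit 2461) (nat_lit 65536) .dd))))))))) (.ch (nat_lit 3) (.ev (nat_lit 752)
 (nat_lit 131074) (.nd (nat_lit 1552) (.br (nat_lit 3) (.br (nat_lit 1) (.ch (nat_lit 0) (.ev (nat_lit 6260)
 (nat_lit 65536) (.ev (nat_lit 6269) (nat_lit 32768) .dd))) (.ch (nat_lit 1) (.ev (nat_lit 1812) (nat_lit
 32768) (.ev (nat_lit 1821) (nat_lit 65536) .dd)))) (.br (nat_lit 7) (.ch (nat_lit 3) (.ev (nat_lit 2036)
 (nat_lit 32768) (.ev (nat_lit 2045) (nat_lit 65536) .dd))) (.ch (nat_lit 7) (.ev (nat_lit 2036) (nat_lit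
 32768) (.ev (nat_lit 2045) (nat_lit 65536) .dd)))))))))) (.br (nat_lit 10) (.br (nat_lit 7) (.ch (nat_lit 4)
 (.ev (nat_lit 752) (nat_lit 98304) (.nd (nat_lit 1840) (.br (nat_lit 12) (.ch (nat_lit 6) (.ev (nat_lit 3140)
 (nat_lit 2) (.ev (nat_lit 3149) (nat_lit 131072) .dd))) (.ch (nat_lit 12) (.ev (nat_lit 2180) (nat_lit 2) (.ev
 (nat_lit 2189) (nat_lit 131072) .dd))))))) (.ch (nat_lit 7) (.nd (nat_lit 1456) (.br (nat_lit 4) (.br (nat_lit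
 1) (.ch (nat_lit 0) (.ev (nat_lit 1472) (nat_lit 65536) (.ev (nat_lit 1796) (nat_lit 32768) (.nd (nat_lit
 4592) (.br (nat_lit 8) (.ch (nat_lit 4) (.ev (nat_lit 6148) (nat_lit 2) (.ev (nat_lit 6157) (nat_lit 131072)
 .dd))) (.ch (nat_lit 8) (.ev (nat_lit 6032) (nat_lit 131074) .dd))))))) (.br (nat_lit 2) (.ch (nat_lit 1) (.ev
 (nat_lit 1472) (nat_lit 2) (.ev (nat_lit 2992) (nat_lit 65536) (.ev (nat_lit 3076) (nat_lit 32768) (.ev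
 (nat_lit 3085) (nat_lit 131072) .dd))))) (.ch (nat_lit 2) (.ev (nat_lit 1472) (nat_lit 2) (.ev (nat_lit 1492)
 (nat_lit 131072) (.ev (nat_lit 6356) (nat_lit 32768) (.ev (nat_lit 6365) (nat_lit 65536) .dd))))))) (.br
 (nat_lit 7) (.ch (nat_lit 4) (.ev (nat_lit 1472) (nat_lit 131072) (.ev (nat_lit 4768) (nat_lit 2) (.ev
 (nat_lit 7220) (nat_lit 32768) (.ev (nat_lit 7229) (nat_lit 65536) .dd))))) (.br (nat_lit 10) (.ch (nat_lit 7)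
 (.ev (nat_lit 2832) (nat_lit 65536) (.ev (nat_lit 6656) (nat_lit 32768) (.fin (nat_lit 576449207432856120)))))
 (.ch (nat_lit 10) (.ev (nat_lit 1472) (nat_lit 98304) (.nd (nat_lit 4304) (.br (nat_lit 8) (.ch (nat_lit 3)
 (.ev (nat_lit 6356) (nat_lit 131072) (.ev (nat_lit 6365) (nat_lit 2) .dd))) (.br (nat_lit 9) (.ch (nat_lit 8)
 (.ev (nat_lit 5248) (nat_lit 131074) .dd)) (.ch (nat_lit 9) (.ev (nat_lit 6596) (nat_lit 131072) (.ev (nat_lit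
 6605) (nat_lit 2) .dd)))))))))))))) (.br (nat_lit 11) (.ch (nat_lit 10) (.nd (nat_lit 1840) (.br (nat_lit 7)
 (.br (nat_lit 4) (.ch (nat_lit 2) (.ev (nat_lit 1856) (nat_lit 65538) (.ev (nat_lit 2900) (nat_lit 131072)
 (.ev (nat_lit 2909) (nat_lit 32768) .dd)))) (.br (nat_lit 5) (.ch (nat_lit 4) (.ev (nat_lit 1876) (nat_lit 2)
 (.ev (nat_lit 2788) (nat_lit 65536) (.ev (nat_lit 3076) (nat_lit 131072) (.ev (nat_lit 3085) (nat_lit 32768)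
 .dd))))) (.ch (nat_lit 5) (.ev (nat_lit 1876) (nat_lit 65536) (.ev (nat_lit 2900) (nat_lit 131072) (.ev
 (nat_lit 3652) (nat_lit 2) (.ev (nat_lit 3661) (nat_lit 32768) .dd))))))) (.br (nat_lit 9) (.ch (nat_lit 7)
 (.ev (nat_lit 1856) (nat_lit 131072) (.ev (nat_lit 3252) (nat_lit 32768) (.ev (nat_lit 6356) (nat_lit 2) (.ev
 (nat_lit 6365) (nat_lit 65536) .dd))))) (.br (nat_lit 10) (.ch (nat_lit 9) (.ev (nat_lit 1856) (nat_lit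
 131072) (.ev (nat_lit 2900) (nat_lit 32768) (.ev (nat_lit 6148) (nat_lit 2) (.ev (nat_lit 6157) (nat_lit
 65536) .dd))))) (.ch (nat_lit 10) (.ev (nat_lit 1856) (nat_lit 131072) (.ev (nat_lit 2868) (nat_lit 32768)
 (.ev (nat_lit 2948) (nat_lit 2) (.ev (nat_lit 2957) (nat_lit 65536) .dd)))))))))) (.ch (nat_lit 11) (.ev
 (nat_lit 752) (nat_lit 196608) (.nd (nat_lit 2128) (.br (nat_lit 7) (.ch (nat_lit 2) (.ev (nat_lit 2164)
 (nat_lit 32768) (.ev (nat_lit 2173) (nat_lit 2) .dd))) (.br (nat_lit 12) (.ch (nat_lit 7) (.ev (nat_lit 5140)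
 (nat_lit 32768) (.ev (nat_lit 5149) (nat_lit 2) .dd))) (.ch (nat_lit 12) (.ev (nat_lit 2688) (nat_lit 32770)
 .dd)))))))))))) (.ch (nat_lit 3) (.ev (nat_lit 240) (nat_lit 98306) (.ev (nat_lit 253) (nat_lit 131072)
 .dd)))) (.br (nat_lit 5) (.ch (nat_lit 4) (.ev (nat_lit 240) (nat_lit 32768) (.nd (nat_lit 1008) (.br (nat_lit
 5) (.br (nat_lit 2) (.br (nat_lit 1) (.ch (nat_lit 0) (.nd (nat_lit 2128) (.br (nat_lit 4) (.br (nat_lit 2)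
 (.br (nat_lit 1) (.ch (nat_lit 0) (.ev (nat_lit 2164) (nat_lit 131072) (.ev (nat_lit 2308) (nat_lit 2) (.ev
 (nat_lit 2317) (nat_lit 65536) .dd)))) (.ch (nat_lit 1) (.ev (nat_lit 2144) (nat_lit 65536) (.ev (nat_lit
 2164) (nat_lit 131072) (.ev (nat_lit 2173) (nat_lit 2) .dd))))) (.br (nat_lit 3) (.ch (nat_lit 2) (.ev
 (nat_lit 2144) (nat_lit 2) (.ev (nat_lit 6964) (nat_lit 131072) (.ev (nat_lit 6973) (nat_lit 65536) .dd))))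
 (.ch (nat_lit 3) (.ev (nat_lit 2144) (nat_lit 131074) (.ev (nat_lit 2157) (nat_lit 65536) .dd))))) (.br
 (nat_lit 11) (.br (nat_lit 5) (.ch (nat_lit 4) (.ev (nat_lit 3044) (nat_lit 131072) (.ev (nat_lit 5540)
 (nat_lit 65536) (.ev (nat_lit 5549) (nat_lit 2) .dd)))) (.ch (nat_lit 5) (.ev (nat_lit 2144) (nat_lit 196610)
 .dd))) (.br (nat_lit 12) (.ch (nat_lit 11) (.ev (nat_lit 2144) (nat_lit 131072) (.ev (nat_lit 2948) (nat_lit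
 2) (.ev (nat_lit 2957) (nat_lit 65536) .dd)))) (.ch (nat_lit 12) (.ev (nat_lit 2144) (nat_lit 65538) (.ev
 (nat_lit 2157) (nat_lit 131072) .dd)))))))) (.ch (nat_lit 1) (.nd (nat_lit 1840) (.br (nat_lit 8) (.br
 (nat_lit 3) (.ch (nat_lit 0) (.ev (nat_lit 1856) (nat_lit 131072) (.ev (nat_lit 2580) (nat_lit 2) (.ev
 (nat_lit 2589) (nat_lit 65536) .dd)))) (.br (nat_lit 4) (.ch (nat_lit 3) (.ev (nat_lit 1856) (nat_lit 196608)
 (.ev (nat_lit 1869) (nat_lit 2) .dd))) (.ch (nat_lit 4) (.ev (nat_lit 1856) (nat_lit 65536) (.ev (nat_lit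
 6740) (nat_lit 2) (.ev (nat_lit 6749) (nat_lit 131072) .dd)))))) (.br (nat_lit 10) (.br (nat_lit 9) (.ch
 (nat_lit 8) (.ev (nat_lit 1856) (nat_lit 131074) (.ev (nat_lit 1869) (nat_lit 65536) .dd))) (.ch (nat_lit 9)
 (.ev (nat_lit 1856) (nat_lit 2) (.ev (nat_lit 1908) (nat_lit 131072) (.ev (nat_lit 1917) (nat_lit 65536)
 .dd))))) (.br (nat_lit 11) (.ch (nat_lit 10) (.ev (nat_lit 1856) (nat_lit 65536) (.ev (nat_lit 2800) (nat_lit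
 131072) (.ev (nat_lit 2813) (nat_lit 2) .dd)))) (.ch (nat_lit 11) (.ev (nat_lit 2820) (nat_lit 65536) (.ev
 (nat_lit 6452) (nat_lit 131072) (.ev (nat_lit 6461) (nat_lit 2) .dd)))))))))) (.br (nat_lit 4) (.ch (nat_lit
 2) (.ev (nat_lit 1024) (nat_lit 196608) (.ev (nat_lit 1037) (nat_lit 2) .dd))) (.ch (nat_lit 4) (.ev (nat_lit
 1024) (nat_lit 2) (.ev (nat_lit 3188) (nat_lit 65536) (.ev (nat_lit 3197) (nat_lit 131072) .dd)))))) (.br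
 (nat_lit 9) (.br (nat_lit 8) (.ch (nat_lit 5) (.ev (nat_lit 1024) (nat_lit 131072) (.nd (nat_lit 1648) (.br
 (nat_lit 3) (.br (nat_lit 1) (.ch (nat_lit 0) (.ev (nat_lit 5056) (nat_lit 65536) (.ev (nat_lit 5069) (nat_lit
 2) .dd))) (.ch (nat_lit 1) (.ev (nat_lit 1664) (nat_lit 65536) (.ev (nat_lit 1677) (nat_lit 2) .dd)))) (.br
 (nat_lit 5) (.ch (nat_lit 3) (.ev (nat_lit 2388) (nat_lit 65536) (.ev (nat_lit 2397) (nat_lit 2) .dd))) (.br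
 (nat_lit 6) (.ch (nat_lit 5) (.ev (nat_lit 1664) (nat_lit 65536) (.ev (nat_lit 1677) (nat_lit 2) .dd))) (.ch
 (nat_lit 6) (.ev (nat_lit 2868) (nat_lit 65536) (.ev (nat_lit 2877) (nat_lit 2) .dd))))))))) (.ch (nat_lit 8)
 (.nd (nat_lit 2128) (.br (nat_lit 8) (.br (nat_lit 4) (.br (nat_lit 3) (.ch (nat_lit 1) (.ev (nat_lit 2164)
 (nat_lit 131074) (.ev (nat_lit 2173) (nat_lit 65536) .dd))) (.ch (nat_lit 3) (.ev (nat_lit 2144) (nat_lit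
 196608) (.ev (nat_lit 2157) (nat_lit 2) .dd)))) (.br (nat_lit 5) (.ch (nat_lit 4) (.ev (nat_lit 2144) (nat_lit
 196608) (.ev (nat_lit 2157) (nat_lit 2) .dd))) (.ch (nat_lit 5) (.ev (nat_lit 2144) (nat_lit 2) (.ev (nat_lit
 2164) (nat_lit 131072) (.ev (nat_lit 2173) (nat_lit 65536) .dd)))))) (.br (nat_lit 11) (.br (nat_lit 9) (.ch
 (nat_lit 8) (.ev (nat_lit 2144) (nat_lit 65538) (.ev (nat_lit 2157) (nat_lit 131072) .dd))) (.ch (nat_lit 9)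
 (.ev (nat_lit 2144) (nat_lit 2) (.ev (nat_lit 2196) (nat_lit 65536) (.ev (nat_lit 2205) (nat_lit 131072)
 .dd))))) (.br (nat_lit 12) (.ch (nat_lit 11) (.ev (nat_lit 2164) (nat_lit 65536) (.ev (nat_lit 6500) (nat_lit
 2) (.ev (nat_lit 6509) (nat_lit 131072) .dd)))) (.ch (nat_lit 12) (.ev (nat_lit 2144) (nat_lit 131072) (.ev
 (nat_lit 3652) (nat_lit 2) (.ev (nat_lit 3661) (nat_lit 65536) .dd)))))))))) (.br (nat_lit 11) (.ch (nat_lit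
 9) (.ev (nat_lit 1024) (nat_lit 65538) (.ev (nat_lit 1037) (nat_lit 131072) .dd))) (.br (nat_lit 12) (.ch
 (nat_lit 11) (.ev (nat_lit 1024) (nat_lit 65538) (.ev (nat_lit 1037) (nat_lit 131072) .dd))) (.ch (nat_lit 12)
 (.ev (nat_lit 1024) (nat_lit 131072) (.nd (nat_lit 2128) (.br (nat_lit 4) (.br (nat_lit 2) (.ch (nat_lit 0)
 (.ev (nat_lit 3856) (nat_lit 65538) .dd)) (.ch (nat_lit 2) (.ev (nat_lit 6868) (nat_lit 2) (.ev (nat_lit 6877)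
 (nat_lit 65536) .dd)))) (.br (nat_lit 5) (.ch (nat_lit 4) (.ev (nat_lit 3488) (nat_lit 65538) .dd)) (.ch
 (nat_lit 5) (.ev (nat_lit 2144) (nat_lit 2) (.ev (nat_lit 2157) (nat_lit 65536) .dd))))))))))))))) (.ch
 (nat_lit 5) (.ev (nat_lit 240) (nat_lit 65536) (.nd (nat_lit 880) (.br (nat_lit 6) (.br (nat_lit 2) (.br
 (nat_lit 1) (.ch (nat_lit 0) (.nd (nat_lit 2128) (.br (nat_lit 9) (.br (nat_lit 5) (.ch (nat_lit 3) (.ev
 (nat_lit 2144) (nat_lit 32768) (.ev (nat_lit 5540) (nat_lit 131072) (.ev (nat_lit 5549) (nat_lit 2) .dd))))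
 (.ch (nat_lit 5) (.ev (nat_lit 2820) (nat_lit 131072) (.ev (nat_lit 3476) (nat_lit 32768) (.ev (nat_lit 3485)
 (nat_lit 2) .dd))))) (.br (nat_lit 12) (.ch (nat_lit 9) (.ev (nat_lit 2144) (nat_lit 32768) (.ev (nat_lit
 5236) (nat_lit 2) (.ev (nat_lit 5245) (nat_lit 131072) .dd)))) (.ch (nat_lit 12) (.ev (nat_lit 2144) (nat_lit
 131072) (.ev (nat_lit 2676) (nat_lit 2) (.ev (nat_lit 2685) (nat_lit 32768) .dd)))))))) (.ch (nat_lit 1) (.ev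
 (nat_lit 896) (nat_lit 32770) (.ev (nat_lit 909) (nat_lit 131072) .dd)))) (.br (nat_lit 5) (.ch (nat_lit 2)
 (.ev (nat_lit 896) (nat_lit 163840) (.ev (nat_lit 909) (nat_lit 2) .dd))) (.ch (nat_lit 5) (.ev (nat_lit 896)
 (nat_lit 131074) (.ev (nat_lit 909) (nat_lit 32768) .dd))))) (.br (nat_lit 8) (.br (nat_lit 7) (.ch (nat_lit
 6) (.ev (nat_lit 896) (nat_lit 163840) (.ev (nat_lit 909) (nat_lit 2) .dd))) (.ch (nat_lit 7) (.ev (nat_lit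
 896) (nat_lit 32770) (.ev (nat_lit 909) (nat_lit 131072) .dd)))) (.br (nat_lit 10) (.ch (nat_lit 8) (.ev
 (nat_lit 896) (nat_lit 2) (.nd (nat_lit 2128) (.br (nat_lit 7) (.br (nat_lit 3) (.ch (nat_lit 0) (.ev (nat_lit
 2144) (nat_lit 131072) (.ev (nat_lit 2157) (nat_lit 32768) .dd))) (.ch (nat_lit 3) (.ev (nat_lit 2820)
 (nat_lit 32768) (.ev (nat_lit 2829) (nat_lit 131072) .dd)))) (.br (nat_lit 9) (.ch (nat_lit 7) (.ev (nat_lit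
 2788) (nat_lit 32768) (.ev (nat_lit 2797) (nat_lit 131072) .dd))) (.br (nat_lit 11) (.ch (nat_lit 9) (.ev
 (nat_lit 2144) (nat_lit 32768) (.ev (nat_lit 2157) (nat_lit 131072) .dd))) (.ch (nat_lit 11) (.ev (nat_lit
 3140) (nat_lit 131072) (.ev (nat_lit 3149) (nat_lit 32768) .dd))))))))) (.br (nat_lit 12) (.ch (nat_lit 10)
 (.nd (nat_lit 1840) (.br (nat_lit 7) (.br (nat_lit 4) (.br (nat_lit 2) (.ch (nat_lit 0) (.ev (nat_lit 1856)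
 (nat_lit 2) (.ev (nat_lit 2768) (nat_lit 163840) .dd))) (.ch (nat_lit 2) (.ev (nat_lit 1856) (nat_lit 32768)
 (.ev (nat_lit 2832) (nat_lit 2) (.ev (nat_lit 2845) (nat_lit 131072) .dd))))) (.br (nat_lit 6) (.ch (nat_lit
 4) (.ev (nat_lit 2900) (nat_lit 131072) (.ev (nat_lit 3476) (nat_lit 2) (.ev (nat_lit 3485) (nat_lit 32768)
 .dd)))) (.ch (nat_lit 6) (.ev (nat_lit 1856) (nat_lit 32768) (.ev (nat_lit 1892) (nat_lit 131072) (.ev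
 (nat_lit 1901) (nat_lit 2) .dd)))))) (.br (nat_lit 10) (.br (nat_lit 8) (.ch (nat_lit 7) (.ev (nat_lit 1856)
 (nat_lit 131074) (.ev (nat_lit 1869) (nat_lit 32768) .dd))) (.ch (nat_lit 8) (.ev (nat_lit 1856) (nat_lit
 131072) (.ev (nat_lit 3604) (nat_lit 2) (.ev (nat_lit 3613) (nat_lit 32768) .dd))))) (.br (nat_lit 12) (.ch
 (nat_lit 10) (.ev (nat_lit 1856) (nat_lit 131074) (.ev (nat_lit 1869) (nat_lit 32768) .dd))) (.ch (nat_lit 12)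
 (.ev (nat_lit 3252) (nat_lit 32768) (.ev (nat_lit 3700) (nat_lit 2) (.ev (nat_lit 3709) (nat_lit 131072)
 .dd))))))))) (.ch (nat_lit 12) (.ev (nat_lit 1204) (nat_lit 2) (.nd (nat_lit 1648) (.br (nat_lit 6) (.br
 (nat_lit 1) (.ch (nat_lit 0) (.ev (nat_lit 1664) (nat_lit 32768) (.ev (nat_lit 1677) (nat_lit 131072) .dd)))
 (.br (nat_lit 2) (.ch (nat_lit 1) (.ev (nat_lit 1664) (nat_lit 32768) (.ev (nat_lit 1677) (nat_lit 131072)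
 .dd))) (.ch (nat_lit 2) (.ev (nat_lit 2452) (nat_lit 131072) (.ev (nat_lit 2461) (nat_lit 32768) .dd))))) (.br
 (nat_lit 11) (.br (nat_lit 9) (.ch (nat_lit 6) (.ev (nat_lit 1684) (nat_lit 32768) (.ev (nat_lit 1693)
 (nat_lit 131072) .dd))) (.ch (nat_lit 9) (.ev (nat_lit 1664) (nat_lit 32768) (.ev (nat_lit 1677) (nat_lit
 131072) .dd)))) (.br (nat_lit 12) (.ch (nat_lit 11) (.ev (nat_lit 1664) (nat_lit 131072) (.ev (nat_lit 1677)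
 (nat_lit 32768) .dd))) (.ch (nat_lit 12) (.ev (nat_lit 1664) (nat_lit 32768) (.ev (nat_lit 1677) (nat_lit
 131072) .dd)))))))))))))))))) (.br (nat_lit 9) (.br (nat_lit 8) (.ch (nat_lit 6) (.ev (nat_lit 240) (nat_lit
 131072) (.ev (nat_lit 468) (nat_lit 2) (.nd (nat_lit 944) (.br (nat_lit 5) (.br (nat_lit 3) (.ch (nat_lit 1)
 (.ev (nat_lit 960) (nat_lit 98304) .dd)) (.br (nat_lit 4) (.ch (nat_lit 3) (.nd (nat_lit 1744) (.br (nat_lit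
 10) (.ch (nat_lit 0) (.ev (nat_lit 5044) (nat_lit 65536) (.ev (nat_lit 5053) (nat_lit 32768) .dd))) (.br
 (nat_lit 11) (.ch (nat_lit 10) (.ev (nat_lit 4148) (nat_lit 32768) (.ev (nat_lit 4157) (nat_lit 65536) .dd)))
 (.ch (nat_lit 11) (.ev (nat_lit 6384) (nat_lit 98304) .dd)))))) (.ch (nat_lit 4) (.nd (nat_lit 1744) (.br
 (nat_lit 6) (.br (nat_lit 2) (.ch (nat_lit 1) (.ev (nat_lit 1760) (nat_lit 32768) (.ev (nat_lit 1773) (nat_lit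
 65536) .dd))) (.br (nat_lit 4) (.ch (nat_lit 2) (.ev (nat_lit 1760) (nat_lit 32768) (.ev (nat_lit 1773)
 (nat_lit 65536) .dd))) (.ch (nat_lit 4) (.ev (nat_lit 3792) (nat_lit 98304) .dd)))) (.br (nat_lit 9) (.ch
 (nat_lit 6) (.ev (nat_lit 1760) (nat_lit 65536) (.ev (nat_lit 1773) (nat_lit 32768) .dd))) (.br (nat_lit 10)
 (.ch (nat_lit 9) (.ev (nat_lit 6260) (nat_lit 32768) (.ev (nat_lit 6269) (nat_lit 65536) .dd))) (.ch (nat_lit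
 10) (.ev (nat_lit 1760) (nat_lit 32768) (.ev (nat_lit 1773) (nat_lit 65536) .dd)))))))))) (.br (nat_lit 9)
 (.br (nat_lit 8) (.ch (nat_lit 5) (.ev (nat_lit 960) (nat_lit 32768) (.ev (nat_lit 973) (nat_lit 65536) .dd)))
 (.ch (nat_lit 8) (.ev (nat_lit 960) (nat_lit 65536) (.ev (nat_lit 973) (nat_lit 32768) .dd)))) (.br (nat_lit
 10) (.ch (nat_lit 9) (.nd (nat_lit 1744) (.br (nat_lit 4) (.br (nat_lit 1) (.ch (nat_lit 0) (.ev (nat_lit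
 1760) (nat_lit 65536) (.ev (nat_lit 1773) (nat_lit 32768) .dd))) (.br (nat_lit 2) (.ch (nat_lit 1) (.ev
 (nat_lit 1760) (nat_lit 65536) (.ev (nat_lit 1773) (nat_lit 32768) .dd))) (.ch (nat_lit 2) (.ev (nat_lit 1760)
 (nat_lit 65536) (.ev (nat_lit 1773) (nat_lit 32768) .dd))))) (.br (nat_lit 7) (.br (nat_lit 6) (.ch (nat_lit
 4) (.ev (nat_lit 1780) (nat_lit 65536) (.ev (nat_lit 1789) (nat_lit 32768) .dd))) (.ch (nat_lit 6) (.ev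
 (nat_lit 6644) (nat_lit 32768) (.ev (nat_lit 6653) (nat_lit 65536) .dd)))) (.br (nat_lit 9) (.ch (nat_lit 7)
 (.ev (nat_lit 6644) (nat_lit 65536) (.ev (nat_lit 6653) (nat_lit 32768) .dd))) (.ch (nat_lit 9) (.ev (nat_lit
 1760) (nat_lit 32768) (.ev (nat_lit 1773) (nat_lit 65536) .dd)))))))) (.ch (nat_lit 10) (.nd (nat_lit 1840)
 (.br (nat_lit 7) (.br (nat_lit 4) (.ch (nat_lit 0) (.ev (nat_lit 1856) (nat_lit 32768) (.ev (nat_lit 1869)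
 (nat_lit 65536) .dd))) (.br (nat_lit 6) (.ch (nat_lit 4) (.ev (nat_lit 1856) (nat_lit 32768) (.ev (nat_lit
 1869) (nat_lit 65536) .dd))) (.ch (nat_lit 6) (.ev (nat_lit 2036) (nat_lit 65536) (.ev (nat_lit 2045) (nat_lit
 32768) .dd))))) (.br (nat_lit 11) (.br (nat_lit 9) (.ch (nat_lit 7) (.ev (nat_lit 2868) (nat_lit 65536) (.ev
 (nat_lit 2877) (nat_lit 32768) .dd))) (.ch (nat_lit 9) (.ev (nat_lit 1892) (nat_lit 32768) (.ev (nat_lit 1901)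
 (nat_lit 65536) .dd)))) (.br (nat_lit 12) (.ch (nat_lit 11) (.ev (nat_lit 1876) (nat_lit 65536) (.ev (nat_lit
 1885) (nat_lit 32768) .dd))) (.ch (nat_lit 12) (.ev (nat_lit 1856) (nat_lit 65536) (.ev (nat_lit 1869)
 (nat_lit 32768) .dd))))))))))))))) (.ch (nat_lit 8) (.ev (nat_lit 240) (nat_lit 196608) (.nd (nat_lit 1088)
 (.br (nat_lit 4) (.br (nat_lit 1) (.ch (nat_lit 0) (.nd (nat_lit 2336) (.br (nat_lit 8) (.br (nat_lit 2) (.ch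
 (nat_lit 1) (.ev (nat_lit 6740) (nat_lit 2) (.ev (nat_lit 6749) (nat_lit 32768) .dd))) (.br (nat_lit 3) (.ch
 (nat_lit 2) (.ev (nat_lit 2656) (nat_lit 32770) .dd)) (.ch (nat_lit 3) (.ev (nat_lit 2352) (nat_lit 32768)
 (.ev (nat_lit 2365) (nat_lit 2) .dd))))) (.br (nat_lit 9) (.ch (nat_lit 8) (.ev (nat_lit 2788) (nat_lit 2)
 (.ev (nat_lit 2797) (nat_lit 32768) .dd))) (.br (nat_lit 10) (.ch (nat_lit 9) (.ev (nat_lit 2352) (nat_lit 2)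
 (.ev (nat_lit 2365) (nat_lit 32768) .dd))) (.ch (nat_lit 10) (.ev (nat_lit 2352) (nat_lit 32768) (.ev (nat_lit
 2365) (nat_lit 2) .dd)))))))) (.br (nat_lit 2) (.ch (nat_lit 1) (.nd (nat_lit 3408) (.br (nat_lit 9) (.ch
 (nat_lit 5) (.ev (nat_lit 3476) (nat_lit 32768) (.ev (nat_lit 3485) (nat_lit 2) .dd))) (.ch (nat_lit 9) (.ev
 (nat_lit 3476) (nat_lit 2) (.ev (nat_lit 3485) (nat_lit 32768) .dd)))))) (.ch (nat_lit 2) (.ev (nat_lit 1104)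
 (nat_lit 32768) (.ev (nat_lit 1117) (nat_lit 2) .dd))))) (.br (nat_lit 8) (.br (nat_lit 7) (.ch (nat_lit 4)
 (.ev (nat_lit 1104) (nat_lit 32768) (.ev (nat_lit 1117) (nat_lit 2) .dd))) (.ch (nat_lit 7) (.ev (nat_lit
 1104) (nat_lit 2) (.ev (nat_lit 1117) (nat_lit 32768) .dd)))) (.br (nat_lit 12) (.ch (nat_lit 8) (.nd (nat_lit
 2624) (.br (nat_lit 8) (.ch (nat_lit 6) (.ev (nat_lit 2676) (nat_lit 32768) (.ev (nat_lit 2685) (nat_lit 2)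
 .dd))) (.br (nat_lit 9) (.ch (nat_lit 8) (.ev (nat_lit 3908) (nat_lit 2) (.ev (nat_lit 3917) (nat_lit 32768)
 .dd))) (.ch (nat_lit 9) (.ev (nat_lit 2676) (nat_lit 2) (.ev (nat_lit 2685) (nat_lit 32768) .dd))))))) (.ch
 (nat_lit 12) (.ev (nat_lit 1124) (nat_lit 32768) (.ev (nat_lit 1133) (nat_lit 2) .dd)))))))))) (.br (nat_lit
 11) (.ch (nat_lit 9) (.ev (nat_lit 240) (nat_lit 32770) (.nd (nat_lit 944) (.br (nat_lit 7) (.br (nat_lit 5)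
 (.ch (nat_lit 2) (.ev (nat_lit 960) (nat_lit 131072) (.ev (nat_lit 973) (nat_lit 65536) .dd))) (.br (nat_lit
 6) (.ch (nat_lit 5) (.nd (nat_lit 1648) (.br (nat_lit 9) (.br (nat_lit 6) (.ch (nat_lit 2) (.nd (nat_lit 4224)
 (.br (nat_lit 5) (.ch (nat_lit 1) (.ev (nat_lit 4240) (nat_lit 131072) (.ev (nat_lit 4253) (nat_lit 65536)
 .dd))) (.ch (nat_lit 5) (.ev (nat_lit 6148) (nat_lit 65536) (.ev (nat_lit 6157) (nat_lit 131072) .dd))))))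
 (.br (nat_lit 8) (.ch (nat_lit 6) (.ev (nat_lit 1664) (nat_lit 131072) (.ev (nat_lit 1677) (nat_lit 65536)
 .dd))) (.ch (nat_lit 8) (.ev (nat_lit 1664) (nat_lit 131072) (.ev (nat_lit 1677) (nat_lit 65536) .dd))))) (.br
 (nat_lit 11) (.ch (nat_lit 9) (.ev (nat_lit 1664) (nat_lit 131072) (.ev (nat_lit 1677) (nat_lit 65536) .dd)))
 (.br (nat_lit 12) (.ch (nat_lit 11) (.ev (nat_lit 1664) (nat_lit 131072) (.ev (nat_lit 1677) (nat_lit 65536)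
 .dd))) (.ch (nat_lit 12) (.ev (nat_lit 2036) (nat_lit 131072) (.ev (nat_lit 2045) (nat_lit 65536) .dd))))))))
 (.ch (nat_lit 6) (.ev (nat_lit 960) (nat_lit 65536) (.ev (nat_lit 973) (nat_lit 131072) .dd))))) (.br (nat_lit
 11) (.br (nat_lit 9) (.ch (nat_lit 7) (.ev (nat_lit 960) (nat_lit 65536) (.ev (nat_lit 973) (nat_lit 131072)
 .dd))) (.ch (nat_lit 9) (.nd (nat_lit 1840) (.br (nat_lit 8) (.br (nat_lit 6) (.ch (nat_lit 5) (.ev (nat_lit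
 1856) (nat_lit 65536) (.ev (nat_lit 1869) (nat_lit 131072) .dd))) (.ch (nat_lit 6) (.ev (nat_lit 5140)
 (nat_lit 65536) (.ev (nat_lit 5149) (nat_lit 131072) .dd)))) (.br (nat_lit 10) (.ch (nat_lit 8) (.ev (nat_lit
 1856) (nat_lit 65536) (.ev (nat_lit 1869) (nat_lit 131072) .dd))) (.br (nat_lit 11) (.ch (nat_lit 10) (.ev
 (nat_lit 1856) (nat_lit 65536) (.ev (nat_lit 1869) (nat_lit 131072) .dd))) (.ch (nat_lit 11) (.ev (nat_lit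
 1856) (nat_lit 65536) (.ev (nat_lit 1869) (nat_lit 131072) .dd))))))))) (.br (nat_lit 12) (.ch (nat_lit 11)
 (.nd (nat_lit 2336) (.br (nat_lit 4) (.ch (nat_lit 3) (.ev (nat_lit 2372) (nat_lit 65536) (.ev (nat_lit 2381)
 (nat_lit 131072) .dd))) (.br (nat_lit 8) (.ch (nat_lit 4) (.ev (nat_lit 2768) (nat_lit 196608) .dd)) (.ch
 (nat_lit 8) (.ev (nat_lit 2372) (nat_lit 65536) (.ev (nat_lit 2381) (nat_lit 131072) .dd))))))) (.ch (nat_lit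
 12) (.nd (nat_lit 1456) (.br (nat_lit 6) (.br (nat_lit 4) (.ch (nat_lit 0) (.ev (nat_lit 1472) (nat_lit 65536)
 (.ev (nat_lit 1485) (nat_lit 131072) .dd))) (.br (nat_lit 5) (.ch (nat_lit 4) (.fin (nat_lit
 576425018190676533))) (.ch (nat_lit 5) (.ev (nat_lit 6260) (nat_lit 131072) (.ev (nat_lit 6269) (nat_lit
 65536) .dd))))) (.br (nat_lit 10) (.br (nat_lit 7) (.ch (nat_lit 6) (.ev (nat_lit 6500) (nat_lit 65536) (.ev
 (nat_lit 6509) (nat_lit 131072) .dd))) (.ch (nat_lit 7) (.ev (nat_lit 1472) (nat_lit 65536) (.ev (nat_lit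
 1485) (nat_lit 131072) .dd)))) (.br (nat_lit 11) (.ch (nat_lit 10) (.ev (nat_lit 3076) (nat_lit 65536) (.ev
 (nat_lit 3085) (nat_lit 131072) .dd))) (.ch (nat_lit 11) (.ev (nat_lit 1472) (nat_lit 131072) (.ev (nat_lit
 1485) (nat_lit 65536) .dd)))))))))))))) (.br (nat_lit 12) (.ch (nat_lit 11) (.ev (nat_lit 240) (nat_lit
 229376) (.ev (nat_lit 253) (nat_lit 2) .dd))) (.ch (nat_lit 12) (.ev (nat_lit 240) (nat_lit 2) (.nd (nat_lit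
 784) (.br (nat_lit 5) (.br (nat_lit 3) (.br (nat_lit 2) (.ch (nat_lit 0) (.ev (nat_lit 800) (nat_lit 65536)
 (.ev (nat_lit 820) (nat_lit 131072) (.ev (nat_lit 829) (nat_lit 32768) .dd)))) (.ch (nat_lit 2) (.ev (nat_lit
 1236) (nat_lit 65536) (.nd (nat_lit 1648) (.br (nat_lit 5) (.br (nat_lit 3) (.br (nat_lit 2) (.ch (nat_lit 1)
 (.fin (nat_lit 576364545105674817))) (.ch (nat_lit 2) (.ev (nat_lit 1664) (nat_lit 131072) (.ev (nat_lit 1677)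
 (nat_lit 32768) .dd)))) (.br (nat_lit 4) (.ch (nat_lit 3) (.ev (nat_lit 1664) (nat_lit 163840) .dd)) (.ch
 (nat_lit 4) (.ev (nat_lit 1664) (nat_lit 131072) (.ev (nat_lit 1677) (nat_lit 32768) .dd))))) (.br (nat_lit 7)
 (.br (nat_lit 6) (.ch (nat_lit 5) (.ev (nat_lit 3456) (nat_lit 163840) .dd)) (.ch (nat_lit 6) (.ev (nat_lit
 3168) (nat_lit 32768) (.ev (nat_lit 3181) (nat_lit 131072) .dd)))) (.br (nat_lit 10) (.ch (nat_lit 7) (.ev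
 (nat_lit 1684) (nat_lit 131072) (.ev (nat_lit 1693) (nat_lit 32768) .dd))) (.br (nat_lit 11) (.ch (nat_lit 10)
 (.ev (nat_lit 1664) (nat_lit 32768) (.ev (nat_lit 1677) (nat_lit 131072) .dd))) (.ch (nat_lit 11) (.ev
 (nat_lit 1664) (nat_lit 163840) .dd)))))))))) (.br (nat_lit 4) (.ch (nat_lit 3) (.nd (nat_lit 2624) (.br
 (nat_lit 6) (.br (nat_lit 3) (.br (nat_lit 1) (.ch (nat_lit 0) (.ev (nat_lit 2640) (nat_lit 163840) (.ev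
 (nat_lit 2653) (nat_lit 65536) .dd))) (.ch (nat_lit 1) (.ev (nat_lit 2820) (nat_lit 131072) (.ev (nat_lit
 3844) (nat_lit 65536) (.ev (nat_lit 3853) (nat_lit 32768) .dd))))) (.br (nat_lit 5) (.ch (nat_lit 3) (.ev
 (nat_lit 2640) (nat_lit 98304) (.ev (nat_lit 2653) (nat_lit 131072) .dd))) (.ch (nat_lit 5) (.ev (nat_lit
 3700) (nat_lit 131072) (.ev (nat_lit 5312) (nat_lit 65536) (.ev (nat_lit 5325) (nat_lit 32768) .dd)))))) (.br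
 (nat_lit 8) (.br (nat_lit 7) (.ch (nat_lit 6) (.ev (nat_lit 2640) (nat_lit 65536) (.ev (nat_lit 2740) (nat_lit
 131072) (.ev (nat_lit 2749) (nat_lit 32768) .dd)))) (.ch (nat_lit 7) (.ev (nat_lit 2640) (nat_lit 131072) (.ev
 (nat_lit 2740) (nat_lit 65536) (.ev (nat_lit 2749) (nat_lit 32768) .dd))))) (.br (nat_lit 10) (.ch (nat_lit 8)
 (.ev (nat_lit 2640) (nat_lit 163840) (.ev (nat_lit 2653) (nat_lit 65536) .dd))) (.br (nat_lit 11) (.ch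
 (nat_lit 10) (.ev (nat_lit 2640) (nat_lit 131072) (.ev (nat_lit 2676) (nat_lit 32768) (.ev (nat_lit 2685)
 (nat_lit 65536) .dd)))) (.ch (nat_lit 11) (.ev (nat_lit 2640) (nat_lit 65536) (.ev (nat_lit 2820) (nat_lit
 32768) (.ev (nat_lit 2829) (nat_lit 131072) .dd)))))))))) (.ch (nat_lit 4) (.ev (nat_lit 800) (nat_lit 131072)
 (.nd (nat_lit 2624) (.br (nat_lit 5) (.br (nat_lit 3) (.ch (nat_lit 0) (.ev (nat_lit 2640) (nat_lit 65536)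
 (.ev (nat_lit 2653) (nat_lit 32768) .dd))) (.ch (nat_lit 3) (.ev (nat_lit 3604) (nat_lit 65536) (.ev (nat_lit
 3613) (nat_lit 32768) .dd)))) (.br (nat_lit 7) (.ch (nat_lit 5) (.ev (nat_lit 2640) (nat_lit 65536) (.ev
 (nat_lit 2653) (nat_lit 32768) .dd))) (.br (nat_lit 9) (.ch (nat_lit 7) (.ev (nat_lit 3812) (nat_lit 32768)
 (.ev (nat_lit 3821) (nat_lit 65536) .dd))) (.ch (nat_lit 9) (.ev (nat_lit 4084) (nat_lit 32768) (.ev (nat_lit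
 4093) (nat_lit 65536) .dd))))))))))) (.br (nat_lit 8) (.br (nat_lit 7) (.ch (nat_lit 5) (.nd (nat_lit 2336)
 (.br (nat_lit 8) (.br (nat_lit 4) (.ch (nat_lit 0) (.ev (nat_lit 2352) (nat_lit 98304) (.ev (nat_lit 2365)
 (nat_lit 131072) .dd))) (.br (nat_lit 7) (.ch (nat_lit 4) (.ev (nat_lit 2352) (nat_lit 65536) (.ev (nat_lit
 2372) (nat_lit 131072) (.ev (nat_lit 2381) (nat_lit 32768) .dd)))) (.ch (nat_lit 7) (.ev (nat_lit 2352)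
 (nat_lit 98304) (.ev (nat_lit 2365) (nat_lit 131072) .dd))))) (.br (nat_lit 10) (.ch (nat_lit 8) (.ev (nat_lit
 6596) (nat_lit 32768) (.ev (nat_lit 6644) (nat_lit 131072) (.ev (nat_lit 6653) (nat_lit 65536) .dd)))) (.br
 (nat_lit 12) (.ch (nat_lit 10) (.ev (nat_lit 2388) (nat_lit 32768) (.ev (nat_lit 6608) (nat_lit 65536) (.ev
 (nat_lit 6621) (nat_lit 131072) .dd)))) (.ch (nat_lit 12) (.ev (nat_lit 2352) (nat_lit 65536) (.ev (nat_lit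
 2372) (nat_lit 32768) (.ev (nat_lit 2381) (nat_lit 131072) .dd))))))))) (.ch (nat_lit 7) (.ev (nat_lit 800)
 (nat_lit 32768) (.nd (nat_lit 2336) (.br (nat_lit 8) (.br (nat_lit 3) (.ch (nat_lit 0) (.ev (nat_lit 3956)
 (nat_lit 131072) (.ev (nat_lit 3965) (nat_lit 65536) .dd))) (.br (nat_lit 6) (.ch (nat_lit 3) (.ev (nat_lit
 2352) (nat_lit 65536) (.ev (nat_lit 2365) (nat_lit 131072) .dd))) (.ch (nat_lit 6) (.ev (nat_lit 2388)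
 (nat_lit 131072) (.ev (nat_lit 2397) (nat_lit 65536) .dd))))) (.br (nat_lit 10) (.ch (nat_lit 8) (.ev (nat_lit
 2372) (nat_lit 131072) (.ev (nat_lit 2381) (nat_lit 65536) .dd))) (.br (nat_lit 12) (.ch (nat_lit 10) (.ev
 (nat_lit 2352) (nat_lit 131072) (.ev (nat_lit 2365) (nat_lit 65536) .dd))) (.ch (nat_lit 12) (.ev (nat_lit
 2420) (nat_lit 131072) (.ev (nat_lit 2429) (nat_lit 65536) .dd)))))))))) (.br (nat_lit 11) (.ch (nat_lit 8)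
 (.ev (nat_lit 800) (nat_lit 32768) (.nd (nat_lit 3408) (.br (nat_lit 9) (.br (nat_lit 5) (.ch (nat_lit 0) (.ev
 (nat_lit 3424) (nat_lit 65536) (.ev (nat_lit 3437) (nat_lit 131072) .dd))) (.br (nat_lit 7) (.ch (nat_lit 5)
 (.ev (nat_lit 6272) (nat_lit 131072) (.ev (nat_lit 6285) (nat_lit 65536) .dd))) (.ch (nat_lit 7) (.ev (nat_lit
 3424) (nat_lit 196608) .dd)))) (.br (nat_lit 11) (.ch (nat_lit 9) (.ev (nat_lit 3424) (nat_lit 65536) (.ev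
 (nat_lit 3437) (nat_lit 131072) .dd))) (.br (nat_lit 12) (.ch (nat_lit 11) (.ev (nat_lit 3476) (nat_lit 65536)
 (.ev (nat_lit 3485) (nat_lit 131072) .dd))) (.ch (nat_lit 12) (.ev (nat_lit 5364) (nat_lit 131072) (.ev
 (nat_lit 5373) (nat_lit 65536) .dd))))))))) (.ch (nat_lit 11) (.ev (nat_lit 800) (nat_lit 229376)
 .dd))))))))))))))))) (.br (nat_lit 9) (.br (nat_lit 6) (.ch (nat_lit 5) (.ev (nat_lit 48) (nat_lit 132354)
 (.nd (nat_lit 96) (.br (nat_lit 8) (.br (nat_lit 3) (.br (nat_lit 2) (.ch (nat_lit 0) (.ev (nat_lit 112)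
 (nat_lit 10240) (.nd (nat_lit 944) (.br (nat_lit 6) (.br (nat_lit 2) (.ch (nat_lit 0) (.ev (nat_lit 960)
 (nat_lit 65536) (.ev (nat_lit 1300) (nat_lit 64) (.ev (nat_lit 1309) (nat_lit 32768) .dd)))) (.br (nat_lit 3)
 (.ch (nat_lit 2) (.ev (nat_lit 960) (nat_lit 32768) (.nd (nat_lit 2624) (.br (nat_lit 9) (.br (nat_lit 3) (.ch
 (nat_lit 1) (.ev (nat_lit 2832) (nat_lit 64) (.ev (nat_lit 2845) (nat_lit 65536) .dd))) (.br (nat_lit 4) (.ch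
 (nat_lit 3) (.ev (nat_lit 2676) (nat_lit 65536) (.ev (nat_lit 2685) (nat_lit 64) .dd))) (.ch (nat_lit 4) (.ev
 (nat_lit 2640) (nat_lit 64) (.ev (nat_lit 2653) (nat_lit 65536) .dd))))) (.br (nat_lit 11) (.ch (nat_lit 9)
 (.ev (nat_lit 2868) (nat_lit 65536) (.ev (nat_lit 2877) (nat_lit 64) .dd))) (.br (nat_lit 12) (.ch (nat_lit
 11) (.ev (nat_lit 2640) (nat_lit 64) (.ev (nat_lit 2653) (nat_lit 65536) .dd))) (.ch (nat_lit 12) (.ev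
 (nat_lit 3488) (nat_lit 64) (.ev (nat_lit 3501) (nat_lit 65536) .dd))))))))) (.ch (nat_lit 3) (.ev (nat_lit
 960) (nat_lit 64) (.nd (nat_lit 2624) (.br (nat_lit 6) (.ch (nat_lit 4) (.ev (nat_lit 6596) (nat_lit 32768)
 (.ev (nat_lit 6605) (nat_lit 65536) .dd))) (.br (nat_lit 9) (.ch (nat_lit 6) (.ev (nat_lit 2676) (nat_lit
 65536) (.ev (nat_lit 2685) (nat_lit 32768) .dd))) (.ch (nat_lit 9) (.ev (nat_lit 2788) (nat_lit 32768) (.ev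
 (nat_lit 2797) (nat_lit 65536) .dd)))))))))) (.br (nat_lit 8) (.br (nat_lit 7) (.ch (nat_lit 6) (.ev (nat_lit
 960) (nat_lit 98304) (.ev (nat_lit 973) (nat_lit 64) .dd))) (.ch (nat_lit 7) (.ev (nat_lit 1332) (nat_lit 64)
 (.nd (nat_lit 2128) (.br (nat_lit 8) (.br (nat_lit 3) (.ch (nat_lit 0) (.ev (nat_lit 2144) (nat_lit 32768)
 (.ev (nat_lit 2157) (nat_lit 65536) .dd))) (.br (nat_lit 7) (.ch (nat_lit 3) (.ev (nat_lit 2144) (nat_lit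
 32768) (.ev (nat_lit 2157) (nat_lit 65536) .dd))) (.ch (nat_lit 7) (.ev (nat_lit 2164) (nat_lit 32768) (.ev
 (nat_lit 2173) (nat_lit 65536) .dd))))) (.br (nat_lit 10) (.br (nat_lit 9) (.ch (nat_lit 8) (.ev (nat_lit
 2144) (nat_lit 32768) (.ev (nat_lit 2157) (nat_lit 65536) .dd))) (.ch (nat_lit 9) (.ev (nat_lit 2144) (nat_lit
 65536) (.ev (nat_lit 2157) (nat_lit 32768) .dd)))) (.br (nat_lit 12) (.ch (nat_lit 10) (.ev (nat_lit 6500)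
 (nat_lit 65536) (.ev (nat_lit 6509) (nat_lit 32768) .dd))) (.ch (nat_lit 12) (.ev (nat_lit 3604) (nat_lit
 65536) (.ev (nat_lit 3613) (nat_lit 32768) .dd)))))))))) (.br (nat_lit 12) (.ch (nat_lit 8) (.ev (nat_lit 960)
 (nat_lit 64) (.nd (nat_lit 2624) (.br (nat_lit 8) (.br (nat_lit 1) (.ch (nat_lit 0) (.ev (nat_lit 2640)
 (nat_lit 65536) (.ev (nat_lit 2653) (nat_lit 32768) .dd))) (.br (nat_lit 7) (.ch (nat_lit 1) (.ev (nat_lit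
 2640) (nat_lit 65536) (.ev (nat_lit 2653) (nat_lit 32768) .dd))) (.ch (nat_lit 7) (.ev (nat_lit 2640) (nat_lit
 32768) (.ev (nat_lit 2653) (nat_lit 65536) .dd))))) (.br (nat_lit 9) (.ch (nat_lit 8) (.ev (nat_lit 2640)
 (nat_lit 65536) (.ev (nat_lit 2653) (nat_lit 32768) .dd))) (.br (nat_lit 10) (.ch (nat_lit 9) (.ev (nat_lit
 2820) (nat_lit 65536) (.ev (nat_lit 2829) (nat_lit 32768) .dd))) (.ch (nat_lit 10) (.ev (nat_lit 2868)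
 (nat_lit 65536) (.ev (nat_lit 2877) (nat_lit 32768) .dd))))))))) (.ch (nat_lit 12) (.nd (nat_lit 2624) (.br
 (nat_lit 6) (.br (nat_lit 3) (.ch (nat_lit 0) (.ev (nat_lit 2640) (nat_lit 65536) (.ev (nat_lit 2788) (nat_lit
 32768) (.ev (nat_lit 2797) (nat_lit 64) .dd)))) (.br (nat_lit 4) (.ch (nat_lit 3) (.ev (nat_lit 2640) (nat_lit
 64) (.ev (nat_lit 2676) (nat_lit 32768) (.ev (nat_lit 2685) (nat_lit 65536) .dd)))) (.ch (nat_lit 4) (.ev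
 (nat_lit 2676) (nat_lit 98304) (.ev (nat_lit 2685) (nat_lit 64) .dd))))) (.br (nat_lit 8) (.br (nat_lit 7)
 (.ch (nat_lit 6) (.ev (nat_lit 2676) (nat_lit 98304) (.ev (nat_lit 2685) (nat_lit 64) .dd))) (.ch (nat_lit 7)
 (.ev (nat_lit 2640) (nat_lit 65536) (.fin (nat_lit 575881859199090666))))) (.br (nat_lit 9) (.ch (nat_lit 8)
 (.ev (nat_lit 2640) (nat_lit 32832) (.ev (nat_lit 2653) (nat_lit 65536) .dd))) (.ch (nat_lit 9) (.ev (nat_lit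
 2676) (nat_lit 32768) (.ev (nat_lit 3540) (nat_lit 64) (.ev (nat_lit 3549) (nat_lit 65536) .dd)))))))))))))))
 (.ch (nat_lit 2) (.ev (nat_lit 112) (nat_lit 65600) (.nd (nat_lit 672) (.br (nat_lit 7) (.br (nat_lit 2) (.ch
 (nat_lit 0) (.ev (nat_lit 688) (nat_lit 10240) (.ev (nat_lit 701) (nat_lit 32768) .dd))) (.br (nat_lit 6) (.ch
 (nat_lit 2) (.ev (nat_lit 688) (nat_lit 8192) (.nd (nat_lit 3408) (.br (nat_lit 7) (.br (nat_lit 4) (.ch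
 (nat_lit 0) (.ev (nat_lit 6260) (nat_lit 2048) (.ev (nat_lit 6269) (nat_lit 32768) .dd))) (.br (nat_lit 6)
 (.ch (nat_lit 4) (.ev (nat_lit 3424) (nat_lit 2048) (.ev (nat_lit 3437) (nat_lit 32768) .dd))) (.ch (nat_lit
 6) (.ev (nat_lit 3424) (nat_lit 2048) (.ev (nat_lit 3437) (nat_lit 32768) .dd))))) (.br (nat_lit 9) (.ch
 (nat_lit 7) (.ev (nat_lit 3424) (nat_lit 2048) (.ev (nat_lit 3437) (nat_lit 32768) .dd))) (.br (nat_lit 11)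
 (.ch (nat_lit 9) (.ev (nat_lit 3424) (nat_lit 2048) (.ev (nat_lit 3437) (nat_lit 32768) .dd))) (.ch (nat_lit
 11) (.ev (nat_lit 3476) (nat_lit 32768) (.ev (nat_lit 3485) (nat_lit 2048) .dd))))))))) (.ch (nat_lit 6) (.nd
 (nat_lit 2624) (.br (nat_lit 3) (.ch (nat_lit 2) (.ev (nat_lit 3476) (nat_lit 2048) (.ev (nat_lit 3812)
 (nat_lit 32768) (.ev (nat_lit 3821) (nat_lit 8192) .dd)))) (.br (nat_lit 8) (.ch (nat_lit 3) (.ev (nat_lit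
 2640) (nat_lit 8192) (.ev (nat_lit 3604) (nat_lit 32768) (.ev (nat_lit 3613) (nat_lit 2048) .dd)))) (.ch
 (nat_lit 8) (.ev (nat_lit 2640) (nat_lit 8192) (.ev (nat_lit 2676) (nat_lit 32768) (.ev (nat_lit 2685)
 (nat_lit 2048) .dd)))))))))) (.br (nat_lit 11) (.br (nat_lit 9) (.ch (nat_lit 7) (.ev (nat_lit 688) (nat_lit
 32768) (.nd (nat_lit 2624) (.br (nat_lit 8) (.br (nat_lit 2) (.ch (nat_lit 1) (.ev (nat_lit 2948) (nat_lit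
 8192) (.ev (nat_lit 2957) (nat_lit 2048) .dd))) (.ch (nat_lit 2) (.ev (nat_lit 2640) (nat_lit 8192) (.ev
 (nat_lit 2653) (nat_lit 2048) .dd)))) (.br (nat_lit 10) (.ch (nat_lit 8) (.ev (nat_lit 2676) (nat_lit 2048)
 (.ev (nat_lit 2685) (nat_lit 8192) .dd))) (.ch (nat_lit 10) (.ev (nat_lit 3700) (nat_lit 8192) (.ev (nat_lit
 3709) (nat_lit 2048) .dd)))))))) (.ch (nat_lit 9) (.ev (nat_lit 772) (nat_lit 32768) (.nd (nat_lit 1744) (.br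
 (nat_lit 8) (.br (nat_lit 1) (.ch (nat_lit 0) (.ev (nat_lit 2036) (nat_lit 8192) (.ev (nat_lit 2045) (nat_lit
 2048) .dd))) (.ch (nat_lit 1) (.ev (nat_lit 2004) (nat_lit 2048) (.ev (nat_lit 2013) (nat_lit 8192) .dd))))
 (.br (nat_lit 9) (.ch (nat_lit 8) (.ev (nat_lit 3252) (nat_lit 8192) (.ev (nat_lit 3261) (nat_lit 2048) .dd)))
 (.br (nat_lit 11) (.ch (nat_lit 9) (.ev (nat_lit 3812) (nat_lit 8192) (.ev (nat_lit 3821) (nat_lit 2048)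
 .dd))) (.ch (nat_lit 11) (.ev (nat_lit 2004) (nat_lit 2048) (.ev (nat_lit 2013) (nat_lit 8192) .dd))))))))))
 (.br (nat_lit 12) (.ch (nat_lit 11) (.nd (nat_lit 1456) (.br (nat_lit 7) (.br (nat_lit 3) (.ch (nat_lit 0)
 (.ev (nat_lit 5364) (nat_lit 2048) (.fin (nat_lit 576459102927405561)))) (.br (nat_lit 5) (.ch (nat_lit 3)
 (.ev (nat_lit 2036) (nat_lit 8192) (.ev (nat_lit 3652) (nat_lit 2048) (.ev (nat_lit 3661) (nat_lit 32768)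
 .dd)))) (.ch (nat_lit 5) (.ev (nat_lit 1472) (nat_lit 32768) (.ev (nat_lit 4132) (nat_lit 8192) (.ev (nat_lit
 4141) (nat_lit 2048) .dd)))))) (.br (nat_lit 9) (.br (nat_lit 8) (.ch (nat_lit 7) (.ev (nat_lit 1472) (nat_lit
 8192) (.ev (nat_lit 3540) (nat_lit 32768) (.ev (nat_lit 3549) (nat_lit 2048) .dd)))) (.ch (nat_lit 8) (.ev
 (nat_lit 1472) (nat_lit 8192) (.ev (nat_lit 5140) (nat_lit 32768) (.ev (nat_lit 5149) (nat_lit 2048) .dd)))))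
 (.br (nat_lit 12) (.ch (nat_lit 9) (.ev (nat_lit 1472) (nat_lit 32768) (.ev (nat_lit 2244) (nat_lit 2048) (.ev
 (nat_lit 2253) (nat_lit 8192) .dd)))) (.ch (nat_lit 12) (.ev (nat_lit 1472) (nat_lit 10240) (.ev (nat_lit
 1485) (nat_lit 32768) .dd)))))))) (.ch (nat_lit 12) (.ev (nat_lit 688) (nat_lit 32768) (.nd (nat_lit 1408)
 (.br (nat_lit 8) (.br (nat_lit 6) (.ch (nat_lit 4) (.ev (nat_lit 2372) (nat_lit 8192) (.ev (nat_lit 2381)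
 (nat_lit 2048) .dd))) (.ch (nat_lit 6) (.ev (nat_lit 1424) (nat_lit 8192) (.ev (nat_lit 1437) (nat_lit 2048)
 .dd)))) (.br (nat_lit 10) (.ch (nat_lit 8) (.ev (nat_lit 3908) (nat_lit 2048) (.ev (nat_lit 3917) (nat_lit
 8192) .dd))) (.br (nat_lit 12) (.ch (nat_lit 10) (.ev (nat_lit 1424) (nat_lit 2048) (.ev (nat_lit 1437)
 (nat_lit 8192) .dd))) (.ch (nat_lit 12) (.ev (nat_lit 2372) (nat_lit 8192) (.ev (nat_lit 2381) (nat_lit 2048)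
 .dd)))))))))))))))) (.br (nat_lit 4) (.ch (nat_lit 3) (.ev (nat_lit 112) (nat_lit 65536) (.nd (nat_lit 624)
 (.br (nat_lit 6) (.br (nat_lit 3) (.br (nat_lit 2) (.ch (nat_lit 1) (.ev (nat_lit 660) (nat_lit 2048) (.ev
 (nat_lit 980) (nat_lit 32768) (.nd (nat_lit 2128) (.br (nat_lit 3) (.br (nat_lit 1) (.ch (nat_lit 0) (.ev
 (nat_lit 2900) (nat_lit 64) (.ev (nat_lit 2909) (nat_lit 8192) .dd))) (.br (nat_lit 2) (.ch (nat_lit 1) (.ev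
 (nat_lit 2144) (nat_lit 8256) .dd)) (.ch (nat_lit 2) (.ev (nat_lit 2948) (nat_lit 8192) (.ev (nat_lit 2957)
 (nat_lit 64) .dd))))) (.br (nat_lit 7) (.br (nat_lit 6) (.ch (nat_lit 3) (.ev (nat_lit 3700) (nat_lit 64) (.ev
 (nat_lit 3709) (nat_lit 8192) .dd))) (.ch (nat_lit 6) (.ev (nat_lit 2144) (nat_lit 64) (.ev (nat_lit 2157)
 (nat_lit 8192) .dd)))) (.br (nat_lit 11) (.ch (nat_lit 7) (.ev (nat_lit 2144) (nat_lit 8192) (.ev (nat_lit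
 2157) (nat_lit 64) .dd))) (.ch (nat_lit 11) (.ev (nat_lit 3012) (nat_lit 64) (.ev (nat_lit 3021) (nat_lit
 8192) .dd)))))))))) (.ch (nat_lit 2) (.ev (nat_lit 640) (nat_lit 41024) (.ev (nat_lit 653) (nat_lit 2048)
 .dd)))) (.br (nat_lit 4) (.ch (nat_lit 3) (.ev (nat_lit 640) (nat_lit 8256) (.ev (nat_lit 724) (nat_lit 2048)
 (.ev (nat_lit 733) (nat_lit 32768) .dd)))) (.ch (nat_lit 4) (.ev (nat_lit 640) (nat_lit 2048) (.ev (nat_lit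
 916) (nat_lit 64) (.nd (nat_lit 2336) (.br (nat_lit 3) (.br (nat_lit 2) (.ch (nat_lit 0) (.ev (nat_lit 2676)
 (nat_lit 32768) (.ev (nat_lit 2685) (nat_lit 8192) .dd))) (.ch (nat_lit 2) (.ev (nat_lit 2676) (nat_lit 32768)
 (.ev (nat_lit 2685) (nat_lit 8192) .dd)))) (.br (nat_lit 10) (.ch (nat_lit 3) (.ev (nat_lit 2372) (nat_lit
 8192) (.ev (nat_lit 2381) (nat_lit 32768) .dd))) (.ch (nat_lit 10) (.ev (nat_lit 2352) (nat_lit 8192) (.ev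
 (nat_lit 2365) (nat_lit 32768) .dd))))))))))) (.br (nat_lit 9) (.br (nat_lit 8) (.ch (nat_lit 6) (.ev (nat_lit
 640) (nat_lit 43008) (.ev (nat_lit 653) (nat_lit 64) .dd))) (.ch (nat_lit 8) (.ev (nat_lit 640) (nat_lit 2048)
 (.ev (nat_lit 980) (nat_lit 32768) (.nd (nat_lit 1744) (.br (nat_lit 5) (.br (nat_lit 3) (.ch (nat_lit 2) (.ev
 (nat_lit 2004) (nat_lit 64) (.ev (nat_lit 2013) (nat_lit 8192) .dd))) (.ch (nat_lit 3) (.ev (nat_lit 3012)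
 (nat_lit 64) (.ev (nat_lit 3021) (nat_lit 8192) .dd)))) (.br (nat_lit 7) (.ch (nat_lit 5) (.ev (nat_lit 2004)
 (nat_lit 64) (.ev (nat_lit 2013) (nat_lit 8192) .dd))) (.br (nat_lit 8) (.ch (nat_lit 7) (.ev (nat_lit 6452)
 (nat_lit 8192) (.ev (nat_lit 6461) (nat_lit 64) .dd))) (.ch (nat_lit 8) (.ev (nat_lit 2464) (nat_lit 8256)
 .dd)))))))))) (.br (nat_lit 10) (.ch (nat_lit 9) (.nd (nat_lit 1408) (.br (nat_lit 7) (.br (nat_lit 4) (.br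
 (nat_lit 2) (.ch (nat_lit 0) (.ev (nat_lit 1424) (nat_lit 32832) (.ev (nat_lit 6964) (nat_lit 8192) (.ev
 (nat_lit 6973) (nat_lit 2048) .dd)))) (.ch (nat_lit 2) (.ev (nat_lit 1424) (nat_lit 64) (.nd (nat_lit 4224)
 (.br (nat_lit 6) (.br (nat_lit 4) (.ch (nat_lit 3) (.ev (nat_lit 4724) (nat_lit 8192) (.ev (nat_lit 6788)
 (nat_lit 32768) (.ev (nat_lit 6797) (nat_lit 2048) .dd)))) (.ch (nat_lit 4) (.ev (nat_lit 4240) (nat_lit 2048)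
 (.ev (nat_lit 4788) (nat_lit 8192) (.ev (nat_lit 4797) (nat_lit 32768) .dd))))) (.br (nat_lit 8) (.ch (nat_lit
 6) (.ev (nat_lit 4240) (nat_lit 2048) (.ev (nat_lit 4468) (nat_lit 32768) (.ev (nat_lit 4477) (nat_lit 8192)
 .dd)))) (.br (nat_lit 9) (.ch (nat_lit 8) (.ev (nat_lit 5364) (nat_lit 8192) (.ev (nat_lit 5572) (nat_lit
 2048) (.ev (nat_lit 5581) (nat_lit 32768) .dd)))) (.ch (nat_lit 9) (.ev (nat_lit 4240) (nat_lit 32768) (.ev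
 (nat_lit 4724) (nat_lit 8192) (.ev (nat_lit 4733) (nat_lit 2048) .dd))))))))))) (.br (nat_lit 5) (.ch (nat_lit
 4) (.ev (nat_lit 1424) (nat_lit 34880) (.ev (nat_lit 1437) (nat_lit 8192) .dd))) (.ch (nat_lit 5) (.ev
 (nat_lit 1424) (nat_lit 8192) (.ev (nat_lit 6500) (nat_lit 32768) (.ev (nat_lit 6900) (nat_lit 64) (.ev
 (nat_lit 6909) (nat_lit 2048) .dd))))))) (.br (nat_lit 10) (.br (nat_lit 8) (.ch (nat_lit 7) (.ev (nat_lit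
 1424) (nat_lit 2112) (.nd (nat_lit 4592) (.br (nat_lit 12) (.ch (nat_lit 1) (.ev (nat_lit 4644) (nat_lit 8192)
 (.ev (nat_lit 4653) (nat_lit 32768) .dd))) (.ch (nat_lit 12) (.ev (nat_lit 5572) (nat_lit 8192) (.ev (nat_lit
 5581) (nat_lit 32768) .dd))))))) (.ch (nat_lit 8) (.ev (nat_lit 1424) (nat_lit 10240) (.ev (nat_lit 2948)
 (nat_lit 64) (.ev (nat_lit 2957) (nat_lit 32768) .dd))))) (.br (nat_lit 12) (.ch (nat_lit 10) (.ev (nat_lit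
 1424) (nat_lit 40960) (.ev (nat_lit 6500) (nat_lit 2048) (.ev (nat_lit 6509) (nat_lit 64) .dd)))) (.ch
 (nat_lit 12) (.nd (nat_lit 4224) (.br (nat_lit 4) (.br (nat_lit 3) (.ch (nat_lit 0) (.ev (nat_lit 4240)
 (nat_lit 32832) (.ev (nat_lit 4356) (nat_lit 2048) (.ev (nat_lit 4365) (nat_lit 8192) .dd)))) (.ch (nat_lit 3)
 (.ev (nat_lit 4240) (nat_lit 64) (.ev (nat_lit 4356) (nat_lit 2048) (.ev (nat_lit 4368) (nat_lit 32768) (.ev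
 (nat_lit 4381) (nat_lit 8192) .dd)))))) (.br (nat_lit 6) (.ch (nat_lit 4) (.ev (nat_lit 4240) (nat_lit 34816)
 (.fin (nat_lit 576390933407810052)))) (.br (nat_lit 9) (.ch (nat_lit 6) (.ev (nat_lit 4240) (nat_lit 32768)
 (.ev (nat_lit 5540) (nat_lit 64) (.fin (nat_lit 576475595708777047))))) (.ch (nat_lit 9) (.ev (nat_lit 4240)
 (nat_lit 8256) (.ev (nat_lit 5764) (nat_lit 32768) (.ev (nat_lit 5773) (nat_lit 2048) .dd)))))))))))))) (.br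
 (nat_lit 12) (.ch (nat_lit 10) (.nd (nat_lit 1456) (.br (nat_lit 5) (.br (nat_lit 2) (.br (nat_lit 1) (.ch
 (nat_lit 0) (.ev (nat_lit 1472) (nat_lit 32832) (.ev (nat_lit 1492) (nat_lit 2048) (.ev (nat_lit 1501)
 (nat_lit 8192) .dd)))) (.ch (nat_lit 1) (.ev (nat_lit 1472) (nat_lit 34816) (.ev (nat_lit 1588) (nat_lit 64)
 (.ev (nat_lit 1597) (nat_lit 8192) .dd))))) (.br (nat_lit 4) (.ch (nat_lit 2) (.ev (nat_lit 4084) (nat_lit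
 32768) (.nd (nat_lit 4304) (.br (nat_lit 7) (.br (nat_lit 5) (.br (nat_lit 4) (.ch (nat_lit 1) (.ev (nat_lit
 4320) (nat_lit 2048) (.ev (nat_lit 4356) (nat_lit 8192) (.ev (nat_lit 4365) (nat_lit 64) .dd)))) (.ch (nat_lit
 4) (.ev (nat_lit 4320) (nat_lit 8256) (.ev (nat_lit 4333) (nat_lit 2048) .dd)))) (.br (nat_lit 6) (.ch
 (nat_lit 5) (.ev (nat_lit 5140) (nat_lit 2112) (.ev (nat_lit 5149) (nat_lit 8192) .dd))) (.ch (nat_lit 6) (.ev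
 (nat_lit 5924) (nat_lit 2048) (.ev (nat_lit 6356) (nat_lit 8192) (.ev (nat_lit 6365) (nat_lit 64) .dd))))))
 (.br (nat_lit 11) (.br (nat_lit 9) (.ch (nat_lit 7) (.ev (nat_lit 4320) (nat_lit 10240) (.ev (nat_lit 4333)
 (nat_lit 64) .dd))) (.ch (nat_lit 9) (.ev (nat_lit 4320) (nat_lit 64) (.ev (nat_lit 4356) (nat_lit 8192) (.ev
 (nat_lit 4365) (nat_lit 2048) .dd))))) (.br (nat_lit 12) (.ch (nat_lit 11) (.ev (nat_lit 4320) (nat_lit 2048)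
 (.ev (nat_lit 4356) (nat_lit 8192) (.ev (nat_lit 4365) (nat_lit 64) .dd)))) (.ch (nat_lit 12) (.ev (nat_lit
 4320) (nat_lit 64) (.ev (nat_lit 5540) (nat_lit 2048) (.ev (nat_lit 5549) (nat_lit 8192) .dd)))))))))) (.ch
 (nat_lit 4) (.ev (nat_lit 1876) (nat_lit 32768) (.nd (nat_lit 4224) (.br (nat_lit 4) (.br (nat_lit 2) (.ch
 (nat_lit 0) (.ev (nat_lit 4356) (nat_lit 64) (.ev (nat_lit 6500) (nat_lit 8192) (.ev (nat_lit 6509) (nat_lit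
 2048) .dd)))) (.ch (nat_lit 2) (.ev (nat_lit 4500) (nat_lit 8192) (.ev (nat_lit 5572) (nat_lit 64) (.ev
 (nat_lit 5581) (nat_lit 2048) .dd))))) (.br (nat_lit 5) (.ch (nat_lit 4) (.ev (nat_lit 4356) (nat_lit 64) (.ev
 (nat_lit 5924) (nat_lit 2048) (.ev (nat_lit 5933) (nat_lit 8192) .dd)))) (.br (nat_lit 12) (.ch (nat_lit 5)
 (.ev (nat_lit 4724) (nat_lit 8192) (.ev (nat_lit 4996) (nat_lit 64) (.ev (nat_lit 5005) (nat_lit 2048) .dd))))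
 (.ch (nat_lit 12) (.ev (nat_lit 6020) (nat_lit 2048) (.ev (nat_lit 6048) (nat_lit 8192) (.ev (nat_lit 6061)
 (nat_lit 64) .dd)))))))))))) (.br (nat_lit 7) (.br (nat_lit 6) (.ch (nat_lit 5) (.ev (nat_lit 1472) (nat_lit
 8256) (.ev (nat_lit 1492) (nat_lit 2048) (.ev (nat_lit 1501) (nat_lit 32768) .dd)))) (.ch (nat_lit 6) (.ev
 (nat_lit 1472) (nat_lit 34816) (.ev (nat_lit 5844) (nat_lit 64) (.ev (nat_lit 5853) (nat_lit 8192) .dd)))))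
 (.br (nat_lit 11) (.ch (nat_lit 7) (.ev (nat_lit 1472) (nat_lit 2048) (.nd (nat_lit 4304) (.br (nat_lit 4)
 (.ch (nat_lit 1) (.ev (nat_lit 4320) (nat_lit 32768) (.ev (nat_lit 4468) (nat_lit 8192) (.ev (nat_lit 4477)
 (nat_lit 64) .dd)))) (.br (nat_lit 11) (.ch (nat_lit 4) (.ev (nat_lit 4320) (nat_lit 64) (.fin (nat_lit
 576860425110897040)))) (.ch (nat_lit 11) (.ev (nat_lit 4320) (nat_lit 8192) (.ev (nat_lit 5584) (nat_lit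
 32768) (.ev (nat_lit 5597) (nat_lit 64) .dd))))))))) (.ch (nat_lit 11) (.ev (nat_lit 1472) (nat_lit 8256) (.ev
 (nat_lit 1876) (nat_lit 32768) (.ev (nat_lit 1885) (nat_lit 2048) .dd))))))))) (.ch (nat_lit 12) (.ev (nat_lit
 640) (nat_lit 32832) (.ev (nat_lit 852) (nat_lit 2048) (.ev (nat_lit 861) (nat_lit 8192) .dd))))))))))) (.ch
 (nat_lit 4) (.ev (nat_lit 112) (nat_lit 64) (.nd (nat_lit 784) (.br (nat_lit 8) (.br (nat_lit 2) (.br (nat_lit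
 1) (.ch (nat_lit 0) (.ev (nat_lit 800) (nat_lit 65536) (.ev (nat_lit 1044) (nat_lit 32768) (.nd (nat_lit 2128)
 (.br (nat_lit 5) (.br (nat_lit 2) (.ch (nat_lit 0) (.ev (nat_lit 2144) (nat_lit 2048) (.ev (nat_lit 2157)
 (nat_lit 8192) .dd))) (.br (nat_lit 4) (.ch (nat_lit 2) (.ev (nat_lit 2260) (nat_lit 8192) (.ev (nat_lit 2269)
 (nat_lit 2048) .dd))) (.ch (nat_lit 4) (.ev (nat_lit 2144) (nat_lit 8192) (.ev (nat_lit 2157) (nat_lit 2048)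
 .dd))))) (.br (nat_lit 9) (.br (nat_lit 8) (.ch (nat_lit 5) (.ev (nat_lit 2144) (nat_lit 2048) (.ev (nat_lit
 2157) (nat_lit 8192) .dd))) (.ch (nat_lit 8) (.ev (nat_lit 5924) (nat_lit 2048) (.ev (nat_lit 5933) (nat_lit
 8192) .dd)))) (.br (nat_lit 12) (.ch (nat_lit 9) (.ev (nat_lit 6020) (nat_lit 8192) (.ev (nat_lit 6029)
 (nat_lit 2048) .dd))) (.ch (nat_lit 12) (.ev (nat_lit 2144) (nat_lit 8192) (.ev (nat_lit 2157) (nat_lit 2048)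
 .dd)))))))))) (.ch (nat_lit 1) (.nd (nat_lit 2336) (.br (nat_lit 5) (.br (nat_lit 3) (.br (nat_lit 2) (.ch
 (nat_lit 1) (.ev (nat_lit 2352) (nat_lit 10240) (.ev (nat_lit 2676) (nat_lit 32768) (.ev (nat_lit 2685)
 (nat_lit 65536) .dd)))) (.ch (nat_lit 2) (.ev (nat_lit 2352) (nat_lit 8192) (.ev (nat_lit 3604) (nat_lit
 32768) (.ev (nat_lit 6596) (nat_lit 2048) (.ev (nat_lit 6605) (nat_lit 65536) .dd)))))) (.br (nat_lit 4) (.ch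
 (nat_lit 3) (.ev (nat_lit 2352) (nat_lit 75776) (.ev (nat_lit 2365) (nat_lit 32768) .dd))) (.ch (nat_lit 4)
 (.ev (nat_lit 2352) (nat_lit 67584) (.ev (nat_lit 3604) (nat_lit 8192) (.ev (nat_lit 3613) (nat_lit 32768)
 .dd)))))) (.br (nat_lit 7) (.br (nat_lit 6) (.ch (nat_lit 5) (.ev (nat_lit 2352) (nat_lit 98304) (.ev (nat_lit
 3140) (nat_lit 2048) (.ev (nat_lit 3149) (nat_lit 8192) .dd)))) (.ch (nat_lit 6) (.ev (nat_lit 2352) (nat_lit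
 32768) (.ev (nat_lit 2372) (nat_lit 65536) (.ev (nat_lit 3024) (nat_lit 8192) (.ev (nat_lit 3037) (nat_lit
 2048) .dd)))))) (.br (nat_lit 8) (.ch (nat_lit 7) (.ev (nat_lit 2352) (nat_lit 40960) (.ev (nat_lit 2820)
 (nat_lit 2048) (.ev (nat_lit 2829) (nat_lit 65536) .dd)))) (.br (nat_lit 12) (.ch (nat_lit 8) (.ev (nat_lit
 2352) (nat_lit 8192) (.ev (nat_lit 2372) (nat_lit 65536) (.ev (nat_lit 2676) (nat_lit 32768) (.ev (nat_lit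
 2685) (nat_lit 2048) .dd))))) (.ch (nat_lit 12) (.ev (nat_lit 2352) (nat_lit 10240) (.ev (nat_lit 2372)
 (nat_lit 65536) (.ev (nat_lit 2381) (nat_lit 32768) .dd))))))))))) (.br (nat_lit 6) (.ch (nat_lit 2) (.ev
 (nat_lit 800) (nat_lit 100352) (.ev (nat_lit 813) (nat_lit 8192) .dd))) (.ch (nat_lit 6) (.ev (nat_lit 800)
 (nat_lit 10240) (.nd (nat_lit 2336) (.br (nat_lit 8) (.br (nat_lit 5) (.ch (nat_lit 2) (.ev (nat_lit 2372)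
 (nat_lit 65536) (.ev (nat_lit 2381) (nat_lit 32768) .dd))) (.ch (nat_lit 5) (.ev (nat_lit 5844) (nat_lit
 32768) (.ev (nat_lit 5853) (nat_lit 65536) .dd)))) (.br (nat_lit 9) (.ch (nat_lit 8) (.ev (nat_lit 2352)
 (nat_lit 32768) (.ev (nat_lit 2365) (nat_lit 65536) .dd))) (.br (nat_lit 11) (.ch (nat_lit 9) (.ev (nat_lit
 2352) (nat_lit 32768) (.ev (nat_lit 2365) (nat_lit 65536) .dd))) (.ch (nat_lit 11) (.ev (nat_lit 2676)
 (nat_lit 32768) (.ev (nat_lit 2685) (nat_lit 65536) .dd))))))))))) (.br (nat_lit 11) (.br (nat_lit 9) (.ch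
 (nat_lit 8) (.ev (nat_lit 800) (nat_lit 65536) (.nd (nat_lit 2128) (.br (nat_lit 4) (.br (nat_lit 2) (.ch
 (nat_lit 0) (.ev (nat_lit 2144) (nat_lit 2048) (.ev (nat_lit 2372) (nat_lit 32768) (.ev (nat_lit 2381)
 (nat_lit 8192) .dd)))) (.br (nat_lit 3) (.ch (nat_lit 2) (.ev (nat_lit 2144) (nat_lit 8192) (.fin (nat_lit
 576462401572389436)))) (.ch (nat_lit 3) (.ev (nat_lit 6608) (nat_lit 8192) (.ev (nat_lit 6740) (nat_lit 32768)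
 (.ev (nat_lit 6749) (nat_lit 2048) .dd)))))) (.br (nat_lit 6) (.ch (nat_lit 4) (.ev (nat_lit 2144) (nat_lit
 32768) (.ev (nat_lit 3540) (nat_lit 8192) (.ev (nat_lit 3549) (nat_lit 2048) .dd)))) (.br (nat_lit 10) (.ch
 (nat_lit 6) (.ev (nat_lit 2676) (nat_lit 2048) (.ev (nat_lit 6900) (nat_lit 8192) (.ev (nat_lit 6909) (nat_lit
 32768) .dd)))) (.ch (nat_lit 10) (.ev (nat_lit 3652) (nat_lit 32768) (.ev (nat_lit 3764) (nat_lit 2048) (.ev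
 (nat_lit 3773) (nat_lit 8192) .dd)))))))))) (.ch (nat_lit 9) (.ev (nat_lit 1124) (nat_lit 2048) (.nd (nat_lit
 2336) (.br (nat_lit 6) (.br (nat_lit 3) (.br (nat_lit 1) (.ch (nat_lit 0) (.ev (nat_lit 2352) (nat_lit 8192)
 (.ev (nat_lit 2676) (nat_lit 32768) (.ev (nat_lit 2685) (nat_lit 65536) .dd)))) (.ch (nat_lit 1) (.ev (nat_lit
 2372) (nat_lit 73728) (.ev (nat_lit 2381) (nat_lit 32768) .dd)))) (.br (nat_lit 5) (.ch (nat_lit 3) (.ev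
 (nat_lit 2352) (nat_lit 8192) (.ev (nat_lit 2372) (nat_lit 65536) (.ev (nat_lit 2381) (nat_lit 32768) .dd))))
 (.ch (nat_lit 5) (.ev (nat_lit 2352) (nat_lit 32768) (.fin (nat_lit 576460202541793866)))))) (.br (nat_lit 8)
 (.br (nat_lit 7) (.ch (nat_lit 6) (.ev (nat_lit 2352) (nat_lit 32768) (.ev (nat_lit 2372) (nat_lit 8192) (.ev
 (nat_lit 2381) (nat_lit 65536) .dd)))) (.ch (nat_lit 7) (.ev (nat_lit 2352) (nat_lit 106496) .dd))) (.br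
 (nat_lit 11) (.ch (nat_lit 8) (.ev (nat_lit 2352) (nat_lit 40960) (.ev (nat_lit 2365) (nat_lit 65536) .dd)))
 (.br (nat_lit 12) (.ch (nat_lit 11) (.ev (nat_lit 2352) (nat_lit 65536) (.ev (nat_lit 2788) (nat_lit 8192)
 (.ev (nat_lit 2797) (nat_lit 32768) .dd)))) (.ch (nat_lit 12) (.ev (nat_lit 2352) (nat_lit 65536) (.ev
 (nat_lit 2676) (nat_lit 32768) (.ev (nat_lit 2685) (nat_lit 8192) .dd)))))))))))) (.br (nat_lit 12) (.ch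
 (nat_lit 11) (.nd (nat_lit 1456) (.br (nat_lit 9) (.br (nat_lit 2) (.ch (nat_lit 0) (.ev (nat_lit 3604)
 (nat_lit 2048) (.nd (nat_lit 4592) (.br (nat_lit 4) (.br (nat_lit 3) (.ch (nat_lit 1) (.ev (nat_lit 4608)
 (nat_lit 32768) (.nd (nat_lit 8272) (.ch (nat_lit 2) (.nd (nat_lit 9344) (.br (nat_lit 11) (.ch (nat_lit 0)
 (.fin (nat_lit 576389833885696770))) (.ch (nat_lit 11) (.ev (nat_lit 9360) (nat_lit 65536) (.ev (nat_lit 9373)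
 (nat_lit 8192) .dd))))))))) (.ch (nat_lit 3) (.ev (nat_lit 4608) (nat_lit 32768) (.ev (nat_lit 4644) (nat_lit
 8192) (.ev (nat_lit 4653) (nat_lit 65536) .dd))))) (.br (nat_lit 11) (.ch (nat_lit 4) (.ev (nat_lit 4644)
 (nat_lit 65536) (.ev (nat_lit 5492) (nat_lit 8192) (.ev (nat_lit 5501) (nat_lit 32768) .dd)))) (.br (nat_lit
 12) (.ch (nat_lit 11) (.ev (nat_lit 4644) (nat_lit 65536) (.ev (nat_lit 6596) (nat_lit 8192) (.ev (nat_lit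
 6605) (nat_lit 32768) .dd)))) (.ch (nat_lit 12) (.ev (nat_lit 4608) (nat_lit 98304) (.ev (nat_lit 4621)
 (nat_lit 8192) .dd))))))))) (.br (nat_lit 3) (.ch (nat_lit 2) (.ev (nat_lit 1472) (nat_lit 98304) (.ev
 (nat_lit 6596) (nat_lit 8192) (.ev (nat_lit 6605) (nat_lit 2048) .dd)))) (.ch (nat_lit 3) (.ev (nat_lit 4132)
 (nat_lit 2048) (.nd (nat_lit 4864) (.br (nat_lit 10) (.br (nat_lit 4) (.ch (nat_lit 1) (.ev (nat_lit 4880)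
 (nat_lit 73728) (.ev (nat_lit 4893) (nat_lit 32768) .dd))) (.br (nat_lit 8) (.ch (nat_lit 4) (.ev (nat_lit
 4932) (nat_lit 8192) (.ev (nat_lit 5140) (nat_lit 65536) (.ev (nat_lit 5149) (nat_lit 32768) .dd)))) (.ch
 (nat_lit 8) (.ev (nat_lit 6868) (nat_lit 32768) (.fin (nat_lit 576447008453640784)))))) (.br (nat_lit 11) (.ch
 (nat_lit 10) (.ev (nat_lit 4880) (nat_lit 65536) (.ev (nat_lit 4932) (nat_lit 8192) (.ev (nat_lit 4941)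
 (nat_lit 32768) .dd)))) (.br (nat_lit 12) (.ch (nat_lit 11) (.ev (nat_lit 4880) (nat_lit 98304) (.ev (nat_lit
 4893) (nat_lit 8192) .dd))) (.ch (nat_lit 12) (.ev (nat_lit 4880) (nat_lit 65536) (.ev (nat_lit 6868) (nat_lit
 32768) (.ev (nat_lit 6877) (nat_lit 8192) .dd)))))))))))) (.br (nat_lit 10) (.ch (nat_lit 9) (.ev (nat_lit
 1472) (nat_lit 40960) (.ev (nat_lit 3520) (nat_lit 67584) .dd))) (.br (nat_lit 11) (.ch (nat_lit 10) (.ev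
 (nat_lit 1472) (nat_lit 32768) (.ev (nat_lit 3908) (nat_lit 65536) (.ev (nat_lit 5876) (nat_lit 2048) (.ev
 (nat_lit 5885) (nat_lit 8192) .dd))))) (.ch (nat_lit 11) (.ev (nat_lit 1472) (nat_lit 98304) (.nd (nat_lit
 4864) (.br (nat_lit 8) (.ch (nat_lit 4) (.ev (nat_lit 7108) (nat_lit 8192) (.ev (nat_lit 7117) (nat_lit 2048)
 .dd))) (.br (nat_lit 9) (.ch (nat_lit 8) (.ev (nat_lit 6644) (nat_lit 8192) (.ev (nat_lit 6653) (nat_lit 2048)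
 .dd))) (.ch (nat_lit 9) (.ev (nat_lit 5008) (nat_lit 10240) .dd)))))))))))) (.ch (nat_lit 12) (.ev (nat_lit
 800) (nat_lit 40960) (.nd (nat_lit 2128) (.br (nat_lit 5) (.br (nat_lit 2) (.ch (nat_lit 0) (.ev (nat_lit
 2144) (nat_lit 65536) (.ev (nat_lit 2157) (nat_lit 2048) .dd))) (.br (nat_lit 3) (.ch (nat_lit 2) (.ev
 (nat_lit 3844) (nat_lit 65536) (.ev (nat_lit 3853) (nat_lit 2048) .dd))) (.ch (nat_lit 3) (.ev (nat_lit 2144)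
 (nat_lit 65536) (.ev (nat_lit 2157) (nat_lit 2048) .dd))))) (.br (nat_lit 6) (.ch (nat_lit 5) (.ev (nat_lit
 2144) (nat_lit 2048) (.ev (nat_lit 2157) (nat_lit 65536) .dd))) (.br (nat_lit 11) (.ch (nat_lit 6) (.ev
 (nat_lit 6704) (nat_lit 2048) (.ev (nat_lit 6717) (nat_lit 65536) .dd))) (.ch (nat_lit 11) (.ev (nat_lit 6020)
 (nat_lit 65536) (.ev (nat_lit 6029) (nat_lit 2048) .dd))))))))))))))))) (.br (nat_lit 10) (.br (nat_lit 9)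
 (.ch (nat_lit 8) (.ev (nat_lit 112) (nat_lit 32768) (.nd (nat_lit 576) (.br (nat_lit 6) (.br (nat_lit 4) (.br
 (nat_lit 3) (.ch (nat_lit 2) (.ev (nat_lit 592) (nat_lit 8192) (.nd (nat_lit 2624) (.br (nat_lit 5) (.br
 (nat_lit 3) (.ch (nat_lit 0) (.ev (nat_lit 2640) (nat_lit 65536) (.ev (nat_lit 2676) (nat_lit 2048) (.ev
 (nat_lit 2685) (nat_lit 64) .dd)))) (.br (nat_lit 4) (.ch (nat_lit 3) (.ev (nat_lit 2640) (nat_lit 2112) (.ev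
 (nat_lit 2653) (nat_lit 65536) .dd))) (.ch (nat_lit 4) (.ev (nat_lit 2676) (nat_lit 67584) (.ev (nat_lit 2685)
 (nat_lit 64) .dd))))) (.br (nat_lit 8) (.br (nat_lit 6) (.ch (nat_lit 5) (.ev (nat_lit 2640) (nat_lit 65536)
 (.ev (nat_lit 2676) (nat_lit 2048) (.ev (nat_lit 2685) (nat_lit 64) .dd)))) (.ch (nat_lit 6) (.ev (nat_lit
 2640) (nat_lit 65536) (.ev (nat_lit 2788) (nat_lit 2048) (.ev (nat_lit 2797) (nat_lit 64) .dd))))) (.br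
 (nat_lit 10) (.ch (nat_lit 8) (.ev (nat_lit 2640) (nat_lit 65600) (.ev (nat_lit 2653) (nat_lit 2048) .dd)))
 (.ch (nat_lit 10) (.ev (nat_lit 2676) (nat_lit 2048) (.ev (nat_lit 2688) (nat_lit 64) (.ev (nat_lit 2701)
 (nat_lit 65536) .dd)))))))))) (.ch (nat_lit 3) (.ev (nat_lit 592) (nat_lit 65600) (.nd (nat_lit 1744) (.br
 (nat_lit 11) (.br (nat_lit 8) (.ch (nat_lit 4) (.ev (nat_lit 6356) (nat_lit 8192) (.ev (nat_lit 6365) (nat_lit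
 2048) .dd))) (.ch (nat_lit 8) (.ev (nat_lit 6788) (nat_lit 8192) (.ev (nat_lit 6797) (nat_lit 2048) .dd))))
 (.br (nat_lit 12) (.ch (nat_lit 11) (.ev (nat_lit 3076) (nat_lit 8192) (.ev (nat_lit 3085) (nat_lit 2048)
 .dd))) (.ch (nat_lit 12) (.ev (nat_lit 1780) (nat_lit 2048) (.ev (nat_lit 1789) (nat_lit 8192) .dd)))))))))
 (.br (nat_lit 5) (.ch (nat_lit 4) (.ev (nat_lit 592) (nat_lit 67584) (.ev (nat_lit 660) (nat_lit 8192) (.ev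
 (nat_lit 669) (nat_lit 64) .dd)))) (.ch (nat_lit 5) (.ev (nat_lit 1140) (nat_lit 65536) (.ev (nat_lit 1300)
 (nat_lit 64) (.nd (nat_lit 1968) (.br (nat_lit 6) (.br (nat_lit 4) (.br (nat_lit 3) (.ch (nat_lit 2) (.ev
 (nat_lit 1984) (nat_lit 8192) (.ev (nat_lit 1997) (nat_lit 2048) .dd))) (.ch (nat_lit 3) (.ev (nat_lit 2004)
 (nat_lit 2048) (.ev (nat_lit 2013) (nat_lit 8192) .dd)))) (.br (nat_lit 5) (.ch (nat_lit 4) (.ev (nat_lit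
 1984) (nat_lit 2048) (.ev (nat_lit 1997) (nat_lit 8192) .dd))) (.ch (nat_lit 5) (.ev (nat_lit 2004) (nat_lit
 2048) (.ev (nat_lit 2013) (nat_lit 8192) .dd))))) (.br (nat_lit 9) (.br (nat_lit 8) (.ch (nat_lit 6) (.ev
 (nat_lit 1984) (nat_lit 2048) (.ev (nat_lit 1997) (nat_lit 8192) .dd))) (.ch (nat_lit 8) (.ev (nat_lit 1984)
 (nat_lit 8192) (.ev (nat_lit 1997) (nat_lit 2048) .dd)))) (.br (nat_lit 12) (.ch (nat_lit 9) (.ev (nat_lit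
 1984) (nat_lit 2048) (.ev (nat_lit 1997) (nat_lit 8192) .dd))) (.ch (nat_lit 12) (.ev (nat_lit 2004) (nat_lit
 8192) (.ev (nat_lit 2013) (nat_lit 2048) .dd)))))))))))) (.br (nat_lit 8) (.br (nat_lit 7) (.ch (nat_lit 6)
 (.ev (nat_lit 592) (nat_lit 2112) (.nd (nat_lit 1968) (.br (nat_lit 3) (.ch (nat_lit 1) (.ev (nat_lit 1984)
 (nat_lit 8192) (.ev (nat_lit 1997) (nat_lit 65536) .dd))) (.br (nat_lit 4) (.ch (nat_lit 3) (.ev (nat_lit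
 1984) (nat_lit 65536) (.ev (nat_lit 1997) (nat_lit 8192) .dd))) (.ch (nat_lit 4) (.ev (nat_lit 4052) (nat_lit
 65536) (.ev (nat_lit 4061) (nat_lit 8192) .dd)))))))) (.ch (nat_lit 7) (.ev (nat_lit 592) (nat_lit 8192) (.nd
 (nat_lit 2128) (.br (nat_lit 9) (.br (nat_lit 5) (.ch (nat_lit 3) (.ev (nat_lit 2144) (nat_lit 65536) (.ev
 (nat_lit 6596) (nat_lit 2048) (.ev (nat_lit 6605) (nat_lit 64) .dd)))) (.ch (nat_lit 5) (.ev (nat_lit 2144)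
 (nat_lit 2048) (.ev (nat_lit 2912) (nat_lit 65600) .dd)))) (.br (nat_lit 12) (.ch (nat_lit 9) (.ev (nat_lit
 3140) (nat_lit 65536) (.ev (nat_lit 3476) (nat_lit 64) (.ev (nat_lit 3485) (nat_lit 2048) .dd)))) (.ch
 (nat_lit 12) (.ev (nat_lit 2144) (nat_lit 65536) (.ev (nat_lit 3924) (nat_lit 2048) (.ev (nat_lit 3933)
 (nat_lit 64) .dd)))))))))) (.br (nat_lit 11) (.ch (nat_lit 8) (.ev (nat_lit 592) (nat_lit 64) (.nd (nat_lit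
 1968) (.br (nat_lit 6) (.br (nat_lit 5) (.ch (nat_lit 3) (.ev (nat_lit 1984) (nat_lit 2048) (.ev (nat_lit
 2820) (nat_lit 65536) (.ev (nat_lit 2829) (nat_lit 8192) .dd)))) (.ch (nat_lit 5) (.ev (nat_lit 2164) (nat_lit
 2048) (.ev (nat_lit 2388) (nat_lit 65536) (.ev (nat_lit 2397) (nat_lit 8192) .dd))))) (.br (nat_lit 9) (.ch
 (nat_lit 6) (.ev (nat_lit 1984) (nat_lit 8192) (.fin (nat_lit 576451406458208818)))) (.br (nat_lit 12) (.ch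
 (nat_lit 9) (.ev (nat_lit 1984) (nat_lit 65536) (.ev (nat_lit 2788) (nat_lit 2048) (.ev (nat_lit 2797)
 (nat_lit 8192) .dd)))) (.ch (nat_lit 12) (.ev (nat_lit 2164) (nat_lit 2048) (.ev (nat_lit 3140) (nat_lit
 65536) (.ev (nat_lit 3149) (nat_lit 8192) .dd)))))))))) (.br (nat_lit 12) (.ch (nat_lit 11) (.ev (nat_lit 592)
 (nat_lit 75776) (.ev (nat_lit 605) (nat_lit 64) .dd))) (.ch (nat_lit 12) (.ev (nat_lit 592) (nat_lit 65600)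
 (.nd (nat_lit 1968) (.br (nat_lit 4) (.ch (nat_lit 2) (.ev (nat_lit 2164) (nat_lit 2048) (.ev (nat_lit 2173)
 (nat_lit 8192) .dd))) (.br (nat_lit 8) (.ch (nat_lit 4) (.ev (nat_lit 2004) (nat_lit 8192) (.ev (nat_lit 2013)
 (nat_lit 2048) .dd))) (.ch (nat_lit 8) (.ev (nat_lit 3652) (nat_lit 2048) (.ev (nat_lit 3661) (nat_lit 8192)
 .dd))))))))))))))) (.ch (nat_lit 9) (.ev (nat_lit 112) (nat_lit 8192) (.nd (nat_lit 672) (.br (nat_lit 6) (.br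
 (nat_lit 1) (.ch (nat_lit 0) (.nd (nat_lit 1840) (.br (nat_lit 10) (.br (nat_lit 6) (.ch (nat_lit 1) (.ev
 (nat_lit 1856) (nat_lit 32768) (.ev (nat_lit 1876) (nat_lit 65536) (.ev (nat_lit 2164) (nat_lit 64) (.ev
 (nat_lit 2173) (nat_lit 2048) .dd))))) (.br (nat_lit 8) (.ch (nat_lit 6) (.ev (nat_lit 1856) (nat_lit 64) (.ev
 (nat_lit 1876) (nat_lit 65536) (.ev (nat_lit 2820) (nat_lit 32768) (.ev (nat_lit 2829) (nat_lit 2048) .dd)))))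
 (.ch (nat_lit 8) (.ev (nat_lit 1856) (nat_lit 2048) (.ev (nat_lit 2164) (nat_lit 64) (.ev (nat_lit 2452)
 (nat_lit 65536) (.ev (nat_lit 2461) (nat_lit 32768) .dd))))))) (.br (nat_lit 11) (.ch (nat_lit 10) (.ev
 (nat_lit 2164) (nat_lit 64) (.ev (nat_lit 2832) (nat_lit 32768) (.ev (nat_lit 5764) (nat_lit 65536) (.ev
 (nat_lit 5773) (nat_lit 2048) .dd))))) (.br (nat_lit 12) (.ch (nat_lit 11) (.ev (nat_lit 1856) (nat_lit 64)
 (.ev (nat_lit 2004) (nat_lit 2048) (.ev (nat_lit 6368) (nat_lit 98304) .dd)))) (.ch (nat_lit 12) (.ev (nat_lit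
 1856) (nat_lit 98304) (.ev (nat_lit 2820) (nat_lit 64) (.ev (nat_lit 2829) (nat_lit 2048) .dd))))))))) (.br
 (nat_lit 2) (.ch (nat_lit 1) (.ev (nat_lit 1124) (nat_lit 64) (.nd (nat_lit 1552) (.br (nat_lit 7) (.br
 (nat_lit 2) (.ch (nat_lit 0) (.ev (nat_lit 1568) (nat_lit 32768) (.ev (nat_lit 2004) (nat_lit 2048) (.ev
 (nat_lit 2013) (nat_lit 65536) .dd)))) (.br (nat_lit 6) (.ch (nat_lit 2) (.ev (nat_lit 1568) (nat_lit 67584)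
 (.ev (nat_lit 1581) (nat_lit 32768) .dd))) (.ch (nat_lit 6) (.ev (nat_lit 1568) (nat_lit 67584) (.ev (nat_lit
 1581) (nat_lit 32768) .dd))))) (.br (nat_lit 10) (.br (nat_lit 8) (.ch (nat_lit 7) (.nd (nat_lit 4592) (.br
 (nat_lit 7) (.br (nat_lit 4) (.ch (nat_lit 1) (.ev (nat_lit 4608) (nat_lit 2048) (.ev (nat_lit 4644) (nat_lit
 65536) (.ev (nat_lit 4653) (nat_lit 32768) .dd)))) (.ch (nat_lit 4) (.ev (nat_lit 4608) (nat_lit 2048) (.ev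
 (nat_lit 4644) (nat_lit 65536) (.ev (nat_lit 4653) (nat_lit 32768) .dd))))) (.br (nat_lit 9) (.ch (nat_lit 7)
 (.ev (nat_lit 4608) (nat_lit 32768) (.ev (nat_lit 6260) (nat_lit 65536) (.ev (nat_lit 6269) (nat_lit 2048)
 .dd)))) (.br (nat_lit 12) (.ch (nat_lit 9) (.ev (nat_lit 4608) (nat_lit 67584) (.ev (nat_lit 4621) (nat_lit
 32768) .dd))) (.ch (nat_lit 12) (.ev (nat_lit 4608) (nat_lit 32768) (.ev (nat_lit 6452) (nat_lit 65536) (.ev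
 (nat_lit 6461) (nat_lit 2048) .dd))))))))) (.ch (nat_lit 8) (.ev (nat_lit 2004) (nat_lit 2048) (.ev (nat_lit
 6596) (nat_lit 32768) (.ev (nat_lit 6605) (nat_lit 65536) .dd))))) (.br (nat_lit 12) (.ch (nat_lit 10) (.ev
 (nat_lit 1568) (nat_lit 65536) (.ev (nat_lit 5572) (nat_lit 2048) (.ev (nat_lit 5581) (nat_lit 32768) .dd))))
 (.ch (nat_lit 12) (.ev (nat_lit 1568) (nat_lit 65536) (.ev (nat_lit 1588) (nat_lit 32768) (.ev (nat_lit 1597)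
 (nat_lit 2048) .dd)))))))))) (.ch (nat_lit 2) (.ev (nat_lit 916) (nat_lit 2048) (.ev (nat_lit 1124) (nat_lit
 64) (.nd (nat_lit 1552) (.br (nat_lit 4) (.br (nat_lit 2) (.ch (nat_lit 1) (.ev (nat_lit 2036) (nat_lit 32768)
 (.ev (nat_lit 2045) (nat_lit 65536) .dd))) (.br (nat_lit 3) (.ch (nat_lit 2) (.ev (nat_lit 1568) (nat_lit
 32768) (.ev (nat_lit 1581) (nat_lit 65536) .dd))) (.ch (nat_lit 3) (.ev (nat_lit 2180) (nat_lit 65536) (.ev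
 (nat_lit 2189) (nat_lit 32768) .dd))))) (.br (nat_lit 11) (.ch (nat_lit 4) (.ev (nat_lit 3152) (nat_lit 32768)
 (.ev (nat_lit 3165) (nat_lit 65536) .dd))) (.br (nat_lit 12) (.ch (nat_lit 11) (.ev (nat_lit 6020) (nat_lit
 65536) (.ev (nat_lit 6029) (nat_lit 32768) .dd))) (.ch (nat_lit 12) (.ev (nat_lit 1588) (nat_lit 32768) (.ev
 (nat_lit 1597) (nat_lit 65536) .dd)))))))))))) (.br (nat_lit 9) (.br (nat_lit 7) (.ch (nat_lit 6) (.ev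
 (nat_lit 688) (nat_lit 2112) (.nd (nat_lit 1840) (.br (nat_lit 8) (.br (nat_lit 4) (.ch (nat_lit 0) (.ev
 (nat_lit 2212) (nat_lit 65536) (.ev (nat_lit 2221) (nat_lit 32768) .dd))) (.ch (nat_lit 4) (.ev (nat_lit 3652)
 (nat_lit 65536) (.ev (nat_lit 3661) (nat_lit 32768) .dd)))) (.br (nat_lit 10) (.ch (nat_lit 8) (.ev (nat_lit
 2068) (nat_lit 65536) (.ev (nat_lit 2077) (nat_lit 32768) .dd))) (.ch (nat_lit 10) (.ev (nat_lit 6260)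
 (nat_lit 65536) (.ev (nat_lit 6269) (nat_lit 32768) .dd)))))))) (.ch (nat_lit 7) (.ev (nat_lit 688) (nat_lit
 34816) (.nd (nat_lit 2624) (.br (nat_lit 2) (.ch (nat_lit 1) (.ev (nat_lit 2676) (nat_lit 64) (.ev (nat_lit
 2685) (nat_lit 65536) .dd))) (.br (nat_lit 3) (.ch (nat_lit 2) (.ev (nat_lit 2676) (nat_lit 65536) (.ev
 (nat_lit 2685) (nat_lit 64) .dd))) (.ch (nat_lit 3) (.ev (nat_lit 3440) (nat_lit 65600) .dd)))))))) (.br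
 (nat_lit 11) (.ch (nat_lit 9) (.ev (nat_lit 688) (nat_lit 2112) (.nd (nat_lit 1648) (.br (nat_lit 3) (.ch
 (nat_lit 0) (.ev (nat_lit 5540) (nat_lit 65536) (.ev (nat_lit 5549) (nat_lit 32768) .dd))) (.br (nat_lit 6)
 (.ch (nat_lit 3) (.ev (nat_lit 6148) (nat_lit 65536) (.ev (nat_lit 6157) (nat_lit 32768) .dd))) (.ch (nat_lit
 6) (.ev (nat_lit 2196) (nat_lit 65536) (.ev (nat_lit 2205) (nat_lit 32768) .dd)))))))) (.ch (nat_lit 11) (.ev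
 (nat_lit 688) (nat_lit 98304) (.nd (nat_lit 2624) (.br (nat_lit 4) (.ch (nat_lit 0) (.ev (nat_lit 3476)
 (nat_lit 64) (.ev (nat_lit 3485) (nat_lit 2048) .dd))) (.ch (nat_lit 4) (.ev (nat_lit 3540) (nat_lit 64) (.ev
 (nat_lit 3549) (nat_lit 2048) .dd)))))))))))))) (.br (nat_lit 11) (.ch (nat_lit 10) (.ev (nat_lit 112)
 (nat_lit 43008) (.nd (nat_lit 944) (.br (nat_lit 7) (.br (nat_lit 5) (.ch (nat_lit 3) (.ev (nat_lit 3812)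
 (nat_lit 64) (.ev (nat_lit 3821) (nat_lit 65536) .dd))) (.br (nat_lit 6) (.ch (nat_lit 5) (.ev (nat_lit 960)
 (nat_lit 65536) (.ev (nat_lit 973) (nat_lit 64) .dd))) (.ch (nat_lit 6) (.nd (nat_lit 3984) (.br (nat_lit 4)
 (.ch (nat_lit 2) (.fin (nat_lit 576470098179998291))) (.ch (nat_lit 4) (.ev (nat_lit 4000) (nat_lit 64) (.ev
 (nat_lit 4013) (nat_lit 65536) .dd)))))))) (.br (nat_lit 11) (.br (nat_lit 8) (.ch (nat_lit 7) (.ev (nat_lit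
 960) (nat_lit 64) (.ev (nat_lit 973) (nat_lit 65536) .dd))) (.ch (nat_lit 8) (.ev (nat_lit 960) (nat_lit
 65536) (.ev (nat_lit 973) (nat_lit 64) .dd)))) (.br (nat_lit 12) (.ch (nat_lit 11) (.ev (nat_lit 980) (nat_lit
 64) (.ev (nat_lit 989) (nat_lit 65536) .dd))) (.ch (nat_lit 12) (.nd (nat_lit 3408) (.br (nat_lit 3) (.ch
 (nat_lit 1) (.ev (nat_lit 3476) (nat_lit 65536) (.ev (nat_lit 3485) (nat_lit 64) .dd))) (.br (nat_lit 11) (.ch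
 (nat_lit 3) (.ev (nat_lit 3700) (nat_lit 64) (.ev (nat_lit 3709) (nat_lit 65536) .dd))) (.ch (nat_lit 11) (.ev
 (nat_lit 3476) (nat_lit 65536) (.ev (nat_lit 3485) (nat_lit 64) .dd))))))))))))) (.br (nat_lit 12) (.ch
 (nat_lit 11) (.ev (nat_lit 112) (nat_lit 98368) (.nd (nat_lit 1008) (.br (nat_lit 5) (.ch (nat_lit 2) (.nd
 (nat_lit 2128) (.br (nat_lit 8) (.br (nat_lit 4) (.ch (nat_lit 0) (.ev (nat_lit 7108) (nat_lit 2048) (.ev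
 (nat_lit 7117) (nat_lit 8192) .dd))) (.ch (nat_lit 4) (.ev (nat_lit 6740) (nat_lit 2048) (.ev (nat_lit 6749)
 (nat_lit 8192) .dd)))) (.br (nat_lit 10) (.ch (nat_lit 8) (.ev (nat_lit 2164) (nat_lit 2048) (.ev (nat_lit
 2173) (nat_lit 8192) .dd))) (.br (nat_lit 11) (.ch (nat_lit 10) (.ev (nat_lit 5444) (nat_lit 2048) (.ev
 (nat_lit 5453) (nat_lit 8192) .dd))) (.ch (nat_lit 11) (.ev (nat_lit 2788) (nat_lit 2048) (.ev (nat_lit 2797)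
 (nat_lit 8192) .dd)))))))) (.br (nat_lit 8) (.ch (nat_lit 5) (.nd (nat_lit 1968) (.br (nat_lit 8) (.br
 (nat_lit 5) (.ch (nat_lit 1) (.ev (nat_lit 6692) (nat_lit 8192) (.ev (nat_lit 6701) (nat_lit 2048) .dd))) (.ch
 (nat_lit 5) (.ev (nat_lit 2948) (nat_lit 2048) (.ev (nat_lit 2957) (nat_lit 8192) .dd)))) (.br (nat_lit 11)
 (.ch (nat_lit 8) (.ev (nat_lit 5188) (nat_lit 8192) (.ev (nat_lit 5197) (nat_lit 2048) .dd))) (.ch (nat_lit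
 11) (.ev (nat_lit 3924) (nat_lit 8192) (.ev (nat_lit 3933) (nat_lit 2048) .dd))))))) (.ch (nat_lit 8) (.nd
 (nat_lit 2336) (.br (nat_lit 8) (.br (nat_lit 2) (.ch (nat_lit 1) (.ev (nat_lit 2372) (nat_lit 2048) (.ev
 (nat_lit 2381) (nat_lit 8192) .dd))) (.ch (nat_lit 2) (.ev (nat_lit 2372) (nat_lit 8192) (.ev (nat_lit 2381)
 (nat_lit 2048) .dd)))) (.br (nat_lit 9) (.ch (nat_lit 8) (.ev (nat_lit 2372) (nat_lit 8192) (.ev (nat_lit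
 2381) (nat_lit 2048) .dd))) (.ch (nat_lit 9) (.ev (nat_lit 3956) (nat_lit 8192) (.ev (nat_lit 3965) (nat_lit
 2048) .dd)))))))))))) (.ch (nat_lit 12) (.ev (nat_lit 112) (nat_lit 100352) (.nd (nat_lit 1168) (.br (nat_lit
 3) (.br (nat_lit 2) (.ch (nat_lit 0) (.nd (nat_lit 3984) (.ch (nat_lit 0) (.ev (nat_lit 6260) (nat_lit 64)
 (.ev (nat_lit 6269) (nat_lit 8192) .dd))))) (.ch (nat_lit 2) (.ev (nat_lit 1204) (nat_lit 8192) (.ev (nat_lit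
 1213) (nat_lit 64) .dd)))) (.br (nat_lit 11) (.ch (nat_lit 3) (.nd (nat_lit 3408) (.br (nat_lit 8) (.ch
 (nat_lit 6) (.ev (nat_lit 3476) (nat_lit 64) (.ev (nat_lit 3485) (nat_lit 8192) .dd))) (.ch (nat_lit 8) (.ev
 (nat_lit 6148) (nat_lit 64) (.ev (nat_lit 6157) (nat_lit 8192) .dd)))))) (.ch (nat_lit 11) (.ev (nat_lit 3476)
 (nat_lit 8192) (.ev (nat_lit 3485) (nat_lit 64) .dd))))))))))))))) (.ch (nat_lit 6) (.ev (nat_lit 48) (nat_lit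
 100352) (.nd (nat_lit 480) (.br (nat_lit 7) (.br (nat_lit 4) (.br (nat_lit 3) (.ch (nat_lit 1) (.ev (nat_lit
 496) (nat_lit 132096) (.nd (nat_lit 1088) (.br (nat_lit 7) (.br (nat_lit 5) (.br (nat_lit 1) (.ch (nat_lit 0)
 (.ev (nat_lit 1104) (nat_lit 320) (.ev (nat_lit 1300) (nat_lit 2) (.ev (nat_lit 1309) (nat_lit 8192) .dd))))
 (.ch (nat_lit 1) (.ev (nat_lit 1204) (nat_lit 64) (.nd (nat_lit 1744) (.br (nat_lit 9) (.br (nat_lit 5) (.br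
 (nat_lit 2) (.ch (nat_lit 1) (.ev (nat_lit 1760) (nat_lit 2) (.nd (nat_lit 4864) (.br (nat_lit 5) (.ch
 (nat_lit 1) (.ev (nat_lit 6868) (nat_lit 8192) (.ev (nat_lit 6877) (nat_lit 256) .dd))) (.ch (nat_lit 5) (.ev
 (nat_lit 5044) (nat_lit 8192) (.ev (nat_lit 5053) (nat_lit 256) .dd))))))) (.ch (nat_lit 2) (.ev (nat_lit
 1760) (nat_lit 256) (.ev (nat_lit 4084) (nat_lit 2) (.ev (nat_lit 4093) (nat_lit 8192) .dd))))) (.br (nat_lit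
 6) (.ch (nat_lit 5) (.ev (nat_lit 1760) (nat_lit 2) (.ev (nat_lit 6452) (nat_lit 256) (.ev (nat_lit 6461)
 (nat_lit 8192) .dd)))) (.ch (nat_lit 6) (.ev (nat_lit 1760) (nat_lit 8448) (.ev (nat_lit 1773) (nat_lit 2)
 .dd))))) (.br (nat_lit 11) (.br (nat_lit 10) (.ch (nat_lit 9) (.ev (nat_lit 1760) (nat_lit 2) (.ev (nat_lit
 2180) (nat_lit 256) (.ev (nat_lit 2189) (nat_lit 8192) .dd)))) (.ch (nat_lit 10) (.ev (nat_lit 1760) (nat_lit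
 256) (.ev (nat_lit 4020) (nat_lit 2) (.ev (nat_lit 4029) (nat_lit 8192) .dd))))) (.br (nat_lit 12) (.ch
 (nat_lit 11) (.ev (nat_lit 1760) (nat_lit 8194) (.ev (nat_lit 1773) (nat_lit 256) .dd))) (.ch (nat_lit 12)
 (.ev (nat_lit 4020) (nat_lit 2) (.ev (nat_lit 5188) (nat_lit 256) (.ev (nat_lit 5197) (nat_lit 8192)
 .dd))))))))))) (.br (nat_lit 6) (.ch (nat_lit 5) (.ev (nat_lit 1104) (nat_lit 2) (.ev (nat_lit 1220) (nat_lit
 64) (.nd (nat_lit 2128) (.br (nat_lit 9) (.br (nat_lit 1) (.ch (nat_lit 0) (.ev (nat_lit 3488) (nat_lit 8448)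
 .dd)) (.ch (nat_lit 1) (.ev (nat_lit 3476) (nat_lit 256) (.ev (nat_lit 3485) (nat_lit 8192) .dd)))) (.br
 (nat_lit 10) (.ch (nat_lit 9) (.ev (nat_lit 3700) (nat_lit 256) (.ev (nat_lit 3709) (nat_lit 8192) .dd))) (.br
 (nat_lit 11) (.ch (nat_lit 10) (.ev (nat_lit 2144) (nat_lit 256) (.ev (nat_lit 2157) (nat_lit 8192) .dd)))
 (.ch (nat_lit 11) (.ev (nat_lit 3700) (nat_lit 256) (.ev (nat_lit 3709) (nat_lit 8192) .dd)))))))))) (.ch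
 (nat_lit 6) (.ev (nat_lit 1300) (nat_lit 2) (.nd (nat_lit 2128) (.br (nat_lit 9) (.br (nat_lit 5) (.ch
 (nat_lit 4) (.ev (nat_lit 2144) (nat_lit 256) (.ev (nat_lit 2372) (nat_lit 64) (.ev (nat_lit 2381) (nat_lit
 8192) .dd)))) (.br (nat_lit 7) (.ch (nat_lit 5) (.ev (nat_lit 2164) (nat_lit 8192) (.ev (nat_lit 2740)
 (nat_lit 256) (.ev (nat_lit 2749) (nat_lit 64) .dd)))) (.ch (nat_lit 7) (.ev (nat_lit 3076) (nat_lit 64) (.fin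
 (nat_lit 576432714595910495)))))) (.br (nat_lit 10) (.ch (nat_lit 9) (.ev (nat_lit 2372) (nat_lit 64) (.nd
 (nat_lit 7232) (.ch (nat_lit 4) (.nd (nat_lit 8928) (.br (nat_lit 8) (.ch (nat_lit 7) (.fin (nat_lit
 576512979179619138))) (.ch (nat_lit 8) (.ev (nat_lit 8944) (nat_lit 256) (.ev (nat_lit 8957) (nat_lit 8192)
 .dd))))))))) (.br (nat_lit 11) (.ch (nat_lit 10) (.ev (nat_lit 2164) (nat_lit 256) (.ev (nat_lit 6260)
 (nat_lit 64) (.ev (nat_lit 6269) (nat_lit 8192) .dd)))) (.ch (nat_lit 11) (.ev (nat_lit 2144) (nat_lit 8256)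
 (.ev (nat_lit 2157) (nat_lit 256) .dd))))))))))) (.br (nat_lit 10) (.br (nat_lit 9) (.ch (nat_lit 7) (.ev
 (nat_lit 1104) (nat_lit 66) (.nd (nat_lit 2336) (.br (nat_lit 4) (.br (nat_lit 2) (.ch (nat_lit 1) (.ev
 (nat_lit 2388) (nat_lit 256) (.ev (nat_lit 2397) (nat_lit 8192) .dd))) (.ch (nat_lit 2) (.ev (nat_lit 2788)
 (nat_lit 256) (.ev (nat_lit 2797) (nat_lit 8192) .dd)))) (.br (nat_lit 6) (.ch (nat_lit 4) (.nd (nat_lit 4304)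
 (.br (nat_lit 4) (.br (nat_lit 2) (.ch (nat_lit 1) (.ev (nat_lit 5236) (nat_lit 8192) (.ev (nat_lit 5245)
 (nat_lit 256) .dd))) (.ch (nat_lit 2) (.ev (nat_lit 5044) (nat_lit 8192) (.ev (nat_lit 5053) (nat_lit 256)
 .dd)))) (.br (nat_lit 6) (.ch (nat_lit 4) (.ev (nat_lit 5824) (nat_lit 8448) .dd)) (.br (nat_lit 7) (.ch
 (nat_lit 6) (.ev (nat_lit 6868) (nat_lit 8192) (.ev (nat_lit 6877) (nat_lit 256) .dd))) (.ch (nat_lit 7) (.ev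
 (nat_lit 4644) (nat_lit 8192) (.ev (nat_lit 4653) (nat_lit 256) .dd)))))))) (.ch (nat_lit 6) (.ev (nat_lit
 2372) (nat_lit 8192) (.ev (nat_lit 2381) (nat_lit 256) .dd)))))))) (.ch (nat_lit 9) (.ev (nat_lit 1104)
 (nat_lit 8448) (.nd (nat_lit 3984) (.br (nat_lit 12) (.ch (nat_lit 3) (.ev (nat_lit 4052) (nat_lit 64) (.ev
 (nat_lit 4061) (nat_lit 2) .dd))) (.ch (nat_lit 12) (.ev (nat_lit 4020) (nat_lit 2) (.ev (nat_lit 4029)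
 (nat_lit 64) .dd)))))))) (.br (nat_lit 11) (.ch (nat_lit 10) (.ev (nat_lit 1104) (nat_lit 8256) (.nd (nat_lit
 3984) (.br (nat_lit 4) (.ch (nat_lit 2) (.ev (nat_lit 4020) (nat_lit 2) (.ev (nat_lit 4029) (nat_lit 256)
 .dd))) (.br (nat_lit 12) (.ch (nat_lit 4) (.fin (nat_lit 576470098135958070))) (.ch (nat_lit 12) (.ev (nat_lit
 4020) (nat_lit 2) (.ev (nat_lit 4029) (nat_lit 256) .dd)))))))) (.br (nat_lit 12) (.ch (nat_lit 11) (.ev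
 (nat_lit 1104) (nat_lit 66) (.nd (nat_lit 2336) (.br (nat_lit 5) (.ch (nat_lit 2) (.ev (nat_lit 4996) (nat_lit
 8192) (.ev (nat_lit 5005) (nat_lit 256) .dd))) (.br (nat_lit 8) (.ch (nat_lit 5) (.ev (nat_lit 6416) (nat_lit
 8448) .dd)) (.ch (nat_lit 8) (.ev (nat_lit 6692) (nat_lit 8192) (.ev (nat_lit 6701) (nat_lit 256) .dd))))))))
 (.ch (nat_lit 12) (.ev (nat_lit 1104) (nat_lit 8448) (.ev (nat_lit 1300) (nat_lit 2) (.ev (nat_lit 1309)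
 (nat_lit 64) .dd))))))))))) (.ch (nat_lit 3) (.ev (nat_lit 496) (nat_lit 8192) (.nd (nat_lit 944) (.br
 (nat_lit 5) (.br (nat_lit 2) (.br (nat_lit 1) (.ch (nat_lit 0) (.ev (nat_lit 960) (nat_lit 132160) (.nd
 (nat_lit 2128) (.br (nat_lit 6) (.br (nat_lit 4) (.br (nat_lit 2) (.ch (nat_lit 1) (.ev (nat_lit 2144)
 (nat_lit 2) (.ev (nat_lit 2157) (nat_lit 256) .dd))) (.ch (nat_lit 2) (.ev (nat_lit 2144) (nat_lit 2) (.ev
 (nat_lit 2157) (nat_lit 256) .dd)))) (.br (nat_lit 5) (.ch (nat_lit 4) (.ev (nat_lit 2144) (nat_lit 2) (.ev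
 (nat_lit 2157) (nat_lit 256) .dd))) (.ch (nat_lit 5) (.ev (nat_lit 2144) (nat_lit 258) .dd)))) (.br (nat_lit
 10) (.br (nat_lit 8) (.ch (nat_lit 6) (.ev (nat_lit 2144) (nat_lit 2) (.ev (nat_lit 2157) (nat_lit 256) .dd)))
 (.ch (nat_lit 8) (.ev (nat_lit 2180) (nat_lit 2) (.ev (nat_lit 2189) (nat_lit 256) .dd)))) (.br (nat_lit 12)
 (.ch (nat_lit 10) (.ev (nat_lit 2144) (nat_lit 256) (.ev (nat_lit 2157) (nat_lit 2) .dd))) (.ch (nat_lit 12)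
 (.ev (nat_lit 6740) (nat_lit 2) (.ev (nat_lit 6749) (nat_lit 256) .dd))))))))) (.ch (nat_lit 1) (.ev (nat_lit
 960) (nat_lit 131394) (.ev (nat_lit 973) (nat_lit 1024) .dd)))) (.br (nat_lit 3) (.ch (nat_lit 2) (.ev
 (nat_lit 960) (nat_lit 1344) (.ev (nat_lit 1332) (nat_lit 131072) (.ev (nat_lit 1341) (nat_lit 2) .dd)))) (.ch
 (nat_lit 3) (.ev (nat_lit 960) (nat_lit 256) (.nd (nat_lit 1648) (.br (nat_lit 6) (.br (nat_lit 3) (.br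
 (nat_lit 1) (.ch (nat_lit 0) (.ev (nat_lit 1664) (nat_lit 131072) (.nd (nat_lit 4304) (.br (nat_lit 10) (.br
 (nat_lit 6) (.ch (nat_lit 1) (.ev (nat_lit 4320) (nat_lit 64) (.ev (nat_lit 4468) (nat_lit 2) (.ev (nat_lit
 4477) (nat_lit 1024) .dd)))) (.br (nat_lit 9) (.ch (nat_lit 6) (.ev (nat_lit 4320) (nat_lit 2) (.ev (nat_lit
 4692) (nat_lit 64) (.ev (nat_lit 4701) (nat_lit 1024) .dd)))) (.ch (nat_lit 9) (.ev (nat_lit 4320) (nat_lit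
 1024) (.fin (nat_lit 576429416129184268)))))) (.br (nat_lit 11) (.ch (nat_lit 10) (.ev (nat_lit 4320) (nat_lit
 1024) (.ev (nat_lit 6452) (nat_lit 64) (.ev (nat_lit 6461) (nat_lit 2) .dd)))) (.br (nat_lit 12) (.ch (nat_lit
 11) (.ev (nat_lit 4692) (nat_lit 64) (.ev (nat_lit 5392) (nat_lit 1026) .dd))) (.ch (nat_lit 12) (.ev (nat_lit
 4320) (nat_lit 1090) .dd)))))))) (.ch (nat_lit 1) (.ev (nat_lit 1664) (nat_lit 132096) (.nd (nat_lit 4304)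
 (.br (nat_lit 5) (.ch (nat_lit 3) (.ev (nat_lit 5924) (nat_lit 64) (.ev (nat_lit 5933) (nat_lit 2) .dd))) (.ch
 (nat_lit 5) (.ev (nat_lit 4692) (nat_lit 64) (.ev (nat_lit 4701) (nat_lit 2) .dd)))))))) (.br (nat_lit 5) (.ch
 (nat_lit 3) (.ev (nat_lit 1664) (nat_lit 66) (.nd (nat_lit 4592) (.br (nat_lit 2) (.ch (nat_lit 0) (.ev
 (nat_lit 4608) (nat_lit 1024) (.ev (nat_lit 4621) (nat_lit 131072) .dd))) (.br (nat_lit 5) (.ch (nat_lit 2)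
 (.ev (nat_lit 6272) (nat_lit 132096) .dd)) (.ch (nat_lit 5) (.ev (nat_lit 6644) (nat_lit 1024) (.ev (nat_lit
 6653) (nat_lit 131072) .dd)))))))) (.ch (nat_lit 5) (.ev (nat_lit 1664) (nat_lit 132096) (.nd (nat_lit 4592)
 (.br (nat_lit 9) (.br (nat_lit 7) (.ch (nat_lit 6) (.ev (nat_lit 5008) (nat_lit 66) .dd)) (.ch (nat_lit 7)
 (.ev (nat_lit 4608) (nat_lit 64) (.ev (nat_lit 4621) (nat_lit 2) .dd)))) (.br (nat_lit 12) (.ch (nat_lit 9)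
 (.ev (nat_lit 6596) (nat_lit 2) (.ev (nat_lit 6605) (nat_lit 64) .dd))) (.ch (nat_lit 12) (.ev (nat_lit 4932)
 (nat_lit 2) (.ev (nat_lit 4941) (nat_lit 64) .dd)))))))))) (.br (nat_lit 10) (.br (nat_lit 8) (.ch (nat_lit 6)
 (.ev (nat_lit 1664) (nat_lit 66) (.nd (nat_lit 4416) (.br (nat_lit 10) (.ch (nat_lit 7) (.ev (nat_lit 4432)
 (nat_lit 131072) (.ev (nat_lit 4445) (nat_lit 1024) .dd))) (.br (nat_lit 12) (.ch (nat_lit 10) (.ev (nat_lit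
 4932) (nat_lit 1024) (.ev (nat_lit 4941) (nat_lit 131072) .dd))) (.ch (nat_lit 12) (.ev (nat_lit 4432)
 (nat_lit 132096) .dd))))))) (.ch (nat_lit 8) (.ev (nat_lit 1664) (nat_lit 132096) (.nd (nat_lit 4304) (.br
 (nat_lit 10) (.br (nat_lit 9) (.ch (nat_lit 1) (.ev (nat_lit 4320) (nat_lit 64) (.ev (nat_lit 4333) (nat_lit
 2) .dd))) (.ch (nat_lit 9) (.ev (nat_lit 4960) (nat_lit 64) (.ev (nat_lit 4973) (nat_lit 2) .dd)))) (.br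
 (nat_lit 12) (.ch (nat_lit 10) (.ev (nat_lit 5668) (nat_lit 64) (.ev (nat_lit 5677) (nat_lit 2) .dd))) (.ch
 (nat_lit 12) (.ev (nat_lit 6900) (nat_lit 64) (.ev (nat_lit 6909) (nat_lit 2) .dd))))))))) (.br (nat_lit 11)
 (.ch (nat_lit 10) (.ev (nat_lit 1664) (nat_lit 131136) (.ev (nat_lit 3252) (nat_lit 2) (.ev (nat_lit 3261)
 (nat_lit 1024) .dd)))) (.br (nat_lit 12) (.ch (nat_lit 11) (.ev (nat_lit 1664) (nat_lit 2) (.nd (nat_lit 4224)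
 (.br (nat_lit 6) (.ch (nat_lit 1) (.ev (nat_lit 4240) (nat_lit 131072) (.ev (nat_lit 4944) (nat_lit 1088)
 .dd))) (.br (nat_lit 11) (.ch (nat_lit 6) (.ev (nat_lit 4240) (nat_lit 1024) (.ev (nat_lit 6452) (nat_lit
 131072) (.ev (nat_lit 6461) (nat_lit 64) .dd)))) (.ch (nat_lit 11) (.ev (nat_lit 4240) (nat_lit 64) (.ev
 (nat_lit 6356) (nat_lit 1024) (.ev (nat_lit 6365) (nat_lit 131072) .dd))))))))) (.ch (nat_lit 12) (.ev
 (nat_lit 1664) (nat_lit 131072) (.nd (nat_lit 4304) (.br (nat_lit 3) (.br (nat_lit 1) (.ch (nat_lit 0) (.ev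
 (nat_lit 4320) (nat_lit 1088) (.ev (nat_lit 4333) (nat_lit 2) .dd))) (.br (nat_lit 2) (.ch (nat_lit 1) (.ev
 (nat_lit 4320) (nat_lit 64) (.ev (nat_lit 5716) (nat_lit 1024) (.ev (nat_lit 5725) (nat_lit 2) .dd)))) (.ch
 (nat_lit 2) (.ev (nat_lit 4320) (nat_lit 1088) (.ev (nat_lit 4333) (nat_lit 2) .dd))))) (.br (nat_lit 8) (.br
 (nat_lit 7) (.ch (nat_lit 3) (.ev (nat_lit 4320) (nat_lit 66) (.ev (nat_lit 4333) (nat_lit 1024) .dd))) (.ch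
 (nat_lit 7) (.ev (nat_lit 4320) (nat_lit 66) (.ev (nat_lit 4333) (nat_lit 1024) .dd)))) (.br (nat_lit 11) (.ch
 (nat_lit 8) (.ev (nat_lit 4320) (nat_lit 1024) (.ev (nat_lit 6644) (nat_lit 64) (.ev (nat_lit 6653) (nat_lit
 2) .dd)))) (.ch (nat_lit 11) (.ev (nat_lit 4320) (nat_lit 64) (.ev (nat_lit 4932) (nat_lit 1024) (.ev (nat_lit
 4941) (nat_lit 2) .dd))))))))))))))))))) (.br (nat_lit 7) (.br (nat_lit 6) (.ch (nat_lit 5) (.ev (nat_lit 960)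
 (nat_lit 256) (.nd (nat_lit 1648) (.br (nat_lit 8) (.br (nat_lit 5) (.br (nat_lit 1) (.ch (nat_lit 0) (.ev
 (nat_lit 4292) (nat_lit 2) (.nd (nat_lit 4592) (.br (nat_lit 2) (.br (nat_lit 1) (.ch (nat_lit 0) (.ev
 (nat_lit 4608) (nat_lit 64) (.ev (nat_lit 6800) (nat_lit 131072) (.ev (nat_lit 6813) (nat_lit 1024) .dd))))
 (.ch (nat_lit 1) (.ev (nat_lit 4608) (nat_lit 1024) (.ev (nat_lit 5776) (nat_lit 131072) (.ev (nat_lit 5789)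
 (nat_lit 64) .dd))))) (.br (nat_lit 6) (.ch (nat_lit 2) (.ev (nat_lit 4608) (nat_lit 64) (.ev (nat_lit 5008)
 (nat_lit 131072) (.ev (nat_lit 5021) (nat_lit 1024) .dd)))) (.br (nat_lit 9) (.ch (nat_lit 6) (.ev (nat_lit
 4608) (nat_lit 1088) (.ev (nat_lit 4621) (nat_lit 131072) .dd))) (.ch (nat_lit 9) (.ev (nat_lit 4608) (nat_lit
 1024) (.ev (nat_lit 5200) (nat_lit 131072) (.ev (nat_lit 5213) (nat_lit 64) .dd)))))))))) (.ch (nat_lit 1)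
 (.ev (nat_lit 1664) (nat_lit 64) (.ev (nat_lit 2820) (nat_lit 131072) (.nd (nat_lit 4592) (.br (nat_lit 8)
 (.br (nat_lit 1) (.ch (nat_lit 0) (.ev (nat_lit 4608) (nat_lit 1026) .dd)) (.br (nat_lit 2) (.ch (nat_lit 1)
 (.ev (nat_lit 4608) (nat_lit 2) (.ev (nat_lit 4621) (nat_lit 1024) .dd))) (.ch (nat_lit 2) (.ev (nat_lit 4608)
 (nat_lit 2) (.ev (nat_lit 4621) (nat_lit 1024) .dd))))) (.br (nat_lit 9) (.ch (nat_lit 8) (.ev (nat_lit 4692)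
 (nat_lit 1024) (.ev (nat_lit 4701) (nat_lit 2) .dd))) (.br (nat_lit 12) (.ch (nat_lit 9) (.ev (nat_lit 4608)
 (nat_lit 2) (.ev (nat_lit 4621) (nat_lit 1024) .dd))) (.ch (nat_lit 12) (.ev (nat_lit 6160) (nat_lit 1026)
 .dd)))))))))) (.br (nat_lit 7) (.ch (nat_lit 5) (.ev (nat_lit 1664) (nat_lit 132098) (.ev (nat_lit 1677)
 (nat_lit 64) .dd))) (.ch (nat_lit 7) (.ev (nat_lit 1664) (nat_lit 132098) (.ev (nat_lit 1677) (nat_lit 64)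
 .dd))))) (.br (nat_lit 11) (.br (nat_lit 9) (.ch (nat_lit 8) (.ev (nat_lit 1664) (nat_lit 1024) (.ev (nat_lit
 2420) (nat_lit 131072) (.nd (nat_lit 4864) (.br (nat_lit 4) (.br (nat_lit 2) (.ch (nat_lit 1) (.ev (nat_lit
 4880) (nat_lit 2) (.ev (nat_lit 4893) (nat_lit 64) .dd))) (.br (nat_lit 3) (.ch (nat_lit 2) (.ev (nat_lit
 4932) (nat_lit 64) (.ev (nat_lit 4941) (nat_lit 2) .dd))) (.ch (nat_lit 3) (.ev (nat_lit 4880) (nat_lit 64)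
 (.ev (nat_lit 4893) (nat_lit 2) .dd))))) (.br (nat_lit 9) (.br (nat_lit 8) (.ch (nat_lit 4) (.ev (nat_lit
 4880) (nat_lit 64) (.ev (nat_lit 4893) (nat_lit 2) .dd))) (.ch (nat_lit 8) (.ev (nat_lit 4880) (nat_lit 64)
 (.ev (nat_lit 4893) (nat_lit 2) .dd)))) (.br (nat_lit 12) (.ch (nat_lit 9) (.ev (nat_lit 4880) (nat_lit 2)
 (.ev (nat_lit 4893) (nat_lit 64) .dd))) (.ch (nat_lit 12) (.ev (nat_lit 4880) (nat_lit 2) (.ev (nat_lit 4893)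
 (nat_lit 64) .dd)))))))))) (.ch (nat_lit 9) (.ev (nat_lit 1664) (nat_lit 131072) (.ev (nat_lit 1684) (nat_lit
 64) (.nd (nat_lit 4592) (.br (nat_lit 9) (.br (nat_lit 6) (.ch (nat_lit 2) (.ev (nat_lit 4608) (nat_lit 1024)
 (.ev (nat_lit 4621) (nat_lit 2) .dd))) (.br (nat_lit 8) (.ch (nat_lit 6) (.ev (nat_lit 4608) (nat_lit 2) (.ev
 (nat_lit 4621) (nat_lit 1024) .dd))) (.ch (nat_lit 8) (.ev (nat_lit 4608) (nat_lit 2) (.ev (nat_lit 4621)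
 (nat_lit 1024) .dd))))) (.br (nat_lit 10) (.ch (nat_lit 9) (.ev (nat_lit 4608) (nat_lit 2) (.ev (nat_lit 4621)
 (nat_lit 1024) .dd))) (.br (nat_lit 11) (.ch (nat_lit 10) (.ev (nat_lit 4608) (nat_lit 1024) (.ev (nat_lit
 4621) (nat_lit 2) .dd))) (.ch (nat_lit 11) (.ev (nat_lit 4608) (nat_lit 1024) (.ev (nat_lit 4621) (nat_lit 2)
 .dd))))))))))) (.br (nat_lit 12) (.ch (nat_lit 11) (.ev (nat_lit 1664) (nat_lit 131136) (.nd (nat_lit 4592)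
 (.br (nat_lit 3) (.br (nat_lit 1) (.ch (nat_lit 0) (.ev (nat_lit 5044) (nat_lit 1024) (.ev (nat_lit 5053)
 (nat_lit 2) .dd))) (.br (nat_lit 2) (.ch (nat_lit 1) (.ev (nat_lit 4608) (nat_lit 2) (.ev (nat_lit 4621)
 (nat_lit 1024) .dd))) (.ch (nat_lit 2) (.ev (nat_lit 4608) (nat_lit 1024) (.ev (nat_lit 4621) (nat_lit 2)
 .dd))))) (.br (nat_lit 10) (.ch (nat_lit 3) (.ev (nat_lit 5300) (nat_lit 1024) (.ev (nat_lit 5309) (nat_lit 2)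
 .dd))) (.br (nat_lit 11) (.ch (nat_lit 10) (.ev (nat_lit 4608) (nat_lit 1024) (.ev (nat_lit 4621) (nat_lit 2)
 .dd))) (.ch (nat_lit 11) (.ev (nat_lit 4608) (nat_lit 1024) (.ev (nat_lit 4621) (nat_lit 2) .dd))))))))) (.ch
 (nat_lit 12) (.ev (nat_lit 1664) (nat_lit 1090) (.ev (nat_lit 1677) (nat_lit 131072) .dd))))))))) (.ch
 (nat_lit 6) (.ev (nat_lit 960) (nat_lit 2) (.nd (nat_lit 1648) (.br (nat_lit 6) (.br (nat_lit 3) (.br (nat_lit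
 2) (.ch (nat_lit 1) (.ev (nat_lit 1664) (nat_lit 256) (.ev (nat_lit 2164) (nat_lit 131072) (.ev (nat_lit 5924)
 (nat_lit 64) (.ev (nat_lit 5933) (nat_lit 1024) .dd))))) (.ch (nat_lit 2) (.ev (nat_lit 1664) (nat_lit 131392)
 (.ev (nat_lit 1677) (nat_lit 1024) .dd)))) (.br (nat_lit 5) (.ch (nat_lit 3) (.ev (nat_lit 1664) (nat_lit
 131328) (.ev (nat_lit 3300) (nat_lit 64) (.ev (nat_lit 3309) (nat_lit 1024) .dd)))) (.ch (nat_lit 5) (.ev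
 (nat_lit 1664) (nat_lit 132096) (.nd (nat_lit 4592) (.br (nat_lit 4) (.ch (nat_lit 2) (.ev (nat_lit 4756)
 (nat_lit 64) (.ev (nat_lit 4765) (nat_lit 256) .dd))) (.br (nat_lit 7) (.ch (nat_lit 4) (.ev (nat_lit 4608)
 (nat_lit 64) (.ev (nat_lit 4621) (nat_lit 256) .dd))) (.ch (nat_lit 7) (.ev (nat_lit 6452) (nat_lit 64) (.ev
 (nat_lit 6461) (nat_lit 256) .dd)))))))))) (.br (nat_lit 8) (.br (nat_lit 7) (.ch (nat_lit 6) (.ev (nat_lit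
 1664) (nat_lit 1088) (.ev (nat_lit 3540) (nat_lit 131072) (.ev (nat_lit 3549) (nat_lit 256) .dd)))) (.ch
 (nat_lit 7) (.ev (nat_lit 1664) (nat_lit 256) (.ev (nat_lit 3764) (nat_lit 131072) (.ev (nat_lit 6544)
 (nat_lit 1024) (.ev (nat_lit 6557) (nat_lit 64) .dd)))))) (.br (nat_lit 10) (.ch (nat_lit 8) (.ev (nat_lit
 1664) (nat_lit 1024) (.ev (nat_lit 2036) (nat_lit 256) (.ev (nat_lit 3764) (nat_lit 131072) (.ev (nat_lit
 3773) (nat_lit 64) .dd))))) (.br (nat_lit 12) (.ch (nat_lit 10) (.ev (nat_lit 1664) (nat_lit 132416) .dd))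
 (.ch (nat_lit 12) (.ev (nat_lit 1664) (nat_lit 320) (.ev (nat_lit 3540) (nat_lit 131072) (.ev (nat_lit 3549)
 (nat_lit 1024) .dd)))))))))))) (.br (nat_lit 8) (.ch (nat_lit 7) (.ev (nat_lit 960) (nat_lit 132096) (.ev
 (nat_lit 980) (nat_lit 64) (.nd (nat_lit 2128) (.br (nat_lit 7) (.br (nat_lit 3) (.ch (nat_lit 2) (.ev
 (nat_lit 2180) (nat_lit 2) (.ev (nat_lit 2189) (nat_lit 256) .dd))) (.br (nat_lit 6) (.ch (nat_lit 3) (.ev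
 (nat_lit 2144) (nat_lit 2) (.ev (nat_lit 2157) (nat_lit 256) .dd))) (.ch (nat_lit 6) (.ev (nat_lit 2144)
 (nat_lit 256) (.ev (nat_lit 2157) (nat_lit 2) .dd))))) (.br (nat_lit 10) (.br (nat_lit 8) (.ch (nat_lit 7)
 (.ev (nat_lit 3652) (nat_lit 2) (.ev (nat_lit 3661) (nat_lit 256) .dd))) (.ch (nat_lit 8) (.ev (nat_lit 2144)
 (nat_lit 2) (.ev (nat_lit 2157) (nat_lit 256) .dd)))) (.br (nat_lit 11) (.ch (nat_lit 10) (.ev (nat_lit 2452)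
 (nat_lit 2) (.ev (nat_lit 2461) (nat_lit 256) .dd))) (.ch (nat_lit 11) (.ev (nat_lit 2144) (nat_lit 258)
 .dd))))))))) (.br (nat_lit 12) (.ch (nat_lit 8) (.nd (nat_lit 1456) (.br (nat_lit 6) (.br (nat_lit 4) (.br
 (nat_lit 3) (.ch (nat_lit 0) (.ev (nat_lit 1472) (nat_lit 1088) (.ev (nat_lit 4116) (nat_lit 131072) (.nd
 (nat_lit 7392) (.br (nat_lit 2) (.ch (nat_lit 0) (.fin (nat_lit 576909904007612448))) (.ch (nat_lit 2) (.ev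
 (nat_lit 7408) (nat_lit 258) .dd))))))) (.ch (nat_lit 3) (.ev (nat_lit 1472) (nat_lit 1026) (.ev (nat_lit
 2196) (nat_lit 131072) (.ev (nat_lit 2740) (nat_lit 64) (.ev (nat_lit 2749) (nat_lit 256) .dd)))))) (.br
 (nat_lit 5) (.ch (nat_lit 4) (.ev (nat_lit 1472) (nat_lit 132352) (.nd (nat_lit 4224) (.br (nat_lit 8) (.br
 (nat_lit 6) (.ch (nat_lit 3) (.ev (nat_lit 4240) (nat_lit 64) (.ev (nat_lit 4253) (nat_lit 2) .dd))) (.ch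
 (nat_lit 6) (.nd (nat_lit 8080) (.br (nat_lit 4) (.ch (nat_lit 0) (.ev (nat_lit 8096) (nat_lit 2) (.ev
 (nat_lit 8109) (nat_lit 64) .dd))) (.ch (nat_lit 4) (.fin (nat_lit 576545964226462395))))))) (.br (nat_lit 9)
 (.ch (nat_lit 8) (.ev (nat_lit 4240) (nat_lit 64) (.ev (nat_lit 4253) (nat_lit 2) .dd))) (.ch (nat_lit 9) (.ev
 (nat_lit 5140) (nat_lit 2) (.ev (nat_lit 5149) (nat_lit 64) .dd)))))))) (.ch (nat_lit 5) (.ev (nat_lit 1472)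
 (nat_lit 1282) (.ev (nat_lit 6500) (nat_lit 131072) (.ev (nat_lit 6509) (nat_lit 64) .dd)))))) (.br (nat_lit
 8) (.br (nat_lit 7) (.ch (nat_lit 6) (.ev (nat_lit 1472) (nat_lit 132352) (.nd (nat_lit 4416) (.br (nat_lit 8)
 (.ch (nat_lit 7) (.ev (nat_lit 5744) (nat_lit 66) .dd)) (.ch (nat_lit 8) (.ev (nat_lit 4644) (nat_lit 64) (.ev
 (nat_lit 4653) (nat_lit 2) .dd))))))) (.ch (nat_lit 7) (.ev (nat_lit 1472) (nat_lit 320) (.nd (nat_lit 4416)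
 (.br (nat_lit 10) (.br (nat_lit 2) (.ch (nat_lit 1) (.ev (nat_lit 4996) (nat_lit 1024) (.ev (nat_lit 6788)
 (nat_lit 2) (.ev (nat_lit 6797) (nat_lit 131072) .dd)))) (.ch (nat_lit 2) (.ev (nat_lit 4432) (nat_lit 131072)
 (.ev (nat_lit 4644) (nat_lit 2) (.ev (nat_lit 4653) (nat_lit 1024) .dd))))) (.br (nat_lit 12) (.ch (nat_lit
 10) (.ev (nat_lit 4432) (nat_lit 131072) (.ev (nat_lit 4644) (nat_lit 2) (.ev (nat_lit 4653) (nat_lit 1024)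
 .dd)))) (.ch (nat_lit 12) (.ev (nat_lit 4432) (nat_lit 2) (.ev (nat_lit 4996) (nat_lit 1024) (.ev (nat_lit
 5005) (nat_lit 131072) .dd)))))))))) (.br (nat_lit 9) (.ch (nat_lit 8) (.ev (nat_lit 1472) (nat_lit 320) (.nd
 (nat_lit 4224) (.br (nat_lit 10) (.br (nat_lit 6) (.ch (nat_lit 0) (.ev (nat_lit 4240) (nat_lit 1024) (.ev
 (nat_lit 5236) (nat_lit 131072) (.ev (nat_lit 5245) (nat_lit 2) .dd)))) (.ch (nat_lit 6) (.ev (nat_lit 4240)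
 (nat_lit 132096) (.ev (nat_lit 4253) (nat_lit 2) .dd)))) (.br (nat_lit 11) (.ch (nat_lit 10) (.ev (nat_lit
 4240) (nat_lit 132098) .dd)) (.br (nat_lit 12) (.ch (nat_lit 11) (.ev (nat_lit 4240) (nat_lit 2) (.ev (nat_lit
 5216) (nat_lit 132096) .dd))) (.ch (nat_lit 12) (.ev (nat_lit 4240) (nat_lit 131072) (.ev (nat_lit 5876)
 (nat_lit 1024) (.ev (nat_lit 5885) (nat_lit 2) .dd)))))))))) (.br (nat_lit 10) (.ch (nat_lit 9) (.ev (nat_lit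
 1472) (nat_lit 320) (.ev (nat_lit 1700) (nat_lit 1024) (.ev (nat_lit 4052) (nat_lit 131072) (.ev (nat_lit
 4061) (nat_lit 2) .dd))))) (.ch (nat_lit 10) (.ev (nat_lit 1472) (nat_lit 131394) (.ev (nat_lit 1485) (nat_lit
 1024) .dd))))))))) (.ch (nat_lit 12) (.ev (nat_lit 960) (nat_lit 2) (.nd (nat_lit 1648) (.br (nat_lit 5) (.br
 (nat_lit 2) (.br (nat_lit 1) (.ch (nat_lit 0) (.ev (nat_lit 1664) (nat_lit 1088) (.fin (nat_lit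
 576775762276205223)))) (.ch (nat_lit 1) (.ev (nat_lit 1664) (nat_lit 1344) (.ev (nat_lit 1677) (nat_lit
 131072) .dd)))) (.br (nat_lit 3) (.ch (nat_lit 2) (.ev (nat_lit 1664) (nat_lit 132160) (.ev (nat_lit 1677)
 (nat_lit 256) .dd))) (.ch (nat_lit 3) (.ev (nat_lit 1664) (nat_lit 131072) (.nd (nat_lit 4224) (.br (nat_lit
 7) (.br (nat_lit 6) (.ch (nat_lit 5) (.ev (nat_lit 4240) (nat_lit 320) (.ev (nat_lit 4253) (nat_lit 1024)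
 .dd))) (.ch (nat_lit 6) (.ev (nat_lit 4240) (nat_lit 256) (.ev (nat_lit 4356) (nat_lit 1024) (.ev (nat_lit
 4365) (nat_lit 64) .dd))))) (.br (nat_lit 10) (.ch (nat_lit 7) (.ev (nat_lit 4240) (nat_lit 64) (.fin (nat_lit
 576631726406058462)))) (.br (nat_lit 12) (.ch (nat_lit 10) (.ev (nat_lit 4240) (nat_lit 1024) (.ev (nat_lit
 6020) (nat_lit 64) (.ev (nat_lit 6029) (nat_lit 256) .dd)))) (.ch (nat_lit 12) (.ev (nat_lit 4240) (nat_lit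
 1088) (.ev (nat_lit 4253) (nat_lit 256) .dd))))))))))) (.br (nat_lit 8) (.br (nat_lit 6) (.ch (nat_lit 5) (.ev
 (nat_lit 3956) (nat_lit 256) (.nd (nat_lit 4416) (.br (nat_lit 5) (.br (nat_lit 2) (.ch (nat_lit 1) (.ev
 (nat_lit 4432) (nat_lit 1024) (.ev (nat_lit 4468) (nat_lit 64) (.ev (nat_lit 4477) (nat_lit 131072) .dd))))
 (.br (nat_lit 3) (.ch (nat_lit 2) (.ev (nat_lit 4432) (nat_lit 1024) (.ev (nat_lit 5364) (nat_lit 64) (.ev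
 (nat_lit 5373) (nat_lit 131072) .dd)))) (.ch (nat_lit 3) (.ev (nat_lit 4432) (nat_lit 131072) (.ev (nat_lit
 4468) (nat_lit 64) (.ev (nat_lit 4477) (nat_lit 1024) .dd)))))) (.br (nat_lit 9) (.ch (nat_lit 5) (.ev
 (nat_lit 5456) (nat_lit 64) (.ev (nat_lit 6356) (nat_lit 131072) (.ev (nat_lit 6365) (nat_lit 1024) .dd))))
 (.br (nat_lit 10) (.ch (nat_lit 9) (.ev (nat_lit 4432) (nat_lit 64) (.ev (nat_lit 5888) (nat_lit 132096)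
 .dd))) (.ch (nat_lit 10) (.ev (nat_lit 4432) (nat_lit 1024) (.ev (nat_lit 4724) (nat_lit 64) (.ev (nat_lit
 4733) (nat_lit 131072) .dd)))))))))) (.ch (nat_lit 6) (.ev (nat_lit 1664) (nat_lit 131328) (.nd (nat_lit 4416)
 (.br (nat_lit 8) (.ch (nat_lit 3) (.ev (nat_lit 4788) (nat_lit 1024) (.ev (nat_lit 4797) (nat_lit 64) .dd)))
 (.ch (nat_lit 8) (.ev (nat_lit 4564) (nat_lit 64) (.ev (nat_lit 4573) (nat_lit 1024) .dd)))))))) (.br (nat_lit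
 12) (.ch (nat_lit 8) (.ev (nat_lit 1664) (nat_lit 256) (.ev (nat_lit 2388) (nat_lit 131072) (.nd (nat_lit
 4416) (.br (nat_lit 4) (.br (nat_lit 2) (.ch (nat_lit 1) (.ev (nat_lit 4644) (nat_lit 64) (.ev (nat_lit 4653)
 (nat_lit 1024) .dd))) (.br (nat_lit 3) (.ch (nat_lit 2) (.ev (nat_lit 6112) (nat_lit 64) (.ev (nat_lit 6125)
 (nat_lit 1024) .dd))) (.ch (nat_lit 3) (.ev (nat_lit 4432) (nat_lit 64) (.ev (nat_lit 4445) (nat_lit 1024)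
 .dd))))) (.br (nat_lit 7) (.ch (nat_lit 4) (.ev (nat_lit 5280) (nat_lit 64) (.ev (nat_lit 5293) (nat_lit 1024)
 .dd))) (.br (nat_lit 10) (.ch (nat_lit 7) (.ev (nat_lit 4724) (nat_lit 1024) (.ev (nat_lit 4733) (nat_lit 64)
 .dd))) (.ch (nat_lit 10) (.ev (nat_lit 4432) (nat_lit 64) (.ev (nat_lit 4445) (nat_lit 1024) .dd))))))))))
 (.ch (nat_lit 12) (.ev (nat_lit 1664) (nat_lit 256) (.nd (nat_lit 4592) (.br (nat_lit 6) (.br (nat_lit 4) (.ch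
 (nat_lit 0) (.ev (nat_lit 4608) (nat_lit 131072) (.nd (nat_lit 8112) (.br (nat_lit 9) (.ch (nat_lit 3) (.ev
 (nat_lit 8128) (nat_lit 64) (.ev (nat_lit 8141) (nat_lit 1024) .dd))) (.ch (nat_lit 9) (.fin (nat_lit
 576470098150638148))))))) (.ch (nat_lit 4) (.ev (nat_lit 4768) (nat_lit 64) (.ev (nat_lit 6148) (nat_lit 1024)
 (.ev (nat_lit 6157) (nat_lit 131072) .dd))))) (.br (nat_lit 7) (.ch (nat_lit 6) (.ev (nat_lit 4820) (nat_lit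
 1024) (.nd (nat_lit 8048) (.br (nat_lit 9) (.ch (nat_lit 2) (.ev (nat_lit 8064) (nat_lit 64) (.ev (nat_lit
 8077) (nat_lit 131072) .dd))) (.ch (nat_lit 9) (.fin (nat_lit 576343654441370307))))))) (.br (nat_lit 9) (.ch
 (nat_lit 7) (.ev (nat_lit 5424) (nat_lit 1024) (.ev (nat_lit 6148) (nat_lit 64) (.ev (nat_lit 6157) (nat_lit
 131072) .dd)))) (.ch (nat_lit 9) (.ev (nat_lit 4608) (nat_lit 131072) (.ev (nat_lit 5492) (nat_lit 64) (.ev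
 (nat_lit 5501) (nat_lit 1024) .dd)))))))))))))))))))))))) (.br (nat_lit 6) (.ch (nat_lit 4) (.ev (nat_lit 496)
 (nat_lit 8514) (.nd (nat_lit 1008) (.br (nat_lit 4) (.br (nat_lit 2) (.ch (nat_lit 0) (.nd (nat_lit 2128) (.br
 (nat_lit 9) (.br (nat_lit 4) (.ch (nat_lit 0) (.ev (nat_lit 2144) (nat_lit 1024) (.ev (nat_lit 2157) (nat_lit
 131072) .dd))) (.br (nat_lit 8) (.ch (nat_lit 4) (.ev (nat_lit 2820) (nat_lit 1024) (.ev (nat_lit 2829)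
 (nat_lit 131072) .dd))) (.ch (nat_lit 8) (.ev (nat_lit 6260) (nat_lit 131072) (.ev (nat_lit 6269) (nat_lit
 1024) .dd))))) (.br (nat_lit 10) (.ch (nat_lit 9) (.ev (nat_lit 6868) (nat_lit 1024) (.ev (nat_lit 6877)
 (nat_lit 131072) .dd))) (.br (nat_lit 11) (.ch (nat_lit 10) (.ev (nat_lit 2948) (nat_lit 131072) (.ev (nat_lit
 2957) (nat_lit 1024) .dd))) (.ch (nat_lit 11) (.ev (nat_lit 2144) (nat_lit 1024) (.ev (nat_lit 2157) (nat_lit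
 131072) .dd)))))))) (.br (nat_lit 3) (.ch (nat_lit 2) (.ev (nat_lit 1024) (nat_lit 1024) (.ev (nat_lit 1037)
 (nat_lit 131072) .dd))) (.ch (nat_lit 3) (.ev (nat_lit 1024) (nat_lit 131072) (.ev (nat_lit 1037) (nat_lit
 1024) .dd))))) (.br (nat_lit 7) (.br (nat_lit 6) (.ch (nat_lit 4) (.ev (nat_lit 2948) (nat_lit 1024) (.ev
 (nat_lit 2957) (nat_lit 131072) .dd))) (.ch (nat_lit 6) (.nd (nat_lit 3408) (.br (nat_lit 3) (.ch (nat_lit 0)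
 (.ev (nat_lit 3476) (nat_lit 131072) (.ev (nat_lit 3485) (nat_lit 1024) .dd))) (.br (nat_lit 7) (.ch (nat_lit
 3) (.ev (nat_lit 3764) (nat_lit 131072) (.ev (nat_lit 3773) (nat_lit 1024) .dd))) (.ch (nat_lit 7) (.ev
 (nat_lit 3680) (nat_lit 132096) .dd))))))) (.br (nat_lit 8) (.ch (nat_lit 7) (.nd (nat_lit 2336) (.br (nat_lit
 4) (.ch (nat_lit 2) (.ev (nat_lit 2788) (nat_lit 131072) (.ev (nat_lit 2797) (nat_lit 1024) .dd))) (.br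
 (nat_lit 8) (.ch (nat_lit 4) (.ev (nat_lit 3488) (nat_lit 132096) .dd)) (.ch (nat_lit 8) (.ev (nat_lit 2740)
 (nat_lit 1024) (.ev (nat_lit 2749) (nat_lit 131072) .dd))))))) (.ch (nat_lit 8) (.ev (nat_lit 1024) (nat_lit
 131072) (.ev (nat_lit 1037) (nat_lit 1024) .dd))))))))) (.ch (nat_lit 6) (.ev (nat_lit 496) (nat_lit 132160)
 (.nd (nat_lit 1088) (.br (nat_lit 7) (.br (nat_lit 2) (.br (nat_lit 1) (.ch (nat_lit 0) (.nd (nat_lit 2128)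
 (.br (nat_lit 6) (.br (nat_lit 4) (.br (nat_lit 2) (.ch (nat_lit 0) (.ev (nat_lit 2144) (nat_lit 256) (.ev
 (nat_lit 5140) (nat_lit 8192) (.ev (nat_lit 5149) (nat_lit 2) .dd)))) (.ch (nat_lit 2) (.ev (nat_lit 2144)
 (nat_lit 258) (.ev (nat_lit 2157) (nat_lit 8192) .dd)))) (.br (nat_lit 5) (.ch (nat_lit 4) (.ev (nat_lit 2144)
 (nat_lit 8450) .dd)) (.ch (nat_lit 5) (.ev (nat_lit 2144) (nat_lit 8192) (.ev (nat_lit 5444) (nat_lit 256)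
 (.ev (nat_lit 5453) (nat_lit 2) .dd)))))) (.br (nat_lit 10) (.br (nat_lit 8) (.ch (nat_lit 6) (.ev (nat_lit
 2144) (nat_lit 8192) (.ev (nat_lit 6868) (nat_lit 256) (.ev (nat_lit 6877) (nat_lit 2) .dd)))) (.ch (nat_lit
 8) (.ev (nat_lit 2144) (nat_lit 8192) (.ev (nat_lit 6608) (nat_lit 256) (.ev (nat_lit 6621) (nat_lit 2)
 .dd))))) (.br (nat_lit 11) (.ch (nat_lit 10) (.ev (nat_lit 5188) (nat_lit 8192) (.ev (nat_lit 5888) (nat_lit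
 256) (.ev (nat_lit 5901) (nat_lit 2) .dd)))) (.ch (nat_lit 11) (.ev (nat_lit 6596) (nat_lit 8192) (.ev
 (nat_lit 7028) (nat_lit 256) (.ev (nat_lit 7037) (nat_lit 2) .dd))))))))) (.ch (nat_lit 1) (.ev (nat_lit 1104)
 (nat_lit 258) (.ev (nat_lit 1117) (nat_lit 8192) .dd)))) (.br (nat_lit 3) (.ch (nat_lit 2) (.ev (nat_lit 1104)
 (nat_lit 8448) (.ev (nat_lit 1117) (nat_lit 2) .dd))) (.ch (nat_lit 3) (.nd (nat_lit 2128) (.br (nat_lit 8)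
 (.br (nat_lit 5) (.br (nat_lit 4) (.ch (nat_lit 1) (.ev (nat_lit 2260) (nat_lit 8192) (.ev (nat_lit 2820)
 (nat_lit 2) (.ev (nat_lit 2829) (nat_lit 256) .dd)))) (.ch (nat_lit 4) (.ev (nat_lit 2144) (nat_lit 256) (.ev
 (nat_lit 2164) (nat_lit 8192) (.ev (nat_lit 2173) (nat_lit 2) .dd))))) (.br (nat_lit 7) (.ch (nat_lit 5) (.ev
 (nat_lit 2144) (nat_lit 8194) (.ev (nat_lit 2157) (nat_lit 256) .dd))) (.ch (nat_lit 7) (.ev (nat_lit 2144)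
 (nat_lit 8194) (.ev (nat_lit 2157) (nat_lit 256) .dd))))) (.br (nat_lit 10) (.br (nat_lit 9) (.ch (nat_lit 8)
 (.ev (nat_lit 2144) (nat_lit 8192) (.ev (nat_lit 2180) (nat_lit 256) (.ev (nat_lit 2189) (nat_lit 2) .dd))))
 (.ch (nat_lit 9) (.ev (nat_lit 2144) (nat_lit 256) (.ev (nat_lit 2820) (nat_lit 2) (.ev (nat_lit 2829)
 (nat_lit 8192) .dd))))) (.br (nat_lit 11) (.ch (nat_lit 10) (.ev (nat_lit 2164) (nat_lit 8194) (.ev (nat_lit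
 2173) (nat_lit 256) .dd))) (.ch (nat_lit 11) (.ev (nat_lit 2144) (nat_lit 8192) (.ev (nat_lit 2164) (nat_lit
 2) (.ev (nat_lit 2173) (nat_lit 256) .dd))))))))))) (.br (nat_lit 9) (.br (nat_lit 8) (.ch (nat_lit 7) (.ev
 (nat_lit 1104) (nat_lit 2) (.ev (nat_lit 2740) (nat_lit 256) (.ev (nat_lit 2749) (nat_lit 8192) .dd)))) (.ch
 (nat_lit 8) (.ev (nat_lit 1104) (nat_lit 8450) .dd))) (.br (nat_lit 10) (.ch (nat_lit 9) (.ev (nat_lit 1104)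
 (nat_lit 8192) (.nd (nat_lit 2624) (.br (nat_lit 8) (.ch (nat_lit 7) (.ev (nat_lit 2676) (nat_lit 2) (.ev
 (nat_lit 2685) (nat_lit 256) .dd))) (.br (nat_lit 12) (.ch (nat_lit 8) (.ev (nat_lit 2788) (nat_lit 2) (.ev
 (nat_lit 2797) (nat_lit 256) .dd))) (.ch (nat_lit 12) (.ev (nat_lit 2676) (nat_lit 2) (.ev (nat_lit 2685)
 (nat_lit 256) .dd)))))))) (.br (nat_lit 11) (.ch (nat_lit 10) (.nd (nat_lit 1840) (.br (nat_lit 6) (.br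
 (nat_lit 4) (.ch (nat_lit 0) (.ev (nat_lit 1856) (nat_lit 8192) (.ev (nat_lit 6452) (nat_lit 2) (.ev (nat_lit
 6461) (nat_lit 256) .dd)))) (.br (nat_lit 5) (.ch (nat_lit 4) (.ev (nat_lit 1856) (nat_lit 2) (.ev (nat_lit
 1876) (nat_lit 8192) (.ev (nat_lit 1885) (nat_lit 256) .dd)))) (.ch (nat_lit 5) (.ev (nat_lit 6452) (nat_lit
 2) (.ev (nat_lit 6644) (nat_lit 8192) (.ev (nat_lit 6653) (nat_lit 256) .dd)))))) (.br (nat_lit 11) (.br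
 (nat_lit 9) (.ch (nat_lit 6) (.ev (nat_lit 1856) (nat_lit 258) (.ev (nat_lit 1869) (nat_lit 8192) .dd))) (.ch
 (nat_lit 9) (.ev (nat_lit 1856) (nat_lit 8448) (.ev (nat_lit 1869) (nat_lit 2) .dd)))) (.br (nat_lit 12) (.ch
 (nat_lit 11) (.ev (nat_lit 1856) (nat_lit 8192) (.nd (nat_lit 4592) (.br (nat_lit 4) (.ch (nat_lit 2) (.ev
 (nat_lit 5168) (nat_lit 258) .dd)) (.ch (nat_lit 4) (.ev (nat_lit 6596) (nat_lit 256) (.ev (nat_lit 6605)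
 (nat_lit 2) .dd))))))) (.ch (nat_lit 12) (.nd (nat_lit 4304) (.br (nat_lit 11) (.br (nat_lit 10) (.ch (nat_lit
 3) (.ev (nat_lit 4320) (nat_lit 2) (.ev (nat_lit 6452) (nat_lit 8192) (.ev (nat_lit 6461) (nat_lit 256)
 .dd)))) (.ch (nat_lit 10) (.ev (nat_lit 4320) (nat_lit 256) (.ev (nat_lit 5088) (nat_lit 8194) .dd)))) (.br
 (nat_lit 12) (.ch (nat_lit 11) (.ev (nat_lit 4320) (nat_lit 2) (.ev (nat_lit 4532) (nat_lit 256) (.ev (nat_lit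
 4541) (nat_lit 8192) .dd)))) (.ch (nat_lit 12) (.ev (nat_lit 4320) (nat_lit 2) (.ev (nat_lit 4388) (nat_lit
 8192) (.ev (nat_lit 4397) (nat_lit 256) .dd))))))))))))) (.ch (nat_lit 11) (.ev (nat_lit 1104) (nat_lit 8448)
 (.ev (nat_lit 1117) (nat_lit 2) .dd)))))))))))) (.br (nat_lit 10) (.br (nat_lit 9) (.ch (nat_lit 7) (.ev
 (nat_lit 496) (nat_lit 8450) (.nd (nat_lit 880) (.br (nat_lit 5) (.br (nat_lit 3) (.ch (nat_lit 1) (.ev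
 (nat_lit 896) (nat_lit 64) (.nd (nat_lit 1968) (.br (nat_lit 9) (.br (nat_lit 6) (.ch (nat_lit 4) (.ev
 (nat_lit 2004) (nat_lit 1024) (.ev (nat_lit 2013) (nat_lit 131072) .dd))) (.br (nat_lit 7) (.ch (nat_lit 6)
 (.ev (nat_lit 1984) (nat_lit 131072) (.ev (nat_lit 1997) (nat_lit 1024) .dd))) (.ch (nat_lit 7) (.ev (nat_lit
 1984) (nat_lit 131072) (.ev (nat_lit 1997) (nat_lit 1024) .dd))))) (.br (nat_lit 11) (.ch (nat_lit 9) (.ev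
 (nat_lit 2068) (nat_lit 1024) (.ev (nat_lit 2077) (nat_lit 131072) .dd))) (.br (nat_lit 12) (.ch (nat_lit 11)
 (.ev (nat_lit 2004) (nat_lit 1024) (.ev (nat_lit 2013) (nat_lit 131072) .dd))) (.ch (nat_lit 12) (.ev (nat_lit
 2788) (nat_lit 131072) (.ev (nat_lit 2797) (nat_lit 1024) .dd))))))))) (.br (nat_lit 4) (.ch (nat_lit 3) (.ev
 (nat_lit 896) (nat_lit 1024) (.nd (nat_lit 1744) (.br (nat_lit 8) (.br (nat_lit 4) (.ch (nat_lit 1) (.ev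
 (nat_lit 1780) (nat_lit 64) (.ev (nat_lit 1789) (nat_lit 131072) .dd))) (.ch (nat_lit 4) (.ev (nat_lit 1780)
 (nat_lit 64) (.ev (nat_lit 1789) (nat_lit 131072) .dd)))) (.br (nat_lit 12) (.ch (nat_lit 8) (.ev (nat_lit
 2868) (nat_lit 131072) (.ev (nat_lit 2877) (nat_lit 64) .dd))) (.ch (nat_lit 12) (.ev (nat_lit 2244) (nat_lit
 64) (.ev (nat_lit 2253) (nat_lit 131072) .dd)))))))) (.ch (nat_lit 4) (.ev (nat_lit 1124) (nat_lit 131072)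
 (.nd (nat_lit 1648) (.br (nat_lit 6) (.br (nat_lit 2) (.ch (nat_lit 1) (.ev (nat_lit 1664) (nat_lit 64) (.ev
 (nat_lit 1677) (nat_lit 1024) .dd))) (.br (nat_lit 4) (.ch (nat_lit 2) (.ev (nat_lit 1664) (nat_lit 1024) (.ev
 (nat_lit 1677) (nat_lit 64) .dd))) (.ch (nat_lit 4) (.ev (nat_lit 3844) (nat_lit 1024) (.ev (nat_lit 3853)
 (nat_lit 64) .dd))))) (.br (nat_lit 8) (.ch (nat_lit 6) (.ev (nat_lit 4096) (nat_lit 1088) .dd)) (.br (nat_lit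
 12) (.ch (nat_lit 8) (.ev (nat_lit 6596) (nat_lit 64) (.ev (nat_lit 6605) (nat_lit 1024) .dd))) (.ch (nat_lit
 12) (.ev (nat_lit 1664) (nat_lit 64) (.ev (nat_lit 1677) (nat_lit 1024) .dd))))))))))) (.br (nat_lit 9) (.br
 (nat_lit 6) (.ch (nat_lit 5) (.ev (nat_lit 896) (nat_lit 131072) (.nd (nat_lit 1456) (.br (nat_lit 11) (.br
 (nat_lit 1) (.ch (nat_lit 0) (.ev (nat_lit 1524) (nat_lit 1024) (.ev (nat_lit 1533) (nat_lit 64) .dd))) (.ch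
 (nat_lit 1) (.ev (nat_lit 3316) (nat_lit 1024) (.ev (nat_lit 3325) (nat_lit 64) .dd)))) (.br (nat_lit 12) (.ch
 (nat_lit 11) (.nd (nat_lit 4592) (.br (nat_lit 12) (.ch (nat_lit 10) (.ev (nat_lit 6644) (nat_lit 64) (.ev
 (nat_lit 6653) (nat_lit 1024) .dd))) (.ch (nat_lit 12) (.ev (nat_lit 4724) (nat_lit 1024) (.ev (nat_lit 4733)
 (nat_lit 64) .dd)))))) (.ch (nat_lit 12) (.nd (nat_lit 4592) (.br (nat_lit 6) (.ch (nat_lit 2) (.ev (nat_lit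
 5236) (nat_lit 64) (.ev (nat_lit 5245) (nat_lit 1024) .dd))) (.ch (nat_lit 6) (.ev (nat_lit 4932) (nat_lit 64)
 (.ev (nat_lit 4941) (nat_lit 1024) .dd))))))))))) (.ch (nat_lit 6) (.nd (nat_lit 1456) (.br (nat_lit 7) (.br
 (nat_lit 3) (.ch (nat_lit 2) (.nd (nat_lit 4864) (.br (nat_lit 8) (.br (nat_lit 3) (.ch (nat_lit 2) (.ev
 (nat_lit 4880) (nat_lit 1088) (.ev (nat_lit 4893) (nat_lit 131072) .dd))) (.ch (nat_lit 3) (.ev (nat_lit 4880)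
 (nat_lit 131072) (.ev (nat_lit 6500) (nat_lit 1024) (.ev (nat_lit 6509) (nat_lit 64) .dd))))) (.br (nat_lit 9)
 (.ch (nat_lit 8) (.ev (nat_lit 4880) (nat_lit 1088) (.ev (nat_lit 4893) (nat_lit 131072) .dd))) (.br (nat_lit
 12) (.ch (nat_lit 9) (.ev (nat_lit 4880) (nat_lit 1024) (.ev (nat_lit 6596) (nat_lit 64) (.ev (nat_lit 6605)
 (nat_lit 131072) .dd)))) (.ch (nat_lit 12) (.ev (nat_lit 4880) (nat_lit 131072) (.ev (nat_lit 5844) (nat_lit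
 64) (.ev (nat_lit 5853) (nat_lit 1024) .dd))))))))) (.br (nat_lit 5) (.ch (nat_lit 3) (.ev (nat_lit 1472)
 (nat_lit 131072) (.nd (nat_lit 4864) (.br (nat_lit 10) (.ch (nat_lit 1) (.fin (nat_lit 579823620131865161)))
 (.ch (nat_lit 10) (.ev (nat_lit 6148) (nat_lit 64) (.ev (nat_lit 6157) (nat_lit 1024) .dd))))))) (.ch (nat_lit
 5) (.nd (nat_lit 4224) (.br (nat_lit 8) (.br (nat_lit 5) (.ch (nat_lit 4) (.ev (nat_lit 4240) (nat_lit 64)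
 (.ev (nat_lit 4548) (nat_lit 131072) (.ev (nat_lit 4557) (nat_lit 1024) .dd)))) (.ch (nat_lit 5) (.ev (nat_lit
 4240) (nat_lit 131136) (.ev (nat_lit 4253) (nat_lit 1024) .dd)))) (.br (nat_lit 10) (.ch (nat_lit 8) (.ev
 (nat_lit 5540) (nat_lit 1024) (.ev (nat_lit 6356) (nat_lit 64) (.ev (nat_lit 6365) (nat_lit 131072) .dd))))
 (.br (nat_lit 11) (.ch (nat_lit 10) (.ev (nat_lit 4240) (nat_lit 64) (.ev (nat_lit 4356) (nat_lit 1024) (.ev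
 (nat_lit 4365) (nat_lit 131072) .dd)))) (.ch (nat_lit 11) (.ev (nat_lit 5140) (nat_lit 131072) (.ev (nat_lit
 5552) (nat_lit 1024) (.ev (nat_lit 5565) (nat_lit 64) .dd))))))))))) (.br (nat_lit 9) (.br (nat_lit 8) (.ch
 (nat_lit 7) (.ev (nat_lit 1472) (nat_lit 131072) (.ev (nat_lit 5572) (nat_lit 64) (.ev (nat_lit 5581) (nat_lit
 1024) .dd)))) (.ch (nat_lit 8) (.ev (nat_lit 1876) (nat_lit 131072) (.ev (nat_lit 2212) (nat_lit 1024) (.ev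
 (nat_lit 2221) (nat_lit 64) .dd))))) (.br (nat_lit 10) (.ch (nat_lit 9) (.ev (nat_lit 1472) (nat_lit 1088)
 (.ev (nat_lit 1485) (nat_lit 131072) .dd))) (.ch (nat_lit 10) (.ev (nat_lit 1472) (nat_lit 132096) (.ev
 (nat_lit 1485) (nat_lit 64) .dd))))))))) (.br (nat_lit 11) (.ch (nat_lit 9) (.ev (nat_lit 896) (nat_lit
 132096) (.ev (nat_lit 909) (nat_lit 64) .dd))) (.ch (nat_lit 11) (.ev (nat_lit 896) (nat_lit 64) (.nd (nat_lit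
 1744) (.br (nat_lit 5) (.br (nat_lit 4) (.ch (nat_lit 0) (.ev (nat_lit 5140) (nat_lit 1024) (.ev (nat_lit
 5149) (nat_lit 131072) .dd))) (.ch (nat_lit 4) (.ev (nat_lit 2164) (nat_lit 131072) (.ev (nat_lit 2173)
 (nat_lit 1024) .dd)))) (.br (nat_lit 6) (.ch (nat_lit 5) (.ev (nat_lit 5044) (nat_lit 1024) (.ev (nat_lit
 5053) (nat_lit 131072) .dd))) (.ch (nat_lit 6) (.ev (nat_lit 6500) (nat_lit 1024) (.ev (nat_lit 6509) (nat_lit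
 131072) .dd)))))))))))))) (.ch (nat_lit 9) (.ev (nat_lit 496) (nat_lit 131074) (.nd (nat_lit 944) (.br
 (nat_lit 5) (.br (nat_lit 2) (.br (nat_lit 1) (.ch (nat_lit 0) (.ev (nat_lit 960) (nat_lit 1024) (.nd (nat_lit
 1648) (.br (nat_lit 9) (.br (nat_lit 7) (.ch (nat_lit 6) (.ev (nat_lit 1664) (nat_lit 320) (.ev (nat_lit 1677)
 (nat_lit 8192) .dd))) (.ch (nat_lit 7) (.ev (nat_lit 1664) (nat_lit 320) (.ev (nat_lit 1677) (nat_lit 8192)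
 .dd)))) (.br (nat_lit 11) (.ch (nat_lit 9) (.ev (nat_lit 3700) (nat_lit 64) (.nd (nat_lit 4416) (.br (nat_lit
 6) (.br (nat_lit 2) (.ch (nat_lit 0) (.nd (nat_lit 8320) (.br (nat_lit 8) (.ch (nat_lit 4) (.ev (nat_lit 8336)
 (nat_lit 256) (.ev (nat_lit 8349) (nat_lit 8192) .dd))) (.ch (nat_lit 8) (.fin (nat_lit
 576444809385296455)))))) (.br (nat_lit 3) (.ch (nat_lit 2) (.ev (nat_lit 6976) (nat_lit 8448) .dd)) (.ch
 (nat_lit 3) (.ev (nat_lit 4432) (nat_lit 256) (.ev (nat_lit 4445) (nat_lit 8192) .dd))))) (.br (nat_lit 9)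
 (.ch (nat_lit 6) (.ev (nat_lit 5376) (nat_lit 8192) (.ev (nat_lit 5389) (nat_lit 256) .dd))) (.br (nat_lit 12)
 (.ch (nat_lit 9) (.ev (nat_lit 4432) (nat_lit 8192) (.ev (nat_lit 4445) (nat_lit 256) .dd))) (.ch (nat_lit 12)
 (.ev (nat_lit 4432) (nat_lit 8192) (.ev (nat_lit 4445) (nat_lit 256) .dd))))))))) (.br (nat_lit 12) (.ch
 (nat_lit 11) (.nd (nat_lit 4224) (.br (nat_lit 7) (.br (nat_lit 3) (.ch (nat_lit 0) (.ev (nat_lit 4240)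
 (nat_lit 256) (.ev (nat_lit 7060) (nat_lit 8192) (.ev (nat_lit 7069) (nat_lit 64) .dd)))) (.ch (nat_lit 3)
 (.ev (nat_lit 4240) (nat_lit 64) (.ev (nat_lit 5936) (nat_lit 256) (.ev (nat_lit 5949) (nat_lit 8192) .dd)))))
 (.br (nat_lit 11) (.ch (nat_lit 7) (.ev (nat_lit 4240) (nat_lit 64) (.ev (nat_lit 6512) (nat_lit 8448) .dd)))
 (.ch (nat_lit 11) (.ev (nat_lit 4240) (nat_lit 320) (.ev (nat_lit 4253) (nat_lit 8192) .dd))))))) (.ch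
 (nat_lit 12) (.ev (nat_lit 1664) (nat_lit 256) (.ev (nat_lit 2688) (nat_lit 8256) .dd))))))))) (.ch (nat_lit
 1) (.ev (nat_lit 960) (nat_lit 8512) (.ev (nat_lit 973) (nat_lit 1024) .dd)))) (.br (nat_lit 3) (.ch (nat_lit
 2) (.nd (nat_lit 1456) (.br (nat_lit 4) (.br (nat_lit 1) (.ch (nat_lit 0) (.ev (nat_lit 1472) (nat_lit 8448)
 (.ev (nat_lit 4084) (nat_lit 64) (.ev (nat_lit 4093) (nat_lit 1024) .dd)))) (.br (nat_lit 3) (.ch (nat_lit 1)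
 (.ev (nat_lit 1472) (nat_lit 1088) (.ev (nat_lit 2164) (nat_lit 256) (.ev (nat_lit 2173) (nat_lit 8192)
 .dd)))) (.ch (nat_lit 3) (.ev (nat_lit 1492) (nat_lit 8192) (.ev (nat_lit 3012) (nat_lit 1024) (.ev (nat_lit
 3616) (nat_lit 64) (.ev (nat_lit 3629) (nat_lit 256) .dd))))))) (.br (nat_lit 10) (.br (nat_lit 6) (.ch
 (nat_lit 4) (.ev (nat_lit 1472) (nat_lit 1024) (.nd (nat_lit 3984) (.br (nat_lit 8) (.ch (nat_lit 3) (.ev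
 (nat_lit 4000) (nat_lit 256) (.ev (nat_lit 4932) (nat_lit 8192) (.ev (nat_lit 4941) (nat_lit 64) .dd)))) (.br
 (nat_lit 10) (.ch (nat_lit 8) (.ev (nat_lit 4000) (nat_lit 8192) (.ev (nat_lit 6596) (nat_lit 64) (.ev
 (nat_lit 6605) (nat_lit 256) .dd)))) (.ch (nat_lit 10) (.ev (nat_lit 4996) (nat_lit 8192) (.ev (nat_lit 6596)
 (nat_lit 64) (.ev (nat_lit 6605) (nat_lit 256) .dd))))))))) (.ch (nat_lit 6) (.ev (nat_lit 1472) (nat_lit 256)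
 (.ev (nat_lit 1492) (nat_lit 1024) (.ev (nat_lit 2788) (nat_lit 8192) (.ev (nat_lit 2797) (nat_lit 64)
 .dd)))))) (.br (nat_lit 12) (.ch (nat_lit 10) (.ev (nat_lit 2900) (nat_lit 256) (.ev (nat_lit 4148) (nat_lit
 64) (.nd (nat_lit 4416) (.br (nat_lit 4) (.br (nat_lit 2) (.ch (nat_lit 1) (.fin (nat_lit
 576477794777121376))) (.ch (nat_lit 2) (.ev (nat_lit 4432) (nat_lit 1024) (.ev (nat_lit 4445) (nat_lit 8192)
 .dd)))) (.br (nat_lit 8) (.ch (nat_lit 4) (.ev (nat_lit 4432) (nat_lit 1024) (.ev (nat_lit 4445) (nat_lit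
 8192) .dd))) (.br (nat_lit 12) (.ch (nat_lit 8) (.fin (nat_lit 576376639895061102))) (.ch (nat_lit 12) (.ev
 (nat_lit 4432) (nat_lit 1024) (.ev (nat_lit 4445) (nat_lit 8192) .dd)))))))))) (.ch (nat_lit 12) (.ev (nat_lit
 1472) (nat_lit 8256) (.ev (nat_lit 6500) (nat_lit 1024) (.ev (nat_lit 6509) (nat_lit 256) .dd))))))))) (.ch
 (nat_lit 3) (.ev (nat_lit 960) (nat_lit 1088) (.nd (nat_lit 1968) (.br (nat_lit 10) (.ch (nat_lit 4) (.ev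
 (nat_lit 5300) (nat_lit 8192) (.ev (nat_lit 5309) (nat_lit 256) .dd))) (.br (nat_lit 11) (.ch (nat_lit 10)
 (.ev (nat_lit 3300) (nat_lit 8192) (.ev (nat_lit 3309) (nat_lit 256) .dd))) (.ch (nat_lit 11) (.ev (nat_lit
 6644) (nat_lit 8192) (.ev (nat_lit 6653) (nat_lit 256) .dd)))))))))) (.br (nat_lit 10) (.br (nat_lit 7) (.ch
 (nat_lit 5) (.ev (nat_lit 960) (nat_lit 1344) (.ev (nat_lit 973) (nat_lit 8192) .dd))) (.ch (nat_lit 7) (.ev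
 (nat_lit 960) (nat_lit 8448) (.nd (nat_lit 1744) (.br (nat_lit 3) (.br (nat_lit 2) (.ch (nat_lit 0) (.ev
 (nat_lit 2068) (nat_lit 1024) (.ev (nat_lit 2077) (nat_lit 64) .dd))) (.ch (nat_lit 2) (.ev (nat_lit 1780)
 (nat_lit 1024) (.ev (nat_lit 1789) (nat_lit 64) .dd)))) (.br (nat_lit 5) (.ch (nat_lit 3) (.ev (nat_lit 1760)
 (nat_lit 64) (.ev (nat_lit 1773) (nat_lit 1024) .dd))) (.br (nat_lit 10) (.ch (nat_lit 5) (.ev (nat_lit 6608)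
 (nat_lit 1088) .dd)) (.ch (nat_lit 10) (.ev (nat_lit 3552) (nat_lit 1024) (.ev (nat_lit 3565) (nat_lit 64)
 .dd)))))))))) (.br (nat_lit 11) (.ch (nat_lit 10) (.ev (nat_lit 960) (nat_lit 64) (.nd (nat_lit 1648) (.br
 (nat_lit 5) (.br (nat_lit 1) (.ch (nat_lit 0) (.ev (nat_lit 1664) (nat_lit 1024) (.ev (nat_lit 1876) (nat_lit
 256) (.ev (nat_lit 1885) (nat_lit 8192) .dd)))) (.br (nat_lit 3) (.ch (nat_lit 1) (.ev (nat_lit 1664) (nat_lit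
 256) (.ev (nat_lit 2420) (nat_lit 1024) (.ev (nat_lit 2429) (nat_lit 8192) .dd)))) (.ch (nat_lit 3) (.ev
 (nat_lit 1664) (nat_lit 8192) (.ev (nat_lit 2420) (nat_lit 1024) (.ev (nat_lit 2429) (nat_lit 256) .dd))))))
 (.br (nat_lit 8) (.br (nat_lit 6) (.ch (nat_lit 5) (.ev (nat_lit 1876) (nat_lit 256) (.ev (nat_lit 2196)
 (nat_lit 8192) (.ev (nat_lit 2205) (nat_lit 1024) .dd)))) (.ch (nat_lit 6) (.ev (nat_lit 1664) (nat_lit 8192)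
 (.ev (nat_lit 2704) (nat_lit 1024) (.ev (nat_lit 2717) (nat_lit 256) .dd))))) (.br (nat_lit 12) (.ch (nat_lit
 8) (.ev (nat_lit 1664) (nat_lit 1024) (.ev (nat_lit 3188) (nat_lit 256) (.ev (nat_lit 3197) (nat_lit 8192)
 .dd)))) (.ch (nat_lit 12) (.ev (nat_lit 1664) (nat_lit 1024) (.ev (nat_lit 2016) (nat_lit 8448) .dd)))))))))
 (.br (nat_lit 12) (.ch (nat_lit 11) (.ev (nat_lit 960) (nat_lit 1024) (.nd (nat_lit 1840) (.br (nat_lit 7)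
 (.br (nat_lit 4) (.ch (nat_lit 2) (.ev (nat_lit 3764) (nat_lit 8192) (.ev (nat_lit 5376) (nat_lit 256) (.ev
 (nat_lit 5389) (nat_lit 64) .dd)))) (.br (nat_lit 5) (.ch (nat_lit 4) (.ev (nat_lit 1856) (nat_lit 64) (.ev
 (nat_lit 1892) (nat_lit 8192) (.ev (nat_lit 1901) (nat_lit 256) .dd)))) (.ch (nat_lit 5) (.ev (nat_lit 2004)
 (nat_lit 256) (.ev (nat_lit 3764) (nat_lit 8192) (.ev (nat_lit 3773) (nat_lit 64) .dd)))))) (.br (nat_lit 10)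
 (.ch (nat_lit 7) (.ev (nat_lit 1856) (nat_lit 64) (.ev (nat_lit 1892) (nat_lit 8192) (.ev (nat_lit 1901)
 (nat_lit 256) .dd)))) (.br (nat_lit 11) (.ch (nat_lit 10) (.ev (nat_lit 1856) (nat_lit 8192) (.ev (nat_lit
 5364) (nat_lit 64) (.ev (nat_lit 5373) (nat_lit 256) .dd)))) (.ch (nat_lit 11) (.ev (nat_lit 1856) (nat_lit
 64) (.ev (nat_lit 3824) (nat_lit 8448) .dd))))))))) (.ch (nat_lit 12) (.ev (nat_lit 960) (nat_lit 8192) (.nd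
 (nat_lit 1408) (.br (nat_lit 4) (.br (nat_lit 1) (.ch (nat_lit 0) (.ev (nat_lit 1424) (nat_lit 320) (.ev
 (nat_lit 1437) (nat_lit 1024) .dd))) (.br (nat_lit 3) (.ch (nat_lit 1) (.ev (nat_lit 3332) (nat_lit 64) (.ev
 (nat_lit 3764) (nat_lit 256) (.ev (nat_lit 3773) (nat_lit 1024) .dd)))) (.ch (nat_lit 3) (.ev (nat_lit 1424)
 (nat_lit 256) (.ev (nat_lit 1508) (nat_lit 1024) (.ev (nat_lit 1517) (nat_lit 64) .dd)))))) (.br (nat_lit 11)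
 (.br (nat_lit 8) (.ch (nat_lit 4) (.ev (nat_lit 1424) (nat_lit 256) (.ev (nat_lit 5716) (nat_lit 64) (.ev
 (nat_lit 5725) (nat_lit 1024) .dd)))) (.ch (nat_lit 8) (.ev (nat_lit 1424) (nat_lit 1088) (.ev (nat_lit 1437)
 (nat_lit 256) .dd)))) (.br (nat_lit 12) (.ch (nat_lit 11) (.ev (nat_lit 1424) (nat_lit 256) (.ev (nat_lit
 2244) (nat_lit 64) (.ev (nat_lit 2253) (nat_lit 1024) .dd)))) (.ch (nat_lit 12) (.ev (nat_lit 3012) (nat_lit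
 64) (.ev (nat_lit 5764) (nat_lit 1024) (.ev (nat_lit 5773) (nat_lit 256) .dd)))))))))))))))))) (.br (nat_lit
 11) (.ch (nat_lit 10) (.ev (nat_lit 496) (nat_lit 139264) (.nd (nat_lit 784) (.br (nat_lit 6) (.br (nat_lit 2)
 (.br (nat_lit 1) (.ch (nat_lit 0) (.ev (nat_lit 800) (nat_lit 1282) (.ev (nat_lit 813) (nat_lit 64) .dd)))
 (.ch (nat_lit 1) (.ev (nat_lit 800) (nat_lit 1280) (.ev (nat_lit 1300) (nat_lit 2) (.ev (nat_lit 1309)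
 (nat_lit 64) .dd))))) (.br (nat_lit 4) (.ch (nat_lit 2) (.ev (nat_lit 800) (nat_lit 64) (.ev (nat_lit 1300)
 (nat_lit 2) (.nd (nat_lit 1456) (.br (nat_lit 5) (.br (nat_lit 3) (.br (nat_lit 2) (.ch (nat_lit 0) (.ev
 (nat_lit 1472) (nat_lit 1024) (.ev (nat_lit 1485) (nat_lit 256) .dd))) (.ch (nat_lit 2) (.ev (nat_lit 6788)
 (nat_lit 256) (.ev (nat_lit 6797) (nat_lit 1024) .dd)))) (.br (nat_lit 4) (.ch (nat_lit 3) (.ev (nat_lit 1472)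
 (nat_lit 256) (.ev (nat_lit 1485) (nat_lit 1024) .dd))) (.ch (nat_lit 4) (.ev (nat_lit 3380) (nat_lit 256)
 (.ev (nat_lit 3389) (nat_lit 1024) .dd))))) (.br (nat_lit 8) (.br (nat_lit 7) (.ch (nat_lit 5) (.ev (nat_lit
 1492) (nat_lit 1024) (.ev (nat_lit 1501) (nat_lit 256) .dd))) (.ch (nat_lit 7) (.ev (nat_lit 1472) (nat_lit
 256) (.ev (nat_lit 1485) (nat_lit 1024) .dd)))) (.br (nat_lit 11) (.ch (nat_lit 8) (.ev (nat_lit 1472)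
 (nat_lit 1280) .dd)) (.br (nat_lit 12) (.ch (nat_lit 11) (.ev (nat_lit 1472) (nat_lit 256) (.ev (nat_lit 1485)
 (nat_lit 1024) .dd))) (.ch (nat_lit 12) (.ev (nat_lit 1472) (nat_lit 1024) (.ev (nat_lit 1485) (nat_lit 256)
 .dd))))))))))) (.ch (nat_lit 4) (.ev (nat_lit 800) (nat_lit 1346) .dd)))) (.br (nat_lit 8) (.br (nat_lit 7)
 (.ch (nat_lit 6) (.ev (nat_lit 800) (nat_lit 66) (.nd (nat_lit 1648) (.br (nat_lit 7) (.br (nat_lit 5) (.ch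
 (nat_lit 1) (.ev (nat_lit 1664) (nat_lit 1280) .dd)) (.br (nat_lit 6) (.ch (nat_lit 5) (.ev (nat_lit 1664)
 (nat_lit 256) (.ev (nat_lit 1677) (nat_lit 1024) .dd))) (.ch (nat_lit 6) (.ev (nat_lit 5044) (nat_lit 1024)
 (.ev (nat_lit 5053) (nat_lit 256) .dd))))) (.br (nat_lit 8) (.ch (nat_lit 7) (.ev (nat_lit 1664) (nat_lit
 1280) .dd)) (.br (nat_lit 10) (.ch (nat_lit 8) (.ev (nat_lit 6788) (nat_lit 1024) (.ev (nat_lit 6797) (nat_lit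
 256) .dd))) (.ch (nat_lit 10) (.ev (nat_lit 7188) (nat_lit 256) (.ev (nat_lit 7197) (nat_lit 1024)
 .dd))))))))) (.ch (nat_lit 7) (.ev (nat_lit 800) (nat_lit 2) (.nd (nat_lit 1456) (.br (nat_lit 7) (.br
 (nat_lit 4) (.br (nat_lit 2) (.ch (nat_lit 0) (.ev (nat_lit 1472) (nat_lit 1088) (.ev (nat_lit 1485) (nat_lit
 256) .dd))) (.ch (nat_lit 2) (.ev (nat_lit 1472) (nat_lit 1280) (.ev (nat_lit 1485) (nat_lit 64) .dd)))) (.br
 (nat_lit 5) (.ch (nat_lit 4) (.nd (nat_lit 4304) (.br (nat_lit 5) (.br (nat_lit 3) (.ch (nat_lit 2) (.ev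
 (nat_lit 4320) (nat_lit 256) (.ev (nat_lit 4996) (nat_lit 64) (.ev (nat_lit 5005) (nat_lit 1024) .dd)))) (.ch
 (nat_lit 3) (.ev (nat_lit 4320) (nat_lit 256) (.ev (nat_lit 4468) (nat_lit 64) (.ev (nat_lit 4477) (nat_lit
 1024) .dd))))) (.br (nat_lit 8) (.ch (nat_lit 5) (.ev (nat_lit 4320) (nat_lit 64) (.ev (nat_lit 5248) (nat_lit
 256) (.ev (nat_lit 5261) (nat_lit 1024) .dd)))) (.br (nat_lit 12) (.ch (nat_lit 8) (.ev (nat_lit 4320)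
 (nat_lit 1024) (.ev (nat_lit 4996) (nat_lit 64) (.ev (nat_lit 5005) (nat_lit 256) .dd)))) (.ch (nat_lit 12)
 (.ev (nat_lit 4320) (nat_lit 256) (.ev (nat_lit 4468) (nat_lit 64) (.ev (nat_lit 4477) (nat_lit 1024)
 .dd))))))))) (.ch (nat_lit 5) (.ev (nat_lit 1472) (nat_lit 256) (.ev (nat_lit 6500) (nat_lit 1024) (.ev
 (nat_lit 6509) (nat_lit 64) .dd)))))) (.br (nat_lit 10) (.br (nat_lit 9) (.ch (nat_lit 7) (.nd (nat_lit 4224)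
 (.br (nat_lit 3) (.br (nat_lit 1) (.ch (nat_lit 0) (.ev (nat_lit 4240) (nat_lit 64) (.fin (nat_lit
 576473396720124583)))) (.br (nat_lit 2) (.ch (nat_lit 1) (.ev (nat_lit 4240) (nat_lit 256) (.ev (nat_lit 4356)
 (nat_lit 1024) (.ev (nat_lit 4365) (nat_lit 64) .dd)))) (.ch (nat_lit 2) (.ev (nat_lit 4240) (nat_lit 256)
 (.ev (nat_lit 6080) (nat_lit 1024) (.ev (nat_lit 6093) (nat_lit 64) .dd)))))) (.br (nat_lit 10) (.ch (nat_lit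
 3) (.ev (nat_lit 4240) (nat_lit 256) (.ev (nat_lit 4692) (nat_lit 64) (.ev (nat_lit 4701) (nat_lit 1024)
 .dd)))) (.br (nat_lit 11) (.ch (nat_lit 10) (.ev (nat_lit 5140) (nat_lit 64) (.ev (nat_lit 6032) (nat_lit 256)
 (.ev (nat_lit 6045) (nat_lit 1024) .dd)))) (.ch (nat_lit 11) (.ev (nat_lit 4240) (nat_lit 64) (.ev (nat_lit
 6464) (nat_lit 1280) .dd)))))))) (.ch (nat_lit 9) (.ev (nat_lit 1472) (nat_lit 320) (.ev (nat_lit 1485)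
 (nat_lit 1024) .dd)))) (.br (nat_lit 11) (.ch (nat_lit 10) (.ev (nat_lit 1472) (nat_lit 1024) (.nd (nat_lit
 4864) (.br (nat_lit 4) (.br (nat_lit 3) (.ch (nat_lit 0) (.ev (nat_lit 4880) (nat_lit 256) (.ev (nat_lit 4893)
 (nat_lit 64) .dd))) (.ch (nat_lit 3) (.ev (nat_lit 4880) (nat_lit 64) (.ev (nat_lit 4893) (nat_lit 256)
 .dd)))) (.br (nat_lit 5) (.ch (nat_lit 4) (.ev (nat_lit 4880) (nat_lit 256) (.ev (nat_lit 4893) (nat_lit 64)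
 .dd))) (.ch (nat_lit 5) (.ev (nat_lit 4880) (nat_lit 256) (.ev (nat_lit 4893) (nat_lit 64) .dd)))))))) (.br
 (nat_lit 12) (.ch (nat_lit 11) (.ev (nat_lit 1472) (nat_lit 1024) (.ev (nat_lit 6692) (nat_lit 64) (.ev
 (nat_lit 6701) (nat_lit 256) .dd)))) (.ch (nat_lit 12) (.ev (nat_lit 1472) (nat_lit 64) (.nd (nat_lit 4592)
 (.br (nat_lit 9) (.br (nat_lit 8) (.ch (nat_lit 0) (.ev (nat_lit 4608) (nat_lit 256) (.ev (nat_lit 4621)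
 (nat_lit 1024) .dd))) (.ch (nat_lit 8) (.ev (nat_lit 6464) (nat_lit 1280) .dd))) (.br (nat_lit 10) (.ch
 (nat_lit 9) (.ev (nat_lit 4608) (nat_lit 1024) (.ev (nat_lit 4621) (nat_lit 256) .dd))) (.ch (nat_lit 10) (.ev
 (nat_lit 4644) (nat_lit 1024) (.ev (nat_lit 4653) (nat_lit 256) .dd)))))))))))))))) (.br (nat_lit 10) (.ch
 (nat_lit 8) (.nd (nat_lit 1408) (.br (nat_lit 3) (.br (nat_lit 1) (.ch (nat_lit 0) (.ev (nat_lit 2212)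
 (nat_lit 256) (.ev (nat_lit 3012) (nat_lit 2) (.nd (nat_lit 4304) (.br (nat_lit 9) (.br (nat_lit 2) (.ch
 (nat_lit 1) (.fin (nat_lit 576522874769588904))) (.ch (nat_lit 2) (.ev (nat_lit 4788) (nat_lit 1024) (.ev
 (nat_lit 4797) (nat_lit 64) .dd)))) (.br (nat_lit 10) (.ch (nat_lit 9) (.ev (nat_lit 4672) (nat_lit 1024) (.ev
 (nat_lit 4685) (nat_lit 64) .dd))) (.br (nat_lit 12) (.ch (nat_lit 10) (.ev (nat_lit 6356) (nat_lit 1024) (.ev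
 (nat_lit 6365) (nat_lit 64) .dd))) (.ch (nat_lit 12) (.ev (nat_lit 5140) (nat_lit 64) (.ev (nat_lit 5149)
 (nat_lit 1024) .dd)))))))))) (.br (nat_lit 2) (.ch (nat_lit 1) (.ev (nat_lit 1424) (nat_lit 1024) (.ev
 (nat_lit 2820) (nat_lit 2) (.ev (nat_lit 3284) (nat_lit 256) (.ev (nat_lit 3293) (nat_lit 64) .dd))))) (.ch
 (nat_lit 2) (.ev (nat_lit 1424) (nat_lit 322) (.ev (nat_lit 1437) (nat_lit 1024) .dd))))) (.br (nat_lit 9)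
 (.br (nat_lit 7) (.ch (nat_lit 3) (.ev (nat_lit 1444) (nat_lit 64) (.ev (nat_lit 3012) (nat_lit 2) (.ev
 (nat_lit 6356) (nat_lit 256) (.ev (nat_lit 6365) (nat_lit 1024) .dd))))) (.ch (nat_lit 7) (.ev (nat_lit 1424)
 (nat_lit 1024) (.ev (nat_lit 3700) (nat_lit 256) (.ev (nat_lit 3892) (nat_lit 2) (.ev (nat_lit 3901) (nat_lit
 64) .dd)))))) (.br (nat_lit 11) (.ch (nat_lit 9) (.ev (nat_lit 1424) (nat_lit 258) (.ev (nat_lit 1492)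
 (nat_lit 1024) (.ev (nat_lit 1501) (nat_lit 64) .dd)))) (.ch (nat_lit 11) (.ev (nat_lit 1424) (nat_lit 256)
 (.ev (nat_lit 3700) (nat_lit 2) (.nd (nat_lit 4592) (.br (nat_lit 4) (.br (nat_lit 3) (.ch (nat_lit 0) (.ev
 (nat_lit 4608) (nat_lit 64) (.ev (nat_lit 4621) (nat_lit 1024) .dd))) (.ch (nat_lit 3) (.ev (nat_lit 4608)
 (nat_lit 1024) (.ev (nat_lit 4621) (nat_lit 64) .dd)))) (.br (nat_lit 5) (.ch (nat_lit 4) (.ev (nat_lit 4996)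
 (nat_lit 1024) (.ev (nat_lit 5005) (nat_lit 64) .dd))) (.br (nat_lit 8) (.ch (nat_lit 5) (.ev (nat_lit 4944)
 (nat_lit 64) (.ev (nat_lit 4957) (nat_lit 1024) .dd))) (.ch (nat_lit 8) (.ev (nat_lit 4608) (nat_lit 1024)
 (.ev (nat_lit 4621) (nat_lit 64) .dd))))))))))))))) (.br (nat_lit 12) (.ch (nat_lit 10) (.ev (nat_lit 800)
 (nat_lit 256) (.nd (nat_lit 1744) (.br (nat_lit 6) (.br (nat_lit 1) (.ch (nat_lit 0) (.ev (nat_lit 1760)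
 (nat_lit 2) (.nd (nat_lit 4864) (.br (nat_lit 11) (.br (nat_lit 7) (.ch (nat_lit 1) (.ev (nat_lit 4880)
 (nat_lit 1024) (.ev (nat_lit 4893) (nat_lit 64) .dd))) (.ch (nat_lit 7) (.ev (nat_lit 4880) (nat_lit 1088)
 .dd))) (.br (nat_lit 12) (.ch (nat_lit 11) (.ev (nat_lit 4880) (nat_lit 1024) (.ev (nat_lit 4893) (nat_lit 64)
 .dd))) (.ch (nat_lit 12) (.ev (nat_lit 4996) (nat_lit 1024) (.ev (nat_lit 5005) (nat_lit 64) .dd)))))))) (.br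
 (nat_lit 3) (.ch (nat_lit 1) (.ev (nat_lit 1760) (nat_lit 66) (.ev (nat_lit 1773) (nat_lit 1024) .dd))) (.ch
 (nat_lit 3) (.ev (nat_lit 1760) (nat_lit 1024) (.ev (nat_lit 3476) (nat_lit 2) (.ev (nat_lit 3485) (nat_lit
 64) .dd)))))) (.br (nat_lit 10) (.br (nat_lit 8) (.ch (nat_lit 6) (.ev (nat_lit 1760) (nat_lit 64) (.ev
 (nat_lit 3540) (nat_lit 2) (.ev (nat_lit 3549) (nat_lit 1024) .dd)))) (.ch (nat_lit 8) (.ev (nat_lit 1760)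
 (nat_lit 1024) (.ev (nat_lit 1780) (nat_lit 64) (.ev (nat_lit 1789) (nat_lit 2) .dd))))) (.br (nat_lit 12)
 (.ch (nat_lit 10) (.ev (nat_lit 2788) (nat_lit 1024) (.nd (nat_lit 4592) (.br (nat_lit 6) (.br (nat_lit 2)
 (.ch (nat_lit 1) (.ev (nat_lit 4608) (nat_lit 2) (.ev (nat_lit 4621) (nat_lit 64) .dd))) (.br (nat_lit 4) (.ch
 (nat_lit 2) (.ev (nat_lit 4608) (nat_lit 2) (.ev (nat_lit 4621) (nat_lit 64) .dd))) (.ch (nat_lit 4) (.ev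
 (nat_lit 4692) (nat_lit 64) (.ev (nat_lit 4701) (nat_lit 2) .dd))))) (.br (nat_lit 9) (.br (nat_lit 8) (.ch
 (nat_lit 6) (.ev (nat_lit 4608) (nat_lit 66) .dd)) (.ch (nat_lit 8) (.ev (nat_lit 5248) (nat_lit 2) (.ev
 (nat_lit 5261) (nat_lit 64) .dd)))) (.br (nat_lit 12) (.ch (nat_lit 9) (.ev (nat_lit 4608) (nat_lit 64) (.ev
 (nat_lit 4621) (nat_lit 2) .dd))) (.ch (nat_lit 12) (.ev (nat_lit 4608) (nat_lit 2) (.ev (nat_lit 4621)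
 (nat_lit 64) .dd))))))))) (.ch (nat_lit 12) (.ev (nat_lit 6500) (nat_lit 1024) (.ev (nat_lit 6740) (nat_lit
 64) (.ev (nat_lit 6749) (nat_lit 2) .dd)))))))))) (.ch (nat_lit 12) (.nd (nat_lit 1456) (.br (nat_lit 8) (.br
 (nat_lit 5) (.ch (nat_lit 3) (.ev (nat_lit 1472) (nat_lit 1280) (.ev (nat_lit 2832) (nat_lit 2) (.ev (nat_lit
 2845) (nat_lit 64) .dd)))) (.br (nat_lit 6) (.ch (nat_lit 5) (.ev (nat_lit 1472) (nat_lit 2) (.ev (nat_lit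
 3012) (nat_lit 256) (.ev (nat_lit 5140) (nat_lit 1024) (.ev (nat_lit 5149) (nat_lit 64) .dd))))) (.ch (nat_lit
 6) (.ev (nat_lit 1472) (nat_lit 1024) (.ev (nat_lit 2372) (nat_lit 2) (.ev (nat_lit 6452) (nat_lit 256) (.ev
 (nat_lit 6461) (nat_lit 64) .dd))))))) (.br (nat_lit 11) (.ch (nat_lit 8) (.ev (nat_lit 1472) (nat_lit 2) (.nd
 (nat_lit 4224) (.br (nat_lit 8) (.br (nat_lit 4) (.ch (nat_lit 3) (.ev (nat_lit 5876) (nat_lit 256) (.ev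
 (nat_lit 6400) (nat_lit 1024) (.ev (nat_lit 6413) (nat_lit 64) .dd)))) (.br (nat_lit 6) (.ch (nat_lit 4) (.ev
 (nat_lit 4240) (nat_lit 1088) (.ev (nat_lit 4253) (nat_lit 256) .dd))) (.ch (nat_lit 6) (.ev (nat_lit 4240)
 (nat_lit 64) (.ev (nat_lit 5876) (nat_lit 256) (.ev (nat_lit 5885) (nat_lit 1024) .dd)))))) (.br (nat_lit 9)
 (.ch (nat_lit 8) (.ev (nat_lit 4240) (nat_lit 1024) (.ev (nat_lit 4336) (nat_lit 64) (.ev (nat_lit 4349)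
 (nat_lit 256) .dd)))) (.br (nat_lit 10) (.ch (nat_lit 9) (.ev (nat_lit 4240) (nat_lit 1088) (.ev (nat_lit
 4253) (nat_lit 256) .dd))) (.ch (nat_lit 10) (.ev (nat_lit 4240) (nat_lit 256) (.ev (nat_lit 4692) (nat_lit
 1024) (.ev (nat_lit 4701) (nat_lit 64) .dd)))))))))) (.br (nat_lit 12) (.ch (nat_lit 11) (.ev (nat_lit 2196)
 (nat_lit 64) (.ev (nat_lit 2880) (nat_lit 256) (.ev (nat_lit 2948) (nat_lit 1024) (.ev (nat_lit 2957) (nat_lit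
 2) .dd))))) (.ch (nat_lit 12) (.ev (nat_lit 1472) (nat_lit 1280) (.ev (nat_lit 3540) (nat_lit 2) (.ev (nat_lit
 3549) (nat_lit 64) .dd)))))))))))))))) (.br (nat_lit 12) (.ch (nat_lit 11) (.ev (nat_lit 496) (nat_lit 1344)
 (.nd (nat_lit 1168) (.br (nat_lit 7) (.br (nat_lit 5) (.br (nat_lit 2) (.ch (nat_lit 1) (.ev (nat_lit 1184)
 (nat_lit 8194) (.ev (nat_lit 1197) (nat_lit 131072) .dd))) (.ch (nat_lit 2) (.ev (nat_lit 1184) (nat_lit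
 131072) (.nd (nat_lit 2624) (.br (nat_lit 5) (.br (nat_lit 2) (.ch (nat_lit 0) (.ev (nat_lit 2640) (nat_lit
 8194) .dd)) (.br (nat_lit 4) (.ch (nat_lit 2) (.ev (nat_lit 2640) (nat_lit 8192) (.ev (nat_lit 2653) (nat_lit
 2) .dd))) (.ch (nat_lit 4) (.ev (nat_lit 3476) (nat_lit 8192) (.ev (nat_lit 3485) (nat_lit 2) .dd))))) (.br
 (nat_lit 9) (.br (nat_lit 7) (.ch (nat_lit 5) (.ev (nat_lit 3700) (nat_lit 2) (.ev (nat_lit 3709) (nat_lit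
 8192) .dd))) (.ch (nat_lit 7) (.nd (nat_lit 7664) (.br (nat_lit 10) (.ch (nat_lit 6) (.fin (nat_lit
 576160036026794423))) (.ch (nat_lit 10) (.ev (nat_lit 7684) (nat_lit 2) (.ev (nat_lit 7693) (nat_lit 8192)
 .dd))))))) (.br (nat_lit 10) (.ch (nat_lit 9) (.ev (nat_lit 3476) (nat_lit 8192) (.ev (nat_lit 3485) (nat_lit
 2) .dd))) (.ch (nat_lit 10) (.ev (nat_lit 6868) (nat_lit 8192) (.ev (nat_lit 6877) (nat_lit 2) .dd))))))))))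
 (.br (nat_lit 6) (.ch (nat_lit 5) (.ev (nat_lit 1184) (nat_lit 131072) (.ev (nat_lit 1220) (nat_lit 8192) (.ev
 (nat_lit 1229) (nat_lit 2) .dd)))) (.ch (nat_lit 6) (.ev (nat_lit 1184) (nat_lit 8192) (.nd (nat_lit 3408)
 (.br (nat_lit 9) (.br (nat_lit 2) (.ch (nat_lit 0) (.ev (nat_lit 3424) (nat_lit 131072) (.ev (nat_lit 3437)
 (nat_lit 2) .dd))) (.br (nat_lit 5) (.ch (nat_lit 2) (.ev (nat_lit 6800) (nat_lit 131072) (.ev (nat_lit 6813)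
 (nat_lit 2) .dd))) (.ch (nat_lit 5) (.ev (nat_lit 3424) (nat_lit 2) (.ev (nat_lit 3437) (nat_lit 131072)
 .dd))))) (.br (nat_lit 11) (.br (nat_lit 10) (.ch (nat_lit 9) (.ev (nat_lit 3424) (nat_lit 2) (.ev (nat_lit
 3437) (nat_lit 131072) .dd))) (.ch (nat_lit 10) (.nd (nat_lit 7520) (.br (nat_lit 6) (.ch (nat_lit 0) (.fin
 (nat_lit 576344753529373335))) (.br (nat_lit 11) (.ch (nat_lit 6) (.ev (nat_lit 7536) (nat_lit 131072) (.ev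
 (nat_lit 7549) (nat_lit 2) .dd))) (.ch (nat_lit 11) (.ev (nat_lit 7536) (nat_lit 2) (.ev (nat_lit 7549)
 (nat_lit 131072) .dd)))))))) (.br (nat_lit 12) (.ch (nat_lit 11) (.ev (nat_lit 3764) (nat_lit 131072) (.ev
 (nat_lit 3773) (nat_lit 2) .dd))) (.ch (nat_lit 12) (.ev (nat_lit 3424) (nat_lit 131072) (.ev (nat_lit 3437)
 (nat_lit 2) .dd))))))))))) (.br (nat_lit 9) (.br (nat_lit 8) (.ch (nat_lit 7) (.ev (nat_lit 1184) (nat_lit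
 139264) (.ev (nat_lit 1197) (nat_lit 2) .dd))) (.ch (nat_lit 8) (.ev (nat_lit 1184) (nat_lit 8194) (.ev
 (nat_lit 1197) (nat_lit 131072) .dd)))) (.br (nat_lit 11) (.ch (nat_lit 9) (.ev (nat_lit 1184) (nat_lit 2)
 (.nd (nat_lit 3984) (.br (nat_lit 7) (.ch (nat_lit 2) (.ev (nat_lit 4000) (nat_lit 8192) (.ev (nat_lit 4013)
 (nat_lit 131072) .dd))) (.br (nat_lit 8) (.ch (nat_lit 7) (.ev (nat_lit 4000) (nat_lit 131072) (.ev (nat_lit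
 4013) (nat_lit 8192) .dd))) (.ch (nat_lit 8) (.fin (nat_lit 576461302059713087)))))))) (.br (nat_lit 12) (.ch
 (nat_lit 11) (.ev (nat_lit 1184) (nat_lit 2) (.ev (nat_lit 1204) (nat_lit 8192) (.ev (nat_lit 1213) (nat_lit
 131072) .dd)))) (.ch (nat_lit 12) (.ev (nat_lit 1184) (nat_lit 131072) (.ev (nat_lit 1204) (nat_lit 2) (.ev
 (nat_lit 1213) (nat_lit 8192) .dd))))))))))) (.ch (nat_lit 12) (.ev (nat_lit 496) (nat_lit 256) (.nd (nat_lit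
 880) (.br (nat_lit 7) (.br (nat_lit 3) (.br (nat_lit 2) (.ch (nat_lit 0) (.ev (nat_lit 896) (nat_lit 140352)
 (.ev (nat_lit 909) (nat_lit 2) .dd))) (.ch (nat_lit 2) (.ev (nat_lit 896) (nat_lit 8256) (.ev (nat_lit 980)
 (nat_lit 131072) (.nd (nat_lit 1840) (.br (nat_lit 7) (.br (nat_lit 4) (.ch (nat_lit 3) (.ev (nat_lit 2004)
 (nat_lit 2) (.ev (nat_lit 2013) (nat_lit 1024) .dd))) (.br (nat_lit 5) (.ch (nat_lit 4) (.ev (nat_lit 2004)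
 (nat_lit 2) (.ev (nat_lit 2013) (nat_lit 1024) .dd))) (.ch (nat_lit 5) (.ev (nat_lit 1856) (nat_lit 1024) (.ev
 (nat_lit 1869) (nat_lit 2) .dd))))) (.br (nat_lit 10) (.ch (nat_lit 7) (.ev (nat_lit 7028) (nat_lit 2) (.ev
 (nat_lit 7037) (nat_lit 1024) .dd))) (.br (nat_lit 12) (.ch (nat_lit 10) (.ev (nat_lit 1856) (nat_lit 2) (.ev
 (nat_lit 1869) (nat_lit 1024) .dd))) (.ch (nat_lit 12) (.ev (nat_lit 1856) (nat_lit 1026) .dd)))))))))) (.br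
 (nat_lit 6) (.ch (nat_lit 3) (.ev (nat_lit 896) (nat_lit 1024) (.nd (nat_lit 1744) (.br (nat_lit 6) (.br
 (nat_lit 3) (.br (nat_lit 2) (.ch (nat_lit 1) (.ev (nat_lit 1760) (nat_lit 8192) (.ev (nat_lit 2900) (nat_lit
 2) (.ev (nat_lit 5236) (nat_lit 64) (.ev (nat_lit 5245) (nat_lit 131072) .dd))))) (.ch (nat_lit 2) (.ev
 (nat_lit 1760) (nat_lit 131074) (.ev (nat_lit 1780) (nat_lit 64) (.ev (nat_lit 1789) (nat_lit 8192) .dd)))))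
 (.br (nat_lit 4) (.ch (nat_lit 3) (.ev (nat_lit 1760) (nat_lit 139264) (.ev (nat_lit 1876) (nat_lit 2) (.ev
 (nat_lit 1885) (nat_lit 64) .dd)))) (.ch (nat_lit 4) (.ev (nat_lit 1760) (nat_lit 8192) (.ev (nat_lit 6500)
 (nat_lit 64) (.ev (nat_lit 6596) (nat_lit 2) (.ev (nat_lit 6605) (nat_lit 131072) .dd))))))) (.br (nat_lit 11)
 (.br (nat_lit 10) (.ch (nat_lit 6) (.ev (nat_lit 1760) (nat_lit 131136) (.ev (nat_lit 2036) (nat_lit 2) (.ev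
 (nat_lit 2045) (nat_lit 8192) .dd)))) (.ch (nat_lit 10) (.ev (nat_lit 1760) (nat_lit 139328) (.ev (nat_lit
 1773) (nat_lit 2) .dd)))) (.br (nat_lit 12) (.ch (nat_lit 11) (.ev (nat_lit 1760) (nat_lit 8192) (.ev (nat_lit
 3220) (nat_lit 64) (.ev (nat_lit 3284) (nat_lit 2) (.ev (nat_lit 3293) (nat_lit 131072) .dd))))) (.ch (nat_lit
 12) (.ev (nat_lit 1760) (nat_lit 139266) (.ev (nat_lit 1773) (nat_lit 64) .dd))))))))) (.ch (nat_lit 6) (.ev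
 (nat_lit 896) (nat_lit 8194) (.nd (nat_lit 1744) (.br (nat_lit 7) (.br (nat_lit 4) (.br (nat_lit 2) (.ch
 (nat_lit 1) (.ev (nat_lit 2452) (nat_lit 131072) (.nd (nat_lit 7360) (.ch (nat_lit 3) (.nd (nat_lit 9024) (.br
 (nat_lit 7) (.ch (nat_lit 6) (.ev (nat_lit 9040) (nat_lit 1024) (.ev (nat_lit 9053) (nat_lit 64) .dd))) (.ch
 (nat_lit 7) (.nd (nat_lit 9568) (.ch (nat_lit 7) (.nd (nat_lit 9760) (.br (nat_lit 10) (.ch (nat_lit 5) (.fin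
 (nat_lit 575561899515014447))) (.ch (nat_lit 10) (.ev (nat_lit 9780) (nat_lit 64) (.ev (nat_lit 9789) (nat_lit
 1024) .dd)))))))))))))) (.ch (nat_lit 2) (.ev (nat_lit 1760) (nat_lit 1024) (.ev (nat_lit 2036) (nat_lit
 131072) (.ev (nat_lit 2045) (nat_lit 64) .dd))))) (.br (nat_lit 6) (.ch (nat_lit 4) (.ev (nat_lit 3220)
 (nat_lit 131072) (.ev (nat_lit 6356) (nat_lit 64) (.ev (nat_lit 6365) (nat_lit 1024) .dd)))) (.ch (nat_lit 6)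
 (.ev (nat_lit 1760) (nat_lit 132096) (.ev (nat_lit 1773) (nat_lit 64) .dd))))) (.br (nat_lit 11) (.br (nat_lit
 8) (.ch (nat_lit 7) (.ev (nat_lit 1760) (nat_lit 132096) (.ev (nat_lit 1773) (nat_lit 64) .dd))) (.ch (nat_lit
 8) (.ev (nat_lit 1760) (nat_lit 64) (.ev (nat_lit 1892) (nat_lit 131072) (.ev (nat_lit 1901) (nat_lit 1024)
 .dd))))) (.br (nat_lit 12) (.ch (nat_lit 11) (.ev (nat_lit 1760) (nat_lit 131072) (.ev (nat_lit 3652) (nat_lit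
 1024) (.ev (nat_lit 3661) (nat_lit 64) .dd)))) (.ch (nat_lit 12) (.ev (nat_lit 1760) (nat_lit 64) (.ev
 (nat_lit 2180) (nat_lit 1024) (.ev (nat_lit 2189) (nat_lit 131072) .dd)))))))))))) (.br (nat_lit 10) (.br
 (nat_lit 9) (.ch (nat_lit 7) (.ev (nat_lit 896) (nat_lit 131138) (.ev (nat_lit 1044) (nat_lit 8192) (.ev
 (nat_lit 1053) (nat_lit 1024) .dd)))) (.ch (nat_lit 9) (.ev (nat_lit 896) (nat_lit 139264) (.nd (nat_lit 1648)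
 (.br (nat_lit 6) (.br (nat_lit 3) (.ch (nat_lit 0) (.ev (nat_lit 2036) (nat_lit 1024) (.ev (nat_lit 7040)
 (nat_lit 66) .dd))) (.br (nat_lit 4) (.ch (nat_lit 3) (.ev (nat_lit 1664) (nat_lit 1024) (.nd (nat_lit 4416)
 (.br (nat_lit 6) (.br (nat_lit 4) (.ch (nat_lit 0) (.ev (nat_lit 4432) (nat_lit 64) (.ev (nat_lit 4445)
 (nat_lit 2) .dd))) (.ch (nat_lit 4) (.ev (nat_lit 4432) (nat_lit 2) (.ev (nat_lit 4445) (nat_lit 64) .dd))))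
 (.br (nat_lit 11) (.ch (nat_lit 6) (.ev (nat_lit 5444) (nat_lit 64) (.ev (nat_lit 5453) (nat_lit 2) .dd)))
 (.ch (nat_lit 11) (.ev (nat_lit 4532) (nat_lit 64) (.ev (nat_lit 4541) (nat_lit 2) .dd)))))))) (.ch (nat_lit
 4) (.ev (nat_lit 1664) (nat_lit 1026) (.ev (nat_lit 1677) (nat_lit 64) .dd))))) (.br (nat_lit 8) (.br (nat_lit
 7) (.ch (nat_lit 6) (.ev (nat_lit 1664) (nat_lit 1088) (.ev (nat_lit 1677) (nat_lit 2) .dd))) (.ch (nat_lit 7)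
 (.ev (nat_lit 1664) (nat_lit 64) (.ev (nat_lit 6452) (nat_lit 2) (.ev (nat_lit 6461) (nat_lit 1024) .dd)))))
 (.br (nat_lit 10) (.ch (nat_lit 8) (.ev (nat_lit 3604) (nat_lit 2) (.ev (nat_lit 6356) (nat_lit 1024) (.ev
 (nat_lit 6365) (nat_lit 64) .dd)))) (.ch (nat_lit 10) (.ev (nat_lit 1664) (nat_lit 1026) (.ev (nat_lit 1677)
 (nat_lit 64) .dd)))))))))) (.br (nat_lit 11) (.ch (nat_lit 10) (.ev (nat_lit 896) (nat_lit 1024) (.nd (nat_lit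
 1408) (.br (nat_lit 6) (.br (nat_lit 3) (.br (nat_lit 1) (.ch (nat_lit 0) (.ev (nat_lit 1424) (nat_lit 139264)
 (.nd (nat_lit 4304) (.br (nat_lit 7) (.br (nat_lit 2) (.ch (nat_lit 1) (.ev (nat_lit 4320) (nat_lit 2) (.ev
 (nat_lit 4333) (nat_lit 64) .dd))) (.ch (nat_lit 2) (.ev (nat_lit 6148) (nat_lit 2) (.ev (nat_lit 6157)
 (nat_lit 64) .dd)))) (.br (nat_lit 11) (.ch (nat_lit 7) (.ev (nat_lit 5444) (nat_lit 2) (.ev (nat_lit 5453)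
 (nat_lit 64) .dd))) (.ch (nat_lit 11) (.ev (nat_lit 4356) (nat_lit 2) (.ev (nat_lit 4365) (nat_lit 64)
 .dd)))))))) (.ch (nat_lit 1) (.ev (nat_lit 1424) (nat_lit 139266) (.ev (nat_lit 1437) (nat_lit 64) .dd))))
 (.br (nat_lit 4) (.ch (nat_lit 3) (.ev (nat_lit 1424) (nat_lit 8258) (.ev (nat_lit 1437) (nat_lit 131072)
 .dd))) (.ch (nat_lit 4) (.ev (nat_lit 2180) (nat_lit 131072) (.ev (nat_lit 3488) (nat_lit 8192) (.ev (nat_lit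
 6020) (nat_lit 2) (.ev (nat_lit 6029) (nat_lit 64) .dd))))))) (.br (nat_lit 8) (.br (nat_lit 7) (.ch (nat_lit
 6) (.ev (nat_lit 1424) (nat_lit 8192) (.nd (nat_lit 4304) (.br (nat_lit 3) (.br (nat_lit 1) (.ch (nat_lit 0)
 (.ev (nat_lit 4724) (nat_lit 2) (.fin (nat_lit 576471197686383217)))) (.ch (nat_lit 1) (.ev (nat_lit 4320)
 (nat_lit 64) (.ev (nat_lit 4468) (nat_lit 131072) (.ev (nat_lit 4477) (nat_lit 2) .dd))))) (.br (nat_lit 5)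
 (.ch (nat_lit 3) (.ev (nat_lit 4320) (nat_lit 64) (.fin (nat_lit 576559158814786251)))) (.br (nat_lit 6) (.ch
 (nat_lit 5) (.ev (nat_lit 4468) (nat_lit 131072) (.ev (nat_lit 5140) (nat_lit 2) (.ev (nat_lit 5149) (nat_lit
 64) .dd)))) (.ch (nat_lit 6) (.ev (nat_lit 4468) (nat_lit 131072) (.ev (nat_lit 4532) (nat_lit 2) (.ev
 (nat_lit 4541) (nat_lit 64) .dd)))))))))) (.ch (nat_lit 7) (.ev (nat_lit 1424) (nat_lit 139264) (.ev (nat_lit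
 3924) (nat_lit 2) (.ev (nat_lit 3933) (nat_lit 64) .dd))))) (.br (nat_lit 9) (.ch (nat_lit 8) (.ev (nat_lit
 1424) (nat_lit 66) (.ev (nat_lit 2752) (nat_lit 8192) (.ev (nat_lit 2765) (nat_lit 131072) .dd)))) (.ch
 (nat_lit 9) (.ev (nat_lit 2116) (nat_lit 2) (.ev (nat_lit 2788) (nat_lit 8192) (.nd (nat_lit 4864) (.br
 (nat_lit 10) (.br (nat_lit 4) (.ch (nat_lit 1) (.ev (nat_lit 4932) (nat_lit 64) (.ev (nat_lit 4941) (nat_lit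
 131072) .dd))) (.ch (nat_lit 4) (.ev (nat_lit 4880) (nat_lit 131072) (.ev (nat_lit 4893) (nat_lit 64) .dd))))
 (.br (nat_lit 11) (.ch (nat_lit 10) (.ev (nat_lit 4880) (nat_lit 131072) (.ev (nat_lit 4893) (nat_lit 64)
 .dd))) (.ch (nat_lit 11) (.ev (nat_lit 4880) (nat_lit 64) (.ev (nat_lit 4893) (nat_lit 131072)
 .dd))))))))))))))) (.br (nat_lit 12) (.ch (nat_lit 11) (.nd (nat_lit 1552) (.br (nat_lit 4) (.br (nat_lit 2)
 (.br (nat_lit 1) (.ch (nat_lit 0) (.ev (nat_lit 1568) (nat_lit 131074) (.ev (nat_lit 2164) (nat_lit 8192) (.ev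
 (nat_lit 4896) (nat_lit 1024) (.ev (nat_lit 4909) (nat_lit 64) .dd))))) (.ch (nat_lit 1) (.ev (nat_lit 1568)
 (nat_lit 131138) (.ev (nat_lit 2868) (nat_lit 8192) (.ev (nat_lit 2877) (nat_lit 1024) .dd))))) (.br (nat_lit
 3) (.ch (nat_lit 2) (.ev (nat_lit 1568) (nat_lit 131138) (.ev (nat_lit 2900) (nat_lit 1024) (.ev (nat_lit
 2909) (nat_lit 8192) .dd)))) (.ch (nat_lit 3) (.ev (nat_lit 1568) (nat_lit 8192) (.ev (nat_lit 3652) (nat_lit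
 1024) (.ev (nat_lit 6320) (nat_lit 64) (.ev (nat_lit 7028) (nat_lit 2) (.ev (nat_lit 7037) (nat_lit 131072)
 .dd)))))))) (.br (nat_lit 6) (.br (nat_lit 5) (.ch (nat_lit 4) (.ev (nat_lit 1568) (nat_lit 1024) (.ev
 (nat_lit 3652) (nat_lit 64) (.ev (nat_lit 6900) (nat_lit 8192) (.nd (nat_lit 7696) (.ch (nat_lit 0) (.nd
 (nat_lit 8896) (.br (nat_lit 11) (.ch (nat_lit 9) (.fin (nat_lit 576451406476034614))) (.ch (nat_lit 11) (.ev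
 (nat_lit 8912) (nat_lit 2) (.ev (nat_lit 8925) (nat_lit 131072) .dd))))))))))) (.ch (nat_lit 5) (.ev (nat_lit
 1568) (nat_lit 8192) (.ev (nat_lit 1684) (nat_lit 131072) (.ev (nat_lit 1796) (nat_lit 64) (.nd (nat_lit 4304)
 (.br (nat_lit 3) (.br (nat_lit 1) (.ch (nat_lit 0) (.ev (nat_lit 4320) (nat_lit 1024) (.ev (nat_lit 4333)
 (nat_lit 2) .dd))) (.ch (nat_lit 1) (.ev (nat_lit 5924) (nat_lit 2) (.ev (nat_lit 5933) (nat_lit 1024) .dd))))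
 (.br (nat_lit 5) (.ch (nat_lit 3) (.ev (nat_lit 5264) (nat_lit 1026) .dd)) (.ch (nat_lit 5) (.ev (nat_lit
 4356) (nat_lit 2) (.ev (nat_lit 4365) (nat_lit 1024) .dd))))))))))) (.br (nat_lit 9) (.ch (nat_lit 6) (.ev
 (nat_lit 1568) (nat_lit 132096) (.ev (nat_lit 2948) (nat_lit 64) (.ev (nat_lit 6148) (nat_lit 2) (.ev (nat_lit
 6157) (nat_lit 8192) .dd))))) (.br (nat_lit 12) (.ch (nat_lit 9) (.ev (nat_lit 1568) (nat_lit 1088) (.ev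
 (nat_lit 2164) (nat_lit 8192) (.ev (nat_lit 2740) (nat_lit 131072) (.ev (nat_lit 2749) (nat_lit 2) .dd)))))
 (.ch (nat_lit 12) (.ev (nat_lit 1568) (nat_lit 9280) (.ev (nat_lit 1684) (nat_lit 131072) (.ev (nat_lit 1693)
 (nat_lit 2) .dd)))))))))) (.ch (nat_lit 12) (.ev (nat_lit 896) (nat_lit 2) (.nd (nat_lit 1744) (.br (nat_lit
 5) (.br (nat_lit 3) (.br (nat_lit 2) (.ch (nat_lit 0) (.ev (nat_lit 1760) (nat_lit 8192) (.ev (nat_lit 3776)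
 (nat_lit 131072) (.ev (nat_lit 5492) (nat_lit 1024) (.ev (nat_lit 5501) (nat_lit 64) .dd))))) (.ch (nat_lit 2)
 (.ev (nat_lit 1760) (nat_lit 8256) (.ev (nat_lit 1876) (nat_lit 1024) (.ev (nat_lit 1885) (nat_lit 131072)
 .dd))))) (.br (nat_lit 4) (.ch (nat_lit 3) (.ev (nat_lit 1760) (nat_lit 1088) (.ev (nat_lit 3700) (nat_lit
 8192) (.ev (nat_lit 3709) (nat_lit 131072) .dd)))) (.ch (nat_lit 4) (.ev (nat_lit 1760) (nat_lit 132160) (.ev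
 (nat_lit 1773) (nat_lit 8192) .dd))))) (.br (nat_lit 10) (.br (nat_lit 6) (.ch (nat_lit 5) (.ev (nat_lit 1760)
 (nat_lit 140288) (.ev (nat_lit 1773) (nat_lit 64) .dd))) (.ch (nat_lit 6) (.ev (nat_lit 1760) (nat_lit 139328)
 (.ev (nat_lit 1773) (nat_lit 1024) .dd)))) (.br (nat_lit 11) (.ch (nat_lit 10) (.ev (nat_lit 1760) (nat_lit
 8256) (.ev (nat_lit 1876) (nat_lit 1024) (.ev (nat_lit 1885) (nat_lit 131072) .dd)))) (.br (nat_lit 12) (.ch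
 (nat_lit 11) (.ev (nat_lit 3284) (nat_lit 64) (.ev (nat_lit 3744) (nat_lit 9216) (.ev (nat_lit 3757) (nat_lit
 131072) .dd)))) (.ch (nat_lit 12) (.ev (nat_lit 1760) (nat_lit 139264) (.ev (nat_lit 5236) (nat_lit 64) (.ev
 (nat_lit 5245) (nat_lit 1024) .dd)))))))))))))))))))))))))) (.br (nat_lit 10) (.ch (nat_lit 9) (.ev (nat_lit
 48) (nat_lit 43330) (.nd (nat_lit 272) (.br (nat_lit 8) (.br (nat_lit 5) (.br (nat_lit 3) (.ch (nat_lit 0)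
 (.ev (nat_lit 288) (nat_lit 196608) (.ev (nat_lit 301) (nat_lit 1024) .dd))) (.ch (nat_lit 3) (.ev (nat_lit
 288) (nat_lit 131072) (.nd (nat_lit 1264) (.br (nat_lit 6) (.br (nat_lit 4) (.ch (nat_lit 2) (.ev (nat_lit
 1300) (nat_lit 1024) (.ev (nat_lit 1309) (nat_lit 65536) .dd))) (.br (nat_lit 5) (.ch (nat_lit 4) (.ev
 (nat_lit 3540) (nat_lit 65536) (.ev (nat_lit 3549) (nat_lit 1024) .dd))) (.ch (nat_lit 5) (.ev (nat_lit 1280)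
 (nat_lit 1024) (.ev (nat_lit 1293) (nat_lit 65536) .dd))))) (.br (nat_lit 8) (.br (nat_lit 7) (.ch (nat_lit 6)
 (.ev (nat_lit 1280) (nat_lit 65536) (.ev (nat_lit 1293) (nat_lit 1024) .dd))) (.ch (nat_lit 7) (.ev (nat_lit
 1280) (nat_lit 65536) (.ev (nat_lit 1293) (nat_lit 1024) .dd)))) (.br (nat_lit 12) (.ch (nat_lit 8) (.ev
 (nat_lit 1300) (nat_lit 1024) (.ev (nat_lit 1309) (nat_lit 65536) .dd))) (.ch (nat_lit 12) (.nd (nat_lit 3408)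
 (.br (nat_lit 9) (.br (nat_lit 1) (.ch (nat_lit 0) (.ev (nat_lit 3476) (nat_lit 1024) (.ev (nat_lit 3485)
 (nat_lit 65536) .dd))) (.ch (nat_lit 1) (.fin (nat_lit 576110557917561863)))) (.br (nat_lit 11) (.ch (nat_lit
 9) (.ev (nat_lit 3476) (nat_lit 65536) (.ev (nat_lit 3485) (nat_lit 1024) .dd))) (.ch (nat_lit 11) (.ev
 (nat_lit 3476) (nat_lit 65536) (.ev (nat_lit 3485) (nat_lit 1024) .dd)))))))))))))) (.br (nat_lit 6) (.ch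
 (nat_lit 5) (.ev (nat_lit 288) (nat_lit 1024) (.nd (nat_lit 1088) (.br (nat_lit 6) (.br (nat_lit 2) (.ch
 (nat_lit 0) (.nd (nat_lit 3408) (.br (nat_lit 10) (.ch (nat_lit 4) (.ev (nat_lit 3424) (nat_lit 65536) (.ev
 (nat_lit 3437) (nat_lit 131072) .dd))) (.br (nat_lit 12) (.ch (nat_lit 10) (.ev (nat_lit 3476) (nat_lit
 131072) (.ev (nat_lit 3485) (nat_lit 65536) .dd))) (.ch (nat_lit 12) (.ev (nat_lit 3424) (nat_lit 131072) (.ev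
 (nat_lit 3437) (nat_lit 65536) .dd))))))) (.br (nat_lit 5) (.ch (nat_lit 2) (.nd (nat_lit 2336) (.br (nat_lit
 6) (.br (nat_lit 5) (.ch (nat_lit 0) (.ev (nat_lit 2352) (nat_lit 65536) (.ev (nat_lit 2365) (nat_lit 131072)
 .dd))) (.ch (nat_lit 5) (.ev (nat_lit 3476) (nat_lit 65536) (.ev (nat_lit 3485) (nat_lit 131072) .dd)))) (.br
 (nat_lit 11) (.ch (nat_lit 6) (.ev (nat_lit 2352) (nat_lit 131072) (.ev (nat_lit 2365) (nat_lit 65536) .dd)))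
 (.br (nat_lit 12) (.ch (nat_lit 11) (.ev (nat_lit 2352) (nat_lit 65536) (.ev (nat_lit 2365) (nat_lit 131072)
 .dd))) (.ch (nat_lit 12) (.ev (nat_lit 2740) (nat_lit 65536) (.ev (nat_lit 2749) (nat_lit 131072) .dd))))))))
 (.ch (nat_lit 5) (.ev (nat_lit 1104) (nat_lit 131072) (.ev (nat_lit 1117) (nat_lit 65536) .dd))))) (.br
 (nat_lit 11) (.br (nat_lit 10) (.ch (nat_lit 6) (.ev (nat_lit 1104) (nat_lit 65536) (.ev (nat_lit 1117)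
 (nat_lit 131072) .dd))) (.ch (nat_lit 10) (.ev (nat_lit 1104) (nat_lit 65536) (.ev (nat_lit 1117) (nat_lit
 131072) .dd)))) (.br (nat_lit 12) (.ch (nat_lit 11) (.ev (nat_lit 1104) (nat_lit 131072) (.ev (nat_lit 1117)
 (nat_lit 65536) .dd))) (.ch (nat_lit 12) (.nd (nat_lit 2128) (.br (nat_lit 7) (.br (nat_lit 5) (.ch (nat_lit
 4) (.ev (nat_lit 2144) (nat_lit 131072) (.ev (nat_lit 2157) (nat_lit 65536) .dd))) (.br (nat_lit 6) (.ch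
 (nat_lit 5) (.ev (nat_lit 2788) (nat_lit 131072) (.ev (nat_lit 2797) (nat_lit 65536) .dd))) (.ch (nat_lit 6)
 (.ev (nat_lit 2144) (nat_lit 131072) (.ev (nat_lit 2157) (nat_lit 65536) .dd))))) (.br (nat_lit 10) (.br
 (nat_lit 9) (.ch (nat_lit 7) (.ev (nat_lit 2144) (nat_lit 131072) (.ev (nat_lit 2157) (nat_lit 65536) .dd)))
 (.ch (nat_lit 9) (.ev (nat_lit 2144) (nat_lit 65536) (.ev (nat_lit 2157) (nat_lit 131072) .dd)))) (.br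
 (nat_lit 11) (.ch (nat_lit 10) (.ev (nat_lit 2144) (nat_lit 65536) (.ev (nat_lit 2157) (nat_lit 131072) .dd)))
 (.ch (nat_lit 11) (.ev (nat_lit 2144) (nat_lit 65536) (.ev (nat_lit 2157) (nat_lit 131072) .dd))))))))))))))
 (.ch (nat_lit 6) (.ev (nat_lit 288) (nat_lit 66560) (.ev (nat_lit 301) (nat_lit 131072) .dd))))) (.br (nat_lit
 10) (.br (nat_lit 9) (.ch (nat_lit 8) (.nd (nat_lit 880) (.br (nat_lit 5) (.br (nat_lit 3) (.br (nat_lit 2)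
 (.ch (nat_lit 0) (.nd (nat_lit 1968) (.br (nat_lit 8) (.br (nat_lit 4) (.br (nat_lit 2) (.ch (nat_lit 0) (.ev
 (nat_lit 1984) (nat_lit 1024) (.ev (nat_lit 2948) (nat_lit 131072) (.ev (nat_lit 2957) (nat_lit 65536) .dd))))
 (.ch (nat_lit 2) (.ev (nat_lit 1984) (nat_lit 131072) (.ev (nat_lit 2164) (nat_lit 65536) (.ev (nat_lit 2173)
 (nat_lit 1024) .dd))))) (.br (nat_lit 6) (.ch (nat_lit 4) (.ev (nat_lit 1984) (nat_lit 131072) (.ev (nat_lit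
 3652) (nat_lit 1024) (.ev (nat_lit 3661) (nat_lit 65536) .dd)))) (.ch (nat_lit 6) (.ev (nat_lit 1984) (nat_lit
 66560) (.ev (nat_lit 1997) (nat_lit 131072) .dd))))) (.br (nat_lit 11) (.br (nat_lit 10) (.ch (nat_lit 8) (.ev
 (nat_lit 1984) (nat_lit 66560) (.ev (nat_lit 1997) (nat_lit 131072) .dd))) (.ch (nat_lit 10) (.ev (nat_lit
 1984) (nat_lit 65536) (.ev (nat_lit 7124) (nat_lit 1024) (.ev (nat_lit 7133) (nat_lit 131072) .dd))))) (.br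
 (nat_lit 12) (.ch (nat_lit 11) (.ev (nat_lit 1984) (nat_lit 131072) (.ev (nat_lit 2948) (nat_lit 1024) (.ev
 (nat_lit 2957) (nat_lit 65536) .dd)))) (.ch (nat_lit 12) (.ev (nat_lit 1984) (nat_lit 1024) (.ev (nat_lit
 2868) (nat_lit 131072) (.ev (nat_lit 2877) (nat_lit 65536) .dd))))))))) (.ch (nat_lit 2) (.nd (nat_lit 1552)
 (.br (nat_lit 4) (.br (nat_lit 2) (.ch (nat_lit 1) (.ev (nat_lit 1568) (nat_lit 66560) (.ev (nat_lit 1581)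
 (nat_lit 131072) .dd))) (.br (nat_lit 3) (.ch (nat_lit 2) (.ev (nat_lit 1568) (nat_lit 65536) (.ev (nat_lit
 3012) (nat_lit 1024) (.ev (nat_lit 3021) (nat_lit 131072) .dd)))) (.ch (nat_lit 3) (.ev (nat_lit 2788)
 (nat_lit 131072) (.ev (nat_lit 5808) (nat_lit 66560) .dd))))) (.br (nat_lit 9) (.br (nat_lit 5) (.ch (nat_lit
 4) (.ev (nat_lit 1568) (nat_lit 131072) (.nd (nat_lit 4304) (.br (nat_lit 7) (.br (nat_lit 2) (.ch (nat_lit 0)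
 (.ev (nat_lit 4932) (nat_lit 1024) (.ev (nat_lit 4941) (nat_lit 65536) .dd))) (.br (nat_lit 3) (.ch (nat_lit
 2) (.ev (nat_lit 4320) (nat_lit 65536) (.ev (nat_lit 4333) (nat_lit 1024) .dd))) (.ch (nat_lit 3) (.ev
 (nat_lit 6148) (nat_lit 65536) (.ev (nat_lit 6157) (nat_lit 1024) .dd))))) (.br (nat_lit 8) (.ch (nat_lit 7)
 (.ev (nat_lit 4320) (nat_lit 1024) (.ev (nat_lit 4333) (nat_lit 65536) .dd))) (.br (nat_lit 9) (.ch (nat_lit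
 8) (.ev (nat_lit 5540) (nat_lit 1024) (.ev (nat_lit 5549) (nat_lit 65536) .dd))) (.ch (nat_lit 9) (.ev
 (nat_lit 4320) (nat_lit 1024) (.ev (nat_lit 4333) (nat_lit 65536) .dd))))))))) (.ch (nat_lit 5) (.nd (nat_lit
 4224) (.br (nat_lit 7) (.br (nat_lit 4) (.ch (nat_lit 0) (.ev (nat_lit 4240) (nat_lit 1024) (.ev (nat_lit
 6452) (nat_lit 65536) (.ev (nat_lit 6461) (nat_lit 131072) .dd)))) (.br (nat_lit 6) (.ch (nat_lit 4) (.ev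
 (nat_lit 4240) (nat_lit 1024) (.ev (nat_lit 4388) (nat_lit 65536) (.ev (nat_lit 4397) (nat_lit 131072) .dd))))
 (.ch (nat_lit 6) (.ev (nat_lit 4240) (nat_lit 131072) (.ev (nat_lit 4356) (nat_lit 65536) (.ev (nat_lit 4365)
 (nat_lit 1024) .dd)))))) (.br (nat_lit 9) (.br (nat_lit 8) (.ch (nat_lit 7) (.ev (nat_lit 4240) (nat_lit
 131072) (.ev (nat_lit 5044) (nat_lit 1024) (.ev (nat_lit 5053) (nat_lit 65536) .dd)))) (.ch (nat_lit 8) (.ev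
 (nat_lit 4240) (nat_lit 66560) (.ev (nat_lit 4253) (nat_lit 131072) .dd)))) (.br (nat_lit 12) (.ch (nat_lit 9)
 (.ev (nat_lit 4240) (nat_lit 131072) (.ev (nat_lit 4388) (nat_lit 65536) (.ev (nat_lit 4397) (nat_lit 1024)
 .dd)))) (.ch (nat_lit 12) (.ev (nat_lit 4240) (nat_lit 66560) (.ev (nat_lit 4253) (nat_lit 131072)
 .dd))))))))) (.br (nat_lit 12) (.ch (nat_lit 9) (.ev (nat_lit 2900) (nat_lit 1024) (.ev (nat_lit 6452)
 (nat_lit 131072) (.ev (nat_lit 6461) (nat_lit 65536) .dd)))) (.ch (nat_lit 12) (.ev (nat_lit 1568) (nat_lit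
 132096) (.ev (nat_lit 1581) (nat_lit 65536) .dd))))))))) (.br (nat_lit 4) (.ch (nat_lit 3) (.nd (nat_lit 1968)
 (.br (nat_lit 5) (.br (nat_lit 3) (.br (nat_lit 2) (.ch (nat_lit 0) (.ev (nat_lit 1984) (nat_lit 65536) (.ev
 (nat_lit 2004) (nat_lit 1024) (.ev (nat_lit 2013) (nat_lit 131072) .dd)))) (.ch (nat_lit 2) (.ev (nat_lit
 1984) (nat_lit 65536) (.ev (nat_lit 2004) (nat_lit 131072) (.ev (nat_lit 2013) (nat_lit 1024) .dd))))) (.br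
 (nat_lit 4) (.ch (nat_lit 3) (.ev (nat_lit 5764) (nat_lit 131072) (.ev (nat_lit 6500) (nat_lit 65536) (.ev
 (nat_lit 6509) (nat_lit 1024) .dd)))) (.ch (nat_lit 4) (.ev (nat_lit 1984) (nat_lit 132096) (.ev (nat_lit
 1997) (nat_lit 65536) .dd))))) (.br (nat_lit 10) (.br (nat_lit 9) (.ch (nat_lit 5) (.ev (nat_lit 2564)
 (nat_lit 131072) (.ev (nat_lit 2948) (nat_lit 1024) (.ev (nat_lit 2957) (nat_lit 65536) .dd)))) (.ch (nat_lit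
 9) (.ev (nat_lit 2484) (nat_lit 65536) (.ev (nat_lit 2788) (nat_lit 131072) (.ev (nat_lit 2797) (nat_lit 1024)
 .dd))))) (.br (nat_lit 12) (.ch (nat_lit 10) (.ev (nat_lit 1984) (nat_lit 66560) (.ev (nat_lit 1997) (nat_lit
 131072) .dd))) (.ch (nat_lit 12) (.ev (nat_lit 1984) (nat_lit 132096) (.ev (nat_lit 1997) (nat_lit 65536)
 .dd)))))))) (.ch (nat_lit 4) (.ev (nat_lit 896) (nat_lit 131072) (.ev (nat_lit 916) (nat_lit 65536) (.ev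
 (nat_lit 925) (nat_lit 1024) .dd)))))) (.br (nat_lit 9) (.br (nat_lit 8) (.ch (nat_lit 5) (.ev (nat_lit 896)
 (nat_lit 132096) (.ev (nat_lit 909) (nat_lit 65536) .dd))) (.ch (nat_lit 8) (.ev (nat_lit 896) (nat_lit
 197632) .dd))) (.br (nat_lit 10) (.ch (nat_lit 9) (.ev (nat_lit 896) (nat_lit 1024) (.nd (nat_lit 1744) (.br
 (nat_lit 4) (.br (nat_lit 3) (.ch (nat_lit 0) (.ev (nat_lit 6880) (nat_lit 131072) (.ev (nat_lit 6893)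
 (nat_lit 65536) .dd))) (.ch (nat_lit 3) (.nd (nat_lit 4416) (.br (nat_lit 2) (.ch (nat_lit 1) (.ev (nat_lit
 5492) (nat_lit 131072) (.ev (nat_lit 5501) (nat_lit 65536) .dd))) (.ch (nat_lit 2) (.fin (nat_lit
 576522874677314232))))))) (.br (nat_lit 5) (.ch (nat_lit 4) (.ev (nat_lit 6596) (nat_lit 65536) (.ev (nat_lit
 6605) (nat_lit 131072) .dd))) (.br (nat_lit 10) (.ch (nat_lit 5) (.ev (nat_lit 2912) (nat_lit 196608) .dd))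
 (.ch (nat_lit 10) (.ev (nat_lit 1760) (nat_lit 65536) (.ev (nat_lit 1773) (nat_lit 131072) .dd))))))))) (.br
 (nat_lit 11) (.ch (nat_lit 10) (.ev (nat_lit 896) (nat_lit 65536) (.nd (nat_lit 1840) (.br (nat_lit 8) (.br
 (nat_lit 4) (.ch (nat_lit 0) (.ev (nat_lit 2452) (nat_lit 131072) (.ev (nat_lit 2461) (nat_lit 1024) .dd)))
 (.ch (nat_lit 4) (.ev (nat_lit 6356) (nat_lit 1024) (.ev (nat_lit 6365) (nat_lit 131072) .dd)))) (.br (nat_lit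
 10) (.ch (nat_lit 8) (.ev (nat_lit 2420) (nat_lit 131072) (.ev (nat_lit 2429) (nat_lit 1024) .dd))) (.br
 (nat_lit 11) (.ch (nat_lit 10) (.nd (nat_lit 4592) (.br (nat_lit 8) (.br (nat_lit 6) (.ch (nat_lit 4) (.ev
 (nat_lit 4644) (nat_lit 1024) (.ev (nat_lit 4653) (nat_lit 131072) .dd))) (.ch (nat_lit 6) (.fin (nat_lit
 574785646825520656)))) (.br (nat_lit 9) (.ch (nat_lit 8) (.ev (nat_lit 4932) (nat_lit 131072) (.ev (nat_lit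
 4941) (nat_lit 1024) .dd))) (.br (nat_lit 10) (.ch (nat_lit 9) (.ev (nat_lit 4932) (nat_lit 131072) (.ev
 (nat_lit 4941) (nat_lit 1024) .dd))) (.ch (nat_lit 10) (.ev (nat_lit 4608) (nat_lit 131072) (.ev (nat_lit
 4621) (nat_lit 1024) .dd)))))))) (.ch (nat_lit 11) (.ev (nat_lit 5572) (nat_lit 131072) (.ev (nat_lit 5581)
 (nat_lit 1024) .dd))))))))) (.ch (nat_lit 11) (.ev (nat_lit 896) (nat_lit 65536) (.nd (nat_lit 2336) (.br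
 (nat_lit 6) (.br (nat_lit 4) (.ch (nat_lit 0) (.ev (nat_lit 6644) (nat_lit 1024) (.ev (nat_lit 6653) (nat_lit
 131072) .dd))) (.ch (nat_lit 4) (.ev (nat_lit 2352) (nat_lit 131072) (.ev (nat_lit 2365) (nat_lit 1024)
 .dd)))) (.br (nat_lit 9) (.ch (nat_lit 6) (.ev (nat_lit 2352) (nat_lit 1024) (.ev (nat_lit 2365) (nat_lit
 131072) .dd))) (.ch (nat_lit 9) (.ev (nat_lit 2372) (nat_lit 131072) (.ev (nat_lit 2381) (nat_lit 1024)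
 .dd)))))))))))))) (.ch (nat_lit 9) (.ev (nat_lit 288) (nat_lit 65536) (.nd (nat_lit 1264) (.br (nat_lit 5)
 (.br (nat_lit 3) (.ch (nat_lit 2) (.nd (nat_lit 3984) (.br (nat_lit 6) (.ch (nat_lit 3) (.ev (nat_lit 4020)
 (nat_lit 1024) (.ev (nat_lit 4029) (nat_lit 131072) .dd))) (.ch (nat_lit 6) (.ev (nat_lit 4052) (nat_lit
 131072) (.ev (nat_lit 4061) (nat_lit 1024) .dd)))))) (.ch (nat_lit 3) (.ev (nat_lit 3188) (nat_lit 131072)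
 (.ev (nat_lit 3197) (nat_lit 1024) .dd)))) (.br (nat_lit 9) (.ch (nat_lit 5) (.nd (nat_lit 3408) (.br (nat_lit
 8) (.ch (nat_lit 2) (.fin (nat_lit 576483292296462952))) (.ch (nat_lit 8) (.ev (nat_lit 3476) (nat_lit 131072)
 (.ev (nat_lit 3485) (nat_lit 1024) .dd)))))) (.ch (nat_lit 9) (.nd (nat_lit 3408) (.br (nat_lit 3) (.br
 (nat_lit 2) (.ch (nat_lit 1) (.ev (nat_lit 3476) (nat_lit 1024) (.ev (nat_lit 3485) (nat_lit 131072) .dd)))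
 (.ch (nat_lit 2) (.ev (nat_lit 3476) (nat_lit 1024) (.ev (nat_lit 3485) (nat_lit 131072) .dd)))) (.br (nat_lit
 12) (.ch (nat_lit 3) (.ev (nat_lit 3476) (nat_lit 131072) (.ev (nat_lit 3485) (nat_lit 1024) .dd))) (.ch
 (nat_lit 12) (.ev (nat_lit 6260) (nat_lit 1024) (.ev (nat_lit 6269) (nat_lit 131072) .dd))))))))))))) (.br
 (nat_lit 11) (.ch (nat_lit 10) (.nd (nat_lit 1088) (.br (nat_lit 4) (.br (nat_lit 2) (.br (nat_lit 1) (.ch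
 (nat_lit 0) (.ev (nat_lit 1104) (nat_lit 1024) (.ev (nat_lit 1220) (nat_lit 65536) (.ev (nat_lit 1229)
 (nat_lit 131072) .dd)))) (.ch (nat_lit 1) (.ev (nat_lit 1104) (nat_lit 131072) (.nd (nat_lit 3984) (.br
 (nat_lit 5) (.br (nat_lit 3) (.ch (nat_lit 2) (.ev (nat_lit 4000) (nat_lit 65536) (.ev (nat_lit 4013) (nat_lit
 1024) .dd))) (.ch (nat_lit 3) (.ev (nat_lit 4000) (nat_lit 65536) (.ev (nat_lit 4013) (nat_lit 1024) .dd))))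
 (.br (nat_lit 7) (.ch (nat_lit 5) (.ev (nat_lit 4000) (nat_lit 65536) (.ev (nat_lit 4013) (nat_lit 1024)
 .dd))) (.br (nat_lit 8) (.ch (nat_lit 7) (.ev (nat_lit 4000) (nat_lit 66560) .dd)) (.ch (nat_lit 8) (.ev
 (nat_lit 6160) (nat_lit 1024) (.ev (nat_lit 6173) (nat_lit 65536) .dd)))))))))) (.br (nat_lit 3) (.ch (nat_lit
 2) (.ev (nat_lit 1104) (nat_lit 131072) (.ev (nat_lit 3540) (nat_lit 65536) (.ev (nat_lit 3549) (nat_lit 1024)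
 .dd)))) (.ch (nat_lit 3) (.ev (nat_lit 1104) (nat_lit 196608) (.ev (nat_lit 1117) (nat_lit 1024) .dd))))) (.br
 (nat_lit 6) (.br (nat_lit 5) (.ch (nat_lit 4) (.ev (nat_lit 1104) (nat_lit 66560) (.ev (nat_lit 1117) (nat_lit
 131072) .dd))) (.ch (nat_lit 5) (.ev (nat_lit 1104) (nat_lit 66560) (.ev (nat_lit 1117) (nat_lit 131072)
 .dd)))) (.br (nat_lit 7) (.ch (nat_lit 6) (.ev (nat_lit 1104) (nat_lit 1024) (.nd (nat_lit 2128) (.br (nat_lit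
 7) (.br (nat_lit 6) (.ch (nat_lit 2) (.ev (nat_lit 2144) (nat_lit 196608) .dd)) (.ch (nat_lit 6) (.ev (nat_lit
 6020) (nat_lit 131072) (.ev (nat_lit 6029) (nat_lit 65536) .dd)))) (.br (nat_lit 11) (.ch (nat_lit 7) (.ev
 (nat_lit 2164) (nat_lit 131072) (.ev (nat_lit 2173) (nat_lit 65536) .dd))) (.br (nat_lit 12) (.ch (nat_lit 11)
 (.ev (nat_lit 2144) (nat_lit 65536) (.ev (nat_lit 2157) (nat_lit 131072) .dd))) (.ch (nat_lit 12) (.ev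
 (nat_lit 2144) (nat_lit 65536) (.ev (nat_lit 2157) (nat_lit 131072) .dd))))))))) (.br (nat_lit 10) (.ch
 (nat_lit 7) (.ev (nat_lit 1104) (nat_lit 65536) (.fin (nat_lit 576497585968595567)))) (.ch (nat_lit 10) (.ev
 (nat_lit 1104) (nat_lit 65536) (.ev (nat_lit 1300) (nat_lit 1024) (.ev (nat_lit 1309) (nat_lit 131072)
 .dd)))))))))) (.br (nat_lit 12) (.ch (nat_lit 11) (.ev (nat_lit 288) (nat_lit 1024) (.nd (nat_lit 944) (.br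
 (nat_lit 6) (.br (nat_lit 4) (.br (nat_lit 2) (.ch (nat_lit 0) (.nd (nat_lit 1968) (.br (nat_lit 5) (.br
 (nat_lit 3) (.br (nat_lit 2) (.ch (nat_lit 1) (.ev (nat_lit 1984) (nat_lit 65536) (.ev (nat_lit 1997) (nat_lit
 131072) .dd))) (.ch (nat_lit 2) (.ev (nat_lit 1984) (nat_lit 131072) (.ev (nat_lit 1997) (nat_lit 65536)
 .dd)))) (.br (nat_lit 4) (.ch (nat_lit 3) (.ev (nat_lit 1984) (nat_lit 196608) .dd)) (.ch (nat_lit 4) (.ev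
 (nat_lit 1984) (nat_lit 65536) (.ev (nat_lit 1997) (nat_lit 131072) .dd))))) (.br (nat_lit 9) (.br (nat_lit 7)
 (.ch (nat_lit 5) (.ev (nat_lit 1984) (nat_lit 196608) .dd)) (.ch (nat_lit 7) (.ev (nat_lit 1984) (nat_lit
 131072) (.ev (nat_lit 1997) (nat_lit 65536) .dd)))) (.br (nat_lit 10) (.ch (nat_lit 9) (.ev (nat_lit 1984)
 (nat_lit 65536) (.ev (nat_lit 1997) (nat_lit 131072) .dd))) (.br (nat_lit 12) (.ch (nat_lit 10) (.ev (nat_lit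
 3764) (nat_lit 131072) (.ev (nat_lit 3773) (nat_lit 65536) .dd))) (.ch (nat_lit 12) (.ev (nat_lit 1984)
 (nat_lit 65536) (.ev (nat_lit 1997) (nat_lit 131072) .dd))))))))) (.ch (nat_lit 2) (.ev (nat_lit 3664)
 (nat_lit 131072) (.ev (nat_lit 3677) (nat_lit 65536) .dd)))) (.br (nat_lit 5) (.ch (nat_lit 4) (.ev (nat_lit
 960) (nat_lit 131072) (.ev (nat_lit 973) (nat_lit 65536) .dd))) (.ch (nat_lit 5) (.fin (nat_lit
 576485491300844097))))) (.br (nat_lit 10) (.br (nat_lit 9) (.ch (nat_lit 6) (.ev (nat_lit 960) (nat_lit 65536)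
 (.ev (nat_lit 973) (nat_lit 131072) .dd))) (.ch (nat_lit 9) (.ev (nat_lit 960) (nat_lit 131072) (.ev (nat_lit
 973) (nat_lit 65536) .dd)))) (.br (nat_lit 12) (.ch (nat_lit 10) (.ev (nat_lit 960) (nat_lit 65536) (.ev
 (nat_lit 973) (nat_lit 131072) .dd))) (.ch (nat_lit 12) (.ev (nat_lit 980) (nat_lit 65536) (.ev (nat_lit 989)
 (nat_lit 131072) .dd))))))))) (.ch (nat_lit 12) (.ev (nat_lit 288) (nat_lit 131072) (.nd (nat_lit 1264) (.br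
 (nat_lit 4) (.br (nat_lit 1) (.ch (nat_lit 0) (.ev (nat_lit 1300) (nat_lit 65536) (.ev (nat_lit 1309) (nat_lit
 1024) .dd))) (.br (nat_lit 3) (.ch (nat_lit 1) (.ev (nat_lit 2820) (nat_lit 65536) (.ev (nat_lit 2829)
 (nat_lit 1024) .dd))) (.ch (nat_lit 3) (.ev (nat_lit 1300) (nat_lit 65536) (.ev (nat_lit 1309) (nat_lit 1024)
 .dd))))) (.br (nat_lit 6) (.br (nat_lit 5) (.ch (nat_lit 4) (.ev (nat_lit 1280) (nat_lit 66560) .dd)) (.ch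
 (nat_lit 5) (.nd (nat_lit 3408) (.br (nat_lit 8) (.br (nat_lit 7) (.ch (nat_lit 0) (.ev (nat_lit 3940)
 (nat_lit 65536) (.ev (nat_lit 3949) (nat_lit 1024) .dd))) (.ch (nat_lit 7) (.ev (nat_lit 3424) (nat_lit 65536)
 (.ev (nat_lit 3437) (nat_lit 1024) .dd)))) (.br (nat_lit 11) (.ch (nat_lit 8) (.ev (nat_lit 3424) (nat_lit
 1024) (.ev (nat_lit 3437) (nat_lit 65536) .dd))) (.br (nat_lit 12) (.ch (nat_lit 11) (.ev (nat_lit 6644)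
 (nat_lit 65536) (.ev (nat_lit 6653) (nat_lit 1024) .dd))) (.ch (nat_lit 12) (.ev (nat_lit 3424) (nat_lit
 65536) (.ev (nat_lit 3437) (nat_lit 1024) .dd))))))))) (.br (nat_lit 8) (.ch (nat_lit 6) (.ev (nat_lit 1280)
 (nat_lit 1024) (.ev (nat_lit 1293) (nat_lit 65536) .dd))) (.ch (nat_lit 8) (.ev (nat_lit 1280) (nat_lit 65536)
 (.ev (nat_lit 1293) (nat_lit 1024) .dd)))))))))))))))) (.br (nat_lit 12) (.ch (nat_lit 10) (.ev (nat_lit 48)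
 (nat_lit 229376) (.nd (nat_lit 128) (.br (nat_lit 6) (.br (nat_lit 3) (.br (nat_lit 2) (.ch (nat_lit 0) (.ev
 (nat_lit 144) (nat_lit 1088) (.nd (nat_lit 672) (.br (nat_lit 4) (.br (nat_lit 1) (.ch (nat_lit 0) (.ev
 (nat_lit 688) (nat_lit 10240) (.nd (nat_lit 1552) (.br (nat_lit 9) (.br (nat_lit 7) (.ch (nat_lit 5) (.ev
 (nat_lit 2036) (nat_lit 2) (.ev (nat_lit 2045) (nat_lit 256) .dd))) (.ch (nat_lit 7) (.ev (nat_lit 2068)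
 (nat_lit 256) (.ev (nat_lit 2077) (nat_lit 2) .dd)))) (.br (nat_lit 11) (.ch (nat_lit 9) (.ev (nat_lit 2068)
 (nat_lit 2) (.ev (nat_lit 2077) (nat_lit 256) .dd))) (.ch (nat_lit 11) (.ev (nat_lit 3284) (nat_lit 2) (.ev
 (nat_lit 3293) (nat_lit 256) .dd)))))))) (.br (nat_lit 2) (.ch (nat_lit 1) (.ev (nat_lit 688) (nat_lit 8194)
 (.nd (nat_lit 1408) (.br (nat_lit 11) (.br (nat_lit 3) (.ch (nat_lit 1) (.ev (nat_lit 1492) (nat_lit 2048)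
 (.ev (nat_lit 1501) (nat_lit 256) .dd))) (.ch (nat_lit 3) (.ev (nat_lit 2420) (nat_lit 2048) (.ev (nat_lit
 2429) (nat_lit 256) .dd)))) (.br (nat_lit 12) (.ch (nat_lit 11) (.ev (nat_lit 5152) (nat_lit 2304) .dd)) (.ch
 (nat_lit 12) (.fin (nat_lit 576482192810000950)))))))) (.ch (nat_lit 2) (.ev (nat_lit 688) (nat_lit 8192) (.nd
 (nat_lit 1408) (.br (nat_lit 5) (.br (nat_lit 1) (.ch (nat_lit 0) (.ev (nat_lit 1424) (nat_lit 256) (.fin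
 (nat_lit 576558059152163391)))) (.br (nat_lit 2) (.ch (nat_lit 1) (.nd (nat_lit 3984) (.br (nat_lit 12) (.ch
 (nat_lit 7) (.ev (nat_lit 6596) (nat_lit 2) (.ev (nat_lit 6644) (nat_lit 2048) (.ev (nat_lit 6653) (nat_lit
 256) .dd)))) (.ch (nat_lit 12) (.ev (nat_lit 4000) (nat_lit 2) (.ev (nat_lit 6624) (nat_lit 2304) .dd))))))
 (.ch (nat_lit 2) (.ev (nat_lit 1424) (nat_lit 2) (.ev (nat_lit 5364) (nat_lit 2048) (.ev (nat_lit 5373)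
 (nat_lit 256) .dd)))))) (.br (nat_lit 6) (.ch (nat_lit 5) (.ev (nat_lit 1424) (nat_lit 2048) (.ev (nat_lit
 2900) (nat_lit 256) (.ev (nat_lit 2909) (nat_lit 2) .dd)))) (.br (nat_lit 9) (.ch (nat_lit 6) (.ev (nat_lit
 1424) (nat_lit 2) (.ev (nat_lit 1508) (nat_lit 2048) (.ev (nat_lit 1517) (nat_lit 256) .dd)))) (.ch (nat_lit
 9) (.ev (nat_lit 1444) (nat_lit 2) (.ev (nat_lit 3700) (nat_lit 2048) (.ev (nat_lit 3709) (nat_lit 256)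
 .dd)))))))))))) (.br (nat_lit 8) (.br (nat_lit 5) (.ch (nat_lit 4) (.ev (nat_lit 688) (nat_lit 256) (.nd
 (nat_lit 1744) (.br (nat_lit 11) (.br (nat_lit 6) (.ch (nat_lit 3) (.ev (nat_lit 1760) (nat_lit 8192) (.ev
 (nat_lit 2372) (nat_lit 2) (.ev (nat_lit 2381) (nat_lit 2048) .dd)))) (.ch (nat_lit 6) (.ev (nat_lit 1760)
 (nat_lit 8192) (.ev (nat_lit 1780) (nat_lit 2048) (.ev (nat_lit 1789) (nat_lit 2) .dd))))) (.br (nat_lit 12)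
 (.ch (nat_lit 11) (.ev (nat_lit 2372) (nat_lit 2) (.ev (nat_lit 3188) (nat_lit 8192) (.ev (nat_lit 3197)
 (nat_lit 2048) .dd)))) (.ch (nat_lit 12) (.ev (nat_lit 2196) (nat_lit 8192) (.ev (nat_lit 3476) (nat_lit 2)
 (.ev (nat_lit 3485) (nat_lit 2048) .dd))))))))) (.ch (nat_lit 5) (.ev (nat_lit 688) (nat_lit 2304) (.nd
 (nat_lit 1968) (.br (nat_lit 8) (.ch (nat_lit 6) (.ev (nat_lit 2868) (nat_lit 2) (.ev (nat_lit 2877) (nat_lit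
 8192) .dd))) (.br (nat_lit 12) (.ch (nat_lit 8) (.ev (nat_lit 3044) (nat_lit 2) (.ev (nat_lit 3053) (nat_lit
 8192) .dd))) (.ch (nat_lit 12) (.ev (nat_lit 2868) (nat_lit 2) (.ev (nat_lit 2877) (nat_lit 8192) .dd)))))))))
 (.br (nat_lit 11) (.ch (nat_lit 8) (.ev (nat_lit 688) (nat_lit 2) (.nd (nat_lit 1456) (.br (nat_lit 9) (.br
 (nat_lit 3) (.ch (nat_lit 0) (.ev (nat_lit 1472) (nat_lit 8192) (.ev (nat_lit 1700) (nat_lit 256) (.ev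
 (nat_lit 1709) (nat_lit 2048) .dd)))) (.br (nat_lit 7) (.ch (nat_lit 3) (.ev (nat_lit 3924) (nat_lit 256) (.ev
 (nat_lit 4692) (nat_lit 8192) (.ev (nat_lit 4701) (nat_lit 2048) .dd)))) (.ch (nat_lit 7) (.ev (nat_lit 1472)
 (nat_lit 2048) (.ev (nat_lit 3300) (nat_lit 256) (.ev (nat_lit 3309) (nat_lit 8192) .dd)))))) (.br (nat_lit
 10) (.ch (nat_lit 9) (.ev (nat_lit 1472) (nat_lit 2048) (.ev (nat_lit 5072) (nat_lit 8448) .dd))) (.br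
 (nat_lit 12) (.ch (nat_lit 10) (.ev (nat_lit 3664) (nat_lit 256) (.ev (nat_lit 6260) (nat_lit 2048) (.ev
 (nat_lit 6269) (nat_lit 8192) .dd)))) (.ch (nat_lit 12) (.ev (nat_lit 1828) (nat_lit 256) (.nd (nat_lit 4864)
 (.br (nat_lit 12) (.ch (nat_lit 10) (.ev (nat_lit 6452) (nat_lit 8192) (.ev (nat_lit 6461) (nat_lit 2048)
 .dd))) (.ch (nat_lit 12) (.ev (nat_lit 6356) (nat_lit 8192) (.ev (nat_lit 6365) (nat_lit 2048)
 .dd))))))))))))) (.ch (nat_lit 11) (.nd (nat_lit 1408) (.br (nat_lit 5) (.br (nat_lit 3) (.ch (nat_lit 2) (.ev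
 (nat_lit 1424) (nat_lit 2304) (.ev (nat_lit 1444) (nat_lit 2) (.ev (nat_lit 1453) (nat_lit 8192) .dd)))) (.br
 (nat_lit 4) (.ch (nat_lit 3) (.ev (nat_lit 1424) (nat_lit 10240) (.nd (nat_lit 4224) (.br (nat_lit 5) (.ch
 (nat_lit 0) (.ev (nat_lit 6160) (nat_lit 258) .dd)) (.ch (nat_lit 5) (.ev (nat_lit 6900) (nat_lit 2) (.ev
 (nat_lit 6909) (nat_lit 256) .dd))))))) (.ch (nat_lit 4) (.ev (nat_lit 1424) (nat_lit 258) (.ev (nat_lit 3140)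
 (nat_lit 8192) (.ev (nat_lit 3149) (nat_lit 2048) .dd)))))) (.br (nat_lit 8) (.br (nat_lit 6) (.ch (nat_lit 5)
 (.ev (nat_lit 3140) (nat_lit 2) (.ev (nat_lit 3972) (nat_lit 256) (.fin (nat_lit 576462401582875193))))) (.ch
 (nat_lit 6) (.ev (nat_lit 1588) (nat_lit 2048) (.ev (nat_lit 3188) (nat_lit 2) (.ev (nat_lit 6260) (nat_lit
 8192) (.ev (nat_lit 6269) (nat_lit 256) .dd)))))) (.br (nat_lit 12) (.ch (nat_lit 8) (.ev (nat_lit 1424)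
 (nat_lit 10240) (.ev (nat_lit 2068) (nat_lit 2) (.ev (nat_lit 2077) (nat_lit 256) .dd)))) (.ch (nat_lit 12)
 (.nd (nat_lit 3984) (.br (nat_lit 4) (.br (nat_lit 3) (.ch (nat_lit 2) (.ev (nat_lit 4000) (nat_lit 2050) (.ev
 (nat_lit 6260) (nat_lit 256) (.ev (nat_lit 6269) (nat_lit 8192) .dd)))) (.ch (nat_lit 3) (.ev (nat_lit 4932)
 (nat_lit 2048) (.ev (nat_lit 5552) (nat_lit 256) (.ev (nat_lit 6500) (nat_lit 2) (.ev (nat_lit 6509) (nat_lit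
 8192) .dd)))))) (.br (nat_lit 5) (.ch (nat_lit 4) (.ev (nat_lit 4000) (nat_lit 8194) (.ev (nat_lit 4644)
 (nat_lit 256) (.ev (nat_lit 4653) (nat_lit 2048) .dd)))) (.br (nat_lit 9) (.ch (nat_lit 5) (.ev (nat_lit 4000)
 (nat_lit 2) (.ev (nat_lit 4820) (nat_lit 256) (.ev (nat_lit 5300) (nat_lit 8192) (.ev (nat_lit 5309) (nat_lit
 2048) .dd))))) (.ch (nat_lit 9) (.ev (nat_lit 4000) (nat_lit 8192) (.ev (nat_lit 5540) (nat_lit 256) (.ev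
 (nat_lit 6356) (nat_lit 2048) (.ev (nat_lit 6365) (nat_lit 2) .dd))))))))))))))))))))) (.ch (nat_lit 2) (.ev
 (nat_lit 144) (nat_lit 2306) (.nd (nat_lit 736) (.br (nat_lit 8) (.br (nat_lit 5) (.br (nat_lit 1) (.ch
 (nat_lit 0) (.ev (nat_lit 752) (nat_lit 8256) (.ev (nat_lit 765) (nat_lit 1024) .dd))) (.ch (nat_lit 1) (.ev
 (nat_lit 772) (nat_lit 1024) (.nd (nat_lit 2336) (.br (nat_lit 6) (.br (nat_lit 2) (.br (nat_lit 1) (.ch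
 (nat_lit 0) (.ev (nat_lit 2372) (nat_lit 8192) (.ev (nat_lit 2381) (nat_lit 64) .dd))) (.ch (nat_lit 1) (.ev
 (nat_lit 2372) (nat_lit 8192) (.ev (nat_lit 2381) (nat_lit 64) .dd)))) (.br (nat_lit 3) (.ch (nat_lit 2) (.ev
 (nat_lit 2352) (nat_lit 8256) .dd)) (.ch (nat_lit 3) (.ev (nat_lit 2388) (nat_lit 8192) (.ev (nat_lit 2397)
 (nat_lit 64) .dd))))) (.br (nat_lit 10) (.br (nat_lit 7) (.ch (nat_lit 6) (.ev (nat_lit 2352) (nat_lit 64)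
 (.ev (nat_lit 2365) (nat_lit 8192) .dd))) (.ch (nat_lit 7) (.ev (nat_lit 6644) (nat_lit 8192) (.ev (nat_lit
 6653) (nat_lit 64) .dd)))) (.br (nat_lit 11) (.ch (nat_lit 10) (.ev (nat_lit 2352) (nat_lit 8192) (.ev
 (nat_lit 2365) (nat_lit 64) .dd))) (.ch (nat_lit 11) (.ev (nat_lit 6596) (nat_lit 64) (.ev (nat_lit 6605)
 (nat_lit 8192) .dd)))))))))) (.br (nat_lit 7) (.ch (nat_lit 5) (.ev (nat_lit 752) (nat_lit 1024) (.nd (nat_lit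
 2624) (.br (nat_lit 6) (.br (nat_lit 4) (.ch (nat_lit 1) (.ev (nat_lit 2788) (nat_lit 64) (.ev (nat_lit 2797)
 (nat_lit 8192) .dd))) (.br (nat_lit 5) (.ch (nat_lit 4) (.ev (nat_lit 2676) (nat_lit 64) (.ev (nat_lit 2685)
 (nat_lit 8192) .dd))) (.ch (nat_lit 5) (.ev (nat_lit 2640) (nat_lit 8192) (.ev (nat_lit 2653) (nat_lit 64)
 .dd))))) (.br (nat_lit 10) (.br (nat_lit 7) (.ch (nat_lit 6) (.ev (nat_lit 3652) (nat_lit 64) (.ev (nat_lit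
 3661) (nat_lit 8192) .dd))) (.ch (nat_lit 7) (.ev (nat_lit 2868) (nat_lit 8192) (.ev (nat_lit 2877) (nat_lit
 64) .dd)))) (.br (nat_lit 11) (.ch (nat_lit 10) (.ev (nat_lit 2640) (nat_lit 64) (.ev (nat_lit 2653) (nat_lit
 8192) .dd))) (.ch (nat_lit 11) (.ev (nat_lit 2640) (nat_lit 8192) (.ev (nat_lit 2653) (nat_lit 64)
 .dd))))))))) (.ch (nat_lit 7) (.nd (nat_lit 1456) (.br (nat_lit 5) (.br (nat_lit 3) (.ch (nat_lit 2) (.ev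
 (nat_lit 6656) (nat_lit 64) (.fin (nat_lit 576452505952010937)))) (.br (nat_lit 4) (.ch (nat_lit 3) (.ev
 (nat_lit 1472) (nat_lit 1088) (.ev (nat_lit 1485) (nat_lit 8192) .dd))) (.ch (nat_lit 4) (.ev (nat_lit 1472)
 (nat_lit 8192) (.ev (nat_lit 5088) (nat_lit 64) (.ev (nat_lit 5101) (nat_lit 1024) .dd)))))) (.br (nat_lit 7)
 (.br (nat_lit 6) (.ch (nat_lit 5) (.ev (nat_lit 1492) (nat_lit 1024) (.ev (nat_lit 3188) (nat_lit 8192) (.ev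
 (nat_lit 3197) (nat_lit 64) .dd)))) (.ch (nat_lit 6) (.ev (nat_lit 1472) (nat_lit 8192) (.ev (nat_lit 3700)
 (nat_lit 1024) (.ev (nat_lit 3709) (nat_lit 64) .dd))))) (.br (nat_lit 10) (.ch (nat_lit 7) (.ev (nat_lit
 1472) (nat_lit 64) (.ev (nat_lit 3476) (nat_lit 8192) (.ev (nat_lit 3485) (nat_lit 1024) .dd)))) (.ch (nat_lit
 10) (.ev (nat_lit 1472) (nat_lit 1024) (.ev (nat_lit 1684) (nat_lit 8192) (.ev (nat_lit 1693) (nat_lit 64)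
 .dd))))))))))) (.br (nat_lit 10) (.br (nat_lit 9) (.ch (nat_lit 8) (.nd (nat_lit 2624) (.br (nat_lit 7) (.br
 (nat_lit 5) (.br (nat_lit 1) (.ch (nat_lit 0) (.ev (nat_lit 3764) (nat_lit 64) (.ev (nat_lit 6356) (nat_lit
 1024) (.ev (nat_lit 6365) (nat_lit 8192) .dd)))) (.ch (nat_lit 1) (.ev (nat_lit 2640) (nat_lit 64) (.ev
 (nat_lit 3476) (nat_lit 1024) (.ev (nat_lit 3485) (nat_lit 8192) .dd))))) (.br (nat_lit 6) (.ch (nat_lit 5)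
 (.ev (nat_lit 2640) (nat_lit 64) (.ev (nat_lit 3476) (nat_lit 1024) (.ev (nat_lit 3485) (nat_lit 8192) .dd))))
 (.ch (nat_lit 6) (.ev (nat_lit 2640) (nat_lit 8192) (.ev (nat_lit 2676) (nat_lit 64) (.ev (nat_lit 2685)
 (nat_lit 1024) .dd)))))) (.br (nat_lit 10) (.br (nat_lit 8) (.ch (nat_lit 7) (.ev (nat_lit 2640) (nat_lit
 9216) (.ev (nat_lit 2653) (nat_lit 64) .dd))) (.ch (nat_lit 8) (.ev (nat_lit 2640) (nat_lit 8192) (.ev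
 (nat_lit 2740) (nat_lit 64) (.ev (nat_lit 2749) (nat_lit 1024) .dd))))) (.br (nat_lit 12) (.ch (nat_lit 10)
 (.ev (nat_lit 2640) (nat_lit 1024) (.ev (nat_lit 3476) (nat_lit 8192) (.ev (nat_lit 3485) (nat_lit 64) .dd))))
 (.ch (nat_lit 12) (.ev (nat_lit 3476) (nat_lit 1024) (.ev (nat_lit 5300) (nat_lit 64) (.ev (nat_lit 5309)
 (nat_lit 8192) .dd))))))))) (.ch (nat_lit 9) (.ev (nat_lit 752) (nat_lit 8192) (.nd (nat_lit 2128) (.br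
 (nat_lit 10) (.ch (nat_lit 2) (.ev (nat_lit 3764) (nat_lit 64) (.ev (nat_lit 3773) (nat_lit 1024) .dd))) (.br
 (nat_lit 12) (.ch (nat_lit 10) (.ev (nat_lit 2276) (nat_lit 64) (.ev (nat_lit 2285) (nat_lit 1024) .dd))) (.ch
 (nat_lit 12) (.ev (nat_lit 3540) (nat_lit 64) (.ev (nat_lit 3549) (nat_lit 1024) .dd))))))))) (.br (nat_lit
 11) (.ch (nat_lit 10) (.ev (nat_lit 752) (nat_lit 1024) (.nd (nat_lit 2128) (.br (nat_lit 10) (.br (nat_lit 5)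
 (.ch (nat_lit 0) (.ev (nat_lit 2388) (nat_lit 64) (.ev (nat_lit 2397) (nat_lit 8192) .dd))) (.br (nat_lit 8)
 (.ch (nat_lit 5) (.ev (nat_lit 2144) (nat_lit 64) (.ev (nat_lit 2157) (nat_lit 8192) .dd))) (.ch (nat_lit 8)
 (.ev (nat_lit 2144) (nat_lit 64) (.ev (nat_lit 2157) (nat_lit 8192) .dd))))) (.br (nat_lit 11) (.ch (nat_lit
 10) (.ev (nat_lit 2144) (nat_lit 8192) (.ev (nat_lit 2157) (nat_lit 64) .dd))) (.br (nat_lit 12) (.ch (nat_lit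
 11) (.ev (nat_lit 3940) (nat_lit 64) (.ev (nat_lit 3949) (nat_lit 8192) .dd))) (.ch (nat_lit 12) (.ev (nat_lit
 2372) (nat_lit 64) (.ev (nat_lit 2381) (nat_lit 8192) .dd))))))))) (.br (nat_lit 12) (.ch (nat_lit 11) (.ev
 (nat_lit 752) (nat_lit 1088) (.ev (nat_lit 765) (nat_lit 8192) .dd))) (.ch (nat_lit 12) (.ev (nat_lit 752)
 (nat_lit 9280) .dd)))))))))) (.br (nat_lit 5) (.ch (nat_lit 3) (.ev (nat_lit 144) (nat_lit 1024) (.nd (nat_lit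
 576) (.br (nat_lit 6) (.br (nat_lit 4) (.br (nat_lit 3) (.ch (nat_lit 0) (.ev (nat_lit 592) (nat_lit 8194)
 (.nd (nat_lit 1648) (.br (nat_lit 6) (.br (nat_lit 3) (.ch (nat_lit 2) (.ev (nat_lit 1664) (nat_lit 320) (.ev
 (nat_lit 1677) (nat_lit 2048) .dd))) (.br (nat_lit 5) (.ch (nat_lit 3) (.ev (nat_lit 1664) (nat_lit 2304) (.ev
 (nat_lit 1677) (nat_lit 64) .dd))) (.ch (nat_lit 5) (.ev (nat_lit 1664) (nat_lit 2048) (.ev (nat_lit 1684)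
 (nat_lit 64) (.ev (nat_lit 1693) (nat_lit 256) .dd)))))) (.br (nat_lit 7) (.ch (nat_lit 6) (.ev (nat_lit 1664)
 (nat_lit 64) (.ev (nat_lit 2676) (nat_lit 256) (.ev (nat_lit 2685) (nat_lit 2048) .dd)))) (.br (nat_lit 12)
 (.ch (nat_lit 7) (.ev (nat_lit 1664) (nat_lit 2048) (.ev (nat_lit 1684) (nat_lit 64) (.ev (nat_lit 1693)
 (nat_lit 256) .dd)))) (.ch (nat_lit 12) (.ev (nat_lit 4052) (nat_lit 2048) (.ev (nat_lit 6644) (nat_lit 256)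
 (.ev (nat_lit 6653) (nat_lit 64) .dd)))))))))) (.ch (nat_lit 3) (.ev (nat_lit 592) (nat_lit 2114) (.nd
 (nat_lit 1968) (.br (nat_lit 5) (.br (nat_lit 2) (.ch (nat_lit 1) (.ev (nat_lit 3076) (nat_lit 256) (.ev
 (nat_lit 3085) (nat_lit 8192) .dd))) (.br (nat_lit 4) (.ch (nat_lit 2) (.ev (nat_lit 1984) (nat_lit 8192) (.ev
 (nat_lit 1997) (nat_lit 256) .dd))) (.ch (nat_lit 4) (.ev (nat_lit 2868) (nat_lit 8192) (.ev (nat_lit 2877)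
 (nat_lit 256) .dd))))) (.br (nat_lit 9) (.br (nat_lit 6) (.ch (nat_lit 5) (.ev (nat_lit 1984) (nat_lit 256)
 (.ev (nat_lit 1997) (nat_lit 8192) .dd))) (.ch (nat_lit 6) (.ev (nat_lit 1984) (nat_lit 8192) (.ev (nat_lit
 1997) (nat_lit 256) .dd)))) (.br (nat_lit 11) (.ch (nat_lit 9) (.ev (nat_lit 2820) (nat_lit 256) (.ev (nat_lit
 2829) (nat_lit 8192) .dd))) (.ch (nat_lit 11) (.ev (nat_lit 1984) (nat_lit 8448) .dd))))))))) (.br (nat_lit 5)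
 (.ch (nat_lit 4) (.ev (nat_lit 592) (nat_lit 2306) (.ev (nat_lit 916) (nat_lit 8192) (.ev (nat_lit 925)
 (nat_lit 64) .dd)))) (.ch (nat_lit 5) (.ev (nat_lit 592) (nat_lit 64) (.ev (nat_lit 916) (nat_lit 8192) (.nd
 (nat_lit 1552) (.br (nat_lit 6) (.br (nat_lit 3) (.br (nat_lit 2) (.ch (nat_lit 1) (.ev (nat_lit 1568)
 (nat_lit 256) (.ev (nat_lit 2048) (nat_lit 2048) (.ev (nat_lit 2061) (nat_lit 2) .dd)))) (.ch (nat_lit 2) (.ev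
 (nat_lit 1568) (nat_lit 2) (.ev (nat_lit 2420) (nat_lit 2048) (.ev (nat_lit 2429) (nat_lit 256) .dd))))) (.br
 (nat_lit 4) (.ch (nat_lit 3) (.ev (nat_lit 2372) (nat_lit 2048) (.ev (nat_lit 5300) (nat_lit 256) (.ev
 (nat_lit 5309) (nat_lit 2) .dd)))) (.ch (nat_lit 4) (.ev (nat_lit 1568) (nat_lit 2304) (.ev (nat_lit 1581)
 (nat_lit 2) .dd))))) (.br (nat_lit 9) (.br (nat_lit 7) (.ch (nat_lit 6) (.ev (nat_lit 1568) (nat_lit 2304)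
 (.ev (nat_lit 1581) (nat_lit 2) .dd))) (.ch (nat_lit 7) (.ev (nat_lit 1568) (nat_lit 2) (.ev (nat_lit 2868)
 (nat_lit 2048) (.ev (nat_lit 2877) (nat_lit 256) .dd))))) (.br (nat_lit 10) (.ch (nat_lit 9) (.ev (nat_lit
 1568) (nat_lit 2048) (.fin (nat_lit 576442610712264641)))) (.ch (nat_lit 10) (.nd (nat_lit 3984) (.br (nat_lit
 6) (.br (nat_lit 2) (.ch (nat_lit 0) (.ev (nat_lit 4000) (nat_lit 2050) (.ev (nat_lit 4013) (nat_lit 256)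
 .dd))) (.ch (nat_lit 2) (.ev (nat_lit 4736) (nat_lit 256) (.ev (nat_lit 5776) (nat_lit 2) (.ev (nat_lit 5789)
 (nat_lit 2048) .dd))))) (.br (nat_lit 10) (.ch (nat_lit 6) (.ev (nat_lit 4000) (nat_lit 2048) (.ev (nat_lit
 6644) (nat_lit 256) (.ev (nat_lit 6653) (nat_lit 2) .dd)))) (.ch (nat_lit 10) (.ev (nat_lit 4000) (nat_lit 2)
 (.ev (nat_lit 6644) (nat_lit 256) (.ev (nat_lit 6653) (nat_lit 2048) .dd))))))))))))))))) (.br (nat_lit 10)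
 (.br (nat_lit 8) (.ch (nat_lit 6) (.ev (nat_lit 592) (nat_lit 64) (.ev (nat_lit 660) (nat_lit 2) (.nd (nat_lit
 1744) (.br (nat_lit 4) (.br (nat_lit 2) (.br (nat_lit 1) (.ch (nat_lit 0) (.ev (nat_lit 3776) (nat_lit 2048)
 (.ev (nat_lit 5492) (nat_lit 256) (.ev (nat_lit 5501) (nat_lit 8192) .dd)))) (.ch (nat_lit 1) (.ev (nat_lit
 1760) (nat_lit 2048) (.ev (nat_lit 5300) (nat_lit 8192) (.ev (nat_lit 5309) (nat_lit 256) .dd))))) (.br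
 (nat_lit 3) (.ch (nat_lit 2) (.ev (nat_lit 1760) (nat_lit 10240) (.ev (nat_lit 1773) (nat_lit 256) .dd))) (.ch
 (nat_lit 3) (.ev (nat_lit 1760) (nat_lit 10496) .dd)))) (.br (nat_lit 6) (.br (nat_lit 5) (.ch (nat_lit 4)
 (.ev (nat_lit 1760) (nat_lit 8192) (.ev (nat_lit 2788) (nat_lit 256) (.ev (nat_lit 2797) (nat_lit 2048)
 .dd)))) (.ch (nat_lit 5) (.ev (nat_lit 1760) (nat_lit 10496) .dd))) (.br (nat_lit 7) (.ch (nat_lit 6) (.ev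
 (nat_lit 1760) (nat_lit 8192) (.ev (nat_lit 2788) (nat_lit 256) (.ev (nat_lit 2797) (nat_lit 2048) .dd))))
 (.br (nat_lit 9) (.ch (nat_lit 7) (.ev (nat_lit 1760) (nat_lit 8448) (.ev (nat_lit 1773) (nat_lit 2048) .dd)))
 (.ch (nat_lit 9) (.ev (nat_lit 2388) (nat_lit 2048) (.ev (nat_lit 2788) (nat_lit 256) (.ev (nat_lit 2797)
 (nat_lit 8192) .dd)))))))))))) (.ch (nat_lit 8) (.nd (nat_lit 1264) (.br (nat_lit 6) (.br (nat_lit 3) (.br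
 (nat_lit 1) (.ch (nat_lit 0) (.ev (nat_lit 1280) (nat_lit 258) (.ev (nat_lit 1492) (nat_lit 2048) (.ev
 (nat_lit 1684) (nat_lit 8192) (.ev (nat_lit 1693) (nat_lit 64) .dd))))) (.ch (nat_lit 1) (.ev (nat_lit 1280)
 (nat_lit 2114) (.ev (nat_lit 2420) (nat_lit 256) (.ev (nat_lit 2429) (nat_lit 8192) .dd))))) (.br (nat_lit 5)
 (.ch (nat_lit 3) (.ev (nat_lit 1280) (nat_lit 2114) (.ev (nat_lit 1684) (nat_lit 8192) (.ev (nat_lit 1693)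
 (nat_lit 256) .dd)))) (.ch (nat_lit 5) (.ev (nat_lit 1280) (nat_lit 2112) (.ev (nat_lit 1684) (nat_lit 8192)
 (.ev (nat_lit 4896) (nat_lit 256) (.ev (nat_lit 4909) (nat_lit 2) .dd))))))) (.br (nat_lit 8) (.br (nat_lit 7)
 (.ch (nat_lit 6) (.ev (nat_lit 1280) (nat_lit 2304) (.ev (nat_lit 1700) (nat_lit 8192) (.ev (nat_lit 2948)
 (nat_lit 2) (.ev (nat_lit 2957) (nat_lit 64) .dd))))) (.ch (nat_lit 7) (.ev (nat_lit 1280) (nat_lit 258) (.ev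
 (nat_lit 1684) (nat_lit 8192) (.ev (nat_lit 2960) (nat_lit 64) (.ev (nat_lit 2973) (nat_lit 2048) .dd))))))
 (.br (nat_lit 10) (.ch (nat_lit 8) (.ev (nat_lit 1280) (nat_lit 8192) (.ev (nat_lit 2868) (nat_lit 2048) (.ev
 (nat_lit 4212) (nat_lit 2) (.fin (nat_lit 576462401566097987)))))) (.br (nat_lit 12) (.ch (nat_lit 10) (.ev
 (nat_lit 1280) (nat_lit 8448) (.nd (nat_lit 3984) (.br (nat_lit 4) (.br (nat_lit 1) (.ch (nat_lit 0) (.ev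
 (nat_lit 4000) (nat_lit 66) (.ev (nat_lit 4013) (nat_lit 2048) .dd))) (.ch (nat_lit 1) (.ev (nat_lit 4000)
 (nat_lit 2) (.ev (nat_lit 4276) (nat_lit 64) (.ev (nat_lit 4285) (nat_lit 2048) .dd))))) (.br (nat_lit 6) (.ch
 (nat_lit 4) (.ev (nat_lit 4000) (nat_lit 2) (.ev (nat_lit 5300) (nat_lit 64) (.ev (nat_lit 5309) (nat_lit
 2048) .dd)))) (.br (nat_lit 11) (.ch (nat_lit 6) (.ev (nat_lit 4000) (nat_lit 2050) (.ev (nat_lit 4013)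
 (nat_lit 64) .dd))) (.ch (nat_lit 11) (.ev (nat_lit 4276) (nat_lit 64) (.ev (nat_lit 6356) (nat_lit 2) (.ev
 (nat_lit 6365) (nat_lit 2048) .dd)))))))))) (.ch (nat_lit 12) (.ev (nat_lit 1280) (nat_lit 8192) (.ev (nat_lit
 2420) (nat_lit 256) (.ev (nat_lit 3956) (nat_lit 2) (.ev (nat_lit 6452) (nat_lit 64) (.ev (nat_lit 6461)
 (nat_lit 2048) .dd))))))))))))) (.br (nat_lit 11) (.ch (nat_lit 10) (.ev (nat_lit 592) (nat_lit 8448) (.nd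
 (nat_lit 1456) (.br (nat_lit 8) (.br (nat_lit 5) (.br (nat_lit 4) (.ch (nat_lit 2) (.ev (nat_lit 2388)
 (nat_lit 2) (.ev (nat_lit 5924) (nat_lit 64) (.ev (nat_lit 5933) (nat_lit 2048) .dd)))) (.ch (nat_lit 4) (.ev
 (nat_lit 1472) (nat_lit 66) (.ev (nat_lit 1485) (nat_lit 2048) .dd)))) (.br (nat_lit 7) (.ch (nat_lit 5) (.ev
 (nat_lit 1604) (nat_lit 64) (.ev (nat_lit 2452) (nat_lit 2) (.ev (nat_lit 2461) (nat_lit 2048) .dd)))) (.ch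
 (nat_lit 7) (.ev (nat_lit 1472) (nat_lit 66) (.ev (nat_lit 1485) (nat_lit 2048) .dd))))) (.br (nat_lit 10)
 (.br (nat_lit 9) (.ch (nat_lit 8) (.ev (nat_lit 1472) (nat_lit 2112) (.ev (nat_lit 1485) (nat_lit 2) .dd)))
 (.ch (nat_lit 9) (.ev (nat_lit 1472) (nat_lit 2048) (.ev (nat_lit 1524) (nat_lit 64) (.ev (nat_lit 1533)
 (nat_lit 2) .dd))))) (.br (nat_lit 11) (.ch (nat_lit 10) (.ev (nat_lit 1472) (nat_lit 2048) (.ev (nat_lit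
 7060) (nat_lit 64) (.ev (nat_lit 7069) (nat_lit 2) .dd)))) (.ch (nat_lit 11) (.ev (nat_lit 2868) (nat_lit 2)
 (.ev (nat_lit 2900) (nat_lit 2048) (.ev (nat_lit 2909) (nat_lit 64) .dd)))))))))) (.br (nat_lit 12) (.ch
 (nat_lit 11) (.ev (nat_lit 592) (nat_lit 8448) (.nd (nat_lit 1744) (.br (nat_lit 8) (.br (nat_lit 3) (.br
 (nat_lit 1) (.ch (nat_lit 0) (.ev (nat_lit 1760) (nat_lit 2050) (.ev (nat_lit 1773) (nat_lit 64) .dd))) (.ch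
 (nat_lit 1) (.ev (nat_lit 1760) (nat_lit 2048) (.ev (nat_lit 2036) (nat_lit 64) (.ev (nat_lit 2045) (nat_lit
 2) .dd))))) (.br (nat_lit 5) (.ch (nat_lit 3) (.ev (nat_lit 1760) (nat_lit 2112) (.ev (nat_lit 1773) (nat_lit
 2) .dd))) (.ch (nat_lit 5) (.ev (nat_lit 1876) (nat_lit 64) (.ev (nat_lit 6656) (nat_lit 2048) (.ev (nat_lit
 6669) (nat_lit 2) .dd)))))) (.br (nat_lit 11) (.br (nat_lit 9) (.ch (nat_lit 8) (.ev (nat_lit 1760) (nat_lit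
 2050) (.ev (nat_lit 1773) (nat_lit 64) .dd))) (.ch (nat_lit 9) (.ev (nat_lit 1760) (nat_lit 2112) (.ev
 (nat_lit 1773) (nat_lit 2) .dd)))) (.br (nat_lit 12) (.ch (nat_lit 11) (.ev (nat_lit 2196) (nat_lit 64) (.ev
 (nat_lit 2420) (nat_lit 2) (.ev (nat_lit 2429) (nat_lit 2048) .dd)))) (.ch (nat_lit 12) (.ev (nat_lit 2420)
 (nat_lit 2) (.ev (nat_lit 2868) (nat_lit 2048) (.ev (nat_lit 2877) (nat_lit 64) .dd)))))))))) (.ch (nat_lit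
 12) (.ev (nat_lit 592) (nat_lit 2048) (.nd (nat_lit 1408) (.br (nat_lit 7) (.br (nat_lit 2) (.ch (nat_lit 1)
 (.ev (nat_lit 1424) (nat_lit 8194) (.ev (nat_lit 6644) (nat_lit 64) (.ev (nat_lit 6653) (nat_lit 256) .dd))))
 (.br (nat_lit 3) (.ch (nat_lit 2) (.ev (nat_lit 1424) (nat_lit 8192) (.ev (nat_lit 1876) (nat_lit 2) (.ev
 (nat_lit 2036) (nat_lit 256) (.ev (nat_lit 2045) (nat_lit 64) .dd))))) (.ch (nat_lit 3) (.ev (nat_lit 1424)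
 (nat_lit 258) (.ev (nat_lit 2868) (nat_lit 8192) (.ev (nat_lit 2877) (nat_lit 64) .dd)))))) (.br (nat_lit 9)
 (.br (nat_lit 8) (.ch (nat_lit 7) (.ev (nat_lit 1424) (nat_lit 320) (.ev (nat_lit 2788) (nat_lit 8192) (.ev
 (nat_lit 2797) (nat_lit 2) .dd)))) (.ch (nat_lit 8) (.ev (nat_lit 1424) (nat_lit 320) (.ev (nat_lit 1876)
 (nat_lit 2) (.ev (nat_lit 1885) (nat_lit 8192) .dd))))) (.br (nat_lit 12) (.ch (nat_lit 9) (.ev (nat_lit 1424)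
 (nat_lit 256) (.ev (nat_lit 3764) (nat_lit 8192) (.ev (nat_lit 6148) (nat_lit 2) (.ev (nat_lit 6157) (nat_lit
 64) .dd))))) (.ch (nat_lit 12) (.ev (nat_lit 2068) (nat_lit 258) (.ev (nat_lit 2868) (nat_lit 64) (.ev
 (nat_lit 2877) (nat_lit 8192) .dd))))))))))))))))) (.ch (nat_lit 5) (.ev (nat_lit 144) (nat_lit 1282) (.nd
 (nat_lit 880) (.br (nat_lit 5) (.br (nat_lit 2) (.br (nat_lit 1) (.ch (nat_lit 0) (.ev (nat_lit 896) (nat_lit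
 8256) (.ev (nat_lit 909) (nat_lit 2048) .dd))) (.ch (nat_lit 1) (.ev (nat_lit 896) (nat_lit 8256) (.ev
 (nat_lit 909) (nat_lit 2048) .dd)))) (.br (nat_lit 4) (.ch (nat_lit 2) (.ev (nat_lit 896) (nat_lit 2048) (.ev
 (nat_lit 1044) (nat_lit 8192) (.ev (nat_lit 1053) (nat_lit 64) .dd)))) (.ch (nat_lit 4) (.ev (nat_lit 1076)
 (nat_lit 2048) (.nd (nat_lit 1840) (.br (nat_lit 8) (.br (nat_lit 3) (.ch (nat_lit 1) (.ev (nat_lit 1856)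
 (nat_lit 8192) (.ev (nat_lit 1869) (nat_lit 64) .dd))) (.br (nat_lit 4) (.ch (nat_lit 3) (.ev (nat_lit 1856)
 (nat_lit 64) (.ev (nat_lit 1869) (nat_lit 8192) .dd))) (.ch (nat_lit 4) (.ev (nat_lit 6596) (nat_lit 8192)
 (.ev (nat_lit 6605) (nat_lit 64) .dd))))) (.br (nat_lit 11) (.br (nat_lit 10) (.ch (nat_lit 8) (.ev (nat_lit
 2212) (nat_lit 8192) (.ev (nat_lit 2221) (nat_lit 64) .dd))) (.ch (nat_lit 10) (.ev (nat_lit 2164) (nat_lit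
 8192) (.ev (nat_lit 2173) (nat_lit 64) .dd)))) (.br (nat_lit 12) (.ch (nat_lit 11) (.ev (nat_lit 1856)
 (nat_lit 64) (.ev (nat_lit 1869) (nat_lit 8192) .dd))) (.ch (nat_lit 12) (.ev (nat_lit 1856) (nat_lit 8192)
 (.ev (nat_lit 1869) (nat_lit 64) .dd))))))))))) (.br (nat_lit 7) (.br (nat_lit 6) (.ch (nat_lit 5) (.ev
 (nat_lit 896) (nat_lit 2048) (.nd (nat_lit 1840) (.br (nat_lit 3) (.br (nat_lit 1) (.ch (nat_lit 0) (.ev
 (nat_lit 6788) (nat_lit 8192) (.ev (nat_lit 6797) (nat_lit 64) .dd))) (.ch (nat_lit 1) (.ev (nat_lit 2820)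
 (nat_lit 8192) (.ev (nat_lit 2829) (nat_lit 64) .dd)))) (.br (nat_lit 11) (.ch (nat_lit 3) (.ev (nat_lit 1892)
 (nat_lit 64) (.ev (nat_lit 1901) (nat_lit 8192) .dd))) (.br (nat_lit 12) (.ch (nat_lit 11) (.ev (nat_lit 1856)
 (nat_lit 8192) (.ev (nat_lit 1869) (nat_lit 64) .dd))) (.ch (nat_lit 12) (.ev (nat_lit 6356) (nat_lit 64) (.ev
 (nat_lit 6365) (nat_lit 8192) .dd))))))))) (.ch (nat_lit 6) (.ev (nat_lit 896) (nat_lit 10240) (.ev (nat_lit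
 909) (nat_lit 64) .dd)))) (.br (nat_lit 11) (.ch (nat_lit 7) (.ev (nat_lit 896) (nat_lit 64) (.nd (nat_lit
 1968) (.br (nat_lit 8) (.br (nat_lit 5) (.ch (nat_lit 1) (.ev (nat_lit 3012) (nat_lit 2048) (.ev (nat_lit
 3021) (nat_lit 8192) .dd))) (.br (nat_lit 7) (.ch (nat_lit 5) (.ev (nat_lit 6900) (nat_lit 2048) (.ev (nat_lit
 6909) (nat_lit 8192) .dd))) (.ch (nat_lit 7) (.ev (nat_lit 2004) (nat_lit 2048) (.ev (nat_lit 2013) (nat_lit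
 8192) .dd))))) (.br (nat_lit 10) (.br (nat_lit 9) (.ch (nat_lit 8) (.ev (nat_lit 1984) (nat_lit 8192) (.ev
 (nat_lit 1997) (nat_lit 2048) .dd))) (.ch (nat_lit 9) (.ev (nat_lit 1984) (nat_lit 2048) (.ev (nat_lit 1997)
 (nat_lit 8192) .dd)))) (.br (nat_lit 11) (.ch (nat_lit 10) (.ev (nat_lit 1984) (nat_lit 8192) (.ev (nat_lit
 1997) (nat_lit 2048) .dd))) (.ch (nat_lit 11) (.ev (nat_lit 1984) (nat_lit 2048) (.ev (nat_lit 1997) (nat_lit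
 8192) .dd))))))))) (.br (nat_lit 12) (.ch (nat_lit 11) (.ev (nat_lit 896) (nat_lit 64) (.ev (nat_lit 916)
 (nat_lit 2048) (.ev (nat_lit 925) (nat_lit 8192) .dd)))) (.ch (nat_lit 12) (.ev (nat_lit 896) (nat_lit 2048)
 (.nd (nat_lit 1840) (.br (nat_lit 6) (.br (nat_lit 2) (.ch (nat_lit 1) (.ev (nat_lit 1856) (nat_lit 8192) (.ev
 (nat_lit 1869) (nat_lit 64) .dd))) (.br (nat_lit 5) (.ch (nat_lit 2) (.ev (nat_lit 1876) (nat_lit 64) (.ev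
 (nat_lit 1885) (nat_lit 8192) .dd))) (.ch (nat_lit 5) (.ev (nat_lit 1856) (nat_lit 8192) (.ev (nat_lit 1869)
 (nat_lit 64) .dd))))) (.br (nat_lit 11) (.br (nat_lit 9) (.ch (nat_lit 6) (.ev (nat_lit 1856) (nat_lit 64)
 (.ev (nat_lit 1869) (nat_lit 8192) .dd))) (.ch (nat_lit 9) (.ev (nat_lit 1856) (nat_lit 8192) (.ev (nat_lit
 1869) (nat_lit 64) .dd)))) (.br (nat_lit 12) (.ch (nat_lit 11) (.ev (nat_lit 1856) (nat_lit 8192) (.ev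
 (nat_lit 1869) (nat_lit 64) .dd))) (.ch (nat_lit 12) (.ev (nat_lit 3220) (nat_lit 8192) (.ev (nat_lit 3229)
 (nat_lit 64) .dd)))))))))))))))))) (.br (nat_lit 8) (.br (nat_lit 7) (.ch (nat_lit 6) (.ev (nat_lit 144)
 (nat_lit 9282) (.nd (nat_lit 1088) (.br (nat_lit 8) (.br (nat_lit 4) (.ch (nat_lit 0) (.ev (nat_lit 3764)
 (nat_lit 256) (.ev (nat_lit 3773) (nat_lit 2048) .dd))) (.br (nat_lit 6) (.ch (nat_lit 4) (.nd (nat_lit 3408)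
 (.br (nat_lit 7) (.br (nat_lit 3) (.ch (nat_lit 1) (.ev (nat_lit 3424) (nat_lit 2048) (.ev (nat_lit 3437)
 (nat_lit 256) .dd))) (.ch (nat_lit 3) (.ev (nat_lit 3424) (nat_lit 256) (.ev (nat_lit 3437) (nat_lit 2048)
 .dd)))) (.br (nat_lit 10) (.ch (nat_lit 7) (.ev (nat_lit 3540) (nat_lit 256) (.ev (nat_lit 3549) (nat_lit
 2048) .dd))) (.ch (nat_lit 10) (.ev (nat_lit 3424) (nat_lit 2048) (.ev (nat_lit 3437) (nat_lit 256) .dd)))))))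
 (.ch (nat_lit 6) (.ev (nat_lit 1104) (nat_lit 2048) (.ev (nat_lit 1117) (nat_lit 256) .dd))))) (.br (nat_lit
 11) (.br (nat_lit 9) (.ch (nat_lit 8) (.ev (nat_lit 1104) (nat_lit 256) (.ev (nat_lit 1117) (nat_lit 2048)
 .dd))) (.ch (nat_lit 9) (.ev (nat_lit 1104) (nat_lit 2048) (.ev (nat_lit 1117) (nat_lit 256) .dd)))) (.br
 (nat_lit 12) (.ch (nat_lit 11) (.nd (nat_lit 2336) (.br (nat_lit 11) (.ch (nat_lit 7) (.ev (nat_lit 2676)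
 (nat_lit 2048) (.ev (nat_lit 2685) (nat_lit 256) .dd))) (.br (nat_lit 12) (.ch (nat_lit 11) (.ev (nat_lit
 2788) (nat_lit 2048) (.ev (nat_lit 2797) (nat_lit 256) .dd))) (.ch (nat_lit 12) (.ev (nat_lit 2740) (nat_lit
 2048) (.ev (nat_lit 2749) (nat_lit 256) .dd))))))) (.ch (nat_lit 12) (.ev (nat_lit 1124) (nat_lit 2048) (.ev
 (nat_lit 1133) (nat_lit 256) .dd))))))))) (.ch (nat_lit 7) (.ev (nat_lit 144) (nat_lit 2048) (.ev (nat_lit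
 260) (nat_lit 8192) (.nd (nat_lit 624) (.br (nat_lit 4) (.br (nat_lit 2) (.br (nat_lit 1) (.ch (nat_lit 0)
 (.nd (nat_lit 1408) (.br (nat_lit 8) (.br (nat_lit 1) (.ch (nat_lit 0) (.ev (nat_lit 1424) (nat_lit 256) (.ev
 (nat_lit 3700) (nat_lit 1024) (.ev (nat_lit 4084) (nat_lit 64) (.ev (nat_lit 4093) (nat_lit 2) .dd))))) (.br
 (nat_lit 5) (.ch (nat_lit 1) (.ev (nat_lit 2084) (nat_lit 1024) (.ev (nat_lit 2868) (nat_lit 64) (.ev (nat_lit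
 5540) (nat_lit 2) (.ev (nat_lit 5549) (nat_lit 256) .dd))))) (.ch (nat_lit 5) (.ev (nat_lit 1424) (nat_lit
 1024) (.ev (nat_lit 4084) (nat_lit 2) (.ev (nat_lit 6464) (nat_lit 64) (.ev (nat_lit 6477) (nat_lit 256)
 .dd))))))) (.br (nat_lit 10) (.br (nat_lit 9) (.ch (nat_lit 8) (.nd (nat_lit 4224) (.br (nat_lit 7) (.ch
 (nat_lit 6) (.ev (nat_lit 4240) (nat_lit 66) (.ev (nat_lit 6356) (nat_lit 1024) (.ev (nat_lit 6365) (nat_lit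
 256) .dd)))) (.br (nat_lit 10) (.ch (nat_lit 7) (.ev (nat_lit 4240) (nat_lit 1026) (.fin (nat_lit
 576486590842880550)))) (.ch (nat_lit 10) (.ev (nat_lit 4240) (nat_lit 1280) (.ev (nat_lit 6224) (nat_lit 66)
 .dd))))))) (.ch (nat_lit 9) (.ev (nat_lit 1424) (nat_lit 1088) (.ev (nat_lit 2004) (nat_lit 2) (.ev (nat_lit
 2013) (nat_lit 256) .dd))))) (.br (nat_lit 12) (.ch (nat_lit 10) (.ev (nat_lit 1424) (nat_lit 1090) (.ev
 (nat_lit 1437) (nat_lit 256) .dd))) (.ch (nat_lit 12) (.ev (nat_lit 1424) (nat_lit 256) (.ev (nat_lit 2004)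
 (nat_lit 2) (.ev (nat_lit 2244) (nat_lit 1024) (.ev (nat_lit 2253) (nat_lit 64) .dd)))))))))) (.ch (nat_lit 1)
 (.ev (nat_lit 640) (nat_lit 1280) (.nd (nat_lit 2624) (.br (nat_lit 3) (.br (nat_lit 2) (.ch (nat_lit 1) (.ev
 (nat_lit 2640) (nat_lit 64) (.ev (nat_lit 2653) (nat_lit 2) .dd))) (.ch (nat_lit 2) (.ev (nat_lit 3012)
 (nat_lit 64) (.ev (nat_lit 3021) (nat_lit 2) .dd)))) (.br (nat_lit 5) (.ch (nat_lit 3) (.ev (nat_lit 3104)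
 (nat_lit 66) .dd)) (.br (nat_lit 8) (.ch (nat_lit 5) (.ev (nat_lit 3056) (nat_lit 64) (.ev (nat_lit 3069)
 (nat_lit 2) .dd))) (.ch (nat_lit 8) (.ev (nat_lit 2676) (nat_lit 64) (.ev (nat_lit 2685) (nat_lit 2)
 .dd)))))))))) (.br (nat_lit 3) (.ch (nat_lit 2) (.ev (nat_lit 640) (nat_lit 64) (.nd (nat_lit 1264) (.br
 (nat_lit 7) (.br (nat_lit 3) (.br (nat_lit 1) (.ch (nat_lit 0) (.ev (nat_lit 1588) (nat_lit 1024) (.fin
 (nat_lit 576735079868875449)))) (.ch (nat_lit 1) (.ev (nat_lit 1280) (nat_lit 256) (.ev (nat_lit 5604)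
 (nat_lit 1024) (.ev (nat_lit 5613) (nat_lit 2) .dd))))) (.br (nat_lit 4) (.ch (nat_lit 3) (.ev (nat_lit 1280)
 (nat_lit 1026) (.ev (nat_lit 1293) (nat_lit 256) .dd))) (.ch (nat_lit 4) (.ev (nat_lit 1280) (nat_lit 1280)
 (.ev (nat_lit 1293) (nat_lit 2) .dd))))) (.br (nat_lit 10) (.br (nat_lit 8) (.ch (nat_lit 7) (.ev (nat_lit
 1588) (nat_lit 2) (.ev (nat_lit 6500) (nat_lit 256) (.ev (nat_lit 6509) (nat_lit 1024) .dd)))) (.ch (nat_lit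
 8) (.ev (nat_lit 1280) (nat_lit 258) (.ev (nat_lit 1293) (nat_lit 1024) .dd)))) (.br (nat_lit 11) (.ch
 (nat_lit 10) (.ev (nat_lit 1280) (nat_lit 2) (.ev (nat_lit 6356) (nat_lit 256) (.ev (nat_lit 6365) (nat_lit
 1024) .dd)))) (.br (nat_lit 12) (.ch (nat_lit 11) (.ev (nat_lit 1280) (nat_lit 1024) (.ev (nat_lit 4164)
 (nat_lit 2) (.ev (nat_lit 4173) (nat_lit 256) .dd)))) (.ch (nat_lit 12) (.ev (nat_lit 1280) (nat_lit 256) (.ev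
 (nat_lit 1588) (nat_lit 1024) (.ev (nat_lit 1597) (nat_lit 2) .dd))))))))))) (.ch (nat_lit 3) (.ev (nat_lit
 640) (nat_lit 1344) (.ev (nat_lit 653) (nat_lit 2) .dd))))) (.br (nat_lit 8) (.br (nat_lit 5) (.ch (nat_lit 4)
 (.ev (nat_lit 640) (nat_lit 66) (.nd (nat_lit 1408) (.br (nat_lit 5) (.br (nat_lit 1) (.ch (nat_lit 0) (.ev
 (nat_lit 1424) (nat_lit 1280) .dd)) (.br (nat_lit 3) (.ch (nat_lit 1) (.ev (nat_lit 1424) (nat_lit 1280) .dd))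
 (.ch (nat_lit 3) (.ev (nat_lit 2212) (nat_lit 1024) (.ev (nat_lit 2221) (nat_lit 256) .dd))))) (.br (nat_lit
 8) (.ch (nat_lit 5) (.ev (nat_lit 1424) (nat_lit 1024) (.ev (nat_lit 1437) (nat_lit 256) .dd))) (.br (nat_lit
 12) (.ch (nat_lit 8) (.ev (nat_lit 5572) (nat_lit 1024) (.ev (nat_lit 5581) (nat_lit 256) .dd))) (.ch (nat_lit
 12) (.ev (nat_lit 6260) (nat_lit 1024) (.ev (nat_lit 6269) (nat_lit 256) .dd))))))))) (.ch (nat_lit 5) (.nd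
 (nat_lit 1968) (.br (nat_lit 5) (.br (nat_lit 1) (.ch (nat_lit 0) (.ev (nat_lit 1984) (nat_lit 1280) (.ev
 (nat_lit 3044) (nat_lit 2) (.ev (nat_lit 3053) (nat_lit 64) .dd)))) (.br (nat_lit 2) (.ch (nat_lit 1) (.ev
 (nat_lit 1984) (nat_lit 64) (.ev (nat_lit 2180) (nat_lit 2) (.ev (nat_lit 2788) (nat_lit 256) (.ev (nat_lit
 2797) (nat_lit 1024) .dd))))) (.ch (nat_lit 2) (.ev (nat_lit 2820) (nat_lit 2) (.ev (nat_lit 2880) (nat_lit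
 1024) (.ev (nat_lit 2948) (nat_lit 256) (.ev (nat_lit 2957) (nat_lit 64) .dd))))))) (.br (nat_lit 8) (.ch
 (nat_lit 5) (.ev (nat_lit 1984) (nat_lit 1280) (.ev (nat_lit 2820) (nat_lit 64) (.ev (nat_lit 2829) (nat_lit
 2) .dd)))) (.br (nat_lit 12) (.ch (nat_lit 8) (.ev (nat_lit 1984) (nat_lit 64) (.ev (nat_lit 2484) (nat_lit
 1024) (.ev (nat_lit 2740) (nat_lit 256) (.ev (nat_lit 2749) (nat_lit 2) .dd))))) (.ch (nat_lit 12) (.ev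
 (nat_lit 1984) (nat_lit 256) (.ev (nat_lit 2164) (nat_lit 64) (.ev (nat_lit 6452) (nat_lit 1024) (.ev (nat_lit
 6461) (nat_lit 2) .dd))))))))))) (.br (nat_lit 9) (.ch (nat_lit 8) (.ev (nat_lit 640) (nat_lit 1346) .dd))
 (.br (nat_lit 12) (.ch (nat_lit 9) (.ev (nat_lit 640) (nat_lit 1024) (.nd (nat_lit 1968) (.br (nat_lit 6) (.br
 (nat_lit 1) (.ch (nat_lit 0) (.ev (nat_lit 1984) (nat_lit 2) (.ev (nat_lit 2788) (nat_lit 256) (.ev (nat_lit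
 2797) (nat_lit 64) .dd)))) (.br (nat_lit 5) (.ch (nat_lit 1) (.ev (nat_lit 2372) (nat_lit 258) (.ev (nat_lit
 2381) (nat_lit 64) .dd))) (.ch (nat_lit 5) (.ev (nat_lit 2372) (nat_lit 256) (.ev (nat_lit 2740) (nat_lit 2)
 (.ev (nat_lit 2749) (nat_lit 64) .dd)))))) (.br (nat_lit 10) (.br (nat_lit 9) (.ch (nat_lit 6) (.ev (nat_lit
 1984) (nat_lit 256) (.ev (nat_lit 2372) (nat_lit 2) (.ev (nat_lit 2381) (nat_lit 64) .dd)))) (.ch (nat_lit 9)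
 (.ev (nat_lit 1984) (nat_lit 256) (.ev (nat_lit 2788) (nat_lit 64) (.ev (nat_lit 2797) (nat_lit 2) .dd)))))
 (.br (nat_lit 12) (.ch (nat_lit 10) (.ev (nat_lit 1984) (nat_lit 66) (.ev (nat_lit 1997) (nat_lit 256) .dd)))
 (.ch (nat_lit 12) (.ev (nat_lit 1984) (nat_lit 64) (.ev (nat_lit 2788) (nat_lit 256) (.ev (nat_lit 2797)
 (nat_lit 2) .dd)))))))))) (.ch (nat_lit 12) (.ev (nat_lit 640) (nat_lit 2) (.nd (nat_lit 1408) (.br (nat_lit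
 6) (.br (nat_lit 3) (.br (nat_lit 1) (.ch (nat_lit 0) (.ev (nat_lit 1424) (nat_lit 64) (.ev (nat_lit 2004)
 (nat_lit 256) (.ev (nat_lit 2013) (nat_lit 1024) .dd)))) (.ch (nat_lit 1) (.ev (nat_lit 1424) (nat_lit 1280)
 (.ev (nat_lit 1437) (nat_lit 64) .dd)))) (.br (nat_lit 4) (.ch (nat_lit 3) (.ev (nat_lit 1424) (nat_lit 1088)
 (.ev (nat_lit 1437) (nat_lit 256) .dd))) (.ch (nat_lit 4) (.ev (nat_lit 1424) (nat_lit 256) (.ev (nat_lit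
 3188) (nat_lit 1024) (.ev (nat_lit 3197) (nat_lit 64) .dd)))))) (.br (nat_lit 8) (.br (nat_lit 7) (.ch
 (nat_lit 6) (.ev (nat_lit 1424) (nat_lit 320) (.ev (nat_lit 1437) (nat_lit 1024) .dd))) (.ch (nat_lit 7) (.ev
 (nat_lit 1424) (nat_lit 64) (.ev (nat_lit 2196) (nat_lit 1024) (.ev (nat_lit 2205) (nat_lit 256) .dd))))) (.br
 (nat_lit 9) (.ch (nat_lit 8) (.ev (nat_lit 1424) (nat_lit 1024) (.ev (nat_lit 2180) (nat_lit 256) (.ev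
 (nat_lit 2189) (nat_lit 64) .dd)))) (.br (nat_lit 11) (.ch (nat_lit 9) (.nd (nat_lit 4224) (.br (nat_lit 7)
 (.ch (nat_lit 6) (.ev (nat_lit 4240) (nat_lit 1024) (.ev (nat_lit 6452) (nat_lit 64) (.ev (nat_lit 6461)
 (nat_lit 256) .dd)))) (.br (nat_lit 11) (.ch (nat_lit 7) (.ev (nat_lit 4256) (nat_lit 1024) (.ev (nat_lit
 6452) (nat_lit 64) (.ev (nat_lit 6461) (nat_lit 256) .dd)))) (.ch (nat_lit 11) (.ev (nat_lit 6148) (nat_lit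
 1024) (.ev (nat_lit 6272) (nat_lit 64) (.ev (nat_lit 6285) (nat_lit 256) .dd)))))))) (.ch (nat_lit 11) (.ev
 (nat_lit 1424) (nat_lit 1088) (.ev (nat_lit 1437) (nat_lit 256) .dd))))))))))))))))))) (.br (nat_lit 9) (.ch
 (nat_lit 8) (.nd (nat_lit 576) (.br (nat_lit 5) (.br (nat_lit 3) (.br (nat_lit 2) (.ch (nat_lit 0) (.ev
 (nat_lit 592) (nat_lit 1024) (.ev (nat_lit 980) (nat_lit 8192) (.nd (nat_lit 1648) (.br (nat_lit 5) (.br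
 (nat_lit 2) (.br (nat_lit 1) (.ch (nat_lit 0) (.ev (nat_lit 1664) (nat_lit 2048) (.ev (nat_lit 1684) (nat_lit
 2) (.ev (nat_lit 6692) (nat_lit 256) (.ev (nat_lit 6701) (nat_lit 64) .dd))))) (.ch (nat_lit 1) (.ev (nat_lit
 1664) (nat_lit 2304) (.ev (nat_lit 1684) (nat_lit 2) (.ev (nat_lit 1693) (nat_lit 64) .dd))))) (.br (nat_lit
 4) (.ch (nat_lit 2) (.ev (nat_lit 1664) (nat_lit 64) (.nd (nat_lit 4224) (.br (nat_lit 3) (.ch (nat_lit 0)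
 (.ev (nat_lit 4240) (nat_lit 256) (.ev (nat_lit 4692) (nat_lit 2) (.ev (nat_lit 4701) (nat_lit 2048) .dd))))
 (.br (nat_lit 10) (.ch (nat_lit 3) (.ev (nat_lit 4240) (nat_lit 2) (.ev (nat_lit 5044) (nat_lit 256) (.ev
 (nat_lit 5053) (nat_lit 2048) .dd)))) (.ch (nat_lit 10) (.ev (nat_lit 4240) (nat_lit 2048) (.ev (nat_lit 4944)
 (nat_lit 258) .dd)))))))) (.ch (nat_lit 4) (.ev (nat_lit 1664) (nat_lit 2050) (.ev (nat_lit 1812) (nat_lit 64)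
 (.ev (nat_lit 1821) (nat_lit 256) .dd)))))) (.br (nat_lit 9) (.br (nat_lit 8) (.ch (nat_lit 5) (.ev (nat_lit
 1664) (nat_lit 66) (.ev (nat_lit 6596) (nat_lit 2048) (.ev (nat_lit 6605) (nat_lit 256) .dd)))) (.ch (nat_lit
 8) (.ev (nat_lit 1664) (nat_lit 2304) (.ev (nat_lit 7188) (nat_lit 2) (.ev (nat_lit 7197) (nat_lit 64)
 .dd))))) (.br (nat_lit 11) (.ch (nat_lit 9) (.ev (nat_lit 1664) (nat_lit 2304) (.ev (nat_lit 4692) (nat_lit 2)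
 (.ev (nat_lit 4701) (nat_lit 64) .dd)))) (.br (nat_lit 12) (.ch (nat_lit 11) (.ev (nat_lit 1664) (nat_lit
 2048) (.ev (nat_lit 6500) (nat_lit 256) (.ev (nat_lit 6740) (nat_lit 2) (.ev (nat_lit 6749) (nat_lit 64)
 .dd))))) (.ch (nat_lit 12) (.ev (nat_lit 1664) (nat_lit 66) (.ev (nat_lit 2068) (nat_lit 256) (.ev (nat_lit
 2077) (nat_lit 2048) .dd)))))))))))) (.ch (nat_lit 2) (.ev (nat_lit 592) (nat_lit 1282) (.ev (nat_lit 980)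
 (nat_lit 8192) (.ev (nat_lit 1044) (nat_lit 2048) (.ev (nat_lit 1053) (nat_lit 64) .dd)))))) (.br (nat_lit 4)
 (.ch (nat_lit 3) (.nd (nat_lit 1264) (.br (nat_lit 6) (.br (nat_lit 4) (.br (nat_lit 2) (.ch (nat_lit 0) (.ev
 (nat_lit 1280) (nat_lit 1026) (.ev (nat_lit 1444) (nat_lit 64) (.ev (nat_lit 1588) (nat_lit 2048) (.ev
 (nat_lit 6576) (nat_lit 256) (.ev (nat_lit 6589) (nat_lit 8192) .dd)))))) (.ch (nat_lit 2) (.ev (nat_lit 1280)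
 (nat_lit 1026) (.nd (nat_lit 4304) (.br (nat_lit 5) (.br (nat_lit 4) (.ch (nat_lit 3) (.ev (nat_lit 4320)
 (nat_lit 8448) (.ev (nat_lit 6160) (nat_lit 64) (.ev (nat_lit 6173) (nat_lit 2048) .dd)))) (.ch (nat_lit 4)
 (.ev (nat_lit 4320) (nat_lit 2304) (.ev (nat_lit 6032) (nat_lit 8256) .dd)))) (.br (nat_lit 7) (.ch (nat_lit
 5) (.ev (nat_lit 4320) (nat_lit 10240) (.ev (nat_lit 5364) (nat_lit 256) (.ev (nat_lit 5373) (nat_lit 64)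
 .dd)))) (.br (nat_lit 9) (.ch (nat_lit 7) (.ev (nat_lit 4320) (nat_lit 8256) (.ev (nat_lit 4788) (nat_lit 256)
 (.ev (nat_lit 4797) (nat_lit 2048) .dd)))) (.ch (nat_lit 9) (.ev (nat_lit 4320) (nat_lit 2368) (.ev (nat_lit
 4333) (nat_lit 8192) .dd)))))))))) (.br (nat_lit 5) (.ch (nat_lit 4) (.ev (nat_lit 1280) (nat_lit 1026) (.ev
 (nat_lit 7028) (nat_lit 2048) (.nd (nat_lit 7984) (.ch (nat_lit 2) (.nd (nat_lit 8816) (.ch (nat_lit 2) (.nd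
 (nat_lit 9440) (.br (nat_lit 6) (.ch (nat_lit 1) (.ev (nat_lit 9456) (nat_lit 256) (.fin (nat_lit
 576458003508052578)))) (.ch (nat_lit 6) (.ev (nat_lit 9456) (nat_lit 8192) (.fin (nat_lit
 574029173783747751))))))))))))) (.ch (nat_lit 5) (.ev (nat_lit 1280) (nat_lit 258) (.ev (nat_lit 1332)
 (nat_lit 1024) (.ev (nat_lit 1588) (nat_lit 2048) (.ev (nat_lit 3140) (nat_lit 8192) (.ev (nat_lit 3149)
 (nat_lit 64) .dd)))))))) (.br (nat_lit 10) (.br (nat_lit 8) (.ch (nat_lit 6) (.ev (nat_lit 1280) (nat_lit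
 11520) (.ev (nat_lit 5764) (nat_lit 2) (.ev (nat_lit 5773) (nat_lit 64) .dd)))) (.ch (nat_lit 8) (.ev (nat_lit
 1280) (nat_lit 9536) (.ev (nat_lit 5604) (nat_lit 2048) (.ev (nat_lit 5613) (nat_lit 2) .dd))))) (.br (nat_lit
 11) (.ch (nat_lit 10) (.ev (nat_lit 1280) (nat_lit 11520) (.ev (nat_lit 6644) (nat_lit 2) (.ev (nat_lit 6653)
 (nat_lit 64) .dd)))) (.br (nat_lit 12) (.ch (nat_lit 11) (.ev (nat_lit 1280) (nat_lit 3138) (.ev (nat_lit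
 1492) (nat_lit 8192) (.ev (nat_lit 1501) (nat_lit 256) .dd)))) (.ch (nat_lit 12) (.ev (nat_lit 1280) (nat_lit
 320) (.ev (nat_lit 1300) (nat_lit 2) (.ev (nat_lit 1332) (nat_lit 1024) (.ev (nat_lit 1492) (nat_lit 8192)
 (.ev (nat_lit 1501) (nat_lit 2048) .dd)))))))))))) (.ch (nat_lit 4) (.ev (nat_lit 592) (nat_lit 3138) (.nd
 (nat_lit 1968) (.br (nat_lit 9) (.ch (nat_lit 3) (.ev (nat_lit 6176) (nat_lit 8448) .dd)) (.ch (nat_lit 9)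
 (.ev (nat_lit 2004) (nat_lit 256) (.ev (nat_lit 2013) (nat_lit 8192) .dd))))))))) (.br (nat_lit 7) (.br
 (nat_lit 6) (.ch (nat_lit 5) (.ev (nat_lit 592) (nat_lit 2304) (.nd (nat_lit 1968) (.br (nat_lit 5) (.br
 (nat_lit 2) (.ch (nat_lit 0) (.ev (nat_lit 1984) (nat_lit 8258) (.ev (nat_lit 1997) (nat_lit 1024) .dd))) (.br
 (nat_lit 3) (.ch (nat_lit 2) (.ev (nat_lit 1984) (nat_lit 8192) (.ev (nat_lit 2868) (nat_lit 1024) (.ev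
 (nat_lit 3252) (nat_lit 64) (.ev (nat_lit 3261) (nat_lit 2) .dd))))) (.ch (nat_lit 3) (.ev (nat_lit 1984)
 (nat_lit 8256) (.ev (nat_lit 2084) (nat_lit 2) (.ev (nat_lit 2093) (nat_lit 1024) .dd)))))) (.br (nat_lit 10)
 (.br (nat_lit 7) (.ch (nat_lit 5) (.ev (nat_lit 1984) (nat_lit 2) (.ev (nat_lit 2676) (nat_lit 1024) (.ev
 (nat_lit 2788) (nat_lit 8192) (.ev (nat_lit 2797) (nat_lit 64) .dd))))) (.ch (nat_lit 7) (.ev (nat_lit 1984)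
 (nat_lit 1024) (.ev (nat_lit 2388) (nat_lit 8192) (.ev (nat_lit 3540) (nat_lit 2) (.ev (nat_lit 3549) (nat_lit
 64) .dd)))))) (.br (nat_lit 12) (.ch (nat_lit 10) (.ev (nat_lit 1984) (nat_lit 1088) (.ev (nat_lit 2212)
 (nat_lit 2) (.ev (nat_lit 2221) (nat_lit 8192) .dd)))) (.ch (nat_lit 12) (.ev (nat_lit 1984) (nat_lit 8194)
 (.ev (nat_lit 2900) (nat_lit 1024) (.ev (nat_lit 2909) (nat_lit 64) .dd)))))))))) (.ch (nat_lit 6) (.ev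
 (nat_lit 592) (nat_lit 10498) (.nd (nat_lit 2128) (.br (nat_lit 7) (.br (nat_lit 4) (.br (nat_lit 3) (.ch
 (nat_lit 2) (.ev (nat_lit 2144) (nat_lit 64) (.ev (nat_lit 2157) (nat_lit 1024) .dd))) (.ch (nat_lit 3) (.fin
 (nat_lit 576110557282124487)))) (.br (nat_lit 6) (.ch (nat_lit 4) (.ev (nat_lit 2144) (nat_lit 1088) .dd))
 (.ch (nat_lit 6) (.ev (nat_lit 2144) (nat_lit 64) (.ev (nat_lit 2157) (nat_lit 1024) .dd))))) (.br (nat_lit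
 11) (.br (nat_lit 10) (.ch (nat_lit 7) (.ev (nat_lit 2144) (nat_lit 1024) (.ev (nat_lit 2157) (nat_lit 64)
 .dd))) (.ch (nat_lit 10) (.ev (nat_lit 2144) (nat_lit 64) (.ev (nat_lit 2157) (nat_lit 1024) .dd)))) (.br
 (nat_lit 12) (.ch (nat_lit 11) (.ev (nat_lit 2752) (nat_lit 64) (.ev (nat_lit 2765) (nat_lit 1024) .dd))) (.ch
 (nat_lit 12) (.ev (nat_lit 2144) (nat_lit 64) (.ev (nat_lit 2157) (nat_lit 1024) .dd)))))))))) (.br (nat_lit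
 8) (.ch (nat_lit 7) (.ev (nat_lit 592) (nat_lit 8256) (.nd (nat_lit 1408) (.br (nat_lit 5) (.br (nat_lit 3)
 (.br (nat_lit 1) (.ch (nat_lit 0) (.ev (nat_lit 1424) (nat_lit 3330) .dd)) (.ch (nat_lit 1) (.ev (nat_lit
 1424) (nat_lit 3072) (.ev (nat_lit 3812) (nat_lit 2) (.ev (nat_lit 3821) (nat_lit 256) .dd))))) (.br (nat_lit
 4) (.ch (nat_lit 3) (.ev (nat_lit 1424) (nat_lit 3074) (.ev (nat_lit 1437) (nat_lit 256) .dd))) (.ch (nat_lit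
 4) (.ev (nat_lit 1424) (nat_lit 256) (.ev (nat_lit 2740) (nat_lit 3072) (.ev (nat_lit 2749) (nat_lit 2)
 .dd)))))) (.br (nat_lit 8) (.br (nat_lit 6) (.ch (nat_lit 5) (.ev (nat_lit 1424) (nat_lit 1024) (.ev (nat_lit
 2676) (nat_lit 2048) (.ev (nat_lit 7060) (nat_lit 2) (.ev (nat_lit 7069) (nat_lit 256) .dd))))) (.ch (nat_lit
 6) (.ev (nat_lit 1424) (nat_lit 1024) (.ev (nat_lit 5140) (nat_lit 256) (.ev (nat_lit 6868) (nat_lit 2048)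
 (.ev (nat_lit 6877) (nat_lit 2) .dd)))))) (.br (nat_lit 9) (.ch (nat_lit 8) (.ev (nat_lit 1424) (nat_lit 258)
 (.ev (nat_lit 2740) (nat_lit 2048) (.ev (nat_lit 2749) (nat_lit 1024) .dd)))) (.br (nat_lit 10) (.ch (nat_lit
 9) (.ev (nat_lit 1424) (nat_lit 1026) (.ev (nat_lit 2740) (nat_lit 2048) (.ev (nat_lit 2749) (nat_lit 256)
 .dd)))) (.ch (nat_lit 10) (.ev (nat_lit 1424) (nat_lit 2304) (.ev (nat_lit 6512) (nat_lit 1026) .dd))))))))))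
 (.br (nat_lit 9) (.ch (nat_lit 8) (.ev (nat_lit 592) (nat_lit 8256) (.nd (nat_lit 1408) (.br (nat_lit 7) (.br
 (nat_lit 2) (.br (nat_lit 1) (.ch (nat_lit 0) (.ev (nat_lit 1424) (nat_lit 258) (.ev (nat_lit 6596) (nat_lit
 1024) (.ev (nat_lit 6605) (nat_lit 2048) .dd)))) (.ch (nat_lit 1) (.ev (nat_lit 1424) (nat_lit 3072) (.nd
 (nat_lit 4224) (.br (nat_lit 10) (.ch (nat_lit 0) (.ev (nat_lit 4944) (nat_lit 258) .dd)) (.ch (nat_lit 10)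
 (.ev (nat_lit 5844) (nat_lit 256) (.ev (nat_lit 5853) (nat_lit 2) .dd)))))))) (.br (nat_lit 3) (.ch (nat_lit
 2) (.ev (nat_lit 1424) (nat_lit 1024) (.nd (nat_lit 4224) (.br (nat_lit 8) (.br (nat_lit 4) (.ch (nat_lit 1)
 (.ev (nat_lit 4468) (nat_lit 2048) (.ev (nat_lit 4768) (nat_lit 2) (.ev (nat_lit 4781) (nat_lit 256) .dd))))
 (.ch (nat_lit 4) (.ev (nat_lit 4240) (nat_lit 2048) (.ev (nat_lit 5936) (nat_lit 256) (.ev (nat_lit 5949)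
 (nat_lit 2) .dd))))) (.br (nat_lit 9) (.ch (nat_lit 8) (.ev (nat_lit 5424) (nat_lit 256) (.ev (nat_lit 6148)
 (nat_lit 2) (.ev (nat_lit 6157) (nat_lit 2048) .dd)))) (.br (nat_lit 10) (.ch (nat_lit 9) (.ev (nat_lit 4240)
 (nat_lit 2048) (.nd (nat_lit 7984) (.br (nat_lit 3) (.ch (nat_lit 2) (.ev (nat_lit 8000) (nat_lit 2) (.ev
 (nat_lit 8013) (nat_lit 256) .dd))) (.ch (nat_lit 3) (.fin (nat_lit 576434913875018372))))))) (.ch (nat_lit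
 10) (.ev (nat_lit 4820) (nat_lit 256) (.ev (nat_lit 5764) (nat_lit 2048) (.ev (nat_lit 5773) (nat_lit 2)
 .dd)))))))))) (.ch (nat_lit 3) (.ev (nat_lit 2164) (nat_lit 1024) (.nd (nat_lit 4304) (.br (nat_lit 10) (.br
 (nat_lit 2) (.ch (nat_lit 0) (.ev (nat_lit 4320) (nat_lit 256) (.ev (nat_lit 5044) (nat_lit 2048) (.ev
 (nat_lit 5053) (nat_lit 2) .dd)))) (.br (nat_lit 7) (.ch (nat_lit 2) (.ev (nat_lit 4320) (nat_lit 256) (.ev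
 (nat_lit 4644) (nat_lit 2048) (.ev (nat_lit 4653) (nat_lit 2) .dd)))) (.ch (nat_lit 7) (.ev (nat_lit 4644)
 (nat_lit 2048) (.ev (nat_lit 5456) (nat_lit 2) (.ev (nat_lit 5469) (nat_lit 256) .dd)))))) (.br (nat_lit 11)
 (.ch (nat_lit 10) (.ev (nat_lit 4320) (nat_lit 256) (.ev (nat_lit 5668) (nat_lit 2048) (.ev (nat_lit 5677)
 (nat_lit 2) .dd)))) (.br (nat_lit 12) (.ch (nat_lit 11) (.ev (nat_lit 4320) (nat_lit 2048) (.ev (nat_lit 4500)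
 (nat_lit 256) (.ev (nat_lit 4509) (nat_lit 2) .dd)))) (.ch (nat_lit 12) (.ev (nat_lit 4320) (nat_lit 2) (.ev
 (nat_lit 4644) (nat_lit 2048) (.ev (nat_lit 4653) (nat_lit 256) .dd)))))))))))) (.br (nat_lit 10) (.br
 (nat_lit 9) (.ch (nat_lit 7) (.ev (nat_lit 1424) (nat_lit 2048) (.ev (nat_lit 3652) (nat_lit 1024) (.ev
 (nat_lit 6500) (nat_lit 2) (.ev (nat_lit 6509) (nat_lit 256) .dd))))) (.ch (nat_lit 9) (.ev (nat_lit 1424)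
 (nat_lit 2306) (.ev (nat_lit 1437) (nat_lit 1024) .dd)))) (.br (nat_lit 11) (.ch (nat_lit 10) (.ev (nat_lit
 1424) (nat_lit 1024) (.ev (nat_lit 1780) (nat_lit 2048) (.ev (nat_lit 6692) (nat_lit 256) (.ev (nat_lit 6701)
 (nat_lit 2) .dd))))) (.ch (nat_lit 11) (.ev (nat_lit 1424) (nat_lit 1282) (.ev (nat_lit 1437) (nat_lit 2048)
 .dd))))))))) (.ch (nat_lit 9) (.ev (nat_lit 592) (nat_lit 1024) (.nd (nat_lit 1552) (.br (nat_lit 8) (.br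
 (nat_lit 6) (.br (nat_lit 5) (.ch (nat_lit 3) (.ev (nat_lit 1568) (nat_lit 2048) (.nd (nat_lit 4224) (.br
 (nat_lit 9) (.br (nat_lit 5) (.ch (nat_lit 2) (.ev (nat_lit 4240) (nat_lit 8256) (.ev (nat_lit 6452) (nat_lit
 256) (.ev (nat_lit 6461) (nat_lit 2) .dd)))) (.br (nat_lit 7) (.ch (nat_lit 5) (.ev (nat_lit 4240) (nat_lit
 8448) (.ev (nat_lit 4996) (nat_lit 64) (.ev (nat_lit 5005) (nat_lit 2) .dd)))) (.ch (nat_lit 7) (.ev (nat_lit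
 4240) (nat_lit 8448) (.ev (nat_lit 5072) (nat_lit 66) .dd))))) (.br (nat_lit 10) (.ch (nat_lit 9) (.ev
 (nat_lit 4240) (nat_lit 66) (.ev (nat_lit 5188) (nat_lit 256) (.ev (nat_lit 5197) (nat_lit 8192) .dd)))) (.br
 (nat_lit 11) (.ch (nat_lit 10) (.ev (nat_lit 4240) (nat_lit 258) (.ev (nat_lit 5188) (nat_lit 8192) (.ev
 (nat_lit 5197) (nat_lit 64) .dd)))) (.ch (nat_lit 11) (.ev (nat_lit 4240) (nat_lit 66) (.ev (nat_lit 5188)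
 (nat_lit 8192) (.ev (nat_lit 5197) (nat_lit 256) .dd)))))))))) (.ch (nat_lit 5) (.ev (nat_lit 1568) (nat_lit
 256) (.ev (nat_lit 1876) (nat_lit 8192) (.ev (nat_lit 2196) (nat_lit 2048) (.nd (nat_lit 4864) (.br (nat_lit
 9) (.br (nat_lit 4) (.ch (nat_lit 0) (.ev (nat_lit 4880) (nat_lit 64) (.ev (nat_lit 4893) (nat_lit 2) .dd)))
 (.br (nat_lit 7) (.ch (nat_lit 4) (.ev (nat_lit 4880) (nat_lit 64) (.ev (nat_lit 4893) (nat_lit 2) .dd))) (.ch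
 (nat_lit 7) (.ev (nat_lit 4880) (nat_lit 2) (.ev (nat_lit 4893) (nat_lit 64) .dd))))) (.br (nat_lit 11) (.br
 (nat_lit 10) (.ch (nat_lit 9) (.ev (nat_lit 4880) (nat_lit 2) (.ev (nat_lit 4893) (nat_lit 64) .dd))) (.ch
 (nat_lit 10) (.ev (nat_lit 4880) (nat_lit 64) (.ev (nat_lit 4893) (nat_lit 2) .dd)))) (.br (nat_lit 12) (.ch
 (nat_lit 11) (.ev (nat_lit 5604) (nat_lit 2) (.ev (nat_lit 5613) (nat_lit 64) .dd))) (.ch (nat_lit 12) (.ev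
 (nat_lit 4880) (nat_lit 2) (.ev (nat_lit 4893) (nat_lit 64) .dd)))))))))))) (.br (nat_lit 7) (.ch (nat_lit 6)
 (.ev (nat_lit 1568) (nat_lit 2) (.ev (nat_lit 1876) (nat_lit 8192) (.ev (nat_lit 2180) (nat_lit 2048) (.nd
 (nat_lit 4864) (.br (nat_lit 8) (.br (nat_lit 6) (.ch (nat_lit 5) (.ev (nat_lit 4880) (nat_lit 64) (.ev
 (nat_lit 4893) (nat_lit 256) .dd))) (.br (nat_lit 7) (.ch (nat_lit 6) (.ev (nat_lit 4880) (nat_lit 64) (.ev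
 (nat_lit 4893) (nat_lit 256) .dd))) (.ch (nat_lit 7) (.ev (nat_lit 6644) (nat_lit 64) (.ev (nat_lit 6653)
 (nat_lit 256) .dd))))) (.br (nat_lit 10) (.ch (nat_lit 8) (.ev (nat_lit 4880) (nat_lit 64) (.ev (nat_lit 4893)
 (nat_lit 256) .dd))) (.br (nat_lit 12) (.ch (nat_lit 10) (.ev (nat_lit 4880) (nat_lit 320) .dd)) (.ch (nat_lit
 12) (.ev (nat_lit 6160) (nat_lit 320) .dd)))))))))) (.ch (nat_lit 7) (.ev (nat_lit 1568) (nat_lit 10560) (.ev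
 (nat_lit 1581) (nat_lit 2) .dd))))) (.br (nat_lit 11) (.br (nat_lit 10) (.ch (nat_lit 8) (.ev (nat_lit 1876)
 (nat_lit 8192) (.nd (nat_lit 4416) (.br (nat_lit 9) (.br (nat_lit 7) (.ch (nat_lit 6) (.ev (nat_lit 4432)
 (nat_lit 320) (.ev (nat_lit 4500) (nat_lit 2) (.ev (nat_lit 4509) (nat_lit 2048) .dd)))) (.ch (nat_lit 7) (.ev
 (nat_lit 4432) (nat_lit 66) (.ev (nat_lit 5008) (nat_lit 2048) (.ev (nat_lit 5021) (nat_lit 256) .dd))))) (.br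
 (nat_lit 11) (.ch (nat_lit 9) (.ev (nat_lit 4432) (nat_lit 320) (.ev (nat_lit 5776) (nat_lit 2048) (.ev
 (nat_lit 5789) (nat_lit 2) .dd)))) (.br (nat_lit 12) (.ch (nat_lit 11) (.ev (nat_lit 4432) (nat_lit 2) (.ev
 (nat_lit 4724) (nat_lit 64) (.ev (nat_lit 5876) (nat_lit 256) (.ev (nat_lit 5885) (nat_lit 2048) .dd))))) (.ch
 (nat_lit 12) (.ev (nat_lit 4432) (nat_lit 258) (.ev (nat_lit 4724) (nat_lit 64) (.ev (nat_lit 4733) (nat_lit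
 2048) .dd)))))))))) (.ch (nat_lit 10) (.ev (nat_lit 1568) (nat_lit 8514) (.ev (nat_lit 1581) (nat_lit 2048)
 .dd)))) (.br (nat_lit 12) (.ch (nat_lit 11) (.ev (nat_lit 1568) (nat_lit 10560) (.ev (nat_lit 1581) (nat_lit
 2) .dd))) (.ch (nat_lit 12) (.ev (nat_lit 1568) (nat_lit 2050) (.ev (nat_lit 1876) (nat_lit 8192) (.ev
 (nat_lit 5140) (nat_lit 256) (.ev (nat_lit 5149) (nat_lit 64) .dd))))))))))))))))) (.br (nat_lit 12) (.ch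
 (nat_lit 9) (.ev (nat_lit 144) (nat_lit 10304) (.nd (nat_lit 1008) (.br (nat_lit 6) (.br (nat_lit 3) (.br
 (nat_lit 2) (.ch (nat_lit 0) (.nd (nat_lit 2336) (.br (nat_lit 5) (.br (nat_lit 3) (.ch (nat_lit 0) (.ev
 (nat_lit 2352) (nat_lit 2) (.ev (nat_lit 6720) (nat_lit 1280) .dd))) (.br (nat_lit 4) (.ch (nat_lit 3) (.ev
 (nat_lit 2352) (nat_lit 256) (.fin (nat_lit 576464600593547839)))) (.ch (nat_lit 4) (.nd (nat_lit 4224) (.br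
 (nat_lit 4) (.br (nat_lit 3) (.ch (nat_lit 2) (.ev (nat_lit 4240) (nat_lit 258) (.ev (nat_lit 4253) (nat_lit
 1024) .dd))) (.ch (nat_lit 3) (.ev (nat_lit 4240) (nat_lit 1024) (.ev (nat_lit 6608) (nat_lit 2) (.ev (nat_lit
 6621) (nat_lit 256) .dd))))) (.br (nat_lit 8) (.ch (nat_lit 4) (.ev (nat_lit 4240) (nat_lit 1024) (.ev
 (nat_lit 6868) (nat_lit 2) (.ev (nat_lit 6877) (nat_lit 256) .dd)))) (.br (nat_lit 11) (.ch (nat_lit 8) (.ev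
 (nat_lit 4240) (nat_lit 258) (.ev (nat_lit 4253) (nat_lit 1024) .dd))) (.ch (nat_lit 11) (.ev (nat_lit 4240)
 (nat_lit 258) (.ev (nat_lit 4253) (nat_lit 1024) .dd)))))))))) (.br (nat_lit 11) (.br (nat_lit 9) (.ch
 (nat_lit 5) (.ev (nat_lit 3140) (nat_lit 256) (.ev (nat_lit 3616) (nat_lit 2) (.ev (nat_lit 3629) (nat_lit
 1024) .dd)))) (.ch (nat_lit 9) (.ev (nat_lit 2352) (nat_lit 258) (.ev (nat_lit 2365) (nat_lit 1024) .dd))))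
 (.br (nat_lit 12) (.ch (nat_lit 11) (.ev (nat_lit 2352) (nat_lit 1024) (.ev (nat_lit 3652) (nat_lit 256) (.ev
 (nat_lit 3661) (nat_lit 2) .dd)))) (.ch (nat_lit 12) (.ev (nat_lit 2352) (nat_lit 1024) (.ev (nat_lit 2676)
 (nat_lit 2) (.ev (nat_lit 2685) (nat_lit 256) .dd))))))))) (.ch (nat_lit 2) (.ev (nat_lit 1024) (nat_lit 1026)
 (.ev (nat_lit 1037) (nat_lit 256) .dd)))) (.br (nat_lit 4) (.ch (nat_lit 3) (.ev (nat_lit 1024) (nat_lit 1024)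
 (.nd (nat_lit 2624) (.br (nat_lit 5) (.br (nat_lit 3) (.ch (nat_lit 2) (.ev (nat_lit 2676) (nat_lit 2) (.ev
 (nat_lit 2685) (nat_lit 256) .dd))) (.ch (nat_lit 3) (.ev (nat_lit 2640) (nat_lit 2) (.ev (nat_lit 2653)
 (nat_lit 256) .dd)))) (.br (nat_lit 9) (.ch (nat_lit 5) (.ev (nat_lit 2880) (nat_lit 258) .dd)) (.br (nat_lit
 12) (.ch (nat_lit 9) (.ev (nat_lit 3476) (nat_lit 256) (.ev (nat_lit 3485) (nat_lit 2) .dd))) (.ch (nat_lit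
 12) (.ev (nat_lit 4084) (nat_lit 256) (.ev (nat_lit 4093) (nat_lit 2) .dd))))))))) (.ch (nat_lit 4) (.ev
 (nat_lit 1024) (nat_lit 256) (.nd (nat_lit 2624) (.br (nat_lit 3) (.br (nat_lit 2) (.ch (nat_lit 0) (.ev
 (nat_lit 2640) (nat_lit 1026) .dd)) (.ch (nat_lit 2) (.ev (nat_lit 2640) (nat_lit 1026) .dd))) (.br (nat_lit
 5) (.ch (nat_lit 3) (.ev (nat_lit 2640) (nat_lit 1024) (.ev (nat_lit 2653) (nat_lit 2) .dd))) (.br (nat_lit 9)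
 (.ch (nat_lit 5) (.ev (nat_lit 6512) (nat_lit 1024) (.ev (nat_lit 6525) (nat_lit 2) .dd))) (.ch (nat_lit 9)
 (.ev (nat_lit 6788) (nat_lit 2) (.ev (nat_lit 6797) (nat_lit 1024) .dd))))))))))) (.br (nat_lit 8) (.br
 (nat_lit 7) (.ch (nat_lit 6) (.nd (nat_lit 2624) (.br (nat_lit 7) (.br (nat_lit 4) (.ch (nat_lit 1) (.ev
 (nat_lit 2640) (nat_lit 1024) (.ev (nat_lit 6020) (nat_lit 256) (.ev (nat_lit 6029) (nat_lit 2) .dd)))) (.br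
 (nat_lit 5) (.ch (nat_lit 4) (.ev (nat_lit 2640) (nat_lit 258) (.ev (nat_lit 2653) (nat_lit 1024) .dd))) (.ch
 (nat_lit 5) (.ev (nat_lit 2676) (nat_lit 1024) (.ev (nat_lit 6596) (nat_lit 2) (.ev (nat_lit 6605) (nat_lit
 256) .dd)))))) (.br (nat_lit 11) (.br (nat_lit 9) (.ch (nat_lit 7) (.ev (nat_lit 2640) (nat_lit 1026) (.ev
 (nat_lit 2653) (nat_lit 256) .dd))) (.ch (nat_lit 9) (.ev (nat_lit 3076) (nat_lit 2) (.ev (nat_lit 5764)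
 (nat_lit 256) (.ev (nat_lit 5773) (nat_lit 1024) .dd))))) (.br (nat_lit 12) (.ch (nat_lit 11) (.ev (nat_lit
 2640) (nat_lit 1024) (.ev (nat_lit 3652) (nat_lit 256) (.ev (nat_lit 3661) (nat_lit 2) .dd)))) (.ch (nat_lit
 12) (.ev (nat_lit 2640) (nat_lit 1024) (.ev (nat_lit 2676) (nat_lit 2) (.ev (nat_lit 2685) (nat_lit 256)
 .dd))))))))) (.ch (nat_lit 7) (.ev (nat_lit 1024) (nat_lit 1282) .dd))) (.br (nat_lit 10) (.ch (nat_lit 8)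
 (.ev (nat_lit 1024) (nat_lit 256) (.nd (nat_lit 2624) (.br (nat_lit 7) (.br (nat_lit 5) (.ch (nat_lit 1) (.ev
 (nat_lit 2640) (nat_lit 2) (.ev (nat_lit 2653) (nat_lit 1024) .dd))) (.br (nat_lit 6) (.ch (nat_lit 5) (.ev
 (nat_lit 3604) (nat_lit 2) (.ev (nat_lit 3613) (nat_lit 1024) .dd))) (.ch (nat_lit 6) (.ev (nat_lit 2640)
 (nat_lit 2) (.ev (nat_lit 2653) (nat_lit 1024) .dd))))) (.br (nat_lit 8) (.ch (nat_lit 7) (.ev (nat_lit 2640)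
 (nat_lit 2) (.ev (nat_lit 2653) (nat_lit 1024) .dd))) (.br (nat_lit 11) (.ch (nat_lit 8) (.ev (nat_lit 2676)
 (nat_lit 1024) (.ev (nat_lit 2685) (nat_lit 2) .dd))) (.ch (nat_lit 11) (.ev (nat_lit 3540) (nat_lit 2) (.ev
 (nat_lit 3549) (nat_lit 1024) .dd))))))))) (.br (nat_lit 11) (.ch (nat_lit 10) (.ev (nat_lit 1024) (nat_lit 2)
 (.nd (nat_lit 2624) (.br (nat_lit 8) (.br (nat_lit 4) (.ch (nat_lit 0) (.ev (nat_lit 2820) (nat_lit 1024) (.ev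
 (nat_lit 2829) (nat_lit 256) .dd))) (.br (nat_lit 7) (.ch (nat_lit 4) (.ev (nat_lit 2676) (nat_lit 1024) (.ev
 (nat_lit 2685) (nat_lit 256) .dd))) (.ch (nat_lit 7) (.ev (nat_lit 2640) (nat_lit 256) (.ev (nat_lit 2653)
 (nat_lit 1024) .dd))))) (.br (nat_lit 10) (.ch (nat_lit 8) (.ev (nat_lit 2640) (nat_lit 1024) (.ev (nat_lit
 2653) (nat_lit 256) .dd))) (.br (nat_lit 11) (.ch (nat_lit 10) (.ev (nat_lit 2640) (nat_lit 256) (.ev (nat_lit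
 2653) (nat_lit 1024) .dd))) (.ch (nat_lit 11) (.ev (nat_lit 2676) (nat_lit 1024) (.ev (nat_lit 2685) (nat_lit
 256) .dd))))))))) (.ch (nat_lit 11) (.ev (nat_lit 1024) (nat_lit 258) (.ev (nat_lit 1037) (nat_lit 1024)
 .dd)))))))))) (.ch (nat_lit 12) (.ev (nat_lit 144) (nat_lit 10496) (.nd (nat_lit 944) (.br (nat_lit 8) (.br
 (nat_lit 3) (.br (nat_lit 1) (.ch (nat_lit 0) (.ev (nat_lit 960) (nat_lit 64) (.nd (nat_lit 2624) (.br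
 (nat_lit 6) (.br (nat_lit 2) (.ch (nat_lit 0) (.ev (nat_lit 2640) (nat_lit 2) (.ev (nat_lit 2653) (nat_lit
 1024) .dd))) (.ch (nat_lit 2) (.ev (nat_lit 2640) (nat_lit 2) (.ev (nat_lit 2653) (nat_lit 1024) .dd)))) (.br
 (nat_lit 8) (.ch (nat_lit 6) (.ev (nat_lit 2640) (nat_lit 2) (.ev (nat_lit 2653) (nat_lit 1024) .dd))) (.br
 (nat_lit 10) (.ch (nat_lit 8) (.ev (nat_lit 2640) (nat_lit 1024) (.ev (nat_lit 2653) (nat_lit 2) .dd))) (.ch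
 (nat_lit 10) (.ev (nat_lit 2676) (nat_lit 1024) (.ev (nat_lit 2685) (nat_lit 2) .dd))))))))) (.ch (nat_lit 1)
 (.ev (nat_lit 960) (nat_lit 66) (.ev (nat_lit 973) (nat_lit 1024) .dd)))) (.br (nat_lit 5) (.ch (nat_lit 3)
 (.ev (nat_lit 960) (nat_lit 2) (.ev (nat_lit 980) (nat_lit 1024) (.ev (nat_lit 989) (nat_lit 64) .dd)))) (.ch
 (nat_lit 5) (.ev (nat_lit 960) (nat_lit 1024) (.nd (nat_lit 3408) (.br (nat_lit 6) (.ch (nat_lit 4) (.ev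
 (nat_lit 3476) (nat_lit 64) (.ev (nat_lit 3485) (nat_lit 2) .dd))) (.br (nat_lit 9) (.ch (nat_lit 6) (.ev
 (nat_lit 3604) (nat_lit 2) (.ev (nat_lit 3613) (nat_lit 64) .dd))) (.ch (nat_lit 9) (.ev (nat_lit 6260)
 (nat_lit 2) (.ev (nat_lit 6269) (nat_lit 64) .dd)))))))))) (.br (nat_lit 10) (.br (nat_lit 9) (.ch (nat_lit 8)
 (.nd (nat_lit 1840) (.br (nat_lit 7) (.br (nat_lit 4) (.br (nat_lit 3) (.ch (nat_lit 2) (.ev (nat_lit 1856)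
 (nat_lit 1024) (.ev (nat_lit 3220) (nat_lit 2) (.ev (nat_lit 3229) (nat_lit 64) .dd)))) (.ch (nat_lit 3) (.ev
 (nat_lit 1856) (nat_lit 2) (.fin (nat_lit 576770264261935849))))) (.br (nat_lit 5) (.ch (nat_lit 4) (.ev
 (nat_lit 1856) (nat_lit 66) (.ev (nat_lit 1869) (nat_lit 1024) .dd))) (.ch (nat_lit 5) (.ev (nat_lit 1856)
 (nat_lit 64) (.ev (nat_lit 4052) (nat_lit 2) (.ev (nat_lit 4061) (nat_lit 1024) .dd)))))) (.br (nat_lit 10)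
 (.br (nat_lit 9) (.ch (nat_lit 7) (.ev (nat_lit 1856) (nat_lit 1026) (.ev (nat_lit 1869) (nat_lit 64) .dd)))
 (.ch (nat_lit 9) (.ev (nat_lit 1856) (nat_lit 64) (.ev (nat_lit 1876) (nat_lit 1024) (.ev (nat_lit 1885)
 (nat_lit 2) .dd))))) (.br (nat_lit 12) (.ch (nat_lit 10) (.ev (nat_lit 1856) (nat_lit 1024) (.ev (nat_lit
 6000) (nat_lit 2) (.ev (nat_lit 6013) (nat_lit 64) .dd)))) (.ch (nat_lit 12) (.ev (nat_lit 1856) (nat_lit 66)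
 (.ev (nat_lit 1869) (nat_lit 1024) .dd)))))))) (.ch (nat_lit 9) (.ev (nat_lit 960) (nat_lit 66) (.ev (nat_lit
 973) (nat_lit 1024) .dd)))) (.br (nat_lit 11) (.ch (nat_lit 10) (.ev (nat_lit 960) (nat_lit 1026) (.ev
 (nat_lit 973) (nat_lit 64) .dd))) (.br (nat_lit 12) (.ch (nat_lit 11) (.nd (nat_lit 1840) (.br (nat_lit 4)
 (.br (nat_lit 2) (.ch (nat_lit 1) (.ev (nat_lit 3012) (nat_lit 1024) (.ev (nat_lit 3188) (nat_lit 64) (.ev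
 (nat_lit 3197) (nat_lit 2) .dd)))) (.br (nat_lit 3) (.ch (nat_lit 2) (.ev (nat_lit 1856) (nat_lit 2) (.ev
 (nat_lit 5716) (nat_lit 64) (.ev (nat_lit 5725) (nat_lit 1024) .dd)))) (.ch (nat_lit 3) (.ev (nat_lit 1856)
 (nat_lit 1088) (.ev (nat_lit 1869) (nat_lit 2) .dd))))) (.br (nat_lit 6) (.ch (nat_lit 4) (.ev (nat_lit 3604)
 (nat_lit 64) (.ev (nat_lit 5604) (nat_lit 1024) (.ev (nat_lit 5613) (nat_lit 2) .dd)))) (.br (nat_lit 10) (.ch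
 (nat_lit 6) (.nd (nat_lit 4416) (.br (nat_lit 7) (.br (nat_lit 2) (.ch (nat_lit 1) (.ev (nat_lit 4432)
 (nat_lit 66) (.ev (nat_lit 4445) (nat_lit 1024) .dd))) (.ch (nat_lit 2) (.ev (nat_lit 4432) (nat_lit 1088)
 (.ev (nat_lit 4445) (nat_lit 2) .dd)))) (.br (nat_lit 8) (.ch (nat_lit 7) (.ev (nat_lit 4820) (nat_lit 1024)
 (.ev (nat_lit 5616) (nat_lit 2) (.ev (nat_lit 5629) (nat_lit 64) .dd)))) (.br (nat_lit 10) (.ch (nat_lit 8)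
 (.ev (nat_lit 4432) (nat_lit 2) (.ev (nat_lit 5604) (nat_lit 1024) (.ev (nat_lit 5613) (nat_lit 64) .dd))))
 (.ch (nat_lit 10) (.ev (nat_lit 4432) (nat_lit 64) (.ev (nat_lit 6740) (nat_lit 2) (.ev (nat_lit 6749)
 (nat_lit 1024) .dd))))))))) (.ch (nat_lit 10) (.ev (nat_lit 1856) (nat_lit 64) (.ev (nat_lit 6452) (nat_lit 2)
 (.ev (nat_lit 6461) (nat_lit 1024) .dd))))))))) (.ch (nat_lit 12) (.ev (nat_lit 960) (nat_lit 1024) (.nd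
 (nat_lit 2624) (.br (nat_lit 11) (.ch (nat_lit 10) (.ev (nat_lit 2676) (nat_lit 64) (.ev (nat_lit 2685)
 (nat_lit 2) .dd))) (.ch (nat_lit 11) (.ev (nat_lit 2740) (nat_lit 2) (.ev (nat_lit 2749) (nat_lit 64)
 .dd))))))))))))))))))))) (.ch (nat_lit 12) (.ev (nat_lit 48) (nat_lit 139264) (.nd (nat_lit 320) (.br (nat_lit
 8) (.br (nat_lit 4) (.br (nat_lit 1) (.ch (nat_lit 0) (.ev (nat_lit 336) (nat_lit 1024) (.ev (nat_lit 564)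
 (nat_lit 2) (.nd (nat_lit 880) (.br (nat_lit 7) (.br (nat_lit 5) (.br (nat_lit 3) (.ch (nat_lit 1) (.ev
 (nat_lit 896) (nat_lit 64) (.nd (nat_lit 1456) (.br (nat_lit 5) (.br (nat_lit 3) (.br (nat_lit 2) (.ch
 (nat_lit 1) (.ev (nat_lit 1472) (nat_lit 256) (.ev (nat_lit 2260) (nat_lit 2048) (.ev (nat_lit 2820) (nat_lit
 32768) (.ev (nat_lit 2829) (nat_lit 65536) .dd))))) (.ch (nat_lit 2) (.ev (nat_lit 1472) (nat_lit 34816) (.ev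
 (nat_lit 1684) (nat_lit 65536) (.ev (nat_lit 1693) (nat_lit 256) .dd))))) (.br (nat_lit 4) (.ch (nat_lit 3)
 (.ev (nat_lit 1472) (nat_lit 98560) (.ev (nat_lit 1485) (nat_lit 2048) .dd))) (.ch (nat_lit 4) (.ev (nat_lit
 1472) (nat_lit 98304) (.ev (nat_lit 2420) (nat_lit 256) (.ev (nat_lit 2429) (nat_lit 2048) .dd)))))) (.br
 (nat_lit 8) (.br (nat_lit 7) (.ch (nat_lit 5) (.ev (nat_lit 1472) (nat_lit 34816) (.ev (nat_lit 1684) (nat_lit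
 65536) (.ev (nat_lit 1693) (nat_lit 256) .dd)))) (.ch (nat_lit 7) (.ev (nat_lit 1472) (nat_lit 34816) (.ev
 (nat_lit 2948) (nat_lit 65536) (.ev (nat_lit 2957) (nat_lit 256) .dd))))) (.br (nat_lit 9) (.ch (nat_lit 8)
 (.ev (nat_lit 1472) (nat_lit 67840) (.ev (nat_lit 1485) (nat_lit 32768) .dd))) (.br (nat_lit 11) (.ch (nat_lit
 9) (.ev (nat_lit 1472) (nat_lit 67584) (.ev (nat_lit 2004) (nat_lit 256) (.ev (nat_lit 2013) (nat_lit 32768)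
 .dd)))) (.ch (nat_lit 11) (.ev (nat_lit 1472) (nat_lit 32768) (.ev (nat_lit 2688) (nat_lit 256) (.ev (nat_lit
 2868) (nat_lit 2048) (.ev (nat_lit 2877) (nat_lit 65536) .dd)))))))))))) (.ch (nat_lit 3) (.ev (nat_lit 896)
 (nat_lit 100608) (.ev (nat_lit 909) (nat_lit 64) .dd)))) (.br (nat_lit 6) (.ch (nat_lit 5) (.ev (nat_lit 896)
 (nat_lit 65536) (.ev (nat_lit 1060) (nat_lit 64) (.nd (nat_lit 1744) (.br (nat_lit 5) (.br (nat_lit 3) (.br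
 (nat_lit 2) (.ch (nat_lit 1) (.ev (nat_lit 1760) (nat_lit 35072) .dd)) (.ch (nat_lit 2) (.ev (nat_lit 2196)
 (nat_lit 2048) (.ev (nat_lit 2948) (nat_lit 256) (.ev (nat_lit 2957) (nat_lit 32768) .dd))))) (.br (nat_lit 4)
 (.ch (nat_lit 3) (.ev (nat_lit 1760) (nat_lit 2048) (.ev (nat_lit 2868) (nat_lit 32768) (.ev (nat_lit 2877)
 (nat_lit 256) .dd)))) (.ch (nat_lit 4) (.ev (nat_lit 1760) (nat_lit 32768) (.ev (nat_lit 2948) (nat_lit 256)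
 (.ev (nat_lit 2957) (nat_lit 2048) .dd)))))) (.br (nat_lit 7) (.br (nat_lit 6) (.ch (nat_lit 5) (.ev (nat_lit
 1760) (nat_lit 35072) .dd)) (.ch (nat_lit 6) (.ev (nat_lit 1760) (nat_lit 35072) .dd))) (.br (nat_lit 10) (.ch
 (nat_lit 7) (.ev (nat_lit 2948) (nat_lit 256) (.ev (nat_lit 6452) (nat_lit 2048) (.ev (nat_lit 6461) (nat_lit
 32768) .dd)))) (.br (nat_lit 11) (.ch (nat_lit 10) (.ev (nat_lit 1760) (nat_lit 33024) (.ev (nat_lit 1773)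
 (nat_lit 2048) .dd))) (.ch (nat_lit 11) (.ev (nat_lit 1760) (nat_lit 2304) (.ev (nat_lit 1773) (nat_lit 32768)
 .dd))))))))))) (.ch (nat_lit 6) (.ev (nat_lit 896) (nat_lit 256) (.nd (nat_lit 1552) (.br (nat_lit 3) (.br
 (nat_lit 1) (.ch (nat_lit 0) (.ev (nat_lit 1568) (nat_lit 32768) (.ev (nat_lit 1684) (nat_lit 65536) (.ev
 (nat_lit 6148) (nat_lit 64) (.ev (nat_lit 6157) (nat_lit 2048) .dd))))) (.br (nat_lit 2) (.ch (nat_lit 1) (.ev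
 (nat_lit 1568) (nat_lit 32768) (.ev (nat_lit 6788) (nat_lit 2048) (.ev (nat_lit 6912) (nat_lit 65536) (.ev
 (nat_lit 6925) (nat_lit 64) .dd))))) (.ch (nat_lit 2) (.ev (nat_lit 1568) (nat_lit 65536) (.nd (nat_lit 4304)
 (.br (nat_lit 6) (.br (nat_lit 2) (.ch (nat_lit 0) (.ev (nat_lit 4320) (nat_lit 2112) (.ev (nat_lit 4333)
 (nat_lit 32768) .dd))) (.br (nat_lit 4) (.ch (nat_lit 2) (.ev (nat_lit 4320) (nat_lit 32832) (.ev (nat_lit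
 4333) (nat_lit 2048) .dd))) (.ch (nat_lit 4) (.ev (nat_lit 4320) (nat_lit 2112) (.ev (nat_lit 4333) (nat_lit
 32768) .dd))))) (.br (nat_lit 11) (.br (nat_lit 9) (.ch (nat_lit 6) (.ev (nat_lit 4320) (nat_lit 32832) (.ev
 (nat_lit 4333) (nat_lit 2048) .dd))) (.ch (nat_lit 9) (.ev (nat_lit 4320) (nat_lit 32768) (.ev (nat_lit 6148)
 (nat_lit 2048) (.ev (nat_lit 6157) (nat_lit 64) .dd))))) (.br (nat_lit 12) (.ch (nat_lit 11) (.ev (nat_lit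
 4320) (nat_lit 32768) (.ev (nat_lit 4820) (nat_lit 2048) (.ev (nat_lit 4829) (nat_lit 64) .dd)))) (.ch
 (nat_lit 12) (.ev (nat_lit 4320) (nat_lit 2112) (.ev (nat_lit 4333) (nat_lit 32768) .dd))))))))))) (.br
 (nat_lit 9) (.br (nat_lit 6) (.ch (nat_lit 3) (.ev (nat_lit 1568) (nat_lit 2112) (.ev (nat_lit 6356) (nat_lit
 65536) (.ev (nat_lit 6365) (nat_lit 32768) .dd)))) (.ch (nat_lit 6) (.ev (nat_lit 6384) (nat_lit 65536) (.nd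
 (nat_lit 7392) (.br (nat_lit 11) (.ch (nat_lit 1) (.ev (nat_lit 7408) (nat_lit 2048) (.fin (nat_lit
 576422819156935219)))) (.ch (nat_lit 11) (.ev (nat_lit 7408) (nat_lit 32768) (.fin (nat_lit
 587513593173860627))))))))) (.br (nat_lit 11) (.ch (nat_lit 9) (.ev (nat_lit 1568) (nat_lit 65536) (.ev
 (nat_lit 2388) (nat_lit 32768) (.ev (nat_lit 5140) (nat_lit 64) (.ev (nat_lit 5149) (nat_lit 2048) .dd)))))
 (.ch (nat_lit 11) (.ev (nat_lit 1568) (nat_lit 2048) (.ev (nat_lit 1588) (nat_lit 64) (.ev (nat_lit 1716)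
 (nat_lit 65536) (.ev (nat_lit 1725) (nat_lit 32768) .dd))))))))))))) (.br (nat_lit 10) (.br (nat_lit 8) (.ch
 (nat_lit 7) (.ev (nat_lit 896) (nat_lit 98624) (.ev (nat_lit 909) (nat_lit 2048) .dd))) (.ch (nat_lit 8) (.ev
 (nat_lit 896) (nat_lit 67584) (.nd (nat_lit 1744) (.br (nat_lit 8) (.br (nat_lit 6) (.br (nat_lit 4) (.ch
 (nat_lit 3) (.ev (nat_lit 1760) (nat_lit 33024) (.ev (nat_lit 1773) (nat_lit 64) .dd))) (.ch (nat_lit 4) (.ev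
 (nat_lit 1760) (nat_lit 32832) (.ev (nat_lit 1773) (nat_lit 256) .dd)))) (.br (nat_lit 7) (.ch (nat_lit 6)
 (.ev (nat_lit 1760) (nat_lit 256) (.ev (nat_lit 6356) (nat_lit 64) (.ev (nat_lit 6365) (nat_lit 32768) .dd))))
 (.ch (nat_lit 7) (.ev (nat_lit 2372) (nat_lit 256) (.ev (nat_lit 6500) (nat_lit 64) (.ev (nat_lit 6509)
 (nat_lit 32768) .dd)))))) (.br (nat_lit 11) (.br (nat_lit 9) (.ch (nat_lit 8) (.ev (nat_lit 1760) (nat_lit 64)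
 (.ev (nat_lit 1876) (nat_lit 32768) (.ev (nat_lit 1885) (nat_lit 256) .dd)))) (.ch (nat_lit 9) (.ev (nat_lit
 1760) (nat_lit 256) (.ev (nat_lit 6900) (nat_lit 64) (.ev (nat_lit 6909) (nat_lit 32768) .dd))))) (.br
 (nat_lit 12) (.ch (nat_lit 11) (.ev (nat_lit 1760) (nat_lit 256) (.fin (nat_lit 586398684839100771)))) (.ch
 (nat_lit 12) (.ev (nat_lit 2900) (nat_lit 64) (.ev (nat_lit 6964) (nat_lit 256) (.ev (nat_lit 6973) (nat_lit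
 32768) .dd))))))))))) (.br (nat_lit 11) (.ch (nat_lit 10) (.ev (nat_lit 896) (nat_lit 2048) (.ev (nat_lit 980)
 (nat_lit 65536) (.nd (nat_lit 1552) (.br (nat_lit 8) (.br (nat_lit 3) (.br (nat_lit 2) (.ch (nat_lit 0) (.ev
 (nat_lit 1568) (nat_lit 33024) (.ev (nat_lit 1581) (nat_lit 64) .dd))) (.ch (nat_lit 2) (.ev (nat_lit 1568)
 (nat_lit 32832) (.ev (nat_lit 1581) (nat_lit 256) .dd)))) (.br (nat_lit 6) (.ch (nat_lit 3) (.ev (nat_lit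
 2372) (nat_lit 256) (.ev (nat_lit 5364) (nat_lit 32768) (.ev (nat_lit 5373) (nat_lit 64) .dd)))) (.ch (nat_lit
 6) (.ev (nat_lit 2372) (nat_lit 256) (.fin (nat_lit 576007203923116922)))))) (.br (nat_lit 11) (.br (nat_lit
 10) (.ch (nat_lit 8) (.ev (nat_lit 1568) (nat_lit 256) (.ev (nat_lit 4996) (nat_lit 32768) (.ev (nat_lit 5005)
 (nat_lit 64) .dd)))) (.ch (nat_lit 10) (.ev (nat_lit 1568) (nat_lit 64) (.ev (nat_lit 2820) (nat_lit 256) (.ev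
 (nat_lit 2829) (nat_lit 32768) .dd))))) (.br (nat_lit 12) (.ch (nat_lit 11) (.ev (nat_lit 1568) (nat_lit 64)
 (.ev (nat_lit 2388) (nat_lit 256) (.ev (nat_lit 2397) (nat_lit 32768) .dd)))) (.ch (nat_lit 12) (.ev (nat_lit
 1568) (nat_lit 256) (.ev (nat_lit 1892) (nat_lit 32768) (.ev (nat_lit 1901) (nat_lit 64) .dd))))))))))) (.br
 (nat_lit 12) (.ch (nat_lit 11) (.ev (nat_lit 896) (nat_lit 256) (.nd (nat_lit 1552) (.br (nat_lit 6) (.br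
 (nat_lit 2) (.br (nat_lit 1) (.ch (nat_lit 0) (.ev (nat_lit 1568) (nat_lit 34816) (.ev (nat_lit 5444) (nat_lit
 65536) (.ev (nat_lit 5453) (nat_lit 64) .dd)))) (.ch (nat_lit 1) (.ev (nat_lit 1568) (nat_lit 67584) (.ev
 (nat_lit 3300) (nat_lit 64) (.ev (nat_lit 3309) (nat_lit 32768) .dd))))) (.br (nat_lit 5) (.ch (nat_lit 2)
 (.ev (nat_lit 1568) (nat_lit 98304) (.ev (nat_lit 1780) (nat_lit 64) (.ev (nat_lit 1789) (nat_lit 2048)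
 .dd)))) (.ch (nat_lit 5) (.ev (nat_lit 1568) (nat_lit 65600) (.ev (nat_lit 3012) (nat_lit 2048) (.ev (nat_lit
 3021) (nat_lit 32768) .dd)))))) (.br (nat_lit 8) (.br (nat_lit 7) (.ch (nat_lit 6) (.ev (nat_lit 1568)
 (nat_lit 67584) (.ev (nat_lit 1684) (nat_lit 32768) (.ev (nat_lit 1693) (nat_lit 64) .dd)))) (.ch (nat_lit 7)
 (.ev (nat_lit 1568) (nat_lit 64) (.ev (nat_lit 2100) (nat_lit 65536) (.ev (nat_lit 2196) (nat_lit 2048) (.ev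
 (nat_lit 2205) (nat_lit 32768) .dd)))))) (.br (nat_lit 10) (.ch (nat_lit 8) (.ev (nat_lit 1568) (nat_lit 2112)
 (.ev (nat_lit 5616) (nat_lit 65536) (.ev (nat_lit 5629) (nat_lit 32768) .dd)))) (.br (nat_lit 12) (.ch
 (nat_lit 10) (.ev (nat_lit 1568) (nat_lit 2048) (.ev (nat_lit 1700) (nat_lit 32768) (.ev (nat_lit 2036)
 (nat_lit 64) (.ev (nat_lit 2045) (nat_lit 65536) .dd))))) (.ch (nat_lit 12) (.ev (nat_lit 1568) (nat_lit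
 34816) (.ev (nat_lit 2036) (nat_lit 64) (.ev (nat_lit 2045) (nat_lit 65536) .dd))))))))))) (.ch (nat_lit 12)
 (.ev (nat_lit 896) (nat_lit 34880) (.ev (nat_lit 980) (nat_lit 65536) (.ev (nat_lit 989) (nat_lit 256)
 .dd)))))))))))) (.ch (nat_lit 1) (.ev (nat_lit 336) (nat_lit 65602) (.ev (nat_lit 468) (nat_lit 2048) (.nd
 (nat_lit 784) (.br (nat_lit 8) (.br (nat_lit 6) (.br (nat_lit 4) (.ch (nat_lit 1) (.nd (nat_lit 1744) (.br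
 (nat_lit 5) (.br (nat_lit 3) (.ch (nat_lit 0) (.ev (nat_lit 1760) (nat_lit 32768) (.ev (nat_lit 2036) (nat_lit
 1024) (.ev (nat_lit 2045) (nat_lit 256) .dd)))) (.br (nat_lit 4) (.ch (nat_lit 3) (.ev (nat_lit 1760) (nat_lit
 1280) (.ev (nat_lit 1773) (nat_lit 32768) .dd))) (.ch (nat_lit 4) (.ev (nat_lit 1760) (nat_lit 32768) (.ev
 (nat_lit 3188) (nat_lit 1024) (.ev (nat_lit 3197) (nat_lit 256) .dd)))))) (.br (nat_lit 7) (.ch (nat_lit 5)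
 (.ev (nat_lit 1760) (nat_lit 33024) (.ev (nat_lit 1773) (nat_lit 1024) .dd))) (.br (nat_lit 12) (.ch (nat_lit
 7) (.ev (nat_lit 1780) (nat_lit 1024) (.ev (nat_lit 3252) (nat_lit 32768) (.ev (nat_lit 3261) (nat_lit 256)
 .dd)))) (.ch (nat_lit 12) (.ev (nat_lit 1760) (nat_lit 32768) (.ev (nat_lit 4084) (nat_lit 256) (.ev (nat_lit
 4093) (nat_lit 1024) .dd))))))))) (.ch (nat_lit 4) (.ev (nat_lit 800) (nat_lit 1024) (.ev (nat_lit 3088)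
 (nat_lit 256) (.ev (nat_lit 3101) (nat_lit 32768) .dd))))) (.br (nat_lit 7) (.ch (nat_lit 6) (.nd (nat_lit
 2624) (.br (nat_lit 5) (.br (nat_lit 3) (.ch (nat_lit 0) (.ev (nat_lit 3076) (nat_lit 32768) (.ev (nat_lit
 3712) (nat_lit 256) (.ev (nat_lit 3725) (nat_lit 1024) .dd)))) (.ch (nat_lit 3) (.ev (nat_lit 2640) (nat_lit
 256) (.ev (nat_lit 3652) (nat_lit 32768) (.ev (nat_lit 3661) (nat_lit 1024) .dd))))) (.br (nat_lit 8) (.ch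
 (nat_lit 5) (.ev (nat_lit 2640) (nat_lit 32768) (.ev (nat_lit 4020) (nat_lit 256) (.ev (nat_lit 4029) (nat_lit
 1024) .dd)))) (.br (nat_lit 10) (.ch (nat_lit 8) (.ev (nat_lit 2640) (nat_lit 256) (.ev (nat_lit 5188)
 (nat_lit 32768) (.ev (nat_lit 5197) (nat_lit 1024) .dd)))) (.ch (nat_lit 10) (.ev (nat_lit 2640) (nat_lit
 1024) (.ev (nat_lit 3604) (nat_lit 32768) (.ev (nat_lit 3613) (nat_lit 256) .dd))))))))) (.ch (nat_lit 7) (.ev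
 (nat_lit 800) (nat_lit 33792) (.ev (nat_lit 813) (nat_lit 256) .dd))))) (.br (nat_lit 11) (.br (nat_lit 10)
 (.ch (nat_lit 8) (.ev (nat_lit 800) (nat_lit 33024) (.ev (nat_lit 813) (nat_lit 1024) .dd))) (.ch (nat_lit 10)
 (.nd (nat_lit 2128) (.br (nat_lit 6) (.br (nat_lit 3) (.ch (nat_lit 1) (.ev (nat_lit 2740) (nat_lit 256) (.ev
 (nat_lit 5444) (nat_lit 1024) (.ev (nat_lit 5453) (nat_lit 32768) .dd)))) (.br (nat_lit 4) (.ch (nat_lit 3)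
 (.ev (nat_lit 2144) (nat_lit 32768) (.ev (nat_lit 2740) (nat_lit 256) (.ev (nat_lit 2749) (nat_lit 1024)
 .dd)))) (.ch (nat_lit 4) (.ev (nat_lit 2676) (nat_lit 256) (.ev (nat_lit 3892) (nat_lit 1024) (.ev (nat_lit
 3901) (nat_lit 32768) .dd)))))) (.br (nat_lit 9) (.ch (nat_lit 6) (.ev (nat_lit 2144) (nat_lit 32768) (.ev
 (nat_lit 2820) (nat_lit 1024) (.ev (nat_lit 2829) (nat_lit 256) .dd)))) (.br (nat_lit 10) (.ch (nat_lit 9)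
 (.ev (nat_lit 2144) (nat_lit 1024) (.ev (nat_lit 2676) (nat_lit 256) (.ev (nat_lit 2685) (nat_lit 32768)
 .dd)))) (.ch (nat_lit 10) (.ev (nat_lit 2820) (nat_lit 1024) (.ev (nat_lit 3044) (nat_lit 32768) (.ev (nat_lit
 3053) (nat_lit 256) .dd)))))))))) (.br (nat_lit 12) (.ch (nat_lit 11) (.ev (nat_lit 800) (nat_lit 256) (.nd
 (nat_lit 1840) (.br (nat_lit 8) (.br (nat_lit 2) (.ch (nat_lit 0) (.ev (nat_lit 1856) (nat_lit 32768) (.ev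
 (nat_lit 1869) (nat_lit 1024) .dd))) (.br (nat_lit 6) (.ch (nat_lit 2) (.ev (nat_lit 2164) (nat_lit 32768)
 (.ev (nat_lit 2173) (nat_lit 1024) .dd))) (.ch (nat_lit 6) (.ev (nat_lit 6740) (nat_lit 1024) (.ev (nat_lit
 6749) (nat_lit 32768) .dd))))) (.br (nat_lit 9) (.ch (nat_lit 8) (.ev (nat_lit 1856) (nat_lit 1024) (.ev
 (nat_lit 1869) (nat_lit 32768) .dd))) (.br (nat_lit 12) (.ch (nat_lit 9) (.fin (nat_lit 576443709875765837)))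
 (.ch (nat_lit 12) (.ev (nat_lit 1856) (nat_lit 32768) (.ev (nat_lit 1869) (nat_lit 1024) .dd))))))))) (.ch
 (nat_lit 12) (.ev (nat_lit 800) (nat_lit 1280) (.ev (nat_lit 813) (nat_lit 32768) .dd))))))))))) (.br (nat_lit
 7) (.ch (nat_lit 4) (.ev (nat_lit 336) (nat_lit 258) (.nd (nat_lit 736) (.br (nat_lit 7) (.br (nat_lit 5) (.br
 (nat_lit 2) (.ch (nat_lit 1) (.ev (nat_lit 752) (nat_lit 66560) (.nd (nat_lit 1456) (.br (nat_lit 4) (.br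
 (nat_lit 1) (.ch (nat_lit 0) (.ev (nat_lit 1472) (nat_lit 2112) (.ev (nat_lit 1485) (nat_lit 32768) .dd)))
 (.br (nat_lit 3) (.ch (nat_lit 1) (.ev (nat_lit 2880) (nat_lit 2048) (.nd (nat_lit 4416) (.br (nat_lit 10)
 (.br (nat_lit 7) (.ch (nat_lit 5) (.ev (nat_lit 4432) (nat_lit 32768) (.ev (nat_lit 4445) (nat_lit 64) .dd)))
 (.ch (nat_lit 7) (.ev (nat_lit 6644) (nat_lit 64) (.ev (nat_lit 6653) (nat_lit 32768) .dd)))) (.br (nat_lit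
 11) (.ch (nat_lit 10) (.ev (nat_lit 4432) (nat_lit 64) (.ev (nat_lit 4445) (nat_lit 32768) .dd))) (.ch
 (nat_lit 11) (.ev (nat_lit 5492) (nat_lit 32768) (.ev (nat_lit 5501) (nat_lit 64) .dd)))))))) (.ch (nat_lit 3)
 (.ev (nat_lit 1472) (nat_lit 64) (.ev (nat_lit 2276) (nat_lit 32768) (.ev (nat_lit 2285) (nat_lit 2048)
 .dd)))))) (.br (nat_lit 8) (.br (nat_lit 7) (.ch (nat_lit 4) (.ev (nat_lit 1472) (nat_lit 32768) (.ev (nat_lit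
 2196) (nat_lit 2048) (.ev (nat_lit 2205) (nat_lit 64) .dd)))) (.ch (nat_lit 7) (.ev (nat_lit 1472) (nat_lit
 32768) (.ev (nat_lit 5604) (nat_lit 2048) (.ev (nat_lit 5613) (nat_lit 64) .dd))))) (.br (nat_lit 12) (.ch
 (nat_lit 8) (.ev (nat_lit 1472) (nat_lit 2048) (.ev (nat_lit 6644) (nat_lit 32768) (.ev (nat_lit 6653)
 (nat_lit 64) .dd)))) (.ch (nat_lit 12) (.ev (nat_lit 1780) (nat_lit 2048) (.ev (nat_lit 6644) (nat_lit 32768)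
 (.ev (nat_lit 6653) (nat_lit 64) .dd)))))))))) (.ch (nat_lit 2) (.ev (nat_lit 752) (nat_lit 32832) (.nd
 (nat_lit 1408) (.br (nat_lit 5) (.br (nat_lit 1) (.ch (nat_lit 0) (.nd (nat_lit 4224) (.br (nat_lit 7) (.br
 (nat_lit 4) (.ch (nat_lit 0) (.ev (nat_lit 4240) (nat_lit 65536) (.ev (nat_lit 4388) (nat_lit 1024) (.ev
 (nat_lit 4397) (nat_lit 2048) .dd)))) (.ch (nat_lit 4) (.ev (nat_lit 4240) (nat_lit 65536) (.ev (nat_lit 4500)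
 (nat_lit 2048) (.ev (nat_lit 4509) (nat_lit 1024) .dd))))) (.br (nat_lit 11) (.ch (nat_lit 7) (.ev (nat_lit
 4240) (nat_lit 65536) (.ev (nat_lit 4388) (nat_lit 1024) (.ev (nat_lit 4397) (nat_lit 2048) .dd)))) (.br
 (nat_lit 12) (.ch (nat_lit 11) (.ev (nat_lit 4240) (nat_lit 65536) (.ev (nat_lit 5140) (nat_lit 1024) (.ev
 (nat_lit 5149) (nat_lit 2048) .dd)))) (.ch (nat_lit 12) (.ev (nat_lit 6260) (nat_lit 1024) (.ev (nat_lit 6452)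
 (nat_lit 2048) (.ev (nat_lit 6461) (nat_lit 65536) .dd))))))))) (.br (nat_lit 4) (.ch (nat_lit 1) (.nd
 (nat_lit 4224) (.br (nat_lit 5) (.br (nat_lit 4) (.ch (nat_lit 2) (.ev (nat_lit 4240) (nat_lit 2048) (.ev
 (nat_lit 6356) (nat_lit 65536) (.ev (nat_lit 6365) (nat_lit 1024) .dd)))) (.ch (nat_lit 4) (.ev (nat_lit 4240)
 (nat_lit 65536) (.ev (nat_lit 4996) (nat_lit 2048) (.ev (nat_lit 5005) (nat_lit 1024) .dd))))) (.br (nat_lit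
 6) (.ch (nat_lit 5) (.ev (nat_lit 4240) (nat_lit 65536) (.ev (nat_lit 4404) (nat_lit 1024) (.ev (nat_lit 4413)
 (nat_lit 2048) .dd)))) (.br (nat_lit 9) (.ch (nat_lit 6) (.ev (nat_lit 4240) (nat_lit 1024) (.ev (nat_lit
 4996) (nat_lit 2048) (.ev (nat_lit 5005) (nat_lit 65536) .dd)))) (.ch (nat_lit 9) (.ev (nat_lit 4240) (nat_lit
 1024) (.ev (nat_lit 4468) (nat_lit 2048) (.ev (nat_lit 4477) (nat_lit 65536) .dd))))))))) (.ch (nat_lit 4)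
 (.ev (nat_lit 1424) (nat_lit 2048) (.ev (nat_lit 3876) (nat_lit 65536) (.ev (nat_lit 3885) (nat_lit 1024)
 .dd)))))) (.br (nat_lit 8) (.br (nat_lit 7) (.ch (nat_lit 5) (.ev (nat_lit 1424) (nat_lit 66560) (.ev (nat_lit
 1437) (nat_lit 2048) .dd))) (.ch (nat_lit 7) (.ev (nat_lit 1424) (nat_lit 65536) (.nd (nat_lit 4416) (.br
 (nat_lit 10) (.br (nat_lit 7) (.ch (nat_lit 6) (.ev (nat_lit 4432) (nat_lit 2048) (.ev (nat_lit 4445) (nat_lit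
 1024) .dd))) (.ch (nat_lit 7) (.ev (nat_lit 4432) (nat_lit 1024) (.ev (nat_lit 4445) (nat_lit 2048) .dd))))
 (.br (nat_lit 12) (.ch (nat_lit 10) (.ev (nat_lit 4432) (nat_lit 2048) (.ev (nat_lit 4445) (nat_lit 1024)
 .dd))) (.ch (nat_lit 12) (.ev (nat_lit 5552) (nat_lit 3072) .dd)))))))) (.br (nat_lit 9) (.ch (nat_lit 8) (.ev
 (nat_lit 1424) (nat_lit 1024) (.ev (nat_lit 2548) (nat_lit 65536) (.ev (nat_lit 2557) (nat_lit 2048) .dd))))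
 (.ch (nat_lit 9) (.ev (nat_lit 1424) (nat_lit 2048) (.nd (nat_lit 4416) (.br (nat_lit 7) (.br (nat_lit 3) (.ch
 (nat_lit 0) (.ev (nat_lit 4432) (nat_lit 65536) (.ev (nat_lit 4445) (nat_lit 1024) .dd))) (.ch (nat_lit 3)
 (.ev (nat_lit 4432) (nat_lit 65536) (.ev (nat_lit 4445) (nat_lit 1024) .dd)))) (.br (nat_lit 8) (.ch (nat_lit
 7) (.ev (nat_lit 4432) (nat_lit 65536) (.ev (nat_lit 4445) (nat_lit 1024) .dd))) (.br (nat_lit 10) (.ch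
 (nat_lit 8) (.fin (nat_lit 576284280545034842))) (.ch (nat_lit 10) (.ev (nat_lit 4432) (nat_lit 1024) (.ev
 (nat_lit 4445) (nat_lit 65536) .dd)))))))))))))))) (.br (nat_lit 6) (.ch (nat_lit 5) (.ev (nat_lit 752)
 (nat_lit 3072) (.nd (nat_lit 1456) (.br (nat_lit 5) (.br (nat_lit 3) (.ch (nat_lit 2) (.ev (nat_lit 1472)
 (nat_lit 65600) (.ev (nat_lit 1485) (nat_lit 32768) .dd))) (.br (nat_lit 4) (.ch (nat_lit 3) (.ev (nat_lit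
 1472) (nat_lit 98304) (.ev (nat_lit 1485) (nat_lit 64) .dd))) (.ch (nat_lit 4) (.ev (nat_lit 1472) (nat_lit
 32768) (.ev (nat_lit 3140) (nat_lit 65536) (.ev (nat_lit 3149) (nat_lit 64) .dd)))))) (.br (nat_lit 9) (.br
 (nat_lit 7) (.ch (nat_lit 5) (.ev (nat_lit 1472) (nat_lit 32768) (.ev (nat_lit 1892) (nat_lit 64) (.ev
 (nat_lit 1901) (nat_lit 65536) .dd)))) (.ch (nat_lit 7) (.ev (nat_lit 1472) (nat_lit 65600) (.ev (nat_lit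
 1485) (nat_lit 32768) .dd)))) (.br (nat_lit 12) (.ch (nat_lit 9) (.ev (nat_lit 5924) (nat_lit 64) (.ev
 (nat_lit 6692) (nat_lit 32768) (.ev (nat_lit 6701) (nat_lit 65536) .dd)))) (.ch (nat_lit 12) (.ev (nat_lit
 1472) (nat_lit 65536) (.ev (nat_lit 2196) (nat_lit 64) (.ev (nat_lit 2205) (nat_lit 32768) .dd)))))))))) (.ch
 (nat_lit 6) (.ev (nat_lit 752) (nat_lit 64) (.nd (nat_lit 1408) (.br (nat_lit 8) (.br (nat_lit 3) (.br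
 (nat_lit 2) (.ch (nat_lit 0) (.ev (nat_lit 1424) (nat_lit 66560) (.ev (nat_lit 2452) (nat_lit 2048) (.ev
 (nat_lit 2461) (nat_lit 32768) .dd)))) (.ch (nat_lit 2) (.ev (nat_lit 1424) (nat_lit 32768) (.ev (nat_lit
 1492) (nat_lit 1024) (.nd (nat_lit 4864) (.br (nat_lit 5) (.ch (nat_lit 4) (.ev (nat_lit 4880) (nat_lit 65536)
 (.ev (nat_lit 4893) (nat_lit 2048) .dd))) (.ch (nat_lit 5) (.ev (nat_lit 6452) (nat_lit 2048) (.ev (nat_lit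
 6461) (nat_lit 65536) .dd))))))))) (.br (nat_lit 4) (.ch (nat_lit 3) (.ev (nat_lit 1424) (nat_lit 32768) (.nd
 (nat_lit 4224) (.br (nat_lit 9) (.br (nat_lit 5) (.ch (nat_lit 2) (.ev (nat_lit 4240) (nat_lit 65536) (.ev
 (nat_lit 6500) (nat_lit 2048) (.ev (nat_lit 6509) (nat_lit 1024) .dd)))) (.ch (nat_lit 5) (.ev (nat_lit 4240)
 (nat_lit 65536) (.ev (nat_lit 6020) (nat_lit 2048) (.ev (nat_lit 6029) (nat_lit 1024) .dd))))) (.br (nat_lit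
 10) (.ch (nat_lit 9) (.ev (nat_lit 4240) (nat_lit 65536) (.ev (nat_lit 6608) (nat_lit 3072) .dd))) (.br
 (nat_lit 11) (.ch (nat_lit 10) (.ev (nat_lit 5140) (nat_lit 1024) (.fin (nat_lit 576504183098131075)))) (.ch
 (nat_lit 11) (.ev (nat_lit 4656) (nat_lit 1024) (.ev (nat_lit 6148) (nat_lit 2048) (.ev (nat_lit 6157)
 (nat_lit 65536) .dd)))))))))) (.ch (nat_lit 4) (.ev (nat_lit 1492) (nat_lit 2048) (.nd (nat_lit 4224) (.br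
 (nat_lit 7) (.br (nat_lit 6) (.ch (nat_lit 0) (.ev (nat_lit 4240) (nat_lit 65536) (.ev (nat_lit 5044) (nat_lit
 32768) (.ev (nat_lit 5053) (nat_lit 1024) .dd)))) (.ch (nat_lit 6) (.ev (nat_lit 4356) (nat_lit 1024) (.ev
 (nat_lit 4724) (nat_lit 65536) (.ev (nat_lit 4733) (nat_lit 32768) .dd))))) (.br (nat_lit 9) (.ch (nat_lit 7)
 (.ev (nat_lit 6064) (nat_lit 65536) (.fin (nat_lit 576458003504906860)))) (.ch (nat_lit 9) (.ev (nat_lit 4240)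
 (nat_lit 32768) (.ev (nat_lit 5764) (nat_lit 1024) (.ev (nat_lit 5773) (nat_lit 65536) .dd))))))))))) (.br
 (nat_lit 11) (.br (nat_lit 10) (.ch (nat_lit 8) (.nd (nat_lit 4224) (.br (nat_lit 7) (.br (nat_lit 5) (.br
 (nat_lit 3) (.ch (nat_lit 2) (.ev (nat_lit 4240) (nat_lit 66560) (.ev (nat_lit 4468) (nat_lit 2048) (.ev
 (nat_lit 4477) (nat_lit 32768) .dd)))) (.ch (nat_lit 3) (.ev (nat_lit 4240) (nat_lit 66560) (.ev (nat_lit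
 4468) (nat_lit 2048) (.ev (nat_lit 4477) (nat_lit 32768) .dd))))) (.br (nat_lit 6) (.ch (nat_lit 5) (.ev
 (nat_lit 4240) (nat_lit 65536) (.ev (nat_lit 4356) (nat_lit 32768) (.ev (nat_lit 5924) (nat_lit 1024) (.ev
 (nat_lit 5933) (nat_lit 2048) .dd))))) (.ch (nat_lit 6) (.ev (nat_lit 4240) (nat_lit 34816) (.ev (nat_lit
 5188) (nat_lit 65536) (.ev (nat_lit 5197) (nat_lit 1024) .dd)))))) (.br (nat_lit 9) (.br (nat_lit 8) (.ch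
 (nat_lit 7) (.ev (nat_lit 4240) (nat_lit 65536) (.ev (nat_lit 5572) (nat_lit 2048) (.fin (nat_lit
 576492088449253991))))) (.ch (nat_lit 8) (.ev (nat_lit 4240) (nat_lit 66560) (.ev (nat_lit 4356) (nat_lit
 32768) (.ev (nat_lit 4365) (nat_lit 2048) .dd))))) (.br (nat_lit 12) (.ch (nat_lit 9) (.ev (nat_lit 4240)
 (nat_lit 32768) (.ev (nat_lit 6020) (nat_lit 2048) (.ev (nat_lit 6356) (nat_lit 1024) (.ev (nat_lit 6365)
 (nat_lit 65536) .dd))))) (.ch (nat_lit 12) (.ev (nat_lit 4240) (nat_lit 34816) (.ev (nat_lit 5140) (nat_lit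
 65536) (.ev (nat_lit 5149) (nat_lit 1024) .dd))))))))) (.ch (nat_lit 10) (.ev (nat_lit 1424) (nat_lit 3072)
 (.ev (nat_lit 5104) (nat_lit 65536) (.ev (nat_lit 5117) (nat_lit 32768) .dd))))) (.br (nat_lit 12) (.ch
 (nat_lit 11) (.ev (nat_lit 1424) (nat_lit 1024) (.ev (nat_lit 1492) (nat_lit 2048) (.nd (nat_lit 4864) (.br
 (nat_lit 12) (.ch (nat_lit 7) (.ev (nat_lit 4880) (nat_lit 65536) (.ev (nat_lit 4893) (nat_lit 32768) .dd)))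
 (.ch (nat_lit 12) (.ev (nat_lit 5540) (nat_lit 32768) (.ev (nat_lit 5549) (nat_lit 65536) .dd)))))))) (.ch
 (nat_lit 12) (.ev (nat_lit 1424) (nat_lit 100352) (.ev (nat_lit 1437) (nat_lit 1024) .dd))))))))))) (.br
 (nat_lit 9) (.br (nat_lit 8) (.ch (nat_lit 7) (.ev (nat_lit 752) (nat_lit 34816) (.nd (nat_lit 1456) (.br
 (nat_lit 7) (.br (nat_lit 5) (.ch (nat_lit 4) (.ev (nat_lit 1472) (nat_lit 66560) (.ev (nat_lit 1485) (nat_lit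
 64) .dd))) (.br (nat_lit 6) (.ch (nat_lit 5) (.ev (nat_lit 1472) (nat_lit 65536) (.ev (nat_lit 6692) (nat_lit
 1024) (.ev (nat_lit 6701) (nat_lit 64) .dd)))) (.ch (nat_lit 6) (.ev (nat_lit 1472) (nat_lit 66560) (.ev
 (nat_lit 1485) (nat_lit 64) .dd))))) (.br (nat_lit 9) (.ch (nat_lit 7) (.ev (nat_lit 1472) (nat_lit 1024) (.ev
 (nat_lit 1892) (nat_lit 64) (.ev (nat_lit 1901) (nat_lit 65536) .dd)))) (.br (nat_lit 12) (.ch (nat_lit 9)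
 (.ev (nat_lit 1472) (nat_lit 64) (.ev (nat_lit 2900) (nat_lit 1024) (.ev (nat_lit 2909) (nat_lit 65536)
 .dd)))) (.ch (nat_lit 12) (.ev (nat_lit 1472) (nat_lit 64) (.ev (nat_lit 2752) (nat_lit 65536) (.ev (nat_lit
 2765) (nat_lit 1024) .dd)))))))))) (.ch (nat_lit 8) (.ev (nat_lit 752) (nat_lit 65536) (.nd (nat_lit 1408)
 (.br (nat_lit 6) (.br (nat_lit 2) (.ch (nat_lit 1) (.ev (nat_lit 1424) (nat_lit 33856) (.ev (nat_lit 1437)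
 (nat_lit 2048) .dd))) (.br (nat_lit 5) (.ch (nat_lit 2) (.nd (nat_lit 4224) (.br (nat_lit 5) (.br (nat_lit 3)
 (.ch (nat_lit 1) (.ev (nat_lit 4240) (nat_lit 1088) (.ev (nat_lit 6692) (nat_lit 32768) (.ev (nat_lit 6701)
 (nat_lit 2048) .dd)))) (.ch (nat_lit 3) (.ev (nat_lit 4240) (nat_lit 34816) (.ev (nat_lit 5776) (nat_lit 1088)
 .dd)))) (.br (nat_lit 8) (.ch (nat_lit 5) (.ev (nat_lit 4240) (nat_lit 32768) (.ev (nat_lit 6020) (nat_lit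
 1024) (.ev (nat_lit 6500) (nat_lit 64) (.ev (nat_lit 6509) (nat_lit 2048) .dd))))) (.ch (nat_lit 8) (.ev
 (nat_lit 4240) (nat_lit 33792) (.ev (nat_lit 6464) (nat_lit 2112) .dd))))))) (.ch (nat_lit 5) (.ev (nat_lit
 1424) (nat_lit 34816) (.ev (nat_lit 1684) (nat_lit 64) (.ev (nat_lit 1693) (nat_lit 1024) .dd)))))) (.br
 (nat_lit 10) (.br (nat_lit 9) (.ch (nat_lit 6) (.ev (nat_lit 1424) (nat_lit 3136) (.ev (nat_lit 1437) (nat_lit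
 32768) .dd))) (.ch (nat_lit 9) (.ev (nat_lit 1424) (nat_lit 2048) (.ev (nat_lit 1796) (nat_lit 32768) (.ev
 (nat_lit 6500) (nat_lit 64) (.ev (nat_lit 6509) (nat_lit 1024) .dd)))))) (.br (nat_lit 11) (.ch (nat_lit 10)
 (.ev (nat_lit 1424) (nat_lit 32768) (.ev (nat_lit 1444) (nat_lit 1024) (.ev (nat_lit 1684) (nat_lit 64) (.ev
 (nat_lit 1693) (nat_lit 2048) .dd))))) (.ch (nat_lit 11) (.ev (nat_lit 1424) (nat_lit 2048) (.nd (nat_lit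
 4304) (.br (nat_lit 10) (.ch (nat_lit 2) (.ev (nat_lit 4320) (nat_lit 32768) (.ev (nat_lit 6020) (nat_lit 64)
 (.ev (nat_lit 6029) (nat_lit 1024) .dd)))) (.ch (nat_lit 10) (.ev (nat_lit 6512) (nat_lit 1024) (.ev (nat_lit
 6596) (nat_lit 32768) (.ev (nat_lit 6605) (nat_lit 64) .dd))))))))))))))) (.br (nat_lit 10) (.ch (nat_lit 9)
 (.ev (nat_lit 752) (nat_lit 98304) (.nd (nat_lit 1408) (.br (nat_lit 3) (.br (nat_lit 1) (.ch (nat_lit 0) (.ev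
 (nat_lit 1424) (nat_lit 2112) (.ev (nat_lit 1437) (nat_lit 1024) .dd))) (.br (nat_lit 2) (.ch (nat_lit 1) (.ev
 (nat_lit 1424) (nat_lit 64) (.ev (nat_lit 1444) (nat_lit 1024) (.ev (nat_lit 1453) (nat_lit 2048) .dd)))) (.ch
 (nat_lit 2) (.ev (nat_lit 5444) (nat_lit 64) (.ev (nat_lit 6356) (nat_lit 1024) (.ev (nat_lit 6365) (nat_lit
 2048) .dd)))))) (.br (nat_lit 8) (.ch (nat_lit 3) (.ev (nat_lit 1424) (nat_lit 64) (.ev (nat_lit 3540)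
 (nat_lit 1024) (.ev (nat_lit 3549) (nat_lit 2048) .dd)))) (.br (nat_lit 11) (.ch (nat_lit 8) (.ev (nat_lit
 1424) (nat_lit 1024) (.ev (nat_lit 2180) (nat_lit 2048) (.ev (nat_lit 2189) (nat_lit 64) .dd)))) (.ch (nat_lit
 11) (.ev (nat_lit 1424) (nat_lit 1024) (.ev (nat_lit 2004) (nat_lit 2048) (.ev (nat_lit 2013) (nat_lit 64)
 .dd)))))))))) (.br (nat_lit 11) (.ch (nat_lit 10) (.ev (nat_lit 752) (nat_lit 68608) (.nd (nat_lit 1408) (.br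
 (nat_lit 8) (.br (nat_lit 5) (.br (nat_lit 4) (.ch (nat_lit 3) (.ev (nat_lit 3844) (nat_lit 32768) (.ev
 (nat_lit 3853) (nat_lit 64) .dd))) (.ch (nat_lit 4) (.ev (nat_lit 1424) (nat_lit 32768) (.ev (nat_lit 1437)
 (nat_lit 64) .dd)))) (.br (nat_lit 7) (.ch (nat_lit 5) (.ev (nat_lit 1424) (nat_lit 32768) (.ev (nat_lit 1437)
 (nat_lit 64) .dd))) (.ch (nat_lit 7) (.ev (nat_lit 1424) (nat_lit 64) (.ev (nat_lit 1437) (nat_lit 32768)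
 .dd))))) (.br (nat_lit 10) (.br (nat_lit 9) (.ch (nat_lit 8) (.ev (nat_lit 1604) (nat_lit 64) (.ev (nat_lit
 1613) (nat_lit 32768) .dd))) (.ch (nat_lit 9) (.ev (nat_lit 1424) (nat_lit 64) (.ev (nat_lit 1437) (nat_lit
 32768) .dd)))) (.br (nat_lit 12) (.ch (nat_lit 10) (.ev (nat_lit 1424) (nat_lit 64) (.ev (nat_lit 1437)
 (nat_lit 32768) .dd))) (.ch (nat_lit 12) (.nd (nat_lit 7328) (.br (nat_lit 9) (.ch (nat_lit 8) (.ev (nat_lit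
 7344) (nat_lit 32768) (.ev (nat_lit 7357) (nat_lit 64) .dd))) (.br (nat_lit 10) (.ch (nat_lit 9) (.fin
 (nat_lit 576531670732587636))) (.ch (nat_lit 10) (.ev (nat_lit 7344) (nat_lit 32832) .dd)))))))))))) (.ch
 (nat_lit 11) (.ev (nat_lit 752) (nat_lit 64) (.nd (nat_lit 1456) (.br (nat_lit 4) (.br (nat_lit 2) (.ch
 (nat_lit 0) (.ev (nat_lit 1472) (nat_lit 3072) (.nd (nat_lit 4224) (.br (nat_lit 8) (.ch (nat_lit 2) (.ev
 (nat_lit 4240) (nat_lit 32768) (.ev (nat_lit 4253) (nat_lit 65536) .dd))) (.ch (nat_lit 8) (.fin (nat_lit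
 576774662847415528))))))) (.br (nat_lit 3) (.ch (nat_lit 2) (.ev (nat_lit 1780) (nat_lit 2048) (.ev (nat_lit
 3076) (nat_lit 1024) (.nd (nat_lit 4592) (.br (nat_lit 8) (.br (nat_lit 1) (.ch (nat_lit 0) (.ev (nat_lit
 4608) (nat_lit 32768) (.ev (nat_lit 4621) (nat_lit 65536) .dd))) (.ch (nat_lit 1) (.ev (nat_lit 4608) (nat_lit
 65536) (.ev (nat_lit 4621) (nat_lit 32768) .dd)))) (.br (nat_lit 9) (.ch (nat_lit 8) (.ev (nat_lit 5984)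
 (nat_lit 98304) .dd)) (.ch (nat_lit 9) (.ev (nat_lit 4608) (nat_lit 65536) (.ev (nat_lit 4621) (nat_lit 32768)
 .dd))))))))) (.ch (nat_lit 3) (.ev (nat_lit 3076) (nat_lit 32768) (.ev (nat_lit 5236) (nat_lit 2048) (.ev
 (nat_lit 6512) (nat_lit 1024) (.ev (nat_lit 6525) (nat_lit 65536) .dd))))))) (.br (nat_lit 8) (.br (nat_lit 5)
 (.ch (nat_lit 4) (.ev (nat_lit 1472) (nat_lit 65536) (.ev (nat_lit 1780) (nat_lit 2048) (.ev (nat_lit 2900)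
 (nat_lit 1024) (.ev (nat_lit 2909) (nat_lit 32768) .dd))))) (.ch (nat_lit 5) (.ev (nat_lit 1472) (nat_lit
 35840) (.ev (nat_lit 1485) (nat_lit 65536) .dd)))) (.br (nat_lit 11) (.ch (nat_lit 8) (.ev (nat_lit 2788)
 (nat_lit 3072) (.nd (nat_lit 4864) (.br (nat_lit 5) (.br (nat_lit 2) (.ch (nat_lit 0) (.ev (nat_lit 4880)
 (nat_lit 65536) (.ev (nat_lit 4893) (nat_lit 32768) .dd))) (.ch (nat_lit 2) (.ev (nat_lit 5300) (nat_lit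
 32768) (.ev (nat_lit 5309) (nat_lit 65536) .dd)))) (.br (nat_lit 7) (.ch (nat_lit 5) (.ev (nat_lit 5876)
 (nat_lit 65536) (.ev (nat_lit 5885) (nat_lit 32768) .dd))) (.br (nat_lit 12) (.ch (nat_lit 7) (.ev (nat_lit
 4880) (nat_lit 98304) .dd)) (.ch (nat_lit 12) (.ev (nat_lit 4880) (nat_lit 65536) (.ev (nat_lit 4893) (nat_lit
 32768) .dd))))))))) (.ch (nat_lit 11) (.ev (nat_lit 1472) (nat_lit 65536) (.ev (nat_lit 5924) (nat_lit 1024)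
 (.ev (nat_lit 6356) (nat_lit 32768) (.ev (nat_lit 6365) (nat_lit 2048) .dd)))))))))))))))))) (.ch (nat_lit 7)
 (.ev (nat_lit 336) (nat_lit 68864) (.ev (nat_lit 564) (nat_lit 2) (.nd (nat_lit 944) (.br (nat_lit 5) (.br
 (nat_lit 3) (.br (nat_lit 1) (.ch (nat_lit 0) (.nd (nat_lit 1648) (.br (nat_lit 6) (.br (nat_lit 3) (.ch
 (nat_lit 0) (.ev (nat_lit 6400) (nat_lit 32832) .dd)) (.br (nat_lit 4) (.ch (nat_lit 3) (.ev (nat_lit 1700)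
 (nat_lit 32768) (.ev (nat_lit 1709) (nat_lit 64) .dd))) (.ch (nat_lit 4) (.ev (nat_lit 1664) (nat_lit 64) (.ev
 (nat_lit 1677) (nat_lit 32768) .dd))))) (.br (nat_lit 10) (.ch (nat_lit 6) (.ev (nat_lit 6260) (nat_lit 32768)
 (.ev (nat_lit 6269) (nat_lit 64) .dd))) (.br (nat_lit 12) (.ch (nat_lit 10) (.ev (nat_lit 6964) (nat_lit 64)
 (.ev (nat_lit 6973) (nat_lit 32768) .dd))) (.ch (nat_lit 12) (.ev (nat_lit 1664) (nat_lit 32768) (.ev (nat_lit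
 1677) (nat_lit 64) .dd)))))))) (.ch (nat_lit 1) (.ev (nat_lit 960) (nat_lit 32768) (.ev (nat_lit 973) (nat_lit
 64) .dd)))) (.br (nat_lit 4) (.ch (nat_lit 3) (.nd (nat_lit 1648) (.br (nat_lit 4) (.br (nat_lit 3) (.ch
 (nat_lit 1) (.ev (nat_lit 5668) (nat_lit 64) (.ev (nat_lit 5677) (nat_lit 32768) .dd))) (.ch (nat_lit 3) (.ev
 (nat_lit 2084) (nat_lit 32768) (.ev (nat_lit 2093) (nat_lit 64) .dd)))) (.br (nat_lit 6) (.ch (nat_lit 4) (.ev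
 (nat_lit 5364) (nat_lit 32768) (.ev (nat_lit 5373) (nat_lit 64) .dd))) (.br (nat_lit 10) (.ch (nat_lit 6) (.ev
 (nat_lit 2068) (nat_lit 64) (.ev (nat_lit 2077) (nat_lit 32768) .dd))) (.ch (nat_lit 10) (.ev (nat_lit 2068)
 (nat_lit 64) (.ev (nat_lit 2077) (nat_lit 32768) .dd)))))))) (.ch (nat_lit 4) (.ev (nat_lit 960) (nat_lit
 32832) .dd)))) (.br (nat_lit 10) (.br (nat_lit 7) (.ch (nat_lit 5) (.ev (nat_lit 960) (nat_lit 32768) (.ev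
 (nat_lit 973) (nat_lit 64) .dd))) (.ch (nat_lit 7) (.ev (nat_lit 960) (nat_lit 64) (.ev (nat_lit 973) (nat_lit
 32768) .dd)))) (.br (nat_lit 12) (.ch (nat_lit 10) (.nd (nat_lit 1648) (.br (nat_lit 6) (.br (nat_lit 4) (.ch
 (nat_lit 2) (.ev (nat_lit 1664) (nat_lit 32768) (.ev (nat_lit 1677) (nat_lit 64) .dd))) (.br (nat_lit 5) (.ch
 (nat_lit 4) (.ev (nat_lit 2868) (nat_lit 64) (.ev (nat_lit 2877) (nat_lit 32768) .dd))) (.ch (nat_lit 5) (.ev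
 (nat_lit 2900) (nat_lit 32768) (.ev (nat_lit 2909) (nat_lit 64) .dd))))) (.br (nat_lit 9) (.ch (nat_lit 6)
 (.ev (nat_lit 1664) (nat_lit 64) (.ev (nat_lit 1677) (nat_lit 32768) .dd))) (.br (nat_lit 10) (.ch (nat_lit 9)
 (.ev (nat_lit 1664) (nat_lit 32768) (.ev (nat_lit 1677) (nat_lit 64) .dd))) (.ch (nat_lit 10) (.ev (nat_lit
 2900) (nat_lit 64) (.ev (nat_lit 2909) (nat_lit 32768) .dd)))))))) (.ch (nat_lit 12) (.ev (nat_lit 960)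
 (nat_lit 64) (.ev (nat_lit 973) (nat_lit 32768) .dd)))))))))))) (.br (nat_lit 10) (.br (nat_lit 9) (.ch
 (nat_lit 8) (.ev (nat_lit 336) (nat_lit 32832) (.nd (nat_lit 736) (.br (nat_lit 5) (.br (nat_lit 3) (.br
 (nat_lit 2) (.ch (nat_lit 0) (.ev (nat_lit 752) (nat_lit 2304) (.nd (nat_lit 1648) (.br (nat_lit 5) (.br
 (nat_lit 2) (.br (nat_lit 1) (.ch (nat_lit 0) (.ev (nat_lit 1664) (nat_lit 2) (.ev (nat_lit 1876) (nat_lit
 1024) (.ev (nat_lit 1885) (nat_lit 65536) .dd)))) (.ch (nat_lit 1) (.ev (nat_lit 1664) (nat_lit 2) (.ev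
 (nat_lit 1684) (nat_lit 65536) (.ev (nat_lit 1693) (nat_lit 1024) .dd))))) (.br (nat_lit 3) (.ch (nat_lit 2)
 (.ev (nat_lit 1664) (nat_lit 66560) (.ev (nat_lit 1677) (nat_lit 2) .dd))) (.ch (nat_lit 3) (.ev (nat_lit
 1664) (nat_lit 1024) (.ev (nat_lit 2180) (nat_lit 2) (.ev (nat_lit 2189) (nat_lit 65536) .dd)))))) (.br
 (nat_lit 10) (.br (nat_lit 7) (.ch (nat_lit 5) (.ev (nat_lit 1664) (nat_lit 65538) (.ev (nat_lit 1677)
 (nat_lit 1024) .dd))) (.ch (nat_lit 7) (.ev (nat_lit 2004) (nat_lit 2) (.ev (nat_lit 3188) (nat_lit 65536)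
 (.ev (nat_lit 3197) (nat_lit 1024) .dd))))) (.br (nat_lit 11) (.ch (nat_lit 10) (.ev (nat_lit 1664) (nat_lit
 65536) (.ev (nat_lit 2004) (nat_lit 2) (.ev (nat_lit 2013) (nat_lit 1024) .dd)))) (.ch (nat_lit 11) (.ev
 (nat_lit 1664) (nat_lit 1024) (.ev (nat_lit 5876) (nat_lit 2) (.ev (nat_lit 5885) (nat_lit 65536)
 .dd)))))))))) (.ch (nat_lit 2) (.ev (nat_lit 752) (nat_lit 2048) (.nd (nat_lit 1552) (.br (nat_lit 8) (.br
 (nat_lit 3) (.br (nat_lit 1) (.ch (nat_lit 0) (.ev (nat_lit 1568) (nat_lit 65536) (.ev (nat_lit 2676) (nat_lit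
 2) (.ev (nat_lit 3892) (nat_lit 256) (.ev (nat_lit 3901) (nat_lit 1024) .dd))))) (.ch (nat_lit 1) (.ev
 (nat_lit 1568) (nat_lit 258) (.ev (nat_lit 6692) (nat_lit 65536) (.ev (nat_lit 6701) (nat_lit 1024) .dd)))))
 (.br (nat_lit 4) (.ch (nat_lit 3) (.ev (nat_lit 1568) (nat_lit 1280) (.ev (nat_lit 2212) (nat_lit 65536) (.ev
 (nat_lit 2221) (nat_lit 2) .dd)))) (.ch (nat_lit 4) (.ev (nat_lit 1568) (nat_lit 65538) (.ev (nat_lit 3652)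
 (nat_lit 1024) (.ev (nat_lit 3661) (nat_lit 256) .dd)))))) (.br (nat_lit 11) (.br (nat_lit 9) (.ch (nat_lit 8)
 (.ev (nat_lit 1568) (nat_lit 256) (.ev (nat_lit 4084) (nat_lit 2) (.ev (nat_lit 5668) (nat_lit 65536) (.ev
 (nat_lit 5677) (nat_lit 1024) .dd))))) (.ch (nat_lit 9) (.ev (nat_lit 1568) (nat_lit 65794) (.ev (nat_lit
 1581) (nat_lit 1024) .dd)))) (.br (nat_lit 12) (.ch (nat_lit 11) (.ev (nat_lit 1568) (nat_lit 2) (.ev (nat_lit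
 3892) (nat_lit 256) (.ev (nat_lit 6608) (nat_lit 65536) (.ev (nat_lit 6621) (nat_lit 1024) .dd))))) (.ch
 (nat_lit 12) (.ev (nat_lit 1568) (nat_lit 1280) (.ev (nat_lit 6644) (nat_lit 2) (.ev (nat_lit 6653) (nat_lit
 65536) .dd))))))))))) (.br (nat_lit 4) (.ch (nat_lit 3) (.ev (nat_lit 752) (nat_lit 66562) (.nd (nat_lit 2624)
 (.br (nat_lit 5) (.ch (nat_lit 0) (.ev (nat_lit 3488) (nat_lit 2304) .dd)) (.br (nat_lit 9) (.ch (nat_lit 5)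
 (.ev (nat_lit 2676) (nat_lit 2048) (.ev (nat_lit 2685) (nat_lit 256) .dd))) (.ch (nat_lit 9) (.ev (nat_lit
 3188) (nat_lit 2048) (.ev (nat_lit 3197) (nat_lit 256) .dd)))))))) (.ch (nat_lit 4) (.ev (nat_lit 752)
 (nat_lit 2) (.ev (nat_lit 1332) (nat_lit 256) (.nd (nat_lit 1552) (.br (nat_lit 5) (.br (nat_lit 1) (.ch
 (nat_lit 0) (.ev (nat_lit 1568) (nat_lit 65536) (.ev (nat_lit 6644) (nat_lit 2048) (.ev (nat_lit 6653)
 (nat_lit 1024) .dd)))) (.br (nat_lit 3) (.ch (nat_lit 1) (.ev (nat_lit 6384) (nat_lit 2048) (.nd (nat_lit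
 7520) (.br (nat_lit 4) (.ch (nat_lit 0) (.fin (nat_lit 576505282489172648))) (.br (nat_lit 7) (.ch (nat_lit 4)
 (.ev (nat_lit 7536) (nat_lit 66560) .dd)) (.ch (nat_lit 7) (.ev (nat_lit 7556) (nat_lit 1024) (.ev (nat_lit
 7565) (nat_lit 65536) .dd)))))))) (.ch (nat_lit 3) (.ev (nat_lit 1568) (nat_lit 2048) (.ev (nat_lit 1588)
 (nat_lit 1024) (.ev (nat_lit 1597) (nat_lit 65536) .dd)))))) (.br (nat_lit 11) (.br (nat_lit 8) (.ch (nat_lit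
 5) (.ev (nat_lit 1588) (nat_lit 65536) (.ev (nat_lit 7028) (nat_lit 1024) (.ev (nat_lit 7037) (nat_lit 2048)
 .dd)))) (.ch (nat_lit 8) (.ev (nat_lit 1568) (nat_lit 65536) (.ev (nat_lit 6512) (nat_lit 2048) (.ev (nat_lit
 6525) (nat_lit 1024) .dd))))) (.br (nat_lit 12) (.ch (nat_lit 11) (.ev (nat_lit 1568) (nat_lit 3072) (.ev
 (nat_lit 1581) (nat_lit 65536) .dd))) (.ch (nat_lit 12) (.ev (nat_lit 3876) (nat_lit 65536) (.ev (nat_lit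
 6596) (nat_lit 2048) (.ev (nat_lit 6605) (nat_lit 1024) .dd))))))))))))) (.br (nat_lit 9) (.br (nat_lit 7)
 (.ch (nat_lit 5) (.ev (nat_lit 1204) (nat_lit 2) (.nd (nat_lit 1648) (.br (nat_lit 6) (.br (nat_lit 4) (.br
 (nat_lit 1) (.ch (nat_lit 0) (.ev (nat_lit 1664) (nat_lit 3328) (.ev (nat_lit 1677) (nat_lit 65536) .dd)))
 (.ch (nat_lit 1) (.ev (nat_lit 1664) (nat_lit 67840) (.ev (nat_lit 1677) (nat_lit 1024) .dd)))) (.br (nat_lit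
 5) (.ch (nat_lit 4) (.ev (nat_lit 1664) (nat_lit 2048) (.ev (nat_lit 3540) (nat_lit 1024) (.ev (nat_lit 6452)
 (nat_lit 256) (.ev (nat_lit 6461) (nat_lit 65536) .dd))))) (.ch (nat_lit 5) (.ev (nat_lit 1664) (nat_lit
 65536) (.ev (nat_lit 2676) (nat_lit 256) (.ev (nat_lit 2788) (nat_lit 1024) (.ev (nat_lit 2797) (nat_lit 2048)
 .dd))))))) (.br (nat_lit 8) (.br (nat_lit 7) (.ch (nat_lit 6) (.ev (nat_lit 1664) (nat_lit 1024) (.nd (nat_lit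
 4416) (.br (nat_lit 6) (.ch (nat_lit 2) (.ev (nat_lit 6048) (nat_lit 256) (.ev (nat_lit 6644) (nat_lit 2048)
 (.ev (nat_lit 6653) (nat_lit 65536) .dd)))) (.br (nat_lit 11) (.ch (nat_lit 6) (.ev (nat_lit 4432) (nat_lit
 256) (.ev (nat_lit 5968) (nat_lit 67584) .dd))) (.ch (nat_lit 11) (.ev (nat_lit 4432) (nat_lit 65536) (.ev
 (nat_lit 6260) (nat_lit 256) (.ev (nat_lit 6269) (nat_lit 2048) .dd))))))))) (.ch (nat_lit 7) (.ev (nat_lit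
 1664) (nat_lit 1024) (.nd (nat_lit 4224) (.br (nat_lit 9) (.br (nat_lit 5) (.ch (nat_lit 1) (.ev (nat_lit
 4240) (nat_lit 2304) (.ev (nat_lit 4253) (nat_lit 65536) .dd))) (.br (nat_lit 8) (.ch (nat_lit 5) (.ev
 (nat_lit 4240) (nat_lit 2048) (.ev (nat_lit 6464) (nat_lit 65792) .dd))) (.ch (nat_lit 8) (.ev (nat_lit 4240)
 (nat_lit 67584) (.ev (nat_lit 4253) (nat_lit 256) .dd))))) (.br (nat_lit 11) (.ch (nat_lit 9) (.ev (nat_lit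
 4240) (nat_lit 67840) .dd)) (.br (nat_lit 12) (.ch (nat_lit 11) (.ev (nat_lit 4240) (nat_lit 65792) (.ev
 (nat_lit 4253) (nat_lit 2048) .dd))) (.ch (nat_lit 12) (.ev (nat_lit 4240) (nat_lit 65792) (.ev (nat_lit 4253)
 (nat_lit 2048) .dd)))))))))) (.br (nat_lit 9) (.ch (nat_lit 8) (.ev (nat_lit 1664) (nat_lit 66816) (.ev
 (nat_lit 1677) (nat_lit 2048) .dd))) (.br (nat_lit 10) (.ch (nat_lit 9) (.ev (nat_lit 1664) (nat_lit 3328)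
 (.ev (nat_lit 1677) (nat_lit 65536) .dd))) (.ch (nat_lit 10) (.ev (nat_lit 1664) (nat_lit 65792) (.ev (nat_lit
 2372) (nat_lit 1024) (.ev (nat_lit 2381) (nat_lit 2048) .dd))))))))))) (.ch (nat_lit 7) (.ev (nat_lit 752)
 (nat_lit 65538) (.ev (nat_lit 1156) (nat_lit 2048) (.nd (nat_lit 3408) (.br (nat_lit 10) (.ch (nat_lit 4)
 (.fin (nat_lit 576438212334404105))) (.ch (nat_lit 10) (.ev (nat_lit 3424) (nat_lit 1024) (.ev (nat_lit 3437)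
 (nat_lit 256) .dd))))))))) (.br (nat_lit 11) (.ch (nat_lit 9) (.ev (nat_lit 752) (nat_lit 66816) (.nd (nat_lit
 2336) (.br (nat_lit 7) (.br (nat_lit 4) (.br (nat_lit 3) (.ch (nat_lit 1) (.ev (nat_lit 2352) (nat_lit 2048)
 (.ev (nat_lit 2365) (nat_lit 2) .dd))) (.ch (nat_lit 3) (.ev (nat_lit 2352) (nat_lit 2048) (.ev (nat_lit 2365)
 (nat_lit 2) .dd)))) (.br (nat_lit 5) (.ch (nat_lit 4) (.ev (nat_lit 2352) (nat_lit 2) (.ev (nat_lit 2365)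
 (nat_lit 2048) .dd))) (.ch (nat_lit 5) (.ev (nat_lit 2740) (nat_lit 2) (.ev (nat_lit 2749) (nat_lit 2048)
 .dd))))) (.br (nat_lit 9) (.br (nat_lit 8) (.ch (nat_lit 7) (.ev (nat_lit 2676) (nat_lit 2) (.ev (nat_lit
 2685) (nat_lit 2048) .dd))) (.ch (nat_lit 8) (.ev (nat_lit 2352) (nat_lit 2048) (.ev (nat_lit 2365) (nat_lit
 2) .dd)))) (.br (nat_lit 10) (.ch (nat_lit 9) (.ev (nat_lit 2352) (nat_lit 2) (.ev (nat_lit 2365) (nat_lit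
 2048) .dd))) (.br (nat_lit 11) (.ch (nat_lit 10) (.ev (nat_lit 2352) (nat_lit 2048) (.ev (nat_lit 2365)
 (nat_lit 2) .dd))) (.ch (nat_lit 11) (.ev (nat_lit 2352) (nat_lit 2) (.ev (nat_lit 2365) (nat_lit 2048)
 .dd)))))))))) (.br (nat_lit 12) (.ch (nat_lit 11) (.ev (nat_lit 752) (nat_lit 3328) (.nd (nat_lit 1840) (.br
 (nat_lit 8) (.br (nat_lit 2) (.ch (nat_lit 0) (.ev (nat_lit 2036) (nat_lit 65536) (.ev (nat_lit 2045) (nat_lit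
 2) .dd))) (.br (nat_lit 3) (.ch (nat_lit 2) (.ev (nat_lit 1856) (nat_lit 65536) (.ev (nat_lit 1869) (nat_lit
 2) .dd))) (.ch (nat_lit 3) (.ev (nat_lit 1856) (nat_lit 65536) (.ev (nat_lit 1869) (nat_lit 2) .dd))))) (.br
 (nat_lit 10) (.ch (nat_lit 8) (.ev (nat_lit 2196) (nat_lit 65536) (.ev (nat_lit 2205) (nat_lit 2) .dd))) (.br
 (nat_lit 11) (.ch (nat_lit 10) (.ev (nat_lit 1856) (nat_lit 65536) (.ev (nat_lit 1869) (nat_lit 2) .dd))) (.ch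
 (nat_lit 11) (.ev (nat_lit 5364) (nat_lit 2) (.ev (nat_lit 5373) (nat_lit 65536) .dd))))))))) (.ch (nat_lit
 12) (.ev (nat_lit 752) (nat_lit 258) (.nd (nat_lit 1744) (.br (nat_lit 5) (.br (nat_lit 2) (.br (nat_lit 1)
 (.ch (nat_lit 0) (.ev (nat_lit 1760) (nat_lit 2048) (.ev (nat_lit 1876) (nat_lit 1024) (.ev (nat_lit 1885)
 (nat_lit 65536) .dd)))) (.ch (nat_lit 1) (.ev (nat_lit 6260) (nat_lit 1024) (.ev (nat_lit 6740) (nat_lit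
 65536) (.ev (nat_lit 6749) (nat_lit 2048) .dd))))) (.br (nat_lit 3) (.ch (nat_lit 2) (.ev (nat_lit 1760)
 (nat_lit 65536) (.ev (nat_lit 2004) (nat_lit 2048) (.ev (nat_lit 2013) (nat_lit 1024) .dd)))) (.ch (nat_lit 3)
 (.ev (nat_lit 1760) (nat_lit 65536) (.ev (nat_lit 2740) (nat_lit 2048) (.ev (nat_lit 2749) (nat_lit 1024)
 .dd)))))) (.br (nat_lit 8) (.br (nat_lit 7) (.ch (nat_lit 5) (.ev (nat_lit 1760) (nat_lit 65536) (.ev (nat_lit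
 2900) (nat_lit 2048) (.ev (nat_lit 2909) (nat_lit 1024) .dd)))) (.ch (nat_lit 7) (.ev (nat_lit 1760) (nat_lit
 3072) (.ev (nat_lit 1773) (nat_lit 65536) .dd)))) (.br (nat_lit 9) (.ch (nat_lit 8) (.ev (nat_lit 1760)
 (nat_lit 1024) (.ev (nat_lit 1780) (nat_lit 65536) (.ev (nat_lit 1789) (nat_lit 2048) .dd)))) (.br (nat_lit
 10) (.ch (nat_lit 9) (.ev (nat_lit 1760) (nat_lit 67584) (.ev (nat_lit 1773) (nat_lit 1024) .dd))) (.ch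
 (nat_lit 10) (.ev (nat_lit 1760) (nat_lit 68608) .dd)))))))))))))))) (.ch (nat_lit 9) (.ev (nat_lit 336)
 (nat_lit 100608) (.nd (nat_lit 784) (.br (nat_lit 7) (.br (nat_lit 5) (.ch (nat_lit 0) (.ev (nat_lit 800)
 (nat_lit 2) (.nd (nat_lit 1648) (.br (nat_lit 4) (.br (nat_lit 1) (.ch (nat_lit 0) (.nd (nat_lit 4304) (.br
 (nat_lit 5) (.ch (nat_lit 4) (.ev (nat_lit 6260) (nat_lit 64) (.ev (nat_lit 6269) (nat_lit 1024) .dd))) (.br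
 (nat_lit 12) (.ch (nat_lit 5) (.ev (nat_lit 4320) (nat_lit 64) (.ev (nat_lit 4333) (nat_lit 1024) .dd))) (.ch
 (nat_lit 12) (.ev (nat_lit 5492) (nat_lit 1024) (.ev (nat_lit 5501) (nat_lit 64) .dd))))))) (.br (nat_lit 3)
 (.ch (nat_lit 1) (.ev (nat_lit 1684) (nat_lit 1024) (.ev (nat_lit 1693) (nat_lit 64) .dd))) (.ch (nat_lit 3)
 (.ev (nat_lit 1664) (nat_lit 64) (.ev (nat_lit 1677) (nat_lit 1024) .dd))))) (.br (nat_lit 6) (.ch (nat_lit 4)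
 (.ev (nat_lit 1664) (nat_lit 1088) .dd)) (.br (nat_lit 11) (.ch (nat_lit 6) (.ev (nat_lit 3844) (nat_lit 64)
 (.ev (nat_lit 3853) (nat_lit 1024) .dd))) (.ch (nat_lit 11) (.ev (nat_lit 1664) (nat_lit 64) (.ev (nat_lit
 1677) (nat_lit 1024) .dd))))))))) (.br (nat_lit 6) (.ch (nat_lit 5) (.ev (nat_lit 1044) (nat_lit 2) (.nd
 (nat_lit 1648) (.br (nat_lit 4) (.br (nat_lit 2) (.ch (nat_lit 0) (.ev (nat_lit 3044) (nat_lit 1024) (.ev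
 (nat_lit 3053) (nat_lit 64) .dd))) (.br (nat_lit 3) (.ch (nat_lit 2) (.ev (nat_lit 1664) (nat_lit 1024) (.ev
 (nat_lit 1677) (nat_lit 64) .dd))) (.ch (nat_lit 3) (.ev (nat_lit 2084) (nat_lit 64) (.ev (nat_lit 2093)
 (nat_lit 1024) .dd))))) (.br (nat_lit 10) (.br (nat_lit 6) (.ch (nat_lit 4) (.ev (nat_lit 5876) (nat_lit 1024)
 (.ev (nat_lit 5885) (nat_lit 64) .dd))) (.ch (nat_lit 6) (.ev (nat_lit 1664) (nat_lit 64) (.ev (nat_lit 1677)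
 (nat_lit 1024) .dd)))) (.br (nat_lit 12) (.ch (nat_lit 10) (.ev (nat_lit 1664) (nat_lit 64) (.ev (nat_lit
 1677) (nat_lit 1024) .dd))) (.ch (nat_lit 12) (.ev (nat_lit 1664) (nat_lit 1088) .dd)))))))) (.ch (nat_lit 6)
 (.ev (nat_lit 800) (nat_lit 2) (.nd (nat_lit 1648) (.br (nat_lit 4) (.br (nat_lit 3) (.ch (nat_lit 2) (.ev
 (nat_lit 1664) (nat_lit 64) (.ev (nat_lit 1677) (nat_lit 1024) .dd))) (.ch (nat_lit 3) (.ev (nat_lit 1664)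
 (nat_lit 1024) (.ev (nat_lit 1677) (nat_lit 64) .dd)))) (.br (nat_lit 10) (.ch (nat_lit 4) (.ev (nat_lit 2452)
 (nat_lit 1024) (.ev (nat_lit 2461) (nat_lit 64) .dd))) (.br (nat_lit 12) (.ch (nat_lit 10) (.ev (nat_lit 1664)
 (nat_lit 1024) (.ev (nat_lit 1677) (nat_lit 64) .dd))) (.ch (nat_lit 12) (.fin (nat_lit
 577903860262585780))))))))))) (.br (nat_lit 9) (.br (nat_lit 8) (.ch (nat_lit 7) (.ev (nat_lit 800) (nat_lit
 1024) (.nd (nat_lit 1648) (.br (nat_lit 6) (.br (nat_lit 4) (.br (nat_lit 3) (.ch (nat_lit 0) (.ev (nat_lit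
 1892) (nat_lit 2) (.ev (nat_lit 1901) (nat_lit 64) .dd))) (.ch (nat_lit 3) (.ev (nat_lit 1664) (nat_lit 66)
 .dd))) (.br (nat_lit 5) (.ch (nat_lit 4) (.ev (nat_lit 6788) (nat_lit 64) (.ev (nat_lit 6797) (nat_lit 2)
 .dd))) (.ch (nat_lit 5) (.ev (nat_lit 1664) (nat_lit 64) (.ev (nat_lit 1677) (nat_lit 2) .dd))))) (.br
 (nat_lit 8) (.br (nat_lit 7) (.ch (nat_lit 6) (.ev (nat_lit 6452) (nat_lit 2) (.ev (nat_lit 6461) (nat_lit 64)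
 .dd))) (.ch (nat_lit 7) (.ev (nat_lit 1876) (nat_lit 2) (.ev (nat_lit 1885) (nat_lit 64) .dd)))) (.br (nat_lit
 9) (.ch (nat_lit 8) (.ev (nat_lit 1664) (nat_lit 66) .dd)) (.br (nat_lit 12) (.ch (nat_lit 9) (.ev (nat_lit
 1876) (nat_lit 2) (.ev (nat_lit 1885) (nat_lit 64) .dd))) (.ch (nat_lit 12) (.ev (nat_lit 1664) (nat_lit 2)
 (.ev (nat_lit 1677) (nat_lit 64) .dd)))))))))) (.ch (nat_lit 8) (.ev (nat_lit 800) (nat_lit 64) (.nd (nat_lit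
 1552) (.br (nat_lit 4) (.br (nat_lit 1) (.ch (nat_lit 0) (.ev (nat_lit 1568) (nat_lit 2) (.ev (nat_lit 1581)
 (nat_lit 1024) .dd))) (.br (nat_lit 3) (.ch (nat_lit 1) (.ev (nat_lit 1568) (nat_lit 2) (.ev (nat_lit 1581)
 (nat_lit 1024) .dd))) (.ch (nat_lit 3) (.nd (nat_lit 4416) (.br (nat_lit 7) (.br (nat_lit 2) (.ch (nat_lit 0)
 (.ev (nat_lit 6260) (nat_lit 1024) (.ev (nat_lit 6269) (nat_lit 2) .dd))) (.br (nat_lit 3) (.ch (nat_lit 2)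
 (.ev (nat_lit 4432) (nat_lit 1026) .dd)) (.ch (nat_lit 3) (.ev (nat_lit 4432) (nat_lit 1024) (.ev (nat_lit
 4445) (nat_lit 2) .dd))))) (.br (nat_lit 10) (.ch (nat_lit 7) (.ev (nat_lit 4432) (nat_lit 1024) (.ev (nat_lit
 4445) (nat_lit 2) .dd))) (.br (nat_lit 11) (.ch (nat_lit 10) (.ev (nat_lit 4432) (nat_lit 1026) .dd)) (.ch
 (nat_lit 11) (.ev (nat_lit 4432) (nat_lit 2) (.ev (nat_lit 4445) (nat_lit 1024) .dd)))))))))) (.br (nat_lit 6)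
 (.br (nat_lit 5) (.ch (nat_lit 4) (.ev (nat_lit 1568) (nat_lit 2) (.ev (nat_lit 1581) (nat_lit 1024) .dd)))
 (.ch (nat_lit 5) (.ev (nat_lit 6452) (nat_lit 2) (.ev (nat_lit 6461) (nat_lit 1024) .dd)))) (.br (nat_lit 9)
 (.ch (nat_lit 6) (.ev (nat_lit 1568) (nat_lit 2) (.ev (nat_lit 1581) (nat_lit 1024) .dd))) (.ch (nat_lit 9)
 (.ev (nat_lit 1568) (nat_lit 1024) (.ev (nat_lit 1581) (nat_lit 2) .dd)))))))))) (.br (nat_lit 10) (.ch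
 (nat_lit 9) (.ev (nat_lit 800) (nat_lit 1024) (.nd (nat_lit 1648) (.br (nat_lit 7) (.br (nat_lit 1) (.ch
 (nat_lit 0) (.ev (nat_lit 1664) (nat_lit 64) (.ev (nat_lit 1677) (nat_lit 2) .dd))) (.br (nat_lit 3) (.ch
 (nat_lit 1) (.ev (nat_lit 5188) (nat_lit 64) (.ev (nat_lit 5197) (nat_lit 2) .dd))) (.ch (nat_lit 3) (.ev
 (nat_lit 5668) (nat_lit 2) (.ev (nat_lit 5677) (nat_lit 64) .dd))))) (.br (nat_lit 11) (.br (nat_lit 8) (.ch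
 (nat_lit 7) (.ev (nat_lit 1664) (nat_lit 64) (.ev (nat_lit 1677) (nat_lit 2) .dd))) (.ch (nat_lit 8) (.ev
 (nat_lit 1664) (nat_lit 2) (.ev (nat_lit 1677) (nat_lit 64) .dd)))) (.br (nat_lit 12) (.ch (nat_lit 11) (.ev
 (nat_lit 5140) (nat_lit 2) (.ev (nat_lit 5149) (nat_lit 64) .dd))) (.ch (nat_lit 12) (.ev (nat_lit 1664)
 (nat_lit 2) (.ev (nat_lit 1677) (nat_lit 64) .dd))))))))) (.ch (nat_lit 10) (.ev (nat_lit 800) (nat_lit 64)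
 (.nd (nat_lit 1840) (.br (nat_lit 5) (.ch (nat_lit 1) (.ev (nat_lit 2912) (nat_lit 1024) (.ev (nat_lit 2925)
 (nat_lit 2) .dd))) (.br (nat_lit 11) (.ch (nat_lit 5) (.ev (nat_lit 2372) (nat_lit 2) (.ev (nat_lit 2381)
 (nat_lit 1024) .dd))) (.ch (nat_lit 11) (.ev (nat_lit 2788) (nat_lit 1024) (.ev (nat_lit 2797) (nat_lit 2)
 .dd))))))))))))))) (.br (nat_lit 11) (.ch (nat_lit 10) (.ev (nat_lit 336) (nat_lit 33088) (.nd (nat_lit 736)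
 (.br (nat_lit 4) (.br (nat_lit 2) (.br (nat_lit 1) (.ch (nat_lit 0) (.ev (nat_lit 752) (nat_lit 2) (.nd
 (nat_lit 1744) (.br (nat_lit 6) (.br (nat_lit 3) (.ch (nat_lit 1) (.ev (nat_lit 1760) (nat_lit 1024) (.ev
 (nat_lit 5364) (nat_lit 2048) (.ev (nat_lit 5373) (nat_lit 65536) .dd)))) (.br (nat_lit 5) (.ch (nat_lit 3)
 (.ev (nat_lit 1760) (nat_lit 1024) (.ev (nat_lit 1908) (nat_lit 65536) (.ev (nat_lit 1917) (nat_lit 2048)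
 .dd)))) (.ch (nat_lit 5) (.ev (nat_lit 2820) (nat_lit 1024) (.ev (nat_lit 5044) (nat_lit 65536) (.ev (nat_lit
 5053) (nat_lit 2048) .dd)))))) (.br (nat_lit 9) (.ch (nat_lit 6) (.ev (nat_lit 1760) (nat_lit 2048) (.fin
 (nat_lit 576403027213632177)))) (.br (nat_lit 12) (.ch (nat_lit 9) (.ev (nat_lit 1760) (nat_lit 3072) (.ev
 (nat_lit 1773) (nat_lit 65536) .dd))) (.ch (nat_lit 12) (.ev (nat_lit 1760) (nat_lit 65536) (.ev (nat_lit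
 1828) (nat_lit 2048) (.ev (nat_lit 1837) (nat_lit 1024) .dd)))))))))) (.ch (nat_lit 1) (.nd (nat_lit 1840)
 (.br (nat_lit 8) (.br (nat_lit 2) (.br (nat_lit 1) (.ch (nat_lit 0) (.ev (nat_lit 1856) (nat_lit 68608) (.ev
 (nat_lit 1869) (nat_lit 2) .dd))) (.ch (nat_lit 1) (.ev (nat_lit 1856) (nat_lit 3072) (.ev (nat_lit 2868)
 (nat_lit 2) (.ev (nat_lit 2877) (nat_lit 65536) .dd))))) (.br (nat_lit 4) (.ch (nat_lit 2) (.ev (nat_lit 1856)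
 (nat_lit 68608) (.ev (nat_lit 1869) (nat_lit 2) .dd))) (.ch (nat_lit 4) (.ev (nat_lit 1856) (nat_lit 2048)
 (.ev (nat_lit 2788) (nat_lit 1024) (.ev (nat_lit 6288) (nat_lit 2) (.ev (nat_lit 6301) (nat_lit 65536)
 .dd))))))) (.br (nat_lit 10) (.br (nat_lit 9) (.ch (nat_lit 8) (.ev (nat_lit 1856) (nat_lit 2048) (.ev
 (nat_lit 2004) (nat_lit 1024) (.nd (nat_lit 7632) (.br (nat_lit 9) (.ch (nat_lit 6) (.ev (nat_lit 7648)
 (nat_lit 65538) .dd)) (.ch (nat_lit 9) (.fin (nat_lit 575700429968988741)))))))) (.ch (nat_lit 9) (.ev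
 (nat_lit 1856) (nat_lit 1026) (.ev (nat_lit 6868) (nat_lit 2048) (.ev (nat_lit 6877) (nat_lit 65536) .dd)))))
 (.br (nat_lit 11) (.ch (nat_lit 10) (.ev (nat_lit 1856) (nat_lit 1026) (.ev (nat_lit 6452) (nat_lit 2048) (.ev
 (nat_lit 6461) (nat_lit 65536) .dd)))) (.br (nat_lit 12) (.ch (nat_lit 11) (.ev (nat_lit 1856) (nat_lit 65538)
 (.ev (nat_lit 5140) (nat_lit 1024) (.ev (nat_lit 5149) (nat_lit 2048) .dd)))) (.ch (nat_lit 12) (.ev (nat_lit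
 1856) (nat_lit 2) (.ev (nat_lit 1876) (nat_lit 65536) (.ev (nat_lit 2004) (nat_lit 1024) (.ev (nat_lit 2013)
 (nat_lit 2048) .dd)))))))))))) (.br (nat_lit 3) (.ch (nat_lit 2) (.nd (nat_lit 1552) (.br (nat_lit 6) (.br
 (nat_lit 4) (.br (nat_lit 3) (.ch (nat_lit 2) (.ev (nat_lit 1568) (nat_lit 2) (.nd (nat_lit 7296) (.br
 (nat_lit 12) (.ch (nat_lit 4) (.nd (nat_lit 8752) (.ch (nat_lit 12) (.nd (nat_lit 9408) (.br (nat_lit 3) (.ch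
 (nat_lit 2) (.ev (nat_lit 9424) (nat_lit 2048) (.fin (nat_lit 576451406431994458)))) (.ch (nat_lit 3) (.ev
 (nat_lit 9424) (nat_lit 65536) (.fin (nat_lit 579861001996284467))))))))) (.ch (nat_lit 12) (.ev (nat_lit
 7312) (nat_lit 2048) (.fin (nat_lit 579823611575475801)))))))) (.ch (nat_lit 3) (.ev (nat_lit 1568) (nat_lit
 66560) (.nd (nat_lit 7392) (.br (nat_lit 11) (.ch (nat_lit 7) (.ev (nat_lit 7408) (nat_lit 2048) (.ev (nat_lit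
 7421) (nat_lit 2) .dd))) (.ch (nat_lit 11) (.nd (nat_lit 8960) (.br (nat_lit 11) (.ch (nat_lit 2) (.fin
 (nat_lit 576465700096786995))) (.ch (nat_lit 11) (.ev (nat_lit 8976) (nat_lit 2050) .dd)))))))))) (.br
 (nat_lit 5) (.ch (nat_lit 4) (.ev (nat_lit 1568) (nat_lit 2050) (.nd (nat_lit 4864) (.br (nat_lit 9) (.ch
 (nat_lit 8) (.ev (nat_lit 4932) (nat_lit 65536) (.ev (nat_lit 4941) (nat_lit 1024) .dd))) (.ch (nat_lit 9)
 (.ev (nat_lit 6260) (nat_lit 65536) (.ev (nat_lit 6269) (nat_lit 1024) .dd))))))) (.ch (nat_lit 5) (.ev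
 (nat_lit 1568) (nat_lit 2) (.ev (nat_lit 5876) (nat_lit 1024) (.ev (nat_lit 6048) (nat_lit 2048) (.ev (nat_lit
 6061) (nat_lit 65536) .dd))))))) (.br (nat_lit 8) (.br (nat_lit 7) (.ch (nat_lit 6) (.ev (nat_lit 1568)
 (nat_lit 3074) (.ev (nat_lit 1581) (nat_lit 65536) .dd))) (.ch (nat_lit 7) (.ev (nat_lit 1568) (nat_lit 2)
 (.ev (nat_lit 1588) (nat_lit 1024) (.ev (nat_lit 5056) (nat_lit 2048) (.ev (nat_lit 5069) (nat_lit 65536)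
 .dd)))))) (.br (nat_lit 11) (.ch (nat_lit 8) (.ev (nat_lit 1568) (nat_lit 66560) (.ev (nat_lit 5364) (nat_lit
 2) (.ev (nat_lit 5373) (nat_lit 2048) .dd)))) (.br (nat_lit 12) (.ch (nat_lit 11) (.ev (nat_lit 1568) (nat_lit
 2050) (.ev (nat_lit 6964) (nat_lit 65536) (.ev (nat_lit 6973) (nat_lit 1024) .dd)))) (.ch (nat_lit 12) (.ev
 (nat_lit 1568) (nat_lit 67584) (.ev (nat_lit 6800) (nat_lit 2) (.ev (nat_lit 6813) (nat_lit 1024)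
 .dd)))))))))) (.ch (nat_lit 3) (.ev (nat_lit 752) (nat_lit 68610) .dd)))) (.br (nat_lit 7) (.br (nat_lit 6)
 (.ch (nat_lit 4) (.ev (nat_lit 752) (nat_lit 67584) (.nd (nat_lit 1744) (.br (nat_lit 9) (.br (nat_lit 5) (.ch
 (nat_lit 4) (.ev (nat_lit 5716) (nat_lit 2) (.ev (nat_lit 5725) (nat_lit 1024) .dd))) (.br (nat_lit 7) (.ch
 (nat_lit 5) (.ev (nat_lit 1760) (nat_lit 2) (.ev (nat_lit 1773) (nat_lit 1024) .dd))) (.ch (nat_lit 7) (.ev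
 (nat_lit 6868) (nat_lit 1024) (.ev (nat_lit 6877) (nat_lit 2) .dd))))) (.br (nat_lit 10) (.ch (nat_lit 9) (.ev
 (nat_lit 1780) (nat_lit 2) (.ev (nat_lit 1789) (nat_lit 1024) .dd))) (.br (nat_lit 12) (.ch (nat_lit 10) (.ev
 (nat_lit 1760) (nat_lit 2) (.ev (nat_lit 1773) (nat_lit 1024) .dd))) (.ch (nat_lit 12) (.ev (nat_lit 1760)
 (nat_lit 2) (.ev (nat_lit 1773) (nat_lit 1024) .dd))))))))) (.ch (nat_lit 6) (.ev (nat_lit 752) (nat_lit 2048)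
 (.nd (nat_lit 1744) (.br (nat_lit 5) (.br (nat_lit 3) (.br (nat_lit 2) (.ch (nat_lit 0) (.ev (nat_lit 1760)
 (nat_lit 1026) (.ev (nat_lit 1773) (nat_lit 65536) .dd))) (.ch (nat_lit 2) (.ev (nat_lit 1760) (nat_lit 1026)
 (.ev (nat_lit 1773) (nat_lit 65536) .dd)))) (.br (nat_lit 4) (.ch (nat_lit 3) (.ev (nat_lit 1760) (nat_lit
 1024) (.ev (nat_lit 5492) (nat_lit 65536) (.ev (nat_lit 5501) (nat_lit 2) .dd)))) (.ch (nat_lit 4) (.ev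
 (nat_lit 1760) (nat_lit 65536) (.ev (nat_lit 2868) (nat_lit 1024) (.ev (nat_lit 2877) (nat_lit 2) .dd))))))
 (.br (nat_lit 9) (.br (nat_lit 8) (.ch (nat_lit 5) (.ev (nat_lit 1760) (nat_lit 65536) (.ev (nat_lit 3104)
 (nat_lit 1024) (.ev (nat_lit 3117) (nat_lit 2) .dd)))) (.ch (nat_lit 8) (.ev (nat_lit 1760) (nat_lit 66562)
 .dd))) (.br (nat_lit 10) (.ch (nat_lit 9) (.ev (nat_lit 1760) (nat_lit 1024) (.ev (nat_lit 3284) (nat_lit 2)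
 (.ev (nat_lit 3293) (nat_lit 65536) .dd)))) (.br (nat_lit 11) (.ch (nat_lit 10) (.ev (nat_lit 1760) (nat_lit
 2) (.ev (nat_lit 2004) (nat_lit 1024) (.ev (nat_lit 2013) (nat_lit 65536) .dd)))) (.ch (nat_lit 11) (.ev
 (nat_lit 1760) (nat_lit 2) (.ev (nat_lit 2004) (nat_lit 1024) (.ev (nat_lit 2013) (nat_lit 65536)
 .dd)))))))))))) (.br (nat_lit 9) (.ch (nat_lit 7) (.ev (nat_lit 752) (nat_lit 67584) (.nd (nat_lit 1744) (.br
 (nat_lit 4) (.br (nat_lit 1) (.ch (nat_lit 0) (.ev (nat_lit 1760) (nat_lit 2) (.ev (nat_lit 1773) (nat_lit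
 1024) .dd))) (.br (nat_lit 2) (.ch (nat_lit 1) (.ev (nat_lit 1780) (nat_lit 2) (.ev (nat_lit 1789) (nat_lit
 1024) .dd))) (.ch (nat_lit 2) (.ev (nat_lit 1760) (nat_lit 1024) (.ev (nat_lit 1773) (nat_lit 2) .dd))))) (.br
 (nat_lit 7) (.br (nat_lit 5) (.ch (nat_lit 4) (.ev (nat_lit 2068) (nat_lit 1024) (.ev (nat_lit 2077) (nat_lit
 2) .dd))) (.ch (nat_lit 5) (.ev (nat_lit 1760) (nat_lit 1024) (.ev (nat_lit 1773) (nat_lit 2) .dd)))) (.br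
 (nat_lit 11) (.ch (nat_lit 7) (.ev (nat_lit 1780) (nat_lit 2) (.ev (nat_lit 1789) (nat_lit 1024) .dd))) (.ch
 (nat_lit 11) (.ev (nat_lit 6452) (nat_lit 1024) (.ev (nat_lit 6461) (nat_lit 2) .dd))))))))) (.br (nat_lit 10)
 (.ch (nat_lit 9) (.ev (nat_lit 752) (nat_lit 3072) (.ev (nat_lit 1044) (nat_lit 2) (.ev (nat_lit 1053)
 (nat_lit 65536) .dd)))) (.ch (nat_lit 10) (.ev (nat_lit 752) (nat_lit 3074) (.ev (nat_lit 765) (nat_lit 65536)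
 .dd)))))))))) (.br (nat_lit 12) (.ch (nat_lit 11) (.ev (nat_lit 336) (nat_lit 1026) (.nd (nat_lit 624) (.br
 (nat_lit 6) (.br (nat_lit 4) (.br (nat_lit 2) (.ch (nat_lit 1) (.ev (nat_lit 640) (nat_lit 65536) (.nd
 (nat_lit 1408) (.br (nat_lit 7) (.br (nat_lit 1) (.ch (nat_lit 0) (.ev (nat_lit 1424) (nat_lit 2048) (.ev
 (nat_lit 1876) (nat_lit 256) (.ev (nat_lit 6692) (nat_lit 32768) (.ev (nat_lit 6701) (nat_lit 64) .dd)))))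
 (.br (nat_lit 3) (.ch (nat_lit 1) (.ev (nat_lit 1424) (nat_lit 2304) (.ev (nat_lit 2420) (nat_lit 64) (.ev
 (nat_lit 2429) (nat_lit 32768) .dd)))) (.ch (nat_lit 3) (.ev (nat_lit 1424) (nat_lit 34816) (.ev (nat_lit
 2452) (nat_lit 64) (.ev (nat_lit 2461) (nat_lit 256) .dd)))))) (.br (nat_lit 10) (.br (nat_lit 9) (.ch
 (nat_lit 7) (.ev (nat_lit 2180) (nat_lit 256) (.ev (nat_lit 4064) (nat_lit 32768) (.fin (nat_lit
 576493187933618774))))) (.ch (nat_lit 9) (.ev (nat_lit 1424) (nat_lit 32832) (.ev (nat_lit 2180) (nat_lit 256)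
 (.ev (nat_lit 2189) (nat_lit 2048) .dd))))) (.br (nat_lit 12) (.ch (nat_lit 10) (.ev (nat_lit 1424) (nat_lit
 32768) (.ev (nat_lit 2820) (nat_lit 2048) (.ev (nat_lit 3044) (nat_lit 64) (.ev (nat_lit 3053) (nat_lit 256)
 .dd))))) (.ch (nat_lit 12) (.ev (nat_lit 1424) (nat_lit 64) (.ev (nat_lit 1796) (nat_lit 32768) (.ev (nat_lit
 1876) (nat_lit 2048) (.ev (nat_lit 1885) (nat_lit 256) .dd))))))))))) (.ch (nat_lit 2) (.nd (nat_lit 1456)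
 (.br (nat_lit 7) (.br (nat_lit 3) (.br (nat_lit 2) (.ch (nat_lit 1) (.ev (nat_lit 1472) (nat_lit 65792) (.ev
 (nat_lit 1876) (nat_lit 32832) (.ev (nat_lit 1885) (nat_lit 2048) .dd)))) (.ch (nat_lit 2) (.ev (nat_lit 1472)
 (nat_lit 98560) (.ev (nat_lit 1780) (nat_lit 2048) (.ev (nat_lit 1789) (nat_lit 64) .dd))))) (.br (nat_lit 4)
 (.ch (nat_lit 3) (.ev (nat_lit 1472) (nat_lit 65600) (.ev (nat_lit 1780) (nat_lit 2048) (.ev (nat_lit 6208)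
 (nat_lit 32768) (.ev (nat_lit 6221) (nat_lit 256) .dd))))) (.ch (nat_lit 4) (.ev (nat_lit 1472) (nat_lit 320)
 (.ev (nat_lit 1876) (nat_lit 32768) (.ev (nat_lit 6692) (nat_lit 2048) (.ev (nat_lit 6701) (nat_lit 65536)
 .dd))))))) (.br (nat_lit 9) (.br (nat_lit 8) (.ch (nat_lit 7) (.ev (nat_lit 1472) (nat_lit 34816) (.ev
 (nat_lit 2068) (nat_lit 64) (.fin (nat_lit 576420620130533957))))) (.ch (nat_lit 8) (.ev (nat_lit 1472)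
 (nat_lit 98304) (.ev (nat_lit 1780) (nat_lit 2048) (.ev (nat_lit 2084) (nat_lit 64) (.ev (nat_lit 2093)
 (nat_lit 256) .dd)))))) (.br (nat_lit 10) (.ch (nat_lit 9) (.ev (nat_lit 1472) (nat_lit 2112) (.ev (nat_lit
 2244) (nat_lit 256) (.ev (nat_lit 2420) (nat_lit 32768) (.ev (nat_lit 2429) (nat_lit 65536) .dd))))) (.br
 (nat_lit 12) (.ch (nat_lit 10) (.ev (nat_lit 1472) (nat_lit 2368) (.ev (nat_lit 2388) (nat_lit 32768) (.ev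
 (nat_lit 2397) (nat_lit 65536) .dd)))) (.ch (nat_lit 12) (.ev (nat_lit 1472) (nat_lit 33088) (.ev (nat_lit
 3012) (nat_lit 2048) (.ev (nat_lit 3021) (nat_lit 65536) .dd))))))))))) (.br (nat_lit 5) (.ch (nat_lit 4) (.ev
 (nat_lit 640) (nat_lit 65536) (.nd (nat_lit 1408) (.br (nat_lit 9) (.br (nat_lit 3) (.ch (nat_lit 1) (.ev
 (nat_lit 2788) (nat_lit 2048) (.nd (nat_lit 4592) (.br (nat_lit 4) (.br (nat_lit 3) (.ch (nat_lit 1) (.ev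
 (nat_lit 4608) (nat_lit 256) (.ev (nat_lit 5044) (nat_lit 64) (.ev (nat_lit 5053) (nat_lit 32768) .dd)))) (.ch
 (nat_lit 3) (.ev (nat_lit 4644) (nat_lit 64) (.ev (nat_lit 4724) (nat_lit 32768) (.ev (nat_lit 4733) (nat_lit
 256) .dd))))) (.br (nat_lit 11) (.ch (nat_lit 4) (.ev (nat_lit 5188) (nat_lit 64) (.ev (nat_lit 5716) (nat_lit
 256) (.ev (nat_lit 5725) (nat_lit 32768) .dd)))) (.br (nat_lit 12) (.ch (nat_lit 11) (.ev (nat_lit 4692)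
 (nat_lit 32768) (.ev (nat_lit 5140) (nat_lit 64) (.ev (nat_lit 5149) (nat_lit 256) .dd)))) (.ch (nat_lit 12)
 (.ev (nat_lit 4608) (nat_lit 256) (.ev (nat_lit 4644) (nat_lit 64) (.ev (nat_lit 4653) (nat_lit 32768)
 .dd)))))))))) (.br (nat_lit 4) (.ch (nat_lit 3) (.ev (nat_lit 1424) (nat_lit 2304) (.ev (nat_lit 6260)
 (nat_lit 32768) (.ev (nat_lit 6269) (nat_lit 64) .dd)))) (.ch (nat_lit 4) (.ev (nat_lit 1424) (nat_lit 2048)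
 (.nd (nat_lit 4224) (.br (nat_lit 6) (.br (nat_lit 5) (.ch (nat_lit 3) (.ev (nat_lit 4240) (nat_lit 32768)
 (.ev (nat_lit 4692) (nat_lit 64) (.ev (nat_lit 4701) (nat_lit 256) .dd)))) (.ch (nat_lit 5) (.ev (nat_lit
 4240) (nat_lit 32768) (.ev (nat_lit 4356) (nat_lit 64) (.ev (nat_lit 4365) (nat_lit 256) .dd))))) (.br
 (nat_lit 7) (.ch (nat_lit 6) (.ev (nat_lit 4240) (nat_lit 256) (.ev (nat_lit 4356) (nat_lit 64) (.ev (nat_lit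
 4365) (nat_lit 32768) .dd)))) (.br (nat_lit 12) (.ch (nat_lit 7) (.ev (nat_lit 4356) (nat_lit 32768) (.ev
 (nat_lit 4468) (nat_lit 256) (.ev (nat_lit 4477) (nat_lit 64) .dd)))) (.ch (nat_lit 12) (.ev (nat_lit 4356)
 (nat_lit 64) (.ev (nat_lit 4932) (nat_lit 32768) (.ev (nat_lit 4941) (nat_lit 256) .dd)))))))))))) (.br
 (nat_lit 11) (.ch (nat_lit 9) (.ev (nat_lit 1424) (nat_lit 33024) (.ev (nat_lit 2036) (nat_lit 64) (.ev
 (nat_lit 2045) (nat_lit 2048) .dd)))) (.br (nat_lit 12) (.ch (nat_lit 11) (.ev (nat_lit 1424) (nat_lit 2304)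
 (.nd (nat_lit 4224) (.br (nat_lit 4) (.ch (nat_lit 0) (.ev (nat_lit 4756) (nat_lit 32768) (.ev (nat_lit 4765)
 (nat_lit 64) .dd))) (.ch (nat_lit 4) (.ev (nat_lit 4724) (nat_lit 64) (.ev (nat_lit 4733) (nat_lit 32768)
 .dd))))))) (.ch (nat_lit 12) (.ev (nat_lit 2164) (nat_lit 256) (.ev (nat_lit 3700) (nat_lit 2048) (.nd
 (nat_lit 4416) (.br (nat_lit 7) (.br (nat_lit 3) (.ch (nat_lit 0) (.ev (nat_lit 4724) (nat_lit 32768) (.ev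
 (nat_lit 4733) (nat_lit 64) .dd))) (.ch (nat_lit 3) (.fin (nat_lit 576426117714887320)))) (.br (nat_lit 8)
 (.ch (nat_lit 7) (.ev (nat_lit 5044) (nat_lit 64) (.ev (nat_lit 5053) (nat_lit 32768) .dd))) (.ch (nat_lit 8)
 (.ev (nat_lit 4996) (nat_lit 32768) (.ev (nat_lit 5005) (nat_lit 64) .dd))))))))))))))) (.ch (nat_lit 5) (.ev
 (nat_lit 640) (nat_lit 2368) (.nd (nat_lit 1968) (.br (nat_lit 7) (.ch (nat_lit 0) (.ev (nat_lit 2004)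
 (nat_lit 65536) (.ev (nat_lit 2013) (nat_lit 32768) .dd))) (.br (nat_lit 10) (.ch (nat_lit 7) (.ev (nat_lit
 2036) (nat_lit 32768) (.ev (nat_lit 2045) (nat_lit 65536) .dd))) (.ch (nat_lit 10) (.ev (nat_lit 2004)
 (nat_lit 32768) (.ev (nat_lit 2013) (nat_lit 65536) .dd)))))))))) (.br (nat_lit 8) (.br (nat_lit 7) (.ch
 (nat_lit 6) (.ev (nat_lit 1044) (nat_lit 2048) (.nd (nat_lit 1552) (.br (nat_lit 6) (.br (nat_lit 2) (.br
 (nat_lit 1) (.ch (nat_lit 0) (.ev (nat_lit 1568) (nat_lit 98560) (.ev (nat_lit 1581) (nat_lit 64) .dd))) (.ch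
 (nat_lit 1) (.ev (nat_lit 1568) (nat_lit 64) (.ev (nat_lit 1604) (nat_lit 65536) (.ev (nat_lit 6452) (nat_lit
 32768) (.ev (nat_lit 6461) (nat_lit 256) .dd)))))) (.br (nat_lit 5) (.ch (nat_lit 2) (.ev (nat_lit 1568)
 (nat_lit 33024) (.ev (nat_lit 1588) (nat_lit 65536) (.ev (nat_lit 1597) (nat_lit 64) .dd)))) (.ch (nat_lit 5)
 (.ev (nat_lit 1568) (nat_lit 65536) (.ev (nat_lit 3700) (nat_lit 256) (.nd (nat_lit 4864) (.br (nat_lit 6)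
 (.br (nat_lit 2) (.ch (nat_lit 1) (.ev (nat_lit 4932) (nat_lit 64) (.ev (nat_lit 4941) (nat_lit 32768) .dd)))
 (.ch (nat_lit 2) (.ev (nat_lit 4880) (nat_lit 64) (.ev (nat_lit 4893) (nat_lit 32768) .dd)))) (.br (nat_lit
 10) (.ch (nat_lit 6) (.ev (nat_lit 4880) (nat_lit 32768) (.ev (nat_lit 4893) (nat_lit 64) .dd))) (.br (nat_lit
 11) (.ch (nat_lit 10) (.ev (nat_lit 4932) (nat_lit 32768) (.ev (nat_lit 4941) (nat_lit 64) .dd))) (.ch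
 (nat_lit 11) (.ev (nat_lit 4880) (nat_lit 32768) (.ev (nat_lit 4893) (nat_lit 64) .dd)))))))))))) (.br
 (nat_lit 10) (.br (nat_lit 9) (.ch (nat_lit 6) (.ev (nat_lit 1568) (nat_lit 256) (.nd (nat_lit 4304) (.br
 (nat_lit 7) (.br (nat_lit 3) (.ch (nat_lit 2) (.ev (nat_lit 4320) (nat_lit 32768) (.ev (nat_lit 4932) (nat_lit
 65536) (.ev (nat_lit 4941) (nat_lit 64) .dd)))) (.ch (nat_lit 3) (.ev (nat_lit 4320) (nat_lit 65536) (.ev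
 (nat_lit 4644) (nat_lit 64) (.ev (nat_lit 4653) (nat_lit 32768) .dd))))) (.br (nat_lit 9) (.ch (nat_lit 7)
 (.ev (nat_lit 4320) (nat_lit 64) (.ev (nat_lit 4644) (nat_lit 32768) (.ev (nat_lit 4653) (nat_lit 65536)
 .dd)))) (.br (nat_lit 11) (.ch (nat_lit 9) (.ev (nat_lit 4320) (nat_lit 32768) (.ev (nat_lit 4996) (nat_lit
 65536) (.ev (nat_lit 5005) (nat_lit 64) .dd)))) (.ch (nat_lit 11) (.ev (nat_lit 4320) (nat_lit 64) (.ev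
 (nat_lit 4932) (nat_lit 65536) (.ev (nat_lit 4941) (nat_lit 32768) .dd)))))))))) (.ch (nat_lit 9) (.ev
 (nat_lit 1568) (nat_lit 64) (.ev (nat_lit 2420) (nat_lit 256) (.ev (nat_lit 3188) (nat_lit 32768) (.ev
 (nat_lit 3197) (nat_lit 65536) .dd)))))) (.br (nat_lit 11) (.ch (nat_lit 10) (.ev (nat_lit 1568) (nat_lit
 33024) (.fin (nat_lit 576465700110418496)))) (.br (nat_lit 12) (.ch (nat_lit 11) (.ev (nat_lit 1568) (nat_lit
 65856) (.ev (nat_lit 1581) (nat_lit 32768) .dd))) (.ch (nat_lit 12) (.ev (nat_lit 1568) (nat_lit 256) (.ev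
 (nat_lit 3220) (nat_lit 64) (.nd (nat_lit 4592) (.br (nat_lit 7) (.br (nat_lit 1) (.ch (nat_lit 0) (.ev
 (nat_lit 4608) (nat_lit 32768) (.ev (nat_lit 4621) (nat_lit 65536) .dd))) (.br (nat_lit 4) (.ch (nat_lit 1)
 (.ev (nat_lit 4608) (nat_lit 98304) .dd)) (.ch (nat_lit 4) (.ev (nat_lit 4608) (nat_lit 98304) .dd)))) (.br
 (nat_lit 10) (.br (nat_lit 8) (.ch (nat_lit 7) (.ev (nat_lit 4996) (nat_lit 65536) (.ev (nat_lit 5005)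
 (nat_lit 32768) .dd))) (.ch (nat_lit 8) (.ev (nat_lit 4608) (nat_lit 65536) (.ev (nat_lit 4621) (nat_lit
 32768) .dd)))) (.br (nat_lit 12) (.ch (nat_lit 10) (.ev (nat_lit 5044) (nat_lit 65536) (.ev (nat_lit 5053)
 (nat_lit 32768) .dd))) (.ch (nat_lit 12) (.ev (nat_lit 4608) (nat_lit 65536) (.ev (nat_lit 4621) (nat_lit
 32768) .dd))))))))))))))))) (.ch (nat_lit 7) (.ev (nat_lit 996) (nat_lit 64) (.nd (nat_lit 1408) (.br (nat_lit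
 4) (.br (nat_lit 2) (.br (nat_lit 1) (.ch (nat_lit 0) (.ev (nat_lit 1424) (nat_lit 98304) (.ev (nat_lit 2788)
 (nat_lit 256) (.ev (nat_lit 2797) (nat_lit 2048) .dd)))) (.ch (nat_lit 1) (.ev (nat_lit 2820) (nat_lit 256)
 (.nd (nat_lit 4416) (.br (nat_lit 4) (.br (nat_lit 2) (.ch (nat_lit 0) (.ev (nat_lit 4580) (nat_lit 32768)
 (.ev (nat_lit 4692) (nat_lit 2048) (.ev (nat_lit 4701) (nat_lit 65536) .dd)))) (.br (nat_lit 3) (.ch (nat_lit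
 2) (.ev (nat_lit 4432) (nat_lit 32768) (.ev (nat_lit 4788) (nat_lit 65536) (.ev (nat_lit 4797) (nat_lit 2048)
 .dd)))) (.ch (nat_lit 3) (.ev (nat_lit 4432) (nat_lit 67584) (.ev (nat_lit 4445) (nat_lit 32768) .dd))))) (.br
 (nat_lit 6) (.ch (nat_lit 4) (.ev (nat_lit 4432) (nat_lit 65536) (.ev (nat_lit 4468) (nat_lit 32768) (.ev
 (nat_lit 4477) (nat_lit 2048) .dd)))) (.br (nat_lit 8) (.ch (nat_lit 6) (.ev (nat_lit 4432) (nat_lit 67584)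
 (.ev (nat_lit 4445) (nat_lit 32768) .dd))) (.ch (nat_lit 8) (.ev (nat_lit 4432) (nat_lit 65536) (.ev (nat_lit
 5604) (nat_lit 32768) (.ev (nat_lit 5613) (nat_lit 2048) .dd))))))))))) (.br (nat_lit 3) (.ch (nat_lit 2) (.ev
 (nat_lit 1424) (nat_lit 34816) (.ev (nat_lit 2004) (nat_lit 256) (.ev (nat_lit 2013) (nat_lit 65536) .dd))))
 (.ch (nat_lit 3) (.ev (nat_lit 1424) (nat_lit 100608) .dd)))) (.br (nat_lit 6) (.br (nat_lit 5) (.ch (nat_lit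
 4) (.ev (nat_lit 1424) (nat_lit 65792) (.ev (nat_lit 1636) (nat_lit 32768) (.ev (nat_lit 1645) (nat_lit 2048)
 .dd)))) (.ch (nat_lit 5) (.ev (nat_lit 1424) (nat_lit 2304) (.ev (nat_lit 6356) (nat_lit 65536) (.ev (nat_lit
 6365) (nat_lit 32768) .dd))))) (.br (nat_lit 7) (.ch (nat_lit 6) (.ev (nat_lit 1424) (nat_lit 2304) (.nd
 (nat_lit 4416) (.br (nat_lit 10) (.br (nat_lit 5) (.ch (nat_lit 3) (.ev (nat_lit 5140) (nat_lit 32768) (.ev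
 (nat_lit 5149) (nat_lit 65536) .dd))) (.br (nat_lit 6) (.ch (nat_lit 5) (.ev (nat_lit 4432) (nat_lit 65536)
 (.ev (nat_lit 4445) (nat_lit 32768) .dd))) (.ch (nat_lit 6) (.ev (nat_lit 5044) (nat_lit 32768) (.ev (nat_lit
 5053) (nat_lit 65536) .dd))))) (.br (nat_lit 11) (.ch (nat_lit 10) (.ev (nat_lit 4432) (nat_lit 32768) (.ev
 (nat_lit 4445) (nat_lit 65536) .dd))) (.br (nat_lit 12) (.ch (nat_lit 11) (.ev (nat_lit 4996) (nat_lit 32768)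
 (.ev (nat_lit 5005) (nat_lit 65536) .dd))) (.ch (nat_lit 12) (.ev (nat_lit 4432) (nat_lit 32768) (.ev (nat_lit
 4445) (nat_lit 65536) .dd))))))))) (.br (nat_lit 11) (.ch (nat_lit 7) (.ev (nat_lit 1424) (nat_lit 2048) (.nd
 (nat_lit 4224) (.br (nat_lit 9) (.br (nat_lit 4) (.ch (nat_lit 1) (.ev (nat_lit 5716) (nat_lit 256) (.fin
 (nat_lit 576461302177153620)))) (.br (nat_lit 5) (.ch (nat_lit 4) (.ev (nat_lit 4240) (nat_lit 65792) (.ev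
 (nat_lit 4253) (nat_lit 32768) .dd))) (.ch (nat_lit 5) (.ev (nat_lit 4240) (nat_lit 32768) (.ev (nat_lit 5044)
 (nat_lit 65536) (.ev (nat_lit 5053) (nat_lit 256) .dd)))))) (.br (nat_lit 11) (.ch (nat_lit 9) (.ev (nat_lit
 4240) (nat_lit 32768) (.ev (nat_lit 4756) (nat_lit 65536) (.ev (nat_lit 4765) (nat_lit 256) .dd)))) (.br
 (nat_lit 12) (.ch (nat_lit 11) (.ev (nat_lit 4240) (nat_lit 65536) (.ev (nat_lit 5668) (nat_lit 32768) (.ev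
 (nat_lit 5677) (nat_lit 256) .dd)))) (.ch (nat_lit 12) (.ev (nat_lit 4976) (nat_lit 65536) (.ev (nat_lit 4996)
 (nat_lit 32768) (.ev (nat_lit 5005) (nat_lit 256) .dd)))))))))) (.ch (nat_lit 11) (.ev (nat_lit 2788) (nat_lit
 256) (.nd (nat_lit 4304) (.br (nat_lit 6) (.br (nat_lit 4) (.br (nat_lit 2) (.ch (nat_lit 1) (.ev (nat_lit
 4320) (nat_lit 65536) (.ev (nat_lit 5008) (nat_lit 32768) (.ev (nat_lit 5021) (nat_lit 2048) .dd)))) (.ch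
 (nat_lit 2) (.ev (nat_lit 4320) (nat_lit 98304) (.ev (nat_lit 4333) (nat_lit 2048) .dd)))) (.br (nat_lit 5)
 (.ch (nat_lit 4) (.ev (nat_lit 4500) (nat_lit 65536) (.ev (nat_lit 6176) (nat_lit 32768) (.ev (nat_lit 6189)
 (nat_lit 2048) .dd)))) (.ch (nat_lit 5) (.ev (nat_lit 4320) (nat_lit 34816) (.ev (nat_lit 4333) (nat_lit
 65536) .dd))))) (.br (nat_lit 8) (.br (nat_lit 7) (.ch (nat_lit 6) (.ev (nat_lit 4320) (nat_lit 32768) (.ev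
 (nat_lit 4656) (nat_lit 2048) (.ev (nat_lit 4669) (nat_lit 65536) .dd)))) (.ch (nat_lit 7) (.ev (nat_lit 4320)
 (nat_lit 98304) (.ev (nat_lit 4333) (nat_lit 2048) .dd)))) (.br (nat_lit 11) (.ch (nat_lit 8) (.ev (nat_lit
 4320) (nat_lit 34816) (.ev (nat_lit 4333) (nat_lit 65536) .dd))) (.ch (nat_lit 11) (.ev (nat_lit 4320)
 (nat_lit 34816) (.ev (nat_lit 4333) (nat_lit 65536) .dd))))))))))))))))) (.br (nat_lit 11) (.ch (nat_lit 8)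
 (.ev (nat_lit 640) (nat_lit 35072) (.nd (nat_lit 1840) (.br (nat_lit 8) (.br (nat_lit 4) (.ch (nat_lit 1) (.ev
 (nat_lit 2036) (nat_lit 64) (.ev (nat_lit 2045) (nat_lit 65536) .dd))) (.br (nat_lit 7) (.ch (nat_lit 4) (.ev
 (nat_lit 1856) (nat_lit 64) (.ev (nat_lit 1869) (nat_lit 65536) .dd))) (.ch (nat_lit 7) (.ev (nat_lit 2068)
 (nat_lit 64) (.ev (nat_lit 2077) (nat_lit 65536) .dd))))) (.br (nat_lit 10) (.ch (nat_lit 8) (.ev (nat_lit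
 1856) (nat_lit 65536) (.ev (nat_lit 1869) (nat_lit 64) .dd))) (.br (nat_lit 12) (.ch (nat_lit 10) (.ev
 (nat_lit 1856) (nat_lit 64) (.ev (nat_lit 1869) (nat_lit 65536) .dd))) (.ch (nat_lit 12) (.ev (nat_lit 1856)
 (nat_lit 65600) .dd)))))))) (.br (nat_lit 12) (.ch (nat_lit 11) (.ev (nat_lit 640) (nat_lit 98624) (.ev
 (nat_lit 653) (nat_lit 2048) .dd))) (.ch (nat_lit 12) (.ev (nat_lit 640) (nat_lit 34880) (.ev (nat_lit 980)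
 (nat_lit 256) (.ev (nat_lit 989) (nat_lit 65536) .dd))))))))))) (.ch (nat_lit 12) (.ev (nat_lit 336) (nat_lit
 2050) (.nd (nat_lit 736) (.br (nat_lit 9) (.br (nat_lit 7) (.ch (nat_lit 4) (.ev (nat_lit 752) (nat_lit 256)
 (.nd (nat_lit 1456) (.br (nat_lit 9) (.br (nat_lit 2) (.ch (nat_lit 0) (.ev (nat_lit 1472) (nat_lit 32768)
 (.ev (nat_lit 2484) (nat_lit 65536) (.nd (nat_lit 4864) (.br (nat_lit 1) (.ch (nat_lit 0) (.ev (nat_lit 4880)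
 (nat_lit 1024) (.ev (nat_lit 4893) (nat_lit 64) .dd))) (.br (nat_lit 6) (.ch (nat_lit 1) (.ev (nat_lit 6260)
 (nat_lit 1024) (.ev (nat_lit 6269) (nat_lit 64) .dd))) (.ch (nat_lit 6) (.ev (nat_lit 5044) (nat_lit 64) (.ev
 (nat_lit 5053) (nat_lit 1024) .dd))))))))) (.br (nat_lit 7) (.ch (nat_lit 2) (.ev (nat_lit 1472) (nat_lit
 66560) (.ev (nat_lit 6500) (nat_lit 64) (.ev (nat_lit 6509) (nat_lit 32768) .dd)))) (.ch (nat_lit 7) (.ev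
 (nat_lit 1684) (nat_lit 65536) (.ev (nat_lit 3844) (nat_lit 1024) (.ev (nat_lit 3856) (nat_lit 64) (.ev
 (nat_lit 3869) (nat_lit 32768) .dd))))))) (.br (nat_lit 10) (.ch (nat_lit 9) (.ev (nat_lit 1472) (nat_lit
 1088) (.fin (nat_lit 575959925558557528)))) (.br (nat_lit 12) (.ch (nat_lit 10) (.ev (nat_lit 1472) (nat_lit
 1024) (.ev (nat_lit 1684) (nat_lit 65536) (.nd (nat_lit 4864) (.br (nat_lit 7) (.ch (nat_lit 3) (.ev (nat_lit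
 4932) (nat_lit 64) (.ev (nat_lit 4941) (nat_lit 32768) .dd))) (.ch (nat_lit 7) (.fin (nat_lit
 576255693269975603)))))))) (.ch (nat_lit 12) (.ev (nat_lit 1472) (nat_lit 65536) (.ev (nat_lit 2420) (nat_lit
 1024) (.ev (nat_lit 2516) (nat_lit 32768) (.ev (nat_lit 2525) (nat_lit 64) .dd))))))))))) (.br (nat_lit 8)
 (.ch (nat_lit 7) (.ev (nat_lit 752) (nat_lit 33792) (.nd (nat_lit 1552) (.br (nat_lit 6) (.ch (nat_lit 2) (.ev
 (nat_lit 1700) (nat_lit 65536) (.ev (nat_lit 2948) (nat_lit 64) (.ev (nat_lit 2957) (nat_lit 256) .dd)))) (.br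
 (nat_lit 9) (.ch (nat_lit 6) (.ev (nat_lit 1908) (nat_lit 64) (.ev (nat_lit 3812) (nat_lit 256) (.ev (nat_lit
 3821) (nat_lit 65536) .dd)))) (.ch (nat_lit 9) (.ev (nat_lit 2788) (nat_lit 64) (.ev (nat_lit 6176) (nat_lit
 65792) .dd)))))))) (.ch (nat_lit 8) (.ev (nat_lit 752) (nat_lit 65600) (.nd (nat_lit 1408) (.br (nat_lit 3)
 (.br (nat_lit 1) (.ch (nat_lit 0) (.ev (nat_lit 1424) (nat_lit 32768) (.ev (nat_lit 5188) (nat_lit 1024) (.ev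
 (nat_lit 5197) (nat_lit 256) .dd)))) (.br (nat_lit 2) (.ch (nat_lit 1) (.ev (nat_lit 1424) (nat_lit 1024) (.ev
 (nat_lit 1796) (nat_lit 256) (.ev (nat_lit 1805) (nat_lit 32768) .dd)))) (.ch (nat_lit 2) (.ev (nat_lit 1424)
 (nat_lit 256) (.ev (nat_lit 4116) (nat_lit 32768) (.ev (nat_lit 4125) (nat_lit 1024) .dd)))))) (.br (nat_lit
 7) (.br (nat_lit 6) (.ch (nat_lit 3) (.ev (nat_lit 1424) (nat_lit 32768) (.ev (nat_lit 5140) (nat_lit 256)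
 (.ev (nat_lit 5149) (nat_lit 1024) .dd)))) (.ch (nat_lit 6) (.ev (nat_lit 1424) (nat_lit 256) (.ev (nat_lit
 1604) (nat_lit 1024) (.ev (nat_lit 1613) (nat_lit 32768) .dd))))) (.br (nat_lit 11) (.ch (nat_lit 7) (.ev
 (nat_lit 1424) (nat_lit 1024) (.ev (nat_lit 1780) (nat_lit 32768) (.ev (nat_lit 1789) (nat_lit 256) .dd))))
 (.ch (nat_lit 11) (.nd (nat_lit 4224) (.br (nat_lit 7) (.br (nat_lit 4) (.ch (nat_lit 2) (.ev (nat_lit 4240)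
 (nat_lit 256) (.ev (nat_lit 6500) (nat_lit 1024) (.ev (nat_lit 6509) (nat_lit 32768) .dd)))) (.ch (nat_lit 4)
 (.ev (nat_lit 4240) (nat_lit 1024) (.ev (nat_lit 6500) (nat_lit 32768) (.ev (nat_lit 6509) (nat_lit 256)
 .dd))))) (.br (nat_lit 10) (.ch (nat_lit 7) (.ev (nat_lit 4388) (nat_lit 1024) (.ev (nat_lit 5140) (nat_lit
 32768) (.ev (nat_lit 5149) (nat_lit 256) .dd)))) (.ch (nat_lit 10) (.ev (nat_lit 4240) (nat_lit 256) (.ev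
 (nat_lit 6500) (nat_lit 1024) (.ev (nat_lit 6509) (nat_lit 32768) .dd)))))))))))))))) (.br (nat_lit 11) (.br
 (nat_lit 10) (.ch (nat_lit 9) (.ev (nat_lit 752) (nat_lit 1024) (.nd (nat_lit 1408) (.br (nat_lit 5) (.br
 (nat_lit 3) (.ch (nat_lit 2) (.ev (nat_lit 1424) (nat_lit 65792) (.ev (nat_lit 5572) (nat_lit 64) (.ev
 (nat_lit 5581) (nat_lit 32768) .dd)))) (.br (nat_lit 4) (.ch (nat_lit 3) (.nd (nat_lit 4224) (.br (nat_lit 10)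
 (.br (nat_lit 8) (.ch (nat_lit 4) (.ev (nat_lit 4240) (nat_lit 256) (.ev (nat_lit 4480) (nat_lit 65536) (.ev
 (nat_lit 5844) (nat_lit 64) (.ev (nat_lit 5853) (nat_lit 32768) .dd))))) (.ch (nat_lit 8) (.ev (nat_lit 4240)
 (nat_lit 32768) (.ev (nat_lit 5716) (nat_lit 65536) (.ev (nat_lit 6452) (nat_lit 256) (.ev (nat_lit 6461)
 (nat_lit 64) .dd)))))) (.br (nat_lit 12) (.ch (nat_lit 10) (.ev (nat_lit 4240) (nat_lit 65792) (.ev (nat_lit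
 4692) (nat_lit 32768) (.ev (nat_lit 4701) (nat_lit 64) .dd)))) (.ch (nat_lit 12) (.ev (nat_lit 4240) (nat_lit
 32832) (.ev (nat_lit 5716) (nat_lit 65536) (.ev (nat_lit 5725) (nat_lit 256) .dd)))))))) (.ch (nat_lit 4) (.ev
 (nat_lit 1424) (nat_lit 33024) (.ev (nat_lit 5140) (nat_lit 64) (.ev (nat_lit 5149) (nat_lit 65536) .dd))))))
 (.br (nat_lit 8) (.br (nat_lit 7) (.ch (nat_lit 5) (.ev (nat_lit 1684) (nat_lit 65536) (.nd (nat_lit 4592)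
 (.br (nat_lit 6) (.br (nat_lit 2) (.ch (nat_lit 1) (.ev (nat_lit 4608) (nat_lit 32832) (.ev (nat_lit 4621)
 (nat_lit 256) .dd))) (.br (nat_lit 4) (.ch (nat_lit 2) (.ev (nat_lit 4608) (nat_lit 320) (.ev (nat_lit 4621)
 (nat_lit 32768) .dd))) (.ch (nat_lit 4) (.ev (nat_lit 5236) (nat_lit 256) (.ev (nat_lit 6260) (nat_lit 64)
 (.ev (nat_lit 6269) (nat_lit 32768) .dd)))))) (.br (nat_lit 7) (.ch (nat_lit 6) (.ev (nat_lit 4608) (nat_lit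
 256) (.fin (nat_lit 576473396720124388)))) (.br (nat_lit 10) (.ch (nat_lit 7) (.ev (nat_lit 4608) (nat_lit
 320) (.ev (nat_lit 4621) (nat_lit 32768) .dd))) (.ch (nat_lit 10) (.ev (nat_lit 4608) (nat_lit 64) (.ev
 (nat_lit 4692) (nat_lit 32768) (.ev (nat_lit 4701) (nat_lit 256) .dd)))))))))) (.ch (nat_lit 7) (.ev (nat_lit
 1424) (nat_lit 256) (.ev (nat_lit 1684) (nat_lit 65536) (.ev (nat_lit 6500) (nat_lit 64) (.ev (nat_lit 6509)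
 (nat_lit 32768) .dd)))))) (.br (nat_lit 12) (.ch (nat_lit 8) (.ev (nat_lit 1424) (nat_lit 65792) (.nd (nat_lit
 4416) (.br (nat_lit 6) (.ch (nat_lit 0) (.ev (nat_lit 6452) (nat_lit 64) (.ev (nat_lit 6461) (nat_lit 32768)
 .dd))) (.br (nat_lit 7) (.ch (nat_lit 6) (.ev (nat_lit 5140) (nat_lit 32768) (.ev (nat_lit 5149) (nat_lit 64)
 .dd))) (.ch (nat_lit 7) (.ev (nat_lit 5044) (nat_lit 32768) (.ev (nat_lit 5053) (nat_lit 64) .dd)))))))) (.ch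
 (nat_lit 12) (.ev (nat_lit 1424) (nat_lit 32832) (.ev (nat_lit 5188) (nat_lit 65536) (.ev (nat_lit 5197)
 (nat_lit 256) .dd)))))))))) (.ch (nat_lit 10) (.ev (nat_lit 752) (nat_lit 64) (.nd (nat_lit 1408) (.br
 (nat_lit 8) (.br (nat_lit 6) (.br (nat_lit 3) (.ch (nat_lit 2) (.ev (nat_lit 1424) (nat_lit 98304) (.ev
 (nat_lit 7028) (nat_lit 256) (.ev (nat_lit 7037) (nat_lit 1024) .dd)))) (.ch (nat_lit 3) (.ev (nat_lit 1424)
 (nat_lit 33024) (.ev (nat_lit 1684) (nat_lit 65536) (.ev (nat_lit 1693) (nat_lit 1024) .dd))))) (.br (nat_lit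
 7) (.ch (nat_lit 6) (.ev (nat_lit 3284) (nat_lit 256) (.ev (nat_lit 6356) (nat_lit 32768) (.ev (nat_lit 6500)
 (nat_lit 65536) (.ev (nat_lit 6509) (nat_lit 1024) .dd))))) (.ch (nat_lit 7) (.ev (nat_lit 1424) (nat_lit
 1280) (.ev (nat_lit 6740) (nat_lit 32768) (.ev (nat_lit 6749) (nat_lit 65536) .dd)))))) (.br (nat_lit 10) (.br
 (nat_lit 9) (.ch (nat_lit 8) (.ev (nat_lit 1424) (nat_lit 98304) (.ev (nat_lit 1876) (nat_lit 256) (.ev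
 (nat_lit 1885) (nat_lit 1024) .dd)))) (.ch (nat_lit 9) (.ev (nat_lit 1908) (nat_lit 65536) (.ev (nat_lit 2036)
 (nat_lit 32768) (.nd (nat_lit 4864) (.br (nat_lit 3) (.ch (nat_lit 0) (.ev (nat_lit 4880) (nat_lit 1024) (.ev
 (nat_lit 4893) (nat_lit 256) .dd))) (.br (nat_lit 6) (.ch (nat_lit 3) (.ev (nat_lit 4932) (nat_lit 256) (.ev
 (nat_lit 4941) (nat_lit 1024) .dd))) (.ch (nat_lit 6) (.ev (nat_lit 4932) (nat_lit 256) (.ev (nat_lit 4941)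
 (nat_lit 1024) .dd)))))))))) (.br (nat_lit 11) (.ch (nat_lit 10) (.ev (nat_lit 1424) (nat_lit 66560) (.ev
 (nat_lit 1780) (nat_lit 32768) (.ev (nat_lit 1789) (nat_lit 256) .dd)))) (.br (nat_lit 12) (.ch (nat_lit 11)
 (.ev (nat_lit 1892) (nat_lit 66560) (.ev (nat_lit 6788) (nat_lit 256) (.ev (nat_lit 6797) (nat_lit 32768)
 .dd)))) (.ch (nat_lit 12) (.ev (nat_lit 1424) (nat_lit 1280) (.ev (nat_lit 1892) (nat_lit 65536) (.ev (nat_lit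
 1901) (nat_lit 32768) .dd)))))))))))) (.br (nat_lit 12) (.ch (nat_lit 11) (.ev (nat_lit 752) (nat_lit 33024)
 (.nd (nat_lit 1552) (.br (nat_lit 7) (.br (nat_lit 6) (.ch (nat_lit 5) (.ev (nat_lit 1908) (nat_lit 64) (.ev
 (nat_lit 5924) (nat_lit 65536) (.ev (nat_lit 5933) (nat_lit 1024) .dd)))) (.ch (nat_lit 6) (.ev (nat_lit 1568)
 (nat_lit 64) (.ev (nat_lit 1684) (nat_lit 65536) (.ev (nat_lit 1693) (nat_lit 1024) .dd))))) (.br (nat_lit 10)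
 (.ch (nat_lit 7) (.ev (nat_lit 1568) (nat_lit 1024) (.ev (nat_lit 3076) (nat_lit 65536) (.ev (nat_lit 3085)
 (nat_lit 64) .dd)))) (.br (nat_lit 12) (.ch (nat_lit 10) (.ev (nat_lit 1568) (nat_lit 65536) (.ev (nat_lit
 6692) (nat_lit 1024) (.ev (nat_lit 6701) (nat_lit 64) .dd)))) (.ch (nat_lit 12) (.ev (nat_lit 1568) (nat_lit
 64) (.ev (nat_lit 2068) (nat_lit 1024) (.ev (nat_lit 2077) (nat_lit 65536) .dd)))))))))) (.ch (nat_lit 12)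
 (.ev (nat_lit 752) (nat_lit 65536) (.nd (nat_lit 1456) (.br (nat_lit 4) (.br (nat_lit 1) (.ch (nat_lit 0) (.ev
 (nat_lit 1472) (nat_lit 256) (.nd (nat_lit 4224) (.br (nat_lit 10) (.ch (nat_lit 3) (.ev (nat_lit 4240)
 (nat_lit 32768) (.ev (nat_lit 5364) (nat_lit 64) (.ev (nat_lit 5373) (nat_lit 1024) .dd)))) (.ch (nat_lit 10)
 (.ev (nat_lit 4240) (nat_lit 1024) (.ev (nat_lit 5844) (nat_lit 32768) (.ev (nat_lit 5853) (nat_lit 64)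
 .dd)))))))) (.br (nat_lit 3) (.ch (nat_lit 1) (.ev (nat_lit 1472) (nat_lit 64) (.ev (nat_lit 2084) (nat_lit
 1024) (.ev (nat_lit 6644) (nat_lit 256) (.ev (nat_lit 6653) (nat_lit 32768) .dd))))) (.ch (nat_lit 3) (.ev
 (nat_lit 3332) (nat_lit 32768) (.nd (nat_lit 4416) (.br (nat_lit 10) (.ch (nat_lit 0) (.ev (nat_lit 4432)
 (nat_lit 320) (.ev (nat_lit 4445) (nat_lit 1024) .dd))) (.br (nat_lit 11) (.ch (nat_lit 10) (.ev (nat_lit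
 4432) (nat_lit 1024) (.ev (nat_lit 4468) (nat_lit 64) (.ev (nat_lit 4477) (nat_lit 256) .dd)))) (.ch (nat_lit
 11) (.ev (nat_lit 4432) (nat_lit 1024) (.fin (nat_lit 576809846806365193))))))))))) (.br (nat_lit 10) (.br
 (nat_lit 6) (.ch (nat_lit 4) (.ev (nat_lit 1472) (nat_lit 1088) (.nd (nat_lit 4416) (.br (nat_lit 8) (.ch
 (nat_lit 6) (.ev (nat_lit 5044) (nat_lit 32768) (.ev (nat_lit 5053) (nat_lit 256) .dd))) (.ch (nat_lit 8) (.ev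
 (nat_lit 5236) (nat_lit 32768) (.ev (nat_lit 5245) (nat_lit 256) .dd))))))) (.ch (nat_lit 6) (.ev (nat_lit
 1472) (nat_lit 1024) (.ev (nat_lit 1492) (nat_lit 64) (.ev (nat_lit 2740) (nat_lit 32768) (.ev (nat_lit 2749)
 (nat_lit 256) .dd)))))) (.br (nat_lit 12) (.ch (nat_lit 10) (.ev (nat_lit 1472) (nat_lit 1024) (.nd (nat_lit
 3984) (.br (nat_lit 11) (.ch (nat_lit 5) (.ev (nat_lit 6148) (nat_lit 32768) (.ev (nat_lit 6368) (nat_lit 64)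
 (.ev (nat_lit 6381) (nat_lit 256) .dd)))) (.br (nat_lit 12) (.ch (nat_lit 11) (.ev (nat_lit 6148) (nat_lit
 32768) (.ev (nat_lit 6596) (nat_lit 64) (.ev (nat_lit 6605) (nat_lit 256) .dd)))) (.ch (nat_lit 12) (.ev
 (nat_lit 4000) (nat_lit 32768) (.ev (nat_lit 6512) (nat_lit 320) .dd)))))))) (.ch (nat_lit 12) (.ev (nat_lit
 1472) (nat_lit 32768) (.ev (nat_lit 3764) (nat_lit 256) (.nd (nat_lit 4864) (.br (nat_lit 5) (.ch (nat_lit 2)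
 (.ev (nat_lit 6020) (nat_lit 64) (.ev (nat_lit 6029) (nat_lit 1024) .dd))) (.ch (nat_lit 5) (.ev (nat_lit
 4932) (nat_lit 64) (.ev (nat_lit 4941) (nat_lit 1024) .dd)))))))))))))))))))))))))))))))))

/-- Subtrie. -/
noncomputable def T4 : Tr := (.ev (nat_lit 20) (nat_lit 139264) (.nd (nat_lit 32) (.br (nat_lit 6) (.br
 (nat_lit 2) (.br (nat_lit 1) (.ch (nat_lit 0) (.ev (nat_lit 48) (nat_lit 66560) (.nd (nat_lit 192) (.br
 (nat_lit 5) (.br (nat_lit 3) (.br (nat_lit 2) (.ch (nat_lit 1) (.ev (nat_lit 208) (nat_lit 34916) (.nd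
 (nat_lit 1008) (.br (nat_lit 9) (.br (nat_lit 1) (.ch (nat_lit 0) (.ev (nat_lit 1024) (nat_lit 4096) (.nd
 (nat_lit 3408) (.br (nat_lit 11) (.ch (nat_lit 7) (.ev (nat_lit 3476) (nat_lit 2) (.ev (nat_lit 3485) (nat_lit
 256) .dd))) (.br (nat_lit 12) (.ch (nat_lit 11) (.ev (nat_lit 3476) (nat_lit 2) (.ev (nat_lit 3485) (nat_lit
 256) .dd))) (.ch (nat_lit 12) (.ev (nat_lit 3476) (nat_lit 2) (.ev (nat_lit 3485) (nat_lit 256) .dd))))))))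
 (.br (nat_lit 4) (.ch (nat_lit 1) (.ev (nat_lit 1024) (nat_lit 2) (.ev (nat_lit 1124) (nat_lit 4096) (.ev
 (nat_lit 1133) (nat_lit 256) .dd)))) (.ch (nat_lit 4) (.ev (nat_lit 1024) (nat_lit 256) (.ev (nat_lit 1124)
 (nat_lit 4096) (.ev (nat_lit 1133) (nat_lit 2) .dd)))))) (.br (nat_lit 11) (.br (nat_lit 10) (.ch (nat_lit 9)
 (.ev (nat_lit 3700) (nat_lit 2) (.ev (nat_lit 3876) (nat_lit 4096) (.ev (nat_lit 3885) (nat_lit 256) .dd))))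
 (.ch (nat_lit 10) (.ev (nat_lit 1024) (nat_lit 258) (.ev (nat_lit 1037) (nat_lit 4096) .dd)))) (.br (nat_lit
 12) (.ch (nat_lit 11) (.ev (nat_lit 1024) (nat_lit 4096) (.ev (nat_lit 3188) (nat_lit 2) (.ev (nat_lit 3197)
 (nat_lit 256) .dd)))) (.ch (nat_lit 12) (.ev (nat_lit 1124) (nat_lit 4096) (.ev (nat_lit 1204) (nat_lit 256)
 (.ev (nat_lit 1213) (nat_lit 2) .dd)))))))))) (.ch (nat_lit 2) (.ev (nat_lit 208) (nat_lit 4) (.nd (nat_lit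
 1088) (.br (nat_lit 6) (.br (nat_lit 3) (.br (nat_lit 1) (.ch (nat_lit 0) (.ev (nat_lit 1104) (nat_lit 32800)
 (.nd (nat_lit 2128) (.br (nat_lit 6) (.br (nat_lit 2) (.br (nat_lit 1) (.ch (nat_lit 0) (.ev (nat_lit 2144)
 (nat_lit 4098) (.ev (nat_lit 2388) (nat_lit 2048) (.ev (nat_lit 2740) (nat_lit 256) (.ev (nat_lit 2749)
 (nat_lit 64) .dd))))) (.ch (nat_lit 1) (.ev (nat_lit 2144) (nat_lit 4416) (.ev (nat_lit 6260) (nat_lit 2) (.ev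
 (nat_lit 6269) (nat_lit 2048) .dd))))) (.br (nat_lit 4) (.ch (nat_lit 2) (.ev (nat_lit 2144) (nat_lit 258)
 (.ev (nat_lit 2164) (nat_lit 4096) (.ev (nat_lit 6148) (nat_lit 64) (.ev (nat_lit 6157) (nat_lit 2048)
 .dd))))) (.ch (nat_lit 4) (.ev (nat_lit 2144) (nat_lit 2048) (.ev (nat_lit 2164) (nat_lit 4096) (.ev (nat_lit
 2388) (nat_lit 2) (.ev (nat_lit 6452) (nat_lit 256) (.ev (nat_lit 6461) (nat_lit 64) .dd)))))))) (.br (nat_lit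
 9) (.br (nat_lit 7) (.ch (nat_lit 6) (.ev (nat_lit 2144) (nat_lit 320) (.ev (nat_lit 2372) (nat_lit 2) (.ev
 (nat_lit 6644) (nat_lit 4096) (.ev (nat_lit 6653) (nat_lit 2048) .dd))))) (.ch (nat_lit 7) (.ev (nat_lit 2144)
 (nat_lit 2048) (.ev (nat_lit 2548) (nat_lit 64) (.ev (nat_lit 3284) (nat_lit 256) (.ev (nat_lit 5856) (nat_lit
 4096) (.ev (nat_lit 5869) (nat_lit 2) .dd))))))) (.br (nat_lit 11) (.ch (nat_lit 9) (.ev (nat_lit 2144)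
 (nat_lit 4416) (.ev (nat_lit 2388) (nat_lit 2) (.ev (nat_lit 2397) (nat_lit 2048) .dd)))) (.br (nat_lit 12)
 (.ch (nat_lit 11) (.ev (nat_lit 2144) (nat_lit 6146) (.ev (nat_lit 2372) (nat_lit 64) (.ev (nat_lit 2381)
 (nat_lit 256) .dd)))) (.ch (nat_lit 12) (.ev (nat_lit 2144) (nat_lit 2) (.ev (nat_lit 2948) (nat_lit 64) (.ev
 (nat_lit 6356) (nat_lit 4096) (.nd (nat_lit 7856) (.ch (nat_lit 11) (.nd (nat_lit 9248) (.br (nat_lit 12) (.ch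
 (nat_lit 9) (.ev (nat_lit 9264) (nat_lit 2048) (.ev (nat_lit 9277) (nat_lit 256) .dd))) (.ch (nat_lit 12)
 (.fin (nat_lit 576377739190682060)))))))))))))))))) (.ch (nat_lit 1) (.ev (nat_lit 1104) (nat_lit 32770) (.ev
 (nat_lit 1300) (nat_lit 256) (.nd (nat_lit 3408) (.br (nat_lit 5) (.br (nat_lit 3) (.br (nat_lit 1) (.ch
 (nat_lit 0) (.ev (nat_lit 3424) (nat_lit 2112) (.ev (nat_lit 3476) (nat_lit 32) (.ev (nat_lit 3485) (nat_lit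
 4096) .dd)))) (.ch (nat_lit 1) (.ev (nat_lit 3424) (nat_lit 2048) (.ev (nat_lit 3476) (nat_lit 32) (.ev
 (nat_lit 3540) (nat_lit 4096) (.ev (nat_lit 3549) (nat_lit 64) .dd)))))) (.br (nat_lit 4) (.ch (nat_lit 3)
 (.ev (nat_lit 3424) (nat_lit 2048) (.ev (nat_lit 3476) (nat_lit 4096) (.ev (nat_lit 5728) (nat_lit 32) (.ev
 (nat_lit 5741) (nat_lit 64) .dd))))) (.ch (nat_lit 4) (.ev (nat_lit 3424) (nat_lit 4160) (.ev (nat_lit 5952)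
 (nat_lit 2080) .dd))))) (.br (nat_lit 10) (.br (nat_lit 6) (.ch (nat_lit 5) (.ev (nat_lit 3424) (nat_lit 6176)
 (.ev (nat_lit 3437) (nat_lit 64) .dd))) (.ch (nat_lit 6) (.ev (nat_lit 3424) (nat_lit 2048) (.ev (nat_lit
 3540) (nat_lit 4096) (.ev (nat_lit 3604) (nat_lit 64) (.ev (nat_lit 3613) (nat_lit 32) .dd)))))) (.br (nat_lit
 11) (.ch (nat_lit 10) (.ev (nat_lit 3424) (nat_lit 6144) (.ev (nat_lit 6644) (nat_lit 32) (.ev (nat_lit 6653)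
 (nat_lit 64) .dd)))) (.ch (nat_lit 11) (.ev (nat_lit 3424) (nat_lit 96) (.ev (nat_lit 3476) (nat_lit 4096)
 (.ev (nat_lit 3485) (nat_lit 2048) .dd)))))))))))) (.br (nat_lit 5) (.ch (nat_lit 3) (.ev (nat_lit 1104)
 (nat_lit 39170) (.nd (nat_lit 3408) (.br (nat_lit 7) (.br (nat_lit 5) (.ch (nat_lit 0) (.ev (nat_lit 3476)
 (nat_lit 32) (.ev (nat_lit 3485) (nat_lit 64) .dd))) (.ch (nat_lit 5) (.ev (nat_lit 3424) (nat_lit 64) (.ev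
 (nat_lit 3437) (nat_lit 32) .dd)))) (.br (nat_lit 9) (.ch (nat_lit 7) (.ev (nat_lit 4052) (nat_lit 64) (.ev
 (nat_lit 4061) (nat_lit 32) .dd))) (.br (nat_lit 11) (.ch (nat_lit 9) (.ev (nat_lit 3424) (nat_lit 64) (.ev
 (nat_lit 3437) (nat_lit 32) .dd))) (.ch (nat_lit 11) (.ev (nat_lit 3424) (nat_lit 32) (.ev (nat_lit 3437)
 (nat_lit 64) .dd))))))))) (.ch (nat_lit 5) (.ev (nat_lit 1104) (nat_lit 2) (.nd (nat_lit 2624) (.br (nat_lit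
 8) (.br (nat_lit 5) (.br (nat_lit 1) (.ch (nat_lit 0) (.ev (nat_lit 2640) (nat_lit 36928) (.ev (nat_lit 2740)
 (nat_lit 32) (.ev (nat_lit 2752) (nat_lit 2048) (.ev (nat_lit 2765) (nat_lit 256) .dd))))) (.ch (nat_lit 1)
 (.ev (nat_lit 2640) (nat_lit 2304) (.ev (nat_lit 3540) (nat_lit 32768) (.ev (nat_lit 3604) (nat_lit 4096) (.ev
 (nat_lit 6900) (nat_lit 32) (.ev (nat_lit 6909) (nat_lit 64) .dd))))))) (.br (nat_lit 7) (.ch (nat_lit 5) (.ev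
 (nat_lit 2640) (nat_lit 35072) (.ev (nat_lit 2740) (nat_lit 4096) (.ev (nat_lit 3604) (nat_lit 64) (.ev
 (nat_lit 3613) (nat_lit 32) .dd))))) (.ch (nat_lit 7) (.ev (nat_lit 2640) (nat_lit 32800) (.ev (nat_lit 2676)
 (nat_lit 256) (.ev (nat_lit 3252) (nat_lit 64) (.ev (nat_lit 3488) (nat_lit 2048) (.ev (nat_lit 3501) (nat_lit
 4096) .dd)))))))) (.br (nat_lit 10) (.br (nat_lit 9) (.ch (nat_lit 8) (.ev (nat_lit 3540) (nat_lit 34816) (.ev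
 (nat_lit 5844) (nat_lit 64) (.ev (nat_lit 6452) (nat_lit 4096) (.ev (nat_lit 6740) (nat_lit 32) (.ev (nat_lit
 6749) (nat_lit 256) .dd)))))) (.ch (nat_lit 9) (.ev (nat_lit 2640) (nat_lit 35136) (.ev (nat_lit 3076)
 (nat_lit 4096) (.ev (nat_lit 3085) (nat_lit 32) .dd))))) (.br (nat_lit 12) (.ch (nat_lit 10) (.ev (nat_lit
 2640) (nat_lit 34848) (.ev (nat_lit 5236) (nat_lit 4096) (.ev (nat_lit 6500) (nat_lit 64) (.ev (nat_lit 6509)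
 (nat_lit 256) .dd))))) (.ch (nat_lit 12) (.ev (nat_lit 2640) (nat_lit 6240) (.ev (nat_lit 2740) (nat_lit 256)
 (.ev (nat_lit 2749) (nat_lit 32768) .dd)))))))))))) (.br (nat_lit 8) (.br (nat_lit 7) (.ch (nat_lit 6) (.ev
 (nat_lit 1104) (nat_lit 6176) (.ev (nat_lit 1220) (nat_lit 32768) (.nd (nat_lit 2624) (.br (nat_lit 7) (.br
 (nat_lit 5) (.ch (nat_lit 1) (.ev (nat_lit 2640) (nat_lit 256) (.ev (nat_lit 2676) (nat_lit 2) (.ev (nat_lit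
 2685) (nat_lit 64) .dd)))) (.ch (nat_lit 5) (.ev (nat_lit 2640) (nat_lit 64) (.ev (nat_lit 6260) (nat_lit 2)
 (.ev (nat_lit 6269) (nat_lit 256) .dd))))) (.br (nat_lit 8) (.ch (nat_lit 7) (.ev (nat_lit 6032) (nat_lit 256)
 (.ev (nat_lit 6644) (nat_lit 2) (.ev (nat_lit 6653) (nat_lit 64) .dd)))) (.br (nat_lit 9) (.ch (nat_lit 8)
 (.ev (nat_lit 2640) (nat_lit 66) (.ev (nat_lit 2653) (nat_lit 256) .dd))) (.ch (nat_lit 9) (.ev (nat_lit 2640)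
 (nat_lit 256) (.ev (nat_lit 5952) (nat_lit 66) .dd)))))))))) (.ch (nat_lit 7) (.ev (nat_lit 1104) (nat_lit
 37184) (.ev (nat_lit 2868) (nat_lit 32) (.nd (nat_lit 3984) (.br (nat_lit 8) (.br (nat_lit 5) (.ch (nat_lit 3)
 (.ev (nat_lit 4000) (nat_lit 2) (.ev (nat_lit 4013) (nat_lit 2048) .dd))) (.ch (nat_lit 5) (.ev (nat_lit 6148)
 (nat_lit 2048) (.ev (nat_lit 6157) (nat_lit 2) .dd)))) (.br (nat_lit 9) (.ch (nat_lit 8) (.ev (nat_lit 4000)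
 (nat_lit 2) (.ev (nat_lit 4013) (nat_lit 2048) .dd))) (.br (nat_lit 10) (.ch (nat_lit 9) (.ev (nat_lit 4000)
 (nat_lit 2050) .dd)) (.ch (nat_lit 10) (.ev (nat_lit 4000) (nat_lit 2048) (.ev (nat_lit 4013) (nat_lit 2)
 .dd))))))))))) (.br (nat_lit 10) (.ch (nat_lit 8) (.ev (nat_lit 1104) (nat_lit 64) (.ev (nat_lit 1124)
 (nat_lit 4128) (.ev (nat_lit 1332) (nat_lit 2304) (.nd (nat_lit 3408) (.br (nat_lit 7) (.br (nat_lit 3) (.br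
 (nat_lit 2) (.ch (nat_lit 0) (.ev (nat_lit 3424) (nat_lit 32768) (.ev (nat_lit 3437) (nat_lit 2) .dd))) (.ch
 (nat_lit 2) (.ev (nat_lit 3476) (nat_lit 2) (.ev (nat_lit 3485) (nat_lit 32768) .dd)))) (.br (nat_lit 6) (.ch
 (nat_lit 3) (.ev (nat_lit 3424) (nat_lit 32770) .dd)) (.ch (nat_lit 6) (.ev (nat_lit 3476) (nat_lit 2) (.ev
 (nat_lit 3485) (nat_lit 32768) .dd))))) (.br (nat_lit 10) (.br (nat_lit 8) (.ch (nat_lit 7) (.ev (nat_lit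
 3476) (nat_lit 32768) (.ev (nat_lit 3485) (nat_lit 2) .dd))) (.ch (nat_lit 8) (.ev (nat_lit 3424) (nat_lit
 32770) .dd))) (.br (nat_lit 11) (.ch (nat_lit 10) (.ev (nat_lit 3424) (nat_lit 32768) (.ev (nat_lit 3437)
 (nat_lit 2) .dd))) (.br (nat_lit 12) (.ch (nat_lit 11) (.ev (nat_lit 3424) (nat_lit 2) (.ev (nat_lit 3437)
 (nat_lit 32768) .dd))) (.ch (nat_lit 12) (.ev (nat_lit 3424) (nat_lit 32768) (.ev (nat_lit 3437) (nat_lit 2)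
 .dd)))))))))))) (.br (nat_lit 12) (.ch (nat_lit 10) (.ev (nat_lit 1104) (nat_lit 2336) (.ev (nat_lit 1124)
 (nat_lit 2) (.ev (nat_lit 1220) (nat_lit 64) (.nd (nat_lit 3408) (.br (nat_lit 7) (.br (nat_lit 2) (.ch
 (nat_lit 0) (.ev (nat_lit 3424) (nat_lit 36864) .dd)) (.br (nat_lit 5) (.ch (nat_lit 2) (.ev (nat_lit 6192)
 (nat_lit 36864) .dd)) (.ch (nat_lit 5) (.ev (nat_lit 3424) (nat_lit 36864) .dd)))) (.br (nat_lit 9) (.br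
 (nat_lit 8) (.ch (nat_lit 7) (.ev (nat_lit 3424) (nat_lit 32768) (.ev (nat_lit 3437) (nat_lit 4096) .dd)))
 (.ch (nat_lit 8) (.ev (nat_lit 3424) (nat_lit 32768) (.ev (nat_lit 3437) (nat_lit 4096) .dd)))) (.br (nat_lit
 11) (.ch (nat_lit 9) (.ev (nat_lit 3476) (nat_lit 4096) (.ev (nat_lit 3485) (nat_lit 32768) .dd))) (.ch
 (nat_lit 11) (.ev (nat_lit 3476) (nat_lit 4096) (.ev (nat_lit 3485) (nat_lit 32768) .dd))))))))))) (.ch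
 (nat_lit 12) (.ev (nat_lit 1104) (nat_lit 2144) (.ev (nat_lit 1220) (nat_lit 4096) (.nd (nat_lit 2128) (.br
 (nat_lit 5) (.br (nat_lit 3) (.br (nat_lit 1) (.ch (nat_lit 0) (.ev (nat_lit 2676) (nat_lit 256) (.ev (nat_lit
 3604) (nat_lit 2) (.ev (nat_lit 3613) (nat_lit 32768) .dd)))) (.ch (nat_lit 1) (.ev (nat_lit 2676) (nat_lit
 256) (.ev (nat_lit 7140) (nat_lit 2) (.ev (nat_lit 7149) (nat_lit 32768) .dd))))) (.br (nat_lit 4) (.ch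
 (nat_lit 3) (.ev (nat_lit 2676) (nat_lit 256) (.ev (nat_lit 6692) (nat_lit 2) (.ev (nat_lit 6701) (nat_lit
 32768) .dd)))) (.ch (nat_lit 4) (.ev (nat_lit 2144) (nat_lit 258) (.ev (nat_lit 2157) (nat_lit 32768) .dd)))))
 (.br (nat_lit 11) (.br (nat_lit 7) (.ch (nat_lit 5) (.ev (nat_lit 2144) (nat_lit 33024) (.ev (nat_lit 2157)
 (nat_lit 2) .dd))) (.ch (nat_lit 7) (.ev (nat_lit 2676) (nat_lit 256) (.ev (nat_lit 5764) (nat_lit 32768) (.ev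
 (nat_lit 5773) (nat_lit 2) .dd))))) (.br (nat_lit 12) (.ch (nat_lit 11) (.ev (nat_lit 2144) (nat_lit 258) (.ev
 (nat_lit 2157) (nat_lit 32768) .dd))) (.ch (nat_lit 12) (.ev (nat_lit 2144) (nat_lit 33026)
 .dd))))))))))))))))) (.br (nat_lit 4) (.ch (nat_lit 3) (.ev (nat_lit 208) (nat_lit 6244) (.nd (nat_lit 1264)
 (.br (nat_lit 5) (.br (nat_lit 1) (.ch (nat_lit 0) (.ev (nat_lit 1280) (nat_lit 256) (.ev (nat_lit 1300)
 (nat_lit 32768) (.ev (nat_lit 1309) (nat_lit 2) .dd)))) (.br (nat_lit 2) (.ch (nat_lit 1) (.ev (nat_lit 1280)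
 (nat_lit 256) (.ev (nat_lit 1364) (nat_lit 32768) (.ev (nat_lit 1373) (nat_lit 2) .dd)))) (.ch (nat_lit 2)
 (.ev (nat_lit 1300) (nat_lit 2) (.ev (nat_lit 1332) (nat_lit 256) (.ev (nat_lit 1341) (nat_lit 32768)
 .dd)))))) (.br (nat_lit 8) (.br (nat_lit 6) (.ch (nat_lit 5) (.ev (nat_lit 1280) (nat_lit 2) (.ev (nat_lit
 1380) (nat_lit 32768) (.ev (nat_lit 1389) (nat_lit 256) .dd)))) (.ch (nat_lit 6) (.ev (nat_lit 1280) (nat_lit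
 32768) (.ev (nat_lit 1332) (nat_lit 256) (.ev (nat_lit 1341) (nat_lit 2) .dd))))) (.br (nat_lit 11) (.ch
 (nat_lit 8) (.ev (nat_lit 1300) (nat_lit 2) (.nd (nat_lit 3984) (.br (nat_lit 8) (.ch (nat_lit 0) (.fin
 (nat_lit 576425018215842342))) (.br (nat_lit 10) (.ch (nat_lit 8) (.ev (nat_lit 4000) (nat_lit 256) (.ev
 (nat_lit 4013) (nat_lit 32768) .dd))) (.ch (nat_lit 10) (.ev (nat_lit 4000) (nat_lit 32768) (.ev (nat_lit
 4013) (nat_lit 256) .dd)))))))) (.ch (nat_lit 11) (.ev (nat_lit 1280) (nat_lit 32768) (.fin (nat_lit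
 576437112789221951)))))))))) (.ch (nat_lit 4) (.ev (nat_lit 208) (nat_lit 33088) (.nd (nat_lit 736) (.br
 (nat_lit 5) (.br (nat_lit 3) (.br (nat_lit 1) (.ch (nat_lit 0) (.ev (nat_lit 752) (nat_lit 34) (.ev (nat_lit
 1364) (nat_lit 4) (.nd (nat_lit 2624) (.br (nat_lit 10) (.br (nat_lit 2) (.ch (nat_lit 0) (.ev (nat_lit 2640)
 (nat_lit 4096) (.ev (nat_lit 2653) (nat_lit 2048) .dd))) (.br (nat_lit 6) (.ch (nat_lit 2) (.ev (nat_lit 2640)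
 (nat_lit 4096) (.ev (nat_lit 2653) (nat_lit 2048) .dd))) (.ch (nat_lit 6) (.ev (nat_lit 2640) (nat_lit 4096)
 (.ev (nat_lit 2653) (nat_lit 2048) .dd))))) (.br (nat_lit 11) (.ch (nat_lit 10) (.ev (nat_lit 2676) (nat_lit
 4096) (.ev (nat_lit 2685) (nat_lit 2048) .dd))) (.br (nat_lit 12) (.ch (nat_lit 11) (.ev (nat_lit 2640)
 (nat_lit 2048) (.ev (nat_lit 2653) (nat_lit 4096) .dd))) (.ch (nat_lit 12) (.fin (nat_lit
 576463500973916807)))))))))) (.ch (nat_lit 1) (.ev (nat_lit 752) (nat_lit 4130) (.ev (nat_lit 2900) (nat_lit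
 2048) (.ev (nat_lit 2909) (nat_lit 4) .dd))))) (.br (nat_lit 4) (.ch (nat_lit 3) (.ev (nat_lit 752) (nat_lit
 2) (.ev (nat_lit 1140) (nat_lit 32) (.ev (nat_lit 2788) (nat_lit 2048) (.nd (nat_lit 3984) (.br (nat_lit 7)
 (.ch (nat_lit 4) (.ev (nat_lit 4000) (nat_lit 4100) .dd)) (.br (nat_lit 10) (.ch (nat_lit 7) (.ev (nat_lit
 4020) (nat_lit 4096) (.ev (nat_lit 4029) (nat_lit 4) .dd))) (.ch (nat_lit 10) (.ev (nat_lit 6512) (nat_lit 4)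
 (.ev (nat_lit 6525) (nat_lit 4096) .dd)))))))))) (.ch (nat_lit 4) (.ev (nat_lit 752) (nat_lit 4102) (.nd
 (nat_lit 3408) (.br (nat_lit 4) (.ch (nat_lit 0) (.ev (nat_lit 3476) (nat_lit 2048) (.ev (nat_lit 3485)
 (nat_lit 32) .dd))) (.br (nat_lit 11) (.ch (nat_lit 4) (.ev (nat_lit 3476) (nat_lit 32) (.ev (nat_lit 3485)
 (nat_lit 2048) .dd))) (.ch (nat_lit 11) (.ev (nat_lit 3476) (nat_lit 32) (.ev (nat_lit 3485) (nat_lit 2048)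
 .dd)))))))))) (.br (nat_lit 7) (.br (nat_lit 6) (.ch (nat_lit 5) (.ev (nat_lit 752) (nat_lit 4096) (.ev
 (nat_lit 1124) (nat_lit 32) (.nd (nat_lit 1840) (.br (nat_lit 7) (.br (nat_lit 4) (.ch (nat_lit 1) (.ev
 (nat_lit 1856) (nat_lit 2) (.ev (nat_lit 2004) (nat_lit 4) (.ev (nat_lit 2013) (nat_lit 2048) .dd)))) (.br
 (nat_lit 5) (.ch (nat_lit 4) (.ev (nat_lit 1856) (nat_lit 4) (.ev (nat_lit 2164) (nat_lit 2) (.ev (nat_lit
 2173) (nat_lit 2048) .dd)))) (.ch (nat_lit 5) (.ev (nat_lit 1856) (nat_lit 2048) (.ev (nat_lit 2704) (nat_lit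
 2) (.ev (nat_lit 2717) (nat_lit 4) .dd)))))) (.br (nat_lit 9) (.br (nat_lit 8) (.ch (nat_lit 7) (.ev (nat_lit
 1856) (nat_lit 2048) (.ev (nat_lit 2164) (nat_lit 2) (.ev (nat_lit 2173) (nat_lit 4) .dd)))) (.ch (nat_lit 8)
 (.ev (nat_lit 1856) (nat_lit 2) (.ev (nat_lit 3044) (nat_lit 4) (.ev (nat_lit 3053) (nat_lit 2048) .dd)))))
 (.br (nat_lit 10) (.ch (nat_lit 9) (.ev (nat_lit 1856) (nat_lit 2) (.ev (nat_lit 2388) (nat_lit 4) (.ev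
 (nat_lit 2397) (nat_lit 2048) .dd)))) (.ch (nat_lit 10) (.ev (nat_lit 3152) (nat_lit 2048) (.fin (nat_lit
 576471197657023039))))))))))) (.ch (nat_lit 6) (.ev (nat_lit 752) (nat_lit 32) (.ev (nat_lit 820) (nat_lit
 4096) (.nd (nat_lit 2128) (.br (nat_lit 7) (.br (nat_lit 4) (.ch (nat_lit 1) (.ev (nat_lit 2164) (nat_lit
 2048) (.ev (nat_lit 2788) (nat_lit 4) (.ev (nat_lit 2797) (nat_lit 2) .dd)))) (.br (nat_lit 5) (.ch (nat_lit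
 4) (.ev (nat_lit 2144) (nat_lit 2048) (.ev (nat_lit 2788) (nat_lit 4) (.ev (nat_lit 2797) (nat_lit 2) .dd))))
 (.ch (nat_lit 5) (.ev (nat_lit 2144) (nat_lit 2) (.ev (nat_lit 2676) (nat_lit 4) (.ev (nat_lit 2685) (nat_lit
 2048) .dd)))))) (.br (nat_lit 10) (.br (nat_lit 8) (.ch (nat_lit 7) (.ev (nat_lit 2144) (nat_lit 2) (.ev
 (nat_lit 2164) (nat_lit 2048) (.ev (nat_lit 2173) (nat_lit 4) .dd)))) (.ch (nat_lit 8) (.ev (nat_lit 2144)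
 (nat_lit 4) (.fin (nat_lit 576462401579729483))))) (.br (nat_lit 12) (.ch (nat_lit 10) (.ev (nat_lit 2164)
 (nat_lit 2) (.ev (nat_lit 2948) (nat_lit 4) (.ev (nat_lit 2957) (nat_lit 2048) .dd)))) (.ch (nat_lit 12) (.ev
 (nat_lit 2144) (nat_lit 2052) (.ev (nat_lit 2157) (nat_lit 2) .dd))))))))))) (.br (nat_lit 8) (.ch (nat_lit 7)
 (.ev (nat_lit 752) (nat_lit 2052) (.ev (nat_lit 1124) (nat_lit 32) (.ev (nat_lit 3652) (nat_lit 2) (.ev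
 (nat_lit 3661) (nat_lit 4096) .dd))))) (.br (nat_lit 11) (.ch (nat_lit 8) (.ev (nat_lit 752) (nat_lit 2048)
 (.ev (nat_lit 2260) (nat_lit 4096) (.ev (nat_lit 2820) (nat_lit 36) (.ev (nat_lit 2829) (nat_lit 2) .dd)))))
 (.ch (nat_lit 11) (.ev (nat_lit 752) (nat_lit 6148) (.nd (nat_lit 3408) (.br (nat_lit 10) (.ch (nat_lit 6)
 (.ev (nat_lit 3476) (nat_lit 2) (.ev (nat_lit 3485) (nat_lit 32) .dd))) (.br (nat_lit 11) (.ch (nat_lit 10)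
 (.ev (nat_lit 3476) (nat_lit 2) (.ev (nat_lit 3485) (nat_lit 32) .dd))) (.ch (nat_lit 11) (.ev (nat_lit 3712)
 (nat_lit 34) .dd)))))))))))))))) (.br (nat_lit 7) (.br (nat_lit 6) (.ch (nat_lit 5) (.ev (nat_lit 208)
 (nat_lit 33058) (.ev (nat_lit 388) (nat_lit 4096) (.nd (nat_lit 672) (.br (nat_lit 7) (.br (nat_lit 4) (.br
 (nat_lit 3) (.ch (nat_lit 0) (.ev (nat_lit 688) (nat_lit 64) (.nd (nat_lit 3408) (.br (nat_lit 3) (.ch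
 (nat_lit 1) (.ev (nat_lit 3812) (nat_lit 2048) (.ev (nat_lit 3821) (nat_lit 4) .dd))) (.br (nat_lit 12) (.ch
 (nat_lit 3) (.ev (nat_lit 3876) (nat_lit 4) (.ev (nat_lit 3885) (nat_lit 2048) .dd))) (.ch (nat_lit 12) (.ev
 (nat_lit 3540) (nat_lit 2048) (.ev (nat_lit 3549) (nat_lit 4) .dd)))))))) (.ch (nat_lit 3) (.ev (nat_lit 688)
 (nat_lit 4) (.nd (nat_lit 2336) (.br (nat_lit 5) (.br (nat_lit 3) (.ch (nat_lit 0) (.ev (nat_lit 3044)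
 (nat_lit 2048) (.ev (nat_lit 3053) (nat_lit 64) .dd))) (.ch (nat_lit 3) (.ev (nat_lit 2676) (nat_lit 2048)
 (.ev (nat_lit 2685) (nat_lit 64) .dd)))) (.br (nat_lit 10) (.ch (nat_lit 5) (.ev (nat_lit 3700) (nat_lit 64)
 (.ev (nat_lit 3709) (nat_lit 2048) .dd))) (.ch (nat_lit 10) (.ev (nat_lit 2676) (nat_lit 2048) (.ev (nat_lit
 2685) (nat_lit 64) .dd))))))))) (.br (nat_lit 5) (.ch (nat_lit 4) (.ev (nat_lit 688) (nat_lit 64) (.nd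
 (nat_lit 2624) (.br (nat_lit 6) (.br (nat_lit 4) (.ch (nat_lit 1) (.ev (nat_lit 2948) (nat_lit 4) (.ev
 (nat_lit 2957) (nat_lit 2048) .dd))) (.ch (nat_lit 4) (.ev (nat_lit 2948) (nat_lit 4) (.ev (nat_lit 2957)
 (nat_lit 2048) .dd)))) (.br (nat_lit 11) (.ch (nat_lit 6) (.ev (nat_lit 2640) (nat_lit 4) (.ev (nat_lit 2653)
 (nat_lit 2048) .dd))) (.br (nat_lit 12) (.ch (nat_lit 11) (.ev (nat_lit 2948) (nat_lit 4) (.ev (nat_lit 2957)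
 (nat_lit 2048) .dd))) (.ch (nat_lit 12) (.ev (nat_lit 2948) (nat_lit 4) (.ev (nat_lit 2957) (nat_lit 2048)
 .dd))))))))) (.ch (nat_lit 5) (.ev (nat_lit 688) (nat_lit 2048) (.ev (nat_lit 1204) (nat_lit 4) (.ev (nat_lit
 1213) (nat_lit 64) .dd)))))) (.br (nat_lit 10) (.br (nat_lit 8) (.ch (nat_lit 7) (.ev (nat_lit 688) (nat_lit
 64) (.nd (nat_lit 2128) (.br (nat_lit 6) (.br (nat_lit 4) (.ch (nat_lit 1) (.ev (nat_lit 4020) (nat_lit 4)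
 (.ev (nat_lit 4029) (nat_lit 2048) .dd))) (.ch (nat_lit 4) (.ev (nat_lit 4132) (nat_lit 2048) (.ev (nat_lit
 4141) (nat_lit 4) .dd)))) (.br (nat_lit 7) (.ch (nat_lit 6) (.ev (nat_lit 5540) (nat_lit 2048) (.ev (nat_lit
 5549) (nat_lit 4) .dd))) (.ch (nat_lit 7) (.ev (nat_lit 6020) (nat_lit 4) (.ev (nat_lit 6029) (nat_lit 2048)
 .dd)))))))) (.ch (nat_lit 8) (.ev (nat_lit 688) (nat_lit 2052) (.ev (nat_lit 701) (nat_lit 64) .dd)))) (.br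
 (nat_lit 11) (.ch (nat_lit 10) (.ev (nat_lit 688) (nat_lit 2052) (.ev (nat_lit 701) (nat_lit 64) .dd))) (.br
 (nat_lit 12) (.ch (nat_lit 11) (.nd (nat_lit 1648) (.br (nat_lit 9) (.br (nat_lit 5) (.br (nat_lit 4) (.ch
 (nat_lit 3) (.ev (nat_lit 1664) (nat_lit 64) (.ev (nat_lit 1684) (nat_lit 2048) (.ev (nat_lit 1693) (nat_lit
 4) .dd)))) (.ch (nat_lit 4) (.ev (nat_lit 1664) (nat_lit 4) (.ev (nat_lit 5236) (nat_lit 64) (.ev (nat_lit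
 5245) (nat_lit 2048) .dd))))) (.br (nat_lit 7) (.ch (nat_lit 5) (.ev (nat_lit 1664) (nat_lit 4) (.fin (nat_lit
 576152339538723739)))) (.ch (nat_lit 7) (.ev (nat_lit 5716) (nat_lit 2052) (.ev (nat_lit 5725) (nat_lit 64)
 .dd))))) (.br (nat_lit 11) (.br (nat_lit 10) (.ch (nat_lit 9) (.ev (nat_lit 1664) (nat_lit 64) (.ev (nat_lit
 2244) (nat_lit 2048) (.ev (nat_lit 2253) (nat_lit 4) .dd)))) (.ch (nat_lit 10) (.ev (nat_lit 1664) (nat_lit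
 64) (.ev (nat_lit 3540) (nat_lit 4) (.ev (nat_lit 3549) (nat_lit 2048) .dd))))) (.br (nat_lit 12) (.ch
 (nat_lit 11) (.ev (nat_lit 1664) (nat_lit 2052) (.ev (nat_lit 1677) (nat_lit 64) .dd))) (.ch (nat_lit 12) (.ev
 (nat_lit 1664) (nat_lit 2112) (.ev (nat_lit 1677) (nat_lit 4) .dd)))))))) (.ch (nat_lit 12) (.nd (nat_lit
 2624) (.br (nat_lit 8) (.br (nat_lit 1) (.ch (nat_lit 0) (.ev (nat_lit 2640) (nat_lit 68) (.ev (nat_lit 2653)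
 (nat_lit 2048) .dd))) (.br (nat_lit 4) (.ch (nat_lit 1) (.ev (nat_lit 2820) (nat_lit 64) (.ev (nat_lit 2868)
 (nat_lit 2048) (.ev (nat_lit 2877) (nat_lit 4) .dd)))) (.ch (nat_lit 4) (.ev (nat_lit 2640) (nat_lit 2048)
 (.ev (nat_lit 3540) (nat_lit 4) (.ev (nat_lit 3549) (nat_lit 64) .dd)))))) (.br (nat_lit 9) (.ch (nat_lit 8)
 (.ev (nat_lit 2868) (nat_lit 2048) (.fin (nat_lit 576377739192779410)))) (.br (nat_lit 11) (.ch (nat_lit 9)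
 (.ev (nat_lit 2676) (nat_lit 2048) (.ev (nat_lit 6356) (nat_lit 64) (.ev (nat_lit 6365) (nat_lit 4) .dd))))
 (.ch (nat_lit 11) (.ev (nat_lit 2640) (nat_lit 64) (.ev (nat_lit 2676) (nat_lit 2048) (.ev (nat_lit 2685)
 (nat_lit 4) .dd))))))))))))))))) (.ch (nat_lit 6) (.ev (nat_lit 208) (nat_lit 4354) (.nd (nat_lit 672) (.br
 (nat_lit 5) (.br (nat_lit 3) (.br (nat_lit 2) (.ch (nat_lit 0) (.ev (nat_lit 688) (nat_lit 68) (.nd (nat_lit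
 1968) (.br (nat_lit 7) (.br (nat_lit 3) (.ch (nat_lit 0) (.ev (nat_lit 2164) (nat_lit 2048) (.ev (nat_lit
 5444) (nat_lit 32768) (.ev (nat_lit 5453) (nat_lit 32) .dd)))) (.br (nat_lit 6) (.ch (nat_lit 3) (.ev (nat_lit
 2004) (nat_lit 32) (.ev (nat_lit 2740) (nat_lit 2048) (.ev (nat_lit 2749) (nat_lit 32768) .dd)))) (.ch
 (nat_lit 6) (.ev (nat_lit 1984) (nat_lit 2048) (.ev (nat_lit 2740) (nat_lit 32768) (.ev (nat_lit 2749)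
 (nat_lit 32) .dd)))))) (.br (nat_lit 8) (.ch (nat_lit 7) (.ev (nat_lit 1984) (nat_lit 32768) (.ev (nat_lit
 2740) (nat_lit 2048) (.ev (nat_lit 2749) (nat_lit 32) .dd)))) (.br (nat_lit 9) (.ch (nat_lit 8) (.ev (nat_lit
 1984) (nat_lit 32768) (.ev (nat_lit 5364) (nat_lit 32) (.ev (nat_lit 5373) (nat_lit 2048) .dd)))) (.ch
 (nat_lit 9) (.ev (nat_lit 1984) (nat_lit 32768) (.ev (nat_lit 2740) (nat_lit 2048) (.ev (nat_lit 2749)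
 (nat_lit 32) .dd)))))))))) (.ch (nat_lit 2) (.ev (nat_lit 688) (nat_lit 2052) (.nd (nat_lit 1840) (.br
 (nat_lit 5) (.br (nat_lit 1) (.ch (nat_lit 0) (.ev (nat_lit 1856) (nat_lit 32768) (.ev (nat_lit 2788) (nat_lit
 64) (.ev (nat_lit 2797) (nat_lit 32) .dd)))) (.br (nat_lit 2) (.ch (nat_lit 1) (.ev (nat_lit 2004) (nat_lit
 64) (.ev (nat_lit 3056) (nat_lit 32) (.ev (nat_lit 3069) (nat_lit 32768) .dd)))) (.ch (nat_lit 2) (.ev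
 (nat_lit 1856) (nat_lit 32832) (.ev (nat_lit 1869) (nat_lit 32) .dd))))) (.br (nat_lit 11) (.br (nat_lit 9)
 (.ch (nat_lit 5) (.ev (nat_lit 1856) (nat_lit 32) (.ev (nat_lit 2820) (nat_lit 32768) (.ev (nat_lit 2829)
 (nat_lit 64) .dd)))) (.ch (nat_lit 9) (.ev (nat_lit 2004) (nat_lit 32) (.ev (nat_lit 2180) (nat_lit 64) (.ev
 (nat_lit 2189) (nat_lit 32768) .dd))))) (.br (nat_lit 12) (.ch (nat_lit 11) (.ev (nat_lit 1856) (nat_lit 32)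
 (.ev (nat_lit 2196) (nat_lit 64) (.ev (nat_lit 2205) (nat_lit 32768) .dd)))) (.ch (nat_lit 12) (.ev (nat_lit
 2900) (nat_lit 32) (.ev (nat_lit 3044) (nat_lit 64) (.ev (nat_lit 3053) (nat_lit 32768) .dd))))))))))) (.br
 (nat_lit 4) (.ch (nat_lit 3) (.ev (nat_lit 688) (nat_lit 32768) (.nd (nat_lit 1408) (.br (nat_lit 8) (.br
 (nat_lit 5) (.br (nat_lit 3) (.ch (nat_lit 1) (.ev (nat_lit 1424) (nat_lit 2048) (.ev (nat_lit 1876) (nat_lit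
 4) (.ev (nat_lit 4932) (nat_lit 32) (.ev (nat_lit 4941) (nat_lit 64) .dd))))) (.ch (nat_lit 3) (.ev (nat_lit
 1424) (nat_lit 2080) (.ev (nat_lit 2420) (nat_lit 4) (.ev (nat_lit 2429) (nat_lit 64) .dd))))) (.br (nat_lit
 6) (.ch (nat_lit 5) (.ev (nat_lit 1424) (nat_lit 2112) (.ev (nat_lit 2388) (nat_lit 4) (.ev (nat_lit 2397)
 (nat_lit 32) .dd)))) (.ch (nat_lit 6) (.ev (nat_lit 1424) (nat_lit 32) (.ev (nat_lit 3652) (nat_lit 2048) (.ev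
 (nat_lit 3792) (nat_lit 4) (.ev (nat_lit 3805) (nat_lit 64) .dd))))))) (.br (nat_lit 11) (.br (nat_lit 10)
 (.ch (nat_lit 8) (.ev (nat_lit 1424) (nat_lit 2112) (.ev (nat_lit 2388) (nat_lit 4) (.ev (nat_lit 2397)
 (nat_lit 32) .dd)))) (.ch (nat_lit 10) (.ev (nat_lit 1424) (nat_lit 36) (.ev (nat_lit 1780) (nat_lit 2048)
 (.ev (nat_lit 1789) (nat_lit 64) .dd))))) (.br (nat_lit 12) (.ch (nat_lit 11) (.ev (nat_lit 1424) (nat_lit 4)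
 (.ev (nat_lit 1700) (nat_lit 32) (.ev (nat_lit 3604) (nat_lit 2048) (.ev (nat_lit 3613) (nat_lit 64) .dd)))))
 (.ch (nat_lit 12) (.ev (nat_lit 1780) (nat_lit 2048) (.ev (nat_lit 2388) (nat_lit 4) (.nd (nat_lit 4224) (.br
 (nat_lit 6) (.br (nat_lit 4) (.ch (nat_lit 0) (.fin (nat_lit 576460202549133894))) (.ch (nat_lit 4) (.ev
 (nat_lit 4240) (nat_lit 32) (.ev (nat_lit 4253) (nat_lit 64) .dd)))) (.br (nat_lit 12) (.ch (nat_lit 6) (.ev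
 (nat_lit 4240) (nat_lit 64) (.ev (nat_lit 4253) (nat_lit 32) .dd))) (.ch (nat_lit 12) (.ev (nat_lit 4240)
 (nat_lit 64) (.ev (nat_lit 4253) (nat_lit 32) .dd))))))))))))))) (.ch (nat_lit 4) (.ev (nat_lit 688) (nat_lit
 2116) (.nd (nat_lit 2624) (.br (nat_lit 4) (.br (nat_lit 3) (.ch (nat_lit 0) (.ev (nat_lit 2676) (nat_lit 32)
 (.ev (nat_lit 2685) (nat_lit 32768) .dd))) (.ch (nat_lit 3) (.ev (nat_lit 2640) (nat_lit 32768) (.ev (nat_lit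
 2653) (nat_lit 32) .dd)))) (.br (nat_lit 6) (.ch (nat_lit 4) (.ev (nat_lit 6596) (nat_lit 32768) (.ev (nat_lit
 6605) (nat_lit 32) .dd))) (.br (nat_lit 8) (.ch (nat_lit 6) (.ev (nat_lit 2640) (nat_lit 32) (.ev (nat_lit
 2653) (nat_lit 32768) .dd))) (.ch (nat_lit 8) (.ev (nat_lit 2640) (nat_lit 32768) (.ev (nat_lit 2653) (nat_lit
 32) .dd))))))))))) (.br (nat_lit 8) (.br (nat_lit 7) (.ch (nat_lit 5) (.nd (nat_lit 1456) (.br (nat_lit 7)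
 (.br (nat_lit 4) (.br (nat_lit 3) (.ch (nat_lit 0) (.ev (nat_lit 1472) (nat_lit 2116) (.fin (nat_lit
 576812046336083270)))) (.ch (nat_lit 3) (.ev (nat_lit 1472) (nat_lit 2080) (.ev (nat_lit 2788) (nat_lit 32768)
 (.ev (nat_lit 3540) (nat_lit 4) (.ev (nat_lit 3549) (nat_lit 64) .dd)))))) (.br (nat_lit 6) (.ch (nat_lit 4)
 (.ev (nat_lit 1472) (nat_lit 32768) (.ev (nat_lit 2388) (nat_lit 2048) (.ev (nat_lit 5188) (nat_lit 64) (.ev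
 (nat_lit 5236) (nat_lit 4) (.ev (nat_lit 5245) (nat_lit 32) .dd)))))) (.ch (nat_lit 6) (.ev (nat_lit 1472)
 (nat_lit 2080) (.ev (nat_lit 2452) (nat_lit 32768) (.ev (nat_lit 3604) (nat_lit 4) (.ev (nat_lit 3613)
 (nat_lit 64) .dd))))))) (.br (nat_lit 9) (.br (nat_lit 8) (.ch (nat_lit 7) (.ev (nat_lit 1472) (nat_lit 32804)
 (.ev (nat_lit 6192) (nat_lit 2112) .dd))) (.ch (nat_lit 8) (.ev (nat_lit 1472) (nat_lit 34816) (.ev (nat_lit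
 3540) (nat_lit 4) (.ev (nat_lit 6596) (nat_lit 64) (.ev (nat_lit 6605) (nat_lit 32) .dd)))))) (.br (nat_lit
 10) (.ch (nat_lit 9) (.ev (nat_lit 1472) (nat_lit 32768) (.ev (nat_lit 2452) (nat_lit 32) (.ev (nat_lit 3812)
 (nat_lit 4) (.nd (nat_lit 4864) (.br (nat_lit 8) (.br (nat_lit 4) (.ch (nat_lit 1) (.ev (nat_lit 4880)
 (nat_lit 2112) .dd)) (.ch (nat_lit 4) (.ev (nat_lit 4880) (nat_lit 2048) (.ev (nat_lit 4893) (nat_lit 64)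
 .dd)))) (.br (nat_lit 9) (.ch (nat_lit 8) (.ev (nat_lit 5188) (nat_lit 2048) (.ev (nat_lit 5197) (nat_lit 64)
 .dd))) (.br (nat_lit 10) (.ch (nat_lit 9) (.ev (nat_lit 4880) (nat_lit 2048) (.ev (nat_lit 4893) (nat_lit 64)
 .dd))) (.ch (nat_lit 10) (.ev (nat_lit 4880) (nat_lit 2048) (.ev (nat_lit 4893) (nat_lit 64) .dd)))))))))))
 (.ch (nat_lit 10) (.ev (nat_lit 1472) (nat_lit 68) (.ev (nat_lit 2388) (nat_lit 2048) (.ev (nat_lit 2900)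
 (nat_lit 32) (.ev (nat_lit 2909) (nat_lit 32768) .dd)))))))))) (.ch (nat_lit 7) (.ev (nat_lit 688) (nat_lit
 32800) (.nd (nat_lit 1744) (.br (nat_lit 6) (.br (nat_lit 2) (.ch (nat_lit 1) (.ev (nat_lit 1760) (nat_lit 68)
 (.ev (nat_lit 1773) (nat_lit 2048) .dd))) (.br (nat_lit 5) (.ch (nat_lit 2) (.ev (nat_lit 1760) (nat_lit 2048)
 (.ev (nat_lit 6644) (nat_lit 64) (.ev (nat_lit 6653) (nat_lit 4) .dd)))) (.ch (nat_lit 5) (.ev (nat_lit 1760)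
 (nat_lit 2048) (.ev (nat_lit 3764) (nat_lit 4) (.ev (nat_lit 3773) (nat_lit 64) .dd)))))) (.br (nat_lit 11)
 (.br (nat_lit 10) (.ch (nat_lit 6) (.ev (nat_lit 5876) (nat_lit 2048) (.ev (nat_lit 6912) (nat_lit 64) (.ev
 (nat_lit 6925) (nat_lit 4) .dd)))) (.ch (nat_lit 10) (.ev (nat_lit 1908) (nat_lit 64) (.ev (nat_lit 3540)
 (nat_lit 4) (.ev (nat_lit 3549) (nat_lit 2048) .dd))))) (.br (nat_lit 12) (.ch (nat_lit 11) (.ev (nat_lit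
 1760) (nat_lit 64) (.ev (nat_lit 2900) (nat_lit 2048) (.ev (nat_lit 2909) (nat_lit 4) .dd)))) (.ch (nat_lit
 12) (.ev (nat_lit 1760) (nat_lit 2052) (.ev (nat_lit 1773) (nat_lit 64) .dd)))))))))) (.br (nat_lit 9) (.ch
 (nat_lit 8) (.ev (nat_lit 688) (nat_lit 2084) (.nd (nat_lit 1744) (.br (nat_lit 4) (.br (nat_lit 2) (.ch
 (nat_lit 0) (.ev (nat_lit 1760) (nat_lit 32768) (.ev (nat_lit 1773) (nat_lit 64) .dd))) (.br (nat_lit 3) (.ch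
 (nat_lit 2) (.ev (nat_lit 1760) (nat_lit 64) (.ev (nat_lit 1773) (nat_lit 32768) .dd))) (.ch (nat_lit 3) (.ev
 (nat_lit 1760) (nat_lit 64) (.ev (nat_lit 1773) (nat_lit 32768) .dd))))) (.br (nat_lit 8) (.ch (nat_lit 4)
 (.ev (nat_lit 3476) (nat_lit 32768) (.ev (nat_lit 3485) (nat_lit 64) .dd))) (.br (nat_lit 9) (.ch (nat_lit 8)
 (.ev (nat_lit 2832) (nat_lit 32832) .dd)) (.ch (nat_lit 9) (.nd (nat_lit 4224) (.br (nat_lit 11) (.ch (nat_lit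
 0) (.ev (nat_lit 4240) (nat_lit 32768) (.ev (nat_lit 4253) (nat_lit 64) .dd))) (.br (nat_lit 12) (.ch (nat_lit
 11) (.ev (nat_lit 5776) (nat_lit 32832) .dd)) (.ch (nat_lit 12) (.ev (nat_lit 4240) (nat_lit 32768) (.ev
 (nat_lit 4253) (nat_lit 64) .dd))))))))))))) (.br (nat_lit 12) (.ch (nat_lit 9) (.ev (nat_lit 688) (nat_lit
 32832) (.nd (nat_lit 1744) (.br (nat_lit 5) (.br (nat_lit 3) (.ch (nat_lit 1) (.ev (nat_lit 1760) (nat_lit 32)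
 (.ev (nat_lit 5572) (nat_lit 2048) (.ev (nat_lit 5581) (nat_lit 4) .dd)))) (.ch (nat_lit 3) (.ev (nat_lit
 1760) (nat_lit 4) (.ev (nat_lit 2004) (nat_lit 2048) (.ev (nat_lit 2013) (nat_lit 32) .dd))))) (.br (nat_lit
 8) (.ch (nat_lit 5) (.ev (nat_lit 1760) (nat_lit 4) (.ev (nat_lit 2036) (nat_lit 2048) (.ev (nat_lit 2045)
 (nat_lit 32) .dd)))) (.ch (nat_lit 8) (.ev (nat_lit 1760) (nat_lit 4) (.ev (nat_lit 6596) (nat_lit 2048) (.ev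
 (nat_lit 6605) (nat_lit 32) .dd))))))))) (.ch (nat_lit 12) (.ev (nat_lit 688) (nat_lit 34848) (.ev (nat_lit
 1220) (nat_lit 4) (.ev (nat_lit 1229) (nat_lit 64) .dd)))))))))))) (.br (nat_lit 8) (.ch (nat_lit 7) (.ev
 (nat_lit 208) (nat_lit 4102) (.nd (nat_lit 624) (.br (nat_lit 6) (.br (nat_lit 4) (.br (nat_lit 2) (.ch
 (nat_lit 0) (.ev (nat_lit 640) (nat_lit 2144) (.nd (nat_lit 3408) (.br (nat_lit 6) (.ch (nat_lit 3) (.ev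
 (nat_lit 3476) (nat_lit 32768) (.ev (nat_lit 3485) (nat_lit 256) .dd))) (.br (nat_lit 11) (.ch (nat_lit 6)
 (.ev (nat_lit 3504) (nat_lit 33024) .dd)) (.ch (nat_lit 11) (.ev (nat_lit 3652) (nat_lit 32768) (.ev (nat_lit
 3661) (nat_lit 256) .dd)))))))) (.ch (nat_lit 2) (.ev (nat_lit 640) (nat_lit 256) (.nd (nat_lit 1408) (.br
 (nat_lit 7) (.br (nat_lit 5) (.ch (nat_lit 3) (.ev (nat_lit 1424) (nat_lit 32) (.ev (nat_lit 2244) (nat_lit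
 32768) (.ev (nat_lit 2820) (nat_lit 64) (.ev (nat_lit 2829) (nat_lit 2048) .dd))))) (.br (nat_lit 6) (.ch
 (nat_lit 5) (.ev (nat_lit 2788) (nat_lit 32) (.nd (nat_lit 4864) (.br (nat_lit 5) (.ch (nat_lit 0) (.ev
 (nat_lit 4880) (nat_lit 32768) (.ev (nat_lit 4932) (nat_lit 2048) (.ev (nat_lit 4941) (nat_lit 64) .dd))))
 (.br (nat_lit 11) (.ch (nat_lit 5) (.ev (nat_lit 4880) (nat_lit 64) (.nd (nat_lit 8352) (.br (nat_lit 10) (.ch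
 (nat_lit 2) (.fin (nat_lit 576444809426190877))) (.ch (nat_lit 10) (.ev (nat_lit 8404) (nat_lit 2048) (.ev
 (nat_lit 8413) (nat_lit 32768) .dd))))))) (.ch (nat_lit 11) (.ev (nat_lit 4880) (nat_lit 2048) (.ev (nat_lit
 4932) (nat_lit 32768) (.ev (nat_lit 4941) (nat_lit 64) .dd))))))))) (.ch (nat_lit 6) (.ev (nat_lit 1424)
 (nat_lit 32768) (.ev (nat_lit 3812) (nat_lit 2048) (.ev (nat_lit 3844) (nat_lit 32) (.ev (nat_lit 3853)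
 (nat_lit 64) .dd))))))) (.br (nat_lit 9) (.br (nat_lit 8) (.ch (nat_lit 7) (.ev (nat_lit 1424) (nat_lit 2112)
 (.ev (nat_lit 5044) (nat_lit 32768) (.ev (nat_lit 5053) (nat_lit 32) .dd)))) (.ch (nat_lit 8) (.ev (nat_lit
 1424) (nat_lit 32800) (.ev (nat_lit 2212) (nat_lit 64) (.ev (nat_lit 2221) (nat_lit 2048) .dd))))) (.br
 (nat_lit 12) (.ch (nat_lit 9) (.ev (nat_lit 1424) (nat_lit 2048) (.ev (nat_lit 1444) (nat_lit 32) (.ev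
 (nat_lit 5776) (nat_lit 32832) .dd)))) (.ch (nat_lit 12) (.ev (nat_lit 1424) (nat_lit 32768) (.nd (nat_lit
 3984) (.br (nat_lit 7) (.ch (nat_lit 1) (.ev (nat_lit 4000) (nat_lit 32) (.fin (nat_lit 576477794748809806))))
 (.ch (nat_lit 7) (.ev (nat_lit 6356) (nat_lit 2048) (.ev (nat_lit 6528) (nat_lit 64) (.ev (nat_lit 6541)
 (nat_lit 32) .dd))))))))))))))) (.br (nat_lit 5) (.ch (nat_lit 4) (.ev (nat_lit 640) (nat_lit 33024) (.nd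
 (nat_lit 1408) (.br (nat_lit 4) (.br (nat_lit 1) (.ch (nat_lit 0) (.ev (nat_lit 1424) (nat_lit 32) (.nd
 (nat_lit 3984) (.br (nat_lit 7) (.br (nat_lit 6) (.ch (nat_lit 1) (.ev (nat_lit 5140) (nat_lit 64) (.ev
 (nat_lit 5149) (nat_lit 2048) .dd))) (.ch (nat_lit 6) (.ev (nat_lit 4788) (nat_lit 2048) (.ev (nat_lit 4797)
 (nat_lit 64) .dd)))) (.br (nat_lit 8) (.ch (nat_lit 7) (.ev (nat_lit 5044) (nat_lit 2048) (.ev (nat_lit 5053)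
 (nat_lit 64) .dd))) (.br (nat_lit 10) (.ch (nat_lit 8) (.ev (nat_lit 4000) (nat_lit 64) (.ev (nat_lit 4013)
 (nat_lit 2048) .dd))) (.ch (nat_lit 10) (.ev (nat_lit 4000) (nat_lit 64) (.ev (nat_lit 4013) (nat_lit 2048)
 .dd))))))))) (.br (nat_lit 2) (.ch (nat_lit 1) (.ev (nat_lit 1424) (nat_lit 2080) (.ev (nat_lit 1437) (nat_lit
 64) .dd))) (.ch (nat_lit 2) (.nd (nat_lit 3984) (.br (nat_lit 6) (.ch (nat_lit 0) (.ev (nat_lit 4000) (nat_lit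
 32) (.ev (nat_lit 4020) (nat_lit 2048) (.ev (nat_lit 4029) (nat_lit 64) .dd)))) (.br (nat_lit 9) (.ch (nat_lit
 6) (.ev (nat_lit 4000) (nat_lit 32) (.fin (nat_lit 576409625269060163)))) (.ch (nat_lit 9) (.ev (nat_lit 4000)
 (nat_lit 64) (.ev (nat_lit 6148) (nat_lit 2048) (.ev (nat_lit 6157) (nat_lit 32) .dd)))))))))) (.br (nat_lit
 11) (.br (nat_lit 5) (.ch (nat_lit 4) (.ev (nat_lit 1424) (nat_lit 32) (.nd (nat_lit 4224) (.br (nat_lit 8)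
 (.ch (nat_lit 4) (.ev (nat_lit 4548) (nat_lit 2048) (.ev (nat_lit 4557) (nat_lit 64) .dd))) (.br (nat_lit 12)
 (.ch (nat_lit 8) (.ev (nat_lit 6432) (nat_lit 2112) .dd)) (.ch (nat_lit 12) (.ev (nat_lit 4724) (nat_lit 2048)
 (.ev (nat_lit 4733) (nat_lit 64) .dd)))))))) (.ch (nat_lit 5) (.ev (nat_lit 1424) (nat_lit 32) (.nd (nat_lit
 4416) (.ch (nat_lit 4) (.ev (nat_lit 6788) (nat_lit 2048) (.ev (nat_lit 6797) (nat_lit 64) .dd))))))) (.br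
 (nat_lit 12) (.ch (nat_lit 11) (.ev (nat_lit 1424) (nat_lit 2112) (.ev (nat_lit 1437) (nat_lit 32) .dd))) (.ch
 (nat_lit 12) (.ev (nat_lit 1424) (nat_lit 32) (.ev (nat_lit 1892) (nat_lit 64) (.ev (nat_lit 1901) (nat_lit
 2048) .dd)))))))))) (.ch (nat_lit 5) (.ev (nat_lit 640) (nat_lit 2304) (.nd (nat_lit 1648) (.br (nat_lit 7)
 (.br (nat_lit 4) (.ch (nat_lit 3) (.ev (nat_lit 1664) (nat_lit 64) (.ev (nat_lit 5044) (nat_lit 32768) (.ev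
 (nat_lit 5053) (nat_lit 32) .dd)))) (.br (nat_lit 5) (.ch (nat_lit 4) (.ev (nat_lit 1664) (nat_lit 32) (.nd
 (nat_lit 4864) (.br (nat_lit 6) (.ch (nat_lit 0) (.ev (nat_lit 6800) (nat_lit 32832) .dd)) (.br (nat_lit 7)
 (.ch (nat_lit 6) (.ev (nat_lit 7188) (nat_lit 64) (.ev (nat_lit 7197) (nat_lit 32768) .dd))) (.ch (nat_lit 7)
 (.ev (nat_lit 5056) (nat_lit 32832) .dd))))))) (.ch (nat_lit 5) (.ev (nat_lit 1664) (nat_lit 32) (.ev (nat_lit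
 5716) (nat_lit 32768) (.ev (nat_lit 5725) (nat_lit 64) .dd)))))) (.br (nat_lit 9) (.ch (nat_lit 7) (.nd
 (nat_lit 4224) (.br (nat_lit 9) (.br (nat_lit 4) (.ch (nat_lit 1) (.ev (nat_lit 4932) (nat_lit 32) (.ev
 (nat_lit 5264) (nat_lit 32832) .dd))) (.br (nat_lit 6) (.ch (nat_lit 4) (.ev (nat_lit 4240) (nat_lit 64) (.ev
 (nat_lit 4932) (nat_lit 32) (.ev (nat_lit 4941) (nat_lit 32768) .dd)))) (.ch (nat_lit 6) (.ev (nat_lit 4240)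
 (nat_lit 32768) (.ev (nat_lit 4896) (nat_lit 96) .dd))))) (.br (nat_lit 10) (.ch (nat_lit 9) (.ev (nat_lit
 4240) (nat_lit 32768) (.ev (nat_lit 6692) (nat_lit 32) (.ev (nat_lit 6701) (nat_lit 64) .dd)))) (.br (nat_lit
 12) (.ch (nat_lit 10) (.ev (nat_lit 6096) (nat_lit 32) (.ev (nat_lit 6740) (nat_lit 64) (.ev (nat_lit 6749)
 (nat_lit 32768) .dd)))) (.ch (nat_lit 12) (.ev (nat_lit 4240) (nat_lit 32) (.ev (nat_lit 5364) (nat_lit 32768)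
 (.ev (nat_lit 5373) (nat_lit 64) .dd))))))))) (.br (nat_lit 10) (.ch (nat_lit 9) (.nd (nat_lit 4224) (.br
 (nat_lit 5) (.ch (nat_lit 1) (.ev (nat_lit 5888) (nat_lit 64) (.ev (nat_lit 6356) (nat_lit 32768) (.ev
 (nat_lit 6365) (nat_lit 32) .dd)))) (.br (nat_lit 8) (.ch (nat_lit 5) (.ev (nat_lit 4240) (nat_lit 64) (.ev
 (nat_lit 5152) (nat_lit 32800) .dd))) (.ch (nat_lit 8) (.ev (nat_lit 4240) (nat_lit 32768) (.ev (nat_lit 5236)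
 (nat_lit 32) (.ev (nat_lit 5245) (nat_lit 64) .dd)))))))) (.ch (nat_lit 10) (.nd (nat_lit 4224) (.br (nat_lit
 9) (.ch (nat_lit 2) (.ev (nat_lit 4240) (nat_lit 64) (.ev (nat_lit 5844) (nat_lit 32768) (.ev (nat_lit 5853)
 (nat_lit 32) .dd)))) (.br (nat_lit 11) (.ch (nat_lit 9) (.ev (nat_lit 4240) (nat_lit 64) (.ev (nat_lit 5008)
 (nat_lit 32800) .dd))) (.ch (nat_lit 11) (.ev (nat_lit 4240) (nat_lit 32) (.ev (nat_lit 4500) (nat_lit 32768)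
 (.ev (nat_lit 4509) (nat_lit 64) .dd)))))))))))))))) (.br (nat_lit 9) (.br (nat_lit 8) (.ch (nat_lit 6) (.ev
 (nat_lit 640) (nat_lit 33056) (.nd (nat_lit 1648) (.br (nat_lit 7) (.br (nat_lit 6) (.ch (nat_lit 2) (.nd
 (nat_lit 4224) (.br (nat_lit 10) (.br (nat_lit 7) (.ch (nat_lit 4) (.ev (nat_lit 4240) (nat_lit 2048) (.ev
 (nat_lit 4253) (nat_lit 64) .dd))) (.ch (nat_lit 7) (.ev (nat_lit 4996) (nat_lit 2048) (.ev (nat_lit 5005)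
 (nat_lit 64) .dd)))) (.br (nat_lit 12) (.ch (nat_lit 10) (.ev (nat_lit 4240) (nat_lit 2048) (.ev (nat_lit
 4253) (nat_lit 64) .dd))) (.ch (nat_lit 12) (.ev (nat_lit 6500) (nat_lit 64) (.ev (nat_lit 6509) (nat_lit
 2048) .dd))))))) (.ch (nat_lit 6) (.ev (nat_lit 1684) (nat_lit 2048) (.ev (nat_lit 1693) (nat_lit 64) .dd))))
 (.br (nat_lit 11) (.ch (nat_lit 7) (.ev (nat_lit 2832) (nat_lit 2112) .dd)) (.br (nat_lit 12) (.ch (nat_lit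
 11) (.ev (nat_lit 6596) (nat_lit 2048) (.ev (nat_lit 6605) (nat_lit 64) .dd))) (.ch (nat_lit 12) (.ev (nat_lit
 1664) (nat_lit 2048) (.ev (nat_lit 1677) (nat_lit 64) .dd))))))))) (.ch (nat_lit 8) (.ev (nat_lit 640)
 (nat_lit 32864) (.ev (nat_lit 820) (nat_lit 256) (.ev (nat_lit 829) (nat_lit 2048) .dd))))) (.br (nat_lit 10)
 (.ch (nat_lit 9) (.ev (nat_lit 640) (nat_lit 2112) (.ev (nat_lit 820) (nat_lit 256) (.nd (nat_lit 1552) (.br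
 (nat_lit 5) (.br (nat_lit 1) (.ch (nat_lit 0) (.nd (nat_lit 4592) (.br (nat_lit 9) (.ch (nat_lit 6) (.ev
 (nat_lit 5300) (nat_lit 32768) (.ev (nat_lit 5309) (nat_lit 32) .dd))) (.ch (nat_lit 9) (.ev (nat_lit 4756)
 (nat_lit 32768) (.ev (nat_lit 4765) (nat_lit 32) .dd)))))) (.br (nat_lit 3) (.ch (nat_lit 1) (.ev (nat_lit
 1568) (nat_lit 32) (.ev (nat_lit 1581) (nat_lit 32768) .dd))) (.ch (nat_lit 3) (.fin (nat_lit
 573098998459994727))))) (.br (nat_lit 7) (.ch (nat_lit 5) (.ev (nat_lit 1568) (nat_lit 32) (.ev (nat_lit 1581)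
 (nat_lit 32768) .dd))) (.br (nat_lit 10) (.ch (nat_lit 7) (.ev (nat_lit 1568) (nat_lit 32768) (.ev (nat_lit
 1581) (nat_lit 32) .dd))) (.ch (nat_lit 10) (.ev (nat_lit 6596) (nat_lit 32) (.ev (nat_lit 6605) (nat_lit
 32768) .dd)))))))))) (.br (nat_lit 11) (.ch (nat_lit 10) (.ev (nat_lit 640) (nat_lit 2048) (.nd (nat_lit 1456)
 (.br (nat_lit 7) (.br (nat_lit 5) (.ch (nat_lit 2) (.ev (nat_lit 1780) (nat_lit 256) (.nd (nat_lit 4416) (.br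
 (nat_lit 9) (.ch (nat_lit 2) (.ev (nat_lit 4432) (nat_lit 64) (.ev (nat_lit 4468) (nat_lit 32768) (.ev
 (nat_lit 4477) (nat_lit 32) .dd)))) (.br (nat_lit 10) (.ch (nat_lit 9) (.ev (nat_lit 4432) (nat_lit 32768)
 (.ev (nat_lit 5492) (nat_lit 32) (.ev (nat_lit 5501) (nat_lit 64) .dd)))) (.ch (nat_lit 10) (.ev (nat_lit
 4432) (nat_lit 64) (.ev (nat_lit 4692) (nat_lit 32) (.ev (nat_lit 4701) (nat_lit 32768) .dd))))))))) (.br
 (nat_lit 6) (.ch (nat_lit 5) (.ev (nat_lit 1472) (nat_lit 33056) (.ev (nat_lit 1485) (nat_lit 64) .dd))) (.ch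
 (nat_lit 6) (.ev (nat_lit 1472) (nat_lit 64) (.ev (nat_lit 1780) (nat_lit 256) (.ev (nat_lit 6644) (nat_lit
 32768) (.ev (nat_lit 6653) (nat_lit 32) .dd))))))) (.br (nat_lit 10) (.br (nat_lit 8) (.ch (nat_lit 7) (.nd
 (nat_lit 4304) (.br (nat_lit 6) (.br (nat_lit 4) (.ch (nat_lit 0) (.ev (nat_lit 4320) (nat_lit 320) (.ev
 (nat_lit 4788) (nat_lit 32768) (.ev (nat_lit 4797) (nat_lit 32) .dd)))) (.br (nat_lit 5) (.ch (nat_lit 4) (.ev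
 (nat_lit 4320) (nat_lit 256) (.ev (nat_lit 5540) (nat_lit 64) (.ev (nat_lit 6020) (nat_lit 32) (.ev (nat_lit
 6029) (nat_lit 32768) .dd))))) (.ch (nat_lit 5) (.ev (nat_lit 4320) (nat_lit 64) (.ev (nat_lit 4932) (nat_lit
 256) (.nd (nat_lit 8288) (.br (nat_lit 11) (.ch (nat_lit 6) (.fin (nat_lit 576346952835744304))) (.ch (nat_lit
 11) (.ev (nat_lit 8304) (nat_lit 32768) (.ev (nat_lit 8317) (nat_lit 32) .dd)))))))))) (.br (nat_lit 8) (.ch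
 (nat_lit 6) (.ev (nat_lit 4320) (nat_lit 320) (.ev (nat_lit 4788) (nat_lit 32) (.ev (nat_lit 4797) (nat_lit
 32768) .dd)))) (.br (nat_lit 10) (.ch (nat_lit 8) (.ev (nat_lit 4320) (nat_lit 32800) (.ev (nat_lit 4932)
 (nat_lit 256) (.ev (nat_lit 4941) (nat_lit 64) .dd)))) (.ch (nat_lit 10) (.ev (nat_lit 4320) (nat_lit 64) (.ev
 (nat_lit 5472) (nat_lit 32) (.ev (nat_lit 6356) (nat_lit 256) (.ev (nat_lit 6365) (nat_lit 32768)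
 .dd)))))))))) (.ch (nat_lit 8) (.ev (nat_lit 1780) (nat_lit 256) (.ev (nat_lit 5572) (nat_lit 32768) (.ev
 (nat_lit 6596) (nat_lit 32) (.ev (nat_lit 6605) (nat_lit 64) .dd)))))) (.br (nat_lit 12) (.ch (nat_lit 10)
 (.ev (nat_lit 1472) (nat_lit 33056) (.ev (nat_lit 1485) (nat_lit 64) .dd))) (.ch (nat_lit 12) (.ev (nat_lit
 1472) (nat_lit 64) (.ev (nat_lit 1780) (nat_lit 256) (.ev (nat_lit 5792) (nat_lit 32) (.ev (nat_lit 5805)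
 (nat_lit 32768) .dd))))))))))) (.ch (nat_lit 11) (.ev (nat_lit 640) (nat_lit 64) (.nd (nat_lit 1744) (.br
 (nat_lit 5) (.br (nat_lit 3) (.ch (nat_lit 0) (.ev (nat_lit 1760) (nat_lit 2304) (.ev (nat_lit 6464) (nat_lit
 32768) (.ev (nat_lit 6477) (nat_lit 32) .dd)))) (.br (nat_lit 4) (.ch (nat_lit 3) (.ev (nat_lit 1760) (nat_lit
 32768) (.ev (nat_lit 3504) (nat_lit 2048) (.ev (nat_lit 6644) (nat_lit 256) (.ev (nat_lit 6653) (nat_lit 32)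
 .dd))))) (.ch (nat_lit 4) (.ev (nat_lit 1760) (nat_lit 2048) (.ev (nat_lit 1876) (nat_lit 256) (.ev (nat_lit
 6644) (nat_lit 32) (.ev (nat_lit 6653) (nat_lit 32768) .dd))))))) (.br (nat_lit 8) (.br (nat_lit 6) (.ch
 (nat_lit 5) (.ev (nat_lit 1760) (nat_lit 2336) (.ev (nat_lit 1773) (nat_lit 32768) .dd))) (.ch (nat_lit 6)
 (.ev (nat_lit 2788) (nat_lit 256) (.ev (nat_lit 3300) (nat_lit 2048) (.ev (nat_lit 4996) (nat_lit 32768) (.ev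
 (nat_lit 5005) (nat_lit 32) .dd)))))) (.br (nat_lit 9) (.ch (nat_lit 8) (.ev (nat_lit 1760) (nat_lit 32768)
 (.ev (nat_lit 1876) (nat_lit 256) (.ev (nat_lit 2048) (nat_lit 2048) (.ev (nat_lit 2061) (nat_lit 32) .dd)))))
 (.ch (nat_lit 9) (.ev (nat_lit 1796) (nat_lit 32768) (.ev (nat_lit 1828) (nat_lit 32) (.ev (nat_lit 2180)
 (nat_lit 256) (.ev (nat_lit 2189) (nat_lit 2048) .dd)))))))))))))))))) (.br (nat_lit 12) (.ch (nat_lit 8) (.ev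
 (nat_lit 208) (nat_lit 2048) (.nd (nat_lit 672) (.br (nat_lit 7) (.br (nat_lit 4) (.br (nat_lit 1) (.ch
 (nat_lit 0) (.ev (nat_lit 688) (nat_lit 33026) (.ev (nat_lit 772) (nat_lit 4096) (.nd (nat_lit 1456) (.br
 (nat_lit 7) (.br (nat_lit 1) (.ch (nat_lit 0) (.ev (nat_lit 3044) (nat_lit 64) (.ev (nat_lit 3764) (nat_lit
 32) (.ev (nat_lit 3773) (nat_lit 4) .dd)))) (.br (nat_lit 2) (.ch (nat_lit 1) (.nd (nat_lit 4224) (.br
 (nat_lit 1) (.ch (nat_lit 0) (.ev (nat_lit 5616) (nat_lit 4) (.ev (nat_lit 6692) (nat_lit 32) (.ev (nat_lit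
 6701) (nat_lit 64) .dd)))) (.ch (nat_lit 1) (.ev (nat_lit 6528) (nat_lit 32) (.fin (nat_lit
 576523973923652741))))))) (.ch (nat_lit 2) (.ev (nat_lit 1524) (nat_lit 32) (.ev (nat_lit 3332) (nat_lit 4)
 (.ev (nat_lit 3341) (nat_lit 64) .dd)))))) (.br (nat_lit 9) (.br (nat_lit 8) (.ch (nat_lit 7) (.ev (nat_lit
 1472) (nat_lit 4) (.ev (nat_lit 2868) (nat_lit 64) (.ev (nat_lit 2877) (nat_lit 32) .dd)))) (.ch (nat_lit 8)
 (.ev (nat_lit 1472) (nat_lit 100) .dd))) (.br (nat_lit 10) (.ch (nat_lit 9) (.ev (nat_lit 1472) (nat_lit 64)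
 (.ev (nat_lit 5444) (nat_lit 32) (.ev (nat_lit 5453) (nat_lit 4) .dd)))) (.ch (nat_lit 10) (.ev (nat_lit 1472)
 (nat_lit 96) (.ev (nat_lit 1485) (nat_lit 4) .dd)))))))))) (.ch (nat_lit 1) (.ev (nat_lit 688) (nat_lit 96)
 (.nd (nat_lit 1648) (.br (nat_lit 9) (.br (nat_lit 6) (.br (nat_lit 3) (.ch (nat_lit 1) (.ev (nat_lit 1664)
 (nat_lit 4354) (.ev (nat_lit 6788) (nat_lit 4) (.ev (nat_lit 6797) (nat_lit 32768) .dd)))) (.ch (nat_lit 3)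
 (.ev (nat_lit 1664) (nat_lit 4) (.nd (nat_lit 4304) (.br (nat_lit 6) (.br (nat_lit 4) (.ch (nat_lit 0) (.ev
 (nat_lit 4320) (nat_lit 256) (.nd (nat_lit 8016) (.br (nat_lit 12) (.ch (nat_lit 8) (.ev (nat_lit 8032)
 (nat_lit 32768) (.fin (nat_lit 576461301986312668)))) (.ch (nat_lit 12) (.ev (nat_lit 8032) (nat_lit 4096)
 (.fin (nat_lit 576409624941904659)))))))) (.ch (nat_lit 4) (.ev (nat_lit 4320) (nat_lit 32768) (.ev (nat_lit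
 4644) (nat_lit 256) (.ev (nat_lit 4820) (nat_lit 4096) (.ev (nat_lit 4829) (nat_lit 2) .dd)))))) (.br (nat_lit
 7) (.ch (nat_lit 6) (.ev (nat_lit 4320) (nat_lit 32768) (.ev (nat_lit 4768) (nat_lit 4096) (.ev (nat_lit 6148)
 (nat_lit 2) (.ev (nat_lit 6157) (nat_lit 256) .dd))))) (.br (nat_lit 9) (.ch (nat_lit 7) (.ev (nat_lit 4320)
 (nat_lit 256) (.ev (nat_lit 5492) (nat_lit 4096) (.ev (nat_lit 5844) (nat_lit 32768) (.ev (nat_lit 5853)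
 (nat_lit 2) .dd))))) (.ch (nat_lit 9) (.ev (nat_lit 4820) (nat_lit 2) (.ev (nat_lit 5572) (nat_lit 4096) (.nd
 (nat_lit 9184) (.br (nat_lit 10) (.ch (nat_lit 6) (.fin (nat_lit 578220520787887456))) (.ch (nat_lit 10) (.ev
 (nat_lit 9200) (nat_lit 32768) (.ev (nat_lit 9213) (nat_lit 256) .dd))))))))))))))) (.br (nat_lit 7) (.ch
 (nat_lit 6) (.ev (nat_lit 1664) (nat_lit 4102) (.ev (nat_lit 3044) (nat_lit 256) (.ev (nat_lit 3053) (nat_lit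
 32768) .dd)))) (.ch (nat_lit 7) (.ev (nat_lit 1664) (nat_lit 33028) (.ev (nat_lit 5856) (nat_lit 4098)
 .dd))))) (.br (nat_lit 11) (.br (nat_lit 10) (.ch (nat_lit 9) (.ev (nat_lit 1664) (nat_lit 256) (.nd (nat_lit
 4416) (.br (nat_lit 6) (.br (nat_lit 4) (.ch (nat_lit 3) (.ev (nat_lit 4432) (nat_lit 4100) (.ev (nat_lit
 5444) (nat_lit 32768) (.ev (nat_lit 5453) (nat_lit 2) .dd)))) (.ch (nat_lit 4) (.ev (nat_lit 4432) (nat_lit 2)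
 (.ev (nat_lit 4644) (nat_lit 4) (.ev (nat_lit 4692) (nat_lit 4096) (.ev (nat_lit 4701) (nat_lit 32768)
 .dd)))))) (.br (nat_lit 7) (.ch (nat_lit 6) (.ev (nat_lit 4432) (nat_lit 4096) (.ev (nat_lit 4468) (nat_lit
 32768) (.ev (nat_lit 4996) (nat_lit 4) (.ev (nat_lit 5005) (nat_lit 2) .dd))))) (.br (nat_lit 11) (.ch
 (nat_lit 7) (.ev (nat_lit 4432) (nat_lit 4098) (.ev (nat_lit 4468) (nat_lit 32768) (.ev (nat_lit 4477)
 (nat_lit 4) .dd)))) (.ch (nat_lit 11) (.ev (nat_lit 4432) (nat_lit 32772) (.ev (nat_lit 4724) (nat_lit 4096)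
 (.ev (nat_lit 4733) (nat_lit 2) .dd)))))))))) (.ch (nat_lit 10) (.ev (nat_lit 1664) (nat_lit 4) (.nd (nat_lit
 4304) (.br (nat_lit 6) (.br (nat_lit 4) (.ch (nat_lit 0) (.ev (nat_lit 4320) (nat_lit 4352) (.ev (nat_lit
 5764) (nat_lit 2) (.ev (nat_lit 5773) (nat_lit 32768) .dd)))) (.br (nat_lit 5) (.ch (nat_lit 4) (.ev (nat_lit
 4320) (nat_lit 4352) (.ev (nat_lit 6500) (nat_lit 32768) (.ev (nat_lit 6509) (nat_lit 2) .dd)))) (.ch (nat_lit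
 5) (.ev (nat_lit 4320) (nat_lit 256) (.ev (nat_lit 4468) (nat_lit 4096) (.ev (nat_lit 5668) (nat_lit 2) (.ev
 (nat_lit 5677) (nat_lit 32768) .dd))))))) (.br (nat_lit 8) (.ch (nat_lit 6) (.ev (nat_lit 4320) (nat_lit 256)
 (.ev (nat_lit 5604) (nat_lit 32768) (.ev (nat_lit 5844) (nat_lit 4096) (.ev (nat_lit 5853) (nat_lit 2)
 .dd))))) (.br (nat_lit 10) (.ch (nat_lit 8) (.ev (nat_lit 4320) (nat_lit 32768) (.ev (nat_lit 4468) (nat_lit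
 4096) (.ev (nat_lit 6356) (nat_lit 256) (.ev (nat_lit 6365) (nat_lit 2) .dd))))) (.ch (nat_lit 10) (.ev
 (nat_lit 4320) (nat_lit 256) (.ev (nat_lit 4468) (nat_lit 4096) (.ev (nat_lit 5876) (nat_lit 32768) (.ev
 (nat_lit 5885) (nat_lit 2) .dd)))))))))))) (.br (nat_lit 12) (.ch (nat_lit 11) (.ev (nat_lit 1664) (nat_lit
 36866) (.ev (nat_lit 6900) (nat_lit 256) (.ev (nat_lit 6909) (nat_lit 4) .dd)))) (.ch (nat_lit 12) (.ev
 (nat_lit 1664) (nat_lit 32768) (.ev (nat_lit 1876) (nat_lit 4) (.ev (nat_lit 5444) (nat_lit 4096) (.ev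
 (nat_lit 6356) (nat_lit 256) (.ev (nat_lit 6365) (nat_lit 2) .dd))))))))))))) (.br (nat_lit 5) (.ch (nat_lit
 4) (.ev (nat_lit 688) (nat_lit 37220) (.ev (nat_lit 701) (nat_lit 2) .dd))) (.ch (nat_lit 5) (.ev (nat_lit
 688) (nat_lit 64) (.ev (nat_lit 1220) (nat_lit 256) (.nd (nat_lit 1744) (.br (nat_lit 7) (.br (nat_lit 4) (.br
 (nat_lit 3) (.ch (nat_lit 0) (.ev (nat_lit 1760) (nat_lit 4132) (.ev (nat_lit 6500) (nat_lit 32768) (.ev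
 (nat_lit 6509) (nat_lit 2) .dd)))) (.ch (nat_lit 3) (.ev (nat_lit 1760) (nat_lit 32804) (.ev (nat_lit 1780)
 (nat_lit 2) (.ev (nat_lit 1789) (nat_lit 4096) .dd))))) (.br (nat_lit 6) (.ch (nat_lit 4) (.ev (nat_lit 1760)
 (nat_lit 4098) (.ev (nat_lit 6368) (nat_lit 4) (.fin (nat_lit 576471197641294435))))) (.ch (nat_lit 6) (.ev
 (nat_lit 1760) (nat_lit 32804) (.ev (nat_lit 1780) (nat_lit 2) (.ev (nat_lit 1789) (nat_lit 4096) .dd))))))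
 (.br (nat_lit 10) (.br (nat_lit 9) (.ch (nat_lit 7) (.ev (nat_lit 1760) (nat_lit 2) (.ev (nat_lit 1780)
 (nat_lit 32) (.ev (nat_lit 5044) (nat_lit 4096) (.ev (nat_lit 5300) (nat_lit 4) (.ev (nat_lit 5309) (nat_lit
 32768) .dd)))))) (.ch (nat_lit 9) (.ev (nat_lit 1760) (nat_lit 32770) (.ev (nat_lit 5056) (nat_lit 32) (.ev
 (nat_lit 5140) (nat_lit 4096) (.ev (nat_lit 5149) (nat_lit 4) .dd)))))) (.br (nat_lit 11) (.ch (nat_lit 10)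
 (.ev (nat_lit 1760) (nat_lit 4102) (.ev (nat_lit 2452) (nat_lit 32) (.ev (nat_lit 2461) (nat_lit 32768)
 .dd)))) (.br (nat_lit 12) (.ch (nat_lit 11) (.ev (nat_lit 1760) (nat_lit 4132) (.ev (nat_lit 5668) (nat_lit
 32768) (.ev (nat_lit 5677) (nat_lit 2) .dd)))) (.ch (nat_lit 12) (.ev (nat_lit 1760) (nat_lit 36) (.ev
 (nat_lit 5716) (nat_lit 2) (.fin (nat_lit 575700450059691911))))))))))))))) (.br (nat_lit 9) (.br (nat_lit 8)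
 (.ch (nat_lit 7) (.ev (nat_lit 688) (nat_lit 4) (.ev (nat_lit 1044) (nat_lit 256) (.nd (nat_lit 1408) (.br
 (nat_lit 8) (.br (nat_lit 2) (.br (nat_lit 1) (.ch (nat_lit 0) (.ev (nat_lit 1424) (nat_lit 32) (.ev (nat_lit
 6148) (nat_lit 4096) (.ev (nat_lit 6740) (nat_lit 64) (.ev (nat_lit 7028) (nat_lit 2) (.ev (nat_lit 7037)
 (nat_lit 32768) .dd)))))) (.ch (nat_lit 1) (.ev (nat_lit 1424) (nat_lit 2) (.ev (nat_lit 1444) (nat_lit 4096)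
 (.ev (nat_lit 2948) (nat_lit 32768) (.ev (nat_lit 3956) (nat_lit 64) (.ev (nat_lit 3965) (nat_lit 32)
 .dd))))))) (.br (nat_lit 5) (.ch (nat_lit 2) (.ev (nat_lit 1424) (nat_lit 36896) (.ev (nat_lit 1604) (nat_lit
 64) (.ev (nat_lit 1613) (nat_lit 2) .dd)))) (.ch (nat_lit 5) (.ev (nat_lit 1424) (nat_lit 32768) (.ev (nat_lit
 1444) (nat_lit 4096) (.nd (nat_lit 3984) (.br (nat_lit 5) (.br (nat_lit 1) (.ch (nat_lit 0) (.ev (nat_lit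
 4000) (nat_lit 64) (.ev (nat_lit 4788) (nat_lit 2) (.ev (nat_lit 4797) (nat_lit 32) .dd)))) (.br (nat_lit 2)
 (.ch (nat_lit 1) (.ev (nat_lit 4000) (nat_lit 34) (.ev (nat_lit 4013) (nat_lit 64) .dd))) (.ch (nat_lit 2)
 (.ev (nat_lit 4000) (nat_lit 2) (.ev (nat_lit 6148) (nat_lit 64) (.ev (nat_lit 6157) (nat_lit 32) .dd))))))
 (.br (nat_lit 10) (.br (nat_lit 6) (.ch (nat_lit 5) (.ev (nat_lit 4000) (nat_lit 2) (.ev (nat_lit 4624)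
 (nat_lit 96) .dd))) (.ch (nat_lit 6) (.ev (nat_lit 4000) (nat_lit 64) (.ev (nat_lit 5504) (nat_lit 32) (.ev
 (nat_lit 5517) (nat_lit 2) .dd))))) (.br (nat_lit 12) (.ch (nat_lit 10) (.ev (nat_lit 5584) (nat_lit 32) (.fin
 (nat_lit 576477794777121327)))) (.ch (nat_lit 12) (.ev (nat_lit 4000) (nat_lit 32) (.ev (nat_lit 4388)
 (nat_lit 64) (.ev (nat_lit 4397) (nat_lit 2) .dd))))))))))))) (.br (nat_lit 10) (.br (nat_lit 9) (.ch (nat_lit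
 8) (.ev (nat_lit 1424) (nat_lit 32802) (.nd (nat_lit 4224) (.br (nat_lit 10) (.ch (nat_lit 0) (.ev (nat_lit
 5044) (nat_lit 64) (.ev (nat_lit 5053) (nat_lit 4096) .dd))) (.ch (nat_lit 10) (.ev (nat_lit 5444) (nat_lit
 4096) (.ev (nat_lit 5453) (nat_lit 64) .dd))))))) (.ch (nat_lit 9) (.ev (nat_lit 1424) (nat_lit 36928) (.nd
 (nat_lit 4224) (.br (nat_lit 3) (.ch (nat_lit 1) (.ev (nat_lit 4240) (nat_lit 32) (.ev (nat_lit 4253) (nat_lit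
 2) .dd))) (.br (nat_lit 4) (.ch (nat_lit 3) (.ev (nat_lit 6356) (nat_lit 32) (.ev (nat_lit 6365) (nat_lit 2)
 .dd))) (.ch (nat_lit 4) (.ev (nat_lit 4240) (nat_lit 2) (.ev (nat_lit 4253) (nat_lit 32) .dd))))))))) (.br
 (nat_lit 11) (.ch (nat_lit 10) (.ev (nat_lit 1424) (nat_lit 32864) (.ev (nat_lit 6464) (nat_lit 4098) .dd)))
 (.br (nat_lit 12) (.ch (nat_lit 11) (.ev (nat_lit 1424) (nat_lit 36928) (.ev (nat_lit 6964) (nat_lit 2) (.ev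
 (nat_lit 6973) (nat_lit 32) .dd)))) (.ch (nat_lit 12) (.ev (nat_lit 1424) (nat_lit 2) (.ev (nat_lit 2084)
 (nat_lit 32) (.ev (nat_lit 5044) (nat_lit 4096) (.ev (nat_lit 5716) (nat_lit 32768) (.ev (nat_lit 5725)
 (nat_lit 64) .dd)))))))))))))) (.ch (nat_lit 8) (.ev (nat_lit 688) (nat_lit 32) (.nd (nat_lit 1552) (.br
 (nat_lit 6) (.br (nat_lit 2) (.br (nat_lit 1) (.ch (nat_lit 0) (.ev (nat_lit 1568) (nat_lit 4098) (.ev
 (nat_lit 2420) (nat_lit 256) (.nd (nat_lit 4416) (.br (nat_lit 6) (.br (nat_lit 3) (.ch (nat_lit 2) (.ev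
 (nat_lit 4432) (nat_lit 32832) (.ev (nat_lit 4445) (nat_lit 4) .dd))) (.br (nat_lit 4) (.ch (nat_lit 3) (.ev
 (nat_lit 4432) (nat_lit 4) (.ev (nat_lit 6260) (nat_lit 32768) (.ev (nat_lit 6269) (nat_lit 64) .dd)))) (.ch
 (nat_lit 4) (.ev (nat_lit 4432) (nat_lit 4) (.ev (nat_lit 4944) (nat_lit 64) (.ev (nat_lit 4957) (nat_lit
 32768) .dd)))))) (.br (nat_lit 8) (.ch (nat_lit 6) (.ev (nat_lit 4432) (nat_lit 64) (.ev (nat_lit 6032)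
 (nat_lit 32772) .dd))) (.br (nat_lit 11) (.ch (nat_lit 8) (.ev (nat_lit 4432) (nat_lit 32768) (.ev (nat_lit
 6452) (nat_lit 4) (.ev (nat_lit 6461) (nat_lit 64) .dd)))) (.ch (nat_lit 11) (.ev (nat_lit 4432) (nat_lit 64)
 (.ev (nat_lit 6260) (nat_lit 32768) (.ev (nat_lit 6269) (nat_lit 4) .dd))))))))))) (.ch (nat_lit 1) (.ev
 (nat_lit 1568) (nat_lit 70) (.ev (nat_lit 1684) (nat_lit 256) (.ev (nat_lit 6596) (nat_lit 32768) (.ev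
 (nat_lit 6605) (nat_lit 4096) .dd)))))) (.br (nat_lit 4) (.ch (nat_lit 2) (.ev (nat_lit 1568) (nat_lit 4420)
 (.ev (nat_lit 2900) (nat_lit 2) (.ev (nat_lit 2909) (nat_lit 32768) .dd)))) (.ch (nat_lit 4) (.ev (nat_lit
 1568) (nat_lit 36868) (.ev (nat_lit 1684) (nat_lit 256) (.nd (nat_lit 4592) (.br (nat_lit 5) (.br (nat_lit 3)
 (.ch (nat_lit 2) (.ev (nat_lit 5552) (nat_lit 66) .dd)) (.ch (nat_lit 3) (.ev (nat_lit 6368) (nat_lit 64) (.ev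
 (nat_lit 6381) (nat_lit 2) .dd)))) (.br (nat_lit 8) (.ch (nat_lit 5) (.ev (nat_lit 4608) (nat_lit 64) (.ev
 (nat_lit 4621) (nat_lit 2) .dd))) (.ch (nat_lit 8) (.ev (nat_lit 4996) (nat_lit 2) (.ev (nat_lit 5005)
 (nat_lit 64) .dd))))))))))) (.br (nat_lit 9) (.br (nat_lit 7) (.ch (nat_lit 6) (.ev (nat_lit 1568) (nat_lit
 262) (.ev (nat_lit 6900) (nat_lit 4096) (.nd (nat_lit 7664) (.br (nat_lit 4) (.ch (nat_lit 1) (.ev (nat_lit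
 7684) (nat_lit 64) (.ev (nat_lit 7693) (nat_lit 32768) .dd))) (.ch (nat_lit 4) (.fin (nat_lit
 576459102995563011)))))))) (.ch (nat_lit 7) (.ev (nat_lit 1568) (nat_lit 36868) (.ev (nat_lit 1604) (nat_lit
 66) (.ev (nat_lit 1613) (nat_lit 256) .dd))))) (.br (nat_lit 11) (.ch (nat_lit 9) (.ev (nat_lit 1568) (nat_lit
 262) (.ev (nat_lit 5300) (nat_lit 4096) (.fin (nat_lit 576531670732587636))))) (.br (nat_lit 12) (.ch (nat_lit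
 11) (.ev (nat_lit 1568) (nat_lit 32834) (.ev (nat_lit 2036) (nat_lit 4096) (.fin (nat_lit
 576487690322002528))))) (.ch (nat_lit 12) (.ev (nat_lit 1568) (nat_lit 4100) (.ev (nat_lit 1684) (nat_lit 256)
 (.nd (nat_lit 4416) (.br (nat_lit 7) (.br (nat_lit 4) (.ch (nat_lit 2) (.ev (nat_lit 4432) (nat_lit 2) (.ev
 (nat_lit 5876) (nat_lit 32768) (.ev (nat_lit 5885) (nat_lit 64) .dd)))) (.ch (nat_lit 4) (.ev (nat_lit 4432)
 (nat_lit 66) (.ev (nat_lit 4445) (nat_lit 32768) .dd)))) (.br (nat_lit 11) (.ch (nat_lit 7) (.ev (nat_lit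
 5876) (nat_lit 32770) (.ev (nat_lit 5885) (nat_lit 64) .dd))) (.br (nat_lit 12) (.ch (nat_lit 11) (.ev
 (nat_lit 4432) (nat_lit 32770) (.ev (nat_lit 4445) (nat_lit 64) .dd))) (.ch (nat_lit 12) (.ev (nat_lit 4432)
 (nat_lit 32832) (.ev (nat_lit 4445) (nat_lit 2) .dd)))))))))))))))))) (.br (nat_lit 10) (.ch (nat_lit 9) (.ev
 (nat_lit 688) (nat_lit 4354) (.nd (nat_lit 1552) (.br (nat_lit 7) (.br (nat_lit 4) (.br (nat_lit 1) (.ch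
 (nat_lit 0) (.ev (nat_lit 1568) (nat_lit 32832) (.ev (nat_lit 5140) (nat_lit 32) (.ev (nat_lit 5149) (nat_lit
 4) .dd)))) (.ch (nat_lit 1) (.ev (nat_lit 1568) (nat_lit 96) (.ev (nat_lit 5140) (nat_lit 4) (.ev (nat_lit
 5149) (nat_lit 32768) .dd))))) (.br (nat_lit 6) (.ch (nat_lit 4) (.ev (nat_lit 1780) (nat_lit 4) (.ev (nat_lit
 2752) (nat_lit 64) (.ev (nat_lit 3908) (nat_lit 32768) (.ev (nat_lit 3917) (nat_lit 32) .dd))))) (.ch (nat_lit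
 6) (.ev (nat_lit 1568) (nat_lit 68) (.ev (nat_lit 1684) (nat_lit 32768) (.ev (nat_lit 1693) (nat_lit 32)
 .dd)))))) (.br (nat_lit 10) (.br (nat_lit 8) (.ch (nat_lit 7) (.ev (nat_lit 1568) (nat_lit 36) (.ev (nat_lit
 2452) (nat_lit 64) (.ev (nat_lit 2461) (nat_lit 32768) .dd)))) (.ch (nat_lit 8) (.ev (nat_lit 1568) (nat_lit
 64) (.ev (nat_lit 3712) (nat_lit 32) (.fin (nat_lit 576450306922463817)))))) (.br (nat_lit 11) (.ch (nat_lit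
 10) (.ev (nat_lit 1568) (nat_lit 32768) (.ev (nat_lit 1780) (nat_lit 4) (.ev (nat_lit 3284) (nat_lit 64) (.ev
 (nat_lit 3293) (nat_lit 32) .dd))))) (.ch (nat_lit 11) (.ev (nat_lit 1568) (nat_lit 32832) (.ev (nat_lit 1812)
 (nat_lit 4) (.ev (nat_lit 1821) (nat_lit 32) .dd)))))))))) (.br (nat_lit 12) (.ch (nat_lit 10) (.ev (nat_lit
 688) (nat_lit 4) (.ev (nat_lit 1044) (nat_lit 256) (.nd (nat_lit 1648) (.br (nat_lit 6) (.br (nat_lit 4) (.br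
 (nat_lit 2) (.ch (nat_lit 0) (.ev (nat_lit 1664) (nat_lit 4128) (.ev (nat_lit 6384) (nat_lit 32768) (.ev
 (nat_lit 6644) (nat_lit 64) (.ev (nat_lit 6653) (nat_lit 2) .dd))))) (.ch (nat_lit 2) (.ev (nat_lit 1664)
 (nat_lit 36864) (.ev (nat_lit 3300) (nat_lit 32) (.nd (nat_lit 4592) (.br (nat_lit 9) (.br (nat_lit 2) (.ch
 (nat_lit 1) (.ev (nat_lit 4608) (nat_lit 2) (.ev (nat_lit 4621) (nat_lit 64) .dd))) (.br (nat_lit 7) (.ch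
 (nat_lit 2) (.ev (nat_lit 4608) (nat_lit 2) (.ev (nat_lit 4621) (nat_lit 64) .dd))) (.ch (nat_lit 7) (.ev
 (nat_lit 4608) (nat_lit 64) (.ev (nat_lit 4621) (nat_lit 2) .dd))))) (.br (nat_lit 10) (.ch (nat_lit 9) (.ev
 (nat_lit 4608) (nat_lit 2) (.ev (nat_lit 4621) (nat_lit 64) .dd))) (.br (nat_lit 12) (.ch (nat_lit 10) (.ev
 (nat_lit 4644) (nat_lit 2) (.ev (nat_lit 4653) (nat_lit 64) .dd))) (.ch (nat_lit 12) (.ev (nat_lit 5044)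
 (nat_lit 2) (.ev (nat_lit 5053) (nat_lit 64) .dd))))))))))) (.br (nat_lit 5) (.ch (nat_lit 4) (.ev (nat_lit
 1664) (nat_lit 34) (.nd (nat_lit 4224) (.br (nat_lit 9) (.br (nat_lit 3) (.ch (nat_lit 2) (.ev (nat_lit 4240)
 (nat_lit 36864) (.ev (nat_lit 4253) (nat_lit 64) .dd))) (.br (nat_lit 7) (.ch (nat_lit 3) (.ev (nat_lit 4240)
 (nat_lit 4096) (.ev (nat_lit 5044) (nat_lit 64) (.ev (nat_lit 5053) (nat_lit 32768) .dd)))) (.ch (nat_lit 7)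
 (.ev (nat_lit 5604) (nat_lit 4096) (.ev (nat_lit 7060) (nat_lit 64) (.ev (nat_lit 7069) (nat_lit 32768)
 .dd)))))) (.br (nat_lit 11) (.br (nat_lit 10) (.ch (nat_lit 9) (.ev (nat_lit 4240) (nat_lit 64) (.ev (nat_lit
 4996) (nat_lit 4096) (.ev (nat_lit 5005) (nat_lit 32768) .dd)))) (.ch (nat_lit 10) (.ev (nat_lit 4240)
 (nat_lit 4096) (.ev (nat_lit 4996) (nat_lit 64) (.ev (nat_lit 5005) (nat_lit 32768) .dd))))) (.br (nat_lit 12)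
 (.ch (nat_lit 11) (.ev (nat_lit 4240) (nat_lit 32832) (.ev (nat_lit 4253) (nat_lit 4096) .dd))) (.ch (nat_lit
 12) (.ev (nat_lit 4240) (nat_lit 64) (.ev (nat_lit 6452) (nat_lit 32768) (.ev (nat_lit 6461) (nat_lit 4096)
 .dd)))))))))) (.ch (nat_lit 5) (.ev (nat_lit 1664) (nat_lit 32) (.ev (nat_lit 5140) (nat_lit 4096) (.ev
 (nat_lit 6788) (nat_lit 64) (.ev (nat_lit 7140) (nat_lit 32768) (.ev (nat_lit 7149) (nat_lit 2) .dd))))))))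
 (.br (nat_lit 10) (.br (nat_lit 9) (.ch (nat_lit 6) (.ev (nat_lit 1664) (nat_lit 66) (.ev (nat_lit 1924)
 (nat_lit 4096) (.ev (nat_lit 2068) (nat_lit 32) (.ev (nat_lit 2077) (nat_lit 32768) .dd))))) (.ch (nat_lit 9)
 (.ev (nat_lit 1664) (nat_lit 66) (.ev (nat_lit 1684) (nat_lit 4096) (.ev (nat_lit 2048) (nat_lit 32768) (.ev
 (nat_lit 2061) (nat_lit 32) .dd)))))) (.br (nat_lit 12) (.ch (nat_lit 10) (.ev (nat_lit 1664) (nat_lit 4194)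
 (.ev (nat_lit 1677) (nat_lit 32768) .dd))) (.ch (nat_lit 12) (.ev (nat_lit 1664) (nat_lit 32768) (.ev (nat_lit
 1684) (nat_lit 4096) (.ev (nat_lit 2084) (nat_lit 32) (.nd (nat_lit 4592) (.br (nat_lit 5) (.br (nat_lit 2)
 (.ch (nat_lit 0) (.ev (nat_lit 4608) (nat_lit 64) (.ev (nat_lit 4621) (nat_lit 2) .dd))) (.br (nat_lit 3) (.ch
 (nat_lit 2) (.ev (nat_lit 4608) (nat_lit 64) (.ev (nat_lit 4621) (nat_lit 2) .dd))) (.ch (nat_lit 3) (.ev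
 (nat_lit 4608) (nat_lit 2) (.ev (nat_lit 4621) (nat_lit 64) .dd))))) (.br (nat_lit 8) (.ch (nat_lit 5) (.ev
 (nat_lit 4608) (nat_lit 64) (.ev (nat_lit 4621) (nat_lit 2) .dd))) (.br (nat_lit 9) (.ch (nat_lit 8) (.ev
 (nat_lit 4608) (nat_lit 2) (.ev (nat_lit 4621) (nat_lit 64) .dd))) (.ch (nat_lit 9) (.ev (nat_lit 4608)
 (nat_lit 2) (.ev (nat_lit 4621) (nat_lit 64) .dd)))))))))))))))))) (.ch (nat_lit 12) (.ev (nat_lit 688)
 (nat_lit 36902) (.ev (nat_lit 1044) (nat_lit 256) (.ev (nat_lit 1053) (nat_lit 64) .dd))))))))))) (.ch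
 (nat_lit 12) (.ev (nat_lit 208) (nat_lit 2304) (.nd (nat_lit 672) (.br (nat_lit 7) (.br (nat_lit 4) (.br
 (nat_lit 1) (.ch (nat_lit 0) (.ev (nat_lit 688) (nat_lit 38) (.nd (nat_lit 2128) (.br (nat_lit 2) (.br
 (nat_lit 1) (.ch (nat_lit 0) (.ev (nat_lit 2372) (nat_lit 4096) (.ev (nat_lit 2740) (nat_lit 64) (.ev (nat_lit
 2749) (nat_lit 32768) .dd)))) (.ch (nat_lit 1) (.ev (nat_lit 2900) (nat_lit 64) (.ev (nat_lit 3604) (nat_lit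
 4096) (.ev (nat_lit 3613) (nat_lit 32768) .dd))))) (.br (nat_lit 4) (.ch (nat_lit 2) (.ev (nat_lit 2676)
 (nat_lit 64) (.ev (nat_lit 3604) (nat_lit 32768) (.ev (nat_lit 3613) (nat_lit 4096) .dd)))) (.br (nat_lit 9)
 (.ch (nat_lit 4) (.ev (nat_lit 2144) (nat_lit 64) (.ev (nat_lit 5540) (nat_lit 32768) (.ev (nat_lit 5549)
 (nat_lit 4096) .dd)))) (.ch (nat_lit 9) (.ev (nat_lit 2144) (nat_lit 32768) (.ev (nat_lit 2676) (nat_lit 64)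
 (.ev (nat_lit 2685) (nat_lit 4096) .dd)))))))))) (.ch (nat_lit 1) (.ev (nat_lit 688) (nat_lit 4192) (.nd
 (nat_lit 2128) (.br (nat_lit 5) (.br (nat_lit 2) (.ch (nat_lit 0) (.ev (nat_lit 2372) (nat_lit 2) (.ev
 (nat_lit 3604) (nat_lit 32768) (.ev (nat_lit 3613) (nat_lit 4) .dd)))) (.br (nat_lit 3) (.ch (nat_lit 2) (.ev
 (nat_lit 2144) (nat_lit 4) (.ev (nat_lit 2180) (nat_lit 32768) (.ev (nat_lit 2189) (nat_lit 2) .dd)))) (.ch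
 (nat_lit 3) (.ev (nat_lit 6596) (nat_lit 4) (.ev (nat_lit 6740) (nat_lit 32768) (.ev (nat_lit 6749) (nat_lit
 2) .dd)))))) (.br (nat_lit 9) (.ch (nat_lit 5) (.ev (nat_lit 2144) (nat_lit 6) (.ev (nat_lit 2157) (nat_lit
 32768) .dd))) (.br (nat_lit 10) (.ch (nat_lit 9) (.ev (nat_lit 2144) (nat_lit 6) (.ev (nat_lit 2157) (nat_lit
 32768) .dd))) (.ch (nat_lit 10) (.ev (nat_lit 2180) (nat_lit 32768) (.ev (nat_lit 2372) (nat_lit 2) (.ev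
 (nat_lit 2381) (nat_lit 4) .dd))))))))))) (.br (nat_lit 5) (.ch (nat_lit 4) (.ev (nat_lit 688) (nat_lit 32768)
 (.nd (nat_lit 1840) (.br (nat_lit 7) (.br (nat_lit 3) (.ch (nat_lit 2) (.ev (nat_lit 1856) (nat_lit 4164) (.ev
 (nat_lit 2036) (nat_lit 32) (.ev (nat_lit 2045) (nat_lit 2) .dd)))) (.br (nat_lit 6) (.ch (nat_lit 3) (.ev
 (nat_lit 1856) (nat_lit 2) (.ev (nat_lit 2116) (nat_lit 4) (.ev (nat_lit 2164) (nat_lit 4096) (.ev (nat_lit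
 5572) (nat_lit 32) (.ev (nat_lit 5581) (nat_lit 64) .dd)))))) (.ch (nat_lit 6) (.ev (nat_lit 1856) (nat_lit
 100) (.ev (nat_lit 2048) (nat_lit 4098) .dd))))) (.br (nat_lit 10) (.br (nat_lit 9) (.ch (nat_lit 7) (.ev
 (nat_lit 1856) (nat_lit 2) (.ev (nat_lit 3056) (nat_lit 64) (.ev (nat_lit 6452) (nat_lit 4096) (.fin (nat_lit
 576429416244527637)))))) (.ch (nat_lit 9) (.ev (nat_lit 1856) (nat_lit 4) (.ev (nat_lit 2164) (nat_lit 4096)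
 (.ev (nat_lit 2820) (nat_lit 2) (.ev (nat_lit 6464) (nat_lit 64) (.ev (nat_lit 6477) (nat_lit 32) .dd)))))))
 (.br (nat_lit 12) (.ch (nat_lit 10) (.ev (nat_lit 1876) (nat_lit 32) (.ev (nat_lit 2164) (nat_lit 4098) (.ev
 (nat_lit 6356) (nat_lit 4) (.ev (nat_lit 6365) (nat_lit 64) .dd))))) (.ch (nat_lit 12) (.ev (nat_lit 1856)
 (nat_lit 32) (.ev (nat_lit 2164) (nat_lit 4098) (.ev (nat_lit 2196) (nat_lit 64) (.ev (nat_lit 2205) (nat_lit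
 4) .dd))))))))))) (.ch (nat_lit 5) (.ev (nat_lit 688) (nat_lit 32838) (.nd (nat_lit 2624) (.br (nat_lit 5)
 (.ch (nat_lit 1) (.ev (nat_lit 2676) (nat_lit 4096) (.ev (nat_lit 2685) (nat_lit 32) .dd))) (.br (nat_lit 10)
 (.ch (nat_lit 5) (.ev (nat_lit 2912) (nat_lit 4128) .dd)) (.ch (nat_lit 10) (.ev (nat_lit 2740) (nat_lit 4096)
 (.ev (nat_lit 2749) (nat_lit 32) .dd)))))))))) (.br (nat_lit 9) (.br (nat_lit 8) (.ch (nat_lit 7) (.ev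
 (nat_lit 688) (nat_lit 4) (.ev (nat_lit 1236) (nat_lit 4096) (.nd (nat_lit 1648) (.br (nat_lit 8) (.br
 (nat_lit 5) (.ch (nat_lit 2) (.ev (nat_lit 1664) (nat_lit 32) (.ev (nat_lit 2196) (nat_lit 32768) (.ev
 (nat_lit 6752) (nat_lit 2) (.ev (nat_lit 6765) (nat_lit 64) .dd))))) (.br (nat_lit 6) (.ch (nat_lit 5) (.ev
 (nat_lit 1664) (nat_lit 64) (.ev (nat_lit 2900) (nat_lit 32768) (.ev (nat_lit 4180) (nat_lit 32) (.ev (nat_lit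
 4189) (nat_lit 2) .dd))))) (.ch (nat_lit 6) (.ev (nat_lit 1664) (nat_lit 32768) (.ev (nat_lit 1684) (nat_lit
 32) (.ev (nat_lit 6192) (nat_lit 66) .dd)))))) (.br (nat_lit 10) (.br (nat_lit 9) (.ch (nat_lit 8) (.ev
 (nat_lit 1664) (nat_lit 2) (.ev (nat_lit 6032) (nat_lit 32768) (.fin (nat_lit 576112756994294680))))) (.ch
 (nat_lit 9) (.ev (nat_lit 1664) (nat_lit 34) (.ev (nat_lit 2196) (nat_lit 32768) (.ev (nat_lit 2205) (nat_lit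
 64) .dd))))) (.br (nat_lit 12) (.ch (nat_lit 10) (.ev (nat_lit 1664) (nat_lit 64) (.ev (nat_lit 4996) (nat_lit
 2) (.ev (nat_lit 6260) (nat_lit 32768) (.ev (nat_lit 6269) (nat_lit 32) .dd))))) (.ch (nat_lit 12) (.ev
 (nat_lit 1664) (nat_lit 32768) (.ev (nat_lit 5300) (nat_lit 2) (.ev (nat_lit 6452) (nat_lit 64) (.ev (nat_lit
 6461) (nat_lit 32) .dd)))))))))))) (.ch (nat_lit 8) (.ev (nat_lit 688) (nat_lit 4128) (.ev (nat_lit 836)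
 (nat_lit 64) (.nd (nat_lit 2336) (.br (nat_lit 5) (.br (nat_lit 3) (.br (nat_lit 2) (.ch (nat_lit 1) (.ev
 (nat_lit 2352) (nat_lit 4) (.ev (nat_lit 2372) (nat_lit 2) (.ev (nat_lit 2381) (nat_lit 32768) .dd)))) (.ch
 (nat_lit 2) (.ev (nat_lit 2352) (nat_lit 32772) (.ev (nat_lit 2365) (nat_lit 2) .dd)))) (.br (nat_lit 4) (.ch
 (nat_lit 3) (.ev (nat_lit 2352) (nat_lit 6) (.ev (nat_lit 2365) (nat_lit 32768) .dd))) (.ch (nat_lit 4) (.ev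
 (nat_lit 2352) (nat_lit 32770) (.ev (nat_lit 2365) (nat_lit 4) .dd))))) (.br (nat_lit 8) (.br (nat_lit 7) (.ch
 (nat_lit 5) (.ev (nat_lit 2740) (nat_lit 2) (.ev (nat_lit 3140) (nat_lit 4) (.ev (nat_lit 3149) (nat_lit
 32768) .dd)))) (.ch (nat_lit 7) (.ev (nat_lit 2372) (nat_lit 2) (.ev (nat_lit 2516) (nat_lit 4) (.ev (nat_lit
 2525) (nat_lit 32768) .dd))))) (.br (nat_lit 9) (.ch (nat_lit 8) (.ev (nat_lit 2352) (nat_lit 4) (.ev (nat_lit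
 2372) (nat_lit 32768) (.ev (nat_lit 2381) (nat_lit 2) .dd)))) (.br (nat_lit 10) (.ch (nat_lit 9) (.ev (nat_lit
 2352) (nat_lit 32770) (.ev (nat_lit 2365) (nat_lit 4) .dd))) (.ch (nat_lit 10) (.ev (nat_lit 2372) (nat_lit 4)
 (.ev (nat_lit 2388) (nat_lit 32768) (.ev (nat_lit 2397) (nat_lit 2) .dd))))))))))))) (.br (nat_lit 10) (.ch
 (nat_lit 9) (.ev (nat_lit 688) (nat_lit 64) (.ev (nat_lit 1220) (nat_lit 4096) (.nd (nat_lit 1968) (.br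
 (nat_lit 8) (.br (nat_lit 6) (.br (nat_lit 3) (.ch (nat_lit 0) (.ev (nat_lit 1984) (nat_lit 4) (.ev (nat_lit
 2004) (nat_lit 2) (.ev (nat_lit 2196) (nat_lit 32768) (.ev (nat_lit 2205) (nat_lit 32) .dd))))) (.ch (nat_lit
 3) (.ev (nat_lit 1984) (nat_lit 2) (.ev (nat_lit 2164) (nat_lit 4) (.ev (nat_lit 6500) (nat_lit 32) (.ev
 (nat_lit 6509) (nat_lit 32768) .dd)))))) (.br (nat_lit 7) (.ch (nat_lit 6) (.ev (nat_lit 1984) (nat_lit 2)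
 (.ev (nat_lit 2004) (nat_lit 32) (.ev (nat_lit 2068) (nat_lit 32768) (.ev (nat_lit 2077) (nat_lit 4) .dd)))))
 (.ch (nat_lit 7) (.ev (nat_lit 1984) (nat_lit 32772) (.ev (nat_lit 2004) (nat_lit 32) (.ev (nat_lit 2013)
 (nat_lit 2) .dd)))))) (.br (nat_lit 10) (.br (nat_lit 9) (.ch (nat_lit 8) (.ev (nat_lit 1984) (nat_lit 32770)
 (.ev (nat_lit 2164) (nat_lit 4) (.ev (nat_lit 2173) (nat_lit 32) .dd)))) (.ch (nat_lit 9) (.ev (nat_lit 1984)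
 (nat_lit 32774) (.ev (nat_lit 1997) (nat_lit 32) .dd)))) (.br (nat_lit 11) (.ch (nat_lit 10) (.ev (nat_lit
 1984) (nat_lit 32) (.ev (nat_lit 2004) (nat_lit 2) (.ev (nat_lit 5604) (nat_lit 32768) (.ev (nat_lit 5613)
 (nat_lit 4) .dd))))) (.br (nat_lit 12) (.ch (nat_lit 11) (.ev (nat_lit 1984) (nat_lit 32) (.ev (nat_lit 2868)
 (nat_lit 2) (.ev (nat_lit 4996) (nat_lit 4) (.ev (nat_lit 5005) (nat_lit 32768) .dd))))) (.ch (nat_lit 12)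
 (.ev (nat_lit 1984) (nat_lit 32) (.ev (nat_lit 2164) (nat_lit 4) (.ev (nat_lit 5924) (nat_lit 32768) (.ev
 (nat_lit 5933) (nat_lit 2) .dd))))))))))))) (.br (nat_lit 11) (.ch (nat_lit 10) (.ev (nat_lit 688) (nat_lit
 32768) (.ev (nat_lit 708) (nat_lit 2) (.ev (nat_lit 1220) (nat_lit 4096) (.nd (nat_lit 2336) (.br (nat_lit 6)
 (.br (nat_lit 4) (.ch (nat_lit 0) (.ev (nat_lit 2352) (nat_lit 4) (.ev (nat_lit 6356) (nat_lit 32) (.ev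
 (nat_lit 6365) (nat_lit 64) .dd)))) (.br (nat_lit 5) (.ch (nat_lit 4) (.ev (nat_lit 2352) (nat_lit 32) (.ev
 (nat_lit 2788) (nat_lit 4) (.ev (nat_lit 2797) (nat_lit 64) .dd)))) (.ch (nat_lit 5) (.ev (nat_lit 2352)
 (nat_lit 32) (.ev (nat_lit 2820) (nat_lit 4) (.ev (nat_lit 2829) (nat_lit 64) .dd)))))) (.br (nat_lit 7) (.ch
 (nat_lit 6) (.ev (nat_lit 2352) (nat_lit 4) (.ev (nat_lit 2372) (nat_lit 32) (.ev (nat_lit 2381) (nat_lit 64)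
 .dd)))) (.br (nat_lit 9) (.ch (nat_lit 7) (.ev (nat_lit 2352) (nat_lit 64) (.ev (nat_lit 5604) (nat_lit 32)
 (.ev (nat_lit 5613) (nat_lit 4) .dd)))) (.ch (nat_lit 9) (.ev (nat_lit 2352) (nat_lit 64) (.ev (nat_lit 2372)
 (nat_lit 32) (.ev (nat_lit 2381) (nat_lit 4) .dd)))))))))))) (.ch (nat_lit 11) (.ev (nat_lit 688) (nat_lit
 4166) (.nd (nat_lit 2336) (.br (nat_lit 4) (.br (nat_lit 2) (.ch (nat_lit 0) (.ev (nat_lit 2352) (nat_lit 32)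
 (.ev (nat_lit 2365) (nat_lit 32768) .dd))) (.br (nat_lit 3) (.ch (nat_lit 2) (.ev (nat_lit 2740) (nat_lit
 32768) (.ev (nat_lit 2749) (nat_lit 32) .dd))) (.ch (nat_lit 3) (.ev (nat_lit 2352) (nat_lit 32768) (.ev
 (nat_lit 2365) (nat_lit 32) .dd))))) (.br (nat_lit 7) (.br (nat_lit 6) (.ch (nat_lit 4) (.ev (nat_lit 2372)
 (nat_lit 32) (.ev (nat_lit 2381) (nat_lit 32768) .dd))) (.ch (nat_lit 6) (.ev (nat_lit 2352) (nat_lit 32) (.ev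
 (nat_lit 2365) (nat_lit 32768) .dd)))) (.br (nat_lit 10) (.ch (nat_lit 7) (.ev (nat_lit 2740) (nat_lit 32768)
 (.ev (nat_lit 2749) (nat_lit 32) .dd))) (.ch (nat_lit 10) (.ev (nat_lit 2352) (nat_lit 32768) (.ev (nat_lit
 2365) (nat_lit 32) .dd))))))))))))))))))))))) (.ch (nat_lit 1) (.ev (nat_lit 48) (nat_lit 66816) (.nd (nat_lit
 432) (.br (nat_lit 5) (.br (nat_lit 3) (.br (nat_lit 1) (.ch (nat_lit 0) (.ev (nat_lit 448) (nat_lit 68) (.ev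
 (nat_lit 564) (nat_lit 2) (.nd (nat_lit 1088) (.br (nat_lit 5) (.br (nat_lit 2) (.br (nat_lit 1) (.ch (nat_lit
 0) (.ev (nat_lit 1104) (nat_lit 4096) (.nd (nat_lit 2624) (.br (nat_lit 4) (.br (nat_lit 3) (.ch (nat_lit 2)
 (.ev (nat_lit 5728) (nat_lit 32768) (.ev (nat_lit 6740) (nat_lit 2048) (.ev (nat_lit 6749) (nat_lit 32)
 .dd)))) (.ch (nat_lit 3) (.ev (nat_lit 2640) (nat_lit 32) (.ev (nat_lit 2676) (nat_lit 32768) (.ev (nat_lit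
 2685) (nat_lit 2048) .dd))))) (.br (nat_lit 6) (.ch (nat_lit 4) (.ev (nat_lit 2640) (nat_lit 32) (.ev (nat_lit
 2740) (nat_lit 2048) (.ev (nat_lit 2749) (nat_lit 32768) .dd)))) (.br (nat_lit 9) (.ch (nat_lit 6) (.ev
 (nat_lit 2640) (nat_lit 32768) (.ev (nat_lit 2688) (nat_lit 2080) .dd))) (.ch (nat_lit 9) (.ev (nat_lit 2676)
 (nat_lit 2048) (.fin (nat_lit 576770265073533157)))))))))) (.ch (nat_lit 1) (.ev (nat_lit 1104) (nat_lit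
 34848) (.ev (nat_lit 1117) (nat_lit 4096) .dd)))) (.br (nat_lit 3) (.ch (nat_lit 2) (.ev (nat_lit 1104)
 (nat_lit 32800) (.nd (nat_lit 2624) (.br (nat_lit 6) (.br (nat_lit 4) (.ch (nat_lit 0) (.ev (nat_lit 2900)
 (nat_lit 4096) (.ev (nat_lit 2909) (nat_lit 2048) .dd))) (.br (nat_lit 5) (.ch (nat_lit 4) (.ev (nat_lit 2640)
 (nat_lit 4096) (.ev (nat_lit 2653) (nat_lit 2048) .dd))) (.ch (nat_lit 5) (.ev (nat_lit 6788) (nat_lit 2048)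
 (.ev (nat_lit 6797) (nat_lit 4096) .dd))))) (.br (nat_lit 11) (.br (nat_lit 9) (.ch (nat_lit 6) (.ev (nat_lit
 2640) (nat_lit 4096) (.ev (nat_lit 2653) (nat_lit 2048) .dd))) (.ch (nat_lit 9) (.ev (nat_lit 2740) (nat_lit
 4096) (.ev (nat_lit 2749) (nat_lit 2048) .dd)))) (.br (nat_lit 12) (.ch (nat_lit 11) (.ev (nat_lit 2640)
 (nat_lit 2048) (.ev (nat_lit 2653) (nat_lit 4096) .dd))) (.ch (nat_lit 12) (.ev (nat_lit 2640) (nat_lit 2048)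
 (.ev (nat_lit 2653) (nat_lit 4096) .dd))))))))) (.ch (nat_lit 3) (.nd (nat_lit 2336) (.br (nat_lit 6) (.br
 (nat_lit 3) (.ch (nat_lit 1) (.ev (nat_lit 2352) (nat_lit 34816) (.ev (nat_lit 2740) (nat_lit 32) (.ev
 (nat_lit 2749) (nat_lit 4096) .dd)))) (.br (nat_lit 4) (.ch (nat_lit 3) (.ev (nat_lit 2372) (nat_lit 4096)
 (.ev (nat_lit 2788) (nat_lit 32768) (.ev (nat_lit 3876) (nat_lit 32) (.ev (nat_lit 3885) (nat_lit 2048)
 .dd))))) (.ch (nat_lit 4) (.ev (nat_lit 2352) (nat_lit 2048) (.ev (nat_lit 2372) (nat_lit 32768) (.ev (nat_lit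
 3700) (nat_lit 32) (.ev (nat_lit 3709) (nat_lit 4096) .dd))))))) (.br (nat_lit 10) (.br (nat_lit 8) (.ch
 (nat_lit 6) (.ev (nat_lit 2740) (nat_lit 32) (.ev (nat_lit 3876) (nat_lit 2048) (.fin (nat_lit
 576436013335265846))))) (.ch (nat_lit 8) (.ev (nat_lit 2352) (nat_lit 4128) (.ev (nat_lit 3120) (nat_lit
 34816) .dd)))) (.br (nat_lit 11) (.ch (nat_lit 10) (.ev (nat_lit 2352) (nat_lit 32768) (.ev (nat_lit 2900)
 (nat_lit 2048) (.ev (nat_lit 4052) (nat_lit 4096) (.ev (nat_lit 4061) (nat_lit 32) .dd))))) (.ch (nat_lit 11)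
 (.ev (nat_lit 2352) (nat_lit 32) (.ev (nat_lit 2372) (nat_lit 6144) (.ev (nat_lit 2381) (nat_lit 32768)
 .dd))))))))))) (.br (nat_lit 7) (.br (nat_lit 6) (.ch (nat_lit 5) (.ev (nat_lit 1140) (nat_lit 32) (.ev
 (nat_lit 1332) (nat_lit 4096) (.nd (nat_lit 1968) (.br (nat_lit 8) (.br (nat_lit 4) (.br (nat_lit 3) (.ch
 (nat_lit 1) (.ev (nat_lit 1984) (nat_lit 32768) (.ev (nat_lit 1997) (nat_lit 2048) .dd))) (.ch (nat_lit 3)
 (.ev (nat_lit 6464) (nat_lit 2048) (.ev (nat_lit 6477) (nat_lit 32768) .dd)))) (.br (nat_lit 6) (.ch (nat_lit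
 4) (.ev (nat_lit 6644) (nat_lit 2048) (.ev (nat_lit 6653) (nat_lit 32768) .dd))) (.ch (nat_lit 6) (.ev
 (nat_lit 1984) (nat_lit 34816) .dd)))) (.br (nat_lit 11) (.br (nat_lit 10) (.ch (nat_lit 8) (.ev (nat_lit
 2004) (nat_lit 2048) (.ev (nat_lit 2013) (nat_lit 32768) .dd))) (.ch (nat_lit 10) (.ev (nat_lit 1984) (nat_lit
 2048) (.ev (nat_lit 1997) (nat_lit 32768) .dd)))) (.br (nat_lit 12) (.ch (nat_lit 11) (.ev (nat_lit 7108)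
 (nat_lit 2048) (.ev (nat_lit 7117) (nat_lit 32768) .dd))) (.ch (nat_lit 12) (.ev (nat_lit 1984) (nat_lit
 32768) (.ev (nat_lit 1997) (nat_lit 2048) .dd)))))))))) (.ch (nat_lit 6) (.ev (nat_lit 1104) (nat_lit 6144)
 (.nd (nat_lit 3408) (.br (nat_lit 8) (.br (nat_lit 3) (.ch (nat_lit 0) (.ev (nat_lit 3424) (nat_lit 32) (.ev
 (nat_lit 3437) (nat_lit 32768) .dd))) (.br (nat_lit 7) (.ch (nat_lit 3) (.ev (nat_lit 3424) (nat_lit 32) (.ev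
 (nat_lit 3437) (nat_lit 32768) .dd))) (.ch (nat_lit 7) (.ev (nat_lit 5444) (nat_lit 32) (.ev (nat_lit 5453)
 (nat_lit 32768) .dd))))) (.br (nat_lit 9) (.ch (nat_lit 8) (.ev (nat_lit 3424) (nat_lit 32) (.ev (nat_lit
 3437) (nat_lit 32768) .dd))) (.br (nat_lit 11) (.ch (nat_lit 9) (.ev (nat_lit 3476) (nat_lit 32) (.ev (nat_lit
 3485) (nat_lit 32768) .dd))) (.ch (nat_lit 11) (.ev (nat_lit 3476) (nat_lit 32) (.ev (nat_lit 3485) (nat_lit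
 32768) .dd)))))))))) (.br (nat_lit 8) (.ch (nat_lit 7) (.ev (nat_lit 1104) (nat_lit 32768) (.nd (nat_lit 2336)
 (.br (nat_lit 9) (.br (nat_lit 3) (.ch (nat_lit 2) (.ev (nat_lit 2372) (nat_lit 6144) (.ev (nat_lit 2381)
 (nat_lit 32) .dd))) (.br (nat_lit 6) (.ch (nat_lit 3) (.ev (nat_lit 2548) (nat_lit 2048) (.ev (nat_lit 5924)
 (nat_lit 32) (.ev (nat_lit 5933) (nat_lit 4096) .dd)))) (.ch (nat_lit 6) (.ev (nat_lit 2352) (nat_lit 4096)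
 (.ev (nat_lit 2420) (nat_lit 2048) (.ev (nat_lit 2429) (nat_lit 32) .dd)))))) (.br (nat_lit 10) (.ch (nat_lit
 9) (.ev (nat_lit 2352) (nat_lit 32) (.ev (nat_lit 2372) (nat_lit 4096) (.ev (nat_lit 2381) (nat_lit 2048)
 .dd)))) (.br (nat_lit 11) (.ch (nat_lit 10) (.ev (nat_lit 2352) (nat_lit 2048) (.ev (nat_lit 2820) (nat_lit
 32) (.ev (nat_lit 2829) (nat_lit 4096) .dd)))) (.ch (nat_lit 11) (.ev (nat_lit 2352) (nat_lit 4096) (.ev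
 (nat_lit 6644) (nat_lit 2048) (.ev (nat_lit 6653) (nat_lit 32) .dd)))))))))) (.br (nat_lit 12) (.ch (nat_lit
 8) (.ev (nat_lit 1104) (nat_lit 32) (.nd (nat_lit 2336) (.br (nat_lit 8) (.br (nat_lit 5) (.br (nat_lit 4)
 (.ch (nat_lit 1) (.ev (nat_lit 2740) (nat_lit 4096) (.ev (nat_lit 5540) (nat_lit 32768) (.ev (nat_lit 5549)
 (nat_lit 2048) .dd)))) (.ch (nat_lit 4) (.ev (nat_lit 2352) (nat_lit 34816) (.ev (nat_lit 2365) (nat_lit 4096)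
 .dd)))) (.br (nat_lit 7) (.ch (nat_lit 5) (.ev (nat_lit 2352) (nat_lit 4096) (.ev (nat_lit 2740) (nat_lit
 2048) (.ev (nat_lit 2749) (nat_lit 32768) .dd)))) (.ch (nat_lit 7) (.ev (nat_lit 2352) (nat_lit 4096) (.ev
 (nat_lit 2372) (nat_lit 32768) (.ev (nat_lit 2381) (nat_lit 2048) .dd)))))) (.br (nat_lit 10) (.br (nat_lit 9)
 (.ch (nat_lit 8) (.ev (nat_lit 2352) (nat_lit 32768) (.ev (nat_lit 2740) (nat_lit 4096) (.ev (nat_lit 2749)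
 (nat_lit 2048) .dd)))) (.ch (nat_lit 9) (.ev (nat_lit 2372) (nat_lit 32768) (.ev (nat_lit 2820) (nat_lit 4096)
 (.ev (nat_lit 2829) (nat_lit 2048) .dd))))) (.br (nat_lit 11) (.ch (nat_lit 10) (.ev (nat_lit 2352) (nat_lit
 34816) (.ev (nat_lit 2365) (nat_lit 4096) .dd))) (.ch (nat_lit 11) (.ev (nat_lit 2352) (nat_lit 2048) (.ev
 (nat_lit 2372) (nat_lit 4096) (.ev (nat_lit 2381) (nat_lit 32768) .dd)))))))))) (.ch (nat_lit 12) (.ev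
 (nat_lit 1104) (nat_lit 6176) (.ev (nat_lit 1117) (nat_lit 32768) .dd))))))))))) (.ch (nat_lit 1) (.ev
 (nat_lit 448) (nat_lit 36898) (.nd (nat_lit 1168) (.br (nat_lit 6) (.br (nat_lit 4) (.ch (nat_lit 2) (.ev
 (nat_lit 1184) (nat_lit 64) (.nd (nat_lit 3408) (.br (nat_lit 3) (.br (nat_lit 2) (.ch (nat_lit 0) (.ev
 (nat_lit 3476) (nat_lit 4) (.ev (nat_lit 3485) (nat_lit 2048) .dd))) (.ch (nat_lit 2) (.ev (nat_lit 3424)
 (nat_lit 4) (.ev (nat_lit 3437) (nat_lit 2048) .dd)))) (.br (nat_lit 10) (.ch (nat_lit 3) (.ev (nat_lit 3664)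
 (nat_lit 4) (.ev (nat_lit 3677) (nat_lit 2048) .dd))) (.br (nat_lit 11) (.ch (nat_lit 10) (.ev (nat_lit 5072)
 (nat_lit 2052) .dd)) (.ch (nat_lit 11) (.ev (nat_lit 3476) (nat_lit 4) (.ev (nat_lit 3485) (nat_lit 2048)
 .dd))))))))) (.br (nat_lit 5) (.ch (nat_lit 4) (.ev (nat_lit 1184) (nat_lit 4) (.ev (nat_lit 1204) (nat_lit
 2048) (.ev (nat_lit 1213) (nat_lit 64) .dd)))) (.ch (nat_lit 5) (.ev (nat_lit 1184) (nat_lit 2048) (.nd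
 (nat_lit 3408) (.br (nat_lit 5) (.br (nat_lit 1) (.ch (nat_lit 0) (.ev (nat_lit 3424) (nat_lit 64) (.ev
 (nat_lit 3437) (nat_lit 4) .dd))) (.br (nat_lit 3) (.ch (nat_lit 1) (.ev (nat_lit 3424) (nat_lit 4) (.ev
 (nat_lit 3437) (nat_lit 64) .dd))) (.ch (nat_lit 3) (.ev (nat_lit 3476) (nat_lit 4) (.ev (nat_lit 3485)
 (nat_lit 64) .dd))))) (.br (nat_lit 7) (.ch (nat_lit 5) (.ev (nat_lit 3540) (nat_lit 64) (.ev (nat_lit 3549)
 (nat_lit 4) .dd))) (.br (nat_lit 11) (.ch (nat_lit 7) (.ev (nat_lit 3540) (nat_lit 64) (.ev (nat_lit 3549)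
 (nat_lit 4) .dd))) (.ch (nat_lit 11) (.ev (nat_lit 3424) (nat_lit 64) (.ev (nat_lit 3437) (nat_lit 4)
 .dd))))))))))) (.br (nat_lit 10) (.br (nat_lit 7) (.ch (nat_lit 6) (.ev (nat_lit 1184) (nat_lit 2048) (.nd
 (nat_lit 3408) (.br (nat_lit 5) (.ch (nat_lit 4) (.ev (nat_lit 3476) (nat_lit 64) (.ev (nat_lit 3485) (nat_lit
 4) .dd))) (.br (nat_lit 7) (.ch (nat_lit 5) (.ev (nat_lit 3476) (nat_lit 64) (.ev (nat_lit 3485) (nat_lit 4)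
 .dd))) (.ch (nat_lit 7) (.ev (nat_lit 6260) (nat_lit 64) (.ev (nat_lit 6269) (nat_lit 4) .dd)))))))) (.ch
 (nat_lit 7) (.nd (nat_lit 2336) (.br (nat_lit 7) (.br (nat_lit 3) (.ch (nat_lit 2) (.ev (nat_lit 2740)
 (nat_lit 2048) (.ev (nat_lit 7156) (nat_lit 64) (.ev (nat_lit 7165) (nat_lit 4) .dd)))) (.br (nat_lit 5) (.ch
 (nat_lit 3) (.ev (nat_lit 2352) (nat_lit 2048) (.ev (nat_lit 6692) (nat_lit 4) (.ev (nat_lit 6701) (nat_lit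
 64) .dd)))) (.ch (nat_lit 5) (.ev (nat_lit 2676) (nat_lit 2048) (.ev (nat_lit 5716) (nat_lit 4) (.ev (nat_lit
 5725) (nat_lit 64) .dd)))))) (.br (nat_lit 9) (.br (nat_lit 8) (.ch (nat_lit 7) (.ev (nat_lit 2352) (nat_lit
 2048) (.ev (nat_lit 2676) (nat_lit 64) (.ev (nat_lit 2685) (nat_lit 4) .dd)))) (.ch (nat_lit 8) (.ev (nat_lit
 2676) (nat_lit 2048) (.ev (nat_lit 3652) (nat_lit 64) (.ev (nat_lit 3661) (nat_lit 4) .dd))))) (.br (nat_lit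
 10) (.ch (nat_lit 9) (.ev (nat_lit 2352) (nat_lit 68) (.ev (nat_lit 2365) (nat_lit 2048) .dd))) (.ch (nat_lit
 10) (.ev (nat_lit 2352) (nat_lit 4) (.ev (nat_lit 2676) (nat_lit 64) (.ev (nat_lit 2685) (nat_lit 2048)
 .dd)))))))))) (.br (nat_lit 12) (.ch (nat_lit 10) (.ev (nat_lit 1184) (nat_lit 4) (.nd (nat_lit 2624) (.br
 (nat_lit 1) (.ch (nat_lit 0) (.ev (nat_lit 2788) (nat_lit 64) (.ev (nat_lit 2797) (nat_lit 2048) .dd))) (.br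
 (nat_lit 11) (.ch (nat_lit 1) (.ev (nat_lit 3476) (nat_lit 2048) (.ev (nat_lit 3485) (nat_lit 64) .dd))) (.ch
 (nat_lit 11) (.ev (nat_lit 3476) (nat_lit 2048) (.ev (nat_lit 3485) (nat_lit 64) .dd)))))))) (.ch (nat_lit 12)
 (.ev (nat_lit 1184) (nat_lit 2112) (.ev (nat_lit 1197) (nat_lit 4) .dd)))))))))) (.br (nat_lit 4) (.ch
 (nat_lit 3) (.ev (nat_lit 448) (nat_lit 6176) (.nd (nat_lit 1008) (.br (nat_lit 7) (.br (nat_lit 5) (.br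
 (nat_lit 4) (.ch (nat_lit 1) (.ev (nat_lit 1024) (nat_lit 2) (.nd (nat_lit 1840) (.br (nat_lit 4) (.br
 (nat_lit 3) (.ch (nat_lit 1) (.ev (nat_lit 1856) (nat_lit 32768) (.ev (nat_lit 2420) (nat_lit 4) (.ev (nat_lit
 2429) (nat_lit 64) .dd)))) (.ch (nat_lit 3) (.ev (nat_lit 1856) (nat_lit 32768) (.ev (nat_lit 2868) (nat_lit
 4) (.ev (nat_lit 2877) (nat_lit 64) .dd))))) (.br (nat_lit 6) (.ch (nat_lit 4) (.ev (nat_lit 1856) (nat_lit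
 64) (.ev (nat_lit 2740) (nat_lit 4) (.ev (nat_lit 2749) (nat_lit 32768) .dd)))) (.br (nat_lit 11) (.ch
 (nat_lit 6) (.ev (nat_lit 1856) (nat_lit 32768) (.ev (nat_lit 2740) (nat_lit 4) (.ev (nat_lit 2749) (nat_lit
 64) .dd)))) (.ch (nat_lit 11) (.ev (nat_lit 3552) (nat_lit 4) (.fin (nat_lit 577040744922432662)))))))))) (.ch
 (nat_lit 4) (.ev (nat_lit 1024) (nat_lit 64) (.nd (nat_lit 2624) (.br (nat_lit 6) (.br (nat_lit 3) (.ch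
 (nat_lit 1) (.ev (nat_lit 2740) (nat_lit 2) (.ev (nat_lit 3140) (nat_lit 4) (.ev (nat_lit 3149) (nat_lit
 32768) .dd)))) (.br (nat_lit 4) (.ch (nat_lit 3) (.ev (nat_lit 2640) (nat_lit 32768) (.ev (nat_lit 2676)
 (nat_lit 2) (.ev (nat_lit 2685) (nat_lit 4) .dd)))) (.ch (nat_lit 4) (.ev (nat_lit 2704) (nat_lit 4) (.ev
 (nat_lit 2740) (nat_lit 2) (.ev (nat_lit 2749) (nat_lit 32768) .dd)))))) (.br (nat_lit 11) (.ch (nat_lit 6)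
 (.ev (nat_lit 2640) (nat_lit 32772) (.ev (nat_lit 2653) (nat_lit 2) .dd))) (.br (nat_lit 12) (.ch (nat_lit 11)
 (.ev (nat_lit 2640) (nat_lit 32772) (.ev (nat_lit 2653) (nat_lit 2) .dd))) (.ch (nat_lit 12) (.ev (nat_lit
 2640) (nat_lit 32770) (.ev (nat_lit 2653) (nat_lit 4) .dd)))))))))) (.br (nat_lit 6) (.ch (nat_lit 5) (.ev
 (nat_lit 1024) (nat_lit 32772) (.nd (nat_lit 2336) (.br (nat_lit 7) (.br (nat_lit 2) (.ch (nat_lit 1) (.ev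
 (nat_lit 2352) (nat_lit 64) (.ev (nat_lit 2365) (nat_lit 2) .dd))) (.br (nat_lit 4) (.ch (nat_lit 2) (.ev
 (nat_lit 2676) (nat_lit 2) (.ev (nat_lit 2685) (nat_lit 64) .dd))) (.ch (nat_lit 4) (.ev (nat_lit 2352)
 (nat_lit 64) (.ev (nat_lit 2365) (nat_lit 2) .dd))))) (.br (nat_lit 8) (.ch (nat_lit 7) (.ev (nat_lit 2676)
 (nat_lit 2) (.ev (nat_lit 2685) (nat_lit 64) .dd))) (.br (nat_lit 12) (.ch (nat_lit 8) (.ev (nat_lit 2352)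
 (nat_lit 64) (.ev (nat_lit 2365) (nat_lit 2) .dd))) (.ch (nat_lit 12) (.ev (nat_lit 5364) (nat_lit 2) (.ev
 (nat_lit 5373) (nat_lit 64) .dd))))))))) (.ch (nat_lit 6) (.ev (nat_lit 1300) (nat_lit 32768) (.nd (nat_lit
 2128) (.br (nat_lit 8) (.br (nat_lit 4) (.ch (nat_lit 0) (.ev (nat_lit 2144) (nat_lit 2) (.ev (nat_lit 2420)
 (nat_lit 64) (.ev (nat_lit 2429) (nat_lit 4) .dd)))) (.br (nat_lit 7) (.ch (nat_lit 4) (.ev (nat_lit 2144)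
 (nat_lit 68) (.ev (nat_lit 2157) (nat_lit 2) .dd))) (.ch (nat_lit 7) (.ev (nat_lit 2144) (nat_lit 2) (.ev
 (nat_lit 3076) (nat_lit 64) (.ev (nat_lit 3085) (nat_lit 4) .dd)))))) (.br (nat_lit 10) (.br (nat_lit 9) (.ch
 (nat_lit 8) (.ev (nat_lit 3076) (nat_lit 64) (.ev (nat_lit 5764) (nat_lit 4) (.ev (nat_lit 5773) (nat_lit 2)
 .dd)))) (.ch (nat_lit 9) (.ev (nat_lit 2144) (nat_lit 66) (.ev (nat_lit 2157) (nat_lit 4) .dd)))) (.br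
 (nat_lit 12) (.ch (nat_lit 10) (.ev (nat_lit 2164) (nat_lit 2) (.ev (nat_lit 2788) (nat_lit 4) (.ev (nat_lit
 2797) (nat_lit 64) .dd)))) (.ch (nat_lit 12) (.ev (nat_lit 2144) (nat_lit 2) (.ev (nat_lit 2420) (nat_lit 4)
 (.ev (nat_lit 2429) (nat_lit 64) .dd)))))))))))) (.br (nat_lit 9) (.br (nat_lit 8) (.ch (nat_lit 7) (.ev
 (nat_lit 1024) (nat_lit 4) (.nd (nat_lit 2624) (.br (nat_lit 3) (.br (nat_lit 1) (.ch (nat_lit 0) (.ev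
 (nat_lit 2640) (nat_lit 66) (.ev (nat_lit 2653) (nat_lit 32768) .dd))) (.ch (nat_lit 1) (.ev (nat_lit 2640)
 (nat_lit 66) (.ev (nat_lit 2653) (nat_lit 32768) .dd)))) (.br (nat_lit 5) (.ch (nat_lit 3) (.ev (nat_lit 3540)
 (nat_lit 64) (.ev (nat_lit 4020) (nat_lit 32768) (.ev (nat_lit 4029) (nat_lit 2) .dd)))) (.br (nat_lit 6) (.ch
 (nat_lit 5) (.ev (nat_lit 4052) (nat_lit 32768) (.ev (nat_lit 6512) (nat_lit 2) (.ev (nat_lit 6525) (nat_lit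
 64) .dd)))) (.ch (nat_lit 6) (.ev (nat_lit 2640) (nat_lit 32770) (.ev (nat_lit 2653) (nat_lit 64) .dd)))))))))
 (.ch (nat_lit 8) (.ev (nat_lit 1024) (nat_lit 66) (.ev (nat_lit 1300) (nat_lit 32768) (.ev (nat_lit 1309)
 (nat_lit 4) .dd))))) (.br (nat_lit 10) (.ch (nat_lit 9) (.ev (nat_lit 1024) (nat_lit 32768) (.ev (nat_lit
 1204) (nat_lit 2) (.nd (nat_lit 3408) (.br (nat_lit 6) (.br (nat_lit 4) (.ch (nat_lit 2) (.ev (nat_lit 3476)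
 (nat_lit 64) (.ev (nat_lit 3485) (nat_lit 4) .dd))) (.br (nat_lit 5) (.ch (nat_lit 4) (.ev (nat_lit 3424)
 (nat_lit 64) (.ev (nat_lit 3437) (nat_lit 4) .dd))) (.ch (nat_lit 5) (.ev (nat_lit 5844) (nat_lit 64) (.ev
 (nat_lit 5853) (nat_lit 4) .dd))))) (.br (nat_lit 9) (.br (nat_lit 8) (.ch (nat_lit 6) (.ev (nat_lit 3424)
 (nat_lit 68) .dd)) (.ch (nat_lit 8) (.ev (nat_lit 3476) (nat_lit 4) (.ev (nat_lit 3485) (nat_lit 64) .dd))))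
 (.br (nat_lit 11) (.ch (nat_lit 9) (.ev (nat_lit 3424) (nat_lit 4) (.ev (nat_lit 3437) (nat_lit 64) .dd)))
 (.ch (nat_lit 11) (.ev (nat_lit 3424) (nat_lit 64) (.ev (nat_lit 3437) (nat_lit 4) .dd)))))))))) (.br (nat_lit
 12) (.ch (nat_lit 10) (.ev (nat_lit 1024) (nat_lit 32836) (.ev (nat_lit 1037) (nat_lit 2) .dd))) (.ch (nat_lit
 12) (.ev (nat_lit 1024) (nat_lit 70) (.ev (nat_lit 1037) (nat_lit 32768) .dd)))))))))) (.ch (nat_lit 4) (.nd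
 (nat_lit 784) (.br (nat_lit 6) (.br (nat_lit 4) (.br (nat_lit 3) (.ch (nat_lit 1) (.ev (nat_lit 800) (nat_lit
 2050) (.nd (nat_lit 1408) (.br (nat_lit 6) (.br (nat_lit 1) (.ch (nat_lit 0) (.ev (nat_lit 1424) (nat_lit
 4096) (.ev (nat_lit 3348) (nat_lit 32) (.nd (nat_lit 4592) (.br (nat_lit 9) (.br (nat_lit 8) (.ch (nat_lit 4)
 (.ev (nat_lit 4608) (nat_lit 68) (.ev (nat_lit 4621) (nat_lit 32768) .dd))) (.ch (nat_lit 8) (.ev (nat_lit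
 4608) (nat_lit 4) (.ev (nat_lit 5764) (nat_lit 32768) (.ev (nat_lit 5773) (nat_lit 64) .dd))))) (.br (nat_lit
 11) (.ch (nat_lit 9) (.ev (nat_lit 4608) (nat_lit 32768) (.fin (nat_lit 575959922960187852)))) (.ch (nat_lit
 11) (.ev (nat_lit 4608) (nat_lit 4) (.fin (nat_lit 576666910612472549)))))))))) (.br (nat_lit 3) (.ch (nat_lit
 1) (.ev (nat_lit 1424) (nat_lit 4160) (.ev (nat_lit 3012) (nat_lit 32768) (.ev (nat_lit 5924) (nat_lit 4) (.ev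
 (nat_lit 5933) (nat_lit 32) .dd))))) (.ch (nat_lit 3) (.ev (nat_lit 1424) (nat_lit 4) (.ev (nat_lit 4084)
 (nat_lit 4096) (.nd (nat_lit 4304) (.br (nat_lit 7) (.br (nat_lit 5) (.ch (nat_lit 1) (.ev (nat_lit 4320)
 (nat_lit 32800) (.ev (nat_lit 4333) (nat_lit 64) .dd))) (.br (nat_lit 6) (.ch (nat_lit 5) (.ev (nat_lit 4320)
 (nat_lit 64) (.ev (nat_lit 4448) (nat_lit 32) (.ev (nat_lit 4461) (nat_lit 32768) .dd)))) (.ch (nat_lit 6)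
 (.ev (nat_lit 4320) (nat_lit 32) (.ev (nat_lit 4932) (nat_lit 32768) (.ev (nat_lit 4941) (nat_lit 64)
 .dd)))))) (.br (nat_lit 10) (.ch (nat_lit 7) (.ev (nat_lit 4320) (nat_lit 32800) (.ev (nat_lit 4333) (nat_lit
 64) .dd))) (.br (nat_lit 12) (.ch (nat_lit 10) (.ev (nat_lit 4320) (nat_lit 64) (.ev (nat_lit 6020) (nat_lit
 32768) (.ev (nat_lit 6029) (nat_lit 32) .dd)))) (.ch (nat_lit 12) (.ev (nat_lit 5044) (nat_lit 32768) (.ev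
 (nat_lit 5376) (nat_lit 32) (.ev (nat_lit 5389) (nat_lit 64) .dd))))))))))))) (.br (nat_lit 10) (.br (nat_lit
 8) (.ch (nat_lit 6) (.ev (nat_lit 1424) (nat_lit 96) (.ev (nat_lit 1684) (nat_lit 4096) (.ev (nat_lit 2948)
 (nat_lit 32768) (.ev (nat_lit 2957) (nat_lit 4) .dd))))) (.ch (nat_lit 8) (.ev (nat_lit 1424) (nat_lit 32772)
 (.ev (nat_lit 1684) (nat_lit 4096) (.ev (nat_lit 3076) (nat_lit 64) (.ev (nat_lit 3085) (nat_lit 32) .dd))))))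
 (.br (nat_lit 12) (.ch (nat_lit 10) (.ev (nat_lit 1424) (nat_lit 32) (.ev (nat_lit 1684) (nat_lit 4096) (.nd
 (nat_lit 4592) (.br (nat_lit 5) (.br (nat_lit 1) (.ch (nat_lit 0) (.ev (nat_lit 4608) (nat_lit 4) (.ev
 (nat_lit 6464) (nat_lit 32832) .dd))) (.br (nat_lit 3) (.ch (nat_lit 1) (.ev (nat_lit 4608) (nat_lit 4) (.ev
 (nat_lit 5572) (nat_lit 32768) (.ev (nat_lit 5581) (nat_lit 64) .dd)))) (.ch (nat_lit 3) (.ev (nat_lit 5300)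
 (nat_lit 4) (.ev (nat_lit 5856) (nat_lit 64) (.ev (nat_lit 5869) (nat_lit 32768) .dd)))))) (.br (nat_lit 8)
 (.br (nat_lit 7) (.ch (nat_lit 5) (.ev (nat_lit 4608) (nat_lit 64) (.ev (nat_lit 5140) (nat_lit 32768) (.ev
 (nat_lit 5149) (nat_lit 4) .dd)))) (.ch (nat_lit 7) (.ev (nat_lit 4608) (nat_lit 4) (.ev (nat_lit 5716)
 (nat_lit 64) (.ev (nat_lit 5725) (nat_lit 32768) .dd))))) (.br (nat_lit 11) (.ch (nat_lit 8) (.ev (nat_lit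
 4608) (nat_lit 32832) (.ev (nat_lit 4621) (nat_lit 4) .dd))) (.ch (nat_lit 11) (.ev (nat_lit 4608) (nat_lit 4)
 (.ev (nat_lit 5844) (nat_lit 64) (.ev (nat_lit 5853) (nat_lit 32768) .dd))))))))))) (.ch (nat_lit 12) (.ev
 (nat_lit 1424) (nat_lit 32768) (.ev (nat_lit 1684) (nat_lit 4096) (.nd (nat_lit 4592) (.br (nat_lit 7) (.br
 (nat_lit 5) (.ch (nat_lit 2) (.ev (nat_lit 4608) (nat_lit 36) (.ev (nat_lit 4621) (nat_lit 64) .dd))) (.ch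
 (nat_lit 5) (.ev (nat_lit 6356) (nat_lit 64) (.ev (nat_lit 6512) (nat_lit 36) .dd)))) (.br (nat_lit 10) (.ch
 (nat_lit 7) (.ev (nat_lit 4608) (nat_lit 32) (.ev (nat_lit 6740) (nat_lit 64) (.ev (nat_lit 6749) (nat_lit 4)
 .dd)))) (.br (nat_lit 11) (.ch (nat_lit 10) (.ev (nat_lit 4608) (nat_lit 68) (.ev (nat_lit 4621) (nat_lit 32)
 .dd))) (.ch (nat_lit 11) (.ev (nat_lit 4608) (nat_lit 68) (.ev (nat_lit 4621) (nat_lit 32) .dd))))))))))))))))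
 (.ch (nat_lit 3) (.ev (nat_lit 800) (nat_lit 2080) (.nd (nat_lit 1408) (.br (nat_lit 8) (.br (nat_lit 2) (.ch
 (nat_lit 1) (.ev (nat_lit 1424) (nat_lit 32768) (.ev (nat_lit 2484) (nat_lit 64) (.ev (nat_lit 2868) (nat_lit
 2) (.ev (nat_lit 2948) (nat_lit 4) (.ev (nat_lit 2957) (nat_lit 4096) .dd)))))) (.br (nat_lit 6) (.ch (nat_lit
 2) (.ev (nat_lit 1424) (nat_lit 6) (.ev (nat_lit 4116) (nat_lit 4096) (.fin (nat_lit 566523919282422557)))))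
 (.ch (nat_lit 6) (.ev (nat_lit 1424) (nat_lit 6) (.ev (nat_lit 1780) (nat_lit 4096) (.ev (nat_lit 5364)
 (nat_lit 64) (.ev (nat_lit 5373) (nat_lit 32768) .dd))))))) (.br (nat_lit 9) (.ch (nat_lit 8) (.ev (nat_lit
 1424) (nat_lit 4096) (.ev (nat_lit 1892) (nat_lit 2) (.ev (nat_lit 5236) (nat_lit 32768) (.ev (nat_lit 5632)
 (nat_lit 68) .dd))))) (.br (nat_lit 11) (.ch (nat_lit 9) (.ev (nat_lit 1424) (nat_lit 32772) (.ev (nat_lit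
 1780) (nat_lit 4096) (.ev (nat_lit 6452) (nat_lit 2) (.ev (nat_lit 6461) (nat_lit 64) .dd))))) (.ch (nat_lit
 11) (.ev (nat_lit 1424) (nat_lit 4096) (.ev (nat_lit 6928) (nat_lit 4) (.nd (nat_lit 7456) (.ch (nat_lit 8)
 (.nd (nat_lit 8720) (.br (nat_lit 9) (.ch (nat_lit 2) (.ev (nat_lit 8736) (nat_lit 2) (.fin (nat_lit
 576499784964588109)))) (.ch (nat_lit 9) (.ev (nat_lit 8736) (nat_lit 64) (.fin (nat_lit
 565409008493996421)))))))))))))))))) (.br (nat_lit 5) (.ch (nat_lit 4) (.ev (nat_lit 800) (nat_lit 6182) (.nd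
 (nat_lit 1456) (.br (nat_lit 5) (.ch (nat_lit 4) (.nd (nat_lit 4224) (.br (nat_lit 10) (.ch (nat_lit 4) (.ev
 (nat_lit 5668) (nat_lit 32768) (.ev (nat_lit 5677) (nat_lit 64) .dd))) (.ch (nat_lit 10) (.ev (nat_lit 4996)
 (nat_lit 64) (.ev (nat_lit 5005) (nat_lit 32768) .dd)))))) (.br (nat_lit 11) (.ch (nat_lit 5) (.ev (nat_lit
 2912) (nat_lit 32832) .dd)) (.ch (nat_lit 11) (.ev (nat_lit 6976) (nat_lit 32832) .dd))))))) (.ch (nat_lit 5)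
 (.ev (nat_lit 800) (nat_lit 34822) (.ev (nat_lit 1364) (nat_lit 4096) (.nd (nat_lit 1648) (.br (nat_lit 4)
 (.br (nat_lit 3) (.ch (nat_lit 2) (.ev (nat_lit 3892) (nat_lit 32) (.ev (nat_lit 3901) (nat_lit 64) .dd)))
 (.ch (nat_lit 3) (.ev (nat_lit 1664) (nat_lit 32) (.ev (nat_lit 1677) (nat_lit 64) .dd)))) (.br (nat_lit 7)
 (.ch (nat_lit 4) (.fin (nat_lit 576478894226883135))) (.br (nat_lit 10) (.ch (nat_lit 7) (.ev (nat_lit 5188)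
 (nat_lit 64) (.ev (nat_lit 5197) (nat_lit 32) .dd))) (.ch (nat_lit 10) (.ev (nat_lit 2484) (nat_lit 64) (.ev
 (nat_lit 2493) (nat_lit 32) .dd)))))))))))) (.br (nat_lit 10) (.br (nat_lit 8) (.ch (nat_lit 6) (.ev (nat_lit
 800) (nat_lit 32832) (.ev (nat_lit 1380) (nat_lit 4096) (.nd (nat_lit 1648) (.br (nat_lit 5) (.br (nat_lit 3)
 (.br (nat_lit 2) (.ch (nat_lit 0) (.ev (nat_lit 1664) (nat_lit 2084) (.ev (nat_lit 1677) (nat_lit 2) .dd)))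
 (.ch (nat_lit 2) (.ev (nat_lit 1664) (nat_lit 2048) (.ev (nat_lit 6596) (nat_lit 2) (.fin (nat_lit
 576417321500230188)))))) (.br (nat_lit 4) (.ch (nat_lit 3) (.ev (nat_lit 1664) (nat_lit 34) (.ev (nat_lit
 5364) (nat_lit 2048) (.ev (nat_lit 5373) (nat_lit 4) .dd)))) (.ch (nat_lit 4) (.ev (nat_lit 1664) (nat_lit
 2048) (.ev (nat_lit 1684) (nat_lit 32) (.ev (nat_lit 1796) (nat_lit 2) (.ev (nat_lit 1805) (nat_lit 4)
 .dd))))))) (.br (nat_lit 8) (.br (nat_lit 7) (.ch (nat_lit 5) (.ev (nat_lit 1664) (nat_lit 2048) (.ev (nat_lit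
 2100) (nat_lit 2) (.ev (nat_lit 2276) (nat_lit 32) (.ev (nat_lit 2285) (nat_lit 4) .dd))))) (.ch (nat_lit 7)
 (.ev (nat_lit 1664) (nat_lit 2) (.ev (nat_lit 1684) (nat_lit 32) (.ev (nat_lit 1940) (nat_lit 2048) (.ev
 (nat_lit 1949) (nat_lit 4) .dd)))))) (.br (nat_lit 11) (.ch (nat_lit 8) (.ev (nat_lit 1664) (nat_lit 2054)
 (.ev (nat_lit 1677) (nat_lit 32) .dd))) (.br (nat_lit 12) (.ch (nat_lit 11) (.ev (nat_lit 1664) (nat_lit 2)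
 (.ev (nat_lit 5188) (nat_lit 2048) (.ev (nat_lit 5764) (nat_lit 32) (.ev (nat_lit 5773) (nat_lit 4) .dd)))))
 (.ch (nat_lit 12) (.ev (nat_lit 1664) (nat_lit 36) (.ev (nat_lit 1796) (nat_lit 2) (.ev (nat_lit 1805)
 (nat_lit 2048) .dd)))))))))))) (.ch (nat_lit 8) (.ev (nat_lit 800) (nat_lit 4166) (.nd (nat_lit 1456) (.br
 (nat_lit 4) (.br (nat_lit 2) (.ch (nat_lit 0) (.ev (nat_lit 1472) (nat_lit 2048) (.ev (nat_lit 5888) (nat_lit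
 32800) .dd))) (.br (nat_lit 3) (.ch (nat_lit 2) (.ev (nat_lit 1472) (nat_lit 2048) (.fin (nat_lit
 575018742179119864)))) (.ch (nat_lit 3) (.ev (nat_lit 1472) (nat_lit 2048) (.ev (nat_lit 3012) (nat_lit 32768)
 (.ev (nat_lit 3021) (nat_lit 32) .dd)))))) (.br (nat_lit 8) (.br (nat_lit 6) (.ch (nat_lit 4) (.ev (nat_lit
 1472) (nat_lit 32) (.ev (nat_lit 6788) (nat_lit 32768) (.ev (nat_lit 6797) (nat_lit 2048) .dd)))) (.ch
 (nat_lit 6) (.ev (nat_lit 1472) (nat_lit 32768) (.ev (nat_lit 6356) (nat_lit 32) (.ev (nat_lit 6365) (nat_lit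
 2048) .dd))))) (.br (nat_lit 10) (.ch (nat_lit 8) (.ev (nat_lit 1472) (nat_lit 32) (.ev (nat_lit 5236)
 (nat_lit 2048) (.ev (nat_lit 5245) (nat_lit 32768) .dd)))) (.ch (nat_lit 10) (.ev (nat_lit 1472) (nat_lit
 32768) (.ev (nat_lit 2068) (nat_lit 2048) (.ev (nat_lit 2077) (nat_lit 32) .dd))))))))))) (.br (nat_lit 11)
 (.ch (nat_lit 10) (.ev (nat_lit 800) (nat_lit 36928) (.nd (nat_lit 1648) (.br (nat_lit 7) (.br (nat_lit 1)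
 (.ch (nat_lit 0) (.ev (nat_lit 1664) (nat_lit 6) (.ev (nat_lit 5492) (nat_lit 2048) (.ev (nat_lit 5501)
 (nat_lit 32) .dd)))) (.br (nat_lit 3) (.ch (nat_lit 1) (.ev (nat_lit 1684) (nat_lit 32) (.ev (nat_lit 6868)
 (nat_lit 2) (.fin (nat_lit 577222153956973667))))) (.ch (nat_lit 3) (.nd (nat_lit 7264) (.br (nat_lit 4) (.ch
 (nat_lit 2) (.ev (nat_lit 7280) (nat_lit 2048) (.ev (nat_lit 7444) (nat_lit 2) (.nd (nat_lit 8640) (.br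
 (nat_lit 3) (.ch (nat_lit 0) (.nd (nat_lit 9536) (.ch (nat_lit 7) (.nd (nat_lit 9648) (.br (nat_lit 11) (.ch
 (nat_lit 9) (.fin (nat_lit 576471197626614350))) (.ch (nat_lit 11) (.ev (nat_lit 9664) (nat_lit 4) (.ev
 (nat_lit 9677) (nat_lit 32) .dd)))))))) (.ch (nat_lit 3) (.fin (nat_lit 573099007016387127)))))))) (.ch
 (nat_lit 4) (.ev (nat_lit 7280) (nat_lit 36) (.fin (nat_lit 576456904024736333))))))))) (.br (nat_lit 11) (.ch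
 (nat_lit 7) (.ev (nat_lit 1664) (nat_lit 6) (.ev (nat_lit 6260) (nat_lit 2048) (.ev (nat_lit 6269) (nat_lit
 32) .dd)))) (.br (nat_lit 12) (.ch (nat_lit 11) (.ev (nat_lit 1664) (nat_lit 2) (.ev (nat_lit 3120) (nat_lit
 32) (.ev (nat_lit 5188) (nat_lit 2048) (.ev (nat_lit 5197) (nat_lit 4) .dd))))) (.ch (nat_lit 12) (.ev
 (nat_lit 1664) (nat_lit 2048) (.ev (nat_lit 3700) (nat_lit 32) (.ev (nat_lit 5364) (nat_lit 2) (.ev (nat_lit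
 5373) (nat_lit 4) .dd))))))))))) (.br (nat_lit 12) (.ch (nat_lit 11) (.ev (nat_lit 800) (nat_lit 6144) (.nd
 (nat_lit 1408) (.br (nat_lit 6) (.br (nat_lit 3) (.br (nat_lit 1) (.ch (nat_lit 0) (.ev (nat_lit 1424)
 (nat_lit 32832) (.nd (nat_lit 4304) (.br (nat_lit 8) (.br (nat_lit 7) (.ch (nat_lit 6) (.ev (nat_lit 4788)
 (nat_lit 32) (.ev (nat_lit 5716) (nat_lit 2) (.ev (nat_lit 5725) (nat_lit 4) .dd)))) (.ch (nat_lit 7) (.ev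
 (nat_lit 4320) (nat_lit 4) (.ev (nat_lit 4932) (nat_lit 2) (.ev (nat_lit 4941) (nat_lit 32) .dd))))) (.br
 (nat_lit 11) (.ch (nat_lit 8) (.ev (nat_lit 4644) (nat_lit 4) (.ev (nat_lit 4996) (nat_lit 2) (.ev (nat_lit
 5005) (nat_lit 32) .dd)))) (.ch (nat_lit 11) (.ev (nat_lit 4320) (nat_lit 2) (.fin (nat_lit
 576638323274498790))))))))) (.ch (nat_lit 1) (.ev (nat_lit 1424) (nat_lit 68) (.ev (nat_lit 1588) (nat_lit 2)
 (.ev (nat_lit 5444) (nat_lit 32768) (.ev (nat_lit 5453) (nat_lit 32) .dd)))))) (.br (nat_lit 5) (.ch (nat_lit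
 3) (.ev (nat_lit 1424) (nat_lit 38) (.fin (nat_lit 576390933269398104)))) (.ch (nat_lit 5) (.ev (nat_lit 1424)
 (nat_lit 32768) (.ev (nat_lit 1588) (nat_lit 2) (.ev (nat_lit 4132) (nat_lit 32) (.ev (nat_lit 6148) (nat_lit
 4) (.ev (nat_lit 6157) (nat_lit 64) .dd)))))))) (.br (nat_lit 10) (.br (nat_lit 8) (.ch (nat_lit 6) (.ev
 (nat_lit 1424) (nat_lit 34) (.ev (nat_lit 1956) (nat_lit 32768) (.ev (nat_lit 2948) (nat_lit 64) (.ev (nat_lit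
 2957) (nat_lit 4) .dd))))) (.ch (nat_lit 8) (.ev (nat_lit 1424) (nat_lit 32768) (.nd (nat_lit 4592) (.br
 (nat_lit 10) (.br (nat_lit 7) (.ch (nat_lit 6) (.ev (nat_lit 6032) (nat_lit 2) (.ev (nat_lit 6368) (nat_lit 4)
 (.fin (nat_lit 576430515735183857))))) (.br (nat_lit 9) (.ch (nat_lit 7) (.ev (nat_lit 4608) (nat_lit 96) (.ev
 (nat_lit 5876) (nat_lit 4) (.ev (nat_lit 5885) (nat_lit 2) .dd)))) (.ch (nat_lit 9) (.ev (nat_lit 4608)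
 (nat_lit 64) (.ev (nat_lit 4644) (nat_lit 32) (.ev (nat_lit 5764) (nat_lit 4) (.ev (nat_lit 5773) (nat_lit 2)
 .dd))))))) (.br (nat_lit 11) (.ch (nat_lit 10) (.ev (nat_lit 4608) (nat_lit 34) (.ev (nat_lit 4996) (nat_lit
 64) (.ev (nat_lit 5005) (nat_lit 4) .dd)))) (.br (nat_lit 12) (.ch (nat_lit 11) (.ev (nat_lit 4608) (nat_lit
 2) (.ev (nat_lit 4644) (nat_lit 32) (.ev (nat_lit 5876) (nat_lit 4) (.ev (nat_lit 5885) (nat_lit 64) .dd)))))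
 (.ch (nat_lit 12) (.ev (nat_lit 4608) (nat_lit 34) (.ev (nat_lit 4996) (nat_lit 64) (.ev (nat_lit 5005)
 (nat_lit 4) .dd))))))))))) (.br (nat_lit 11) (.ch (nat_lit 10) (.ev (nat_lit 1424) (nat_lit 66) (.ev (nat_lit
 2292) (nat_lit 32768) (.ev (nat_lit 2912) (nat_lit 4) (.ev (nat_lit 2925) (nat_lit 32) .dd))))) (.br (nat_lit
 12) (.ch (nat_lit 11) (.ev (nat_lit 1424) (nat_lit 36) (.ev (nat_lit 1588) (nat_lit 2) (.nd (nat_lit 4592)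
 (.br (nat_lit 11) (.br (nat_lit 10) (.ch (nat_lit 7) (.ev (nat_lit 5844) (nat_lit 32768) (.ev (nat_lit 5853)
 (nat_lit 64) .dd))) (.ch (nat_lit 10) (.ev (nat_lit 4608) (nat_lit 64) (.ev (nat_lit 4621) (nat_lit 32768)
 .dd)))) (.br (nat_lit 12) (.ch (nat_lit 11) (.ev (nat_lit 5844) (nat_lit 32768) (.ev (nat_lit 5853) (nat_lit
 64) .dd))) (.ch (nat_lit 12) (.ev (nat_lit 5844) (nat_lit 32768) (.ev (nat_lit 5853) (nat_lit 64) .dd)))))))))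
 (.ch (nat_lit 12) (.ev (nat_lit 1424) (nat_lit 4) (.ev (nat_lit 1588) (nat_lit 2) (.ev (nat_lit 1812) (nat_lit
 32768) (.ev (nat_lit 6500) (nat_lit 32) (.ev (nat_lit 6509) (nat_lit 64) .dd))))))))))))) (.ch (nat_lit 12)
 (.ev (nat_lit 800) (nat_lit 2080) (.ev (nat_lit 1124) (nat_lit 4096) (.nd (nat_lit 1744) (.br (nat_lit 9) (.br
 (nat_lit 5) (.ch (nat_lit 3) (.ev (nat_lit 1760) (nat_lit 4) (.ev (nat_lit 2948) (nat_lit 2) (.ev (nat_lit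
 7124) (nat_lit 32768) (.ev (nat_lit 7133) (nat_lit 64) .dd))))) (.br (nat_lit 7) (.ch (nat_lit 5) (.ev
 (nat_lit 1760) (nat_lit 32770) (.ev (nat_lit 2048) (nat_lit 68) .dd))) (.ch (nat_lit 7) (.ev (nat_lit 1760)
 (nat_lit 2) (.ev (nat_lit 6464) (nat_lit 64) (.fin (nat_lit 576456904017396284))))))) (.br (nat_lit 11) (.br
 (nat_lit 10) (.ch (nat_lit 9) (.ev (nat_lit 1760) (nat_lit 32768) (.nd (nat_lit 4416) (.br (nat_lit 9) (.br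
 (nat_lit 7) (.ch (nat_lit 6) (.ev (nat_lit 4672) (nat_lit 4) (.ev (nat_lit 5044) (nat_lit 64) (.ev (nat_lit
 5053) (nat_lit 2) .dd)))) (.ch (nat_lit 7) (.ev (nat_lit 4432) (nat_lit 2) (.ev (nat_lit 6368) (nat_lit 68)
 .dd)))) (.br (nat_lit 11) (.ch (nat_lit 9) (.ev (nat_lit 4432) (nat_lit 2) (.ev (nat_lit 5140) (nat_lit 64)
 (.ev (nat_lit 5149) (nat_lit 4) .dd)))) (.br (nat_lit 12) (.ch (nat_lit 11) (.ev (nat_lit 4432) (nat_lit 2)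
 (.ev (nat_lit 7108) (nat_lit 64) (.ev (nat_lit 7117) (nat_lit 4) .dd)))) (.ch (nat_lit 12) (.ev (nat_lit 4800)
 (nat_lit 4) (.ev (nat_lit 5044) (nat_lit 64) (.ev (nat_lit 5053) (nat_lit 2) .dd)))))))))) (.ch (nat_lit 10)
 (.ev (nat_lit 1760) (nat_lit 4) (.ev (nat_lit 2084) (nat_lit 64) (.ev (nat_lit 3188) (nat_lit 2) (.ev (nat_lit
 3197) (nat_lit 32768) .dd)))))) (.br (nat_lit 12) (.ch (nat_lit 11) (.ev (nat_lit 1760) (nat_lit 66) (.ev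
 (nat_lit 2068) (nat_lit 32768) (.ev (nat_lit 2077) (nat_lit 4) .dd)))) (.ch (nat_lit 12) (.ev (nat_lit 1780)
 (nat_lit 64) (.ev (nat_lit 2084) (nat_lit 32768) (.ev (nat_lit 3220) (nat_lit 4) (.ev (nat_lit 3229) (nat_lit
 2) .dd)))))))))))))))))))) (.br (nat_lit 8) (.br (nat_lit 6) (.ch (nat_lit 5) (.ev (nat_lit 448) (nat_lit 70)
 (.nd (nat_lit 880) (.br (nat_lit 6) (.br (nat_lit 4) (.br (nat_lit 3) (.ch (nat_lit 2) (.ev (nat_lit 896)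
 (nat_lit 2048) (.ev (nat_lit 1124) (nat_lit 4096) (.nd (nat_lit 1744) (.br (nat_lit 6) (.br (nat_lit 2) (.ch
 (nat_lit 0) (.ev (nat_lit 3076) (nat_lit 32768) (.ev (nat_lit 3085) (nat_lit 32) .dd))) (.br (nat_lit 3) (.ch
 (nat_lit 2) (.ev (nat_lit 1760) (nat_lit 32) (.ev (nat_lit 1773) (nat_lit 32768) .dd))) (.ch (nat_lit 3) (.ev
 (nat_lit 6624) (nat_lit 32800) .dd)))) (.br (nat_lit 9) (.br (nat_lit 8) (.ch (nat_lit 6) (.ev (nat_lit 6260)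
 (nat_lit 32) (.ev (nat_lit 6269) (nat_lit 32768) .dd))) (.ch (nat_lit 8) (.ev (nat_lit 1760) (nat_lit 32800)
 .dd))) (.br (nat_lit 11) (.ch (nat_lit 9) (.ev (nat_lit 1760) (nat_lit 32768) (.ev (nat_lit 1773) (nat_lit 32)
 .dd))) (.ch (nat_lit 11) (.ev (nat_lit 1760) (nat_lit 32) (.ev (nat_lit 1773) (nat_lit 32768) .dd))))))))))
 (.ch (nat_lit 3) (.nd (nat_lit 1648) (.br (nat_lit 6) (.br (nat_lit 4) (.ch (nat_lit 3) (.ev (nat_lit 1664)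
 (nat_lit 4096) (.nd (nat_lit 4416) (.br (nat_lit 9) (.br (nat_lit 5) (.ch (nat_lit 1) (.ev (nat_lit 4432)
 (nat_lit 32768) (.ev (nat_lit 4624) (nat_lit 2080) .dd))) (.ch (nat_lit 5) (.ev (nat_lit 4432) (nat_lit 32768)
 (.ev (nat_lit 5300) (nat_lit 32) (.ev (nat_lit 5309) (nat_lit 2048) .dd))))) (.br (nat_lit 11) (.ch (nat_lit
 9) (.ev (nat_lit 4432) (nat_lit 2048) (.ev (nat_lit 4692) (nat_lit 32) (.ev (nat_lit 4701) (nat_lit 32768)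
 .dd)))) (.br (nat_lit 12) (.ch (nat_lit 11) (.ev (nat_lit 4432) (nat_lit 32768) (.ev (nat_lit 5492) (nat_lit
 32) (.ev (nat_lit 5501) (nat_lit 2048) .dd)))) (.ch (nat_lit 12) (.ev (nat_lit 4432) (nat_lit 32) (.ev
 (nat_lit 4944) (nat_lit 34816) .dd))))))))) (.br (nat_lit 5) (.ch (nat_lit 4) (.ev (nat_lit 1664) (nat_lit
 2048) (.ev (nat_lit 2388) (nat_lit 4096) (.nd (nat_lit 4864) (.br (nat_lit 5) (.br (nat_lit 2) (.ch (nat_lit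
 0) (.nd (nat_lit 8176) (.br (nat_lit 11) (.ch (nat_lit 10) (.ev (nat_lit 8192) (nat_lit 32) (.ev (nat_lit
 8205) (nat_lit 32768) .dd))) (.ch (nat_lit 11) (.fin (nat_lit 576346952835744304)))))) (.ch (nat_lit 2) (.ev
 (nat_lit 4880) (nat_lit 32800) .dd))) (.br (nat_lit 8) (.ch (nat_lit 5) (.ev (nat_lit 5444) (nat_lit 32) (.ev
 (nat_lit 5453) (nat_lit 32768) .dd))) (.br (nat_lit 12) (.ch (nat_lit 8) (.ev (nat_lit 5140) (nat_lit 32) (.ev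
 (nat_lit 5149) (nat_lit 32768) .dd))) (.ch (nat_lit 12) (.ev (nat_lit 5472) (nat_lit 32768) (.ev (nat_lit
 5485) (nat_lit 32) .dd)))))))))) (.ch (nat_lit 5) (.ev (nat_lit 1664) (nat_lit 2048) (.ev (nat_lit 2164)
 (nat_lit 4096) (.ev (nat_lit 6560) (nat_lit 32800) .dd)))))) (.br (nat_lit 9) (.br (nat_lit 7) (.ch (nat_lit
 6) (.ev (nat_lit 1664) (nat_lit 32800) (.ev (nat_lit 2388) (nat_lit 4096) (.ev (nat_lit 2397) (nat_lit 2048)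
 .dd)))) (.ch (nat_lit 7) (.ev (nat_lit 1664) (nat_lit 32800) (.ev (nat_lit 1700) (nat_lit 2048) (.ev (nat_lit
 1709) (nat_lit 4096) .dd))))) (.br (nat_lit 12) (.ch (nat_lit 9) (.nd (nat_lit 4304) (.br (nat_lit 8) (.br
 (nat_lit 1) (.ch (nat_lit 0) (.ev (nat_lit 4320) (nat_lit 32800) (.ev (nat_lit 4468) (nat_lit 2048) (.ev
 (nat_lit 4477) (nat_lit 4096) .dd)))) (.br (nat_lit 3) (.ch (nat_lit 1) (.ev (nat_lit 4320) (nat_lit 36864)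
 (.ev (nat_lit 4500) (nat_lit 2048) (.ev (nat_lit 4509) (nat_lit 32) .dd)))) (.ch (nat_lit 3) (.ev (nat_lit
 4320) (nat_lit 36864) (.ev (nat_lit 5876) (nat_lit 32) (.ev (nat_lit 5885) (nat_lit 2048) .dd)))))) (.br
 (nat_lit 10) (.ch (nat_lit 8) (.ev (nat_lit 4320) (nat_lit 4128) (.ev (nat_lit 6148) (nat_lit 2048) (.ev
 (nat_lit 6157) (nat_lit 32768) .dd)))) (.br (nat_lit 12) (.ch (nat_lit 10) (.ev (nat_lit 4320) (nat_lit 6176)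
 (.ev (nat_lit 4333) (nat_lit 32768) .dd))) (.ch (nat_lit 12) (.ev (nat_lit 4320) (nat_lit 4128) (.ev (nat_lit
 5492) (nat_lit 32768) (.ev (nat_lit 5501) (nat_lit 2048) .dd))))))))) (.ch (nat_lit 12) (.ev (nat_lit 1664)
 (nat_lit 4096) (.nd (nat_lit 4416) (.br (nat_lit 7) (.br (nat_lit 3) (.br (nat_lit 1) (.ch (nat_lit 0) (.ev
 (nat_lit 4432) (nat_lit 34816) (.ev (nat_lit 4445) (nat_lit 32) .dd))) (.ch (nat_lit 1) (.ev (nat_lit 4692)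
 (nat_lit 32) (.fin (nat_lit 576493187897967280))))) (.br (nat_lit 4) (.ch (nat_lit 3) (.ev (nat_lit 4432)
 (nat_lit 32) (.ev (nat_lit 5924) (nat_lit 32768) (.ev (nat_lit 5933) (nat_lit 2048) .dd)))) (.ch (nat_lit 4)
 (.ev (nat_lit 4432) (nat_lit 32) (.ev (nat_lit 5876) (nat_lit 32768) (.ev (nat_lit 5885) (nat_lit 2048)
 .dd)))))) (.br (nat_lit 11) (.br (nat_lit 10) (.ch (nat_lit 7) (.ev (nat_lit 4432) (nat_lit 34816) (.ev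
 (nat_lit 4445) (nat_lit 32) .dd))) (.ch (nat_lit 10) (.ev (nat_lit 4432) (nat_lit 2048) (.ev (nat_lit 4644)
 (nat_lit 32) (.ev (nat_lit 4653) (nat_lit 32768) .dd))))) (.br (nat_lit 12) (.ch (nat_lit 11) (.ev (nat_lit
 4432) (nat_lit 32) (.ev (nat_lit 6356) (nat_lit 32768) (.ev (nat_lit 6365) (nat_lit 2048) .dd)))) (.ch
 (nat_lit 12) (.ev (nat_lit 4644) (nat_lit 32) (.ev (nat_lit 6644) (nat_lit 32768) (.ev (nat_lit 6653) (nat_lit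
 2048) .dd)))))))))))))))) (.br (nat_lit 5) (.ch (nat_lit 4) (.nd (nat_lit 1408) (.br (nat_lit 6) (.br (nat_lit
 2) (.ch (nat_lit 0) (.ev (nat_lit 1424) (nat_lit 2048) (.ev (nat_lit 2388) (nat_lit 4096) (.nd (nat_lit 4864)
 (.br (nat_lit 10) (.br (nat_lit 8) (.ch (nat_lit 2) (.ev (nat_lit 4932) (nat_lit 32768) (.ev (nat_lit 4941)
 (nat_lit 32) .dd))) (.br (nat_lit 9) (.ch (nat_lit 8) (.ev (nat_lit 4880) (nat_lit 32) (.ev (nat_lit 4893)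
 (nat_lit 32768) .dd))) (.ch (nat_lit 9) (.ev (nat_lit 4996) (nat_lit 32768) (.ev (nat_lit 5005) (nat_lit 32)
 .dd))))) (.br (nat_lit 11) (.ch (nat_lit 10) (.ev (nat_lit 4880) (nat_lit 32) (.ev (nat_lit 4893) (nat_lit
 32768) .dd))) (.br (nat_lit 12) (.ch (nat_lit 11) (.ev (nat_lit 4932) (nat_lit 32768) (.ev (nat_lit 4941)
 (nat_lit 32) .dd))) (.ch (nat_lit 12) (.ev (nat_lit 4880) (nat_lit 32768) (.ev (nat_lit 4893) (nat_lit 32)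
 .dd)))))))))) (.br (nat_lit 3) (.ch (nat_lit 2) (.ev (nat_lit 2004) (nat_lit 4096) (.ev (nat_lit 3892)
 (nat_lit 2048) (.fin (nat_lit 576399729358225876))))) (.ch (nat_lit 3) (.ev (nat_lit 1424) (nat_lit 34816)
 (.ev (nat_lit 2388) (nat_lit 4096) (.ev (nat_lit 2397) (nat_lit 32) .dd)))))) (.br (nat_lit 10) (.ch (nat_lit
 6) (.ev (nat_lit 1424) (nat_lit 4096) (.ev (nat_lit 4996) (nat_lit 32) (.ev (nat_lit 6740) (nat_lit 32768)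
 (.ev (nat_lit 6749) (nat_lit 2048) .dd))))) (.br (nat_lit 11) (.ch (nat_lit 10) (.ev (nat_lit 3540) (nat_lit
 2048) (.ev (nat_lit 3700) (nat_lit 4096) (.ev (nat_lit 6356) (nat_lit 32) (.ev (nat_lit 6365) (nat_lit 32768)
 .dd))))) (.ch (nat_lit 11) (.ev (nat_lit 1424) (nat_lit 34816) (.ev (nat_lit 2004) (nat_lit 4096) (.ev
 (nat_lit 2013) (nat_lit 32) .dd))))))))) (.ch (nat_lit 5) (.ev (nat_lit 896) (nat_lit 38912) (.ev (nat_lit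
 909) (nat_lit 32) .dd))))) (.br (nat_lit 9) (.br (nat_lit 8) (.ch (nat_lit 6) (.ev (nat_lit 896) (nat_lit
 36896) (.ev (nat_lit 909) (nat_lit 2048) .dd))) (.ch (nat_lit 8) (.ev (nat_lit 896) (nat_lit 4096) (.nd
 (nat_lit 1648) (.br (nat_lit 5) (.br (nat_lit 2) (.ch (nat_lit 0) (.ev (nat_lit 1664) (nat_lit 32) (.nd
 (nat_lit 4416) (.br (nat_lit 6) (.br (nat_lit 5) (.ch (nat_lit 1) (.ev (nat_lit 4996) (nat_lit 32768) (.ev
 (nat_lit 5005) (nat_lit 2048) .dd))) (.ch (nat_lit 5) (.ev (nat_lit 5604) (nat_lit 32768) (.ev (nat_lit 5613)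
 (nat_lit 2048) .dd)))) (.br (nat_lit 11) (.ch (nat_lit 6) (.ev (nat_lit 4500) (nat_lit 2048) (.ev (nat_lit
 4509) (nat_lit 32768) .dd))) (.ch (nat_lit 11) (.ev (nat_lit 4432) (nat_lit 2048) (.ev (nat_lit 4445) (nat_lit
 32768) .dd)))))))) (.br (nat_lit 4) (.ch (nat_lit 2) (.nd (nat_lit 4864) (.br (nat_lit 3) (.br (nat_lit 2)
 (.ch (nat_lit 0) (.ev (nat_lit 4880) (nat_lit 32768) (.ev (nat_lit 4932) (nat_lit 2048) (.ev (nat_lit 4941)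
 (nat_lit 32) .dd)))) (.ch (nat_lit 2) (.ev (nat_lit 4880) (nat_lit 32800) (.ev (nat_lit 4893) (nat_lit 2048)
 .dd)))) (.br (nat_lit 9) (.ch (nat_lit 3) (.ev (nat_lit 4880) (nat_lit 2048) (.ev (nat_lit 4912) (nat_lit
 32800) .dd))) (.br (nat_lit 11) (.ch (nat_lit 9) (.ev (nat_lit 4880) (nat_lit 32) (.ev (nat_lit 4932) (nat_lit
 2048) (.ev (nat_lit 4941) (nat_lit 32768) .dd)))) (.ch (nat_lit 11) (.ev (nat_lit 4880) (nat_lit 32800) (.ev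
 (nat_lit 4893) (nat_lit 2048) .dd)))))))) (.ch (nat_lit 4) (.ev (nat_lit 1664) (nat_lit 2048) (.ev (nat_lit
 1892) (nat_lit 32768) (.ev (nat_lit 1901) (nat_lit 32) .dd)))))) (.br (nat_lit 11) (.br (nat_lit 10) (.ch
 (nat_lit 5) (.ev (nat_lit 1664) (nat_lit 2048) (.ev (nat_lit 6596) (nat_lit 32) (.ev (nat_lit 6605) (nat_lit
 32768) .dd)))) (.ch (nat_lit 10) (.ev (nat_lit 1664) (nat_lit 32768) (.ev (nat_lit 2868) (nat_lit 2048) (.ev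
 (nat_lit 2877) (nat_lit 32) .dd))))) (.br (nat_lit 12) (.ch (nat_lit 11) (.nd (nat_lit 4864) (.br (nat_lit 9)
 (.br (nat_lit 8) (.ch (nat_lit 1) (.ev (nat_lit 4880) (nat_lit 32) (.ev (nat_lit 5444) (nat_lit 32768) (.ev
 (nat_lit 5453) (nat_lit 2048) .dd)))) (.ch (nat_lit 8) (.ev (nat_lit 4880) (nat_lit 32) (.ev (nat_lit 6148)
 (nat_lit 32768) (.ev (nat_lit 6157) (nat_lit 2048) .dd))))) (.br (nat_lit 11) (.ch (nat_lit 9) (.ev (nat_lit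
 4880) (nat_lit 32768) (.ev (nat_lit 5140) (nat_lit 32) (.ev (nat_lit 5149) (nat_lit 2048) .dd)))) (.ch
 (nat_lit 11) (.ev (nat_lit 4880) (nat_lit 2048) (.ev (nat_lit 5044) (nat_lit 32768) (.ev (nat_lit 5053)
 (nat_lit 32) .dd)))))))) (.ch (nat_lit 12) (.ev (nat_lit 1664) (nat_lit 32) (.ev (nat_lit 6356) (nat_lit
 32768) (.ev (nat_lit 6365) (nat_lit 2048) .dd))))))))))) (.br (nat_lit 11) (.ch (nat_lit 9) (.ev (nat_lit 896)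
 (nat_lit 32800) (.ev (nat_lit 1124) (nat_lit 4096) (.ev (nat_lit 1133) (nat_lit 2048) .dd)))) (.br (nat_lit
 12) (.ch (nat_lit 11) (.ev (nat_lit 896) (nat_lit 6144) (.nd (nat_lit 1456) (.br (nat_lit 4) (.br (nat_lit 2)
 (.ch (nat_lit 0) (.ev (nat_lit 1472) (nat_lit 32) (.ev (nat_lit 1485) (nat_lit 32768) .dd))) (.br (nat_lit 3)
 (.ch (nat_lit 2) (.ev (nat_lit 2516) (nat_lit 32768) (.ev (nat_lit 2525) (nat_lit 32) .dd))) (.ch (nat_lit 3)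
 (.ev (nat_lit 1472) (nat_lit 32768) (.ev (nat_lit 1485) (nat_lit 32) .dd))))) (.br (nat_lit 6) (.ch (nat_lit
 4) (.ev (nat_lit 5364) (nat_lit 32) (.ev (nat_lit 5373) (nat_lit 32768) .dd))) (.br (nat_lit 9) (.ch (nat_lit
 6) (.nd (nat_lit 4416) (.br (nat_lit 8) (.br (nat_lit 4) (.ch (nat_lit 2) (.ev (nat_lit 6500) (nat_lit 32)
 (.ev (nat_lit 6509) (nat_lit 32768) .dd))) (.ch (nat_lit 4) (.ev (nat_lit 6740) (nat_lit 32768) (.ev (nat_lit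
 6749) (nat_lit 32) .dd)))) (.br (nat_lit 12) (.ch (nat_lit 8) (.ev (nat_lit 4852) (nat_lit 32) (.ev (nat_lit
 4861) (nat_lit 32768) .dd))) (.ch (nat_lit 12) (.ev (nat_lit 4996) (nat_lit 32768) (.ev (nat_lit 5005)
 (nat_lit 32) .dd))))))) (.ch (nat_lit 9) (.ev (nat_lit 1472) (nat_lit 32768) (.ev (nat_lit 1485) (nat_lit 32)
 .dd))))))))) (.ch (nat_lit 12) (.ev (nat_lit 896) (nat_lit 32) (.ev (nat_lit 1060) (nat_lit 2048) (.nd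
 (nat_lit 3984) (.br (nat_lit 7) (.br (nat_lit 3) (.ch (nat_lit 0) (.ev (nat_lit 4000) (nat_lit 32768) (.ev
 (nat_lit 4013) (nat_lit 4096) .dd))) (.br (nat_lit 5) (.ch (nat_lit 3) (.ev (nat_lit 4000) (nat_lit 4096) (.ev
 (nat_lit 4013) (nat_lit 32768) .dd))) (.ch (nat_lit 5) (.ev (nat_lit 4000) (nat_lit 32768) (.ev (nat_lit 4013)
 (nat_lit 4096) .dd))))) (.br (nat_lit 10) (.ch (nat_lit 7) (.ev (nat_lit 4000) (nat_lit 32768) (.ev (nat_lit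
 4013) (nat_lit 4096) .dd))) (.br (nat_lit 12) (.ch (nat_lit 10) (.ev (nat_lit 6260) (nat_lit 32768) (.ev
 (nat_lit 6269) (nat_lit 4096) .dd))) (.ch (nat_lit 12) (.ev (nat_lit 4000) (nat_lit 32768) (.ev (nat_lit 4013)
 (nat_lit 4096) .dd))))))))))))))))) (.ch (nat_lit 6) (.ev (nat_lit 448) (nat_lit 2) (.nd (nat_lit 880) (.br
 (nat_lit 8) (.br (nat_lit 5) (.br (nat_lit 2) (.ch (nat_lit 1) (.ev (nat_lit 896) (nat_lit 34880) (.nd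
 (nat_lit 3408) (.br (nat_lit 8) (.br (nat_lit 5) (.ch (nat_lit 0) (.ev (nat_lit 3424) (nat_lit 4100) (.ev
 (nat_lit 3437) (nat_lit 32) .dd))) (.ch (nat_lit 5) (.ev (nat_lit 3652) (nat_lit 32) (.ev (nat_lit 5764)
 (nat_lit 4096) (.ev (nat_lit 5773) (nat_lit 4) .dd))))) (.br (nat_lit 11) (.ch (nat_lit 8) (.ev (nat_lit 3424)
 (nat_lit 32) (.fin (nat_lit 576867022333756056)))) (.ch (nat_lit 11) (.ev (nat_lit 3424) (nat_lit 4128) (.ev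
 (nat_lit 3437) (nat_lit 4) .dd)))))))) (.ch (nat_lit 2) (.ev (nat_lit 896) (nat_lit 2084) (.nd (nat_lit 2128)
 (.br (nat_lit 5) (.br (nat_lit 3) (.br (nat_lit 2) (.ch (nat_lit 0) (.ev (nat_lit 2144) (nat_lit 4096) (.ev
 (nat_lit 2372) (nat_lit 32768) (.ev (nat_lit 2381) (nat_lit 64) .dd)))) (.ch (nat_lit 2) (.ev (nat_lit 2180)
 (nat_lit 64) (.ev (nat_lit 5728) (nat_lit 32768) (.ev (nat_lit 5741) (nat_lit 4096) .dd))))) (.br (nat_lit 4)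
 (.ch (nat_lit 3) (.ev (nat_lit 2144) (nat_lit 36864) (.ev (nat_lit 2157) (nat_lit 64) .dd))) (.ch (nat_lit 4)
 (.ev (nat_lit 2740) (nat_lit 4096) (.ev (nat_lit 3140) (nat_lit 32768) (.ev (nat_lit 3149) (nat_lit 64)
 .dd)))))) (.br (nat_lit 11) (.br (nat_lit 7) (.ch (nat_lit 5) (.ev (nat_lit 2388) (nat_lit 32768) (.ev
 (nat_lit 3604) (nat_lit 64) (.ev (nat_lit 3613) (nat_lit 4096) .dd)))) (.ch (nat_lit 7) (.ev (nat_lit 2144)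
 (nat_lit 64) (.ev (nat_lit 2388) (nat_lit 32768) (.ev (nat_lit 2397) (nat_lit 4096) .dd))))) (.br (nat_lit 12)
 (.ch (nat_lit 11) (.ev (nat_lit 2144) (nat_lit 64) (.ev (nat_lit 2740) (nat_lit 4096) (.ev (nat_lit 2749)
 (nat_lit 32768) .dd)))) (.ch (nat_lit 12) (.ev (nat_lit 2144) (nat_lit 32768) (.ev (nat_lit 2164) (nat_lit
 4096) (.ev (nat_lit 2173) (nat_lit 64) .dd))))))))))) (.br (nat_lit 6) (.ch (nat_lit 5) (.ev (nat_lit 896)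
 (nat_lit 36864) (.nd (nat_lit 2128) (.br (nat_lit 7) (.br (nat_lit 3) (.br (nat_lit 2) (.ch (nat_lit 0) (.ev
 (nat_lit 2144) (nat_lit 64) (.ev (nat_lit 2164) (nat_lit 4) (.ev (nat_lit 2868) (nat_lit 2048) (.ev (nat_lit
 2877) (nat_lit 32) .dd))))) (.ch (nat_lit 2) (.ev (nat_lit 2740) (nat_lit 32) (.nd (nat_lit 4592) (.br
 (nat_lit 6) (.br (nat_lit 4) (.ch (nat_lit 0) (.ev (nat_lit 4644) (nat_lit 2048) (.ev (nat_lit 6692) (nat_lit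
 4) (.ev (nat_lit 6701) (nat_lit 64) .dd)))) (.br (nat_lit 5) (.ch (nat_lit 4) (.ev (nat_lit 4608) (nat_lit
 2048) (.ev (nat_lit 5856) (nat_lit 68) .dd))) (.ch (nat_lit 5) (.ev (nat_lit 4608) (nat_lit 68) (.ev (nat_lit
 4621) (nat_lit 2048) .dd))))) (.br (nat_lit 8) (.ch (nat_lit 6) (.ev (nat_lit 4608) (nat_lit 2048) (.ev
 (nat_lit 6692) (nat_lit 4) (.ev (nat_lit 6701) (nat_lit 64) .dd)))) (.br (nat_lit 9) (.ch (nat_lit 8) (.ev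
 (nat_lit 5716) (nat_lit 2048) (.ev (nat_lit 6272) (nat_lit 4) (.ev (nat_lit 6285) (nat_lit 64) .dd)))) (.ch
 (nat_lit 9) (.ev (nat_lit 4608) (nat_lit 4) (.ev (nat_lit 4852) (nat_lit 2048) (.ev (nat_lit 4861) (nat_lit
 64) .dd))))))))))) (.br (nat_lit 5) (.ch (nat_lit 3) (.ev (nat_lit 2144) (nat_lit 2052) (.ev (nat_lit 2164)
 (nat_lit 64) (.ev (nat_lit 2173) (nat_lit 32) .dd)))) (.ch (nat_lit 5) (.ev (nat_lit 2144) (nat_lit 2048) (.ev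
 (nat_lit 2164) (nat_lit 64) (.ev (nat_lit 7108) (nat_lit 32) (.ev (nat_lit 7117) (nat_lit 4) .dd))))))) (.br
 (nat_lit 9) (.br (nat_lit 8) (.ch (nat_lit 7) (.ev (nat_lit 2144) (nat_lit 2052) (.ev (nat_lit 3540) (nat_lit
 32) (.ev (nat_lit 3549) (nat_lit 64) .dd)))) (.ch (nat_lit 8) (.ev (nat_lit 2144) (nat_lit 36) (.ev (nat_lit
 2164) (nat_lit 2048) (.ev (nat_lit 2173) (nat_lit 64) .dd))))) (.br (nat_lit 12) (.ch (nat_lit 9) (.ev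
 (nat_lit 2144) (nat_lit 64) (.ev (nat_lit 6356) (nat_lit 2048) (.ev (nat_lit 6500) (nat_lit 4) (.ev (nat_lit
 6509) (nat_lit 32) .dd))))) (.ch (nat_lit 12) (.ev (nat_lit 2144) (nat_lit 2080) (.ev (nat_lit 2164) (nat_lit
 4) (.ev (nat_lit 2173) (nat_lit 64) .dd)))))))))) (.ch (nat_lit 6) (.ev (nat_lit 896) (nat_lit 4192) (.nd
 (nat_lit 2128) (.br (nat_lit 5) (.br (nat_lit 2) (.ch (nat_lit 0) (.ev (nat_lit 2144) (nat_lit 34816) (.ev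
 (nat_lit 2157) (nat_lit 4) .dd))) (.br (nat_lit 3) (.ch (nat_lit 2) (.ev (nat_lit 2144) (nat_lit 2052) (.ev
 (nat_lit 2157) (nat_lit 32768) .dd))) (.ch (nat_lit 3) (.ev (nat_lit 2144) (nat_lit 32768) (.ev (nat_lit 2212)
 (nat_lit 2048) (.ev (nat_lit 2221) (nat_lit 4) .dd)))))) (.br (nat_lit 11) (.br (nat_lit 7) (.ch (nat_lit 5)
 (.ev (nat_lit 2144) (nat_lit 4) (.ev (nat_lit 2752) (nat_lit 34816) .dd))) (.ch (nat_lit 7) (.ev (nat_lit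
 2164) (nat_lit 2048) (.ev (nat_lit 2740) (nat_lit 32768) (.ev (nat_lit 2749) (nat_lit 4) .dd))))) (.br
 (nat_lit 12) (.ch (nat_lit 11) (.ev (nat_lit 2144) (nat_lit 2048) (.ev (nat_lit 3088) (nat_lit 32768) (.ev
 (nat_lit 3101) (nat_lit 4) .dd)))) (.ch (nat_lit 12) (.ev (nat_lit 2144) (nat_lit 32768) (.fin (nat_lit
 576486590813520497)))))))))))) (.br (nat_lit 10) (.br (nat_lit 9) (.ch (nat_lit 8) (.ev (nat_lit 896) (nat_lit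
 32768) (.ev (nat_lit 1124) (nat_lit 4) (.nd (nat_lit 1840) (.br (nat_lit 7) (.br (nat_lit 4) (.ch (nat_lit 1)
 (.ev (nat_lit 1856) (nat_lit 2048) (.ev (nat_lit 2004) (nat_lit 4096) (.ev (nat_lit 2180) (nat_lit 32) (.ev
 (nat_lit 2189) (nat_lit 64) .dd))))) (.br (nat_lit 5) (.ch (nat_lit 4) (.ev (nat_lit 1856) (nat_lit 32) (.ev
 (nat_lit 6160) (nat_lit 64) (.ev (nat_lit 6596) (nat_lit 4096) (.ev (nat_lit 6605) (nat_lit 2048) .dd)))))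
 (.ch (nat_lit 5) (.ev (nat_lit 1856) (nat_lit 4096) (.ev (nat_lit 1876) (nat_lit 2048) (.ev (nat_lit 6192)
 (nat_lit 96) .dd)))))) (.br (nat_lit 9) (.br (nat_lit 8) (.ch (nat_lit 7) (.ev (nat_lit 1856) (nat_lit 96)
 (.ev (nat_lit 2900) (nat_lit 4096) (.ev (nat_lit 2909) (nat_lit 2048) .dd)))) (.ch (nat_lit 8) (.ev (nat_lit
 1856) (nat_lit 2112) (.ev (nat_lit 2180) (nat_lit 32) (.ev (nat_lit 2189) (nat_lit 4096) .dd))))) (.br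
 (nat_lit 11) (.ch (nat_lit 9) (.ev (nat_lit 1856) (nat_lit 32) (.ev (nat_lit 1876) (nat_lit 2048) (.ev
 (nat_lit 2868) (nat_lit 4096) (.ev (nat_lit 2877) (nat_lit 64) .dd))))) (.ch (nat_lit 11) (.ev (nat_lit 1856)
 (nat_lit 4096) (.ev (nat_lit 1908) (nat_lit 2048) (.ev (nat_lit 2180) (nat_lit 32) (.ev (nat_lit 2189)
 (nat_lit 64) .dd)))))))))))) (.ch (nat_lit 9) (.ev (nat_lit 896) (nat_lit 2052) (.nd (nat_lit 1968) (.br
 (nat_lit 7) (.br (nat_lit 4) (.br (nat_lit 2) (.ch (nat_lit 1) (.ev (nat_lit 2180) (nat_lit 32768) (.ev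
 (nat_lit 3892) (nat_lit 32) (.ev (nat_lit 5140) (nat_lit 64) (.ev (nat_lit 5149) (nat_lit 4096) .dd))))) (.ch
 (nat_lit 2) (.ev (nat_lit 1984) (nat_lit 4128) (.ev (nat_lit 2180) (nat_lit 32768) (.ev (nat_lit 2189)
 (nat_lit 64) .dd))))) (.br (nat_lit 5) (.ch (nat_lit 4) (.ev (nat_lit 1984) (nat_lit 36928) (.ev (nat_lit
 1997) (nat_lit 32) .dd))) (.ch (nat_lit 5) (.ev (nat_lit 1984) (nat_lit 32800) (.ev (nat_lit 2036) (nat_lit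
 4096) (.ev (nat_lit 2045) (nat_lit 64) .dd)))))) (.br (nat_lit 9) (.br (nat_lit 8) (.ch (nat_lit 7) (.ev
 (nat_lit 1984) (nat_lit 32800) (.ev (nat_lit 5572) (nat_lit 4096) (.ev (nat_lit 5581) (nat_lit 64) .dd))))
 (.ch (nat_lit 8) (.ev (nat_lit 1984) (nat_lit 32) (.ev (nat_lit 2036) (nat_lit 4096) (.ev (nat_lit 5876)
 (nat_lit 32768) (.ev (nat_lit 5885) (nat_lit 64) .dd)))))) (.br (nat_lit 10) (.ch (nat_lit 9) (.ev (nat_lit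
 1984) (nat_lit 4192) (.ev (nat_lit 1997) (nat_lit 32768) .dd))) (.ch (nat_lit 10) (.ev (nat_lit 2164) (nat_lit
 32768) (.ev (nat_lit 2388) (nat_lit 32) (.ev (nat_lit 6596) (nat_lit 64) (.ev (nat_lit 6605) (nat_lit 4096)
 .dd)))))))))))) (.br (nat_lit 11) (.ch (nat_lit 10) (.ev (nat_lit 896) (nat_lit 32800) (.ev (nat_lit 1044)
 (nat_lit 2048) (.nd (nat_lit 2624) (.br (nat_lit 4) (.br (nat_lit 2) (.br (nat_lit 1) (.ch (nat_lit 0) (.ev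
 (nat_lit 2640) (nat_lit 68) (.ev (nat_lit 2653) (nat_lit 4096) .dd))) (.ch (nat_lit 1) (.ev (nat_lit 2640)
 (nat_lit 4096) (.ev (nat_lit 2676) (nat_lit 4) (.ev (nat_lit 2685) (nat_lit 64) .dd))))) (.br (nat_lit 3) (.ch
 (nat_lit 2) (.ev (nat_lit 2640) (nat_lit 4160) (.ev (nat_lit 2653) (nat_lit 4) .dd))) (.ch (nat_lit 3) (.ev
 (nat_lit 2640) (nat_lit 4160) (.ev (nat_lit 2653) (nat_lit 4) .dd))))) (.br (nat_lit 6) (.br (nat_lit 5) (.ch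
 (nat_lit 4) (.ev (nat_lit 2788) (nat_lit 4) (.ev (nat_lit 2868) (nat_lit 64) (.ev (nat_lit 2877) (nat_lit
 4096) .dd)))) (.ch (nat_lit 5) (.ev (nat_lit 2640) (nat_lit 4) (.ev (nat_lit 2676) (nat_lit 4096) (.ev
 (nat_lit 2685) (nat_lit 64) .dd))))) (.br (nat_lit 7) (.ch (nat_lit 6) (.ev (nat_lit 2868) (nat_lit 64) (.ev
 (nat_lit 5492) (nat_lit 4096) (.ev (nat_lit 5501) (nat_lit 4) .dd)))) (.br (nat_lit 10) (.ch (nat_lit 7) (.ev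
 (nat_lit 2640) (nat_lit 4) (.ev (nat_lit 2676) (nat_lit 4096) (.ev (nat_lit 2685) (nat_lit 64) .dd)))) (.ch
 (nat_lit 10) (.ev (nat_lit 2640) (nat_lit 68) (.ev (nat_lit 2653) (nat_lit 4096) .dd))))))))))) (.br (nat_lit
 12) (.ch (nat_lit 11) (.ev (nat_lit 896) (nat_lit 4096) (.ev (nat_lit 1044) (nat_lit 2048) (.ev (nat_lit 1332)
 (nat_lit 32768) (.nd (nat_lit 2624) (.br (nat_lit 5) (.br (nat_lit 3) (.br (nat_lit 1) (.ch (nat_lit 0) (.ev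
 (nat_lit 3540) (nat_lit 36) (.ev (nat_lit 3549) (nat_lit 64) .dd))) (.ch (nat_lit 1) (.ev (nat_lit 2640)
 (nat_lit 32) (.ev (nat_lit 5492) (nat_lit 4) (.ev (nat_lit 5501) (nat_lit 64) .dd))))) (.br (nat_lit 4) (.ch
 (nat_lit 3) (.ev (nat_lit 2640) (nat_lit 96) (.ev (nat_lit 2653) (nat_lit 4) .dd))) (.ch (nat_lit 4) (.ev
 (nat_lit 2640) (nat_lit 100) .dd)))) (.br (nat_lit 7) (.br (nat_lit 6) (.ch (nat_lit 5) (.ev (nat_lit 2640)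
 (nat_lit 100) .dd)) (.ch (nat_lit 6) (.ev (nat_lit 2640) (nat_lit 4) (.ev (nat_lit 3604) (nat_lit 32) (.ev
 (nat_lit 3613) (nat_lit 64) .dd))))) (.br (nat_lit 11) (.ch (nat_lit 7) (.ev (nat_lit 2640) (nat_lit 64) (.ev
 (nat_lit 3476) (nat_lit 4) (.ev (nat_lit 3485) (nat_lit 32) .dd)))) (.br (nat_lit 12) (.ch (nat_lit 11) (.ev
 (nat_lit 2640) (nat_lit 96) (.ev (nat_lit 2653) (nat_lit 4) .dd))) (.ch (nat_lit 12) (.ev (nat_lit 2676)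
 (nat_lit 32) (.ev (nat_lit 3540) (nat_lit 4) (.ev (nat_lit 3549) (nat_lit 64) .dd))))))))))))) (.ch (nat_lit
 12) (.ev (nat_lit 896) (nat_lit 100) (.nd (nat_lit 2128) (.br (nat_lit 6) (.br (nat_lit 3) (.ch (nat_lit 0)
 (.ev (nat_lit 2144) (nat_lit 2048) (.ev (nat_lit 2676) (nat_lit 4096) (.ev (nat_lit 2685) (nat_lit 32768)
 .dd)))) (.br (nat_lit 4) (.ch (nat_lit 3) (.ev (nat_lit 2144) (nat_lit 4096) (.ev (nat_lit 3616) (nat_lit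
 34816) .dd))) (.ch (nat_lit 4) (.ev (nat_lit 2144) (nat_lit 2048) (.ev (nat_lit 2676) (nat_lit 4096) (.ev
 (nat_lit 2685) (nat_lit 32768) .dd)))))) (.br (nat_lit 7) (.ch (nat_lit 6) (.ev (nat_lit 2144) (nat_lit 2048)
 (.ev (nat_lit 2848) (nat_lit 36864) .dd))) (.br (nat_lit 10) (.ch (nat_lit 7) (.ev (nat_lit 2144) (nat_lit
 32768) (.ev (nat_lit 2676) (nat_lit 4096) (.ev (nat_lit 2685) (nat_lit 2048) .dd)))) (.ch (nat_lit 10) (.ev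
 (nat_lit 2144) (nat_lit 4096) (.ev (nat_lit 2388) (nat_lit 2048) (.ev (nat_lit 2397) (nat_lit 32768)
 .dd)))))))))))))))))) (.br (nat_lit 10) (.ch (nat_lit 8) (.ev (nat_lit 448) (nat_lit 34852) (.ev (nat_lit 564)
 (nat_lit 2) (.nd (nat_lit 1264) (.br (nat_lit 4) (.br (nat_lit 2) (.br (nat_lit 1) (.ch (nat_lit 0) (.ev
 (nat_lit 1280) (nat_lit 64) (.ev (nat_lit 1293) (nat_lit 4096) .dd))) (.ch (nat_lit 1) (.ev (nat_lit 1280)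
 (nat_lit 4160) .dd))) (.br (nat_lit 3) (.ch (nat_lit 2) (.ev (nat_lit 1332) (nat_lit 4096) (.ev (nat_lit 1341)
 (nat_lit 64) .dd))) (.ch (nat_lit 3) (.ev (nat_lit 1280) (nat_lit 64) (.ev (nat_lit 1293) (nat_lit 4096)
 .dd))))) (.br (nat_lit 9) (.br (nat_lit 8) (.ch (nat_lit 4) (.ev (nat_lit 1364) (nat_lit 4096) (.ev (nat_lit
 1373) (nat_lit 64) .dd))) (.ch (nat_lit 8) (.ev (nat_lit 1280) (nat_lit 4096) (.ev (nat_lit 1293) (nat_lit 64)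
 .dd)))) (.br (nat_lit 10) (.ch (nat_lit 9) (.ev (nat_lit 1300) (nat_lit 4096) (.ev (nat_lit 1309) (nat_lit 64)
 .dd))) (.br (nat_lit 12) (.ch (nat_lit 10) (.ev (nat_lit 1280) (nat_lit 4160) .dd)) (.ch (nat_lit 12) (.nd
 (nat_lit 3984) (.br (nat_lit 10) (.ch (nat_lit 1) (.ev (nat_lit 4020) (nat_lit 64) (.ev (nat_lit 4029)
 (nat_lit 4096) .dd))) (.ch (nat_lit 10) (.fin (nat_lit 576425018152927822)))))))))))))) (.br (nat_lit 11) (.ch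
 (nat_lit 10) (.nd (nat_lit 784) (.br (nat_lit 7) (.br (nat_lit 5) (.br (nat_lit 4) (.ch (nat_lit 0) (.ev
 (nat_lit 800) (nat_lit 32768) (.ev (nat_lit 1044) (nat_lit 2) (.nd (nat_lit 1408) (.br (nat_lit 8) (.br
 (nat_lit 6) (.br (nat_lit 5) (.ch (nat_lit 2) (.ev (nat_lit 1424) (nat_lit 68) (.ev (nat_lit 1492) (nat_lit
 4096) (.nd (nat_lit 4416) (.br (nat_lit 10) (.br (nat_lit 3) (.ch (nat_lit 0) (.ev (nat_lit 4432) (nat_lit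
 2048) (.ev (nat_lit 4445) (nat_lit 32) .dd))) (.br (nat_lit 6) (.ch (nat_lit 3) (.ev (nat_lit 4932) (nat_lit
 32) (.ev (nat_lit 4941) (nat_lit 2048) .dd))) (.ch (nat_lit 6) (.ev (nat_lit 4432) (nat_lit 2080) .dd)))) (.br
 (nat_lit 11) (.ch (nat_lit 10) (.ev (nat_lit 4432) (nat_lit 2080) .dd)) (.br (nat_lit 12) (.ch (nat_lit 11)
 (.ev (nat_lit 6032) (nat_lit 2048) (.ev (nat_lit 6045) (nat_lit 32) .dd))) (.ch (nat_lit 12) (.ev (nat_lit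
 4432) (nat_lit 2048) (.ev (nat_lit 4445) (nat_lit 32) .dd)))))))))) (.ch (nat_lit 5) (.ev (nat_lit 1424)
 (nat_lit 4132) (.ev (nat_lit 2224) (nat_lit 2048) (.ev (nat_lit 2237) (nat_lit 64) .dd))))) (.br (nat_lit 7)
 (.ch (nat_lit 6) (.ev (nat_lit 1424) (nat_lit 2052) (.nd (nat_lit 4304) (.br (nat_lit 6) (.br (nat_lit 4) (.ch
 (nat_lit 1) (.ev (nat_lit 4320) (nat_lit 64) (.ev (nat_lit 4356) (nat_lit 32) (.ev (nat_lit 4365) (nat_lit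
 4096) .dd)))) (.ch (nat_lit 4) (.ev (nat_lit 6964) (nat_lit 4096) (.nd (nat_lit 8416) (.br (nat_lit 4) (.ch
 (nat_lit 0) (.fin (nat_lit 576416222084022847))) (.ch (nat_lit 4) (.ev (nat_lit 8432) (nat_lit 32) (.ev
 (nat_lit 8445) (nat_lit 64) .dd)))))))) (.br (nat_lit 7) (.ch (nat_lit 6) (.ev (nat_lit 4320) (nat_lit 64)
 (.ev (nat_lit 5604) (nat_lit 32) (.ev (nat_lit 5613) (nat_lit 4096) .dd)))) (.ch (nat_lit 7) (.ev (nat_lit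
 4320) (nat_lit 32) (.ev (nat_lit 4468) (nat_lit 4096) (.ev (nat_lit 4477) (nat_lit 64) .dd))))))))) (.ch
 (nat_lit 7) (.ev (nat_lit 1424) (nat_lit 6148) (.nd (nat_lit 4416) (.br (nat_lit 12) (.ch (nat_lit 10) (.ev
 (nat_lit 4432) (nat_lit 64) (.ev (nat_lit 4445) (nat_lit 32) .dd))) (.ch (nat_lit 12) (.ev (nat_lit 4996)
 (nat_lit 32) (.ev (nat_lit 5005) (nat_lit 64) .dd))))))))) (.br (nat_lit 10) (.br (nat_lit 9) (.ch (nat_lit 8)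
 (.ev (nat_lit 1424) (nat_lit 2052) (.ev (nat_lit 5776) (nat_lit 64) (.ev (nat_lit 6900) (nat_lit 32) (.ev
 (nat_lit 6909) (nat_lit 4096) .dd))))) (.ch (nat_lit 9) (.ev (nat_lit 1424) (nat_lit 96) (.ev (nat_lit 6500)
 (nat_lit 4096) (.ev (nat_lit 6692) (nat_lit 2048) (.ev (nat_lit 6701) (nat_lit 4) .dd)))))) (.br (nat_lit 11)
 (.ch (nat_lit 10) (.ev (nat_lit 1424) (nat_lit 64) (.ev (nat_lit 4644) (nat_lit 32) (.ev (nat_lit 5444)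
 (nat_lit 4) (.ev (nat_lit 6020) (nat_lit 4096) (.ev (nat_lit 6029) (nat_lit 2048) .dd)))))) (.br (nat_lit 12)
 (.ch (nat_lit 11) (.ev (nat_lit 1424) (nat_lit 96) (.ev (nat_lit 1492) (nat_lit 4096) (.ev (nat_lit 2484)
 (nat_lit 2048) (.ev (nat_lit 2493) (nat_lit 4) .dd))))) (.ch (nat_lit 12) (.ev (nat_lit 1424) (nat_lit 4160)
 (.ev (nat_lit 1492) (nat_lit 4) (.ev (nat_lit 2788) (nat_lit 32) (.ev (nat_lit 2797) (nat_lit 2048)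
 .dd))))))))))))) (.ch (nat_lit 4) (.ev (nat_lit 800) (nat_lit 38912) (.nd (nat_lit 1552) (.br (nat_lit 6) (.br
 (nat_lit 4) (.br (nat_lit 3) (.ch (nat_lit 2) (.ev (nat_lit 1568) (nat_lit 2) (.nd (nat_lit 4304) (.br
 (nat_lit 6) (.br (nat_lit 5) (.ch (nat_lit 3) (.ev (nat_lit 4320) (nat_lit 32) (.ev (nat_lit 4768) (nat_lit
 64) (.ev (nat_lit 4781) (nat_lit 4) .dd)))) (.ch (nat_lit 5) (.ev (nat_lit 4832) (nat_lit 4) (.ev (nat_lit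
 6148) (nat_lit 64) (.ev (nat_lit 6157) (nat_lit 32) .dd))))) (.br (nat_lit 8) (.ch (nat_lit 6) (.ev (nat_lit
 4320) (nat_lit 32) (.ev (nat_lit 4996) (nat_lit 64) (.ev (nat_lit 5005) (nat_lit 4) .dd)))) (.br (nat_lit 12)
 (.ch (nat_lit 8) (.ev (nat_lit 5188) (nat_lit 4) (.ev (nat_lit 6452) (nat_lit 64) (.ev (nat_lit 6461) (nat_lit
 32) .dd)))) (.ch (nat_lit 12) (.ev (nat_lit 4692) (nat_lit 32) (.nd (nat_lit 8080) (.br (nat_lit 12) (.ch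
 (nat_lit 6) (.ev (nat_lit 8096) (nat_lit 64) (.ev (nat_lit 8109) (nat_lit 4) .dd))) (.ch (nat_lit 12) (.fin
 (nat_lit 576461302187639340))))))))))))) (.ch (nat_lit 3) (.ev (nat_lit 1568) (nat_lit 100) (.ev (nat_lit
 1581) (nat_lit 2) .dd)))) (.br (nat_lit 5) (.ch (nat_lit 4) (.ev (nat_lit 1568) (nat_lit 70) (.ev (nat_lit
 1581) (nat_lit 32) .dd))) (.ch (nat_lit 5) (.ev (nat_lit 1568) (nat_lit 68) (.ev (nat_lit 6868) (nat_lit 2)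
 (.ev (nat_lit 6877) (nat_lit 32) .dd)))))) (.br (nat_lit 9) (.br (nat_lit 8) (.ch (nat_lit 6) (.nd (nat_lit
 3984) (.br (nat_lit 6) (.br (nat_lit 5) (.ch (nat_lit 4) (.ev (nat_lit 4000) (nat_lit 66) (.ev (nat_lit 5444)
 (nat_lit 32) (.ev (nat_lit 5453) (nat_lit 4) .dd)))) (.ch (nat_lit 5) (.ev (nat_lit 4000) (nat_lit 34) (.ev
 (nat_lit 4356) (nat_lit 4) (.ev (nat_lit 4365) (nat_lit 64) .dd))))) (.br (nat_lit 9) (.ch (nat_lit 6) (.ev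
 (nat_lit 4000) (nat_lit 64) (.ev (nat_lit 4276) (nat_lit 32) (.ev (nat_lit 6260) (nat_lit 4) (.ev (nat_lit
 6269) (nat_lit 2) .dd))))) (.br (nat_lit 11) (.ch (nat_lit 9) (.ev (nat_lit 4000) (nat_lit 4) (.ev (nat_lit
 4356) (nat_lit 2) (.ev (nat_lit 5364) (nat_lit 32) (.ev (nat_lit 5373) (nat_lit 64) .dd))))) (.ch (nat_lit 11)
 (.ev (nat_lit 4000) (nat_lit 68) (.ev (nat_lit 4276) (nat_lit 32) (.ev (nat_lit 4285) (nat_lit 2) .dd)))))))))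
 (.ch (nat_lit 8) (.ev (nat_lit 1568) (nat_lit 32) (.ev (nat_lit 1876) (nat_lit 2) (.ev (nat_lit 6596) (nat_lit
 4) (.ev (nat_lit 6605) (nat_lit 64) .dd)))))) (.br (nat_lit 11) (.ch (nat_lit 9) (.ev (nat_lit 1568) (nat_lit
 34) (.ev (nat_lit 5540) (nat_lit 4) (.ev (nat_lit 5549) (nat_lit 64) .dd)))) (.ch (nat_lit 11) (.ev (nat_lit
 1568) (nat_lit 2) (.nd (nat_lit 4304) (.br (nat_lit 7) (.br (nat_lit 1) (.ch (nat_lit 0) (.ev (nat_lit 4320)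
 (nat_lit 64) (.ev (nat_lit 6596) (nat_lit 32) (.ev (nat_lit 6605) (nat_lit 4) .dd)))) (.br (nat_lit 4) (.ch
 (nat_lit 1) (.ev (nat_lit 4320) (nat_lit 32) (.ev (nat_lit 4692) (nat_lit 4) (.ev (nat_lit 4701) (nat_lit 64)
 .dd)))) (.ch (nat_lit 4) (.ev (nat_lit 4756) (nat_lit 32) (.ev (nat_lit 5844) (nat_lit 64) (.ev (nat_lit 5853)
 (nat_lit 4) .dd)))))) (.br (nat_lit 11) (.ch (nat_lit 7) (.ev (nat_lit 4320) (nat_lit 64) (.ev (nat_lit 6260)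
 (nat_lit 32) (.ev (nat_lit 6269) (nat_lit 4) .dd)))) (.br (nat_lit 12) (.ch (nat_lit 11) (.ev (nat_lit 4656)
 (nat_lit 64) (.ev (nat_lit 5888) (nat_lit 36) .dd))) (.ch (nat_lit 12) (.ev (nat_lit 5844) (nat_lit 64) (.fin
 (nat_lit 576550362492125753))))))))))))))))) (.br (nat_lit 6) (.ch (nat_lit 5) (.ev (nat_lit 800) (nat_lit
 2116) (.nd (nat_lit 1968) (.br (nat_lit 5) (.br (nat_lit 3) (.br (nat_lit 1) (.ch (nat_lit 0) (.ev (nat_lit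
 1984) (nat_lit 4128) (.ev (nat_lit 5140) (nat_lit 32768) (.ev (nat_lit 5149) (nat_lit 2) .dd)))) (.ch (nat_lit
 1) (.ev (nat_lit 1984) (nat_lit 4096) (.ev (nat_lit 3700) (nat_lit 32768) (.ev (nat_lit 5572) (nat_lit 32)
 (.ev (nat_lit 5581) (nat_lit 2) .dd)))))) (.br (nat_lit 4) (.ch (nat_lit 3) (.ev (nat_lit 1984) (nat_lit 4128)
 (.ev (nat_lit 2180) (nat_lit 2) (.ev (nat_lit 2189) (nat_lit 32768) .dd)))) (.ch (nat_lit 4) (.ev (nat_lit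
 1984) (nat_lit 4098) (.ev (nat_lit 2004) (nat_lit 32) (.ev (nat_lit 2013) (nat_lit 32768) .dd)))))) (.br
 (nat_lit 9) (.br (nat_lit 7) (.ch (nat_lit 5) (.ev (nat_lit 1984) (nat_lit 36864) (.ev (nat_lit 5140) (nat_lit
 2) (.ev (nat_lit 5149) (nat_lit 32) .dd)))) (.ch (nat_lit 7) (.ev (nat_lit 2004) (nat_lit 32) (.ev (nat_lit
 2164) (nat_lit 2) (.ev (nat_lit 2388) (nat_lit 4096) (.ev (nat_lit 2397) (nat_lit 32768) .dd)))))) (.br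
 (nat_lit 11) (.ch (nat_lit 9) (.ev (nat_lit 1984) (nat_lit 32770) (.ev (nat_lit 3220) (nat_lit 4096) (.ev
 (nat_lit 3229) (nat_lit 32) .dd)))) (.ch (nat_lit 11) (.ev (nat_lit 1984) (nat_lit 32) (.ev (nat_lit 2164)
 (nat_lit 2) (.ev (nat_lit 2740) (nat_lit 32768) (.ev (nat_lit 2749) (nat_lit 4096) .dd))))))))))) (.ch
 (nat_lit 6) (.ev (nat_lit 800) (nat_lit 36962) (.nd (nat_lit 2624) (.br (nat_lit 11) (.ch (nat_lit 1) (.ev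
 (nat_lit 6176) (nat_lit 2052) .dd)) (.ch (nat_lit 11) (.ev (nat_lit 4020) (nat_lit 4) (.ev (nat_lit 4029)
 (nat_lit 2048) .dd))))))))) (.br (nat_lit 10) (.br (nat_lit 8) (.ch (nat_lit 7) (.ev (nat_lit 800) (nat_lit
 32870) (.nd (nat_lit 2128) (.br (nat_lit 7) (.br (nat_lit 2) (.ch (nat_lit 1) (.ev (nat_lit 2144) (nat_lit
 4096) (.ev (nat_lit 2157) (nat_lit 2048) .dd))) (.br (nat_lit 6) (.ch (nat_lit 2) (.ev (nat_lit 3044) (nat_lit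
 4096) (.ev (nat_lit 3053) (nat_lit 2048) .dd))) (.ch (nat_lit 6) (.ev (nat_lit 2144) (nat_lit 2048) (.ev
 (nat_lit 2157) (nat_lit 4096) .dd))))) (.br (nat_lit 8) (.ch (nat_lit 7) (.ev (nat_lit 3012) (nat_lit 2048)
 (.ev (nat_lit 3021) (nat_lit 4096) .dd))) (.br (nat_lit 11) (.ch (nat_lit 8) (.ev (nat_lit 2144) (nat_lit
 2048) (.ev (nat_lit 2157) (nat_lit 4096) .dd))) (.ch (nat_lit 11) (.ev (nat_lit 2164) (nat_lit 4096) (.ev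
 (nat_lit 2173) (nat_lit 2048) .dd))))))))) (.ch (nat_lit 8) (.ev (nat_lit 800) (nat_lit 2) (.nd (nat_lit 1744)
 (.br (nat_lit 4) (.br (nat_lit 2) (.br (nat_lit 1) (.ch (nat_lit 0) (.ev (nat_lit 1760) (nat_lit 34912) (.ev
 (nat_lit 1876) (nat_lit 4096) (.ev (nat_lit 1885) (nat_lit 4) .dd)))) (.ch (nat_lit 1) (.ev (nat_lit 1760)
 (nat_lit 38944) (.ev (nat_lit 4996) (nat_lit 4) (.ev (nat_lit 5005) (nat_lit 64) .dd))))) (.br (nat_lit 3)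
 (.ch (nat_lit 2) (.ev (nat_lit 1760) (nat_lit 32) (.ev (nat_lit 1796) (nat_lit 2048) (.ev (nat_lit 4692)
 (nat_lit 4096) (.ev (nat_lit 5572) (nat_lit 32768) (.ev (nat_lit 5668) (nat_lit 4) (.ev (nat_lit 5677)
 (nat_lit 64) .dd))))))) (.ch (nat_lit 3) (.ev (nat_lit 1760) (nat_lit 32768) (.ev (nat_lit 3044) (nat_lit
 2048) (.nd (nat_lit 4592) (.br (nat_lit 8) (.br (nat_lit 6) (.ch (nat_lit 3) (.ev (nat_lit 4608) (nat_lit
 4128) (.ev (nat_lit 5140) (nat_lit 4) (.ev (nat_lit 5149) (nat_lit 64) .dd)))) (.br (nat_lit 7) (.ch (nat_lit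
 6) (.ev (nat_lit 4608) (nat_lit 4) (.ev (nat_lit 6160) (nat_lit 32) (.ev (nat_lit 6868) (nat_lit 64) (.ev
 (nat_lit 6877) (nat_lit 4096) .dd))))) (.ch (nat_lit 7) (.ev (nat_lit 4608) (nat_lit 36) (.ev (nat_lit 5300)
 (nat_lit 4096) (.ev (nat_lit 5309) (nat_lit 64) .dd)))))) (.br (nat_lit 9) (.ch (nat_lit 8) (.ev (nat_lit
 4608) (nat_lit 32) (.ev (nat_lit 5312) (nat_lit 64) (.ev (nat_lit 5392) (nat_lit 4100) .dd)))) (.br (nat_lit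
 11) (.ch (nat_lit 9) (.ev (nat_lit 4608) (nat_lit 4164) (.ev (nat_lit 4621) (nat_lit 32) .dd))) (.ch (nat_lit
 11) (.ev (nat_lit 4608) (nat_lit 64) (.ev (nat_lit 4644) (nat_lit 4096) (.ev (nat_lit 6020) (nat_lit 32) (.ev
 (nat_lit 6029) (nat_lit 4) .dd)))))))))))))) (.br (nat_lit 8) (.br (nat_lit 6) (.ch (nat_lit 4) (.ev (nat_lit
 1760) (nat_lit 34852) (.ev (nat_lit 6260) (nat_lit 4096) (.ev (nat_lit 6269) (nat_lit 64) .dd)))) (.ch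
 (nat_lit 6) (.ev (nat_lit 1760) (nat_lit 4192) (.ev (nat_lit 2788) (nat_lit 2048) (.ev (nat_lit 6644) (nat_lit
 4) (.ev (nat_lit 6653) (nat_lit 32768) .dd)))))) (.br (nat_lit 9) (.ch (nat_lit 8) (.ev (nat_lit 1760)
 (nat_lit 2052) (.ev (nat_lit 2948) (nat_lit 32) (.ev (nat_lit 6596) (nat_lit 4096) (.ev (nat_lit 7188)
 (nat_lit 32768) (.ev (nat_lit 7197) (nat_lit 64) .dd)))))) (.br (nat_lit 11) (.ch (nat_lit 9) (.ev (nat_lit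
 1760) (nat_lit 4192) (.ev (nat_lit 3700) (nat_lit 32768) (.ev (nat_lit 6272) (nat_lit 2048) (.ev (nat_lit
 6285) (nat_lit 4) .dd))))) (.ch (nat_lit 11) (.ev (nat_lit 1760) (nat_lit 2052) (.ev (nat_lit 2180) (nat_lit
 32768) (.nd (nat_lit 4416) (.br (nat_lit 9) (.br (nat_lit 8) (.ch (nat_lit 0) (.ev (nat_lit 4432) (nat_lit 64)
 (.ev (nat_lit 4468) (nat_lit 4096) (.ev (nat_lit 4477) (nat_lit 32) .dd)))) (.ch (nat_lit 8) (.ev (nat_lit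
 4960) (nat_lit 64) (.ev (nat_lit 4996) (nat_lit 4096) (.ev (nat_lit 5005) (nat_lit 32) .dd))))) (.br (nat_lit
 11) (.ch (nat_lit 9) (.ev (nat_lit 4432) (nat_lit 32) (.ev (nat_lit 4468) (nat_lit 4096) (.ev (nat_lit 4477)
 (nat_lit 64) .dd)))) (.ch (nat_lit 11) (.ev (nat_lit 4432) (nat_lit 32) (.ev (nat_lit 5764) (nat_lit 4096)
 (.ev (nat_lit 5773) (nat_lit 64) .dd)))))))))))))))))) (.br (nat_lit 11) (.ch (nat_lit 10) (.ev (nat_lit 800)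
 (nat_lit 2) (.ev (nat_lit 980) (nat_lit 4096) (.nd (nat_lit 1552) (.br (nat_lit 8) (.br (nat_lit 5) (.br
 (nat_lit 4) (.ch (nat_lit 2) (.ev (nat_lit 1568) (nat_lit 2052) (.ev (nat_lit 6356) (nat_lit 32768) (.ev
 (nat_lit 6500) (nat_lit 32) (.ev (nat_lit 6509) (nat_lit 64) .dd))))) (.ch (nat_lit 4) (.ev (nat_lit 1568)
 (nat_lit 2052) (.ev (nat_lit 1588) (nat_lit 32) (.ev (nat_lit 1908) (nat_lit 32768) (.ev (nat_lit 1917)
 (nat_lit 64) .dd)))))) (.br (nat_lit 6) (.ch (nat_lit 5) (.ev (nat_lit 1568) (nat_lit 32772) (.ev (nat_lit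
 6260) (nat_lit 32) (.nd (nat_lit 7488) (.br (nat_lit 10) (.ch (nat_lit 3) (.ev (nat_lit 7504) (nat_lit 2112)
 .dd)) (.ch (nat_lit 10) (.fin (nat_lit 587513593173860627)))))))) (.ch (nat_lit 6) (.ev (nat_lit 1568)
 (nat_lit 32) (.ev (nat_lit 2004) (nat_lit 64) (.ev (nat_lit 3604) (nat_lit 32768) (.ev (nat_lit 6356) (nat_lit
 2048) (.ev (nat_lit 6365) (nat_lit 4) .dd)))))))) (.br (nat_lit 10) (.br (nat_lit 9) (.ch (nat_lit 8) (.ev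
 (nat_lit 1568) (nat_lit 96) (.ev (nat_lit 3604) (nat_lit 32768) (.ev (nat_lit 6704) (nat_lit 4) (.ev (nat_lit
 6717) (nat_lit 2048) .dd))))) (.ch (nat_lit 9) (.ev (nat_lit 1568) (nat_lit 34884) (.ev (nat_lit 1581)
 (nat_lit 32) .dd)))) (.br (nat_lit 11) (.ch (nat_lit 10) (.ev (nat_lit 1568) (nat_lit 32768) (.nd (nat_lit
 4304) (.br (nat_lit 7) (.br (nat_lit 4) (.ch (nat_lit 0) (.ev (nat_lit 4320) (nat_lit 64) (.ev (nat_lit 5056)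
 (nat_lit 4) (.ev (nat_lit 6148) (nat_lit 2048) (.ev (nat_lit 6157) (nat_lit 32) .dd))))) (.ch (nat_lit 4) (.ev
 (nat_lit 4320) (nat_lit 68) (.ev (nat_lit 4768) (nat_lit 32) (.ev (nat_lit 4781) (nat_lit 2048) .dd))))) (.br
 (nat_lit 11) (.ch (nat_lit 7) (.ev (nat_lit 4320) (nat_lit 4) (.ev (nat_lit 4388) (nat_lit 2048) (.ev (nat_lit
 4724) (nat_lit 32) (.ev (nat_lit 4733) (nat_lit 64) .dd))))) (.br (nat_lit 12) (.ch (nat_lit 11) (.ev (nat_lit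
 4320) (nat_lit 2112) (.fin (nat_lit 576399729467277936)))) (.ch (nat_lit 12) (.ev (nat_lit 4320) (nat_lit 4)
 (.ev (nat_lit 4388) (nat_lit 2048) (.ev (nat_lit 5236) (nat_lit 32) (.ev (nat_lit 5245) (nat_lit 64)
 .dd))))))))))) (.ch (nat_lit 11) (.ev (nat_lit 1568) (nat_lit 32832) (.nd (nat_lit 4864) (.br (nat_lit 8) (.br
 (nat_lit 4) (.ch (nat_lit 3) (.ev (nat_lit 4880) (nat_lit 2080) (.ev (nat_lit 4893) (nat_lit 4) .dd))) (.br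
 (nat_lit 7) (.ch (nat_lit 4) (.ev (nat_lit 4932) (nat_lit 4) (.ev (nat_lit 4996) (nat_lit 32) (.ev (nat_lit
 5005) (nat_lit 2048) .dd)))) (.ch (nat_lit 7) (.ev (nat_lit 4880) (nat_lit 2048) (.ev (nat_lit 4932) (nat_lit
 32) (.ev (nat_lit 4941) (nat_lit 4) .dd)))))) (.br (nat_lit 9) (.ch (nat_lit 8) (.ev (nat_lit 4880) (nat_lit
 4) (.ev (nat_lit 5236) (nat_lit 2048) (.ev (nat_lit 5245) (nat_lit 32) .dd)))) (.br (nat_lit 10) (.ch (nat_lit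
 9) (.ev (nat_lit 4880) (nat_lit 2080) (.ev (nat_lit 4893) (nat_lit 4) .dd))) (.ch (nat_lit 10) (.ev (nat_lit
 4880) (nat_lit 2048) (.ev (nat_lit 4960) (nat_lit 36) .dd)))))))))))))))) (.br (nat_lit 12) (.ch (nat_lit 11)
 (.ev (nat_lit 800) (nat_lit 6144) (.ev (nat_lit 1044) (nat_lit 32768) (.nd (nat_lit 1648) (.br (nat_lit 6)
 (.br (nat_lit 2) (.br (nat_lit 1) (.ch (nat_lit 0) (.ev (nat_lit 1664) (nat_lit 68) (.ev (nat_lit 6368)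
 (nat_lit 2) (.ev (nat_lit 6381) (nat_lit 32) .dd)))) (.ch (nat_lit 1) (.ev (nat_lit 1664) (nat_lit 2) (.ev
 (nat_lit 6544) (nat_lit 4) (.ev (nat_lit 6692) (nat_lit 64) (.ev (nat_lit 6701) (nat_lit 32) .dd)))))) (.br
 (nat_lit 4) (.ch (nat_lit 2) (.ev (nat_lit 1664) (nat_lit 4) (.ev (nat_lit 1892) (nat_lit 2) (.nd (nat_lit
 4224) (.br (nat_lit 2) (.br (nat_lit 1) (.ch (nat_lit 0) (.ev (nat_lit 4240) (nat_lit 64) (.ev (nat_lit 4253)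
 (nat_lit 32) .dd))) (.ch (nat_lit 1) (.ev (nat_lit 4944) (nat_lit 96) .dd))) (.br (nat_lit 5) (.ch (nat_lit 2)
 (.ev (nat_lit 4240) (nat_lit 32) (.ev (nat_lit 4253) (nat_lit 64) .dd))) (.ch (nat_lit 5) (.ev (nat_lit 4240)
 (nat_lit 64) (.ev (nat_lit 4253) (nat_lit 32) .dd))))))))) (.ch (nat_lit 4) (.ev (nat_lit 1664) (nat_lit 70)
 (.ev (nat_lit 1677) (nat_lit 32) .dd))))) (.br (nat_lit 9) (.br (nat_lit 8) (.ch (nat_lit 6) (.ev (nat_lit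
 1664) (nat_lit 66) (.ev (nat_lit 6356) (nat_lit 4) (.ev (nat_lit 6365) (nat_lit 32) .dd)))) (.ch (nat_lit 8)
 (.ev (nat_lit 1664) (nat_lit 34) (.ev (nat_lit 1780) (nat_lit 4) (.ev (nat_lit 1789) (nat_lit 64) .dd)))))
 (.br (nat_lit 10) (.ch (nat_lit 9) (.ev (nat_lit 1664) (nat_lit 66) (.ev (nat_lit 3044) (nat_lit 32) (.ev
 (nat_lit 3053) (nat_lit 4) .dd)))) (.br (nat_lit 12) (.ch (nat_lit 10) (.ev (nat_lit 1664) (nat_lit 34) (.ev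
 (nat_lit 1780) (nat_lit 4) (.ev (nat_lit 1789) (nat_lit 64) .dd)))) (.ch (nat_lit 12) (.ev (nat_lit 1664)
 (nat_lit 36) (.ev (nat_lit 6452) (nat_lit 2) (.ev (nat_lit 6461) (nat_lit 64) .dd)))))))))))) (.ch (nat_lit
 12) (.ev (nat_lit 800) (nat_lit 36) (.ev (nat_lit 932) (nat_lit 2048) (.ev (nat_lit 980) (nat_lit 4096) (.nd
 (nat_lit 1968) (.br (nat_lit 7) (.br (nat_lit 2) (.ch (nat_lit 1) (.ev (nat_lit 1984) (nat_lit 64) (.ev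
 (nat_lit 3012) (nat_lit 2) (.ev (nat_lit 3021) (nat_lit 32768) .dd)))) (.br (nat_lit 6) (.ch (nat_lit 2) (.ev
 (nat_lit 1984) (nat_lit 32770) (.ev (nat_lit 1997) (nat_lit 64) .dd))) (.ch (nat_lit 6) (.ev (nat_lit 2868)
 (nat_lit 2) (.ev (nat_lit 3604) (nat_lit 32768) (.ev (nat_lit 3613) (nat_lit 64) .dd)))))) (.br (nat_lit 11)
 (.br (nat_lit 10) (.ch (nat_lit 7) (.ev (nat_lit 1984) (nat_lit 64) (.ev (nat_lit 2372) (nat_lit 2) (.ev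
 (nat_lit 2381) (nat_lit 32768) .dd)))) (.ch (nat_lit 10) (.ev (nat_lit 1984) (nat_lit 2) (.ev (nat_lit 3540)
 (nat_lit 64) (.ev (nat_lit 3549) (nat_lit 32768) .dd))))) (.br (nat_lit 12) (.ch (nat_lit 11) (.ev (nat_lit
 1984) (nat_lit 64) (.ev (nat_lit 2372) (nat_lit 2) (.ev (nat_lit 2381) (nat_lit 32768) .dd)))) (.ch (nat_lit
 12) (.ev (nat_lit 1984) (nat_lit 32768) (.ev (nat_lit 2372) (nat_lit 2) (.ev (nat_lit 2381) (nat_lit 64)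
 .dd)))))))))))))))))) (.ch (nat_lit 11) (.ev (nat_lit 448) (nat_lit 38978) (.nd (nat_lit 1168) (.br (nat_lit
 4) (.br (nat_lit 2) (.ch (nat_lit 0) (.nd (nat_lit 2624) (.br (nat_lit 9) (.br (nat_lit 7) (.ch (nat_lit 3)
 (.ev (nat_lit 2676) (nat_lit 4) (.ev (nat_lit 2685) (nat_lit 32) .dd))) (.br (nat_lit 8) (.ch (nat_lit 7) (.ev
 (nat_lit 2788) (nat_lit 32) (.ev (nat_lit 2797) (nat_lit 4) .dd))) (.ch (nat_lit 8) (.ev (nat_lit 2640)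
 (nat_lit 32) (.ev (nat_lit 2653) (nat_lit 4) .dd))))) (.br (nat_lit 10) (.ch (nat_lit 9) (.ev (nat_lit 2676)
 (nat_lit 4) (.ev (nat_lit 2685) (nat_lit 32) .dd))) (.br (nat_lit 12) (.ch (nat_lit 10) (.ev (nat_lit 2640)
 (nat_lit 4) (.ev (nat_lit 2653) (nat_lit 32) .dd))) (.ch (nat_lit 12) (.ev (nat_lit 2640) (nat_lit 4) (.ev
 (nat_lit 2653) (nat_lit 32) .dd)))))))) (.br (nat_lit 3) (.ch (nat_lit 2) (.ev (nat_lit 1184) (nat_lit 4) (.ev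
 (nat_lit 1197) (nat_lit 32) .dd))) (.ch (nat_lit 3) (.nd (nat_lit 3408) (.br (nat_lit 11) (.ch (nat_lit 8)
 (.ev (nat_lit 3476) (nat_lit 4) (.ev (nat_lit 3485) (nat_lit 32) .dd))) (.ch (nat_lit 11) (.fin (nat_lit
 576812045700645305)))))))) (.br (nat_lit 7) (.br (nat_lit 6) (.ch (nat_lit 4) (.ev (nat_lit 1204) (nat_lit 4)
 (.ev (nat_lit 1213) (nat_lit 32) .dd))) (.ch (nat_lit 6) (.ev (nat_lit 1184) (nat_lit 32) (.ev (nat_lit 1197)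
 (nat_lit 4) .dd)))) (.br (nat_lit 8) (.ch (nat_lit 7) (.ev (nat_lit 1184) (nat_lit 32) (.ev (nat_lit 1197)
 (nat_lit 4) .dd))) (.ch (nat_lit 8) (.ev (nat_lit 3188) (nat_lit 4) (.ev (nat_lit 3197) (nat_lit 32)
 .dd))))))))))))))))) (.br (nat_lit 3) (.ch (nat_lit 2) (.ev (nat_lit 48) (nat_lit 6182) (.nd (nat_lit 576)
 (.br (nat_lit 5) (.br (nat_lit 2) (.br (nat_lit 1) (.ch (nat_lit 0) (.ev (nat_lit 592) (nat_lit 1280) (.nd
 (nat_lit 1168) (.br (nat_lit 4) (.br (nat_lit 2) (.ch (nat_lit 0) (.ev (nat_lit 1184) (nat_lit 32768) (.ev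
 (nat_lit 1204) (nat_lit 65536) (.ev (nat_lit 1213) (nat_lit 64) .dd)))) (.br (nat_lit 3) (.ch (nat_lit 2) (.ev
 (nat_lit 1184) (nat_lit 65536) (.nd (nat_lit 2336) (.br (nat_lit 7) (.br (nat_lit 4) (.ch (nat_lit 0) (.ev
 (nat_lit 6740) (nat_lit 64) (.ev (nat_lit 6749) (nat_lit 32768) .dd))) (.ch (nat_lit 4) (.ev (nat_lit 3332)
 (nat_lit 64) (.ev (nat_lit 3341) (nat_lit 32768) .dd)))) (.br (nat_lit 11) (.ch (nat_lit 7) (.ev (nat_lit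
 2676) (nat_lit 64) (.ev (nat_lit 2685) (nat_lit 32768) .dd))) (.br (nat_lit 12) (.ch (nat_lit 11) (.ev
 (nat_lit 2420) (nat_lit 32768) (.ev (nat_lit 2429) (nat_lit 64) .dd))) (.ch (nat_lit 12) (.ev (nat_lit 2388)
 (nat_lit 32768) (.ev (nat_lit 2397) (nat_lit 64) .dd))))))))) (.ch (nat_lit 3) (.ev (nat_lit 1204) (nat_lit
 65600) (.ev (nat_lit 1213) (nat_lit 32768) .dd))))) (.br (nat_lit 8) (.br (nat_lit 5) (.ch (nat_lit 4) (.ev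
 (nat_lit 1184) (nat_lit 64) (.nd (nat_lit 3408) (.br (nat_lit 12) (.ch (nat_lit 8) (.fin (nat_lit
 576962680163089696))) (.ch (nat_lit 12) (.ev (nat_lit 3540) (nat_lit 32768) (.ev (nat_lit 3549) (nat_lit
 65536) .dd))))))) (.ch (nat_lit 5) (.ev (nat_lit 1184) (nat_lit 65536) (.nd (nat_lit 1744) (.br (nat_lit 5)
 (.ch (nat_lit 3) (.ev (nat_lit 3488) (nat_lit 32832) .dd)) (.br (nat_lit 11) (.ch (nat_lit 5) (.ev (nat_lit
 3924) (nat_lit 64) (.ev (nat_lit 3933) (nat_lit 32768) .dd))) (.ch (nat_lit 11) (.ev (nat_lit 5444) (nat_lit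
 64) (.ev (nat_lit 5453) (nat_lit 32768) .dd))))))))) (.br (nat_lit 9) (.ch (nat_lit 8) (.nd (nat_lit 1968)
 (.br (nat_lit 7) (.br (nat_lit 3) (.ch (nat_lit 2) (.ev (nat_lit 1984) (nat_lit 32768) (.ev (nat_lit 6148)
 (nat_lit 64) (.ev (nat_lit 6157) (nat_lit 65536) .dd)))) (.br (nat_lit 6) (.ch (nat_lit 3) (.ev (nat_lit 1984)
 (nat_lit 65536) (.ev (nat_lit 2788) (nat_lit 64) (.ev (nat_lit 2797) (nat_lit 32768) .dd)))) (.ch (nat_lit 6)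
 (.ev (nat_lit 6788) (nat_lit 32768) (.fin (nat_lit 576430515832701428)))))) (.br (nat_lit 11) (.ch (nat_lit 7)
 (.ev (nat_lit 1984) (nat_lit 64) (.ev (nat_lit 6740) (nat_lit 32768) (.ev (nat_lit 6749) (nat_lit 65536)
 .dd)))) (.br (nat_lit 12) (.ch (nat_lit 11) (.ev (nat_lit 1984) (nat_lit 32768) (.ev (nat_lit 2388) (nat_lit
 64) (.ev (nat_lit 2397) (nat_lit 65536) .dd)))) (.ch (nat_lit 12) (.ev (nat_lit 1984) (nat_lit 65536) (.ev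
 (nat_lit 3440) (nat_lit 32832) .dd)))))))) (.ch (nat_lit 9) (.ev (nat_lit 1184) (nat_lit 32768) (.nd (nat_lit
 2128) (.br (nat_lit 5) (.ch (nat_lit 2) (.ev (nat_lit 3604) (nat_lit 64) (.ev (nat_lit 3613) (nat_lit 65536)
 .dd))) (.br (nat_lit 7) (.ch (nat_lit 5) (.ev (nat_lit 3076) (nat_lit 65536) (.ev (nat_lit 3085) (nat_lit 64)
 .dd))) (.ch (nat_lit 7) (.ev (nat_lit 5492) (nat_lit 64) (.ev (nat_lit 5501) (nat_lit 65536) .dd))))))))))))))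
 (.ch (nat_lit 1) (.ev (nat_lit 592) (nat_lit 99392) (.ev (nat_lit 605) (nat_lit 256) .dd)))) (.br (nat_lit 3)
 (.ch (nat_lit 2) (.ev (nat_lit 592) (nat_lit 99584) (.ev (nat_lit 605) (nat_lit 64) .dd))) (.ch (nat_lit 3)
 (.ev (nat_lit 592) (nat_lit 256) (.nd (nat_lit 1168) (.br (nat_lit 7) (.br (nat_lit 4) (.ch (nat_lit 0) (.ev
 (nat_lit 1184) (nat_lit 64) (.nd (nat_lit 2336) (.br (nat_lit 4) (.br (nat_lit 2) (.ch (nat_lit 1) (.ev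
 (nat_lit 2352) (nat_lit 1024) (.fin (nat_lit 576544864834372138)))) (.br (nat_lit 3) (.ch (nat_lit 2) (.ev
 (nat_lit 2352) (nat_lit 65536) (.ev (nat_lit 3700) (nat_lit 1024) (.ev (nat_lit 3709) (nat_lit 32768) .dd))))
 (.ch (nat_lit 3) (.ev (nat_lit 2372) (nat_lit 1024) (.ev (nat_lit 3012) (nat_lit 32768) (.ev (nat_lit 3021)
 (nat_lit 65536) .dd)))))) (.br (nat_lit 7) (.ch (nat_lit 4) (.ev (nat_lit 2352) (nat_lit 32768) (.ev (nat_lit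
 2484) (nat_lit 1024) (.ev (nat_lit 2493) (nat_lit 65536) .dd)))) (.br (nat_lit 8) (.ch (nat_lit 7) (.ev
 (nat_lit 2352) (nat_lit 65536) (.ev (nat_lit 2372) (nat_lit 1024) (.ev (nat_lit 2381) (nat_lit 32768) .dd))))
 (.ch (nat_lit 8) (.ev (nat_lit 2352) (nat_lit 65536) (.ev (nat_lit 2372) (nat_lit 1024) (.ev (nat_lit 2381)
 (nat_lit 32768) .dd)))))))))) (.br (nat_lit 5) (.ch (nat_lit 4) (.nd (nat_lit 2336) (.br (nat_lit 8) (.br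
 (nat_lit 4) (.ch (nat_lit 0) (.ev (nat_lit 2372) (nat_lit 1024) (.ev (nat_lit 3604) (nat_lit 64) (.ev (nat_lit
 3844) (nat_lit 32768) (.ev (nat_lit 3853) (nat_lit 65536) .dd))))) (.br (nat_lit 7) (.ch (nat_lit 4) (.ev
 (nat_lit 2352) (nat_lit 98304) (.ev (nat_lit 2372) (nat_lit 1024) (.ev (nat_lit 2381) (nat_lit 64) .dd))))
 (.ch (nat_lit 7) (.ev (nat_lit 2352) (nat_lit 64) (.ev (nat_lit 2372) (nat_lit 1024) (.ev (nat_lit 2388)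
 (nat_lit 65536) (.ev (nat_lit 2397) (nat_lit 32768) .dd))))))) (.br (nat_lit 11) (.br (nat_lit 10) (.ch
 (nat_lit 8) (.ev (nat_lit 2372) (nat_lit 1024) (.ev (nat_lit 2740) (nat_lit 32768) (.ev (nat_lit 2900)
 (nat_lit 65536) (.ev (nat_lit 2909) (nat_lit 64) .dd))))) (.ch (nat_lit 10) (.ev (nat_lit 2352) (nat_lit
 32768) (.ev (nat_lit 2372) (nat_lit 1024) (.ev (nat_lit 2388) (nat_lit 65536) (.ev (nat_lit 2397) (nat_lit 64)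
 .dd)))))) (.br (nat_lit 12) (.ch (nat_lit 11) (.ev (nat_lit 2352) (nat_lit 98304) (.ev (nat_lit 6788) (nat_lit
 64) (.ev (nat_lit 6797) (nat_lit 1024) .dd)))) (.ch (nat_lit 12) (.ev (nat_lit 2352) (nat_lit 1088) (.ev
 (nat_lit 2388) (nat_lit 65536) (.ev (nat_lit 2397) (nat_lit 32768) .dd))))))))) (.ch (nat_lit 5) (.ev (nat_lit
 1184) (nat_lit 98304) (.nd (nat_lit 3408) (.br (nat_lit 8) (.ch (nat_lit 6) (.fin (nat_lit
 575018743858937548))) (.ch (nat_lit 8) (.ev (nat_lit 3476) (nat_lit 1024) (.ev (nat_lit 3485) (nat_lit 64)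
 .dd))))))))) (.br (nat_lit 11) (.br (nat_lit 8) (.ch (nat_lit 7) (.ev (nat_lit 1184) (nat_lit 1024) (.nd
 (nat_lit 1968) (.br (nat_lit 5) (.br (nat_lit 2) (.ch (nat_lit 0) (.ev (nat_lit 1984) (nat_lit 32768) (.ev
 (nat_lit 6768) (nat_lit 65600) .dd))) (.br (nat_lit 3) (.ch (nat_lit 2) (.ev (nat_lit 1984) (nat_lit 64) (.ev
 (nat_lit 2740) (nat_lit 32768) (.ev (nat_lit 2749) (nat_lit 65536) .dd)))) (.ch (nat_lit 3) (.ev (nat_lit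
 3476) (nat_lit 64) (.ev (nat_lit 5876) (nat_lit 32768) (.ev (nat_lit 5885) (nat_lit 65536) .dd)))))) (.br
 (nat_lit 7) (.ch (nat_lit 5) (.ev (nat_lit 2180) (nat_lit 32768) (.ev (nat_lit 2820) (nat_lit 64) (.ev
 (nat_lit 2829) (nat_lit 65536) .dd)))) (.br (nat_lit 8) (.ch (nat_lit 7) (.ev (nat_lit 6260) (nat_lit 32768)
 (.ev (nat_lit 6692) (nat_lit 65536) (.ev (nat_lit 6701) (nat_lit 64) .dd)))) (.ch (nat_lit 8) (.ev (nat_lit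
 1984) (nat_lit 64) (.ev (nat_lit 2180) (nat_lit 32768) (.ev (nat_lit 2189) (nat_lit 65536) .dd)))))))))) (.ch
 (nat_lit 8) (.ev (nat_lit 1184) (nat_lit 32832) (.nd (nat_lit 3408) (.br (nat_lit 6) (.ch (nat_lit 4) (.ev
 (nat_lit 6500) (nat_lit 1024) (.ev (nat_lit 6509) (nat_lit 65536) .dd))) (.br (nat_lit 9) (.ch (nat_lit 6)
 (.ev (nat_lit 3476) (nat_lit 65536) (.ev (nat_lit 3485) (nat_lit 1024) .dd))) (.ch (nat_lit 9) (.ev (nat_lit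
 3604) (nat_lit 1024) (.ev (nat_lit 3613) (nat_lit 65536) .dd))))))))) (.br (nat_lit 12) (.ch (nat_lit 11) (.ev
 (nat_lit 1184) (nat_lit 66560) (.ev (nat_lit 1204) (nat_lit 32768) (.ev (nat_lit 1213) (nat_lit 64) .dd))))
 (.ch (nat_lit 12) (.ev (nat_lit 1204) (nat_lit 32768) (.nd (nat_lit 1840) (.br (nat_lit 6) (.br (nat_lit 4)
 (.ch (nat_lit 0) (.ev (nat_lit 1856) (nat_lit 1088) (.ev (nat_lit 1869) (nat_lit 65536) .dd))) (.br (nat_lit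
 5) (.ch (nat_lit 4) (.ev (nat_lit 1856) (nat_lit 64) (.ev (nat_lit 1876) (nat_lit 1024) (.ev (nat_lit 1885)
 (nat_lit 65536) .dd)))) (.ch (nat_lit 5) (.ev (nat_lit 1856) (nat_lit 1024) (.ev (nat_lit 3540) (nat_lit 64)
 (.ev (nat_lit 3549) (nat_lit 65536) .dd)))))) (.br (nat_lit 9) (.br (nat_lit 7) (.ch (nat_lit 6) (.ev (nat_lit
 1856) (nat_lit 65536) (.ev (nat_lit 3940) (nat_lit 64) (.ev (nat_lit 3949) (nat_lit 1024) .dd)))) (.ch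
 (nat_lit 7) (.ev (nat_lit 1856) (nat_lit 64) (.fin (nat_lit 576280981875933573))))) (.br (nat_lit 10) (.ch
 (nat_lit 9) (.ev (nat_lit 5492) (nat_lit 64) (.fin (nat_lit 576638323576488486)))) (.ch (nat_lit 10) (.ev
 (nat_lit 1856) (nat_lit 1088) (.ev (nat_lit 1869) (nat_lit 65536) .dd))))))))))))))))) (.br (nat_lit 7) (.br
 (nat_lit 6) (.ch (nat_lit 5) (.ev (nat_lit 592) (nat_lit 65600) (.nd (nat_lit 1264) (.br (nat_lit 5) (.br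
 (nat_lit 3) (.ch (nat_lit 1) (.ev (nat_lit 1280) (nat_lit 32768) (.ev (nat_lit 2788) (nat_lit 256) (.ev
 (nat_lit 2797) (nat_lit 1024) .dd)))) (.br (nat_lit 4) (.ch (nat_lit 3) (.nd (nat_lit 2624) (.br (nat_lit 8)
 (.br (nat_lit 4) (.ch (nat_lit 0) (.ev (nat_lit 4736) (nat_lit 32768) (.ev (nat_lit 6500) (nat_lit 1024) (.ev
 (nat_lit 6509) (nat_lit 256) .dd)))) (.br (nat_lit 5) (.ch (nat_lit 4) (.ev (nat_lit 2640) (nat_lit 256) (.ev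
 (nat_lit 6692) (nat_lit 1024) (.ev (nat_lit 6701) (nat_lit 32768) .dd)))) (.ch (nat_lit 5) (.ev (nat_lit 2640)
 (nat_lit 32768) (.ev (nat_lit 6500) (nat_lit 1024) (.ev (nat_lit 6509) (nat_lit 256) .dd)))))) (.br (nat_lit
 10) (.ch (nat_lit 8) (.ev (nat_lit 2676) (nat_lit 256) (.ev (nat_lit 6500) (nat_lit 32768) (.ev (nat_lit 6509)
 (nat_lit 1024) .dd)))) (.br (nat_lit 12) (.ch (nat_lit 10) (.ev (nat_lit 2640) (nat_lit 33792) (.ev (nat_lit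
 2653) (nat_lit 256) .dd))) (.ch (nat_lit 12) (.ev (nat_lit 2676) (nat_lit 1280) (.ev (nat_lit 2685) (nat_lit
 32768) .dd)))))))) (.ch (nat_lit 4) (.ev (nat_lit 1280) (nat_lit 1024) (.nd (nat_lit 3408) (.br (nat_lit 6)
 (.br (nat_lit 4) (.ch (nat_lit 0) (.ev (nat_lit 3424) (nat_lit 32768) (.ev (nat_lit 3437) (nat_lit 256) .dd)))
 (.ch (nat_lit 4) (.ev (nat_lit 5188) (nat_lit 32768) (.ev (nat_lit 5197) (nat_lit 256) .dd)))) (.br (nat_lit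
 8) (.ch (nat_lit 6) (.ev (nat_lit 3424) (nat_lit 256) (.ev (nat_lit 3437) (nat_lit 32768) .dd))) (.ch (nat_lit
 8) (.ev (nat_lit 3424) (nat_lit 32768) (.ev (nat_lit 3437) (nat_lit 256) .dd)))))))))) (.br (nat_lit 11) (.br
 (nat_lit 7) (.ch (nat_lit 5) (.ev (nat_lit 1280) (nat_lit 256) (.nd (nat_lit 2624) (.br (nat_lit 4) (.br
 (nat_lit 2) (.ch (nat_lit 0) (.ev (nat_lit 5364) (nat_lit 32768) (.ev (nat_lit 5373) (nat_lit 1024) .dd)))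
 (.ch (nat_lit 2) (.ev (nat_lit 6644) (nat_lit 1024) (.ev (nat_lit 6653) (nat_lit 32768) .dd)))) (.br (nat_lit
 5) (.ch (nat_lit 4) (.ev (nat_lit 7008) (nat_lit 33792) .dd)) (.br (nat_lit 12) (.ch (nat_lit 5) (.ev (nat_lit
 6788) (nat_lit 32768) (.ev (nat_lit 6797) (nat_lit 1024) .dd))) (.ch (nat_lit 12) (.ev (nat_lit 5924) (nat_lit
 1024) (.ev (nat_lit 5933) (nat_lit 32768) .dd))))))))) (.ch (nat_lit 7) (.ev (nat_lit 1300) (nat_lit 256) (.nd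
 (nat_lit 2624) (.br (nat_lit 5) (.br (nat_lit 1) (.ch (nat_lit 0) (.ev (nat_lit 2676) (nat_lit 1024) (.ev
 (nat_lit 2685) (nat_lit 32768) .dd))) (.br (nat_lit 3) (.ch (nat_lit 1) (.ev (nat_lit 2676) (nat_lit 1024)
 (.ev (nat_lit 2685) (nat_lit 32768) .dd))) (.ch (nat_lit 3) (.ev (nat_lit 2676) (nat_lit 1024) (.ev (nat_lit
 2685) (nat_lit 32768) .dd))))) (.br (nat_lit 7) (.ch (nat_lit 5) (.ev (nat_lit 2640) (nat_lit 32768) (.ev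
 (nat_lit 2653) (nat_lit 1024) .dd))) (.br (nat_lit 11) (.ch (nat_lit 7) (.ev (nat_lit 2868) (nat_lit 1024)
 (.ev (nat_lit 2877) (nat_lit 32768) .dd))) (.ch (nat_lit 11) (.ev (nat_lit 2676) (nat_lit 1024) (.ev (nat_lit
 2685) (nat_lit 32768) .dd)))))))))) (.br (nat_lit 12) (.ch (nat_lit 11) (.ev (nat_lit 1280) (nat_lit 32768)
 (.ev (nat_lit 2820) (nat_lit 1024) (.ev (nat_lit 2829) (nat_lit 256) .dd)))) (.ch (nat_lit 12) (.ev (nat_lit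
 1280) (nat_lit 1024) (.nd (nat_lit 3984) (.br (nat_lit 11) (.ch (nat_lit 9) (.ev (nat_lit 4000) (nat_lit
 32768) (.ev (nat_lit 4013) (nat_lit 256) .dd))) (.ch (nat_lit 11) (.ev (nat_lit 5140) (nat_lit 256) (.ev
 (nat_lit 5149) (nat_lit 32768) .dd))))))))))))) (.ch (nat_lit 6) (.ev (nat_lit 592) (nat_lit 65536) (.nd
 (nat_lit 1264) (.br (nat_lit 6) (.br (nat_lit 2) (.br (nat_lit 1) (.ch (nat_lit 0) (.ev (nat_lit 1280)
 (nat_lit 1088) (.ev (nat_lit 3604) (nat_lit 256) (.ev (nat_lit 3613) (nat_lit 32768) .dd)))) (.ch (nat_lit 1)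
 (.ev (nat_lit 1280) (nat_lit 32832) (.nd (nat_lit 3984) (.br (nat_lit 10) (.ch (nat_lit 9) (.fin (nat_lit
 576439311827157550))) (.br (nat_lit 12) (.ch (nat_lit 10) (.ev (nat_lit 4052) (nat_lit 1024) (.ev (nat_lit
 4061) (nat_lit 256) .dd))) (.ch (nat_lit 12) (.ev (nat_lit 4020) (nat_lit 256) (.ev (nat_lit 4029) (nat_lit
 1024) .dd))))))))) (.br (nat_lit 4) (.ch (nat_lit 2) (.ev (nat_lit 1280) (nat_lit 33024) (.nd (nat_lit 3408)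
 (.br (nat_lit 5) (.br (nat_lit 3) (.ch (nat_lit 0) (.ev (nat_lit 3488) (nat_lit 1088) .dd)) (.ch (nat_lit 3)
 (.ev (nat_lit 3604) (nat_lit 64) (.ev (nat_lit 3613) (nat_lit 1024) .dd)))) (.br (nat_lit 6) (.ch (nat_lit 5)
 (.ev (nat_lit 3424) (nat_lit 64) (.ev (nat_lit 3437) (nat_lit 1024) .dd))) (.ch (nat_lit 6) (.ev (nat_lit
 3652) (nat_lit 64) (.ev (nat_lit 3661) (nat_lit 1024) .dd)))))))) (.ch (nat_lit 4) (.ev (nat_lit 1280)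
 (nat_lit 1280) (.fin (nat_lit 576462401573438018)))))) (.br (nat_lit 8) (.br (nat_lit 7) (.ch (nat_lit 6) (.ev
 (nat_lit 1280) (nat_lit 33024) (.nd (nat_lit 2128) (.br (nat_lit 4) (.br (nat_lit 3) (.ch (nat_lit 1) (.ev
 (nat_lit 6368) (nat_lit 64) (.ev (nat_lit 6381) (nat_lit 1024) .dd))) (.ch (nat_lit 3) (.ev (nat_lit 6740)
 (nat_lit 1024) (.ev (nat_lit 6749) (nat_lit 64) .dd)))) (.br (nat_lit 11) (.ch (nat_lit 4) (.ev (nat_lit 2144)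
 (nat_lit 1024) (.ev (nat_lit 2157) (nat_lit 64) .dd))) (.br (nat_lit 12) (.ch (nat_lit 11) (.ev (nat_lit 2144)
 (nat_lit 1024) (.ev (nat_lit 2157) (nat_lit 64) .dd))) (.ch (nat_lit 12) (.ev (nat_lit 5044) (nat_lit 1024)
 (.ev (nat_lit 5053) (nat_lit 64) .dd))))))))) (.ch (nat_lit 7) (.nd (nat_lit 2336) (.br (nat_lit 8) (.br
 (nat_lit 4) (.br (nat_lit 3) (.ch (nat_lit 1) (.ev (nat_lit 2352) (nat_lit 1024) (.ev (nat_lit 2676) (nat_lit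
 64) (.ev (nat_lit 6512) (nat_lit 256) (.ev (nat_lit 6525) (nat_lit 32768) .dd))))) (.ch (nat_lit 3) (.ev
 (nat_lit 2352) (nat_lit 32768) (.ev (nat_lit 2372) (nat_lit 1024) (.ev (nat_lit 2676) (nat_lit 64) (.ev
 (nat_lit 2685) (nat_lit 256) .dd)))))) (.br (nat_lit 6) (.ch (nat_lit 4) (.ev (nat_lit 2352) (nat_lit 1088)
 (.ev (nat_lit 2388) (nat_lit 256) (.ev (nat_lit 2397) (nat_lit 32768) .dd)))) (.ch (nat_lit 6) (.ev (nat_lit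
 2352) (nat_lit 32832) (.fin (nat_lit 576255693509050922)))))) (.br (nat_lit 11) (.br (nat_lit 9) (.ch (nat_lit
 8) (.ev (nat_lit 2352) (nat_lit 1344) (.ev (nat_lit 2365) (nat_lit 32768) .dd))) (.ch (nat_lit 9) (.ev
 (nat_lit 5188) (nat_lit 256) (.ev (nat_lit 7028) (nat_lit 32768) (.fin (nat_lit 576641621972959605)))))) (.br
 (nat_lit 12) (.ch (nat_lit 11) (.ev (nat_lit 2352) (nat_lit 33088) (.ev (nat_lit 2365) (nat_lit 1024) .dd)))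
 (.ch (nat_lit 12) (.ev (nat_lit 2352) (nat_lit 256) (.ev (nat_lit 2372) (nat_lit 32768) (.ev (nat_lit 2676)
 (nat_lit 64) (.ev (nat_lit 2685) (nat_lit 1024) .dd))))))))))) (.br (nat_lit 10) (.ch (nat_lit 8) (.nd
 (nat_lit 2336) (.br (nat_lit 5) (.br (nat_lit 3) (.br (nat_lit 1) (.ch (nat_lit 0) (.ev (nat_lit 2352)
 (nat_lit 34048) (.ev (nat_lit 2365) (nat_lit 64) .dd))) (.ch (nat_lit 1) (.ev (nat_lit 2372) (nat_lit 1024)
 (.ev (nat_lit 6788) (nat_lit 32768) (.ev (nat_lit 6868) (nat_lit 256) (.ev (nat_lit 6877) (nat_lit 64)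
 .dd)))))) (.br (nat_lit 4) (.ch (nat_lit 3) (.ev (nat_lit 2372) (nat_lit 32768) (.ev (nat_lit 6692) (nat_lit
 256) (.ev (nat_lit 6900) (nat_lit 1024) (.ev (nat_lit 6909) (nat_lit 64) .dd))))) (.ch (nat_lit 4) (.ev
 (nat_lit 2352) (nat_lit 64) (.ev (nat_lit 2372) (nat_lit 1280) (.ev (nat_lit 2381) (nat_lit 32768) .dd))))))
 (.br (nat_lit 10) (.br (nat_lit 6) (.ch (nat_lit 5) (.ev (nat_lit 2352) (nat_lit 34048) (.ev (nat_lit 2365)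
 (nat_lit 64) .dd))) (.ch (nat_lit 6) (.ev (nat_lit 2352) (nat_lit 256) (.ev (nat_lit 2420) (nat_lit 64) (.ev
 (nat_lit 5140) (nat_lit 32768) (.ev (nat_lit 5149) (nat_lit 1024) .dd)))))) (.br (nat_lit 12) (.ch (nat_lit
 10) (.ev (nat_lit 2352) (nat_lit 64) (.ev (nat_lit 6260) (nat_lit 256) (.ev (nat_lit 6368) (nat_lit 33792)
 .dd)))) (.ch (nat_lit 12) (.ev (nat_lit 2352) (nat_lit 33856) (.ev (nat_lit 2365) (nat_lit 256) .dd))))))))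
 (.br (nat_lit 12) (.ch (nat_lit 10) (.ev (nat_lit 1280) (nat_lit 1088) (.nd (nat_lit 2624) (.br (nat_lit 5)
 (.br (nat_lit 4) (.ch (nat_lit 2) (.ev (nat_lit 2640) (nat_lit 256) (.ev (nat_lit 2653) (nat_lit 32768) .dd)))
 (.ch (nat_lit 4) (.ev (nat_lit 2640) (nat_lit 32768) (.ev (nat_lit 2653) (nat_lit 256) .dd)))) (.br (nat_lit
 6) (.ch (nat_lit 5) (.fin (nat_lit 576366744401560085))) (.br (nat_lit 11) (.ch (nat_lit 6) (.ev (nat_lit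
 2640) (nat_lit 256) (.ev (nat_lit 2653) (nat_lit 32768) .dd))) (.ch (nat_lit 11) (.ev (nat_lit 2640) (nat_lit
 256) (.ev (nat_lit 2653) (nat_lit 32768) .dd))))))))) (.ch (nat_lit 12) (.nd (nat_lit 2128) (.br (nat_lit 6)
 (.br (nat_lit 4) (.ch (nat_lit 2) (.ev (nat_lit 2144) (nat_lit 1024) (.ev (nat_lit 2372) (nat_lit 32768) (.ev
 (nat_lit 2420) (nat_lit 64) (.ev (nat_lit 2429) (nat_lit 256) .dd))))) (.br (nat_lit 5) (.ch (nat_lit 4) (.ev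
 (nat_lit 2144) (nat_lit 256) (.ev (nat_lit 2164) (nat_lit 64) (.ev (nat_lit 2388) (nat_lit 1024) (.ev (nat_lit
 2397) (nat_lit 32768) .dd))))) (.ch (nat_lit 5) (.ev (nat_lit 2144) (nat_lit 320) (.ev (nat_lit 2372) (nat_lit
 32768) (.ev (nat_lit 2381) (nat_lit 1024) .dd)))))) (.br (nat_lit 10) (.br (nat_lit 7) (.ch (nat_lit 6) (.ev
 (nat_lit 2144) (nat_lit 34048) (.ev (nat_lit 2157) (nat_lit 64) .dd))) (.ch (nat_lit 7) (.ev (nat_lit 3284)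
 (nat_lit 256) (.ev (nat_lit 6596) (nat_lit 64) (.ev (nat_lit 6900) (nat_lit 1024) (.ev (nat_lit 6909) (nat_lit
 32768) .dd)))))) (.br (nat_lit 11) (.ch (nat_lit 10) (.ev (nat_lit 2144) (nat_lit 32832) (.ev (nat_lit 2752)
 (nat_lit 256) (.ev (nat_lit 2765) (nat_lit 1024) .dd)))) (.ch (nat_lit 11) (.ev (nat_lit 2144) (nat_lit 1024)
 (.ev (nat_lit 3284) (nat_lit 256) (.ev (nat_lit 6964) (nat_lit 32768) (.ev (nat_lit 6973) (nat_lit 64)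
 .dd)))))))))))))))))) (.br (nat_lit 11) (.ch (nat_lit 7) (.ev (nat_lit 592) (nat_lit 64) (.nd (nat_lit 1264)
 (.br (nat_lit 7) (.br (nat_lit 4) (.br (nat_lit 3) (.ch (nat_lit 1) (.ev (nat_lit 1280) (nat_lit 256) (.nd
 (nat_lit 1840) (.br (nat_lit 4) (.br (nat_lit 2) (.ch (nat_lit 1) (.ev (nat_lit 1856) (nat_lit 1024) (.ev
 (nat_lit 5364) (nat_lit 65536) (.ev (nat_lit 5373) (nat_lit 32768) .dd)))) (.ch (nat_lit 2) (.ev (nat_lit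
 1856) (nat_lit 1024) (.ev (nat_lit 3908) (nat_lit 65536) (.ev (nat_lit 3917) (nat_lit 32768) .dd))))) (.br
 (nat_lit 8) (.ch (nat_lit 4) (.ev (nat_lit 1856) (nat_lit 32768) (.ev (nat_lit 1876) (nat_lit 1024) (.ev
 (nat_lit 1885) (nat_lit 65536) .dd)))) (.br (nat_lit 11) (.ch (nat_lit 8) (.ev (nat_lit 1856) (nat_lit 32768)
 (.ev (nat_lit 3700) (nat_lit 65536) (.ev (nat_lit 3709) (nat_lit 1024) .dd)))) (.ch (nat_lit 11) (.ev (nat_lit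
 3540) (nat_lit 32768) (.ev (nat_lit 5844) (nat_lit 1024) (.ev (nat_lit 5853) (nat_lit 65536) .dd))))))))))
 (.ch (nat_lit 3) (.ev (nat_lit 1280) (nat_lit 98304) (.nd (nat_lit 3984) (.br (nat_lit 6) (.br (nat_lit 4)
 (.ch (nat_lit 1) (.ev (nat_lit 4020) (nat_lit 256) (.ev (nat_lit 4029) (nat_lit 1024) .dd))) (.ch (nat_lit 4)
 (.ev (nat_lit 4000) (nat_lit 256) (.ev (nat_lit 4013) (nat_lit 1024) .dd)))) (.br (nat_lit 7) (.ch (nat_lit 6)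
 (.ev (nat_lit 6644) (nat_lit 1024) (.ev (nat_lit 6653) (nat_lit 256) .dd))) (.br (nat_lit 10) (.ch (nat_lit 7)
 (.ev (nat_lit 6596) (nat_lit 1024) (.ev (nat_lit 6605) (nat_lit 256) .dd))) (.ch (nat_lit 10) (.ev (nat_lit
 4020) (nat_lit 256) (.ev (nat_lit 4029) (nat_lit 1024) .dd)))))))))) (.br (nat_lit 6) (.ch (nat_lit 4) (.ev
 (nat_lit 1300) (nat_lit 32768) (.nd (nat_lit 2624) (.br (nat_lit 6) (.br (nat_lit 3) (.br (nat_lit 2) (.ch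
 (nat_lit 1) (.ev (nat_lit 2640) (nat_lit 65792) (.ev (nat_lit 2653) (nat_lit 1024) .dd))) (.ch (nat_lit 2)
 (.ev (nat_lit 2640) (nat_lit 65792) (.ev (nat_lit 2653) (nat_lit 1024) .dd)))) (.br (nat_lit 4) (.ch (nat_lit
 3) (.ev (nat_lit 2788) (nat_lit 256) (.ev (nat_lit 3168) (nat_lit 65536) (.ev (nat_lit 3181) (nat_lit 1024)
 .dd)))) (.ch (nat_lit 4) (.ev (nat_lit 2676) (nat_lit 1280) (.ev (nat_lit 2685) (nat_lit 65536) .dd))))) (.br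
 (nat_lit 9) (.br (nat_lit 8) (.ch (nat_lit 6) (.ev (nat_lit 2640) (nat_lit 256) (.ev (nat_lit 2740) (nat_lit
 1024) (.ev (nat_lit 2749) (nat_lit 65536) .dd)))) (.ch (nat_lit 8) (.ev (nat_lit 2640) (nat_lit 1024) (.ev
 (nat_lit 2676) (nat_lit 256) (.ev (nat_lit 2685) (nat_lit 65536) .dd))))) (.br (nat_lit 10) (.ch (nat_lit 9)
 (.ev (nat_lit 2640) (nat_lit 1280) (.ev (nat_lit 2653) (nat_lit 65536) .dd))) (.br (nat_lit 11) (.ch (nat_lit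
 10) (.ev (nat_lit 2640) (nat_lit 66560) (.ev (nat_lit 2653) (nat_lit 256) .dd))) (.ch (nat_lit 11) (.ev
 (nat_lit 2640) (nat_lit 1024) (.ev (nat_lit 2676) (nat_lit 256) (.ev (nat_lit 2685) (nat_lit 65536)
 .dd))))))))))) (.ch (nat_lit 6) (.ev (nat_lit 1280) (nat_lit 32768) (.nd (nat_lit 2336) (.br (nat_lit 10) (.br
 (nat_lit 3) (.ch (nat_lit 1) (.ev (nat_lit 6356) (nat_lit 65536) (.ev (nat_lit 6500) (nat_lit 256) (.ev
 (nat_lit 6509) (nat_lit 1024) .dd)))) (.br (nat_lit 4) (.ch (nat_lit 3) (.ev (nat_lit 2352) (nat_lit 66560)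
 (.ev (nat_lit 2365) (nat_lit 256) .dd))) (.ch (nat_lit 4) (.ev (nat_lit 7040) (nat_lit 256) (.nd (nat_lit
 7824) (.br (nat_lit 8) (.ch (nat_lit 4) (.fin (nat_lit 576444809372713535))) (.ch (nat_lit 8) (.ev (nat_lit
 7840) (nat_lit 1024) (.ev (nat_lit 7853) (nat_lit 65536) .dd))))))))) (.br (nat_lit 11) (.ch (nat_lit 10) (.ev
 (nat_lit 2352) (nat_lit 1024) (.ev (nat_lit 2868) (nat_lit 256) (.ev (nat_lit 2877) (nat_lit 65536) .dd))))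
 (.br (nat_lit 12) (.ch (nat_lit 11) (.ev (nat_lit 2352) (nat_lit 1024) (.ev (nat_lit 6500) (nat_lit 256) (.ev
 (nat_lit 6509) (nat_lit 65536) .dd)))) (.ch (nat_lit 12) (.ev (nat_lit 2352) (nat_lit 66560) (.ev (nat_lit
 2365) (nat_lit 256) .dd))))))))))) (.br (nat_lit 9) (.br (nat_lit 8) (.ch (nat_lit 7) (.ev (nat_lit 1280)
 (nat_lit 1024) (.nd (nat_lit 2336) (.br (nat_lit 5) (.br (nat_lit 2) (.ch (nat_lit 0) (.ev (nat_lit 2352)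
 (nat_lit 65536) (.ev (nat_lit 2740) (nat_lit 256) (.ev (nat_lit 2749) (nat_lit 32768) .dd)))) (.br (nat_lit 3)
 (.ch (nat_lit 2) (.ev (nat_lit 2352) (nat_lit 32768) (.ev (nat_lit 2900) (nat_lit 65536) (.ev (nat_lit 2909)
 (nat_lit 256) .dd)))) (.ch (nat_lit 3) (.ev (nat_lit 2352) (nat_lit 65536) (.ev (nat_lit 2372) (nat_lit 256)
 (.ev (nat_lit 2381) (nat_lit 32768) .dd)))))) (.br (nat_lit 6) (.ch (nat_lit 5) (.ev (nat_lit 2352) (nat_lit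
 256) (.ev (nat_lit 3476) (nat_lit 32768) (.ev (nat_lit 3485) (nat_lit 65536) .dd)))) (.br (nat_lit 11) (.ch
 (nat_lit 6) (.ev (nat_lit 6704) (nat_lit 256) (.fin (nat_lit 576544864930841112)))) (.ch (nat_lit 11) (.ev
 (nat_lit 2372) (nat_lit 256) (.ev (nat_lit 6020) (nat_lit 65536) (.ev (nat_lit 6029) (nat_lit 32768)
 .dd)))))))))) (.ch (nat_lit 8) (.ev (nat_lit 1280) (nat_lit 65536) (.nd (nat_lit 3408) (.br (nat_lit 6) (.br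
 (nat_lit 2) (.ch (nat_lit 0) (.ev (nat_lit 3424) (nat_lit 1024) (.ev (nat_lit 3476) (nat_lit 256) (.ev
 (nat_lit 3485) (nat_lit 32768) .dd)))) (.br (nat_lit 3) (.ch (nat_lit 2) (.ev (nat_lit 6644) (nat_lit 256)
 (.ev (nat_lit 6692) (nat_lit 1024) (.ev (nat_lit 6701) (nat_lit 32768) .dd)))) (.ch (nat_lit 3) (.ev (nat_lit
 3424) (nat_lit 1280) (.ev (nat_lit 3437) (nat_lit 32768) .dd))))) (.br (nat_lit 7) (.ch (nat_lit 6) (.ev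
 (nat_lit 3424) (nat_lit 32768) (.ev (nat_lit 5364) (nat_lit 1024) (.ev (nat_lit 5373) (nat_lit 256) .dd))))
 (.br (nat_lit 10) (.ch (nat_lit 7) (.ev (nat_lit 3424) (nat_lit 33792) (.ev (nat_lit 3437) (nat_lit 256)
 .dd))) (.ch (nat_lit 10) (.ev (nat_lit 3476) (nat_lit 1280) (.ev (nat_lit 3485) (nat_lit 32768) .dd))))))))))
 (.br (nat_lit 10) (.ch (nat_lit 9) (.nd (nat_lit 2624) (.br (nat_lit 4) (.br (nat_lit 2) (.br (nat_lit 1) (.ch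
 (nat_lit 0) (.ev (nat_lit 2640) (nat_lit 65792) (.ev (nat_lit 5444) (nat_lit 1024) (.ev (nat_lit 5453)
 (nat_lit 32768) .dd)))) (.ch (nat_lit 1) (.ev (nat_lit 2640) (nat_lit 98560) (.ev (nat_lit 2653) (nat_lit
 1024) .dd)))) (.br (nat_lit 3) (.ch (nat_lit 2) (.ev (nat_lit 2640) (nat_lit 99328) (.ev (nat_lit 2653)
 (nat_lit 256) .dd))) (.ch (nat_lit 3) (.ev (nat_lit 2640) (nat_lit 1024) (.ev (nat_lit 2676) (nat_lit 65536)
 (.ev (nat_lit 3540) (nat_lit 256) (.ev (nat_lit 3549) (nat_lit 32768) .dd))))))) (.br (nat_lit 9) (.br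
 (nat_lit 5) (.ch (nat_lit 4) (.ev (nat_lit 2640) (nat_lit 33792) (.ev (nat_lit 2676) (nat_lit 256) (.ev
 (nat_lit 2685) (nat_lit 65536) .dd)))) (.ch (nat_lit 5) (.ev (nat_lit 2640) (nat_lit 32768) (.ev (nat_lit
 3844) (nat_lit 1024) (.ev (nat_lit 6148) (nat_lit 65536) (.ev (nat_lit 6157) (nat_lit 256) .dd)))))) (.br
 (nat_lit 11) (.ch (nat_lit 9) (.ev (nat_lit 2640) (nat_lit 256) (.ev (nat_lit 2676) (nat_lit 1024) (.ev
 (nat_lit 3140) (nat_lit 32768) (.ev (nat_lit 3149) (nat_lit 65536) .dd))))) (.br (nat_lit 12) (.ch (nat_lit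
 11) (.ev (nat_lit 2640) (nat_lit 33024) (.ev (nat_lit 2676) (nat_lit 1024) (.ev (nat_lit 2685) (nat_lit 65536)
 .dd)))) (.ch (nat_lit 12) (.ev (nat_lit 2640) (nat_lit 32768) (.ev (nat_lit 5312) (nat_lit 1024) (.fin
 (nat_lit 576867021572490364))))))))))) (.ch (nat_lit 10) (.ev (nat_lit 1280) (nat_lit 66816) (.ev (nat_lit
 1293) (nat_lit 32768) .dd))))))))) (.br (nat_lit 12) (.ch (nat_lit 11) (.ev (nat_lit 592) (nat_lit 1024) (.ev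
 (nat_lit 612) (nat_lit 32768) (.nd (nat_lit 1168) (.br (nat_lit 4) (.br (nat_lit 2) (.br (nat_lit 1) (.ch
 (nat_lit 0) (.ev (nat_lit 1184) (nat_lit 65600) (.ev (nat_lit 1197) (nat_lit 256) .dd))) (.ch (nat_lit 1) (.ev
 (nat_lit 1184) (nat_lit 65792) (.ev (nat_lit 1197) (nat_lit 64) .dd)))) (.br (nat_lit 3) (.ch (nat_lit 2) (.nd
 (nat_lit 2624) (.br (nat_lit 9) (.br (nat_lit 5) (.br (nat_lit 2) (.ch (nat_lit 1) (.ev (nat_lit 2640)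
 (nat_lit 64) (.ev (nat_lit 2676) (nat_lit 256) (.ev (nat_lit 2685) (nat_lit 65536) .dd)))) (.ch (nat_lit 2)
 (.ev (nat_lit 2640) (nat_lit 256) (.ev (nat_lit 3764) (nat_lit 64) (.ev (nat_lit 3773) (nat_lit 65536)
 .dd))))) (.br (nat_lit 8) (.ch (nat_lit 5) (.ev (nat_lit 2640) (nat_lit 65536) (.ev (nat_lit 2676) (nat_lit
 64) (.ev (nat_lit 2685) (nat_lit 256) .dd)))) (.ch (nat_lit 8) (.ev (nat_lit 6160) (nat_lit 65536) (.fin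
 (nat_lit 576434913713537718)))))) (.br (nat_lit 11) (.br (nat_lit 10) (.ch (nat_lit 9) (.ev (nat_lit 2740)
 (nat_lit 65536) (.ev (nat_lit 2948) (nat_lit 256) (.ev (nat_lit 2957) (nat_lit 64) .dd)))) (.ch (nat_lit 10)
 (.ev (nat_lit 2640) (nat_lit 320) (.ev (nat_lit 2653) (nat_lit 65536) .dd)))) (.br (nat_lit 12) (.ch (nat_lit
 11) (.ev (nat_lit 2640) (nat_lit 65536) (.ev (nat_lit 2676) (nat_lit 64) (.ev (nat_lit 2685) (nat_lit 256)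
 .dd)))) (.ch (nat_lit 12) (.ev (nat_lit 2640) (nat_lit 320) (.ev (nat_lit 2653) (nat_lit 65536) .dd))))))))
 (.ch (nat_lit 3) (.ev (nat_lit 1184) (nat_lit 320) (.ev (nat_lit 1197) (nat_lit 65536) .dd))))) (.br (nat_lit
 8) (.br (nat_lit 5) (.ch (nat_lit 4) (.nd (nat_lit 2336) (.br (nat_lit 6) (.br (nat_lit 2) (.ch (nat_lit 0)
 (.ev (nat_lit 2352) (nat_lit 65536) (.ev (nat_lit 2676) (nat_lit 256) (.ev (nat_lit 2685) (nat_lit 64) .dd))))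
 (.ch (nat_lit 2) (.ev (nat_lit 2352) (nat_lit 256) (.ev (nat_lit 2420) (nat_lit 64) (.ev (nat_lit 2429)
 (nat_lit 65536) .dd))))) (.br (nat_lit 9) (.ch (nat_lit 6) (.ev (nat_lit 2420) (nat_lit 64) (.ev (nat_lit
 2820) (nat_lit 256) (.ev (nat_lit 2829) (nat_lit 65536) .dd)))) (.ch (nat_lit 9) (.ev (nat_lit 2352) (nat_lit
 65536) (.ev (nat_lit 3812) (nat_lit 256) (.ev (nat_lit 3821) (nat_lit 64) .dd)))))))) (.ch (nat_lit 5) (.ev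
 (nat_lit 1184) (nat_lit 64) (.ev (nat_lit 1204) (nat_lit 256) (.ev (nat_lit 1213) (nat_lit 65536) .dd)))))
 (.br (nat_lit 9) (.ch (nat_lit 8) (.ev (nat_lit 1184) (nat_lit 65792) (.ev (nat_lit 1197) (nat_lit 64) .dd)))
 (.br (nat_lit 12) (.ch (nat_lit 9) (.ev (nat_lit 1184) (nat_lit 65600) (.ev (nat_lit 1197) (nat_lit 256)
 .dd))) (.ch (nat_lit 12) (.nd (nat_lit 2128) (.br (nat_lit 5) (.br (nat_lit 3) (.ch (nat_lit 2) (.ev (nat_lit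
 2144) (nat_lit 320) (.ev (nat_lit 2157) (nat_lit 65536) .dd))) (.br (nat_lit 4) (.ch (nat_lit 3) (.ev (nat_lit
 2788) (nat_lit 65536) (.ev (nat_lit 5844) (nat_lit 256) (.ev (nat_lit 5853) (nat_lit 64) .dd)))) (.ch (nat_lit
 4) (.ev (nat_lit 2144) (nat_lit 65536) (.ev (nat_lit 2164) (nat_lit 256) (.ev (nat_lit 2173) (nat_lit 64)
 .dd)))))) (.br (nat_lit 9) (.br (nat_lit 7) (.ch (nat_lit 5) (.ev (nat_lit 2144) (nat_lit 65536) (.ev (nat_lit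
 6160) (nat_lit 64) (.ev (nat_lit 6173) (nat_lit 256) .dd)))) (.ch (nat_lit 7) (.ev (nat_lit 2144) (nat_lit
 65600) (.ev (nat_lit 2157) (nat_lit 256) .dd)))) (.br (nat_lit 12) (.ch (nat_lit 9) (.ev (nat_lit 2164)
 (nat_lit 256) (.ev (nat_lit 2688) (nat_lit 64) (.ev (nat_lit 2701) (nat_lit 65536) .dd)))) (.ch (nat_lit 12)
 (.ev (nat_lit 2144) (nat_lit 65536) (.ev (nat_lit 2164) (nat_lit 256) (.ev (nat_lit 2173) (nat_lit 64)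
 .dd))))))))))))))))) (.ch (nat_lit 12) (.ev (nat_lit 592) (nat_lit 32768) (.nd (nat_lit 1168) (.br (nat_lit 7)
 (.br (nat_lit 2) (.ch (nat_lit 1) (.nd (nat_lit 1840) (.br (nat_lit 8) (.br (nat_lit 1) (.ch (nat_lit 0) (.ev
 (nat_lit 1856) (nat_lit 64) (.ev (nat_lit 1876) (nat_lit 256) (.ev (nat_lit 6356) (nat_lit 65536) (.ev
 (nat_lit 6365) (nat_lit 1024) .dd))))) (.br (nat_lit 3) (.ch (nat_lit 1) (.ev (nat_lit 1856) (nat_lit 66560)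
 (.nd (nat_lit 4864) (.br (nat_lit 3) (.ch (nat_lit 2) (.ev (nat_lit 5248) (nat_lit 320) .dd)) (.br (nat_lit 7)
 (.ch (nat_lit 3) (.ev (nat_lit 6368) (nat_lit 320) .dd)) (.ch (nat_lit 7) (.ev (nat_lit 6452) (nat_lit 256)
 (.ev (nat_lit 6461) (nat_lit 64) .dd)))))))) (.ch (nat_lit 3) (.ev (nat_lit 1856) (nat_lit 1024) (.ev (nat_lit
 1876) (nat_lit 65536) (.ev (nat_lit 2420) (nat_lit 64) (.ev (nat_lit 2429) (nat_lit 256) .dd))))))) (.br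
 (nat_lit 10) (.ch (nat_lit 8) (.ev (nat_lit 1856) (nat_lit 64) (.ev (nat_lit 1876) (nat_lit 65536) (.ev
 (nat_lit 2992) (nat_lit 1024) (.ev (nat_lit 3005) (nat_lit 256) .dd))))) (.br (nat_lit 12) (.ch (nat_lit 10)
 (.ev (nat_lit 1856) (nat_lit 256) (.nd (nat_lit 4416) (.br (nat_lit 5) (.br (nat_lit 3) (.ch (nat_lit 2) (.ev
 (nat_lit 4432) (nat_lit 64) (.ev (nat_lit 4468) (nat_lit 1024) (.ev (nat_lit 4477) (nat_lit 65536) .dd))))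
 (.ch (nat_lit 3) (.ev (nat_lit 4432) (nat_lit 64) (.ev (nat_lit 5844) (nat_lit 65536) (.ev (nat_lit 5853)
 (nat_lit 1024) .dd))))) (.br (nat_lit 7) (.ch (nat_lit 5) (.ev (nat_lit 4432) (nat_lit 64) (.ev (nat_lit 4468)
 (nat_lit 65536) (.ev (nat_lit 4477) (nat_lit 1024) .dd)))) (.br (nat_lit 8) (.ch (nat_lit 7) (.ev (nat_lit
 4432) (nat_lit 64) (.ev (nat_lit 4468) (nat_lit 1024) (.ev (nat_lit 4477) (nat_lit 65536) .dd)))) (.ch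
 (nat_lit 8) (.ev (nat_lit 4468) (nat_lit 66560) (.ev (nat_lit 4477) (nat_lit 64) .dd))))))))) (.ch (nat_lit
 12) (.ev (nat_lit 2832) (nat_lit 1024) (.ev (nat_lit 6452) (nat_lit 256) (.ev (nat_lit 6656) (nat_lit 65536)
 (.ev (nat_lit 6669) (nat_lit 64) .dd)))))))))) (.br (nat_lit 3) (.ch (nat_lit 2) (.nd (nat_lit 2336) (.br
 (nat_lit 5) (.br (nat_lit 2) (.ch (nat_lit 1) (.ev (nat_lit 2352) (nat_lit 65792) (.ev (nat_lit 5300) (nat_lit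
 1024) (.ev (nat_lit 5309) (nat_lit 64) .dd)))) (.br (nat_lit 3) (.ch (nat_lit 2) (.nd (nat_lit 4864) (.br
 (nat_lit 6) (.br (nat_lit 4) (.ch (nat_lit 1) (.ev (nat_lit 4880) (nat_lit 256) (.ev (nat_lit 4932) (nat_lit
 65536) (.ev (nat_lit 6368) (nat_lit 1088) .dd)))) (.ch (nat_lit 4) (.ev (nat_lit 4880) (nat_lit 1024) (.ev
 (nat_lit 6260) (nat_lit 65536) (.ev (nat_lit 6644) (nat_lit 256) (.ev (nat_lit 6653) (nat_lit 64) .dd))))))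
 (.br (nat_lit 9) (.ch (nat_lit 6) (.ev (nat_lit 4880) (nat_lit 65792) (.ev (nat_lit 4932) (nat_lit 1024) (.ev
 (nat_lit 4941) (nat_lit 64) .dd)))) (.br (nat_lit 11) (.ch (nat_lit 9) (.ev (nat_lit 4880) (nat_lit 1088) (.ev
 (nat_lit 4932) (nat_lit 65536) (.ev (nat_lit 4941) (nat_lit 256) .dd)))) (.ch (nat_lit 11) (.ev (nat_lit 4880)
 (nat_lit 320) (.ev (nat_lit 4932) (nat_lit 1024) (.ev (nat_lit 4941) (nat_lit 65536) .dd))))))))) (.ch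
 (nat_lit 3) (.ev (nat_lit 2372) (nat_lit 256) (.nd (nat_lit 4864) (.br (nat_lit 9) (.br (nat_lit 5) (.ch
 (nat_lit 1) (.ev (nat_lit 4880) (nat_lit 65536) (.ev (nat_lit 6368) (nat_lit 1088) .dd))) (.ch (nat_lit 5)
 (.ev (nat_lit 4880) (nat_lit 1024) (.ev (nat_lit 5552) (nat_lit 65600) .dd)))) (.br (nat_lit 11) (.ch (nat_lit
 9) (.ev (nat_lit 4880) (nat_lit 64) (.ev (nat_lit 5540) (nat_lit 65536) (.ev (nat_lit 5549) (nat_lit 1024)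
 .dd)))) (.ch (nat_lit 11) (.ev (nat_lit 6704) (nat_lit 64) (.fin (nat_lit 576372241660854835))))))))))) (.br
 (nat_lit 8) (.br (nat_lit 7) (.ch (nat_lit 5) (.ev (nat_lit 2352) (nat_lit 65600) (.ev (nat_lit 4932) (nat_lit
 1024) (.ev (nat_lit 4941) (nat_lit 256) .dd)))) (.ch (nat_lit 7) (.ev (nat_lit 2352) (nat_lit 65536) (.ev
 (nat_lit 2372) (nat_lit 1024) (.ev (nat_lit 6020) (nat_lit 64) (.ev (nat_lit 6029) (nat_lit 256) .dd))))))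
 (.br (nat_lit 10) (.ch (nat_lit 8) (.ev (nat_lit 2352) (nat_lit 1088) (.ev (nat_lit 2372) (nat_lit 256) (.ev
 (nat_lit 2381) (nat_lit 65536) .dd)))) (.ch (nat_lit 10) (.ev (nat_lit 2352) (nat_lit 65792) (.ev (nat_lit
 6740) (nat_lit 1024) (.ev (nat_lit 6749) (nat_lit 64) .dd))))))))) (.ch (nat_lit 3) (.ev (nat_lit 1204)
 (nat_lit 256) (.nd (nat_lit 1744) (.br (nat_lit 4) (.br (nat_lit 2) (.ch (nat_lit 0) (.ev (nat_lit 1780)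
 (nat_lit 66560) (.ev (nat_lit 1789) (nat_lit 64) .dd))) (.br (nat_lit 3) (.ch (nat_lit 2) (.ev (nat_lit 2900)
 (nat_lit 64) (.ev (nat_lit 6740) (nat_lit 65536) (.ev (nat_lit 6749) (nat_lit 1024) .dd)))) (.ch (nat_lit 3)
 (.ev (nat_lit 1760) (nat_lit 1088) (.ev (nat_lit 1773) (nat_lit 65536) .dd))))) (.br (nat_lit 5) (.ch (nat_lit
 4) (.ev (nat_lit 1780) (nat_lit 1024) (.ev (nat_lit 2180) (nat_lit 64) (.ev (nat_lit 2189) (nat_lit 65536)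
 .dd)))) (.br (nat_lit 12) (.ch (nat_lit 5) (.ev (nat_lit 1780) (nat_lit 1024) (.ev (nat_lit 2196) (nat_lit 64)
 (.ev (nat_lit 2205) (nat_lit 65536) .dd)))) (.ch (nat_lit 12) (.ev (nat_lit 2180) (nat_lit 64) (.ev (nat_lit
 3364) (nat_lit 65536) (.ev (nat_lit 3373) (nat_lit 1024) .dd)))))))))))) (.br (nat_lit 10) (.br (nat_lit 8)
 (.ch (nat_lit 7) (.ev (nat_lit 1184) (nat_lit 320) (.nd (nat_lit 2336) (.br (nat_lit 9) (.br (nat_lit 7) (.ch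
 (nat_lit 3) (.ev (nat_lit 3652) (nat_lit 65536) (.ev (nat_lit 3661) (nat_lit 1024) .dd))) (.ch (nat_lit 7)
 (.ev (nat_lit 2372) (nat_lit 65536) (.ev (nat_lit 2381) (nat_lit 1024) .dd)))) (.br (nat_lit 12) (.ch (nat_lit
 9) (.ev (nat_lit 6260) (nat_lit 65536) (.ev (nat_lit 6269) (nat_lit 1024) .dd))) (.ch (nat_lit 12) (.ev
 (nat_lit 3252) (nat_lit 65536) (.ev (nat_lit 3261) (nat_lit 1024) .dd)))))))) (.ch (nat_lit 8) (.ev (nat_lit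
 1184) (nat_lit 1280) (.nd (nat_lit 2624) (.br (nat_lit 7) (.ch (nat_lit 6) (.ev (nat_lit 2688) (nat_lit 65600)
 .dd)) (.br (nat_lit 8) (.ch (nat_lit 7) (.ev (nat_lit 5140) (nat_lit 65536) (.ev (nat_lit 5149) (nat_lit 64)
 .dd))) (.ch (nat_lit 8) (.ev (nat_lit 2676) (nat_lit 64) (.ev (nat_lit 2685) (nat_lit 65536) .dd))))))))) (.br
 (nat_lit 12) (.ch (nat_lit 10) (.ev (nat_lit 1184) (nat_lit 320) (.nd (nat_lit 2624) (.br (nat_lit 7) (.ch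
 (nat_lit 4) (.ev (nat_lit 7156) (nat_lit 65536) (.ev (nat_lit 7165) (nat_lit 1024) .dd))) (.br (nat_lit 10)
 (.ch (nat_lit 7) (.ev (nat_lit 6848) (nat_lit 66560) .dd)) (.ch (nat_lit 10) (.ev (nat_lit 5140) (nat_lit
 1024) (.ev (nat_lit 5149) (nat_lit 65536) .dd)))))))) (.ch (nat_lit 12) (.ev (nat_lit 1184) (nat_lit 66560)
 (.nd (nat_lit 3408) (.br (nat_lit 7) (.ch (nat_lit 3) (.ev (nat_lit 3652) (nat_lit 64) (.ev (nat_lit 3661)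
 (nat_lit 256) .dd))) (.ch (nat_lit 7) (.ev (nat_lit 5188) (nat_lit 64) (.ev (nat_lit 5197) (nat_lit 256)
 .dd)))))))))))))))))))) (.ch (nat_lit 3) (.ev (nat_lit 48) (nat_lit 71748) (.nd (nat_lit 480) (.br (nat_lit 8)
 (.br (nat_lit 3) (.br (nat_lit 1) (.ch (nat_lit 0) (.ev (nat_lit 496) (nat_lit 2) (.nd (nat_lit 1088) (.br
 (nat_lit 8) (.br (nat_lit 2) (.br (nat_lit 1) (.ch (nat_lit 0) (.ev (nat_lit 1104) (nat_lit 1056) (.nd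
 (nat_lit 2624) (.br (nat_lit 9) (.br (nat_lit 3) (.ch (nat_lit 2) (.ev (nat_lit 2740) (nat_lit 256) (.ev
 (nat_lit 2749) (nat_lit 32768) .dd))) (.br (nat_lit 7) (.ch (nat_lit 3) (.ev (nat_lit 3540) (nat_lit 32768)
 (.ev (nat_lit 3549) (nat_lit 256) .dd))) (.ch (nat_lit 7) (.ev (nat_lit 2640) (nat_lit 256) (.ev (nat_lit
 2653) (nat_lit 32768) .dd))))) (.br (nat_lit 10) (.ch (nat_lit 9) (.ev (nat_lit 2740) (nat_lit 256) (.ev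
 (nat_lit 2749) (nat_lit 32768) .dd))) (.br (nat_lit 11) (.ch (nat_lit 10) (.ev (nat_lit 2900) (nat_lit 256)
 (.ev (nat_lit 2909) (nat_lit 32768) .dd))) (.ch (nat_lit 11) (.ev (nat_lit 2640) (nat_lit 32768) (.ev (nat_lit
 2653) (nat_lit 256) .dd))))))))) (.ch (nat_lit 1) (.ev (nat_lit 1104) (nat_lit 32800) (.ev (nat_lit 1364)
 (nat_lit 256) (.ev (nat_lit 1373) (nat_lit 1024) .dd))))) (.br (nat_lit 6) (.ch (nat_lit 2) (.ev (nat_lit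
 1204) (nat_lit 1024) (.nd (nat_lit 1968) (.br (nat_lit 4) (.br (nat_lit 2) (.br (nat_lit 1) (.ch (nat_lit 0)
 (.ev (nat_lit 1984) (nat_lit 32) (.ev (nat_lit 2372) (nat_lit 256) (.ev (nat_lit 2381) (nat_lit 32768) .dd))))
 (.ch (nat_lit 1) (.ev (nat_lit 1984) (nat_lit 32768) (.ev (nat_lit 2004) (nat_lit 32) (.ev (nat_lit 2013)
 (nat_lit 256) .dd))))) (.br (nat_lit 3) (.ch (nat_lit 2) (.ev (nat_lit 1984) (nat_lit 256) (.ev (nat_lit 3012)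
 (nat_lit 32) (.ev (nat_lit 3021) (nat_lit 32768) .dd)))) (.ch (nat_lit 3) (.ev (nat_lit 1984) (nat_lit 288)
 (.ev (nat_lit 1997) (nat_lit 32768) .dd))))) (.br (nat_lit 8) (.br (nat_lit 5) (.ch (nat_lit 4) (.ev (nat_lit
 2372) (nat_lit 256) (.ev (nat_lit 2388) (nat_lit 32768) (.ev (nat_lit 2397) (nat_lit 32) .dd)))) (.ch (nat_lit
 5) (.ev (nat_lit 1984) (nat_lit 33024) (.ev (nat_lit 1997) (nat_lit 32) .dd)))) (.br (nat_lit 11) (.ch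
 (nat_lit 8) (.ev (nat_lit 1984) (nat_lit 256) (.ev (nat_lit 2740) (nat_lit 32768) (.ev (nat_lit 2749) (nat_lit
 32) .dd)))) (.br (nat_lit 12) (.ch (nat_lit 11) (.ev (nat_lit 1984) (nat_lit 32) (.fin (nat_lit
 576471197667508814)))) (.ch (nat_lit 12) (.ev (nat_lit 1984) (nat_lit 32768) (.ev (nat_lit 2004) (nat_lit 32)
 (.ev (nat_lit 2013) (nat_lit 256) .dd))))))))))) (.ch (nat_lit 6) (.ev (nat_lit 1104) (nat_lit 1024) (.nd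
 (nat_lit 2336) (.br (nat_lit 6) (.br (nat_lit 4) (.ch (nat_lit 0) (.ev (nat_lit 2372) (nat_lit 32) (.ev
 (nat_lit 6596) (nat_lit 256) (.ev (nat_lit 6605) (nat_lit 32768) .dd)))) (.br (nat_lit 5) (.ch (nat_lit 4)
 (.ev (nat_lit 2352) (nat_lit 32800) (.ev (nat_lit 2365) (nat_lit 256) .dd))) (.ch (nat_lit 5) (.ev (nat_lit
 2352) (nat_lit 33024) (.ev (nat_lit 2365) (nat_lit 32) .dd))))) (.br (nat_lit 7) (.ch (nat_lit 6) (.ev
 (nat_lit 3044) (nat_lit 32768) (.ev (nat_lit 6900) (nat_lit 256) (.ev (nat_lit 6909) (nat_lit 32) .dd)))) (.br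
 (nat_lit 9) (.ch (nat_lit 7) (.ev (nat_lit 2352) (nat_lit 32768) (.ev (nat_lit 2372) (nat_lit 32) (.ev
 (nat_lit 2381) (nat_lit 256) .dd)))) (.ch (nat_lit 9) (.ev (nat_lit 2352) (nat_lit 32800) (.ev (nat_lit 2365)
 (nat_lit 256) .dd))))))))))) (.br (nat_lit 10) (.br (nat_lit 9) (.ch (nat_lit 8) (.ev (nat_lit 1104) (nat_lit
 33024) (.ev (nat_lit 2900) (nat_lit 1024) (.ev (nat_lit 2909) (nat_lit 32) .dd)))) (.ch (nat_lit 9) (.ev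
 (nat_lit 1104) (nat_lit 256) (.ev (nat_lit 1364) (nat_lit 1024) (.nd (nat_lit 2336) (.br (nat_lit 7) (.br
 (nat_lit 1) (.ch (nat_lit 0) (.ev (nat_lit 2788) (nat_lit 32768) (.ev (nat_lit 2797) (nat_lit 32) .dd))) (.ch
 (nat_lit 1) (.ev (nat_lit 2372) (nat_lit 32) (.ev (nat_lit 2381) (nat_lit 32768) .dd)))) (.br (nat_lit 8) (.ch
 (nat_lit 7) (.ev (nat_lit 2352) (nat_lit 32768) (.ev (nat_lit 2365) (nat_lit 32) .dd))) (.br (nat_lit 9) (.ch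
 (nat_lit 8) (.ev (nat_lit 2372) (nat_lit 32768) (.ev (nat_lit 2381) (nat_lit 32) .dd))) (.ch (nat_lit 9) (.ev
 (nat_lit 2352) (nat_lit 32768) (.ev (nat_lit 2365) (nat_lit 32) .dd))))))))))) (.br (nat_lit 12) (.ch (nat_lit
 10) (.ev (nat_lit 1104) (nat_lit 32) (.ev (nat_lit 2948) (nat_lit 32768) (.nd (nat_lit 3984) (.br (nat_lit 6)
 (.br (nat_lit 1) (.ch (nat_lit 0) (.ev (nat_lit 4000) (nat_lit 256) (.ev (nat_lit 4013) (nat_lit 1024) .dd)))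
 (.br (nat_lit 4) (.ch (nat_lit 1) (.ev (nat_lit 4000) (nat_lit 1024) (.ev (nat_lit 4013) (nat_lit 256) .dd)))
 (.ch (nat_lit 4) (.ev (nat_lit 4000) (nat_lit 256) (.ev (nat_lit 4013) (nat_lit 1024) .dd))))) (.br (nat_lit
 7) (.ch (nat_lit 6) (.ev (nat_lit 6644) (nat_lit 256) (.ev (nat_lit 6653) (nat_lit 1024) .dd))) (.br (nat_lit
 12) (.ch (nat_lit 7) (.ev (nat_lit 4000) (nat_lit 256) (.ev (nat_lit 4013) (nat_lit 1024) .dd))) (.ch (nat_lit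
 12) (.ev (nat_lit 4000) (nat_lit 1024) (.ev (nat_lit 4013) (nat_lit 256) .dd)))))))))) (.ch (nat_lit 12) (.ev
 (nat_lit 1124) (nat_lit 32) (.ev (nat_lit 1204) (nat_lit 1024) (.ev (nat_lit 1332) (nat_lit 256) (.ev (nat_lit
 1341) (nat_lit 32768) .dd))))))))))) (.ch (nat_lit 1) (.ev (nat_lit 496) (nat_lit 33826) (.ev (nat_lit 509)
 (nat_lit 256) .dd)))) (.br (nat_lit 5) (.ch (nat_lit 3) (.ev (nat_lit 496) (nat_lit 33824) (.nd (nat_lit 1264)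
 (.br (nat_lit 10) (.br (nat_lit 6) (.ch (nat_lit 2) (.ev (nat_lit 1300) (nat_lit 2) (.ev (nat_lit 1309)
 (nat_lit 256) .dd))) (.ch (nat_lit 6) (.ev (nat_lit 1332) (nat_lit 2) (.ev (nat_lit 1341) (nat_lit 256)
 .dd)))) (.br (nat_lit 12) (.ch (nat_lit 10) (.nd (nat_lit 3984) (.br (nat_lit 6) (.ch (nat_lit 4) (.fin
 (nat_lit 576459103046943289))) (.ch (nat_lit 6) (.ev (nat_lit 4020) (nat_lit 2) (.ev (nat_lit 4029) (nat_lit
 256) .dd)))))) (.ch (nat_lit 12) (.nd (nat_lit 3984) (.br (nat_lit 11) (.ch (nat_lit 7) (.ev (nat_lit 4020)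
 (nat_lit 256) (.ev (nat_lit 4029) (nat_lit 2) .dd))) (.ch (nat_lit 11) (.ev (nat_lit 4020) (nat_lit 2) (.ev
 (nat_lit 4029) (nat_lit 256) .dd))))))))))) (.ch (nat_lit 5) (.ev (nat_lit 496) (nat_lit 256) (.nd (nat_lit
 880) (.br (nat_lit 5) (.br (nat_lit 3) (.ch (nat_lit 2) (.ev (nat_lit 1300) (nat_lit 2) (.nd (nat_lit 1744)
 (.br (nat_lit 7) (.br (nat_lit 4) (.ch (nat_lit 3) (.ev (nat_lit 1760) (nat_lit 1024) (.ev (nat_lit 1796)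
 (nat_lit 32) (.ev (nat_lit 1805) (nat_lit 32768) .dd)))) (.br (nat_lit 5) (.ch (nat_lit 4) (.ev (nat_lit 1760)
 (nat_lit 1056) (.ev (nat_lit 1773) (nat_lit 32768) .dd))) (.ch (nat_lit 5) (.ev (nat_lit 1760) (nat_lit 1056)
 (.ev (nat_lit 1773) (nat_lit 32768) .dd))))) (.br (nat_lit 10) (.br (nat_lit 9) (.ch (nat_lit 7) (.ev (nat_lit
 1760) (nat_lit 32768) (.ev (nat_lit 1780) (nat_lit 1024) (.ev (nat_lit 1789) (nat_lit 32) .dd)))) (.ch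
 (nat_lit 9) (.ev (nat_lit 6596) (nat_lit 32) (.fin (nat_lit 576478894245757491))))) (.br (nat_lit 12) (.ch
 (nat_lit 10) (.ev (nat_lit 3616) (nat_lit 1024) (.ev (nat_lit 5104) (nat_lit 32800) .dd))) (.ch (nat_lit 12)
 (.ev (nat_lit 5188) (nat_lit 32768) (.ev (nat_lit 5200) (nat_lit 32) (.ev (nat_lit 5213) (nat_lit 1024)
 .dd)))))))))) (.br (nat_lit 4) (.ch (nat_lit 3) (.ev (nat_lit 896) (nat_lit 32800) (.ev (nat_lit 1156)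
 (nat_lit 1024) (.ev (nat_lit 1165) (nat_lit 2) .dd)))) (.ch (nat_lit 4) (.ev (nat_lit 896) (nat_lit 1056) (.nd
 (nat_lit 2336) (.br (nat_lit 4) (.ch (nat_lit 0) (.ev (nat_lit 6356) (nat_lit 32768) (.ev (nat_lit 6365)
 (nat_lit 2) .dd))) (.ch (nat_lit 4) (.fin (nat_lit 576487690313613908))))))))) (.br (nat_lit 8) (.br (nat_lit
 7) (.ch (nat_lit 5) (.ev (nat_lit 1300) (nat_lit 2) (.nd (nat_lit 1840) (.br (nat_lit 8) (.br (nat_lit 5) (.ch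
 (nat_lit 3) (.ev (nat_lit 1856) (nat_lit 1024) (.nd (nat_lit 4592) (.br (nat_lit 8) (.br (nat_lit 6) (.ch
 (nat_lit 1) (.ev (nat_lit 4608) (nat_lit 32) (.ev (nat_lit 4621) (nat_lit 32768) .dd))) (.ch (nat_lit 6) (.ev
 (nat_lit 4608) (nat_lit 32768) (.ev (nat_lit 4621) (nat_lit 32) .dd)))) (.br (nat_lit 10) (.ch (nat_lit 8)
 (.ev (nat_lit 4644) (nat_lit 32768) (.ev (nat_lit 4653) (nat_lit 32) .dd))) (.ch (nat_lit 10) (.ev (nat_lit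
 4932) (nat_lit 32) (.ev (nat_lit 4941) (nat_lit 32768) .dd)))))))) (.br (nat_lit 6) (.ch (nat_lit 5) (.ev
 (nat_lit 1856) (nat_lit 32768) (.ev (nat_lit 3252) (nat_lit 1024) (.ev (nat_lit 3261) (nat_lit 32) .dd))))
 (.ch (nat_lit 6) (.ev (nat_lit 1856) (nat_lit 1024) (.ev (nat_lit 6740) (nat_lit 32768) (.ev (nat_lit 6749)
 (nat_lit 32) .dd)))))) (.br (nat_lit 11) (.br (nat_lit 10) (.ch (nat_lit 8) (.ev (nat_lit 1856) (nat_lit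
 33792) (.ev (nat_lit 1869) (nat_lit 32) .dd))) (.ch (nat_lit 10) (.ev (nat_lit 1856) (nat_lit 1056) (.ev
 (nat_lit 1869) (nat_lit 32768) .dd)))) (.br (nat_lit 12) (.ch (nat_lit 11) (.ev (nat_lit 1856) (nat_lit 32768)
 (.ev (nat_lit 1876) (nat_lit 32) (.ev (nat_lit 1885) (nat_lit 1024) .dd)))) (.ch (nat_lit 12) (.ev (nat_lit
 1856) (nat_lit 1024) (.ev (nat_lit 6964) (nat_lit 32768) (.ev (nat_lit 6973) (nat_lit 32) .dd)))))))))) (.ch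
 (nat_lit 7) (.ev (nat_lit 896) (nat_lit 2) (.nd (nat_lit 1744) (.br (nat_lit 5) (.br (nat_lit 3) (.ch (nat_lit
 2) (.ev (nat_lit 1760) (nat_lit 32) (.ev (nat_lit 2004) (nat_lit 32768) (.ev (nat_lit 2013) (nat_lit 1024)
 .dd)))) (.br (nat_lit 4) (.ch (nat_lit 3) (.ev (nat_lit 1760) (nat_lit 32768) (.ev (nat_lit 3012) (nat_lit 32)
 (.ev (nat_lit 3021) (nat_lit 1024) .dd)))) (.ch (nat_lit 4) (.ev (nat_lit 1760) (nat_lit 32) (.ev (nat_lit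
 5492) (nat_lit 32768) (.ev (nat_lit 5501) (nat_lit 1024) .dd)))))) (.br (nat_lit 7) (.ch (nat_lit 5) (.ev
 (nat_lit 1760) (nat_lit 32) (.ev (nat_lit 3316) (nat_lit 1024) (.ev (nat_lit 3325) (nat_lit 32768) .dd))))
 (.br (nat_lit 9) (.ch (nat_lit 7) (.ev (nat_lit 6260) (nat_lit 32) (.fin (nat_lit 576112757315158732)))) (.ch
 (nat_lit 9) (.ev (nat_lit 1760) (nat_lit 1024) (.ev (nat_lit 3792) (nat_lit 32800) .dd)))))))))) (.br (nat_lit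
 10) (.ch (nat_lit 8) (.ev (nat_lit 896) (nat_lit 32768) (.nd (nat_lit 2128) (.br (nat_lit 8) (.br (nat_lit 2)
 (.ch (nat_lit 1) (.ev (nat_lit 2144) (nat_lit 2) (.ev (nat_lit 6596) (nat_lit 1024) (.ev (nat_lit 6605)
 (nat_lit 32) .dd)))) (.br (nat_lit 4) (.ch (nat_lit 2) (.ev (nat_lit 2144) (nat_lit 2) (.ev (nat_lit 2740)
 (nat_lit 1024) (.ev (nat_lit 2749) (nat_lit 32) .dd)))) (.ch (nat_lit 4) (.ev (nat_lit 2676) (nat_lit 2) (.fin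
 (nat_lit 576398630197871692)))))) (.br (nat_lit 11) (.ch (nat_lit 8) (.ev (nat_lit 2676) (nat_lit 2) (.ev
 (nat_lit 6644) (nat_lit 32) (.ev (nat_lit 6653) (nat_lit 1024) .dd)))) (.br (nat_lit 12) (.ch (nat_lit 11)
 (.ev (nat_lit 2144) (nat_lit 1024) (.ev (nat_lit 3700) (nat_lit 2) (.ev (nat_lit 3709) (nat_lit 32) .dd))))
 (.ch (nat_lit 12) (.ev (nat_lit 5300) (nat_lit 32) (.ev (nat_lit 6260) (nat_lit 2) (.ev (nat_lit 6269)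
 (nat_lit 1024) .dd)))))))))) (.ch (nat_lit 10) (.ev (nat_lit 896) (nat_lit 1026) (.nd (nat_lit 1744) (.br
 (nat_lit 8) (.ch (nat_lit 2) (.ev (nat_lit 5236) (nat_lit 32) (.ev (nat_lit 5245) (nat_lit 32768) .dd))) (.br
 (nat_lit 11) (.ch (nat_lit 8) (.ev (nat_lit 6384) (nat_lit 32800) .dd)) (.ch (nat_lit 11) (.ev (nat_lit 5188)
 (nat_lit 32768) (.ev (nat_lit 5197) (nat_lit 32) .dd)))))))))))))))) (.br (nat_lit 10) (.br (nat_lit 9) (.ch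
 (nat_lit 8) (.ev (nat_lit 496) (nat_lit 32768) (.nd (nat_lit 1264) (.br (nat_lit 6) (.br (nat_lit 3) (.br
 (nat_lit 1) (.ch (nat_lit 0) (.ev (nat_lit 1280) (nat_lit 2) (.ev (nat_lit 2948) (nat_lit 256) (.nd (nat_lit
 3984) (.br (nat_lit 8) (.br (nat_lit 1) (.ch (nat_lit 0) (.ev (nat_lit 4052) (nat_lit 1024) (.ev (nat_lit
 4061) (nat_lit 32) .dd))) (.ch (nat_lit 1) (.ev (nat_lit 4000) (nat_lit 1024) (.ev (nat_lit 4013) (nat_lit 32)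
 .dd)))) (.br (nat_lit 12) (.ch (nat_lit 8) (.ev (nat_lit 4000) (nat_lit 32) (.ev (nat_lit 4013) (nat_lit 1024)
 .dd))) (.ch (nat_lit 12) (.ev (nat_lit 4000) (nat_lit 1024) (.ev (nat_lit 4013) (nat_lit 32) .dd))))))))) (.ch
 (nat_lit 1) (.ev (nat_lit 1280) (nat_lit 256) (.ev (nat_lit 1380) (nat_lit 2) (.nd (nat_lit 3984) (.br
 (nat_lit 5) (.br (nat_lit 3) (.ch (nat_lit 2) (.ev (nat_lit 4000) (nat_lit 1024) (.ev (nat_lit 4013) (nat_lit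
 32) .dd))) (.ch (nat_lit 3) (.ev (nat_lit 4000) (nat_lit 1056) .dd))) (.br (nat_lit 7) (.ch (nat_lit 5) (.ev
 (nat_lit 4000) (nat_lit 1056) .dd)) (.br (nat_lit 8) (.ch (nat_lit 7) (.ev (nat_lit 4000) (nat_lit 32) (.ev
 (nat_lit 4013) (nat_lit 1024) .dd))) (.ch (nat_lit 8) (.ev (nat_lit 4000) (nat_lit 1056) .dd)))))))))) (.br
 (nat_lit 5) (.ch (nat_lit 3) (.ev (nat_lit 1280) (nat_lit 1058) (.ev (nat_lit 1293) (nat_lit 256) .dd))) (.ch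
 (nat_lit 5) (.ev (nat_lit 1280) (nat_lit 1056) (.ev (nat_lit 1300) (nat_lit 2) (.ev (nat_lit 1309) (nat_lit
 256) .dd)))))) (.br (nat_lit 8) (.br (nat_lit 7) (.ch (nat_lit 6) (.ev (nat_lit 1280) (nat_lit 288) (.fin
 (nat_lit 576439311835546170)))) (.ch (nat_lit 7) (.ev (nat_lit 1280) (nat_lit 1024) (.ev (nat_lit 1332)
 (nat_lit 2) (.nd (nat_lit 2624) (.br (nat_lit 6) (.br (nat_lit 3) (.br (nat_lit 2) (.ch (nat_lit 1) (.ev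
 (nat_lit 2640) (nat_lit 256) (.ev (nat_lit 2653) (nat_lit 32) .dd))) (.ch (nat_lit 2) (.ev (nat_lit 2640)
 (nat_lit 256) (.ev (nat_lit 2653) (nat_lit 32) .dd)))) (.br (nat_lit 4) (.ch (nat_lit 3) (.ev (nat_lit 2676)
 (nat_lit 256) (.ev (nat_lit 2685) (nat_lit 32) .dd))) (.ch (nat_lit 4) (.ev (nat_lit 2868) (nat_lit 32) (.ev
 (nat_lit 2877) (nat_lit 256) .dd))))) (.br (nat_lit 9) (.br (nat_lit 8) (.ch (nat_lit 6) (.ev (nat_lit 2676)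
 (nat_lit 256) (.ev (nat_lit 2685) (nat_lit 32) .dd))) (.ch (nat_lit 8) (.ev (nat_lit 2640) (nat_lit 32) (.ev
 (nat_lit 2653) (nat_lit 256) .dd)))) (.br (nat_lit 10) (.ch (nat_lit 9) (.ev (nat_lit 2640) (nat_lit 32) (.ev
 (nat_lit 2653) (nat_lit 256) .dd))) (.ch (nat_lit 10) (.ev (nat_lit 3076) (nat_lit 32) (.ev (nat_lit 3085)
 (nat_lit 256) .dd))))))))))) (.br (nat_lit 9) (.ch (nat_lit 8) (.ev (nat_lit 1280) (nat_lit 1058) (.ev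
 (nat_lit 1293) (nat_lit 256) .dd))) (.br (nat_lit 11) (.ch (nat_lit 9) (.ev (nat_lit 1280) (nat_lit 2) (.ev
 (nat_lit 1300) (nat_lit 32) (.ev (nat_lit 1332) (nat_lit 1024) (.ev (nat_lit 1341) (nat_lit 256) .dd))))) (.ch
 (nat_lit 11) (.ev (nat_lit 1280) (nat_lit 1280) (.ev (nat_lit 3140) (nat_lit 32) (.ev (nat_lit 3149) (nat_lit
 2) .dd))))))))))) (.ch (nat_lit 9) (.ev (nat_lit 496) (nat_lit 34) (.nd (nat_lit 1168) (.br (nat_lit 8) (.br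
 (nat_lit 3) (.ch (nat_lit 0) (.ev (nat_lit 1184) (nat_lit 32768) (.ev (nat_lit 3604) (nat_lit 1024) (.ev
 (nat_lit 3613) (nat_lit 256) .dd)))) (.br (nat_lit 4) (.ch (nat_lit 3) (.ev (nat_lit 1184) (nat_lit 256) (.nd
 (nat_lit 1840) (.br (nat_lit 7) (.br (nat_lit 3) (.ch (nat_lit 0) (.ev (nat_lit 2388) (nat_lit 1024) (.ev
 (nat_lit 2397) (nat_lit 32768) .dd))) (.br (nat_lit 4) (.ch (nat_lit 3) (.ev (nat_lit 2372) (nat_lit 1024)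
 (.ev (nat_lit 2381) (nat_lit 32768) .dd))) (.ch (nat_lit 4) (.ev (nat_lit 1856) (nat_lit 1024) (.ev (nat_lit
 1869) (nat_lit 32768) .dd))))) (.br (nat_lit 8) (.ch (nat_lit 7) (.ev (nat_lit 3812) (nat_lit 32768) (.ev
 (nat_lit 3821) (nat_lit 1024) .dd))) (.br (nat_lit 9) (.ch (nat_lit 8) (.ev (nat_lit 2372) (nat_lit 1024) (.ev
 (nat_lit 2381) (nat_lit 32768) .dd))) (.ch (nat_lit 9) (.ev (nat_lit 2372) (nat_lit 1024) (.ev (nat_lit 2381)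
 (nat_lit 32768) .dd))))))))) (.ch (nat_lit 4) (.ev (nat_lit 1184) (nat_lit 1024) (.nd (nat_lit 3408) (.br
 (nat_lit 8) (.br (nat_lit 4) (.ch (nat_lit 0) (.ev (nat_lit 3424) (nat_lit 32768) (.ev (nat_lit 3437) (nat_lit
 256) .dd))) (.ch (nat_lit 4) (.ev (nat_lit 3424) (nat_lit 32768) (.ev (nat_lit 3437) (nat_lit 256) .dd))))
 (.br (nat_lit 10) (.ch (nat_lit 8) (.ev (nat_lit 3424) (nat_lit 32768) (.ev (nat_lit 3437) (nat_lit 256)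
 .dd))) (.br (nat_lit 11) (.ch (nat_lit 10) (.ev (nat_lit 5604) (nat_lit 32768) (.ev (nat_lit 5613) (nat_lit
 256) .dd))) (.ch (nat_lit 11) (.ev (nat_lit 3424) (nat_lit 32768) (.ev (nat_lit 3437) (nat_lit 256)
 .dd))))))))))) (.br (nat_lit 11) (.br (nat_lit 10) (.ch (nat_lit 8) (.nd (nat_lit 3408) (.br (nat_lit 5) (.br
 (nat_lit 2) (.ch (nat_lit 1) (.ev (nat_lit 3424) (nat_lit 33792) (.ev (nat_lit 3437) (nat_lit 256) .dd))) (.br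
 (nat_lit 4) (.ch (nat_lit 2) (.ev (nat_lit 3424) (nat_lit 256) (.ev (nat_lit 6964) (nat_lit 32768) (.ev
 (nat_lit 6973) (nat_lit 1024) .dd)))) (.ch (nat_lit 4) (.ev (nat_lit 3424) (nat_lit 1024) (.ev (nat_lit 3700)
 (nat_lit 256) (.ev (nat_lit 3709) (nat_lit 32768) .dd)))))) (.br (nat_lit 7) (.ch (nat_lit 5) (.ev (nat_lit
 3424) (nat_lit 256) (.ev (nat_lit 3476) (nat_lit 32768) (.ev (nat_lit 3485) (nat_lit 1024) .dd)))) (.br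
 (nat_lit 10) (.ch (nat_lit 7) (.ev (nat_lit 3424) (nat_lit 256) (.ev (nat_lit 3476) (nat_lit 1024) (.ev
 (nat_lit 3485) (nat_lit 32768) .dd)))) (.ch (nat_lit 10) (.ev (nat_lit 3476) (nat_lit 256) (.ev (nat_lit 6692)
 (nat_lit 1024) (.ev (nat_lit 6701) (nat_lit 32768) .dd))))))))) (.ch (nat_lit 10) (.ev (nat_lit 1184) (nat_lit
 32768) (.ev (nat_lit 1300) (nat_lit 1024) (.ev (nat_lit 1309) (nat_lit 256) .dd))))) (.br (nat_lit 12) (.ch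
 (nat_lit 11) (.ev (nat_lit 1184) (nat_lit 1024) (.ev (nat_lit 1204) (nat_lit 256) (.ev (nat_lit 1213) (nat_lit
 32768) .dd)))) (.ch (nat_lit 12) (.ev (nat_lit 1184) (nat_lit 256) (.nd (nat_lit 2624) (.br (nat_lit 8) (.br
 (nat_lit 4) (.ch (nat_lit 0) (.ev (nat_lit 3476) (nat_lit 1024) (.ev (nat_lit 3485) (nat_lit 32768) .dd)))
 (.ch (nat_lit 4) (.ev (nat_lit 3540) (nat_lit 1024) (.ev (nat_lit 3549) (nat_lit 32768) .dd)))) (.br (nat_lit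
 10) (.ch (nat_lit 8) (.ev (nat_lit 5188) (nat_lit 1024) (.ev (nat_lit 5197) (nat_lit 32768) .dd))) (.br
 (nat_lit 11) (.ch (nat_lit 10) (.ev (nat_lit 3476) (nat_lit 1024) (.ev (nat_lit 3485) (nat_lit 32768) .dd)))
 (.ch (nat_lit 11) (.ev (nat_lit 3764) (nat_lit 1024) (.ev (nat_lit 3773) (nat_lit 32768) .dd))))))))))))))))
 (.br (nat_lit 11) (.ch (nat_lit 10) (.ev (nat_lit 496) (nat_lit 1280) (.ev (nat_lit 612) (nat_lit 2) (.nd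
 (nat_lit 944) (.br (nat_lit 8) (.br (nat_lit 4) (.ch (nat_lit 0) (.nd (nat_lit 2336) (.br (nat_lit 5) (.ch
 (nat_lit 4) (.ev (nat_lit 2388) (nat_lit 32768) (.ev (nat_lit 2397) (nat_lit 32) .dd))) (.br (nat_lit 11) (.ch
 (nat_lit 5) (.ev (nat_lit 6500) (nat_lit 32) (.ev (nat_lit 6509) (nat_lit 32768) .dd))) (.ch (nat_lit 11) (.ev
 (nat_lit 3652) (nat_lit 32768) (.ev (nat_lit 3661) (nat_lit 32) .dd))))))) (.br (nat_lit 7) (.ch (nat_lit 4)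
 (.ev (nat_lit 960) (nat_lit 32800) .dd)) (.ch (nat_lit 7) (.nd (nat_lit 1968) (.br (nat_lit 6) (.br (nat_lit
 1) (.ch (nat_lit 0) (.ev (nat_lit 6260) (nat_lit 32) (.ev (nat_lit 6269) (nat_lit 32768) .dd))) (.ch (nat_lit
 1) (.ev (nat_lit 2100) (nat_lit 32) (.ev (nat_lit 2109) (nat_lit 32768) .dd)))) (.br (nat_lit 9) (.ch (nat_lit
 6) (.fin (nat_lit 576493187862315606))) (.ch (nat_lit 9) (.ev (nat_lit 2212) (nat_lit 32768) (.ev (nat_lit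
 2221) (nat_lit 32) .dd))))))))) (.br (nat_lit 10) (.br (nat_lit 9) (.ch (nat_lit 8) (.nd (nat_lit 1968) (.br
 (nat_lit 8) (.br (nat_lit 5) (.ch (nat_lit 3) (.ev (nat_lit 2788) (nat_lit 32768) (.ev (nat_lit 2797) (nat_lit
 32) .dd))) (.br (nat_lit 7) (.ch (nat_lit 5) (.ev (nat_lit 2740) (nat_lit 32768) (.ev (nat_lit 2749) (nat_lit
 32) .dd))) (.ch (nat_lit 7) (.ev (nat_lit 1984) (nat_lit 32800) .dd)))) (.br (nat_lit 11) (.ch (nat_lit 8)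
 (.ev (nat_lit 2740) (nat_lit 32768) (.ev (nat_lit 2749) (nat_lit 32) .dd))) (.br (nat_lit 12) (.ch (nat_lit
 11) (.ev (nat_lit 1984) (nat_lit 32768) (.ev (nat_lit 1997) (nat_lit 32) .dd))) (.ch (nat_lit 12) (.nd
 (nat_lit 4864) (.br (nat_lit 6) (.br (nat_lit 2) (.ch (nat_lit 0) (.ev (nat_lit 5668) (nat_lit 32768) (.ev
 (nat_lit 5677) (nat_lit 32) .dd))) (.ch (nat_lit 2) (.ev (nat_lit 5668) (nat_lit 32768) (.ev (nat_lit 5677)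
 (nat_lit 32) .dd)))) (.br (nat_lit 10) (.ch (nat_lit 6) (.ev (nat_lit 5140) (nat_lit 32) (.ev (nat_lit 5149)
 (nat_lit 32768) .dd))) (.br (nat_lit 12) (.ch (nat_lit 10) (.ev (nat_lit 5044) (nat_lit 32) (.ev (nat_lit
 5053) (nat_lit 32768) .dd))) (.ch (nat_lit 12) (.ev (nat_lit 4932) (nat_lit 32) (.ev (nat_lit 4941) (nat_lit
 32768) .dd))))))))))))) (.ch (nat_lit 9) (.ev (nat_lit 960) (nat_lit 32768) (.ev (nat_lit 973) (nat_lit 32)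
 .dd)))) (.br (nat_lit 12) (.ch (nat_lit 10) (.nd (nat_lit 2128) (.br (nat_lit 5) (.br (nat_lit 3) (.ch
 (nat_lit 2) (.ev (nat_lit 2144) (nat_lit 32) (.ev (nat_lit 2157) (nat_lit 32768) .dd))) (.br (nat_lit 4) (.ch
 (nat_lit 3) (.ev (nat_lit 2144) (nat_lit 32) (.ev (nat_lit 2157) (nat_lit 32768) .dd))) (.ch (nat_lit 4) (.ev
 (nat_lit 2144) (nat_lit 32768) (.ev (nat_lit 2157) (nat_lit 32) .dd))))) (.br (nat_lit 8) (.br (nat_lit 7)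
 (.ch (nat_lit 5) (.nd (nat_lit 4416) (.br (nat_lit 6) (.br (nat_lit 3) (.ch (nat_lit 0) (.ev (nat_lit 4724)
 (nat_lit 32) (.ev (nat_lit 4733) (nat_lit 32768) .dd))) (.ch (nat_lit 3) (.ev (nat_lit 4432) (nat_lit 32768)
 (.ev (nat_lit 4445) (nat_lit 32) .dd)))) (.br (nat_lit 7) (.ch (nat_lit 6) (.ev (nat_lit 4432) (nat_lit 32768)
 (.ev (nat_lit 4445) (nat_lit 32) .dd))) (.br (nat_lit 10) (.ch (nat_lit 7) (.ev (nat_lit 4944) (nat_lit 32800)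
 .dd)) (.ch (nat_lit 10) (.ev (nat_lit 4432) (nat_lit 32) (.ev (nat_lit 4445) (nat_lit 32768) .dd)))))))) (.ch
 (nat_lit 7) (.ev (nat_lit 5668) (nat_lit 32768) (.ev (nat_lit 5677) (nat_lit 32) .dd)))) (.br (nat_lit 11)
 (.ch (nat_lit 8) (.ev (nat_lit 2144) (nat_lit 32) (.ev (nat_lit 2157) (nat_lit 32768) .dd))) (.ch (nat_lit 11)
 (.ev (nat_lit 2144) (nat_lit 32) (.ev (nat_lit 2157) (nat_lit 32768) .dd)))))))) (.ch (nat_lit 12) (.nd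
 (nat_lit 1840) (.br (nat_lit 7) (.br (nat_lit 3) (.ch (nat_lit 1) (.ev (nat_lit 2484) (nat_lit 32) (.ev
 (nat_lit 2493) (nat_lit 32768) .dd))) (.br (nat_lit 5) (.ch (nat_lit 3) (.ev (nat_lit 1856) (nat_lit 32768)
 (.ev (nat_lit 1869) (nat_lit 32) .dd))) (.ch (nat_lit 5) (.ev (nat_lit 3076) (nat_lit 32) (.ev (nat_lit 3085)
 (nat_lit 32768) .dd))))) (.br (nat_lit 8) (.ch (nat_lit 7) (.ev (nat_lit 2164) (nat_lit 32768) (.ev (nat_lit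
 2173) (nat_lit 32) .dd))) (.br (nat_lit 10) (.ch (nat_lit 8) (.ev (nat_lit 1892) (nat_lit 32) (.ev (nat_lit
 1901) (nat_lit 32768) .dd))) (.ch (nat_lit 10) (.ev (nat_lit 2164) (nat_lit 32768) (.ev (nat_lit 2173)
 (nat_lit 32) .dd))))))))))))))) (.br (nat_lit 12) (.ch (nat_lit 11) (.ev (nat_lit 496) (nat_lit 32) (.ev
 (nat_lit 612) (nat_lit 2) (.nd (nat_lit 1168) (.br (nat_lit 6) (.br (nat_lit 2) (.br (nat_lit 1) (.ch (nat_lit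
 0) (.ev (nat_lit 1184) (nat_lit 1280) (.ev (nat_lit 1197) (nat_lit 32768) .dd))) (.ch (nat_lit 1) (.nd
 (nat_lit 3408) (.br (nat_lit 9) (.br (nat_lit 6) (.br (nat_lit 5) (.ch (nat_lit 1) (.ev (nat_lit 3476)
 (nat_lit 32768) (.ev (nat_lit 6868) (nat_lit 256) (.ev (nat_lit 6877) (nat_lit 1024) .dd)))) (.ch (nat_lit 5)
 (.ev (nat_lit 3424) (nat_lit 1024) (.ev (nat_lit 3476) (nat_lit 256) (.ev (nat_lit 3485) (nat_lit 32768)
 .dd))))) (.br (nat_lit 7) (.ch (nat_lit 6) (.ev (nat_lit 3424) (nat_lit 256) (.ev (nat_lit 3540) (nat_lit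
 32768) (.ev (nat_lit 3549) (nat_lit 1024) .dd)))) (.ch (nat_lit 7) (.ev (nat_lit 3424) (nat_lit 1280) (.ev
 (nat_lit 3437) (nat_lit 32768) .dd))))) (.br (nat_lit 11) (.br (nat_lit 10) (.ch (nat_lit 9) (.ev (nat_lit
 3424) (nat_lit 33792) (.ev (nat_lit 3437) (nat_lit 256) .dd))) (.ch (nat_lit 10) (.ev (nat_lit 3424) (nat_lit
 33792) (.ev (nat_lit 3437) (nat_lit 256) .dd)))) (.br (nat_lit 12) (.ch (nat_lit 11) (.ev (nat_lit 3476)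
 (nat_lit 256) (.ev (nat_lit 5680) (nat_lit 1024) (.ev (nat_lit 5693) (nat_lit 32768) .dd)))) (.ch (nat_lit 12)
 (.ev (nat_lit 3424) (nat_lit 33792) (.ev (nat_lit 3437) (nat_lit 256) .dd))))))))) (.br (nat_lit 5) (.ch
 (nat_lit 2) (.ev (nat_lit 1184) (nat_lit 1024) (.ev (nat_lit 2900) (nat_lit 256) (.ev (nat_lit 2909) (nat_lit
 32768) .dd)))) (.ch (nat_lit 5) (.ev (nat_lit 1184) (nat_lit 32768) (.nd (nat_lit 3984) (.br (nat_lit 7) (.br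
 (nat_lit 2) (.ch (nat_lit 0) (.ev (nat_lit 4020) (nat_lit 256) (.ev (nat_lit 4029) (nat_lit 1024) .dd))) (.ch
 (nat_lit 2) (.ev (nat_lit 6260) (nat_lit 256) (.ev (nat_lit 6269) (nat_lit 1024) .dd)))) (.br (nat_lit 11)
 (.ch (nat_lit 7) (.ev (nat_lit 4020) (nat_lit 256) (.ev (nat_lit 4029) (nat_lit 1024) .dd))) (.ch (nat_lit 11)
 (.ev (nat_lit 4000) (nat_lit 1024) (.ev (nat_lit 4013) (nat_lit 256) .dd)))))))))) (.br (nat_lit 10) (.br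
 (nat_lit 9) (.ch (nat_lit 6) (.ev (nat_lit 1184) (nat_lit 33024) (.ev (nat_lit 1197) (nat_lit 1024) .dd)))
 (.ch (nat_lit 9) (.ev (nat_lit 2788) (nat_lit 256) (.nd (nat_lit 3984) (.br (nat_lit 4) (.br (nat_lit 2) (.ch
 (nat_lit 1) (.ev (nat_lit 4000) (nat_lit 1024) (.ev (nat_lit 4013) (nat_lit 32768) .dd))) (.br (nat_lit 3)
 (.ch (nat_lit 2) (.ev (nat_lit 5924) (nat_lit 1024) (.ev (nat_lit 5933) (nat_lit 32768) .dd))) (.ch (nat_lit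
 3) (.ev (nat_lit 4000) (nat_lit 32768) (.ev (nat_lit 4013) (nat_lit 1024) .dd))))) (.br (nat_lit 8) (.br
 (nat_lit 6) (.ch (nat_lit 4) (.ev (nat_lit 5572) (nat_lit 32768) (.ev (nat_lit 5581) (nat_lit 1024) .dd)))
 (.ch (nat_lit 6) (.ev (nat_lit 4000) (nat_lit 33792) .dd))) (.br (nat_lit 11) (.ch (nat_lit 8) (.ev (nat_lit
 4148) (nat_lit 32768) (.ev (nat_lit 4157) (nat_lit 1024) .dd))) (.ch (nat_lit 11) (.ev (nat_lit 4000) (nat_lit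
 32768) (.ev (nat_lit 4013) (nat_lit 1024) .dd)))))))))) (.br (nat_lit 11) (.ch (nat_lit 10) (.ev (nat_lit
 1184) (nat_lit 1024) (.ev (nat_lit 3844) (nat_lit 32768) (.ev (nat_lit 3853) (nat_lit 256) .dd)))) (.br
 (nat_lit 12) (.ch (nat_lit 11) (.ev (nat_lit 1184) (nat_lit 33024) (.ev (nat_lit 1197) (nat_lit 1024) .dd)))
 (.ch (nat_lit 12) (.nd (nat_lit 3408) (.br (nat_lit 5) (.br (nat_lit 2) (.ch (nat_lit 1) (.ev (nat_lit 3424)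
 (nat_lit 256) (.ev (nat_lit 4020) (nat_lit 32768) (.ev (nat_lit 4029) (nat_lit 1024) .dd)))) (.br (nat_lit 4)
 (.ch (nat_lit 2) (.ev (nat_lit 3424) (nat_lit 1024) (.ev (nat_lit 3476) (nat_lit 256) (.ev (nat_lit 3485)
 (nat_lit 32768) .dd)))) (.ch (nat_lit 4) (.ev (nat_lit 3424) (nat_lit 32768) (.ev (nat_lit 3476) (nat_lit 256)
 (.ev (nat_lit 3485) (nat_lit 1024) .dd)))))) (.br (nat_lit 8) (.br (nat_lit 7) (.ch (nat_lit 5) (.ev (nat_lit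
 3424) (nat_lit 1024) (.ev (nat_lit 6452) (nat_lit 32768) (.ev (nat_lit 6461) (nat_lit 256) .dd)))) (.ch
 (nat_lit 7) (.ev (nat_lit 3424) (nat_lit 256) (.fin (nat_lit 576487690407985870))))) (.br (nat_lit 11) (.ch
 (nat_lit 8) (.ev (nat_lit 3424) (nat_lit 1024) (.ev (nat_lit 3476) (nat_lit 256) (.ev (nat_lit 3485) (nat_lit
 32768) .dd)))) (.ch (nat_lit 11) (.ev (nat_lit 3424) (nat_lit 33024) (.ev (nat_lit 3437) (nat_lit 1024)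
 .dd)))))))))))))))) (.ch (nat_lit 12) (.ev (nat_lit 496) (nat_lit 33024) (.nd (nat_lit 1168) (.br (nat_lit 9)
 (.br (nat_lit 3) (.ch (nat_lit 1) (.ev (nat_lit 1184) (nat_lit 2) (.ev (nat_lit 1300) (nat_lit 1024) (.ev
 (nat_lit 1309) (nat_lit 32) .dd)))) (.br (nat_lit 6) (.ch (nat_lit 3) (.ev (nat_lit 1184) (nat_lit 32) (.ev
 (nat_lit 3652) (nat_lit 1024) (.ev (nat_lit 3661) (nat_lit 2) .dd)))) (.ch (nat_lit 6) (.ev (nat_lit 1184)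
 (nat_lit 1024) (.ev (nat_lit 3540) (nat_lit 32) (.ev (nat_lit 3549) (nat_lit 2) .dd)))))) (.br (nat_lit 11)
 (.br (nat_lit 10) (.ch (nat_lit 9) (.nd (nat_lit 2624) (.br (nat_lit 7) (.br (nat_lit 2) (.ch (nat_lit 1) (.ev
 (nat_lit 2640) (nat_lit 32) (.ev (nat_lit 3440) (nat_lit 1026) .dd))) (.br (nat_lit 4) (.ch (nat_lit 2) (.ev
 (nat_lit 4020) (nat_lit 1024) (.ev (nat_lit 6500) (nat_lit 32) (.ev (nat_lit 6509) (nat_lit 2) .dd)))) (.ch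
 (nat_lit 4) (.ev (nat_lit 2640) (nat_lit 2) (.ev (nat_lit 6356) (nat_lit 1024) (.ev (nat_lit 6365) (nat_lit
 32) .dd)))))) (.br (nat_lit 9) (.ch (nat_lit 7) (.ev (nat_lit 2640) (nat_lit 1024) (.ev (nat_lit 6148)
 (nat_lit 2) (.ev (nat_lit 6157) (nat_lit 32) .dd)))) (.br (nat_lit 12) (.ch (nat_lit 9) (.ev (nat_lit 2640)
 (nat_lit 32) (.ev (nat_lit 2800) (nat_lit 1026) .dd))) (.ch (nat_lit 12) (.ev (nat_lit 2640) (nat_lit 1024)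
 (.ev (nat_lit 2656) (nat_lit 34) .dd)))))))) (.ch (nat_lit 10) (.ev (nat_lit 1184) (nat_lit 32) (.ev (nat_lit
 1300) (nat_lit 2) (.ev (nat_lit 1309) (nat_lit 1024) .dd))))) (.br (nat_lit 12) (.ch (nat_lit 11) (.ev
 (nat_lit 1184) (nat_lit 1024) (.nd (nat_lit 3408) (.br (nat_lit 8) (.ch (nat_lit 2) (.ev (nat_lit 3876)
 (nat_lit 2) (.ev (nat_lit 3885) (nat_lit 32) .dd))) (.br (nat_lit 12) (.ch (nat_lit 8) (.ev (nat_lit 3700)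
 (nat_lit 32) (.ev (nat_lit 3709) (nat_lit 2) .dd))) (.ch (nat_lit 12) (.ev (nat_lit 3876) (nat_lit 2) (.ev
 (nat_lit 3885) (nat_lit 32) .dd)))))))) (.ch (nat_lit 12) (.ev (nat_lit 1300) (nat_lit 2) (.nd (nat_lit 3984)
 (.br (nat_lit 10) (.ch (nat_lit 1) (.fin (nat_lit 576482192810001010))) (.ch (nat_lit 10) (.ev (nat_lit 4000)
 (nat_lit 1024) (.ev (nat_lit 4013) (nat_lit 32) .dd)))))))))))))))))))))) (.br (nat_lit 8) (.br (nat_lit 7)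
 (.ch (nat_lit 6) (.ev (nat_lit 48) (nat_lit 33094) (.nd (nat_lit 528) (.br (nat_lit 4) (.br (nat_lit 2) (.br
 (nat_lit 1) (.ch (nat_lit 0) (.ev (nat_lit 544) (nat_lit 70688) (.ev (nat_lit 557) (nat_lit 2048) .dd))) (.ch
 (nat_lit 1) (.ev (nat_lit 544) (nat_lit 4096) (.nd (nat_lit 1264) (.br (nat_lit 8) (.br (nat_lit 3) (.br
 (nat_lit 1) (.ch (nat_lit 0) (.ev (nat_lit 1280) (nat_lit 2048) (.ev (nat_lit 1364) (nat_lit 32) (.ev (nat_lit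
 2948) (nat_lit 65536) (.ev (nat_lit 2957) (nat_lit 1024) .dd))))) (.ch (nat_lit 1) (.ev (nat_lit 1280)
 (nat_lit 67584) (.ev (nat_lit 2900) (nat_lit 32) (.ev (nat_lit 2909) (nat_lit 1024) .dd))))) (.br (nat_lit 7)
 (.ch (nat_lit 3) (.ev (nat_lit 1280) (nat_lit 32) (.nd (nat_lit 2624) (.br (nat_lit 7) (.br (nat_lit 5) (.ch
 (nat_lit 3) (.ev (nat_lit 2640) (nat_lit 66560) (.ev (nat_lit 2653) (nat_lit 2048) .dd))) (.br (nat_lit 6)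
 (.ch (nat_lit 5) (.ev (nat_lit 2640) (nat_lit 65536) (.ev (nat_lit 2676) (nat_lit 1024) (.ev (nat_lit 2685)
 (nat_lit 2048) .dd)))) (.ch (nat_lit 6) (.ev (nat_lit 3044) (nat_lit 65536) (.ev (nat_lit 6900) (nat_lit 2048)
 (.ev (nat_lit 6909) (nat_lit 1024) .dd)))))) (.br (nat_lit 8) (.ch (nat_lit 7) (.ev (nat_lit 2640) (nat_lit
 67584) (.ev (nat_lit 2653) (nat_lit 1024) .dd))) (.br (nat_lit 12) (.ch (nat_lit 8) (.ev (nat_lit 2640)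
 (nat_lit 66560) (.ev (nat_lit 2653) (nat_lit 2048) .dd))) (.ch (nat_lit 12) (.ev (nat_lit 2676) (nat_lit 1024)
 (.ev (nat_lit 6596) (nat_lit 2048) (.ev (nat_lit 6605) (nat_lit 65536) .dd)))))))))) (.ch (nat_lit 7) (.ev
 (nat_lit 1300) (nat_lit 32) (.nd (nat_lit 2624) (.br (nat_lit 4) (.br (nat_lit 2) (.br (nat_lit 1) (.ch
 (nat_lit 0) (.ev (nat_lit 2640) (nat_lit 2048) (.ev (nat_lit 3012) (nat_lit 1024) (.ev (nat_lit 3021) (nat_lit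
 65536) .dd)))) (.ch (nat_lit 1) (.ev (nat_lit 2640) (nat_lit 65536) (.ev (nat_lit 2676) (nat_lit 1024) (.ev
 (nat_lit 2685) (nat_lit 2048) .dd))))) (.br (nat_lit 3) (.ch (nat_lit 2) (.ev (nat_lit 2640) (nat_lit 1024)
 (.ev (nat_lit 2676) (nat_lit 2048) (.ev (nat_lit 2685) (nat_lit 65536) .dd)))) (.ch (nat_lit 3) (.ev (nat_lit
 2640) (nat_lit 65536) (.ev (nat_lit 2676) (nat_lit 1024) (.ev (nat_lit 2685) (nat_lit 2048) .dd)))))) (.br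
 (nat_lit 10) (.br (nat_lit 7) (.ch (nat_lit 4) (.ev (nat_lit 2640) (nat_lit 1024) (.fin (nat_lit
 576471197663314491)))) (.ch (nat_lit 7) (.ev (nat_lit 2640) (nat_lit 2048) (.ev (nat_lit 2740) (nat_lit 65536)
 (.ev (nat_lit 2749) (nat_lit 1024) .dd))))) (.br (nat_lit 11) (.ch (nat_lit 10) (.ev (nat_lit 2640) (nat_lit
 67584) (.ev (nat_lit 2653) (nat_lit 1024) .dd))) (.br (nat_lit 12) (.ch (nat_lit 11) (.ev (nat_lit 2676)
 (nat_lit 3072) (.ev (nat_lit 2685) (nat_lit 65536) .dd))) (.ch (nat_lit 12) (.ev (nat_lit 2640) (nat_lit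
 68608) .dd))))))))))) (.br (nat_lit 10) (.br (nat_lit 9) (.ch (nat_lit 8) (.ev (nat_lit 1280) (nat_lit 66560)
 (.ev (nat_lit 1364) (nat_lit 32) (.ev (nat_lit 1373) (nat_lit 2048) .dd)))) (.ch (nat_lit 9) (.ev (nat_lit
 1280) (nat_lit 1056) (.nd (nat_lit 3408) (.br (nat_lit 7) (.br (nat_lit 1) (.ch (nat_lit 0) (.ev (nat_lit
 3476) (nat_lit 2048) (.ev (nat_lit 3485) (nat_lit 65536) .dd))) (.br (nat_lit 3) (.ch (nat_lit 1) (.ev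
 (nat_lit 3476) (nat_lit 2048) (.ev (nat_lit 3485) (nat_lit 65536) .dd))) (.ch (nat_lit 3) (.ev (nat_lit 3424)
 (nat_lit 2048) (.ev (nat_lit 3437) (nat_lit 65536) .dd))))) (.br (nat_lit 8) (.ch (nat_lit 7) (.ev (nat_lit
 3540) (nat_lit 65536) (.ev (nat_lit 3549) (nat_lit 2048) .dd))) (.br (nat_lit 12) (.ch (nat_lit 8) (.ev
 (nat_lit 3476) (nat_lit 2048) (.ev (nat_lit 3485) (nat_lit 65536) .dd))) (.ch (nat_lit 12) (.ev (nat_lit 3424)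
 (nat_lit 65536) (.ev (nat_lit 3437) (nat_lit 2048) .dd)))))))))) (.br (nat_lit 12) (.ch (nat_lit 10) (.ev
 (nat_lit 1300) (nat_lit 1056) (.ev (nat_lit 1332) (nat_lit 2048) (.ev (nat_lit 1341) (nat_lit 65536) .dd))))
 (.ch (nat_lit 12) (.ev (nat_lit 1280) (nat_lit 1024) (.ev (nat_lit 2948) (nat_lit 65536) (.nd (nat_lit 3984)
 (.br (nat_lit 7) (.br (nat_lit 2) (.ch (nat_lit 1) (.ev (nat_lit 4000) (nat_lit 2048) (.ev (nat_lit 4013)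
 (nat_lit 32) .dd))) (.br (nat_lit 4) (.ch (nat_lit 2) (.ev (nat_lit 6644) (nat_lit 2048) (.ev (nat_lit 6653)
 (nat_lit 32) .dd))) (.ch (nat_lit 4) (.ev (nat_lit 4000) (nat_lit 2048) (.ev (nat_lit 4013) (nat_lit 32)
 .dd))))) (.br (nat_lit 8) (.ch (nat_lit 7) (.ev (nat_lit 4000) (nat_lit 32) (.ev (nat_lit 4013) (nat_lit 2048)
 .dd))) (.br (nat_lit 9) (.ch (nat_lit 8) (.ev (nat_lit 4000) (nat_lit 2048) (.ev (nat_lit 4013) (nat_lit 32)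
 .dd))) (.ch (nat_lit 9) (.ev (nat_lit 4000) (nat_lit 32) (.ev (nat_lit 4013) (nat_lit 2048)
 .dd))))))))))))))))) (.br (nat_lit 3) (.ch (nat_lit 2) (.ev (nat_lit 544) (nat_lit 67584) (.nd (nat_lit 1264)
 (.br (nat_lit 3) (.br (nat_lit 1) (.ch (nat_lit 0) (.ev (nat_lit 1300) (nat_lit 4096) (.nd (nat_lit 3984) (.br
 (nat_lit 9) (.ch (nat_lit 0) (.ev (nat_lit 4000) (nat_lit 32) (.ev (nat_lit 4013) (nat_lit 1024) .dd))) (.ch
 (nat_lit 9) (.fin (nat_lit 576482192753377825))))))) (.br (nat_lit 2) (.ch (nat_lit 1) (.ev (nat_lit 1280)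
 (nat_lit 32) (.ev (nat_lit 3876) (nat_lit 4096) (.ev (nat_lit 3885) (nat_lit 1024) .dd)))) (.ch (nat_lit 2)
 (.ev (nat_lit 1280) (nat_lit 1024) (.ev (nat_lit 1300) (nat_lit 4096) (.ev (nat_lit 1309) (nat_lit 32)
 .dd)))))) (.br (nat_lit 9) (.br (nat_lit 6) (.ch (nat_lit 3) (.nd (nat_lit 3984) (.br (nat_lit 5) (.ch
 (nat_lit 2) (.ev (nat_lit 4000) (nat_lit 32) (.ev (nat_lit 6148) (nat_lit 4096) (.ev (nat_lit 6157) (nat_lit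
 1024) .dd)))) (.br (nat_lit 7) (.ch (nat_lit 5) (.ev (nat_lit 4000) (nat_lit 4096) (.ev (nat_lit 6356)
 (nat_lit 32) (.ev (nat_lit 6365) (nat_lit 1024) .dd)))) (.ch (nat_lit 7) (.ev (nat_lit 4020) (nat_lit 32) (.ev
 (nat_lit 6500) (nat_lit 1024) (.ev (nat_lit 6509) (nat_lit 4096) .dd)))))))) (.ch (nat_lit 6) (.ev (nat_lit
 1280) (nat_lit 32) (.ev (nat_lit 3540) (nat_lit 1024) (.ev (nat_lit 3549) (nat_lit 4096) .dd))))) (.br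
 (nat_lit 11) (.ch (nat_lit 9) (.ev (nat_lit 1280) (nat_lit 1024) (.ev (nat_lit 3652) (nat_lit 32) (.ev
 (nat_lit 3661) (nat_lit 4096) .dd)))) (.ch (nat_lit 11) (.ev (nat_lit 1280) (nat_lit 4096) (.ev (nat_lit 1300)
 (nat_lit 32) (.ev (nat_lit 1309) (nat_lit 1024) .dd)))))))))) (.ch (nat_lit 3) (.ev (nat_lit 544) (nat_lit
 1024) (.ev (nat_lit 612) (nat_lit 4096) (.nd (nat_lit 1168) (.br (nat_lit 5) (.br (nat_lit 3) (.br (nat_lit 2)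
 (.ch (nat_lit 1) (.ev (nat_lit 1184) (nat_lit 32) (.ev (nat_lit 2900) (nat_lit 2048) (.ev (nat_lit 2909)
 (nat_lit 65536) .dd)))) (.ch (nat_lit 2) (.nd (nat_lit 2624) (.br (nat_lit 5) (.br (nat_lit 3) (.br (nat_lit
 1) (.ch (nat_lit 0) (.ev (nat_lit 2640) (nat_lit 65568) (.ev (nat_lit 2653) (nat_lit 2048) .dd))) (.ch
 (nat_lit 1) (.ev (nat_lit 2640) (nat_lit 65568) (.ev (nat_lit 2653) (nat_lit 2048) .dd)))) (.br (nat_lit 4)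
 (.ch (nat_lit 3) (.ev (nat_lit 2640) (nat_lit 2048) (.ev (nat_lit 2676) (nat_lit 32) (.ev (nat_lit 2685)
 (nat_lit 65536) .dd)))) (.ch (nat_lit 4) (.ev (nat_lit 2640) (nat_lit 2048) (.ev (nat_lit 3540) (nat_lit
 65536) (.ev (nat_lit 3549) (nat_lit 32) .dd)))))) (.br (nat_lit 11) (.br (nat_lit 9) (.ch (nat_lit 5) (.ev
 (nat_lit 2640) (nat_lit 32) (.ev (nat_lit 2676) (nat_lit 2048) (.ev (nat_lit 2685) (nat_lit 65536) .dd))))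
 (.ch (nat_lit 9) (.ev (nat_lit 3476) (nat_lit 65536) (.ev (nat_lit 6868) (nat_lit 2048) (.ev (nat_lit 6877)
 (nat_lit 32) .dd))))) (.br (nat_lit 12) (.ch (nat_lit 11) (.ev (nat_lit 2640) (nat_lit 65568) (.ev (nat_lit
 2653) (nat_lit 2048) .dd))) (.ch (nat_lit 12) (.ev (nat_lit 2676) (nat_lit 2048) (.ev (nat_lit 5680) (nat_lit
 32) (.ev (nat_lit 5693) (nat_lit 65536) .dd)))))))))) (.br (nat_lit 4) (.ch (nat_lit 3) (.ev (nat_lit 1184)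
 (nat_lit 2080) (.ev (nat_lit 1197) (nat_lit 65536) .dd))) (.ch (nat_lit 4) (.nd (nat_lit 2128) (.br (nat_lit
 6) (.br (nat_lit 3) (.br (nat_lit 2) (.ch (nat_lit 0) (.ev (nat_lit 2144) (nat_lit 65536) (.ev (nat_lit 2820)
 (nat_lit 32) (.ev (nat_lit 2829) (nat_lit 2048) .dd)))) (.ch (nat_lit 2) (.ev (nat_lit 2144) (nat_lit 32) (.ev
 (nat_lit 2164) (nat_lit 2048) (.ev (nat_lit 2173) (nat_lit 65536) .dd))))) (.br (nat_lit 5) (.ch (nat_lit 3)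
 (.ev (nat_lit 2144) (nat_lit 2048) (.ev (nat_lit 4020) (nat_lit 65536) (.ev (nat_lit 4029) (nat_lit 32)
 .dd)))) (.ch (nat_lit 5) (.ev (nat_lit 2144) (nat_lit 65536) (.ev (nat_lit 2868) (nat_lit 2048) (.ev (nat_lit
 2877) (nat_lit 32) .dd)))))) (.br (nat_lit 10) (.br (nat_lit 9) (.ch (nat_lit 6) (.ev (nat_lit 2144) (nat_lit
 67584) (.ev (nat_lit 2157) (nat_lit 32) .dd))) (.ch (nat_lit 9) (.ev (nat_lit 2144) (nat_lit 32) (.ev (nat_lit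
 2420) (nat_lit 2048) (.ev (nat_lit 2429) (nat_lit 65536) .dd))))) (.br (nat_lit 12) (.ch (nat_lit 10) (.ev
 (nat_lit 2144) (nat_lit 2048) (.fin (nat_lit 576487690271670730)))) (.ch (nat_lit 12) (.ev (nat_lit 2144)
 (nat_lit 32) (.ev (nat_lit 6452) (nat_lit 65536) (.ev (nat_lit 6461) (nat_lit 2048) .dd))))))))))) (.br
 (nat_lit 7) (.br (nat_lit 6) (.ch (nat_lit 5) (.ev (nat_lit 1184) (nat_lit 67584) (.ev (nat_lit 1197) (nat_lit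
 32) .dd))) (.ch (nat_lit 6) (.ev (nat_lit 1184) (nat_lit 32) (.nd (nat_lit 2624) (.br (nat_lit 9) (.br
 (nat_lit 7) (.ch (nat_lit 3) (.ev (nat_lit 3844) (nat_lit 65536) (.ev (nat_lit 3853) (nat_lit 2048) .dd)))
 (.ch (nat_lit 7) (.ev (nat_lit 3140) (nat_lit 2048) (.ev (nat_lit 3149) (nat_lit 65536) .dd)))) (.br (nat_lit
 12) (.ch (nat_lit 9) (.ev (nat_lit 2640) (nat_lit 65536) (.ev (nat_lit 2653) (nat_lit 2048) .dd))) (.ch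
 (nat_lit 12) (.ev (nat_lit 3604) (nat_lit 65536) (.ev (nat_lit 3613) (nat_lit 2048) .dd))))))))) (.br (nat_lit
 10) (.ch (nat_lit 7) (.nd (nat_lit 2336) (.br (nat_lit 5) (.br (nat_lit 1) (.ch (nat_lit 0) (.ev (nat_lit
 2352) (nat_lit 67584) (.ev (nat_lit 2365) (nat_lit 32) .dd))) (.br (nat_lit 2) (.ch (nat_lit 1) (.ev (nat_lit
 2372) (nat_lit 2048) (.ev (nat_lit 5924) (nat_lit 32) (.ev (nat_lit 5933) (nat_lit 65536) .dd)))) (.ch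
 (nat_lit 2) (.ev (nat_lit 2352) (nat_lit 32) (.ev (nat_lit 2372) (nat_lit 2048) (.ev (nat_lit 2381) (nat_lit
 65536) .dd)))))) (.br (nat_lit 10) (.br (nat_lit 8) (.ch (nat_lit 5) (.ev (nat_lit 2352) (nat_lit 65536) (.ev
 (nat_lit 2788) (nat_lit 2048) (.ev (nat_lit 2797) (nat_lit 32) .dd)))) (.ch (nat_lit 8) (.ev (nat_lit 2372)
 (nat_lit 2048) (.ev (nat_lit 4148) (nat_lit 65536) (.ev (nat_lit 4157) (nat_lit 32) .dd))))) (.br (nat_lit 12)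
 (.ch (nat_lit 10) (.ev (nat_lit 2352) (nat_lit 65568) (.ev (nat_lit 2365) (nat_lit 2048) .dd))) (.ch (nat_lit
 12) (.ev (nat_lit 2352) (nat_lit 2048) (.ev (nat_lit 5572) (nat_lit 65536) (.ev (nat_lit 5581) (nat_lit 32)
 .dd))))))))) (.br (nat_lit 11) (.ch (nat_lit 10) (.ev (nat_lit 1184) (nat_lit 67584) (.ev (nat_lit 1197)
 (nat_lit 32) .dd))) (.ch (nat_lit 11) (.ev (nat_lit 1184) (nat_lit 65536) (.nd (nat_lit 1968) (.br (nat_lit 7)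
 (.br (nat_lit 6) (.ch (nat_lit 4) (.ev (nat_lit 6260) (nat_lit 2048) (.ev (nat_lit 6269) (nat_lit 32) .dd)))
 (.ch (nat_lit 6) (.ev (nat_lit 3604) (nat_lit 2048) (.ev (nat_lit 3613) (nat_lit 32) .dd)))) (.br (nat_lit 8)
 (.ch (nat_lit 7) (.ev (nat_lit 2900) (nat_lit 2048) (.ev (nat_lit 2909) (nat_lit 32) .dd))) (.br (nat_lit 12)
 (.ch (nat_lit 8) (.ev (nat_lit 1984) (nat_lit 32) (.ev (nat_lit 1997) (nat_lit 2048) .dd))) (.ch (nat_lit 12)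
 (.ev (nat_lit 2948) (nat_lit 2048) (.ev (nat_lit 2957) (nat_lit 32) .dd))))))))))))))))))) (.br (nat_lit 6)
 (.br (nat_lit 5) (.ch (nat_lit 4) (.ev (nat_lit 544) (nat_lit 2080) (.ev (nat_lit 612) (nat_lit 4096) (.nd
 (nat_lit 1264) (.br (nat_lit 8) (.br (nat_lit 3) (.ch (nat_lit 0) (.nd (nat_lit 3408) (.br (nat_lit 7) (.br
 (nat_lit 4) (.ch (nat_lit 0) (.ev (nat_lit 6260) (nat_lit 1024) (.ev (nat_lit 6269) (nat_lit 65536) .dd)))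
 (.ch (nat_lit 4) (.ev (nat_lit 3476) (nat_lit 1024) (.ev (nat_lit 3485) (nat_lit 65536) .dd)))) (.br (nat_lit
 12) (.ch (nat_lit 7) (.fin (nat_lit 576493187933618759))) (.ch (nat_lit 12) (.ev (nat_lit 3476) (nat_lit 1024)
 (.ev (nat_lit 3485) (nat_lit 65536) .dd))))))) (.br (nat_lit 7) (.ch (nat_lit 3) (.ev (nat_lit 1280) (nat_lit
 66560) .dd)) (.ch (nat_lit 7) (.nd (nat_lit 3408) (.br (nat_lit 10) (.ch (nat_lit 4) (.ev (nat_lit 3652)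
 (nat_lit 65536) (.ev (nat_lit 3661) (nat_lit 1024) .dd))) (.br (nat_lit 11) (.ch (nat_lit 10) (.ev (nat_lit
 6500) (nat_lit 1024) (.ev (nat_lit 6509) (nat_lit 65536) .dd))) (.ch (nat_lit 11) (.ev (nat_lit 3476) (nat_lit
 1024) (.ev (nat_lit 3485) (nat_lit 65536) .dd))))))))) (.br (nat_lit 11) (.br (nat_lit 10) (.ch (nat_lit 8)
 (.nd (nat_lit 3408) (.br (nat_lit 8) (.br (nat_lit 2) (.ch (nat_lit 0) (.ev (nat_lit 3476) (nat_lit 1024) (.ev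
 (nat_lit 3485) (nat_lit 65536) .dd))) (.br (nat_lit 4) (.ch (nat_lit 2) (.ev (nat_lit 3424) (nat_lit 65536)
 (.ev (nat_lit 3437) (nat_lit 1024) .dd))) (.ch (nat_lit 4) (.ev (nat_lit 3476) (nat_lit 1024) (.ev (nat_lit
 3485) (nat_lit 65536) .dd))))) (.br (nat_lit 10) (.ch (nat_lit 8) (.ev (nat_lit 3424) (nat_lit 65536) (.ev
 (nat_lit 3437) (nat_lit 1024) .dd))) (.br (nat_lit 11) (.ch (nat_lit 10) (.ev (nat_lit 3476) (nat_lit 1024)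
 (.ev (nat_lit 3485) (nat_lit 65536) .dd))) (.ch (nat_lit 11) (.ev (nat_lit 3424) (nat_lit 65536) (.ev (nat_lit
 3437) (nat_lit 1024) .dd)))))))) (.ch (nat_lit 10) (.nd (nat_lit 2336) (.br (nat_lit 8) (.br (nat_lit 5) (.ch
 (nat_lit 2) (.ev (nat_lit 2352) (nat_lit 1024) (.ev (nat_lit 2365) (nat_lit 65536) .dd))) (.br (nat_lit 6)
 (.ch (nat_lit 5) (.ev (nat_lit 2352) (nat_lit 1024) (.ev (nat_lit 2365) (nat_lit 65536) .dd))) (.ch (nat_lit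
 6) (.ev (nat_lit 5668) (nat_lit 65536) (.ev (nat_lit 5677) (nat_lit 1024) .dd))))) (.br (nat_lit 10) (.br
 (nat_lit 9) (.ch (nat_lit 8) (.ev (nat_lit 4996) (nat_lit 1024) (.ev (nat_lit 5005) (nat_lit 65536) .dd)))
 (.ch (nat_lit 9) (.ev (nat_lit 2352) (nat_lit 65536) (.ev (nat_lit 2365) (nat_lit 1024) .dd)))) (.br (nat_lit
 11) (.ch (nat_lit 10) (.ev (nat_lit 2352) (nat_lit 1024) (.ev (nat_lit 2365) (nat_lit 65536) .dd))) (.ch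
 (nat_lit 11) (.ev (nat_lit 2352) (nat_lit 1024) (.ev (nat_lit 2365) (nat_lit 65536) .dd))))))))) (.br (nat_lit
 12) (.ch (nat_lit 11) (.ev (nat_lit 1280) (nat_lit 65536) (.ev (nat_lit 1293) (nat_lit 1024) .dd))) (.ch
 (nat_lit 12) (.nd (nat_lit 3408) (.br (nat_lit 5) (.br (nat_lit 3) (.ch (nat_lit 1) (.ev (nat_lit 3424)
 (nat_lit 66560) .dd)) (.ch (nat_lit 3) (.ev (nat_lit 3476) (nat_lit 65536) (.ev (nat_lit 3485) (nat_lit 1024)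
 .dd)))) (.br (nat_lit 9) (.ch (nat_lit 5) (.ev (nat_lit 3424) (nat_lit 65536) (.ev (nat_lit 3437) (nat_lit
 1024) .dd))) (.br (nat_lit 10) (.ch (nat_lit 9) (.ev (nat_lit 5668) (nat_lit 65536) (.ev (nat_lit 5677)
 (nat_lit 1024) .dd))) (.ch (nat_lit 10) (.ev (nat_lit 3424) (nat_lit 65536) (.ev (nat_lit 3437) (nat_lit 1024)
 .dd))))))))))))))) (.ch (nat_lit 5) (.ev (nat_lit 544) (nat_lit 5120) (.nd (nat_lit 1264) (.br (nat_lit 7)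
 (.br (nat_lit 1) (.ch (nat_lit 0) (.ev (nat_lit 1280) (nat_lit 32) (.ev (nat_lit 1300) (nat_lit 2048) (.ev
 (nat_lit 1309) (nat_lit 65536) .dd)))) (.br (nat_lit 3) (.ch (nat_lit 1) (.ev (nat_lit 1280) (nat_lit 65536)
 (.ev (nat_lit 1300) (nat_lit 32) (.ev (nat_lit 1309) (nat_lit 2048) .dd)))) (.ch (nat_lit 3) (.nd (nat_lit
 3408) (.br (nat_lit 7) (.br (nat_lit 2) (.ch (nat_lit 0) (.ev (nat_lit 3424) (nat_lit 32) (.ev (nat_lit 3700)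
 (nat_lit 2048) (.ev (nat_lit 3709) (nat_lit 65536) .dd)))) (.br (nat_lit 3) (.ch (nat_lit 2) (.ev (nat_lit
 3424) (nat_lit 2048) (.ev (nat_lit 6964) (nat_lit 65536) (.ev (nat_lit 6973) (nat_lit 32) .dd)))) (.ch
 (nat_lit 3) (.ev (nat_lit 3424) (nat_lit 65568) (.ev (nat_lit 3437) (nat_lit 2048) .dd))))) (.br (nat_lit 10)
 (.ch (nat_lit 7) (.ev (nat_lit 3476) (nat_lit 2048) (.ev (nat_lit 6692) (nat_lit 32) (.ev (nat_lit 6701)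
 (nat_lit 65536) .dd)))) (.br (nat_lit 12) (.ch (nat_lit 10) (.ev (nat_lit 3424) (nat_lit 2048) (.ev (nat_lit
 3476) (nat_lit 32) (.ev (nat_lit 3485) (nat_lit 65536) .dd)))) (.ch (nat_lit 12) (.ev (nat_lit 3424) (nat_lit
 2048) (.ev (nat_lit 3476) (nat_lit 65536) (.ev (nat_lit 3485) (nat_lit 32) .dd))))))))))) (.br (nat_lit 11)
 (.br (nat_lit 8) (.ch (nat_lit 7) (.ev (nat_lit 1280) (nat_lit 32) (.nd (nat_lit 2624) (.br (nat_lit 9) (.br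
 (nat_lit 7) (.ch (nat_lit 3) (.ev (nat_lit 2640) (nat_lit 65536) (.ev (nat_lit 2653) (nat_lit 2048) .dd)))
 (.ch (nat_lit 7) (.ev (nat_lit 2640) (nat_lit 65536) (.ev (nat_lit 2653) (nat_lit 2048) .dd)))) (.br (nat_lit
 10) (.ch (nat_lit 9) (.ev (nat_lit 2640) (nat_lit 65536) (.ev (nat_lit 2653) (nat_lit 2048) .dd))) (.br
 (nat_lit 12) (.ch (nat_lit 10) (.ev (nat_lit 5604) (nat_lit 65536) (.ev (nat_lit 5613) (nat_lit 2048) .dd)))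
 (.ch (nat_lit 12) (.ev (nat_lit 2640) (nat_lit 65536) (.ev (nat_lit 2653) (nat_lit 2048) .dd))))))))) (.ch
 (nat_lit 8) (.ev (nat_lit 1280) (nat_lit 2048) (.nd (nat_lit 2624) (.br (nat_lit 7) (.br (nat_lit 3) (.ch
 (nat_lit 2) (.ev (nat_lit 2676) (nat_lit 32) (.ev (nat_lit 2685) (nat_lit 65536) .dd))) (.br (nat_lit 4) (.ch
 (nat_lit 3) (.ev (nat_lit 2676) (nat_lit 32) (.ev (nat_lit 2685) (nat_lit 65536) .dd))) (.ch (nat_lit 4) (.ev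
 (nat_lit 3812) (nat_lit 65536) (.ev (nat_lit 3821) (nat_lit 32) .dd))))) (.br (nat_lit 8) (.ch (nat_lit 7)
 (.ev (nat_lit 2640) (nat_lit 32) (.ev (nat_lit 2653) (nat_lit 65536) .dd))) (.br (nat_lit 11) (.ch (nat_lit 8)
 (.ev (nat_lit 2676) (nat_lit 32) (.ev (nat_lit 2685) (nat_lit 65536) .dd))) (.ch (nat_lit 11) (.ev (nat_lit
 2676) (nat_lit 32) (.ev (nat_lit 2685) (nat_lit 65536) .dd)))))))))) (.br (nat_lit 12) (.ch (nat_lit 11) (.ev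
 (nat_lit 1280) (nat_lit 65536) (.nd (nat_lit 3408) (.br (nat_lit 7) (.ch (nat_lit 4) (.ev (nat_lit 3476)
 (nat_lit 2048) (.ev (nat_lit 3485) (nat_lit 32) .dd))) (.br (nat_lit 8) (.ch (nat_lit 7) (.ev (nat_lit 3424)
 (nat_lit 2048) (.ev (nat_lit 3437) (nat_lit 32) .dd))) (.ch (nat_lit 8) (.ev (nat_lit 3424) (nat_lit 32) (.ev
 (nat_lit 3437) (nat_lit 2048) .dd)))))))) (.ch (nat_lit 12) (.ev (nat_lit 1280) (nat_lit 2048) (.nd (nat_lit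
 2624) (.br (nat_lit 3) (.br (nat_lit 2) (.ch (nat_lit 0) (.ev (nat_lit 3476) (nat_lit 32) (.ev (nat_lit 3485)
 (nat_lit 65536) .dd))) (.ch (nat_lit 2) (.ev (nat_lit 3764) (nat_lit 32) (.ev (nat_lit 3773) (nat_lit 65536)
 .dd)))) (.br (nat_lit 5) (.ch (nat_lit 3) (.ev (nat_lit 3476) (nat_lit 32) (.ev (nat_lit 3485) (nat_lit 65536)
 .dd))) (.br (nat_lit 9) (.ch (nat_lit 5) (.ev (nat_lit 5188) (nat_lit 32) (.ev (nat_lit 5197) (nat_lit 65536)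
 .dd))) (.ch (nat_lit 9) (.ev (nat_lit 3540) (nat_lit 32) (.ev (nat_lit 3549) (nat_lit 65536)
 .dd)))))))))))))))) (.br (nat_lit 9) (.ch (nat_lit 6) (.ev (nat_lit 544) (nat_lit 65536) (.nd (nat_lit 1168)
 (.br (nat_lit 7) (.br (nat_lit 4) (.br (nat_lit 2) (.ch (nat_lit 1) (.ev (nat_lit 1184) (nat_lit 2048) (.ev
 (nat_lit 1380) (nat_lit 4096) (.nd (nat_lit 3984) (.br (nat_lit 4) (.br (nat_lit 2) (.ch (nat_lit 1) (.ev
 (nat_lit 4000) (nat_lit 1056) .dd)) (.ch (nat_lit 2) (.ev (nat_lit 4000) (nat_lit 1024) (.ev (nat_lit 4013)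
 (nat_lit 32) .dd)))) (.br (nat_lit 6) (.ch (nat_lit 4) (.ev (nat_lit 4000) (nat_lit 1056) .dd)) (.br (nat_lit
 7) (.ch (nat_lit 6) (.ev (nat_lit 4000) (nat_lit 1056) .dd)) (.ch (nat_lit 7) (.ev (nat_lit 4000) (nat_lit 32)
 (.ev (nat_lit 4013) (nat_lit 1024) .dd)))))))))) (.ch (nat_lit 2) (.ev (nat_lit 1184) (nat_lit 4096) (.ev
 (nat_lit 2948) (nat_lit 2048) (.nd (nat_lit 3984) (.br (nat_lit 5) (.br (nat_lit 1) (.ch (nat_lit 0) (.ev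
 (nat_lit 4052) (nat_lit 32) (.ev (nat_lit 4061) (nat_lit 1024) .dd))) (.ch (nat_lit 1) (.ev (nat_lit 4000)
 (nat_lit 32) (.ev (nat_lit 4013) (nat_lit 1024) .dd)))) (.br (nat_lit 12) (.ch (nat_lit 5) (.ev (nat_lit 4000)
 (nat_lit 1024) (.ev (nat_lit 4013) (nat_lit 32) .dd))) (.ch (nat_lit 12) (.ev (nat_lit 4000) (nat_lit 32) (.ev
 (nat_lit 4013) (nat_lit 1024) .dd)))))))))) (.br (nat_lit 6) (.ch (nat_lit 4) (.ev (nat_lit 1184) (nat_lit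
 2080) (.ev (nat_lit 3140) (nat_lit 1024) (.ev (nat_lit 3149) (nat_lit 4096) .dd)))) (.ch (nat_lit 6) (.ev
 (nat_lit 1184) (nat_lit 4096) (.ev (nat_lit 1204) (nat_lit 1024) (.ev (nat_lit 1332) (nat_lit 32) (.ev
 (nat_lit 1341) (nat_lit 2048) .dd))))))) (.br (nat_lit 9) (.br (nat_lit 8) (.ch (nat_lit 7) (.ev (nat_lit
 1184) (nat_lit 5152) (.ev (nat_lit 1197) (nat_lit 2048) .dd))) (.ch (nat_lit 8) (.ev (nat_lit 1184) (nat_lit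
 32) (.ev (nat_lit 1332) (nat_lit 4096) (.nd (nat_lit 3408) (.br (nat_lit 6) (.br (nat_lit 1) (.ch (nat_lit 0)
 (.ev (nat_lit 3476) (nat_lit 1024) (.ev (nat_lit 3485) (nat_lit 2048) .dd))) (.br (nat_lit 2) (.ch (nat_lit 1)
 (.ev (nat_lit 3424) (nat_lit 1024) (.ev (nat_lit 3437) (nat_lit 2048) .dd))) (.ch (nat_lit 2) (.ev (nat_lit
 3424) (nat_lit 1024) (.ev (nat_lit 3437) (nat_lit 2048) .dd))))) (.br (nat_lit 7) (.ch (nat_lit 6) (.ev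
 (nat_lit 3476) (nat_lit 1024) (.ev (nat_lit 3485) (nat_lit 2048) .dd))) (.br (nat_lit 8) (.ch (nat_lit 7) (.ev
 (nat_lit 3476) (nat_lit 2048) (.ev (nat_lit 3485) (nat_lit 1024) .dd))) (.ch (nat_lit 8) (.ev (nat_lit 3424)
 (nat_lit 2048) (.ev (nat_lit 3437) (nat_lit 1024) .dd))))))))))) (.br (nat_lit 10) (.ch (nat_lit 9) (.ev
 (nat_lit 1184) (nat_lit 3072) (.fin (nat_lit 576439311820866098)))) (.br (nat_lit 12) (.ch (nat_lit 10) (.ev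
 (nat_lit 1184) (nat_lit 1056) (.ev (nat_lit 1300) (nat_lit 4096) (.ev (nat_lit 1309) (nat_lit 2048) .dd))))
 (.ch (nat_lit 12) (.ev (nat_lit 1184) (nat_lit 5152) (.ev (nat_lit 1197) (nat_lit 2048) .dd)))))))))) (.br
 (nat_lit 11) (.ch (nat_lit 9) (.ev (nat_lit 544) (nat_lit 2048) (.nd (nat_lit 1168) (.br (nat_lit 9) (.br
 (nat_lit 6) (.ch (nat_lit 4) (.ev (nat_lit 1184) (nat_lit 4128) (.nd (nat_lit 2624) (.br (nat_lit 6) (.ch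
 (nat_lit 0) (.ev (nat_lit 6384) (nat_lit 66560) .dd)) (.br (nat_lit 10) (.ch (nat_lit 6) (.ev (nat_lit 5236)
 (nat_lit 1024) (.ev (nat_lit 5245) (nat_lit 65536) .dd))) (.ch (nat_lit 10) (.ev (nat_lit 5188) (nat_lit
 65536) (.ev (nat_lit 5197) (nat_lit 1024) .dd)))))))) (.br (nat_lit 7) (.ch (nat_lit 6) (.ev (nat_lit 1184)
 (nat_lit 65536) (.nd (nat_lit 2336) (.br (nat_lit 5) (.br (nat_lit 2) (.ch (nat_lit 1) (.ev (nat_lit 2352)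
 (nat_lit 4096) (.ev (nat_lit 2740) (nat_lit 32) (.ev (nat_lit 2749) (nat_lit 1024) .dd)))) (.br (nat_lit 4)
 (.ch (nat_lit 2) (.ev (nat_lit 2352) (nat_lit 4096) (.ev (nat_lit 6596) (nat_lit 32) (.ev (nat_lit 6605)
 (nat_lit 1024) .dd)))) (.ch (nat_lit 4) (.ev (nat_lit 5300) (nat_lit 1024) (.ev (nat_lit 6260) (nat_lit 32)
 (.ev (nat_lit 6269) (nat_lit 4096) .dd)))))) (.br (nat_lit 8) (.ch (nat_lit 5) (.ev (nat_lit 2352) (nat_lit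
 32) (.ev (nat_lit 3700) (nat_lit 4096) (.ev (nat_lit 3709) (nat_lit 1024) .dd)))) (.br (nat_lit 12) (.ch
 (nat_lit 8) (.ev (nat_lit 2676) (nat_lit 4096) (.ev (nat_lit 6644) (nat_lit 1024) (.ev (nat_lit 6653) (nat_lit
 32) .dd)))) (.ch (nat_lit 12) (.ev (nat_lit 2676) (nat_lit 4096) (.fin (nat_lit 576398629598085115))))))))))
 (.ch (nat_lit 7) (.ev (nat_lit 1184) (nat_lit 4096) (.nd (nat_lit 1840) (.br (nat_lit 4) (.br (nat_lit 2) (.ch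
 (nat_lit 0) (.nd (nat_lit 4592) (.br (nat_lit 10) (.br (nat_lit 8) (.ch (nat_lit 4) (.ev (nat_lit 4608)
 (nat_lit 65536) (.ev (nat_lit 5764) (nat_lit 32) (.ev (nat_lit 5773) (nat_lit 1024) .dd)))) (.ch (nat_lit 8)
 (.ev (nat_lit 4608) (nat_lit 1024) (.ev (nat_lit 4644) (nat_lit 32) (.ev (nat_lit 4653) (nat_lit 65536)
 .dd))))) (.br (nat_lit 11) (.ch (nat_lit 10) (.ev (nat_lit 4608) (nat_lit 1024) (.fin (nat_lit
 576112756434354295)))) (.ch (nat_lit 11) (.ev (nat_lit 4608) (nat_lit 65536) (.ev (nat_lit 6260) (nat_lit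
 1024) (.ev (nat_lit 6269) (nat_lit 32) .dd)))))))) (.br (nat_lit 3) (.ch (nat_lit 2) (.ev (nat_lit 1856)
 (nat_lit 1024) (.ev (nat_lit 3316) (nat_lit 32) (.ev (nat_lit 3325) (nat_lit 65536) .dd)))) (.ch (nat_lit 3)
 (.ev (nat_lit 1856) (nat_lit 1024) (.ev (nat_lit 5492) (nat_lit 65536) (.ev (nat_lit 5501) (nat_lit 32)
 .dd)))))) (.br (nat_lit 5) (.ch (nat_lit 4) (.ev (nat_lit 1856) (nat_lit 65536) (.ev (nat_lit 3012) (nat_lit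
 1024) (.ev (nat_lit 3021) (nat_lit 32) .dd)))) (.br (nat_lit 11) (.ch (nat_lit 5) (.ev (nat_lit 1856) (nat_lit
 1024) (.ev (nat_lit 2004) (nat_lit 65536) (.ev (nat_lit 2013) (nat_lit 32) .dd)))) (.ch (nat_lit 11) (.ev
 (nat_lit 1856) (nat_lit 32) (.ev (nat_lit 3792) (nat_lit 66560) .dd))))))))))) (.br (nat_lit 11) (.br (nat_lit
 10) (.ch (nat_lit 9) (.ev (nat_lit 1300) (nat_lit 4096) (.nd (nat_lit 1840) (.br (nat_lit 7) (.br (nat_lit 4)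
 (.ch (nat_lit 3) (.ev (nat_lit 1856) (nat_lit 32) (.ev (nat_lit 6964) (nat_lit 65536) (.ev (nat_lit 6973)
 (nat_lit 1024) .dd)))) (.br (nat_lit 5) (.ch (nat_lit 4) (.ev (nat_lit 1856) (nat_lit 65536) (.ev (nat_lit
 1876) (nat_lit 1024) (.ev (nat_lit 1885) (nat_lit 32) .dd)))) (.ch (nat_lit 5) (.ev (nat_lit 1856) (nat_lit
 1056) (.ev (nat_lit 1869) (nat_lit 65536) .dd))))) (.br (nat_lit 10) (.br (nat_lit 9) (.ch (nat_lit 7) (.ev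
 (nat_lit 1856) (nat_lit 65568) (.ev (nat_lit 1869) (nat_lit 1024) .dd))) (.ch (nat_lit 9) (.ev (nat_lit 1856)
 (nat_lit 32) (.ev (nat_lit 6740) (nat_lit 65536) (.ev (nat_lit 6749) (nat_lit 1024) .dd))))) (.br (nat_lit 12)
 (.ch (nat_lit 10) (.ev (nat_lit 1856) (nat_lit 65536) (.ev (nat_lit 3252) (nat_lit 32) (.ev (nat_lit 3261)
 (nat_lit 1024) .dd)))) (.ch (nat_lit 12) (.ev (nat_lit 1856) (nat_lit 32) (.ev (nat_lit 4996) (nat_lit 1024)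
 (.ev (nat_lit 5005) (nat_lit 65536) .dd)))))))))) (.ch (nat_lit 10) (.ev (nat_lit 1184) (nat_lit 1056) (.nd
 (nat_lit 2624) (.br (nat_lit 6) (.ch (nat_lit 2) (.fin (nat_lit 576487690366042692))) (.ch (nat_lit 6) (.ev
 (nat_lit 6356) (nat_lit 65536) (.ev (nat_lit 6365) (nat_lit 4096) .dd)))))))) (.br (nat_lit 12) (.ch (nat_lit
 11) (.ev (nat_lit 1184) (nat_lit 66560) (.ev (nat_lit 1204) (nat_lit 32) (.ev (nat_lit 1213) (nat_lit 4096)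
 .dd)))) (.ch (nat_lit 12) (.ev (nat_lit 1300) (nat_lit 4096) (.nd (nat_lit 1840) (.br (nat_lit 7) (.br
 (nat_lit 4) (.ch (nat_lit 2) (.ev (nat_lit 5188) (nat_lit 65536) (.ev (nat_lit 5200) (nat_lit 1024) (.ev
 (nat_lit 5213) (nat_lit 32) .dd)))) (.br (nat_lit 5) (.ch (nat_lit 4) (.ev (nat_lit 3616) (nat_lit 32) (.ev
 (nat_lit 5104) (nat_lit 66560) .dd))) (.ch (nat_lit 5) (.ev (nat_lit 6596) (nat_lit 1024) (.fin (nat_lit
 576478894247854685)))))) (.br (nat_lit 10) (.br (nat_lit 9) (.ch (nat_lit 7) (.ev (nat_lit 1856) (nat_lit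
 65536) (.ev (nat_lit 1876) (nat_lit 32) (.ev (nat_lit 1885) (nat_lit 1024) .dd)))) (.ch (nat_lit 9) (.ev
 (nat_lit 1856) (nat_lit 1056) (.ev (nat_lit 1869) (nat_lit 65536) .dd)))) (.br (nat_lit 11) (.ch (nat_lit 10)
 (.ev (nat_lit 1856) (nat_lit 1056) (.ev (nat_lit 1869) (nat_lit 65536) .dd))) (.ch (nat_lit 11) (.ev (nat_lit
 1856) (nat_lit 32) (.ev (nat_lit 1876) (nat_lit 1024) (.ev (nat_lit 1885) (nat_lit 65536) .dd))))))))))))))))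
 (.ch (nat_lit 11) (.ev (nat_lit 544) (nat_lit 66592) (.nd (nat_lit 1264) (.br (nat_lit 10) (.br (nat_lit 7)
 (.ch (nat_lit 3) (.ev (nat_lit 1332) (nat_lit 4096) (.ev (nat_lit 1341) (nat_lit 2048) .dd))) (.ch (nat_lit 7)
 (.ev (nat_lit 1300) (nat_lit 4096) (.ev (nat_lit 1309) (nat_lit 2048) .dd)))) (.br (nat_lit 12) (.ch (nat_lit
 10) (.nd (nat_lit 3984) (.br (nat_lit 8) (.ch (nat_lit 4) (.ev (nat_lit 4020) (nat_lit 4096) (.ev (nat_lit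
 4029) (nat_lit 2048) .dd))) (.ch (nat_lit 8) (.ev (nat_lit 4020) (nat_lit 2048) (.ev (nat_lit 4029) (nat_lit
 4096) .dd)))))) (.ch (nat_lit 12) (.nd (nat_lit 3984) (.br (nat_lit 6) (.ch (nat_lit 4) (.ev (nat_lit 4020)
 (nat_lit 4096) (.ev (nat_lit 4029) (nat_lit 2048) .dd))) (.ch (nat_lit 6) (.fin (nat_lit
 576459103028068933)))))))))))))))))) (.ch (nat_lit 7) (.ev (nat_lit 48) (nat_lit 5442) (.nd (nat_lit 528) (.br
 (nat_lit 4) (.br (nat_lit 2) (.br (nat_lit 1) (.ch (nat_lit 0) (.ev (nat_lit 544) (nat_lit 100384) (.ev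
 (nat_lit 557) (nat_lit 4) .dd))) (.ch (nat_lit 1) (.ev (nat_lit 544) (nat_lit 98340) (.ev (nat_lit 557)
 (nat_lit 2048) .dd)))) (.br (nat_lit 3) (.ch (nat_lit 2) (.ev (nat_lit 544) (nat_lit 2080) (.nd (nat_lit 1264)
 (.br (nat_lit 5) (.br (nat_lit 3) (.ch (nat_lit 2) (.ev (nat_lit 1280) (nat_lit 32768) (.nd (nat_lit 3408)
 (.br (nat_lit 3) (.ch (nat_lit 1) (.ev (nat_lit 3924) (nat_lit 4) (.ev (nat_lit 3933) (nat_lit 65536) .dd)))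
 (.br (nat_lit 8) (.ch (nat_lit 3) (.ev (nat_lit 3488) (nat_lit 65540) .dd)) (.ch (nat_lit 8) (.ev (nat_lit
 5444) (nat_lit 4) (.ev (nat_lit 5453) (nat_lit 65536) .dd)))))))) (.br (nat_lit 4) (.ch (nat_lit 3) (.ev
 (nat_lit 1280) (nat_lit 4) (.nd (nat_lit 3408) (.br (nat_lit 9) (.ch (nat_lit 5) (.ev (nat_lit 3540) (nat_lit
 65536) (.ev (nat_lit 3549) (nat_lit 32768) .dd))) (.ch (nat_lit 9) (.fin (nat_lit 576962678562965800)))))))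
 (.ch (nat_lit 4) (.ev (nat_lit 1300) (nat_lit 32772) (.ev (nat_lit 1309) (nat_lit 65536) .dd))))) (.br
 (nat_lit 11) (.br (nat_lit 7) (.ch (nat_lit 5) (.ev (nat_lit 1280) (nat_lit 32768) (.nd (nat_lit 2624) (.br
 (nat_lit 2) (.br (nat_lit 1) (.ch (nat_lit 0) (.ev (nat_lit 6740) (nat_lit 4) (.ev (nat_lit 6749) (nat_lit
 65536) .dd))) (.ch (nat_lit 1) (.ev (nat_lit 2676) (nat_lit 65536) (.ev (nat_lit 2685) (nat_lit 4) .dd))))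
 (.br (nat_lit 6) (.ch (nat_lit 2) (.ev (nat_lit 2676) (nat_lit 65536) (.ev (nat_lit 2685) (nat_lit 4) .dd)))
 (.br (nat_lit 9) (.ch (nat_lit 6) (.ev (nat_lit 2948) (nat_lit 65536) (.ev (nat_lit 2957) (nat_lit 4) .dd)))
 (.ch (nat_lit 9) (.ev (nat_lit 3540) (nat_lit 4) (.ev (nat_lit 3549) (nat_lit 65536) .dd))))))))) (.ch
 (nat_lit 7) (.ev (nat_lit 1280) (nat_lit 65536) (.ev (nat_lit 1300) (nat_lit 32768) (.ev (nat_lit 1309)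
 (nat_lit 4) .dd))))) (.br (nat_lit 12) (.ch (nat_lit 11) (.ev (nat_lit 1280) (nat_lit 65536) (.nd (nat_lit
 2624) (.br (nat_lit 8) (.ch (nat_lit 6) (.ev (nat_lit 5492) (nat_lit 4) (.ev (nat_lit 5501) (nat_lit 32768)
 .dd))) (.br (nat_lit 11) (.ch (nat_lit 8) (.ev (nat_lit 3076) (nat_lit 32768) (.ev (nat_lit 3085) (nat_lit 4)
 .dd))) (.ch (nat_lit 11) (.ev (nat_lit 3604) (nat_lit 4) (.ev (nat_lit 3613) (nat_lit 32768) .dd)))))))) (.ch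
 (nat_lit 12) (.nd (nat_lit 2128) (.br (nat_lit 8) (.br (nat_lit 4) (.ch (nat_lit 0) (.ev (nat_lit 2144)
 (nat_lit 65536) (.ev (nat_lit 2388) (nat_lit 4) (.ev (nat_lit 2397) (nat_lit 32768) .dd)))) (.br (nat_lit 5)
 (.ch (nat_lit 4) (.ev (nat_lit 2144) (nat_lit 4) (.ev (nat_lit 6740) (nat_lit 65536) (.ev (nat_lit 6749)
 (nat_lit 32768) .dd)))) (.ch (nat_lit 5) (.ev (nat_lit 6788) (nat_lit 65536) (.fin (nat_lit
 576430515637666416)))))) (.br (nat_lit 9) (.ch (nat_lit 8) (.ev (nat_lit 2144) (nat_lit 32768) (.ev (nat_lit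
 2788) (nat_lit 4) (.ev (nat_lit 2797) (nat_lit 65536) .dd)))) (.br (nat_lit 12) (.ch (nat_lit 9) (.ev (nat_lit
 2144) (nat_lit 65536) (.ev (nat_lit 6148) (nat_lit 4) (.ev (nat_lit 6157) (nat_lit 32768) .dd)))) (.ch
 (nat_lit 12) (.ev (nat_lit 2144) (nat_lit 32768) (.ev (nat_lit 3440) (nat_lit 65540) .dd)))))))))))))) (.ch
 (nat_lit 3) (.ev (nat_lit 544) (nat_lit 65536) (.nd (nat_lit 1088) (.br (nat_lit 5) (.br (nat_lit 2) (.ch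
 (nat_lit 1) (.ev (nat_lit 1204) (nat_lit 2048) (.nd (nat_lit 1968) (.br (nat_lit 4) (.br (nat_lit 1) (.ch
 (nat_lit 0) (.ev (nat_lit 1984) (nat_lit 36) (.ev (nat_lit 1997) (nat_lit 32768) .dd))) (.br (nat_lit 3) (.ch
 (nat_lit 1) (.ev (nat_lit 2900) (nat_lit 4) (.ev (nat_lit 6740) (nat_lit 32768) (.ev (nat_lit 6749) (nat_lit
 32) .dd)))) (.ch (nat_lit 3) (.ev (nat_lit 2004) (nat_lit 32800) (.ev (nat_lit 2013) (nat_lit 4) .dd))))) (.br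
 (nat_lit 11) (.ch (nat_lit 4) (.ev (nat_lit 2740) (nat_lit 4) (.ev (nat_lit 3364) (nat_lit 32768) (.ev
 (nat_lit 3373) (nat_lit 32) .dd)))) (.br (nat_lit 12) (.ch (nat_lit 11) (.ev (nat_lit 2004) (nat_lit 32) (.ev
 (nat_lit 2740) (nat_lit 4) (.ev (nat_lit 2749) (nat_lit 32768) .dd)))) (.ch (nat_lit 12) (.ev (nat_lit 2004)
 (nat_lit 32) (.ev (nat_lit 2212) (nat_lit 32768) (.ev (nat_lit 2221) (nat_lit 4) .dd)))))))))) (.br (nat_lit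
 3) (.ch (nat_lit 2) (.nd (nat_lit 1840) (.br (nat_lit 7) (.br (nat_lit 4) (.ch (nat_lit 0) (.ev (nat_lit 1856)
 (nat_lit 34816) (.ev (nat_lit 5300) (nat_lit 32) (.ev (nat_lit 5309) (nat_lit 4) .dd)))) (.br (nat_lit 6) (.ch
 (nat_lit 4) (.ev (nat_lit 1856) (nat_lit 34816) (.ev (nat_lit 6740) (nat_lit 32) (.ev (nat_lit 6749) (nat_lit
 4) .dd)))) (.ch (nat_lit 6) (.ev (nat_lit 1856) (nat_lit 36) (.ev (nat_lit 2004) (nat_lit 2048) (.ev (nat_lit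
 2013) (nat_lit 32768) .dd)))))) (.br (nat_lit 11) (.br (nat_lit 9) (.ch (nat_lit 7) (.ev (nat_lit 1856)
 (nat_lit 32768) (.ev (nat_lit 1876) (nat_lit 32) (.ev (nat_lit 6020) (nat_lit 4) (.ev (nat_lit 6029) (nat_lit
 2048) .dd))))) (.ch (nat_lit 9) (.ev (nat_lit 1856) (nat_lit 32772) (.ev (nat_lit 4932) (nat_lit 32) (.ev
 (nat_lit 4941) (nat_lit 2048) .dd))))) (.br (nat_lit 12) (.ch (nat_lit 11) (.ev (nat_lit 2004) (nat_lit 2048)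
 (.ev (nat_lit 6704) (nat_lit 4) (.fin (nat_lit 576372241576968700))))) (.ch (nat_lit 12) (.ev (nat_lit 6260)
 (nat_lit 32768) (.ev (nat_lit 6368) (nat_lit 32) (.ev (nat_lit 6644) (nat_lit 2048) (.ev (nat_lit 6653)
 (nat_lit 4) .dd)))))))))) (.ch (nat_lit 3) (.nd (nat_lit 1648) (.br (nat_lit 9) (.br (nat_lit 2) (.ch (nat_lit
 0) (.ev (nat_lit 2832) (nat_lit 32) (.ev (nat_lit 6452) (nat_lit 2048) (.ev (nat_lit 6656) (nat_lit 32768)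
 (.ev (nat_lit 6669) (nat_lit 4) .dd))))) (.br (nat_lit 4) (.ch (nat_lit 2) (.ev (nat_lit 1664) (nat_lit 2048)
 (.ev (nat_lit 4768) (nat_lit 4) (.ev (nat_lit 5844) (nat_lit 32768) (.ev (nat_lit 5853) (nat_lit 32) .dd)))))
 (.ch (nat_lit 4) (.ev (nat_lit 1664) (nat_lit 4) (.ev (nat_lit 1684) (nat_lit 32768) (.ev (nat_lit 2992)
 (nat_lit 32) (.ev (nat_lit 3005) (nat_lit 2048) .dd))))))) (.br (nat_lit 11) (.ch (nat_lit 9) (.ev (nat_lit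
 1664) (nat_lit 32) (.ev (nat_lit 1684) (nat_lit 32768) (.ev (nat_lit 2740) (nat_lit 4) (.ev (nat_lit 2749)
 (nat_lit 2048) .dd))))) (.br (nat_lit 12) (.ch (nat_lit 11) (.ev (nat_lit 1664) (nat_lit 32800) (.ev (nat_lit
 6452) (nat_lit 2048) (.ev (nat_lit 6461) (nat_lit 4) .dd)))) (.ch (nat_lit 12) (.ev (nat_lit 1664) (nat_lit 4)
 (.ev (nat_lit 1780) (nat_lit 2048) (.ev (nat_lit 6356) (nat_lit 32768) (.ev (nat_lit 6365) (nat_lit 32)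
 .dd)))))))))))) (.br (nat_lit 9) (.br (nat_lit 7) (.ch (nat_lit 5) (.ev (nat_lit 1104) (nat_lit 32800) (.nd
 (nat_lit 3408) (.br (nat_lit 4) (.ch (nat_lit 0) (.ev (nat_lit 5188) (nat_lit 4) (.ev (nat_lit 5197) (nat_lit
 2048) .dd))) (.ch (nat_lit 4) (.ev (nat_lit 3664) (nat_lit 2052) .dd)))))) (.ch (nat_lit 7) (.ev (nat_lit
 1104) (nat_lit 2052) (.nd (nat_lit 1968) (.br (nat_lit 9) (.ch (nat_lit 6) (.ev (nat_lit 5140) (nat_lit 32)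
 (.ev (nat_lit 5149) (nat_lit 32768) .dd))) (.br (nat_lit 12) (.ch (nat_lit 9) (.ev (nat_lit 6848) (nat_lit
 32800) .dd)) (.ch (nat_lit 12) (.ev (nat_lit 7156) (nat_lit 32768) (.ev (nat_lit 7165) (nat_lit 32)
 .dd))))))))) (.br (nat_lit 10) (.ch (nat_lit 9) (.ev (nat_lit 1104) (nat_lit 2080) (.nd (nat_lit 2624) (.br
 (nat_lit 5) (.ch (nat_lit 4) (.ev (nat_lit 2788) (nat_lit 32768) (.ev (nat_lit 2797) (nat_lit 4) .dd))) (.br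
 (nat_lit 6) (.ch (nat_lit 5) (.ev (nat_lit 5140) (nat_lit 32768) (.ev (nat_lit 5149) (nat_lit 4) .dd))) (.ch
 (nat_lit 6) (.ev (nat_lit 2688) (nat_lit 32772) .dd))))))) (.ch (nat_lit 10) (.ev (nat_lit 1104) (nat_lit
 2052) (.nd (nat_lit 2128) (.br (nat_lit 7) (.br (nat_lit 3) (.ch (nat_lit 1) (.ev (nat_lit 6260) (nat_lit
 32768) (.ev (nat_lit 6269) (nat_lit 32) .dd))) (.ch (nat_lit 3) (.ev (nat_lit 2196) (nat_lit 32768) (.ev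
 (nat_lit 2205) (nat_lit 32) .dd)))) (.br (nat_lit 11) (.ch (nat_lit 7) (.ev (nat_lit 3652) (nat_lit 32768)
 (.ev (nat_lit 3661) (nat_lit 32) .dd))) (.ch (nat_lit 11) (.ev (nat_lit 3252) (nat_lit 32768) (.ev (nat_lit
 3261) (nat_lit 32) .dd)))))))))))))))) (.br (nat_lit 9) (.br (nat_lit 8) (.ch (nat_lit 4) (.ev (nat_lit 544)
 (nat_lit 32) (.ev (nat_lit 612) (nat_lit 65536) (.nd (nat_lit 1168) (.br (nat_lit 6) (.br (nat_lit 2) (.br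
 (nat_lit 1) (.ch (nat_lit 0) (.nd (nat_lit 3408) (.br (nat_lit 9) (.br (nat_lit 5) (.ch (nat_lit 2) (.ev
 (nat_lit 3424) (nat_lit 32768) (.ev (nat_lit 3476) (nat_lit 4) (.ev (nat_lit 3485) (nat_lit 2048) .dd)))) (.br
 (nat_lit 8) (.ch (nat_lit 5) (.ev (nat_lit 3424) (nat_lit 2048) (.ev (nat_lit 3764) (nat_lit 4) (.ev (nat_lit
 3773) (nat_lit 32768) .dd)))) (.ch (nat_lit 8) (.ev (nat_lit 3424) (nat_lit 2052) (.ev (nat_lit 3437) (nat_lit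
 32768) .dd))))) (.br (nat_lit 11) (.ch (nat_lit 9) (.ev (nat_lit 3424) (nat_lit 32772) (.ev (nat_lit 3437)
 (nat_lit 2048) .dd))) (.br (nat_lit 12) (.ch (nat_lit 11) (.ev (nat_lit 3476) (nat_lit 2052) (.ev (nat_lit
 3485) (nat_lit 32768) .dd))) (.ch (nat_lit 12) (.ev (nat_lit 6160) (nat_lit 32768) (.fin (nat_lit
 576434913849852338))))))))) (.ch (nat_lit 1) (.ev (nat_lit 1184) (nat_lit 34816) (.ev (nat_lit 1197) (nat_lit
 4) .dd)))) (.br (nat_lit 3) (.ch (nat_lit 2) (.ev (nat_lit 1184) (nat_lit 32772) (.ev (nat_lit 1197) (nat_lit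
 2048) .dd))) (.ch (nat_lit 3) (.nd (nat_lit 2624) (.br (nat_lit 8) (.br (nat_lit 4) (.ch (nat_lit 1) (.ev
 (nat_lit 2640) (nat_lit 32768) (.ev (nat_lit 2676) (nat_lit 4) (.ev (nat_lit 2685) (nat_lit 2048) .dd)))) (.br
 (nat_lit 6) (.ch (nat_lit 4) (.ev (nat_lit 2676) (nat_lit 2048) (.ev (nat_lit 2688) (nat_lit 4) (.ev (nat_lit
 2701) (nat_lit 32768) .dd)))) (.ch (nat_lit 6) (.ev (nat_lit 2640) (nat_lit 32772) (.ev (nat_lit 2653)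
 (nat_lit 2048) .dd))))) (.br (nat_lit 10) (.br (nat_lit 9) (.ch (nat_lit 8) (.ev (nat_lit 2640) (nat_lit
 32768) (.ev (nat_lit 6160) (nat_lit 4) (.ev (nat_lit 6173) (nat_lit 2048) .dd)))) (.ch (nat_lit 9) (.ev
 (nat_lit 2640) (nat_lit 32768) (.ev (nat_lit 2676) (nat_lit 2048) (.ev (nat_lit 2685) (nat_lit 4) .dd)))))
 (.br (nat_lit 11) (.ch (nat_lit 10) (.ev (nat_lit 2788) (nat_lit 32768) (.ev (nat_lit 5844) (nat_lit 2048)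
 (.ev (nat_lit 5853) (nat_lit 4) .dd)))) (.ch (nat_lit 11) (.ev (nat_lit 2640) (nat_lit 2052) (.ev (nat_lit
 2653) (nat_lit 32768) .dd)))))))))) (.br (nat_lit 10) (.br (nat_lit 7) (.ch (nat_lit 6) (.ev (nat_lit 1184)
 (nat_lit 32772) (.ev (nat_lit 1197) (nat_lit 2048) .dd))) (.ch (nat_lit 7) (.ev (nat_lit 1184) (nat_lit 34816)
 (.ev (nat_lit 1197) (nat_lit 4) .dd)))) (.br (nat_lit 11) (.ch (nat_lit 10) (.ev (nat_lit 1184) (nat_lit 4)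
 (.ev (nat_lit 1204) (nat_lit 2048) (.ev (nat_lit 1213) (nat_lit 32768) .dd)))) (.br (nat_lit 12) (.ch (nat_lit
 11) (.ev (nat_lit 2900) (nat_lit 32768) (.ev (nat_lit 3812) (nat_lit 2048) (.ev (nat_lit 3821) (nat_lit 4)
 .dd)))) (.ch (nat_lit 12) (.ev (nat_lit 1184) (nat_lit 2052) (.ev (nat_lit 1197) (nat_lit 32768)
 .dd))))))))))) (.ch (nat_lit 8) (.ev (nat_lit 544) (nat_lit 4) (.nd (nat_lit 1008) (.br (nat_lit 6) (.br
 (nat_lit 3) (.br (nat_lit 1) (.ch (nat_lit 0) (.ev (nat_lit 1024) (nat_lit 32) (.nd (nat_lit 1840) (.br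
 (nat_lit 4) (.br (nat_lit 1) (.ch (nat_lit 0) (.ev (nat_lit 6704) (nat_lit 2048) (.fin (nat_lit
 576544864958104244)))) (.br (nat_lit 3) (.ch (nat_lit 1) (.ev (nat_lit 1856) (nat_lit 2048) (.ev (nat_lit
 3476) (nat_lit 65536) (.ev (nat_lit 3485) (nat_lit 32768) .dd)))) (.ch (nat_lit 3) (.ev (nat_lit 1856)
 (nat_lit 32768) (.ev (nat_lit 2372) (nat_lit 2048) (.ev (nat_lit 2381) (nat_lit 65536) .dd)))))) (.br (nat_lit
 6) (.ch (nat_lit 4) (.ev (nat_lit 1856) (nat_lit 65536) (.ev (nat_lit 2900) (nat_lit 32768) (.ev (nat_lit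
 2909) (nat_lit 2048) .dd)))) (.br (nat_lit 8) (.ch (nat_lit 6) (.ev (nat_lit 1856) (nat_lit 32768) (.ev
 (nat_lit 2740) (nat_lit 2048) (.ev (nat_lit 2749) (nat_lit 65536) .dd)))) (.ch (nat_lit 8) (.ev (nat_lit 2372)
 (nat_lit 2048) (.ev (nat_lit 6020) (nat_lit 32768) (.ev (nat_lit 6029) (nat_lit 65536) .dd)))))))))) (.ch
 (nat_lit 1) (.ev (nat_lit 1024) (nat_lit 65536) (.nd (nat_lit 1840) (.br (nat_lit 5) (.br (nat_lit 1) (.ch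
 (nat_lit 0) (.nd (nat_lit 4304) (.br (nat_lit 9) (.br (nat_lit 6) (.ch (nat_lit 3) (.ev (nat_lit 4320)
 (nat_lit 2048) (.fin (nat_lit 576444809399976498)))) (.br (nat_lit 8) (.ch (nat_lit 6) (.ev (nat_lit 4320)
 (nat_lit 32768) (.ev (nat_lit 7028) (nat_lit 32) (.ev (nat_lit 7037) (nat_lit 2048) .dd)))) (.ch (nat_lit 8)
 (.ev (nat_lit 4320) (nat_lit 32768) (.ev (nat_lit 4468) (nat_lit 32) (.ev (nat_lit 4477) (nat_lit 2048)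
 .dd)))))) (.br (nat_lit 10) (.ch (nat_lit 9) (.ev (nat_lit 4320) (nat_lit 32800) (.ev (nat_lit 4333) (nat_lit
 2048) .dd))) (.br (nat_lit 12) (.ch (nat_lit 10) (.ev (nat_lit 4320) (nat_lit 34816) (.ev (nat_lit 4333)
 (nat_lit 32) .dd))) (.ch (nat_lit 12) (.ev (nat_lit 4320) (nat_lit 2048) (.ev (nat_lit 5444) (nat_lit 32) (.ev
 (nat_lit 5453) (nat_lit 32768) .dd))))))))) (.br (nat_lit 3) (.ch (nat_lit 1) (.ev (nat_lit 1856) (nat_lit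
 32800) (.ev (nat_lit 1869) (nat_lit 2048) .dd))) (.ch (nat_lit 3) (.ev (nat_lit 6356) (nat_lit 32768) (.ev
 (nat_lit 6500) (nat_lit 2048) (.ev (nat_lit 6509) (nat_lit 32) .dd)))))) (.br (nat_lit 6) (.ch (nat_lit 5)
 (.ev (nat_lit 1856) (nat_lit 32800) (.ev (nat_lit 1869) (nat_lit 2048) .dd))) (.br (nat_lit 7) (.ch (nat_lit
 6) (.ev (nat_lit 1856) (nat_lit 32) (.ev (nat_lit 6500) (nat_lit 2048) (.ev (nat_lit 6509) (nat_lit 32768)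
 .dd)))) (.ch (nat_lit 7) (.ev (nat_lit 1856) (nat_lit 32) (.ev (nat_lit 2868) (nat_lit 2048) (.ev (nat_lit
 2877) (nat_lit 32768) .dd))))))))))) (.br (nat_lit 4) (.ch (nat_lit 3) (.ev (nat_lit 1220) (nat_lit 65536)
 (.nd (nat_lit 1840) (.br (nat_lit 7) (.br (nat_lit 4) (.br (nat_lit 3) (.ch (nat_lit 2) (.ev (nat_lit 1856)
 (nat_lit 32) (.ev (nat_lit 2164) (nat_lit 2048) (.ev (nat_lit 2173) (nat_lit 32768) .dd)))) (.ch (nat_lit 3)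
 (.ev (nat_lit 1856) (nat_lit 32768) (.ev (nat_lit 2036) (nat_lit 32) (.ev (nat_lit 2045) (nat_lit 2048)
 .dd))))) (.br (nat_lit 5) (.ch (nat_lit 4) (.ev (nat_lit 1856) (nat_lit 2080) (.ev (nat_lit 1869) (nat_lit
 32768) .dd))) (.ch (nat_lit 5) (.ev (nat_lit 1856) (nat_lit 32) (.ev (nat_lit 2164) (nat_lit 2048) (.ev
 (nat_lit 2173) (nat_lit 32768) .dd)))))) (.br (nat_lit 10) (.br (nat_lit 9) (.ch (nat_lit 7) (.ev (nat_lit
 1856) (nat_lit 2048) (.ev (nat_lit 2740) (nat_lit 32) (.ev (nat_lit 2749) (nat_lit 32768) .dd)))) (.ch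
 (nat_lit 9) (.ev (nat_lit 2164) (nat_lit 32768) (.ev (nat_lit 2452) (nat_lit 32) (.ev (nat_lit 2461) (nat_lit
 2048) .dd))))) (.br (nat_lit 11) (.ch (nat_lit 10) (.ev (nat_lit 2788) (nat_lit 2048) (.ev (nat_lit 3168)
 (nat_lit 32768) (.ev (nat_lit 3181) (nat_lit 32) .dd)))) (.br (nat_lit 12) (.ch (nat_lit 11) (.ev (nat_lit
 1856) (nat_lit 34816) (.ev (nat_lit 1869) (nat_lit 32) .dd))) (.ch (nat_lit 12) (.ev (nat_lit 1856) (nat_lit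
 34816) (.ev (nat_lit 1869) (nat_lit 32) .dd)))))))))) (.ch (nat_lit 4) (.ev (nat_lit 1024) (nat_lit 98304)
 (.nd (nat_lit 2128) (.br (nat_lit 5) (.br (nat_lit 3) (.ch (nat_lit 1) (.ev (nat_lit 2868) (nat_lit 2048) (.ev
 (nat_lit 2877) (nat_lit 32) .dd))) (.br (nat_lit 4) (.ch (nat_lit 3) (.ev (nat_lit 2144) (nat_lit 32) (.ev
 (nat_lit 2157) (nat_lit 2048) .dd))) (.ch (nat_lit 4) (.ev (nat_lit 6596) (nat_lit 32) (.ev (nat_lit 6605)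
 (nat_lit 2048) .dd))))) (.br (nat_lit 7) (.ch (nat_lit 5) (.ev (nat_lit 6644) (nat_lit 32) (.ev (nat_lit 6653)
 (nat_lit 2048) .dd))) (.br (nat_lit 10) (.ch (nat_lit 7) (.ev (nat_lit 2144) (nat_lit 2048) (.ev (nat_lit
 2157) (nat_lit 32) .dd))) (.ch (nat_lit 10) (.ev (nat_lit 3652) (nat_lit 32) (.ev (nat_lit 3661) (nat_lit
 2048) .dd))))))))))) (.br (nat_lit 11) (.br (nat_lit 10) (.ch (nat_lit 6) (.ev (nat_lit 1024) (nat_lit 2048)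
 (.nd (nat_lit 1552) (.br (nat_lit 6) (.br (nat_lit 5) (.ch (nat_lit 3) (.ev (nat_lit 1568) (nat_lit 65536)
 (.ev (nat_lit 1588) (nat_lit 32) (.ev (nat_lit 1597) (nat_lit 32768) .dd)))) (.ch (nat_lit 5) (.ev (nat_lit
 1568) (nat_lit 32) (.ev (nat_lit 3908) (nat_lit 32768) (.ev (nat_lit 3917) (nat_lit 65536) .dd))))) (.br
 (nat_lit 9) (.ch (nat_lit 6) (.ev (nat_lit 1568) (nat_lit 32) (.ev (nat_lit 5364) (nat_lit 32768) (.ev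
 (nat_lit 5373) (nat_lit 65536) .dd)))) (.br (nat_lit 12) (.ch (nat_lit 9) (.ev (nat_lit 3540) (nat_lit 65536)
 (.ev (nat_lit 5844) (nat_lit 32) (.ev (nat_lit 5853) (nat_lit 32768) .dd)))) (.ch (nat_lit 12) (.ev (nat_lit
 1568) (nat_lit 65536) (.ev (nat_lit 3700) (nat_lit 32768) (.ev (nat_lit 3709) (nat_lit 32) .dd)))))))))) (.ch
 (nat_lit 10) (.ev (nat_lit 1024) (nat_lit 34848) (.ev (nat_lit 1037) (nat_lit 65536) .dd)))) (.br (nat_lit 12)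
 (.ch (nat_lit 11) (.nd (nat_lit 1968) (.br (nat_lit 7) (.br (nat_lit 5) (.br (nat_lit 4) (.ch (nat_lit 0) (.ev
 (nat_lit 1984) (nat_lit 2048) (.ev (nat_lit 2004) (nat_lit 32) (.ev (nat_lit 3140) (nat_lit 65536) (.ev
 (nat_lit 3149) (nat_lit 32768) .dd))))) (.ch (nat_lit 4) (.ev (nat_lit 1984) (nat_lit 65536) (.ev (nat_lit
 3844) (nat_lit 32) (.ev (nat_lit 6148) (nat_lit 32768) (.ev (nat_lit 6157) (nat_lit 2048) .dd)))))) (.br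
 (nat_lit 6) (.ch (nat_lit 5) (.ev (nat_lit 1984) (nat_lit 65568) (.ev (nat_lit 2388) (nat_lit 2048) (.ev
 (nat_lit 2397) (nat_lit 32768) .dd)))) (.ch (nat_lit 6) (.ev (nat_lit 1984) (nat_lit 32) (.ev (nat_lit 2180)
 (nat_lit 32768) (.ev (nat_lit 3540) (nat_lit 2048) (.ev (nat_lit 3549) (nat_lit 65536) .dd))))))) (.br
 (nat_lit 9) (.br (nat_lit 8) (.ch (nat_lit 7) (.ev (nat_lit 1984) (nat_lit 98336) (.ev (nat_lit 1997) (nat_lit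
 2048) .dd))) (.ch (nat_lit 8) (.ev (nat_lit 1984) (nat_lit 100352) (.ev (nat_lit 1997) (nat_lit 32) .dd))))
 (.br (nat_lit 10) (.ch (nat_lit 9) (.ev (nat_lit 1984) (nat_lit 34816) (.ev (nat_lit 5444) (nat_lit 32) (.ev
 (nat_lit 5453) (nat_lit 65536) .dd)))) (.br (nat_lit 11) (.ch (nat_lit 10) (.ev (nat_lit 1984) (nat_lit 65536)
 (.ev (nat_lit 5312) (nat_lit 32) (.fin (nat_lit 576867022130332021))))) (.ch (nat_lit 11) (.ev (nat_lit 1984)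
 (nat_lit 67584) (.ev (nat_lit 2004) (nat_lit 32) (.ev (nat_lit 2013) (nat_lit 32768) .dd)))))))))) (.ch
 (nat_lit 12) (.ev (nat_lit 1024) (nat_lit 32768) (.nd (nat_lit 2624) (.br (nat_lit 5) (.br (nat_lit 1) (.ch
 (nat_lit 0) (.ev (nat_lit 2640) (nat_lit 65568) (.ev (nat_lit 2653) (nat_lit 2048) .dd))) (.br (nat_lit 4)
 (.ch (nat_lit 1) (.ev (nat_lit 2640) (nat_lit 65536) (.ev (nat_lit 5364) (nat_lit 32) (.ev (nat_lit 5373)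
 (nat_lit 2048) .dd)))) (.ch (nat_lit 4) (.ev (nat_lit 2640) (nat_lit 2080) (.ev (nat_lit 2653) (nat_lit 65536)
 .dd))))) (.br (nat_lit 9) (.br (nat_lit 7) (.ch (nat_lit 5) (.ev (nat_lit 6644) (nat_lit 2048) (.ev (nat_lit
 6692) (nat_lit 32) (.ev (nat_lit 6701) (nat_lit 65536) .dd)))) (.ch (nat_lit 7) (.ev (nat_lit 2640) (nat_lit
 32) (.ev (nat_lit 2676) (nat_lit 2048) (.ev (nat_lit 2685) (nat_lit 65536) .dd))))) (.br (nat_lit 10) (.ch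
 (nat_lit 9) (.ev (nat_lit 2640) (nat_lit 2080) (.ev (nat_lit 2653) (nat_lit 65536) .dd))) (.ch (nat_lit 10)
 (.ev (nat_lit 2676) (nat_lit 2048) (.ev (nat_lit 3316) (nat_lit 32) (.ev (nat_lit 3325) (nat_lit 65536)
 .dd))))))))))))))))) (.br (nat_lit 10) (.ch (nat_lit 9) (.ev (nat_lit 544) (nat_lit 32768) (.nd (nat_lit 1264)
 (.br (nat_lit 6) (.br (nat_lit 4) (.br (nat_lit 3) (.ch (nat_lit 1) (.ev (nat_lit 1280) (nat_lit 2080) (.fin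
 (nat_lit 576462401571340863)))) (.ch (nat_lit 3) (.ev (nat_lit 1280) (nat_lit 67584) (.nd (nat_lit 3408) (.br
 (nat_lit 8) (.br (nat_lit 6) (.ch (nat_lit 5) (.ev (nat_lit 3652) (nat_lit 4) (.ev (nat_lit 3661) (nat_lit 32)
 .dd))) (.ch (nat_lit 6) (.ev (nat_lit 3424) (nat_lit 4) (.ev (nat_lit 3437) (nat_lit 32) .dd)))) (.br (nat_lit
 11) (.ch (nat_lit 8) (.ev (nat_lit 3652) (nat_lit 4) (.ev (nat_lit 3661) (nat_lit 32) .dd))) (.ch (nat_lit 11)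
 (.ev (nat_lit 3488) (nat_lit 36) .dd)))))))) (.br (nat_lit 5) (.ch (nat_lit 4) (.ev (nat_lit 1280) (nat_lit
 65540) (.nd (nat_lit 3984) (.br (nat_lit 10) (.ch (nat_lit 0) (.fin (nat_lit 576439311829254718))) (.br
 (nat_lit 12) (.ch (nat_lit 10) (.ev (nat_lit 4020) (nat_lit 2048) (.ev (nat_lit 4029) (nat_lit 32) .dd))) (.ch
 (nat_lit 12) (.ev (nat_lit 4052) (nat_lit 32) (.ev (nat_lit 4061) (nat_lit 2048) .dd)))))))) (.ch (nat_lit 5)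
 (.ev (nat_lit 1280) (nat_lit 36) (.nd (nat_lit 3408) (.br (nat_lit 6) (.ch (nat_lit 0) (.ev (nat_lit 3540)
 (nat_lit 2048) (.ev (nat_lit 3549) (nat_lit 65536) .dd))) (.br (nat_lit 7) (.ch (nat_lit 6) (.ev (nat_lit
 3488) (nat_lit 67584) .dd)) (.ch (nat_lit 7) (.ev (nat_lit 3604) (nat_lit 2048) (.ev (nat_lit 3613) (nat_lit
 65536) .dd)))))))))) (.br (nat_lit 10) (.br (nat_lit 8) (.ch (nat_lit 6) (.nd (nat_lit 2128) (.br (nat_lit 7)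
 (.br (nat_lit 2) (.ch (nat_lit 0) (.ev (nat_lit 2144) (nat_lit 2048) (.ev (nat_lit 2372) (nat_lit 4) (.ev
 (nat_lit 2388) (nat_lit 32) (.ev (nat_lit 2397) (nat_lit 65536) .dd))))) (.br (nat_lit 6) (.ch (nat_lit 2)
 (.ev (nat_lit 2144) (nat_lit 32) (.ev (nat_lit 2372) (nat_lit 65536) (.ev (nat_lit 2420) (nat_lit 4) (.ev
 (nat_lit 2429) (nat_lit 2048) .dd))))) (.ch (nat_lit 6) (.ev (nat_lit 2144) (nat_lit 32) (.ev (nat_lit 3284)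
 (nat_lit 2048) (.ev (nat_lit 6964) (nat_lit 65536) (.ev (nat_lit 6973) (nat_lit 4) .dd))))))) (.br (nat_lit
 11) (.br (nat_lit 10) (.ch (nat_lit 7) (.ev (nat_lit 2144) (nat_lit 65540) (.ev (nat_lit 2752) (nat_lit 2048)
 (.ev (nat_lit 2765) (nat_lit 32) .dd)))) (.ch (nat_lit 10) (.ev (nat_lit 3284) (nat_lit 2048) (.nd (nat_lit
 4864) (.br (nat_lit 7) (.br (nat_lit 5) (.ch (nat_lit 2) (.ev (nat_lit 4880) (nat_lit 65572) .dd)) (.br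
 (nat_lit 6) (.ch (nat_lit 5) (.ev (nat_lit 4880) (nat_lit 65572) .dd)) (.ch (nat_lit 6) (.ev (nat_lit 5140)
 (nat_lit 32) (.ev (nat_lit 6596) (nat_lit 4) (.ev (nat_lit 6605) (nat_lit 65536) .dd)))))) (.br (nat_lit 11)
 (.br (nat_lit 9) (.ch (nat_lit 7) (.ev (nat_lit 4932) (nat_lit 32) (.ev (nat_lit 6368) (nat_lit 65540) .dd)))
 (.ch (nat_lit 9) (.ev (nat_lit 4880) (nat_lit 4) (.ev (nat_lit 5844) (nat_lit 32) (.ev (nat_lit 5853) (nat_lit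
 65536) .dd))))) (.br (nat_lit 12) (.ch (nat_lit 11) (.ev (nat_lit 5300) (nat_lit 32) (.ev (nat_lit 6464)
 (nat_lit 65540) .dd))) (.ch (nat_lit 12) (.ev (nat_lit 4880) (nat_lit 4) (.ev (nat_lit 6900) (nat_lit 32) (.ev
 (nat_lit 6909) (nat_lit 65536) .dd))))))))))) (.br (nat_lit 12) (.ch (nat_lit 11) (.ev (nat_lit 2144) (nat_lit
 67616) (.ev (nat_lit 2157) (nat_lit 4) .dd))) (.ch (nat_lit 12) (.ev (nat_lit 2144) (nat_lit 2052) (.ev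
 (nat_lit 2372) (nat_lit 65536) (.ev (nat_lit 2381) (nat_lit 32) .dd))))))))) (.ch (nat_lit 8) (.ev (nat_lit
 1280) (nat_lit 36) (.nd (nat_lit 2624) (.br (nat_lit 8) (.br (nat_lit 7) (.ch (nat_lit 2) (.ev (nat_lit 2640)
 (nat_lit 2048) (.ev (nat_lit 2653) (nat_lit 65536) .dd))) (.ch (nat_lit 7) (.ev (nat_lit 2640) (nat_lit 2048)
 (.ev (nat_lit 2653) (nat_lit 65536) .dd)))) (.br (nat_lit 9) (.ch (nat_lit 8) (.fin (nat_lit
 576366743719985685))) (.br (nat_lit 11) (.ch (nat_lit 9) (.ev (nat_lit 2640) (nat_lit 65536) (.ev (nat_lit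
 2653) (nat_lit 2048) .dd))) (.ch (nat_lit 11) (.ev (nat_lit 2640) (nat_lit 2048) (.ev (nat_lit 2653) (nat_lit
 65536) .dd)))))))))) (.br (nat_lit 11) (.ch (nat_lit 10) (.nd (nat_lit 1968) (.br (nat_lit 8) (.br (nat_lit 5)
 (.br (nat_lit 4) (.ch (nat_lit 3) (.ev (nat_lit 1984) (nat_lit 2048) (.ev (nat_lit 2420) (nat_lit 4) (.ev
 (nat_lit 5140) (nat_lit 65536) (.ev (nat_lit 5149) (nat_lit 32) .dd))))) (.ch (nat_lit 4) (.ev (nat_lit 1984)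
 (nat_lit 67616) (.ev (nat_lit 1997) (nat_lit 4) .dd)))) (.br (nat_lit 6) (.ch (nat_lit 5) (.ev (nat_lit 1984)
 (nat_lit 4) (.ev (nat_lit 2004) (nat_lit 2048) (.ev (nat_lit 2164) (nat_lit 65536) (.ev (nat_lit 2173)
 (nat_lit 32) .dd))))) (.ch (nat_lit 6) (.ev (nat_lit 2164) (nat_lit 65536) (.ev (nat_lit 6692) (nat_lit 2048)
 (.ev (nat_lit 6900) (nat_lit 32) (.ev (nat_lit 6909) (nat_lit 4) .dd))))))) (.br (nat_lit 10) (.br (nat_lit 9)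
 (.ch (nat_lit 8) (.ev (nat_lit 2004) (nat_lit 32) (.ev (nat_lit 6788) (nat_lit 65536) (.ev (nat_lit 6868)
 (nat_lit 2048) (.ev (nat_lit 6877) (nat_lit 4) .dd))))) (.ch (nat_lit 9) (.ev (nat_lit 1984) (nat_lit 67616)
 (.ev (nat_lit 1997) (nat_lit 4) .dd)))) (.br (nat_lit 12) (.ch (nat_lit 10) (.ev (nat_lit 1984) (nat_lit
 65572) (.ev (nat_lit 1997) (nat_lit 2048) .dd))) (.ch (nat_lit 12) (.ev (nat_lit 1984) (nat_lit 4) (.ev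
 (nat_lit 6260) (nat_lit 2048) (.ev (nat_lit 6368) (nat_lit 65568) .dd))))))))) (.br (nat_lit 12) (.ch (nat_lit
 11) (.nd (nat_lit 2128) (.br (nat_lit 8) (.br (nat_lit 4) (.br (nat_lit 3) (.ch (nat_lit 1) (.ev (nat_lit
 2144) (nat_lit 65540) (.fin (nat_lit 576255693263683995)))) (.ch (nat_lit 3) (.ev (nat_lit 2144) (nat_lit 36)
 (.ev (nat_lit 2388) (nat_lit 2048) (.ev (nat_lit 2397) (nat_lit 65536) .dd))))) (.br (nat_lit 6) (.ch (nat_lit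
 4) (.ev (nat_lit 2144) (nat_lit 65536) (.ev (nat_lit 2164) (nat_lit 32) (.ev (nat_lit 2676) (nat_lit 4) (.ev
 (nat_lit 2685) (nat_lit 2048) .dd))))) (.ch (nat_lit 6) (.ev (nat_lit 2144) (nat_lit 32) (.ev (nat_lit 2676)
 (nat_lit 4) (.ev (nat_lit 6512) (nat_lit 2048) (.ev (nat_lit 6525) (nat_lit 65536) .dd))))))) (.br (nat_lit
 11) (.br (nat_lit 9) (.ch (nat_lit 8) (.ev (nat_lit 2144) (nat_lit 2048) (.ev (nat_lit 2164) (nat_lit 65536)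
 (.ev (nat_lit 2676) (nat_lit 4) (.ev (nat_lit 2685) (nat_lit 32) .dd))))) (.ch (nat_lit 9) (.ev (nat_lit 2144)
 (nat_lit 67588) (.ev (nat_lit 2157) (nat_lit 32) .dd)))) (.br (nat_lit 12) (.ch (nat_lit 11) (.ev (nat_lit
 5188) (nat_lit 2048) (.ev (nat_lit 7028) (nat_lit 65536) (.fin (nat_lit 576641621962474415))))) (.ch (nat_lit
 12) (.ev (nat_lit 2144) (nat_lit 2084) (.ev (nat_lit 2157) (nat_lit 65536) .dd)))))))) (.ch (nat_lit 12) (.ev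
 (nat_lit 1280) (nat_lit 67584) (.nd (nat_lit 3408) (.br (nat_lit 4) (.ch (nat_lit 2) (.ev (nat_lit 6740)
 (nat_lit 32) (.ev (nat_lit 6749) (nat_lit 4) .dd))) (.br (nat_lit 6) (.ch (nat_lit 4) (.ev (nat_lit 6368)
 (nat_lit 4) (.ev (nat_lit 6381) (nat_lit 32) .dd))) (.ch (nat_lit 6) (.ev (nat_lit 5044) (nat_lit 32) (.ev
 (nat_lit 5053) (nat_lit 4) .dd))))))))))))))) (.br (nat_lit 12) (.ch (nat_lit 10) (.ev (nat_lit 544) (nat_lit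
 32772) (.nd (nat_lit 1168) (.br (nat_lit 5) (.br (nat_lit 2) (.ch (nat_lit 0) (.nd (nat_lit 1968) (.br
 (nat_lit 8) (.br (nat_lit 4) (.ch (nat_lit 1) (.ev (nat_lit 2212) (nat_lit 2048) (.ev (nat_lit 6500) (nat_lit
 65536) (.ev (nat_lit 6509) (nat_lit 32) .dd)))) (.br (nat_lit 5) (.ch (nat_lit 4) (.ev (nat_lit 1984) (nat_lit
 65536) (.ev (nat_lit 6500) (nat_lit 32) (.ev (nat_lit 6509) (nat_lit 2048) .dd)))) (.ch (nat_lit 5) (.ev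
 (nat_lit 1984) (nat_lit 2048) (.ev (nat_lit 6692) (nat_lit 32) (.ev (nat_lit 6701) (nat_lit 65536) .dd))))))
 (.br (nat_lit 10) (.br (nat_lit 9) (.ch (nat_lit 8) (.ev (nat_lit 1984) (nat_lit 65568) (.ev (nat_lit 1997)
 (nat_lit 2048) .dd))) (.ch (nat_lit 9) (.nd (nat_lit 4416) (.br (nat_lit 11) (.ch (nat_lit 6) (.ev (nat_lit
 4432) (nat_lit 65536) (.ev (nat_lit 4468) (nat_lit 32) (.ev (nat_lit 4477) (nat_lit 2048) .dd)))) (.br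
 (nat_lit 12) (.ch (nat_lit 11) (.ev (nat_lit 4432) (nat_lit 2048) (.ev (nat_lit 4500) (nat_lit 65536) (.ev
 (nat_lit 4509) (nat_lit 32) .dd)))) (.ch (nat_lit 12) (.ev (nat_lit 4432) (nat_lit 65536) (.ev (nat_lit 6500)
 (nat_lit 32) (.ev (nat_lit 6509) (nat_lit 2048) .dd))))))))) (.br (nat_lit 12) (.ch (nat_lit 10) (.ev (nat_lit
 2004) (nat_lit 32) (.ev (nat_lit 2388) (nat_lit 2048) (.ev (nat_lit 2397) (nat_lit 65536) .dd)))) (.ch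
 (nat_lit 12) (.ev (nat_lit 1984) (nat_lit 65568) (.ev (nat_lit 1997) (nat_lit 2048) .dd)))))))) (.br (nat_lit
 4) (.ch (nat_lit 2) (.ev (nat_lit 1184) (nat_lit 65536) (.nd (nat_lit 2624) (.br (nat_lit 8) (.br (nat_lit 7)
 (.ch (nat_lit 0) (.ev (nat_lit 2640) (nat_lit 32) (.ev (nat_lit 2653) (nat_lit 2048) .dd))) (.ch (nat_lit 7)
 (.ev (nat_lit 2676) (nat_lit 2048) (.ev (nat_lit 2685) (nat_lit 32) .dd)))) (.br (nat_lit 10) (.ch (nat_lit 8)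
 (.ev (nat_lit 2640) (nat_lit 32) (.ev (nat_lit 2653) (nat_lit 2048) .dd))) (.br (nat_lit 12) (.ch (nat_lit 10)
 (.ev (nat_lit 2640) (nat_lit 32) (.ev (nat_lit 2653) (nat_lit 2048) .dd))) (.ch (nat_lit 12) (.ev (nat_lit
 2640) (nat_lit 32) (.ev (nat_lit 2653) (nat_lit 2048) .dd))))))))) (.ch (nat_lit 4) (.ev (nat_lit 1184)
 (nat_lit 32) (.nd (nat_lit 3408) (.br (nat_lit 4) (.ch (nat_lit 2) (.ev (nat_lit 5140) (nat_lit 2048) (.ev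
 (nat_lit 5149) (nat_lit 65536) .dd))) (.br (nat_lit 10) (.ch (nat_lit 4) (.ev (nat_lit 3424) (nat_lit 65536)
 (.ev (nat_lit 3437) (nat_lit 2048) .dd))) (.ch (nat_lit 10) (.ev (nat_lit 3604) (nat_lit 2048) (.ev (nat_lit
 3613) (nat_lit 65536) .dd)))))))))) (.br (nat_lit 11) (.br (nat_lit 9) (.ch (nat_lit 5) (.ev (nat_lit 1184)
 (nat_lit 65536) (.ev (nat_lit 2820) (nat_lit 32) (.ev (nat_lit 2829) (nat_lit 2048) .dd)))) (.ch (nat_lit 9)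
 (.ev (nat_lit 1204) (nat_lit 2048) (.nd (nat_lit 2128) (.br (nat_lit 5) (.br (nat_lit 2) (.ch (nat_lit 0) (.ev
 (nat_lit 2164) (nat_lit 65536) (.ev (nat_lit 2173) (nat_lit 32) .dd))) (.br (nat_lit 3) (.ch (nat_lit 2) (.ev
 (nat_lit 2164) (nat_lit 32) (.ev (nat_lit 2173) (nat_lit 65536) .dd))) (.ch (nat_lit 3) (.ev (nat_lit 2180)
 (nat_lit 32) (.ev (nat_lit 2189) (nat_lit 65536) .dd))))) (.br (nat_lit 9) (.ch (nat_lit 5) (.ev (nat_lit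
 2164) (nat_lit 32) (.ev (nat_lit 2173) (nat_lit 65536) .dd))) (.br (nat_lit 11) (.ch (nat_lit 9) (.ev (nat_lit
 2868) (nat_lit 32) (.ev (nat_lit 2877) (nat_lit 65536) .dd))) (.ch (nat_lit 11) (.ev (nat_lit 2144) (nat_lit
 65536) (.ev (nat_lit 2157) (nat_lit 32) .dd)))))))))) (.br (nat_lit 12) (.ch (nat_lit 11) (.ev (nat_lit 1184)
 (nat_lit 2048) (.nd (nat_lit 2336) (.br (nat_lit 8) (.br (nat_lit 7) (.ch (nat_lit 0) (.ev (nat_lit 5924)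
 (nat_lit 32) (.ev (nat_lit 5933) (nat_lit 65536) .dd))) (.ch (nat_lit 7) (.ev (nat_lit 6788) (nat_lit 65536)
 (.ev (nat_lit 6797) (nat_lit 32) .dd)))) (.br (nat_lit 10) (.ch (nat_lit 8) (.ev (nat_lit 7008) (nat_lit
 65568) .dd)) (.br (nat_lit 12) (.ch (nat_lit 10) (.ev (nat_lit 6644) (nat_lit 32) (.ev (nat_lit 6653) (nat_lit
 65536) .dd))) (.ch (nat_lit 12) (.ev (nat_lit 5364) (nat_lit 65536) (.ev (nat_lit 5373) (nat_lit 32)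
 .dd))))))))) (.ch (nat_lit 12) (.ev (nat_lit 1184) (nat_lit 32) (.nd (nat_lit 2624) (.br (nat_lit 6) (.br
 (nat_lit 4) (.ch (nat_lit 2) (.ev (nat_lit 2640) (nat_lit 65536) (.ev (nat_lit 2653) (nat_lit 2048) .dd)))
 (.ch (nat_lit 4) (.ev (nat_lit 2640) (nat_lit 2048) (.ev (nat_lit 2653) (nat_lit 65536) .dd)))) (.br (nat_lit
 8) (.ch (nat_lit 6) (.ev (nat_lit 5188) (nat_lit 65536) (.ev (nat_lit 5197) (nat_lit 2048) .dd))) (.br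
 (nat_lit 10) (.ch (nat_lit 8) (.ev (nat_lit 2740) (nat_lit 65536) (.ev (nat_lit 2749) (nat_lit 2048) .dd)))
 (.ch (nat_lit 10) (.ev (nat_lit 2640) (nat_lit 65536) (.ev (nat_lit 2653) (nat_lit 2048) .dd)))))))))))))))
 (.ch (nat_lit 12) (.ev (nat_lit 544) (nat_lit 2048) (.nd (nat_lit 1168) (.br (nat_lit 5) (.br (nat_lit 1) (.ch
 (nat_lit 0) (.ev (nat_lit 1204) (nat_lit 65536) (.nd (nat_lit 1968) (.br (nat_lit 6) (.br (nat_lit 3) (.ch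
 (nat_lit 0) (.ev (nat_lit 1984) (nat_lit 36) (.ev (nat_lit 1997) (nat_lit 32768) .dd))) (.br (nat_lit 4) (.ch
 (nat_lit 3) (.ev (nat_lit 1984) (nat_lit 36) (.ev (nat_lit 1997) (nat_lit 32768) .dd))) (.ch (nat_lit 4) (.ev
 (nat_lit 5492) (nat_lit 4) (.fin (nat_lit 576638323289178875)))))) (.br (nat_lit 8) (.br (nat_lit 7) (.ch
 (nat_lit 6) (.ev (nat_lit 1984) (nat_lit 4) (.fin (nat_lit 576280982431679063)))) (.ch (nat_lit 7) (.ev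
 (nat_lit 1984) (nat_lit 32768) (.ev (nat_lit 3940) (nat_lit 4) (.ev (nat_lit 3949) (nat_lit 32) .dd))))) (.br
 (nat_lit 9) (.ch (nat_lit 8) (.ev (nat_lit 1984) (nat_lit 32) (.ev (nat_lit 3540) (nat_lit 4) (.ev (nat_lit
 3549) (nat_lit 32768) .dd)))) (.ch (nat_lit 9) (.ev (nat_lit 1984) (nat_lit 4) (.ev (nat_lit 2004) (nat_lit
 32) (.ev (nat_lit 2013) (nat_lit 32768) .dd)))))))))) (.br (nat_lit 4) (.ch (nat_lit 1) (.ev (nat_lit 1184)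
 (nat_lit 32800) (.ev (nat_lit 1204) (nat_lit 65536) (.ev (nat_lit 1213) (nat_lit 4) .dd)))) (.ch (nat_lit 4)
 (.ev (nat_lit 1184) (nat_lit 65540) (.nd (nat_lit 1968) (.br (nat_lit 9) (.ch (nat_lit 1) (.ev (nat_lit 6500)
 (nat_lit 32) (.ev (nat_lit 6509) (nat_lit 32768) .dd))) (.br (nat_lit 12) (.ch (nat_lit 9) (.ev (nat_lit 3604)
 (nat_lit 32) (.ev (nat_lit 3613) (nat_lit 32768) .dd))) (.ch (nat_lit 12) (.ev (nat_lit 2004) (nat_lit 32768)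
 (.ev (nat_lit 2013) (nat_lit 32) .dd)))))))))) (.br (nat_lit 8) (.br (nat_lit 7) (.ch (nat_lit 5) (.ev
 (nat_lit 1184) (nat_lit 32) (.nd (nat_lit 1968) (.br (nat_lit 8) (.br (nat_lit 1) (.ch (nat_lit 0) (.ev
 (nat_lit 3476) (nat_lit 4) (.ev (nat_lit 5876) (nat_lit 65536) (.ev (nat_lit 5885) (nat_lit 32768) .dd))))
 (.br (nat_lit 3) (.ch (nat_lit 1) (.ev (nat_lit 1984) (nat_lit 4) (.ev (nat_lit 2740) (nat_lit 65536) (.ev
 (nat_lit 2749) (nat_lit 32768) .dd)))) (.ch (nat_lit 3) (.ev (nat_lit 1984) (nat_lit 65536) (.ev (nat_lit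
 6768) (nat_lit 32772) .dd))))) (.br (nat_lit 9) (.ch (nat_lit 8) (.ev (nat_lit 1984) (nat_lit 4) (.ev (nat_lit
 2180) (nat_lit 65536) (.ev (nat_lit 2189) (nat_lit 32768) .dd)))) (.br (nat_lit 11) (.ch (nat_lit 9) (.ev
 (nat_lit 6260) (nat_lit 65536) (.ev (nat_lit 6692) (nat_lit 32768) (.ev (nat_lit 6701) (nat_lit 4) .dd))))
 (.ch (nat_lit 11) (.ev (nat_lit 2180) (nat_lit 65536) (.ev (nat_lit 2820) (nat_lit 4) (.ev (nat_lit 2829)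
 (nat_lit 32768) .dd)))))))))) (.ch (nat_lit 7) (.ev (nat_lit 1184) (nat_lit 98304) (.nd (nat_lit 2336) (.br
 (nat_lit 6) (.ch (nat_lit 4) (.ev (nat_lit 2788) (nat_lit 32) (.ev (nat_lit 2797) (nat_lit 4) .dd))) (.ch
 (nat_lit 6) (.fin (nat_lit 575018741751300244)))))))) (.br (nat_lit 12) (.ch (nat_lit 8) (.nd (nat_lit 1968)
 (.br (nat_lit 6) (.br (nat_lit 2) (.ch (nat_lit 0) (.ev (nat_lit 1984) (nat_lit 65536) (.ev (nat_lit 2164)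
 (nat_lit 32) (.ev (nat_lit 2388) (nat_lit 32768) (.ev (nat_lit 2397) (nat_lit 4) .dd))))) (.br (nat_lit 3)
 (.ch (nat_lit 2) (.ev (nat_lit 2164) (nat_lit 32) (.ev (nat_lit 2740) (nat_lit 65540) (.ev (nat_lit 2749)
 (nat_lit 32768) .dd)))) (.ch (nat_lit 3) (.ev (nat_lit 1984) (nat_lit 4) (.ev (nat_lit 2164) (nat_lit 32) (.ev
 (nat_lit 2388) (nat_lit 32768) (.ev (nat_lit 2397) (nat_lit 65536) .dd))))))) (.br (nat_lit 11) (.br (nat_lit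
 10) (.ch (nat_lit 6) (.ev (nat_lit 1984) (nat_lit 98304) (.ev (nat_lit 2196) (nat_lit 32) (.ev (nat_lit 2205)
 (nat_lit 4) .dd)))) (.ch (nat_lit 10) (.ev (nat_lit 2164) (nat_lit 32) (.ev (nat_lit 3348) (nat_lit 4) (.ev
 (nat_lit 3844) (nat_lit 65536) (.ev (nat_lit 3853) (nat_lit 32768) .dd)))))) (.br (nat_lit 12) (.ch (nat_lit
 11) (.ev (nat_lit 1984) (nat_lit 36) (.ev (nat_lit 2388) (nat_lit 32768) (.ev (nat_lit 2397) (nat_lit 65536)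
 .dd)))) (.ch (nat_lit 12) (.ev (nat_lit 1984) (nat_lit 98304) (.ev (nat_lit 6788) (nat_lit 4) (.ev (nat_lit
 6797) (nat_lit 32) .dd))))))))) (.ch (nat_lit 12) (.ev (nat_lit 1184) (nat_lit 4) (.nd (nat_lit 2336) (.br
 (nat_lit 8) (.br (nat_lit 1) (.ch (nat_lit 0) (.ev (nat_lit 2352) (nat_lit 32768) (.ev (nat_lit 3700) (nat_lit
 32) (.ev (nat_lit 3709) (nat_lit 65536) .dd)))) (.br (nat_lit 7) (.ch (nat_lit 1) (.ev (nat_lit 2352) (nat_lit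
 32) (.fin (nat_lit 576544865054573218)))) (.ch (nat_lit 7) (.ev (nat_lit 2352) (nat_lit 32768) (.ev (nat_lit
 2372) (nat_lit 32) (.ev (nat_lit 2381) (nat_lit 65536) .dd)))))) (.br (nat_lit 11) (.ch (nat_lit 8) (.ev
 (nat_lit 2352) (nat_lit 32768) (.ev (nat_lit 2372) (nat_lit 32) (.ev (nat_lit 2381) (nat_lit 65536) .dd))))
 (.br (nat_lit 12) (.ch (nat_lit 11) (.ev (nat_lit 2352) (nat_lit 65536) (.ev (nat_lit 2484) (nat_lit 32) (.ev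
 (nat_lit 2493) (nat_lit 32768) .dd)))) (.ch (nat_lit 12) (.ev (nat_lit 2372) (nat_lit 32) (.ev (nat_lit 3012)
 (nat_lit 65536) (.ev (nat_lit 3021) (nat_lit 32768) .dd)))))))))))))))))))))))) (.br (nat_lit 9) (.ch (nat_lit
 8) (.ev (nat_lit 48) (nat_lit 34848) (.nd (nat_lit 528) (.br (nat_lit 6) (.br (nat_lit 4) (.br (nat_lit 2)
 (.ch (nat_lit 0) (.nd (nat_lit 1088) (.br (nat_lit 7) (.br (nat_lit 2) (.br (nat_lit 1) (.ch (nat_lit 0) (.ev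
 (nat_lit 1104) (nat_lit 70662) (.nd (nat_lit 3408) (.br (nat_lit 8) (.ch (nat_lit 5) (.ev (nat_lit 6176)
 (nat_lit 320) .dd)) (.ch (nat_lit 8) (.ev (nat_lit 3476) (nat_lit 64) (.ev (nat_lit 3485) (nat_lit 256)
 .dd))))))) (.ch (nat_lit 1) (.ev (nat_lit 1104) (nat_lit 324) (.nd (nat_lit 2336) (.br (nat_lit 7) (.br
 (nat_lit 4) (.br (nat_lit 2) (.ch (nat_lit 0) (.ev (nat_lit 2352) (nat_lit 1024) (.ev (nat_lit 2372) (nat_lit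
 4096) (.ev (nat_lit 2740) (nat_lit 65536) (.ev (nat_lit 2749) (nat_lit 2) .dd))))) (.ch (nat_lit 2) (.ev
 (nat_lit 2352) (nat_lit 69632) (.ev (nat_lit 3220) (nat_lit 2) (.ev (nat_lit 3229) (nat_lit 1024) .dd)))))
 (.br (nat_lit 6) (.ch (nat_lit 4) (.ev (nat_lit 2372) (nat_lit 5120) (.ev (nat_lit 2388) (nat_lit 2) (.ev
 (nat_lit 2397) (nat_lit 65536) .dd)))) (.ch (nat_lit 6) (.ev (nat_lit 2352) (nat_lit 65538) (.ev (nat_lit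
 5140) (nat_lit 4096) (.ev (nat_lit 5149) (nat_lit 1024) .dd)))))) (.br (nat_lit 10) (.br (nat_lit 8) (.ch
 (nat_lit 7) (.ev (nat_lit 2352) (nat_lit 4098) (.ev (nat_lit 2372) (nat_lit 1024) (.ev (nat_lit 2381) (nat_lit
 65536) .dd)))) (.ch (nat_lit 8) (.ev (nat_lit 2352) (nat_lit 1026) (.ev (nat_lit 2372) (nat_lit 4096) (.ev
 (nat_lit 2381) (nat_lit 65536) .dd))))) (.br (nat_lit 11) (.ch (nat_lit 10) (.ev (nat_lit 2352) (nat_lit 2)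
 (.ev (nat_lit 3700) (nat_lit 65536) (.ev (nat_lit 5572) (nat_lit 1024) (.ev (nat_lit 5581) (nat_lit 4096)
 .dd))))) (.ch (nat_lit 11) (.ev (nat_lit 2352) (nat_lit 1026) (.ev (nat_lit 5140) (nat_lit 65536) (.ev
 (nat_lit 5149) (nat_lit 4096) .dd))))))))))) (.br (nat_lit 6) (.ch (nat_lit 2) (.ev (nat_lit 1104) (nat_lit
 65794) (.nd (nat_lit 1840) (.br (nat_lit 8) (.br (nat_lit 5) (.br (nat_lit 1) (.ch (nat_lit 0) (.ev (nat_lit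
 1856) (nat_lit 1092) (.ev (nat_lit 1869) (nat_lit 4096) .dd))) (.ch (nat_lit 1) (.ev (nat_lit 1856) (nat_lit
 4096) (.ev (nat_lit 6596) (nat_lit 1024) (.nd (nat_lit 7792) (.br (nat_lit 9) (.ch (nat_lit 3) (.ev (nat_lit
 7808) (nat_lit 64) (.ev (nat_lit 7821) (nat_lit 4) .dd))) (.ch (nat_lit 9) (.nd (nat_lit 8448) (.br (nat_lit
 7) (.ch (nat_lit 1) (.fin (nat_lit 576461301933883988))) (.ch (nat_lit 7) (.ev (nat_lit 8464) (nat_lit 4) (.ev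
 (nat_lit 8477) (nat_lit 64) .dd)))))))))))) (.br (nat_lit 7) (.ch (nat_lit 5) (.ev (nat_lit 1856) (nat_lit
 4096) (.nd (nat_lit 4864) (.br (nat_lit 3) (.br (nat_lit 1) (.ch (nat_lit 0) (.ev (nat_lit 4880) (nat_lit
 1024) (.ev (nat_lit 5280) (nat_lit 4) (.ev (nat_lit 5293) (nat_lit 64) .dd)))) (.br (nat_lit 2) (.ch (nat_lit
 1) (.ev (nat_lit 4880) (nat_lit 4) (.ev (nat_lit 6596) (nat_lit 1024) (.ev (nat_lit 6605) (nat_lit 64) .dd))))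
 (.ch (nat_lit 2) (.ev (nat_lit 5844) (nat_lit 4) (.fin (nat_lit 576550362513097368)))))) (.br (nat_lit 7) (.ch
 (nat_lit 3) (.ev (nat_lit 4880) (nat_lit 4) (.ev (nat_lit 5888) (nat_lit 1088) .dd))) (.br (nat_lit 10) (.ch
 (nat_lit 7) (.ev (nat_lit 4880) (nat_lit 4) (.ev (nat_lit 6260) (nat_lit 1024) (.ev (nat_lit 6269) (nat_lit
 64) .dd)))) (.ch (nat_lit 10) (.ev (nat_lit 4932) (nat_lit 1024) (.ev (nat_lit 5844) (nat_lit 4) (.ev (nat_lit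
 5853) (nat_lit 64) .dd)))))))))) (.ch (nat_lit 7) (.ev (nat_lit 1856) (nat_lit 5120) (.ev (nat_lit 5604)
 (nat_lit 64) (.ev (nat_lit 5613) (nat_lit 4) .dd)))))) (.br (nat_lit 11) (.br (nat_lit 10) (.ch (nat_lit 8)
 (.ev (nat_lit 1856) (nat_lit 1024) (.ev (nat_lit 1876) (nat_lit 4096) (.ev (nat_lit 6596) (nat_lit 64) (.ev
 (nat_lit 6605) (nat_lit 4) .dd))))) (.ch (nat_lit 10) (.nd (nat_lit 4864) (.br (nat_lit 7) (.br (nat_lit 4)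
 (.ch (nat_lit 2) (.ev (nat_lit 4880) (nat_lit 68) (.ev (nat_lit 4932) (nat_lit 1024) (.ev (nat_lit 4941)
 (nat_lit 4096) .dd)))) (.ch (nat_lit 4) (.ev (nat_lit 4880) (nat_lit 64) (.ev (nat_lit 4932) (nat_lit 4100)
 (.ev (nat_lit 4941) (nat_lit 1024) .dd))))) (.br (nat_lit 8) (.ch (nat_lit 7) (.ev (nat_lit 4880) (nat_lit 4)
 (.ev (nat_lit 4932) (nat_lit 1024) (.ev (nat_lit 6452) (nat_lit 4096) (.ev (nat_lit 6461) (nat_lit 64)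
 .dd))))) (.br (nat_lit 9) (.ch (nat_lit 8) (.ev (nat_lit 4880) (nat_lit 5120) (.ev (nat_lit 4932) (nat_lit 4)
 (.ev (nat_lit 4941) (nat_lit 64) .dd)))) (.ch (nat_lit 9) (.ev (nat_lit 4880) (nat_lit 4100) (.ev (nat_lit
 5444) (nat_lit 1024) (.ev (nat_lit 5453) (nat_lit 64) .dd)))))))))) (.br (nat_lit 12) (.ch (nat_lit 11) (.ev
 (nat_lit 1856) (nat_lit 68) (.ev (nat_lit 6868) (nat_lit 4096) (.ev (nat_lit 6877) (nat_lit 1024) .dd)))) (.ch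
 (nat_lit 12) (.ev (nat_lit 1856) (nat_lit 4164) (.ev (nat_lit 1869) (nat_lit 1024) .dd))))))))) (.ch (nat_lit
 6) (.ev (nat_lit 1104) (nat_lit 65536) (.ev (nat_lit 1124) (nat_lit 4096) (.nd (nat_lit 1744) (.br (nat_lit 4)
 (.br (nat_lit 2) (.br (nat_lit 1) (.ch (nat_lit 0) (.ev (nat_lit 1760) (nat_lit 4) (.nd (nat_lit 4592) (.br
 (nat_lit 10) (.br (nat_lit 4) (.ch (nat_lit 0) (.ev (nat_lit 4608) (nat_lit 66) (.ev (nat_lit 4644) (nat_lit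
 1024) (.ev (nat_lit 4653) (nat_lit 256) .dd)))) (.ch (nat_lit 4) (.ev (nat_lit 4608) (nat_lit 1088) (.ev
 (nat_lit 6020) (nat_lit 2) (.ev (nat_lit 6029) (nat_lit 256) .dd))))) (.br (nat_lit 11) (.ch (nat_lit 10) (.ev
 (nat_lit 4608) (nat_lit 320) (.ev (nat_lit 4644) (nat_lit 1024) (.ev (nat_lit 4653) (nat_lit 2) .dd)))) (.br
 (nat_lit 12) (.ch (nat_lit 11) (.ev (nat_lit 4608) (nat_lit 256) (.ev (nat_lit 4644) (nat_lit 1024) (.ev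
 (nat_lit 5444) (nat_lit 64) (.ev (nat_lit 5453) (nat_lit 2) .dd))))) (.ch (nat_lit 12) (.ev (nat_lit 4608)
 (nat_lit 1282) (.ev (nat_lit 4621) (nat_lit 64) .dd))))))))) (.ch (nat_lit 1) (.ev (nat_lit 1760) (nat_lit
 1028) (.nd (nat_lit 4592) (.br (nat_lit 10) (.br (nat_lit 2) (.ch (nat_lit 0) (.ev (nat_lit 4608) (nat_lit 2)
 (.ev (nat_lit 5248) (nat_lit 256) (.ev (nat_lit 5261) (nat_lit 64) .dd)))) (.ch (nat_lit 2) (.ev (nat_lit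
 4608) (nat_lit 256) (.ev (nat_lit 4932) (nat_lit 2) (.ev (nat_lit 4941) (nat_lit 64) .dd))))) (.br (nat_lit
 11) (.ch (nat_lit 10) (.ev (nat_lit 4932) (nat_lit 2) (.ev (nat_lit 6512) (nat_lit 320) .dd))) (.ch (nat_lit
 11) (.ev (nat_lit 6500) (nat_lit 2) (.ev (nat_lit 6692) (nat_lit 256) (.ev (nat_lit 6701) (nat_lit 64)
 .dd)))))))))) (.br (nat_lit 3) (.ch (nat_lit 2) (.ev (nat_lit 1760) (nat_lit 320) (.ev (nat_lit 5776) (nat_lit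
 4) (.ev (nat_lit 6900) (nat_lit 1024) (.ev (nat_lit 6909) (nat_lit 2) .dd))))) (.ch (nat_lit 3) (.ev (nat_lit
 1760) (nat_lit 322) (.ev (nat_lit 4996) (nat_lit 1024) (.ev (nat_lit 5005) (nat_lit 4) .dd)))))) (.br (nat_lit
 8) (.br (nat_lit 5) (.ch (nat_lit 4) (.ev (nat_lit 1760) (nat_lit 320) (.ev (nat_lit 6964) (nat_lit 2) (.nd
 (nat_lit 7872) (.br (nat_lit 12) (.ch (nat_lit 10) (.ev (nat_lit 7888) (nat_lit 4) (.ev (nat_lit 7901)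
 (nat_lit 1024) .dd))) (.ch (nat_lit 12) (.nd (nat_lit 9280) (.br (nat_lit 11) (.ch (nat_lit 7) (.ev (nat_lit
 9296) (nat_lit 1024) (.ev (nat_lit 9309) (nat_lit 4) .dd))) (.ch (nat_lit 11) (.fin (nat_lit
 576416222084022808))))))))))) (.ch (nat_lit 5) (.ev (nat_lit 1760) (nat_lit 1090) (.ev (nat_lit 2224) (nat_lit
 256) (.ev (nat_lit 2237) (nat_lit 4) .dd))))) (.br (nat_lit 11) (.ch (nat_lit 8) (.ev (nat_lit 1760) (nat_lit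
 68) (.ev (nat_lit 1780) (nat_lit 2) (.ev (nat_lit 6032) (nat_lit 256) (.ev (nat_lit 6045) (nat_lit 1024)
 .dd))))) (.br (nat_lit 12) (.ch (nat_lit 11) (.ev (nat_lit 1760) (nat_lit 6) (.ev (nat_lit 2676) (nat_lit 64)
 (.ev (nat_lit 2788) (nat_lit 1024) (.ev (nat_lit 2797) (nat_lit 256) .dd))))) (.ch (nat_lit 12) (.ev (nat_lit
 1760) (nat_lit 1028) (.ev (nat_lit 1780) (nat_lit 2) (.ev (nat_lit 2484) (nat_lit 256) (.ev (nat_lit 2493)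
 (nat_lit 64) .dd))))))))))))))) (.br (nat_lit 9) (.br (nat_lit 8) (.ch (nat_lit 7) (.ev (nat_lit 1104)
 (nat_lit 1088) (.ev (nat_lit 1124) (nat_lit 258) (.ev (nat_lit 3012) (nat_lit 4096) (.ev (nat_lit 3604)
 (nat_lit 65536) (.ev (nat_lit 3613) (nat_lit 4) .dd)))))) (.ch (nat_lit 8) (.ev (nat_lit 1104) (nat_lit 258)
 (.ev (nat_lit 1124) (nat_lit 65536) (.nd (nat_lit 2128) (.br (nat_lit 6) (.br (nat_lit 4) (.br (nat_lit 2)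
 (.ch (nat_lit 0) (.ev (nat_lit 2144) (nat_lit 4100) (.ev (nat_lit 6356) (nat_lit 64) (.ev (nat_lit 6365)
 (nat_lit 1024) .dd)))) (.ch (nat_lit 2) (.ev (nat_lit 2144) (nat_lit 4164) (.ev (nat_lit 2157) (nat_lit 1024)
 .dd)))) (.br (nat_lit 5) (.ch (nat_lit 4) (.ev (nat_lit 2144) (nat_lit 64) (.ev (nat_lit 2164) (nat_lit 4096)
 (.ev (nat_lit 5044) (nat_lit 4) (.ev (nat_lit 5053) (nat_lit 1024) .dd))))) (.ch (nat_lit 5) (.ev (nat_lit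
 2144) (nat_lit 4096) (.ev (nat_lit 6544) (nat_lit 64) (.ev (nat_lit 6692) (nat_lit 4) (.ev (nat_lit 6701)
 (nat_lit 1024) .dd))))))) (.br (nat_lit 9) (.br (nat_lit 7) (.ch (nat_lit 6) (.ev (nat_lit 2144) (nat_lit 68)
 (.ev (nat_lit 6368) (nat_lit 4096) (.ev (nat_lit 6381) (nat_lit 1024) .dd)))) (.ch (nat_lit 7) (.ev (nat_lit
 2144) (nat_lit 1088) (.ev (nat_lit 6452) (nat_lit 4096) (.ev (nat_lit 6461) (nat_lit 4) .dd))))) (.br (nat_lit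
 10) (.ch (nat_lit 9) (.ev (nat_lit 2144) (nat_lit 5120) (.ev (nat_lit 2196) (nat_lit 4) (.ev (nat_lit 2205)
 (nat_lit 64) .dd)))) (.br (nat_lit 11) (.ch (nat_lit 10) (.ev (nat_lit 2144) (nat_lit 4100) (.ev (nat_lit
 3044) (nat_lit 1024) (.ev (nat_lit 3053) (nat_lit 64) .dd)))) (.ch (nat_lit 11) (.ev (nat_lit 2144) (nat_lit
 5120) (.ev (nat_lit 2164) (nat_lit 4) (.ev (nat_lit 2173) (nat_lit 64) .dd))))))))))))) (.br (nat_lit 11) (.ch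
 (nat_lit 9) (.ev (nat_lit 1104) (nat_lit 4096) (.ev (nat_lit 1124) (nat_lit 2) (.nd (nat_lit 1840) (.br
 (nat_lit 5) (.br (nat_lit 2) (.br (nat_lit 1) (.ch (nat_lit 0) (.ev (nat_lit 1856) (nat_lit 65540) (.nd
 (nat_lit 4416) (.br (nat_lit 8) (.br (nat_lit 1) (.ch (nat_lit 0) (.ev (nat_lit 4944) (nat_lit 64) (.ev
 (nat_lit 4996) (nat_lit 1024) (.ev (nat_lit 5005) (nat_lit 256) .dd)))) (.br (nat_lit 7) (.ch (nat_lit 1) (.ev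
 (nat_lit 4432) (nat_lit 1280) (.ev (nat_lit 4445) (nat_lit 64) .dd))) (.ch (nat_lit 7) (.ev (nat_lit 4432)
 (nat_lit 256) (.ev (nat_lit 4960) (nat_lit 1088) .dd))))) (.br (nat_lit 9) (.ch (nat_lit 8) (.ev (nat_lit
 4432) (nat_lit 1280) (.ev (nat_lit 4445) (nat_lit 64) .dd))) (.br (nat_lit 10) (.ch (nat_lit 9) (.ev (nat_lit
 4432) (nat_lit 64) (.ev (nat_lit 5236) (nat_lit 256) (.ev (nat_lit 5245) (nat_lit 1024) .dd)))) (.ch (nat_lit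
 10) (.ev (nat_lit 4432) (nat_lit 256) (.ev (nat_lit 4468) (nat_lit 1024) (.ev (nat_lit 4477) (nat_lit 64)
 .dd)))))))))) (.ch (nat_lit 1) (.ev (nat_lit 1856) (nat_lit 65536) (.nd (nat_lit 4416) (.br (nat_lit 9) (.br
 (nat_lit 5) (.ch (nat_lit 2) (.ev (nat_lit 4432) (nat_lit 64) (.ev (nat_lit 4468) (nat_lit 256) (.ev (nat_lit
 4724) (nat_lit 1024) (.ev (nat_lit 4733) (nat_lit 4) .dd))))) (.ch (nat_lit 5) (.ev (nat_lit 4432) (nat_lit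
 68) (.ev (nat_lit 4768) (nat_lit 1024) (.ev (nat_lit 4781) (nat_lit 256) .dd))))) (.br (nat_lit 10) (.ch
 (nat_lit 9) (.ev (nat_lit 4432) (nat_lit 4) (.ev (nat_lit 5056) (nat_lit 64) (.ev (nat_lit 6148) (nat_lit 256)
 (.ev (nat_lit 6157) (nat_lit 1024) .dd))))) (.br (nat_lit 11) (.ch (nat_lit 10) (.ev (nat_lit 4432) (nat_lit
 64) (.ev (nat_lit 4468) (nat_lit 256) (.ev (nat_lit 5236) (nat_lit 1024) (.ev (nat_lit 5245) (nat_lit 4)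
 .dd))))) (.ch (nat_lit 11) (.ev (nat_lit 4432) (nat_lit 260) (.fin (nat_lit 576399729351934424))))))))))) (.br
 (nat_lit 3) (.ch (nat_lit 2) (.ev (nat_lit 1856) (nat_lit 65860) (.ev (nat_lit 1869) (nat_lit 1024) .dd)))
 (.ch (nat_lit 3) (.ev (nat_lit 1856) (nat_lit 1028) (.ev (nat_lit 3604) (nat_lit 65536) (.ev (nat_lit 6704)
 (nat_lit 64) (.ev (nat_lit 6717) (nat_lit 256) .dd))))))) (.br (nat_lit 7) (.br (nat_lit 6) (.ch (nat_lit 5)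
 (.ev (nat_lit 1856) (nat_lit 1024) (.ev (nat_lit 1876) (nat_lit 4) (.ev (nat_lit 3604) (nat_lit 65536) (.ev
 (nat_lit 6356) (nat_lit 256) (.ev (nat_lit 6365) (nat_lit 64) .dd)))))) (.ch (nat_lit 6) (.ev (nat_lit 1856)
 (nat_lit 65600) (.ev (nat_lit 6260) (nat_lit 1024) (.nd (nat_lit 7920) (.br (nat_lit 11) (.ch (nat_lit 5) (.ev
 (nat_lit 7936) (nat_lit 260) .dd)) (.ch (nat_lit 11) (.fin (nat_lit 565409011409041871))))))))) (.br (nat_lit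
 9) (.ch (nat_lit 7) (.ev (nat_lit 1856) (nat_lit 320) (.ev (nat_lit 1876) (nat_lit 1028) (.ev (nat_lit 1885)
 (nat_lit 65536) .dd)))) (.ch (nat_lit 9) (.ev (nat_lit 1856) (nat_lit 320) (.ev (nat_lit 6356) (nat_lit 65536)
 (.ev (nat_lit 6500) (nat_lit 1024) (.ev (nat_lit 6509) (nat_lit 4) .dd)))))))))))) (.br (nat_lit 12) (.ch
 (nat_lit 11) (.ev (nat_lit 1104) (nat_lit 4096) (.nd (nat_lit 1840) (.br (nat_lit 6) (.br (nat_lit 4) (.br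
 (nat_lit 2) (.ch (nat_lit 0) (.ev (nat_lit 1856) (nat_lit 320) (.ev (nat_lit 2948) (nat_lit 1024) (.ev
 (nat_lit 6596) (nat_lit 2) (.ev (nat_lit 7188) (nat_lit 65536) (.ev (nat_lit 7197) (nat_lit 4) .dd)))))) (.ch
 (nat_lit 2) (.ev (nat_lit 1856) (nat_lit 1030) (.ev (nat_lit 2788) (nat_lit 256) (.ev (nat_lit 6644) (nat_lit
 64) (.ev (nat_lit 6653) (nat_lit 65536) .dd)))))) (.br (nat_lit 5) (.ch (nat_lit 4) (.ev (nat_lit 1856)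
 (nat_lit 66880) (.ev (nat_lit 6260) (nat_lit 2) (.ev (nat_lit 6269) (nat_lit 4) .dd)))) (.ch (nat_lit 5) (.ev
 (nat_lit 1856) (nat_lit 65536) (.ev (nat_lit 3044) (nat_lit 256) (.nd (nat_lit 4592) (.br (nat_lit 6) (.br
 (nat_lit 4) (.ch (nat_lit 2) (.ev (nat_lit 4608) (nat_lit 4) (.ev (nat_lit 4644) (nat_lit 2) (.ev (nat_lit
 6020) (nat_lit 1024) (.ev (nat_lit 6029) (nat_lit 64) .dd))))) (.br (nat_lit 5) (.ch (nat_lit 4) (.ev (nat_lit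
 4608) (nat_lit 70) (.ev (nat_lit 4621) (nat_lit 1024) .dd))) (.ch (nat_lit 5) (.ev (nat_lit 4608) (nat_lit
 1024) (.ev (nat_lit 5300) (nat_lit 4) (.ev (nat_lit 5392) (nat_lit 66) .dd)))))) (.br (nat_lit 7) (.ch
 (nat_lit 6) (.ev (nat_lit 4608) (nat_lit 1088) (.ev (nat_lit 5300) (nat_lit 2) (.ev (nat_lit 5309) (nat_lit 4)
 .dd)))) (.br (nat_lit 10) (.ch (nat_lit 7) (.ev (nat_lit 4608) (nat_lit 64) (.ev (nat_lit 6160) (nat_lit 1024)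
 (.ev (nat_lit 6788) (nat_lit 4) (.ev (nat_lit 6797) (nat_lit 2) .dd))))) (.ch (nat_lit 10) (.ev (nat_lit 4608)
 (nat_lit 1026) (.ev (nat_lit 4996) (nat_lit 4) (.ev (nat_lit 5005) (nat_lit 64) .dd))))))))))))) (.br (nat_lit
 8) (.br (nat_lit 7) (.ch (nat_lit 6) (.ev (nat_lit 1856) (nat_lit 1024) (.ev (nat_lit 1876) (nat_lit 256) (.nd
 (nat_lit 4416) (.br (nat_lit 4) (.br (nat_lit 2) (.ch (nat_lit 1) (.ev (nat_lit 4432) (nat_lit 6) (.ev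
 (nat_lit 4932) (nat_lit 65536) (.ev (nat_lit 4941) (nat_lit 64) .dd)))) (.br (nat_lit 3) (.ch (nat_lit 2) (.ev
 (nat_lit 4432) (nat_lit 68) (.ev (nat_lit 4624) (nat_lit 65538) .dd))) (.ch (nat_lit 3) (.ev (nat_lit 4432)
 (nat_lit 4) (.ev (nat_lit 4644) (nat_lit 2) (.ev (nat_lit 5572) (nat_lit 65536) (.ev (nat_lit 5581) (nat_lit
 64) .dd))))))) (.br (nat_lit 9) (.br (nat_lit 6) (.ch (nat_lit 4) (.ev (nat_lit 4432) (nat_lit 68) (.ev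
 (nat_lit 4644) (nat_lit 2) (.ev (nat_lit 4653) (nat_lit 65536) .dd)))) (.ch (nat_lit 6) (.ev (nat_lit 4432)
 (nat_lit 65540) (.ev (nat_lit 4644) (nat_lit 2) (.ev (nat_lit 4653) (nat_lit 64) .dd))))) (.br (nat_lit 10)
 (.ch (nat_lit 9) (.ev (nat_lit 4432) (nat_lit 65600) (.ev (nat_lit 4644) (nat_lit 2) (.ev (nat_lit 4653)
 (nat_lit 4) .dd)))) (.ch (nat_lit 10) (.ev (nat_lit 4432) (nat_lit 6) (.ev (nat_lit 4692) (nat_lit 64) (.ev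
 (nat_lit 4701) (nat_lit 65536) .dd))))))))))) (.ch (nat_lit 7) (.ev (nat_lit 1856) (nat_lit 66818) (.ev
 (nat_lit 5140) (nat_lit 4) (.ev (nat_lit 5149) (nat_lit 64) .dd))))) (.br (nat_lit 10) (.ch (nat_lit 8) (.ev
 (nat_lit 1856) (nat_lit 66820) (.ev (nat_lit 1876) (nat_lit 2) (.ev (nat_lit 1885) (nat_lit 64) .dd)))) (.br
 (nat_lit 12) (.ch (nat_lit 10) (.ev (nat_lit 1856) (nat_lit 320) (.ev (nat_lit 2180) (nat_lit 65536) (.nd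
 (nat_lit 4864) (.br (nat_lit 3) (.br (nat_lit 2) (.ch (nat_lit 0) (.ev (nat_lit 4880) (nat_lit 1024) (.ev
 (nat_lit 5764) (nat_lit 2) (.ev (nat_lit 5773) (nat_lit 4) .dd)))) (.ch (nat_lit 2) (.ev (nat_lit 4880)
 (nat_lit 1024) (.ev (nat_lit 4932) (nat_lit 2) (.ev (nat_lit 4941) (nat_lit 4) .dd))))) (.br (nat_lit 11) (.ch
 (nat_lit 3) (.ev (nat_lit 4960) (nat_lit 4) (.ev (nat_lit 4996) (nat_lit 2) (.ev (nat_lit 5005) (nat_lit 1024)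
 .dd)))) (.ch (nat_lit 11) (.ev (nat_lit 4880) (nat_lit 4) (.ev (nat_lit 4932) (nat_lit 2) (.ev (nat_lit 4941)
 (nat_lit 1024) .dd)))))))))) (.ch (nat_lit 12) (.ev (nat_lit 1856) (nat_lit 1030) (.ev (nat_lit 3700) (nat_lit
 65536) (.ev (nat_lit 6272) (nat_lit 256) (.ev (nat_lit 6285) (nat_lit 64) .dd)))))))))))) (.ch (nat_lit 12)
 (.ev (nat_lit 1104) (nat_lit 70724) (.ev (nat_lit 3140) (nat_lit 256) (.ev (nat_lit 3149) (nat_lit 2)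
 .dd)))))))))) (.ch (nat_lit 2) (.ev (nat_lit 544) (nat_lit 66880) (.ev (nat_lit 564) (nat_lit 4096) (.nd
 (nat_lit 1264) (.br (nat_lit 4) (.br (nat_lit 2) (.br (nat_lit 1) (.ch (nat_lit 0) (.ev (nat_lit 1280)
 (nat_lit 4) (.ev (nat_lit 1293) (nat_lit 2) .dd))) (.ch (nat_lit 1) (.ev (nat_lit 1332) (nat_lit 2) (.ev
 (nat_lit 1341) (nat_lit 4) .dd)))) (.br (nat_lit 3) (.ch (nat_lit 2) (.ev (nat_lit 1280) (nat_lit 6) .dd))
 (.ch (nat_lit 3) (.ev (nat_lit 1280) (nat_lit 4) (.ev (nat_lit 1293) (nat_lit 2) .dd))))) (.br (nat_lit 7)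
 (.br (nat_lit 6) (.ch (nat_lit 4) (.nd (nat_lit 3984) (.br (nat_lit 9) (.ch (nat_lit 0) (.fin (nat_lit
 576425018201162257))) (.ch (nat_lit 9) (.ev (nat_lit 4020) (nat_lit 4) (.ev (nat_lit 4029) (nat_lit 2)
 .dd)))))) (.ch (nat_lit 6) (.ev (nat_lit 1280) (nat_lit 6) .dd))) (.br (nat_lit 8) (.ch (nat_lit 7) (.ev
 (nat_lit 1300) (nat_lit 2) (.ev (nat_lit 1309) (nat_lit 4) .dd))) (.br (nat_lit 12) (.ch (nat_lit 8) (.ev
 (nat_lit 1280) (nat_lit 2) (.ev (nat_lit 1293) (nat_lit 4) .dd))) (.ch (nat_lit 12) (.ev (nat_lit 1364)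
 (nat_lit 2) (.ev (nat_lit 1373) (nat_lit 4) .dd)))))))))))) (.br (nat_lit 5) (.ch (nat_lit 4) (.ev (nat_lit
 544) (nat_lit 4096) (.nd (nat_lit 1088) (.br (nat_lit 5) (.br (nat_lit 3) (.br (nat_lit 2) (.ch (nat_lit 1)
 (.ev (nat_lit 1104) (nat_lit 1092) (.nd (nat_lit 2128) (.br (nat_lit 5) (.br (nat_lit 2) (.ch (nat_lit 1) (.ev
 (nat_lit 2144) (nat_lit 65536) (.ev (nat_lit 2676) (nat_lit 2) (.ev (nat_lit 2685) (nat_lit 256) .dd)))) (.br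
 (nat_lit 4) (.ch (nat_lit 2) (.ev (nat_lit 2144) (nat_lit 256) (.ev (nat_lit 2848) (nat_lit 65538) .dd))) (.ch
 (nat_lit 4) (.ev (nat_lit 2144) (nat_lit 256) (.ev (nat_lit 2676) (nat_lit 2) (.ev (nat_lit 2685) (nat_lit
 65536) .dd)))))) (.br (nat_lit 8) (.ch (nat_lit 5) (.ev (nat_lit 2144) (nat_lit 2) (.ev (nat_lit 3616)
 (nat_lit 65792) .dd))) (.br (nat_lit 11) (.ch (nat_lit 8) (.ev (nat_lit 2144) (nat_lit 256) (.ev (nat_lit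
 2676) (nat_lit 2) (.ev (nat_lit 2685) (nat_lit 65536) .dd)))) (.ch (nat_lit 11) (.ev (nat_lit 2144) (nat_lit
 2) (.ev (nat_lit 2388) (nat_lit 256) (.ev (nat_lit 2397) (nat_lit 65536) .dd)))))))))) (.ch (nat_lit 2) (.ev
 (nat_lit 1104) (nat_lit 2) (.ev (nat_lit 1124) (nat_lit 256) (.ev (nat_lit 1332) (nat_lit 65536) (.nd (nat_lit
 2624) (.br (nat_lit 7) (.br (nat_lit 2) (.br (nat_lit 1) (.ch (nat_lit 0) (.ev (nat_lit 2788) (nat_lit 64)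
 (.ev (nat_lit 3540) (nat_lit 1024) (.ev (nat_lit 3549) (nat_lit 4) .dd)))) (.ch (nat_lit 1) (.ev (nat_lit
 2676) (nat_lit 1024) (.ev (nat_lit 2788) (nat_lit 4) (.ev (nat_lit 2797) (nat_lit 64) .dd))))) (.br (nat_lit
 6) (.ch (nat_lit 2) (.ev (nat_lit 2640) (nat_lit 1028) (.ev (nat_lit 2653) (nat_lit 64) .dd))) (.ch (nat_lit
 6) (.ev (nat_lit 2640) (nat_lit 4) (.ev (nat_lit 2676) (nat_lit 64) (.ev (nat_lit 2685) (nat_lit 1024)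
 .dd)))))) (.br (nat_lit 9) (.br (nat_lit 8) (.ch (nat_lit 7) (.ev (nat_lit 2640) (nat_lit 64) (.ev (nat_lit
 3604) (nat_lit 1024) (.ev (nat_lit 3613) (nat_lit 4) .dd)))) (.ch (nat_lit 8) (.ev (nat_lit 2640) (nat_lit
 1092) .dd))) (.br (nat_lit 10) (.ch (nat_lit 9) (.ev (nat_lit 2640) (nat_lit 1092) .dd)) (.br (nat_lit 12)
 (.ch (nat_lit 10) (.ev (nat_lit 2640) (nat_lit 1028) (.ev (nat_lit 2653) (nat_lit 64) .dd))) (.ch (nat_lit 12)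
 (.ev (nat_lit 2640) (nat_lit 1024) (.ev (nat_lit 5492) (nat_lit 64) (.ev (nat_lit 5501) (nat_lit 4)
 .dd)))))))))))))) (.br (nat_lit 4) (.ch (nat_lit 3) (.ev (nat_lit 1104) (nat_lit 66560) (.ev (nat_lit 1124)
 (nat_lit 256) (.nd (nat_lit 2128) (.br (nat_lit 4) (.br (nat_lit 2) (.br (nat_lit 1) (.ch (nat_lit 0) (.ev
 (nat_lit 2144) (nat_lit 64) (.ev (nat_lit 2164) (nat_lit 2) (.ev (nat_lit 2173) (nat_lit 4) .dd)))) (.ch
 (nat_lit 1) (.ev (nat_lit 2372) (nat_lit 4) (.ev (nat_lit 2788) (nat_lit 64) (.ev (nat_lit 2797) (nat_lit 2)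
 .dd))))) (.br (nat_lit 3) (.ch (nat_lit 2) (.ev (nat_lit 2144) (nat_lit 6) (.ev (nat_lit 2157) (nat_lit 64)
 .dd))) (.ch (nat_lit 3) (.ev (nat_lit 2144) (nat_lit 6) (.ev (nat_lit 2157) (nat_lit 64) .dd))))) (.br
 (nat_lit 8) (.br (nat_lit 5) (.ch (nat_lit 4) (.ev (nat_lit 2144) (nat_lit 2) (.ev (nat_lit 2388) (nat_lit 64)
 (.ev (nat_lit 2397) (nat_lit 4) .dd)))) (.ch (nat_lit 5) (.ev (nat_lit 2144) (nat_lit 68) (.ev (nat_lit 2157)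
 (nat_lit 2) .dd)))) (.br (nat_lit 11) (.ch (nat_lit 8) (.ev (nat_lit 2144) (nat_lit 68) (.ev (nat_lit 2157)
 (nat_lit 2) .dd))) (.br (nat_lit 12) (.ch (nat_lit 11) (.ev (nat_lit 2144) (nat_lit 64) (.ev (nat_lit 2372)
 (nat_lit 4) (.ev (nat_lit 2381) (nat_lit 2) .dd)))) (.ch (nat_lit 12) (.ev (nat_lit 2388) (nat_lit 4) (.ev
 (nat_lit 5492) (nat_lit 2) (.ev (nat_lit 5501) (nat_lit 64) .dd)))))))))))) (.ch (nat_lit 4) (.ev (nat_lit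
 1104) (nat_lit 320) (.nd (nat_lit 1840) (.br (nat_lit 5) (.br (nat_lit 2) (.br (nat_lit 1) (.ch (nat_lit 0)
 (.ev (nat_lit 2164) (nat_lit 65536) (.ev (nat_lit 2388) (nat_lit 1024) (.ev (nat_lit 6596) (nat_lit 2) (.ev
 (nat_lit 6605) (nat_lit 4) .dd))))) (.ch (nat_lit 1) (.ev (nat_lit 1856) (nat_lit 1030) (.ev (nat_lit 1869)
 (nat_lit 65536) .dd)))) (.br (nat_lit 3) (.ch (nat_lit 2) (.ev (nat_lit 1856) (nat_lit 1024) (.ev (nat_lit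
 2036) (nat_lit 2) (.ev (nat_lit 5876) (nat_lit 65536) (.ev (nat_lit 5885) (nat_lit 4) .dd))))) (.ch (nat_lit
 3) (.ev (nat_lit 1856) (nat_lit 66560) (.ev (nat_lit 5572) (nat_lit 2) (.ev (nat_lit 5581) (nat_lit 4)
 .dd)))))) (.br (nat_lit 8) (.br (nat_lit 6) (.ch (nat_lit 5) (.ev (nat_lit 1856) (nat_lit 66560) (.ev (nat_lit
 2036) (nat_lit 2) (.ev (nat_lit 2045) (nat_lit 4) .dd)))) (.ch (nat_lit 6) (.ev (nat_lit 1856) (nat_lit 65542)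
 (.ev (nat_lit 1869) (nat_lit 1024) .dd)))) (.br (nat_lit 9) (.ch (nat_lit 8) (.ev (nat_lit 1856) (nat_lit
 1026) (.ev (nat_lit 2180) (nat_lit 65536) (.ev (nat_lit 2189) (nat_lit 4) .dd)))) (.ch (nat_lit 9) (.ev
 (nat_lit 2180) (nat_lit 65536) (.ev (nat_lit 3892) (nat_lit 1024) (.ev (nat_lit 5044) (nat_lit 4) (.ev
 (nat_lit 5053) (nat_lit 2) .dd))))))))))))) (.br (nat_lit 8) (.br (nat_lit 7) (.ch (nat_lit 5) (.ev (nat_lit
 1104) (nat_lit 65536) (.ev (nat_lit 1204) (nat_lit 64) (.nd (nat_lit 2336) (.br (nat_lit 7) (.br (nat_lit 4)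
 (.ch (nat_lit 1) (.ev (nat_lit 2352) (nat_lit 256) (.ev (nat_lit 2372) (nat_lit 1026) (.ev (nat_lit 2381)
 (nat_lit 4) .dd)))) (.br (nat_lit 6) (.ch (nat_lit 4) (.ev (nat_lit 2352) (nat_lit 2) (.ev (nat_lit 2372)
 (nat_lit 260) (.ev (nat_lit 2381) (nat_lit 1024) .dd)))) (.ch (nat_lit 6) (.ev (nat_lit 2352) (nat_lit 1024)
 (.ev (nat_lit 2372) (nat_lit 256) (.ev (nat_lit 2868) (nat_lit 2) (.ev (nat_lit 2877) (nat_lit 4) .dd)))))))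
 (.br (nat_lit 10) (.br (nat_lit 8) (.ch (nat_lit 7) (.ev (nat_lit 2352) (nat_lit 260) (.ev (nat_lit 2372)
 (nat_lit 1024) (.ev (nat_lit 2381) (nat_lit 2) .dd)))) (.ch (nat_lit 8) (.ev (nat_lit 2352) (nat_lit 1028)
 (.ev (nat_lit 2900) (nat_lit 2) (.ev (nat_lit 2909) (nat_lit 256) .dd))))) (.br (nat_lit 11) (.ch (nat_lit 10)
 (.ev (nat_lit 2352) (nat_lit 2) (.ev (nat_lit 2372) (nat_lit 256) (.ev (nat_lit 6192) (nat_lit 1028) .dd))))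
 (.ch (nat_lit 11) (.ev (nat_lit 2352) (nat_lit 1024) (.ev (nat_lit 6160) (nat_lit 4) (.ev (nat_lit 6596)
 (nat_lit 2) (.ev (nat_lit 6605) (nat_lit 256) .dd)))))))))))) (.ch (nat_lit 7) (.ev (nat_lit 1104) (nat_lit
 1030) (.nd (nat_lit 2128) (.br (nat_lit 7) (.br (nat_lit 1) (.ch (nat_lit 0) (.ev (nat_lit 2144) (nat_lit
 65536) (.fin (nat_lit 576486590842880550)))) (.br (nat_lit 5) (.ch (nat_lit 1) (.ev (nat_lit 2144) (nat_lit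
 256) (.ev (nat_lit 3088) (nat_lit 65536) (.ev (nat_lit 3101) (nat_lit 64) .dd)))) (.ch (nat_lit 5) (.ev
 (nat_lit 2164) (nat_lit 256) (.ev (nat_lit 2740) (nat_lit 65536) (.ev (nat_lit 2749) (nat_lit 64) .dd))))))
 (.br (nat_lit 10) (.br (nat_lit 9) (.ch (nat_lit 7) (.ev (nat_lit 2144) (nat_lit 64) (.ev (nat_lit 2752)
 (nat_lit 65792) .dd))) (.ch (nat_lit 9) (.ev (nat_lit 2144) (nat_lit 65536) (.ev (nat_lit 2212) (nat_lit 256)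
 (.ev (nat_lit 2221) (nat_lit 64) .dd))))) (.br (nat_lit 12) (.ch (nat_lit 10) (.ev (nat_lit 2144) (nat_lit
 320) (.ev (nat_lit 2157) (nat_lit 65536) .dd))) (.ch (nat_lit 12) (.ev (nat_lit 2144) (nat_lit 65792) (.ev
 (nat_lit 2157) (nat_lit 64) .dd)))))))))) (.br (nat_lit 11) (.ch (nat_lit 8) (.ev (nat_lit 1104) (nat_lit
 65538) (.nd (nat_lit 1968) (.br (nat_lit 8) (.br (nat_lit 4) (.br (nat_lit 2) (.ch (nat_lit 1) (.ev (nat_lit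
 1984) (nat_lit 320) (.ev (nat_lit 2164) (nat_lit 4) (.ev (nat_lit 2173) (nat_lit 1024) .dd)))) (.ch (nat_lit
 2) (.ev (nat_lit 2740) (nat_lit 1024) (.ev (nat_lit 5716) (nat_lit 256) (.ev (nat_lit 6692) (nat_lit 64) (.ev
 (nat_lit 6701) (nat_lit 4) .dd)))))) (.br (nat_lit 5) (.ch (nat_lit 4) (.ev (nat_lit 1984) (nat_lit 4) (.ev
 (nat_lit 2180) (nat_lit 64) (.ev (nat_lit 2868) (nat_lit 256) (.ev (nat_lit 2877) (nat_lit 1024) .dd))))) (.ch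
 (nat_lit 5) (.ev (nat_lit 1984) (nat_lit 1280) (.ev (nat_lit 2164) (nat_lit 64) (.ev (nat_lit 2173) (nat_lit
 4) .dd)))))) (.br (nat_lit 10) (.br (nat_lit 9) (.ch (nat_lit 8) (.ev (nat_lit 1984) (nat_lit 4) (.ev (nat_lit
 6356) (nat_lit 256) (.ev (nat_lit 6500) (nat_lit 64) (.ev (nat_lit 6509) (nat_lit 1024) .dd))))) (.ch (nat_lit
 9) (.ev (nat_lit 1984) (nat_lit 1088) (.ev (nat_lit 2004) (nat_lit 256) (.ev (nat_lit 2013) (nat_lit 4)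
 .dd))))) (.br (nat_lit 12) (.ch (nat_lit 10) (.ev (nat_lit 1984) (nat_lit 320) (.ev (nat_lit 3540) (nat_lit
 1024) (.ev (nat_lit 3549) (nat_lit 4) .dd)))) (.ch (nat_lit 12) (.ev (nat_lit 1984) (nat_lit 256) (.ev
 (nat_lit 2164) (nat_lit 4) (.ev (nat_lit 7108) (nat_lit 1024) (.ev (nat_lit 7117) (nat_lit 64) .dd)))))))))))
 (.br (nat_lit 12) (.ch (nat_lit 11) (.ev (nat_lit 1104) (nat_lit 1344) (.nd (nat_lit 2128) (.br (nat_lit 6)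
 (.br (nat_lit 3) (.br (nat_lit 2) (.ch (nat_lit 1) (.ev (nat_lit 2388) (nat_lit 65536) (.ev (nat_lit 2548)
 (nat_lit 4) (.ev (nat_lit 2557) (nat_lit 2) .dd)))) (.ch (nat_lit 2) (.ev (nat_lit 2740) (nat_lit 2) (.ev
 (nat_lit 3140) (nat_lit 65536) (.ev (nat_lit 3149) (nat_lit 4) .dd))))) (.br (nat_lit 4) (.ch (nat_lit 3) (.ev
 (nat_lit 2144) (nat_lit 65538) (.ev (nat_lit 2157) (nat_lit 4) .dd))) (.ch (nat_lit 4) (.ev (nat_lit 2388)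
 (nat_lit 4) (.ev (nat_lit 5728) (nat_lit 65536) (.ev (nat_lit 5741) (nat_lit 2) .dd)))))) (.br (nat_lit 8)
 (.br (nat_lit 7) (.ch (nat_lit 6) (.ev (nat_lit 2144) (nat_lit 2) (.ev (nat_lit 2372) (nat_lit 65536) (.ev
 (nat_lit 2381) (nat_lit 4) .dd)))) (.ch (nat_lit 7) (.ev (nat_lit 2144) (nat_lit 65536) (.ev (nat_lit 2164)
 (nat_lit 2) (.ev (nat_lit 2173) (nat_lit 4) .dd))))) (.br (nat_lit 12) (.ch (nat_lit 8) (.ev (nat_lit 2144)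
 (nat_lit 4) (.ev (nat_lit 2740) (nat_lit 2) (.ev (nat_lit 2749) (nat_lit 65536) .dd)))) (.ch (nat_lit 12) (.ev
 (nat_lit 2144) (nat_lit 4) (.ev (nat_lit 2388) (nat_lit 65536) (.ev (nat_lit 2397) (nat_lit 2) .dd))))))))))
 (.ch (nat_lit 12) (.ev (nat_lit 1104) (nat_lit 65796) (.nd (nat_lit 2336) (.br (nat_lit 6) (.br (nat_lit 3)
 (.ch (nat_lit 0) (.ev (nat_lit 2352) (nat_lit 1026) (.ev (nat_lit 2365) (nat_lit 64) .dd))) (.br (nat_lit 5)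
 (.ch (nat_lit 3) (.ev (nat_lit 2352) (nat_lit 1024) (.fin (nat_lit 576867021369066329)))) (.ch (nat_lit 5)
 (.ev (nat_lit 2352) (nat_lit 64) (.ev (nat_lit 2496) (nat_lit 1026) .dd))))) (.br (nat_lit 7) (.ch (nat_lit 6)
 (.ev (nat_lit 3652) (nat_lit 1024) (.ev (nat_lit 5764) (nat_lit 2) (.ev (nat_lit 5773) (nat_lit 64) .dd))))
 (.br (nat_lit 11) (.ch (nat_lit 7) (.ev (nat_lit 2372) (nat_lit 2) (.ev (nat_lit 2788) (nat_lit 64) (.ev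
 (nat_lit 2797) (nat_lit 1024) .dd)))) (.ch (nat_lit 11) (.ev (nat_lit 2352) (nat_lit 66) (.ev (nat_lit 2365)
 (nat_lit 1024) .dd)))))))))))))))) (.ch (nat_lit 5) (.ev (nat_lit 544) (nat_lit 4164) (.nd (nat_lit 1168) (.br
 (nat_lit 6) (.br (nat_lit 2) (.br (nat_lit 1) (.ch (nat_lit 0) (.ev (nat_lit 1184) (nat_lit 65794) (.ev
 (nat_lit 1197) (nat_lit 1024) .dd))) (.ch (nat_lit 1) (.nd (nat_lit 2128) (.br (nat_lit 6) (.br (nat_lit 3)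
 (.ch (nat_lit 0) (.ev (nat_lit 2144) (nat_lit 2) (.ev (nat_lit 4996) (nat_lit 1024) (.ev (nat_lit 6740)
 (nat_lit 65536) (.ev (nat_lit 6749) (nat_lit 256) .dd))))) (.br (nat_lit 4) (.ch (nat_lit 3) (.ev (nat_lit
 2144) (nat_lit 65792) (.ev (nat_lit 2388) (nat_lit 2) (.ev (nat_lit 2397) (nat_lit 1024) .dd)))) (.ch (nat_lit
 4) (.ev (nat_lit 2164) (nat_lit 2) (.ev (nat_lit 3892) (nat_lit 256) (.fin (nat_lit 576522874660536844)))))))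
 (.br (nat_lit 8) (.ch (nat_lit 6) (.ev (nat_lit 2144) (nat_lit 256) (.ev (nat_lit 2388) (nat_lit 2) (.ev
 (nat_lit 5140) (nat_lit 1024) (.ev (nat_lit 5149) (nat_lit 65536) .dd))))) (.br (nat_lit 9) (.ch (nat_lit 8)
 (.ev (nat_lit 2144) (nat_lit 65792) (.ev (nat_lit 2164) (nat_lit 2) (.ev (nat_lit 2173) (nat_lit 1024) .dd))))
 (.ch (nat_lit 9) (.ev (nat_lit 3540) (nat_lit 256) (.ev (nat_lit 3700) (nat_lit 2) (.ev (nat_lit 6356)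
 (nat_lit 1024) (.ev (nat_lit 6365) (nat_lit 65536) .dd))))))))))) (.br (nat_lit 3) (.ch (nat_lit 2) (.nd
 (nat_lit 2336) (.br (nat_lit 6) (.br (nat_lit 4) (.ch (nat_lit 2) (.ev (nat_lit 5876) (nat_lit 1024) (.ev
 (nat_lit 6148) (nat_lit 256) (.ev (nat_lit 6500) (nat_lit 65536) (.ev (nat_lit 6509) (nat_lit 2) .dd))))) (.br
 (nat_lit 5) (.ch (nat_lit 4) (.ev (nat_lit 2352) (nat_lit 66560) (.ev (nat_lit 2372) (nat_lit 2) (.ev (nat_lit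
 2381) (nat_lit 256) .dd)))) (.ch (nat_lit 5) (.ev (nat_lit 2352) (nat_lit 66560) (.ev (nat_lit 2388) (nat_lit
 2) (.ev (nat_lit 2397) (nat_lit 256) .dd)))))) (.br (nat_lit 8) (.br (nat_lit 7) (.ch (nat_lit 6) (.ev
 (nat_lit 2352) (nat_lit 256) (.ev (nat_lit 2372) (nat_lit 2) (.ev (nat_lit 6560) (nat_lit 66560) .dd)))) (.ch
 (nat_lit 7) (.ev (nat_lit 2352) (nat_lit 256) (.ev (nat_lit 2388) (nat_lit 2) (.nd (nat_lit 7264) (.br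
 (nat_lit 4) (.ch (nat_lit 2) (.ev (nat_lit 7280) (nat_lit 66560) .dd)) (.br (nat_lit 9) (.ch (nat_lit 4) (.nd
 (nat_lit 8864) (.br (nat_lit 4) (.ch (nat_lit 3) (.fin (nat_lit 576346952867201512))) (.ch (nat_lit 4) (.ev
 (nat_lit 8880) (nat_lit 1024) (.ev (nat_lit 8893) (nat_lit 65536) .dd)))))) (.ch (nat_lit 9) (.ev (nat_lit
 7280) (nat_lit 65536) (.ev (nat_lit 7293) (nat_lit 1024) .dd)))))))))) (.br (nat_lit 12) (.ch (nat_lit 8) (.ev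
 (nat_lit 2352) (nat_lit 2) (.ev (nat_lit 5492) (nat_lit 1024) (.ev (nat_lit 5572) (nat_lit 256) (.ev (nat_lit
 5581) (nat_lit 65536) .dd))))) (.ch (nat_lit 12) (.ev (nat_lit 2352) (nat_lit 2) (.ev (nat_lit 4692) (nat_lit
 1024) (.fin (nat_lit 576493187897967085)))))))))) (.ch (nat_lit 3) (.ev (nat_lit 1184) (nat_lit 256) (.ev
 (nat_lit 1204) (nat_lit 2) (.nd (nat_lit 3408) (.br (nat_lit 5) (.br (nat_lit 1) (.ch (nat_lit 0) (.ev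
 (nat_lit 6624) (nat_lit 66560) .dd)) (.br (nat_lit 3) (.ch (nat_lit 1) (.ev (nat_lit 3424) (nat_lit 1024) (.ev
 (nat_lit 3437) (nat_lit 65536) .dd))) (.ch (nat_lit 3) (.ev (nat_lit 3476) (nat_lit 1024) (.ev (nat_lit 3485)
 (nat_lit 65536) .dd))))) (.br (nat_lit 8) (.ch (nat_lit 5) (.ev (nat_lit 3424) (nat_lit 1024) (.ev (nat_lit
 3437) (nat_lit 65536) .dd))) (.br (nat_lit 10) (.ch (nat_lit 8) (.ev (nat_lit 3424) (nat_lit 66560) .dd)) (.ch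
 (nat_lit 10) (.ev (nat_lit 6260) (nat_lit 1024) (.ev (nat_lit 6269) (nat_lit 65536) .dd)))))))))))) (.br
 (nat_lit 9) (.br (nat_lit 7) (.ch (nat_lit 6) (.ev (nat_lit 1184) (nat_lit 1024) (.ev (nat_lit 1204) (nat_lit
 256) (.nd (nat_lit 3408) (.br (nat_lit 7) (.br (nat_lit 4) (.ch (nat_lit 1) (.ev (nat_lit 3424) (nat_lit 2)
 (.ev (nat_lit 3437) (nat_lit 65536) .dd))) (.br (nat_lit 5) (.ch (nat_lit 4) (.ev (nat_lit 3424) (nat_lit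
 65536) (.ev (nat_lit 3437) (nat_lit 2) .dd))) (.ch (nat_lit 5) (.ev (nat_lit 3424) (nat_lit 65536) (.ev
 (nat_lit 3437) (nat_lit 2) .dd))))) (.br (nat_lit 10) (.br (nat_lit 9) (.ch (nat_lit 7) (.ev (nat_lit 6260)
 (nat_lit 65536) (.ev (nat_lit 6269) (nat_lit 2) .dd))) (.ch (nat_lit 9) (.ev (nat_lit 3424) (nat_lit 65536)
 (.ev (nat_lit 3437) (nat_lit 2) .dd)))) (.br (nat_lit 12) (.ch (nat_lit 10) (.ev (nat_lit 3424) (nat_lit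
 65536) (.ev (nat_lit 3437) (nat_lit 2) .dd))) (.ch (nat_lit 12) (.ev (nat_lit 3424) (nat_lit 65536) (.ev
 (nat_lit 3437) (nat_lit 2) .dd)))))))))) (.ch (nat_lit 7) (.ev (nat_lit 1184) (nat_lit 258) (.nd (nat_lit
 2624) (.br (nat_lit 6) (.br (nat_lit 3) (.ch (nat_lit 0) (.ev (nat_lit 2640) (nat_lit 65536) (.ev (nat_lit
 2653) (nat_lit 1024) .dd))) (.br (nat_lit 5) (.ch (nat_lit 3) (.ev (nat_lit 6740) (nat_lit 65536) (.ev
 (nat_lit 6749) (nat_lit 1024) .dd))) (.ch (nat_lit 5) (.ev (nat_lit 5364) (nat_lit 1024) (.ev (nat_lit 5373)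
 (nat_lit 65536) .dd))))) (.br (nat_lit 7) (.ch (nat_lit 6) (.ev (nat_lit 2640) (nat_lit 65536) (.ev (nat_lit
 2653) (nat_lit 1024) .dd))) (.br (nat_lit 9) (.ch (nat_lit 7) (.ev (nat_lit 2676) (nat_lit 65536) (.ev
 (nat_lit 2685) (nat_lit 1024) .dd))) (.ch (nat_lit 9) (.ev (nat_lit 2640) (nat_lit 1024) (.ev (nat_lit 2653)
 (nat_lit 65536) .dd)))))))))) (.br (nat_lit 10) (.ch (nat_lit 9) (.ev (nat_lit 1184) (nat_lit 66560) (.ev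
 (nat_lit 1204) (nat_lit 2) (.ev (nat_lit 1213) (nat_lit 256) .dd)))) (.br (nat_lit 12) (.ch (nat_lit 10) (.ev
 (nat_lit 1184) (nat_lit 2) (.nd (nat_lit 2128) (.br (nat_lit 7) (.br (nat_lit 1) (.ch (nat_lit 0) (.nd
 (nat_lit 4864) (.br (nat_lit 6) (.br (nat_lit 4) (.ch (nat_lit 1) (.ev (nat_lit 4880) (nat_lit 1024) (.ev
 (nat_lit 5444) (nat_lit 65536) (.ev (nat_lit 5453) (nat_lit 256) .dd)))) (.ch (nat_lit 4) (.ev (nat_lit 4880)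
 (nat_lit 256) (.ev (nat_lit 5044) (nat_lit 65536) (.ev (nat_lit 5053) (nat_lit 1024) .dd))))) (.br (nat_lit 7)
 (.ch (nat_lit 6) (.ev (nat_lit 4880) (nat_lit 65536) (.ev (nat_lit 5140) (nat_lit 1024) (.ev (nat_lit 5149)
 (nat_lit 256) .dd)))) (.ch (nat_lit 7) (.ev (nat_lit 4880) (nat_lit 1024) (.ev (nat_lit 6148) (nat_lit 65536)
 (.ev (nat_lit 6157) (nat_lit 256) .dd)))))))) (.br (nat_lit 6) (.ch (nat_lit 1) (.ev (nat_lit 2144) (nat_lit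
 65536) (.ev (nat_lit 2868) (nat_lit 256) (.ev (nat_lit 2877) (nat_lit 1024) .dd)))) (.ch (nat_lit 6) (.ev
 (nat_lit 2144) (nat_lit 256) (.ev (nat_lit 6596) (nat_lit 1024) (.ev (nat_lit 6605) (nat_lit 65536) .dd))))))
 (.br (nat_lit 11) (.br (nat_lit 9) (.ch (nat_lit 7) (.ev (nat_lit 2144) (nat_lit 256) (.ev (nat_lit 2164)
 (nat_lit 1024) (.ev (nat_lit 2173) (nat_lit 65536) .dd)))) (.ch (nat_lit 9) (.ev (nat_lit 4996) (nat_lit 256)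
 (.ev (nat_lit 5044) (nat_lit 1024) (.ev (nat_lit 5053) (nat_lit 65536) .dd))))) (.br (nat_lit 12) (.ch
 (nat_lit 11) (.ev (nat_lit 2144) (nat_lit 1024) (.nd (nat_lit 4592) (.br (nat_lit 7) (.br (nat_lit 4) (.ch
 (nat_lit 0) (.ev (nat_lit 5604) (nat_lit 65536) (.ev (nat_lit 5613) (nat_lit 256) .dd))) (.ch (nat_lit 4) (.ev
 (nat_lit 4996) (nat_lit 65536) (.ev (nat_lit 5005) (nat_lit 256) .dd)))) (.br (nat_lit 12) (.ch (nat_lit 7)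
 (.ev (nat_lit 4608) (nat_lit 256) (.ev (nat_lit 4621) (nat_lit 65536) .dd))) (.ch (nat_lit 12) (.ev (nat_lit
 4644) (nat_lit 256) (.ev (nat_lit 4653) (nat_lit 65536) .dd)))))))) (.ch (nat_lit 12) (.ev (nat_lit 2144)
 (nat_lit 1024) (.ev (nat_lit 6356) (nat_lit 65536) (.ev (nat_lit 6365) (nat_lit 256) .dd)))))))))) (.ch
 (nat_lit 12) (.ev (nat_lit 1184) (nat_lit 66562) (.ev (nat_lit 1197) (nat_lit 256) .dd)))))))))))) (.br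
 (nat_lit 9) (.br (nat_lit 7) (.ch (nat_lit 6) (.nd (nat_lit 1008) (.br (nat_lit 6) (.br (nat_lit 4) (.br
 (nat_lit 2) (.ch (nat_lit 0) (.ev (nat_lit 1024) (nat_lit 65542) (.nd (nat_lit 1648) (.br (nat_lit 6) (.br
 (nat_lit 4) (.ch (nat_lit 2) (.nd (nat_lit 7232) (.br (nat_lit 6) (.ch (nat_lit 4) (.ev (nat_lit 7248)
 (nat_lit 1088) (.fin (nat_lit 576456904003764783)))) (.ch (nat_lit 6) (.ev (nat_lit 7248) (nat_lit 256) (.ev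
 (nat_lit 7444) (nat_lit 4096) (.nd (nat_lit 8768) (.br (nat_lit 11) (.ch (nat_lit 8) (.fin (nat_lit
 573098983989655127))) (.ch (nat_lit 11) (.nd (nat_lit 9600) (.ch (nat_lit 8) (.nd (nat_lit 9824) (.br (nat_lit
 2) (.ch (nat_lit 0) (.ev (nat_lit 9840) (nat_lit 64) (.ev (nat_lit 9853) (nat_lit 1024) .dd))) (.ch (nat_lit
 2) (.fin (nat_lit 576471197704208955)))))))))))))))) (.br (nat_lit 5) (.ch (nat_lit 4) (.ev (nat_lit 1684)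
 (nat_lit 1024) (.ev (nat_lit 6868) (nat_lit 4096) (.fin (nat_lit 577222174257392337))))) (.ch (nat_lit 5) (.ev
 (nat_lit 1664) (nat_lit 4160) (.ev (nat_lit 5492) (nat_lit 256) (.ev (nat_lit 5501) (nat_lit 1024) .dd))))))
 (.br (nat_lit 7) (.ch (nat_lit 6) (.ev (nat_lit 1664) (nat_lit 256) (.ev (nat_lit 3700) (nat_lit 1024) (.ev
 (nat_lit 5364) (nat_lit 4096) (.ev (nat_lit 5373) (nat_lit 64) .dd))))) (.br (nat_lit 11) (.ch (nat_lit 7)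
 (.ev (nat_lit 1664) (nat_lit 4096) (.ev (nat_lit 3120) (nat_lit 1024) (.ev (nat_lit 5188) (nat_lit 256) (.ev
 (nat_lit 5197) (nat_lit 64) .dd))))) (.ch (nat_lit 11) (.ev (nat_lit 1664) (nat_lit 4160) (.ev (nat_lit 6260)
 (nat_lit 256) (.ev (nat_lit 6269) (nat_lit 1024) .dd)))))))))) (.ch (nat_lit 2) (.ev (nat_lit 1024) (nat_lit
 4166) (.nd (nat_lit 1744) (.br (nat_lit 7) (.br (nat_lit 2) (.ch (nat_lit 0) (.ev (nat_lit 1760) (nat_lit 256)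
 (.fin (nat_lit 577903860690405400)))) (.br (nat_lit 5) (.ch (nat_lit 2) (.ev (nat_lit 1760) (nat_lit 256) (.ev
 (nat_lit 5888) (nat_lit 66560) .dd))) (.ch (nat_lit 5) (.ev (nat_lit 1760) (nat_lit 65536) (.ev (nat_lit 2068)
 (nat_lit 256) (.ev (nat_lit 2077) (nat_lit 1024) .dd)))))) (.br (nat_lit 11) (.br (nat_lit 9) (.ch (nat_lit 7)
 (.ev (nat_lit 1760) (nat_lit 1024) (.ev (nat_lit 5236) (nat_lit 256) (.ev (nat_lit 5245) (nat_lit 65536)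
 .dd)))) (.ch (nat_lit 9) (.ev (nat_lit 1760) (nat_lit 65536) (.ev (nat_lit 6356) (nat_lit 1024) (.ev (nat_lit
 6365) (nat_lit 256) .dd))))) (.br (nat_lit 12) (.ch (nat_lit 11) (.ev (nat_lit 1760) (nat_lit 1024) (.ev
 (nat_lit 6788) (nat_lit 65536) (.ev (nat_lit 6797) (nat_lit 256) .dd)))) (.ch (nat_lit 12) (.ev (nat_lit 1760)
 (nat_lit 256) (.ev (nat_lit 3012) (nat_lit 65536) (.ev (nat_lit 3021) (nat_lit 1024) .dd))))))))))) (.br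
 (nat_lit 5) (.ch (nat_lit 4) (.ev (nat_lit 1024) (nat_lit 65540) (.ev (nat_lit 1380) (nat_lit 2) (.nd (nat_lit
 1552) (.br (nat_lit 7) (.br (nat_lit 4) (.br (nat_lit 1) (.ch (nat_lit 0) (.ev (nat_lit 1568) (nat_lit 1088)
 (.ev (nat_lit 1796) (nat_lit 4096) (.ev (nat_lit 1805) (nat_lit 256) .dd)))) (.ch (nat_lit 1) (.ev (nat_lit
 1568) (nat_lit 4096) (.ev (nat_lit 5188) (nat_lit 256) (.ev (nat_lit 5764) (nat_lit 1024) (.ev (nat_lit 5773)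
 (nat_lit 64) .dd)))))) (.br (nat_lit 5) (.ch (nat_lit 4) (.ev (nat_lit 1568) (nat_lit 4416) (.ev (nat_lit
 1581) (nat_lit 1024) .dd))) (.ch (nat_lit 5) (.ev (nat_lit 1568) (nat_lit 4096) (.ev (nat_lit 1636) (nat_lit
 1024) (.ev (nat_lit 1940) (nat_lit 256) (.ev (nat_lit 1949) (nat_lit 64) .dd))))))) (.br (nat_lit 9) (.br
 (nat_lit 8) (.ch (nat_lit 7) (.ev (nat_lit 1568) (nat_lit 256) (.ev (nat_lit 2100) (nat_lit 4096) (.ev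
 (nat_lit 2276) (nat_lit 1024) (.ev (nat_lit 2285) (nat_lit 64) .dd))))) (.ch (nat_lit 8) (.ev (nat_lit 1568)
 (nat_lit 256) (.ev (nat_lit 1588) (nat_lit 1024) (.ev (nat_lit 1796) (nat_lit 4096) (.ev (nat_lit 1805)
 (nat_lit 64) .dd)))))) (.br (nat_lit 10) (.ch (nat_lit 9) (.ev (nat_lit 1568) (nat_lit 5120) (.ev (nat_lit
 5364) (nat_lit 256) (.ev (nat_lit 5373) (nat_lit 64) .dd)))) (.br (nat_lit 12) (.ch (nat_lit 10) (.ev (nat_lit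
 1568) (nat_lit 256) (.ev (nat_lit 6596) (nat_lit 4096) (.fin (nat_lit 576417321691071020))))) (.ch (nat_lit
 12) (.ev (nat_lit 1568) (nat_lit 1344) (.ev (nat_lit 1581) (nat_lit 4096) .dd))))))))))) (.ch (nat_lit 5) (.ev
 (nat_lit 1024) (nat_lit 69952) (.ev (nat_lit 1364) (nat_lit 2) (.nd (nat_lit 3408) (.br (nat_lit 7) (.br
 (nat_lit 2) (.ch (nat_lit 0) (.fin (nat_lit 576478894266729041))) (.ch (nat_lit 2) (.ev (nat_lit 3892)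
 (nat_lit 1024) (.ev (nat_lit 3901) (nat_lit 4) .dd)))) (.br (nat_lit 10) (.ch (nat_lit 7) (.ev (nat_lit 3424)
 (nat_lit 4) (.ev (nat_lit 3437) (nat_lit 1024) .dd))) (.ch (nat_lit 10) (.ev (nat_lit 5188) (nat_lit 4) (.ev
 (nat_lit 5197) (nat_lit 1024) .dd))))))))))) (.br (nat_lit 9) (.br (nat_lit 7) (.ch (nat_lit 6) (.ev (nat_lit
 1024) (nat_lit 5442) (.nd (nat_lit 1968) (.br (nat_lit 5) (.ch (nat_lit 4) (.ev (nat_lit 2912) (nat_lit 65540)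
 .dd)) (.br (nat_lit 11) (.ch (nat_lit 5) (.ev (nat_lit 5668) (nat_lit 65536) (.ev (nat_lit 5677) (nat_lit 4)
 .dd))) (.ch (nat_lit 11) (.ev (nat_lit 6976) (nat_lit 65540) .dd))))))) (.ch (nat_lit 7) (.ev (nat_lit 1024)
 (nat_lit 1280) (.nd (nat_lit 1648) (.br (nat_lit 6) (.br (nat_lit 3) (.ch (nat_lit 0) (.ev (nat_lit 1664)
 (nat_lit 65536) (.ev (nat_lit 2484) (nat_lit 4) (.ev (nat_lit 2868) (nat_lit 4096) (.ev (nat_lit 2948)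
 (nat_lit 64) (.ev (nat_lit 2957) (nat_lit 2) .dd)))))) (.br (nat_lit 5) (.ch (nat_lit 3) (.ev (nat_lit 1664)
 (nat_lit 2) (.ev (nat_lit 6928) (nat_lit 64) (.nd (nat_lit 7456) (.ch (nat_lit 1) (.nd (nat_lit 8784) (.br
 (nat_lit 7) (.ch (nat_lit 0) (.ev (nat_lit 8800) (nat_lit 4) (.fin (nat_lit 565409013862708151)))) (.ch
 (nat_lit 7) (.ev (nat_lit 8800) (nat_lit 4096) (.fin (nat_lit 576499784970879574))))))))))) (.ch (nat_lit 5)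
 (.ev (nat_lit 1664) (nat_lit 65600) (.ev (nat_lit 1780) (nat_lit 2) (.ev (nat_lit 6452) (nat_lit 4096) (.ev
 (nat_lit 6461) (nat_lit 4) .dd))))))) (.br (nat_lit 8) (.ch (nat_lit 6) (.ev (nat_lit 1664) (nat_lit 2) (.ev
 (nat_lit 1892) (nat_lit 4096) (.nd (nat_lit 4864) (.br (nat_lit 8) (.ch (nat_lit 5) (.ev (nat_lit 4880)
 (nat_lit 65536) (.ev (nat_lit 5632) (nat_lit 68) .dd))) (.ch (nat_lit 8) (.ev (nat_lit 4880) (nat_lit 4) (.ev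
 (nat_lit 5236) (nat_lit 65536) (.ev (nat_lit 5245) (nat_lit 64) .dd))))))))) (.br (nat_lit 12) (.ch (nat_lit
 8) (.ev (nat_lit 1664) (nat_lit 4160) (.ev (nat_lit 1780) (nat_lit 2) (.ev (nat_lit 5364) (nat_lit 4) (.ev
 (nat_lit 5373) (nat_lit 65536) .dd))))) (.ch (nat_lit 12) (.ev (nat_lit 1664) (nat_lit 4160) (.ev (nat_lit
 4116) (nat_lit 2) (.fin (nat_lit 566523912655412757)))))))))))) (.br (nat_lit 11) (.ch (nat_lit 9) (.ev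
 (nat_lit 1024) (nat_lit 4352) (.nd (nat_lit 1552) (.br (nat_lit 8) (.br (nat_lit 3) (.ch (nat_lit 1) (.ev
 (nat_lit 1568) (nat_lit 1024) (.ev (nat_lit 1684) (nat_lit 2) (.nd (nat_lit 4592) (.br (nat_lit 7) (.br
 (nat_lit 2) (.ch (nat_lit 1) (.ev (nat_lit 4608) (nat_lit 64) (.ev (nat_lit 5572) (nat_lit 65536) (.ev
 (nat_lit 5581) (nat_lit 4) .dd)))) (.br (nat_lit 4) (.ch (nat_lit 2) (.ev (nat_lit 4608) (nat_lit 64) (.ev
 (nat_lit 6464) (nat_lit 65540) .dd))) (.ch (nat_lit 4) (.ev (nat_lit 4608) (nat_lit 64) (.ev (nat_lit 5844)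
 (nat_lit 4) (.ev (nat_lit 5853) (nat_lit 65536) .dd)))))) (.br (nat_lit 10) (.br (nat_lit 8) (.ch (nat_lit 7)
 (.ev (nat_lit 4608) (nat_lit 65540) (.ev (nat_lit 4621) (nat_lit 64) .dd))) (.ch (nat_lit 8) (.ev (nat_lit
 4608) (nat_lit 64) (.ev (nat_lit 5716) (nat_lit 4) (.ev (nat_lit 5725) (nat_lit 65536) .dd))))) (.br (nat_lit
 12) (.ch (nat_lit 10) (.ev (nat_lit 4608) (nat_lit 4) (.ev (nat_lit 5140) (nat_lit 65536) (.ev (nat_lit 5149)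
 (nat_lit 64) .dd)))) (.ch (nat_lit 12) (.ev (nat_lit 5300) (nat_lit 64) (.ev (nat_lit 5856) (nat_lit 4) (.ev
 (nat_lit 5869) (nat_lit 65536) .dd))))))))))) (.br (nat_lit 5) (.ch (nat_lit 3) (.ev (nat_lit 1568) (nat_lit
 65600) (.ev (nat_lit 1684) (nat_lit 2) (.ev (nat_lit 3076) (nat_lit 4) (.ev (nat_lit 3085) (nat_lit 1024)
 .dd))))) (.ch (nat_lit 5) (.ev (nat_lit 1568) (nat_lit 1028) (.ev (nat_lit 1684) (nat_lit 2) (.ev (nat_lit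
 2948) (nat_lit 65536) (.ev (nat_lit 2957) (nat_lit 64) .dd))))))) (.br (nat_lit 11) (.br (nat_lit 10) (.ch
 (nat_lit 8) (.ev (nat_lit 1568) (nat_lit 64) (.ev (nat_lit 4084) (nat_lit 2) (.ev (nat_lit 5492) (nat_lit 4)
 (.ev (nat_lit 6032) (nat_lit 1024) (.ev (nat_lit 6045) (nat_lit 65536) .dd)))))) (.ch (nat_lit 10) (.ev
 (nat_lit 1568) (nat_lit 6) (.ev (nat_lit 3012) (nat_lit 65536) (.ev (nat_lit 5924) (nat_lit 64) (.ev (nat_lit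
 5933) (nat_lit 1024) .dd)))))) (.br (nat_lit 12) (.ch (nat_lit 11) (.ev (nat_lit 1568) (nat_lit 2) (.ev
 (nat_lit 3348) (nat_lit 1024) (.nd (nat_lit 4416) (.br (nat_lit 5) (.br (nat_lit 4) (.ch (nat_lit 2) (.ev
 (nat_lit 4432) (nat_lit 64) (.fin (nat_lit 576666910857839190)))) (.ch (nat_lit 4) (.ev (nat_lit 4432)
 (nat_lit 65536) (.fin (nat_lit 576962677564720020))))) (.br (nat_lit 9) (.ch (nat_lit 5) (.ev (nat_lit 4432)
 (nat_lit 64) (.ev (nat_lit 5764) (nat_lit 65536) (.ev (nat_lit 5773) (nat_lit 4) .dd)))) (.ch (nat_lit 9) (.ev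
 (nat_lit 4432) (nat_lit 68) (.ev (nat_lit 4445) (nat_lit 65536) .dd))))))))) (.ch (nat_lit 12) (.ev (nat_lit
 1568) (nat_lit 65536) (.ev (nat_lit 1684) (nat_lit 2) (.ev (nat_lit 6644) (nat_lit 1024) (.ev (nat_lit 6752)
 (nat_lit 64) (.ev (nat_lit 6765) (nat_lit 4) .dd)))))))))))) (.br (nat_lit 12) (.ch (nat_lit 11) (.ev (nat_lit
 1024) (nat_lit 1280) (.ev (nat_lit 1124) (nat_lit 2) (.nd (nat_lit 1840) (.br (nat_lit 8) (.br (nat_lit 2)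
 (.ch (nat_lit 0) (.ev (nat_lit 1856) (nat_lit 4096) (.ev (nat_lit 6464) (nat_lit 4) (.fin (nat_lit
 576456904011104832))))) (.br (nat_lit 4) (.ch (nat_lit 2) (.ev (nat_lit 1856) (nat_lit 69632) (.ev (nat_lit
 2048) (nat_lit 68) .dd))) (.ch (nat_lit 4) (.ev (nat_lit 1856) (nat_lit 64) (.ev (nat_lit 2948) (nat_lit 4096)
 (.ev (nat_lit 7124) (nat_lit 65536) (.ev (nat_lit 7133) (nat_lit 4) .dd))))))) (.br (nat_lit 10) (.br (nat_lit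
 9) (.ch (nat_lit 8) (.ev (nat_lit 1876) (nat_lit 4) (.ev (nat_lit 2084) (nat_lit 65536) (.ev (nat_lit 3220)
 (nat_lit 64) (.ev (nat_lit 3229) (nat_lit 4096) .dd))))) (.ch (nat_lit 9) (.ev (nat_lit 1856) (nat_lit 4100)
 (.ev (nat_lit 2068) (nat_lit 65536) (.ev (nat_lit 2077) (nat_lit 64) .dd))))) (.br (nat_lit 11) (.ch (nat_lit
 10) (.ev (nat_lit 1856) (nat_lit 64) (.ev (nat_lit 2084) (nat_lit 4) (.ev (nat_lit 3188) (nat_lit 4096) (.ev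
 (nat_lit 3197) (nat_lit 65536) .dd))))) (.ch (nat_lit 11) (.ev (nat_lit 1856) (nat_lit 65536) (.ev (nat_lit
 5572) (nat_lit 4096) (.ev (nat_lit 7108) (nat_lit 4) (.ev (nat_lit 7117) (nat_lit 64) .dd)))))))))))) (.ch
 (nat_lit 12) (.ev (nat_lit 1024) (nat_lit 258) (.nd (nat_lit 1552) (.br (nat_lit 6) (.br (nat_lit 2) (.br
 (nat_lit 1) (.ch (nat_lit 0) (.ev (nat_lit 1568) (nat_lit 64) (.ev (nat_lit 1588) (nat_lit 4096) (.ev (nat_lit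
 1812) (nat_lit 65536) (.ev (nat_lit 6500) (nat_lit 1024) (.ev (nat_lit 6509) (nat_lit 4) .dd)))))) (.ch
 (nat_lit 1) (.ev (nat_lit 1568) (nat_lit 1088) (.ev (nat_lit 1588) (nat_lit 4096) (.ev (nat_lit 5844) (nat_lit
 65536) (.ev (nat_lit 5853) (nat_lit 4) .dd)))))) (.br (nat_lit 4) (.ch (nat_lit 2) (.ev (nat_lit 1568)
 (nat_lit 4100) (.ev (nat_lit 2292) (nat_lit 65536) (.ev (nat_lit 2912) (nat_lit 64) (.ev (nat_lit 2925)
 (nat_lit 1024) .dd))))) (.ch (nat_lit 4) (.ev (nat_lit 1568) (nat_lit 65536) (.nd (nat_lit 4864) (.br (nat_lit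
 10) (.br (nat_lit 2) (.ch (nat_lit 1) (.ev (nat_lit 4880) (nat_lit 1028) (.ev (nat_lit 5876) (nat_lit 64) (.ev
 (nat_lit 5885) (nat_lit 4096) .dd)))) (.br (nat_lit 9) (.ch (nat_lit 2) (.ev (nat_lit 6032) (nat_lit 4096)
 (.ev (nat_lit 6368) (nat_lit 64) (.fin (nat_lit 576492088386339341))))) (.ch (nat_lit 9) (.ev (nat_lit 4880)
 (nat_lit 5120) (.ev (nat_lit 5552) (nat_lit 68) .dd))))) (.br (nat_lit 11) (.ch (nat_lit 10) (.ev (nat_lit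
 4880) (nat_lit 4096) (.ev (nat_lit 4932) (nat_lit 1024) (.ev (nat_lit 5876) (nat_lit 64) (.ev (nat_lit 5885)
 (nat_lit 4) .dd))))) (.br (nat_lit 12) (.ch (nat_lit 11) (.ev (nat_lit 4880) (nat_lit 5120) (.ev (nat_lit
 5120) (nat_lit 68) .dd))) (.ch (nat_lit 12) (.ev (nat_lit 4880) (nat_lit 4) (.ev (nat_lit 4932) (nat_lit 1024)
 (.ev (nat_lit 5764) (nat_lit 64) (.ev (nat_lit 5773) (nat_lit 4096) .dd))))))))))))) (.br (nat_lit 9) (.br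
 (nat_lit 7) (.ch (nat_lit 6) (.ev (nat_lit 1568) (nat_lit 5120) (.ev (nat_lit 1956) (nat_lit 65536) (.ev
 (nat_lit 2948) (nat_lit 4) (.ev (nat_lit 2957) (nat_lit 64) .dd))))) (.ch (nat_lit 7) (.ev (nat_lit 1568)
 (nat_lit 65536) (.ev (nat_lit 1588) (nat_lit 4096) (.ev (nat_lit 4132) (nat_lit 1024) (.nd (nat_lit 4864) (.br
 (nat_lit 7) (.br (nat_lit 4) (.ch (nat_lit 0) (.ev (nat_lit 6148) (nat_lit 64) (.ev (nat_lit 6157) (nat_lit 4)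
 .dd))) (.ch (nat_lit 4) (.ev (nat_lit 4880) (nat_lit 64) (.ev (nat_lit 4893) (nat_lit 4) .dd)))) (.br (nat_lit
 9) (.ch (nat_lit 7) (.ev (nat_lit 4880) (nat_lit 4) (.ev (nat_lit 4893) (nat_lit 64) .dd))) (.br (nat_lit 10)
 (.ch (nat_lit 9) (.ev (nat_lit 6000) (nat_lit 68) .dd)) (.ch (nat_lit 10) (.ev (nat_lit 4996) (nat_lit 4) (.ev
 (nat_lit 5005) (nat_lit 64) .dd)))))))))))) (.br (nat_lit 11) (.ch (nat_lit 9) (.ev (nat_lit 1568) (nat_lit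
 5184) (.fin (nat_lit 576390933363769832)))) (.br (nat_lit 12) (.ch (nat_lit 11) (.ev (nat_lit 1568) (nat_lit
 68) (.ev (nat_lit 1588) (nat_lit 4096) (.ev (nat_lit 5444) (nat_lit 65536) (.ev (nat_lit 5453) (nat_lit 1024)
 .dd))))) (.ch (nat_lit 12) (.ev (nat_lit 1568) (nat_lit 65540) (.nd (nat_lit 4592) (.br (nat_lit 3) (.br
 (nat_lit 2) (.ch (nat_lit 1) (.ev (nat_lit 4644) (nat_lit 64) (.ev (nat_lit 4996) (nat_lit 4096) (.ev (nat_lit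
 5005) (nat_lit 1024) .dd)))) (.ch (nat_lit 2) (.ev (nat_lit 4608) (nat_lit 64) (.ev (nat_lit 4932) (nat_lit
 4096) (.ev (nat_lit 4941) (nat_lit 1024) .dd))))) (.br (nat_lit 11) (.ch (nat_lit 3) (.ev (nat_lit 4788)
 (nat_lit 1024) (.ev (nat_lit 5716) (nat_lit 4096) (.ev (nat_lit 5725) (nat_lit 64) .dd)))) (.ch (nat_lit 11)
 (.ev (nat_lit 4608) (nat_lit 4096) (.fin (nat_lit 576638323591168571)))))))))))))))))))))) (.ch (nat_lit 7)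
 (.ev (nat_lit 544) (nat_lit 1282) (.nd (nat_lit 1088) (.br (nat_lit 7) (.br (nat_lit 5) (.br (nat_lit 3) (.ch
 (nat_lit 1) (.ev (nat_lit 1104) (nat_lit 4096) (.nd (nat_lit 2336) (.br (nat_lit 6) (.br (nat_lit 5) (.ch
 (nat_lit 3) (.ev (nat_lit 2352) (nat_lit 65536) (.ev (nat_lit 2740) (nat_lit 64) (.ev (nat_lit 2749) (nat_lit
 4) .dd)))) (.ch (nat_lit 5) (.ev (nat_lit 2352) (nat_lit 4) (.ev (nat_lit 2740) (nat_lit 64) (.ev (nat_lit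
 2749) (nat_lit 65536) .dd))))) (.br (nat_lit 8) (.ch (nat_lit 6) (.ev (nat_lit 2352) (nat_lit 65536) (.ev
 (nat_lit 2868) (nat_lit 64) (.ev (nat_lit 2877) (nat_lit 4) .dd)))) (.br (nat_lit 11) (.ch (nat_lit 8) (.ev
 (nat_lit 2352) (nat_lit 65536) (.ev (nat_lit 2420) (nat_lit 64) (.ev (nat_lit 2429) (nat_lit 4) .dd)))) (.ch
 (nat_lit 11) (.ev (nat_lit 3552) (nat_lit 64) (.fin (nat_lit 577040744454767097)))))))))) (.ch (nat_lit 3)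
 (.ev (nat_lit 1104) (nat_lit 4164) (.ev (nat_lit 1117) (nat_lit 65536) .dd)))) (.br (nat_lit 6) (.ch (nat_lit
 5) (.ev (nat_lit 1104) (nat_lit 65604) (.ev (nat_lit 1117) (nat_lit 4096) .dd))) (.ch (nat_lit 6) (.ev
 (nat_lit 1104) (nat_lit 65536) (.ev (nat_lit 1204) (nat_lit 4096) (.nd (nat_lit 2128) (.br (nat_lit 5) (.br
 (nat_lit 2) (.ch (nat_lit 1) (.ev (nat_lit 2144) (nat_lit 68) .dd)) (.br (nat_lit 3) (.ch (nat_lit 2) (.ev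
 (nat_lit 5844) (nat_lit 4) (.ev (nat_lit 5853) (nat_lit 64) .dd))) (.ch (nat_lit 3) (.ev (nat_lit 2144)
 (nat_lit 4) (.ev (nat_lit 2157) (nat_lit 64) .dd))))) (.br (nat_lit 11) (.br (nat_lit 9) (.ch (nat_lit 5) (.ev
 (nat_lit 2164) (nat_lit 4) (.ev (nat_lit 2173) (nat_lit 64) .dd))) (.ch (nat_lit 9) (.ev (nat_lit 2164)
 (nat_lit 64) (.ev (nat_lit 2173) (nat_lit 4) .dd)))) (.br (nat_lit 12) (.ch (nat_lit 11) (.ev (nat_lit 2144)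
 (nat_lit 64) (.ev (nat_lit 2157) (nat_lit 4) .dd))) (.ch (nat_lit 12) (.ev (nat_lit 2164) (nat_lit 4) (.ev
 (nat_lit 2173) (nat_lit 64) .dd)))))))))))) (.br (nat_lit 9) (.br (nat_lit 8) (.ch (nat_lit 7) (.ev (nat_lit
 1104) (nat_lit 4100) (.ev (nat_lit 1300) (nat_lit 65536) (.ev (nat_lit 1309) (nat_lit 64) .dd)))) (.ch
 (nat_lit 8) (.ev (nat_lit 1104) (nat_lit 64) (.nd (nat_lit 3408) (.br (nat_lit 4) (.br (nat_lit 3) (.ch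
 (nat_lit 1) (.ev (nat_lit 3476) (nat_lit 4) (.ev (nat_lit 4020) (nat_lit 65536) (.ev (nat_lit 4029) (nat_lit
 4096) .dd)))) (.ch (nat_lit 3) (.ev (nat_lit 3424) (nat_lit 4100) (.ev (nat_lit 3437) (nat_lit 65536) .dd))))
 (.br (nat_lit 12) (.ch (nat_lit 4) (.ev (nat_lit 3424) (nat_lit 4100) (.ev (nat_lit 3437) (nat_lit 65536)
 .dd))) (.ch (nat_lit 12) (.ev (nat_lit 4052) (nat_lit 65536) (.ev (nat_lit 6512) (nat_lit 4096) (.ev (nat_lit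
 6525) (nat_lit 4) .dd)))))))))) (.br (nat_lit 10) (.ch (nat_lit 9) (.ev (nat_lit 1300) (nat_lit 65536) (.nd
 (nat_lit 2336) (.br (nat_lit 5) (.br (nat_lit 1) (.ch (nat_lit 0) (.ev (nat_lit 2352) (nat_lit 4100) (.ev
 (nat_lit 2365) (nat_lit 64) .dd))) (.br (nat_lit 2) (.ch (nat_lit 1) (.ev (nat_lit 3076) (nat_lit 4) (.ev
 (nat_lit 5764) (nat_lit 64) (.ev (nat_lit 5773) (nat_lit 4096) .dd)))) (.ch (nat_lit 2) (.ev (nat_lit 2352)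
 (nat_lit 4096) (.ev (nat_lit 3076) (nat_lit 4) (.ev (nat_lit 3085) (nat_lit 64) .dd)))))) (.br (nat_lit 10)
 (.br (nat_lit 9) (.ch (nat_lit 5) (.ev (nat_lit 2352) (nat_lit 68) (.ev (nat_lit 2365) (nat_lit 4096) .dd)))
 (.ch (nat_lit 9) (.ev (nat_lit 2352) (nat_lit 4096) (.ev (nat_lit 2372) (nat_lit 4) (.ev (nat_lit 2381)
 (nat_lit 64) .dd))))) (.br (nat_lit 12) (.ch (nat_lit 10) (.ev (nat_lit 2352) (nat_lit 4096) (.ev (nat_lit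
 2372) (nat_lit 4) (.ev (nat_lit 2381) (nat_lit 64) .dd)))) (.ch (nat_lit 12) (.ev (nat_lit 2372) (nat_lit
 4096) (.ev (nat_lit 2788) (nat_lit 64) (.ev (nat_lit 2797) (nat_lit 4) .dd)))))))))) (.br (nat_lit 11) (.ch
 (nat_lit 10) (.ev (nat_lit 1104) (nat_lit 65600) (.nd (nat_lit 3984) (.br (nat_lit 7) (.ch (nat_lit 2) (.ev
 (nat_lit 5364) (nat_lit 4096) (.ev (nat_lit 5373) (nat_lit 4) .dd))) (.ch (nat_lit 7) (.ev (nat_lit 4020)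
 (nat_lit 4) (.ev (nat_lit 4029) (nat_lit 4096) .dd))))))) (.ch (nat_lit 11) (.ev (nat_lit 1104) (nat_lit 4)
 (.nd (nat_lit 2336) (.br (nat_lit 5) (.br (nat_lit 2) (.ch (nat_lit 0) (.ev (nat_lit 2352) (nat_lit 65600)
 (.ev (nat_lit 2365) (nat_lit 4096) .dd))) (.br (nat_lit 3) (.ch (nat_lit 2) (.ev (nat_lit 2704) (nat_lit 64)
 (.ev (nat_lit 2740) (nat_lit 4096) (.ev (nat_lit 2749) (nat_lit 65536) .dd)))) (.ch (nat_lit 3) (.ev (nat_lit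
 2352) (nat_lit 65536) (.ev (nat_lit 2676) (nat_lit 4096) (.ev (nat_lit 2685) (nat_lit 64) .dd)))))) (.br
 (nat_lit 7) (.ch (nat_lit 5) (.ev (nat_lit 2740) (nat_lit 4096) (.ev (nat_lit 3140) (nat_lit 64) (.ev (nat_lit
 3149) (nat_lit 65536) .dd)))) (.br (nat_lit 8) (.ch (nat_lit 7) (.ev (nat_lit 2352) (nat_lit 69632) (.ev
 (nat_lit 2365) (nat_lit 64) .dd))) (.ch (nat_lit 8) (.ev (nat_lit 2352) (nat_lit 65600) (.ev (nat_lit 2365)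
 (nat_lit 4096) .dd))))))))))))))))) (.br (nat_lit 10) (.ch (nat_lit 9) (.ev (nat_lit 544) (nat_lit 70658) (.nd
 (nat_lit 1008) (.br (nat_lit 6) (.br (nat_lit 2) (.ch (nat_lit 0) (.ev (nat_lit 1024) (nat_lit 260) (.ev
 (nat_lit 1037) (nat_lit 64) .dd))) (.br (nat_lit 5) (.ch (nat_lit 2) (.ev (nat_lit 1024) (nat_lit 64) (.ev
 (nat_lit 3476) (nat_lit 256) (.ev (nat_lit 3485) (nat_lit 4) .dd)))) (.ch (nat_lit 5) (.nd (nat_lit 1968) (.br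
 (nat_lit 5) (.br (nat_lit 2) (.ch (nat_lit 0) (.ev (nat_lit 1984) (nat_lit 256) (.ev (nat_lit 2164) (nat_lit
 4) (.ev (nat_lit 2173) (nat_lit 64) .dd)))) (.br (nat_lit 4) (.ch (nat_lit 2) (.ev (nat_lit 2676) (nat_lit
 256) (.nd (nat_lit 4864) (.br (nat_lit 6) (.br (nat_lit 4) (.ch (nat_lit 3) (.ev (nat_lit 5552) (nat_lit 64)
 (.ev (nat_lit 5565) (nat_lit 4) .dd))) (.ch (nat_lit 4) (.ev (nat_lit 4880) (nat_lit 4) (.ev (nat_lit 4893)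
 (nat_lit 64) .dd)))) (.br (nat_lit 9) (.ch (nat_lit 6) (.ev (nat_lit 4932) (nat_lit 64) (.ev (nat_lit 4941)
 (nat_lit 4) .dd))) (.ch (nat_lit 9) (.ev (nat_lit 4880) (nat_lit 4) (.ev (nat_lit 4893) (nat_lit 64)
 .dd)))))))) (.ch (nat_lit 4) (.ev (nat_lit 1984) (nat_lit 256) (.ev (nat_lit 6692) (nat_lit 64) (.ev (nat_lit
 6701) (nat_lit 4) .dd)))))) (.br (nat_lit 11) (.br (nat_lit 10) (.ch (nat_lit 5) (.ev (nat_lit 2740) (nat_lit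
 256) (.ev (nat_lit 7156) (nat_lit 4) (.ev (nat_lit 7165) (nat_lit 64) .dd)))) (.ch (nat_lit 10) (.ev (nat_lit
 1984) (nat_lit 64) (.ev (nat_lit 2164) (nat_lit 4) (.ev (nat_lit 2173) (nat_lit 256) .dd))))) (.br (nat_lit
 12) (.ch (nat_lit 11) (.ev (nat_lit 1984) (nat_lit 68) (.ev (nat_lit 1997) (nat_lit 256) .dd))) (.ch (nat_lit
 12) (.ev (nat_lit 2676) (nat_lit 256) (.ev (nat_lit 3652) (nat_lit 4) (.ev (nat_lit 3661) (nat_lit 64)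
 .dd))))))))))) (.br (nat_lit 8) (.br (nat_lit 7) (.ch (nat_lit 6) (.ev (nat_lit 1024) (nat_lit 256) (.nd
 (nat_lit 1840) (.br (nat_lit 7) (.br (nat_lit 6) (.ch (nat_lit 5) (.ev (nat_lit 6260) (nat_lit 4) (.ev
 (nat_lit 6269) (nat_lit 64) .dd))) (.ch (nat_lit 6) (.ev (nat_lit 1892) (nat_lit 64) (.ev (nat_lit 1901)
 (nat_lit 4) .dd)))) (.br (nat_lit 8) (.ch (nat_lit 7) (.ev (nat_lit 3540) (nat_lit 4) (.ev (nat_lit 3549)
 (nat_lit 64) .dd))) (.ch (nat_lit 8) (.ev (nat_lit 3540) (nat_lit 4) (.ev (nat_lit 3549) (nat_lit 64)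
 .dd)))))))) (.ch (nat_lit 7) (.ev (nat_lit 1024) (nat_lit 256) (.nd (nat_lit 2624) (.br (nat_lit 6) (.br
 (nat_lit 3) (.ch (nat_lit 1) (.ev (nat_lit 3476) (nat_lit 4) (.ev (nat_lit 3485) (nat_lit 64) .dd))) (.br
 (nat_lit 4) (.ch (nat_lit 3) (.ev (nat_lit 2640) (nat_lit 64) (.ev (nat_lit 2653) (nat_lit 4) .dd))) (.ch
 (nat_lit 4) (.ev (nat_lit 2640) (nat_lit 4) (.ev (nat_lit 2653) (nat_lit 64) .dd))))) (.br (nat_lit 10) (.ch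
 (nat_lit 6) (.ev (nat_lit 2640) (nat_lit 4) (.ev (nat_lit 2653) (nat_lit 64) .dd))) (.br (nat_lit 12) (.ch
 (nat_lit 10) (.ev (nat_lit 3540) (nat_lit 4) (.ev (nat_lit 3549) (nat_lit 64) .dd))) (.ch (nat_lit 12) (.ev
 (nat_lit 3540) (nat_lit 4) (.ev (nat_lit 3549) (nat_lit 64) .dd)))))))))) (.br (nat_lit 10) (.ch (nat_lit 8)
 (.ev (nat_lit 1024) (nat_lit 64) (.ev (nat_lit 1204) (nat_lit 256) (.ev (nat_lit 1213) (nat_lit 4) .dd))))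
 (.ch (nat_lit 10) (.ev (nat_lit 1024) (nat_lit 4) (.nd (nat_lit 2336) (.br (nat_lit 8) (.br (nat_lit 4) (.ch
 (nat_lit 3) (.ev (nat_lit 3664) (nat_lit 64) (.ev (nat_lit 3677) (nat_lit 256) .dd))) (.br (nat_lit 6) (.ch
 (nat_lit 4) (.ev (nat_lit 2388) (nat_lit 64) (.ev (nat_lit 2397) (nat_lit 256) .dd))) (.ch (nat_lit 6) (.ev
 (nat_lit 2420) (nat_lit 64) (.ev (nat_lit 2429) (nat_lit 256) .dd))))) (.br (nat_lit 9) (.ch (nat_lit 8) (.ev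
 (nat_lit 2676) (nat_lit 256) (.ev (nat_lit 2685) (nat_lit 64) .dd))) (.br (nat_lit 11) (.ch (nat_lit 9) (.ev
 (nat_lit 5072) (nat_lit 320) .dd)) (.ch (nat_lit 11) (.ev (nat_lit 2352) (nat_lit 256) (.ev (nat_lit 2365)
 (nat_lit 64) .dd))))))))))))))) (.br (nat_lit 12) (.ch (nat_lit 10) (.ev (nat_lit 544) (nat_lit 68) (.ev
 (nat_lit 564) (nat_lit 4096) (.nd (nat_lit 1168) (.br (nat_lit 5) (.br (nat_lit 3) (.br (nat_lit 2) (.ch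
 (nat_lit 1) (.nd (nat_lit 2336) (.br (nat_lit 6) (.br (nat_lit 3) (.ch (nat_lit 1) (.ev (nat_lit 2740)
 (nat_lit 1024) (.ev (nat_lit 3876) (nat_lit 256) (.fin (nat_lit 576436013251379763))))) (.br (nat_lit 4) (.ch
 (nat_lit 3) (.ev (nat_lit 2352) (nat_lit 256) (.ev (nat_lit 2372) (nat_lit 65536) (.ev (nat_lit 3700) (nat_lit
 1024) (.ev (nat_lit 3709) (nat_lit 2) .dd))))) (.ch (nat_lit 4) (.ev (nat_lit 2372) (nat_lit 2) (.ev (nat_lit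
 2788) (nat_lit 65536) (.ev (nat_lit 3876) (nat_lit 1024) (.ev (nat_lit 3885) (nat_lit 256) .dd))))))) (.br
 (nat_lit 10) (.br (nat_lit 9) (.ch (nat_lit 6) (.ev (nat_lit 2352) (nat_lit 65792) (.ev (nat_lit 2740)
 (nat_lit 1024) (.ev (nat_lit 2749) (nat_lit 2) .dd)))) (.ch (nat_lit 9) (.ev (nat_lit 2352) (nat_lit 1024)
 (.ev (nat_lit 2372) (nat_lit 258) (.ev (nat_lit 2381) (nat_lit 65536) .dd))))) (.br (nat_lit 12) (.ch (nat_lit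
 10) (.ev (nat_lit 2352) (nat_lit 65536) (.ev (nat_lit 2900) (nat_lit 256) (.ev (nat_lit 4052) (nat_lit 2) (.ev
 (nat_lit 4061) (nat_lit 1024) .dd))))) (.ch (nat_lit 12) (.ev (nat_lit 2352) (nat_lit 1026) (.ev (nat_lit
 3120) (nat_lit 65792) .dd)))))))) (.ch (nat_lit 2) (.ev (nat_lit 1184) (nat_lit 66560) (.nd (nat_lit 2624)
 (.br (nat_lit 6) (.br (nat_lit 1) (.ch (nat_lit 0) (.ev (nat_lit 2640) (nat_lit 256) (.ev (nat_lit 2653)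
 (nat_lit 2) .dd))) (.br (nat_lit 3) (.ch (nat_lit 1) (.ev (nat_lit 2640) (nat_lit 256) (.ev (nat_lit 2653)
 (nat_lit 2) .dd))) (.ch (nat_lit 3) (.ev (nat_lit 2740) (nat_lit 2) (.ev (nat_lit 2749) (nat_lit 256) .dd)))))
 (.br (nat_lit 8) (.br (nat_lit 7) (.ch (nat_lit 6) (.ev (nat_lit 2640) (nat_lit 2) (.ev (nat_lit 2653)
 (nat_lit 256) .dd))) (.ch (nat_lit 7) (.ev (nat_lit 6788) (nat_lit 256) (.ev (nat_lit 6797) (nat_lit 2)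
 .dd)))) (.br (nat_lit 12) (.ch (nat_lit 8) (.ev (nat_lit 2640) (nat_lit 2) (.ev (nat_lit 2653) (nat_lit 256)
 .dd))) (.ch (nat_lit 12) (.ev (nat_lit 2900) (nat_lit 2) (.ev (nat_lit 2909) (nat_lit 256) .dd)))))))))) (.br
 (nat_lit 4) (.ch (nat_lit 3) (.ev (nat_lit 1184) (nat_lit 66816) (.ev (nat_lit 1197) (nat_lit 2) .dd))) (.ch
 (nat_lit 4) (.ev (nat_lit 1184) (nat_lit 2) (.nd (nat_lit 2336) (.br (nat_lit 5) (.br (nat_lit 3) (.ch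
 (nat_lit 0) (.ev (nat_lit 2676) (nat_lit 256) (.fin (nat_lit 576152339538722764)))) (.ch (nat_lit 3) (.ev
 (nat_lit 2352) (nat_lit 65536) (.ev (nat_lit 2688) (nat_lit 1280) .dd)))) (.br (nat_lit 6) (.ch (nat_lit 5)
 (.ev (nat_lit 2352) (nat_lit 1024) (.ev (nat_lit 2740) (nat_lit 256) (.ev (nat_lit 2749) (nat_lit 65536)
 .dd)))) (.br (nat_lit 7) (.ch (nat_lit 6) (.ev (nat_lit 2352) (nat_lit 1024) (.ev (nat_lit 2372) (nat_lit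
 65536) (.ev (nat_lit 2381) (nat_lit 256) .dd)))) (.ch (nat_lit 7) (.ev (nat_lit 5728) (nat_lit 65536) (.ev
 (nat_lit 6740) (nat_lit 256) (.ev (nat_lit 6749) (nat_lit 1024) .dd)))))))))))) (.br (nat_lit 10) (.br
 (nat_lit 9) (.ch (nat_lit 5) (.ev (nat_lit 1184) (nat_lit 1282) (.ev (nat_lit 1197) (nat_lit 65536) .dd)))
 (.ch (nat_lit 9) (.ev (nat_lit 1184) (nat_lit 1024) (.nd (nat_lit 2128) (.br (nat_lit 9) (.br (nat_lit 3) (.br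
 (nat_lit 2) (.ch (nat_lit 0) (.ev (nat_lit 2144) (nat_lit 2) (.ev (nat_lit 2164) (nat_lit 65536) (.ev (nat_lit
 2173) (nat_lit 256) .dd)))) (.ch (nat_lit 2) (.ev (nat_lit 2144) (nat_lit 2) (.ev (nat_lit 2740) (nat_lit 256)
 (.ev (nat_lit 2749) (nat_lit 65536) .dd))))) (.br (nat_lit 6) (.ch (nat_lit 3) (.ev (nat_lit 2144) (nat_lit
 65792) (.ev (nat_lit 2157) (nat_lit 2) .dd))) (.ch (nat_lit 6) (.ev (nat_lit 2740) (nat_lit 2) (.ev (nat_lit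
 5540) (nat_lit 65536) (.ev (nat_lit 5549) (nat_lit 256) .dd)))))) (.br (nat_lit 11) (.br (nat_lit 10) (.ch
 (nat_lit 9) (.ev (nat_lit 2144) (nat_lit 256) (.ev (nat_lit 2372) (nat_lit 2) (.ev (nat_lit 2381) (nat_lit
 65536) .dd)))) (.ch (nat_lit 10) (.ev (nat_lit 2144) (nat_lit 65792) (.ev (nat_lit 2157) (nat_lit 2) .dd))))
 (.br (nat_lit 12) (.ch (nat_lit 11) (.ev (nat_lit 2164) (nat_lit 65536) (.ev (nat_lit 2820) (nat_lit 2) (.ev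
 (nat_lit 2829) (nat_lit 256) .dd)))) (.ch (nat_lit 12) (.ev (nat_lit 2144) (nat_lit 65536) (.ev (nat_lit 2740)
 (nat_lit 2) (.ev (nat_lit 2749) (nat_lit 256) .dd))))))))))) (.br (nat_lit 11) (.ch (nat_lit 10) (.ev (nat_lit
 1184) (nat_lit 65536) (.nd (nat_lit 2336) (.br (nat_lit 6) (.br (nat_lit 2) (.ch (nat_lit 1) (.ev (nat_lit
 2352) (nat_lit 2) (.ev (nat_lit 6644) (nat_lit 256) (.ev (nat_lit 6653) (nat_lit 1024) .dd)))) (.br (nat_lit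
 3) (.ch (nat_lit 2) (.ev (nat_lit 2352) (nat_lit 256) (.ev (nat_lit 2820) (nat_lit 1024) (.ev (nat_lit 2829)
 (nat_lit 2) .dd)))) (.ch (nat_lit 3) (.ev (nat_lit 2352) (nat_lit 1024) (.ev (nat_lit 2372) (nat_lit 2) (.ev
 (nat_lit 2381) (nat_lit 256) .dd)))))) (.br (nat_lit 9) (.ch (nat_lit 6) (.ev (nat_lit 2352) (nat_lit 2) (.ev
 (nat_lit 2420) (nat_lit 256) (.ev (nat_lit 2429) (nat_lit 1024) .dd)))) (.br (nat_lit 10) (.ch (nat_lit 9)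
 (.ev (nat_lit 2548) (nat_lit 256) (.ev (nat_lit 5924) (nat_lit 1024) (.ev (nat_lit 5933) (nat_lit 2) .dd))))
 (.ch (nat_lit 10) (.ev (nat_lit 2372) (nat_lit 258) (.ev (nat_lit 2381) (nat_lit 1024) .dd))))))))) (.br
 (nat_lit 12) (.ch (nat_lit 11) (.ev (nat_lit 1184) (nat_lit 258) (.nd (nat_lit 2624) (.br (nat_lit 8) (.br
 (nat_lit 4) (.ch (nat_lit 1) (.ev (nat_lit 2640) (nat_lit 1024) (.ev (nat_lit 2653) (nat_lit 65536) .dd)))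
 (.br (nat_lit 6) (.ch (nat_lit 4) (.ev (nat_lit 2640) (nat_lit 1024) (.ev (nat_lit 2653) (nat_lit 65536)
 .dd))) (.ch (nat_lit 6) (.ev (nat_lit 2740) (nat_lit 1024) (.ev (nat_lit 2749) (nat_lit 65536) .dd))))) (.br
 (nat_lit 9) (.ch (nat_lit 8) (.ev (nat_lit 2740) (nat_lit 1024) (.ev (nat_lit 2749) (nat_lit 65536) .dd)))
 (.br (nat_lit 10) (.ch (nat_lit 9) (.ev (nat_lit 2640) (nat_lit 1024) (.ev (nat_lit 2653) (nat_lit 65536)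
 .dd))) (.ch (nat_lit 10) (.ev (nat_lit 5444) (nat_lit 1024) (.ev (nat_lit 5453) (nat_lit 65536) .dd)))))))))
 (.ch (nat_lit 12) (.ev (nat_lit 1204) (nat_lit 1024) (.ev (nat_lit 1332) (nat_lit 2) (.nd (nat_lit 2128) (.br
 (nat_lit 8) (.br (nat_lit 5) (.br (nat_lit 3) (.ch (nat_lit 1) (.ev (nat_lit 2164) (nat_lit 256) (.ev (nat_lit
 2173) (nat_lit 65536) .dd))) (.ch (nat_lit 3) (.ev (nat_lit 2144) (nat_lit 65792) .dd))) (.br (nat_lit 6) (.ch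
 (nat_lit 5) (.ev (nat_lit 6644) (nat_lit 256) (.ev (nat_lit 6653) (nat_lit 65536) .dd))) (.ch (nat_lit 6) (.ev
 (nat_lit 6464) (nat_lit 256) (.ev (nat_lit 6477) (nat_lit 65536) .dd))))) (.br (nat_lit 11) (.br (nat_lit 10)
 (.ch (nat_lit 8) (.ev (nat_lit 2144) (nat_lit 65536) (.ev (nat_lit 2157) (nat_lit 256) .dd))) (.ch (nat_lit
 10) (.ev (nat_lit 2144) (nat_lit 65536) (.ev (nat_lit 2157) (nat_lit 256) .dd)))) (.br (nat_lit 12) (.ch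
 (nat_lit 11) (.ev (nat_lit 7108) (nat_lit 256) (.ev (nat_lit 7117) (nat_lit 65536) .dd))) (.ch (nat_lit 12)
 (.ev (nat_lit 2144) (nat_lit 256) (.ev (nat_lit 2157) (nat_lit 65536) .dd)))))))))))))))))) (.ch (nat_lit 12)
 (.ev (nat_lit 544) (nat_lit 69894) (.nd (nat_lit 1264) (.br (nat_lit 7) (.br (nat_lit 5) (.ch (nat_lit 0) (.nd
 (nat_lit 3984) (.br (nat_lit 3) (.br (nat_lit 1) (.ch (nat_lit 0) (.ev (nat_lit 4000) (nat_lit 64) (.ev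
 (nat_lit 4013) (nat_lit 1024) .dd))) (.br (nat_lit 2) (.ch (nat_lit 1) (.ev (nat_lit 4020) (nat_lit 64) (.ev
 (nat_lit 4029) (nat_lit 1024) .dd))) (.ch (nat_lit 2) (.ev (nat_lit 4000) (nat_lit 1024) (.ev (nat_lit 4013)
 (nat_lit 64) .dd))))) (.br (nat_lit 7) (.ch (nat_lit 3) (.ev (nat_lit 4020) (nat_lit 1024) (.ev (nat_lit 4029)
 (nat_lit 64) .dd))) (.br (nat_lit 11) (.ch (nat_lit 7) (.ev (nat_lit 4000) (nat_lit 64) (.ev (nat_lit 4013)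
 (nat_lit 1024) .dd))) (.ch (nat_lit 11) (.ev (nat_lit 4000) (nat_lit 64) (.ev (nat_lit 4013) (nat_lit 1024)
 .dd)))))))) (.br (nat_lit 6) (.ch (nat_lit 5) (.ev (nat_lit 3188) (nat_lit 64) (.ev (nat_lit 3197) (nat_lit
 1024) .dd))) (.ch (nat_lit 6) (.ev (nat_lit 1280) (nat_lit 1024) (.ev (nat_lit 1293) (nat_lit 64) .dd)))))
 (.br (nat_lit 10) (.br (nat_lit 9) (.ch (nat_lit 7) (.ev (nat_lit 1280) (nat_lit 1024) (.ev (nat_lit 1293)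
 (nat_lit 64) .dd))) (.ch (nat_lit 9) (.ev (nat_lit 1300) (nat_lit 64) (.ev (nat_lit 1309) (nat_lit 1024)
 .dd)))) (.br (nat_lit 11) (.ch (nat_lit 10) (.nd (nat_lit 3408) (.br (nat_lit 12) (.ch (nat_lit 9) (.fin
 (nat_lit 576812046839399430))) (.ch (nat_lit 12) (.ev (nat_lit 3476) (nat_lit 64) (.ev (nat_lit 3485) (nat_lit
 1024) .dd)))))) (.ch (nat_lit 11) (.ev (nat_lit 1280) (nat_lit 64) (.ev (nat_lit 1293) (nat_lit 1024)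
 .dd)))))))))))))))) (.br (nat_lit 11) (.ch (nat_lit 9) (.ev (nat_lit 48) (nat_lit 32800) (.nd (nat_lit 480)
 (.br (nat_lit 7) (.br (nat_lit 5) (.br (nat_lit 4) (.ch (nat_lit 0) (.ev (nat_lit 496) (nat_lit 2304) (.nd
 (nat_lit 1008) (.br (nat_lit 6) (.br (nat_lit 4) (.br (nat_lit 2) (.ch (nat_lit 1) (.ev (nat_lit 1024)
 (nat_lit 1030) (.nd (nat_lit 2128) (.br (nat_lit 7) (.br (nat_lit 1) (.ch (nat_lit 0) (.ev (nat_lit 2180)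
 (nat_lit 65536) (.ev (nat_lit 2372) (nat_lit 4096) (.ev (nat_lit 2381) (nat_lit 64) .dd)))) (.br (nat_lit 5)
 (.ch (nat_lit 1) (.ev (nat_lit 2144) (nat_lit 4160) (.ev (nat_lit 2157) (nat_lit 65536) .dd))) (.ch (nat_lit
 5) (.ev (nat_lit 2144) (nat_lit 4160) (.ev (nat_lit 2157) (nat_lit 65536) .dd))))) (.br (nat_lit 8) (.ch
 (nat_lit 7) (.ev (nat_lit 6596) (nat_lit 64) (.ev (nat_lit 6740) (nat_lit 65536) (.ev (nat_lit 6749) (nat_lit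
 4096) .dd)))) (.br (nat_lit 10) (.ch (nat_lit 8) (.ev (nat_lit 2144) (nat_lit 64) (.ev (nat_lit 2180) (nat_lit
 65536) (.ev (nat_lit 2189) (nat_lit 4096) .dd)))) (.ch (nat_lit 10) (.ev (nat_lit 2372) (nat_lit 4096) (.ev
 (nat_lit 3604) (nat_lit 65536) (.ev (nat_lit 3613) (nat_lit 64) .dd)))))))))) (.ch (nat_lit 2) (.ev (nat_lit
 1024) (nat_lit 5184) (.nd (nat_lit 2336) (.br (nat_lit 7) (.br (nat_lit 5) (.ch (nat_lit 0) (.ev (nat_lit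
 2352) (nat_lit 65536) (.ev (nat_lit 3104) (nat_lit 6) .dd))) (.ch (nat_lit 5) (.ev (nat_lit 2352) (nat_lit 4)
 (.ev (nat_lit 5540) (nat_lit 65536) (.ev (nat_lit 5549) (nat_lit 2) .dd))))) (.br (nat_lit 8) (.ch (nat_lit 7)
 (.ev (nat_lit 3476) (nat_lit 4) (.ev (nat_lit 3604) (nat_lit 65536) (.ev (nat_lit 3613) (nat_lit 2) .dd))))
 (.br (nat_lit 9) (.ch (nat_lit 8) (.ev (nat_lit 3056) (nat_lit 4) (.ev (nat_lit 3604) (nat_lit 2) (.ev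
 (nat_lit 3613) (nat_lit 65536) .dd)))) (.ch (nat_lit 9) (.ev (nat_lit 2372) (nat_lit 2) (.ev (nat_lit 3476)
 (nat_lit 4) (.ev (nat_lit 3485) (nat_lit 65536) .dd))))))))))) (.br (nat_lit 5) (.ch (nat_lit 4) (.ev (nat_lit
 1024) (nat_lit 4166) (.ev (nat_lit 2820) (nat_lit 1024) (.ev (nat_lit 2829) (nat_lit 65536) .dd)))) (.ch
 (nat_lit 5) (.ev (nat_lit 1024) (nat_lit 65536) (.ev (nat_lit 1044) (nat_lit 4096) (.ev (nat_lit 1220)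
 (nat_lit 2) (.nd (nat_lit 2624) (.br (nat_lit 9) (.br (nat_lit 1) (.ch (nat_lit 0) (.ev (nat_lit 2640)
 (nat_lit 1024) (.ev (nat_lit 2740) (nat_lit 4) (.ev (nat_lit 2749) (nat_lit 64) .dd)))) (.br (nat_lit 5) (.ch
 (nat_lit 1) (.ev (nat_lit 2640) (nat_lit 1024) (.ev (nat_lit 2676) (nat_lit 4) (.ev (nat_lit 2685) (nat_lit
 64) .dd)))) (.ch (nat_lit 5) (.ev (nat_lit 2640) (nat_lit 64) (.ev (nat_lit 6356) (nat_lit 1024) (.ev (nat_lit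
 6365) (nat_lit 4) .dd)))))) (.br (nat_lit 11) (.ch (nat_lit 9) (.ev (nat_lit 2640) (nat_lit 4) (.ev (nat_lit
 2676) (nat_lit 1024) (.ev (nat_lit 2685) (nat_lit 64) .dd)))) (.br (nat_lit 12) (.ch (nat_lit 11) (.ev
 (nat_lit 2640) (nat_lit 4) (.ev (nat_lit 5604) (nat_lit 1024) (.ev (nat_lit 5613) (nat_lit 64) .dd)))) (.ch
 (nat_lit 12) (.ev (nat_lit 2640) (nat_lit 64) (.ev (nat_lit 2676) (nat_lit 1024) (.ev (nat_lit 2685) (nat_lit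
 4) .dd)))))))))))))) (.br (nat_lit 8) (.br (nat_lit 7) (.ch (nat_lit 6) (.ev (nat_lit 1024) (nat_lit 4) (.ev
 (nat_lit 1220) (nat_lit 2) (.nd (nat_lit 2128) (.br (nat_lit 7) (.br (nat_lit 5) (.br (nat_lit 4) (.ch
 (nat_lit 1) (.ev (nat_lit 2144) (nat_lit 4096) (.ev (nat_lit 2372) (nat_lit 64) (.ev (nat_lit 6500) (nat_lit
 1024) (.ev (nat_lit 6509) (nat_lit 65536) .dd))))) (.ch (nat_lit 4) (.ev (nat_lit 2144) (nat_lit 64) (.ev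
 (nat_lit 2164) (nat_lit 4096) (.ev (nat_lit 2196) (nat_lit 65536) (.ev (nat_lit 2205) (nat_lit 1024) .dd))))))
 (.br (nat_lit 6) (.ch (nat_lit 5) (.ev (nat_lit 2144) (nat_lit 1024) (.ev (nat_lit 2372) (nat_lit 64) (.ev
 (nat_lit 5924) (nat_lit 65536) (.ev (nat_lit 5933) (nat_lit 4096) .dd))))) (.ch (nat_lit 6) (.ev (nat_lit
 2144) (nat_lit 1024) (.ev (nat_lit 2868) (nat_lit 4096) (.ev (nat_lit 5044) (nat_lit 64) (.ev (nat_lit 5053)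
 (nat_lit 65536) .dd))))))) (.br (nat_lit 9) (.br (nat_lit 8) (.ch (nat_lit 7) (.ev (nat_lit 2144) (nat_lit
 1024) (.ev (nat_lit 2164) (nat_lit 4096) (.ev (nat_lit 5604) (nat_lit 65536) (.ev (nat_lit 5613) (nat_lit 64)
 .dd))))) (.ch (nat_lit 8) (.ev (nat_lit 2144) (nat_lit 69696) (.ev (nat_lit 2157) (nat_lit 1024) .dd)))) (.br
 (nat_lit 10) (.ch (nat_lit 9) (.ev (nat_lit 2144) (nat_lit 69632) (.ev (nat_lit 2196) (nat_lit 1024) (.ev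
 (nat_lit 2205) (nat_lit 64) .dd)))) (.br (nat_lit 11) (.ch (nat_lit 10) (.ev (nat_lit 2144) (nat_lit 65600)
 (.ev (nat_lit 2164) (nat_lit 1024) (.ev (nat_lit 2173) (nat_lit 4096) .dd)))) (.ch (nat_lit 11) (.ev (nat_lit
 2144) (nat_lit 4096) (.ev (nat_lit 2164) (nat_lit 66560) (.ev (nat_lit 2173) (nat_lit 64) .dd)))))))))))) (.ch
 (nat_lit 7) (.ev (nat_lit 1024) (nat_lit 1026) (.ev (nat_lit 1140) (nat_lit 4) (.nd (nat_lit 2128) (.br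
 (nat_lit 7) (.br (nat_lit 2) (.br (nat_lit 1) (.ch (nat_lit 0) (.ev (nat_lit 2144) (nat_lit 4160) (.ev
 (nat_lit 2157) (nat_lit 65536) .dd))) (.ch (nat_lit 1) (.ev (nat_lit 2144) (nat_lit 65600) (.ev (nat_lit 2157)
 (nat_lit 4096) .dd)))) (.br (nat_lit 6) (.ch (nat_lit 2) (.ev (nat_lit 2144) (nat_lit 64) (.ev (nat_lit 2164)
 (nat_lit 4096) (.ev (nat_lit 2173) (nat_lit 65536) .dd)))) (.ch (nat_lit 6) (.ev (nat_lit 2388) (nat_lit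
 65536) (.ev (nat_lit 2452) (nat_lit 4096) (.ev (nat_lit 2461) (nat_lit 64) .dd)))))) (.br (nat_lit 9) (.br
 (nat_lit 8) (.ch (nat_lit 7) (.ev (nat_lit 2144) (nat_lit 69632) (.ev (nat_lit 2157) (nat_lit 64) .dd))) (.ch
 (nat_lit 8) (.ev (nat_lit 2144) (nat_lit 64) (.ev (nat_lit 2180) (nat_lit 65536) (.ev (nat_lit 2189) (nat_lit
 4096) .dd))))) (.br (nat_lit 11) (.ch (nat_lit 9) (.ev (nat_lit 2164) (nat_lit 4096) (.ev (nat_lit 3540)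
 (nat_lit 64) (.ev (nat_lit 3549) (nat_lit 65536) .dd)))) (.br (nat_lit 12) (.ch (nat_lit 11) (.ev (nat_lit
 2740) (nat_lit 4096) (.ev (nat_lit 3188) (nat_lit 65536) (.ev (nat_lit 3197) (nat_lit 64) .dd)))) (.ch
 (nat_lit 12) (.ev (nat_lit 2144) (nat_lit 69632) (.ev (nat_lit 2157) (nat_lit 64) .dd)))))))))))) (.br
 (nat_lit 10) (.ch (nat_lit 8) (.ev (nat_lit 1024) (nat_lit 64) (.ev (nat_lit 1236) (nat_lit 2) (.nd (nat_lit
 2128) (.br (nat_lit 6) (.br (nat_lit 3) (.ch (nat_lit 0) (.ev (nat_lit 2144) (nat_lit 1024) (.ev (nat_lit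
 2196) (nat_lit 65536) (.ev (nat_lit 6752) (nat_lit 4096) (.ev (nat_lit 6765) (nat_lit 4) .dd))))) (.br
 (nat_lit 5) (.ch (nat_lit 3) (.ev (nat_lit 2144) (nat_lit 65536) (.ev (nat_lit 5300) (nat_lit 4096) (.ev
 (nat_lit 6452) (nat_lit 4) (.ev (nat_lit 6461) (nat_lit 1024) .dd))))) (.ch (nat_lit 5) (.ev (nat_lit 2144)
 (nat_lit 4) (.ev (nat_lit 4996) (nat_lit 4096) (.ev (nat_lit 6260) (nat_lit 65536) (.ev (nat_lit 6269)
 (nat_lit 1024) .dd))))))) (.br (nat_lit 9) (.br (nat_lit 7) (.ch (nat_lit 6) (.ev (nat_lit 2144) (nat_lit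
 5120) (.ev (nat_lit 2196) (nat_lit 65536) (.ev (nat_lit 2205) (nat_lit 4) .dd)))) (.ch (nat_lit 7) (.ev
 (nat_lit 2144) (nat_lit 4096) (.ev (nat_lit 6032) (nat_lit 65536) (.fin (nat_lit 576112756755218347)))))) (.br
 (nat_lit 10) (.ch (nat_lit 9) (.ev (nat_lit 2144) (nat_lit 65536) (.ev (nat_lit 2164) (nat_lit 1024) (.ev
 (nat_lit 6192) (nat_lit 4100) .dd)))) (.ch (nat_lit 10) (.ev (nat_lit 2144) (nat_lit 4) (.ev (nat_lit 2900)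
 (nat_lit 65536) (.ev (nat_lit 4180) (nat_lit 1024) (.ev (nat_lit 4189) (nat_lit 4096) .dd)))))))))))) (.br
 (nat_lit 11) (.ch (nat_lit 10) (.ev (nat_lit 1024) (nat_lit 69700) (.ev (nat_lit 3012) (nat_lit 2) (.ev
 (nat_lit 3021) (nat_lit 1024) .dd)))) (.ch (nat_lit 11) (.ev (nat_lit 1024) (nat_lit 65536) (.nd (nat_lit
 2128) (.br (nat_lit 3) (.br (nat_lit 2) (.ch (nat_lit 0) (.ev (nat_lit 2144) (nat_lit 1024) (.ev (nat_lit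
 2164) (nat_lit 4098) (.ev (nat_lit 2196) (nat_lit 4) (.ev (nat_lit 2205) (nat_lit 64) .dd))))) (.ch (nat_lit
 2) (.ev (nat_lit 2144) (nat_lit 1024) (.ev (nat_lit 2164) (nat_lit 4098) (.ev (nat_lit 6356) (nat_lit 64) (.ev
 (nat_lit 6365) (nat_lit 4) .dd)))))) (.br (nat_lit 5) (.ch (nat_lit 3) (.ev (nat_lit 2144) (nat_lit 64) (.ev
 (nat_lit 2164) (nat_lit 2) (.ev (nat_lit 2820) (nat_lit 4096) (.ev (nat_lit 6464) (nat_lit 4) (.ev (nat_lit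
 6477) (nat_lit 1024) .dd)))))) (.br (nat_lit 9) (.ch (nat_lit 5) (.ev (nat_lit 2144) (nat_lit 4096) (.ev
 (nat_lit 3056) (nat_lit 4) (.ev (nat_lit 6452) (nat_lit 2) (.fin (nat_lit 576429416202584654)))))) (.ch
 (nat_lit 9) (.ev (nat_lit 2144) (nat_lit 4096) (.ev (nat_lit 2164) (nat_lit 2) (.ev (nat_lit 3540) (nat_lit
 64) (.ev (nat_lit 5572) (nat_lit 1024) (.ev (nat_lit 5581) (nat_lit 4) .dd))))))))))))))))))) (.ch (nat_lit 4)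
 (.ev (nat_lit 496) (nat_lit 256) (.nd (nat_lit 944) (.br (nat_lit 6) (.br (nat_lit 3) (.br (nat_lit 2) (.ch
 (nat_lit 1) (.ev (nat_lit 960) (nat_lit 64) (.ev (nat_lit 1044) (nat_lit 2048) (.nd (nat_lit 1744) (.br
 (nat_lit 6) (.br (nat_lit 3) (.br (nat_lit 1) (.ch (nat_lit 0) (.ev (nat_lit 1760) (nat_lit 1024) (.ev
 (nat_lit 5140) (nat_lit 2) (.ev (nat_lit 6644) (nat_lit 4) (.ev (nat_lit 7140) (nat_lit 65536) (.ev (nat_lit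
 7149) (nat_lit 4096) .dd)))))) (.ch (nat_lit 1) (.ev (nat_lit 1760) (nat_lit 5120) (.nd (nat_lit 4592) (.br
 (nat_lit 5) (.br (nat_lit 3) (.ch (nat_lit 2) (.ev (nat_lit 4608) (nat_lit 4) (.ev (nat_lit 6452) (nat_lit
 65536) (.ev (nat_lit 6461) (nat_lit 2) .dd)))) (.br (nat_lit 4) (.ch (nat_lit 3) (.ev (nat_lit 4608) (nat_lit
 65540) (.ev (nat_lit 4621) (nat_lit 2) .dd))) (.ch (nat_lit 4) (.ev (nat_lit 4608) (nat_lit 2) (.ev (nat_lit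
 4996) (nat_lit 4) (.ev (nat_lit 5005) (nat_lit 65536) .dd)))))) (.br (nat_lit 11) (.br (nat_lit 7) (.ch
 (nat_lit 5) (.ev (nat_lit 4608) (nat_lit 4) (.ev (nat_lit 4996) (nat_lit 2) (.ev (nat_lit 5005) (nat_lit
 65536) .dd)))) (.ch (nat_lit 7) (.ev (nat_lit 5604) (nat_lit 2) (.ev (nat_lit 7060) (nat_lit 4) (.ev (nat_lit
 7069) (nat_lit 65536) .dd))))) (.br (nat_lit 12) (.ch (nat_lit 11) (.ev (nat_lit 4608) (nat_lit 2) (.ev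
 (nat_lit 5044) (nat_lit 4) (.ev (nat_lit 5053) (nat_lit 65536) .dd)))) (.ch (nat_lit 12) (.ev (nat_lit 4608)
 (nat_lit 65538) (.ev (nat_lit 4621) (nat_lit 4) .dd)))))))))) (.br (nat_lit 5) (.ch (nat_lit 3) (.ev (nat_lit
 1760) (nat_lit 65538) (.ev (nat_lit 3300) (nat_lit 1024) (.ev (nat_lit 5044) (nat_lit 4096) (.ev (nat_lit
 5053) (nat_lit 4) .dd))))) (.ch (nat_lit 5) (.ev (nat_lit 1760) (nat_lit 1026) (.ev (nat_lit 6384) (nat_lit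
 65536) (.ev (nat_lit 6644) (nat_lit 4) (.ev (nat_lit 6653) (nat_lit 4096) .dd))))))) (.br (nat_lit 9) (.br
 (nat_lit 8) (.ch (nat_lit 6) (.ev (nat_lit 1760) (nat_lit 65536) (.ev (nat_lit 1780) (nat_lit 2) (.ev (nat_lit
 2084) (nat_lit 1024) (.ev (nat_lit 4692) (nat_lit 4096) (.ev (nat_lit 4701) (nat_lit 4) .dd)))))) (.ch
 (nat_lit 8) (.ev (nat_lit 1760) (nat_lit 5126) (.ev (nat_lit 1773) (nat_lit 65536) .dd)))) (.br (nat_lit 12)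
 (.ch (nat_lit 9) (.ev (nat_lit 1760) (nat_lit 4100) (.ev (nat_lit 1780) (nat_lit 2) (.ev (nat_lit 2048)
 (nat_lit 65536) (.ev (nat_lit 2061) (nat_lit 1024) .dd))))) (.ch (nat_lit 12) (.ev (nat_lit 1760) (nat_lit
 4100) (.ev (nat_lit 1924) (nat_lit 2) (.ev (nat_lit 2068) (nat_lit 1024) (.ev (nat_lit 2077) (nat_lit 65536)
 .dd)))))))))))) (.ch (nat_lit 2) (.ev (nat_lit 960) (nat_lit 6146) (.nd (nat_lit 1648) (.br (nat_lit 7) (.br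
 (nat_lit 4) (.br (nat_lit 3) (.ch (nat_lit 0) (.ev (nat_lit 1876) (nat_lit 64) (.ev (nat_lit 2752) (nat_lit 4)
 (.ev (nat_lit 3908) (nat_lit 65536) (.ev (nat_lit 3917) (nat_lit 1024) .dd))))) (.ch (nat_lit 3) (.ev (nat_lit
 1664) (nat_lit 1028) (.ev (nat_lit 5140) (nat_lit 64) (.ev (nat_lit 5149) (nat_lit 65536) .dd))))) (.br
 (nat_lit 6) (.ch (nat_lit 4) (.ev (nat_lit 1664) (nat_lit 65540) (.ev (nat_lit 5140) (nat_lit 1024) (.ev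
 (nat_lit 5149) (nat_lit 64) .dd)))) (.ch (nat_lit 6) (.ev (nat_lit 1664) (nat_lit 65540) (.ev (nat_lit 1892)
 (nat_lit 64) (.ev (nat_lit 1901) (nat_lit 1024) .dd)))))) (.br (nat_lit 10) (.br (nat_lit 9) (.ch (nat_lit 7)
 (.ev (nat_lit 1664) (nat_lit 65536) (.ev (nat_lit 1876) (nat_lit 64) (.ev (nat_lit 3284) (nat_lit 4) (.ev
 (nat_lit 3293) (nat_lit 1024) .dd))))) (.ch (nat_lit 9) (.ev (nat_lit 1664) (nat_lit 4) (.ev (nat_lit 3712)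
 (nat_lit 1024) (.fin (nat_lit 576450306966503981)))))) (.br (nat_lit 11) (.ch (nat_lit 10) (.ev (nat_lit 1664)
 (nat_lit 1088) (.ev (nat_lit 2452) (nat_lit 4) (.ev (nat_lit 2461) (nat_lit 65536) .dd)))) (.ch (nat_lit 11)
 (.ev (nat_lit 1664) (nat_lit 68) (.ev (nat_lit 1684) (nat_lit 65536) (.ev (nat_lit 1693) (nat_lit 1024)
 .dd))))))))))) (.br (nat_lit 4) (.ch (nat_lit 3) (.ev (nat_lit 960) (nat_lit 1024) (.nd (nat_lit 1456) (.br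
 (nat_lit 5) (.br (nat_lit 3) (.br (nat_lit 2) (.ch (nat_lit 1) (.ev (nat_lit 1472) (nat_lit 2118) (.ev
 (nat_lit 2900) (nat_lit 4096) (.ev (nat_lit 2909) (nat_lit 65536) .dd)))) (.ch (nat_lit 2) (.ev (nat_lit 1472)
 (nat_lit 4164) (.ev (nat_lit 1684) (nat_lit 2048) (.ev (nat_lit 6596) (nat_lit 65536) (.ev (nat_lit 6605)
 (nat_lit 2) .dd)))))) (.br (nat_lit 4) (.ch (nat_lit 3) (.ev (nat_lit 1472) (nat_lit 4098) (.ev (nat_lit 2420)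
 (nat_lit 2048) (.nd (nat_lit 4864) (.br (nat_lit 8) (.br (nat_lit 4) (.ch (nat_lit 1) (.ev (nat_lit 4880)
 (nat_lit 4) (.ev (nat_lit 6260) (nat_lit 65536) (.ev (nat_lit 6269) (nat_lit 64) .dd)))) (.br (nat_lit 6) (.ch
 (nat_lit 4) (.ev (nat_lit 4880) (nat_lit 65536) (.ev (nat_lit 5876) (nat_lit 4) (.ev (nat_lit 5885) (nat_lit
 64) .dd)))) (.ch (nat_lit 6) (.ev (nat_lit 4880) (nat_lit 4) (.ev (nat_lit 6032) (nat_lit 65600) .dd))))) (.br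
 (nat_lit 9) (.ch (nat_lit 8) (.ev (nat_lit 4880) (nat_lit 64) (.ev (nat_lit 4932) (nat_lit 4) (.ev (nat_lit
 4941) (nat_lit 65536) .dd)))) (.br (nat_lit 10) (.ch (nat_lit 9) (.ev (nat_lit 4880) (nat_lit 64) (.ev
 (nat_lit 6260) (nat_lit 65536) (.ev (nat_lit 6269) (nat_lit 4) .dd)))) (.ch (nat_lit 10) (.ev (nat_lit 4880)
 (nat_lit 65540) (.ev (nat_lit 4893) (nat_lit 64) .dd)))))))))) (.ch (nat_lit 4) (.ev (nat_lit 1472) (nat_lit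
 66) (.ev (nat_lit 1684) (nat_lit 2048) (.ev (nat_lit 5876) (nat_lit 69632) (.ev (nat_lit 5885) (nat_lit 4)
 .dd))))))) (.br (nat_lit 9) (.br (nat_lit 7) (.ch (nat_lit 5) (.ev (nat_lit 1472) (nat_lit 69636) (.ev
 (nat_lit 2036) (nat_lit 2) (.fin (nat_lit 576434913763869256))))) (.ch (nat_lit 7) (.ev (nat_lit 1472)
 (nat_lit 6208) (.ev (nat_lit 5300) (nat_lit 2) (.fin (nat_lit 576531670877291084)))))) (.br (nat_lit 10) (.ch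
 (nat_lit 9) (.ev (nat_lit 1472) (nat_lit 65602) (.ev (nat_lit 1524) (nat_lit 4) (.ev (nat_lit 1604) (nat_lit
 4096) (.ev (nat_lit 1613) (nat_lit 2048) .dd))))) (.br (nat_lit 12) (.ch (nat_lit 10) (.ev (nat_lit 1472)
 (nat_lit 6208) (.nd (nat_lit 4864) (.br (nat_lit 3) (.br (nat_lit 1) (.ch (nat_lit 0) (.ev (nat_lit 4880)
 (nat_lit 2) (.fin (nat_lit 576459103079449211)))) (.ch (nat_lit 1) (.ev (nat_lit 4880) (nat_lit 2) (.ev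
 (nat_lit 4932) (nat_lit 4) (.ev (nat_lit 4941) (nat_lit 65536) .dd))))) (.br (nat_lit 5) (.ch (nat_lit 3) (.ev
 (nat_lit 5924) (nat_lit 65536) (.ev (nat_lit 6788) (nat_lit 4) (.ev (nat_lit 6797) (nat_lit 2) .dd)))) (.ch
 (nat_lit 5) (.ev (nat_lit 4880) (nat_lit 65536) (.ev (nat_lit 4932) (nat_lit 2) (.ev (nat_lit 4941) (nat_lit
 4) .dd))))))))) (.ch (nat_lit 12) (.ev (nat_lit 1472) (nat_lit 65602) (.ev (nat_lit 1684) (nat_lit 2048) (.ev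
 (nat_lit 6500) (nat_lit 4096) (.ev (nat_lit 6509) (nat_lit 4) .dd)))))))))))) (.ch (nat_lit 4) (.ev (nat_lit
 960) (nat_lit 64) (.ev (nat_lit 1044) (nat_lit 2048) (.nd (nat_lit 1744) (.br (nat_lit 4) (.br (nat_lit 2)
 (.br (nat_lit 1) (.ch (nat_lit 0) (.ev (nat_lit 1760) (nat_lit 66562) (.ev (nat_lit 1780) (nat_lit 4) (.ev
 (nat_lit 1789) (nat_lit 4096) .dd)))) (.ch (nat_lit 1) (.ev (nat_lit 1760) (nat_lit 4096) (.ev (nat_lit 1780)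
 (nat_lit 2) (.ev (nat_lit 2948) (nat_lit 65536) (.ev (nat_lit 3956) (nat_lit 4) (.ev (nat_lit 3965) (nat_lit
 1024) .dd))))))) (.br (nat_lit 3) (.ch (nat_lit 2) (.ev (nat_lit 1760) (nat_lit 1024) (.ev (nat_lit 6148)
 (nat_lit 2) (.ev (nat_lit 6740) (nat_lit 4) (.ev (nat_lit 7028) (nat_lit 4096) (.ev (nat_lit 7037) (nat_lit
 65536) .dd)))))) (.ch (nat_lit 3) (.ev (nat_lit 1760) (nat_lit 4096) (.ev (nat_lit 2084) (nat_lit 1024) (.nd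
 (nat_lit 4592) (.br (nat_lit 5) (.br (nat_lit 2) (.ch (nat_lit 0) (.ev (nat_lit 4644) (nat_lit 4) (.ev
 (nat_lit 4960) (nat_lit 2) (.ev (nat_lit 4973) (nat_lit 65536) .dd)))) (.ch (nat_lit 2) (.ev (nat_lit 4608)
 (nat_lit 65536) (.ev (nat_lit 4644) (nat_lit 4) (.ev (nat_lit 4653) (nat_lit 2) .dd))))) (.br (nat_lit 12)
 (.ch (nat_lit 5) (.ev (nat_lit 4608) (nat_lit 65536) (.ev (nat_lit 4644) (nat_lit 2) (.ev (nat_lit 4653)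
 (nat_lit 4) .dd)))) (.ch (nat_lit 12) (.ev (nat_lit 4608) (nat_lit 2) (.ev (nat_lit 5716) (nat_lit 65536) (.ev
 (nat_lit 5725) (nat_lit 4) .dd)))))))))))) (.br (nat_lit 6) (.br (nat_lit 5) (.ch (nat_lit 4) (.ev (nat_lit
 1760) (nat_lit 65542) (.ev (nat_lit 6964) (nat_lit 1024) (.ev (nat_lit 6973) (nat_lit 4096) .dd)))) (.ch
 (nat_lit 5) (.ev (nat_lit 1760) (nat_lit 66564) (.ev (nat_lit 6464) (nat_lit 4098) .dd)))) (.br (nat_lit 7)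
 (.ch (nat_lit 6) (.ev (nat_lit 1760) (nat_lit 65542) (.ev (nat_lit 6356) (nat_lit 1024) (.ev (nat_lit 6365)
 (nat_lit 4096) .dd)))) (.br (nat_lit 10) (.ch (nat_lit 7) (.ev (nat_lit 1760) (nat_lit 70656) (.ev (nat_lit
 5444) (nat_lit 2) (.ev (nat_lit 5453) (nat_lit 4) .dd)))) (.ch (nat_lit 10) (.ev (nat_lit 1760) (nat_lit
 65536) (.ev (nat_lit 1780) (nat_lit 2) (.ev (nat_lit 6160) (nat_lit 1024) (.fin (nat_lit
 576477794693235296)))))))))))))))) (.br (nat_lit 10) (.br (nat_lit 7) (.ch (nat_lit 6) (.ev (nat_lit 960)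
 (nat_lit 4) (.ev (nat_lit 1220) (nat_lit 2048) (.nd (nat_lit 1552) (.br (nat_lit 4) (.br (nat_lit 2) (.br
 (nat_lit 1) (.ch (nat_lit 0) (.ev (nat_lit 1568) (nat_lit 1090) (.ev (nat_lit 6500) (nat_lit 65536) (.ev
 (nat_lit 6509) (nat_lit 4096) .dd)))) (.ch (nat_lit 1) (.ev (nat_lit 1568) (nat_lit 1088) (.nd (nat_lit 4864)
 (.br (nat_lit 9) (.br (nat_lit 5) (.ch (nat_lit 2) (.ev (nat_lit 4880) (nat_lit 4096) (.fin (nat_lit
 575700429968988741)))) (.ch (nat_lit 5) (.ev (nat_lit 4880) (nat_lit 4096) (.ev (nat_lit 6464) (nat_lit 2)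
 (.ev (nat_lit 6477) (nat_lit 65536) .dd))))) (.br (nat_lit 10) (.ch (nat_lit 9) (.ev (nat_lit 4880) (nat_lit
 4098) (.ev (nat_lit 4893) (nat_lit 65536) .dd))) (.br (nat_lit 11) (.ch (nat_lit 10) (.ev (nat_lit 4880)
 (nat_lit 4098) (.ev (nat_lit 4893) (nat_lit 65536) .dd))) (.ch (nat_lit 11) (.ev (nat_lit 4880) (nat_lit 2)
 (.ev (nat_lit 5716) (nat_lit 4096) (.ev (nat_lit 5725) (nat_lit 65536) .dd))))))))))) (.br (nat_lit 3) (.ch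
 (nat_lit 2) (.ev (nat_lit 1568) (nat_lit 1090) (.ev (nat_lit 5668) (nat_lit 65536) (.ev (nat_lit 5677)
 (nat_lit 4096) .dd)))) (.ch (nat_lit 3) (.ev (nat_lit 1568) (nat_lit 4162) (.ev (nat_lit 2452) (nat_lit 1024)
 (.ev (nat_lit 2461) (nat_lit 65536) .dd)))))) (.br (nat_lit 7) (.br (nat_lit 6) (.ch (nat_lit 4) (.ev (nat_lit
 1568) (nat_lit 69632) (.nd (nat_lit 4864) (.br (nat_lit 8) (.ch (nat_lit 6) (.ev (nat_lit 4880) (nat_lit 2)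
 (.ev (nat_lit 5056) (nat_lit 1088) .dd))) (.br (nat_lit 9) (.ch (nat_lit 8) (.ev (nat_lit 4880) (nat_lit 1024)
 (.ev (nat_lit 4932) (nat_lit 2) (.ev (nat_lit 4941) (nat_lit 64) .dd)))) (.ch (nat_lit 9) (.ev (nat_lit 4880)
 (nat_lit 1024) (.ev (nat_lit 5140) (nat_lit 2) (.ev (nat_lit 5149) (nat_lit 64) .dd))))))))) (.ch (nat_lit 6)
 (.ev (nat_lit 1568) (nat_lit 4096) (.ev (nat_lit 1588) (nat_lit 1024) (.nd (nat_lit 4864) (.br (nat_lit 8)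
 (.br (nat_lit 6) (.ch (nat_lit 1) (.ev (nat_lit 4880) (nat_lit 64) (.ev (nat_lit 4944) (nat_lit 65538) .dd)))
 (.ch (nat_lit 6) (.ev (nat_lit 4880) (nat_lit 65600) (.ev (nat_lit 4893) (nat_lit 2) .dd)))) (.br (nat_lit 9)
 (.ch (nat_lit 8) (.ev (nat_lit 4880) (nat_lit 2) (.ev (nat_lit 5300) (nat_lit 64) (.ev (nat_lit 5309) (nat_lit
 65536) .dd)))) (.ch (nat_lit 9) (.ev (nat_lit 4880) (nat_lit 66) (.ev (nat_lit 4893) (nat_lit 65536)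
 .dd)))))))))) (.br (nat_lit 9) (.ch (nat_lit 7) (.ev (nat_lit 1568) (nat_lit 66624) (.ev (nat_lit 1588)
 (nat_lit 4096) (.ev (nat_lit 1597) (nat_lit 2) .dd)))) (.br (nat_lit 10) (.ch (nat_lit 9) (.ev (nat_lit 1568)
 (nat_lit 4098) (.ev (nat_lit 6368) (nat_lit 64) (.fin (nat_lit 576471197689528870))))) (.ch (nat_lit 10) (.ev
 (nat_lit 1568) (nat_lit 66624) (.ev (nat_lit 1588) (nat_lit 2) (.ev (nat_lit 1597) (nat_lit 4096)
 .dd)))))))))))) (.ch (nat_lit 7) (.ev (nat_lit 960) (nat_lit 68678) (.ev (nat_lit 973) (nat_lit 4096) .dd))))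
 (.br (nat_lit 11) (.ch (nat_lit 10) (.ev (nat_lit 960) (nat_lit 1028) (.nd (nat_lit 1456) (.br (nat_lit 8)
 (.br (nat_lit 3) (.br (nat_lit 2) (.ch (nat_lit 0) (.ev (nat_lit 1472) (nat_lit 2048) (.nd (nat_lit 4224) (.br
 (nat_lit 8) (.br (nat_lit 7) (.ch (nat_lit 3) (.ev (nat_lit 4240) (nat_lit 65600) (.ev (nat_lit 4724) (nat_lit
 2) (.ev (nat_lit 4733) (nat_lit 4096) .dd)))) (.ch (nat_lit 7) (.ev (nat_lit 4240) (nat_lit 4098) (.ev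
 (nat_lit 4356) (nat_lit 65536) (.ev (nat_lit 4365) (nat_lit 64) .dd))))) (.br (nat_lit 10) (.ch (nat_lit 8)
 (.ev (nat_lit 4240) (nat_lit 2) (.ev (nat_lit 4356) (nat_lit 65536) (.ev (nat_lit 5044) (nat_lit 64) (.ev
 (nat_lit 5053) (nat_lit 4096) .dd))))) (.br (nat_lit 11) (.ch (nat_lit 10) (.ev (nat_lit 4240) (nat_lit 4096)
 (.ev (nat_lit 4692) (nat_lit 2) (.ev (nat_lit 4996) (nat_lit 65536) (.ev (nat_lit 5005) (nat_lit 64) .dd)))))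
 (.ch (nat_lit 11) (.ev (nat_lit 4240) (nat_lit 66) (.ev (nat_lit 5444) (nat_lit 65536) (.ev (nat_lit 5453)
 (nat_lit 4096) .dd)))))))))) (.ch (nat_lit 2) (.ev (nat_lit 1472) (nat_lit 67648) (.ev (nat_lit 5856) (nat_lit
 4098) .dd)))) (.br (nat_lit 6) (.ch (nat_lit 3) (.ev (nat_lit 1472) (nat_lit 4162) (.ev (nat_lit 3044)
 (nat_lit 2048) (.ev (nat_lit 3053) (nat_lit 65536) .dd)))) (.ch (nat_lit 6) (.ev (nat_lit 1472) (nat_lit 64)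
 (.nd (nat_lit 4592) (.br (nat_lit 4) (.br (nat_lit 2) (.ch (nat_lit 1) (.ev (nat_lit 4608) (nat_lit 2048) (.ev
 (nat_lit 5492) (nat_lit 2) (.ev (nat_lit 5844) (nat_lit 65536) (.ev (nat_lit 5853) (nat_lit 4096) .dd)))))
 (.ch (nat_lit 2) (.ev (nat_lit 4608) (nat_lit 65536) (.ev (nat_lit 4768) (nat_lit 2) (.ev (nat_lit 6148)
 (nat_lit 4096) (.ev (nat_lit 6157) (nat_lit 2048) .dd)))))) (.br (nat_lit 8) (.ch (nat_lit 4) (.ev (nat_lit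
 4608) (nat_lit 65536) (.ev (nat_lit 4644) (nat_lit 2048) (.ev (nat_lit 4820) (nat_lit 2) (.ev (nat_lit 4829)
 (nat_lit 4096) .dd))))) (.br (nat_lit 12) (.ch (nat_lit 8) (.ev (nat_lit 4608) (nat_lit 2048) (.nd (nat_lit
 8208) (.br (nat_lit 10) (.ch (nat_lit 1) (.ev (nat_lit 8224) (nat_lit 65536) (.fin (nat_lit
 576461302135210660)))) (.ch (nat_lit 10) (.ev (nat_lit 8224) (nat_lit 2) (.fin (nat_lit
 576409625086607678)))))))) (.ch (nat_lit 12) (.ev (nat_lit 4820) (nat_lit 4096) (.ev (nat_lit 5572) (nat_lit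
 2) (.nd (nat_lit 8544) (.br (nat_lit 11) (.ch (nat_lit 7) (.ev (nat_lit 8560) (nat_lit 65536) (.ev (nat_lit
 8573) (nat_lit 2048) .dd))) (.ch (nat_lit 11) (.fin (nat_lit 578220520542520672)))))))))))))))) (.br (nat_lit
 11) (.br (nat_lit 10) (.ch (nat_lit 8) (.ev (nat_lit 1472) (nat_lit 6146) (.nd (nat_lit 4416) (.br (nat_lit 8)
 (.ch (nat_lit 5) (.ev (nat_lit 4644) (nat_lit 65536) (.ev (nat_lit 4653) (nat_lit 64) .dd))) (.br (nat_lit 12)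
 (.ch (nat_lit 8) (.ev (nat_lit 6704) (nat_lit 65600) .dd)) (.ch (nat_lit 12) (.ev (nat_lit 6272) (nat_lit
 65600) .dd))))))) (.ch (nat_lit 10) (.ev (nat_lit 1472) (nat_lit 65536) (.ev (nat_lit 1876) (nat_lit 64) (.ev
 (nat_lit 5444) (nat_lit 2) (.ev (nat_lit 6356) (nat_lit 2048) (.ev (nat_lit 6365) (nat_lit 4096) .dd)))))))
 (.br (nat_lit 12) (.ch (nat_lit 11) (.ev (nat_lit 1472) (nat_lit 69634) (.ev (nat_lit 6900) (nat_lit 2048)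
 (.ev (nat_lit 6909) (nat_lit 64) .dd)))) (.ch (nat_lit 12) (.ev (nat_lit 1472) (nat_lit 64) (.nd (nat_lit
 4592) (.br (nat_lit 8) (.br (nat_lit 4) (.ch (nat_lit 1) (.ev (nat_lit 4608) (nat_lit 2050) (.ev (nat_lit
 5764) (nat_lit 4096) (.ev (nat_lit 5773) (nat_lit 65536) .dd)))) (.br (nat_lit 6) (.ch (nat_lit 4) (.ev
 (nat_lit 4608) (nat_lit 2048) (.ev (nat_lit 4644) (nat_lit 2) (.ev (nat_lit 5876) (nat_lit 65536) (.ev
 (nat_lit 5885) (nat_lit 4096) .dd))))) (.ch (nat_lit 6) (.ev (nat_lit 4608) (nat_lit 65536) (.ev (nat_lit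
 4644) (nat_lit 2) (.ev (nat_lit 6356) (nat_lit 2048) (.ev (nat_lit 6365) (nat_lit 4096) .dd))))))) (.br
 (nat_lit 9) (.ch (nat_lit 8) (.ev (nat_lit 4608) (nat_lit 2048) (.ev (nat_lit 5604) (nat_lit 65536) (.ev
 (nat_lit 5844) (nat_lit 2) (.ev (nat_lit 5853) (nat_lit 4096) .dd))))) (.br (nat_lit 10) (.ch (nat_lit 9) (.ev
 (nat_lit 4608) (nat_lit 2048) (.ev (nat_lit 4644) (nat_lit 2) (.ev (nat_lit 5668) (nat_lit 4096) (.ev (nat_lit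
 5677) (nat_lit 65536) .dd))))) (.ch (nat_lit 10) (.ev (nat_lit 4608) (nat_lit 2050) (.ev (nat_lit 6500)
 (nat_lit 65536) (.ev (nat_lit 6509) (nat_lit 4096) .dd)))))))))))))))) (.br (nat_lit 12) (.ch (nat_lit 11)
 (.ev (nat_lit 960) (nat_lit 71680) (.ev (nat_lit 980) (nat_lit 2) (.nd (nat_lit 1968) (.br (nat_lit 7) (.br
 (nat_lit 1) (.ch (nat_lit 0) (.ev (nat_lit 1984) (nat_lit 1092) .dd)) (.br (nat_lit 6) (.ch (nat_lit 1) (.ev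
 (nat_lit 1984) (nat_lit 64) (.ev (nat_lit 2868) (nat_lit 4) (.ev (nat_lit 2877) (nat_lit 1024) .dd)))) (.ch
 (nat_lit 6) (.ev (nat_lit 2004) (nat_lit 1024) (.ev (nat_lit 3332) (nat_lit 64) (.ev (nat_lit 3341) (nat_lit
 4) .dd)))))) (.br (nat_lit 11) (.br (nat_lit 8) (.ch (nat_lit 7) (.ev (nat_lit 6692) (nat_lit 1024) (.fin
 (nat_lit 576523974523437108)))) (.ch (nat_lit 8) (.ev (nat_lit 3044) (nat_lit 4) (.ev (nat_lit 3764) (nat_lit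
 1024) (.ev (nat_lit 3773) (nat_lit 64) .dd))))) (.br (nat_lit 12) (.ch (nat_lit 11) (.ev (nat_lit 1984)
 (nat_lit 1028) (.ev (nat_lit 1997) (nat_lit 64) .dd))) (.ch (nat_lit 12) (.ev (nat_lit 1984) (nat_lit 4) (.ev
 (nat_lit 5444) (nat_lit 1024) (.ev (nat_lit 5453) (nat_lit 64) .dd))))))))))) (.ch (nat_lit 12) (.ev (nat_lit
 960) (nat_lit 70722) (.ev (nat_lit 1044) (nat_lit 2048) (.ev (nat_lit 1053) (nat_lit 4) .dd)))))))))))) (.br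
 (nat_lit 6) (.ch (nat_lit 5) (.ev (nat_lit 496) (nat_lit 4162) (.nd (nat_lit 1008) (.br (nat_lit 5) (.br
 (nat_lit 2) (.br (nat_lit 1) (.ch (nat_lit 0) (.ev (nat_lit 1024) (nat_lit 256) (.nd (nat_lit 1744) (.br
 (nat_lit 8) (.br (nat_lit 4) (.ch (nat_lit 1) (.ev (nat_lit 1780) (nat_lit 2048) (.ev (nat_lit 5572) (nat_lit
 4) (.ev (nat_lit 5716) (nat_lit 1024) (.ev (nat_lit 5725) (nat_lit 65536) .dd))))) (.br (nat_lit 6) (.ch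
 (nat_lit 4) (.ev (nat_lit 1760) (nat_lit 4) (.ev (nat_lit 1780) (nat_lit 2048) (.ev (nat_lit 5792) (nat_lit
 1024) (.ev (nat_lit 5805) (nat_lit 65536) .dd))))) (.ch (nat_lit 6) (.ev (nat_lit 1760) (nat_lit 68608) (.ev
 (nat_lit 1773) (nat_lit 4) .dd))))) (.br (nat_lit 10) (.br (nat_lit 9) (.ch (nat_lit 8) (.ev (nat_lit 1780)
 (nat_lit 2048) (.ev (nat_lit 5572) (nat_lit 65536) (.ev (nat_lit 6596) (nat_lit 1024) (.ev (nat_lit 6605)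
 (nat_lit 4) .dd))))) (.ch (nat_lit 9) (.nd (nat_lit 4864) (.br (nat_lit 8) (.br (nat_lit 6) (.ch (nat_lit 4)
 (.ev (nat_lit 4880) (nat_lit 4) (.ev (nat_lit 5472) (nat_lit 1024) (.ev (nat_lit 6356) (nat_lit 2048) (.ev
 (nat_lit 6365) (nat_lit 65536) .dd))))) (.ch (nat_lit 6) (.ev (nat_lit 4880) (nat_lit 66560) (.ev (nat_lit
 4932) (nat_lit 2048) (.ev (nat_lit 4941) (nat_lit 4) .dd))))) (.br (nat_lit 9) (.ch (nat_lit 8) (.ev (nat_lit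
 4880) (nat_lit 2052) (.ev (nat_lit 4932) (nat_lit 1024) (.ev (nat_lit 4941) (nat_lit 65536) .dd)))) (.br
 (nat_lit 10) (.ch (nat_lit 9) (.ev (nat_lit 4880) (nat_lit 4) (.ev (nat_lit 4932) (nat_lit 2048) (.nd (nat_lit
 8576) (.br (nat_lit 9) (.ch (nat_lit 4) (.ev (nat_lit 8592) (nat_lit 65536) (.ev (nat_lit 8605) (nat_lit 1024)
 .dd))) (.ch (nat_lit 9) (.fin (nat_lit 576346952867201512)))))))) (.ch (nat_lit 10) (.ev (nat_lit 4880)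
 (nat_lit 2048) (.ev (nat_lit 5540) (nat_lit 4) (.ev (nat_lit 6020) (nat_lit 1024) (.ev (nat_lit 6029) (nat_lit
 65536) .dd))))))))))) (.br (nat_lit 11) (.ch (nat_lit 10) (.ev (nat_lit 1760) (nat_lit 4) (.ev (nat_lit 1780)
 (nat_lit 2048) (.ev (nat_lit 6644) (nat_lit 65536) (.ev (nat_lit 6653) (nat_lit 1024) .dd))))) (.ch (nat_lit
 11) (.ev (nat_lit 1760) (nat_lit 68608) (.ev (nat_lit 1773) (nat_lit 4) .dd))))))))) (.ch (nat_lit 1) (.ev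
 (nat_lit 1024) (nat_lit 260) (.ev (nat_lit 1044) (nat_lit 2048) (.nd (nat_lit 1968) (.br (nat_lit 8) (.br
 (nat_lit 2) (.ch (nat_lit 1) (.ev (nat_lit 1984) (nat_lit 1024) (.ev (nat_lit 1997) (nat_lit 65536) .dd)))
 (.br (nat_lit 5) (.ch (nat_lit 2) (.ev (nat_lit 6260) (nat_lit 1024) (.ev (nat_lit 6269) (nat_lit 65536)
 .dd))) (.ch (nat_lit 5) (.ev (nat_lit 6596) (nat_lit 1024) (.ev (nat_lit 6605) (nat_lit 65536) .dd))))) (.br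
 (nat_lit 10) (.ch (nat_lit 8) (.ev (nat_lit 1984) (nat_lit 65536) (.ev (nat_lit 1997) (nat_lit 1024) .dd)))
 (.br (nat_lit 12) (.ch (nat_lit 10) (.ev (nat_lit 1984) (nat_lit 1024) (.ev (nat_lit 1997) (nat_lit 65536)
 .dd))) (.ch (nat_lit 12) (.fin (nat_lit 573098992546047527))))))))))) (.br (nat_lit 4) (.ch (nat_lit 2) (.ev
 (nat_lit 1024) (nat_lit 66564) (.ev (nat_lit 1044) (nat_lit 256) (.ev (nat_lit 1053) (nat_lit 2048) .dd))))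
 (.ch (nat_lit 4) (.ev (nat_lit 1024) (nat_lit 68608) (.nd (nat_lit 3984) (.br (nat_lit 10) (.ch (nat_lit 1)
 (.ev (nat_lit 6596) (nat_lit 256) (.ev (nat_lit 6605) (nat_lit 4) .dd))) (.ch (nat_lit 10) (.ev (nat_lit 6500)
 (nat_lit 4) (.ev (nat_lit 6509) (nat_lit 256) .dd))))))))) (.br (nat_lit 8) (.br (nat_lit 6) (.ch (nat_lit 5)
 (.ev (nat_lit 1024) (nat_lit 2304) (.nd (nat_lit 1968) (.br (nat_lit 6) (.br (nat_lit 2) (.ch (nat_lit 1) (.ev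
 (nat_lit 5844) (nat_lit 65536) (.ev (nat_lit 5924) (nat_lit 4) (.ev (nat_lit 5933) (nat_lit 1024) .dd)))) (.br
 (nat_lit 4) (.ch (nat_lit 2) (.ev (nat_lit 6260) (nat_lit 4) (.ev (nat_lit 6356) (nat_lit 65536) (.ev (nat_lit
 6365) (nat_lit 1024) .dd)))) (.ch (nat_lit 4) (.ev (nat_lit 6692) (nat_lit 1024) (.ev (nat_lit 6788) (nat_lit
 4) (.ev (nat_lit 6797) (nat_lit 65536) .dd)))))) (.br (nat_lit 7) (.ch (nat_lit 6) (.ev (nat_lit 1984)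
 (nat_lit 1024) (.ev (nat_lit 5716) (nat_lit 65536) (.ev (nat_lit 5725) (nat_lit 4) .dd)))) (.br (nat_lit 8)
 (.ch (nat_lit 7) (.ev (nat_lit 1984) (nat_lit 1024) (.ev (nat_lit 7188) (nat_lit 4) (.ev (nat_lit 7197)
 (nat_lit 65536) .dd)))) (.ch (nat_lit 8) (.ev (nat_lit 1984) (nat_lit 4) (.ev (nat_lit 5044) (nat_lit 65536)
 (.ev (nat_lit 5053) (nat_lit 1024) .dd)))))))))) (.ch (nat_lit 6) (.ev (nat_lit 1024) (nat_lit 67584) (.nd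
 (nat_lit 3408) (.br (nat_lit 9) (.br (nat_lit 6) (.ch (nat_lit 5) (.ev (nat_lit 3424) (nat_lit 1024) (.ev
 (nat_lit 6788) (nat_lit 256) (.ev (nat_lit 6797) (nat_lit 4) .dd)))) (.br (nat_lit 8) (.ch (nat_lit 6) (.ev
 (nat_lit 3424) (nat_lit 1024) (.ev (nat_lit 6500) (nat_lit 4) (.ev (nat_lit 6509) (nat_lit 256) .dd)))) (.ch
 (nat_lit 8) (.ev (nat_lit 6260) (nat_lit 1024) (.nd (nat_lit 7872) (.br (nat_lit 12) (.ch (nat_lit 5) (.ev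
 (nat_lit 7908) (nat_lit 4) (.ev (nat_lit 7917) (nat_lit 256) .dd))) (.ch (nat_lit 12) (.fin (nat_lit
 576409624759452174))))))))) (.br (nat_lit 11) (.br (nat_lit 10) (.ch (nat_lit 9) (.ev (nat_lit 3424) (nat_lit
 1280) (.ev (nat_lit 3437) (nat_lit 4) .dd))) (.ch (nat_lit 10) (.ev (nat_lit 3424) (nat_lit 1024) (.ev
 (nat_lit 5140) (nat_lit 4) (.ev (nat_lit 5149) (nat_lit 256) .dd))))) (.br (nat_lit 12) (.ch (nat_lit 11) (.ev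
 (nat_lit 3424) (nat_lit 1024) (.ev (nat_lit 3476) (nat_lit 4) (.ev (nat_lit 3485) (nat_lit 256) .dd)))) (.ch
 (nat_lit 12) (.ev (nat_lit 3424) (nat_lit 260) (.ev (nat_lit 3437) (nat_lit 1024) .dd)))))))))) (.br (nat_lit
 10) (.ch (nat_lit 8) (.ev (nat_lit 1024) (nat_lit 2048) (.nd (nat_lit 1968) (.br (nat_lit 3) (.br (nat_lit 1)
 (.ch (nat_lit 0) (.ev (nat_lit 1984) (nat_lit 66560) (.ev (nat_lit 2212) (nat_lit 4) (.ev (nat_lit 2221)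
 (nat_lit 256) .dd)))) (.br (nat_lit 2) (.ch (nat_lit 1) (.ev (nat_lit 1984) (nat_lit 260) (.ev (nat_lit 5044)
 (nat_lit 65536) (.ev (nat_lit 5053) (nat_lit 1024) .dd)))) (.ch (nat_lit 2) (.ev (nat_lit 1984) (nat_lit
 65536) (.ev (nat_lit 3812) (nat_lit 256) (.ev (nat_lit 3844) (nat_lit 1024) (.ev (nat_lit 3853) (nat_lit 4)
 .dd))))))) (.br (nat_lit 9) (.br (nat_lit 5) (.ch (nat_lit 3) (.ev (nat_lit 2788) (nat_lit 1024) (.ev (nat_lit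
 6608) (nat_lit 4) (.nd (nat_lit 7632) (.ch (nat_lit 6) (.nd (nat_lit 9088) (.br (nat_lit 8) (.ch (nat_lit 3)
 (.fin (nat_lit 576444809346499156))) (.ch (nat_lit 8) (.ev (nat_lit 9108) (nat_lit 256) (.ev (nat_lit 9117)
 (nat_lit 65536) .dd)))))))))) (.ch (nat_lit 5) (.ev (nat_lit 1984) (nat_lit 1024) (.ev (nat_lit 2244) (nat_lit
 65536) (.ev (nat_lit 2820) (nat_lit 4) (.ev (nat_lit 2829) (nat_lit 256) .dd)))))) (.br (nat_lit 12) (.ch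
 (nat_lit 9) (.ev (nat_lit 1984) (nat_lit 65536) (.ev (nat_lit 7072) (nat_lit 1024) (.fin (nat_lit
 576477794721546817))))) (.ch (nat_lit 12) (.ev (nat_lit 1984) (nat_lit 256) (.ev (nat_lit 2004) (nat_lit 1024)
 (.ev (nat_lit 5776) (nat_lit 65540) .dd)))))))))) (.br (nat_lit 12) (.ch (nat_lit 10) (.ev (nat_lit 1024)
 (nat_lit 1284) (.nd (nat_lit 2624) (.br (nat_lit 8) (.br (nat_lit 3) (.ch (nat_lit 0) (.ev (nat_lit 3504)
 (nat_lit 67584) .dd)) (.ch (nat_lit 3) (.ev (nat_lit 2676) (nat_lit 65536) (.ev (nat_lit 2685) (nat_lit 2048)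
 .dd)))) (.br (nat_lit 9) (.ch (nat_lit 8) (.ev (nat_lit 3652) (nat_lit 65536) (.ev (nat_lit 3661) (nat_lit
 2048) .dd))) (.ch (nat_lit 9) (.ev (nat_lit 2676) (nat_lit 65536) (.ev (nat_lit 2685) (nat_lit 2048)
 .dd)))))))) (.ch (nat_lit 12) (.ev (nat_lit 1024) (nat_lit 4) (.nd (nat_lit 1968) (.br (nat_lit 8) (.br
 (nat_lit 3) (.ch (nat_lit 0) (.ev (nat_lit 1984) (nat_lit 65536) (.ev (nat_lit 3504) (nat_lit 256) (.ev
 (nat_lit 6644) (nat_lit 2048) (.ev (nat_lit 6653) (nat_lit 1024) .dd))))) (.br (nat_lit 7) (.ch (nat_lit 3)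
 (.ev (nat_lit 1984) (nat_lit 2304) (.ev (nat_lit 6464) (nat_lit 65536) (.ev (nat_lit 6477) (nat_lit 1024)
 .dd)))) (.ch (nat_lit 7) (.ev (nat_lit 2004) (nat_lit 66560) (.ev (nat_lit 2180) (nat_lit 2048) (.ev (nat_lit
 2189) (nat_lit 256) .dd)))))) (.br (nat_lit 11) (.br (nat_lit 10) (.ch (nat_lit 8) (.ev (nat_lit 1984)
 (nat_lit 65536) (.ev (nat_lit 2004) (nat_lit 2048) (.ev (nat_lit 2048) (nat_lit 256) (.ev (nat_lit 2061)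
 (nat_lit 1024) .dd))))) (.ch (nat_lit 10) (.ev (nat_lit 2788) (nat_lit 2048) (.ev (nat_lit 3300) (nat_lit 256)
 (.ev (nat_lit 4996) (nat_lit 65536) (.ev (nat_lit 5005) (nat_lit 1024) .dd)))))) (.br (nat_lit 12) (.ch
 (nat_lit 11) (.ev (nat_lit 1984) (nat_lit 3328) (.ev (nat_lit 1997) (nat_lit 65536) .dd))) (.ch (nat_lit 12)
 (.ev (nat_lit 1984) (nat_lit 256) (.ev (nat_lit 2004) (nat_lit 2048) (.ev (nat_lit 6644) (nat_lit 1024) (.ev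
 (nat_lit 6653) (nat_lit 65536) .dd)))))))))))))))))) (.ch (nat_lit 6) (.ev (nat_lit 496) (nat_lit 6146) (.nd
 (nat_lit 1168) (.br (nat_lit 5) (.br (nat_lit 2) (.br (nat_lit 1) (.ch (nat_lit 0) (.ev (nat_lit 1184)
 (nat_lit 65540) (.nd (nat_lit 2624) (.br (nat_lit 6) (.br (nat_lit 4) (.ch (nat_lit 2) (.ev (nat_lit 2640)
 (nat_lit 64) (.ev (nat_lit 2676) (nat_lit 256) (.ev (nat_lit 2685) (nat_lit 1024) .dd)))) (.ch (nat_lit 4)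
 (.ev (nat_lit 2640) (nat_lit 64) (.ev (nat_lit 2676) (nat_lit 256) (.ev (nat_lit 2685) (nat_lit 1024) .dd)))))
 (.br (nat_lit 12) (.ch (nat_lit 6) (.ev (nat_lit 2640) (nat_lit 1024) (.ev (nat_lit 5572) (nat_lit 256) (.ev
 (nat_lit 5581) (nat_lit 64) .dd)))) (.ch (nat_lit 12) (.ev (nat_lit 2640) (nat_lit 64) (.ev (nat_lit 6596)
 (nat_lit 256) (.ev (nat_lit 6605) (nat_lit 1024) .dd))))))))) (.ch (nat_lit 1) (.ev (nat_lit 1184) (nat_lit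
 1344) (.nd (nat_lit 3408) (.br (nat_lit 4) (.br (nat_lit 3) (.ch (nat_lit 2) (.ev (nat_lit 3476) (nat_lit
 65536) (.ev (nat_lit 3485) (nat_lit 4) .dd))) (.ch (nat_lit 3) (.ev (nat_lit 3424) (nat_lit 4) (.ev (nat_lit
 3437) (nat_lit 65536) .dd)))) (.br (nat_lit 6) (.ch (nat_lit 4) (.ev (nat_lit 3424) (nat_lit 4) (.ev (nat_lit
 3437) (nat_lit 65536) .dd))) (.br (nat_lit 10) (.ch (nat_lit 6) (.ev (nat_lit 3424) (nat_lit 65536) (.ev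
 (nat_lit 3437) (nat_lit 4) .dd))) (.ch (nat_lit 10) (.ev (nat_lit 5776) (nat_lit 65536) (.ev (nat_lit 5789)
 (nat_lit 4) .dd)))))))))) (.br (nat_lit 4) (.ch (nat_lit 2) (.ev (nat_lit 1184) (nat_lit 66560) (.nd (nat_lit
 2624) (.br (nat_lit 6) (.br (nat_lit 3) (.ch (nat_lit 0) (.ev (nat_lit 2640) (nat_lit 256) (.ev (nat_lit 3764)
 (nat_lit 64) (.ev (nat_lit 3773) (nat_lit 4) .dd)))) (.br (nat_lit 4) (.ch (nat_lit 3) (.ev (nat_lit 2640)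
 (nat_lit 256) (.ev (nat_lit 6644) (nat_lit 4) (.ev (nat_lit 6653) (nat_lit 64) .dd)))) (.ch (nat_lit 4) (.ev
 (nat_lit 2640) (nat_lit 68) (.ev (nat_lit 2653) (nat_lit 256) .dd))))) (.br (nat_lit 8) (.br (nat_lit 7) (.ch
 (nat_lit 6) (.ev (nat_lit 2640) (nat_lit 320) (.ev (nat_lit 2653) (nat_lit 4) .dd))) (.ch (nat_lit 7) (.ev
 (nat_lit 2640) (nat_lit 4) (.ev (nat_lit 2900) (nat_lit 256) (.ev (nat_lit 2909) (nat_lit 64) .dd))))) (.br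
 (nat_lit 12) (.ch (nat_lit 8) (.ev (nat_lit 2676) (nat_lit 4) (.ev (nat_lit 3540) (nat_lit 64) (.ev (nat_lit
 3549) (nat_lit 256) .dd)))) (.ch (nat_lit 12) (.ev (nat_lit 5876) (nat_lit 256) (.ev (nat_lit 6912) (nat_lit
 4) (.ev (nat_lit 6925) (nat_lit 64) .dd)))))))))) (.ch (nat_lit 4) (.nd (nat_lit 2128) (.br (nat_lit 8) (.br
 (nat_lit 6) (.br (nat_lit 3) (.ch (nat_lit 0) (.ev (nat_lit 2144) (nat_lit 1280) (.ev (nat_lit 2788) (nat_lit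
 65536) (.ev (nat_lit 3540) (nat_lit 64) (.ev (nat_lit 3549) (nat_lit 4) .dd))))) (.ch (nat_lit 3) (.ev
 (nat_lit 2144) (nat_lit 324) (.fin (nat_lit 576812046203961465))))) (.br (nat_lit 7) (.ch (nat_lit 6) (.ev
 (nat_lit 2144) (nat_lit 68) (.ev (nat_lit 2388) (nat_lit 256) (.ev (nat_lit 2900) (nat_lit 1024) (.ev (nat_lit
 2909) (nat_lit 65536) .dd))))) (.ch (nat_lit 7) (.ev (nat_lit 2144) (nat_lit 65536) (.ev (nat_lit 2452)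
 (nat_lit 1024) (.ev (nat_lit 3812) (nat_lit 64) (.ev (nat_lit 5188) (nat_lit 256) (.ev (nat_lit 5197) (nat_lit
 4) .dd)))))))) (.br (nat_lit 10) (.br (nat_lit 9) (.ch (nat_lit 8) (.ev (nat_lit 2144) (nat_lit 65792) (.ev
 (nat_lit 3540) (nat_lit 64) (.ev (nat_lit 6596) (nat_lit 4) (.ev (nat_lit 6605) (nat_lit 1024) .dd))))) (.ch
 (nat_lit 9) (.ev (nat_lit 2144) (nat_lit 66624) (.ev (nat_lit 6192) (nat_lit 260) .dd)))) (.br (nat_lit 12)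
 (.ch (nat_lit 10) (.ev (nat_lit 2144) (nat_lit 1280) (.ev (nat_lit 2452) (nat_lit 65536) (.ev (nat_lit 3604)
 (nat_lit 64) (.ev (nat_lit 3613) (nat_lit 4) .dd))))) (.ch (nat_lit 12) (.ev (nat_lit 2144) (nat_lit 65536)
 (.ev (nat_lit 2388) (nat_lit 256) (.ev (nat_lit 5188) (nat_lit 4) (.ev (nat_lit 5236) (nat_lit 64) (.ev
 (nat_lit 5245) (nat_lit 1024) .dd))))))))))))) (.br (nat_lit 7) (.br (nat_lit 6) (.ch (nat_lit 5) (.ev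
 (nat_lit 1184) (nat_lit 324) (.nd (nat_lit 3408) (.br (nat_lit 7) (.ch (nat_lit 2) (.ev (nat_lit 3476)
 (nat_lit 1024) (.ev (nat_lit 3485) (nat_lit 65536) .dd))) (.br (nat_lit 11) (.ch (nat_lit 7) (.ev (nat_lit
 3424) (nat_lit 65536) (.ev (nat_lit 3437) (nat_lit 1024) .dd))) (.ch (nat_lit 11) (.ev (nat_lit 6596) (nat_lit
 65536) (.ev (nat_lit 6605) (nat_lit 1024) .dd)))))))) (.ch (nat_lit 6) (.ev (nat_lit 1184) (nat_lit 65536)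
 (.nd (nat_lit 1968) (.br (nat_lit 6) (.br (nat_lit 3) (.br (nat_lit 2) (.ch (nat_lit 0) (.ev (nat_lit 1984)
 (nat_lit 256) (.ev (nat_lit 2676) (nat_lit 64) (.ev (nat_lit 4932) (nat_lit 1024) (.ev (nat_lit 4941) (nat_lit
 4) .dd))))) (.ch (nat_lit 2) (.ev (nat_lit 2004) (nat_lit 256) (.ev (nat_lit 2740) (nat_lit 64) (.fin (nat_lit
 576460202549133881)))))) (.br (nat_lit 4) (.ch (nat_lit 3) (.ev (nat_lit 1984) (nat_lit 64) (.ev (nat_lit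
 2004) (nat_lit 1024) (.ev (nat_lit 3604) (nat_lit 256) (.ev (nat_lit 3613) (nat_lit 4) .dd))))) (.ch (nat_lit
 4) (.ev (nat_lit 1984) (nat_lit 1088) (.ev (nat_lit 2004) (nat_lit 256) (.ev (nat_lit 2013) (nat_lit 4)
 .dd)))))) (.br (nat_lit 9) (.br (nat_lit 8) (.ch (nat_lit 6) (.ev (nat_lit 1984) (nat_lit 260) (.ev (nat_lit
 2452) (nat_lit 1024) (.ev (nat_lit 2461) (nat_lit 64) .dd)))) (.ch (nat_lit 8) (.ev (nat_lit 1984) (nat_lit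
 1024) (.ev (nat_lit 3652) (nat_lit 256) (.ev (nat_lit 3792) (nat_lit 64) (.ev (nat_lit 3805) (nat_lit 4)
 .dd)))))) (.br (nat_lit 11) (.ch (nat_lit 9) (.ev (nat_lit 1984) (nat_lit 260) (.ev (nat_lit 2740) (nat_lit
 64) (.ev (nat_lit 2749) (nat_lit 1024) .dd)))) (.ch (nat_lit 11) (.ev (nat_lit 1984) (nat_lit 1280) (.ev
 (nat_lit 2740) (nat_lit 64) (.ev (nat_lit 2749) (nat_lit 4) .dd))))))))))) (.br (nat_lit 9) (.ch (nat_lit 7)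
 (.ev (nat_lit 1184) (nat_lit 320) (.nd (nat_lit 2128) (.br (nat_lit 4) (.br (nat_lit 1) (.ch (nat_lit 0) (.ev
 (nat_lit 2144) (nat_lit 65536) (.ev (nat_lit 2800) (nat_lit 1028) .dd))) (.br (nat_lit 2) (.ch (nat_lit 1)
 (.ev (nat_lit 2900) (nat_lit 1024) (.ev (nat_lit 3044) (nat_lit 4) (.ev (nat_lit 3053) (nat_lit 65536) .dd))))
 (.ch (nat_lit 2) (.ev (nat_lit 2144) (nat_lit 1024) (.ev (nat_lit 2388) (nat_lit 4) (.ev (nat_lit 2397)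
 (nat_lit 65536) .dd)))))) (.br (nat_lit 11) (.br (nat_lit 8) (.ch (nat_lit 4) (.ev (nat_lit 2164) (nat_lit
 1024) (.ev (nat_lit 2388) (nat_lit 4) (.ev (nat_lit 2397) (nat_lit 65536) .dd)))) (.ch (nat_lit 8) (.ev
 (nat_lit 2144) (nat_lit 1024) (.ev (nat_lit 2820) (nat_lit 65536) (.ev (nat_lit 2829) (nat_lit 4) .dd)))))
 (.br (nat_lit 12) (.ch (nat_lit 11) (.ev (nat_lit 2144) (nat_lit 65540) (.ev (nat_lit 2157) (nat_lit 1024)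
 .dd))) (.ch (nat_lit 12) (.ev (nat_lit 2372) (nat_lit 4) (.ev (nat_lit 3056) (nat_lit 1024) (.ev (nat_lit
 3069) (nat_lit 65536) .dd)))))))))) (.br (nat_lit 10) (.ch (nat_lit 9) (.ev (nat_lit 1184) (nat_lit 68) (.nd
 (nat_lit 2624) (.br (nat_lit 5) (.br (nat_lit 3) (.ch (nat_lit 2) (.ev (nat_lit 2640) (nat_lit 65536) (.ev
 (nat_lit 2740) (nat_lit 256) (.ev (nat_lit 2749) (nat_lit 1024) .dd)))) (.br (nat_lit 4) (.ch (nat_lit 3) (.ev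
 (nat_lit 2640) (nat_lit 65536) (.ev (nat_lit 5364) (nat_lit 1024) (.ev (nat_lit 5373) (nat_lit 256) .dd))))
 (.ch (nat_lit 4) (.ev (nat_lit 2640) (nat_lit 65536) (.ev (nat_lit 2740) (nat_lit 256) (.ev (nat_lit 2749)
 (nat_lit 1024) .dd)))))) (.br (nat_lit 8) (.ch (nat_lit 5) (.ev (nat_lit 2640) (nat_lit 256) (.ev (nat_lit
 2740) (nat_lit 65536) (.ev (nat_lit 2749) (nat_lit 1024) .dd)))) (.br (nat_lit 11) (.ch (nat_lit 8) (.ev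
 (nat_lit 2676) (nat_lit 1024) (.ev (nat_lit 2740) (nat_lit 256) (.ev (nat_lit 2749) (nat_lit 65536) .dd))))
 (.ch (nat_lit 11) (.ev (nat_lit 2676) (nat_lit 256) (.ev (nat_lit 5444) (nat_lit 65536) (.ev (nat_lit 5453)
 (nat_lit 1024) .dd)))))))))) (.ch (nat_lit 10) (.ev (nat_lit 1184) (nat_lit 66816) (.ev (nat_lit 1332)
 (nat_lit 64) (.ev (nat_lit 1341) (nat_lit 4) .dd))))))))))))) (.br (nat_lit 9) (.br (nat_lit 8) (.ch (nat_lit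
 7) (.ev (nat_lit 496) (nat_lit 72704) (.ev (nat_lit 516) (nat_lit 2) (.nd (nat_lit 1168) (.br (nat_lit 5) (.br
 (nat_lit 3) (.br (nat_lit 1) (.ch (nat_lit 0) (.ev (nat_lit 1184) (nat_lit 320) (.ev (nat_lit 1197) (nat_lit
 4) .dd))) (.ch (nat_lit 1) (.ev (nat_lit 1184) (nat_lit 4) (.nd (nat_lit 3408) (.br (nat_lit 10) (.br (nat_lit
 3) (.ch (nat_lit 0) (.ev (nat_lit 4132) (nat_lit 256) (.ev (nat_lit 4141) (nat_lit 64) .dd))) (.ch (nat_lit 3)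
 (.ev (nat_lit 3476) (nat_lit 64) (.ev (nat_lit 3485) (nat_lit 256) .dd)))) (.br (nat_lit 11) (.ch (nat_lit 10)
 (.ev (nat_lit 6020) (nat_lit 64) (.ev (nat_lit 6029) (nat_lit 256) .dd))) (.ch (nat_lit 11) (.ev (nat_lit
 5540) (nat_lit 256) (.ev (nat_lit 5549) (nat_lit 64) .dd))))))))) (.br (nat_lit 4) (.ch (nat_lit 3) (.ev
 (nat_lit 1184) (nat_lit 256) (.ev (nat_lit 1204) (nat_lit 64) (.ev (nat_lit 1213) (nat_lit 4) .dd)))) (.ch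
 (nat_lit 4) (.ev (nat_lit 1184) (nat_lit 4) (.ev (nat_lit 2948) (nat_lit 64) (.ev (nat_lit 2957) (nat_lit 256)
 .dd)))))) (.br (nat_lit 9) (.br (nat_lit 8) (.ch (nat_lit 5) (.ev (nat_lit 1184) (nat_lit 64) (.ev (nat_lit
 3700) (nat_lit 4) (.ev (nat_lit 3709) (nat_lit 256) .dd)))) (.ch (nat_lit 8) (.ev (nat_lit 1184) (nat_lit 4)
 (.nd (nat_lit 3408) (.br (nat_lit 9) (.ch (nat_lit 7) (.ev (nat_lit 3476) (nat_lit 64) (.ev (nat_lit 3485)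
 (nat_lit 256) .dd))) (.br (nat_lit 11) (.ch (nat_lit 9) (.ev (nat_lit 3812) (nat_lit 256) (.ev (nat_lit 3821)
 (nat_lit 64) .dd))) (.ch (nat_lit 11) (.ev (nat_lit 3540) (nat_lit 256) (.ev (nat_lit 3549) (nat_lit 64)
 .dd))))))))) (.br (nat_lit 10) (.ch (nat_lit 9) (.ev (nat_lit 2868) (nat_lit 256) (.nd (nat_lit 3984) (.br
 (nat_lit 8) (.br (nat_lit 4) (.ch (nat_lit 0) (.fin (nat_lit 576377739161321890))) (.br (nat_lit 7) (.ch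
 (nat_lit 4) (.ev (nat_lit 4020) (nat_lit 4) (.ev (nat_lit 4029) (nat_lit 64) .dd))) (.ch (nat_lit 7) (.ev
 (nat_lit 4020) (nat_lit 4) (.ev (nat_lit 4029) (nat_lit 64) .dd))))) (.br (nat_lit 10) (.ch (nat_lit 8) (.ev
 (nat_lit 4000) (nat_lit 68) .dd)) (.br (nat_lit 12) (.ch (nat_lit 10) (.ev (nat_lit 4000) (nat_lit 4) (.ev
 (nat_lit 4013) (nat_lit 64) .dd))) (.ch (nat_lit 12) (.ev (nat_lit 6356) (nat_lit 4) (.ev (nat_lit 6365)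
 (nat_lit 64) .dd))))))))) (.br (nat_lit 11) (.ch (nat_lit 10) (.nd (nat_lit 3408) (.br (nat_lit 4) (.br
 (nat_lit 2) (.ch (nat_lit 0) (.ev (nat_lit 5716) (nat_lit 320) (.ev (nat_lit 5725) (nat_lit 4) .dd))) (.br
 (nat_lit 3) (.ch (nat_lit 2) (.ev (nat_lit 3424) (nat_lit 64) (.fin (nat_lit 576152339047989196)))) (.ch
 (nat_lit 3) (.ev (nat_lit 3424) (nat_lit 64) (.ev (nat_lit 5236) (nat_lit 4) (.ev (nat_lit 5245) (nat_lit 256)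
 .dd)))))) (.br (nat_lit 10) (.br (nat_lit 8) (.ch (nat_lit 4) (.ev (nat_lit 3424) (nat_lit 4) (.ev (nat_lit
 3476) (nat_lit 256) (.ev (nat_lit 3485) (nat_lit 64) .dd)))) (.ch (nat_lit 8) (.ev (nat_lit 3424) (nat_lit
 260) (.ev (nat_lit 3437) (nat_lit 64) .dd)))) (.br (nat_lit 11) (.ch (nat_lit 10) (.ev (nat_lit 3424) (nat_lit
 4) (.ev (nat_lit 3476) (nat_lit 64) (.ev (nat_lit 3485) (nat_lit 256) .dd)))) (.ch (nat_lit 11) (.ev (nat_lit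
 3424) (nat_lit 4) (.ev (nat_lit 3476) (nat_lit 64) (.ev (nat_lit 3485) (nat_lit 256) .dd))))))))) (.ch
 (nat_lit 11) (.ev (nat_lit 1184) (nat_lit 320) (.ev (nat_lit 1197) (nat_lit 4) .dd))))))))))) (.ch (nat_lit 8)
 (.ev (nat_lit 496) (nat_lit 67588) (.nd (nat_lit 1168) (.br (nat_lit 4) (.br (nat_lit 2) (.br (nat_lit 1) (.ch
 (nat_lit 0) (.ev (nat_lit 1184) (nat_lit 320) (.ev (nat_lit 1204) (nat_lit 1024) (.nd (nat_lit 2336) (.br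
 (nat_lit 10) (.br (nat_lit 2) (.ch (nat_lit 0) (.ev (nat_lit 2372) (nat_lit 4096) (.ev (nat_lit 2381) (nat_lit
 2) .dd))) (.ch (nat_lit 2) (.ev (nat_lit 2352) (nat_lit 2) (.ev (nat_lit 2365) (nat_lit 4096) .dd)))) (.br
 (nat_lit 11) (.ch (nat_lit 10) (.ev (nat_lit 2372) (nat_lit 4096) (.ev (nat_lit 2381) (nat_lit 2) .dd))) (.br
 (nat_lit 12) (.ch (nat_lit 11) (.ev (nat_lit 3552) (nat_lit 4096) (.ev (nat_lit 3565) (nat_lit 2) .dd))) (.ch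
 (nat_lit 12) (.ev (nat_lit 2372) (nat_lit 4096) (.ev (nat_lit 2381) (nat_lit 2) .dd)))))))))) (.ch (nat_lit 1)
 (.ev (nat_lit 1184) (nat_lit 1024) (.ev (nat_lit 1204) (nat_lit 2) (.nd (nat_lit 3408) (.br (nat_lit 5) (.br
 (nat_lit 2) (.ch (nat_lit 1) (.ev (nat_lit 3424) (nat_lit 64) (.fin (nat_lit 576462401565049398)))) (.br
 (nat_lit 4) (.ch (nat_lit 2) (.ev (nat_lit 3424) (nat_lit 4096) (.ev (nat_lit 3476) (nat_lit 256) (.ev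
 (nat_lit 3485) (nat_lit 64) .dd)))) (.ch (nat_lit 4) (.ev (nat_lit 3424) (nat_lit 4096) (.ev (nat_lit 3476)
 (nat_lit 64) (.ev (nat_lit 3485) (nat_lit 256) .dd)))))) (.br (nat_lit 10) (.br (nat_lit 8) (.ch (nat_lit 5)
 (.ev (nat_lit 3424) (nat_lit 256) (.ev (nat_lit 3476) (nat_lit 4096) (.ev (nat_lit 3485) (nat_lit 64) .dd))))
 (.ch (nat_lit 8) (.ev (nat_lit 3476) (nat_lit 4352) (.ev (nat_lit 3485) (nat_lit 64) .dd)))) (.br (nat_lit 12)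
 (.ch (nat_lit 10) (.ev (nat_lit 3424) (nat_lit 320) (.ev (nat_lit 3437) (nat_lit 4096) .dd))) (.ch (nat_lit
 12) (.ev (nat_lit 3476) (nat_lit 4352) (.ev (nat_lit 3485) (nat_lit 64) .dd))))))))))) (.br (nat_lit 3) (.ch
 (nat_lit 2) (.ev (nat_lit 1184) (nat_lit 2) (.ev (nat_lit 1204) (nat_lit 1024) (.nd (nat_lit 2336) (.br
 (nat_lit 4) (.br (nat_lit 1) (.ch (nat_lit 0) (.ev (nat_lit 2352) (nat_lit 4096) (.ev (nat_lit 3044) (nat_lit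
 64) (.ev (nat_lit 3053) (nat_lit 256) .dd)))) (.br (nat_lit 3) (.ch (nat_lit 1) (.ev (nat_lit 2352) (nat_lit
 256) (.ev (nat_lit 2372) (nat_lit 4096) (.ev (nat_lit 2381) (nat_lit 64) .dd)))) (.ch (nat_lit 3) (.ev
 (nat_lit 2352) (nat_lit 256) (.ev (nat_lit 2704) (nat_lit 4096) (.ev (nat_lit 2717) (nat_lit 64) .dd))))))
 (.br (nat_lit 11) (.ch (nat_lit 4) (.ev (nat_lit 2352) (nat_lit 64) (.ev (nat_lit 2372) (nat_lit 4096) (.ev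
 (nat_lit 2381) (nat_lit 256) .dd)))) (.br (nat_lit 12) (.ch (nat_lit 11) (.ev (nat_lit 3152) (nat_lit 256)
 (.fin (nat_lit 576471197673800266)))) (.ch (nat_lit 12) (.ev (nat_lit 2352) (nat_lit 4096) (.ev (nat_lit 2740)
 (nat_lit 64) (.ev (nat_lit 2749) (nat_lit 256) .dd))))))))))) (.ch (nat_lit 3) (.ev (nat_lit 1184) (nat_lit
 4162) (.ev (nat_lit 3476) (nat_lit 256) (.ev (nat_lit 3485) (nat_lit 1024) .dd)))))) (.br (nat_lit 7) (.br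
 (nat_lit 6) (.ch (nat_lit 4) (.ev (nat_lit 1184) (nat_lit 4096) (.ev (nat_lit 1204) (nat_lit 1024) (.nd
 (nat_lit 2336) (.br (nat_lit 9) (.br (nat_lit 2) (.ch (nat_lit 1) (.ev (nat_lit 2352) (nat_lit 64) (.ev
 (nat_lit 2372) (nat_lit 2) (.ev (nat_lit 2381) (nat_lit 256) .dd)))) (.ch (nat_lit 2) (.ev (nat_lit 2352)
 (nat_lit 66) (.ev (nat_lit 2365) (nat_lit 256) .dd)))) (.br (nat_lit 10) (.ch (nat_lit 9) (.ev (nat_lit 2676)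
 (nat_lit 256) (.ev (nat_lit 6512) (nat_lit 64) (.ev (nat_lit 6525) (nat_lit 2) .dd)))) (.br (nat_lit 12) (.ch
 (nat_lit 10) (.ev (nat_lit 2352) (nat_lit 66) (.ev (nat_lit 2365) (nat_lit 256) .dd))) (.ch (nat_lit 12) (.ev
 (nat_lit 2676) (nat_lit 256) (.ev (nat_lit 3012) (nat_lit 2) (.ev (nat_lit 3021) (nat_lit 64) .dd)))))))))))
 (.ch (nat_lit 6) (.ev (nat_lit 1184) (nat_lit 5122) (.ev (nat_lit 2900) (nat_lit 256) (.ev (nat_lit 2909)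
 (nat_lit 64) .dd))))) (.br (nat_lit 9) (.ch (nat_lit 7) (.ev (nat_lit 1184) (nat_lit 5120) (.ev (nat_lit 1364)
 (nat_lit 64) (.nd (nat_lit 2336) (.br (nat_lit 5) (.br (nat_lit 3) (.ch (nat_lit 1) (.ev (nat_lit 2352)
 (nat_lit 2) (.ev (nat_lit 2365) (nat_lit 256) .dd))) (.br (nat_lit 4) (.ch (nat_lit 3) (.ev (nat_lit 2352)
 (nat_lit 2) (.ev (nat_lit 2365) (nat_lit 256) .dd))) (.ch (nat_lit 4) (.fin (nat_lit 576463501194117627)))))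
 (.br (nat_lit 6) (.ch (nat_lit 5) (.ev (nat_lit 2352) (nat_lit 256) (.ev (nat_lit 2365) (nat_lit 2) .dd)))
 (.br (nat_lit 10) (.ch (nat_lit 6) (.ev (nat_lit 2564) (nat_lit 2) (.ev (nat_lit 2573) (nat_lit 256) .dd)))
 (.ch (nat_lit 10) (.ev (nat_lit 2352) (nat_lit 2) (.ev (nat_lit 2365) (nat_lit 256) .dd)))))))))) (.br
 (nat_lit 12) (.ch (nat_lit 9) (.ev (nat_lit 1184) (nat_lit 322) (.ev (nat_lit 3812) (nat_lit 1024) (.ev
 (nat_lit 3821) (nat_lit 4096) .dd)))) (.ch (nat_lit 12) (.ev (nat_lit 1184) (nat_lit 256) (.nd (nat_lit 1968)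
 (.br (nat_lit 5) (.br (nat_lit 3) (.ch (nat_lit 2) (.ev (nat_lit 1984) (nat_lit 66) (.ev (nat_lit 2164)
 (nat_lit 4096) (.ev (nat_lit 2173) (nat_lit 1024) .dd)))) (.br (nat_lit 4) (.ch (nat_lit 3) (.ev (nat_lit
 1984) (nat_lit 4098) (.ev (nat_lit 2740) (nat_lit 1024) (.ev (nat_lit 2749) (nat_lit 64) .dd)))) (.ch (nat_lit
 4) (.ev (nat_lit 1984) (nat_lit 1088) (.ev (nat_lit 2164) (nat_lit 4096) (.ev (nat_lit 2173) (nat_lit 2)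
 .dd)))))) (.br (nat_lit 9) (.br (nat_lit 7) (.ch (nat_lit 5) (.ev (nat_lit 1984) (nat_lit 1088) (.ev (nat_lit
 2164) (nat_lit 4096) (.ev (nat_lit 2173) (nat_lit 2) .dd)))) (.ch (nat_lit 7) (.ev (nat_lit 1984) (nat_lit
 1024) (.ev (nat_lit 2004) (nat_lit 2) (.ev (nat_lit 2164) (nat_lit 4096) (.ev (nat_lit 2173) (nat_lit 64)
 .dd)))))) (.br (nat_lit 10) (.ch (nat_lit 9) (.ev (nat_lit 1984) (nat_lit 1088) (.ev (nat_lit 2004) (nat_lit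
 2) (.ev (nat_lit 2013) (nat_lit 4096) .dd)))) (.ch (nat_lit 10) (.ev (nat_lit 2260) (nat_lit 2) (.ev (nat_lit
 2820) (nat_lit 1024) (.ev (nat_lit 2900) (nat_lit 4096) (.ev (nat_lit 2909) (nat_lit 64)
 .dd))))))))))))))))))) (.br (nat_lit 10) (.ch (nat_lit 9) (.ev (nat_lit 496) (nat_lit 1350) (.nd (nat_lit
 1264) (.br (nat_lit 5) (.br (nat_lit 1) (.ch (nat_lit 0) (.ev (nat_lit 1280) (nat_lit 65536) (.ev (nat_lit
 1332) (nat_lit 2048) (.ev (nat_lit 1341) (nat_lit 4096) .dd)))) (.br (nat_lit 4) (.ch (nat_lit 1) (.ev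
 (nat_lit 1280) (nat_lit 4096) (.ev (nat_lit 1380) (nat_lit 65536) (.ev (nat_lit 1389) (nat_lit 2048) .dd))))
 (.ch (nat_lit 4) (.ev (nat_lit 1300) (nat_lit 4096) (.ev (nat_lit 1332) (nat_lit 2048) (.ev (nat_lit 1341)
 (nat_lit 65536) .dd)))))) (.br (nat_lit 8) (.br (nat_lit 6) (.ch (nat_lit 5) (.ev (nat_lit 1280) (nat_lit
 2048) (.ev (nat_lit 1364) (nat_lit 65536) (.ev (nat_lit 1373) (nat_lit 4096) .dd)))) (.ch (nat_lit 6) (.ev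
 (nat_lit 1280) (nat_lit 2048) (.ev (nat_lit 1300) (nat_lit 65536) (.ev (nat_lit 1309) (nat_lit 4096) .dd)))))
 (.br (nat_lit 11) (.ch (nat_lit 8) (.ev (nat_lit 1280) (nat_lit 65536) (.fin (nat_lit 576437112820679211))))
 (.ch (nat_lit 11) (.ev (nat_lit 1300) (nat_lit 4096) (.nd (nat_lit 3984) (.br (nat_lit 2) (.ch (nat_lit 0)
 (.ev (nat_lit 4000) (nat_lit 65536) (.ev (nat_lit 4013) (nat_lit 2048) .dd))) (.br (nat_lit 10) (.ch (nat_lit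
 2) (.ev (nat_lit 4000) (nat_lit 2048) (.ev (nat_lit 4013) (nat_lit 65536) .dd))) (.ch (nat_lit 10) (.fin
 (nat_lit 576425018138247737)))))))))))))) (.br (nat_lit 11) (.ch (nat_lit 10) (.ev (nat_lit 496) (nat_lit 64)
 (.nd (nat_lit 1168) (.br (nat_lit 6) (.br (nat_lit 4) (.br (nat_lit 2) (.ch (nat_lit 0) (.ev (nat_lit 1184)
 (nat_lit 4096) (.nd (nat_lit 2336) (.br (nat_lit 6) (.br (nat_lit 3) (.br (nat_lit 2) (.ch (nat_lit 1) (.ev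
 (nat_lit 2352) (nat_lit 2304) (.ev (nat_lit 3540) (nat_lit 65536) (.ev (nat_lit 3604) (nat_lit 2) (.ev
 (nat_lit 6900) (nat_lit 1024) (.ev (nat_lit 6909) (nat_lit 4) .dd)))))) (.ch (nat_lit 2) (.ev (nat_lit 2352)
 (nat_lit 65542) (.ev (nat_lit 2740) (nat_lit 1024) (.ev (nat_lit 2752) (nat_lit 256) (.ev (nat_lit 2765)
 (nat_lit 2048) .dd)))))) (.br (nat_lit 5) (.ch (nat_lit 3) (.ev (nat_lit 2352) (nat_lit 1286) (.ev (nat_lit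
 2740) (nat_lit 2048) (.ev (nat_lit 2749) (nat_lit 65536) .dd)))) (.ch (nat_lit 5) (.ev (nat_lit 2352) (nat_lit
 66816) (.ev (nat_lit 5236) (nat_lit 2) (.ev (nat_lit 6500) (nat_lit 4) (.ev (nat_lit 6509) (nat_lit 2048)
 .dd))))))) (.br (nat_lit 8) (.br (nat_lit 7) (.ch (nat_lit 6) (.ev (nat_lit 2352) (nat_lit 67844) (.ev
 (nat_lit 3076) (nat_lit 2) (.ev (nat_lit 3085) (nat_lit 1024) .dd)))) (.ch (nat_lit 7) (.ev (nat_lit 3540)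
 (nat_lit 65792) (.ev (nat_lit 5844) (nat_lit 4) (.ev (nat_lit 6452) (nat_lit 2) (.ev (nat_lit 6740) (nat_lit
 1024) (.ev (nat_lit 6749) (nat_lit 2048) .dd))))))) (.br (nat_lit 10) (.ch (nat_lit 8) (.ev (nat_lit 2352)
 (nat_lit 66560) (.ev (nat_lit 2676) (nat_lit 2048) (.ev (nat_lit 3252) (nat_lit 4) (.ev (nat_lit 3488)
 (nat_lit 256) (.ev (nat_lit 3501) (nat_lit 2) .dd)))))) (.ch (nat_lit 10) (.ev (nat_lit 2352) (nat_lit 67840)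
 (.ev (nat_lit 2740) (nat_lit 2) (.ev (nat_lit 3604) (nat_lit 4) (.ev (nat_lit 3613) (nat_lit 1024)
 .dd))))))))))) (.ch (nat_lit 2) (.ev (nat_lit 1184) (nat_lit 71938) (.nd (nat_lit 3984) (.br (nat_lit 4) (.ch
 (nat_lit 2) (.ev (nat_lit 4000) (nat_lit 1024) (.ev (nat_lit 4013) (nat_lit 4) .dd))) (.br (nat_lit 6) (.ch
 (nat_lit 4) (.ev (nat_lit 4000) (nat_lit 4) (.ev (nat_lit 4013) (nat_lit 1024) .dd))) (.ch (nat_lit 6) (.ev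
 (nat_lit 4052) (nat_lit 4) (.ev (nat_lit 4061) (nat_lit 1024) .dd))))))))) (.br (nat_lit 5) (.ch (nat_lit 4)
 (.ev (nat_lit 1184) (nat_lit 69632) (.ev (nat_lit 1300) (nat_lit 2048) (.nd (nat_lit 3408) (.br (nat_lit 7)
 (.br (nat_lit 5) (.br (nat_lit 1) (.ch (nat_lit 0) (.ev (nat_lit 3424) (nat_lit 1028) (.ev (nat_lit 3476)
 (nat_lit 2) (.ev (nat_lit 3485) (nat_lit 256) .dd)))) (.ch (nat_lit 1) (.ev (nat_lit 3424) (nat_lit 258) (.ev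
 (nat_lit 6644) (nat_lit 1024) (.ev (nat_lit 6653) (nat_lit 4) .dd))))) (.br (nat_lit 6) (.ch (nat_lit 5) (.ev
 (nat_lit 3424) (nat_lit 256) (.ev (nat_lit 3540) (nat_lit 2) (.ev (nat_lit 3604) (nat_lit 4) (.ev (nat_lit
 3613) (nat_lit 1024) .dd))))) (.ch (nat_lit 6) (.ev (nat_lit 3424) (nat_lit 1282) (.ev (nat_lit 3437) (nat_lit
 4) .dd))))) (.br (nat_lit 10) (.br (nat_lit 8) (.ch (nat_lit 7) (.ev (nat_lit 3424) (nat_lit 6) (.ev (nat_lit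
 5952) (nat_lit 1280) .dd))) (.ch (nat_lit 8) (.ev (nat_lit 3424) (nat_lit 256) (.ev (nat_lit 3476) (nat_lit 2)
 (.ev (nat_lit 5728) (nat_lit 1024) (.ev (nat_lit 5741) (nat_lit 4) .dd)))))) (.br (nat_lit 11) (.ch (nat_lit
 10) (.ev (nat_lit 3424) (nat_lit 256) (.ev (nat_lit 3476) (nat_lit 1024) (.ev (nat_lit 3540) (nat_lit 2) (.ev
 (nat_lit 3549) (nat_lit 4) .dd))))) (.ch (nat_lit 11) (.ev (nat_lit 3424) (nat_lit 260) (.ev (nat_lit 3476)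
 (nat_lit 1024) (.ev (nat_lit 3485) (nat_lit 2) .dd))))))))))) (.ch (nat_lit 5) (.ev (nat_lit 1184) (nat_lit
 66560) (.nd (nat_lit 2624) (.br (nat_lit 8) (.br (nat_lit 4) (.br (nat_lit 3) (.ch (nat_lit 1) (.ev (nat_lit
 2640) (nat_lit 2054) (.ev (nat_lit 2676) (nat_lit 4096) (.ev (nat_lit 2685) (nat_lit 256) .dd)))) (.ch
 (nat_lit 3) (.ev (nat_lit 2640) (nat_lit 256) (.ev (nat_lit 2740) (nat_lit 4) (.ev (nat_lit 3284) (nat_lit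
 2048) (.ev (nat_lit 5856) (nat_lit 2) (.ev (nat_lit 5869) (nat_lit 4096) .dd))))))) (.br (nat_lit 6) (.ch
 (nat_lit 4) (.ev (nat_lit 2640) (nat_lit 2052) (.ev (nat_lit 2676) (nat_lit 4096) (.ev (nat_lit 6644) (nat_lit
 2) (.ev (nat_lit 6653) (nat_lit 256) .dd))))) (.ch (nat_lit 6) (.ev (nat_lit 2640) (nat_lit 256) (.ev (nat_lit
 2676) (nat_lit 4098) (.ev (nat_lit 6452) (nat_lit 2048) (.ev (nat_lit 6461) (nat_lit 4) .dd))))))) (.br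
 (nat_lit 10) (.br (nat_lit 9) (.ch (nat_lit 8) (.ev (nat_lit 2640) (nat_lit 6144) (.ev (nat_lit 2676) (nat_lit
 2) (.ev (nat_lit 6148) (nat_lit 4) (.ev (nat_lit 6157) (nat_lit 256) .dd))))) (.ch (nat_lit 9) (.ev (nat_lit
 2640) (nat_lit 2054) (.ev (nat_lit 6260) (nat_lit 4096) (.ev (nat_lit 6269) (nat_lit 256) .dd))))) (.br
 (nat_lit 11) (.ch (nat_lit 10) (.ev (nat_lit 2640) (nat_lit 4098) (.ev (nat_lit 2676) (nat_lit 256) (.ev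
 (nat_lit 2740) (nat_lit 2048) (.ev (nat_lit 2749) (nat_lit 4) .dd))))) (.br (nat_lit 12) (.ch (nat_lit 11)
 (.ev (nat_lit 2640) (nat_lit 4096) (.ev (nat_lit 2948) (nat_lit 4) (.ev (nat_lit 6356) (nat_lit 2) (.nd
 (nat_lit 7856) (.ch (nat_lit 11) (.nd (nat_lit 9152) (.br (nat_lit 4) (.ch (nat_lit 1) (.fin (nat_lit
 576377739163419240))) (.ch (nat_lit 4) (.ev (nat_lit 9168) (nat_lit 256) (.ev (nat_lit 9181) (nat_lit 2048)
 .dd))))))))))) (.ch (nat_lit 12) (.ev (nat_lit 2640) (nat_lit 4354) (.ev (nat_lit 2676) (nat_lit 4) (.ev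
 (nat_lit 2685) (nat_lit 2048) .dd))))))))))))) (.br (nat_lit 10) (.br (nat_lit 8) (.ch (nat_lit 6) (.ev
 (nat_lit 1184) (nat_lit 1284) (.ev (nat_lit 1220) (nat_lit 2) (.nd (nat_lit 2624) (.br (nat_lit 7) (.br
 (nat_lit 4) (.br (nat_lit 3) (.ch (nat_lit 1) (.ev (nat_lit 2676) (nat_lit 2048) (.ev (nat_lit 5764) (nat_lit
 65536) (.ev (nat_lit 5773) (nat_lit 4096) .dd)))) (.ch (nat_lit 3) (.ev (nat_lit 2640) (nat_lit 67584) (.ev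
 (nat_lit 2653) (nat_lit 4096) .dd)))) (.br (nat_lit 5) (.ch (nat_lit 4) (.ev (nat_lit 2640) (nat_lit 6144)
 (.ev (nat_lit 2653) (nat_lit 65536) .dd))) (.ch (nat_lit 5) (.ev (nat_lit 2676) (nat_lit 2048) (.ev (nat_lit
 6692) (nat_lit 4096) (.ev (nat_lit 6701) (nat_lit 65536) .dd)))))) (.br (nat_lit 9) (.br (nat_lit 8) (.ch
 (nat_lit 7) (.ev (nat_lit 2676) (nat_lit 2048) (.ev (nat_lit 7140) (nat_lit 4096) (.ev (nat_lit 7149) (nat_lit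
 65536) .dd)))) (.ch (nat_lit 8) (.ev (nat_lit 2676) (nat_lit 2048) (.ev (nat_lit 3604) (nat_lit 4096) (.ev
 (nat_lit 3613) (nat_lit 65536) .dd))))) (.br (nat_lit 10) (.ch (nat_lit 9) (.ev (nat_lit 2640) (nat_lit 71680)
 .dd)) (.ch (nat_lit 10) (.ev (nat_lit 2640) (nat_lit 6144) (.ev (nat_lit 2653) (nat_lit 65536) .dd))))))))))
 (.ch (nat_lit 8) (.ev (nat_lit 1184) (nat_lit 3328) (.ev (nat_lit 1204) (nat_lit 4096) (.ev (nat_lit 1220)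
 (nat_lit 4) (.nd (nat_lit 2624) (.br (nat_lit 8) (.br (nat_lit 4) (.ch (nat_lit 1) (.ev (nat_lit 2640)
 (nat_lit 65538) .dd)) (.br (nat_lit 6) (.ch (nat_lit 4) (.ev (nat_lit 6192) (nat_lit 65538) .dd)) (.ch
 (nat_lit 6) (.ev (nat_lit 2640) (nat_lit 2) (.ev (nat_lit 2653) (nat_lit 65536) .dd))))) (.br (nat_lit 11)
 (.br (nat_lit 10) (.ch (nat_lit 8) (.ev (nat_lit 2676) (nat_lit 2) (.ev (nat_lit 2685) (nat_lit 65536) .dd)))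
 (.ch (nat_lit 10) (.ev (nat_lit 2676) (nat_lit 2) (.ev (nat_lit 2685) (nat_lit 65536) .dd)))) (.br (nat_lit
 12) (.ch (nat_lit 11) (.ev (nat_lit 2640) (nat_lit 65536) (.ev (nat_lit 2653) (nat_lit 2) .dd))) (.ch (nat_lit
 12) (.ev (nat_lit 2640) (nat_lit 65536) (.ev (nat_lit 2653) (nat_lit 2) .dd)))))))))))) (.br (nat_lit 11) (.ch
 (nat_lit 10) (.ev (nat_lit 1184) (nat_lit 4) (.ev (nat_lit 1204) (nat_lit 1026) (.ev (nat_lit 1332) (nat_lit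
 2304) (.nd (nat_lit 3408) (.br (nat_lit 6) (.br (nat_lit 4) (.br (nat_lit 2) (.ch (nat_lit 1) (.ev (nat_lit
 3424) (nat_lit 69632) .dd)) (.ch (nat_lit 2) (.ev (nat_lit 3476) (nat_lit 4096) (.ev (nat_lit 3485) (nat_lit
 65536) .dd)))) (.br (nat_lit 5) (.ch (nat_lit 4) (.ev (nat_lit 3424) (nat_lit 65536) (.ev (nat_lit 3437)
 (nat_lit 4096) .dd))) (.ch (nat_lit 5) (.ev (nat_lit 3424) (nat_lit 65536) (.ev (nat_lit 3437) (nat_lit 4096)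
 .dd))))) (.br (nat_lit 9) (.br (nat_lit 7) (.ch (nat_lit 6) (.ev (nat_lit 3424) (nat_lit 4096) (.ev (nat_lit
 3437) (nat_lit 65536) .dd))) (.ch (nat_lit 7) (.ev (nat_lit 3424) (nat_lit 65536) (.ev (nat_lit 3437) (nat_lit
 4096) .dd)))) (.br (nat_lit 10) (.ch (nat_lit 9) (.ev (nat_lit 3424) (nat_lit 69632) .dd)) (.br (nat_lit 11)
 (.ch (nat_lit 10) (.ev (nat_lit 3476) (nat_lit 65536) (.ev (nat_lit 3485) (nat_lit 4096) .dd))) (.ch (nat_lit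
 11) (.ev (nat_lit 3476) (nat_lit 4096) (.ev (nat_lit 3485) (nat_lit 65536) .dd)))))))))))) (.br (nat_lit 12)
 (.ch (nat_lit 11) (.ev (nat_lit 1184) (nat_lit 67590) (.ev (nat_lit 2868) (nat_lit 1024) (.nd (nat_lit 3984)
 (.br (nat_lit 7) (.br (nat_lit 6) (.ch (nat_lit 0) (.ev (nat_lit 4000) (nat_lit 4096) (.ev (nat_lit 4013)
 (nat_lit 256) .dd))) (.ch (nat_lit 6) (.ev (nat_lit 4000) (nat_lit 256) (.ev (nat_lit 4013) (nat_lit 4096)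
 .dd)))) (.br (nat_lit 8) (.ch (nat_lit 7) (.ev (nat_lit 4000) (nat_lit 4352) .dd)) (.br (nat_lit 11) (.ch
 (nat_lit 8) (.ev (nat_lit 4000) (nat_lit 4096) (.ev (nat_lit 4013) (nat_lit 256) .dd))) (.ch (nat_lit 11) (.ev
 (nat_lit 6148) (nat_lit 256) (.ev (nat_lit 6157) (nat_lit 4096) .dd)))))))))) (.ch (nat_lit 12) (.ev (nat_lit
 1184) (nat_lit 1282) (.ev (nat_lit 1220) (nat_lit 65536) (.nd (nat_lit 3408) (.br (nat_lit 8) (.br (nat_lit 7)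
 (.ch (nat_lit 6) (.ev (nat_lit 3424) (nat_lit 2048) (.ev (nat_lit 5952) (nat_lit 4100) .dd))) (.ch (nat_lit 7)
 (.ev (nat_lit 3424) (nat_lit 4100) (.ev (nat_lit 3437) (nat_lit 2048) .dd)))) (.br (nat_lit 10) (.ch (nat_lit
 8) (.ev (nat_lit 6032) (nat_lit 2048) (.ev (nat_lit 6644) (nat_lit 4096) (.ev (nat_lit 6653) (nat_lit 4)
 .dd)))) (.ch (nat_lit 10) (.ev (nat_lit 3424) (nat_lit 4) (.ev (nat_lit 6260) (nat_lit 4096) (.ev (nat_lit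
 6269) (nat_lit 2048) .dd))))))))))))))))) (.ch (nat_lit 11) (.ev (nat_lit 496) (nat_lit 66884) (.nd (nat_lit
 1264) (.br (nat_lit 5) (.br (nat_lit 3) (.ch (nat_lit 0) (.ev (nat_lit 1280) (nat_lit 2048) (.ev (nat_lit
 1300) (nat_lit 2) (.ev (nat_lit 1309) (nat_lit 4096) .dd)))) (.br (nat_lit 4) (.ch (nat_lit 3) (.ev (nat_lit
 1280) (nat_lit 4096) (.ev (nat_lit 1300) (nat_lit 2) (.ev (nat_lit 1309) (nat_lit 2048) .dd)))) (.ch (nat_lit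
 4) (.ev (nat_lit 1280) (nat_lit 2) (.nd (nat_lit 3984) (.br (nat_lit 4) (.ch (nat_lit 0) (.ev (nat_lit 4020)
 (nat_lit 4096) (.ev (nat_lit 4029) (nat_lit 2048) .dd))) (.br (nat_lit 12) (.ch (nat_lit 4) (.ev (nat_lit
 4020) (nat_lit 4096) (.ev (nat_lit 4029) (nat_lit 2048) .dd))) (.ch (nat_lit 12) (.ev (nat_lit 4020) (nat_lit
 2048) (.ev (nat_lit 4029) (nat_lit 4096) .dd)))))))))) (.br (nat_lit 7) (.br (nat_lit 6) (.ch (nat_lit 5) (.ev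
 (nat_lit 1300) (nat_lit 2050) (.ev (nat_lit 1309) (nat_lit 4096) .dd))) (.ch (nat_lit 6) (.ev (nat_lit 1280)
 (nat_lit 2) (.ev (nat_lit 3188) (nat_lit 4096) (.ev (nat_lit 3197) (nat_lit 2048) .dd))))) (.br (nat_lit 8)
 (.ch (nat_lit 7) (.ev (nat_lit 1280) (nat_lit 6144) (.ev (nat_lit 1293) (nat_lit 2) .dd))) (.ch (nat_lit 8)
 (.ev (nat_lit 3700) (nat_lit 4096) (.ev (nat_lit 3876) (nat_lit 2) (.ev (nat_lit 3885) (nat_lit 2048)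
 .dd))))))))))))))))) (.ch (nat_lit 11) (.ev (nat_lit 48) (nat_lit 2304) (.nd (nat_lit 352) (.br (nat_lit 6)
 (.br (nat_lit 4) (.br (nat_lit 2) (.ch (nat_lit 0) (.ev (nat_lit 368) (nat_lit 69632) (.nd (nat_lit 1088) (.br
 (nat_lit 5) (.br (nat_lit 3) (.br (nat_lit 1) (.ch (nat_lit 0) (.ev (nat_lit 1104) (nat_lit 1030) (.ev
 (nat_lit 1236) (nat_lit 32768) (.nd (nat_lit 2128) (.br (nat_lit 7) (.br (nat_lit 2) (.br (nat_lit 1) (.ch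
 (nat_lit 0) (.ev (nat_lit 2144) (nat_lit 96) .dd)) (.ch (nat_lit 1) (.ev (nat_lit 2144) (nat_lit 64) (.ev
 (nat_lit 2157) (nat_lit 32) .dd)))) (.br (nat_lit 6) (.ch (nat_lit 2) (.ev (nat_lit 3168) (nat_lit 64) (.ev
 (nat_lit 3181) (nat_lit 32) .dd))) (.ch (nat_lit 6) (.ev (nat_lit 2180) (nat_lit 32) (.ev (nat_lit 2189)
 (nat_lit 64) .dd))))) (.br (nat_lit 10) (.br (nat_lit 8) (.ch (nat_lit 7) (.ev (nat_lit 2688) (nat_lit 64)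
 (.ev (nat_lit 2701) (nat_lit 32) .dd))) (.ch (nat_lit 8) (.ev (nat_lit 2144) (nat_lit 32) (.ev (nat_lit 2157)
 (nat_lit 64) .dd)))) (.br (nat_lit 11) (.ch (nat_lit 10) (.ev (nat_lit 2144) (nat_lit 96) .dd)) (.br (nat_lit
 12) (.ch (nat_lit 11) (.ev (nat_lit 2144) (nat_lit 32) (.ev (nat_lit 2157) (nat_lit 64) .dd))) (.ch (nat_lit
 12) (.ev (nat_lit 2676) (nat_lit 64) (.ev (nat_lit 2685) (nat_lit 32) .dd))))))))))) (.ch (nat_lit 1) (.ev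
 (nat_lit 1104) (nat_lit 33890) (.ev (nat_lit 1117) (nat_lit 4) .dd)))) (.br (nat_lit 4) (.ch (nat_lit 3) (.ev
 (nat_lit 1104) (nat_lit 64) (.nd (nat_lit 1840) (.br (nat_lit 7) (.br (nat_lit 5) (.ch (nat_lit 2) (.ev
 (nat_lit 1856) (nat_lit 4) (.ev (nat_lit 1876) (nat_lit 1026) (.ev (nat_lit 1892) (nat_lit 32) (.ev (nat_lit
 1901) (nat_lit 32768) .dd))))) (.br (nat_lit 6) (.ch (nat_lit 5) (.ev (nat_lit 1856) (nat_lit 6) (.ev (nat_lit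
 3812) (nat_lit 32768) (.fin (nat_lit 576398629478547527))))) (.ch (nat_lit 6) (.ev (nat_lit 1856) (nat_lit 36)
 (.ev (nat_lit 1876) (nat_lit 32768) (.ev (nat_lit 6500) (nat_lit 1024) (.ev (nat_lit 6509) (nat_lit 2)
 .dd))))))) (.br (nat_lit 11) (.br (nat_lit 9) (.ch (nat_lit 7) (.ev (nat_lit 1856) (nat_lit 36) (.ev (nat_lit
 1876) (nat_lit 2) (.ev (nat_lit 6964) (nat_lit 32768) (.ev (nat_lit 6973) (nat_lit 1024) .dd))))) (.ch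
 (nat_lit 9) (.ev (nat_lit 1856) (nat_lit 33792) (.ev (nat_lit 3284) (nat_lit 32) (.nd (nat_lit 7568) (.ch
 (nat_lit 0) (.nd (nat_lit 9056) (.br (nat_lit 12) (.ch (nat_lit 9) (.fin (nat_lit 574702083409133452))) (.ch
 (nat_lit 12) (.ev (nat_lit 9072) (nat_lit 4) (.ev (nat_lit 9085) (nat_lit 2) .dd))))))))))) (.br (nat_lit 12)
 (.ch (nat_lit 11) (.ev (nat_lit 1856) (nat_lit 32768) (.ev (nat_lit 3604) (nat_lit 36) (.ev (nat_lit 6148)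
 (nat_lit 2) (.ev (nat_lit 6157) (nat_lit 1024) .dd))))) (.ch (nat_lit 12) (.ev (nat_lit 1856) (nat_lit 1028)
 (.ev (nat_lit 1876) (nat_lit 32) (.ev (nat_lit 6596) (nat_lit 2) (.ev (nat_lit 6605) (nat_lit 32768)
 .dd))))))))))) (.ch (nat_lit 4) (.ev (nat_lit 1104) (nat_lit 32774) (.nd (nat_lit 2128) (.br (nat_lit 9) (.br
 (nat_lit 6) (.ch (nat_lit 3) (.ev (nat_lit 2740) (nat_lit 64) (.ev (nat_lit 3076) (nat_lit 1024) (.ev (nat_lit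
 3085) (nat_lit 32) .dd)))) (.br (nat_lit 7) (.ch (nat_lit 6) (.ev (nat_lit 2144) (nat_lit 32) (.ev (nat_lit
 2740) (nat_lit 64) (.ev (nat_lit 2749) (nat_lit 1024) .dd)))) (.ch (nat_lit 7) (.ev (nat_lit 2144) (nat_lit
 1024) (.ev (nat_lit 3188) (nat_lit 64) (.ev (nat_lit 3197) (nat_lit 32) .dd)))))) (.br (nat_lit 10) (.ch
 (nat_lit 9) (.ev (nat_lit 2144) (nat_lit 1024) (.nd (nat_lit 4304) (.br (nat_lit 6) (.ch (nat_lit 2) (.ev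
 (nat_lit 5552) (nat_lit 96) .dd)) (.ch (nat_lit 6) (.ev (nat_lit 6020) (nat_lit 32) (.ev (nat_lit 6029)
 (nat_lit 64) .dd))))))) (.br (nat_lit 12) (.ch (nat_lit 10) (.ev (nat_lit 2144) (nat_lit 1024) (.ev (nat_lit
 2164) (nat_lit 32) (.ev (nat_lit 2173) (nat_lit 64) .dd)))) (.ch (nat_lit 12) (.nd (nat_lit 4864) (.br
 (nat_lit 4) (.ch (nat_lit 3) (.ev (nat_lit 5716) (nat_lit 32) (.ev (nat_lit 5728) (nat_lit 1088) .dd))) (.br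
 (nat_lit 8) (.ch (nat_lit 4) (.ev (nat_lit 4880) (nat_lit 32) (.ev (nat_lit 4932) (nat_lit 1024) (.ev (nat_lit
 4941) (nat_lit 64) .dd)))) (.ch (nat_lit 8) (.ev (nat_lit 4880) (nat_lit 32) (.fin (nat_lit
 576770264261935849)))))))))))))))) (.br (nat_lit 8) (.br (nat_lit 6) (.ch (nat_lit 5) (.ev (nat_lit 1104)
 (nat_lit 32) (.nd (nat_lit 1968) (.br (nat_lit 7) (.br (nat_lit 3) (.br (nat_lit 2) (.ch (nat_lit 0) (.ev
 (nat_lit 1984) (nat_lit 6) (.ev (nat_lit 5844) (nat_lit 32768) (.ev (nat_lit 5968) (nat_lit 64) (.ev (nat_lit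
 5981) (nat_lit 1024) .dd))))) (.ch (nat_lit 2) (.ev (nat_lit 1984) (nat_lit 33860) (.ev (nat_lit 1997)
 (nat_lit 2) .dd)))) (.br (nat_lit 5) (.ch (nat_lit 3) (.ev (nat_lit 2004) (nat_lit 2) (.ev (nat_lit 3540)
 (nat_lit 32832) (.ev (nat_lit 6740) (nat_lit 1024) (.ev (nat_lit 6749) (nat_lit 4) .dd))))) (.ch (nat_lit 5)
 (.ev (nat_lit 1984) (nat_lit 33856) (.ev (nat_lit 2420) (nat_lit 4) (.ev (nat_lit 2429) (nat_lit 2) .dd))))))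
 (.br (nat_lit 9) (.br (nat_lit 8) (.ch (nat_lit 7) (.ev (nat_lit 1984) (nat_lit 32834) (.ev (nat_lit 6260)
 (nat_lit 4) (.ev (nat_lit 6269) (nat_lit 1024) .dd)))) (.ch (nat_lit 8) (.ev (nat_lit 1984) (nat_lit 70) (.ev
 (nat_lit 2004) (nat_lit 32768) (.ev (nat_lit 2013) (nat_lit 1024) .dd))))) (.br (nat_lit 10) (.ch (nat_lit 9)
 (.ev (nat_lit 1984) (nat_lit 32770) (.ev (nat_lit 2388) (nat_lit 1024) (.fin (nat_lit 576544865014727312)))))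
 (.br (nat_lit 11) (.ch (nat_lit 10) (.ev (nat_lit 1984) (nat_lit 33860) (.ev (nat_lit 1997) (nat_lit 2) .dd)))
 (.ch (nat_lit 11) (.ev (nat_lit 1984) (nat_lit 1030) (.ev (nat_lit 2868) (nat_lit 32768) (.ev (nat_lit 2877)
 (nat_lit 64) .dd))))))))))) (.ch (nat_lit 6) (.ev (nat_lit 1104) (nat_lit 68) (.ev (nat_lit 1124) (nat_lit 32)
 (.nd (nat_lit 2336) (.br (nat_lit 6) (.br (nat_lit 4) (.br (nat_lit 3) (.ch (nat_lit 2) (.ev (nat_lit 2352)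
 (nat_lit 32768) (.ev (nat_lit 2372) (nat_lit 1024) (.ev (nat_lit 2381) (nat_lit 2) .dd)))) (.ch (nat_lit 3)
 (.ev (nat_lit 2352) (nat_lit 2) (.ev (nat_lit 2372) (nat_lit 1024) (.ev (nat_lit 2381) (nat_lit 32768)
 .dd))))) (.br (nat_lit 5) (.ch (nat_lit 4) (.ev (nat_lit 2372) (nat_lit 2) (.ev (nat_lit 2868) (nat_lit 32768)
 (.ev (nat_lit 2877) (nat_lit 1024) .dd)))) (.ch (nat_lit 5) (.ev (nat_lit 2352) (nat_lit 2) (.ev (nat_lit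
 3012) (nat_lit 1024) (.ev (nat_lit 3021) (nat_lit 32768) .dd)))))) (.br (nat_lit 8) (.br (nat_lit 7) (.ch
 (nat_lit 6) (.ev (nat_lit 2352) (nat_lit 33792) (.ev (nat_lit 2365) (nat_lit 2) .dd))) (.ch (nat_lit 7) (.ev
 (nat_lit 2352) (nat_lit 1024) (.ev (nat_lit 2820) (nat_lit 32768) (.ev (nat_lit 2829) (nat_lit 2) .dd)))))
 (.br (nat_lit 9) (.ch (nat_lit 8) (.ev (nat_lit 2352) (nat_lit 33792) (.ev (nat_lit 2365) (nat_lit 2) .dd)))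
 (.br (nat_lit 12) (.ch (nat_lit 9) (.ev (nat_lit 2352) (nat_lit 1026) (.ev (nat_lit 2365) (nat_lit 32768)
 .dd))) (.ch (nat_lit 12) (.ev (nat_lit 2352) (nat_lit 1024) (.ev (nat_lit 2372) (nat_lit 2) (.ev (nat_lit
 2381) (nat_lit 32768) .dd))))))))))))) (.br (nat_lit 9) (.ch (nat_lit 8) (.ev (nat_lit 1104) (nat_lit 4) (.nd
 (nat_lit 1648) (.br (nat_lit 6) (.br (nat_lit 3) (.br (nat_lit 1) (.ch (nat_lit 0) (.ev (nat_lit 1684)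
 (nat_lit 32) (.ev (nat_lit 1716) (nat_lit 2) (.ev (nat_lit 2452) (nat_lit 32768) (.ev (nat_lit 5300) (nat_lit
 1024) (.ev (nat_lit 5309) (nat_lit 64) .dd)))))) (.ch (nat_lit 1) (.ev (nat_lit 1664) (nat_lit 96) (.ev
 (nat_lit 1796) (nat_lit 32768) (.ev (nat_lit 3044) (nat_lit 1024) (.ev (nat_lit 3053) (nat_lit 2) .dd))))))
 (.br (nat_lit 5) (.ch (nat_lit 3) (.ev (nat_lit 1664) (nat_lit 1026) (.ev (nat_lit 2516) (nat_lit 32) (.ev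
 (nat_lit 3652) (nat_lit 32768) (.ev (nat_lit 3661) (nat_lit 64) .dd))))) (.ch (nat_lit 5) (.ev (nat_lit 1664)
 (nat_lit 2) (.ev (nat_lit 1684) (nat_lit 32) (.ev (nat_lit 1892) (nat_lit 64) (.fin (nat_lit
 576462401566097982)))))))) (.br (nat_lit 9) (.br (nat_lit 8) (.ch (nat_lit 6) (.ev (nat_lit 1664) (nat_lit
 1056) (.ev (nat_lit 3812) (nat_lit 32768) (.ev (nat_lit 3892) (nat_lit 2) (.ev (nat_lit 3901) (nat_lit 64)
 .dd))))) (.ch (nat_lit 8) (.ev (nat_lit 1664) (nat_lit 32770) (.ev (nat_lit 1700) (nat_lit 32) (.nd (nat_lit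
 4416) (.br (nat_lit 5) (.ch (nat_lit 2) (.ev (nat_lit 4432) (nat_lit 64) (.ev (nat_lit 4445) (nat_lit 1024)
 .dd))) (.ch (nat_lit 5) (.ev (nat_lit 5876) (nat_lit 64) (.ev (nat_lit 5885) (nat_lit 1024) .dd))))))))) (.br
 (nat_lit 12) (.ch (nat_lit 9) (.ev (nat_lit 1664) (nat_lit 1120) (.ev (nat_lit 4996) (nat_lit 32768) (.ev
 (nat_lit 5005) (nat_lit 2) .dd)))) (.ch (nat_lit 12) (.ev (nat_lit 1664) (nat_lit 32864) (.ev (nat_lit 5764)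
 (nat_lit 2) (.ev (nat_lit 5773) (nat_lit 1024) .dd)))))))))) (.br (nat_lit 12) (.ch (nat_lit 9) (.ev (nat_lit
 1104) (nat_lit 33888) (.ev (nat_lit 1124) (nat_lit 2) (.ev (nat_lit 1133) (nat_lit 4) .dd)))) (.ch (nat_lit
 12) (.ev (nat_lit 1104) (nat_lit 32) (.nd (nat_lit 1840) (.br (nat_lit 6) (.br (nat_lit 3) (.br (nat_lit 2)
 (.ch (nat_lit 0) (.ev (nat_lit 1856) (nat_lit 4) (.ev (nat_lit 3604) (nat_lit 32768) (.ev (nat_lit 4276)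
 (nat_lit 2) (.nd (nat_lit 7360) (.br (nat_lit 9) (.ch (nat_lit 7) (.ev (nat_lit 7376) (nat_lit 1024) (.ev
 (nat_lit 7389) (nat_lit 64) .dd))) (.ch (nat_lit 9) (.fin (nat_lit 576444809374810690))))))))) (.ch (nat_lit
 2) (.ev (nat_lit 1856) (nat_lit 1092) (.ev (nat_lit 5140) (nat_lit 2) (.ev (nat_lit 5149) (nat_lit 32768)
 .dd))))) (.br (nat_lit 5) (.ch (nat_lit 3) (.ev (nat_lit 1856) (nat_lit 32774) (.ev (nat_lit 6596) (nat_lit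
 64) (.ev (nat_lit 6605) (nat_lit 1024) .dd)))) (.ch (nat_lit 5) (.ev (nat_lit 1856) (nat_lit 33856) (.ev
 (nat_lit 3044) (nat_lit 2) (.ev (nat_lit 3053) (nat_lit 4) .dd)))))) (.br (nat_lit 10) (.br (nat_lit 8) (.ch
 (nat_lit 6) (.ev (nat_lit 1856) (nat_lit 64) (.ev (nat_lit 3652) (nat_lit 32768) (.ev (nat_lit 5540) (nat_lit
 4) (.ev (nat_lit 5572) (nat_lit 1024) (.ev (nat_lit 5581) (nat_lit 2) .dd)))))) (.ch (nat_lit 8) (.ev (nat_lit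
 1856) (nat_lit 6) (.ev (nat_lit 1876) (nat_lit 1024) (.ev (nat_lit 6260) (nat_lit 32768) (.ev (nat_lit 6269)
 (nat_lit 64) .dd)))))) (.br (nat_lit 12) (.ch (nat_lit 10) (.ev (nat_lit 1856) (nat_lit 1024) (.ev (nat_lit
 2900) (nat_lit 64) (.ev (nat_lit 3652) (nat_lit 4) (.ev (nat_lit 6500) (nat_lit 2) (.ev (nat_lit 6509)
 (nat_lit 32768) .dd)))))) (.ch (nat_lit 12) (.ev (nat_lit 1856) (nat_lit 68) (.ev (nat_lit 4724) (nat_lit 2)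
 (.ev (nat_lit 5236) (nat_lit 32768) (.ev (nat_lit 5245) (nat_lit 1024) .dd)))))))))))))))))) (.ch (nat_lit 2)
 (.ev (nat_lit 368) (nat_lit 66564) (.nd (nat_lit 944) (.br (nat_lit 8) (.br (nat_lit 3) (.ch (nat_lit 1) (.ev
 (nat_lit 960) (nat_lit 34) (.nd (nat_lit 2336) (.br (nat_lit 8) (.br (nat_lit 3) (.ch (nat_lit 0) (.ev
 (nat_lit 2352) (nat_lit 64) (.ev (nat_lit 2868) (nat_lit 32768) (.ev (nat_lit 2877) (nat_lit 4096) .dd))))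
 (.br (nat_lit 6) (.ch (nat_lit 3) (.ev (nat_lit 3876) (nat_lit 64) (.ev (nat_lit 6452) (nat_lit 4096) (.ev
 (nat_lit 6461) (nat_lit 32768) .dd)))) (.ch (nat_lit 6) (.ev (nat_lit 2352) (nat_lit 32768) (.ev (nat_lit
 2372) (nat_lit 4096) (.ev (nat_lit 2381) (nat_lit 64) .dd)))))) (.br (nat_lit 11) (.br (nat_lit 10) (.ch
 (nat_lit 8) (.ev (nat_lit 2352) (nat_lit 64) (.ev (nat_lit 6644) (nat_lit 32768) (.ev (nat_lit 6653) (nat_lit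
 4096) .dd)))) (.ch (nat_lit 10) (.ev (nat_lit 2352) (nat_lit 4096) (.ev (nat_lit 2372) (nat_lit 32768) (.ev
 (nat_lit 2381) (nat_lit 64) .dd))))) (.br (nat_lit 12) (.ch (nat_lit 11) (.ev (nat_lit 2352) (nat_lit 4096)
 (.ev (nat_lit 2372) (nat_lit 32768) (.ev (nat_lit 2381) (nat_lit 64) .dd)))) (.ch (nat_lit 12) (.ev (nat_lit
 2352) (nat_lit 32768) (.ev (nat_lit 2868) (nat_lit 4096) (.ev (nat_lit 2877) (nat_lit 64) .dd)))))))))) (.br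
 (nat_lit 6) (.ch (nat_lit 3) (.ev (nat_lit 960) (nat_lit 36864) (.nd (nat_lit 1744) (.br (nat_lit 9) (.ch
 (nat_lit 2) (.ev (nat_lit 2516) (nat_lit 64) (.ev (nat_lit 2832) (nat_lit 2) (.ev (nat_lit 2845) (nat_lit 32)
 .dd)))) (.br (nat_lit 10) (.ch (nat_lit 9) (.ev (nat_lit 2164) (nat_lit 2) (.ev (nat_lit 3044) (nat_lit 64)
 (.ev (nat_lit 3053) (nat_lit 32) .dd)))) (.ch (nat_lit 10) (.ev (nat_lit 2164) (nat_lit 2) (.fin (nat_lit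
 576487690439443130))))))))) (.ch (nat_lit 6) (.ev (nat_lit 960) (nat_lit 32) (.nd (nat_lit 1840) (.br (nat_lit
 5) (.br (nat_lit 3) (.ch (nat_lit 1) (.ev (nat_lit 1856) (nat_lit 2) (.ev (nat_lit 1876) (nat_lit 4096) (.ev
 (nat_lit 2196) (nat_lit 64) (.ev (nat_lit 2205) (nat_lit 32768) .dd))))) (.br (nat_lit 4) (.ch (nat_lit 3)
 (.ev (nat_lit 1856) (nat_lit 64) (.ev (nat_lit 1876) (nat_lit 4096) (.ev (nat_lit 5844) (nat_lit 32768) (.ev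
 (nat_lit 5853) (nat_lit 2) .dd))))) (.ch (nat_lit 4) (.ev (nat_lit 1856) (nat_lit 4096) (.ev (nat_lit 1876)
 (nat_lit 2) (.ev (nat_lit 2788) (nat_lit 64) (.ev (nat_lit 2797) (nat_lit 32768) .dd))))))) (.br (nat_lit 9)
 (.br (nat_lit 8) (.ch (nat_lit 5) (.ev (nat_lit 1856) (nat_lit 32768) (.nd (nat_lit 4304) (.br (nat_lit 9)
 (.ch (nat_lit 3) (.ev (nat_lit 6720) (nat_lit 64) (.fin (nat_lit 576377739096310280)))) (.ch (nat_lit 9) (.ev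
 (nat_lit 4320) (nat_lit 64) (.ev (nat_lit 4932) (nat_lit 2) (.ev (nat_lit 4941) (nat_lit 4096) .dd))))))))
 (.ch (nat_lit 8) (.ev (nat_lit 1856) (nat_lit 4098) (.ev (nat_lit 6656) (nat_lit 32832) .dd)))) (.br (nat_lit
 10) (.ch (nat_lit 9) (.ev (nat_lit 1856) (nat_lit 4096) (.ev (nat_lit 2868) (nat_lit 64) (.fin (nat_lit
 576477794736226902))))) (.ch (nat_lit 10) (.ev (nat_lit 3876) (nat_lit 32768) (.ev (nat_lit 5456) (nat_lit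
 4096) (.ev (nat_lit 5924) (nat_lit 64) (.ev (nat_lit 5933) (nat_lit 2) .dd))))))))))))) (.br (nat_lit 10) (.br
 (nat_lit 9) (.ch (nat_lit 8) (.ev (nat_lit 960) (nat_lit 32832) (.nd (nat_lit 2128) (.br (nat_lit 7) (.br
 (nat_lit 6) (.ch (nat_lit 4) (.ev (nat_lit 2144) (nat_lit 4096) (.ev (nat_lit 2452) (nat_lit 32) (.ev (nat_lit
 2461) (nat_lit 2) .dd)))) (.ch (nat_lit 6) (.ev (nat_lit 2144) (nat_lit 2) (.ev (nat_lit 2164) (nat_lit 32)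
 (.ev (nat_lit 2173) (nat_lit 4096) .dd))))) (.br (nat_lit 8) (.ch (nat_lit 7) (.ev (nat_lit 2144) (nat_lit 2)
 (.ev (nat_lit 5444) (nat_lit 32) (.ev (nat_lit 5453) (nat_lit 4096) .dd)))) (.br (nat_lit 11) (.ch (nat_lit 8)
 (.ev (nat_lit 2196) (nat_lit 32) (.ev (nat_lit 5876) (nat_lit 2) (.ev (nat_lit 5885) (nat_lit 4096) .dd))))
 (.ch (nat_lit 11) (.ev (nat_lit 2144) (nat_lit 32) (.ev (nat_lit 6900) (nat_lit 4096) (.ev (nat_lit 6909)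
 (nat_lit 2) .dd)))))))))) (.ch (nat_lit 9) (.ev (nat_lit 960) (nat_lit 64) (.nd (nat_lit 1840) (.br (nat_lit
 6) (.br (nat_lit 2) (.ch (nat_lit 0) (.ev (nat_lit 1856) (nat_lit 4096) (.ev (nat_lit 2004) (nat_lit 2) (.ev
 (nat_lit 5492) (nat_lit 32) (.ev (nat_lit 5501) (nat_lit 32768) .dd))))) (.br (nat_lit 3) (.ch (nat_lit 2)
 (.ev (nat_lit 1856) (nat_lit 4098) (.ev (nat_lit 6644) (nat_lit 32768) (.ev (nat_lit 6653) (nat_lit 32)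
 .dd)))) (.ch (nat_lit 3) (.ev (nat_lit 1856) (nat_lit 4128) (.ev (nat_lit 5540) (nat_lit 32768) (.ev (nat_lit
 5549) (nat_lit 2) .dd)))))) (.br (nat_lit 7) (.ch (nat_lit 6) (.ev (nat_lit 1876) (nat_lit 32768) (.ev
 (nat_lit 2004) (nat_lit 2) (.ev (nat_lit 2036) (nat_lit 4096) (.ev (nat_lit 2045) (nat_lit 32) .dd))))) (.br
 (nat_lit 9) (.ch (nat_lit 7) (.ev (nat_lit 1856) (nat_lit 32768) (.ev (nat_lit 2820) (nat_lit 4096) (.ev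
 (nat_lit 6500) (nat_lit 2) (.ev (nat_lit 6509) (nat_lit 32) .dd))))) (.ch (nat_lit 9) (.ev (nat_lit 1856)
 (nat_lit 32) (.ev (nat_lit 1876) (nat_lit 32768) (.ev (nat_lit 2868) (nat_lit 2) (.ev (nat_lit 2877) (nat_lit
 4096) .dd)))))))))))) (.br (nat_lit 12) (.ch (nat_lit 10) (.ev (nat_lit 960) (nat_lit 2) (.nd (nat_lit 1552)
 (.br (nat_lit 4) (.br (nat_lit 2) (.br (nat_lit 1) (.ch (nat_lit 0) (.ev (nat_lit 1568) (nat_lit 4128) (.ev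
 (nat_lit 1588) (nat_lit 32768) (.ev (nat_lit 1597) (nat_lit 64) .dd)))) (.ch (nat_lit 1) (.ev (nat_lit 1568)
 (nat_lit 32832) (.ev (nat_lit 1716) (nat_lit 32) (.ev (nat_lit 1725) (nat_lit 4096) .dd))))) (.br (nat_lit 3)
 (.ch (nat_lit 2) (.ev (nat_lit 1812) (nat_lit 32) (.ev (nat_lit 3604) (nat_lit 4096) (.nd (nat_lit 7296) (.br
 (nat_lit 9) (.ch (nat_lit 8) (.fin (nat_lit 576666910851547725))) (.ch (nat_lit 9) (.ev (nat_lit 7312)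
 (nat_lit 64) (.ev (nat_lit 7325) (nat_lit 32768) .dd)))))))) (.ch (nat_lit 3) (.ev (nat_lit 1568) (nat_lit
 32800) (.fin (nat_lit 576555860191822143)))))) (.br (nat_lit 8) (.br (nat_lit 6) (.ch (nat_lit 4) (.ev
 (nat_lit 1568) (nat_lit 32800) (.ev (nat_lit 3604) (nat_lit 64) (.ev (nat_lit 3613) (nat_lit 4096) .dd))))
 (.ch (nat_lit 6) (.ev (nat_lit 1568) (nat_lit 4160) (.ev (nat_lit 6452) (nat_lit 32768) (.ev (nat_lit 6461)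
 (nat_lit 32) .dd))))) (.br (nat_lit 9) (.ch (nat_lit 8) (.ev (nat_lit 1876) (nat_lit 64) (.ev (nat_lit 6868)
 (nat_lit 32768) (.ev (nat_lit 6964) (nat_lit 4096) (.ev (nat_lit 6973) (nat_lit 32) .dd))))) (.br (nat_lit 11)
 (.ch (nat_lit 9) (.ev (nat_lit 1568) (nat_lit 4160) (.ev (nat_lit 1796) (nat_lit 32) (.ev (nat_lit 1805)
 (nat_lit 32768) .dd)))) (.ch (nat_lit 11) (.ev (nat_lit 1892) (nat_lit 64) (.ev (nat_lit 3604) (nat_lit 4096)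
 (.ev (nat_lit 5044) (nat_lit 32) (.ev (nat_lit 5053) (nat_lit 32768) .dd)))))))))))) (.ch (nat_lit 12) (.ev
 (nat_lit 960) (nat_lit 4096) (.nd (nat_lit 1744) (.br (nat_lit 6) (.br (nat_lit 3) (.ch (nat_lit 1) (.ev
 (nat_lit 1760) (nat_lit 32832) (.ev (nat_lit 2084) (nat_lit 32) (.ev (nat_lit 2093) (nat_lit 2) .dd)))) (.br
 (nat_lit 5) (.ch (nat_lit 3) (.ev (nat_lit 3652) (nat_lit 64) (.nd (nat_lit 4592) (.br (nat_lit 6) (.br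
 (nat_lit 2) (.ch (nat_lit 1) (.ev (nat_lit 4608) (nat_lit 32) (.ev (nat_lit 5716) (nat_lit 2) (.ev (nat_lit
 5725) (nat_lit 32768) .dd)))) (.ch (nat_lit 2) (.ev (nat_lit 4608) (nat_lit 32) (.ev (nat_lit 5300) (nat_lit
 32768) (.ev (nat_lit 5309) (nat_lit 2) .dd))))) (.br (nat_lit 11) (.ch (nat_lit 6) (.ev (nat_lit 4608)
 (nat_lit 32768) (.ev (nat_lit 6148) (nat_lit 2) (.ev (nat_lit 6157) (nat_lit 32) .dd)))) (.ch (nat_lit 11)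
 (.ev (nat_lit 4608) (nat_lit 32770) (.ev (nat_lit 4621) (nat_lit 32) .dd)))))))) (.ch (nat_lit 5) (.ev
 (nat_lit 1760) (nat_lit 96) (.ev (nat_lit 5876) (nat_lit 32768) (.ev (nat_lit 5885) (nat_lit 2) .dd)))))) (.br
 (nat_lit 11) (.br (nat_lit 8) (.ch (nat_lit 6) (.ev (nat_lit 1760) (nat_lit 96) (.ev (nat_lit 7168) (nat_lit
 32770) .dd))) (.ch (nat_lit 8) (.ev (nat_lit 1760) (nat_lit 64) (.ev (nat_lit 2900) (nat_lit 32) (.ev (nat_lit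
 5764) (nat_lit 32768) (.ev (nat_lit 5773) (nat_lit 2) .dd)))))) (.br (nat_lit 12) (.ch (nat_lit 11) (.ev
 (nat_lit 1760) (nat_lit 32770) (.ev (nat_lit 1908) (nat_lit 32) (.ev (nat_lit 1917) (nat_lit 64) .dd)))) (.ch
 (nat_lit 12) (.nd (nat_lit 4416) (.br (nat_lit 5) (.br (nat_lit 2) (.ch (nat_lit 0) (.ev (nat_lit 4432)
 (nat_lit 66) (.ev (nat_lit 5300) (nat_lit 32768) (.ev (nat_lit 5309) (nat_lit 32) .dd)))) (.br (nat_lit 3)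
 (.ch (nat_lit 2) (.ev (nat_lit 4432) (nat_lit 32770) (.ev (nat_lit 6020) (nat_lit 32) (.ev (nat_lit 6029)
 (nat_lit 64) .dd)))) (.ch (nat_lit 3) (.ev (nat_lit 4432) (nat_lit 66) (.ev (nat_lit 6740) (nat_lit 32768)
 (.ev (nat_lit 6749) (nat_lit 32) .dd)))))) (.br (nat_lit 9) (.ch (nat_lit 5) (.ev (nat_lit 4432) (nat_lit 64)
 (.ev (nat_lit 6452) (nat_lit 2) (.ev (nat_lit 6720) (nat_lit 32) (.ev (nat_lit 6733) (nat_lit 32768) .dd)))))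
 (.br (nat_lit 10) (.ch (nat_lit 9) (.ev (nat_lit 4788) (nat_lit 2) (.ev (nat_lit 5444) (nat_lit 32768) (.ev
 (nat_lit 6596) (nat_lit 64) (.ev (nat_lit 6605) (nat_lit 32) .dd))))) (.ch (nat_lit 10) (.ev (nat_lit 4432)
 (nat_lit 34) (.ev (nat_lit 4932) (nat_lit 32768) (.ev (nat_lit 4941) (nat_lit 64) .dd))))))))))))))))))))))
 (.br (nat_lit 5) (.ch (nat_lit 4) (.ev (nat_lit 368) (nat_lit 69636) (.nd (nat_lit 784) (.br (nat_lit 5) (.br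
 (nat_lit 2) (.br (nat_lit 1) (.ch (nat_lit 0) (.ev (nat_lit 1060) (nat_lit 32768) (.nd (nat_lit 1456) (.br
 (nat_lit 8) (.br (nat_lit 4) (.br (nat_lit 1) (.ch (nat_lit 0) (.ev (nat_lit 1472) (nat_lit 96) (.ev (nat_lit
 5876) (nat_lit 2) (.ev (nat_lit 5885) (nat_lit 1024) .dd)))) (.ch (nat_lit 1) (.ev (nat_lit 1472) (nat_lit
 1024) (.ev (nat_lit 2004) (nat_lit 2) (.ev (nat_lit 3220) (nat_lit 32) (.ev (nat_lit 3229) (nat_lit 64)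
 .dd)))))) (.br (nat_lit 7) (.ch (nat_lit 4) (.ev (nat_lit 1472) (nat_lit 66) (.ev (nat_lit 1492) (nat_lit
 1024) (.ev (nat_lit 1501) (nat_lit 32) .dd)))) (.ch (nat_lit 7) (.ev (nat_lit 1472) (nat_lit 1090) (.ev
 (nat_lit 1485) (nat_lit 32) .dd))))) (.br (nat_lit 10) (.br (nat_lit 9) (.ch (nat_lit 8) (.ev (nat_lit 1472)
 (nat_lit 66) (.ev (nat_lit 1492) (nat_lit 32) (.ev (nat_lit 1501) (nat_lit 1024) .dd)))) (.ch (nat_lit 9) (.ev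
 (nat_lit 1472) (nat_lit 34) (.ev (nat_lit 6208) (nat_lit 1024) (.ev (nat_lit 6221) (nat_lit 64) .dd))))) (.br
 (nat_lit 11) (.ch (nat_lit 10) (.ev (nat_lit 1472) (nat_lit 2) (.ev (nat_lit 2084) (nat_lit 32) (.ev (nat_lit
 2180) (nat_lit 1024) (.ev (nat_lit 2189) (nat_lit 64) .dd))))) (.br (nat_lit 12) (.ch (nat_lit 11) (.ev
 (nat_lit 1472) (nat_lit 96) (.ev (nat_lit 2212) (nat_lit 2) (.ev (nat_lit 2221) (nat_lit 1024) .dd)))) (.ch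
 (nat_lit 12) (.ev (nat_lit 1472) (nat_lit 1056) (.ev (nat_lit 3604) (nat_lit 2) (.ev (nat_lit 3613) (nat_lit
 64) .dd))))))))))) (.ch (nat_lit 1) (.ev (nat_lit 800) (nat_lit 32832) (.nd (nat_lit 1968) (.br (nat_lit 10)
 (.br (nat_lit 5) (.ch (nat_lit 2) (.ev (nat_lit 1984) (nat_lit 34) (.ev (nat_lit 1997) (nat_lit 1024) .dd)))
 (.br (nat_lit 6) (.ch (nat_lit 5) (.ev (nat_lit 1984) (nat_lit 2) (.ev (nat_lit 3012) (nat_lit 32) (.ev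
 (nat_lit 3021) (nat_lit 1024) .dd)))) (.ch (nat_lit 6) (.ev (nat_lit 1984) (nat_lit 2) (.ev (nat_lit 2820)
 (nat_lit 32) (.ev (nat_lit 2829) (nat_lit 1024) .dd)))))) (.br (nat_lit 11) (.ch (nat_lit 10) (.ev (nat_lit
 1984) (nat_lit 32) (.ev (nat_lit 2004) (nat_lit 1024) (.ev (nat_lit 2013) (nat_lit 2) .dd)))) (.br (nat_lit
 12) (.ch (nat_lit 11) (.ev (nat_lit 1984) (nat_lit 1024) (.ev (nat_lit 2180) (nat_lit 2) (.ev (nat_lit 2189)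
 (nat_lit 32) .dd)))) (.ch (nat_lit 12) (.ev (nat_lit 3568) (nat_lit 32) (.ev (nat_lit 6644) (nat_lit 1024)
 (.ev (nat_lit 6653) (nat_lit 2) .dd))))))))))) (.br (nat_lit 3) (.ch (nat_lit 2) (.ev (nat_lit 800) (nat_lit
 1056) (.nd (nat_lit 1456) (.br (nat_lit 7) (.br (nat_lit 2) (.ch (nat_lit 0) (.ev (nat_lit 1780) (nat_lit 64)
 (.fin (nat_lit 576770264450679097)))) (.br (nat_lit 6) (.ch (nat_lit 2) (.ev (nat_lit 1472) (nat_lit 2) (.ev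
 (nat_lit 3348) (nat_lit 32768) (.ev (nat_lit 3357) (nat_lit 64) .dd)))) (.ch (nat_lit 6) (.ev (nat_lit 1472)
 (nat_lit 32768) (.ev (nat_lit 2196) (nat_lit 64) (.ev (nat_lit 2205) (nat_lit 2) .dd)))))) (.br (nat_lit 11)
 (.br (nat_lit 8) (.ch (nat_lit 7) (.ev (nat_lit 1472) (nat_lit 32768) (.ev (nat_lit 6692) (nat_lit 2) (.ev
 (nat_lit 6701) (nat_lit 64) .dd)))) (.ch (nat_lit 8) (.ev (nat_lit 1472) (nat_lit 32770) (.ev (nat_lit 1485)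
 (nat_lit 64) .dd)))) (.br (nat_lit 12) (.ch (nat_lit 11) (.ev (nat_lit 1472) (nat_lit 64) (.ev (nat_lit 3012)
 (nat_lit 2) (.ev (nat_lit 3021) (nat_lit 32768) .dd)))) (.ch (nat_lit 12) (.ev (nat_lit 2212) (nat_lit 64)
 (.ev (nat_lit 2820) (nat_lit 2) (.ev (nat_lit 2829) (nat_lit 32768) .dd)))))))))) (.ch (nat_lit 3) (.nd
 (nat_lit 1456) (.br (nat_lit 7) (.br (nat_lit 3) (.br (nat_lit 2) (.ch (nat_lit 1) (.ev (nat_lit 1472)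
 (nat_lit 66) (.ev (nat_lit 1588) (nat_lit 32) (.ev (nat_lit 3940) (nat_lit 1024) (.ev (nat_lit 3949) (nat_lit
 32768) .dd))))) (.ch (nat_lit 2) (.ev (nat_lit 2180) (nat_lit 2) (.nd (nat_lit 4416) (.br (nat_lit 8) (.br
 (nat_lit 5) (.br (nat_lit 4) (.ch (nat_lit 3) (.ev (nat_lit 4432) (nat_lit 32864) (.ev (nat_lit 4445) (nat_lit
 1024) .dd))) (.ch (nat_lit 4) (.ev (nat_lit 4432) (nat_lit 32832) (.ev (nat_lit 4468) (nat_lit 1024) (.ev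
 (nat_lit 4477) (nat_lit 32) .dd))))) (.br (nat_lit 6) (.ch (nat_lit 5) (.ev (nat_lit 4432) (nat_lit 96) (.ev
 (nat_lit 5008) (nat_lit 32768) (.ev (nat_lit 5021) (nat_lit 1024) .dd)))) (.ch (nat_lit 6) (.ev (nat_lit 4432)
 (nat_lit 32864) (.ev (nat_lit 4445) (nat_lit 1024) .dd))))) (.br (nat_lit 11) (.br (nat_lit 10) (.ch (nat_lit
 8) (.ev (nat_lit 4432) (nat_lit 32832) (.ev (nat_lit 4548) (nat_lit 1024) (.ev (nat_lit 4557) (nat_lit 32)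
 .dd)))) (.ch (nat_lit 10) (.ev (nat_lit 4432) (nat_lit 33792) (.ev (nat_lit 6288) (nat_lit 96) .dd)))) (.br
 (nat_lit 12) (.ch (nat_lit 11) (.ev (nat_lit 4432) (nat_lit 33856) (.ev (nat_lit 4445) (nat_lit 32) .dd)))
 (.ch (nat_lit 12) (.ev (nat_lit 4432) (nat_lit 64) (.ev (nat_lit 5492) (nat_lit 32768) (.ev (nat_lit 6032)
 (nat_lit 32) (.ev (nat_lit 6045) (nat_lit 1024) .dd)))))))))))) (.br (nat_lit 5) (.ch (nat_lit 3) (.ev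
 (nat_lit 1472) (nat_lit 1120) (.ev (nat_lit 1588) (nat_lit 2) (.ev (nat_lit 1597) (nat_lit 32768) .dd)))) (.ch
 (nat_lit 5) (.ev (nat_lit 1472) (nat_lit 32864) (.ev (nat_lit 2180) (nat_lit 2) (.ev (nat_lit 2189) (nat_lit
 1024) .dd)))))) (.br (nat_lit 10) (.br (nat_lit 9) (.ch (nat_lit 7) (.ev (nat_lit 1472) (nat_lit 33794) (.ev
 (nat_lit 1588) (nat_lit 32) (.ev (nat_lit 1597) (nat_lit 64) .dd)))) (.ch (nat_lit 9) (.ev (nat_lit 1472)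
 (nat_lit 2) (.ev (nat_lit 1588) (nat_lit 32) (.nd (nat_lit 4224) (.br (nat_lit 8) (.br (nat_lit 2) (.ch
 (nat_lit 1) (.ev (nat_lit 4240) (nat_lit 1024) (.ev (nat_lit 4644) (nat_lit 32768) (.ev (nat_lit 4653)
 (nat_lit 64) .dd)))) (.br (nat_lit 6) (.ch (nat_lit 2) (.ev (nat_lit 4240) (nat_lit 64) (.ev (nat_lit 4276)
 (nat_lit 1024) (.ev (nat_lit 4285) (nat_lit 32768) .dd)))) (.ch (nat_lit 6) (.ev (nat_lit 4240) (nat_lit 64)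
 (.ev (nat_lit 4276) (nat_lit 32768) (.ev (nat_lit 4285) (nat_lit 1024) .dd)))))) (.br (nat_lit 10) (.ch
 (nat_lit 8) (.ev (nat_lit 4240) (nat_lit 1024) (.ev (nat_lit 6048) (nat_lit 32832) .dd))) (.br (nat_lit 11)
 (.ch (nat_lit 10) (.ev (nat_lit 4240) (nat_lit 33792) (.ev (nat_lit 4253) (nat_lit 64) .dd))) (.ch (nat_lit
 11) (.ev (nat_lit 4240) (nat_lit 64) (.fin (nat_lit 576506382018626125)))))))))))) (.br (nat_lit 11) (.ch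
 (nat_lit 10) (.ev (nat_lit 1492) (nat_lit 1024) (.ev (nat_lit 2068) (nat_lit 32) (.nd (nat_lit 4304) (.br
 (nat_lit 4) (.br (nat_lit 2) (.ch (nat_lit 1) (.ev (nat_lit 4320) (nat_lit 2) (.ev (nat_lit 4500) (nat_lit 64)
 (.ev (nat_lit 4509) (nat_lit 32768) .dd)))) (.br (nat_lit 3) (.ch (nat_lit 2) (.ev (nat_lit 4320) (nat_lit
 32770) (.ev (nat_lit 4333) (nat_lit 64) .dd))) (.ch (nat_lit 3) (.ev (nat_lit 4320) (nat_lit 2) (.ev (nat_lit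
 5764) (nat_lit 32768) (.ev (nat_lit 5773) (nat_lit 64) .dd)))))) (.br (nat_lit 7) (.ch (nat_lit 4) (.ev
 (nat_lit 4320) (nat_lit 64) (.ev (nat_lit 5764) (nat_lit 2) (.ev (nat_lit 5773) (nat_lit 32768) .dd)))) (.br
 (nat_lit 10) (.ch (nat_lit 7) (.ev (nat_lit 4320) (nat_lit 32770) (.ev (nat_lit 4333) (nat_lit 64) .dd))) (.ch
 (nat_lit 10) (.ev (nat_lit 4320) (nat_lit 2) (.ev (nat_lit 4500) (nat_lit 64) (.ev (nat_lit 4509) (nat_lit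
 32768) .dd))))))))))) (.br (nat_lit 12) (.ch (nat_lit 11) (.ev (nat_lit 1472) (nat_lit 33826) (.ev (nat_lit
 1485) (nat_lit 64) .dd))) (.ch (nat_lit 12) (.ev (nat_lit 1472) (nat_lit 66) (.ev (nat_lit 5604) (nat_lit
 1024) (.ev (nat_lit 6692) (nat_lit 32) (.ev (nat_lit 6701) (nat_lit 32768) .dd))))))))))))) (.br (nat_lit 7)
 (.br (nat_lit 6) (.ch (nat_lit 5) (.nd (nat_lit 1456) (.br (nat_lit 7) (.br (nat_lit 4) (.br (nat_lit 2) (.ch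
 (nat_lit 0) (.ev (nat_lit 1472) (nat_lit 98) (.ev (nat_lit 1508) (nat_lit 1024) (.ev (nat_lit 1517) (nat_lit
 32768) .dd)))) (.ch (nat_lit 2) (.ev (nat_lit 1472) (nat_lit 32832) (.nd (nat_lit 4224) (.br (nat_lit 2) (.ch
 (nat_lit 0) (.ev (nat_lit 4240) (nat_lit 2) (.ev (nat_lit 6260) (nat_lit 1024) (.ev (nat_lit 6269) (nat_lit
 32) .dd)))) (.br (nat_lit 5) (.ch (nat_lit 2) (.ev (nat_lit 4240) (nat_lit 32) (.ev (nat_lit 6900) (nat_lit 2)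
 (.ev (nat_lit 6909) (nat_lit 1024) .dd)))) (.ch (nat_lit 5) (.ev (nat_lit 6480) (nat_lit 1024) (.ev (nat_lit
 6596) (nat_lit 2) (.ev (nat_lit 6605) (nat_lit 32) .dd)))))))))) (.br (nat_lit 5) (.ch (nat_lit 4) (.ev
 (nat_lit 1472) (nat_lit 1026) (.ev (nat_lit 5188) (nat_lit 64) (.fin (nat_lit 576505282562572800))))) (.ch
 (nat_lit 5) (.ev (nat_lit 1472) (nat_lit 32832) (.nd (nat_lit 4592) (.br (nat_lit 3) (.br (nat_lit 2) (.ch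
 (nat_lit 0) (.ev (nat_lit 4608) (nat_lit 32) (.ev (nat_lit 4644) (nat_lit 2) (.ev (nat_lit 4653) (nat_lit
 1024) .dd)))) (.ch (nat_lit 2) (.ev (nat_lit 4608) (nat_lit 34) (.ev (nat_lit 4621) (nat_lit 1024) .dd))))
 (.br (nat_lit 10) (.ch (nat_lit 3) (.ev (nat_lit 4608) (nat_lit 32) (.ev (nat_lit 4644) (nat_lit 2) (.ev
 (nat_lit 4653) (nat_lit 1024) .dd)))) (.br (nat_lit 11) (.ch (nat_lit 10) (.ev (nat_lit 4932) (nat_lit 1024)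
 (.ev (nat_lit 6692) (nat_lit 32) (.ev (nat_lit 6701) (nat_lit 2) .dd)))) (.ch (nat_lit 11) (.ev (nat_lit 4644)
 (nat_lit 2) (.ev (nat_lit 5648) (nat_lit 1056) .dd))))))))))) (.br (nat_lit 10) (.br (nat_lit 9) (.ch (nat_lit
 7) (.ev (nat_lit 1472) (nat_lit 1026) (.nd (nat_lit 4416) (.br (nat_lit 8) (.br (nat_lit 5) (.ch (nat_lit 2)
 (.ev (nat_lit 4432) (nat_lit 32832) (.ev (nat_lit 4445) (nat_lit 32) .dd))) (.br (nat_lit 6) (.ch (nat_lit 5)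
 (.ev (nat_lit 5044) (nat_lit 32768) (.ev (nat_lit 7140) (nat_lit 32) (.ev (nat_lit 7149) (nat_lit 64) .dd))))
 (.ch (nat_lit 6) (.ev (nat_lit 4432) (nat_lit 32) (.ev (nat_lit 5504) (nat_lit 32832) .dd))))) (.br (nat_lit
 10) (.ch (nat_lit 8) (.ev (nat_lit 4432) (nat_lit 32) (.ev (nat_lit 6272) (nat_lit 32832) .dd))) (.br (nat_lit
 11) (.ch (nat_lit 10) (.ev (nat_lit 4432) (nat_lit 32768) (.ev (nat_lit 6644) (nat_lit 32) (.ev (nat_lit 6653)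
 (nat_lit 64) .dd)))) (.ch (nat_lit 11) (.ev (nat_lit 4432) (nat_lit 32768) (.ev (nat_lit 5200) (nat_lit 96)
 .dd))))))))) (.ch (nat_lit 9) (.ev (nat_lit 1472) (nat_lit 32864) (.nd (nat_lit 4592) (.br (nat_lit 8) (.ch
 (nat_lit 6) (.ev (nat_lit 5300) (nat_lit 2) (.ev (nat_lit 5309) (nat_lit 1024) .dd))) (.ch (nat_lit 8) (.ev
 (nat_lit 6964) (nat_lit 2) (.ev (nat_lit 6973) (nat_lit 1024) .dd)))))))) (.br (nat_lit 11) (.ch (nat_lit 10)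
 (.ev (nat_lit 1472) (nat_lit 64) (.nd (nat_lit 4304) (.br (nat_lit 8) (.br (nat_lit 7) (.ch (nat_lit 4) (.ev
 (nat_lit 4320) (nat_lit 2) (.ev (nat_lit 4356) (nat_lit 1024) (.ev (nat_lit 5924) (nat_lit 32768) (.ev
 (nat_lit 5933) (nat_lit 32) .dd))))) (.ch (nat_lit 7) (.ev (nat_lit 4320) (nat_lit 32) (.ev (nat_lit 5492)
 (nat_lit 1024) (.ev (nat_lit 5924) (nat_lit 32768) (.ev (nat_lit 5933) (nat_lit 2) .dd)))))) (.br (nat_lit 9)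
 (.ch (nat_lit 8) (.ev (nat_lit 4320) (nat_lit 32768) (.ev (nat_lit 4468) (nat_lit 32) (.nd (nat_lit 8480) (.br
 (nat_lit 9) (.ch (nat_lit 1) (.ev (nat_lit 8496) (nat_lit 2) (.ev (nat_lit 8509) (nat_lit 1024) .dd))) (.ch
 (nat_lit 9) (.fin (nat_lit 576255693364347227)))))))) (.br (nat_lit 12) (.ch (nat_lit 9) (.ev (nat_lit 4320)
 (nat_lit 32768) (.ev (nat_lit 5300) (nat_lit 32) (.ev (nat_lit 6452) (nat_lit 2) (.ev (nat_lit 6461) (nat_lit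
 1024) .dd))))) (.ch (nat_lit 12) (.ev (nat_lit 4320) (nat_lit 1026) (.ev (nat_lit 4468) (nat_lit 32) (.ev
 (nat_lit 4477) (nat_lit 32768) .dd)))))))))) (.br (nat_lit 12) (.ch (nat_lit 11) (.ev (nat_lit 1472) (nat_lit
 64) (.nd (nat_lit 4592) (.br (nat_lit 8) (.br (nat_lit 3) (.ch (nat_lit 0) (.ev (nat_lit 4608) (nat_lit 34)
 (.ev (nat_lit 4644) (nat_lit 1024) (.ev (nat_lit 4653) (nat_lit 32768) .dd)))) (.br (nat_lit 4) (.ch (nat_lit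
 3) (.ev (nat_lit 4608) (nat_lit 32800) (.ev (nat_lit 4724) (nat_lit 2) (.ev (nat_lit 4733) (nat_lit 1024)
 .dd)))) (.ch (nat_lit 4) (.ev (nat_lit 4608) (nat_lit 1026) (.ev (nat_lit 6740) (nat_lit 32) (.ev (nat_lit
 6749) (nat_lit 32768) .dd)))))) (.br (nat_lit 10) (.br (nat_lit 9) (.ch (nat_lit 8) (.ev (nat_lit 4608)
 (nat_lit 1056) (.ev (nat_lit 4644) (nat_lit 2) (.ev (nat_lit 4653) (nat_lit 32768) .dd)))) (.ch (nat_lit 9)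
 (.ev (nat_lit 4608) (nat_lit 32800) (.ev (nat_lit 5844) (nat_lit 2) (.ev (nat_lit 5853) (nat_lit 1024)
 .dd))))) (.br (nat_lit 11) (.ch (nat_lit 10) (.ev (nat_lit 4608) (nat_lit 2) (.ev (nat_lit 6384) (nat_lit 32)
 (.fin (nat_lit 576430515672269337))))) (.ch (nat_lit 11) (.ev (nat_lit 4608) (nat_lit 32770) (.ev (nat_lit
 6160) (nat_lit 1056) .dd))))))))) (.ch (nat_lit 12) (.ev (nat_lit 1472) (nat_lit 1056) (.nd (nat_lit 4224)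
 (.br (nat_lit 7) (.br (nat_lit 4) (.ch (nat_lit 2) (.ev (nat_lit 4240) (nat_lit 32768) (.ev (nat_lit 5248)
 (nat_lit 66) .dd))) (.ch (nat_lit 4) (.ev (nat_lit 4240) (nat_lit 64) (.ev (nat_lit 5844) (nat_lit 2) (.ev
 (nat_lit 5853) (nat_lit 32768) .dd))))) (.br (nat_lit 9) (.ch (nat_lit 7) (.ev (nat_lit 4240) (nat_lit 2) (.ev
 (nat_lit 6356) (nat_lit 32768) (.ev (nat_lit 6365) (nat_lit 64) .dd)))) (.br (nat_lit 12) (.ch (nat_lit 9)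
 (.ev (nat_lit 4240) (nat_lit 64) (.ev (nat_lit 4388) (nat_lit 2) (.ev (nat_lit 4397) (nat_lit 32768) .dd))))
 (.ch (nat_lit 12) (.ev (nat_lit 4240) (nat_lit 32768) (.ev (nat_lit 6788) (nat_lit 2) (.ev (nat_lit 6797)
 (nat_lit 64) .dd)))))))))))))))) (.ch (nat_lit 6) (.ev (nat_lit 800) (nat_lit 32770) (.nd (nat_lit 1840) (.br
 (nat_lit 6) (.br (nat_lit 5) (.ch (nat_lit 0) (.ev (nat_lit 2740) (nat_lit 64) (.ev (nat_lit 6788) (nat_lit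
 32) (.ev (nat_lit 6797) (nat_lit 1024) .dd)))) (.ch (nat_lit 5) (.ev (nat_lit 1856) (nat_lit 64) (.ev (nat_lit
 3540) (nat_lit 1024) (.ev (nat_lit 3549) (nat_lit 32) .dd))))) (.br (nat_lit 9) (.ch (nat_lit 6) (.ev (nat_lit
 1856) (nat_lit 1024) (.ev (nat_lit 5088) (nat_lit 96) .dd))) (.br (nat_lit 12) (.ch (nat_lit 9) (.ev (nat_lit
 1856) (nat_lit 64) (.ev (nat_lit 2388) (nat_lit 1024) (.ev (nat_lit 2397) (nat_lit 32) .dd)))) (.ch (nat_lit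
 12) (.ev (nat_lit 1856) (nat_lit 32) (.ev (nat_lit 2740) (nat_lit 64) (.ev (nat_lit 2749) (nat_lit 1024)
 .dd))))))))))) (.br (nat_lit 8) (.ch (nat_lit 7) (.ev (nat_lit 800) (nat_lit 1090) (.nd (nat_lit 1968) (.br
 (nat_lit 6) (.ch (nat_lit 0) (.ev (nat_lit 2420) (nat_lit 32) (.ev (nat_lit 2429) (nat_lit 32768) .dd))) (.br
 (nat_lit 7) (.ch (nat_lit 6) (.ev (nat_lit 3252) (nat_lit 32) (.ev (nat_lit 3261) (nat_lit 32768) .dd))) (.ch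
 (nat_lit 7) (.ev (nat_lit 3924) (nat_lit 32768) (.ev (nat_lit 3933) (nat_lit 32) .dd)))))))) (.br (nat_lit 9)
 (.ch (nat_lit 8) (.ev (nat_lit 800) (nat_lit 32866) (.ev (nat_lit 813) (nat_lit 1024) .dd))) (.ch (nat_lit 9)
 (.ev (nat_lit 800) (nat_lit 1056) (.nd (nat_lit 1648) (.br (nat_lit 9) (.br (nat_lit 3) (.ch (nat_lit 0) (.ev
 (nat_lit 1664) (nat_lit 32832) (.ev (nat_lit 1677) (nat_lit 2) .dd))) (.br (nat_lit 7) (.ch (nat_lit 3) (.nd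
 (nat_lit 4304) (.br (nat_lit 3) (.br (nat_lit 2) (.ch (nat_lit 0) (.ev (nat_lit 4320) (nat_lit 64) (.ev
 (nat_lit 4644) (nat_lit 32768) (.ev (nat_lit 4653) (nat_lit 2) .dd)))) (.ch (nat_lit 2) (.ev (nat_lit 4644)
 (nat_lit 32768) (.fin (nat_lit 576429416129184268))))) (.br (nat_lit 5) (.ch (nat_lit 3) (.ev (nat_lit 4644)
 (nat_lit 32768) (.ev (nat_lit 5492) (nat_lit 2) (.ev (nat_lit 5501) (nat_lit 64) .dd)))) (.br (nat_lit 9) (.ch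
 (nat_lit 5) (.ev (nat_lit 4692) (nat_lit 32768) (.ev (nat_lit 5572) (nat_lit 64) (.ev (nat_lit 5581) (nat_lit
 2) .dd)))) (.ch (nat_lit 9) (.ev (nat_lit 4320) (nat_lit 64) (.ev (nat_lit 5140) (nat_lit 32768) (.ev (nat_lit
 5149) (nat_lit 2) .dd))))))))) (.ch (nat_lit 7) (.ev (nat_lit 2388) (nat_lit 64) (.nd (nat_lit 4864) (.br
 (nat_lit 5) (.br (nat_lit 4) (.ch (nat_lit 2) (.ev (nat_lit 4932) (nat_lit 2) (.ev (nat_lit 4941) (nat_lit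
 32768) .dd))) (.ch (nat_lit 4) (.ev (nat_lit 4996) (nat_lit 2) (.ev (nat_lit 5005) (nat_lit 32768) .dd))))
 (.br (nat_lit 12) (.ch (nat_lit 5) (.ev (nat_lit 4932) (nat_lit 2) (.ev (nat_lit 4941) (nat_lit 32768) .dd)))
 (.ch (nat_lit 12) (.ev (nat_lit 7028) (nat_lit 2) (.ev (nat_lit 7037) (nat_lit 32768) .dd)))))))))) (.br
 (nat_lit 10) (.ch (nat_lit 9) (.ev (nat_lit 1664) (nat_lit 64) (.nd (nat_lit 4864) (.br (nat_lit 8) (.ch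
 (nat_lit 3) (.ev (nat_lit 6596) (nat_lit 2) (.ev (nat_lit 6605) (nat_lit 32768) .dd))) (.ch (nat_lit 8) (.ev
 (nat_lit 5376) (nat_lit 32770) .dd)))))) (.br (nat_lit 12) (.ch (nat_lit 10) (.nd (nat_lit 4304) (.br (nat_lit
 5) (.br (nat_lit 4) (.ch (nat_lit 2) (.ev (nat_lit 4644) (nat_lit 32768) (.ev (nat_lit 6148) (nat_lit 2) (.ev
 (nat_lit 6157) (nat_lit 64) .dd)))) (.ch (nat_lit 4) (.ev (nat_lit 4320) (nat_lit 64) (.ev (nat_lit 4468)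
 (nat_lit 2) (.ev (nat_lit 4477) (nat_lit 32768) .dd))))) (.br (nat_lit 6) (.ch (nat_lit 5) (.ev (nat_lit 4644)
 (nat_lit 32768) (.ev (nat_lit 4996) (nat_lit 64) (.ev (nat_lit 5005) (nat_lit 2) .dd)))) (.br (nat_lit 10)
 (.ch (nat_lit 6) (.ev (nat_lit 4320) (nat_lit 32768) (.ev (nat_lit 4468) (nat_lit 2) (.ev (nat_lit 4477)
 (nat_lit 64) .dd)))) (.ch (nat_lit 10) (.ev (nat_lit 4320) (nat_lit 32768) (.ev (nat_lit 4692) (nat_lit 2)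
 (.ev (nat_lit 4701) (nat_lit 64) .dd))))))))) (.ch (nat_lit 12) (.ev (nat_lit 1664) (nat_lit 64) (.ev (nat_lit
 6596) (nat_lit 2) (.ev (nat_lit 6605) (nat_lit 32768) .dd))))))))))))))))) (.ch (nat_lit 5) (.ev (nat_lit 368)
 (nat_lit 68) (.nd (nat_lit 1168) (.br (nat_lit 6) (.br (nat_lit 3) (.br (nat_lit 1) (.ch (nat_lit 0) (.ev
 (nat_lit 1184) (nat_lit 4096) (.ev (nat_lit 1332) (nat_lit 2) (.nd (nat_lit 2336) (.br (nat_lit 5) (.br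
 (nat_lit 2) (.ch (nat_lit 0) (.ev (nat_lit 2352) (nat_lit 32768) (.ev (nat_lit 2388) (nat_lit 32) (.ev
 (nat_lit 2788) (nat_lit 65536) (.ev (nat_lit 2797) (nat_lit 1024) .dd))))) (.br (nat_lit 4) (.ch (nat_lit 2)
 (.ev (nat_lit 2352) (nat_lit 32768) (.ev (nat_lit 2372) (nat_lit 32) (.ev (nat_lit 2900) (nat_lit 1024) (.ev
 (nat_lit 2909) (nat_lit 65536) .dd))))) (.ch (nat_lit 4) (.ev (nat_lit 2352) (nat_lit 33824) (.ev (nat_lit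
 2365) (nat_lit 65536) .dd))))) (.br (nat_lit 9) (.br (nat_lit 6) (.ch (nat_lit 5) (.ev (nat_lit 2352) (nat_lit
 1024) (.ev (nat_lit 6500) (nat_lit 65536) (.ev (nat_lit 6692) (nat_lit 32) (.ev (nat_lit 6701) (nat_lit 32768)
 .dd))))) (.ch (nat_lit 6) (.ev (nat_lit 2352) (nat_lit 65568) (.ev (nat_lit 2740) (nat_lit 1024) (.ev (nat_lit
 2749) (nat_lit 32768) .dd))))) (.br (nat_lit 12) (.ch (nat_lit 9) (.ev (nat_lit 2352) (nat_lit 32) (.ev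
 (nat_lit 3604) (nat_lit 1024) (.ev (nat_lit 6020) (nat_lit 32768) (.ev (nat_lit 6029) (nat_lit 65536) .dd)))))
 (.ch (nat_lit 12) (.ev (nat_lit 2352) (nat_lit 32) (.ev (nat_lit 2372) (nat_lit 1024) (.ev (nat_lit 2528)
 (nat_lit 32768) (.ev (nat_lit 2541) (nat_lit 65536) .dd)))))))))))) (.ch (nat_lit 1) (.ev (nat_lit 1184)
 (nat_lit 2) (.ev (nat_lit 1332) (nat_lit 4096) (.nd (nat_lit 2624) (.br (nat_lit 7) (.br (nat_lit 3) (.ch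
 (nat_lit 1) (.ev (nat_lit 2640) (nat_lit 65536) (.ev (nat_lit 2676) (nat_lit 1024) (.ev (nat_lit 2900)
 (nat_lit 32) (.ev (nat_lit 2909) (nat_lit 32768) .dd))))) (.br (nat_lit 4) (.ch (nat_lit 3) (.ev (nat_lit
 2640) (nat_lit 65536) (.ev (nat_lit 2676) (nat_lit 1024) (.ev (nat_lit 2788) (nat_lit 32768) (.ev (nat_lit
 2797) (nat_lit 32) .dd))))) (.ch (nat_lit 4) (.ev (nat_lit 2640) (nat_lit 66560) (.ev (nat_lit 2676) (nat_lit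
 32) (.ev (nat_lit 2685) (nat_lit 32768) .dd)))))) (.br (nat_lit 11) (.br (nat_lit 10) (.ch (nat_lit 7) (.ev
 (nat_lit 2640) (nat_lit 1024) (.ev (nat_lit 3604) (nat_lit 32) (.ev (nat_lit 6020) (nat_lit 65536) (.ev
 (nat_lit 6029) (nat_lit 32768) .dd))))) (.ch (nat_lit 10) (.ev (nat_lit 2640) (nat_lit 33792) (.ev (nat_lit
 2740) (nat_lit 32) (.ev (nat_lit 2749) (nat_lit 65536) .dd))))) (.br (nat_lit 12) (.ch (nat_lit 11) (.ev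
 (nat_lit 2640) (nat_lit 32) (.ev (nat_lit 6500) (nat_lit 32768) (.ev (nat_lit 6692) (nat_lit 1024) (.ev
 (nat_lit 6701) (nat_lit 65536) .dd))))) (.ch (nat_lit 12) (.ev (nat_lit 2640) (nat_lit 66592) (.ev (nat_lit
 2653) (nat_lit 32768) .dd))))))))))) (.br (nat_lit 5) (.ch (nat_lit 3) (.ev (nat_lit 1184) (nat_lit 4128) (.nd
 (nat_lit 2624) (.br (nat_lit 8) (.br (nat_lit 5) (.br (nat_lit 2) (.ch (nat_lit 0) (.ev (nat_lit 2640)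
 (nat_lit 66560) (.ev (nat_lit 3264) (nat_lit 32770) .dd))) (.ch (nat_lit 2) (.ev (nat_lit 2640) (nat_lit 1026)
 (.ev (nat_lit 3584) (nat_lit 32768) (.ev (nat_lit 3597) (nat_lit 65536) .dd))))) (.br (nat_lit 6) (.ch
 (nat_lit 5) (.ev (nat_lit 2676) (nat_lit 1024) (.ev (nat_lit 3604) (nat_lit 32768) (.ev (nat_lit 6452)
 (nat_lit 2) (.ev (nat_lit 6461) (nat_lit 65536) .dd))))) (.ch (nat_lit 6) (.ev (nat_lit 2640) (nat_lit 98304)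
 (.ev (nat_lit 2676) (nat_lit 1024) (.ev (nat_lit 2685) (nat_lit 2) .dd)))))) (.br (nat_lit 10) (.br (nat_lit
 9) (.ch (nat_lit 8) (.ev (nat_lit 2640) (nat_lit 98304) (.ev (nat_lit 6692) (nat_lit 1024) (.ev (nat_lit 6701)
 (nat_lit 2) .dd)))) (.ch (nat_lit 9) (.ev (nat_lit 2640) (nat_lit 2) (.ev (nat_lit 2676) (nat_lit 1024) (.ev
 (nat_lit 5764) (nat_lit 32768) (.ev (nat_lit 5773) (nat_lit 65536) .dd)))))) (.br (nat_lit 11) (.ch (nat_lit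
 10) (.ev (nat_lit 2868) (nat_lit 1024) (.ev (nat_lit 6692) (nat_lit 32768) (.ev (nat_lit 6964) (nat_lit 65536)
 (.ev (nat_lit 6973) (nat_lit 2) .dd))))) (.ch (nat_lit 11) (.ev (nat_lit 2640) (nat_lit 2) (.ev (nat_lit 2676)
 (nat_lit 1024) (.ev (nat_lit 3232) (nat_lit 32768) (.ev (nat_lit 3245) (nat_lit 65536) .dd))))))))))) (.ch
 (nat_lit 5) (.ev (nat_lit 1184) (nat_lit 98336) (.ev (nat_lit 1332) (nat_lit 2) (.ev (nat_lit 2868) (nat_lit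
 1024) (.ev (nat_lit 2877) (nat_lit 4096) .dd))))))) (.br (nat_lit 8) (.br (nat_lit 7) (.ch (nat_lit 6) (.ev
 (nat_lit 1184) (nat_lit 33794) (.ev (nat_lit 1204) (nat_lit 4128) (.ev (nat_lit 1213) (nat_lit 65536) .dd))))
 (.ch (nat_lit 7) (.ev (nat_lit 1184) (nat_lit 1056) (.nd (nat_lit 3408) (.br (nat_lit 4) (.br (nat_lit 3) (.ch
 (nat_lit 1) (.ev (nat_lit 3424) (nat_lit 98304) (.ev (nat_lit 4020) (nat_lit 2) (.ev (nat_lit 4029) (nat_lit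
 4096) .dd)))) (.ch (nat_lit 3) (.ev (nat_lit 3476) (nat_lit 65536) (.ev (nat_lit 3540) (nat_lit 32768) (.ev
 (nat_lit 4052) (nat_lit 2) (.ev (nat_lit 4061) (nat_lit 4096) .dd)))))) (.br (nat_lit 11) (.ch (nat_lit 4)
 (.ev (nat_lit 3424) (nat_lit 65536) (.ev (nat_lit 4020) (nat_lit 4098) (.ev (nat_lit 4029) (nat_lit 32768)
 .dd)))) (.br (nat_lit 12) (.ch (nat_lit 11) (.ev (nat_lit 3424) (nat_lit 32768) (.ev (nat_lit 4020) (nat_lit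
 4098) (.ev (nat_lit 4029) (nat_lit 65536) .dd)))) (.ch (nat_lit 12) (.ev (nat_lit 3476) (nat_lit 32768) (.ev
 (nat_lit 3540) (nat_lit 65536) (.ev (nat_lit 4052) (nat_lit 4096) (.ev (nat_lit 4061) (nat_lit 2)
 .dd)))))))))))) (.br (nat_lit 9) (.ch (nat_lit 8) (.ev (nat_lit 1184) (nat_lit 69664) (.ev (nat_lit 1204)
 (nat_lit 1026) (.ev (nat_lit 1213) (nat_lit 32768) .dd)))) (.br (nat_lit 11) (.ch (nat_lit 9) (.ev (nat_lit
 1184) (nat_lit 99328) (.ev (nat_lit 1332) (nat_lit 4096) (.ev (nat_lit 2868) (nat_lit 32) (.ev (nat_lit 2877)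
 (nat_lit 2) .dd))))) (.ch (nat_lit 11) (.ev (nat_lit 1184) (nat_lit 1026) (.nd (nat_lit 2624) (.br (nat_lit 6)
 (.br (nat_lit 4) (.br (nat_lit 2) (.ch (nat_lit 0) (.ev (nat_lit 2640) (nat_lit 4128) (.ev (nat_lit 3584)
 (nat_lit 65536) (.ev (nat_lit 3597) (nat_lit 32768) .dd)))) (.ch (nat_lit 2) (.ev (nat_lit 2640) (nat_lit
 32800) (.ev (nat_lit 3300) (nat_lit 4096) (.ev (nat_lit 3309) (nat_lit 65536) .dd))))) (.br (nat_lit 5) (.ch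
 (nat_lit 4) (.ev (nat_lit 2640) (nat_lit 4096) (.ev (nat_lit 2676) (nat_lit 32) (.ev (nat_lit 3232) (nat_lit
 65536) (.ev (nat_lit 3245) (nat_lit 32768) .dd))))) (.ch (nat_lit 5) (.ev (nat_lit 2868) (nat_lit 32) (.ev
 (nat_lit 6692) (nat_lit 65536) (.ev (nat_lit 6964) (nat_lit 32768) (.ev (nat_lit 6973) (nat_lit 4096)
 .dd))))))) (.br (nat_lit 9) (.br (nat_lit 7) (.ch (nat_lit 6) (.ev (nat_lit 2640) (nat_lit 4096) (.ev (nat_lit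
 2676) (nat_lit 32) (.ev (nat_lit 5764) (nat_lit 65536) (.ev (nat_lit 5773) (nat_lit 32768) .dd))))) (.ch
 (nat_lit 7) (.ev (nat_lit 2640) (nat_lit 98304) (.ev (nat_lit 6692) (nat_lit 32) (.ev (nat_lit 6701) (nat_lit
 4096) .dd))))) (.br (nat_lit 10) (.ch (nat_lit 9) (.ev (nat_lit 2640) (nat_lit 98304) (.ev (nat_lit 2676)
 (nat_lit 32) (.ev (nat_lit 2685) (nat_lit 4096) .dd)))) (.ch (nat_lit 10) (.ev (nat_lit 2676) (nat_lit 32)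
 (.ev (nat_lit 3604) (nat_lit 65536) (.ev (nat_lit 6452) (nat_lit 4096) (.ev (nat_lit 6461) (nat_lit 32768)
 .dd)))))))))))))))))))) (.br (nat_lit 10) (.br (nat_lit 8) (.ch (nat_lit 6) (.ev (nat_lit 368) (nat_lit 32834)
 (.nd (nat_lit 784) (.br (nat_lit 7) (.br (nat_lit 5) (.br (nat_lit 1) (.ch (nat_lit 0) (.ev (nat_lit 800)
 (nat_lit 65540) (.nd (nat_lit 2128) (.br (nat_lit 7) (.br (nat_lit 2) (.ch (nat_lit 1) (.ev (nat_lit 3568)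
 (nat_lit 1024) (.ev (nat_lit 6644) (nat_lit 32) (.ev (nat_lit 6653) (nat_lit 4096) .dd)))) (.br (nat_lit 3)
 (.ch (nat_lit 2) (.ev (nat_lit 2144) (nat_lit 32) (.ev (nat_lit 2180) (nat_lit 4096) (.ev (nat_lit 2189)
 (nat_lit 1024) .dd)))) (.ch (nat_lit 3) (.ev (nat_lit 2144) (nat_lit 1024) (.ev (nat_lit 2164) (nat_lit 32)
 (.ev (nat_lit 2173) (nat_lit 4096) .dd)))))) (.br (nat_lit 8) (.ch (nat_lit 7) (.ev (nat_lit 2144) (nat_lit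
 4096) (.ev (nat_lit 2820) (nat_lit 1024) (.ev (nat_lit 2829) (nat_lit 32) .dd)))) (.br (nat_lit 11) (.ch
 (nat_lit 8) (.ev (nat_lit 2144) (nat_lit 4096) (.ev (nat_lit 3012) (nat_lit 1024) (.ev (nat_lit 3021) (nat_lit
 32) .dd)))) (.ch (nat_lit 11) (.ev (nat_lit 2144) (nat_lit 5120) (.ev (nat_lit 2157) (nat_lit 32) .dd)))))))))
 (.ch (nat_lit 1) (.ev (nat_lit 1060) (nat_lit 65536) (.nd (nat_lit 1968) (.br (nat_lit 4) (.br (nat_lit 2)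
 (.br (nat_lit 1) (.ch (nat_lit 0) (.ev (nat_lit 1984) (nat_lit 1028) (.ev (nat_lit 5876) (nat_lit 4096) (.ev
 (nat_lit 5885) (nat_lit 32) .dd)))) (.ch (nat_lit 1) (.ev (nat_lit 1984) (nat_lit 1056) (.ev (nat_lit 3604)
 (nat_lit 4096) (.ev (nat_lit 3613) (nat_lit 4) .dd))))) (.br (nat_lit 3) (.ch (nat_lit 2) (.ev (nat_lit 1984)
 (nat_lit 1028) (.ev (nat_lit 2212) (nat_lit 4096) (.ev (nat_lit 2221) (nat_lit 32) .dd)))) (.ch (nat_lit 3)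
 (.ev (nat_lit 1984) (nat_lit 4096) (.ev (nat_lit 2084) (nat_lit 1024) (.ev (nat_lit 2180) (nat_lit 32) (.ev
 (nat_lit 2189) (nat_lit 4) .dd))))))) (.br (nat_lit 6) (.br (nat_lit 5) (.ch (nat_lit 4) (.ev (nat_lit 1984)
 (nat_lit 5120) (.ev (nat_lit 6208) (nat_lit 32) (.ev (nat_lit 6221) (nat_lit 4) .dd)))) (.ch (nat_lit 5) (.ev
 (nat_lit 1984) (nat_lit 4100) (.ev (nat_lit 2004) (nat_lit 1024) (.ev (nat_lit 2013) (nat_lit 32) .dd)))))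
 (.br (nat_lit 9) (.ch (nat_lit 6) (.ev (nat_lit 1984) (nat_lit 4132) (.ev (nat_lit 1997) (nat_lit 1024) .dd)))
 (.br (nat_lit 12) (.ch (nat_lit 9) (.ev (nat_lit 1984) (nat_lit 4100) (.ev (nat_lit 2004) (nat_lit 32) (.ev
 (nat_lit 2013) (nat_lit 1024) .dd)))) (.ch (nat_lit 12) (.ev (nat_lit 1984) (nat_lit 32) (.ev (nat_lit 2004)
 (nat_lit 4096) (.ev (nat_lit 3220) (nat_lit 1024) (.ev (nat_lit 3229) (nat_lit 4) .dd))))))))))))) (.br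
 (nat_lit 6) (.ch (nat_lit 5) (.ev (nat_lit 800) (nat_lit 1056) (.nd (nat_lit 1744) (.br (nat_lit 5) (.br
 (nat_lit 2) (.ch (nat_lit 0) (.ev (nat_lit 1760) (nat_lit 4) (.ev (nat_lit 6596) (nat_lit 4096) (.ev (nat_lit
 6605) (nat_lit 65536) .dd)))) (.br (nat_lit 3) (.ch (nat_lit 2) (.ev (nat_lit 4644) (nat_lit 65536) (.ev
 (nat_lit 6356) (nat_lit 4096) (.ev (nat_lit 6365) (nat_lit 4) .dd)))) (.ch (nat_lit 3) (.ev (nat_lit 1760)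
 (nat_lit 4) (.ev (nat_lit 6752) (nat_lit 69632) .dd))))) (.br (nat_lit 9) (.ch (nat_lit 5) (.ev (nat_lit 2036)
 (nat_lit 4) (.nd (nat_lit 4864) (.br (nat_lit 5) (.br (nat_lit 2) (.ch (nat_lit 0) (.ev (nat_lit 4996)
 (nat_lit 4096) (.ev (nat_lit 5005) (nat_lit 65536) .dd))) (.ch (nat_lit 2) (.ev (nat_lit 4932) (nat_lit 4096)
 (.ev (nat_lit 4941) (nat_lit 65536) .dd)))) (.br (nat_lit 12) (.ch (nat_lit 5) (.ev (nat_lit 7028) (nat_lit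
 4096) (.ev (nat_lit 7037) (nat_lit 65536) .dd))) (.ch (nat_lit 12) (.ev (nat_lit 4932) (nat_lit 4096) (.ev
 (nat_lit 4941) (nat_lit 65536) .dd)))))))) (.br (nat_lit 12) (.ch (nat_lit 9) (.ev (nat_lit 5140) (nat_lit
 65536) (.nd (nat_lit 7920) (.br (nat_lit 8) (.ch (nat_lit 2) (.fin (nat_lit 576429416317928023))) (.ch
 (nat_lit 8) (.ev (nat_lit 7936) (nat_lit 4) (.ev (nat_lit 7949) (nat_lit 4096) .dd))))))) (.ch (nat_lit 12)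
 (.ev (nat_lit 1760) (nat_lit 65540) (.ev (nat_lit 1773) (nat_lit 4096) .dd))))))))) (.ch (nat_lit 6) (.ev
 (nat_lit 800) (nat_lit 70660) (.ev (nat_lit 813) (nat_lit 32) .dd))))) (.br (nat_lit 9) (.br (nat_lit 8) (.ch
 (nat_lit 7) (.ev (nat_lit 800) (nat_lit 4132) (.nd (nat_lit 1840) (.br (nat_lit 6) (.ch (nat_lit 5) (.ev
 (nat_lit 2800) (nat_lit 66560) .dd)) (.br (nat_lit 12) (.ch (nat_lit 6) (.ev (nat_lit 3252) (nat_lit 1024)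
 (.ev (nat_lit 3261) (nat_lit 65536) .dd))) (.ch (nat_lit 12) (.ev (nat_lit 2420) (nat_lit 1024) (.ev (nat_lit
 2429) (nat_lit 65536) .dd)))))))) (.ch (nat_lit 8) (.ev (nat_lit 800) (nat_lit 69632) (.nd (nat_lit 1968) (.br
 (nat_lit 6) (.br (nat_lit 3) (.ch (nat_lit 0) (.ev (nat_lit 1984) (nat_lit 1024) (.ev (nat_lit 2820) (nat_lit
 4) (.ev (nat_lit 2829) (nat_lit 32) .dd)))) (.ch (nat_lit 3) (.ev (nat_lit 1984) (nat_lit 4) (.ev (nat_lit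
 2388) (nat_lit 32) (.ev (nat_lit 2397) (nat_lit 1024) .dd))))) (.br (nat_lit 7) (.ch (nat_lit 6) (.ev (nat_lit
 1984) (nat_lit 32) (.ev (nat_lit 5088) (nat_lit 1028) .dd))) (.br (nat_lit 12) (.ch (nat_lit 7) (.ev (nat_lit
 1984) (nat_lit 4) (.ev (nat_lit 3540) (nat_lit 32) (.ev (nat_lit 3549) (nat_lit 1024) .dd)))) (.ch (nat_lit
 12) (.ev (nat_lit 2740) (nat_lit 4) (.ev (nat_lit 6788) (nat_lit 1024) (.ev (nat_lit 6797) (nat_lit 32)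
 .dd))))))))))) (.br (nat_lit 11) (.ch (nat_lit 9) (.nd (nat_lit 1552) (.br (nat_lit 5) (.br (nat_lit 2) (.br
 (nat_lit 1) (.ch (nat_lit 0) (.ev (nat_lit 1568) (nat_lit 1056) (.ev (nat_lit 6500) (nat_lit 65536) (.ev
 (nat_lit 6788) (nat_lit 4096) (.ev (nat_lit 6797) (nat_lit 4) .dd))))) (.ch (nat_lit 1) (.ev (nat_lit 1568)
 (nat_lit 4) (.ev (nat_lit 5844) (nat_lit 4096) (.ev (nat_lit 6740) (nat_lit 1024) (.nd (nat_lit 7568) (.br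
 (nat_lit 3) (.ch (nat_lit 2) (.ev (nat_lit 7584) (nat_lit 32) (.ev (nat_lit 7597) (nat_lit 65536) .dd))) (.br
 (nat_lit 9) (.ch (nat_lit 3) (.ev (nat_lit 7584) (nat_lit 65536) (.ev (nat_lit 7597) (nat_lit 32) .dd))) (.ch
 (nat_lit 9) (.fin (nat_lit 576492088323424821))))))))))) (.br (nat_lit 3) (.ch (nat_lit 2) (.ev (nat_lit 1568)
 (nat_lit 4) (.nd (nat_lit 4864) (.br (nat_lit 10) (.br (nat_lit 7) (.ch (nat_lit 2) (.ev (nat_lit 4880)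
 (nat_lit 4096) (.ev (nat_lit 4932) (nat_lit 32) (.ev (nat_lit 5924) (nat_lit 65536) (.ev (nat_lit 5933)
 (nat_lit 1024) .dd))))) (.ch (nat_lit 7) (.ev (nat_lit 4880) (nat_lit 4128) (.ev (nat_lit 4932) (nat_lit 1024)
 (.ev (nat_lit 4941) (nat_lit 65536) .dd))))) (.br (nat_lit 11) (.ch (nat_lit 10) (.ev (nat_lit 4880) (nat_lit
 65536) (.ev (nat_lit 5300) (nat_lit 1024) (.ev (nat_lit 6452) (nat_lit 4096) (.ev (nat_lit 6461) (nat_lit 32)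
 .dd))))) (.br (nat_lit 12) (.ch (nat_lit 11) (.ev (nat_lit 4880) (nat_lit 65536) (.ev (nat_lit 4932) (nat_lit
 1024) (.nd (nat_lit 8832) (.br (nat_lit 5) (.ch (nat_lit 0) (.ev (nat_lit 8848) (nat_lit 4096) (.ev (nat_lit
 8861) (nat_lit 32) .dd))) (.ch (nat_lit 5) (.fin (nat_lit 576255693408387690)))))))) (.ch (nat_lit 12) (.ev
 (nat_lit 4880) (nat_lit 1024) (.ev (nat_lit 5392) (nat_lit 32) (.ev (nat_lit 5924) (nat_lit 65536) (.ev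
 (nat_lit 5933) (nat_lit 4096) .dd))))))))))) (.ch (nat_lit 3) (.ev (nat_lit 1568) (nat_lit 66564) (.ev
 (nat_lit 6992) (nat_lit 4128) .dd))))) (.br (nat_lit 8) (.br (nat_lit 7) (.ch (nat_lit 5) (.ev (nat_lit 1568)
 (nat_lit 4128) (.ev (nat_lit 6452) (nat_lit 65536) (.ev (nat_lit 7140) (nat_lit 1024) (.ev (nat_lit 7149)
 (nat_lit 4) .dd))))) (.ch (nat_lit 7) (.ev (nat_lit 1568) (nat_lit 65540) (.ev (nat_lit 6596) (nat_lit 32)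
 (.ev (nat_lit 6692) (nat_lit 1024) (.ev (nat_lit 6701) (nat_lit 4096) .dd)))))) (.br (nat_lit 10) (.ch
 (nat_lit 8) (.ev (nat_lit 1568) (nat_lit 4128) (.ev (nat_lit 5188) (nat_lit 4) (.fin (nat_lit
 576505282489172648))))) (.br (nat_lit 12) (.ch (nat_lit 10) (.ev (nat_lit 1568) (nat_lit 65540) (.ev (nat_lit
 6900) (nat_lit 4096) (.ev (nat_lit 7028) (nat_lit 1024) (.ev (nat_lit 7037) (nat_lit 32) .dd))))) (.ch
 (nat_lit 12) (.ev (nat_lit 1568) (nat_lit 5124) (.ev (nat_lit 1588) (nat_lit 32) (.ev (nat_lit 1597) (nat_lit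
 65536) .dd)))))))))) (.br (nat_lit 12) (.ch (nat_lit 11) (.nd (nat_lit 1456) (.br (nat_lit 5) (.br (nat_lit 2)
 (.br (nat_lit 1) (.ch (nat_lit 0) (.ev (nat_lit 1472) (nat_lit 4100) (.ev (nat_lit 5604) (nat_lit 32) (.ev
 (nat_lit 6692) (nat_lit 1024) (.ev (nat_lit 6701) (nat_lit 65536) .dd))))) (.ch (nat_lit 1) (.ev (nat_lit
 1472) (nat_lit 70688) (.ev (nat_lit 1485) (nat_lit 4) .dd)))) (.br (nat_lit 3) (.ch (nat_lit 2) (.ev (nat_lit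
 1492) (nat_lit 32) (.ev (nat_lit 2068) (nat_lit 1024) (.ev (nat_lit 5764) (nat_lit 69632) (.ev (nat_lit 5773)
 (nat_lit 4) .dd))))) (.ch (nat_lit 3) (.ev (nat_lit 1472) (nat_lit 4096) (.ev (nat_lit 1588) (nat_lit 1024)
 (.nd (nat_lit 4304) (.br (nat_lit 9) (.br (nat_lit 5) (.ch (nat_lit 1) (.ev (nat_lit 4320) (nat_lit 4) (.ev
 (nat_lit 4356) (nat_lit 65536) (.ev (nat_lit 4365) (nat_lit 32) .dd)))) (.br (nat_lit 6) (.ch (nat_lit 5) (.ev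
 (nat_lit 4320) (nat_lit 4) (.ev (nat_lit 4356) (nat_lit 32) (.ev (nat_lit 4365) (nat_lit 65536) .dd)))) (.ch
 (nat_lit 6) (.ev (nat_lit 4320) (nat_lit 32) (.ev (nat_lit 4644) (nat_lit 65536) (.ev (nat_lit 4653) (nat_lit
 4) .dd)))))) (.br (nat_lit 10) (.ch (nat_lit 9) (.ev (nat_lit 4320) (nat_lit 4) (.fin (nat_lit
 576506382056374876)))) (.br (nat_lit 12) (.ch (nat_lit 10) (.ev (nat_lit 4320) (nat_lit 65568) (.ev (nat_lit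
 4333) (nat_lit 4) .dd))) (.ch (nat_lit 12) (.ev (nat_lit 4320) (nat_lit 32) (.ev (nat_lit 6048) (nat_lit
 65540) .dd)))))))))))) (.br (nat_lit 9) (.br (nat_lit 7) (.ch (nat_lit 5) (.ev (nat_lit 1472) (nat_lit 69664)
 (.ev (nat_lit 1588) (nat_lit 1024) (.ev (nat_lit 1597) (nat_lit 4) .dd)))) (.ch (nat_lit 7) (.ev (nat_lit
 1472) (nat_lit 66564) (.ev (nat_lit 2180) (nat_lit 4096) (.ev (nat_lit 2189) (nat_lit 32) .dd))))) (.br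
 (nat_lit 10) (.ch (nat_lit 9) (.ev (nat_lit 1472) (nat_lit 1060) (.ev (nat_lit 1588) (nat_lit 4096) (.ev
 (nat_lit 1597) (nat_lit 65536) .dd)))) (.br (nat_lit 11) (.ch (nat_lit 10) (.ev (nat_lit 2180) (nat_lit 4096)
 (.nd (nat_lit 4304) (.br (nat_lit 8) (.br (nat_lit 3) (.br (nat_lit 2) (.ch (nat_lit 1) (.ev (nat_lit 4320)
 (nat_lit 66564) (.ev (nat_lit 4333) (nat_lit 32) .dd))) (.ch (nat_lit 2) (.ev (nat_lit 4320) (nat_lit 1028)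
 (.ev (nat_lit 5008) (nat_lit 65536) (.ev (nat_lit 5021) (nat_lit 32) .dd))))) (.br (nat_lit 4) (.ch (nat_lit
 3) (.ev (nat_lit 4320) (nat_lit 65540) (.ev (nat_lit 4356) (nat_lit 32) (.ev (nat_lit 4365) (nat_lit 1024)
 .dd)))) (.ch (nat_lit 4) (.ev (nat_lit 4320) (nat_lit 66564) (.ev (nat_lit 4333) (nat_lit 32) .dd))))) (.br
 (nat_lit 10) (.br (nat_lit 9) (.ch (nat_lit 8) (.ev (nat_lit 4320) (nat_lit 4) (.ev (nat_lit 5492) (nat_lit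
 65536) (.ev (nat_lit 6032) (nat_lit 1024) (.ev (nat_lit 6045) (nat_lit 32) .dd))))) (.ch (nat_lit 9) (.ev
 (nat_lit 4320) (nat_lit 65572) (.ev (nat_lit 4333) (nat_lit 1024) .dd)))) (.br (nat_lit 12) (.ch (nat_lit 10)
 (.ev (nat_lit 4320) (nat_lit 65568) (.ev (nat_lit 6288) (nat_lit 1028) .dd))) (.ch (nat_lit 12) (.ev (nat_lit
 4320) (nat_lit 65540) (.ev (nat_lit 4548) (nat_lit 32) (.ev (nat_lit 4557) (nat_lit 1024) .dd)))))))))) (.ch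
 (nat_lit 11) (.ev (nat_lit 1472) (nat_lit 4100) (.ev (nat_lit 1588) (nat_lit 1024) (.ev (nat_lit 3940)
 (nat_lit 32) (.ev (nat_lit 3949) (nat_lit 65536) .dd))))))))))) (.ch (nat_lit 12) (.ev (nat_lit 800) (nat_lit
 1056) (.nd (nat_lit 1840) (.br (nat_lit 5) (.br (nat_lit 1) (.ch (nat_lit 0) (.ev (nat_lit 2788) (nat_lit 4)
 (.ev (nat_lit 2820) (nat_lit 4096) (.ev (nat_lit 2829) (nat_lit 65536) .dd)))) (.br (nat_lit 4) (.ch (nat_lit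
 1) (.ev (nat_lit 1856) (nat_lit 4) (.ev (nat_lit 3012) (nat_lit 4096) (.ev (nat_lit 3021) (nat_lit 65536)
 .dd)))) (.ch (nat_lit 4) (.ev (nat_lit 1856) (nat_lit 69632) (.ev (nat_lit 1869) (nat_lit 4) .dd))))) (.br
 (nat_lit 10) (.br (nat_lit 6) (.ch (nat_lit 5) (.ev (nat_lit 1856) (nat_lit 65536) (.ev (nat_lit 6692)
 (nat_lit 4096) (.ev (nat_lit 6701) (nat_lit 4) .dd)))) (.ch (nat_lit 6) (.ev (nat_lit 1856) (nat_lit 65536)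
 (.ev (nat_lit 2244) (nat_lit 4) (.ev (nat_lit 2253) (nat_lit 4096) .dd))))) (.br (nat_lit 12) (.ch (nat_lit
 10) (.ev (nat_lit 1856) (nat_lit 4096) (.ev (nat_lit 3348) (nat_lit 65536) (.ev (nat_lit 3357) (nat_lit 4)
 .dd)))) (.ch (nat_lit 12) (.ev (nat_lit 2004) (nat_lit 4) (.fin (nat_lit 576152338915868704)))))))))))))))))
 (.ch (nat_lit 8) (.ev (nat_lit 368) (nat_lit 32864) (.nd (nat_lit 1088) (.br (nat_lit 5) (.br (nat_lit 2) (.ch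
 (nat_lit 0) (.ev (nat_lit 1104) (nat_lit 5120) (.nd (nat_lit 1840) (.br (nat_lit 5) (.br (nat_lit 3) (.ch
 (nat_lit 2) (.ev (nat_lit 1856) (nat_lit 4) (.ev (nat_lit 2868) (nat_lit 65536) (.ev (nat_lit 2877) (nat_lit
 2) .dd)))) (.br (nat_lit 4) (.ch (nat_lit 3) (.ev (nat_lit 1856) (nat_lit 65536) (.ev (nat_lit 2788) (nat_lit
 4) (.ev (nat_lit 2797) (nat_lit 2) .dd)))) (.ch (nat_lit 4) (.ev (nat_lit 1856) (nat_lit 2) (.ev (nat_lit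
 1876) (nat_lit 65536) (.ev (nat_lit 1885) (nat_lit 4) .dd)))))) (.br (nat_lit 9) (.br (nat_lit 7) (.ch
 (nat_lit 5) (.ev (nat_lit 1856) (nat_lit 2) (.ev (nat_lit 1876) (nat_lit 65536) (.ev (nat_lit 1885) (nat_lit
 4) .dd)))) (.ch (nat_lit 7) (.ev (nat_lit 1856) (nat_lit 4) (.ev (nat_lit 6644) (nat_lit 65536) (.ev (nat_lit
 6653) (nat_lit 2) .dd))))) (.br (nat_lit 12) (.ch (nat_lit 9) (.ev (nat_lit 1856) (nat_lit 65536) (.ev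
 (nat_lit 2004) (nat_lit 2) (.ev (nat_lit 2013) (nat_lit 4) .dd)))) (.ch (nat_lit 12) (.ev (nat_lit 3876)
 (nat_lit 4) (.ev (nat_lit 6452) (nat_lit 2) (.ev (nat_lit 6461) (nat_lit 65536) .dd)))))))))) (.br (nat_lit 4)
 (.ch (nat_lit 2) (.ev (nat_lit 1104) (nat_lit 2) (.nd (nat_lit 1840) (.br (nat_lit 6) (.br (nat_lit 2) (.ch
 (nat_lit 0) (.ev (nat_lit 1856) (nat_lit 65540) (.ev (nat_lit 2084) (nat_lit 1024) (.ev (nat_lit 2093)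
 (nat_lit 4096) .dd)))) (.br (nat_lit 3) (.ch (nat_lit 2) (.nd (nat_lit 4864) (.br (nat_lit 8) (.br (nat_lit 5)
 (.ch (nat_lit 3) (.ev (nat_lit 4880) (nat_lit 4) (.ev (nat_lit 6452) (nat_lit 4096) (.ev (nat_lit 6720)
 (nat_lit 1024) (.ev (nat_lit 6733) (nat_lit 65536) .dd))))) (.br (nat_lit 6) (.ch (nat_lit 5) (.ev (nat_lit
 4880) (nat_lit 4100) (.ev (nat_lit 6740) (nat_lit 65536) (.ev (nat_lit 6749) (nat_lit 1024) .dd)))) (.ch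
 (nat_lit 6) (.ev (nat_lit 4880) (nat_lit 69632) (.ev (nat_lit 6020) (nat_lit 1024) (.ev (nat_lit 6029)
 (nat_lit 4) .dd)))))) (.br (nat_lit 11) (.ch (nat_lit 8) (.ev (nat_lit 4880) (nat_lit 4100) (.ev (nat_lit
 5300) (nat_lit 65536) (.ev (nat_lit 5309) (nat_lit 1024) .dd)))) (.br (nat_lit 12) (.ch (nat_lit 11) (.ev
 (nat_lit 4880) (nat_lit 5120) (.ev (nat_lit 4932) (nat_lit 65536) (.ev (nat_lit 4941) (nat_lit 4) .dd)))) (.ch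
 (nat_lit 12) (.ev (nat_lit 4932) (nat_lit 4096) (.ev (nat_lit 5444) (nat_lit 65536) (.ev (nat_lit 6596)
 (nat_lit 4) (.ev (nat_lit 6605) (nat_lit 1024) .dd)))))))))) (.ch (nat_lit 3) (.ev (nat_lit 1856) (nat_lit
 69632) (.ev (nat_lit 1908) (nat_lit 1024) (.ev (nat_lit 1917) (nat_lit 4) .dd)))))) (.br (nat_lit 9) (.br
 (nat_lit 8) (.ch (nat_lit 6) (.ev (nat_lit 1856) (nat_lit 4) (.ev (nat_lit 2900) (nat_lit 1024) (.ev (nat_lit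
 5764) (nat_lit 65536) (.ev (nat_lit 5773) (nat_lit 4096) .dd))))) (.ch (nat_lit 8) (.ev (nat_lit 1856)
 (nat_lit 1028) (.ev (nat_lit 7168) (nat_lit 69632) .dd)))) (.br (nat_lit 11) (.ch (nat_lit 9) (.ev (nat_lit
 1856) (nat_lit 1028) (.ev (nat_lit 5876) (nat_lit 65536) (.ev (nat_lit 5885) (nat_lit 4096) .dd)))) (.ch
 (nat_lit 11) (.ev (nat_lit 3652) (nat_lit 4) (.ev (nat_lit 6148) (nat_lit 4096) (.ev (nat_lit 6356) (nat_lit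
 1024) (.ev (nat_lit 6365) (nat_lit 65536) .dd))))))))))) (.ch (nat_lit 4) (.ev (nat_lit 1104) (nat_lit 4096)
 (.nd (nat_lit 1840) (.br (nat_lit 6) (.br (nat_lit 3) (.br (nat_lit 1) (.ch (nat_lit 0) (.ev (nat_lit 1856)
 (nat_lit 65540) (.ev (nat_lit 1876) (nat_lit 2) (.ev (nat_lit 1885) (nat_lit 1024) .dd)))) (.ch (nat_lit 1)
 (.ev (nat_lit 1856) (nat_lit 1026) (.ev (nat_lit 1876) (nat_lit 65536) (.ev (nat_lit 1885) (nat_lit 4)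
 .dd))))) (.br (nat_lit 5) (.ch (nat_lit 3) (.ev (nat_lit 2036) (nat_lit 4) (.ev (nat_lit 3604) (nat_lit 2)
 (.ev (nat_lit 5044) (nat_lit 1024) (.ev (nat_lit 5053) (nat_lit 65536) .dd))))) (.ch (nat_lit 5) (.ev (nat_lit
 1856) (nat_lit 6) (.ev (nat_lit 1876) (nat_lit 1024) (.ev (nat_lit 1885) (nat_lit 65536) .dd)))))) (.br
 (nat_lit 10) (.br (nat_lit 8) (.ch (nat_lit 6) (.ev (nat_lit 2004) (nat_lit 4) (.ev (nat_lit 6868) (nat_lit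
 65536) (.ev (nat_lit 6964) (nat_lit 2) (.ev (nat_lit 6973) (nat_lit 1024) .dd))))) (.ch (nat_lit 8) (.ev
 (nat_lit 1856) (nat_lit 6) (.ev (nat_lit 6452) (nat_lit 65536) (.ev (nat_lit 6461) (nat_lit 1024) .dd)))))
 (.br (nat_lit 11) (.ch (nat_lit 10) (.ev (nat_lit 1856) (nat_lit 66560) (.ev (nat_lit 3604) (nat_lit 4) (.ev
 (nat_lit 3613) (nat_lit 2) .dd)))) (.br (nat_lit 12) (.ch (nat_lit 11) (.ev (nat_lit 1856) (nat_lit 66560)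
 (.fin (nat_lit 576555859929678743)))) (.ch (nat_lit 12) (.ev (nat_lit 1876) (nat_lit 1024) (.ev (nat_lit 3604)
 (nat_lit 2) (.nd (nat_lit 7760) (.br (nat_lit 3) (.ch (nat_lit 2) (.ev (nat_lit 7776) (nat_lit 4) (.ev
 (nat_lit 7789) (nat_lit 65536) .dd))) (.ch (nat_lit 3) (.fin (nat_lit 576666910618764014))))))))))))))))) (.br
 (nat_lit 8) (.br (nat_lit 6) (.ch (nat_lit 5) (.ev (nat_lit 1104) (nat_lit 4) (.nd (nat_lit 1840) (.br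
 (nat_lit 8) (.br (nat_lit 5) (.ch (nat_lit 1) (.ev (nat_lit 1856) (nat_lit 2) (.ev (nat_lit 2004) (nat_lit
 4096) (.ev (nat_lit 5492) (nat_lit 1024) (.ev (nat_lit 5501) (nat_lit 65536) .dd))))) (.br (nat_lit 7) (.ch
 (nat_lit 5) (.ev (nat_lit 1856) (nat_lit 1024) (.ev (nat_lit 1876) (nat_lit 65536) (.ev (nat_lit 2868)
 (nat_lit 4096) (.ev (nat_lit 2877) (nat_lit 2) .dd))))) (.ch (nat_lit 7) (.ev (nat_lit 1856) (nat_lit 65536)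
 (.ev (nat_lit 2820) (nat_lit 2) (.ev (nat_lit 6500) (nat_lit 1024) (.ev (nat_lit 6509) (nat_lit 4096)
 .dd))))))) (.br (nat_lit 11) (.ch (nat_lit 8) (.ev (nat_lit 1876) (nat_lit 65536) (.ev (nat_lit 2004) (nat_lit
 4096) (.ev (nat_lit 2036) (nat_lit 2) (.ev (nat_lit 2045) (nat_lit 1024) .dd))))) (.br (nat_lit 12) (.ch
 (nat_lit 11) (.ev (nat_lit 1856) (nat_lit 1026) (.ev (nat_lit 5540) (nat_lit 65536) (.ev (nat_lit 5549)
 (nat_lit 4096) .dd)))) (.ch (nat_lit 12) (.ev (nat_lit 1856) (nat_lit 4098) (.ev (nat_lit 6644) (nat_lit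
 65536) (.ev (nat_lit 6653) (nat_lit 1024) .dd)))))))))) (.ch (nat_lit 6) (.ev (nat_lit 1104) (nat_lit 65540)
 (.nd (nat_lit 2336) (.br (nat_lit 7) (.br (nat_lit 6) (.ch (nat_lit 3) (.ev (nat_lit 2352) (nat_lit 1024) (.ev
 (nat_lit 6900) (nat_lit 2) (.ev (nat_lit 6909) (nat_lit 4096) .dd)))) (.ch (nat_lit 6) (.ev (nat_lit 2372)
 (nat_lit 1024) (.ev (nat_lit 5876) (nat_lit 4096) (.ev (nat_lit 5885) (nat_lit 2) .dd))))) (.br (nat_lit 8)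
 (.ch (nat_lit 7) (.ev (nat_lit 2352) (nat_lit 4096) (.ev (nat_lit 5444) (nat_lit 1024) (.ev (nat_lit 5453)
 (nat_lit 2) .dd)))) (.br (nat_lit 10) (.ch (nat_lit 8) (.ev (nat_lit 2352) (nat_lit 4096) (.ev (nat_lit 2372)
 (nat_lit 1024) (.ev (nat_lit 2381) (nat_lit 2) .dd)))) (.ch (nat_lit 10) (.ev (nat_lit 2352) (nat_lit 2) (.ev
 (nat_lit 2452) (nat_lit 1024) (.ev (nat_lit 2461) (nat_lit 4096) .dd))))))))))) (.br (nat_lit 11) (.ch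
 (nat_lit 8) (.ev (nat_lit 1104) (nat_lit 1024) (.nd (nat_lit 1744) (.br (nat_lit 6) (.br (nat_lit 4) (.ch
 (nat_lit 0) (.ev (nat_lit 1760) (nat_lit 4096) (.ev (nat_lit 1876) (nat_lit 2) (.ev (nat_lit 2196) (nat_lit 4)
 (.ev (nat_lit 2205) (nat_lit 65536) .dd))))) (.br (nat_lit 5) (.ch (nat_lit 4) (.ev (nat_lit 3876) (nat_lit
 65536) (.ev (nat_lit 5456) (nat_lit 2) (.ev (nat_lit 5924) (nat_lit 4) (.ev (nat_lit 5933) (nat_lit 4096)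
 .dd))))) (.ch (nat_lit 5) (.ev (nat_lit 1760) (nat_lit 2) (.ev (nat_lit 2868) (nat_lit 4) (.fin (nat_lit
 576477794734129721))))))) (.br (nat_lit 10) (.br (nat_lit 9) (.ch (nat_lit 6) (.ev (nat_lit 1760) (nat_lit
 4098) (.ev (nat_lit 6656) (nat_lit 65540) .dd))) (.ch (nat_lit 9) (.ev (nat_lit 1760) (nat_lit 65536) (.ev
 (nat_lit 6720) (nat_lit 4) (.fin (nat_lit 576377739257791020)))))) (.br (nat_lit 11) (.ch (nat_lit 10) (.ev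
 (nat_lit 1760) (nat_lit 2) (.ev (nat_lit 1780) (nat_lit 4096) (.ev (nat_lit 2788) (nat_lit 4) (.ev (nat_lit
 2797) (nat_lit 65536) .dd))))) (.ch (nat_lit 11) (.ev (nat_lit 1760) (nat_lit 4) (.ev (nat_lit 1876) (nat_lit
 2) (.ev (nat_lit 5844) (nat_lit 65536) (.ev (nat_lit 5853) (nat_lit 4096) .dd))))))))))) (.ch (nat_lit 11)
 (.ev (nat_lit 1104) (nat_lit 65538) (.ev (nat_lit 2900) (nat_lit 4096) (.nd (nat_lit 3984) (.br (nat_lit 5)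
 (.ch (nat_lit 4) (.fin (nat_lit 576487690240213470))) (.ch (nat_lit 5) (.ev (nat_lit 4020) (nat_lit 4) (.ev
 (nat_lit 4029) (nat_lit 1024) .dd))))))))))))))) (.br (nat_lit 11) (.ch (nat_lit 10) (.ev (nat_lit 368)
 (nat_lit 32770) (.nd (nat_lit 736) (.br (nat_lit 6) (.br (nat_lit 2) (.br (nat_lit 1) (.ch (nat_lit 0) (.ev
 (nat_lit 752) (nat_lit 70692) (.ev (nat_lit 765) (nat_lit 64) .dd))) (.ch (nat_lit 1) (.ev (nat_lit 752)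
 (nat_lit 4192) (.ev (nat_lit 1236) (nat_lit 65536) (.ev (nat_lit 3188) (nat_lit 4) (.ev (nat_lit 3197)
 (nat_lit 1024) .dd)))))) (.br (nat_lit 5) (.ch (nat_lit 2) (.ev (nat_lit 752) (nat_lit 1024) (.nd (nat_lit
 1552) (.br (nat_lit 6) (.br (nat_lit 3) (.br (nat_lit 2) (.ch (nat_lit 0) (.ev (nat_lit 1568) (nat_lit 65572)
 (.ev (nat_lit 3044) (nat_lit 4096) (.ev (nat_lit 3053) (nat_lit 64) .dd)))) (.ch (nat_lit 2) (.ev (nat_lit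
 1568) (nat_lit 69696) (.ev (nat_lit 6596) (nat_lit 4) (.ev (nat_lit 6605) (nat_lit 32) .dd))))) (.br (nat_lit
 5) (.ch (nat_lit 3) (.ev (nat_lit 1568) (nat_lit 100) (.ev (nat_lit 5140) (nat_lit 4096) (.ev (nat_lit 5149)
 (nat_lit 65536) .dd)))) (.ch (nat_lit 5) (.ev (nat_lit 1568) (nat_lit 64) (.ev (nat_lit 3604) (nat_lit 65536)
 (.ev (nat_lit 4276) (nat_lit 4096) (.nd (nat_lit 7520) (.br (nat_lit 5) (.ch (nat_lit 3) (.fin (nat_lit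
 576444809397879343))) (.ch (nat_lit 5) (.ev (nat_lit 7536) (nat_lit 32) (.ev (nat_lit 7549) (nat_lit 4)
 .dd))))))))))) (.br (nat_lit 10) (.br (nat_lit 8) (.ch (nat_lit 6) (.ev (nat_lit 1568) (nat_lit 68) (.nd
 (nat_lit 4416) (.br (nat_lit 7) (.br (nat_lit 2) (.ch (nat_lit 0) (.ev (nat_lit 4512) (nat_lit 32) (.ev
 (nat_lit 4644) (nat_lit 4096) (.ev (nat_lit 4653) (nat_lit 65536) .dd)))) (.br (nat_lit 4) (.ch (nat_lit 2)
 (.ev (nat_lit 4432) (nat_lit 32) (.ev (nat_lit 4724) (nat_lit 4096) (.ev (nat_lit 4733) (nat_lit 65536)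
 .dd)))) (.ch (nat_lit 4) (.ev (nat_lit 4644) (nat_lit 4096) (.ev (nat_lit 5236) (nat_lit 65536) (.ev (nat_lit
 5245) (nat_lit 32) .dd)))))) (.br (nat_lit 11) (.ch (nat_lit 7) (.ev (nat_lit 4432) (nat_lit 65536) (.ev
 (nat_lit 4724) (nat_lit 4096) (.ev (nat_lit 4733) (nat_lit 32) .dd)))) (.br (nat_lit 12) (.ch (nat_lit 11)
 (.ev (nat_lit 4432) (nat_lit 65536) (.ev (nat_lit 4644) (nat_lit 4096) (.ev (nat_lit 4653) (nat_lit 32)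
 .dd)))) (.ch (nat_lit 12) (.ev (nat_lit 4532) (nat_lit 32) (.ev (nat_lit 4724) (nat_lit 4096) (.ev (nat_lit
 4733) (nat_lit 65536) .dd)))))))))) (.ch (nat_lit 8) (.ev (nat_lit 1568) (nat_lit 32) (.ev (nat_lit 2900)
 (nat_lit 4) (.ev (nat_lit 3652) (nat_lit 64) (.ev (nat_lit 6500) (nat_lit 4096) (.ev (nat_lit 6509) (nat_lit
 65536) .dd))))))) (.br (nat_lit 12) (.ch (nat_lit 10) (.ev (nat_lit 1568) (nat_lit 4160) (.ev (nat_lit 1796)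
 (nat_lit 32) (.ev (nat_lit 6160) (nat_lit 65536) (.ev (nat_lit 6173) (nat_lit 4) .dd))))) (.ch (nat_lit 12)
 (.ev (nat_lit 1568) (nat_lit 4) (.ev (nat_lit 3652) (nat_lit 65536) (.ev (nat_lit 5540) (nat_lit 64) (.ev
 (nat_lit 5572) (nat_lit 32) (.ev (nat_lit 5581) (nat_lit 4096) .dd)))))))))))) (.ch (nat_lit 5) (.ev (nat_lit
 752) (nat_lit 66596) (.ev (nat_lit 1124) (nat_lit 4096) (.ev (nat_lit 1133) (nat_lit 64) .dd)))))) (.br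
 (nat_lit 9) (.br (nat_lit 8) (.ch (nat_lit 6) (.ev (nat_lit 752) (nat_lit 64) (.nd (nat_lit 1456) (.br
 (nat_lit 6) (.br (nat_lit 4) (.br (nat_lit 2) (.ch (nat_lit 0) (.ev (nat_lit 1472) (nat_lit 4096) (.ev
 (nat_lit 1604) (nat_lit 4) (.ev (nat_lit 1684) (nat_lit 1024) (.nd (nat_lit 4224) (.br (nat_lit 8) (.ch
 (nat_lit 3) (.fin (nat_lit 576462401578680899))) (.ch (nat_lit 8) (.ev (nat_lit 4276) (nat_lit 65536) (.ev
 (nat_lit 4285) (nat_lit 32) .dd))))))))) (.ch (nat_lit 2) (.ev (nat_lit 1472) (nat_lit 4128) (.ev (nat_lit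
 2516) (nat_lit 1024) (.ev (nat_lit 3652) (nat_lit 65536) (.ev (nat_lit 3661) (nat_lit 4) .dd)))))) (.br
 (nat_lit 5) (.ch (nat_lit 4) (.ev (nat_lit 1472) (nat_lit 1028) (.ev (nat_lit 1796) (nat_lit 65536) (.ev
 (nat_lit 3044) (nat_lit 32) (.ev (nat_lit 3053) (nat_lit 4096) .dd))))) (.ch (nat_lit 5) (.ev (nat_lit 1684)
 (nat_lit 1024) (.ev (nat_lit 1716) (nat_lit 4096) (.ev (nat_lit 2452) (nat_lit 65536) (.ev (nat_lit 5300)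
 (nat_lit 32) (.ev (nat_lit 5309) (nat_lit 4) .dd)))))))) (.br (nat_lit 10) (.br (nat_lit 9) (.ch (nat_lit 6)
 (.ev (nat_lit 1472) (nat_lit 66564) (.ev (nat_lit 5764) (nat_lit 4096) (.ev (nat_lit 5773) (nat_lit 32)
 .dd)))) (.ch (nat_lit 9) (.ev (nat_lit 1472) (nat_lit 1060) (.ev (nat_lit 4996) (nat_lit 65536) (.ev (nat_lit
 5005) (nat_lit 4096) .dd))))) (.br (nat_lit 12) (.ch (nat_lit 10) (.ev (nat_lit 1472) (nat_lit 69632) (.ev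
 (nat_lit 1700) (nat_lit 1024) (.ev (nat_lit 5876) (nat_lit 4) (.ev (nat_lit 5885) (nat_lit 32) .dd))))) (.ch
 (nat_lit 12) (.ev (nat_lit 1472) (nat_lit 1056) (.ev (nat_lit 3812) (nat_lit 65536) (.ev (nat_lit 3892)
 (nat_lit 4096) (.ev (nat_lit 3901) (nat_lit 4) .dd))))))))))) (.ch (nat_lit 8) (.ev (nat_lit 752) (nat_lit 68)
 (.ev (nat_lit 820) (nat_lit 1024) (.nd (nat_lit 1968) (.br (nat_lit 6) (.br (nat_lit 2) (.br (nat_lit 1) (.ch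
 (nat_lit 0) (.ev (nat_lit 1984) (nat_lit 4096) (.ev (nat_lit 3012) (nat_lit 32) (.ev (nat_lit 3021) (nat_lit
 65536) .dd)))) (.ch (nat_lit 1) (.ev (nat_lit 2164) (nat_lit 4096) (.ev (nat_lit 2868) (nat_lit 65536) (.ev
 (nat_lit 2877) (nat_lit 32) .dd))))) (.br (nat_lit 3) (.ch (nat_lit 2) (.ev (nat_lit 1984) (nat_lit 4096) (.ev
 (nat_lit 2180) (nat_lit 32) (.ev (nat_lit 2189) (nat_lit 65536) .dd)))) (.ch (nat_lit 3) (.ev (nat_lit 1984)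
 (nat_lit 65536) (.ev (nat_lit 2004) (nat_lit 32) (.ev (nat_lit 2013) (nat_lit 4096) .dd)))))) (.br (nat_lit
 10) (.br (nat_lit 9) (.ch (nat_lit 6) (.ev (nat_lit 1984) (nat_lit 32) (.ev (nat_lit 2164) (nat_lit 4096) (.ev
 (nat_lit 2173) (nat_lit 65536) .dd)))) (.ch (nat_lit 9) (.ev (nat_lit 1984) (nat_lit 4128) (.ev (nat_lit 1997)
 (nat_lit 65536) .dd)))) (.br (nat_lit 11) (.ch (nat_lit 10) (.ev (nat_lit 1984) (nat_lit 65568) (.ev (nat_lit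
 1997) (nat_lit 4096) .dd))) (.br (nat_lit 12) (.ch (nat_lit 11) (.ev (nat_lit 1984) (nat_lit 32) (.ev (nat_lit
 2752) (nat_lit 69632) .dd))) (.ch (nat_lit 12) (.ev (nat_lit 1984) (nat_lit 65568) (.ev (nat_lit 1997)
 (nat_lit 4096) .dd)))))))))))) (.br (nat_lit 10) (.ch (nat_lit 9) (.ev (nat_lit 752) (nat_lit 1024) (.nd
 (nat_lit 1456) (.br (nat_lit 7) (.br (nat_lit 3) (.br (nat_lit 2) (.ch (nat_lit 0) (.ev (nat_lit 1472)
 (nat_lit 65572) (.ev (nat_lit 2420) (nat_lit 64) (.ev (nat_lit 2429) (nat_lit 4096) .dd)))) (.ch (nat_lit 2)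
 (.ev (nat_lit 1876) (nat_lit 4096) (.ev (nat_lit 3540) (nat_lit 65540) (.ev (nat_lit 6740) (nat_lit 32) (.ev
 (nat_lit 6749) (nat_lit 64) .dd)))))) (.br (nat_lit 5) (.ch (nat_lit 3) (.ev (nat_lit 1472) (nat_lit 65636)
 (.ev (nat_lit 1485) (nat_lit 4096) .dd))) (.ch (nat_lit 5) (.ev (nat_lit 1472) (nat_lit 4160) (.ev (nat_lit
 5844) (nat_lit 65536) (.ev (nat_lit 5968) (nat_lit 4) (.ev (nat_lit 5981) (nat_lit 32) .dd))))))) (.br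
 (nat_lit 9) (.br (nat_lit 8) (.ch (nat_lit 7) (.ev (nat_lit 1472) (nat_lit 4192) (.ev (nat_lit 2868) (nat_lit
 65536) (.ev (nat_lit 2877) (nat_lit 4) .dd)))) (.ch (nat_lit 8) (.ev (nat_lit 1472) (nat_lit 65636) (.ev
 (nat_lit 1485) (nat_lit 4096) .dd)))) (.br (nat_lit 10) (.ch (nat_lit 9) (.ev (nat_lit 1472) (nat_lit 69632)
 (.ev (nat_lit 2388) (nat_lit 32) (.fin (nat_lit 576544864874218044))))) (.br (nat_lit 11) (.ch (nat_lit 10)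
 (.ev (nat_lit 1472) (nat_lit 4164) (.ev (nat_lit 1780) (nat_lit 65536) (.ev (nat_lit 1789) (nat_lit 32)
 .dd)))) (.ch (nat_lit 11) (.ev (nat_lit 1472) (nat_lit 69636) (.ev (nat_lit 6260) (nat_lit 64) (.ev (nat_lit
 6269) (nat_lit 32) .dd))))))))))) (.br (nat_lit 11) (.ch (nat_lit 10) (.ev (nat_lit 752) (nat_lit 69696) (.nd
 (nat_lit 1968) (.br (nat_lit 9) (.br (nat_lit 6) (.ch (nat_lit 2) (.ev (nat_lit 2420) (nat_lit 4) (.ev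
 (nat_lit 3076) (nat_lit 32) (.ev (nat_lit 3085) (nat_lit 1024) .dd)))) (.br (nat_lit 8) (.ch (nat_lit 6) (.ev
 (nat_lit 5716) (nat_lit 1024) (.fin (nat_lit 576770265394397872)))) (.ch (nat_lit 8) (.ev (nat_lit 1984)
 (nat_lit 32) (.ev (nat_lit 2004) (nat_lit 1024) (.ev (nat_lit 2013) (nat_lit 4) .dd)))))) (.br (nat_lit 11)
 (.ch (nat_lit 9) (.ev (nat_lit 1984) (nat_lit 32) (.ev (nat_lit 6020) (nat_lit 1024) (.ev (nat_lit 6029)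
 (nat_lit 4) .dd)))) (.br (nat_lit 12) (.ch (nat_lit 11) (.ev (nat_lit 1984) (nat_lit 32) (.ev (nat_lit 3188)
 (nat_lit 4) (.ev (nat_lit 3197) (nat_lit 1024) .dd)))) (.ch (nat_lit 12) (.ev (nat_lit 1984) (nat_lit 1024)
 (.ev (nat_lit 2036) (nat_lit 4) (.ev (nat_lit 2045) (nat_lit 32) .dd)))))))))) (.ch (nat_lit 11) (.ev (nat_lit
 752) (nat_lit 4) (.nd (nat_lit 1648) (.br (nat_lit 7) (.br (nat_lit 3) (.ch (nat_lit 0) (.ev (nat_lit 1664)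
 (nat_lit 4160) (.ev (nat_lit 3812) (nat_lit 65536) (.fin (nat_lit 576398630317409280))))) (.br (nat_lit 6)
 (.ch (nat_lit 3) (.ev (nat_lit 1664) (nat_lit 64) (.ev (nat_lit 1684) (nat_lit 4128) (.ev (nat_lit 1892)
 (nat_lit 1024) (.ev (nat_lit 1901) (nat_lit 65536) .dd))))) (.ch (nat_lit 6) (.ev (nat_lit 1664) (nat_lit 96)
 (.ev (nat_lit 1780) (nat_lit 1024) (.ev (nat_lit 6596) (nat_lit 4096) (.ev (nat_lit 6605) (nat_lit 65536)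
 .dd))))))) (.br (nat_lit 11) (.br (nat_lit 9) (.ch (nat_lit 7) (.ev (nat_lit 1664) (nat_lit 65536) (.ev
 (nat_lit 3604) (nat_lit 1088) (.ev (nat_lit 6148) (nat_lit 4096) (.ev (nat_lit 6157) (nat_lit 32) .dd)))))
 (.ch (nat_lit 9) (.ev (nat_lit 1664) (nat_lit 65568) (.ev (nat_lit 3284) (nat_lit 1024) (.nd (nat_lit 7760)
 (.ch (nat_lit 1) (.nd (nat_lit 9216) (.br (nat_lit 11) (.ch (nat_lit 8) (.ev (nat_lit 9232) (nat_lit 64) (.ev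
 (nat_lit 9245) (nat_lit 4096) .dd))) (.ch (nat_lit 11) (.fin (nat_lit 574702083503505076))))))))))) (.br
 (nat_lit 12) (.ch (nat_lit 11) (.ev (nat_lit 1664) (nat_lit 1088) (.ev (nat_lit 1684) (nat_lit 4096) (.ev
 (nat_lit 6964) (nat_lit 65536) (.ev (nat_lit 6973) (nat_lit 32) .dd))))) (.ch (nat_lit 12) (.ev (nat_lit 1664)
 (nat_lit 1088) (.ev (nat_lit 1780) (nat_lit 65536) (.nd (nat_lit 4304) (.br (nat_lit 10) (.br (nat_lit 6) (.ch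
 (nat_lit 3) (.ev (nat_lit 6148) (nat_lit 32) (.ev (nat_lit 6157) (nat_lit 4096) .dd))) (.ch (nat_lit 6) (.ev
 (nat_lit 6400) (nat_lit 4096) (.ev (nat_lit 6413) (nat_lit 32) .dd)))) (.br (nat_lit 11) (.ch (nat_lit 10)
 (.ev (nat_lit 4320) (nat_lit 4096) (.ev (nat_lit 4333) (nat_lit 32) .dd))) (.br (nat_lit 12) (.ch (nat_lit 11)
 (.ev (nat_lit 4320) (nat_lit 4096) (.ev (nat_lit 4333) (nat_lit 32) .dd))) (.ch (nat_lit 12) (.ev (nat_lit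
 4644) (nat_lit 4096) (.ev (nat_lit 4653) (nat_lit 32) .dd))))))))))))))))))))))) (.br (nat_lit 12) (.ch
 (nat_lit 11) (.ev (nat_lit 368) (nat_lit 1062) (.nd (nat_lit 784) (.br (nat_lit 8) (.br (nat_lit 5) (.br
 (nat_lit 4) (.ch (nat_lit 3) (.ev (nat_lit 800) (nat_lit 32832) (.nd (nat_lit 2128) (.br (nat_lit 7) (.br
 (nat_lit 3) (.ch (nat_lit 0) (.ev (nat_lit 3088) (nat_lit 69632) .dd)) (.ch (nat_lit 3) (.ev (nat_lit 2180)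
 (nat_lit 4096) (.ev (nat_lit 2189) (nat_lit 65536) .dd)))) (.br (nat_lit 8) (.ch (nat_lit 7) (.ev (nat_lit
 6452) (nat_lit 65536) (.ev (nat_lit 6461) (nat_lit 4096) .dd))) (.br (nat_lit 9) (.ch (nat_lit 8) (.ev
 (nat_lit 5604) (nat_lit 65536) (.ev (nat_lit 5613) (nat_lit 4096) .dd))) (.ch (nat_lit 9) (.ev (nat_lit 6500)
 (nat_lit 65536) (.ev (nat_lit 6509) (nat_lit 4096) .dd))))))))) (.ch (nat_lit 4) (.ev (nat_lit 820) (nat_lit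
 32768) (.ev (nat_lit 1220) (nat_lit 64) (.nd (nat_lit 3408) (.br (nat_lit 10) (.br (nat_lit 3) (.ch (nat_lit
 0) (.ev (nat_lit 6452) (nat_lit 65536) (.ev (nat_lit 6461) (nat_lit 4096) .dd))) (.ch (nat_lit 3) (.ev
 (nat_lit 3424) (nat_lit 65536) (.ev (nat_lit 3437) (nat_lit 4096) .dd)))) (.br (nat_lit 11) (.ch (nat_lit 10)
 (.ev (nat_lit 3424) (nat_lit 69632) .dd)) (.ch (nat_lit 11) (.ev (nat_lit 3424) (nat_lit 65536) (.ev (nat_lit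
 3437) (nat_lit 4096) .dd)))))))))) (.br (nat_lit 7) (.ch (nat_lit 5) (.ev (nat_lit 800) (nat_lit 102400) (.ev
 (nat_lit 813) (nat_lit 64) .dd))) (.ch (nat_lit 7) (.ev (nat_lit 800) (nat_lit 65536) (.nd (nat_lit 2336) (.br
 (nat_lit 6) (.br (nat_lit 5) (.ch (nat_lit 2) (.ev (nat_lit 2352) (nat_lit 32768) (.ev (nat_lit 2740) (nat_lit
 64) (.ev (nat_lit 2749) (nat_lit 4096) .dd)))) (.ch (nat_lit 5) (.ev (nat_lit 2352) (nat_lit 4096) (.ev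
 (nat_lit 2740) (nat_lit 32768) (.ev (nat_lit 2749) (nat_lit 64) .dd))))) (.br (nat_lit 9) (.ch (nat_lit 6)
 (.ev (nat_lit 2352) (nat_lit 64) (.ev (nat_lit 2740) (nat_lit 32768) (.ev (nat_lit 2749) (nat_lit 4096)
 .dd)))) (.br (nat_lit 12) (.ch (nat_lit 9) (.ev (nat_lit 2352) (nat_lit 64) (.ev (nat_lit 3652) (nat_lit 4096)
 (.ev (nat_lit 3661) (nat_lit 32768) .dd)))) (.ch (nat_lit 12) (.ev (nat_lit 2372) (nat_lit 64) (.ev (nat_lit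
 3076) (nat_lit 32768) (.ev (nat_lit 3085) (nat_lit 4096) .dd)))))))))))) (.br (nat_lit 11) (.br (nat_lit 10)
 (.ch (nat_lit 8) (.ev (nat_lit 800) (nat_lit 4160) (.ev (nat_lit 820) (nat_lit 32768) (.ev (nat_lit 829)
 (nat_lit 65536) .dd)))) (.ch (nat_lit 10) (.ev (nat_lit 800) (nat_lit 64) (.nd (nat_lit 1968) (.br (nat_lit 8)
 (.br (nat_lit 1) (.ch (nat_lit 0) (.ev (nat_lit 1984) (nat_lit 98304) (.ev (nat_lit 1997) (nat_lit 4096)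
 .dd))) (.br (nat_lit 2) (.ch (nat_lit 1) (.ev (nat_lit 5764) (nat_lit 32768) (.ev (nat_lit 6260) (nat_lit
 65536) (.ev (nat_lit 6269) (nat_lit 4096) .dd)))) (.ch (nat_lit 2) (.ev (nat_lit 1984) (nat_lit 32768) (.ev
 (nat_lit 6400) (nat_lit 69632) .dd))))) (.br (nat_lit 9) (.ch (nat_lit 8) (.ev (nat_lit 2212) (nat_lit 65536)
 (.ev (nat_lit 5188) (nat_lit 4096) (.ev (nat_lit 5197) (nat_lit 32768) .dd)))) (.br (nat_lit 10) (.ch (nat_lit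
 9) (.ev (nat_lit 2004) (nat_lit 32768) (.ev (nat_lit 6740) (nat_lit 4096) (.ev (nat_lit 6749) (nat_lit 65536)
 .dd)))) (.ch (nat_lit 10) (.ev (nat_lit 1984) (nat_lit 4096) (.fin (nat_lit 576523974873661993))))))))))) (.br
 (nat_lit 12) (.ch (nat_lit 11) (.ev (nat_lit 800) (nat_lit 4096) (.ev (nat_lit 1220) (nat_lit 32768) (.nd
 (nat_lit 2624) (.br (nat_lit 9) (.br (nat_lit 3) (.ch (nat_lit 1) (.ev (nat_lit 2676) (nat_lit 64) (.ev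
 (nat_lit 2685) (nat_lit 65536) .dd))) (.ch (nat_lit 3) (.ev (nat_lit 2640) (nat_lit 65600) .dd))) (.br
 (nat_lit 10) (.ch (nat_lit 9) (.ev (nat_lit 2640) (nat_lit 64) (.ev (nat_lit 2653) (nat_lit 65536) .dd))) (.br
 (nat_lit 12) (.ch (nat_lit 10) (.ev (nat_lit 2640) (nat_lit 64) (.ev (nat_lit 2653) (nat_lit 65536) .dd)))
 (.ch (nat_lit 12) (.ev (nat_lit 2868) (nat_lit 64) (.ev (nat_lit 2877) (nat_lit 65536) .dd)))))))))) (.ch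
 (nat_lit 12) (.ev (nat_lit 800) (nat_lit 65536) (.nd (nat_lit 2624) (.br (nat_lit 5) (.br (nat_lit 3) (.ch
 (nat_lit 2) (.ev (nat_lit 2676) (nat_lit 4096) (.ev (nat_lit 2740) (nat_lit 64) (.ev (nat_lit 2749) (nat_lit
 32768) .dd)))) (.br (nat_lit 4) (.ch (nat_lit 3) (.ev (nat_lit 2676) (nat_lit 64) (.fin (nat_lit
 576434913933738538)))) (.ch (nat_lit 4) (.ev (nat_lit 2640) (nat_lit 32768) (.ev (nat_lit 2676) (nat_lit 64)
 (.ev (nat_lit 2685) (nat_lit 4096) .dd)))))) (.br (nat_lit 8) (.ch (nat_lit 5) (.ev (nat_lit 2640) (nat_lit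
 4096) (.ev (nat_lit 6272) (nat_lit 32832) .dd))) (.br (nat_lit 11) (.ch (nat_lit 8) (.ev (nat_lit 3604)
 (nat_lit 32768) (.ev (nat_lit 3812) (nat_lit 64) (.ev (nat_lit 3821) (nat_lit 4096) .dd)))) (.ch (nat_lit 11)
 (.ev (nat_lit 2640) (nat_lit 32768) (.ev (nat_lit 2676) (nat_lit 4096) (.ev (nat_lit 2685) (nat_lit 64)
 .dd)))))))))))))))) (.ch (nat_lit 12) (.ev (nat_lit 368) (nat_lit 5216) (.nd (nat_lit 1088) (.br (nat_lit 6)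
 (.br (nat_lit 3) (.br (nat_lit 2) (.ch (nat_lit 1) (.ev (nat_lit 1104) (nat_lit 32768) (.nd (nat_lit 2624)
 (.br (nat_lit 7) (.br (nat_lit 3) (.ch (nat_lit 0) (.ev (nat_lit 2640) (nat_lit 65536) (.ev (nat_lit 2676)
 (nat_lit 2) (.ev (nat_lit 2685) (nat_lit 4) .dd)))) (.br (nat_lit 6) (.ch (nat_lit 3) (.ev (nat_lit 3604)
 (nat_lit 65536) (.ev (nat_lit 3812) (nat_lit 4) (.ev (nat_lit 3821) (nat_lit 2) .dd)))) (.ch (nat_lit 6) (.ev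
 (nat_lit 2640) (nat_lit 2) (.ev (nat_lit 6272) (nat_lit 65540) .dd))))) (.br (nat_lit 8) (.ch (nat_lit 7) (.ev
 (nat_lit 2640) (nat_lit 65536) (.ev (nat_lit 2676) (nat_lit 2) (.ev (nat_lit 2685) (nat_lit 4) .dd)))) (.br
 (nat_lit 9) (.ch (nat_lit 8) (.ev (nat_lit 3476) (nat_lit 4) (.fin (nat_lit 576434913629651518)))) (.ch
 (nat_lit 9) (.ev (nat_lit 2676) (nat_lit 2) (.ev (nat_lit 2800) (nat_lit 4) (.ev (nat_lit 2813) (nat_lit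
 65536) .dd)))))))))) (.ch (nat_lit 2) (.ev (nat_lit 1104) (nat_lit 2) (.ev (nat_lit 1220) (nat_lit 65536) (.nd
 (nat_lit 3408) (.br (nat_lit 10) (.br (nat_lit 8) (.ch (nat_lit 1) (.ev (nat_lit 3424) (nat_lit 4) (.ev
 (nat_lit 3437) (nat_lit 32768) .dd))) (.ch (nat_lit 8) (.ev (nat_lit 3424) (nat_lit 32772) .dd))) (.br
 (nat_lit 12) (.ch (nat_lit 10) (.ev (nat_lit 3424) (nat_lit 4) (.ev (nat_lit 3437) (nat_lit 32768) .dd))) (.ch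
 (nat_lit 12) (.ev (nat_lit 3488) (nat_lit 32772) .dd))))))))) (.br (nat_lit 5) (.ch (nat_lit 3) (.ev (nat_lit
 1104) (nat_lit 4) (.nd (nat_lit 1744) (.br (nat_lit 9) (.br (nat_lit 2) (.ch (nat_lit 1) (.ev (nat_lit 1760)
 (nat_lit 2) (.fin (nat_lit 576523973573427856)))) (.br (nat_lit 3) (.ch (nat_lit 2) (.ev (nat_lit 1780)
 (nat_lit 65536) (.nd (nat_lit 4864) (.br (nat_lit 4) (.ch (nat_lit 2) (.ev (nat_lit 4932) (nat_lit 2) (.ev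
 (nat_lit 4941) (nat_lit 32768) .dd))) (.br (nat_lit 5) (.ch (nat_lit 4) (.ev (nat_lit 6740) (nat_lit 2) (.ev
 (nat_lit 6749) (nat_lit 32768) .dd))) (.ch (nat_lit 5) (.ev (nat_lit 5008) (nat_lit 32770) .dd))))))) (.ch
 (nat_lit 3) (.ev (nat_lit 2212) (nat_lit 32768) (.ev (nat_lit 5188) (nat_lit 2) (.ev (nat_lit 5197) (nat_lit
 65536) .dd)))))) (.br (nat_lit 10) (.ch (nat_lit 9) (.ev (nat_lit 1760) (nat_lit 65536) (.nd (nat_lit 4864)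
 (.br (nat_lit 6) (.ch (nat_lit 5) (.ev (nat_lit 5188) (nat_lit 2) (.ev (nat_lit 5197) (nat_lit 32768) .dd)))
 (.br (nat_lit 8) (.ch (nat_lit 6) (.ev (nat_lit 6400) (nat_lit 32770) .dd)) (.ch (nat_lit 8) (.ev (nat_lit
 5248) (nat_lit 32770) .dd))))))) (.br (nat_lit 11) (.ch (nat_lit 10) (.ev (nat_lit 5764) (nat_lit 65536) (.ev
 (nat_lit 6260) (nat_lit 32768) (.ev (nat_lit 6269) (nat_lit 2) .dd)))) (.ch (nat_lit 11) (.ev (nat_lit 1760)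
 (nat_lit 98304) (.ev (nat_lit 1773) (nat_lit 2) .dd))))))))) (.ch (nat_lit 5) (.ev (nat_lit 1104) (nat_lit 6)
 (.ev (nat_lit 1124) (nat_lit 65536) (.ev (nat_lit 1133) (nat_lit 32768) .dd)))))) (.br (nat_lit 9) (.br
 (nat_lit 8) (.ch (nat_lit 6) (.ev (nat_lit 1104) (nat_lit 32768) (.nd (nat_lit 2128) (.br (nat_lit 6) (.br
 (nat_lit 5) (.ch (nat_lit 2) (.ev (nat_lit 2144) (nat_lit 4) (.ev (nat_lit 3652) (nat_lit 2) (.ev (nat_lit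
 3661) (nat_lit 65536) .dd)))) (.ch (nat_lit 5) (.ev (nat_lit 2144) (nat_lit 4) (.ev (nat_lit 2740) (nat_lit
 65536) (.ev (nat_lit 2749) (nat_lit 2) .dd))))) (.br (nat_lit 9) (.ch (nat_lit 6) (.ev (nat_lit 2144) (nat_lit
 2) (.ev (nat_lit 2740) (nat_lit 65536) (.ev (nat_lit 2749) (nat_lit 4) .dd)))) (.br (nat_lit 12) (.ch (nat_lit
 9) (.ev (nat_lit 2144) (nat_lit 65536) (.ev (nat_lit 2740) (nat_lit 4) (.ev (nat_lit 2749) (nat_lit 2) .dd))))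
 (.ch (nat_lit 12) (.ev (nat_lit 2676) (nat_lit 4) (.ev (nat_lit 3076) (nat_lit 65536) (.ev (nat_lit 3085)
 (nat_lit 2) .dd)))))))))) (.ch (nat_lit 8) (.ev (nat_lit 1104) (nat_lit 98306) (.ev (nat_lit 1117) (nat_lit 4)
 .dd)))) (.br (nat_lit 10) (.ch (nat_lit 9) (.ev (nat_lit 1124) (nat_lit 65536) (.ev (nat_lit 1220) (nat_lit 4)
 (.nd (nat_lit 2624) (.br (nat_lit 8) (.br (nat_lit 1) (.ch (nat_lit 0) (.ev (nat_lit 2640) (nat_lit 32768)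
 (.ev (nat_lit 2653) (nat_lit 2) .dd))) (.br (nat_lit 6) (.ch (nat_lit 1) (.ev (nat_lit 2640) (nat_lit 32768)
 (.ev (nat_lit 2653) (nat_lit 2) .dd))) (.ch (nat_lit 6) (.ev (nat_lit 2640) (nat_lit 2) (.ev (nat_lit 2653)
 (nat_lit 32768) .dd))))) (.br (nat_lit 10) (.ch (nat_lit 8) (.ev (nat_lit 2676) (nat_lit 2) (.ev (nat_lit
 2685) (nat_lit 32768) .dd))) (.br (nat_lit 11) (.ch (nat_lit 10) (.ev (nat_lit 2676) (nat_lit 32768) (.ev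
 (nat_lit 2685) (nat_lit 2) .dd))) (.ch (nat_lit 11) (.ev (nat_lit 6452) (nat_lit 32768) (.ev (nat_lit 6461)
 (nat_lit 2) .dd)))))))))) (.ch (nat_lit 10) (.ev (nat_lit 1104) (nat_lit 65540) (.nd (nat_lit 2128) (.br
 (nat_lit 4) (.br (nat_lit 3) (.ch (nat_lit 2) (.ev (nat_lit 6500) (nat_lit 32768) (.ev (nat_lit 6509) (nat_lit
 2) .dd))) (.ch (nat_lit 3) (.ev (nat_lit 5604) (nat_lit 32768) (.ev (nat_lit 5613) (nat_lit 2) .dd)))) (.br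
 (nat_lit 8) (.ch (nat_lit 4) (.ev (nat_lit 6452) (nat_lit 32768) (.ev (nat_lit 6461) (nat_lit 2) .dd))) (.br
 (nat_lit 11) (.ch (nat_lit 8) (.ev (nat_lit 2180) (nat_lit 2) (.ev (nat_lit 2189) (nat_lit 32768) .dd))) (.ch
 (nat_lit 11) (.ev (nat_lit 3316) (nat_lit 2) (.ev (nat_lit 3325) (nat_lit 32768)
 .dd))))))))))))))))))))))))))))

/-- Subtrie. -/
noncomputable def T5 : Tr := (.ev (nat_lit 20) (nat_lit 199938) (.nd (nat_lit 32) (.br (nat_lit 6) (.br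
 (nat_lit 4) (.br (nat_lit 1) (.ch (nat_lit 0) (.ev (nat_lit 48) (nat_lit 4) (.nd (nat_lit 528) (.br (nat_lit
 5) (.br (nat_lit 2) (.br (nat_lit 1) (.ch (nat_lit 0) (.nd (nat_lit 1008) (.br (nat_lit 8) (.br (nat_lit 6)
 (.br (nat_lit 5) (.ch (nat_lit 2) (.ev (nat_lit 1024) (nat_lit 40960) (.ev (nat_lit 1044) (nat_lit 4096) (.ev
 (nat_lit 1220) (nat_lit 32) (.ev (nat_lit 1229) (nat_lit 64) .dd))))) (.ch (nat_lit 5) (.ev (nat_lit 1024)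
 (nat_lit 36896) (.nd (nat_lit 2128) (.br (nat_lit 7) (.br (nat_lit 3) (.ch (nat_lit 2) (.ev (nat_lit 2144)
 (nat_lit 8192) (.ev (nat_lit 2157) (nat_lit 64) .dd))) (.br (nat_lit 5) (.ch (nat_lit 3) (.ev (nat_lit 2144)
 (nat_lit 64) (.ev (nat_lit 2157) (nat_lit 8192) .dd))) (.ch (nat_lit 5) (.ev (nat_lit 2144) (nat_lit 8192)
 (.ev (nat_lit 2157) (nat_lit 64) .dd))))) (.br (nat_lit 9) (.ch (nat_lit 7) (.ev (nat_lit 2144) (nat_lit 64)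
 (.ev (nat_lit 2157) (nat_lit 8192) .dd))) (.br (nat_lit 12) (.ch (nat_lit 9) (.ev (nat_lit 2868) (nat_lit
 8192) (.ev (nat_lit 2877) (nat_lit 64) .dd))) (.ch (nat_lit 12) (.ev (nat_lit 2144) (nat_lit 8192) (.ev
 (nat_lit 2157) (nat_lit 64) .dd)))))))))) (.br (nat_lit 7) (.ch (nat_lit 6) (.ev (nat_lit 1024) (nat_lit 64)
 (.nd (nat_lit 1648) (.br (nat_lit 7) (.br (nat_lit 2) (.ch (nat_lit 0) (.ev (nat_lit 3652) (nat_lit 32) (.nd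
 (nat_lit 4592) (.br (nat_lit 4) (.br (nat_lit 1) (.ch (nat_lit 0) (.ev (nat_lit 4608) (nat_lit 36864) (.ev
 (nat_lit 4621) (nat_lit 8192) .dd))) (.br (nat_lit 2) (.ch (nat_lit 1) (.ev (nat_lit 4608) (nat_lit 45056)
 .dd)) (.ch (nat_lit 2) (.ev (nat_lit 4608) (nat_lit 40960) (.ev (nat_lit 4621) (nat_lit 4096) .dd))))) (.br
 (nat_lit 10) (.br (nat_lit 9) (.ch (nat_lit 4) (.ev (nat_lit 4608) (nat_lit 32768) (.ev (nat_lit 6608)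
 (nat_lit 12288) .dd))) (.ch (nat_lit 9) (.ev (nat_lit 4608) (nat_lit 32768) (.fin (nat_lit
 576471197685334591))))) (.br (nat_lit 12) (.ch (nat_lit 10) (.ev (nat_lit 4608) (nat_lit 45056) .dd)) (.ch
 (nat_lit 12) (.ev (nat_lit 4608) (nat_lit 8192) (.ev (nat_lit 5540) (nat_lit 32768) (.ev (nat_lit 5549)
 (nat_lit 4096) .dd)))))))))) (.br (nat_lit 3) (.ch (nat_lit 2) (.ev (nat_lit 1664) (nat_lit 8192) (.ev
 (nat_lit 1876) (nat_lit 32768) (.ev (nat_lit 6964) (nat_lit 32) (.ev (nat_lit 6973) (nat_lit 4096) .dd)))))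
 (.ch (nat_lit 3) (.ev (nat_lit 2432) (nat_lit 32) (.ev (nat_lit 2788) (nat_lit 4096) (.nd (nat_lit 4864) (.br
 (nat_lit 11) (.br (nat_lit 9) (.ch (nat_lit 1) (.ev (nat_lit 4880) (nat_lit 32768) (.ev (nat_lit 4893)
 (nat_lit 8192) .dd))) (.ch (nat_lit 9) (.ev (nat_lit 4880) (nat_lit 8192) (.ev (nat_lit 4893) (nat_lit 32768)
 .dd)))) (.br (nat_lit 12) (.ch (nat_lit 11) (.ev (nat_lit 4880) (nat_lit 8192) (.ev (nat_lit 4893) (nat_lit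
 32768) .dd))) (.ch (nat_lit 12) (.fin (nat_lit 576399729375003264))))))))))) (.br (nat_lit 10) (.br (nat_lit
 9) (.ch (nat_lit 7) (.ev (nat_lit 1664) (nat_lit 36896) (.ev (nat_lit 1677) (nat_lit 8192) .dd))) (.ch
 (nat_lit 9) (.ev (nat_lit 1664) (nat_lit 32800) (.nd (nat_lit 3984) (.br (nat_lit 11) (.ch (nat_lit 3) (.ev
 (nat_lit 4000) (nat_lit 4096) (.ev (nat_lit 4013) (nat_lit 8192) .dd))) (.ch (nat_lit 11) (.ev (nat_lit 6020)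
 (nat_lit 8192) (.ev (nat_lit 6029) (nat_lit 4096) .dd)))))))) (.br (nat_lit 11) (.ch (nat_lit 10) (.ev
 (nat_lit 1664) (nat_lit 40960) (.ev (nat_lit 1700) (nat_lit 4096) (.ev (nat_lit 1709) (nat_lit 32) .dd))))
 (.ch (nat_lit 11) (.ev (nat_lit 1664) (nat_lit 32768) (.nd (nat_lit 4224) (.br (nat_lit 6) (.br (nat_lit 4)
 (.ch (nat_lit 0) (.ev (nat_lit 4240) (nat_lit 32) (.ev (nat_lit 5300) (nat_lit 4096) (.ev (nat_lit 5309)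
 (nat_lit 8192) .dd)))) (.ch (nat_lit 4) (.ev (nat_lit 4240) (nat_lit 32) (.ev (nat_lit 5876) (nat_lit 8192)
 (.ev (nat_lit 5885) (nat_lit 4096) .dd))))) (.br (nat_lit 9) (.ch (nat_lit 6) (.ev (nat_lit 4240) (nat_lit
 8192) (.ev (nat_lit 4356) (nat_lit 4096) (.ev (nat_lit 4365) (nat_lit 32) .dd)))) (.br (nat_lit 11) (.ch
 (nat_lit 9) (.ev (nat_lit 4240) (nat_lit 8224) (.ev (nat_lit 4253) (nat_lit 4096) .dd))) (.ch (nat_lit 11)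
 (.ev (nat_lit 4240) (nat_lit 12288) (.ev (nat_lit 4253) (nat_lit 32) .dd))))))))))))))) (.ch (nat_lit 7) (.ev
 (nat_lit 1024) (nat_lit 36928) (.nd (nat_lit 1968) (.br (nat_lit 4) (.br (nat_lit 2) (.ch (nat_lit 1) (.ev
 (nat_lit 6452) (nat_lit 32) (.ev (nat_lit 6461) (nat_lit 8192) .dd))) (.br (nat_lit 3) (.ch (nat_lit 2) (.ev
 (nat_lit 1984) (nat_lit 8192) (.ev (nat_lit 1997) (nat_lit 32) .dd))) (.ch (nat_lit 3) (.ev (nat_lit 1984)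
 (nat_lit 32) (.ev (nat_lit 1997) (nat_lit 8192) .dd))))) (.br (nat_lit 6) (.br (nat_lit 5) (.ch (nat_lit 4)
 (.ev (nat_lit 5572) (nat_lit 8192) (.ev (nat_lit 5581) (nat_lit 32) .dd))) (.ch (nat_lit 5) (.ev (nat_lit
 1984) (nat_lit 32) (.ev (nat_lit 1997) (nat_lit 8192) .dd)))) (.br (nat_lit 9) (.ch (nat_lit 6) (.ev (nat_lit
 2848) (nat_lit 32) (.ev (nat_lit 2861) (nat_lit 8192) .dd))) (.ch (nat_lit 9) (.ev (nat_lit 1984) (nat_lit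
 8192) (.ev (nat_lit 1997) (nat_lit 32) .dd))))))))))) (.br (nat_lit 10) (.br (nat_lit 9) (.ch (nat_lit 8) (.ev
 (nat_lit 1024) (nat_lit 32832) (.nd (nat_lit 1552) (.br (nat_lit 9) (.br (nat_lit 3) (.br (nat_lit 2) (.ch
 (nat_lit 0) (.ev (nat_lit 1568) (nat_lit 4096) (.nd (nat_lit 4304) (.br (nat_lit 4) (.br (nat_lit 2) (.ch
 (nat_lit 0) (.ev (nat_lit 4320) (nat_lit 8192) (.ev (nat_lit 4333) (nat_lit 32) .dd))) (.ch (nat_lit 2) (.ev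
 (nat_lit 6356) (nat_lit 32) (.ev (nat_lit 6365) (nat_lit 8192) .dd)))) (.br (nat_lit 5) (.ch (nat_lit 4) (.ev
 (nat_lit 4320) (nat_lit 8192) (.ev (nat_lit 4333) (nat_lit 32) .dd))) (.br (nat_lit 12) (.ch (nat_lit 5) (.ev
 (nat_lit 4320) (nat_lit 8192) (.ev (nat_lit 4333) (nat_lit 32) .dd))) (.ch (nat_lit 12) (.ev (nat_lit 4756)
 (nat_lit 32) (.ev (nat_lit 4765) (nat_lit 8192) .dd))))))))) (.ch (nat_lit 2) (.ev (nat_lit 2868) (nat_lit 32)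
 (.nd (nat_lit 4592) (.br (nat_lit 8) (.ch (nat_lit 6) (.ev (nat_lit 5924) (nat_lit 8192) (.ev (nat_lit 5933)
 (nat_lit 4096) .dd))) (.ch (nat_lit 8) (.ev (nat_lit 4608) (nat_lit 8192) (.ev (nat_lit 4621) (nat_lit 4096)
 .dd)))))))) (.br (nat_lit 5) (.ch (nat_lit 3) (.ev (nat_lit 1568) (nat_lit 4096) (.nd (nat_lit 4416) (.br
 (nat_lit 12) (.ch (nat_lit 9) (.ev (nat_lit 5844) (nat_lit 8192) (.ev (nat_lit 5853) (nat_lit 32) .dd))) (.ch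
 (nat_lit 12) (.ev (nat_lit 4432) (nat_lit 8192) (.ev (nat_lit 4445) (nat_lit 32) .dd))))))) (.ch (nat_lit 5)
 (.ev (nat_lit 1568) (nat_lit 32) (.ev (nat_lit 2100) (nat_lit 8192) (.ev (nat_lit 2109) (nat_lit 4096)
 .dd)))))) (.br (nat_lit 11) (.br (nat_lit 10) (.ch (nat_lit 9) (.ev (nat_lit 1568) (nat_lit 8192) (.ev
 (nat_lit 3908) (nat_lit 32) (.ev (nat_lit 3917) (nat_lit 4096) .dd)))) (.ch (nat_lit 10) (.nd (nat_lit 4224)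
 (.br (nat_lit 8) (.br (nat_lit 5) (.ch (nat_lit 0) (.ev (nat_lit 4240) (nat_lit 8224) (.ev (nat_lit 4253)
 (nat_lit 4096) .dd))) (.ch (nat_lit 5) (.ev (nat_lit 4240) (nat_lit 32) (.ev (nat_lit 6064) (nat_lit 8192)
 (.ev (nat_lit 6077) (nat_lit 4096) .dd))))) (.br (nat_lit 12) (.ch (nat_lit 8) (.ev (nat_lit 4240) (nat_lit
 32) (.ev (nat_lit 5364) (nat_lit 8192) (.ev (nat_lit 5373) (nat_lit 4096) .dd)))) (.ch (nat_lit 12) (.ev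
 (nat_lit 4240) (nat_lit 4096) (.ev (nat_lit 5668) (nat_lit 32) (.ev (nat_lit 5677) (nat_lit 8192) .dd)))))))))
 (.br (nat_lit 12) (.ch (nat_lit 11) (.nd (nat_lit 4224) (.br (nat_lit 8) (.br (nat_lit 4) (.br (nat_lit 3)
 (.ch (nat_lit 0) (.ev (nat_lit 4240) (nat_lit 4128) (.ev (nat_lit 4253) (nat_lit 8192) .dd))) (.ch (nat_lit 3)
 (.ev (nat_lit 4240) (nat_lit 8192) (.fin (nat_lit 576666910713135638))))) (.br (nat_lit 7) (.ch (nat_lit 4)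
 (.ev (nat_lit 4240) (nat_lit 4096) (.ev (nat_lit 5044) (nat_lit 32) (.ev (nat_lit 5053) (nat_lit 8192) .dd))))
 (.ch (nat_lit 7) (.ev (nat_lit 4240) (nat_lit 8192) (.ev (nat_lit 4500) (nat_lit 4096) (.ev (nat_lit 4509)
 (nat_lit 32) .dd)))))) (.br (nat_lit 10) (.br (nat_lit 9) (.ch (nat_lit 8) (.ev (nat_lit 4240) (nat_lit 4128)
 (.ev (nat_lit 4253) (nat_lit 8192) .dd))) (.ch (nat_lit 9) (.ev (nat_lit 4240) (nat_lit 8192) (.ev (nat_lit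
 4692) (nat_lit 32) (.ev (nat_lit 4701) (nat_lit 4096) .dd))))) (.br (nat_lit 12) (.ch (nat_lit 10) (.ev
 (nat_lit 4240) (nat_lit 8192) (.ev (nat_lit 4500) (nat_lit 32) (.ev (nat_lit 4509) (nat_lit 4096) .dd)))) (.ch
 (nat_lit 12) (.ev (nat_lit 4240) (nat_lit 8192) (.ev (nat_lit 5044) (nat_lit 32) (.ev (nat_lit 5053) (nat_lit
 4096) .dd))))))))) (.ch (nat_lit 12) (.ev (nat_lit 1568) (nat_lit 12320) .dd)))))))) (.ch (nat_lit 9) (.ev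
 (nat_lit 1024) (nat_lit 8224) (.nd (nat_lit 1840) (.br (nat_lit 5) (.br (nat_lit 3) (.br (nat_lit 2) (.ch
 (nat_lit 0) (.ev (nat_lit 1856) (nat_lit 64) (.ev (nat_lit 2004) (nat_lit 32768) (.ev (nat_lit 2013) (nat_lit
 4096) .dd)))) (.ch (nat_lit 2) (.ev (nat_lit 1856) (nat_lit 4096) (.ev (nat_lit 6740) (nat_lit 32768) (.ev
 (nat_lit 6749) (nat_lit 64) .dd))))) (.br (nat_lit 4) (.ch (nat_lit 3) (.ev (nat_lit 1856) (nat_lit 32768)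
 (.ev (nat_lit 3264) (nat_lit 4160) .dd))) (.ch (nat_lit 4) (.ev (nat_lit 2004) (nat_lit 32768) (.ev (nat_lit
 6500) (nat_lit 64) (.ev (nat_lit 6509) (nat_lit 4096) .dd)))))) (.br (nat_lit 10) (.br (nat_lit 6) (.ch
 (nat_lit 5) (.ev (nat_lit 1876) (nat_lit 4096) (.ev (nat_lit 6304) (nat_lit 32768) (.ev (nat_lit 6317)
 (nat_lit 64) .dd)))) (.ch (nat_lit 6) (.ev (nat_lit 1856) (nat_lit 32832) (.ev (nat_lit 1869) (nat_lit 4096)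
 .dd)))) (.br (nat_lit 12) (.ch (nat_lit 10) (.ev (nat_lit 1856) (nat_lit 64) (.ev (nat_lit 2868) (nat_lit
 32768) (.ev (nat_lit 2877) (nat_lit 4096) .dd)))) (.ch (nat_lit 12) (.ev (nat_lit 1856) (nat_lit 4096) (.ev
 (nat_lit 2948) (nat_lit 32768) (.ev (nat_lit 2957) (nat_lit 64) .dd))))))))))) (.br (nat_lit 11) (.ch (nat_lit
 10) (.ev (nat_lit 1024) (nat_lit 8192) (.nd (nat_lit 1840) (.br (nat_lit 9) (.br (nat_lit 1) (.ch (nat_lit 0)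
 (.ev (nat_lit 1856) (nat_lit 32832) (.ev (nat_lit 1876) (nat_lit 4096) (.ev (nat_lit 1885) (nat_lit 32)
 .dd)))) (.br (nat_lit 6) (.ch (nat_lit 1) (.ev (nat_lit 1856) (nat_lit 4096) (.ev (nat_lit 6020) (nat_lit
 32768) (.ev (nat_lit 7060) (nat_lit 64) (.ev (nat_lit 7069) (nat_lit 32) .dd))))) (.ch (nat_lit 6) (.ev
 (nat_lit 1856) (nat_lit 32768) (.ev (nat_lit 2880) (nat_lit 32) (.ev (nat_lit 5492) (nat_lit 4096) (.ev
 (nat_lit 5501) (nat_lit 64) .dd))))))) (.br (nat_lit 11) (.br (nat_lit 10) (.ch (nat_lit 9) (.ev (nat_lit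
 1856) (nat_lit 96) (.ev (nat_lit 3540) (nat_lit 32768) (.ev (nat_lit 3549) (nat_lit 4096) .dd)))) (.ch
 (nat_lit 10) (.ev (nat_lit 1856) (nat_lit 4096) (.ev (nat_lit 2004) (nat_lit 64) (.ev (nat_lit 3540) (nat_lit
 32768) (.ev (nat_lit 3549) (nat_lit 32) .dd)))))) (.br (nat_lit 12) (.ch (nat_lit 11) (.ev (nat_lit 1856)
 (nat_lit 32) (.ev (nat_lit 3844) (nat_lit 32768) (.ev (nat_lit 6356) (nat_lit 64) (.ev (nat_lit 6365) (nat_lit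
 4096) .dd))))) (.ch (nat_lit 12) (.ev (nat_lit 5236) (nat_lit 64) (.ev (nat_lit 6976) (nat_lit 4096) (.nd
 (nat_lit 7728) (.br (nat_lit 12) (.ch (nat_lit 5) (.fin (nat_lit 576280982431679063))) (.ch (nat_lit 12) (.ev
 (nat_lit 7744) (nat_lit 32) (.ev (nat_lit 7757) (nat_lit 32768) .dd)))))))))))))) (.br (nat_lit 12) (.ch
 (nat_lit 11) (.ev (nat_lit 1024) (nat_lit 32) (.ev (nat_lit 1252) (nat_lit 32768) (.nd (nat_lit 1968) (.br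
 (nat_lit 5) (.br (nat_lit 2) (.ch (nat_lit 0) (.ev (nat_lit 3188) (nat_lit 64) (.ev (nat_lit 6964) (nat_lit
 8192) (.ev (nat_lit 6973) (nat_lit 4096) .dd)))) (.br (nat_lit 4) (.ch (nat_lit 2) (.ev (nat_lit 1984)
 (nat_lit 4096) (.ev (nat_lit 2484) (nat_lit 8192) (.ev (nat_lit 2493) (nat_lit 64) .dd)))) (.ch (nat_lit 4)
 (.ev (nat_lit 1984) (nat_lit 8192) (.ev (nat_lit 2004) (nat_lit 4096) (.ev (nat_lit 2013) (nat_lit 64)
 .dd)))))) (.br (nat_lit 8) (.br (nat_lit 6) (.ch (nat_lit 5) (.ev (nat_lit 1984) (nat_lit 12288) (.ev (nat_lit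
 1997) (nat_lit 64) .dd))) (.ch (nat_lit 6) (.ev (nat_lit 1984) (nat_lit 8256) (.ev (nat_lit 1997) (nat_lit
 4096) .dd)))) (.br (nat_lit 12) (.ch (nat_lit 8) (.ev (nat_lit 1984) (nat_lit 8256) (.ev (nat_lit 1997)
 (nat_lit 4096) .dd))) (.ch (nat_lit 12) (.ev (nat_lit 1984) (nat_lit 4096) (.ev (nat_lit 5844) (nat_lit 64)
 (.ev (nat_lit 5853) (nat_lit 8192) .dd))))))))))) (.ch (nat_lit 12) (.ev (nat_lit 1024) (nat_lit 12288) (.nd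
 (nat_lit 1968) (.br (nat_lit 8) (.br (nat_lit 3) (.ch (nat_lit 0) (.ev (nat_lit 1984) (nat_lit 32768) (.ev
 (nat_lit 3876) (nat_lit 64) (.ev (nat_lit 3885) (nat_lit 32) .dd)))) (.br (nat_lit 6) (.ch (nat_lit 3) (.ev
 (nat_lit 1984) (nat_lit 32832) (.ev (nat_lit 1997) (nat_lit 32) .dd))) (.ch (nat_lit 6) (.ev (nat_lit 1984)
 (nat_lit 96) (.ev (nat_lit 1997) (nat_lit 32768) .dd))))) (.br (nat_lit 10) (.ch (nat_lit 8) (.ev (nat_lit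
 2372) (nat_lit 64) (.ev (nat_lit 2752) (nat_lit 32768) (.ev (nat_lit 2765) (nat_lit 32) .dd)))) (.br (nat_lit
 12) (.ch (nat_lit 10) (.ev (nat_lit 1984) (nat_lit 32832) (.ev (nat_lit 1997) (nat_lit 32) .dd))) (.ch
 (nat_lit 12) (.ev (nat_lit 2948) (nat_lit 32768) (.fin (nat_lit 576434913881309638)))))))))))))))) (.ch
 (nat_lit 1) (.ev (nat_lit 544) (nat_lit 4160) (.nd (nat_lit 1168) (.br (nat_lit 4) (.br (nat_lit 2) (.br
 (nat_lit 1) (.ch (nat_lit 0) (.nd (nat_lit 2336) (.br (nat_lit 5) (.br (nat_lit 2) (.br (nat_lit 1) (.ch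
 (nat_lit 0) (.ev (nat_lit 2352) (nat_lit 32768) (.ev (nat_lit 2900) (nat_lit 8192) (.ev (nat_lit 2909)
 (nat_lit 32) .dd)))) (.ch (nat_lit 1) (.ev (nat_lit 2352) (nat_lit 8192) (.ev (nat_lit 3844) (nat_lit 32) (.ev
 (nat_lit 3853) (nat_lit 32768) .dd))))) (.br (nat_lit 3) (.ch (nat_lit 2) (.ev (nat_lit 2352) (nat_lit 40992)
 .dd)) (.ch (nat_lit 3) (.ev (nat_lit 2352) (nat_lit 32800) (.ev (nat_lit 2365) (nat_lit 8192) .dd))))) (.br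
 (nat_lit 8) (.br (nat_lit 7) (.ch (nat_lit 5) (.ev (nat_lit 2820) (nat_lit 32) (.ev (nat_lit 2900) (nat_lit
 8192) (.ev (nat_lit 2909) (nat_lit 32768) .dd)))) (.ch (nat_lit 7) (.ev (nat_lit 2352) (nat_lit 8192) (.ev
 (nat_lit 2752) (nat_lit 32) (.ev (nat_lit 2765) (nat_lit 32768) .dd))))) (.br (nat_lit 10) (.ch (nat_lit 8)
 (.ev (nat_lit 2352) (nat_lit 32) (.ev (nat_lit 2900) (nat_lit 8192) (.ev (nat_lit 2909) (nat_lit 32768)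
 .dd)))) (.br (nat_lit 12) (.ch (nat_lit 10) (.ev (nat_lit 2352) (nat_lit 8192) (.ev (nat_lit 3604) (nat_lit
 32) (.ev (nat_lit 3613) (nat_lit 32768) .dd)))) (.ch (nat_lit 12) (.ev (nat_lit 2352) (nat_lit 40992)
 .dd)))))))) (.ch (nat_lit 1) (.ev (nat_lit 1184) (nat_lit 40960) (.ev (nat_lit 1197) (nat_lit 32) .dd)))) (.br
 (nat_lit 3) (.ch (nat_lit 2) (.ev (nat_lit 1184) (nat_lit 40960) (.ev (nat_lit 1197) (nat_lit 32) .dd))) (.ch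
 (nat_lit 3) (.ev (nat_lit 1184) (nat_lit 32) (.ev (nat_lit 1300) (nat_lit 32768) (.ev (nat_lit 1309) (nat_lit
 8192) .dd)))))) (.br (nat_lit 9) (.br (nat_lit 8) (.ch (nat_lit 4) (.ev (nat_lit 1184) (nat_lit 32800) (.ev
 (nat_lit 1197) (nat_lit 8192) .dd))) (.ch (nat_lit 8) (.ev (nat_lit 1184) (nat_lit 32768) (.nd (nat_lit 3984)
 (.br (nat_lit 4) (.br (nat_lit 2) (.br (nat_lit 1) (.ch (nat_lit 0) (.ev (nat_lit 4000) (nat_lit 8192) (.ev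
 (nat_lit 4013) (nat_lit 32) .dd))) (.ch (nat_lit 1) (.ev (nat_lit 4000) (nat_lit 32) (.ev (nat_lit 4013)
 (nat_lit 8192) .dd)))) (.br (nat_lit 3) (.ch (nat_lit 2) (.ev (nat_lit 4000) (nat_lit 32) (.ev (nat_lit 4013)
 (nat_lit 8192) .dd))) (.ch (nat_lit 3) (.ev (nat_lit 4000) (nat_lit 32) (.ev (nat_lit 4013) (nat_lit 8192)
 .dd))))) (.br (nat_lit 10) (.br (nat_lit 7) (.ch (nat_lit 4) (.ev (nat_lit 4000) (nat_lit 8192) (.ev (nat_lit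
 4013) (nat_lit 32) .dd))) (.ch (nat_lit 7) (.ev (nat_lit 4020) (nat_lit 32) (.ev (nat_lit 4029) (nat_lit 8192)
 .dd)))) (.br (nat_lit 12) (.ch (nat_lit 10) (.ev (nat_lit 4084) (nat_lit 8192) (.ev (nat_lit 4093) (nat_lit
 32) .dd))) (.ch (nat_lit 12) (.ev (nat_lit 4000) (nat_lit 8224) .dd))))))))) (.br (nat_lit 10) (.ch (nat_lit
 9) (.ev (nat_lit 1184) (nat_lit 8192) (.nd (nat_lit 3408) (.br (nat_lit 5) (.br (nat_lit 2) (.ch (nat_lit 1)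
 (.ev (nat_lit 3424) (nat_lit 32) (.ev (nat_lit 3437) (nat_lit 32768) .dd))) (.br (nat_lit 3) (.ch (nat_lit 2)
 (.ev (nat_lit 3476) (nat_lit 32) (.ev (nat_lit 3485) (nat_lit 32768) .dd))) (.ch (nat_lit 3) (.ev (nat_lit
 3424) (nat_lit 32768) (.ev (nat_lit 3437) (nat_lit 32) .dd))))) (.br (nat_lit 8) (.br (nat_lit 6) (.ch
 (nat_lit 5) (.ev (nat_lit 3424) (nat_lit 32768) (.ev (nat_lit 3437) (nat_lit 32) .dd))) (.ch (nat_lit 6) (.ev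
 (nat_lit 3424) (nat_lit 32800) .dd))) (.br (nat_lit 9) (.ch (nat_lit 8) (.ev (nat_lit 3424) (nat_lit 32800)
 .dd)) (.ch (nat_lit 9) (.ev (nat_lit 3424) (nat_lit 32768) (.ev (nat_lit 3437) (nat_lit 32) .dd))))))))) (.br
 (nat_lit 11) (.ch (nat_lit 10) (.ev (nat_lit 1184) (nat_lit 32) (.ev (nat_lit 1300) (nat_lit 32768) (.ev
 (nat_lit 1309) (nat_lit 8192) .dd)))) (.ch (nat_lit 11) (.nd (nat_lit 2624) (.br (nat_lit 4) (.br (nat_lit 1)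
 (.ch (nat_lit 0) (.ev (nat_lit 2640) (nat_lit 8192) (.ev (nat_lit 5364) (nat_lit 32768) (.ev (nat_lit 5373)
 (nat_lit 32) .dd)))) (.br (nat_lit 2) (.ch (nat_lit 1) (.ev (nat_lit 2640) (nat_lit 32768) (.ev (nat_lit 7028)
 (nat_lit 8192) (.ev (nat_lit 7037) (nat_lit 32) .dd)))) (.ch (nat_lit 2) (.ev (nat_lit 2640) (nat_lit 32) (.ev
 (nat_lit 3284) (nat_lit 8192) (.ev (nat_lit 3293) (nat_lit 32768) .dd)))))) (.br (nat_lit 9) (.br (nat_lit 8)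
 (.ch (nat_lit 4) (.ev (nat_lit 2640) (nat_lit 32) (.ev (nat_lit 2740) (nat_lit 8192) (.ev (nat_lit 2749)
 (nat_lit 32768) .dd)))) (.ch (nat_lit 8) (.ev (nat_lit 3476) (nat_lit 32768) (.ev (nat_lit 6384) (nat_lit 32)
 (.ev (nat_lit 6397) (nat_lit 8192) .dd))))) (.br (nat_lit 11) (.ch (nat_lit 9) (.ev (nat_lit 2640) (nat_lit
 32768) (.ev (nat_lit 6692) (nat_lit 32) (.ev (nat_lit 6701) (nat_lit 8192) .dd)))) (.ch (nat_lit 11) (.ev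
 (nat_lit 2640) (nat_lit 8192) (.ev (nat_lit 6868) (nat_lit 32768) (.ev (nat_lit 6877) (nat_lit 32)
 .dd))))))))))))))))) (.br (nat_lit 4) (.ch (nat_lit 2) (.ev (nat_lit 544) (nat_lit 32800) (.nd (nat_lit 1088)
 (.br (nat_lit 6) (.br (nat_lit 3) (.ch (nat_lit 0) (.ev (nat_lit 1104) (nat_lit 64) (.nd (nat_lit 1840) (.br
 (nat_lit 8) (.br (nat_lit 6) (.br (nat_lit 3) (.ch (nat_lit 0) (.ev (nat_lit 1856) (nat_lit 8192) (.ev
 (nat_lit 1869) (nat_lit 4096) .dd))) (.ch (nat_lit 3) (.nd (nat_lit 7488) (.br (nat_lit 7) (.ch (nat_lit 2)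
 (.fin (nat_lit 576344753529373055))) (.ch (nat_lit 7) (.ev (nat_lit 7504) (nat_lit 8192) (.ev (nat_lit 7517)
 (nat_lit 4096) .dd))))))) (.br (nat_lit 7) (.ch (nat_lit 6) (.ev (nat_lit 1856) (nat_lit 12288) .dd)) (.ch
 (nat_lit 7) (.ev (nat_lit 3652) (nat_lit 8192) (.ev (nat_lit 3661) (nat_lit 4096) .dd))))) (.br (nat_lit 10)
 (.br (nat_lit 9) (.ch (nat_lit 8) (.ev (nat_lit 1856) (nat_lit 4096) (.ev (nat_lit 1869) (nat_lit 8192) .dd)))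
 (.ch (nat_lit 9) (.ev (nat_lit 3540) (nat_lit 4096) (.ev (nat_lit 3549) (nat_lit 8192) .dd)))) (.br (nat_lit
 11) (.ch (nat_lit 10) (.nd (nat_lit 4416) (.br (nat_lit 10) (.br (nat_lit 2) (.ch (nat_lit 1) (.ev (nat_lit
 4432) (nat_lit 4096) (.ev (nat_lit 4445) (nat_lit 8192) .dd))) (.ch (nat_lit 2) (.ev (nat_lit 6900) (nat_lit
 4096) (.ev (nat_lit 6909) (nat_lit 8192) .dd)))) (.br (nat_lit 12) (.ch (nat_lit 10) (.ev (nat_lit 4432)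
 (nat_lit 8192) (.ev (nat_lit 4445) (nat_lit 4096) .dd))) (.ch (nat_lit 12) (.ev (nat_lit 4432) (nat_lit 8192)
 (.ev (nat_lit 4445) (nat_lit 4096) .dd))))))) (.br (nat_lit 12) (.ch (nat_lit 11) (.ev (nat_lit 1856) (nat_lit
 12288) .dd)) (.ch (nat_lit 12) (.ev (nat_lit 3540) (nat_lit 4096) (.ev (nat_lit 3549) (nat_lit 8192)
 .dd)))))))))) (.br (nat_lit 5) (.ch (nat_lit 3) (.ev (nat_lit 1204) (nat_lit 4096) (.nd (nat_lit 1968) (.br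
 (nat_lit 7) (.br (nat_lit 5) (.ch (nat_lit 2) (.ev (nat_lit 6692) (nat_lit 8192) (.ev (nat_lit 6701) (nat_lit
 64) .dd))) (.br (nat_lit 6) (.ch (nat_lit 5) (.ev (nat_lit 2820) (nat_lit 8192) (.ev (nat_lit 2829) (nat_lit
 64) .dd))) (.ch (nat_lit 6) (.ev (nat_lit 1984) (nat_lit 8192) (.ev (nat_lit 1997) (nat_lit 64) .dd))))) (.br
 (nat_lit 9) (.br (nat_lit 8) (.ch (nat_lit 7) (.ev (nat_lit 1984) (nat_lit 64) (.ev (nat_lit 1997) (nat_lit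
 8192) .dd))) (.ch (nat_lit 8) (.nd (nat_lit 4304) (.br (nat_lit 6) (.br (nat_lit 5) (.ch (nat_lit 0) (.ev
 (nat_lit 4320) (nat_lit 8192) (.ev (nat_lit 4333) (nat_lit 64) .dd))) (.ch (nat_lit 5) (.ev (nat_lit 4480)
 (nat_lit 8192) (.ev (nat_lit 4493) (nat_lit 64) .dd)))) (.br (nat_lit 7) (.ch (nat_lit 6) (.ev (nat_lit 6356)
 (nat_lit 64) (.ev (nat_lit 6365) (nat_lit 8192) .dd))) (.ch (nat_lit 7) (.ev (nat_lit 4320) (nat_lit 64) (.ev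
 (nat_lit 4333) (nat_lit 8192) .dd)))))))) (.br (nat_lit 11) (.ch (nat_lit 9) (.ev (nat_lit 2900) (nat_lit
 8192) (.ev (nat_lit 2909) (nat_lit 64) .dd))) (.ch (nat_lit 11) (.ev (nat_lit 1984) (nat_lit 8192) (.ev
 (nat_lit 1997) (nat_lit 64) .dd))))))))) (.ch (nat_lit 5) (.nd (nat_lit 2128) (.br (nat_lit 8) (.br (nat_lit
 4) (.ch (nat_lit 1) (.ev (nat_lit 5492) (nat_lit 8192) (.nd (nat_lit 7696) (.br (nat_lit 12) (.ch (nat_lit 11)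
 (.fin (nat_lit 576555860191822143))) (.ch (nat_lit 12) (.ev (nat_lit 7716) (nat_lit 4096) (.ev (nat_lit 7725)
 (nat_lit 64) .dd))))))) (.br (nat_lit 5) (.ch (nat_lit 4) (.ev (nat_lit 2144) (nat_lit 64) (.ev (nat_lit 6868)
 (nat_lit 4096) (.ev (nat_lit 6877) (nat_lit 8192) .dd)))) (.ch (nat_lit 5) (.ev (nat_lit 2144) (nat_lit 4096)
 (.ev (nat_lit 5924) (nat_lit 8192) (.ev (nat_lit 5933) (nat_lit 64) .dd)))))) (.br (nat_lit 10) (.ch (nat_lit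
 8) (.ev (nat_lit 2144) (nat_lit 8192) (.ev (nat_lit 3476) (nat_lit 4096) (.ev (nat_lit 3485) (nat_lit 64)
 .dd)))) (.br (nat_lit 12) (.ch (nat_lit 10) (.ev (nat_lit 2388) (nat_lit 8192) (.ev (nat_lit 3476) (nat_lit
 4096) (.ev (nat_lit 3485) (nat_lit 64) .dd)))) (.ch (nat_lit 12) (.ev (nat_lit 2144) (nat_lit 8192) (.ev
 (nat_lit 3812) (nat_lit 4096) (.ev (nat_lit 3821) (nat_lit 64) .dd))))))))))) (.br (nat_lit 9) (.br (nat_lit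
 7) (.ch (nat_lit 6) (.ev (nat_lit 1104) (nat_lit 8256) (.ev (nat_lit 1117) (nat_lit 4096) .dd))) (.ch (nat_lit
 7) (.ev (nat_lit 1104) (nat_lit 8192) (.ev (nat_lit 1236) (nat_lit 4096) (.ev (nat_lit 1245) (nat_lit 64)
 .dd))))) (.br (nat_lit 10) (.ch (nat_lit 9) (.ev (nat_lit 1104) (nat_lit 4096) (.nd (nat_lit 1968) (.br
 (nat_lit 11) (.ch (nat_lit 3) (.ev (nat_lit 2788) (nat_lit 64) (.ev (nat_lit 2797) (nat_lit 8192) .dd))) (.br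
 (nat_lit 12) (.ch (nat_lit 11) (.ev (nat_lit 2900) (nat_lit 8192) (.ev (nat_lit 2909) (nat_lit 64) .dd))) (.ch
 (nat_lit 12) (.ev (nat_lit 2004) (nat_lit 64) (.ev (nat_lit 2013) (nat_lit 8192) .dd)))))))) (.ch (nat_lit 10)
 (.ev (nat_lit 1104) (nat_lit 4096) (.nd (nat_lit 1840) (.br (nat_lit 8) (.br (nat_lit 6) (.ch (nat_lit 1) (.nd
 (nat_lit 4224) (.br (nat_lit 7) (.ch (nat_lit 0) (.fin (nat_lit 576531670713713276))) (.br (nat_lit 11) (.ch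
 (nat_lit 7) (.ev (nat_lit 4240) (nat_lit 8192) (.ev (nat_lit 4253) (nat_lit 64) .dd))) (.ch (nat_lit 11) (.ev
 (nat_lit 4932) (nat_lit 64) (.ev (nat_lit 4941) (nat_lit 8192) .dd))))))) (.ch (nat_lit 6) (.ev (nat_lit 1856)
 (nat_lit 64) (.ev (nat_lit 1869) (nat_lit 8192) .dd)))) (.br (nat_lit 11) (.ch (nat_lit 8) (.ev (nat_lit 5504)
 (nat_lit 8256) .dd)) (.br (nat_lit 12) (.ch (nat_lit 11) (.ev (nat_lit 1856) (nat_lit 64) (.ev (nat_lit 1869)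
 (nat_lit 8192) .dd))) (.ch (nat_lit 12) (.ev (nat_lit 1856) (nat_lit 8192) (.ev (nat_lit 1869) (nat_lit 64)
 .dd))))))))))))))) (.ch (nat_lit 4) (.ev (nat_lit 544) (nat_lit 40992) (.nd (nat_lit 1264) (.br (nat_lit 8)
 (.br (nat_lit 3) (.br (nat_lit 2) (.ch (nat_lit 0) (.ev (nat_lit 1280) (nat_lit 4160) .dd)) (.ch (nat_lit 2)
 (.ev (nat_lit 1280) (nat_lit 64) (.ev (nat_lit 1293) (nat_lit 4096) .dd)))) (.br (nat_lit 4) (.ch (nat_lit 3)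
 (.nd (nat_lit 2128) (.br (nat_lit 7) (.br (nat_lit 4) (.ch (nat_lit 0) (.ev (nat_lit 2948) (nat_lit 64) (.ev
 (nat_lit 2957) (nat_lit 4096) .dd))) (.ch (nat_lit 4) (.ev (nat_lit 3652) (nat_lit 64) (.ev (nat_lit 3661)
 (nat_lit 4096) .dd)))) (.br (nat_lit 11) (.ch (nat_lit 7) (.ev (nat_lit 2948) (nat_lit 64) (.ev (nat_lit 2957)
 (nat_lit 4096) .dd))) (.br (nat_lit 12) (.ch (nat_lit 11) (.ev (nat_lit 2788) (nat_lit 64) (.ev (nat_lit 2797)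
 (nat_lit 4096) .dd))) (.ch (nat_lit 12) (.ev (nat_lit 3876) (nat_lit 64) (.ev (nat_lit 3885) (nat_lit 4096)
 .dd)))))))) (.ch (nat_lit 4) (.ev (nat_lit 1280) (nat_lit 64) (.ev (nat_lit 1293) (nat_lit 4096) .dd))))) (.br
 (nat_lit 10) (.br (nat_lit 9) (.ch (nat_lit 8) (.nd (nat_lit 2336) (.br (nat_lit 8) (.br (nat_lit 5) (.ch
 (nat_lit 4) (.ev (nat_lit 2352) (nat_lit 4096) (.ev (nat_lit 2365) (nat_lit 64) .dd))) (.br (nat_lit 6) (.ch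
 (nat_lit 5) (.ev (nat_lit 2352) (nat_lit 64) (.ev (nat_lit 2365) (nat_lit 4096) .dd))) (.ch (nat_lit 6) (.ev
 (nat_lit 3476) (nat_lit 64) (.ev (nat_lit 3485) (nat_lit 4096) .dd))))) (.br (nat_lit 9) (.ch (nat_lit 8) (.ev
 (nat_lit 3012) (nat_lit 4096) (.ev (nat_lit 3021) (nat_lit 64) .dd))) (.br (nat_lit 11) (.ch (nat_lit 9) (.ev
 (nat_lit 2352) (nat_lit 4096) (.ev (nat_lit 2365) (nat_lit 64) .dd))) (.ch (nat_lit 11) (.ev (nat_lit 2868)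
 (nat_lit 4096) (.ev (nat_lit 2877) (nat_lit 64) .dd)))))))) (.ch (nat_lit 9) (.ev (nat_lit 1280) (nat_lit
 4096) (.ev (nat_lit 1293) (nat_lit 64) .dd)))) (.br (nat_lit 12) (.ch (nat_lit 10) (.ev (nat_lit 1280)
 (nat_lit 4096) (.ev (nat_lit 1293) (nat_lit 64) .dd))) (.ch (nat_lit 12) (.nd (nat_lit 3408) (.br (nat_lit 5)
 (.br (nat_lit 2) (.ch (nat_lit 1) (.ev (nat_lit 5300) (nat_lit 4096) (.ev (nat_lit 5309) (nat_lit 64) .dd)))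
 (.br (nat_lit 4) (.ch (nat_lit 2) (.ev (nat_lit 3424) (nat_lit 64) (.ev (nat_lit 3437) (nat_lit 4096) .dd)))
 (.ch (nat_lit 4) (.ev (nat_lit 3424) (nat_lit 4096) (.ev (nat_lit 3437) (nat_lit 64) .dd))))) (.br (nat_lit 9)
 (.ch (nat_lit 5) (.ev (nat_lit 3476) (nat_lit 64) (.ev (nat_lit 3485) (nat_lit 4096) .dd))) (.br (nat_lit 10)
 (.ch (nat_lit 9) (.ev (nat_lit 3476) (nat_lit 64) (.ev (nat_lit 3485) (nat_lit 4096) .dd))) (.ch (nat_lit 10)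
 (.ev (nat_lit 6788) (nat_lit 4096) (.ev (nat_lit 6797) (nat_lit 64) .dd)))))))))))))))) (.br (nat_lit 9) (.br
 (nat_lit 8) (.ch (nat_lit 5) (.nd (nat_lit 1008) (.br (nat_lit 5) (.br (nat_lit 3) (.br (nat_lit 2) (.ch
 (nat_lit 0) (.ev (nat_lit 1024) (nat_lit 4192) (.nd (nat_lit 1552) (.br (nat_lit 8) (.br (nat_lit 4) (.ch
 (nat_lit 3) (.ev (nat_lit 2164) (nat_lit 32768) (.ev (nat_lit 2173) (nat_lit 8192) .dd))) (.ch (nat_lit 4)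
 (.ev (nat_lit 2164) (nat_lit 32768) (.ev (nat_lit 2173) (nat_lit 8192) .dd)))) (.br (nat_lit 10) (.ch (nat_lit
 8) (.ev (nat_lit 1568) (nat_lit 8192) (.ev (nat_lit 1581) (nat_lit 32768) .dd))) (.br (nat_lit 12) (.ch
 (nat_lit 10) (.ev (nat_lit 5716) (nat_lit 32768) (.ev (nat_lit 5725) (nat_lit 8192) .dd))) (.ch (nat_lit 12)
 (.ev (nat_lit 1568) (nat_lit 32768) (.ev (nat_lit 1581) (nat_lit 8192) .dd))))))))) (.ch (nat_lit 2) (.nd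
 (nat_lit 1744) (.br (nat_lit 7) (.br (nat_lit 3) (.br (nat_lit 1) (.ch (nat_lit 0) (.ev (nat_lit 1760)
 (nat_lit 64) (.nd (nat_lit 4416) (.br (nat_lit 5) (.br (nat_lit 2) (.ch (nat_lit 1) (.ev (nat_lit 4432)
 (nat_lit 32768) (.ev (nat_lit 4468) (nat_lit 4096) (.ev (nat_lit 5444) (nat_lit 8192) (.ev (nat_lit 5453)
 (nat_lit 32) .dd))))) (.br (nat_lit 3) (.ch (nat_lit 2) (.ev (nat_lit 4432) (nat_lit 8192) (.ev (nat_lit 5792)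
 (nat_lit 32768) (.ev (nat_lit 6692) (nat_lit 4096) (.ev (nat_lit 6701) (nat_lit 32) .dd))))) (.ch (nat_lit 3)
 (.ev (nat_lit 4432) (nat_lit 8192) (.ev (nat_lit 5764) (nat_lit 4096) (.ev (nat_lit 6976) (nat_lit 32) (.ev
 (nat_lit 6989) (nat_lit 32768) .dd))))))) (.br (nat_lit 8) (.ch (nat_lit 5) (.ev (nat_lit 4432) (nat_lit
 40992) (.ev (nat_lit 4445) (nat_lit 4096) .dd))) (.br (nat_lit 9) (.ch (nat_lit 8) (.ev (nat_lit 4432)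
 (nat_lit 36864) (.ev (nat_lit 6512) (nat_lit 32) (.ev (nat_lit 6525) (nat_lit 8192) .dd)))) (.ch (nat_lit 9)
 (.ev (nat_lit 4432) (nat_lit 8224) (.ev (nat_lit 4996) (nat_lit 4096) (.ev (nat_lit 5005) (nat_lit 32768)
 .dd)))))))))) (.ch (nat_lit 1) (.ev (nat_lit 1760) (nat_lit 96) (.nd (nat_lit 4864) (.br (nat_lit 6) (.br
 (nat_lit 3) (.ch (nat_lit 2) (.ev (nat_lit 5540) (nat_lit 32768) (.ev (nat_lit 6560) (nat_lit 8192) (.ev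
 (nat_lit 6573) (nat_lit 4096) .dd)))) (.ch (nat_lit 3) (.ev (nat_lit 4880) (nat_lit 12288) (.ev (nat_lit 4893)
 (nat_lit 32768) .dd)))) (.br (nat_lit 8) (.ch (nat_lit 6) (.ev (nat_lit 4880) (nat_lit 32768) (.ev (nat_lit
 4932) (nat_lit 4096) (.ev (nat_lit 4941) (nat_lit 8192) .dd)))) (.br (nat_lit 9) (.ch (nat_lit 8) (.ev
 (nat_lit 4880) (nat_lit 8192) (.ev (nat_lit 5044) (nat_lit 4096) (.ev (nat_lit 5053) (nat_lit 32768) .dd))))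
 (.ch (nat_lit 9) (.ev (nat_lit 4880) (nat_lit 40960) (.ev (nat_lit 4893) (nat_lit 4096) .dd)))))))))) (.br
 (nat_lit 4) (.ch (nat_lit 3) (.ev (nat_lit 1760) (nat_lit 45120) (.ev (nat_lit 1773) (nat_lit 32) .dd))) (.ch
 (nat_lit 4) (.ev (nat_lit 1760) (nat_lit 40960) (.ev (nat_lit 1876) (nat_lit 64) (.ev (nat_lit 3220) (nat_lit
 32) (.ev (nat_lit 3229) (nat_lit 4096) .dd))))))) (.br (nat_lit 9) (.br (nat_lit 8) (.ch (nat_lit 7) (.ev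
 (nat_lit 1760) (nat_lit 12320) (.ev (nat_lit 2004) (nat_lit 32768) (.ev (nat_lit 2013) (nat_lit 64) .dd))))
 (.ch (nat_lit 8) (.ev (nat_lit 1760) (nat_lit 32) (.ev (nat_lit 2036) (nat_lit 64) (.nd (nat_lit 4304) (.br
 (nat_lit 6) (.br (nat_lit 3) (.ch (nat_lit 2) (.ev (nat_lit 5248) (nat_lit 32768) (.ev (nat_lit 6964) (nat_lit
 4096) (.ev (nat_lit 6973) (nat_lit 8192) .dd)))) (.br (nat_lit 4) (.ch (nat_lit 3) (.ev (nat_lit 4320)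
 (nat_lit 36864) (.ev (nat_lit 4333) (nat_lit 8192) .dd))) (.ch (nat_lit 4) (.ev (nat_lit 4320) (nat_lit 36864)
 (.ev (nat_lit 4333) (nat_lit 8192) .dd))))) (.br (nat_lit 8) (.ch (nat_lit 6) (.ev (nat_lit 4320) (nat_lit
 8192) (.ev (nat_lit 5716) (nat_lit 4096) (.ev (nat_lit 5725) (nat_lit 32768) .dd)))) (.br (nat_lit 11) (.ch
 (nat_lit 8) (.ev (nat_lit 4320) (nat_lit 32768) (.ev (nat_lit 4976) (nat_lit 8192) (.ev (nat_lit 4989)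
 (nat_lit 4096) .dd)))) (.ch (nat_lit 11) (.ev (nat_lit 4320) (nat_lit 8192) (.ev (nat_lit 4356) (nat_lit 4096)
 (.ev (nat_lit 4365) (nat_lit 32768) .dd)))))))))))) (.br (nat_lit 10) (.ch (nat_lit 9) (.ev (nat_lit 2484)
 (nat_lit 64) (.nd (nat_lit 4416) (.br (nat_lit 5) (.br (nat_lit 2) (.br (nat_lit 1) (.ch (nat_lit 0) (.ev
 (nat_lit 4432) (nat_lit 12288) (.ev (nat_lit 5044) (nat_lit 32) (.ev (nat_lit 5053) (nat_lit 32768) .dd))))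
 (.ch (nat_lit 1) (.ev (nat_lit 4432) (nat_lit 36896) (.ev (nat_lit 4445) (nat_lit 8192) .dd)))) (.br (nat_lit
 3) (.ch (nat_lit 2) (.ev (nat_lit 4432) (nat_lit 12288) (.ev (nat_lit 6260) (nat_lit 32) (.ev (nat_lit 6269)
 (nat_lit 32768) .dd)))) (.ch (nat_lit 3) (.ev (nat_lit 4432) (nat_lit 4096) (.ev (nat_lit 4656) (nat_lit
 32800) (.ev (nat_lit 4669) (nat_lit 8192) .dd)))))) (.br (nat_lit 9) (.br (nat_lit 6) (.ch (nat_lit 5) (.ev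
 (nat_lit 4432) (nat_lit 8192) (.ev (nat_lit 4724) (nat_lit 4096) (.ev (nat_lit 5044) (nat_lit 32) (.ev
 (nat_lit 5053) (nat_lit 32768) .dd))))) (.ch (nat_lit 6) (.ev (nat_lit 4432) (nat_lit 36896) (.ev (nat_lit
 4445) (nat_lit 8192) .dd)))) (.br (nat_lit 10) (.ch (nat_lit 9) (.ev (nat_lit 5668) (nat_lit 32) (.ev (nat_lit
 6020) (nat_lit 4096) (.ev (nat_lit 6032) (nat_lit 8192) (.ev (nat_lit 6045) (nat_lit 32768) .dd))))) (.ch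
 (nat_lit 10) (.ev (nat_lit 4432) (nat_lit 4128) (.ev (nat_lit 5044) (nat_lit 8192) (.ev (nat_lit 5053)
 (nat_lit 32768) .dd)))))))))) (.br (nat_lit 11) (.ch (nat_lit 10) (.ev (nat_lit 1760) (nat_lit 36960) (.ev
 (nat_lit 1773) (nat_lit 8192) .dd))) (.ch (nat_lit 11) (.ev (nat_lit 1760) (nat_lit 96) (.nd (nat_lit 4416)
 (.br (nat_lit 8) (.br (nat_lit 2) (.ch (nat_lit 0) (.ev (nat_lit 4432) (nat_lit 4096) (.ev (nat_lit 5604)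
 (nat_lit 8192) (.ev (nat_lit 5613) (nat_lit 32768) .dd)))) (.br (nat_lit 7) (.ch (nat_lit 2) (.ev (nat_lit
 4432) (nat_lit 40960) (.ev (nat_lit 4445) (nat_lit 4096) .dd))) (.ch (nat_lit 7) (.ev (nat_lit 4432) (nat_lit
 4096) (.ev (nat_lit 4692) (nat_lit 8192) (.ev (nat_lit 4701) (nat_lit 32768) .dd)))))) (.br (nat_lit 10) (.ch
 (nat_lit 8) (.ev (nat_lit 4944) (nat_lit 32768) (.ev (nat_lit 5444) (nat_lit 4096) (.ev (nat_lit 5453)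
 (nat_lit 8192) .dd)))) (.br (nat_lit 12) (.ch (nat_lit 10) (.ev (nat_lit 5188) (nat_lit 8192) (.ev (nat_lit
 6500) (nat_lit 4096) (.ev (nat_lit 6509) (nat_lit 32768) .dd)))) (.ch (nat_lit 12) (.ev (nat_lit 5844)
 (nat_lit 32768) (.fin (nat_lit 576374440642167373))))))))))))))))) (.br (nat_lit 4) (.ch (nat_lit 3) (.ev
 (nat_lit 1024) (nat_lit 12352) (.ev (nat_lit 1124) (nat_lit 32768) (.ev (nat_lit 1133) (nat_lit 32) .dd))))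
 (.ch (nat_lit 4) (.ev (nat_lit 1364) (nat_lit 4096) (.nd (nat_lit 1648) (.br (nat_lit 4) (.br (nat_lit 2) (.br
 (nat_lit 1) (.ch (nat_lit 0) (.ev (nat_lit 1664) (nat_lit 32832) (.nd (nat_lit 4304) (.br (nat_lit 10) (.ch
 (nat_lit 2) (.fin (nat_lit 575914844970500200))) (.ch (nat_lit 10) (.ev (nat_lit 5764) (nat_lit 32) (.ev
 (nat_lit 5773) (nat_lit 8192) .dd))))))) (.ch (nat_lit 1) (.ev (nat_lit 1664) (nat_lit 40960) (.ev (nat_lit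
 1684) (nat_lit 32) (.ev (nat_lit 1693) (nat_lit 64) .dd))))) (.br (nat_lit 3) (.ch (nat_lit 2) (.ev (nat_lit
 1664) (nat_lit 64) (.ev (nat_lit 2004) (nat_lit 32768) (.ev (nat_lit 2212) (nat_lit 8192) (.ev (nat_lit 2221)
 (nat_lit 32) .dd))))) (.ch (nat_lit 3) (.ev (nat_lit 1664) (nat_lit 8256) (.ev (nat_lit 1684) (nat_lit 32)
 (.ev (nat_lit 1693) (nat_lit 32768) .dd)))))) (.br (nat_lit 8) (.br (nat_lit 6) (.ch (nat_lit 4) (.ev (nat_lit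
 1664) (nat_lit 32800) (.ev (nat_lit 2788) (nat_lit 64) (.ev (nat_lit 2797) (nat_lit 8192) .dd)))) (.ch
 (nat_lit 6) (.ev (nat_lit 1664) (nat_lit 8192) (.ev (nat_lit 3152) (nat_lit 32768) (.ev (nat_lit 3284)
 (nat_lit 64) (.ev (nat_lit 3293) (nat_lit 32) .dd)))))) (.br (nat_lit 9) (.ch (nat_lit 8) (.ev (nat_lit 1664)
 (nat_lit 96) (.ev (nat_lit 2948) (nat_lit 32768) (.ev (nat_lit 2957) (nat_lit 8192) .dd)))) (.br (nat_lit 11)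
 (.ch (nat_lit 9) (.ev (nat_lit 1664) (nat_lit 8192) (.ev (nat_lit 5572) (nat_lit 32) (.ev (nat_lit 5668)
 (nat_lit 32768) (.ev (nat_lit 5677) (nat_lit 64) .dd))))) (.ch (nat_lit 11) (.ev (nat_lit 1664) (nat_lit 96)
 (.ev (nat_lit 6644) (nat_lit 32768) (.ev (nat_lit 6653) (nat_lit 8192) .dd))))))))))))) (.br (nat_lit 8) (.br
 (nat_lit 7) (.ch (nat_lit 5) (.nd (nat_lit 1408) (.br (nat_lit 8) (.br (nat_lit 2) (.br (nat_lit 1) (.ch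
 (nat_lit 0) (.ev (nat_lit 1424) (nat_lit 40992) (.nd (nat_lit 4864) (.br (nat_lit 2) (.br (nat_lit 1) (.ch
 (nat_lit 0) (.ev (nat_lit 4880) (nat_lit 64) (.ev (nat_lit 4893) (nat_lit 4096) .dd))) (.ch (nat_lit 1) (.ev
 (nat_lit 4880) (nat_lit 4096) (.ev (nat_lit 4893) (nat_lit 64) .dd)))) (.br (nat_lit 3) (.ch (nat_lit 2) (.fin
 (nat_lit 574785646825521276))) (.br (nat_lit 12) (.ch (nat_lit 3) (.ev (nat_lit 5904) (nat_lit 4160) .dd))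
 (.ch (nat_lit 12) (.ev (nat_lit 4880) (nat_lit 4096) (.ev (nat_lit 4893) (nat_lit 64) .dd))))))))) (.ch
 (nat_lit 1) (.ev (nat_lit 1424) (nat_lit 32864) (.nd (nat_lit 4592) (.br (nat_lit 5) (.ch (nat_lit 1) (.ev
 (nat_lit 5764) (nat_lit 4096) (.ev (nat_lit 5773) (nat_lit 8192) .dd))) (.br (nat_lit 12) (.ch (nat_lit 5)
 (.ev (nat_lit 4608) (nat_lit 4096) (.ev (nat_lit 4621) (nat_lit 8192) .dd))) (.ch (nat_lit 12) (.ev (nat_lit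
 4692) (nat_lit 4096) (.ev (nat_lit 4701) (nat_lit 8192) .dd))))))))) (.br (nat_lit 5) (.ch (nat_lit 2) (.ev
 (nat_lit 1424) (nat_lit 12320) (.nd (nat_lit 4592) (.br (nat_lit 11) (.ch (nat_lit 8) (.ev (nat_lit 5680)
 (nat_lit 32832) .dd)) (.ch (nat_lit 11) (.ev (nat_lit 6452) (nat_lit 32768) (.ev (nat_lit 6461) (nat_lit 64)
 .dd))))))) (.ch (nat_lit 5) (.ev (nat_lit 1424) (nat_lit 32) (.ev (nat_lit 2116) (nat_lit 64) (.nd (nat_lit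
 4416) (.br (nat_lit 7) (.br (nat_lit 1) (.ch (nat_lit 0) (.ev (nat_lit 4432) (nat_lit 40960) (.ev (nat_lit
 4445) (nat_lit 4096) .dd))) (.br (nat_lit 3) (.ch (nat_lit 1) (.ev (nat_lit 4432) (nat_lit 8192) (.ev (nat_lit
 5044) (nat_lit 32768) (.ev (nat_lit 5053) (nat_lit 4096) .dd)))) (.ch (nat_lit 3) (.ev (nat_lit 4468) (nat_lit
 4096) (.ev (nat_lit 6384) (nat_lit 8192) (.ev (nat_lit 6397) (nat_lit 32768) .dd)))))) (.br (nat_lit 11) (.br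
 (nat_lit 8) (.ch (nat_lit 7) (.ev (nat_lit 4432) (nat_lit 32768) (.fin (nat_lit 576363445306737266)))) (.ch
 (nat_lit 8) (.ev (nat_lit 4432) (nat_lit 12288) (.ev (nat_lit 4445) (nat_lit 32768) .dd)))) (.br (nat_lit 12)
 (.ch (nat_lit 11) (.ev (nat_lit 4432) (nat_lit 4096) (.ev (nat_lit 6020) (nat_lit 8192) (.ev (nat_lit 6029)
 (nat_lit 32768) .dd)))) (.ch (nat_lit 12) (.ev (nat_lit 4432) (nat_lit 12288) (.ev (nat_lit 4445) (nat_lit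
 32768) .dd)))))))))))) (.br (nat_lit 10) (.br (nat_lit 9) (.ch (nat_lit 8) (.ev (nat_lit 1424) (nat_lit 8288)
 (.ev (nat_lit 4084) (nat_lit 4096) (.ev (nat_lit 4093) (nat_lit 32768) .dd)))) (.ch (nat_lit 9) (.ev (nat_lit
 1424) (nat_lit 4096) (.ev (nat_lit 4116) (nat_lit 32) (.nd (nat_lit 4592) (.br (nat_lit 7) (.br (nat_lit 5)
 (.ch (nat_lit 4) (.ev (nat_lit 4644) (nat_lit 32768) (.ev (nat_lit 5248) (nat_lit 64) (.ev (nat_lit 5261)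
 (nat_lit 8192) .dd)))) (.ch (nat_lit 5) (.ev (nat_lit 4608) (nat_lit 8192) (.ev (nat_lit 5364) (nat_lit 32768)
 (.ev (nat_lit 5373) (nat_lit 64) .dd))))) (.br (nat_lit 9) (.ch (nat_lit 7) (.ev (nat_lit 4608) (nat_lit 8192)
 (.ev (nat_lit 6964) (nat_lit 32768) (.ev (nat_lit 6973) (nat_lit 64) .dd)))) (.br (nat_lit 10) (.ch (nat_lit
 9) (.ev (nat_lit 6692) (nat_lit 32768) (.ev (nat_lit 6944) (nat_lit 8192) (.ev (nat_lit 6957) (nat_lit 64)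
 .dd)))) (.ch (nat_lit 10) (.ev (nat_lit 4608) (nat_lit 8256) (.ev (nat_lit 4621) (nat_lit 32768)
 .dd))))))))))) (.br (nat_lit 11) (.ch (nat_lit 10) (.ev (nat_lit 2372) (nat_lit 32) (.nd (nat_lit 4304) (.br
 (nat_lit 10) (.br (nat_lit 5) (.ch (nat_lit 0) (.ev (nat_lit 4320) (nat_lit 4096) (.ev (nat_lit 5300) (nat_lit
 8192) (.ev (nat_lit 5876) (nat_lit 32768) (.ev (nat_lit 5885) (nat_lit 64) .dd))))) (.ch (nat_lit 5) (.ev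
 (nat_lit 4320) (nat_lit 4096) (.ev (nat_lit 5300) (nat_lit 32768) (.ev (nat_lit 5764) (nat_lit 64) (.ev
 (nat_lit 5773) (nat_lit 8192) .dd)))))) (.br (nat_lit 11) (.ch (nat_lit 10) (.ev (nat_lit 4320) (nat_lit 8192)
 (.ev (nat_lit 5140) (nat_lit 32768) (.ev (nat_lit 5300) (nat_lit 4096) (.ev (nat_lit 5309) (nat_lit 64)
 .dd))))) (.br (nat_lit 12) (.ch (nat_lit 11) (.ev (nat_lit 4320) (nat_lit 32832) (.ev (nat_lit 4356) (nat_lit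
 4096) (.ev (nat_lit 4365) (nat_lit 8192) .dd)))) (.ch (nat_lit 12) (.ev (nat_lit 4320) (nat_lit 64) (.ev
 (nat_lit 5924) (nat_lit 4096) (.ev (nat_lit 6740) (nat_lit 32768) (.ev (nat_lit 6749) (nat_lit 8192)
 .dd))))))))))) (.br (nat_lit 12) (.ch (nat_lit 11) (.ev (nat_lit 1424) (nat_lit 4128) (.nd (nat_lit 3984) (.br
 (nat_lit 10) (.ch (nat_lit 0) (.ev (nat_lit 4000) (nat_lit 8192) (.ev (nat_lit 6644) (nat_lit 64) (.ev
 (nat_lit 6653) (nat_lit 32768) .dd)))) (.br (nat_lit 11) (.ch (nat_lit 10) (.ev (nat_lit 4000) (nat_lit 64)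
 (.ev (nat_lit 6868) (nat_lit 32768) (.ev (nat_lit 6877) (nat_lit 8192) .dd)))) (.ch (nat_lit 11) (.ev (nat_lit
 6452) (nat_lit 32768) (.ev (nat_lit 6500) (nat_lit 64) (.ev (nat_lit 6509) (nat_lit 8192) .dd))))))))) (.ch
 (nat_lit 12) (.ev (nat_lit 1424) (nat_lit 32864) (.nd (nat_lit 4592) (.br (nat_lit 10) (.br (nat_lit 6) (.ch
 (nat_lit 5) (.ev (nat_lit 4608) (nat_lit 8192) (.ev (nat_lit 4621) (nat_lit 4096) .dd))) (.br (nat_lit 8) (.ch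
 (nat_lit 6) (.ev (nat_lit 4608) (nat_lit 4096) (.ev (nat_lit 4621) (nat_lit 8192) .dd))) (.ch (nat_lit 8) (.ev
 (nat_lit 4608) (nat_lit 8192) (.ev (nat_lit 4621) (nat_lit 4096) .dd))))) (.br (nat_lit 11) (.ch (nat_lit 10)
 (.ev (nat_lit 6740) (nat_lit 8192) (.ev (nat_lit 6749) (nat_lit 4096) .dd))) (.br (nat_lit 12) (.ch (nat_lit
 11) (.ev (nat_lit 4608) (nat_lit 4096) (.ev (nat_lit 4621) (nat_lit 8192) .dd))) (.ch (nat_lit 12) (.ev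
 (nat_lit 4608) (nat_lit 4096) (.ev (nat_lit 4621) (nat_lit 8192) .dd))))))))))))))) (.ch (nat_lit 7) (.ev
 (nat_lit 1024) (nat_lit 40960) (.nd (nat_lit 1968) (.br (nat_lit 7) (.br (nat_lit 2) (.ch (nat_lit 1) (.ev
 (nat_lit 1984) (nat_lit 64) (.ev (nat_lit 3604) (nat_lit 32) (.ev (nat_lit 3613) (nat_lit 4096) .dd)))) (.br
 (nat_lit 3) (.ch (nat_lit 2) (.ev (nat_lit 1984) (nat_lit 4128) (.ev (nat_lit 1997) (nat_lit 64) .dd))) (.ch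
 (nat_lit 3) (.ev (nat_lit 2164) (nat_lit 4160) (.ev (nat_lit 2173) (nat_lit 32) .dd))))) (.br (nat_lit 10)
 (.br (nat_lit 8) (.ch (nat_lit 7) (.ev (nat_lit 1984) (nat_lit 4096) (.ev (nat_lit 2820) (nat_lit 32) (.ev
 (nat_lit 2829) (nat_lit 64) .dd)))) (.ch (nat_lit 8) (.ev (nat_lit 1984) (nat_lit 32) (.ev (nat_lit 2420)
 (nat_lit 64) (.ev (nat_lit 2429) (nat_lit 4096) .dd))))) (.br (nat_lit 11) (.ch (nat_lit 10) (.ev (nat_lit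
 1984) (nat_lit 4160) (.ev (nat_lit 1997) (nat_lit 32) .dd))) (.ch (nat_lit 11) (.ev (nat_lit 1984) (nat_lit
 32) (.ev (nat_lit 2164) (nat_lit 64) (.ev (nat_lit 2173) (nat_lit 4096) .dd))))))))))) (.br (nat_lit 11) (.ch
 (nat_lit 8) (.ev (nat_lit 1024) (nat_lit 32864) (.nd (nat_lit 2128) (.br (nat_lit 6) (.ch (nat_lit 1) (.ev
 (nat_lit 2164) (nat_lit 8192) (.ev (nat_lit 2173) (nat_lit 4096) .dd))) (.br (nat_lit 10) (.ch (nat_lit 6)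
 (.ev (nat_lit 6692) (nat_lit 8192) (.ev (nat_lit 6701) (nat_lit 4096) .dd))) (.ch (nat_lit 10) (.ev (nat_lit
 2164) (nat_lit 4096) (.ev (nat_lit 2173) (nat_lit 8192) .dd)))))))) (.br (nat_lit 12) (.ch (nat_lit 11) (.ev
 (nat_lit 1024) (nat_lit 40960) (.nd (nat_lit 1840) (.br (nat_lit 6) (.br (nat_lit 3) (.ch (nat_lit 1) (.ev
 (nat_lit 1856) (nat_lit 32) (.ev (nat_lit 4644) (nat_lit 4096) (.ev (nat_lit 4653) (nat_lit 64) .dd)))) (.br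
 (nat_lit 4) (.ch (nat_lit 3) (.ev (nat_lit 3700) (nat_lit 32) (.ev (nat_lit 4996) (nat_lit 4096) (.ev (nat_lit
 5005) (nat_lit 64) .dd)))) (.ch (nat_lit 4) (.ev (nat_lit 1856) (nat_lit 32) (.ev (nat_lit 6260) (nat_lit
 4096) (.ev (nat_lit 6269) (nat_lit 64) .dd)))))) (.br (nat_lit 10) (.ch (nat_lit 6) (.ev (nat_lit 1856)
 (nat_lit 32) (.ev (nat_lit 4276) (nat_lit 64) (.ev (nat_lit 4285) (nat_lit 4096) .dd)))) (.br (nat_lit 12)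
 (.ch (nat_lit 10) (.nd (nat_lit 4864) (.br (nat_lit 6) (.br (nat_lit 4) (.ch (nat_lit 0) (.ev (nat_lit 4880)
 (nat_lit 32) (.ev (nat_lit 5140) (nat_lit 4096) (.ev (nat_lit 5149) (nat_lit 64) .dd)))) (.ch (nat_lit 4) (.ev
 (nat_lit 4932) (nat_lit 4096) (.ev (nat_lit 6356) (nat_lit 64) (.ev (nat_lit 6365) (nat_lit 32) .dd))))) (.br
 (nat_lit 7) (.ch (nat_lit 6) (.ev (nat_lit 4880) (nat_lit 32) (.ev (nat_lit 4932) (nat_lit 4096) (.ev (nat_lit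
 4941) (nat_lit 64) .dd)))) (.br (nat_lit 9) (.ch (nat_lit 7) (.ev (nat_lit 4880) (nat_lit 32) (.ev (nat_lit
 5364) (nat_lit 4096) (.ev (nat_lit 5373) (nat_lit 64) .dd)))) (.ch (nat_lit 9) (.ev (nat_lit 4880) (nat_lit
 4128) (.ev (nat_lit 4893) (nat_lit 64) .dd)))))))) (.ch (nat_lit 12) (.ev (nat_lit 1856) (nat_lit 4096) (.ev
 (nat_lit 1876) (nat_lit 64) (.ev (nat_lit 1885) (nat_lit 32) .dd)))))))))) (.ch (nat_lit 12) (.ev (nat_lit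
 1024) (nat_lit 4128) (.ev (nat_lit 1124) (nat_lit 64) (.nd (nat_lit 1968) (.br (nat_lit 6) (.br (nat_lit 4)
 (.ch (nat_lit 0) (.ev (nat_lit 1984) (nat_lit 32768) (.ev (nat_lit 1997) (nat_lit 8192) .dd))) (.br (nat_lit
 5) (.ch (nat_lit 4) (.ev (nat_lit 5844) (nat_lit 32768) (.ev (nat_lit 5853) (nat_lit 8192) .dd))) (.ch
 (nat_lit 5) (.ev (nat_lit 1984) (nat_lit 8192) (.ev (nat_lit 1997) (nat_lit 32768) .dd))))) (.br (nat_lit 8)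
 (.ch (nat_lit 6) (.ev (nat_lit 1984) (nat_lit 8192) (.ev (nat_lit 1997) (nat_lit 32768) .dd))) (.br (nat_lit
 12) (.ch (nat_lit 8) (.ev (nat_lit 3568) (nat_lit 8192) (.ev (nat_lit 3581) (nat_lit 32768) .dd))) (.ch
 (nat_lit 12) (.ev (nat_lit 2196) (nat_lit 32768) (.ev (nat_lit 2205) (nat_lit 8192) .dd)))))))))))))))) (.ch
 (nat_lit 8) (.ev (nat_lit 544) (nat_lit 4160) (.nd (nat_lit 1088) (.br (nat_lit 7) (.br (nat_lit 3) (.br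
 (nat_lit 2) (.ch (nat_lit 1) (.ev (nat_lit 1104) (nat_lit 32) (.nd (nat_lit 1840) (.br (nat_lit 7) (.br
 (nat_lit 3) (.ch (nat_lit 2) (.ev (nat_lit 2004) (nat_lit 8192) (.ev (nat_lit 2013) (nat_lit 32768) .dd)))
 (.ch (nat_lit 3) (.ev (nat_lit 2452) (nat_lit 8192) (.ev (nat_lit 2461) (nat_lit 32768) .dd)))) (.br (nat_lit
 9) (.ch (nat_lit 7) (.ev (nat_lit 1856) (nat_lit 8192) (.ev (nat_lit 1869) (nat_lit 32768) .dd))) (.br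
 (nat_lit 11) (.ch (nat_lit 9) (.ev (nat_lit 2004) (nat_lit 8192) (.ev (nat_lit 2013) (nat_lit 32768) .dd)))
 (.ch (nat_lit 11) (.ev (nat_lit 1856) (nat_lit 32768) (.ev (nat_lit 1869) (nat_lit 8192) .dd))))))))) (.ch
 (nat_lit 2) (.nd (nat_lit 1648) (.br (nat_lit 7) (.br (nat_lit 5) (.ch (nat_lit 3) (.ev (nat_lit 1664)
 (nat_lit 32) (.ev (nat_lit 1700) (nat_lit 32768) (.ev (nat_lit 1709) (nat_lit 8192) .dd)))) (.br (nat_lit 6)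
 (.ch (nat_lit 5) (.ev (nat_lit 1664) (nat_lit 32768) (.ev (nat_lit 3876) (nat_lit 32) (.ev (nat_lit 3885)
 (nat_lit 8192) .dd)))) (.ch (nat_lit 6) (.ev (nat_lit 1664) (nat_lit 32768) (.ev (nat_lit 5044) (nat_lit 8192)
 (.ev (nat_lit 5053) (nat_lit 32) .dd)))))) (.br (nat_lit 11) (.ch (nat_lit 7) (.ev (nat_lit 1664) (nat_lit 32)
 (.ev (nat_lit 5716) (nat_lit 32768) (.ev (nat_lit 5725) (nat_lit 8192) .dd)))) (.br (nat_lit 12) (.ch (nat_lit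
 11) (.ev (nat_lit 1664) (nat_lit 8192) (.ev (nat_lit 2740) (nat_lit 32) (.ev (nat_lit 2749) (nat_lit 32768)
 .dd)))) (.ch (nat_lit 12) (.ev (nat_lit 3076) (nat_lit 8192) (.ev (nat_lit 3252) (nat_lit 32) (.ev (nat_lit
 3261) (nat_lit 32768) .dd)))))))))) (.br (nat_lit 6) (.ch (nat_lit 3) (.ev (nat_lit 1104) (nat_lit 40992)
 .dd)) (.ch (nat_lit 6) (.ev (nat_lit 1104) (nat_lit 8224) (.ev (nat_lit 1117) (nat_lit 32768) .dd))))) (.br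
 (nat_lit 10) (.br (nat_lit 9) (.ch (nat_lit 7) (.ev (nat_lit 1104) (nat_lit 40992) .dd)) (.ch (nat_lit 9) (.nd
 (nat_lit 1648) (.br (nat_lit 4) (.br (nat_lit 2) (.br (nat_lit 1) (.ch (nat_lit 0) (.ev (nat_lit 1664)
 (nat_lit 8192) (.ev (nat_lit 2100) (nat_lit 32) (.ev (nat_lit 2109) (nat_lit 32768) .dd)))) (.ch (nat_lit 1)
 (.ev (nat_lit 1664) (nat_lit 40992) .dd))) (.br (nat_lit 3) (.ch (nat_lit 2) (.ev (nat_lit 1664) (nat_lit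
 8192) (.ev (nat_lit 7028) (nat_lit 32768) (.ev (nat_lit 7037) (nat_lit 32) .dd)))) (.ch (nat_lit 3) (.ev
 (nat_lit 2868) (nat_lit 32) (.nd (nat_lit 4592) (.br (nat_lit 2) (.ch (nat_lit 0) (.ev (nat_lit 4608) (nat_lit
 32768) (.ev (nat_lit 4621) (nat_lit 8192) .dd))) (.br (nat_lit 3) (.ch (nat_lit 2) (.ev (nat_lit 6480)
 (nat_lit 8192) (.ev (nat_lit 6493) (nat_lit 32768) .dd))) (.ch (nat_lit 3) (.ev (nat_lit 6596) (nat_lit 8192)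
 (.ev (nat_lit 6605) (nat_lit 32768) .dd)))))))))) (.br (nat_lit 6) (.br (nat_lit 5) (.ch (nat_lit 4) (.ev
 (nat_lit 1664) (nat_lit 32) (.nd (nat_lit 7296) (.ch (nat_lit 1) (.nd (nat_lit 8688) (.br (nat_lit 10) (.ch
 (nat_lit 9) (.fin (nat_lit 576324963861478600))) (.ch (nat_lit 10) (.ev (nat_lit 8704) (nat_lit 32768) (.ev
 (nat_lit 8717) (nat_lit 8192) .dd))))))))) (.ch (nat_lit 5) (.ev (nat_lit 6452) (nat_lit 32) (.ev (nat_lit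
 6500) (nat_lit 32768) (.ev (nat_lit 6509) (nat_lit 8192) .dd))))) (.br (nat_lit 9) (.ch (nat_lit 6) (.ev
 (nat_lit 1664) (nat_lit 32800) (.ev (nat_lit 1677) (nat_lit 8192) .dd))) (.br (nat_lit 12) (.ch (nat_lit 9)
 (.nd (nat_lit 4224) (.br (nat_lit 9) (.br (nat_lit 3) (.ch (nat_lit 2) (.ev (nat_lit 4240) (nat_lit 32800)
 (.ev (nat_lit 4253) (nat_lit 8192) .dd))) (.br (nat_lit 7) (.ch (nat_lit 3) (.ev (nat_lit 4240) (nat_lit 8192)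
 (.ev (nat_lit 5728) (nat_lit 32) (.ev (nat_lit 5741) (nat_lit 32768) .dd)))) (.ch (nat_lit 7) (.ev (nat_lit
 5924) (nat_lit 32768) (.ev (nat_lit 6048) (nat_lit 32) (.ev (nat_lit 6061) (nat_lit 8192) .dd)))))) (.br
 (nat_lit 11) (.br (nat_lit 10) (.ch (nat_lit 9) (.ev (nat_lit 4240) (nat_lit 32800) (.ev (nat_lit 4253)
 (nat_lit 8192) .dd))) (.ch (nat_lit 10) (.ev (nat_lit 4240) (nat_lit 40992) .dd))) (.br (nat_lit 12) (.ch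
 (nat_lit 11) (.ev (nat_lit 4240) (nat_lit 32800) (.ev (nat_lit 4253) (nat_lit 8192) .dd))) (.ch (nat_lit 12)
 (.ev (nat_lit 4240) (nat_lit 32) (.ev (nat_lit 5364) (nat_lit 32768) (.ev (nat_lit 5373) (nat_lit 8192)
 .dd))))))))) (.ch (nat_lit 12) (.ev (nat_lit 1664) (nat_lit 32800) (.ev (nat_lit 1677) (nat_lit 8192)
 .dd)))))))))) (.br (nat_lit 11) (.ch (nat_lit 10) (.ev (nat_lit 1104) (nat_lit 32) (.nd (nat_lit 2128) (.br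
 (nat_lit 6) (.br (nat_lit 4) (.br (nat_lit 3) (.ch (nat_lit 1) (.ev (nat_lit 2144) (nat_lit 32768) (.ev
 (nat_lit 2157) (nat_lit 8192) .dd))) (.ch (nat_lit 3) (.ev (nat_lit 2144) (nat_lit 8192) (.ev (nat_lit 2157)
 (nat_lit 32768) .dd)))) (.br (nat_lit 5) (.ch (nat_lit 4) (.ev (nat_lit 2144) (nat_lit 32768) (.ev (nat_lit
 2157) (nat_lit 8192) .dd))) (.ch (nat_lit 5) (.ev (nat_lit 2868) (nat_lit 8192) (.ev (nat_lit 2877) (nat_lit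
 32768) .dd))))) (.br (nat_lit 9) (.br (nat_lit 7) (.ch (nat_lit 6) (.ev (nat_lit 2144) (nat_lit 40960) .dd))
 (.ch (nat_lit 7) (.ev (nat_lit 2144) (nat_lit 8192) (.ev (nat_lit 2157) (nat_lit 32768) .dd)))) (.br (nat_lit
 11) (.ch (nat_lit 9) (.ev (nat_lit 2164) (nat_lit 32768) (.ev (nat_lit 2173) (nat_lit 8192) .dd))) (.br
 (nat_lit 12) (.ch (nat_lit 11) (.ev (nat_lit 2144) (nat_lit 32768) (.ev (nat_lit 2157) (nat_lit 8192) .dd)))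
 (.ch (nat_lit 12) (.ev (nat_lit 2388) (nat_lit 8192) (.ev (nat_lit 2397) (nat_lit 32768) .dd)))))))))) (.br
 (nat_lit 12) (.ch (nat_lit 11) (.ev (nat_lit 1104) (nat_lit 32800) (.ev (nat_lit 1117) (nat_lit 8192) .dd)))
 (.ch (nat_lit 12) (.nd (nat_lit 1744) (.br (nat_lit 8) (.br (nat_lit 5) (.br (nat_lit 3) (.ch (nat_lit 2) (.ev
 (nat_lit 1760) (nat_lit 40960) (.ev (nat_lit 1773) (nat_lit 32) .dd))) (.ch (nat_lit 3) (.ev (nat_lit 1760)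
 (nat_lit 40992) .dd))) (.br (nat_lit 6) (.ch (nat_lit 5) (.nd (nat_lit 3984) (.br (nat_lit 7) (.br (nat_lit 5)
 (.ch (nat_lit 4) (.ev (nat_lit 4000) (nat_lit 40960) (.ev (nat_lit 4013) (nat_lit 32) .dd))) (.ch (nat_lit 5)
 (.ev (nat_lit 4000) (nat_lit 32800) (.ev (nat_lit 4013) (nat_lit 8192) .dd)))) (.br (nat_lit 10) (.ch (nat_lit
 7) (.ev (nat_lit 4000) (nat_lit 8224) (.ev (nat_lit 4013) (nat_lit 32768) .dd))) (.br (nat_lit 11) (.ch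
 (nat_lit 10) (.ev (nat_lit 4000) (nat_lit 32768) (.ev (nat_lit 6452) (nat_lit 32) (.ev (nat_lit 6461) (nat_lit
 8192) .dd)))) (.ch (nat_lit 11) (.ev (nat_lit 4000) (nat_lit 32) (.ev (nat_lit 6356) (nat_lit 32768) (.ev
 (nat_lit 6365) (nat_lit 8192) .dd))))))))) (.ch (nat_lit 6) (.ev (nat_lit 1760) (nat_lit 32) (.nd (nat_lit
 4224) (.br (nat_lit 5) (.br (nat_lit 3) (.ch (nat_lit 1) (.ev (nat_lit 4240) (nat_lit 40960) .dd)) (.br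
 (nat_lit 4) (.ch (nat_lit 3) (.ev (nat_lit 4240) (nat_lit 32768) (.ev (nat_lit 4253) (nat_lit 8192) .dd)))
 (.ch (nat_lit 4) (.ev (nat_lit 4240) (nat_lit 32768) (.ev (nat_lit 4253) (nat_lit 8192) .dd))))) (.br (nat_lit
 10) (.ch (nat_lit 5) (.ev (nat_lit 4240) (nat_lit 8192) (.ev (nat_lit 4253) (nat_lit 32768) .dd))) (.br
 (nat_lit 11) (.ch (nat_lit 10) (.ev (nat_lit 4240) (nat_lit 32768) (.ev (nat_lit 4253) (nat_lit 8192) .dd)))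
 (.ch (nat_lit 11) (.ev (nat_lit 4240) (nat_lit 8192) (.ev (nat_lit 4253) (nat_lit 32768) .dd))))))))))) (.br
 (nat_lit 10) (.br (nat_lit 9) (.ch (nat_lit 8) (.nd (nat_lit 4224) (.br (nat_lit 7) (.br (nat_lit 4) (.ch
 (nat_lit 2) (.ev (nat_lit 4240) (nat_lit 40960) (.ev (nat_lit 4253) (nat_lit 32) .dd))) (.br (nat_lit 5) (.ch
 (nat_lit 4) (.ev (nat_lit 4240) (nat_lit 32) (.ev (nat_lit 5444) (nat_lit 32768) (.ev (nat_lit 5453) (nat_lit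
 8192) .dd)))) (.ch (nat_lit 5) (.ev (nat_lit 4240) (nat_lit 32) (.ev (nat_lit 4932) (nat_lit 32768) (.ev
 (nat_lit 4941) (nat_lit 8192) .dd)))))) (.br (nat_lit 9) (.ch (nat_lit 7) (.ev (nat_lit 4240) (nat_lit 32)
 (.ev (nat_lit 5188) (nat_lit 32768) (.ev (nat_lit 5197) (nat_lit 8192) .dd)))) (.br (nat_lit 10) (.ch (nat_lit
 9) (.ev (nat_lit 5376) (nat_lit 8192) (.ev (nat_lit 6272) (nat_lit 32800) .dd))) (.ch (nat_lit 10) (.ev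
 (nat_lit 4240) (nat_lit 32) (.ev (nat_lit 4996) (nat_lit 32768) (.ev (nat_lit 5005) (nat_lit 8192)
 .dd))))))))) (.ch (nat_lit 9) (.ev (nat_lit 1760) (nat_lit 8224) (.ev (nat_lit 1773) (nat_lit 32768) .dd))))
 (.br (nat_lit 11) (.ch (nat_lit 10) (.ev (nat_lit 1760) (nat_lit 32) (.nd (nat_lit 4592) (.br (nat_lit 6) (.br
 (nat_lit 2) (.br (nat_lit 1) (.ch (nat_lit 0) (.ev (nat_lit 4692) (nat_lit 32768) (.ev (nat_lit 4701) (nat_lit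
 8192) .dd))) (.ch (nat_lit 1) (.ev (nat_lit 4608) (nat_lit 32768) (.ev (nat_lit 4621) (nat_lit 8192) .dd))))
 (.br (nat_lit 3) (.ch (nat_lit 2) (.ev (nat_lit 4608) (nat_lit 8192) (.ev (nat_lit 4621) (nat_lit 32768)
 .dd))) (.ch (nat_lit 3) (.ev (nat_lit 4608) (nat_lit 32768) (.ev (nat_lit 4621) (nat_lit 8192) .dd))))) (.br
 (nat_lit 10) (.br (nat_lit 7) (.ch (nat_lit 6) (.ev (nat_lit 4692) (nat_lit 32768) (.ev (nat_lit 4701)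
 (nat_lit 8192) .dd))) (.ch (nat_lit 7) (.ev (nat_lit 4692) (nat_lit 32768) (.ev (nat_lit 4701) (nat_lit 8192)
 .dd)))) (.br (nat_lit 11) (.ch (nat_lit 10) (.ev (nat_lit 4608) (nat_lit 8192) (.ev (nat_lit 4621) (nat_lit
 32768) .dd))) (.ch (nat_lit 11) (.ev (nat_lit 4608) (nat_lit 32768) (.ev (nat_lit 4621) (nat_lit 8192)
 .dd))))))))) (.br (nat_lit 12) (.ch (nat_lit 11) (.ev (nat_lit 1760) (nat_lit 32) (.ev (nat_lit 5044) (nat_lit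
 32768) (.ev (nat_lit 5053) (nat_lit 8192) .dd)))) (.ch (nat_lit 12) (.ev (nat_lit 1760) (nat_lit 32768) (.ev
 (nat_lit 3012) (nat_lit 32) (.ev (nat_lit 3021) (nat_lit 8192) .dd)))))))))))))))))) (.br (nat_lit 11) (.ch
 (nat_lit 9) (.ev (nat_lit 544) (nat_lit 41024) (.nd (nat_lit 1264) (.br (nat_lit 7) (.br (nat_lit 5) (.br
 (nat_lit 1) (.ch (nat_lit 0) (.ev (nat_lit 1280) (nat_lit 32) (.ev (nat_lit 1293) (nat_lit 4096) .dd))) (.ch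
 (nat_lit 1) (.ev (nat_lit 1280) (nat_lit 32) (.ev (nat_lit 1293) (nat_lit 4096) .dd)))) (.br (nat_lit 6) (.ch
 (nat_lit 5) (.nd (nat_lit 3984) (.br (nat_lit 8) (.ch (nat_lit 5) (.ev (nat_lit 4000) (nat_lit 32) (.ev
 (nat_lit 4013) (nat_lit 4096) .dd))) (.br (nat_lit 12) (.ch (nat_lit 8) (.fin (nat_lit 576483292300657230)))
 (.ch (nat_lit 12) (.ev (nat_lit 4000) (nat_lit 32) (.ev (nat_lit 4013) (nat_lit 4096) .dd))))))) (.ch (nat_lit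
 6) (.ev (nat_lit 1280) (nat_lit 4128) .dd)))) (.br (nat_lit 10) (.br (nat_lit 9) (.ch (nat_lit 7) (.nd
 (nat_lit 3984) (.br (nat_lit 12) (.ch (nat_lit 7) (.ev (nat_lit 4000) (nat_lit 32) (.ev (nat_lit 4013)
 (nat_lit 4096) .dd))) (.ch (nat_lit 12) (.ev (nat_lit 4052) (nat_lit 32) (.ev (nat_lit 4061) (nat_lit 4096)
 .dd)))))) (.ch (nat_lit 9) (.ev (nat_lit 1280) (nat_lit 4096) (.ev (nat_lit 1293) (nat_lit 32) .dd)))) (.br
 (nat_lit 12) (.ch (nat_lit 10) (.nd (nat_lit 3984) (.br (nat_lit 6) (.br (nat_lit 3) (.ch (nat_lit 2) (.ev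
 (nat_lit 4000) (nat_lit 32) (.ev (nat_lit 4013) (nat_lit 4096) .dd))) (.br (nat_lit 5) (.ch (nat_lit 3) (.ev
 (nat_lit 4000) (nat_lit 4096) (.ev (nat_lit 4013) (nat_lit 32) .dd))) (.ch (nat_lit 5) (.ev (nat_lit 4052)
 (nat_lit 32) (.ev (nat_lit 4061) (nat_lit 4096) .dd))))) (.br (nat_lit 10) (.ch (nat_lit 6) (.ev (nat_lit
 4000) (nat_lit 4128) .dd)) (.br (nat_lit 11) (.ch (nat_lit 10) (.ev (nat_lit 4000) (nat_lit 4128) .dd)) (.ch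
 (nat_lit 11) (.ev (nat_lit 4000) (nat_lit 32) (.ev (nat_lit 4013) (nat_lit 4096) .dd)))))))) (.ch (nat_lit 12)
 (.ev (nat_lit 1280) (nat_lit 32) (.ev (nat_lit 1293) (nat_lit 4096) .dd))))))))) (.br (nat_lit 12) (.ch
 (nat_lit 11) (.ev (nat_lit 544) (nat_lit 12320) (.nd (nat_lit 1264) (.br (nat_lit 5) (.br (nat_lit 2) (.ch
 (nat_lit 1) (.ev (nat_lit 1300) (nat_lit 32768) (.ev (nat_lit 1309) (nat_lit 64) .dd))) (.br (nat_lit 4) (.ch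
 (nat_lit 2) (.ev (nat_lit 1280) (nat_lit 64) (.ev (nat_lit 1293) (nat_lit 32768) .dd))) (.ch (nat_lit 4) (.ev
 (nat_lit 1280) (nat_lit 32768) (.ev (nat_lit 1293) (nat_lit 64) .dd))))) (.br (nat_lit 8) (.br (nat_lit 6)
 (.ch (nat_lit 5) (.ev (nat_lit 1280) (nat_lit 32768) (.ev (nat_lit 1293) (nat_lit 64) .dd))) (.ch (nat_lit 6)
 (.ev (nat_lit 1300) (nat_lit 64) (.ev (nat_lit 1309) (nat_lit 32768) .dd)))) (.br (nat_lit 11) (.ch (nat_lit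
 8) (.ev (nat_lit 1280) (nat_lit 64) (.ev (nat_lit 1293) (nat_lit 32768) .dd))) (.ch (nat_lit 11) (.nd (nat_lit
 3984) (.br (nat_lit 9) (.br (nat_lit 1) (.ch (nat_lit 0) (.ev (nat_lit 4000) (nat_lit 64) (.ev (nat_lit 4013)
 (nat_lit 32768) .dd))) (.br (nat_lit 6) (.ch (nat_lit 1) (.fin (nat_lit 576460202548085310))) (.ch (nat_lit 6)
 (.ev (nat_lit 4020) (nat_lit 32768) (.ev (nat_lit 4029) (nat_lit 64) .dd))))) (.br (nat_lit 11) (.br (nat_lit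
 10) (.ch (nat_lit 9) (.ev (nat_lit 4000) (nat_lit 32832) .dd)) (.ch (nat_lit 10) (.ev (nat_lit 4052) (nat_lit
 64) (.ev (nat_lit 4061) (nat_lit 32768) .dd)))) (.br (nat_lit 12) (.ch (nat_lit 11) (.ev (nat_lit 4000)
 (nat_lit 32768) (.ev (nat_lit 4013) (nat_lit 64) .dd))) (.ch (nat_lit 12) (.ev (nat_lit 4020) (nat_lit 64)
 (.ev (nat_lit 4029) (nat_lit 32768) .dd)))))))))))))) (.ch (nat_lit 12) (.nd (nat_lit 1088) (.br (nat_lit 5)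
 (.br (nat_lit 3) (.br (nat_lit 2) (.ch (nat_lit 1) (.ev (nat_lit 1104) (nat_lit 8224) (.nd (nat_lit 1968) (.br
 (nat_lit 8) (.br (nat_lit 6) (.br (nat_lit 4) (.ch (nat_lit 0) (.nd (nat_lit 4592) (.br (nat_lit 10) (.br
 (nat_lit 3) (.ch (nat_lit 0) (.ev (nat_lit 4608) (nat_lit 32768) (.ev (nat_lit 5056) (nat_lit 4160) .dd)))
 (.br (nat_lit 6) (.ch (nat_lit 3) (.ev (nat_lit 5140) (nat_lit 64) (.ev (nat_lit 5924) (nat_lit 4096) (.ev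
 (nat_lit 5933) (nat_lit 32768) .dd)))) (.ch (nat_lit 6) (.ev (nat_lit 4608) (nat_lit 4096) (.ev (nat_lit 5140)
 (nat_lit 64) (.ev (nat_lit 5149) (nat_lit 32768) .dd)))))) (.br (nat_lit 11) (.ch (nat_lit 10) (.ev (nat_lit
 5924) (nat_lit 4096) (.ev (nat_lit 6272) (nat_lit 32768) (.ev (nat_lit 6285) (nat_lit 64) .dd)))) (.br
 (nat_lit 12) (.ch (nat_lit 11) (.ev (nat_lit 5924) (nat_lit 4096) (.ev (nat_lit 6148) (nat_lit 64) (.ev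
 (nat_lit 6157) (nat_lit 32768) .dd)))) (.ch (nat_lit 12) (.ev (nat_lit 4608) (nat_lit 4096) (.ev (nat_lit
 4692) (nat_lit 64) (.ev (nat_lit 4701) (nat_lit 32768) .dd))))))))) (.ch (nat_lit 4) (.nd (nat_lit 4592) (.br
 (nat_lit 4) (.br (nat_lit 3) (.ch (nat_lit 1) (.ev (nat_lit 4608) (nat_lit 32768) (.ev (nat_lit 5808) (nat_lit
 4160) .dd))) (.ch (nat_lit 3) (.ev (nat_lit 5540) (nat_lit 32768) (.ev (nat_lit 5584) (nat_lit 64) (.ev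
 (nat_lit 5597) (nat_lit 4096) .dd))))) (.br (nat_lit 6) (.ch (nat_lit 4) (.ev (nat_lit 4608) (nat_lit 32768)
 (.ev (nat_lit 4724) (nat_lit 64) (.ev (nat_lit 4733) (nat_lit 4096) .dd)))) (.br (nat_lit 10) (.ch (nat_lit 6)
 (.ev (nat_lit 5492) (nat_lit 64) (.ev (nat_lit 5540) (nat_lit 32768) (.ev (nat_lit 5549) (nat_lit 4096)
 .dd)))) (.ch (nat_lit 10) (.ev (nat_lit 5540) (nat_lit 32768) (.ev (nat_lit 6596) (nat_lit 64) (.ev (nat_lit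
 6605) (nat_lit 4096) .dd)))))))))) (.br (nat_lit 7) (.ch (nat_lit 6) (.ev (nat_lit 1984) (nat_lit 4160) (.ev
 (nat_lit 1997) (nat_lit 32768) .dd))) (.ch (nat_lit 7) (.ev (nat_lit 1984) (nat_lit 64) (.ev (nat_lit 5188)
 (nat_lit 4096) (.ev (nat_lit 5197) (nat_lit 32768) .dd)))))) (.br (nat_lit 10) (.br (nat_lit 9) (.ch (nat_lit
 8) (.ev (nat_lit 6900) (nat_lit 4096) (.ev (nat_lit 7028) (nat_lit 64) (.ev (nat_lit 7037) (nat_lit 32768)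
 .dd)))) (.ch (nat_lit 9) (.ev (nat_lit 1984) (nat_lit 36864) (.ev (nat_lit 1997) (nat_lit 64) .dd)))) (.br
 (nat_lit 11) (.ch (nat_lit 10) (.ev (nat_lit 1984) (nat_lit 32768) (.ev (nat_lit 5492) (nat_lit 4096) (.ev
 (nat_lit 5501) (nat_lit 64) .dd)))) (.ch (nat_lit 11) (.ev (nat_lit 1984) (nat_lit 32768) (.ev (nat_lit 7028)
 (nat_lit 64) (.ev (nat_lit 7037) (nat_lit 4096) .dd)))))))))) (.ch (nat_lit 2) (.ev (nat_lit 1104) (nat_lit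
 4192) (.nd (nat_lit 2336) (.br (nat_lit 7) (.br (nat_lit 4) (.ch (nat_lit 2) (.ev (nat_lit 2352) (nat_lit
 32768) (.ev (nat_lit 2365) (nat_lit 8192) .dd))) (.br (nat_lit 5) (.ch (nat_lit 4) (.ev (nat_lit 2352)
 (nat_lit 32768) (.ev (nat_lit 2365) (nat_lit 8192) .dd))) (.ch (nat_lit 5) (.ev (nat_lit 3844) (nat_lit 8192)
 (.ev (nat_lit 3853) (nat_lit 32768) .dd))))) (.br (nat_lit 9) (.ch (nat_lit 7) (.ev (nat_lit 2352) (nat_lit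
 32768) (.ev (nat_lit 2365) (nat_lit 8192) .dd))) (.br (nat_lit 11) (.ch (nat_lit 9) (.ev (nat_lit 2352)
 (nat_lit 8192) (.ev (nat_lit 2365) (nat_lit 32768) .dd))) (.ch (nat_lit 11) (.fin (nat_lit
 576553660979823110)))))))))) (.br (nat_lit 4) (.ch (nat_lit 3) (.ev (nat_lit 1104) (nat_lit 45088) (.ev
 (nat_lit 1117) (nat_lit 64) .dd))) (.ch (nat_lit 4) (.ev (nat_lit 1104) (nat_lit 45120) (.ev (nat_lit 1117)
 (nat_lit 32) .dd))))) (.br (nat_lit 8) (.br (nat_lit 7) (.ch (nat_lit 5) (.ev (nat_lit 1124) (nat_lit 4096)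
 (.nd (nat_lit 1968) (.br (nat_lit 8) (.br (nat_lit 4) (.br (nat_lit 3) (.ch (nat_lit 1) (.ev (nat_lit 1984)
 (nat_lit 32800) (.ev (nat_lit 6596) (nat_lit 8192) (.ev (nat_lit 6605) (nat_lit 64) .dd)))) (.ch (nat_lit 3)
 (.ev (nat_lit 1984) (nat_lit 96) (.ev (nat_lit 2164) (nat_lit 32768) (.ev (nat_lit 2173) (nat_lit 8192)
 .dd))))) (.br (nat_lit 6) (.ch (nat_lit 4) (.ev (nat_lit 1984) (nat_lit 32800) (.ev (nat_lit 3300) (nat_lit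
 64) (.ev (nat_lit 3309) (nat_lit 8192) .dd)))) (.ch (nat_lit 6) (.ev (nat_lit 1984) (nat_lit 64) (.ev (nat_lit
 2164) (nat_lit 32768) (.ev (nat_lit 6452) (nat_lit 32) (.ev (nat_lit 6461) (nat_lit 8192) .dd))))))) (.br
 (nat_lit 10) (.br (nat_lit 9) (.ch (nat_lit 8) (.ev (nat_lit 1984) (nat_lit 8192) (.ev (nat_lit 2388) (nat_lit
 32) (.ev (nat_lit 2900) (nat_lit 32768) (.ev (nat_lit 2909) (nat_lit 64) .dd))))) (.ch (nat_lit 9) (.ev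
 (nat_lit 1984) (nat_lit 40992) (.ev (nat_lit 1997) (nat_lit 64) .dd)))) (.br (nat_lit 11) (.ch (nat_lit 10)
 (.ev (nat_lit 1984) (nat_lit 32800) (.ev (nat_lit 5616) (nat_lit 8192) (.ev (nat_lit 5629) (nat_lit 64)
 .dd)))) (.br (nat_lit 12) (.ch (nat_lit 11) (.ev (nat_lit 1984) (nat_lit 8224) (.ev (nat_lit 2004) (nat_lit
 64) (.ev (nat_lit 2013) (nat_lit 32768) .dd)))) (.ch (nat_lit 12) (.ev (nat_lit 1984) (nat_lit 41024) (.ev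
 (nat_lit 1997) (nat_lit 32) .dd)))))))))) (.ch (nat_lit 7) (.nd (nat_lit 1552) (.br (nat_lit 4) (.br (nat_lit
 1) (.ch (nat_lit 0) (.ev (nat_lit 1568) (nat_lit 32) (.ev (nat_lit 3284) (nat_lit 32768) (.ev (nat_lit 4116)
 (nat_lit 64) (.ev (nat_lit 5152) (nat_lit 4096) (.ev (nat_lit 5165) (nat_lit 8192) .dd)))))) (.br (nat_lit 2)
 (.ch (nat_lit 1) (.ev (nat_lit 1568) (nat_lit 8192) (.nd (nat_lit 4416) (.br (nat_lit 4) (.br (nat_lit 1) (.ch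
 (nat_lit 0) (.ev (nat_lit 4432) (nat_lit 4096) (.ev (nat_lit 5188) (nat_lit 32) (.ev (nat_lit 6356) (nat_lit
 32768) (.ev (nat_lit 6365) (nat_lit 64) .dd))))) (.br (nat_lit 2) (.ch (nat_lit 1) (.ev (nat_lit 4432)
 (nat_lit 32864) (.ev (nat_lit 4445) (nat_lit 4096) .dd))) (.ch (nat_lit 2) (.ev (nat_lit 4432) (nat_lit 32864)
 (.ev (nat_lit 4445) (nat_lit 4096) .dd))))) (.br (nat_lit 8) (.br (nat_lit 7) (.ch (nat_lit 4) (.ev (nat_lit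
 4432) (nat_lit 96) (.ev (nat_lit 6176) (nat_lit 4096) (.ev (nat_lit 6189) (nat_lit 32768) .dd)))) (.ch
 (nat_lit 7) (.ev (nat_lit 4432) (nat_lit 4096) (.ev (nat_lit 4976) (nat_lit 32) (.ev (nat_lit 5716) (nat_lit
 64) (.ev (nat_lit 5725) (nat_lit 32768) .dd)))))) (.br (nat_lit 9) (.ch (nat_lit 8) (.ev (nat_lit 4432)
 (nat_lit 36928) (.ev (nat_lit 4445) (nat_lit 32) .dd))) (.ch (nat_lit 9) (.ev (nat_lit 4432) (nat_lit 4160)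
 (.ev (nat_lit 5444) (nat_lit 32) (.ev (nat_lit 5453) (nat_lit 32768) .dd)))))))))) (.ch (nat_lit 2) (.ev
 (nat_lit 1568) (nat_lit 32768) (.nd (nat_lit 4304) (.br (nat_lit 9) (.br (nat_lit 6) (.ch (nat_lit 2) (.ev
 (nat_lit 4320) (nat_lit 12288) (.ev (nat_lit 6900) (nat_lit 32) (.ev (nat_lit 6909) (nat_lit 64) .dd)))) (.br
 (nat_lit 8) (.ch (nat_lit 6) (.ev (nat_lit 4320) (nat_lit 32) (.ev (nat_lit 6384) (nat_lit 8192) (.ev (nat_lit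
 6644) (nat_lit 4096) (.ev (nat_lit 6653) (nat_lit 64) .dd))))) (.ch (nat_lit 8) (.ev (nat_lit 4320) (nat_lit
 12320) (.ev (nat_lit 4333) (nat_lit 64) .dd))))) (.br (nat_lit 10) (.ch (nat_lit 9) (.ev (nat_lit 4320)
 (nat_lit 12320) (.ev (nat_lit 4333) (nat_lit 64) .dd))) (.br (nat_lit 11) (.ch (nat_lit 10) (.ev (nat_lit
 4320) (nat_lit 64) (.ev (nat_lit 5072) (nat_lit 4096) (.ev (nat_lit 5140) (nat_lit 32) (.ev (nat_lit 5149)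
 (nat_lit 8192) .dd))))) (.ch (nat_lit 11) (.ev (nat_lit 4320) (nat_lit 4096) (.ev (nat_lit 4960) (nat_lit 32)
 (.ev (nat_lit 5300) (nat_lit 8192) (.ev (nat_lit 5309) (nat_lit 64) .dd))))))))))))) (.br (nat_lit 7) (.br
 (nat_lit 6) (.ch (nat_lit 4) (.ev (nat_lit 1568) (nat_lit 36864) (.nd (nat_lit 4224) (.br (nat_lit 4) (.br
 (nat_lit 1) (.ch (nat_lit 0) (.ev (nat_lit 4724) (nat_lit 32) (.ev (nat_lit 5044) (nat_lit 8192) (.ev (nat_lit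
 5053) (nat_lit 64) .dd)))) (.br (nat_lit 3) (.ch (nat_lit 1) (.ev (nat_lit 4240) (nat_lit 8256) (.ev (nat_lit
 4253) (nat_lit 32) .dd))) (.ch (nat_lit 3) (.ev (nat_lit 4240) (nat_lit 8192) (.ev (nat_lit 5236) (nat_lit 32)
 (.ev (nat_lit 5245) (nat_lit 64) .dd)))))) (.br (nat_lit 6) (.br (nat_lit 5) (.ch (nat_lit 4) (.ev (nat_lit
 4240) (nat_lit 32) (.ev (nat_lit 6720) (nat_lit 8256) .dd))) (.ch (nat_lit 5) (.ev (nat_lit 4240) (nat_lit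
 8256) (.ev (nat_lit 4253) (nat_lit 32) .dd)))) (.br (nat_lit 12) (.ch (nat_lit 6) (.ev (nat_lit 4240) (nat_lit
 8192) (.ev (nat_lit 5844) (nat_lit 32) (.ev (nat_lit 5853) (nat_lit 64) .dd)))) (.ch (nat_lit 12) (.ev
 (nat_lit 4240) (nat_lit 96) (.ev (nat_lit 4253) (nat_lit 8192) .dd))))))))) (.ch (nat_lit 6) (.ev (nat_lit
 1568) (nat_lit 8192) (.ev (nat_lit 1876) (nat_lit 4096) (.nd (nat_lit 4416) (.br (nat_lit 6) (.br (nat_lit 5)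
 (.ch (nat_lit 1) (.ev (nat_lit 4432) (nat_lit 96) (.ev (nat_lit 4445) (nat_lit 32768) .dd))) (.ch (nat_lit 5)
 (.ev (nat_lit 4996) (nat_lit 32) (.ev (nat_lit 6788) (nat_lit 32768) (.ev (nat_lit 6797) (nat_lit 64) .dd)))))
 (.br (nat_lit 7) (.ch (nat_lit 6) (.ev (nat_lit 4432) (nat_lit 96) (.ev (nat_lit 4445) (nat_lit 32768) .dd)))
 (.br (nat_lit 11) (.ch (nat_lit 7) (.ev (nat_lit 4432) (nat_lit 32) (.ev (nat_lit 6400) (nat_lit 64) (.ev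
 (nat_lit 6413) (nat_lit 32768) .dd)))) (.ch (nat_lit 11) (.ev (nat_lit 5140) (nat_lit 32) (.ev (nat_lit 6656)
 (nat_lit 32768) (.ev (nat_lit 6669) (nat_lit 64) .dd)))))))))))) (.br (nat_lit 11) (.ch (nat_lit 7) (.ev
 (nat_lit 1568) (nat_lit 4096) (.ev (nat_lit 1780) (nat_lit 8192) (.nd (nat_lit 4592) (.br (nat_lit 4) (.br
 (nat_lit 2) (.ch (nat_lit 0) (.ev (nat_lit 4608) (nat_lit 96) (.ev (nat_lit 4621) (nat_lit 32768) .dd))) (.br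
 (nat_lit 3) (.ch (nat_lit 2) (.ev (nat_lit 4608) (nat_lit 32) (.ev (nat_lit 6148) (nat_lit 64) (.ev (nat_lit
 6157) (nat_lit 32768) .dd)))) (.ch (nat_lit 3) (.ev (nat_lit 4608) (nat_lit 32864) .dd)))) (.br (nat_lit 9)
 (.br (nat_lit 8) (.ch (nat_lit 4) (.ev (nat_lit 4644) (nat_lit 64) (.ev (nat_lit 5300) (nat_lit 32) (.ev
 (nat_lit 5309) (nat_lit 32768) .dd)))) (.ch (nat_lit 8) (.ev (nat_lit 4608) (nat_lit 32768) (.ev (nat_lit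
 4996) (nat_lit 32) (.ev (nat_lit 5005) (nat_lit 64) .dd))))) (.br (nat_lit 12) (.ch (nat_lit 9) (.ev (nat_lit
 4608) (nat_lit 32) (.ev (nat_lit 4644) (nat_lit 64) (.ev (nat_lit 4653) (nat_lit 32768) .dd)))) (.ch (nat_lit
 12) (.ev (nat_lit 4996) (nat_lit 32) (.ev (nat_lit 6452) (nat_lit 64) (.ev (nat_lit 6461) (nat_lit 32768)
 .dd))))))))))) (.ch (nat_lit 11) (.ev (nat_lit 1568) (nat_lit 96) (.ev (nat_lit 3012) (nat_lit 32768) (.ev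
 (nat_lit 6356) (nat_lit 8192) (.ev (nat_lit 6365) (nat_lit 4096) .dd))))))))))) (.br (nat_lit 9) (.ch (nat_lit
 8) (.ev (nat_lit 1104) (nat_lit 32) (.nd (nat_lit 1968) (.br (nat_lit 8) (.br (nat_lit 5) (.br (nat_lit 4)
 (.ch (nat_lit 2) (.ev (nat_lit 1984) (nat_lit 12288) (.ev (nat_lit 5792) (nat_lit 32832) .dd))) (.ch (nat_lit
 4) (.ev (nat_lit 1984) (nat_lit 40960) (.ev (nat_lit 2004) (nat_lit 64) (.ev (nat_lit 2013) (nat_lit 4096)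
 .dd))))) (.br (nat_lit 6) (.ch (nat_lit 5) (.ev (nat_lit 1984) (nat_lit 8192) (.ev (nat_lit 2004) (nat_lit
 32768) (.ev (nat_lit 2180) (nat_lit 4096) (.ev (nat_lit 2189) (nat_lit 64) .dd))))) (.ch (nat_lit 6) (.ev
 (nat_lit 1984) (nat_lit 40960) (.ev (nat_lit 2004) (nat_lit 64) (.ev (nat_lit 2013) (nat_lit 4096) .dd))))))
 (.br (nat_lit 10) (.br (nat_lit 9) (.ch (nat_lit 8) (.ev (nat_lit 1984) (nat_lit 32832) (.ev (nat_lit 2788)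
 (nat_lit 8192) (.ev (nat_lit 2797) (nat_lit 4096) .dd)))) (.ch (nat_lit 9) (.ev (nat_lit 1984) (nat_lit 4160)
 (.ev (nat_lit 3140) (nat_lit 8192) (.ev (nat_lit 3149) (nat_lit 32768) .dd))))) (.br (nat_lit 11) (.ch
 (nat_lit 10) (.ev (nat_lit 2196) (nat_lit 4096) (.ev (nat_lit 2516) (nat_lit 32768) (.ev (nat_lit 3604)
 (nat_lit 64) (.ev (nat_lit 3613) (nat_lit 8192) .dd))))) (.ch (nat_lit 11) (.ev (nat_lit 1984) (nat_lit 64)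
 (.ev (nat_lit 2036) (nat_lit 32768) (.ev (nat_lit 2788) (nat_lit 8192) (.ev (nat_lit 2797) (nat_lit 4096)
 .dd))))))))))) (.br (nat_lit 10) (.ch (nat_lit 9) (.ev (nat_lit 1104) (nat_lit 32832) (.nd (nat_lit 1840) (.br
 (nat_lit 6) (.br (nat_lit 4) (.br (nat_lit 2) (.ch (nat_lit 1) (.ev (nat_lit 1856) (nat_lit 12288) (.ev
 (nat_lit 1869) (nat_lit 32) .dd))) (.ch (nat_lit 2) (.ev (nat_lit 1856) (nat_lit 8224) (.ev (nat_lit 1869)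
 (nat_lit 4096) .dd)))) (.br (nat_lit 5) (.ch (nat_lit 4) (.ev (nat_lit 1856) (nat_lit 12288) (.ev (nat_lit
 1869) (nat_lit 32) .dd))) (.ch (nat_lit 5) (.ev (nat_lit 1856) (nat_lit 4128) (.ev (nat_lit 1869) (nat_lit
 8192) .dd))))) (.br (nat_lit 10) (.br (nat_lit 7) (.ch (nat_lit 6) (.ev (nat_lit 1856) (nat_lit 4096) (.ev
 (nat_lit 6500) (nat_lit 8192) (.ev (nat_lit 6509) (nat_lit 32) .dd)))) (.ch (nat_lit 7) (.ev (nat_lit 1856)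
 (nat_lit 4128) (.ev (nat_lit 1869) (nat_lit 8192) .dd)))) (.br (nat_lit 11) (.ch (nat_lit 10) (.ev (nat_lit
 1876) (nat_lit 32) (.ev (nat_lit 2740) (nat_lit 8192) (.ev (nat_lit 2749) (nat_lit 4096) .dd)))) (.br (nat_lit
 12) (.ch (nat_lit 11) (.ev (nat_lit 1856) (nat_lit 4128) (.ev (nat_lit 1869) (nat_lit 8192) .dd))) (.ch
 (nat_lit 12) (.ev (nat_lit 1856) (nat_lit 8224) (.ev (nat_lit 1869) (nat_lit 4096) .dd)))))))))) (.ch (nat_lit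
 10) (.ev (nat_lit 1104) (nat_lit 8192) (.ev (nat_lit 1124) (nat_lit 4096) (.ev (nat_lit 1236) (nat_lit 32768)
 (.nd (nat_lit 2128) (.br (nat_lit 4) (.br (nat_lit 2) (.br (nat_lit 1) (.ch (nat_lit 0) (.ev (nat_lit 2164)
 (nat_lit 64) (.ev (nat_lit 2173) (nat_lit 32) .dd))) (.ch (nat_lit 1) (.ev (nat_lit 2144) (nat_lit 96) .dd)))
 (.br (nat_lit 3) (.ch (nat_lit 2) (.ev (nat_lit 2144) (nat_lit 64) (.ev (nat_lit 2157) (nat_lit 32) .dd)))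
 (.ch (nat_lit 3) (.ev (nat_lit 2144) (nat_lit 32) (.ev (nat_lit 2157) (nat_lit 64) .dd))))) (.br (nat_lit 6)
 (.br (nat_lit 5) (.ch (nat_lit 4) (.ev (nat_lit 5668) (nat_lit 32) (.ev (nat_lit 5677) (nat_lit 64) .dd)))
 (.ch (nat_lit 5) (.ev (nat_lit 2144) (nat_lit 32) (.ev (nat_lit 2157) (nat_lit 64) .dd)))) (.br (nat_lit 9)
 (.ch (nat_lit 6) (.ev (nat_lit 2144) (nat_lit 96) .dd)) (.br (nat_lit 12) (.ch (nat_lit 9) (.ev (nat_lit 2144)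
 (nat_lit 64) (.ev (nat_lit 2157) (nat_lit 32) .dd))) (.ch (nat_lit 12) (.ev (nat_lit 2144) (nat_lit 96)
 .dd)))))))))))))))))))))))) (.ch (nat_lit 1) (.ev (nat_lit 48) (nat_lit 32868) (.nd (nat_lit 528) (.br
 (nat_lit 4) (.br (nat_lit 2) (.br (nat_lit 1) (.ch (nat_lit 0) (.nd (nat_lit 1008) (.br (nat_lit 7) (.br
 (nat_lit 5) (.ch (nat_lit 2) (.nd (nat_lit 1552) (.br (nat_lit 6) (.br (nat_lit 3) (.ch (nat_lit 0) (.nd
 (nat_lit 4864) (.br (nat_lit 5) (.br (nat_lit 2) (.ch (nat_lit 1) (.ev (nat_lit 4880) (nat_lit 8192) (.ev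
 (nat_lit 4893) (nat_lit 4096) .dd))) (.ch (nat_lit 2) (.ev (nat_lit 4944) (nat_lit 12288) .dd))) (.br (nat_lit
 6) (.ch (nat_lit 5) (.ev (nat_lit 4880) (nat_lit 8192) (.ev (nat_lit 4893) (nat_lit 4096) .dd))) (.br (nat_lit
 10) (.ch (nat_lit 6) (.ev (nat_lit 4880) (nat_lit 4096) (.ev (nat_lit 4893) (nat_lit 8192) .dd))) (.ch
 (nat_lit 10) (.ev (nat_lit 5680) (nat_lit 4096) (.ev (nat_lit 5693) (nat_lit 8192) .dd)))))))) (.br (nat_lit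
 4) (.ch (nat_lit 3) (.ev (nat_lit 1568) (nat_lit 8192) (.ev (nat_lit 1581) (nat_lit 4096) .dd))) (.ch (nat_lit
 4) (.ev (nat_lit 1568) (nat_lit 4096) (.ev (nat_lit 1581) (nat_lit 8192) .dd))))) (.br (nat_lit 8) (.br
 (nat_lit 7) (.ch (nat_lit 6) (.ev (nat_lit 1568) (nat_lit 4096) (.ev (nat_lit 1581) (nat_lit 8192) .dd))) (.ch
 (nat_lit 7) (.ev (nat_lit 6900) (nat_lit 4096) (.ev (nat_lit 6909) (nat_lit 8192) .dd)))) (.br (nat_lit 9)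
 (.ch (nat_lit 8) (.ev (nat_lit 1568) (nat_lit 4096) (.ev (nat_lit 1581) (nat_lit 8192) .dd))) (.ch (nat_lit 9)
 (.ev (nat_lit 1568) (nat_lit 4096) (.ev (nat_lit 1581) (nat_lit 8192) .dd)))))))) (.br (nat_lit 6) (.ch
 (nat_lit 5) (.ev (nat_lit 1024) (nat_lit 8192) (.ev (nat_lit 1037) (nat_lit 4096) .dd))) (.ch (nat_lit 6) (.nd
 (nat_lit 1744) (.br (nat_lit 3) (.ch (nat_lit 0) (.nd (nat_lit 7328) (.br (nat_lit 12) (.ch (nat_lit 7) (.ev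
 (nat_lit 7428) (nat_lit 4096) (.ev (nat_lit 7437) (nat_lit 8192) .dd))) (.ch (nat_lit 12) (.fin (nat_lit
 576478894246806093)))))) (.br (nat_lit 8) (.ch (nat_lit 3) (.ev (nat_lit 5344) (nat_lit 12288) .dd)) (.ch
 (nat_lit 8) (.ev (nat_lit 6848) (nat_lit 12288) .dd)))))))) (.br (nat_lit 9) (.br (nat_lit 8) (.ch (nat_lit 7)
 (.ev (nat_lit 1024) (nat_lit 12288) .dd)) (.ch (nat_lit 8) (.nd (nat_lit 1744) (.br (nat_lit 4) (.br (nat_lit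
 2) (.ch (nat_lit 1) (.ev (nat_lit 1876) (nat_lit 4096) (.ev (nat_lit 1885) (nat_lit 8192) .dd))) (.br (nat_lit
 3) (.ch (nat_lit 2) (.fin (nat_lit 574359028058513501))) (.ch (nat_lit 3) (.ev (nat_lit 2832) (nat_lit 8192)
 (.ev (nat_lit 2845) (nat_lit 4096) .dd))))) (.br (nat_lit 5) (.ch (nat_lit 4) (.ev (nat_lit 1760) (nat_lit
 12288) .dd)) (.br (nat_lit 10) (.ch (nat_lit 5) (.ev (nat_lit 1760) (nat_lit 8192) (.ev (nat_lit 1773)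
 (nat_lit 4096) .dd))) (.ch (nat_lit 10) (.ev (nat_lit 6356) (nat_lit 4096) (.ev (nat_lit 6365) (nat_lit 8192)
 .dd))))))))) (.br (nat_lit 11) (.ch (nat_lit 9) (.nd (nat_lit 1648) (.br (nat_lit 6) (.br (nat_lit 1) (.ch
 (nat_lit 0) (.ev (nat_lit 1780) (nat_lit 4096) (.ev (nat_lit 1789) (nat_lit 8192) .dd))) (.br (nat_lit 2) (.ch
 (nat_lit 1) (.ev (nat_lit 6500) (nat_lit 4096) (.ev (nat_lit 6509) (nat_lit 8192) .dd))) (.ch (nat_lit 2) (.ev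
 (nat_lit 2084) (nat_lit 4096) (.ev (nat_lit 2093) (nat_lit 8192) .dd))))) (.br (nat_lit 8) (.ch (nat_lit 6)
 (.ev (nat_lit 1780) (nat_lit 4096) (.ev (nat_lit 1789) (nat_lit 8192) .dd))) (.br (nat_lit 9) (.ch (nat_lit 8)
 (.ev (nat_lit 1664) (nat_lit 8192) (.ev (nat_lit 1677) (nat_lit 4096) .dd))) (.ch (nat_lit 9) (.ev (nat_lit
 1684) (nat_lit 8192) (.ev (nat_lit 1693) (nat_lit 4096) .dd)))))))) (.ch (nat_lit 11) (.nd (nat_lit 1840) (.br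
 (nat_lit 4) (.br (nat_lit 3) (.ch (nat_lit 1) (.ev (nat_lit 2900) (nat_lit 4096) (.ev (nat_lit 2909) (nat_lit
 8192) .dd))) (.ch (nat_lit 3) (.ev (nat_lit 5540) (nat_lit 4096) (.ev (nat_lit 5549) (nat_lit 8192) .dd))))
 (.br (nat_lit 12) (.ch (nat_lit 4) (.ev (nat_lit 3252) (nat_lit 8192) (.ev (nat_lit 3261) (nat_lit 4096)
 .dd))) (.ch (nat_lit 12) (.ev (nat_lit 3140) (nat_lit 4096) (.ev (nat_lit 3149) (nat_lit 8192) .dd))))))))))))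
 (.ch (nat_lit 1) (.ev (nat_lit 544) (nat_lit 12288) .dd))) (.br (nat_lit 3) (.ch (nat_lit 2) (.nd (nat_lit
 1008) (.br (nat_lit 6) (.br (nat_lit 2) (.ch (nat_lit 1) (.ev (nat_lit 1024) (nat_lit 12288) .dd)) (.br
 (nat_lit 4) (.ch (nat_lit 2) (.nd (nat_lit 2336) (.br (nat_lit 6) (.br (nat_lit 3) (.ch (nat_lit 0) (.ev
 (nat_lit 2352) (nat_lit 4096) (.ev (nat_lit 2365) (nat_lit 8192) .dd))) (.br (nat_lit 4) (.ch (nat_lit 3) (.ev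
 (nat_lit 2352) (nat_lit 8192) (.ev (nat_lit 2365) (nat_lit 4096) .dd))) (.ch (nat_lit 4) (.ev (nat_lit 2820)
 (nat_lit 4096) (.ev (nat_lit 2829) (nat_lit 8192) .dd))))) (.br (nat_lit 10) (.ch (nat_lit 6) (.ev (nat_lit
 2352) (nat_lit 4096) (.ev (nat_lit 2365) (nat_lit 8192) .dd))) (.br (nat_lit 11) (.ch (nat_lit 10) (.ev
 (nat_lit 2352) (nat_lit 4096) (.ev (nat_lit 2365) (nat_lit 8192) .dd))) (.ch (nat_lit 11) (.ev (nat_lit 2948)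
 (nat_lit 4096) (.ev (nat_lit 2957) (nat_lit 8192) .dd)))))))) (.ch (nat_lit 4) (.nd (nat_lit 2128) (.br
 (nat_lit 8) (.br (nat_lit 5) (.ch (nat_lit 3) (.ev (nat_lit 5104) (nat_lit 12288) .dd)) (.br (nat_lit 6) (.ch
 (nat_lit 5) (.ev (nat_lit 2144) (nat_lit 4096) (.ev (nat_lit 2157) (nat_lit 8192) .dd))) (.ch (nat_lit 6) (.ev
 (nat_lit 5604) (nat_lit 8192) (.ev (nat_lit 5613) (nat_lit 4096) .dd))))) (.br (nat_lit 11) (.br (nat_lit 10)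
 (.ch (nat_lit 8) (.ev (nat_lit 2144) (nat_lit 4096) (.ev (nat_lit 2157) (nat_lit 8192) .dd))) (.ch (nat_lit
 10) (.ev (nat_lit 5188) (nat_lit 8192) (.ev (nat_lit 5197) (nat_lit 4096) .dd)))) (.br (nat_lit 12) (.ch
 (nat_lit 11) (.ev (nat_lit 2164) (nat_lit 4096) (.ev (nat_lit 2173) (nat_lit 8192) .dd))) (.ch (nat_lit 12)
 (.ev (nat_lit 2144) (nat_lit 8192) (.ev (nat_lit 2157) (nat_lit 4096) .dd)))))))))) (.br (nat_lit 11) (.br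
 (nat_lit 8) (.ch (nat_lit 6) (.nd (nat_lit 1840) (.br (nat_lit 5) (.ch (nat_lit 1) (.ev (nat_lit 6384)
 (nat_lit 12288) .dd)) (.br (nat_lit 6) (.ch (nat_lit 5) (.ev (nat_lit 6356) (nat_lit 4096) (.ev (nat_lit 6365)
 (nat_lit 8192) .dd))) (.ch (nat_lit 6) (.ev (nat_lit 1876) (nat_lit 4096) (.ev (nat_lit 1885) (nat_lit 8192)
 .dd))))))) (.ch (nat_lit 8) (.nd (nat_lit 1840) (.br (nat_lit 5) (.br (nat_lit 2) (.ch (nat_lit 0) (.ev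
 (nat_lit 1856) (nat_lit 8192) (.ev (nat_lit 1869) (nat_lit 4096) .dd))) (.br (nat_lit 3) (.ch (nat_lit 2) (.ev
 (nat_lit 6816) (nat_lit 12288) .dd)) (.ch (nat_lit 3) (.ev (nat_lit 1856) (nat_lit 4096) (.ev (nat_lit 1869)
 (nat_lit 8192) .dd))))) (.br (nat_lit 10) (.br (nat_lit 9) (.ch (nat_lit 5) (.ev (nat_lit 1856) (nat_lit 8192)
 (.ev (nat_lit 1869) (nat_lit 4096) .dd))) (.ch (nat_lit 9) (.ev (nat_lit 1856) (nat_lit 8192) (.ev (nat_lit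
 1869) (nat_lit 4096) .dd)))) (.br (nat_lit 11) (.ch (nat_lit 10) (.ev (nat_lit 1876) (nat_lit 8192) (.ev
 (nat_lit 1885) (nat_lit 4096) .dd))) (.ch (nat_lit 11) (.nd (nat_lit 4304) (.br (nat_lit 3) (.br (nat_lit 2)
 (.ch (nat_lit 1) (.ev (nat_lit 4320) (nat_lit 8192) (.ev (nat_lit 4333) (nat_lit 4096) .dd))) (.ch (nat_lit 2)
 (.ev (nat_lit 6356) (nat_lit 8192) (.ev (nat_lit 6365) (nat_lit 4096) .dd)))) (.br (nat_lit 8) (.ch (nat_lit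
 3) (.ev (nat_lit 4320) (nat_lit 4096) (.ev (nat_lit 4333) (nat_lit 8192) .dd))) (.ch (nat_lit 8) (.ev (nat_lit
 4356) (nat_lit 8192) (.ev (nat_lit 4365) (nat_lit 4096) .dd))))))))))))) (.br (nat_lit 12) (.ch (nat_lit 11)
 (.ev (nat_lit 1024) (nat_lit 4096) (.ev (nat_lit 1037) (nat_lit 8192) .dd))) (.ch (nat_lit 12) (.ev (nat_lit
 1024) (nat_lit 8192) (.ev (nat_lit 1037) (nat_lit 4096) .dd)))))))) (.ch (nat_lit 3) (.ev (nat_lit 544)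
 (nat_lit 4096) (.ev (nat_lit 557) (nat_lit 8192) .dd))))) (.br (nat_lit 7) (.br (nat_lit 6) (.ch (nat_lit 4)
 (.nd (nat_lit 1168) (.br (nat_lit 8) (.br (nat_lit 5) (.br (nat_lit 4) (.ch (nat_lit 3) (.nd (nat_lit 2624)
 (.br (nat_lit 5) (.br (nat_lit 3) (.br (nat_lit 2) (.ch (nat_lit 0) (.ev (nat_lit 2640) (nat_lit 8192) (.ev
 (nat_lit 2653) (nat_lit 4096) .dd))) (.ch (nat_lit 2) (.ev (nat_lit 2640) (nat_lit 4096) (.ev (nat_lit 2653)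
 (nat_lit 8192) .dd)))) (.br (nat_lit 4) (.ch (nat_lit 3) (.ev (nat_lit 2676) (nat_lit 4096) (.ev (nat_lit
 2685) (nat_lit 8192) .dd))) (.ch (nat_lit 4) (.ev (nat_lit 2676) (nat_lit 4096) (.ev (nat_lit 2685) (nat_lit
 8192) .dd))))) (.br (nat_lit 8) (.br (nat_lit 6) (.ch (nat_lit 5) (.ev (nat_lit 2640) (nat_lit 8192) (.ev
 (nat_lit 2653) (nat_lit 4096) .dd))) (.ch (nat_lit 6) (.ev (nat_lit 2640) (nat_lit 12288) .dd))) (.br (nat_lit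
 9) (.ch (nat_lit 8) (.ev (nat_lit 2640) (nat_lit 4096) (.ev (nat_lit 2653) (nat_lit 8192) .dd))) (.br (nat_lit
 12) (.ch (nat_lit 9) (.ev (nat_lit 2676) (nat_lit 8192) (.ev (nat_lit 2685) (nat_lit 4096) .dd))) (.ch
 (nat_lit 12) (.ev (nat_lit 2640) (nat_lit 8192) (.ev (nat_lit 2653) (nat_lit 4096) .dd))))))))) (.ch (nat_lit
 4) (.nd (nat_lit 2624) (.br (nat_lit 3) (.br (nat_lit 1) (.ch (nat_lit 0) (.ev (nat_lit 2640) (nat_lit 8192)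
 (.ev (nat_lit 2653) (nat_lit 4096) .dd))) (.br (nat_lit 2) (.ch (nat_lit 1) (.ev (nat_lit 2640) (nat_lit
 12288) .dd)) (.ch (nat_lit 2) (.ev (nat_lit 6596) (nat_lit 8192) (.ev (nat_lit 6605) (nat_lit 4096) .dd)))))
 (.br (nat_lit 7) (.ch (nat_lit 3) (.ev (nat_lit 2640) (nat_lit 12288) .dd)) (.br (nat_lit 10) (.ch (nat_lit 7)
 (.ev (nat_lit 2640) (nat_lit 8192) (.ev (nat_lit 2653) (nat_lit 4096) .dd))) (.ch (nat_lit 10) (.ev (nat_lit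
 4052) (nat_lit 8192) (.ev (nat_lit 4061) (nat_lit 4096) .dd))))))))) (.br (nat_lit 6) (.ch (nat_lit 5) (.ev
 (nat_lit 1184) (nat_lit 4096) (.ev (nat_lit 1197) (nat_lit 8192) .dd))) (.ch (nat_lit 6) (.ev (nat_lit 1184)
 (nat_lit 12288) .dd)))) (.br (nat_lit 11) (.br (nat_lit 9) (.ch (nat_lit 8) (.nd (nat_lit 1968) (.br (nat_lit
 5) (.br (nat_lit 4) (.ch (nat_lit 2) (.ev (nat_lit 5844) (nat_lit 8192) (.ev (nat_lit 5853) (nat_lit 4096)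
 .dd))) (.ch (nat_lit 4) (.ev (nat_lit 1984) (nat_lit 8192) (.ev (nat_lit 1997) (nat_lit 4096) .dd)))) (.br
 (nat_lit 7) (.ch (nat_lit 5) (.ev (nat_lit 2164) (nat_lit 8192) (.ev (nat_lit 2173) (nat_lit 4096) .dd))) (.br
 (nat_lit 10) (.ch (nat_lit 7) (.ev (nat_lit 2004) (nat_lit 4096) (.ev (nat_lit 2013) (nat_lit 8192) .dd)))
 (.ch (nat_lit 10) (.ev (nat_lit 1984) (nat_lit 8192) (.ev (nat_lit 1997) (nat_lit 4096) .dd)))))))) (.ch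
 (nat_lit 9) (.ev (nat_lit 1184) (nat_lit 4096) (.ev (nat_lit 1197) (nat_lit 8192) .dd)))) (.br (nat_lit 12)
 (.ch (nat_lit 11) (.ev (nat_lit 1184) (nat_lit 8192) (.ev (nat_lit 1197) (nat_lit 4096) .dd))) (.ch (nat_lit
 12) (.nd (nat_lit 2624) (.br (nat_lit 5) (.br (nat_lit 3) (.br (nat_lit 1) (.ch (nat_lit 0) (.ev (nat_lit
 2640) (nat_lit 8192) (.ev (nat_lit 2653) (nat_lit 4096) .dd))) (.ch (nat_lit 1) (.ev (nat_lit 2676) (nat_lit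
 4096) (.ev (nat_lit 2685) (nat_lit 8192) .dd)))) (.br (nat_lit 4) (.ch (nat_lit 3) (.ev (nat_lit 2676)
 (nat_lit 4096) (.ev (nat_lit 2685) (nat_lit 8192) .dd))) (.ch (nat_lit 4) (.ev (nat_lit 2676) (nat_lit 4096)
 (.ev (nat_lit 2685) (nat_lit 8192) .dd))))) (.br (nat_lit 7) (.br (nat_lit 6) (.ch (nat_lit 5) (.ev (nat_lit
 2640) (nat_lit 4096) (.ev (nat_lit 2653) (nat_lit 8192) .dd))) (.ch (nat_lit 6) (.ev (nat_lit 2640) (nat_lit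
 12288) .dd))) (.br (nat_lit 11) (.ch (nat_lit 7) (.ev (nat_lit 2640) (nat_lit 8192) (.ev (nat_lit 2653)
 (nat_lit 4096) .dd))) (.br (nat_lit 12) (.ch (nat_lit 11) (.ev (nat_lit 5312) (nat_lit 8192) (.ev (nat_lit
 5325) (nat_lit 4096) .dd))) (.ch (nat_lit 12) (.ev (nat_lit 2640) (nat_lit 4096) (.ev (nat_lit 2653) (nat_lit
 8192) .dd)))))))))))))) (.ch (nat_lit 6) (.ev (nat_lit 544) (nat_lit 8192) (.ev (nat_lit 557) (nat_lit 4096)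
 .dd)))) (.br (nat_lit 8) (.ch (nat_lit 7) (.ev (nat_lit 544) (nat_lit 8192) (.ev (nat_lit 557) (nat_lit 4096)
 .dd))) (.br (nat_lit 10) (.ch (nat_lit 8) (.ev (nat_lit 544) (nat_lit 12288) .dd)) (.ch (nat_lit 10) (.ev
 (nat_lit 544) (nat_lit 4096) (.ev (nat_lit 557) (nat_lit 8192) .dd))))))))))) (.br (nat_lit 5) (.ch (nat_lit
 4) (.ev (nat_lit 48) (nat_lit 8256) (.nd (nat_lit 432) (.br (nat_lit 6) (.br (nat_lit 3) (.br (nat_lit 1) (.ch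
 (nat_lit 0) (.nd (nat_lit 1088) (.br (nat_lit 8) (.br (nat_lit 3) (.br (nat_lit 1) (.ch (nat_lit 0) (.nd
 (nat_lit 2336) (.br (nat_lit 5) (.br (nat_lit 2) (.br (nat_lit 1) (.ch (nat_lit 0) (.ev (nat_lit 2352)
 (nat_lit 4100) (.ev (nat_lit 2388) (nat_lit 32768) (.ev (nat_lit 2397) (nat_lit 32) .dd)))) (.ch (nat_lit 1)
 (.ev (nat_lit 2352) (nat_lit 36) (.ev (nat_lit 2740) (nat_lit 4096) (.ev (nat_lit 2749) (nat_lit 32768)
 .dd))))) (.br (nat_lit 3) (.ch (nat_lit 2) (.ev (nat_lit 2352) (nat_lit 36896) (.ev (nat_lit 2365) (nat_lit 4)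
 .dd))) (.ch (nat_lit 3) (.ev (nat_lit 2352) (nat_lit 4128) (.ev (nat_lit 2868) (nat_lit 32768) (.ev (nat_lit
 2877) (nat_lit 4) .dd)))))) (.br (nat_lit 8) (.br (nat_lit 7) (.ch (nat_lit 5) (.ev (nat_lit 2352) (nat_lit
 36864) (.ev (nat_lit 3140) (nat_lit 4) (.ev (nat_lit 3149) (nat_lit 32) .dd)))) (.ch (nat_lit 7) (.ev (nat_lit
 2352) (nat_lit 4128) (.ev (nat_lit 3844) (nat_lit 32768) (.ev (nat_lit 3853) (nat_lit 4) .dd))))) (.br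
 (nat_lit 10) (.ch (nat_lit 8) (.ev (nat_lit 2352) (nat_lit 36) (.ev (nat_lit 2372) (nat_lit 32768) (.ev
 (nat_lit 2381) (nat_lit 4096) .dd)))) (.br (nat_lit 11) (.ch (nat_lit 10) (.ev (nat_lit 2352) (nat_lit 32768)
 (.ev (nat_lit 3024) (nat_lit 32) (.ev (nat_lit 3892) (nat_lit 4) (.ev (nat_lit 3901) (nat_lit 4096) .dd)))))
 (.ch (nat_lit 11) (.ev (nat_lit 2352) (nat_lit 4132) (.ev (nat_lit 2365) (nat_lit 32768) .dd))))))))) (.ch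
 (nat_lit 1) (.nd (nat_lit 2128) (.br (nat_lit 4) (.br (nat_lit 2) (.br (nat_lit 1) (.ch (nat_lit 0) (.ev
 (nat_lit 2144) (nat_lit 36896) (.ev (nat_lit 2157) (nat_lit 4) .dd))) (.ch (nat_lit 1) (.ev (nat_lit 2144)
 (nat_lit 4132) (.ev (nat_lit 2157) (nat_lit 32768) .dd)))) (.br (nat_lit 3) (.ch (nat_lit 2) (.ev (nat_lit
 2144) (nat_lit 4100) (.ev (nat_lit 2788) (nat_lit 32) (.ev (nat_lit 2797) (nat_lit 32768) .dd)))) (.ch
 (nat_lit 3) (.ev (nat_lit 2144) (nat_lit 36868) (.ev (nat_lit 2157) (nat_lit 32) .dd))))) (.br (nat_lit 8)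
 (.br (nat_lit 7) (.ch (nat_lit 4) (.ev (nat_lit 2372) (nat_lit 32800) (.ev (nat_lit 2948) (nat_lit 4) (.ev
 (nat_lit 2957) (nat_lit 4096) .dd)))) (.ch (nat_lit 7) (.ev (nat_lit 2144) (nat_lit 4100) (.ev (nat_lit 2372)
 (nat_lit 32) (.ev (nat_lit 2381) (nat_lit 32768) .dd))))) (.br (nat_lit 11) (.ch (nat_lit 8) (.ev (nat_lit
 2144) (nat_lit 32800) (.ev (nat_lit 2788) (nat_lit 4) (.ev (nat_lit 2797) (nat_lit 4096) .dd)))) (.br (nat_lit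
 12) (.ch (nat_lit 11) (.ev (nat_lit 2144) (nat_lit 36864) (.ev (nat_lit 2676) (nat_lit 4) (.ev (nat_lit 2685)
 (nat_lit 32) .dd)))) (.ch (nat_lit 12) (.ev (nat_lit 2144) (nat_lit 32) (.ev (nat_lit 3540) (nat_lit 4096)
 (.ev (nat_lit 6740) (nat_lit 32768) (.ev (nat_lit 6749) (nat_lit 4) .dd)))))))))))) (.br (nat_lit 5) (.ch
 (nat_lit 3) (.ev (nat_lit 1104) (nat_lit 32800) (.nd (nat_lit 2624) (.br (nat_lit 8) (.br (nat_lit 5) (.ch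
 (nat_lit 3) (.ev (nat_lit 2640) (nat_lit 4096) (.ev (nat_lit 2653) (nat_lit 4) .dd))) (.br (nat_lit 6) (.ch
 (nat_lit 5) (.ev (nat_lit 2640) (nat_lit 4) (.ev (nat_lit 2653) (nat_lit 4096) .dd))) (.ch (nat_lit 6) (.ev
 (nat_lit 2676) (nat_lit 4096) (.ev (nat_lit 2685) (nat_lit 4) .dd))))) (.br (nat_lit 9) (.ch (nat_lit 8) (.ev
 (nat_lit 2676) (nat_lit 4096) (.ev (nat_lit 2685) (nat_lit 4) .dd))) (.br (nat_lit 10) (.ch (nat_lit 9) (.ev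
 (nat_lit 2740) (nat_lit 4) (.ev (nat_lit 2749) (nat_lit 4096) .dd))) (.ch (nat_lit 10) (.ev (nat_lit 6704)
 (nat_lit 4) (.ev (nat_lit 6717) (nat_lit 4096) .dd))))))))) (.ch (nat_lit 5) (.ev (nat_lit 1104) (nat_lit
 32772) (.ev (nat_lit 1140) (nat_lit 4096) (.ev (nat_lit 1149) (nat_lit 32) .dd)))))) (.br (nat_lit 11) (.br
 (nat_lit 9) (.ch (nat_lit 8) (.ev (nat_lit 1124) (nat_lit 4096) (.nd (nat_lit 1968) (.br (nat_lit 4) (.br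
 (nat_lit 2) (.ch (nat_lit 0) (.ev (nat_lit 1984) (nat_lit 32768) (.ev (nat_lit 2688) (nat_lit 32) (.ev
 (nat_lit 2701) (nat_lit 4) .dd)))) (.br (nat_lit 3) (.ch (nat_lit 2) (.ev (nat_lit 1984) (nat_lit 32772) (.ev
 (nat_lit 1997) (nat_lit 32) .dd))) (.ch (nat_lit 3) (.ev (nat_lit 1984) (nat_lit 32772) (.ev (nat_lit 1997)
 (nat_lit 32) .dd))))) (.br (nat_lit 10) (.br (nat_lit 9) (.ch (nat_lit 4) (.ev (nat_lit 5572) (nat_lit 4) (.ev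
 (nat_lit 6740) (nat_lit 32768) (.ev (nat_lit 6749) (nat_lit 32) .dd)))) (.ch (nat_lit 9) (.ev (nat_lit 1984)
 (nat_lit 32768) (.ev (nat_lit 2868) (nat_lit 4) (.ev (nat_lit 2877) (nat_lit 32) .dd))))) (.br (nat_lit 11)
 (.ch (nat_lit 10) (.ev (nat_lit 1984) (nat_lit 32) (.ev (nat_lit 2788) (nat_lit 4) (.ev (nat_lit 2797)
 (nat_lit 32768) .dd)))) (.ch (nat_lit 11) (.ev (nat_lit 1984) (nat_lit 32) (.ev (nat_lit 2388) (nat_lit 4)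
 (.ev (nat_lit 2397) (nat_lit 32768) .dd)))))))))) (.ch (nat_lit 9) (.ev (nat_lit 1104) (nat_lit 4096) (.nd
 (nat_lit 1968) (.br (nat_lit 7) (.br (nat_lit 3) (.ch (nat_lit 0) (.ev (nat_lit 2388) (nat_lit 4) (.ev
 (nat_lit 2820) (nat_lit 32) (.ev (nat_lit 2829) (nat_lit 32768) .dd)))) (.br (nat_lit 6) (.ch (nat_lit 3) (.ev
 (nat_lit 1984) (nat_lit 32768) (.ev (nat_lit 2388) (nat_lit 32) (.ev (nat_lit 2397) (nat_lit 4) .dd)))) (.ch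
 (nat_lit 6) (.ev (nat_lit 1984) (nat_lit 32) (.ev (nat_lit 2516) (nat_lit 32768) (.ev (nat_lit 2525) (nat_lit
 4) .dd)))))) (.br (nat_lit 9) (.ch (nat_lit 7) (.ev (nat_lit 2004) (nat_lit 32) (.ev (nat_lit 2036) (nat_lit
 32768) (.ev (nat_lit 2045) (nat_lit 4) .dd)))) (.br (nat_lit 11) (.ch (nat_lit 9) (.ev (nat_lit 1984) (nat_lit
 4) (.ev (nat_lit 6148) (nat_lit 32768) (.ev (nat_lit 6157) (nat_lit 32) .dd)))) (.ch (nat_lit 11) (.ev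
 (nat_lit 2004) (nat_lit 32768) (.ev (nat_lit 6608) (nat_lit 32) (.ev (nat_lit 6621) (nat_lit 4) .dd)))))))))))
 (.br (nat_lit 12) (.ch (nat_lit 11) (.ev (nat_lit 1104) (nat_lit 4096) (.nd (nat_lit 1408) (.br (nat_lit 5)
 (.br (nat_lit 1) (.ch (nat_lit 0) (.ev (nat_lit 1424) (nat_lit 32768) (.ev (nat_lit 6596) (nat_lit 32) (.ev
 (nat_lit 6605) (nat_lit 4) .dd)))) (.br (nat_lit 3) (.ch (nat_lit 1) (.ev (nat_lit 1424) (nat_lit 32768) (.ev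
 (nat_lit 6464) (nat_lit 32) (.ev (nat_lit 6477) (nat_lit 4) .dd)))) (.ch (nat_lit 3) (.ev (nat_lit 2004)
 (nat_lit 4) (.ev (nat_lit 6596) (nat_lit 32768) (.ev (nat_lit 6605) (nat_lit 32) .dd)))))) (.br (nat_lit 6)
 (.ch (nat_lit 5) (.ev (nat_lit 2004) (nat_lit 4) (.ev (nat_lit 6500) (nat_lit 32768) (.ev (nat_lit 6509)
 (nat_lit 32) .dd)))) (.br (nat_lit 9) (.ch (nat_lit 6) (.ev (nat_lit 1424) (nat_lit 32768) (.ev (nat_lit 7060)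
 (nat_lit 32) (.ev (nat_lit 7069) (nat_lit 4) .dd)))) (.ch (nat_lit 9) (.ev (nat_lit 1424) (nat_lit 32800) (.ev
 (nat_lit 1437) (nat_lit 4) .dd))))))))) (.ch (nat_lit 12) (.ev (nat_lit 1104) (nat_lit 36) (.ev (nat_lit 1124)
 (nat_lit 4096) (.ev (nat_lit 1133) (nat_lit 32768) .dd))))))))) (.ch (nat_lit 1) (.ev (nat_lit 448) (nat_lit
 36868) (.ev (nat_lit 461) (nat_lit 32) .dd)))) (.br (nat_lit 4) (.ch (nat_lit 3) (.nd (nat_lit 880) (.br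
 (nat_lit 6) (.br (nat_lit 2) (.ch (nat_lit 1) (.nd (nat_lit 1408) (.br (nat_lit 9) (.br (nat_lit 5) (.ch
 (nat_lit 3) (.ev (nat_lit 1424) (nat_lit 36864) (.ev (nat_lit 2244) (nat_lit 4) (.ev (nat_lit 2253) (nat_lit
 32) .dd)))) (.br (nat_lit 6) (.ch (nat_lit 5) (.ev (nat_lit 1424) (nat_lit 36) (.fin (nat_lit
 576462401561903673)))) (.ch (nat_lit 6) (.ev (nat_lit 1424) (nat_lit 32) (.ev (nat_lit 3220) (nat_lit 32768)
 (.ev (nat_lit 6032) (nat_lit 4100) .dd)))))) (.br (nat_lit 11) (.br (nat_lit 10) (.ch (nat_lit 9) (.ev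
 (nat_lit 1424) (nat_lit 36864) (.ev (nat_lit 2820) (nat_lit 4) (.ev (nat_lit 2829) (nat_lit 32) .dd)))) (.ch
 (nat_lit 10) (.ev (nat_lit 1424) (nat_lit 4096) (.ev (nat_lit 1588) (nat_lit 32768) (.ev (nat_lit 2452)
 (nat_lit 32) (.ev (nat_lit 2461) (nat_lit 4) .dd)))))) (.br (nat_lit 12) (.ch (nat_lit 11) (.ev (nat_lit 1424)
 (nat_lit 32) (.ev (nat_lit 4736) (nat_lit 4096) (.ev (nat_lit 6148) (nat_lit 4) (.ev (nat_lit 6157) (nat_lit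
 32768) .dd))))) (.ch (nat_lit 12) (.ev (nat_lit 1492) (nat_lit 32) (.ev (nat_lit 1588) (nat_lit 32768) (.ev
 (nat_lit 6644) (nat_lit 4096) (.ev (nat_lit 6653) (nat_lit 4) .dd)))))))))) (.br (nat_lit 4) (.ch (nat_lit 2)
 (.ev (nat_lit 896) (nat_lit 4096) (.ev (nat_lit 916) (nat_lit 32800) (.ev (nat_lit 925) (nat_lit 4) .dd))))
 (.ch (nat_lit 4) (.ev (nat_lit 896) (nat_lit 4096) (.nd (nat_lit 1552) (.br (nat_lit 8) (.br (nat_lit 1) (.ch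
 (nat_lit 0) (.nd (nat_lit 3984) (.br (nat_lit 3) (.ch (nat_lit 2) (.ev (nat_lit 4000) (nat_lit 32768) (.ev
 (nat_lit 5248) (nat_lit 36) .dd))) (.br (nat_lit 9) (.ch (nat_lit 3) (.ev (nat_lit 4756) (nat_lit 32768) (.ev
 (nat_lit 5024) (nat_lit 4) (.ev (nat_lit 5037) (nat_lit 32) .dd)))) (.ch (nat_lit 9) (.ev (nat_lit 4000)
 (nat_lit 32768) (.ev (nat_lit 6260) (nat_lit 32) (.ev (nat_lit 6269) (nat_lit 4) .dd)))))))) (.ch (nat_lit 1)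
 (.ev (nat_lit 1568) (nat_lit 32768) (.fin (nat_lit 582374465193069761))))) (.br (nat_lit 9) (.ch (nat_lit 8)
 (.ev (nat_lit 1568) (nat_lit 32768) (.nd (nat_lit 4304) (.br (nat_lit 10) (.ch (nat_lit 6) (.ev (nat_lit 5188)
 (nat_lit 32) (.ev (nat_lit 5197) (nat_lit 4) .dd))) (.ch (nat_lit 10) (.ev (nat_lit 5044) (nat_lit 4) (.ev
 (nat_lit 5053) (nat_lit 32) .dd))))))) (.br (nat_lit 11) (.ch (nat_lit 9) (.ev (nat_lit 1568) (nat_lit 32768)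
 (.nd (nat_lit 4224) (.br (nat_lit 6) (.br (nat_lit 5) (.ch (nat_lit 1) (.ev (nat_lit 4788) (nat_lit 4) (.ev
 (nat_lit 4797) (nat_lit 32) .dd))) (.ch (nat_lit 5) (.ev (nat_lit 6112) (nat_lit 36) .dd))) (.br (nat_lit 11)
 (.ch (nat_lit 6) (.ev (nat_lit 4356) (nat_lit 32) (.ev (nat_lit 4365) (nat_lit 4) .dd))) (.ch (nat_lit 11)
 (.ev (nat_lit 4356) (nat_lit 32) (.ev (nat_lit 4365) (nat_lit 4) .dd)))))))) (.ch (nat_lit 11) (.ev (nat_lit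
 1568) (nat_lit 32768) (.ev (nat_lit 6740) (nat_lit 4) (.ev (nat_lit 6749) (nat_lit 32) .dd)))))))))))) (.br
 (nat_lit 8) (.br (nat_lit 7) (.ch (nat_lit 6) (.ev (nat_lit 896) (nat_lit 32768) (.nd (nat_lit 1744) (.br
 (nat_lit 8) (.br (nat_lit 5) (.ch (nat_lit 2) (.ev (nat_lit 1760) (nat_lit 4) (.ev (nat_lit 2180) (nat_lit
 4096) (.ev (nat_lit 2189) (nat_lit 32) .dd)))) (.ch (nat_lit 5) (.nd (nat_lit 3984) (.br (nat_lit 11) (.ch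
 (nat_lit 6) (.ev (nat_lit 4000) (nat_lit 4) (.ev (nat_lit 5188) (nat_lit 4096) (.ev (nat_lit 5197) (nat_lit
 32) .dd)))) (.ch (nat_lit 11) (.ev (nat_lit 4000) (nat_lit 4096) (.ev (nat_lit 6356) (nat_lit 4) (.ev (nat_lit
 6365) (nat_lit 32) .dd)))))))) (.br (nat_lit 11) (.ch (nat_lit 8) (.ev (nat_lit 1760) (nat_lit 32) (.ev
 (nat_lit 2740) (nat_lit 4096) (.ev (nat_lit 2749) (nat_lit 4) .dd)))) (.br (nat_lit 12) (.ch (nat_lit 11) (.ev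
 (nat_lit 1760) (nat_lit 4096) (.ev (nat_lit 3012) (nat_lit 32) (.ev (nat_lit 3021) (nat_lit 4) .dd)))) (.ch
 (nat_lit 12) (.ev (nat_lit 1760) (nat_lit 4096) (.ev (nat_lit 1780) (nat_lit 32) (.ev (nat_lit 1789) (nat_lit
 4) .dd)))))))))) (.ch (nat_lit 7) (.ev (nat_lit 896) (nat_lit 32768) (.nd (nat_lit 1744) (.br (nat_lit 7) (.br
 (nat_lit 4) (.ch (nat_lit 3) (.ev (nat_lit 1760) (nat_lit 32) (.ev (nat_lit 3076) (nat_lit 4) (.ev (nat_lit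
 3085) (nat_lit 4096) .dd)))) (.ch (nat_lit 4) (.ev (nat_lit 1796) (nat_lit 32) (.ev (nat_lit 2164) (nat_lit 4)
 (.ev (nat_lit 2173) (nat_lit 4096) .dd))))) (.br (nat_lit 11) (.ch (nat_lit 7) (.ev (nat_lit 1760) (nat_lit
 4096) (.ev (nat_lit 2180) (nat_lit 4) (.ev (nat_lit 2189) (nat_lit 32) .dd)))) (.ch (nat_lit 11) (.ev (nat_lit
 1760) (nat_lit 4096) (.ev (nat_lit 2976) (nat_lit 36) .dd))))))))) (.br (nat_lit 11) (.ch (nat_lit 8) (.ev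
 (nat_lit 896) (nat_lit 32) (.nd (nat_lit 1744) (.br (nat_lit 8) (.br (nat_lit 2) (.ch (nat_lit 1) (.ev
 (nat_lit 1760) (nat_lit 4) (.ev (nat_lit 1780) (nat_lit 32768) (.ev (nat_lit 1789) (nat_lit 4096) .dd)))) (.br
 (nat_lit 4) (.ch (nat_lit 2) (.ev (nat_lit 1760) (nat_lit 4) (.ev (nat_lit 2900) (nat_lit 32768) (.ev (nat_lit
 2909) (nat_lit 4096) .dd)))) (.ch (nat_lit 4) (.ev (nat_lit 1760) (nat_lit 4) (.ev (nat_lit 6020) (nat_lit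
 32768) (.ev (nat_lit 6029) (nat_lit 4096) .dd)))))) (.br (nat_lit 11) (.ch (nat_lit 8) (.ev (nat_lit 6148)
 (nat_lit 32768) (.ev (nat_lit 6260) (nat_lit 4) (.ev (nat_lit 6269) (nat_lit 4096) .dd)))) (.br (nat_lit 12)
 (.ch (nat_lit 11) (.ev (nat_lit 1760) (nat_lit 4096) (.ev (nat_lit 4032) (nat_lit 32772) .dd))) (.ch (nat_lit
 12) (.ev (nat_lit 1760) (nat_lit 4) (.ev (nat_lit 3604) (nat_lit 32768) (.ev (nat_lit 3613) (nat_lit 4096)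
 .dd)))))))))) (.ch (nat_lit 11) (.ev (nat_lit 896) (nat_lit 36) (.nd (nat_lit 1552) (.br (nat_lit 8) (.br
 (nat_lit 6) (.ch (nat_lit 5) (.ev (nat_lit 6740) (nat_lit 4096) (.ev (nat_lit 6749) (nat_lit 32768) .dd)))
 (.ch (nat_lit 6) (.ev (nat_lit 5236) (nat_lit 32768) (.ev (nat_lit 5245) (nat_lit 4096) .dd)))) (.br (nat_lit
 10) (.ch (nat_lit 8) (.ev (nat_lit 2420) (nat_lit 32768) (.ev (nat_lit 2429) (nat_lit 4096) .dd))) (.br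
 (nat_lit 11) (.ch (nat_lit 10) (.ev (nat_lit 2420) (nat_lit 32768) (.ev (nat_lit 2429) (nat_lit 4096) .dd)))
 (.ch (nat_lit 11) (.ev (nat_lit 6356) (nat_lit 4096) (.ev (nat_lit 6365) (nat_lit 32768) .dd))))))))))))))
 (.ch (nat_lit 4) (.ev (nat_lit 448) (nat_lit 32804) (.ev (nat_lit 461) (nat_lit 4096) .dd))))) (.br (nat_lit
 8) (.br (nat_lit 7) (.ch (nat_lit 6) (.ev (nat_lit 448) (nat_lit 36) (.nd (nat_lit 1168) (.br (nat_lit 5) (.br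
 (nat_lit 1) (.ch (nat_lit 0) (.ev (nat_lit 1204) (nat_lit 4096) (.ev (nat_lit 1213) (nat_lit 32768) .dd)))
 (.br (nat_lit 4) (.ch (nat_lit 1) (.ev (nat_lit 1184) (nat_lit 32768) (.ev (nat_lit 1197) (nat_lit 4096)
 .dd))) (.ch (nat_lit 4) (.ev (nat_lit 1184) (nat_lit 4096) (.ev (nat_lit 1197) (nat_lit 32768) .dd))))) (.br
 (nat_lit 8) (.br (nat_lit 6) (.ch (nat_lit 5) (.nd (nat_lit 3408) (.br (nat_lit 7) (.br (nat_lit 4) (.ch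
 (nat_lit 3) (.ev (nat_lit 3476) (nat_lit 4096) (.ev (nat_lit 3485) (nat_lit 32768) .dd))) (.ch (nat_lit 4)
 (.ev (nat_lit 3652) (nat_lit 32768) (.ev (nat_lit 3661) (nat_lit 4096) .dd)))) (.br (nat_lit 9) (.ch (nat_lit
 7) (.ev (nat_lit 3424) (nat_lit 32768) (.ev (nat_lit 3437) (nat_lit 4096) .dd))) (.br (nat_lit 12) (.ch
 (nat_lit 9) (.ev (nat_lit 3424) (nat_lit 4096) (.ev (nat_lit 3437) (nat_lit 32768) .dd))) (.ch (nat_lit 12)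
 (.ev (nat_lit 3540) (nat_lit 32768) (.ev (nat_lit 3549) (nat_lit 4096) .dd)))))))) (.ch (nat_lit 6) (.ev
 (nat_lit 1184) (nat_lit 4096) (.ev (nat_lit 1197) (nat_lit 32768) .dd)))) (.br (nat_lit 12) (.ch (nat_lit 8)
 (.ev (nat_lit 1184) (nat_lit 32768) (.ev (nat_lit 1197) (nat_lit 4096) .dd))) (.ch (nat_lit 12) (.nd (nat_lit
 2624) (.br (nat_lit 8) (.br (nat_lit 2) (.ch (nat_lit 1) (.ev (nat_lit 5572) (nat_lit 4096) (.ev (nat_lit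
 5581) (nat_lit 32768) .dd))) (.br (nat_lit 4) (.ch (nat_lit 2) (.ev (nat_lit 5188) (nat_lit 32768) (.ev
 (nat_lit 5197) (nat_lit 4096) .dd))) (.ch (nat_lit 4) (.ev (nat_lit 2640) (nat_lit 4096) (.ev (nat_lit 2653)
 (nat_lit 32768) .dd))))) (.br (nat_lit 10) (.br (nat_lit 9) (.ch (nat_lit 8) (.ev (nat_lit 2640) (nat_lit
 4096) (.ev (nat_lit 2653) (nat_lit 32768) .dd))) (.ch (nat_lit 9) (.ev (nat_lit 2640) (nat_lit 32768) (.ev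
 (nat_lit 2653) (nat_lit 4096) .dd)))) (.br (nat_lit 12) (.ch (nat_lit 10) (.ev (nat_lit 3540) (nat_lit 4096)
 (.ev (nat_lit 3549) (nat_lit 32768) .dd))) (.ch (nat_lit 12) (.ev (nat_lit 2640) (nat_lit 4096) (.ev (nat_lit
 2653) (nat_lit 32768) .dd)))))))))))))) (.ch (nat_lit 7) (.ev (nat_lit 448) (nat_lit 32768) (.ev (nat_lit 468)
 (nat_lit 4096) (.nd (nat_lit 1008) (.br (nat_lit 6) (.br (nat_lit 4) (.br (nat_lit 1) (.ch (nat_lit 0) (.ev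
 (nat_lit 1024) (nat_lit 36) .dd)) (.ch (nat_lit 1) (.ev (nat_lit 1024) (nat_lit 4) (.ev (nat_lit 1037)
 (nat_lit 32) .dd)))) (.br (nat_lit 5) (.ch (nat_lit 4) (.ev (nat_lit 1024) (nat_lit 4) (.ev (nat_lit 1037)
 (nat_lit 32) .dd))) (.ch (nat_lit 5) (.nd (nat_lit 2336) (.br (nat_lit 7) (.ch (nat_lit 4) (.ev (nat_lit 2372)
 (nat_lit 32) (.ev (nat_lit 2381) (nat_lit 4) .dd))) (.br (nat_lit 11) (.ch (nat_lit 7) (.ev (nat_lit 2740)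
 (nat_lit 4) (.ev (nat_lit 2749) (nat_lit 32) .dd))) (.ch (nat_lit 11) (.ev (nat_lit 3652) (nat_lit 4) (.ev
 (nat_lit 3661) (nat_lit 32) .dd))))))))) (.br (nat_lit 9) (.br (nat_lit 7) (.ch (nat_lit 6) (.ev (nat_lit
 1024) (nat_lit 32) (.ev (nat_lit 1037) (nat_lit 4) .dd))) (.ch (nat_lit 7) (.ev (nat_lit 1024) (nat_lit 32)
 (.ev (nat_lit 1037) (nat_lit 4) .dd)))) (.br (nat_lit 11) (.ch (nat_lit 9) (.nd (nat_lit 1744) (.br (nat_lit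
 6) (.br (nat_lit 4) (.br (nat_lit 2) (.ch (nat_lit 0) (.ev (nat_lit 6644) (nat_lit 4) (.ev (nat_lit 6653)
 (nat_lit 32) .dd))) (.ch (nat_lit 2) (.ev (nat_lit 1760) (nat_lit 4) (.ev (nat_lit 1773) (nat_lit 32) .dd))))
 (.br (nat_lit 5) (.ch (nat_lit 4) (.ev (nat_lit 1760) (nat_lit 4) (.ev (nat_lit 1773) (nat_lit 32) .dd))) (.ch
 (nat_lit 5) (.ev (nat_lit 1760) (nat_lit 4) (.ev (nat_lit 1773) (nat_lit 32) .dd))))) (.br (nat_lit 10) (.br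
 (nat_lit 8) (.ch (nat_lit 6) (.ev (nat_lit 1892) (nat_lit 32) (.ev (nat_lit 1901) (nat_lit 4) .dd))) (.ch
 (nat_lit 8) (.ev (nat_lit 1760) (nat_lit 32) (.ev (nat_lit 1773) (nat_lit 4) .dd)))) (.br (nat_lit 12) (.ch
 (nat_lit 10) (.ev (nat_lit 2948) (nat_lit 4) (.ev (nat_lit 2957) (nat_lit 32) .dd))) (.ch (nat_lit 12) (.ev
 (nat_lit 1760) (nat_lit 32) (.ev (nat_lit 1773) (nat_lit 4) .dd)))))))) (.br (nat_lit 12) (.ch (nat_lit 11)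
 (.nd (nat_lit 1840) (.br (nat_lit 5) (.br (nat_lit 3) (.ch (nat_lit 0) (.nd (nat_lit 4224) (.br (nat_lit 5)
 (.ch (nat_lit 2) (.ev (nat_lit 4240) (nat_lit 32) (.ev (nat_lit 4253) (nat_lit 4) .dd))) (.ch (nat_lit 5)
 (.fin (nat_lit 576429416244527694)))))) (.ch (nat_lit 3) (.ev (nat_lit 1856) (nat_lit 4) (.ev (nat_lit 1869)
 (nat_lit 32) .dd)))) (.br (nat_lit 7) (.ch (nat_lit 5) (.ev (nat_lit 1856) (nat_lit 32) (.ev (nat_lit 1869)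
 (nat_lit 4) .dd))) (.br (nat_lit 9) (.ch (nat_lit 7) (.ev (nat_lit 2788) (nat_lit 4) (.ev (nat_lit 2797)
 (nat_lit 32) .dd))) (.ch (nat_lit 9) (.ev (nat_lit 2196) (nat_lit 32) (.ev (nat_lit 2205) (nat_lit 4)
 .dd)))))))) (.ch (nat_lit 12) (.nd (nat_lit 1840) (.br (nat_lit 7) (.br (nat_lit 3) (.ch (nat_lit 1) (.nd
 (nat_lit 4304) (.br (nat_lit 5) (.br (nat_lit 4) (.ch (nat_lit 0) (.ev (nat_lit 4500) (nat_lit 32) (.ev
 (nat_lit 4509) (nat_lit 4) .dd))) (.ch (nat_lit 4) (.ev (nat_lit 4820) (nat_lit 32) (.ev (nat_lit 4829)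
 (nat_lit 4) .dd)))) (.br (nat_lit 8) (.ch (nat_lit 5) (.ev (nat_lit 5668) (nat_lit 32) (.ev (nat_lit 5677)
 (nat_lit 4) .dd))) (.ch (nat_lit 8) (.ev (nat_lit 4644) (nat_lit 4) (.ev (nat_lit 4653) (nat_lit 32)
 .dd))))))) (.ch (nat_lit 3) (.ev (nat_lit 2820) (nat_lit 32) (.ev (nat_lit 2829) (nat_lit 4) .dd)))) (.br
 (nat_lit 8) (.ch (nat_lit 7) (.nd (nat_lit 4416) (.br (nat_lit 9) (.br (nat_lit 7) (.ch (nat_lit 3) (.ev
 (nat_lit 6260) (nat_lit 32) (.ev (nat_lit 6269) (nat_lit 4) .dd))) (.ch (nat_lit 7) (.ev (nat_lit 4468)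
 (nat_lit 32) (.ev (nat_lit 4477) (nat_lit 4) .dd)))) (.br (nat_lit 10) (.ch (nat_lit 9) (.ev (nat_lit 5044)
 (nat_lit 32) (.ev (nat_lit 5053) (nat_lit 4) .dd))) (.br (nat_lit 12) (.ch (nat_lit 10) (.ev (nat_lit 4468)
 (nat_lit 32) (.ev (nat_lit 4477) (nat_lit 4) .dd))) (.ch (nat_lit 12) (.ev (nat_lit 4656) (nat_lit 36)
 .dd))))))) (.ch (nat_lit 8) (.ev (nat_lit 1876) (nat_lit 32) (.ev (nat_lit 1885) (nat_lit 4)
 .dd)))))))))))))))) (.br (nat_lit 9) (.ch (nat_lit 8) (.nd (nat_lit 1008) (.br (nat_lit 5) (.br (nat_lit 2)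
 (.br (nat_lit 1) (.ch (nat_lit 0) (.nd (nat_lit 1552) (.br (nat_lit 4) (.br (nat_lit 2) (.br (nat_lit 1) (.ch
 (nat_lit 0) (.ev (nat_lit 1568) (nat_lit 32772) (.ev (nat_lit 2564) (nat_lit 32) (.ev (nat_lit 2573) (nat_lit
 4096) .dd)))) (.ch (nat_lit 1) (.ev (nat_lit 1568) (nat_lit 4096) (.ev (nat_lit 1780) (nat_lit 32768) (.nd
 (nat_lit 4416) (.br (nat_lit 5) (.br (nat_lit 3) (.ch (nat_lit 1) (.ev (nat_lit 4932) (nat_lit 4) (.ev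
 (nat_lit 4941) (nat_lit 32) .dd))) (.ch (nat_lit 3) (.ev (nat_lit 4468) (nat_lit 32) (.ev (nat_lit 4477)
 (nat_lit 4) .dd)))) (.br (nat_lit 7) (.ch (nat_lit 5) (.ev (nat_lit 4932) (nat_lit 4) (.ev (nat_lit 4941)
 (nat_lit 32) .dd))) (.br (nat_lit 8) (.ch (nat_lit 7) (.ev (nat_lit 4432) (nat_lit 32) (.ev (nat_lit 4445)
 (nat_lit 4) .dd))) (.ch (nat_lit 8) (.ev (nat_lit 4432) (nat_lit 4) (.ev (nat_lit 4445) (nat_lit 32)
 .dd))))))))))) (.br (nat_lit 3) (.ch (nat_lit 2) (.ev (nat_lit 1568) (nat_lit 4100) (.nd (nat_lit 4864) (.br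
 (nat_lit 4) (.ch (nat_lit 1) (.ev (nat_lit 4932) (nat_lit 32) (.ev (nat_lit 4941) (nat_lit 32768) .dd))) (.ch
 (nat_lit 4) (.ev (nat_lit 5572) (nat_lit 32) (.ev (nat_lit 5581) (nat_lit 32768) .dd))))))) (.ch (nat_lit 3)
 (.ev (nat_lit 1568) (nat_lit 4096) (.nd (nat_lit 4304) (.br (nat_lit 8) (.br (nat_lit 6) (.ch (nat_lit 5) (.ev
 (nat_lit 4404) (nat_lit 32) (.ev (nat_lit 4468) (nat_lit 32768) (.ev (nat_lit 4477) (nat_lit 4) .dd)))) (.ch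
 (nat_lit 6) (.ev (nat_lit 4404) (nat_lit 32) (.ev (nat_lit 5668) (nat_lit 4) (.ev (nat_lit 5677) (nat_lit
 32768) .dd))))) (.br (nat_lit 10) (.ch (nat_lit 8) (.ev (nat_lit 4320) (nat_lit 4) (.ev (nat_lit 6356)
 (nat_lit 32768) (.ev (nat_lit 6365) (nat_lit 32) .dd)))) (.br (nat_lit 11) (.ch (nat_lit 10) (.ev (nat_lit
 4320) (nat_lit 32768) (.ev (nat_lit 5044) (nat_lit 4) (.ev (nat_lit 5053) (nat_lit 32) .dd)))) (.ch (nat_lit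
 11) (.ev (nat_lit 4320) (nat_lit 4) (.ev (nat_lit 4468) (nat_lit 32768) (.ev (nat_lit 4477) (nat_lit 32)
 .dd)))))))))))) (.br (nat_lit 6) (.br (nat_lit 5) (.ch (nat_lit 4) (.ev (nat_lit 1568) (nat_lit 32800) (.nd
 (nat_lit 4592) (.br (nat_lit 7) (.ch (nat_lit 5) (.ev (nat_lit 4608) (nat_lit 4) (.ev (nat_lit 4621) (nat_lit
 4096) .dd))) (.br (nat_lit 8) (.ch (nat_lit 7) (.ev (nat_lit 6452) (nat_lit 4) (.ev (nat_lit 6461) (nat_lit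
 4096) .dd))) (.ch (nat_lit 8) (.ev (nat_lit 4608) (nat_lit 4) (.ev (nat_lit 4621) (nat_lit 4096) .dd))))))))
 (.ch (nat_lit 5) (.ev (nat_lit 1568) (nat_lit 32) (.nd (nat_lit 4592) (.br (nat_lit 10) (.br (nat_lit 9) (.ch
 (nat_lit 4) (.ev (nat_lit 4608) (nat_lit 32768) (.ev (nat_lit 5492) (nat_lit 4) (.ev (nat_lit 5501) (nat_lit
 4096) .dd)))) (.ch (nat_lit 9) (.ev (nat_lit 4608) (nat_lit 32768) (.ev (nat_lit 5188) (nat_lit 4) (.ev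
 (nat_lit 5197) (nat_lit 4096) .dd))))) (.br (nat_lit 12) (.ch (nat_lit 10) (.ev (nat_lit 5248) (nat_lit 4096)
 (.ev (nat_lit 6260) (nat_lit 4) (.ev (nat_lit 6269) (nat_lit 32768) .dd)))) (.ch (nat_lit 12) (.ev (nat_lit
 4608) (nat_lit 4) (.ev (nat_lit 6692) (nat_lit 32768) (.ev (nat_lit 6701) (nat_lit 4096) .dd)))))))))) (.br
 (nat_lit 7) (.ch (nat_lit 6) (.ev (nat_lit 1568) (nat_lit 32768) (.ev (nat_lit 1588) (nat_lit 32) (.ev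
 (nat_lit 2820) (nat_lit 4096) (.ev (nat_lit 2829) (nat_lit 4) .dd))))) (.ch (nat_lit 7) (.ev (nat_lit 1568)
 (nat_lit 36) (.ev (nat_lit 1796) (nat_lit 32768) (.ev (nat_lit 1805) (nat_lit 4096) .dd))))))))) (.ch (nat_lit
 1) (.ev (nat_lit 1024) (nat_lit 4100) (.nd (nat_lit 2336) (.br (nat_lit 11) (.br (nat_lit 3) (.ch (nat_lit 1)
 (.ev (nat_lit 6740) (nat_lit 32) (.ev (nat_lit 6749) (nat_lit 32768) .dd))) (.ch (nat_lit 3) (.ev (nat_lit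
 2372) (nat_lit 32) (.ev (nat_lit 2381) (nat_lit 32768) .dd)))) (.br (nat_lit 12) (.ch (nat_lit 11) (.ev
 (nat_lit 2372) (nat_lit 32) (.ev (nat_lit 2381) (nat_lit 32768) .dd))) (.ch (nat_lit 12) (.ev (nat_lit 2352)
 (nat_lit 32) (.ev (nat_lit 2365) (nat_lit 32768) .dd))))))))) (.br (nat_lit 4) (.ch (nat_lit 2) (.ev (nat_lit
 1024) (nat_lit 32768) (.ev (nat_lit 1044) (nat_lit 4) (.nd (nat_lit 1744) (.br (nat_lit 7) (.br (nat_lit 3)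
 (.ch (nat_lit 1) (.ev (nat_lit 2180) (nat_lit 4096) (.ev (nat_lit 2189) (nat_lit 32) .dd))) (.ch (nat_lit 3)
 (.ev (nat_lit 2292) (nat_lit 32) (.ev (nat_lit 2301) (nat_lit 4096) .dd)))) (.br (nat_lit 8) (.ch (nat_lit 7)
 (.ev (nat_lit 2912) (nat_lit 4128) .dd)) (.br (nat_lit 11) (.ch (nat_lit 8) (.ev (nat_lit 5572) (nat_lit 4096)
 (.ev (nat_lit 5581) (nat_lit 32) .dd))) (.ch (nat_lit 11) (.ev (nat_lit 1760) (nat_lit 4096) (.ev (nat_lit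
 1773) (nat_lit 32) .dd)))))))))) (.ch (nat_lit 4) (.ev (nat_lit 1024) (nat_lit 32800) (.nd (nat_lit 1840) (.br
 (nat_lit 4) (.ch (nat_lit 0) (.ev (nat_lit 6788) (nat_lit 4) (.ev (nat_lit 6797) (nat_lit 4096) .dd))) (.br
 (nat_lit 9) (.ch (nat_lit 4) (.ev (nat_lit 3876) (nat_lit 4096) (.ev (nat_lit 3885) (nat_lit 4) .dd))) (.ch
 (nat_lit 9) (.ev (nat_lit 3488) (nat_lit 4100) .dd))))))))) (.br (nat_lit 9) (.br (nat_lit 8) (.ch (nat_lit 5)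
 (.nd (nat_lit 1456) (.br (nat_lit 7) (.br (nat_lit 3) (.br (nat_lit 1) (.ch (nat_lit 0) (.ev (nat_lit 1472)
 (nat_lit 4) (.ev (nat_lit 5140) (nat_lit 4096) (.ev (nat_lit 6356) (nat_lit 32768) (.ev (nat_lit 6365)
 (nat_lit 32) .dd))))) (.ch (nat_lit 1) (.ev (nat_lit 1588) (nat_lit 32768) (.ev (nat_lit 2900) (nat_lit 4096)
 (.nd (nat_lit 4416) (.br (nat_lit 8) (.br (nat_lit 6) (.br (nat_lit 5) (.ch (nat_lit 1) (.ev (nat_lit 6020)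
 (nat_lit 32) (.ev (nat_lit 6029) (nat_lit 4) .dd))) (.ch (nat_lit 5) (.ev (nat_lit 4432) (nat_lit 4) (.ev
 (nat_lit 4445) (nat_lit 32) .dd)))) (.br (nat_lit 7) (.ch (nat_lit 6) (.ev (nat_lit 5924) (nat_lit 4) (.ev
 (nat_lit 5933) (nat_lit 32) .dd))) (.ch (nat_lit 7) (.ev (nat_lit 4432) (nat_lit 4) (.ev (nat_lit 4445)
 (nat_lit 32) .dd))))) (.br (nat_lit 10) (.br (nat_lit 9) (.ch (nat_lit 8) (.ev (nat_lit 4468) (nat_lit 32)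
 (.ev (nat_lit 4477) (nat_lit 4) .dd))) (.ch (nat_lit 9) (.ev (nat_lit 4432) (nat_lit 32) (.ev (nat_lit 4445)
 (nat_lit 4) .dd)))) (.br (nat_lit 11) (.ch (nat_lit 10) (.ev (nat_lit 5540) (nat_lit 4) (.ev (nat_lit 5549)
 (nat_lit 32) .dd))) (.ch (nat_lit 11) (.ev (nat_lit 4432) (nat_lit 36) .dd)))))))))) (.br (nat_lit 4) (.ch
 (nat_lit 3) (.ev (nat_lit 1472) (nat_lit 32) (.ev (nat_lit 1604) (nat_lit 32768) (.ev (nat_lit 1684) (nat_lit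
 4096) (.ev (nat_lit 1693) (nat_lit 4) .dd))))) (.ch (nat_lit 4) (.ev (nat_lit 1472) (nat_lit 36864) (.ev
 (nat_lit 2420) (nat_lit 4) (.ev (nat_lit 2429) (nat_lit 32) .dd)))))) (.br (nat_lit 9) (.br (nat_lit 8) (.ch
 (nat_lit 7) (.ev (nat_lit 1472) (nat_lit 32) (.ev (nat_lit 2420) (nat_lit 4096) (.ev (nat_lit 5540) (nat_lit
 4) (.ev (nat_lit 5549) (nat_lit 32768) .dd))))) (.ch (nat_lit 8) (.ev (nat_lit 1472) (nat_lit 36868) (.ev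
 (nat_lit 1485) (nat_lit 32) .dd)))) (.br (nat_lit 11) (.ch (nat_lit 9) (.ev (nat_lit 1472) (nat_lit 36868)
 (.ev (nat_lit 1485) (nat_lit 32) .dd))) (.ch (nat_lit 11) (.ev (nat_lit 1684) (nat_lit 4096) (.nd (nat_lit
 4304) (.br (nat_lit 8) (.br (nat_lit 6) (.ch (nat_lit 5) (.ev (nat_lit 4320) (nat_lit 32768) (.ev (nat_lit
 5924) (nat_lit 4) (.ev (nat_lit 5933) (nat_lit 32) .dd)))) (.ch (nat_lit 6) (.ev (nat_lit 6020) (nat_lit 4)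
 (.ev (nat_lit 6048) (nat_lit 32) (.ev (nat_lit 6061) (nat_lit 32768) .dd))))) (.br (nat_lit 10) (.ch (nat_lit
 8) (.ev (nat_lit 4320) (nat_lit 32768) (.fin (nat_lit 576550362492125753)))) (.br (nat_lit 11) (.ch (nat_lit
 10) (.ev (nat_lit 6528) (nat_lit 32) (.ev (nat_lit 6692) (nat_lit 4) (.ev (nat_lit 6701) (nat_lit 32768)
 .dd)))) (.ch (nat_lit 11) (.ev (nat_lit 4320) (nat_lit 32768) (.ev (nat_lit 6452) (nat_lit 4) (.ev (nat_lit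
 6461) (nat_lit 32) .dd))))))))))))))) (.ch (nat_lit 8) (.ev (nat_lit 1024) (nat_lit 4100) (.nd (nat_lit 1744)
 (.br (nat_lit 6) (.br (nat_lit 4) (.ch (nat_lit 3) (.ev (nat_lit 6452) (nat_lit 32) (.ev (nat_lit 6461)
 (nat_lit 32768) .dd))) (.ch (nat_lit 4) (.ev (nat_lit 1760) (nat_lit 32768) (.ev (nat_lit 1773) (nat_lit 32)
 .dd)))) (.br (nat_lit 8) (.ch (nat_lit 6) (.ev (nat_lit 5188) (nat_lit 32768) (.ev (nat_lit 5197) (nat_lit 32)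
 .dd))) (.br (nat_lit 9) (.ch (nat_lit 8) (.ev (nat_lit 1760) (nat_lit 32768) (.ev (nat_lit 1773) (nat_lit 32)
 .dd))) (.ch (nat_lit 9) (.ev (nat_lit 2740) (nat_lit 32768) (.ev (nat_lit 2749) (nat_lit 32) .dd))))))))))
 (.br (nat_lit 11) (.ch (nat_lit 9) (.ev (nat_lit 1024) (nat_lit 4128) (.ev (nat_lit 1044) (nat_lit 32768) (.ev
 (nat_lit 1053) (nat_lit 4) .dd)))) (.br (nat_lit 12) (.ch (nat_lit 11) (.ev (nat_lit 1024) (nat_lit 32804)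
 (.ev (nat_lit 1037) (nat_lit 4096) .dd))) (.ch (nat_lit 12) (.ev (nat_lit 1140) (nat_lit 4) (.nd (nat_lit
 1968) (.br (nat_lit 7) (.br (nat_lit 2) (.ch (nat_lit 1) (.ev (nat_lit 1984) (nat_lit 32800) (.ev (nat_lit
 1997) (nat_lit 4096) .dd))) (.br (nat_lit 5) (.ch (nat_lit 2) (.ev (nat_lit 1984) (nat_lit 36864) (.ev
 (nat_lit 1997) (nat_lit 32) .dd))) (.ch (nat_lit 5) (.ev (nat_lit 2180) (nat_lit 32768) (.ev (nat_lit 3604)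
 (nat_lit 32) (.ev (nat_lit 3613) (nat_lit 4096) .dd)))))) (.br (nat_lit 9) (.br (nat_lit 8) (.ch (nat_lit 7)
 (.ev (nat_lit 6020) (nat_lit 32768) (.ev (nat_lit 6452) (nat_lit 32) (.ev (nat_lit 6461) (nat_lit 4096)
 .dd)))) (.ch (nat_lit 8) (.ev (nat_lit 1984) (nat_lit 32768) (.ev (nat_lit 2164) (nat_lit 4096) (.ev (nat_lit
 2173) (nat_lit 32) .dd))))) (.br (nat_lit 10) (.ch (nat_lit 9) (.ev (nat_lit 1984) (nat_lit 4096) (.ev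
 (nat_lit 2004) (nat_lit 32) (.ev (nat_lit 2013) (nat_lit 32768) .dd)))) (.ch (nat_lit 10) (.ev (nat_lit 1984)
 (nat_lit 32) (.ev (nat_lit 2164) (nat_lit 4096) (.ev (nat_lit 2173) (nat_lit 32768) .dd)))))))))))))))) (.br
 (nat_lit 12) (.ch (nat_lit 9) (.ev (nat_lit 448) (nat_lit 36864) (.nd (nat_lit 1088) (.br (nat_lit 4) (.ch
 (nat_lit 2) (.nd (nat_lit 1744) (.br (nat_lit 5) (.br (nat_lit 4) (.ch (nat_lit 2) (.nd (nat_lit 7360) (.ch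
 (nat_lit 5) (.fin (nat_lit 576445908887487033))))) (.ch (nat_lit 4) (.fin (nat_lit 577360700538034001)))) (.br
 (nat_lit 7) (.ch (nat_lit 5) (.ev (nat_lit 5444) (nat_lit 32) (.ev (nat_lit 5453) (nat_lit 4) .dd))) (.br
 (nat_lit 11) (.ch (nat_lit 7) (.ev (nat_lit 5140) (nat_lit 32) (.ev (nat_lit 5149) (nat_lit 4) .dd))) (.ch
 (nat_lit 11) (.ev (nat_lit 6148) (nat_lit 32) (.ev (nat_lit 6157) (nat_lit 4) .dd)))))))) (.br (nat_lit 6)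
 (.ch (nat_lit 4) (.nd (nat_lit 1840) (.br (nat_lit 7) (.br (nat_lit 5) (.ch (nat_lit 3) (.ev (nat_lit 2036)
 (nat_lit 32) (.ev (nat_lit 2045) (nat_lit 4) .dd))) (.ch (nat_lit 5) (.ev (nat_lit 5188) (nat_lit 32) (.ev
 (nat_lit 5197) (nat_lit 4) .dd)))) (.br (nat_lit 9) (.ch (nat_lit 7) (.ev (nat_lit 6400) (nat_lit 36) .dd))
 (.ch (nat_lit 9) (.ev (nat_lit 6832) (nat_lit 36) .dd)))))) (.ch (nat_lit 6) (.nd (nat_lit 1648) (.br (nat_lit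
 9) (.br (nat_lit 5) (.ch (nat_lit 1) (.ev (nat_lit 1924) (nat_lit 32) (.ev (nat_lit 1933) (nat_lit 4) .dd)))
 (.ch (nat_lit 5) (.ev (nat_lit 5328) (nat_lit 36) .dd))) (.br (nat_lit 10) (.ch (nat_lit 9) (.ev (nat_lit
 1812) (nat_lit 4) (.ev (nat_lit 1821) (nat_lit 32) .dd))) (.ch (nat_lit 10) (.ev (nat_lit 5140) (nat_lit 32)
 (.ev (nat_lit 5149) (nat_lit 4) .dd)))))))))))) (.ch (nat_lit 12) (.ev (nat_lit 448) (nat_lit 4128) (.nd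
 (nat_lit 1168) (.br (nat_lit 7) (.br (nat_lit 1) (.ch (nat_lit 0) (.ev (nat_lit 1184) (nat_lit 32772) .dd))
 (.br (nat_lit 4) (.ch (nat_lit 1) (.nd (nat_lit 3408) (.br (nat_lit 6) (.br (nat_lit 3) (.ch (nat_lit 1) (.ev
 (nat_lit 3424) (nat_lit 4) (.ev (nat_lit 3437) (nat_lit 32768) .dd))) (.br (nat_lit 4) (.ch (nat_lit 3) (.ev
 (nat_lit 3424) (nat_lit 32768) (.ev (nat_lit 3437) (nat_lit 4) .dd))) (.ch (nat_lit 4) (.ev (nat_lit 3424)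
 (nat_lit 32768) (.ev (nat_lit 3437) (nat_lit 4) .dd))))) (.br (nat_lit 11) (.ch (nat_lit 6) (.ev (nat_lit
 3424) (nat_lit 32768) (.ev (nat_lit 3437) (nat_lit 4) .dd))) (.br (nat_lit 12) (.ch (nat_lit 11) (.ev (nat_lit
 3424) (nat_lit 4) (.ev (nat_lit 3437) (nat_lit 32768) .dd))) (.ch (nat_lit 12) (.ev (nat_lit 3424) (nat_lit 4)
 (.ev (nat_lit 3437) (nat_lit 32768) .dd)))))))) (.ch (nat_lit 4) (.nd (nat_lit 2624) (.br (nat_lit 7) (.br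
 (nat_lit 4) (.ch (nat_lit 1) (.ev (nat_lit 2676) (nat_lit 32768) (.ev (nat_lit 2685) (nat_lit 4) .dd))) (.br
 (nat_lit 6) (.ch (nat_lit 4) (.ev (nat_lit 2640) (nat_lit 4) (.ev (nat_lit 2653) (nat_lit 32768) .dd))) (.ch
 (nat_lit 6) (.ev (nat_lit 2676) (nat_lit 32768) (.ev (nat_lit 2685) (nat_lit 4) .dd))))) (.br (nat_lit 8) (.ch
 (nat_lit 7) (.ev (nat_lit 2676) (nat_lit 4) (.ev (nat_lit 2685) (nat_lit 32768) .dd))) (.br (nat_lit 11) (.ch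
 (nat_lit 8) (.ev (nat_lit 2640) (nat_lit 32768) (.ev (nat_lit 2653) (nat_lit 4) .dd))) (.ch (nat_lit 11) (.ev
 (nat_lit 2640) (nat_lit 32768) (.ev (nat_lit 2653) (nat_lit 4) .dd)))))))))) (.br (nat_lit 9) (.br (nat_lit 8)
 (.ch (nat_lit 7) (.ev (nat_lit 1184) (nat_lit 32768) (.ev (nat_lit 1197) (nat_lit 4) .dd))) (.ch (nat_lit 8)
 (.ev (nat_lit 1184) (nat_lit 4) (.ev (nat_lit 1197) (nat_lit 32768) .dd)))) (.br (nat_lit 10) (.ch (nat_lit 9)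
 (.nd (nat_lit 2624) (.br (nat_lit 8) (.br (nat_lit 3) (.ch (nat_lit 0) (.ev (nat_lit 5140) (nat_lit 4) (.ev
 (nat_lit 5149) (nat_lit 32768) .dd))) (.br (nat_lit 7) (.ch (nat_lit 3) (.ev (nat_lit 2640) (nat_lit 4) (.ev
 (nat_lit 2653) (nat_lit 32768) .dd))) (.ch (nat_lit 7) (.ev (nat_lit 3700) (nat_lit 4) (.ev (nat_lit 3709)
 (nat_lit 32768) .dd))))) (.br (nat_lit 10) (.br (nat_lit 9) (.ch (nat_lit 8) (.ev (nat_lit 3476) (nat_lit 4)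
 (.ev (nat_lit 3485) (nat_lit 32768) .dd))) (.ch (nat_lit 9) (.ev (nat_lit 2640) (nat_lit 4) (.ev (nat_lit
 2653) (nat_lit 32768) .dd)))) (.br (nat_lit 12) (.ch (nat_lit 10) (.ev (nat_lit 3540) (nat_lit 4) (.ev
 (nat_lit 3549) (nat_lit 32768) .dd))) (.ch (nat_lit 12) (.ev (nat_lit 2640) (nat_lit 32768) (.ev (nat_lit
 2653) (nat_lit 4) .dd)))))))) (.ch (nat_lit 10) (.ev (nat_lit 1184) (nat_lit 4) (.ev (nat_lit 1197) (nat_lit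
 32768) .dd)))))))))))))))) (.ch (nat_lit 5) (.ev (nat_lit 48) (nat_lit 32768) (.nd (nat_lit 160) (.br (nat_lit
 5) (.br (nat_lit 3) (.br (nat_lit 1) (.ch (nat_lit 0) (.ev (nat_lit 176) (nat_lit 4) (.nd (nat_lit 624) (.br
 (nat_lit 6) (.br (nat_lit 4) (.br (nat_lit 2) (.ch (nat_lit 0) (.ev (nat_lit 640) (nat_lit 8192) (.nd (nat_lit
 2128) (.br (nat_lit 8) (.br (nat_lit 6) (.br (nat_lit 5) (.ch (nat_lit 1) (.ev (nat_lit 2144) (nat_lit 32)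
 (.ev (nat_lit 2164) (nat_lit 4096) (.ev (nat_lit 2173) (nat_lit 64) .dd)))) (.ch (nat_lit 5) (.ev (nat_lit
 2144) (nat_lit 32) (.ev (nat_lit 2388) (nat_lit 64) (.ev (nat_lit 2397) (nat_lit 4096) .dd))))) (.br (nat_lit
 7) (.ch (nat_lit 6) (.ev (nat_lit 3972) (nat_lit 32) (.ev (nat_lit 6692) (nat_lit 64) (.ev (nat_lit 6701)
 (nat_lit 4096) .dd)))) (.ch (nat_lit 7) (.ev (nat_lit 2388) (nat_lit 96) (.ev (nat_lit 2397) (nat_lit 4096)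
 .dd))))) (.br (nat_lit 10) (.br (nat_lit 9) (.ch (nat_lit 8) (.ev (nat_lit 2144) (nat_lit 4096) (.ev (nat_lit
 2372) (nat_lit 64) (.ev (nat_lit 2381) (nat_lit 32) .dd)))) (.ch (nat_lit 9) (.ev (nat_lit 2144) (nat_lit
 4160) (.ev (nat_lit 2157) (nat_lit 32) .dd)))) (.br (nat_lit 11) (.ch (nat_lit 10) (.ev (nat_lit 2144)
 (nat_lit 96) (.ev (nat_lit 2157) (nat_lit 4096) .dd))) (.br (nat_lit 12) (.ch (nat_lit 11) (.ev (nat_lit 2144)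
 (nat_lit 32) (.ev (nat_lit 2164) (nat_lit 4096) (.ev (nat_lit 2173) (nat_lit 64) .dd)))) (.ch (nat_lit 12)
 (.ev (nat_lit 2144) (nat_lit 4192) .dd))))))))) (.ch (nat_lit 2) (.ev (nat_lit 640) (nat_lit 32) (.nd (nat_lit
 1552) (.br (nat_lit 6) (.br (nat_lit 3) (.br (nat_lit 1) (.ch (nat_lit 0) (.ev (nat_lit 1588) (nat_lit 4096)
 (.ev (nat_lit 2676) (nat_lit 64) (.ev (nat_lit 2685) (nat_lit 8192) .dd)))) (.ch (nat_lit 1) (.ev (nat_lit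
 1568) (nat_lit 4096) (.ev (nat_lit 2388) (nat_lit 8192) (.ev (nat_lit 2397) (nat_lit 64) .dd))))) (.br
 (nat_lit 5) (.ch (nat_lit 3) (.ev (nat_lit 1568) (nat_lit 4160) (.ev (nat_lit 1581) (nat_lit 8192) .dd))) (.ch
 (nat_lit 5) (.ev (nat_lit 1568) (nat_lit 4160) (.ev (nat_lit 1581) (nat_lit 8192) .dd))))) (.br (nat_lit 9)
 (.br (nat_lit 7) (.ch (nat_lit 6) (.ev (nat_lit 1568) (nat_lit 64) (.ev (nat_lit 2420) (nat_lit 8192) (.ev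
 (nat_lit 2429) (nat_lit 4096) .dd)))) (.ch (nat_lit 7) (.ev (nat_lit 1568) (nat_lit 8192) (.ev (nat_lit 2820)
 (nat_lit 64) (.ev (nat_lit 2829) (nat_lit 4096) .dd))))) (.br (nat_lit 11) (.ch (nat_lit 9) (.ev (nat_lit
 1568) (nat_lit 8192) (.ev (nat_lit 7108) (nat_lit 4096) (.ev (nat_lit 7117) (nat_lit 64) .dd)))) (.br (nat_lit
 12) (.ch (nat_lit 11) (.ev (nat_lit 1568) (nat_lit 8192) (.ev (nat_lit 1588) (nat_lit 4096) (.ev (nat_lit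
 1597) (nat_lit 64) .dd)))) (.ch (nat_lit 12) (.ev (nat_lit 1568) (nat_lit 64) (.ev (nat_lit 2372) (nat_lit
 8192) (.ev (nat_lit 2381) (nat_lit 4096) .dd)))))))))))) (.br (nat_lit 5) (.ch (nat_lit 4) (.ev (nat_lit 640)
 (nat_lit 4128) (.nd (nat_lit 2336) (.br (nat_lit 8) (.br (nat_lit 4) (.ch (nat_lit 1) (.ev (nat_lit 2372)
 (nat_lit 8192) (.ev (nat_lit 2381) (nat_lit 64) .dd))) (.br (nat_lit 6) (.ch (nat_lit 4) (.ev (nat_lit 2352)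
 (nat_lit 8256) .dd)) (.ch (nat_lit 6) (.ev (nat_lit 2352) (nat_lit 8192) (.ev (nat_lit 2365) (nat_lit 64)
 .dd))))) (.br (nat_lit 9) (.ch (nat_lit 8) (.ev (nat_lit 2352) (nat_lit 64) (.ev (nat_lit 2365) (nat_lit 8192)
 .dd))) (.br (nat_lit 10) (.ch (nat_lit 9) (.ev (nat_lit 2352) (nat_lit 64) (.ev (nat_lit 2365) (nat_lit 8192)
 .dd))) (.ch (nat_lit 10) (.ev (nat_lit 6788) (nat_lit 8192) (.ev (nat_lit 6797) (nat_lit 64) .dd))))))))) (.ch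
 (nat_lit 5) (.ev (nat_lit 640) (nat_lit 4128) (.nd (nat_lit 2128) (.br (nat_lit 7) (.br (nat_lit 4) (.ch
 (nat_lit 0) (.ev (nat_lit 2144) (nat_lit 8192) (.ev (nat_lit 2157) (nat_lit 64) .dd))) (.ch (nat_lit 4) (.ev
 (nat_lit 2144) (nat_lit 8192) (.ev (nat_lit 2157) (nat_lit 64) .dd)))) (.br (nat_lit 11) (.ch (nat_lit 7) (.ev
 (nat_lit 2144) (nat_lit 64) (.ev (nat_lit 2157) (nat_lit 8192) .dd))) (.br (nat_lit 12) (.ch (nat_lit 11) (.ev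
 (nat_lit 2788) (nat_lit 64) (.ev (nat_lit 2797) (nat_lit 8192) .dd))) (.ch (nat_lit 12) (.ev (nat_lit 2144)
 (nat_lit 64) (.ev (nat_lit 2157) (nat_lit 8192) .dd))))))))))) (.br (nat_lit 10) (.br (nat_lit 7) (.ch
 (nat_lit 6) (.ev (nat_lit 640) (nat_lit 64) (.nd (nat_lit 1264) (.br (nat_lit 6) (.br (nat_lit 4) (.ch
 (nat_lit 0) (.ev (nat_lit 1280) (nat_lit 32) (.ev (nat_lit 4196) (nat_lit 8192) (.ev (nat_lit 4205) (nat_lit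
 4096) .dd)))) (.br (nat_lit 5) (.ch (nat_lit 4) (.ev (nat_lit 1280) (nat_lit 8192) (.ev (nat_lit 2928)
 (nat_lit 4128) .dd))) (.ch (nat_lit 5) (.ev (nat_lit 1280) (nat_lit 8192) (.ev (nat_lit 3940) (nat_lit 32)
 (.ev (nat_lit 3949) (nat_lit 4096) .dd)))))) (.br (nat_lit 11) (.br (nat_lit 9) (.ch (nat_lit 6) (.ev (nat_lit
 1280) (nat_lit 32) (.ev (nat_lit 4932) (nat_lit 4096) (.ev (nat_lit 4941) (nat_lit 8192) .dd)))) (.ch (nat_lit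
 9) (.ev (nat_lit 1280) (nat_lit 32) (.nd (nat_lit 4416) (.ch (nat_lit 0) (.ev (nat_lit 6260) (nat_lit 8192)
 (.ev (nat_lit 6269) (nat_lit 4096) .dd))))))) (.br (nat_lit 12) (.ch (nat_lit 11) (.ev (nat_lit 1280) (nat_lit
 4096) (.ev (nat_lit 5236) (nat_lit 32) (.ev (nat_lit 5245) (nat_lit 8192) .dd)))) (.ch (nat_lit 12) (.ev
 (nat_lit 1280) (nat_lit 4096) (.ev (nat_lit 6740) (nat_lit 32) (.ev (nat_lit 6749) (nat_lit 8192)
 .dd)))))))))) (.ch (nat_lit 7) (.ev (nat_lit 640) (nat_lit 4192) (.ev (nat_lit 653) (nat_lit 8192) .dd))))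
 (.br (nat_lit 11) (.ch (nat_lit 10) (.ev (nat_lit 640) (nat_lit 8288) (.ev (nat_lit 653) (nat_lit 4096) .dd)))
 (.br (nat_lit 12) (.ch (nat_lit 11) (.ev (nat_lit 640) (nat_lit 32) (.ev (nat_lit 1204) (nat_lit 64) (.nd
 (nat_lit 1840) (.br (nat_lit 6) (.br (nat_lit 4) (.ch (nat_lit 1) (.ev (nat_lit 2820) (nat_lit 4096) (.ev
 (nat_lit 2829) (nat_lit 8192) .dd))) (.br (nat_lit 5) (.ch (nat_lit 4) (.ev (nat_lit 2036) (nat_lit 8192) (.ev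
 (nat_lit 2045) (nat_lit 4096) .dd))) (.ch (nat_lit 5) (.ev (nat_lit 1856) (nat_lit 4096) (.ev (nat_lit 1869)
 (nat_lit 8192) .dd))))) (.br (nat_lit 11) (.br (nat_lit 10) (.ch (nat_lit 6) (.ev (nat_lit 1856) (nat_lit
 4096) (.ev (nat_lit 1869) (nat_lit 8192) .dd))) (.ch (nat_lit 10) (.ev (nat_lit 6020) (nat_lit 8192) (.ev
 (nat_lit 6029) (nat_lit 4096) .dd)))) (.br (nat_lit 12) (.ch (nat_lit 11) (.ev (nat_lit 1856) (nat_lit 8192)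
 (.ev (nat_lit 1869) (nat_lit 4096) .dd))) (.ch (nat_lit 12) (.ev (nat_lit 1856) (nat_lit 8192) (.ev (nat_lit
 1869) (nat_lit 4096) .dd)))))))))) (.ch (nat_lit 12) (.ev (nat_lit 640) (nat_lit 8192) (.nd (nat_lit 1968)
 (.br (nat_lit 9) (.br (nat_lit 4) (.ch (nat_lit 1) (.ev (nat_lit 1984) (nat_lit 64) (.ev (nat_lit 2068)
 (nat_lit 4096) (.ev (nat_lit 2077) (nat_lit 32) .dd)))) (.br (nat_lit 8) (.ch (nat_lit 4) (.ev (nat_lit 2004)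
 (nat_lit 4096) (.ev (nat_lit 7060) (nat_lit 64) (.ev (nat_lit 7069) (nat_lit 32) .dd)))) (.ch (nat_lit 8) (.ev
 (nat_lit 2004) (nat_lit 4096) (.ev (nat_lit 2740) (nat_lit 64) (.ev (nat_lit 2749) (nat_lit 32) .dd)))))) (.br
 (nat_lit 10) (.ch (nat_lit 9) (.ev (nat_lit 1984) (nat_lit 64) (.ev (nat_lit 6692) (nat_lit 4096) (.ev
 (nat_lit 6701) (nat_lit 32) .dd)))) (.br (nat_lit 11) (.ch (nat_lit 10) (.ev (nat_lit 3652) (nat_lit 64) (.ev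
 (nat_lit 5364) (nat_lit 4096) (.ev (nat_lit 5373) (nat_lit 32) .dd)))) (.ch (nat_lit 11) (.ev (nat_lit 1984)
 (nat_lit 32) (.fin (nat_lit 576255693913800726))))))))))))))))) (.ch (nat_lit 1) (.ev (nat_lit 176) (nat_lit
 68) (.nd (nat_lit 1088) (.br (nat_lit 6) (.br (nat_lit 3) (.br (nat_lit 2) (.ch (nat_lit 0) (.nd (nat_lit
 2336) (.br (nat_lit 6) (.br (nat_lit 3) (.ch (nat_lit 0) (.ev (nat_lit 5728) (nat_lit 8192) (.ev (nat_lit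
 6740) (nat_lit 32) (.ev (nat_lit 6749) (nat_lit 4096) .dd)))) (.ch (nat_lit 3) (.ev (nat_lit 2352) (nat_lit
 4096) (.ev (nat_lit 6148) (nat_lit 32) (.ev (nat_lit 6157) (nat_lit 8192) .dd))))) (.br (nat_lit 8) (.ch
 (nat_lit 6) (.ev (nat_lit 2352) (nat_lit 4096) (.ev (nat_lit 2372) (nat_lit 32) (.ev (nat_lit 2381) (nat_lit
 8192) .dd)))) (.br (nat_lit 12) (.ch (nat_lit 8) (.ev (nat_lit 3876) (nat_lit 32) (.ev (nat_lit 6596) (nat_lit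
 4096) (.ev (nat_lit 6605) (nat_lit 8192) .dd)))) (.ch (nat_lit 12) (.ev (nat_lit 2352) (nat_lit 8192) (.ev
 (nat_lit 2372) (nat_lit 32) (.ev (nat_lit 2381) (nat_lit 4096) .dd))))))))) (.ch (nat_lit 2) (.nd (nat_lit
 1968) (.br (nat_lit 6) (.br (nat_lit 2) (.br (nat_lit 1) (.ch (nat_lit 0) (.ev (nat_lit 1984) (nat_lit 8192)
 (.ev (nat_lit 3540) (nat_lit 4096) (.ev (nat_lit 3549) (nat_lit 32) .dd)))) (.ch (nat_lit 1) (.ev (nat_lit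
 1984) (nat_lit 32) (.ev (nat_lit 2164) (nat_lit 8192) (.ev (nat_lit 2173) (nat_lit 4096) .dd))))) (.br
 (nat_lit 4) (.ch (nat_lit 2) (.ev (nat_lit 1984) (nat_lit 12320) .dd)) (.ch (nat_lit 4) (.ev (nat_lit 1984)
 (nat_lit 4096) (.ev (nat_lit 7124) (nat_lit 32) (.ev (nat_lit 7133) (nat_lit 8192) .dd)))))) (.br (nat_lit 8)
 (.br (nat_lit 7) (.ch (nat_lit 6) (.ev (nat_lit 1984) (nat_lit 4096) (.ev (nat_lit 5844) (nat_lit 8192) (.ev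
 (nat_lit 5853) (nat_lit 32) .dd)))) (.ch (nat_lit 7) (.ev (nat_lit 1984) (nat_lit 8192) (.ev (nat_lit 4116)
 (nat_lit 4096) (.ev (nat_lit 4125) (nat_lit 32) .dd))))) (.br (nat_lit 9) (.ch (nat_lit 8) (.ev (nat_lit 2900)
 (nat_lit 4096) (.ev (nat_lit 3540) (nat_lit 32) (.ev (nat_lit 3549) (nat_lit 8192) .dd)))) (.ch (nat_lit 9)
 (.ev (nat_lit 1984) (nat_lit 4096) (.ev (nat_lit 6644) (nat_lit 32) (.ev (nat_lit 6653) (nat_lit 8192)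
 .dd)))))))))) (.br (nat_lit 5) (.ch (nat_lit 3) (.ev (nat_lit 1104) (nat_lit 12320) .dd)) (.ch (nat_lit 5)
 (.ev (nat_lit 1104) (nat_lit 32) (.nd (nat_lit 2624) (.br (nat_lit 8) (.br (nat_lit 1) (.ch (nat_lit 0) (.ev
 (nat_lit 2640) (nat_lit 4096) (.ev (nat_lit 2653) (nat_lit 8192) .dd))) (.br (nat_lit 7) (.ch (nat_lit 1) (.ev
 (nat_lit 2740) (nat_lit 4096) (.ev (nat_lit 2749) (nat_lit 8192) .dd))) (.ch (nat_lit 7) (.ev (nat_lit 3540)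
 (nat_lit 8192) (.ev (nat_lit 3549) (nat_lit 4096) .dd))))) (.br (nat_lit 9) (.ch (nat_lit 8) (.ev (nat_lit
 3476) (nat_lit 8192) (.ev (nat_lit 3485) (nat_lit 4096) .dd))) (.br (nat_lit 11) (.ch (nat_lit 9) (.ev
 (nat_lit 2640) (nat_lit 4096) (.ev (nat_lit 2653) (nat_lit 8192) .dd))) (.ch (nat_lit 11) (.ev (nat_lit 2640)
 (nat_lit 4096) (.ev (nat_lit 2653) (nat_lit 8192) .dd))))))))))) (.br (nat_lit 9) (.br (nat_lit 8) (.ch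
 (nat_lit 6) (.ev (nat_lit 1104) (nat_lit 12288) (.ev (nat_lit 1117) (nat_lit 32) .dd))) (.ch (nat_lit 8) (.ev
 (nat_lit 1104) (nat_lit 8192) (.nd (nat_lit 2624) (.br (nat_lit 9) (.br (nat_lit 7) (.ch (nat_lit 4) (.ev
 (nat_lit 2640) (nat_lit 4096) (.ev (nat_lit 2653) (nat_lit 32) .dd))) (.br (nat_lit 8) (.ch (nat_lit 7) (.ev
 (nat_lit 2640) (nat_lit 32) (.ev (nat_lit 2653) (nat_lit 4096) .dd))) (.ch (nat_lit 8) (.ev (nat_lit 3604)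
 (nat_lit 32) (.ev (nat_lit 3613) (nat_lit 4096) .dd))))) (.br (nat_lit 10) (.ch (nat_lit 9) (.ev (nat_lit
 3700) (nat_lit 4096) (.ev (nat_lit 3709) (nat_lit 32) .dd))) (.br (nat_lit 12) (.ch (nat_lit 10) (.ev (nat_lit
 6788) (nat_lit 32) (.ev (nat_lit 6797) (nat_lit 4096) .dd))) (.ch (nat_lit 12) (.fin (nat_lit
 576458003523781180)))))))))) (.br (nat_lit 10) (.ch (nat_lit 9) (.nd (nat_lit 2624) (.br (nat_lit 7) (.br
 (nat_lit 2) (.ch (nat_lit 1) (.ev (nat_lit 2640) (nat_lit 4096) (.ev (nat_lit 3120) (nat_lit 8224) .dd))) (.br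
 (nat_lit 6) (.ch (nat_lit 2) (.ev (nat_lit 2640) (nat_lit 32) (.ev (nat_lit 6148) (nat_lit 4096) (.ev (nat_lit
 6157) (nat_lit 8192) .dd)))) (.ch (nat_lit 6) (.ev (nat_lit 2640) (nat_lit 8224) (.ev (nat_lit 2653) (nat_lit
 4096) .dd))))) (.br (nat_lit 10) (.br (nat_lit 8) (.ch (nat_lit 7) (.ev (nat_lit 2640) (nat_lit 8192) (.ev
 (nat_lit 6512) (nat_lit 4096) (.ev (nat_lit 6525) (nat_lit 32) .dd)))) (.ch (nat_lit 8) (.ev (nat_lit 2740)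
 (nat_lit 32) (.ev (nat_lit 3700) (nat_lit 4096) (.ev (nat_lit 3709) (nat_lit 8192) .dd))))) (.br (nat_lit 12)
 (.ch (nat_lit 10) (.ev (nat_lit 2640) (nat_lit 4096) (.ev (nat_lit 2800) (nat_lit 8224) .dd))) (.ch (nat_lit
 12) (.ev (nat_lit 3044) (nat_lit 32) (.ev (nat_lit 3056) (nat_lit 8192) (.ev (nat_lit 3069) (nat_lit 4096)
 .dd))))))))) (.br (nat_lit 11) (.ch (nat_lit 10) (.ev (nat_lit 1104) (nat_lit 4128) (.ev (nat_lit 1117)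
 (nat_lit 8192) .dd))) (.ch (nat_lit 11) (.ev (nat_lit 1104) (nat_lit 4096) (.nd (nat_lit 2336) (.br (nat_lit
 7) (.br (nat_lit 4) (.br (nat_lit 1) (.ch (nat_lit 0) (.ev (nat_lit 2352) (nat_lit 32) (.ev (nat_lit 2365)
 (nat_lit 8192) .dd))) (.ch (nat_lit 1) (.ev (nat_lit 2372) (nat_lit 32) (.ev (nat_lit 2381) (nat_lit 8192)
 .dd)))) (.br (nat_lit 5) (.ch (nat_lit 4) (.ev (nat_lit 2352) (nat_lit 8192) (.ev (nat_lit 2365) (nat_lit 32)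
 .dd))) (.ch (nat_lit 5) (.ev (nat_lit 2352) (nat_lit 8224) .dd)))) (.br (nat_lit 9) (.br (nat_lit 8) (.ch
 (nat_lit 7) (.ev (nat_lit 6148) (nat_lit 32) (.ev (nat_lit 6157) (nat_lit 8192) .dd))) (.ch (nat_lit 8) (.ev
 (nat_lit 2372) (nat_lit 32) (.ev (nat_lit 2381) (nat_lit 8192) .dd)))) (.br (nat_lit 10) (.ch (nat_lit 9) (.ev
 (nat_lit 5876) (nat_lit 8192) (.ev (nat_lit 5885) (nat_lit 32) .dd))) (.ch (nat_lit 10) (.ev (nat_lit 2352)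
 (nat_lit 8224) .dd)))))))))))))))) (.br (nat_lit 4) (.ch (nat_lit 3) (.ev (nat_lit 176) (nat_lit 64) (.nd
 (nat_lit 576) (.br (nat_lit 6) (.br (nat_lit 3) (.br (nat_lit 2) (.ch (nat_lit 1) (.ev (nat_lit 592) (nat_lit
 12288) (.ev (nat_lit 836) (nat_lit 4) (.ev (nat_lit 845) (nat_lit 32) .dd)))) (.ch (nat_lit 2) (.ev (nat_lit
 592) (nat_lit 36) (.nd (nat_lit 1264) (.br (nat_lit 6) (.br (nat_lit 3) (.ch (nat_lit 2) (.ev (nat_lit 6596)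
 (nat_lit 8192) (.ev (nat_lit 6605) (nat_lit 4096) .dd))) (.br (nat_lit 4) (.ch (nat_lit 3) (.ev (nat_lit 1280)
 (nat_lit 4096) (.ev (nat_lit 1293) (nat_lit 8192) .dd))) (.ch (nat_lit 4) (.ev (nat_lit 1280) (nat_lit 4096)
 (.ev (nat_lit 1293) (nat_lit 8192) .dd))))) (.br (nat_lit 10) (.br (nat_lit 8) (.ch (nat_lit 6) (.ev (nat_lit
 5668) (nat_lit 4096) (.ev (nat_lit 5677) (nat_lit 8192) .dd))) (.ch (nat_lit 8) (.ev (nat_lit 1280) (nat_lit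
 12288) .dd))) (.br (nat_lit 11) (.ch (nat_lit 10) (.ev (nat_lit 5716) (nat_lit 8192) (.ev (nat_lit 5725)
 (nat_lit 4096) .dd))) (.ch (nat_lit 11) (.ev (nat_lit 1280) (nat_lit 8192) (.ev (nat_lit 1293) (nat_lit 4096)
 .dd)))))))))) (.br (nat_lit 5) (.ch (nat_lit 3) (.ev (nat_lit 592) (nat_lit 32) (.nd (nat_lit 1456) (.br
 (nat_lit 7) (.br (nat_lit 5) (.ch (nat_lit 2) (.ev (nat_lit 1472) (nat_lit 8192) (.ev (nat_lit 6500) (nat_lit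
 4096) (.ev (nat_lit 6509) (nat_lit 4) .dd)))) (.br (nat_lit 6) (.ch (nat_lit 5) (.ev (nat_lit 1472) (nat_lit
 4) (.nd (nat_lit 4304) (.br (nat_lit 8) (.ch (nat_lit 1) (.ev (nat_lit 4468) (nat_lit 8192) (.ev (nat_lit
 4477) (nat_lit 4096) .dd))) (.ch (nat_lit 8) (.ev (nat_lit 5844) (nat_lit 4096) (.ev (nat_lit 5853) (nat_lit
 8192) .dd))))))) (.ch (nat_lit 6) (.ev (nat_lit 1472) (nat_lit 4096) (.ev (nat_lit 2868) (nat_lit 4) (.ev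
 (nat_lit 2877) (nat_lit 8192) .dd)))))) (.br (nat_lit 11) (.ch (nat_lit 7) (.ev (nat_lit 1472) (nat_lit 8192)
 (.ev (nat_lit 1588) (nat_lit 4096) (.ev (nat_lit 1597) (nat_lit 4) .dd)))) (.br (nat_lit 12) (.ch (nat_lit 11)
 (.nd (nat_lit 3984) (.br (nat_lit 5) (.br (nat_lit 4) (.ch (nat_lit 0) (.ev (nat_lit 4932) (nat_lit 4096) (.ev
 (nat_lit 6452) (nat_lit 8192) (.ev (nat_lit 6461) (nat_lit 4) .dd)))) (.ch (nat_lit 4) (.ev (nat_lit 4000)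
 (nat_lit 4) (.ev (nat_lit 5572) (nat_lit 8192) (.ev (nat_lit 5581) (nat_lit 4096) .dd))))) (.br (nat_lit 6)
 (.ch (nat_lit 5) (.ev (nat_lit 4644) (nat_lit 8192) (.ev (nat_lit 4932) (nat_lit 4096) (.ev (nat_lit 4941)
 (nat_lit 4) .dd)))) (.ch (nat_lit 6) (.ev (nat_lit 4000) (nat_lit 4) (.ev (nat_lit 4932) (nat_lit 4096) (.ev
 (nat_lit 4941) (nat_lit 8192) .dd)))))))) (.ch (nat_lit 12) (.ev (nat_lit 1472) (nat_lit 4) (.ev (nat_lit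
 1588) (nat_lit 4096) (.ev (nat_lit 1597) (nat_lit 8192) .dd)))))))))) (.ch (nat_lit 5) (.nd (nat_lit 1264)
 (.br (nat_lit 6) (.br (nat_lit 2) (.br (nat_lit 1) (.ch (nat_lit 0) (.ev (nat_lit 1280) (nat_lit 12292) (.ev
 (nat_lit 1293) (nat_lit 32) .dd))) (.ch (nat_lit 1) (.ev (nat_lit 1892) (nat_lit 32) (.ev (nat_lit 5792)
 (nat_lit 8192) (.ev (nat_lit 6740) (nat_lit 4096) (.ev (nat_lit 6749) (nat_lit 4) .dd)))))) (.br (nat_lit 4)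
 (.ch (nat_lit 2) (.nd (nat_lit 3984) (.br (nat_lit 7) (.br (nat_lit 5) (.br (nat_lit 2) (.ch (nat_lit 1) (.ev
 (nat_lit 4000) (nat_lit 4) (.ev (nat_lit 5408) (nat_lit 4096) (.ev (nat_lit 5604) (nat_lit 32) (.ev (nat_lit
 5613) (nat_lit 8192) .dd))))) (.ch (nat_lit 2) (.ev (nat_lit 4000) (nat_lit 32) (.ev (nat_lit 5140) (nat_lit
 4096) (.ev (nat_lit 6452) (nat_lit 4) (.ev (nat_lit 6461) (nat_lit 8192) .dd)))))) (.br (nat_lit 6) (.ch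
 (nat_lit 5) (.ev (nat_lit 4000) (nat_lit 4100) (.ev (nat_lit 6596) (nat_lit 32) (.ev (nat_lit 6605) (nat_lit
 8192) .dd)))) (.ch (nat_lit 6) (.ev (nat_lit 4000) (nat_lit 8224) (.ev (nat_lit 4532) (nat_lit 4096) (.ev
 (nat_lit 4541) (nat_lit 4) .dd)))))) (.br (nat_lit 10) (.br (nat_lit 8) (.ch (nat_lit 7) (.ev (nat_lit 4000)
 (nat_lit 4100) (.ev (nat_lit 5924) (nat_lit 8192) (.ev (nat_lit 5933) (nat_lit 32) .dd)))) (.ch (nat_lit 8)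
 (.ev (nat_lit 4000) (nat_lit 4) (.ev (nat_lit 5044) (nat_lit 32) (.ev (nat_lit 5716) (nat_lit 4096) (.ev
 (nat_lit 5725) (nat_lit 8192) .dd)))))) (.br (nat_lit 11) (.ch (nat_lit 10) (.ev (nat_lit 4000) (nat_lit 4100)
 (.ev (nat_lit 5876) (nat_lit 8192) (.ev (nat_lit 5885) (nat_lit 32) .dd)))) (.ch (nat_lit 11) (.ev (nat_lit
 4000) (nat_lit 8224) (.ev (nat_lit 4692) (nat_lit 4096) (.ev (nat_lit 4701) (nat_lit 4) .dd))))))))) (.ch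
 (nat_lit 4) (.ev (nat_lit 1280) (nat_lit 32) (.nd (nat_lit 3984) (.br (nat_lit 8) (.br (nat_lit 3) (.ch
 (nat_lit 0) (.ev (nat_lit 4000) (nat_lit 4) (.ev (nat_lit 4788) (nat_lit 4096) (.ev (nat_lit 4797) (nat_lit
 8192) .dd)))) (.br (nat_lit 7) (.ch (nat_lit 3) (.ev (nat_lit 4000) (nat_lit 12288) (.ev (nat_lit 4013)
 (nat_lit 4) .dd))) (.ch (nat_lit 7) (.ev (nat_lit 4852) (nat_lit 8192) (.ev (nat_lit 6020) (nat_lit 4096) (.ev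
 (nat_lit 6029) (nat_lit 4) .dd)))))) (.br (nat_lit 10) (.ch (nat_lit 8) (.ev (nat_lit 4000) (nat_lit 4) (.ev
 (nat_lit 5844) (nat_lit 4096) (.ev (nat_lit 5853) (nat_lit 8192) .dd)))) (.br (nat_lit 12) (.ch (nat_lit 10)
 (.nd (nat_lit 7952) (.br (nat_lit 4) (.ch (nat_lit 1) (.ev (nat_lit 7968) (nat_lit 4096) (.fin (nat_lit
 576578949929714478)))) (.ch (nat_lit 4) (.ev (nat_lit 7968) (nat_lit 4) (.fin (nat_lit
 576342554785038848))))))) (.ch (nat_lit 12) (.ev (nat_lit 4000) (nat_lit 4) (.ev (nat_lit 6128) (nat_lit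
 12288) .dd))))))))))) (.br (nat_lit 9) (.br (nat_lit 7) (.ch (nat_lit 6) (.nd (nat_lit 3984) (.br (nat_lit 8)
 (.br (nat_lit 2) (.ch (nat_lit 1) (.ev (nat_lit 4000) (nat_lit 12288) (.ev (nat_lit 4020) (nat_lit 4) (.ev
 (nat_lit 4029) (nat_lit 32) .dd)))) (.br (nat_lit 3) (.ch (nat_lit 2) (.ev (nat_lit 4000) (nat_lit 8192) (.ev
 (nat_lit 4388) (nat_lit 32) (.ev (nat_lit 4996) (nat_lit 4096) (.ev (nat_lit 5005) (nat_lit 4) .dd))))) (.ch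
 (nat_lit 3) (.ev (nat_lit 4000) (nat_lit 4128) (.ev (nat_lit 4756) (nat_lit 8192) (.ev (nat_lit 4765) (nat_lit
 4) .dd)))))) (.br (nat_lit 10) (.br (nat_lit 9) (.ch (nat_lit 8) (.ev (nat_lit 4000) (nat_lit 8192) (.ev
 (nat_lit 5188) (nat_lit 4) (.ev (nat_lit 5876) (nat_lit 4096) (.ev (nat_lit 5885) (nat_lit 32) .dd))))) (.ch
 (nat_lit 9) (.ev (nat_lit 4000) (nat_lit 4100) (.ev (nat_lit 5492) (nat_lit 8192) (.ev (nat_lit 5501) (nat_lit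
 32) .dd))))) (.br (nat_lit 12) (.ch (nat_lit 10) (.ev (nat_lit 4000) (nat_lit 4100) (.ev (nat_lit 5044)
 (nat_lit 8192) (.ev (nat_lit 5053) (nat_lit 32) .dd)))) (.ch (nat_lit 12) (.ev (nat_lit 4000) (nat_lit 12288)
 (.ev (nat_lit 4020) (nat_lit 4) (.ev (nat_lit 4029) (nat_lit 32) .dd))))))))) (.ch (nat_lit 7) (.ev (nat_lit
 1280) (nat_lit 32) (.ev (nat_lit 1908) (nat_lit 4) (.ev (nat_lit 6452) (nat_lit 8192) (.ev (nat_lit 6461)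
 (nat_lit 4096) .dd)))))) (.br (nat_lit 10) (.ch (nat_lit 9) (.ev (nat_lit 1280) (nat_lit 12288) (.ev (nat_lit
 1344) (nat_lit 36) .dd))) (.ch (nat_lit 10) (.ev (nat_lit 1280) (nat_lit 12292) (.ev (nat_lit 1293) (nat_lit
 32) .dd)))))))))) (.br (nat_lit 8) (.br (nat_lit 7) (.ch (nat_lit 6) (.ev (nat_lit 592) (nat_lit 4100) (.ev
 (nat_lit 708) (nat_lit 8192) (.ev (nat_lit 717) (nat_lit 32) .dd)))) (.ch (nat_lit 7) (.nd (nat_lit 1264) (.br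
 (nat_lit 6) (.br (nat_lit 1) (.ch (nat_lit 0) (.ev (nat_lit 2788) (nat_lit 4096) (.nd (nat_lit 4304) (.br
 (nat_lit 3) (.br (nat_lit 1) (.ch (nat_lit 0) (.ev (nat_lit 4320) (nat_lit 8196) (.ev (nat_lit 4333) (nat_lit
 32) .dd))) (.ch (nat_lit 1) (.ev (nat_lit 4320) (nat_lit 8192) (.fin (nat_lit 576477794723643985))))) (.br
 (nat_lit 7) (.ch (nat_lit 3) (.ev (nat_lit 4320) (nat_lit 36) (.ev (nat_lit 4333) (nat_lit 8192) .dd))) (.br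
 (nat_lit 8) (.ch (nat_lit 7) (.ev (nat_lit 4320) (nat_lit 8196) (.ev (nat_lit 4333) (nat_lit 32) .dd))) (.ch
 (nat_lit 8) (.ev (nat_lit 5844) (nat_lit 32) (.ev (nat_lit 6336) (nat_lit 8192) (.ev (nat_lit 6349) (nat_lit
 4) .dd)))))))))) (.br (nat_lit 4) (.ch (nat_lit 1) (.ev (nat_lit 1280) (nat_lit 4) (.nd (nat_lit 4864) (.br
 (nat_lit 6) (.br (nat_lit 4) (.ch (nat_lit 1) (.ev (nat_lit 4880) (nat_lit 4096) (.ev (nat_lit 6964) (nat_lit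
 32) (.ev (nat_lit 6973) (nat_lit 8192) .dd)))) (.ch (nat_lit 4) (.ev (nat_lit 4880) (nat_lit 8192) (.ev
 (nat_lit 6464) (nat_lit 4128) .dd)))) (.br (nat_lit 10) (.ch (nat_lit 6) (.ev (nat_lit 4880) (nat_lit 4096)
 (.ev (nat_lit 5456) (nat_lit 8224) .dd))) (.ch (nat_lit 10) (.ev (nat_lit 4880) (nat_lit 32) (.ev (nat_lit
 6368) (nat_lit 12288) .dd)))))))) (.ch (nat_lit 4) (.ev (nat_lit 1280) (nat_lit 4096) (.ev (nat_lit 2244)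
 (nat_lit 4) (.ev (nat_lit 6452) (nat_lit 8192) (.ev (nat_lit 6461) (nat_lit 32) .dd))))))) (.br (nat_lit 9)
 (.br (nat_lit 7) (.ch (nat_lit 6) (.ev (nat_lit 1280) (nat_lit 32) (.ev (nat_lit 1620) (nat_lit 8192) (.ev
 (nat_lit 3792) (nat_lit 4) (.ev (nat_lit 3805) (nat_lit 4096) .dd))))) (.ch (nat_lit 7) (.ev (nat_lit 1280)
 (nat_lit 4096) (.nd (nat_lit 3984) (.br (nat_lit 8) (.br (nat_lit 6) (.ch (nat_lit 5) (.ev (nat_lit 6868)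
 (nat_lit 32) (.nd (nat_lit 8368) (.br (nat_lit 8) (.ch (nat_lit 3) (.fin (nat_lit 576451406477083240))) (.ch
 (nat_lit 8) (.ev (nat_lit 8384) (nat_lit 8192) (.ev (nat_lit 8397) (nat_lit 4) .dd))))))) (.ch (nat_lit 6)
 (.ev (nat_lit 4000) (nat_lit 4) (.ev (nat_lit 4756) (nat_lit 32) (.ev (nat_lit 4765) (nat_lit 8192) .dd)))))
 (.br (nat_lit 10) (.ch (nat_lit 8) (.ev (nat_lit 4000) (nat_lit 4) (.ev (nat_lit 5540) (nat_lit 8192) (.ev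
 (nat_lit 5549) (nat_lit 32) .dd)))) (.ch (nat_lit 10) (.ev (nat_lit 4000) (nat_lit 32) (.ev (nat_lit 4404)
 (nat_lit 8192) (.ev (nat_lit 4413) (nat_lit 4) .dd)))))))))) (.br (nat_lit 11) (.ch (nat_lit 9) (.ev (nat_lit
 1280) (nat_lit 32) (.ev (nat_lit 2868) (nat_lit 4) (.ev (nat_lit 6900) (nat_lit 4096) (.ev (nat_lit 6909)
 (nat_lit 8192) .dd))))) (.ch (nat_lit 11) (.ev (nat_lit 1280) (nat_lit 8196) (.ev (nat_lit 7028) (nat_lit 32)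
 (.ev (nat_lit 7037) (nat_lit 4096) .dd)))))))))) (.br (nat_lit 10) (.ch (nat_lit 8) (.ev (nat_lit 592)
 (nat_lit 4) (.ev (nat_lit 660) (nat_lit 32) (.nd (nat_lit 1456) (.br (nat_lit 6) (.br (nat_lit 4) (.ch
 (nat_lit 0) (.ev (nat_lit 6692) (nat_lit 8192) (.ev (nat_lit 6701) (nat_lit 4096) .dd))) (.br (nat_lit 5) (.ch
 (nat_lit 4) (.ev (nat_lit 4644) (nat_lit 8192) (.ev (nat_lit 4653) (nat_lit 4096) .dd))) (.ch (nat_lit 5) (.nd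
 (nat_lit 4304) (.br (nat_lit 10) (.ch (nat_lit 3) (.ev (nat_lit 4996) (nat_lit 4096) (.ev (nat_lit 5005)
 (nat_lit 8192) .dd))) (.br (nat_lit 11) (.ch (nat_lit 10) (.ev (nat_lit 4644) (nat_lit 8192) (.ev (nat_lit
 4653) (nat_lit 4096) .dd))) (.ch (nat_lit 11) (.ev (nat_lit 4320) (nat_lit 4096) (.ev (nat_lit 4333) (nat_lit
 8192) .dd))))))))) (.br (nat_lit 7) (.ch (nat_lit 6) (.ev (nat_lit 7156) (nat_lit 8192) (.ev (nat_lit 7165)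
 (nat_lit 4096) .dd))) (.br (nat_lit 9) (.ch (nat_lit 7) (.ev (nat_lit 1472) (nat_lit 8192) (.ev (nat_lit 1485)
 (nat_lit 4096) .dd))) (.ch (nat_lit 9) (.ev (nat_lit 1472) (nat_lit 8192) (.ev (nat_lit 1485) (nat_lit 4096)
 .dd)))))))))) (.br (nat_lit 11) (.ch (nat_lit 10) (.ev (nat_lit 592) (nat_lit 12292) (.ev (nat_lit 605)
 (nat_lit 32) .dd))) (.ch (nat_lit 11) (.ev (nat_lit 592) (nat_lit 8224) (.nd (nat_lit 1840) (.br (nat_lit 4)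
 (.br (nat_lit 2) (.ch (nat_lit 1) (.ev (nat_lit 2196) (nat_lit 4) (.ev (nat_lit 2205) (nat_lit 4096) .dd)))
 (.ch (nat_lit 2) (.ev (nat_lit 2068) (nat_lit 4) (.ev (nat_lit 2077) (nat_lit 4096) .dd)))) (.br (nat_lit 7)
 (.ch (nat_lit 4) (.ev (nat_lit 3284) (nat_lit 4096) (.ev (nat_lit 3293) (nat_lit 4) .dd))) (.ch (nat_lit 7)
 (.ev (nat_lit 3504) (nat_lit 4100) .dd)))))))))))))) (.ch (nat_lit 4) (.ev (nat_lit 176) (nat_lit 12288) (.nd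
 (nat_lit 880) (.br (nat_lit 5) (.br (nat_lit 2) (.ch (nat_lit 1) (.ev (nat_lit 896) (nat_lit 68) (.ev (nat_lit
 909) (nat_lit 32) .dd))) (.br (nat_lit 3) (.ch (nat_lit 2) (.ev (nat_lit 896) (nat_lit 36) (.ev (nat_lit 909)
 (nat_lit 64) .dd))) (.ch (nat_lit 3) (.ev (nat_lit 1300) (nat_lit 64) (.nd (nat_lit 1968) (.br (nat_lit 8)
 (.br (nat_lit 2) (.ch (nat_lit 0) (.ev (nat_lit 2004) (nat_lit 32) (.ev (nat_lit 2013) (nat_lit 4) .dd))) (.br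
 (nat_lit 4) (.ch (nat_lit 2) (.ev (nat_lit 1984) (nat_lit 32) (.ev (nat_lit 1997) (nat_lit 4) .dd))) (.ch
 (nat_lit 4) (.ev (nat_lit 5552) (nat_lit 32) (.ev (nat_lit 5565) (nat_lit 4) .dd))))) (.br (nat_lit 10) (.ch
 (nat_lit 8) (.ev (nat_lit 1984) (nat_lit 4) (.ev (nat_lit 1997) (nat_lit 32) .dd))) (.br (nat_lit 11) (.ch
 (nat_lit 10) (.ev (nat_lit 6500) (nat_lit 32) (.ev (nat_lit 6509) (nat_lit 4) .dd))) (.ch (nat_lit 11) (.ev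
 (nat_lit 1984) (nat_lit 4) (.ev (nat_lit 1997) (nat_lit 32) .dd))))))))))) (.br (nat_lit 9) (.br (nat_lit 7)
 (.ch (nat_lit 5) (.nd (nat_lit 1968) (.br (nat_lit 5) (.br (nat_lit 1) (.ch (nat_lit 0) (.ev (nat_lit 1984)
 (nat_lit 64) (.ev (nat_lit 2868) (nat_lit 32) (.ev (nat_lit 2877) (nat_lit 4) .dd)))) (.br (nat_lit 3) (.ch
 (nat_lit 1) (.ev (nat_lit 2868) (nat_lit 32) (.ev (nat_lit 3540) (nat_lit 64) (.ev (nat_lit 3549) (nat_lit 4)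
 .dd)))) (.ch (nat_lit 3) (.ev (nat_lit 1984) (nat_lit 68) (.ev (nat_lit 1997) (nat_lit 32) .dd))))) (.br
 (nat_lit 8) (.br (nat_lit 7) (.ch (nat_lit 5) (.ev (nat_lit 3540) (nat_lit 64) (.ev (nat_lit 5844) (nat_lit
 32) (.ev (nat_lit 5853) (nat_lit 4) .dd)))) (.ch (nat_lit 7) (.ev (nat_lit 1984) (nat_lit 36) (.ev (nat_lit
 1997) (nat_lit 64) .dd)))) (.br (nat_lit 10) (.ch (nat_lit 8) (.ev (nat_lit 1984) (nat_lit 36) (.ev (nat_lit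
 1997) (nat_lit 64) .dd))) (.ch (nat_lit 10) (.ev (nat_lit 2004) (nat_lit 4) (.ev (nat_lit 2180) (nat_lit 32)
 (.ev (nat_lit 2189) (nat_lit 64) .dd))))))))) (.ch (nat_lit 7) (.ev (nat_lit 896) (nat_lit 32) (.nd (nat_lit
 1744) (.br (nat_lit 8) (.br (nat_lit 7) (.ch (nat_lit 0) (.ev (nat_lit 2372) (nat_lit 64) (.ev (nat_lit 2381)
 (nat_lit 4) .dd))) (.ch (nat_lit 7) (.ev (nat_lit 2372) (nat_lit 64) (.ev (nat_lit 2381) (nat_lit 4) .dd))))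
 (.br (nat_lit 10) (.ch (nat_lit 8) (.ev (nat_lit 5140) (nat_lit 64) (.ev (nat_lit 5149) (nat_lit 4) .dd)))
 (.ch (nat_lit 10) (.ev (nat_lit 6148) (nat_lit 64) (.ev (nat_lit 6157) (nat_lit 4) .dd))))))))) (.br (nat_lit
 12) (.ch (nat_lit 9) (.ev (nat_lit 896) (nat_lit 64) (.nd (nat_lit 1744) (.br (nat_lit 11) (.br (nat_lit 4)
 (.ch (nat_lit 0) (.ev (nat_lit 1760) (nat_lit 32) (.ev (nat_lit 1773) (nat_lit 4) .dd))) (.ch (nat_lit 4) (.ev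
 (nat_lit 3604) (nat_lit 32) (.ev (nat_lit 3613) (nat_lit 4) .dd)))) (.br (nat_lit 12) (.ch (nat_lit 11) (.ev
 (nat_lit 1760) (nat_lit 32) (.ev (nat_lit 1773) (nat_lit 4) .dd))) (.ch (nat_lit 12) (.ev (nat_lit 3540)
 (nat_lit 32) (.ev (nat_lit 3549) (nat_lit 4) .dd)))))))) (.ch (nat_lit 12) (.ev (nat_lit 896) (nat_lit 32)
 (.nd (nat_lit 2128) (.br (nat_lit 10) (.br (nat_lit 5) (.ch (nat_lit 3) (.ev (nat_lit 2676) (nat_lit 64) (.ev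
 (nat_lit 2685) (nat_lit 4) .dd))) (.br (nat_lit 6) (.ch (nat_lit 5) (.ev (nat_lit 2144) (nat_lit 4) (.ev
 (nat_lit 2157) (nat_lit 64) .dd))) (.ch (nat_lit 6) (.ev (nat_lit 2144) (nat_lit 64) (.ev (nat_lit 2157)
 (nat_lit 4) .dd))))) (.br (nat_lit 11) (.ch (nat_lit 10) (.ev (nat_lit 2676) (nat_lit 64) (.ev (nat_lit 2685)
 (nat_lit 4) .dd))) (.br (nat_lit 12) (.ch (nat_lit 11) (.ev (nat_lit 5444) (nat_lit 4) (.ev (nat_lit 5453)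
 (nat_lit 64) .dd))) (.ch (nat_lit 12) (.ev (nat_lit 2676) (nat_lit 64) (.ev (nat_lit 2685) (nat_lit 4)
 .dd))))))))))))))))) (.br (nat_lit 8) (.br (nat_lit 6) (.ch (nat_lit 5) (.nd (nat_lit 576) (.br (nat_lit 6)
 (.br (nat_lit 3) (.br (nat_lit 2) (.ch (nat_lit 1) (.ev (nat_lit 592) (nat_lit 4164) (.nd (nat_lit 3408) (.br
 (nat_lit 10) (.br (nat_lit 8) (.ch (nat_lit 7) (.ev (nat_lit 3424) (nat_lit 32) (.ev (nat_lit 3437) (nat_lit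
 8192) .dd))) (.br (nat_lit 9) (.ch (nat_lit 8) (.ev (nat_lit 3652) (nat_lit 32) (.ev (nat_lit 3661) (nat_lit
 8192) .dd))) (.ch (nat_lit 9) (.ev (nat_lit 3424) (nat_lit 32) (.ev (nat_lit 3437) (nat_lit 8192) .dd)))))
 (.br (nat_lit 11) (.ch (nat_lit 10) (.ev (nat_lit 3424) (nat_lit 8192) (.ev (nat_lit 3437) (nat_lit 32) .dd)))
 (.br (nat_lit 12) (.ch (nat_lit 11) (.ev (nat_lit 3424) (nat_lit 32) (.ev (nat_lit 3437) (nat_lit 8192) .dd)))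
 (.ch (nat_lit 12) (.ev (nat_lit 3424) (nat_lit 32) (.ev (nat_lit 3437) (nat_lit 8192) .dd))))))))) (.ch
 (nat_lit 2) (.ev (nat_lit 660) (nat_lit 4096) (.ev (nat_lit 1220) (nat_lit 8192) (.nd (nat_lit 2624) (.br
 (nat_lit 6) (.br (nat_lit 3) (.br (nat_lit 2) (.ch (nat_lit 1) (.ev (nat_lit 2640) (nat_lit 100) .dd)) (.ch
 (nat_lit 2) (.ev (nat_lit 2640) (nat_lit 100) .dd))) (.br (nat_lit 4) (.ch (nat_lit 3) (.ev (nat_lit 2640)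
 (nat_lit 36) (.ev (nat_lit 2653) (nat_lit 64) .dd))) (.ch (nat_lit 4) (.ev (nat_lit 3476) (nat_lit 64) (.ev
 (nat_lit 3892) (nat_lit 4) (.ev (nat_lit 3901) (nat_lit 32) .dd)))))) (.br (nat_lit 9) (.br (nat_lit 8) (.ch
 (nat_lit 6) (.ev (nat_lit 2640) (nat_lit 32) (.ev (nat_lit 3764) (nat_lit 64) (.ev (nat_lit 3773) (nat_lit 4)
 .dd)))) (.ch (nat_lit 8) (.ev (nat_lit 2676) (nat_lit 32) (.ev (nat_lit 3476) (nat_lit 64) (.ev (nat_lit 3485)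
 (nat_lit 4) .dd))))) (.br (nat_lit 10) (.ch (nat_lit 9) (.ev (nat_lit 2640) (nat_lit 4) (.ev (nat_lit 2676)
 (nat_lit 32) (.ev (nat_lit 2685) (nat_lit 64) .dd)))) (.br (nat_lit 12) (.ch (nat_lit 10) (.ev (nat_lit 2640)
 (nat_lit 100) .dd)) (.ch (nat_lit 12) (.ev (nat_lit 2640) (nat_lit 4) (.ev (nat_lit 2676) (nat_lit 32) (.ev
 (nat_lit 2685) (nat_lit 64) .dd))))))))))))) (.br (nat_lit 4) (.ch (nat_lit 3) (.ev (nat_lit 592) (nat_lit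
 8224) (.ev (nat_lit 820) (nat_lit 64) (.nd (nat_lit 2336) (.br (nat_lit 7) (.br (nat_lit 3) (.br (nat_lit 1)
 (.ch (nat_lit 0) (.ev (nat_lit 2352) (nat_lit 4096) (.ev (nat_lit 2365) (nat_lit 4) .dd))) (.ch (nat_lit 1)
 (.ev (nat_lit 2820) (nat_lit 4096) (.ev (nat_lit 2829) (nat_lit 4) .dd)))) (.br (nat_lit 4) (.ch (nat_lit 3)
 (.ev (nat_lit 2352) (nat_lit 4100) .dd)) (.ch (nat_lit 4) (.ev (nat_lit 2352) (nat_lit 4) (.ev (nat_lit 2365)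
 (nat_lit 4096) .dd))))) (.br (nat_lit 9) (.br (nat_lit 8) (.ch (nat_lit 7) (.ev (nat_lit 2352) (nat_lit 4)
 (.ev (nat_lit 2365) (nat_lit 4096) .dd))) (.ch (nat_lit 8) (.ev (nat_lit 2820) (nat_lit 4096) (.ev (nat_lit
 2829) (nat_lit 4) .dd)))) (.br (nat_lit 11) (.ch (nat_lit 9) (.ev (nat_lit 2676) (nat_lit 4) (.ev (nat_lit
 2685) (nat_lit 4096) .dd))) (.ch (nat_lit 11) (.ev (nat_lit 2352) (nat_lit 4096) (.ev (nat_lit 2365) (nat_lit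
 4) .dd)))))))))) (.ch (nat_lit 4) (.ev (nat_lit 592) (nat_lit 8192) (.ev (nat_lit 820) (nat_lit 64) (.nd
 (nat_lit 1552) (.br (nat_lit 7) (.br (nat_lit 5) (.br (nat_lit 3) (.ch (nat_lit 2) (.ev (nat_lit 1568)
 (nat_lit 4096) (.ev (nat_lit 3604) (nat_lit 4) (.ev (nat_lit 3613) (nat_lit 32) .dd)))) (.ch (nat_lit 3) (.ev
 (nat_lit 1568) (nat_lit 4096) (.ev (nat_lit 2224) (nat_lit 32) (.ev (nat_lit 2237) (nat_lit 4) .dd))))) (.br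
 (nat_lit 6) (.ch (nat_lit 5) (.ev (nat_lit 5188) (nat_lit 32) (.ev (nat_lit 5668) (nat_lit 4096) (.ev (nat_lit
 5677) (nat_lit 4) .dd)))) (.ch (nat_lit 6) (.ev (nat_lit 1568) (nat_lit 36) (.ev (nat_lit 1581) (nat_lit 4096)
 .dd))))) (.br (nat_lit 9) (.br (nat_lit 8) (.ch (nat_lit 7) (.ev (nat_lit 3604) (nat_lit 32) (.nd (nat_lit
 7488) (.br (nat_lit 8) (.ch (nat_lit 2) (.ev (nat_lit 7504) (nat_lit 4100) .dd)) (.ch (nat_lit 8) (.fin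
 (nat_lit 576055581787767272))))))) (.ch (nat_lit 8) (.ev (nat_lit 1568) (nat_lit 4096) (.ev (nat_lit 5300)
 (nat_lit 4) (.ev (nat_lit 5309) (nat_lit 32) .dd))))) (.br (nat_lit 11) (.ch (nat_lit 9) (.ev (nat_lit 1568)
 (nat_lit 32) (.ev (nat_lit 1604) (nat_lit 4096) (.ev (nat_lit 1613) (nat_lit 4) .dd)))) (.br (nat_lit 12) (.ch
 (nat_lit 11) (.ev (nat_lit 1568) (nat_lit 4) (.ev (nat_lit 4148) (nat_lit 32) (.ev (nat_lit 4157) (nat_lit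
 4096) .dd)))) (.ch (nat_lit 12) (.ev (nat_lit 1568) (nat_lit 36) (.ev (nat_lit 1581) (nat_lit 4096)
 .dd))))))))))))) (.br (nat_lit 9) (.br (nat_lit 8) (.ch (nat_lit 6) (.ev (nat_lit 592) (nat_lit 100) (.ev
 (nat_lit 3140) (nat_lit 4096) (.ev (nat_lit 3149) (nat_lit 8192) .dd)))) (.ch (nat_lit 8) (.ev (nat_lit 820)
 (nat_lit 64) (.ev (nat_lit 1140) (nat_lit 8192) (.nd (nat_lit 1968) (.br (nat_lit 7) (.br (nat_lit 4) (.br
 (nat_lit 2) (.ch (nat_lit 1) (.ev (nat_lit 1984) (nat_lit 4100) (.ev (nat_lit 1997) (nat_lit 32) .dd))) (.ch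
 (nat_lit 2) (.ev (nat_lit 1984) (nat_lit 36) (.ev (nat_lit 1997) (nat_lit 4096) .dd)))) (.br (nat_lit 5) (.ch
 (nat_lit 4) (.ev (nat_lit 1984) (nat_lit 32) (.ev (nat_lit 6148) (nat_lit 4) (.ev (nat_lit 6157) (nat_lit
 4096) .dd)))) (.ch (nat_lit 5) (.ev (nat_lit 3844) (nat_lit 32) (.ev (nat_lit 5520) (nat_lit 4) (.ev (nat_lit
 5533) (nat_lit 4096) .dd)))))) (.br (nat_lit 9) (.br (nat_lit 8) (.ch (nat_lit 7) (.ev (nat_lit 3284) (nat_lit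
 32) (.ev (nat_lit 4116) (nat_lit 4096) (.ev (nat_lit 4125) (nat_lit 4) .dd)))) (.ch (nat_lit 8) (.ev (nat_lit
 1984) (nat_lit 4100) (.ev (nat_lit 1997) (nat_lit 32) .dd)))) (.br (nat_lit 10) (.ch (nat_lit 9) (.ev (nat_lit
 1984) (nat_lit 36) (.ev (nat_lit 1997) (nat_lit 4096) .dd))) (.ch (nat_lit 10) (.ev (nat_lit 2068) (nat_lit
 32) (.ev (nat_lit 4052) (nat_lit 4) (.ev (nat_lit 4061) (nat_lit 4096) .dd)))))))))))) (.br (nat_lit 11) (.ch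
 (nat_lit 9) (.ev (nat_lit 592) (nat_lit 12292) (.nd (nat_lit 3408) (.br (nat_lit 9) (.ch (nat_lit 5) (.ev
 (nat_lit 6176) (nat_lit 96) .dd)) (.ch (nat_lit 9) (.ev (nat_lit 3476) (nat_lit 64) (.ev (nat_lit 3485)
 (nat_lit 32) .dd))))))) (.br (nat_lit 12) (.ch (nat_lit 11) (.ev (nat_lit 592) (nat_lit 32) (.nd (nat_lit
 2128) (.br (nat_lit 4) (.br (nat_lit 2) (.br (nat_lit 1) (.ch (nat_lit 0) (.ev (nat_lit 2144) (nat_lit 4164)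
 (.ev (nat_lit 2157) (nat_lit 8192) .dd))) (.ch (nat_lit 1) (.ev (nat_lit 2144) (nat_lit 12288) (.ev (nat_lit
 2676) (nat_lit 4) (.ev (nat_lit 2685) (nat_lit 64) .dd))))) (.br (nat_lit 3) (.ch (nat_lit 2) (.ev (nat_lit
 2144) (nat_lit 68) (.ev (nat_lit 2800) (nat_lit 12288) .dd))) (.ch (nat_lit 3) (.ev (nat_lit 2144) (nat_lit
 64) (.ev (nat_lit 2788) (nat_lit 4096) (.ev (nat_lit 3012) (nat_lit 4) (.ev (nat_lit 3021) (nat_lit 8192)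
 .dd))))))) (.br (nat_lit 7) (.br (nat_lit 6) (.ch (nat_lit 4) (.ev (nat_lit 2144) (nat_lit 8196) (.ev (nat_lit
 2164) (nat_lit 64) (.ev (nat_lit 2173) (nat_lit 4096) .dd)))) (.ch (nat_lit 6) (.ev (nat_lit 2144) (nat_lit
 8192) (.ev (nat_lit 2164) (nat_lit 64) (.ev (nat_lit 3012) (nat_lit 4) (.ev (nat_lit 3021) (nat_lit 4096)
 .dd)))))) (.br (nat_lit 8) (.ch (nat_lit 7) (.ev (nat_lit 2144) (nat_lit 12292) (.ev (nat_lit 2157) (nat_lit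
 64) .dd))) (.br (nat_lit 9) (.ch (nat_lit 8) (.ev (nat_lit 2144) (nat_lit 8192) (.ev (nat_lit 3012) (nat_lit
 4) (.ev (nat_lit 6500) (nat_lit 4096) (.ev (nat_lit 6509) (nat_lit 64) .dd))))) (.ch (nat_lit 9) (.ev (nat_lit
 2144) (nat_lit 64) (.ev (nat_lit 2868) (nat_lit 4096) (.ev (nat_lit 3012) (nat_lit 4) (.ev (nat_lit 3021)
 (nat_lit 8192) .dd)))))))))))) (.ch (nat_lit 12) (.ev (nat_lit 592) (nat_lit 12352) (.nd (nat_lit 2624) (.br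
 (nat_lit 8) (.br (nat_lit 5) (.ch (nat_lit 0) (.ev (nat_lit 2640) (nat_lit 32) (.ev (nat_lit 2653) (nat_lit 4)
 .dd))) (.br (nat_lit 7) (.ch (nat_lit 5) (.ev (nat_lit 3764) (nat_lit 4) (.ev (nat_lit 3773) (nat_lit 32)
 .dd))) (.ch (nat_lit 7) (.ev (nat_lit 2640) (nat_lit 32) (.ev (nat_lit 2653) (nat_lit 4) .dd))))) (.br
 (nat_lit 9) (.ch (nat_lit 8) (.ev (nat_lit 2640) (nat_lit 4) (.ev (nat_lit 2653) (nat_lit 32) .dd))) (.br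
 (nat_lit 10) (.ch (nat_lit 9) (.ev (nat_lit 2640) (nat_lit 4) (.ev (nat_lit 2653) (nat_lit 32) .dd))) (.ch
 (nat_lit 10) (.ev (nat_lit 3012) (nat_lit 32) (.ev (nat_lit 3021) (nat_lit 4) .dd))))))))))))))) (.ch (nat_lit
 6) (.nd (nat_lit 624) (.br (nat_lit 4) (.br (nat_lit 2) (.br (nat_lit 1) (.ch (nat_lit 0) (.ev (nat_lit 640)
 (nat_lit 8192) (.nd (nat_lit 1408) (.br (nat_lit 5) (.br (nat_lit 3) (.br (nat_lit 2) (.ch (nat_lit 0) (.ev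
 (nat_lit 2180) (nat_lit 4) (.ev (nat_lit 4084) (nat_lit 64) (.ev (nat_lit 6868) (nat_lit 32) (.ev (nat_lit
 6877) (nat_lit 4096) .dd))))) (.ch (nat_lit 2) (.ev (nat_lit 1424) (nat_lit 100) (.ev (nat_lit 1437) (nat_lit
 4096) .dd)))) (.br (nat_lit 4) (.ch (nat_lit 3) (.ev (nat_lit 1424) (nat_lit 96) (.ev (nat_lit 2036) (nat_lit
 4) (.ev (nat_lit 2045) (nat_lit 4096) .dd)))) (.ch (nat_lit 4) (.ev (nat_lit 1424) (nat_lit 4132) (.ev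
 (nat_lit 1437) (nat_lit 64) .dd))))) (.br (nat_lit 8) (.br (nat_lit 7) (.ch (nat_lit 5) (.ev (nat_lit 1424)
 (nat_lit 4164) (.ev (nat_lit 1437) (nat_lit 32) .dd))) (.ch (nat_lit 7) (.ev (nat_lit 2820) (nat_lit 64) (.ev
 (nat_lit 3140) (nat_lit 32) (.ev (nat_lit 3152) (nat_lit 4) (.ev (nat_lit 3165) (nat_lit 4096) .dd)))))) (.br
 (nat_lit 9) (.ch (nat_lit 8) (.ev (nat_lit 2420) (nat_lit 4) (.ev (nat_lit 4084) (nat_lit 64) (.ev (nat_lit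
 6452) (nat_lit 32) (.ev (nat_lit 6461) (nat_lit 4096) .dd))))) (.ch (nat_lit 9) (.ev (nat_lit 1424) (nat_lit
 32) (.ev (nat_lit 2372) (nat_lit 64) (.ev (nat_lit 3076) (nat_lit 4) (.ev (nat_lit 3085) (nat_lit 4096)
 .dd))))))))))) (.ch (nat_lit 1) (.ev (nat_lit 640) (nat_lit 8224) (.ev (nat_lit 1204) (nat_lit 64) (.nd
 (nat_lit 2336) (.br (nat_lit 8) (.br (nat_lit 3) (.ch (nat_lit 1) (.ev (nat_lit 2352) (nat_lit 4) (.ev
 (nat_lit 2365) (nat_lit 4096) .dd))) (.br (nat_lit 7) (.ch (nat_lit 3) (.ev (nat_lit 2352) (nat_lit 4096) (.ev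
 (nat_lit 2365) (nat_lit 4) .dd))) (.ch (nat_lit 7) (.ev (nat_lit 2352) (nat_lit 4096) (.ev (nat_lit 2365)
 (nat_lit 4) .dd))))) (.br (nat_lit 9) (.ch (nat_lit 8) (.ev (nat_lit 2352) (nat_lit 4) (.ev (nat_lit 2365)
 (nat_lit 4096) .dd))) (.br (nat_lit 11) (.ch (nat_lit 9) (.ev (nat_lit 3440) (nat_lit 4100) .dd)) (.ch
 (nat_lit 11) (.ev (nat_lit 2352) (nat_lit 4) (.ev (nat_lit 2365) (nat_lit 4096) .dd))))))))))) (.br (nat_lit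
 3) (.ch (nat_lit 2) (.ev (nat_lit 640) (nat_lit 12288) (.ev (nat_lit 1364) (nat_lit 64) (.nd (nat_lit 2624)
 (.br (nat_lit 5) (.br (nat_lit 3) (.br (nat_lit 1) (.ch (nat_lit 0) (.ev (nat_lit 2640) (nat_lit 32) (.ev
 (nat_lit 2653) (nat_lit 4) .dd))) (.ch (nat_lit 1) (.ev (nat_lit 2676) (nat_lit 32) (.ev (nat_lit 2685)
 (nat_lit 4) .dd)))) (.br (nat_lit 4) (.ch (nat_lit 3) (.ev (nat_lit 2640) (nat_lit 32) (.ev (nat_lit 2653)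
 (nat_lit 4) .dd))) (.ch (nat_lit 4) (.ev (nat_lit 2640) (nat_lit 4) (.ev (nat_lit 2653) (nat_lit 32) .dd)))))
 (.br (nat_lit 7) (.br (nat_lit 6) (.ch (nat_lit 5) (.ev (nat_lit 2752) (nat_lit 4) (.ev (nat_lit 2765)
 (nat_lit 32) .dd))) (.ch (nat_lit 6) (.ev (nat_lit 2640) (nat_lit 32) (.ev (nat_lit 2653) (nat_lit 4) .dd))))
 (.br (nat_lit 9) (.ch (nat_lit 7) (.ev (nat_lit 2640) (nat_lit 4) (.ev (nat_lit 2653) (nat_lit 32) .dd))) (.br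
 (nat_lit 10) (.ch (nat_lit 9) (.ev (nat_lit 2640) (nat_lit 4) (.ev (nat_lit 2653) (nat_lit 32) .dd))) (.ch
 (nat_lit 10) (.ev (nat_lit 2640) (nat_lit 4) (.ev (nat_lit 2653) (nat_lit 32) .dd))))))))))) (.ch (nat_lit 3)
 (.ev (nat_lit 640) (nat_lit 4100) (.ev (nat_lit 1204) (nat_lit 64) (.nd (nat_lit 2128) (.br (nat_lit 9) (.br
 (nat_lit 3) (.ch (nat_lit 0) (.ev (nat_lit 2144) (nat_lit 8192) (.ev (nat_lit 2157) (nat_lit 32) .dd))) (.br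
 (nat_lit 5) (.ch (nat_lit 3) (.ev (nat_lit 2144) (nat_lit 8224) .dd)) (.ch (nat_lit 5) (.ev (nat_lit 2740)
 (nat_lit 8192) (.ev (nat_lit 2749) (nat_lit 32) .dd))))) (.br (nat_lit 11) (.br (nat_lit 10) (.ch (nat_lit 9)
 (.ev (nat_lit 2144) (nat_lit 32) (.ev (nat_lit 2157) (nat_lit 8192) .dd))) (.ch (nat_lit 10) (.ev (nat_lit
 2144) (nat_lit 32) (.ev (nat_lit 2157) (nat_lit 8192) .dd)))) (.br (nat_lit 12) (.ch (nat_lit 11) (.fin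
 (nat_lit 576451406464500278))) (.ch (nat_lit 12) (.ev (nat_lit 2144) (nat_lit 8192) (.ev (nat_lit 2157)
 (nat_lit 32) .dd)))))))))))) (.br (nat_lit 8) (.br (nat_lit 5) (.ch (nat_lit 4) (.ev (nat_lit 640) (nat_lit
 4192) (.nd (nat_lit 2128) (.br (nat_lit 5) (.br (nat_lit 2) (.br (nat_lit 1) (.ch (nat_lit 0) (.ev (nat_lit
 2144) (nat_lit 4) (.ev (nat_lit 2157) (nat_lit 8192) .dd))) (.ch (nat_lit 1) (.ev (nat_lit 2144) (nat_lit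
 8196) .dd))) (.br (nat_lit 4) (.ch (nat_lit 2) (.ev (nat_lit 2144) (nat_lit 8192) (.ev (nat_lit 2157) (nat_lit
 4) .dd))) (.ch (nat_lit 4) (.ev (nat_lit 2144) (nat_lit 4) (.ev (nat_lit 2157) (nat_lit 8192) .dd))))) (.br
 (nat_lit 11) (.br (nat_lit 7) (.ch (nat_lit 5) (.ev (nat_lit 2144) (nat_lit 4) (.ev (nat_lit 2157) (nat_lit
 8192) .dd))) (.ch (nat_lit 7) (.ev (nat_lit 2868) (nat_lit 8192) (.ev (nat_lit 2877) (nat_lit 4) .dd)))) (.br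
 (nat_lit 12) (.ch (nat_lit 11) (.ev (nat_lit 2868) (nat_lit 8192) (.ev (nat_lit 2877) (nat_lit 4) .dd))) (.ch
 (nat_lit 12) (.ev (nat_lit 2144) (nat_lit 4) (.ev (nat_lit 2157) (nat_lit 8192) .dd))))))))) (.ch (nat_lit 5)
 (.nd (nat_lit 1408) (.br (nat_lit 6) (.br (nat_lit 4) (.br (nat_lit 2) (.ch (nat_lit 0) (.ev (nat_lit 1424)
 (nat_lit 12288) (.ev (nat_lit 2676) (nat_lit 4) (.ev (nat_lit 3908) (nat_lit 64) (.ev (nat_lit 3917) (nat_lit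
 32) .dd))))) (.ch (nat_lit 2) (.ev (nat_lit 1424) (nat_lit 8292) (.ev (nat_lit 1437) (nat_lit 4096) .dd))))
 (.br (nat_lit 5) (.ch (nat_lit 4) (.ev (nat_lit 1424) (nat_lit 12320) (.ev (nat_lit 2676) (nat_lit 4) (.ev
 (nat_lit 2685) (nat_lit 64) .dd)))) (.ch (nat_lit 5) (.ev (nat_lit 1424) (nat_lit 4) (.ev (nat_lit 3764)
 (nat_lit 8192) (.ev (nat_lit 3908) (nat_lit 64) (.ev (nat_lit 6560) (nat_lit 4096) (.ev (nat_lit 6573)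
 (nat_lit 32) .dd)))))))) (.br (nat_lit 9) (.br (nat_lit 7) (.ch (nat_lit 6) (.ev (nat_lit 1424) (nat_lit
 12288) (.ev (nat_lit 2676) (nat_lit 4) (.ev (nat_lit 3540) (nat_lit 32) (.ev (nat_lit 3549) (nat_lit 64)
 .dd))))) (.ch (nat_lit 7) (.ev (nat_lit 1424) (nat_lit 8224) (.ev (nat_lit 3476) (nat_lit 64) (.fin (nat_lit
 576470098138055111)))))) (.br (nat_lit 10) (.ch (nat_lit 9) (.ev (nat_lit 1424) (nat_lit 4192) (.ev (nat_lit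
 2740) (nat_lit 4) (.ev (nat_lit 2749) (nat_lit 8192) .dd)))) (.br (nat_lit 12) (.ch (nat_lit 10) (.ev (nat_lit
 1424) (nat_lit 8228) (.ev (nat_lit 2948) (nat_lit 4096) (.ev (nat_lit 2957) (nat_lit 64) .dd)))) (.ch (nat_lit
 12) (.ev (nat_lit 1424) (nat_lit 4196) (.ev (nat_lit 1437) (nat_lit 8192) .dd)))))))))) (.br (nat_lit 9) (.ch
 (nat_lit 8) (.ev (nat_lit 640) (nat_lit 4164) (.nd (nat_lit 2128) (.br (nat_lit 6) (.br (nat_lit 2) (.ch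
 (nat_lit 1) (.ev (nat_lit 2144) (nat_lit 8192) (.ev (nat_lit 2157) (nat_lit 32) .dd))) (.br (nat_lit 5) (.ch
 (nat_lit 2) (.ev (nat_lit 3616) (nat_lit 8224) .dd)) (.ch (nat_lit 5) (.ev (nat_lit 2144) (nat_lit 32) (.ev
 (nat_lit 2157) (nat_lit 8192) .dd))))) (.br (nat_lit 10) (.ch (nat_lit 6) (.ev (nat_lit 2144) (nat_lit 32)
 (.ev (nat_lit 2157) (nat_lit 8192) .dd))) (.br (nat_lit 11) (.ch (nat_lit 10) (.ev (nat_lit 2164) (nat_lit 32)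
 (.ev (nat_lit 2173) (nat_lit 8192) .dd))) (.ch (nat_lit 11) (.ev (nat_lit 2144) (nat_lit 32) (.ev (nat_lit
 2157) (nat_lit 8192) .dd))))))))) (.br (nat_lit 12) (.ch (nat_lit 9) (.ev (nat_lit 640) (nat_lit 8196) (.nd
 (nat_lit 1744) (.br (nat_lit 7) (.br (nat_lit 3) (.ch (nat_lit 2) (.ev (nat_lit 1760) (nat_lit 64) (.ev
 (nat_lit 2036) (nat_lit 32) (.ev (nat_lit 2045) (nat_lit 4096) .dd)))) (.br (nat_lit 6) (.ch (nat_lit 3) (.ev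
 (nat_lit 1760) (nat_lit 4160) (.ev (nat_lit 1773) (nat_lit 32) .dd))) (.ch (nat_lit 6) (.ev (nat_lit 1760)
 (nat_lit 32) (.ev (nat_lit 2084) (nat_lit 4096) (.ev (nat_lit 2093) (nat_lit 64) .dd)))))) (.br (nat_lit 10)
 (.br (nat_lit 9) (.ch (nat_lit 7) (.ev (nat_lit 1760) (nat_lit 4160) (.ev (nat_lit 1773) (nat_lit 32) .dd)))
 (.ch (nat_lit 9) (.ev (nat_lit 1760) (nat_lit 4096) (.ev (nat_lit 2004) (nat_lit 32) (.ev (nat_lit 2013)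
 (nat_lit 64) .dd))))) (.br (nat_lit 11) (.ch (nat_lit 10) (.ev (nat_lit 1760) (nat_lit 64) (.ev (nat_lit 2004)
 (nat_lit 32) (.ev (nat_lit 2013) (nat_lit 4096) .dd)))) (.ch (nat_lit 11) (.ev (nat_lit 1760) (nat_lit 32)
 (.ev (nat_lit 3252) (nat_lit 64) (.ev (nat_lit 3261) (nat_lit 4096) .dd)))))))))) (.ch (nat_lit 12) (.ev
 (nat_lit 640) (nat_lit 96) (.nd (nat_lit 1408) (.br (nat_lit 7) (.br (nat_lit 5) (.br (nat_lit 3) (.ch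
 (nat_lit 2) (.ev (nat_lit 1424) (nat_lit 4100) (.ev (nat_lit 1437) (nat_lit 8192) .dd))) (.ch (nat_lit 3) (.ev
 (nat_lit 1424) (nat_lit 8192) (.ev (nat_lit 3012) (nat_lit 4) (.ev (nat_lit 3021) (nat_lit 4096) .dd))))) (.br
 (nat_lit 6) (.ch (nat_lit 5) (.ev (nat_lit 1424) (nat_lit 4096) (.fin (nat_lit 576473396691812934)))) (.ch
 (nat_lit 6) (.ev (nat_lit 1424) (nat_lit 12288) (.ev (nat_lit 1437) (nat_lit 4) .dd))))) (.br (nat_lit 10)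
 (.br (nat_lit 8) (.ch (nat_lit 7) (.ev (nat_lit 1424) (nat_lit 4) (.ev (nat_lit 2820) (nat_lit 8192) (.ev
 (nat_lit 2829) (nat_lit 4096) .dd)))) (.ch (nat_lit 8) (.ev (nat_lit 2740) (nat_lit 4) (.ev (nat_lit 2820)
 (nat_lit 8192) (.ev (nat_lit 2829) (nat_lit 4096) .dd))))) (.br (nat_lit 12) (.ch (nat_lit 10) (.ev (nat_lit
 1424) (nat_lit 4100) (.ev (nat_lit 1437) (nat_lit 8192) .dd))) (.ch (nat_lit 12) (.ev (nat_lit 1424) (nat_lit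
 12288) (.ev (nat_lit 1437) (nat_lit 4) .dd)))))))))))))))) (.br (nat_lit 10) (.ch (nat_lit 8) (.ev (nat_lit
 176) (nat_lit 8224) (.nd (nat_lit 1168) (.br (nat_lit 7) (.br (nat_lit 4) (.ch (nat_lit 3) (.ev (nat_lit 1184)
 (nat_lit 4096) (.ev (nat_lit 1300) (nat_lit 64) (.ev (nat_lit 1309) (nat_lit 4) .dd)))) (.br (nat_lit 6) (.ch
 (nat_lit 4) (.ev (nat_lit 1184) (nat_lit 64) (.nd (nat_lit 2624) (.br (nat_lit 4) (.br (nat_lit 3) (.ch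
 (nat_lit 1) (.ev (nat_lit 6020) (nat_lit 4096) (.ev (nat_lit 6029) (nat_lit 4) .dd))) (.ch (nat_lit 3) (.ev
 (nat_lit 2676) (nat_lit 4096) (.ev (nat_lit 2685) (nat_lit 4) .dd)))) (.br (nat_lit 11) (.ch (nat_lit 4) (.ev
 (nat_lit 3200) (nat_lit 4100) .dd)) (.ch (nat_lit 11) (.ev (nat_lit 4020) (nat_lit 4) (.ev (nat_lit 4029)
 (nat_lit 4096) .dd)))))))) (.ch (nat_lit 6) (.ev (nat_lit 1184) (nat_lit 4096) (.nd (nat_lit 2624) (.br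
 (nat_lit 5) (.ch (nat_lit 4) (.ev (nat_lit 3476) (nat_lit 64) (.ev (nat_lit 3485) (nat_lit 4) .dd))) (.br
 (nat_lit 12) (.ch (nat_lit 5) (.ev (nat_lit 3476) (nat_lit 64) (.ev (nat_lit 3485) (nat_lit 4) .dd))) (.ch
 (nat_lit 12) (.ev (nat_lit 2788) (nat_lit 4) (.ev (nat_lit 2797) (nat_lit 64) .dd)))))))))) (.br (nat_lit 10)
 (.br (nat_lit 9) (.ch (nat_lit 7) (.ev (nat_lit 1184) (nat_lit 4) (.ev (nat_lit 2740) (nat_lit 4096) (.ev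
 (nat_lit 2749) (nat_lit 64) .dd)))) (.ch (nat_lit 9) (.ev (nat_lit 1184) (nat_lit 4) (.ev (nat_lit 2676)
 (nat_lit 64) (.ev (nat_lit 2685) (nat_lit 4096) .dd))))) (.br (nat_lit 11) (.ch (nat_lit 10) (.nd (nat_lit
 2624) (.br (nat_lit 7) (.br (nat_lit 3) (.ch (nat_lit 0) (.ev (nat_lit 2640) (nat_lit 64) (.ev (nat_lit 3540)
 (nat_lit 4) (.ev (nat_lit 3549) (nat_lit 4096) .dd)))) (.ch (nat_lit 3) (.ev (nat_lit 2640) (nat_lit 4) (.ev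
 (nat_lit 6176) (nat_lit 4160) .dd)))) (.br (nat_lit 9) (.ch (nat_lit 7) (.ev (nat_lit 2640) (nat_lit 4096)
 (.ev (nat_lit 6020) (nat_lit 4) (.ev (nat_lit 6029) (nat_lit 64) .dd)))) (.ch (nat_lit 9) (.ev (nat_lit 2640)
 (nat_lit 4) (.ev (nat_lit 3540) (nat_lit 64) (.ev (nat_lit 3549) (nat_lit 4096) .dd)))))))) (.ch (nat_lit 11)
 (.nd (nat_lit 2336) (.br (nat_lit 5) (.br (nat_lit 1) (.ch (nat_lit 0) (.ev (nat_lit 2788) (nat_lit 64) (.ev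
 (nat_lit 6356) (nat_lit 4) (.ev (nat_lit 6365) (nat_lit 4096) .dd)))) (.br (nat_lit 2) (.ch (nat_lit 1) (.ev
 (nat_lit 2352) (nat_lit 64) (.ev (nat_lit 2372) (nat_lit 4096) (.ev (nat_lit 2381) (nat_lit 4) .dd)))) (.ch
 (nat_lit 2) (.ev (nat_lit 2352) (nat_lit 4096) (.fin (nat_lit 576377739247305284)))))) (.br (nat_lit 8) (.ch
 (nat_lit 5) (.ev (nat_lit 2420) (nat_lit 4) (.ev (nat_lit 3220) (nat_lit 4096) (.ev (nat_lit 3229) (nat_lit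
 64) .dd)))) (.br (nat_lit 12) (.ch (nat_lit 8) (.ev (nat_lit 2352) (nat_lit 64) (.ev (nat_lit 6692) (nat_lit
 4) (.ev (nat_lit 6701) (nat_lit 4096) .dd)))) (.ch (nat_lit 12) (.nd (nat_lit 4224) (.br (nat_lit 8) (.br
 (nat_lit 6) (.ch (nat_lit 2) (.ev (nat_lit 4240) (nat_lit 4) (.ev (nat_lit 5668) (nat_lit 4096) (.ev (nat_lit
 5677) (nat_lit 64) .dd)))) (.ch (nat_lit 6) (.ev (nat_lit 4240) (nat_lit 4096) (.ev (nat_lit 6260) (nat_lit 4)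
 (.ev (nat_lit 6269) (nat_lit 64) .dd))))) (.br (nat_lit 9) (.ch (nat_lit 8) (.ev (nat_lit 5056) (nat_lit 4096)
 (.ev (nat_lit 6260) (nat_lit 4) (.ev (nat_lit 6269) (nat_lit 64) .dd)))) (.ch (nat_lit 9) (.ev (nat_lit 4240)
 (nat_lit 4) (.ev (nat_lit 5668) (nat_lit 4096) (.ev (nat_lit 5677) (nat_lit 64) .dd))))))))))))))))))) (.br
 (nat_lit 12) (.ch (nat_lit 10) (.ev (nat_lit 176) (nat_lit 4132) (.nd (nat_lit 1264) (.br (nat_lit 8) (.br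
 (nat_lit 5) (.br (nat_lit 4) (.ch (nat_lit 2) (.ev (nat_lit 1280) (nat_lit 64) (.ev (nat_lit 1293) (nat_lit
 8192) .dd))) (.ch (nat_lit 4) (.ev (nat_lit 1280) (nat_lit 64) (.ev (nat_lit 1293) (nat_lit 8192) .dd)))) (.br
 (nat_lit 6) (.ch (nat_lit 5) (.fin (nat_lit 576459103032263261))) (.ch (nat_lit 6) (.ev (nat_lit 1380)
 (nat_lit 8192) (.ev (nat_lit 1389) (nat_lit 64) .dd))))) (.br (nat_lit 10) (.br (nat_lit 9) (.ch (nat_lit 8)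
 (.ev (nat_lit 1280) (nat_lit 8192) (.ev (nat_lit 1293) (nat_lit 64) .dd))) (.ch (nat_lit 9) (.ev (nat_lit
 1280) (nat_lit 8256) .dd))) (.br (nat_lit 11) (.ch (nat_lit 10) (.ev (nat_lit 1300) (nat_lit 64) (.ev (nat_lit
 1309) (nat_lit 8192) .dd))) (.br (nat_lit 12) (.ch (nat_lit 11) (.ev (nat_lit 1280) (nat_lit 8256) .dd)) (.ch
 (nat_lit 12) (.ev (nat_lit 1364) (nat_lit 8192) (.ev (nat_lit 1373) (nat_lit 64) .dd)))))))))) (.ch (nat_lit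
 12) (.ev (nat_lit 176) (nat_lit 12388) .dd))))))))))) (.br (nat_lit 9) (.br (nat_lit 8) (.ch (nat_lit 6) (.ev
 (nat_lit 48) (nat_lit 4196) (.nd (nat_lit 576) (.br (nat_lit 5) (.br (nat_lit 3) (.br (nat_lit 1) (.ch
 (nat_lit 0) (.nd (nat_lit 1264) (.br (nat_lit 4) (.br (nat_lit 2) (.ch (nat_lit 0) (.nd (nat_lit 3984) (.br
 (nat_lit 4) (.br (nat_lit 3) (.ch (nat_lit 1) (.fin (nat_lit 576452505985565230))) (.ch (nat_lit 3) (.ev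
 (nat_lit 4000) (nat_lit 40960) .dd))) (.br (nat_lit 11) (.ch (nat_lit 4) (.ev (nat_lit 4000) (nat_lit 8192)
 (.ev (nat_lit 4013) (nat_lit 32768) .dd))) (.br (nat_lit 12) (.ch (nat_lit 11) (.ev (nat_lit 4000) (nat_lit
 8192) (.ev (nat_lit 4013) (nat_lit 32768) .dd))) (.ch (nat_lit 12) (.ev (nat_lit 4000) (nat_lit 8192) (.ev
 (nat_lit 4013) (nat_lit 32768) .dd)))))))) (.br (nat_lit 3) (.ch (nat_lit 2) (.ev (nat_lit 1280) (nat_lit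
 40960) .dd)) (.ch (nat_lit 3) (.ev (nat_lit 1280) (nat_lit 8192) (.ev (nat_lit 1293) (nat_lit 32768) .dd)))))
 (.br (nat_lit 7) (.br (nat_lit 6) (.ch (nat_lit 4) (.ev (nat_lit 1280) (nat_lit 32768) (.ev (nat_lit 1293)
 (nat_lit 8192) .dd))) (.ch (nat_lit 6) (.ev (nat_lit 3188) (nat_lit 8192) (.ev (nat_lit 3197) (nat_lit 32768)
 .dd)))) (.br (nat_lit 9) (.ch (nat_lit 7) (.ev (nat_lit 1364) (nat_lit 32768) (.ev (nat_lit 1373) (nat_lit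
 8192) .dd))) (.ch (nat_lit 9) (.ev (nat_lit 1300) (nat_lit 32768) (.ev (nat_lit 1309) (nat_lit 8192)
 .dd)))))))) (.ch (nat_lit 1) (.ev (nat_lit 592) (nat_lit 32768) (.ev (nat_lit 605) (nat_lit 8192) .dd)))) (.br
 (nat_lit 4) (.ch (nat_lit 3) (.ev (nat_lit 592) (nat_lit 8192) (.ev (nat_lit 605) (nat_lit 32768) .dd))) (.ch
 (nat_lit 4) (.ev (nat_lit 592) (nat_lit 40960) .dd)))) (.br (nat_lit 8) (.br (nat_lit 7) (.ch (nat_lit 5) (.ev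
 (nat_lit 592) (nat_lit 32768) (.ev (nat_lit 605) (nat_lit 8192) .dd))) (.ch (nat_lit 7) (.nd (nat_lit 1264)
 (.br (nat_lit 5) (.br (nat_lit 2) (.br (nat_lit 1) (.ch (nat_lit 0) (.ev (nat_lit 1280) (nat_lit 8192) (.ev
 (nat_lit 1293) (nat_lit 32768) .dd))) (.ch (nat_lit 1) (.nd (nat_lit 3408) (.br (nat_lit 6) (.br (nat_lit 4)
 (.ch (nat_lit 3) (.ev (nat_lit 3476) (nat_lit 32768) (.ev (nat_lit 3485) (nat_lit 8192) .dd))) (.ch (nat_lit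
 4) (.ev (nat_lit 3424) (nat_lit 8192) (.ev (nat_lit 3437) (nat_lit 32768) .dd)))) (.br (nat_lit 8) (.ch
 (nat_lit 6) (.ev (nat_lit 4052) (nat_lit 8192) (.ev (nat_lit 4061) (nat_lit 32768) .dd))) (.ch (nat_lit 8)
 (.ev (nat_lit 3424) (nat_lit 8192) (.ev (nat_lit 3437) (nat_lit 32768) .dd)))))))) (.br (nat_lit 4) (.ch
 (nat_lit 2) (.ev (nat_lit 1280) (nat_lit 32768) (.ev (nat_lit 1293) (nat_lit 8192) .dd))) (.ch (nat_lit 4)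
 (.ev (nat_lit 1280) (nat_lit 40960) .dd)))) (.br (nat_lit 9) (.br (nat_lit 8) (.ch (nat_lit 5) (.ev (nat_lit
 1280) (nat_lit 8192) (.ev (nat_lit 1293) (nat_lit 32768) .dd))) (.ch (nat_lit 8) (.ev (nat_lit 1280) (nat_lit
 40960) .dd))) (.br (nat_lit 11) (.ch (nat_lit 9) (.nd (nat_lit 3984) (.br (nat_lit 4) (.ch (nat_lit 0) (.ev
 (nat_lit 4000) (nat_lit 8192) (.ev (nat_lit 4013) (nat_lit 32768) .dd))) (.br (nat_lit 12) (.ch (nat_lit 4)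
 (.ev (nat_lit 4000) (nat_lit 32768) (.ev (nat_lit 4013) (nat_lit 8192) .dd))) (.ch (nat_lit 12) (.fin (nat_lit
 576463501074580027))))))) (.br (nat_lit 12) (.ch (nat_lit 11) (.ev (nat_lit 1280) (nat_lit 40960) .dd)) (.ch
 (nat_lit 12) (.ev (nat_lit 1300) (nat_lit 32768) (.ev (nat_lit 1309) (nat_lit 8192) .dd)))))))))) (.br
 (nat_lit 10) (.ch (nat_lit 8) (.ev (nat_lit 592) (nat_lit 40960) .dd)) (.br (nat_lit 12) (.ch (nat_lit 10)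
 (.nd (nat_lit 1264) (.br (nat_lit 9) (.br (nat_lit 3) (.br (nat_lit 2) (.ch (nat_lit 1) (.ev (nat_lit 1280)
 (nat_lit 40960) .dd)) (.ch (nat_lit 2) (.ev (nat_lit 1280) (nat_lit 8192) (.ev (nat_lit 1293) (nat_lit 32768)
 .dd)))) (.br (nat_lit 7) (.ch (nat_lit 3) (.ev (nat_lit 3844) (nat_lit 32768) (.ev (nat_lit 3853) (nat_lit
 8192) .dd))) (.ch (nat_lit 7) (.ev (nat_lit 1280) (nat_lit 32768) (.ev (nat_lit 1293) (nat_lit 8192) .dd)))))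
 (.br (nat_lit 11) (.br (nat_lit 10) (.ch (nat_lit 9) (.nd (nat_lit 3408) (.br (nat_lit 2) (.br (nat_lit 1)
 (.ch (nat_lit 0) (.ev (nat_lit 3424) (nat_lit 8192) (.ev (nat_lit 3437) (nat_lit 32768) .dd))) (.ch (nat_lit
 1) (.ev (nat_lit 3552) (nat_lit 8192) (.ev (nat_lit 3565) (nat_lit 32768) .dd)))) (.br (nat_lit 3) (.ch
 (nat_lit 2) (.ev (nat_lit 3700) (nat_lit 8192) (.ev (nat_lit 3709) (nat_lit 32768) .dd))) (.br (nat_lit 11)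
 (.ch (nat_lit 3) (.ev (nat_lit 3424) (nat_lit 8192) (.ev (nat_lit 3437) (nat_lit 32768) .dd))) (.ch (nat_lit
 11) (.ev (nat_lit 3476) (nat_lit 32768) (.ev (nat_lit 3485) (nat_lit 8192) .dd)))))))) (.ch (nat_lit 10) (.ev
 (nat_lit 3604) (nat_lit 8192) (.ev (nat_lit 3613) (nat_lit 32768) .dd)))) (.br (nat_lit 12) (.ch (nat_lit 11)
 (.nd (nat_lit 3408) (.br (nat_lit 5) (.br (nat_lit 4) (.ch (nat_lit 1) (.ev (nat_lit 6500) (nat_lit 32768)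
 (.ev (nat_lit 6509) (nat_lit 8192) .dd))) (.ch (nat_lit 4) (.ev (nat_lit 3424) (nat_lit 8192) (.ev (nat_lit
 3437) (nat_lit 32768) .dd)))) (.br (nat_lit 7) (.ch (nat_lit 5) (.ev (nat_lit 3476) (nat_lit 8192) (.ev
 (nat_lit 3485) (nat_lit 32768) .dd))) (.ch (nat_lit 7) (.ev (nat_lit 6020) (nat_lit 32768) (.ev (nat_lit 6029)
 (nat_lit 8192) .dd))))))) (.ch (nat_lit 12) (.ev (nat_lit 1280) (nat_lit 32768) (.ev (nat_lit 1293) (nat_lit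
 8192) .dd)))))))) (.ch (nat_lit 12) (.nd (nat_lit 1264) (.br (nat_lit 7) (.br (nat_lit 3) (.ch (nat_lit 2)
 (.ev (nat_lit 1280) (nat_lit 8192) (.ev (nat_lit 1293) (nat_lit 32768) .dd))) (.br (nat_lit 5) (.ch (nat_lit
 3) (.ev (nat_lit 1300) (nat_lit 8192) (.ev (nat_lit 1309) (nat_lit 32768) .dd))) (.ch (nat_lit 5) (.ev
 (nat_lit 1280) (nat_lit 8192) (.ev (nat_lit 1293) (nat_lit 32768) .dd))))) (.br (nat_lit 9) (.br (nat_lit 8)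
 (.ch (nat_lit 7) (.ev (nat_lit 1280) (nat_lit 32768) (.ev (nat_lit 1293) (nat_lit 8192) .dd))) (.ch (nat_lit
 8) (.ev (nat_lit 1280) (nat_lit 32768) (.ev (nat_lit 1293) (nat_lit 8192) .dd)))) (.br (nat_lit 12) (.ch
 (nat_lit 9) (.nd (nat_lit 2624) (.br (nat_lit 7) (.br (nat_lit 3) (.ch (nat_lit 0) (.ev (nat_lit 2640)
 (nat_lit 8192) (.ev (nat_lit 2653) (nat_lit 32768) .dd))) (.br (nat_lit 6) (.ch (nat_lit 3) (.ev (nat_lit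
 6148) (nat_lit 32768) (.ev (nat_lit 6157) (nat_lit 8192) .dd))) (.ch (nat_lit 6) (.ev (nat_lit 2640) (nat_lit
 32768) (.ev (nat_lit 2653) (nat_lit 8192) .dd))))) (.br (nat_lit 9) (.ch (nat_lit 7) (.ev (nat_lit 3652)
 (nat_lit 32768) (.ev (nat_lit 3661) (nat_lit 8192) .dd))) (.br (nat_lit 10) (.ch (nat_lit 9) (.ev (nat_lit
 2640) (nat_lit 32768) (.ev (nat_lit 2653) (nat_lit 8192) .dd))) (.ch (nat_lit 10) (.ev (nat_lit 2640) (nat_lit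
 8192) (.ev (nat_lit 2653) (nat_lit 32768) .dd)))))))) (.ch (nat_lit 12) (.nd (nat_lit 3408) (.br (nat_lit 11)
 (.ch (nat_lit 1) (.ev (nat_lit 6452) (nat_lit 8192) (.ev (nat_lit 6461) (nat_lit 32768) .dd))) (.ch (nat_lit
 11) (.fin (nat_lit 576474496163594824)))))))))))))))))) (.ch (nat_lit 8) (.ev (nat_lit 48) (nat_lit 32772)
 (.nd (nat_lit 352) (.br (nat_lit 6) (.br (nat_lit 2) (.br (nat_lit 1) (.ch (nat_lit 0) (.ev (nat_lit 368)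
 (nat_lit 32) (.nd (nat_lit 944) (.br (nat_lit 6) (.br (nat_lit 4) (.br (nat_lit 1) (.ch (nat_lit 0) (.ev
 (nat_lit 960) (nat_lit 64) (.nd (nat_lit 1648) (.br (nat_lit 5) (.br (nat_lit 1) (.ch (nat_lit 0) (.ev
 (nat_lit 6596) (nat_lit 4096) (.ev (nat_lit 6605) (nat_lit 8192) .dd))) (.br (nat_lit 4) (.ch (nat_lit 1) (.ev
 (nat_lit 1664) (nat_lit 8192) (.ev (nat_lit 1677) (nat_lit 4096) .dd))) (.ch (nat_lit 4) (.ev (nat_lit 5876)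
 (nat_lit 8192) (.ev (nat_lit 5885) (nat_lit 4096) .dd))))) (.br (nat_lit 10) (.br (nat_lit 9) (.ch (nat_lit 5)
 (.ev (nat_lit 1664) (nat_lit 4096) (.ev (nat_lit 1677) (nat_lit 8192) .dd))) (.ch (nat_lit 9) (.ev (nat_lit
 1664) (nat_lit 8192) (.ev (nat_lit 1677) (nat_lit 4096) .dd)))) (.br (nat_lit 11) (.ch (nat_lit 10) (.ev
 (nat_lit 1664) (nat_lit 4096) (.ev (nat_lit 1677) (nat_lit 8192) .dd))) (.ch (nat_lit 11) (.ev (nat_lit 6260)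
 (nat_lit 4096) (.ev (nat_lit 6269) (nat_lit 8192) .dd))))))))) (.ch (nat_lit 1) (.ev (nat_lit 960) (nat_lit
 64) (.nd (nat_lit 1408) (.br (nat_lit 6) (.br (nat_lit 1) (.ch (nat_lit 0) (.nd (nat_lit 4592) (.br (nat_lit
 6) (.br (nat_lit 3) (.ch (nat_lit 2) (.ev (nat_lit 4608) (nat_lit 8192) (.ev (nat_lit 4621) (nat_lit 4096)
 .dd))) (.ch (nat_lit 3) (.ev (nat_lit 6260) (nat_lit 8192) (.ev (nat_lit 6269) (nat_lit 4096) .dd)))) (.br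
 (nat_lit 8) (.ch (nat_lit 6) (.ev (nat_lit 4608) (nat_lit 12288) .dd)) (.ch (nat_lit 8) (.ev (nat_lit 4608)
 (nat_lit 8192) (.ev (nat_lit 4621) (nat_lit 4096) .dd))))))) (.br (nat_lit 2) (.ch (nat_lit 1) (.ev (nat_lit
 1424) (nat_lit 8192) (.ev (nat_lit 1437) (nat_lit 4096) .dd))) (.ch (nat_lit 2) (.ev (nat_lit 1424) (nat_lit
 4096) (.ev (nat_lit 1437) (nat_lit 8192) .dd))))) (.br (nat_lit 10) (.br (nat_lit 7) (.ch (nat_lit 6) (.ev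
 (nat_lit 1424) (nat_lit 8192) (.ev (nat_lit 1437) (nat_lit 4096) .dd))) (.ch (nat_lit 7) (.ev (nat_lit 2676)
 (nat_lit 8192) (.ev (nat_lit 2685) (nat_lit 4096) .dd)))) (.br (nat_lit 11) (.ch (nat_lit 10) (.ev (nat_lit
 1424) (nat_lit 4096) (.ev (nat_lit 1437) (nat_lit 8192) .dd))) (.ch (nat_lit 11) (.ev (nat_lit 2676) (nat_lit
 8192) (.ev (nat_lit 2685) (nat_lit 4096) .dd)))))))))) (.br (nat_lit 5) (.ch (nat_lit 4) (.ev (nat_lit 960)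
 (nat_lit 4096) (.nd (nat_lit 3408) (.br (nat_lit 6) (.br (nat_lit 2) (.br (nat_lit 1) (.ch (nat_lit 0) (.ev
 (nat_lit 3476) (nat_lit 64) (.ev (nat_lit 3485) (nat_lit 8192) .dd))) (.ch (nat_lit 1) (.ev (nat_lit 3424)
 (nat_lit 64) (.ev (nat_lit 3437) (nat_lit 8192) .dd)))) (.br (nat_lit 4) (.ch (nat_lit 2) (.ev (nat_lit 3476)
 (nat_lit 64) (.ev (nat_lit 3485) (nat_lit 8192) .dd))) (.ch (nat_lit 4) (.ev (nat_lit 3424) (nat_lit 8256)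
 .dd)))) (.br (nat_lit 9) (.br (nat_lit 7) (.ch (nat_lit 6) (.ev (nat_lit 3476) (nat_lit 64) (.ev (nat_lit
 3485) (nat_lit 8192) .dd))) (.ch (nat_lit 7) (.ev (nat_lit 3424) (nat_lit 64) (.ev (nat_lit 3437) (nat_lit
 8192) .dd)))) (.br (nat_lit 10) (.ch (nat_lit 9) (.ev (nat_lit 3424) (nat_lit 8256) .dd)) (.ch (nat_lit 10)
 (.ev (nat_lit 3424) (nat_lit 8192) (.ev (nat_lit 3437) (nat_lit 64) .dd))))))))) (.ch (nat_lit 5) (.ev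
 (nat_lit 960) (nat_lit 8192) (.ev (nat_lit 1204) (nat_lit 64) (.ev (nat_lit 1213) (nat_lit 4096) .dd))))))
 (.br (nat_lit 8) (.br (nat_lit 7) (.ch (nat_lit 6) (.ev (nat_lit 960) (nat_lit 4160) (.ev (nat_lit 973)
 (nat_lit 8192) .dd))) (.ch (nat_lit 7) (.nd (nat_lit 1968) (.br (nat_lit 7) (.br (nat_lit 4) (.br (nat_lit 1)
 (.ch (nat_lit 0) (.ev (nat_lit 1984) (nat_lit 64) (.ev (nat_lit 3044) (nat_lit 4096) (.ev (nat_lit 3053)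
 (nat_lit 8192) .dd)))) (.ch (nat_lit 1) (.ev (nat_lit 1984) (nat_lit 8256) (.ev (nat_lit 1997) (nat_lit 4096)
 .dd)))) (.br (nat_lit 5) (.ch (nat_lit 4) (.ev (nat_lit 1984) (nat_lit 4096) (.ev (nat_lit 5188) (nat_lit 64)
 (.ev (nat_lit 5197) (nat_lit 8192) .dd)))) (.ch (nat_lit 5) (.ev (nat_lit 3540) (nat_lit 8192) (.ev (nat_lit
 3764) (nat_lit 64) (.ev (nat_lit 3773) (nat_lit 4096) .dd)))))) (.br (nat_lit 9) (.br (nat_lit 8) (.ch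
 (nat_lit 7) (.ev (nat_lit 1984) (nat_lit 4096) (.ev (nat_lit 3540) (nat_lit 64) (.ev (nat_lit 3549) (nat_lit
 8192) .dd)))) (.ch (nat_lit 8) (.ev (nat_lit 1984) (nat_lit 8256) (.ev (nat_lit 1997) (nat_lit 4096) .dd))))
 (.br (nat_lit 10) (.ch (nat_lit 9) (.ev (nat_lit 2676) (nat_lit 64) (.ev (nat_lit 6356) (nat_lit 4096) (.ev
 (nat_lit 6365) (nat_lit 8192) .dd)))) (.br (nat_lit 11) (.ch (nat_lit 10) (.ev (nat_lit 1984) (nat_lit 4096)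
 (.ev (nat_lit 2676) (nat_lit 64) (.ev (nat_lit 2685) (nat_lit 8192) .dd)))) (.ch (nat_lit 11) (.ev (nat_lit
 1984) (nat_lit 8192) (.ev (nat_lit 3604) (nat_lit 64) (.ev (nat_lit 3613) (nat_lit 4096) .dd))))))))))) (.br
 (nat_lit 9) (.ch (nat_lit 8) (.ev (nat_lit 960) (nat_lit 8256) (.ev (nat_lit 973) (nat_lit 4096) .dd))) (.br
 (nat_lit 10) (.ch (nat_lit 9) (.ev (nat_lit 960) (nat_lit 4096) (.ev (nat_lit 1204) (nat_lit 64) (.ev (nat_lit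
 1213) (nat_lit 8192) .dd)))) (.ch (nat_lit 10) (.ev (nat_lit 960) (nat_lit 8192) (.nd (nat_lit 2336) (.br
 (nat_lit 4) (.br (nat_lit 2) (.ch (nat_lit 1) (.ev (nat_lit 2352) (nat_lit 4096) (.ev (nat_lit 2365) (nat_lit
 64) .dd))) (.br (nat_lit 3) (.ch (nat_lit 2) (.ev (nat_lit 2352) (nat_lit 64) (.ev (nat_lit 2365) (nat_lit
 4096) .dd))) (.ch (nat_lit 3) (.ev (nat_lit 2740) (nat_lit 64) (.ev (nat_lit 2749) (nat_lit 4096) .dd)))))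
 (.br (nat_lit 7) (.ch (nat_lit 4) (.ev (nat_lit 2352) (nat_lit 4096) (.ev (nat_lit 2365) (nat_lit 64) .dd)))
 (.br (nat_lit 10) (.ch (nat_lit 7) (.ev (nat_lit 2352) (nat_lit 64) (.ev (nat_lit 2365) (nat_lit 4096) .dd)))
 (.ch (nat_lit 10) (.ev (nat_lit 2676) (nat_lit 64) (.ev (nat_lit 2685) (nat_lit 4096) .dd)))))))))))))))) (.ch
 (nat_lit 1) (.ev (nat_lit 368) (nat_lit 32) (.nd (nat_lit 944) (.br (nat_lit 4) (.br (nat_lit 2) (.br (nat_lit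
 1) (.ch (nat_lit 0) (.ev (nat_lit 960) (nat_lit 4096) (.ev (nat_lit 1204) (nat_lit 64) (.ev (nat_lit 1213)
 (nat_lit 8192) .dd)))) (.ch (nat_lit 1) (.ev (nat_lit 960) (nat_lit 12352) .dd))) (.br (nat_lit 3) (.ch
 (nat_lit 2) (.ev (nat_lit 960) (nat_lit 8192) (.nd (nat_lit 3408) (.br (nat_lit 7) (.br (nat_lit 2) (.ch
 (nat_lit 0) (.ev (nat_lit 3476) (nat_lit 4096) (.ev (nat_lit 3485) (nat_lit 64) .dd))) (.br (nat_lit 5) (.ch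
 (nat_lit 2) (.ev (nat_lit 3424) (nat_lit 64) (.ev (nat_lit 3437) (nat_lit 4096) .dd))) (.ch (nat_lit 5) (.ev
 (nat_lit 3424) (nat_lit 4160) .dd)))) (.br (nat_lit 8) (.ch (nat_lit 7) (.ev (nat_lit 3476) (nat_lit 64) (.ev
 (nat_lit 3485) (nat_lit 4096) .dd))) (.br (nat_lit 10) (.ch (nat_lit 8) (.ev (nat_lit 3476) (nat_lit 4096)
 (.ev (nat_lit 3485) (nat_lit 64) .dd))) (.ch (nat_lit 10) (.ev (nat_lit 3604) (nat_lit 4096) (.ev (nat_lit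
 3613) (nat_lit 64) .dd))))))))) (.ch (nat_lit 3) (.nd (nat_lit 2336) (.br (nat_lit 6) (.br (nat_lit 3) (.br
 (nat_lit 2) (.ch (nat_lit 1) (.ev (nat_lit 2352) (nat_lit 4096) (.ev (nat_lit 3604) (nat_lit 64) (.ev (nat_lit
 3613) (nat_lit 8192) .dd)))) (.ch (nat_lit 2) (.ev (nat_lit 2352) (nat_lit 8192) (.ev (nat_lit 2676) (nat_lit
 64) (.ev (nat_lit 2685) (nat_lit 4096) .dd))))) (.br (nat_lit 5) (.ch (nat_lit 3) (.ev (nat_lit 2352) (nat_lit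
 64) (.ev (nat_lit 3140) (nat_lit 8192) (.ev (nat_lit 3149) (nat_lit 4096) .dd)))) (.ch (nat_lit 5) (.ev
 (nat_lit 2352) (nat_lit 8192) (.ev (nat_lit 2676) (nat_lit 64) (.ev (nat_lit 2685) (nat_lit 4096) .dd))))))
 (.br (nat_lit 10) (.br (nat_lit 9) (.ch (nat_lit 6) (.ev (nat_lit 2352) (nat_lit 4160) (.ev (nat_lit 2365)
 (nat_lit 8192) .dd))) (.ch (nat_lit 9) (.ev (nat_lit 3700) (nat_lit 4096) (.ev (nat_lit 5572) (nat_lit 8192)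
 (.ev (nat_lit 5581) (nat_lit 64) .dd))))) (.br (nat_lit 11) (.ch (nat_lit 10) (.ev (nat_lit 2676) (nat_lit 64)
 (.ev (nat_lit 3540) (nat_lit 4096) (.ev (nat_lit 3549) (nat_lit 8192) .dd)))) (.ch (nat_lit 11) (.ev (nat_lit
 2352) (nat_lit 8192) (.ev (nat_lit 5140) (nat_lit 4096) (.ev (nat_lit 5149) (nat_lit 64) .dd))))))))))) (.br
 (nat_lit 6) (.br (nat_lit 5) (.ch (nat_lit 4) (.ev (nat_lit 980) (nat_lit 4096) (.ev (nat_lit 1204) (nat_lit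
 64) (.ev (nat_lit 1213) (nat_lit 8192) .dd)))) (.ch (nat_lit 5) (.ev (nat_lit 960) (nat_lit 4096) (.ev
 (nat_lit 1220) (nat_lit 64) (.ev (nat_lit 1229) (nat_lit 8192) .dd))))) (.br (nat_lit 10) (.ch (nat_lit 6)
 (.ev (nat_lit 960) (nat_lit 64) (.nd (nat_lit 2128) (.br (nat_lit 6) (.br (nat_lit 4) (.br (nat_lit 3) (.ch
 (nat_lit 1) (.ev (nat_lit 2144) (nat_lit 8192) (.ev (nat_lit 2157) (nat_lit 4096) .dd))) (.ch (nat_lit 3) (.ev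
 (nat_lit 2144) (nat_lit 4096) (.ev (nat_lit 2157) (nat_lit 8192) .dd)))) (.br (nat_lit 5) (.ch (nat_lit 4)
 (.ev (nat_lit 2144) (nat_lit 4096) (.ev (nat_lit 2157) (nat_lit 8192) .dd))) (.ch (nat_lit 5) (.ev (nat_lit
 2144) (nat_lit 8192) (.ev (nat_lit 2157) (nat_lit 4096) .dd))))) (.br (nat_lit 9) (.br (nat_lit 8) (.ch
 (nat_lit 6) (.ev (nat_lit 2144) (nat_lit 4096) (.ev (nat_lit 2157) (nat_lit 8192) .dd))) (.ch (nat_lit 8) (.ev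
 (nat_lit 2144) (nat_lit 4096) (.ev (nat_lit 2157) (nat_lit 8192) .dd)))) (.br (nat_lit 10) (.ch (nat_lit 9)
 (.ev (nat_lit 6356) (nat_lit 4096) (.ev (nat_lit 6365) (nat_lit 8192) .dd))) (.ch (nat_lit 10) (.ev (nat_lit
 2144) (nat_lit 8192) (.ev (nat_lit 2157) (nat_lit 4096) .dd))))))))) (.br (nat_lit 12) (.ch (nat_lit 10) (.ev
 (nat_lit 960) (nat_lit 64) (.nd (nat_lit 2624) (.br (nat_lit 5) (.br (nat_lit 2) (.br (nat_lit 1) (.ch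
 (nat_lit 0) (.ev (nat_lit 2640) (nat_lit 8192) (.ev (nat_lit 2653) (nat_lit 4096) .dd))) (.ch (nat_lit 1) (.ev
 (nat_lit 2960) (nat_lit 8192) (.ev (nat_lit 2973) (nat_lit 4096) .dd)))) (.br (nat_lit 4) (.ch (nat_lit 2)
 (.ev (nat_lit 2640) (nat_lit 12288) .dd)) (.ch (nat_lit 4) (.ev (nat_lit 2640) (nat_lit 12288) .dd)))) (.br
 (nat_lit 9) (.br (nat_lit 8) (.ch (nat_lit 5) (.ev (nat_lit 2640) (nat_lit 8192) (.ev (nat_lit 2653) (nat_lit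
 4096) .dd))) (.ch (nat_lit 8) (.ev (nat_lit 2676) (nat_lit 4096) (.ev (nat_lit 2685) (nat_lit 8192) .dd))))
 (.br (nat_lit 11) (.ch (nat_lit 9) (.ev (nat_lit 2640) (nat_lit 12288) .dd)) (.br (nat_lit 12) (.ch (nat_lit
 11) (.ev (nat_lit 2640) (nat_lit 4096) (.ev (nat_lit 2653) (nat_lit 8192) .dd))) (.ch (nat_lit 12) (.ev
 (nat_lit 2640) (nat_lit 8192) (.ev (nat_lit 2653) (nat_lit 4096) .dd)))))))))) (.ch (nat_lit 12) (.ev (nat_lit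
 960) (nat_lit 12352) .dd)))))))))) (.br (nat_lit 5) (.ch (nat_lit 2) (.ev (nat_lit 368) (nat_lit 8192) (.nd
 (nat_lit 1008) (.br (nat_lit 6) (.br (nat_lit 3) (.br (nat_lit 2) (.ch (nat_lit 0) (.ev (nat_lit 1024)
 (nat_lit 4096) (.nd (nat_lit 1968) (.br (nat_lit 6) (.br (nat_lit 1) (.ch (nat_lit 0) (.ev (nat_lit 2484)
 (nat_lit 32) (.ev (nat_lit 2493) (nat_lit 64) .dd))) (.br (nat_lit 2) (.ch (nat_lit 1) (.ev (nat_lit 2868)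
 (nat_lit 64) (.ev (nat_lit 2877) (nat_lit 32) .dd))) (.ch (nat_lit 2) (.ev (nat_lit 2004) (nat_lit 32) (.ev
 (nat_lit 2013) (nat_lit 64) .dd))))) (.br (nat_lit 9) (.br (nat_lit 8) (.ch (nat_lit 6) (.ev (nat_lit 6020)
 (nat_lit 32) (.ev (nat_lit 6029) (nat_lit 64) .dd))) (.ch (nat_lit 8) (.ev (nat_lit 1984) (nat_lit 96) .dd)))
 (.br (nat_lit 10) (.ch (nat_lit 9) (.ev (nat_lit 1984) (nat_lit 64) (.ev (nat_lit 1997) (nat_lit 32) .dd)))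
 (.ch (nat_lit 10) (.ev (nat_lit 1984) (nat_lit 32) (.ev (nat_lit 1997) (nat_lit 64) .dd))))))))) (.ch (nat_lit
 2) (.ev (nat_lit 1024) (nat_lit 96) (.ev (nat_lit 1037) (nat_lit 4096) .dd)))) (.br (nat_lit 4) (.ch (nat_lit
 3) (.ev (nat_lit 1024) (nat_lit 96) (.ev (nat_lit 1037) (nat_lit 4096) .dd))) (.ch (nat_lit 4) (.nd (nat_lit
 1456) (.br (nat_lit 7) (.br (nat_lit 5) (.ch (nat_lit 1) (.ev (nat_lit 2372) (nat_lit 4096) (.ev (nat_lit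
 6452) (nat_lit 32) (.ev (nat_lit 6461) (nat_lit 64) .dd)))) (.ch (nat_lit 5) (.ev (nat_lit 1472) (nat_lit 64)
 (.ev (nat_lit 2820) (nat_lit 4096) (.ev (nat_lit 2829) (nat_lit 32) .dd))))) (.br (nat_lit 8) (.ch (nat_lit 7)
 (.ev (nat_lit 1472) (nat_lit 64) (.ev (nat_lit 3012) (nat_lit 32) (.ev (nat_lit 3021) (nat_lit 4096) .dd))))
 (.br (nat_lit 10) (.ch (nat_lit 8) (.ev (nat_lit 1472) (nat_lit 4160) (.ev (nat_lit 1485) (nat_lit 32) .dd)))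
 (.ch (nat_lit 10) (.ev (nat_lit 6260) (nat_lit 4096) (.ev (nat_lit 6500) (nat_lit 32) (.ev (nat_lit 6509)
 (nat_lit 64) .dd))))))))))) (.br (nat_lit 8) (.br (nat_lit 7) (.ch (nat_lit 6) (.ev (nat_lit 1024) (nat_lit
 32) (.ev (nat_lit 1140) (nat_lit 64) (.ev (nat_lit 1149) (nat_lit 4096) .dd)))) (.ch (nat_lit 7) (.ev (nat_lit
 1024) (nat_lit 64) (.nd (nat_lit 3408) (.br (nat_lit 3) (.ch (nat_lit 2) (.ev (nat_lit 3476) (nat_lit 32) (.ev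
 (nat_lit 3485) (nat_lit 4096) .dd))) (.br (nat_lit 10) (.ch (nat_lit 3) (.ev (nat_lit 4020) (nat_lit 4096)
 (.ev (nat_lit 4029) (nat_lit 32) .dd))) (.ch (nat_lit 10) (.ev (nat_lit 3476) (nat_lit 32) (.ev (nat_lit 3485)
 (nat_lit 4096) .dd))))))))) (.br (nat_lit 10) (.ch (nat_lit 8) (.ev (nat_lit 1024) (nat_lit 4096) (.nd
 (nat_lit 2336) (.br (nat_lit 7) (.br (nat_lit 5) (.ch (nat_lit 1) (.ev (nat_lit 2372) (nat_lit 64) (.ev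
 (nat_lit 2381) (nat_lit 32) .dd))) (.br (nat_lit 6) (.ch (nat_lit 5) (.ev (nat_lit 2372) (nat_lit 32) (.ev
 (nat_lit 2381) (nat_lit 64) .dd))) (.ch (nat_lit 6) (.ev (nat_lit 3824) (nat_lit 96) .dd)))) (.br (nat_lit 8)
 (.ch (nat_lit 7) (.ev (nat_lit 2788) (nat_lit 64) (.ev (nat_lit 2797) (nat_lit 32) .dd))) (.br (nat_lit 11)
 (.ch (nat_lit 8) (.ev (nat_lit 2352) (nat_lit 32) (.ev (nat_lit 2365) (nat_lit 64) .dd))) (.ch (nat_lit 11)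
 (.ev (nat_lit 2820) (nat_lit 32) (.ev (nat_lit 2829) (nat_lit 64) .dd))))))))) (.br (nat_lit 11) (.ch (nat_lit
 10) (.ev (nat_lit 1364) (nat_lit 4096) (.nd (nat_lit 2336) (.br (nat_lit 8) (.br (nat_lit 2) (.ch (nat_lit 1)
 (.ev (nat_lit 2388) (nat_lit 64) (.ev (nat_lit 2397) (nat_lit 32) .dd))) (.br (nat_lit 4) (.ch (nat_lit 2)
 (.ev (nat_lit 2352) (nat_lit 32) (.ev (nat_lit 2365) (nat_lit 64) .dd))) (.ch (nat_lit 4) (.ev (nat_lit 2820)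
 (nat_lit 64) (.ev (nat_lit 2829) (nat_lit 32) .dd))))) (.br (nat_lit 11) (.ch (nat_lit 8) (.ev (nat_lit 2352)
 (nat_lit 32) (.ev (nat_lit 2365) (nat_lit 64) .dd))) (.br (nat_lit 12) (.ch (nat_lit 11) (.ev (nat_lit 6692)
 (nat_lit 32) (.ev (nat_lit 6701) (nat_lit 64) .dd))) (.ch (nat_lit 12) (.ev (nat_lit 2352) (nat_lit 64) (.ev
 (nat_lit 2365) (nat_lit 32) .dd))))))))) (.ch (nat_lit 11) (.ev (nat_lit 1024) (nat_lit 4096) (.nd (nat_lit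
 2128) (.br (nat_lit 1) (.ch (nat_lit 0) (.ev (nat_lit 6692) (nat_lit 32) (.ev (nat_lit 6701) (nat_lit 64)
 .dd))) (.br (nat_lit 12) (.ch (nat_lit 1) (.ev (nat_lit 2420) (nat_lit 64) (.ev (nat_lit 2429) (nat_lit 32)
 .dd))) (.ch (nat_lit 12) (.ev (nat_lit 2820) (nat_lit 64) (.ev (nat_lit 2829) (nat_lit 32) .dd)))))))))))))))
 (.ch (nat_lit 5) (.ev (nat_lit 368) (nat_lit 12288) (.nd (nat_lit 1008) (.br (nat_lit 7) (.br (nat_lit 5) (.br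
 (nat_lit 2) (.ch (nat_lit 0) (.ev (nat_lit 1024) (nat_lit 32) (.ev (nat_lit 1037) (nat_lit 64) .dd))) (.ch
 (nat_lit 2) (.ev (nat_lit 1024) (nat_lit 96) .dd))) (.br (nat_lit 6) (.ch (nat_lit 5) (.nd (nat_lit 1552) (.br
 (nat_lit 7) (.br (nat_lit 5) (.br (nat_lit 2) (.ch (nat_lit 0) (.ev (nat_lit 1568) (nat_lit 64) (.ev (nat_lit
 1581) (nat_lit 32) .dd))) (.ch (nat_lit 2) (.ev (nat_lit 6992) (nat_lit 96) .dd))) (.br (nat_lit 6) (.ch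
 (nat_lit 5) (.ev (nat_lit 1568) (nat_lit 96) .dd)) (.ch (nat_lit 6) (.ev (nat_lit 6260) (nat_lit 32) (.ev
 (nat_lit 6269) (nat_lit 64) .dd))))) (.br (nat_lit 10) (.br (nat_lit 8) (.ch (nat_lit 7) (.ev (nat_lit 5572)
 (nat_lit 64) (.ev (nat_lit 5581) (nat_lit 32) .dd))) (.ch (nat_lit 8) (.ev (nat_lit 1568) (nat_lit 32) (.ev
 (nat_lit 1581) (nat_lit 64) .dd)))) (.br (nat_lit 12) (.ch (nat_lit 10) (.ev (nat_lit 1568) (nat_lit 64) (.ev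
 (nat_lit 1581) (nat_lit 32) .dd))) (.ch (nat_lit 12) (.ev (nat_lit 1588) (nat_lit 32) (.ev (nat_lit 1597)
 (nat_lit 64) .dd)))))))) (.ch (nat_lit 6) (.nd (nat_lit 2128) (.br (nat_lit 8) (.br (nat_lit 5) (.ch (nat_lit
 3) (.ev (nat_lit 2164) (nat_lit 64) (.ev (nat_lit 2173) (nat_lit 32) .dd))) (.ch (nat_lit 5) (.ev (nat_lit
 2180) (nat_lit 64) (.ev (nat_lit 2189) (nat_lit 32) .dd)))) (.br (nat_lit 12) (.ch (nat_lit 8) (.ev (nat_lit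
 2164) (nat_lit 32) (.ev (nat_lit 2173) (nat_lit 64) .dd))) (.ch (nat_lit 12) (.ev (nat_lit 5924) (nat_lit 32)
 (.ev (nat_lit 5933) (nat_lit 64) .dd))))))))) (.br (nat_lit 9) (.br (nat_lit 8) (.ch (nat_lit 7) (.ev (nat_lit
 1024) (nat_lit 64) (.ev (nat_lit 1037) (nat_lit 32) .dd))) (.ch (nat_lit 8) (.nd (nat_lit 1744) (.br (nat_lit
 7) (.br (nat_lit 5) (.ch (nat_lit 1) (.ev (nat_lit 6644) (nat_lit 32) (.ev (nat_lit 6653) (nat_lit 64) .dd)))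
 (.br (nat_lit 6) (.ch (nat_lit 5) (.ev (nat_lit 1780) (nat_lit 32) (.ev (nat_lit 1789) (nat_lit 64) .dd)))
 (.ch (nat_lit 6) (.ev (nat_lit 1760) (nat_lit 32) (.ev (nat_lit 1773) (nat_lit 64) .dd))))) (.br (nat_lit 8)
 (.ch (nat_lit 7) (.ev (nat_lit 1760) (nat_lit 64) (.ev (nat_lit 1773) (nat_lit 32) .dd))) (.br (nat_lit 10)
 (.ch (nat_lit 8) (.nd (nat_lit 4592) (.br (nat_lit 5) (.br (nat_lit 3) (.ch (nat_lit 2) (.ev (nat_lit 4608)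
 (nat_lit 64) (.ev (nat_lit 4621) (nat_lit 32) .dd))) (.ch (nat_lit 3) (.ev (nat_lit 4996) (nat_lit 64) (.ev
 (nat_lit 5005) (nat_lit 32) .dd)))) (.br (nat_lit 9) (.ch (nat_lit 5) (.ev (nat_lit 4608) (nat_lit 64) (.ev
 (nat_lit 4621) (nat_lit 32) .dd))) (.br (nat_lit 12) (.ch (nat_lit 9) (.ev (nat_lit 5604) (nat_lit 64) (.ev
 (nat_lit 5613) (nat_lit 32) .dd))) (.ch (nat_lit 12) (.ev (nat_lit 4608) (nat_lit 64) (.ev (nat_lit 4621)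
 (nat_lit 32) .dd)))))))) (.ch (nat_lit 10) (.nd (nat_lit 4416) (.br (nat_lit 6) (.br (nat_lit 5) (.ch (nat_lit
 0) (.ev (nat_lit 4432) (nat_lit 64) (.ev (nat_lit 4445) (nat_lit 32) .dd))) (.ch (nat_lit 5) (.ev (nat_lit
 4432) (nat_lit 32) (.ev (nat_lit 4445) (nat_lit 64) .dd)))) (.br (nat_lit 8) (.ch (nat_lit 6) (.ev (nat_lit
 4432) (nat_lit 32) (.ev (nat_lit 4445) (nat_lit 64) .dd))) (.br (nat_lit 12) (.ch (nat_lit 8) (.ev (nat_lit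
 5716) (nat_lit 64) (.ev (nat_lit 5725) (nat_lit 32) .dd))) (.ch (nat_lit 12) (.ev (nat_lit 6260) (nat_lit 32)
 (.ev (nat_lit 6269) (nat_lit 64) .dd)))))))))))))) (.br (nat_lit 10) (.ch (nat_lit 9) (.ev (nat_lit 1024)
 (nat_lit 96) .dd)) (.br (nat_lit 11) (.ch (nat_lit 10) (.nd (nat_lit 2624) (.br (nat_lit 5) (.br (nat_lit 3)
 (.ch (nat_lit 1) (.ev (nat_lit 6788) (nat_lit 64) (.ev (nat_lit 6797) (nat_lit 32) .dd))) (.ch (nat_lit 3)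
 (.ev (nat_lit 2640) (nat_lit 64) (.ev (nat_lit 2653) (nat_lit 32) .dd)))) (.br (nat_lit 8) (.ch (nat_lit 5)
 (.ev (nat_lit 2676) (nat_lit 64) (.ev (nat_lit 2685) (nat_lit 32) .dd))) (.br (nat_lit 10) (.ch (nat_lit 8)
 (.ev (nat_lit 2676) (nat_lit 64) (.ev (nat_lit 2685) (nat_lit 32) .dd))) (.ch (nat_lit 10) (.ev (nat_lit 2676)
 (nat_lit 64) (.ev (nat_lit 2685) (nat_lit 32) .dd)))))))) (.ch (nat_lit 11) (.nd (nat_lit 2624) (.br (nat_lit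
 9) (.ch (nat_lit 3) (.ev (nat_lit 5140) (nat_lit 32) (.ev (nat_lit 5149) (nat_lit 64) .dd))) (.br (nat_lit 10)
 (.ch (nat_lit 9) (.ev (nat_lit 2676) (nat_lit 32) (.ev (nat_lit 2685) (nat_lit 64) .dd))) (.ch (nat_lit 10)
 (.ev (nat_lit 6500) (nat_lit 64) (.ev (nat_lit 6509) (nat_lit 32) .dd)))))))))))))))) (.br (nat_lit 9) (.br
 (nat_lit 8) (.ch (nat_lit 6) (.ev (nat_lit 368) (nat_lit 12384) .dd)) (.ch (nat_lit 8) (.nd (nat_lit 784) (.br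
 (nat_lit 8) (.br (nat_lit 2) (.br (nat_lit 1) (.ch (nat_lit 0) (.ev (nat_lit 800) (nat_lit 64) (.nd (nat_lit
 1408) (.br (nat_lit 8) (.br (nat_lit 4) (.ch (nat_lit 0) (.ev (nat_lit 1424) (nat_lit 8192) (.ev (nat_lit
 1492) (nat_lit 4096) (.ev (nat_lit 1501) (nat_lit 32) .dd)))) (.br (nat_lit 7) (.ch (nat_lit 4) (.ev (nat_lit
 1424) (nat_lit 32) (.ev (nat_lit 2548) (nat_lit 4096) (.ev (nat_lit 2557) (nat_lit 8192) .dd)))) (.ch (nat_lit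
 7) (.ev (nat_lit 1424) (nat_lit 8192) (.ev (nat_lit 3652) (nat_lit 4096) (.ev (nat_lit 3661) (nat_lit 32)
 .dd)))))) (.br (nat_lit 10) (.ch (nat_lit 8) (.ev (nat_lit 2372) (nat_lit 8192) (.ev (nat_lit 5300) (nat_lit
 4096) (.ev (nat_lit 5309) (nat_lit 32) .dd)))) (.br (nat_lit 12) (.ch (nat_lit 10) (.ev (nat_lit 1424)
 (nat_lit 8192) (.nd (nat_lit 4304) (.br (nat_lit 10) (.ch (nat_lit 7) (.ev (nat_lit 6596) (nat_lit 4096) (.ev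
 (nat_lit 6605) (nat_lit 32) .dd))) (.ch (nat_lit 10) (.ev (nat_lit 6596) (nat_lit 4096) (.ev (nat_lit 6605)
 (nat_lit 32) .dd))))))) (.ch (nat_lit 12) (.ev (nat_lit 6672) (nat_lit 4096) (.fin (nat_lit
 576485491227443697)))))))))) (.ch (nat_lit 1) (.ev (nat_lit 800) (nat_lit 8192) (.nd (nat_lit 1552) (.br
 (nat_lit 10) (.br (nat_lit 6) (.ch (nat_lit 4) (.ev (nat_lit 1568) (nat_lit 64) (.ev (nat_lit 1716) (nat_lit
 32) (.ev (nat_lit 1725) (nat_lit 4096) .dd)))) (.ch (nat_lit 6) (.ev (nat_lit 1568) (nat_lit 64) (.ev (nat_lit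
 6500) (nat_lit 32) (.ev (nat_lit 6509) (nat_lit 4096) .dd))))) (.br (nat_lit 11) (.ch (nat_lit 10) (.ev
 (nat_lit 1568) (nat_lit 64) (.ev (nat_lit 6148) (nat_lit 4096) (.ev (nat_lit 6157) (nat_lit 32) .dd)))) (.ch
 (nat_lit 11) (.ev (nat_lit 1568) (nat_lit 4096) (.ev (nat_lit 4724) (nat_lit 32) (.ev (nat_lit 4733) (nat_lit
 64) .dd)))))))))) (.br (nat_lit 6) (.ch (nat_lit 2) (.nd (nat_lit 1456) (.br (nat_lit 6) (.br (nat_lit 2) (.br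
 (nat_lit 1) (.ch (nat_lit 0) (.ev (nat_lit 1472) (nat_lit 8192) (.ev (nat_lit 6788) (nat_lit 64) (.nd (nat_lit
 9488) (.ch (nat_lit 11) (.nd (nat_lit 9520) (.ch (nat_lit 3) (.nd (nat_lit 9616) (.ch (nat_lit 6) (.nd
 (nat_lit 9696) (.br (nat_lit 6) (.ch (nat_lit 0) (.fin (nat_lit 576464600577819166))) (.ch (nat_lit 6) (.ev
 (nat_lit 9712) (nat_lit 32) (.ev (nat_lit 9725) (nat_lit 4096) .dd)))))))))))))) (.ch (nat_lit 1) (.ev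
 (nat_lit 1472) (nat_lit 96) (.ev (nat_lit 3604) (nat_lit 8192) (.ev (nat_lit 3613) (nat_lit 4096) .dd)))))
 (.br (nat_lit 5) (.ch (nat_lit 2) (.ev (nat_lit 1472) (nat_lit 8192) (.nd (nat_lit 4864) (.br (nat_lit 3) (.br
 (nat_lit 1) (.ch (nat_lit 0) (.ev (nat_lit 4880) (nat_lit 64) (.ev (nat_lit 5188) (nat_lit 32) (.ev (nat_lit
 5197) (nat_lit 4096) .dd)))) (.ch (nat_lit 1) (.ev (nat_lit 4880) (nat_lit 96) (.ev (nat_lit 4893) (nat_lit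
 4096) .dd)))) (.br (nat_lit 5) (.ch (nat_lit 3) (.ev (nat_lit 4880) (nat_lit 96) (.ev (nat_lit 4893) (nat_lit
 4096) .dd))) (.br (nat_lit 6) (.ch (nat_lit 5) (.ev (nat_lit 4880) (nat_lit 96) (.ev (nat_lit 4893) (nat_lit
 4096) .dd))) (.ch (nat_lit 6) (.ev (nat_lit 4880) (nat_lit 4128) (.ev (nat_lit 4893) (nat_lit 64) .dd)))))))))
 (.ch (nat_lit 5) (.ev (nat_lit 1472) (nat_lit 64) (.ev (nat_lit 2260) (nat_lit 4096) (.ev (nat_lit 2388)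
 (nat_lit 8192) (.ev (nat_lit 2397) (nat_lit 32) .dd))))))) (.br (nat_lit 10) (.br (nat_lit 9) (.ch (nat_lit 6)
 (.ev (nat_lit 1472) (nat_lit 4128) (.ev (nat_lit 2388) (nat_lit 8192) (.ev (nat_lit 2397) (nat_lit 64) .dd))))
 (.ch (nat_lit 9) (.ev (nat_lit 1472) (nat_lit 12352) (.ev (nat_lit 1485) (nat_lit 32) .dd)))) (.br (nat_lit
 12) (.ch (nat_lit 10) (.ev (nat_lit 1472) (nat_lit 4128) (.ev (nat_lit 2388) (nat_lit 8192) (.ev (nat_lit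
 2397) (nat_lit 64) .dd)))) (.ch (nat_lit 12) (.ev (nat_lit 1472) (nat_lit 8224) (.ev (nat_lit 6452) (nat_lit
 64) (.ev (nat_lit 6461) (nat_lit 4096) .dd))))))))) (.ch (nat_lit 6) (.ev (nat_lit 800) (nat_lit 96) (.nd
 (nat_lit 1648) (.br (nat_lit 5) (.br (nat_lit 3) (.ch (nat_lit 2) (.ev (nat_lit 1664) (nat_lit 8192) (.ev
 (nat_lit 1677) (nat_lit 4096) .dd))) (.br (nat_lit 4) (.ch (nat_lit 3) (.ev (nat_lit 2180) (nat_lit 8192) (.ev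
 (nat_lit 2189) (nat_lit 4096) .dd))) (.ch (nat_lit 4) (.ev (nat_lit 1664) (nat_lit 4096) (.ev (nat_lit 1677)
 (nat_lit 8192) .dd))))) (.br (nat_lit 9) (.br (nat_lit 8) (.ch (nat_lit 5) (.ev (nat_lit 2244) (nat_lit 4096)
 (.ev (nat_lit 2253) (nat_lit 8192) .dd))) (.ch (nat_lit 8) (.ev (nat_lit 1664) (nat_lit 8192) (.ev (nat_lit
 1677) (nat_lit 4096) .dd)))) (.br (nat_lit 12) (.ch (nat_lit 9) (.ev (nat_lit 1664) (nat_lit 4096) (.ev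
 (nat_lit 1677) (nat_lit 8192) .dd))) (.ch (nat_lit 12) (.ev (nat_lit 2180) (nat_lit 8192) (.ev (nat_lit 2189)
 (nat_lit 4096) .dd))))))))))) (.br (nat_lit 10) (.br (nat_lit 9) (.ch (nat_lit 8) (.ev (nat_lit 800) (nat_lit
 12288) (.nd (nat_lit 1552) (.br (nat_lit 8) (.br (nat_lit 6) (.ch (nat_lit 1) (.ev (nat_lit 1568) (nat_lit 96)
 .dd)) (.br (nat_lit 7) (.ch (nat_lit 6) (.ev (nat_lit 1568) (nat_lit 32) (.ev (nat_lit 1581) (nat_lit 64)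
 .dd))) (.ch (nat_lit 7) (.ev (nat_lit 1568) (nat_lit 64) (.ev (nat_lit 1581) (nat_lit 32) .dd))))) (.br
 (nat_lit 10) (.br (nat_lit 9) (.ch (nat_lit 8) (.nd (nat_lit 4864) (.br (nat_lit 4) (.ch (nat_lit 3) (.ev
 (nat_lit 4880) (nat_lit 64) (.ev (nat_lit 4893) (nat_lit 32) .dd))) (.br (nat_lit 12) (.ch (nat_lit 4) (.ev
 (nat_lit 6260) (nat_lit 64) (.ev (nat_lit 6269) (nat_lit 32) .dd))) (.ch (nat_lit 12) (.ev (nat_lit 5364)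
 (nat_lit 32) (.ev (nat_lit 5373) (nat_lit 64) .dd))))))) (.ch (nat_lit 9) (.fin (nat_lit
 576462401572389453)))) (.br (nat_lit 11) (.ch (nat_lit 10) (.ev (nat_lit 1568) (nat_lit 32) (.ev (nat_lit
 1581) (nat_lit 64) .dd))) (.ch (nat_lit 11) (.ev (nat_lit 3188) (nat_lit 32) (.ev (nat_lit 3197) (nat_lit 64)
 .dd))))))))) (.ch (nat_lit 9) (.ev (nat_lit 800) (nat_lit 8192) (.nd (nat_lit 1552) (.br (nat_lit 6) (.br
 (nat_lit 2) (.br (nat_lit 1) (.ch (nat_lit 0) (.ev (nat_lit 1568) (nat_lit 32) (.ev (nat_lit 4052) (nat_lit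
 64) (.ev (nat_lit 4061) (nat_lit 4096) .dd)))) (.ch (nat_lit 1) (.ev (nat_lit 1568) (nat_lit 4160) (.ev
 (nat_lit 1581) (nat_lit 32) .dd)))) (.br (nat_lit 4) (.ch (nat_lit 2) (.ev (nat_lit 1568) (nat_lit 4096) (.ev
 (nat_lit 3540) (nat_lit 32) (.ev (nat_lit 3549) (nat_lit 64) .dd)))) (.ch (nat_lit 4) (.ev (nat_lit 1568)
 (nat_lit 64) (.ev (nat_lit 3220) (nat_lit 32) (.ev (nat_lit 3229) (nat_lit 4096) .dd)))))) (.br (nat_lit 8)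
 (.br (nat_lit 7) (.ch (nat_lit 6) (.ev (nat_lit 1568) (nat_lit 4128) (.ev (nat_lit 1581) (nat_lit 64) .dd)))
 (.ch (nat_lit 7) (.ev (nat_lit 2388) (nat_lit 32) (.ev (nat_lit 6020) (nat_lit 4096) (.ev (nat_lit 6029)
 (nat_lit 64) .dd))))) (.br (nat_lit 12) (.ch (nat_lit 8) (.ev (nat_lit 1568) (nat_lit 32) (.ev (nat_lit 2880)
 (nat_lit 4096) (.ev (nat_lit 2893) (nat_lit 64) .dd)))) (.ch (nat_lit 12) (.ev (nat_lit 1568) (nat_lit 32)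
 (.ev (nat_lit 5936) (nat_lit 64) (.ev (nat_lit 5949) (nat_lit 4096) .dd))))))))))) (.br (nat_lit 11) (.ch
 (nat_lit 10) (.ev (nat_lit 800) (nat_lit 12320) (.ev (nat_lit 813) (nat_lit 64) .dd))) (.br (nat_lit 12) (.ch
 (nat_lit 11) (.ev (nat_lit 800) (nat_lit 4192) (.ev (nat_lit 813) (nat_lit 8192) .dd))) (.ch (nat_lit 12) (.ev
 (nat_lit 800) (nat_lit 96) (.nd (nat_lit 1648) (.br (nat_lit 4) (.br (nat_lit 3) (.ch (nat_lit 1) (.ev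
 (nat_lit 1664) (nat_lit 8192) (.ev (nat_lit 1677) (nat_lit 4096) .dd))) (.ch (nat_lit 3) (.ev (nat_lit 1664)
 (nat_lit 8192) (.ev (nat_lit 1677) (nat_lit 4096) .dd)))) (.br (nat_lit 5) (.ch (nat_lit 4) (.ev (nat_lit
 6596) (nat_lit 8192) (.ev (nat_lit 6605) (nat_lit 4096) .dd))) (.br (nat_lit 10) (.ch (nat_lit 5) (.ev
 (nat_lit 2948) (nat_lit 4096) (.ev (nat_lit 2957) (nat_lit 8192) .dd))) (.ch (nat_lit 10) (.ev (nat_lit 1664)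
 (nat_lit 4096) (.ev (nat_lit 1677) (nat_lit 8192) .dd)))))))))))))))) (.br (nat_lit 11) (.ch (nat_lit 9) (.ev
 (nat_lit 368) (nat_lit 64) (.nd (nat_lit 1088) (.br (nat_lit 6) (.br (nat_lit 2) (.br (nat_lit 1) (.ch
 (nat_lit 0) (.ev (nat_lit 1300) (nat_lit 8192) (.nd (nat_lit 2624) (.br (nat_lit 8) (.br (nat_lit 5) (.br
 (nat_lit 4) (.ch (nat_lit 2) (.ev (nat_lit 2640) (nat_lit 4096) (.ev (nat_lit 2653) (nat_lit 32) .dd))) (.ch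
 (nat_lit 4) (.ev (nat_lit 2640) (nat_lit 4128) .dd))) (.br (nat_lit 7) (.ch (nat_lit 5) (.ev (nat_lit 2676)
 (nat_lit 4096) (.ev (nat_lit 2685) (nat_lit 32) .dd))) (.ch (nat_lit 7) (.ev (nat_lit 2752) (nat_lit 32) (.ev
 (nat_lit 2765) (nat_lit 4096) .dd))))) (.br (nat_lit 10) (.br (nat_lit 9) (.ch (nat_lit 8) (.ev (nat_lit 2640)
 (nat_lit 32) (.ev (nat_lit 2653) (nat_lit 4096) .dd))) (.ch (nat_lit 9) (.ev (nat_lit 2640) (nat_lit 32) (.ev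
 (nat_lit 2653) (nat_lit 4096) .dd)))) (.br (nat_lit 11) (.ch (nat_lit 10) (.ev (nat_lit 2640) (nat_lit 32)
 (.ev (nat_lit 2653) (nat_lit 4096) .dd))) (.ch (nat_lit 11) (.ev (nat_lit 2640) (nat_lit 4128) .dd))))))))
 (.ch (nat_lit 1) (.ev (nat_lit 1104) (nat_lit 8192) (.nd (nat_lit 2624) (.br (nat_lit 6) (.br (nat_lit 2) (.br
 (nat_lit 1) (.ch (nat_lit 0) (.ev (nat_lit 2640) (nat_lit 32) (.ev (nat_lit 2653) (nat_lit 4096) .dd))) (.ch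
 (nat_lit 1) (.ev (nat_lit 2640) (nat_lit 32) (.ev (nat_lit 2653) (nat_lit 4096) .dd)))) (.br (nat_lit 4) (.ch
 (nat_lit 2) (.ev (nat_lit 2640) (nat_lit 32) (.ev (nat_lit 2653) (nat_lit 4096) .dd))) (.ch (nat_lit 4) (.ev
 (nat_lit 2640) (nat_lit 4096) (.ev (nat_lit 2653) (nat_lit 32) .dd))))) (.br (nat_lit 10) (.br (nat_lit 9)
 (.ch (nat_lit 6) (.ev (nat_lit 2640) (nat_lit 32) (.ev (nat_lit 2653) (nat_lit 4096) .dd))) (.ch (nat_lit 9)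
 (.ev (nat_lit 3604) (nat_lit 32) (.ev (nat_lit 3613) (nat_lit 4096) .dd)))) (.br (nat_lit 12) (.ch (nat_lit
 10) (.ev (nat_lit 2640) (nat_lit 32) (.ev (nat_lit 2653) (nat_lit 4096) .dd))) (.ch (nat_lit 12) (.ev (nat_lit
 2640) (nat_lit 4128) .dd))))))))) (.br (nat_lit 3) (.ch (nat_lit 2) (.ev (nat_lit 1104) (nat_lit 4128) (.ev
 (nat_lit 1117) (nat_lit 8192) .dd))) (.ch (nat_lit 3) (.ev (nat_lit 1104) (nat_lit 4128) (.ev (nat_lit 1117)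
 (nat_lit 8192) .dd))))) (.br (nat_lit 8) (.br (nat_lit 7) (.ch (nat_lit 6) (.ev (nat_lit 1104) (nat_lit 8192)
 (.ev (nat_lit 1124) (nat_lit 32) (.ev (nat_lit 1133) (nat_lit 4096) .dd)))) (.ch (nat_lit 7) (.ev (nat_lit
 1104) (nat_lit 8224) (.ev (nat_lit 1117) (nat_lit 4096) .dd)))) (.br (nat_lit 9) (.ch (nat_lit 8) (.ev
 (nat_lit 1104) (nat_lit 4128) (.ev (nat_lit 1117) (nat_lit 8192) .dd))) (.br (nat_lit 11) (.ch (nat_lit 9)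
 (.ev (nat_lit 3812) (nat_lit 32) (.ev (nat_lit 3844) (nat_lit 4096) (.ev (nat_lit 3853) (nat_lit 8192) .dd))))
 (.ch (nat_lit 11) (.ev (nat_lit 1104) (nat_lit 12288) (.ev (nat_lit 1117) (nat_lit 32) .dd)))))))))) (.br
 (nat_lit 12) (.ch (nat_lit 11) (.ev (nat_lit 368) (nat_lit 64) (.nd (nat_lit 736) (.br (nat_lit 5) (.br
 (nat_lit 2) (.br (nat_lit 1) (.ch (nat_lit 0) (.ev (nat_lit 752) (nat_lit 8192) (.ev (nat_lit 1060) (nat_lit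
 4096) (.ev (nat_lit 1069) (nat_lit 32) .dd)))) (.ch (nat_lit 1) (.ev (nat_lit 752) (nat_lit 4128) (.ev
 (nat_lit 765) (nat_lit 8192) .dd)))) (.br (nat_lit 3) (.ch (nat_lit 2) (.ev (nat_lit 752) (nat_lit 32) (.nd
 (nat_lit 1408) (.br (nat_lit 7) (.br (nat_lit 5) (.ch (nat_lit 3) (.ev (nat_lit 5044) (nat_lit 4096) (.ev
 (nat_lit 5053) (nat_lit 8192) .dd))) (.br (nat_lit 6) (.ch (nat_lit 5) (.ev (nat_lit 1424) (nat_lit 4096) (.ev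
 (nat_lit 1437) (nat_lit 8192) .dd))) (.ch (nat_lit 6) (.ev (nat_lit 1424) (nat_lit 4096) (.ev (nat_lit 1437)
 (nat_lit 8192) .dd))))) (.br (nat_lit 11) (.ch (nat_lit 7) (.ev (nat_lit 1908) (nat_lit 4096) (.ev (nat_lit
 1917) (nat_lit 8192) .dd))) (.br (nat_lit 12) (.ch (nat_lit 11) (.ev (nat_lit 1424) (nat_lit 8192) (.ev
 (nat_lit 1437) (nat_lit 4096) .dd))) (.ch (nat_lit 12) (.nd (nat_lit 4304) (.br (nat_lit 8) (.br (nat_lit 3)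
 (.ch (nat_lit 2) (.ev (nat_lit 6452) (nat_lit 4096) (.ev (nat_lit 6461) (nat_lit 8192) .dd))) (.ch (nat_lit 3)
 (.ev (nat_lit 4932) (nat_lit 4096) (.ev (nat_lit 4941) (nat_lit 8192) .dd)))) (.br (nat_lit 11) (.ch (nat_lit
 8) (.ev (nat_lit 5572) (nat_lit 4096) (.ev (nat_lit 5581) (nat_lit 8192) .dd))) (.ch (nat_lit 11) (.ev
 (nat_lit 4644) (nat_lit 8192) (.ev (nat_lit 4653) (nat_lit 4096) .dd))))))))))))) (.ch (nat_lit 3) (.ev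
 (nat_lit 752) (nat_lit 32) (.nd (nat_lit 1408) (.br (nat_lit 8) (.br (nat_lit 2) (.ch (nat_lit 1) (.nd
 (nat_lit 4304) (.br (nat_lit 3) (.ch (nat_lit 2) (.ev (nat_lit 5152) (nat_lit 12288) .dd)) (.br (nat_lit 11)
 (.ch (nat_lit 3) (.ev (nat_lit 5364) (nat_lit 4096) (.ev (nat_lit 5373) (nat_lit 8192) .dd))) (.ch (nat_lit
 11) (.ev (nat_lit 4320) (nat_lit 8192) (.ev (nat_lit 4333) (nat_lit 4096) .dd))))))) (.br (nat_lit 4) (.ch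
 (nat_lit 2) (.ev (nat_lit 1424) (nat_lit 4096) (.ev (nat_lit 1437) (nat_lit 8192) .dd))) (.ch (nat_lit 4) (.nd
 (nat_lit 4224) (.br (nat_lit 1) (.ch (nat_lit 0) (.ev (nat_lit 4692) (nat_lit 8192) (.ev (nat_lit 4701)
 (nat_lit 4096) .dd))) (.br (nat_lit 8) (.ch (nat_lit 1) (.ev (nat_lit 4240) (nat_lit 4096) (.ev (nat_lit 4253)
 (nat_lit 8192) .dd))) (.ch (nat_lit 8) (.ev (nat_lit 4996) (nat_lit 8192) (.ev (nat_lit 5005) (nat_lit 4096)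
 .dd))))))))) (.br (nat_lit 9) (.ch (nat_lit 8) (.nd (nat_lit 4592) (.br (nat_lit 8) (.br (nat_lit 2) (.ch
 (nat_lit 1) (.ev (nat_lit 4692) (nat_lit 4096) (.ev (nat_lit 4701) (nat_lit 8192) .dd))) (.br (nat_lit 3) (.ch
 (nat_lit 2) (.ev (nat_lit 6096) (nat_lit 4096) (.ev (nat_lit 6109) (nat_lit 8192) .dd))) (.ch (nat_lit 3) (.ev
 (nat_lit 4608) (nat_lit 8192) (.ev (nat_lit 4621) (nat_lit 4096) .dd))))) (.br (nat_lit 10) (.ch (nat_lit 8)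
 (.ev (nat_lit 4608) (nat_lit 4096) (.ev (nat_lit 4621) (nat_lit 8192) .dd))) (.br (nat_lit 12) (.ch (nat_lit
 10) (.ev (nat_lit 4644) (nat_lit 4096) (.ev (nat_lit 4653) (nat_lit 8192) .dd))) (.ch (nat_lit 12) (.ev
 (nat_lit 4608) (nat_lit 8192) (.ev (nat_lit 4621) (nat_lit 4096) .dd)))))))) (.br (nat_lit 12) (.ch (nat_lit
 9) (.nd (nat_lit 4592) (.br (nat_lit 4) (.ch (nat_lit 3) (.ev (nat_lit 4608) (nat_lit 8192) (.ev (nat_lit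
 4621) (nat_lit 4096) .dd))) (.br (nat_lit 8) (.ch (nat_lit 4) (.ev (nat_lit 5008) (nat_lit 12288) .dd)) (.ch
 (nat_lit 8) (.ev (nat_lit 6500) (nat_lit 8192) (.ev (nat_lit 6509) (nat_lit 4096) .dd))))))) (.ch (nat_lit 12)
 (.ev (nat_lit 1424) (nat_lit 4096) (.ev (nat_lit 1437) (nat_lit 8192) .dd))))))))))) (.br (nat_lit 7) (.br
 (nat_lit 6) (.ch (nat_lit 5) (.ev (nat_lit 752) (nat_lit 32) (.nd (nat_lit 1552) (.br (nat_lit 5) (.br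
 (nat_lit 2) (.ch (nat_lit 1) (.ev (nat_lit 1568) (nat_lit 12288) .dd)) (.br (nat_lit 3) (.ch (nat_lit 2) (.nd
 (nat_lit 4224) (.br (nat_lit 6) (.br (nat_lit 4) (.br (nat_lit 3) (.ch (nat_lit 1) (.ev (nat_lit 4692)
 (nat_lit 4096) (.ev (nat_lit 4701) (nat_lit 8192) .dd))) (.ch (nat_lit 3) (.ev (nat_lit 4240) (nat_lit 8192)
 (.ev (nat_lit 4253) (nat_lit 4096) .dd)))) (.br (nat_lit 5) (.ch (nat_lit 4) (.ev (nat_lit 4240) (nat_lit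
 8192) (.ev (nat_lit 4253) (nat_lit 4096) .dd))) (.ch (nat_lit 5) (.ev (nat_lit 5300) (nat_lit 4096) (.ev
 (nat_lit 5309) (nat_lit 8192) .dd))))) (.br (nat_lit 11) (.br (nat_lit 10) (.ch (nat_lit 6) (.ev (nat_lit
 4240) (nat_lit 8192) (.ev (nat_lit 4253) (nat_lit 4096) .dd))) (.ch (nat_lit 10) (.ev (nat_lit 5408) (nat_lit
 8192) (.ev (nat_lit 5421) (nat_lit 4096) .dd)))) (.br (nat_lit 12) (.ch (nat_lit 11) (.ev (nat_lit 4240)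
 (nat_lit 4096) (.ev (nat_lit 4253) (nat_lit 8192) .dd))) (.ch (nat_lit 12) (.ev (nat_lit 4240) (nat_lit 4096)
 (.ev (nat_lit 4253) (nat_lit 8192) .dd)))))))) (.ch (nat_lit 3) (.nd (nat_lit 4416) (.br (nat_lit 6) (.ch
 (nat_lit 3) (.ev (nat_lit 4432) (nat_lit 8192) (.ev (nat_lit 4445) (nat_lit 4096) .dd))) (.br (nat_lit 8) (.ch
 (nat_lit 6) (.ev (nat_lit 4644) (nat_lit 4096) (.ev (nat_lit 4653) (nat_lit 8192) .dd))) (.ch (nat_lit 8) (.ev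
 (nat_lit 4692) (nat_lit 4096) (.ev (nat_lit 4701) (nat_lit 8192) .dd))))))))) (.br (nat_lit 8) (.br (nat_lit
 7) (.ch (nat_lit 5) (.nd (nat_lit 4416) (.br (nat_lit 10) (.br (nat_lit 3) (.ch (nat_lit 1) (.nd (nat_lit
 8048) (.br (nat_lit 8) (.ch (nat_lit 6) (.fin (nat_lit 576342554785038848))) (.ch (nat_lit 8) (.ev (nat_lit
 8064) (nat_lit 8192) (.ev (nat_lit 8077) (nat_lit 4096) .dd)))))) (.br (nat_lit 4) (.ch (nat_lit 3) (.ev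
 (nat_lit 5444) (nat_lit 4096) (.ev (nat_lit 5453) (nat_lit 8192) .dd))) (.ch (nat_lit 4) (.ev (nat_lit 4788)
 (nat_lit 4096) (.ev (nat_lit 4797) (nat_lit 8192) .dd))))) (.br (nat_lit 11) (.ch (nat_lit 10) (.ev (nat_lit
 4432) (nat_lit 12288) .dd)) (.br (nat_lit 12) (.ch (nat_lit 11) (.ev (nat_lit 5540) (nat_lit 4096) (.ev
 (nat_lit 5549) (nat_lit 8192) .dd))) (.ch (nat_lit 12) (.ev (nat_lit 4800) (nat_lit 12288) .dd))))))) (.ch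
 (nat_lit 7) (.nd (nat_lit 4416) (.br (nat_lit 8) (.br (nat_lit 4) (.ch (nat_lit 1) (.ev (nat_lit 5792)
 (nat_lit 4096) (.ev (nat_lit 5805) (nat_lit 8192) .dd))) (.ch (nat_lit 4) (.ev (nat_lit 4432) (nat_lit 4096)
 (.ev (nat_lit 4445) (nat_lit 8192) .dd)))) (.br (nat_lit 9) (.ch (nat_lit 8) (.ev (nat_lit 4432) (nat_lit
 8192) (.ev (nat_lit 4445) (nat_lit 4096) .dd))) (.br (nat_lit 10) (.ch (nat_lit 9) (.ev (nat_lit 4432)
 (nat_lit 4096) (.ev (nat_lit 4445) (nat_lit 8192) .dd))) (.ch (nat_lit 10) (.ev (nat_lit 4432) (nat_lit 4096)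
 (.ev (nat_lit 4445) (nat_lit 8192) .dd))))))))) (.br (nat_lit 12) (.ch (nat_lit 8) (.ev (nat_lit 5876)
 (nat_lit 8192) (.ev (nat_lit 5885) (nat_lit 4096) .dd))) (.ch (nat_lit 12) (.ev (nat_lit 1568) (nat_lit 12288)
 .dd)))))))) (.ch (nat_lit 6) (.ev (nat_lit 752) (nat_lit 12288) (.ev (nat_lit 765) (nat_lit 32) .dd)))) (.br
 (nat_lit 8) (.ch (nat_lit 7) (.nd (nat_lit 1456) (.br (nat_lit 5) (.br (nat_lit 1) (.ch (nat_lit 0) (.ev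
 (nat_lit 1472) (nat_lit 4096) (.ev (nat_lit 2004) (nat_lit 32) (.ev (nat_lit 2013) (nat_lit 8192) .dd)))) (.br
 (nat_lit 2) (.ch (nat_lit 1) (.ev (nat_lit 1472) (nat_lit 8192) (.ev (nat_lit 2948) (nat_lit 4096) (.ev
 (nat_lit 2957) (nat_lit 32) .dd)))) (.ch (nat_lit 2) (.ev (nat_lit 1472) (nat_lit 12288) (.ev (nat_lit 1485)
 (nat_lit 32) .dd))))) (.br (nat_lit 9) (.br (nat_lit 6) (.ch (nat_lit 5) (.ev (nat_lit 1472) (nat_lit 32) (.ev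
 (nat_lit 5236) (nat_lit 4096) (.ev (nat_lit 5245) (nat_lit 8192) .dd)))) (.ch (nat_lit 6) (.nd (nat_lit 4864)
 (.br (nat_lit 7) (.ch (nat_lit 5) (.ev (nat_lit 4880) (nat_lit 8192) (.ev (nat_lit 5008) (nat_lit 32) (.ev
 (nat_lit 5021) (nat_lit 4096) .dd)))) (.br (nat_lit 12) (.ch (nat_lit 7) (.ev (nat_lit 4880) (nat_lit 4096)
 (.ev (nat_lit 6868) (nat_lit 8192) (.ev (nat_lit 6877) (nat_lit 32) .dd)))) (.ch (nat_lit 12) (.ev (nat_lit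
 4880) (nat_lit 4128) (.ev (nat_lit 4893) (nat_lit 8192) .dd)))))))) (.br (nat_lit 12) (.ch (nat_lit 9) (.ev
 (nat_lit 1472) (nat_lit 8192) (.ev (nat_lit 1924) (nat_lit 4096) (.ev (nat_lit 1933) (nat_lit 32) .dd)))) (.ch
 (nat_lit 12) (.ev (nat_lit 1472) (nat_lit 32) (.ev (nat_lit 6596) (nat_lit 4096) (.ev (nat_lit 6605) (nat_lit
 8192) .dd))))))))) (.br (nat_lit 12) (.ch (nat_lit 8) (.ev (nat_lit 916) (nat_lit 32) (.nd (nat_lit 1408) (.br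
 (nat_lit 4) (.br (nat_lit 2) (.ch (nat_lit 0) (.ev (nat_lit 1424) (nat_lit 8192) (.ev (nat_lit 1437) (nat_lit
 4096) .dd))) (.br (nat_lit 3) (.ch (nat_lit 2) (.ev (nat_lit 1424) (nat_lit 8192) (.ev (nat_lit 1437) (nat_lit
 4096) .dd))) (.ch (nat_lit 3) (.fin (nat_lit 578563560523113507))))) (.br (nat_lit 6) (.br (nat_lit 5) (.ch
 (nat_lit 4) (.nd (nat_lit 4592) (.br (nat_lit 8) (.br (nat_lit 6) (.ch (nat_lit 2) (.ev (nat_lit 5044)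
 (nat_lit 4096) (.ev (nat_lit 5053) (nat_lit 8192) .dd))) (.ch (nat_lit 6) (.ev (nat_lit 4608) (nat_lit 4096)
 (.ev (nat_lit 4621) (nat_lit 8192) .dd)))) (.br (nat_lit 9) (.ch (nat_lit 8) (.ev (nat_lit 4608) (nat_lit
 8192) (.ev (nat_lit 4621) (nat_lit 4096) .dd))) (.ch (nat_lit 9) (.ev (nat_lit 4608) (nat_lit 8192) (.ev
 (nat_lit 4621) (nat_lit 4096) .dd))))))) (.ch (nat_lit 5) (.ev (nat_lit 1604) (nat_lit 8192) (.ev (nat_lit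
 1613) (nat_lit 4096) .dd)))) (.br (nat_lit 9) (.ch (nat_lit 6) (.ev (nat_lit 1424) (nat_lit 4096) (.ev
 (nat_lit 1437) (nat_lit 8192) .dd))) (.ch (nat_lit 9) (.ev (nat_lit 4996) (nat_lit 4096) (.ev (nat_lit 5005)
 (nat_lit 8192) .dd))))))))) (.ch (nat_lit 12) (.ev (nat_lit 752) (nat_lit 12288) (.ev (nat_lit 765) (nat_lit
 32) .dd)))))))))) (.ch (nat_lit 12) (.ev (nat_lit 368) (nat_lit 4192) (.ev (nat_lit 381) (nat_lit 8192)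
 .dd))))))))))) (.br (nat_lit 11) (.ch (nat_lit 9) (.ev (nat_lit 48) (nat_lit 12320) (.nd (nat_lit 432) (.br
 (nat_lit 8) (.br (nat_lit 3) (.br (nat_lit 2) (.ch (nat_lit 1) (.ev (nat_lit 448) (nat_lit 4) (.nd (nat_lit
 1264) (.br (nat_lit 5) (.br (nat_lit 3) (.br (nat_lit 2) (.ch (nat_lit 0) (.nd (nat_lit 2336) (.br (nat_lit 6)
 (.br (nat_lit 2) (.br (nat_lit 1) (.ch (nat_lit 0) (.ev (nat_lit 2352) (nat_lit 32832) .dd)) (.ch (nat_lit 1)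
 (.ev (nat_lit 5056) (nat_lit 32768) (.ev (nat_lit 5069) (nat_lit 64) .dd)))) (.br (nat_lit 4) (.ch (nat_lit 2)
 (.ev (nat_lit 6020) (nat_lit 64) (.ev (nat_lit 6029) (nat_lit 32768) .dd))) (.ch (nat_lit 4) (.ev (nat_lit
 2352) (nat_lit 32768) (.ev (nat_lit 2365) (nat_lit 64) .dd))))) (.br (nat_lit 9) (.br (nat_lit 7) (.ch
 (nat_lit 6) (.ev (nat_lit 2352) (nat_lit 32768) (.ev (nat_lit 2365) (nat_lit 64) .dd))) (.ch (nat_lit 7) (.ev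
 (nat_lit 2352) (nat_lit 64) (.ev (nat_lit 2365) (nat_lit 32768) .dd)))) (.br (nat_lit 10) (.ch (nat_lit 9)
 (.ev (nat_lit 2352) (nat_lit 32768) (.ev (nat_lit 2365) (nat_lit 64) .dd))) (.br (nat_lit 12) (.ch (nat_lit
 10) (.ev (nat_lit 2352) (nat_lit 64) (.ev (nat_lit 2365) (nat_lit 32768) .dd))) (.ch (nat_lit 12) (.ev
 (nat_lit 2352) (nat_lit 32832) .dd)))))))) (.ch (nat_lit 2) (.ev (nat_lit 1280) (nat_lit 32768) (.ev (nat_lit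
 1293) (nat_lit 64) .dd)))) (.br (nat_lit 4) (.ch (nat_lit 3) (.ev (nat_lit 1280) (nat_lit 32832) .dd)) (.ch
 (nat_lit 4) (.ev (nat_lit 1300) (nat_lit 32768) (.ev (nat_lit 1309) (nat_lit 64) .dd))))) (.br (nat_lit 9)
 (.br (nat_lit 7) (.ch (nat_lit 5) (.ev (nat_lit 1280) (nat_lit 32768) (.ev (nat_lit 1293) (nat_lit 64) .dd)))
 (.ch (nat_lit 7) (.ev (nat_lit 1280) (nat_lit 32832) .dd))) (.br (nat_lit 11) (.ch (nat_lit 9) (.nd (nat_lit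
 2624) (.br (nat_lit 6) (.br (nat_lit 2) (.ch (nat_lit 0) (.ev (nat_lit 2640) (nat_lit 64) (.ev (nat_lit 2653)
 (nat_lit 32768) .dd))) (.br (nat_lit 3) (.ch (nat_lit 2) (.ev (nat_lit 2640) (nat_lit 64) (.ev (nat_lit 2653)
 (nat_lit 32768) .dd))) (.ch (nat_lit 3) (.ev (nat_lit 2676) (nat_lit 32768) (.ev (nat_lit 2685) (nat_lit 64)
 .dd))))) (.br (nat_lit 9) (.br (nat_lit 8) (.ch (nat_lit 6) (.ev (nat_lit 5492) (nat_lit 32768) (.ev (nat_lit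
 5501) (nat_lit 64) .dd))) (.ch (nat_lit 8) (.ev (nat_lit 2640) (nat_lit 32768) (.ev (nat_lit 2653) (nat_lit
 64) .dd)))) (.br (nat_lit 12) (.ch (nat_lit 9) (.ev (nat_lit 2640) (nat_lit 32768) (.ev (nat_lit 2653)
 (nat_lit 64) .dd))) (.ch (nat_lit 12) (.ev (nat_lit 2640) (nat_lit 64) (.ev (nat_lit 2653) (nat_lit 32768)
 .dd)))))))) (.br (nat_lit 12) (.ch (nat_lit 11) (.ev (nat_lit 1280) (nat_lit 64) (.ev (nat_lit 1293) (nat_lit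
 32768) .dd))) (.ch (nat_lit 12) (.nd (nat_lit 3408) (.br (nat_lit 6) (.br (nat_lit 2) (.br (nat_lit 1) (.ch
 (nat_lit 0) (.ev (nat_lit 3424) (nat_lit 32768) (.ev (nat_lit 3437) (nat_lit 64) .dd))) (.ch (nat_lit 1) (.ev
 (nat_lit 3424) (nat_lit 64) (.ev (nat_lit 3437) (nat_lit 32768) .dd)))) (.br (nat_lit 4) (.ch (nat_lit 2) (.ev
 (nat_lit 3424) (nat_lit 64) (.ev (nat_lit 3437) (nat_lit 32768) .dd))) (.ch (nat_lit 4) (.ev (nat_lit 3476)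
 (nat_lit 64) (.ev (nat_lit 3485) (nat_lit 32768) .dd))))) (.br (nat_lit 8) (.br (nat_lit 7) (.ch (nat_lit 6)
 (.ev (nat_lit 3476) (nat_lit 64) (.ev (nat_lit 3485) (nat_lit 32768) .dd))) (.ch (nat_lit 7) (.ev (nat_lit
 3476) (nat_lit 32768) (.ev (nat_lit 3485) (nat_lit 64) .dd)))) (.br (nat_lit 9) (.ch (nat_lit 8) (.ev (nat_lit
 3424) (nat_lit 32768) (.ev (nat_lit 3437) (nat_lit 64) .dd))) (.br (nat_lit 12) (.ch (nat_lit 9) (.ev (nat_lit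
 3424) (nat_lit 32768) (.ev (nat_lit 3437) (nat_lit 64) .dd))) (.ch (nat_lit 12) (.ev (nat_lit 3424) (nat_lit
 32832) .dd))))))))))))))) (.ch (nat_lit 2) (.ev (nat_lit 448) (nat_lit 64) (.nd (nat_lit 1168) (.br (nat_lit
 5) (.br (nat_lit 2) (.br (nat_lit 1) (.ch (nat_lit 0) (.ev (nat_lit 3220) (nat_lit 4) (.ev (nat_lit 3229)
 (nat_lit 32768) .dd))) (.ch (nat_lit 1) (.ev (nat_lit 1184) (nat_lit 32768) (.ev (nat_lit 1197) (nat_lit 4)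
 .dd)))) (.br (nat_lit 3) (.ch (nat_lit 2) (.nd (nat_lit 2336) (.br (nat_lit 5) (.br (nat_lit 2) (.br (nat_lit
 1) (.ch (nat_lit 0) (.ev (nat_lit 2800) (nat_lit 4) (.ev (nat_lit 2813) (nat_lit 32768) .dd))) (.ch (nat_lit
 1) (.ev (nat_lit 2352) (nat_lit 4) (.ev (nat_lit 2365) (nat_lit 32768) .dd)))) (.br (nat_lit 3) (.ch (nat_lit
 2) (.ev (nat_lit 2352) (nat_lit 32772) .dd)) (.ch (nat_lit 3) (.ev (nat_lit 4052) (nat_lit 4) (.ev (nat_lit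
 4061) (nat_lit 32768) .dd))))) (.br (nat_lit 8) (.br (nat_lit 7) (.ch (nat_lit 5) (.ev (nat_lit 2352) (nat_lit
 4) (.ev (nat_lit 2365) (nat_lit 32768) .dd))) (.ch (nat_lit 7) (.ev (nat_lit 4052) (nat_lit 4) (.ev (nat_lit
 4061) (nat_lit 32768) .dd)))) (.br (nat_lit 10) (.ch (nat_lit 8) (.ev (nat_lit 2352) (nat_lit 32768) (.ev
 (nat_lit 2365) (nat_lit 4) .dd))) (.ch (nat_lit 10) (.ev (nat_lit 2352) (nat_lit 32772) .dd))))))) (.ch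
 (nat_lit 3) (.ev (nat_lit 1332) (nat_lit 4) (.ev (nat_lit 1341) (nat_lit 32768) .dd))))) (.br (nat_lit 9) (.br
 (nat_lit 7) (.ch (nat_lit 5) (.ev (nat_lit 1184) (nat_lit 32772) .dd)) (.ch (nat_lit 7) (.ev (nat_lit 1184)
 (nat_lit 32772) .dd))) (.br (nat_lit 10) (.ch (nat_lit 9) (.ev (nat_lit 1184) (nat_lit 4) (.ev (nat_lit 1197)
 (nat_lit 32768) .dd))) (.br (nat_lit 11) (.ch (nat_lit 10) (.ev (nat_lit 1184) (nat_lit 4) (.ev (nat_lit 1197)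
 (nat_lit 32768) .dd))) (.ch (nat_lit 11) (.nd (nat_lit 3408) (.br (nat_lit 5) (.br (nat_lit 2) (.ch (nat_lit
 0) (.ev (nat_lit 3892) (nat_lit 4) (.ev (nat_lit 3901) (nat_lit 32768) .dd))) (.br (nat_lit 3) (.ch (nat_lit
 2) (.ev (nat_lit 3476) (nat_lit 32768) (.ev (nat_lit 3485) (nat_lit 4) .dd))) (.ch (nat_lit 3) (.ev (nat_lit
 3604) (nat_lit 32768) (.ev (nat_lit 3613) (nat_lit 4) .dd))))) (.br (nat_lit 9) (.ch (nat_lit 5) (.ev (nat_lit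
 3476) (nat_lit 32768) (.ev (nat_lit 3485) (nat_lit 4) .dd))) (.br (nat_lit 10) (.ch (nat_lit 9) (.ev (nat_lit
 3892) (nat_lit 4) (.ev (nat_lit 3901) (nat_lit 32768) .dd))) (.ch (nat_lit 10) (.ev (nat_lit 3424) (nat_lit 4)
 (.ev (nat_lit 3437) (nat_lit 32768) .dd)))))))))))))))) (.br (nat_lit 4) (.ch (nat_lit 3) (.nd (nat_lit 1264)
 (.br (nat_lit 6) (.br (nat_lit 4) (.br (nat_lit 1) (.ch (nat_lit 0) (.nd (nat_lit 2336) (.br (nat_lit 5) (.br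
 (nat_lit 1) (.ch (nat_lit 0) (.ev (nat_lit 6788) (nat_lit 64) (.nd (nat_lit 7824) (.ch (nat_lit 8) (.nd
 (nat_lit 9120) (.br (nat_lit 12) (.ch (nat_lit 2) (.fin (nat_lit 576492088483856912))) (.ch (nat_lit 12) (.ev
 (nat_lit 9136) (nat_lit 32768) (.ev (nat_lit 9149) (nat_lit 4) .dd))))))))) (.ch (nat_lit 1) (.ev (nat_lit
 2352) (nat_lit 32768) (.ev (nat_lit 2688) (nat_lit 68) .dd)))) (.br (nat_lit 8) (.ch (nat_lit 5) (.ev (nat_lit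
 3012) (nat_lit 64) (.ev (nat_lit 6356) (nat_lit 32768) (.ev (nat_lit 6365) (nat_lit 4) .dd)))) (.br (nat_lit
 12) (.ch (nat_lit 8) (.ev (nat_lit 2352) (nat_lit 64) (.ev (nat_lit 3252) (nat_lit 32768) (.ev (nat_lit 3261)
 (nat_lit 4) .dd)))) (.ch (nat_lit 12) (.ev (nat_lit 2352) (nat_lit 64) (.ev (nat_lit 2740) (nat_lit 4) (.ev
 (nat_lit 2749) (nat_lit 32768) .dd))))))))) (.ch (nat_lit 1) (.ev (nat_lit 1280) (nat_lit 32832) (.ev (nat_lit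
 1293) (nat_lit 4) .dd)))) (.br (nat_lit 5) (.ch (nat_lit 4) (.ev (nat_lit 1280) (nat_lit 4) (.nd (nat_lit
 3408) (.br (nat_lit 7) (.br (nat_lit 3) (.ch (nat_lit 0) (.ev (nat_lit 3424) (nat_lit 32768) (.ev (nat_lit
 3437) (nat_lit 64) .dd))) (.br (nat_lit 4) (.ch (nat_lit 3) (.ev (nat_lit 3424) (nat_lit 64) (.ev (nat_lit
 3437) (nat_lit 32768) .dd))) (.ch (nat_lit 4) (.ev (nat_lit 3424) (nat_lit 32768) (.ev (nat_lit 3437) (nat_lit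
 64) .dd))))) (.br (nat_lit 11) (.br (nat_lit 10) (.ch (nat_lit 7) (.ev (nat_lit 3424) (nat_lit 32768) (.ev
 (nat_lit 3437) (nat_lit 64) .dd))) (.ch (nat_lit 10) (.ev (nat_lit 3424) (nat_lit 64) (.ev (nat_lit 3437)
 (nat_lit 32768) .dd)))) (.br (nat_lit 12) (.ch (nat_lit 11) (.ev (nat_lit 3424) (nat_lit 32768) (.ev (nat_lit
 3437) (nat_lit 64) .dd))) (.ch (nat_lit 12) (.ev (nat_lit 3424) (nat_lit 32768) (.ev (nat_lit 3437) (nat_lit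
 64) .dd))))))))) (.ch (nat_lit 5) (.ev (nat_lit 1280) (nat_lit 32768) (.nd (nat_lit 2624) (.br (nat_lit 4)
 (.br (nat_lit 2) (.ch (nat_lit 1) (.ev (nat_lit 6596) (nat_lit 4) (.ev (nat_lit 6605) (nat_lit 64) .dd))) (.br
 (nat_lit 3) (.ch (nat_lit 2) (.ev (nat_lit 2640) (nat_lit 4) (.ev (nat_lit 2653) (nat_lit 64) .dd))) (.ch
 (nat_lit 3) (.ev (nat_lit 2676) (nat_lit 64) (.ev (nat_lit 2685) (nat_lit 4) .dd))))) (.br (nat_lit 11) (.br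
 (nat_lit 6) (.ch (nat_lit 4) (.ev (nat_lit 2788) (nat_lit 4) (.ev (nat_lit 2797) (nat_lit 64) .dd))) (.ch
 (nat_lit 6) (.ev (nat_lit 2640) (nat_lit 68) .dd))) (.br (nat_lit 12) (.ch (nat_lit 11) (.ev (nat_lit 2640)
 (nat_lit 64) (.ev (nat_lit 2653) (nat_lit 4) .dd))) (.ch (nat_lit 12) (.ev (nat_lit 6740) (nat_lit 64) (.ev
 (nat_lit 6749) (nat_lit 4) .dd))))))))))) (.br (nat_lit 9) (.br (nat_lit 8) (.ch (nat_lit 6) (.ev (nat_lit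
 1280) (nat_lit 64) (.nd (nat_lit 3408) (.br (nat_lit 9) (.ch (nat_lit 7) (.ev (nat_lit 6260) (nat_lit 32768)
 (.ev (nat_lit 6269) (nat_lit 4) .dd))) (.br (nat_lit 10) (.ch (nat_lit 9) (.ev (nat_lit 6148) (nat_lit 32768)
 (.ev (nat_lit 6157) (nat_lit 4) .dd))) (.ch (nat_lit 10) (.ev (nat_lit 3476) (nat_lit 4) (.ev (nat_lit 3485)
 (nat_lit 32768) .dd)))))))) (.ch (nat_lit 8) (.ev (nat_lit 1280) (nat_lit 32768) (.ev (nat_lit 1300) (nat_lit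
 64) (.ev (nat_lit 1309) (nat_lit 4) .dd))))) (.br (nat_lit 11) (.ch (nat_lit 9) (.ev (nat_lit 1280) (nat_lit
 68) (.ev (nat_lit 1293) (nat_lit 32768) .dd))) (.br (nat_lit 12) (.ch (nat_lit 11) (.ev (nat_lit 1280)
 (nat_lit 4) (.ev (nat_lit 2788) (nat_lit 32768) (.ev (nat_lit 2797) (nat_lit 64) .dd)))) (.ch (nat_lit 12)
 (.ev (nat_lit 1280) (nat_lit 64) (.nd (nat_lit 2624) (.br (nat_lit 10) (.br (nat_lit 4) (.ch (nat_lit 3) (.ev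
 (nat_lit 2640) (nat_lit 32768) (.ev (nat_lit 2653) (nat_lit 4) .dd))) (.br (nat_lit 6) (.ch (nat_lit 4) (.ev
 (nat_lit 2640) (nat_lit 32768) (.ev (nat_lit 2653) (nat_lit 4) .dd))) (.ch (nat_lit 6) (.ev (nat_lit 2640)
 (nat_lit 32768) (.ev (nat_lit 2653) (nat_lit 4) .dd))))) (.br (nat_lit 11) (.ch (nat_lit 10) (.ev (nat_lit
 2640) (nat_lit 32768) (.ev (nat_lit 2653) (nat_lit 4) .dd))) (.br (nat_lit 12) (.ch (nat_lit 11) (.ev (nat_lit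
 2640) (nat_lit 4) (.ev (nat_lit 2653) (nat_lit 32768) .dd))) (.ch (nat_lit 12) (.ev (nat_lit 2640) (nat_lit 4)
 (.ev (nat_lit 2653) (nat_lit 32768) .dd))))))))))))))) (.ch (nat_lit 4) (.nd (nat_lit 1264) (.br (nat_lit 6)
 (.br (nat_lit 4) (.br (nat_lit 3) (.ch (nat_lit 0) (.ev (nat_lit 1280) (nat_lit 32768) (.ev (nat_lit 1300)
 (nat_lit 64) (.ev (nat_lit 1309) (nat_lit 4) .dd)))) (.ch (nat_lit 3) (.ev (nat_lit 1280) (nat_lit 64) (.ev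
 (nat_lit 1396) (nat_lit 4) (.ev (nat_lit 1405) (nat_lit 32768) .dd))))) (.br (nat_lit 5) (.ch (nat_lit 4) (.ev
 (nat_lit 1300) (nat_lit 32832) (.ev (nat_lit 1309) (nat_lit 4) .dd))) (.ch (nat_lit 5) (.ev (nat_lit 1280)
 (nat_lit 68) (.ev (nat_lit 1293) (nat_lit 32768) .dd))))) (.br (nat_lit 8) (.br (nat_lit 7) (.ch (nat_lit 6)
 (.ev (nat_lit 1380) (nat_lit 32768) (.nd (nat_lit 3984) (.br (nat_lit 5) (.br (nat_lit 2) (.ch (nat_lit 0)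
 (.ev (nat_lit 4000) (nat_lit 4) (.ev (nat_lit 4013) (nat_lit 64) .dd))) (.br (nat_lit 4) (.ch (nat_lit 2) (.ev
 (nat_lit 4000) (nat_lit 68) .dd)) (.ch (nat_lit 4) (.ev (nat_lit 4000) (nat_lit 4) (.ev (nat_lit 4013)
 (nat_lit 64) .dd))))) (.br (nat_lit 8) (.ch (nat_lit 5) (.ev (nat_lit 4000) (nat_lit 64) (.ev (nat_lit 4013)
 (nat_lit 4) .dd))) (.br (nat_lit 12) (.ch (nat_lit 8) (.fin (nat_lit 576440411368145422))) (.ch (nat_lit 12)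
 (.ev (nat_lit 4000) (nat_lit 4) (.ev (nat_lit 4013) (nat_lit 64) .dd))))))))) (.ch (nat_lit 7) (.ev (nat_lit
 1280) (nat_lit 32772) (.ev (nat_lit 1293) (nat_lit 64) .dd)))) (.br (nat_lit 9) (.ch (nat_lit 8) (.ev (nat_lit
 1280) (nat_lit 32772) (.ev (nat_lit 1293) (nat_lit 64) .dd))) (.br (nat_lit 10) (.ch (nat_lit 9) (.ev (nat_lit
 1364) (nat_lit 64) (.nd (nat_lit 3984) (.br (nat_lit 6) (.br (nat_lit 2) (.ch (nat_lit 0) (.ev (nat_lit 4000)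
 (nat_lit 32772) .dd)) (.br (nat_lit 4) (.ch (nat_lit 2) (.ev (nat_lit 4000) (nat_lit 32772) .dd)) (.ch
 (nat_lit 4) (.ev (nat_lit 4000) (nat_lit 32772) .dd)))) (.br (nat_lit 9) (.ch (nat_lit 6) (.fin (nat_lit
 576452505993953867))) (.br (nat_lit 11) (.ch (nat_lit 9) (.ev (nat_lit 4000) (nat_lit 32772) .dd)) (.ch
 (nat_lit 11) (.ev (nat_lit 4000) (nat_lit 32772) .dd)))))))) (.ch (nat_lit 10) (.ev (nat_lit 1280) (nat_lit
 32836) .dd)))))))))) (.br (nat_lit 10) (.br (nat_lit 9) (.ch (nat_lit 8) (.ev (nat_lit 448) (nat_lit 64) (.nd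
 (nat_lit 784) (.br (nat_lit 4) (.br (nat_lit 2) (.br (nat_lit 1) (.ch (nat_lit 0) (.nd (nat_lit 1744) (.br
 (nat_lit 9) (.br (nat_lit 4) (.ch (nat_lit 2) (.ev (nat_lit 1760) (nat_lit 32768) (.ev (nat_lit 1773) (nat_lit
 4) .dd))) (.br (nat_lit 5) (.ch (nat_lit 4) (.ev (nat_lit 1760) (nat_lit 32772) .dd)) (.ch (nat_lit 5) (.ev
 (nat_lit 1760) (nat_lit 32768) (.ev (nat_lit 1773) (nat_lit 4) .dd))))) (.br (nat_lit 11) (.br (nat_lit 10)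
 (.ch (nat_lit 9) (.ev (nat_lit 1760) (nat_lit 32768) (.ev (nat_lit 1773) (nat_lit 4) .dd))) (.ch (nat_lit 10)
 (.nd (nat_lit 4864) (.br (nat_lit 7) (.ch (nat_lit 4) (.ev (nat_lit 4880) (nat_lit 32768) (.ev (nat_lit 4893)
 (nat_lit 4) .dd))) (.br (nat_lit 9) (.ch (nat_lit 7) (.ev (nat_lit 4880) (nat_lit 32768) (.ev (nat_lit 4893)
 (nat_lit 4) .dd))) (.ch (nat_lit 9) (.ev (nat_lit 6260) (nat_lit 32768) (.ev (nat_lit 6269) (nat_lit 4)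
 .dd)))))))) (.br (nat_lit 12) (.ch (nat_lit 11) (.ev (nat_lit 1760) (nat_lit 32768) (.ev (nat_lit 1773)
 (nat_lit 4) .dd))) (.ch (nat_lit 12) (.ev (nat_lit 1760) (nat_lit 4) (.ev (nat_lit 1773) (nat_lit 32768)
 .dd)))))))) (.ch (nat_lit 1) (.nd (nat_lit 1840) (.br (nat_lit 5) (.br (nat_lit 3) (.ch (nat_lit 2) (.ev
 (nat_lit 1856) (nat_lit 4) (.ev (nat_lit 1869) (nat_lit 32768) .dd))) (.br (nat_lit 4) (.ch (nat_lit 3) (.ev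
 (nat_lit 1856) (nat_lit 4) (.ev (nat_lit 1869) (nat_lit 32768) .dd))) (.ch (nat_lit 4) (.ev (nat_lit 6596)
 (nat_lit 32768) (.ev (nat_lit 6605) (nat_lit 4) .dd))))) (.br (nat_lit 9) (.br (nat_lit 7) (.ch (nat_lit 5)
 (.ev (nat_lit 1856) (nat_lit 32768) (.ev (nat_lit 1869) (nat_lit 4) .dd))) (.ch (nat_lit 7) (.ev (nat_lit
 2740) (nat_lit 32768) (.ev (nat_lit 2749) (nat_lit 4) .dd)))) (.br (nat_lit 10) (.ch (nat_lit 9) (.ev (nat_lit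
 1856) (nat_lit 32768) (.ev (nat_lit 1869) (nat_lit 4) .dd))) (.ch (nat_lit 10) (.ev (nat_lit 2164) (nat_lit
 32768) (.ev (nat_lit 2173) (nat_lit 4) .dd))))))))) (.br (nat_lit 3) (.ch (nat_lit 2) (.ev (nat_lit 800)
 (nat_lit 32772) .dd)) (.ch (nat_lit 3) (.nd (nat_lit 3408) (.br (nat_lit 7) (.br (nat_lit 2) (.ch (nat_lit 1)
 (.ev (nat_lit 3424) (nat_lit 32772) .dd)) (.br (nat_lit 6) (.ch (nat_lit 2) (.ev (nat_lit 3476) (nat_lit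
 32768) (.ev (nat_lit 3485) (nat_lit 4) .dd))) (.ch (nat_lit 6) (.ev (nat_lit 3424) (nat_lit 4) (.ev (nat_lit
 3437) (nat_lit 32768) .dd))))) (.br (nat_lit 10) (.br (nat_lit 8) (.ch (nat_lit 7) (.ev (nat_lit 3700)
 (nat_lit 4) (.ev (nat_lit 3709) (nat_lit 32768) .dd))) (.ch (nat_lit 8) (.ev (nat_lit 3424) (nat_lit 4) (.ev
 (nat_lit 3437) (nat_lit 32768) .dd)))) (.br (nat_lit 12) (.ch (nat_lit 10) (.ev (nat_lit 3424) (nat_lit 4)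
 (.ev (nat_lit 3437) (nat_lit 32768) .dd))) (.ch (nat_lit 12) (.ev (nat_lit 3476) (nat_lit 4) (.ev (nat_lit
 3485) (nat_lit 32768) .dd)))))))))) (.br (nat_lit 10) (.br (nat_lit 6) (.ch (nat_lit 4) (.ev (nat_lit 800)
 (nat_lit 4) (.ev (nat_lit 813) (nat_lit 32768) .dd))) (.ch (nat_lit 6) (.ev (nat_lit 800) (nat_lit 4) (.ev
 (nat_lit 813) (nat_lit 32768) .dd)))) (.br (nat_lit 11) (.ch (nat_lit 10) (.ev (nat_lit 800) (nat_lit 4) (.ev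
 (nat_lit 813) (nat_lit 32768) .dd))) (.br (nat_lit 12) (.ch (nat_lit 11) (.ev (nat_lit 800) (nat_lit 32768)
 (.ev (nat_lit 813) (nat_lit 4) .dd))) (.ch (nat_lit 12) (.ev (nat_lit 800) (nat_lit 32768) (.ev (nat_lit 813)
 (nat_lit 4) .dd)))))))))) (.ch (nat_lit 9) (.ev (nat_lit 448) (nat_lit 32768) (.nd (nat_lit 1008) (.br
 (nat_lit 6) (.br (nat_lit 3) (.br (nat_lit 2) (.ch (nat_lit 0) (.ev (nat_lit 1024) (nat_lit 64) (.ev (nat_lit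
 1037) (nat_lit 4) .dd))) (.ch (nat_lit 2) (.nd (nat_lit 1744) (.br (nat_lit 6) (.br (nat_lit 1) (.ch (nat_lit
 0) (.ev (nat_lit 6260) (nat_lit 64) (.ev (nat_lit 6269) (nat_lit 4) .dd))) (.br (nat_lit 2) (.ch (nat_lit 1)
 (.ev (nat_lit 6868) (nat_lit 64) (.ev (nat_lit 6877) (nat_lit 4) .dd))) (.ch (nat_lit 2) (.ev (nat_lit 6260)
 (nat_lit 64) (.ev (nat_lit 6269) (nat_lit 4) .dd))))) (.br (nat_lit 9) (.ch (nat_lit 6) (.nd (nat_lit 4592)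
 (.br (nat_lit 7) (.br (nat_lit 6) (.ch (nat_lit 5) (.ev (nat_lit 4608) (nat_lit 4) (.ev (nat_lit 4621)
 (nat_lit 64) .dd))) (.ch (nat_lit 6) (.ev (nat_lit 4608) (nat_lit 64) (.ev (nat_lit 4621) (nat_lit 4) .dd))))
 (.br (nat_lit 8) (.ch (nat_lit 7) (.ev (nat_lit 4608) (nat_lit 68) .dd)) (.br (nat_lit 11) (.ch (nat_lit 8)
 (.ev (nat_lit 6260) (nat_lit 4) (.ev (nat_lit 6269) (nat_lit 64) .dd))) (.ch (nat_lit 11) (.nd (nat_lit 8016)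
 (.br (nat_lit 4) (.ch (nat_lit 0) (.fin (nat_lit 575959926556803308))) (.ch (nat_lit 4) (.ev (nat_lit 8032)
 (nat_lit 64) (.ev (nat_lit 8045) (nat_lit 4) .dd))))))))))) (.br (nat_lit 11) (.ch (nat_lit 9) (.ev (nat_lit
 3012) (nat_lit 64) (.ev (nat_lit 3021) (nat_lit 4) .dd))) (.ch (nat_lit 11) (.ev (nat_lit 1760) (nat_lit 68)
 .dd)))))))) (.br (nat_lit 4) (.ch (nat_lit 3) (.ev (nat_lit 1024) (nat_lit 4) (.ev (nat_lit 1037) (nat_lit 64)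
 .dd))) (.ch (nat_lit 4) (.ev (nat_lit 1024) (nat_lit 4) (.ev (nat_lit 1037) (nat_lit 64) .dd))))) (.br
 (nat_lit 9) (.br (nat_lit 8) (.ch (nat_lit 6) (.ev (nat_lit 1204) (nat_lit 64) (.ev (nat_lit 1213) (nat_lit 4)
 .dd))) (.ch (nat_lit 8) (.ev (nat_lit 1024) (nat_lit 64) (.ev (nat_lit 1037) (nat_lit 4) .dd)))) (.br (nat_lit
 11) (.ch (nat_lit 9) (.nd (nat_lit 1648) (.br (nat_lit 5) (.br (nat_lit 2) (.br (nat_lit 1) (.ch (nat_lit 0)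
 (.fin (nat_lit 576461302086976036))) (.ch (nat_lit 1) (.ev (nat_lit 1664) (nat_lit 64) (.ev (nat_lit 1677)
 (nat_lit 4) .dd)))) (.br (nat_lit 3) (.ch (nat_lit 2) (.ev (nat_lit 2388) (nat_lit 64) (.ev (nat_lit 2397)
 (nat_lit 4) .dd))) (.ch (nat_lit 3) (.ev (nat_lit 1664) (nat_lit 64) (.ev (nat_lit 1677) (nat_lit 4) .dd)))))
 (.br (nat_lit 9) (.br (nat_lit 6) (.ch (nat_lit 5) (.ev (nat_lit 1664) (nat_lit 4) (.ev (nat_lit 1677)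
 (nat_lit 64) .dd))) (.ch (nat_lit 6) (.ev (nat_lit 1664) (nat_lit 64) (.ev (nat_lit 1677) (nat_lit 4) .dd))))
 (.br (nat_lit 12) (.ch (nat_lit 9) (.ev (nat_lit 1664) (nat_lit 64) (.ev (nat_lit 1677) (nat_lit 4) .dd)))
 (.ch (nat_lit 12) (.ev (nat_lit 1664) (nat_lit 4) (.ev (nat_lit 1677) (nat_lit 64) .dd)))))))) (.br (nat_lit
 12) (.ch (nat_lit 11) (.ev (nat_lit 1024) (nat_lit 64) (.ev (nat_lit 1037) (nat_lit 4) .dd))) (.ch (nat_lit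
 12) (.ev (nat_lit 1024) (nat_lit 68) .dd)))))))))) (.br (nat_lit 11) (.ch (nat_lit 10) (.ev (nat_lit 448)
 (nat_lit 32836) .dd)) (.br (nat_lit 12) (.ch (nat_lit 11) (.ev (nat_lit 448) (nat_lit 32772) (.ev (nat_lit
 461) (nat_lit 64) .dd))) (.ch (nat_lit 12) (.ev (nat_lit 448) (nat_lit 4) (.nd (nat_lit 1168) (.br (nat_lit 5)
 (.br (nat_lit 3) (.br (nat_lit 2) (.ch (nat_lit 0) (.nd (nat_lit 2624) (.br (nat_lit 4) (.br (nat_lit 3) (.ch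
 (nat_lit 1) (.ev (nat_lit 2676) (nat_lit 32768) (.ev (nat_lit 2685) (nat_lit 64) .dd))) (.ch (nat_lit 3) (.ev
 (nat_lit 2640) (nat_lit 32768) (.ev (nat_lit 2653) (nat_lit 64) .dd)))) (.br (nat_lit 11) (.ch (nat_lit 4)
 (.ev (nat_lit 2640) (nat_lit 32768) (.ev (nat_lit 2653) (nat_lit 64) .dd))) (.br (nat_lit 12) (.ch (nat_lit
 11) (.ev (nat_lit 2740) (nat_lit 64) (.ev (nat_lit 2749) (nat_lit 32768) .dd))) (.ch (nat_lit 12) (.ev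
 (nat_lit 2676) (nat_lit 64) (.ev (nat_lit 2685) (nat_lit 32768) .dd)))))))) (.ch (nat_lit 2) (.ev (nat_lit
 1184) (nat_lit 32768) (.ev (nat_lit 1197) (nat_lit 64) .dd)))) (.br (nat_lit 4) (.ch (nat_lit 3) (.ev (nat_lit
 1184) (nat_lit 64) (.ev (nat_lit 1197) (nat_lit 32768) .dd))) (.ch (nat_lit 4) (.nd (nat_lit 2336) (.br
 (nat_lit 5) (.br (nat_lit 3) (.br (nat_lit 2) (.ch (nat_lit 0) (.ev (nat_lit 2372) (nat_lit 64) (.ev (nat_lit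
 2381) (nat_lit 32768) .dd))) (.ch (nat_lit 2) (.ev (nat_lit 2352) (nat_lit 32768) (.ev (nat_lit 2365) (nat_lit
 64) .dd)))) (.br (nat_lit 4) (.ch (nat_lit 3) (.ev (nat_lit 2352) (nat_lit 32768) (.ev (nat_lit 2365) (nat_lit
 64) .dd))) (.ch (nat_lit 4) (.ev (nat_lit 6656) (nat_lit 32832) .dd)))) (.br (nat_lit 9) (.br (nat_lit 8) (.ch
 (nat_lit 5) (.ev (nat_lit 2352) (nat_lit 64) (.ev (nat_lit 2365) (nat_lit 32768) .dd))) (.ch (nat_lit 8) (.ev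
 (nat_lit 2352) (nat_lit 64) (.ev (nat_lit 2365) (nat_lit 32768) .dd)))) (.br (nat_lit 10) (.ch (nat_lit 9)
 (.ev (nat_lit 2352) (nat_lit 32832) .dd)) (.br (nat_lit 11) (.ch (nat_lit 10) (.ev (nat_lit 2372) (nat_lit 64)
 (.ev (nat_lit 2381) (nat_lit 32768) .dd))) (.ch (nat_lit 11) (.ev (nat_lit 2372) (nat_lit 64) (.ev (nat_lit
 2381) (nat_lit 32768) .dd))))))))))) (.br (nat_lit 8) (.br (nat_lit 6) (.ch (nat_lit 5) (.nd (nat_lit 2624)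
 (.br (nat_lit 7) (.br (nat_lit 2) (.ch (nat_lit 0) (.ev (nat_lit 2640) (nat_lit 64) (.ev (nat_lit 2653)
 (nat_lit 32768) .dd))) (.br (nat_lit 5) (.ch (nat_lit 2) (.ev (nat_lit 2640) (nat_lit 32768) (.ev (nat_lit
 2653) (nat_lit 64) .dd))) (.ch (nat_lit 5) (.ev (nat_lit 2640) (nat_lit 32768) (.ev (nat_lit 2653) (nat_lit
 64) .dd))))) (.br (nat_lit 11) (.br (nat_lit 10) (.ch (nat_lit 7) (.ev (nat_lit 2640) (nat_lit 64) (.ev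
 (nat_lit 2653) (nat_lit 32768) .dd))) (.ch (nat_lit 10) (.ev (nat_lit 2788) (nat_lit 64) (.ev (nat_lit 2797)
 (nat_lit 32768) .dd)))) (.br (nat_lit 12) (.ch (nat_lit 11) (.ev (nat_lit 7108) (nat_lit 64) (.ev (nat_lit
 7117) (nat_lit 32768) .dd))) (.ch (nat_lit 12) (.ev (nat_lit 2676) (nat_lit 64) (.ev (nat_lit 2685) (nat_lit
 32768) .dd)))))))) (.ch (nat_lit 6) (.nd (nat_lit 3408) (.br (nat_lit 6) (.ch (nat_lit 4) (.ev (nat_lit 6868)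
 (nat_lit 64) (.ev (nat_lit 6877) (nat_lit 32768) .dd))) (.ch (nat_lit 6) (.ev (nat_lit 3476) (nat_lit 64) (.ev
 (nat_lit 3485) (nat_lit 32768) .dd))))))) (.br (nat_lit 10) (.ch (nat_lit 8) (.ev (nat_lit 1184) (nat_lit
 32832) .dd)) (.br (nat_lit 11) (.ch (nat_lit 10) (.nd (nat_lit 2624) (.br (nat_lit 8) (.br (nat_lit 1) (.ch
 (nat_lit 0) (.ev (nat_lit 3604) (nat_lit 64) (.ev (nat_lit 3613) (nat_lit 32768) .dd))) (.br (nat_lit 7) (.ch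
 (nat_lit 1) (.ev (nat_lit 2640) (nat_lit 32768) (.ev (nat_lit 2653) (nat_lit 64) .dd))) (.ch (nat_lit 7) (.fin
 (nat_lit 576915400198406406))))) (.br (nat_lit 10) (.ch (nat_lit 8) (.ev (nat_lit 2640) (nat_lit 32768) (.ev
 (nat_lit 2653) (nat_lit 64) .dd))) (.br (nat_lit 12) (.ch (nat_lit 10) (.ev (nat_lit 7028) (nat_lit 64) (.ev
 (nat_lit 7037) (nat_lit 32768) .dd))) (.ch (nat_lit 12) (.ev (nat_lit 2676) (nat_lit 64) (.ev (nat_lit 2685)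
 (nat_lit 32768) .dd)))))))) (.ch (nat_lit 11) (.ev (nat_lit 1184) (nat_lit 32832) .dd)))))))))))))))) (.br
 (nat_lit 12) (.ch (nat_lit 11) (.ev (nat_lit 48) (nat_lit 12288) (.nd (nat_lit 528) (.br (nat_lit 4) (.br
 (nat_lit 2) (.br (nat_lit 1) (.ch (nat_lit 0) (.nd (nat_lit 1168) (.br (nat_lit 7) (.br (nat_lit 3) (.br
 (nat_lit 2) (.ch (nat_lit 1) (.ev (nat_lit 1184) (nat_lit 32800) (.nd (nat_lit 2336) (.br (nat_lit 8) (.br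
 (nat_lit 4) (.ch (nat_lit 3) (.ev (nat_lit 2452) (nat_lit 4) (.ev (nat_lit 2461) (nat_lit 64) .dd))) (.ch
 (nat_lit 4) (.ev (nat_lit 2352) (nat_lit 4) (.ev (nat_lit 2365) (nat_lit 64) .dd)))) (.br (nat_lit 11) (.ch
 (nat_lit 8) (.ev (nat_lit 3252) (nat_lit 64) (.ev (nat_lit 3261) (nat_lit 4) .dd))) (.br (nat_lit 12) (.ch
 (nat_lit 11) (.ev (nat_lit 2788) (nat_lit 4) (.ev (nat_lit 2797) (nat_lit 64) .dd))) (.ch (nat_lit 12) (.ev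
 (nat_lit 3252) (nat_lit 64) (.ev (nat_lit 3261) (nat_lit 4) .dd))))))))) (.ch (nat_lit 2) (.ev (nat_lit 1184)
 (nat_lit 32) (.ev (nat_lit 1332) (nat_lit 64) (.nd (nat_lit 3408) (.br (nat_lit 8) (.br (nat_lit 1) (.ch
 (nat_lit 0) (.ev (nat_lit 3424) (nat_lit 4) (.ev (nat_lit 3437) (nat_lit 32768) .dd))) (.br (nat_lit 2) (.ch
 (nat_lit 1) (.ev (nat_lit 3424) (nat_lit 4) (.ev (nat_lit 3437) (nat_lit 32768) .dd))) (.ch (nat_lit 2) (.ev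
 (nat_lit 3476) (nat_lit 32768) (.ev (nat_lit 3485) (nat_lit 4) .dd))))) (.br (nat_lit 9) (.ch (nat_lit 8) (.ev
 (nat_lit 3540) (nat_lit 32768) (.ev (nat_lit 3549) (nat_lit 4) .dd))) (.br (nat_lit 11) (.ch (nat_lit 9) (.ev
 (nat_lit 3476) (nat_lit 32768) (.ev (nat_lit 3485) (nat_lit 4) .dd))) (.ch (nat_lit 11) (.ev (nat_lit 3424)
 (nat_lit 4) (.ev (nat_lit 3437) (nat_lit 32768) .dd))))))))))) (.br (nat_lit 5) (.ch (nat_lit 3) (.ev (nat_lit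
 1184) (nat_lit 32800) (.nd (nat_lit 3408) (.br (nat_lit 8) (.br (nat_lit 1) (.ch (nat_lit 0) (.ev (nat_lit
 4052) (nat_lit 64) (.ev (nat_lit 4061) (nat_lit 4) .dd))) (.br (nat_lit 2) (.ch (nat_lit 1) (.ev (nat_lit
 3424) (nat_lit 4) (.ev (nat_lit 3437) (nat_lit 64) .dd))) (.ch (nat_lit 2) (.ev (nat_lit 3424) (nat_lit 64)
 (.ev (nat_lit 3437) (nat_lit 4) .dd))))) (.br (nat_lit 11) (.br (nat_lit 9) (.ch (nat_lit 8) (.ev (nat_lit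
 3424) (nat_lit 4) (.ev (nat_lit 3437) (nat_lit 64) .dd))) (.ch (nat_lit 9) (.ev (nat_lit 3424) (nat_lit 4)
 (.ev (nat_lit 3437) (nat_lit 64) .dd)))) (.br (nat_lit 12) (.ch (nat_lit 11) (.ev (nat_lit 3424) (nat_lit 4)
 (.ev (nat_lit 3437) (nat_lit 64) .dd))) (.ch (nat_lit 12) (.fin (nat_lit 576461302036644422))))))))) (.ch
 (nat_lit 5) (.ev (nat_lit 1184) (nat_lit 36) (.ev (nat_lit 1300) (nat_lit 32768) (.ev (nat_lit 1309) (nat_lit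
 64) .dd)))))) (.br (nat_lit 10) (.br (nat_lit 9) (.ch (nat_lit 7) (.ev (nat_lit 1184) (nat_lit 68) (.nd
 (nat_lit 2128) (.br (nat_lit 8) (.br (nat_lit 3) (.ch (nat_lit 0) (.ev (nat_lit 2740) (nat_lit 32768) (.ev
 (nat_lit 2749) (nat_lit 32) .dd))) (.ch (nat_lit 3) (.ev (nat_lit 2676) (nat_lit 32768) (.ev (nat_lit 2685)
 (nat_lit 32) .dd)))) (.br (nat_lit 9) (.ch (nat_lit 8) (.ev (nat_lit 5540) (nat_lit 32768) (.ev (nat_lit 5549)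
 (nat_lit 32) .dd))) (.ch (nat_lit 9) (.ev (nat_lit 2676) (nat_lit 32768) (.ev (nat_lit 2685) (nat_lit 32)
 .dd)))))))) (.ch (nat_lit 9) (.ev (nat_lit 1184) (nat_lit 64) (.nd (nat_lit 1968) (.br (nat_lit 4) (.br
 (nat_lit 2) (.ch (nat_lit 0) (.ev (nat_lit 1984) (nat_lit 32768) (.ev (nat_lit 6596) (nat_lit 4) (.ev (nat_lit
 6605) (nat_lit 32) .dd)))) (.br (nat_lit 3) (.ch (nat_lit 2) (.ev (nat_lit 2740) (nat_lit 4) (.ev (nat_lit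
 5936) (nat_lit 32768) (.ev (nat_lit 5949) (nat_lit 32) .dd)))) (.ch (nat_lit 3) (.ev (nat_lit 1984) (nat_lit
 32) (.ev (nat_lit 2372) (nat_lit 32768) (.ev (nat_lit 2381) (nat_lit 4) .dd)))))) (.br (nat_lit 8) (.br
 (nat_lit 5) (.ch (nat_lit 4) (.ev (nat_lit 1984) (nat_lit 4) (.ev (nat_lit 2372) (nat_lit 32768) (.ev (nat_lit
 2381) (nat_lit 32) .dd)))) (.ch (nat_lit 5) (.ev (nat_lit 1984) (nat_lit 32768) (.nd (nat_lit 7264) (.ch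
 (nat_lit 11) (.nd (nat_lit 8656) (.br (nat_lit 11) (.ch (nat_lit 2) (.fin (nat_lit 576284280847024538))) (.ch
 (nat_lit 11) (.ev (nat_lit 8672) (nat_lit 4) (.ev (nat_lit 8685) (nat_lit 32) .dd)))))))))) (.br (nat_lit 12)
 (.ch (nat_lit 8) (.ev (nat_lit 1984) (nat_lit 32) (.ev (nat_lit 5140) (nat_lit 32768) (.ev (nat_lit 5149)
 (nat_lit 4) .dd)))) (.ch (nat_lit 12) (.ev (nat_lit 1984) (nat_lit 4) (.ev (nat_lit 2372) (nat_lit 32768) (.ev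
 (nat_lit 2381) (nat_lit 32) .dd))))))))))) (.br (nat_lit 11) (.ch (nat_lit 10) (.ev (nat_lit 1300) (nat_lit
 32832) (.nd (nat_lit 1968) (.br (nat_lit 8) (.br (nat_lit 4) (.ch (nat_lit 1) (.ev (nat_lit 1984) (nat_lit 4)
 (.ev (nat_lit 1997) (nat_lit 32) .dd))) (.br (nat_lit 6) (.ch (nat_lit 4) (.ev (nat_lit 6176) (nat_lit 4) (.ev
 (nat_lit 6189) (nat_lit 32) .dd))) (.ch (nat_lit 6) (.ev (nat_lit 1984) (nat_lit 32) (.ev (nat_lit 1997)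
 (nat_lit 4) .dd))))) (.br (nat_lit 10) (.br (nat_lit 9) (.ch (nat_lit 8) (.ev (nat_lit 6800) (nat_lit 32) (.ev
 (nat_lit 6813) (nat_lit 4) .dd))) (.ch (nat_lit 9) (.ev (nat_lit 1984) (nat_lit 4) (.ev (nat_lit 1997)
 (nat_lit 32) .dd)))) (.br (nat_lit 11) (.ch (nat_lit 10) (.ev (nat_lit 6656) (nat_lit 32) (.ev (nat_lit 6669)
 (nat_lit 4) .dd))) (.ch (nat_lit 11) (.ev (nat_lit 1984) (nat_lit 32) (.ev (nat_lit 1997) (nat_lit 4)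
 .dd))))))))) (.br (nat_lit 12) (.ch (nat_lit 11) (.ev (nat_lit 1184) (nat_lit 68) (.ev (nat_lit 1332) (nat_lit
 32768) (.ev (nat_lit 1341) (nat_lit 32) .dd)))) (.ch (nat_lit 12) (.ev (nat_lit 1184) (nat_lit 32832) (.nd
 (nat_lit 2624) (.br (nat_lit 2) (.ch (nat_lit 1) (.ev (nat_lit 2640) (nat_lit 32) (.ev (nat_lit 2653) (nat_lit
 4) .dd))) (.br (nat_lit 6) (.ch (nat_lit 2) (.fin (nat_lit 576641621962474415))) (.ch (nat_lit 6) (.ev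
 (nat_lit 2640) (nat_lit 4) (.ev (nat_lit 2653) (nat_lit 32) .dd)))))))))))))) (.ch (nat_lit 1) (.ev (nat_lit
 544) (nat_lit 32) (.nd (nat_lit 1168) (.br (nat_lit 5) (.br (nat_lit 3) (.br (nat_lit 1) (.ch (nat_lit 0) (.nd
 (nat_lit 2336) (.br (nat_lit 9) (.br (nat_lit 4) (.ch (nat_lit 0) (.ev (nat_lit 2352) (nat_lit 32768) (.ev
 (nat_lit 2820) (nat_lit 64) (.ev (nat_lit 2829) (nat_lit 4) .dd)))) (.br (nat_lit 5) (.ch (nat_lit 4) (.ev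
 (nat_lit 2676) (nat_lit 32768) (.ev (nat_lit 3700) (nat_lit 4) (.ev (nat_lit 3709) (nat_lit 64) .dd)))) (.ch
 (nat_lit 5) (.ev (nat_lit 2352) (nat_lit 4) (.ev (nat_lit 2820) (nat_lit 32768) (.ev (nat_lit 2829) (nat_lit
 64) .dd)))))) (.br (nat_lit 10) (.ch (nat_lit 9) (.ev (nat_lit 6260) (nat_lit 64) (.ev (nat_lit 6692) (nat_lit
 4) (.ev (nat_lit 6701) (nat_lit 32768) .dd)))) (.br (nat_lit 11) (.ch (nat_lit 10) (.ev (nat_lit 2352)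
 (nat_lit 64) (.ev (nat_lit 6644) (nat_lit 4) (.ev (nat_lit 6653) (nat_lit 32768) .dd)))) (.ch (nat_lit 11)
 (.ev (nat_lit 2352) (nat_lit 64) (.ev (nat_lit 2372) (nat_lit 4) (.ev (nat_lit 2381) (nat_lit 32768)
 .dd))))))))) (.ch (nat_lit 1) (.ev (nat_lit 1184) (nat_lit 32768) (.nd (nat_lit 2128) (.br (nat_lit 6) (.br
 (nat_lit 2) (.ch (nat_lit 1) (.ev (nat_lit 2740) (nat_lit 64) (.ev (nat_lit 2749) (nat_lit 4) .dd))) (.br
 (nat_lit 5) (.ch (nat_lit 2) (.ev (nat_lit 2484) (nat_lit 4) (.ev (nat_lit 2493) (nat_lit 64) .dd))) (.ch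
 (nat_lit 5) (.ev (nat_lit 2144) (nat_lit 4) (.ev (nat_lit 2157) (nat_lit 64) .dd))))) (.br (nat_lit 9) (.br
 (nat_lit 8) (.ch (nat_lit 6) (.ev (nat_lit 2144) (nat_lit 64) (.ev (nat_lit 2157) (nat_lit 4) .dd))) (.ch
 (nat_lit 8) (.ev (nat_lit 2164) (nat_lit 4) (.ev (nat_lit 2173) (nat_lit 64) .dd)))) (.br (nat_lit 10) (.ch
 (nat_lit 9) (.ev (nat_lit 2144) (nat_lit 64) (.ev (nat_lit 2157) (nat_lit 4) .dd))) (.ch (nat_lit 10) (.ev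
 (nat_lit 2144) (nat_lit 4) (.ev (nat_lit 2157) (nat_lit 64) .dd)))))))))) (.br (nat_lit 4) (.ch (nat_lit 3)
 (.nd (nat_lit 2336) (.br (nat_lit 5) (.br (nat_lit 2) (.br (nat_lit 1) (.ch (nat_lit 0) (.ev (nat_lit 2352)
 (nat_lit 32768) (.ev (nat_lit 2372) (nat_lit 4) (.ev (nat_lit 2381) (nat_lit 64) .dd)))) (.ch (nat_lit 1) (.ev
 (nat_lit 2352) (nat_lit 32772) (.ev (nat_lit 2365) (nat_lit 64) .dd)))) (.br (nat_lit 4) (.ch (nat_lit 2) (.ev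
 (nat_lit 2820) (nat_lit 32768) (.ev (nat_lit 6452) (nat_lit 64) (.ev (nat_lit 6461) (nat_lit 4) .dd)))) (.ch
 (nat_lit 4) (.ev (nat_lit 2352) (nat_lit 32768) (.ev (nat_lit 2372) (nat_lit 4) (.ev (nat_lit 2381) (nat_lit
 64) .dd)))))) (.br (nat_lit 11) (.br (nat_lit 8) (.ch (nat_lit 5) (.ev (nat_lit 2820) (nat_lit 32768) (.ev
 (nat_lit 7072) (nat_lit 68) .dd))) (.ch (nat_lit 8) (.ev (nat_lit 2352) (nat_lit 68) (.ev (nat_lit 2365)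
 (nat_lit 32768) .dd)))) (.br (nat_lit 12) (.ch (nat_lit 11) (.ev (nat_lit 2352) (nat_lit 64) (.ev (nat_lit
 2820) (nat_lit 32768) (.ev (nat_lit 2829) (nat_lit 4) .dd)))) (.ch (nat_lit 12) (.ev (nat_lit 2352) (nat_lit
 32768) (.ev (nat_lit 6464) (nat_lit 4) (.ev (nat_lit 6477) (nat_lit 64) .dd))))))))) (.ch (nat_lit 4) (.ev
 (nat_lit 1184) (nat_lit 64) (.nd (nat_lit 2336) (.br (nat_lit 9) (.br (nat_lit 7) (.ch (nat_lit 2) (.ev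
 (nat_lit 6752) (nat_lit 32772) .dd)) (.ch (nat_lit 7) (.ev (nat_lit 2352) (nat_lit 32768) (.ev (nat_lit 2365)
 (nat_lit 4) .dd)))) (.br (nat_lit 11) (.ch (nat_lit 9) (.ev (nat_lit 2688) (nat_lit 32772) .dd)) (.br (nat_lit
 12) (.ch (nat_lit 11) (.ev (nat_lit 2948) (nat_lit 4) (.ev (nat_lit 2957) (nat_lit 32768) .dd))) (.ch (nat_lit
 12) (.ev (nat_lit 2352) (nat_lit 32768) (.ev (nat_lit 2365) (nat_lit 4) .dd))))))))))) (.br (nat_lit 8) (.br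
 (nat_lit 6) (.ch (nat_lit 5) (.ev (nat_lit 1184) (nat_lit 32768) (.nd (nat_lit 2336) (.br (nat_lit 8) (.br
 (nat_lit 4) (.br (nat_lit 3) (.ch (nat_lit 1) (.ev (nat_lit 2352) (nat_lit 64) (.ev (nat_lit 2365) (nat_lit 4)
 .dd))) (.ch (nat_lit 3) (.ev (nat_lit 2352) (nat_lit 4) (.ev (nat_lit 2365) (nat_lit 64) .dd)))) (.br (nat_lit
 6) (.ch (nat_lit 4) (.ev (nat_lit 2352) (nat_lit 64) (.ev (nat_lit 2365) (nat_lit 4) .dd))) (.ch (nat_lit 6)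
 (.ev (nat_lit 6596) (nat_lit 64) (.ev (nat_lit 6605) (nat_lit 4) .dd))))) (.br (nat_lit 11) (.br (nat_lit 10)
 (.ch (nat_lit 8) (.ev (nat_lit 2352) (nat_lit 4) (.ev (nat_lit 2365) (nat_lit 64) .dd))) (.ch (nat_lit 10)
 (.ev (nat_lit 5444) (nat_lit 4) (.ev (nat_lit 5453) (nat_lit 64) .dd)))) (.br (nat_lit 12) (.ch (nat_lit 11)
 (.ev (nat_lit 2676) (nat_lit 4) (.ev (nat_lit 2685) (nat_lit 64) .dd))) (.ch (nat_lit 12) (.ev (nat_lit 2352)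
 (nat_lit 4) (.ev (nat_lit 2365) (nat_lit 64) .dd))))))))) (.ch (nat_lit 6) (.nd (nat_lit 2336) (.br (nat_lit
 4) (.br (nat_lit 2) (.ch (nat_lit 1) (.ev (nat_lit 2352) (nat_lit 32832) (.ev (nat_lit 2365) (nat_lit 4)
 .dd))) (.br (nat_lit 3) (.ch (nat_lit 2) (.ev (nat_lit 2960) (nat_lit 64) (.ev (nat_lit 3476) (nat_lit 32768)
 (.ev (nat_lit 3485) (nat_lit 4) .dd)))) (.ch (nat_lit 3) (.ev (nat_lit 2352) (nat_lit 32768) (.ev (nat_lit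
 2372) (nat_lit 64) (.ev (nat_lit 2381) (nat_lit 4) .dd)))))) (.br (nat_lit 7) (.br (nat_lit 5) (.ch (nat_lit
 4) (.ev (nat_lit 3476) (nat_lit 32768) (.ev (nat_lit 6240) (nat_lit 4) (.ev (nat_lit 6253) (nat_lit 64)
 .dd)))) (.ch (nat_lit 5) (.ev (nat_lit 2352) (nat_lit 4) (.ev (nat_lit 2372) (nat_lit 64) (.ev (nat_lit 2381)
 (nat_lit 32768) .dd))))) (.br (nat_lit 11) (.ch (nat_lit 7) (.ev (nat_lit 2352) (nat_lit 4) (.ev (nat_lit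
 2372) (nat_lit 64) (.ev (nat_lit 2381) (nat_lit 32768) .dd)))) (.ch (nat_lit 11) (.ev (nat_lit 3476) (nat_lit
 32768) (.fin (nat_lit 576523974642974848)))))))))) (.br (nat_lit 9) (.ch (nat_lit 8) (.ev (nat_lit 1184)
 (nat_lit 68) (.ev (nat_lit 1197) (nat_lit 32768) .dd))) (.br (nat_lit 12) (.ch (nat_lit 9) (.ev (nat_lit 1184)
 (nat_lit 32772) (.ev (nat_lit 1197) (nat_lit 64) .dd))) (.ch (nat_lit 12) (.ev (nat_lit 1184) (nat_lit 32836)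
 .dd)))))))))) (.br (nat_lit 3) (.ch (nat_lit 2) (.ev (nat_lit 544) (nat_lit 32804) (.ev (nat_lit 557) (nat_lit
 64) .dd))) (.ch (nat_lit 3) (.ev (nat_lit 544) (nat_lit 32868) .dd)))) (.br (nat_lit 6) (.br (nat_lit 5) (.ch
 (nat_lit 4) (.ev (nat_lit 544) (nat_lit 68) (.nd (nat_lit 1168) (.br (nat_lit 5) (.br (nat_lit 3) (.ch
 (nat_lit 0) (.nd (nat_lit 2336) (.br (nat_lit 9) (.br (nat_lit 5) (.ch (nat_lit 2) (.ev (nat_lit 2372)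
 (nat_lit 32768) (.ev (nat_lit 2381) (nat_lit 32) .dd))) (.ch (nat_lit 5) (.ev (nat_lit 2372) (nat_lit 32768)
 (.ev (nat_lit 2381) (nat_lit 32) .dd)))) (.br (nat_lit 10) (.ch (nat_lit 9) (.fin (nat_lit
 576434913799520840))) (.ch (nat_lit 10) (.ev (nat_lit 2372) (nat_lit 32) (.ev (nat_lit 2381) (nat_lit 32768)
 .dd))))))) (.br (nat_lit 4) (.ch (nat_lit 3) (.nd (nat_lit 1840) (.br (nat_lit 6) (.br (nat_lit 1) (.ch
 (nat_lit 0) (.ev (nat_lit 6148) (nat_lit 32) (.ev (nat_lit 6157) (nat_lit 32768) .dd))) (.br (nat_lit 3) (.ch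
 (nat_lit 1) (.ev (nat_lit 6160) (nat_lit 32768) (.ev (nat_lit 6173) (nat_lit 32) .dd))) (.ch (nat_lit 3) (.fin
 (nat_lit 577903861942403464))))) (.br (nat_lit 7) (.ch (nat_lit 6) (.ev (nat_lit 1856) (nat_lit 32768) (.ev
 (nat_lit 1869) (nat_lit 32) .dd))) (.br (nat_lit 11) (.ch (nat_lit 7) (.ev (nat_lit 6788) (nat_lit 32) (.ev
 (nat_lit 6797) (nat_lit 32768) .dd))) (.ch (nat_lit 11) (.ev (nat_lit 2948) (nat_lit 32) (.ev (nat_lit 2957)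
 (nat_lit 32768) .dd)))))))) (.ch (nat_lit 4) (.ev (nat_lit 1184) (nat_lit 32) (.ev (nat_lit 1197) (nat_lit
 32768) .dd))))) (.br (nat_lit 10) (.br (nat_lit 7) (.ch (nat_lit 5) (.ev (nat_lit 1184) (nat_lit 32) (.ev
 (nat_lit 1197) (nat_lit 32768) .dd))) (.ch (nat_lit 7) (.ev (nat_lit 1184) (nat_lit 32768) (.ev (nat_lit 1197)
 (nat_lit 32) .dd)))) (.br (nat_lit 12) (.ch (nat_lit 10) (.ev (nat_lit 1204) (nat_lit 32768) (.ev (nat_lit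
 1213) (nat_lit 32) .dd))) (.ch (nat_lit 12) (.ev (nat_lit 1184) (nat_lit 32768) (.ev (nat_lit 1197) (nat_lit
 32) .dd))))))))) (.ch (nat_lit 5) (.ev (nat_lit 564) (nat_lit 32768) (.nd (nat_lit 1008) (.br (nat_lit 7) (.br
 (nat_lit 3) (.br (nat_lit 2) (.ch (nat_lit 1) (.ev (nat_lit 1024) (nat_lit 4) (.nd (nat_lit 1968) (.br
 (nat_lit 7) (.br (nat_lit 5) (.br (nat_lit 4) (.ch (nat_lit 0) (.ev (nat_lit 1984) (nat_lit 32) (.ev (nat_lit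
 1997) (nat_lit 64) .dd))) (.ch (nat_lit 4) (.ev (nat_lit 1984) (nat_lit 32) (.ev (nat_lit 1997) (nat_lit 64)
 .dd)))) (.br (nat_lit 6) (.ch (nat_lit 5) (.ev (nat_lit 2004) (nat_lit 64) (.ev (nat_lit 2013) (nat_lit 32)
 .dd))) (.ch (nat_lit 6) (.ev (nat_lit 1984) (nat_lit 32) (.ev (nat_lit 1997) (nat_lit 64) .dd))))) (.br
 (nat_lit 10) (.br (nat_lit 9) (.ch (nat_lit 7) (.ev (nat_lit 6452) (nat_lit 32) (.ev (nat_lit 6461) (nat_lit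
 64) .dd))) (.ch (nat_lit 9) (.ev (nat_lit 5492) (nat_lit 32) (.ev (nat_lit 5501) (nat_lit 64) .dd)))) (.br
 (nat_lit 12) (.ch (nat_lit 10) (.ev (nat_lit 1984) (nat_lit 96) .dd)) (.ch (nat_lit 12) (.ev (nat_lit 1984)
 (nat_lit 96) .dd)))))))) (.ch (nat_lit 2) (.nd (nat_lit 2128) (.br (nat_lit 6) (.br (nat_lit 2) (.br (nat_lit
 1) (.ch (nat_lit 0) (.ev (nat_lit 2740) (nat_lit 32) (.ev (nat_lit 6260) (nat_lit 4) (.ev (nat_lit 6269)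
 (nat_lit 64) .dd)))) (.ch (nat_lit 1) (.ev (nat_lit 2144) (nat_lit 4) (.ev (nat_lit 5572) (nat_lit 64) (.ev
 (nat_lit 5581) (nat_lit 32) .dd))))) (.br (nat_lit 4) (.ch (nat_lit 2) (.ev (nat_lit 2676) (nat_lit 4) (.ev
 (nat_lit 2740) (nat_lit 64) (.ev (nat_lit 2749) (nat_lit 32) .dd)))) (.ch (nat_lit 4) (.ev (nat_lit 2144)
 (nat_lit 96) (.ev (nat_lit 2157) (nat_lit 4) .dd))))) (.br (nat_lit 9) (.br (nat_lit 7) (.ch (nat_lit 6) (.ev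
 (nat_lit 2144) (nat_lit 4) (.ev (nat_lit 3044) (nat_lit 32) (.ev (nat_lit 3053) (nat_lit 64) .dd)))) (.ch
 (nat_lit 7) (.ev (nat_lit 2144) (nat_lit 96) (.ev (nat_lit 2157) (nat_lit 4) .dd)))) (.br (nat_lit 11) (.ch
 (nat_lit 9) (.ev (nat_lit 2144) (nat_lit 4) (.fin (nat_lit 576809847366303976)))) (.br (nat_lit 12) (.ch
 (nat_lit 11) (.ev (nat_lit 2144) (nat_lit 32) (.ev (nat_lit 5764) (nat_lit 64) (.ev (nat_lit 5773) (nat_lit 4)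
 .dd)))) (.ch (nat_lit 12) (.ev (nat_lit 2144) (nat_lit 96) (.ev (nat_lit 2157) (nat_lit 4) .dd)))))))))) (.br
 (nat_lit 5) (.ch (nat_lit 3) (.ev (nat_lit 1024) (nat_lit 64) (.ev (nat_lit 1204) (nat_lit 4) (.ev (nat_lit
 1213) (nat_lit 32) .dd)))) (.ch (nat_lit 5) (.ev (nat_lit 1024) (nat_lit 32) (.nd (nat_lit 1968) (.br (nat_lit
 6) (.br (nat_lit 1) (.ch (nat_lit 0) (.fin (nat_lit 576377739192779410))) (.br (nat_lit 3) (.ch (nat_lit 1)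
 (.ev (nat_lit 2900) (nat_lit 64) (.ev (nat_lit 2909) (nat_lit 4) .dd))) (.ch (nat_lit 3) (.ev (nat_lit 3476)
 (nat_lit 4) (.ev (nat_lit 3485) (nat_lit 64) .dd))))) (.br (nat_lit 10) (.br (nat_lit 8) (.ch (nat_lit 6) (.ev
 (nat_lit 1984) (nat_lit 64) (.ev (nat_lit 1997) (nat_lit 4) .dd))) (.ch (nat_lit 8) (.ev (nat_lit 1984)
 (nat_lit 4) (.ev (nat_lit 1997) (nat_lit 64) .dd)))) (.br (nat_lit 12) (.ch (nat_lit 10) (.ev (nat_lit 1984)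
 (nat_lit 64) (.ev (nat_lit 1997) (nat_lit 4) .dd))) (.ch (nat_lit 12) (.ev (nat_lit 1984) (nat_lit 4) (.ev
 (nat_lit 1997) (nat_lit 64) .dd))))))))))) (.br (nat_lit 9) (.br (nat_lit 8) (.ch (nat_lit 7) (.ev (nat_lit
 1024) (nat_lit 64) (.nd (nat_lit 2624) (.br (nat_lit 6) (.br (nat_lit 3) (.br (nat_lit 2) (.ch (nat_lit 1)
 (.ev (nat_lit 2788) (nat_lit 32) (.ev (nat_lit 2797) (nat_lit 4) .dd))) (.ch (nat_lit 2) (.ev (nat_lit 2640)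
 (nat_lit 4) (.ev (nat_lit 2653) (nat_lit 32) .dd)))) (.br (nat_lit 4) (.ch (nat_lit 3) (.ev (nat_lit 2640)
 (nat_lit 36) .dd)) (.ch (nat_lit 4) (.ev (nat_lit 3776) (nat_lit 32) (.ev (nat_lit 3789) (nat_lit 4) .dd)))))
 (.br (nat_lit 8) (.br (nat_lit 7) (.ch (nat_lit 6) (.ev (nat_lit 2640) (nat_lit 4) (.ev (nat_lit 2653)
 (nat_lit 32) .dd))) (.ch (nat_lit 7) (.ev (nat_lit 2640) (nat_lit 4) (.ev (nat_lit 2653) (nat_lit 32) .dd))))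
 (.br (nat_lit 11) (.ch (nat_lit 8) (.ev (nat_lit 2640) (nat_lit 32) (.ev (nat_lit 2653) (nat_lit 4) .dd)))
 (.br (nat_lit 12) (.ch (nat_lit 11) (.ev (nat_lit 2640) (nat_lit 36) .dd)) (.ch (nat_lit 12) (.ev (nat_lit
 2640) (nat_lit 36) .dd))))))))) (.ch (nat_lit 8) (.ev (nat_lit 1024) (nat_lit 96) (.ev (nat_lit 1037) (nat_lit
 4) .dd)))) (.br (nat_lit 10) (.ch (nat_lit 9) (.ev (nat_lit 1024) (nat_lit 4) (.nd (nat_lit 2336) (.br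
 (nat_lit 6) (.br (nat_lit 2) (.ch (nat_lit 0) (.ev (nat_lit 2868) (nat_lit 64) (.ev (nat_lit 2877) (nat_lit
 32) .dd))) (.br (nat_lit 3) (.ch (nat_lit 2) (.ev (nat_lit 2352) (nat_lit 64) (.ev (nat_lit 2365) (nat_lit 32)
 .dd))) (.ch (nat_lit 3) (.ev (nat_lit 2352) (nat_lit 32) (.ev (nat_lit 2365) (nat_lit 64) .dd))))) (.br
 (nat_lit 11) (.ch (nat_lit 6) (.ev (nat_lit 2352) (nat_lit 32) (.ev (nat_lit 2365) (nat_lit 64) .dd))) (.br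
 (nat_lit 12) (.ch (nat_lit 11) (.ev (nat_lit 2352) (nat_lit 32) (.ev (nat_lit 2365) (nat_lit 64) .dd))) (.ch
 (nat_lit 12) (.ev (nat_lit 2352) (nat_lit 64) (.ev (nat_lit 2365) (nat_lit 32) .dd))))))))) (.br (nat_lit 12)
 (.ch (nat_lit 10) (.ev (nat_lit 1024) (nat_lit 4) (.nd (nat_lit 2336) (.br (nat_lit 5) (.br (nat_lit 2) (.br
 (nat_lit 1) (.ch (nat_lit 0) (.ev (nat_lit 6740) (nat_lit 32) (.ev (nat_lit 6749) (nat_lit 64) .dd))) (.ch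
 (nat_lit 1) (.ev (nat_lit 2352) (nat_lit 96) .dd))) (.br (nat_lit 3) (.ch (nat_lit 2) (.ev (nat_lit 5844)
 (nat_lit 64) (.ev (nat_lit 5853) (nat_lit 32) .dd))) (.ch (nat_lit 3) (.ev (nat_lit 2388) (nat_lit 32) (.ev
 (nat_lit 2397) (nat_lit 64) .dd))))) (.br (nat_lit 10) (.br (nat_lit 9) (.ch (nat_lit 5) (.ev (nat_lit 2352)
 (nat_lit 32) (.ev (nat_lit 2365) (nat_lit 64) .dd))) (.ch (nat_lit 9) (.ev (nat_lit 2352) (nat_lit 32) (.ev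
 (nat_lit 2365) (nat_lit 64) .dd)))) (.br (nat_lit 11) (.ch (nat_lit 10) (.ev (nat_lit 2352) (nat_lit 64) (.ev
 (nat_lit 2365) (nat_lit 32) .dd))) (.ch (nat_lit 11) (.ev (nat_lit 2352) (nat_lit 64) (.ev (nat_lit 2365)
 (nat_lit 32) .dd))))))))) (.ch (nat_lit 12) (.ev (nat_lit 1024) (nat_lit 32) (.ev (nat_lit 1204) (nat_lit 4)
 (.ev (nat_lit 1213) (nat_lit 64) .dd)))))))))))) (.br (nat_lit 8) (.ch (nat_lit 6) (.ev (nat_lit 544) (nat_lit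
 32832) (.nd (nat_lit 1168) (.br (nat_lit 7) (.br (nat_lit 1) (.ch (nat_lit 0) (.nd (nat_lit 1968) (.br
 (nat_lit 7) (.br (nat_lit 4) (.ch (nat_lit 3) (.ev (nat_lit 6596) (nat_lit 32) (.ev (nat_lit 6605) (nat_lit 4)
 .dd))) (.br (nat_lit 6) (.ch (nat_lit 4) (.ev (nat_lit 1984) (nat_lit 32) (.ev (nat_lit 1997) (nat_lit 4)
 .dd))) (.ch (nat_lit 6) (.ev (nat_lit 4996) (nat_lit 4) (.ev (nat_lit 5005) (nat_lit 32) .dd))))) (.br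
 (nat_lit 8) (.ch (nat_lit 7) (.ev (nat_lit 1984) (nat_lit 4) (.ev (nat_lit 1997) (nat_lit 32) .dd))) (.br
 (nat_lit 9) (.ch (nat_lit 8) (.ev (nat_lit 6148) (nat_lit 4) (.ev (nat_lit 6157) (nat_lit 32) .dd))) (.ch
 (nat_lit 9) (.ev (nat_lit 1984) (nat_lit 32) (.ev (nat_lit 1997) (nat_lit 4) .dd)))))))) (.br (nat_lit 2) (.ch
 (nat_lit 1) (.ev (nat_lit 1184) (nat_lit 32) (.ev (nat_lit 1197) (nat_lit 4) .dd))) (.ch (nat_lit 2) (.ev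
 (nat_lit 1184) (nat_lit 4) (.ev (nat_lit 1197) (nat_lit 32) .dd))))) (.br (nat_lit 11) (.br (nat_lit 10) (.ch
 (nat_lit 7) (.ev (nat_lit 1184) (nat_lit 36) .dd)) (.ch (nat_lit 10) (.nd (nat_lit 1840) (.br (nat_lit 10)
 (.br (nat_lit 6) (.ch (nat_lit 0) (.ev (nat_lit 1856) (nat_lit 4) (.ev (nat_lit 1869) (nat_lit 32) .dd))) (.ch
 (nat_lit 6) (.ev (nat_lit 3700) (nat_lit 4) (.ev (nat_lit 3709) (nat_lit 32) .dd)))) (.br (nat_lit 12) (.ch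
 (nat_lit 10) (.ev (nat_lit 5236) (nat_lit 4) (.ev (nat_lit 5245) (nat_lit 32) .dd))) (.ch (nat_lit 12) (.ev
 (nat_lit 1856) (nat_lit 4) (.ev (nat_lit 1869) (nat_lit 32) .dd)))))))) (.br (nat_lit 12) (.ch (nat_lit 11)
 (.ev (nat_lit 1184) (nat_lit 4) (.ev (nat_lit 1197) (nat_lit 32) .dd))) (.ch (nat_lit 12) (.nd (nat_lit 1744)
 (.br (nat_lit 5) (.br (nat_lit 3) (.ch (nat_lit 0) (.ev (nat_lit 3012) (nat_lit 4) (.ev (nat_lit 3021)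
 (nat_lit 32) .dd))) (.br (nat_lit 4) (.ch (nat_lit 3) (.ev (nat_lit 1760) (nat_lit 36) .dd)) (.ch (nat_lit 4)
 (.nd (nat_lit 4304) (.br (nat_lit 8) (.br (nat_lit 4) (.ch (nat_lit 3) (.ev (nat_lit 6160) (nat_lit 36) .dd))
 (.ch (nat_lit 4) (.ev (nat_lit 4320) (nat_lit 32) (.ev (nat_lit 4333) (nat_lit 4) .dd)))) (.br (nat_lit 10)
 (.ch (nat_lit 8) (.ev (nat_lit 6356) (nat_lit 32) (.ev (nat_lit 6365) (nat_lit 4) .dd))) (.br (nat_lit 12)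
 (.ch (nat_lit 10) (.ev (nat_lit 4320) (nat_lit 36) .dd)) (.ch (nat_lit 12) (.ev (nat_lit 6356) (nat_lit 32)
 (.ev (nat_lit 6365) (nat_lit 4) .dd)))))))))) (.br (nat_lit 8) (.br (nat_lit 6) (.ch (nat_lit 5) (.ev (nat_lit
 1760) (nat_lit 32) (.ev (nat_lit 1773) (nat_lit 4) .dd))) (.ch (nat_lit 6) (.ev (nat_lit 6368) (nat_lit 32)
 (.ev (nat_lit 6381) (nat_lit 4) .dd)))) (.br (nat_lit 9) (.ch (nat_lit 8) (.ev (nat_lit 2788) (nat_lit 4) (.ev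
 (nat_lit 2797) (nat_lit 32) .dd))) (.ch (nat_lit 9) (.ev (nat_lit 1760) (nat_lit 36) .dd))))))))))))) (.br
 (nat_lit 12) (.ch (nat_lit 8) (.ev (nat_lit 544) (nat_lit 32) (.ev (nat_lit 564) (nat_lit 4) (.nd (nat_lit
 1264) (.br (nat_lit 5) (.br (nat_lit 3) (.br (nat_lit 2) (.ch (nat_lit 1) (.ev (nat_lit 1280) (nat_lit 64)
 (.ev (nat_lit 1293) (nat_lit 32768) .dd))) (.ch (nat_lit 2) (.ev (nat_lit 1280) (nat_lit 32768) (.ev (nat_lit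
 1293) (nat_lit 64) .dd)))) (.br (nat_lit 4) (.ch (nat_lit 3) (.ev (nat_lit 1280) (nat_lit 64) (.ev (nat_lit
 1293) (nat_lit 32768) .dd))) (.ch (nat_lit 4) (.nd (nat_lit 3984) (.br (nat_lit 5) (.br (nat_lit 2) (.ch
 (nat_lit 0) (.ev (nat_lit 4000) (nat_lit 32768) (.ev (nat_lit 4013) (nat_lit 64) .dd))) (.br (nat_lit 3) (.ch
 (nat_lit 2) (.ev (nat_lit 4000) (nat_lit 32832) .dd)) (.ch (nat_lit 3) (.ev (nat_lit 4000) (nat_lit 64) (.ev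
 (nat_lit 4013) (nat_lit 32768) .dd))))) (.br (nat_lit 8) (.br (nat_lit 7) (.ch (nat_lit 5) (.ev (nat_lit 4000)
 (nat_lit 64) (.ev (nat_lit 4013) (nat_lit 32768) .dd))) (.ch (nat_lit 7) (.fin (nat_lit 576484391787119134))))
 (.br (nat_lit 9) (.ch (nat_lit 8) (.ev (nat_lit 4000) (nat_lit 32832) .dd)) (.ch (nat_lit 9) (.ev (nat_lit
 4000) (nat_lit 64) (.ev (nat_lit 4013) (nat_lit 32768) .dd)))))))))) (.br (nat_lit 8) (.br (nat_lit 7) (.ch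
 (nat_lit 5) (.ev (nat_lit 1300) (nat_lit 32768) (.ev (nat_lit 1309) (nat_lit 64) .dd))) (.ch (nat_lit 7) (.ev
 (nat_lit 1280) (nat_lit 32832) .dd))) (.br (nat_lit 11) (.ch (nat_lit 8) (.ev (nat_lit 1280) (nat_lit 32768)
 (.ev (nat_lit 1293) (nat_lit 64) .dd))) (.br (nat_lit 12) (.ch (nat_lit 11) (.ev (nat_lit 1280) (nat_lit 64)
 (.ev (nat_lit 1293) (nat_lit 32768) .dd))) (.ch (nat_lit 12) (.ev (nat_lit 1332) (nat_lit 64) (.ev (nat_lit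
 1341) (nat_lit 32768) .dd))))))))))) (.ch (nat_lit 12) (.nd (nat_lit 1088) (.br (nat_lit 7) (.br (nat_lit 4)
 (.br (nat_lit 3) (.ch (nat_lit 0) (.ev (nat_lit 1104) (nat_lit 32864) (.ev (nat_lit 1117) (nat_lit 4) .dd)))
 (.ch (nat_lit 3) (.ev (nat_lit 1104) (nat_lit 68) (.nd (nat_lit 2336) (.br (nat_lit 5) (.br (nat_lit 2) (.br
 (nat_lit 1) (.ch (nat_lit 0) (.ev (nat_lit 2352) (nat_lit 32768) (.ev (nat_lit 2365) (nat_lit 32) .dd))) (.ch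
 (nat_lit 1) (.ev (nat_lit 2352) (nat_lit 32768) (.ev (nat_lit 2365) (nat_lit 32) .dd)))) (.br (nat_lit 3) (.ch
 (nat_lit 2) (.ev (nat_lit 2740) (nat_lit 32) (.ev (nat_lit 2749) (nat_lit 32768) .dd))) (.ch (nat_lit 3) (.ev
 (nat_lit 2352) (nat_lit 32) (.ev (nat_lit 2365) (nat_lit 32768) .dd))))) (.br (nat_lit 9) (.br (nat_lit 6)
 (.ch (nat_lit 5) (.ev (nat_lit 2352) (nat_lit 32800) .dd)) (.ch (nat_lit 6) (.ev (nat_lit 2676) (nat_lit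
 32768) (.ev (nat_lit 2685) (nat_lit 32) .dd)))) (.br (nat_lit 11) (.ch (nat_lit 9) (.ev (nat_lit 7060)
 (nat_lit 32) (.ev (nat_lit 7069) (nat_lit 32768) .dd))) (.ch (nat_lit 11) (.ev (nat_lit 2352) (nat_lit 32)
 (.ev (nat_lit 2365) (nat_lit 32768) .dd)))))))))) (.br (nat_lit 5) (.ch (nat_lit 4) (.ev (nat_lit 1104)
 (nat_lit 32800) (.nd (nat_lit 2624) (.br (nat_lit 7) (.br (nat_lit 1) (.ch (nat_lit 0) (.ev (nat_lit 2640)
 (nat_lit 64) (.ev (nat_lit 2653) (nat_lit 4) .dd))) (.br (nat_lit 6) (.ch (nat_lit 1) (.ev (nat_lit 2868)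
 (nat_lit 4) (.ev (nat_lit 2877) (nat_lit 64) .dd))) (.ch (nat_lit 6) (.ev (nat_lit 2800) (nat_lit 4) (.ev
 (nat_lit 2813) (nat_lit 64) .dd))))) (.br (nat_lit 11) (.br (nat_lit 8) (.ch (nat_lit 7) (.ev (nat_lit 2640)
 (nat_lit 4) (.ev (nat_lit 2653) (nat_lit 64) .dd))) (.ch (nat_lit 8) (.ev (nat_lit 2640) (nat_lit 4) (.ev
 (nat_lit 2653) (nat_lit 64) .dd)))) (.br (nat_lit 12) (.ch (nat_lit 11) (.ev (nat_lit 2640) (nat_lit 68) .dd))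
 (.ch (nat_lit 12) (.ev (nat_lit 2640) (nat_lit 68) .dd)))))))) (.ch (nat_lit 5) (.ev (nat_lit 1104) (nat_lit
 32768) (.nd (nat_lit 2624) (.br (nat_lit 7) (.br (nat_lit 5) (.ch (nat_lit 3) (.ev (nat_lit 2640) (nat_lit 4)
 (.ev (nat_lit 3540) (nat_lit 64) (.ev (nat_lit 3549) (nat_lit 32) .dd)))) (.br (nat_lit 6) (.ch (nat_lit 5)
 (.ev (nat_lit 2640) (nat_lit 32) (.ev (nat_lit 3476) (nat_lit 4) (.ev (nat_lit 3485) (nat_lit 64) .dd)))) (.ch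
 (nat_lit 6) (.ev (nat_lit 2640) (nat_lit 4) (.ev (nat_lit 3604) (nat_lit 32) (.ev (nat_lit 3613) (nat_lit 64)
 .dd)))))) (.br (nat_lit 11) (.ch (nat_lit 7) (.ev (nat_lit 2640) (nat_lit 64) (.ev (nat_lit 5088) (nat_lit 36)
 .dd))) (.br (nat_lit 12) (.ch (nat_lit 11) (.ev (nat_lit 2676) (nat_lit 64) (.ev (nat_lit 3024) (nat_lit 4)
 (.ev (nat_lit 3037) (nat_lit 32) .dd)))) (.ch (nat_lit 12) (.ev (nat_lit 2640) (nat_lit 32) (.ev (nat_lit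
 3552) (nat_lit 68) .dd))))))))))) (.br (nat_lit 9) (.br (nat_lit 8) (.ch (nat_lit 7) (.ev (nat_lit 1220)
 (nat_lit 64) (.nd (nat_lit 2336) (.br (nat_lit 8) (.br (nat_lit 4) (.br (nat_lit 3) (.ch (nat_lit 2) (.ev
 (nat_lit 2352) (nat_lit 36) (.ev (nat_lit 2365) (nat_lit 32768) .dd))) (.ch (nat_lit 3) (.ev (nat_lit 2676)
 (nat_lit 4) (.ev (nat_lit 2740) (nat_lit 32768) (.ev (nat_lit 2749) (nat_lit 32) .dd))))) (.br (nat_lit 6)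
 (.ch (nat_lit 4) (.ev (nat_lit 2372) (nat_lit 32) (.ev (nat_lit 2676) (nat_lit 4) (.ev (nat_lit 2685) (nat_lit
 32768) .dd)))) (.ch (nat_lit 6) (.ev (nat_lit 2352) (nat_lit 32800) (.ev (nat_lit 2365) (nat_lit 4) .dd)))))
 (.br (nat_lit 11) (.br (nat_lit 9) (.ch (nat_lit 8) (.ev (nat_lit 2372) (nat_lit 32) (.ev (nat_lit 2676)
 (nat_lit 4) (.ev (nat_lit 2685) (nat_lit 32768) .dd)))) (.ch (nat_lit 9) (.ev (nat_lit 2352) (nat_lit 32800)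
 (.ev (nat_lit 2365) (nat_lit 4) .dd)))) (.br (nat_lit 12) (.ch (nat_lit 11) (.ev (nat_lit 2352) (nat_lit 4)
 (.ev (nat_lit 2612) (nat_lit 32) (.ev (nat_lit 2621) (nat_lit 32768) .dd)))) (.ch (nat_lit 12) (.ev (nat_lit
 2352) (nat_lit 32804) .dd)))))))) (.ch (nat_lit 8) (.ev (nat_lit 1104) (nat_lit 36) (.ev (nat_lit 1124)
 (nat_lit 64) (.ev (nat_lit 1133) (nat_lit 32768) .dd))))) (.br (nat_lit 10) (.ch (nat_lit 9) (.nd (nat_lit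
 2128) (.br (nat_lit 6) (.br (nat_lit 2) (.br (nat_lit 1) (.ch (nat_lit 0) (.ev (nat_lit 2164) (nat_lit 64)
 (.ev (nat_lit 2180) (nat_lit 32) (.ev (nat_lit 2372) (nat_lit 32768) (.ev (nat_lit 2381) (nat_lit 4) .dd)))))
 (.ch (nat_lit 1) (.ev (nat_lit 2212) (nat_lit 64) (.ev (nat_lit 6596) (nat_lit 4) (.ev (nat_lit 6692) (nat_lit
 32768) (.ev (nat_lit 6701) (nat_lit 32) .dd)))))) (.br (nat_lit 4) (.ch (nat_lit 2) (.ev (nat_lit 2144)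
 (nat_lit 32832) (.ev (nat_lit 2164) (nat_lit 4) (.ev (nat_lit 2173) (nat_lit 32) .dd)))) (.ch (nat_lit 4) (.ev
 (nat_lit 2144) (nat_lit 36) (.ev (nat_lit 2164) (nat_lit 64) (.ev (nat_lit 2173) (nat_lit 32768) .dd))))))
 (.br (nat_lit 9) (.br (nat_lit 7) (.ch (nat_lit 6) (.ev (nat_lit 2144) (nat_lit 32768) (.ev (nat_lit 6596)
 (nat_lit 4) (.fin (nat_lit 576443709854794305))))) (.ch (nat_lit 7) (.ev (nat_lit 2144) (nat_lit 36) (.ev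
 (nat_lit 2164) (nat_lit 64) (.ev (nat_lit 2173) (nat_lit 32768) .dd))))) (.br (nat_lit 11) (.ch (nat_lit 9)
 (.ev (nat_lit 2144) (nat_lit 32768) (.ev (nat_lit 2164) (nat_lit 64) (.ev (nat_lit 2196) (nat_lit 32) (.ev
 (nat_lit 2205) (nat_lit 4) .dd))))) (.br (nat_lit 12) (.ch (nat_lit 11) (.ev (nat_lit 2144) (nat_lit 96) (.ev
 (nat_lit 2164) (nat_lit 4) (.ev (nat_lit 2173) (nat_lit 32768) .dd)))) (.ch (nat_lit 12) (.ev (nat_lit 2144)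
 (nat_lit 68) (.ev (nat_lit 2196) (nat_lit 32) (.ev (nat_lit 2205) (nat_lit 32768) .dd)))))))))) (.br (nat_lit
 12) (.ch (nat_lit 10) (.nd (nat_lit 2336) (.br (nat_lit 8) (.br (nat_lit 4) (.br (nat_lit 1) (.ch (nat_lit 0)
 (.ev (nat_lit 2352) (nat_lit 32832) (.ev (nat_lit 5188) (nat_lit 32) (.ev (nat_lit 5197) (nat_lit 4) .dd))))
 (.ch (nat_lit 1) (.ev (nat_lit 2352) (nat_lit 32804) (.ev (nat_lit 2365) (nat_lit 64) .dd)))) (.br (nat_lit 7)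
 (.ch (nat_lit 4) (.ev (nat_lit 2352) (nat_lit 32800) (.ev (nat_lit 2676) (nat_lit 4) (.ev (nat_lit 2685)
 (nat_lit 64) .dd)))) (.ch (nat_lit 7) (.ev (nat_lit 2352) (nat_lit 32804) (.ev (nat_lit 2365) (nat_lit 64)
 .dd))))) (.br (nat_lit 10) (.br (nat_lit 9) (.ch (nat_lit 8) (.ev (nat_lit 2352) (nat_lit 36) (.ev (nat_lit
 2960) (nat_lit 32768) (.ev (nat_lit 2973) (nat_lit 64) .dd)))) (.ch (nat_lit 9) (.ev (nat_lit 2352) (nat_lit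
 32) (.ev (nat_lit 2676) (nat_lit 4) (.ev (nat_lit 6788) (nat_lit 64) (.ev (nat_lit 6797) (nat_lit 32768)
 .dd)))))) (.br (nat_lit 11) (.ch (nat_lit 10) (.ev (nat_lit 2352) (nat_lit 36) (.ev (nat_lit 2740) (nat_lit
 64) (.ev (nat_lit 2749) (nat_lit 32768) .dd)))) (.br (nat_lit 12) (.ch (nat_lit 11) (.ev (nat_lit 2352)
 (nat_lit 32832) (.ev (nat_lit 2788) (nat_lit 4) (.ev (nat_lit 2797) (nat_lit 32) .dd)))) (.ch (nat_lit 12)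
 (.ev (nat_lit 2352) (nat_lit 32836) (.ev (nat_lit 2365) (nat_lit 32) .dd))))))))) (.ch (nat_lit 12) (.ev
 (nat_lit 1104) (nat_lit 68) (.nd (nat_lit 2336) (.br (nat_lit 5) (.br (nat_lit 3) (.br (nat_lit 2) (.ch
 (nat_lit 1) (.ev (nat_lit 2372) (nat_lit 32) (.ev (nat_lit 2381) (nat_lit 32768) .dd))) (.ch (nat_lit 2) (.ev
 (nat_lit 6964) (nat_lit 32) (.ev (nat_lit 6973) (nat_lit 32768) .dd)))) (.br (nat_lit 4) (.ch (nat_lit 3) (.ev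
 (nat_lit 2352) (nat_lit 32) (.ev (nat_lit 2365) (nat_lit 32768) .dd))) (.ch (nat_lit 4) (.ev (nat_lit 2352)
 (nat_lit 32) (.ev (nat_lit 2365) (nat_lit 32768) .dd))))) (.br (nat_lit 8) (.br (nat_lit 7) (.ch (nat_lit 5)
 (.ev (nat_lit 2352) (nat_lit 32800) .dd)) (.ch (nat_lit 7) (.fin (nat_lit 576519575446176486)))) (.br (nat_lit
 10) (.ch (nat_lit 8) (.ev (nat_lit 2352) (nat_lit 32800) .dd)) (.br (nat_lit 11) (.ch (nat_lit 10) (.ev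
 (nat_lit 3540) (nat_lit 32) (.ev (nat_lit 3549) (nat_lit 32768) .dd))) (.ch (nat_lit 11) (.ev (nat_lit 2352)
 (nat_lit 32768) (.ev (nat_lit 2365) (nat_lit 32) .dd))))))))))))))))))))))) (.ch (nat_lit 12) (.ev (nat_lit
 48) (nat_lit 32) (.nd (nat_lit 400) (.br (nat_lit 6) (.br (nat_lit 4) (.br (nat_lit 1) (.ch (nat_lit 0) (.ev
 (nat_lit 416) (nat_lit 12292) (.nd (nat_lit 1264) (.br (nat_lit 7) (.br (nat_lit 2) (.ch (nat_lit 1) (.ev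
 (nat_lit 3220) (nat_lit 64) (.ev (nat_lit 3229) (nat_lit 32768) .dd))) (.br (nat_lit 3) (.ch (nat_lit 2) (.nd
 (nat_lit 3984) (.br (nat_lit 4) (.br (nat_lit 2) (.ch (nat_lit 0) (.ev (nat_lit 4000) (nat_lit 32832) .dd))
 (.br (nat_lit 3) (.ch (nat_lit 2) (.ev (nat_lit 4000) (nat_lit 64) (.ev (nat_lit 4013) (nat_lit 32768) .dd)))
 (.ch (nat_lit 3) (.ev (nat_lit 4020) (nat_lit 64) (.ev (nat_lit 4029) (nat_lit 32768) .dd))))) (.br (nat_lit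
 8) (.br (nat_lit 6) (.ch (nat_lit 4) (.ev (nat_lit 4020) (nat_lit 64) (.ev (nat_lit 4029) (nat_lit 32768)
 .dd))) (.ch (nat_lit 6) (.ev (nat_lit 4000) (nat_lit 32768) (.ev (nat_lit 4013) (nat_lit 64) .dd)))) (.br
 (nat_lit 10) (.ch (nat_lit 8) (.ev (nat_lit 4000) (nat_lit 64) (.ev (nat_lit 4013) (nat_lit 32768) .dd))) (.ch
 (nat_lit 10) (.fin (nat_lit 576483292294365762)))))))) (.ch (nat_lit 3) (.ev (nat_lit 1332) (nat_lit 32768)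
 (.ev (nat_lit 1341) (nat_lit 64) .dd))))) (.br (nat_lit 9) (.br (nat_lit 8) (.ch (nat_lit 7) (.ev (nat_lit
 1280) (nat_lit 32768) (.ev (nat_lit 1293) (nat_lit 64) .dd))) (.ch (nat_lit 8) (.ev (nat_lit 1300) (nat_lit
 64) (.ev (nat_lit 1309) (nat_lit 32768) .dd)))) (.br (nat_lit 12) (.ch (nat_lit 9) (.ev (nat_lit 1280)
 (nat_lit 32832) .dd)) (.ch (nat_lit 12) (.ev (nat_lit 1280) (nat_lit 64) (.ev (nat_lit 1293) (nat_lit 32768)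
 .dd))))))))) (.ch (nat_lit 1) (.ev (nat_lit 416) (nat_lit 4096) (.ev (nat_lit 564) (nat_lit 32768) (.nd
 (nat_lit 1088) (.br (nat_lit 9) (.br (nat_lit 5) (.br (nat_lit 3) (.ch (nat_lit 0) (.ev (nat_lit 1104)
 (nat_lit 4) (.nd (nat_lit 1744) (.br (nat_lit 6) (.br (nat_lit 1) (.ch (nat_lit 0) (.ev (nat_lit 1760)
 (nat_lit 64) (.ev (nat_lit 1773) (nat_lit 8192) .dd))) (.br (nat_lit 4) (.ch (nat_lit 1) (.ev (nat_lit 1760)
 (nat_lit 8192) (.ev (nat_lit 1773) (nat_lit 64) .dd))) (.ch (nat_lit 4) (.ev (nat_lit 1760) (nat_lit 8192)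
 (.ev (nat_lit 1773) (nat_lit 64) .dd))))) (.br (nat_lit 10) (.ch (nat_lit 6) (.ev (nat_lit 3012) (nat_lit
 8192) (.ev (nat_lit 3021) (nat_lit 64) .dd))) (.br (nat_lit 12) (.ch (nat_lit 10) (.ev (nat_lit 4084) (nat_lit
 64) (.ev (nat_lit 4093) (nat_lit 8192) .dd))) (.ch (nat_lit 12) (.ev (nat_lit 1760) (nat_lit 64) (.ev (nat_lit
 1773) (nat_lit 8192) .dd))))))))) (.ch (nat_lit 3) (.ev (nat_lit 1104) (nat_lit 8192) (.nd (nat_lit 3984) (.br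
 (nat_lit 10) (.ch (nat_lit 8) (.fin (nat_lit 576461302061810229))) (.ch (nat_lit 10) (.ev (nat_lit 4020)
 (nat_lit 64) (.ev (nat_lit 4029) (nat_lit 4) .dd)))))))) (.br (nat_lit 8) (.ch (nat_lit 5) (.ev (nat_lit 1104)
 (nat_lit 64) (.nd (nat_lit 1648) (.br (nat_lit 9) (.br (nat_lit 2) (.ch (nat_lit 1) (.ev (nat_lit 1664)
 (nat_lit 4) (.ev (nat_lit 1677) (nat_lit 8192) .dd))) (.br (nat_lit 4) (.ch (nat_lit 2) (.ev (nat_lit 4052)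
 (nat_lit 4) (.ev (nat_lit 4061) (nat_lit 8192) .dd))) (.ch (nat_lit 4) (.ev (nat_lit 1664) (nat_lit 4) (.ev
 (nat_lit 1677) (nat_lit 8192) .dd))))) (.br (nat_lit 11) (.ch (nat_lit 9) (.ev (nat_lit 1664) (nat_lit 4) (.ev
 (nat_lit 1677) (nat_lit 8192) .dd))) (.br (nat_lit 12) (.ch (nat_lit 11) (.ev (nat_lit 1664) (nat_lit 8192)
 (.ev (nat_lit 1677) (nat_lit 4) .dd))) (.ch (nat_lit 12) (.ev (nat_lit 1664) (nat_lit 4) (.ev (nat_lit 1677)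
 (nat_lit 8192) .dd))))))))) (.ch (nat_lit 8) (.ev (nat_lit 1300) (nat_lit 64) (.ev (nat_lit 1332) (nat_lit 4)
 (.ev (nat_lit 1341) (nat_lit 8192) .dd)))))) (.br (nat_lit 11) (.br (nat_lit 10) (.ch (nat_lit 9) (.ev
 (nat_lit 1104) (nat_lit 8196) (.ev (nat_lit 1117) (nat_lit 64) .dd))) (.ch (nat_lit 10) (.ev (nat_lit 1104)
 (nat_lit 68) (.ev (nat_lit 1117) (nat_lit 8192) .dd)))) (.br (nat_lit 12) (.ch (nat_lit 11) (.ev (nat_lit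
 1104) (nat_lit 8196) (.ev (nat_lit 1117) (nat_lit 64) .dd))) (.ch (nat_lit 12) (.ev (nat_lit 1104) (nat_lit
 64) (.ev (nat_lit 1364) (nat_lit 4) (.ev (nat_lit 1373) (nat_lit 8192) .dd)))))))))))) (.br (nat_lit 5) (.ch
 (nat_lit 4) (.ev (nat_lit 416) (nat_lit 4164) (.nd (nat_lit 1264) (.br (nat_lit 8) (.br (nat_lit 6) (.br
 (nat_lit 3) (.ch (nat_lit 1) (.ev (nat_lit 1332) (nat_lit 32768) (.ev (nat_lit 1341) (nat_lit 8192) .dd)))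
 (.ch (nat_lit 3) (.ev (nat_lit 1280) (nat_lit 40960) .dd))) (.br (nat_lit 7) (.ch (nat_lit 6) (.ev (nat_lit
 1300) (nat_lit 32768) (.ev (nat_lit 1309) (nat_lit 8192) .dd))) (.ch (nat_lit 7) (.nd (nat_lit 3984) (.br
 (nat_lit 7) (.ch (nat_lit 4) (.fin (nat_lit 576458003470303806))) (.ch (nat_lit 7) (.ev (nat_lit 4020)
 (nat_lit 32768) (.ev (nat_lit 4029) (nat_lit 8192) .dd)))))))) (.br (nat_lit 10) (.br (nat_lit 9) (.ch
 (nat_lit 8) (.ev (nat_lit 1280) (nat_lit 32768) (.ev (nat_lit 1293) (nat_lit 8192) .dd))) (.ch (nat_lit 9)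
 (.ev (nat_lit 1280) (nat_lit 8192) (.ev (nat_lit 1293) (nat_lit 32768) .dd)))) (.br (nat_lit 11) (.ch (nat_lit
 10) (.ev (nat_lit 1280) (nat_lit 32768) (.ev (nat_lit 1293) (nat_lit 8192) .dd))) (.ch (nat_lit 11) (.ev
 (nat_lit 1300) (nat_lit 8192) (.ev (nat_lit 1309) (nat_lit 32768) .dd))))))))) (.ch (nat_lit 5) (.ev (nat_lit
 416) (nat_lit 32836) (.nd (nat_lit 1088) (.br (nat_lit 8) (.br (nat_lit 3) (.ch (nat_lit 2) (.ev (nat_lit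
 1104) (nat_lit 8192) (.ev (nat_lit 1117) (nat_lit 4096) .dd))) (.br (nat_lit 4) (.ch (nat_lit 3) (.nd (nat_lit
 1968) (.br (nat_lit 6) (.br (nat_lit 3) (.ch (nat_lit 1) (.ev (nat_lit 1984) (nat_lit 8192) (.ev (nat_lit
 1997) (nat_lit 4096) .dd))) (.br (nat_lit 5) (.ch (nat_lit 3) (.ev (nat_lit 1984) (nat_lit 4096) (.ev (nat_lit
 1997) (nat_lit 8192) .dd))) (.ch (nat_lit 5) (.ev (nat_lit 1984) (nat_lit 8192) (.ev (nat_lit 1997) (nat_lit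
 4096) .dd))))) (.br (nat_lit 11) (.br (nat_lit 10) (.ch (nat_lit 6) (.ev (nat_lit 1984) (nat_lit 4096) (.ev
 (nat_lit 1997) (nat_lit 8192) .dd))) (.ch (nat_lit 10) (.ev (nat_lit 2372) (nat_lit 4096) (.ev (nat_lit 2381)
 (nat_lit 8192) .dd)))) (.br (nat_lit 12) (.ch (nat_lit 11) (.ev (nat_lit 2372) (nat_lit 4096) (.ev (nat_lit
 2381) (nat_lit 8192) .dd))) (.ch (nat_lit 12) (.ev (nat_lit 3652) (nat_lit 4096) (.ev (nat_lit 3661) (nat_lit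
 8192) .dd)))))))) (.ch (nat_lit 4) (.ev (nat_lit 1104) (nat_lit 8192) (.ev (nat_lit 1117) (nat_lit 4096)
 .dd))))) (.br (nat_lit 10) (.br (nat_lit 9) (.ch (nat_lit 8) (.ev (nat_lit 1104) (nat_lit 4096) (.ev (nat_lit
 1117) (nat_lit 8192) .dd))) (.ch (nat_lit 9) (.nd (nat_lit 3408) (.br (nat_lit 6) (.br (nat_lit 3) (.br
 (nat_lit 1) (.ch (nat_lit 0) (.ev (nat_lit 3424) (nat_lit 12288) .dd)) (.ch (nat_lit 1) (.ev (nat_lit 3476)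
 (nat_lit 8192) (.ev (nat_lit 3485) (nat_lit 4096) .dd)))) (.br (nat_lit 5) (.ch (nat_lit 3) (.ev (nat_lit
 3424) (nat_lit 12288) .dd)) (.ch (nat_lit 5) (.ev (nat_lit 3476) (nat_lit 4096) (.ev (nat_lit 3485) (nat_lit
 8192) .dd))))) (.br (nat_lit 9) (.br (nat_lit 7) (.ch (nat_lit 6) (.ev (nat_lit 6356) (nat_lit 8192) (.ev
 (nat_lit 6365) (nat_lit 4096) .dd))) (.ch (nat_lit 7) (.ev (nat_lit 3476) (nat_lit 4096) (.ev (nat_lit 3485)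
 (nat_lit 8192) .dd)))) (.br (nat_lit 11) (.ch (nat_lit 9) (.ev (nat_lit 3424) (nat_lit 8192) (.ev (nat_lit
 3437) (nat_lit 4096) .dd))) (.br (nat_lit 12) (.ch (nat_lit 11) (.ev (nat_lit 3476) (nat_lit 4096) (.ev
 (nat_lit 3485) (nat_lit 8192) .dd))) (.ch (nat_lit 12) (.ev (nat_lit 3424) (nat_lit 4096) (.ev (nat_lit 3437)
 (nat_lit 8192) .dd)))))))))) (.br (nat_lit 12) (.ch (nat_lit 10) (.ev (nat_lit 1104) (nat_lit 4096) (.ev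
 (nat_lit 1117) (nat_lit 8192) .dd))) (.ch (nat_lit 12) (.nd (nat_lit 2128) (.br (nat_lit 6) (.br (nat_lit 1)
 (.ch (nat_lit 0) (.ev (nat_lit 2144) (nat_lit 4096) (.ev (nat_lit 2157) (nat_lit 8192) .dd))) (.br (nat_lit 5)
 (.ch (nat_lit 1) (.ev (nat_lit 2372) (nat_lit 4096) (.ev (nat_lit 2381) (nat_lit 8192) .dd))) (.ch (nat_lit 5)
 (.ev (nat_lit 2144) (nat_lit 4096) (.ev (nat_lit 2157) (nat_lit 8192) .dd))))) (.br (nat_lit 8) (.ch (nat_lit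
 6) (.ev (nat_lit 2144) (nat_lit 8192) (.ev (nat_lit 2157) (nat_lit 4096) .dd))) (.br (nat_lit 9) (.ch (nat_lit
 8) (.ev (nat_lit 6596) (nat_lit 8192) (.ev (nat_lit 6605) (nat_lit 4096) .dd))) (.ch (nat_lit 9) (.ev (nat_lit
 2372) (nat_lit 4096) (.ev (nat_lit 2381) (nat_lit 8192) .dd)))))))))))))))) (.br (nat_lit 9) (.br (nat_lit 7)
 (.ch (nat_lit 6) (.ev (nat_lit 416) (nat_lit 8192) (.ev (nat_lit 612) (nat_lit 64) (.nd (nat_lit 880) (.br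
 (nat_lit 5) (.br (nat_lit 2) (.br (nat_lit 1) (.ch (nat_lit 0) (.nd (nat_lit 2336) (.br (nat_lit 7) (.br
 (nat_lit 4) (.br (nat_lit 1) (.ch (nat_lit 0) (.ev (nat_lit 2352) (nat_lit 36868) .dd)) (.ch (nat_lit 1) (.ev
 (nat_lit 2352) (nat_lit 4) (.ev (nat_lit 2372) (nat_lit 4096) (.ev (nat_lit 2381) (nat_lit 32768) .dd)))))
 (.br (nat_lit 5) (.ch (nat_lit 4) (.ev (nat_lit 2352) (nat_lit 32768) (.ev (nat_lit 2372) (nat_lit 4096) (.ev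
 (nat_lit 2381) (nat_lit 4) .dd)))) (.ch (nat_lit 5) (.ev (nat_lit 2352) (nat_lit 4096) (.ev (nat_lit 3540)
 (nat_lit 4) (.ev (nat_lit 3549) (nat_lit 32768) .dd)))))) (.br (nat_lit 9) (.br (nat_lit 8) (.ch (nat_lit 7)
 (.ev (nat_lit 2352) (nat_lit 36864) (.ev (nat_lit 2365) (nat_lit 4) .dd))) (.ch (nat_lit 8) (.ev (nat_lit
 2352) (nat_lit 4) (.ev (nat_lit 3604) (nat_lit 32768) (.ev (nat_lit 3613) (nat_lit 4096) .dd))))) (.br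
 (nat_lit 10) (.ch (nat_lit 9) (.ev (nat_lit 2352) (nat_lit 32768) (.ev (nat_lit 2400) (nat_lit 4096) (.ev
 (nat_lit 2413) (nat_lit 4) .dd)))) (.br (nat_lit 11) (.ch (nat_lit 10) (.ev (nat_lit 2740) (nat_lit 4096) (.ev
 (nat_lit 3476) (nat_lit 4) (.ev (nat_lit 3485) (nat_lit 32768) .dd)))) (.ch (nat_lit 11) (.ev (nat_lit 3540)
 (nat_lit 32772) (.ev (nat_lit 3549) (nat_lit 4096) .dd))))))))) (.ch (nat_lit 1) (.ev (nat_lit 896) (nat_lit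
 4096) (.ev (nat_lit 1204) (nat_lit 4) (.ev (nat_lit 1213) (nat_lit 32768) .dd))))) (.br (nat_lit 3) (.ch
 (nat_lit 2) (.ev (nat_lit 1364) (nat_lit 4) (.nd (nat_lit 1968) (.br (nat_lit 6) (.br (nat_lit 4) (.br
 (nat_lit 3) (.ch (nat_lit 1) (.ev (nat_lit 1984) (nat_lit 4096) (.ev (nat_lit 1997) (nat_lit 32768) .dd)))
 (.ch (nat_lit 3) (.ev (nat_lit 1984) (nat_lit 4096) (.ev (nat_lit 1997) (nat_lit 32768) .dd)))) (.br (nat_lit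
 5) (.ch (nat_lit 4) (.fin (nat_lit 576437112816484911))) (.ch (nat_lit 5) (.ev (nat_lit 1984) (nat_lit 32768)
 (.ev (nat_lit 1997) (nat_lit 4096) .dd))))) (.br (nat_lit 10) (.br (nat_lit 8) (.ch (nat_lit 6) (.ev (nat_lit
 1984) (nat_lit 32768) (.ev (nat_lit 1997) (nat_lit 4096) .dd))) (.ch (nat_lit 8) (.ev (nat_lit 2196) (nat_lit
 4096) (.ev (nat_lit 2205) (nat_lit 32768) .dd)))) (.br (nat_lit 11) (.ch (nat_lit 10) (.ev (nat_lit 1984)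
 (nat_lit 32768) (.ev (nat_lit 1997) (nat_lit 4096) .dd))) (.br (nat_lit 12) (.ch (nat_lit 11) (.ev (nat_lit
 2068) (nat_lit 4096) (.ev (nat_lit 2077) (nat_lit 32768) .dd))) (.ch (nat_lit 12) (.ev (nat_lit 1984) (nat_lit
 4096) (.ev (nat_lit 1997) (nat_lit 32768) .dd)))))))))) (.ch (nat_lit 3) (.ev (nat_lit 896) (nat_lit 32772)
 (.ev (nat_lit 909) (nat_lit 4096) .dd))))) (.br (nat_lit 8) (.br (nat_lit 6) (.ch (nat_lit 5) (.ev (nat_lit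
 896) (nat_lit 32772) (.ev (nat_lit 909) (nat_lit 4096) .dd))) (.ch (nat_lit 6) (.ev (nat_lit 896) (nat_lit
 4096) (.ev (nat_lit 2900) (nat_lit 32768) (.ev (nat_lit 2909) (nat_lit 4) .dd))))) (.br (nat_lit 9) (.ch
 (nat_lit 8) (.ev (nat_lit 896) (nat_lit 4100) (.ev (nat_lit 909) (nat_lit 32768) .dd))) (.br (nat_lit 11) (.ch
 (nat_lit 9) (.ev (nat_lit 1204) (nat_lit 4) (.nd (nat_lit 2624) (.br (nat_lit 5) (.br (nat_lit 2) (.br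
 (nat_lit 1) (.ch (nat_lit 0) (.ev (nat_lit 2640) (nat_lit 32768) (.ev (nat_lit 2653) (nat_lit 4096) .dd)))
 (.ch (nat_lit 1) (.ev (nat_lit 3012) (nat_lit 32768) (.ev (nat_lit 3021) (nat_lit 4096) .dd)))) (.br (nat_lit
 4) (.ch (nat_lit 2) (.ev (nat_lit 2676) (nat_lit 4096) (.ev (nat_lit 2685) (nat_lit 32768) .dd))) (.ch
 (nat_lit 4) (.ev (nat_lit 2676) (nat_lit 4096) (.ev (nat_lit 2685) (nat_lit 32768) .dd))))) (.br (nat_lit 7)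
 (.br (nat_lit 6) (.ch (nat_lit 5) (.ev (nat_lit 2640) (nat_lit 36864) .dd)) (.ch (nat_lit 6) (.ev (nat_lit
 2640) (nat_lit 36864) .dd))) (.br (nat_lit 8) (.ch (nat_lit 7) (.ev (nat_lit 2640) (nat_lit 4096) (.ev
 (nat_lit 2653) (nat_lit 32768) .dd))) (.br (nat_lit 12) (.ch (nat_lit 8) (.ev (nat_lit 6740) (nat_lit 4096)
 (.ev (nat_lit 6749) (nat_lit 32768) .dd))) (.ch (nat_lit 12) (.ev (nat_lit 2740) (nat_lit 32768) (.ev (nat_lit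
 2749) (nat_lit 4096) .dd)))))))))) (.ch (nat_lit 11) (.ev (nat_lit 896) (nat_lit 32768) (.ev (nat_lit 1332)
 (nat_lit 4) (.ev (nat_lit 1341) (nat_lit 4096) .dd)))))))))))) (.ch (nat_lit 7) (.ev (nat_lit 416) (nat_lit
 8192) (.nd (nat_lit 944) (.br (nat_lit 4) (.br (nat_lit 2) (.br (nat_lit 1) (.ch (nat_lit 0) (.ev (nat_lit
 960) (nat_lit 32772) (.nd (nat_lit 2624) (.br (nat_lit 7) (.br (nat_lit 3) (.ch (nat_lit 2) (.ev (nat_lit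
 2640) (nat_lit 4096) (.ev (nat_lit 2653) (nat_lit 64) .dd))) (.br (nat_lit 6) (.ch (nat_lit 3) (.ev (nat_lit
 3076) (nat_lit 4096) (.ev (nat_lit 3085) (nat_lit 64) .dd))) (.ch (nat_lit 6) (.ev (nat_lit 2640) (nat_lit
 4096) (.ev (nat_lit 2653) (nat_lit 64) .dd))))) (.br (nat_lit 8) (.ch (nat_lit 7) (.ev (nat_lit 2880) (nat_lit
 64) (.ev (nat_lit 2893) (nat_lit 4096) .dd))) (.br (nat_lit 12) (.ch (nat_lit 8) (.ev (nat_lit 3812) (nat_lit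
 4096) (.ev (nat_lit 3821) (nat_lit 64) .dd))) (.ch (nat_lit 12) (.ev (nat_lit 2640) (nat_lit 4096) (.ev
 (nat_lit 2653) (nat_lit 64) .dd))))))))) (.ch (nat_lit 1) (.ev (nat_lit 960) (nat_lit 4096) (.ev (nat_lit
 1204) (nat_lit 32768) (.nd (nat_lit 3408) (.br (nat_lit 5) (.br (nat_lit 3) (.ch (nat_lit 2) (.ev (nat_lit
 3424) (nat_lit 64) (.ev (nat_lit 3437) (nat_lit 4) .dd))) (.br (nat_lit 4) (.ch (nat_lit 3) (.ev (nat_lit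
 3424) (nat_lit 4) (.ev (nat_lit 3437) (nat_lit 64) .dd))) (.ch (nat_lit 4) (.ev (nat_lit 3424) (nat_lit 68)
 .dd)))) (.br (nat_lit 9) (.br (nat_lit 6) (.ch (nat_lit 5) (.ev (nat_lit 3424) (nat_lit 4) (.ev (nat_lit 3437)
 (nat_lit 64) .dd))) (.ch (nat_lit 6) (.ev (nat_lit 3424) (nat_lit 64) (.ev (nat_lit 3437) (nat_lit 4) .dd))))
 (.br (nat_lit 11) (.ch (nat_lit 9) (.ev (nat_lit 3652) (nat_lit 64) (.ev (nat_lit 3661) (nat_lit 4) .dd)))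
 (.ch (nat_lit 11) (.ev (nat_lit 3424) (nat_lit 68) .dd)))))))))) (.br (nat_lit 3) (.ch (nat_lit 2) (.ev
 (nat_lit 960) (nat_lit 36932) .dd)) (.ch (nat_lit 3) (.ev (nat_lit 1332) (nat_lit 4) (.nd (nat_lit 2336) (.br
 (nat_lit 7) (.br (nat_lit 3) (.br (nat_lit 2) (.ch (nat_lit 1) (.ev (nat_lit 3764) (nat_lit 32768) (.ev
 (nat_lit 5968) (nat_lit 64) (.ev (nat_lit 5981) (nat_lit 4096) .dd)))) (.ch (nat_lit 2) (.ev (nat_lit 2352)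
 (nat_lit 32768) (.ev (nat_lit 6452) (nat_lit 4096) (.ev (nat_lit 6461) (nat_lit 64) .dd))))) (.br (nat_lit 5)
 (.ch (nat_lit 3) (.ev (nat_lit 2352) (nat_lit 36928) .dd)) (.ch (nat_lit 5) (.ev (nat_lit 2352) (nat_lit
 36928) .dd)))) (.br (nat_lit 9) (.br (nat_lit 8) (.ch (nat_lit 7) (.ev (nat_lit 2352) (nat_lit 36928) .dd))
 (.ch (nat_lit 8) (.ev (nat_lit 2352) (nat_lit 4096) (.ev (nat_lit 2868) (nat_lit 32768) (.ev (nat_lit 2877)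
 (nat_lit 64) .dd))))) (.br (nat_lit 10) (.ch (nat_lit 9) (.ev (nat_lit 2352) (nat_lit 32832) (.ev (nat_lit
 2365) (nat_lit 4096) .dd))) (.br (nat_lit 12) (.ch (nat_lit 10) (.ev (nat_lit 3540) (nat_lit 64) (.ev (nat_lit
 6148) (nat_lit 4096) (.ev (nat_lit 6157) (nat_lit 32768) .dd)))) (.ch (nat_lit 12) (.ev (nat_lit 2352)
 (nat_lit 64) (.ev (nat_lit 2788) (nat_lit 4096) (.ev (nat_lit 2797) (nat_lit 32768) .dd))))))))))))) (.br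
 (nat_lit 10) (.br (nat_lit 6) (.ch (nat_lit 4) (.ev (nat_lit 960) (nat_lit 36928) (.ev (nat_lit 973) (nat_lit
 4) .dd))) (.ch (nat_lit 6) (.ev (nat_lit 960) (nat_lit 64) (.nd (nat_lit 2128) (.br (nat_lit 5) (.br (nat_lit
 2) (.br (nat_lit 1) (.ch (nat_lit 0) (.ev (nat_lit 2144) (nat_lit 4) (.ev (nat_lit 2164) (nat_lit 4096) (.ev
 (nat_lit 2173) (nat_lit 32768) .dd)))) (.ch (nat_lit 1) (.ev (nat_lit 2144) (nat_lit 4100) (.ev (nat_lit 2157)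
 (nat_lit 32768) .dd)))) (.br (nat_lit 3) (.ch (nat_lit 2) (.ev (nat_lit 2144) (nat_lit 36868) .dd)) (.ch
 (nat_lit 3) (.ev (nat_lit 2144) (nat_lit 4) (.fin (nat_lit 576906603928175088)))))) (.br (nat_lit 9) (.br
 (nat_lit 6) (.ch (nat_lit 5) (.ev (nat_lit 2144) (nat_lit 4096) (.ev (nat_lit 3024) (nat_lit 32772) .dd)))
 (.ch (nat_lit 6) (.ev (nat_lit 3476) (nat_lit 4) (.ev (nat_lit 6260) (nat_lit 32768) (.ev (nat_lit 6269)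
 (nat_lit 4096) .dd))))) (.br (nat_lit 10) (.ch (nat_lit 9) (.ev (nat_lit 2144) (nat_lit 36868) .dd)) (.br
 (nat_lit 12) (.ch (nat_lit 10) (.ev (nat_lit 2144) (nat_lit 32768) (.ev (nat_lit 3012) (nat_lit 4096) (.ev
 (nat_lit 3021) (nat_lit 4) .dd)))) (.ch (nat_lit 12) (.ev (nat_lit 2144) (nat_lit 4100) (.ev (nat_lit 2157)
 (nat_lit 32768) .dd))))))))))) (.br (nat_lit 11) (.ch (nat_lit 10) (.ev (nat_lit 960) (nat_lit 64) (.nd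
 (nat_lit 2128) (.br (nat_lit 4) (.br (nat_lit 1) (.ch (nat_lit 0) (.ev (nat_lit 2144) (nat_lit 4) (.ev
 (nat_lit 2164) (nat_lit 32768) (.ev (nat_lit 2173) (nat_lit 4096) .dd)))) (.br (nat_lit 2) (.ch (nat_lit 1)
 (.ev (nat_lit 2144) (nat_lit 32768) (.ev (nat_lit 5668) (nat_lit 4) (.ev (nat_lit 5677) (nat_lit 4096) .dd))))
 (.ch (nat_lit 2) (.ev (nat_lit 2164) (nat_lit 4096) (.ev (nat_lit 2676) (nat_lit 4) (.ev (nat_lit 2685)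
 (nat_lit 32768) .dd)))))) (.br (nat_lit 9) (.br (nat_lit 8) (.ch (nat_lit 4) (.ev (nat_lit 2144) (nat_lit
 4096) (.ev (nat_lit 2164) (nat_lit 32768) (.ev (nat_lit 2173) (nat_lit 4) .dd)))) (.ch (nat_lit 8) (.ev
 (nat_lit 2144) (nat_lit 36864) (.ev (nat_lit 2157) (nat_lit 4) .dd)))) (.br (nat_lit 12) (.ch (nat_lit 9) (.ev
 (nat_lit 2144) (nat_lit 4) (.ev (nat_lit 2516) (nat_lit 32768) (.ev (nat_lit 2525) (nat_lit 4096) .dd)))) (.ch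
 (nat_lit 12) (.ev (nat_lit 2180) (nat_lit 32768) (.ev (nat_lit 2676) (nat_lit 4) (.ev (nat_lit 2685) (nat_lit
 4096) .dd)))))))))) (.br (nat_lit 12) (.ch (nat_lit 11) (.ev (nat_lit 960) (nat_lit 4) (.ev (nat_lit 1300)
 (nat_lit 64) (.nd (nat_lit 2128) (.br (nat_lit 7) (.br (nat_lit 3) (.br (nat_lit 2) (.ch (nat_lit 1) (.ev
 (nat_lit 2144) (nat_lit 4096) (.ev (nat_lit 2157) (nat_lit 32768) .dd))) (.ch (nat_lit 2) (.ev (nat_lit 6356)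
 (nat_lit 4096) (.ev (nat_lit 6365) (nat_lit 32768) .dd)))) (.br (nat_lit 6) (.ch (nat_lit 3) (.ev (nat_lit
 2144) (nat_lit 4096) (.ev (nat_lit 2157) (nat_lit 32768) .dd))) (.ch (nat_lit 6) (.ev (nat_lit 2144) (nat_lit
 32768) (.ev (nat_lit 2157) (nat_lit 4096) .dd))))) (.br (nat_lit 10) (.br (nat_lit 8) (.ch (nat_lit 7) (.ev
 (nat_lit 6500) (nat_lit 32768) (.ev (nat_lit 6509) (nat_lit 4096) .dd))) (.ch (nat_lit 8) (.ev (nat_lit 2164)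
 (nat_lit 4096) (.ev (nat_lit 2173) (nat_lit 32768) .dd)))) (.br (nat_lit 12) (.ch (nat_lit 10) (.ev (nat_lit
 7088) (nat_lit 32768) (.ev (nat_lit 7101) (nat_lit 4096) .dd))) (.ch (nat_lit 12) (.ev (nat_lit 2144) (nat_lit
 36864) .dd))))))))) (.ch (nat_lit 12) (.ev (nat_lit 960) (nat_lit 4) (.nd (nat_lit 1968) (.br (nat_lit 8) (.br
 (nat_lit 6) (.br (nat_lit 2) (.ch (nat_lit 0) (.ev (nat_lit 1984) (nat_lit 64) (.ev (nat_lit 2372) (nat_lit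
 32768) (.ev (nat_lit 2381) (nat_lit 4096) .dd)))) (.ch (nat_lit 2) (.ev (nat_lit 1984) (nat_lit 4096) (.ev
 (nat_lit 2372) (nat_lit 32768) (.ev (nat_lit 2381) (nat_lit 64) .dd))))) (.br (nat_lit 7) (.ch (nat_lit 6)
 (.ev (nat_lit 1984) (nat_lit 4096) (.ev (nat_lit 2740) (nat_lit 32768) (.ev (nat_lit 2749) (nat_lit 64)
 .dd)))) (.ch (nat_lit 7) (.ev (nat_lit 1984) (nat_lit 32832) (.ev (nat_lit 1997) (nat_lit 4096) .dd))))) (.br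
 (nat_lit 11) (.br (nat_lit 10) (.ch (nat_lit 8) (.ev (nat_lit 1984) (nat_lit 32768) (.ev (nat_lit 3604)
 (nat_lit 64) (.ev (nat_lit 3613) (nat_lit 4096) .dd)))) (.ch (nat_lit 10) (.ev (nat_lit 3764) (nat_lit 64)
 (.ev (nat_lit 6500) (nat_lit 4096) (.ev (nat_lit 6509) (nat_lit 32768) .dd))))) (.br (nat_lit 12) (.ch
 (nat_lit 11) (.ev (nat_lit 1984) (nat_lit 4160) (.ev (nat_lit 1997) (nat_lit 32768) .dd))) (.ch (nat_lit 12)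
 (.ev (nat_lit 3476) (nat_lit 64) (.ev (nat_lit 5492) (nat_lit 32768) (.ev (nat_lit 5501) (nat_lit 4096)
 .dd)))))))))))))))))) (.br (nat_lit 11) (.ch (nat_lit 9) (.ev (nat_lit 416) (nat_lit 64) (.nd (nat_lit 736)
 (.br (nat_lit 5) (.br (nat_lit 2) (.br (nat_lit 1) (.ch (nat_lit 0) (.ev (nat_lit 752) (nat_lit 4) (.nd
 (nat_lit 1840) (.br (nat_lit 5) (.br (nat_lit 3) (.ch (nat_lit 1) (.ev (nat_lit 2372) (nat_lit 32768) (.ev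
 (nat_lit 5444) (nat_lit 4096) (.ev (nat_lit 5453) (nat_lit 8192) .dd)))) (.br (nat_lit 4) (.ch (nat_lit 3)
 (.ev (nat_lit 1856) (nat_lit 36864) (.ev (nat_lit 1869) (nat_lit 8192) .dd))) (.ch (nat_lit 4) (.ev (nat_lit
 1856) (nat_lit 32768) (.ev (nat_lit 2164) (nat_lit 8192) (.ev (nat_lit 2173) (nat_lit 4096) .dd)))))) (.br
 (nat_lit 9) (.br (nat_lit 6) (.ch (nat_lit 5) (.ev (nat_lit 2372) (nat_lit 32768) (.ev (nat_lit 2388) (nat_lit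
 8192) (.ev (nat_lit 2397) (nat_lit 4096) .dd)))) (.ch (nat_lit 6) (.ev (nat_lit 1856) (nat_lit 4096) (.ev
 (nat_lit 2820) (nat_lit 8192) (.ev (nat_lit 2829) (nat_lit 32768) .dd))))) (.br (nat_lit 10) (.ch (nat_lit 9)
 (.ev (nat_lit 1856) (nat_lit 8192) (.ev (nat_lit 1876) (nat_lit 4096) (.ev (nat_lit 1885) (nat_lit 32768)
 .dd)))) (.ch (nat_lit 10) (.ev (nat_lit 1856) (nat_lit 32768) (.ev (nat_lit 1876) (nat_lit 4096) (.ev (nat_lit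
 1885) (nat_lit 8192) .dd)))))))))) (.ch (nat_lit 1) (.ev (nat_lit 752) (nat_lit 45060) .dd))) (.br (nat_lit 3)
 (.ch (nat_lit 2) (.ev (nat_lit 752) (nat_lit 40960) (.nd (nat_lit 1968) (.br (nat_lit 8) (.br (nat_lit 3) (.ch
 (nat_lit 0) (.ev (nat_lit 2752) (nat_lit 4096) (.ev (nat_lit 2765) (nat_lit 4) .dd))) (.br (nat_lit 4) (.ch
 (nat_lit 3) (.ev (nat_lit 1984) (nat_lit 4096) (.ev (nat_lit 1997) (nat_lit 4) .dd))) (.ch (nat_lit 4) (.ev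
 (nat_lit 1984) (nat_lit 4096) (.ev (nat_lit 1997) (nat_lit 4) .dd))))) (.br (nat_lit 9) (.ch (nat_lit 8) (.ev
 (nat_lit 2372) (nat_lit 4) (.ev (nat_lit 2381) (nat_lit 4096) .dd))) (.br (nat_lit 10) (.ch (nat_lit 9) (.ev
 (nat_lit 1984) (nat_lit 4) (.ev (nat_lit 1997) (nat_lit 4096) .dd))) (.ch (nat_lit 10) (.ev (nat_lit 1984)
 (nat_lit 4096) (.ev (nat_lit 1997) (nat_lit 4) .dd))))))))) (.ch (nat_lit 3) (.nd (nat_lit 1968) (.br (nat_lit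
 5) (.br (nat_lit 3) (.ch (nat_lit 2) (.ev (nat_lit 3652) (nat_lit 4) (.ev (nat_lit 6740) (nat_lit 4096) (.nd
 (nat_lit 7728) (.br (nat_lit 4) (.ch (nat_lit 0) (.fin (nat_lit 576735079868875456))) (.ch (nat_lit 4) (.ev
 (nat_lit 7744) (nat_lit 40960) .dd))))))) (.br (nat_lit 4) (.ch (nat_lit 3) (.ev (nat_lit 1984) (nat_lit 4100)
 (.nd (nat_lit 4864) (.br (nat_lit 10) (.ch (nat_lit 0) (.ev (nat_lit 5728) (nat_lit 8192) (.ev (nat_lit 5741)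
 (nat_lit 32768) .dd))) (.ch (nat_lit 10) (.ev (nat_lit 4880) (nat_lit 32768) (.ev (nat_lit 4893) (nat_lit
 8192) .dd))))))) (.ch (nat_lit 4) (.ev (nat_lit 1984) (nat_lit 8192) (.ev (nat_lit 2432) (nat_lit 4) (.ev
 (nat_lit 6356) (nat_lit 32768) (.ev (nat_lit 6365) (nat_lit 4096) .dd))))))) (.br (nat_lit 11) (.br (nat_lit
 7) (.ch (nat_lit 5) (.ev (nat_lit 1984) (nat_lit 12288) (.ev (nat_lit 2676) (nat_lit 4) (.ev (nat_lit 2685)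
 (nat_lit 32768) .dd)))) (.ch (nat_lit 7) (.ev (nat_lit 1984) (nat_lit 4096) (.ev (nat_lit 2516) (nat_lit 8192)
 (.ev (nat_lit 3076) (nat_lit 32768) (.ev (nat_lit 3085) (nat_lit 4) .dd)))))) (.br (nat_lit 12) (.ch (nat_lit
 11) (.ev (nat_lit 1984) (nat_lit 8192) (.ev (nat_lit 3876) (nat_lit 4) (.ev (nat_lit 5540) (nat_lit 4096) (.ev
 (nat_lit 5549) (nat_lit 32768) .dd))))) (.ch (nat_lit 12) (.ev (nat_lit 1984) (nat_lit 36868) (.ev (nat_lit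
 1997) (nat_lit 8192) .dd)))))))))) (.br (nat_lit 8) (.br (nat_lit 7) (.ch (nat_lit 5) (.ev (nat_lit 752)
 (nat_lit 36864) (.nd (nat_lit 1968) (.br (nat_lit 7) (.br (nat_lit 4) (.ch (nat_lit 1) (.ev (nat_lit 2848)
 (nat_lit 4) (.ev (nat_lit 2861) (nat_lit 8192) .dd))) (.br (nat_lit 6) (.ch (nat_lit 4) (.ev (nat_lit 1984)
 (nat_lit 8192) (.ev (nat_lit 1997) (nat_lit 4) .dd))) (.ch (nat_lit 6) (.ev (nat_lit 2868) (nat_lit 4) (.ev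
 (nat_lit 2877) (nat_lit 8192) .dd))))) (.br (nat_lit 10) (.br (nat_lit 8) (.ch (nat_lit 7) (.ev (nat_lit 6500)
 (nat_lit 4) (.ev (nat_lit 6509) (nat_lit 8192) .dd))) (.ch (nat_lit 8) (.ev (nat_lit 1984) (nat_lit 4) (.ev
 (nat_lit 1997) (nat_lit 8192) .dd)))) (.br (nat_lit 12) (.ch (nat_lit 10) (.ev (nat_lit 2388) (nat_lit 8192)
 (.ev (nat_lit 2397) (nat_lit 4) .dd))) (.ch (nat_lit 12) (.ev (nat_lit 1984) (nat_lit 8196) .dd)))))))) (.ch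
 (nat_lit 7) (.ev (nat_lit 752) (nat_lit 4096) (.nd (nat_lit 2128) (.br (nat_lit 6) (.br (nat_lit 3) (.br
 (nat_lit 2) (.ch (nat_lit 0) (.ev (nat_lit 2372) (nat_lit 32768) (.ev (nat_lit 2676) (nat_lit 4) (.ev (nat_lit
 2685) (nat_lit 8192) .dd)))) (.ch (nat_lit 2) (.ev (nat_lit 2564) (nat_lit 8192) (.ev (nat_lit 6788) (nat_lit
 32768) (.ev (nat_lit 6797) (nat_lit 4) .dd))))) (.br (nat_lit 4) (.ch (nat_lit 3) (.ev (nat_lit 2144) (nat_lit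
 4) (.ev (nat_lit 5764) (nat_lit 8192) (.ev (nat_lit 5773) (nat_lit 32768) .dd)))) (.ch (nat_lit 4) (.ev
 (nat_lit 2144) (nat_lit 32772) (.ev (nat_lit 2157) (nat_lit 8192) .dd))))) (.br (nat_lit 11) (.br (nat_lit 10)
 (.ch (nat_lit 6) (.ev (nat_lit 2144) (nat_lit 40960) (.ev (nat_lit 2157) (nat_lit 4) .dd))) (.ch (nat_lit 10)
 (.ev (nat_lit 2420) (nat_lit 40960) (.ev (nat_lit 2429) (nat_lit 4) .dd)))) (.br (nat_lit 12) (.ch (nat_lit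
 11) (.ev (nat_lit 2372) (nat_lit 32768) (.ev (nat_lit 2676) (nat_lit 4) (.ev (nat_lit 2685) (nat_lit 8192)
 .dd)))) (.ch (nat_lit 12) (.ev (nat_lit 2144) (nat_lit 40960) (.ev (nat_lit 2157) (nat_lit 4) .dd))))))))))
 (.br (nat_lit 9) (.ch (nat_lit 8) (.ev (nat_lit 752) (nat_lit 4096) (.ev (nat_lit 1220) (nat_lit 32768) (.nd
 (nat_lit 2624) (.br (nat_lit 6) (.br (nat_lit 3) (.ch (nat_lit 1) (.ev (nat_lit 2640) (nat_lit 4) (.ev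
 (nat_lit 2653) (nat_lit 8192) .dd))) (.br (nat_lit 4) (.ch (nat_lit 3) (.ev (nat_lit 2640) (nat_lit 4) (.ev
 (nat_lit 2653) (nat_lit 8192) .dd))) (.ch (nat_lit 4) (.ev (nat_lit 2640) (nat_lit 4) (.ev (nat_lit 2653)
 (nat_lit 8192) .dd))))) (.br (nat_lit 10) (.br (nat_lit 8) (.ch (nat_lit 6) (.ev (nat_lit 2640) (nat_lit 8192)
 (.ev (nat_lit 2653) (nat_lit 4) .dd))) (.ch (nat_lit 8) (.ev (nat_lit 2640) (nat_lit 8196) .dd))) (.br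
 (nat_lit 12) (.ch (nat_lit 10) (.ev (nat_lit 2640) (nat_lit 8192) (.ev (nat_lit 2653) (nat_lit 4) .dd))) (.ch
 (nat_lit 12) (.ev (nat_lit 2868) (nat_lit 8192) (.ev (nat_lit 2877) (nat_lit 4) .dd)))))))))) (.br (nat_lit
 11) (.ch (nat_lit 9) (.ev (nat_lit 752) (nat_lit 4) (.nd (nat_lit 1552) (.br (nat_lit 7) (.br (nat_lit 4) (.br
 (nat_lit 3) (.ch (nat_lit 1) (.ev (nat_lit 1568) (nat_lit 40960) (.ev (nat_lit 1581) (nat_lit 4096) .dd)))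
 (.ch (nat_lit 3) (.ev (nat_lit 1568) (nat_lit 12288) (.ev (nat_lit 1581) (nat_lit 32768) .dd)))) (.br (nat_lit
 5) (.ch (nat_lit 4) (.nd (nat_lit 3984) (.br (nat_lit 11) (.ch (nat_lit 5) (.ev (nat_lit 4000) (nat_lit 8192)
 (.ev (nat_lit 5104) (nat_lit 36864) .dd))) (.ch (nat_lit 11) (.ev (nat_lit 4000) (nat_lit 4096) (.ev (nat_lit
 6500) (nat_lit 32768) (.ev (nat_lit 6509) (nat_lit 8192) .dd))))))) (.ch (nat_lit 5) (.ev (nat_lit 1588)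
 (nat_lit 4096) (.ev (nat_lit 5540) (nat_lit 32768) (.ev (nat_lit 5549) (nat_lit 8192) .dd)))))) (.br (nat_lit
 9) (.br (nat_lit 8) (.ch (nat_lit 7) (.ev (nat_lit 2004) (nat_lit 32768) (.nd (nat_lit 3984) (.br (nat_lit 6)
 (.br (nat_lit 4) (.ch (nat_lit 1) (.ev (nat_lit 4356) (nat_lit 4096) (.ev (nat_lit 4365) (nat_lit 8192) .dd)))
 (.ch (nat_lit 4) (.ev (nat_lit 4000) (nat_lit 4096) (.ev (nat_lit 4013) (nat_lit 8192) .dd)))) (.br (nat_lit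
 7) (.ch (nat_lit 6) (.ev (nat_lit 4000) (nat_lit 8192) (.ev (nat_lit 4013) (nat_lit 4096) .dd))) (.ch (nat_lit
 7) (.ev (nat_lit 5140) (nat_lit 8192) (.ev (nat_lit 5149) (nat_lit 4096) .dd)))))))) (.ch (nat_lit 8) (.ev
 (nat_lit 1568) (nat_lit 40960) (.ev (nat_lit 1581) (nat_lit 4096) .dd)))) (.br (nat_lit 10) (.ch (nat_lit 9)
 (.ev (nat_lit 1568) (nat_lit 4096) (.ev (nat_lit 2004) (nat_lit 32768) (.ev (nat_lit 2013) (nat_lit 8192)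
 .dd)))) (.ch (nat_lit 10) (.ev (nat_lit 1588) (nat_lit 4096) (.ev (nat_lit 2004) (nat_lit 32768) (.ev (nat_lit
 2013) (nat_lit 8192) .dd)))))))))) (.ch (nat_lit 11) (.ev (nat_lit 752) (nat_lit 8192) (.nd (nat_lit 1744)
 (.br (nat_lit 6) (.br (nat_lit 1) (.ch (nat_lit 0) (.ev (nat_lit 1760) (nat_lit 4096) (.ev (nat_lit 2880)
 (nat_lit 4) (.ev (nat_lit 2893) (nat_lit 32768) .dd)))) (.br (nat_lit 3) (.ch (nat_lit 1) (.ev (nat_lit 1760)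
 (nat_lit 4096) (.ev (nat_lit 3540) (nat_lit 32768) (.ev (nat_lit 3549) (nat_lit 4) .dd)))) (.ch (nat_lit 3)
 (.ev (nat_lit 1760) (nat_lit 32768) (.ev (nat_lit 6148) (nat_lit 4096) (.ev (nat_lit 6157) (nat_lit 4)
 .dd)))))) (.br (nat_lit 10) (.br (nat_lit 8) (.ch (nat_lit 6) (.ev (nat_lit 1760) (nat_lit 4) (.fin (nat_lit
 576487690187784790)))) (.ch (nat_lit 8) (.ev (nat_lit 1760) (nat_lit 32768) (.ev (nat_lit 2900) (nat_lit 4096)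
 (.ev (nat_lit 2909) (nat_lit 4) .dd))))) (.br (nat_lit 12) (.ch (nat_lit 10) (.ev (nat_lit 1760) (nat_lit 4)
 (.ev (nat_lit 1892) (nat_lit 4096) (.ev (nat_lit 1901) (nat_lit 32768) .dd)))) (.ch (nat_lit 12) (.ev (nat_lit
 2004) (nat_lit 32772) (.ev (nat_lit 2013) (nat_lit 4096) .dd)))))))))))))))) (.br (nat_lit 12) (.ch (nat_lit
 11) (.ev (nat_lit 416) (nat_lit 32768) (.nd (nat_lit 1088) (.br (nat_lit 7) (.br (nat_lit 5) (.br (nat_lit 4)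
 (.ch (nat_lit 2) (.ev (nat_lit 1104) (nat_lit 64) (.nd (nat_lit 2336) (.br (nat_lit 7) (.br (nat_lit 5) (.br
 (nat_lit 3) (.ch (nat_lit 2) (.ev (nat_lit 2832) (nat_lit 4) (.fin (nat_lit 576488789851456038)))) (.ch
 (nat_lit 3) (.ev (nat_lit 2352) (nat_lit 4100) (.ev (nat_lit 2365) (nat_lit 8192) .dd)))) (.br (nat_lit 6)
 (.ch (nat_lit 5) (.ev (nat_lit 2352) (nat_lit 4096) (.ev (nat_lit 4020) (nat_lit 4) (.ev (nat_lit 4029)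
 (nat_lit 8192) .dd)))) (.ch (nat_lit 6) (.ev (nat_lit 2352) (nat_lit 8192) (.ev (nat_lit 2372) (nat_lit 4096)
 (.ev (nat_lit 2381) (nat_lit 4) .dd)))))) (.br (nat_lit 9) (.br (nat_lit 8) (.ch (nat_lit 7) (.ev (nat_lit
 3764) (nat_lit 8192) (.ev (nat_lit 4020) (nat_lit 4) (.ev (nat_lit 4029) (nat_lit 4096) .dd)))) (.ch (nat_lit
 8) (.ev (nat_lit 2352) (nat_lit 4) (.ev (nat_lit 2788) (nat_lit 8192) (.ev (nat_lit 2797) (nat_lit 4096)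
 .dd))))) (.br (nat_lit 11) (.ch (nat_lit 9) (.ev (nat_lit 2352) (nat_lit 4100) (.ev (nat_lit 2365) (nat_lit
 8192) .dd))) (.br (nat_lit 12) (.ch (nat_lit 11) (.ev (nat_lit 2352) (nat_lit 12292) .dd)) (.ch (nat_lit 12)
 (.ev (nat_lit 2352) (nat_lit 8192) (.ev (nat_lit 6596) (nat_lit 4096) (.ev (nat_lit 6605) (nat_lit 4)
 .dd))))))))))) (.ch (nat_lit 4) (.ev (nat_lit 1104) (nat_lit 12288) (.ev (nat_lit 1300) (nat_lit 64) (.ev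
 (nat_lit 1309) (nat_lit 4) .dd))))) (.br (nat_lit 6) (.ch (nat_lit 5) (.ev (nat_lit 1104) (nat_lit 4096) (.nd
 (nat_lit 2336) (.br (nat_lit 5) (.br (nat_lit 2) (.br (nat_lit 1) (.ch (nat_lit 0) (.ev (nat_lit 2352)
 (nat_lit 4) (.ev (nat_lit 6020) (nat_lit 8192) (.ev (nat_lit 6029) (nat_lit 64) .dd)))) (.ch (nat_lit 1) (.ev
 (nat_lit 2352) (nat_lit 8192) (.ev (nat_lit 2676) (nat_lit 64) (.ev (nat_lit 2685) (nat_lit 4) .dd))))) (.br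
 (nat_lit 3) (.ch (nat_lit 2) (.ev (nat_lit 2352) (nat_lit 64) (.ev (nat_lit 2868) (nat_lit 8192) (.ev (nat_lit
 2877) (nat_lit 4) .dd)))) (.ch (nat_lit 3) (.ev (nat_lit 2352) (nat_lit 8256) (.ev (nat_lit 2365) (nat_lit 4)
 .dd))))) (.br (nat_lit 8) (.br (nat_lit 7) (.ch (nat_lit 5) (.ev (nat_lit 2352) (nat_lit 8260) .dd)) (.ch
 (nat_lit 7) (.ev (nat_lit 2352) (nat_lit 8192) (.ev (nat_lit 2676) (nat_lit 64) (.ev (nat_lit 2685) (nat_lit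
 4) .dd))))) (.br (nat_lit 9) (.ch (nat_lit 8) (.ev (nat_lit 2352) (nat_lit 8192) (.ev (nat_lit 3604) (nat_lit
 4) (.ev (nat_lit 3613) (nat_lit 64) .dd)))) (.br (nat_lit 11) (.ch (nat_lit 9) (.ev (nat_lit 2352) (nat_lit
 68) (.ev (nat_lit 2365) (nat_lit 8192) .dd))) (.ch (nat_lit 11) (.ev (nat_lit 2352) (nat_lit 68) (.ev (nat_lit
 2365) (nat_lit 8192) .dd)))))))))) (.ch (nat_lit 6) (.ev (nat_lit 1104) (nat_lit 12288) (.ev (nat_lit 1332)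
 (nat_lit 64) (.ev (nat_lit 1341) (nat_lit 4) .dd)))))) (.br (nat_lit 9) (.br (nat_lit 8) (.ch (nat_lit 7) (.ev
 (nat_lit 1104) (nat_lit 64) (.ev (nat_lit 1204) (nat_lit 8192) (.nd (nat_lit 2336) (.br (nat_lit 5) (.br
 (nat_lit 3) (.br (nat_lit 2) (.ch (nat_lit 1) (.ev (nat_lit 2352) (nat_lit 4) (.ev (nat_lit 2365) (nat_lit
 4096) .dd))) (.ch (nat_lit 2) (.ev (nat_lit 2352) (nat_lit 4100) .dd))) (.br (nat_lit 4) (.ch (nat_lit 3)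
 (.fin (nat_lit 576455804490039874))) (.ch (nat_lit 4) (.ev (nat_lit 2740) (nat_lit 4) (.ev (nat_lit 2749)
 (nat_lit 4096) .dd))))) (.br (nat_lit 9) (.br (nat_lit 6) (.ch (nat_lit 5) (.ev (nat_lit 2352) (nat_lit 4096)
 (.ev (nat_lit 2365) (nat_lit 4) .dd))) (.ch (nat_lit 6) (.ev (nat_lit 2740) (nat_lit 4) (.ev (nat_lit 2749)
 (nat_lit 4096) .dd)))) (.br (nat_lit 11) (.ch (nat_lit 9) (.ev (nat_lit 2352) (nat_lit 4096) (.ev (nat_lit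
 2365) (nat_lit 4) .dd))) (.br (nat_lit 12) (.ch (nat_lit 11) (.ev (nat_lit 2352) (nat_lit 4100) .dd)) (.ch
 (nat_lit 12) (.ev (nat_lit 2352) (nat_lit 4) (.ev (nat_lit 2365) (nat_lit 4096) .dd))))))))))) (.ch (nat_lit
 8) (.ev (nat_lit 1104) (nat_lit 8260) (.ev (nat_lit 1117) (nat_lit 4096) .dd)))) (.br (nat_lit 10) (.ch
 (nat_lit 9) (.ev (nat_lit 1104) (nat_lit 68) (.nd (nat_lit 2336) (.br (nat_lit 6) (.br (nat_lit 4) (.br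
 (nat_lit 3) (.ch (nat_lit 1) (.ev (nat_lit 2352) (nat_lit 4096) (.ev (nat_lit 2365) (nat_lit 8192) .dd))) (.ch
 (nat_lit 3) (.ev (nat_lit 2352) (nat_lit 4096) (.ev (nat_lit 2365) (nat_lit 8192) .dd)))) (.br (nat_lit 5)
 (.ch (nat_lit 4) (.ev (nat_lit 2676) (nat_lit 4096) (.ev (nat_lit 2685) (nat_lit 8192) .dd))) (.ch (nat_lit 5)
 (.ev (nat_lit 2352) (nat_lit 4096) (.ev (nat_lit 2365) (nat_lit 8192) .dd))))) (.br (nat_lit 9) (.br (nat_lit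
 8) (.ch (nat_lit 6) (.ev (nat_lit 2676) (nat_lit 4096) (.ev (nat_lit 2685) (nat_lit 8192) .dd))) (.ch (nat_lit
 8) (.ev (nat_lit 2352) (nat_lit 8192) (.ev (nat_lit 2365) (nat_lit 4096) .dd)))) (.br (nat_lit 10) (.ch
 (nat_lit 9) (.ev (nat_lit 2352) (nat_lit 12288) .dd)) (.ch (nat_lit 10) (.ev (nat_lit 2788) (nat_lit 4096)
 (.ev (nat_lit 2797) (nat_lit 8192) .dd))))))))) (.br (nat_lit 11) (.ch (nat_lit 10) (.ev (nat_lit 1104)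
 (nat_lit 4100) (.ev (nat_lit 1300) (nat_lit 64) (.ev (nat_lit 1309) (nat_lit 8192) .dd)))) (.ch (nat_lit 11)
 (.nd (nat_lit 2336) (.br (nat_lit 5) (.br (nat_lit 1) (.ch (nat_lit 0) (.ev (nat_lit 2352) (nat_lit 68) (.ev
 (nat_lit 2676) (nat_lit 8192) (.ev (nat_lit 2685) (nat_lit 4096) .dd)))) (.br (nat_lit 4) (.ch (nat_lit 1)
 (.ev (nat_lit 2352) (nat_lit 4160) (.ev (nat_lit 2676) (nat_lit 4) (.ev (nat_lit 2685) (nat_lit 8192) .dd))))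
 (.ch (nat_lit 4) (.ev (nat_lit 2352) (nat_lit 68) (.ev (nat_lit 2868) (nat_lit 4096) (.ev (nat_lit 2877)
 (nat_lit 8192) .dd)))))) (.br (nat_lit 11) (.br (nat_lit 9) (.ch (nat_lit 5) (.ev (nat_lit 2352) (nat_lit
 8192) (.ev (nat_lit 2420) (nat_lit 4096) (.ev (nat_lit 6500) (nat_lit 64) (.ev (nat_lit 6509) (nat_lit 4)
 .dd))))) (.ch (nat_lit 9) (.ev (nat_lit 2352) (nat_lit 64) (.ev (nat_lit 2676) (nat_lit 8196) (.ev (nat_lit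
 2685) (nat_lit 4096) .dd))))) (.br (nat_lit 12) (.ch (nat_lit 11) (.ev (nat_lit 2352) (nat_lit 4160) (.nd
 (nat_lit 4304) (.br (nat_lit 9) (.br (nat_lit 1) (.ch (nat_lit 0) (.ev (nat_lit 4320) (nat_lit 8196) .dd))
 (.br (nat_lit 6) (.ch (nat_lit 1) (.ev (nat_lit 4320) (nat_lit 8192) (.ev (nat_lit 4333) (nat_lit 4) .dd)))
 (.ch (nat_lit 6) (.ev (nat_lit 6160) (nat_lit 8192) (.ev (nat_lit 6173) (nat_lit 4) .dd))))) (.br (nat_lit 11)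
 (.br (nat_lit 10) (.ch (nat_lit 9) (.ev (nat_lit 4320) (nat_lit 8196) .dd)) (.ch (nat_lit 10) (.ev (nat_lit
 6368) (nat_lit 8196) .dd))) (.br (nat_lit 12) (.ch (nat_lit 11) (.ev (nat_lit 4320) (nat_lit 8192) (.ev
 (nat_lit 4333) (nat_lit 4) .dd))) (.ch (nat_lit 12) (.ev (nat_lit 6868) (nat_lit 8192) (.ev (nat_lit 6877)
 (nat_lit 4) .dd))))))))) (.ch (nat_lit 12) (.ev (nat_lit 2352) (nat_lit 8192) (.ev (nat_lit 2740) (nat_lit 4)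
 (.nd (nat_lit 7792) (.br (nat_lit 5) (.ch (nat_lit 2) (.ev (nat_lit 7808) (nat_lit 4160) .dd)) (.br (nat_lit
 7) (.ch (nat_lit 5) (.ev (nat_lit 7808) (nat_lit 4160) .dd)) (.ch (nat_lit 7) (.fin (nat_lit
 576439311825060436))))))))))))))))))))) (.ch (nat_lit 12) (.ev (nat_lit 416) (nat_lit 32832) (.ev (nat_lit
 564) (nat_lit 4) (.nd (nat_lit 944) (.br (nat_lit 6) (.br (nat_lit 3) (.br (nat_lit 2) (.ch (nat_lit 0) (.ev
 (nat_lit 960) (nat_lit 12288) .dd)) (.ch (nat_lit 2) (.nd (nat_lit 1840) (.br (nat_lit 7) (.br (nat_lit 5)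
 (.br (nat_lit 4) (.ch (nat_lit 3) (.nd (nat_lit 4304) (.br (nat_lit 9) (.br (nat_lit 2) (.ch (nat_lit 0) (.ev
 (nat_lit 4320) (nat_lit 8192) (.ev (nat_lit 4333) (nat_lit 4096) .dd))) (.br (nat_lit 6) (.ch (nat_lit 2) (.ev
 (nat_lit 6788) (nat_lit 4096) (.ev (nat_lit 6797) (nat_lit 8192) .dd))) (.ch (nat_lit 6) (.ev (nat_lit 5236)
 (nat_lit 4096) (.ev (nat_lit 5245) (nat_lit 8192) .dd))))) (.br (nat_lit 10) (.ch (nat_lit 9) (.ev (nat_lit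
 4320) (nat_lit 4096) (.ev (nat_lit 4333) (nat_lit 8192) .dd))) (.br (nat_lit 12) (.ch (nat_lit 10) (.ev
 (nat_lit 5444) (nat_lit 8192) (.ev (nat_lit 5453) (nat_lit 4096) .dd))) (.ch (nat_lit 12) (.ev (nat_lit 4320)
 (nat_lit 8192) (.ev (nat_lit 4333) (nat_lit 4096) .dd)))))))) (.ch (nat_lit 4) (.ev (nat_lit 1856) (nat_lit
 4096) (.ev (nat_lit 1869) (nat_lit 8192) .dd)))) (.br (nat_lit 6) (.ch (nat_lit 5) (.ev (nat_lit 1856)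
 (nat_lit 8192) (.ev (nat_lit 1869) (nat_lit 4096) .dd))) (.ch (nat_lit 6) (.ev (nat_lit 1856) (nat_lit 12288)
 .dd)))) (.br (nat_lit 10) (.br (nat_lit 9) (.ch (nat_lit 7) (.ev (nat_lit 6176) (nat_lit 8192) (.ev (nat_lit
 6189) (nat_lit 4096) .dd))) (.ch (nat_lit 9) (.nd (nat_lit 4224) (.br (nat_lit 8) (.br (nat_lit 3) (.ch
 (nat_lit 1) (.ev (nat_lit 4240) (nat_lit 8192) (.ev (nat_lit 4253) (nat_lit 4096) .dd))) (.br (nat_lit 4) (.ch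
 (nat_lit 3) (.ev (nat_lit 5716) (nat_lit 4096) (.ev (nat_lit 5725) (nat_lit 8192) .dd))) (.ch (nat_lit 4) (.ev
 (nat_lit 4976) (nat_lit 4096) (.ev (nat_lit 4989) (nat_lit 8192) .dd))))) (.br (nat_lit 11) (.ch (nat_lit 8)
 (.ev (nat_lit 4240) (nat_lit 4096) (.ev (nat_lit 4253) (nat_lit 8192) .dd))) (.br (nat_lit 12) (.ch (nat_lit
 11) (.ev (nat_lit 4240) (nat_lit 4096) (.ev (nat_lit 4253) (nat_lit 8192) .dd))) (.ch (nat_lit 12) (.ev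
 (nat_lit 4240) (nat_lit 8192) (.ev (nat_lit 4253) (nat_lit 4096) .dd))))))))) (.br (nat_lit 11) (.ch (nat_lit
 10) (.ev (nat_lit 6560) (nat_lit 4096) (.ev (nat_lit 6573) (nat_lit 8192) .dd))) (.br (nat_lit 12) (.ch
 (nat_lit 11) (.ev (nat_lit 1856) (nat_lit 12288) .dd)) (.ch (nat_lit 12) (.nd (nat_lit 4592) (.br (nat_lit 3)
 (.br (nat_lit 1) (.ch (nat_lit 0) (.ev (nat_lit 4608) (nat_lit 4096) (.ev (nat_lit 4621) (nat_lit 8192) .dd)))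
 (.br (nat_lit 2) (.ch (nat_lit 1) (.ev (nat_lit 4608) (nat_lit 4096) (.ev (nat_lit 4621) (nat_lit 8192) .dd)))
 (.ch (nat_lit 2) (.ev (nat_lit 4608) (nat_lit 8192) (.ev (nat_lit 4621) (nat_lit 4096) .dd))))) (.br (nat_lit
 8) (.ch (nat_lit 3) (.ev (nat_lit 4644) (nat_lit 8192) (.ev (nat_lit 4653) (nat_lit 4096) .dd))) (.br (nat_lit
 12) (.ch (nat_lit 8) (.ev (nat_lit 4608) (nat_lit 4096) (.ev (nat_lit 4621) (nat_lit 8192) .dd))) (.ch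
 (nat_lit 12) (.ev (nat_lit 4608) (nat_lit 4096) (.ev (nat_lit 4621) (nat_lit 8192) .dd))))))))))))))) (.br
 (nat_lit 5) (.ch (nat_lit 3) (.nd (nat_lit 2336) (.br (nat_lit 8) (.ch (nat_lit 3) (.ev (nat_lit 3188)
 (nat_lit 4096) (.ev (nat_lit 3197) (nat_lit 8192) .dd))) (.br (nat_lit 11) (.ch (nat_lit 8) (.ev (nat_lit
 2372) (nat_lit 4096) (.ev (nat_lit 2381) (nat_lit 8192) .dd))) (.ch (nat_lit 11) (.ev (nat_lit 2788) (nat_lit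
 8192) (.ev (nat_lit 2797) (nat_lit 4096) .dd))))))) (.ch (nat_lit 5) (.ev (nat_lit 960) (nat_lit 4096) (.ev
 (nat_lit 973) (nat_lit 8192) .dd))))) (.br (nat_lit 9) (.br (nat_lit 8) (.ch (nat_lit 6) (.ev (nat_lit 960)
 (nat_lit 8192) (.ev (nat_lit 973) (nat_lit 4096) .dd))) (.ch (nat_lit 8) (.ev (nat_lit 960) (nat_lit 8192)
 (.ev (nat_lit 973) (nat_lit 4096) .dd)))) (.br (nat_lit 10) (.ch (nat_lit 9) (.nd (nat_lit 1456) (.br (nat_lit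
 6) (.br (nat_lit 2) (.br (nat_lit 1) (.ch (nat_lit 0) (.ev (nat_lit 1472) (nat_lit 12288) .dd)) (.ch (nat_lit
 1) (.ev (nat_lit 1472) (nat_lit 4096) (.ev (nat_lit 1485) (nat_lit 8192) .dd)))) (.br (nat_lit 4) (.ch
 (nat_lit 2) (.ev (nat_lit 6964) (nat_lit 8192) (.ev (nat_lit 6973) (nat_lit 4096) .dd))) (.ch (nat_lit 4) (.ev
 (nat_lit 1472) (nat_lit 4096) (.ev (nat_lit 1485) (nat_lit 8192) .dd))))) (.br (nat_lit 8) (.br (nat_lit 7)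
 (.ch (nat_lit 6) (.nd (nat_lit 4864) (.br (nat_lit 10) (.br (nat_lit 2) (.ch (nat_lit 0) (.ev (nat_lit 4880)
 (nat_lit 8192) (.ev (nat_lit 4893) (nat_lit 4096) .dd))) (.br (nat_lit 6) (.ch (nat_lit 2) (.ev (nat_lit 6452)
 (nat_lit 4096) (.ev (nat_lit 6461) (nat_lit 8192) .dd))) (.ch (nat_lit 6) (.ev (nat_lit 4880) (nat_lit 4096)
 (.ev (nat_lit 4893) (nat_lit 8192) .dd))))) (.br (nat_lit 11) (.ch (nat_lit 10) (.ev (nat_lit 4880) (nat_lit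
 8192) (.ev (nat_lit 4893) (nat_lit 4096) .dd))) (.br (nat_lit 12) (.ch (nat_lit 11) (.ev (nat_lit 4880)
 (nat_lit 8192) (.ev (nat_lit 4893) (nat_lit 4096) .dd))) (.ch (nat_lit 12) (.ev (nat_lit 4880) (nat_lit 4096)
 (.ev (nat_lit 4893) (nat_lit 8192) .dd)))))))) (.ch (nat_lit 7) (.nd (nat_lit 4416) (.br (nat_lit 7) (.br
 (nat_lit 3) (.ch (nat_lit 0) (.ev (nat_lit 4432) (nat_lit 8192) (.ev (nat_lit 4445) (nat_lit 4096) .dd))) (.br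
 (nat_lit 6) (.ch (nat_lit 3) (.ev (nat_lit 6384) (nat_lit 4096) (.ev (nat_lit 6397) (nat_lit 8192) .dd))) (.ch
 (nat_lit 6) (.ev (nat_lit 4432) (nat_lit 12288) .dd)))) (.br (nat_lit 9) (.br (nat_lit 8) (.ch (nat_lit 7)
 (.ev (nat_lit 4432) (nat_lit 4096) (.ev (nat_lit 4445) (nat_lit 8192) .dd))) (.ch (nat_lit 8) (.ev (nat_lit
 6900) (nat_lit 4096) (.ev (nat_lit 6909) (nat_lit 8192) .dd)))) (.br (nat_lit 11) (.ch (nat_lit 9) (.ev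
 (nat_lit 4432) (nat_lit 4096) (.ev (nat_lit 4445) (nat_lit 8192) .dd))) (.ch (nat_lit 11) (.ev (nat_lit 4432)
 (nat_lit 12288) .dd)))))))) (.br (nat_lit 10) (.ch (nat_lit 8) (.ev (nat_lit 1472) (nat_lit 8192) (.ev
 (nat_lit 1485) (nat_lit 4096) .dd))) (.br (nat_lit 12) (.ch (nat_lit 10) (.nd (nat_lit 4864) (.br (nat_lit 8)
 (.br (nat_lit 7) (.ch (nat_lit 5) (.ev (nat_lit 4880) (nat_lit 8192) (.ev (nat_lit 4893) (nat_lit 4096) .dd)))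
 (.ch (nat_lit 7) (.ev (nat_lit 5492) (nat_lit 8192) (.ev (nat_lit 5501) (nat_lit 4096) .dd)))) (.br (nat_lit
 9) (.ch (nat_lit 8) (.ev (nat_lit 4880) (nat_lit 8192) (.ev (nat_lit 4893) (nat_lit 4096) .dd))) (.br (nat_lit
 11) (.ch (nat_lit 9) (.ev (nat_lit 5936) (nat_lit 12288) .dd)) (.ch (nat_lit 11) (.ev (nat_lit 4880) (nat_lit
 4096) (.ev (nat_lit 4893) (nat_lit 8192) .dd)))))))) (.ch (nat_lit 12) (.ev (nat_lit 1472) (nat_lit 8192) (.ev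
 (nat_lit 1485) (nat_lit 4096) .dd))))))))) (.br (nat_lit 11) (.ch (nat_lit 10) (.ev (nat_lit 960) (nat_lit
 4096) (.ev (nat_lit 973) (nat_lit 8192) .dd))) (.ch (nat_lit 11) (.nd (nat_lit 2128) (.br (nat_lit 7) (.br
 (nat_lit 3) (.br (nat_lit 2) (.ch (nat_lit 0) (.ev (nat_lit 2144) (nat_lit 12288) .dd)) (.ch (nat_lit 2) (.ev
 (nat_lit 3188) (nat_lit 8192) (.ev (nat_lit 3197) (nat_lit 4096) .dd)))) (.br (nat_lit 6) (.ch (nat_lit 3)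
 (.ev (nat_lit 2144) (nat_lit 12288) .dd)) (.ch (nat_lit 6) (.ev (nat_lit 3188) (nat_lit 8192) (.ev (nat_lit
 3197) (nat_lit 4096) .dd))))) (.br (nat_lit 10) (.br (nat_lit 9) (.ch (nat_lit 7) (.ev (nat_lit 2144) (nat_lit
 8192) (.ev (nat_lit 2157) (nat_lit 4096) .dd))) (.ch (nat_lit 9) (.ev (nat_lit 2144) (nat_lit 4096) (.ev
 (nat_lit 2157) (nat_lit 8192) .dd)))) (.br (nat_lit 11) (.ch (nat_lit 10) (.ev (nat_lit 2144) (nat_lit 4096)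
 (.ev (nat_lit 2157) (nat_lit 8192) .dd))) (.br (nat_lit 12) (.ch (nat_lit 11) (.ev (nat_lit 2144) (nat_lit
 8192) (.ev (nat_lit 2157) (nat_lit 4096) .dd))) (.ch (nat_lit 12) (.ev (nat_lit 3012) (nat_lit 4096) (.ev
 (nat_lit 3021) (nat_lit 8192) .dd))))))))))))))))))))))))))))))

/-- The trie. -/
noncomputable def T : Tr := .nd (nat_lit 1000000) (.br (nat_lit 3) (.br (nat_lit 1) (.ch (nat_lit 0) (.ev
 (nat_lit 0) (nat_lit 524287) .dd)) (.br (nat_lit 2) (.ch (nat_lit 1) (.ev (nat_lit 0) (nat_lit 524287) .dd))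
 (.ch (nat_lit 2) T2))) (.br (nat_lit 4) (.ch (nat_lit 3) (.ev (nat_lit 0) (nat_lit 524287) .dd)) (.br (nat_lit
 5) (.ch (nat_lit 4) T4) (.ch (nat_lit 5) T5))))

/-- The possible values. -/
noncomputable def oks : List ℕ := [4, 9, 43, 66, 87, 178, 244, 315, 321, 391, 690, 985, 1130, 1524, 1860, 2818, 3121, 4527, 4963, 5641, 10410, 20562, 21115, 25442, 26946, 30082, 31860, 43690, 125025, 229740, 782227, 1017561, 6427378, 269120010]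

/-- The parameters. -/
noncomputable def S : Pr := ⟨fun i l e => lget mz (lget [] (lget [] tabs i) l) e, oks, [(nat_lit 0), (nat_lit
 0), (nat_lit 0), (nat_lit 0), (nat_lit 0), (nat_lit 0), (nat_lit 0), (nat_lit 0), (nat_lit 0)], T, (nat_lit
 524287), (nat_lit 279193), (nat_lit 19), [(nat_lit 11)], [(nat_lit 10604499373)]⟩

/-- Nothing known. -/
noncomputable def cs0 : Cs := (.cons (nat_lit 13) (nat_lit 0) (nat_lit 1) .nil)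

theorem part_2 : part S cs0 (nat_lit 2) = true := by decide +kernel

theorem part_4 : part S cs0 (nat_lit 4) = true := by decide +kernel

theorem part_5 : part S cs0 (nat_lit 5) = true := by decide +kernel

/-- Data of a prime. -/
noncomputable def D0 : PD := ⟨(nat_lit 13), (nat_lit 9), (2358214626, 6, 3), (2204056108, 5718978643, 3992331229), (8600265001, 7451838607, 5875508224)⟩

theorem D0_ok : D0.Ok := pdb_sound (s := 2) (C := ⟨⟨3, 18, -4, -17, 2, 1, 2, -1, -7⟩, (3, 9, 2)⟩) (by show Nat.Prime 13; norm_num) (by decide +kernel)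

/-- Lines of the first type. -/
noncomputable def Cl0 : List C1 := [⟨⟨17, -2, -16, 3, 18, 1, -2, 1, -5⟩, (10, 1, 8)⟩,
  ⟨⟨3, -18, -4, -17, -2, 1, 2, 1, -7⟩, (5, 2, 12)⟩,
  ⟨⟨0, 0, 0, 0, 0, 0, 0, 0, 0⟩, (0, 0, 0)⟩,
  ⟨⟨17, 2, -16, 3, -18, 1, -2, -1, -5⟩, (8, 6, 9)⟩,
  ⟨⟨0, 0, 0, 0, 0, 0, 0, 0, 0⟩, (0, 0, 0)⟩,
  ⟨⟨0, 0, 0, 0, 0, 0, 0, 0, 0⟩, (0, 0, 0)⟩,
  ⟨⟨0, 0, 0, 0, 0, 0, 0, 0, 0⟩, (0, 0, 0)⟩,
  ⟨⟨0, 0, 0, 0, 0, 0, 0, 0, 0⟩, (0, 0, 0)⟩,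
  ⟨⟨0, 0, 0, 0, 0, 0, 0, 0, 0⟩, (0, 0, 0)⟩,
  ⟨⟨0, 0, 0, 0, 0, 0, 0, 0, 0⟩, (0, 0, 0)⟩,
  ⟨⟨0, 0, 0, 0, 0, 0, 0, 0, 0⟩, (0, 0, 0)⟩,
  ⟨⟨0, 0, 0, 0, 0, 0, 0, 0, 0⟩, (0, 0, 0)⟩,
  ⟨⟨0, 0, 0, 0, 0, 0, 0, 0, 0⟩, (0, 0, 0)⟩]

/-- Data of a prime. -/
noncomputable def Dm : PD := ⟨(nat_lit 19), (nat_lit 2), (210, 3, 5), (67, 193, 280), (183, 17, 194)⟩

theorem Dm_ok : Dm.Ok := pdb_sound (s := 9) (C := ⟨⟨21, 6, -28, 11, 14, 17, -4, 7, -1⟩, (2, 11, 15)⟩) (by show Nat.Prime 19; norm_num) (by decide +kernel)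

/-- Lines of the first type. -/
noncomputable def Clm : List C1 := [⟨⟨11, 14, -28, 21, 6, 7, 4, -7, -5⟩, (12, 16, 13)⟩,
  ⟨⟨0, 0, 0, 0, 0, 0, 0, 0, 0⟩, (0, 0, 0)⟩,
  ⟨⟨0, 0, 0, 0, 0, 0, 0, 0, 0⟩, (0, 0, 0)⟩,
  ⟨⟨9, 6, -32, 1, 26, 7, 8, -1, -1⟩, (8, 3, 5)⟩,
  ⟨⟨-9, -6, -23, -1, -26, 8, 8, -1, -7⟩, (13, 12, 18)⟩,
  ⟨⟨0, 0, 0, 0, 0, 0, 0, 0, 0⟩, (0, 0, 0)⟩,
  ⟨⟨0, 0, 0, 0, 0, 0, 0, 0, 0⟩, (0, 0, 0)⟩,
  ⟨⟨9, -6, -32, 1, -26, 7, 8, 1, -1⟩, (5, 9, 15)⟩,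
  ⟨⟨0, 0, 0, 0, 0, 0, 0, 0, 0⟩, (0, 0, 0)⟩,
  ⟨⟨21, -6, -28, 11, -14, 17, -4, -7, -1⟩, (16, 12, 6)⟩,
  ⟨⟨0, 0, 0, 0, 0, 0, 0, 0, 0⟩, (0, 0, 0)⟩,
  ⟨⟨0, 0, 0, 0, 0, 0, 0, 0, 0⟩, (0, 0, 0)⟩,
  ⟨⟨0, 0, 0, 0, 0, 0, 0, 0, 0⟩, (0, 0, 0)⟩,
  ⟨⟨0, 0, 0, 0, 0, 0, 0, 0, 0⟩, (0, 0, 0)⟩,
  ⟨⟨11, -14, -28, 21, -6, 7, 4, 7, -5⟩, (5, 13, 7)⟩,
  ⟨⟨0, 0, 0, 0, 0, 0, 0, 0, 0⟩, (0, 0, 0)⟩,
  ⟨⟨0, 0, 0, 0, 0, 0, 0, 0, 0⟩, (0, 0, 0)⟩,
  ⟨⟨0, 0, 0, 0, 0, 0, 0, 0, 0⟩, (0, 0, 0)⟩,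
  ⟨⟨-9, 6, -23, -1, 26, 8, 8, 1, -7⟩, (16, 6, 9)⟩]

/-- Unit moves. -/
noncomputable def U : List Mv := [mz,
  mz,
  mz,
  mz,
  mz,
  mz,
  ⟨⟨-1, 0, 1, 0, 1, 0, 0, 0, 1⟩, .nil, (nat_lit 12), (nat_lit 1), (nat_lit 4), (nat_lit 1), (0, 0, 0), [], 5⟩,
  ⟨⟨1, 0, 0, 0, -1, 0, 0, 0, 1⟩, .nil, (nat_lit 12), (nat_lit 3), (nat_lit 12), (nat_lit 1), (0, 0, 0), [], 11⟩,
  ⟨⟨-1, 0, 1, 0, -1, 0, 0, 0, 1⟩, .nil, (nat_lit 0), (nat_lit 3), (nat_lit 1), (nat_lit 0), (0, 0, 0), [], 10⟩,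
  ⟨⟨1, 0, 0, 0, -1, 0, 0, 0, 1⟩, .nil, (nat_lit 12), (nat_lit 3), (nat_lit 12), (nat_lit 1), (0, 0, 0), [], 11⟩,
  ⟨⟨-1, 0, 1, 0, 1, 0, 0, 0, 1⟩, .nil, (nat_lit 12), (nat_lit 1), (nat_lit 4), (nat_lit 1), (0, 0, 0), [], 5⟩,
  ⟨⟨-1, 0, 1, 0, -1, 0, 0, 0, 1⟩, .nil, (nat_lit 0), (nat_lit 3), (nat_lit 1), (nat_lit 0), (0, 0, 0), [], 10⟩,
  ⟨⟨1, 0, 0, 0, -1, 0, 0, 0, 1⟩, .nil, (nat_lit 12), (nat_lit 3), (nat_lit 12), (nat_lit 1), (0, 0, 0), [], 11⟩]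

theorem v_ty : tyb Dm S.ty1 Clm = true := by decide +kernel

theorem v_ty0 : tyb D0 (S.tys.getD 0 0) Cl0 = true := by decide +kernel

theorem v_msc : mscb S D0 [] Dm (nat_lit 52) = true := by decide +kernel

theorem v_mv0 : mvsn (nat_lit 3828224273653) S D0 [] Dm (nat_lit 52) 0 D0 = true := by decide +kernel

theorem v_mm : mmsn (nat_lit 3828224273653) S D0 [] Dm (nat_lit 52) = true := by decide +kernel

theorem v_un : unb S D0 (nat_lit 52) U = true := by decide +kernel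

theorem v_ok : okb S.oks [(0, 0, 0), (0, 3, 0), (0, 0, 0), (0, 0, 0), (0, 0, 0), (0, 0, 0), (0, 0, 0), (4, 17,
 1), (5, 16, 2), (0, 0, 0), (0, 0, 0), (12, 29, 0), (0, 0, 0), (0, 0, 0), (0, 0, 0), (0, 0, 0), (39, 40, 0),
 (46, 49, 1), (43, 48, 9), (4, 75, 0), (0, 0, 0), (0, 0, 0), (0, 145, 3), (0, 0, 0), (0, 0, 0), (0, 0, 0), (0,
 0, 0), (0, 0, 0), (16, 353, 4), (0, 0, 0), (189, 864, 1), (239, 980, 2), (0, 0, 0), (0, 0, 0)] = true := by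
 decide +kernel

theorem v_part : ∀ d < D0.p, (nat_lit 52).testBit d = true → part S (zc (D0 :: [])) d = true := by
  intro d hd h
  have h1 : ∀ d < 13, (nat_lit 52).testBit d = true → d = 2 ∨ d = 4 ∨ d = 5 := by decide
  rcases h1 d hd h with rfl | rfl | rfl
  · exact part_2
  · exact part_4
  · exact part_5

theorem main (n : ℕ) (ho : Odd n) (hr : ¬ Rep n) (h0 : Split 13 n) (hm : Split 19 n) :
    n ∈ EE := by
  refine concln (W := nat_lit 3828224273653) (S := S) (P0 := D0) (Pl := []) (Pm := Dm) (cn := nat_lit 52) ?_ Dm_ok v_ty ?_ ?_ v_msc ?_ v_mm v_un v_part v_ok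
    n ho hr ?_ hm
  · simp only [List.forall_mem_cons]
    exact ⟨D0_ok, fun _ h => absurd h (by simp)⟩
  · exact all1 (φ := fun j P => ∃ L, tyb P (S.tys.getD j 0) L = true) ⟨_, v_ty0⟩
  · exact all1 (φ := fun j P => Nat.ble (S.pks.getD j 0) (Nat.pow P.p P.K) = true) (by decide +kernel)
  · exact all1 (φ := fun i P => mvsn (nat_lit 3828224273653) S D0 [] Dm (nat_lit 52) i P = true) v_mv0
  · simp only [List.forall_mem_cons]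
    exact ⟨h0, fun _ h => absurd h (by simp)⟩

end Pool.Agent.Work.MP_9954fe_nt.P13_19

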