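import Pool.Agent.Work.MP_9954fe_nt.Fast

/-!
Certificates for the sets {47, 53, 71} of split primes.
-/

set_option autoImplicit false
set_option linter.all false
set_option maxRecDepth 100000

namespace Pool.Agent.Work.MP_9954fe_nt.P47_53_71

/-- Dummy move. -/
noncomputable def mz : Mv := ⟨⟨0, 0, 0, 0, 0, 0, 0, 0, 0⟩, .nil, (nat_lit 0), (nat_lit 0), (nat_lit 0), (nat_lit 0), (0, 0, 0), [], 0⟩

/-- Moves. -/
noncomputable def t0_1 : List Mv := [
  ⟨⟨45, 16, -1, 22, -35, -36, 20, 28, -37⟩, (.cons (nat_lit 217) (nat_lit 236) (nat_lit 197) (nat_lit 1) (.cons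
 (nat_lit 1786) (nat_lit 2312) (nat_lit 1761) (nat_lit 1) .nil)), (nat_lit 39), (nat_lit 25), (nat_lit 67),
 (nat_lit 1), (34, 2, 36), [114, 2684], 1⟩,
  ⟨⟨45, 16, -1, 22, -35, -36, 20, 28, -37⟩, (.cons (nat_lit 217) (nat_lit 236) (nat_lit 197) (nat_lit 1) (.cons
 (nat_lit 1786) (nat_lit 2312) (nat_lit 1761) (nat_lit 1) .nil)), (nat_lit 39), (nat_lit 25), (nat_lit 67),
 (nat_lit 1), (34, 2, 36), [114, 2684], 1⟩,
  ⟨⟨45, 16, -1, 22, -35, -36, 20, 28, -37⟩, (.cons (nat_lit 217) (nat_lit 236) (nat_lit 197) (nat_lit 1) (.cons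
 (nat_lit 1786) (nat_lit 2312) (nat_lit 1761) (nat_lit 1) .nil)), (nat_lit 39), (nat_lit 25), (nat_lit 67),
 (nat_lit 1), (34, 2, 36), [114, 2684], 1⟩,
  ⟨⟨45, 16, -1, 22, -35, -36, 20, 28, -37⟩, (.cons (nat_lit 217) (nat_lit 236) (nat_lit 197) (nat_lit 1) (.cons
 (nat_lit 1786) (nat_lit 2312) (nat_lit 1761) (nat_lit 1) .nil)), (nat_lit 39), (nat_lit 25), (nat_lit 67),
 (nat_lit 1), (34, 2, 36), [114, 2684], 1⟩,
  ⟨⟨45, 16, -1, 22, -35, -36, 20, 28, -37⟩, (.cons (nat_lit 217) (nat_lit 236) (nat_lit 197) (nat_lit 1) (.cons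
 (nat_lit 1786) (nat_lit 2312) (nat_lit 1761) (nat_lit 1) .nil)), (nat_lit 39), (nat_lit 25), (nat_lit 67),
 (nat_lit 1), (34, 2, 36), [114, 2684], 1⟩,
  ⟨⟨45, 16, -1, -22, 35, 36, 20, 28, -37⟩, (.cons (nat_lit 472) (nat_lit 2204) (nat_lit 1486) (nat_lit 1)
 (.cons (nat_lit 1151) (nat_lit 632) (nat_lit 2143) (nat_lit 1) .nil)), (nat_lit 54), (nat_lit 66), (nat_lit
 37), (nat_lit 1), (34, 45, 36), [934, 197], 56⟩,
  ⟨⟨-25, 12, -36, -22, 35, 36, 20, 28, -37⟩, (.cons (nat_lit 1079) (nat_lit 710) (nat_lit 405) (nat_lit 1)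
 (.cons (nat_lit 282) (nat_lit 2117) (nat_lit 1082) (nat_lit 1) .nil)), (nat_lit 48), (nat_lit 59), (nat_lit
 47), (nat_lit 1), (2, 45, 36), [699, 1834], 9⟩,
  ⟨⟨45, 16, -1, 22, -35, -36, 20, 28, -37⟩, (.cons (nat_lit 217) (nat_lit 236) (nat_lit 197) (nat_lit 1) (.cons
 (nat_lit 1786) (nat_lit 2312) (nat_lit 1761) (nat_lit 1) .nil)), (nat_lit 39), (nat_lit 25), (nat_lit 67),
 (nat_lit 1), (34, 2, 36), [114, 2684], 1⟩,
  ⟨⟨45, 16, -1, 22, -35, -36, 20, 28, -37⟩, (.cons (nat_lit 217) (nat_lit 236) (nat_lit 197) (nat_lit 1) (.cons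
 (nat_lit 1786) (nat_lit 2312) (nat_lit 1761) (nat_lit 1) .nil)), (nat_lit 39), (nat_lit 25), (nat_lit 67),
 (nat_lit 1), (34, 2, 36), [114, 2684], 1⟩,
  ⟨⟨-25, 12, -36, -22, 35, 36, 20, 28, -37⟩, (.cons (nat_lit 1079) (nat_lit 710) (nat_lit 405) (nat_lit 1)
 (.cons (nat_lit 282) (nat_lit 2117) (nat_lit 1082) (nat_lit 1) .nil)), (nat_lit 48), (nat_lit 59), (nat_lit
 47), (nat_lit 1), (2, 45, 36), [699, 1834], 9⟩,
  ⟨⟨-25, 12, -36, 22, -35, -36, 20, 28, -37⟩, (.cons (nat_lit 206) (nat_lit 375) (nat_lit 1748) (nat_lit 1)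
 (.cons (nat_lit 450) (nat_lit 2105) (nat_lit 2243) (nat_lit 1) .nil)), (nat_lit 19), (nat_lit 60), (nat_lit
 46), (nat_lit 1), (2, 2, 36), [1430, 1527], 33⟩,
  ⟨⟨45, 16, -1, -22, 35, 36, 20, 28, -37⟩, (.cons (nat_lit 472) (nat_lit 2204) (nat_lit 1486) (nat_lit 1)
 (.cons (nat_lit 1151) (nat_lit 632) (nat_lit 2143) (nat_lit 1) .nil)), (nat_lit 54), (nat_lit 66), (nat_lit
 37), (nat_lit 1), (34, 45, 36), [934, 197], 56⟩,
  ⟨⟨45, 16, -1, 22, -35, -36, 20, 28, -37⟩, (.cons (nat_lit 217) (nat_lit 236) (nat_lit 197) (nat_lit 1) (.cons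
 (nat_lit 1786) (nat_lit 2312) (nat_lit 1761) (nat_lit 1) .nil)), (nat_lit 39), (nat_lit 25), (nat_lit 67),
 (nat_lit 1), (34, 2, 36), [114, 2684], 1⟩,
  ⟨⟨45, 16, -1, 22, -35, -36, 20, 28, -37⟩, (.cons (nat_lit 217) (nat_lit 236) (nat_lit 197) (nat_lit 1) (.cons
 (nat_lit 1786) (nat_lit 2312) (nat_lit 1761) (nat_lit 1) .nil)), (nat_lit 39), (nat_lit 25), (nat_lit 67),
 (nat_lit 1), (34, 2, 36), [114, 2684], 1⟩,
  ⟨⟨-25, 12, -36, 22, -35, -36, 20, 28, -37⟩, (.cons (nat_lit 206) (nat_lit 375) (nat_lit 1748) (nat_lit 1)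
 (.cons (nat_lit 450) (nat_lit 2105) (nat_lit 2243) (nat_lit 1) .nil)), (nat_lit 19), (nat_lit 60), (nat_lit
 46), (nat_lit 1), (2, 2, 36), [1430, 1527], 33⟩,
  ⟨⟨-25, 12, -36, 22, -35, -36, 20, 28, -37⟩, (.cons (nat_lit 206) (nat_lit 375) (nat_lit 1748) (nat_lit 1)
 (.cons (nat_lit 450) (nat_lit 2105) (nat_lit 2243) (nat_lit 1) .nil)), (nat_lit 19), (nat_lit 60), (nat_lit
 46), (nat_lit 1), (2, 2, 36), [1430, 1527], 33⟩,
  ⟨⟨45, 16, -1, 22, -35, -36, 20, 28, -37⟩, (.cons (nat_lit 217) (nat_lit 236) (nat_lit 197) (nat_lit 1) (.cons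
 (nat_lit 1786) (nat_lit 2312) (nat_lit 1761) (nat_lit 1) .nil)), (nat_lit 39), (nat_lit 25), (nat_lit 67),
 (nat_lit 1), (34, 2, 36), [114, 2684], 1⟩,
  ⟨⟨-25, 12, -36, 22, -35, -36, 20, 28, -37⟩, (.cons (nat_lit 206) (nat_lit 375) (nat_lit 1748) (nat_lit 1)
 (.cons (nat_lit 450) (nat_lit 2105) (nat_lit 2243) (nat_lit 1) .nil)), (nat_lit 19), (nat_lit 60), (nat_lit
 46), (nat_lit 1), (2, 2, 36), [1430, 1527], 33⟩,
  ⟨⟨45, 16, -1, 22, -35, -36, 20, 28, -37⟩, (.cons (nat_lit 217) (nat_lit 236) (nat_lit 197) (nat_lit 1) (.cons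
 (nat_lit 1786) (nat_lit 2312) (nat_lit 1761) (nat_lit 1) .nil)), (nat_lit 39), (nat_lit 25), (nat_lit 67),
 (nat_lit 1), (34, 2, 36), [114, 2684], 1⟩,
  ⟨⟨45, 16, -1, -22, 35, 36, 20, 28, -37⟩, (.cons (nat_lit 472) (nat_lit 2204) (nat_lit 1486) (nat_lit 1)
 (.cons (nat_lit 1151) (nat_lit 632) (nat_lit 2143) (nat_lit 1) .nil)), (nat_lit 54), (nat_lit 66), (nat_lit
 37), (nat_lit 1), (34, 45, 36), [934, 197], 56⟩,
  ⟨⟨-25, 12, -36, -22, 35, 36, 20, 28, -37⟩, (.cons (nat_lit 1079) (nat_lit 710) (nat_lit 405) (nat_lit 1)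
 (.cons (nat_lit 282) (nat_lit 2117) (nat_lit 1082) (nat_lit 1) .nil)), (nat_lit 48), (nat_lit 59), (nat_lit
 47), (nat_lit 1), (2, 45, 36), [699, 1834], 9⟩,
  ⟨⟨45, 16, -1, 22, -35, -36, 20, 28, -37⟩, (.cons (nat_lit 217) (nat_lit 236) (nat_lit 197) (nat_lit 1) (.cons
 (nat_lit 1786) (nat_lit 2312) (nat_lit 1761) (nat_lit 1) .nil)), (nat_lit 39), (nat_lit 25), (nat_lit 67),
 (nat_lit 1), (34, 2, 36), [114, 2684], 1⟩,
  ⟨⟨45, 16, -1, 22, -35, -36, 20, 28, -37⟩, (.cons (nat_lit 217) (nat_lit 236) (nat_lit 197) (nat_lit 1) (.cons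
 (nat_lit 1786) (nat_lit 2312) (nat_lit 1761) (nat_lit 1) .nil)), (nat_lit 39), (nat_lit 25), (nat_lit 67),
 (nat_lit 1), (34, 2, 36), [114, 2684], 1⟩,
  ⟨⟨45, 16, -1, 22, -35, -36, 20, 28, -37⟩, (.cons (nat_lit 217) (nat_lit 236) (nat_lit 197) (nat_lit 1) (.cons
 (nat_lit 1786) (nat_lit 2312) (nat_lit 1761) (nat_lit 1) .nil)), (nat_lit 39), (nat_lit 25), (nat_lit 67),
 (nat_lit 1), (34, 2, 36), [114, 2684], 1⟩,
  ⟨⟨45, 16, -1, 22, -35, -36, 20, 28, -37⟩, (.cons (nat_lit 217) (nat_lit 236) (nat_lit 197) (nat_lit 1) (.cons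
 (nat_lit 1786) (nat_lit 2312) (nat_lit 1761) (nat_lit 1) .nil)), (nat_lit 39), (nat_lit 25), (nat_lit 67),
 (nat_lit 1), (34, 2, 36), [114, 2684], 1⟩,
  ⟨⟨-25, 12, -36, 22, -35, -36, 20, 28, -37⟩, (.cons (nat_lit 206) (nat_lit 375) (nat_lit 1748) (nat_lit 1)
 (.cons (nat_lit 450) (nat_lit 2105) (nat_lit 2243) (nat_lit 1) .nil)), (nat_lit 19), (nat_lit 60), (nat_lit
 46), (nat_lit 1), (2, 2, 36), [1430, 1527], 33⟩,
  ⟨⟨45, 16, -1, 22, -35, -36, 20, 28, -37⟩, (.cons (nat_lit 217) (nat_lit 236) (nat_lit 197) (nat_lit 1) (.cons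
 (nat_lit 1786) (nat_lit 2312) (nat_lit 1761) (nat_lit 1) .nil)), (nat_lit 39), (nat_lit 25), (nat_lit 67),
 (nat_lit 1), (34, 2, 36), [114, 2684], 1⟩,
  ⟨⟨45, 16, -1, -22, 35, 36, 20, 28, -37⟩, (.cons (nat_lit 472) (nat_lit 2204) (nat_lit 1486) (nat_lit 1)
 (.cons (nat_lit 1151) (nat_lit 632) (nat_lit 2143) (nat_lit 1) .nil)), (nat_lit 54), (nat_lit 66), (nat_lit
 37), (nat_lit 1), (34, 45, 36), [934, 197], 56⟩,
  ⟨⟨45, 16, -1, 22, -35, -36, 20, 28, -37⟩, (.cons (nat_lit 217) (nat_lit 236) (nat_lit 197) (nat_lit 1) (.cons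
 (nat_lit 1786) (nat_lit 2312) (nat_lit 1761) (nat_lit 1) .nil)), (nat_lit 39), (nat_lit 25), (nat_lit 67),
 (nat_lit 1), (34, 2, 36), [114, 2684], 1⟩,
  ⟨⟨45, 16, -1, 22, -35, -36, 20, 28, -37⟩, (.cons (nat_lit 217) (nat_lit 236) (nat_lit 197) (nat_lit 1) (.cons
 (nat_lit 1786) (nat_lit 2312) (nat_lit 1761) (nat_lit 1) .nil)), (nat_lit 39), (nat_lit 25), (nat_lit 67),
 (nat_lit 1), (34, 2, 36), [114, 2684], 1⟩,
  ⟨⟨45, 16, -1, 22, -35, -36, 20, 28, -37⟩, (.cons (nat_lit 217) (nat_lit 236) (nat_lit 197) (nat_lit 1) (.cons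
 (nat_lit 1786) (nat_lit 2312) (nat_lit 1761) (nat_lit 1) .nil)), (nat_lit 39), (nat_lit 25), (nat_lit 67),
 (nat_lit 1), (34, 2, 36), [114, 2684], 1⟩,
  ⟨⟨-25, 12, -36, -22, 35, 36, 20, 28, -37⟩, (.cons (nat_lit 1079) (nat_lit 710) (nat_lit 405) (nat_lit 1)
 (.cons (nat_lit 282) (nat_lit 2117) (nat_lit 1082) (nat_lit 1) .nil)), (nat_lit 48), (nat_lit 59), (nat_lit
 47), (nat_lit 1), (2, 45, 36), [699, 1834], 9⟩,
  ⟨⟨-25, 12, -36, 22, -35, -36, 20, 28, -37⟩, (.cons (nat_lit 206) (nat_lit 375) (nat_lit 1748) (nat_lit 1)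
 (.cons (nat_lit 450) (nat_lit 2105) (nat_lit 2243) (nat_lit 1) .nil)), (nat_lit 19), (nat_lit 60), (nat_lit
 46), (nat_lit 1), (2, 2, 36), [1430, 1527], 33⟩,
  ⟨⟨45, 16, -1, 22, -35, -36, 20, 28, -37⟩, (.cons (nat_lit 217) (nat_lit 236) (nat_lit 197) (nat_lit 1) (.cons
 (nat_lit 1786) (nat_lit 2312) (nat_lit 1761) (nat_lit 1) .nil)), (nat_lit 39), (nat_lit 25), (nat_lit 67),
 (nat_lit 1), (34, 2, 36), [114, 2684], 1⟩,
  ⟨⟨45, 16, -1, 22, -35, -36, 20, 28, -37⟩, (.cons (nat_lit 217) (nat_lit 236) (nat_lit 197) (nat_lit 1) (.cons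
 (nat_lit 1786) (nat_lit 2312) (nat_lit 1761) (nat_lit 1) .nil)), (nat_lit 39), (nat_lit 25), (nat_lit 67),
 (nat_lit 1), (34, 2, 36), [114, 2684], 1⟩,
  ⟨⟨-25, 12, -36, -22, 35, 36, 20, 28, -37⟩, (.cons (nat_lit 1079) (nat_lit 710) (nat_lit 405) (nat_lit 1)
 (.cons (nat_lit 282) (nat_lit 2117) (nat_lit 1082) (nat_lit 1) .nil)), (nat_lit 48), (nat_lit 59), (nat_lit
 47), (nat_lit 1), (2, 45, 36), [699, 1834], 9⟩,
  ⟨⟨45, 16, -1, 22, -35, -36, 20, 28, -37⟩, (.cons (nat_lit 217) (nat_lit 236) (nat_lit 197) (nat_lit 1) (.cons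
 (nat_lit 1786) (nat_lit 2312) (nat_lit 1761) (nat_lit 1) .nil)), (nat_lit 39), (nat_lit 25), (nat_lit 67),
 (nat_lit 1), (34, 2, 36), [114, 2684], 1⟩,
  ⟨⟨45, 16, -1, 22, -35, -36, 20, 28, -37⟩, (.cons (nat_lit 217) (nat_lit 236) (nat_lit 197) (nat_lit 1) (.cons
 (nat_lit 1786) (nat_lit 2312) (nat_lit 1761) (nat_lit 1) .nil)), (nat_lit 39), (nat_lit 25), (nat_lit 67),
 (nat_lit 1), (34, 2, 36), [114, 2684], 1⟩,
  ⟨⟨45, 16, -1, 22, -35, -36, 20, 28, -37⟩, (.cons (nat_lit 217) (nat_lit 236) (nat_lit 197) (nat_lit 1) (.cons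
 (nat_lit 1786) (nat_lit 2312) (nat_lit 1761) (nat_lit 1) .nil)), (nat_lit 39), (nat_lit 25), (nat_lit 67),
 (nat_lit 1), (34, 2, 36), [114, 2684], 1⟩,
  ⟨⟨45, 16, -1, 22, -35, -36, 20, 28, -37⟩, (.cons (nat_lit 217) (nat_lit 236) (nat_lit 197) (nat_lit 1) (.cons
 (nat_lit 1786) (nat_lit 2312) (nat_lit 1761) (nat_lit 1) .nil)), (nat_lit 39), (nat_lit 25), (nat_lit 67),
 (nat_lit 1), (34, 2, 36), [114, 2684], 1⟩,
  ⟨⟨-25, 12, -36, -22, 35, 36, 20, 28, -37⟩, (.cons (nat_lit 1079) (nat_lit 710) (nat_lit 405) (nat_lit 1)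
 (.cons (nat_lit 282) (nat_lit 2117) (nat_lit 1082) (nat_lit 1) .nil)), (nat_lit 48), (nat_lit 59), (nat_lit
 47), (nat_lit 1), (2, 45, 36), [699, 1834], 9⟩,
  ⟨⟨45, 16, -1, -22, 35, 36, 20, 28, -37⟩, (.cons (nat_lit 472) (nat_lit 2204) (nat_lit 1486) (nat_lit 1)
 (.cons (nat_lit 1151) (nat_lit 632) (nat_lit 2143) (nat_lit 1) .nil)), (nat_lit 54), (nat_lit 66), (nat_lit
 37), (nat_lit 1), (34, 45, 36), [934, 197], 56⟩,
  ⟨⟨-25, 12, -36, 22, -35, -36, 20, 28, -37⟩, (.cons (nat_lit 206) (nat_lit 375) (nat_lit 1748) (nat_lit 1)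
 (.cons (nat_lit 450) (nat_lit 2105) (nat_lit 2243) (nat_lit 1) .nil)), (nat_lit 19), (nat_lit 60), (nat_lit
 46), (nat_lit 1), (2, 2, 36), [1430, 1527], 33⟩,
  ⟨⟨45, 16, -1, 22, -35, -36, 20, 28, -37⟩, (.cons (nat_lit 217) (nat_lit 236) (nat_lit 197) (nat_lit 1) (.cons
 (nat_lit 1786) (nat_lit 2312) (nat_lit 1761) (nat_lit 1) .nil)), (nat_lit 39), (nat_lit 25), (nat_lit 67),
 (nat_lit 1), (34, 2, 36), [114, 2684], 1⟩,
  ⟨⟨-25, 12, -36, -22, 35, 36, 20, 28, -37⟩, (.cons (nat_lit 1079) (nat_lit 710) (nat_lit 405) (nat_lit 1)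
 (.cons (nat_lit 282) (nat_lit 2117) (nat_lit 1082) (nat_lit 1) .nil)), (nat_lit 48), (nat_lit 59), (nat_lit
 47), (nat_lit 1), (2, 45, 36), [699, 1834], 9⟩,
  ⟨⟨45, 16, -1, -22, 35, 36, 20, 28, -37⟩, (.cons (nat_lit 472) (nat_lit 2204) (nat_lit 1486) (nat_lit 1)
 (.cons (nat_lit 1151) (nat_lit 632) (nat_lit 2143) (nat_lit 1) .nil)), (nat_lit 54), (nat_lit 66), (nat_lit
 37), (nat_lit 1), (34, 45, 36), [934, 197], 56⟩,
  ⟨⟨45, 16, -1, -22, 35, 36, 20, 28, -37⟩, (.cons (nat_lit 472) (nat_lit 2204) (nat_lit 1486) (nat_lit 1)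
 (.cons (nat_lit 1151) (nat_lit 632) (nat_lit 2143) (nat_lit 1) .nil)), (nat_lit 54), (nat_lit 66), (nat_lit
 37), (nat_lit 1), (34, 45, 36), [934, 197], 56⟩]

/-- Moves. -/
noncomputable def t0_2 : List Mv := [
  ⟨⟨21, -32, -49, 2, 35, -36, -28, -20, -13⟩, (.cons (nat_lit 578) (nat_lit 370) (nat_lit 1159) (nat_lit 1)
 (.cons (nat_lit 674) (nat_lit 1959) (nat_lit 2802) (nat_lit 1) .nil)), (nat_lit 54), (nat_lit 24), (nat_lit
 13), (nat_lit 1), (33, 30, 3), [1915, 780], 56⟩,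
  ⟨⟨21, -32, -49, 2, 35, -36, -28, -20, -13⟩, (.cons (nat_lit 578) (nat_lit 370) (nat_lit 1159) (nat_lit 1)
 (.cons (nat_lit 674) (nat_lit 1959) (nat_lit 2802) (nat_lit 1) .nil)), (nat_lit 54), (nat_lit 24), (nat_lit
 13), (nat_lit 1), (33, 30, 3), [1915, 780], 56⟩,
  ⟨⟨21, -32, -49, 2, 35, -36, -28, -20, -13⟩, (.cons (nat_lit 578) (nat_lit 370) (nat_lit 1159) (nat_lit 1)
 (.cons (nat_lit 674) (nat_lit 1959) (nat_lit 2802) (nat_lit 1) .nil)), (nat_lit 54), (nat_lit 24), (nat_lit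
 13), (nat_lit 1), (33, 30, 3), [1915, 780], 56⟩,
  ⟨⟨21, -32, -49, 2, 35, -36, -28, -20, -13⟩, (.cons (nat_lit 578) (nat_lit 370) (nat_lit 1159) (nat_lit 1)
 (.cons (nat_lit 674) (nat_lit 1959) (nat_lit 2802) (nat_lit 1) .nil)), (nat_lit 54), (nat_lit 24), (nat_lit
 13), (nat_lit 1), (33, 30, 3), [1915, 780], 56⟩,
  ⟨⟨-49, 12, 36, 2, 35, -36, -28, -20, -13⟩, (.cons (nat_lit 1161) (nat_lit 194) (nat_lit 1206) (nat_lit 1)
 (.cons (nat_lit 1334) (nat_lit 973) (nat_lit 1447) (nat_lit 1) .nil)), (nat_lit 61), (nat_lit 19), (nat_lit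
 30), (nat_lit 1), (17, 30, 3), [1351, 2565], 4⟩,
  ⟨⟨-49, 12, 36, 2, 35, -36, -28, -20, -13⟩, (.cons (nat_lit 1161) (nat_lit 194) (nat_lit 1206) (nat_lit 1)
 (.cons (nat_lit 1334) (nat_lit 973) (nat_lit 1447) (nat_lit 1) .nil)), (nat_lit 61), (nat_lit 19), (nat_lit
 30), (nat_lit 1), (17, 30, 3), [1351, 2565], 4⟩,
  ⟨⟨-49, 12, 36, -2, -35, 36, -28, -20, -13⟩, (.cons (nat_lit 1674) (nat_lit 1981) (nat_lit 1580) (nat_lit 1)
 (.cons (nat_lit 1005) (nat_lit 2461) (nat_lit 1412) (nat_lit 1) .nil)), (nat_lit 15), (nat_lit 23), (nat_lit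
 20), (nat_lit 1), (17, 17, 3), [362, 1444], 41⟩,
  ⟨⟨-49, 12, 36, -2, -35, 36, -28, -20, -13⟩, (.cons (nat_lit 1674) (nat_lit 1981) (nat_lit 1580) (nat_lit 1)
 (.cons (nat_lit 1005) (nat_lit 2461) (nat_lit 1412) (nat_lit 1) .nil)), (nat_lit 15), (nat_lit 23), (nat_lit
 20), (nat_lit 1), (17, 17, 3), [362, 1444], 41⟩,
  ⟨⟨21, -32, -49, -2, -35, 36, -28, -20, -13⟩, (.cons (nat_lit 159) (nat_lit 1027) (nat_lit 2003) (nat_lit 1)
 (.cons (nat_lit 2416) (nat_lit 310) (nat_lit 126) (nat_lit 1) .nil)), (nat_lit 42), (nat_lit 44), (nat_lit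
 63), (nat_lit 1), (33, 17, 3), [1866, 2458], 58⟩,
  ⟨⟨21, -32, -49, 2, 35, -36, -28, -20, -13⟩, (.cons (nat_lit 578) (nat_lit 370) (nat_lit 1159) (nat_lit 1)
 (.cons (nat_lit 674) (nat_lit 1959) (nat_lit 2802) (nat_lit 1) .nil)), (nat_lit 54), (nat_lit 24), (nat_lit
 13), (nat_lit 1), (33, 30, 3), [1915, 780], 56⟩,
  ⟨⟨21, -32, -49, 2, 35, -36, -28, -20, -13⟩, (.cons (nat_lit 578) (nat_lit 370) (nat_lit 1159) (nat_lit 1)
 (.cons (nat_lit 674) (nat_lit 1959) (nat_lit 2802) (nat_lit 1) .nil)), (nat_lit 54), (nat_lit 24), (nat_lit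
 13), (nat_lit 1), (33, 30, 3), [1915, 780], 56⟩,
  ⟨⟨21, -32, -49, 2, 35, -36, -28, -20, -13⟩, (.cons (nat_lit 578) (nat_lit 370) (nat_lit 1159) (nat_lit 1)
 (.cons (nat_lit 674) (nat_lit 1959) (nat_lit 2802) (nat_lit 1) .nil)), (nat_lit 54), (nat_lit 24), (nat_lit
 13), (nat_lit 1), (33, 30, 3), [1915, 780], 56⟩,
  ⟨⟨21, -32, -49, 2, 35, -36, -28, -20, -13⟩, (.cons (nat_lit 578) (nat_lit 370) (nat_lit 1159) (nat_lit 1)
 (.cons (nat_lit 674) (nat_lit 1959) (nat_lit 2802) (nat_lit 1) .nil)), (nat_lit 54), (nat_lit 24), (nat_lit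
 13), (nat_lit 1), (33, 30, 3), [1915, 780], 56⟩,
  ⟨⟨21, -32, -49, 2, 35, -36, -28, -20, -13⟩, (.cons (nat_lit 578) (nat_lit 370) (nat_lit 1159) (nat_lit 1)
 (.cons (nat_lit 674) (nat_lit 1959) (nat_lit 2802) (nat_lit 1) .nil)), (nat_lit 54), (nat_lit 24), (nat_lit
 13), (nat_lit 1), (33, 30, 3), [1915, 780], 56⟩,
  ⟨⟨21, -32, -49, 2, 35, -36, -28, -20, -13⟩, (.cons (nat_lit 578) (nat_lit 370) (nat_lit 1159) (nat_lit 1)
 (.cons (nat_lit 674) (nat_lit 1959) (nat_lit 2802) (nat_lit 1) .nil)), (nat_lit 54), (nat_lit 24), (nat_lit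
 13), (nat_lit 1), (33, 30, 3), [1915, 780], 56⟩,
  ⟨⟨21, -32, -49, 2, 35, -36, -28, -20, -13⟩, (.cons (nat_lit 578) (nat_lit 370) (nat_lit 1159) (nat_lit 1)
 (.cons (nat_lit 674) (nat_lit 1959) (nat_lit 2802) (nat_lit 1) .nil)), (nat_lit 54), (nat_lit 24), (nat_lit
 13), (nat_lit 1), (33, 30, 3), [1915, 780], 56⟩,
  ⟨⟨21, -32, -49, -2, -35, 36, -28, -20, -13⟩, (.cons (nat_lit 159) (nat_lit 1027) (nat_lit 2003) (nat_lit 1)
 (.cons (nat_lit 2416) (nat_lit 310) (nat_lit 126) (nat_lit 1) .nil)), (nat_lit 42), (nat_lit 44), (nat_lit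
 63), (nat_lit 1), (33, 17, 3), [1866, 2458], 58⟩,
  ⟨⟨21, -32, -49, 2, 35, -36, -28, -20, -13⟩, (.cons (nat_lit 578) (nat_lit 370) (nat_lit 1159) (nat_lit 1)
 (.cons (nat_lit 674) (nat_lit 1959) (nat_lit 2802) (nat_lit 1) .nil)), (nat_lit 54), (nat_lit 24), (nat_lit
 13), (nat_lit 1), (33, 30, 3), [1915, 780], 56⟩,
  ⟨⟨-49, 12, 36, -2, -35, 36, -28, -20, -13⟩, (.cons (nat_lit 1674) (nat_lit 1981) (nat_lit 1580) (nat_lit 1)
 (.cons (nat_lit 1005) (nat_lit 2461) (nat_lit 1412) (nat_lit 1) .nil)), (nat_lit 15), (nat_lit 23), (nat_lit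
 20), (nat_lit 1), (17, 17, 3), [362, 1444], 41⟩,
  ⟨⟨21, -32, -49, 2, 35, -36, -28, -20, -13⟩, (.cons (nat_lit 578) (nat_lit 370) (nat_lit 1159) (nat_lit 1)
 (.cons (nat_lit 674) (nat_lit 1959) (nat_lit 2802) (nat_lit 1) .nil)), (nat_lit 54), (nat_lit 24), (nat_lit
 13), (nat_lit 1), (33, 30, 3), [1915, 780], 56⟩,
  ⟨⟨21, -32, -49, 2, 35, -36, -28, -20, -13⟩, (.cons (nat_lit 578) (nat_lit 370) (nat_lit 1159) (nat_lit 1)
 (.cons (nat_lit 674) (nat_lit 1959) (nat_lit 2802) (nat_lit 1) .nil)), (nat_lit 54), (nat_lit 24), (nat_lit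
 13), (nat_lit 1), (33, 30, 3), [1915, 780], 56⟩,
  ⟨⟨-49, 12, 36, 2, 35, -36, -28, -20, -13⟩, (.cons (nat_lit 1161) (nat_lit 194) (nat_lit 1206) (nat_lit 1)
 (.cons (nat_lit 1334) (nat_lit 973) (nat_lit 1447) (nat_lit 1) .nil)), (nat_lit 61), (nat_lit 19), (nat_lit
 30), (nat_lit 1), (17, 30, 3), [1351, 2565], 4⟩,
  ⟨⟨-49, 12, 36, 2, 35, -36, -28, -20, -13⟩, (.cons (nat_lit 1161) (nat_lit 194) (nat_lit 1206) (nat_lit 1)
 (.cons (nat_lit 1334) (nat_lit 973) (nat_lit 1447) (nat_lit 1) .nil)), (nat_lit 61), (nat_lit 19), (nat_lit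
 30), (nat_lit 1), (17, 30, 3), [1351, 2565], 4⟩,
  ⟨⟨21, -32, -49, 2, 35, -36, -28, -20, -13⟩, (.cons (nat_lit 578) (nat_lit 370) (nat_lit 1159) (nat_lit 1)
 (.cons (nat_lit 674) (nat_lit 1959) (nat_lit 2802) (nat_lit 1) .nil)), (nat_lit 54), (nat_lit 24), (nat_lit
 13), (nat_lit 1), (33, 30, 3), [1915, 780], 56⟩,
  ⟨⟨-49, 12, 36, -2, -35, 36, -28, -20, -13⟩, (.cons (nat_lit 1674) (nat_lit 1981) (nat_lit 1580) (nat_lit 1)
 (.cons (nat_lit 1005) (nat_lit 2461) (nat_lit 1412) (nat_lit 1) .nil)), (nat_lit 15), (nat_lit 23), (nat_lit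
 20), (nat_lit 1), (17, 17, 3), [362, 1444], 41⟩,
  ⟨⟨21, -32, -49, 2, 35, -36, -28, -20, -13⟩, (.cons (nat_lit 578) (nat_lit 370) (nat_lit 1159) (nat_lit 1)
 (.cons (nat_lit 674) (nat_lit 1959) (nat_lit 2802) (nat_lit 1) .nil)), (nat_lit 54), (nat_lit 24), (nat_lit
 13), (nat_lit 1), (33, 30, 3), [1915, 780], 56⟩,
  ⟨⟨-49, 12, 36, -2, -35, 36, -28, -20, -13⟩, (.cons (nat_lit 1674) (nat_lit 1981) (nat_lit 1580) (nat_lit 1)
 (.cons (nat_lit 1005) (nat_lit 2461) (nat_lit 1412) (nat_lit 1) .nil)), (nat_lit 15), (nat_lit 23), (nat_lit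
 20), (nat_lit 1), (17, 17, 3), [362, 1444], 41⟩,
  ⟨⟨21, -32, -49, 2, 35, -36, -28, -20, -13⟩, (.cons (nat_lit 578) (nat_lit 370) (nat_lit 1159) (nat_lit 1)
 (.cons (nat_lit 674) (nat_lit 1959) (nat_lit 2802) (nat_lit 1) .nil)), (nat_lit 54), (nat_lit 24), (nat_lit
 13), (nat_lit 1), (33, 30, 3), [1915, 780], 56⟩,
  ⟨⟨21, -32, -49, -2, -35, 36, -28, -20, -13⟩, (.cons (nat_lit 159) (nat_lit 1027) (nat_lit 2003) (nat_lit 1)
 (.cons (nat_lit 2416) (nat_lit 310) (nat_lit 126) (nat_lit 1) .nil)), (nat_lit 42), (nat_lit 44), (nat_lit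
 63), (nat_lit 1), (33, 17, 3), [1866, 2458], 58⟩,
  ⟨⟨21, -32, -49, 2, 35, -36, -28, -20, -13⟩, (.cons (nat_lit 578) (nat_lit 370) (nat_lit 1159) (nat_lit 1)
 (.cons (nat_lit 674) (nat_lit 1959) (nat_lit 2802) (nat_lit 1) .nil)), (nat_lit 54), (nat_lit 24), (nat_lit
 13), (nat_lit 1), (33, 30, 3), [1915, 780], 56⟩,
  ⟨⟨21, -32, -49, 2, 35, -36, -28, -20, -13⟩, (.cons (nat_lit 578) (nat_lit 370) (nat_lit 1159) (nat_lit 1)
 (.cons (nat_lit 674) (nat_lit 1959) (nat_lit 2802) (nat_lit 1) .nil)), (nat_lit 54), (nat_lit 24), (nat_lit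
 13), (nat_lit 1), (33, 30, 3), [1915, 780], 56⟩,
  ⟨⟨-49, 12, 36, 2, 35, -36, -28, -20, -13⟩, (.cons (nat_lit 1161) (nat_lit 194) (nat_lit 1206) (nat_lit 1)
 (.cons (nat_lit 1334) (nat_lit 973) (nat_lit 1447) (nat_lit 1) .nil)), (nat_lit 61), (nat_lit 19), (nat_lit
 30), (nat_lit 1), (17, 30, 3), [1351, 2565], 4⟩,
  ⟨⟨-49, 12, 36, -2, -35, 36, -28, -20, -13⟩, (.cons (nat_lit 1674) (nat_lit 1981) (nat_lit 1580) (nat_lit 1)
 (.cons (nat_lit 1005) (nat_lit 2461) (nat_lit 1412) (nat_lit 1) .nil)), (nat_lit 15), (nat_lit 23), (nat_lit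
 20), (nat_lit 1), (17, 17, 3), [362, 1444], 41⟩,
  ⟨⟨21, -32, -49, 2, 35, -36, -28, -20, -13⟩, (.cons (nat_lit 578) (nat_lit 370) (nat_lit 1159) (nat_lit 1)
 (.cons (nat_lit 674) (nat_lit 1959) (nat_lit 2802) (nat_lit 1) .nil)), (nat_lit 54), (nat_lit 24), (nat_lit
 13), (nat_lit 1), (33, 30, 3), [1915, 780], 56⟩,
  ⟨⟨21, -32, -49, 2, 35, -36, -28, -20, -13⟩, (.cons (nat_lit 578) (nat_lit 370) (nat_lit 1159) (nat_lit 1)
 (.cons (nat_lit 674) (nat_lit 1959) (nat_lit 2802) (nat_lit 1) .nil)), (nat_lit 54), (nat_lit 24), (nat_lit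
 13), (nat_lit 1), (33, 30, 3), [1915, 780], 56⟩,
  ⟨⟨21, -32, -49, -2, -35, 36, -28, -20, -13⟩, (.cons (nat_lit 159) (nat_lit 1027) (nat_lit 2003) (nat_lit 1)
 (.cons (nat_lit 2416) (nat_lit 310) (nat_lit 126) (nat_lit 1) .nil)), (nat_lit 42), (nat_lit 44), (nat_lit
 63), (nat_lit 1), (33, 17, 3), [1866, 2458], 58⟩,
  ⟨⟨21, -32, -49, 2, 35, -36, -28, -20, -13⟩, (.cons (nat_lit 578) (nat_lit 370) (nat_lit 1159) (nat_lit 1)
 (.cons (nat_lit 674) (nat_lit 1959) (nat_lit 2802) (nat_lit 1) .nil)), (nat_lit 54), (nat_lit 24), (nat_lit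
 13), (nat_lit 1), (33, 30, 3), [1915, 780], 56⟩,
  ⟨⟨-49, 12, 36, 2, 35, -36, -28, -20, -13⟩, (.cons (nat_lit 1161) (nat_lit 194) (nat_lit 1206) (nat_lit 1)
 (.cons (nat_lit 1334) (nat_lit 973) (nat_lit 1447) (nat_lit 1) .nil)), (nat_lit 61), (nat_lit 19), (nat_lit
 30), (nat_lit 1), (17, 30, 3), [1351, 2565], 4⟩,
  ⟨⟨21, -32, -49, -2, -35, 36, -28, -20, -13⟩, (.cons (nat_lit 159) (nat_lit 1027) (nat_lit 2003) (nat_lit 1)
 (.cons (nat_lit 2416) (nat_lit 310) (nat_lit 126) (nat_lit 1) .nil)), (nat_lit 42), (nat_lit 44), (nat_lit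
 63), (nat_lit 1), (33, 17, 3), [1866, 2458], 58⟩,
  ⟨⟨21, -32, -49, 2, 35, -36, -28, -20, -13⟩, (.cons (nat_lit 578) (nat_lit 370) (nat_lit 1159) (nat_lit 1)
 (.cons (nat_lit 674) (nat_lit 1959) (nat_lit 2802) (nat_lit 1) .nil)), (nat_lit 54), (nat_lit 24), (nat_lit
 13), (nat_lit 1), (33, 30, 3), [1915, 780], 56⟩,
  ⟨⟨-49, 12, 36, 2, 35, -36, -28, -20, -13⟩, (.cons (nat_lit 1161) (nat_lit 194) (nat_lit 1206) (nat_lit 1)
 (.cons (nat_lit 1334) (nat_lit 973) (nat_lit 1447) (nat_lit 1) .nil)), (nat_lit 61), (nat_lit 19), (nat_lit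
 30), (nat_lit 1), (17, 30, 3), [1351, 2565], 4⟩,
  ⟨⟨21, -32, -49, 2, 35, -36, -28, -20, -13⟩, (.cons (nat_lit 578) (nat_lit 370) (nat_lit 1159) (nat_lit 1)
 (.cons (nat_lit 674) (nat_lit 1959) (nat_lit 2802) (nat_lit 1) .nil)), (nat_lit 54), (nat_lit 24), (nat_lit
 13), (nat_lit 1), (33, 30, 3), [1915, 780], 56⟩,
  ⟨⟨21, -32, -49, -2, -35, 36, -28, -20, -13⟩, (.cons (nat_lit 159) (nat_lit 1027) (nat_lit 2003) (nat_lit 1)
 (.cons (nat_lit 2416) (nat_lit 310) (nat_lit 126) (nat_lit 1) .nil)), (nat_lit 42), (nat_lit 44), (nat_lit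
 63), (nat_lit 1), (33, 17, 3), [1866, 2458], 58⟩,
  ⟨⟨21, -32, -49, 2, 35, -36, -28, -20, -13⟩, (.cons (nat_lit 578) (nat_lit 370) (nat_lit 1159) (nat_lit 1)
 (.cons (nat_lit 674) (nat_lit 1959) (nat_lit 2802) (nat_lit 1) .nil)), (nat_lit 54), (nat_lit 24), (nat_lit
 13), (nat_lit 1), (33, 30, 3), [1915, 780], 56⟩,
  ⟨⟨21, -32, -49, 2, 35, -36, -28, -20, -13⟩, (.cons (nat_lit 578) (nat_lit 370) (nat_lit 1159) (nat_lit 1)
 (.cons (nat_lit 674) (nat_lit 1959) (nat_lit 2802) (nat_lit 1) .nil)), (nat_lit 54), (nat_lit 24), (nat_lit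
 13), (nat_lit 1), (33, 30, 3), [1915, 780], 56⟩,
  ⟨⟨21, -32, -49, -2, -35, 36, -28, -20, -13⟩, (.cons (nat_lit 159) (nat_lit 1027) (nat_lit 2003) (nat_lit 1)
 (.cons (nat_lit 2416) (nat_lit 310) (nat_lit 126) (nat_lit 1) .nil)), (nat_lit 42), (nat_lit 44), (nat_lit
 63), (nat_lit 1), (33, 17, 3), [1866, 2458], 58⟩,
  ⟨⟨-49, 12, 36, 2, 35, -36, -28, -20, -13⟩, (.cons (nat_lit 1161) (nat_lit 194) (nat_lit 1206) (nat_lit 1)
 (.cons (nat_lit 1334) (nat_lit 973) (nat_lit 1447) (nat_lit 1) .nil)), (nat_lit 61), (nat_lit 19), (nat_lit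
 30), (nat_lit 1), (17, 30, 3), [1351, 2565], 4⟩]

/-- Moves. -/
noncomputable def t0_3 : List Mv := [
  ⟨⟨-51, 4, 19, 2, 45, 14, -12, 12, -37⟩, (.cons (nat_lit 1698) (nat_lit 1801) (nat_lit 985) (nat_lit 1) (.cons
 (nat_lit 870) (nat_lit 2027) (nat_lit 1614) (nat_lit 1) .nil)), (nat_lit 37), (nat_lit 14), (nat_lit 18),
 (nat_lit 1), (7, 20, 21), [1540, 2058], 48⟩,
  ⟨⟨39, 8, -56, -2, -45, -14, -12, 12, -37⟩, (.cons (nat_lit 1190) (nat_lit 1050) (nat_lit 1824) (nat_lit 1)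
 (.cons (nat_lit 2720) (nat_lit 184) (nat_lit 2085) (nat_lit 1) .nil)), (nat_lit 20), (nat_lit 9), (nat_lit
 28), (nat_lit 1), (14, 27, 21), [1193, 1326], 30⟩,
  ⟨⟨39, 8, -56, 2, 45, 14, -12, 12, -37⟩, (.cons (nat_lit 1122) (nat_lit 1160) (nat_lit 1126) (nat_lit 1)
 (.cons (nat_lit 2808) (nat_lit 880) (nat_lit 73) (nat_lit 1) .nil)), (nat_lit 70), (nat_lit 30), (nat_lit 35),
 (nat_lit 1), (14, 20, 21), [1728, 2461], 52⟩,
  ⟨⟨-51, 4, 19, -2, -45, -14, -12, 12, -37⟩, (.cons (nat_lit 361) (nat_lit 1112) (nat_lit 790) (nat_lit 1)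
 (.cons (nat_lit 965) (nat_lit 2738) (nat_lit 2168) (nat_lit 1) .nil)), (nat_lit 5), (nat_lit 61), (nat_lit
 26), (nat_lit 1), (7, 27, 21), [1146, 957], 41⟩,
  ⟨⟨39, 8, -56, 2, 45, 14, -12, 12, -37⟩, (.cons (nat_lit 1122) (nat_lit 1160) (nat_lit 1126) (nat_lit 1)
 (.cons (nat_lit 2808) (nat_lit 880) (nat_lit 73) (nat_lit 1) .nil)), (nat_lit 70), (nat_lit 30), (nat_lit 35),
 (nat_lit 1), (14, 20, 21), [1728, 2461], 52⟩,
  ⟨⟨-51, 4, 19, -2, -45, -14, -12, 12, -37⟩, (.cons (nat_lit 361) (nat_lit 1112) (nat_lit 790) (nat_lit 1)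
 (.cons (nat_lit 965) (nat_lit 2738) (nat_lit 2168) (nat_lit 1) .nil)), (nat_lit 5), (nat_lit 61), (nat_lit
 26), (nat_lit 1), (7, 27, 21), [1146, 957], 41⟩,
  ⟨⟨-51, 4, 19, -2, -45, -14, -12, 12, -37⟩, (.cons (nat_lit 361) (nat_lit 1112) (nat_lit 790) (nat_lit 1)
 (.cons (nat_lit 965) (nat_lit 2738) (nat_lit 2168) (nat_lit 1) .nil)), (nat_lit 5), (nat_lit 61), (nat_lit
 26), (nat_lit 1), (7, 27, 21), [1146, 957], 41⟩,
  ⟨⟨-51, 4, 19, -2, -45, -14, -12, 12, -37⟩, (.cons (nat_lit 361) (nat_lit 1112) (nat_lit 790) (nat_lit 1)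
 (.cons (nat_lit 965) (nat_lit 2738) (nat_lit 2168) (nat_lit 1) .nil)), (nat_lit 5), (nat_lit 61), (nat_lit
 26), (nat_lit 1), (7, 27, 21), [1146, 957], 41⟩,
  ⟨⟨-51, 4, 19, -2, -45, -14, -12, 12, -37⟩, (.cons (nat_lit 361) (nat_lit 1112) (nat_lit 790) (nat_lit 1)
 (.cons (nat_lit 965) (nat_lit 2738) (nat_lit 2168) (nat_lit 1) .nil)), (nat_lit 5), (nat_lit 61), (nat_lit
 26), (nat_lit 1), (7, 27, 21), [1146, 957], 41⟩,
  ⟨⟨-51, 4, 19, -2, -45, -14, -12, 12, -37⟩, (.cons (nat_lit 361) (nat_lit 1112) (nat_lit 790) (nat_lit 1)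
 (.cons (nat_lit 965) (nat_lit 2738) (nat_lit 2168) (nat_lit 1) .nil)), (nat_lit 5), (nat_lit 61), (nat_lit
 26), (nat_lit 1), (7, 27, 21), [1146, 957], 41⟩,
  ⟨⟨-51, 4, 19, 2, 45, 14, -12, 12, -37⟩, (.cons (nat_lit 1698) (nat_lit 1801) (nat_lit 985) (nat_lit 1) (.cons
 (nat_lit 870) (nat_lit 2027) (nat_lit 1614) (nat_lit 1) .nil)), (nat_lit 37), (nat_lit 14), (nat_lit 18),
 (nat_lit 1), (7, 20, 21), [1540, 2058], 48⟩,
  ⟨⟨-51, 4, 19, -2, -45, -14, -12, 12, -37⟩, (.cons (nat_lit 361) (nat_lit 1112) (nat_lit 790) (nat_lit 1)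
 (.cons (nat_lit 965) (nat_lit 2738) (nat_lit 2168) (nat_lit 1) .nil)), (nat_lit 5), (nat_lit 61), (nat_lit
 26), (nat_lit 1), (7, 27, 21), [1146, 957], 41⟩,
  ⟨⟨39, 8, -56, -2, -45, -14, -12, 12, -37⟩, (.cons (nat_lit 1190) (nat_lit 1050) (nat_lit 1824) (nat_lit 1)
 (.cons (nat_lit 2720) (nat_lit 184) (nat_lit 2085) (nat_lit 1) .nil)), (nat_lit 20), (nat_lit 9), (nat_lit
 28), (nat_lit 1), (14, 27, 21), [1193, 1326], 30⟩,
  ⟨⟨39, 8, -56, 2, 45, 14, -12, 12, -37⟩, (.cons (nat_lit 1122) (nat_lit 1160) (nat_lit 1126) (nat_lit 1)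
 (.cons (nat_lit 2808) (nat_lit 880) (nat_lit 73) (nat_lit 1) .nil)), (nat_lit 70), (nat_lit 30), (nat_lit 35),
 (nat_lit 1), (14, 20, 21), [1728, 2461], 52⟩,
  ⟨⟨-51, 4, 19, 2, 45, 14, -12, 12, -37⟩, (.cons (nat_lit 1698) (nat_lit 1801) (nat_lit 985) (nat_lit 1) (.cons
 (nat_lit 870) (nat_lit 2027) (nat_lit 1614) (nat_lit 1) .nil)), (nat_lit 37), (nat_lit 14), (nat_lit 18),
 (nat_lit 1), (7, 20, 21), [1540, 2058], 48⟩,
  ⟨⟨39, 8, -56, 2, 45, 14, -12, 12, -37⟩, (.cons (nat_lit 1122) (nat_lit 1160) (nat_lit 1126) (nat_lit 1)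
 (.cons (nat_lit 2808) (nat_lit 880) (nat_lit 73) (nat_lit 1) .nil)), (nat_lit 70), (nat_lit 30), (nat_lit 35),
 (nat_lit 1), (14, 20, 21), [1728, 2461], 52⟩,
  ⟨⟨-51, 4, 19, -2, -45, -14, -12, 12, -37⟩, (.cons (nat_lit 361) (nat_lit 1112) (nat_lit 790) (nat_lit 1)
 (.cons (nat_lit 965) (nat_lit 2738) (nat_lit 2168) (nat_lit 1) .nil)), (nat_lit 5), (nat_lit 61), (nat_lit
 26), (nat_lit 1), (7, 27, 21), [1146, 957], 41⟩,
  ⟨⟨39, 8, -56, -2, -45, -14, -12, 12, -37⟩, (.cons (nat_lit 1190) (nat_lit 1050) (nat_lit 1824) (nat_lit 1)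
 (.cons (nat_lit 2720) (nat_lit 184) (nat_lit 2085) (nat_lit 1) .nil)), (nat_lit 20), (nat_lit 9), (nat_lit
 28), (nat_lit 1), (14, 27, 21), [1193, 1326], 30⟩,
  ⟨⟨-51, 4, 19, -2, -45, -14, -12, 12, -37⟩, (.cons (nat_lit 361) (nat_lit 1112) (nat_lit 790) (nat_lit 1)
 (.cons (nat_lit 965) (nat_lit 2738) (nat_lit 2168) (nat_lit 1) .nil)), (nat_lit 5), (nat_lit 61), (nat_lit
 26), (nat_lit 1), (7, 27, 21), [1146, 957], 41⟩,
  ⟨⟨-51, 4, 19, -2, -45, -14, -12, 12, -37⟩, (.cons (nat_lit 361) (nat_lit 1112) (nat_lit 790) (nat_lit 1)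
 (.cons (nat_lit 965) (nat_lit 2738) (nat_lit 2168) (nat_lit 1) .nil)), (nat_lit 5), (nat_lit 61), (nat_lit
 26), (nat_lit 1), (7, 27, 21), [1146, 957], 41⟩,
  ⟨⟨39, 8, -56, -2, -45, -14, -12, 12, -37⟩, (.cons (nat_lit 1190) (nat_lit 1050) (nat_lit 1824) (nat_lit 1)
 (.cons (nat_lit 2720) (nat_lit 184) (nat_lit 2085) (nat_lit 1) .nil)), (nat_lit 20), (nat_lit 9), (nat_lit
 28), (nat_lit 1), (14, 27, 21), [1193, 1326], 30⟩,
  ⟨⟨-51, 4, 19, -2, -45, -14, -12, 12, -37⟩, (.cons (nat_lit 361) (nat_lit 1112) (nat_lit 790) (nat_lit 1)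
 (.cons (nat_lit 965) (nat_lit 2738) (nat_lit 2168) (nat_lit 1) .nil)), (nat_lit 5), (nat_lit 61), (nat_lit
 26), (nat_lit 1), (7, 27, 21), [1146, 957], 41⟩,
  ⟨⟨39, 8, -56, -2, -45, -14, -12, 12, -37⟩, (.cons (nat_lit 1190) (nat_lit 1050) (nat_lit 1824) (nat_lit 1)
 (.cons (nat_lit 2720) (nat_lit 184) (nat_lit 2085) (nat_lit 1) .nil)), (nat_lit 20), (nat_lit 9), (nat_lit
 28), (nat_lit 1), (14, 27, 21), [1193, 1326], 30⟩,
  ⟨⟨-51, 4, 19, -2, -45, -14, -12, 12, -37⟩, (.cons (nat_lit 361) (nat_lit 1112) (nat_lit 790) (nat_lit 1)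
 (.cons (nat_lit 965) (nat_lit 2738) (nat_lit 2168) (nat_lit 1) .nil)), (nat_lit 5), (nat_lit 61), (nat_lit
 26), (nat_lit 1), (7, 27, 21), [1146, 957], 41⟩,
  ⟨⟨-51, 4, 19, -2, -45, -14, -12, 12, -37⟩, (.cons (nat_lit 361) (nat_lit 1112) (nat_lit 790) (nat_lit 1)
 (.cons (nat_lit 965) (nat_lit 2738) (nat_lit 2168) (nat_lit 1) .nil)), (nat_lit 5), (nat_lit 61), (nat_lit
 26), (nat_lit 1), (7, 27, 21), [1146, 957], 41⟩,
  ⟨⟨39, 8, -56, 2, 45, 14, -12, 12, -37⟩, (.cons (nat_lit 1122) (nat_lit 1160) (nat_lit 1126) (nat_lit 1)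
 (.cons (nat_lit 2808) (nat_lit 880) (nat_lit 73) (nat_lit 1) .nil)), (nat_lit 70), (nat_lit 30), (nat_lit 35),
 (nat_lit 1), (14, 20, 21), [1728, 2461], 52⟩,
  ⟨⟨39, 8, -56, -2, -45, -14, -12, 12, -37⟩, (.cons (nat_lit 1190) (nat_lit 1050) (nat_lit 1824) (nat_lit 1)
 (.cons (nat_lit 2720) (nat_lit 184) (nat_lit 2085) (nat_lit 1) .nil)), (nat_lit 20), (nat_lit 9), (nat_lit
 28), (nat_lit 1), (14, 27, 21), [1193, 1326], 30⟩,
  ⟨⟨-51, 4, 19, -2, -45, -14, -12, 12, -37⟩, (.cons (nat_lit 361) (nat_lit 1112) (nat_lit 790) (nat_lit 1)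
 (.cons (nat_lit 965) (nat_lit 2738) (nat_lit 2168) (nat_lit 1) .nil)), (nat_lit 5), (nat_lit 61), (nat_lit
 26), (nat_lit 1), (7, 27, 21), [1146, 957], 41⟩,
  ⟨⟨-51, 4, 19, -2, -45, -14, -12, 12, -37⟩, (.cons (nat_lit 361) (nat_lit 1112) (nat_lit 790) (nat_lit 1)
 (.cons (nat_lit 965) (nat_lit 2738) (nat_lit 2168) (nat_lit 1) .nil)), (nat_lit 5), (nat_lit 61), (nat_lit
 26), (nat_lit 1), (7, 27, 21), [1146, 957], 41⟩,
  ⟨⟨-51, 4, 19, -2, -45, -14, -12, 12, -37⟩, (.cons (nat_lit 361) (nat_lit 1112) (nat_lit 790) (nat_lit 1)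
 (.cons (nat_lit 965) (nat_lit 2738) (nat_lit 2168) (nat_lit 1) .nil)), (nat_lit 5), (nat_lit 61), (nat_lit
 26), (nat_lit 1), (7, 27, 21), [1146, 957], 41⟩,
  ⟨⟨-51, 4, 19, 2, 45, 14, -12, 12, -37⟩, (.cons (nat_lit 1698) (nat_lit 1801) (nat_lit 985) (nat_lit 1) (.cons
 (nat_lit 870) (nat_lit 2027) (nat_lit 1614) (nat_lit 1) .nil)), (nat_lit 37), (nat_lit 14), (nat_lit 18),
 (nat_lit 1), (7, 20, 21), [1540, 2058], 48⟩,
  ⟨⟨-51, 4, 19, -2, -45, -14, -12, 12, -37⟩, (.cons (nat_lit 361) (nat_lit 1112) (nat_lit 790) (nat_lit 1)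
 (.cons (nat_lit 965) (nat_lit 2738) (nat_lit 2168) (nat_lit 1) .nil)), (nat_lit 5), (nat_lit 61), (nat_lit
 26), (nat_lit 1), (7, 27, 21), [1146, 957], 41⟩,
  ⟨⟨-51, 4, 19, -2, -45, -14, -12, 12, -37⟩, (.cons (nat_lit 361) (nat_lit 1112) (nat_lit 790) (nat_lit 1)
 (.cons (nat_lit 965) (nat_lit 2738) (nat_lit 2168) (nat_lit 1) .nil)), (nat_lit 5), (nat_lit 61), (nat_lit
 26), (nat_lit 1), (7, 27, 21), [1146, 957], 41⟩,
  ⟨⟨-51, 4, 19, -2, -45, -14, -12, 12, -37⟩, (.cons (nat_lit 361) (nat_lit 1112) (nat_lit 790) (nat_lit 1)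
 (.cons (nat_lit 965) (nat_lit 2738) (nat_lit 2168) (nat_lit 1) .nil)), (nat_lit 5), (nat_lit 61), (nat_lit
 26), (nat_lit 1), (7, 27, 21), [1146, 957], 41⟩,
  ⟨⟨39, 8, -56, -2, -45, -14, -12, 12, -37⟩, (.cons (nat_lit 1190) (nat_lit 1050) (nat_lit 1824) (nat_lit 1)
 (.cons (nat_lit 2720) (nat_lit 184) (nat_lit 2085) (nat_lit 1) .nil)), (nat_lit 20), (nat_lit 9), (nat_lit
 28), (nat_lit 1), (14, 27, 21), [1193, 1326], 30⟩,
  ⟨⟨-51, 4, 19, 2, 45, 14, -12, 12, -37⟩, (.cons (nat_lit 1698) (nat_lit 1801) (nat_lit 985) (nat_lit 1) (.cons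
 (nat_lit 870) (nat_lit 2027) (nat_lit 1614) (nat_lit 1) .nil)), (nat_lit 37), (nat_lit 14), (nat_lit 18),
 (nat_lit 1), (7, 20, 21), [1540, 2058], 48⟩,
  ⟨⟨-51, 4, 19, -2, -45, -14, -12, 12, -37⟩, (.cons (nat_lit 361) (nat_lit 1112) (nat_lit 790) (nat_lit 1)
 (.cons (nat_lit 965) (nat_lit 2738) (nat_lit 2168) (nat_lit 1) .nil)), (nat_lit 5), (nat_lit 61), (nat_lit
 26), (nat_lit 1), (7, 27, 21), [1146, 957], 41⟩,
  ⟨⟨-51, 4, 19, -2, -45, -14, -12, 12, -37⟩, (.cons (nat_lit 361) (nat_lit 1112) (nat_lit 790) (nat_lit 1)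
 (.cons (nat_lit 965) (nat_lit 2738) (nat_lit 2168) (nat_lit 1) .nil)), (nat_lit 5), (nat_lit 61), (nat_lit
 26), (nat_lit 1), (7, 27, 21), [1146, 957], 41⟩,
  ⟨⟨-51, 4, 19, -2, -45, -14, -12, 12, -37⟩, (.cons (nat_lit 361) (nat_lit 1112) (nat_lit 790) (nat_lit 1)
 (.cons (nat_lit 965) (nat_lit 2738) (nat_lit 2168) (nat_lit 1) .nil)), (nat_lit 5), (nat_lit 61), (nat_lit
 26), (nat_lit 1), (7, 27, 21), [1146, 957], 41⟩,
  ⟨⟨-51, 4, 19, -2, -45, -14, -12, 12, -37⟩, (.cons (nat_lit 361) (nat_lit 1112) (nat_lit 790) (nat_lit 1)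
 (.cons (nat_lit 965) (nat_lit 2738) (nat_lit 2168) (nat_lit 1) .nil)), (nat_lit 5), (nat_lit 61), (nat_lit
 26), (nat_lit 1), (7, 27, 21), [1146, 957], 41⟩,
  ⟨⟨-51, 4, 19, -2, -45, -14, -12, 12, -37⟩, (.cons (nat_lit 361) (nat_lit 1112) (nat_lit 790) (nat_lit 1)
 (.cons (nat_lit 965) (nat_lit 2738) (nat_lit 2168) (nat_lit 1) .nil)), (nat_lit 5), (nat_lit 61), (nat_lit
 26), (nat_lit 1), (7, 27, 21), [1146, 957], 41⟩,
  ⟨⟨-51, 4, 19, 2, 45, 14, -12, 12, -37⟩, (.cons (nat_lit 1698) (nat_lit 1801) (nat_lit 985) (nat_lit 1) (.cons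
 (nat_lit 870) (nat_lit 2027) (nat_lit 1614) (nat_lit 1) .nil)), (nat_lit 37), (nat_lit 14), (nat_lit 18),
 (nat_lit 1), (7, 20, 21), [1540, 2058], 48⟩,
  ⟨⟨39, 8, -56, -2, -45, -14, -12, 12, -37⟩, (.cons (nat_lit 1190) (nat_lit 1050) (nat_lit 1824) (nat_lit 1)
 (.cons (nat_lit 2720) (nat_lit 184) (nat_lit 2085) (nat_lit 1) .nil)), (nat_lit 20), (nat_lit 9), (nat_lit
 28), (nat_lit 1), (14, 27, 21), [1193, 1326], 30⟩,
  ⟨⟨39, 8, -56, 2, 45, 14, -12, 12, -37⟩, (.cons (nat_lit 1122) (nat_lit 1160) (nat_lit 1126) (nat_lit 1)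
 (.cons (nat_lit 2808) (nat_lit 880) (nat_lit 73) (nat_lit 1) .nil)), (nat_lit 70), (nat_lit 30), (nat_lit 35),
 (nat_lit 1), (14, 20, 21), [1728, 2461], 52⟩,
  ⟨⟨-51, 4, 19, -2, -45, -14, -12, 12, -37⟩, (.cons (nat_lit 361) (nat_lit 1112) (nat_lit 790) (nat_lit 1)
 (.cons (nat_lit 965) (nat_lit 2738) (nat_lit 2168) (nat_lit 1) .nil)), (nat_lit 5), (nat_lit 61), (nat_lit
 26), (nat_lit 1), (7, 27, 21), [1146, 957], 41⟩,
  ⟨⟨-51, 4, 19, -2, -45, -14, -12, 12, -37⟩, (.cons (nat_lit 361) (nat_lit 1112) (nat_lit 790) (nat_lit 1)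
 (.cons (nat_lit 965) (nat_lit 2738) (nat_lit 2168) (nat_lit 1) .nil)), (nat_lit 5), (nat_lit 61), (nat_lit
 26), (nat_lit 1), (7, 27, 21), [1146, 957], 41⟩,
  ⟨⟨-51, 4, 19, 2, 45, 14, -12, 12, -37⟩, (.cons (nat_lit 1698) (nat_lit 1801) (nat_lit 985) (nat_lit 1) (.cons
 (nat_lit 870) (nat_lit 2027) (nat_lit 1614) (nat_lit 1) .nil)), (nat_lit 37), (nat_lit 14), (nat_lit 18),
 (nat_lit 1), (7, 20, 21), [1540, 2058], 48⟩]

/-- Moves. -/
noncomputable def t0_9 : List Mv := [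
  ⟨⟨27, 32, -47, -40, 17, 0, 10, -16, -47⟩, (.cons (nat_lit 1211) (nat_lit 1316) (nat_lit 278) (nat_lit 1)
 (.cons (nat_lit 2711) (nat_lit 2721) (nat_lit 1923) (nat_lit 1) .nil)), (nat_lit 49), (nat_lit 30), (nat_lit
 44), (nat_lit 1), (43, 39, 2), [152, 548], 26⟩,
  ⟨⟨-17, -48, 0, -40, 17, 0, 10, -16, -47⟩, (.cons (nat_lit 1515) (nat_lit 1316) (nat_lit 419) (nat_lit 1)
 (.cons (nat_lit 2808) (nat_lit 2023) (nat_lit 2584) (nat_lit 1) .nil)), (nat_lit 70), (nat_lit 14), (nat_lit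
 0), (nat_lit 1), (6, 39, 2), [152, 2643], 24⟩,
  ⟨⟨27, 32, -47, -40, 17, 0, 10, -16, -47⟩, (.cons (nat_lit 1211) (nat_lit 1316) (nat_lit 278) (nat_lit 1)
 (.cons (nat_lit 2711) (nat_lit 2721) (nat_lit 1923) (nat_lit 1) .nil)), (nat_lit 49), (nat_lit 30), (nat_lit
 44), (nat_lit 1), (43, 39, 2), [152, 548], 26⟩,
  ⟨⟨27, 32, -47, -40, 17, 0, 10, -16, -47⟩, (.cons (nat_lit 1211) (nat_lit 1316) (nat_lit 278) (nat_lit 1)
 (.cons (nat_lit 2711) (nat_lit 2721) (nat_lit 1923) (nat_lit 1) .nil)), (nat_lit 49), (nat_lit 30), (nat_lit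
 44), (nat_lit 1), (43, 39, 2), [152, 548], 26⟩,
  ⟨⟨-17, -48, 0, -40, 17, 0, 10, -16, -47⟩, (.cons (nat_lit 1515) (nat_lit 1316) (nat_lit 419) (nat_lit 1)
 (.cons (nat_lit 2808) (nat_lit 2023) (nat_lit 2584) (nat_lit 1) .nil)), (nat_lit 70), (nat_lit 14), (nat_lit
 0), (nat_lit 1), (6, 39, 2), [152, 2643], 24⟩,
  ⟨⟨27, 32, -47, -40, 17, 0, 10, -16, -47⟩, (.cons (nat_lit 1211) (nat_lit 1316) (nat_lit 278) (nat_lit 1)
 (.cons (nat_lit 2711) (nat_lit 2721) (nat_lit 1923) (nat_lit 1) .nil)), (nat_lit 49), (nat_lit 30), (nat_lit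
 44), (nat_lit 1), (43, 39, 2), [152, 548], 26⟩,
  ⟨⟨27, 32, -47, -40, 17, 0, 10, -16, -47⟩, (.cons (nat_lit 1211) (nat_lit 1316) (nat_lit 278) (nat_lit 1)
 (.cons (nat_lit 2711) (nat_lit 2721) (nat_lit 1923) (nat_lit 1) .nil)), (nat_lit 49), (nat_lit 30), (nat_lit
 44), (nat_lit 1), (43, 39, 2), [152, 548], 26⟩,
  ⟨⟨27, 32, -47, 40, -17, 0, 10, -16, -47⟩, (.cons (nat_lit 1562) (nat_lit 1560) (nat_lit 1) (nat_lit 1363)
 (.cons (nat_lit 1203) (nat_lit 2798) (nat_lit 577) (nat_lit 1) .nil)), (nat_lit 0), (nat_lit 9), (nat_lit 5),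
 (nat_lit 1), (43, 8, 2), [179, 916], 15⟩,
  ⟨⟨27, 32, -47, -40, 17, 0, 10, -16, -47⟩, (.cons (nat_lit 1211) (nat_lit 1316) (nat_lit 278) (nat_lit 1)
 (.cons (nat_lit 2711) (nat_lit 2721) (nat_lit 1923) (nat_lit 1) .nil)), (nat_lit 49), (nat_lit 30), (nat_lit
 44), (nat_lit 1), (43, 39, 2), [152, 548], 26⟩,
  ⟨⟨27, 32, -47, 40, -17, 0, 10, -16, -47⟩, (.cons (nat_lit 1562) (nat_lit 1560) (nat_lit 1) (nat_lit 1363)
 (.cons (nat_lit 1203) (nat_lit 2798) (nat_lit 577) (nat_lit 1) .nil)), (nat_lit 0), (nat_lit 9), (nat_lit 5),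
 (nat_lit 1), (43, 8, 2), [179, 916], 15⟩,
  ⟨⟨-17, -48, 0, -40, 17, 0, 10, -16, -47⟩, (.cons (nat_lit 1515) (nat_lit 1316) (nat_lit 419) (nat_lit 1)
 (.cons (nat_lit 2808) (nat_lit 2023) (nat_lit 2584) (nat_lit 1) .nil)), (nat_lit 70), (nat_lit 14), (nat_lit
 0), (nat_lit 1), (6, 39, 2), [152, 2643], 24⟩,
  ⟨⟨-17, -48, 0, 40, -17, 0, 10, -16, -47⟩, (.cons (nat_lit 1728) (nat_lit 1589) (nat_lit 1) (nat_lit 846)
 (.cons (nat_lit 1958) (nat_lit 1929) (nat_lit 1561) (nat_lit 1) .nil)), (nat_lit 57), (nat_lit 61), (nat_lit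
 4), (nat_lit 1), (6, 8, 2), [2059, 2576], 56⟩,
  ⟨⟨27, 32, -47, -40, 17, 0, 10, -16, -47⟩, (.cons (nat_lit 1211) (nat_lit 1316) (nat_lit 278) (nat_lit 1)
 (.cons (nat_lit 2711) (nat_lit 2721) (nat_lit 1923) (nat_lit 1) .nil)), (nat_lit 49), (nat_lit 30), (nat_lit
 44), (nat_lit 1), (43, 39, 2), [152, 548], 26⟩,
  ⟨⟨27, 32, -47, -40, 17, 0, 10, -16, -47⟩, (.cons (nat_lit 1211) (nat_lit 1316) (nat_lit 278) (nat_lit 1)
 (.cons (nat_lit 2711) (nat_lit 2721) (nat_lit 1923) (nat_lit 1) .nil)), (nat_lit 49), (nat_lit 30), (nat_lit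
 44), (nat_lit 1), (43, 39, 2), [152, 548], 26⟩,
  ⟨⟨27, 32, -47, 40, -17, 0, 10, -16, -47⟩, (.cons (nat_lit 1562) (nat_lit 1560) (nat_lit 1) (nat_lit 1363)
 (.cons (nat_lit 1203) (nat_lit 2798) (nat_lit 577) (nat_lit 1) .nil)), (nat_lit 0), (nat_lit 9), (nat_lit 5),
 (nat_lit 1), (43, 8, 2), [179, 916], 15⟩,
  ⟨⟨27, 32, -47, -40, 17, 0, 10, -16, -47⟩, (.cons (nat_lit 1211) (nat_lit 1316) (nat_lit 278) (nat_lit 1)
 (.cons (nat_lit 2711) (nat_lit 2721) (nat_lit 1923) (nat_lit 1) .nil)), (nat_lit 49), (nat_lit 30), (nat_lit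
 44), (nat_lit 1), (43, 39, 2), [152, 548], 26⟩,
  ⟨⟨-17, -48, 0, 40, -17, 0, 10, -16, -47⟩, (.cons (nat_lit 1728) (nat_lit 1589) (nat_lit 1) (nat_lit 846)
 (.cons (nat_lit 1958) (nat_lit 1929) (nat_lit 1561) (nat_lit 1) .nil)), (nat_lit 57), (nat_lit 61), (nat_lit
 4), (nat_lit 1), (6, 8, 2), [2059, 2576], 56⟩,
  ⟨⟨27, 32, -47, -40, 17, 0, 10, -16, -47⟩, (.cons (nat_lit 1211) (nat_lit 1316) (nat_lit 278) (nat_lit 1)
 (.cons (nat_lit 2711) (nat_lit 2721) (nat_lit 1923) (nat_lit 1) .nil)), (nat_lit 49), (nat_lit 30), (nat_lit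
 44), (nat_lit 1), (43, 39, 2), [152, 548], 26⟩,
  ⟨⟨-17, -48, 0, 40, -17, 0, 10, -16, -47⟩, (.cons (nat_lit 1728) (nat_lit 1589) (nat_lit 1) (nat_lit 846)
 (.cons (nat_lit 1958) (nat_lit 1929) (nat_lit 1561) (nat_lit 1) .nil)), (nat_lit 57), (nat_lit 61), (nat_lit
 4), (nat_lit 1), (6, 8, 2), [2059, 2576], 56⟩,
  ⟨⟨27, 32, -47, 40, -17, 0, 10, -16, -47⟩, (.cons (nat_lit 1562) (nat_lit 1560) (nat_lit 1) (nat_lit 1363)
 (.cons (nat_lit 1203) (nat_lit 2798) (nat_lit 577) (nat_lit 1) .nil)), (nat_lit 0), (nat_lit 9), (nat_lit 5),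
 (nat_lit 1), (43, 8, 2), [179, 916], 15⟩,
  ⟨⟨27, 32, -47, -40, 17, 0, 10, -16, -47⟩, (.cons (nat_lit 1211) (nat_lit 1316) (nat_lit 278) (nat_lit 1)
 (.cons (nat_lit 2711) (nat_lit 2721) (nat_lit 1923) (nat_lit 1) .nil)), (nat_lit 49), (nat_lit 30), (nat_lit
 44), (nat_lit 1), (43, 39, 2), [152, 548], 26⟩,
  ⟨⟨-17, -48, 0, 40, -17, 0, 10, -16, -47⟩, (.cons (nat_lit 1728) (nat_lit 1589) (nat_lit 1) (nat_lit 846)
 (.cons (nat_lit 1958) (nat_lit 1929) (nat_lit 1561) (nat_lit 1) .nil)), (nat_lit 57), (nat_lit 61), (nat_lit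
 4), (nat_lit 1), (6, 8, 2), [2059, 2576], 56⟩,
  ⟨⟨-17, -48, 0, -40, 17, 0, 10, -16, -47⟩, (.cons (nat_lit 1515) (nat_lit 1316) (nat_lit 419) (nat_lit 1)
 (.cons (nat_lit 2808) (nat_lit 2023) (nat_lit 2584) (nat_lit 1) .nil)), (nat_lit 70), (nat_lit 14), (nat_lit
 0), (nat_lit 1), (6, 39, 2), [152, 2643], 24⟩,
  ⟨⟨27, 32, -47, -40, 17, 0, 10, -16, -47⟩, (.cons (nat_lit 1211) (nat_lit 1316) (nat_lit 278) (nat_lit 1)
 (.cons (nat_lit 2711) (nat_lit 2721) (nat_lit 1923) (nat_lit 1) .nil)), (nat_lit 49), (nat_lit 30), (nat_lit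
 44), (nat_lit 1), (43, 39, 2), [152, 548], 26⟩,
  ⟨⟨-17, -48, 0, -40, 17, 0, 10, -16, -47⟩, (.cons (nat_lit 1515) (nat_lit 1316) (nat_lit 419) (nat_lit 1)
 (.cons (nat_lit 2808) (nat_lit 2023) (nat_lit 2584) (nat_lit 1) .nil)), (nat_lit 70), (nat_lit 14), (nat_lit
 0), (nat_lit 1), (6, 39, 2), [152, 2643], 24⟩,
  ⟨⟨27, 32, -47, -40, 17, 0, 10, -16, -47⟩, (.cons (nat_lit 1211) (nat_lit 1316) (nat_lit 278) (nat_lit 1)
 (.cons (nat_lit 2711) (nat_lit 2721) (nat_lit 1923) (nat_lit 1) .nil)), (nat_lit 49), (nat_lit 30), (nat_lit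
 44), (nat_lit 1), (43, 39, 2), [152, 548], 26⟩,
  ⟨⟨27, 32, -47, -40, 17, 0, 10, -16, -47⟩, (.cons (nat_lit 1211) (nat_lit 1316) (nat_lit 278) (nat_lit 1)
 (.cons (nat_lit 2711) (nat_lit 2721) (nat_lit 1923) (nat_lit 1) .nil)), (nat_lit 49), (nat_lit 30), (nat_lit
 44), (nat_lit 1), (43, 39, 2), [152, 548], 26⟩,
  ⟨⟨27, 32, -47, -40, 17, 0, 10, -16, -47⟩, (.cons (nat_lit 1211) (nat_lit 1316) (nat_lit 278) (nat_lit 1)
 (.cons (nat_lit 2711) (nat_lit 2721) (nat_lit 1923) (nat_lit 1) .nil)), (nat_lit 49), (nat_lit 30), (nat_lit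
 44), (nat_lit 1), (43, 39, 2), [152, 548], 26⟩,
  ⟨⟨27, 32, -47, -40, 17, 0, 10, -16, -47⟩, (.cons (nat_lit 1211) (nat_lit 1316) (nat_lit 278) (nat_lit 1)
 (.cons (nat_lit 2711) (nat_lit 2721) (nat_lit 1923) (nat_lit 1) .nil)), (nat_lit 49), (nat_lit 30), (nat_lit
 44), (nat_lit 1), (43, 39, 2), [152, 548], 26⟩,
  ⟨⟨27, 32, -47, -40, 17, 0, 10, -16, -47⟩, (.cons (nat_lit 1211) (nat_lit 1316) (nat_lit 278) (nat_lit 1)
 (.cons (nat_lit 2711) (nat_lit 2721) (nat_lit 1923) (nat_lit 1) .nil)), (nat_lit 49), (nat_lit 30), (nat_lit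
 44), (nat_lit 1), (43, 39, 2), [152, 548], 26⟩,
  ⟨⟨-17, -48, 0, -40, 17, 0, 10, -16, -47⟩, (.cons (nat_lit 1515) (nat_lit 1316) (nat_lit 419) (nat_lit 1)
 (.cons (nat_lit 2808) (nat_lit 2023) (nat_lit 2584) (nat_lit 1) .nil)), (nat_lit 70), (nat_lit 14), (nat_lit
 0), (nat_lit 1), (6, 39, 2), [152, 2643], 24⟩,
  ⟨⟨27, 32, -47, -40, 17, 0, 10, -16, -47⟩, (.cons (nat_lit 1211) (nat_lit 1316) (nat_lit 278) (nat_lit 1)
 (.cons (nat_lit 2711) (nat_lit 2721) (nat_lit 1923) (nat_lit 1) .nil)), (nat_lit 49), (nat_lit 30), (nat_lit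
 44), (nat_lit 1), (43, 39, 2), [152, 548], 26⟩,
  ⟨⟨27, 32, -47, 40, -17, 0, 10, -16, -47⟩, (.cons (nat_lit 1562) (nat_lit 1560) (nat_lit 1) (nat_lit 1363)
 (.cons (nat_lit 1203) (nat_lit 2798) (nat_lit 577) (nat_lit 1) .nil)), (nat_lit 0), (nat_lit 9), (nat_lit 5),
 (nat_lit 1), (43, 8, 2), [179, 916], 15⟩,
  ⟨⟨27, 32, -47, -40, 17, 0, 10, -16, -47⟩, (.cons (nat_lit 1211) (nat_lit 1316) (nat_lit 278) (nat_lit 1)
 (.cons (nat_lit 2711) (nat_lit 2721) (nat_lit 1923) (nat_lit 1) .nil)), (nat_lit 49), (nat_lit 30), (nat_lit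
 44), (nat_lit 1), (43, 39, 2), [152, 548], 26⟩,
  ⟨⟨-17, -48, 0, 40, -17, 0, 10, -16, -47⟩, (.cons (nat_lit 1728) (nat_lit 1589) (nat_lit 1) (nat_lit 846)
 (.cons (nat_lit 1958) (nat_lit 1929) (nat_lit 1561) (nat_lit 1) .nil)), (nat_lit 57), (nat_lit 61), (nat_lit
 4), (nat_lit 1), (6, 8, 2), [2059, 2576], 56⟩,
  ⟨⟨27, 32, -47, -40, 17, 0, 10, -16, -47⟩, (.cons (nat_lit 1211) (nat_lit 1316) (nat_lit 278) (nat_lit 1)
 (.cons (nat_lit 2711) (nat_lit 2721) (nat_lit 1923) (nat_lit 1) .nil)), (nat_lit 49), (nat_lit 30), (nat_lit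
 44), (nat_lit 1), (43, 39, 2), [152, 548], 26⟩,
  ⟨⟨27, 32, -47, -40, 17, 0, 10, -16, -47⟩, (.cons (nat_lit 1211) (nat_lit 1316) (nat_lit 278) (nat_lit 1)
 (.cons (nat_lit 2711) (nat_lit 2721) (nat_lit 1923) (nat_lit 1) .nil)), (nat_lit 49), (nat_lit 30), (nat_lit
 44), (nat_lit 1), (43, 39, 2), [152, 548], 26⟩,
  ⟨⟨27, 32, -47, -40, 17, 0, 10, -16, -47⟩, (.cons (nat_lit 1211) (nat_lit 1316) (nat_lit 278) (nat_lit 1)
 (.cons (nat_lit 2711) (nat_lit 2721) (nat_lit 1923) (nat_lit 1) .nil)), (nat_lit 49), (nat_lit 30), (nat_lit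
 44), (nat_lit 1), (43, 39, 2), [152, 548], 26⟩,
  ⟨⟨27, 32, -47, -40, 17, 0, 10, -16, -47⟩, (.cons (nat_lit 1211) (nat_lit 1316) (nat_lit 278) (nat_lit 1)
 (.cons (nat_lit 2711) (nat_lit 2721) (nat_lit 1923) (nat_lit 1) .nil)), (nat_lit 49), (nat_lit 30), (nat_lit
 44), (nat_lit 1), (43, 39, 2), [152, 548], 26⟩,
  ⟨⟨27, 32, -47, -40, 17, 0, 10, -16, -47⟩, (.cons (nat_lit 1211) (nat_lit 1316) (nat_lit 278) (nat_lit 1)
 (.cons (nat_lit 2711) (nat_lit 2721) (nat_lit 1923) (nat_lit 1) .nil)), (nat_lit 49), (nat_lit 30), (nat_lit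
 44), (nat_lit 1), (43, 39, 2), [152, 548], 26⟩,
  ⟨⟨27, 32, -47, 40, -17, 0, 10, -16, -47⟩, (.cons (nat_lit 1562) (nat_lit 1560) (nat_lit 1) (nat_lit 1363)
 (.cons (nat_lit 1203) (nat_lit 2798) (nat_lit 577) (nat_lit 1) .nil)), (nat_lit 0), (nat_lit 9), (nat_lit 5),
 (nat_lit 1), (43, 8, 2), [179, 916], 15⟩,
  ⟨⟨-17, -48, 0, -40, 17, 0, 10, -16, -47⟩, (.cons (nat_lit 1515) (nat_lit 1316) (nat_lit 419) (nat_lit 1)
 (.cons (nat_lit 2808) (nat_lit 2023) (nat_lit 2584) (nat_lit 1) .nil)), (nat_lit 70), (nat_lit 14), (nat_lit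
 0), (nat_lit 1), (6, 39, 2), [152, 2643], 24⟩,
  ⟨⟨-17, -48, 0, 40, -17, 0, 10, -16, -47⟩, (.cons (nat_lit 1728) (nat_lit 1589) (nat_lit 1) (nat_lit 846)
 (.cons (nat_lit 1958) (nat_lit 1929) (nat_lit 1561) (nat_lit 1) .nil)), (nat_lit 57), (nat_lit 61), (nat_lit
 4), (nat_lit 1), (6, 8, 2), [2059, 2576], 56⟩,
  ⟨⟨-17, -48, 0, 40, -17, 0, 10, -16, -47⟩, (.cons (nat_lit 1728) (nat_lit 1589) (nat_lit 1) (nat_lit 846)
 (.cons (nat_lit 1958) (nat_lit 1929) (nat_lit 1561) (nat_lit 1) .nil)), (nat_lit 57), (nat_lit 61), (nat_lit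
 4), (nat_lit 1), (6, 8, 2), [2059, 2576], 56⟩,
  ⟨⟨27, 32, -47, -40, 17, 0, 10, -16, -47⟩, (.cons (nat_lit 1211) (nat_lit 1316) (nat_lit 278) (nat_lit 1)
 (.cons (nat_lit 2711) (nat_lit 2721) (nat_lit 1923) (nat_lit 1) .nil)), (nat_lit 49), (nat_lit 30), (nat_lit
 44), (nat_lit 1), (43, 39, 2), [152, 548], 26⟩,
  ⟨⟨27, 32, -47, -40, 17, 0, 10, -16, -47⟩, (.cons (nat_lit 1211) (nat_lit 1316) (nat_lit 278) (nat_lit 1)
 (.cons (nat_lit 2711) (nat_lit 2721) (nat_lit 1923) (nat_lit 1) .nil)), (nat_lit 49), (nat_lit 30), (nat_lit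
 44), (nat_lit 1), (43, 39, 2), [152, 548], 26⟩,
  ⟨⟨27, 32, -47, 40, -17, 0, 10, -16, -47⟩, (.cons (nat_lit 1562) (nat_lit 1560) (nat_lit 1) (nat_lit 1363)
 (.cons (nat_lit 1203) (nat_lit 2798) (nat_lit 577) (nat_lit 1) .nil)), (nat_lit 0), (nat_lit 9), (nat_lit 5),
 (nat_lit 1), (43, 8, 2), [179, 916], 15⟩]

/-- Moves. -/
noncomputable def t0_12 : List Mv := [
  ⟨⟨17, -36, -45, -20, 23, -30, 38, 8, -37⟩, (.cons (nat_lit 570) (nat_lit 1135) (nat_lit 2077) (nat_lit 1)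
 (.cons (nat_lit 2305) (nat_lit 1306) (nat_lit 2293) (nat_lit 1) .nil)), (nat_lit 5), (nat_lit 15), (nat_lit
 3), (nat_lit 1), (19, 44, 1), [178, 421], 37⟩,
  ⟨⟨17, -36, -45, -20, 23, -30, 38, 8, -37⟩, (.cons (nat_lit 570) (nat_lit 1135) (nat_lit 2077) (nat_lit 1)
 (.cons (nat_lit 2305) (nat_lit 1306) (nat_lit 2293) (nat_lit 1) .nil)), (nat_lit 5), (nat_lit 15), (nat_lit
 3), (nat_lit 1), (19, 44, 1), [178, 421], 37⟩,
  ⟨⟨17, -36, -45, -20, 23, -30, 38, 8, -37⟩, (.cons (nat_lit 570) (nat_lit 1135) (nat_lit 2077) (nat_lit 1)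
 (.cons (nat_lit 2305) (nat_lit 1306) (nat_lit 2293) (nat_lit 1) .nil)), (nat_lit 5), (nat_lit 15), (nat_lit
 3), (nat_lit 1), (19, 44, 1), [178, 421], 37⟩,
  ⟨⟨21, 44, 8, 20, -23, 30, 38, 8, -37⟩, (.cons (nat_lit 463) (nat_lit 276) (nat_lit 1337) (nat_lit 1) (.cons
 (nat_lit 1702) (nat_lit 2340) (nat_lit 2074) (nat_lit 1) .nil)), (nat_lit 11), (nat_lit 51), (nat_lit 24),
 (nat_lit 1), (29, 3, 1), [354, 2049], 2⟩,
  ⟨⟨21, 44, 8, 20, -23, 30, 38, 8, -37⟩, (.cons (nat_lit 463) (nat_lit 276) (nat_lit 1337) (nat_lit 1) (.cons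
 (nat_lit 1702) (nat_lit 2340) (nat_lit 2074) (nat_lit 1) .nil)), (nat_lit 11), (nat_lit 51), (nat_lit 24),
 (nat_lit 1), (29, 3, 1), [354, 2049], 2⟩,
  ⟨⟨17, -36, -45, -20, 23, -30, 38, 8, -37⟩, (.cons (nat_lit 570) (nat_lit 1135) (nat_lit 2077) (nat_lit 1)
 (.cons (nat_lit 2305) (nat_lit 1306) (nat_lit 2293) (nat_lit 1) .nil)), (nat_lit 5), (nat_lit 15), (nat_lit
 3), (nat_lit 1), (19, 44, 1), [178, 421], 37⟩,
  ⟨⟨17, -36, -45, -20, 23, -30, 38, 8, -37⟩, (.cons (nat_lit 570) (nat_lit 1135) (nat_lit 2077) (nat_lit 1)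
 (.cons (nat_lit 2305) (nat_lit 1306) (nat_lit 2293) (nat_lit 1) .nil)), (nat_lit 5), (nat_lit 15), (nat_lit
 3), (nat_lit 1), (19, 44, 1), [178, 421], 37⟩,
  ⟨⟨21, 44, 8, 20, -23, 30, 38, 8, -37⟩, (.cons (nat_lit 463) (nat_lit 276) (nat_lit 1337) (nat_lit 1) (.cons
 (nat_lit 1702) (nat_lit 2340) (nat_lit 2074) (nat_lit 1) .nil)), (nat_lit 11), (nat_lit 51), (nat_lit 24),
 (nat_lit 1), (29, 3, 1), [354, 2049], 2⟩,
  ⟨⟨17, -36, -45, 20, -23, 30, 38, 8, -37⟩, (.cons (nat_lit 853) (nat_lit 288) (nat_lit 1619) (nat_lit 1)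
 (.cons (nat_lit 1509) (nat_lit 1776) (nat_lit 2193) (nat_lit 1) .nil)), (nat_lit 17), (nat_lit 46), (nat_lit
 68), (nat_lit 1), (19, 3, 1), [1529, 2104], 28⟩,
  ⟨⟨21, 44, 8, -20, 23, -30, 38, 8, -37⟩, (.cons (nat_lit 88) (nat_lit 1873) (nat_lit 197) (nat_lit 1) (.cons
 (nat_lit 2188) (nat_lit 1710) (nat_lit 1163) (nat_lit 1) .nil)), (nat_lit 35), (nat_lit 12), (nat_lit 5),
 (nat_lit 1), (29, 44, 1), [2199, 1932], 39⟩,
  ⟨⟨17, -36, -45, -20, 23, -30, 38, 8, -37⟩, (.cons (nat_lit 570) (nat_lit 1135) (nat_lit 2077) (nat_lit 1)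
 (.cons (nat_lit 2305) (nat_lit 1306) (nat_lit 2293) (nat_lit 1) .nil)), (nat_lit 5), (nat_lit 15), (nat_lit
 3), (nat_lit 1), (19, 44, 1), [178, 421], 37⟩,
  ⟨⟨21, 44, 8, 20, -23, 30, 38, 8, -37⟩, (.cons (nat_lit 463) (nat_lit 276) (nat_lit 1337) (nat_lit 1) (.cons
 (nat_lit 1702) (nat_lit 2340) (nat_lit 2074) (nat_lit 1) .nil)), (nat_lit 11), (nat_lit 51), (nat_lit 24),
 (nat_lit 1), (29, 3, 1), [354, 2049], 2⟩,
  ⟨⟨21, 44, 8, -20, 23, -30, 38, 8, -37⟩, (.cons (nat_lit 88) (nat_lit 1873) (nat_lit 197) (nat_lit 1) (.cons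
 (nat_lit 2188) (nat_lit 1710) (nat_lit 1163) (nat_lit 1) .nil)), (nat_lit 35), (nat_lit 12), (nat_lit 5),
 (nat_lit 1), (29, 44, 1), [2199, 1932], 39⟩,
  ⟨⟨21, 44, 8, -20, 23, -30, 38, 8, -37⟩, (.cons (nat_lit 88) (nat_lit 1873) (nat_lit 197) (nat_lit 1) (.cons
 (nat_lit 2188) (nat_lit 1710) (nat_lit 1163) (nat_lit 1) .nil)), (nat_lit 35), (nat_lit 12), (nat_lit 5),
 (nat_lit 1), (29, 44, 1), [2199, 1932], 39⟩,
  ⟨⟨17, -36, -45, -20, 23, -30, 38, 8, -37⟩, (.cons (nat_lit 570) (nat_lit 1135) (nat_lit 2077) (nat_lit 1)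
 (.cons (nat_lit 2305) (nat_lit 1306) (nat_lit 2293) (nat_lit 1) .nil)), (nat_lit 5), (nat_lit 15), (nat_lit
 3), (nat_lit 1), (19, 44, 1), [178, 421], 37⟩,
  ⟨⟨17, -36, -45, -20, 23, -30, 38, 8, -37⟩, (.cons (nat_lit 570) (nat_lit 1135) (nat_lit 2077) (nat_lit 1)
 (.cons (nat_lit 2305) (nat_lit 1306) (nat_lit 2293) (nat_lit 1) .nil)), (nat_lit 5), (nat_lit 15), (nat_lit
 3), (nat_lit 1), (19, 44, 1), [178, 421], 37⟩,
  ⟨⟨17, -36, -45, 20, -23, 30, 38, 8, -37⟩, (.cons (nat_lit 853) (nat_lit 288) (nat_lit 1619) (nat_lit 1)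
 (.cons (nat_lit 1509) (nat_lit 1776) (nat_lit 2193) (nat_lit 1) .nil)), (nat_lit 17), (nat_lit 46), (nat_lit
 68), (nat_lit 1), (19, 3, 1), [1529, 2104], 28⟩,
  ⟨⟨17, -36, -45, -20, 23, -30, 38, 8, -37⟩, (.cons (nat_lit 570) (nat_lit 1135) (nat_lit 2077) (nat_lit 1)
 (.cons (nat_lit 2305) (nat_lit 1306) (nat_lit 2293) (nat_lit 1) .nil)), (nat_lit 5), (nat_lit 15), (nat_lit
 3), (nat_lit 1), (19, 44, 1), [178, 421], 37⟩,
  ⟨⟨21, 44, 8, 20, -23, 30, 38, 8, -37⟩, (.cons (nat_lit 463) (nat_lit 276) (nat_lit 1337) (nat_lit 1) (.cons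
 (nat_lit 1702) (nat_lit 2340) (nat_lit 2074) (nat_lit 1) .nil)), (nat_lit 11), (nat_lit 51), (nat_lit 24),
 (nat_lit 1), (29, 3, 1), [354, 2049], 2⟩,
  ⟨⟨17, -36, -45, -20, 23, -30, 38, 8, -37⟩, (.cons (nat_lit 570) (nat_lit 1135) (nat_lit 2077) (nat_lit 1)
 (.cons (nat_lit 2305) (nat_lit 1306) (nat_lit 2293) (nat_lit 1) .nil)), (nat_lit 5), (nat_lit 15), (nat_lit
 3), (nat_lit 1), (19, 44, 1), [178, 421], 37⟩,
  ⟨⟨17, -36, -45, -20, 23, -30, 38, 8, -37⟩, (.cons (nat_lit 570) (nat_lit 1135) (nat_lit 2077) (nat_lit 1)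
 (.cons (nat_lit 2305) (nat_lit 1306) (nat_lit 2293) (nat_lit 1) .nil)), (nat_lit 5), (nat_lit 15), (nat_lit
 3), (nat_lit 1), (19, 44, 1), [178, 421], 37⟩,
  ⟨⟨17, -36, -45, -20, 23, -30, 38, 8, -37⟩, (.cons (nat_lit 570) (nat_lit 1135) (nat_lit 2077) (nat_lit 1)
 (.cons (nat_lit 2305) (nat_lit 1306) (nat_lit 2293) (nat_lit 1) .nil)), (nat_lit 5), (nat_lit 15), (nat_lit
 3), (nat_lit 1), (19, 44, 1), [178, 421], 37⟩,
  ⟨⟨17, -36, -45, -20, 23, -30, 38, 8, -37⟩, (.cons (nat_lit 570) (nat_lit 1135) (nat_lit 2077) (nat_lit 1)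
 (.cons (nat_lit 2305) (nat_lit 1306) (nat_lit 2293) (nat_lit 1) .nil)), (nat_lit 5), (nat_lit 15), (nat_lit
 3), (nat_lit 1), (19, 44, 1), [178, 421], 37⟩,
  ⟨⟨17, -36, -45, -20, 23, -30, 38, 8, -37⟩, (.cons (nat_lit 570) (nat_lit 1135) (nat_lit 2077) (nat_lit 1)
 (.cons (nat_lit 2305) (nat_lit 1306) (nat_lit 2293) (nat_lit 1) .nil)), (nat_lit 5), (nat_lit 15), (nat_lit
 3), (nat_lit 1), (19, 44, 1), [178, 421], 37⟩,
  ⟨⟨17, -36, -45, 20, -23, 30, 38, 8, -37⟩, (.cons (nat_lit 853) (nat_lit 288) (nat_lit 1619) (nat_lit 1)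
 (.cons (nat_lit 1509) (nat_lit 1776) (nat_lit 2193) (nat_lit 1) .nil)), (nat_lit 17), (nat_lit 46), (nat_lit
 68), (nat_lit 1), (19, 3, 1), [1529, 2104], 28⟩,
  ⟨⟨17, -36, -45, -20, 23, -30, 38, 8, -37⟩, (.cons (nat_lit 570) (nat_lit 1135) (nat_lit 2077) (nat_lit 1)
 (.cons (nat_lit 2305) (nat_lit 1306) (nat_lit 2293) (nat_lit 1) .nil)), (nat_lit 5), (nat_lit 15), (nat_lit
 3), (nat_lit 1), (19, 44, 1), [178, 421], 37⟩,
  ⟨⟨17, -36, -45, -20, 23, -30, 38, 8, -37⟩, (.cons (nat_lit 570) (nat_lit 1135) (nat_lit 2077) (nat_lit 1)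
 (.cons (nat_lit 2305) (nat_lit 1306) (nat_lit 2293) (nat_lit 1) .nil)), (nat_lit 5), (nat_lit 15), (nat_lit
 3), (nat_lit 1), (19, 44, 1), [178, 421], 37⟩,
  ⟨⟨17, -36, -45, -20, 23, -30, 38, 8, -37⟩, (.cons (nat_lit 570) (nat_lit 1135) (nat_lit 2077) (nat_lit 1)
 (.cons (nat_lit 2305) (nat_lit 1306) (nat_lit 2293) (nat_lit 1) .nil)), (nat_lit 5), (nat_lit 15), (nat_lit
 3), (nat_lit 1), (19, 44, 1), [178, 421], 37⟩,
  ⟨⟨21, 44, 8, -20, 23, -30, 38, 8, -37⟩, (.cons (nat_lit 88) (nat_lit 1873) (nat_lit 197) (nat_lit 1) (.cons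
 (nat_lit 2188) (nat_lit 1710) (nat_lit 1163) (nat_lit 1) .nil)), (nat_lit 35), (nat_lit 12), (nat_lit 5),
 (nat_lit 1), (29, 44, 1), [2199, 1932], 39⟩,
  ⟨⟨21, 44, 8, -20, 23, -30, 38, 8, -37⟩, (.cons (nat_lit 88) (nat_lit 1873) (nat_lit 197) (nat_lit 1) (.cons
 (nat_lit 2188) (nat_lit 1710) (nat_lit 1163) (nat_lit 1) .nil)), (nat_lit 35), (nat_lit 12), (nat_lit 5),
 (nat_lit 1), (29, 44, 1), [2199, 1932], 39⟩,
  ⟨⟨17, -36, -45, -20, 23, -30, 38, 8, -37⟩, (.cons (nat_lit 570) (nat_lit 1135) (nat_lit 2077) (nat_lit 1)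
 (.cons (nat_lit 2305) (nat_lit 1306) (nat_lit 2293) (nat_lit 1) .nil)), (nat_lit 5), (nat_lit 15), (nat_lit
 3), (nat_lit 1), (19, 44, 1), [178, 421], 37⟩,
  ⟨⟨17, -36, -45, 20, -23, 30, 38, 8, -37⟩, (.cons (nat_lit 853) (nat_lit 288) (nat_lit 1619) (nat_lit 1)
 (.cons (nat_lit 1509) (nat_lit 1776) (nat_lit 2193) (nat_lit 1) .nil)), (nat_lit 17), (nat_lit 46), (nat_lit
 68), (nat_lit 1), (19, 3, 1), [1529, 2104], 28⟩,
  ⟨⟨17, -36, -45, -20, 23, -30, 38, 8, -37⟩, (.cons (nat_lit 570) (nat_lit 1135) (nat_lit 2077) (nat_lit 1)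
 (.cons (nat_lit 2305) (nat_lit 1306) (nat_lit 2293) (nat_lit 1) .nil)), (nat_lit 5), (nat_lit 15), (nat_lit
 3), (nat_lit 1), (19, 44, 1), [178, 421], 37⟩,
  ⟨⟨17, -36, -45, -20, 23, -30, 38, 8, -37⟩, (.cons (nat_lit 570) (nat_lit 1135) (nat_lit 2077) (nat_lit 1)
 (.cons (nat_lit 2305) (nat_lit 1306) (nat_lit 2293) (nat_lit 1) .nil)), (nat_lit 5), (nat_lit 15), (nat_lit
 3), (nat_lit 1), (19, 44, 1), [178, 421], 37⟩,
  ⟨⟨17, -36, -45, 20, -23, 30, 38, 8, -37⟩, (.cons (nat_lit 853) (nat_lit 288) (nat_lit 1619) (nat_lit 1)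
 (.cons (nat_lit 1509) (nat_lit 1776) (nat_lit 2193) (nat_lit 1) .nil)), (nat_lit 17), (nat_lit 46), (nat_lit
 68), (nat_lit 1), (19, 3, 1), [1529, 2104], 28⟩,
  ⟨⟨21, 44, 8, 20, -23, 30, 38, 8, -37⟩, (.cons (nat_lit 463) (nat_lit 276) (nat_lit 1337) (nat_lit 1) (.cons
 (nat_lit 1702) (nat_lit 2340) (nat_lit 2074) (nat_lit 1) .nil)), (nat_lit 11), (nat_lit 51), (nat_lit 24),
 (nat_lit 1), (29, 3, 1), [354, 2049], 2⟩,
  ⟨⟨17, -36, -45, -20, 23, -30, 38, 8, -37⟩, (.cons (nat_lit 570) (nat_lit 1135) (nat_lit 2077) (nat_lit 1)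
 (.cons (nat_lit 2305) (nat_lit 1306) (nat_lit 2293) (nat_lit 1) .nil)), (nat_lit 5), (nat_lit 15), (nat_lit
 3), (nat_lit 1), (19, 44, 1), [178, 421], 37⟩,
  ⟨⟨17, -36, -45, 20, -23, 30, 38, 8, -37⟩, (.cons (nat_lit 853) (nat_lit 288) (nat_lit 1619) (nat_lit 1)
 (.cons (nat_lit 1509) (nat_lit 1776) (nat_lit 2193) (nat_lit 1) .nil)), (nat_lit 17), (nat_lit 46), (nat_lit
 68), (nat_lit 1), (19, 3, 1), [1529, 2104], 28⟩,
  ⟨⟨17, -36, -45, -20, 23, -30, 38, 8, -37⟩, (.cons (nat_lit 570) (nat_lit 1135) (nat_lit 2077) (nat_lit 1)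
 (.cons (nat_lit 2305) (nat_lit 1306) (nat_lit 2293) (nat_lit 1) .nil)), (nat_lit 5), (nat_lit 15), (nat_lit
 3), (nat_lit 1), (19, 44, 1), [178, 421], 37⟩,
  ⟨⟨21, 44, 8, -20, 23, -30, 38, 8, -37⟩, (.cons (nat_lit 88) (nat_lit 1873) (nat_lit 197) (nat_lit 1) (.cons
 (nat_lit 2188) (nat_lit 1710) (nat_lit 1163) (nat_lit 1) .nil)), (nat_lit 35), (nat_lit 12), (nat_lit 5),
 (nat_lit 1), (29, 44, 1), [2199, 1932], 39⟩,
  ⟨⟨17, -36, -45, -20, 23, -30, 38, 8, -37⟩, (.cons (nat_lit 570) (nat_lit 1135) (nat_lit 2077) (nat_lit 1)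
 (.cons (nat_lit 2305) (nat_lit 1306) (nat_lit 2293) (nat_lit 1) .nil)), (nat_lit 5), (nat_lit 15), (nat_lit
 3), (nat_lit 1), (19, 44, 1), [178, 421], 37⟩,
  ⟨⟨21, 44, 8, -20, 23, -30, 38, 8, -37⟩, (.cons (nat_lit 88) (nat_lit 1873) (nat_lit 197) (nat_lit 1) (.cons
 (nat_lit 2188) (nat_lit 1710) (nat_lit 1163) (nat_lit 1) .nil)), (nat_lit 35), (nat_lit 12), (nat_lit 5),
 (nat_lit 1), (29, 44, 1), [2199, 1932], 39⟩,
  ⟨⟨17, -36, -45, -20, 23, -30, 38, 8, -37⟩, (.cons (nat_lit 570) (nat_lit 1135) (nat_lit 2077) (nat_lit 1)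
 (.cons (nat_lit 2305) (nat_lit 1306) (nat_lit 2293) (nat_lit 1) .nil)), (nat_lit 5), (nat_lit 15), (nat_lit
 3), (nat_lit 1), (19, 44, 1), [178, 421], 37⟩,
  ⟨⟨21, 44, 8, 20, -23, 30, 38, 8, -37⟩, (.cons (nat_lit 463) (nat_lit 276) (nat_lit 1337) (nat_lit 1) (.cons
 (nat_lit 1702) (nat_lit 2340) (nat_lit 2074) (nat_lit 1) .nil)), (nat_lit 11), (nat_lit 51), (nat_lit 24),
 (nat_lit 1), (29, 3, 1), [354, 2049], 2⟩,
  ⟨⟨17, -36, -45, 20, -23, 30, 38, 8, -37⟩, (.cons (nat_lit 853) (nat_lit 288) (nat_lit 1619) (nat_lit 1)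
 (.cons (nat_lit 1509) (nat_lit 1776) (nat_lit 2193) (nat_lit 1) .nil)), (nat_lit 17), (nat_lit 46), (nat_lit
 68), (nat_lit 1), (19, 3, 1), [1529, 2104], 28⟩,
  ⟨⟨17, -36, -45, -20, 23, -30, 38, 8, -37⟩, (.cons (nat_lit 570) (nat_lit 1135) (nat_lit 2077) (nat_lit 1)
 (.cons (nat_lit 2305) (nat_lit 1306) (nat_lit 2293) (nat_lit 1) .nil)), (nat_lit 5), (nat_lit 15), (nat_lit
 3), (nat_lit 1), (19, 44, 1), [178, 421], 37⟩,
  ⟨⟨17, -36, -45, -20, 23, -30, 38, 8, -37⟩, (.cons (nat_lit 570) (nat_lit 1135) (nat_lit 2077) (nat_lit 1)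
 (.cons (nat_lit 2305) (nat_lit 1306) (nat_lit 2293) (nat_lit 1) .nil)), (nat_lit 5), (nat_lit 15), (nat_lit
 3), (nat_lit 1), (19, 44, 1), [178, 421], 37⟩]

/-- Moves. -/
noncomputable def t0_15 : List Mv := [
  ⟨⟨9, 4, -61, 40, 23, -10, 22, -32, -29⟩, (.cons (nat_lit 892) (nat_lit 661) (nat_lit 1320) (nat_lit 1) (.cons
 (nat_lit 2557) (nat_lit 2620) (nat_lit 290) (nat_lit 1) .nil)), (nat_lit 37), (nat_lit 19), (nat_lit 32),
 (nat_lit 1), (18, 33, 44), [927, 2418], 1⟩,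
  ⟨⟨13, -36, 32, 40, 23, -10, 22, -32, -29⟩, (.cons (nat_lit 236) (nat_lit 1454) (nat_lit 1085) (nat_lit 1)
 (.cons (nat_lit 2325) (nat_lit 1794) (nat_lit 1092) (nat_lit 1) .nil)), (nat_lit 69), (nat_lit 24), (nat_lit
 10), (nat_lit 1), (26, 33, 44), [128, 2130], 14⟩,
  ⟨⟨9, 4, -61, -40, -23, 10, 22, -32, -29⟩, (.cons (nat_lit 291) (nat_lit 249) (nat_lit 1112) (nat_lit 1)
 (.cons (nat_lit 2781) (nat_lit 284) (nat_lit 140) (nat_lit 1) .nil)), (nat_lit 17), (nat_lit 23), (nat_lit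
 65), (nat_lit 1), (18, 14, 44), [472, 2051], 28⟩,
  ⟨⟨9, 4, -61, 40, 23, -10, 22, -32, -29⟩, (.cons (nat_lit 892) (nat_lit 661) (nat_lit 1320) (nat_lit 1) (.cons
 (nat_lit 2557) (nat_lit 2620) (nat_lit 290) (nat_lit 1) .nil)), (nat_lit 37), (nat_lit 19), (nat_lit 32),
 (nat_lit 1), (18, 33, 44), [927, 2418], 1⟩,
  ⟨⟨13, -36, 32, -40, -23, 10, 22, -32, -29⟩, (.cons (nat_lit 1166) (nat_lit 1678) (nat_lit 736) (nat_lit 1)
 (.cons (nat_lit 1116) (nat_lit 263) (nat_lit 72) (nat_lit 1) .nil)), (nat_lit 59), (nat_lit 44), (nat_lit 58),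
 (nat_lit 1), (26, 14, 44), [989, 2351], 50⟩,
  ⟨⟨13, -36, 32, 40, 23, -10, 22, -32, -29⟩, (.cons (nat_lit 236) (nat_lit 1454) (nat_lit 1085) (nat_lit 1)
 (.cons (nat_lit 2325) (nat_lit 1794) (nat_lit 1092) (nat_lit 1) .nil)), (nat_lit 69), (nat_lit 24), (nat_lit
 10), (nat_lit 1), (26, 33, 44), [128, 2130], 14⟩,
  ⟨⟨13, -36, 32, 40, 23, -10, 22, -32, -29⟩, (.cons (nat_lit 236) (nat_lit 1454) (nat_lit 1085) (nat_lit 1)
 (.cons (nat_lit 2325) (nat_lit 1794) (nat_lit 1092) (nat_lit 1) .nil)), (nat_lit 69), (nat_lit 24), (nat_lit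
 10), (nat_lit 1), (26, 33, 44), [128, 2130], 14⟩,
  ⟨⟨9, 4, -61, -40, -23, 10, 22, -32, -29⟩, (.cons (nat_lit 291) (nat_lit 249) (nat_lit 1112) (nat_lit 1)
 (.cons (nat_lit 2781) (nat_lit 284) (nat_lit 140) (nat_lit 1) .nil)), (nat_lit 17), (nat_lit 23), (nat_lit
 65), (nat_lit 1), (18, 14, 44), [472, 2051], 28⟩,
  ⟨⟨13, -36, 32, 40, 23, -10, 22, -32, -29⟩, (.cons (nat_lit 236) (nat_lit 1454) (nat_lit 1085) (nat_lit 1)
 (.cons (nat_lit 2325) (nat_lit 1794) (nat_lit 1092) (nat_lit 1) .nil)), (nat_lit 69), (nat_lit 24), (nat_lit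
 10), (nat_lit 1), (26, 33, 44), [128, 2130], 14⟩,
  ⟨⟨9, 4, -61, 40, 23, -10, 22, -32, -29⟩, (.cons (nat_lit 892) (nat_lit 661) (nat_lit 1320) (nat_lit 1) (.cons
 (nat_lit 2557) (nat_lit 2620) (nat_lit 290) (nat_lit 1) .nil)), (nat_lit 37), (nat_lit 19), (nat_lit 32),
 (nat_lit 1), (18, 33, 44), [927, 2418], 1⟩,
  ⟨⟨9, 4, -61, 40, 23, -10, 22, -32, -29⟩, (.cons (nat_lit 892) (nat_lit 661) (nat_lit 1320) (nat_lit 1) (.cons
 (nat_lit 2557) (nat_lit 2620) (nat_lit 290) (nat_lit 1) .nil)), (nat_lit 37), (nat_lit 19), (nat_lit 32),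
 (nat_lit 1), (18, 33, 44), [927, 2418], 1⟩,
  ⟨⟨9, 4, -61, 40, 23, -10, 22, -32, -29⟩, (.cons (nat_lit 892) (nat_lit 661) (nat_lit 1320) (nat_lit 1) (.cons
 (nat_lit 2557) (nat_lit 2620) (nat_lit 290) (nat_lit 1) .nil)), (nat_lit 37), (nat_lit 19), (nat_lit 32),
 (nat_lit 1), (18, 33, 44), [927, 2418], 1⟩,
  ⟨⟨9, 4, -61, 40, 23, -10, 22, -32, -29⟩, (.cons (nat_lit 892) (nat_lit 661) (nat_lit 1320) (nat_lit 1) (.cons
 (nat_lit 2557) (nat_lit 2620) (nat_lit 290) (nat_lit 1) .nil)), (nat_lit 37), (nat_lit 19), (nat_lit 32),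
 (nat_lit 1), (18, 33, 44), [927, 2418], 1⟩,
  ⟨⟨9, 4, -61, -40, -23, 10, 22, -32, -29⟩, (.cons (nat_lit 291) (nat_lit 249) (nat_lit 1112) (nat_lit 1)
 (.cons (nat_lit 2781) (nat_lit 284) (nat_lit 140) (nat_lit 1) .nil)), (nat_lit 17), (nat_lit 23), (nat_lit
 65), (nat_lit 1), (18, 14, 44), [472, 2051], 28⟩,
  ⟨⟨9, 4, -61, 40, 23, -10, 22, -32, -29⟩, (.cons (nat_lit 892) (nat_lit 661) (nat_lit 1320) (nat_lit 1) (.cons
 (nat_lit 2557) (nat_lit 2620) (nat_lit 290) (nat_lit 1) .nil)), (nat_lit 37), (nat_lit 19), (nat_lit 32),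
 (nat_lit 1), (18, 33, 44), [927, 2418], 1⟩,
  ⟨⟨13, -36, 32, -40, -23, 10, 22, -32, -29⟩, (.cons (nat_lit 1166) (nat_lit 1678) (nat_lit 736) (nat_lit 1)
 (.cons (nat_lit 1116) (nat_lit 263) (nat_lit 72) (nat_lit 1) .nil)), (nat_lit 59), (nat_lit 44), (nat_lit 58),
 (nat_lit 1), (26, 14, 44), [989, 2351], 50⟩,
  ⟨⟨13, -36, 32, 40, 23, -10, 22, -32, -29⟩, (.cons (nat_lit 236) (nat_lit 1454) (nat_lit 1085) (nat_lit 1)
 (.cons (nat_lit 2325) (nat_lit 1794) (nat_lit 1092) (nat_lit 1) .nil)), (nat_lit 69), (nat_lit 24), (nat_lit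
 10), (nat_lit 1), (26, 33, 44), [128, 2130], 14⟩,
  ⟨⟨13, -36, 32, -40, -23, 10, 22, -32, -29⟩, (.cons (nat_lit 1166) (nat_lit 1678) (nat_lit 736) (nat_lit 1)
 (.cons (nat_lit 1116) (nat_lit 263) (nat_lit 72) (nat_lit 1) .nil)), (nat_lit 59), (nat_lit 44), (nat_lit 58),
 (nat_lit 1), (26, 14, 44), [989, 2351], 50⟩,
  ⟨⟨9, 4, -61, 40, 23, -10, 22, -32, -29⟩, (.cons (nat_lit 892) (nat_lit 661) (nat_lit 1320) (nat_lit 1) (.cons
 (nat_lit 2557) (nat_lit 2620) (nat_lit 290) (nat_lit 1) .nil)), (nat_lit 37), (nat_lit 19), (nat_lit 32),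
 (nat_lit 1), (18, 33, 44), [927, 2418], 1⟩,
  ⟨⟨9, 4, -61, 40, 23, -10, 22, -32, -29⟩, (.cons (nat_lit 892) (nat_lit 661) (nat_lit 1320) (nat_lit 1) (.cons
 (nat_lit 2557) (nat_lit 2620) (nat_lit 290) (nat_lit 1) .nil)), (nat_lit 37), (nat_lit 19), (nat_lit 32),
 (nat_lit 1), (18, 33, 44), [927, 2418], 1⟩,
  ⟨⟨9, 4, -61, 40, 23, -10, 22, -32, -29⟩, (.cons (nat_lit 892) (nat_lit 661) (nat_lit 1320) (nat_lit 1) (.cons
 (nat_lit 2557) (nat_lit 2620) (nat_lit 290) (nat_lit 1) .nil)), (nat_lit 37), (nat_lit 19), (nat_lit 32),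
 (nat_lit 1), (18, 33, 44), [927, 2418], 1⟩,
  ⟨⟨9, 4, -61, 40, 23, -10, 22, -32, -29⟩, (.cons (nat_lit 892) (nat_lit 661) (nat_lit 1320) (nat_lit 1) (.cons
 (nat_lit 2557) (nat_lit 2620) (nat_lit 290) (nat_lit 1) .nil)), (nat_lit 37), (nat_lit 19), (nat_lit 32),
 (nat_lit 1), (18, 33, 44), [927, 2418], 1⟩,
  ⟨⟨13, -36, 32, 40, 23, -10, 22, -32, -29⟩, (.cons (nat_lit 236) (nat_lit 1454) (nat_lit 1085) (nat_lit 1)
 (.cons (nat_lit 2325) (nat_lit 1794) (nat_lit 1092) (nat_lit 1) .nil)), (nat_lit 69), (nat_lit 24), (nat_lit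
 10), (nat_lit 1), (26, 33, 44), [128, 2130], 14⟩,
  ⟨⟨13, -36, 32, -40, -23, 10, 22, -32, -29⟩, (.cons (nat_lit 1166) (nat_lit 1678) (nat_lit 736) (nat_lit 1)
 (.cons (nat_lit 1116) (nat_lit 263) (nat_lit 72) (nat_lit 1) .nil)), (nat_lit 59), (nat_lit 44), (nat_lit 58),
 (nat_lit 1), (26, 14, 44), [989, 2351], 50⟩,
  ⟨⟨9, 4, -61, 40, 23, -10, 22, -32, -29⟩, (.cons (nat_lit 892) (nat_lit 661) (nat_lit 1320) (nat_lit 1) (.cons
 (nat_lit 2557) (nat_lit 2620) (nat_lit 290) (nat_lit 1) .nil)), (nat_lit 37), (nat_lit 19), (nat_lit 32),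
 (nat_lit 1), (18, 33, 44), [927, 2418], 1⟩,
  ⟨⟨9, 4, -61, 40, 23, -10, 22, -32, -29⟩, (.cons (nat_lit 892) (nat_lit 661) (nat_lit 1320) (nat_lit 1) (.cons
 (nat_lit 2557) (nat_lit 2620) (nat_lit 290) (nat_lit 1) .nil)), (nat_lit 37), (nat_lit 19), (nat_lit 32),
 (nat_lit 1), (18, 33, 44), [927, 2418], 1⟩,
  ⟨⟨9, 4, -61, 40, 23, -10, 22, -32, -29⟩, (.cons (nat_lit 892) (nat_lit 661) (nat_lit 1320) (nat_lit 1) (.cons
 (nat_lit 2557) (nat_lit 2620) (nat_lit 290) (nat_lit 1) .nil)), (nat_lit 37), (nat_lit 19), (nat_lit 32),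
 (nat_lit 1), (18, 33, 44), [927, 2418], 1⟩,
  ⟨⟨9, 4, -61, -40, -23, 10, 22, -32, -29⟩, (.cons (nat_lit 291) (nat_lit 249) (nat_lit 1112) (nat_lit 1)
 (.cons (nat_lit 2781) (nat_lit 284) (nat_lit 140) (nat_lit 1) .nil)), (nat_lit 17), (nat_lit 23), (nat_lit
 65), (nat_lit 1), (18, 14, 44), [472, 2051], 28⟩,
  ⟨⟨13, -36, 32, -40, -23, 10, 22, -32, -29⟩, (.cons (nat_lit 1166) (nat_lit 1678) (nat_lit 736) (nat_lit 1)
 (.cons (nat_lit 1116) (nat_lit 263) (nat_lit 72) (nat_lit 1) .nil)), (nat_lit 59), (nat_lit 44), (nat_lit 58),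
 (nat_lit 1), (26, 14, 44), [989, 2351], 50⟩,
  ⟨⟨13, -36, 32, -40, -23, 10, 22, -32, -29⟩, (.cons (nat_lit 1166) (nat_lit 1678) (nat_lit 736) (nat_lit 1)
 (.cons (nat_lit 1116) (nat_lit 263) (nat_lit 72) (nat_lit 1) .nil)), (nat_lit 59), (nat_lit 44), (nat_lit 58),
 (nat_lit 1), (26, 14, 44), [989, 2351], 50⟩,
  ⟨⟨13, -36, 32, 40, 23, -10, 22, -32, -29⟩, (.cons (nat_lit 236) (nat_lit 1454) (nat_lit 1085) (nat_lit 1)
 (.cons (nat_lit 2325) (nat_lit 1794) (nat_lit 1092) (nat_lit 1) .nil)), (nat_lit 69), (nat_lit 24), (nat_lit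
 10), (nat_lit 1), (26, 33, 44), [128, 2130], 14⟩,
  ⟨⟨9, 4, -61, 40, 23, -10, 22, -32, -29⟩, (.cons (nat_lit 892) (nat_lit 661) (nat_lit 1320) (nat_lit 1) (.cons
 (nat_lit 2557) (nat_lit 2620) (nat_lit 290) (nat_lit 1) .nil)), (nat_lit 37), (nat_lit 19), (nat_lit 32),
 (nat_lit 1), (18, 33, 44), [927, 2418], 1⟩,
  ⟨⟨9, 4, -61, -40, -23, 10, 22, -32, -29⟩, (.cons (nat_lit 291) (nat_lit 249) (nat_lit 1112) (nat_lit 1)
 (.cons (nat_lit 2781) (nat_lit 284) (nat_lit 140) (nat_lit 1) .nil)), (nat_lit 17), (nat_lit 23), (nat_lit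
 65), (nat_lit 1), (18, 14, 44), [472, 2051], 28⟩,
  ⟨⟨9, 4, -61, 40, 23, -10, 22, -32, -29⟩, (.cons (nat_lit 892) (nat_lit 661) (nat_lit 1320) (nat_lit 1) (.cons
 (nat_lit 2557) (nat_lit 2620) (nat_lit 290) (nat_lit 1) .nil)), (nat_lit 37), (nat_lit 19), (nat_lit 32),
 (nat_lit 1), (18, 33, 44), [927, 2418], 1⟩,
  ⟨⟨9, 4, -61, 40, 23, -10, 22, -32, -29⟩, (.cons (nat_lit 892) (nat_lit 661) (nat_lit 1320) (nat_lit 1) (.cons
 (nat_lit 2557) (nat_lit 2620) (nat_lit 290) (nat_lit 1) .nil)), (nat_lit 37), (nat_lit 19), (nat_lit 32),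
 (nat_lit 1), (18, 33, 44), [927, 2418], 1⟩,
  ⟨⟨9, 4, -61, 40, 23, -10, 22, -32, -29⟩, (.cons (nat_lit 892) (nat_lit 661) (nat_lit 1320) (nat_lit 1) (.cons
 (nat_lit 2557) (nat_lit 2620) (nat_lit 290) (nat_lit 1) .nil)), (nat_lit 37), (nat_lit 19), (nat_lit 32),
 (nat_lit 1), (18, 33, 44), [927, 2418], 1⟩,
  ⟨⟨9, 4, -61, -40, -23, 10, 22, -32, -29⟩, (.cons (nat_lit 291) (nat_lit 249) (nat_lit 1112) (nat_lit 1)
 (.cons (nat_lit 2781) (nat_lit 284) (nat_lit 140) (nat_lit 1) .nil)), (nat_lit 17), (nat_lit 23), (nat_lit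
 65), (nat_lit 1), (18, 14, 44), [472, 2051], 28⟩,
  ⟨⟨9, 4, -61, -40, -23, 10, 22, -32, -29⟩, (.cons (nat_lit 291) (nat_lit 249) (nat_lit 1112) (nat_lit 1)
 (.cons (nat_lit 2781) (nat_lit 284) (nat_lit 140) (nat_lit 1) .nil)), (nat_lit 17), (nat_lit 23), (nat_lit
 65), (nat_lit 1), (18, 14, 44), [472, 2051], 28⟩,
  ⟨⟨9, 4, -61, 40, 23, -10, 22, -32, -29⟩, (.cons (nat_lit 892) (nat_lit 661) (nat_lit 1320) (nat_lit 1) (.cons
 (nat_lit 2557) (nat_lit 2620) (nat_lit 290) (nat_lit 1) .nil)), (nat_lit 37), (nat_lit 19), (nat_lit 32),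
 (nat_lit 1), (18, 33, 44), [927, 2418], 1⟩,
  ⟨⟨13, -36, 32, -40, -23, 10, 22, -32, -29⟩, (.cons (nat_lit 1166) (nat_lit 1678) (nat_lit 736) (nat_lit 1)
 (.cons (nat_lit 1116) (nat_lit 263) (nat_lit 72) (nat_lit 1) .nil)), (nat_lit 59), (nat_lit 44), (nat_lit 58),
 (nat_lit 1), (26, 14, 44), [989, 2351], 50⟩,
  ⟨⟨9, 4, -61, 40, 23, -10, 22, -32, -29⟩, (.cons (nat_lit 892) (nat_lit 661) (nat_lit 1320) (nat_lit 1) (.cons
 (nat_lit 2557) (nat_lit 2620) (nat_lit 290) (nat_lit 1) .nil)), (nat_lit 37), (nat_lit 19), (nat_lit 32),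
 (nat_lit 1), (18, 33, 44), [927, 2418], 1⟩,
  ⟨⟨9, 4, -61, 40, 23, -10, 22, -32, -29⟩, (.cons (nat_lit 892) (nat_lit 661) (nat_lit 1320) (nat_lit 1) (.cons
 (nat_lit 2557) (nat_lit 2620) (nat_lit 290) (nat_lit 1) .nil)), (nat_lit 37), (nat_lit 19), (nat_lit 32),
 (nat_lit 1), (18, 33, 44), [927, 2418], 1⟩,
  ⟨⟨9, 4, -61, 40, 23, -10, 22, -32, -29⟩, (.cons (nat_lit 892) (nat_lit 661) (nat_lit 1320) (nat_lit 1) (.cons
 (nat_lit 2557) (nat_lit 2620) (nat_lit 290) (nat_lit 1) .nil)), (nat_lit 37), (nat_lit 19), (nat_lit 32),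
 (nat_lit 1), (18, 33, 44), [927, 2418], 1⟩,
  ⟨⟨9, 4, -61, 40, 23, -10, 22, -32, -29⟩, (.cons (nat_lit 892) (nat_lit 661) (nat_lit 1320) (nat_lit 1) (.cons
 (nat_lit 2557) (nat_lit 2620) (nat_lit 290) (nat_lit 1) .nil)), (nat_lit 37), (nat_lit 19), (nat_lit 32),
 (nat_lit 1), (18, 33, 44), [927, 2418], 1⟩,
  ⟨⟨9, 4, -61, 40, 23, -10, 22, -32, -29⟩, (.cons (nat_lit 892) (nat_lit 661) (nat_lit 1320) (nat_lit 1) (.cons
 (nat_lit 2557) (nat_lit 2620) (nat_lit 290) (nat_lit 1) .nil)), (nat_lit 37), (nat_lit 19), (nat_lit 32),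
 (nat_lit 1), (18, 33, 44), [927, 2418], 1⟩,
  ⟨⟨9, 4, -61, 40, 23, -10, 22, -32, -29⟩, (.cons (nat_lit 892) (nat_lit 661) (nat_lit 1320) (nat_lit 1) (.cons
 (nat_lit 2557) (nat_lit 2620) (nat_lit 290) (nat_lit 1) .nil)), (nat_lit 37), (nat_lit 19), (nat_lit 32),
 (nat_lit 1), (18, 33, 44), [927, 2418], 1⟩,
  ⟨⟨9, 4, -61, 40, 23, -10, 22, -32, -29⟩, (.cons (nat_lit 892) (nat_lit 661) (nat_lit 1320) (nat_lit 1) (.cons
 (nat_lit 2557) (nat_lit 2620) (nat_lit 290) (nat_lit 1) .nil)), (nat_lit 37), (nat_lit 19), (nat_lit 32),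
 (nat_lit 1), (18, 33, 44), [927, 2418], 1⟩]

/-- Moves. -/
noncomputable def t0_18 : List Mv := [
  ⟨⟨19, 0, -63, 0, -47, 0, 42, 0, -23⟩, (.cons (nat_lit 1748) (nat_lit 1366) (nat_lit 963) (nat_lit 1) (.cons
 (nat_lit 1268) (nat_lit 845) (nat_lit 1757) (nat_lit 1) .nil)), (nat_lit 47), (nat_lit 47), (nat_lit 34),
 (nat_lit 1), (16, 0, 23), [1564, 279], 51⟩,
  ⟨⟨19, 0, -63, 0, -47, 0, 42, 0, -23⟩, (.cons (nat_lit 1748) (nat_lit 1366) (nat_lit 963) (nat_lit 1) (.cons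
 (nat_lit 1268) (nat_lit 845) (nat_lit 1757) (nat_lit 1) .nil)), (nat_lit 47), (nat_lit 47), (nat_lit 34),
 (nat_lit 1), (16, 0, 23), [1564, 279], 51⟩,
  ⟨⟨19, 0, -63, 0, -47, 0, 42, 0, -23⟩, (.cons (nat_lit 1748) (nat_lit 1366) (nat_lit 963) (nat_lit 1) (.cons
 (nat_lit 1268) (nat_lit 845) (nat_lit 1757) (nat_lit 1) .nil)), (nat_lit 47), (nat_lit 47), (nat_lit 34),
 (nat_lit 1), (16, 0, 23), [1564, 279], 51⟩,
  ⟨⟨19, 0, -63, 0, -47, 0, 42, 0, -23⟩, (.cons (nat_lit 1748) (nat_lit 1366) (nat_lit 963) (nat_lit 1) (.cons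
 (nat_lit 1268) (nat_lit 845) (nat_lit 1757) (nat_lit 1) .nil)), (nat_lit 47), (nat_lit 47), (nat_lit 34),
 (nat_lit 1), (16, 0, 23), [1564, 279], 51⟩,
  ⟨⟨19, 0, -63, 0, -47, 0, 42, 0, -23⟩, (.cons (nat_lit 1748) (nat_lit 1366) (nat_lit 963) (nat_lit 1) (.cons
 (nat_lit 1268) (nat_lit 845) (nat_lit 1757) (nat_lit 1) .nil)), (nat_lit 47), (nat_lit 47), (nat_lit 34),
 (nat_lit 1), (16, 0, 23), [1564, 279], 51⟩,
  ⟨⟨19, 0, -63, 0, -47, 0, 42, 0, -23⟩, (.cons (nat_lit 1748) (nat_lit 1366) (nat_lit 963) (nat_lit 1) (.cons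
 (nat_lit 1268) (nat_lit 845) (nat_lit 1757) (nat_lit 1) .nil)), (nat_lit 47), (nat_lit 47), (nat_lit 34),
 (nat_lit 1), (16, 0, 23), [1564, 279], 51⟩,
  ⟨⟨19, 0, -63, 0, 47, 0, 42, 0, -23⟩, (.cons (nat_lit 1403) (nat_lit 1377) (nat_lit 943) (nat_lit 1) (.cons
 (nat_lit 1672) (nat_lit 303) (nat_lit 517) (nat_lit 1) .nil)), (nat_lit 4), (nat_lit 54), (nat_lit 30),
 (nat_lit 1), (16, 0, 23), [1784, 2533], 18⟩,
  ⟨⟨19, 0, -63, 0, -47, 0, 42, 0, -23⟩, (.cons (nat_lit 1748) (nat_lit 1366) (nat_lit 963) (nat_lit 1) (.cons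
 (nat_lit 1268) (nat_lit 845) (nat_lit 1757) (nat_lit 1) .nil)), (nat_lit 47), (nat_lit 47), (nat_lit 34),
 (nat_lit 1), (16, 0, 23), [1564, 279], 51⟩,
  ⟨⟨19, 0, -63, 0, 47, 0, 42, 0, -23⟩, (.cons (nat_lit 1403) (nat_lit 1377) (nat_lit 943) (nat_lit 1) (.cons
 (nat_lit 1672) (nat_lit 303) (nat_lit 517) (nat_lit 1) .nil)), (nat_lit 4), (nat_lit 54), (nat_lit 30),
 (nat_lit 1), (16, 0, 23), [1784, 2533], 18⟩,
  ⟨⟨19, 0, -63, 0, -47, 0, 42, 0, -23⟩, (.cons (nat_lit 1748) (nat_lit 1366) (nat_lit 963) (nat_lit 1) (.cons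
 (nat_lit 1268) (nat_lit 845) (nat_lit 1757) (nat_lit 1) .nil)), (nat_lit 47), (nat_lit 47), (nat_lit 34),
 (nat_lit 1), (16, 0, 23), [1564, 279], 51⟩,
  ⟨⟨19, 0, -63, 0, -47, 0, 42, 0, -23⟩, (.cons (nat_lit 1748) (nat_lit 1366) (nat_lit 963) (nat_lit 1) (.cons
 (nat_lit 1268) (nat_lit 845) (nat_lit 1757) (nat_lit 1) .nil)), (nat_lit 47), (nat_lit 47), (nat_lit 34),
 (nat_lit 1), (16, 0, 23), [1564, 279], 51⟩,
  ⟨⟨19, 0, -63, 0, -47, 0, 42, 0, -23⟩, (.cons (nat_lit 1748) (nat_lit 1366) (nat_lit 963) (nat_lit 1) (.cons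
 (nat_lit 1268) (nat_lit 845) (nat_lit 1757) (nat_lit 1) .nil)), (nat_lit 47), (nat_lit 47), (nat_lit 34),
 (nat_lit 1), (16, 0, 23), [1564, 279], 51⟩,
  ⟨⟨19, 0, -63, 0, -47, 0, 42, 0, -23⟩, (.cons (nat_lit 1748) (nat_lit 1366) (nat_lit 963) (nat_lit 1) (.cons
 (nat_lit 1268) (nat_lit 845) (nat_lit 1757) (nat_lit 1) .nil)), (nat_lit 47), (nat_lit 47), (nat_lit 34),
 (nat_lit 1), (16, 0, 23), [1564, 279], 51⟩,
  ⟨⟨23, 0, 40, 0, -47, 0, 42, 0, -23⟩, (.cons (nat_lit 2012) (nat_lit 749) (nat_lit 728) (nat_lit 1) (.cons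
 (nat_lit 2808) (nat_lit 738) (nat_lit 415) (nat_lit 1) .nil)), (nat_lit 70), (nat_lit 26), (nat_lit 29),
 (nat_lit 1), (7, 0, 23), [154, 1388], 15⟩,
  ⟨⟨19, 0, -63, 0, -47, 0, 42, 0, -23⟩, (.cons (nat_lit 1748) (nat_lit 1366) (nat_lit 963) (nat_lit 1) (.cons
 (nat_lit 1268) (nat_lit 845) (nat_lit 1757) (nat_lit 1) .nil)), (nat_lit 47), (nat_lit 47), (nat_lit 34),
 (nat_lit 1), (16, 0, 23), [1564, 279], 51⟩,
  ⟨⟨23, 0, 40, 0, 47, 0, 42, 0, -23⟩, (.cons (nat_lit 1323) (nat_lit 550) (nat_lit 567) (nat_lit 1) (.cons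
 (nat_lit 2808) (nat_lit 2365) (nat_lit 2404) (nat_lit 1) .nil)), (nat_lit 70), (nat_lit 48), (nat_lit 1),
 (nat_lit 1), (7, 0, 23), [1267, 2115], 31⟩,
  ⟨⟨23, 0, 40, 0, 47, 0, 42, 0, -23⟩, (.cons (nat_lit 1323) (nat_lit 550) (nat_lit 567) (nat_lit 1) (.cons
 (nat_lit 2808) (nat_lit 2365) (nat_lit 2404) (nat_lit 1) .nil)), (nat_lit 70), (nat_lit 48), (nat_lit 1),
 (nat_lit 1), (7, 0, 23), [1267, 2115], 31⟩,
  ⟨⟨23, 0, 40, 0, -47, 0, 42, 0, -23⟩, (.cons (nat_lit 2012) (nat_lit 749) (nat_lit 728) (nat_lit 1) (.cons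
 (nat_lit 2808) (nat_lit 738) (nat_lit 415) (nat_lit 1) .nil)), (nat_lit 70), (nat_lit 26), (nat_lit 29),
 (nat_lit 1), (7, 0, 23), [154, 1388], 15⟩,
  ⟨⟨23, 0, 40, 0, -47, 0, 42, 0, -23⟩, (.cons (nat_lit 2012) (nat_lit 749) (nat_lit 728) (nat_lit 1) (.cons
 (nat_lit 2808) (nat_lit 738) (nat_lit 415) (nat_lit 1) .nil)), (nat_lit 70), (nat_lit 26), (nat_lit 29),
 (nat_lit 1), (7, 0, 23), [154, 1388], 15⟩,
  ⟨⟨19, 0, -63, 0, 47, 0, 42, 0, -23⟩, (.cons (nat_lit 1403) (nat_lit 1377) (nat_lit 943) (nat_lit 1) (.cons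
 (nat_lit 1672) (nat_lit 303) (nat_lit 517) (nat_lit 1) .nil)), (nat_lit 4), (nat_lit 54), (nat_lit 30),
 (nat_lit 1), (16, 0, 23), [1784, 2533], 18⟩,
  ⟨⟨23, 0, 40, 0, 47, 0, 42, 0, -23⟩, (.cons (nat_lit 1323) (nat_lit 550) (nat_lit 567) (nat_lit 1) (.cons
 (nat_lit 2808) (nat_lit 2365) (nat_lit 2404) (nat_lit 1) .nil)), (nat_lit 70), (nat_lit 48), (nat_lit 1),
 (nat_lit 1), (7, 0, 23), [1267, 2115], 31⟩,
  ⟨⟨19, 0, -63, 0, -47, 0, 42, 0, -23⟩, (.cons (nat_lit 1748) (nat_lit 1366) (nat_lit 963) (nat_lit 1) (.cons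
 (nat_lit 1268) (nat_lit 845) (nat_lit 1757) (nat_lit 1) .nil)), (nat_lit 47), (nat_lit 47), (nat_lit 34),
 (nat_lit 1), (16, 0, 23), [1564, 279], 51⟩,
  ⟨⟨19, 0, -63, 0, -47, 0, 42, 0, -23⟩, (.cons (nat_lit 1748) (nat_lit 1366) (nat_lit 963) (nat_lit 1) (.cons
 (nat_lit 1268) (nat_lit 845) (nat_lit 1757) (nat_lit 1) .nil)), (nat_lit 47), (nat_lit 47), (nat_lit 34),
 (nat_lit 1), (16, 0, 23), [1564, 279], 51⟩,
  ⟨⟨19, 0, -63, 0, 47, 0, 42, 0, -23⟩, (.cons (nat_lit 1403) (nat_lit 1377) (nat_lit 943) (nat_lit 1) (.cons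
 (nat_lit 1672) (nat_lit 303) (nat_lit 517) (nat_lit 1) .nil)), (nat_lit 4), (nat_lit 54), (nat_lit 30),
 (nat_lit 1), (16, 0, 23), [1784, 2533], 18⟩,
  ⟨⟨19, 0, -63, 0, -47, 0, 42, 0, -23⟩, (.cons (nat_lit 1748) (nat_lit 1366) (nat_lit 963) (nat_lit 1) (.cons
 (nat_lit 1268) (nat_lit 845) (nat_lit 1757) (nat_lit 1) .nil)), (nat_lit 47), (nat_lit 47), (nat_lit 34),
 (nat_lit 1), (16, 0, 23), [1564, 279], 51⟩,
  ⟨⟨19, 0, -63, 0, -47, 0, 42, 0, -23⟩, (.cons (nat_lit 1748) (nat_lit 1366) (nat_lit 963) (nat_lit 1) (.cons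
 (nat_lit 1268) (nat_lit 845) (nat_lit 1757) (nat_lit 1) .nil)), (nat_lit 47), (nat_lit 47), (nat_lit 34),
 (nat_lit 1), (16, 0, 23), [1564, 279], 51⟩,
  ⟨⟨19, 0, -63, 0, -47, 0, 42, 0, -23⟩, (.cons (nat_lit 1748) (nat_lit 1366) (nat_lit 963) (nat_lit 1) (.cons
 (nat_lit 1268) (nat_lit 845) (nat_lit 1757) (nat_lit 1) .nil)), (nat_lit 47), (nat_lit 47), (nat_lit 34),
 (nat_lit 1), (16, 0, 23), [1564, 279], 51⟩,
  ⟨⟨19, 0, -63, 0, -47, 0, 42, 0, -23⟩, (.cons (nat_lit 1748) (nat_lit 1366) (nat_lit 963) (nat_lit 1) (.cons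
 (nat_lit 1268) (nat_lit 845) (nat_lit 1757) (nat_lit 1) .nil)), (nat_lit 47), (nat_lit 47), (nat_lit 34),
 (nat_lit 1), (16, 0, 23), [1564, 279], 51⟩,
  ⟨⟨19, 0, -63, 0, 47, 0, 42, 0, -23⟩, (.cons (nat_lit 1403) (nat_lit 1377) (nat_lit 943) (nat_lit 1) (.cons
 (nat_lit 1672) (nat_lit 303) (nat_lit 517) (nat_lit 1) .nil)), (nat_lit 4), (nat_lit 54), (nat_lit 30),
 (nat_lit 1), (16, 0, 23), [1784, 2533], 18⟩,
  ⟨⟨19, 0, -63, 0, -47, 0, 42, 0, -23⟩, (.cons (nat_lit 1748) (nat_lit 1366) (nat_lit 963) (nat_lit 1) (.cons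
 (nat_lit 1268) (nat_lit 845) (nat_lit 1757) (nat_lit 1) .nil)), (nat_lit 47), (nat_lit 47), (nat_lit 34),
 (nat_lit 1), (16, 0, 23), [1564, 279], 51⟩,
  ⟨⟨19, 0, -63, 0, -47, 0, 42, 0, -23⟩, (.cons (nat_lit 1748) (nat_lit 1366) (nat_lit 963) (nat_lit 1) (.cons
 (nat_lit 1268) (nat_lit 845) (nat_lit 1757) (nat_lit 1) .nil)), (nat_lit 47), (nat_lit 47), (nat_lit 34),
 (nat_lit 1), (16, 0, 23), [1564, 279], 51⟩,
  ⟨⟨19, 0, -63, 0, -47, 0, 42, 0, -23⟩, (.cons (nat_lit 1748) (nat_lit 1366) (nat_lit 963) (nat_lit 1) (.cons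
 (nat_lit 1268) (nat_lit 845) (nat_lit 1757) (nat_lit 1) .nil)), (nat_lit 47), (nat_lit 47), (nat_lit 34),
 (nat_lit 1), (16, 0, 23), [1564, 279], 51⟩,
  ⟨⟨19, 0, -63, 0, -47, 0, 42, 0, -23⟩, (.cons (nat_lit 1748) (nat_lit 1366) (nat_lit 963) (nat_lit 1) (.cons
 (nat_lit 1268) (nat_lit 845) (nat_lit 1757) (nat_lit 1) .nil)), (nat_lit 47), (nat_lit 47), (nat_lit 34),
 (nat_lit 1), (16, 0, 23), [1564, 279], 51⟩,
  ⟨⟨19, 0, -63, 0, 47, 0, 42, 0, -23⟩, (.cons (nat_lit 1403) (nat_lit 1377) (nat_lit 943) (nat_lit 1) (.cons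
 (nat_lit 1672) (nat_lit 303) (nat_lit 517) (nat_lit 1) .nil)), (nat_lit 4), (nat_lit 54), (nat_lit 30),
 (nat_lit 1), (16, 0, 23), [1784, 2533], 18⟩,
  ⟨⟨19, 0, -63, 0, -47, 0, 42, 0, -23⟩, (.cons (nat_lit 1748) (nat_lit 1366) (nat_lit 963) (nat_lit 1) (.cons
 (nat_lit 1268) (nat_lit 845) (nat_lit 1757) (nat_lit 1) .nil)), (nat_lit 47), (nat_lit 47), (nat_lit 34),
 (nat_lit 1), (16, 0, 23), [1564, 279], 51⟩,
  ⟨⟨23, 0, 40, 0, -47, 0, 42, 0, -23⟩, (.cons (nat_lit 2012) (nat_lit 749) (nat_lit 728) (nat_lit 1) (.cons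
 (nat_lit 2808) (nat_lit 738) (nat_lit 415) (nat_lit 1) .nil)), (nat_lit 70), (nat_lit 26), (nat_lit 29),
 (nat_lit 1), (7, 0, 23), [154, 1388], 15⟩,
  ⟨⟨23, 0, 40, 0, 47, 0, 42, 0, -23⟩, (.cons (nat_lit 1323) (nat_lit 550) (nat_lit 567) (nat_lit 1) (.cons
 (nat_lit 2808) (nat_lit 2365) (nat_lit 2404) (nat_lit 1) .nil)), (nat_lit 70), (nat_lit 48), (nat_lit 1),
 (nat_lit 1), (7, 0, 23), [1267, 2115], 31⟩,
  ⟨⟨19, 0, -63, 0, -47, 0, 42, 0, -23⟩, (.cons (nat_lit 1748) (nat_lit 1366) (nat_lit 963) (nat_lit 1) (.cons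
 (nat_lit 1268) (nat_lit 845) (nat_lit 1757) (nat_lit 1) .nil)), (nat_lit 47), (nat_lit 47), (nat_lit 34),
 (nat_lit 1), (16, 0, 23), [1564, 279], 51⟩,
  ⟨⟨23, 0, 40, 0, 47, 0, 42, 0, -23⟩, (.cons (nat_lit 1323) (nat_lit 550) (nat_lit 567) (nat_lit 1) (.cons
 (nat_lit 2808) (nat_lit 2365) (nat_lit 2404) (nat_lit 1) .nil)), (nat_lit 70), (nat_lit 48), (nat_lit 1),
 (nat_lit 1), (7, 0, 23), [1267, 2115], 31⟩,
  ⟨⟨23, 0, 40, 0, 47, 0, 42, 0, -23⟩, (.cons (nat_lit 1323) (nat_lit 550) (nat_lit 567) (nat_lit 1) (.cons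
 (nat_lit 2808) (nat_lit 2365) (nat_lit 2404) (nat_lit 1) .nil)), (nat_lit 70), (nat_lit 48), (nat_lit 1),
 (nat_lit 1), (7, 0, 23), [1267, 2115], 31⟩,
  ⟨⟨19, 0, -63, 0, -47, 0, 42, 0, -23⟩, (.cons (nat_lit 1748) (nat_lit 1366) (nat_lit 963) (nat_lit 1) (.cons
 (nat_lit 1268) (nat_lit 845) (nat_lit 1757) (nat_lit 1) .nil)), (nat_lit 47), (nat_lit 47), (nat_lit 34),
 (nat_lit 1), (16, 0, 23), [1564, 279], 51⟩,
  ⟨⟨23, 0, 40, 0, -47, 0, 42, 0, -23⟩, (.cons (nat_lit 2012) (nat_lit 749) (nat_lit 728) (nat_lit 1) (.cons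
 (nat_lit 2808) (nat_lit 738) (nat_lit 415) (nat_lit 1) .nil)), (nat_lit 70), (nat_lit 26), (nat_lit 29),
 (nat_lit 1), (7, 0, 23), [154, 1388], 15⟩,
  ⟨⟨23, 0, 40, 0, -47, 0, 42, 0, -23⟩, (.cons (nat_lit 2012) (nat_lit 749) (nat_lit 728) (nat_lit 1) (.cons
 (nat_lit 2808) (nat_lit 738) (nat_lit 415) (nat_lit 1) .nil)), (nat_lit 70), (nat_lit 26), (nat_lit 29),
 (nat_lit 1), (7, 0, 23), [154, 1388], 15⟩,
  ⟨⟨19, 0, -63, 0, 47, 0, 42, 0, -23⟩, (.cons (nat_lit 1403) (nat_lit 1377) (nat_lit 943) (nat_lit 1) (.cons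
 (nat_lit 1672) (nat_lit 303) (nat_lit 517) (nat_lit 1) .nil)), (nat_lit 4), (nat_lit 54), (nat_lit 30),
 (nat_lit 1), (16, 0, 23), [1784, 2533], 18⟩,
  ⟨⟨23, 0, 40, 0, -47, 0, 42, 0, -23⟩, (.cons (nat_lit 2012) (nat_lit 749) (nat_lit 728) (nat_lit 1) (.cons
 (nat_lit 2808) (nat_lit 738) (nat_lit 415) (nat_lit 1) .nil)), (nat_lit 70), (nat_lit 26), (nat_lit 29),
 (nat_lit 1), (7, 0, 23), [154, 1388], 15⟩,
  ⟨⟨23, 0, 40, 0, 47, 0, 42, 0, -23⟩, (.cons (nat_lit 1323) (nat_lit 550) (nat_lit 567) (nat_lit 1) (.cons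
 (nat_lit 2808) (nat_lit 2365) (nat_lit 2404) (nat_lit 1) .nil)), (nat_lit 70), (nat_lit 48), (nat_lit 1),
 (nat_lit 1), (7, 0, 23), [1267, 2115], 31⟩,
  ⟨⟨19, 0, -63, 0, -47, 0, 42, 0, -23⟩, (.cons (nat_lit 1748) (nat_lit 1366) (nat_lit 963) (nat_lit 1) (.cons
 (nat_lit 1268) (nat_lit 845) (nat_lit 1757) (nat_lit 1) .nil)), (nat_lit 47), (nat_lit 47), (nat_lit 34),
 (nat_lit 1), (16, 0, 23), [1564, 279], 51⟩]

/-- Moves. -/
noncomputable def t0_19 : List Mv := [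
  ⟨⟨-39, 32, 8, 20, 33, 20, 6, 24, -41⟩, (.cons (nat_lit 2020) (nat_lit 1741) (nat_lit 1969) (nat_lit 1) (.cons
 (nat_lit 2808) (nat_lit 2415) (nat_lit 296) (nat_lit 1) .nil)), (nat_lit 70), (nat_lit 23), (nat_lit 28),
 (nat_lit 1), (25, 39, 7), [150, 922], 2⟩,
  ⟨⟨45, -8, -49, 20, 33, 20, 6, 24, -41⟩, (.cons (nat_lit 2116) (nat_lit 1643) (nat_lit 1452) (nat_lit 1)
 (.cons (nat_lit 1773) (nat_lit 1644) (nat_lit 1088) (nat_lit 1) .nil)), (nat_lit 7), (nat_lit 44), (nat_lit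
 64), (nat_lit 1), (29, 39, 7), [9, 771], 34⟩,
  ⟨⟨-39, 32, 8, -20, -33, -20, 6, 24, -41⟩, (.cons (nat_lit 1775) (nat_lit 303) (nat_lit 587) (nat_lit 1)
 (.cons (nat_lit 2528) (nat_lit 2551) (nat_lit 1190) (nat_lit 1) .nil)), (nat_lit 9), (nat_lit 19), (nat_lit
 5), (nat_lit 1), (25, 8, 7), [1575, 1864], 66⟩,
  ⟨⟨-39, 32, 8, -20, -33, -20, 6, 24, -41⟩, (.cons (nat_lit 1775) (nat_lit 303) (nat_lit 587) (nat_lit 1)
 (.cons (nat_lit 2528) (nat_lit 2551) (nat_lit 1190) (nat_lit 1) .nil)), (nat_lit 9), (nat_lit 19), (nat_lit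
 5), (nat_lit 1), (25, 8, 7), [1575, 1864], 66⟩,
  ⟨⟨-39, 32, 8, -20, -33, -20, 6, 24, -41⟩, (.cons (nat_lit 1775) (nat_lit 303) (nat_lit 587) (nat_lit 1)
 (.cons (nat_lit 2528) (nat_lit 2551) (nat_lit 1190) (nat_lit 1) .nil)), (nat_lit 9), (nat_lit 19), (nat_lit
 5), (nat_lit 1), (25, 8, 7), [1575, 1864], 66⟩,
  ⟨⟨-39, 32, 8, -20, -33, -20, 6, 24, -41⟩, (.cons (nat_lit 1775) (nat_lit 303) (nat_lit 587) (nat_lit 1)
 (.cons (nat_lit 2528) (nat_lit 2551) (nat_lit 1190) (nat_lit 1) .nil)), (nat_lit 9), (nat_lit 19), (nat_lit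
 5), (nat_lit 1), (25, 8, 7), [1575, 1864], 66⟩,
  ⟨⟨45, -8, -49, -20, -33, -20, 6, 24, -41⟩, (.cons (nat_lit 2079) (nat_lit 1295) (nat_lit 493) (nat_lit 1)
 (.cons (nat_lit 1864) (nat_lit 2652) (nat_lit 1567) (nat_lit 1) .nil)), (nat_lit 33), (nat_lit 24), (nat_lit
 37), (nat_lit 1), (29, 8, 7), [2045, 1578], 1⟩,
  ⟨⟨-39, 32, 8, -20, -33, -20, 6, 24, -41⟩, (.cons (nat_lit 1775) (nat_lit 303) (nat_lit 587) (nat_lit 1)
 (.cons (nat_lit 2528) (nat_lit 2551) (nat_lit 1190) (nat_lit 1) .nil)), (nat_lit 9), (nat_lit 19), (nat_lit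
 5), (nat_lit 1), (25, 8, 7), [1575, 1864], 66⟩,
  ⟨⟨45, -8, -49, -20, -33, -20, 6, 24, -41⟩, (.cons (nat_lit 2079) (nat_lit 1295) (nat_lit 493) (nat_lit 1)
 (.cons (nat_lit 1864) (nat_lit 2652) (nat_lit 1567) (nat_lit 1) .nil)), (nat_lit 33), (nat_lit 24), (nat_lit
 37), (nat_lit 1), (29, 8, 7), [2045, 1578], 1⟩,
  ⟨⟨45, -8, -49, -20, -33, -20, 6, 24, -41⟩, (.cons (nat_lit 2079) (nat_lit 1295) (nat_lit 493) (nat_lit 1)
 (.cons (nat_lit 1864) (nat_lit 2652) (nat_lit 1567) (nat_lit 1) .nil)), (nat_lit 33), (nat_lit 24), (nat_lit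
 37), (nat_lit 1), (29, 8, 7), [2045, 1578], 1⟩,
  ⟨⟨-39, 32, 8, -20, -33, -20, 6, 24, -41⟩, (.cons (nat_lit 1775) (nat_lit 303) (nat_lit 587) (nat_lit 1)
 (.cons (nat_lit 2528) (nat_lit 2551) (nat_lit 1190) (nat_lit 1) .nil)), (nat_lit 9), (nat_lit 19), (nat_lit
 5), (nat_lit 1), (25, 8, 7), [1575, 1864], 66⟩,
  ⟨⟨-39, 32, 8, -20, -33, -20, 6, 24, -41⟩, (.cons (nat_lit 1775) (nat_lit 303) (nat_lit 587) (nat_lit 1)
 (.cons (nat_lit 2528) (nat_lit 2551) (nat_lit 1190) (nat_lit 1) .nil)), (nat_lit 9), (nat_lit 19), (nat_lit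
 5), (nat_lit 1), (25, 8, 7), [1575, 1864], 66⟩,
  ⟨⟨-39, 32, 8, -20, -33, -20, 6, 24, -41⟩, (.cons (nat_lit 1775) (nat_lit 303) (nat_lit 587) (nat_lit 1)
 (.cons (nat_lit 2528) (nat_lit 2551) (nat_lit 1190) (nat_lit 1) .nil)), (nat_lit 9), (nat_lit 19), (nat_lit
 5), (nat_lit 1), (25, 8, 7), [1575, 1864], 66⟩,
  ⟨⟨45, -8, -49, -20, -33, -20, 6, 24, -41⟩, (.cons (nat_lit 2079) (nat_lit 1295) (nat_lit 493) (nat_lit 1)
 (.cons (nat_lit 1864) (nat_lit 2652) (nat_lit 1567) (nat_lit 1) .nil)), (nat_lit 33), (nat_lit 24), (nat_lit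
 37), (nat_lit 1), (29, 8, 7), [2045, 1578], 1⟩,
  ⟨⟨-39, 32, 8, -20, -33, -20, 6, 24, -41⟩, (.cons (nat_lit 1775) (nat_lit 303) (nat_lit 587) (nat_lit 1)
 (.cons (nat_lit 2528) (nat_lit 2551) (nat_lit 1190) (nat_lit 1) .nil)), (nat_lit 9), (nat_lit 19), (nat_lit
 5), (nat_lit 1), (25, 8, 7), [1575, 1864], 66⟩,
  ⟨⟨45, -8, -49, 20, 33, 20, 6, 24, -41⟩, (.cons (nat_lit 2116) (nat_lit 1643) (nat_lit 1452) (nat_lit 1)
 (.cons (nat_lit 1773) (nat_lit 1644) (nat_lit 1088) (nat_lit 1) .nil)), (nat_lit 7), (nat_lit 44), (nat_lit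
 64), (nat_lit 1), (29, 39, 7), [9, 771], 34⟩,
  ⟨⟨-39, 32, 8, -20, -33, -20, 6, 24, -41⟩, (.cons (nat_lit 1775) (nat_lit 303) (nat_lit 587) (nat_lit 1)
 (.cons (nat_lit 2528) (nat_lit 2551) (nat_lit 1190) (nat_lit 1) .nil)), (nat_lit 9), (nat_lit 19), (nat_lit
 5), (nat_lit 1), (25, 8, 7), [1575, 1864], 66⟩,
  ⟨⟨-39, 32, 8, -20, -33, -20, 6, 24, -41⟩, (.cons (nat_lit 1775) (nat_lit 303) (nat_lit 587) (nat_lit 1)
 (.cons (nat_lit 2528) (nat_lit 2551) (nat_lit 1190) (nat_lit 1) .nil)), (nat_lit 9), (nat_lit 19), (nat_lit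
 5), (nat_lit 1), (25, 8, 7), [1575, 1864], 66⟩,
  ⟨⟨45, -8, -49, -20, -33, -20, 6, 24, -41⟩, (.cons (nat_lit 2079) (nat_lit 1295) (nat_lit 493) (nat_lit 1)
 (.cons (nat_lit 1864) (nat_lit 2652) (nat_lit 1567) (nat_lit 1) .nil)), (nat_lit 33), (nat_lit 24), (nat_lit
 37), (nat_lit 1), (29, 8, 7), [2045, 1578], 1⟩,
  ⟨⟨-39, 32, 8, -20, -33, -20, 6, 24, -41⟩, (.cons (nat_lit 1775) (nat_lit 303) (nat_lit 587) (nat_lit 1)
 (.cons (nat_lit 2528) (nat_lit 2551) (nat_lit 1190) (nat_lit 1) .nil)), (nat_lit 9), (nat_lit 19), (nat_lit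
 5), (nat_lit 1), (25, 8, 7), [1575, 1864], 66⟩,
  ⟨⟨-39, 32, 8, -20, -33, -20, 6, 24, -41⟩, (.cons (nat_lit 1775) (nat_lit 303) (nat_lit 587) (nat_lit 1)
 (.cons (nat_lit 2528) (nat_lit 2551) (nat_lit 1190) (nat_lit 1) .nil)), (nat_lit 9), (nat_lit 19), (nat_lit
 5), (nat_lit 1), (25, 8, 7), [1575, 1864], 66⟩,
  ⟨⟨45, -8, -49, -20, -33, -20, 6, 24, -41⟩, (.cons (nat_lit 2079) (nat_lit 1295) (nat_lit 493) (nat_lit 1)
 (.cons (nat_lit 1864) (nat_lit 2652) (nat_lit 1567) (nat_lit 1) .nil)), (nat_lit 33), (nat_lit 24), (nat_lit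
 37), (nat_lit 1), (29, 8, 7), [2045, 1578], 1⟩,
  ⟨⟨-39, 32, 8, -20, -33, -20, 6, 24, -41⟩, (.cons (nat_lit 1775) (nat_lit 303) (nat_lit 587) (nat_lit 1)
 (.cons (nat_lit 2528) (nat_lit 2551) (nat_lit 1190) (nat_lit 1) .nil)), (nat_lit 9), (nat_lit 19), (nat_lit
 5), (nat_lit 1), (25, 8, 7), [1575, 1864], 66⟩,
  ⟨⟨-39, 32, 8, -20, -33, -20, 6, 24, -41⟩, (.cons (nat_lit 1775) (nat_lit 303) (nat_lit 587) (nat_lit 1)
 (.cons (nat_lit 2528) (nat_lit 2551) (nat_lit 1190) (nat_lit 1) .nil)), (nat_lit 9), (nat_lit 19), (nat_lit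
 5), (nat_lit 1), (25, 8, 7), [1575, 1864], 66⟩,
  ⟨⟨45, -8, -49, 20, 33, 20, 6, 24, -41⟩, (.cons (nat_lit 2116) (nat_lit 1643) (nat_lit 1452) (nat_lit 1)
 (.cons (nat_lit 1773) (nat_lit 1644) (nat_lit 1088) (nat_lit 1) .nil)), (nat_lit 7), (nat_lit 44), (nat_lit
 64), (nat_lit 1), (29, 39, 7), [9, 771], 34⟩,
  ⟨⟨-39, 32, 8, -20, -33, -20, 6, 24, -41⟩, (.cons (nat_lit 1775) (nat_lit 303) (nat_lit 587) (nat_lit 1)
 (.cons (nat_lit 2528) (nat_lit 2551) (nat_lit 1190) (nat_lit 1) .nil)), (nat_lit 9), (nat_lit 19), (nat_lit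
 5), (nat_lit 1), (25, 8, 7), [1575, 1864], 66⟩,
  ⟨⟨45, -8, -49, 20, 33, 20, 6, 24, -41⟩, (.cons (nat_lit 2116) (nat_lit 1643) (nat_lit 1452) (nat_lit 1)
 (.cons (nat_lit 1773) (nat_lit 1644) (nat_lit 1088) (nat_lit 1) .nil)), (nat_lit 7), (nat_lit 44), (nat_lit
 64), (nat_lit 1), (29, 39, 7), [9, 771], 34⟩,
  ⟨⟨-39, 32, 8, -20, -33, -20, 6, 24, -41⟩, (.cons (nat_lit 1775) (nat_lit 303) (nat_lit 587) (nat_lit 1)
 (.cons (nat_lit 2528) (nat_lit 2551) (nat_lit 1190) (nat_lit 1) .nil)), (nat_lit 9), (nat_lit 19), (nat_lit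
 5), (nat_lit 1), (25, 8, 7), [1575, 1864], 66⟩,
  ⟨⟨-39, 32, 8, -20, -33, -20, 6, 24, -41⟩, (.cons (nat_lit 1775) (nat_lit 303) (nat_lit 587) (nat_lit 1)
 (.cons (nat_lit 2528) (nat_lit 2551) (nat_lit 1190) (nat_lit 1) .nil)), (nat_lit 9), (nat_lit 19), (nat_lit
 5), (nat_lit 1), (25, 8, 7), [1575, 1864], 66⟩,
  ⟨⟨-39, 32, 8, 20, 33, 20, 6, 24, -41⟩, (.cons (nat_lit 2020) (nat_lit 1741) (nat_lit 1969) (nat_lit 1) (.cons
 (nat_lit 2808) (nat_lit 2415) (nat_lit 296) (nat_lit 1) .nil)), (nat_lit 70), (nat_lit 23), (nat_lit 28),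
 (nat_lit 1), (25, 39, 7), [150, 922], 2⟩,
  ⟨⟨-39, 32, 8, -20, -33, -20, 6, 24, -41⟩, (.cons (nat_lit 1775) (nat_lit 303) (nat_lit 587) (nat_lit 1)
 (.cons (nat_lit 2528) (nat_lit 2551) (nat_lit 1190) (nat_lit 1) .nil)), (nat_lit 9), (nat_lit 19), (nat_lit
 5), (nat_lit 1), (25, 8, 7), [1575, 1864], 66⟩,
  ⟨⟨-39, 32, 8, -20, -33, -20, 6, 24, -41⟩, (.cons (nat_lit 1775) (nat_lit 303) (nat_lit 587) (nat_lit 1)
 (.cons (nat_lit 2528) (nat_lit 2551) (nat_lit 1190) (nat_lit 1) .nil)), (nat_lit 9), (nat_lit 19), (nat_lit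
 5), (nat_lit 1), (25, 8, 7), [1575, 1864], 66⟩,
  ⟨⟨45, -8, -49, -20, -33, -20, 6, 24, -41⟩, (.cons (nat_lit 2079) (nat_lit 1295) (nat_lit 493) (nat_lit 1)
 (.cons (nat_lit 1864) (nat_lit 2652) (nat_lit 1567) (nat_lit 1) .nil)), (nat_lit 33), (nat_lit 24), (nat_lit
 37), (nat_lit 1), (29, 8, 7), [2045, 1578], 1⟩,
  ⟨⟨45, -8, -49, 20, 33, 20, 6, 24, -41⟩, (.cons (nat_lit 2116) (nat_lit 1643) (nat_lit 1452) (nat_lit 1)
 (.cons (nat_lit 1773) (nat_lit 1644) (nat_lit 1088) (nat_lit 1) .nil)), (nat_lit 7), (nat_lit 44), (nat_lit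
 64), (nat_lit 1), (29, 39, 7), [9, 771], 34⟩,
  ⟨⟨45, -8, -49, 20, 33, 20, 6, 24, -41⟩, (.cons (nat_lit 2116) (nat_lit 1643) (nat_lit 1452) (nat_lit 1)
 (.cons (nat_lit 1773) (nat_lit 1644) (nat_lit 1088) (nat_lit 1) .nil)), (nat_lit 7), (nat_lit 44), (nat_lit
 64), (nat_lit 1), (29, 39, 7), [9, 771], 34⟩,
  ⟨⟨-39, 32, 8, 20, 33, 20, 6, 24, -41⟩, (.cons (nat_lit 2020) (nat_lit 1741) (nat_lit 1969) (nat_lit 1) (.cons
 (nat_lit 2808) (nat_lit 2415) (nat_lit 296) (nat_lit 1) .nil)), (nat_lit 70), (nat_lit 23), (nat_lit 28),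
 (nat_lit 1), (25, 39, 7), [150, 922], 2⟩,
  ⟨⟨45, -8, -49, 20, 33, 20, 6, 24, -41⟩, (.cons (nat_lit 2116) (nat_lit 1643) (nat_lit 1452) (nat_lit 1)
 (.cons (nat_lit 1773) (nat_lit 1644) (nat_lit 1088) (nat_lit 1) .nil)), (nat_lit 7), (nat_lit 44), (nat_lit
 64), (nat_lit 1), (29, 39, 7), [9, 771], 34⟩,
  ⟨⟨-39, 32, 8, 20, 33, 20, 6, 24, -41⟩, (.cons (nat_lit 2020) (nat_lit 1741) (nat_lit 1969) (nat_lit 1) (.cons
 (nat_lit 2808) (nat_lit 2415) (nat_lit 296) (nat_lit 1) .nil)), (nat_lit 70), (nat_lit 23), (nat_lit 28),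
 (nat_lit 1), (25, 39, 7), [150, 922], 2⟩,
  ⟨⟨-39, 32, 8, -20, -33, -20, 6, 24, -41⟩, (.cons (nat_lit 1775) (nat_lit 303) (nat_lit 587) (nat_lit 1)
 (.cons (nat_lit 2528) (nat_lit 2551) (nat_lit 1190) (nat_lit 1) .nil)), (nat_lit 9), (nat_lit 19), (nat_lit
 5), (nat_lit 1), (25, 8, 7), [1575, 1864], 66⟩,
  ⟨⟨-39, 32, 8, -20, -33, -20, 6, 24, -41⟩, (.cons (nat_lit 1775) (nat_lit 303) (nat_lit 587) (nat_lit 1)
 (.cons (nat_lit 2528) (nat_lit 2551) (nat_lit 1190) (nat_lit 1) .nil)), (nat_lit 9), (nat_lit 19), (nat_lit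
 5), (nat_lit 1), (25, 8, 7), [1575, 1864], 66⟩,
  ⟨⟨-39, 32, 8, 20, 33, 20, 6, 24, -41⟩, (.cons (nat_lit 2020) (nat_lit 1741) (nat_lit 1969) (nat_lit 1) (.cons
 (nat_lit 2808) (nat_lit 2415) (nat_lit 296) (nat_lit 1) .nil)), (nat_lit 70), (nat_lit 23), (nat_lit 28),
 (nat_lit 1), (25, 39, 7), [150, 922], 2⟩,
  ⟨⟨-39, 32, 8, -20, -33, -20, 6, 24, -41⟩, (.cons (nat_lit 1775) (nat_lit 303) (nat_lit 587) (nat_lit 1)
 (.cons (nat_lit 2528) (nat_lit 2551) (nat_lit 1190) (nat_lit 1) .nil)), (nat_lit 9), (nat_lit 19), (nat_lit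
 5), (nat_lit 1), (25, 8, 7), [1575, 1864], 66⟩,
  ⟨⟨-39, 32, 8, -20, -33, -20, 6, 24, -41⟩, (.cons (nat_lit 1775) (nat_lit 303) (nat_lit 587) (nat_lit 1)
 (.cons (nat_lit 2528) (nat_lit 2551) (nat_lit 1190) (nat_lit 1) .nil)), (nat_lit 9), (nat_lit 19), (nat_lit
 5), (nat_lit 1), (25, 8, 7), [1575, 1864], 66⟩,
  ⟨⟨-39, 32, 8, -20, -33, -20, 6, 24, -41⟩, (.cons (nat_lit 1775) (nat_lit 303) (nat_lit 587) (nat_lit 1)
 (.cons (nat_lit 2528) (nat_lit 2551) (nat_lit 1190) (nat_lit 1) .nil)), (nat_lit 9), (nat_lit 19), (nat_lit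
 5), (nat_lit 1), (25, 8, 7), [1575, 1864], 66⟩,
  ⟨⟨-39, 32, 8, 20, 33, 20, 6, 24, -41⟩, (.cons (nat_lit 2020) (nat_lit 1741) (nat_lit 1969) (nat_lit 1) (.cons
 (nat_lit 2808) (nat_lit 2415) (nat_lit 296) (nat_lit 1) .nil)), (nat_lit 70), (nat_lit 23), (nat_lit 28),
 (nat_lit 1), (25, 39, 7), [150, 922], 2⟩,
  ⟨⟨45, -8, -49, -20, -33, -20, 6, 24, -41⟩, (.cons (nat_lit 2079) (nat_lit 1295) (nat_lit 493) (nat_lit 1)
 (.cons (nat_lit 1864) (nat_lit 2652) (nat_lit 1567) (nat_lit 1) .nil)), (nat_lit 33), (nat_lit 24), (nat_lit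
 37), (nat_lit 1), (29, 8, 7), [2045, 1578], 1⟩,
  ⟨⟨-39, 32, 8, -20, -33, -20, 6, 24, -41⟩, (.cons (nat_lit 1775) (nat_lit 303) (nat_lit 587) (nat_lit 1)
 (.cons (nat_lit 2528) (nat_lit 2551) (nat_lit 1190) (nat_lit 1) .nil)), (nat_lit 9), (nat_lit 19), (nat_lit
 5), (nat_lit 1), (25, 8, 7), [1575, 1864], 66⟩]

/-- Moves. -/
noncomputable def t1_1 : List Mv := [
  mz,
  mz,
  mz,
  mz,
  ⟨⟨51, 20, -47, 10, -47, -30, -2, 20, -47⟩, (.cons (nat_lit 121) (nat_lit 1189) (nat_lit 1520) (nat_lit 1)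
 (.cons (nat_lit 649) (nat_lit 549) (nat_lit 1128) (nat_lit 1) .nil)), (nat_lit 51), (nat_lit 68), (nat_lit
 22), (nat_lit 1), (24, 39, 24), [604, 2166], 24⟩,
  ⟨⟨51, -20, -47, 10, 47, -30, -2, -20, -47⟩, (.cons (nat_lit 2163) (nat_lit 880) (nat_lit 131) (nat_lit 1)
 (.cons (nat_lit 2774) (nat_lit 1863) (nat_lit 2153) (nat_lit 1) .nil)), (nat_lit 63), (nat_lit 49), (nat_lit
 61), (nat_lit 1), (12, 46, 12), [2184, 2631], 14⟩,
  ⟨⟨25, -48, -36, -28, 5, -36, 40, 8, -47⟩, (.cons (nat_lit 1749) (nat_lit 1874) (nat_lit 708) (nat_lit 1)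
 (.cons (nat_lit 1038) (nat_lit 2186) (nat_lit 1875) (nat_lit 1) .nil)), (nat_lit 55), (nat_lit 38), (nat_lit
 67), (nat_lit 1), (37, 37, 38), [1249, 619], 37⟩,
  mz,
  mz,
  ⟨⟨-33, -20, -32, 8, 45, -34, 24, -24, -49⟩, (.cons (nat_lit 283) (nat_lit 1972) (nat_lit 1704) (nat_lit 1)
 (.cons (nat_lit 565) (nat_lit 1464) (nat_lit 1695) (nat_lit 1) .nil)), (nat_lit 46), (nat_lit 52), (nat_lit
 27), (nat_lit 1), (35, 14, 42), [479, 2241], 20⟩,
  ⟨⟨-15, -56, 4, 28, -5, -64, -40, -8, -7⟩, (.cons (nat_lit 978) (nat_lit 2190) (nat_lit 586) (nat_lit 1)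
 (.cons (nat_lit 1246) (nat_lit 501) (nat_lit 177) (nat_lit 1) .nil)), (nat_lit 17), (nat_lit 11), (nat_lit
 54), (nat_lit 1), (10, 52, 9), [883, 352], 51⟩,
  ⟨⟨15, -32, 44, 50, 17, -30, 14, -44, -19⟩, (.cons (nat_lit 1240) (nat_lit 1248) (nat_lit 88) (nat_lit 1)
 (.cons (nat_lit 2249) (nat_lit 1588) (nat_lit 82) (nat_lit 1) .nil)), (nat_lit 8), (nat_lit 63), (nat_lit 65),
 (nat_lit 1), (29, 26, 20), [507, 1562], 61⟩,
  ⟨⟨-51, 20, 4, -10, -47, -20, 2, 20, -49⟩, (.cons (nat_lit 1900) (nat_lit 1800) (nat_lit 924) (nat_lit 1)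
 (.cons (nat_lit 1105) (nat_lit 2442) (nat_lit 2547) (nat_lit 1) .nil)), (nat_lit 54), (nat_lit 15), (nat_lit
 4), (nat_lit 1), (48, 25, 48), [369, 2352], 34⟩,
  mz,
  mz,
  ⟨⟨-51, -20, 4, -10, 47, -20, 2, -20, -49⟩, (.cons (nat_lit 2208) (nat_lit 1538) (nat_lit 386) (nat_lit 1)
 (.cons (nat_lit 2336) (nat_lit 1845) (nat_lit 2781) (nat_lit 1) .nil)), (nat_lit 70), (nat_lit 12), (nat_lit
 24), (nat_lit 1), (36, 32, 36), [539, 625], 19⟩,
  ⟨⟨15, 52, 16, 10, 17, -60, 46, 4, -11⟩, (.cons (nat_lit 1187) (nat_lit 1139) (nat_lit 1495) (nat_lit 1)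
 (.cons (nat_lit 1327) (nat_lit 2140) (nat_lit 995) (nat_lit 1) .nil)), (nat_lit 67), (nat_lit 62), (nat_lit
 27), (nat_lit 1), (24, 16, 10), [1120, 1560], 42⟩,
  ⟨⟨31, -48, -4, -10, -17, -50, 46, 4, -35⟩, (.cons (nat_lit 991) (nat_lit 854) (nat_lit 2058) (nat_lit 1)
 (.cons (nat_lit 256) (nat_lit 2259) (nat_lit 1541) (nat_lit 1) .nil)), (nat_lit 53), (nat_lit 37), (nat_lit
 52), (nat_lit 1), (18, 13, 25), [1632, 2297], 24⟩,
  ⟨⟨-57, -4, 40, -8, 45, -26, -24, -24, -25⟩, (.cons (nat_lit 1928) (nat_lit 1882) (nat_lit 1680) (nat_lit 1)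
 (.cons (nat_lit 504) (nat_lit 282) (nat_lit 1911) (nat_lit 1) .nil)), (nat_lit 17), (nat_lit 39), (nat_lit
 38), (nat_lit 1), (12, 24, 19), [2030, 930], 29⟩,
  mz,
  mz,
  ⟨⟨57, 4, -17, 8, -45, -34, 24, 24, -49⟩, (.cons (nat_lit 1587) (nat_lit 43) (nat_lit 629) (nat_lit 1) (.cons
 (nat_lit 2475) (nat_lit 608) (nat_lit 63) (nat_lit 1) .nil)), (nat_lit 15), (nat_lit 21), (nat_lit 55),
 (nat_lit 1), (20, 40, 14), [319, 688], 1⟩,
  ⟨⟨45, 28, -49, 28, -45, -14, 0, 0, -53⟩, (.cons (nat_lit 2208) (nat_lit 2130) (nat_lit 1172) (nat_lit 1)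
 (.cons (nat_lit 358) (nat_lit 1201) (nat_lit 2700) (nat_lit 1) .nil)), (nat_lit 70), (nat_lit 61), (nat_lit
 26), (nat_lit 1), (24, 22, 0), [922, 2053], 24⟩,
  mz,
  ⟨⟨-13, 48, -27, 30, -17, -60, 30, 36, -7⟩, (.cons (nat_lit 217) (nat_lit 1623) (nat_lit 277) (nat_lit 1)
 (.cons (nat_lit 882) (nat_lit 673) (nat_lit 745) (nat_lit 1) .nil)), (nat_lit 0), (nat_lit 42), (nat_lit 47),
 (nat_lit 1), (11, 48, 48), [533, 501], 39⟩,
  mz,
  ⟨⟨-25, -48, -11, 28, 5, -64, -40, 8, -7⟩, (.cons (nat_lit 977) (nat_lit 464) (nat_lit 1078) (nat_lit 1)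
 (.cons (nat_lit 2156) (nat_lit 1920) (nat_lit 1) (nat_lit 1219) .nil)), (nat_lit 44), (nat_lit 11), (nat_lit
 43), (nat_lit 1), (2, 2, 35), [1202, 171], 17⟩,
  mz,
  ⟨⟨-1, -48, 37, 52, 5, -16, 8, -40, -31⟩, (.cons (nat_lit 1001) (nat_lit 1373) (nat_lit 1791) (nat_lit 1)
 (.cons (nat_lit 2138) (nat_lit 2455) (nat_lit 1434) (nat_lit 1) .nil)), (nat_lit 57), (nat_lit 57), (nat_lit
 58), (nat_lit 1), (29, 29, 33), [451, 1464], 22⟩,
  ⟨⟨-13, 48, 40, -30, 17, -30, 30, 36, -23⟩, (.cons (nat_lit 1021) (nat_lit 466) (nat_lit 817) (nat_lit 1)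
 (.cons (nat_lit 1679) (nat_lit 1827) (nat_lit 1024) (nat_lit 1) .nil)), (nat_lit 12), (nat_lit 35), (nat_lit
 69), (nat_lit 1), (42, 48, 5), [163, 1184], 56⟩,
  mz,
  ⟨⟨45, -28, -49, 28, 45, -14, 0, 0, -53⟩, (.cons (nat_lit 1270) (nat_lit 580) (nat_lit 116) (nat_lit 1) (.cons
 (nat_lit 2384) (nat_lit 372) (nat_lit 1920) (nat_lit 1) .nil)), (nat_lit 1), (nat_lit 57), (nat_lit 63),
 (nat_lit 1), (39, 49, 0), [1683, 1179], 61⟩,
  mz,
  ⟨⟨-39, 28, -17, 10, -33, -50, 18, 36, -37⟩, (.cons (nat_lit 1283) (nat_lit 1657) (nat_lit 1652) (nat_lit 1)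
 (.cons (nat_lit 1444) (nat_lit 968) (nat_lit 1303) (nat_lit 1) .nil)), (nat_lit 5), (nat_lit 59), (nat_lit
 17), (nat_lit 1), (43, 8, 25), [279, 1428], 70⟩,
  mz,
  mz,
  ⟨⟨1, -48, 36, -52, 5, 36, -8, -40, -23⟩, (.cons (nat_lit 1772) (nat_lit 1608) (nat_lit 136) (nat_lit 1)
 (.cons (nat_lit 170) (nat_lit 1294) (nat_lit 470) (nat_lit 1) .nil)), (nat_lit 31), (nat_lit 29), (nat_lit
 53), (nat_lit 1), (41, 41, 43), [1297, 1543], 57⟩,
  ⟨⟨9, -8, -68, -52, 5, 16, 8, 40, -31⟩, (.cons (nat_lit 2172) (nat_lit 2100) (nat_lit 1477) (nat_lit 1) (.cons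
 (nat_lit 2556) (nat_lit 2005) (nat_lit 775) (nat_lit 1) .nil)), (nat_lit 55), (nat_lit 7), (nat_lit 29),
 (nat_lit 1), (31, 27, 4), [1719, 2058], 37⟩,
  ⟨⟨-57, 8, 37, 10, 33, 40, -18, 36, -19⟩, (.cons (nat_lit 2163) (nat_lit 1853) (nat_lit 1777) (nat_lit 1)
 (.cons (nat_lit 1914) (nat_lit 2697) (nat_lit 1754) (nat_lit 1) .nil)), (nat_lit 40), (nat_lit 14), (nat_lit
 7), (nat_lit 1), (40, 6, 21), [5, 1732], 50⟩,
  ⟨⟨15, -56, -11, -28, -5, -36, 40, -8, -47⟩, (.cons (nat_lit 56) (nat_lit 686) (nat_lit 1106) (nat_lit 1)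
 (.cons (nat_lit 20) (nat_lit 996) (nat_lit 2522) (nat_lit 1) .nil)), (nat_lit 57), (nat_lit 8), (nat_lit 32),
 (nat_lit 1), (31, 34, 12), [1447, 2163], 32⟩,
  ⟨⟨-9, -8, -59, -52, -5, 36, -8, 40, -23⟩, (.cons (nat_lit 1372) (nat_lit 1285) (nat_lit 2100) (nat_lit 1)
 (.cons (nat_lit 1721) (nat_lit 135) (nat_lit 1964) (nat_lit 1) .nil)), (nat_lit 57), (nat_lit 15), (nat_lit
 36), (nat_lit 1), (29, 38, 14), [1024, 627], 32⟩,
  ⟨⟨15, -52, -31, -10, 17, -50, 46, -4, -35⟩, (.cons (nat_lit 2175) (nat_lit 132) (nat_lit 2037) (nat_lit 1)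
 (.cons (nat_lit 2630) (nat_lit 1836) (nat_lit 710) (nat_lit 1) .nil)), (nat_lit 5), (nat_lit 34), (nat_lit
 24), (nat_lit 1), (50, 2, 12), [2023, 2446], 43⟩,
  ⟨⟨-57, 4, 40, -8, -45, -26, -24, 24, -25⟩, (.cons (nat_lit 58) (nat_lit 1547) (nat_lit 1862) (nat_lit 1)
 (.cons (nat_lit 482) (nat_lit 1179) (nat_lit 1885) (nat_lit 1) .nil)), (nat_lit 64), (nat_lit 20), (nat_lit
 19), (nat_lit 1), (25, 50, 44), [178, 14], 63⟩,
  ⟨⟨15, 32, 44, 50, -17, -30, 14, 44, -19⟩, (.cons (nat_lit 1461) (nat_lit 843) (nat_lit 387) (nat_lit 1)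
 (.cons (nat_lit 2239) (nat_lit 416) (nat_lit 2194) (nat_lit 1) .nil)), (nat_lit 38), (nat_lit 68), (nat_lit
 32), (nat_lit 1), (27, 37, 4), [1397, 2460], 2⟩,
  ⟨⟨-15, 32, 59, 50, 17, -20, -14, 44, -5⟩, (.cons (nat_lit 765) (nat_lit 1443) (nat_lit 534) (nat_lit 1)
 (.cons (nat_lit 891) (nat_lit 482) (nat_lit 2029) (nat_lit 1) .nil)), (nat_lit 48), (nat_lit 15), (nat_lit 8),
 (nat_lit 1), (6, 33, 48), [989, 445], 18⟩,
  mz,
  ⟨⟨43, 12, 20, 30, 17, -60, 30, -36, -7⟩, (.cons (nat_lit 2208) (nat_lit 1162) (nat_lit 1395) (nat_lit 1)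
 (.cons (nat_lit 1953) (nat_lit 876) (nat_lit 410) (nat_lit 1) .nil)), (nat_lit 70), (nat_lit 69), (nat_lit
 12), (nat_lit 1), (23, 37, 37), [95, 464], 59⟩,
  ⟨⟨1, -12, -64, -50, 17, 20, -14, -44, -5⟩, (.cons (nat_lit 770) (nat_lit 1854) (nat_lit 288) (nat_lit 1)
 (.cons (nat_lit 320) (nat_lit 1629) (nat_lit 179) (nat_lit 1) .nil)), (nat_lit 37), (nat_lit 42), (nat_lit
 15), (nat_lit 1), (3, 9, 11), [1118, 1944], 47⟩,
  ⟨⟨15, -52, 16, 10, -17, -60, 46, -4, -11⟩, (.cons (nat_lit 112) (nat_lit 1017) (nat_lit 916) (nat_lit 1)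
 (.cons (nat_lit 1105) (nat_lit 1901) (nat_lit 1002) (nat_lit 1) .nil)), (nat_lit 8), (nat_lit 46), (nat_lit
 35), (nat_lit 1), (14, 27, 50), [1561, 805], 10⟩,
  ⟨⟨-39, -28, -17, 10, 33, -50, 18, -36, -37⟩, (.cons (nat_lit 2069) (nat_lit 2164) (nat_lit 1508) (nat_lit 1)
 (.cons (nat_lit 1333) (nat_lit 1082) (nat_lit 2453) (nat_lit 1) .nil)), (nat_lit 16), (nat_lit 54), (nat_lit
 57), (nat_lit 1), (5, 49, 14), [1744, 1692], 20⟩,
  ⟨⟨39, -28, -56, 10, -33, 40, -18, -36, -19⟩, (.cons (nat_lit 809) (nat_lit 444) (nat_lit 728) (nat_lit 1)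
 (.cons (nat_lit 1636) (nat_lit 2451) (nat_lit 481) (nat_lit 1) .nil)), (nat_lit 62), (nat_lit 10), (nat_lit
 46), (nat_lit 1), (49, 18, 10), [405, 2485], 64⟩,
  mz,
  ⟨⟨-13, -48, 40, 30, 17, 30, 30, -36, -23⟩, (.cons (nat_lit 582) (nat_lit 495) (nat_lit 1650) (nat_lit 1)
 (.cons (nat_lit 2662) (nat_lit 2301) (nat_lit 1086) (nat_lit 1) .nil)), (nat_lit 6), (nat_lit 3), (nat_lit
 12), (nat_lit 1), (45, 47, 47), [266, 1832], 28⟩]

/-- Moves. -/
noncomputable def t1_2 : List Mv := [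
  mz,
  mz,
  mz,
  mz,
  ⟨⟨51, 20, -47, -10, 47, 30, -2, 20, -47⟩, (.cons (nat_lit 1223) (nat_lit 144) (nat_lit 811) (nat_lit 1)
 (.cons (nat_lit 771) (nat_lit 182) (nat_lit 1005) (nat_lit 1) .nil)), (nat_lit 63), (nat_lit 53), (nat_lit
 43), (nat_lit 1), (24, 14, 24), [1385, 2363], 14⟩,
  ⟨⟨51, -20, -47, 10, 47, -30, -2, -20, -47⟩, (.cons (nat_lit 2163) (nat_lit 880) (nat_lit 131) (nat_lit 1)
 (.cons (nat_lit 2774) (nat_lit 1863) (nat_lit 2153) (nat_lit 1) .nil)), (nat_lit 63), (nat_lit 49), (nat_lit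
 61), (nat_lit 1), (12, 46, 12), [2184, 2631], 14⟩,
  ⟨⟨25, -48, -36, -28, 5, -36, 40, 8, -47⟩, (.cons (nat_lit 1749) (nat_lit 1874) (nat_lit 708) (nat_lit 1)
 (.cons (nat_lit 1038) (nat_lit 2186) (nat_lit 1875) (nat_lit 1) .nil)), (nat_lit 55), (nat_lit 38), (nat_lit
 67), (nat_lit 1), (37, 37, 38), [1249, 619], 37⟩,
  mz,
  mz,
  ⟨⟨-33, -20, -32, 8, 45, -34, 24, -24, -49⟩, (.cons (nat_lit 283) (nat_lit 1972) (nat_lit 1704) (nat_lit 1)
 (.cons (nat_lit 565) (nat_lit 1464) (nat_lit 1695) (nat_lit 1) .nil)), (nat_lit 46), (nat_lit 52), (nat_lit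
 27), (nat_lit 1), (35, 14, 42), [479, 2241], 20⟩,
  ⟨⟨-15, -56, 4, -28, 5, 64, -40, -8, -7⟩, (.cons (nat_lit 597) (nat_lit 1012) (nat_lit 1831) (nat_lit 1)
 (.cons (nat_lit 596) (nat_lit 2272) (nat_lit 1354) (nat_lit 1) .nil)), (nat_lit 31), (nat_lit 67), (nat_lit
 24), (nat_lit 1), (10, 1, 9), [921, 163], 57⟩,
  ⟨⟨-1, -12, -63, -50, -17, 30, 14, -44, -19⟩, (.cons (nat_lit 1163) (nat_lit 895) (nat_lit 684) (nat_lit 1)
 (.cons (nat_lit 561) (nat_lit 2408) (nat_lit 2506) (nat_lit 1) .nil)), (nat_lit 59), (nat_lit 2), (nat_lit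
 70), (nat_lit 1), (44, 27, 20), [2170, 155], 33⟩,
  ⟨⟨-51, 20, 4, 10, 47, 20, 2, 20, -49⟩, (.cons (nat_lit 2208) (nat_lit 802) (nat_lit 646) (nat_lit 1) (.cons
 (nat_lit 1810) (nat_lit 1913) (nat_lit 2262) (nat_lit 1) .nil)), (nat_lit 70), (nat_lit 46), (nat_lit 67),
 (nat_lit 1), (48, 28, 48), [1150, 464], 43⟩,
  mz,
  mz,
  ⟨⟨-51, -20, 4, -10, 47, -20, 2, -20, -49⟩, (.cons (nat_lit 2208) (nat_lit 1538) (nat_lit 386) (nat_lit 1)
 (.cons (nat_lit 2336) (nat_lit 1845) (nat_lit 2781) (nat_lit 1) .nil)), (nat_lit 70), (nat_lit 12), (nat_lit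
 24), (nat_lit 1), (36, 32, 36), [539, 625], 19⟩,
  ⟨⟨15, 52, 16, 10, 17, -60, 46, 4, -11⟩, (.cons (nat_lit 1187) (nat_lit 1139) (nat_lit 1495) (nat_lit 1)
 (.cons (nat_lit 1327) (nat_lit 2140) (nat_lit 995) (nat_lit 1) .nil)), (nat_lit 67), (nat_lit 62), (nat_lit
 27), (nat_lit 1), (24, 16, 10), [1120, 1560], 42⟩,
  ⟨⟨31, -48, -4, 10, 17, 50, 46, 4, -35⟩, (.cons (nat_lit 1898) (nat_lit 17) (nat_lit 353) (nat_lit 1) (.cons
 (nat_lit 961) (nat_lit 526) (nat_lit 1160) (nat_lit 1) .nil)), (nat_lit 37), (nat_lit 27), (nat_lit 47),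
 (nat_lit 1), (18, 40, 25), [977, 2455], 47⟩,
  ⟨⟨-57, -4, 40, -8, 45, -26, -24, -24, -25⟩, (.cons (nat_lit 1928) (nat_lit 1882) (nat_lit 1680) (nat_lit 1)
 (.cons (nat_lit 504) (nat_lit 282) (nat_lit 1911) (nat_lit 1) .nil)), (nat_lit 17), (nat_lit 39), (nat_lit
 38), (nat_lit 1), (12, 24, 19), [2030, 930], 29⟩,
  mz,
  mz,
  ⟨⟨57, 4, -17, 8, -45, -34, 24, 24, -49⟩, (.cons (nat_lit 1587) (nat_lit 43) (nat_lit 629) (nat_lit 1) (.cons
 (nat_lit 2475) (nat_lit 608) (nat_lit 63) (nat_lit 1) .nil)), (nat_lit 15), (nat_lit 21), (nat_lit 55),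
 (nat_lit 1), (20, 40, 14), [319, 688], 1⟩,
  ⟨⟨-45, -28, -4, 28, -45, -14, 0, 0, -53⟩, (.cons (nat_lit 330) (nat_lit 831) (nat_lit 608) (nat_lit 1) (.cons
 (nat_lit 1779) (nat_lit 2569) (nat_lit 1526) (nat_lit 1) .nil)), (nat_lit 1), (nat_lit 9), (nat_lit 66),
 (nat_lit 1), (29, 22, 0), [828, 2769], 47⟩,
  mz,
  ⟨⟨-13, 48, -27, 30, -17, -60, 30, 36, -7⟩, (.cons (nat_lit 217) (nat_lit 1623) (nat_lit 277) (nat_lit 1)
 (.cons (nat_lit 882) (nat_lit 673) (nat_lit 745) (nat_lit 1) .nil)), (nat_lit 0), (nat_lit 42), (nat_lit 47),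
 (nat_lit 1), (11, 48, 48), [533, 501], 39⟩,
  mz,
  ⟨⟨-25, -48, -11, 28, 5, -64, -40, 8, -7⟩, (.cons (nat_lit 977) (nat_lit 464) (nat_lit 1078) (nat_lit 1)
 (.cons (nat_lit 2156) (nat_lit 1920) (nat_lit 1) (nat_lit 1219) .nil)), (nat_lit 44), (nat_lit 11), (nat_lit
 43), (nat_lit 1), (2, 2, 35), [1202, 171], 17⟩,
  mz,
  ⟨⟨-1, -48, 37, 52, 5, -16, 8, -40, -31⟩, (.cons (nat_lit 1001) (nat_lit 1373) (nat_lit 1791) (nat_lit 1)
 (.cons (nat_lit 2138) (nat_lit 2455) (nat_lit 1434) (nat_lit 1) .nil)), (nat_lit 57), (nat_lit 57), (nat_lit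
 58), (nat_lit 1), (29, 29, 33), [451, 1464], 22⟩,
  ⟨⟨-13, 48, 40, -30, 17, -30, 30, 36, -23⟩, (.cons (nat_lit 1021) (nat_lit 466) (nat_lit 817) (nat_lit 1)
 (.cons (nat_lit 1679) (nat_lit 1827) (nat_lit 1024) (nat_lit 1) .nil)), (nat_lit 12), (nat_lit 35), (nat_lit
 69), (nat_lit 1), (42, 48, 5), [163, 1184], 56⟩,
  mz,
  ⟨⟨-45, 28, -4, 28, 45, -14, 0, 0, -53⟩, (.cons (nat_lit 2208) (nat_lit 1582) (nat_lit 398) (nat_lit 1) (.cons
 (nat_lit 2728) (nat_lit 1302) (nat_lit 724) (nat_lit 1) .nil)), (nat_lit 70), (nat_lit 43), (nat_lit 16),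
 (nat_lit 1), (14, 49, 0), [602, 1095], 48⟩,
  mz,
  ⟨⟨-39, 28, -17, 10, -33, -50, 18, 36, -37⟩, (.cons (nat_lit 1283) (nat_lit 1657) (nat_lit 1652) (nat_lit 1)
 (.cons (nat_lit 1444) (nat_lit 968) (nat_lit 1303) (nat_lit 1) .nil)), (nat_lit 5), (nat_lit 59), (nat_lit
 17), (nat_lit 1), (43, 8, 25), [279, 1428], 70⟩,
  mz,
  mz,
  ⟨⟨1, -48, 36, -52, 5, 36, -8, -40, -23⟩, (.cons (nat_lit 1772) (nat_lit 1608) (nat_lit 136) (nat_lit 1)
 (.cons (nat_lit 170) (nat_lit 1294) (nat_lit 470) (nat_lit 1) .nil)), (nat_lit 31), (nat_lit 29), (nat_lit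
 53), (nat_lit 1), (41, 41, 43), [1297, 1543], 57⟩,
  ⟨⟨-1, 48, 37, 52, -5, -16, 8, 40, -31⟩, (.cons (nat_lit 1607) (nat_lit 1582) (nat_lit 62) (nat_lit 1) (.cons
 (nat_lit 1052) (nat_lit 1760) (nat_lit 1147) (nat_lit 1) .nil)), (nat_lit 25), (nat_lit 18), (nat_lit 18),
 (nat_lit 1), (26, 26, 4), [554, 2003], 57⟩,
  ⟨⟨39, 28, -56, -10, -33, -40, -18, 36, -19⟩, (.cons (nat_lit 456) (nat_lit 764) (nat_lit 1591) (nat_lit 1)
 (.cons (nat_lit 1911) (nat_lit 2057) (nat_lit 52) (nat_lit 1) .nil)), (nat_lit 63), (nat_lit 9), (nat_lit 13),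
 (nat_lit 1), (34, 47, 21), [373, 1689], 49⟩,
  ⟨⟨25, 48, -36, -28, -5, -36, 40, -8, -47⟩, (.cons (nat_lit 461) (nat_lit 1335) (nat_lit 1529) (nat_lit 1)
 (.cons (nat_lit 295) (nat_lit 2777) (nat_lit 840) (nat_lit 1) .nil)), (nat_lit 36), (nat_lit 39), (nat_lit
 42), (nat_lit 1), (34, 34, 12), [695, 915], 61⟩,
  ⟨⟨1, 48, 36, -52, -5, 36, -8, 40, -23⟩, (.cons (nat_lit 1683) (nat_lit 877) (nat_lit 314) (nat_lit 1) (.cons
 (nat_lit 2556) (nat_lit 311) (nat_lit 2228) (nat_lit 1) .nil)), (nat_lit 17), (nat_lit 12), (nat_lit 14),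
 (nat_lit 1), (38, 38, 14), [1541, 2147], 51⟩,
  ⟨⟨31, 48, -4, -10, 17, -50, 46, -4, -35⟩, (.cons (nat_lit 269) (nat_lit 56) (nat_lit 627) (nat_lit 1) (.cons
 (nat_lit 1055) (nat_lit 332) (nat_lit 1604) (nat_lit 1) .nil)), (nat_lit 9), (nat_lit 1), (nat_lit 54),
 (nat_lit 1), (15, 2, 12), [2164, 572], 42⟩,
  ⟨⟨33, 20, -65, 8, 45, 26, -24, 24, -25⟩, (.cons (nat_lit 2208) (nat_lit 1444) (nat_lit 808) (nat_lit 1)
 (.cons (nat_lit 538) (nat_lit 2463) (nat_lit 616) (nat_lit 1) .nil)), (nat_lit 70), (nat_lit 56), (nat_lit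
 60), (nat_lit 1), (19, 3, 44), [1372, 2619], 65⟩,
  ⟨⟨15, 32, 44, 50, -17, -30, 14, 44, -19⟩, (.cons (nat_lit 1461) (nat_lit 843) (nat_lit 387) (nat_lit 1)
 (.cons (nat_lit 2239) (nat_lit 416) (nat_lit 2194) (nat_lit 1) .nil)), (nat_lit 38), (nat_lit 68), (nat_lit
 32), (nat_lit 1), (27, 37, 4), [1397, 2460], 2⟩,
  ⟨⟨1, 12, -64, 50, 17, -20, -14, 44, -5⟩, (.cons (nat_lit 927) (nat_lit 484) (nat_lit 1333) (nat_lit 1) (.cons
 (nat_lit 2794) (nat_lit 969) (nat_lit 2176) (nat_lit 1) .nil)), (nat_lit 9), (nat_lit 12), (nat_lit 40),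
 (nat_lit 1), (42, 33, 48), [472, 1809], 42⟩,
  mz,
  ⟨⟨-13, -48, -27, 30, 17, -60, 30, -36, -7⟩, (.cons (nat_lit 518) (nat_lit 107) (nat_lit 2100) (nat_lit 1)
 (.cons (nat_lit 774) (nat_lit 1255) (nat_lit 2260) (nat_lit 1) .nil)), (nat_lit 61), (nat_lit 36), (nat_lit
 44), (nat_lit 1), (14, 37, 37), [565, 1564], 8⟩,
  ⟨⟨-15, -32, 59, 50, -17, -20, -14, -44, -5⟩, (.cons (nat_lit 364) (nat_lit 844) (nat_lit 1478) (nat_lit 1)
 (.cons (nat_lit 2375) (nat_lit 609) (nat_lit 1128) (nat_lit 1) .nil)), (nat_lit 45), (nat_lit 3), (nat_lit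
 33), (nat_lit 1), (8, 44, 11), [1324, 1990], 22⟩,
  ⟨⟨15, -52, 16, 10, -17, -60, 46, -4, -11⟩, (.cons (nat_lit 112) (nat_lit 1017) (nat_lit 916) (nat_lit 1)
 (.cons (nat_lit 1105) (nat_lit 1901) (nat_lit 1002) (nat_lit 1) .nil)), (nat_lit 8), (nat_lit 46), (nat_lit
 35), (nat_lit 1), (14, 27, 50), [1561, 805], 10⟩,
  ⟨⟨-39, -28, -17, 10, 33, -50, 18, -36, -37⟩, (.cons (nat_lit 2069) (nat_lit 2164) (nat_lit 1508) (nat_lit 1)
 (.cons (nat_lit 1333) (nat_lit 1082) (nat_lit 2453) (nat_lit 1) .nil)), (nat_lit 16), (nat_lit 54), (nat_lit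
 57), (nat_lit 1), (5, 49, 14), [1744, 1692], 20⟩,
  ⟨⟨39, -28, -56, -10, 33, -40, -18, -36, -19⟩, (.cons (nat_lit 2208) (nat_lit 1412) (nat_lit 1030) (nat_lit 1)
 (.cons (nat_lit 1760) (nat_lit 1943) (nat_lit 2452) (nat_lit 1) .nil)), (nat_lit 70), (nat_lit 17), (nat_lit
 6), (nat_lit 1), (49, 35, 10), [287, 1221], 63⟩,
  mz,
  ⟨⟨43, 12, -63, 30, 17, 30, 30, -36, -23⟩, (.cons (nat_lit 2191) (nat_lit 351) (nat_lit 1415) (nat_lit 1)
 (.cons (nat_lit 1990) (nat_lit 2628) (nat_lit 1495) (nat_lit 1) .nil)), (nat_lit 54), (nat_lit 65), (nat_lit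
 44), (nat_lit 1), (2, 47, 47), [454, 112], 27⟩]

/-- Moves. -/
noncomputable def t1_3 : List Mv := [
  mz,
  mz,
  mz,
  mz,
  ⟨⟨51, 20, -47, 10, -47, -30, -2, 20, -47⟩, (.cons (nat_lit 121) (nat_lit 1189) (nat_lit 1520) (nat_lit 1)
 (.cons (nat_lit 649) (nat_lit 549) (nat_lit 1128) (nat_lit 1) .nil)), (nat_lit 51), (nat_lit 68), (nat_lit
 22), (nat_lit 1), (24, 39, 24), [604, 2166], 24⟩,
  ⟨⟨51, -20, -47, -10, -47, 30, -2, -20, -47⟩, (.cons (nat_lit 1370) (nat_lit 521) (nat_lit 1287) (nat_lit 1)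
 (.cons (nat_lit 1014) (nat_lit 1074) (nat_lit 2761) (nat_lit 1) .nil)), (nat_lit 34), (nat_lit 18), (nat_lit
 10), (nat_lit 1), (12, 7, 12), [174, 2004], 1⟩,
  ⟨⟨15, 56, -11, -28, 5, -36, 40, 8, -47⟩, (.cons (nat_lit 1494) (nat_lit 899) (nat_lit 1554) (nat_lit 1)
 (.cons (nat_lit 2695) (nat_lit 350) (nat_lit 1620) (nat_lit 1) .nil)), (nat_lit 5), (nat_lit 70), (nat_lit
 65), (nat_lit 1), (1, 37, 38), [309, 2505], 53⟩,
  mz,
  mz,
  ⟨⟨-33, -20, -32, -8, -45, 34, 24, -24, -49⟩, (.cons (nat_lit 876) (nat_lit 1154) (nat_lit 1339) (nat_lit 1)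
 (.cons (nat_lit 1145) (nat_lit 1745) (nat_lit 715) (nat_lit 1) .nil)), (nat_lit 10), (nat_lit 13), (nat_lit
 23), (nat_lit 1), (35, 39, 42), [1622, 2143], 52⟩,
  ⟨⟨-25, 48, -11, 28, -5, -64, -40, -8, -7⟩, (.cons (nat_lit 714) (nat_lit 2040) (nat_lit 163) (nat_lit 1)
 (.cons (nat_lit 1455) (nat_lit 2755) (nat_lit 1785) (nat_lit 1) .nil)), (nat_lit 25), (nat_lit 4), (nat_lit
 10), (nat_lit 1), (52, 52, 9), [131, 2339], 57⟩,
  ⟨⟨15, -32, 44, 50, 17, -30, 14, -44, -19⟩, (.cons (nat_lit 1240) (nat_lit 1248) (nat_lit 88) (nat_lit 1)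
 (.cons (nat_lit 2249) (nat_lit 1588) (nat_lit 82) (nat_lit 1) .nil)), (nat_lit 8), (nat_lit 63), (nat_lit 65),
 (nat_lit 1), (29, 26, 20), [507, 1562], 61⟩,
  ⟨⟨-51, 20, 4, -10, -47, -20, 2, 20, -49⟩, (.cons (nat_lit 1900) (nat_lit 1800) (nat_lit 924) (nat_lit 1)
 (.cons (nat_lit 1105) (nat_lit 2442) (nat_lit 2547) (nat_lit 1) .nil)), (nat_lit 54), (nat_lit 15), (nat_lit
 4), (nat_lit 1), (48, 25, 48), [369, 2352], 34⟩,
  mz,
  mz,
  ⟨⟨-51, -20, 4, -10, 47, -20, 2, -20, -49⟩, (.cons (nat_lit 2208) (nat_lit 1538) (nat_lit 386) (nat_lit 1)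
 (.cons (nat_lit 2336) (nat_lit 1845) (nat_lit 2781) (nat_lit 1) .nil)), (nat_lit 70), (nat_lit 12), (nat_lit
 24), (nat_lit 1), (36, 32, 36), [539, 625], 19⟩,
  ⟨⟨15, 52, 16, 10, 17, -60, 46, 4, -11⟩, (.cons (nat_lit 1187) (nat_lit 1139) (nat_lit 1495) (nat_lit 1)
 (.cons (nat_lit 1327) (nat_lit 2140) (nat_lit 995) (nat_lit 1) .nil)), (nat_lit 67), (nat_lit 62), (nat_lit
 27), (nat_lit 1), (24, 16, 10), [1120, 1560], 42⟩,
  ⟨⟨31, -48, -4, 10, 17, 50, 46, 4, -35⟩, (.cons (nat_lit 1898) (nat_lit 17) (nat_lit 353) (nat_lit 1) (.cons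
 (nat_lit 961) (nat_lit 526) (nat_lit 1160) (nat_lit 1) .nil)), (nat_lit 37), (nat_lit 27), (nat_lit 47),
 (nat_lit 1), (18, 40, 25), [977, 2455], 47⟩,
  ⟨⟨33, -20, -65, 8, -45, 26, -24, -24, -25⟩, (.cons (nat_lit 2085) (nat_lit 1671) (nat_lit 1716) (nat_lit 1)
 (.cons (nat_lit 2751) (nat_lit 546) (nat_lit 2318) (nat_lit 1) .nil)), (nat_lit 19), (nat_lit 36), (nat_lit
 15), (nat_lit 1), (7, 29, 19), [729, 1173], 6⟩,
  mz,
  mz,
  ⟨⟨-33, 20, -32, 8, -45, -34, 24, 24, -49⟩, (.cons (nat_lit 1045) (nat_lit 1179) (nat_lit 1052) (nat_lit 1)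
 (.cons (nat_lit 28) (nat_lit 1466) (nat_lit 402) (nat_lit 1) .nil)), (nat_lit 67), (nat_lit 63), (nat_lit 35),
 (nat_lit 1), (47, 40, 14), [742, 2223], 69⟩,
  ⟨⟨45, 28, -49, -28, 45, 14, 0, 0, -53⟩, (.cons (nat_lit 941) (nat_lit 2052) (nat_lit 1294) (nat_lit 1) (.cons
 (nat_lit 281) (nat_lit 225) (nat_lit 1305) (nat_lit 1) .nil)), (nat_lit 1), (nat_lit 14), (nat_lit 8),
 (nat_lit 1), (24, 31, 0), [226, 1208], 61⟩,
  mz,
  ⟨⟨-13, 48, -27, 30, -17, -60, 30, 36, -7⟩, (.cons (nat_lit 217) (nat_lit 1623) (nat_lit 277) (nat_lit 1)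
 (.cons (nat_lit 882) (nat_lit 673) (nat_lit 745) (nat_lit 1) .nil)), (nat_lit 0), (nat_lit 42), (nat_lit 47),
 (nat_lit 1), (11, 48, 48), [533, 501], 39⟩,
  mz,
  ⟨⟨-15, 56, 4, 28, 5, -64, -40, 8, -7⟩, (.cons (nat_lit 198) (nat_lit 100) (nat_lit 232) (nat_lit 1) (.cons
 (nat_lit 1857) (nat_lit 1080) (nat_lit 549) (nat_lit 1) .nil)), (nat_lit 61), (nat_lit 4), (nat_lit 52),
 (nat_lit 1), (33, 2, 35), [262, 1636], 19⟩,
  mz,
  ⟨⟨-1, -48, 37, 52, 5, -16, 8, -40, -31⟩, (.cons (nat_lit 1001) (nat_lit 1373) (nat_lit 1791) (nat_lit 1)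
 (.cons (nat_lit 2138) (nat_lit 2455) (nat_lit 1434) (nat_lit 1) .nil)), (nat_lit 57), (nat_lit 57), (nat_lit
 58), (nat_lit 1), (29, 29, 33), [451, 1464], 22⟩,
  ⟨⟨43, -12, -63, -30, 17, -30, 30, 36, -23⟩, (.cons (nat_lit 906) (nat_lit 756) (nat_lit 864) (nat_lit 1)
 (.cons (nat_lit 470) (nat_lit 618) (nat_lit 2144) (nat_lit 1) .nil)), (nat_lit 3), (nat_lit 16), (nat_lit 1),
 (nat_lit 0), (16, 48, 5), [116, 1326], 4⟩,
  mz,
  ⟨⟨45, -28, -49, 28, 45, -14, 0, 0, -53⟩, (.cons (nat_lit 1270) (nat_lit 580) (nat_lit 116) (nat_lit 1) (.cons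
 (nat_lit 2384) (nat_lit 372) (nat_lit 1920) (nat_lit 1) .nil)), (nat_lit 1), (nat_lit 57), (nat_lit 63),
 (nat_lit 1), (39, 49, 0), [1683, 1179], 61⟩,
  mz,
  ⟨⟨57, 8, -20, -10, 33, 50, 18, 36, -37⟩, (.cons (nat_lit 2208) (nat_lit 1101) (nat_lit 1748) (nat_lit 1)
 (.cons (nat_lit 2215) (nat_lit 398) (nat_lit 2367) (nat_lit 1) .nil)), (nat_lit 70), (nat_lit 25), (nat_lit
 41), (nat_lit 1), (35, 45, 25), [522, 1645], 63⟩,
  mz,
  mz,
  ⟨⟨1, -48, 36, -52, 5, 36, -8, -40, -23⟩, (.cons (nat_lit 1772) (nat_lit 1608) (nat_lit 136) (nat_lit 1)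
 (.cons (nat_lit 170) (nat_lit 1294) (nat_lit 470) (nat_lit 1) .nil)), (nat_lit 31), (nat_lit 29), (nat_lit
 53), (nat_lit 1), (41, 41, 43), [1297, 1543], 57⟩,
  ⟨⟨-1, 48, 37, -52, 5, 16, 8, 40, -31⟩, (.cons (nat_lit 178) (nat_lit 861) (nat_lit 114) (nat_lit 1) (.cons
 (nat_lit 2392) (nat_lit 2693) (nat_lit 2146) (nat_lit 1) .nil)), (nat_lit 44), (nat_lit 49), (nat_lit 14),
 (nat_lit 1), (26, 27, 4), [1578, 1482], 17⟩,
  ⟨⟨-57, 8, 37, 10, 33, 40, -18, 36, -19⟩, (.cons (nat_lit 2163) (nat_lit 1853) (nat_lit 1777) (nat_lit 1)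
 (.cons (nat_lit 1914) (nat_lit 2697) (nat_lit 1754) (nat_lit 1) .nil)), (nat_lit 40), (nat_lit 14), (nat_lit
 7), (nat_lit 1), (40, 6, 21), [5, 1732], 50⟩,
  ⟨⟨15, -56, -11, -28, -5, -36, 40, -8, -47⟩, (.cons (nat_lit 56) (nat_lit 686) (nat_lit 1106) (nat_lit 1)
 (.cons (nat_lit 20) (nat_lit 996) (nat_lit 2522) (nat_lit 1) .nil)), (nat_lit 57), (nat_lit 8), (nat_lit 32),
 (nat_lit 1), (31, 34, 12), [1447, 2163], 32⟩,
  ⟨⟨-9, -8, -59, 52, 5, -36, -8, 40, -23⟩, (.cons (nat_lit 84) (nat_lit 690) (nat_lit 27) (nat_lit 1) (.cons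
 (nat_lit 793) (nat_lit 1430) (nat_lit 1770) (nat_lit 1) .nil)), (nat_lit 5), (nat_lit 46), (nat_lit 31),
 (nat_lit 1), (29, 15, 14), [2142, 2207], 53⟩,
  ⟨⟨15, -52, -31, -10, 17, -50, 46, -4, -35⟩, (.cons (nat_lit 2175) (nat_lit 132) (nat_lit 2037) (nat_lit 1)
 (.cons (nat_lit 2630) (nat_lit 1836) (nat_lit 710) (nat_lit 1) .nil)), (nat_lit 5), (nat_lit 34), (nat_lit
 24), (nat_lit 1), (50, 2, 12), [2023, 2446], 43⟩,
  ⟨⟨-57, 4, 40, -8, -45, -26, -24, 24, -25⟩, (.cons (nat_lit 58) (nat_lit 1547) (nat_lit 1862) (nat_lit 1)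
 (.cons (nat_lit 482) (nat_lit 1179) (nat_lit 1885) (nat_lit 1) .nil)), (nat_lit 64), (nat_lit 20), (nat_lit
 19), (nat_lit 1), (25, 50, 44), [178, 14], 63⟩,
  ⟨⟨15, 32, 44, -50, 17, 30, 14, 44, -19⟩, (.cons (nat_lit 1726) (nat_lit 1584) (nat_lit 406) (nat_lit 1)
 (.cons (nat_lit 482) (nat_lit 634) (nat_lit 2139) (nat_lit 1) .nil)), (nat_lit 48), (nat_lit 53), (nat_lit
 16), (nat_lit 1), (27, 16, 4), [942, 1706], 13⟩,
  ⟨⟨1, 12, -64, -50, -17, 20, -14, 44, -5⟩, (.cons (nat_lit 897) (nat_lit 1084) (nat_lit 2057) (nat_lit 1)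
 (.cons (nat_lit 1187) (nat_lit 1178) (nat_lit 104) (nat_lit 1) .nil)), (nat_lit 53), (nat_lit 51), (nat_lit
 60), (nat_lit 1), (42, 20, 48), [1679, 2271], 24⟩,
  mz,
  ⟨⟨-13, -48, -27, -30, -17, 60, 30, -36, -7⟩, (.cons (nat_lit 859) (nat_lit 1124) (nat_lit 1674) (nat_lit 1)
 (.cons (nat_lit 1878) (nat_lit 2054) (nat_lit 1355) (nat_lit 1) .nil)), (nat_lit 25), (nat_lit 8), (nat_lit
 36), (nat_lit 1), (14, 16, 37), [1294, 382], 23⟩,
  ⟨⟨-15, -32, 59, -50, 17, 20, -14, -44, -5⟩, (.cons (nat_lit 2144) (nat_lit 1953) (nat_lit 2074) (nat_lit 1)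
 (.cons (nat_lit 1303) (nat_lit 2501) (nat_lit 2749) (nat_lit 1) .nil)), (nat_lit 57), (nat_lit 50), (nat_lit
 52), (nat_lit 1), (8, 9, 11), [554, 2486], 50⟩,
  ⟨⟨31, 48, -27, -10, 17, 60, 46, -4, -11⟩, (.cons (nat_lit 1265) (nat_lit 1042) (nat_lit 668) (nat_lit 1)
 (.cons (nat_lit 1436) (nat_lit 2808) (nat_lit 92) (nat_lit 1) .nil)), (nat_lit 65), (nat_lit 12), (nat_lit
 65), (nat_lit 1), (36, 26, 50), [107, 1528], 19⟩,
  ⟨⟨-39, -28, -17, 10, 33, -50, 18, -36, -37⟩, (.cons (nat_lit 2069) (nat_lit 2164) (nat_lit 1508) (nat_lit 1)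
 (.cons (nat_lit 1333) (nat_lit 1082) (nat_lit 2453) (nat_lit 1) .nil)), (nat_lit 16), (nat_lit 54), (nat_lit
 57), (nat_lit 1), (5, 49, 14), [1744, 1692], 20⟩,
  ⟨⟨39, -28, -56, -10, 33, -40, -18, -36, -19⟩, (.cons (nat_lit 2208) (nat_lit 1412) (nat_lit 1030) (nat_lit 1)
 (.cons (nat_lit 1760) (nat_lit 1943) (nat_lit 2452) (nat_lit 1) .nil)), (nat_lit 70), (nat_lit 17), (nat_lit
 6), (nat_lit 1), (49, 35, 10), [287, 1221], 63⟩,
  mz,
  ⟨⟨-13, -48, 40, 30, 17, 30, 30, -36, -23⟩, (.cons (nat_lit 582) (nat_lit 495) (nat_lit 1650) (nat_lit 1)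
 (.cons (nat_lit 2662) (nat_lit 2301) (nat_lit 1086) (nat_lit 1) .nil)), (nat_lit 6), (nat_lit 3), (nat_lit
 12), (nat_lit 1), (45, 47, 47), [266, 1832], 28⟩]

/-- Moves. -/
noncomputable def t1_9 : List Mv := [
  mz,
  mz,
  mz,
  mz,
  ⟨⟨-53, 0, 0, 10, -47, -30, -2, 20, -47⟩, (.cons (nat_lit 396) (nat_lit 738) (nat_lit 2037) (nat_lit 1) (.cons
 (nat_lit 746) (nat_lit 51) (nat_lit 128) (nat_lit 1) .nil)), (nat_lit 54), (nat_lit 64), (nat_lit 32),
 (nat_lit 1), (0, 39, 24), [2108, 164], 34⟩,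
  ⟨⟨51, -20, -47, 10, 47, -30, -2, -20, -47⟩, (.cons (nat_lit 2163) (nat_lit 880) (nat_lit 131) (nat_lit 1)
 (.cons (nat_lit 2774) (nat_lit 1863) (nat_lit 2153) (nat_lit 1) .nil)), (nat_lit 63), (nat_lit 49), (nat_lit
 61), (nat_lit 1), (12, 46, 12), [2184, 2631], 14⟩,
  ⟨⟨25, -48, -36, -28, 5, -36, 40, 8, -47⟩, (.cons (nat_lit 1749) (nat_lit 1874) (nat_lit 708) (nat_lit 1)
 (.cons (nat_lit 1038) (nat_lit 2186) (nat_lit 1875) (nat_lit 1) .nil)), (nat_lit 55), (nat_lit 38), (nat_lit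
 67), (nat_lit 1), (37, 37, 38), [1249, 619], 37⟩,
  mz,
  mz,
  ⟨⟨-33, -20, -32, 8, 45, -34, 24, -24, -49⟩, (.cons (nat_lit 283) (nat_lit 1972) (nat_lit 1704) (nat_lit 1)
 (.cons (nat_lit 565) (nat_lit 1464) (nat_lit 1695) (nat_lit 1) .nil)), (nat_lit 46), (nat_lit 52), (nat_lit
 27), (nat_lit 1), (35, 14, 42), [479, 2241], 20⟩,
  ⟨⟨-25, 48, -11, 28, -5, -64, -40, -8, -7⟩, (.cons (nat_lit 714) (nat_lit 2040) (nat_lit 163) (nat_lit 1)
 (.cons (nat_lit 1455) (nat_lit 2755) (nat_lit 1785) (nat_lit 1) .nil)), (nat_lit 25), (nat_lit 4), (nat_lit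
 10), (nat_lit 1), (52, 52, 9), [131, 2339], 57⟩,
  ⟨⟨15, -32, 44, 50, 17, -30, 14, -44, -19⟩, (.cons (nat_lit 1240) (nat_lit 1248) (nat_lit 88) (nat_lit 1)
 (.cons (nat_lit 2249) (nat_lit 1588) (nat_lit 82) (nat_lit 1) .nil)), (nat_lit 8), (nat_lit 63), (nat_lit 65),
 (nat_lit 1), (29, 26, 20), [507, 1562], 61⟩,
  ⟨⟨53, 0, -53, -10, -47, -20, 2, 20, -49⟩, (.cons (nat_lit 2001) (nat_lit 127) (nat_lit 407) (nat_lit 1)
 (.cons (nat_lit 1492) (nat_lit 2238) (nat_lit 1740) (nat_lit 1) .nil)), (nat_lit 23), (nat_lit 12), (nat_lit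
 54), (nat_lit 1), (0, 25, 48), [1873, 646], 32⟩,
  mz,
  mz,
  ⟨⟨-51, -20, 4, -10, 47, -20, 2, -20, -49⟩, (.cons (nat_lit 2208) (nat_lit 1538) (nat_lit 386) (nat_lit 1)
 (.cons (nat_lit 2336) (nat_lit 1845) (nat_lit 2781) (nat_lit 1) .nil)), (nat_lit 70), (nat_lit 12), (nat_lit
 24), (nat_lit 1), (36, 32, 36), [539, 625], 19⟩,
  ⟨⟨31, -48, -27, 10, 17, -60, 46, 4, -11⟩, (.cons (nat_lit 2150) (nat_lit 2151) (nat_lit 273) (nat_lit 1)
 (.cons (nat_lit 626) (nat_lit 2414) (nat_lit 1) (nat_lit 2279) .nil)), (nat_lit 45), (nat_lit 31), (nat_lit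
 49), (nat_lit 1), (39, 16, 10), [1073, 77], 49⟩,
  ⟨⟨31, -48, -4, -10, -17, -50, 46, 4, -35⟩, (.cons (nat_lit 991) (nat_lit 854) (nat_lit 2058) (nat_lit 1)
 (.cons (nat_lit 256) (nat_lit 2259) (nat_lit 1541) (nat_lit 1) .nil)), (nat_lit 53), (nat_lit 37), (nat_lit
 52), (nat_lit 1), (18, 13, 25), [1632, 2297], 24⟩,
  ⟨⟨-57, -4, 40, -8, 45, -26, -24, -24, -25⟩, (.cons (nat_lit 1928) (nat_lit 1882) (nat_lit 1680) (nat_lit 1)
 (.cons (nat_lit 504) (nat_lit 282) (nat_lit 1911) (nat_lit 1) .nil)), (nat_lit 17), (nat_lit 39), (nat_lit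
 38), (nat_lit 1), (12, 24, 19), [2030, 930], 29⟩,
  mz,
  mz,
  ⟨⟨-33, 20, -32, 8, -45, -34, 24, 24, -49⟩, (.cons (nat_lit 1045) (nat_lit 1179) (nat_lit 1052) (nat_lit 1)
 (.cons (nat_lit 28) (nat_lit 1466) (nat_lit 402) (nat_lit 1) .nil)), (nat_lit 67), (nat_lit 63), (nat_lit 35),
 (nat_lit 1), (47, 40, 14), [742, 2223], 69⟩,
  ⟨⟨45, 28, -49, 28, -45, -14, 0, 0, -53⟩, (.cons (nat_lit 2208) (nat_lit 2130) (nat_lit 1172) (nat_lit 1)
 (.cons (nat_lit 358) (nat_lit 1201) (nat_lit 2700) (nat_lit 1) .nil)), (nat_lit 70), (nat_lit 61), (nat_lit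
 26), (nat_lit 1), (24, 22, 0), [922, 2053], 24⟩,
  mz,
  ⟨⟨-13, 48, -27, 30, -17, -60, 30, 36, -7⟩, (.cons (nat_lit 217) (nat_lit 1623) (nat_lit 277) (nat_lit 1)
 (.cons (nat_lit 882) (nat_lit 673) (nat_lit 745) (nat_lit 1) .nil)), (nat_lit 0), (nat_lit 42), (nat_lit 47),
 (nat_lit 1), (11, 48, 48), [533, 501], 39⟩,
  mz,
  ⟨⟨-15, 56, 4, 28, 5, -64, -40, 8, -7⟩, (.cons (nat_lit 198) (nat_lit 100) (nat_lit 232) (nat_lit 1) (.cons
 (nat_lit 1857) (nat_lit 1080) (nat_lit 549) (nat_lit 1) .nil)), (nat_lit 61), (nat_lit 4), (nat_lit 52),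
 (nat_lit 1), (33, 2, 35), [262, 1636], 19⟩,
  mz,
  ⟨⟨9, 8, -68, -52, -5, 16, 8, -40, -31⟩, (.cons (nat_lit 1624) (nat_lit 2139) (nat_lit 415) (nat_lit 1) (.cons
 (nat_lit 1850) (nat_lit 2136) (nat_lit 1722) (nat_lit 1) .nil)), (nat_lit 46), (nat_lit 62), (nat_lit 1),
 (nat_lit 1), (4, 24, 33), [102, 2170], 67⟩,
  ⟨⟨-13, 48, 40, -30, 17, -30, 30, 36, -23⟩, (.cons (nat_lit 1021) (nat_lit 466) (nat_lit 817) (nat_lit 1)
 (.cons (nat_lit 1679) (nat_lit 1827) (nat_lit 1024) (nat_lit 1) .nil)), (nat_lit 12), (nat_lit 35), (nat_lit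
 69), (nat_lit 1), (42, 48, 5), [163, 1184], 56⟩,
  mz,
  ⟨⟨-45, 28, -4, 28, 45, -14, 0, 0, -53⟩, (.cons (nat_lit 2208) (nat_lit 1582) (nat_lit 398) (nat_lit 1) (.cons
 (nat_lit 2728) (nat_lit 1302) (nat_lit 724) (nat_lit 1) .nil)), (nat_lit 70), (nat_lit 43), (nat_lit 16),
 (nat_lit 1), (14, 49, 0), [602, 1095], 48⟩,
  mz,
  ⟨⟨57, 8, -20, -10, 33, 50, 18, 36, -37⟩, (.cons (nat_lit 2208) (nat_lit 1101) (nat_lit 1748) (nat_lit 1)
 (.cons (nat_lit 2215) (nat_lit 398) (nat_lit 2367) (nat_lit 1) .nil)), (nat_lit 70), (nat_lit 25), (nat_lit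
 41), (nat_lit 1), (35, 45, 25), [522, 1645], 63⟩,
  mz,
  mz,
  ⟨⟨-9, 8, -59, 52, -5, -36, -8, -40, -23⟩, (.cons (nat_lit 1055) (nat_lit 1575) (nat_lit 337) (nat_lit 1)
 (.cons (nat_lit 2549) (nat_lit 711) (nat_lit 610) (nat_lit 1) .nil)), (nat_lit 54), (nat_lit 68), (nat_lit
 28), (nat_lit 1), (2, 12, 43), [1230, 1425], 1⟩,
  ⟨⟨-1, 48, 37, 52, -5, -16, 8, 40, -31⟩, (.cons (nat_lit 1607) (nat_lit 1582) (nat_lit 62) (nat_lit 1) (.cons
 (nat_lit 1052) (nat_lit 1760) (nat_lit 1147) (nat_lit 1) .nil)), (nat_lit 25), (nat_lit 18), (nat_lit 18),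
 (nat_lit 1), (26, 26, 4), [554, 2003], 57⟩,
  ⟨⟨39, 28, -56, -10, -33, -40, -18, 36, -19⟩, (.cons (nat_lit 456) (nat_lit 764) (nat_lit 1591) (nat_lit 1)
 (.cons (nat_lit 1911) (nat_lit 2057) (nat_lit 52) (nat_lit 1) .nil)), (nat_lit 63), (nat_lit 9), (nat_lit 13),
 (nat_lit 1), (34, 47, 21), [373, 1689], 49⟩,
  ⟨⟨15, -56, -11, 28, 5, 36, 40, -8, -47⟩, (.cons (nat_lit 484) (nat_lit 777) (nat_lit 49) (nat_lit 1) (.cons
 (nat_lit 2241) (nat_lit 389) (nat_lit 1705) (nat_lit 1) .nil)), (nat_lit 21), (nat_lit 36), (nat_lit 61),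
 (nat_lit 1), (31, 19, 12), [1908, 889], 42⟩,
  ⟨⟨-9, -8, -59, 52, 5, -36, -8, 40, -23⟩, (.cons (nat_lit 84) (nat_lit 690) (nat_lit 27) (nat_lit 1) (.cons
 (nat_lit 793) (nat_lit 1430) (nat_lit 1770) (nat_lit 1) .nil)), (nat_lit 5), (nat_lit 46), (nat_lit 31),
 (nat_lit 1), (29, 15, 14), [2142, 2207], 53⟩,
  ⟨⟨15, -52, -31, 10, -17, 50, 46, -4, -35⟩, (.cons (nat_lit 1586) (nat_lit 1703) (nat_lit 2030) (nat_lit 1)
 (.cons (nat_lit 7) (nat_lit 822) (nat_lit 753) (nat_lit 1) .nil)), (nat_lit 59), (nat_lit 55), (nat_lit 9),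
 (nat_lit 1), (50, 51, 12), [149, 979], 33⟩,
  ⟨⟨-57, 4, 40, -8, -45, -26, -24, 24, -25⟩, (.cons (nat_lit 58) (nat_lit 1547) (nat_lit 1862) (nat_lit 1)
 (.cons (nat_lit 482) (nat_lit 1179) (nat_lit 1885) (nat_lit 1) .nil)), (nat_lit 64), (nat_lit 20), (nat_lit
 19), (nat_lit 1), (25, 50, 44), [178, 14], 63⟩,
  ⟨⟨-1, 12, -63, 50, -17, -30, 14, 44, -19⟩, (.cons (nat_lit 936) (nat_lit 1272) (nat_lit 716) (nat_lit 1)
 (.cons (nat_lit 1126) (nat_lit 2673) (nat_lit 1826) (nat_lit 1) .nil)), (nat_lit 30), (nat_lit 64), (nat_lit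
 21), (nat_lit 1), (30, 37, 4), [2196, 539], 62⟩,
  ⟨⟨1, 12, -64, -50, -17, 20, -14, 44, -5⟩, (.cons (nat_lit 897) (nat_lit 1084) (nat_lit 2057) (nat_lit 1)
 (.cons (nat_lit 1187) (nat_lit 1178) (nat_lit 104) (nat_lit 1) .nil)), (nat_lit 53), (nat_lit 51), (nat_lit
 60), (nat_lit 1), (42, 20, 48), [1679, 2271], 24⟩,
  mz,
  ⟨⟨-13, -48, -27, 30, 17, -60, 30, -36, -7⟩, (.cons (nat_lit 518) (nat_lit 107) (nat_lit 2100) (nat_lit 1)
 (.cons (nat_lit 774) (nat_lit 1255) (nat_lit 2260) (nat_lit 1) .nil)), (nat_lit 61), (nat_lit 36), (nat_lit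
 44), (nat_lit 1), (14, 37, 37), [565, 1564], 8⟩,
  ⟨⟨-15, -32, 59, 50, -17, -20, -14, -44, -5⟩, (.cons (nat_lit 364) (nat_lit 844) (nat_lit 1478) (nat_lit 1)
 (.cons (nat_lit 2375) (nat_lit 609) (nat_lit 1128) (nat_lit 1) .nil)), (nat_lit 45), (nat_lit 3), (nat_lit
 33), (nat_lit 1), (8, 44, 11), [1324, 1990], 22⟩,
  ⟨⟨15, -52, 16, 10, -17, -60, 46, -4, -11⟩, (.cons (nat_lit 112) (nat_lit 1017) (nat_lit 916) (nat_lit 1)
 (.cons (nat_lit 1105) (nat_lit 1901) (nat_lit 1002) (nat_lit 1) .nil)), (nat_lit 8), (nat_lit 46), (nat_lit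
 35), (nat_lit 1), (14, 27, 50), [1561, 805], 10⟩,
  ⟨⟨-39, -28, -17, 10, 33, -50, 18, -36, -37⟩, (.cons (nat_lit 2069) (nat_lit 2164) (nat_lit 1508) (nat_lit 1)
 (.cons (nat_lit 1333) (nat_lit 1082) (nat_lit 2453) (nat_lit 1) .nil)), (nat_lit 16), (nat_lit 54), (nat_lit
 57), (nat_lit 1), (5, 49, 14), [1744, 1692], 20⟩,
  ⟨⟨39, -28, -56, -10, 33, -40, -18, -36, -19⟩, (.cons (nat_lit 2208) (nat_lit 1412) (nat_lit 1030) (nat_lit 1)
 (.cons (nat_lit 1760) (nat_lit 1943) (nat_lit 2452) (nat_lit 1) .nil)), (nat_lit 70), (nat_lit 17), (nat_lit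
 6), (nat_lit 1), (49, 35, 10), [287, 1221], 63⟩,
  mz,
  ⟨⟨-13, -48, 40, 30, 17, 30, 30, -36, -23⟩, (.cons (nat_lit 582) (nat_lit 495) (nat_lit 1650) (nat_lit 1)
 (.cons (nat_lit 2662) (nat_lit 2301) (nat_lit 1086) (nat_lit 1) .nil)), (nat_lit 6), (nat_lit 3), (nat_lit
 12), (nat_lit 1), (45, 47, 47), [266, 1832], 28⟩]

/-- Moves. -/
noncomputable def t1_12 : List Mv := [
  mz,
  mz,
  mz,
  mz,
  ⟨⟨51, 20, -47, 10, -47, -30, -2, 20, -47⟩, (.cons (nat_lit 121) (nat_lit 1189) (nat_lit 1520) (nat_lit 1)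
 (.cons (nat_lit 649) (nat_lit 549) (nat_lit 1128) (nat_lit 1) .nil)), (nat_lit 51), (nat_lit 68), (nat_lit
 22), (nat_lit 1), (24, 39, 24), [604, 2166], 24⟩,
  ⟨⟨-53, 0, 0, 10, 47, -30, -2, -20, -47⟩, (.cons (nat_lit 2208) (nat_lit 389) (nat_lit 178) (nat_lit 1) (.cons
 (nat_lit 2361) (nat_lit 2200) (nat_lit 2730) (nat_lit 1) .nil)), (nat_lit 70), (nat_lit 7), (nat_lit 65),
 (nat_lit 1), (0, 46, 12), [1479, 2003], 43⟩,
  ⟨⟨15, 56, -11, -28, 5, -36, 40, 8, -47⟩, (.cons (nat_lit 1494) (nat_lit 899) (nat_lit 1554) (nat_lit 1)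
 (.cons (nat_lit 2695) (nat_lit 350) (nat_lit 1620) (nat_lit 1) .nil)), (nat_lit 5), (nat_lit 70), (nat_lit
 65), (nat_lit 1), (1, 37, 38), [309, 2505], 53⟩,
  mz,
  mz,
  ⟨⟨57, -4, -17, -8, -45, 34, 24, -24, -49⟩, (.cons (nat_lit 863) (nat_lit 444) (nat_lit 587) (nat_lit 1)
 (.cons (nat_lit 268) (nat_lit 2806) (nat_lit 1681) (nat_lit 1) .nil)), (nat_lit 19), (nat_lit 27), (nat_lit
 20), (nat_lit 1), (7, 39, 42), [1152, 2502], 6⟩,
  ⟨⟨-25, 48, -11, 28, -5, -64, -40, -8, -7⟩, (.cons (nat_lit 714) (nat_lit 2040) (nat_lit 163) (nat_lit 1)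
 (.cons (nat_lit 1455) (nat_lit 2755) (nat_lit 1785) (nat_lit 1) .nil)), (nat_lit 25), (nat_lit 4), (nat_lit
 10), (nat_lit 1), (52, 52, 9), [131, 2339], 57⟩,
  ⟨⟨-1, -12, -63, -50, -17, 30, 14, -44, -19⟩, (.cons (nat_lit 1163) (nat_lit 895) (nat_lit 684) (nat_lit 1)
 (.cons (nat_lit 561) (nat_lit 2408) (nat_lit 2506) (nat_lit 1) .nil)), (nat_lit 59), (nat_lit 2), (nat_lit
 70), (nat_lit 1), (44, 27, 20), [2170, 155], 33⟩,
  ⟨⟨53, 0, -53, 10, 47, 20, 2, 20, -49⟩, (.cons (nat_lit 988) (nat_lit 1313) (nat_lit 599) (nat_lit 1) (.cons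
 (nat_lit 416) (nat_lit 492) (nat_lit 2224) (nat_lit 1) .nil)), (nat_lit 62), (nat_lit 51), (nat_lit 32),
 (nat_lit 1), (0, 28, 48), [633, 1091], 69⟩,
  mz,
  mz,
  ⟨⟨-51, -20, 4, -10, 47, -20, 2, -20, -49⟩, (.cons (nat_lit 2208) (nat_lit 1538) (nat_lit 386) (nat_lit 1)
 (.cons (nat_lit 2336) (nat_lit 1845) (nat_lit 2781) (nat_lit 1) .nil)), (nat_lit 70), (nat_lit 12), (nat_lit
 24), (nat_lit 1), (36, 32, 36), [539, 625], 19⟩,
  ⟨⟨15, 52, 16, 10, 17, -60, 46, 4, -11⟩, (.cons (nat_lit 1187) (nat_lit 1139) (nat_lit 1495) (nat_lit 1)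
 (.cons (nat_lit 1327) (nat_lit 2140) (nat_lit 995) (nat_lit 1) .nil)), (nat_lit 67), (nat_lit 62), (nat_lit
 27), (nat_lit 1), (24, 16, 10), [1120, 1560], 42⟩,
  ⟨⟨31, -48, -4, -10, -17, -50, 46, 4, -35⟩, (.cons (nat_lit 991) (nat_lit 854) (nat_lit 2058) (nat_lit 1)
 (.cons (nat_lit 256) (nat_lit 2259) (nat_lit 1541) (nat_lit 1) .nil)), (nat_lit 53), (nat_lit 37), (nat_lit
 52), (nat_lit 1), (18, 13, 25), [1632, 2297], 24⟩,
  ⟨⟨-57, -4, 40, -8, 45, -26, -24, -24, -25⟩, (.cons (nat_lit 1928) (nat_lit 1882) (nat_lit 1680) (nat_lit 1)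
 (.cons (nat_lit 504) (nat_lit 282) (nat_lit 1911) (nat_lit 1) .nil)), (nat_lit 17), (nat_lit 39), (nat_lit
 38), (nat_lit 1), (12, 24, 19), [2030, 930], 29⟩,
  mz,
  mz,
  ⟨⟨57, 4, -17, 8, -45, -34, 24, 24, -49⟩, (.cons (nat_lit 1587) (nat_lit 43) (nat_lit 629) (nat_lit 1) (.cons
 (nat_lit 2475) (nat_lit 608) (nat_lit 63) (nat_lit 1) .nil)), (nat_lit 15), (nat_lit 21), (nat_lit 55),
 (nat_lit 1), (20, 40, 14), [319, 688], 1⟩,
  ⟨⟨45, 28, -49, 28, -45, -14, 0, 0, -53⟩, (.cons (nat_lit 2208) (nat_lit 2130) (nat_lit 1172) (nat_lit 1)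
 (.cons (nat_lit 358) (nat_lit 1201) (nat_lit 2700) (nat_lit 1) .nil)), (nat_lit 70), (nat_lit 61), (nat_lit
 26), (nat_lit 1), (24, 22, 0), [922, 2053], 24⟩,
  mz,
  ⟨⟨-13, 48, -27, 30, -17, -60, 30, 36, -7⟩, (.cons (nat_lit 217) (nat_lit 1623) (nat_lit 277) (nat_lit 1)
 (.cons (nat_lit 882) (nat_lit 673) (nat_lit 745) (nat_lit 1) .nil)), (nat_lit 0), (nat_lit 42), (nat_lit 47),
 (nat_lit 1), (11, 48, 48), [533, 501], 39⟩,
  mz,
  ⟨⟨-25, -48, -11, 28, 5, -64, -40, 8, -7⟩, (.cons (nat_lit 977) (nat_lit 464) (nat_lit 1078) (nat_lit 1)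
 (.cons (nat_lit 2156) (nat_lit 1920) (nat_lit 1) (nat_lit 1219) .nil)), (nat_lit 44), (nat_lit 11), (nat_lit
 43), (nat_lit 1), (2, 2, 35), [1202, 171], 17⟩,
  mz,
  ⟨⟨-1, -48, 37, 52, 5, -16, 8, -40, -31⟩, (.cons (nat_lit 1001) (nat_lit 1373) (nat_lit 1791) (nat_lit 1)
 (.cons (nat_lit 2138) (nat_lit 2455) (nat_lit 1434) (nat_lit 1) .nil)), (nat_lit 57), (nat_lit 57), (nat_lit
 58), (nat_lit 1), (29, 29, 33), [451, 1464], 22⟩,
  ⟨⟨43, -12, -63, -30, 17, -30, 30, 36, -23⟩, (.cons (nat_lit 906) (nat_lit 756) (nat_lit 864) (nat_lit 1)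
 (.cons (nat_lit 470) (nat_lit 618) (nat_lit 2144) (nat_lit 1) .nil)), (nat_lit 3), (nat_lit 16), (nat_lit 1),
 (nat_lit 0), (16, 48, 5), [116, 1326], 4⟩,
  mz,
  ⟨⟨-45, 28, -4, -28, -45, 14, 0, 0, -53⟩, (.cons (nat_lit 1881) (nat_lit 861) (nat_lit 614) (nat_lit 1) (.cons
 (nat_lit 1091) (nat_lit 219) (nat_lit 1907) (nat_lit 1) .nil)), (nat_lit 1), (nat_lit 62), (nat_lit 5),
 (nat_lit 1), (14, 4, 0), [1627, 810], 47⟩,
  mz,
  ⟨⟨-39, 28, -17, -10, 33, 50, 18, 36, -37⟩, (.cons (nat_lit 48) (nat_lit 1625) (nat_lit 855) (nat_lit 1)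
 (.cons (nat_lit 2735) (nat_lit 379) (nat_lit 1125) (nat_lit 1) .nil)), (nat_lit 16), (nat_lit 60), (nat_lit
 30), (nat_lit 1), (43, 45, 25), [475, 519], 20⟩,
  mz,
  mz,
  ⟨⟨1, -48, 36, 52, -5, -36, -8, -40, -23⟩, (.cons (nat_lit 2094) (nat_lit 1104) (nat_lit 1324) (nat_lit 1)
 (.cons (nat_lit 1360) (nat_lit 137) (nat_lit 607) (nat_lit 1) .nil)), (nat_lit 2), (nat_lit 64), (nat_lit 58),
 (nat_lit 1), (41, 12, 43), [1935, 338], 31⟩,
  ⟨⟨-1, 48, 37, 52, -5, -16, 8, 40, -31⟩, (.cons (nat_lit 1607) (nat_lit 1582) (nat_lit 62) (nat_lit 1) (.cons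
 (nat_lit 1052) (nat_lit 1760) (nat_lit 1147) (nat_lit 1) .nil)), (nat_lit 25), (nat_lit 18), (nat_lit 18),
 (nat_lit 1), (26, 26, 4), [554, 2003], 57⟩,
  ⟨⟨-57, 8, 37, 10, 33, 40, -18, 36, -19⟩, (.cons (nat_lit 2163) (nat_lit 1853) (nat_lit 1777) (nat_lit 1)
 (.cons (nat_lit 1914) (nat_lit 2697) (nat_lit 1754) (nat_lit 1) .nil)), (nat_lit 40), (nat_lit 14), (nat_lit
 7), (nat_lit 1), (40, 6, 21), [5, 1732], 50⟩,
  ⟨⟨15, -56, -11, 28, 5, 36, 40, -8, -47⟩, (.cons (nat_lit 484) (nat_lit 777) (nat_lit 49) (nat_lit 1) (.cons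
 (nat_lit 2241) (nat_lit 389) (nat_lit 1705) (nat_lit 1) .nil)), (nat_lit 21), (nat_lit 36), (nat_lit 61),
 (nat_lit 1), (31, 19, 12), [1908, 889], 42⟩,
  ⟨⟨-9, -8, -59, -52, -5, 36, -8, 40, -23⟩, (.cons (nat_lit 1372) (nat_lit 1285) (nat_lit 2100) (nat_lit 1)
 (.cons (nat_lit 1721) (nat_lit 135) (nat_lit 1964) (nat_lit 1) .nil)), (nat_lit 57), (nat_lit 15), (nat_lit
 36), (nat_lit 1), (29, 38, 14), [1024, 627], 32⟩,
  ⟨⟨31, 48, -4, 10, -17, 50, 46, -4, -35⟩, (.cons (nat_lit 1704) (nat_lit 1587) (nat_lit 1043) (nat_lit 1)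
 (.cons (nat_lit 1334) (nat_lit 2711) (nat_lit 2029) (nat_lit 1) .nil)), (nat_lit 43), (nat_lit 58), (nat_lit
 44), (nat_lit 1), (15, 51, 12), [196, 737], 6⟩,
  ⟨⟨33, 20, -65, -8, -45, -26, -24, 24, -25⟩, (.cons (nat_lit 1728) (nat_lit 1884) (nat_lit 1439) (nat_lit 1)
 (.cons (nat_lit 1583) (nat_lit 1834) (nat_lit 1887) (nat_lit 1) .nil)), (nat_lit 15), (nat_lit 28), (nat_lit
 59), (nat_lit 1), (19, 50, 44), [601, 1513], 1⟩,
  ⟨⟨15, 32, 44, 50, -17, -30, 14, 44, -19⟩, (.cons (nat_lit 1461) (nat_lit 843) (nat_lit 387) (nat_lit 1)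
 (.cons (nat_lit 2239) (nat_lit 416) (nat_lit 2194) (nat_lit 1) .nil)), (nat_lit 38), (nat_lit 68), (nat_lit
 32), (nat_lit 1), (27, 37, 4), [1397, 2460], 2⟩,
  ⟨⟨-15, 32, 59, -50, -17, 20, -14, 44, -5⟩, (.cons (nat_lit 1124) (nat_lit 1031) (nat_lit 177) (nat_lit 1)
 (.cons (nat_lit 2238) (nat_lit 1753) (nat_lit 2278) (nat_lit 1) .nil)), (nat_lit 65), (nat_lit 46), (nat_lit
 54), (nat_lit 1), (6, 20, 48), [880, 2316], 52⟩,
  mz,
  ⟨⟨-13, -48, -27, 30, 17, -60, 30, -36, -7⟩, (.cons (nat_lit 518) (nat_lit 107) (nat_lit 2100) (nat_lit 1)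
 (.cons (nat_lit 774) (nat_lit 1255) (nat_lit 2260) (nat_lit 1) .nil)), (nat_lit 61), (nat_lit 36), (nat_lit
 44), (nat_lit 1), (14, 37, 37), [565, 1564], 8⟩,
  ⟨⟨-15, -32, 59, 50, -17, -20, -14, -44, -5⟩, (.cons (nat_lit 364) (nat_lit 844) (nat_lit 1478) (nat_lit 1)
 (.cons (nat_lit 2375) (nat_lit 609) (nat_lit 1128) (nat_lit 1) .nil)), (nat_lit 45), (nat_lit 3), (nat_lit
 33), (nat_lit 1), (8, 44, 11), [1324, 1990], 22⟩,
  ⟨⟨31, 48, -27, -10, 17, 60, 46, -4, -11⟩, (.cons (nat_lit 1265) (nat_lit 1042) (nat_lit 668) (nat_lit 1)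
 (.cons (nat_lit 1436) (nat_lit 2808) (nat_lit 92) (nat_lit 1) .nil)), (nat_lit 65), (nat_lit 12), (nat_lit
 65), (nat_lit 1), (36, 26, 50), [107, 1528], 19⟩,
  ⟨⟨-39, -28, -17, 10, 33, -50, 18, -36, -37⟩, (.cons (nat_lit 2069) (nat_lit 2164) (nat_lit 1508) (nat_lit 1)
 (.cons (nat_lit 1333) (nat_lit 1082) (nat_lit 2453) (nat_lit 1) .nil)), (nat_lit 16), (nat_lit 54), (nat_lit
 57), (nat_lit 1), (5, 49, 14), [1744, 1692], 20⟩,
  ⟨⟨39, -28, -56, -10, 33, -40, -18, -36, -19⟩, (.cons (nat_lit 2208) (nat_lit 1412) (nat_lit 1030) (nat_lit 1)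
 (.cons (nat_lit 1760) (nat_lit 1943) (nat_lit 2452) (nat_lit 1) .nil)), (nat_lit 70), (nat_lit 17), (nat_lit
 6), (nat_lit 1), (49, 35, 10), [287, 1221], 63⟩,
  mz,
  ⟨⟨43, 12, -63, -30, -17, -30, 30, -36, -23⟩, (.cons (nat_lit 2022) (nat_lit 489) (nat_lit 1093) (nat_lit 1)
 (.cons (nat_lit 2374) (nat_lit 2513) (nat_lit 1923) (nat_lit 1) .nil)), (nat_lit 7), (nat_lit 42), (nat_lit
 2), (nat_lit 1), (2, 6, 47), [140, 1454], 34⟩]

/-- Moves. -/
noncomputable def t1_15 : List Mv := [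
  mz,
  mz,
  mz,
  mz,
  ⟨⟨51, 20, -47, 10, -47, -30, -2, 20, -47⟩, (.cons (nat_lit 121) (nat_lit 1189) (nat_lit 1520) (nat_lit 1)
 (.cons (nat_lit 649) (nat_lit 549) (nat_lit 1128) (nat_lit 1) .nil)), (nat_lit 51), (nat_lit 68), (nat_lit
 22), (nat_lit 1), (24, 39, 24), [604, 2166], 24⟩,
  ⟨⟨-53, 0, 0, 10, 47, -30, -2, -20, -47⟩, (.cons (nat_lit 2208) (nat_lit 389) (nat_lit 178) (nat_lit 1) (.cons
 (nat_lit 2361) (nat_lit 2200) (nat_lit 2730) (nat_lit 1) .nil)), (nat_lit 70), (nat_lit 7), (nat_lit 65),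
 (nat_lit 1), (0, 46, 12), [1479, 2003], 43⟩,
  ⟨⟨15, 56, -11, -28, 5, -36, 40, 8, -47⟩, (.cons (nat_lit 1494) (nat_lit 899) (nat_lit 1554) (nat_lit 1)
 (.cons (nat_lit 2695) (nat_lit 350) (nat_lit 1620) (nat_lit 1) .nil)), (nat_lit 5), (nat_lit 70), (nat_lit
 65), (nat_lit 1), (1, 37, 38), [309, 2505], 53⟩,
  mz,
  mz,
  ⟨⟨57, -4, -17, -8, -45, 34, 24, -24, -49⟩, (.cons (nat_lit 863) (nat_lit 444) (nat_lit 587) (nat_lit 1)
 (.cons (nat_lit 268) (nat_lit 2806) (nat_lit 1681) (nat_lit 1) .nil)), (nat_lit 19), (nat_lit 27), (nat_lit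
 20), (nat_lit 1), (7, 39, 42), [1152, 2502], 6⟩,
  ⟨⟨-25, 48, -11, 28, -5, -64, -40, -8, -7⟩, (.cons (nat_lit 714) (nat_lit 2040) (nat_lit 163) (nat_lit 1)
 (.cons (nat_lit 1455) (nat_lit 2755) (nat_lit 1785) (nat_lit 1) .nil)), (nat_lit 25), (nat_lit 4), (nat_lit
 10), (nat_lit 1), (52, 52, 9), [131, 2339], 57⟩,
  ⟨⟨15, -32, 44, -50, -17, 30, 14, -44, -19⟩, (.cons (nat_lit 905) (nat_lit 280) (nat_lit 1906) (nat_lit 1)
 (.cons (nat_lit 1320) (nat_lit 1688) (nat_lit 352) (nat_lit 1) .nil)), (nat_lit 67), (nat_lit 6), (nat_lit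
 66), (nat_lit 1), (29, 27, 20), [572, 2652], 29⟩,
  ⟨⟨-51, 20, 4, -10, -47, -20, 2, 20, -49⟩, (.cons (nat_lit 1900) (nat_lit 1800) (nat_lit 924) (nat_lit 1)
 (.cons (nat_lit 1105) (nat_lit 2442) (nat_lit 2547) (nat_lit 1) .nil)), (nat_lit 54), (nat_lit 15), (nat_lit
 4), (nat_lit 1), (48, 25, 48), [369, 2352], 34⟩,
  mz,
  mz,
  ⟨⟨53, 0, -53, 10, -47, 20, 2, -20, -49⟩, (.cons (nat_lit 712) (nat_lit 1688) (nat_lit 170) (nat_lit 1) (.cons
 (nat_lit 2023) (nat_lit 577) (nat_lit 1526) (nat_lit 1) .nil)), (nat_lit 39), (nat_lit 46), (nat_lit 65),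
 (nat_lit 1), (0, 21, 36), [268, 738], 10⟩,
  ⟨⟨15, 52, 16, 10, 17, -60, 46, 4, -11⟩, (.cons (nat_lit 1187) (nat_lit 1139) (nat_lit 1495) (nat_lit 1)
 (.cons (nat_lit 1327) (nat_lit 2140) (nat_lit 995) (nat_lit 1) .nil)), (nat_lit 67), (nat_lit 62), (nat_lit
 27), (nat_lit 1), (24, 16, 10), [1120, 1560], 42⟩,
  ⟨⟨31, -48, -4, -10, -17, -50, 46, 4, -35⟩, (.cons (nat_lit 991) (nat_lit 854) (nat_lit 2058) (nat_lit 1)
 (.cons (nat_lit 256) (nat_lit 2259) (nat_lit 1541) (nat_lit 1) .nil)), (nat_lit 53), (nat_lit 37), (nat_lit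
 52), (nat_lit 1), (18, 13, 25), [1632, 2297], 24⟩,
  ⟨⟨33, -20, -65, -8, 45, -26, -24, -24, -25⟩, (.cons (nat_lit 2208) (nat_lit 1502) (nat_lit 1962) (nat_lit 1)
 (.cons (nat_lit 2371) (nat_lit 843) (nat_lit 1071) (nat_lit 1) .nil)), (nat_lit 70), (nat_lit 8), (nat_lit 9),
 (nat_lit 1), (7, 24, 19), [1889, 1602], 35⟩,
  mz,
  mz,
  ⟨⟨-33, 20, -32, 8, -45, -34, 24, 24, -49⟩, (.cons (nat_lit 1045) (nat_lit 1179) (nat_lit 1052) (nat_lit 1)
 (.cons (nat_lit 28) (nat_lit 1466) (nat_lit 402) (nat_lit 1) .nil)), (nat_lit 67), (nat_lit 63), (nat_lit 35),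
 (nat_lit 1), (47, 40, 14), [742, 2223], 69⟩,
  ⟨⟨45, 28, -49, 28, -45, -14, 0, 0, -53⟩, (.cons (nat_lit 2208) (nat_lit 2130) (nat_lit 1172) (nat_lit 1)
 (.cons (nat_lit 358) (nat_lit 1201) (nat_lit 2700) (nat_lit 1) .nil)), (nat_lit 70), (nat_lit 61), (nat_lit
 26), (nat_lit 1), (24, 22, 0), [922, 2053], 24⟩,
  mz,
  ⟨⟨-13, 48, -27, 30, -17, -60, 30, 36, -7⟩, (.cons (nat_lit 217) (nat_lit 1623) (nat_lit 277) (nat_lit 1)
 (.cons (nat_lit 882) (nat_lit 673) (nat_lit 745) (nat_lit 1) .nil)), (nat_lit 0), (nat_lit 42), (nat_lit 47),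
 (nat_lit 1), (11, 48, 48), [533, 501], 39⟩,
  mz,
  ⟨⟨-25, -48, -11, -28, -5, 64, -40, 8, -7⟩, (.cons (nat_lit 256) (nat_lit 181) (nat_lit 1396) (nat_lit 1)
 (.cons (nat_lit 163) (nat_lit 2494) (nat_lit 175) (nat_lit 1) .nil)), (nat_lit 5), (nat_lit 67), (nat_lit 33),
 (nat_lit 1), (2, 51, 35), [1653, 1917], 19⟩,
  mz,
  ⟨⟨-1, -48, 37, 52, 5, -16, 8, -40, -31⟩, (.cons (nat_lit 1001) (nat_lit 1373) (nat_lit 1791) (nat_lit 1)
 (.cons (nat_lit 2138) (nat_lit 2455) (nat_lit 1434) (nat_lit 1) .nil)), (nat_lit 57), (nat_lit 57), (nat_lit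
 58), (nat_lit 1), (29, 29, 33), [451, 1464], 22⟩,
  ⟨⟨-13, 48, 40, -30, 17, -30, 30, 36, -23⟩, (.cons (nat_lit 1021) (nat_lit 466) (nat_lit 817) (nat_lit 1)
 (.cons (nat_lit 1679) (nat_lit 1827) (nat_lit 1024) (nat_lit 1) .nil)), (nat_lit 12), (nat_lit 35), (nat_lit
 69), (nat_lit 1), (42, 48, 5), [163, 1184], 56⟩,
  mz,
  ⟨⟨45, -28, -49, 28, 45, -14, 0, 0, -53⟩, (.cons (nat_lit 1270) (nat_lit 580) (nat_lit 116) (nat_lit 1) (.cons
 (nat_lit 2384) (nat_lit 372) (nat_lit 1920) (nat_lit 1) .nil)), (nat_lit 1), (nat_lit 57), (nat_lit 63),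
 (nat_lit 1), (39, 49, 0), [1683, 1179], 61⟩,
  mz,
  ⟨⟨-39, 28, -17, -10, 33, 50, 18, 36, -37⟩, (.cons (nat_lit 48) (nat_lit 1625) (nat_lit 855) (nat_lit 1)
 (.cons (nat_lit 2735) (nat_lit 379) (nat_lit 1125) (nat_lit 1) .nil)), (nat_lit 16), (nat_lit 60), (nat_lit
 30), (nat_lit 1), (43, 45, 25), [475, 519], 20⟩,
  mz,
  mz,
  ⟨⟨-9, 8, -59, 52, -5, -36, -8, -40, -23⟩, (.cons (nat_lit 1055) (nat_lit 1575) (nat_lit 337) (nat_lit 1)
 (.cons (nat_lit 2549) (nat_lit 711) (nat_lit 610) (nat_lit 1) .nil)), (nat_lit 54), (nat_lit 68), (nat_lit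
 28), (nat_lit 1), (2, 12, 43), [1230, 1425], 1⟩,
  ⟨⟨-1, 48, 37, 52, -5, -16, 8, 40, -31⟩, (.cons (nat_lit 1607) (nat_lit 1582) (nat_lit 62) (nat_lit 1) (.cons
 (nat_lit 1052) (nat_lit 1760) (nat_lit 1147) (nat_lit 1) .nil)), (nat_lit 25), (nat_lit 18), (nat_lit 18),
 (nat_lit 1), (26, 26, 4), [554, 2003], 57⟩,
  ⟨⟨39, 28, -56, -10, -33, -40, -18, 36, -19⟩, (.cons (nat_lit 456) (nat_lit 764) (nat_lit 1591) (nat_lit 1)
 (.cons (nat_lit 1911) (nat_lit 2057) (nat_lit 52) (nat_lit 1) .nil)), (nat_lit 63), (nat_lit 9), (nat_lit 13),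
 (nat_lit 1), (34, 47, 21), [373, 1689], 49⟩,
  ⟨⟨15, -56, -11, -28, -5, -36, 40, -8, -47⟩, (.cons (nat_lit 56) (nat_lit 686) (nat_lit 1106) (nat_lit 1)
 (.cons (nat_lit 20) (nat_lit 996) (nat_lit 2522) (nat_lit 1) .nil)), (nat_lit 57), (nat_lit 8), (nat_lit 32),
 (nat_lit 1), (31, 34, 12), [1447, 2163], 32⟩,
  ⟨⟨-9, -8, -59, 52, 5, -36, -8, 40, -23⟩, (.cons (nat_lit 84) (nat_lit 690) (nat_lit 27) (nat_lit 1) (.cons
 (nat_lit 793) (nat_lit 1430) (nat_lit 1770) (nat_lit 1) .nil)), (nat_lit 5), (nat_lit 46), (nat_lit 31),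
 (nat_lit 1), (29, 15, 14), [2142, 2207], 53⟩,
  ⟨⟨15, -52, -31, 10, -17, 50, 46, -4, -35⟩, (.cons (nat_lit 1586) (nat_lit 1703) (nat_lit 2030) (nat_lit 1)
 (.cons (nat_lit 7) (nat_lit 822) (nat_lit 753) (nat_lit 1) .nil)), (nat_lit 59), (nat_lit 55), (nat_lit 9),
 (nat_lit 1), (50, 51, 12), [149, 979], 33⟩,
  ⟨⟨33, 20, -65, 8, 45, 26, -24, 24, -25⟩, (.cons (nat_lit 2208) (nat_lit 1444) (nat_lit 808) (nat_lit 1)
 (.cons (nat_lit 538) (nat_lit 2463) (nat_lit 616) (nat_lit 1) .nil)), (nat_lit 70), (nat_lit 56), (nat_lit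
 60), (nat_lit 1), (19, 3, 44), [1372, 2619], 65⟩,
  ⟨⟨-1, 12, -63, 50, -17, -30, 14, 44, -19⟩, (.cons (nat_lit 936) (nat_lit 1272) (nat_lit 716) (nat_lit 1)
 (.cons (nat_lit 1126) (nat_lit 2673) (nat_lit 1826) (nat_lit 1) .nil)), (nat_lit 30), (nat_lit 64), (nat_lit
 21), (nat_lit 1), (30, 37, 4), [2196, 539], 62⟩,
  ⟨⟨-15, 32, 59, -50, -17, 20, -14, 44, -5⟩, (.cons (nat_lit 1124) (nat_lit 1031) (nat_lit 177) (nat_lit 1)
 (.cons (nat_lit 2238) (nat_lit 1753) (nat_lit 2278) (nat_lit 1) .nil)), (nat_lit 65), (nat_lit 46), (nat_lit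
 54), (nat_lit 1), (6, 20, 48), [880, 2316], 52⟩,
  mz,
  ⟨⟨-13, -48, -27, 30, 17, -60, 30, -36, -7⟩, (.cons (nat_lit 518) (nat_lit 107) (nat_lit 2100) (nat_lit 1)
 (.cons (nat_lit 774) (nat_lit 1255) (nat_lit 2260) (nat_lit 1) .nil)), (nat_lit 61), (nat_lit 36), (nat_lit
 44), (nat_lit 1), (14, 37, 37), [565, 1564], 8⟩,
  ⟨⟨-15, -32, 59, -50, 17, 20, -14, -44, -5⟩, (.cons (nat_lit 2144) (nat_lit 1953) (nat_lit 2074) (nat_lit 1)
 (.cons (nat_lit 1303) (nat_lit 2501) (nat_lit 2749) (nat_lit 1) .nil)), (nat_lit 57), (nat_lit 50), (nat_lit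
 52), (nat_lit 1), (8, 9, 11), [554, 2486], 50⟩,
  ⟨⟨15, -52, 16, 10, -17, -60, 46, -4, -11⟩, (.cons (nat_lit 112) (nat_lit 1017) (nat_lit 916) (nat_lit 1)
 (.cons (nat_lit 1105) (nat_lit 1901) (nat_lit 1002) (nat_lit 1) .nil)), (nat_lit 8), (nat_lit 46), (nat_lit
 35), (nat_lit 1), (14, 27, 50), [1561, 805], 10⟩,
  ⟨⟨-39, -28, -17, 10, 33, -50, 18, -36, -37⟩, (.cons (nat_lit 2069) (nat_lit 2164) (nat_lit 1508) (nat_lit 1)
 (.cons (nat_lit 1333) (nat_lit 1082) (nat_lit 2453) (nat_lit 1) .nil)), (nat_lit 16), (nat_lit 54), (nat_lit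
 57), (nat_lit 1), (5, 49, 14), [1744, 1692], 20⟩,
  ⟨⟨-57, -8, 37, 10, -33, 40, -18, -36, -19⟩, (.cons (nat_lit 2011) (nat_lit 1154) (nat_lit 164) (nat_lit 1)
 (.cons (nat_lit 1508) (nat_lit 403) (nat_lit 1027) (nat_lit 1) .nil)), (nat_lit 57), (nat_lit 45), (nat_lit
 25), (nat_lit 1), (14, 18, 10), [1157, 2259], 17⟩,
  mz,
  ⟨⟨43, 12, -63, 30, 17, 30, 30, -36, -23⟩, (.cons (nat_lit 2191) (nat_lit 351) (nat_lit 1415) (nat_lit 1)
 (.cons (nat_lit 1990) (nat_lit 2628) (nat_lit 1495) (nat_lit 1) .nil)), (nat_lit 54), (nat_lit 65), (nat_lit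
 44), (nat_lit 1), (2, 47, 47), [454, 112], 27⟩]

/-- Moves. -/
noncomputable def t1_18 : List Mv := [
  mz,
  mz,
  mz,
  mz,
  ⟨⟨-53, 0, 0, -10, 47, 30, -2, 20, -47⟩, (.cons (nat_lit 2208) (nat_lit 1971) (nat_lit 858) (nat_lit 1) (.cons
 (nat_lit 675) (nat_lit 575) (nat_lit 182) (nat_lit 1) .nil)), (nat_lit 70), (nat_lit 29), (nat_lit 54),
 (nat_lit 1), (0, 14, 24), [868, 2767], 19⟩,
  ⟨⟨-53, 0, 0, -10, -47, 30, -2, -20, -47⟩, (.cons (nat_lit 463) (nat_lit 701) (nat_lit 112) (nat_lit 1) (.cons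
 (nat_lit 1970) (nat_lit 2631) (nat_lit 837) (nat_lit 1) .nil)), (nat_lit 25), (nat_lit 33), (nat_lit 52),
 (nat_lit 1), (0, 7, 12), [1349, 730], 21⟩,
  ⟨⟨15, 56, -11, -28, 5, -36, 40, 8, -47⟩, (.cons (nat_lit 1494) (nat_lit 899) (nat_lit 1554) (nat_lit 1)
 (.cons (nat_lit 2695) (nat_lit 350) (nat_lit 1620) (nat_lit 1) .nil)), (nat_lit 5), (nat_lit 70), (nat_lit
 65), (nat_lit 1), (1, 37, 38), [309, 2505], 53⟩,
  mz,
  mz,
  ⟨⟨57, -4, -17, -8, -45, 34, 24, -24, -49⟩, (.cons (nat_lit 863) (nat_lit 444) (nat_lit 587) (nat_lit 1)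
 (.cons (nat_lit 268) (nat_lit 2806) (nat_lit 1681) (nat_lit 1) .nil)), (nat_lit 19), (nat_lit 27), (nat_lit
 20), (nat_lit 1), (7, 39, 42), [1152, 2502], 6⟩,
  ⟨⟨-25, 48, -11, -28, 5, 64, -40, -8, -7⟩, (.cons (nat_lit 1236) (nat_lit 2043) (nat_lit 1972) (nat_lit 1)
 (.cons (nat_lit 204) (nat_lit 1725) (nat_lit 498) (nat_lit 1) .nil)), (nat_lit 57), (nat_lit 5), (nat_lit 8),
 (nat_lit 1), (52, 1, 9), [592, 2101], 22⟩,
  ⟨⟨15, -32, 44, 50, 17, -30, 14, -44, -19⟩, (.cons (nat_lit 1240) (nat_lit 1248) (nat_lit 88) (nat_lit 1)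
 (.cons (nat_lit 2249) (nat_lit 1588) (nat_lit 82) (nat_lit 1) .nil)), (nat_lit 8), (nat_lit 63), (nat_lit 65),
 (nat_lit 1), (29, 26, 20), [507, 1562], 61⟩,
  ⟨⟨53, 0, -53, -10, -47, -20, 2, 20, -49⟩, (.cons (nat_lit 2001) (nat_lit 127) (nat_lit 407) (nat_lit 1)
 (.cons (nat_lit 1492) (nat_lit 2238) (nat_lit 1740) (nat_lit 1) .nil)), (nat_lit 23), (nat_lit 12), (nat_lit
 54), (nat_lit 1), (0, 25, 48), [1873, 646], 32⟩,
  mz,
  mz,
  ⟨⟨53, 0, -53, -10, 47, -20, 2, -20, -49⟩, (.cons (nat_lit 48) (nat_lit 1940) (nat_lit 339) (nat_lit 1) (.cons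
 (nat_lit 1549) (nat_lit 203) (nat_lit 331) (nat_lit 1) .nil)), (nat_lit 62), (nat_lit 15), (nat_lit 52),
 (nat_lit 1), (0, 32, 36), [2043, 1037], 69⟩,
  ⟨⟨31, -48, -27, 10, 17, -60, 46, 4, -11⟩, (.cons (nat_lit 2150) (nat_lit 2151) (nat_lit 273) (nat_lit 1)
 (.cons (nat_lit 626) (nat_lit 2414) (nat_lit 1) (nat_lit 2279) .nil)), (nat_lit 45), (nat_lit 31), (nat_lit
 49), (nat_lit 1), (39, 16, 10), [1073, 77], 49⟩,
  ⟨⟨15, 52, -31, -10, -17, -50, 46, 4, -35⟩, (.cons (nat_lit 795) (nat_lit 556) (nat_lit 178) (nat_lit 1)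
 (.cons (nat_lit 832) (nat_lit 1098) (nat_lit 674) (nat_lit 1) .nil)), (nat_lit 30), (nat_lit 52), (nat_lit 4),
 (nat_lit 1), (7, 13, 25), [974, 453], 62⟩,
  ⟨⟨-57, -4, 40, -8, 45, -26, -24, -24, -25⟩, (.cons (nat_lit 1928) (nat_lit 1882) (nat_lit 1680) (nat_lit 1)
 (.cons (nat_lit 504) (nat_lit 282) (nat_lit 1911) (nat_lit 1) .nil)), (nat_lit 17), (nat_lit 39), (nat_lit
 38), (nat_lit 1), (12, 24, 19), [2030, 930], 29⟩,
  mz,
  mz,
  ⟨⟨57, 4, -17, -8, 45, 34, 24, 24, -49⟩, (.cons (nat_lit 2208) (nat_lit 1564) (nat_lit 790) (nat_lit 1) (.cons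
 (nat_lit 515) (nat_lit 2364) (nat_lit 2301) (nat_lit 1) .nil)), (nat_lit 70), (nat_lit 2), (nat_lit 36),
 (nat_lit 1), (20, 13, 14), [1137, 825], 35⟩,
  ⟨⟨45, 28, -49, 28, -45, -14, 0, 0, -53⟩, (.cons (nat_lit 2208) (nat_lit 2130) (nat_lit 1172) (nat_lit 1)
 (.cons (nat_lit 358) (nat_lit 1201) (nat_lit 2700) (nat_lit 1) .nil)), (nat_lit 70), (nat_lit 61), (nat_lit
 26), (nat_lit 1), (24, 22, 0), [922, 2053], 24⟩,
  mz,
  ⟨⟨-13, 48, -27, 30, -17, -60, 30, 36, -7⟩, (.cons (nat_lit 217) (nat_lit 1623) (nat_lit 277) (nat_lit 1)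
 (.cons (nat_lit 882) (nat_lit 673) (nat_lit 745) (nat_lit 1) .nil)), (nat_lit 0), (nat_lit 42), (nat_lit 47),
 (nat_lit 1), (11, 48, 48), [533, 501], 39⟩,
  mz,
  ⟨⟨-25, -48, -11, -28, -5, 64, -40, 8, -7⟩, (.cons (nat_lit 256) (nat_lit 181) (nat_lit 1396) (nat_lit 1)
 (.cons (nat_lit 163) (nat_lit 2494) (nat_lit 175) (nat_lit 1) .nil)), (nat_lit 5), (nat_lit 67), (nat_lit 33),
 (nat_lit 1), (2, 51, 35), [1653, 1917], 19⟩,
  mz,
  ⟨⟨9, 8, -68, 52, 5, -16, 8, -40, -31⟩, (.cons (nat_lit 926) (nat_lit 178) (nat_lit 1650) (nat_lit 1) (.cons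
 (nat_lit 735) (nat_lit 525) (nat_lit 968) (nat_lit 1) .nil)), (nat_lit 7), (nat_lit 43), (nat_lit 62),
 (nat_lit 1), (4, 29, 33), [1203, 964], 8⟩,
  ⟨⟨-13, 48, 40, 30, -17, 30, 30, 36, -23⟩, (.cons (nat_lit 2208) (nat_lit 1282) (nat_lit 485) (nat_lit 1)
 (.cons (nat_lit 1192) (nat_lit 2417) (nat_lit 1399) (nat_lit 1) .nil)), (nat_lit 70), (nat_lit 0), (nat_lit
 49), (nat_lit 1), (42, 5, 5), [2208, 1845], 18⟩,
  mz,
  ⟨⟨45, -28, -49, 28, 45, -14, 0, 0, -53⟩, (.cons (nat_lit 1270) (nat_lit 580) (nat_lit 116) (nat_lit 1) (.cons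
 (nat_lit 2384) (nat_lit 372) (nat_lit 1920) (nat_lit 1) .nil)), (nat_lit 1), (nat_lit 57), (nat_lit 63),
 (nat_lit 1), (39, 49, 0), [1683, 1179], 61⟩,
  mz,
  ⟨⟨-39, 28, -17, 10, -33, -50, 18, 36, -37⟩, (.cons (nat_lit 1283) (nat_lit 1657) (nat_lit 1652) (nat_lit 1)
 (.cons (nat_lit 1444) (nat_lit 968) (nat_lit 1303) (nat_lit 1) .nil)), (nat_lit 5), (nat_lit 59), (nat_lit
 17), (nat_lit 1), (43, 8, 25), [279, 1428], 70⟩,
  mz,
  mz,
  ⟨⟨-9, 8, -59, 52, -5, -36, -8, -40, -23⟩, (.cons (nat_lit 1055) (nat_lit 1575) (nat_lit 337) (nat_lit 1)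
 (.cons (nat_lit 2549) (nat_lit 711) (nat_lit 610) (nat_lit 1) .nil)), (nat_lit 54), (nat_lit 68), (nat_lit
 28), (nat_lit 1), (2, 12, 43), [1230, 1425], 1⟩,
  ⟨⟨9, -8, -68, 52, -5, -16, 8, 40, -31⟩, (.cons (nat_lit 1965) (nat_lit 580) (nat_lit 485) (nat_lit 1) (.cons
 (nat_lit 2653) (nat_lit 630) (nat_lit 206) (nat_lit 1) .nil)), (nat_lit 36), (nat_lit 33), (nat_lit 69),
 (nat_lit 1), (31, 26, 4), [37, 722], 61⟩,
  ⟨⟨-57, 8, 37, -10, -33, -40, -18, 36, -19⟩, (.cons (nat_lit 343) (nat_lit 223) (nat_lit 1497) (nat_lit 1)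
 (.cons (nat_lit 1745) (nat_lit 2058) (nat_lit 1273) (nat_lit 1) .nil)), (nat_lit 41), (nat_lit 61), (nat_lit
 26), (nat_lit 1), (40, 47, 21), [655, 101], 22⟩,
  ⟨⟨15, -56, -11, -28, -5, -36, 40, -8, -47⟩, (.cons (nat_lit 56) (nat_lit 686) (nat_lit 1106) (nat_lit 1)
 (.cons (nat_lit 20) (nat_lit 996) (nat_lit 2522) (nat_lit 1) .nil)), (nat_lit 57), (nat_lit 8), (nat_lit 32),
 (nat_lit 1), (31, 34, 12), [1447, 2163], 32⟩,
  ⟨⟨-9, -8, -59, 52, 5, -36, -8, 40, -23⟩, (.cons (nat_lit 84) (nat_lit 690) (nat_lit 27) (nat_lit 1) (.cons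
 (nat_lit 793) (nat_lit 1430) (nat_lit 1770) (nat_lit 1) .nil)), (nat_lit 5), (nat_lit 46), (nat_lit 31),
 (nat_lit 1), (29, 15, 14), [2142, 2207], 53⟩,
  ⟨⟨15, -52, -31, -10, 17, -50, 46, -4, -35⟩, (.cons (nat_lit 2175) (nat_lit 132) (nat_lit 2037) (nat_lit 1)
 (.cons (nat_lit 2630) (nat_lit 1836) (nat_lit 710) (nat_lit 1) .nil)), (nat_lit 5), (nat_lit 34), (nat_lit
 24), (nat_lit 1), (50, 2, 12), [2023, 2446], 43⟩,
  ⟨⟨-57, 4, 40, -8, -45, -26, -24, 24, -25⟩, (.cons (nat_lit 58) (nat_lit 1547) (nat_lit 1862) (nat_lit 1)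
 (.cons (nat_lit 482) (nat_lit 1179) (nat_lit 1885) (nat_lit 1) .nil)), (nat_lit 64), (nat_lit 20), (nat_lit
 19), (nat_lit 1), (25, 50, 44), [178, 14], 63⟩,
  ⟨⟨15, 32, 44, 50, -17, -30, 14, 44, -19⟩, (.cons (nat_lit 1461) (nat_lit 843) (nat_lit 387) (nat_lit 1)
 (.cons (nat_lit 2239) (nat_lit 416) (nat_lit 2194) (nat_lit 1) .nil)), (nat_lit 38), (nat_lit 68), (nat_lit
 32), (nat_lit 1), (27, 37, 4), [1397, 2460], 2⟩,
  ⟨⟨-15, 32, 59, 50, 17, -20, -14, 44, -5⟩, (.cons (nat_lit 765) (nat_lit 1443) (nat_lit 534) (nat_lit 1)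
 (.cons (nat_lit 891) (nat_lit 482) (nat_lit 2029) (nat_lit 1) .nil)), (nat_lit 48), (nat_lit 15), (nat_lit 8),
 (nat_lit 1), (6, 33, 48), [989, 445], 18⟩,
  mz,
  ⟨⟨-13, -48, -27, 30, 17, -60, 30, -36, -7⟩, (.cons (nat_lit 518) (nat_lit 107) (nat_lit 2100) (nat_lit 1)
 (.cons (nat_lit 774) (nat_lit 1255) (nat_lit 2260) (nat_lit 1) .nil)), (nat_lit 61), (nat_lit 36), (nat_lit
 44), (nat_lit 1), (14, 37, 37), [565, 1564], 8⟩,
  ⟨⟨-15, -32, 59, 50, -17, -20, -14, -44, -5⟩, (.cons (nat_lit 364) (nat_lit 844) (nat_lit 1478) (nat_lit 1)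
 (.cons (nat_lit 2375) (nat_lit 609) (nat_lit 1128) (nat_lit 1) .nil)), (nat_lit 45), (nat_lit 3), (nat_lit
 33), (nat_lit 1), (8, 44, 11), [1324, 1990], 22⟩,
  ⟨⟨31, 48, -27, 10, -17, -60, 46, -4, -11⟩, (.cons (nat_lit 687) (nat_lit 722) (nat_lit 493) (nat_lit 1)
 (.cons (nat_lit 1893) (nat_lit 665) (nat_lit 1671) (nat_lit 1) .nil)), (nat_lit 57), (nat_lit 51), (nat_lit
 12), (nat_lit 1), (36, 27, 50), [1420, 2576], 21⟩,
  ⟨⟨-39, -28, -17, 10, 33, -50, 18, -36, -37⟩, (.cons (nat_lit 2069) (nat_lit 2164) (nat_lit 1508) (nat_lit 1)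
 (.cons (nat_lit 1333) (nat_lit 1082) (nat_lit 2453) (nat_lit 1) .nil)), (nat_lit 16), (nat_lit 54), (nat_lit
 57), (nat_lit 1), (5, 49, 14), [1744, 1692], 20⟩,
  ⟨⟨-57, -8, 37, -10, 33, -40, -18, -36, -19⟩, (.cons (nat_lit 142) (nat_lit 1972) (nat_lit 137) (nat_lit 1)
 (.cons (nat_lit 2538) (nat_lit 449) (nat_lit 929) (nat_lit 1) .nil)), (nat_lit 40), (nat_lit 41), (nat_lit
 63), (nat_lit 1), (14, 35, 10), [945, 1149], 50⟩,
  mz,
  ⟨⟨-13, -48, 40, 30, 17, 30, 30, -36, -23⟩, (.cons (nat_lit 582) (nat_lit 495) (nat_lit 1650) (nat_lit 1)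
 (.cons (nat_lit 2662) (nat_lit 2301) (nat_lit 1086) (nat_lit 1) .nil)), (nat_lit 6), (nat_lit 3), (nat_lit
 12), (nat_lit 1), (45, 47, 47), [266, 1832], 28⟩]

/-- Moves. -/
noncomputable def t1_19 : List Mv := [
  mz,
  mz,
  mz,
  mz,
  ⟨⟨51, 20, -47, -10, 47, 30, -2, 20, -47⟩, (.cons (nat_lit 1223) (nat_lit 144) (nat_lit 811) (nat_lit 1)
 (.cons (nat_lit 771) (nat_lit 182) (nat_lit 1005) (nat_lit 1) .nil)), (nat_lit 63), (nat_lit 53), (nat_lit
 43), (nat_lit 1), (24, 14, 24), [1385, 2363], 14⟩,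
  ⟨⟨51, -20, -47, 10, 47, -30, -2, -20, -47⟩, (.cons (nat_lit 2163) (nat_lit 880) (nat_lit 131) (nat_lit 1)
 (.cons (nat_lit 2774) (nat_lit 1863) (nat_lit 2153) (nat_lit 1) .nil)), (nat_lit 63), (nat_lit 49), (nat_lit
 61), (nat_lit 1), (12, 46, 12), [2184, 2631], 14⟩,
  ⟨⟨25, -48, -36, 28, -5, 36, 40, 8, -47⟩, (.cons (nat_lit 2188) (nat_lit 745) (nat_lit 2176) (nat_lit 1)
 (.cons (nat_lit 414) (nat_lit 2791) (nat_lit 967) (nat_lit 1) .nil)), (nat_lit 46), (nat_lit 16), (nat_lit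
 66), (nat_lit 1), (37, 16, 38), [1418, 1843], 67⟩,
  mz,
  mz,
  ⟨⟨57, -4, -17, -8, -45, 34, 24, -24, -49⟩, (.cons (nat_lit 863) (nat_lit 444) (nat_lit 587) (nat_lit 1)
 (.cons (nat_lit 268) (nat_lit 2806) (nat_lit 1681) (nat_lit 1) .nil)), (nat_lit 19), (nat_lit 27), (nat_lit
 20), (nat_lit 1), (7, 39, 42), [1152, 2502], 6⟩,
  ⟨⟨-25, 48, -11, 28, -5, -64, -40, -8, -7⟩, (.cons (nat_lit 714) (nat_lit 2040) (nat_lit 163) (nat_lit 1)
 (.cons (nat_lit 1455) (nat_lit 2755) (nat_lit 1785) (nat_lit 1) .nil)), (nat_lit 25), (nat_lit 4), (nat_lit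
 10), (nat_lit 1), (52, 52, 9), [131, 2339], 57⟩,
  ⟨⟨15, -32, 44, 50, 17, -30, 14, -44, -19⟩, (.cons (nat_lit 1240) (nat_lit 1248) (nat_lit 88) (nat_lit 1)
 (.cons (nat_lit 2249) (nat_lit 1588) (nat_lit 82) (nat_lit 1) .nil)), (nat_lit 8), (nat_lit 63), (nat_lit 65),
 (nat_lit 1), (29, 26, 20), [507, 1562], 61⟩,
  ⟨⟨53, 0, -53, 10, 47, 20, 2, 20, -49⟩, (.cons (nat_lit 988) (nat_lit 1313) (nat_lit 599) (nat_lit 1) (.cons
 (nat_lit 416) (nat_lit 492) (nat_lit 2224) (nat_lit 1) .nil)), (nat_lit 62), (nat_lit 51), (nat_lit 32),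
 (nat_lit 1), (0, 28, 48), [633, 1091], 69⟩,
  mz,
  mz,
  ⟨⟨53, 0, -53, 10, -47, 20, 2, -20, -49⟩, (.cons (nat_lit 712) (nat_lit 1688) (nat_lit 170) (nat_lit 1) (.cons
 (nat_lit 2023) (nat_lit 577) (nat_lit 1526) (nat_lit 1) .nil)), (nat_lit 39), (nat_lit 46), (nat_lit 65),
 (nat_lit 1), (0, 21, 36), [268, 738], 10⟩,
  ⟨⟨15, 52, 16, -10, -17, 60, 46, 4, -11⟩, (.cons (nat_lit 175) (nat_lit 273) (nat_lit 407) (nat_lit 1) (.cons
 (nat_lit 713) (nat_lit 742) (nat_lit 1533) (nat_lit 1) .nil)), (nat_lit 48), (nat_lit 43), (nat_lit 61),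
 (nat_lit 1), (24, 37, 10), [750, 872], 58⟩,
  ⟨⟨31, -48, -4, -10, -17, -50, 46, 4, -35⟩, (.cons (nat_lit 991) (nat_lit 854) (nat_lit 2058) (nat_lit 1)
 (.cons (nat_lit 256) (nat_lit 2259) (nat_lit 1541) (nat_lit 1) .nil)), (nat_lit 53), (nat_lit 37), (nat_lit
 52), (nat_lit 1), (18, 13, 25), [1632, 2297], 24⟩,
  ⟨⟨33, -20, -65, -8, 45, -26, -24, -24, -25⟩, (.cons (nat_lit 2208) (nat_lit 1502) (nat_lit 1962) (nat_lit 1)
 (.cons (nat_lit 2371) (nat_lit 843) (nat_lit 1071) (nat_lit 1) .nil)), (nat_lit 70), (nat_lit 8), (nat_lit 9),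
 (nat_lit 1), (7, 24, 19), [1889, 1602], 35⟩,
  mz,
  mz,
  ⟨⟨57, 4, -17, 8, -45, -34, 24, 24, -49⟩, (.cons (nat_lit 1587) (nat_lit 43) (nat_lit 629) (nat_lit 1) (.cons
 (nat_lit 2475) (nat_lit 608) (nat_lit 63) (nat_lit 1) .nil)), (nat_lit 15), (nat_lit 21), (nat_lit 55),
 (nat_lit 1), (20, 40, 14), [319, 688], 1⟩,
  ⟨⟨45, 28, -49, 28, -45, -14, 0, 0, -53⟩, (.cons (nat_lit 2208) (nat_lit 2130) (nat_lit 1172) (nat_lit 1)
 (.cons (nat_lit 358) (nat_lit 1201) (nat_lit 2700) (nat_lit 1) .nil)), (nat_lit 70), (nat_lit 61), (nat_lit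
 26), (nat_lit 1), (24, 22, 0), [922, 2053], 24⟩,
  mz,
  ⟨⟨-13, 48, -27, 30, -17, -60, 30, 36, -7⟩, (.cons (nat_lit 217) (nat_lit 1623) (nat_lit 277) (nat_lit 1)
 (.cons (nat_lit 882) (nat_lit 673) (nat_lit 745) (nat_lit 1) .nil)), (nat_lit 0), (nat_lit 42), (nat_lit 47),
 (nat_lit 1), (11, 48, 48), [533, 501], 39⟩,
  mz,
  ⟨⟨-25, -48, -11, -28, -5, 64, -40, 8, -7⟩, (.cons (nat_lit 256) (nat_lit 181) (nat_lit 1396) (nat_lit 1)
 (.cons (nat_lit 163) (nat_lit 2494) (nat_lit 175) (nat_lit 1) .nil)), (nat_lit 5), (nat_lit 67), (nat_lit 33),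
 (nat_lit 1), (2, 51, 35), [1653, 1917], 19⟩,
  mz,
  ⟨⟨9, 8, -68, 52, 5, -16, 8, -40, -31⟩, (.cons (nat_lit 926) (nat_lit 178) (nat_lit 1650) (nat_lit 1) (.cons
 (nat_lit 735) (nat_lit 525) (nat_lit 968) (nat_lit 1) .nil)), (nat_lit 7), (nat_lit 43), (nat_lit 62),
 (nat_lit 1), (4, 29, 33), [1203, 964], 8⟩,
  ⟨⟨-13, 48, 40, -30, 17, -30, 30, 36, -23⟩, (.cons (nat_lit 1021) (nat_lit 466) (nat_lit 817) (nat_lit 1)
 (.cons (nat_lit 1679) (nat_lit 1827) (nat_lit 1024) (nat_lit 1) .nil)), (nat_lit 12), (nat_lit 35), (nat_lit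
 69), (nat_lit 1), (42, 48, 5), [163, 1184], 56⟩,
  mz,
  ⟨⟨45, -28, -49, 28, 45, -14, 0, 0, -53⟩, (.cons (nat_lit 1270) (nat_lit 580) (nat_lit 116) (nat_lit 1) (.cons
 (nat_lit 2384) (nat_lit 372) (nat_lit 1920) (nat_lit 1) .nil)), (nat_lit 1), (nat_lit 57), (nat_lit 63),
 (nat_lit 1), (39, 49, 0), [1683, 1179], 61⟩,
  mz,
  ⟨⟨-39, 28, -17, -10, 33, 50, 18, 36, -37⟩, (.cons (nat_lit 48) (nat_lit 1625) (nat_lit 855) (nat_lit 1)
 (.cons (nat_lit 2735) (nat_lit 379) (nat_lit 1125) (nat_lit 1) .nil)), (nat_lit 16), (nat_lit 60), (nat_lit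
 30), (nat_lit 1), (43, 45, 25), [475, 519], 20⟩,
  mz,
  mz,
  ⟨⟨-9, 8, -59, 52, -5, -36, -8, -40, -23⟩, (.cons (nat_lit 1055) (nat_lit 1575) (nat_lit 337) (nat_lit 1)
 (.cons (nat_lit 2549) (nat_lit 711) (nat_lit 610) (nat_lit 1) .nil)), (nat_lit 54), (nat_lit 68), (nat_lit
 28), (nat_lit 1), (2, 12, 43), [1230, 1425], 1⟩,
  ⟨⟨-1, 48, 37, -52, 5, 16, 8, 40, -31⟩, (.cons (nat_lit 178) (nat_lit 861) (nat_lit 114) (nat_lit 1) (.cons
 (nat_lit 2392) (nat_lit 2693) (nat_lit 2146) (nat_lit 1) .nil)), (nat_lit 44), (nat_lit 49), (nat_lit 14),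
 (nat_lit 1), (26, 27, 4), [1578, 1482], 17⟩,
  ⟨⟨39, 28, -56, -10, -33, -40, -18, 36, -19⟩, (.cons (nat_lit 456) (nat_lit 764) (nat_lit 1591) (nat_lit 1)
 (.cons (nat_lit 1911) (nat_lit 2057) (nat_lit 52) (nat_lit 1) .nil)), (nat_lit 63), (nat_lit 9), (nat_lit 13),
 (nat_lit 1), (34, 47, 21), [373, 1689], 49⟩,
  ⟨⟨15, -56, -11, -28, -5, -36, 40, -8, -47⟩, (.cons (nat_lit 56) (nat_lit 686) (nat_lit 1106) (nat_lit 1)
 (.cons (nat_lit 20) (nat_lit 996) (nat_lit 2522) (nat_lit 1) .nil)), (nat_lit 57), (nat_lit 8), (nat_lit 32),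
 (nat_lit 1), (31, 34, 12), [1447, 2163], 32⟩,
  ⟨⟨-9, -8, -59, 52, 5, -36, -8, 40, -23⟩, (.cons (nat_lit 84) (nat_lit 690) (nat_lit 27) (nat_lit 1) (.cons
 (nat_lit 793) (nat_lit 1430) (nat_lit 1770) (nat_lit 1) .nil)), (nat_lit 5), (nat_lit 46), (nat_lit 31),
 (nat_lit 1), (29, 15, 14), [2142, 2207], 53⟩,
  ⟨⟨31, 48, -4, -10, 17, -50, 46, -4, -35⟩, (.cons (nat_lit 269) (nat_lit 56) (nat_lit 627) (nat_lit 1) (.cons
 (nat_lit 1055) (nat_lit 332) (nat_lit 1604) (nat_lit 1) .nil)), (nat_lit 9), (nat_lit 1), (nat_lit 54),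
 (nat_lit 1), (15, 2, 12), [2164, 572], 42⟩,
  ⟨⟨33, 20, -65, 8, 45, 26, -24, 24, -25⟩, (.cons (nat_lit 2208) (nat_lit 1444) (nat_lit 808) (nat_lit 1)
 (.cons (nat_lit 538) (nat_lit 2463) (nat_lit 616) (nat_lit 1) .nil)), (nat_lit 70), (nat_lit 56), (nat_lit
 60), (nat_lit 1), (19, 3, 44), [1372, 2619], 65⟩,
  ⟨⟨15, 32, 44, -50, 17, 30, 14, 44, -19⟩, (.cons (nat_lit 1726) (nat_lit 1584) (nat_lit 406) (nat_lit 1)
 (.cons (nat_lit 482) (nat_lit 634) (nat_lit 2139) (nat_lit 1) .nil)), (nat_lit 48), (nat_lit 53), (nat_lit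
 16), (nat_lit 1), (27, 16, 4), [942, 1706], 13⟩,
  ⟨⟨1, 12, -64, 50, 17, -20, -14, 44, -5⟩, (.cons (nat_lit 927) (nat_lit 484) (nat_lit 1333) (nat_lit 1) (.cons
 (nat_lit 2794) (nat_lit 969) (nat_lit 2176) (nat_lit 1) .nil)), (nat_lit 9), (nat_lit 12), (nat_lit 40),
 (nat_lit 1), (42, 33, 48), [472, 1809], 42⟩,
  mz,
  ⟨⟨-13, -48, -27, -30, -17, 60, 30, -36, -7⟩, (.cons (nat_lit 859) (nat_lit 1124) (nat_lit 1674) (nat_lit 1)
 (.cons (nat_lit 1878) (nat_lit 2054) (nat_lit 1355) (nat_lit 1) .nil)), (nat_lit 25), (nat_lit 8), (nat_lit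
 36), (nat_lit 1), (14, 16, 37), [1294, 382], 23⟩,
  ⟨⟨-15, -32, 59, 50, -17, -20, -14, -44, -5⟩, (.cons (nat_lit 364) (nat_lit 844) (nat_lit 1478) (nat_lit 1)
 (.cons (nat_lit 2375) (nat_lit 609) (nat_lit 1128) (nat_lit 1) .nil)), (nat_lit 45), (nat_lit 3), (nat_lit
 33), (nat_lit 1), (8, 44, 11), [1324, 1990], 22⟩,
  ⟨⟨15, -52, 16, 10, -17, -60, 46, -4, -11⟩, (.cons (nat_lit 112) (nat_lit 1017) (nat_lit 916) (nat_lit 1)
 (.cons (nat_lit 1105) (nat_lit 1901) (nat_lit 1002) (nat_lit 1) .nil)), (nat_lit 8), (nat_lit 46), (nat_lit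
 35), (nat_lit 1), (14, 27, 50), [1561, 805], 10⟩,
  ⟨⟨-39, -28, -17, 10, 33, -50, 18, -36, -37⟩, (.cons (nat_lit 2069) (nat_lit 2164) (nat_lit 1508) (nat_lit 1)
 (.cons (nat_lit 1333) (nat_lit 1082) (nat_lit 2453) (nat_lit 1) .nil)), (nat_lit 16), (nat_lit 54), (nat_lit
 57), (nat_lit 1), (5, 49, 14), [1744, 1692], 20⟩,
  ⟨⟨39, -28, -56, -10, 33, -40, -18, -36, -19⟩, (.cons (nat_lit 2208) (nat_lit 1412) (nat_lit 1030) (nat_lit 1)
 (.cons (nat_lit 1760) (nat_lit 1943) (nat_lit 2452) (nat_lit 1) .nil)), (nat_lit 70), (nat_lit 17), (nat_lit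
 6), (nat_lit 1), (49, 35, 10), [287, 1221], 63⟩,
  mz,
  ⟨⟨-13, -48, 40, 30, 17, 30, 30, -36, -23⟩, (.cons (nat_lit 582) (nat_lit 495) (nat_lit 1650) (nat_lit 1)
 (.cons (nat_lit 2662) (nat_lit 2301) (nat_lit 1086) (nat_lit 1) .nil)), (nat_lit 6), (nat_lit 3), (nat_lit
 12), (nat_lit 1), (45, 47, 47), [266, 1832], 28⟩]

/-- Moves. -/
noncomputable def t4_1 : List Mv := [
  mz,
  ⟨⟨63, 40, -56, 10, 21, 70, -12, 60, -13⟩, (.cons (nat_lit 2208) (nat_lit 1391) (nat_lit 684) (nat_lit 1)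
 (.cons (nat_lit 2808) (nat_lit 489) (nat_lit 2748) (nat_lit 1) .nil)), (nat_lit 1), (nat_lit 0), (nat_lit 0),
 (nat_lit 0), (31, 50, 11), [1375, 198], 0⟩,
  mz,
  ⟨⟨65, -24, -72, -4, 55, -48, -10, -40, -49⟩, (.cons (nat_lit 2208) (nat_lit 1454) (nat_lit 141) (nat_lit 1)
 (.cons (nat_lit 2808) (nat_lit 2667) (nat_lit 2346) (nat_lit 1) .nil)), (nat_lit 3), (nat_lit 0), (nat_lit 0),
 (nat_lit 0), (37, 1, 38), [964, 2288], 0⟩,
  ⟨⟨27, 68, 16, 64, -15, -62, -6, 48, -43⟩, (.cons (nat_lit 973) (nat_lit 1402) (nat_lit 1576) (nat_lit 1)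
 (.cons (nat_lit 1177) (nat_lit 1939) (nat_lit 160) (nat_lit 1) .nil)), (nat_lit 46), (nat_lit 0), (nat_lit 0),
 (nat_lit 0), (60, 16, 34), [1174, 435], 0⟩,
  ⟨⟨27, -68, 16, 64, 15, -62, -6, -48, -43⟩, (.cons (nat_lit 869) (nat_lit 680) (nat_lit 614) (nat_lit 1)
 (.cons (nat_lit 1891) (nat_lit 706) (nat_lit 1844) (nat_lit 1) .nil)), (nat_lit 46), (nat_lit 0), (nat_lit 0),
 (nat_lit 0), (7, 35, 30), [1502, 2770], 0⟩,
  mz,
  ⟨⟨-29, 72, 20, 56, 25, -68, -38, 16, -35⟩, (.cons (nat_lit 756) (nat_lit 294) (nat_lit 693) (nat_lit 1)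
 (.cons (nat_lit 2107) (nat_lit 966) (nat_lit 1167) (nat_lit 1) .nil)), (nat_lit 8), (nat_lit 0), (nat_lit 0),
 (nat_lit 0), (33, 44, 31), [1719, 504], 0⟩,
  ⟨⟨3, 40, -76, -64, -25, 12, 26, -32, -67⟩, (.cons (nat_lit 1979) (nat_lit 1020) (nat_lit 43) (nat_lit 1)
 (.cons (nat_lit 550) (nat_lit 1117) (nat_lit 2499) (nat_lit 1) .nil)), (nat_lit 33), (nat_lit 0), (nat_lit 0),
 (nat_lit 0), (14, 9, 3), [237, 2283], 0⟩,
  mz,
  mz,
  ⟨⟨33, -20, -92, -64, -15, 2, 6, 48, -49⟩, (.cons (nat_lit 1819) (nat_lit 854) (nat_lit 492) (nat_lit 1)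
 (.cons (nat_lit 1933) (nat_lit 783) (nat_lit 1479) (nat_lit 1) .nil)), (nat_lit 51), (nat_lit 0), (nat_lit 0),
 (nat_lit 0), (67, 68, 38), [1644, 2603], 0⟩,
  ⟨⟨9, 76, -20, 44, -15, -82, -42, 24, -25⟩, (.cons (nat_lit 1302) (nat_lit 1003) (nat_lit 857) (nat_lit 1)
 (.cons (nat_lit 2237) (nat_lit 364) (nat_lit 1472) (nat_lit 1) .nil)), (nat_lit 67), (nat_lit 0), (nat_lit 0),
 (nat_lit 0), (31, 49, 21), [375, 1442], 0⟩,
  mz,
  mz,
  ⟨⟨51, -52, -56, -44, -15, -38, 42, 24, -67⟩, (.cons (nat_lit 1490) (nat_lit 2005) (nat_lit 83) (nat_lit 1)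
 (.cons (nat_lit 78) (nat_lit 2314) (nat_lit 2576) (nat_lit 1) .nil)), (nat_lit 5), (nat_lit 0), (nat_lit 0),
 (nat_lit 0), (24, 67, 49), [234, 2179], 0⟩,
  ⟨⟨37, -48, 36, -36, -55, -12, 54, -24, -53⟩, (.cons (nat_lit 2208) (nat_lit 1996) (nat_lit 1712) (nat_lit 1)
 (.cons (nat_lit 2808) (nat_lit 1996) (nat_lit 2306) (nat_lit 1) .nil)), (nat_lit 16), (nat_lit 0), (nat_lit
 0), (nat_lit 0), (57, 52, 64), [1025, 1893], 0⟩,
  mz,
  ⟨⟨9, 56, -64, -56, -25, -12, 38, -16, -73⟩, (.cons (nat_lit 1711) (nat_lit 2037) (nat_lit 18) (nat_lit 1)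
 (.cons (nat_lit 554) (nat_lit 2634) (nat_lit 1278) (nat_lit 1) .nil)), (nat_lit 39), (nat_lit 0), (nat_lit 0),
 (nat_lit 0), (56, 46, 55), [1098, 119], 0⟩,
  ⟨⟨39, 40, -80, 44, -55, -32, -22, -8, -55⟩, (.cons (nat_lit 2208) (nat_lit 434) (nat_lit 227) (nat_lit 1)
 (.cons (nat_lit 2808) (nat_lit 2504) (nat_lit 2021) (nat_lit 1) .nil)), (nat_lit 19), (nat_lit 0), (nat_lit
 0), (nat_lit 0), (28, 68, 37), [1054, 464], 0⟩,
  mz,
  mz,
  ⟨⟨17, -24, 72, 36, -55, -48, 54, 24, -1⟩, (.cons (nat_lit 380) (nat_lit 1297) (nat_lit 767) (nat_lit 1)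
 (.cons (nat_lit 2803) (nat_lit 61) (nat_lit 884) (nat_lit 1) .nil)), (nat_lit 70), (nat_lit 0), (nat_lit 0),
 (nat_lit 0), (28, 5, 43), [309, 2446], 0⟩,
  ⟨⟨-61, 48, 25, 44, 55, -32, -22, 8, -55⟩, (.cons (nat_lit 2083) (nat_lit 1874) (nat_lit 2135) (nat_lit 1)
 (.cons (nat_lit 1848) (nat_lit 625) (nat_lit 1637) (nat_lit 1) .nil)), (nat_lit 24), (nat_lit 0), (nat_lit 0),
 (nat_lit 0), (13, 43, 14), [373, 859], 0⟩,
  ⟨⟨-39, 40, -41, 44, 55, -12, 22, -8, -77⟩, (.cons (nat_lit 1385) (nat_lit 85) (nat_lit 876) (nat_lit 1)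
 (.cons (nat_lit 2771) (nat_lit 1278) (nat_lit 408) (nat_lit 1) .nil)), (nat_lit 23), (nat_lit 0), (nat_lit 0),
 (nat_lit 0), (2, 56, 28), [616, 1627], 0⟩,
  mz,
  ⟨⟨51, -4, 40, 10, -69, -20, 60, 12, -49⟩, (.cons (nat_lit 622) (nat_lit 682) (nat_lit 503) (nat_lit 1) (.cons
 (nat_lit 2455) (nat_lit 2010) (nat_lit 400) (nat_lit 1) .nil)), (nat_lit 48), (nat_lit 0), (nat_lit 0),
 (nat_lit 0), (60, 41, 33), [150, 645], 0⟩,
  mz,
  mz,
  ⟨⟨-13, -72, 36, 70, -11, -30, -4, -44, -49⟩, (.cons (nat_lit 2138) (nat_lit 405) (nat_lit 1730) (nat_lit 1)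
 (.cons (nat_lit 2807) (nat_lit 35) (nat_lit 1444) (nat_lit 1) .nil)), (nat_lit 62), (nat_lit 0), (nat_lit 0),
 (nat_lit 0), (29, 35, 69), [93, 1389], 0⟩,
  mz,
  ⟨⟨-11, 72, -25, 50, -11, -80, -44, 4, -29⟩, (.cons (nat_lit 1553) (nat_lit 434) (nat_lit 911) (nat_lit 1)
 (.cons (nat_lit 1176) (nat_lit 2135) (nat_lit 2754) (nat_lit 1) .nil)), (nat_lit 29), (nat_lit 0), (nat_lit
 0), (nat_lit 0), (44, 13, 34), [231, 2098], 0⟩,
  mz,
  ⟨⟨-9, 56, -55, -56, 25, 68, -38, -16, -35⟩, (.cons (nat_lit 881) (nat_lit 1442) (nat_lit 1682) (nat_lit 1)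
 (.cons (nat_lit 1604) (nat_lit 124) (nat_lit 331) (nat_lit 1) .nil)), (nat_lit 69), (nat_lit 0), (nat_lit 0),
 (nat_lit 0), (50, 35, 6), [1021, 2476], 0⟩,
  ⟨⟨-63, 40, 7, -10, 21, 80, 12, 60, -25⟩, (.cons (nat_lit 894) (nat_lit 75) (nat_lit 491) (nat_lit 1) (.cons
 (nat_lit 2479) (nat_lit 2327) (nat_lit 2438) (nat_lit 1) .nil)), (nat_lit 1), (nat_lit 0), (nat_lit 0),
 (nat_lit 0), (60, 67, 19), [294, 2169], 0⟩,
  mz,
  ⟨⟨23, 72, 9, 64, -25, -12, 26, 32, -67⟩, (.cons (nat_lit 639) (nat_lit 1124) (nat_lit 1106) (nat_lit 1)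
 (.cons (nat_lit 2728) (nat_lit 259) (nat_lit 630) (nat_lit 1) .nil)), (nat_lit 49), (nat_lit 0), (nat_lit 0),
 (nat_lit 0), (66, 54, 53), [769, 1922], 0⟩,
  mz,
  ⟨⟨17, -24, -89, -36, 55, -12, 54, 24, -53⟩, (.cons (nat_lit 1210) (nat_lit 933) (nat_lit 39) (nat_lit 1)
 (.cons (nat_lit 1973) (nat_lit 683) (nat_lit 1394) (nat_lit 1) .nil)), (nat_lit 22), (nat_lit 0), (nat_lit 0),
 (nat_lit 0), (5, 27, 66), [812, 1785], 0⟩,
  ⟨⟨-3, 40, -73, 64, -25, -52, -26, -32, -41⟩, (.cons (nat_lit 183) (nat_lit 1537) (nat_lit 286) (nat_lit 1)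
 (.cons (nat_lit 1554) (nat_lit 2307) (nat_lit 788) (nat_lit 1) .nil)), (nat_lit 33), (nat_lit 0), (nat_lit 0),
 (nat_lit 0), (12, 28, 33), [378, 2297], 0⟩,
  mz,
  mz,
  ⟨⟨75, 16, -52, 4, -55, -52, 10, 40, -59⟩, (.cons (nat_lit 238) (nat_lit 1885) (nat_lit 1) (nat_lit 188)
 (.cons (nat_lit 2250) (nat_lit 809) (nat_lit 822) (nat_lit 1) .nil)), (nat_lit 65), (nat_lit 0), (nat_lit 0),
 (nat_lit 0), (5, 5, 48), [1196, 1260], 0⟩,
  ⟨⟨11, -72, -36, -50, 11, -30, 44, -4, -73⟩, (.cons (nat_lit 1372) (nat_lit 961) (nat_lit 1868) (nat_lit 1)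
 (.cons (nat_lit 245) (nat_lit 1320) (nat_lit 1253) (nat_lit 1) .nil)), (nat_lit 29), (nat_lit 0), (nat_lit 0),
 (nat_lit 0), (69, 22, 63), [1799, 2435], 0⟩,
  ⟨⟨-39, -40, -41, 44, -55, -12, 22, 8, -77⟩, (.cons (nat_lit 1270) (nat_lit 1511) (nat_lit 26) (nat_lit 1)
 (.cons (nat_lit 2084) (nat_lit 860) (nat_lit 426) (nat_lit 1) .nil)), (nat_lit 23), (nat_lit 0), (nat_lit 0),
 (nat_lit 0), (46, 10, 5), [1947, 1133], 0⟩,
  mz,
  ⟨⟨51, 52, -56, -44, 15, -38, 42, -24, -67⟩, (.cons (nat_lit 938) (nat_lit 561) (nat_lit 617) (nat_lit 1)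
 (.cons (nat_lit 664) (nat_lit 319) (nat_lit 308) (nat_lit 1) .nil)), (nat_lit 5), (nat_lit 0), (nat_lit 0),
 (nat_lit 0), (52, 15, 47), [274, 1754], 0⟩,
  ⟨⟨9, -16, 80, -10, -69, -10, 60, -12, -11⟩, (.cons (nat_lit 2208) (nat_lit 1937) (nat_lit 1247) (nat_lit 1)
 (.cons (nat_lit 2808) (nat_lit 1664) (nat_lit 1296) (nat_lit 1) .nil)), (nat_lit 47), (nat_lit 0), (nat_lit
 0), (nat_lit 0), (33, 58, 7), [1684, 1086], 0⟩,
  ⟨⟨9, -16, -89, 10, 69, -20, 60, -12, -49⟩, (.cons (nat_lit 565) (nat_lit 1018) (nat_lit 985) (nat_lit 1)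
 (.cons (nat_lit 1102) (nat_lit 1845) (nat_lit 2478) (nat_lit 1) .nil)), (nat_lit 54), (nat_lit 0), (nat_lit
 0), (nat_lit 0), (19, 29, 32), [384, 2020], 0⟩,
  ⟨⟨9, -56, -64, -56, 25, -12, 38, 16, -73⟩, (.cons (nat_lit 1602) (nat_lit 2150) (nat_lit 1657) (nat_lit 1)
 (.cons (nat_lit 1650) (nat_lit 1628) (nat_lit 1122) (nat_lit 1) .nil)), (nat_lit 39), (nat_lit 0), (nat_lit
 0), (nat_lit 0), (4, 54, 9), [1578, 966], 0⟩,
  ⟨⟨65, 24, -72, -4, -55, -48, -10, 40, -49⟩, (.cons (nat_lit 608) (nat_lit 334) (nat_lit 1) (nat_lit 658)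
 (.cons (nat_lit 766) (nat_lit 924) (nat_lit 2224) (nat_lit 1) .nil)), (nat_lit 3), (nat_lit 0), (nat_lit 0),
 (nat_lit 0), (39, 26, 65), [1807, 2797], 0⟩,
  ⟨⟨-51, 52, -5, 44, 15, -82, -42, -24, -25⟩, (.cons (nat_lit 49) (nat_lit 702) (nat_lit 1545) (nat_lit 1)
 (.cons (nat_lit 1350) (nat_lit 2722) (nat_lit 2098) (nat_lit 1) .nil)), (nat_lit 5), (nat_lit 0), (nat_lit 0),
 (nat_lit 0), (18, 68, 19), [1120, 1773], 0⟩,
  mz,
  ⟨⟨13, -72, 23, 70, 11, -40, 4, -44, -53⟩, (.cons (nat_lit 1577) (nat_lit 546) (nat_lit 2004) (nat_lit 1)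
 (.cons (nat_lit 145) (nat_lit 556) (nat_lit 2565) (nat_lit 1) .nil)), (nat_lit 43), (nat_lit 0), (nat_lit 0),
 (nat_lit 0), (14, 59, 48), [1644, 858], 0⟩,
  ⟨⟨9, 16, 80, -10, 69, -10, 60, 12, -11⟩, (.cons (nat_lit 2192) (nat_lit 1707) (nat_lit 1272) (nat_lit 1)
 (.cons (nat_lit 502) (nat_lit 40) (nat_lit 2189) (nat_lit 1) .nil)), (nat_lit 47), (nat_lit 0), (nat_lit 0),
 (nat_lit 0), (58, 46, 8), [2099, 1318], 0⟩,
  ⟨⟨75, -20, -32, 10, 21, -80, 12, -60, -25⟩, (.cons (nat_lit 2208) (nat_lit 951) (nat_lit 1395) (nat_lit 1)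
 (.cons (nat_lit 2808) (nat_lit 2706) (nat_lit 710) (nat_lit 1) .nil)), (nat_lit 55), (nat_lit 0), (nat_lit 0),
 (nat_lit 0), (52, 59, 14), [106, 1682], 0⟩,
  mz,
  ⟨⟨-11, -72, -25, 50, 11, -80, -44, -4, -29⟩, (.cons (nat_lit 1072) (nat_lit 914) (nat_lit 1798) (nat_lit 1)
 (.cons (nat_lit 881) (nat_lit 1276) (nat_lit 1339) (nat_lit 1) .nil)), (nat_lit 29), (nat_lit 0), (nat_lit 0),
 (nat_lit 0), (38, 8, 10), [1235, 626], 0⟩,
  ⟨⟨-75, -20, 43, 10, -21, 70, -12, -60, -13⟩, (.cons (nat_lit 805) (nat_lit 649) (nat_lit 735) (nat_lit 1)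
 (.cons (nat_lit 1708) (nat_lit 1981) (nat_lit 989) (nat_lit 1) .nil)), (nat_lit 34), (nat_lit 0), (nat_lit 0),
 (nat_lit 0), (2, 66, 6), [2165, 1678], 0⟩,
  mz,
  mz,
  mz,
  ⟨⟨33, -68, -37, 50, 11, 30, 44, 4, -73⟩, (.cons (nat_lit 167) (nat_lit 1654) (nat_lit 551) (nat_lit 1) (.cons
 (nat_lit 1582) (nat_lit 2608) (nat_lit 2123) (nat_lit 1) .nil)), (nat_lit 68), (nat_lit 0), (nat_lit 0),
 (nat_lit 0), (12, 44, 16), [1503, 579], 0⟩,
  mz,
  ⟨⟨-13, 72, 36, 70, 11, -30, -4, 44, -49⟩, (.cons (nat_lit 1466) (nat_lit 2008) (nat_lit 1762) (nat_lit 1)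
 (.cons (nat_lit 2595) (nat_lit 2267) (nat_lit 445) (nat_lit 1) .nil)), (nat_lit 62), (nat_lit 0), (nat_lit 0),
 (nat_lit 0), (35, 30, 49), [718, 2486], 0⟩,
  ⟨⟨75, -16, -52, 4, 55, -52, 10, -40, -59⟩, (.cons (nat_lit 2208) (nat_lit 1084) (nat_lit 235) (nat_lit 1)
 (.cons (nat_lit 2808) (nat_lit 387) (nat_lit 179) (nat_lit 1) .nil)), (nat_lit 65), (nat_lit 0), (nat_lit 0),
 (nat_lit 0), (51, 51, 21), [1528, 2704], 0⟩,
  mz,
  ⟨⟨33, 20, -92, 64, -15, -2, 6, -48, -49⟩, (.cons (nat_lit 151) (nat_lit 968) (nat_lit 924) (nat_lit 1) (.cons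
 (nat_lit 771) (nat_lit 256) (nat_lit 2733) (nat_lit 1) .nil)), (nat_lit 12), (nat_lit 0), (nat_lit 0),
 (nat_lit 0), (45, 55, 34), [1545, 718], 0⟩,
  ⟨⟨13, 72, 23, -70, 11, 40, 4, 44, -53⟩, (.cons (nat_lit 1918) (nat_lit 1961) (nat_lit 1293) (nat_lit 1)
 (.cons (nat_lit 1994) (nat_lit 1916) (nat_lit 2710) (nat_lit 1) .nil)), (nat_lit 62), (nat_lit 0), (nat_lit
 0), (nat_lit 0), (20, 7, 28), [1799, 467], 0⟩,
  ⟨⟨-23, 72, 32, 64, 25, -52, -26, 32, -41⟩, (.cons (nat_lit 333) (nat_lit 1564) (nat_lit 1370) (nat_lit 1)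
 (.cons (nat_lit 1577) (nat_lit 1636) (nat_lit 1081) (nat_lit 1) .nil)), (nat_lit 18), (nat_lit 0), (nat_lit
 0), (nat_lit 0), (27, 36, 12), [685, 80], 0⟩,
  ⟨⟨37, -48, -73, 36, 55, -48, 54, -24, -1⟩, (.cons (nat_lit 1035) (nat_lit 1651) (nat_lit 381) (nat_lit 1)
 (.cons (nat_lit 2761) (nat_lit 151) (nat_lit 616) (nat_lit 1) .nil)), (nat_lit 38), (nat_lit 0), (nat_lit 0),
 (nat_lit 0), (11, 51, 41), [949, 2033], 0⟩]

/-- Moves. -/
noncomputable def t4_2 : List Mv := [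
  mz,
  ⟨⟨-75, 20, 43, -10, -21, -70, -12, 60, -13⟩, (.cons (nat_lit 337) (nat_lit 304) (nat_lit 1415) (nat_lit 1)
 (.cons (nat_lit 437) (nat_lit 535) (nat_lit 711) (nat_lit 1) .nil)), (nat_lit 55), (nat_lit 0), (nat_lit 0),
 (nat_lit 0), (51, 21, 11), [98, 1481], 0⟩,
  mz,
  ⟨⟨65, -24, -72, 4, -55, 48, -10, -40, -49⟩, (.cons (nat_lit 517) (nat_lit 1678) (nat_lit 1050) (nat_lit 1)
 (.cons (nat_lit 2798) (nat_lit 1737) (nat_lit 1992) (nat_lit 1) .nil)), (nat_lit 50), (nat_lit 0), (nat_lit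
 0), (nat_lit 0), (37, 70, 38), [2133, 1357], 0⟩,
  ⟨⟨-33, -20, -59, 64, -15, -62, -6, 48, -43⟩, (.cons (nat_lit 1941) (nat_lit 8) (nat_lit 1200) (nat_lit 1)
 (.cons (nat_lit 135) (nat_lit 128) (nat_lit 2760) (nat_lit 1) .nil)), (nat_lit 51), (nat_lit 0), (nat_lit 0),
 (nat_lit 0), (45, 16, 34), [375, 161], 0⟩,
  ⟨⟨27, -68, 16, 64, 15, -62, -6, -48, -43⟩, (.cons (nat_lit 869) (nat_lit 680) (nat_lit 614) (nat_lit 1)
 (.cons (nat_lit 1891) (nat_lit 706) (nat_lit 1844) (nat_lit 1) .nil)), (nat_lit 46), (nat_lit 0), (nat_lit 0),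
 (nat_lit 0), (7, 35, 30), [1502, 2770], 0⟩,
  mz,
  ⟨⟨-29, 72, 20, 56, 25, -68, -38, 16, -35⟩, (.cons (nat_lit 756) (nat_lit 294) (nat_lit 693) (nat_lit 1)
 (.cons (nat_lit 2107) (nat_lit 966) (nat_lit 1167) (nat_lit 1) .nil)), (nat_lit 8), (nat_lit 0), (nat_lit 0),
 (nat_lit 0), (33, 44, 31), [1719, 504], 0⟩,
  ⟨⟨3, 40, -76, 64, 25, -12, 26, -32, -67⟩, (.cons (nat_lit 1610) (nat_lit 1595) (nat_lit 2024) (nat_lit 1)
 (.cons (nat_lit 4) (nat_lit 1754) (nat_lit 950) (nat_lit 1) .nil)), (nat_lit 7), (nat_lit 0), (nat_lit 0),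
 (nat_lit 0), (14, 62, 3), [1820, 2446], 0⟩,
  mz,
  mz,
  ⟨⟨33, -20, -92, 64, 15, -2, 6, 48, -49⟩, (.cons (nat_lit 421) (nat_lit 17) (nat_lit 386) (nat_lit 1) (.cons
 (nat_lit 2148) (nat_lit 653) (nat_lit 2718) (nat_lit 1) .nil)), (nat_lit 12), (nat_lit 0), (nat_lit 0),
 (nat_lit 0), (67, 3, 38), [838, 2072], 0⟩,
  ⟨⟨9, 76, -20, 44, -15, -82, -42, 24, -25⟩, (.cons (nat_lit 1302) (nat_lit 1003) (nat_lit 857) (nat_lit 1)
 (.cons (nat_lit 2237) (nat_lit 364) (nat_lit 1472) (nat_lit 1) .nil)), (nat_lit 67), (nat_lit 0), (nat_lit 0),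
 (nat_lit 0), (31, 49, 21), [375, 1442], 0⟩,
  mz,
  mz,
  ⟨⟨-9, 76, -11, 44, 15, 38, 42, 24, -67⟩, (.cons (nat_lit 1199) (nat_lit 737) (nat_lit 1781) (nat_lit 1)
 (.cons (nat_lit 1448) (nat_lit 2311) (nat_lit 2575) (nat_lit 1) .nil)), (nat_lit 11), (nat_lit 0), (nat_lit
 0), (nat_lit 0), (25, 4, 49), [92, 417], 0⟩,
  ⟨⟨17, 24, -89, -36, -55, -12, 54, -24, -53⟩, (.cons (nat_lit 2116) (nat_lit 1059) (nat_lit 537) (nat_lit 1)
 (.cons (nat_lit 1516) (nat_lit 2304) (nat_lit 2356) (nat_lit 1) .nil)), (nat_lit 22), (nat_lit 0), (nat_lit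
 0), (nat_lit 0), (7, 52, 64), [367, 2592], 0⟩,
  mz,
  ⟨⟨9, 56, -64, -56, -25, -12, 38, -16, -73⟩, (.cons (nat_lit 1711) (nat_lit 2037) (nat_lit 18) (nat_lit 1)
 (.cons (nat_lit 554) (nat_lit 2634) (nat_lit 1278) (nat_lit 1) .nil)), (nat_lit 39), (nat_lit 0), (nat_lit 0),
 (nat_lit 0), (56, 46, 55), [1098, 119], 0⟩,
  ⟨⟨-61, -48, 25, 44, -55, -32, -22, -8, -55⟩, (.cons (nat_lit 1176) (nat_lit 647) (nat_lit 1120) (nat_lit 1)
 (.cons (nat_lit 1509) (nat_lit 2099) (nat_lit 1065) (nat_lit 1) .nil)), (nat_lit 24), (nat_lit 0), (nat_lit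
 0), (nat_lit 0), (9, 68, 37), [67, 1370], 0⟩,
  mz,
  mz,
  ⟨⟨37, 48, -73, -36, 55, 48, 54, 24, -1⟩, (.cons (nat_lit 95) (nat_lit 1009) (nat_lit 2001) (nat_lit 1) (.cons
 (nat_lit 1436) (nat_lit 458) (nat_lit 1629) (nat_lit 1) .nil)), (nat_lit 16), (nat_lit 0), (nat_lit 0),
 (nat_lit 0), (15, 66, 43), [1325, 1132], 0⟩,
  ⟨⟨-61, 48, 25, 44, 55, -32, -22, 8, -55⟩, (.cons (nat_lit 2083) (nat_lit 1874) (nat_lit 2135) (nat_lit 1)
 (.cons (nat_lit 1848) (nat_lit 625) (nat_lit 1637) (nat_lit 1) .nil)), (nat_lit 24), (nat_lit 0), (nat_lit 0),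
 (nat_lit 0), (13, 43, 14), [373, 859], 0⟩,
  ⟨⟨61, -48, -36, -44, -55, 12, 22, -8, -77⟩, (.cons (nat_lit 2208) (nat_lit 1399) (nat_lit 1841) (nat_lit 1)
 (.cons (nat_lit 2808) (nat_lit 381) (nat_lit 241) (nat_lit 1) .nil)), (nat_lit 24), (nat_lit 0), (nat_lit 0),
 (nat_lit 0), (26, 15, 28), [678, 327], 0⟩,
  mz,
  ⟨⟨51, -4, 40, 10, -69, -20, 60, 12, -49⟩, (.cons (nat_lit 622) (nat_lit 682) (nat_lit 503) (nat_lit 1) (.cons
 (nat_lit 2455) (nat_lit 2010) (nat_lit 400) (nat_lit 1) .nil)), (nat_lit 48), (nat_lit 0), (nat_lit 0),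
 (nat_lit 0), (60, 41, 33), [150, 645], 0⟩,
  mz,
  mz,
  ⟨⟨9, 28, -85, -70, 11, 30, -4, -44, -49⟩, (.cons (nat_lit 2141) (nat_lit 300) (nat_lit 769) (nat_lit 1)
 (.cons (nat_lit 2589) (nat_lit 2629) (nat_lit 2444) (nat_lit 1) .nil)), (nat_lit 57), (nat_lit 0), (nat_lit
 0), (nat_lit 0), (40, 36, 69), [375, 526], 0⟩,
  mz,
  ⟨⟨-11, 72, -25, -50, 11, 80, -44, 4, -29⟩, (.cons (nat_lit 1342) (nat_lit 2106) (nat_lit 60) (nat_lit 1)
 (.cons (nat_lit 1841) (nat_lit 1708) (nat_lit 1344) (nat_lit 1) .nil)), (nat_lit 64), (nat_lit 0), (nat_lit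
 0), (nat_lit 0), (44, 58, 34), [516, 1706], 0⟩,
  mz,
  ⟨⟨-29, -72, 20, 56, -25, -68, -38, -16, -35⟩, (.cons (nat_lit 1335) (nat_lit 1253) (nat_lit 29) (nat_lit 1)
 (.cons (nat_lit 1333) (nat_lit 2618) (nat_lit 307) (nat_lit 1) .nil)), (nat_lit 8), (nat_lit 0), (nat_lit 0),
 (nat_lit 0), (27, 36, 6), [17, 574], 0⟩,
  ⟨⟨75, 20, -32, 10, -21, -80, 12, 60, -25⟩, (.cons (nat_lit 838) (nat_lit 1338) (nat_lit 512) (nat_lit 1)
 (.cons (nat_lit 2491) (nat_lit 2161) (nat_lit 2027) (nat_lit 1) .nil)), (nat_lit 55), (nat_lit 0), (nat_lit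
 0), (nat_lit 0), (30, 4, 19), [850, 2119], 0⟩,
  mz,
  ⟨⟨3, -40, -76, 64, -25, -12, 26, 32, -67⟩, (.cons (nat_lit 2134) (nat_lit 98) (nat_lit 871) (nat_lit 1)
 (.cons (nat_lit 1720) (nat_lit 700) (nat_lit 1297) (nat_lit 1) .nil)), (nat_lit 7), (nat_lit 0), (nat_lit 0),
 (nat_lit 0), (58, 54, 53), [2038, 1444], 0⟩,
  mz,
  ⟨⟨17, -24, -89, -36, 55, -12, 54, 24, -53⟩, (.cons (nat_lit 1210) (nat_lit 933) (nat_lit 39) (nat_lit 1)
 (.cons (nat_lit 1973) (nat_lit 683) (nat_lit 1394) (nat_lit 1) .nil)), (nat_lit 22), (nat_lit 0), (nat_lit 0),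
 (nat_lit 0), (5, 27, 66), [812, 1785], 0⟩,
  ⟨⟨-23, -72, 32, 64, -25, -52, -26, -32, -41⟩, (.cons (nat_lit 1415) (nat_lit 390) (nat_lit 1038) (nat_lit 1)
 (.cons (nat_lit 360) (nat_lit 1202) (nat_lit 596) (nat_lit 1) .nil)), (nat_lit 18), (nat_lit 0), (nat_lit 0),
 (nat_lit 0), (21, 28, 33), [2070, 990], 0⟩,
  mz,
  mz,
  ⟨⟨-65, 24, -7, 4, -55, -52, 10, 40, -59⟩, (.cons (nat_lit 1877) (nat_lit 935) (nat_lit 1) (nat_lit 1128)
 (.cons (nat_lit 773) (nat_lit 140) (nat_lit 1358) (nat_lit 1) .nil)), (nat_lit 3), (nat_lit 0), (nat_lit 0),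
 (nat_lit 0), (43, 5, 48), [1807, 2572], 0⟩,
  ⟨⟨11, -72, -36, 50, -11, 30, 44, -4, -73⟩, (.cons (nat_lit 446) (nat_lit 942) (nat_lit 81) (nat_lit 1) (.cons
 (nat_lit 130) (nat_lit 970) (nat_lit 1963) (nat_lit 1) .nil)), (nat_lit 64), (nat_lit 0), (nat_lit 0),
 (nat_lit 0), (69, 49, 63), [234, 2264], 0⟩,
  ⟨⟨61, 48, -36, -44, 55, 12, 22, 8, -77⟩, (.cons (nat_lit 2194) (nat_lit 1545) (nat_lit 1578) (nat_lit 1)
 (.cons (nat_lit 646) (nat_lit 2019) (nat_lit 1799) (nat_lit 1) .nil)), (nat_lit 24), (nat_lit 0), (nat_lit 0),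
 (nat_lit 0), (30, 61, 5), [326, 875], 0⟩,
  mz,
  ⟨⟨-9, -76, -11, -44, 15, -38, 42, -24, -67⟩, (.cons (nat_lit 519) (nat_lit 1554) (nat_lit 1416) (nat_lit 1)
 (.cons (nat_lit 1992) (nat_lit 2309) (nat_lit 359) (nat_lit 1) .nil)), (nat_lit 67), (nat_lit 0), (nat_lit 0),
 (nat_lit 0), (66, 15, 47), [86, 1049], 0⟩,
  ⟨⟨9, -16, 80, -10, -69, -10, 60, -12, -11⟩, (.cons (nat_lit 2208) (nat_lit 1937) (nat_lit 1247) (nat_lit 1)
 (.cons (nat_lit 2808) (nat_lit 1664) (nat_lit 1296) (nat_lit 1) .nil)), (nat_lit 47), (nat_lit 0), (nat_lit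
 0), (nat_lit 0), (33, 58, 7), [1684, 1086], 0⟩,
  ⟨⟨9, -16, -89, -10, -69, 20, 60, -12, -49⟩, (.cons (nat_lit 1145) (nat_lit 1989) (nat_lit 514) (nat_lit 1)
 (.cons (nat_lit 1292) (nat_lit 806) (nat_lit 2285) (nat_lit 1) .nil)), (nat_lit 47), (nat_lit 0), (nat_lit 0),
 (nat_lit 0), (19, 42, 32), [1473, 616], 0⟩,
  ⟨⟨9, -56, -64, -56, 25, -12, 38, 16, -73⟩, (.cons (nat_lit 1602) (nat_lit 2150) (nat_lit 1657) (nat_lit 1)
 (.cons (nat_lit 1650) (nat_lit 1628) (nat_lit 1122) (nat_lit 1) .nil)), (nat_lit 39), (nat_lit 0), (nat_lit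
 0), (nat_lit 0), (4, 54, 9), [1578, 966], 0⟩,
  ⟨⟨65, 24, -72, -4, -55, -48, -10, 40, -49⟩, (.cons (nat_lit 608) (nat_lit 334) (nat_lit 1) (nat_lit 658)
 (.cons (nat_lit 766) (nat_lit 924) (nat_lit 2224) (nat_lit 1) .nil)), (nat_lit 3), (nat_lit 0), (nat_lit 0),
 (nat_lit 0), (39, 26, 65), [1807, 2797], 0⟩,
  ⟨⟨9, -76, -20, 44, 15, -82, -42, -24, -25⟩, (.cons (nat_lit 703) (nat_lit 1413) (nat_lit 746) (nat_lit 1)
 (.cons (nat_lit 1413) (nat_lit 2807) (nat_lit 2503) (nat_lit 1) .nil)), (nat_lit 67), (nat_lit 0), (nat_lit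
 0), (nat_lit 0), (1, 68, 19), [932, 2118], 0⟩,
  mz,
  ⟨⟨13, -72, 23, -70, -11, 40, 4, -44, -53⟩, (.cons (nat_lit 1904) (nat_lit 1251) (nat_lit 1795) (nat_lit 1)
 (.cons (nat_lit 2333) (nat_lit 2395) (nat_lit 2460) (nat_lit 1) .nil)), (nat_lit 62), (nat_lit 0), (nat_lit
 0), (nat_lit 0), (14, 12, 48), [1315, 2683], 0⟩,
  ⟨⟨9, 16, 80, -10, 69, -10, 60, 12, -11⟩, (.cons (nat_lit 2192) (nat_lit 1707) (nat_lit 1272) (nat_lit 1)
 (.cons (nat_lit 502) (nat_lit 40) (nat_lit 2189) (nat_lit 1) .nil)), (nat_lit 47), (nat_lit 0), (nat_lit 0),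
 (nat_lit 0), (58, 46, 8), [2099, 1318], 0⟩,
  ⟨⟨75, -20, -32, 10, 21, -80, 12, -60, -25⟩, (.cons (nat_lit 2208) (nat_lit 951) (nat_lit 1395) (nat_lit 1)
 (.cons (nat_lit 2808) (nat_lit 2706) (nat_lit 710) (nat_lit 1) .nil)), (nat_lit 55), (nat_lit 0), (nat_lit 0),
 (nat_lit 0), (52, 59, 14), [106, 1682], 0⟩,
  mz,
  ⟨⟨-11, -72, -25, 50, 11, -80, -44, -4, -29⟩, (.cons (nat_lit 1072) (nat_lit 914) (nat_lit 1798) (nat_lit 1)
 (.cons (nat_lit 881) (nat_lit 1276) (nat_lit 1339) (nat_lit 1) .nil)), (nat_lit 29), (nat_lit 0), (nat_lit 0),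
 (nat_lit 0), (38, 8, 10), [1235, 626], 0⟩,
  ⟨⟨-75, -20, 43, -10, 21, -70, -12, -60, -13⟩, (.cons (nat_lit 1787) (nat_lit 1844) (nat_lit 1190) (nat_lit 1)
 (.cons (nat_lit 1294) (nat_lit 53) (nat_lit 2180) (nat_lit 1) .nil)), (nat_lit 55), (nat_lit 0), (nat_lit 0),
 (nat_lit 0), (2, 5, 6), [2174, 926], 0⟩,
  mz,
  mz,
  mz,
  ⟨⟨33, -68, -37, -50, -11, -30, 44, 4, -73⟩, (.cons (nat_lit 1224) (nat_lit 1822) (nat_lit 875) (nat_lit 1)
 (.cons (nat_lit 478) (nat_lit 1262) (nat_lit 1091) (nat_lit 1) .nil)), (nat_lit 53), (nat_lit 0), (nat_lit 0),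
 (nat_lit 0), (12, 27, 16), [372, 457], 0⟩,
  mz,
  ⟨⟨-13, 72, 36, 70, 11, -30, -4, 44, -49⟩, (.cons (nat_lit 1466) (nat_lit 2008) (nat_lit 1762) (nat_lit 1)
 (.cons (nat_lit 2595) (nat_lit 2267) (nat_lit 445) (nat_lit 1) .nil)), (nat_lit 62), (nat_lit 0), (nat_lit 0),
 (nat_lit 0), (35, 30, 49), [718, 2486], 0⟩,
  ⟨⟨75, -16, -52, 4, 55, -52, 10, -40, -59⟩, (.cons (nat_lit 2208) (nat_lit 1084) (nat_lit 235) (nat_lit 1)
 (.cons (nat_lit 2808) (nat_lit 387) (nat_lit 179) (nat_lit 1) .nil)), (nat_lit 65), (nat_lit 0), (nat_lit 0),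
 (nat_lit 0), (51, 51, 21), [1528, 2704], 0⟩,
  mz,
  ⟨⟨33, 20, -92, 64, -15, -2, 6, -48, -49⟩, (.cons (nat_lit 151) (nat_lit 968) (nat_lit 924) (nat_lit 1) (.cons
 (nat_lit 771) (nat_lit 256) (nat_lit 2733) (nat_lit 1) .nil)), (nat_lit 12), (nat_lit 0), (nat_lit 0),
 (nat_lit 0), (45, 55, 34), [1545, 718], 0⟩,
  ⟨⟨13, 72, 23, 70, -11, -40, 4, 44, -53⟩, (.cons (nat_lit 237) (nat_lit 4) (nat_lit 2141) (nat_lit 1) (.cons
 (nat_lit 487) (nat_lit 2081) (nat_lit 490) (nat_lit 1) .nil)), (nat_lit 43), (nat_lit 0), (nat_lit 0),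
 (nat_lit 0), (20, 64, 28), [795, 2045], 0⟩,
  ⟨⟨-23, 72, 32, 64, 25, -52, -26, 32, -41⟩, (.cons (nat_lit 333) (nat_lit 1564) (nat_lit 1370) (nat_lit 1)
 (.cons (nat_lit 1577) (nat_lit 1636) (nat_lit 1081) (nat_lit 1) .nil)), (nat_lit 18), (nat_lit 0), (nat_lit
 0), (nat_lit 0), (27, 36, 12), [685, 80], 0⟩,
  ⟨⟨17, 24, 72, -36, -55, 48, 54, -24, -1⟩, (.cons (nat_lit 529) (nat_lit 886) (nat_lit 713) (nat_lit 1) (.cons
 (nat_lit 468) (nat_lit 2351) (nat_lit 2020) (nat_lit 1) .nil)), (nat_lit 22), (nat_lit 0), (nat_lit 0),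
 (nat_lit 0), (30, 20, 41), [1773, 224], 0⟩]

/-- Moves. -/
noncomputable def t4_3 : List Mv := [
  mz,
  ⟨⟨63, 40, -56, -10, -21, -70, -12, 60, -13⟩, (.cons (nat_lit 1731) (nat_lit 542) (nat_lit 2120) (nat_lit 1)
 (.cons (nat_lit 2650) (nat_lit 15) (nat_lit 1834) (nat_lit 1) .nil)), (nat_lit 58), (nat_lit 0), (nat_lit 0),
 (nat_lit 0), (31, 21, 11), [145, 1801], 0⟩,
  mz,
  ⟨⟨65, -24, -72, -4, 55, -48, -10, -40, -49⟩, (.cons (nat_lit 2208) (nat_lit 1454) (nat_lit 141) (nat_lit 1)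
 (.cons (nat_lit 2808) (nat_lit 2667) (nat_lit 2346) (nat_lit 1) .nil)), (nat_lit 3), (nat_lit 0), (nat_lit 0),
 (nat_lit 0), (37, 1, 38), [964, 2288], 0⟩,
  ⟨⟨27, 68, 16, 64, -15, -62, -6, 48, -43⟩, (.cons (nat_lit 973) (nat_lit 1402) (nat_lit 1576) (nat_lit 1)
 (.cons (nat_lit 1177) (nat_lit 1939) (nat_lit 160) (nat_lit 1) .nil)), (nat_lit 46), (nat_lit 0), (nat_lit 0),
 (nat_lit 0), (60, 16, 34), [1174, 435], 0⟩,
  ⟨⟨27, -68, 16, -64, -15, 62, -6, -48, -43⟩, (.cons (nat_lit 1232) (nat_lit 1711) (nat_lit 1567) (nat_lit 1)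
 (.cons (nat_lit 2773) (nat_lit 1843) (nat_lit 39) (nat_lit 1) .nil)), (nat_lit 15), (nat_lit 0), (nat_lit 0),
 (nat_lit 0), (7, 36, 30), [1169, 939], 0⟩,
  mz,
  ⟨⟨-29, 72, 20, 56, 25, -68, -38, 16, -35⟩, (.cons (nat_lit 756) (nat_lit 294) (nat_lit 693) (nat_lit 1)
 (.cons (nat_lit 2107) (nat_lit 966) (nat_lit 1167) (nat_lit 1) .nil)), (nat_lit 8), (nat_lit 0), (nat_lit 0),
 (nat_lit 0), (33, 44, 31), [1719, 504], 0⟩,
  ⟨⟨3, 40, -76, 64, 25, -12, 26, -32, -67⟩, (.cons (nat_lit 1610) (nat_lit 1595) (nat_lit 2024) (nat_lit 1)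
 (.cons (nat_lit 4) (nat_lit 1754) (nat_lit 950) (nat_lit 1) .nil)), (nat_lit 7), (nat_lit 0), (nat_lit 0),
 (nat_lit 0), (14, 62, 3), [1820, 2446], 0⟩,
  mz,
  mz,
  ⟨⟨33, -20, -92, -64, -15, 2, 6, 48, -49⟩, (.cons (nat_lit 1819) (nat_lit 854) (nat_lit 492) (nat_lit 1)
 (.cons (nat_lit 1933) (nat_lit 783) (nat_lit 1479) (nat_lit 1) .nil)), (nat_lit 51), (nat_lit 0), (nat_lit 0),
 (nat_lit 0), (67, 68, 38), [1644, 2603], 0⟩,
  ⟨⟨9, 76, -20, 44, -15, -82, -42, 24, -25⟩, (.cons (nat_lit 1302) (nat_lit 1003) (nat_lit 857) (nat_lit 1)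
 (.cons (nat_lit 2237) (nat_lit 364) (nat_lit 1472) (nat_lit 1) .nil)), (nat_lit 67), (nat_lit 0), (nat_lit 0),
 (nat_lit 0), (31, 49, 21), [375, 1442], 0⟩,
  mz,
  mz,
  ⟨⟨51, -52, -56, -44, -15, -38, 42, 24, -67⟩, (.cons (nat_lit 1490) (nat_lit 2005) (nat_lit 83) (nat_lit 1)
 (.cons (nat_lit 78) (nat_lit 2314) (nat_lit 2576) (nat_lit 1) .nil)), (nat_lit 5), (nat_lit 0), (nat_lit 0),
 (nat_lit 0), (24, 67, 49), [234, 2179], 0⟩,
  ⟨⟨17, 24, -89, -36, -55, -12, 54, -24, -53⟩, (.cons (nat_lit 2116) (nat_lit 1059) (nat_lit 537) (nat_lit 1)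
 (.cons (nat_lit 1516) (nat_lit 2304) (nat_lit 2356) (nat_lit 1) .nil)), (nat_lit 22), (nat_lit 0), (nat_lit
 0), (nat_lit 0), (7, 52, 64), [367, 2592], 0⟩,
  mz,
  ⟨⟨9, 56, -64, -56, -25, -12, 38, -16, -73⟩, (.cons (nat_lit 1711) (nat_lit 2037) (nat_lit 18) (nat_lit 1)
 (.cons (nat_lit 554) (nat_lit 2634) (nat_lit 1278) (nat_lit 1) .nil)), (nat_lit 39), (nat_lit 0), (nat_lit 0),
 (nat_lit 0), (56, 46, 55), [1098, 119], 0⟩,
  ⟨⟨-61, -48, 25, -44, 55, 32, -22, -8, -55⟩, (.cons (nat_lit 257) (nat_lit 291) (nat_lit 393) (nat_lit 1)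
 (.cons (nat_lit 2454) (nat_lit 131) (nat_lit 2177) (nat_lit 1) .nil)), (nat_lit 44), (nat_lit 0), (nat_lit 0),
 (nat_lit 0), (9, 3, 37), [1086, 1880], 0⟩,
  mz,
  mz,
  ⟨⟨17, -24, 72, 36, -55, -48, 54, 24, -1⟩, (.cons (nat_lit 380) (nat_lit 1297) (nat_lit 767) (nat_lit 1)
 (.cons (nat_lit 2803) (nat_lit 61) (nat_lit 884) (nat_lit 1) .nil)), (nat_lit 70), (nat_lit 0), (nat_lit 0),
 (nat_lit 0), (28, 5, 43), [309, 2446], 0⟩,
  ⟨⟨39, -40, -80, -44, -55, 32, -22, 8, -55⟩, (.cons (nat_lit 2208) (nat_lit 54) (nat_lit 1149) (nat_lit 1)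
 (.cons (nat_lit 2808) (nat_lit 2288) (nat_lit 2217) (nat_lit 1) .nil)), (nat_lit 23), (nat_lit 0), (nat_lit
 0), (nat_lit 0), (1, 28, 14), [1618, 221], 0⟩,
  ⟨⟨61, -48, -36, 44, 55, -12, 22, -8, -77⟩, (.cons (nat_lit 589) (nat_lit 103) (nat_lit 547) (nat_lit 1)
 (.cons (nat_lit 387) (nat_lit 2358) (nat_lit 419) (nat_lit 1) .nil)), (nat_lit 44), (nat_lit 0), (nat_lit 0),
 (nat_lit 0), (26, 56, 28), [2073, 2407], 0⟩,
  mz,
  ⟨⟨9, 16, -89, -10, 69, 20, 60, 12, -49⟩, (.cons (nat_lit 142) (nat_lit 1796) (nat_lit 445) (nat_lit 1) (.cons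
 (nat_lit 148) (nat_lit 1151) (nat_lit 1705) (nat_lit 1) .nil)), (nat_lit 47), (nat_lit 0), (nat_lit 0),
 (nat_lit 0), (44, 30, 33), [1418, 2603], 0⟩,
  mz,
  mz,
  ⟨⟨-13, -72, 36, -70, 11, 30, -4, -44, -49⟩, (.cons (nat_lit 256) (nat_lit 1392) (nat_lit 1145) (nat_lit 1)
 (.cons (nat_lit 1158) (nat_lit 2345) (nat_lit 1279) (nat_lit 1) .nil)), (nat_lit 43), (nat_lit 0), (nat_lit
 0), (nat_lit 0), (29, 36, 69), [516, 1133], 0⟩,
  mz,
  ⟨⟨-11, 72, -25, 50, -11, -80, -44, 4, -29⟩, (.cons (nat_lit 1553) (nat_lit 434) (nat_lit 911) (nat_lit 1)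
 (.cons (nat_lit 1176) (nat_lit 2135) (nat_lit 2754) (nat_lit 1) .nil)), (nat_lit 29), (nat_lit 0), (nat_lit
 0), (nat_lit 0), (44, 13, 34), [231, 2098], 0⟩,
  mz,
  ⟨⟨-29, -72, 20, 56, -25, -68, -38, -16, -35⟩, (.cons (nat_lit 1335) (nat_lit 1253) (nat_lit 29) (nat_lit 1)
 (.cons (nat_lit 1333) (nat_lit 2618) (nat_lit 307) (nat_lit 1) .nil)), (nat_lit 8), (nat_lit 0), (nat_lit 0),
 (nat_lit 0), (27, 36, 6), [17, 574], 0⟩,
  ⟨⟨75, 20, -32, -10, 21, 80, 12, 60, -25⟩, (.cons (nat_lit 2208) (nat_lit 1946) (nat_lit 585) (nat_lit 1)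
 (.cons (nat_lit 2808) (nat_lit 441) (nat_lit 2377) (nat_lit 1) .nil)), (nat_lit 34), (nat_lit 0), (nat_lit 0),
 (nat_lit 0), (30, 67, 19), [2080, 1863], 0⟩,
  mz,
  ⟨⟨3, -40, -76, 64, -25, -12, 26, 32, -67⟩, (.cons (nat_lit 2134) (nat_lit 98) (nat_lit 871) (nat_lit 1)
 (.cons (nat_lit 1720) (nat_lit 700) (nat_lit 1297) (nat_lit 1) .nil)), (nat_lit 7), (nat_lit 0), (nat_lit 0),
 (nat_lit 0), (58, 54, 53), [2038, 1444], 0⟩,
  mz,
  ⟨⟨17, -24, -89, -36, 55, -12, 54, 24, -53⟩, (.cons (nat_lit 1210) (nat_lit 933) (nat_lit 39) (nat_lit 1)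
 (.cons (nat_lit 1973) (nat_lit 683) (nat_lit 1394) (nat_lit 1) .nil)), (nat_lit 22), (nat_lit 0), (nat_lit 0),
 (nat_lit 0), (5, 27, 66), [812, 1785], 0⟩,
  ⟨⟨-23, -72, 32, -64, 25, 52, -26, -32, -41⟩, (.cons (nat_lit 1281) (nat_lit 473) (nat_lit 232) (nat_lit 1)
 (.cons (nat_lit 2317) (nat_lit 411) (nat_lit 1460) (nat_lit 1) .nil)), (nat_lit 49), (nat_lit 0), (nat_lit 0),
 (nat_lit 0), (21, 43, 33), [269, 1428], 0⟩,
  mz,
  mz,
  ⟨⟨75, 16, -52, -4, 55, 52, 10, 40, -59⟩, (.cons (nat_lit 2208) (nat_lit 658) (nat_lit 1420) (nat_lit 1)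
 (.cons (nat_lit 2808) (nat_lit 962) (nat_lit 626) (nat_lit 1) .nil)), (nat_lit 42), (nat_lit 0), (nat_lit 0),
 (nat_lit 0), (5, 66, 48), [1152, 1334], 0⟩,
  ⟨⟨11, -72, -36, -50, 11, -30, 44, -4, -73⟩, (.cons (nat_lit 1372) (nat_lit 961) (nat_lit 1868) (nat_lit 1)
 (.cons (nat_lit 245) (nat_lit 1320) (nat_lit 1253) (nat_lit 1) .nil)), (nat_lit 29), (nat_lit 0), (nat_lit 0),
 (nat_lit 0), (69, 22, 63), [1799, 2435], 0⟩,
  ⟨⟨-39, -40, -41, 44, -55, -12, 22, 8, -77⟩, (.cons (nat_lit 1270) (nat_lit 1511) (nat_lit 26) (nat_lit 1)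
 (.cons (nat_lit 2084) (nat_lit 860) (nat_lit 426) (nat_lit 1) .nil)), (nat_lit 23), (nat_lit 0), (nat_lit 0),
 (nat_lit 0), (46, 10, 5), [1947, 1133], 0⟩,
  mz,
  ⟨⟨51, 52, -56, -44, 15, -38, 42, -24, -67⟩, (.cons (nat_lit 938) (nat_lit 561) (nat_lit 617) (nat_lit 1)
 (.cons (nat_lit 664) (nat_lit 319) (nat_lit 308) (nat_lit 1) .nil)), (nat_lit 5), (nat_lit 0), (nat_lit 0),
 (nat_lit 0), (52, 15, 47), [274, 1754], 0⟩,
  ⟨⟨51, 4, -91, -10, -69, -10, 60, -12, -11⟩, (.cons (nat_lit 2069) (nat_lit 1823) (nat_lit 448) (nat_lit 1)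
 (.cons (nat_lit 1879) (nat_lit 201) (nat_lit 1374) (nat_lit 1) .nil)), (nat_lit 26), (nat_lit 0), (nat_lit 0),
 (nat_lit 0), (45, 58, 7), [838, 148], 0⟩,
  ⟨⟨9, -16, -89, 10, 69, -20, 60, -12, -49⟩, (.cons (nat_lit 565) (nat_lit 1018) (nat_lit 985) (nat_lit 1)
 (.cons (nat_lit 1102) (nat_lit 1845) (nat_lit 2478) (nat_lit 1) .nil)), (nat_lit 54), (nat_lit 0), (nat_lit
 0), (nat_lit 0), (19, 29, 32), [384, 2020], 0⟩,
  ⟨⟨9, -56, -64, -56, 25, -12, 38, 16, -73⟩, (.cons (nat_lit 1602) (nat_lit 2150) (nat_lit 1657) (nat_lit 1)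
 (.cons (nat_lit 1650) (nat_lit 1628) (nat_lit 1122) (nat_lit 1) .nil)), (nat_lit 39), (nat_lit 0), (nat_lit
 0), (nat_lit 0), (4, 54, 9), [1578, 966], 0⟩,
  ⟨⟨65, 24, -72, -4, -55, -48, -10, 40, -49⟩, (.cons (nat_lit 608) (nat_lit 334) (nat_lit 1) (nat_lit 658)
 (.cons (nat_lit 766) (nat_lit 924) (nat_lit 2224) (nat_lit 1) .nil)), (nat_lit 3), (nat_lit 0), (nat_lit 0),
 (nat_lit 0), (39, 26, 65), [1807, 2797], 0⟩,
  ⟨⟨9, -76, -20, -44, -15, 82, -42, -24, -25⟩, (.cons (nat_lit 1467) (nat_lit 1894) (nat_lit 579) (nat_lit 1)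
 (.cons (nat_lit 388) (nat_lit 2377) (nat_lit 1993) (nat_lit 1) .nil)), (nat_lit 11), (nat_lit 0), (nat_lit 0),
 (nat_lit 0), (1, 3, 19), [511, 2105], 0⟩,
  mz,
  ⟨⟨13, -72, 23, -70, -11, 40, 4, -44, -53⟩, (.cons (nat_lit 1904) (nat_lit 1251) (nat_lit 1795) (nat_lit 1)
 (.cons (nat_lit 2333) (nat_lit 2395) (nat_lit 2460) (nat_lit 1) .nil)), (nat_lit 62), (nat_lit 0), (nat_lit
 0), (nat_lit 0), (14, 12, 48), [1315, 2683], 0⟩,
  ⟨⟨9, 16, 80, -10, 69, -10, 60, 12, -11⟩, (.cons (nat_lit 2192) (nat_lit 1707) (nat_lit 1272) (nat_lit 1)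
 (.cons (nat_lit 502) (nat_lit 40) (nat_lit 2189) (nat_lit 1) .nil)), (nat_lit 47), (nat_lit 0), (nat_lit 0),
 (nat_lit 0), (58, 46, 8), [2099, 1318], 0⟩,
  ⟨⟨75, -20, -32, 10, 21, -80, 12, -60, -25⟩, (.cons (nat_lit 2208) (nat_lit 951) (nat_lit 1395) (nat_lit 1)
 (.cons (nat_lit 2808) (nat_lit 2706) (nat_lit 710) (nat_lit 1) .nil)), (nat_lit 55), (nat_lit 0), (nat_lit 0),
 (nat_lit 0), (52, 59, 14), [106, 1682], 0⟩,
  mz,
  ⟨⟨-11, -72, -25, 50, 11, -80, -44, -4, -29⟩, (.cons (nat_lit 1072) (nat_lit 914) (nat_lit 1798) (nat_lit 1)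
 (.cons (nat_lit 881) (nat_lit 1276) (nat_lit 1339) (nat_lit 1) .nil)), (nat_lit 29), (nat_lit 0), (nat_lit 0),
 (nat_lit 0), (38, 8, 10), [1235, 626], 0⟩,
  ⟨⟨63, -40, -56, 10, -21, 70, -12, -60, -13⟩, (.cons (nat_lit 1733) (nat_lit 1748) (nat_lit 1816) (nat_lit 1)
 (.cons (nat_lit 896) (nat_lit 605) (nat_lit 1) (nat_lit 795) .nil)), (nat_lit 1), (nat_lit 0), (nat_lit 0),
 (nat_lit 0), (4, 66, 6), [1272, 664], 0⟩,
  mz,
  mz,
  mz,
  ⟨⟨11, 72, -36, -50, -11, -30, 44, 4, -73⟩, (.cons (nat_lit 280) (nat_lit 1468) (nat_lit 1580) (nat_lit 1)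
 (.cons (nat_lit 1404) (nat_lit 1422) (nat_lit 722) (nat_lit 1) .nil)), (nat_lit 29), (nat_lit 0), (nat_lit 0),
 (nat_lit 0), (4, 27, 16), [1500, 2454], 0⟩,
  mz,
  ⟨⟨-13, 72, 36, 70, 11, -30, -4, 44, -49⟩, (.cons (nat_lit 1466) (nat_lit 2008) (nat_lit 1762) (nat_lit 1)
 (.cons (nat_lit 2595) (nat_lit 2267) (nat_lit 445) (nat_lit 1) .nil)), (nat_lit 62), (nat_lit 0), (nat_lit 0),
 (nat_lit 0), (35, 30, 49), [718, 2486], 0⟩,
  ⟨⟨75, -16, -52, 4, 55, -52, 10, -40, -59⟩, (.cons (nat_lit 2208) (nat_lit 1084) (nat_lit 235) (nat_lit 1)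
 (.cons (nat_lit 2808) (nat_lit 387) (nat_lit 179) (nat_lit 1) .nil)), (nat_lit 65), (nat_lit 0), (nat_lit 0),
 (nat_lit 0), (51, 51, 21), [1528, 2704], 0⟩,
  mz,
  ⟨⟨33, 20, -92, 64, -15, -2, 6, -48, -49⟩, (.cons (nat_lit 151) (nat_lit 968) (nat_lit 924) (nat_lit 1) (.cons
 (nat_lit 771) (nat_lit 256) (nat_lit 2733) (nat_lit 1) .nil)), (nat_lit 12), (nat_lit 0), (nat_lit 0),
 (nat_lit 0), (45, 55, 34), [1545, 718], 0⟩,
  ⟨⟨13, 72, 23, 70, -11, -40, 4, 44, -53⟩, (.cons (nat_lit 237) (nat_lit 4) (nat_lit 2141) (nat_lit 1) (.cons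
 (nat_lit 487) (nat_lit 2081) (nat_lit 490) (nat_lit 1) .nil)), (nat_lit 43), (nat_lit 0), (nat_lit 0),
 (nat_lit 0), (20, 64, 28), [795, 2045], 0⟩,
  ⟨⟨-3, -40, -73, 64, 25, -52, -26, 32, -41⟩, (.cons (nat_lit 1359) (nat_lit 1914) (nat_lit 477) (nat_lit 1)
 (.cons (nat_lit 2457) (nat_lit 1513) (nat_lit 1343) (nat_lit 1) .nil)), (nat_lit 33), (nat_lit 0), (nat_lit
 0), (nat_lit 0), (56, 36, 12), [1249, 1369], 0⟩,
  ⟨⟨37, -48, -73, -36, -55, 48, 54, -24, -1⟩, (.cons (nat_lit 317) (nat_lit 2122) (nat_lit 243) (nat_lit 1)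
 (.cons (nat_lit 2077) (nat_lit 2542) (nat_lit 712) (nat_lit 1) .nil)), (nat_lit 16), (nat_lit 0), (nat_lit 0),
 (nat_lit 0), (11, 20, 41), [692, 1271], 0⟩]

/-- Moves. -/
noncomputable def t4_9 : List Mv := [
  mz,
  ⟨⟨-75, 20, 43, -10, -21, -70, -12, 60, -13⟩, (.cons (nat_lit 337) (nat_lit 304) (nat_lit 1415) (nat_lit 1)
 (.cons (nat_lit 437) (nat_lit 535) (nat_lit 711) (nat_lit 1) .nil)), (nat_lit 55), (nat_lit 0), (nat_lit 0),
 (nat_lit 0), (51, 21, 11), [98, 1481], 0⟩,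
  mz,
  ⟨⟨-75, -16, 23, -4, 55, -48, -10, -40, -49⟩, (.cons (nat_lit 565) (nat_lit 661) (nat_lit 2162) (nat_lit 1)
 (.cons (nat_lit 375) (nat_lit 631) (nat_lit 1560) (nat_lit 1) .nil)), (nat_lit 65), (nat_lit 0), (nat_lit 0),
 (nat_lit 0), (1, 1, 38), [1528, 2513], 0⟩,
  ⟨⟨27, 68, 16, 64, -15, -62, -6, 48, -43⟩, (.cons (nat_lit 973) (nat_lit 1402) (nat_lit 1576) (nat_lit 1)
 (.cons (nat_lit 1177) (nat_lit 1939) (nat_lit 160) (nat_lit 1) .nil)), (nat_lit 46), (nat_lit 0), (nat_lit 0),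
 (nat_lit 0), (60, 16, 34), [1174, 435], 0⟩,
  ⟨⟨27, -68, 16, 64, 15, -62, -6, -48, -43⟩, (.cons (nat_lit 869) (nat_lit 680) (nat_lit 614) (nat_lit 1)
 (.cons (nat_lit 1891) (nat_lit 706) (nat_lit 1844) (nat_lit 1) .nil)), (nat_lit 46), (nat_lit 0), (nat_lit 0),
 (nat_lit 0), (7, 35, 30), [1502, 2770], 0⟩,
  mz,
  ⟨⟨-29, 72, 20, 56, 25, -68, -38, 16, -35⟩, (.cons (nat_lit 756) (nat_lit 294) (nat_lit 693) (nat_lit 1)
 (.cons (nat_lit 2107) (nat_lit 966) (nat_lit 1167) (nat_lit 1) .nil)), (nat_lit 8), (nat_lit 0), (nat_lit 0),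
 (nat_lit 0), (33, 44, 31), [1719, 504], 0⟩,
  ⟨⟨3, 40, -76, 64, 25, -12, 26, -32, -67⟩, (.cons (nat_lit 1610) (nat_lit 1595) (nat_lit 2024) (nat_lit 1)
 (.cons (nat_lit 4) (nat_lit 1754) (nat_lit 950) (nat_lit 1) .nil)), (nat_lit 7), (nat_lit 0), (nat_lit 0),
 (nat_lit 0), (14, 62, 3), [1820, 2446], 0⟩,
  mz,
  mz,
  ⟨⟨-27, 68, 43, -64, -15, 2, 6, 48, -49⟩, (.cons (nat_lit 1894) (nat_lit 556) (nat_lit 116) (nat_lit 1) (.cons
 (nat_lit 1936) (nat_lit 1023) (nat_lit 2661) (nat_lit 1) .nil)), (nat_lit 46), (nat_lit 0), (nat_lit 0),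
 (nat_lit 0), (42, 68, 38), [234, 544], 0⟩,
  ⟨⟨9, 76, -20, 44, -15, -82, -42, 24, -25⟩, (.cons (nat_lit 1302) (nat_lit 1003) (nat_lit 857) (nat_lit 1)
 (.cons (nat_lit 2237) (nat_lit 364) (nat_lit 1472) (nat_lit 1) .nil)), (nat_lit 67), (nat_lit 0), (nat_lit 0),
 (nat_lit 0), (31, 49, 21), [375, 1442], 0⟩,
  mz,
  mz,
  ⟨⟨51, -52, -56, -44, -15, -38, 42, 24, -67⟩, (.cons (nat_lit 1490) (nat_lit 2005) (nat_lit 83) (nat_lit 1)
 (.cons (nat_lit 78) (nat_lit 2314) (nat_lit 2576) (nat_lit 1) .nil)), (nat_lit 5), (nat_lit 0), (nat_lit 0),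
 (nat_lit 0), (24, 67, 49), [234, 2179], 0⟩,
  ⟨⟨17, 24, -89, 36, 55, 12, 54, -24, -53⟩, (.cons (nat_lit 1547) (nat_lit 2049) (nat_lit 1818) (nat_lit 1)
 (.cons (nat_lit 2030) (nat_lit 2682) (nat_lit 1275) (nat_lit 1) .nil)), (nat_lit 70), (nat_lit 0), (nat_lit
 0), (nat_lit 0), (7, 19, 64), [2135, 309], 0⟩,
  mz,
  ⟨⟨29, -72, -9, -56, -25, -12, 38, -16, -73⟩, (.cons (nat_lit 1203) (nat_lit 125) (nat_lit 253) (nat_lit 1)
 (.cons (nat_lit 2523) (nat_lit 888) (nat_lit 1363) (nat_lit 1) .nil)), (nat_lit 8), (nat_lit 0), (nat_lit 0),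
 (nat_lit 0), (70, 46, 55), [440, 670], 0⟩,
  ⟨⟨-61, -48, 25, 44, -55, -32, -22, -8, -55⟩, (.cons (nat_lit 1176) (nat_lit 647) (nat_lit 1120) (nat_lit 1)
 (.cons (nat_lit 1509) (nat_lit 2099) (nat_lit 1065) (nat_lit 1) .nil)), (nat_lit 24), (nat_lit 0), (nat_lit
 0), (nat_lit 0), (9, 68, 37), [67, 1370], 0⟩,
  mz,
  mz,
  ⟨⟨17, -24, 72, 36, -55, -48, 54, 24, -1⟩, (.cons (nat_lit 380) (nat_lit 1297) (nat_lit 767) (nat_lit 1)
 (.cons (nat_lit 2803) (nat_lit 61) (nat_lit 884) (nat_lit 1) .nil)), (nat_lit 70), (nat_lit 0), (nat_lit 0),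
 (nat_lit 0), (28, 5, 43), [309, 2446], 0⟩,
  ⟨⟨-61, 48, 25, -44, -55, 32, -22, 8, -55⟩, (.cons (nat_lit 941) (nat_lit 745) (nat_lit 2042) (nat_lit 1)
 (.cons (nat_lit 926) (nat_lit 1396) (nat_lit 1593) (nat_lit 1) .nil)), (nat_lit 44), (nat_lit 0), (nat_lit 0),
 (nat_lit 0), (13, 28, 14), [1994, 2377], 0⟩,
  ⟨⟨-39, 40, -41, 44, 55, -12, 22, -8, -77⟩, (.cons (nat_lit 1385) (nat_lit 85) (nat_lit 876) (nat_lit 1)
 (.cons (nat_lit 2771) (nat_lit 1278) (nat_lit 408) (nat_lit 1) .nil)), (nat_lit 23), (nat_lit 0), (nat_lit 0),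
 (nat_lit 0), (2, 56, 28), [616, 1627], 0⟩,
  mz,
  ⟨⟨51, -4, 40, 10, -69, -20, 60, 12, -49⟩, (.cons (nat_lit 622) (nat_lit 682) (nat_lit 503) (nat_lit 1) (.cons
 (nat_lit 2455) (nat_lit 2010) (nat_lit 400) (nat_lit 1) .nil)), (nat_lit 48), (nat_lit 0), (nat_lit 0),
 (nat_lit 0), (60, 41, 33), [150, 645], 0⟩,
  mz,
  mz,
  ⟨⟨-13, -72, 36, 70, -11, -30, -4, -44, -49⟩, (.cons (nat_lit 2138) (nat_lit 405) (nat_lit 1730) (nat_lit 1)
 (.cons (nat_lit 2807) (nat_lit 35) (nat_lit 1444) (nat_lit 1) .nil)), (nat_lit 62), (nat_lit 0), (nat_lit 0),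
 (nat_lit 0), (29, 35, 69), [93, 1389], 0⟩,
  mz,
  ⟨⟨-11, 72, -25, 50, -11, -80, -44, 4, -29⟩, (.cons (nat_lit 1553) (nat_lit 434) (nat_lit 911) (nat_lit 1)
 (.cons (nat_lit 1176) (nat_lit 2135) (nat_lit 2754) (nat_lit 1) .nil)), (nat_lit 29), (nat_lit 0), (nat_lit
 0), (nat_lit 0), (44, 13, 34), [231, 2098], 0⟩,
  mz,
  ⟨⟨-29, -72, 20, 56, -25, -68, -38, -16, -35⟩, (.cons (nat_lit 1335) (nat_lit 1253) (nat_lit 29) (nat_lit 1)
 (.cons (nat_lit 1333) (nat_lit 2618) (nat_lit 307) (nat_lit 1) .nil)), (nat_lit 8), (nat_lit 0), (nat_lit 0),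
 (nat_lit 0), (27, 36, 6), [17, 574], 0⟩,
  ⟨⟨-63, 40, 7, 10, -21, -80, 12, 60, -25⟩, (.cons (nat_lit 1512) (nat_lit 1717) (nat_lit 2016) (nat_lit 1)
 (.cons (nat_lit 1939) (nat_lit 1553) (nat_lit 876) (nat_lit 1) .nil)), (nat_lit 58), (nat_lit 0), (nat_lit 0),
 (nat_lit 0), (60, 4, 19), [897, 86], 0⟩,
  mz,
  ⟨⟨23, 72, 9, 64, -25, -12, 26, 32, -67⟩, (.cons (nat_lit 639) (nat_lit 1124) (nat_lit 1106) (nat_lit 1)
 (.cons (nat_lit 2728) (nat_lit 259) (nat_lit 630) (nat_lit 1) .nil)), (nat_lit 49), (nat_lit 0), (nat_lit 0),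
 (nat_lit 0), (66, 54, 53), [769, 1922], 0⟩,
  mz,
  ⟨⟨17, -24, -89, 36, -55, 12, 54, 24, -53⟩, (.cons (nat_lit 1176) (nat_lit 135) (nat_lit 371) (nat_lit 1)
 (.cons (nat_lit 1463) (nat_lit 998) (nat_lit 481) (nat_lit 1) .nil)), (nat_lit 70), (nat_lit 0), (nat_lit 0),
 (nat_lit 0), (5, 44, 66), [2200, 1161], 0⟩,
  ⟨⟨-23, -72, 32, -64, 25, 52, -26, -32, -41⟩, (.cons (nat_lit 1281) (nat_lit 473) (nat_lit 232) (nat_lit 1)
 (.cons (nat_lit 2317) (nat_lit 411) (nat_lit 1460) (nat_lit 1) .nil)), (nat_lit 49), (nat_lit 0), (nat_lit 0),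
 (nat_lit 0), (21, 43, 33), [269, 1428], 0⟩,
  mz,
  mz,
  ⟨⟨75, 16, -52, -4, 55, 52, 10, 40, -59⟩, (.cons (nat_lit 2208) (nat_lit 658) (nat_lit 1420) (nat_lit 1)
 (.cons (nat_lit 2808) (nat_lit 962) (nat_lit 626) (nat_lit 1) .nil)), (nat_lit 42), (nat_lit 0), (nat_lit 0),
 (nat_lit 0), (5, 66, 48), [1152, 1334], 0⟩,
  ⟨⟨11, -72, -36, -50, 11, -30, 44, -4, -73⟩, (.cons (nat_lit 1372) (nat_lit 961) (nat_lit 1868) (nat_lit 1)
 (.cons (nat_lit 245) (nat_lit 1320) (nat_lit 1253) (nat_lit 1) .nil)), (nat_lit 29), (nat_lit 0), (nat_lit 0),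
 (nat_lit 0), (69, 22, 63), [1799, 2435], 0⟩,
  ⟨⟨-39, -40, -41, 44, -55, -12, 22, 8, -77⟩, (.cons (nat_lit 1270) (nat_lit 1511) (nat_lit 26) (nat_lit 1)
 (.cons (nat_lit 2084) (nat_lit 860) (nat_lit 426) (nat_lit 1) .nil)), (nat_lit 23), (nat_lit 0), (nat_lit 0),
 (nat_lit 0), (46, 10, 5), [1947, 1133], 0⟩,
  mz,
  ⟨⟨51, 52, -56, -44, 15, -38, 42, -24, -67⟩, (.cons (nat_lit 938) (nat_lit 561) (nat_lit 617) (nat_lit 1)
 (.cons (nat_lit 664) (nat_lit 319) (nat_lit 308) (nat_lit 1) .nil)), (nat_lit 5), (nat_lit 0), (nat_lit 0),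
 (nat_lit 0), (52, 15, 47), [274, 1754], 0⟩,
  ⟨⟨51, 4, -91, 10, 69, 10, 60, -12, -11⟩, (.cons (nat_lit 600) (nat_lit 1669) (nat_lit 860) (nat_lit 1) (.cons
 (nat_lit 1598) (nat_lit 1343) (nat_lit 270) (nat_lit 1) .nil)), (nat_lit 48), (nat_lit 0), (nat_lit 0),
 (nat_lit 0), (45, 13, 7), [1495, 273], 0⟩,
  ⟨⟨51, 4, 40, 10, 69, -20, 60, -12, -49⟩, (.cons (nat_lit 2208) (nat_lit 1144) (nat_lit 1784) (nat_lit 1)
 (.cons (nat_lit 2808) (nat_lit 203) (nat_lit 1322) (nat_lit 1) .nil)), (nat_lit 48), (nat_lit 0), (nat_lit 0),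
 (nat_lit 0), (13, 29, 32), [2123, 610], 0⟩,
  ⟨⟨29, 72, -9, 56, -25, 12, 38, 16, -73⟩, (.cons (nat_lit 1687) (nat_lit 1343) (nat_lit 783) (nat_lit 1)
 (.cons (nat_lit 971) (nat_lit 1321) (nat_lit 632) (nat_lit 1) .nil)), (nat_lit 36), (nat_lit 0), (nat_lit 0),
 (nat_lit 0), (5, 17, 9), [1083, 1131], 0⟩,
  ⟨⟨65, 24, -72, -4, -55, -48, -10, 40, -49⟩, (.cons (nat_lit 608) (nat_lit 334) (nat_lit 1) (nat_lit 658)
 (.cons (nat_lit 766) (nat_lit 924) (nat_lit 2224) (nat_lit 1) .nil)), (nat_lit 3), (nat_lit 0), (nat_lit 0),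
 (nat_lit 0), (39, 26, 65), [1807, 2797], 0⟩,
  ⟨⟨-51, 52, -5, -44, -15, 82, -42, -24, -25⟩, (.cons (nat_lit 272) (nat_lit 33) (nat_lit 532) (nat_lit 1)
 (.cons (nat_lit 541) (nat_lit 977) (nat_lit 1228) (nat_lit 1) .nil)), (nat_lit 4), (nat_lit 0), (nat_lit 0),
 (nat_lit 0), (18, 3, 19), [1169, 666], 0⟩,
  mz,
  ⟨⟨13, -72, 23, 70, 11, -40, 4, -44, -53⟩, (.cons (nat_lit 1577) (nat_lit 546) (nat_lit 2004) (nat_lit 1)
 (.cons (nat_lit 145) (nat_lit 556) (nat_lit 2565) (nat_lit 1) .nil)), (nat_lit 43), (nat_lit 0), (nat_lit 0),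
 (nat_lit 0), (14, 59, 48), [1644, 858], 0⟩,
  ⟨⟨51, -4, -91, -10, 69, -10, 60, 12, -11⟩, (.cons (nat_lit 1944) (nat_lit 1254) (nat_lit 661) (nat_lit 1)
 (.cons (nat_lit 30) (nat_lit 2793) (nat_lit 608) (nat_lit 1) .nil)), (nat_lit 26), (nat_lit 0), (nat_lit 0),
 (nat_lit 0), (21, 46, 8), [1770, 1804], 0⟩,
  ⟨⟨75, -20, -32, 10, 21, -80, 12, -60, -25⟩, (.cons (nat_lit 2208) (nat_lit 951) (nat_lit 1395) (nat_lit 1)
 (.cons (nat_lit 2808) (nat_lit 2706) (nat_lit 710) (nat_lit 1) .nil)), (nat_lit 55), (nat_lit 0), (nat_lit 0),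
 (nat_lit 0), (52, 59, 14), [106, 1682], 0⟩,
  mz,
  ⟨⟨-11, -72, -25, 50, 11, -80, -44, -4, -29⟩, (.cons (nat_lit 1072) (nat_lit 914) (nat_lit 1798) (nat_lit 1)
 (.cons (nat_lit 881) (nat_lit 1276) (nat_lit 1339) (nat_lit 1) .nil)), (nat_lit 29), (nat_lit 0), (nat_lit 0),
 (nat_lit 0), (38, 8, 10), [1235, 626], 0⟩,
  ⟨⟨-75, -20, 43, -10, 21, -70, -12, -60, -13⟩, (.cons (nat_lit 1787) (nat_lit 1844) (nat_lit 1190) (nat_lit 1)
 (.cons (nat_lit 1294) (nat_lit 53) (nat_lit 2180) (nat_lit 1) .nil)), (nat_lit 55), (nat_lit 0), (nat_lit 0),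
 (nat_lit 0), (2, 5, 6), [2174, 926], 0⟩,
  mz,
  mz,
  mz,
  ⟨⟨33, -68, -37, -50, -11, -30, 44, 4, -73⟩, (.cons (nat_lit 1224) (nat_lit 1822) (nat_lit 875) (nat_lit 1)
 (.cons (nat_lit 478) (nat_lit 1262) (nat_lit 1091) (nat_lit 1) .nil)), (nat_lit 53), (nat_lit 0), (nat_lit 0),
 (nat_lit 0), (12, 27, 16), [372, 457], 0⟩,
  mz,
  ⟨⟨-13, 72, 36, 70, 11, -30, -4, 44, -49⟩, (.cons (nat_lit 1466) (nat_lit 2008) (nat_lit 1762) (nat_lit 1)
 (.cons (nat_lit 2595) (nat_lit 2267) (nat_lit 445) (nat_lit 1) .nil)), (nat_lit 62), (nat_lit 0), (nat_lit 0),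
 (nat_lit 0), (35, 30, 49), [718, 2486], 0⟩,
  ⟨⟨75, -16, -52, 4, 55, -52, 10, -40, -59⟩, (.cons (nat_lit 2208) (nat_lit 1084) (nat_lit 235) (nat_lit 1)
 (.cons (nat_lit 2808) (nat_lit 387) (nat_lit 179) (nat_lit 1) .nil)), (nat_lit 65), (nat_lit 0), (nat_lit 0),
 (nat_lit 0), (51, 51, 21), [1528, 2704], 0⟩,
  mz,
  ⟨⟨-27, -68, 43, 64, -15, -2, 6, -48, -49⟩, (.cons (nat_lit 1541) (nat_lit 1053) (nat_lit 877) (nat_lit 1)
 (.cons (nat_lit 1018) (nat_lit 1209) (nat_lit 1935) (nat_lit 1) .nil)), (nat_lit 15), (nat_lit 0), (nat_lit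
 0), (nat_lit 0), (60, 55, 34), [652, 242], 0⟩,
  ⟨⟨13, 72, 23, 70, -11, -40, 4, 44, -53⟩, (.cons (nat_lit 237) (nat_lit 4) (nat_lit 2141) (nat_lit 1) (.cons
 (nat_lit 487) (nat_lit 2081) (nat_lit 490) (nat_lit 1) .nil)), (nat_lit 43), (nat_lit 0), (nat_lit 0),
 (nat_lit 0), (20, 64, 28), [795, 2045], 0⟩,
  ⟨⟨-3, -40, -73, -64, -25, 52, -26, 32, -41⟩, (.cons (nat_lit 733) (nat_lit 1179) (nat_lit 821) (nat_lit 1)
 (.cons (nat_lit 2046) (nat_lit 1642) (nat_lit 1024) (nat_lit 1) .nil)), (nat_lit 7), (nat_lit 0), (nat_lit 0),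
 (nat_lit 0), (56, 35, 12), [346, 1730], 0⟩,
  ⟨⟨17, 24, 72, 36, 55, -48, 54, -24, -1⟩, (.cons (nat_lit 2208) (nat_lit 1122) (nat_lit 1556) (nat_lit 1)
 (.cons (nat_lit 2808) (nat_lit 2143) (nat_lit 2698) (nat_lit 1) .nil)), (nat_lit 70), (nat_lit 0), (nat_lit
 0), (nat_lit 0), (30, 51, 41), [526, 1605], 0⟩]

/-- Moves. -/
noncomputable def t4_12 : List Mv := [
  mz,
  ⟨⟨-75, 20, 43, 10, 21, 70, -12, 60, -13⟩, (.cons (nat_lit 1317) (nat_lit 630) (nat_lit 590) (nat_lit 1)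
 (.cons (nat_lit 2460) (nat_lit 322) (nat_lit 2544) (nat_lit 1) .nil)), (nat_lit 34), (nat_lit 0), (nat_lit 0),
 (nat_lit 0), (51, 50, 11), [952, 2728], 0⟩,
  mz,
  ⟨⟨-75, -16, 23, -4, 55, -48, -10, -40, -49⟩, (.cons (nat_lit 565) (nat_lit 661) (nat_lit 2162) (nat_lit 1)
 (.cons (nat_lit 375) (nat_lit 631) (nat_lit 1560) (nat_lit 1) .nil)), (nat_lit 65), (nat_lit 0), (nat_lit 0),
 (nat_lit 0), (1, 1, 38), [1528, 2513], 0⟩,
  ⟨⟨27, 68, 16, 64, -15, -62, -6, 48, -43⟩, (.cons (nat_lit 973) (nat_lit 1402) (nat_lit 1576) (nat_lit 1)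
 (.cons (nat_lit 1177) (nat_lit 1939) (nat_lit 160) (nat_lit 1) .nil)), (nat_lit 46), (nat_lit 0), (nat_lit 0),
 (nat_lit 0), (60, 16, 34), [1174, 435], 0⟩,
  ⟨⟨27, -68, 16, -64, -15, 62, -6, -48, -43⟩, (.cons (nat_lit 1232) (nat_lit 1711) (nat_lit 1567) (nat_lit 1)
 (.cons (nat_lit 2773) (nat_lit 1843) (nat_lit 39) (nat_lit 1) .nil)), (nat_lit 15), (nat_lit 0), (nat_lit 0),
 (nat_lit 0), (7, 36, 30), [1169, 939], 0⟩,
  mz,
  ⟨⟨-29, 72, 20, 56, 25, -68, -38, 16, -35⟩, (.cons (nat_lit 756) (nat_lit 294) (nat_lit 693) (nat_lit 1)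
 (.cons (nat_lit 2107) (nat_lit 966) (nat_lit 1167) (nat_lit 1) .nil)), (nat_lit 8), (nat_lit 0), (nat_lit 0),
 (nat_lit 0), (33, 44, 31), [1719, 504], 0⟩,
  ⟨⟨3, 40, -76, 64, 25, -12, 26, -32, -67⟩, (.cons (nat_lit 1610) (nat_lit 1595) (nat_lit 2024) (nat_lit 1)
 (.cons (nat_lit 4) (nat_lit 1754) (nat_lit 950) (nat_lit 1) .nil)), (nat_lit 7), (nat_lit 0), (nat_lit 0),
 (nat_lit 0), (14, 62, 3), [1820, 2446], 0⟩,
  mz,
  mz,
  ⟨⟨-27, 68, 43, 64, 15, -2, 6, 48, -49⟩, (.cons (nat_lit 1835) (nat_lit 1722) (nat_lit 1185) (nat_lit 1)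
 (.cons (nat_lit 2357) (nat_lit 2433) (nat_lit 974) (nat_lit 1) .nil)), (nat_lit 15), (nat_lit 0), (nat_lit 0),
 (nat_lit 0), (42, 3, 38), [1167, 607], 0⟩,
  ⟨⟨9, 76, -20, 44, -15, -82, -42, 24, -25⟩, (.cons (nat_lit 1302) (nat_lit 1003) (nat_lit 857) (nat_lit 1)
 (.cons (nat_lit 2237) (nat_lit 364) (nat_lit 1472) (nat_lit 1) .nil)), (nat_lit 67), (nat_lit 0), (nat_lit 0),
 (nat_lit 0), (31, 49, 21), [375, 1442], 0⟩,
  mz,
  mz,
  ⟨⟨-9, 76, -11, -44, -15, -38, 42, 24, -67⟩, (.cons (nat_lit 625) (nat_lit 157) (nat_lit 1916) (nat_lit 1)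
 (.cons (nat_lit 665) (nat_lit 2198) (nat_lit 2556) (nat_lit 1) .nil)), (nat_lit 67), (nat_lit 0), (nat_lit 0),
 (nat_lit 0), (25, 67, 49), [845, 1168], 0⟩,
  ⟨⟨17, 24, -89, 36, 55, 12, 54, -24, -53⟩, (.cons (nat_lit 1547) (nat_lit 2049) (nat_lit 1818) (nat_lit 1)
 (.cons (nat_lit 2030) (nat_lit 2682) (nat_lit 1275) (nat_lit 1) .nil)), (nat_lit 70), (nat_lit 0), (nat_lit
 0), (nat_lit 0), (7, 19, 64), [2135, 309], 0⟩,
  mz,
  ⟨⟨9, 56, -64, -56, -25, -12, 38, -16, -73⟩, (.cons (nat_lit 1711) (nat_lit 2037) (nat_lit 18) (nat_lit 1)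
 (.cons (nat_lit 554) (nat_lit 2634) (nat_lit 1278) (nat_lit 1) .nil)), (nat_lit 39), (nat_lit 0), (nat_lit 0),
 (nat_lit 0), (56, 46, 55), [1098, 119], 0⟩,
  ⟨⟨39, 40, -80, 44, -55, -32, -22, -8, -55⟩, (.cons (nat_lit 2208) (nat_lit 434) (nat_lit 227) (nat_lit 1)
 (.cons (nat_lit 2808) (nat_lit 2504) (nat_lit 2021) (nat_lit 1) .nil)), (nat_lit 19), (nat_lit 0), (nat_lit
 0), (nat_lit 0), (28, 68, 37), [1054, 464], 0⟩,
  mz,
  mz,
  ⟨⟨37, 48, -73, -36, 55, 48, 54, 24, -1⟩, (.cons (nat_lit 95) (nat_lit 1009) (nat_lit 2001) (nat_lit 1) (.cons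
 (nat_lit 1436) (nat_lit 458) (nat_lit 1629) (nat_lit 1) .nil)), (nat_lit 16), (nat_lit 0), (nat_lit 0),
 (nat_lit 0), (15, 66, 43), [1325, 1132], 0⟩,
  ⟨⟨39, -40, -80, 44, 55, -32, -22, 8, -55⟩, (.cons (nat_lit 502) (nat_lit 899) (nat_lit 1007) (nat_lit 1)
 (.cons (nat_lit 434) (nat_lit 1134) (nat_lit 1029) (nat_lit 1) .nil)), (nat_lit 19), (nat_lit 0), (nat_lit 0),
 (nat_lit 0), (1, 43, 14), [232, 345], 0⟩,
  ⟨⟨-39, 40, -41, 44, 55, -12, 22, -8, -77⟩, (.cons (nat_lit 1385) (nat_lit 85) (nat_lit 876) (nat_lit 1)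
 (.cons (nat_lit 2771) (nat_lit 1278) (nat_lit 408) (nat_lit 1) .nil)), (nat_lit 23), (nat_lit 0), (nat_lit 0),
 (nat_lit 0), (2, 56, 28), [616, 1627], 0⟩,
  mz,
  ⟨⟨51, -4, 40, 10, -69, -20, 60, 12, -49⟩, (.cons (nat_lit 622) (nat_lit 682) (nat_lit 503) (nat_lit 1) (.cons
 (nat_lit 2455) (nat_lit 2010) (nat_lit 400) (nat_lit 1) .nil)), (nat_lit 48), (nat_lit 0), (nat_lit 0),
 (nat_lit 0), (60, 41, 33), [150, 645], 0⟩,
  mz,
  mz,
  ⟨⟨9, 28, -85, 70, -11, -30, -4, -44, -49⟩, (.cons (nat_lit 165) (nat_lit 1287) (nat_lit 2106) (nat_lit 1)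
 (.cons (nat_lit 2348) (nat_lit 1085) (nat_lit 2735) (nat_lit 1) .nil)), (nat_lit 31), (nat_lit 0), (nat_lit
 0), (nat_lit 0), (40, 35, 69), [2161, 2106], 0⟩,
  mz,
  ⟨⟨-33, -68, -4, 50, -11, -80, -44, 4, -29⟩, (.cons (nat_lit 1361) (nat_lit 647) (nat_lit 1616) (nat_lit 1)
 (.cons (nat_lit 2745) (nat_lit 2602) (nat_lit 1103) (nat_lit 1) .nil)), (nat_lit 53), (nat_lit 0), (nat_lit
 0), (nat_lit 0), (61, 13, 34), [1312, 1683], 0⟩,
  mz,
  ⟨⟨-9, 56, -55, -56, 25, 68, -38, -16, -35⟩, (.cons (nat_lit 881) (nat_lit 1442) (nat_lit 1682) (nat_lit 1)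
 (.cons (nat_lit 1604) (nat_lit 124) (nat_lit 331) (nat_lit 1) .nil)), (nat_lit 69), (nat_lit 0), (nat_lit 0),
 (nat_lit 0), (50, 35, 6), [1021, 2476], 0⟩,
  ⟨⟨75, 20, -32, -10, 21, 80, 12, 60, -25⟩, (.cons (nat_lit 2208) (nat_lit 1946) (nat_lit 585) (nat_lit 1)
 (.cons (nat_lit 2808) (nat_lit 441) (nat_lit 2377) (nat_lit 1) .nil)), (nat_lit 34), (nat_lit 0), (nat_lit 0),
 (nat_lit 0), (30, 67, 19), [2080, 1863], 0⟩,
  mz,
  ⟨⟨23, 72, 9, 64, -25, -12, 26, 32, -67⟩, (.cons (nat_lit 639) (nat_lit 1124) (nat_lit 1106) (nat_lit 1)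
 (.cons (nat_lit 2728) (nat_lit 259) (nat_lit 630) (nat_lit 1) .nil)), (nat_lit 49), (nat_lit 0), (nat_lit 0),
 (nat_lit 0), (66, 54, 53), [769, 1922], 0⟩,
  mz,
  ⟨⟨17, -24, -89, -36, 55, -12, 54, 24, -53⟩, (.cons (nat_lit 1210) (nat_lit 933) (nat_lit 39) (nat_lit 1)
 (.cons (nat_lit 1973) (nat_lit 683) (nat_lit 1394) (nat_lit 1) .nil)), (nat_lit 22), (nat_lit 0), (nat_lit 0),
 (nat_lit 0), (5, 27, 66), [812, 1785], 0⟩,
  ⟨⟨-23, -72, 32, 64, -25, -52, -26, -32, -41⟩, (.cons (nat_lit 1415) (nat_lit 390) (nat_lit 1038) (nat_lit 1)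
 (.cons (nat_lit 360) (nat_lit 1202) (nat_lit 596) (nat_lit 1) .nil)), (nat_lit 18), (nat_lit 0), (nat_lit 0),
 (nat_lit 0), (21, 28, 33), [2070, 990], 0⟩,
  mz,
  mz,
  ⟨⟨75, 16, -52, 4, -55, -52, 10, 40, -59⟩, (.cons (nat_lit 238) (nat_lit 1885) (nat_lit 1) (nat_lit 188)
 (.cons (nat_lit 2250) (nat_lit 809) (nat_lit 822) (nat_lit 1) .nil)), (nat_lit 65), (nat_lit 0), (nat_lit 0),
 (nat_lit 0), (5, 5, 48), [1196, 1260], 0⟩,
  ⟨⟨11, -72, -36, -50, 11, -30, 44, -4, -73⟩, (.cons (nat_lit 1372) (nat_lit 961) (nat_lit 1868) (nat_lit 1)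
 (.cons (nat_lit 245) (nat_lit 1320) (nat_lit 1253) (nat_lit 1) .nil)), (nat_lit 29), (nat_lit 0), (nat_lit 0),
 (nat_lit 0), (69, 22, 63), [1799, 2435], 0⟩,
  ⟨⟨-39, -40, -41, 44, -55, -12, 22, 8, -77⟩, (.cons (nat_lit 1270) (nat_lit 1511) (nat_lit 26) (nat_lit 1)
 (.cons (nat_lit 2084) (nat_lit 860) (nat_lit 426) (nat_lit 1) .nil)), (nat_lit 23), (nat_lit 0), (nat_lit 0),
 (nat_lit 0), (46, 10, 5), [1947, 1133], 0⟩,
  mz,
  ⟨⟨51, 52, -56, -44, 15, -38, 42, -24, -67⟩, (.cons (nat_lit 938) (nat_lit 561) (nat_lit 617) (nat_lit 1)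
 (.cons (nat_lit 664) (nat_lit 319) (nat_lit 308) (nat_lit 1) .nil)), (nat_lit 5), (nat_lit 0), (nat_lit 0),
 (nat_lit 0), (52, 15, 47), [274, 1754], 0⟩,
  ⟨⟨9, -16, 80, -10, -69, -10, 60, -12, -11⟩, (.cons (nat_lit 2208) (nat_lit 1937) (nat_lit 1247) (nat_lit 1)
 (.cons (nat_lit 2808) (nat_lit 1664) (nat_lit 1296) (nat_lit 1) .nil)), (nat_lit 47), (nat_lit 0), (nat_lit
 0), (nat_lit 0), (33, 58, 7), [1684, 1086], 0⟩,
  ⟨⟨51, 4, 40, 10, 69, -20, 60, -12, -49⟩, (.cons (nat_lit 2208) (nat_lit 1144) (nat_lit 1784) (nat_lit 1)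
 (.cons (nat_lit 2808) (nat_lit 203) (nat_lit 1322) (nat_lit 1) .nil)), (nat_lit 48), (nat_lit 0), (nat_lit 0),
 (nat_lit 0), (13, 29, 32), [2123, 610], 0⟩,
  ⟨⟨9, -56, -64, -56, 25, -12, 38, 16, -73⟩, (.cons (nat_lit 1602) (nat_lit 2150) (nat_lit 1657) (nat_lit 1)
 (.cons (nat_lit 1650) (nat_lit 1628) (nat_lit 1122) (nat_lit 1) .nil)), (nat_lit 39), (nat_lit 0), (nat_lit
 0), (nat_lit 0), (4, 54, 9), [1578, 966], 0⟩,
  ⟨⟨65, 24, -72, -4, -55, -48, -10, 40, -49⟩, (.cons (nat_lit 608) (nat_lit 334) (nat_lit 1) (nat_lit 658)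
 (.cons (nat_lit 766) (nat_lit 924) (nat_lit 2224) (nat_lit 1) .nil)), (nat_lit 3), (nat_lit 0), (nat_lit 0),
 (nat_lit 0), (39, 26, 65), [1807, 2797], 0⟩,
  ⟨⟨9, -76, -20, -44, -15, 82, -42, -24, -25⟩, (.cons (nat_lit 1467) (nat_lit 1894) (nat_lit 579) (nat_lit 1)
 (.cons (nat_lit 388) (nat_lit 2377) (nat_lit 1993) (nat_lit 1) .nil)), (nat_lit 11), (nat_lit 0), (nat_lit 0),
 (nat_lit 0), (1, 3, 19), [511, 2105], 0⟩,
  mz,
  ⟨⟨13, -72, 23, 70, 11, -40, 4, -44, -53⟩, (.cons (nat_lit 1577) (nat_lit 546) (nat_lit 2004) (nat_lit 1)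
 (.cons (nat_lit 145) (nat_lit 556) (nat_lit 2565) (nat_lit 1) .nil)), (nat_lit 43), (nat_lit 0), (nat_lit 0),
 (nat_lit 0), (14, 59, 48), [1644, 858], 0⟩,
  ⟨⟨51, -4, -91, 10, -69, 10, 60, 12, -11⟩, (.cons (nat_lit 1646) (nat_lit 1003) (nat_lit 96) (nat_lit 1)
 (.cons (nat_lit 130) (nat_lit 1724) (nat_lit 895) (nat_lit 1) .nil)), (nat_lit 48), (nat_lit 0), (nat_lit 0),
 (nat_lit 0), (21, 25, 8), [2013, 2586], 0⟩,
  ⟨⟨-63, -40, 7, -10, -21, 80, 12, -60, -25⟩, (.cons (nat_lit 1134) (nat_lit 2077) (nat_lit 1333) (nat_lit 1)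
 (.cons (nat_lit 1427) (nat_lit 603) (nat_lit 2261) (nat_lit 1) .nil)), (nat_lit 1), (nat_lit 0), (nat_lit 0),
 (nat_lit 0), (33, 12, 14), [238, 1860], 0⟩,
  mz,
  ⟨⟨-11, -72, -25, 50, 11, -80, -44, -4, -29⟩, (.cons (nat_lit 1072) (nat_lit 914) (nat_lit 1798) (nat_lit 1)
 (.cons (nat_lit 881) (nat_lit 1276) (nat_lit 1339) (nat_lit 1) .nil)), (nat_lit 29), (nat_lit 0), (nat_lit 0),
 (nat_lit 0), (38, 8, 10), [1235, 626], 0⟩,
  ⟨⟨-75, -20, 43, -10, 21, -70, -12, -60, -13⟩, (.cons (nat_lit 1787) (nat_lit 1844) (nat_lit 1190) (nat_lit 1)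
 (.cons (nat_lit 1294) (nat_lit 53) (nat_lit 2180) (nat_lit 1) .nil)), (nat_lit 55), (nat_lit 0), (nat_lit 0),
 (nat_lit 0), (2, 5, 6), [2174, 926], 0⟩,
  mz,
  mz,
  mz,
  ⟨⟨33, -68, -37, -50, -11, -30, 44, 4, -73⟩, (.cons (nat_lit 1224) (nat_lit 1822) (nat_lit 875) (nat_lit 1)
 (.cons (nat_lit 478) (nat_lit 1262) (nat_lit 1091) (nat_lit 1) .nil)), (nat_lit 53), (nat_lit 0), (nat_lit 0),
 (nat_lit 0), (12, 27, 16), [372, 457], 0⟩,
  mz,
  ⟨⟨9, -28, -85, 70, 11, -30, -4, 44, -49⟩, (.cons (nat_lit 1730) (nat_lit 1470) (nat_lit 23) (nat_lit 1)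
 (.cons (nat_lit 1094) (nat_lit 2242) (nat_lit 1580) (nat_lit 1) .nil)), (nat_lit 31), (nat_lit 0), (nat_lit
 0), (nat_lit 0), (14, 30, 49), [201, 1914], 0⟩,
  ⟨⟨-65, -24, -7, 4, 55, -52, 10, -40, -59⟩, (.cons (nat_lit 1646) (nat_lit 1031) (nat_lit 47) (nat_lit 1)
 (.cons (nat_lit 1206) (nat_lit 253) (nat_lit 670) (nat_lit 1) .nil)), (nat_lit 3), (nat_lit 0), (nat_lit 0),
 (nat_lit 0), (41, 51, 21), [964, 2711], 0⟩,
  mz,
  ⟨⟨-27, -68, 43, 64, -15, -2, 6, -48, -49⟩, (.cons (nat_lit 1541) (nat_lit 1053) (nat_lit 877) (nat_lit 1)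
 (.cons (nat_lit 1018) (nat_lit 1209) (nat_lit 1935) (nat_lit 1) .nil)), (nat_lit 15), (nat_lit 0), (nat_lit
 0), (nat_lit 0), (60, 55, 34), [652, 242], 0⟩,
  ⟨⟨13, 72, 23, 70, -11, -40, 4, 44, -53⟩, (.cons (nat_lit 237) (nat_lit 4) (nat_lit 2141) (nat_lit 1) (.cons
 (nat_lit 487) (nat_lit 2081) (nat_lit 490) (nat_lit 1) .nil)), (nat_lit 43), (nat_lit 0), (nat_lit 0),
 (nat_lit 0), (20, 64, 28), [795, 2045], 0⟩,
  ⟨⟨-3, -40, -73, 64, 25, -52, -26, 32, -41⟩, (.cons (nat_lit 1359) (nat_lit 1914) (nat_lit 477) (nat_lit 1)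
 (.cons (nat_lit 2457) (nat_lit 1513) (nat_lit 1343) (nat_lit 1) .nil)), (nat_lit 33), (nat_lit 0), (nat_lit
 0), (nat_lit 0), (56, 36, 12), [1249, 1369], 0⟩,
  ⟨⟨17, 24, 72, 36, 55, -48, 54, -24, -1⟩, (.cons (nat_lit 2208) (nat_lit 1122) (nat_lit 1556) (nat_lit 1)
 (.cons (nat_lit 2808) (nat_lit 2143) (nat_lit 2698) (nat_lit 1) .nil)), (nat_lit 70), (nat_lit 0), (nat_lit
 0), (nat_lit 0), (30, 51, 41), [526, 1605], 0⟩]

/-- Moves. -/
noncomputable def t4_15 : List Mv := [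
  mz,
  ⟨⟨-75, 20, 43, -10, -21, -70, -12, 60, -13⟩, (.cons (nat_lit 337) (nat_lit 304) (nat_lit 1415) (nat_lit 1)
 (.cons (nat_lit 437) (nat_lit 535) (nat_lit 711) (nat_lit 1) .nil)), (nat_lit 55), (nat_lit 0), (nat_lit 0),
 (nat_lit 0), (51, 21, 11), [98, 1481], 0⟩,
  mz,
  ⟨⟨-75, -16, 23, -4, 55, -48, -10, -40, -49⟩, (.cons (nat_lit 565) (nat_lit 661) (nat_lit 2162) (nat_lit 1)
 (.cons (nat_lit 375) (nat_lit 631) (nat_lit 1560) (nat_lit 1) .nil)), (nat_lit 65), (nat_lit 0), (nat_lit 0),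
 (nat_lit 0), (1, 1, 38), [1528, 2513], 0⟩,
  ⟨⟨27, 68, 16, 64, -15, -62, -6, 48, -43⟩, (.cons (nat_lit 973) (nat_lit 1402) (nat_lit 1576) (nat_lit 1)
 (.cons (nat_lit 1177) (nat_lit 1939) (nat_lit 160) (nat_lit 1) .nil)), (nat_lit 46), (nat_lit 0), (nat_lit 0),
 (nat_lit 0), (60, 16, 34), [1174, 435], 0⟩,
  ⟨⟨27, -68, 16, 64, 15, -62, -6, -48, -43⟩, (.cons (nat_lit 869) (nat_lit 680) (nat_lit 614) (nat_lit 1)
 (.cons (nat_lit 1891) (nat_lit 706) (nat_lit 1844) (nat_lit 1) .nil)), (nat_lit 46), (nat_lit 0), (nat_lit 0),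
 (nat_lit 0), (7, 35, 30), [1502, 2770], 0⟩,
  mz,
  ⟨⟨-29, 72, 20, 56, 25, -68, -38, 16, -35⟩, (.cons (nat_lit 756) (nat_lit 294) (nat_lit 693) (nat_lit 1)
 (.cons (nat_lit 2107) (nat_lit 966) (nat_lit 1167) (nat_lit 1) .nil)), (nat_lit 8), (nat_lit 0), (nat_lit 0),
 (nat_lit 0), (33, 44, 31), [1719, 504], 0⟩,
  ⟨⟨23, -72, 9, -64, -25, 12, 26, -32, -67⟩, (.cons (nat_lit 841) (nat_lit 907) (nat_lit 1500) (nat_lit 1)
 (.cons (nat_lit 1542) (nat_lit 1496) (nat_lit 2195) (nat_lit 1) .nil)), (nat_lit 18), (nat_lit 0), (nat_lit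
 0), (nat_lit 0), (60, 9, 3), [1929, 2], 0⟩,
  mz,
  mz,
  ⟨⟨33, -20, -92, 64, 15, -2, 6, 48, -49⟩, (.cons (nat_lit 421) (nat_lit 17) (nat_lit 386) (nat_lit 1) (.cons
 (nat_lit 2148) (nat_lit 653) (nat_lit 2718) (nat_lit 1) .nil)), (nat_lit 12), (nat_lit 0), (nat_lit 0),
 (nat_lit 0), (67, 3, 38), [838, 2072], 0⟩,
  ⟨⟨9, 76, -20, 44, -15, -82, -42, 24, -25⟩, (.cons (nat_lit 1302) (nat_lit 1003) (nat_lit 857) (nat_lit 1)
 (.cons (nat_lit 2237) (nat_lit 364) (nat_lit 1472) (nat_lit 1) .nil)), (nat_lit 67), (nat_lit 0), (nat_lit 0),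
 (nat_lit 0), (31, 49, 21), [375, 1442], 0⟩,
  mz,
  mz,
  ⟨⟨51, -52, -56, -44, -15, -38, 42, 24, -67⟩, (.cons (nat_lit 1490) (nat_lit 2005) (nat_lit 83) (nat_lit 1)
 (.cons (nat_lit 78) (nat_lit 2314) (nat_lit 2576) (nat_lit 1) .nil)), (nat_lit 5), (nat_lit 0), (nat_lit 0),
 (nat_lit 0), (24, 67, 49), [234, 2179], 0⟩,
  ⟨⟨17, 24, -89, -36, -55, -12, 54, -24, -53⟩, (.cons (nat_lit 2116) (nat_lit 1059) (nat_lit 537) (nat_lit 1)
 (.cons (nat_lit 1516) (nat_lit 2304) (nat_lit 2356) (nat_lit 1) .nil)), (nat_lit 22), (nat_lit 0), (nat_lit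
 0), (nat_lit 0), (7, 52, 64), [367, 2592], 0⟩,
  mz,
  ⟨⟨9, 56, -64, -56, -25, -12, 38, -16, -73⟩, (.cons (nat_lit 1711) (nat_lit 2037) (nat_lit 18) (nat_lit 1)
 (.cons (nat_lit 554) (nat_lit 2634) (nat_lit 1278) (nat_lit 1) .nil)), (nat_lit 39), (nat_lit 0), (nat_lit 0),
 (nat_lit 0), (56, 46, 55), [1098, 119], 0⟩,
  ⟨⟨-61, -48, 25, 44, -55, -32, -22, -8, -55⟩, (.cons (nat_lit 1176) (nat_lit 647) (nat_lit 1120) (nat_lit 1)
 (.cons (nat_lit 1509) (nat_lit 2099) (nat_lit 1065) (nat_lit 1) .nil)), (nat_lit 24), (nat_lit 0), (nat_lit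
 0), (nat_lit 0), (9, 68, 37), [67, 1370], 0⟩,
  mz,
  mz,
  ⟨⟨37, 48, -73, 36, -55, -48, 54, 24, -1⟩, (.cons (nat_lit 513) (nat_lit 724) (nat_lit 2083) (nat_lit 1)
 (.cons (nat_lit 84) (nat_lit 1617) (nat_lit 882) (nat_lit 1) .nil)), (nat_lit 38), (nat_lit 0), (nat_lit 0),
 (nat_lit 0), (15, 5, 43), [1014, 596], 0⟩,
  ⟨⟨-61, 48, 25, -44, -55, 32, -22, 8, -55⟩, (.cons (nat_lit 941) (nat_lit 745) (nat_lit 2042) (nat_lit 1)
 (.cons (nat_lit 926) (nat_lit 1396) (nat_lit 1593) (nat_lit 1) .nil)), (nat_lit 44), (nat_lit 0), (nat_lit 0),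
 (nat_lit 0), (13, 28, 14), [1994, 2377], 0⟩,
  ⟨⟨-39, 40, -41, 44, 55, -12, 22, -8, -77⟩, (.cons (nat_lit 1385) (nat_lit 85) (nat_lit 876) (nat_lit 1)
 (.cons (nat_lit 2771) (nat_lit 1278) (nat_lit 408) (nat_lit 1) .nil)), (nat_lit 23), (nat_lit 0), (nat_lit 0),
 (nat_lit 0), (2, 56, 28), [616, 1627], 0⟩,
  mz,
  ⟨⟨9, 16, -89, 10, -69, -20, 60, 12, -49⟩, (.cons (nat_lit 1117) (nat_lit 1997) (nat_lit 1678) (nat_lit 1)
 (.cons (nat_lit 1030) (nat_lit 2435) (nat_lit 167) (nat_lit 1) .nil)), (nat_lit 54), (nat_lit 0), (nat_lit 0),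
 (nat_lit 0), (44, 41, 33), [667, 797], 0⟩,
  mz,
  mz,
  ⟨⟨-13, -72, 36, 70, -11, -30, -4, -44, -49⟩, (.cons (nat_lit 2138) (nat_lit 405) (nat_lit 1730) (nat_lit 1)
 (.cons (nat_lit 2807) (nat_lit 35) (nat_lit 1444) (nat_lit 1) .nil)), (nat_lit 62), (nat_lit 0), (nat_lit 0),
 (nat_lit 0), (29, 35, 69), [93, 1389], 0⟩,
  mz,
  ⟨⟨-11, 72, -25, 50, -11, -80, -44, 4, -29⟩, (.cons (nat_lit 1553) (nat_lit 434) (nat_lit 911) (nat_lit 1)
 (.cons (nat_lit 1176) (nat_lit 2135) (nat_lit 2754) (nat_lit 1) .nil)), (nat_lit 29), (nat_lit 0), (nat_lit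
 0), (nat_lit 0), (44, 13, 34), [231, 2098], 0⟩,
  mz,
  ⟨⟨-9, 56, -55, 56, -25, -68, -38, -16, -35⟩, (.cons (nat_lit 169) (nat_lit 909) (nat_lit 264) (nat_lit 1)
 (.cons (nat_lit 714) (nat_lit 1685) (nat_lit 1977) (nat_lit 1) .nil)), (nat_lit 39), (nat_lit 0), (nat_lit 0),
 (nat_lit 0), (50, 36, 6), [675, 2346], 0⟩,
  ⟨⟨-63, 40, 7, 10, -21, -80, 12, 60, -25⟩, (.cons (nat_lit 1512) (nat_lit 1717) (nat_lit 2016) (nat_lit 1)
 (.cons (nat_lit 1939) (nat_lit 1553) (nat_lit 876) (nat_lit 1) .nil)), (nat_lit 58), (nat_lit 0), (nat_lit 0),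
 (nat_lit 0), (60, 4, 19), [897, 86], 0⟩,
  mz,
  ⟨⟨3, -40, -76, 64, -25, -12, 26, 32, -67⟩, (.cons (nat_lit 2134) (nat_lit 98) (nat_lit 871) (nat_lit 1)
 (.cons (nat_lit 1720) (nat_lit 700) (nat_lit 1297) (nat_lit 1) .nil)), (nat_lit 7), (nat_lit 0), (nat_lit 0),
 (nat_lit 0), (58, 54, 53), [2038, 1444], 0⟩,
  mz,
  ⟨⟨17, -24, -89, -36, 55, -12, 54, 24, -53⟩, (.cons (nat_lit 1210) (nat_lit 933) (nat_lit 39) (nat_lit 1)
 (.cons (nat_lit 1973) (nat_lit 683) (nat_lit 1394) (nat_lit 1) .nil)), (nat_lit 22), (nat_lit 0), (nat_lit 0),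
 (nat_lit 0), (5, 27, 66), [812, 1785], 0⟩,
  ⟨⟨-23, -72, 32, 64, -25, -52, -26, -32, -41⟩, (.cons (nat_lit 1415) (nat_lit 390) (nat_lit 1038) (nat_lit 1)
 (.cons (nat_lit 360) (nat_lit 1202) (nat_lit 596) (nat_lit 1) .nil)), (nat_lit 18), (nat_lit 0), (nat_lit 0),
 (nat_lit 0), (21, 28, 33), [2070, 990], 0⟩,
  mz,
  mz,
  ⟨⟨75, 16, -52, 4, -55, -52, 10, 40, -59⟩, (.cons (nat_lit 238) (nat_lit 1885) (nat_lit 1) (nat_lit 188)
 (.cons (nat_lit 2250) (nat_lit 809) (nat_lit 822) (nat_lit 1) .nil)), (nat_lit 65), (nat_lit 0), (nat_lit 0),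
 (nat_lit 0), (5, 5, 48), [1196, 1260], 0⟩,
  ⟨⟨33, 68, -37, 50, -11, 30, 44, -4, -73⟩, (.cons (nat_lit 494) (nat_lit 233) (nat_lit 457) (nat_lit 1) (.cons
 (nat_lit 1765) (nat_lit 1207) (nat_lit 322) (nat_lit 1) .nil)), (nat_lit 68), (nat_lit 0), (nat_lit 0),
 (nat_lit 0), (65, 49, 63), [986, 92], 0⟩,
  ⟨⟨-39, -40, -41, -44, 55, 12, 22, 8, -77⟩, (.cons (nat_lit 1848) (nat_lit 1228) (nat_lit 497) (nat_lit 1)
 (.cons (nat_lit 1812) (nat_lit 1393) (nat_lit 1921) (nat_lit 1) .nil)), (nat_lit 19), (nat_lit 0), (nat_lit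
 0), (nat_lit 0), (46, 61, 5), [185, 1917], 0⟩,
  mz,
  ⟨⟨-9, -76, -11, 44, -15, 38, 42, -24, -67⟩, (.cons (nat_lit 554) (nat_lit 1236) (nat_lit 2006) (nat_lit 1)
 (.cons (nat_lit 2262) (nat_lit 590) (nat_lit 505) (nat_lit 1) .nil)), (nat_lit 11), (nat_lit 0), (nat_lit 0),
 (nat_lit 0), (66, 56, 47), [1545, 2191], 0⟩,
  ⟨⟨9, -16, 80, -10, -69, -10, 60, -12, -11⟩, (.cons (nat_lit 2208) (nat_lit 1937) (nat_lit 1247) (nat_lit 1)
 (.cons (nat_lit 2808) (nat_lit 1664) (nat_lit 1296) (nat_lit 1) .nil)), (nat_lit 47), (nat_lit 0), (nat_lit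
 0), (nat_lit 0), (33, 58, 7), [1684, 1086], 0⟩,
  ⟨⟨51, 4, 40, 10, 69, -20, 60, -12, -49⟩, (.cons (nat_lit 2208) (nat_lit 1144) (nat_lit 1784) (nat_lit 1)
 (.cons (nat_lit 2808) (nat_lit 203) (nat_lit 1322) (nat_lit 1) .nil)), (nat_lit 48), (nat_lit 0), (nat_lit 0),
 (nat_lit 0), (13, 29, 32), [2123, 610], 0⟩,
  ⟨⟨29, 72, -9, 56, -25, 12, 38, 16, -73⟩, (.cons (nat_lit 1687) (nat_lit 1343) (nat_lit 783) (nat_lit 1)
 (.cons (nat_lit 971) (nat_lit 1321) (nat_lit 632) (nat_lit 1) .nil)), (nat_lit 36), (nat_lit 0), (nat_lit 0),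
 (nat_lit 0), (5, 17, 9), [1083, 1131], 0⟩,
  ⟨⟨65, 24, -72, -4, -55, -48, -10, 40, -49⟩, (.cons (nat_lit 608) (nat_lit 334) (nat_lit 1) (nat_lit 658)
 (.cons (nat_lit 766) (nat_lit 924) (nat_lit 2224) (nat_lit 1) .nil)), (nat_lit 3), (nat_lit 0), (nat_lit 0),
 (nat_lit 0), (39, 26, 65), [1807, 2797], 0⟩,
  ⟨⟨9, -76, -20, 44, 15, -82, -42, -24, -25⟩, (.cons (nat_lit 703) (nat_lit 1413) (nat_lit 746) (nat_lit 1)
 (.cons (nat_lit 1413) (nat_lit 2807) (nat_lit 2503) (nat_lit 1) .nil)), (nat_lit 67), (nat_lit 0), (nat_lit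
 0), (nat_lit 0), (1, 68, 19), [932, 2118], 0⟩,
  mz,
  ⟨⟨-9, 28, -76, -70, -11, 40, 4, -44, -53⟩, (.cons (nat_lit 211) (nat_lit 441) (nat_lit 1419) (nat_lit 1)
 (.cons (nat_lit 395) (nat_lit 304) (nat_lit 2519) (nat_lit 1) .nil)), (nat_lit 31), (nat_lit 0), (nat_lit 0),
 (nat_lit 0), (34, 12, 48), [1174, 1946], 0⟩,
  ⟨⟨51, -4, -91, 10, -69, 10, 60, 12, -11⟩, (.cons (nat_lit 1646) (nat_lit 1003) (nat_lit 96) (nat_lit 1)
 (.cons (nat_lit 130) (nat_lit 1724) (nat_lit 895) (nat_lit 1) .nil)), (nat_lit 48), (nat_lit 0), (nat_lit 0),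
 (nat_lit 0), (21, 25, 8), [2013, 2586], 0⟩,
  ⟨⟨75, -20, -32, -10, -21, 80, 12, -60, -25⟩, (.cons (nat_lit 746) (nat_lit 320) (nat_lit 205) (nat_lit 1)
 (.cons (nat_lit 1541) (nat_lit 1373) (nat_lit 1) (nat_lit 1537) .nil)), (nat_lit 34), (nat_lit 0), (nat_lit
 0), (nat_lit 0), (52, 12, 14), [1131, 1945], 0⟩,
  mz,
  ⟨⟨-11, -72, -25, 50, 11, -80, -44, -4, -29⟩, (.cons (nat_lit 1072) (nat_lit 914) (nat_lit 1798) (nat_lit 1)
 (.cons (nat_lit 881) (nat_lit 1276) (nat_lit 1339) (nat_lit 1) .nil)), (nat_lit 29), (nat_lit 0), (nat_lit 0),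
 (nat_lit 0), (38, 8, 10), [1235, 626], 0⟩,
  ⟨⟨-75, -20, 43, -10, 21, -70, -12, -60, -13⟩, (.cons (nat_lit 1787) (nat_lit 1844) (nat_lit 1190) (nat_lit 1)
 (.cons (nat_lit 1294) (nat_lit 53) (nat_lit 2180) (nat_lit 1) .nil)), (nat_lit 55), (nat_lit 0), (nat_lit 0),
 (nat_lit 0), (2, 5, 6), [2174, 926], 0⟩,
  mz,
  mz,
  mz,
  ⟨⟨11, 72, -36, -50, -11, -30, 44, 4, -73⟩, (.cons (nat_lit 280) (nat_lit 1468) (nat_lit 1580) (nat_lit 1)
 (.cons (nat_lit 1404) (nat_lit 1422) (nat_lit 722) (nat_lit 1) .nil)), (nat_lit 29), (nat_lit 0), (nat_lit 0),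
 (nat_lit 0), (4, 27, 16), [1500, 2454], 0⟩,
  mz,
  ⟨⟨-13, 72, 36, -70, -11, 30, -4, 44, -49⟩, (.cons (nat_lit 421) (nat_lit 1038) (nat_lit 1243) (nat_lit 1)
 (.cons (nat_lit 1102) (nat_lit 1289) (nat_lit 2513) (nat_lit 1) .nil)), (nat_lit 43), (nat_lit 0), (nat_lit
 0), (nat_lit 0), (35, 41, 49), [419, 782], 0⟩,
  ⟨⟨-65, -24, -7, 4, 55, -52, 10, -40, -59⟩, (.cons (nat_lit 1646) (nat_lit 1031) (nat_lit 47) (nat_lit 1)
 (.cons (nat_lit 1206) (nat_lit 253) (nat_lit 670) (nat_lit 1) .nil)), (nat_lit 3), (nat_lit 0), (nat_lit 0),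
 (nat_lit 0), (41, 51, 21), [964, 2711], 0⟩,
  mz,
  ⟨⟨-27, -68, 43, -64, 15, 2, 6, -48, -49⟩, (.cons (nat_lit 1528) (nat_lit 163) (nat_lit 1172) (nat_lit 1)
 (.cons (nat_lit 2503) (nat_lit 1495) (nat_lit 303) (nat_lit 1) .nil)), (nat_lit 46), (nat_lit 0), (nat_lit 0),
 (nat_lit 0), (60, 16, 34), [2160, 1861], 0⟩,
  ⟨⟨13, 72, 23, 70, -11, -40, 4, 44, -53⟩, (.cons (nat_lit 237) (nat_lit 4) (nat_lit 2141) (nat_lit 1) (.cons
 (nat_lit 487) (nat_lit 2081) (nat_lit 490) (nat_lit 1) .nil)), (nat_lit 43), (nat_lit 0), (nat_lit 0),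
 (nat_lit 0), (20, 64, 28), [795, 2045], 0⟩,
  ⟨⟨-23, 72, 32, 64, 25, -52, -26, 32, -41⟩, (.cons (nat_lit 333) (nat_lit 1564) (nat_lit 1370) (nat_lit 1)
 (.cons (nat_lit 1577) (nat_lit 1636) (nat_lit 1081) (nat_lit 1) .nil)), (nat_lit 18), (nat_lit 0), (nat_lit
 0), (nat_lit 0), (27, 36, 12), [685, 80], 0⟩,
  ⟨⟨17, 24, 72, 36, 55, -48, 54, -24, -1⟩, (.cons (nat_lit 2208) (nat_lit 1122) (nat_lit 1556) (nat_lit 1)
 (.cons (nat_lit 2808) (nat_lit 2143) (nat_lit 2698) (nat_lit 1) .nil)), (nat_lit 70), (nat_lit 0), (nat_lit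
 0), (nat_lit 0), (30, 51, 41), [526, 1605], 0⟩]

/-- Moves. -/
noncomputable def t4_18 : List Mv := [
  mz,
  ⟨⟨-75, 20, 43, -10, -21, -70, -12, 60, -13⟩, (.cons (nat_lit 337) (nat_lit 304) (nat_lit 1415) (nat_lit 1)
 (.cons (nat_lit 437) (nat_lit 535) (nat_lit 711) (nat_lit 1) .nil)), (nat_lit 55), (nat_lit 0), (nat_lit 0),
 (nat_lit 0), (51, 21, 11), [98, 1481], 0⟩,
  mz,
  ⟨⟨-75, -16, 23, 4, -55, 48, -10, -40, -49⟩, (.cons (nat_lit 1833) (nat_lit 249) (nat_lit 1191) (nat_lit 1)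
 (.cons (nat_lit 1072) (nat_lit 1606) (nat_lit 2095) (nat_lit 1) .nil)), (nat_lit 42), (nat_lit 0), (nat_lit
 0), (nat_lit 0), (1, 70, 38), [1898, 1223], 0⟩,
  ⟨⟨27, 68, 16, -64, 15, 62, -6, 48, -43⟩, (.cons (nat_lit 1220) (nat_lit 1581) (nat_lit 1541) (nat_lit 1)
 (.cons (nat_lit 883) (nat_lit 1877) (nat_lit 924) (nat_lit 1) .nil)), (nat_lit 15), (nat_lit 0), (nat_lit 0),
 (nat_lit 0), (60, 55, 34), [368, 2489], 0⟩,
  ⟨⟨27, -68, 16, -64, -15, 62, -6, -48, -43⟩, (.cons (nat_lit 1232) (nat_lit 1711) (nat_lit 1567) (nat_lit 1)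
 (.cons (nat_lit 2773) (nat_lit 1843) (nat_lit 39) (nat_lit 1) .nil)), (nat_lit 15), (nat_lit 0), (nat_lit 0),
 (nat_lit 0), (7, 36, 30), [1169, 939], 0⟩,
  mz,
  ⟨⟨-29, 72, 20, 56, 25, -68, -38, 16, -35⟩, (.cons (nat_lit 756) (nat_lit 294) (nat_lit 693) (nat_lit 1)
 (.cons (nat_lit 2107) (nat_lit 966) (nat_lit 1167) (nat_lit 1) .nil)), (nat_lit 8), (nat_lit 0), (nat_lit 0),
 (nat_lit 0), (33, 44, 31), [1719, 504], 0⟩,
  ⟨⟨3, 40, -76, 64, 25, -12, 26, -32, -67⟩, (.cons (nat_lit 1610) (nat_lit 1595) (nat_lit 2024) (nat_lit 1)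
 (.cons (nat_lit 4) (nat_lit 1754) (nat_lit 950) (nat_lit 1) .nil)), (nat_lit 7), (nat_lit 0), (nat_lit 0),
 (nat_lit 0), (14, 62, 3), [1820, 2446], 0⟩,
  mz,
  mz,
  ⟨⟨33, -20, -92, 64, 15, -2, 6, 48, -49⟩, (.cons (nat_lit 421) (nat_lit 17) (nat_lit 386) (nat_lit 1) (.cons
 (nat_lit 2148) (nat_lit 653) (nat_lit 2718) (nat_lit 1) .nil)), (nat_lit 12), (nat_lit 0), (nat_lit 0),
 (nat_lit 0), (67, 3, 38), [838, 2072], 0⟩,
  ⟨⟨9, 76, -20, 44, -15, -82, -42, 24, -25⟩, (.cons (nat_lit 1302) (nat_lit 1003) (nat_lit 857) (nat_lit 1)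
 (.cons (nat_lit 2237) (nat_lit 364) (nat_lit 1472) (nat_lit 1) .nil)), (nat_lit 67), (nat_lit 0), (nat_lit 0),
 (nat_lit 0), (31, 49, 21), [375, 1442], 0⟩,
  mz,
  mz,
  ⟨⟨-9, 76, -11, -44, -15, -38, 42, 24, -67⟩, (.cons (nat_lit 625) (nat_lit 157) (nat_lit 1916) (nat_lit 1)
 (.cons (nat_lit 665) (nat_lit 2198) (nat_lit 2556) (nat_lit 1) .nil)), (nat_lit 67), (nat_lit 0), (nat_lit 0),
 (nat_lit 0), (25, 67, 49), [845, 1168], 0⟩,
  ⟨⟨17, 24, -89, -36, -55, -12, 54, -24, -53⟩, (.cons (nat_lit 2116) (nat_lit 1059) (nat_lit 537) (nat_lit 1)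
 (.cons (nat_lit 1516) (nat_lit 2304) (nat_lit 2356) (nat_lit 1) .nil)), (nat_lit 22), (nat_lit 0), (nat_lit
 0), (nat_lit 0), (7, 52, 64), [367, 2592], 0⟩,
  mz,
  ⟨⟨29, -72, -9, -56, -25, -12, 38, -16, -73⟩, (.cons (nat_lit 1203) (nat_lit 125) (nat_lit 253) (nat_lit 1)
 (.cons (nat_lit 2523) (nat_lit 888) (nat_lit 1363) (nat_lit 1) .nil)), (nat_lit 8), (nat_lit 0), (nat_lit 0),
 (nat_lit 0), (70, 46, 55), [440, 670], 0⟩,
  ⟨⟨39, 40, -80, -44, 55, 32, -22, -8, -55⟩, (.cons (nat_lit 2187) (nat_lit 2106) (nat_lit 64) (nat_lit 1)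
 (.cons (nat_lit 1288) (nat_lit 88) (nat_lit 496) (nat_lit 1) .nil)), (nat_lit 23), (nat_lit 0), (nat_lit 0),
 (nat_lit 0), (28, 3, 37), [1838, 1930], 0⟩,
  mz,
  mz,
  ⟨⟨17, -24, 72, 36, -55, -48, 54, 24, -1⟩, (.cons (nat_lit 380) (nat_lit 1297) (nat_lit 767) (nat_lit 1)
 (.cons (nat_lit 2803) (nat_lit 61) (nat_lit 884) (nat_lit 1) .nil)), (nat_lit 70), (nat_lit 0), (nat_lit 0),
 (nat_lit 0), (28, 5, 43), [309, 2446], 0⟩,
  ⟨⟨39, -40, -80, -44, -55, 32, -22, 8, -55⟩, (.cons (nat_lit 2208) (nat_lit 54) (nat_lit 1149) (nat_lit 1)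
 (.cons (nat_lit 2808) (nat_lit 2288) (nat_lit 2217) (nat_lit 1) .nil)), (nat_lit 23), (nat_lit 0), (nat_lit
 0), (nat_lit 0), (1, 28, 14), [1618, 221], 0⟩,
  ⟨⟨-39, 40, -41, -44, -55, 12, 22, -8, -77⟩, (.cons (nat_lit 1035) (nat_lit 1891) (nat_lit 525) (nat_lit 1)
 (.cons (nat_lit 2137) (nat_lit 410) (nat_lit 2194) (nat_lit 1) .nil)), (nat_lit 19), (nat_lit 0), (nat_lit 0),
 (nat_lit 0), (2, 15, 28), [1665, 1875], 0⟩,
  mz,
  ⟨⟨51, -4, 40, 10, -69, -20, 60, 12, -49⟩, (.cons (nat_lit 622) (nat_lit 682) (nat_lit 503) (nat_lit 1) (.cons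
 (nat_lit 2455) (nat_lit 2010) (nat_lit 400) (nat_lit 1) .nil)), (nat_lit 48), (nat_lit 0), (nat_lit 0),
 (nat_lit 0), (60, 41, 33), [150, 645], 0⟩,
  mz,
  mz,
  ⟨⟨9, 28, -85, 70, -11, -30, -4, -44, -49⟩, (.cons (nat_lit 165) (nat_lit 1287) (nat_lit 2106) (nat_lit 1)
 (.cons (nat_lit 2348) (nat_lit 1085) (nat_lit 2735) (nat_lit 1) .nil)), (nat_lit 31), (nat_lit 0), (nat_lit
 0), (nat_lit 0), (40, 35, 69), [2161, 2106], 0⟩,
  mz,
  ⟨⟨-11, 72, -25, 50, -11, -80, -44, 4, -29⟩, (.cons (nat_lit 1553) (nat_lit 434) (nat_lit 911) (nat_lit 1)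
 (.cons (nat_lit 1176) (nat_lit 2135) (nat_lit 2754) (nat_lit 1) .nil)), (nat_lit 29), (nat_lit 0), (nat_lit
 0), (nat_lit 0), (44, 13, 34), [231, 2098], 0⟩,
  mz,
  ⟨⟨-29, -72, 20, 56, -25, -68, -38, -16, -35⟩, (.cons (nat_lit 1335) (nat_lit 1253) (nat_lit 29) (nat_lit 1)
 (.cons (nat_lit 1333) (nat_lit 2618) (nat_lit 307) (nat_lit 1) .nil)), (nat_lit 8), (nat_lit 0), (nat_lit 0),
 (nat_lit 0), (27, 36, 6), [17, 574], 0⟩,
  ⟨⟨-63, 40, 7, 10, -21, -80, 12, 60, -25⟩, (.cons (nat_lit 1512) (nat_lit 1717) (nat_lit 2016) (nat_lit 1)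
 (.cons (nat_lit 1939) (nat_lit 1553) (nat_lit 876) (nat_lit 1) .nil)), (nat_lit 58), (nat_lit 0), (nat_lit 0),
 (nat_lit 0), (60, 4, 19), [897, 86], 0⟩,
  mz,
  ⟨⟨3, -40, -76, 64, -25, -12, 26, 32, -67⟩, (.cons (nat_lit 2134) (nat_lit 98) (nat_lit 871) (nat_lit 1)
 (.cons (nat_lit 1720) (nat_lit 700) (nat_lit 1297) (nat_lit 1) .nil)), (nat_lit 7), (nat_lit 0), (nat_lit 0),
 (nat_lit 0), (58, 54, 53), [2038, 1444], 0⟩,
  mz,
  ⟨⟨17, -24, -89, -36, 55, -12, 54, 24, -53⟩, (.cons (nat_lit 1210) (nat_lit 933) (nat_lit 39) (nat_lit 1)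
 (.cons (nat_lit 1973) (nat_lit 683) (nat_lit 1394) (nat_lit 1) .nil)), (nat_lit 22), (nat_lit 0), (nat_lit 0),
 (nat_lit 0), (5, 27, 66), [812, 1785], 0⟩,
  ⟨⟨-23, -72, 32, 64, -25, -52, -26, -32, -41⟩, (.cons (nat_lit 1415) (nat_lit 390) (nat_lit 1038) (nat_lit 1)
 (.cons (nat_lit 360) (nat_lit 1202) (nat_lit 596) (nat_lit 1) .nil)), (nat_lit 18), (nat_lit 0), (nat_lit 0),
 (nat_lit 0), (21, 28, 33), [2070, 990], 0⟩,
  mz,
  mz,
  ⟨⟨-65, 24, -7, 4, -55, -52, 10, 40, -59⟩, (.cons (nat_lit 1877) (nat_lit 935) (nat_lit 1) (nat_lit 1128)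
 (.cons (nat_lit 773) (nat_lit 140) (nat_lit 1358) (nat_lit 1) .nil)), (nat_lit 3), (nat_lit 0), (nat_lit 0),
 (nat_lit 0), (43, 5, 48), [1807, 2572], 0⟩,
  ⟨⟨33, 68, -37, -50, 11, -30, 44, -4, -73⟩, (.cons (nat_lit 367) (nat_lit 637) (nat_lit 129) (nat_lit 1)
 (.cons (nat_lit 988) (nat_lit 1236) (nat_lit 2307) (nat_lit 1) .nil)), (nat_lit 53), (nat_lit 0), (nat_lit 0),
 (nat_lit 0), (65, 22, 63), [765, 112], 0⟩,
  ⟨⟨-39, -40, -41, -44, 55, 12, 22, 8, -77⟩, (.cons (nat_lit 1848) (nat_lit 1228) (nat_lit 497) (nat_lit 1)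
 (.cons (nat_lit 1812) (nat_lit 1393) (nat_lit 1921) (nat_lit 1) .nil)), (nat_lit 19), (nat_lit 0), (nat_lit
 0), (nat_lit 0), (46, 61, 5), [185, 1917], 0⟩,
  mz,
  ⟨⟨-9, -76, -11, -44, 15, -38, 42, -24, -67⟩, (.cons (nat_lit 519) (nat_lit 1554) (nat_lit 1416) (nat_lit 1)
 (.cons (nat_lit 1992) (nat_lit 2309) (nat_lit 359) (nat_lit 1) .nil)), (nat_lit 67), (nat_lit 0), (nat_lit 0),
 (nat_lit 0), (66, 15, 47), [86, 1049], 0⟩,
  ⟨⟨9, -16, 80, -10, -69, -10, 60, -12, -11⟩, (.cons (nat_lit 2208) (nat_lit 1937) (nat_lit 1247) (nat_lit 1)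
 (.cons (nat_lit 2808) (nat_lit 1664) (nat_lit 1296) (nat_lit 1) .nil)), (nat_lit 47), (nat_lit 0), (nat_lit
 0), (nat_lit 0), (33, 58, 7), [1684, 1086], 0⟩,
  ⟨⟨51, 4, 40, 10, 69, -20, 60, -12, -49⟩, (.cons (nat_lit 2208) (nat_lit 1144) (nat_lit 1784) (nat_lit 1)
 (.cons (nat_lit 2808) (nat_lit 203) (nat_lit 1322) (nat_lit 1) .nil)), (nat_lit 48), (nat_lit 0), (nat_lit 0),
 (nat_lit 0), (13, 29, 32), [2123, 610], 0⟩,
  ⟨⟨29, 72, -9, -56, 25, -12, 38, 16, -73⟩, (.cons (nat_lit 1077) (nat_lit 1046) (nat_lit 764) (nat_lit 1)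
 (.cons (nat_lit 2616) (nat_lit 1252) (nat_lit 1124) (nat_lit 1) .nil)), (nat_lit 8), (nat_lit 0), (nat_lit 0),
 (nat_lit 0), (5, 54, 9), [1907, 945], 0⟩,
  ⟨⟨-75, 16, 23, 4, 55, 48, -10, 40, -49⟩, (.cons (nat_lit 189) (nat_lit 235) (nat_lit 1306) (nat_lit 1) (.cons
 (nat_lit 2336) (nat_lit 2436) (nat_lit 2257) (nat_lit 1) .nil)), (nat_lit 42), (nat_lit 0), (nat_lit 0),
 (nat_lit 0), (26, 45, 65), [1340, 2354], 0⟩,
  ⟨⟨9, -76, -20, 44, 15, -82, -42, -24, -25⟩, (.cons (nat_lit 703) (nat_lit 1413) (nat_lit 746) (nat_lit 1)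
 (.cons (nat_lit 1413) (nat_lit 2807) (nat_lit 2503) (nat_lit 1) .nil)), (nat_lit 67), (nat_lit 0), (nat_lit
 0), (nat_lit 0), (1, 68, 19), [932, 2118], 0⟩,
  mz,
  ⟨⟨13, -72, 23, 70, 11, -40, 4, -44, -53⟩, (.cons (nat_lit 1577) (nat_lit 546) (nat_lit 2004) (nat_lit 1)
 (.cons (nat_lit 145) (nat_lit 556) (nat_lit 2565) (nat_lit 1) .nil)), (nat_lit 43), (nat_lit 0), (nat_lit 0),
 (nat_lit 0), (14, 59, 48), [1644, 858], 0⟩,
  ⟨⟨9, 16, 80, -10, 69, -10, 60, 12, -11⟩, (.cons (nat_lit 2192) (nat_lit 1707) (nat_lit 1272) (nat_lit 1)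
 (.cons (nat_lit 502) (nat_lit 40) (nat_lit 2189) (nat_lit 1) .nil)), (nat_lit 47), (nat_lit 0), (nat_lit 0),
 (nat_lit 0), (58, 46, 8), [2099, 1318], 0⟩,
  ⟨⟨-63, -40, 7, 10, 21, -80, 12, -60, -25⟩, (.cons (nat_lit 424) (nat_lit 130) (nat_lit 1301) (nat_lit 1)
 (.cons (nat_lit 1843) (nat_lit 636) (nat_lit 1939) (nat_lit 1) .nil)), (nat_lit 58), (nat_lit 0), (nat_lit 0),
 (nat_lit 0), (33, 59, 14), [1281, 685], 0⟩,
  mz,
  ⟨⟨-11, -72, -25, 50, 11, -80, -44, -4, -29⟩, (.cons (nat_lit 1072) (nat_lit 914) (nat_lit 1798) (nat_lit 1)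
 (.cons (nat_lit 881) (nat_lit 1276) (nat_lit 1339) (nat_lit 1) .nil)), (nat_lit 29), (nat_lit 0), (nat_lit 0),
 (nat_lit 0), (38, 8, 10), [1235, 626], 0⟩,
  ⟨⟨-75, -20, 43, -10, 21, -70, -12, -60, -13⟩, (.cons (nat_lit 1787) (nat_lit 1844) (nat_lit 1190) (nat_lit 1)
 (.cons (nat_lit 1294) (nat_lit 53) (nat_lit 2180) (nat_lit 1) .nil)), (nat_lit 55), (nat_lit 0), (nat_lit 0),
 (nat_lit 0), (2, 5, 6), [2174, 926], 0⟩,
  mz,
  mz,
  mz,
  ⟨⟨33, -68, -37, -50, -11, -30, 44, 4, -73⟩, (.cons (nat_lit 1224) (nat_lit 1822) (nat_lit 875) (nat_lit 1)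
 (.cons (nat_lit 478) (nat_lit 1262) (nat_lit 1091) (nat_lit 1) .nil)), (nat_lit 53), (nat_lit 0), (nat_lit 0),
 (nat_lit 0), (12, 27, 16), [372, 457], 0⟩,
  mz,
  ⟨⟨9, -28, -85, 70, 11, -30, -4, 44, -49⟩, (.cons (nat_lit 1730) (nat_lit 1470) (nat_lit 23) (nat_lit 1)
 (.cons (nat_lit 1094) (nat_lit 2242) (nat_lit 1580) (nat_lit 1) .nil)), (nat_lit 31), (nat_lit 0), (nat_lit
 0), (nat_lit 0), (14, 30, 49), [201, 1914], 0⟩,
  ⟨⟨-65, -24, -7, 4, 55, -52, 10, -40, -59⟩, (.cons (nat_lit 1646) (nat_lit 1031) (nat_lit 47) (nat_lit 1)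
 (.cons (nat_lit 1206) (nat_lit 253) (nat_lit 670) (nat_lit 1) .nil)), (nat_lit 3), (nat_lit 0), (nat_lit 0),
 (nat_lit 0), (41, 51, 21), [964, 2711], 0⟩,
  mz,
  ⟨⟨33, 20, -92, 64, -15, -2, 6, -48, -49⟩, (.cons (nat_lit 151) (nat_lit 968) (nat_lit 924) (nat_lit 1) (.cons
 (nat_lit 771) (nat_lit 256) (nat_lit 2733) (nat_lit 1) .nil)), (nat_lit 12), (nat_lit 0), (nat_lit 0),
 (nat_lit 0), (45, 55, 34), [1545, 718], 0⟩,
  ⟨⟨13, 72, 23, 70, -11, -40, 4, 44, -53⟩, (.cons (nat_lit 237) (nat_lit 4) (nat_lit 2141) (nat_lit 1) (.cons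
 (nat_lit 487) (nat_lit 2081) (nat_lit 490) (nat_lit 1) .nil)), (nat_lit 43), (nat_lit 0), (nat_lit 0),
 (nat_lit 0), (20, 64, 28), [795, 2045], 0⟩,
  ⟨⟨-23, 72, 32, 64, 25, -52, -26, 32, -41⟩, (.cons (nat_lit 333) (nat_lit 1564) (nat_lit 1370) (nat_lit 1)
 (.cons (nat_lit 1577) (nat_lit 1636) (nat_lit 1081) (nat_lit 1) .nil)), (nat_lit 18), (nat_lit 0), (nat_lit
 0), (nat_lit 0), (27, 36, 12), [685, 80], 0⟩,
  ⟨⟨17, 24, 72, 36, 55, -48, 54, -24, -1⟩, (.cons (nat_lit 2208) (nat_lit 1122) (nat_lit 1556) (nat_lit 1)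
 (.cons (nat_lit 2808) (nat_lit 2143) (nat_lit 2698) (nat_lit 1) .nil)), (nat_lit 70), (nat_lit 0), (nat_lit
 0), (nat_lit 0), (30, 51, 41), [526, 1605], 0⟩]

/-- Moves. -/
noncomputable def t4_19 : List Mv := [
  mz,
  ⟨⟨-75, 20, 43, -10, -21, -70, -12, 60, -13⟩, (.cons (nat_lit 337) (nat_lit 304) (nat_lit 1415) (nat_lit 1)
 (.cons (nat_lit 437) (nat_lit 535) (nat_lit 711) (nat_lit 1) .nil)), (nat_lit 55), (nat_lit 0), (nat_lit 0),
 (nat_lit 0), (51, 21, 11), [98, 1481], 0⟩,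
  mz,
  ⟨⟨-75, -16, 23, 4, -55, 48, -10, -40, -49⟩, (.cons (nat_lit 1833) (nat_lit 249) (nat_lit 1191) (nat_lit 1)
 (.cons (nat_lit 1072) (nat_lit 1606) (nat_lit 2095) (nat_lit 1) .nil)), (nat_lit 42), (nat_lit 0), (nat_lit
 0), (nat_lit 0), (1, 70, 38), [1898, 1223], 0⟩,
  ⟨⟨27, 68, 16, 64, -15, -62, -6, 48, -43⟩, (.cons (nat_lit 973) (nat_lit 1402) (nat_lit 1576) (nat_lit 1)
 (.cons (nat_lit 1177) (nat_lit 1939) (nat_lit 160) (nat_lit 1) .nil)), (nat_lit 46), (nat_lit 0), (nat_lit 0),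
 (nat_lit 0), (60, 16, 34), [1174, 435], 0⟩,
  ⟨⟨-33, 20, -59, 64, 15, -62, -6, -48, -43⟩, (.cons (nat_lit 541) (nat_lit 166) (nat_lit 1366) (nat_lit 1)
 (.cons (nat_lit 335) (nat_lit 1055) (nat_lit 2229) (nat_lit 1) .nil)), (nat_lit 51), (nat_lit 0), (nat_lit 0),
 (nat_lit 0), (23, 35, 30), [374, 2219], 0⟩,
  mz,
  ⟨⟨-9, -56, -55, -56, -25, 68, -38, 16, -35⟩, (.cons (nat_lit 1546) (nat_lit 1900) (nat_lit 909) (nat_lit 1)
 (.cons (nat_lit 2231) (nat_lit 2443) (nat_lit 1982) (nat_lit 1) .nil)), (nat_lit 69), (nat_lit 0), (nat_lit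
 0), (nat_lit 0), (69, 27, 31), [1224, 2334], 0⟩,
  ⟨⟨23, -72, 9, 64, 25, -12, 26, -32, -67⟩, (.cons (nat_lit 1727) (nat_lit 520) (nat_lit 1554) (nat_lit 1)
 (.cons (nat_lit 1339) (nat_lit 545) (nat_lit 588) (nat_lit 1) .nil)), (nat_lit 49), (nat_lit 0), (nat_lit 0),
 (nat_lit 0), (60, 62, 3), [410, 197], 0⟩,
  mz,
  mz,
  ⟨⟨33, -20, -92, 64, 15, -2, 6, 48, -49⟩, (.cons (nat_lit 421) (nat_lit 17) (nat_lit 386) (nat_lit 1) (.cons
 (nat_lit 2148) (nat_lit 653) (nat_lit 2718) (nat_lit 1) .nil)), (nat_lit 12), (nat_lit 0), (nat_lit 0),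
 (nat_lit 0), (67, 3, 38), [838, 2072], 0⟩,
  ⟨⟨9, 76, -20, 44, -15, -82, -42, 24, -25⟩, (.cons (nat_lit 1302) (nat_lit 1003) (nat_lit 857) (nat_lit 1)
 (.cons (nat_lit 2237) (nat_lit 364) (nat_lit 1472) (nat_lit 1) .nil)), (nat_lit 67), (nat_lit 0), (nat_lit 0),
 (nat_lit 0), (31, 49, 21), [375, 1442], 0⟩,
  mz,
  mz,
  ⟨⟨51, -52, -56, -44, -15, -38, 42, 24, -67⟩, (.cons (nat_lit 1490) (nat_lit 2005) (nat_lit 83) (nat_lit 1)
 (.cons (nat_lit 78) (nat_lit 2314) (nat_lit 2576) (nat_lit 1) .nil)), (nat_lit 5), (nat_lit 0), (nat_lit 0),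
 (nat_lit 0), (24, 67, 49), [234, 2179], 0⟩,
  ⟨⟨17, 24, -89, -36, -55, -12, 54, -24, -53⟩, (.cons (nat_lit 2116) (nat_lit 1059) (nat_lit 537) (nat_lit 1)
 (.cons (nat_lit 1516) (nat_lit 2304) (nat_lit 2356) (nat_lit 1) .nil)), (nat_lit 22), (nat_lit 0), (nat_lit
 0), (nat_lit 0), (7, 52, 64), [367, 2592], 0⟩,
  mz,
  ⟨⟨9, 56, -64, -56, -25, -12, 38, -16, -73⟩, (.cons (nat_lit 1711) (nat_lit 2037) (nat_lit 18) (nat_lit 1)
 (.cons (nat_lit 554) (nat_lit 2634) (nat_lit 1278) (nat_lit 1) .nil)), (nat_lit 39), (nat_lit 0), (nat_lit 0),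
 (nat_lit 0), (56, 46, 55), [1098, 119], 0⟩,
  ⟨⟨-61, -48, 25, 44, -55, -32, -22, -8, -55⟩, (.cons (nat_lit 1176) (nat_lit 647) (nat_lit 1120) (nat_lit 1)
 (.cons (nat_lit 1509) (nat_lit 2099) (nat_lit 1065) (nat_lit 1) .nil)), (nat_lit 24), (nat_lit 0), (nat_lit
 0), (nat_lit 0), (9, 68, 37), [67, 1370], 0⟩,
  mz,
  mz,
  ⟨⟨37, 48, -73, -36, 55, 48, 54, 24, -1⟩, (.cons (nat_lit 95) (nat_lit 1009) (nat_lit 2001) (nat_lit 1) (.cons
 (nat_lit 1436) (nat_lit 458) (nat_lit 1629) (nat_lit 1) .nil)), (nat_lit 16), (nat_lit 0), (nat_lit 0),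
 (nat_lit 0), (15, 66, 43), [1325, 1132], 0⟩,
  ⟨⟨-61, 48, 25, 44, 55, -32, -22, 8, -55⟩, (.cons (nat_lit 2083) (nat_lit 1874) (nat_lit 2135) (nat_lit 1)
 (.cons (nat_lit 1848) (nat_lit 625) (nat_lit 1637) (nat_lit 1) .nil)), (nat_lit 24), (nat_lit 0), (nat_lit 0),
 (nat_lit 0), (13, 43, 14), [373, 859], 0⟩,
  ⟨⟨61, -48, -36, 44, 55, -12, 22, -8, -77⟩, (.cons (nat_lit 589) (nat_lit 103) (nat_lit 547) (nat_lit 1)
 (.cons (nat_lit 387) (nat_lit 2358) (nat_lit 419) (nat_lit 1) .nil)), (nat_lit 44), (nat_lit 0), (nat_lit 0),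
 (nat_lit 0), (26, 56, 28), [2073, 2407], 0⟩,
  mz,
  ⟨⟨51, -4, 40, -10, 69, 20, 60, 12, -49⟩, (.cons (nat_lit 2208) (nat_lit 1964) (nat_lit 1244) (nat_lit 1)
 (.cons (nat_lit 2808) (nat_lit 192) (nat_lit 2554) (nat_lit 1) .nil)), (nat_lit 26), (nat_lit 0), (nat_lit 0),
 (nat_lit 0), (60, 30, 33), [55, 1453], 0⟩,
  mz,
  mz,
  ⟨⟨9, 28, -85, -70, 11, 30, -4, -44, -49⟩, (.cons (nat_lit 2141) (nat_lit 300) (nat_lit 769) (nat_lit 1)
 (.cons (nat_lit 2589) (nat_lit 2629) (nat_lit 2444) (nat_lit 1) .nil)), (nat_lit 57), (nat_lit 0), (nat_lit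
 0), (nat_lit 0), (40, 36, 69), [375, 526], 0⟩,
  mz,
  ⟨⟨-11, 72, -25, -50, 11, 80, -44, 4, -29⟩, (.cons (nat_lit 1342) (nat_lit 2106) (nat_lit 60) (nat_lit 1)
 (.cons (nat_lit 1841) (nat_lit 1708) (nat_lit 1344) (nat_lit 1) .nil)), (nat_lit 64), (nat_lit 0), (nat_lit
 0), (nat_lit 0), (44, 58, 34), [516, 1706], 0⟩,
  mz,
  ⟨⟨-29, -72, 20, 56, -25, -68, -38, -16, -35⟩, (.cons (nat_lit 1335) (nat_lit 1253) (nat_lit 29) (nat_lit 1)
 (.cons (nat_lit 1333) (nat_lit 2618) (nat_lit 307) (nat_lit 1) .nil)), (nat_lit 8), (nat_lit 0), (nat_lit 0),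
 (nat_lit 0), (27, 36, 6), [17, 574], 0⟩,
  ⟨⟨75, 20, -32, 10, -21, -80, 12, 60, -25⟩, (.cons (nat_lit 838) (nat_lit 1338) (nat_lit 512) (nat_lit 1)
 (.cons (nat_lit 2491) (nat_lit 2161) (nat_lit 2027) (nat_lit 1) .nil)), (nat_lit 55), (nat_lit 0), (nat_lit
 0), (nat_lit 0), (30, 4, 19), [850, 2119], 0⟩,
  mz,
  ⟨⟨3, -40, -76, 64, -25, -12, 26, 32, -67⟩, (.cons (nat_lit 2134) (nat_lit 98) (nat_lit 871) (nat_lit 1)
 (.cons (nat_lit 1720) (nat_lit 700) (nat_lit 1297) (nat_lit 1) .nil)), (nat_lit 7), (nat_lit 0), (nat_lit 0),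
 (nat_lit 0), (58, 54, 53), [2038, 1444], 0⟩,
  mz,
  ⟨⟨17, -24, -89, -36, 55, -12, 54, 24, -53⟩, (.cons (nat_lit 1210) (nat_lit 933) (nat_lit 39) (nat_lit 1)
 (.cons (nat_lit 1973) (nat_lit 683) (nat_lit 1394) (nat_lit 1) .nil)), (nat_lit 22), (nat_lit 0), (nat_lit 0),
 (nat_lit 0), (5, 27, 66), [812, 1785], 0⟩,
  ⟨⟨-23, -72, 32, 64, -25, -52, -26, -32, -41⟩, (.cons (nat_lit 1415) (nat_lit 390) (nat_lit 1038) (nat_lit 1)
 (.cons (nat_lit 360) (nat_lit 1202) (nat_lit 596) (nat_lit 1) .nil)), (nat_lit 18), (nat_lit 0), (nat_lit 0),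
 (nat_lit 0), (21, 28, 33), [2070, 990], 0⟩,
  mz,
  mz,
  ⟨⟨-65, 24, -7, 4, -55, -52, 10, 40, -59⟩, (.cons (nat_lit 1877) (nat_lit 935) (nat_lit 1) (nat_lit 1128)
 (.cons (nat_lit 773) (nat_lit 140) (nat_lit 1358) (nat_lit 1) .nil)), (nat_lit 3), (nat_lit 0), (nat_lit 0),
 (nat_lit 0), (43, 5, 48), [1807, 2572], 0⟩,
  ⟨⟨11, -72, -36, -50, 11, -30, 44, -4, -73⟩, (.cons (nat_lit 1372) (nat_lit 961) (nat_lit 1868) (nat_lit 1)
 (.cons (nat_lit 245) (nat_lit 1320) (nat_lit 1253) (nat_lit 1) .nil)), (nat_lit 29), (nat_lit 0), (nat_lit 0),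
 (nat_lit 0), (69, 22, 63), [1799, 2435], 0⟩,
  ⟨⟨61, 48, -36, -44, 55, 12, 22, 8, -77⟩, (.cons (nat_lit 2194) (nat_lit 1545) (nat_lit 1578) (nat_lit 1)
 (.cons (nat_lit 646) (nat_lit 2019) (nat_lit 1799) (nat_lit 1) .nil)), (nat_lit 24), (nat_lit 0), (nat_lit 0),
 (nat_lit 0), (30, 61, 5), [326, 875], 0⟩,
  mz,
  ⟨⟨51, 52, -56, -44, 15, -38, 42, -24, -67⟩, (.cons (nat_lit 938) (nat_lit 561) (nat_lit 617) (nat_lit 1)
 (.cons (nat_lit 664) (nat_lit 319) (nat_lit 308) (nat_lit 1) .nil)), (nat_lit 5), (nat_lit 0), (nat_lit 0),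
 (nat_lit 0), (52, 15, 47), [274, 1754], 0⟩,
  ⟨⟨9, -16, 80, 10, 69, 10, 60, -12, -11⟩, (.cons (nat_lit 2079) (nat_lit 1010) (nat_lit 1894) (nat_lit 1)
 (.cons (nat_lit 1024) (nat_lit 1175) (nat_lit 46) (nat_lit 1) .nil)), (nat_lit 54), (nat_lit 0), (nat_lit 0),
 (nat_lit 0), (33, 13, 7), [978, 786], 0⟩,
  ⟨⟨51, 4, 40, -10, -69, 20, 60, -12, -49⟩, (.cons (nat_lit 1346) (nat_lit 972) (nat_lit 1125) (nat_lit 1)
 (.cons (nat_lit 2198) (nat_lit 577) (nat_lit 17) (nat_lit 1) .nil)), (nat_lit 26), (nat_lit 0), (nat_lit 0),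
 (nat_lit 0), (13, 42, 32), [1802, 1756], 0⟩,
  ⟨⟨29, 72, -9, 56, -25, 12, 38, 16, -73⟩, (.cons (nat_lit 1687) (nat_lit 1343) (nat_lit 783) (nat_lit 1)
 (.cons (nat_lit 971) (nat_lit 1321) (nat_lit 632) (nat_lit 1) .nil)), (nat_lit 36), (nat_lit 0), (nat_lit 0),
 (nat_lit 0), (5, 17, 9), [1083, 1131], 0⟩,
  ⟨⟨65, 24, -72, 4, 55, 48, -10, 40, -49⟩, (.cons (nat_lit 2208) (nat_lit 188) (nat_lit 1494) (nat_lit 1)
 (.cons (nat_lit 2808) (nat_lit 1079) (nat_lit 611) (nat_lit 1) .nil)), (nat_lit 50), (nat_lit 0), (nat_lit 0),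
 (nat_lit 0), (39, 45, 65), [1340, 1803], 0⟩,
  ⟨⟨9, -76, -20, 44, 15, -82, -42, -24, -25⟩, (.cons (nat_lit 703) (nat_lit 1413) (nat_lit 746) (nat_lit 1)
 (.cons (nat_lit 1413) (nat_lit 2807) (nat_lit 2503) (nat_lit 1) .nil)), (nat_lit 67), (nat_lit 0), (nat_lit
 0), (nat_lit 0), (1, 68, 19), [932, 2118], 0⟩,
  mz,
  ⟨⟨13, -72, 23, -70, -11, 40, 4, -44, -53⟩, (.cons (nat_lit 1904) (nat_lit 1251) (nat_lit 1795) (nat_lit 1)
 (.cons (nat_lit 2333) (nat_lit 2395) (nat_lit 2460) (nat_lit 1) .nil)), (nat_lit 62), (nat_lit 0), (nat_lit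
 0), (nat_lit 0), (14, 12, 48), [1315, 2683], 0⟩,
  ⟨⟨9, 16, 80, -10, 69, -10, 60, 12, -11⟩, (.cons (nat_lit 2192) (nat_lit 1707) (nat_lit 1272) (nat_lit 1)
 (.cons (nat_lit 502) (nat_lit 40) (nat_lit 2189) (nat_lit 1) .nil)), (nat_lit 47), (nat_lit 0), (nat_lit 0),
 (nat_lit 0), (58, 46, 8), [2099, 1318], 0⟩,
  ⟨⟨75, -20, -32, 10, 21, -80, 12, -60, -25⟩, (.cons (nat_lit 2208) (nat_lit 951) (nat_lit 1395) (nat_lit 1)
 (.cons (nat_lit 2808) (nat_lit 2706) (nat_lit 710) (nat_lit 1) .nil)), (nat_lit 55), (nat_lit 0), (nat_lit 0),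
 (nat_lit 0), (52, 59, 14), [106, 1682], 0⟩,
  mz,
  ⟨⟨-33, 68, -4, -50, -11, 80, -44, -4, -29⟩, (.cons (nat_lit 1903) (nat_lit 1596) (nat_lit 530) (nat_lit 1)
 (.cons (nat_lit 740) (nat_lit 651) (nat_lit 366) (nat_lit 1) .nil)), (nat_lit 68), (nat_lit 0), (nat_lit 0),
 (nat_lit 0), (43, 63, 10), [1033, 1919], 0⟩,
  ⟨⟨-75, -20, 43, 10, -21, 70, -12, -60, -13⟩, (.cons (nat_lit 805) (nat_lit 649) (nat_lit 735) (nat_lit 1)
 (.cons (nat_lit 1708) (nat_lit 1981) (nat_lit 989) (nat_lit 1) .nil)), (nat_lit 34), (nat_lit 0), (nat_lit 0),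
 (nat_lit 0), (2, 66, 6), [2165, 1678], 0⟩,
  mz,
  mz,
  mz,
  ⟨⟨11, 72, -36, 50, 11, 30, 44, 4, -73⟩, (.cons (nat_lit 773) (nat_lit 743) (nat_lit 927) (nat_lit 1) (.cons
 (nat_lit 1457) (nat_lit 365) (nat_lit 514) (nat_lit 1) .nil)), (nat_lit 64), (nat_lit 0), (nat_lit 0),
 (nat_lit 0), (4, 44, 16), [469, 2291], 0⟩,
  mz,
  ⟨⟨9, -28, -85, 70, 11, -30, -4, 44, -49⟩, (.cons (nat_lit 1730) (nat_lit 1470) (nat_lit 23) (nat_lit 1)
 (.cons (nat_lit 1094) (nat_lit 2242) (nat_lit 1580) (nat_lit 1) .nil)), (nat_lit 31), (nat_lit 0), (nat_lit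
 0), (nat_lit 0), (14, 30, 49), [201, 1914], 0⟩,
  ⟨⟨75, -16, -52, -4, -55, 52, 10, -40, -59⟩, (.cons (nat_lit 799) (nat_lit 484) (nat_lit 1253) (nat_lit 1)
 (.cons (nat_lit 201) (nat_lit 313) (nat_lit 509) (nat_lit 1) .nil)), (nat_lit 42), (nat_lit 0), (nat_lit 0),
 (nat_lit 0), (51, 20, 21), [1240, 562], 0⟩,
  mz,
  ⟨⟨33, 20, -92, 64, -15, -2, 6, -48, -49⟩, (.cons (nat_lit 151) (nat_lit 968) (nat_lit 924) (nat_lit 1) (.cons
 (nat_lit 771) (nat_lit 256) (nat_lit 2733) (nat_lit 1) .nil)), (nat_lit 12), (nat_lit 0), (nat_lit 0),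
 (nat_lit 0), (45, 55, 34), [1545, 718], 0⟩,
  ⟨⟨-9, -28, -76, 70, -11, -40, 4, 44, -53⟩, (.cons (nat_lit 1220) (nat_lit 1218) (nat_lit 637) (nat_lit 1)
 (.cons (nat_lit 2623) (nat_lit 299) (nat_lit 660) (nat_lit 1) .nil)), (nat_lit 57), (nat_lit 0), (nat_lit 0),
 (nat_lit 0), (8, 64, 28), [184, 1818], 0⟩,
  ⟨⟨-23, 72, 32, 64, 25, -52, -26, 32, -41⟩, (.cons (nat_lit 333) (nat_lit 1564) (nat_lit 1370) (nat_lit 1)
 (.cons (nat_lit 1577) (nat_lit 1636) (nat_lit 1081) (nat_lit 1) .nil)), (nat_lit 18), (nat_lit 0), (nat_lit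
 0), (nat_lit 0), (27, 36, 12), [685, 80], 0⟩,
  ⟨⟨37, -48, -73, -36, -55, 48, 54, -24, -1⟩, (.cons (nat_lit 317) (nat_lit 2122) (nat_lit 243) (nat_lit 1)
 (.cons (nat_lit 2077) (nat_lit 2542) (nat_lit 712) (nat_lit 1) .nil)), (nat_lit 16), (nat_lit 0), (nat_lit 0),
 (nat_lit 0), (11, 20, 41), [692, 1271], 0⟩]

/-- All the moves. -/
noncomputable def tabs : List (List (List Mv)) := [[[], t0_1, t0_2, t0_3, [], [], [], [], [], t0_9, [], [],
 t0_12, [], [], t0_15, [], [], t0_18, t0_19], [[], t1_1, t1_2, t1_3, [], [], [], [], [], t1_9, [], [], t1_12,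
 [], [], t1_15, [], [], t1_18, t1_19], [], [], [[], t4_1, t4_2, t4_3, [], [], [], [], [], t4_9, [], [], t4_12,
 [], [], t4_15, [], [], t4_18, t4_19]]

/-- Subtrie. -/
noncomputable def T1 : Tr := (.ev (nat_lit 20) (nat_lit 756379781992687079608) (.nd (nat_lit 33) (.br (nat_lit
 31) (.br (nat_lit 16) (.br (nat_lit 10) (.br (nat_lit 6) (.br (nat_lit 5) (.ch (nat_lit 4) (.ev (nat_lit 52)
 (nat_lit 332476008860739436544) (.ev (nat_lit 1140) (nat_lit 524288) (.ev (nat_lit 1172) (nat_lit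
 4611686018427387904) (.ev (nat_lit 2164) (nat_lit 1180591620717411303424) (.ev (nat_lit 2996) (nat_lit 65536)
 (.ev (nat_lit 3348) (nat_lit 562949953421312) (.nd (nat_lit 3680) (.br (nat_lit 15) (.br (nat_lit 8) (.br
 (nat_lit 6) (.br (nat_lit 5) (.ch (nat_lit 0) (.ev (nat_lit 3696) (nat_lit 1407443607224578) (.ev (nat_lit
 4256) (nat_lit 2048) (.ev (nat_lit 4269) (nat_lit 32768) .dd)))) (.ch (nat_lit 5) (.ev (nat_lit 3696) (nat_lit
 1407443607259138) (.ev (nat_lit 3709) (nat_lit 256) .dd)))) (.br (nat_lit 7) (.ch (nat_lit 6) (.ev (nat_lit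
 3696) (nat_lit 1125968630546690) (.ev (nat_lit 3732) (nat_lit 281474976710656) (.ev (nat_lit 3741) (nat_lit
 2048) .dd)))) (.ch (nat_lit 7) (.ev (nat_lit 3696) (nat_lit 1125968630548482) (.ev (nat_lit 3780) (nat_lit
 256) (.ev (nat_lit 3789) (nat_lit 281474976710656) .dd)))))) (.br (nat_lit 10) (.br (nat_lit 9) (.ch (nat_lit
 8) (.ev (nat_lit 3696) (nat_lit 281543700416770) (.ev (nat_lit 3709) (nat_lit 1125899906842624) .dd))) (.ch
 (nat_lit 9) (.ev (nat_lit 3696) (nat_lit 1125968630548738) (.ev (nat_lit 3709) (nat_lit 281474976710656)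
 .dd)))) (.br (nat_lit 11) (.ch (nat_lit 10) (.ev (nat_lit 3696) (nat_lit 1407443603062784) (.ev (nat_lit 3860)
 (nat_lit 2) (.ev (nat_lit 5012) (nat_lit 4194304) (.ev (nat_lit 5712) (nat_lit 256) (.ev (nat_lit 5725)
 (nat_lit 2048) .dd)))))) (.br (nat_lit 14) (.ch (nat_lit 11) (.ev (nat_lit 3696) (nat_lit 1407443607257344)
 (.ev (nat_lit 3828) (nat_lit 2048) (.ev (nat_lit 3837) (nat_lit 2) .dd)))) (.ch (nat_lit 14) (.ev (nat_lit
 3696) (nat_lit 281543700416514) (.ev (nat_lit 5012) (nat_lit 1125899906842624) (.ev (nat_lit 5021) (nat_lit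
 256) .dd)))))))) (.br (nat_lit 30) (.br (nat_lit 27) (.br (nat_lit 25) (.ch (nat_lit 15) (.ev (nat_lit 3696)
 (nat_lit 1125899911069954) (.ev (nat_lit 5700) (nat_lit 68719476736) (.ev (nat_lit 5728) (nat_lit
 281474976710656) (.ev (nat_lit 5741) (nat_lit 2048) .dd))))) (.ch (nat_lit 25) (.ev (nat_lit 3696) (nat_lit
 281543700414722) (.ev (nat_lit 5536) (nat_lit 1125899906842624) (.ev (nat_lit 5549) (nat_lit 2048) .dd)))))
 (.br (nat_lit 29) (.ch (nat_lit 27) (.ev (nat_lit 3696) (nat_lit 68719479040) (.ev (nat_lit 5012) (nat_lit 2)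
 (.ev (nat_lit 5172) (nat_lit 4194304) (.ev (nat_lit 5524) (nat_lit 281474976710656) (.ev (nat_lit 5700)
 (nat_lit 32768) (.ev (nat_lit 5709) (nat_lit 1125899906842624) .dd))))))) (.ch (nat_lit 29) (.ev (nat_lit
 3696) (nat_lit 1407374887782402) (.ev (nat_lit 5600) (nat_lit 68719476736) (.ev (nat_lit 5613) (nat_lit 256)
 .dd)))))) (.br (nat_lit 44) (.br (nat_lit 32) (.ch (nat_lit 30) (.ev (nat_lit 3696) (nat_lit 281474980940034)
 (.ev (nat_lit 3732) (nat_lit 1125899906842624) (.ev (nat_lit 3741) (nat_lit 68719476736) .dd)))) (.ch (nat_lit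
 32) (.ev (nat_lit 3696) (nat_lit 68719509506) (.ev (nat_lit 5216) (nat_lit 256) (.ev (nat_lit 5584) (nat_lit
 281474976710656) (.ev (nat_lit 5728) (nat_lit 1125899906842624) (.ev (nat_lit 5760) (nat_lit 2048) (.ev
 (nat_lit 5773) (nat_lit 4194304) .dd)))))))) (.br (nat_lit 45) (.ch (nat_lit 44) (.ev (nat_lit 3696) (nat_lit
 1407443607259392) (.ev (nat_lit 3709) (nat_lit 2) .dd))) (.br (nat_lit 46) (.ch (nat_lit 45) (.ev (nat_lit
 3696) (nat_lit 281474980937986) (.ev (nat_lit 3780) (nat_lit 68719476736) (.ev (nat_lit 5524) (nat_lit 2048)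
 (.ev (nat_lit 5533) (nat_lit 1125899906842624) .dd))))) (.ch (nat_lit 46) (.ev (nat_lit 3696) (nat_lit
 1125968630548482) (.ev (nat_lit 4532) (nat_lit 256) (.ev (nat_lit 4541) (nat_lit 281474976710656)
 .dd))))))))))))))))) (.ch (nat_lit 5) (.ev (nat_lit 52) (nat_lit 37038448320918421506) (.ev (nat_lit 436)
 (nat_lit 2251799813685248) (.ev (nat_lit 596) (nat_lit 1125899906842624) (.ev (nat_lit 1728) (nat_lit
 1480639459969500449024) .dd)))))) (.br (nat_lit 9) (.ch (nat_lit 6) (.ev (nat_lit 52) (nat_lit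
 1181023966910851614722) (.ev (nat_lit 372) (nat_lit 1125899906842624) (.ev (nat_lit 820) (nat_lit
 4611686018427387904) (.ev (nat_lit 1716) (nat_lit 562949953421312) (.ev (nat_lit 1908) (nat_lit
 281474976710656) (.ev (nat_lit 2068) (nat_lit 295147905179352825856) (.ev (nat_lit 2932) (nat_lit 4194304)
 (.ev (nat_lit 3124) (nat_lit 17592186044416) (.nd (nat_lit 3680) (.br (nat_lit 29) (.br (nat_lit 14) (.br
 (nat_lit 5) (.ch (nat_lit 1) (.ev (nat_lit 3696) (nat_lit 36895739947300487424) (.ev (nat_lit 3709) (nat_lit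
 17179869184) .dd))) (.br (nat_lit 8) (.ch (nat_lit 5) (.ev (nat_lit 3696) (nat_lit 2251816994144256) (.ev
 (nat_lit 3780) (nat_lit 67108864) (.ev (nat_lit 5280) (nat_lit 256) (.ev (nat_lit 5293) (nat_lit
 36893488147419103232) .dd))))) (.ch (nat_lit 8) (.ev (nat_lit 3696) (nat_lit 2251816994144512) (.ev (nat_lit
 3732) (nat_lit 67108864) (.ev (nat_lit 3741) (nat_lit 36893488147419103232) .dd)))))) (.br (nat_lit 17) (.br
 (nat_lit 15) (.ch (nat_lit 14) (.ev (nat_lit 3696) (nat_lit 2251816994078720) (.ev (nat_lit 3780) (nat_lit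
 36893488147419103232) (.ev (nat_lit 3956) (nat_lit 256) (.ev (nat_lit 3968) (nat_lit 67108864) (.ev (nat_lit
 3981) (nat_lit 65536) .dd)))))) (.ch (nat_lit 15) (.ev (nat_lit 3696) (nat_lit 17247567872) (.ev (nat_lit
 3732) (nat_lit 256) (.ev (nat_lit 5712) (nat_lit 36893488147419103232) (.ev (nat_lit 5725) (nat_lit
 2251799813685248) .dd)))))) (.br (nat_lit 20) (.ch (nat_lit 17) (.ev (nat_lit 3696) (nat_lit
 36895739964479832320) (.ev (nat_lit 3709) (nat_lit 524288) .dd))) (.ch (nat_lit 20) (.ev (nat_lit 3696)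
 (nat_lit 36893488164666671360) (.ev (nat_lit 3709) (nat_lit 2251799813685248) .dd)))))) (.br (nat_lit 38) (.br
 (nat_lit 32) (.br (nat_lit 31) (.ch (nat_lit 29) (.ev (nat_lit 3696) (nat_lit 36895739964479832320) (.ev
 (nat_lit 3709) (nat_lit 524288) .dd))) (.ch (nat_lit 31) (.ev (nat_lit 3696) (nat_lit 36895739947299963136)
 (.ev (nat_lit 5616) (nat_lit 524288) (.ev (nat_lit 5629) (nat_lit 17179869184) .dd))))) (.br (nat_lit 36) (.ch
 (nat_lit 32) (.ev (nat_lit 3696) (nat_lit 36895739964413247744) (.ev (nat_lit 3709) (nat_lit 67108864) .dd)))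
 (.ch (nat_lit 36) (.ev (nat_lit 3696) (nat_lit 17247568128) (.ev (nat_lit 3712) (nat_lit 2251799813685248)
 (.ev (nat_lit 3725) (nat_lit 36893488147419103232) .dd)))))) (.br (nat_lit 41) (.br (nat_lit 40) (.ch (nat_lit
 38) (.ev (nat_lit 3696) (nat_lit 36895739964413247744) (.ev (nat_lit 3709) (nat_lit 67108864) .dd))) (.ch
 (nat_lit 40) (.ev (nat_lit 3696) (nat_lit 17247567872) (.ev (nat_lit 3732) (nat_lit 256) (.ev (nat_lit 5104)
 (nat_lit 36893488147419103232) (.ev (nat_lit 5117) (nat_lit 2251799813685248) .dd)))))) (.br (nat_lit 42) (.ch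
 (nat_lit 41) (.ev (nat_lit 3696) (nat_lit 36895739964480356608) .dd)) (.ch (nat_lit 42) (.ev (nat_lit 3696)
 (nat_lit 2251817061253376) (.ev (nat_lit 3709) (nat_lit 36893488147419103232) .dd))))))))))))))))) (.ch
 (nat_lit 9) (.ev (nat_lit 52) (nat_lit 4757490676990509056) (.ev (nat_lit 244) (nat_lit 8589934592) (.ev
 (nat_lit 948) (nat_lit 281474976710656) (.ev (nat_lit 980) (nat_lit 2251799813685248) (.ev (nat_lit 1140)
 (nat_lit 17179869184) (.ev (nat_lit 2324) (nat_lit 524288) (.ev (nat_lit 2772) (nat_lit 288230376151711744)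
 (.ev (nat_lit 3092) (nat_lit 2) (.ev (nat_lit 3252) (nat_lit 65536) (.ev (nat_lit 3508) (nat_lit
 1180591620717411303424) (.nd (nat_lit 3680) (.br (nat_lit 25) (.br (nat_lit 9) (.br (nat_lit 6) (.br (nat_lit
 5) (.ch (nat_lit 0) (.ev (nat_lit 3696) (nat_lit 332041410919025082624) (.ev (nat_lit 3709) (nat_lit 2048)
 .dd))) (.ch (nat_lit 5) (.ev (nat_lit 3696) (nat_lit 332041410918957975552) (.ev (nat_lit 5524) (nat_lit 256)
 (.ev (nat_lit 5533) (nat_lit 67108864) .dd))))) (.br (nat_lit 8) (.ch (nat_lit 6) (.ev (nat_lit 3696) (nat_lit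
 295147922771605981440) (.ev (nat_lit 3709) (nat_lit 36893488147419103232) .dd))) (.ch (nat_lit 8) (.ev
 (nat_lit 3696) (nat_lit 332041410918957975808) (.ev (nat_lit 3709) (nat_lit 67108864) .dd))))) (.br (nat_lit
 15) (.br (nat_lit 10) (.ch (nat_lit 9) (.ev (nat_lit 3696) (nat_lit 36893488147419105536) (.ev (nat_lit 5012)
 (nat_lit 17592186044416) (.ev (nat_lit 5792) (nat_lit 295147905179352825856) (.ev (nat_lit 5805) (nat_lit
 67108864) .dd))))) (.ch (nat_lit 10) (.ev (nat_lit 3696) (nat_lit 332041410919025082624) (.ev (nat_lit 3709)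
 (nat_lit 2048) .dd)))) (.br (nat_lit 17) (.ch (nat_lit 15) (.ev (nat_lit 3696) (nat_lit 332041393326839038208)
 (.ev (nat_lit 3808) (nat_lit 2048) (.ev (nat_lit 3821) (nat_lit 17592186044416) .dd)))) (.br (nat_lit 19) (.ch
 (nat_lit 17) (.ev (nat_lit 3696) (nat_lit 332041410919025084672) .dd)) (.ch (nat_lit 19) (.ev (nat_lit 3696)
 (nat_lit 332041410919025084416) (.ev (nat_lit 3709) (nat_lit 256) .dd))))))) (.br (nat_lit 32) (.br (nat_lit
 29) (.br (nat_lit 27) (.ch (nat_lit 25) (.ev (nat_lit 3696) (nat_lit 17592253153280) (.ev (nat_lit 3828)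
 (nat_lit 295147905179352825856) (.ev (nat_lit 5524) (nat_lit 36893488147419105280) (.ev (nat_lit 5533)
 (nat_lit 256) .dd))))) (.ch (nat_lit 27) (.ev (nat_lit 3696) (nat_lit 332041393326839037952) (.ev (nat_lit
 5412) (nat_lit 2048) (.ev (nat_lit 5472) (nat_lit 256) (.ev (nat_lit 5485) (nat_lit 17592186044416) .dd))))))
 (.br (nat_lit 30) (.ch (nat_lit 29) (.ev (nat_lit 3696) (nat_lit 36893488147486214144) (.ev (nat_lit 4052)
 (nat_lit 256) (.ev (nat_lit 5552) (nat_lit 295147905179352825856) (.ev (nat_lit 5565) (nat_lit 17592186044416)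
 .dd))))) (.ch (nat_lit 30) (.ev (nat_lit 3696) (nat_lit 17592253155584) (.ev (nat_lit 3780) (nat_lit
 36893488147419103232) (.ev (nat_lit 3789) (nat_lit 295147905179352825856) .dd)))))) (.br (nat_lit 40) (.br
 (nat_lit 36) (.ch (nat_lit 32) (.ev (nat_lit 3696) (nat_lit 332041393326839040256) (.ev (nat_lit 3709)
 (nat_lit 17592186044416) .dd))) (.ch (nat_lit 36) (.ev (nat_lit 3696) (nat_lit 332041410919025084416) (.ev
 (nat_lit 3709) (nat_lit 256) .dd)))) (.br (nat_lit 42) (.ch (nat_lit 40) (.ev (nat_lit 3696) (nat_lit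
 332041410919025084672) .dd)) (.br (nat_lit 46) (.ch (nat_lit 42) (.ev (nat_lit 3696) (nat_lit
 332041410919025082624) (.ev (nat_lit 3709) (nat_lit 2048) .dd))) (.ch (nat_lit 46) (.ev (nat_lit 3696)
 (nat_lit 332041410918957975552) (.ev (nat_lit 3732) (nat_lit 256) (.ev (nat_lit 3741) (nat_lit 67108864)
 .dd))))))))))))))))))))))) (.br (nat_lit 12) (.br (nat_lit 11) (.ch (nat_lit 10) (.ev (nat_lit 52) (nat_lit
 299762406583202545920) (.ev (nat_lit 436) (nat_lit 144115188075855872) (.ev (nat_lit 468) (nat_lit 4194304)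
 (.ev (nat_lit 1044) (nat_lit 36893488147419103232) (.ev (nat_lit 1300) (nat_lit 2147483648) (.ev (nat_lit
 2196) (nat_lit 288230376151711744) (.ev (nat_lit 3540) (nat_lit 67108864) (.nd (nat_lit 3680) (.br (nat_lit
 27) (.br (nat_lit 9) (.br (nat_lit 7) (.br (nat_lit 1) (.ch (nat_lit 0) (.ev (nat_lit 3696) (nat_lit
 1180593045684481458176) (.ev (nat_lit 3780) (nat_lit 8589934592) (.ev (nat_lit 3860) (nat_lit 2) (.ev (nat_lit
 3869) (nat_lit 2048) .dd))))) (.ch (nat_lit 1) (.ev (nat_lit 3696) (nat_lit 1180592764218094684160) (.ev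
 (nat_lit 3828) (nat_lit 281474976710656) (.ev (nat_lit 3837) (nat_lit 2) .dd))))) (.br (nat_lit 8) (.ch
 (nat_lit 7) (.ev (nat_lit 3696) (nat_lit 1180592764218094684162) (.ev (nat_lit 3709) (nat_lit 281474976710656)
 .dd))) (.ch (nat_lit 8) (.ev (nat_lit 3696) (nat_lit 1180591902200978507778) (.ev (nat_lit 5700) (nat_lit
 17592186044416) (.ev (nat_lit 5709) (nat_lit 1125899906842624) .dd)))))) (.br (nat_lit 17) (.br (nat_lit 14)
 (.ch (nat_lit 9) (.ev (nat_lit 3696) (nat_lit 1424967070156802) (.ev (nat_lit 5524) (nat_lit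
 1180591620717411303424) (.ev (nat_lit 5533) (nat_lit 8589934592) .dd)))) (.ch (nat_lit 14) (.ev (nat_lit 3696)
 (nat_lit 1407383474014208) (.ev (nat_lit 3732) (nat_lit 2) (.ev (nat_lit 4016) (nat_lit
 1180591620717411303424) (.ev (nat_lit 5552) (nat_lit 17592186044416) (.ev (nat_lit 5565) (nat_lit 32768)
 .dd))))))) (.br (nat_lit 20) (.ch (nat_lit 17) (.ev (nat_lit 3696) (nat_lit 1180592764218094684162) (.ev
 (nat_lit 3709) (nat_lit 281474976710656) .dd))) (.br (nat_lit 25) (.ch (nat_lit 20) (.ev (nat_lit 3696)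
 (nat_lit 1180592764209504749570) (.ev (nat_lit 4896) (nat_lit 8589934592) (.ev (nat_lit 4909) (nat_lit
 281474976710656) .dd)))) (.ch (nat_lit 25) (.ev (nat_lit 3696) (nat_lit 1180592764218094684162) (.ev (nat_lit
 3709) (nat_lit 281474976710656) .dd))))))) (.br (nat_lit 36) (.br (nat_lit 31) (.br (nat_lit 30) (.ch (nat_lit
 27) (.ev (nat_lit 3696) (nat_lit 1125908497301506) (.ev (nat_lit 4406) (nat_lit 1180591919784574093312) .dd)))
 (.ch (nat_lit 30) (.ev (nat_lit 3696) (nat_lit 1180591902200978507778) (.ev (nat_lit 3780) (nat_lit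
 1125899906842624) (.ev (nat_lit 3789) (nat_lit 17592186044416) .dd))))) (.br (nat_lit 35) (.ch (nat_lit 31)
 (.ev (nat_lit 3696) (nat_lit 1180593045693071362048) (.ev (nat_lit 4964) (nat_lit 32768) (.ev (nat_lit 4973)
 (nat_lit 2) .dd)))) (.ch (nat_lit 35) (.ev (nat_lit 3696) (nat_lit 1180593045693070837762) (.ev (nat_lit 5584)
 (nat_lit 524288) (.ev (nat_lit 5597) (nat_lit 32768) .dd)))))) (.br (nat_lit 41) (.br (nat_lit 38) (.ch
 (nat_lit 36) (.ev (nat_lit 3696) (nat_lit 1180593045684481460226) (.ev (nat_lit 3709) (nat_lit 8589934592)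
 .dd))) (.ch (nat_lit 38) (.ev (nat_lit 3696) (nat_lit 1424967070124034) (.ev (nat_lit 3860) (nat_lit
 1180591620717411303424) (.ev (nat_lit 5728) (nat_lit 32768) (.ev (nat_lit 5741) (nat_lit 8589934592) .dd))))))
 (.br (nat_lit 42) (.ch (nat_lit 41) (.ev (nat_lit 3696) (nat_lit 1424975659567106) (.ev (nat_lit 3840)
 (nat_lit 524288) (.ev (nat_lit 3853) (nat_lit 1180591620717411303424) .dd)))) (.br (nat_lit 45) (.ch (nat_lit
 42) (.ev (nat_lit 3696) (nat_lit 1180592764218094684162) (.ev (nat_lit 3709) (nat_lit 281474976710656) .dd)))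
 (.ch (nat_lit 45) (.ev (nat_lit 3696) (nat_lit 1180591919784574615554) (.ev (nat_lit 5268) (nat_lit 2048) (.ev
 (nat_lit 5412) (nat_lit 1125899906842624) (.ev (nat_lit 5421) (nat_lit 8589934592) .dd))))))))))))))))))) (.ch
 (nat_lit 11) (.ev (nat_lit 52) (nat_lit 332186089125707319298) (.ev (nat_lit 884) (nat_lit 549755813888) (.ev
 (nat_lit 1408) (nat_lit 1185495196314676265216) .dd))))) (.br (nat_lit 15) (.ch (nat_lit 12) (.ev (nat_lit 52)
 (nat_lit 1185207247462822052098) (.ev (nat_lit 800) (nat_lit 332474038527317346304) .dd))) (.ch (nat_lit 15)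
 (.ev (nat_lit 52) (nat_lit 300049510509696289024) (.ev (nat_lit 1492) (nat_lit 2251799813685248) (.ev (nat_lit
 2164) (nat_lit 17592186044416) (.ev (nat_lit 2708) (nat_lit 2147483648) (.ev (nat_lit 3060) (nat_lit
 1180591620717411303424) (.nd (nat_lit 3680) (.br (nat_lit 25) (.br (nat_lit 14) (.br (nat_lit 6) (.br (nat_lit
 1) (.ch (nat_lit 0) (.ev (nat_lit 3696) (nat_lit 37037885360294658048) (.ev (nat_lit 3780) (nat_lit 2) (.ev
 (nat_lit 3789) (nat_lit 8589934592) .dd)))) (.ch (nat_lit 1) (.ev (nat_lit 3696) (nat_lit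
 37037603344152002560) (.ev (nat_lit 5280) (nat_lit 2) (.ev (nat_lit 5524) (nat_lit 549755813888) (.ev (nat_lit
 5856) (nat_lit 281474976776192) .dd)))))) (.br (nat_lit 9) (.ch (nat_lit 6) (.ev (nat_lit 3696) (nat_lit
 549822988288) (.ev (nat_lit 3732) (nat_lit 281474976710656) (.ev (nat_lit 5456) (nat_lit 144115188075855872)
 (.ev (nat_lit 5524) (nat_lit 36893488147419103232) (.ev (nat_lit 5840) (nat_lit 8589934594) .dd)))))) (.ch
 (nat_lit 9) (.ev (nat_lit 3696) (nat_lit 37037603344084893698) (.ev (nat_lit 3780) (nat_lit 65536) (.ev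
 (nat_lit 4784) (nat_lit 549755813888) (.ev (nat_lit 5744) (nat_lit 281475043819520) .dd))))))) (.br (nat_lit
 17) (.br (nat_lit 15) (.ch (nat_lit 14) (.ev (nat_lit 3696) (nat_lit 144397221398380544) (.ev (nat_lit 4852)
 (nat_lit 67108864) (.ev (nat_lit 5536) (nat_lit 36893488147419103232) (.ev (nat_lit 5549) (nat_lit 2) .dd)))))
 (.ch (nat_lit 15) (.ev (nat_lit 3696) (nat_lit 37037603335562133506) (.ev (nat_lit 3732) (nat_lit
 281474976710656) (.ev (nat_lit 5700) (nat_lit 8589934592) (.ev (nat_lit 5709) (nat_lit 549755813888) .dd))))))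
 (.br (nat_lit 20) (.ch (nat_lit 17) (.ev (nat_lit 3696) (nat_lit 37037603893907881986) (.ev (nat_lit 3709)
 (nat_lit 281474976710656) .dd))) (.ch (nat_lit 20) (.ev (nat_lit 3696) (nat_lit 37037885360294658050) (.ev
 (nat_lit 3709) (nat_lit 8589934592) .dd)))))) (.br (nat_lit 40) (.br (nat_lit 32) (.br (nat_lit 29) (.ch
 (nat_lit 25) (.ev (nat_lit 3696) (nat_lit 144397221465423874) (.ev (nat_lit 3732) (nat_lit 65536) (.ev
 (nat_lit 3741) (nat_lit 36893488147419103232) .dd)))) (.ch (nat_lit 29) (.ev (nat_lit 3696) (nat_lit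
 37037885368884527106) (.ev (nat_lit 3709) (nat_lit 65536) .dd)))) (.br (nat_lit 35) (.ch (nat_lit 32) (.ev
 (nat_lit 3696) (nat_lit 558345814018) (.ev (nat_lit 3732) (nat_lit 281474976710656) (.ev (nat_lit 3780)
 (nat_lit 67108864) (.ev (nat_lit 3860) (nat_lit 144115188075855872) (.ev (nat_lit 3869) (nat_lit
 36893488147419103232) .dd)))))) (.ch (nat_lit 35) (.ev (nat_lit 3696) (nat_lit 37037884810538778626) (.ev
 (nat_lit 3732) (nat_lit 8589934592) (.ev (nat_lit 4820) (nat_lit 549755813888) (.ev (nat_lit 4829) (nat_lit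
 65536) .dd))))))) (.br (nat_lit 44) (.br (nat_lit 42) (.ch (nat_lit 40) (.ev (nat_lit 3696) (nat_lit
 144115746421604354) (.ev (nat_lit 3828) (nat_lit 281474976710656) (.ev (nat_lit 5456) (nat_lit
 36893488147419103232) (.ev (nat_lit 5700) (nat_lit 67108864) (.ev (nat_lit 5709) (nat_lit 65536) .dd))))))
 (.ch (nat_lit 42) (.ev (nat_lit 3696) (nat_lit 36893770172218802178) (.ev (nat_lit 3792) (nat_lit
 144115188075855872) (.ev (nat_lit 3805) (nat_lit 8589934592) .dd))))) (.br (nat_lit 46) (.ch (nat_lit 44) (.ev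
 (nat_lit 3696) (nat_lit 37037884819128778752) (.ev (nat_lit 3732) (nat_lit 549755813888) (.ev (nat_lit 3741)
 (nat_lit 2) .dd)))) (.ch (nat_lit 46) (.ev (nat_lit 3696) (nat_lit 37037885368817418242) (.ev (nat_lit 3732)
 (nat_lit 65536) (.ev (nat_lit 3741) (nat_lit 67108864) .dd)))))))))))))))))) (.br (nat_lit 22) (.br (nat_lit
 18) (.br (nat_lit 17) (.ch (nat_lit 16) (.ev (nat_lit 52) (nat_lit 1217920849723179730944) (.ev (nat_lit 244)
 (nat_lit 562949953421312) (.ev (nat_lit 340) (nat_lit 4194304) (.ev (nat_lit 628) (nat_lit 256) (.ev (nat_lit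
 724) (nat_lit 281474976710656) (.ev (nat_lit 1972) (nat_lit 549755813888) (.ev (nat_lit 2132) (nat_lit
 17179869184) (.nd (nat_lit 3680) (.br (nat_lit 19) (.br (nat_lit 7) (.br (nat_lit 5) (.br (nat_lit 1) (.ch
 (nat_lit 0) (.ev (nat_lit 3696) (nat_lit 299759591206370148354) (.ev (nat_lit 3860) (nat_lit 68719476736) (.ev
 (nat_lit 3869) (nat_lit 32768) .dd)))) (.ch (nat_lit 1) (.ev (nat_lit 3696) (nat_lit 299759591275089657856)
 (.ev (nat_lit 3709) (nat_lit 2) .dd)))) (.br (nat_lit 6) (.ch (nat_lit 5) (.ev (nat_lit 3696) (nat_lit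
 77309444098) (.ev (nat_lit 6070) (nat_lit 299759591197780213760) .dd))) (.ch (nat_lit 6) (.ev (nat_lit 3696)
 (nat_lit 299759591275089657856) (.ev (nat_lit 3709) (nat_lit 2) .dd))))) (.br (nat_lit 9) (.br (nat_lit 8)
 (.ch (nat_lit 7) (.ev (nat_lit 3696) (nat_lit 4611686095736832002) (.ev (nat_lit 3709) (nat_lit
 295147905179352825856) .dd))) (.ch (nat_lit 8) (.ev (nat_lit 3696) (nat_lit 295147905256662269954) (.ev
 (nat_lit 3709) (nat_lit 4611686018427387904) .dd)))) (.br (nat_lit 10) (.ch (nat_lit 9) (.ev (nat_lit 3696)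
 (nat_lit 4611686087146897410) (.ev (nat_lit 3732) (nat_lit 8589934592) (.ev (nat_lit 3741) (nat_lit
 295147905179352825856) .dd)))) (.br (nat_lit 11) (.ch (nat_lit 10) (.ev (nat_lit 3696) (nat_lit
 4611686095736832000) (.ev (nat_lit 3860) (nat_lit 295147905179352825856) (.ev (nat_lit 3869) (nat_lit 2)
 .dd)))) (.ch (nat_lit 11) (.ev (nat_lit 3696) (nat_lit 295147905256662269952) (.ev (nat_lit 3780) (nat_lit
 4611686018427387904) (.ev (nat_lit 3789) (nat_lit 2) .dd)))))))) (.br (nat_lit 32) (.br (nat_lit 25) (.br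
 (nat_lit 20) (.ch (nat_lit 19) (.ev (nat_lit 3696) (nat_lit 299759591275089625090) (.ev (nat_lit 3709)
 (nat_lit 32768) .dd))) (.ch (nat_lit 20) (.ev (nat_lit 3696) (nat_lit 299759591266499690498) (.ev (nat_lit
 3780) (nat_lit 32768) (.ev (nat_lit 3789) (nat_lit 8589934592) .dd))))) (.br (nat_lit 31) (.ch (nat_lit 25)
 (.ev (nat_lit 3696) (nat_lit 4611686095736799234) (.ev (nat_lit 3732) (nat_lit 32768) (.ev (nat_lit 3741)
 (nat_lit 295147905179352825856) .dd)))) (.ch (nat_lit 31) (.ev (nat_lit 3696) (nat_lit 299759591275089625090)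
 (.ev (nat_lit 3709) (nat_lit 32768) .dd))))) (.br (nat_lit 36) (.br (nat_lit 35) (.ch (nat_lit 32) (.ev
 (nat_lit 3696) (nat_lit 299759591266499723266) (.ev (nat_lit 3709) (nat_lit 8589934592) .dd))) (.ch (nat_lit
 35) (.ev (nat_lit 3696) (nat_lit 295147905256662237186) (.ev (nat_lit 3780) (nat_lit 4611686018427387904) (.ev
 (nat_lit 3789) (nat_lit 32768) .dd))))) (.br (nat_lit 40) (.ch (nat_lit 36) (.ev (nat_lit 3696) (nat_lit
 295147905256662237186) (.ev (nat_lit 3828) (nat_lit 32768) (.ev (nat_lit 3837) (nat_lit 4611686018427387904)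
 .dd)))) (.br (nat_lit 41) (.ch (nat_lit 40) (.ev (nat_lit 3696) (nat_lit 299759591275089657858) .dd)) (.ch
 (nat_lit 41) (.ev (nat_lit 3696) (nat_lit 299759591206370181120) (.ev (nat_lit 5424) (nat_lit 2) (.ev (nat_lit
 5437) (nat_lit 68719476736) .dd)))))))))))))))))) (.ch (nat_lit 17) (.ev (nat_lit 52) (nat_lit
 1222097938392598282242) (.ev (nat_lit 1236) (nat_lit 2147483648) (.ev (nat_lit 1332) (nat_lit
 144115188075855872) (.ev (nat_lit 1588) (nat_lit 2048) (.ev (nat_lit 2004) (nat_lit 562949953421312) (.ev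
 (nat_lit 2292) (nat_lit 549755813888) (.ev (nat_lit 2848) (nat_lit 295438668907608539392) .dd))))))))) (.br
 (nat_lit 21) (.ch (nat_lit 18) (.ev (nat_lit 52) (nat_lit 1222385324328787478784) (.ev (nat_lit 1428) (nat_lit
 295147905179352825856) (.ev (nat_lit 2496) (nat_lit 148056481999093762) .dd)))) (.ch (nat_lit 21) (.ev
 (nat_lit 52) (nat_lit 1475887036396074500352) (.ev (nat_lit 468) (nat_lit 36893488147419103232) (.ev (nat_lit
 1332) (nat_lit 67108864) (.ev (nat_lit 1748) (nat_lit 4611686018427387904) (.ev (nat_lit 1780) (nat_lit 2048)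
 (.ev (nat_lit 1940) (nat_lit 68719476736) (.nd (nat_lit 3680) (.br (nat_lit 25) (.br (nat_lit 9) (.br (nat_lit
 7) (.br (nat_lit 6) (.ch (nat_lit 5) (.ev (nat_lit 3696) (nat_lit 289075359427624960) (.ev (nat_lit 3780)
 (nat_lit 2) (.ev (nat_lit 3789) (nat_lit 4194304) .dd)))) (.ch (nat_lit 6) (.ev (nat_lit 3696) (nat_lit
 289075350841884672) (.ev (nat_lit 3744) (nat_lit 8589934592) (.ev (nat_lit 3757) (nat_lit 2) .dd))))) (.br
 (nat_lit 8) (.ch (nat_lit 7) (.ev (nat_lit 3696) (nat_lit 558349975554) (.ev (nat_lit 5412) (nat_lit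
 288230376151711744) (.ev (nat_lit 5700) (nat_lit 281474976710656) (.ev (nat_lit 5709) (nat_lit
 562949953421312) .dd))))) (.ch (nat_lit 8) (.ev (nat_lit 3696) (nat_lit 288511859722584066) (.ev (nat_lit
 3780) (nat_lit 549755813888) (.ev (nat_lit 3789) (nat_lit 562949953421312) .dd)))))) (.br (nat_lit 14) (.br
 (nat_lit 11) (.ch (nat_lit 9) (.ev (nat_lit 3696) (nat_lit 288793884455108610) (.ev (nat_lit 3709) (nat_lit
 281474976710656) .dd))) (.ch (nat_lit 11) (.ev (nat_lit 3696) (nat_lit 289075359431819266) .dd))) (.br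
 (nat_lit 17) (.ch (nat_lit 14) (.ev (nat_lit 3696) (nat_lit 289075359431786498) (.ev (nat_lit 3709) (nat_lit
 32768) .dd))) (.br (nat_lit 20) (.ch (nat_lit 17) (.ev (nat_lit 3696) (nat_lit 288230934497492994) (.ev
 (nat_lit 5524) (nat_lit 4194304) (.ev (nat_lit 5760) (nat_lit 562949953421312) (.ev (nat_lit 5773) (nat_lit
 281474976710656) .dd))))) (.ch (nat_lit 20) (.ev (nat_lit 3696) (nat_lit 288512409478365186) (.ev (nat_lit
 3780) (nat_lit 562949953421312) (.ev (nat_lit 3789) (nat_lit 32768) .dd)))))))) (.br (nat_lit 31) (.br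
 (nat_lit 29) (.br (nat_lit 27) (.ch (nat_lit 25) (.ev (nat_lit 3696) (nat_lit 288793884455075842) (.ev
 (nat_lit 5184) (nat_lit 32768) (.ev (nat_lit 5197) (nat_lit 281474976710656) .dd)))) (.ch (nat_lit 27) (.ev
 (nat_lit 3696) (nat_lit 288793884450914304) (.ev (nat_lit 3892) (nat_lit 4194304) (.ev (nat_lit 4212) (nat_lit
 281474976710656) (.ev (nat_lit 4221) (nat_lit 2) .dd)))))) (.br (nat_lit 30) (.ch (nat_lit 29) (.ev (nat_lit
 3696) (nat_lit 289075359431819264) (.ev (nat_lit 3709) (nat_lit 2) .dd))) (.ch (nat_lit 30) (.ev (nat_lit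
 3696) (nat_lit 288511851132649474) (.ev (nat_lit 5376) (nat_lit 549755813888) (.ev (nat_lit 5412) (nat_lit
 562949953421312) (.ev (nat_lit 5421) (nat_lit 8589934592) .dd))))))) (.br (nat_lit 36) (.br (nat_lit 32) (.ch
 (nat_lit 31) (.ev (nat_lit 3696) (nat_lit 282033326686208) (.ev (nat_lit 3732) (nat_lit 288230376151711744)
 (.ev (nat_lit 4244) (nat_lit 2) (.ev (nat_lit 4253) (nat_lit 562949953421312) .dd))))) (.ch (nat_lit 32) (.ev
 (nat_lit 3696) (nat_lit 288512409474170882) (.ev (nat_lit 3732) (nat_lit 32768) (.ev (nat_lit 5808) (nat_lit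
 4194304) (.ev (nat_lit 5821) (nat_lit 562949953421312) .dd)))))) (.br (nat_lit 42) (.ch (nat_lit 36) (.ev
 (nat_lit 3696) (nat_lit 844983275913218) (.ev (nat_lit 4596) (nat_lit 288230376151711744) (.ev (nat_lit 4605)
 (nat_lit 4194304) .dd)))) (.br (nat_lit 45) (.ch (nat_lit 42) (.ev (nat_lit 3696) (nat_lit 288793326109327362)
 (.ev (nat_lit 3892) (nat_lit 32768) (.ev (nat_lit 4132) (nat_lit 549755813888) (.ev (nat_lit 5700) (nat_lit
 281474976710656) (.ev (nat_lit 5709) (nat_lit 8589934592) .dd)))))) (.ch (nat_lit 45) (.ev (nat_lit 3696)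
 (nat_lit 289074801081876482) (.ev (nat_lit 3780) (nat_lit 4194304) (.ev (nat_lit 4544) (nat_lit 549755813888)
 (.ev (nat_lit 4557) (nat_lit 8589934592) .dd)))))))))))))))))))) (.br (nat_lit 26) (.br (nat_lit 24) (.ch
 (nat_lit 22) (.ev (nat_lit 52) (nat_lit 1480497860996600267008) (.ev (nat_lit 564) (nat_lit 8589934592) (.ev
 (nat_lit 1108) (nat_lit 36893488147423297536) (.ev (nat_lit 1684) (nat_lit 17592186044416) (.ev (nat_lit 2132)
 (nat_lit 2048) (.ev (nat_lit 2452) (nat_lit 17179869184) (.ev (nat_lit 2548) (nat_lit 1125899906842624) (.ev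
 (nat_lit 3648) (nat_lit 288793328253140994) .dd))))))))) (.ch (nat_lit 24) (.ev (nat_lit 52) (nat_lit
 332186089632517097730) (.ev (nat_lit 1044) (nat_lit 1125899906842624) (.ev (nat_lit 2356) (nat_lit 67108864)
 (.ev (nat_lit 2676) (nat_lit 288230376151711744) (.ev (nat_lit 3232) (nat_lit 1185205840081496637440)
 .dd))))))) (.br (nat_lit 28) (.ch (nat_lit 26) (.ev (nat_lit 52) (nat_lit 336654222931781517568) (.ev (nat_lit
 532) (nat_lit 549755813888) (.ev (nat_lit 596) (nat_lit 4194304) (.ev (nat_lit 820) (nat_lit 65536) (.ev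
 (nat_lit 1140) (nat_lit 2048) (.ev (nat_lit 1524) (nat_lit 1180591620717411303424) (.ev (nat_lit 1556)
 (nat_lit 524288) (.ev (nat_lit 1812) (nat_lit 281474976710656) (.ev (nat_lit 3552) (nat_lit
 435160316209266690) .dd)))))))))) (.br (nat_lit 29) (.ch (nat_lit 28) (.ev (nat_lit 52) (nat_lit
 1180880695544263477504) (.ev (nat_lit 276) (nat_lit 67108864) (.ev (nat_lit 308) (nat_lit
 36893488147419103232) (.ev (nat_lit 340) (nat_lit 1125899906842624) (.ev (nat_lit 1012) (nat_lit 549755813888)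
 (.ev (nat_lit 1076) (nat_lit 144115188075855872) (.ev (nat_lit 1748) (nat_lit 295147905179352825856) (.ev
 (nat_lit 2580) (nat_lit 4194304) (.ev (nat_lit 2976) (nat_lit 4613955481294176258) .dd)))))))))) (.ch (nat_lit
 29) (.ev (nat_lit 52) (nat_lit 300052043775959629824) (.ev (nat_lit 244) (nat_lit 32768) (.ev (nat_lit 372)
 (nat_lit 36893488147419103232) (.ev (nat_lit 1524) (nat_lit 17592186044416) (.ev (nat_lit 1780) (nat_lit
 17179869184) (.ev (nat_lit 3124) (nat_lit 1180591620717411303424) (.ev (nat_lit 3572) (nat_lit 2) (.nd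
 (nat_lit 3680) (.br (nat_lit 17) (.br (nat_lit 11) (.br (nat_lit 7) (.ch (nat_lit 1) (.ev (nat_lit 3696)
 (nat_lit 144115739983347968) (.ev (nat_lit 3780) (nat_lit 2048) (.ev (nat_lit 3789) (nat_lit 65536) .dd))))
 (.br (nat_lit 9) (.ch (nat_lit 7) (.ev (nat_lit 3696) (nat_lit 551907559424) (.ev (nat_lit 3732) (nat_lit 256)
 (.ev (nat_lit 3741) (nat_lit 144115188075855872) .dd)))) (.ch (nat_lit 9) (.ev (nat_lit 3696) (nat_lit
 144115739983350016) (.ev (nat_lit 3709) (nat_lit 65536) .dd))))) (.br (nat_lit 14) (.ch (nat_lit 11) (.ev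
 (nat_lit 3696) (nat_lit 144115737835929856) (.ev (nat_lit 3732) (nat_lit 2048) (.ev (nat_lit 3741) (nat_lit
 2147483648) .dd)))) (.br (nat_lit 15) (.ch (nat_lit 14) (.ev (nat_lit 3696) (nat_lit 144115737835931648) (.ev
 (nat_lit 5700) (nat_lit 256) (.ev (nat_lit 5709) (nat_lit 2147483648) .dd)))) (.ch (nat_lit 15) (.ev (nat_lit
 3696) (nat_lit 2151745792) (.ev (nat_lit 3780) (nat_lit 549755813888) (.ev (nat_lit 3789) (nat_lit
 144115188075855872) .dd))))))) (.br (nat_lit 31) (.br (nat_lit 19) (.ch (nat_lit 17) (.ev (nat_lit 3696)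
 (nat_lit 551903365376) (.ev (nat_lit 5536) (nat_lit 144115188080050176) .dd))) (.br (nat_lit 30) (.ch (nat_lit
 19) (.ev (nat_lit 3696) (nat_lit 549755816192) (.ev (nat_lit 3732) (nat_lit 2147549184) (.ev (nat_lit 5536)
 (nat_lit 144115188080050176) .dd)))) (.ch (nat_lit 30) (.ev (nat_lit 3696) (nat_lit 2151743744) (.ev (nat_lit
 3780) (nat_lit 144115188075855872) (.ev (nat_lit 5456) (nat_lit 2048) (.ev (nat_lit 5469) (nat_lit
 549755813888) .dd))))))) (.br (nat_lit 41) (.br (nat_lit 40) (.ch (nat_lit 31) (.ev (nat_lit 3696) (nat_lit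
 144115739979221248) (.ev (nat_lit 3709) (nat_lit 4194304) .dd))) (.ch (nat_lit 40) (.ev (nat_lit 3696)
 (nat_lit 144115737831672064) (.ev (nat_lit 3780) (nat_lit 65536) (.ev (nat_lit 5440) (nat_lit 2147483648) (.ev
 (nat_lit 5453) (nat_lit 4194304) .dd)))))) (.br (nat_lit 46) (.ch (nat_lit 41) (.ev (nat_lit 3696) (nat_lit
 551903365376) (.ev (nat_lit 4964) (nat_lit 144115188075855872) (.ev (nat_lit 4973) (nat_lit 4194304) .dd))))
 (.ch (nat_lit 46) (.ev (nat_lit 3696) (nat_lit 144115737831672064) (.ev (nat_lit 3780) (nat_lit 65536) (.ev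
 (nat_lit 5744) (nat_lit 4194304) (.ev (nat_lit 5757) (nat_lit 2147483648) .dd))))))))))))))))))))))) (.br
 (nat_lit 42) (.br (nat_lit 38) (.br (nat_lit 36) (.br (nat_lit 33) (.ch (nat_lit 31) (.ev (nat_lit 52)
 (nat_lit 36894896142996734208) (.ev (nat_lit 404) (nat_lit 524288) (.ev (nat_lit 660) (nat_lit 17592186044416)
 (.ev (nat_lit 1152) (nat_lit 1480786372254956095490) .dd))))) (.ch (nat_lit 33) (.ev (nat_lit 52) (nat_lit
 1185203588786408130816) (.ev (nat_lit 116) (nat_lit 32768) (.ev (nat_lit 628) (nat_lit 562949953421312) (.ev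
 (nat_lit 1172) (nat_lit 295147905179352825856) (.ev (nat_lit 1460) (nat_lit 524288) (.ev (nat_lit 3508)
 (nat_lit 288247968337756160) (.ev (nat_lit 3604) (nat_lit 4194304) (.nd (nat_lit 3680) (.br (nat_lit 17) (.br
 (nat_lit 7) (.br (nat_lit 1) (.ch (nat_lit 0) (.ev (nat_lit 3696) (nat_lit 37037603404214435840) (.ev (nat_lit
 3828) (nat_lit 2) (.ev (nat_lit 4628) (nat_lit 1125899906842624) (.ev (nat_lit 5412) (nat_lit
 2251799813685248) (.ev (nat_lit 5584) (nat_lit 2147483648) (.ev (nat_lit 5597) (nat_lit 65536) .dd))))))) (.br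
 (nat_lit 5) (.ch (nat_lit 1) (.ev (nat_lit 3696) (nat_lit 37040981106082447360) (.ev (nat_lit 3892) (nat_lit
 2) (.ev (nat_lit 3901) (nat_lit 65536) .dd)))) (.ch (nat_lit 5) (.ev (nat_lit 3696) (nat_lit
 36896865918006657024) (.ev (nat_lit 3732) (nat_lit 2) (.ev (nat_lit 3741) (nat_lit 144115188075855872)
 .dd)))))) (.br (nat_lit 10) (.br (nat_lit 9) (.ch (nat_lit 7) (.ev (nat_lit 3696) (nat_lit 2251801961234434)
 (.ev (nat_lit 3956) (nat_lit 68719476736) (.ev (nat_lit 4820) (nat_lit 144115188075855872) (.ev (nat_lit 5172)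
 (nat_lit 1125899906842624) (.ev (nat_lit 5181) (nat_lit 36893488147419103232) .dd)))))) (.ch (nat_lit 9) (.ev
 (nat_lit 3696) (nat_lit 147492958663409666) (.ev (nat_lit 3709) (nat_lit 36893488147419103232) .dd)))) (.br
 (nat_lit 14) (.ch (nat_lit 10) (.ev (nat_lit 3696) (nat_lit 36896865918006591488) (.ev (nat_lit 3732) (nat_lit
 2) (.ev (nat_lit 5280) (nat_lit 65536) (.ev (nat_lit 5293) (nat_lit 144115188075855872) .dd))))) (.ch (nat_lit
 14) (.ev (nat_lit 3696) (nat_lit 37038729304121278466) (.ev (nat_lit 3732) (nat_lit 2147483648) (.ev (nat_lit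
 5584) (nat_lit 65536) (.ev (nat_lit 5597) (nat_lit 2251799813685248) .dd)))))))) (.br (nat_lit 41) (.br
 (nat_lit 30) (.br (nat_lit 25) (.ch (nat_lit 17) (.ev (nat_lit 3696) (nat_lit 36893488147419168768) (.ev
 (nat_lit 5524) (nat_lit 2) (.ev (nat_lit 5712) (nat_lit 147492887796383744) (.ev (nat_lit 5744) (nat_lit
 68719476736) (.ev (nat_lit 5757) (nat_lit 2147483648) .dd)))))) (.ch (nat_lit 25) (.ev (nat_lit 3696) (nat_lit
 146367056609083394) (.ev (nat_lit 3712) (nat_lit 36893488147419103232) (.ev (nat_lit 4596) (nat_lit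
 1125899906842624) (.ev (nat_lit 4605) (nat_lit 2147483648) .dd)))))) (.br (nat_lit 35) (.ch (nat_lit 30) (.ev
 (nat_lit 3696) (nat_lit 146366990037090306) (.ev (nat_lit 3732) (nat_lit 68719476736) (.ev (nat_lit 5728)
 (nat_lit 1125899906842624) (.ev (nat_lit 5741) (nat_lit 36893488147419103232) .dd))))) (.ch (nat_lit 35) (.ev
 (nat_lit 3696) (nat_lit 37040981103935029250) (.ev (nat_lit 3709) (nat_lit 2147483648) .dd))))) (.br (nat_lit
 45) (.br (nat_lit 44) (.ch (nat_lit 41) (.ev (nat_lit 3696) (nat_lit 37037603337642508290) (.ev (nat_lit 4532)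
 (nat_lit 68719476736) (.ev (nat_lit 5424) (nat_lit 1125899906842624) (.ev (nat_lit 5437) (nat_lit
 2251799813685248) .dd))))) (.ch (nat_lit 44) (.ev (nat_lit 3696) (nat_lit 37040981103934963714) (.ev (nat_lit
 5712) (nat_lit 2147549184) .dd)))) (.br (nat_lit 46) (.ch (nat_lit 45) (.ev (nat_lit 3696) (nat_lit
 37039855204028186626) (.ev (nat_lit 3732) (nat_lit 2147483648) (.ev (nat_lit 3741) (nat_lit 1125899906842624)
 .dd)))) (.ch (nat_lit 46) (.ev (nat_lit 3696) (nat_lit 37040981106082512898) .dd)))))))))))))))) (.br (nat_lit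
 37) (.ch (nat_lit 36) (.ev (nat_lit 52) (nat_lit 1180736018007529129986) (.ev (nat_lit 116) (nat_lit
 562949953421312) (.ev (nat_lit 308) (nat_lit 4194304) (.ev (nat_lit 756) (nat_lit 256) (.ev (nat_lit 2740)
 (nat_lit 288230376151711744) (.ev (nat_lit 3188) (nat_lit 4611686018427387904) (.ev (nat_lit 3252) (nat_lit
 295147905179352825856) (.ev (nat_lit 3284) (nat_lit 17592186044416) (.ev (nat_lit 3636) (nat_lit 65536) (.nd
 (nat_lit 3680) (.br (nat_lit 27) (.br (nat_lit 8) (.br (nat_lit 5) (.ch (nat_lit 1) (.ev (nat_lit 3696)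
 (nat_lit 36896865849354747904) (.ev (nat_lit 3709) (nat_lit 17179869184) .dd))) (.br (nat_lit 6) (.ch (nat_lit
 5) (.ev (nat_lit 3696) (nat_lit 36896865866534617088) .dd)) (.ch (nat_lit 6) (.ev (nat_lit 3696) (nat_lit
 3377701935644672) (.ev (nat_lit 3732) (nat_lit 17179869184) (.ev (nat_lit 3741) (nat_lit 36893488147419103232)
 .dd)))))) (.br (nat_lit 11) (.br (nat_lit 10) (.ch (nat_lit 8) (.ev (nat_lit 3696) (nat_lit 2251819208671232)
 (.ev (nat_lit 3712) (nat_lit 1125899906842624) (.ev (nat_lit 3725) (nat_lit 36893488147419103232) .dd)))) (.ch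
 (nat_lit 10) (.ev (nat_lit 3696) (nat_lit 36896865864387133440) (.ev (nat_lit 3709) (nat_lit 2147483648)
 .dd)))) (.br (nat_lit 15) (.ch (nat_lit 11) (.ev (nat_lit 3696) (nat_lit 36896865864386609152) (.ev (nat_lit
 5648) (nat_lit 2147483648) (.ev (nat_lit 5661) (nat_lit 524288) .dd)))) (.ch (nat_lit 15) (.ev (nat_lit 3696)
 (nat_lit 19394985984) (.ev (nat_lit 3732) (nat_lit 2251799813685248) (.ev (nat_lit 5184) (nat_lit
 36893488147419103232) (.ev (nat_lit 5197) (nat_lit 1125899906842624) .dd)))))))) (.br (nat_lit 35) (.br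
 (nat_lit 30) (.br (nat_lit 29) (.ch (nat_lit 27) (.ev (nat_lit 3696) (nat_lit 36895739966627774464) (.ev
 (nat_lit 3709) (nat_lit 1125899906842624) .dd))) (.ch (nat_lit 29) (.ev (nat_lit 3696) (nat_lit
 36896865866534092800) (.ev (nat_lit 3709) (nat_lit 524288) .dd)))) (.br (nat_lit 31) (.ch (nat_lit 30) (.ev
 (nat_lit 3696) (nat_lit 19394985984) (.ev (nat_lit 3732) (nat_lit 2251799813685248) (.ev (nat_lit 5568)
 (nat_lit 1125899906842624) (.ev (nat_lit 5581) (nat_lit 36893488147419103232) .dd))))) (.ch (nat_lit 31) (.ev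
 (nat_lit 3696) (nat_lit 36896865864387133440) (.ev (nat_lit 3709) (nat_lit 2147483648) .dd))))) (.br (nat_lit
 40) (.br (nat_lit 36) (.ch (nat_lit 35) (.ev (nat_lit 3696) (nat_lit 36896865849354747904) (.ev (nat_lit 3709)
 (nat_lit 17179869184) .dd))) (.ch (nat_lit 36) (.ev (nat_lit 3696) (nat_lit 1125902121959424) (.ev (nat_lit
 3780) (nat_lit 17179869184) (.ev (nat_lit 5712) (nat_lit 36893488147419103232) (.ev (nat_lit 5725) (nat_lit
 2251799813685248) .dd)))))) (.br (nat_lit 42) (.ch (nat_lit 40) (.ev (nat_lit 3696) (nat_lit 1125902054850560)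
 (.ev (nat_lit 3780) (nat_lit 36893488147419103232) (.ev (nat_lit 3956) (nat_lit 2251799813685248) (.ev
 (nat_lit 3968) (nat_lit 17179869184) (.ev (nat_lit 3981) (nat_lit 67108864) .dd)))))) (.ch (nat_lit 42) (.ev
 (nat_lit 3696) (nat_lit 3377719115513856) (.ev (nat_lit 3709) (nat_lit 36893488147419103232)
 .dd)))))))))))))))))) (.ch (nat_lit 37) (.ev (nat_lit 52) (nat_lit 299762406566093981698) (.ev (nat_lit 84)
 (nat_lit 32768) (.ev (nat_lit 276) (nat_lit 144115188075855872) (.ev (nat_lit 564) (nat_lit 256) (.ev (nat_lit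
 1588) (nat_lit 524288) (.ev (nat_lit 1620) (nat_lit 17179869184) (.ev (nat_lit 2196) (nat_lit 17592186044416)
 (.ev (nat_lit 2580) (nat_lit 1125899906842624) (.ev (nat_lit 3060) (nat_lit 288230376151711744) (.ev (nat_lit
 3476) (nat_lit 2147483648) (.nd (nat_lit 3680) (.br (nat_lit 25) (.br (nat_lit 9) (.br (nat_lit 6) (.ch
 (nat_lit 5) (.ev (nat_lit 3696) (nat_lit 1217485108873420341248) (.ev (nat_lit 3709) (nat_lit 281474976710656)
 .dd))) (.br (nat_lit 7) (.ch (nat_lit 6) (.ev (nat_lit 3696) (nat_lit 1217485390348397051904) .dd)) (.ch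
 (nat_lit 7) (.ev (nat_lit 3696) (nat_lit 1180591620717411303424) (.ev (nat_lit 3732) (nat_lit
 36893488147419103232) (.ev (nat_lit 5584) (nat_lit 281474976710656) (.ev (nat_lit 5597) (nat_lit 8589934592)
 .dd))))))) (.br (nat_lit 19) (.br (nat_lit 11) (.ch (nat_lit 9) (.ev (nat_lit 3732) (nat_lit
 36893488156009037824) (.ev (nat_lit 4736) (nat_lit 1180591620717411303424) (.ev (nat_lit 4749) (nat_lit
 281474976710656) .dd)))) (.ch (nat_lit 11) (.ev (nat_lit 3696) (nat_lit 1217485390348397051904) .dd))) (.br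
 (nat_lit 20) (.ch (nat_lit 19) (.ev (nat_lit 3696) (nat_lit 1217485390339807117312) (.ev (nat_lit 3709)
 (nat_lit 8589934592) .dd))) (.ch (nat_lit 20) (.ev (nat_lit 3696) (nat_lit 1217485108873420341248) (.ev
 (nat_lit 3709) (nat_lit 281474976710656) .dd)))))) (.br (nat_lit 42) (.br (nat_lit 36) (.br (nat_lit 30) (.ch
 (nat_lit 25) (.ev (nat_lit 3696) (nat_lit 1180591620726001238016) (.fin (nat_lit 576464600606130760)))) (.ch
 (nat_lit 30) (.ev (nat_lit 3696) (nat_lit 1217485390339807117312) (.ev (nat_lit 3709) (nat_lit 8589934592)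
 .dd)))) (.br (nat_lit 41) (.ch (nat_lit 36) (.ev (nat_lit 3696) (nat_lit 281474976710656) (.ev (nat_lit 3732)
 (nat_lit 1180591620717411303424) (.ev (nat_lit 5412) (nat_lit 36893488147419103232) (.ev (nat_lit 5421)
 (nat_lit 8589934592) .dd))))) (.ch (nat_lit 41) (.ev (nat_lit 3696) (nat_lit 1217485390348397051904) .dd))))
 (.br (nat_lit 45) (.br (nat_lit 44) (.ch (nat_lit 42) (.ev (nat_lit 3696) (nat_lit 36893488156009037824) (.ev
 (nat_lit 3732) (nat_lit 1180591620717411303424) (.ev (nat_lit 3741) (nat_lit 281474976710656) .dd)))) (.ch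
 (nat_lit 44) (.ev (nat_lit 3696) (nat_lit 1180591902200977948672) (.ev (nat_lit 3709) (nat_lit
 36893488147419103232) .dd)))) (.br (nat_lit 46) (.ch (nat_lit 45) (.ev (nat_lit 3696) (nat_lit
 1217485390348397051904) .dd)) (.ch (nat_lit 46) (.ev (nat_lit 3696) (nat_lit 1217485108873420341248) (.ev
 (nat_lit 3709) (nat_lit 281474976710656) .dd))))))))))))))))))))) (.br (nat_lit 40) (.br (nat_lit 39) (.ch
 (nat_lit 38) (.ev (nat_lit 52) (nat_lit 1180736317008120381698) (.ev (nat_lit 404) (nat_lit 2048) (.ev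
 (nat_lit 468) (nat_lit 1125899906842624) (.ev (nat_lit 692) (nat_lit 17179869184) (.ev (nat_lit 788) (nat_lit
 67108864) (.ev (nat_lit 1652) (nat_lit 68719476736) (.ev (nat_lit 2004) (nat_lit 32768) (.ev (nat_lit 2900)
 (nat_lit 4194304) (.ev (nat_lit 3092) (nat_lit 4611686018427387904) (.nd (nat_lit 3680) (.br (nat_lit 27) (.br
 (nat_lit 9) (.br (nat_lit 7) (.br (nat_lit 6) (.ch (nat_lit 1) (.ev (nat_lit 3696) (nat_lit
 36896021422209564672) (.ev (nat_lit 3732) (nat_lit 295147905179352825856) (.ev (nat_lit 3741) (nat_lit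
 288230376151711744) .dd)))) (.ch (nat_lit 6) (.ev (nat_lit 3696) (nat_lit 295436417030481248256) (.ev (nat_lit
 3828) (nat_lit 65536) (.ev (nat_lit 5648) (nat_lit 36893488147419103232) (.ev (nat_lit 5661) (nat_lit
 2251799813685248) .dd)))))) (.br (nat_lit 8) (.ch (nat_lit 7) (.ev (nat_lit 3696) (nat_lit
 36893488147419168768) (.ev (nat_lit 3732) (nat_lit 281474976710656) (.ev (nat_lit 3780) (nat_lit
 2251799813685248) (.ev (nat_lit 3904) (nat_lit 288230376151711744) (.ev (nat_lit 3917) (nat_lit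
 295147905179352825856) .dd)))))) (.ch (nat_lit 8) (.ev (nat_lit 3696) (nat_lit 295438668830294933504) (.ev
 (nat_lit 3732) (nat_lit 36893488147419103232) (.ev (nat_lit 3741) (nat_lit 65536) .dd)))))) (.br (nat_lit 14)
 (.br (nat_lit 11) (.ch (nat_lit 9) (.ev (nat_lit 3696) (nat_lit 295150438454143287296) (.ev (nat_lit 3780)
 (nat_lit 36893488147419103232) (.ev (nat_lit 3789) (nat_lit 288230376151711744) .dd)))) (.ch (nat_lit 11) (.ev
 (nat_lit 3696) (nat_lit 37184251798361276416) (.ev (nat_lit 3709) (nat_lit 295147905179352825856) .dd)))) (.br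
 (nat_lit 15) (.ch (nat_lit 14) (.ev (nat_lit 3696) (nat_lit 332329905177900351488) (.ev (nat_lit 3732)
 (nat_lit 2251799813685248) (.ev (nat_lit 3741) (nat_lit 65536) .dd)))) (.br (nat_lit 25) (.ch (nat_lit 15)
 (.ev (nat_lit 3696) (nat_lit 332332156977714102272) .dd)) (.ch (nat_lit 25) (.ev (nat_lit 3696) (nat_lit
 2251799813750784) (.ev (nat_lit 5616) (nat_lit 295436135555504537600) (.fin (nat_lit
 576464600606130760))))))))) (.br (nat_lit 35) (.br (nat_lit 30) (.br (nat_lit 29) (.ch (nat_lit 27) (.ev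
 (nat_lit 3696) (nat_lit 37184251798361276416) (.ev (nat_lit 3709) (nat_lit 295147905179352825856) .dd))) (.ch
 (nat_lit 29) (.ev (nat_lit 3696) (nat_lit 290763650942173184) (.ev (nat_lit 4532) (nat_lit
 36893488147419103232) (.ev (nat_lit 4541) (nat_lit 295147905179352825856) .dd))))) (.br (nat_lit 31) (.ch
 (nat_lit 30) (.ev (nat_lit 3696) (nat_lit 295436417030481313792) (.ev (nat_lit 3732) (nat_lit
 36893488147419103232) (.ev (nat_lit 3741) (nat_lit 2251799813685248) .dd)))) (.ch (nat_lit 31) (.ev (nat_lit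
 3696) (nat_lit 332332156977714102272) .dd)))) (.br (nat_lit 42) (.br (nat_lit 38) (.ch (nat_lit 35) (.ev
 (nat_lit 3696) (nat_lit 332332156977714036736) (.ev (nat_lit 3709) (nat_lit 65536) .dd))) (.ch (nat_lit 38)
 (.ev (nat_lit 3696) (nat_lit 290763650942173184) (.ev (nat_lit 3732) (nat_lit 36893488147419103232) (.ev
 (nat_lit 3741) (nat_lit 295147905179352825856) .dd))))) (.br (nat_lit 44) (.ch (nat_lit 42) (.ev (nat_lit
 3696) (nat_lit 332331875502737391616) (.ev (nat_lit 3709) (nat_lit 281474976710656) .dd))) (.br (nat_lit 45)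
 (.ch (nat_lit 44) (.ev (nat_lit 3696) (nat_lit 332332156977714102272) .dd)) (.ch (nat_lit 45) (.ev (nat_lit
 3696) (nat_lit 332043926601562324992) (.ev (nat_lit 3732) (nat_lit 65536) (.ev (nat_lit 3741) (nat_lit
 288230376151711744) .dd)))))))))))))))))))) (.ch (nat_lit 39) (.ev (nat_lit 52) (nat_lit
 332477680092581464322) (.ev (nat_lit 180) (nat_lit 17179869184) (.ev (nat_lit 1492) (nat_lit 68719476736) (.ev
 (nat_lit 2388) (nat_lit 1180591620717411303424) (.ev (nat_lit 2836) (nat_lit 32768) (.ev (nat_lit 3616)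
 (nat_lit 4611985094247251968) .dd)))))))) (.br (nat_lit 41) (.ch (nat_lit 40) (.ev (nat_lit 52) (nat_lit
 295436716125632661760) (.ev (nat_lit 500) (nat_lit 36893488147419103232) (.ev (nat_lit 980) (nat_lit
 144115188075855872) (.ev (nat_lit 1812) (nat_lit 549755813888) (.ev (nat_lit 2068) (nat_lit
 4611686018427387904) (.ev (nat_lit 2932) (nat_lit 1125899906842624) (.ev (nat_lit 2996) (nat_lit 2) (.nd
 (nat_lit 3680) (.br (nat_lit 25) (.br (nat_lit 9) (.br (nat_lit 6) (.br (nat_lit 1) (.ch (nat_lit 0) (.ev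
 (nat_lit 3696) (nat_lit 1180591902192388538368) (.ev (nat_lit 3760) (nat_lit 32768) (.ev (nat_lit 3828)
 (nat_lit 2251799813685248) (.ev (nat_lit 3837) (nat_lit 68719476736) .dd))))) (.ch (nat_lit 1) (.ev (nat_lit
 3696) (nat_lit 1180593872585944989696) (.ev (nat_lit 3828) (nat_lit 281474976710656) (.ev (nat_lit 3837)
 (nat_lit 32768) .dd))))) (.br (nat_lit 7) (.ch (nat_lit 6) (.ev (nat_lit 3696) (nat_lit
 1180591620786131337216) (.ev (nat_lit 5536) (nat_lit 2251799813685248) (.ev (nat_lit 5549) (nat_lit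
 281474976710656) .dd)))) (.ch (nat_lit 7) (.ev (nat_lit 3696) (nat_lit 68720033792) (.ev (nat_lit 5700)
 (nat_lit 281474976710656) (.ev (nat_lit 5776) (nat_lit 2251799813685248) (.ev (nat_lit 5789) (nat_lit
 1180591620717411303424) .dd))))))) (.br (nat_lit 15) (.br (nat_lit 11) (.ch (nat_lit 9) (.ev (nat_lit 3696)
 (nat_lit 2533343510429696) (.ev (nat_lit 3709) (nat_lit 1180591620717411303424) .dd))) (.ch (nat_lit 11) (.ev
 (nat_lit 3696) (nat_lit 1180591902261108047872) (.ev (nat_lit 3709) (nat_lit 2251799813685248) .dd)))) (.br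
 (nat_lit 19) (.ch (nat_lit 15) (.ev (nat_lit 3696) (nat_lit 1180591620786131337216) (.ev (nat_lit 5268)
 (nat_lit 281474976710656) (.ev (nat_lit 5277) (nat_lit 2251799813685248) .dd)))) (.br (nat_lit 20) (.ch
 (nat_lit 19) (.ev (nat_lit 3696) (nat_lit 1180594153992202223616) (.ev (nat_lit 5440) (nat_lit 32768) (.ev
 (nat_lit 5453) (nat_lit 68719476736) .dd)))) (.ch (nat_lit 20) (.ev (nat_lit 3696) (nat_lit
 1180594154060921208832) (.ev (nat_lit 3709) (nat_lit 524288) .dd))))))) (.br (nat_lit 38) (.br (nat_lit 31)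
 (.br (nat_lit 27) (.ch (nat_lit 25) (.ev (nat_lit 3696) (nat_lit 1180591902261107523584) (.ev (nat_lit 3732)
 (nat_lit 524288) (.ev (nat_lit 3741) (nat_lit 2251799813685248) .dd)))) (.ch (nat_lit 27) (.ev (nat_lit 3696)
 (nat_lit 2533343510429696) (.ev (nat_lit 3709) (nat_lit 1180591620717411303424) .dd)))) (.br (nat_lit 32) (.ch
 (nat_lit 31) (.ev (nat_lit 3696) (nat_lit 1180594154060921733120) .dd)) (.ch (nat_lit 32) (.ev (nat_lit 3696)
 (nat_lit 1180594154060921733120) .dd)))) (.br (nat_lit 44) (.br (nat_lit 41) (.ch (nat_lit 38) (.ev (nat_lit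
 3696) (nat_lit 2533343510396928) (.ev (nat_lit 3732) (nat_lit 1180591620717411303424) (.ev (nat_lit 3741)
 (nat_lit 32768) .dd)))) (.ch (nat_lit 41) (.ev (nat_lit 3696) (nat_lit 1180591902192388046848) (.ev (nat_lit
 4884) (nat_lit 2251799813685248) (.fin (nat_lit 576474496213926468)))))) (.br (nat_lit 45) (.ch (nat_lit 44)
 (.ev (nat_lit 3696) (nat_lit 2533274790428672) (.ev (nat_lit 3732) (nat_lit 524288) (.ev (nat_lit 5700)
 (nat_lit 68719476736) (.ev (nat_lit 5709) (nat_lit 1180591620717411303424) .dd))))) (.br (nat_lit 46) (.ch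
 (nat_lit 45) (.ev (nat_lit 3696) (nat_lit 1180594153992202256384) (.ev (nat_lit 3709) (nat_lit 68719476736)
 .dd))) (.ch (nat_lit 46) (.ev (nat_lit 3696) (nat_lit 1180593872585945022464) (.ev (nat_lit 3709) (nat_lit
 281474976710656) .dd))))))))))))))))) (.ch (nat_lit 41) (.ev (nat_lit 52) (nat_lit 300051480748633917440) (.ev
 (nat_lit 212) (nat_lit 144115188075855872) (.ev (nat_lit 340) (nat_lit 36893488147419103232) (.ev (nat_lit
 2036) (nat_lit 549755813888) (.ev (nat_lit 2228) (nat_lit 1180591620717411303424) (.ev (nat_lit 2740) (nat_lit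
 17592186044416) (.nd (nat_lit 3680) (.br (nat_lit 25) (.br (nat_lit 11) (.br (nat_lit 7) (.br (nat_lit 6) (.ch
 (nat_lit 5) (.ev (nat_lit 3696) (nat_lit 563046657359872) (.ev (nat_lit 5776) (nat_lit 258) .dd))) (.ch
 (nat_lit 6) (.ev (nat_lit 3696) (nat_lit 563027329941762) (.ev (nat_lit 3956) (nat_lit 65536) (.ev (nat_lit
 4516) (nat_lit 2147483648) (.ev (nat_lit 4525) (nat_lit 17179869184) .dd)))))) (.br (nat_lit 10) (.ch (nat_lit
 7) (.ev (nat_lit 3696) (nat_lit 563038000251138) (.ev (nat_lit 4976) (nat_lit 67108864) (.ev (nat_lit 5700)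
 (nat_lit 65536) (.ev (nat_lit 5709) (nat_lit 8589934592) .dd))))) (.ch (nat_lit 10) (.ev (nat_lit 3696)
 (nat_lit 563029410316544) (.ev (nat_lit 5412) (nat_lit 17179869184) (.ev (nat_lit 5424) (nat_lit 2) (.ev
 (nat_lit 5700) (nat_lit 67108864) (.ev (nat_lit 5709) (nat_lit 65536) .dd)))))))) (.br (nat_lit 17) (.br
 (nat_lit 14) (.ch (nat_lit 11) (.ev (nat_lit 3696) (nat_lit 563046590251264) (.ev (nat_lit 3760) (nat_lit
 67108864) (.ev (nat_lit 3773) (nat_lit 2) .dd)))) (.ch (nat_lit 14) (.ev (nat_lit 3696) (nat_lit 96703938816)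
 (.ev (nat_lit 3780) (nat_lit 2) (.ev (nat_lit 3789) (nat_lit 562949953421312) .dd))))) (.br (nat_lit 20) (.ch
 (nat_lit 17) (.ev (nat_lit 3696) (nat_lit 96703938818) (.ev (nat_lit 3709) (nat_lit 562949953421312) .dd)))
 (.ch (nat_lit 20) (.ev (nat_lit 3696) (nat_lit 70934135042) (.ev (nat_lit 3732) (nat_lit 17179869184) (.ev
 (nat_lit 3892) (nat_lit 562949953421312) (.ev (nat_lit 3901) (nat_lit 8589934592) .dd)))))))) (.br (nat_lit
 35) (.br (nat_lit 31) (.br (nat_lit 27) (.ch (nat_lit 25) (.ev (nat_lit 3696) (nat_lit 563044442767362) (.ev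
 (nat_lit 5524) (nat_lit 67108864) (.ev (nat_lit 5776) (nat_lit 2147483648) (.ev (nat_lit 5789) (nat_lit 256)
 .dd))))) (.ch (nat_lit 27) (.ev (nat_lit 3696) (nat_lit 563029410382082) (.ev (nat_lit 5700) (nat_lit
 67108864) (.ev (nat_lit 5709) (nat_lit 17179869184) .dd))))) (.br (nat_lit 32) (.ch (nat_lit 31) (.ev (nat_lit
 3696) (nat_lit 79524069634) (.ev (nat_lit 3780) (nat_lit 17179869184) (.ev (nat_lit 3789) (nat_lit
 562949953421312) .dd)))) (.ch (nat_lit 32) (.ev (nat_lit 3696) (nat_lit 563027330007298) (.ev (nat_lit 3760)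
 (nat_lit 17179869184) (.ev (nat_lit 3773) (nat_lit 2147483648) .dd)))))) (.br (nat_lit 42) (.br (nat_lit 40)
 (.ch (nat_lit 35) (.ev (nat_lit 3696) (nat_lit 27984462082) (.ev (nat_lit 5472) (nat_lit 562949953421312) (.ev
 (nat_lit 5485) (nat_lit 68719476736) .dd)))) (.ch (nat_lit 40) (.ev (nat_lit 3696) (nat_lit 563027262832898)
 (.ev (nat_lit 3780) (nat_lit 17179869184) (.ev (nat_lit 5584) (nat_lit 65536) (.ev (nat_lit 5712) (nat_lit
 2147483648) (.ev (nat_lit 5725) (nat_lit 67108864) .dd))))))) (.br (nat_lit 44) (.ch (nat_lit 42) (.ev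
 (nat_lit 3696) (nat_lit 562969280839938) (.ev (nat_lit 3828) (nat_lit 67108864) (.ev (nat_lit 5728) (nat_lit
 68719476736) (.ev (nat_lit 5741) (nat_lit 8589934592) .dd))))) (.ch (nat_lit 44) (.ev (nat_lit 3696) (nat_lit
 563044509810944) (.ev (nat_lit 5232) (nat_lit 65536) (.ev (nat_lit 5524) (nat_lit 2147483648) (.ev (nat_lit
 5533) (nat_lit 2) .dd)))))))))))))))))))) (.br (nat_lit 47) (.br (nat_lit 44) (.br (nat_lit 43) (.ch (nat_lit
 42) (.ev (nat_lit 52) (nat_lit 41651823255849271298) (.ev (nat_lit 148) (nat_lit 256) (.ev (nat_lit 1172)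
 (nat_lit 65536) (.ev (nat_lit 1620) (nat_lit 2048) (.ev (nat_lit 2196) (nat_lit 1180591620717411303424) (.ev
 (nat_lit 2592) (nat_lit 295437842016878755840) .dd))))))) (.ch (nat_lit 43) (.ev (nat_lit 52) (nat_lit
 37185096783785199872) (.ev (nat_lit 1076) (nat_lit 67108864) (.ev (nat_lit 2048) (nat_lit
 1480496189206287089666) .dd))))) (.br (nat_lit 46) (.ch (nat_lit 44) (.ev (nat_lit 52) (nat_lit
 1185204732261258756352) (.ev (nat_lit 148) (nat_lit 562949953421312) (.ev (nat_lit 404) (nat_lit 17179869184)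
 (.ev (nat_lit 852) (nat_lit 67108864) (.ev (nat_lit 1332) (nat_lit 68719476736) (.ev (nat_lit 2356) (nat_lit
 2251799813685248) (.ev (nat_lit 2452) (nat_lit 2048) (.ev (nat_lit 3072) (nat_lit 332473738893147078658)
 .dd))))))))) (.ch (nat_lit 46) (.ev (nat_lit 52) (nat_lit 1512922933341062201344) (.ev (nat_lit 180) (nat_lit
 524288) (.ev (nat_lit 500) (nat_lit 4194304) (.ev (nat_lit 948) (nat_lit 549755813888) (.ev (nat_lit 1588)
 (nat_lit 17179869184) (.ev (nat_lit 2260) (nat_lit 17592186044416) (.ev (nat_lit 2516) (nat_lit 2) (.ev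
 (nat_lit 3540) (nat_lit 2251799813685248) (.nd (nat_lit 3680) (.br (nat_lit 27) (.br (nat_lit 14) (.br
 (nat_lit 8) (.br (nat_lit 6) (.ch (nat_lit 0) (.ev (nat_lit 3696) (nat_lit 4611967502061207808) (.ev (nat_lit
 4516) (nat_lit 2048) (.ev (nat_lit 4525) (nat_lit 144115188075855872) .dd)))) (.ch (nat_lit 6) (.ev (nat_lit
 3696) (nat_lit 4611686027084431616) (.ev (nat_lit 4544) (nat_lit 2048) (.ev (nat_lit 5524) (nat_lit
 281474976710656) (.ev (nat_lit 5700) (nat_lit 144115188075855872) (.ev (nat_lit 5709) (nat_lit 65536)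
 .dd))))))) (.br (nat_lit 9) (.ch (nat_lit 8) (.ev (nat_lit 3696) (nat_lit 4756082690137000192) (.ev (nat_lit
 3709) (nat_lit 65536) .dd))) (.ch (nat_lit 9) (.ev (nat_lit 3696) (nat_lit 4756082690137065728) .dd)))) (.br
 (nat_lit 17) (.br (nat_lit 15) (.ch (nat_lit 14) (.ev (nat_lit 3696) (nat_lit 144396663119677696) (.ev
 (nat_lit 5524) (nat_lit 8589934592) (.ev (nat_lit 5824) (nat_lit 4611686018427387904) (.ev (nat_lit 5837)
 (nat_lit 65536) .dd))))) (.ch (nat_lit 15) (.ev (nat_lit 3696) (nat_lit 4756082690137065472) (.ev (nat_lit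
 3709) (nat_lit 256) .dd)))) (.br (nat_lit 19) (.ch (nat_lit 17) (.ev (nat_lit 3696) (nat_lit
 4755801215160355072) (.ev (nat_lit 3709) (nat_lit 281474976710656) .dd))) (.br (nat_lit 25) (.ch (nat_lit 19)
 (.ev (nat_lit 3696) (nat_lit 4755801206570354688) (.ev (nat_lit 3732) (nat_lit 256) (.ev (nat_lit 4852)
 (nat_lit 65536) (.ev (nat_lit 5760) (nat_lit 281483566645248) .dd))))) (.ch (nat_lit 25) (.ev (nat_lit 3696)
 (nat_lit 4756082690069889024) (.ev (nat_lit 3732) (nat_lit 65536) (.ev (nat_lit 4532) (nat_lit 256) (.ev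
 (nat_lit 5760) (nat_lit 67110912) .dd))))))))) (.br (nat_lit 36) (.br (nat_lit 30) (.br (nat_lit 29) (.ch
 (nat_lit 27) (.ev (nat_lit 3696) (nat_lit 4756082690069956864) (.ev (nat_lit 3709) (nat_lit 67108864) .dd)))
 (.ch (nat_lit 29) (.ev (nat_lit 3696) (nat_lit 4756082690137000192) (.ev (nat_lit 3709) (nat_lit 65536)
 .dd)))) (.br (nat_lit 35) (.ch (nat_lit 30) (.ev (nat_lit 3696) (nat_lit 4611967502061207552) (.ev (nat_lit
 5524) (nat_lit 2048) (.ev (nat_lit 5792) (nat_lit 144115188075855872) (.ev (nat_lit 5805) (nat_lit 256)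
 .dd))))) (.ch (nat_lit 35) (.ev (nat_lit 3696) (nat_lit 4756082690137065728) .dd)))) (.br (nat_lit 44) (.br
 (nat_lit 38) (.ch (nat_lit 36) (.ev (nat_lit 3696) (nat_lit 4756082690137065472) (.ev (nat_lit 3709) (nat_lit
 256) .dd))) (.ch (nat_lit 38) (.ev (nat_lit 3696) (nat_lit 144396663052634112) (.ev (nat_lit 4784) (nat_lit
 8589934592) (.ev (nat_lit 5568) (nat_lit 67108864) (.ev (nat_lit 5792) (nat_lit 4611686018427387904) (.ev
 (nat_lit 5805) (nat_lit 256) .dd))))))) (.br (nat_lit 45) (.ch (nat_lit 44) (.ev (nat_lit 3696) (nat_lit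
 144396663119743232) (.ev (nat_lit 4884) (nat_lit 8589934592) (.ev (nat_lit 4893) (nat_lit 4611686018427387904)
 .dd)))) (.br (nat_lit 46) (.ch (nat_lit 45) (.ev (nat_lit 3696) (nat_lit 4611967502061144320) (.ev (nat_lit
 3744) (nat_lit 144115188075855872) (.ev (nat_lit 3757) (nat_lit 65536) .dd)))) (.ch (nat_lit 46) (.ev (nat_lit
 3696) (nat_lit 144396671709677568) (.ev (nat_lit 3744) (nat_lit 4611686018427387904) (.ev (nat_lit 3757)
 (nat_lit 256) .dd))))))))))))))))))))) (.br (nat_lit 49) (.br (nat_lit 48) (.ch (nat_lit 47) (.ev (nat_lit 52)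
 (nat_lit 1217489067192661082112) (.ev (nat_lit 788) (nat_lit 144115188075855872) (.ev (nat_lit 1684) (nat_lit
 288230376151711744) (.ev (nat_lit 2836) (nat_lit 8589934848) (.ev (nat_lit 2964) (nat_lit 2048) (.ev (nat_lit
 3668) (nat_lit 2) (.nd (nat_lit 3680) (.br (nat_lit 27) (.br (nat_lit 9) (.br (nat_lit 1) (.ch (nat_lit 0)
 (.ev (nat_lit 3696) (nat_lit 299759873224660811776) .dd)) (.br (nat_lit 8) (.ch (nat_lit 1) (.ev (nat_lit
 3696) (nat_lit 4611967495552172032) (.ev (nat_lit 3744) (nat_lit 295147905179352825856) (.ev (nat_lit 3757)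
 (nat_lit 549755813888) .dd)))) (.ch (nat_lit 8) (.ev (nat_lit 3696) (nat_lit 299759873222513328128) (.ev
 (nat_lit 3709) (nat_lit 2147483648) .dd))))) (.br (nat_lit 15) (.br (nat_lit 11) (.ch (nat_lit 9) (.ev
 (nat_lit 3696) (nat_lit 299759872674904997888) (.ev (nat_lit 3709) (nat_lit 549755813888) .dd))) (.ch (nat_lit
 11) (.ev (nat_lit 3696) (nat_lit 282026880598016) (.ev (nat_lit 5776) (nat_lit 4611686018427387904) (.ev
 (nat_lit 5789) (nat_lit 295147905179352825856) .dd))))) (.br (nat_lit 19) (.ch (nat_lit 15) (.ev (nat_lit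
 3696) (nat_lit 299759872674904997888) (.ev (nat_lit 3709) (nat_lit 549755813888) .dd))) (.ch (nat_lit 19) (.ev
 (nat_lit 3696) (nat_lit 295147905729108705280) (.ev (nat_lit 3780) (nat_lit 2147483648) (.ev (nat_lit 3828)
 (nat_lit 4611686018427387904) (.ev (nat_lit 5744) (nat_lit 524288) (.ev (nat_lit 5757) (nat_lit
 281474976710656) .dd))))))))) (.br (nat_lit 35) (.br (nat_lit 31) (.br (nat_lit 29) (.ch (nat_lit 27) (.ev
 (nat_lit 3696) (nat_lit 4611686570331275264) (.ev (nat_lit 5712) (nat_lit 281474976710656) (.ev (nat_lit 5725)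
 (nat_lit 295147905179352825856) .dd)))) (.ch (nat_lit 29) (.ev (nat_lit 3696) (nat_lit 299759873224660811776)
 .dd))) (.br (nat_lit 32) (.ch (nat_lit 31) (.ev (nat_lit 3696) (nat_lit 4611968043159977984) (.ev (nat_lit
 4932) (nat_lit 295147905179352825856) (.ev (nat_lit 5172) (nat_lit 2147483648) (.ev (nat_lit 5181) (nat_lit
 524288) .dd))))) (.ch (nat_lit 32) (.ev (nat_lit 3696) (nat_lit 299759591747536617472) (.ev (nat_lit 4004)
 (nat_lit 2147483648) (.ev (nat_lit 4013) (nat_lit 281474976710656) .dd)))))) (.br (nat_lit 41) (.br (nat_lit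
 40) (.ch (nat_lit 35) (.ev (nat_lit 3696) (nat_lit 295148187204085940224) (.ev (nat_lit 3780) (nat_lit
 2147483648) (.ev (nat_lit 3789) (nat_lit 4611686018427387904) .dd)))) (.ch (nat_lit 40) (.ev (nat_lit 3696)
 (nat_lit 299759591747536027648) (.ev (nat_lit 3780) (nat_lit 2147483648) (.ev (nat_lit 3860) (nat_lit 524288)
 (.ev (nat_lit 4004) (nat_lit 65536) (.ev (nat_lit 4013) (nat_lit 281474976710656) .dd))))))) (.br (nat_lit 42)
 (.ch (nat_lit 41) (.ev (nat_lit 3696) (nat_lit 295148187204085415936) (.ev (nat_lit 5268) (nat_lit 524288)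
 (.ev (nat_lit 5552) (nat_lit 4611686018427387904) (.ev (nat_lit 5565) (nat_lit 2147483648) .dd))))) (.ch
 (nat_lit 42) (.ev (nat_lit 3696) (nat_lit 299759591749684101120) (.ev (nat_lit 3709) (nat_lit 281474976710656)
 .dd))))))))))))))) (.ch (nat_lit 48) (.ev (nat_lit 52) (nat_lit 37040154221802979330) (.ev (nat_lit 84)
 (nat_lit 256) (.ev (nat_lit 500) (nat_lit 1125899906842624) (.ev (nat_lit 660) (nat_lit 288230376151711744)
 (.ev (nat_lit 2100) (nat_lit 8589934592) (.ev (nat_lit 2260) (nat_lit 1180591620717411303424) (.ev (nat_lit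
 2484) (nat_lit 67108864) (.ev (nat_lit 2996) (nat_lit 295147905179352825856) (.ev (nat_lit 3092) (nat_lit
 65536) (.nd (nat_lit 3680) (.br (nat_lit 29) (.br (nat_lit 9) (.br (nat_lit 7) (.br (nat_lit 6) (.ch (nat_lit
 1) (.ev (nat_lit 3696) (nat_lit 4611686636903202816) (.ev (nat_lit 3840) (nat_lit 2048) (.ev (nat_lit 3853)
 (nat_lit 562949953421312) .dd)))) (.ch (nat_lit 6) (.ev (nat_lit 3696) (nat_lit 4612249037100812288) (.ev
 (nat_lit 3709) (nat_lit 549755813888) .dd)))) (.br (nat_lit 8) (.ch (nat_lit 7) (.ev (nat_lit 3696) (nat_lit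
 4611686087147390976) (.ev (nat_lit 5728) (nat_lit 563499709235200) .dd))) (.ch (nat_lit 8) (.ev (nat_lit 3696)
 (nat_lit 563499709761536) (.ev (nat_lit 3956) (nat_lit 4611686018427387904) (.ev (nat_lit 3965) (nat_lit
 68719476736) .dd)))))) (.br (nat_lit 14) (.br (nat_lit 10) (.ch (nat_lit 9) (.ev (nat_lit 3696) (nat_lit
 4611686087147390976) (.ev (nat_lit 3828) (nat_lit 549755813888) (.ev (nat_lit 3837) (nat_lit 562949953421312)
 .dd)))) (.ch (nat_lit 10) (.ev (nat_lit 3696) (nat_lit 4612249586856626176) .dd))) (.br (nat_lit 15) (.ch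
 (nat_lit 14) (.ev (nat_lit 3696) (nat_lit 618475816960) (.ev (nat_lit 3732) (nat_lit 4611686018427387904) (.ev
 (nat_lit 3741) (nat_lit 562949953421312) .dd)))) (.br (nat_lit 17) (.ch (nat_lit 15) (.ev (nat_lit 3696)
 (nat_lit 4611686636903204864) (.ev (nat_lit 3709) (nat_lit 562949953421312) .dd))) (.ch (nat_lit 17) (.ev
 (nat_lit 3696) (nat_lit 4612249586856099840) (.ev (nat_lit 5600) (nat_lit 524288) (.ev (nat_lit 5613) (nat_lit
 2048) .dd)))))))) (.br (nat_lit 36) (.br (nat_lit 32) (.br (nat_lit 31) (.ch (nat_lit 29) (.ev (nat_lit 3696)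
 (nat_lit 4612249518136625152) (.ev (nat_lit 5524) (nat_lit 68719476736) (.ev (nat_lit 5533) (nat_lit 524288)
 .dd)))) (.ch (nat_lit 31) (.ev (nat_lit 3696) (nat_lit 618475816960) (.ev (nat_lit 3780) (nat_lit
 4611686018427387904) (.ev (nat_lit 3789) (nat_lit 562949953421312) .dd))))) (.br (nat_lit 35) (.ch (nat_lit
 32) (.ev (nat_lit 3696) (nat_lit 4612249586856101888) (.ev (nat_lit 3709) (nat_lit 524288) .dd))) (.ch
 (nat_lit 35) (.ev (nat_lit 3696) (nat_lit 563568428713984) (.ev (nat_lit 5568) (nat_lit 4611686018427387904)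
 (.ev (nat_lit 5581) (nat_lit 524288) .dd)))))) (.br (nat_lit 41) (.br (nat_lit 38) (.ch (nat_lit 36) (.ev
 (nat_lit 3696) (nat_lit 4612248968381335552) (.ev (nat_lit 3828) (nat_lit 68719476736) (.ev (nat_lit 3837)
 (nat_lit 549755813888) .dd)))) (.ch (nat_lit 38) (.ev (nat_lit 3696) (nat_lit 68720003072) (.ev (nat_lit 3732)
 (nat_lit 4612248968380809216) (.ev (nat_lit 3741) (nat_lit 549755813888) .dd))))) (.br (nat_lit 45) (.ch
 (nat_lit 41) (.ev (nat_lit 3696) (nat_lit 563499709237248) (.ev (nat_lit 4564) (nat_lit 4611686018427387904)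
 (.fin (nat_lit 576474496213926468))))) (.br (nat_lit 46) (.ch (nat_lit 45) (.ev (nat_lit 3696) (nat_lit
 4612249586856626176) .dd)) (.ch (nat_lit 46) (.ev (nat_lit 3696) (nat_lit 563568429238272) (.ev (nat_lit 3709)
 (nat_lit 4611686018427387904) .dd)))))))))))))))))))) (.br (nat_lit 50) (.ch (nat_lit 49) (.ev (nat_lit 52)
 (nat_lit 4612548112924870656) (.ev (nat_lit 724) (nat_lit 549755813888) (.ev (nat_lit 852) (nat_lit
 146366987889541120) (.ev (nat_lit 1172) (nat_lit 2) (.ev (nat_lit 2004) (nat_lit 256) (.ev (nat_lit 3168)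
 (nat_lit 1512922370339569172480) .dd))))))) (.br (nat_lit 52) (.ch (nat_lit 50) (.ev (nat_lit 52) (nat_lit
 432908585052209152) (.ev (nat_lit 212) (nat_lit 2251799813685248) (.ev (nat_lit 1012) (nat_lit
 281474976710656) (.ev (nat_lit 1844) (nat_lit 1180591620717411303424) (.ev (nat_lit 2068) (nat_lit 2) (.ev
 (nat_lit 2612) (nat_lit 4611686018427387904) (.ev (nat_lit 2804) (nat_lit 32768) (.ev (nat_lit 3156) (nat_lit
 1125899906842624) (.ev (nat_lit 3636) (nat_lit 295147905179352825856) (.nd (nat_lit 3680) (.br (nat_lit 30)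
 (.br (nat_lit 20) (.br (nat_lit 10) (.ch (nat_lit 7) (.ev (nat_lit 3696) (nat_lit 549756338176) (.ev (nat_lit
 3780) (nat_lit 17592186044672) (.ev (nat_lit 5472) (nat_lit 67108864) (.ev (nat_lit 5744) (nat_lit 8589934592)
 (.ev (nat_lit 5760) (nat_lit 36893488147419103232) (.ev (nat_lit 5910) (nat_lit 17179871232) .dd))))))) (.br
 (nat_lit 15) (.ch (nat_lit 10) (.ev (nat_lit 3696) (nat_lit 36893505765375477760) (.ev (nat_lit 3732) (nat_lit
 67109120) (.ev (nat_lit 3741) (nat_lit 549755813888) .dd)))) (.ch (nat_lit 15) (.ev (nat_lit 3696) (nat_lit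
 36893488714422421504) (.ev (nat_lit 3732) (nat_lit 256) (.ev (nat_lit 5776) (nat_lit 17592186044416) (.ev
 (nat_lit 5789) (nat_lit 8589934592) .dd))))))) (.br (nat_lit 27) (.ch (nat_lit 20) (.ev (nat_lit 3696)
 (nat_lit 36893506289428596992) (.ev (nat_lit 3780) (nat_lit 17179869184) (.ev (nat_lit 3789) (nat_lit
 8589934592) .dd)))) (.br (nat_lit 29) (.ch (nat_lit 27) (.ev (nat_lit 3696) (nat_lit 36893488722945247232)
 (.ev (nat_lit 3732) (nat_lit 17592186044416) (.ev (nat_lit 4176) (nat_lit 256) (.ev (nat_lit 4189) (nat_lit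
 67108864) .dd))))) (.ch (nat_lit 29) (.ev (nat_lit 3696) (nat_lit 575592728576) (.ev (nat_lit 3732) (nat_lit
 256) (.ev (nat_lit 5524) (nat_lit 17592186044416) (.ev (nat_lit 5536) (nat_lit 36893488147419103232) (.ev
 (nat_lit 5549) (nat_lit 524288) .dd))))))))) (.br (nat_lit 40) (.br (nat_lit 31) (.ch (nat_lit 30) (.ev
 (nat_lit 3696) (nat_lit 36893505756852650240) (.ev (nat_lit 3780) (nat_lit 8589934592) (.ev (nat_lit 5232)
 (nat_lit 549755813888) (.ev (nat_lit 5245) (nat_lit 2048) .dd))))) (.br (nat_lit 36) (.ch (nat_lit 31) (.ev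
 (nat_lit 3696) (nat_lit 36893506315198400768) .dd)) (.ch (nat_lit 36) (.ev (nat_lit 3696) (nat_lit
 18159122254080) (.ev (nat_lit 3780) (nat_lit 36893488147419103232) (.ev (nat_lit 5536) (nat_lit 8589934592)
 (.ev (nat_lit 5549) (nat_lit 67108864) .dd))))))) (.br (nat_lit 44) (.br (nat_lit 41) (.ch (nat_lit 40) (.ev
 (nat_lit 3696) (nat_lit 18159122254080) (.ev (nat_lit 3780) (nat_lit 67108864) (.ev (nat_lit 5700) (nat_lit
 36893488147419103232) (.ev (nat_lit 5709) (nat_lit 8589934592) .dd))))) (.ch (nat_lit 41) (.ev (nat_lit 3696)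
 (nat_lit 36893506315198400768) .dd))) (.br (nat_lit 46) (.ch (nat_lit 44) (.ev (nat_lit 3696) (nat_lit
 25836914944) (.ev (nat_lit 3732) (nat_lit 549756338176) (.ev (nat_lit 5712) (nat_lit 36893505739605147648)
 .dd)))) (.ch (nat_lit 46) (.ev (nat_lit 3696) (nat_lit 36893488723011831808) (.ev (nat_lit 3732) (nat_lit 256)
 (.ev (nat_lit 4324) (nat_lit 17592186044416) (.ev (nat_lit 4333) (nat_lit 524288) .dd)))))))))))))))))))) (.ch
 (nat_lit 52) (.ev (nat_lit 52) (nat_lit 332045053077061959938) (.ev (nat_lit 756) (nat_lit 32768) (.ev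
 (nat_lit 980) (nat_lit 68719476736) (.ev (nat_lit 2836) (nat_lit 562949953421312) (.ev (nat_lit 2868) (nat_lit
 4611686018427387904) (.nd (nat_lit 3680) (.br (nat_lit 20) (.br (nat_lit 11) (.br (nat_lit 6) (.ch (nat_lit 0)
 (.ev (nat_lit 3696) (nat_lit 1180735753497677922304) (.ev (nat_lit 4708) (nat_lit 2147483648) (.ev (nat_lit
 4976) (nat_lit 2048) (.ev (nat_lit 4989) (nat_lit 288230376151711744) .dd))))) (.br (nat_lit 8) (.ch (nat_lit
 6) (.ev (nat_lit 3696) (nat_lit 432363158561619968) (.ev (nat_lit 4820) (nat_lit 1180591620717411303424) (.ev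
 (nat_lit 5412) (nat_lit 2048) (.ev (nat_lit 5421) (nat_lit 4194304) .dd))))) (.ch (nat_lit 8) (.ev (nat_lit
 3696) (nat_lit 1181023983873829636096) (.ev (nat_lit 3709) (nat_lit 2147483648) .dd))))) (.br (nat_lit 17)
 (.br (nat_lit 15) (.ch (nat_lit 11) (.ev (nat_lit 3696) (nat_lit 432345566379771904) (.ev (nat_lit 5700)
 (nat_lit 1180591620717411303424) (.ev (nat_lit 5709) (nat_lit 17592186044416) .dd)))) (.ch (nat_lit 15) (.ev
 (nat_lit 3696) (nat_lit 1180879851095715219456) (.ev (nat_lit 3732) (nat_lit 17592186044416) (.ev (nat_lit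
 3741) (nat_lit 144115188075855872) .dd))))) (.br (nat_lit 19) (.ch (nat_lit 17) (.ev (nat_lit 3696) (nat_lit
 1180879868687896545280) (.ev (nat_lit 3744) (nat_lit 4194304) (.ev (nat_lit 5552) (nat_lit 524288) (.ev
 (nat_lit 5565) (nat_lit 144115188075855872) .dd))))) (.ch (nat_lit 19) (.ev (nat_lit 3696) (nat_lit
 1181023983873829111808) (.ev (nat_lit 3712) (nat_lit 524288) (.ev (nat_lit 3725) (nat_lit 2147483648)
 .dd))))))) (.br (nat_lit 35) (.br (nat_lit 30) (.br (nat_lit 27) (.ch (nat_lit 20) (.ev (nat_lit 3696)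
 (nat_lit 1180879868687901263872) (.ev (nat_lit 3709) (nat_lit 144115188075855872) .dd))) (.ch (nat_lit 27)
 (.ev (nat_lit 3696) (nat_lit 1180879851095711025152) (.ev (nat_lit 5700) (nat_lit 17592186044416) (.ev
 (nat_lit 5808) (nat_lit 144115188075855872) (.ev (nat_lit 5821) (nat_lit 4194304) .dd)))))) (.br (nat_lit 31)
 (.ch (nat_lit 30) (.ev (nat_lit 3696) (nat_lit 1180879868687901263872) (.ev (nat_lit 3709) (nat_lit
 144115188075855872) .dd))) (.ch (nat_lit 31) (.ev (nat_lit 3696) (nat_lit 1180735753497677398016) (.ev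
 (nat_lit 4004) (nat_lit 288230376151711744) (.ev (nat_lit 4820) (nat_lit 2048) (.ev (nat_lit 5712) (nat_lit
 2147483648) (.ev (nat_lit 5725) (nat_lit 524288) .dd)))))))) (.br (nat_lit 44) (.br (nat_lit 40) (.ch (nat_lit
 35) (.ev (nat_lit 3696) (nat_lit 432363156418332672) (.ev (nat_lit 3956) (nat_lit 1180591620717411303424) (.ev
 (nat_lit 3965) (nat_lit 2147483648) .dd)))) (.ch (nat_lit 40) (.ev (nat_lit 3696) (nat_lit
 1180735753497677400064) (.ev (nat_lit 3732) (nat_lit 288230376151711744) (.ev (nat_lit 5712) (nat_lit 524288)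
 (.ev (nat_lit 5725) (nat_lit 2147483648) .dd)))))) (.br (nat_lit 45) (.ch (nat_lit 44) (.ev (nat_lit 3696)
 (nat_lit 1180735753497673730048) (.ev (nat_lit 5412) (nat_lit 4194304) (.ev (nat_lit 5632) (nat_lit
 2147483648) (.ev (nat_lit 5645) (nat_lit 288230376151711744) .dd))))) (.ch (nat_lit 45) (.ev (nat_lit 3696)
 (nat_lit 1181023966283791073280) (.ev (nat_lit 3732) (nat_lit 17592186044416) (.ev (nat_lit 3741) (nat_lit
 2048) .dd)))))))))))))))))))))))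

/-- Subtrie. -/
noncomputable def T2 : Tr := (.ev (nat_lit 20) (nat_lit 904236674735141558400) (.nd (nat_lit 33) (.br (nat_lit
 31) (.br (nat_lit 16) (.br (nat_lit 10) (.br (nat_lit 6) (.br (nat_lit 5) (.ch (nat_lit 4) (.ev (nat_lit 52)
 (nat_lit 37037695714335916064) (.ev (nat_lit 308) (nat_lit 16777216) (.ev (nat_lit 916) (nat_lit
 8796093022208) (.ev (nat_lit 1428) (nat_lit 8) (.ev (nat_lit 1492) (nat_lit 4611686018427387904) (.ev (nat_lit
 1652) (nat_lit 65536) (.ev (nat_lit 3124) (nat_lit 9007199254740992) (.ev (nat_lit 3284) (nat_lit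
 281474976710656) (.nd (nat_lit 3680) (.br (nat_lit 22) (.br (nat_lit 11) (.br (nat_lit 8) (.br (nat_lit 7)
 (.ch (nat_lit 2) (.ev (nat_lit 3696) (nat_lit 1328165714044576071954) (.ev (nat_lit 5744) (nat_lit 32768) (.ev
 (nat_lit 5757) (nat_lit 4194304) .dd)))) (.ch (nat_lit 7) (.ev (nat_lit 3696) (nat_lit 147574093327168962818)
 (.ev (nat_lit 3828) (nat_lit 16) (.ev (nat_lit 5012) (nat_lit 1180591620717411303424) (.ev (nat_lit 5021)
 (nat_lit 32768) .dd)))))) (.br (nat_lit 10) (.ch (nat_lit 8) (.ev (nat_lit 3696) (nat_lit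
 1328165573307091943696) (.ev (nat_lit 5700) (nat_lit 140737488355328) (.ev (nat_lit 5709) (nat_lit 2) .dd))))
 (.ch (nat_lit 10) (.ev (nat_lit 3696) (nat_lit 1328165714044580266242) (.ev (nat_lit 4468) (nat_lit 16) (.ev
 (nat_lit 4477) (nat_lit 32768) .dd)))))) (.br (nat_lit 18) (.br (nat_lit 16) (.ch (nat_lit 11) (.ev (nat_lit
 3696) (nat_lit 1180591620717411336466) (.ev (nat_lit 3780) (nat_lit 147573952589676412928) (.ev (nat_lit 5524)
 (nat_lit 4194304) (.ev (nat_lit 5533) (nat_lit 140737488355328) .dd))))) (.ch (nat_lit 16) (.ev (nat_lit 3696)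
 (nat_lit 1180591761454903853330) (.ev (nat_lit 3828) (nat_lit 32768) (.ev (nat_lit 3837) (nat_lit
 147573952589676412928) .dd))))) (.br (nat_lit 20) (.ch (nat_lit 18) (.ev (nat_lit 3696) (nat_lit
 1328165714044580298770) (.ev (nat_lit 3709) (nat_lit 256) .dd))) (.br (nat_lit 21) (.ch (nat_lit 20) (.ev
 (nat_lit 3696) (nat_lit 1328165573307087749378) (.ev (nat_lit 3780) (nat_lit 16) (.ev (nat_lit 5776) (nat_lit
 140737492549632) .dd)))) (.ch (nat_lit 21) (.ev (nat_lit 3696) (nat_lit 1328165714044580266258) (.ev (nat_lit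
 3709) (nat_lit 32768) .dd))))))) (.br (nat_lit 35) (.br (nat_lit 28) (.br (nat_lit 24) (.ch (nat_lit 22) (.ev
 (nat_lit 3696) (nat_lit 1328165714044580298770) (.ev (nat_lit 3709) (nat_lit 256) .dd))) (.ch (nat_lit 24)
 (.ev (nat_lit 3696) (nat_lit 1328165714044580299026) .dd))) (.br (nat_lit 31) (.ch (nat_lit 28) (.ev (nat_lit
 3696) (nat_lit 1328165573307091943426) (.ev (nat_lit 5552) (nat_lit 16) (.ev (nat_lit 5700) (nat_lit 256) (.ev
 (nat_lit 5709) (nat_lit 140737488355328) .dd))))) (.ch (nat_lit 31) (.ev (nat_lit 3696) (nat_lit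
 147573952589680607506) (.ev (nat_lit 4324) (nat_lit 140737488355328) (.ev (nat_lit 5524) (nat_lit 32768) (.ev
 (nat_lit 5533) (nat_lit 1180591620717411303424) .dd))))))) (.br (nat_lit 38) (.br (nat_lit 37) (.ch (nat_lit
 35) (.ev (nat_lit 3696) (nat_lit 147573952589680607506) (.ev (nat_lit 3732) (nat_lit 1180591620717411303424)
 (.ev (nat_lit 4292) (nat_lit 32768) (.ev (nat_lit 4301) (nat_lit 140737488355328) .dd))))) (.ch (nat_lit 37)
 (.ev (nat_lit 3696) (nat_lit 1328165714044580299026) .dd))) (.br (nat_lit 40) (.ch (nat_lit 38) (.ev (nat_lit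
 3696) (nat_lit 33042) (.ev (nat_lit 3860) (nat_lit 147573952589676412928) (.ev (nat_lit 5524) (nat_lit
 1180591620717411303424) (.ev (nat_lit 5600) (nat_lit 4194304) (.ev (nat_lit 5613) (nat_lit 140737488355328)
 .dd)))))) (.br (nat_lit 46) (.ch (nat_lit 40) (.ev (nat_lit 3696) (nat_lit 140737488355584) (.ev (nat_lit
 4772) (nat_lit 4194304) (.ev (nat_lit 5268) (nat_lit 2) (.ev (nat_lit 5808) (nat_lit 1328165573307087749136)
 .dd))))) (.ch (nat_lit 46) (.ev (nat_lit 3696) (nat_lit 147573952589680640274) (.ev (nat_lit 5700) (nat_lit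
 1180591620717411303424) (.ev (nat_lit 5709) (nat_lit 140737488355328) .dd))))))))))))))))))) (.ch (nat_lit 5)
 (.ev (nat_lit 52) (nat_lit 37046896409937281042) (.ev (nat_lit 532) (nat_lit 8796093022208) (.ev (nat_lit 628)
 (nat_lit 256) (.ev (nat_lit 948) (nat_lit 17179869184) (.ev (nat_lit 1876) (nat_lit 140737488355328) (.ev
 (nat_lit 2292) (nat_lit 70368744177664) (.ev (nat_lit 2912) (nat_lit 1332777276918242213928) .dd))))))))) (.br
 (nat_lit 9) (.ch (nat_lit 6) (.ev (nat_lit 52) (nat_lit 1328318700095149211658) (.ev (nat_lit 84) (nat_lit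
 256) (.ev (nat_lit 244) (nat_lit 4194304) (.ev (nat_lit 372) (nat_lit 140737488355328) (.ev (nat_lit 852)
 (nat_lit 65536) (.ev (nat_lit 2196) (nat_lit 16) (.ev (nat_lit 2388) (nat_lit 281474976710656) (.ev (nat_lit
 3412) (nat_lit 17179869184) (.nd (nat_lit 3680) (.br (nat_lit 24) (.br (nat_lit 7) (.br (nat_lit 5) (.ch
 (nat_lit 4) (.ev (nat_lit 3696) (nat_lit 41505270922886512672) .dd)) (.br (nat_lit 6) (.ch (nat_lit 5) (.ev
 (nat_lit 3696) (nat_lit 4611765183281365024) (.ev (nat_lit 3732) (nat_lit 36893488147419103232) (.ev (nat_lit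
 3741) (nat_lit 17592186044416) .dd)))) (.ch (nat_lit 6) (.ev (nat_lit 3696) (nat_lit 41505182961939513344)
 (.ev (nat_lit 4004) (nat_lit 17592186044416) (.ev (nat_lit 5524) (nat_lit 16777216) (.ev (nat_lit 5700)
 (nat_lit 70368744177664) (.ev (nat_lit 5709) (nat_lit 32) .dd)))))))) (.br (nat_lit 18) (.br (nat_lit 16) (.ch
 (nat_lit 7) (.ev (nat_lit 3696) (nat_lit 4611773979374387232) (.ev (nat_lit 3780) (nat_lit
 36893488147419103232) (.ev (nat_lit 3789) (nat_lit 8796093022208) .dd)))) (.ch (nat_lit 16) (.ev (nat_lit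
 3696) (nat_lit 41505253330700468256) (.ev (nat_lit 3709) (nat_lit 17592186044416) .dd)))) (.br (nat_lit 20)
 (.ch (nat_lit 18) (.ev (nat_lit 3696) (nat_lit 4611782775467409440) (.ev (nat_lit 3709) (nat_lit
 36893488147419103232) .dd))) (.ch (nat_lit 20) (.ev (nat_lit 3696) (nat_lit 96757040021536) (.ev (nat_lit
 3732) (nat_lit 4611686018427387904) (.ev (nat_lit 3741) (nat_lit 36893488147419103232) .dd))))))) (.br
 (nat_lit 37) (.br (nat_lit 32) (.br (nat_lit 30) (.ch (nat_lit 24) (.ev (nat_lit 3696) (nat_lit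
 17592186044448) (.ev (nat_lit 3828) (nat_lit 16777216) (.ev (nat_lit 5440) (nat_lit 4611686018427387904) (.ev
 (nat_lit 5700) (nat_lit 8796093022208) (.ev (nat_lit 5712) (nat_lit 36893488147419103232) (.ev (nat_lit 5725)
 (nat_lit 70368744177664) .dd))))))) (.ch (nat_lit 30) (.ev (nat_lit 3696) (nat_lit 87960930222112) (.ev
 (nat_lit 5524) (nat_lit 16777216) (.ev (nat_lit 5700) (nat_lit 36893496943512125440) (.ev (nat_lit 5709)
 (nat_lit 4611686018427387904) .dd)))))) (.br (nat_lit 35) (.ch (nat_lit 32) (.ev (nat_lit 3696) (nat_lit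
 41505200554125557792) (.ev (nat_lit 5712) (nat_lit 70368744177664) (.ev (nat_lit 5725) (nat_lit 16777216)
 .dd)))) (.ch (nat_lit 35) (.ev (nat_lit 3696) (nat_lit 41505270922869735456) (.ev (nat_lit 3709) (nat_lit
 16777216) .dd))))) (.br (nat_lit 39) (.br (nat_lit 38) (.ch (nat_lit 37) (.ev (nat_lit 3696) (nat_lit
 36893514535714947104) (.ev (nat_lit 5584) (nat_lit 4611686018427387904) (.ev (nat_lit 5597) (nat_lit
 70368744177664) .dd)))) (.ch (nat_lit 38) (.ev (nat_lit 3696) (nat_lit 36893505739621924896) (.ev (nat_lit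
 3780) (nat_lit 70368744177664) (.ev (nat_lit 5120) (nat_lit 4611686018427387904) (.ev (nat_lit 5133) (nat_lit
 8796093022208) .dd)))))) (.br (nat_lit 45) (.ch (nat_lit 39) (.ev (nat_lit 3696) (nat_lit
 36893584904459124768) (.ev (nat_lit 3709) (nat_lit 4611686018427387904) .dd))) (.ch (nat_lit 45) (.ev (nat_lit
 3696) (nat_lit 96757040021504) (.ev (nat_lit 5136) (nat_lit 36893488147419103232) (.ev (nat_lit 5312) (nat_lit
 4611686018427387904) (.ev (nat_lit 5325) (nat_lit 32) .dd))))))))))))))))))) (.ch (nat_lit 9) (.ev (nat_lit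
 52) (nat_lit 4764949145414828056) (.ev (nat_lit 372) (nat_lit 536870912) (.ev (nat_lit 1088) (nat_lit
 1365059444101733220642) .dd)))))) (.br (nat_lit 12) (.br (nat_lit 11) (.ch (nat_lit 10) (.ev (nat_lit 52)
 (nat_lit 4620776797762552120) (.ev (nat_lit 212) (nat_lit 2147483648) (.ev (nat_lit 308) (nat_lit
 140737488355328) (.ev (nat_lit 852) (nat_lit 17592186044416) (.ev (nat_lit 1428) (nat_lit
 1180591620717411303424) (.ev (nat_lit 1876) (nat_lit 536870912) (.ev (nat_lit 2100) (nat_lit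
 147573952589676412928) (.ev (nat_lit 2132) (nat_lit 2) (.ev (nat_lit 2932) (nat_lit 144115188075855872) (.nd
 (nat_lit 3680) (.br (nat_lit 26) (.br (nat_lit 7) (.br (nat_lit 4) (.ch (nat_lit 1) (.ev (nat_lit 3696)
 (nat_lit 36893488147423330304) (.ev (nat_lit 3709) (nat_lit 281474976710656) .dd))) (.br (nat_lit 5) (.ch
 (nat_lit 4) (.ev (nat_lit 3696) (nat_lit 281474976743424) (.ev (nat_lit 3732) (nat_lit 4194304) (.ev (nat_lit
 3741) (nat_lit 36893488147419103232) .dd)))) (.ch (nat_lit 5) (.ev (nat_lit 3696) (nat_lit 281474980937728)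
 (.ev (nat_lit 3709) (nat_lit 36893488147419103232) .dd))))) (.br (nat_lit 10) (.br (nat_lit 8) (.ch (nat_lit
 7) (.ev (nat_lit 3696) (nat_lit 4194304) (.ev (nat_lit 3732) (nat_lit 32768) (.ev (nat_lit 5700) (nat_lit
 36893488147419103232) (.ev (nat_lit 5709) (nat_lit 281474976710656) .dd))))) (.ch (nat_lit 8) (.ev (nat_lit
 3696) (nat_lit 36893769622400040960) .dd))) (.br (nat_lit 22) (.ch (nat_lit 10) (.ev (nat_lit 3696) (nat_lit
 36893488147423330304) (.ev (nat_lit 3709) (nat_lit 281474976710656) .dd))) (.ch (nat_lit 22) (.ev (nat_lit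
 3696) (nat_lit 281474980937728) (.ev (nat_lit 3709) (nat_lit 36893488147419103232) .dd)))))) (.br (nat_lit 35)
 (.br (nat_lit 30) (.br (nat_lit 28) (.ch (nat_lit 26) (.ev (nat_lit 3696) (nat_lit 36893488147419103232) (.ev
 (nat_lit 3732) (nat_lit 4194304) (.ev (nat_lit 4832) (nat_lit 32768) (.ev (nat_lit 4845) (nat_lit
 281474976710656) .dd))))) (.ch (nat_lit 28) (.ev (nat_lit 3696) (nat_lit 36893769622400008192) (.ev (nat_lit
 3709) (nat_lit 32768) .dd)))) (.br (nat_lit 31) (.ch (nat_lit 30) (.ev (nat_lit 3696) (nat_lit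
 281474980937728) (.ev (nat_lit 3709) (nat_lit 36893488147419103232) .dd))) (.ch (nat_lit 31) (.ev (nat_lit
 3732) (nat_lit 281474976743424) (.ev (nat_lit 4516) (nat_lit 4194304) (.ev (nat_lit 4525) (nat_lit
 36893488147419103232) .dd)))))) (.br (nat_lit 40) (.br (nat_lit 39) (.ch (nat_lit 35) (.ev (nat_lit 3696)
 (nat_lit 281474980904960) (.fin (nat_lit 576453605485658692)))) (.ch (nat_lit 39) (.ev (nat_lit 3696) (nat_lit
 36893769622400040960) .dd))) (.br (nat_lit 42) (.ch (nat_lit 40) (.ev (nat_lit 3696) (nat_lit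
 36893769622400040960) .dd)) (.ch (nat_lit 42) (.ev (nat_lit 3696) (nat_lit 36893769622400040960)
 .dd))))))))))))))))) (.ch (nat_lit 11) (.ev (nat_lit 52) (nat_lit 184611789021636526090) (.ev (nat_lit 148)
 (nat_lit 32) (.ev (nat_lit 500) (nat_lit 536870912) (.ev (nat_lit 532) (nat_lit 17179869184) (.ev (nat_lit
 1524) (nat_lit 9007199254740992) (.ev (nat_lit 1844) (nat_lit 16) (.ev (nat_lit 2580) (nat_lit 16777216) (.ev
 (nat_lit 2804) (nat_lit 4194304) (.ev (nat_lit 2868) (nat_lit 1180591620717411303424) (.nd (nat_lit 3680) (.br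
 (nat_lit 21) (.br (nat_lit 10) (.br (nat_lit 5) (.ch (nat_lit 2) (.ev (nat_lit 3696) (nat_lit
 4611967495551615232) (.ev (nat_lit 3709) (nat_lit 8796093022208) .dd))) (.br (nat_lit 6) (.ch (nat_lit 5) (.ev
 (nat_lit 3696) (nat_lit 4611976291644637184) (.ev (nat_lit 3709) (nat_lit 256) .dd))) (.ch (nat_lit 6) (.ev
 (nat_lit 3696) (nat_lit 4611976291644637184) (.ev (nat_lit 3709) (nat_lit 256) .dd))))) (.br (nat_lit 18) (.br
 (nat_lit 16) (.ch (nat_lit 10) (.ev (nat_lit 3696) (nat_lit 4611694816667893760) (.ev (nat_lit 5412) (nat_lit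
 281474976710656) (.ev (nat_lit 5712) (nat_lit 256) (.ev (nat_lit 5725) (nat_lit 32768) .dd))))) (.ch (nat_lit
 16) (.ev (nat_lit 3696) (nat_lit 4611967495551615232) (.ev (nat_lit 3709) (nat_lit 8796093022208) .dd)))) (.br
 (nat_lit 20) (.ch (nat_lit 18) (.ev (nat_lit 3696) (nat_lit 4611976291644637184) (.ev (nat_lit 3709) (nat_lit
 256) .dd))) (.ch (nat_lit 20) (.ev (nat_lit 3696) (nat_lit 290273217249536) (.ev (nat_lit 3709) (nat_lit
 4611686018427387904) .dd)))))) (.br (nat_lit 38) (.br (nat_lit 24) (.br (nat_lit 23) (.ch (nat_lit 21) (.ev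
 (nat_lit 3696) (nat_lit 4611976291644604672) (.ev (nat_lit 3709) (nat_lit 32768) .dd))) (.ch (nat_lit 23) (.ev
 (nat_lit 3696) (nat_lit 4611694816667893760) (.ev (nat_lit 3732) (nat_lit 281474976710656) (.ev (nat_lit 3828)
 (nat_lit 256) (.ev (nat_lit 3837) (nat_lit 32768) .dd)))))) (.br (nat_lit 37) (.ch (nat_lit 24) (.ev (nat_lit
 3696) (nat_lit 281474976743680) (.ev (nat_lit 5776) (nat_lit 4611686018427387904) (.fin (nat_lit
 576461302078587464))))) (.ch (nat_lit 37) (.ev (nat_lit 3696) (nat_lit 4611686020574904576) (.ev (nat_lit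
 3732) (nat_lit 8796093022208) (.ev (nat_lit 3741) (nat_lit 281474976710656) .dd)))))) (.br (nat_lit 40) (.br
 (nat_lit 39) (.ch (nat_lit 38) (.ev (nat_lit 3696) (nat_lit 4611976291644637440) .dd)) (.ch (nat_lit 39) (.ev
 (nat_lit 3696) (nat_lit 4611694816667894016) (.ev (nat_lit 3732) (nat_lit 32768) (.ev (nat_lit 3741) (nat_lit
 281474976710656) .dd))))) (.br (nat_lit 42) (.ch (nat_lit 40) (.ev (nat_lit 3696) (nat_lit
 4611976291644604672) (.ev (nat_lit 3709) (nat_lit 32768) .dd))) (.ch (nat_lit 42) (.ev (nat_lit 3696) (nat_lit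
 4611976291644637440) .dd)))))))))))))))))) (.br (nat_lit 15) (.ch (nat_lit 12) (.ev (nat_lit 52) (nat_lit
 1332786486427095400714) (.ev (nat_lit 1492) (nat_lit 2147483648) (.ev (nat_lit 1524) (nat_lit 16) (.ev
 (nat_lit 2228) (nat_lit 281474976710656) (.ev (nat_lit 2548) (nat_lit 536870912) (.ev (nat_lit 2644) (nat_lit
 4398046511104) (.ev (nat_lit 3092) (nat_lit 36893488147419103232) (.nd (nat_lit 3680) (.br (nat_lit 26) (.br
 (nat_lit 11) (.br (nat_lit 8) (.br (nat_lit 7) (.ch (nat_lit 2) (.ev (nat_lit 3696) (nat_lit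
 144115205276696608) (.ev (nat_lit 3732) (nat_lit 32768) (.ev (nat_lit 5700) (nat_lit 65536) (.ev (nat_lit
 5709) (nat_lit 17592186044416) .dd))))) (.ch (nat_lit 7) (.ev (nat_lit 3696) (nat_lit 144132797462806528) (.ev
 (nat_lit 5524) (nat_lit 32) (.ev (nat_lit 5533) (nat_lit 32768) .dd))))) (.br (nat_lit 10) (.ch (nat_lit 8)
 (.ev (nat_lit 3696) (nat_lit 144115205260017696) (.ev (nat_lit 3860) (nat_lit 16777216) (.ev (nat_lit 3869)
 (nat_lit 17592186044416) .dd)))) (.ch (nat_lit 10) (.ev (nat_lit 3696) (nat_lit 144132797462806528) (.ev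
 (nat_lit 3860) (nat_lit 32) (.ev (nat_lit 3869) (nat_lit 32768) .dd)))))) (.br (nat_lit 20) (.br (nat_lit 16)
 (.ch (nat_lit 11) (.ev (nat_lit 3696) (nat_lit 144115205260017696) (.ev (nat_lit 4292) (nat_lit
 17592186044416) (.ev (nat_lit 4301) (nat_lit 16777216) .dd)))) (.ch (nat_lit 16) (.ev (nat_lit 3696) (nat_lit
 17200906272) (.ev (nat_lit 3732) (nat_lit 17592186044416) (.ev (nat_lit 5424) (nat_lit 144115188075855872)
 (.ev (nat_lit 5437) (nat_lit 32768) .dd)))))) (.br (nat_lit 23) (.ch (nat_lit 20) (.ev (nat_lit 3696) (nat_lit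
 144132780282904608) (.ev (nat_lit 3732) (nat_lit 65536) (.ev (nat_lit 3741) (nat_lit 17179869184) .dd)))) (.ch
 (nat_lit 23) (.ev (nat_lit 3696) (nat_lit 144132797445996544) (.ev (nat_lit 5524) (nat_lit 32) (.ev (nat_lit
 5700) (nat_lit 65536) (.ev (nat_lit 5709) (nat_lit 16777216) .dd)))))))) (.br (nat_lit 37) (.br (nat_lit 30)
 (.br (nat_lit 28) (.ch (nat_lit 26) (.ev (nat_lit 3696) (nat_lit 144115205272600608) (.ev (nat_lit 5280)
 (nat_lit 17592186044416) (.ev (nat_lit 5293) (nat_lit 4194304) .dd)))) (.ch (nat_lit 28) (.ev (nat_lit 3696)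
 (nat_lit 17609370206240) (.ev (nat_lit 5700) (nat_lit 16777216) (.ev (nat_lit 5709) (nat_lit
 144115188075855872) .dd))))) (.br (nat_lit 35) (.ch (nat_lit 30) (.ev (nat_lit 3696) (nat_lit 17609370206240)
 (.ev (nat_lit 5700) (nat_lit 16777216) (.ev (nat_lit 5709) (nat_lit 144115188075855872) .dd)))) (.ch (nat_lit
 35) (.ev (nat_lit 3696) (nat_lit 144132797462773760) (.ev (nat_lit 5792) (nat_lit 32) (.ev (nat_lit 5805)
 (nat_lit 65536) .dd)))))) (.br (nat_lit 42) (.br (nat_lit 39) (.ch (nat_lit 37) (.ev (nat_lit 3696) (nat_lit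
 144132797462773760) (.ev (nat_lit 5712) (nat_lit 32) (.ev (nat_lit 5725) (nat_lit 65536) .dd)))) (.ch (nat_lit
 39) (.ev (nat_lit 3696) (nat_lit 144132780282937376) (.ev (nat_lit 5360) (nat_lit 32768) (.ev (nat_lit 5373)
 (nat_lit 17179869184) .dd))))) (.br (nat_lit 45) (.ch (nat_lit 42) (.ev (nat_lit 3696) (nat_lit
 17609370206208) (.ev (nat_lit 5472) (nat_lit 32) (.ev (nat_lit 5760) (nat_lit 144115188092633088) .dd)))) (.ch
 (nat_lit 45) (.ev (nat_lit 3696) (nat_lit 17609382789152) (.ev (nat_lit 3732) (nat_lit 144115188075855872)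
 (.ev (nat_lit 3741) (nat_lit 4194304) .dd))))))))))))))))) (.ch (nat_lit 15) (.ev (nat_lit 52) (nat_lit
 4611694832241377544) (.ev (nat_lit 288) (nat_lit 1365212698415443542066) .dd)))))) (.br (nat_lit 22) (.br
 (nat_lit 18) (.br (nat_lit 17) (.ch (nat_lit 16) (.ev (nat_lit 52) (nat_lit 1217629316414047322128) (.ev
 (nat_lit 404) (nat_lit 2) (.ev (nat_lit 628) (nat_lit 147573952589676412928) (.ev (nat_lit 1940) (nat_lit
 4611686018427387904) (.ev (nat_lit 2804) (nat_lit 32) (.ev (nat_lit 3156) (nat_lit 536870912) (.nd (nat_lit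
 3680) (.br (nat_lit 23) (.br (nat_lit 8) (.br (nat_lit 2) (.ch (nat_lit 1) (.ev (nat_lit 3696) (nat_lit
 8796097249280) (.ev (nat_lit 3860) (nat_lit 281474976710656) (.ev (nat_lit 5440) (nat_lit 256) (.ev (nat_lit
 5536) (nat_lit 17179869184) (.ev (nat_lit 5712) (nat_lit 8) (.ev (nat_lit 5792) (nat_lit 9007199254740992)
 (.ev (nat_lit 5805) (nat_lit 140737488355328) .dd)))))))) (.br (nat_lit 4) (.ch (nat_lit 2) (.ev (nat_lit
 3696) (nat_lit 422212469293312) (.ev (nat_lit 3780) (nat_lit 8) (.ev (nat_lit 3828) (nat_lit 9007199254740992)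
 (.ev (nat_lit 3956) (nat_lit 8796093022208) (.ev (nat_lit 3965) (nat_lit 17179869184) .dd)))))) (.ch (nat_lit
 4) (.ev (nat_lit 3696) (nat_lit 9438224992731136) (.ev (nat_lit 3732) (nat_lit 4194304) (.ev (nat_lit 5136)
 (nat_lit 8) (.ev (nat_lit 5149) (nat_lit 256) .dd))))))) (.br (nat_lit 18) (.br (nat_lit 11) (.ch (nat_lit 8)
 (.ev (nat_lit 3696) (nat_lit 9297470328701184) (.ev (nat_lit 4516) (nat_lit 17179869184) (.ev (nat_lit 4576)
 (nat_lit 140737488355328) (.ev (nat_lit 4589) (nat_lit 8) .dd))))) (.ch (nat_lit 11) (.ev (nat_lit 3696)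
 (nat_lit 9007216438837512) (.ev (nat_lit 3780) (nat_lit 8796093022208) (.ev (nat_lit 5412) (nat_lit
 140737488355328) (.ev (nat_lit 5421) (nat_lit 281474976710656) .dd)))))) (.br (nat_lit 22) (.ch (nat_lit 18)
 (.ev (nat_lit 3696) (nat_lit 9438224996892680) (.ev (nat_lit 3732) (nat_lit 32768) (.ev (nat_lit 3741)
 (nat_lit 256) .dd)))) (.ch (nat_lit 22) (.ev (nat_lit 3696) (nat_lit 9429428903903232) (.ev (nat_lit 3780)
 (nat_lit 256) (.ev (nat_lit 5524) (nat_lit 8) (.ev (nat_lit 5533) (nat_lit 8796093022208) .dd)))))))) (.br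
 (nat_lit 39) (.br (nat_lit 30) (.br (nat_lit 28) (.ch (nat_lit 23) (.ev (nat_lit 3696) (nat_lit
 9156750016020744) (.ev (nat_lit 4820) (nat_lit 4194304) (.ev (nat_lit 4829) (nat_lit 281474976710656) .dd))))
 (.ch (nat_lit 28) (.ev (nat_lit 3696) (nat_lit 9438224996925448) (.ev (nat_lit 3709) (nat_lit 256) .dd))))
 (.br (nat_lit 31) (.ch (nat_lit 30) (.ev (nat_lit 3696) (nat_lit 149550765473792) (.ev (nat_lit 3984) (nat_lit
 281474976710656) (.ev (nat_lit 5632) (nat_lit 9007199254740992) (.ev (nat_lit 5728) (nat_lit 264) .dd)))))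
 (.ch (nat_lit 31) (.ev (nat_lit 3696) (nat_lit 9438224996925704) .dd)))) (.br (nat_lit 45) (.br (nat_lit 40)
 (.ch (nat_lit 39) (.ev (nat_lit 3696) (nat_lit 9429411724034304) (.ev (nat_lit 3780) (nat_lit 8796093022208)
 (.ev (nat_lit 4612) (nat_lit 17179869184) (.ev (nat_lit 4621) (nat_lit 8) .dd))))) (.ch (nat_lit 40) (.ev
 (nat_lit 3696) (nat_lit 431025742151688) (.ev (nat_lit 4736) (nat_lit 32768) (.ev (nat_lit 5120) (nat_lit 256)
 (.ev (nat_lit 5133) (nat_lit 9007199254740992) .dd)))))) (.br (nat_lit 46) (.ch (nat_lit 45) (.ev (nat_lit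
 3696) (nat_lit 9438224996892936) (.ev (nat_lit 3709) (nat_lit 32768) .dd))) (.ch (nat_lit 46) (.ev (nat_lit
 3696) (nat_lit 9007216438837512) (.ev (nat_lit 3732) (nat_lit 140737488355328) (.ev (nat_lit 3828) (nat_lit
 8796093022208) (.ev (nat_lit 3837) (nat_lit 281474976710656) .dd))))))))))))))))) (.ch (nat_lit 17) (.ev
 (nat_lit 52) (nat_lit 1369679851446392160298) (.ev (nat_lit 468) (nat_lit 16777216) (.ev (nat_lit 1236)
 (nat_lit 4398046511104) (.ev (nat_lit 2676) (nat_lit 16) (.ev (nat_lit 2772) (nat_lit 281474976710656) (.nd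
 (nat_lit 3680) (.br (nat_lit 28) (.br (nat_lit 11) (.br (nat_lit 8) (.br (nat_lit 7) (.ch (nat_lit 4) (.ev
 (nat_lit 3696) (nat_lit 140740176904192) (.ev (nat_lit 3732) (nat_lit 256) (.ev (nat_lit 3741) (nat_lit
 144115188075855872) .dd)))) (.ch (nat_lit 7) (.ev (nat_lit 3696) (nat_lit 140740176904448) (.ev (nat_lit 3709)
 (nat_lit 144115188075855872) .dd)))) (.br (nat_lit 10) (.ch (nat_lit 8) (.ev (nat_lit 3696) (nat_lit
 144115190764404992) (.ev (nat_lit 3709) (nat_lit 140737488355328) .dd))) (.ch (nat_lit 10) (.ev (nat_lit 3696)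
 (nat_lit 144255927715889152) (.ev (nat_lit 3780) (nat_lit 536870912) (.ev (nat_lit 3789) (nat_lit 256)
 .dd)))))) (.br (nat_lit 20) (.br (nat_lit 18) (.ch (nat_lit 11) (.ev (nat_lit 3696) (nat_lit
 144255926101082368) (.ev (nat_lit 3828) (nat_lit 4194304) (.ev (nat_lit 3837) (nat_lit 2147483648) .dd))))
 (.ch (nat_lit 18) (.ev (nat_lit 3696) (nat_lit 144255928252760064) (.ev (nat_lit 3709) (nat_lit 256) .dd))))
 (.br (nat_lit 21) (.ch (nat_lit 20) (.ev (nat_lit 3696) (nat_lit 144115190227534080) (.ev (nat_lit 5760)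
 (nat_lit 140738025226240) .dd))) (.br (nat_lit 22) (.ch (nat_lit 21) (.ev (nat_lit 3696) (nat_lit
 144255928252760320) .dd)) (.ch (nat_lit 22) (.ev (nat_lit 3696) (nat_lit 140740176904192) (.ev (nat_lit 3732)
 (nat_lit 144115188075855872) (.ev (nat_lit 3741) (nat_lit 256) .dd)))))))) (.br (nat_lit 38) (.br (nat_lit 35)
 (.br (nat_lit 32) (.ch (nat_lit 28) (.ev (nat_lit 3696) (nat_lit 144115188616921088) (.ev (nat_lit 3780)
 (nat_lit 2147483648) (.ev (nat_lit 3808) (nat_lit 140737488355328) (.ev (nat_lit 3821) (nat_lit 256) .dd)))))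
 (.ch (nat_lit 32) (.ev (nat_lit 3696) (nat_lit 144255926105276416) (.ev (nat_lit 3732) (nat_lit 256) (.ev
 (nat_lit 3741) (nat_lit 2147483648) .dd))))) (.br (nat_lit 37) (.ch (nat_lit 35) (.ev (nat_lit 3696) (nat_lit
 144255928252760320) .dd)) (.ch (nat_lit 37) (.ev (nat_lit 3696) (nat_lit 144255927715889408) (.ev (nat_lit
 3709) (nat_lit 536870912) .dd))))) (.br (nat_lit 40) (.br (nat_lit 39) (.ch (nat_lit 38) (.ev (nat_lit 3696)
 (nat_lit 144115190223339520) (.ev (nat_lit 3732) (nat_lit 541065216) (.ev (nat_lit 3892) (nat_lit 256) (.ev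
 (nat_lit 3901) (nat_lit 140737488355328) .dd))))) (.ch (nat_lit 39) (.ev (nat_lit 3696) (nat_lit
 140739640033536) (.ev (nat_lit 6086) (nat_lit 144115188612726784) .dd)))) (.br (nat_lit 42) (.ch (nat_lit 40)
 (.ev (nat_lit 3696) (nat_lit 144115190764404992) (.ev (nat_lit 3709) (nat_lit 140737488355328) .dd))) (.br
 (nat_lit 45) (.ch (nat_lit 42) (.ev (nat_lit 3696) (nat_lit 2688549120) (.ev (nat_lit 5712) (nat_lit
 140737488355328) (.ev (nat_lit 5725) (nat_lit 144115188075855872) .dd)))) (.ch (nat_lit 45) (.ev (nat_lit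
 3696) (nat_lit 144255928248566016) (.ev (nat_lit 3709) (nat_lit 4194304) .dd)))))))))))))))) (.br (nat_lit 21)
 (.ch (nat_lit 18) (.ev (nat_lit 52) (nat_lit 1222097107147244536064) (.ev (nat_lit 884) (nat_lit
 70368744177664) (.ev (nat_lit 1460) (nat_lit 2) (.ev (nat_lit 2100) (nat_lit 4194304) (.ev (nat_lit 2528)
 (nat_lit 147727215731692011576) .dd)))))) (.ch (nat_lit 21) (.ev (nat_lit 52) (nat_lit 1180735973419326177576)
 (.ev (nat_lit 84) (nat_lit 4194304) (.ev (nat_lit 756) (nat_lit 147573952589676412928) (.ev (nat_lit 1364)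
 (nat_lit 4398046511104) (.ev (nat_lit 1684) (nat_lit 281474976710656) (.ev (nat_lit 1780) (nat_lit 2) (.ev
 (nat_lit 2228) (nat_lit 9007199254740992) (.nd (nat_lit 3680) (.br (nat_lit 26) (.br (nat_lit 16) (.br
 (nat_lit 6) (.ch (nat_lit 4) (.ev (nat_lit 3696) (nat_lit 4611686018981068816) (.ev (nat_lit 3709) (nat_lit
 36893488147419103232) .dd))) (.br (nat_lit 11) (.ch (nat_lit 6) (.ev (nat_lit 3696) (nat_lit
 4611686018981068816) (.ev (nat_lit 3709) (nat_lit 36893488147419103232) .dd))) (.ch (nat_lit 11) (.ev (nat_lit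
 3696) (nat_lit 41505174166400172048) .dd)))) (.br (nat_lit 22) (.br (nat_lit 21) (.ch (nat_lit 16) (.ev
 (nat_lit 3696) (nat_lit 4611686018427420688) (.ev (nat_lit 3732) (nat_lit 36893488147419103232) (.ev (nat_lit
 3840) (nat_lit 536870912) (.ev (nat_lit 3853) (nat_lit 16777216) .dd))))) (.ch (nat_lit 21) (.ev (nat_lit
 3696) (nat_lit 41505174166400139280) (.ev (nat_lit 3709) (nat_lit 32768) .dd)))) (.br (nat_lit 24) (.ch
 (nat_lit 22) (.ev (nat_lit 3696) (nat_lit 41505174166400172048) .dd)) (.ch (nat_lit 24) (.ev (nat_lit 3696)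
 (nat_lit 553680912) (.ev (nat_lit 5392) (nat_lit 4611686018427387904) (.ev (nat_lit 5405) (nat_lit
 36893488147419103232) .dd))))))) (.br (nat_lit 38) (.br (nat_lit 31) (.br (nat_lit 28) (.ch (nat_lit 26) (.ev
 (nat_lit 3696) (nat_lit 36893488147972751360) (.ev (nat_lit 3732) (nat_lit 32768) (.ev (nat_lit 3840) (nat_lit
 16) (.ev (nat_lit 3853) (nat_lit 4611686018427387904) .dd))))) (.ch (nat_lit 28) (.ev (nat_lit 3696) (nat_lit
 41505174166383362064) (.ev (nat_lit 3732) (nat_lit 32768) (.ev (nat_lit 3741) (nat_lit 16777216) .dd))))) (.br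
 (nat_lit 35) (.ch (nat_lit 31) (.ev (nat_lit 3696) (nat_lit 41505174166400139280) (.ev (nat_lit 3709) (nat_lit
 32768) .dd))) (.ch (nat_lit 35) (.ev (nat_lit 3828) (nat_lit 4611686018427387904) (.ev (nat_lit 5524) (nat_lit
 16777216) (.ev (nat_lit 5700) (nat_lit 536870912) (.ev (nat_lit 5744) (nat_lit 16) (.fin (nat_lit
 576453605485658692))))))))) (.br (nat_lit 45) (.br (nat_lit 42) (.ch (nat_lit 38) (.ev (nat_lit 3696) (nat_lit
 41505174166400172048) .dd)) (.ch (nat_lit 42) (.ev (nat_lit 3696) (nat_lit 41505174166400172048) .dd))) (.br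
 (nat_lit 46) (.ch (nat_lit 45) (.ev (nat_lit 3696) (nat_lit 41505174166400172048) .dd)) (.ch (nat_lit 46) (.ev
 (nat_lit 3696) (nat_lit 41505174166400172048) .dd))))))))))))))))) (.br (nat_lit 26) (.br (nat_lit 24) (.ch
 (nat_lit 22) (.ev (nat_lit 52) (nat_lit 1185347848534963093768) (.ev (nat_lit 276) (nat_lit 2147483648) (.ev
 (nat_lit 500) (nat_lit 16777216) (.ev (nat_lit 1716) (nat_lit 147573952589676412928) (.ev (nat_lit 2740)
 (nat_lit 16) (.nd (nat_lit 3680) (.br (nat_lit 22) (.br (nat_lit 7) (.br (nat_lit 2) (.ch (nat_lit 1) (.ev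
 (nat_lit 3696) (nat_lit 36893567312260497440) (.ev (nat_lit 3732) (nat_lit 2) (.ev (nat_lit 4852) (nat_lit
 17592186044416) (.ev (nat_lit 5700) (nat_lit 17179869184) (.ev (nat_lit 5709) (nat_lit 9007199254740992)
 .dd)))))) (.br (nat_lit 6) (.ch (nat_lit 2) (.ev (nat_lit 3696) (nat_lit 36902583324788129826) (.ev (nat_lit
 3709) (nat_lit 8796093022208) .dd))) (.ch (nat_lit 6) (.ev (nat_lit 3696) (nat_lit 36893584921622216736) (.ev
 (nat_lit 3780) (nat_lit 9007199254740992) (.ev (nat_lit 5440) (nat_lit 4194304) (.ev (nat_lit 5453) (nat_lit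
 2) .dd))))))) (.br (nat_lit 11) (.br (nat_lit 10) (.ch (nat_lit 7) (.ev (nat_lit 3696) (nat_lit
 9086381276004386) (.ev (nat_lit 3732) (nat_lit 36893488147419103232) (.ev (nat_lit 3741) (nat_lit
 17592186044416) .dd)))) (.ch (nat_lit 10) (.ev (nat_lit 3696) (nat_lit 36902592120881152002) (.ev (nat_lit
 3709) (nat_lit 32) .dd)))) (.br (nat_lit 21) (.ch (nat_lit 11) (.ev (nat_lit 3696) (nat_lit
 36902574528695107618) (.ev (nat_lit 3709) (nat_lit 17592186044416) .dd))) (.ch (nat_lit 21) (.ev (nat_lit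
 3696) (nat_lit 36902574528695107618) (.ev (nat_lit 3709) (nat_lit 17592186044416) .dd)))))) (.br (nat_lit 35)
 (.br (nat_lit 30) (.br (nat_lit 23) (.ch (nat_lit 22) (.ev (nat_lit 3696) (nat_lit 36893576125533388802) (.ev
 (nat_lit 3732) (nat_lit 32) (.ev (nat_lit 5728) (nat_lit 9007199254740992) (.ev (nat_lit 5741) (nat_lit
 8796093022208) .dd))))) (.ch (nat_lit 23) (.ev (nat_lit 3696) (nat_lit 36902592120881152000) (.ev (nat_lit
 4468) (nat_lit 2) (.ev (nat_lit 4477) (nat_lit 32) .dd))))) (.br (nat_lit 32) (.ch (nat_lit 30) (.ev (nat_lit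
 3696) (nat_lit 9103973462048800) (.ev (nat_lit 3732) (nat_lit 2) (.ev (nat_lit 3741) (nat_lit
 36893488147419103232) .dd)))) (.ch (nat_lit 32) (.ev (nat_lit 3696) (nat_lit 36902592120881152032) (.ev
 (nat_lit 3709) (nat_lit 2) .dd))))) (.br (nat_lit 40) (.br (nat_lit 37) (.ch (nat_lit 35) (.ev (nat_lit 3696)
 (nat_lit 96774207307810) (.ev (nat_lit 5424) (nat_lit 9007199254740992) (.ev (nat_lit 5437) (nat_lit
 36893488147419103232) .dd)))) (.ch (nat_lit 37) (.ev (nat_lit 3696) (nat_lit 36902521752136974368) (.ev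
 (nat_lit 3732) (nat_lit 2) (.ev (nat_lit 3741) (nat_lit 70368744177664) .dd))))) (.br (nat_lit 46) (.ch
 (nat_lit 40) (.ev (nat_lit 3696) (nat_lit 36893558533343150114) (.ev (nat_lit 3732) (nat_lit 9007199254740992)
 (.ev (nat_lit 5700) (nat_lit 8796093022208) (.ev (nat_lit 5712) (nat_lit 17592186044416) (.ev (nat_lit 5725)
 (nat_lit 4194304) .dd)))))) (.ch (nat_lit 46) (.ev (nat_lit 3696) (nat_lit 36902521734957105186) (.ev (nat_lit
 5942) (nat_lit 70385924046848) .dd)))))))))))))) (.ch (nat_lit 24) (.ev (nat_lit 52) (nat_lit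
 37046843648935756042) (.ev (nat_lit 660) (nat_lit 16) (.ev (nat_lit 1044) (nat_lit 16777216) (.ev (nat_lit
 1940) (nat_lit 2147483648) (.ev (nat_lit 2484) (nat_lit 4611686018427387904) (.ev (nat_lit 3584) (nat_lit
 1328165863578157514784) .dd)))))))) (.br (nat_lit 28) (.ch (nat_lit 26) (.ev (nat_lit 52) (nat_lit
 41514207771097071920) (.ev (nat_lit 116) (nat_lit 147573952589676412928) (.ev (nat_lit 372) (nat_lit
 144115188075855872) (.ev (nat_lit 1300) (nat_lit 4398046511104) (.ev (nat_lit 2036) (nat_lit 70368744177664)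
 (.ev (nat_lit 2560) (nat_lit 1180592042932044890122) .dd))))))) (.br (nat_lit 29) (.ch (nat_lit 28) (.ev
 (nat_lit 52) (nat_lit 1328174870795128930608) (.ev (nat_lit 180) (nat_lit 32768) (.ev (nat_lit 532) (nat_lit
 70368744177664) (.ev (nat_lit 756) (nat_lit 4194304) (.ev (nat_lit 1332) (nat_lit 17592186044416) (.ev
 (nat_lit 1620) (nat_lit 2) (.ev (nat_lit 1876) (nat_lit 144115188075855872) (.nd (nat_lit 3680) (.br (nat_lit
 26) (.br (nat_lit 11) (.br (nat_lit 6) (.ch (nat_lit 2) (.ev (nat_lit 3696) (nat_lit 41505319303528906752)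
 (.ev (nat_lit 5268) (nat_lit 16777216) (.ev (nat_lit 5277) (nat_lit 8) .dd)))) (.br (nat_lit 7) (.ch (nat_lit
 6) (.ev (nat_lit 3696) (nat_lit 41505319303545683976) .dd)) (.ch (nat_lit 7) (.ev (nat_lit 3696) (nat_lit
 4611826758080004104) (.ev (nat_lit 3828) (nat_lit 4398046511104) (.ev (nat_lit 5412) (nat_lit 65536) (.ev
 (nat_lit 5421) (nat_lit 36893488147419103232) .dd))))))) (.br (nat_lit 23) (.br (nat_lit 20) (.ch (nat_lit 11)
 (.ev (nat_lit 3696) (nat_lit 41505174165846556680) (.ev (nat_lit 3732) (nat_lit 145135534866432) (.ev (nat_lit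
 4932) (nat_lit 16777216) (.ev (nat_lit 4941) (nat_lit 2147483648) .dd))))) (.ch (nat_lit 20) (.ev (nat_lit
 3696) (nat_lit 4611826758080069640) (.ev (nat_lit 5456) (nat_lit 36893488147419103232) (.ev (nat_lit 5469)
 (nat_lit 4398046511104) .dd))))) (.br (nat_lit 24) (.ch (nat_lit 23) (.ev (nat_lit 3696) (nat_lit
 36893633282970812424) (.ev (nat_lit 5536) (nat_lit 4611686018427387904) (.ev (nat_lit 5549) (nat_lit
 2147483648) .dd)))) (.ch (nat_lit 24) (.ev (nat_lit 3696) (nat_lit 36893488147419168776) (.ev (nat_lit 3732)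
 (nat_lit 4400193994752) (.ev (nat_lit 5184) (nat_lit 4611686018427387904) (.ev (nat_lit 5712) (nat_lit
 140737488355328) (.ev (nat_lit 5725) (nat_lit 16777216) .dd))))))))) (.br (nat_lit 35) (.br (nat_lit 30) (.br
 (nat_lit 28) (.ch (nat_lit 26) (.ev (nat_lit 3696) (nat_lit 41505178566040551432) (.ev (nat_lit 3732) (nat_lit
 140737488355328) (.ev (nat_lit 3741) (nat_lit 16777216) .dd)))) (.ch (nat_lit 28) (.ev (nat_lit 3696) (nat_lit
 4611686018427453448) (.ev (nat_lit 3732) (nat_lit 4398046511104) (.ev (nat_lit 3892) (nat_lit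
 36893488147419103232) (.ev (nat_lit 3956) (nat_lit 140737488355328) (.ev (nat_lit 5760) (nat_lit 2147483648)
 (.ev (nat_lit 5773) (nat_lit 16777216) .dd)))))))) (.br (nat_lit 32) (.ch (nat_lit 30) (.ev (nat_lit 3696)
 (nat_lit 41505319301398200320) (.ev (nat_lit 3732) (nat_lit 2147483648) (.ev (nat_lit 3741) (nat_lit 8)
 .dd)))) (.ch (nat_lit 32) (.ev (nat_lit 3696) (nat_lit 36893628884924301320) (.ev (nat_lit 4468) (nat_lit
 2147483648) (.ev (nat_lit 4864) (nat_lit 4611686018427387904) (.ev (nat_lit 4877) (nat_lit 4398046511104)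
 .dd))))))) (.br (nat_lit 42) (.br (nat_lit 38) (.ch (nat_lit 35) (.ev (nat_lit 3696) (nat_lit
 4611831156109737992) (.ev (nat_lit 3780) (nat_lit 36893488147419103232) (.ev (nat_lit 5412) (nat_lit 16777216)
 (.ev (nat_lit 5421) (nat_lit 65536) .dd))))) (.ch (nat_lit 38) (.ev (nat_lit 3696) (nat_lit
 36893492547629940744) (.ev (nat_lit 3828) (nat_lit 140737488355328) (.ev (nat_lit 3837) (nat_lit
 4611686018427387904) .dd))))) (.br (nat_lit 46) (.ch (nat_lit 42) (.ev (nat_lit 3696) (nat_lit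
 41505319303545683976) .dd)) (.ch (nat_lit 46) (.ev (nat_lit 3696) (nat_lit 4611690418638225408) (.ev (nat_lit
 5552) (nat_lit 36893488147419103232) (.ev (nat_lit 5728) (nat_lit 8) (.ev (nat_lit 5741) (nat_lit
 140737488355328) .dd)))))))))))))))))) (.ch (nat_lit 29) (.ev (nat_lit 52) (nat_lit 4620979091242221608) (.ev
 (nat_lit 148) (nat_lit 147573952589676412928) (.ev (nat_lit 468) (nat_lit 144115188075855872) (.ev (nat_lit
 852) (nat_lit 2147483648) (.ev (nat_lit 948) (nat_lit 8796093022208) (.ev (nat_lit 1812) (nat_lit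
 70368744177664) (.ev (nat_lit 2036) (nat_lit 17179869184) (.ev (nat_lit 2516) (nat_lit 1180591620717411303424)
 (.ev (nat_lit 2836) (nat_lit 256) (.ev (nat_lit 3444) (nat_lit 16) (.nd (nat_lit 3680) (.br (nat_lit 26) (.br
 (nat_lit 7) (.br (nat_lit 5) (.br (nat_lit 4) (.ch (nat_lit 2) (.ev (nat_lit 3696) (nat_lit
 36893646477114507266) (.ev (nat_lit 3709) (nat_lit 65536) .dd))) (.ch (nat_lit 4) (.ev (nat_lit 3696) (nat_lit
 158329678626816) (.ev (nat_lit 3732) (nat_lit 36893488147419103232) (.ev (nat_lit 4752) (nat_lit 65536) (.ev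
 (nat_lit 5600) (nat_lit 16777216) (.ev (nat_lit 5613) (nat_lit 2) .dd))))))) (.br (nat_lit 6) (.ch (nat_lit 5)
 (.ev (nat_lit 3696) (nat_lit 36893646477114572802) .dd)) (.ch (nat_lit 6) (.ev (nat_lit 3696) (nat_lit
 140737488453632) (.ev (nat_lit 3732) (nat_lit 4194304) (.ev (nat_lit 4340) (nat_lit 2) (.ev (nat_lit 5268)
 (nat_lit 36893488147419103232) (.ev (nat_lit 5568) (nat_lit 17592186044416) (.ev (nat_lit 5581) (nat_lit
 16777216) .dd))))))))) (.br (nat_lit 20) (.br (nat_lit 11) (.ch (nat_lit 7) (.ev (nat_lit 3696) (nat_lit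
 36893646477114507266) (.ev (nat_lit 3709) (nat_lit 65536) .dd))) (.ch (nat_lit 11) (.ev (nat_lit 3696)
 (nat_lit 36893505739605245954) (.ev (nat_lit 3892) (nat_lit 140737488355328) (.ev (nat_lit 5776) (nat_lit
 4194304) (.ev (nat_lit 5789) (nat_lit 16777216) .dd)))))) (.br (nat_lit 22) (.ch (nat_lit 20) (.ev (nat_lit
 3696) (nat_lit 36893505739621957634) (.ev (nat_lit 5412) (nat_lit 140737488355328) (.ev (nat_lit 5472)
 (nat_lit 4194304) (.ev (nat_lit 5485) (nat_lit 65536) .dd))))) (.br (nat_lit 23) (.ch (nat_lit 22) (.ev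
 (nat_lit 3696) (nat_lit 36893646477114572802) .dd)) (.ch (nat_lit 23) (.ev (nat_lit 3696) (nat_lit
 36893628884911685634) (.ev (nat_lit 3732) (nat_lit 17592186044416) (.ev (nat_lit 4324) (nat_lit 16777216) (.ev
 (nat_lit 4333) (nat_lit 65536) .dd))))))))) (.br (nat_lit 35) (.br (nat_lit 30) (.br (nat_lit 28) (.ch
 (nat_lit 26) (.ev (nat_lit 3696) (nat_lit 36893488147419168770) (.ev (nat_lit 3732) (nat_lit 158329674432512)
 (.ev (nat_lit 3828) (nat_lit 4194304) (.ev (nat_lit 3837) (nat_lit 16777216) .dd))))) (.ch (nat_lit 28) (.ev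
 (nat_lit 3696) (nat_lit 36893646477114540034) (.ev (nat_lit 3709) (nat_lit 32768) .dd)))) (.br (nat_lit 31)
 (.ch (nat_lit 30) (.ev (nat_lit 3696) (nat_lit 158329695469568) (.ev (nat_lit 5700) (nat_lit 2) (.ev (nat_lit
 5709) (nat_lit 36893488147419103232) .dd)))) (.ch (nat_lit 31) (.ev (nat_lit 3696) (nat_lit
 36893646477110280194) (.ev (nat_lit 3828) (nat_lit 4194304) (.ev (nat_lit 5744) (nat_lit 32768) (.ev (nat_lit
 5757) (nat_lit 65536) .dd))))))) (.br (nat_lit 38) (.br (nat_lit 37) (.ch (nat_lit 35) (.ev (nat_lit 3696)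
 (nat_lit 158329695436802) (.ev (nat_lit 3744) (nat_lit 36893488147419103232) (.ev (nat_lit 3757) (nat_lit
 32768) .dd)))) (.ch (nat_lit 37) (.ev (nat_lit 3696) (nat_lit 36893646477114572800) (.ev (nat_lit 3709)
 (nat_lit 2) .dd)))) (.br (nat_lit 39) (.ch (nat_lit 38) (.ev (nat_lit 3696) (nat_lit 36893646477110378498)
 (.ev (nat_lit 3709) (nat_lit 4194304) .dd))) (.br (nat_lit 45) (.ch (nat_lit 39) (.ev (nat_lit 3696) (nat_lit
 36893646477097762818) (.ev (nat_lit 5700) (nat_lit 32768) (.ev (nat_lit 5709) (nat_lit 16777216) .dd)))) (.ch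
 (nat_lit 45) (.ev (nat_lit 3696) (nat_lit 36893646477114572802) .dd)))))))))))))))))))))))) (.br (nat_lit 42)
 (.br (nat_lit 38) (.br (nat_lit 36) (.br (nat_lit 33) (.ch (nat_lit 31) (.ev (nat_lit 52) (nat_lit
 36902996726127788288) (.ev (nat_lit 212) (nat_lit 4611703610613432320) (.ev (nat_lit 244) (nat_lit
 147573952589676412928) (.ev (nat_lit 308) (nat_lit 536870912) (.ev (nat_lit 340) (nat_lit 144115188075855872)
 (.ev (nat_lit 404) (nat_lit 32768) (.ev (nat_lit 2388) (nat_lit 16) (.ev (nat_lit 2612) (nat_lit 8) (.nd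
 (nat_lit 3680) (.br (nat_lit 22) (.br (nat_lit 7) (.br (nat_lit 5) (.br (nat_lit 4) (.ch (nat_lit 1) (.ev
 (nat_lit 3696) (nat_lit 1180591625132654526464) (.ev (nat_lit 5412) (nat_lit 2) (.ev (nat_lit 5421) (nat_lit
 32) .dd)))) (.ch (nat_lit 4) (.ev (nat_lit 3696) (nat_lit 4398063353856) (.ev (nat_lit 5216) (nat_lit
 17179869184) (.ev (nat_lit 5524) (nat_lit 32) (.ev (nat_lit 5744) (nat_lit 2) (.ev (nat_lit 5757) (nat_lit
 1180591620717411303424) .dd))))))) (.br (nat_lit 6) (.ch (nat_lit 5) (.ev (nat_lit 3696) (nat_lit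
 1180591625115474591778) (.ev (nat_lit 5104) (nat_lit 65536) (.ev (nat_lit 5117) (nat_lit 17179869184) .dd))))
 (.ch (nat_lit 6) (.ev (nat_lit 3696) (nat_lit 1180591625132637749280) (.ev (nat_lit 3732) (nat_lit 2) (.ev
 (nat_lit 3741) (nat_lit 16777216) .dd)))))) (.br (nat_lit 18) (.br (nat_lit 16) (.ch (nat_lit 7) (.ev (nat_lit
 3696) (nat_lit 1180591620734608015362) (.ev (nat_lit 5424) (nat_lit 4398046511104) (.ev (nat_lit 5437)
 (nat_lit 32) .dd)))) (.ch (nat_lit 16) (.ev (nat_lit 3696) (nat_lit 1180591625132654526496) (.ev (nat_lit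
 3709) (nat_lit 2) .dd)))) (.br (nat_lit 21) (.ch (nat_lit 18) (.ev (nat_lit 3696) (nat_lit 4415226445858) (.ev
 (nat_lit 3860) (nat_lit 16777216) (.ev (nat_lit 3869) (nat_lit 1180591620717411303424) .dd)))) (.ch (nat_lit
 21) (.ev (nat_lit 3696) (nat_lit 17196646434) (.ev (nat_lit 3860) (nat_lit 65536) (.ev (nat_lit 4612) (nat_lit
 1180591620717411303424) (.ev (nat_lit 4621) (nat_lit 4398046511104) .dd)))))))) (.br (nat_lit 38) (.br
 (nat_lit 31) (.br (nat_lit 24) (.ch (nat_lit 22) (.ev (nat_lit 3696) (nat_lit 1180591625132654526466) (.ev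
 (nat_lit 3709) (nat_lit 32) .dd))) (.ch (nat_lit 24) (.ev (nat_lit 3696) (nat_lit 16842786) (.ev (nat_lit
 3732) (nat_lit 4415226380288) (.ev (nat_lit 3741) (nat_lit 1180591620717411303424) .dd))))) (.br (nat_lit 32)
 (.ch (nat_lit 31) (.ev (nat_lit 3696) (nat_lit 1180591625115474657314) (.ev (nat_lit 3709) (nat_lit
 17179869184) .dd))) (.ch (nat_lit 32) (.ev (nat_lit 3696) (nat_lit 1180591620717428146210) (.ev (nat_lit 3828)
 (nat_lit 4398046511104) (.ev (nat_lit 3837) (nat_lit 17179869184) .dd)))))) (.br (nat_lit 42) (.br (nat_lit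
 40) (.ch (nat_lit 38) (.ev (nat_lit 3696) (nat_lit 1180591625132654526466) (.ev (nat_lit 3709) (nat_lit 32)
 .dd))) (.ch (nat_lit 40) (.ev (nat_lit 3696) (nat_lit 1180591625132654526496) (.ev (nat_lit 3709) (nat_lit 2)
 .dd)))) (.br (nat_lit 46) (.ch (nat_lit 42) (.ev (nat_lit 3696) (nat_lit 17196711968) (.ev (nat_lit 3828)
 (nat_lit 1180591620717411303424) (.ev (nat_lit 5808) (nat_lit 2) (.ev (nat_lit 5821) (nat_lit 4398046511104)
 .dd))))) (.ch (nat_lit 46) (.ev (nat_lit 3696) (nat_lit 4415226445858) (.ev (nat_lit 5456) (nat_lit 16777216)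
 (.ev (nat_lit 5469) (nat_lit 1180591620717411303424) .dd)))))))))))))))))) (.ch (nat_lit 33) (.ev (nat_lit 52)
 (nat_lit 1332777549613781483776) (.ev (nat_lit 352) (nat_lit 37046843633903435834) .dd)))) (.br (nat_lit 37)
 (.ch (nat_lit 36) (.ev (nat_lit 52) (nat_lit 1328318977169948704818) (.ev (nat_lit 500) (nat_lit
 140737488355328) (.ev (nat_lit 788) (nat_lit 65536) (.ev (nat_lit 1332) (nat_lit 2147483648) (.ev (nat_lit
 2420) (nat_lit 17179869184) (.ev (nat_lit 2804) (nat_lit 256) (.ev (nat_lit 3316) (nat_lit 4194304) (.nd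
 (nat_lit 3680) (.br (nat_lit 21) (.br (nat_lit 10) (.br (nat_lit 5) (.ch (nat_lit 2) (.ev (nat_lit 3696)
 (nat_lit 41505266524823224320) (.ev (nat_lit 5700) (nat_lit 8) (.ev (nat_lit 5709) (nat_lit 8796093022208)
 .dd)))) (.br (nat_lit 8) (.ch (nat_lit 5) (.ev (nat_lit 3696) (nat_lit 4611782775450632200) (.ev (nat_lit
 3780) (nat_lit 36893488147419103232) (.ev (nat_lit 3789) (nat_lit 4398046511104) .dd)))) (.ch (nat_lit 8) (.ev
 (nat_lit 3696) (nat_lit 4611756387171565568) (.ev (nat_lit 3828) (nat_lit 17592186044416) (.ev (nat_lit 5412)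
 (nat_lit 36893488147419103232) (.ev (nat_lit 5472) (nat_lit 8) (.ev (nat_lit 5552) (nat_lit 4398046511104)
 (.ev (nat_lit 5565) (nat_lit 8796093022208) .dd))))))))) (.br (nat_lit 18) (.br (nat_lit 16) (.ch (nat_lit 10)
 (.ev (nat_lit 3696) (nat_lit 41505275320916246536) .dd)) (.ch (nat_lit 16) (.ev (nat_lit 3696) (nat_lit
 41505262126776713216) (.ev (nat_lit 3780) (nat_lit 8796093022208) (.ev (nat_lit 4964) (nat_lit 4398046511104)
 (.ev (nat_lit 4973) (nat_lit 8) .dd)))))) (.br (nat_lit 20) (.ch (nat_lit 18) (.ev (nat_lit 3696) (nat_lit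
 4611787173497143304) (.ev (nat_lit 3709) (nat_lit 36893488147419103232) .dd))) (.ch (nat_lit 20) (.ev (nat_lit
 3696) (nat_lit 101155069755392) (.ev (nat_lit 5056) (nat_lit 36893488147419103232) (.ev (nat_lit 5728)
 (nat_lit 4611686018427387904) (.ev (nat_lit 5741) (nat_lit 8) .dd)))))))) (.br (nat_lit 37) (.br (nat_lit 26)
 (.br (nat_lit 24) (.ch (nat_lit 21) (.ev (nat_lit 3696) (nat_lit 41505257728730202120) (.ev (nat_lit 3709)
 (nat_lit 17592186044416) .dd))) (.ch (nat_lit 24) (.ev (nat_lit 3696) (nat_lit 4611716804752965640) (.ev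
 (nat_lit 3732) (nat_lit 36893488147419103232) (.ev (nat_lit 3741) (nat_lit 70368744177664) .dd))))) (.br
 (nat_lit 30) (.ch (nat_lit 26) (.ev (nat_lit 3696) (nat_lit 41505248932637179912) (.ev (nat_lit 5536) (nat_lit
 17592186044416) (.ev (nat_lit 5549) (nat_lit 8796093022208) .dd)))) (.ch (nat_lit 30) (.ev (nat_lit 3696)
 (nat_lit 41505275320916246528) (.ev (nat_lit 3709) (nat_lit 8) .dd))))) (.br (nat_lit 45) (.br (nat_lit 38)
 (.ch (nat_lit 37) (.ev (nat_lit 3696) (nat_lit 41505204952172068872) (.ev (nat_lit 3709) (nat_lit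
 70368744177664) .dd))) (.ch (nat_lit 38) (.ev (nat_lit 3696) (nat_lit 36893492545465614344) (.ev (nat_lit
 4004) (nat_lit 70368744177664) (.ev (nat_lit 5268) (nat_lit 8796093022208) (.ev (nat_lit 5536) (nat_lit
 4611686018427387904) (.ev (nat_lit 5549) (nat_lit 17592186044416) .dd))))))) (.br (nat_lit 46) (.ch (nat_lit
 45) (.ev (nat_lit 3696) (nat_lit 4611765183264587776) (.ev (nat_lit 5536) (nat_lit 17592186044416) (.ev
 (nat_lit 5712) (nat_lit 36893492545465614336) (.ev (nat_lit 5725) (nat_lit 8) .dd))))) (.ch (nat_lit 46) (.ev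
 (nat_lit 3696) (nat_lit 4611787173497143296) (.ev (nat_lit 3732) (nat_lit 8) (.ev (nat_lit 3741) (nat_lit
 36893488147419103232) .dd))))))))))))))))) (.ch (nat_lit 37) (.ev (nat_lit 52) (nat_lit 152185779345596416050)
 (.ev (nat_lit 448) (nat_lit 1217638613902088503560) .dd))))) (.br (nat_lit 40) (.br (nat_lit 39) (.ch (nat_lit
 38) (.ev (nat_lit 52) (nat_lit 1180735894237309042994) (.ev (nat_lit 468) (nat_lit 536870912) (.ev (nat_lit
 1024) (nat_lit 189088499009839005704) .dd)))) (.ch (nat_lit 39) (.ev (nat_lit 52) (nat_lit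
 184611626296604098818) (.ev (nat_lit 276) (nat_lit 4611686018427387904) (.ev (nat_lit 2484) (nat_lit
 17592186044416) (.ev (nat_lit 2548) (nat_lit 16777216) (.ev (nat_lit 2580) (nat_lit 140737488355328) (.ev
 (nat_lit 2964) (nat_lit 32768) (.ev (nat_lit 3188) (nat_lit 8) (.ev (nat_lit 3348) (nat_lit 32) (.nd (nat_lit
 3680) (.br (nat_lit 22) (.br (nat_lit 7) (.br (nat_lit 5) (.br (nat_lit 4) (.ch (nat_lit 2) (.ev (nat_lit
 3696) (nat_lit 1180591906590434590736) (.ev (nat_lit 3760) (nat_lit 9007199254740992) (.ev (nat_lit 4564)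
 (nat_lit 17179869184) (.ev (nat_lit 4573) (nat_lit 8796093022208) .dd))))) (.ch (nat_lit 4) (.ev (nat_lit
 3696) (nat_lit 9293089457831952) (.ev (nat_lit 4468) (nat_lit 65536) (.ev (nat_lit 5824) (nat_lit
 8796093022208) (.ev (nat_lit 5837) (nat_lit 1180591620717411303424) .dd)))))) (.br (nat_lit 6) (.ch (nat_lit
 5) (.ev (nat_lit 3696) (nat_lit 1180591633928730771456) (.ev (nat_lit 3732) (nat_lit 281474976710656) (.ev
 (nat_lit 4884) (nat_lit 16) (.ev (nat_lit 4893) (nat_lit 9007199254740992) .dd))))) (.ch (nat_lit 6) (.ev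
 (nat_lit 3696) (nat_lit 1180600641127985512464) (.ev (nat_lit 3709) (nat_lit 281474976710656) .dd))))) (.br
 (nat_lit 18) (.br (nat_lit 10) (.ch (nat_lit 7) (.ev (nat_lit 3696) (nat_lit 1180600913806869200896) (.ev
 (nat_lit 3828) (nat_lit 16) (.ev (nat_lit 3837) (nat_lit 8796093022208) .dd)))) (.ch (nat_lit 10) (.ev
 (nat_lit 3696) (nat_lit 1180591906607614459904) (.ev (nat_lit 4036) (nat_lit 16) (.ev (nat_lit 4532) (nat_lit
 8796093022208) (.ev (nat_lit 4541) (nat_lit 9007199254740992) .dd)))))) (.br (nat_lit 21) (.ch (nat_lit 18)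
 (.ev (nat_lit 3696) (nat_lit 290288249667600) (.ev (nat_lit 3828) (nat_lit 9007199254740992) (.ev (nat_lit
 5092) (nat_lit 4398046511104) (.ev (nat_lit 5101) (nat_lit 1180591620717411303424) .dd))))) (.ch (nat_lit 21)
 (.ev (nat_lit 3696) (nat_lit 1180600636729938935824) (.ev (nat_lit 3860) (nat_lit 4398046511104) (.ev (nat_lit
 5760) (nat_lit 281474976776192) .dd))))))) (.br (nat_lit 31) (.br (nat_lit 28) (.br (nat_lit 26) (.ch (nat_lit
 22) (.ev (nat_lit 3696) (nat_lit 1180591915403707482128) (.ev (nat_lit 3709) (nat_lit 9007199254740992) .dd)))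
 (.ch (nat_lit 26) (.ev (nat_lit 3696) (nat_lit 1180591906590434590720) (.ev (nat_lit 3732) (nat_lit
 9007199254740992) (.ev (nat_lit 3780) (nat_lit 16) (.ev (nat_lit 3860) (nat_lit 17179869184) (.ev (nat_lit
 3869) (nat_lit 8796093022208) .dd))))))) (.br (nat_lit 30) (.ch (nat_lit 28) (.ev (nat_lit 3696) (nat_lit
 294686296178704) (.ev (nat_lit 4976) (nat_lit 9007199254740992) (.ev (nat_lit 4989) (nat_lit
 1180591620717411303424) .dd)))) (.ch (nat_lit 30) (.ev (nat_lit 3696) (nat_lit 1180600641127985446928) (.ev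
 (nat_lit 5840) (nat_lit 281474976776192) .dd))))) (.br (nat_lit 37) (.br (nat_lit 32) (.ch (nat_lit 31) (.ev
 (nat_lit 3696) (nat_lit 1180600922602962157584) (.ev (nat_lit 3709) (nat_lit 65536) .dd))) (.ch (nat_lit 32)
 (.ev (nat_lit 3696) (nat_lit 1180600641110805643280) (.ev (nat_lit 3732) (nat_lit 281474976710656) (.ev
 (nat_lit 3741) (nat_lit 17179869184) .dd))))) (.br (nat_lit 46) (.ch (nat_lit 37) (.ev (nat_lit 3696) (nat_lit
 1180600641127985446912) (.ev (nat_lit 4004) (nat_lit 16) (.ev (nat_lit 5744) (nat_lit 281474976710656) (.ev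
 (nat_lit 5757) (nat_lit 65536) .dd))))) (.ch (nat_lit 46) (.ev (nat_lit 3696) (nat_lit 1180600922602962223120)
 .dd))))))))))))))))) (.br (nat_lit 41) (.ch (nat_lit 40) (.ev (nat_lit 52) (nat_lit 147574181307426603312)
 (.ev (nat_lit 820) (nat_lit 1180591620717411303424) (.ev (nat_lit 852) (nat_lit 4611686018427387904) (.ev
 (nat_lit 1844) (nat_lit 281474976710656) (.ev (nat_lit 2164) (nat_lit 9007199254740992) (.ev (nat_lit 2516)
 (nat_lit 8) (.ev (nat_lit 3188) (nat_lit 36893488147419103232) (.nd (nat_lit 3680) (.br (nat_lit 23) (.br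
 (nat_lit 6) (.br (nat_lit 4) (.br (nat_lit 2) (.ch (nat_lit 1) (.ev (nat_lit 3696) (nat_lit
 144128382232199170) (.ev (nat_lit 3709) (nat_lit 536870912) .dd))) (.ch (nat_lit 2) (.ev (nat_lit 3696)
 (nat_lit 4398046543874) (.ev (nat_lit 4772) (nat_lit 8796093022208) (.ev (nat_lit 5700) (nat_lit
 144115188075855872) (.ev (nat_lit 5760) (nat_lit 536870912) (.ev (nat_lit 5773) (nat_lit 16777216) .dd)))))))
 (.br (nat_lit 5) (.ch (nat_lit 4) (.ev (nat_lit 3696) (nat_lit 4398583414784) (.ev (nat_lit 3732) (nat_lit 2)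
 (.ev (nat_lit 4132) (nat_lit 8796093022208) (.ev (nat_lit 5424) (nat_lit 16777216) (.ev (nat_lit 5437)
 (nat_lit 144115188075855872) .dd)))))) (.ch (nat_lit 5) (.ev (nat_lit 3696) (nat_lit 8796646703106) (.ev
 (nat_lit 5412) (nat_lit 144115188075855872) (.ev (nat_lit 5421) (nat_lit 4398046511104) .dd)))))) (.br
 (nat_lit 10) (.br (nat_lit 8) (.ch (nat_lit 6) (.ev (nat_lit 3696) (nat_lit 144128382769070080) (.ev (nat_lit
 3709) (nat_lit 2) .dd))) (.ch (nat_lit 8) (.ev (nat_lit 3696) (nat_lit 8796646703104) (.ev (nat_lit 3828)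
 (nat_lit 4398046511104) (.ev (nat_lit 5728) (nat_lit 2) (.ev (nat_lit 5741) (nat_lit 144115188075855872)
 .dd)))))) (.br (nat_lit 11) (.ch (nat_lit 10) (.ev (nat_lit 3696) (nat_lit 144128382752260098) (.ev (nat_lit
 3780) (nat_lit 32768) (.ev (nat_lit 3789) (nat_lit 16777216) .dd)))) (.br (nat_lit 20) (.ch (nat_lit 11) (.ev
 (nat_lit 3696) (nat_lit 144123984722558978) (.ev (nat_lit 3709) (nat_lit 4398046511104) .dd))) (.ch (nat_lit
 20) (.ev (nat_lit 3696) (nat_lit 144115188092665858) (.ev (nat_lit 3956) (nat_lit 4398046511104) (.ev (nat_lit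
 5700) (nat_lit 8796093022208) (.ev (nat_lit 5709) (nat_lit 536870912) .dd))))))))) (.br (nat_lit 31) (.br
 (nat_lit 26) (.br (nat_lit 24) (.ch (nat_lit 23) (.ev (nat_lit 3696) (nat_lit 144128382769037314) (.ev
 (nat_lit 3709) (nat_lit 32768) .dd))) (.ch (nat_lit 24) (.ev (nat_lit 3696) (nat_lit 144115188629536770) (.ev
 (nat_lit 5012) (nat_lit 4398046511104) (.ev (nat_lit 5021) (nat_lit 8796093022208) .dd))))) (.br (nat_lit 28)
 (.ch (nat_lit 26) (.ev (nat_lit 3696) (nat_lit 144128382769037312) (.ev (nat_lit 3956) (nat_lit 32768) (.ev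
 (nat_lit 3965) (nat_lit 2) .dd)))) (.ch (nat_lit 28) (.ev (nat_lit 3696) (nat_lit 144123984168910850) (.ev
 (nat_lit 3780) (nat_lit 4398046511104) (.ev (nat_lit 5424) (nat_lit 536870912) (.ev (nat_lit 5437) (nat_lit
 16777216) .dd))))))) (.br (nat_lit 37) (.br (nat_lit 35) (.ch (nat_lit 31) (.ev (nat_lit 3696) (nat_lit
 144123984722526210) (.ev (nat_lit 3732) (nat_lit 4398046511104) (.ev (nat_lit 3741) (nat_lit 32768) .dd))))
 (.ch (nat_lit 35) (.ev (nat_lit 3696) (nat_lit 144128382769070082) .dd))) (.br (nat_lit 40) (.ch (nat_lit 37)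
 (.ev (nat_lit 3696) (nat_lit 144128382769070082) .dd)) (.br (nat_lit 46) (.ch (nat_lit 40) (.ev (nat_lit 3696)
 (nat_lit 144128382769037314) (.ev (nat_lit 3709) (nat_lit 32768) .dd))) (.ch (nat_lit 46) (.ev (nat_lit 3696)
 (nat_lit 13194139566082) (.ev (nat_lit 3732) (nat_lit 16777216) (.ev (nat_lit 5712) (nat_lit
 144115188075855872) (.ev (nat_lit 5725) (nat_lit 536870912) .dd))))))))))))))))))) (.ch (nat_lit 41) (.ev
 (nat_lit 52) (nat_lit 4612191793797169176) (.ev (nat_lit 180) (nat_lit 2) (.ev (nat_lit 276) (nat_lit 65536)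
 (.ev (nat_lit 500) (nat_lit 144115188075855872) (.ev (nat_lit 564) (nat_lit 147573952589676412928) (.ev
 (nat_lit 980) (nat_lit 2147483648) (.ev (nat_lit 2068) (nat_lit 1180591620717411303424) (.ev (nat_lit 2100)
 (nat_lit 256) (.nd (nat_lit 3680) (.br (nat_lit 21) (.br (nat_lit 7) (.br (nat_lit 5) (.br (nat_lit 2) (.ch
 (nat_lit 1) (.ev (nat_lit 3696) (nat_lit 36902512956576628736) (.ev (nat_lit 3709) (nat_lit 32) .dd))) (.ch
 (nat_lit 2) (.ev (nat_lit 3696) (nat_lit 36902495347210715168) (.ev (nat_lit 5700) (nat_lit 17179869184) (.ev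
 (nat_lit 5709) (nat_lit 17592186044416) .dd))))) (.br (nat_lit 6) (.ch (nat_lit 5) (.ev (nat_lit 3696)
 (nat_lit 36893505757321887776) (.ev (nat_lit 3709) (nat_lit 9007199254740992) .dd))) (.ch (nat_lit 6) (.ev
 (nat_lit 3696) (nat_lit 17609902784512) (.ev (nat_lit 3780) (nat_lit 9007199254740992) (.ev (nat_lit 5712)
 (nat_lit 36893488147419103264) .dd)))))) (.br (nat_lit 11) (.br (nat_lit 10) (.ch (nat_lit 7) (.ev (nat_lit
 3696) (nat_lit 36902495363853713408) (.ev (nat_lit 3780) (nat_lit 32) (.ev (nat_lit 5536) (nat_lit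
 17592186044416) (.ev (nat_lit 5549) (nat_lit 536870912) .dd))))) (.ch (nat_lit 10) (.ev (nat_lit 3696)
 (nat_lit 36902512938859888640) (.ev (nat_lit 4132) (nat_lit 17179869184) (.ev (nat_lit 5524) (nat_lit
 536870912) (.ev (nat_lit 5533) (nat_lit 32) .dd)))))) (.br (nat_lit 16) (.ch (nat_lit 11) (.ev (nat_lit 3696)
 (nat_lit 36902495347210715168) (.ev (nat_lit 4884) (nat_lit 17179869184) (.ev (nat_lit 4893) (nat_lit
 17592186044416) .dd)))) (.br (nat_lit 20) (.ch (nat_lit 16) (.ev (nat_lit 3696) (nat_lit 9007216434610208)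
 (.ev (nat_lit 5632) (nat_lit 36893488147419103232) (.ev (nat_lit 5744) (nat_lit 17592186044416) (.ev (nat_lit
 5757) (nat_lit 536870912) .dd))))) (.ch (nat_lit 20) (.ev (nat_lit 3696) (nat_lit 17609902784544) (.ev
 (nat_lit 5524) (nat_lit 9007199254740992) (.ev (nat_lit 5533) (nat_lit 36893488147419103232) .dd)))))))) (.br
 (nat_lit 31) (.br (nat_lit 24) (.br (nat_lit 22) (.ch (nat_lit 21) (.ev (nat_lit 3696) (nat_lit
 36902495364390584352) (.ev (nat_lit 3709) (nat_lit 17592186044416) .dd))) (.ch (nat_lit 22) (.ev (nat_lit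
 3696) (nat_lit 36902512956576628768) .dd))) (.br (nat_lit 26) (.ch (nat_lit 24) (.ev (nat_lit 3696) (nat_lit
 9024791977656352) (.ev (nat_lit 3732) (nat_lit 17179869184) (.ev (nat_lit 3741) (nat_lit 36893488147419103232)
 .dd)))) (.ch (nat_lit 26) (.ev (nat_lit 3696) (nat_lit 36902495363853713440) (.ev (nat_lit 5712) (nat_lit
 536870912) (.ev (nat_lit 5725) (nat_lit 17592186044416) .dd)))))) (.br (nat_lit 37) (.br (nat_lit 35) (.ch
 (nat_lit 31) (.ev (nat_lit 3696) (nat_lit 536870944) (.ev (nat_lit 5700) (nat_lit 36893505756785016832) (.ev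
 (nat_lit 5709) (nat_lit 9007199254740992) .dd)))) (.ch (nat_lit 35) (.ev (nat_lit 3696) (nat_lit
 36893505756785016864) (.ev (nat_lit 5268) (nat_lit 9007199254740992) (.ev (nat_lit 5277) (nat_lit 536870912)
 .dd))))) (.br (nat_lit 38) (.ch (nat_lit 37) (.ev (nat_lit 3696) (nat_lit 36902512939396759584) (.ev (nat_lit
 3709) (nat_lit 17179869184) .dd))) (.br (nat_lit 39) (.ch (nat_lit 38) (.ev (nat_lit 3696) (nat_lit
 36902495364390584320) (.ev (nat_lit 3732) (nat_lit 32) (.ev (nat_lit 3741) (nat_lit 17592186044416) .dd))))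
 (.ch (nat_lit 39) (.ev (nat_lit 3696) (nat_lit 36902512939396759584) (.ev (nat_lit 3709) (nat_lit 17179869184)
 .dd))))))))))))))))))))) (.br (nat_lit 47) (.br (nat_lit 44) (.br (nat_lit 43) (.ch (nat_lit 42) (.ev (nat_lit
 52) (nat_lit 189223606981480153090) (.ev (nat_lit 596) (nat_lit 536870912) (.ev (nat_lit 1492) (nat_lit 65536)
 (.ev (nat_lit 1684) (nat_lit 16) (.ev (nat_lit 3444) (nat_lit 9007199254740992) (.ev (nat_lit 3540) (nat_lit
 17592186044416) (.nd (nat_lit 3680) (.br (nat_lit 20) (.br (nat_lit 8) (.br (nat_lit 6) (.br (nat_lit 4) (.ch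
 (nat_lit 2) (.ev (nat_lit 3696) (nat_lit 1180591761457047142696) (.ev (nat_lit 5776) (nat_lit 17179869184)
 (.ev (nat_lit 5789) (nat_lit 32768) .dd)))) (.ch (nat_lit 4) (.ev (nat_lit 3696) (nat_lit
 1180591761474227044616) (.ev (nat_lit 3709) (nat_lit 32) .dd)))) (.br (nat_lit 7) (.ch (nat_lit 6) (.ev
 (nat_lit 3696) (nat_lit 1180591761474227044616) (.ev (nat_lit 3709) (nat_lit 32) .dd))) (.ch (nat_lit 7) (.ev
 (nat_lit 3696) (nat_lit 1180591761474227044616) (.ev (nat_lit 3709) (nat_lit 32) .dd))))) (.br (nat_lit 11)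
 (.br (nat_lit 10) (.ch (nat_lit 8) (.ev (nat_lit 3696) (nat_lit 19327385896) (.ev (nat_lit 5376) (nat_lit
 140737488355328) (.ev (nat_lit 5389) (nat_lit 1180591620717411303424) .dd)))) (.ch (nat_lit 10) (.ev (nat_lit
 3696) (nat_lit 1180591761474227044392) (.ev (nat_lit 3709) (nat_lit 256) .dd)))) (.br (nat_lit 16) (.ch
 (nat_lit 11) (.ev (nat_lit 3696) (nat_lit 17179902240) (.ev (nat_lit 4544) (nat_lit 140737488355328) (.ev
 (nat_lit 5268) (nat_lit 8) (.ev (nat_lit 5524) (nat_lit 1180591620717411303424) (.ev (nat_lit 5533) (nat_lit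
 2147483648) .dd)))))) (.br (nat_lit 18) (.ch (nat_lit 16) (.ev (nat_lit 3696) (nat_lit 1180591761474227044648)
 .dd)) (.ch (nat_lit 18) (.ev (nat_lit 3696) (nat_lit 19327385608) (.ev (nat_lit 3892) (nat_lit 32) (.ev
 (nat_lit 5712) (nat_lit 140737488355328) (.ev (nat_lit 5792) (nat_lit 1180591620717411303424) (.ev (nat_lit
 5805) (nat_lit 256) .dd)))))))))) (.br (nat_lit 32) (.br (nat_lit 28) (.br (nat_lit 22) (.ch (nat_lit 20) (.ev
 (nat_lit 3696) (nat_lit 1180591620736738689320) (.ev (nat_lit 3709) (nat_lit 140737488355328) .dd))) (.ch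
 (nat_lit 22) (.ev (nat_lit 3696) (nat_lit 1180591761474227044360) (.ev (nat_lit 5172) (nat_lit 32) (.ev
 (nat_lit 5181) (nat_lit 256) .dd))))) (.br (nat_lit 30) (.ch (nat_lit 28) (.ev (nat_lit 3696) (nat_lit
 1180591761472079560744) (.ev (nat_lit 3780) (nat_lit 2147483648) (.ev (nat_lit 3789) (nat_lit 256) .dd))))
 (.ch (nat_lit 30) (.ev (nat_lit 3696) (nat_lit 1180591761472079560992) (.ev (nat_lit 5552) (nat_lit 8) (.ev
 (nat_lit 5565) (nat_lit 2147483648) .dd)))))) (.br (nat_lit 40) (.br (nat_lit 37) (.ch (nat_lit 32) (.ev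
 (nat_lit 3696) (nat_lit 1180591761474227044392) (.ev (nat_lit 3709) (nat_lit 256) .dd))) (.ch (nat_lit 37)
 (.ev (nat_lit 3696) (nat_lit 1180591761457047175464) (.ev (nat_lit 3709) (nat_lit 17179869184) .dd)))) (.br
 (nat_lit 45) (.ch (nat_lit 40) (.ev (nat_lit 3696) (nat_lit 1180591761474227044392) (.ev (nat_lit 3709)
 (nat_lit 256) .dd))) (.br (nat_lit 46) (.ch (nat_lit 45) (.ev (nat_lit 3696) (nat_lit 1180591761472079560992)
 (.ev (nat_lit 3732) (nat_lit 8) (.ev (nat_lit 3741) (nat_lit 2147483648) .dd)))) (.ch (nat_lit 46) (.ev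
 (nat_lit 3696) (nat_lit 140756815708448) (.ev (nat_lit 3732) (nat_lit 32776) (.ev (nat_lit 3741) (nat_lit
 1180591620717411303424) .dd))))))))))))))))) (.ch (nat_lit 43) (.ev (nat_lit 52) (nat_lit
 184476452336561127680) (.ev (nat_lit 576) (nat_lit 1185347940911123791930) .dd)))) (.br (nat_lit 46) (.ch
 (nat_lit 44) (.ev (nat_lit 52) (nat_lit 1185203680570349977912) (.ev (nat_lit 596) (nat_lit 140737488355328)
 (.ev (nat_lit 820) (nat_lit 36893488147419103232) (.ev (nat_lit 1140) (nat_lit 32768) (.ev (nat_lit 1332)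
 (nat_lit 65536) (.ev (nat_lit 2196) (nat_lit 9007199254740992) (.nd (nat_lit 3680) (.br (nat_lit 23) (.br
 (nat_lit 10) (.br (nat_lit 5) (.br (nat_lit 4) (.ch (nat_lit 1) (.ev (nat_lit 3696) (nat_lit
 144124003496230912) (.ev (nat_lit 5700) (nat_lit 2) (.ev (nat_lit 5709) (nat_lit 147573952589676412928)
 .dd)))) (.ch (nat_lit 4) (.ev (nat_lit 3696) (nat_lit 144123986316361728) (.ev (nat_lit 3732) (nat_lit
 17179869186) (.ev (nat_lit 3741) (nat_lit 147573952589676412928) .dd))))) (.br (nat_lit 8) (.ch (nat_lit 5)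
 (.ev (nat_lit 3696) (nat_lit 147573961402949304322) (.ev (nat_lit 5536) (nat_lit 144115188075855872) (.ev
 (nat_lit 5549) (nat_lit 2147483648) .dd)))) (.ch (nat_lit 8) (.ev (nat_lit 3696) (nat_lit
 147573961405096787968) (.ev (nat_lit 3840) (nat_lit 144115188075855872) (.ev (nat_lit 3853) (nat_lit 2)
 .dd)))))) (.br (nat_lit 20) (.br (nat_lit 11) (.ch (nat_lit 10) (.ev (nat_lit 3696) (nat_lit
 144124003496230914) (.ev (nat_lit 3709) (nat_lit 147573952589676412928) .dd))) (.ch (nat_lit 11) (.ev (nat_lit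
 3696) (nat_lit 147718076591025160194) (.ev (nat_lit 3709) (nat_lit 2147483648) .dd)))) (.br (nat_lit 21) (.ch
 (nat_lit 20) (.ev (nat_lit 3696) (nat_lit 147718076575992774656) (.ev (nat_lit 3780) (nat_lit 17179869184)
 (.ev (nat_lit 3789) (nat_lit 2) .dd)))) (.br (nat_lit 22) (.ch (nat_lit 21) (.ev (nat_lit 3696) (nat_lit
 147718076593172643842) .dd)) (.ch (nat_lit 22) (.ev (nat_lit 3696) (nat_lit 144115207403208706) (.ev (nat_lit
 3828) (nat_lit 8796093022208) (.ev (nat_lit 3837) (nat_lit 147573952589676412928) .dd)))))))) (.br (nat_lit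
 31) (.br (nat_lit 26) (.br (nat_lit 24) (.ch (nat_lit 23) (.ev (nat_lit 3696) (nat_lit 147718076593172643840)
 (.ev (nat_lit 3709) (nat_lit 2) .dd))) (.ch (nat_lit 24) (.ev (nat_lit 3696) (nat_lit 147718067777752268802)
 (.ev (nat_lit 4820) (nat_lit 17179869184) (.fin (nat_lit 576461302078587464)))))) (.br (nat_lit 30) (.ch
 (nat_lit 26) (.ev (nat_lit 3696) (nat_lit 147718076575992774658) (.ev (nat_lit 3709) (nat_lit 17179869184)
 .dd))) (.ch (nat_lit 30) (.ev (nat_lit 3696) (nat_lit 144124003496230912) (.ev (nat_lit 3828) (nat_lit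
 147573952589676412928) (.ev (nat_lit 3837) (nat_lit 2) .dd)))))) (.br (nat_lit 35) (.br (nat_lit 32) (.ch
 (nat_lit 31) (.ev (nat_lit 3696) (nat_lit 147718076573845291010) (.ev (nat_lit 5728) (nat_lit 17179869184)
 (.ev (nat_lit 5741) (nat_lit 2147483648) .dd)))) (.ch (nat_lit 32) (.ev (nat_lit 3696) (nat_lit
 147718076575992774656) (.ev (nat_lit 3732) (nat_lit 17179869184) (.ev (nat_lit 3741) (nat_lit 2) .dd))))) (.br
 (nat_lit 38) (.ch (nat_lit 35) (.ev (nat_lit 3696) (nat_lit 147718076593172643842) .dd)) (.br (nat_lit 39)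
 (.ch (nat_lit 38) (.ev (nat_lit 3696) (nat_lit 147718067794932137986) (.ev (nat_lit 5268) (nat_lit
 8796093022208) (.ev (nat_lit 5277) (nat_lit 2147483648) .dd)))) (.ch (nat_lit 39) (.ev (nat_lit 3696) (nat_lit
 147718067779899752450) (.ev (nat_lit 3956) (nat_lit 17179869184) (.ev (nat_lit 3965) (nat_lit 8796093022208)
 .dd))))))))))))))))) (.ch (nat_lit 46) (.ev (nat_lit 52) (nat_lit 1365068284160741769216) (.ev (nat_lit 244)
 (nat_lit 256) (.ev (nat_lit 276) (nat_lit 17592186044416) (.ev (nat_lit 436) (nat_lit 65536) (.ev (nat_lit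
 1012) (nat_lit 17179869184) (.ev (nat_lit 2420) (nat_lit 8796093022208) (.ev (nat_lit 3136) (nat_lit
 4756082681484148794) .dd)))))))))) (.br (nat_lit 49) (.br (nat_lit 48) (.ch (nat_lit 47) (.ev (nat_lit 52)
 (nat_lit 1217485135270310346808) (.ev (nat_lit 660) (nat_lit 9007199254740992) (.ev (nat_lit 1856) (nat_lit
 152330250778119831810) .dd)))) (.ch (nat_lit 48) (.ev (nat_lit 52) (nat_lit 184612000147754221610) (.ev
 (nat_lit 2880) (nat_lit 1185212393099930698000) .dd)))) (.br (nat_lit 50) (.ch (nat_lit 49) (.ev (nat_lit 52)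
 (nat_lit 152185946471363837952) (.ev (nat_lit 116) (nat_lit 32) (.ev (nat_lit 480) (nat_lit
 1217638446776321081626) .dd)))) (.br (nat_lit 52) (.ch (nat_lit 50) (.ev (nat_lit 52) (nat_lit
 144255927732731952) (.ev (nat_lit 320) (nat_lit 1369680137319952187658) .dd))) (.ch (nat_lit 52) (.ev (nat_lit
 52) (nat_lit 36902785635460383002) (.ev (nat_lit 596) (nat_lit 144115188075855872) (.ev (nat_lit 980) (nat_lit
 4611686018427387904) (.ev (nat_lit 1588) (nat_lit 32768) (.ev (nat_lit 1748) (nat_lit 1180591620717411303424)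
 (.nd (nat_lit 3680) (.br (nat_lit 23) (.br (nat_lit 10) (.br (nat_lit 6) (.br (nat_lit 5) (.ch (nat_lit 1)
 (.ev (nat_lit 3696) (nat_lit 215506447499296) (.ev (nat_lit 3828) (nat_lit 147573952589676412928) (.ev
 (nat_lit 3837) (nat_lit 17592186044416) .dd)))) (.ch (nat_lit 5) (.ev (nat_lit 3696) (nat_lit
 147574181288115961888) (.ev (nat_lit 3780) (nat_lit 4398046511104) (.ev (nat_lit 3789) (nat_lit 2147483648)
 .dd))))) (.br (nat_lit 8) (.ch (nat_lit 6) (.ev (nat_lit 3696) (nat_lit 147574185688293179392) (.ev (nat_lit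
 5760) (nat_lit 32) (.ev (nat_lit 5773) (nat_lit 16777216) .dd)))) (.ch (nat_lit 8) (.ev (nat_lit 3696)
 (nat_lit 147574027358618779680) (.ev (nat_lit 3780) (nat_lit 16777216) (.ev (nat_lit 3860) (nat_lit
 17592186044416) (.ev (nat_lit 3869) (nat_lit 140737488355328) .dd))))))) (.br (nat_lit 18) (.br (nat_lit 16)
 (.ch (nat_lit 10) (.ev (nat_lit 3696) (nat_lit 162729872588800) (.ev (nat_lit 3732) (nat_lit
 147573952589676412928) (.ev (nat_lit 4820) (nat_lit 70368744177664) (.ev (nat_lit 5728) (nat_lit 32) (.ev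
 (nat_lit 5741) (nat_lit 16777216) .dd)))))) (.ch (nat_lit 16) (.ev (nat_lit 3696) (nat_lit
 147574163698077401120) (.ev (nat_lit 3760) (nat_lit 17592186044416) (.ev (nat_lit 3773) (nat_lit
 4398046511104) .dd))))) (.br (nat_lit 20) (.ch (nat_lit 18) (.ev (nat_lit 3696) (nat_lit
 147574115319565778976) (.ev (nat_lit 3709) (nat_lit 70368744177664) .dd))) (.br (nat_lit 22) (.ch (nat_lit 20)
 (.ev (nat_lit 3696) (nat_lit 147574181290259251232) (.ev (nat_lit 5392) (nat_lit 4398046511104) (.ev (nat_lit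
 5405) (nat_lit 4194304) .dd)))) (.ch (nat_lit 22) (.ev (nat_lit 3696) (nat_lit 162727741882400) (.ev (nat_lit
 3828) (nat_lit 147573952589676412928) (.ev (nat_lit 4496) (nat_lit 2147483648) (.ev (nat_lit 4509) (nat_lit
 70368744177664) .dd))))))))) (.br (nat_lit 32) (.br (nat_lit 26) (.br (nat_lit 24) (.ch (nat_lit 23) (.ev
 (nat_lit 3696) (nat_lit 147574181288099184672) (.ev (nat_lit 4468) (nat_lit 2147483648) (.ev (nat_lit 4896)
 (nat_lit 16777216) (.ev (nat_lit 4909) (nat_lit 4398046511104) .dd))))) (.ch (nat_lit 24) (.ev (nat_lit 3696)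
 (nat_lit 147574115317414101024) (.ev (nat_lit 3780) (nat_lit 2147483648) (.ev (nat_lit 3808) (nat_lit
 70368744177664) (.ev (nat_lit 3821) (nat_lit 4194304) .dd)))))) (.br (nat_lit 30) (.ch (nat_lit 26) (.ev
 (nat_lit 3696) (nat_lit 147574097727375540256) (.ev (nat_lit 5600) (nat_lit 4194304) (.ev (nat_lit 5808)
 (nat_lit 70368744177664) (.ev (nat_lit 5821) (nat_lit 17592186044416) .dd))))) (.ch (nat_lit 30) (.ev (nat_lit
 3696) (nat_lit 147574185686158278688) (.ev (nat_lit 3828) (nat_lit 4194304) (.ev (nat_lit 3837) (nat_lit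
 2147483648) .dd)))))) (.br (nat_lit 42) (.br (nat_lit 40) (.ch (nat_lit 32) (.ev (nat_lit 3696) (nat_lit
 233096469282848) (.ev (nat_lit 5092) (nat_lit 2147483648) (.ev (nat_lit 5172) (nat_lit 147573952589676412928)
 (.ev (nat_lit 5181) (nat_lit 16777216) .dd))))) (.ch (nat_lit 40) (.ev (nat_lit 3696) (nat_lit
 147574044950821601312) (.ev (nat_lit 3709) (nat_lit 140737488355328) .dd)))) (.br (nat_lit 45) (.ch (nat_lit
 42) (.ev (nat_lit 3696) (nat_lit 147574110921519267872) (.ev (nat_lit 5440) (nat_lit 70368744177664) (.ev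
 (nat_lit 5453) (nat_lit 4398046511104) .dd)))) (.br (nat_lit 46) (.ch (nat_lit 45) (.ev (nat_lit 3696)
 (nat_lit 233096481865760) (.ev (nat_lit 3732) (nat_lit 2147483648) (.ev (nat_lit 3860) (nat_lit 4194304) (.ev
 (nat_lit 3869) (nat_lit 147573952589676412928) .dd))))) (.ch (nat_lit 46) (.ev (nat_lit 3696) (nat_lit
 147574044950804824096) (.ev (nat_lit 5344) (nat_lit 140737488355328) (.ev (nat_lit 5357) (nat_lit 16777216)
 .dd))))))))))))))))))))))))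

/-- Subtrie. -/
noncomputable def T3 : Tr := (.ev (nat_lit 20) (nat_lit 189278983130829586712) (.nd (nat_lit 33) (.br (nat_lit
 31) (.br (nat_lit 16) (.br (nat_lit 10) (.br (nat_lit 6) (.br (nat_lit 5) (.ch (nat_lit 4) (.ev (nat_lit 52)
 (nat_lit 885734290649130467488) (.ev (nat_lit 244) (nat_lit 140737488355328) (.ev (nat_lit 308) (nat_lit 4096)
 (.ev (nat_lit 1140) (nat_lit 1180591620717411303424) (.ev (nat_lit 1588) (nat_lit 281474976710656) (.ev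
 (nat_lit 1716) (nat_lit 2048) (.ev (nat_lit 3296) (nat_lit 18455751272990048258) .dd)))))))) (.ch (nat_lit 5)
 (.ev (nat_lit 52) (nat_lit 608751848063055761538) (.ev (nat_lit 244) (nat_lit 2251799813685248) (.ev (nat_lit
 564) (nat_lit 288230376218820608) (.ev (nat_lit 692) (nat_lit 17179869184) (.ev (nat_lit 820) (nat_lit 32)
 (.ev (nat_lit 1588) (nat_lit 1180591620717411303424) (.ev (nat_lit 2004) (nat_lit 140737488355328) (.ev
 (nat_lit 2100) (nat_lit 8390656) (.nd (nat_lit 3680) (.br (nat_lit 14) (.br (nat_lit 5) (.br (nat_lit 1) (.ch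
 (nat_lit 0) (.ev (nat_lit 3696) (nat_lit 295147975548634660864) (.ev (nat_lit 3709) (nat_lit 17592186044416)
 .dd))) (.br (nat_lit 4) (.ch (nat_lit 1) (.ev (nat_lit 3696) (nat_lit 295147993140283834368) (.ev (nat_lit
 3709) (nat_lit 536870912) .dd))) (.ch (nat_lit 4) (.ev (nat_lit 3696) (nat_lit 70369281835008) (.ev (nat_lit
 5584) (nat_lit 17592186044416) (.ev (nat_lit 5597) (nat_lit 295147905179352825856) .dd)))))) (.br (nat_lit 10)
 (.br (nat_lit 6) (.ch (nat_lit 5) (.ev (nat_lit 3696) (nat_lit 295147993140820705280) .dd)) (.ch (nat_lit 6)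
 (.ev (nat_lit 3696) (nat_lit 295147993140283834368) (.ev (nat_lit 3709) (nat_lit 536870912) .dd)))) (.br
 (nat_lit 12) (.ch (nat_lit 10) (.ev (nat_lit 3696) (nat_lit 295147993140820705280) .dd)) (.ch (nat_lit 12)
 (.ev (nat_lit 3696) (nat_lit 295147993140820180992) (.ev (nat_lit 3709) (nat_lit 524288) .dd)))))) (.br
 (nat_lit 29) (.br (nat_lit 20) (.br (nat_lit 19) (.ch (nat_lit 14) (.ev (nat_lit 3696) (nat_lit
 295147975548634398720) (.ev (nat_lit 3920) (nat_lit 262144) (.ev (nat_lit 3933) (nat_lit 17592186044416)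
 .dd)))) (.ch (nat_lit 19) (.ev (nat_lit 3696) (nat_lit 87960930484224) (.ev (nat_lit 4052) (nat_lit 524288)
 (.ev (nat_lit 5712) (nat_lit 536870912) (.ev (nat_lit 5725) (nat_lit 295147905179352825856) .dd)))))) (.br
 (nat_lit 22) (.ch (nat_lit 20) (.ev (nat_lit 3696) (nat_lit 295147922772076527616) (.ev (nat_lit 3709)
 (nat_lit 70368744177664) .dd))) (.ch (nat_lit 22) (.ev (nat_lit 3696) (nat_lit 537133056) (.ev (nat_lit 3780)
 (nat_lit 295147905179352825856) (.ev (nat_lit 4516) (nat_lit 70368744177664) (.ev (nat_lit 5184) (nat_lit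
 17592186044416) (.ev (nat_lit 5197) (nat_lit 524288) .dd)))))))) (.br (nat_lit 41) (.br (nat_lit 34) (.ch
 (nat_lit 29) (.ev (nat_lit 3696) (nat_lit 87961467617280) (.ev (nat_lit 4496) (nat_lit 295147905179352825856)
 (.ev (nat_lit 4509) (nat_lit 262144) .dd)))) (.ch (nat_lit 34) (.ev (nat_lit 3696) (nat_lit
 295147993140283834368) (.ev (nat_lit 3709) (nat_lit 536870912) .dd)))) (.br (nat_lit 43) (.ch (nat_lit 41)
 (.ev (nat_lit 3696) (nat_lit 295147993140819918848) (.ev (nat_lit 5744) (nat_lit 262144) (.ev (nat_lit 5757)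
 (nat_lit 524288) .dd)))) (.ch (nat_lit 43) (.ev (nat_lit 3696) (nat_lit 537657344) (.ev (nat_lit 3732)
 (nat_lit 70368744177664) (.ev (nat_lit 4752) (nat_lit 295147905179352825856) (.ev (nat_lit 4765) (nat_lit
 17592186044416) .dd)))))))))))))))))))) (.br (nat_lit 9) (.ch (nat_lit 6) (.ev (nat_lit 52) (nat_lit
 1789631417682170746882) (.ev (nat_lit 756) (nat_lit 67108864) (.ev (nat_lit 1140) (nat_lit 17179869184) (.ev
 (nat_lit 1652) (nat_lit 16777216) (.ev (nat_lit 2036) (nat_lit 17592186044416) (.ev (nat_lit 2784) (nat_lit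
 295150649560376344736) .dd))))))) (.ch (nat_lit 9) (.ev (nat_lit 52) (nat_lit 9148486524080128) (.ev (nat_lit
 628) (nat_lit 288230376151711744) (.ev (nat_lit 660) (nat_lit 536870912) (.ev (nat_lit 852) (nat_lit
 18446744073709551616) (.ev (nat_lit 1748) (nat_lit 8589934592) (.ev (nat_lit 2292) (nat_lit 17592186044416)
 (.ev (nat_lit 2548) (nat_lit 70368744177664) (.ev (nat_lit 2804) (nat_lit 2048) (.nd (nat_lit 3680) (.br
 (nat_lit 19) (.br (nat_lit 12) (.br (nat_lit 5) (.br (nat_lit 4) (.ch (nat_lit 3) (.ev (nat_lit 3696) (nat_lit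
 1475742063586848538786) (.ev (nat_lit 3780) (nat_lit 262144) (.ev (nat_lit 3828) (nat_lit
 590295810358705651712) (.ev (nat_lit 3837) (nat_lit 65536) .dd))))) (.ch (nat_lit 4) (.ev (nat_lit 3696)
 (nat_lit 885446253228142690304) (.ev (nat_lit 5524) (nat_lit 34) (.ev (nat_lit 5712) (nat_lit 128) (.ev
 (nat_lit 5760) (nat_lit 524288) (.ev (nat_lit 5773) (nat_lit 1180591620717411303424) .dd))))))) (.br (nat_lit
 10) (.ch (nat_lit 5) (.ev (nat_lit 3696) (nat_lit 2066037869547507941410) (.ev (nat_lit 5536) (nat_lit 65664)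
 (.ev (nat_lit 5549) (nat_lit 4398046511104) .dd)))) (.ch (nat_lit 10) (.ev (nat_lit 3696) (nat_lit
 1475742063569668735106) (.ev (nat_lit 3860) (nat_lit 32) (.ev (nat_lit 4256) (nat_lit 262144) (.ev (nat_lit
 5712) (nat_lit 17179869184) (.ev (nat_lit 5725) (nat_lit 590295810358705651712) .dd)))))))) (.br (nat_lit 14)
 (.br (nat_lit 13) (.ch (nat_lit 12) (.ev (nat_lit 3696) (nat_lit 2066037592470577217698) (.ev (nat_lit 3732)
 (nat_lit 281474976710656) (.ev (nat_lit 3780) (nat_lit 524288) (.ev (nat_lit 3789) (nat_lit 65536) .dd)))))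
 (.ch (nat_lit 13) (.ev (nat_lit 3696) (nat_lit 1180594158407495254048) (.ev (nat_lit 3732) (nat_lit
 295147905179352825856) (.ev (nat_lit 3956) (nat_lit 2) (.ev (nat_lit 5172) (nat_lit 128) (.ev (nat_lit 5524)
 (nat_lit 262144) (.ev (nat_lit 5760) (nat_lit 590295810358706176000) .dd)))))))) (.br (nat_lit 15) (.ch
 (nat_lit 14) (.ev (nat_lit 3696) (nat_lit 2066037592470577807394) (.ev (nat_lit 3732) (nat_lit
 281474976710656) (.ev (nat_lit 3741) (nat_lit 128) .dd)))) (.br (nat_lit 18) (.ch (nat_lit 15) (.ev (nat_lit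
 3696) (nat_lit 1770889968766134321186) (.ev (nat_lit 3860) (nat_lit 67108864) (.ev (nat_lit 5172) (nat_lit
 128) (.ev (nat_lit 5700) (nat_lit 262144) (.ev (nat_lit 5709) (nat_lit 295147905179352825856) .dd)))))) (.ch
 (nat_lit 18) (.ev (nat_lit 3696) (nat_lit 295150438471323615394) (.ev (nat_lit 5412) (nat_lit 65536) (.ev
 (nat_lit 5536) (nat_lit 590295810358705651712) (.ev (nat_lit 5792) (nat_lit 1180591625115525185536)
 .dd))))))))) (.br (nat_lit 29) (.br (nat_lit 25) (.br (nat_lit 22) (.ch (nat_lit 19) (.ev (nat_lit 3696)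
 (nat_lit 2066037592470577807394) (.ev (nat_lit 3780) (nat_lit 128) (.ev (nat_lit 3789) (nat_lit
 281474976710656) .dd)))) (.ch (nat_lit 22) (.ev (nat_lit 3696) (nat_lit 2066037588055283794082) (.ev (nat_lit
 3732) (nat_lit 281492223688704) (.ev (nat_lit 5632) (nat_lit 524288) (.ev (nat_lit 5645) (nat_lit
 4398046511104) .dd)))))) (.br (nat_lit 26) (.ch (nat_lit 25) (.ev (nat_lit 3696) (nat_lit
 2066035622145739980962) (.ev (nat_lit 3828) (nat_lit 65536) (.ev (nat_lit 3904) (nat_lit 2251799813685248)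
 (.ev (nat_lit 5760) (nat_lit 524288) (.ev (nat_lit 5773) (nat_lit 262144) .dd)))))) (.ch (nat_lit 26) (.ev
 (nat_lit 3696) (nat_lit 2066035617730514190466) (.ev (nat_lit 3732) (nat_lit 2251816993554432) (.ev (nat_lit
 3792) (nat_lit 32) (.ev (nat_lit 5700) (nat_lit 262144) (.ev (nat_lit 5709) (nat_lit 4398046511104)
 .dd)))))))) (.br (nat_lit 34) (.br (nat_lit 30) (.ch (nat_lit 29) (.ev (nat_lit 3696) (nat_lit
 1180591620717412155520) (.ev (nat_lit 3780) (nat_lit 67108896) (.ev (nat_lit 4852) (nat_lit 17179869184) (.ev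
 (nat_lit 5172) (nat_lit 4398046511104) (.ev (nat_lit 5536) (nat_lit 2251799813685248) (.ev (nat_lit 5552)
 (nat_lit 295147905179352825856) (.ev (nat_lit 5700) (nat_lit 281474976710656) (.ev (nat_lit 5792) (nat_lit 2)
 (.ev (nat_lit 5805) (nat_lit 590295810358705651712) .dd)))))))))) (.ch (nat_lit 30) (.ev (nat_lit 3696)
 (nat_lit 1475742063586848866338) (.ev (nat_lit 3732) (nat_lit 128) (.ev (nat_lit 3741) (nat_lit
 590295810358705651712) .dd))))) (.br (nat_lit 37) (.ch (nat_lit 34) (.ev (nat_lit 3696) (nat_lit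
 2066037873928374386850) (.ev (nat_lit 5776) (nat_lit 17180131328) .dd))) (.br (nat_lit 41) (.ch (nat_lit 37)
 (.ev (nat_lit 3696) (nat_lit 2066035622145740308642) (.ev (nat_lit 3732) (nat_lit 2251799813685248) (.ev
 (nat_lit 3741) (nat_lit 524288) .dd)))) (.ch (nat_lit 41) (.ev (nat_lit 3696) (nat_lit 2066035622145740308642)
 (.ev (nat_lit 3732) (nat_lit 524288) (.ev (nat_lit 3741) (nat_lit 2251799813685248) .dd)))))))))))))))))))))
 (.br (nat_lit 12) (.br (nat_lit 11) (.ch (nat_lit 10) (.ev (nat_lit 52) (nat_lit 313605983585874018464) (.ev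
 (nat_lit 544) (nat_lit 1771176101266122872834) .dd))) (.ch (nat_lit 11) (.ev (nat_lit 52) (nat_lit
 885443948634532550786) (.ev (nat_lit 148) (nat_lit 288230376151711744) (.ev (nat_lit 788) (nat_lit 16777216)
 (.ev (nat_lit 948) (nat_lit 262144) (.ev (nat_lit 1984) (nat_lit 1199049905841295589408) .dd))))))) (.br
 (nat_lit 15) (.ch (nat_lit 12) (.ev (nat_lit 52) (nat_lit 1199049834905020399618) (.ev (nat_lit 224) (nat_lit
 885732249946976491680) .dd))) (.ch (nat_lit 15) (.ev (nat_lit 52) (nat_lit 295436135573222070400) (.ev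
 (nat_lit 436) (nat_lit 16777216) (.ev (nat_lit 756) (nat_lit 140737488355328) (.ev (nat_lit 1620) (nat_lit
 1180591620717411303424) (.ev (nat_lit 2228) (nat_lit 4398046511104) (.ev (nat_lit 2612) (nat_lit 549755813888)
 (.ev (nat_lit 2868) (nat_lit 590295810358705651712) (.ev (nat_lit 2932) (nat_lit 70368744177664) (.ev (nat_lit
 2996) (nat_lit 32) (.ev (nat_lit 3316) (nat_lit 8388608) (.ev (nat_lit 3412) (nat_lit 17592186044416) (.nd
 (nat_lit 3680) (.br (nat_lit 18) (.br (nat_lit 13) (.br (nat_lit 4) (.br (nat_lit 2) (.ch (nat_lit 1) (.ev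
 (nat_lit 3696) (nat_lit 11258999135600640) (.ev (nat_lit 3780) (nat_lit 8589934592) (.ev (nat_lit 5584)
 (nat_lit 18446744073709551616) (.ev (nat_lit 5712) (nat_lit 2) (.ev (nat_lit 5725) (nat_lit 281474976710656)
 .dd)))))) (.ch (nat_lit 2) (.ev (nat_lit 3696) (nat_lit 18456032756598046722) (.ev (nat_lit 3792) (nat_lit
 2251799813685248) (.ev (nat_lit 3805) (nat_lit 65536) .dd))))) (.br (nat_lit 5) (.ch (nat_lit 4) (.ev (nat_lit
 3696) (nat_lit 18449277357089947648) (.ev (nat_lit 4596) (nat_lit 2) (.ev (nat_lit 5700) (nat_lit 67108864)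
 (.ev (nat_lit 5709) (nat_lit 9007199254740992) .dd))))) (.ch (nat_lit 5) (.ev (nat_lit 3696) (nat_lit
 18458284556344623106) (.ev (nat_lit 3780) (nat_lit 67108864) (.ev (nat_lit 3789) (nat_lit 65536) .dd))))))
 (.br (nat_lit 15) (.br (nat_lit 14) (.ch (nat_lit 13) (.ev (nat_lit 3696) (nat_lit 18458284547821862914) (.ev
 (nat_lit 3709) (nat_lit 8589934592) .dd))) (.ch (nat_lit 14) (.ev (nat_lit 3696) (nat_lit 11259007725469698)
 (.ev (nat_lit 3732) (nat_lit 281474976710656) (.ev (nat_lit 5700) (nat_lit 18446744073709551616) (.ev (nat_lit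
 5709) (nat_lit 65536) .dd)))))) (.br (nat_lit 17) (.ch (nat_lit 15) (.ev (nat_lit 3696) (nat_lit
 11258999068491778) (.ev (nat_lit 5360) (nat_lit 67108864) (.ev (nat_lit 5524) (nat_lit 18446744073709551616)
 (.ev (nat_lit 5824) (nat_lit 281483566645248) .dd))))) (.ch (nat_lit 17) (.ev (nat_lit 3696) (nat_lit
 18458284556411731970) (.ev (nat_lit 3709) (nat_lit 65536) .dd)))))) (.br (nat_lit 29) (.br (nat_lit 22) (.br
 (nat_lit 20) (.ch (nat_lit 18) (.ev (nat_lit 3696) (nat_lit 18446744082299486210) (.ev (nat_lit 3732) (nat_lit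
 281474976710656) (.ev (nat_lit 4212) (nat_lit 2251799813685248) (.ev (nat_lit 5524) (nat_lit 65536) (.ev
 (nat_lit 5872) (nat_lit 9007199321849856) .dd)))))) (.ch (nat_lit 20) (.ev (nat_lit 3696) (nat_lit
 18449277348567121922) (.ev (nat_lit 3732) (nat_lit 8589934592) (.ev (nat_lit 3741) (nat_lit 9007199254740992)
 .dd))))) (.br (nat_lit 26) (.ch (nat_lit 22) (.ev (nat_lit 3696) (nat_lit 11540482635137026) (.ev (nat_lit
 3732) (nat_lit 18446744073709551616) (.ev (nat_lit 3741) (nat_lit 67108864) .dd)))) (.ch (nat_lit 26) (.ev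
 (nat_lit 3696) (nat_lit 11540474112245762) (.ev (nat_lit 3732) (nat_lit 65536) (.ev (nat_lit 4516) (nat_lit
 18446744073709551616) (.ev (nat_lit 4525) (nat_lit 8589934592) .dd))))))) (.br (nat_lit 42) (.br (nat_lit 34)
 (.ch (nat_lit 29) (.ev (nat_lit 3696) (nat_lit 18448995873590411264) (.ev (nat_lit 3828) (nat_lit
 281474976710656) (.ev (nat_lit 5328) (nat_lit 9007199254740992) (.ev (nat_lit 5744) (nat_lit 2) (.ev (nat_lit
 5757) (nat_lit 8589934592) .dd)))))) (.ch (nat_lit 34) (.ev (nat_lit 3696) (nat_lit 18458003081435086850) (.ev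
 (nat_lit 3709) (nat_lit 281474976710656) .dd)))) (.br (nat_lit 43) (.ch (nat_lit 42) (.ev (nat_lit 3696)
 (nat_lit 18458284547821862912) (.ev (nat_lit 3732) (nat_lit 8589934592) (.ev (nat_lit 3741) (nat_lit 2)
 .dd)))) (.ch (nat_lit 43) (.ev (nat_lit 3696) (nat_lit 18446744082366660608) (.ev (nat_lit 3732) (nat_lit
 281474976710656) (.ev (nat_lit 3780) (nat_lit 2) (.ev (nat_lit 3860) (nat_lit 2251799813685248) (.ev (nat_lit
 3869) (nat_lit 9007199254740992) .dd)))))))))))))))))))))))))) (.br (nat_lit 22) (.br (nat_lit 18) (.br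
 (nat_lit 17) (.ch (nat_lit 16) (.ev (nat_lit 52) (nat_lit 1199328939326147467264) (.ev (nat_lit 116) (nat_lit
 2) (.ev (nat_lit 628) (nat_lit 140737488355328) (.ev (nat_lit 948) (nat_lit 295147905179352825856) (.ev
 (nat_lit 1556) (nat_lit 281474976710656) (.ev (nat_lit 1620) (nat_lit 9007199254740992) (.ev (nat_lit 2816)
 (nat_lit 590295810934776791200) .dd)))))))) (.ch (nat_lit 17) (.ev (nat_lit 52) (nat_lit
 1180600715894852227106) (.ev (nat_lit 660) (nat_lit 4398046511104) (.ev (nat_lit 1108) (nat_lit 128) (.ev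
 (nat_lit 1172) (nat_lit 549755813888) (.ev (nat_lit 1780) (nat_lit 281474976710656) (.ev (nat_lit 1972)
 (nat_lit 262144) (.nd (nat_lit 3680) (.br (nat_lit 14) (.br (nat_lit 4) (.br (nat_lit 1) (.ch (nat_lit 0) (.ev
 (nat_lit 3696) (nat_lit 313597041799508002816) (.ev (nat_lit 4564) (nat_lit 590295810358705651712) (.ev
 (nat_lit 4573) (nat_lit 288230376151711744) .dd)))) (.br (nat_lit 2) (.ch (nat_lit 1) (.ev (nat_lit 3696)
 (nat_lit 609033036608397379584) (.ev (nat_lit 3732) (nat_lit 295147905179889696768) (.ev (nat_lit 4516)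
 (nat_lit 140737488355328) (.ev (nat_lit 4525) (nat_lit 8589934592) .dd))))) (.ch (nat_lit 2) (.ev (nat_lit
 3696) (nat_lit 904178830725961746432) (.ev (nat_lit 5312) (nat_lit 8589934592) (.ev (nat_lit 5325) (nat_lit
 2251799813685248) .dd)))))) (.br (nat_lit 10) (.br (nat_lit 6) (.ch (nat_lit 4) (.ev (nat_lit 3696) (nat_lit
 904181082533811718144) (.ev (nat_lit 5700) (nat_lit 536870912) (.ev (nat_lit 5709) (nat_lit 16777216) .dd))))
 (.ch (nat_lit 6) (.ev (nat_lit 3696) (nat_lit 18737366996290111488) (.ev (nat_lit 4992) (nat_lit 16777216)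
 (.ev (nat_lit 5840) (nat_lit 590295810358705651712) (.ev (nat_lit 5853) (nat_lit 295147905179352825856)
 .dd)))))) (.br (nat_lit 13) (.ch (nat_lit 10) (.ev (nat_lit 3696) (nat_lit 885446108075914168320) (.ev
 (nat_lit 3780) (nat_lit 288230376151711744) (.ev (nat_lit 5092) (nat_lit 8589934592) (.ev (nat_lit 5101)
 (nat_lit 18446744073709551616) .dd))))) (.ch (nat_lit 13) (.ev (nat_lit 3696) (nat_lit 904181082534348589056)
 (.ev (nat_lit 3709) (nat_lit 16777216) .dd)))))) (.br (nat_lit 31) (.br (nat_lit 19) (.br (nat_lit 17) (.ch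
 (nat_lit 14) (.ev (nat_lit 3696) (nat_lit 885446108075914168320) (.ev (nat_lit 3732) (nat_lit 8589934592) (.ev
 (nat_lit 5776) (nat_lit 288230376151711744) (.ev (nat_lit 5789) (nat_lit 18446744073709551616) .dd))))) (.ch
 (nat_lit 17) (.ev (nat_lit 3696) (nat_lit 885734197714577524736) (.ev (nat_lit 4912) (nat_lit 140737488355328)
 (.ev (nat_lit 5700) (nat_lit 18446744073709551616) (.ev (nat_lit 5709) (nat_lit 8589934592) .dd)))))) (.br
 (nat_lit 30) (.ch (nat_lit 19) (.ev (nat_lit 3696) (nat_lit 608742695169903558656) (.ev (nat_lit 3780)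
 (nat_lit 536870912) (.ev (nat_lit 5072) (nat_lit 2251799813685248) (.ev (nat_lit 5172) (nat_lit 2048) (.ev
 (nat_lit 5584) (nat_lit 8589934592) (.ev (nat_lit 5712) (nat_lit 288230376151711744) (.ev (nat_lit 5792)
 (nat_lit 16777216) (.ev (nat_lit 5805) (nat_lit 295147905179352825856) .dd))))))))) (.ch (nat_lit 30) (.ev
 (nat_lit 3696) (nat_lit 295438528101950162944) (.ev (nat_lit 5524) (nat_lit 590295810358705651712) (.ev
 (nat_lit 5533) (nat_lit 18446744073709551616) .dd)))))) (.br (nat_lit 35) (.br (nat_lit 34) (.ch (nat_lit 31)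
 (.ev (nat_lit 3696) (nat_lit 18737226258281662464) (.ev (nat_lit 3744) (nat_lit 590295810358705651712) (.ev
 (nat_lit 3780) (nat_lit 295147905179352825856) (.ev (nat_lit 5488) (nat_lit 140737488355328) (.ev (nat_lit
 5501) (nat_lit 536870912) .dd)))))) (.ch (nat_lit 34) (.ev (nat_lit 3696) (nat_lit 904181082525238560768) (.ev
 (nat_lit 3732) (nat_lit 536870912) (.ev (nat_lit 3741) (nat_lit 8589934592) .dd))))) (.br (nat_lit 41) (.ch
 (nat_lit 35) (.ev (nat_lit 3696) (nat_lit 608744946978860828672) (.ev (nat_lit 3732) (nat_lit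
 295147905179352825856) (.ev (nat_lit 3741) (nat_lit 288230376151711744) .dd)))) (.ch (nat_lit 41) (.ev
 (nat_lit 3696) (nat_lit 904181082534365364224) (.ev (nat_lit 3709) (nat_lit 2048) .dd)))))))))))))))) (.br
 (nat_lit 21) (.ch (nat_lit 18) (.ev (nat_lit 52) (nat_lit 1771175964918082508928) (.ev (nat_lit 84) (nat_lit
 8388608) (.ev (nat_lit 404) (nat_lit 9007199254740992) (.ev (nat_lit 628) (nat_lit 2251799813685248) (.ev
 (nat_lit 1076) (nat_lit 18446744073709551616) (.ev (nat_lit 1428) (nat_lit 8589934592) (.ev (nat_lit 2100)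
 (nat_lit 2) (.nd (nat_lit 3680) (.br (nat_lit 26) (.br (nat_lit 12) (.br (nat_lit 5) (.br (nat_lit 2) (.ch
 (nat_lit 1) (.ev (nat_lit 3696) (nat_lit 211673168478240) (.ev (nat_lit 3732) (nat_lit 295147905179352825856)
 (.ev (nat_lit 3741) (nat_lit 16777216) .dd)))) (.ch (nat_lit 2) (.ev (nat_lit 3696) (nat_lit 211656005386240)
 (.ev (nat_lit 5104) (nat_lit 32) (.ev (nat_lit 5424) (nat_lit 17179869184) (.ev (nat_lit 5437) (nat_lit
 295147905179352825856) .dd)))))) (.br (nat_lit 10) (.ch (nat_lit 5) (.ev (nat_lit 3696) (nat_lit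
 295148046483793903648) (.ev (nat_lit 3709) (nat_lit 70368744177664) .dd))) (.ch (nat_lit 10) (.ev (nat_lit
 3696) (nat_lit 295148116285585358880) (.ev (nat_lit 3732) (nat_lit 17196646400) (.ev (nat_lit 3860) (nat_lit
 549755813888) (.ev (nat_lit 3869) (nat_lit 262144) .dd))))))) (.br (nat_lit 15) (.br (nat_lit 13) (.ch
 (nat_lit 12) (.ev (nat_lit 3696) (nat_lit 295148116302765490176) (.ev (nat_lit 3780) (nat_lit 16777216) (.ev
 (nat_lit 3860) (nat_lit 549755813888) (.ev (nat_lit 3869) (nat_lit 32) .dd))))) (.ch (nat_lit 13) (.ev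
 (nat_lit 3696) (nat_lit 295148116852538081312) .dd))) (.br (nat_lit 19) (.ch (nat_lit 15) (.ev (nat_lit 3696)
 (nat_lit 295148116852537819168) (.ev (nat_lit 3709) (nat_lit 262144) .dd))) (.br (nat_lit 25) (.ch (nat_lit
 19) (.ev (nat_lit 3696) (nat_lit 295147976115032948768) (.ev (nat_lit 3732) (nat_lit 16777216) (.ev (nat_lit
 3741) (nat_lit 140737488355328) .dd)))) (.ch (nat_lit 25) (.ev (nat_lit 3696) (nat_lit 295148045934037827616)
 (.ev (nat_lit 3732) (nat_lit 70368744177664) (.ev (nat_lit 3780) (nat_lit 549755813888) (.ev (nat_lit 3789)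
 (nat_lit 262144) .dd))))))))) (.br (nat_lit 34) (.br (nat_lit 30) (.br (nat_lit 29) (.ch (nat_lit 26) (.ev
 (nat_lit 3696) (nat_lit 211656005386272) (.ev (nat_lit 5700) (nat_lit 295147905179352825856) (.ev (nat_lit
 5709) (nat_lit 17179869184) .dd)))) (.ch (nat_lit 29) (.ev (nat_lit 3696) (nat_lit 295148116852537819168) (.ev
 (nat_lit 3709) (nat_lit 262144) .dd)))) (.br (nat_lit 31) (.ch (nat_lit 30) (.ev (nat_lit 3696) (nat_lit
 295147976115049725984) (.ev (nat_lit 3709) (nat_lit 140737488355328) .dd))) (.ch (nat_lit 31) (.ev (nat_lit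
 3696) (nat_lit 295148116302782267392) (.ev (nat_lit 3712) (nat_lit 32) (.ev (nat_lit 3725) (nat_lit
 549755813888) .dd)))))) (.br (nat_lit 37) (.br (nat_lit 35) (.ch (nat_lit 34) (.ev (nat_lit 3696) (nat_lit
 295148116852521041952) (.ev (nat_lit 3892) (nat_lit 262144) (.ev (nat_lit 3901) (nat_lit 16777216) .dd))))
 (.ch (nat_lit 35) (.ev (nat_lit 3696) (nat_lit 295148045934038089728) (.ev (nat_lit 3828) (nat_lit 32) (.ev
 (nat_lit 5712) (nat_lit 549755813888) (.ev (nat_lit 5725) (nat_lit 70368744177664) .dd)))))) (.br (nat_lit 41)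
 (.ch (nat_lit 37) (.ev (nat_lit 3696) (nat_lit 295148045934038089728) (.ev (nat_lit 3732) (nat_lit
 549755813920) (.ev (nat_lit 3741) (nat_lit 70368744177664) .dd)))) (.br (nat_lit 43) (.ch (nat_lit 41) (.ev
 (nat_lit 3696) (nat_lit 295147975565293912096) (.ev (nat_lit 3828) (nat_lit 549755813888) (.ev (nat_lit 3837)
 (nat_lit 140737488355328) .dd)))) (.ch (nat_lit 43) (.ev (nat_lit 3696) (nat_lit 295147905746305286176) (.ev
 (nat_lit 5700) (nat_lit 70368744177664) (.ev (nat_lit 5712) (nat_lit 262144) (.ev (nat_lit 5725) (nat_lit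
 140737488355328) .dd))))))))))))))))))) (.ch (nat_lit 21) (.ev (nat_lit 52) (nat_lit 2066037816770882764832)
 (.ev (nat_lit 608) (nat_lit 18744268081114126466) .dd))))) (.br (nat_lit 26) (.br (nat_lit 24) (.ch (nat_lit
 22) (.ev (nat_lit 52) (nat_lit 2066038015216154902528) (.ev (nat_lit 116) (nat_lit 288230376151711744) (.ev
 (nat_lit 180) (nat_lit 9007199254740992) (.ev (nat_lit 372) (nat_lit 70368744177664) (.ev (nat_lit 404)
 (nat_lit 17179869184) (.ev (nat_lit 1044) (nat_lit 4096) (.ev (nat_lit 2900) (nat_lit 128) (.nd (nat_lit 3680)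
 (.br (nat_lit 22) (.br (nat_lit 13) (.br (nat_lit 3) (.ch (nat_lit 0) (.ev (nat_lit 3696) (nat_lit
 18446744082325438496) (.ev (nat_lit 3732) (nat_lit 17592186044416) (.ev (nat_lit 3828) (nat_lit 2048) (.ev
 (nat_lit 3837) (nat_lit 2) .dd))))) (.br (nat_lit 10) (.ch (nat_lit 3) (.ev (nat_lit 3696) (nat_lit
 17600784369698) (.ev (nat_lit 3780) (nat_lit 262144) (.ev (nat_lit 3860) (nat_lit 18446744073709551616) (.ev
 (nat_lit 5584) (nat_lit 524288) (.ev (nat_lit 5597) (nat_lit 16777216) .dd)))))) (.ch (nat_lit 10) (.ev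
 (nat_lit 3696) (nat_lit 18446761665921288226) (.ev (nat_lit 3892) (nat_lit 262144) (.ev (nat_lit 3901)
 (nat_lit 8589934592) .dd)))))) (.br (nat_lit 17) (.br (nat_lit 14) (.ch (nat_lit 13) (.ev (nat_lit 3696)
 (nat_lit 18446761674494707746) (.ev (nat_lit 3709) (nat_lit 16777216) .dd))) (.ch (nat_lit 14) (.ev (nat_lit
 3696) (nat_lit 25692194) (.ev (nat_lit 3828) (nat_lit 17592186044416) (.ev (nat_lit 5184) (nat_lit 8589934592)
 (.ev (nat_lit 5524) (nat_lit 18446744073709551616) (.ev (nat_lit 5533) (nat_lit 262144) .dd))))))) (.br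
 (nat_lit 20) (.ch (nat_lit 17) (.ev (nat_lit 3696) (nat_lit 8607500290) (.ev (nat_lit 3732) (nat_lit
 18446744073709551616) (.ev (nat_lit 5552) (nat_lit 17592194433024) (.ev (nat_lit 5565) (nat_lit 32) .dd)))))
 (.ch (nat_lit 20) (.ev (nat_lit 3696) (nat_lit 18446761665921550370) (.ev (nat_lit 3709) (nat_lit 8589934592)
 .dd)))))) (.br (nat_lit 34) (.br (nat_lit 26) (.br (nat_lit 25) (.ch (nat_lit 22) (.ev (nat_lit 3696) (nat_lit
 18446744082324916258) (.ev (nat_lit 5268) (nat_lit 17592186044416) (.ev (nat_lit 5277) (nat_lit 524288)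
 .dd)))) (.ch (nat_lit 25) (.ev (nat_lit 3696) (nat_lit 18446761674511220770) (.ev (nat_lit 3828) (nat_lit
 262144) (.ev (nat_lit 3837) (nat_lit 2048) .dd))))) (.br (nat_lit 30) (.ch (nat_lit 26) (.ev (nat_lit 3696)
 (nat_lit 17600801671170) (.ev (nat_lit 4292) (nat_lit 32) (.ev (nat_lit 5412) (nat_lit 262144) (.ev (nat_lit
 5421) (nat_lit 18446744073709551616) .dd))))) (.ch (nat_lit 30) (.ev (nat_lit 3696) (nat_lit
 18446761674486319138) (.ev (nat_lit 5974) (nat_lit 25165824) .dd))))) (.br (nat_lit 43) (.br (nat_lit 35) (.ch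
 (nat_lit 34) (.ev (nat_lit 3696) (nat_lit 17600793544738) (.ev (nat_lit 5728) (nat_lit 18446744073709551616)
 (.ev (nat_lit 5741) (nat_lit 8388608) .dd)))) (.ch (nat_lit 35) (.ev (nat_lit 3696) (nat_lit
 18446761665921550370) (.ev (nat_lit 3709) (nat_lit 8589934592) .dd)))) (.br (nat_lit 46) (.ch (nat_lit 43)
 (.ev (nat_lit 3696) (nat_lit 18446744082325438496) (.ev (nat_lit 3732) (nat_lit 17592186044416) (.ev (nat_lit
 4164) (nat_lit 2) (.ev (nat_lit 4173) (nat_lit 2048) .dd))))) (.ch (nat_lit 46) (.ev (nat_lit 3696) (nat_lit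
 18446761674510698530) (.ev (nat_lit 3780) (nat_lit 262144) (.ev (nat_lit 3789) (nat_lit 524288)
 .dd))))))))))))))))) (.ch (nat_lit 24) (.ev (nat_lit 52) (nat_lit 313603890124844959746) (.ev (nat_lit 724)
 (nat_lit 524288) (.ev (nat_lit 1428) (nat_lit 32) (.ev (nat_lit 2080) (nat_lit 1771178194727151407232)
 .dd)))))) (.br (nat_lit 28) (.ch (nat_lit 26) (.ev (nat_lit 52) (nat_lit 885452740355806203936) (.ev (nat_lit
 468) (nat_lit 128) (.ev (nat_lit 564) (nat_lit 140737488355328) (.ev (nat_lit 628) (nat_lit 8388608) (.ev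
 (nat_lit 916) (nat_lit 524288) (.ev (nat_lit 2324) (nat_lit 281474976710656) (.ev (nat_lit 3316) (nat_lit
 288230376151711744) (.ev (nat_lit 3668) (nat_lit 549755813888) (.nd (nat_lit 3680) (.br (nat_lit 18) (.br
 (nat_lit 12) (.br (nat_lit 6) (.br (nat_lit 5) (.ch (nat_lit 1) (.ev (nat_lit 3696) (nat_lit 2326566671550466)
 (.ev (nat_lit 4612) (nat_lit 1180591620717411303424) (.ev (nat_lit 5760) (nat_lit 18446744073726328832)
 .dd)))) (.ch (nat_lit 5) (.ev (nat_lit 3696) (nat_lit 1199040686959762669570) (.ev (nat_lit 3780) (nat_lit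
 4398046511104) (.ev (nat_lit 3789) (nat_lit 2048) .dd))))) (.br (nat_lit 10) (.ch (nat_lit 6) (.ev (nat_lit
 3696) (nat_lit 1199040691357725229056) (.ev (nat_lit 4726) (nat_lit 83953666) .dd))) (.ch (nat_lit 10) (.ev
 (nat_lit 3696) (nat_lit 1180593947284099565570) (.ev (nat_lit 5892) (nat_lit 65536) (.ev (nat_lit 5901)
 (nat_lit 18446744073709551616) .dd)))))) (.br (nat_lit 14) (.br (nat_lit 13) (.ch (nat_lit 12) (.ev (nat_lit
 3696) (nat_lit 1199040616591018491906) (.ev (nat_lit 3780) (nat_lit 4398046511104) (.ev (nat_lit 3860)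
 (nat_lit 2048) (.ev (nat_lit 3869) (nat_lit 70368744177664) .dd))))) (.ch (nat_lit 13) (.ev (nat_lit 3696)
 (nat_lit 1199040691357809182720) (.ev (nat_lit 3709) (nat_lit 2) .dd)))) (.br (nat_lit 15) (.ch (nat_lit 14)
 (.ev (nat_lit 3696) (nat_lit 1180593942886053054466) (.ev (nat_lit 3732) (nat_lit 18446744073709551616) (.ev
 (nat_lit 5412) (nat_lit 4398046511104) (.ev (nat_lit 5421) (nat_lit 65536) .dd))))) (.br (nat_lit 17) (.ch
 (nat_lit 15) (.ev (nat_lit 3696) (nat_lit 1199040686959695562754) (.ev (nat_lit 3956) (nat_lit 4398046511104)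
 (.ev (nat_lit 3965) (nat_lit 67108864) .dd)))) (.ch (nat_lit 17) (.ev (nat_lit 3696) (nat_lit
 1199040691357809182720) (.ev (nat_lit 3709) (nat_lit 2) .dd))))))) (.br (nat_lit 34) (.br (nat_lit 26) (.br
 (nat_lit 20) (.ch (nat_lit 18) (.ev (nat_lit 3696) (nat_lit 18449070640313927682) (.ev (nat_lit 4004) (nat_lit
 67108864) (.ev (nat_lit 5552) (nat_lit 16777216) (.ev (nat_lit 5792) (nat_lit 1180591620717411368960) .dd)))))
 (.ch (nat_lit 20) (.ev (nat_lit 3696) (nat_lit 1199038369189251319810) (.ev (nat_lit 5104) (nat_lit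
 70368744177664) (.ev (nat_lit 5117) (nat_lit 2251799813685248) .dd))))) (.br (nat_lit 31) (.ch (nat_lit 26)
 (.ev (nat_lit 3696) (nat_lit 18446818840517019650) (.ev (nat_lit 3732) (nat_lit 2251799880794112) (.ev
 (nat_lit 5700) (nat_lit 65536) (.ev (nat_lit 5709) (nat_lit 1180591620717411303424) .dd))))) (.ch (nat_lit 31)
 (.ev (nat_lit 3696) (nat_lit 1199040620989065003010) (.ev (nat_lit 3732) (nat_lit 70368744177664) (.ev
 (nat_lit 3741) (nat_lit 2048) .dd)))))) (.br (nat_lit 37) (.br (nat_lit 35) (.ch (nat_lit 34) (.ev (nat_lit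
 3696) (nat_lit 1199040686959745894402) (.ev (nat_lit 5412) (nat_lit 16777216) (.ev (nat_lit 5421) (nat_lit
 4398046511104) .dd)))) (.ch (nat_lit 35) (.ev (nat_lit 3696) (nat_lit 1199040620989065003010) (.ev (nat_lit
 3712) (nat_lit 70368744177664) (.ev (nat_lit 3725) (nat_lit 2048) .dd))))) (.br (nat_lit 42) (.ch (nat_lit 37)
 (.ev (nat_lit 3696) (nat_lit 1180593876915355451394) (.ev (nat_lit 3732) (nat_lit 70368744177664) (.ev
 (nat_lit 5700) (nat_lit 2048) (.ev (nat_lit 5709) (nat_lit 18446744073709551616) .dd))))) (.br (nat_lit 46)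
 (.ch (nat_lit 42) (.ev (nat_lit 3696) (nat_lit 18449070640397877250) (.ev (nat_lit 4832) (nat_lit 2048) (.ev
 (nat_lit 4845) (nat_lit 1180591620717411303424) .dd)))) (.ch (nat_lit 46) (.ev (nat_lit 3696) (nat_lit
 18449070640330770434) (.ev (nat_lit 3732) (nat_lit 1180591620717411303424) (.ev (nat_lit 3741) (nat_lit
 67108864) .dd))))))))))))))))))) (.br (nat_lit 29) (.ch (nat_lit 28) (.ev (nat_lit 52) (nat_lit
 1771184950152807585824) (.ev (nat_lit 116) (nat_lit 67108864) (.ev (nat_lit 340) (nat_lit 128) (.ev (nat_lit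
 564) (nat_lit 8388608) (.ev (nat_lit 884) (nat_lit 17592186044416) (.ev (nat_lit 2356) (nat_lit
 18446744073709551616) (.ev (nat_lit 2676) (nat_lit 4398046511104) (.ev (nat_lit 3572) (nat_lit 549755813888)
 (.nd (nat_lit 3680) (.br (nat_lit 22) (.br (nat_lit 5) (.br (nat_lit 2) (.br (nat_lit 1) (.ch (nat_lit 0) (.ev
 (nat_lit 3696) (nat_lit 2462906063060994) (.ev (nat_lit 3709) (nat_lit 295147905179352825856) .dd))) (.ch
 (nat_lit 1) (.ev (nat_lit 3696) (nat_lit 2322168574705666) (.ev (nat_lit 4820) (nat_lit 295147905179352825856)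
 (.ev (nat_lit 4829) (nat_lit 140737488355328) .dd))))) (.br (nat_lit 3) (.ch (nat_lit 2) (.ev (nat_lit 3696)
 (nat_lit 211106249375746) (.ev (nat_lit 4896) (nat_lit 295147905179352825856) (.ev (nat_lit 4909) (nat_lit
 2251799813685248) .dd)))) (.ch (nat_lit 3) (.ev (nat_lit 3696) (nat_lit 2322168557862914) (.ev (nat_lit 3732)
 (nat_lit 16777216) (.ev (nat_lit 3780) (nat_lit 65536) (.ev (nat_lit 5712) (nat_lit 140737488355328) (.ev
 (nat_lit 5725) (nat_lit 295147905179352825856) .dd)))))))) (.br (nat_lit 17) (.br (nat_lit 6) (.ch (nat_lit 5)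
 (.ev (nat_lit 3696) (nat_lit 2392537318817792) (.ev (nat_lit 3732) (nat_lit 70368744177664) (.ev (nat_lit
 5412) (nat_lit 65536) (.ev (nat_lit 5700) (nat_lit 295147905179352825856) (.ev (nat_lit 5709) (nat_lit 2)
 .dd)))))) (.ch (nat_lit 6) (.ev (nat_lit 3696) (nat_lit 295148116285585424384) (.ev (nat_lit 5268) (nat_lit
 16777216) (.ev (nat_lit 5700) (nat_lit 2) (.ev (nat_lit 5709) (nat_lit 2251799813685248) .dd)))))) (.br
 (nat_lit 19) (.ch (nat_lit 17) (.ev (nat_lit 3696) (nat_lit 295150368085415886848) (.ev (nat_lit 3709)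
 (nat_lit 2) .dd))) (.br (nat_lit 20) (.ch (nat_lit 19) (.ev (nat_lit 3696) (nat_lit 295150368085399109632)
 (.ev (nat_lit 3732) (nat_lit 16777216) (.ev (nat_lit 3741) (nat_lit 2) .dd)))) (.ch (nat_lit 20) (.ev (nat_lit
 3696) (nat_lit 295148045916858023938) (.ev (nat_lit 3732) (nat_lit 70368744177664) (.ev (nat_lit 3741)
 (nat_lit 2251799813685248) .dd)))))))) (.br (nat_lit 34) (.br (nat_lit 29) (.br (nat_lit 25) (.ch (nat_lit 22)
 (.ev (nat_lit 3696) (nat_lit 295147975548097069058) (.ev (nat_lit 3780) (nat_lit 2251799813685248) (.ev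
 (nat_lit 4016) (nat_lit 140737488355328) (.ev (nat_lit 4029) (nat_lit 16777216) .dd))))) (.ch (nat_lit 25)
 (.ev (nat_lit 3696) (nat_lit 295148045916858023938) (.ev (nat_lit 5524) (nat_lit 70368744177664) (.ev (nat_lit
 5533) (nat_lit 2251799813685248) .dd))))) (.br (nat_lit 31) (.ch (nat_lit 29) (.ev (nat_lit 3696) (nat_lit
 295150368085415886848) (.ev (nat_lit 3709) (nat_lit 2) .dd))) (.ch (nat_lit 31) (.ev (nat_lit 3696) (nat_lit
 2392537318883330) (.ev (nat_lit 5412) (nat_lit 295147905179352825856) (.ev (nat_lit 5421) (nat_lit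
 70368744177664) .dd)))))) (.br (nat_lit 41) (.br (nat_lit 37) (.ch (nat_lit 34) (.ev (nat_lit 3696) (nat_lit
 295150368085415886850) .dd)) (.ch (nat_lit 37) (.ev (nat_lit 3696) (nat_lit 295148045916858023936) (.ev
 (nat_lit 4964) (nat_lit 2) (.ev (nat_lit 5424) (nat_lit 70368744177664) (.ev (nat_lit 5437) (nat_lit
 2251799813685248) .dd)))))) (.br (nat_lit 43) (.ch (nat_lit 41) (.ev (nat_lit 3696) (nat_lit
 295150227347927531522) (.ev (nat_lit 3709) (nat_lit 140737488355328) .dd))) (.br (nat_lit 46) (.ch (nat_lit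
 43) (.ev (nat_lit 3696) (nat_lit 295148116285602201602) (.ev (nat_lit 3709) (nat_lit 2251799813685248) .dd)))
 (.ch (nat_lit 46) (.ev (nat_lit 3696) (nat_lit 295150227347910754306) (.ev (nat_lit 3732) (nat_lit 16777216)
 (.ev (nat_lit 3741) (nat_lit 140737488355328) .dd))))))))))))))))))) (.ch (nat_lit 29) (.ev (nat_lit 52)
 (nat_lit 904190234869205831840) (.ev (nat_lit 116) (nat_lit 8388608) (.ev (nat_lit 372) (nat_lit 65536) (.ev
 (nat_lit 564) (nat_lit 2) (.ev (nat_lit 884) (nat_lit 262144) (.ev (nat_lit 2100) (nat_lit 140737488355328)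
 (.ev (nat_lit 3328) (nat_lit 1180591709245293987840) .dd))))))))))))) (.br (nat_lit 42) (.br (nat_lit 38) (.br
 (nat_lit 36) (.br (nat_lit 33) (.ch (nat_lit 31) (.ev (nat_lit 52) (nat_lit 608752054762702114816) (.ev
 (nat_lit 64) (nat_lit 1476030030089294776482) .dd))) (.ch (nat_lit 33) (.ev (nat_lit 52) (nat_lit
 1180591902768006170752) (.ev (nat_lit 84) (nat_lit 288230376151711744) (.ev (nat_lit 532) (nat_lit
 295147922771538870272) (.ev (nat_lit 564) (nat_lit 2251799813685248) (.ev (nat_lit 1172) (nat_lit 32) (.ev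
 (nat_lit 1876) (nat_lit 4096) (.ev (nat_lit 1940) (nat_lit 18446744073709551616) (.ev (nat_lit 1972) (nat_lit
 524288) (.ev (nat_lit 2740) (nat_lit 4398046511104) (.ev (nat_lit 3156) (nat_lit 70368744177664) (.nd (nat_lit
 3680) (.br (nat_lit 29) (.br (nat_lit 17) (.br (nat_lit 5) (.ch (nat_lit 1) (.ev (nat_lit 3696) (nat_lit
 590304958295985684480) (.ev (nat_lit 3709) (nat_lit 2) .dd))) (.br (nat_lit 15) (.ch (nat_lit 5) (.ev (nat_lit
 3696) (nat_lit 9147937280032770) (.ev (nat_lit 3709) (nat_lit 590295810358705651712) .dd))) (.ch (nat_lit 15)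
 (.ev (nat_lit 3696) (nat_lit 590304958295448813570) (.ev (nat_lit 3709) (nat_lit 536870912) .dd))))) (.br
 (nat_lit 25) (.br (nat_lit 18) (.ch (nat_lit 17) (.ev (nat_lit 3696) (nat_lit 590304817558497329154) (.ev
 (nat_lit 3709) (nat_lit 140737488355328) .dd))) (.ch (nat_lit 18) (.ev (nat_lit 3696) (nat_lit
 140737488420866) (.ev (nat_lit 3828) (nat_lit 536870912) (.ev (nat_lit 5524) (nat_lit 590295810358705651712)
 (.ev (nat_lit 5533) (nat_lit 9007199254740992) .dd)))))) (.br (nat_lit 26) (.ch (nat_lit 25) (.ev (nat_lit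
 3696) (nat_lit 9147937280032770) (.ev (nat_lit 3709) (nat_lit 590295810358705651712) .dd))) (.ch (nat_lit 26)
 (.ev (nat_lit 3696) (nat_lit 590304958295985684482) .dd))))) (.br (nat_lit 41) (.br (nat_lit 35) (.br (nat_lit
 30) (.ch (nat_lit 29) (.ev (nat_lit 3696) (nat_lit 9147937280032768) (.ev (nat_lit 5700) (nat_lit
 590295810358705651712) (.ev (nat_lit 5709) (nat_lit 2) .dd)))) (.ch (nat_lit 30) (.ev (nat_lit 3696) (nat_lit
 140738025291778) (.ev (nat_lit 3732) (nat_lit 590295810358705651712) (.ev (nat_lit 3741) (nat_lit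
 9007199254740992) .dd))))) (.br (nat_lit 37) (.ch (nat_lit 35) (.ev (nat_lit 3696) (nat_lit
 590304817558497263618) (.ev (nat_lit 4772) (nat_lit 140737488355328) (.ev (nat_lit 4781) (nat_lit 65536)
 .dd)))) (.ch (nat_lit 37) (.ev (nat_lit 3696) (nat_lit 590304958295985618946) (.ev (nat_lit 3709) (nat_lit
 65536) .dd))))) (.br (nat_lit 43) (.br (nat_lit 42) (.ch (nat_lit 41) (.ev (nat_lit 3696) (nat_lit
 590295810359242588162) (.ev (nat_lit 4004) (nat_lit 140737488355328) (.ev (nat_lit 4013) (nat_lit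
 9007199254740992) .dd)))) (.ch (nat_lit 42) (.ev (nat_lit 3696) (nat_lit 590304958295448813568) (.ev (nat_lit
 3920) (nat_lit 2) (.ev (nat_lit 3933) (nat_lit 536870912) .dd))))) (.br (nat_lit 46) (.ch (nat_lit 43) (.ev
 (nat_lit 3696) (nat_lit 590295810359242588162) (.ev (nat_lit 3984) (nat_lit 140737488355328) (.ev (nat_lit
 3997) (nat_lit 9007199254740992) .dd)))) (.ch (nat_lit 46) (.ev (nat_lit 3696) (nat_lit 590295810359242588162)
 (.ev (nat_lit 3780) (nat_lit 140737488355328) (.ev (nat_lit 3789) (nat_lit 9007199254740992)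
 .dd))))))))))))))))))))) (.br (nat_lit 37) (.ch (nat_lit 36) (.ev (nat_lit 52) (nat_lit
 1180600909950542416034) (.ev (nat_lit 84) (nat_lit 2251799813685248) (.ev (nat_lit 148) (nat_lit
 140737488355328) (.ev (nat_lit 436) (nat_lit 18446744073709551616) (.ev (nat_lit 1108) (nat_lit
 70368744177664) (.ev (nat_lit 1556) (nat_lit 17179869184) (.ev (nat_lit 1812) (nat_lit 17592186044416) (.ev
 (nat_lit 1972) (nat_lit 295147905179352825856) (.ev (nat_lit 2836) (nat_lit 8388608) (.ev (nat_lit 2932)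
 (nat_lit 4096) (.nd (nat_lit 3680) (.br (nat_lit 14) (.br (nat_lit 4) (.br (nat_lit 2) (.ch (nat_lit 0) (.ev
 (nat_lit 3696) (nat_lit 288234774198812672) (.ev (nat_lit 5524) (nat_lit 67108864) (.ev (nat_lit 5533)
 (nat_lit 590295810358705651712) .dd)))) (.br (nat_lit 3) (.ch (nat_lit 2) (.ev (nat_lit 3696) (nat_lit
 590584045132904398848) (.ev (nat_lit 4480) (nat_lit 65536) (.ev (nat_lit 4493) (nat_lit 67108864) .dd)))) (.ch
 (nat_lit 3) (.ev (nat_lit 3696) (nat_lit 4398113685504) (.ev (nat_lit 4932) (nat_lit 590295810358705651712)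
 (.ev (nat_lit 5524) (nat_lit 524288) (.ev (nat_lit 5533) (nat_lit 288230376151711744) .dd))))))) (.br (nat_lit
 10) (.br (nat_lit 5) (.ch (nat_lit 4) (.ev (nat_lit 3696) (nat_lit 590584045132971048960) (.ev (nat_lit 3709)
 (nat_lit 524288) .dd))) (.ch (nat_lit 5) (.ev (nat_lit 3696) (nat_lit 590584045132971507712) (.ev (nat_lit
 3709) (nat_lit 65536) .dd)))) (.br (nat_lit 13) (.ch (nat_lit 10) (.ev (nat_lit 3696) (nat_lit
 590584045132971573248) .dd)) (.ch (nat_lit 13) (.ev (nat_lit 3696) (nat_lit 590584045132971573248) .dd)))))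
 (.br (nat_lit 31) (.br (nat_lit 25) (.br (nat_lit 18) (.ch (nat_lit 14) (.ev (nat_lit 3696) (nat_lit
 4398113685504) (.ev (nat_lit 3732) (nat_lit 288230376151711744) (.ev (nat_lit 5776) (nat_lit
 590295810358706176000) .dd)))) (.ch (nat_lit 18) (.ev (nat_lit 3696) (nat_lit 288230376218886144) (.ev
 (nat_lit 3732) (nat_lit 590295810358705651712) (.ev (nat_lit 3956) (nat_lit 4398046511104) (.ev (nat_lit 3965)
 (nat_lit 524288) .dd)))))) (.br (nat_lit 26) (.ch (nat_lit 25) (.ev (nat_lit 3696) (nat_lit 4398114209792)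
 (.ev (nat_lit 5700) (nat_lit 590295810358705651712) (.ev (nat_lit 5709) (nat_lit 288230376151711744) .dd))))
 (.ch (nat_lit 26) (.ev (nat_lit 3696) (nat_lit 590295810358706241536) (.ev (nat_lit 3732) (nat_lit
 4398046511104) (.ev (nat_lit 4944) (nat_lit 67108864) (.ev (nat_lit 4957) (nat_lit 288230376151711744)
 .dd))))))) (.br (nat_lit 43) (.br (nat_lit 37) (.ch (nat_lit 31) (.ev (nat_lit 3696) (nat_lit
 590584045132971573248) .dd)) (.ch (nat_lit 37) (.ev (nat_lit 3696) (nat_lit 590584045132971507712) (.ev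
 (nat_lit 3709) (nat_lit 65536) .dd)))) (.br (nat_lit 46) (.ch (nat_lit 43) (.ev (nat_lit 3696) (nat_lit
 4398114209792) (.ev (nat_lit 3732) (nat_lit 288230376151711744) (.ev (nat_lit 3741) (nat_lit
 590295810358705651712) .dd)))) (.ch (nat_lit 46) (.ev (nat_lit 3696) (nat_lit 590295810358773350400) (.ev
 (nat_lit 3780) (nat_lit 288230376151711744) (.ev (nat_lit 3789) (nat_lit 4398046511104)
 .dd)))))))))))))))))))) (.ch (nat_lit 37) (.ev (nat_lit 52) (nat_lit 313597042340196059298) (.ev (nat_lit 308)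
 (nat_lit 70368744177664) (.ev (nat_lit 980) (nat_lit 16777216) (.ev (nat_lit 1012) (nat_lit 524288) (.ev
 (nat_lit 1716) (nat_lit 288230376151711744) (.ev (nat_lit 1972) (nat_lit 17592186044416) (.ev (nat_lit 2196)
 (nat_lit 536870912) (.ev (nat_lit 2548) (nat_lit 4096) (.ev (nat_lit 3636) (nat_lit 590295810358705651712)
 (.nd (nat_lit 3680) (.br (nat_lit 20) (.br (nat_lit 10) (.br (nat_lit 2) (.br (nat_lit 1) (.ch (nat_lit 0)
 (.ev (nat_lit 3696) (nat_lit 1180600913798279200768) (.ev (nat_lit 3709) (nat_lit 17179869184) .dd))) (.ch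
 (nat_lit 1) (.ev (nat_lit 3696) (nat_lit 1180600913806869135360) (.ev (nat_lit 3709) (nat_lit 8589934592)
 .dd)))) (.br (nat_lit 6) (.ch (nat_lit 2) (.ev (nat_lit 3696) (nat_lit 1180600913815459069952) .dd)) (.ch
 (nat_lit 6) (.ev (nat_lit 3696) (nat_lit 1180591906616204328960) (.ev (nat_lit 3709) (nat_lit
 9007199254740992) .dd))))) (.br (nat_lit 17) (.br (nat_lit 13) (.ch (nat_lit 10) (.ev (nat_lit 3696) (nat_lit
 1180600913798279200768) (.ev (nat_lit 3709) (nat_lit 17179869184) .dd))) (.ch (nat_lit 13) (.ev (nat_lit 3696)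
 (nat_lit 1180600632340482359296) (.ev (nat_lit 3709) (nat_lit 281474976710656) .dd)))) (.br (nat_lit 18) (.ch
 (nat_lit 17) (.ev (nat_lit 3696) (nat_lit 1180600913806869135360) (.ev (nat_lit 3709) (nat_lit 8589934592)
 .dd))) (.br (nat_lit 19) (.ch (nat_lit 18) (.ev (nat_lit 3696) (nat_lit 1180600632323302490112) (.ev (nat_lit
 4564) (nat_lit 281474976710656) (.ev (nat_lit 4573) (nat_lit 17179869184) .dd)))) (.ch (nat_lit 19) (.ev
 (nat_lit 3696) (nat_lit 1180600913806869135360) (.ev (nat_lit 3709) (nat_lit 8589934592) .dd))))))) (.br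
 (nat_lit 30) (.br (nat_lit 25) (.br (nat_lit 22) (.ch (nat_lit 20) (.ev (nat_lit 3696) (nat_lit
 1180600913806869135360) (.ev (nat_lit 3709) (nat_lit 8589934592) .dd))) (.ch (nat_lit 22) (.ev (nat_lit 3696)
 (nat_lit 9011623071055872) (.ev (nat_lit 4820) (nat_lit 1180591620717411303424) (.ev (nat_lit 4829) (nat_lit
 281474976710656) .dd))))) (.br (nat_lit 26) (.ch (nat_lit 25) (.ev (nat_lit 3696) (nat_lit
 1180600909417412558848) (.ev (nat_lit 3709) (nat_lit 4398046511104) .dd))) (.ch (nat_lit 26) (.ev (nat_lit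
 3696) (nat_lit 281483566645248) (.ev (nat_lit 3732) (nat_lit 9007199254740992) (.ev (nat_lit 5776) (nat_lit
 17179869184) (.ev (nat_lit 5808) (nat_lit 4398046511104) (.ev (nat_lit 5821) (nat_lit 1180591620717411303424)
 .dd)))))))) (.br (nat_lit 34) (.br (nat_lit 31) (.ch (nat_lit 30) (.ev (nat_lit 3696) (nat_lit
 9288700001255424) (.ev (nat_lit 3732) (nat_lit 4398046511104) (.ev (nat_lit 3741) (nat_lit
 1180591620717411303424) .dd)))) (.ch (nat_lit 31) (.ev (nat_lit 3696) (nat_lit 1180600913815459069952) .dd)))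
 (.br (nat_lit 37) (.ch (nat_lit 34) (.ev (nat_lit 3696) (nat_lit 1180600913789689266176) (.ev (nat_lit 3732)
 (nat_lit 17179869184) (.ev (nat_lit 3741) (nat_lit 8589934592) .dd)))) (.br (nat_lit 46) (.ch (nat_lit 37)
 (.ev (nat_lit 3696) (nat_lit 1180591906616204328960) (.ev (nat_lit 3709) (nat_lit 9007199254740992) .dd)))
 (.ch (nat_lit 46) (.ev (nat_lit 3696) (nat_lit 9288674231451648) (.ev (nat_lit 3732) (nat_lit 4398046511104)
 (.ev (nat_lit 4212) (nat_lit 8589934592) (.ev (nat_lit 5712) (nat_lit 1180591620717411303424) (.ev (nat_lit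
 5725) (nat_lit 17179869184) .dd)))))))))))))))))))))))) (.br (nat_lit 40) (.br (nat_lit 39) (.ch (nat_lit 38)
 (.ev (nat_lit 52) (nat_lit 1180591779605432238114) (.ev (nat_lit 148) (nat_lit 2048) (.ev (nat_lit 340)
 (nat_lit 4096) (.ev (nat_lit 884) (nat_lit 295147905179352825856) (.ev (nat_lit 1428) (nat_lit
 590295810358705651712) (.ev (nat_lit 1524) (nat_lit 536870912) (.ev (nat_lit 1844) (nat_lit 4398046511104)
 (.ev (nat_lit 2804) (nat_lit 67108864) (.ev (nat_lit 3156) (nat_lit 65536) (.nd (nat_lit 3680) (.br (nat_lit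
 22) (.br (nat_lit 15) (.br (nat_lit 6) (.ch (nat_lit 1) (.ev (nat_lit 3696) (nat_lit 18746303834878902400)
 (.ev (nat_lit 3709) (nat_lit 281474976710656) .dd))) (.br (nat_lit 14) (.ch (nat_lit 6) (.ev (nat_lit 3696)
 (nat_lit 18735326310770409600) (.ev (nat_lit 3732) (nat_lit 16777216) (.ev (nat_lit 4480) (nat_lit
 2251799813685248) (.ev (nat_lit 4493) (nat_lit 9007199254740992) .dd))))) (.ch (nat_lit 14) (.ev (nat_lit
 3696) (nat_lit 299559743989481472) (.ev (nat_lit 3732) (nat_lit 18446744090889420800) (.ev (nat_lit 5268)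
 (nat_lit 128) (.ev (nat_lit 5277) (nat_lit 281474976710656) .dd))))))) (.br (nat_lit 19) (.ch (nat_lit 15)
 (.ev (nat_lit 3696) (nat_lit 18458073458727190528) (.ev (nat_lit 3732) (nat_lit 281474976710784) (.ev (nat_lit
 3741) (nat_lit 288230376151711744) .dd)))) (.br (nat_lit 20) (.ch (nat_lit 19) (.ev (nat_lit 3696) (nat_lit
 297519067571421184) (.ev (nat_lit 4292) (nat_lit 18446744073709551616) (.ev (nat_lit 5092) (nat_lit 16777216)
 (.ev (nat_lit 5412) (nat_lit 70368744177664) (.ev (nat_lit 5776) (nat_lit 128) (.ev (nat_lit 5789) (nat_lit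
 2251799813685248) .dd))))))) (.ch (nat_lit 20) (.ev (nat_lit 3696) (nat_lit 18737578093421002880) (.ev
 (nat_lit 3732) (nat_lit 17179869184) (.ev (nat_lit 3741) (nat_lit 9007199254740992) .dd))))))) (.br (nat_lit
 30) (.br (nat_lit 25) (.ch (nat_lit 22) (.ev (nat_lit 3696) (nat_lit 18456103116693569664) (.ev (nat_lit 3732)
 (nat_lit 2251799830462464) (.ev (nat_lit 3828) (nat_lit 17179869184) (.ev (nat_lit 3837) (nat_lit
 288230376151711744) .dd))))) (.br (nat_lit 29) (.ch (nat_lit 25) (.ev (nat_lit 3696) (nat_lit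
 18744333510016761856) (.ev (nat_lit 3732) (nat_lit 128) (.ev (nat_lit 5744) (nat_lit 8388608) (.ev (nat_lit
 5776) (nat_lit 2251799813685248) (.ev (nat_lit 5789) (nat_lit 16777216) .dd)))))) (.ch (nat_lit 29) (.ev
 (nat_lit 3696) (nat_lit 288300762092535808) (.ev (nat_lit 3732) (nat_lit 2251799813685376) (.ev (nat_lit 5568)
 (nat_lit 9007199254740992) (.ev (nat_lit 5600) (nat_lit 281474976710656) (.ev (nat_lit 5984) (nat_lit
 18446744073717940224) .dd)))))))) (.br (nat_lit 41) (.br (nat_lit 35) (.ch (nat_lit 30) (.ev (nat_lit 3696)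
 (nat_lit 18746585309838835712) (.ev (nat_lit 3828) (nat_lit 128) (.ev (nat_lit 3837) (nat_lit 16777216)
 .dd)))) (.ch (nat_lit 35) (.ev (nat_lit 3696) (nat_lit 18746233466134724736) (.ev (nat_lit 5700) (nat_lit
 281474976710656) (.ev (nat_lit 5709) (nat_lit 70368744177664) .dd))))) (.br (nat_lit 42) (.ch (nat_lit 41)
 (.ev (nat_lit 3696) (nat_lit 18449347734449160320) (.ev (nat_lit 3780) (nat_lit 288230376151711744) (.ev
 (nat_lit 3789) (nat_lit 9007199254740992) .dd)))) (.ch (nat_lit 42) (.ev (nat_lit 3696) (nat_lit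
 18735326310762020992) (.ev (nat_lit 3732) (nat_lit 16777216) (.ev (nat_lit 5472) (nat_lit 9007199254740992)
 (.ev (nat_lit 5524) (nat_lit 2251799813685248) (.ev (nat_lit 5533) (nat_lit 8388608) .dd)))))))))))))))))))))
 (.ch (nat_lit 39) (.ev (nat_lit 52) (nat_lit 904181012706770815106) (.ev (nat_lit 736) (nat_lit
 1180601072145226076192) .dd)))) (.br (nat_lit 41) (.ch (nat_lit 40) (.ev (nat_lit 52) (nat_lit
 904178918712175298720) (.ev (nat_lit 180) (nat_lit 1180591620717411303424) (.ev (nat_lit 1696) (nat_lit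
 11545422410289154) .dd)))) (.ch (nat_lit 41) (.ev (nat_lit 52) (nat_lit 295438884334599669760) (.ev (nat_lit
 244) (nat_lit 2) (.ev (nat_lit 916) (nat_lit 17592186044416) (.ev (nat_lit 1044) (nat_lit 65536) (.ev (nat_lit
 1172) (nat_lit 590295810358705651712) (.ev (nat_lit 1460) (nat_lit 9007199254740992) (.ev (nat_lit 2516)
 (nat_lit 549755813888) (.ev (nat_lit 2612) (nat_lit 32) (.ev (nat_lit 3060) (nat_lit 536870912) (.nd (nat_lit
 3680) (.br (nat_lit 18) (.br (nat_lit 6) (.br (nat_lit 4) (.br (nat_lit 1) (.ch (nat_lit 0) (.ev (nat_lit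
 3696) (nat_lit 1199038364799778160768) (.ev (nat_lit 3780) (nat_lit 4096) (.ev (nat_lit 3789) (nat_lit
 17179869184) .dd)))) (.ch (nat_lit 1) (.ev (nat_lit 3696) (nat_lit 1199038364808368099456) (.ev (nat_lit 3709)
 (nat_lit 8589934592) .dd)))) (.br (nat_lit 5) (.ch (nat_lit 4) (.ev (nat_lit 3696) (nat_lit 25770070144) (.ev
 (nat_lit 3968) (nat_lit 18446744073709551616) (.ev (nat_lit 4564) (nat_lit 67108864) (.ev (nat_lit 4573)
 (nat_lit 1180591620717411303424) .dd))))) (.ch (nat_lit 5) (.ev (nat_lit 3696) (nat_lit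
 1199038364816890663040) (.ev (nat_lit 5092) (nat_lit 262144) (.ev (nat_lit 5101) (nat_lit 67108864) .dd))))))
 (.br (nat_lit 12) (.br (nat_lit 10) (.ch (nat_lit 6) (.ev (nat_lit 3696) (nat_lit 18446744099546730624) (.ev
 (nat_lit 3709) (nat_lit 1180591620717411303424) .dd))) (.ch (nat_lit 10) (.ev (nat_lit 3696) (nat_lit
 1199038364816890921088) (.ev (nat_lit 3732) (nat_lit 4096) (.ev (nat_lit 3741) (nat_lit 67108864) .dd)))))
 (.br (nat_lit 13) (.ch (nat_lit 12) (.ev (nat_lit 3696) (nat_lit 25837174912) (.ev (nat_lit 3732) (nat_lit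
 18446744073709551616) (.ev (nat_lit 3780) (nat_lit 1180591620717411303424) (.ev (nat_lit 3789) (nat_lit 4096)
 .dd))))) (.br (nat_lit 14) (.ch (nat_lit 13) (.ev (nat_lit 3696) (nat_lit 1199038364808368099456) (.ev
 (nat_lit 3709) (nat_lit 8589934592) .dd))) (.ch (nat_lit 14) (.ev (nat_lit 3696) (nat_lit
 1180591620717478678528) (.ev (nat_lit 3732) (nat_lit 128) (.ev (nat_lit 3956) (nat_lit 17179869184) (.ev
 (nat_lit 5412) (nat_lit 18446744073709551616) (.ev (nat_lit 5421) (nat_lit 8589934592) .dd)))))))))) (.br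
 (nat_lit 30) (.br (nat_lit 22) (.br (nat_lit 19) (.ch (nat_lit 18) (.ev (nat_lit 3696) (nat_lit
 1199038364799710793856) (.ev (nat_lit 5412) (nat_lit 262144) (.ev (nat_lit 5792) (nat_lit 17246978048) .dd))))
 (.ch (nat_lit 19) (.ev (nat_lit 3696) (nat_lit 1180591620734658547712) (.ev (nat_lit 3732) (nat_lit 128) (.ev
 (nat_lit 4036) (nat_lit 18446744073709551616) (.ev (nat_lit 4045) (nat_lit 8589934592) .dd)))))) (.br (nat_lit
 26) (.ch (nat_lit 22) (.ev (nat_lit 3696) (nat_lit 18446744082299752576) (.ev (nat_lit 5712) (nat_lit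
 17179869184) (.ev (nat_lit 5760) (nat_lit 1180591620717478412288) .dd)))) (.ch (nat_lit 26) (.ev (nat_lit
 3696) (nat_lit 18446744090889687168) (.ev (nat_lit 5584) (nat_lit 8589934592) (.ev (nat_lit 5760) (nat_lit
 1180591620717411303424) (.ev (nat_lit 5773) (nat_lit 67108864) .dd))))))) (.br (nat_lit 37) (.br (nat_lit 34)
 (.ch (nat_lit 30) (.ev (nat_lit 3696) (nat_lit 1199038364816890920960) (.ev (nat_lit 3860) (nat_lit 4096) (.ev
 (nat_lit 5536) (nat_lit 67108864) (.ev (nat_lit 5549) (nat_lit 128) .dd))))) (.ch (nat_lit 34) (.ev (nat_lit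
 3696) (nat_lit 1199038364816957771904) (.ev (nat_lit 3709) (nat_lit 262144) .dd)))) (.br (nat_lit 42) (.ch
 (nat_lit 37) (.ev (nat_lit 3696) (nat_lit 18446744099546730624) (.ev (nat_lit 3709) (nat_lit
 1180591620717411303424) .dd))) (.br (nat_lit 46) (.ch (nat_lit 42) (.ev (nat_lit 3696) (nat_lit
 18446744090956529792) (.ev (nat_lit 3732) (nat_lit 1180591620726001238016) (.ev (nat_lit 5552) (nat_lit
 262144) (.ev (nat_lit 5565) (nat_lit 4096) .dd))))) (.ch (nat_lit 46) (.ev (nat_lit 3696) (nat_lit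
 1180591620734591176832) (.ev (nat_lit 5524) (nat_lit 8589934592) (.ev (nat_lit 5700) (nat_lit
 18446744073709551616) (.ev (nat_lit 5808) (nat_lit 67371008) .dd)))))))))))))))))))))))) (.br (nat_lit 47)
 (.br (nat_lit 44) (.br (nat_lit 43) (.ch (nat_lit 42) (.ev (nat_lit 52) (nat_lit 18449352673728659458) (.ev
 (nat_lit 532) (nat_lit 524288) (.ev (nat_lit 1108) (nat_lit 4096) (.nd (nat_lit 3680) (.br (nat_lit 22) (.br
 (nat_lit 6) (.br (nat_lit 3) (.br (nat_lit 1) (.ch (nat_lit 0) (.ev (nat_lit 3696) (nat_lit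
 885741111443676528640) (.ev (nat_lit 3732) (nat_lit 1180591620734591172736) (.ev (nat_lit 4932) (nat_lit 2048)
 (.ev (nat_lit 4941) (nat_lit 32) .dd))))) (.ch (nat_lit 1) (.ev (nat_lit 3696) (nat_lit
 2066332732177730832416) (.ev (nat_lit 3780) (nat_lit 536870912) (.ev (nat_lit 3789) (nat_lit 128) .dd)))))
 (.br (nat_lit 4) (.ch (nat_lit 3) (.ev (nat_lit 3696) (nat_lit 1180888875902183735456) (.ev (nat_lit 3732)
 (nat_lit 262144) (.ev (nat_lit 3956) (nat_lit 590295810358705651712) (.ev (nat_lit 5092) (nat_lit 536870912)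
 (.ev (nat_lit 5172) (nat_lit 140737488355328) (.ev (nat_lit 5524) (nat_lit 2048) (.ev (nat_lit 5533) (nat_lit
 295147905179352825856) .dd)))))))) (.ch (nat_lit 4) (.ev (nat_lit 3696) (nat_lit 590593047951829174432) (.ev
 (nat_lit 3860) (nat_lit 17592186044416) (.ev (nat_lit 5536) (nat_lit 295148045916841181184) (.ev (nat_lit
 5549) (nat_lit 1180591620717411303424) .dd))))))) (.br (nat_lit 17) (.br (nat_lit 13) (.ch (nat_lit 6) (.ev
 (nat_lit 3696) (nat_lit 1476036904226839068832) (.ev (nat_lit 5568) (nat_lit 536870912) (.ev (nat_lit 5700)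
 (nat_lit 2048) (.ev (nat_lit 5728) (nat_lit 17592186044416) (.ev (nat_lit 5808) (nat_lit
 590295810358705717248) .dd)))))) (.ch (nat_lit 13) (.ev (nat_lit 3696) (nat_lit 1771184826998378006688) (.ev
 (nat_lit 3732) (nat_lit 536870912) (.ev (nat_lit 3741) (nat_lit 295147905179352825856) .dd))))) (.br (nat_lit
 18) (.ch (nat_lit 17) (.ev (nat_lit 3696) (nat_lit 1770896455868094875776) (.ev (nat_lit 4420) (nat_lit 32)
 (.ev (nat_lit 5392) (nat_lit 65536) (.ev (nat_lit 5412) (nat_lit 288230376151711744) (.ev (nat_lit 5776)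
 (nat_lit 140737488355328) (.ev (nat_lit 5824) (nat_lit 295147905196532695040) .dd))))))) (.br (nat_lit 19)
 (.ch (nat_lit 18) (.ev (nat_lit 3696) (nat_lit 2066332591423062345888) (.ev (nat_lit 3860) (nat_lit
 17179869184) (.ev (nat_lit 4388) (nat_lit 262144) (.ev (nat_lit 4532) (nat_lit 536870912) (.ev (nat_lit 4541)
 (nat_lit 140737488355328) .dd)))))) (.ch (nat_lit 19) (.ev (nat_lit 3696) (nat_lit 2066044501802115989536)
 (.ev (nat_lit 3732) (nat_lit 128) (.ev (nat_lit 3780) (nat_lit 2048) (.ev (nat_lit 3789) (nat_lit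
 288230376151711744) .dd))))))))) (.br (nat_lit 34) (.br (nat_lit 29) (.br (nat_lit 25) (.ch (nat_lit 22) (.ev
 (nat_lit 3696) (nat_lit 1770896455885274810528) (.ev (nat_lit 3780) (nat_lit 140737488355328) (.ev (nat_lit
 3828) (nat_lit 295147905179352825856) (.ev (nat_lit 3837) (nat_lit 288230376151711744) .dd))))) (.ch (nat_lit
 25) (.ev (nat_lit 3696) (nat_lit 2066323724979012960416) (.ev (nat_lit 3732) (nat_lit 2048) (.ev (nat_lit
 3741) (nat_lit 9007199254740992) .dd))))) (.br (nat_lit 30) (.ch (nat_lit 29) (.ev (nat_lit 3696) (nat_lit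
 288371114177005568) (.ev (nat_lit 3780) (nat_lit 17609365913600) (.ev (nat_lit 4468) (nat_lit
 1180591620717411303424) (.ev (nat_lit 5584) (nat_lit 262144) (.ev (nat_lit 5600) (nat_lit 32) (.ev (nat_lit
 5744) (nat_lit 9007199254741120) (.ev (nat_lit 5824) (nat_lit 885443715538058477568) .dd)))))))) (.ch (nat_lit
 30) (.ev (nat_lit 3696) (nat_lit 885731945931927259264) (.ev (nat_lit 3732) (nat_lit 1180600627916666044416)
 (.ev (nat_lit 3792) (nat_lit 17592186044416) (.ev (nat_lit 5700) (nat_lit 32) (.ev (nat_lit 5709) (nat_lit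
 140737488355328) .dd)))))))) (.br (nat_lit 42) (.br (nat_lit 37) (.ch (nat_lit 34) (.ev (nat_lit 3696)
 (nat_lit 2066332732177730832416) (.ev (nat_lit 3732) (nat_lit 128) (.ev (nat_lit 3741) (nat_lit 536870912)
 .dd)))) (.ch (nat_lit 37) (.ev (nat_lit 3696) (nat_lit 2066044501801579120768) (.ev (nat_lit 5536) (nat_lit
 536870912) (.ev (nat_lit 5568) (nat_lit 288230376151711744) (.ev (nat_lit 5581) (nat_lit 32) .dd)))))) (.br
 (nat_lit 43) (.ch (nat_lit 42) (.ev (nat_lit 3696) (nat_lit 2066323724979012960416) (.ev (nat_lit 3732)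
 (nat_lit 9007199254740992) (.ev (nat_lit 3741) (nat_lit 2048) .dd)))) (.br (nat_lit 46) (.ch (nat_lit 43) (.ev
 (nat_lit 3696) (nat_lit 885740970723368044704) (.ev (nat_lit 5808) (nat_lit 1180591761454899658752) .dd)))
 (.ch (nat_lit 46) (.ev (nat_lit 3696) (nat_lit 2066035353865372893344) (.ev (nat_lit 3828) (nat_lit
 288230376151711744) (.ev (nat_lit 3904) (nat_lit 9007199254740992) (.ev (nat_lit 5728) (nat_lit
 140737488357376) .dd))))))))))))))) (.ch (nat_lit 43) (.ev (nat_lit 52) (nat_lit 299494331638417408) (.ev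
 (nat_lit 180) (nat_lit 281474976710656) (.ev (nat_lit 276) (nat_lit 18446744073709551616) (.ev (nat_lit 500)
 (nat_lit 128) (.ev (nat_lit 916) (nat_lit 295147905179352825856) (.ev (nat_lit 1012) (nat_lit 17592186044416)
 (.ev (nat_lit 1780) (nat_lit 17179869184) (.ev (nat_lit 2164) (nat_lit 536870912) (.ev (nat_lit 3604) (nat_lit
 70368744181760) (.nd (nat_lit 3680) (.br (nat_lit 17) (.br (nat_lit 6) (.br (nat_lit 3) (.br (nat_lit 2) (.ch
 (nat_lit 0) (.ev (nat_lit 3696) (nat_lit 1770887571813672419328) (.ev (nat_lit 3732) (nat_lit 32) (.ev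
 (nat_lit 3741) (nat_lit 2) .dd)))) (.ch (nat_lit 2) (.ev (nat_lit 3696) (nat_lit 1770887571813672419330) (.ev
 (nat_lit 3709) (nat_lit 32) .dd)))) (.br (nat_lit 4) (.ch (nat_lit 3) (.ev (nat_lit 3696) (nat_lit
 1180591761454966767648) (.ev (nat_lit 3828) (nat_lit 590295810358705651712) (.ev (nat_lit 3837) (nat_lit 2)
 .dd)))) (.ch (nat_lit 4) (.ev (nat_lit 3696) (nat_lit 1770887431076184064002) (.ev (nat_lit 3732) (nat_lit 32)
 (.ev (nat_lit 3741) (nat_lit 140737488355328) .dd)))))) (.br (nat_lit 13) (.br (nat_lit 12) (.ch (nat_lit 6)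
 (.ev (nat_lit 3696) (nat_lit 1770887571813605310498) (.ev (nat_lit 3709) (nat_lit 67108864) .dd))) (.ch
 (nat_lit 12) (.ev (nat_lit 3696) (nat_lit 590295810358772760610) (.ev (nat_lit 5840) (nat_lit
 1180591761454899658752) .dd)))) (.br (nat_lit 14) (.ch (nat_lit 13) (.ev (nat_lit 3696) (nat_lit
 1770887571813672419362) .dd)) (.br (nat_lit 15) (.ch (nat_lit 14) (.ev (nat_lit 3696) (nat_lit
 590295951096261115904) (.ev (nat_lit 3780) (nat_lit 2) (.ev (nat_lit 3808) (nat_lit 1180591620717411303424)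
 (.ev (nat_lit 3821) (nat_lit 32) .dd))))) (.ch (nat_lit 15) (.ev (nat_lit 3696) (nat_lit
 1770887571813672419362) .dd)))))) (.br (nat_lit 30) (.br (nat_lit 25) (.br (nat_lit 19) (.ch (nat_lit 17) (.ev
 (nat_lit 3696) (nat_lit 1770887431076184064034) (.ev (nat_lit 3709) (nat_lit 140737488355328) .dd))) (.ch
 (nat_lit 19) (.ev (nat_lit 3696) (nat_lit 590295951096261115938) (.ev (nat_lit 3709) (nat_lit
 1180591620717411303424) .dd)))) (.br (nat_lit 26) (.ch (nat_lit 25) (.ev (nat_lit 3696) (nat_lit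
 1180591761454966767650) (.ev (nat_lit 3709) (nat_lit 590295810358705651712) .dd))) (.ch (nat_lit 26) (.ev
 (nat_lit 3696) (nat_lit 140737488355330) (.ev (nat_lit 3732) (nat_lit 590295810358772760576) (.ev (nat_lit
 3892) (nat_lit 32) (.ev (nat_lit 3901) (nat_lit 1180591620717411303424) .dd))))))) (.br (nat_lit 37) (.br
 (nat_lit 35) (.ch (nat_lit 30) (.ev (nat_lit 3696) (nat_lit 1770887571813605310466) (.ev (nat_lit 3780)
 (nat_lit 67108864) (.ev (nat_lit 3789) (nat_lit 32) .dd)))) (.ch (nat_lit 35) (.ev (nat_lit 3696) (nat_lit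
 1770887431076184064002) (.ev (nat_lit 3732) (nat_lit 140737488355328) (.ev (nat_lit 3741) (nat_lit 32)
 .dd))))) (.br (nat_lit 42) (.ch (nat_lit 37) (.ev (nat_lit 3696) (nat_lit 590295951096261115938) (.ev (nat_lit
 3709) (nat_lit 1180591620717411303424) .dd))) (.br (nat_lit 46) (.ch (nat_lit 42) (.ev (nat_lit 3696) (nat_lit
 590295951096194007074) (.ev (nat_lit 5728) (nat_lit 1180591620717411303424) (.ev (nat_lit 5741) (nat_lit
 67108864) .dd)))) (.ch (nat_lit 46) (.ev (nat_lit 3696) (nat_lit 1770887431076116955170) (.ev (nat_lit 6038)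
 (nat_lit 140737555464192) .dd)))))))))))))))))))) (.br (nat_lit 46) (.ch (nat_lit 44) (.ev (nat_lit 52)
 (nat_lit 1180591995110264934432) (.ev (nat_lit 116) (nat_lit 2048) (.ev (nat_lit 628) (nat_lit 2) (.ev
 (nat_lit 756) (nat_lit 8388608) (.ev (nat_lit 1140) (nat_lit 9007199254740992) (.ev (nat_lit 2452) (nat_lit
 17179869184) (.ev (nat_lit 2484) (nat_lit 18446744073709551616) (.ev (nat_lit 2516) (nat_lit
 590295810358705651712) (.ev (nat_lit 3348) (nat_lit 2251799813685248) (.nd (nat_lit 3680) (.br (nat_lit 25)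
 (.br (nat_lit 4) (.br (nat_lit 2) (.br (nat_lit 1) (.ch (nat_lit 0) (.ev (nat_lit 3696) (nat_lit
 288371113707241600) (.ev (nat_lit 3709) (nat_lit 295147905179352825856) .dd))) (.ch (nat_lit 1) (.ev (nat_lit
 3696) (nat_lit 295436135555571712128) (.ev (nat_lit 3709) (nat_lit 140737488355328) .dd)))) (.br (nat_lit 3)
 (.ch (nat_lit 2) (.ev (nat_lit 3696) (nat_lit 295436276292992958592) (.ev (nat_lit 3709) (nat_lit 67108864)
 .dd))) (.ch (nat_lit 3) (.ev (nat_lit 3696) (nat_lit 295436135555571646592) (.ev (nat_lit 3732) (nat_lit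
 65536) (.ev (nat_lit 3741) (nat_lit 140737488355328) .dd)))))) (.br (nat_lit 13) (.br (nat_lit 5) (.ch
 (nat_lit 4) (.ev (nat_lit 3696) (nat_lit 288230376218886272) (.ev (nat_lit 3860) (nat_lit 140737488355328)
 (.ev (nat_lit 3869) (nat_lit 295147905179352825856) .dd)))) (.ch (nat_lit 5) (.ev (nat_lit 3696) (nat_lit
 288371113640132736) (.ev (nat_lit 3780) (nat_lit 67108864) (.ev (nat_lit 3789) (nat_lit 295147905179352825856)
 .dd))))) (.br (nat_lit 14) (.ch (nat_lit 13) (.ev (nat_lit 3696) (nat_lit 295436276293060067328) (.ev (nat_lit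
 3709) (nat_lit 128) .dd))) (.br (nat_lit 19) (.ch (nat_lit 14) (.ev (nat_lit 3696) (nat_lit
 295436276293060001792) (.ev (nat_lit 3780) (nat_lit 128) (.ev (nat_lit 3789) (nat_lit 65536) .dd)))) (.ch
 (nat_lit 19) (.ev (nat_lit 3696) (nat_lit 295436135555571712000) (.ev (nat_lit 3732) (nat_lit 128) (.ev
 (nat_lit 3741) (nat_lit 140737488355328) .dd)))))))) (.br (nat_lit 34) (.br (nat_lit 29) (.br (nat_lit 26)
 (.ch (nat_lit 25) (.ev (nat_lit 3696) (nat_lit 295436276293060067328) (.ev (nat_lit 3709) (nat_lit 128) .dd)))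
 (.ch (nat_lit 26) (.ev (nat_lit 3696) (nat_lit 295436276293060001920) (.ev (nat_lit 3709) (nat_lit 65536)
 .dd)))) (.br (nat_lit 30) (.ch (nat_lit 29) (.ev (nat_lit 3696) (nat_lit 295436276292992958464) (.ev (nat_lit
 3780) (nat_lit 67108864) (.ev (nat_lit 3789) (nat_lit 128) .dd)))) (.ch (nat_lit 30) (.ev (nat_lit 3696)
 (nat_lit 295436276292992958464) (.ev (nat_lit 3828) (nat_lit 128) (.ev (nat_lit 3837) (nat_lit 67108864)
 .dd)))))) (.br (nat_lit 41) (.br (nat_lit 35) (.ch (nat_lit 34) (.ev (nat_lit 3696) (nat_lit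
 295436276293060067456) .dd)) (.ch (nat_lit 35) (.ev (nat_lit 3696) (nat_lit 140737555529856) (.ev (nat_lit
 4132) (nat_lit 295147905179352825856) (.ev (nat_lit 4141) (nat_lit 288230376151711744) .dd))))) (.br (nat_lit
 42) (.ch (nat_lit 41) (.ev (nat_lit 3696) (nat_lit 295148045916908355584) (.ev (nat_lit 3860) (nat_lit
 288230376151711744) (.ev (nat_lit 3869) (nat_lit 128) .dd)))) (.br (nat_lit 46) (.ch (nat_lit 42) (.ev
 (nat_lit 3696) (nat_lit 288371113707241600) (.ev (nat_lit 3709) (nat_lit 295147905179352825856) .dd))) (.ch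
 (nat_lit 46) (.ev (nat_lit 3696) (nat_lit 295436135555504603264) (.ev (nat_lit 6054) (nat_lit 140737555464192)
 .dd))))))))))))))))))) (.ch (nat_lit 46) (.ev (nat_lit 52) (nat_lit 2084779533409418739840) (.ev (nat_lit
 1460) (nat_lit 281474976710656) (.ev (nat_lit 1716) (nat_lit 8388608) (.ev (nat_lit 2004) (nat_lit 2048) (.ev
 (nat_lit 2932) (nat_lit 65536) (.ev (nat_lit 3188) (nat_lit 32) (.nd (nat_lit 3680) (.br (nat_lit 22) (.br
 (nat_lit 13) (.br (nat_lit 3) (.br (nat_lit 1) (.ch (nat_lit 0) (.ev (nat_lit 3696) (nat_lit 2269950346006530)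
 (.ev (nat_lit 5268) (nat_lit 17179869184) (.ev (nat_lit 5277) (nat_lit 67108864) .dd)))) (.ch (nat_lit 1) (.ev
 (nat_lit 3696) (nat_lit 18167779299328) (.ev (nat_lit 3828) (nat_lit 2) (.ev (nat_lit 3837) (nat_lit
 2251799813685248) .dd))))) (.br (nat_lit 12) (.ch (nat_lit 3) (.ev (nat_lit 3696) (nat_lit 17618023485440)
 (.ev (nat_lit 3732) (nat_lit 2251799813685248) (.ev (nat_lit 3860) (nat_lit 2) (.ev (nat_lit 3869) (nat_lit
 549755813888) .dd))))) (.ch (nat_lit 12) (.ev (nat_lit 3696) (nat_lit 2252375406415874) (.ev (nat_lit 4132)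
 (nat_lit 524288) (.ev (nat_lit 4141) (nat_lit 17592186044416) .dd)))))) (.br (nat_lit 18) (.br (nat_lit 14)
 (.ch (nat_lit 13) (.ev (nat_lit 3696) (nat_lit 2269967592456192) (.ev (nat_lit 5700) (nat_lit 2) (.ev (nat_lit
 5840) (nat_lit 524288) (.ev (nat_lit 5853) (nat_lit 4096) .dd))))) (.ch (nat_lit 14) (.ev (nat_lit 3696)
 (nat_lit 2269392066842626) (.ev (nat_lit 3732) (nat_lit 549755813888) (.ev (nat_lit 4516) (nat_lit 524288)
 (.ev (nat_lit 5728) (nat_lit 8589934592) (.ev (nat_lit 5741) (nat_lit 17179869184) .dd))))))) (.br (nat_lit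
 19) (.ch (nat_lit 18) (.ev (nat_lit 3696) (nat_lit 2269967525875714) (.ev (nat_lit 3709) (nat_lit 67108864)
 .dd))) (.br (nat_lit 20) (.ch (nat_lit 19) (.ev (nat_lit 3696) (nat_lit 18167778775040) (.ev (nat_lit 3780)
 (nat_lit 2251799813685248) (.ev (nat_lit 3808) (nat_lit 524288) (.ev (nat_lit 3821) (nat_lit 2) .dd))))) (.ch
 (nat_lit 20) (.ev (nat_lit 3696) (nat_lit 2269950346002434) (.ev (nat_lit 3780) (nat_lit 17179869184) (.ev
 (nat_lit 3860) (nat_lit 4096) (.ev (nat_lit 3869) (nat_lit 67108864) .dd))))))))) (.br (nat_lit 31) (.br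
 (nat_lit 26) (.br (nat_lit 25) (.ch (nat_lit 22) (.ev (nat_lit 3696) (nat_lit 558413385730) (.ev (nat_lit
 4852) (nat_lit 2251799813685248) (.ev (nat_lit 5268) (nat_lit 17592186044416) (.ev (nat_lit 5277) (nat_lit
 17179869184) .dd))))) (.ch (nat_lit 25) (.ev (nat_lit 3696) (nat_lit 17618022961154) (.ev (nat_lit 3828)
 (nat_lit 549755813888) (.ev (nat_lit 4772) (nat_lit 2251799813685248) (.ev (nat_lit 4781) (nat_lit 524288)
 .dd)))))) (.br (nat_lit 29) (.ch (nat_lit 26) (.ev (nat_lit 3696) (nat_lit 2269941823180802) (.ev (nat_lit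
 5700) (nat_lit 17179869184) (.ev (nat_lit 5709) (nat_lit 8589934592) .dd)))) (.ch (nat_lit 29) (.ev (nat_lit
 3696) (nat_lit 575593254914) (.ev (nat_lit 3780) (nat_lit 17592186044416) (.ev (nat_lit 3789) (nat_lit
 2251799813685248) .dd)))))) (.br (nat_lit 41) (.br (nat_lit 37) (.ch (nat_lit 31) (.ev (nat_lit 3696) (nat_lit
 2252375406940160) (.ev (nat_lit 5312) (nat_lit 17592186044418) .dd))) (.ch (nat_lit 37) (.ev (nat_lit 3696)
 (nat_lit 2269967592460290) (.ev (nat_lit 3709) (nat_lit 524288) .dd)))) (.br (nat_lit 42) (.ch (nat_lit 41)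
 (.ev (nat_lit 3696) (nat_lit 2269417837166594) (.ev (nat_lit 3828) (nat_lit 549755813888) (.ev (nat_lit 3837)
 (nat_lit 4096) .dd)))) (.br (nat_lit 43) (.ch (nat_lit 42) (.ev (nat_lit 3696) (nat_lit 17600843616258) (.ev
 (nat_lit 5524) (nat_lit 549755813888) (.ev (nat_lit 5536) (nat_lit 2251799813685248) (.ev (nat_lit 5549)
 (nat_lit 17179869184) .dd))))) (.ch (nat_lit 43) (.ev (nat_lit 3696) (nat_lit 2252375406936066) (.ev (nat_lit
 3760) (nat_lit 4096) (.ev (nat_lit 3773) (nat_lit 17592186044416) .dd))))))))))))))))))) (.br (nat_lit 49)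
 (.br (nat_lit 48) (.ch (nat_lit 47) (.ev (nat_lit 52) (nat_lit 1789336444559098380448) (.ev (nat_lit 84)
 (nat_lit 2) (.ev (nat_lit 1812) (nat_lit 524288) (.ev (nat_lit 2388) (nat_lit 4398046511104) (.ev (nat_lit
 2580) (nat_lit 65536) (.ev (nat_lit 2740) (nat_lit 536870912) (.ev (nat_lit 2868) (nat_lit 8589934592) (.ev
 (nat_lit 3412) (nat_lit 295147905179352825856) (.nd (nat_lit 3680) (.br (nat_lit 29) (.br (nat_lit 6) (.br
 (nat_lit 4) (.br (nat_lit 3) (.ch (nat_lit 0) (.ev (nat_lit 3696) (nat_lit 9499780464250880) (.ev (nat_lit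
 3828) (nat_lit 549755813888) (.ev (nat_lit 5412) (nat_lit 2048) (.ev (nat_lit 5421) (nat_lit
 288230376151711744) .dd))))) (.ch (nat_lit 3) (.ev (nat_lit 3696) (nat_lit 297589419127609344) (.ev (nat_lit
 3760) (nat_lit 549755813888) (.ev (nat_lit 3773) (nat_lit 140737488355328) .dd))))) (.br (nat_lit 5) (.ch
 (nat_lit 4) (.ev (nat_lit 3696) (nat_lit 288442032140326912) (.ev (nat_lit 3760) (nat_lit 9007199254740992)
 (.ev (nat_lit 3773) (nat_lit 281474976710656) .dd)))) (.ch (nat_lit 5) (.ev (nat_lit 3696) (nat_lit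
 288442032140064768) (.ev (nat_lit 3956) (nat_lit 262144) (.ev (nat_lit 5712) (nat_lit 9007199254740992) (.ev
 (nat_lit 5725) (nat_lit 281474976710656) .dd))))))) (.br (nat_lit 14) (.br (nat_lit 10) (.ch (nat_lit 6) (.ev
 (nat_lit 3696) (nat_lit 288722957361223680) (.ev (nat_lit 5824) (nat_lit 9007749010554880) .dd))) (.ch
 (nat_lit 10) (.ev (nat_lit 3696) (nat_lit 297730706371774464) (.ev (nat_lit 3709) (nat_lit 4096) .dd)))) (.br
 (nat_lit 18) (.ch (nat_lit 14) (.ev (nat_lit 3696) (nat_lit 9499780463990784) (.ev (nat_lit 5700) (nat_lit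
 262144) (.ev (nat_lit 5728) (nat_lit 549755813888) (.ev (nat_lit 5741) (nat_lit 288230376151711744) .dd)))))
 (.ch (nat_lit 18) (.ev (nat_lit 3696) (nat_lit 297308493906450432) (.ev (nat_lit 5524) (nat_lit
 281474976972800) (.ev (nat_lit 5533) (nat_lit 140737488355328) .dd))))))) (.br (nat_lit 37) (.br (nat_lit 31)
 (.br (nat_lit 30) (.ch (nat_lit 29) (.ev (nat_lit 3696) (nat_lit 288441482384250880) (.ev (nat_lit 3780)
 (nat_lit 9007199254740992) (.ev (nat_lit 4772) (nat_lit 262144) (.ev (nat_lit 5280) (nat_lit 281474976710656)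
 (.ev (nat_lit 5293) (nat_lit 549755813888) .dd)))))) (.ch (nat_lit 30) (.ev (nat_lit 3696) (nat_lit
 297589968883419136) (.ev (nat_lit 3780) (nat_lit 140737488355328) (.ev (nat_lit 3789) (nat_lit 4096) .dd)))))
 (.br (nat_lit 35) (.ch (nat_lit 31) (.ev (nat_lit 3696) (nat_lit 297730706371772416) (.ev (nat_lit 5136)
 (nat_lit 2048) (.ev (nat_lit 5149) (nat_lit 4096) .dd)))) (.ch (nat_lit 35) (.ev (nat_lit 3696) (nat_lit
 297378312895076352) (.ev (nat_lit 5712) (nat_lit 549755813888) (.ev (nat_lit 5824) (nat_lit 281474976710656)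
 (.ev (nat_lit 5837) (nat_lit 70368744177664) .dd))))))) (.br (nat_lit 42) (.br (nat_lit 41) (.ch (nat_lit 37)
 (.ev (nat_lit 3696) (nat_lit 493130965321728) (.ev (nat_lit 3732) (nat_lit 9007199254740992) (.ev (nat_lit
 3892) (nat_lit 4096) (.ev (nat_lit 3901) (nat_lit 288230376151711744) .dd))))) (.ch (nat_lit 41) (.ev (nat_lit
 3696) (nat_lit 288582219872606208) (.ev (nat_lit 4292) (nat_lit 549755813888) (.ev (nat_lit 5412) (nat_lit
 9007199254740992) (.ev (nat_lit 5424) (nat_lit 140737488355328) (.ev (nat_lit 5437) (nat_lit 262144)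
 .dd))))))) (.br (nat_lit 43) (.ch (nat_lit 42) (.ev (nat_lit 3696) (nat_lit 288723507117033472) (.ev (nat_lit
 3780) (nat_lit 9007199254740992) (.ev (nat_lit 3789) (nat_lit 4096) .dd)))) (.ch (nat_lit 43) (.ev (nat_lit
 3696) (nat_lit 297519600139245568) (.ev (nat_lit 5776) (nat_lit 211106232532992) .dd))))))))))))))))) (.ch
 (nat_lit 48) (.ev (nat_lit 52) (nat_lit 2696020253216802) (.ev (nat_lit 596) (nat_lit 70368744243200) (.ev
 (nat_lit 692) (nat_lit 9007199254740992) (.ev (nat_lit 724) (nat_lit 295147905179352825856) (.ev (nat_lit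
 1876) (nat_lit 128) (.ev (nat_lit 1908) (nat_lit 262144) (.ev (nat_lit 2068) (nat_lit 549755813888) (.ev
 (nat_lit 2420) (nat_lit 524288) (.nd (nat_lit 3680) (.br (nat_lit 14) (.br (nat_lit 5) (.br (nat_lit 3) (.ch
 (nat_lit 2) (.ev (nat_lit 3696) (nat_lit 1199326595175862501376) (.ev (nat_lit 3780) (nat_lit 2048) (.ev
 (nat_lit 4852) (nat_lit 67108864) (.ev (nat_lit 4861) (nat_lit 590295810358705651712) .dd))))) (.br (nat_lit
 4) (.ch (nat_lit 3) (.ev (nat_lit 3696) (nat_lit 1789622405534635261952) (.ev (nat_lit 3709) (nat_lit 2048)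
 .dd))) (.ch (nat_lit 4) (.ev (nat_lit 3696) (nat_lit 590584040743514408960) (.ev (nat_lit 5584) (nat_lit
 18446744073709551616) (.ev (nat_lit 5597) (nat_lit 1180591620717411303424) .dd)))))) (.br (nat_lit 10) (.br
 (nat_lit 6) (.ch (nat_lit 5) (.ev (nat_lit 3696) (nat_lit 1199326595175862501376) (.ev (nat_lit 5456) (nat_lit
 2048) (.ev (nat_lit 5712) (nat_lit 67108864) (.ev (nat_lit 5725) (nat_lit 590295810358705651712) .dd))))) (.ch
 (nat_lit 6) (.ev (nat_lit 3696) (nat_lit 609030784817223958528) (.ev (nat_lit 3968) (nat_lit 2048) (.ev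
 (nat_lit 3981) (nat_lit 1180591620717411303424) .dd))))) (.br (nat_lit 12) (.ch (nat_lit 10) (.ev (nat_lit
 3696) (nat_lit 1770887431076116957184) (.ev (nat_lit 3956) (nat_lit 288230376151711744) (.ev (nat_lit 3984)
 (nat_lit 67108864) (.ev (nat_lit 5664) (nat_lit 18446744073709551616) (.ev (nat_lit 5677) (nat_lit 8589934592)
 .dd)))))) (.ch (nat_lit 12) (.ev (nat_lit 3696) (nat_lit 609030784817223960576) (.ev (nat_lit 3709) (nat_lit
 1180591620717411303424) .dd)))))) (.br (nat_lit 22) (.br (nat_lit 17) (.br (nat_lit 15) (.ch (nat_lit 14) (.ev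
 (nat_lit 3696) (nat_lit 18446744082366597120) (.ev (nat_lit 4832) (nat_lit 590295810358705651712) (.ev
 (nat_lit 5744) (nat_lit 1180591620717411303424) (.ev (nat_lit 5757) (nat_lit 288230376151711744) .dd))))) (.ch
 (nat_lit 15) (.ev (nat_lit 3696) (nat_lit 1180879851102152951808) (.ev (nat_lit 3732) (nat_lit 67108864) (.ev
 (nat_lit 5424) (nat_lit 590295810358705651712) (.ev (nat_lit 5437) (nat_lit 18446744073709551616) .dd))))))
 (.br (nat_lit 19) (.ch (nat_lit 17) (.ev (nat_lit 3696) (nat_lit 1789622405534635264000) .dd)) (.ch (nat_lit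
 19) (.ev (nat_lit 3696) (nat_lit 1789334175158483552256) (.ev (nat_lit 3709) (nat_lit 288230376151711744)
 .dd))))) (.br (nat_lit 41) (.br (nat_lit 34) (.ch (nat_lit 22) (.ev (nat_lit 3696) (nat_lit
 1771175661460925712384) (.ev (nat_lit 3709) (nat_lit 18446744073709551616) .dd))) (.ch (nat_lit 34) (.ev
 (nat_lit 3696) (nat_lit 1789622405526045329408) (.ev (nat_lit 3709) (nat_lit 8589934592) .dd)))) (.br (nat_lit
 46) (.ch (nat_lit 41) (.ev (nat_lit 3696) (nat_lit 1789622405534635261952) (.ev (nat_lit 3709) (nat_lit 2048)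
 .dd))) (.ch (nat_lit 46) (.ev (nat_lit 3696) (nat_lit 1771175661460858603520) (.ev (nat_lit 3780) (nat_lit
 67108864) (.ev (nat_lit 3789) (nat_lit 18446744073709551616) .dd))))))))))))))))))) (.br (nat_lit 50) (.ch
 (nat_lit 49) (.ev (nat_lit 52) (nat_lit 590296109434526042240) (.ev (nat_lit 96) (nat_lit
 1494485975417470849058) .dd))) (.br (nat_lit 52) (.ch (nat_lit 50) (.ev (nat_lit 52) (nat_lit
 590584181472371212448) (.ev (nat_lit 84) (nat_lit 2048) (.ev (nat_lit 128) (nat_lit 1494197903379625676802)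
 .dd)))) (.ch (nat_lit 52) (.ev (nat_lit 52) (nat_lit 313606190303245832322) (.ev (nat_lit 2132) (nat_lit
 1180591620717411303424) (.ev (nat_lit 2260) (nat_lit 4398046511104) (.ev (nat_lit 3092) (nat_lit 32) (.nd
 (nat_lit 3680) (.br (nat_lit 20) (.br (nat_lit 5) (.br (nat_lit 3) (.br (nat_lit 1) (.ch (nat_lit 0) (.ev
 (nat_lit 3696) (nat_lit 590584251841107200000) (.ev (nat_lit 3709) (nat_lit 17592186044416) .dd))) (.ch
 (nat_lit 1) (.ev (nat_lit 3696) (nat_lit 590584269433293244416) .dd))) (.br (nat_lit 4) (.ch (nat_lit 3) (.ev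
 (nat_lit 3696) (nat_lit 158329674401792) (.ev (nat_lit 3732) (nat_lit 590295810358705651712) (.ev (nat_lit
 4772) (nat_lit 288230376151711744) (.ev (nat_lit 5172) (nat_lit 524288) (.ev (nat_lit 5700) (nat_lit 16777216)
 (.ev (nat_lit 5709) (nat_lit 70368744177664) .dd))))))) (.ch (nat_lit 4) (.ev (nat_lit 3696) (nat_lit
 590584269433275942912) (.ev (nat_lit 5268) (nat_lit 16777216) (.ev (nat_lit 5277) (nat_lit 524288) .dd))))))
 (.br (nat_lit 13) (.br (nat_lit 6) (.ch (nat_lit 5) (.ev (nat_lit 3696) (nat_lit 590584269433293242368) (.ev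
 (nat_lit 3709) (nat_lit 2048) .dd))) (.ch (nat_lit 6) (.ev (nat_lit 3696) (nat_lit 288441482401546240) (.ev
 (nat_lit 3828) (nat_lit 590295810358705651712) (.ev (nat_lit 5792) (nat_lit 17592186044416) (.ev (nat_lit
 5805) (nat_lit 2048) .dd)))))) (.br (nat_lit 14) (.ch (nat_lit 13) (.ev (nat_lit 3696) (nat_lit
 288247968355059712) (.ev (nat_lit 3892) (nat_lit 140737488355328) (.ev (nat_lit 5536) (nat_lit 70368744177664)
 (.ev (nat_lit 5549) (nat_lit 590295810358705651712) .dd))))) (.br (nat_lit 18) (.ch (nat_lit 14) (.ev (nat_lit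
 3696) (nat_lit 590584251841106675712) (.ev (nat_lit 3744) (nat_lit 524288) (.ev (nat_lit 3757) (nat_lit
 17592186044416) .dd)))) (.ch (nat_lit 18) (.ev (nat_lit 3696) (nat_lit 590584269433276467200) (.ev (nat_lit
 3709) (nat_lit 16777216) .dd))))))) (.br (nat_lit 35) (.br (nat_lit 31) (.br (nat_lit 22) (.ch (nat_lit 20)
 (.ev (nat_lit 3696) (nat_lit 288459074587592704) (.ev (nat_lit 3709) (nat_lit 590295810358705651712) .dd)))
 (.ch (nat_lit 22) (.ev (nat_lit 3696) (nat_lit 590584181472363022336) (.ev (nat_lit 5412) (nat_lit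
 17592186044416) (.ev (nat_lit 5421) (nat_lit 70368744177664) .dd))))) (.br (nat_lit 34) (.ch (nat_lit 31) (.ev
 (nat_lit 3696) (nat_lit 288318337099235328) (.ev (nat_lit 5412) (nat_lit 140737488355328) (.ev (nat_lit 5760)
 (nat_lit 590295810358705651712) (.ev (nat_lit 5773) (nat_lit 2048) .dd))))) (.ch (nat_lit 34) (.ev (nat_lit
 3696) (nat_lit 590584269433293244416) .dd)))) (.br (nat_lit 42) (.br (nat_lit 37) (.ch (nat_lit 35) (.ev
 (nat_lit 3696) (nat_lit 590584269433293244416) .dd)) (.ch (nat_lit 37) (.ev (nat_lit 3696) (nat_lit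
 590295968688397352960) (.ev (nat_lit 3732) (nat_lit 288230376151711744) (.ev (nat_lit 5472) (nat_lit
 70368744177664) (.ev (nat_lit 5485) (nat_lit 2048) .dd)))))) (.br (nat_lit 43) (.ch (nat_lit 42) (.ev (nat_lit
 3696) (nat_lit 590584269433293242368) (.ev (nat_lit 3709) (nat_lit 2048) .dd))) (.br (nat_lit 46) (.ch
 (nat_lit 43) (.ev (nat_lit 3696) (nat_lit 17303552) (.ev (nat_lit 3732) (nat_lit 288388705826111488) (.ev
 (nat_lit 3828) (nat_lit 590295810358705651712) (.ev (nat_lit 3837) (nat_lit 70368744177664) .dd))))) (.ch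
 (nat_lit 46) (.ev (nat_lit 3696) (nat_lit 590584199064531763200) (.ev (nat_lit 3732) (nat_lit 524288) (.ev
 (nat_lit 4516) (nat_lit 2048) (.ev (nat_lit 5728) (nat_lit 16777216) (.ev (nat_lit 5741) (nat_lit
 70368744177664) .dd)))))))))))))))))))))))))

/-- Subtrie. -/
noncomputable def T9 : Tr := (.ev (nat_lit 20) (nat_lit 350966943937267765554) (.nd (nat_lit 33) (.br (nat_lit
 31) (.br (nat_lit 16) (.br (nat_lit 10) (.br (nat_lit 6) (.br (nat_lit 5) (.ch (nat_lit 4) (.ev (nat_lit 52)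
 (nat_lit 590298137769271361664) (.ev (nat_lit 308) (nat_lit 140737488355328) (.ev (nat_lit 724) (nat_lit 2048)
 (.ev (nat_lit 1716) (nat_lit 8796093022208) (.ev (nat_lit 1748) (nat_lit 8388608) (.ev (nat_lit 2164) (nat_lit
 562949953421312) (.ev (nat_lit 2484) (nat_lit 65536) (.ev (nat_lit 2772) (nat_lit 68719476736) (.nd (nat_lit
 3680) (.br (nat_lit 21) (.br (nat_lit 10) (.br (nat_lit 4) (.br (nat_lit 3) (.ch (nat_lit 1) (.ev (nat_lit
 3696) (nat_lit 152185638608103833600) (.ev (nat_lit 3732) (nat_lit 18014398509481984) (.ev (nat_lit 5728)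
 (nat_lit 1180591620717411303424) (.ev (nat_lit 5741) (nat_lit 8) .dd))))) (.ch (nat_lit 3) (.ev (nat_lit 3696)
 (nat_lit 18014398509514760) (.ev (nat_lit 5328) (nat_lit 4611686018427387904) (.ev (nat_lit 5744) (nat_lit
 147573952589676412928) (.ev (nat_lit 5757) (nat_lit 1180591620717411303424) .dd)))))) (.br (nat_lit 9) (.ch
 (nat_lit 4) (.ev (nat_lit 3696) (nat_lit 1332777259325515137032) (.ev (nat_lit 3709) (nat_lit
 18014398509481984) .dd))) (.ch (nat_lit 9) (.ev (nat_lit 3696) (nat_lit 1332795273724024586248) (.ev (nat_lit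
 3709) (nat_lit 32768) .dd))))) (.br (nat_lit 16) (.br (nat_lit 11) (.ch (nat_lit 10) (.ev (nat_lit 3696)
 (nat_lit 152203653006613315592) (.ev (nat_lit 3709) (nat_lit 1180591620717411303424) .dd))) (.ch (nat_lit 11)
 (.ev (nat_lit 3696) (nat_lit 1328165573307087716360) (.ev (nat_lit 5728) (nat_lit 4611686018427387904) (.ev
 (nat_lit 5824) (nat_lit 18014398509514752) .dd))))) (.br (nat_lit 20) (.ch (nat_lit 16) (.ev (nat_lit 3696)
 (nat_lit 1332795273724024619008) (.ev (nat_lit 3709) (nat_lit 8) .dd))) (.ch (nat_lit 20) (.ev (nat_lit 3696)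
 (nat_lit 1185203306735838724104) (.ev (nat_lit 3732) (nat_lit 18014398509481984) (.ev (nat_lit 3741) (nat_lit
 147573952589676412928) .dd))))))) (.br (nat_lit 34) (.br (nat_lit 24) (.br (nat_lit 22) (.ch (nat_lit 21) (.ev
 (nat_lit 3696) (nat_lit 152203653006613282816) (.ev (nat_lit 3732) (nat_lit 1180591620717411303424) (.ev
 (nat_lit 3892) (nat_lit 8) (.ev (nat_lit 3901) (nat_lit 32768) .dd))))) (.ch (nat_lit 22) (.ev (nat_lit 3696)
 (nat_lit 1332777259325515137024) (.ev (nat_lit 5472) (nat_lit 8) (.ev (nat_lit 5485) (nat_lit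
 18014398509481984) .dd))))) (.br (nat_lit 30) (.ch (nat_lit 24) (.ev (nat_lit 3696) (nat_lit
 1332795273724024619016) .dd)) (.ch (nat_lit 30) (.ev (nat_lit 3696) (nat_lit 152203653006613315592) (.ev
 (nat_lit 3709) (nat_lit 1180591620717411303424) .dd))))) (.br (nat_lit 42) (.br (nat_lit 35) (.ch (nat_lit 34)
 (.ev (nat_lit 3696) (nat_lit 152203653006613315592) (.ev (nat_lit 3709) (nat_lit 1180591620717411303424)
 .dd))) (.ch (nat_lit 35) (.ev (nat_lit 3696) (nat_lit 1328183587705597231112) (.ev (nat_lit 3709) (nat_lit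
 4611686018427387904) .dd)))) (.br (nat_lit 43) (.ch (nat_lit 42) (.ev (nat_lit 3696) (nat_lit
 1328183587705597231104) (.ev (nat_lit 5744) (nat_lit 4611686018427387912) .dd))) (.ch (nat_lit 43) (.ev
 (nat_lit 3696) (nat_lit 147591966988185927688) (.ev (nat_lit 3732) (nat_lit 1180591620717411303424) (.ev
 (nat_lit 3741) (nat_lit 4611686018427387904) .dd)))))))))))))))))) (.ch (nat_lit 5) (.ev (nat_lit 52) (nat_lit
 590296378258608980096) (.ev (nat_lit 84) (nat_lit 8796093022208) (.ev (nat_lit 468) (nat_lit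
 4611686018427387904) (.ev (nat_lit 532) (nat_lit 70368744177664) (.ev (nat_lit 596) (nat_lit 140737488355328)
 (.ev (nat_lit 1012) (nat_lit 1180591620717411303424) (.ev (nat_lit 1620) (nat_lit 147573952589676412936) (.ev
 (nat_lit 1908) (nat_lit 18014398509481984) (.ev (nat_lit 1972) (nat_lit 262144) (.ev (nat_lit 2868) (nat_lit
 17179869184) (.nd (nat_lit 3680) (.br (nat_lit 24) (.br (nat_lit 9) (.br (nat_lit 4) (.br (nat_lit 3) (.ch
 (nat_lit 1) (.ev (nat_lit 3696) (nat_lit 274886297600) (.ev (nat_lit 4448) (nat_lit 68719476736) (.ev (nat_lit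
 4461) (nat_lit 2251799813685248) .dd)))) (.ch (nat_lit 3) (.ev (nat_lit 3696) (nat_lit 2251799822075904) (.ev
 (nat_lit 3732) (nat_lit 274877906944) (.ev (nat_lit 3741) (nat_lit 68719476736) .dd))))) (.br (nat_lit 6) (.ch
 (nat_lit 4) (.ev (nat_lit 3696) (nat_lit 2252074691592192) (.ev (nat_lit 3732) (nat_lit 2048) (.ev (nat_lit
 5524) (nat_lit 68719476736) (.ev (nat_lit 5533) (nat_lit 8388608) .dd))))) (.ch (nat_lit 6) (.ev (nat_lit
 3696) (nat_lit 2252074699982848) (.ev (nat_lit 3709) (nat_lit 68719476736) .dd))))) (.br (nat_lit 15) (.br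
 (nat_lit 14) (.ch (nat_lit 9) (.ev (nat_lit 3696) (nat_lit 2252143419459584) .dd)) (.ch (nat_lit 14) (.ev
 (nat_lit 3696) (nat_lit 274886295552) (.ev (nat_lit 3732) (nat_lit 68719478784) (.ev (nat_lit 3741) (nat_lit
 2251799813685248) .dd))))) (.br (nat_lit 18) (.ch (nat_lit 15) (.ev (nat_lit 3696) (nat_lit 343597385728) (.ev
 (nat_lit 5712) (nat_lit 2251799813685248) (.ev (nat_lit 5725) (nat_lit 8388608) .dd)))) (.br (nat_lit 21) (.ch
 (nat_lit 18) (.ev (nat_lit 3696) (nat_lit 2252143419459584) .dd)) (.ch (nat_lit 21) (.ev (nat_lit 3696)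
 (nat_lit 2252143411070976) (.ev (nat_lit 3709) (nat_lit 8388608) .dd))))))) (.br (nat_lit 32) (.br (nat_lit
 30) (.br (nat_lit 27) (.ch (nat_lit 24) (.ev (nat_lit 3696) (nat_lit 2252143411070976) (.ev (nat_lit 3709)
 (nat_lit 8388608) .dd))) (.ch (nat_lit 27) (.ev (nat_lit 3696) (nat_lit 2252143419457536) (.ev (nat_lit 3709)
 (nat_lit 2048) .dd)))) (.br (nat_lit 31) (.ch (nat_lit 30) (.ev (nat_lit 3696) (nat_lit 274886295552) (.ev
 (nat_lit 3732) (nat_lit 68719476736) (.ev (nat_lit 3780) (nat_lit 2048) (.ev (nat_lit 3789) (nat_lit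
 2251799813685248) .dd))))) (.ch (nat_lit 31) (.ev (nat_lit 3696) (nat_lit 2252143419459584) .dd)))) (.br
 (nat_lit 35) (.br (nat_lit 34) (.ch (nat_lit 32) (.ev (nat_lit 3696) (nat_lit 2251868541552640) (.ev (nat_lit
 3709) (nat_lit 274877906944) .dd))) (.ch (nat_lit 34) (.ev (nat_lit 3696) (nat_lit 2252143419459584) .dd)))
 (.br (nat_lit 40) (.ch (nat_lit 35) (.ev (nat_lit 3696) (nat_lit 2251799822073856) (.ev (nat_lit 3712)
 (nat_lit 2048) (.ev (nat_lit 5600) (nat_lit 274877906944) (.ev (nat_lit 5613) (nat_lit 68719476736) .dd)))))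
 (.br (nat_lit 41) (.ch (nat_lit 40) (.ev (nat_lit 3696) (nat_lit 68727867392) (.ev (nat_lit 5744) (nat_lit
 2251799813685248) (.ev (nat_lit 5757) (nat_lit 274877906944) .dd)))) (.ch (nat_lit 41) (.ev (nat_lit 3696)
 (nat_lit 2251868541552640) (.ev (nat_lit 3709) (nat_lit 274877906944) .dd))))))))))))))))))))) (.br (nat_lit
 9) (.ch (nat_lit 6) (.ev (nat_lit 52) (nat_lit 1918461388684471339016) (.ev (nat_lit 308) (nat_lit
 4611686018427387904) (.ev (nat_lit 340) (nat_lit 140737488355328) (.ev (nat_lit 884) (nat_lit 70368744177664)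
 (.ev (nat_lit 2548) (nat_lit 2251799813685248) (.ev (nat_lit 2644) (nat_lit 128) (.nd (nat_lit 3680) (.br
 (nat_lit 20) (.br (nat_lit 7) (.br (nat_lit 3) (.ch (nat_lit 1) (.ev (nat_lit 3696) (nat_lit 9070970994688)
 (.ev (nat_lit 3732) (nat_lit 18014398509481984) (.ev (nat_lit 5012) (nat_lit 17179869184) (.ev (nat_lit 5021)
 (nat_lit 562949953421312) .dd))))) (.br (nat_lit 4) (.ch (nat_lit 3) (.ev (nat_lit 3696) (nat_lit
 18586419433897984) (.ev (nat_lit 3709) (nat_lit 17179869184) .dd))) (.ch (nat_lit 4) (.ev (nat_lit 3696)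
 (nat_lit 563242011262976) (.ev (nat_lit 3780) (nat_lit 18014398509481984) (.ev (nat_lit 3789) (nat_lit
 8796093022208) .dd)))))) (.br (nat_lit 14) (.br (nat_lit 8) (.ch (nat_lit 7) (.ev (nat_lit 3696) (nat_lit
 18586436613767168) .dd)) (.ch (nat_lit 8) (.ev (nat_lit 3696) (nat_lit 563242011197440) (.ev (nat_lit 3732)
 (nat_lit 8796093022208) (.ev (nat_lit 5728) (nat_lit 18014398509547520) .dd))))) (.br (nat_lit 19) (.ch
 (nat_lit 14) (.ev (nat_lit 3696) (nat_lit 9088150863872) (.ev (nat_lit 3732) (nat_lit 18014398509481984) (.ev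
 (nat_lit 3741) (nat_lit 562949953421312) .dd)))) (.ch (nat_lit 19) (.ev (nat_lit 3696) (nat_lit
 18014673387454464) (.ev (nat_lit 3732) (nat_lit 562949953421312) (.ev (nat_lit 3956) (nat_lit 8796093022208)
 (.ev (nat_lit 3965) (nat_lit 17179869184) .dd)))))))) (.br (nat_lit 31) (.br (nat_lit 27) (.br (nat_lit 22)
 (.ch (nat_lit 20) (.ev (nat_lit 3696) (nat_lit 18586436613767168) .dd)) (.ch (nat_lit 22) (.ev (nat_lit 3696)
 (nat_lit 9070970994688) (.ev (nat_lit 5700) (nat_lit 17179869184) (.ev (nat_lit 5760) (nat_lit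
 18577348462903296) .dd))))) (.br (nat_lit 30) (.ch (nat_lit 27) (.ev (nat_lit 3696) (nat_lit 9088150863872)
 (.ev (nat_lit 5524) (nat_lit 18014398509481984) (.ev (nat_lit 5533) (nat_lit 562949953421312) .dd)))) (.ch
 (nat_lit 30) (.ev (nat_lit 3696) (nat_lit 18586436613767168) .dd)))) (.br (nat_lit 34) (.br (nat_lit 32) (.ch
 (nat_lit 31) (.ev (nat_lit 3696) (nat_lit 18586161735860224) (.ev (nat_lit 3709) (nat_lit 274877906944) .dd)))
 (.ch (nat_lit 32) (.ev (nat_lit 3696) (nat_lit 18023486660280320) (.ev (nat_lit 4192) (nat_lit 65536) (.ev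
 (nat_lit 4205) (nat_lit 562949953421312) .dd))))) (.br (nat_lit 41) (.ch (nat_lit 34) (.ev (nat_lit 3696)
 (nat_lit 18586161735860224) (.ev (nat_lit 3709) (nat_lit 274877906944) .dd))) (.ch (nat_lit 41) (.ev (nat_lit
 3696) (nat_lit 18586161735794688) (.ev (nat_lit 4772) (nat_lit 274877906944) (.ev (nat_lit 4781) (nat_lit
 65536) .dd)))))))))))))))) (.ch (nat_lit 9) (.ev (nat_lit 52) (nat_lit 4630404999887749128) (.ev (nat_lit 244)
 (nat_lit 8796093022208) (.ev (nat_lit 276) (nat_lit 590295810358705651712) (.ev (nat_lit 2292) (nat_lit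
 1180591620717411303424) (.ev (nat_lit 2656) (nat_lit 147576279173460985984) .dd)))))))) (.br (nat_lit 12) (.br
 (nat_lit 11) (.ch (nat_lit 10) (.ev (nat_lit 52) (nat_lit 4614584966733430920) (.ev (nat_lit 916) (nat_lit
 262144) (.ev (nat_lit 1460) (nat_lit 147573952589676412928) (.ev (nat_lit 1748) (nat_lit 274877906944) (.ev
 (nat_lit 1812) (nat_lit 18014398509481984) (.ev (nat_lit 3264) (nat_lit 1770887571815761217536) .dd)))))))
 (.ch (nat_lit 11) (.ev (nat_lit 52) (nat_lit 737870541746220370056) (.ev (nat_lit 564) (nat_lit 8796093022208)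
 (.ev (nat_lit 1172) (nat_lit 17179869184) (.ev (nat_lit 2964) (nat_lit 549755813888) (.ev (nat_lit 3424)
 (nat_lit 1185223572936309637120) .dd))))))) (.br (nat_lit 15) (.ch (nat_lit 12) (.ev (nat_lit 52) (nat_lit
 1332780294046335893512) (.ev (nat_lit 692) (nat_lit 549755813888) (.ev (nat_lit 1012) (nat_lit
 18014398509481984) (.ev (nat_lit 3220) (nat_lit 128) (.ev (nat_lit 3540) (nat_lit 65536) (.ev (nat_lit 3572)
 (nat_lit 17179869184) (.nd (nat_lit 3680) (.br (nat_lit 16) (.br (nat_lit 10) (.br (nat_lit 7) (.ch (nat_lit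
 1) (.ev (nat_lit 3696) (nat_lit 4675071934464) (.ev (nat_lit 4852) (nat_lit 590295810358705651712) (.ev
 (nat_lit 4861) (nat_lit 2048) .dd)))) (.br (nat_lit 8) (.ch (nat_lit 7) (.ev (nat_lit 3696) (nat_lit
 590295814758899679232) (.ev (nat_lit 3920) (nat_lit 274877906944) (.ev (nat_lit 3933) (nat_lit 2048) .dd))))
 (.ch (nat_lit 8) (.ev (nat_lit 3696) (nat_lit 590295815033777586176) (.ev (nat_lit 3709) (nat_lit 2048)
 .dd))))) (.br (nat_lit 14) (.br (nat_lit 11) (.ch (nat_lit 10) (.ev (nat_lit 3696) (nat_lit 277025392640) (.ev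
 (nat_lit 4052) (nat_lit 32768) (.ev (nat_lit 5840) (nat_lit 4398046511104) (.ev (nat_lit 5853) (nat_lit
 590295810358705651712) .dd))))) (.ch (nat_lit 11) (.ev (nat_lit 3696) (nat_lit 590295815033777588224) .dd)))
 (.br (nat_lit 15) (.ch (nat_lit 14) (.ev (nat_lit 3696) (nat_lit 590295815033777588224) .dd)) (.ch (nat_lit
 15) (.ev (nat_lit 3696) (nat_lit 4672924450816) (.ev (nat_lit 3732) (nat_lit 2147483648) (.ev (nat_lit 4516)
 (nat_lit 590295810358705651712) (.ev (nat_lit 4525) (nat_lit 2048) .dd)))))))) (.br (nat_lit 21) (.br (nat_lit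
 19) (.br (nat_lit 18) (.ch (nat_lit 16) (.ev (nat_lit 3696) (nat_lit 4400194029568) (.ev (nat_lit 4772)
 (nat_lit 590295810358705651712) (.ev (nat_lit 4781) (nat_lit 274877906944) .dd)))) (.ch (nat_lit 18) (.ev
 (nat_lit 3696) (nat_lit 590295810635731077120) (.ev (nat_lit 3709) (nat_lit 4398046511104) .dd)))) (.br
 (nat_lit 20) (.ch (nat_lit 19) (.ev (nat_lit 3696) (nat_lit 590295810635731077120) (.ev (nat_lit 3709)
 (nat_lit 4398046511104) .dd))) (.ch (nat_lit 20) (.ev (nat_lit 3696) (nat_lit 590295815031630104576) (.ev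
 (nat_lit 3709) (nat_lit 2147483648) .dd))))) (.br (nat_lit 40) (.br (nat_lit 34) (.ch (nat_lit 21) (.ev
 (nat_lit 3696) (nat_lit 590295810635731077120) (.ev (nat_lit 3709) (nat_lit 4398046511104) .dd))) (.ch
 (nat_lit 34) (.ev (nat_lit 3696) (nat_lit 590295815033777555456) (.ev (nat_lit 3709) (nat_lit 32768) .dd))))
 (.br (nat_lit 42) (.ch (nat_lit 40) (.ev (nat_lit 3696) (nat_lit 4672924418048) (.ev (nat_lit 3780) (nat_lit
 590295810358705651712) (.ev (nat_lit 4736) (nat_lit 2147483648) (.ev (nat_lit 5424) (nat_lit 2048) (.ev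
 (nat_lit 5437) (nat_lit 32768) .dd)))))) (.ch (nat_lit 42) (.ev (nat_lit 3696) (nat_lit 590295814758899648512)
 (.ev (nat_lit 5584) (nat_lit 274877906944) (.ev (nat_lit 5597) (nat_lit 32768) .dd)))))))))))))))) (.ch
 (nat_lit 15) (.ev (nat_lit 52) (nat_lit 4630272248882956424) (.ev (nat_lit 820) (nat_lit 8388608) (.ev
 (nat_lit 980) (nat_lit 590295810358705651712) (.ev (nat_lit 2368) (nat_lit 1328168041437961715712) .dd))))))))
 (.br (nat_lit 22) (.br (nat_lit 18) (.br (nat_lit 17) (.ch (nat_lit 16) (.ev (nat_lit 52) (nat_lit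
 1180611961684672710656) (.ev (nat_lit 116) (nat_lit 8796093022208) (.ev (nat_lit 404) (nat_lit 8) (.ev
 (nat_lit 820) (nat_lit 17179869184) (.ev (nat_lit 1108) (nat_lit 140737488355328) (.ev (nat_lit 1428) (nat_lit
 274877906944) (.ev (nat_lit 1460) (nat_lit 549755813888) (.ev (nat_lit 2900) (nat_lit 4611686018427387904)
 (.ev (nat_lit 2996) (nat_lit 8388608) (.nd (nat_lit 3680) (.br (nat_lit 22) (.br (nat_lit 10) (.br (nat_lit 8)
 (.br (nat_lit 6) (.ch (nat_lit 1) (.ev (nat_lit 3696) (nat_lit 737869763017101836416) (.ev (nat_lit 3709)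
 (nat_lit 562949953421312) .dd))) (.ch (nat_lit 6) (.ev (nat_lit 3696) (nat_lit 737869762948382359552) (.ev
 (nat_lit 3860) (nat_lit 68719476736) (.ev (nat_lit 5700) (nat_lit 128) (.ev (nat_lit 5709) (nat_lit
 562949953421312) .dd)))))) (.br (nat_lit 9) (.ch (nat_lit 8) (.ev (nat_lit 3696) (nat_lit
 737870325967055257600) (.ev (nat_lit 3709) (nat_lit 128) .dd))) (.ch (nat_lit 9) (.ev (nat_lit 3696) (nat_lit
 737870325898335780992) (.ev (nat_lit 3709) (nat_lit 68719476736) .dd))))) (.br (nat_lit 19) (.br (nat_lit 15)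
 (.ch (nat_lit 10) (.ev (nat_lit 3696) (nat_lit 737870325967055257728) .dd)) (.ch (nat_lit 15) (.ev (nat_lit
 3696) (nat_lit 147574515608349606016) (.ev (nat_lit 3709) (nat_lit 590295810358705651712) .dd)))) (.br
 (nat_lit 20) (.ch (nat_lit 19) (.ev (nat_lit 3696) (nat_lit 147573952658396184576) (.ev (nat_lit 3712)
 (nat_lit 128) (.ev (nat_lit 4468) (nat_lit 562949953421312) (.ev (nat_lit 4477) (nat_lit
 590295810358705651712) .dd))))) (.br (nat_lit 21) (.ch (nat_lit 20) (.ev (nat_lit 3696) (nat_lit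
 590296373377378844800) (.ev (nat_lit 3709) (nat_lit 147573952589676412928) .dd))) (.ch (nat_lit 21) (.ev
 (nat_lit 3696) (nat_lit 737869763017101803648) (.ev (nat_lit 3780) (nat_lit 562949953421312) (.ev (nat_lit
 3789) (nat_lit 32768) .dd)))))))) (.br (nat_lit 34) (.br (nat_lit 30) (.br (nat_lit 24) (.ch (nat_lit 22) (.ev
 (nat_lit 3696) (nat_lit 147573952589676707968) (.ev (nat_lit 4884) (nat_lit 590295810358705651712) (.ev
 (nat_lit 5488) (nat_lit 68719476736) (.ev (nat_lit 5501) (nat_lit 562949953421312) .dd))))) (.ch (nat_lit 24)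
 (.ev (nat_lit 3696) (nat_lit 737869762948382359680) (.ev (nat_lit 3732) (nat_lit 68719476736) (.ev (nat_lit
 3741) (nat_lit 562949953421312) .dd))))) (.br (nat_lit 32) (.ch (nat_lit 30) (.ev (nat_lit 3696) (nat_lit
 147574515608349343872) (.ev (nat_lit 5760) (nat_lit 262144) (.ev (nat_lit 5773) (nat_lit
 590295810358705651712) .dd)))) (.ch (nat_lit 32) (.ev (nat_lit 3696) (nat_lit 737869763017101836416) (.ev
 (nat_lit 3709) (nat_lit 562949953421312) .dd))))) (.br (nat_lit 40) (.br (nat_lit 35) (.ch (nat_lit 34) (.ev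
 (nat_lit 3696) (nat_lit 563018673160320) (.ev (nat_lit 3732) (nat_lit 590295810358705651712) (.ev (nat_lit
 5700) (nat_lit 32768) (.ev (nat_lit 5709) (nat_lit 147573952589676412928) .dd))))) (.ch (nat_lit 35) (.ev
 (nat_lit 3696) (nat_lit 737870325967055257728) .dd))) (.br (nat_lit 41) (.ch (nat_lit 40) (.ev (nat_lit 3696)
 (nat_lit 147574515539630129280) (.ev (nat_lit 4292) (nat_lit 590295810358705651712) (.ev (nat_lit 4301)
 (nat_lit 68719476736) .dd)))) (.br (nat_lit 43) (.ch (nat_lit 41) (.ev (nat_lit 3696) (nat_lit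
 590296373377378811904) (.ev (nat_lit 5552) (nat_lit 128) (.ev (nat_lit 5700) (nat_lit 147573952589676412928)
 (.ev (nat_lit 5709) (nat_lit 32768) .dd))))) (.ch (nat_lit 43) (.ev (nat_lit 3696) (nat_lit
 737870325967054995456) (.ev (nat_lit 5184) (nat_lit 262144) (.ev (nat_lit 5197) (nat_lit 128)
 .dd)))))))))))))))))))) (.ch (nat_lit 17) (.ev (nat_lit 52) (nat_lit 1332795352906050142216) (.ev (nat_lit
 1824) (nat_lit 590298771139508570240) .dd)))) (.br (nat_lit 21) (.ch (nat_lit 18) (.ev (nat_lit 52) (nat_lit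
 1775499130290831460480) (.ev (nat_lit 1172) (nat_lit 274877906944) (.ev (nat_lit 1664) (nat_lit
 147594993479849345032) .dd)))) (.ch (nat_lit 21) (.ev (nat_lit 52) (nat_lit 1770907917196093358088) (.ev
 (nat_lit 84) (nat_lit 4398046511104) (.ev (nat_lit 1780) (nat_lit 32768) (.ev (nat_lit 2324) (nat_lit
 147573952589676412928) (.ev (nat_lit 3104) (nat_lit 4612249861742397568) .dd)))))))) (.br (nat_lit 26) (.br
 (nat_lit 24) (.ch (nat_lit 22) (.ev (nat_lit 52) (nat_lit 1775519529046877765640) (.ev (nat_lit 148) (nat_lit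
 8796093022208) (.ev (nat_lit 404) (nat_lit 2147483648) (.ev (nat_lit 948) (nat_lit 262144) (.ev (nat_lit 1556)
 (nat_lit 147573952589676412928) (.ev (nat_lit 3488) (nat_lit 633610763765888) .dd))))))) (.ch (nat_lit 24)
 (.ev (nat_lit 52) (nat_lit 18793419677927432) (.ev (nat_lit 308) (nat_lit 2251799813685248) (.ev (nat_lit 692)
 (nat_lit 2147483648) (.ev (nat_lit 2144) (nat_lit 1923073078823919616128) .dd)))))) (.br (nat_lit 28) (.ch
 (nat_lit 26) (.ev (nat_lit 52) (nat_lit 594907505534003609600) (.ev (nat_lit 148) (nat_lit 4398046511104) (.ev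
 (nat_lit 404) (nat_lit 147573952589676412928) (.ev (nat_lit 436) (nat_lit 65536) (.ev (nat_lit 724) (nat_lit
 1180591620717411303424) (.ev (nat_lit 1524) (nat_lit 562949953421312) (.ev (nat_lit 2580) (nat_lit
 140737488355328) (.ev (nat_lit 2612) (nat_lit 8388608) (.ev (nat_lit 2900) (nat_lit 2251799813685248) (.nd
 (nat_lit 3680) (.br (nat_lit 21) (.br (nat_lit 11) (.br (nat_lit 6) (.ch (nat_lit 4) (.ev (nat_lit 3696)
 (nat_lit 18085317009475720) (.ev (nat_lit 3709) (nat_lit 2147483648) .dd))) (.br (nat_lit 9) (.ch (nat_lit 6)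
 (.ev (nat_lit 3696) (nat_lit 18085319156959240) (.ev (nat_lit 3709) (nat_lit 128) .dd))) (.ch (nat_lit 9) (.ev
 (nat_lit 3696) (nat_lit 18084769401145472) (.ev (nat_lit 3828) (nat_lit 549755813888) (.ev (nat_lit 3837)
 (nat_lit 8) .dd)))))) (.br (nat_lit 19) (.br (nat_lit 15) (.ch (nat_lit 11) (.ev (nat_lit 3696) (nat_lit
 18084769401143304) (.ev (nat_lit 3732) (nat_lit 128) (.ev (nat_lit 5700) (nat_lit 2048) (.ev (nat_lit 5709)
 (nat_lit 549755813888) .dd))))) (.ch (nat_lit 15) (.ev (nat_lit 3696) (nat_lit 70920647475336) (.ev (nat_lit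
 4004) (nat_lit 2048) (.ev (nat_lit 4013) (nat_lit 18014398509481984) .dd))))) (.br (nat_lit 20) (.ch (nat_lit
 19) (.ev (nat_lit 3696) (nat_lit 70920647477384) (.ev (nat_lit 3709) (nat_lit 18014398509481984) .dd))) (.ch
 (nat_lit 20) (.ev (nat_lit 3696) (nat_lit 18014400656965768) (.ev (nat_lit 5296) (nat_lit 70368744177664) (.ev
 (nat_lit 5728) (nat_lit 549755815936) .dd))))))) (.br (nat_lit 31) (.br (nat_lit 27) (.br (nat_lit 24) (.ch
 (nat_lit 21) (.ev (nat_lit 3696) (nat_lit 18084769401145480) (.ev (nat_lit 3709) (nat_lit 549755813888) .dd)))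
 (.ch (nat_lit 24) (.ev (nat_lit 3696) (nat_lit 18084769401143432) (.ev (nat_lit 5524) (nat_lit 2048) (.ev
 (nat_lit 5533) (nat_lit 549755813888) .dd))))) (.br (nat_lit 30) (.ch (nat_lit 27) (.ev (nat_lit 3696)
 (nat_lit 70370891661448) (.ev (nat_lit 3828) (nat_lit 18014398509481984) (.ev (nat_lit 5172) (nat_lit
 549755813888) (.ev (nat_lit 5181) (nat_lit 2048) .dd))))) (.ch (nat_lit 30) (.ev (nat_lit 3696) (nat_lit
 18085317009475720) (.ev (nat_lit 3709) (nat_lit 2147483648) .dd))))) (.br (nat_lit 41) (.br (nat_lit 35) (.ch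
 (nat_lit 31) (.ev (nat_lit 3696) (nat_lit 18014950412781704) (.ev (nat_lit 3709) (nat_lit 70368744177664)
 .dd))) (.ch (nat_lit 35) (.ev (nat_lit 3696) (nat_lit 18085319156957320) (.ev (nat_lit 3709) (nat_lit 2048)
 .dd)))) (.br (nat_lit 46) (.ch (nat_lit 41) (.ev (nat_lit 3696) (nat_lit 18084769401145472) (.ev (nat_lit
 5120) (nat_lit 549755813888) (.ev (nat_lit 5133) (nat_lit 8) .dd)))) (.ch (nat_lit 46) (.ev (nat_lit 3696)
 (nat_lit 70920647475336) (.ev (nat_lit 3732) (nat_lit 2048) (.ev (nat_lit 3741) (nat_lit 18014398509481984)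
 .dd))))))))))))))))))) (.br (nat_lit 29) (.ch (nat_lit 28) (.ev (nat_lit 52) (nat_lit 1918479970102407333888)
 (.ev (nat_lit 1588) (nat_lit 549755813888) (.ev (nat_lit 2132) (nat_lit 32768) (.ev (nat_lit 2292) (nat_lit
 70368744177664) (.ev (nat_lit 3636) (nat_lit 8388608) (.nd (nat_lit 3680) (.br (nat_lit 18) (.br (nat_lit 8)
 (.br (nat_lit 4) (.br (nat_lit 3) (.ch (nat_lit 1) (.ev (nat_lit 3696) (nat_lit 4614082955923488904) (.ev
 (nat_lit 3709) (nat_lit 68719476736) .dd))) (.ch (nat_lit 3) (.ev (nat_lit 3696) (nat_lit 4611690487340925064)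
 (.ev (nat_lit 3840) (nat_lit 2251799813685248) (.ev (nat_lit 3853) (nat_lit 140737488355328) .dd))))) (.br
 (nat_lit 6) (.ch (nat_lit 4) (.ev (nat_lit 3696) (nat_lit 4614082955923488776) (.ev (nat_lit 5792) (nat_lit
 68719476864) .dd))) (.ch (nat_lit 6) (.ev (nat_lit 3696) (nat_lit 4614083024642965512) (.ev (nat_lit 3709)
 (nat_lit 128) .dd))))) (.br (nat_lit 10) (.br (nat_lit 9) (.ch (nat_lit 8) (.ev (nat_lit 3696) (nat_lit
 2397006215577728) (.ev (nat_lit 3780) (nat_lit 8) (.ev (nat_lit 3789) (nat_lit 4611686018427387904) .dd))))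
 (.ch (nat_lit 9) (.ev (nat_lit 3696) (nat_lit 4613942218435133576) (.ev (nat_lit 5524) (nat_lit
 140737488355328) (.ev (nat_lit 5533) (nat_lit 68719476736) .dd))))) (.br (nat_lit 11) (.ch (nat_lit 10) (.ev
 (nat_lit 3696) (nat_lit 4611826826782769288) (.ev (nat_lit 5744) (nat_lit 2251799813685248) (.ev (nat_lit
 5757) (nat_lit 4398046511104) .dd)))) (.br (nat_lit 14) (.ch (nat_lit 11) (.ev (nat_lit 3696) (nat_lit
 2251870680645768) (.ev (nat_lit 3732) (nat_lit 65536) (.ev (nat_lit 4016) (nat_lit 140737488355328) (.ev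
 (nat_lit 5700) (nat_lit 4398046511104) (.ev (nat_lit 5709) (nat_lit 4611686018427387904) .dd)))))) (.ch
 (nat_lit 14) (.ev (nat_lit 3696) (nat_lit 4614082953776005248) (.ev (nat_lit 4212) (nat_lit 68719476736) (.ev
 (nat_lit 5700) (nat_lit 8) (.ev (nat_lit 5709) (nat_lit 2147483648) .dd))))))))) (.br (nat_lit 34) (.br
 (nat_lit 30) (.br (nat_lit 27) (.ch (nat_lit 18) (.ev (nat_lit 3696) (nat_lit 2397006215577728) (.ev (nat_lit
 5600) (nat_lit 4611686018427387904) (.ev (nat_lit 5613) (nat_lit 8) .dd)))) (.ch (nat_lit 27) (.ev (nat_lit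
 3696) (nat_lit 4614083024642965512) (.ev (nat_lit 3709) (nat_lit 128) .dd)))) (.br (nat_lit 31) (.ch (nat_lit
 30) (.ev (nat_lit 3696) (nat_lit 4613937820388622472) (.ev (nat_lit 3860) (nat_lit 140737488355328) (.ev
 (nat_lit 5092) (nat_lit 68719476736) (.ev (nat_lit 5101) (nat_lit 4398046511104) .dd))))) (.ch (nat_lit 31)
 (.ev (nat_lit 3696) (nat_lit 4614083024642965512) (.ev (nat_lit 3709) (nat_lit 128) .dd))))) (.br (nat_lit 41)
 (.br (nat_lit 35) (.ch (nat_lit 34) (.ev (nat_lit 3696) (nat_lit 4614083024642899976) (.ev (nat_lit 3828)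
 (nat_lit 128) (.ev (nat_lit 3837) (nat_lit 65536) .dd)))) (.ch (nat_lit 35) (.ev (nat_lit 3696) (nat_lit
 2251868533227528) (.ev (nat_lit 4852) (nat_lit 140737488355328) (.ev (nat_lit 5172) (nat_lit
 4611686018427387904) (.ev (nat_lit 5728) (nat_lit 2147483648) (.ev (nat_lit 5760) (nat_lit 4398046511232)
 .dd))))))) (.br (nat_lit 43) (.ch (nat_lit 41) (.ev (nat_lit 3696) (nat_lit 4614083024642965512) (.ev (nat_lit
 3709) (nat_lit 128) .dd))) (.br (nat_lit 46) (.ch (nat_lit 43) (.ev (nat_lit 3696) (nat_lit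
 4614082953775939720) (.ev (nat_lit 3780) (nat_lit 68719476736) (.ev (nat_lit 3860) (nat_lit 65536) (.ev
 (nat_lit 3869) (nat_lit 2147483648) .dd))))) (.ch (nat_lit 46) (.ev (nat_lit 3696) (nat_lit
 4614078626596389000) (.ev (nat_lit 5700) (nat_lit 4398046511104) (.ev (nat_lit 5709) (nat_lit 65536)
 .dd)))))))))))))))) (.ch (nat_lit 29) (.ev (nat_lit 52) (nat_lit 594910315868544041096) (.ev (nat_lit 180)
 (nat_lit 549755813888) (.ev (nat_lit 212) (nat_lit 65536) (.ev (nat_lit 1012) (nat_lit 70368744177664) (.ev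
 (nat_lit 1972) (nat_lit 18014398509481984) (.ev (nat_lit 2452) (nat_lit 147573952589676412928) (.ev (nat_lit
 2612) (nat_lit 17179869184) (.ev (nat_lit 2836) (nat_lit 8796093022208) (.ev (nat_lit 3156) (nat_lit
 140737488355328) (.nd (nat_lit 3680) (.br (nat_lit 22) (.br (nat_lit 10) (.br (nat_lit 7) (.br (nat_lit 6)
 (.ch (nat_lit 4) (.ev (nat_lit 3696) (nat_lit 1180591620719559084032) (.ev (nat_lit 3709) (nat_lit 8388608)
 .dd))) (.ch (nat_lit 6) (.ev (nat_lit 3696) (nat_lit 1180591620719559051264) (.ev (nat_lit 3732) (nat_lit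
 32768) (.ev (nat_lit 3741) (nat_lit 8388608) .dd))))) (.br (nat_lit 8) (.ch (nat_lit 7) (.ev (nat_lit 3696)
 (nat_lit 1180591620719559081984) (.ev (nat_lit 5776) (nat_lit 8388608) (.ev (nat_lit 5789) (nat_lit 2048)
 .dd)))) (.ch (nat_lit 8) (.ev (nat_lit 3696) (nat_lit 1180591620719567208448) (.ev (nat_lit 4356) (nat_lit
 2048) (.ev (nat_lit 4365) (nat_lit 262144) .dd)))))) (.br (nat_lit 15) (.br (nat_lit 14) (.ch (nat_lit 10)
 (.ev (nat_lit 3696) (nat_lit 2155874304) (.ev (nat_lit 3828) (nat_lit 32768) (.ev (nat_lit 5824) (nat_lit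
 1180591620717411565568) .dd)))) (.ch (nat_lit 14) (.ev (nat_lit 3696) (nat_lit 1180591620717419954176) (.ev
 (nat_lit 3744) (nat_lit 2048) (.ev (nat_lit 3780) (nat_lit 32768) (.ev (nat_lit 3789) (nat_lit 2147483648)
 .dd)))))) (.br (nat_lit 16) (.ch (nat_lit 15) (.ev (nat_lit 3696) (nat_lit 1180591620719567210496) (.ev
 (nat_lit 3709) (nat_lit 262144) .dd))) (.br (nat_lit 18) (.ch (nat_lit 16) (.ev (nat_lit 3696) (nat_lit
 1180591620719567210496) (.ev (nat_lit 3709) (nat_lit 262144) .dd))) (.ch (nat_lit 18) (.ev (nat_lit 3696)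
 (nat_lit 1180591620719567210496) (.ev (nat_lit 3709) (nat_lit 262144) .dd))))))) (.br (nat_lit 32) (.br
 (nat_lit 27) (.br (nat_lit 24) (.ch (nat_lit 22) (.ev (nat_lit 3696) (nat_lit 2156169216) (.ev (nat_lit 3709)
 (nat_lit 1180591620717411303424) .dd))) (.ch (nat_lit 24) (.ev (nat_lit 3696) (nat_lit 2147780608) (.ev
 (nat_lit 5808) (nat_lit 1180591620717419692032) .dd)))) (.br (nat_lit 30) (.ch (nat_lit 27) (.ev (nat_lit
 3696) (nat_lit 2155905024) (.ev (nat_lit 3732) (nat_lit 2048) (.ev (nat_lit 5728) (nat_lit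
 1180591620717411565568) .dd)))) (.ch (nat_lit 30) (.ev (nat_lit 3696) (nat_lit 1180591620719567177728) (.ev
 (nat_lit 3732) (nat_lit 32768) (.ev (nat_lit 3741) (nat_lit 262144) .dd)))))) (.br (nat_lit 35) (.br (nat_lit
 34) (.ch (nat_lit 32) (.ev (nat_lit 3696) (nat_lit 1180591620717411567616) (.ev (nat_lit 3732) (nat_lit
 2147483648) (.ev (nat_lit 5472) (nat_lit 8388608) (.ev (nat_lit 5485) (nat_lit 32768) .dd))))) (.ch (nat_lit
 34) (.ev (nat_lit 3696) (nat_lit 1180591620719567472640) .dd))) (.br (nat_lit 40) (.ch (nat_lit 35) (.ev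
 (nat_lit 3696) (nat_lit 1180591620719559081984) (.ev (nat_lit 4304) (nat_lit 2048) (.ev (nat_lit 4317)
 (nat_lit 8388608) .dd)))) (.br (nat_lit 43) (.ch (nat_lit 40) (.ev (nat_lit 3696) (nat_lit 8652800) (.ev
 (nat_lit 4224) (nat_lit 1180591620717411303424) (.ev (nat_lit 5700) (nat_lit 2147483648) (.ev (nat_lit 5709)
 (nat_lit 32768) .dd))))) (.ch (nat_lit 43) (.ev (nat_lit 3696) (nat_lit 2156169216) (.ev (nat_lit 3709)
 (nat_lit 1180591620717411303424) .dd)))))))))))))))))))))))) (.br (nat_lit 42) (.br (nat_lit 38) (.br (nat_lit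
 36) (.br (nat_lit 33) (.ch (nat_lit 31) (.ev (nat_lit 52) (nat_lit 590314045555041370112) (.ev (nat_lit 180)
 (nat_lit 147573952589676412928) (.ev (nat_lit 500) (nat_lit 4613937818241073152) (.ev (nat_lit 628) (nat_lit
 4398046511104) (.ev (nat_lit 1396) (nat_lit 128) (.ev (nat_lit 2420) (nat_lit 2048) (.ev (nat_lit 3092)
 (nat_lit 17179869184) (.nd (nat_lit 3680) (.br (nat_lit 24) (.br (nat_lit 16) (.br (nat_lit 10) (.br (nat_lit
 7) (.ch (nat_lit 4) (.ev (nat_lit 3696) (nat_lit 1180592183667364823048) (.ev (nat_lit 5524) (nat_lit 8388608)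
 (.ev (nat_lit 5533) (nat_lit 262144) .dd)))) (.ch (nat_lit 7) (.ev (nat_lit 3696) (nat_lit
 1180592183667373408256) (.ev (nat_lit 5524) (nat_lit 65536) (.ev (nat_lit 5533) (nat_lit 8) .dd))))) (.br
 (nat_lit 11) (.ch (nat_lit 10) (.ev (nat_lit 3696) (nat_lit 1180592183667373211656) (.ev (nat_lit 3709)
 (nat_lit 262144) .dd))) (.ch (nat_lit 11) (.ev (nat_lit 3696) (nat_lit 1180591620717419692040) (.ev (nat_lit
 4324) (nat_lit 562949953421312) (.ev (nat_lit 5472) (nat_lit 327680) (.ev (nat_lit 5485) (nat_lit 32768)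
 .dd))))))) (.br (nat_lit 21) (.br (nat_lit 18) (.ch (nat_lit 16) (.ev (nat_lit 3696) (nat_lit
 1180592183667373211656) (.ev (nat_lit 3709) (nat_lit 262144) .dd))) (.ch (nat_lit 18) (.ev (nat_lit 3696)
 (nat_lit 1180592183667373178888) (.ev (nat_lit 5700) (nat_lit 32768) (.ev (nat_lit 5709) (nat_lit 262144)
 .dd))))) (.br (nat_lit 22) (.ch (nat_lit 21) (.ev (nat_lit 3696) (nat_lit 1180592183667373441032) (.ev
 (nat_lit 3709) (nat_lit 32768) .dd))) (.ch (nat_lit 22) (.ev (nat_lit 3696) (nat_lit 1180592183667373441024)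
 (.ev (nat_lit 3732) (nat_lit 32768) (.ev (nat_lit 3741) (nat_lit 8) .dd))))))) (.br (nat_lit 34) (.br (nat_lit
 30) (.br (nat_lit 27) (.ch (nat_lit 24) (.ev (nat_lit 3696) (nat_lit 1180591620717411663880) (.ev (nat_lit
 3828) (nat_lit 8388608) (.ev (nat_lit 3837) (nat_lit 562949953421312) .dd)))) (.ch (nat_lit 27) (.ev (nat_lit
 3696) (nat_lit 1180591620717411598344) (.ev (nat_lit 3732) (nat_lit 562949961809920) (.ev (nat_lit 3741)
 (nat_lit 65536) .dd))))) (.br (nat_lit 32) (.ch (nat_lit 30) (.ev (nat_lit 3696) (nat_lit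
 1180592183667373441032) (.ev (nat_lit 3709) (nat_lit 32768) .dd))) (.ch (nat_lit 32) (.ev (nat_lit 3696)
 (nat_lit 1180592183667364986888) (.ev (nat_lit 3828) (nat_lit 65536) (.ev (nat_lit 5700) (nat_lit 8388608)
 (.ev (nat_lit 5709) (nat_lit 32768) .dd))))))) (.br (nat_lit 41) (.br (nat_lit 40) (.ch (nat_lit 34) (.ev
 (nat_lit 3696) (nat_lit 562949953716232) (.ev (nat_lit 3860) (nat_lit 1180591620717411303424) (.ev (nat_lit
 4964) (nat_lit 65536) (.ev (nat_lit 4973) (nat_lit 8388608) .dd))))) (.ch (nat_lit 40) (.ev (nat_lit 3696)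
 (nat_lit 8749064) (.ev (nat_lit 5524) (nat_lit 562949953421312) (.ev (nat_lit 5533) (nat_lit
 1180591620717411303424) .dd))))) (.br (nat_lit 42) (.ch (nat_lit 41) (.ev (nat_lit 3696) (nat_lit
 1180592183667373408256) (.ev (nat_lit 3860) (nat_lit 8) (.ev (nat_lit 3869) (nat_lit 65536) .dd)))) (.ch
 (nat_lit 42) (.ev (nat_lit 3696) (nat_lit 1180591620717420052488) (.ev (nat_lit 3709) (nat_lit
 562949953421312) .dd)))))))))))))))) (.ch (nat_lit 33) (.ev (nat_lit 52) (nat_lit 1332777268963430369408) (.ev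
 (nat_lit 1684) (nat_lit 562949953421312) (.ev (nat_lit 1940) (nat_lit 65536) (.ev (nat_lit 1972) (nat_lit
 70368744177664) (.ev (nat_lit 2324) (nat_lit 8) (.ev (nat_lit 2420) (nat_lit 18014398509481984) (.ev (nat_lit
 2452) (nat_lit 32768) (.nd (nat_lit 3680) (.br (nat_lit 18) (.br (nat_lit 6) (.br (nat_lit 3) (.ch (nat_lit 1)
 (.ev (nat_lit 3696) (nat_lit 145206401826816) (.ev (nat_lit 4004) (nat_lit 590295810358705651712) (.ev
 (nat_lit 4013) (nat_lit 2251799813685248) .dd)))) (.br (nat_lit 4) (.ch (nat_lit 3) (.ev (nat_lit 3696)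
 (nat_lit 590295814827619123200) (.ev (nat_lit 3732) (nat_lit 140737488355328) (.ev (nat_lit 3741) (nat_lit
 2251799813685248) .dd)))) (.ch (nat_lit 4) (.ev (nat_lit 3696) (nat_lit 590298207362773680128) (.ev (nat_lit
 3709) (nat_lit 2147483648) .dd))))) (.br (nat_lit 10) (.br (nat_lit 8) (.ch (nat_lit 6) (.ev (nat_lit 3696)
 (nat_lit 590298207296201687040) (.ev (nat_lit 3709) (nat_lit 68719476736) .dd))) (.ch (nat_lit 8) (.ev
 (nat_lit 3696) (nat_lit 590298207364921163776) .dd))) (.br (nat_lit 16) (.ch (nat_lit 10) (.ev (nat_lit 3696)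
 (nat_lit 590298202966874652672) (.ev (nat_lit 3709) (nat_lit 4398046511104) .dd))) (.ch (nat_lit 16) (.ev
 (nat_lit 3696) (nat_lit 590298066625285324800) (.ev (nat_lit 5744) (nat_lit 140737488355328) (.ev (nat_lit
 5757) (nat_lit 2147483648) .dd))))))) (.br (nat_lit 31) (.br (nat_lit 22) (.br (nat_lit 21) (.ch (nat_lit 18)
 (.ev (nat_lit 3696) (nat_lit 590295810429572612096) (.ev (nat_lit 3828) (nat_lit 4398046511104) (.ev (nat_lit
 4852) (nat_lit 140737488355328) (.ev (nat_lit 4861) (nat_lit 2251799813685248) .dd))))) (.ch (nat_lit 21) (.ev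
 (nat_lit 3696) (nat_lit 590298066627432808448) (.ev (nat_lit 3709) (nat_lit 140737488355328) .dd)))) (.br
 (nat_lit 30) (.ch (nat_lit 22) (.ev (nat_lit 3696) (nat_lit 145206401826816) (.ev (nat_lit 3984) (nat_lit
 590295810358705651712) (.ev (nat_lit 3997) (nat_lit 2251799813685248) .dd)))) (.ch (nat_lit 30) (.ev (nat_lit
 3696) (nat_lit 145206401826816) (.ev (nat_lit 3780) (nat_lit 590295810358705651712) (.ev (nat_lit 3789)
 (nat_lit 2251799813685248) .dd)))))) (.br (nat_lit 35) (.br (nat_lit 32) (.ch (nat_lit 31) (.ev (nat_lit 3696)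
 (nat_lit 2397006215512064) (.ev (nat_lit 3709) (nat_lit 590295810358705651712) .dd))) (.ch (nat_lit 32) (.ev
 (nat_lit 3696) (nat_lit 2396937496035328) (.ev (nat_lit 4468) (nat_lit 68719476736) (.ev (nat_lit 4477)
 (nat_lit 590295810358705651712) .dd))))) (.br (nat_lit 46) (.ch (nat_lit 35) (.ev (nat_lit 3696) (nat_lit
 590298202964727169024) (.ev (nat_lit 3920) (nat_lit 2147483648) (.ev (nat_lit 3933) (nat_lit 4398046511104)
 .dd)))) (.ch (nat_lit 46) (.ev (nat_lit 3696) (nat_lit 590298066627432808448) (.ev (nat_lit 3709) (nat_lit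
 140737488355328) .dd))))))))))))))))) (.br (nat_lit 37) (.ch (nat_lit 36) (.ev (nat_lit 52) (nat_lit
 1328183588598950692992) (.ev (nat_lit 372) (nat_lit 4611686018427387904) (.ev (nat_lit 660) (nat_lit
 562949953421312) (.ev (nat_lit 1044) (nat_lit 140737488355328) (.ev (nat_lit 2132) (nat_lit 8) (.ev (nat_lit
 2720) (nat_lit 590298145740738854912) .dd))))))) (.ch (nat_lit 37) (.ev (nat_lit 52) (nat_lit
 152188594713843271808) (.ev (nat_lit 244) (nat_lit 4398046511104) (.ev (nat_lit 948) (nat_lit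
 18014398509481984) (.ev (nat_lit 2452) (nat_lit 8) (.ev (nat_lit 3040) (nat_lit 1770887510535159447552)
 .dd)))))))) (.br (nat_lit 40) (.br (nat_lit 39) (.ch (nat_lit 38) (.ev (nat_lit 52) (nat_lit
 1180610339630144028672) (.ev (nat_lit 640) (nat_lit 742483784415414683784) .dd))) (.ch (nat_lit 39) (.ev
 (nat_lit 52) (nat_lit 737872648618796648576) (.ev (nat_lit 692) (nat_lit 32768) (.ev (nat_lit 724) (nat_lit
 262144) (.ev (nat_lit 1044) (nat_lit 4611686018427387904) (.ev (nat_lit 1716) (nat_lit 4398046511104) (.ev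
 (nat_lit 1748) (nat_lit 17179869184) (.ev (nat_lit 2068) (nat_lit 274886295552) (.ev (nat_lit 3508) (nat_lit
 68719476736) (.nd (nat_lit 3680) (.br (nat_lit 19) (.br (nat_lit 9) (.br (nat_lit 6) (.br (nat_lit 4) (.ch
 (nat_lit 1) (.ev (nat_lit 3696) (nat_lit 1180609784649502162944) (.ev (nat_lit 4564) (nat_lit 65536) (.ev
 (nat_lit 4573) (nat_lit 8) .dd)))) (.ch (nat_lit 4) (.ev (nat_lit 3696) (nat_lit 1180591770250992746504) (.ev
 (nat_lit 3709) (nat_lit 18014398509481984) .dd)))) (.br (nat_lit 8) (.ch (nat_lit 6) (.ev (nat_lit 3696)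
 (nat_lit 1180591629513504391176) (.ev (nat_lit 3732) (nat_lit 140737488355328) (.ev (nat_lit 3741) (nat_lit
 18014398509481984) .dd)))) (.ch (nat_lit 8) (.ev (nat_lit 3696) (nat_lit 1180591770250992746504) (.ev (nat_lit
 3709) (nat_lit 18014398509481984) .dd))))) (.br (nat_lit 11) (.br (nat_lit 10) (.ch (nat_lit 9) (.ev (nat_lit
 3696) (nat_lit 1180609784649502228480) (.ev (nat_lit 3709) (nat_lit 8) .dd))) (.ch (nat_lit 10) (.ev (nat_lit
 3696) (nat_lit 18163932090925064) (.ev (nat_lit 3709) (nat_lit 1180591620717411303424) .dd)))) (.br (nat_lit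
 14) (.ch (nat_lit 11) (.ev (nat_lit 3696) (nat_lit 1180591620717411303432) (.ev (nat_lit 3732) (nat_lit
 8796093022208) (.ev (nat_lit 5472) (nat_lit 18014398509481984) (.ev (nat_lit 5712) (nat_lit 65536) (.ev
 (nat_lit 5725) (nat_lit 140737488355328) .dd)))))) (.br (nat_lit 15) (.ch (nat_lit 14) (.ev (nat_lit 3696)
 (nat_lit 1180609775853409206280) (.ev (nat_lit 3709) (nat_lit 8796093022208) .dd))) (.ch (nat_lit 15) (.ev
 (nat_lit 3696) (nat_lit 1180609643912013873152) (.ev (nat_lit 5824) (nat_lit 140737488355336) .dd))))))) (.br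
 (nat_lit 34) (.br (nat_lit 24) (.br (nat_lit 20) (.ch (nat_lit 19) (.ev (nat_lit 3696) (nat_lit
 18163932090925064) (.ev (nat_lit 3709) (nat_lit 1180591620717411303424) .dd))) (.ch (nat_lit 20) (.ev (nat_lit
 3696) (nat_lit 1180609775853409140744) (.ev (nat_lit 3732) (nat_lit 8796093022208) (.ev (nat_lit 3741)
 (nat_lit 65536) .dd))))) (.br (nat_lit 31) (.ch (nat_lit 24) (.ev (nat_lit 3696) (nat_lit
 1180609784649502228488) .dd)) (.ch (nat_lit 31) (.ev (nat_lit 3696) (nat_lit 1180609643912013873160) (.ev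
 (nat_lit 3709) (nat_lit 140737488355328) .dd))))) (.br (nat_lit 40) (.br (nat_lit 35) (.ch (nat_lit 34) (.ev
 (nat_lit 3696) (nat_lit 18014398509481992) (.ev (nat_lit 3732) (nat_lit 1180591620717411303424) (.ev (nat_lit
 5536) (nat_lit 8796093022208) (.ev (nat_lit 5728) (nat_lit 65536) (.ev (nat_lit 5741) (nat_lit
 140737488355328) .dd)))))) (.ch (nat_lit 35) (.ev (nat_lit 3696) (nat_lit 1180591770250992746504) (.ev
 (nat_lit 3709) (nat_lit 18014398509481984) .dd)))) (.br (nat_lit 42) (.ch (nat_lit 40) (.ev (nat_lit 3696)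
 (nat_lit 1180609784649502228488) .dd)) (.br (nat_lit 43) (.ch (nat_lit 42) (.ev (nat_lit 3696) (nat_lit
 1180591770250992746504) (.ev (nat_lit 3709) (nat_lit 18014398509481984) .dd))) (.ch (nat_lit 43) (.ev (nat_lit
 3696) (nat_lit 1180609643912013873160) (.ev (nat_lit 3709) (nat_lit 140737488355328) .dd)))))))))))))))))))
 (.br (nat_lit 41) (.ch (nat_lit 40) (.ev (nat_lit 52) (nat_lit 737870537023895439488) (.ev (nat_lit 756)
 (nat_lit 4398046511104) (.ev (nat_lit 1504) (nat_lit 1185223582623616761864) .dd)))) (.ch (nat_lit 41) (.ev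
 (nat_lit 52) (nat_lit 4614162393499469832) (.ev (nat_lit 916) (nat_lit 18014398509481984) (.ev (nat_lit 1492)
 (nat_lit 590295810358705651712) (.ev (nat_lit 1780) (nat_lit 549755813888) (.ev (nat_lit 2964) (nat_lit
 2147483648) (.ev (nat_lit 3188) (nat_lit 17179869184) (.nd (nat_lit 3680) (.br (nat_lit 18) (.br (nat_lit 10)
 (.br (nat_lit 6) (.br (nat_lit 4) (.ch (nat_lit 3) (.ev (nat_lit 3696) (nat_lit 562949953749120) (.ev (nat_lit
 4004) (nat_lit 68719476736) (.ev (nat_lit 5568) (nat_lit 1180591620717411303424) (.ev (nat_lit 5581) (nat_lit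
 147573952589676412928) .dd))))) (.ch (nat_lit 4) (.ev (nat_lit 3696) (nat_lit 1328166136325760680064) (.ev
 (nat_lit 3709) (nat_lit 262144) .dd)))) (.br (nat_lit 8) (.ch (nat_lit 6) (.ev (nat_lit 3696) (nat_lit
 1328166136257041399808) (.ev (nat_lit 5092) (nat_lit 68719542272) (.ev (nat_lit 5101) (nat_lit 128) .dd))))
 (.ch (nat_lit 8) (.ev (nat_lit 3696) (nat_lit 1328166136325760614400) (.ev (nat_lit 4372) (nat_lit 128) (.ev
 (nat_lit 4468) (nat_lit 65536) (.ev (nat_lit 4477) (nat_lit 262144) .dd))))))) (.br (nat_lit 14) (.br (nat_lit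
 11) (.ch (nat_lit 10) (.ev (nat_lit 3696) (nat_lit 147574515608349638784) (.ev (nat_lit 3709) (nat_lit
 1180591620717411303424) .dd))) (.ch (nat_lit 11) (.ev (nat_lit 3696) (nat_lit 1180592183736084201600) (.ev
 (nat_lit 3732) (nat_lit 262144) (.ev (nat_lit 4292) (nat_lit 65536) (.ev (nat_lit 4301) (nat_lit
 147573952589676412928) .dd)))))) (.br (nat_lit 15) (.ch (nat_lit 14) (.ev (nat_lit 3696) (nat_lit
 1328165573375807520896) (.ev (nat_lit 3709) (nat_lit 562949953421312) .dd))) (.br (nat_lit 16) (.ch (nat_lit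
 15) (.ev (nat_lit 3696) (nat_lit 1328166136325760680064) (.ev (nat_lit 3709) (nat_lit 262144) .dd))) (.ch
 (nat_lit 16) (.ev (nat_lit 3696) (nat_lit 147574515539629834368) (.ev (nat_lit 3712) (nat_lit 68719476736)
 (.ev (nat_lit 4468) (nat_lit 65536) (.ev (nat_lit 5412) (nat_lit 1180591620717411303424) (.ev (nat_lit 5421)
 (nat_lit 262144) .dd)))))))))) (.br (nat_lit 27) (.br (nat_lit 22) (.br (nat_lit 20) (.ch (nat_lit 18) (.ev
 (nat_lit 3696) (nat_lit 1328166136325760679936) (.ev (nat_lit 5012) (nat_lit 128) (.ev (nat_lit 5021) (nat_lit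
 262144) .dd)))) (.ch (nat_lit 20) (.ev (nat_lit 3696) (nat_lit 1180592183736084463616) (.ev (nat_lit 3780)
 (nat_lit 65536) (.ev (nat_lit 3860) (nat_lit 147573952589676412928) (.ev (nat_lit 3869) (nat_lit 128)
 .dd)))))) (.br (nat_lit 24) (.ch (nat_lit 22) (.ev (nat_lit 3696) (nat_lit 147573952658396217472) (.ev
 (nat_lit 3732) (nat_lit 1180591620717411303424) (.ev (nat_lit 3741) (nat_lit 562949953421312) .dd)))) (.ch
 (nat_lit 24) (.ev (nat_lit 3696) (nat_lit 562949953749120) (.ev (nat_lit 3732) (nat_lit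
 1180591620717411303424) (.ev (nat_lit 3780) (nat_lit 68719476736) (.ev (nat_lit 3789) (nat_lit
 147573952589676412928) .dd))))))) (.br (nat_lit 40) (.br (nat_lit 31) (.ch (nat_lit 27) (.ev (nat_lit 3696)
 (nat_lit 68719739008) (.ev (nat_lit 4832) (nat_lit 1180591620717411303424) (.ev (nat_lit 5700) (nat_lit 65536)
 (.ev (nat_lit 5712) (nat_lit 147574515539629834240) .dd))))) (.ch (nat_lit 31) (.ev (nat_lit 3696) (nat_lit
 1328166136325760942208) .dd))) (.br (nat_lit 43) (.ch (nat_lit 40) (.ev (nat_lit 3696) (nat_lit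
 147574515539630162048) (.ev (nat_lit 3732) (nat_lit 68719476736) (.ev (nat_lit 3741) (nat_lit
 1180591620717411303424) .dd)))) (.br (nat_lit 46) (.ch (nat_lit 43) (.ev (nat_lit 3696) (nat_lit
 1328166136325760679936) (.ev (nat_lit 3732) (nat_lit 128) (.ev (nat_lit 3741) (nat_lit 262144) .dd)))) (.ch
 (nat_lit 46) (.ev (nat_lit 3696) (nat_lit 1328166136325760876672) (.ev (nat_lit 3709) (nat_lit 65536)
 .dd))))))))))))))))))) (.br (nat_lit 47) (.br (nat_lit 44) (.br (nat_lit 43) (.ch (nat_lit 42) (.ev (nat_lit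
 52) (nat_lit 152187974864162783232) (.ev (nat_lit 884) (nat_lit 262144) (.ev (nat_lit 916) (nat_lit 2048) (.ev
 (nat_lit 1332) (nat_lit 590295810358705651712) (.ev (nat_lit 1556) (nat_lit 8) (.ev (nat_lit 2752) (nat_lit
 1180610338822690013312) .dd))))))) (.ch (nat_lit 43) (.ev (nat_lit 52) (nat_lit 147594224012836046848) (.ev
 (nat_lit 628) (nat_lit 8796093022208) (.ev (nat_lit 1236) (nat_lit 128) (.ev (nat_lit 1812) (nat_lit
 1180591620717411303424) (.ev (nat_lit 1940) (nat_lit 590295810358705651712) (.ev (nat_lit 3124) (nat_lit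
 68719476736) (.ev (nat_lit 3412) (nat_lit 70368744177664) (.nd (nat_lit 3680) (.br (nat_lit 21) (.br (nat_lit
 9) (.br (nat_lit 7) (.br (nat_lit 3) (.ch (nat_lit 1) (.ev (nat_lit 3696) (nat_lit 4612389723049033728) (.ev
 (nat_lit 3709) (nat_lit 8) .dd))) (.ch (nat_lit 3) (.ev (nat_lit 3696) (nat_lit 4612389723049033736) .dd)))
 (.br (nat_lit 8) (.ch (nat_lit 7) (.ev (nat_lit 3696) (nat_lit 562967133290504) (.ev (nat_lit 3780) (nat_lit
 140737488355328) (.ev (nat_lit 3789) (nat_lit 4611686018427387904) .dd)))) (.ch (nat_lit 8) (.ev (nat_lit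
 3696) (nat_lit 703704621645824) (.ev (nat_lit 3792) (nat_lit 4611686018427387904) (.ev (nat_lit 3805) (nat_lit
 8) .dd)))))) (.br (nat_lit 16) (.br (nat_lit 11) (.ch (nat_lit 9) (.ev (nat_lit 3696) (nat_lit
 4612389723049033728) (.ev (nat_lit 3709) (nat_lit 8) .dd))) (.ch (nat_lit 11) (.ev (nat_lit 3696) (nat_lit
 4611826773095612424) (.ev (nat_lit 3709) (nat_lit 562949953421312) .dd)))) (.br (nat_lit 19) (.ch (nat_lit 16)
 (.ev (nat_lit 3696) (nat_lit 4612389723049033728) (.ev (nat_lit 3709) (nat_lit 8) .dd))) (.br (nat_lit 20)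
 (.ch (nat_lit 19) (.ev (nat_lit 3696) (nat_lit 4612389705869164552) (.ev (nat_lit 3709) (nat_lit 17179869184)
 .dd))) (.ch (nat_lit 20) (.ev (nat_lit 3696) (nat_lit 4612389723049033736) .dd)))))) (.br (nat_lit 34) (.br
 (nat_lit 30) (.br (nat_lit 24) (.ch (nat_lit 21) (.ev (nat_lit 3696) (nat_lit 4611826773095612416) (.ev
 (nat_lit 3956) (nat_lit 8) (.ev (nat_lit 3965) (nat_lit 562949953421312) .dd)))) (.ch (nat_lit 24) (.ev
 (nat_lit 3696) (nat_lit 140754668224520) (.ev (nat_lit 5012) (nat_lit 4611686018427387904) (.ev (nat_lit 5021)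
 (nat_lit 562949953421312) .dd))))) (.br (nat_lit 31) (.ch (nat_lit 30) (.ev (nat_lit 3696) (nat_lit
 703704621645832) (.ev (nat_lit 3709) (nat_lit 4611686018427387904) .dd))) (.ch (nat_lit 31) (.ev (nat_lit
 3696) (nat_lit 703687441776648) (.ev (nat_lit 4564) (nat_lit 4611686018427387904) (.ev (nat_lit 4573) (nat_lit
 17179869184) .dd)))))) (.br (nat_lit 41) (.br (nat_lit 35) (.ch (nat_lit 34) (.ev (nat_lit 3696) (nat_lit
 4611686035607257088) (.ev (nat_lit 3744) (nat_lit 562949953421312) (.ev (nat_lit 3780) (nat_lit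
 140737488355328) (.ev (nat_lit 3789) (nat_lit 8) .dd))))) (.ch (nat_lit 35) (.ev (nat_lit 3696) (nat_lit
 4612248985560678408) (.ev (nat_lit 3709) (nat_lit 140737488355328) .dd)))) (.br (nat_lit 42) (.ch (nat_lit 41)
 (.ev (nat_lit 3696) (nat_lit 4612389723049033736) .dd)) (.br (nat_lit 46) (.ch (nat_lit 42) (.ev (nat_lit
 3696) (nat_lit 140754668224520) (.ev (nat_lit 3732) (nat_lit 4611686018427387904) (.ev (nat_lit 3741) (nat_lit
 562949953421312) .dd)))) (.ch (nat_lit 46) (.ev (nat_lit 3696) (nat_lit 562949953421312) (.ev (nat_lit 3732)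
 (nat_lit 8) (.ev (nat_lit 4932) (nat_lit 4611686018427387904) (.ev (nat_lit 5296) (nat_lit 140737488355328)
 (.ev (nat_lit 5309) (nat_lit 17179869184) .dd))))))))))))))))))))) (.br (nat_lit 46) (.ch (nat_lit 44) (.ev
 (nat_lit 52) (nat_lit 1185203382052385456136) (.ev (nat_lit 692) (nat_lit 147573952589676412928) (.ev (nat_lit
 980) (nat_lit 65536) (.ev (nat_lit 1460) (nat_lit 32768) (.ev (nat_lit 1844) (nat_lit 68719476736) (.ev
 (nat_lit 1876) (nat_lit 140737488355328) (.ev (nat_lit 2324) (nat_lit 2147483648) (.ev (nat_lit 3156) (nat_lit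
 2251799813685248) (.nd (nat_lit 3680) (.br (nat_lit 20) (.br (nat_lit 10) (.br (nat_lit 4) (.ch (nat_lit 3)
 (.ev (nat_lit 3696) (nat_lit 590313833570496415872) (.ev (nat_lit 4420) (nat_lit 274877906944) (.ev (nat_lit
 4429) (nat_lit 562949953421312) .dd)))) (.br (nat_lit 9) (.ch (nat_lit 4) (.ev (nat_lit 3696) (nat_lit
 590314387999226333184) (.ev (nat_lit 4420) (nat_lit 8388608) (.ev (nat_lit 4516) (nat_lit 128) (.ev (nat_lit
 4525) (nat_lit 8796093022208) .dd))))) (.ch (nat_lit 9) (.ev (nat_lit 3696) (nat_lit 590314396795327744128)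
 .dd)))) (.br (nat_lit 14) (.br (nat_lit 11) (.ch (nat_lit 10) (.ev (nat_lit 3696) (nat_lit 562967133290624)
 (.ev (nat_lit 3860) (nat_lit 274877906944) (.ev (nat_lit 4132) (nat_lit 2048) (.ev (nat_lit 5424) (nat_lit
 590295810358705651712) (.ev (nat_lit 5472) (nat_lit 8796093022208) (.ev (nat_lit 5552) (nat_lit 8388608) (.ev
 (nat_lit 5565) (nat_lit 18014398509481984) .dd)))))))) (.ch (nat_lit 11) (.ev (nat_lit 3696) (nat_lit
 590314387999234721792) (.ev (nat_lit 3732) (nat_lit 128) (.ev (nat_lit 3741) (nat_lit 8796093022208) .dd)))))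
 (.br (nat_lit 15) (.ch (nat_lit 14) (.ev (nat_lit 3696) (nat_lit 590314387982054850688) (.ev (nat_lit 3780)
 (nat_lit 8796093022208) (.ev (nat_lit 5664) (nat_lit 17179871232) .dd)))) (.ch (nat_lit 15) (.ev (nat_lit
 3696) (nat_lit 590296382379638390912) (.ev (nat_lit 3780) (nat_lit 17179869184) (.ev (nat_lit 4884) (nat_lit
 18014398509481984) (.ev (nat_lit 4893) (nat_lit 2048) .dd)))))))) (.br (nat_lit 41) (.br (nat_lit 27) (.br
 (nat_lit 24) (.ch (nat_lit 20) (.ev (nat_lit 3696) (nat_lit 590314387724348424320) (.ev (nat_lit 3984)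
 (nat_lit 274877906944) (.ev (nat_lit 5524) (nat_lit 2048) (.ev (nat_lit 5584) (nat_lit 8796093022208) (.ev
 (nat_lit 5597) (nat_lit 8388608) .dd)))))) (.ch (nat_lit 24) (.ev (nat_lit 3696) (nat_lit
 590313825049281298560) (.ev (nat_lit 3732) (nat_lit 562949953421312) (.ev (nat_lit 5056) (nat_lit 2048) (.ev
 (nat_lit 5069) (nat_lit 8796093022208) .dd)))))) (.br (nat_lit 32) (.ch (nat_lit 27) (.ev (nat_lit 3696)
 (nat_lit 572038112608384) (.ev (nat_lit 4820) (nat_lit 18014398509481984) (.ev (nat_lit 4832) (nat_lit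
 590295810358705651712) (.ev (nat_lit 4845) (nat_lit 2048) .dd))))) (.ch (nat_lit 32) (.ev (nat_lit 3696)
 (nat_lit 18586144564316288) (.ev (nat_lit 3732) (nat_lit 590295810358705651712) (.ev (nat_lit 3828) (nat_lit
 17179869184) (.ev (nat_lit 3837) (nat_lit 274877906944) .dd))))))) (.br (nat_lit 43) (.br (nat_lit 42) (.ch
 (nat_lit 41) (.ev (nat_lit 3696) (nat_lit 18586144564316288) (.ev (nat_lit 3780) (nat_lit 17179869184) (.ev
 (nat_lit 5412) (nat_lit 590295810358705651712) (.ev (nat_lit 5421) (nat_lit 274877906944) .dd))))) (.ch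
 (nat_lit 42) (.ev (nat_lit 3696) (nat_lit 590314387999234721920) (.ev (nat_lit 3709) (nat_lit 8796093022208)
 .dd)))) (.br (nat_lit 46) (.ch (nat_lit 43) (.ev (nat_lit 3696) (nat_lit 590314396795327744000) (.ev (nat_lit
 3709) (nat_lit 128) .dd))) (.ch (nat_lit 46) (.ev (nat_lit 3696) (nat_lit 590296382379630002304) (.ev (nat_lit
 3780) (nat_lit 2048) (.ev (nat_lit 3828) (nat_lit 8388608) (.ev (nat_lit 3956) (nat_lit 17179869184) (.ev
 (nat_lit 3965) (nat_lit 18014398509481984) .dd)))))))))))))))))))) (.ch (nat_lit 46) (.ev (nat_lit 52)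
 (nat_lit 1918480176589402570880) (.ev (nat_lit 2176) (nat_lit 4613947456156141576) .dd))))) (.br (nat_lit 49)
 (.br (nat_lit 48) (.ch (nat_lit 47) (.ev (nat_lit 52) (nat_lit 1770890254707884851336) (.ev (nat_lit 788)
 (nat_lit 65536) (.ev (nat_lit 948) (nat_lit 2048) (.ev (nat_lit 2208) (nat_lit 152203869337673793536) .dd)))))
 (.ch (nat_lit 48) (.ev (nat_lit 52) (nat_lit 147576349819238645768) (.ev (nat_lit 340) (nat_lit
 4611686018427387904) (.ev (nat_lit 852) (nat_lit 65536) (.ev (nat_lit 1684) (nat_lit 68719476736) (.ev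
 (nat_lit 2036) (nat_lit 18014398509481984) (.ev (nat_lit 2356) (nat_lit 590295810358705651712) (.ev (nat_lit
 3124) (nat_lit 562949953421312) (.ev (nat_lit 3476) (nat_lit 128) (.nd (nat_lit 3680) (.br (nat_lit 22) (.br
 (nat_lit 11) (.br (nat_lit 7) (.ch (nat_lit 4) (.ev (nat_lit 3696) (nat_lit 1180591700432004319232) (.ev
 (nat_lit 3709) (nat_lit 262144) .dd))) (.br (nat_lit 9) (.ch (nat_lit 7) (.ev (nat_lit 3696) (nat_lit
 1180591691635911557120) (.ev (nat_lit 5552) (nat_lit 8796093022208) (.ev (nat_lit 5565) (nat_lit 2048) .dd))))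
 (.ch (nat_lit 9) (.ev (nat_lit 3696) (nat_lit 9345849100288) (.ev (nat_lit 4132) (nat_lit
 1180591620717411303424) (.ev (nat_lit 4141) (nat_lit 70368744177664) .dd)))))) (.br (nat_lit 18) (.br (nat_lit
 14) (.ch (nat_lit 11) (.ev (nat_lit 3696) (nat_lit 1180591691635911559168) (.ev (nat_lit 3709) (nat_lit
 8796093022208) .dd))) (.ch (nat_lit 14) (.ev (nat_lit 3696) (nat_lit 1180591691635911559168) (.ev (nat_lit
 3709) (nat_lit 8796093022208) .dd)))) (.br (nat_lit 19) (.ch (nat_lit 18) (.ev (nat_lit 3696) (nat_lit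
 1180591621267167381504) (.ev (nat_lit 5412) (nat_lit 70368744177664) (.ev (nat_lit 5421) (nat_lit
 8796093022208) .dd)))) (.ch (nat_lit 19) (.ev (nat_lit 3696) (nat_lit 9345849098240) (.ev (nat_lit 3732)
 (nat_lit 70368744177664) (.ev (nat_lit 3936) (nat_lit 2048) (.ev (nat_lit 3949) (nat_lit
 1180591620717411303424) .dd)))))))) (.br (nat_lit 32) (.br (nat_lit 30) (.br (nat_lit 24) (.ch (nat_lit 22)
 (.ev (nat_lit 3696) (nat_lit 1180591630063260403712) (.ev (nat_lit 3709) (nat_lit 70368744177664) .dd))) (.ch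
 (nat_lit 24) (.ev (nat_lit 3696) (nat_lit 1180591699882248765440) (.ev (nat_lit 3732) (nat_lit 2048) (.ev
 (nat_lit 3741) (nat_lit 549755813888) .dd))))) (.br (nat_lit 31) (.ch (nat_lit 30) (.ev (nat_lit 3696)
 (nat_lit 1180591629513504589824) (.ev (nat_lit 4468) (nat_lit 549755813888) (.ev (nat_lit 4477) (nat_lit
 70368744177664) .dd)))) (.ch (nat_lit 31) (.ev (nat_lit 3696) (nat_lit 1180591700432004581376) .dd)))) (.br
 (nat_lit 40) (.br (nat_lit 34) (.ch (nat_lit 32) (.ev (nat_lit 3696) (nat_lit 9345849100288) (.ev (nat_lit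
 4884) (nat_lit 70368744177664) (.ev (nat_lit 4893) (nat_lit 1180591620717411303424) .dd)))) (.ch (nat_lit 34)
 (.ev (nat_lit 3696) (nat_lit 1180591691086155745280) (.ev (nat_lit 3732) (nat_lit 549755813888) (.ev (nat_lit
 3741) (nat_lit 8796093022208) .dd))))) (.br (nat_lit 43) (.ch (nat_lit 40) (.ev (nat_lit 3696) (nat_lit
 1180591700432004581376) .dd)) (.ch (nat_lit 43) (.ev (nat_lit 3696) (nat_lit 79714593277952) (.ev (nat_lit
 3709) (nat_lit 1180591620717411303424) .dd)))))))))))))))))) (.br (nat_lit 50) (.ch (nat_lit 49) (.ev (nat_lit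
 52) (nat_lit 742482020781575440512) (.ev (nat_lit 468) (nat_lit 140737488355328) (.ev (nat_lit 596) (nat_lit
 2251799813685248) (.ev (nat_lit 1140) (nat_lit 32768) (.ev (nat_lit 1428) (nat_lit 17179869184) (.ev (nat_lit
 2240) (nat_lit 1180609710709501329416) .dd))))))) (.br (nat_lit 52) (.ch (nat_lit 50) (.ev (nat_lit 52)
 (nat_lit 590314528515532587136) (.ev (nat_lit 372) (nat_lit 2251799813685248) (.ev (nat_lit 532) (nat_lit
 2048) (.ev (nat_lit 948) (nat_lit 1180591620717411303424) (.ev (nat_lit 2004) (nat_lit 8796093022208) (.ev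
 (nat_lit 2548) (nat_lit 4611686018427387904) (.ev (nat_lit 3252) (nat_lit 274877906944) (.ev (nat_lit 3668)
 (nat_lit 17179869184) (.nd (nat_lit 3680) (.br (nat_lit 21) (.br (nat_lit 11) (.br (nat_lit 8) (.br (nat_lit
 3) (.ch (nat_lit 1) (.ev (nat_lit 3696) (nat_lit 147574027906222948352) (.ev (nat_lit 3709) (nat_lit 8) .dd)))
 (.ch (nat_lit 3) (.ev (nat_lit 3696) (nat_lit 74766790721544) (.ev (nat_lit 3732) (nat_lit
 147573952589676412928) (.ev (nat_lit 3741) (nat_lit 549755813888) .dd))))) (.br (nat_lit 9) (.ch (nat_lit 8)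
 (.ev (nat_lit 3696) (nat_lit 147573957537478770688) (.ev (nat_lit 3732) (nat_lit 70368744177664) (.ev (nat_lit
 3741) (nat_lit 8) .dd)))) (.ch (nat_lit 9) (.ev (nat_lit 3696) (nat_lit 147573956987722956808) (.ev (nat_lit
 4832) (nat_lit 549755813888) (.ev (nat_lit 4845) (nat_lit 70368744177664) .dd)))))) (.br (nat_lit 15) (.br
 (nat_lit 14) (.ch (nat_lit 11) (.ev (nat_lit 3696) (nat_lit 147574022958420623368) (.ev (nat_lit 3732)
 (nat_lit 549755813888) (.ev (nat_lit 3741) (nat_lit 4398046511104) .dd)))) (.ch (nat_lit 14) (.ev (nat_lit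
 3696) (nat_lit 147574027906222915592) (.ev (nat_lit 3709) (nat_lit 32768) .dd)))) (.br (nat_lit 16) (.ch
 (nat_lit 15) (.ev (nat_lit 3696) (nat_lit 147573953139432259592) (.ev (nat_lit 3892) (nat_lit 70368744177664)
 (.ev (nat_lit 3901) (nat_lit 4398046511104) .dd)))) (.br (nat_lit 19) (.ch (nat_lit 16) (.ev (nat_lit 3696)
 (nat_lit 4398046543872) (.ev (nat_lit 3828) (nat_lit 147573952589676412928) (.ev (nat_lit 4884) (nat_lit
 70368744177664) (.ev (nat_lit 5712) (nat_lit 549755813896) .dd))))) (.ch (nat_lit 19) (.ev (nat_lit 3696)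
 (nat_lit 4947802325000) (.ev (nat_lit 5092) (nat_lit 70368744177664) (.ev (nat_lit 5104) (nat_lit
 147573952589676412928) (.ev (nat_lit 5117) (nat_lit 32768) .dd))))))))) (.br (nat_lit 32) (.br (nat_lit 24)
 (.br (nat_lit 22) (.ch (nat_lit 21) (.ev (nat_lit 3696) (nat_lit 147574027356467101704) (.ev (nat_lit 4752)
 (nat_lit 549755813888) (.ev (nat_lit 4765) (nat_lit 32768) .dd)))) (.ch (nat_lit 22) (.ev (nat_lit 3696)
 (nat_lit 147573957537478770688) (.ev (nat_lit 3732) (nat_lit 8) (.ev (nat_lit 3741) (nat_lit 70368744177664)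
 .dd))))) (.br (nat_lit 31) (.ch (nat_lit 24) (.ev (nat_lit 3696) (nat_lit 70368744210440) (.ev (nat_lit 3956)
 (nat_lit 147573952589676412928) (.ev (nat_lit 5392) (nat_lit 4398046511104) (.ev (nat_lit 5405) (nat_lit
 549755813888) .dd))))) (.ch (nat_lit 31) (.ev (nat_lit 3696) (nat_lit 147574027906222915592) (.ev (nat_lit
 3709) (nat_lit 32768) .dd))))) (.br (nat_lit 41) (.br (nat_lit 40) (.ch (nat_lit 32) (.ev (nat_lit 3696)
 (nat_lit 147573953139432226824) (.ev (nat_lit 5524) (nat_lit 4398046543872) (.ev (nat_lit 5533) (nat_lit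
 70368744177664) .dd)))) (.ch (nat_lit 40) (.ev (nat_lit 3696) (nat_lit 74766790721544) (.ev (nat_lit 5552)
 (nat_lit 147573952589676412928) (.ev (nat_lit 5565) (nat_lit 549755813888) .dd))))) (.br (nat_lit 42) (.ch
 (nat_lit 41) (.ev (nat_lit 3696) (nat_lit 147574027906222915584) (.ev (nat_lit 5472) (nat_lit 8) (.ev (nat_lit
 5485) (nat_lit 32768) .dd)))) (.br (nat_lit 46) (.ch (nat_lit 42) (.ev (nat_lit 3696) (nat_lit
 147574023508176437248) (.ev (nat_lit 3732) (nat_lit 8) (.ev (nat_lit 3741) (nat_lit 4398046511104) .dd))))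
 (.ch (nat_lit 46) (.ev (nat_lit 3696) (nat_lit 147574027906222948352) (.ev (nat_lit 3709) (nat_lit 8)
 .dd)))))))))))))))))) (.ch (nat_lit 52) (.ev (nat_lit 52) (nat_lit 2261162851106952) (.ev (nat_lit 116)
 (nat_lit 4398046511104) (.ev (nat_lit 1556) (nat_lit 2147483648) (.ev (nat_lit 1844) (nat_lit 562949953421312)
 (.ev (nat_lit 1908) (nat_lit 70368744177664) (.ev (nat_lit 3188) (nat_lit 274877906944) (.ev (nat_lit 3412)
 (nat_lit 18014398509481984) (.ev (nat_lit 3604) (nat_lit 140737488355328) (.nd (nat_lit 3680) (.br (nat_lit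
 15) (.br (nat_lit 7) (.br (nat_lit 3) (.ch (nat_lit 1) (.ev (nat_lit 3696) (nat_lit 1328165573375807225856)
 (.ev (nat_lit 3780) (nat_lit 2048) (.ev (nat_lit 5472) (nat_lit 4611686018427387904) (.ev (nat_lit 5485)
 (nat_lit 590295810358705651712) .dd))))) (.br (nat_lit 4) (.ch (nat_lit 3) (.ev (nat_lit 3696) (nat_lit
 1770887431144836466688) (.ev (nat_lit 5200) (nat_lit 147573952589676412928) (.ev (nat_lit 5213) (nat_lit
 4611686018427387904) .dd)))) (.ch (nat_lit 4) (.ev (nat_lit 3696) (nat_lit 1923073069684220788736) (.ev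
 (nat_lit 3780) (nat_lit 68719476736) (.ev (nat_lit 3789) (nat_lit 2048) .dd)))))) (.br (nat_lit 9) (.ch
 (nat_lit 7) (.ev (nat_lit 3696) (nat_lit 1923073069752940265472) (.ev (nat_lit 3709) (nat_lit 2048) .dd)))
 (.br (nat_lit 10) (.ch (nat_lit 9) (.ev (nat_lit 3696) (nat_lit 742481448966809454592) (.ev (nat_lit 3780)
 (nat_lit 32768) (.ev (nat_lit 5744) (nat_lit 68719476736) (.ev (nat_lit 5757) (nat_lit 1180591620717411303424)
 .dd))))) (.ch (nat_lit 10) (.ev (nat_lit 3696) (nat_lit 1332777259394234583040) (.ev (nat_lit 4292) (nat_lit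
 32768) (.ev (nat_lit 4301) (nat_lit 590295810358705651712) .dd))))))) (.br (nat_lit 21) (.br (nat_lit 18) (.ch
 (nat_lit 15) (.ev (nat_lit 3696) (nat_lit 1328165573375807225856) (.ev (nat_lit 3780) (nat_lit 2048) (.ev
 (nat_lit 5728) (nat_lit 594907496377133039616) .dd)))) (.br (nat_lit 19) (.ch (nat_lit 18) (.ev (nat_lit 3696)
 (nat_lit 1775499117163263821824) (.ev (nat_lit 3732) (nat_lit 147573952589676412928) (.ev (nat_lit 3741)
 (nat_lit 32768) .dd)))) (.ch (nat_lit 19) (.ev (nat_lit 3696) (nat_lit 1332777259394234583040) (.ev (nat_lit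
 4644) (nat_lit 32768) (.ev (nat_lit 4653) (nat_lit 590295810358705651712) .dd)))))) (.br (nat_lit 43) (.br
 (nat_lit 27) (.ch (nat_lit 21) (.ev (nat_lit 3696) (nat_lit 742481449035528931328) (.ev (nat_lit 3780)
 (nat_lit 1180591620717411303424) (.ev (nat_lit 3789) (nat_lit 32768) .dd)))) (.ch (nat_lit 27) (.ev (nat_lit
 3696) (nat_lit 1332777259394234615808) (.ev (nat_lit 3709) (nat_lit 590295810358705651712) .dd)))) (.br
 (nat_lit 46) (.ch (nat_lit 43) (.ev (nat_lit 3696) (nat_lit 1918461383665793402880) (.ev (nat_lit 3732)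
 (nat_lit 68719476736) (.ev (nat_lit 3741) (nat_lit 4611686018427387904) .dd)))) (.ch (nat_lit 46) (.ev
 (nat_lit 3696) (nat_lit 1328165573375807193088) (.ev (nat_lit 3732) (nat_lit 4611686018427389952) (.ev
 (nat_lit 5120) (nat_lit 32768) (.ev (nat_lit 5133) (nat_lit 590295810358705651712)
 .dd)))))))))))))))))))))))))))

/-- Subtrie. -/
noncomputable def T12 : Tr := (.ev (nat_lit 20) (nat_lit 1476173521553151230352) (.nd (nat_lit 33) (.br
 (nat_lit 31) (.br (nat_lit 16) (.br (nat_lit 10) (.br (nat_lit 6) (.br (nat_lit 5) (.ch (nat_lit 4) (.ev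
 (nat_lit 52) (nat_lit 627191550334392598560) (.ev (nat_lit 160) (nat_lit 170695996095282649098) .dd))) (.ch
 (nat_lit 5) (.ev (nat_lit 52) (nat_lit 645681641536798953474) (.ev (nat_lit 820) (nat_lit 2251799814209536)
 (.ev (nat_lit 884) (nat_lit 68719476736) (.ev (nat_lit 1972) (nat_lit 4194304) (.ev (nat_lit 2420) (nat_lit 8)
 (.ev (nat_lit 2836) (nat_lit 17179869184) (.ev (nat_lit 3220) (nat_lit 8388608) (.nd (nat_lit 3680) (.br
 (nat_lit 31) (.br (nat_lit 8) (.br (nat_lit 4) (.br (nat_lit 3) (.ch (nat_lit 2) (.ev (nat_lit 3696) (nat_lit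
 4629700417473740832) (.ev (nat_lit 3780) (nat_lit 2048) (.ev (nat_lit 3789) (nat_lit 147573952589676412928)
 .dd)))) (.ch (nat_lit 3) (.ev (nat_lit 3696) (nat_lit 152203653007150155808) .dd))) (.br (nat_lit 7) (.ch
 (nat_lit 4) (.ev (nat_lit 3696) (nat_lit 152203653007150155808) .dd)) (.ch (nat_lit 7) (.ev (nat_lit 3696)
 (nat_lit 147573952590213285920) (.ev (nat_lit 3732) (nat_lit 18014398509481984) (.ev (nat_lit 3741) (nat_lit
 4611686018427387904) .dd)))))) (.br (nat_lit 13) (.br (nat_lit 9) (.ch (nat_lit 8) (.ev (nat_lit 3696)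
 (nat_lit 147573952590213283872) (.ev (nat_lit 3732) (nat_lit 4611686018427387904) (.ev (nat_lit 5744) (nat_lit
 2048) (.ev (nat_lit 5757) (nat_lit 18014398509481984) .dd))))) (.ch (nat_lit 9) (.ev (nat_lit 3696) (nat_lit
 152185638608640673824) (.ev (nat_lit 3709) (nat_lit 18014398509481984) .dd)))) (.br (nat_lit 23) (.ch (nat_lit
 13) (.ev (nat_lit 3696) (nat_lit 152185638608640673824) (.ev (nat_lit 3709) (nat_lit 18014398509481984) .dd)))
 (.br (nat_lit 24) (.ch (nat_lit 23) (.ev (nat_lit 3696) (nat_lit 152203653006613284896) (.ev (nat_lit 3709)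
 (nat_lit 536870912) .dd))) (.ch (nat_lit 24) (.ev (nat_lit 3696) (nat_lit 4629700417473742880) (.ev (nat_lit
 3709) (nat_lit 147573952589676412928) .dd))))))) (.br (nat_lit 37) (.br (nat_lit 35) (.br (nat_lit 32) (.ch
 (nat_lit 31) (.ev (nat_lit 3696) (nat_lit 152185638608640673792) (.ev (nat_lit 5700) (nat_lit 32) (.ev
 (nat_lit 5709) (nat_lit 18014398509481984) .dd)))) (.ch (nat_lit 32) (.ev (nat_lit 3696) (nat_lit
 4611686018964260864) (.ev (nat_lit 3732) (nat_lit 32) (.ev (nat_lit 3780) (nat_lit 147573952589676412928) (.ev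
 (nat_lit 3789) (nat_lit 18014398509481984) .dd)))))) (.br (nat_lit 36) (.ch (nat_lit 35) (.ev (nat_lit 3696)
 (nat_lit 4629700416936871936) (.ev (nat_lit 3732) (nat_lit 536870912) (.ev (nat_lit 4036) (nat_lit
 147573952589676412928) (.ev (nat_lit 4045) (nat_lit 32) .dd))))) (.ch (nat_lit 36) (.ev (nat_lit 3696)
 (nat_lit 152203653007150153760) (.ev (nat_lit 3709) (nat_lit 2048) .dd))))) (.br (nat_lit 40) (.br (nat_lit
 39) (.ch (nat_lit 37) (.ev (nat_lit 3696) (nat_lit 152203653007150155808) .dd)) (.ch (nat_lit 39) (.ev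
 (nat_lit 3696) (nat_lit 152203653007150153760) (.ev (nat_lit 3709) (nat_lit 2048) .dd)))) (.br (nat_lit 41)
 (.ch (nat_lit 40) (.ev (nat_lit 3696) (nat_lit 152185638608640673824) (.ev (nat_lit 3709) (nat_lit
 18014398509481984) .dd))) (.br (nat_lit 43) (.ch (nat_lit 41) (.ev (nat_lit 3696) (nat_lit
 147591966988722767904) (.ev (nat_lit 3709) (nat_lit 4611686018427387904) .dd))) (.ch (nat_lit 43) (.ev
 (nat_lit 3696) (nat_lit 152203653007150153728) (.ev (nat_lit 5524) (nat_lit 32) (.ev (nat_lit 5533) (nat_lit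
 2048) .dd))))))))))))))))))) (.br (nat_lit 9) (.ch (nat_lit 6) (.ev (nat_lit 52) (nat_lit
 756325514301348550666) (.ev (nat_lit 756) (nat_lit 18014398509481984) (.ev (nat_lit 1524) (nat_lit
 562949953421312) (.ev (nat_lit 1908) (nat_lit 4194304) (.nd (nat_lit 3680) (.br (nat_lit 18) (.br (nat_lit 11)
 (.br (nat_lit 8) (.ch (nat_lit 3) (.ev (nat_lit 3696) (nat_lit 4649966632440496128) (.ev (nat_lit 3732)
 (nat_lit 32) (.ev (nat_lit 3741) (nat_lit 36893488147419103232) .dd)))) (.br (nat_lit 9) (.ch (nat_lit 8) (.ev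
 (nat_lit 3696) (nat_lit 41543454779859009568) (.ev (nat_lit 3828) (nat_lit 65536) (.ev (nat_lit 3837) (nat_lit
 524288) .dd)))) (.ch (nat_lit 9) (.ev (nat_lit 3696) (nat_lit 4649966615260626976) (.ev (nat_lit 5536)
 (nat_lit 36893488147419103232) (.ev (nat_lit 5549) (nat_lit 17179869184) .dd)))))) (.br (nat_lit 13) (.br
 (nat_lit 12) (.ch (nat_lit 11) (.ev (nat_lit 3696) (nat_lit 41541202962865455104) (.ev (nat_lit 3732) (nat_lit
 2251799813685280) (.ev (nat_lit 5760) (nat_lit 17179869184) (.ev (nat_lit 5776) (nat_lit 524288) (.ev (nat_lit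
 5789) (nat_lit 65536) .dd)))))) (.ch (nat_lit 12) (.ev (nat_lit 3696) (nat_lit 36895739947233378336) (.ev
 (nat_lit 3780) (nat_lit 4611686018427387904) (.ev (nat_lit 5248) (nat_lit 17179869184) (.ev (nat_lit 5261)
 (nat_lit 36028797018963968) .dd)))))) (.br (nat_lit 16) (.ch (nat_lit 13) (.ev (nat_lit 3696) (nat_lit
 38280614013042720) (.ev (nat_lit 5700) (nat_lit 36893488147419103232) (.ev (nat_lit 5728) (nat_lit
 4611686018427453440) .dd)))) (.ch (nat_lit 16) (.ev (nat_lit 3696) (nat_lit 41541202980045389824) (.ev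
 (nat_lit 4772) (nat_lit 32) (.ev (nat_lit 5268) (nat_lit 524288) (.ev (nat_lit 5277) (nat_lit
 2251799813685248) .dd)))))))) (.br (nat_lit 34) (.br (nat_lit 28) (.br (nat_lit 24) (.ch (nat_lit 18) (.ev
 (nat_lit 3696) (nat_lit 36893488164599562272) (.ev (nat_lit 3828) (nat_lit 2251799813685248) (.ev (nat_lit
 5792) (nat_lit 4647714815446351872) .dd)))) (.ch (nat_lit 24) (.ev (nat_lit 3696) (nat_lit
 41543454762679664672) (.ev (nat_lit 3732) (nat_lit 65536) (.ev (nat_lit 3741) (nat_lit 17179869184) .dd)))))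
 (.br (nat_lit 32) (.ch (nat_lit 28) (.ev (nat_lit 3696) (nat_lit 41543454779859075072) (.ev (nat_lit 5172)
 (nat_lit 32) (.ev (nat_lit 5181) (nat_lit 524288) .dd)))) (.ch (nat_lit 32) (.ev (nat_lit 3696) (nat_lit
 36929516961618526240) (.ev (nat_lit 5424) (nat_lit 4611686018427387904) (.ev (nat_lit 5437) (nat_lit
 2251799813685248) .dd)))))) (.br (nat_lit 37) (.br (nat_lit 35) (.ch (nat_lit 34) (.ev (nat_lit 3696) (nat_lit
 41543454779859599392) .dd)) (.ch (nat_lit 35) (.ev (nat_lit 3696) (nat_lit 41543454779859599392) .dd))) (.br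
 (nat_lit 44) (.ch (nat_lit 37) (.ev (nat_lit 3696) (nat_lit 36929516944438591488) (.ev (nat_lit 3732) (nat_lit
 2251799813685248) (.ev (nat_lit 3892) (nat_lit 4611686018427387904) (.ev (nat_lit 3956) (nat_lit 65536) (.ev
 (nat_lit 5524) (nat_lit 32) (.ev (nat_lit 5533) (nat_lit 17179869184) .dd))))))) (.ch (nat_lit 44) (.ev
 (nat_lit 3696) (nat_lit 41541202962865979392) (.ev (nat_lit 3732) (nat_lit 2251799813750784) (.ev (nat_lit
 5412) (nat_lit 17179869184) (.ev (nat_lit 5421) (nat_lit 32) .dd))))))))))))))) (.ch (nat_lit 9) (.ev (nat_lit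
 52) (nat_lit 4675299434043576328) (.ev (nat_lit 404) (nat_lit 590295810358705651712) (.ev (nat_lit 1076)
 (nat_lit 18446744073709551616) (.ev (nat_lit 1524) (nat_lit 32) (.ev (nat_lit 2068) (nat_lit 2) (.ev (nat_lit
 2260) (nat_lit 536870912) (.ev (nat_lit 3348) (nat_lit 17179934720) (.nd (nat_lit 3680) (.br (nat_lit 28) (.br
 (nat_lit 9) (.br (nat_lit 3) (.ch (nat_lit 2) (.ev (nat_lit 3828) (nat_lit 8589934592) (.ev (nat_lit 5632)
 (nat_lit 2251799814209536) (.ev (nat_lit 5664) (nat_lit 36893488147419103232) (.fin (nat_lit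
 576473396688667207)))))) (.br (nat_lit 8) (.ch (nat_lit 3) (.ev (nat_lit 3696) (nat_lit 184469692545499662336)
 .dd)) (.ch (nat_lit 8) (.ev (nat_lit 3696) (nat_lit 184469692545499660288) (.ev (nat_lit 3709) (nat_lit 2048)
 .dd))))) (.br (nat_lit 17) (.br (nat_lit 12) (.ch (nat_lit 9) (.ev (nat_lit 3696) (nat_lit
 184469692545499662336) .dd)) (.ch (nat_lit 12) (.ev (nat_lit 3696) (nat_lit 184469692545499662336) .dd))) (.br
 (nat_lit 24) (.ch (nat_lit 17) (.ev (nat_lit 3696) (nat_lit 2251808404146176) (.ev (nat_lit 3732) (nat_lit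
 147573952589676412928) (.ev (nat_lit 3741) (nat_lit 36893488147419103232) .dd)))) (.ch (nat_lit 24) (.ev
 (nat_lit 3696) (nat_lit 36895739955823249408) (.ev (nat_lit 3709) (nat_lit 147573952589676412928) .dd))))))
 (.br (nat_lit 39) (.br (nat_lit 34) (.br (nat_lit 32) (.ch (nat_lit 28) (.ev (nat_lit 3696) (nat_lit
 36895739947232790528) (.ev (nat_lit 3732) (nat_lit 147573952589676412928) (.ev (nat_lit 3840) (nat_lit 524288)
 (.ev (nat_lit 3853) (nat_lit 8589934592) .dd))))) (.ch (nat_lit 32) (.ev (nat_lit 3696) (nat_lit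
 36895739955823249408) (.ev (nat_lit 3709) (nat_lit 147573952589676412928) .dd)))) (.br (nat_lit 36) (.ch
 (nat_lit 34) (.ev (nat_lit 3696) (nat_lit 184469692545499662336) .dd)) (.ch (nat_lit 36) (.ev (nat_lit 3696)
 (nat_lit 147573952598266871808) (.ev (nat_lit 3732) (nat_lit 2048) (.ev (nat_lit 3840) (nat_lit
 2251799813685248) (.ev (nat_lit 3853) (nat_lit 36893488147419103232) .dd))))))) (.br (nat_lit 41) (.br
 (nat_lit 40) (.ch (nat_lit 39) (.ev (nat_lit 3696) (nat_lit 184469692536909725696) (.ev (nat_lit 4852)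
 (nat_lit 2048) (.ev (nat_lit 4861) (nat_lit 8589934592) .dd)))) (.ch (nat_lit 40) (.ev (nat_lit 3696) (nat_lit
 184469692545499662336) .dd))) (.br (nat_lit 44) (.ch (nat_lit 41) (.ev (nat_lit 3696) (nat_lit
 184469692545499662336) .dd)) (.ch (nat_lit 44) (.ev (nat_lit 3696) (nat_lit 184469692545499660288) (.ev
 (nat_lit 3709) (nat_lit 2048) .dd)))))))))))))))))) (.br (nat_lit 12) (.br (nat_lit 11) (.ch (nat_lit 10) (.ev
 (nat_lit 52) (nat_lit 23106280924077162536) (.ev (nat_lit 340) (nat_lit 2048) (.ev (nat_lit 820) (nat_lit 2)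
 (.ev (nat_lit 916) (nat_lit 4194304) (.ev (nat_lit 980) (nat_lit 4096) (.ev (nat_lit 2304) (nat_lit
 774781265505593884672) .dd))))))) (.ch (nat_lit 11) (.ev (nat_lit 52) (nat_lit 774763814114483050506) (.ev
 (nat_lit 84) (nat_lit 17179869184) (.ev (nat_lit 660) (nat_lit 32) (.ev (nat_lit 1108) (nat_lit
 36028797018963968) (.ev (nat_lit 2004) (nat_lit 18014398509481984) (.ev (nat_lit 2036) (nat_lit 2147483648)
 (.ev (nat_lit 2644) (nat_lit 9007199254740992) (.nd (nat_lit 3680) (.br (nat_lit 29) (.br (nat_lit 11) (.br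
 (nat_lit 9) (.ch (nat_lit 4) (.ev (nat_lit 3696) (nat_lit 23060681892491722752) (.ev (nat_lit 3709) (nat_lit
 8589934592) .dd))) (.br (nat_lit 10) (.ch (nat_lit 9) (.ev (nat_lit 3696) (nat_lit 4613937827367911424) (.ev
 (nat_lit 3780) (nat_lit 4194304) (.ev (nat_lit 3789) (nat_lit 18446744073709551616) .dd)))) (.ch (nat_lit 10)
 (.ev (nat_lit 3696) (nat_lit 23060681901081624576) (.ev (nat_lit 3709) (nat_lit 32768) .dd))))) (.br (nat_lit
 23) (.br (nat_lit 12) (.ch (nat_lit 11) (.ev (nat_lit 3696) (nat_lit 4613937827372105728) (.ev (nat_lit 3709)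
 (nat_lit 18446744073709551616) .dd))) (.ch (nat_lit 12) (.ev (nat_lit 3696) (nat_lit 4613937826831007744) (.ev
 (nat_lit 3956) (nat_lit 536870912) (.ev (nat_lit 3984) (nat_lit 4194304) (.ev (nat_lit 5268) (nat_lit 32768)
 (.ev (nat_lit 5277) (nat_lit 18446744073709551616) .dd))))))) (.br (nat_lit 28) (.ch (nat_lit 23) (.ev
 (nat_lit 3696) (nat_lit 23060681900544786432) (.ev (nat_lit 3709) (nat_lit 536870912) .dd))) (.ch (nat_lit 28)
 (.ev (nat_lit 3696) (nat_lit 18448995874064334848) (.ev (nat_lit 3968) (nat_lit 4611686018427387904) (.ev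
 (nat_lit 3981) (nat_lit 8589934592) .dd))))))) (.br (nat_lit 39) (.br (nat_lit 32) (.br (nat_lit 31) (.ch
 (nat_lit 29) (.ev (nat_lit 3696) (nat_lit 18448995882654269440) (.ev (nat_lit 3709) (nat_lit
 4611686018427387904) .dd))) (.ch (nat_lit 31) (.ev (nat_lit 3696) (nat_lit 23060681901081657344) .dd))) (.br
 (nat_lit 36) (.ch (nat_lit 32) (.ev (nat_lit 3696) (nat_lit 18446744082836389888) (.ev (nat_lit 5700) (nat_lit
 4194304) (.ev (nat_lit 5712) (nat_lit 4611686018427387904) (.ev (nat_lit 5725) (nat_lit 2251799813685248)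
 .dd))))) (.ch (nat_lit 36) (.ev (nat_lit 3696) (nat_lit 4613937818782171136) (.ev (nat_lit 4736) (nat_lit
 18446744073709551616) (.ev (nat_lit 4749) (nat_lit 8589934592) .dd)))))) (.br (nat_lit 43) (.br (nat_lit 40)
 (.ch (nat_lit 39) (.ev (nat_lit 3696) (nat_lit 4611686027554226176) (.ev (nat_lit 3732) (nat_lit 4194304) (.ev
 (nat_lit 5412) (nat_lit 18446744073709551616) (.ev (nat_lit 5421) (nat_lit 2251799813685248) .dd))))) (.ch
 (nat_lit 40) (.ev (nat_lit 3696) (nat_lit 18448995882654269440) (.ev (nat_lit 3709) (nat_lit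
 4611686018427387904) .dd)))) (.br (nat_lit 44) (.ch (nat_lit 43) (.ev (nat_lit 3696) (nat_lit
 23058430092141166592) (.ev (nat_lit 4576) (nat_lit 2251799813685248) (.ev (nat_lit 5840) (nat_lit 8589934592)
 (.ev (nat_lit 5853) (nat_lit 536870912) .dd))))) (.ch (nat_lit 44) (.ev (nat_lit 3696) (nat_lit
 18446744082836389888) (.ev (nat_lit 3780) (nat_lit 4611686018427387904) (.ev (nat_lit 4468) (nat_lit 4194304)
 (.ev (nat_lit 4477) (nat_lit 2251799813685248) .dd))))))))))))))))))) (.br (nat_lit 15) (.ch (nat_lit 12) (.ev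
 (nat_lit 52) (nat_lit 170680233505171963914) (.ev (nat_lit 532) (nat_lit 2147483648) (.ev (nat_lit 756)
 (nat_lit 17179934720) (.ev (nat_lit 1748) (nat_lit 524288) (.ev (nat_lit 2388) (nat_lit 32768) (.ev (nat_lit
 2420) (nat_lit 4194304) (.ev (nat_lit 2772) (nat_lit 536870912) (.ev (nat_lit 2804) (nat_lit
 18014398509481984) (.nd (nat_lit 3680) (.br (nat_lit 16) (.br (nat_lit 9) (.br (nat_lit 7) (.br (nat_lit 4)
 (.ch (nat_lit 3) (.ev (nat_lit 3696) (nat_lit 2080) (.ev (nat_lit 3828) (nat_lit 36893488147419103232) (.ev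
 (nat_lit 4884) (nat_lit 590295810358705651712) (.ev (nat_lit 4893) (nat_lit 4096) .dd))))) (.ch (nat_lit 4)
 (.ev (nat_lit 3696) (nat_lit 590295810358705657888) (.ev (nat_lit 3709) (nat_lit 36893488147419103232) .dd))))
 (.br (nat_lit 8) (.ch (nat_lit 7) (.ev (nat_lit 3696) (nat_lit 627189298506124754976) (.ev (nat_lit 5524)
 (nat_lit 2048) (.ev (nat_lit 5533) (nat_lit 4096) .dd)))) (.ch (nat_lit 8) (.ev (nat_lit 3696) (nat_lit
 627189298506124761120) .dd)))) (.br (nat_lit 12) (.br (nat_lit 11) (.ch (nat_lit 9) (.ev (nat_lit 3696)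
 (nat_lit 627189298506124761088) (.ev (nat_lit 3709) (nat_lit 32) .dd))) (.ch (nat_lit 11) (.ev (nat_lit 3696)
 (nat_lit 590295810358705657856) (.ev (nat_lit 3732) (nat_lit 36893488147419103232) (.ev (nat_lit 3741)
 (nat_lit 32) .dd))))) (.br (nat_lit 13) (.ch (nat_lit 12) (.ev (nat_lit 3696) (nat_lit 627189298506124761088)
 (.ev (nat_lit 3709) (nat_lit 32) .dd))) (.ch (nat_lit 13) (.ev (nat_lit 3696) (nat_lit 627189298506124757024)
 (.ev (nat_lit 3709) (nat_lit 4096) .dd)))))) (.br (nat_lit 35) (.br (nat_lit 28) (.br (nat_lit 17) (.ch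
 (nat_lit 16) (.ev (nat_lit 3696) (nat_lit 590295810358705655840) (.ev (nat_lit 3892) (nat_lit 2048) (.ev
 (nat_lit 3901) (nat_lit 36893488147419103232) .dd)))) (.ch (nat_lit 17) (.ev (nat_lit 3696) (nat_lit
 627189298506124761120) .dd))) (.br (nat_lit 29) (.ch (nat_lit 28) (.ev (nat_lit 3696) (nat_lit
 627189298506124759072) (.ev (nat_lit 3709) (nat_lit 2048) .dd))) (.ch (nat_lit 29) (.ev (nat_lit 3696)
 (nat_lit 590295810358705653792) (.ev (nat_lit 3828) (nat_lit 36893488147419103232) (.ev (nat_lit 3837)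
 (nat_lit 4096) .dd)))))) (.br (nat_lit 43) (.br (nat_lit 41) (.ch (nat_lit 35) (.ev (nat_lit 3696) (nat_lit
 36893488147419109376) (.ev (nat_lit 3792) (nat_lit 590295810358705651712) (.ev (nat_lit 3805) (nat_lit 32)
 .dd)))) (.ch (nat_lit 41) (.ev (nat_lit 3696) (nat_lit 590295810358705657888) (.ev (nat_lit 3709) (nat_lit
 36893488147419103232) .dd)))) (.br (nat_lit 44) (.ch (nat_lit 43) (.ev (nat_lit 3732) (nat_lit
 36893488147419103232) (.ev (nat_lit 3860) (nat_lit 590295810358705651712) (.ev (nat_lit 5412) (nat_lit 2048)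
 (.ev (nat_lit 5712) (nat_lit 4096) (.ev (nat_lit 5725) (nat_lit 32) .dd)))))) (.ch (nat_lit 44) (.ev (nat_lit
 3696) (nat_lit 627189298506124759040) (.ev (nat_lit 5524) (nat_lit 32) (.ev (nat_lit 5533) (nat_lit 2048)
 .dd)))))))))))))))))) (.ch (nat_lit 15) (.ev (nat_lit 52) (nat_lit 4630263453331265544) (.ev (nat_lit 724)
 (nat_lit 2147483648) (.ev (nat_lit 1204) (nat_lit 9007199254740992) (.ev (nat_lit 1460) (nat_lit 8589934592)
 (.ev (nat_lit 2112) (nat_lit 793248275766351822882) .dd))))))))) (.br (nat_lit 22) (.br (nat_lit 18) (.br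
 (nat_lit 17) (.ch (nat_lit 16) (.ev (nat_lit 52) (nat_lit 55396527218618865664) (.ev (nat_lit 672) (nat_lit
 742491019211056381994) .dd))) (.ch (nat_lit 17) (.ev (nat_lit 52) (nat_lit 189106148370476011562) (.ev
 (nat_lit 372) (nat_lit 36028797018963968) (.ev (nat_lit 1652) (nat_lit 18446744073709551616) (.ev (nat_lit
 2132) (nat_lit 8589934592) (.ev (nat_lit 2944) (nat_lit 590298625179880785920) .dd))))))) (.br (nat_lit 21)
 (.ch (nat_lit 18) (.ev (nat_lit 52) (nat_lit 631800984527237126144) (.ev (nat_lit 532) (nat_lit 8) (.ev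
 (nat_lit 852) (nat_lit 18446744073709551616) (.ev (nat_lit 1268) (nat_lit 8388608) (.ev (nat_lit 1760)
 (nat_lit 147639817828720181282) .dd)))))) (.ch (nat_lit 21) (.ev (nat_lit 52) (nat_lit 590316076576356761640)
 (.ev (nat_lit 212) (nat_lit 18446744073709551616) (.ev (nat_lit 948) (nat_lit 68719476736) (.ev (nat_lit 1524)
 (nat_lit 36893488147419103232) (.ev (nat_lit 2228) (nat_lit 562950490292224) (.ev (nat_lit 2292) (nat_lit
 4194304) (.ev (nat_lit 2612) (nat_lit 2) (.ev (nat_lit 2676) (nat_lit 32768) (.ev (nat_lit 2964) (nat_lit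
 8589934592) (.ev (nat_lit 3156) (nat_lit 36028797018963968) (.ev (nat_lit 3316) (nat_lit 4611686018427387904)
 (.ev (nat_lit 3380) (nat_lit 9007199254740992) (.nd (nat_lit 3680) (.br (nat_lit 24) (.br (nat_lit 12) (.br
 (nat_lit 8) (.ch (nat_lit 2) (.ev (nat_lit 3696) (nat_lit 8392704) (.fin (nat_lit 576473396688667207)))) (.br
 (nat_lit 11) (.ch (nat_lit 8) (.ev (nat_lit 3696) (nat_lit 8392704) (.ev (nat_lit 3732) (nat_lit 2048) (.ev
 (nat_lit 3741) (nat_lit 147573952589676412928) .dd)))) (.ch (nat_lit 11) (.ev (nat_lit 3696) (nat_lit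
 147573952589684803584) (.ev (nat_lit 3709) (nat_lit 4096) .dd))))) (.br (nat_lit 18) (.br (nat_lit 16) (.ch
 (nat_lit 12) (.ev (nat_lit 3696) (nat_lit 147573952589676419072) (.ev (nat_lit 3709) (nat_lit 8388608) .dd)))
 (.ch (nat_lit 16) (.ev (nat_lit 3696) (nat_lit 147573952589676419072) (.ev (nat_lit 3709) (nat_lit 8388608)
 .dd)))) (.br (nat_lit 23) (.ch (nat_lit 18) (.ev (nat_lit 3696) (nat_lit 147573952589684807680) .dd)) (.ch
 (nat_lit 23) (.ev (nat_lit 3696) (nat_lit 8392704) (.ev (nat_lit 3732) (nat_lit 2048) (.ev (nat_lit 3741)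
 (nat_lit 147573952589676412928) .dd))))))) (.br (nat_lit 36) (.br (nat_lit 31) (.br (nat_lit 29) (.ch (nat_lit
 24) (.ev (nat_lit 3696) (nat_lit 2048) (.ev (nat_lit 3780) (nat_lit 147573952589676412928) (.ev (nat_lit 5712)
 (nat_lit 4096) (.ev (nat_lit 5725) (nat_lit 8388608) .dd))))) (.ch (nat_lit 29) (.ev (nat_lit 3696) (nat_lit
 147573952589676414976) (.ev (nat_lit 3956) (nat_lit 8388608) (.ev (nat_lit 3965) (nat_lit 4096) .dd))))) (.br
 (nat_lit 35) (.ch (nat_lit 31) (.ev (nat_lit 3696) (nat_lit 8390656) (.ev (nat_lit 3732) (nat_lit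
 147573952589676412928) (.ev (nat_lit 3741) (nat_lit 4096) .dd)))) (.ch (nat_lit 35) (.ev (nat_lit 3696)
 (nat_lit 8390656) (.ev (nat_lit 3732) (nat_lit 147573952589676412928) (.ev (nat_lit 3741) (nat_lit 4096)
 .dd)))))) (.br (nat_lit 40) (.br (nat_lit 39) (.ch (nat_lit 36) (.ev (nat_lit 3696) (nat_lit
 147573952589684805632) (.ev (nat_lit 3709) (nat_lit 2048) .dd))) (.ch (nat_lit 39) (.ev (nat_lit 3696)
 (nat_lit 147573952589684805632) (.ev (nat_lit 3709) (nat_lit 2048) .dd)))) (.br (nat_lit 43) (.ch (nat_lit 40)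
 (.ev (nat_lit 3696) (nat_lit 8390656) (.ev (nat_lit 4932) (nat_lit 4096) (.ev (nat_lit 4941) (nat_lit
 147573952589676412928) .dd)))) (.ch (nat_lit 43) (.ev (nat_lit 3696) (nat_lit 147573952589676414976) (.ev
 (nat_lit 3732) (nat_lit 8388608) (.ev (nat_lit 3741) (nat_lit 4096) .dd)))))))))))))))))))))))) (.br (nat_lit
 26) (.br (nat_lit 24) (.ch (nat_lit 22) (.ev (nat_lit 52) (nat_lit 594927762644712652808) (.ev (nat_lit 148)
 (nat_lit 17179869184) (.ev (nat_lit 276) (nat_lit 4096) (.ev (nat_lit 1428) (nat_lit 2) (.ev (nat_lit 1684)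
 (nat_lit 36893488147419103232) (.ev (nat_lit 1876) (nat_lit 36028797018963968) (.ev (nat_lit 2324) (nat_lit
 8589934592) (.ev (nat_lit 2612) (nat_lit 524288) (.nd (nat_lit 3680) (.br (nat_lit 23) (.br (nat_lit 13) (.br
 (nat_lit 7) (.br (nat_lit 3) (.ch (nat_lit 2) (.ev (nat_lit 3696) (nat_lit 147583522741040447520) (.ev
 (nat_lit 3732) (nat_lit 4194304) (.ev (nat_lit 4256) (nat_lit 18446744073709551616) (.ev (nat_lit 4269)
 (nat_lit 2048) .dd))))) (.ch (nat_lit 3) (.ev (nat_lit 3696) (nat_lit 147583522741036255264) (.ev (nat_lit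
 3780) (nat_lit 8388608) (.ev (nat_lit 3789) (nat_lit 18446744073709551616) .dd))))) (.br (nat_lit 8) (.ch
 (nat_lit 7) (.ev (nat_lit 3696) (nat_lit 166030266812606709792) (.ev (nat_lit 3780) (nat_lit 2147483648) (.ev
 (nat_lit 3789) (nat_lit 2048) .dd)))) (.ch (nat_lit 8) (.ev (nat_lit 3696) (nat_lit 147583522741040447520)
 (.ev (nat_lit 3732) (nat_lit 4194304) (.ev (nat_lit 5412) (nat_lit 18446744073709551616) (.ev (nat_lit 5421)
 (nat_lit 2048) .dd))))))) (.br (nat_lit 17) (.br (nat_lit 16) (.ch (nat_lit 13) (.ev (nat_lit 3696) (nat_lit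
 9570151368230944) (.ev (nat_lit 4676) (nat_lit 18446744073709551616) (.ev (nat_lit 4685) (nat_lit
 147573952589676412928) .dd)))) (.ch (nat_lit 16) (.ev (nat_lit 3696) (nat_lit 18447307025810456576) (.ev
 (nat_lit 3732) (nat_lit 9007199254740992) (.ev (nat_lit 3956) (nat_lit 32) (.ev (nat_lit 4516) (nat_lit 2048)
 (.ev (nat_lit 5524) (nat_lit 8388608) (.ev (nat_lit 5808) (nat_lit 147573952589680607232) .dd)))))))) (.br
 (nat_lit 18) (.ch (nat_lit 17) (.ev (nat_lit 3696) (nat_lit 166029703864792385568) (.ev (nat_lit 5700)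
 (nat_lit 8388608) (.ev (nat_lit 5709) (nat_lit 562949953421312) .dd)))) (.br (nat_lit 20) (.ch (nat_lit 18)
 (.ev (nat_lit 3696) (nat_lit 166030266812598321184) (.ev (nat_lit 5700) (nat_lit 2147483648) (.ev (nat_lit
 5728) (nat_lit 8390656) .dd)))) (.ch (nat_lit 20) (.ev (nat_lit 3696) (nat_lit 18456314222930298912) (.ev
 (nat_lit 3732) (nat_lit 147573952589676412928) (.ev (nat_lit 3741) (nat_lit 2147483648) .dd)))))))) (.br
 (nat_lit 37) (.br (nat_lit 29) (.br (nat_lit 28) (.ch (nat_lit 23) (.ev (nat_lit 3696) (nat_lit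
 166029703864796577824) (.ev (nat_lit 3732) (nat_lit 2048) (.ev (nat_lit 3780) (nat_lit 4194304) (.ev (nat_lit
 3789) (nat_lit 562949953421312) .dd))))) (.ch (nat_lit 28) (.ev (nat_lit 3696) (nat_lit 18446744073722134560)
 (.ev (nat_lit 5092) (nat_lit 147573952589676412928) (.ev (nat_lit 5700) (nat_lit 2147483648) (.ev (nat_lit
 5712) (nat_lit 562949953421312) (.ev (nat_lit 5760) (nat_lit 2048) (.ev (nat_lit 5773) (nat_lit
 9007199254740992) .dd)))))))) (.br (nat_lit 34) (.ch (nat_lit 29) (.ev (nat_lit 3696) (nat_lit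
 9007201406420992) (.ev (nat_lit 5172) (nat_lit 562949953421312) (.ev (nat_lit 5568) (nat_lit
 147573952589676412928) (.ev (nat_lit 5700) (nat_lit 8388608) (.ev (nat_lit 5792) (nat_lit
 18446744073709551616) (.ev (nat_lit 5805) (nat_lit 32) .dd))))))) (.ch (nat_lit 34) (.ev (nat_lit 3696)
 (nat_lit 9570151364036640) (.ev (nat_lit 3732) (nat_lit 18446744073709551616) (.ev (nat_lit 3780) (nat_lit
 4194304) (.ev (nat_lit 3789) (nat_lit 147573952589676412928) .dd))))))) (.br (nat_lit 40) (.br (nat_lit 39)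
 (.ch (nat_lit 37) (.ev (nat_lit 3696) (nat_lit 166029703864792385568) (.ev (nat_lit 3732) (nat_lit
 562949953421312) (.ev (nat_lit 3741) (nat_lit 8388608) .dd)))) (.ch (nat_lit 39) (.ev (nat_lit 3696) (nat_lit
 147583522738888771616) (.ev (nat_lit 5728) (nat_lit 8388608) (.ev (nat_lit 5760) (nat_lit 2147483648) (.ev
 (nat_lit 5773) (nat_lit 18446744073709551616) .dd)))))) (.br (nat_lit 41) (.ch (nat_lit 40) (.ev (nat_lit
 3696) (nat_lit 18456314222930298912) (.ev (nat_lit 5616) (nat_lit 2147483648) (.ev (nat_lit 5629) (nat_lit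
 147573952589676412928) .dd)))) (.br (nat_lit 44) (.ch (nat_lit 41) (.ev (nat_lit 3696) (nat_lit
 147573952589684803584) (.ev (nat_lit 3732) (nat_lit 32) (.ev (nat_lit 3956) (nat_lit 9007199254740992) (.ev
 (nat_lit 4884) (nat_lit 18446744073709551616) (.ev (nat_lit 5412) (nat_lit 2147483648) (.ev (nat_lit 5712)
 (nat_lit 562949953421312) (.ev (nat_lit 5725) (nat_lit 4194304) .dd)))))))) (.ch (nat_lit 44) (.ev (nat_lit
 3696) (nat_lit 166029703864800772128) (.ev (nat_lit 5092) (nat_lit 2048) (.ev (nat_lit 5101) (nat_lit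
 562949953421312) .dd))))))))))))))))))) (.ch (nat_lit 24) (.ev (nat_lit 52) (nat_lit 55367816795157202954)
 (.ev (nat_lit 788) (nat_lit 4096) (.ev (nat_lit 1716) (nat_lit 4611686018427387904) (.ev (nat_lit 1748)
 (nat_lit 2251799813685248) (.ev (nat_lit 2580) (nat_lit 36028797018963968) (.ev (nat_lit 3380) (nat_lit
 147573952589676412928) (.ev (nat_lit 3444) (nat_lit 32) (.nd (nat_lit 3680) (.br (nat_lit 31) (.br (nat_lit
 17) (.br (nat_lit 10) (.br (nat_lit 9) (.ch (nat_lit 3) (.ev (nat_lit 3696) (nat_lit 590295810429581590528)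
 .dd)) (.ch (nat_lit 9) (.ev (nat_lit 3696) (nat_lit 2156396544) (.ev (nat_lit 3860) (nat_lit
 590295810358705651712) (.ev (nat_lit 4432) (nat_lit 68719476736) (.ev (nat_lit 4445) (nat_lit 65536) .dd))))))
 (.br (nat_lit 11) (.ch (nat_lit 10) (.ev (nat_lit 3696) (nat_lit 590295810429581590528) .dd)) (.ch (nat_lit
 11) (.ev (nat_lit 3696) (nat_lit 590295810429581590528) .dd)))) (.br (nat_lit 23) (.br (nat_lit 18) (.ch
 (nat_lit 17) (.ev (nat_lit 3696) (nat_lit 590295810427434106880) (.ev (nat_lit 3709) (nat_lit 2147483648)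
 .dd))) (.ch (nat_lit 18) (.ev (nat_lit 3696) (nat_lit 590295810360853725184) (.ev (nat_lit 4964) (nat_lit
 68719476736) (.ev (nat_lit 4973) (nat_lit 8388608) .dd))))) (.br (nat_lit 28) (.ch (nat_lit 23) (.ev (nat_lit
 3696) (nat_lit 68727865344) (.ev (nat_lit 3732) (nat_lit 590295810358706176000) (.ev (nat_lit 5700) (nat_lit
 65536) (.ev (nat_lit 5709) (nat_lit 2147483648) .dd))))) (.br (nat_lit 29) (.ch (nat_lit 28) (.ev (nat_lit
 3696) (nat_lit 590295810360862113792) (.ev (nat_lit 3709) (nat_lit 68719476736) .dd))) (.ch (nat_lit 29) (.ev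
 (nat_lit 3696) (nat_lit 590295810429581524992) (.ev (nat_lit 3709) (nat_lit 65536) .dd))))))) (.br (nat_lit
 36) (.br (nat_lit 34) (.br (nat_lit 32) (.ch (nat_lit 31) (.ev (nat_lit 3696) (nat_lit 590295810429581524992)
 (.ev (nat_lit 3709) (nat_lit 65536) .dd))) (.ch (nat_lit 32) (.ev (nat_lit 3696) (nat_lit
 590295810429581590528) .dd))) (.br (nat_lit 35) (.ch (nat_lit 34) (.ev (nat_lit 3696) (nat_lit
 590295810360862113792) (.ev (nat_lit 3709) (nat_lit 68719476736) .dd))) (.ch (nat_lit 35) (.ev (nat_lit 3696)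
 (nat_lit 68728389632) (.ev (nat_lit 3732) (nat_lit 590295810358705651712) (.ev (nat_lit 5792) (nat_lit
 2147549184) .dd)))))) (.br (nat_lit 39) (.br (nat_lit 37) (.ch (nat_lit 36) (.ev (nat_lit 3696) (nat_lit
 70875938816) (.ev (nat_lit 3709) (nat_lit 590295810358705651712) .dd))) (.ch (nat_lit 37) (.ev (nat_lit 3696)
 (nat_lit 589824) (.ev (nat_lit 3732) (nat_lit 2147483648) (.ev (nat_lit 3780) (nat_lit 8388608) (.ev (nat_lit
 5700) (nat_lit 590295810358705651712) (.ev (nat_lit 5709) (nat_lit 68719476736) .dd))))))) (.br (nat_lit 40)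
 (.ch (nat_lit 39) (.ev (nat_lit 3696) (nat_lit 590295810360861589504) (.ev (nat_lit 5700) (nat_lit 524288)
 (.ev (nat_lit 5709) (nat_lit 68719476736) .dd)))) (.br (nat_lit 41) (.ch (nat_lit 40) (.ev (nat_lit 3696)
 (nat_lit 590295810427434106880) (.ev (nat_lit 3709) (nat_lit 2147483648) .dd))) (.ch (nat_lit 41) (.ev
 (nat_lit 3696) (nat_lit 590295810429581590528) .dd))))))))))))))))) (.br (nat_lit 28) (.ch (nat_lit 26) (.ev
 (nat_lit 52) (nat_lit 631846020615852036128) (.ev (nat_lit 916) (nat_lit 8) (.ev (nat_lit 1568) (nat_lit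
 166041525813823211522) .dd)))) (.br (nat_lit 29) (.ch (nat_lit 28) (.ev (nat_lit 52) (nat_lit
 737897347522406914080) (.ev (nat_lit 1012) (nat_lit 4194304) (.ev (nat_lit 1600) (nat_lit
 59990198907264139274) .dd)))) (.ch (nat_lit 29) (.ev (nat_lit 52) (nat_lit 613402091274730213416) (.ev
 (nat_lit 116) (nat_lit 65536) (.ev (nat_lit 660) (nat_lit 36893488147419103232) (.ev (nat_lit 1236) (nat_lit
 147573952589676412928) (.ev (nat_lit 1300) (nat_lit 8388608) (.ev (nat_lit 2100) (nat_lit 18014398509481984)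
 (.nd (nat_lit 3680) (.br (nat_lit 23) (.br (nat_lit 12) (.br (nat_lit 9) (.br (nat_lit 3) (.ch (nat_lit 2)
 (.ev (nat_lit 3696) (nat_lit 19331581954) .dd)) (.ch (nat_lit 3) (.ev (nat_lit 3696) (nat_lit 19327387650)
 (.ev (nat_lit 3709) (nat_lit 4194304) .dd)))) (.br (nat_lit 10) (.ch (nat_lit 9) (.ev (nat_lit 3696) (nat_lit
 19327387648) (.ev (nat_lit 5700) (nat_lit 2) (.ev (nat_lit 5709) (nat_lit 4194304) .dd)))) (.ch (nat_lit 10)
 (.ev (nat_lit 3696) (nat_lit 19331581954) .dd)))) (.br (nat_lit 16) (.br (nat_lit 13) (.ch (nat_lit 12) (.ev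
 (nat_lit 3696) (nat_lit 19327354882) (.ev (nat_lit 5712) (nat_lit 4194304) (.ev (nat_lit 5725) (nat_lit 32768)
 .dd)))) (.ch (nat_lit 13) (.ev (nat_lit 3696) (nat_lit 19331581954) .dd))) (.br (nat_lit 18) (.ch (nat_lit 16)
 (.ev (nat_lit 3696) (nat_lit 17179869186) (.ev (nat_lit 3732) (nat_lit 2147483648) (.ev (nat_lit 3780)
 (nat_lit 32768) (.ev (nat_lit 5728) (nat_lit 2048) (.ev (nat_lit 5741) (nat_lit 4194304) .dd)))))) (.br
 (nat_lit 20) (.ch (nat_lit 18) (.ev (nat_lit 3696) (nat_lit 4227072) (.ev (nat_lit 3732) (nat_lit 2050) (.ev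
 (nat_lit 5856) (nat_lit 19327352832) .dd)))) (.ch (nat_lit 20) (.ev (nat_lit 3696) (nat_lit 2147516418) (.ev
 (nat_lit 3860) (nat_lit 2048) (.ev (nat_lit 4820) (nat_lit 4194304) (.ev (nat_lit 4829) (nat_lit 17179869184)
 .dd))))))))) (.br (nat_lit 39) (.br (nat_lit 29) (.br (nat_lit 24) (.ch (nat_lit 23) (.ev (nat_lit 3696)
 (nat_lit 4227074) (.ev (nat_lit 3732) (nat_lit 2048) (.ev (nat_lit 5792) (nat_lit 19327352832) .dd)))) (.ch
 (nat_lit 24) (.ev (nat_lit 3696) (nat_lit 19327387650) (.ev (nat_lit 3709) (nat_lit 4194304) .dd)))) (.br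
 (nat_lit 37) (.ch (nat_lit 29) (.ev (nat_lit 3696) (nat_lit 17184098306) (.ev (nat_lit 3709) (nat_lit
 2147483648) .dd))) (.ch (nat_lit 37) (.ev (nat_lit 3696) (nat_lit 2151712770) (.ev (nat_lit 3709) (nat_lit
 17179869184) .dd))))) (.br (nat_lit 41) (.br (nat_lit 40) (.ch (nat_lit 39) (.ev (nat_lit 3696) (nat_lit
 17184098306) (.ev (nat_lit 3709) (nat_lit 2147483648) .dd))) (.ch (nat_lit 40) (.ev (nat_lit 3696) (nat_lit
 19331581954) .dd))) (.br (nat_lit 43) (.ch (nat_lit 41) (.ev (nat_lit 3696) (nat_lit 19331581954) .dd)) (.br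
 (nat_lit 44) (.ch (nat_lit 43) (.ev (nat_lit 3696) (nat_lit 19331579906) (.ev (nat_lit 3709) (nat_lit 2048)
 .dd))) (.ch (nat_lit 44) (.ev (nat_lit 3696) (nat_lit 2151712770) (.ev (nat_lit 3709) (nat_lit 17179869184)
 .dd))))))))))))))))))))) (.br (nat_lit 42) (.br (nat_lit 38) (.br (nat_lit 36) (.br (nat_lit 33) (.ch (nat_lit
 31) (.ev (nat_lit 52) (nat_lit 645663064248469688320) (.ev (nat_lit 116) (nat_lit 4611686018427387904) (.ev
 (nat_lit 468) (nat_lit 2048) (.ev (nat_lit 500) (nat_lit 36028797018963968) (.ev (nat_lit 660) (nat_lit 32768)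
 (.ev (nat_lit 1844) (nat_lit 562949953421312) (.ev (nat_lit 2004) (nat_lit 17179869184) (.ev (nat_lit 3060)
 (nat_lit 32) (.nd (nat_lit 3680) (.br (nat_lit 17) (.br (nat_lit 7) (.br (nat_lit 3) (.ch (nat_lit 2) (.ev
 (nat_lit 3696) (nat_lit 2251800359469066) (.ev (nat_lit 3780) (nat_lit 147573952589676412928) (.ev (nat_lit
 5728) (nat_lit 8590000128) .dd)))) (.br (nat_lit 4) (.ch (nat_lit 3) (.ev (nat_lit 3696) (nat_lit
 147576204390027558922) (.ev (nat_lit 3732) (nat_lit 8589934592) (.ev (nat_lit 3741) (nat_lit 8388608) .dd))))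
 (.ch (nat_lit 4) (.ev (nat_lit 3696) (nat_lit 147576204398617493506) (.ev (nat_lit 3732) (nat_lit 8388608)
 (.ev (nat_lit 3741) (nat_lit 8) .dd)))))) (.br (nat_lit 12) (.br (nat_lit 10) (.ch (nat_lit 7) (.ev (nat_lit
 3696) (nat_lit 147576204390035947530) (.ev (nat_lit 3709) (nat_lit 8589934592) .dd))) (.ch (nat_lit 10) (.ev
 (nat_lit 3696) (nat_lit 147576204398089011210) (.ev (nat_lit 3709) (nat_lit 536870912) .dd)))) (.br (nat_lit
 13) (.ch (nat_lit 12) (.ev (nat_lit 3696) (nat_lit 147576204398625882114) (.ev (nat_lit 3709) (nat_lit 8)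
 .dd))) (.ch (nat_lit 13) (.ev (nat_lit 3696) (nat_lit 2251808941080586) (.ev (nat_lit 5456) (nat_lit
 147573952589676412928) (.ev (nat_lit 5469) (nat_lit 8388608) .dd))))))) (.br (nat_lit 35) (.br (nat_lit 32)
 (.br (nat_lit 23) (.ch (nat_lit 17) (.ev (nat_lit 3696) (nat_lit 147576204390035947528) (.ev (nat_lit 3732)
 (nat_lit 8589934592) (.ev (nat_lit 3741) (nat_lit 2) .dd)))) (.ch (nat_lit 23) (.ev (nat_lit 3696) (nat_lit
 2251808948879362) (.ev (nat_lit 3732) (nat_lit 147573952589676412928) (.ev (nat_lit 5552) (nat_lit 8) (.ev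
 (nat_lit 5700) (nat_lit 524288) (.ev (nat_lit 5709) (nat_lit 65536) .dd))))))) (.br (nat_lit 34) (.ch (nat_lit
 32) (.ev (nat_lit 3696) (nat_lit 147576204398625882114) (.ev (nat_lit 3709) (nat_lit 8) .dd))) (.ch (nat_lit
 34) (.ev (nat_lit 3696) (nat_lit 2251808412073994) (.ev (nat_lit 3732) (nat_lit 536870912) (.ev (nat_lit 4340)
 (nat_lit 524288) (.ev (nat_lit 4349) (nat_lit 147573952589676412928) .dd))))))) (.br (nat_lit 39) (.br
 (nat_lit 36) (.ch (nat_lit 35) (.ev (nat_lit 3696) (nat_lit 147573952598812196872) (.ev (nat_lit 5920)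
 (nat_lit 2251799813685250) .dd))) (.ch (nat_lit 36) (.ev (nat_lit 3696) (nat_lit 147576204389499076618) (.ev
 (nat_lit 4784) (nat_lit 9126805504) .dd)))) (.br (nat_lit 41) (.ch (nat_lit 39) (.ev (nat_lit 3696) (nat_lit
 545849346) (.ev (nat_lit 3732) (nat_lit 8589934592) (.ev (nat_lit 5268) (nat_lit 2251799813685248) (.ev
 (nat_lit 5744) (nat_lit 8) (.ev (nat_lit 5757) (nat_lit 147573952589676412928) .dd)))))) (.ch (nat_lit 41)
 (.ev (nat_lit 3696) (nat_lit 147576204398625357834) (.ev (nat_lit 3709) (nat_lit 524288) .dd)))))))))))))))))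
 (.ch (nat_lit 33) (.ev (nat_lit 52) (nat_lit 152185638633881995264) (.ev (nat_lit 596) (nat_lit
 36028797018963968) (.ev (nat_lit 1076) (nat_lit 4096) (.ev (nat_lit 1332) (nat_lit 18446744073709551616) (.ev
 (nat_lit 1556) (nat_lit 590295810358705651712) (.ev (nat_lit 1812) (nat_lit 8) (.ev (nat_lit 2196) (nat_lit
 36893488147419103232) (.ev (nat_lit 2708) (nat_lit 9007199254740992) (.ev (nat_lit 3124) (nat_lit
 562949953421312) (.ev (nat_lit 3284) (nat_lit 536870912) (.nd (nat_lit 3680) (.br (nat_lit 17) (.br (nat_lit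
 10) (.br (nat_lit 8) (.br (nat_lit 4) (.ch (nat_lit 3) (.ev (nat_lit 3696) (nat_lit 20266269194944546) .dd))
 (.ch (nat_lit 4) (.ev (nat_lit 3696) (nat_lit 20266269190717472) (.ev (nat_lit 3780) (nat_lit 4194306) (.ev
 (nat_lit 3789) (nat_lit 32768) .dd))))) (.br (nat_lit 9) (.ch (nat_lit 8) (.ev (nat_lit 3696) (nat_lit
 20266267042676770) (.ev (nat_lit 5700) (nat_lit 2147483648) (.ev (nat_lit 5728) (nat_lit 524288) (.ev (nat_lit
 5776) (nat_lit 4194304) (.ev (nat_lit 5789) (nat_lit 65536) .dd)))))) (.ch (nat_lit 9) (.ev (nat_lit 3696)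
 (nat_lit 20266269194944512) (.ev (nat_lit 3732) (nat_lit 32) (.ev (nat_lit 3741) (nat_lit 2) .dd)))))) (.br
 (nat_lit 12) (.br (nat_lit 11) (.ch (nat_lit 10) (.ev (nat_lit 3696) (nat_lit 20266269194944514) (.ev (nat_lit
 3709) (nat_lit 32) .dd))) (.ch (nat_lit 11) (.ev (nat_lit 3696) (nat_lit 20266269194354720) (.ev (nat_lit
 3732) (nat_lit 589824) (.ev (nat_lit 3741) (nat_lit 2) .dd))))) (.br (nat_lit 13) (.ch (nat_lit 12) (.ev
 (nat_lit 3696) (nat_lit 20266269194911778) (.ev (nat_lit 3709) (nat_lit 32768) .dd))) (.br (nat_lit 16) (.ch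
 (nat_lit 13) (.ev (nat_lit 3696) (nat_lit 18014400661749794) (.ev (nat_lit 3780) (nat_lit 68719476736) (.ev
 (nat_lit 5172) (nat_lit 32768) (.ev (nat_lit 5181) (nat_lit 2251799813685248) .dd))))) (.ch (nat_lit 16) (.ev
 (nat_lit 3696) (nat_lit 18014398513774594) (.ev (nat_lit 3732) (nat_lit 32) (.ev (nat_lit 3828) (nat_lit
 2147483648) (.ev (nat_lit 4420) (nat_lit 2251799813685248) (.ev (nat_lit 5840) (nat_lit 68719476736) (.ev
 (nat_lit 5853) (nat_lit 524288) .dd))))))))))) (.br (nat_lit 28) (.br (nat_lit 20) (.br (nat_lit 18) (.ch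
 (nat_lit 17) (.ev (nat_lit 3696) (nat_lit 20266269194944544) (.ev (nat_lit 3709) (nat_lit 2) .dd))) (.ch
 (nat_lit 18) (.ev (nat_lit 3696) (nat_lit 2251799817977890) (.ev (nat_lit 3732) (nat_lit 18014398509481984)
 (.ev (nat_lit 5700) (nat_lit 524288) (.ev (nat_lit 5728) (nat_lit 2147483648) (.ev (nat_lit 5741) (nat_lit
 68719476736) .dd))))))) (.br (nat_lit 23) (.ch (nat_lit 20) (.ev (nat_lit 3696) (nat_lit 2251870681202720)
 (.ev (nat_lit 4004) (nat_lit 65536) (.ev (nat_lit 4852) (nat_lit 18014398509481984) (.ev (nat_lit 5296)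
 (nat_lit 4194304) (.ev (nat_lit 5309) (nat_lit 2) .dd)))))) (.ch (nat_lit 23) (.ev (nat_lit 3696) (nat_lit
 20266200471207970) (.ev (nat_lit 3780) (nat_lit 68719476736) (.ev (nat_lit 5536) (nat_lit 4194304) (.ev
 (nat_lit 5549) (nat_lit 65536) .dd))))))) (.br (nat_lit 34) (.br (nat_lit 29) (.ch (nat_lit 28) (.ev (nat_lit
 3696) (nat_lit 20266267047428130) (.ev (nat_lit 3904) (nat_lit 32768) (.ev (nat_lit 3917) (nat_lit 2147483648)
 .dd)))) (.ch (nat_lit 29) (.ev (nat_lit 3696) (nat_lit 20266269194911744) (.ev (nat_lit 5524) (nat_lit 32)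
 (.ev (nat_lit 5700) (nat_lit 32768) (.ev (nat_lit 5709) (nat_lit 2) .dd)))))) (.br (nat_lit 40) (.ch (nat_lit
 34) (.ev (nat_lit 3696) (nat_lit 20266200475467778) (.ev (nat_lit 5524) (nat_lit 68719476736) (.ev (nat_lit
 5533) (nat_lit 32) .dd)))) (.br (nat_lit 44) (.ch (nat_lit 40) (.ev (nat_lit 3696) (nat_lit 2251870685462560)
 (.ev (nat_lit 4532) (nat_lit 2) (.ev (nat_lit 4541) (nat_lit 18014398509481984) .dd)))) (.ch (nat_lit 44) (.ev
 (nat_lit 3696) (nat_lit 18014400661782530) (.ev (nat_lit 3892) (nat_lit 2251799813685248) (.ev (nat_lit 5856)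
 (nat_lit 68719476736) (.ev (nat_lit 5869) (nat_lit 32) .dd))))))))))))))))))))))) (.br (nat_lit 37) (.ch
 (nat_lit 36) (.ev (nat_lit 52) (nat_lit 147637003062305916962) (.ev (nat_lit 436) (nat_lit 4096) (.ev (nat_lit
 884) (nat_lit 2147483648) (.ev (nat_lit 1172) (nat_lit 2251799813685248) (.ev (nat_lit 2260) (nat_lit
 562949953421312) (.ev (nat_lit 2324) (nat_lit 590295810358705651712) (.ev (nat_lit 3252) (nat_lit 524288) (.nd
 (nat_lit 3680) (.br (nat_lit 23) (.br (nat_lit 9) (.br (nat_lit 4) (.br (nat_lit 3) (.ch (nat_lit 2) (.ev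
 (nat_lit 3696) (nat_lit 59951918239568625672) (.ev (nat_lit 5808) (nat_lit 17179934720) .dd))) (.ch (nat_lit
 3) (.ev (nat_lit 3696) (nat_lit 59951918256735977472) (.ev (nat_lit 3760) (nat_lit 8388608) (.ev (nat_lit
 4820) (nat_lit 4194304) (.ev (nat_lit 4829) (nat_lit 8) .dd)))))) (.br (nat_lit 7) (.ch (nat_lit 4) (.ev
 (nat_lit 3696) (nat_lit 23058430092149522440) (.ev (nat_lit 3860) (nat_lit 36893488147419103232) (.ev (nat_lit
 4596) (nat_lit 17179869184) (.ev (nat_lit 4605) (nat_lit 65536) .dd))))) (.ch (nat_lit 7) (.ev (nat_lit 3696)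
 (nat_lit 59951918256748494856) (.ev (nat_lit 3709) (nat_lit 65536) .dd))))) (.br (nat_lit 13) (.br (nat_lit
 12) (.ch (nat_lit 9) (.ev (nat_lit 3696) (nat_lit 59951918256740171784) (.ev (nat_lit 3709) (nat_lit 8388608)
 .dd))) (.ch (nat_lit 12) (.ev (nat_lit 3696) (nat_lit 59951918239564496904) (.ev (nat_lit 3732) (nat_lit
 17179869184) (.ev (nat_lit 3741) (nat_lit 4194304) .dd))))) (.br (nat_lit 18) (.ch (nat_lit 13) (.ev (nat_lit
 3696) (nat_lit 41505174183038943232) (.ev (nat_lit 4852) (nat_lit 65536) (.ev (nat_lit 5700) (nat_lit 8) (.ev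
 (nat_lit 5709) (nat_lit 18446744073709551616) .dd))))) (.ch (nat_lit 18) (.ev (nat_lit 3696) (nat_lit
 55340232221132914696) (.ev (nat_lit 3732) (nat_lit 17179869184) (.ev (nat_lit 5700) (nat_lit 8388608) (.ev
 (nat_lit 5709) (nat_lit 4611686018427387904) .dd)))))))) (.br (nat_lit 36) (.br (nat_lit 29) (.br (nat_lit 28)
 (.ch (nat_lit 23) (.ev (nat_lit 3696) (nat_lit 59951918239568691208) (.ev (nat_lit 3709) (nat_lit 17179869184)
 .dd))) (.ch (nat_lit 28) (.ev (nat_lit 3696) (nat_lit 55340232238321172480) (.ev (nat_lit 3828) (nat_lit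
 4611686018427387904) (.ev (nat_lit 3837) (nat_lit 8) .dd))))) (.br (nat_lit 35) (.ch (nat_lit 29) (.ev
 (nat_lit 3696) (nat_lit 55340232238308589568) (.ev (nat_lit 3732) (nat_lit 8388608) (.ev (nat_lit 3780)
 (nat_lit 4611686018427387904) (.ev (nat_lit 3860) (nat_lit 4194304) (.ev (nat_lit 3869) (nat_lit 8) .dd))))))
 (.ch (nat_lit 35) (.ev (nat_lit 3696) (nat_lit 59951918256748560392) .dd)))) (.br (nat_lit 39) (.br (nat_lit
 37) (.ch (nat_lit 36) (.ev (nat_lit 3696) (nat_lit 4611686035611516936) (.ev (nat_lit 3828) (nat_lit 8388608)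
 (.ev (nat_lit 5172) (nat_lit 36893488147419103232) (.ev (nat_lit 5181) (nat_lit 18446744073709551616) .dd)))))
 (.ch (nat_lit 37) (.ev (nat_lit 3696) (nat_lit 55340232221141237768) (.ev (nat_lit 4004) (nat_lit
 4611686018427387904) (.ev (nat_lit 5712) (nat_lit 17179869184) (.ev (nat_lit 5725) (nat_lit 65536) .dd))))))
 (.br (nat_lit 43) (.ch (nat_lit 39) (.ev (nat_lit 3696) (nat_lit 41505174183030620168) (.ev (nat_lit 5728)
 (nat_lit 8388608) (.ev (nat_lit 5741) (nat_lit 18446744073709551616) .dd)))) (.ch (nat_lit 43) (.ev (nat_lit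
 3696) (nat_lit 55340232238312783872) (.ev (nat_lit 4036) (nat_lit 4611686018427387904) (.ev (nat_lit 4852)
 (nat_lit 8) (.ev (nat_lit 4861) (nat_lit 8388608) .dd)))))))))))))))))) (.ch (nat_lit 37) (.ev (nat_lit 52)
 (nat_lit 170671226297331550242) (.ev (nat_lit 1536) (nat_lit 627216320132343697416) .dd))))) (.br (nat_lit 40)
 (.br (nat_lit 39) (.ch (nat_lit 38) (.ev (nat_lit 52) (nat_lit 18577359200845858) (.ev (nat_lit 372) (nat_lit
 2048) (.ev (nat_lit 916) (nat_lit 68719476736) (.ev (nat_lit 1364) (nat_lit 147573952589684801536) (.ev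
 (nat_lit 1396) (nat_lit 9007199254740992) (.ev (nat_lit 1492) (nat_lit 18446744073709551616) (.ev (nat_lit
 2100) (nat_lit 65536) (.ev (nat_lit 2228) (nat_lit 32768) (.nd (nat_lit 3680) (.br (nat_lit 28) (.br (nat_lit
 11) (.br (nat_lit 8) (.br (nat_lit 7) (.ch (nat_lit 4) (.ev (nat_lit 3696) (nat_lit 594945776974502563840)
 (.ev (nat_lit 3732) (nat_lit 36893488147419103232) (.ev (nat_lit 5600) (nat_lit 4194304) (.ev (nat_lit 5856)
 (nat_lit 17179869192) .dd))))) (.ch (nat_lit 7) (.ev (nat_lit 3696) (nat_lit 627191550323659374600) (.ev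
 (nat_lit 4292) (nat_lit 4096) (.ev (nat_lit 5840) (nat_lit 4647714815446351872) .dd))))) (.br (nat_lit 10)
 (.ch (nat_lit 8) (.ev (nat_lit 3696) (nat_lit 627227579120678342664) (.ev (nat_lit 3709) (nat_lit
 4611686018427387904) .dd))) (.ch (nat_lit 10) (.ev (nat_lit 3696) (nat_lit 590334090973259239432) (.ev
 (nat_lit 5728) (nat_lit 4611686018427387904) (.ev (nat_lit 5741) (nat_lit 36893488147419103232) .dd)))))) (.br
 (nat_lit 13) (.br (nat_lit 12) (.ch (nat_lit 11) (.ev (nat_lit 3696) (nat_lit 631839265121925857288) (.ev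
 (nat_lit 3904) (nat_lit 4096) (.ev (nat_lit 3917) (nat_lit 17179869184) .dd)))) (.ch (nat_lit 12) (.ev
 (nat_lit 3696) (nat_lit 631803236324365832192) (.ev (nat_lit 3732) (nat_lit 36028797018963968) (.ev (nat_lit
 3828) (nat_lit 17179869184) (.ev (nat_lit 5552) (nat_lit 8) (.ev (nat_lit 5760) (nat_lit 536870912) (.ev
 (nat_lit 5773) (nat_lit 4194304) .dd)))))))) (.br (nat_lit 17) (.ch (nat_lit 13) (.ev (nat_lit 3696) (nat_lit
 627225327320864653320) (.ev (nat_lit 3780) (nat_lit 4613937818241073152) (.ev (nat_lit 3789) (nat_lit 4096)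
 .dd)))) (.br (nat_lit 24) (.ch (nat_lit 17) (.ev (nat_lit 3696) (nat_lit 631839265139105730568) .dd)) (.ch
 (nat_lit 24) (.ev (nat_lit 3696) (nat_lit 631839265138564661256) (.ev (nat_lit 3780) (nat_lit 4194304) (.ev
 (nat_lit 5760) (nat_lit 4096) (.ev (nat_lit 5773) (nat_lit 536870912) .dd))))))))) (.br (nat_lit 36) (.br
 (nat_lit 32) (.br (nat_lit 31) (.ch (nat_lit 28) (.ev (nat_lit 3696) (nat_lit 631839265139105726472) (.ev
 (nat_lit 3709) (nat_lit 4096) .dd))) (.ch (nat_lit 31) (.ev (nat_lit 3696) (nat_lit 41541202980582199304) (.ev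
 (nat_lit 3780) (nat_lit 4194304) (.ev (nat_lit 4772) (nat_lit 590295810358705651712) (.ev (nat_lit 4781)
 (nat_lit 2251799813685248) .dd)))))) (.br (nat_lit 34) (.ch (nat_lit 32) (.ev (nat_lit 3696) (nat_lit
 36931768761972690944) (.ev (nat_lit 3732) (nat_lit 590295810358705651720) (.ev (nat_lit 3741) (nat_lit
 4611686018427387904) .dd)))) (.ch (nat_lit 34) (.ev (nat_lit 3696) (nat_lit 631803236342082572296) (.ev
 (nat_lit 5268) (nat_lit 4194304) (.ev (nat_lit 5277) (nat_lit 36028797018963968) .dd)))))) (.br (nat_lit 41)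
 (.br (nat_lit 40) (.ch (nat_lit 36) (.ev (nat_lit 3696) (nat_lit 631803236342086766600) (.ev (nat_lit 3709)
 (nat_lit 36028797018963968) .dd))) (.ch (nat_lit 40) (.ev (nat_lit 3696) (nat_lit 627191550323659378696) (.ev
 (nat_lit 3732) (nat_lit 36028797018963968) (.ev (nat_lit 3741) (nat_lit 4611686018427387904) .dd))))) (.br
 (nat_lit 43) (.ch (nat_lit 41) (.ev (nat_lit 3696) (nat_lit 631803236341545701384) (.ev (nat_lit 3892)
 (nat_lit 536870912) (.ev (nat_lit 5712) (nat_lit 4194304) (.ev (nat_lit 5725) (nat_lit 36028797018963968)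
 .dd))))) (.br (nat_lit 44) (.ch (nat_lit 43) (.ev (nat_lit 3696) (nat_lit 36028814739902472) (.ev (nat_lit
 4004) (nat_lit 590295810358705651712) (.ev (nat_lit 4596) (nat_lit 36893488147419103232) (.ev (nat_lit 5376)
 (nat_lit 2251799813685248) (.ev (nat_lit 5389) (nat_lit 4611686018427387904) .dd)))))) (.ch (nat_lit 44) (.ev
 (nat_lit 3696) (nat_lit 41541202963406524416) (.ev (nat_lit 5012) (nat_lit 2251799813685248) (.ev (nat_lit
 5712) (nat_lit 17179869184) (.ev (nat_lit 5744) (nat_lit 8) (.ev (nat_lit 5757) (nat_lit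
 590295810358705651712) .dd))))))))))))))))))))) (.ch (nat_lit 39) (.ev (nat_lit 52) (nat_lit
 793212809921966901250) (.ev (nat_lit 148) (nat_lit 18014398509481984) (.ev (nat_lit 244) (nat_lit 17179869184)
 (.ev (nat_lit 532) (nat_lit 68719476736) (.ev (nat_lit 1556) (nat_lit 8589934592) (.ev (nat_lit 3476) (nat_lit
 8388608) (.nd (nat_lit 3680) (.br (nat_lit 32) (.br (nat_lit 13) (.br (nat_lit 11) (.br (nat_lit 8) (.ch
 (nat_lit 7) (.ev (nat_lit 3696) (nat_lit 9007199254777856) (.ev (nat_lit 4516) (nat_lit 4611686018427387904)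
 (.ev (nat_lit 5056) (nat_lit 32) (.ev (nat_lit 5600) (nat_lit 65536) (.ev (nat_lit 5700) (nat_lit 8) (.ev
 (nat_lit 5709) (nat_lit 36028797018963968) .dd))))))) (.ch (nat_lit 8) (.ev (nat_lit 3696) (nat_lit
 4620693217682227240) (.ev (nat_lit 5536) (nat_lit 4096) (.ev (nat_lit 5549) (nat_lit 36028797018963968)
 .dd))))) (.br (nat_lit 12) (.ch (nat_lit 11) (.ev (nat_lit 3696) (nat_lit 4656722014701195304) .dd)) (.ch
 (nat_lit 12) (.ev (nat_lit 3696) (nat_lit 45035996273774624) (.ev (nat_lit 3780) (nat_lit 4611686018427387904)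
 (.ev (nat_lit 5536) (nat_lit 32776) .dd)))))) (.br (nat_lit 23) (.br (nat_lit 16) (.ch (nat_lit 13) (.ev
 (nat_lit 3696) (nat_lit 4656722014701191208) (.ev (nat_lit 3709) (nat_lit 4096) .dd))) (.ch (nat_lit 16) (.ev
 (nat_lit 3696) (nat_lit 4647714815446421512) (.ev (nat_lit 3780) (nat_lit 9007199254740992) (.ev (nat_lit
 3828) (nat_lit 32) (.ev (nat_lit 3837) (nat_lit 32768) .dd)))))) (.br (nat_lit 28) (.ch (nat_lit 23) (.ev
 (nat_lit 3696) (nat_lit 4656722014701195296) (.ev (nat_lit 3709) (nat_lit 8) .dd))) (.br (nat_lit 31) (.ch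
 (nat_lit 28) (.ev (nat_lit 3696) (nat_lit 4647714815446421512) (.ev (nat_lit 3828) (nat_lit 32768) (.ev
 (nat_lit 4628) (nat_lit 9007199254740992) (.ev (nat_lit 4637) (nat_lit 32) .dd))))) (.ch (nat_lit 31) (.ev
 (nat_lit 3696) (nat_lit 4647714815446384680) (.ev (nat_lit 3780) (nat_lit 65536) (.ev (nat_lit 5568) (nat_lit
 4096) (.ev (nat_lit 5581) (nat_lit 9007199254740992) .dd))))))))) (.br (nat_lit 37) (.br (nat_lit 35) (.br
 (nat_lit 34) (.ch (nat_lit 32) (.ev (nat_lit 3696) (nat_lit 36028797019066408) (.ev (nat_lit 5600) (nat_lit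
 4611686018427387904) (.ev (nat_lit 5613) (nat_lit 9007199254740992) .dd)))) (.ch (nat_lit 34) (.ev (nat_lit
 3696) (nat_lit 4647714815446450184) (.ev (nat_lit 3732) (nat_lit 9007199254740992) (.ev (nat_lit 3780)
 (nat_lit 32) (.ev (nat_lit 3789) (nat_lit 4096) .dd)))))) (.br (nat_lit 36) (.ch (nat_lit 35) (.ev (nat_lit
 3696) (nat_lit 4647714815446454280) (.ev (nat_lit 4256) (nat_lit 9007199254740992) (.ev (nat_lit 4269)
 (nat_lit 32) .dd)))) (.ch (nat_lit 36) (.ev (nat_lit 3696) (nat_lit 4620693217682198568) (.ev (nat_lit 4324)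
 (nat_lit 32768) (.ev (nat_lit 4333) (nat_lit 36028797018963968) .dd)))))) (.br (nat_lit 40) (.br (nat_lit 39)
 (.ch (nat_lit 37) (.ev (nat_lit 3696) (nat_lit 4647714815446356008) (.ev (nat_lit 5700) (nat_lit
 9007199254740992) (.ev (nat_lit 5808) (nat_lit 32768) (.ev (nat_lit 5821) (nat_lit 65536) .dd))))) (.ch
 (nat_lit 39) (.ev (nat_lit 3696) (nat_lit 4620693217682231328) (.ev (nat_lit 3732) (nat_lit 36028797018963968)
 (.ev (nat_lit 3741) (nat_lit 8) .dd))))) (.br (nat_lit 41) (.ch (nat_lit 40) (.ev (nat_lit 3696) (nat_lit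
 36028797019062304) (.ev (nat_lit 5524) (nat_lit 4096) (.ev (nat_lit 5536) (nat_lit 4611686018427387904) (.ev
 (nat_lit 5776) (nat_lit 9007199254741000) .dd))))) (.br (nat_lit 43) (.ch (nat_lit 41) (.ev (nat_lit 3696)
 (nat_lit 4656722014701191176) (.ev (nat_lit 3732) (nat_lit 4096) (.ev (nat_lit 3741) (nat_lit 32) .dd)))) (.ch
 (nat_lit 43) (.ev (nat_lit 3696) (nat_lit 45035996273737768) (.ev (nat_lit 3828) (nat_lit 4611686018427387904)
 (.ev (nat_lit 4772) (nat_lit 4096) (.ev (nat_lit 4781) (nat_lit 65536) .dd))))))))))))))))))) (.br (nat_lit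
 41) (.ch (nat_lit 40) (.ev (nat_lit 52) (nat_lit 756317069999966586912) (.ev (nat_lit 1492) (nat_lit 4096)
 (.ev (nat_lit 1684) (nat_lit 32768) (.ev (nat_lit 2004) (nat_lit 4611686018427387904) (.ev (nat_lit 2036)
 (nat_lit 8) (.ev (nat_lit 2388) (nat_lit 536870912) (.ev (nat_lit 3028) (nat_lit 8388608) (.ev (nat_lit 3220)
 (nat_lit 9007199254740992) (.nd (nat_lit 3680) (.br (nat_lit 28) (.br (nat_lit 11) (.br (nat_lit 7) (.br
 (nat_lit 3) (.ch (nat_lit 2) (.ev (nat_lit 3696) (nat_lit 36931768812971229186) (.ev (nat_lit 5568) (nat_lit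
 18014398509481984) (.ev (nat_lit 5581) (nat_lit 524288) .dd)))) (.ch (nat_lit 3) (.ev (nat_lit 3696) (nat_lit
 54043264248446978) (.ev (nat_lit 3780) (nat_lit 36893488147419103232) (.ev (nat_lit 3789) (nat_lit
 2251799813685248) .dd))))) (.br (nat_lit 8) (.ch (nat_lit 7) (.ev (nat_lit 3696) (nat_lit
 36913754414462271490) (.ev (nat_lit 3709) (nat_lit 36028797018963968) .dd))) (.ch (nat_lit 8) (.ev (nat_lit
 3696) (nat_lit 36931768812971753474) (.ev (nat_lit 3709) (nat_lit 18014398509481984) .dd))))) (.br (nat_lit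
 17) (.br (nat_lit 13) (.ch (nat_lit 11) (.ev (nat_lit 3696) (nat_lit 54043264248446976) (.ev (nat_lit 3904)
 (nat_lit 2) (.ev (nat_lit 5728) (nat_lit 36893488147419103232) (.ev (nat_lit 5741) (nat_lit 2251799813685248)
 .dd))))) (.ch (nat_lit 13) (.ev (nat_lit 3696) (nat_lit 36929516944438591490) (.ev (nat_lit 3860) (nat_lit
 68719476736) (.ev (nat_lit 5412) (nat_lit 18014398509481984) (.ev (nat_lit 5421) (nat_lit 2251799813685248)
 .dd)))))) (.br (nat_lit 18) (.ch (nat_lit 17) (.ev (nat_lit 3696) (nat_lit 56295064062132226) (.ev (nat_lit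
 3709) (nat_lit 36893488147419103232) .dd))) (.br (nat_lit 23) (.ch (nat_lit 18) (.ev (nat_lit 3696) (nat_lit
 36911502545928585216) (.ev (nat_lit 3732) (nat_lit 68719476738) (.ev (nat_lit 5584) (nat_lit 524288) (.ev
 (nat_lit 5760) (nat_lit 36028797018963968) (.ev (nat_lit 5773) (nat_lit 2251799813685248) .dd)))))) (.ch
 (nat_lit 23) (.ev (nat_lit 3696) (nat_lit 36947531411667025922) (.ev (nat_lit 5700) (nat_lit 524288) (.ev
 (nat_lit 5709) (nat_lit 2251799813685248) .dd)))))))) (.br (nat_lit 37) (.br (nat_lit 32) (.br (nat_lit 31)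
 (.ch (nat_lit 28) (.ev (nat_lit 3696) (nat_lit 36949783142761234434) (.fin (nat_lit 576448107907596860))))
 (.ch (nat_lit 31) (.ev (nat_lit 3696) (nat_lit 36931768812971753472) (.ev (nat_lit 3732) (nat_lit
 18014398509481984) (.ev (nat_lit 3741) (nat_lit 2) .dd))))) (.br (nat_lit 36) (.ch (nat_lit 32) (.ev (nat_lit
 3696) (nat_lit 36929517013158068226) (.ev (nat_lit 5700) (nat_lit 2251799813685248) (.ev (nat_lit 5709)
 (nat_lit 18014398509481984) .dd)))) (.ch (nat_lit 36) (.ev (nat_lit 3696) (nat_lit 20266198323167232) (.ev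
 (nat_lit 3732) (nat_lit 36028797019488258) (.ev (nat_lit 5524) (nat_lit 36893488147419103232) (.ev (nat_lit
 5533) (nat_lit 68719476736) .dd))))))) (.br (nat_lit 41) (.br (nat_lit 40) (.ch (nat_lit 37) (.ev (nat_lit
 3696) (nat_lit 56295064062132226) (.ev (nat_lit 3709) (nat_lit 36893488147419103232) .dd))) (.ch (nat_lit 40)
 (.ev (nat_lit 3696) (nat_lit 36949783211481235456) (.ev (nat_lit 3709) (nat_lit 2) .dd)))) (.br (nat_lit 43)
 (.ch (nat_lit 41) (.ev (nat_lit 3696) (nat_lit 56295064062132226) (.ev (nat_lit 3709) (nat_lit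
 36893488147419103232) .dd))) (.br (nat_lit 44) (.ch (nat_lit 43) (.ev (nat_lit 3696) (nat_lit
 54043264248446978) (.ev (nat_lit 3732) (nat_lit 36893488147419103232) (.ev (nat_lit 3741) (nat_lit
 2251799813685248) .dd)))) (.ch (nat_lit 44) (.ev (nat_lit 3696) (nat_lit 36911502545929109506) (.ev (nat_lit
 4004) (nat_lit 36028797018963968) (.ev (nat_lit 4256) (nat_lit 2251799813685248) (.ev (nat_lit 4269) (nat_lit
 68719476736) .dd)))))))))))))))))))) (.ch (nat_lit 41) (.ev (nat_lit 52) (nat_lit 4649966615273179144) (.ev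
 (nat_lit 148) (nat_lit 65536) (.ev (nat_lit 948) (nat_lit 2147483648) (.ev (nat_lit 980) (nat_lit
 18446744073709551616) (.ev (nat_lit 1204) (nat_lit 147573952589676412928) (.ev (nat_lit 1716) (nat_lit
 18014398509481984) (.ev (nat_lit 1748) (nat_lit 2) (.ev (nat_lit 2196) (nat_lit 562949953421312) (.ev (nat_lit
 2260) (nat_lit 36893488147419103232) (.ev (nat_lit 2740) (nat_lit 536870912) (.ev (nat_lit 2772) (nat_lit 32)
 (.nd (nat_lit 3680) (.br (nat_lit 24) (.br (nat_lit 10) (.br (nat_lit 4) (.br (nat_lit 3) (.ch (nat_lit 2)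
 (.ev (nat_lit 3696) (nat_lit 590304817652449677312) .dd)) (.ch (nat_lit 3) (.ev (nat_lit 3696) (nat_lit
 9007293744025600) (.ev (nat_lit 3709) (nat_lit 590295810358705651712) .dd)))) (.br (nat_lit 8) (.ch (nat_lit
 4) (.ev (nat_lit 3696) (nat_lit 9007216434614272) (.ev (nat_lit 3732) (nat_lit 590295810358705651712) (.ev
 (nat_lit 5424) (nat_lit 68719476736) (.ev (nat_lit 5437) (nat_lit 8589934592) .dd))))) (.ch (nat_lit 8) (.ev
 (nat_lit 3696) (nat_lit 590304817652449677312) .dd)))) (.br (nat_lit 13) (.br (nat_lit 11) (.ch (nat_lit 10)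
 (.ev (nat_lit 3696) (nat_lit 9007293744025600) (.ev (nat_lit 3709) (nat_lit 590295810358705651712) .dd))) (.ch
 (nat_lit 11) (.ev (nat_lit 3696) (nat_lit 590304817635269808128) (.ev (nat_lit 3709) (nat_lit 17179869184)
 .dd)))) (.br (nat_lit 17) (.ch (nat_lit 13) (.ev (nat_lit 3696) (nat_lit 590304817652449673216) (.ev (nat_lit
 3709) (nat_lit 4096) .dd))) (.br (nat_lit 18) (.ch (nat_lit 17) (.ev (nat_lit 3696) (nat_lit
 590304817652449677312) .dd)) (.ch (nat_lit 18) (.ev (nat_lit 3696) (nat_lit 590304817575140265984) (.ev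
 (nat_lit 5700) (nat_lit 68719476736) (.ev (nat_lit 5709) (nat_lit 8589934592) .dd)))))))) (.br (nat_lit 36)
 (.br (nat_lit 31) (.br (nat_lit 29) (.ch (nat_lit 24) (.ev (nat_lit 3696) (nat_lit 590304817635269808128) (.ev
 (nat_lit 3709) (nat_lit 17179869184) .dd))) (.ch (nat_lit 29) (.ev (nat_lit 3696) (nat_lit
 590304817643859742720) (.ev (nat_lit 3709) (nat_lit 8589934592) .dd)))) (.br (nat_lit 35) (.ch (nat_lit 31)
 (.ev (nat_lit 3696) (nat_lit 94489280512) (.ev (nat_lit 3828) (nat_lit 9007199254740992) (.ev (nat_lit 4820)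
 (nat_lit 590295810358705651712) (.ev (nat_lit 4829) (nat_lit 4096) .dd))))) (.ch (nat_lit 35) (.ev (nat_lit
 3696) (nat_lit 94489284608) (.ev (nat_lit 5700) (nat_lit 9007199254740992) (.ev (nat_lit 5709) (nat_lit
 590295810358705651712) .dd)))))) (.br (nat_lit 41) (.br (nat_lit 40) (.ch (nat_lit 36) (.ev (nat_lit 3696)
 (nat_lit 9007293744025600) (.ev (nat_lit 3709) (nat_lit 590295810358705651712) .dd))) (.ch (nat_lit 40) (.ev
 (nat_lit 3696) (nat_lit 590304817652449677312) .dd))) (.br (nat_lit 43) (.ch (nat_lit 41) (.ev (nat_lit 3696)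
 (nat_lit 590295810453194936320) (.ev (nat_lit 3709) (nat_lit 9007199254740992) .dd))) (.br (nat_lit 44) (.ch
 (nat_lit 43) (.ev (nat_lit 3696) (nat_lit 590304817652449673216) (.ev (nat_lit 3709) (nat_lit 4096) .dd)))
 (.ch (nat_lit 44) (.ev (nat_lit 3696) (nat_lit 590304817566550331392) (.ev (nat_lit 3792) (nat_lit
 68719476736) (.ev (nat_lit 3805) (nat_lit 17179869184) .dd))))))))))))))))))))))))) (.br (nat_lit 47) (.br
 (nat_lit 44) (.br (nat_lit 43) (.ch (nat_lit 42) (.ev (nat_lit 52) (nat_lit 207528122706368135170) (.ev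
 (nat_lit 84) (nat_lit 65536) (.ev (nat_lit 628) (nat_lit 18014398509481984) (.ev (nat_lit 724) (nat_lit 8)
 (.ev (nat_lit 2388) (nat_lit 562949953421312) (.ev (nat_lit 3284) (nat_lit 32) (.ev (nat_lit 3444) (nat_lit
 536870912) (.ev (nat_lit 3668) (nat_lit 524288) (.nd (nat_lit 3680) (.br (nat_lit 20) (.br (nat_lit 11) (.br
 (nat_lit 7) (.br (nat_lit 4) (.ch (nat_lit 3) (.ev (nat_lit 3696) (nat_lit 590340846374306748416) .dd)) (.ch
 (nat_lit 4) (.ev (nat_lit 3696) (nat_lit 590304817560107915264) (.ev (nat_lit 3828) (nat_lit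
 36028797018963968) (.ev (nat_lit 3837) (nat_lit 17179869184) .dd))))) (.br (nat_lit 8) (.ch (nat_lit 7) (.ev
 (nat_lit 3696) (nat_lit 590304817577287780352) (.ev (nat_lit 3712) (nat_lit 4096) (.ev (nat_lit 3725) (nat_lit
 36028797018963968) .dd)))) (.ch (nat_lit 8) (.ev (nat_lit 3696) (nat_lit 590304817577287778304) (.ev (nat_lit
 3780) (nat_lit 2048) (.ev (nat_lit 3860) (nat_lit 36028797018963968) (.ev (nat_lit 3869) (nat_lit 4096)
 .dd))))))) (.br (nat_lit 16) (.br (nat_lit 12) (.ch (nat_lit 11) (.ev (nat_lit 3696) (nat_lit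
 45036015601059840) (.ev (nat_lit 5712) (nat_lit 32768) (.ev (nat_lit 5792) (nat_lit 590295810358705655808)
 .dd)))) (.ch (nat_lit 12) (.ev (nat_lit 3696) (nat_lit 590340846357126879232) (.ev (nat_lit 3709) (nat_lit
 17179869184) .dd)))) (.br (nat_lit 17) (.ch (nat_lit 16) (.ev (nat_lit 3696) (nat_lit 590340846374306713600)
 (.ev (nat_lit 3732) (nat_lit 32768) (.ev (nat_lit 3741) (nat_lit 2048) .dd)))) (.br (nat_lit 18) (.ch (nat_lit
 17) (.ev (nat_lit 3696) (nat_lit 590340846372159264768) (.ev (nat_lit 3709) (nat_lit 2147483648) .dd))) (.ch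
 (nat_lit 18) (.ev (nat_lit 3696) (nat_lit 9007216434647040) (.ev (nat_lit 3732) (nat_lit
 590295810358705653760) (.ev (nat_lit 3860) (nat_lit 36028797018963968) (.ev (nat_lit 3869) (nat_lit
 2147483648) .dd))))))))) (.br (nat_lit 37) (.br (nat_lit 32) (.br (nat_lit 24) (.ch (nat_lit 20) (.ev (nat_lit
 3696) (nat_lit 590340846357126877184) (.ev (nat_lit 3732) (nat_lit 2048) (.ev (nat_lit 3741) (nat_lit
 17179869184) .dd)))) (.ch (nat_lit 24) (.ev (nat_lit 3696) (nat_lit 590295810378033039360) (.ev (nat_lit 3732)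
 (nat_lit 36028797018968064) (.ev (nat_lit 3741) (nat_lit 9007199254740992) .dd))))) (.br (nat_lit 34) (.ch
 (nat_lit 32) (.ev (nat_lit 3696) (nat_lit 45036015601063936) (.ev (nat_lit 5524) (nat_lit
 590295810358705651712) (.ev (nat_lit 5533) (nat_lit 32768) .dd)))) (.ch (nat_lit 34) (.ev (nat_lit 3696)
 (nat_lit 590295810378033039360) (.ev (nat_lit 3828) (nat_lit 4096) (.ev (nat_lit 5536) (nat_lit
 36028797018963968) (.ev (nat_lit 5549) (nat_lit 9007199254740992) .dd))))))) (.br (nat_lit 40) (.br (nat_lit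
 39) (.ch (nat_lit 37) (.ev (nat_lit 3696) (nat_lit 590295810375885559808) (.ev (nat_lit 3732) (nat_lit
 9007199254740992) (.ev (nat_lit 3780) (nat_lit 36028797018963968) (.ev (nat_lit 3789) (nat_lit 2147483648)
 .dd))))) (.ch (nat_lit 39) (.ev (nat_lit 3696) (nat_lit 590340846372159262720) (.ev (nat_lit 3892) (nat_lit
 2147483648) (.ev (nat_lit 3901) (nat_lit 2048) .dd))))) (.br (nat_lit 41) (.ch (nat_lit 40) (.ev (nat_lit
 3696) (nat_lit 590340846372159264768) (.ev (nat_lit 3709) (nat_lit 2147483648) .dd))) (.br (nat_lit 43) (.ch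
 (nat_lit 41) (.ev (nat_lit 3696) (nat_lit 590331839155724654592) (.ev (nat_lit 5744) (nat_lit
 9007199254740992) (.ev (nat_lit 5840) (nat_lit 19327352832) .dd)))) (.ch (nat_lit 43) (.ev (nat_lit 3696)
 (nat_lit 590331839175052007424) (.ev (nat_lit 3709) (nat_lit 9007199254740992) .dd)))))))))))))))))) (.ch
 (nat_lit 43) (.ev (nat_lit 52) (nat_lit 184496714145419855872) (.ev (nat_lit 692) (nat_lit
 590295810358705651712) (.ev (nat_lit 756) (nat_lit 4611686018427387904) (.ev (nat_lit 948) (nat_lit 4194304)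
 (.ev (nat_lit 1908) (nat_lit 8) (.ev (nat_lit 2036) (nat_lit 68719476736) (.ev (nat_lit 2356) (nat_lit 4096)
 (.ev (nat_lit 3188) (nat_lit 2) (.nd (nat_lit 3680) (.br (nat_lit 18) (.br (nat_lit 8) (.br (nat_lit 4) (.br
 (nat_lit 3) (.ch (nat_lit 2) (.ev (nat_lit 3696) (nat_lit 18483335838398677024) .dd)) (.ch (nat_lit 3) (.ev
 (nat_lit 3696) (nat_lit 36591764689125408) (.ev (nat_lit 3709) (nat_lit 18446744073709551616) .dd)))) (.br
 (nat_lit 7) (.ch (nat_lit 4) (.ev (nat_lit 3696) (nat_lit 18483335838398677024) .dd)) (.ch (nat_lit 7) (.ev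
 (nat_lit 3696) (nat_lit 18483335837861806112) (.ev (nat_lit 3709) (nat_lit 536870912) .dd))))) (.br (nat_lit
 13) (.br (nat_lit 11) (.ch (nat_lit 8) (.ev (nat_lit 3696) (nat_lit 18447307041379713056) (.ev (nat_lit 3709)
 (nat_lit 36028797018963968) .dd))) (.ch (nat_lit 11) (.ev (nat_lit 3696) (nat_lit 36591764689125408) (.ev
 (nat_lit 3709) (nat_lit 18446744073709551616) .dd)))) (.br (nat_lit 16) (.ch (nat_lit 13) (.ev (nat_lit 3696)
 (nat_lit 18482772888445255712) (.ev (nat_lit 3709) (nat_lit 562949953421312) .dd))) (.br (nat_lit 17) (.ch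
 (nat_lit 16) (.ev (nat_lit 3696) (nat_lit 36591764689125376) (.ev (nat_lit 3792) (nat_lit 32) (.ev (nat_lit
 3805) (nat_lit 18446744073709551616) .dd)))) (.ch (nat_lit 17) (.ev (nat_lit 3696) (nat_lit
 18482772888445255712) (.ev (nat_lit 3709) (nat_lit 562949953421312) .dd))))))) (.br (nat_lit 32) (.br (nat_lit
 29) (.br (nat_lit 24) (.ch (nat_lit 18) (.ev (nat_lit 3696) (nat_lit 18483335821218807840) (.ev (nat_lit 3709)
 (nat_lit 17179869184) .dd))) (.ch (nat_lit 24) (.ev (nat_lit 3696) (nat_lit 18446744090889420832) (.ev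
 (nat_lit 3828) (nat_lit 536870912) (.ev (nat_lit 4432) (nat_lit 36028797018963968) (.ev (nat_lit 4445)
 (nat_lit 562949953421312) .dd)))))) (.br (nat_lit 31) (.ch (nat_lit 29) (.ev (nat_lit 3696) (nat_lit
 18483335838398677024) .dd)) (.ch (nat_lit 31) (.ev (nat_lit 3696) (nat_lit 18483335838398677024) .dd)))) (.br
 (nat_lit 36) (.br (nat_lit 34) (.ch (nat_lit 32) (.ev (nat_lit 3696) (nat_lit 18483335821218807808) (.ev
 (nat_lit 5524) (nat_lit 17179869184) (.ev (nat_lit 5533) (nat_lit 32) .dd)))) (.ch (nat_lit 34) (.ev (nat_lit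
 3696) (nat_lit 18447307041379713056) (.ev (nat_lit 3709) (nat_lit 36028797018963968) .dd)))) (.br (nat_lit 37)
 (.ch (nat_lit 36) (.ev (nat_lit 3696) (nat_lit 18447307040842842144) (.ev (nat_lit 5524) (nat_lit
 36028797018963968) (.ev (nat_lit 5533) (nat_lit 536870912) .dd)))) (.br (nat_lit 39) (.ch (nat_lit 37) (.ev
 (nat_lit 3696) (nat_lit 18447307024199843840) (.ev (nat_lit 3732) (nat_lit 36028797018963968) (.ev (nat_lit
 5712) (nat_lit 17179869184) (.ev (nat_lit 5725) (nat_lit 32) .dd))))) (.ch (nat_lit 39) (.ev (nat_lit 3696)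
 (nat_lit 18447307041379713056) (.ev (nat_lit 3709) (nat_lit 36028797018963968) .dd))))))))))))))))))) (.br
 (nat_lit 46) (.ch (nat_lit 44) (.ev (nat_lit 52) (nat_lit 4647714824577880104) (.ev (nat_lit 116) (nat_lit
 17179869184) (.ev (nat_lit 244) (nat_lit 18014398509481984) (.ev (nat_lit 1012) (nat_lit 2147483648) (.ev
 (nat_lit 1044) (nat_lit 2048) (.ev (nat_lit 1396) (nat_lit 8388608) (.ev (nat_lit 1780) (nat_lit
 590295810358705651712) (.ev (nat_lit 2164) (nat_lit 32768) (.ev (nat_lit 2516) (nat_lit 2) (.ev (nat_lit 3028)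
 (nat_lit 9007199254740992) (.nd (nat_lit 3680) (.br (nat_lit 28) (.br (nat_lit 13) (.br (nat_lit 10) (.br
 (nat_lit 9) (.ch (nat_lit 3) (.ev (nat_lit 3696) (nat_lit 202914747829478031360) (.ev (nat_lit 3709) (nat_lit
 2251799813685248) .dd))) (.ch (nat_lit 9) (.ev (nat_lit 3696) (nat_lit 36896302897186275328) (.ev (nat_lit
 3732) (nat_lit 68719476736) (.ev (nat_lit 3780) (nat_lit 147573952589676412928) (.ev (nat_lit 3789) (nat_lit
 18446744073709551616) .dd)))))) (.br (nat_lit 11) (.ch (nat_lit 10) (.ev (nat_lit 3696) (nat_lit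
 202916999560572239872) (.ev (nat_lit 3709) (nat_lit 68719476736) .dd))) (.ch (nat_lit 11) (.ev (nat_lit 3696)
 (nat_lit 166023511481872547840) (.ev (nat_lit 3732) (nat_lit 36893488147419103232) (.ev (nat_lit 3741)
 (nat_lit 65536) .dd)))))) (.br (nat_lit 17) (.br (nat_lit 16) (.ch (nat_lit 13) (.ev (nat_lit 3696) (nat_lit
 202916999629291651072) (.ev (nat_lit 3709) (nat_lit 65536) .dd))) (.ch (nat_lit 16) (.ev (nat_lit 3696)
 (nat_lit 147576204458209640448) (.ev (nat_lit 3780) (nat_lit 562949953421312) (.ev (nat_lit 3860) (nat_lit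
 18446744073709551616) (.ev (nat_lit 3869) (nat_lit 36893488147419103232) .dd)))))) (.br (nat_lit 20) (.ch
 (nat_lit 17) (.ev (nat_lit 3696) (nat_lit 18448995942242779136) (.ev (nat_lit 5412) (nat_lit 562949953421312)
 (.ev (nat_lit 5524) (nat_lit 36893488147419103232) (.ev (nat_lit 5533) (nat_lit 147573952589676412928)
 .dd))))) (.br (nat_lit 23) (.ch (nat_lit 20) (.ev (nat_lit 3696) (nat_lit 184469692605628678144) (.ev (nat_lit
 3732) (nat_lit 65536) (.ev (nat_lit 5700) (nat_lit 562949953421312) (.ev (nat_lit 5709) (nat_lit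
 18446744073709551616) .dd))))) (.ch (nat_lit 23) (.ev (nat_lit 3696) (nat_lit 55342484020942340096) (.ev
 (nat_lit 3712) (nat_lit 147573952589676412928) (.ev (nat_lit 4596) (nat_lit 65536) (.ev (nat_lit 4852)
 (nat_lit 562949953421312) (.ev (nat_lit 4861) (nat_lit 68719476736) .dd)))))))))) (.br (nat_lit 37) (.br
 (nat_lit 34) (.br (nat_lit 32) (.ch (nat_lit 28) (.ev (nat_lit 3696) (nat_lit 55343046970895826944) (.ev
 (nat_lit 3732) (nat_lit 147573952589676412928) (.ev (nat_lit 3741) (nat_lit 68719476736) .dd)))) (.ch (nat_lit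
 32) (.ev (nat_lit 3696) (nat_lit 202916999629291716608) .dd))) (.br (nat_lit 36) (.ch (nat_lit 34) (.ev
 (nat_lit 3696) (nat_lit 36896302897186275328) (.ev (nat_lit 4004) (nat_lit 147573952589676412928) (.ev
 (nat_lit 5700) (nat_lit 18446744073709551616) (.ev (nat_lit 5709) (nat_lit 68719476736) .dd))))) (.ch (nat_lit
 36) (.ev (nat_lit 3696) (nat_lit 202914747760758554624) (.ev (nat_lit 3732) (nat_lit 68719476736) (.ev
 (nat_lit 3741) (nat_lit 2251799813685248) .dd)))))) (.br (nat_lit 41) (.br (nat_lit 39) (.ch (nat_lit 37) (.ev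
 (nat_lit 3696) (nat_lit 166022948531919126528) (.ev (nat_lit 4772) (nat_lit 562949953421312) (.ev (nat_lit
 5776) (nat_lit 36893488147419168768) .dd)))) (.ch (nat_lit 39) (.ev (nat_lit 3696) (nat_lit
 184467440737095581696) (.ev (nat_lit 4448) (nat_lit 68719476736) (.ev (nat_lit 5524) (nat_lit
 2251799813685248) (.ev (nat_lit 5728) (nat_lit 18447307023662972928) .dd)))))) (.br (nat_lit 43) (.ch (nat_lit
 41) (.ev (nat_lit 3696) (nat_lit 202916436679338295296) (.ev (nat_lit 3709) (nat_lit 562949953421312) .dd)))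
 (.br (nat_lit 44) (.ch (nat_lit 43) (.ev (nat_lit 3696) (nat_lit 166023511481872547840) (.ev (nat_lit 5728)
 (nat_lit 36893488147419103232) (.ev (nat_lit 5741) (nat_lit 65536) .dd)))) (.ch (nat_lit 44) (.ev (nat_lit
 3696) (nat_lit 202916999629291651072) (.ev (nat_lit 3709) (nat_lit 65536) .dd)))))))))))))))))))) (.ch
 (nat_lit 46) (.ev (nat_lit 52) (nat_lit 793273608585651191808) (.ev (nat_lit 1120) (nat_lit
 4613937844024055850) .dd))))) (.br (nat_lit 49) (.br (nat_lit 48) (.ch (nat_lit 47) (.ev (nat_lit 52) (nat_lit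
 645638857415513374760) (.ev (nat_lit 340) (nat_lit 36028797018963968) (.ev (nat_lit 564) (nat_lit 65536) (.ev
 (nat_lit 628) (nat_lit 4611686018427387904) (.ev (nat_lit 692) (nat_lit 8589934592) (.ev (nat_lit 1172)
 (nat_lit 2) (.ev (nat_lit 3060) (nat_lit 536870912) (.nd (nat_lit 3680) (.br (nat_lit 18) (.br (nat_lit 7)
 (.br (nat_lit 3) (.ch (nat_lit 2) (.ev (nat_lit 3696) (nat_lit 9007201402755072) (.ev (nat_lit 5776) (nat_lit
 147573952589676412928) (.ev (nat_lit 5789) (nat_lit 18014398509481984) .dd)))) (.br (nat_lit 4) (.ch (nat_lit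
 3) (.ev (nat_lit 3696) (nat_lit 147600974189588649984) .dd)) (.ch (nat_lit 4) (.ev (nat_lit 3696) (nat_lit
 147600974189588647936) (.ev (nat_lit 3709) (nat_lit 2048) .dd))))) (.br (nat_lit 11) (.br (nat_lit 10) (.ch
 (nat_lit 7) (.ev (nat_lit 3696) (nat_lit 147600974187441162240) (.ev (nat_lit 4068) (nat_lit 4096) (.ev
 (nat_lit 4077) (nat_lit 2147483648) .dd)))) (.ch (nat_lit 10) (.ev (nat_lit 3696) (nat_lit
 147600974189588649984) .dd))) (.br (nat_lit 16) (.ch (nat_lit 11) (.ev (nat_lit 3696) (nat_lit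
 147573952591824427008) (.ev (nat_lit 5712) (nat_lit 9007199254740992) (.ev (nat_lit 5725) (nat_lit
 18014398509481984) .dd)))) (.ch (nat_lit 16) (.ev (nat_lit 3696) (nat_lit 147573952589676419072) (.ev (nat_lit
 3780) (nat_lit 27021597764222976) (.ev (nat_lit 5584) (nat_lit 524288) (.ev (nat_lit 5597) (nat_lit
 2147483648) .dd)))))))) (.br (nat_lit 35) (.br (nat_lit 32) (.br (nat_lit 23) (.ch (nat_lit 18) (.ev (nat_lit
 3696) (nat_lit 147591966990333382656) (.ev (nat_lit 3732) (nat_lit 524288) (.ev (nat_lit 4784) (nat_lit 2048)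
 (.ev (nat_lit 4797) (nat_lit 9007199254740992) .dd))))) (.ch (nat_lit 23) (.ev (nat_lit 3696) (nat_lit
 27021599911712768) (.ev (nat_lit 3732) (nat_lit 524288) (.ev (nat_lit 3741) (nat_lit 147573952589676412928)
 .dd))))) (.br (nat_lit 34) (.ch (nat_lit 32) (.ev (nat_lit 3696) (nat_lit 147573952591824427008) (.ev (nat_lit
 5412) (nat_lit 18014398509481984) (.ev (nat_lit 5421) (nat_lit 9007199254740992) .dd)))) (.ch (nat_lit 34)
 (.ev (nat_lit 3696) (nat_lit 147600974187441160192) (.ev (nat_lit 3732) (nat_lit 2048) (.ev (nat_lit 5760)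
 (nat_lit 2147487744) .dd)))))) (.br (nat_lit 40) (.br (nat_lit 37) (.ch (nat_lit 35) (.ev (nat_lit 3696)
 (nat_lit 18014400657491968) (.ev (nat_lit 5524) (nat_lit 9007199254740992) (.ev (nat_lit 5700) (nat_lit 4096)
 (.ev (nat_lit 5709) (nat_lit 147573952589676412928) .dd))))) (.ch (nat_lit 37) (.ev (nat_lit 3696) (nat_lit
 147591966990333904896) (.ev (nat_lit 3828) (nat_lit 9007199254740992) (.ev (nat_lit 3837) (nat_lit 4096)
 .dd))))) (.br (nat_lit 44) (.ch (nat_lit 40) (.ev (nat_lit 3696) (nat_lit 147582959791079163904) (.ev (nat_lit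
 5456) (nat_lit 4096) (.ev (nat_lit 5469) (nat_lit 18014398509481984) .dd)))) (.ch (nat_lit 44) (.ev (nat_lit
 3696) (nat_lit 147600974189588649984) .dd))))))))))))))) (.ch (nat_lit 48) (.ev (nat_lit 52) (nat_lit
 184469692556786044970) (.ev (nat_lit 148) (nat_lit 4611686018427387904) (.ev (nat_lit 308) (nat_lit
 36028797018963968) (.ev (nat_lit 1140) (nat_lit 590295810358705651712) (.ev (nat_lit 1684) (nat_lit
 562949953421312) (.ev (nat_lit 2004) (nat_lit 65536) (.ev (nat_lit 2356) (nat_lit 18446744073709551616) (.nd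
 (nat_lit 3680) (.br (nat_lit 24) (.br (nat_lit 13) (.br (nat_lit 9) (.ch (nat_lit 2) (.ev (nat_lit 3696)
 (nat_lit 27021666484226048) (.ev (nat_lit 3709) (nat_lit 8589934592) .dd))) (.br (nat_lit 10) (.ch (nat_lit 9)
 (.ev (nat_lit 3696) (nat_lit 27021675074158592) (.ev (nat_lit 3709) (nat_lit 2048) .dd))) (.ch (nat_lit 10)
 (.ev (nat_lit 3696) (nat_lit 27021666484226048) (.ev (nat_lit 3709) (nat_lit 8589934592) .dd))))) (.br
 (nat_lit 20) (.br (nat_lit 17) (.ch (nat_lit 13) (.ev (nat_lit 3696) (nat_lit 9007276564678656) (.ev (nat_lit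
 3709) (nat_lit 18014398509481984) .dd))) (.ch (nat_lit 17) (.ev (nat_lit 3696) (nat_lit 18014467229485056)
 (.ev (nat_lit 3732) (nat_lit 8589934592) (.ev (nat_lit 3741) (nat_lit 9007199254740992) .dd))))) (.br (nat_lit
 23) (.ch (nat_lit 20) (.ev (nat_lit 3696) (nat_lit 9007276564678656) (.ev (nat_lit 3709) (nat_lit
 18014398509481984) .dd))) (.ch (nat_lit 23) (.ev (nat_lit 3696) (nat_lit 9007276564678656) (.ev (nat_lit 3709)
 (nat_lit 18014398509481984) .dd)))))) (.br (nat_lit 35) (.br (nat_lit 31) (.br (nat_lit 28) (.ch (nat_lit 24)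
 (.ev (nat_lit 3696) (nat_lit 27021675074160640) .dd)) (.ch (nat_lit 28) (.ev (nat_lit 3696) (nat_lit
 27021606354157568) (.ev (nat_lit 5712) (nat_lit 2048) (.fin (nat_lit 576448107907596860)))))) (.br (nat_lit
 32) (.ch (nat_lit 31) (.ev (nat_lit 3696) (nat_lit 18014475818895360) (.ev (nat_lit 3732) (nat_lit 524288)
 (.ev (nat_lit 3741) (nat_lit 9007199254740992) .dd)))) (.ch (nat_lit 32) (.ev (nat_lit 3696) (nat_lit
 68720003072) (.ev (nat_lit 5424) (nat_lit 9007199254740992) (.ev (nat_lit 5552) (nat_lit 8589934592) (.ev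
 (nat_lit 5565) (nat_lit 18014398509481984) .dd))))))) (.br (nat_lit 41) (.br (nat_lit 37) (.ch (nat_lit 35)
 (.ev (nat_lit 3696) (nat_lit 68720003072) (.ev (nat_lit 3732) (nat_lit 9007199254740992) (.ev (nat_lit 3828)
 (nat_lit 18014398509481984) (.ev (nat_lit 3837) (nat_lit 8589934592) .dd))))) (.ch (nat_lit 37) (.ev (nat_lit
 3696) (nat_lit 27021675073636352) (.ev (nat_lit 3709) (nat_lit 524288) .dd)))) (.br (nat_lit 43) (.ch (nat_lit
 41) (.ev (nat_lit 3696) (nat_lit 27021675073636352) (.ev (nat_lit 3709) (nat_lit 524288) .dd))) (.ch (nat_lit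
 43) (.ev (nat_lit 3696) (nat_lit 27021675074160640) .dd)))))))))))))))) (.br (nat_lit 50) (.ch (nat_lit 49)
 (.ev (nat_lit 52) (nat_lit 742518040791096035328) (.ev (nat_lit 564) (nat_lit 18014398509481984) (.ev (nat_lit
 788) (nat_lit 18446744073709551616) (.ev (nat_lit 1268) (nat_lit 9007199254740992) (.ev (nat_lit 1844)
 (nat_lit 536870912) (.ev (nat_lit 2432) (nat_lit 36895739966568566826) .dd))))))) (.br (nat_lit 52) (.ch
 (nat_lit 50) (.ev (nat_lit 52) (nat_lit 590314387778048163872) (.ev (nat_lit 384) (nat_lit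
 207573158651627083786) .dd))) (.ch (nat_lit 52) (.ev (nat_lit 52) (nat_lit 55351491246512214026) (.ev (nat_lit
 500) (nat_lit 2048) (.ev (nat_lit 1440) (nat_lit 742536055183163031584) .dd))))))))))))

/-- Subtrie. -/
noncomputable def T15 : Tr := (.ev (nat_lit 20) (nat_lit 890203316728168716434) (.nd (nat_lit 33) (.br (nat_lit
 31) (.br (nat_lit 16) (.br (nat_lit 10) (.br (nat_lit 6) (.br (nat_lit 5) (.ch (nat_lit 4) (.ev (nat_lit 52)
 (nat_lit 37181811733018181664) (.ev (nat_lit 1268) (nat_lit 32768) (.ev (nat_lit 1812) (nat_lit 4194304) (.ev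
 (nat_lit 2068) (nat_lit 18014398509481984) (.ev (nat_lit 3380) (nat_lit 8) (.nd (nat_lit 3680) (.br (nat_lit
 26) (.br (nat_lit 8) (.br (nat_lit 1) (.ch (nat_lit 0) (.ev (nat_lit 3696) (nat_lit 1180601199662712553728)
 (.ev (nat_lit 3828) (nat_lit 147573952589676412928) (.ev (nat_lit 3956) (nat_lit 8388608) (.ev (nat_lit 4596)
 (nat_lit 18446744073709551616) (.ev (nat_lit 4605) (nat_lit 36028797018963968) .dd)))))) (.br (nat_lit 7) (.ch
 (nat_lit 1) (.ev (nat_lit 3696) (nat_lit 1346612326176898744576) (.ev (nat_lit 3732) (nat_lit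
 9007199254740992) (.ev (nat_lit 4468) (nat_lit 562949953421312) (.ev (nat_lit 4477) (nat_lit
 36028797018963968) .dd))))) (.ch (nat_lit 7) (.ev (nat_lit 3696) (nat_lit 147618997382043205888) (.ev (nat_lit
 3732) (nat_lit 562949953421312) (.ev (nat_lit 5552) (nat_lit 8388608) (.ev (nat_lit 5792) (nat_lit
 18446744073709551616) (.ev (nat_lit 5805) (nat_lit 1180591620717411303424) .dd)))))))) (.br (nat_lit 19) (.br
 (nat_lit 16) (.ch (nat_lit 8) (.ev (nat_lit 3696) (nat_lit 1199083963737356435712) (.ev (nat_lit 4784)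
 (nat_lit 8796093022208) (.ev (nat_lit 4797) (nat_lit 147573952589676412928) .dd)))) (.ch (nat_lit 16) (.ev
 (nat_lit 3696) (nat_lit 1346648917923871064320) (.ev (nat_lit 3828) (nat_lit 9007199254740992) (.ev (nat_lit
 3837) (nat_lit 65536) .dd))))) (.br (nat_lit 22) (.ch (nat_lit 19) (.ev (nat_lit 3696) (nat_lit
 1199074393588148273152) (.ev (nat_lit 3732) (nat_lit 256) (.ev (nat_lit 5760) (nat_lit 562949953421312) (.ev
 (nat_lit 5776) (nat_lit 8796093022208) (.ev (nat_lit 5856) (nat_lit 9007199254740992) (.ev (nat_lit 5869)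
 (nat_lit 147573952589676412928) .dd))))))) (.ch (nat_lit 22) (.ev (nat_lit 3696) (nat_lit
 1346657925123117416704) (.ev (nat_lit 4772) (nat_lit 8388608) (.ev (nat_lit 4781) (nat_lit 65536) .dd)))))))
 (.br (nat_lit 32) (.br (nat_lit 28) (.br (nat_lit 27) (.ch (nat_lit 26) (.ev (nat_lit 3696) (nat_lit
 166066295609621545216) (.ev (nat_lit 3732) (nat_lit 8796093022208) (.ev (nat_lit 3741) (nat_lit
 1180591620717411303424) .dd)))) (.ch (nat_lit 27) (.ev (nat_lit 3696) (nat_lit 1346621333376153485568) (.ev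
 (nat_lit 5536) (nat_lit 36028797018963968) (.ev (nat_lit 5549) (nat_lit 562949953421312) .dd))))) (.br
 (nat_lit 30) (.ch (nat_lit 28) (.ev (nat_lit 3696) (nat_lit 1180637228459739906304) (.ev (nat_lit 4516)
 (nat_lit 147573952589676412928) (.ev (nat_lit 4525) (nat_lit 18446744073709551616) .dd)))) (.ch (nat_lit 30)
 (.ev (nat_lit 3696) (nat_lit 1199038364791129309440) (.ev (nat_lit 3732) (nat_lit 9570149208162304) (.ev
 (nat_lit 4004) (nat_lit 36028797018963968) (.ev (nat_lit 5524) (nat_lit 147573952589676412928) (.ev (nat_lit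
 5533) (nat_lit 8796093022208) .dd)))))))) (.br (nat_lit 38) (.br (nat_lit 37) (.ch (nat_lit 32) (.ev (nat_lit
 3696) (nat_lit 1346657916327024460032) (.ev (nat_lit 5268) (nat_lit 8388608) (.ev (nat_lit 5277) (nat_lit
 8796093022208) .dd)))) (.ch (nat_lit 37) (.ev (nat_lit 3696) (nat_lit 1180627649514438721792) (.ev (nat_lit
 3732) (nat_lit 147573952589676412928) (.ev (nat_lit 3892) (nat_lit 18455751272964292608) (.ev (nat_lit 4932)
 (nat_lit 8796093022208) (.ev (nat_lit 4941) (nat_lit 562949953421312) .dd))))))) (.br (nat_lit 41) (.ch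
 (nat_lit 38) (.ev (nat_lit 3696) (nat_lit 1346657925123117416704) (.ev (nat_lit 3732) (nat_lit 8388608) (.ev
 (nat_lit 3741) (nat_lit 65536) .dd)))) (.ch (nat_lit 41) (.ev (nat_lit 3696) (nat_lit 1328202173850161578240)
 (.ev (nat_lit 3860) (nat_lit 18446744073709551616) (.ev (nat_lit 3869) (nat_lit 9007199254740992)
 .dd))))))))))))))) (.ch (nat_lit 5) (.ev (nat_lit 52) (nat_lit 55385836123748139008) (.ev (nat_lit 84)
 (nat_lit 8796093022208) (.ev (nat_lit 468) (nat_lit 147573952589676412928) (.ev (nat_lit 916) (nat_lit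
 274877906944) (.ev (nat_lit 1332) (nat_lit 17179869184) (.ev (nat_lit 1396) (nat_lit 288230376151711744) (.ev
 (nat_lit 1684) (nat_lit 256) (.ev (nat_lit 2388) (nat_lit 32) (.ev (nat_lit 3412) (nat_lit 4194304) (.ev
 (nat_lit 3508) (nat_lit 70368744177664) (.nd (nat_lit 3680) (.br (nat_lit 22) (.br (nat_lit 5) (.br (nat_lit
 2) (.br (nat_lit 1) (.ch (nat_lit 0) (.ev (nat_lit 3696) (nat_lit 1180609652708106829832) (.ev (nat_lit 3780)
 (nat_lit 8388608) (.ev (nat_lit 3789) (nat_lit 67108864) .dd)))) (.ch (nat_lit 1) (.ev (nat_lit 3696) (nat_lit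
 1180591638309672845320) (.ev (nat_lit 3709) (nat_lit 18014398509481984) .dd)))) (.br (nat_lit 4) (.ch (nat_lit
 2) (.ev (nat_lit 3696) (nat_lit 1180591620717486800904) (.ev (nat_lit 5776) (nat_lit 17592186044416) (.ev
 (nat_lit 5789) (nat_lit 18014398509481984) .dd)))) (.ch (nat_lit 4) (.ev (nat_lit 3696) (nat_lit
 1180591638309672845320) (.ev (nat_lit 3709) (nat_lit 18014398509481984) .dd))))) (.br (nat_lit 12) (.br
 (nat_lit 8) (.ch (nat_lit 5) (.ev (nat_lit 3696) (nat_lit 1180609652708182327304) .dd)) (.ch (nat_lit 8) (.ev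
 (nat_lit 3696) (nat_lit 1180609652708115218440) (.ev (nat_lit 3709) (nat_lit 67108864) .dd)))) (.br (nat_lit
 15) (.ch (nat_lit 12) (.ev (nat_lit 3696) (nat_lit 1180609635115929174016) (.ev (nat_lit 3732) (nat_lit 8)
 (.ev (nat_lit 4036) (nat_lit 67108864) (.ev (nat_lit 4045) (nat_lit 17592186044416) .dd))))) (.br (nat_lit 17)
 (.ch (nat_lit 15) (.ev (nat_lit 3696) (nat_lit 17592253153288) (.ev (nat_lit 3732) (nat_lit
 1180591620717411303424) (.ev (nat_lit 5792) (nat_lit 8388608) (.ev (nat_lit 5805) (nat_lit 18014398509481984)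
 .dd))))) (.ch (nat_lit 17) (.ev (nat_lit 3696) (nat_lit 1180609652708182327304) .dd)))))) (.br (nat_lit 29)
 (.br (nat_lit 27) (.br (nat_lit 26) (.ch (nat_lit 22) (.ev (nat_lit 3696) (nat_lit 1180609652708173938696)
 (.ev (nat_lit 3709) (nat_lit 8388608) .dd))) (.ch (nat_lit 26) (.ev (nat_lit 3696) (nat_lit
 1180609652708182327304) .dd))) (.br (nat_lit 28) (.ch (nat_lit 27) (.ev (nat_lit 3696) (nat_lit
 18031990771023880) (.ev (nat_lit 3709) (nat_lit 1180591620717411303424) .dd))) (.ch (nat_lit 28) (.ev (nat_lit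
 3696) (nat_lit 1180591620717419692040) (.ev (nat_lit 3732) (nat_lit 17592186044416) (.ev (nat_lit 3780)
 (nat_lit 67108864) (.ev (nat_lit 3789) (nat_lit 18014398509481984) .dd))))))) (.br (nat_lit 36) (.br (nat_lit
 32) (.ch (nat_lit 29) (.ev (nat_lit 3696) (nat_lit 1180609652708182327296) (.ev (nat_lit 3709) (nat_lit 8)
 .dd))) (.ch (nat_lit 32) (.ev (nat_lit 3696) (nat_lit 1180609635115987894280) (.ev (nat_lit 5268) (nat_lit
 17592186044416) (.ev (nat_lit 5277) (nat_lit 8388608) .dd))))) (.br (nat_lit 38) (.ch (nat_lit 36) (.ev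
 (nat_lit 3696) (nat_lit 17592261541896) (.ev (nat_lit 3732) (nat_lit 18014398509481984) (.ev (nat_lit 3741)
 (nat_lit 1180591620717411303424) .dd)))) (.br (nat_lit 41) (.ch (nat_lit 38) (.ev (nat_lit 3696) (nat_lit
 1180609652708173938696) (.ev (nat_lit 3709) (nat_lit 8388608) .dd))) (.ch (nat_lit 41) (.ev (nat_lit 3696)
 (nat_lit 1180591638309672845320) (.ev (nat_lit 3709) (nat_lit 18014398509481984) .dd))))))))))))))))))))) (.br
 (nat_lit 9) (.ch (nat_lit 6) (.ev (nat_lit 52) (nat_lit 1346909559912604401672) (.ev (nat_lit 148) (nat_lit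
 8796093022208) (.ev (nat_lit 660) (nat_lit 32) (.ev (nat_lit 1620) (nat_lit 36894051097372524544) (.ev
 (nat_lit 1844) (nat_lit 70368744177664) (.ev (nat_lit 2420) (nat_lit 274877906944) (.ev (nat_lit 3636)
 (nat_lit 18014398509481984) (.nd (nat_lit 3680) (.br (nat_lit 23) (.br (nat_lit 6) (.br (nat_lit 4) (.br
 (nat_lit 2) (.ch (nat_lit 0) (.ev (nat_lit 3696) (nat_lit 17609365979136) (.ev (nat_lit 3732) (nat_lit 256)
 (.ev (nat_lit 4132) (nat_lit 4194304) (.ev (nat_lit 5412) (nat_lit 36028797018963968) (.ev (nat_lit 5421)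
 (nat_lit 67108864) .dd)))))) (.ch (nat_lit 2) (.ev (nat_lit 3696) (nat_lit 36028814270202112) (.ev (nat_lit
 3709) (nat_lit 17592186044416) .dd)))) (.br (nat_lit 5) (.ch (nat_lit 4) (.ev (nat_lit 3696) (nat_lit
 36046406456246528) .dd)) (.ch (nat_lit 5) (.ev (nat_lit 3696) (nat_lit 36028797023224064) (.ev (nat_lit 5700)
 (nat_lit 17179869184) (.ev (nat_lit 5824) (nat_lit 17592253153280) .dd)))))) (.br (nat_lit 17) (.br (nat_lit
 13) (.ch (nat_lit 6) (.ev (nat_lit 3696) (nat_lit 36028814270201856) (.ev (nat_lit 5728) (nat_lit 256) (.ev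
 (nat_lit 5741) (nat_lit 17592186044416) .dd)))) (.ch (nat_lit 13) (.ev (nat_lit 3696) (nat_lit
 36046406389137664) (.ev (nat_lit 3709) (nat_lit 67108864) .dd)))) (.br (nat_lit 19) (.ch (nat_lit 17) (.ev
 (nat_lit 3696) (nat_lit 36046389276311808) (.ev (nat_lit 3732) (nat_lit 17179869184) (.ev (nat_lit 3741)
 (nat_lit 65536) .dd)))) (.br (nat_lit 22) (.ch (nat_lit 19) (.ev (nat_lit 3696) (nat_lit 36028814203092992)
 (.ev (nat_lit 5700) (nat_lit 256) (.ev (nat_lit 5728) (nat_lit 67108864) (.ev (nat_lit 5741) (nat_lit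
 17592186044416) .dd))))) (.ch (nat_lit 22) (.ev (nat_lit 3696) (nat_lit 36046406452052224) (.ev (nat_lit 3709)
 (nat_lit 4194304) .dd))))))) (.br (nat_lit 32) (.br (nat_lit 27) (.br (nat_lit 26) (.ch (nat_lit 23) (.ev
 (nat_lit 3696) (nat_lit 36046389209268480) (.ev (nat_lit 3732) (nat_lit 17179869184) (.ev (nat_lit 3741)
 (nat_lit 67108864) .dd)))) (.ch (nat_lit 26) (.ev (nat_lit 3696) (nat_lit 36046406389137664) (.ev (nat_lit
 3709) (nat_lit 67108864) .dd)))) (.br (nat_lit 28) (.ch (nat_lit 27) (.ev (nat_lit 3696) (nat_lit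
 36046406451986688) (.ev (nat_lit 4432) (nat_lit 4194304) (.ev (nat_lit 4445) (nat_lit 65536) .dd)))) (.ch
 (nat_lit 28) (.ev (nat_lit 3696) (nat_lit 36028814270201856) (.ev (nat_lit 3732) (nat_lit 256) (.ev (nat_lit
 3741) (nat_lit 17592186044416) .dd)))))) (.br (nat_lit 37) (.br (nat_lit 36) (.ch (nat_lit 32) (.ev (nat_lit
 3696) (nat_lit 36028814266007808) (.ev (nat_lit 5600) (nat_lit 17592186044416) (.ev (nat_lit 5613) (nat_lit
 4194304) .dd)))) (.ch (nat_lit 36) (.ev (nat_lit 3696) (nat_lit 36046406452051968) (.ev (nat_lit 5524)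
 (nat_lit 256) (.ev (nat_lit 5533) (nat_lit 4194304) .dd))))) (.br (nat_lit 38) (.ch (nat_lit 37) (.ev (nat_lit
 3696) (nat_lit 17592253153536) (.ev (nat_lit 3732) (nat_lit 17179869184) (.ev (nat_lit 3780) (nat_lit
 36028797018963968) (.ev (nat_lit 5536) (nat_lit 65536) (.ev (nat_lit 5549) (nat_lit 4194304) .dd)))))) (.br
 (nat_lit 39) (.ch (nat_lit 38) (.ev (nat_lit 3696) (nat_lit 36028797090267392) (.ev (nat_lit 3780) (nat_lit
 17592186044416) (.ev (nat_lit 4016) (nat_lit 65536) (.ev (nat_lit 4029) (nat_lit 17179869184) .dd))))) (.ch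
 (nat_lit 39) (.ev (nat_lit 3696) (nat_lit 36046406456180992) (.ev (nat_lit 3709) (nat_lit 65536)
 .dd))))))))))))))))) (.ch (nat_lit 9) (.ev (nat_lit 52) (nat_lit 63614169382944776) (.ev (nat_lit 596)
 (nat_lit 18446744073709551616) (.ev (nat_lit 1108) (nat_lit 147573952589676412928) (.ev (nat_lit 1460)
 (nat_lit 65536) (.ev (nat_lit 2356) (nat_lit 17179869184) (.ev (nat_lit 2740) (nat_lit 32) (.ev (nat_lit 2772)
 (nat_lit 67108864) (.ev (nat_lit 3124) (nat_lit 70368744177664) (.nd (nat_lit 3680) (.br (nat_lit 23) (.br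
 (nat_lit 13) (.br (nat_lit 4) (.ch (nat_lit 1) (.ev (nat_lit 3696) (nat_lit 1180879873092385505536) (.ev
 (nat_lit 5700) (nat_lit 8796093022208) (.ev (nat_lit 5709) (nat_lit 36893488147419103232) .dd)))) (.br
 (nat_lit 6) (.ch (nat_lit 4) (.ev (nat_lit 3696) (nat_lit 1217773343639028629760) (.ev (nat_lit 3828) (nat_lit
 17592186044416) (.ev (nat_lit 4772) (nat_lit 8796093022208) (.ev (nat_lit 4781) (nat_lit 8589934592) .dd)))))
 (.ch (nat_lit 6) (.ev (nat_lit 3696) (nat_lit 1217485130863652897024) (.ev (nat_lit 3732) (nat_lit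
 288230376151711744) (.ev (nat_lit 3741) (nat_lit 8796093022208) .dd)))))) (.br (nat_lit 17) (.br (nat_lit 15)
 (.ch (nat_lit 13) (.ev (nat_lit 3696) (nat_lit 17592186044416) (.ev (nat_lit 3780) (nat_lit
 36893488147419103232) (.ev (nat_lit 4736) (nat_lit 8589934592) (.ev (nat_lit 5120) (nat_lit 4398046511360)
 (.ev (nat_lit 5700) (nat_lit 1180591620717411303424) (.ev (nat_lit 5808) (nat_lit 8796093022208) (.ev (nat_lit
 5821) (nat_lit 288230376151711744) .dd)))))))) (.ch (nat_lit 15) (.ev (nat_lit 3696) (nat_lit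
 1217773352443711586304) (.ev (nat_lit 5700) (nat_lit 17592186044416) (.ev (nat_lit 5709) (nat_lit 256)
 .dd))))) (.br (nat_lit 21) (.ch (nat_lit 17) (.ev (nat_lit 3696) (nat_lit 1217773370035897630976) .dd)) (.ch
 (nat_lit 21) (.ev (nat_lit 3696) (nat_lit 1180879868694338994432) (.ev (nat_lit 3732) (nat_lit
 36893488147419103232) (.ev (nat_lit 4516) (nat_lit 8796093022208) (.ev (nat_lit 4525) (nat_lit 4398046511104)
 .dd)))))))) (.br (nat_lit 32) (.br (nat_lit 28) (.br (nat_lit 27) (.ch (nat_lit 23) (.ev (nat_lit 3696)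
 (nat_lit 1217773365629261185280) (.ev (nat_lit 5440) (nat_lit 4398046511104) (.ev (nat_lit 5453) (nat_lit
 8589934592) .dd)))) (.ch (nat_lit 27) (.ev (nat_lit 3696) (nat_lit 37181744920439816448) (.ev (nat_lit 3828)
 (nat_lit 4398046511104) (.ev (nat_lit 3837) (nat_lit 1180591620717411303424) .dd))))) (.br (nat_lit 29) (.ch
 (nat_lit 28) (.ev (nat_lit 3696) (nat_lit 1217773370027307696384) (.ev (nat_lit 3709) (nat_lit 8589934592)
 .dd))) (.ch (nat_lit 29) (.ev (nat_lit 3696) (nat_lit 1217773365629261185280) (.ev (nat_lit 5632) (nat_lit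
 8589934592) (.ev (nat_lit 5645) (nat_lit 4398046511104) .dd)))))) (.br (nat_lit 38) (.br (nat_lit 37) (.ch
 (nat_lit 32) (.ev (nat_lit 3696) (nat_lit 1180591633920140771584) (.ev (nat_lit 5412) (nat_lit 17592186044416)
 (.ev (nat_lit 5700) (nat_lit 288230376151711744) (.ev (nat_lit 5709) (nat_lit 36893488147419103232) .dd)))))
 (.ch (nat_lit 37) (.ev (nat_lit 3696) (nat_lit 1217485139659745919232) (.ev (nat_lit 3709) (nat_lit
 288230376151711744) .dd)))) (.br (nat_lit 41) (.ch (nat_lit 38) (.ev (nat_lit 3696) (nat_lit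
 1217773365637851119872) (.ev (nat_lit 3709) (nat_lit 4398046511104) .dd))) (.ch (nat_lit 41) (.ev (nat_lit
 3696) (nat_lit 1180879877490432016640) (.ev (nat_lit 3732) (nat_lit 4398046511104) (.ev (nat_lit 3741)
 (nat_lit 36893488147419103232) .dd)))))))))))))))))))) (.br (nat_lit 12) (.br (nat_lit 11) (.ch (nat_lit 10)
 (.ev (nat_lit 52) (nat_lit 18492427149756137768) (.ev (nat_lit 1792) (nat_lit 1365365324104901623808) .dd)))
 (.ch (nat_lit 11) (.ev (nat_lit 52) (nat_lit 184468096320912031752) (.ev (nat_lit 1012) (nat_lit 4194304) (.ev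
 (nat_lit 1300) (nat_lit 288230376151711744) (.ev (nat_lit 1428) (nat_lit 18014398509481984) (.ev (nat_lit
 1556) (nat_lit 9007199254740992) (.ev (nat_lit 2548) (nat_lit 36028797018963968) (.ev (nat_lit 2676) (nat_lit
 256) (.ev (nat_lit 2804) (nat_lit 8796093022208) (.ev (nat_lit 3028) (nat_lit 32768) (.ev (nat_lit 3604)
 (nat_lit 18446744073709551616) (.nd (nat_lit 3680) (.br (nat_lit 16) (.br (nat_lit 8) (.br (nat_lit 5) (.br
 (nat_lit 1) (.ch (nat_lit 0) (.ev (nat_lit 3696) (nat_lit 1180591621267234226176) (.ev (nat_lit 3780) (nat_lit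
 8589934592) (.ev (nat_lit 3872) (nat_lit 32) (.ev (nat_lit 3885) (nat_lit 17179869184) .dd))))) (.ch (nat_lit
 1) (.ev (nat_lit 3696) (nat_lit 1180591620743248216064) (.ev (nat_lit 5024) (nat_lit 32) (.ev (nat_lit 5037)
 (nat_lit 549755813888) .dd))))) (.br (nat_lit 7) (.ch (nat_lit 5) (.ev (nat_lit 3696) (nat_lit
 1180591621275757051936) (.ev (nat_lit 5524) (nat_lit 67108864) (.ev (nat_lit 5533) (nat_lit 17179869184)
 .dd)))) (.ch (nat_lit 7) (.ev (nat_lit 3696) (nat_lit 1180591621292936921120) (.ev (nat_lit 3709) (nat_lit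
 67108864) .dd))))) (.br (nat_lit 12) (.br (nat_lit 10) (.ch (nat_lit 8) (.ev (nat_lit 3696) (nat_lit
 575592726560) (.ev (nat_lit 3709) (nat_lit 1180591620717411303424) .dd))) (.ch (nat_lit 10) (.ev (nat_lit
 3696) (nat_lit 1180591621293004029952) (.ev (nat_lit 3709) (nat_lit 32) .dd)))) (.br (nat_lit 13) (.ch
 (nat_lit 12) (.ev (nat_lit 3696) (nat_lit 575592726528) (.ev (nat_lit 4864) (nat_lit 1180591620717411303424)
 (.ev (nat_lit 4877) (nat_lit 32) .dd)))) (.br (nat_lit 15) (.ch (nat_lit 13) (.ev (nat_lit 3696) (nat_lit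
 8657043488) (.ev (nat_lit 3780) (nat_lit 1180591620717411303424) (.ev (nat_lit 5744) (nat_lit 549755813888)
 (.ev (nat_lit 5757) (nat_lit 17179869184) .dd))))) (.ch (nat_lit 15) (.ev (nat_lit 3696) (nat_lit
 1180591621293004029984) .dd)))))) (.br (nat_lit 23) (.br (nat_lit 21) (.br (nat_lit 19) (.ch (nat_lit 16) (.ev
 (nat_lit 3696) (nat_lit 1180591621292936921088) (.ev (nat_lit 5700) (nat_lit 32) (.ev (nat_lit 5709) (nat_lit
 67108864) .dd)))) (.ch (nat_lit 19) (.ev (nat_lit 3696) (nat_lit 575592726560) (.ev (nat_lit 3709) (nat_lit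
 1180591620717411303424) .dd)))) (.br (nat_lit 22) (.ch (nat_lit 21) (.ev (nat_lit 3696) (nat_lit 25836912672)
 (.ev (nat_lit 5700) (nat_lit 549755813888) (.ev (nat_lit 5709) (nat_lit 1180591620717411303424) .dd)))) (.ch
 (nat_lit 22) (.ev (nat_lit 3696) (nat_lit 17246978048) (.ev (nat_lit 4852) (nat_lit 32) (.ev (nat_lit 5268)
 (nat_lit 8589934592) (.ev (nat_lit 5296) (nat_lit 1180591620717411303424) (.ev (nat_lit 5309) (nat_lit
 549755813888) .dd)))))))) (.br (nat_lit 28) (.br (nat_lit 26) (.ch (nat_lit 23) (.ev (nat_lit 3696) (nat_lit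
 1180591621275757051936) (.ev (nat_lit 3732) (nat_lit 67108864) (.ev (nat_lit 3741) (nat_lit 17179869184)
 .dd)))) (.ch (nat_lit 26) (.ev (nat_lit 3696) (nat_lit 1180591621292936921120) (.ev (nat_lit 3709) (nat_lit
 67108864) .dd)))) (.br (nat_lit 36) (.ch (nat_lit 28) (.ev (nat_lit 3696) (nat_lit 1180591621284414095392)
 (.ev (nat_lit 3709) (nat_lit 8589934592) .dd))) (.br (nat_lit 37) (.ch (nat_lit 36) (.ev (nat_lit 3696)
 (nat_lit 558412857376) (.ev (nat_lit 3732) (nat_lit 1180591620717411303424) (.ev (nat_lit 3741) (nat_lit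
 17179869184) .dd)))) (.ch (nat_lit 37) (.ev (nat_lit 3696) (nat_lit 1180591620726068346880) (.ev (nat_lit
 3732) (nat_lit 549755813888) (.ev (nat_lit 3780) (nat_lit 32) (.ev (nat_lit 3789) (nat_lit 17179869184)
 .dd))))))))))))))))))))))) (.br (nat_lit 15) (.ch (nat_lit 12) (.ev (nat_lit 52) (nat_lit
 1346657995500459917576) (.ev (nat_lit 244) (nat_lit 17592186044416) (.ev (nat_lit 724) (nat_lit 4194304) (.ev
 (nat_lit 1888) (nat_lit 37199738162007605280) .dd))))) (.ch (nat_lit 15) (.ev (nat_lit 52) (nat_lit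
 306816537891733768) (.ev (nat_lit 244) (nat_lit 8388608) (.ev (nat_lit 308) (nat_lit 147573952589676412928)
 (.ev (nat_lit 1108) (nat_lit 18446744073709551616) (.ev (nat_lit 1524) (nat_lit 1180591620717411303424) (.ev
 (nat_lit 1588) (nat_lit 9007199254740992) (.ev (nat_lit 3060) (nat_lit 32) (.nd (nat_lit 3680) (.br (nat_lit
 19) (.br (nat_lit 8) (.br (nat_lit 4) (.ch (nat_lit 0) (.ev (nat_lit 3696) (nat_lit 36929609586882641920) (.ev
 (nat_lit 3732) (nat_lit 549755813888) (.ev (nat_lit 4784) (nat_lit 65536) (.ev (nat_lit 4797) (nat_lit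
 67108864) .dd))))) (.br (nat_lit 5) (.ch (nat_lit 4) (.ev (nat_lit 3696) (nat_lit 36929539493083545600) (.ev
 (nat_lit 5524) (nat_lit 70368744177664) (.ev (nat_lit 5533) (nat_lit 274877906944) .dd)))) (.ch (nat_lit 5)
 (.ev (nat_lit 3696) (nat_lit 36104397100482560) (.ev (nat_lit 4820) (nat_lit 17592186044416) (.ev (nat_lit
 4829) (nat_lit 36893488147419103232) .dd)))))) (.br (nat_lit 12) (.br (nat_lit 10) (.ch (nat_lit 8) (.ev
 (nat_lit 3696) (nat_lit 36893580789930852352) (.ev (nat_lit 3828) (nat_lit 549755813888) (.ev (nat_lit 3837)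
 (nat_lit 36028797018963968) .dd)))) (.ch (nat_lit 10) (.ev (nat_lit 3696) (nat_lit 36929592269641678848) (.ev
 (nat_lit 4468) (nat_lit 274877906944) (.ev (nat_lit 4477) (nat_lit 17592186044416) .dd))))) (.br (nat_lit 17)
 (.ch (nat_lit 12) (.ev (nat_lit 3696) (nat_lit 36034028289196032) (.ev (nat_lit 3828) (nat_lit 17592186044416)
 (.ev (nat_lit 3956) (nat_lit 70368744177664) (.ev (nat_lit 4852) (nat_lit 36893488147419103232) (.ev (nat_lit
 4861) (nat_lit 67108864) .dd)))))) (.ch (nat_lit 17) (.ev (nat_lit 3696) (nat_lit 36929610136638455808) (.ev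
 (nat_lit 5552) (nat_lit 65536) (.ev (nat_lit 5565) (nat_lit 67108864) .dd))))))) (.br (nat_lit 29) (.br
 (nat_lit 26) (.br (nat_lit 22) (.ch (nat_lit 19) (.ev (nat_lit 3696) (nat_lit 36929587321839288320) (.ev
 (nat_lit 3732) (nat_lit 4398046511104) (.ev (nat_lit 5700) (nat_lit 274877906944) (.ev (nat_lit 5712) (nat_lit
 549755813888) (.ev (nat_lit 5744) (nat_lit 17592186044416) (.ev (nat_lit 5757) (nat_lit 65536) .dd))))))) (.ch
 (nat_lit 22) (.ev (nat_lit 3696) (nat_lit 36051611952349184) (.ev (nat_lit 3732) (nat_lit 65536) (.ev (nat_lit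
 4884) (nat_lit 70368744177664) (.ev (nat_lit 5524) (nat_lit 8589934592) (.ev (nat_lit 5533) (nat_lit
 36893488147419103232) .dd))))))) (.br (nat_lit 28) (.ch (nat_lit 26) (.ev (nat_lit 3696) (nat_lit
 36893510970942488576) (.ev (nat_lit 3732) (nat_lit 70368744177664) (.ev (nat_lit 3741) (nat_lit
 36028797018963968) .dd)))) (.ch (nat_lit 28) (.ev (nat_lit 3696) (nat_lit 36929591719818690560) (.ev (nat_lit
 3732) (nat_lit 549755879424) (.ev (nat_lit 4004) (nat_lit 67108864) (.ev (nat_lit 4112) (nat_lit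
 17592186044416) (.ev (nat_lit 4125) (nat_lit 274877906944) .dd)))))))) (.br (nat_lit 37) (.br (nat_lit 30)
 (.ch (nat_lit 29) (.ev (nat_lit 3696) (nat_lit 36929609853237788672) (.ev (nat_lit 3732) (nat_lit
 274877906944) (.ev (nat_lit 3741) (nat_lit 8589934592) .dd)))) (.ch (nat_lit 30) (.ev (nat_lit 3696) (nat_lit
 36893510970942488576) (.ev (nat_lit 4532) (nat_lit 70368744177664) (.ev (nat_lit 4541) (nat_lit
 36028797018963968) .dd))))) (.br (nat_lit 38) (.ch (nat_lit 37) (.ev (nat_lit 3696) (nat_lit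
 36121439530713088) (.ev (nat_lit 3860) (nat_lit 36893488147419103232) (.ev (nat_lit 3869) (nat_lit
 549755813888) .dd)))) (.ch (nat_lit 38) (.ev (nat_lit 3696) (nat_lit 36103572466696192) (.ev (nat_lit 3732)
 (nat_lit 17592186044416) (.ev (nat_lit 3892) (nat_lit 36893488697174917120) (.ev (nat_lit 5700) (nat_lit
 274877906944) (.ev (nat_lit 5709) (nat_lit 65536) .dd)))))))))))))))))))))) (.br (nat_lit 22) (.br (nat_lit
 18) (.br (nat_lit 17) (.ch (nat_lit 16) (.ev (nat_lit 52) (nat_lit 1236274218869264023552) (.ev (nat_lit 864)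
 (nat_lit 147583532385393738024) .dd))) (.ch (nat_lit 17) (.ev (nat_lit 52) (nat_lit 1365086179826549751848)
 (.ev (nat_lit 468) (nat_lit 18446744073709551616) (.ev (nat_lit 820) (nat_lit 8589934592) (.ev (nat_lit 1044)
 (nat_lit 36028797018963968) (.ev (nat_lit 3444) (nat_lit 256) (.nd (nat_lit 3680) (.br (nat_lit 21) (.br
 (nat_lit 8) (.br (nat_lit 6) (.br (nat_lit 5) (.ch (nat_lit 1) (.ev (nat_lit 3696) (nat_lit
 288235598836137984) (.ev (nat_lit 3709) (nat_lit 562949953421312) .dd))) (.ch (nat_lit 5) (.ev (nat_lit 3696)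
 (nat_lit 288235049080324096) (.ev (nat_lit 3732) (nat_lit 562949953421312) (.ev (nat_lit 3741) (nat_lit
 549755813888) .dd))))) (.br (nat_lit 7) (.ch (nat_lit 6) (.ev (nat_lit 3696) (nat_lit 567622882033664) (.ev
 (nat_lit 5268) (nat_lit 288230376151711744) (.ev (nat_lit 5277) (nat_lit 549755813888) .dd)))) (.ch (nat_lit
 7) (.ev (nat_lit 3696) (nat_lit 288235598831943680) (.ev (nat_lit 5744) (nat_lit 562949957615616) .dd)))))
 (.br (nat_lit 12) (.br (nat_lit 10) (.ch (nat_lit 8) (.ev (nat_lit 3696) (nat_lit 288793600983040000) (.ev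
 (nat_lit 3732) (nat_lit 4194304) (.ev (nat_lit 3780) (nat_lit 4398046511104) (.ev (nat_lit 3789) (nat_lit
 549755813888) .dd))))) (.ch (nat_lit 10) (.ev (nat_lit 3696) (nat_lit 288230925907525632) (.ev (nat_lit 4468)
 (nat_lit 4398046511104) (.ev (nat_lit 4884) (nat_lit 562949953421312) (.ev (nat_lit 5504) (nat_lit
 274877906944) (.ev (nat_lit 5517) (nat_lit 4194304) .dd))))))) (.br (nat_lit 13) (.ch (nat_lit 12) (.ev
 (nat_lit 3696) (nat_lit 568172637847552) (.ev (nat_lit 3709) (nat_lit 288230376151711744) .dd))) (.br (nat_lit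
 15) (.ch (nat_lit 13) (.ev (nat_lit 3696) (nat_lit 567622882033664) (.ev (nat_lit 3732) (nat_lit
 288230376151711744) (.ev (nat_lit 3741) (nat_lit 549755813888) .dd)))) (.ch (nat_lit 15) (.ev (nat_lit 3696)
 (nat_lit 288235598836137984) (.ev (nat_lit 3709) (nat_lit 562949953421312) .dd))))))) (.br (nat_lit 30) (.br
 (nat_lit 27) (.br (nat_lit 22) (.ch (nat_lit 21) (.ev (nat_lit 3696) (nat_lit 288794150743048192) (.ev
 (nat_lit 3709) (nat_lit 4398046511104) .dd))) (.ch (nat_lit 22) (.ev (nat_lit 3696) (nat_lit 568172637847552)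
 (.ev (nat_lit 3709) (nat_lit 288230376151711744) .dd)))) (.br (nat_lit 28) (.ch (nat_lit 27) (.ev (nat_lit
 3696) (nat_lit 288231200789626880) (.ev (nat_lit 4480) (nat_lit 562949953421312) (.ev (nat_lit 4493) (nat_lit
 4398046511104) .dd)))) (.ch (nat_lit 28) (.ev (nat_lit 3696) (nat_lit 288798273911652352) (.ev (nat_lit 3709)
 (nat_lit 274877906944) .dd))))) (.br (nat_lit 38) (.br (nat_lit 36) (.ch (nat_lit 30) (.ev (nat_lit 3696)
 (nat_lit 288235049076129792) (.ev (nat_lit 3780) (nat_lit 562949953421312) (.ev (nat_lit 5700) (nat_lit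
 549755813888) (.ev (nat_lit 5709) (nat_lit 4194304) .dd))))) (.ch (nat_lit 36) (.ev (nat_lit 3696) (nat_lit
 288798548789559296) .dd))) (.br (nat_lit 39) (.ch (nat_lit 38) (.ev (nat_lit 3696) (nat_lit
 288793326109327360) (.ev (nat_lit 3780) (nat_lit 274877906944) (.ev (nat_lit 3872) (nat_lit 4398046511104)
 (.ev (nat_lit 3885) (nat_lit 549755813888) .dd))))) (.br (nat_lit 41) (.ch (nat_lit 39) (.ev (nat_lit 3696)
 (nat_lit 563774591336448) (.ev (nat_lit 5328) (nat_lit 4398046511104) (.ev (nat_lit 5341) (nat_lit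
 288230376151711744) .dd)))) (.ch (nat_lit 41) (.ev (nat_lit 3696) (nat_lit 288794150738853888) (.ev (nat_lit
 5524) (nat_lit 4194304) (.ev (nat_lit 5533) (nat_lit 4398046511104) .dd))))))))))))))))) (.br (nat_lit 21)
 (.ch (nat_lit 18) (.ev (nat_lit 52) (nat_lit 1217773370027374903552) (.ev (nat_lit 532) (nat_lit 274877906944)
 (.ev (nat_lit 1076) (nat_lit 17179869184) (.ev (nat_lit 1268) (nat_lit 8) (.ev (nat_lit 1972) (nat_lit
 4194304) (.ev (nat_lit 2452) (nat_lit 9007199254740992) (.ev (nat_lit 2676) (nat_lit 32) (.ev (nat_lit 2836)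
 (nat_lit 549755813888) (.ev (nat_lit 2868) (nat_lit 18014398509481984) (.nd (nat_lit 3680) (.br (nat_lit 23)
 (.br (nat_lit 12) (.br (nat_lit 2) (.ch (nat_lit 0) (.ev (nat_lit 3696) (nat_lit 18483406198016049152) (.ev
 (nat_lit 3780) (nat_lit 147573952589676412928) (.ev (nat_lit 3789) (nat_lit 8388608) .dd)))) (.br (nat_lit 6)
 (.ch (nat_lit 2) (.ev (nat_lit 3696) (nat_lit 166057358787700850688) .dd)) (.ch (nat_lit 6) (.ev (nat_lit
 3696) (nat_lit 18483406198024437760) (.ev (nat_lit 3709) (nat_lit 147573952589676412928) .dd))))) (.br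
 (nat_lit 15) (.br (nat_lit 13) (.ch (nat_lit 12) (.ev (nat_lit 3696) (nat_lit 147610544345238732800) (.ev
 (nat_lit 4004) (nat_lit 18446744073709551616) (.ev (nat_lit 5584) (nat_lit 8388608) (.ev (nat_lit 5597)
 (nat_lit 70368744177664) .dd))))) (.ch (nat_lit 13) (.ev (nat_lit 3696) (nat_lit 166057358779110916096) (.ev
 (nat_lit 3709) (nat_lit 8589934592) .dd)))) (.br (nat_lit 22) (.ch (nat_lit 15) (.ev (nat_lit 3696) (nat_lit
 166057288418956673024) (.ev (nat_lit 3709) (nat_lit 70368744177664) .dd))) (.ch (nat_lit 22) (.ev (nat_lit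
 3696) (nat_lit 166057358787692462080) (.ev (nat_lit 3709) (nat_lit 8388608) .dd)))))) (.br (nat_lit 32) (.br
 (nat_lit 29) (.br (nat_lit 27) (.ch (nat_lit 23) (.ev (nat_lit 3696) (nat_lit 147610614705401364480) (.ev
 (nat_lit 3780) (nat_lit 8589934592) (.ev (nat_lit 3789) (nat_lit 18446744073709551616) .dd)))) (.ch (nat_lit
 27) (.ev (nat_lit 3696) (nat_lit 166057358787700850688) .dd))) (.br (nat_lit 30) (.ch (nat_lit 29) (.ev
 (nat_lit 3696) (nat_lit 166057358779110916096) (.ev (nat_lit 3709) (nat_lit 8589934592) .dd))) (.ch (nat_lit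
 30) (.ev (nat_lit 3696) (nat_lit 147574022967018913792) (.ev (nat_lit 5792) (nat_lit 36028797018963968) (.fin
 (nat_lit 576456904011104848))))))) (.br (nat_lit 39) (.br (nat_lit 38) (.ch (nat_lit 32) (.ev (nat_lit 3696)
 (nat_lit 147610614713982910464) (.ev (nat_lit 5184) (nat_lit 8388608) (.ev (nat_lit 5197) (nat_lit
 18446744073709551616) .dd)))) (.ch (nat_lit 38) (.ev (nat_lit 3696) (nat_lit 166057358787692462080) (.ev
 (nat_lit 3709) (nat_lit 8388608) .dd)))) (.br (nat_lit 41) (.ch (nat_lit 39) (.ev (nat_lit 3696) (nat_lit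
 18483335829280260096) (.ev (nat_lit 3956) (nat_lit 70368744177664) (.ev (nat_lit 3965) (nat_lit
 147573952589676412928) .dd)))) (.ch (nat_lit 41) (.ev (nat_lit 3696) (nat_lit 166021329990681886720) (.ev
 (nat_lit 3709) (nat_lit 36028797018963968) .dd)))))))))))))))))) (.ch (nat_lit 21) (.ev (nat_lit 52) (nat_lit
 1180609731890123964712) (.ev (nat_lit 116) (nat_lit 549755813888) (.ev (nat_lit 532) (nat_lit 4194304) (.ev
 (nat_lit 1044) (nat_lit 18446744073709551616) (.ev (nat_lit 1492) (nat_lit 4398046511104) (.ev (nat_lit 2016)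
 (nat_lit 184801270343017725952) .dd))))))))) (.br (nat_lit 26) (.br (nat_lit 24) (.ch (nat_lit 22) (.ev
 (nat_lit 52) (nat_lit 1180609640063790317832) (.ev (nat_lit 512) (nat_lit 203248111190867443744) .dd))) (.ch
 (nat_lit 24) (.ev (nat_lit 52) (nat_lit 55367909703352877320) (.ev (nat_lit 1780) (nat_lit 65536) (.ev
 (nat_lit 1876) (nat_lit 147573952589676412928) (.ev (nat_lit 2260) (nat_lit 1180591620717411303424) (.ev
 (nat_lit 3392) (nat_lit 324268244217102368) .dd))))))) (.br (nat_lit 28) (.ch (nat_lit 26) (.ev (nat_lit 52)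
 (nat_lit 36938550832619618592) (.ev (nat_lit 84) (nat_lit 549755813888) (.ev (nat_lit 180) (nat_lit 65536)
 (.ev (nat_lit 276) (nat_lit 4398046511104) (.ev (nat_lit 1044) (nat_lit 147573952589676412928) (.ev (nat_lit
 2260) (nat_lit 67108864) (.ev (nat_lit 2644) (nat_lit 8) (.ev (nat_lit 2676) (nat_lit 70368744177664) (.ev
 (nat_lit 3060) (nat_lit 1180591620717411303424) (.nd (nat_lit 3680) (.br (nat_lit 17) (.br (nat_lit 5) (.br
 (nat_lit 2) (.br (nat_lit 1) (.ch (nat_lit 0) (.ev (nat_lit 3696) (nat_lit 18014398522064896) (.ev (nat_lit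
 3732) (nat_lit 18446744073709551616) (.ev (nat_lit 4292) (nat_lit 562949953421312) (.ev (nat_lit 4301)
 (nat_lit 288230376151711744) .dd))))) (.ch (nat_lit 1) (.ev (nat_lit 3696) (nat_lit 18735537399827267584) (.ev
 (nat_lit 3709) (nat_lit 18014398509481984) .dd)))) (.br (nat_lit 4) (.ch (nat_lit 2) (.ev (nat_lit 3696)
 (nat_lit 288793326117715968) (.ev (nat_lit 3732) (nat_lit 18014398509481984) (.ev (nat_lit 3741) (nat_lit
 18446744073709551616) .dd)))) (.ch (nat_lit 4) (.ev (nat_lit 3696) (nat_lit 18735537399823073280) (.ev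
 (nat_lit 5700) (nat_lit 4194304) (.ev (nat_lit 5709) (nat_lit 18014398509481984) .dd)))))) (.br (nat_lit 8)
 (.br (nat_lit 7) (.ch (nat_lit 5) (.ev (nat_lit 3696) (nat_lit 306807724627197952) (.ev (nat_lit 3709)
 (nat_lit 18446744073709551616) .dd))) (.ch (nat_lit 7) (.ev (nat_lit 3696) (nat_lit 18753551798324166656) (.ev
 (nat_lit 3828) (nat_lit 4194304) (.ev (nat_lit 3837) (nat_lit 8388608) .dd))))) (.br (nat_lit 13) (.ch
 (nat_lit 8) (.ev (nat_lit 3696) (nat_lit 18735537399823073280) (.ev (nat_lit 5472) (nat_lit 18014398509481984)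
 (.ev (nat_lit 5485) (nat_lit 4194304) .dd)))) (.br (nat_lit 15) (.ch (nat_lit 13) (.ev (nat_lit 3696) (nat_lit
 18465321422176649216) (.ev (nat_lit 3732) (nat_lit 288230376151711744) (.ev (nat_lit 3741) (nat_lit 8388608)
 .dd)))) (.ch (nat_lit 15) (.ev (nat_lit 3696) (nat_lit 18752988848374939648) (.ev (nat_lit 5700) (nat_lit
 562949953421312) (.ev (nat_lit 5709) (nat_lit 8388608) .dd)))))))) (.br (nat_lit 29) (.br (nat_lit 26) (.br
 (nat_lit 21) (.ch (nat_lit 17) (.ev (nat_lit 3696) (nat_lit 18734974449865457664) (.ev (nat_lit 3760) (nat_lit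
 8388608) (.ev (nat_lit 3828) (nat_lit 18014398509481984) (.ev (nat_lit 3837) (nat_lit 562949953421312)
 .dd))))) (.ch (nat_lit 21) (.ev (nat_lit 3696) (nat_lit 18465321422185037824) (.ev (nat_lit 3709) (nat_lit
 288230376151711744) .dd)))) (.br (nat_lit 27) (.ch (nat_lit 26) (.ev (nat_lit 3696) (nat_lit
 18753551798336749568) .dd)) (.ch (nat_lit 27) (.ev (nat_lit 3696) (nat_lit 18753551798332555264) (.ev (nat_lit
 3709) (nat_lit 4194304) .dd))))) (.br (nat_lit 36) (.br (nat_lit 30) (.ch (nat_lit 29) (.ev (nat_lit 3696)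
 (nat_lit 18465321422185037824) (.ev (nat_lit 3709) (nat_lit 288230376151711744) .dd))) (.ch (nat_lit 30) (.ev
 (nat_lit 3696) (nat_lit 288230376164294656) (.ev (nat_lit 4564) (nat_lit 18014398509481984) (.fin (nat_lit
 576456904011104848)))))) (.br (nat_lit 37) (.ch (nat_lit 36) (.ev (nat_lit 3696) (nat_lit
 18753551798336749568) .dd)) (.br (nat_lit 41) (.ch (nat_lit 37) (.ev (nat_lit 3696) (nat_lit
 18752988848383328256) (.ev (nat_lit 3709) (nat_lit 562949953421312) .dd))) (.ch (nat_lit 41) (.ev (nat_lit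
 3696) (nat_lit 18447307023671361536) (.ev (nat_lit 5268) (nat_lit 4194304) (.ev (nat_lit 5712) (nat_lit
 18014398509481984) (.ev (nat_lit 5725) (nat_lit 288230376151711744) .dd))))))))))))))))))))) (.br (nat_lit 29)
 (.ch (nat_lit 28) (.ev (nat_lit 52) (nat_lit 1328481397327697805600) (.ev (nat_lit 564) (nat_lit 549755813888)
 (.ev (nat_lit 756) (nat_lit 8388608) (.ev (nat_lit 1396) (nat_lit 8) (.ev (nat_lit 2400) (nat_lit
 55376353377195753472) .dd)))))) (.ch (nat_lit 29) (.ev (nat_lit 52) (nat_lit 18780578077669851176) (.ev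
 (nat_lit 148) (nat_lit 8388608) (.ev (nat_lit 372) (nat_lit 147573952589676412928) (.ev (nat_lit 1844)
 (nat_lit 256) (.ev (nat_lit 1908) (nat_lit 4194304) (.ev (nat_lit 2772) (nat_lit 1180591620717411303424) (.ev
 (nat_lit 3252) (nat_lit 18014398509481984) (.nd (nat_lit 3680) (.br (nat_lit 15) (.br (nat_lit 8) (.br
 (nat_lit 6) (.ch (nat_lit 0) (.ev (nat_lit 3696) (nat_lit 36893584904442380288) (.ev (nat_lit 4516) (nat_lit
 549755813888) (.ev (nat_lit 5412) (nat_lit 65536) (.ev (nat_lit 5421) (nat_lit 17179869184) .dd))))) (.br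
 (nat_lit 7) (.ch (nat_lit 6) (.ev (nat_lit 3696) (nat_lit 9363028803584) (.ev (nat_lit 3732) (nat_lit
 17592186044416) (.ev (nat_lit 5728) (nat_lit 70368744177664) (.ev (nat_lit 5741) (nat_lit
 36893488147419103232) .dd))))) (.ch (nat_lit 7) (.ev (nat_lit 3696) (nat_lit 36893576675285106688) (.ev
 (nat_lit 3709) (nat_lit 8796093022208) .dd))))) (.br (nat_lit 12) (.br (nat_lit 10) (.ch (nat_lit 8) (.ev
 (nat_lit 3696) (nat_lit 36893576675285106688) (.ev (nat_lit 3709) (nat_lit 8796093022208) .dd))) (.ch (nat_lit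
 10) (.ev (nat_lit 3696) (nat_lit 36893497510447841280) (.ev (nat_lit 5268) (nat_lit 70368744177664) (.ev
 (nat_lit 5712) (nat_lit 65536) (.ev (nat_lit 5725) (nat_lit 17592186044416) .dd)))))) (.br (nat_lit 13) (.ch
 (nat_lit 12) (.ev (nat_lit 3696) (nat_lit 36893576658105204736) (.ev (nat_lit 5268) (nat_lit 32768) (.ev
 (nat_lit 5776) (nat_lit 8796093022208) (.ev (nat_lit 5789) (nat_lit 17179869184) .dd))))) (.ch (nat_lit 13)
 (.ev (nat_lit 3696) (nat_lit 88510686134272) (.ev (nat_lit 3744) (nat_lit 17179869184) (.ev (nat_lit 5824)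
 (nat_lit 36893496943512125440) .dd))))))) (.br (nat_lit 29) (.br (nat_lit 23) (.br (nat_lit 21) (.ch (nat_lit
 15) (.ev (nat_lit 3696) (nat_lit 36893497493268037632) (.ev (nat_lit 5412) (nat_lit 17179869184) (.ev (nat_lit
 5424) (nat_lit 70368744177664) (.ev (nat_lit 5437) (nat_lit 17592186044416) .dd))))) (.ch (nat_lit 21) (.ev
 (nat_lit 3696) (nat_lit 9363028738048) (.ev (nat_lit 4004) (nat_lit 17592186044416) (.ev (nat_lit 5424)
 (nat_lit 65536) (.ev (nat_lit 5568) (nat_lit 36893488147419103232) (.ev (nat_lit 5581) (nat_lit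
 70368744177664) .dd))))))) (.br (nat_lit 28) (.ch (nat_lit 23) (.ev (nat_lit 3696) (nat_lit
 36893584921622282240) (.ev (nat_lit 5776) (nat_lit 549755813888) (.ev (nat_lit 5789) (nat_lit 32768) .dd))))
 (.ch (nat_lit 28) (.ev (nat_lit 3696) (nat_lit 36893515102633951232) (.ev (nat_lit 3709) (nat_lit
 70368744177664) .dd))))) (.br (nat_lit 32) (.br (nat_lit 30) (.ch (nat_lit 29) (.ev (nat_lit 3696) (nat_lit
 36893585471378030592) (.ev (nat_lit 3732) (nat_lit 32768) (.ev (nat_lit 3741) (nat_lit 65536) .dd)))) (.ch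
 (nat_lit 30) (.ev (nat_lit 3696) (nat_lit 36893514552878137344) (.ev (nat_lit 3956) (nat_lit 549755813888)
 (.ev (nat_lit 3965) (nat_lit 70368744177664) .dd))))) (.br (nat_lit 41) (.ch (nat_lit 32) (.ev (nat_lit 3696)
 (nat_lit 36893576675285073920) (.ev (nat_lit 3732) (nat_lit 32768) (.ev (nat_lit 3741) (nat_lit 8796093022208)
 .dd)))) (.ch (nat_lit 41) (.ev (nat_lit 3696) (nat_lit 26955214848000) (.ev (nat_lit 3712) (nat_lit
 36893488147419103232) (.ev (nat_lit 3725) (nat_lit 70368744177664) .dd)))))))))))))))))))))) (.br (nat_lit 42)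
 (.br (nat_lit 38) (.br (nat_lit 36) (.br (nat_lit 33) (.ch (nat_lit 31) (.ev (nat_lit 52) (nat_lit
 55367333808435101952) (.ev (nat_lit 148) (nat_lit 17592186044416) (.ev (nat_lit 340) (nat_lit
 36028797018963968) (.ev (nat_lit 692) (nat_lit 562949953421312) (.ev (nat_lit 1300) (nat_lit 32768) (.ev
 (nat_lit 2272) (nat_lit 1328453808107064197160) .dd))))))) (.ch (nat_lit 33) (.ev (nat_lit 52) (nat_lit
 1328165582953659760896) (.ev (nat_lit 84) (nat_lit 17592186044416) (.ev (nat_lit 692) (nat_lit 65536) (.ev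
 (nat_lit 1140) (nat_lit 36893488147419103232) (.ev (nat_lit 1236) (nat_lit 32768) (.ev (nat_lit 1364) (nat_lit
 288230376151711744) (.ev (nat_lit 1620) (nat_lit 9007199254740992) (.ev (nat_lit 1780) (nat_lit
 562949953421312) (.ev (nat_lit 2484) (nat_lit 4398046511104) (.ev (nat_lit 3508) (nat_lit 32) (.nd (nat_lit
 3680) (.br (nat_lit 22) (.br (nat_lit 12) (.br (nat_lit 5) (.br (nat_lit 2) (.ch (nat_lit 0) (.ev (nat_lit
 3696) (nat_lit 18084767253659648) (.ev (nat_lit 3732) (nat_lit 8) (.ev (nat_lit 3780) (nat_lit 4194304) (.ev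
 (nat_lit 3904) (nat_lit 18446744073709551616) (.ev (nat_lit 3917) (nat_lit 36028797018963968) .dd)))))) (.ch
 (nat_lit 2) (.ev (nat_lit 3696) (nat_lit 18446814442457923592) (.ev (nat_lit 4772) (nat_lit 18014398509481984)
 (.ev (nat_lit 4781) (nat_lit 36028797018963968) .dd))))) (.br (nat_lit 8) (.ch (nat_lit 5) (.ev (nat_lit 3696)
 (nat_lit 18500857637986369544) .dd)) (.ch (nat_lit 8) (.ev (nat_lit 3696) (nat_lit 18084767257853960) (.ev
 (nat_lit 3732) (nat_lit 36028797018963968) (.ev (nat_lit 3741) (nat_lit 18446744073709551616) .dd)))))) (.br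
 (nat_lit 15) (.br (nat_lit 13) (.ch (nat_lit 12) (.ev (nat_lit 3696) (nat_lit 54043195532640264) (.ev (nat_lit
 3732) (nat_lit 70368744177664) (.ev (nat_lit 3741) (nat_lit 18446744073709551616) .dd)))) (.ch (nat_lit 13)
 (.ev (nat_lit 3696) (nat_lit 36099165767335944) (.ev (nat_lit 3780) (nat_lit 18014398509481984) (.ev (nat_lit
 3789) (nat_lit 18446744073709551616) .dd))))) (.br (nat_lit 16) (.ch (nat_lit 15) (.ev (nat_lit 3696) (nat_lit
 18500857637986369544) .dd)) (.br (nat_lit 17) (.ch (nat_lit 16) (.ev (nat_lit 3696) (nat_lit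
 18500857637986369536) (.ev (nat_lit 3709) (nat_lit 8) .dd))) (.ch (nat_lit 17) (.ev (nat_lit 3696) (nat_lit
 18482772870728515592) (.ev (nat_lit 3828) (nat_lit 70368744177664) (.ev (nat_lit 5524) (nat_lit 4194304) (.ev
 (nat_lit 5533) (nat_lit 18014398509481984) .dd))))))))) (.br (nat_lit 30) (.br (nat_lit 26) (.br (nat_lit 23)
 (.ch (nat_lit 22) (.ev (nat_lit 3696) (nat_lit 18500787269237997576) (.ev (nat_lit 3732) (nat_lit 4194304)
 (.ev (nat_lit 3741) (nat_lit 70368744177664) .dd)))) (.ch (nat_lit 23) (.ev (nat_lit 3696) (nat_lit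
 70368748371968) (.ev (nat_lit 5700) (nat_lit 18446744073709551616) (.ev (nat_lit 5728) (nat_lit
 36028797018963968) (.fin (nat_lit 576458003515392581))))))) (.br (nat_lit 29) (.ch (nat_lit 26) (.ev (nat_lit
 3696) (nat_lit 18464828840967405576) (.ev (nat_lit 3709) (nat_lit 36028797018963968) .dd))) (.ch (nat_lit 29)
 (.ev (nat_lit 3696) (nat_lit 18500857637986369544) .dd)))) (.br (nat_lit 36) (.br (nat_lit 32) (.ch (nat_lit
 30) (.ev (nat_lit 3696) (nat_lit 18482772870732709896) (.ev (nat_lit 3732) (nat_lit 18014398509481984) (.ev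
 (nat_lit 3741) (nat_lit 70368744177664) .dd)))) (.ch (nat_lit 32) (.ev (nat_lit 3696) (nat_lit
 18482843239472693256) (.ev (nat_lit 3732) (nat_lit 18014398509481984) (.ev (nat_lit 3741) (nat_lit 4194304)
 .dd))))) (.br (nat_lit 37) (.ch (nat_lit 36) (.ev (nat_lit 3696) (nat_lit 18464828840967405576) (.ev (nat_lit
 3709) (nat_lit 36028797018963968) .dd))) (.br (nat_lit 41) (.ch (nat_lit 37) (.ev (nat_lit 3696) (nat_lit
 18446814442457923592) (.ev (nat_lit 3732) (nat_lit 18014398509481984) (.ev (nat_lit 3741) (nat_lit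
 36028797018963968) .dd)))) (.ch (nat_lit 41) (.ev (nat_lit 3696) (nat_lit 18500787269242191880) (.ev (nat_lit
 3709) (nat_lit 70368744177664) .dd))))))))))))))))))))) (.br (nat_lit 37) (.ch (nat_lit 36) (.ev (nat_lit 52)
 (nat_lit 1328228624535094591520) (.ev (nat_lit 212) (nat_lit 4398046511104) (.ev (nat_lit 896) (nat_lit
 55629122321516658952) .dd)))) (.ch (nat_lit 37) (.ev (nat_lit 52) (nat_lit 166057288960193921056) (.ev
 (nat_lit 704) (nat_lit 1217800462294463840520) .dd))))) (.br (nat_lit 40) (.br (nat_lit 39) (.ch (nat_lit 38)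
 (.ev (nat_lit 52) (nat_lit 1180610216491283906848) (.ev (nat_lit 84) (nat_lit 8388608) (.ev (nat_lit 980)
 (nat_lit 4398046511104) (.ev (nat_lit 1140) (nat_lit 65536) (.ev (nat_lit 1940) (nat_lit 17179869184) (.ev
 (nat_lit 2324) (nat_lit 9007199254740992) (.ev (nat_lit 3284) (nat_lit 70368744177664) (.ev (nat_lit 3476)
 (nat_lit 288230376151711744) (.nd (nat_lit 3680) (.br (nat_lit 19) (.br (nat_lit 6) (.br (nat_lit 1) (.ch
 (nat_lit 0) (.ev (nat_lit 3696) (nat_lit 184503478330274611200) (.ev (nat_lit 3732) (nat_lit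
 18446744073713745920) (.ev (nat_lit 5412) (nat_lit 8) (.ev (nat_lit 5421) (nat_lit 32768) .dd))))) (.br
 (nat_lit 2) (.ch (nat_lit 1) (.ev (nat_lit 3696) (nat_lit 166056725460476231688) (.ev (nat_lit 3780) (nat_lit
 36893488147419103232) (.ev (nat_lit 5536) (nat_lit 8796093022208) (.ev (nat_lit 5549) (nat_lit 32768) .dd)))))
 (.ch (nat_lit 2) (.ev (nat_lit 3696) (nat_lit 166056725460476231688) (.ev (nat_lit 3780) (nat_lit 32768) (.ev
 (nat_lit 5760) (nat_lit 8796093022208) (.ev (nat_lit 5773) (nat_lit 36893488147419103232) .dd))))))) (.br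
 (nat_lit 15) (.ch (nat_lit 6) (.ev (nat_lit 3696) (nat_lit 55376261018218954760) (.ev (nat_lit 3780) (nat_lit
 147573952589676412928) (.ev (nat_lit 3789) (nat_lit 8796093022208) .dd)))) (.br (nat_lit 16) (.ch (nat_lit 15)
 (.ev (nat_lit 3696) (nat_lit 202950222403988389896) .dd)) (.ch (nat_lit 16) (.ev (nat_lit 3696) (nat_lit
 166056734256502177792) (.ev (nat_lit 3732) (nat_lit 8) (.ev (nat_lit 5536) (nat_lit 36893488147486212096)
 .dd))))))) (.br (nat_lit 27) (.br (nat_lit 21) (.ch (nat_lit 19) (.ev (nat_lit 3696) (nat_lit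
 202950213607828258816) (.ev (nat_lit 3732) (nat_lit 67108864) (.ev (nat_lit 5700) (nat_lit 8796093022208) (.ev
 (nat_lit 5709) (nat_lit 8) .dd))))) (.br (nat_lit 23) (.ch (nat_lit 21) (.ev (nat_lit 3696) (nat_lit
 18446744073713745920) (.ev (nat_lit 3780) (nat_lit 67108872) (.ev (nat_lit 5440) (nat_lit
 36893488147419103232) (.ev (nat_lit 5728) (nat_lit 8796093054976) (.ev (nat_lit 5952) (nat_lit
 147609981386695376896) .dd)))))) (.ch (nat_lit 23) (.ev (nat_lit 3696) (nat_lit 184503478330211729408) (.ev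
 (nat_lit 3732) (nat_lit 67108864) (.ev (nat_lit 5744) (nat_lit 18446744073709551616) (.ev (nat_lit 5757)
 (nat_lit 8) .dd))))))) (.br (nat_lit 36) (.br (nat_lit 32) (.ch (nat_lit 27) (.ev (nat_lit 3696) (nat_lit
 202914184810872209416) (.ev (nat_lit 3780) (nat_lit 8796093022208) (.ev (nat_lit 5524) (nat_lit 4194304) (.ev
 (nat_lit 5533) (nat_lit 36028797018963968) .dd))))) (.ch (nat_lit 32) (.ev (nat_lit 3696) (nat_lit
 166056734256497983496) (.ev (nat_lit 3732) (nat_lit 36893488147486212096) (.ev (nat_lit 3741) (nat_lit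
 4194304) .dd))))) (.br (nat_lit 39) (.ch (nat_lit 36) (.ev (nat_lit 3696) (nat_lit 202950222403988389896)
 .dd)) (.ch (nat_lit 39) (.ev (nat_lit 3696) (nat_lit 184503478330211696640) (.ev (nat_lit 3732) (nat_lit
 67108864) (.ev (nat_lit 4176) (nat_lit 8) (.ev (nat_lit 5600) (nat_lit 32768) (.ev (nat_lit 5613) (nat_lit
 18446744073709551616) .dd)))))))))))))))))))) (.ch (nat_lit 39) (.ev (nat_lit 52) (nat_lit
 203203049055414386944) (.ev (nat_lit 244) (nat_lit 8796093022208) (.ev (nat_lit 436) (nat_lit 17179869184)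
 (.ev (nat_lit 992) (nat_lit 1180654693385970483240) .dd)))))) (.br (nat_lit 41) (.ch (nat_lit 40) (.ev
 (nat_lit 52) (nat_lit 166309577976262492448) (.ev (nat_lit 116) (nat_lit 8796093022208) (.ev (nat_lit 404)
 (nat_lit 36893488147419103232) (.ev (nat_lit 468) (nat_lit 36028797018963968) (.ev (nat_lit 756) (nat_lit
 549755813888) (.ev (nat_lit 1460) (nat_lit 9007199254740992) (.ev (nat_lit 1812) (nat_lit 274877906944) (.ev
 (nat_lit 2388) (nat_lit 1180591620717411303424) (.ev (nat_lit 3348) (nat_lit 8388608) (.nd (nat_lit 3680) (.br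
 (nat_lit 23) (.br (nat_lit 13) (.br (nat_lit 6) (.br (nat_lit 5) (.ch (nat_lit 0) (.ev (nat_lit 3696) (nat_lit
 18018796555993088) (.ev (nat_lit 3732) (nat_lit 32768) (.ev (nat_lit 3741) (nat_lit 8) .dd)))) (.ch (nat_lit
 5) (.ev (nat_lit 3696) (nat_lit 18018796556025864) .dd))) (.br (nat_lit 12) (.ch (nat_lit 6) (.ev (nat_lit
 3696) (nat_lit 18018796556025864) .dd)) (.ch (nat_lit 12) (.ev (nat_lit 3696) (nat_lit 18018796556025856) (.ev
 (nat_lit 3709) (nat_lit 8) .dd))))) (.br (nat_lit 17) (.br (nat_lit 16) (.ch (nat_lit 13) (.ev (nat_lit 3696)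
 (nat_lit 8) (.ev (nat_lit 3732) (nat_lit 18014398509481984) (.ev (nat_lit 3904) (nat_lit 32768) (.ev (nat_lit
 3917) (nat_lit 4398046511104) .dd))))) (.ch (nat_lit 16) (.ev (nat_lit 3696) (nat_lit 18018796556025856) (.ev
 (nat_lit 3709) (nat_lit 8) .dd)))) (.br (nat_lit 19) (.ch (nat_lit 17) (.ev (nat_lit 3696) (nat_lit
 4398046543880) (.ev (nat_lit 3709) (nat_lit 18014398509481984) .dd))) (.br (nat_lit 21) (.ch (nat_lit 19) (.ev
 (nat_lit 3696) (nat_lit 18014398509514760) (.ev (nat_lit 3709) (nat_lit 4398046511104) .dd))) (.ch (nat_lit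
 21) (.ev (nat_lit 3696) (nat_lit 18014398509514752) (.ev (nat_lit 3780) (nat_lit 8) (.ev (nat_lit 3789)
 (nat_lit 4398046511104) .dd)))))))) (.br (nat_lit 30) (.br (nat_lit 28) (.br (nat_lit 26) (.ch (nat_lit 23)
 (.ev (nat_lit 5648) (nat_lit 4398046543872) (.fin (nat_lit 576458003515392581)))) (.ch (nat_lit 26) (.ev
 (nat_lit 3696) (nat_lit 18014398509514752) (.ev (nat_lit 5172) (nat_lit 8) (.ev (nat_lit 5181) (nat_lit
 4398046511104) .dd))))) (.br (nat_lit 29) (.ch (nat_lit 28) (.ev (nat_lit 3696) (nat_lit 18018796556025864)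
 .dd)) (.ch (nat_lit 29) (.ev (nat_lit 3696) (nat_lit 18018796556025856) (.ev (nat_lit 3709) (nat_lit 8)
 .dd))))) (.br (nat_lit 37) (.br (nat_lit 32) (.ch (nat_lit 30) (.ev (nat_lit 3696) (nat_lit 18018796556025864)
 .dd)) (.ch (nat_lit 32) (.ev (nat_lit 3696) (nat_lit 18018796555993096) (.ev (nat_lit 3709) (nat_lit 32768)
 .dd)))) (.br (nat_lit 39) (.ch (nat_lit 37) (.ev (nat_lit 3696) (nat_lit 18014398509514760) (.ev (nat_lit
 3709) (nat_lit 4398046511104) .dd))) (.br (nat_lit 41) (.ch (nat_lit 39) (.ev (nat_lit 3696) (nat_lit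
 18014398509481992) (.ev (nat_lit 3732) (nat_lit 32768) (.ev (nat_lit 3741) (nat_lit 4398046511104) .dd))))
 (.ch (nat_lit 41) (.ev (nat_lit 3696) (nat_lit 18018796556025864) .dd)))))))))))))))))) (.ch (nat_lit 41) (.ev
 (nat_lit 52) (nat_lit 324343010944909320) (.ev (nat_lit 212) (nat_lit 17179869184) (.ev (nat_lit 1460)
 (nat_lit 562949953421312) (.ev (nat_lit 1684) (nat_lit 67108896) (.ev (nat_lit 1716) (nat_lit 17592186044416)
 (.ev (nat_lit 2452) (nat_lit 36893488147419103232) (.ev (nat_lit 2516) (nat_lit 8589934592) (.ev (nat_lit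
 2900) (nat_lit 18446744073709551616) (.ev (nat_lit 3444) (nat_lit 1180591620717411303424) (.nd (nat_lit 3680)
 (.br (nat_lit 17) (.br (nat_lit 6) (.br (nat_lit 4) (.br (nat_lit 1) (.ch (nat_lit 0) (.ev (nat_lit 3696)
 (nat_lit 27021597764288512) (.ev (nat_lit 5712) (nat_lit 549755813888) (.ev (nat_lit 5744) (nat_lit
 147573952589676412928) (.ev (nat_lit 5757) (nat_lit 256) .dd))))) (.ch (nat_lit 1) (.ev (nat_lit 3696)
 (nat_lit 147573953139432292352) (.ev (nat_lit 3732) (nat_lit 9007199254740992) (.ev (nat_lit 5700) (nat_lit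
 18014398509481984) (.ev (nat_lit 5709) (nat_lit 256) .dd)))))) (.br (nat_lit 5) (.ch (nat_lit 4) (.ev (nat_lit
 3696) (nat_lit 147582960338686968064) (.ev (nat_lit 5216) (nat_lit 18014398509481984) (.ev (nat_lit 5229)
 (nat_lit 65536) .dd)))) (.ch (nat_lit 5) (.ev (nat_lit 3696) (nat_lit 147600974187440701696) (.ev (nat_lit
 3709) (nat_lit 549755813888) .dd))))) (.br (nat_lit 15) (.br (nat_lit 12) (.ch (nat_lit 6) (.ev (nat_lit 3696)
 (nat_lit 27022147520036864) (.ev (nat_lit 3732) (nat_lit 256) (.ev (nat_lit 5700) (nat_lit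
 147573952589676412928) (.ev (nat_lit 5709) (nat_lit 65536) .dd))))) (.ch (nat_lit 12) (.ev (nat_lit 3696)
 (nat_lit 147600974737196515584) .dd))) (.br (nat_lit 16) (.ch (nat_lit 15) (.ev (nat_lit 3696) (nat_lit
 147582960338687033344) (.ev (nat_lit 3780) (nat_lit 256) (.ev (nat_lit 3789) (nat_lit 18014398509481984)
 .dd)))) (.ch (nat_lit 16) (.ev (nat_lit 3696) (nat_lit 147591967537941774592) (.ev (nat_lit 3709) (nat_lit
 9007199254740992) .dd)))))) (.br (nat_lit 30) (.br (nat_lit 28) (.br (nat_lit 22) (.ch (nat_lit 17) (.ev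
 (nat_lit 3696) (nat_lit 9007749010620672) (.ev (nat_lit 5536) (nat_lit 147573952589676412928) (.ev (nat_lit
 5549) (nat_lit 18014398509481984) .dd)))) (.ch (nat_lit 22) (.ev (nat_lit 3696) (nat_lit
 147600974187440701440) (.ev (nat_lit 4372) (nat_lit 256) (.ev (nat_lit 4381) (nat_lit 549755813888) .dd)))))
 (.br (nat_lit 29) (.ch (nat_lit 28) (.ev (nat_lit 3696) (nat_lit 147600974737196449792) (.ev (nat_lit 3732)
 (nat_lit 256) (.ev (nat_lit 3741) (nat_lit 65536) .dd)))) (.ch (nat_lit 29) (.ev (nat_lit 3696) (nat_lit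
 18014948265296128) (.ev (nat_lit 5648) (nat_lit 147573952589676412928) (.ev (nat_lit 5712) (nat_lit 65536)
 (.ev (nat_lit 5725) (nat_lit 9007199254740992) .dd))))))) (.br (nat_lit 38) (.br (nat_lit 36) (.ch (nat_lit
 30) (.ev (nat_lit 3696) (nat_lit 147573953139432227072) (.ev (nat_lit 3732) (nat_lit 27021597764222976) (.ev
 (nat_lit 3741) (nat_lit 65536) .dd)))) (.ch (nat_lit 36) (.ev (nat_lit 3696) (nat_lit 147600974737196515584)
 .dd))) (.br (nat_lit 39) (.ch (nat_lit 38) (.ev (nat_lit 3696) (nat_lit 147591967537941709056) (.ev (nat_lit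
 5840) (nat_lit 9007199254806528) .dd))) (.ch (nat_lit 39) (.ev (nat_lit 3696) (nat_lit 27022147520102400) (.ev
 (nat_lit 3732) (nat_lit 256) (.ev (nat_lit 3741) (nat_lit 147573952589676412928) .dd))))))))))))))))))))))
 (.br (nat_lit 47) (.br (nat_lit 44) (.br (nat_lit 43) (.ch (nat_lit 42) (.ev (nat_lit 52) (nat_lit
 202914269206992125952) (.ev (nat_lit 180) (nat_lit 562949953421312) (.ev (nat_lit 564) (nat_lit
 17592186044416) (.ev (nat_lit 596) (nat_lit 36028797018963968) (.ev (nat_lit 2260) (nat_lit 256) (.nd (nat_lit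
 3680) (.br (nat_lit 13) (.br (nat_lit 8) (.br (nat_lit 4) (.ch (nat_lit 2) (.ev (nat_lit 3696) (nat_lit
 1180879851093563113512) (.ev (nat_lit 3732) (nat_lit 18014398509481984) (.ev (nat_lit 5744) (nat_lit
 9007216434610176) .dd)))) (.br (nat_lit 6) (.ch (nat_lit 4) (.ev (nat_lit 3696) (nat_lit
 1180906872708507140104) (.ev (nat_lit 3732) (nat_lit 32) (.ev (nat_lit 3741) (nat_lit 65536) .dd)))) (.ch
 (nat_lit 6) (.ev (nat_lit 3696) (nat_lit 27021614944124968) (.ev (nat_lit 3732) (nat_lit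
 1180591620717411303424) (.ev (nat_lit 5728) (nat_lit 65536) (.ev (nat_lit 5741) (nat_lit 288230376151711744)
 .dd))))))) (.br (nat_lit 10) (.ch (nat_lit 8) (.ev (nat_lit 3696) (nat_lit 297237575406518312) (.ev (nat_lit
 3732) (nat_lit 1180591620717411303424) (.ev (nat_lit 4084) (nat_lit 32768) (.ev (nat_lit 4176) (nat_lit
 18014398509481984) (.ev (nat_lit 4189) (nat_lit 17179869184) .dd)))))) (.br (nat_lit 12) (.ch (nat_lit 10)
 (.ev (nat_lit 3696) (nat_lit 1180906872708507140136) (.ev (nat_lit 3709) (nat_lit 65536) .dd))) (.ch (nat_lit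
 12) (.ev (nat_lit 3696) (nat_lit 18014398509580320) (.ev (nat_lit 5536) (nat_lit 288230376151711744) (.ev
 (nat_lit 5700) (nat_lit 9007199254740992) (.ev (nat_lit 5712) (nat_lit 1180591620734591172608) (.ev (nat_lit
 5725) (nat_lit 8) .dd))))))))) (.br (nat_lit 19) (.br (nat_lit 15) (.ch (nat_lit 13) (.ev (nat_lit 3696)
 (nat_lit 9007216434675720) (.ev (nat_lit 4176) (nat_lit 1180591620717411303424) (.ev (nat_lit 5200) (nat_lit
 32) (.ev (nat_lit 5524) (nat_lit 288230376151711744) (.ev (nat_lit 5568) (nat_lit 18014398509481984) (.ev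
 (nat_lit 5581) (nat_lit 32768) .dd))))))) (.br (nat_lit 17) (.ch (nat_lit 15) (.ev (nat_lit 3696) (nat_lit
 1180906872708507140136) (.ev (nat_lit 3709) (nat_lit 65536) .dd))) (.ch (nat_lit 17) (.ev (nat_lit 3696)
 (nat_lit 1180591620717411401768) (.ev (nat_lit 3732) (nat_lit 288230376151711744) (.ev (nat_lit 4084) (nat_lit
 9007199254740992) (.ev (nat_lit 5524) (nat_lit 17179869184) (.ev (nat_lit 5533) (nat_lit 18014398509481984)
 .dd)))))))) (.br (nat_lit 23) (.br (nat_lit 21) (.ch (nat_lit 19) (.ev (nat_lit 3696) (nat_lit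
 27021614944124968) (.ev (nat_lit 3732) (nat_lit 288230376151711744) (.ev (nat_lit 5744) (nat_lit 65536) (.ev
 (nat_lit 5757) (nat_lit 1180591620717411303424) .dd))))) (.ch (nat_lit 21) (.ev (nat_lit 3696) (nat_lit
 1180906872708507140128) (.ev (nat_lit 3732) (nat_lit 8) (.ev (nat_lit 3741) (nat_lit 65536) .dd))))) (.br
 (nat_lit 36) (.ch (nat_lit 23) (.ev (nat_lit 3696) (nat_lit 1180888858292817821736) (.ev (nat_lit 3732)
 (nat_lit 17179869184) (.ev (nat_lit 5268) (nat_lit 18014398509481984) (.ev (nat_lit 5277) (nat_lit 32768)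
 .dd))))) (.ch (nat_lit 36) (.ev (nat_lit 3696) (nat_lit 9007199254839336) (.ev (nat_lit 5524) (nat_lit
 17179869184) (.ev (nat_lit 5776) (nat_lit 1180591620717411303424) (.ev (nat_lit 5808) (nat_lit
 306244774661193728) .dd)))))))))))))))) (.ch (nat_lit 43) (.ev (nat_lit 52) (nat_lit 184782697942290104576)
 (.ev (nat_lit 340) (nat_lit 18446744073709551616) (.ev (nat_lit 884) (nat_lit 4194304) (.ev (nat_lit 2804)
 (nat_lit 17592186044416) (.ev (nat_lit 3284) (nat_lit 1180591620717411303424) (.ev (nat_lit 3444) (nat_lit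
 67108864) (.nd (nat_lit 3680) (.br (nat_lit 22) (.br (nat_lit 8) (.br (nat_lit 2) (.br (nat_lit 1) (.ch
 (nat_lit 0) (.ev (nat_lit 3696) (nat_lit 36107979036033056) (.ev (nat_lit 3780) (nat_lit 8) (.ev (nat_lit
 3789) (nat_lit 562949953421312) .dd)))) (.ch (nat_lit 1) (.ev (nat_lit 3696) (nat_lit 36670928989454344) (.ev
 (nat_lit 3709) (nat_lit 32) .dd)))) (.br (nat_lit 6) (.ch (nat_lit 2) (.ev (nat_lit 3696) (nat_lit
 642131970490408) (.ev (nat_lit 3709) (nat_lit 36028797018963968) .dd))) (.ch (nat_lit 6) (.ev (nat_lit 3696)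
 (nat_lit 36670928989454368) (.ev (nat_lit 3709) (nat_lit 8) .dd))))) (.br (nat_lit 12) (.br (nat_lit 10) (.ch
 (nat_lit 8) (.ev (nat_lit 3696) (nat_lit 36662132896432168) (.ev (nat_lit 3709) (nat_lit 8796093022208) .dd)))
 (.ch (nat_lit 10) (.ev (nat_lit 3696) (nat_lit 36600560245276712) (.ev (nat_lit 3709) (nat_lit 70368744177664)
 .dd)))) (.br (nat_lit 16) (.ch (nat_lit 12) (.ev (nat_lit 3696) (nat_lit 36600543065407528) (.ev (nat_lit
 5744) (nat_lit 17179869184) (.ev (nat_lit 5757) (nat_lit 70368744177664) .dd)))) (.br (nat_lit 19) (.ch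
 (nat_lit 16) (.ev (nat_lit 3696) (nat_lit 36600560245276672) (.ev (nat_lit 3712) (nat_lit 70368744177664) (.ev
 (nat_lit 4852) (nat_lit 8) (.ev (nat_lit 4861) (nat_lit 32) .dd))))) (.ch (nat_lit 19) (.ev (nat_lit 3696)
 (nat_lit 36670928989454368) (.ev (nat_lit 3709) (nat_lit 8) .dd))))))) (.br (nat_lit 29) (.br (nat_lit 26)
 (.br (nat_lit 23) (.ch (nat_lit 22) (.ev (nat_lit 3696) (nat_lit 36670911809585160) (.ev (nat_lit 4164)
 (nat_lit 32) (.ev (nat_lit 4173) (nat_lit 17179869184) .dd)))) (.ch (nat_lit 23) (.ev (nat_lit 3696) (nat_lit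
 642131970490400) (.ev (nat_lit 3732) (nat_lit 8) (.ev (nat_lit 3741) (nat_lit 36028797018963968) .dd))))) (.br
 (nat_lit 28) (.ch (nat_lit 26) (.ev (nat_lit 3696) (nat_lit 571763226312736) (.ev (nat_lit 3860) (nat_lit
 36028797018963968) (.ev (nat_lit 4340) (nat_lit 8) (.ev (nat_lit 4349) (nat_lit 70368744177664) .dd))))) (.ch
 (nat_lit 28) (.ev (nat_lit 3696) (nat_lit 36028814198833192) (.ev (nat_lit 4272) (nat_lit 70368744177664) (.ev
 (nat_lit 5524) (nat_lit 562949953421312) (.ev (nat_lit 5533) (nat_lit 8796093022208) .dd))))))) (.br (nat_lit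
 37) (.br (nat_lit 36) (.ch (nat_lit 29) (.ev (nat_lit 3696) (nat_lit 36670928989454376) .dd)) (.ch (nat_lit
 36) (.ev (nat_lit 3696) (nat_lit 642131970490376) (.ev (nat_lit 5280) (nat_lit 36028797018963968) (.ev
 (nat_lit 5293) (nat_lit 32) .dd))))) (.br (nat_lit 39) (.ch (nat_lit 37) (.ev (nat_lit 3696) (nat_lit
 36099182943010824) (.ev (nat_lit 3732) (nat_lit 32) (.ev (nat_lit 5524) (nat_lit 8796093022208) (.ev (nat_lit
 5533) (nat_lit 562949953421312) .dd))))) (.br (nat_lit 41) (.ch (nat_lit 39) (.ev (nat_lit 3696) (nat_lit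
 642131970490368) (.ev (nat_lit 4516) (nat_lit 32) (.ev (nat_lit 5152) (nat_lit 36028797018963968) (.ev
 (nat_lit 5165) (nat_lit 8) .dd))))) (.ch (nat_lit 41) (.ev (nat_lit 3696) (nat_lit 36670928989454376)
 .dd)))))))))))))))) (.br (nat_lit 46) (.ch (nat_lit 44) (.ev (nat_lit 52) (nat_lit 1180627742431756943656)
 (.ev (nat_lit 180) (nat_lit 36893488147419103232) (.ev (nat_lit 276) (nat_lit 17179869184) (.ev (nat_lit 564)
 (nat_lit 8388608) (.ev (nat_lit 820) (nat_lit 18014398509481984) (.ev (nat_lit 1268) (nat_lit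
 288230376151711744) (.ev (nat_lit 2228) (nat_lit 67108864) (.ev (nat_lit 2900) (nat_lit 147573952589676412928)
 (.ev (nat_lit 2964) (nat_lit 65536) (.nd (nat_lit 3680) (.br (nat_lit 27) (.br (nat_lit 12) (.br (nat_lit 7)
 (.br (nat_lit 2) (.ch (nat_lit 0) (.ev (nat_lit 3696) (nat_lit 9016270225670144) (.ev (nat_lit 3732) (nat_lit
 32768) (.ev (nat_lit 5744) (nat_lit 18446744073709551616) (.ev (nat_lit 5757) (nat_lit 562949953421312)
 .dd))))) (.ch (nat_lit 2) (.ev (nat_lit 3696) (nat_lit 9579220179091456) (.ev (nat_lit 3732) (nat_lit 32768)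
 (.ev (nat_lit 3741) (nat_lit 18446744073709551616) .dd))))) (.br (nat_lit 10) (.ch (nat_lit 7) (.ev (nat_lit
 3696) (nat_lit 18455760069057347584) (.ev (nat_lit 5472) (nat_lit 562949953421312) (.ev (nat_lit 5485)
 (nat_lit 274877906944) .dd)))) (.ch (nat_lit 10) (.ev (nat_lit 3696) (nat_lit 18446752869802606592) (.ev
 (nat_lit 3732) (nat_lit 9007474132647936) (.ev (nat_lit 3741) (nat_lit 562949953421312) .dd)))))) (.br
 (nat_lit 21) (.br (nat_lit 17) (.ch (nat_lit 12) (.ev (nat_lit 3696) (nat_lit 18447316094633934848) (.ev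
 (nat_lit 3709) (nat_lit 9007199254740992) .dd))) (.ch (nat_lit 17) (.ev (nat_lit 3696) (nat_lit
 18455760343935221760) (.ev (nat_lit 3732) (nat_lit 32768) (.ev (nat_lit 3741) (nat_lit 562949953421312)
 .dd))))) (.br (nat_lit 26) (.ch (nat_lit 21) (.ev (nat_lit 3696) (nat_lit 9570424086069248) (.ev (nat_lit
 5616) (nat_lit 8796093022208) (.ev (nat_lit 5700) (nat_lit 18446744073709551616) (.ev (nat_lit 5709) (nat_lit
 32768) .dd))))) (.ch (nat_lit 26) (.ev (nat_lit 3696) (nat_lit 18456323293888675840) .dd))))) (.br (nat_lit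
 37) (.br (nat_lit 32) (.br (nat_lit 29) (.ch (nat_lit 27) (.ev (nat_lit 3696) (nat_lit 18456314497795653632)
 (.ev (nat_lit 3709) (nat_lit 8796093022208) .dd))) (.ch (nat_lit 29) (.ev (nat_lit 3696) (nat_lit
 18446753144680513536) (.ev (nat_lit 5808) (nat_lit 9570149208162304) .dd)))) (.br (nat_lit 36) (.ch (nat_lit
 32) (.ev (nat_lit 3696) (nat_lit 9578945301217280) (.ev (nat_lit 5232) (nat_lit 18446744073709551616) (.ev
 (nat_lit 5245) (nat_lit 274877906944) .dd)))) (.ch (nat_lit 36) (.ev (nat_lit 3696) (nat_lit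
 18456323293888675840) .dd)))) (.br (nat_lit 39) (.br (nat_lit 38) (.ch (nat_lit 37) (.ev (nat_lit 3696)
 (nat_lit 9070970961920) (.ev (nat_lit 5700) (nat_lit 18446744073709551616) (.ev (nat_lit 5792) (nat_lit
 562949953421312) (.ev (nat_lit 5805) (nat_lit 9007199254740992) .dd))))) (.ch (nat_lit 38) (.ev (nat_lit 3696)
 (nat_lit 18456314497795620864) (.ev (nat_lit 5700) (nat_lit 32768) (.ev (nat_lit 5709) (nat_lit 8796093022208)
 .dd))))) (.br (nat_lit 41) (.ch (nat_lit 39) (.ev (nat_lit 3696) (nat_lit 18456323019010736128) (.ev (nat_lit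
 3780) (nat_lit 32768) (.ev (nat_lit 3789) (nat_lit 274877906944) .dd)))) (.ch (nat_lit 41) (.ev (nat_lit 3696)
 (nat_lit 18447315819755995136) (.ev (nat_lit 3732) (nat_lit 9007199254740992) (.ev (nat_lit 5524) (nat_lit
 32768) (.ev (nat_lit 5533) (nat_lit 274877906944) .dd)))))))))))))))))))) (.ch (nat_lit 46) (.ev (nat_lit 52)
 (nat_lit 1383857724015895412736) (.ev (nat_lit 788) (nat_lit 17179869184) (.ev (nat_lit 1300) (nat_lit 8) (.ev
 (nat_lit 1952) (nat_lit 27221582479648) .dd))))))) (.br (nat_lit 49) (.br (nat_lit 48) (.ch (nat_lit 47) (.ev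
 (nat_lit 52) (nat_lit 1235932442294032039976) (.ev (nat_lit 340) (nat_lit 147573952589676412928) (.ev (nat_lit
 500) (nat_lit 36028797018963968) (.ev (nat_lit 1588) (nat_lit 65536) (.ev (nat_lit 2196) (nat_lit
 70368744177664) (.nd (nat_lit 3680) (.br (nat_lit 21) (.br (nat_lit 12) (.br (nat_lit 7) (.br (nat_lit 6) (.ch
 (nat_lit 5) (.ev (nat_lit 3696) (nat_lit 315256646840353024) (.ev (nat_lit 3732) (nat_lit 8589934592) (.ev
 (nat_lit 3741) (nat_lit 549755813888) .dd)))) (.ch (nat_lit 6) (.ev (nat_lit 3696) (nat_lit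
 306249456175546368) (.ev (nat_lit 5092) (nat_lit 256) (.ev (nat_lit 5568) (nat_lit 9007199254740992) (.ev
 (nat_lit 5581) (nat_lit 549755813888) .dd)))))) (.br (nat_lit 8) (.ch (nat_lit 7) (.ev (nat_lit 3696) (nat_lit
 315256930308194560) (.ev (nat_lit 3709) (nat_lit 274877906944) .dd))) (.ch (nat_lit 8) (.ev (nat_lit 3696)
 (nat_lit 9011605891186944) (.ev (nat_lit 5524) (nat_lit 288230376151711744) (.ev (nat_lit 5744) (nat_lit
 18014398509481984) (.ev (nat_lit 5840) (nat_lit 824633720832) .dd))))))) (.br (nat_lit 16) (.br (nat_lit 13)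
 (.ch (nat_lit 12) (.ev (nat_lit 3696) (nat_lit 306249997341425920) (.ev (nat_lit 3780) (nat_lit 8589934592)
 (.ev (nat_lit 3789) (nat_lit 9007199254740992) .dd)))) (.ch (nat_lit 13) (.ev (nat_lit 3696) (nat_lit
 297242798086684672) (.ev (nat_lit 3732) (nat_lit 18014398509481984) (.ev (nat_lit 3780) (nat_lit 256) (.ev
 (nat_lit 3789) (nat_lit 8589934592) .dd)))))) (.br (nat_lit 17) (.ch (nat_lit 16) (.ev (nat_lit 3696) (nat_lit
 27026829034389760) (.ev (nat_lit 3709) (nat_lit 288230376151711744) .dd))) (.br (nat_lit 19) (.ch (nat_lit 17)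
 (.ev (nat_lit 3696) (nat_lit 27026829034389760) (.ev (nat_lit 3709) (nat_lit 288230376151711744) .dd))) (.ch
 (nat_lit 19) (.ev (nat_lit 3696) (nat_lit 315257205186101248) (.ev (nat_lit 3709) (nat_lit 256) .dd)))))))
 (.br (nat_lit 36) (.br (nat_lit 28) (.br (nat_lit 22) (.ch (nat_lit 21) (.ev (nat_lit 3696) (nat_lit
 833223655680) (.ev (nat_lit 3732) (nat_lit 4398046511104) (.ev (nat_lit 3956) (nat_lit 9007199254740992) (.ev
 (nat_lit 5700) (nat_lit 288230376151711744) (.ev (nat_lit 5709) (nat_lit 18014398509481984) .dd)))))) (.ch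
 (nat_lit 22) (.ev (nat_lit 3696) (nat_lit 27026279278575616) (.ev (nat_lit 4516) (nat_lit 256) (.ev (nat_lit
 5700) (nat_lit 288230376151711744) (.ev (nat_lit 5709) (nat_lit 549755813888) .dd)))))) (.br (nat_lit 32) (.ch
 (nat_lit 28) (.ev (nat_lit 3696) (nat_lit 297242256920805376) (.ev (nat_lit 3968) (nat_lit 18014398509481984)
 (.ev (nat_lit 5524) (nat_lit 256) (.ev (nat_lit 5533) (nat_lit 549755813888) .dd))))) (.ch (nat_lit 32) (.ev
 (nat_lit 3696) (nat_lit 315256380552380672) (.ev (nat_lit 5440) (nat_lit 274877906944) (.ev (nat_lit 5453)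
 (nat_lit 549755813888) .dd)))))) (.br (nat_lit 38) (.br (nat_lit 37) (.ch (nat_lit 36) (.ev (nat_lit 3696)
 (nat_lit 315257205186101248) (.ev (nat_lit 3709) (nat_lit 256) .dd))) (.ch (nat_lit 37) (.ev (nat_lit 3696)
 (nat_lit 306249181297639680) (.ev (nat_lit 5524) (nat_lit 274877906944) (.ev (nat_lit 5824) (nat_lit
 9007749010554880) .dd))))) (.br (nat_lit 39) (.ch (nat_lit 38) (.ev (nat_lit 3696) (nat_lit
 315252248793841920) (.ev (nat_lit 3860) (nat_lit 8589934592) (.ev (nat_lit 4256) (nat_lit 549755813888) (.ev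
 (nat_lit 4269) (nat_lit 4398046511104) .dd))))) (.br (nat_lit 41) (.ch (nat_lit 39) (.ev (nat_lit 3696)
 (nat_lit 27026545566547968) (.ev (nat_lit 3732) (nat_lit 288230376151712000) (.ev (nat_lit 5712) (nat_lit
 8589934592) (.ev (nat_lit 5725) (nat_lit 274877906944) .dd))))) (.ch (nat_lit 41) (.ev (nat_lit 3696) (nat_lit
 9008032478396672) (.ev (nat_lit 3732) (nat_lit 4398046511104) (.ev (nat_lit 4036) (nat_lit 18014398509481984)
 (.ev (nat_lit 4045) (nat_lit 288230376151711744) .dd))))))))))))))))) (.ch (nat_lit 48) (.ev (nat_lit 52)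
 (nat_lit 184467463019398463528) (.ev (nat_lit 928) (nat_lit 1199390288235259298048) .dd)))) (.br (nat_lit 50)
 (.ch (nat_lit 49) (.ev (nat_lit 52) (nat_lit 147610570733589168128) (.ev (nat_lit 660) (nat_lit
 70368744177664) (.ev (nat_lit 852) (nat_lit 17179869184) (.ev (nat_lit 884) (nat_lit 274877906944) (.ev
 (nat_lit 1556) (nat_lit 36893488147419103232) (.ev (nat_lit 1716) (nat_lit 549755813888) (.ev (nat_lit 2164)
 (nat_lit 1180591620717411303424) (.ev (nat_lit 2228) (nat_lit 256) (.ev (nat_lit 2260) (nat_lit 32) (.ev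
 (nat_lit 3220) (nat_lit 32768) (.nd (nat_lit 3680) (.br (nat_lit 26) (.br (nat_lit 17) (.br (nat_lit 13) (.br
 (nat_lit 8) (.ch (nat_lit 4) (.ev (nat_lit 3696) (nat_lit 315256371970834432) (.ev (nat_lit 5524) (nat_lit 8)
 (.ev (nat_lit 5533) (nat_lit 18446744073709551616) .dd)))) (.ch (nat_lit 8) (.ev (nat_lit 3696) (nat_lit
 18455751272972681224) (.ev (nat_lit 3828) (nat_lit 4398046511104) (.ev (nat_lit 4420) (nat_lit
 18014398509481984) (.ev (nat_lit 4429) (nat_lit 288230376151711744) .dd)))))) (.br (nat_lit 15) (.ch (nat_lit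
 13) (.ev (nat_lit 3696) (nat_lit 18743986047162515464) (.ev (nat_lit 3732) (nat_lit 18014398509481984) (.ev
 (nat_lit 3741) (nat_lit 8388608) .dd)))) (.ch (nat_lit 15) (.ev (nat_lit 3696) (nat_lit 18734978847916163080)
 (.ev (nat_lit 3780) (nat_lit 9007199254740992) (.ev (nat_lit 3789) (nat_lit 18014398509481984) .dd)))))) (.br
 (nat_lit 21) (.br (nat_lit 19) (.ch (nat_lit 17) (.ev (nat_lit 3696) (nat_lit 18734978847916163080) (.ev
 (nat_lit 3732) (nat_lit 18014398509481984) (.ev (nat_lit 3741) (nat_lit 9007199254740992) .dd)))) (.ch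
 (nat_lit 19) (.ev (nat_lit 3696) (nat_lit 18464758472227422216) (.ev (nat_lit 4516) (nat_lit
 288230376151711744) (.ev (nat_lit 5268) (nat_lit 4398046511104) (.ev (nat_lit 5277) (nat_lit 9007199254740992)
 .dd)))))) (.br (nat_lit 22) (.ch (nat_lit 21) (.ev (nat_lit 3696) (nat_lit 18752988848370745352) (.ev (nat_lit
 5412) (nat_lit 8388608) (.ev (nat_lit 5524) (nat_lit 4398046511104) (.ev (nat_lit 5533) (nat_lit
 9007199254740992) .dd))))) (.br (nat_lit 23) (.ch (nat_lit 22) (.ev (nat_lit 3696) (nat_lit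
 18473770069520285704) (.ev (nat_lit 3780) (nat_lit 8388608) (.ev (nat_lit 3789) (nat_lit 288230376151711744)
 .dd)))) (.ch (nat_lit 23) (.ev (nat_lit 3696) (nat_lit 18743981649124392968) (.ev (nat_lit 3732) (nat_lit
 4398046511104) (.ev (nat_lit 3741) (nat_lit 18014398509481984) .dd)))))))) (.br (nat_lit 32) (.br (nat_lit 28)
 (.br (nat_lit 27) (.ch (nat_lit 26) (.ev (nat_lit 3696) (nat_lit 18762000445680386048) (.ev (nat_lit 3709)
 (nat_lit 8) .dd))) (.ch (nat_lit 27) (.ev (nat_lit 3696) (nat_lit 18762000445680386056) .dd))) (.br (nat_lit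
 30) (.ch (nat_lit 28) (.ev (nat_lit 3696) (nat_lit 18762000445680386056) .dd)) (.ch (nat_lit 30) (.ev (nat_lit
 3696) (nat_lit 306249172716093448) (.ev (nat_lit 5568) (nat_lit 9007199254740992) (.ev (nat_lit 5581) (nat_lit
 18446744073709551616) .dd)))))) (.br (nat_lit 37) (.br (nat_lit 36) (.ch (nat_lit 32) (.ev (nat_lit 3696)
 (nat_lit 315256371962445832) (.ev (nat_lit 5172) (nat_lit 18446744073709551616) (.ev (nat_lit 5181) (nat_lit
 8388608) .dd)))) (.ch (nat_lit 36) (.ev (nat_lit 3696) (nat_lit 18455755671019192328) (.ev (nat_lit 3732)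
 (nat_lit 18014398509481984) (.ev (nat_lit 3741) (nat_lit 288230376151711744) .dd))))) (.br (nat_lit 39) (.ch
 (nat_lit 37) (.ev (nat_lit 3696) (nat_lit 18734974449869651976) (.ev (nat_lit 4932) (nat_lit
 18014398509481984) (.ev (nat_lit 5536) (nat_lit 9007199254740992) (.ev (nat_lit 5549) (nat_lit 4398046511104)
 .dd))))) (.br (nat_lit 41) (.ch (nat_lit 39) (.ev (nat_lit 3696) (nat_lit 18473770069520285704) (.ev (nat_lit
 4144) (nat_lit 288230376151711744) (.ev (nat_lit 4157) (nat_lit 8388608) .dd)))) (.ch (nat_lit 41) (.ev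
 (nat_lit 3696) (nat_lit 18018796564381696) (.ev (nat_lit 3828) (nat_lit 18446744073709551616) (.ev (nat_lit
 5712) (nat_lit 8) (.ev (nat_lit 5824) (nat_lit 297237575406452736) .dd)))))))))))))))))))))) (.br (nat_lit 52)
 (.ch (nat_lit 50) (.ev (nat_lit 52) (nat_lit 306807724627263520) (.ev (nat_lit 500) (nat_lit
 147573952589676412928) (.ev (nat_lit 692) (nat_lit 36893488147419103232) (.ev (nat_lit 788) (nat_lit
 4398046511104) (.ev (nat_lit 1396) (nat_lit 32768) (.ev (nat_lit 1492) (nat_lit 17179869184) (.ev (nat_lit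
 1524) (nat_lit 67109120) (.ev (nat_lit 1972) (nat_lit 274877906944) (.ev (nat_lit 2708) (nat_lit 8) (.ev
 (nat_lit 2964) (nat_lit 9007199254740992) (.nd (nat_lit 3680) (.br (nat_lit 12) (.br (nat_lit 4) (.br (nat_lit
 1) (.ch (nat_lit 0) (.ev (nat_lit 3696) (nat_lit 1180591717483024482304) (.ev (nat_lit 3732) (nat_lit
 36028797018963968) (.ev (nat_lit 4736) (nat_lit 549755813888) (.ev (nat_lit 4749) (nat_lit
 18446744073709551616) .dd))))) (.br (nat_lit 2) (.ch (nat_lit 1) (.ev (nat_lit 3696) (nat_lit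
 1199074481557659975680) (.ev (nat_lit 3892) (nat_lit 8796093022208) (.ev (nat_lit 3901) (nat_lit 549755813888)
 .dd)))) (.ch (nat_lit 2) (.ev (nat_lit 3696) (nat_lit 1199038462106489847808) (.ev (nat_lit 3709) (nat_lit
 36028797018963968) .dd))))) (.br (nat_lit 7) (.br (nat_lit 6) (.ch (nat_lit 4) (.ev (nat_lit 3696) (nat_lit
 1199074473311322767360) (.ev (nat_lit 3709) (nat_lit 17592186044416) .dd))) (.ch (nat_lit 6) (.ev (nat_lit
 3696) (nat_lit 18482782225167286272) (.ev (nat_lit 3732) (nat_lit 1180591620717411303424) (.ev (nat_lit 5412)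
 (nat_lit 17592186044416) (.ev (nat_lit 5421) (nat_lit 70368744177664) .dd)))))) (.br (nat_lit 10) (.ch
 (nat_lit 7) (.ev (nat_lit 3696) (nat_lit 18141941858304) (.ev (nat_lit 4102) (nat_lit 1199074472752977018880)
 (.ev (nat_lit 4109) (nat_lit 8589934592) .dd)))) (.ch (nat_lit 10) (.ev (nat_lit 3696) (nat_lit
 1199038374145559625728) (.ev (nat_lit 3712) (nat_lit 17592186044416) (.ev (nat_lit 4852) (nat_lit
 70368744177664) (.ev (nat_lit 4861) (nat_lit 36028797018963968) .dd)))))))) (.br (nat_lit 23) (.br (nat_lit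
 16) (.br (nat_lit 15) (.ch (nat_lit 12) (.ev (nat_lit 3696) (nat_lit 1199074490903508811776) .dd)) (.ch
 (nat_lit 15) (.ev (nat_lit 3696) (nat_lit 18482782216577351680) (.ev (nat_lit 3956) (nat_lit
 1180591620717411303424) (.ev (nat_lit 4564) (nat_lit 8589934592) (.ev (nat_lit 5092) (nat_lit 70368744177664)
 (.ev (nat_lit 5101) (nat_lit 17592186044416) .dd))))))) (.br (nat_lit 22) (.ch (nat_lit 16) (.ev (nat_lit
 3696) (nat_lit 36055743643779072) (.ev (nat_lit 4932) (nat_lit 1180591620717411303424) (.ev (nat_lit 5632)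
 (nat_lit 70368744177664) (.ev (nat_lit 5645) (nat_lit 18446744073709551616) .dd))))) (.ch (nat_lit 22) (.ev
 (nat_lit 3696) (nat_lit 1199074481549070041088) (.ev (nat_lit 3732) (nat_lit 8796093022208) (.ev (nat_lit
 5424) (nat_lit 8589934592) (.ev (nat_lit 5437) (nat_lit 549755813888) .dd))))))) (.br (nat_lit 30) (.br
 (nat_lit 26) (.ch (nat_lit 23) (.ev (nat_lit 3696) (nat_lit 1199038461556734033920) (.ev (nat_lit 5524)
 (nat_lit 549755813888) (.ev (nat_lit 5533) (nat_lit 36028797018963968) .dd)))) (.ch (nat_lit 26) (.ev (nat_lit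
 3696) (nat_lit 1199074482098825854976) (.ev (nat_lit 3732) (nat_lit 8796093022208) (.ev (nat_lit 3741)
 (nat_lit 8589934592) .dd))))) (.br (nat_lit 41) (.ch (nat_lit 30) (.ev (nat_lit 3696) (nat_lit
 1180591638318187282432) (.ev (nat_lit 3828) (nat_lit 8796093022208) (.ev (nat_lit 4932) (nat_lit
 70368744177664) (.ev (nat_lit 5092) (nat_lit 18446744073709551616) (.ev (nat_lit 5632) (nat_lit 549755813888)
 (.ev (nat_lit 5645) (nat_lit 36028797018963968) .dd))))))) (.ch (nat_lit 41) (.ev (nat_lit 3696) (nat_lit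
 1199038391737745670144) (.ev (nat_lit 3732) (nat_lit 36028797018963968) (.ev (nat_lit 3741) (nat_lit
 70368744177664) .dd)))))))))))))))))))) (.ch (nat_lit 52) (.ev (nat_lit 52) (nat_lit 55349248792077598984)
 (.ev (nat_lit 596) (nat_lit 147573952589676412928) (.ev (nat_lit 1108) (nat_lit 36028797018963968) (.ev
 (nat_lit 1204) (nat_lit 288230376151744512) (.ev (nat_lit 2036) (nat_lit 4194304) (.ev (nat_lit 2228) (nat_lit
 32) (.ev (nat_lit 2964) (nat_lit 562949953421312) (.ev (nat_lit 3316) (nat_lit 17592186044416) (.nd (nat_lit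
 3680) (.br (nat_lit 26) (.br (nat_lit 12) (.br (nat_lit 6) (.br (nat_lit 5) (.ch (nat_lit 1) (.ev (nat_lit
 3696) (nat_lit 1180591695484201992192) (.ev (nat_lit 5440) (nat_lit 18014398509481984) (.ev (nat_lit 5453)
 (nat_lit 274877906944) .dd)))) (.ch (nat_lit 5) (.ev (nat_lit 3696) (nat_lit 18019071433900032) (.ev (nat_lit
 3732) (nat_lit 1180591620717411303424) (.ev (nat_lit 3741) (nat_lit 70368744177664) .dd))))) (.br (nat_lit 10)
 (.ch (nat_lit 6) (.ev (nat_lit 3696) (nat_lit 18089440178077696) (.ev (nat_lit 3709) (nat_lit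
 1180591620717411303424) .dd))) (.ch (nat_lit 10) (.ev (nat_lit 3696) (nat_lit 18014673387388928) (.ev (nat_lit
 3732) (nat_lit 70368744177664) (.ev (nat_lit 5760) (nat_lit 1180591620717411303424) (.ev (nat_lit 5773)
 (nat_lit 4398046511104) .dd))))))) (.br (nat_lit 16) (.br (nat_lit 13) (.ch (nat_lit 12) (.ev (nat_lit 3696)
 (nat_lit 1180609710157589381120) .dd)) (.ch (nat_lit 13) (.ev (nat_lit 3696) (nat_lit 1180609705759542870016)
 (.ev (nat_lit 3709) (nat_lit 4398046511104) .dd)))) (.br (nat_lit 17) (.ch (nat_lit 16) (.ev (nat_lit 3696)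
 (nat_lit 1180609639788845203456) (.ev (nat_lit 3709) (nat_lit 70368744177664) .dd))) (.br (nat_lit 21) (.ch
 (nat_lit 17) (.ev (nat_lit 3696) (nat_lit 1180609639788845203456) (.ev (nat_lit 3709) (nat_lit 70368744177664)
 .dd))) (.ch (nat_lit 21) (.ev (nat_lit 3696) (nat_lit 70643622084608) (.ev (nat_lit 5824) (nat_lit
 1180609639513967296512) .dd))))))) (.br (nat_lit 36) (.br (nat_lit 28) (.br (nat_lit 27) (.ch (nat_lit 26)
 (.ev (nat_lit 3696) (nat_lit 18089440178077696) (.ev (nat_lit 3709) (nat_lit 1180591620717411303424) .dd)))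
 (.ch (nat_lit 27) (.ev (nat_lit 3696) (nat_lit 18089440178077696) (.ev (nat_lit 3709) (nat_lit
 1180591620717411303424) .dd)))) (.br (nat_lit 29) (.ch (nat_lit 28) (.ev (nat_lit 3696) (nat_lit
 1180609639513967296512) (.ev (nat_lit 3744) (nat_lit 70368744177664) (.ev (nat_lit 3757) (nat_lit
 274877906944) .dd)))) (.ch (nat_lit 29) (.ev (nat_lit 3696) (nat_lit 1180609709882711474176) (.ev (nat_lit
 3709) (nat_lit 274877906944) .dd))))) (.br (nat_lit 38) (.br (nat_lit 37) (.ch (nat_lit 36) (.ev (nat_lit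
 3696) (nat_lit 75041668595712) (.ev (nat_lit 3732) (nat_lit 18014398509481984) (.ev (nat_lit 3741) (nat_lit
 1180591620717411303424) .dd)))) (.ch (nat_lit 37) (.ev (nat_lit 3696) (nat_lit 1180609710157589381120) .dd)))
 (.br (nat_lit 39) (.ch (nat_lit 38) (.ev (nat_lit 3696) (nat_lit 1180609705484664963072) (.ev (nat_lit 3780)
 (nat_lit 274877906944) (.ev (nat_lit 3789) (nat_lit 4398046511104) .dd)))) (.br (nat_lit 41) (.ch (nat_lit 39)
 (.ev (nat_lit 3696) (nat_lit 1180609705759542870016) (.ev (nat_lit 3709) (nat_lit 4398046511104) .dd))) (.ch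
 (nat_lit 41) (.ev (nat_lit 3696) (nat_lit 1180609705759542870016) (.ev (nat_lit 3709) (nat_lit 4398046511104)
 .dd))))))))))))))))))))))))))

/-- Subtrie. -/
noncomputable def T18 : Tr := (.ev (nat_lit 20) (nat_lit 2214071330854859249794) (.nd (nat_lit 33) (.br
 (nat_lit 31) (.br (nat_lit 16) (.br (nat_lit 10) (.br (nat_lit 6) (.br (nat_lit 5) (.ch (nat_lit 4) (.ev
 (nat_lit 52) (nat_lit 36893580524112838688) (.ev (nat_lit 436) (nat_lit 16777216) (.ev (nat_lit 468) (nat_lit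
 1125899906842624) (.ev (nat_lit 1556) (nat_lit 8796093022208) (.ev (nat_lit 1876) (nat_lit 8) (.ev (nat_lit
 1908) (nat_lit 16) (.ev (nat_lit 2132) (nat_lit 8388608) (.ev (nat_lit 3124) (nat_lit 68719476736) (.ev
 (nat_lit 3572) (nat_lit 18446744073709551616) (.nd (nat_lit 3680) (.br (nat_lit 27) (.br (nat_lit 17) (.br
 (nat_lit 15) (.br (nat_lit 13) (.ch (nat_lit 0) (.ev (nat_lit 3696) (nat_lit 36028797019521024) (.ev (nat_lit
 3732) (nat_lit 562949953421312) (.ev (nat_lit 3892) (nat_lit 256) (.ev (nat_lit 3901) (nat_lit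
 4611686018427387904) .dd))))) (.ch (nat_lit 13) (.ev (nat_lit 3696) (nat_lit 4648277765400330496) .dd))) (.br
 (nat_lit 16) (.ch (nat_lit 15) (.ev (nat_lit 3696) (nat_lit 4647714815446909184) (.ev (nat_lit 3709) (nat_lit
 562949953421312) .dd))) (.ch (nat_lit 16) (.ev (nat_lit 3696) (nat_lit 4647714815446352128) (.ev (nat_lit
 5012) (nat_lit 524288) (.ev (nat_lit 5456) (nat_lit 32768) (.ev (nat_lit 5469) (nat_lit 562949953421312)
 .dd))))))) (.br (nat_lit 23) (.br (nat_lit 20) (.ch (nat_lit 17) (.ev (nat_lit 3696) (nat_lit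
 4647714815446876416) (.ev (nat_lit 3732) (nat_lit 562949953421312) (.ev (nat_lit 3741) (nat_lit 32768) .dd))))
 (.ch (nat_lit 20) (.ev (nat_lit 3696) (nat_lit 4612248968381366272) (.ev (nat_lit 5172) (nat_lit 256) (.ev
 (nat_lit 5181) (nat_lit 36028797018963968) .dd))))) (.br (nat_lit 25) (.ch (nat_lit 23) (.ev (nat_lit 3696)
 (nat_lit 4611686018427944960) (.ev (nat_lit 3732) (nat_lit 36028797018963968) (.ev (nat_lit 4976) (nat_lit
 562949953421312) (.ev (nat_lit 4989) (nat_lit 256) .dd))))) (.ch (nat_lit 25) (.ev (nat_lit 3696) (nat_lit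
 4647714815446909184) (.ev (nat_lit 3709) (nat_lit 562949953421312) .dd)))))) (.br (nat_lit 41) (.br (nat_lit
 36) (.br (nat_lit 35) (.ch (nat_lit 27) (.ev (nat_lit 3696) (nat_lit 4612248968380842240) (.ev (nat_lit 3732)
 (nat_lit 36028797018963968) (.ev (nat_lit 3741) (nat_lit 524288) .dd)))) (.ch (nat_lit 35) (.ev (nat_lit 3696)
 (nat_lit 562949953945856) (.ev (nat_lit 5412) (nat_lit 36028797018963968) (.ev (nat_lit 5792) (nat_lit
 4611686018427387904) (.ev (nat_lit 5805) (nat_lit 32768) .dd)))))) (.br (nat_lit 39) (.ch (nat_lit 36) (.ev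
 (nat_lit 3696) (nat_lit 4612248968381366528) (.ev (nat_lit 3709) (nat_lit 36028797018963968) .dd))) (.ch
 (nat_lit 39) (.ev (nat_lit 3696) (nat_lit 4647714815446909184) (.ev (nat_lit 3709) (nat_lit 562949953421312)
 .dd))))) (.br (nat_lit 44) (.br (nat_lit 42) (.ch (nat_lit 41) (.ev (nat_lit 3696) (nat_lit
 4648277765400330240) (.ev (nat_lit 3709) (nat_lit 256) .dd))) (.ch (nat_lit 42) (.ev (nat_lit 3696) (nat_lit
 36591746972942592) (.ev (nat_lit 3709) (nat_lit 4611686018427387904) .dd)))) (.br (nat_lit 45) (.ch (nat_lit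
 44) (.ev (nat_lit 3696) (nat_lit 4648277765400297472) (.ev (nat_lit 4356) (nat_lit 32768) (.ev (nat_lit 4365)
 (nat_lit 256) .dd)))) (.ch (nat_lit 45) (.ev (nat_lit 3696) (nat_lit 4648277765400297728) (.ev (nat_lit 3709)
 (nat_lit 32768) .dd)))))))))))))))))) (.ch (nat_lit 5) (.ev (nat_lit 52) (nat_lit 55376828366164361232) (.ev
 (nat_lit 436) (nat_lit 17592186044416) (.ev (nat_lit 468) (nat_lit 8) (.ev (nat_lit 1556) (nat_lit
 4611686018427387904) (.ev (nat_lit 1876) (nat_lit 1125899906842624) (.ev (nat_lit 1908) (nat_lit 32) (.ev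
 (nat_lit 2132) (nat_lit 524288) (.ev (nat_lit 3124) (nat_lit 256) (.ev (nat_lit 3572) (nat_lit 536870912) (.nd
 (nat_lit 3680) (.br (nat_lit 33) (.br (nat_lit 16) (.br (nat_lit 10) (.br (nat_lit 8) (.ch (nat_lit 6) (.ev
 (nat_lit 3696) (nat_lit 79233556938752) (.ev (nat_lit 3732) (nat_lit 17179869184) (.ev (nat_lit 3741) (nat_lit
 8388608) .dd)))) (.ch (nat_lit 8) (.ev (nat_lit 3696) (nat_lit 79250744934400) (.ev (nat_lit 3709) (nat_lit
 262144) .dd)))) (.br (nat_lit 13) (.ch (nat_lit 10) (.ev (nat_lit 3696) (nat_lit 79164845588480) (.ev (nat_lit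
 3732) (nat_lit 17179869184) (.ev (nat_lit 4976) (nat_lit 262144) (.ev (nat_lit 4989) (nat_lit 68719476736)
 .dd))))) (.ch (nat_lit 13) (.ev (nat_lit 3696) (nat_lit 79164845850624) (.ev (nat_lit 5172) (nat_lit
 68719476736) (.ev (nat_lit 5181) (nat_lit 17179869184) .dd)))))) (.br (nat_lit 18) (.br (nat_lit 17) (.ch
 (nat_lit 16) (.ev (nat_lit 3696) (nat_lit 8882000756736) (.ev (nat_lit 3732) (nat_lit 262144) (.ev (nat_lit
 3741) (nat_lit 70368744177664) .dd)))) (.ch (nat_lit 17) (.ev (nat_lit 3696) (nat_lit 8881992368128) (.ev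
 (nat_lit 5012) (nat_lit 8388608) (.ev (nat_lit 5456) (nat_lit 70368744177664) (.ev (nat_lit 5469) (nat_lit
 262144) .dd)))))) (.br (nat_lit 20) (.ch (nat_lit 18) (.ev (nat_lit 3696) (nat_lit 79250744934400) (.ev
 (nat_lit 3709) (nat_lit 262144) .dd))) (.ch (nat_lit 20) (.ev (nat_lit 3696) (nat_lit 79250745196544) .dd)))))
 (.br (nat_lit 39) (.br (nat_lit 36) (.br (nat_lit 35) (.ch (nat_lit 33) (.ev (nat_lit 3696) (nat_lit
 70385932435456) (.ev (nat_lit 3732) (nat_lit 262144) (.ev (nat_lit 3892) (nat_lit 68719476736) (.ev (nat_lit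
 3901) (nat_lit 8796093022208) .dd))))) (.ch (nat_lit 35) (.ev (nat_lit 3696) (nat_lit 8882001018880) (.ev
 (nat_lit 3709) (nat_lit 70368744177664) .dd)))) (.br (nat_lit 38) (.ch (nat_lit 36) (.ev (nat_lit 3696)
 (nat_lit 8813281542144) (.ev (nat_lit 4356) (nat_lit 70368744177664) (.ev (nat_lit 4365) (nat_lit 68719476736)
 .dd)))) (.ch (nat_lit 38) (.ev (nat_lit 3696) (nat_lit 70454652174336) (.ev (nat_lit 3709) (nat_lit
 8796093022208) .dd))))) (.br (nat_lit 44) (.br (nat_lit 41) (.ch (nat_lit 39) (.ev (nat_lit 3696) (nat_lit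
 79182025719808) (.ev (nat_lit 3709) (nat_lit 68719476736) .dd))) (.ch (nat_lit 41) (.ev (nat_lit 3696)
 (nat_lit 79250744934400) (.ev (nat_lit 3709) (nat_lit 262144) .dd)))) (.br (nat_lit 45) (.ch (nat_lit 44) (.ev
 (nat_lit 3696) (nat_lit 79233565327360) (.ev (nat_lit 3709) (nat_lit 17179869184) .dd))) (.ch (nat_lit 45)
 (.ev (nat_lit 3696) (nat_lit 68728127488) (.ev (nat_lit 5412) (nat_lit 17179869184) (.ev (nat_lit 5792)
 (nat_lit 8796093022208) (.ev (nat_lit 5805) (nat_lit 70368744177664) .dd))))))))))))))))))))) (.br (nat_lit 9)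
 (.ch (nat_lit 6) (.ev (nat_lit 52) (nat_lit 18446748541021093896) (.ev (nat_lit 340) (nat_lit
 1125899906842624) (.ev (nat_lit 1376) (nat_lit 41541862687039291696) .dd)))) (.ch (nat_lit 9) (.ev (nat_lit
 52) (nat_lit 4649403734051291160) (.ev (nat_lit 180) (nat_lit 8796093022208) (.ev (nat_lit 852) (nat_lit
 262144) (.ev (nat_lit 1492) (nat_lit 17592186044416) (.ev (nat_lit 1588) (nat_lit 524288) (.ev (nat_lit 1844)
 (nat_lit 256) (.ev (nat_lit 2292) (nat_lit 36893488147419103232) (.ev (nat_lit 3188) (nat_lit 536870912) (.ev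
 (nat_lit 3412) (nat_lit 17179869184) (.nd (nat_lit 3680) (.br (nat_lit 23) (.br (nat_lit 14) (.br (nat_lit 10)
 (.ch (nat_lit 5) (.ev (nat_lit 3696) (nat_lit 18446818840500240384) (.ev (nat_lit 3709) (nat_lit 32) .dd)))
 (.br (nat_lit 13) (.ch (nat_lit 10) (.ev (nat_lit 3696) (nat_lit 70368744177696) (.ev (nat_lit 3732) (nat_lit
 4398046511104) (.ev (nat_lit 3741) (nat_lit 18446744073709551616) .dd)))) (.ch (nat_lit 13) (.ev (nat_lit
 3696) (nat_lit 70368744177696) (.ev (nat_lit 5136) (nat_lit 18446744073709551616) (.ev (nat_lit 5149) (nat_lit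
 4398046511104) .dd)))))) (.br (nat_lit 18) (.br (nat_lit 16) (.ch (nat_lit 14) (.ev (nat_lit 3696) (nat_lit
 74766790688768) (.ev (nat_lit 3732) (nat_lit 32) (.ev (nat_lit 3741) (nat_lit 18446744073709551616) .dd))))
 (.ch (nat_lit 16) (.ev (nat_lit 3696) (nat_lit 18446744073709551648) (.fin (nat_lit 576468998648447548)))))
 (.br (nat_lit 19) (.ch (nat_lit 18) (.ev (nat_lit 3696) (nat_lit 18446744073709551648) (.ev (nat_lit 3732)
 (nat_lit 70368744177664) (.ev (nat_lit 3741) (nat_lit 4398046511104) .dd)))) (.ch (nat_lit 19) (.ev (nat_lit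
 3696) (nat_lit 74766790688800) (.ev (nat_lit 3709) (nat_lit 18446744073709551616) .dd)))))) (.br (nat_lit 37)
 (.br (nat_lit 27) (.br (nat_lit 25) (.ch (nat_lit 23) (.ev (nat_lit 3696) (nat_lit 18446744073709551648) (.ev
 (nat_lit 3732) (nat_lit 4398046511104) (.ev (nat_lit 3741) (nat_lit 70368744177664) .dd)))) (.ch (nat_lit 25)
 (.ev (nat_lit 3696) (nat_lit 74766790688768) (.ev (nat_lit 3956) (nat_lit 32) (.ev (nat_lit 3965) (nat_lit
 18446744073709551616) .dd))))) (.br (nat_lit 35) (.ch (nat_lit 27) (.ev (nat_lit 3696) (nat_lit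
 70368744177696) (.ev (nat_lit 3732) (nat_lit 4398046511104) (.ev (nat_lit 3741) (nat_lit 18446744073709551616)
 .dd)))) (.ch (nat_lit 35) (.ev (nat_lit 3696) (nat_lit 18446818840500240384) (.ev (nat_lit 3709) (nat_lit 32)
 .dd))))) (.br (nat_lit 43) (.br (nat_lit 39) (.ch (nat_lit 37) (.ev (nat_lit 3696) (nat_lit
 18446818840500240416) .dd)) (.ch (nat_lit 39) (.ev (nat_lit 3696) (nat_lit 70368744177664) (.ev (nat_lit 3780)
 (nat_lit 4398046511104) (.ev (nat_lit 5600) (nat_lit 32) (.ev (nat_lit 5613) (nat_lit 18446744073709551616)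
 .dd)))))) (.br (nat_lit 44) (.ch (nat_lit 43) (.ev (nat_lit 3696) (nat_lit 18446748471756062752) (.ev (nat_lit
 3709) (nat_lit 70368744177664) .dd))) (.ch (nat_lit 44) (.ev (nat_lit 3696) (nat_lit 18446748471756062752)
 (.ev (nat_lit 3709) (nat_lit 70368744177664) .dd)))))))))))))))))))) (.br (nat_lit 12) (.br (nat_lit 11) (.ch
 (nat_lit 10) (.ev (nat_lit 52) (nat_lit 23095105487909159224) (.ev (nat_lit 1076) (nat_lit 17592186044416)
 (.ev (nat_lit 1620) (nat_lit 8388608) (.ev (nat_lit 1652) (nat_lit 262144) (.ev (nat_lit 3092) (nat_lit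
 536870912) (.nd (nat_lit 3680) (.br (nat_lit 33) (.br (nat_lit 14) (.br (nat_lit 8) (.br (nat_lit 5) (.ch
 (nat_lit 0) (.ev (nat_lit 3696) (nat_lit 36893488147419136000) (.ev (nat_lit 3732) (nat_lit 524288) (.ev
 (nat_lit 3741) (nat_lit 1125899906842624) .dd)))) (.ch (nat_lit 5) (.ev (nat_lit 3696) (nat_lit
 36893488147419627520) (.ev (nat_lit 4964) (nat_lit 32768) (.ev (nat_lit 4973) (nat_lit 1125899906842624)
 .dd))))) (.br (nat_lit 10) (.ch (nat_lit 8) (.ev (nat_lit 3696) (nat_lit 36893488147419660288) (.ev (nat_lit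
 3709) (nat_lit 1125899906842624) .dd))) (.ch (nat_lit 10) (.ev (nat_lit 3696) (nat_lit 32768) (.ev (nat_lit
 3732) (nat_lit 36893488147419103232) (.ev (nat_lit 3904) (nat_lit 524288) (.ev (nat_lit 3917) (nat_lit
 1125899906842624) .dd))))))) (.br (nat_lit 17) (.br (nat_lit 15) (.ch (nat_lit 14) (.ev (nat_lit 3696)
 (nat_lit 36894614047326470144) (.ev (nat_lit 3709) (nat_lit 32768) .dd))) (.ch (nat_lit 15) (.ev (nat_lit
 3696) (nat_lit 36894614047325945856) (.ev (nat_lit 3732) (nat_lit 524288) (.ev (nat_lit 3741) (nat_lit 32768)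
 .dd))))) (.br (nat_lit 25) (.ch (nat_lit 17) (.ev (nat_lit 5524) (nat_lit 1125899906842624) (.ev (nat_lit
 5760) (nat_lit 524288) (.fin (nat_lit 576468998635864636))))) (.br (nat_lit 28) (.ch (nat_lit 25) (.ev
 (nat_lit 3696) (nat_lit 36893488147419627520) (.ev (nat_lit 3780) (nat_lit 32768) (.ev (nat_lit 3789) (nat_lit
 1125899906842624) .dd)))) (.ch (nat_lit 28) (.ev (nat_lit 3696) (nat_lit 36894614047325978624) (.ev (nat_lit
 3709) (nat_lit 524288) .dd))))))) (.br (nat_lit 40) (.br (nat_lit 38) (.br (nat_lit 36) (.ch (nat_lit 33) (.ev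
 (nat_lit 3696) (nat_lit 36893488147419660288) (.ev (nat_lit 3709) (nat_lit 1125899906842624) .dd))) (.ch
 (nat_lit 36) (.ev (nat_lit 3696) (nat_lit 36894614047326502912) .dd))) (.br (nat_lit 39) (.ch (nat_lit 38)
 (.ev (nat_lit 3696) (nat_lit 36894614047326502912) .dd)) (.ch (nat_lit 39) (.ev (nat_lit 3696) (nat_lit
 36894614047326502912) .dd)))) (.br (nat_lit 42) (.br (nat_lit 41) (.ch (nat_lit 40) (.ev (nat_lit 3696)
 (nat_lit 36894614047326470144) (.ev (nat_lit 3709) (nat_lit 32768) .dd))) (.ch (nat_lit 41) (.ev (nat_lit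
 3696) (nat_lit 1125899907399680) (.ev (nat_lit 3709) (nat_lit 36893488147419103232) .dd)))) (.br (nat_lit 44)
 (.ch (nat_lit 42) (.ev (nat_lit 3696) (nat_lit 36894614047326502912) .dd)) (.br (nat_lit 45) (.ch (nat_lit 44)
 (.ev (nat_lit 3696) (nat_lit 36894614047326502912) .dd)) (.ch (nat_lit 45) (.ev (nat_lit 3696) (nat_lit
 36894614047326470144) (.ev (nat_lit 3709) (nat_lit 32768) .dd))))))))))))))) (.ch (nat_lit 11) (.ev (nat_lit
 52) (nat_lit 36894143525077647368) (.ev (nat_lit 308) (nat_lit 1125899906842624) (.ev (nat_lit 884) (nat_lit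
 16) (.ev (nat_lit 1332) (nat_lit 262144) (.ev (nat_lit 1460) (nat_lit 32768) (.ev (nat_lit 2036) (nat_lit
 36028797018963968) (.ev (nat_lit 2292) (nat_lit 17179869184) (.ev (nat_lit 2772) (nat_lit 256) (.nd (nat_lit
 3680) (.br (nat_lit 23) (.br (nat_lit 10) (.br (nat_lit 6) (.br (nat_lit 5) (.ch (nat_lit 0) (.ev (nat_lit
 3696) (nat_lit 18446752869802573856) (.ev (nat_lit 5728) (nat_lit 16777216) (.ev (nat_lit 5808) (nat_lit
 4611686018964258816) .dd)))) (.ch (nat_lit 5) (.ev (nat_lit 3696) (nat_lit 4611686018444165120) (.ev (nat_lit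
 5648) (nat_lit 536870912) (.ev (nat_lit 5700) (nat_lit 32) (.ev (nat_lit 5712) (nat_lit 18446744073709551616)
 (.ev (nat_lit 5725) (nat_lit 8796093022208) .dd))))))) (.br (nat_lit 8) (.ch (nat_lit 6) (.ev (nat_lit 3696)
 (nat_lit 18446744074246422560) (.ev (nat_lit 3780) (nat_lit 4611686018427387904) (.ev (nat_lit 4256) (nat_lit
 8796093022208) (.ev (nat_lit 4269) (nat_lit 16777216) .dd))))) (.ch (nat_lit 8) (.ev (nat_lit 3696) (nat_lit
 8796646670336) (.ev (nat_lit 3780) (nat_lit 18446744073709551616) (.ev (nat_lit 5700) (nat_lit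
 4611686018427387904) (.ev (nat_lit 5709) (nat_lit 32) .dd))))))) (.br (nat_lit 16) (.br (nat_lit 15) (.ch
 (nat_lit 10) (.ev (nat_lit 3696) (nat_lit 4611694815074058272) (.ev (nat_lit 3709) (nat_lit
 18446744073709551616) .dd))) (.ch (nat_lit 15) (.ev (nat_lit 3696) (nat_lit 23058430092673810464) (.ev
 (nat_lit 5600) (nat_lit 16777216) (.ev (nat_lit 5613) (nat_lit 8796093022208) .dd))))) (.br (nat_lit 18) (.ch
 (nat_lit 16) (.ev (nat_lit 3696) (nat_lit 23058430092153716768) (.ev (nat_lit 5568) (nat_lit 536870912) (.ev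
 (nat_lit 5581) (nat_lit 8796093022208) .dd)))) (.br (nat_lit 19) (.ch (nat_lit 18) (.ev (nat_lit 3696)
 (nat_lit 18446752870356221984) (.ev (nat_lit 3709) (nat_lit 4611686018427387904) .dd))) (.ch (nat_lit 19) (.ev
 (nat_lit 3696) (nat_lit 23058438888246738944) (.ev (nat_lit 3732) (nat_lit 536870912) (.ev (nat_lit 3741)
 (nat_lit 32) .dd)))))))) (.br (nat_lit 36) (.br (nat_lit 27) (.br (nat_lit 25) (.ch (nat_lit 23) (.ev (nat_lit
 3696) (nat_lit 23058438888783609888) .dd)) (.ch (nat_lit 25) (.ev (nat_lit 3696) (nat_lit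
 23058430092690587680) (.ev (nat_lit 3709) (nat_lit 8796093022208) .dd)))) (.br (nat_lit 35) (.ch (nat_lit 27)
 (.ev (nat_lit 3696) (nat_lit 4611694815074058240) (.ev (nat_lit 5524) (nat_lit 18446744073709551616) (.ev
 (nat_lit 5533) (nat_lit 32) .dd)))) (.ch (nat_lit 35) (.ev (nat_lit 3696) (nat_lit 23058430092673810432) (.ev
 (nat_lit 5524) (nat_lit 32) (.ev (nat_lit 5700) (nat_lit 16777216) (.ev (nat_lit 5709) (nat_lit 8796093022208)
 .dd))))))) (.br (nat_lit 40) (.br (nat_lit 38) (.ch (nat_lit 36) (.ev (nat_lit 3696) (nat_lit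
 23058438888246738976) (.ev (nat_lit 3709) (nat_lit 536870912) .dd))) (.ch (nat_lit 38) (.ev (nat_lit 3696)
 (nat_lit 18446744074263199776) (.ev (nat_lit 3732) (nat_lit 4611686018427387904) (.ev (nat_lit 3741) (nat_lit
 8796093022208) .dd))))) (.br (nat_lit 44) (.ch (nat_lit 40) (.ev (nat_lit 3696) (nat_lit 23058438888246738976)
 (.ev (nat_lit 3709) (nat_lit 536870912) .dd))) (.br (nat_lit 45) (.ch (nat_lit 44) (.ev (nat_lit 3696)
 (nat_lit 4611694815057281056) (.ev (nat_lit 5632) (nat_lit 18446744073709551616) (.ev (nat_lit 5645) (nat_lit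
 16777216) .dd)))) (.ch (nat_lit 45) (.ev (nat_lit 3696) (nat_lit 23058430092153716768) (.ev (nat_lit 4612)
 (nat_lit 536870912) (.ev (nat_lit 4621) (nat_lit 8796093022208) .dd)))))))))))))))))))) (.br (nat_lit 15) (.ch
 (nat_lit 12) (.ev (nat_lit 52) (nat_lit 23096226972581495048) (.ev (nat_lit 180) (nat_lit 524288) (.ev
 (nat_lit 916) (nat_lit 4398046511104) (.ev (nat_lit 2132) (nat_lit 32768) (.ev (nat_lit 2420) (nat_lit 16)
 (.ev (nat_lit 2612) (nat_lit 536870912) (.nd (nat_lit 3680) (.br (nat_lit 27) (.br (nat_lit 14) (.br (nat_lit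
 10) (.br (nat_lit 5) (.ch (nat_lit 0) (.ev (nat_lit 3696) (nat_lit 17179869216) (.ev (nat_lit 3732) (nat_lit
 36893488147435880448) (.ev (nat_lit 3741) (nat_lit 17592186044416) .dd)))) (.ch (nat_lit 5) (.ev (nat_lit
 3696) (nat_lit 36893505756801794080) .dd))) (.br (nat_lit 13) (.ch (nat_lit 10) (.ev (nat_lit 3696) (nat_lit
 17196646432) (.ev (nat_lit 4832) (nat_lit 36893488147419103232) (.ev (nat_lit 4845) (nat_lit 17592186044416)
 .dd)))) (.ch (nat_lit 13) (.ev (nat_lit 3696) (nat_lit 17179869216) (.ev (nat_lit 3732) (nat_lit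
 36893488147419103232) (.ev (nat_lit 3780) (nat_lit 16777216) (.ev (nat_lit 3789) (nat_lit 17592186044416)
 .dd))))))) (.br (nat_lit 17) (.br (nat_lit 15) (.ch (nat_lit 14) (.ev (nat_lit 3696) (nat_lit
 36893505756801794048) (.ev (nat_lit 3709) (nat_lit 32) .dd))) (.ch (nat_lit 15) (.ev (nat_lit 3696) (nat_lit
 36893505756801794080) .dd))) (.br (nat_lit 19) (.ch (nat_lit 17) (.ev (nat_lit 3696) (nat_lit 17609382690848)
 (.ev (nat_lit 3709) (nat_lit 36893488147419103232) .dd))) (.br (nat_lit 20) (.ch (nat_lit 19) (.ev (nat_lit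
 3696) (nat_lit 36893505739621924896) (.ev (nat_lit 3709) (nat_lit 17179869184) .dd))) (.ch (nat_lit 20) (.ev
 (nat_lit 3696) (nat_lit 17592186044448) (.ev (nat_lit 3712) (nat_lit 16777216) (.ev (nat_lit 4324) (nat_lit
 17179869184) (.ev (nat_lit 4333) (nat_lit 36893488147419103232) .dd))))))))) (.br (nat_lit 38) (.br (nat_lit
 33) (.br (nat_lit 28) (.ch (nat_lit 27) (.ev (nat_lit 3696) (nat_lit 36893488147435880480) (.ev (nat_lit 5744)
 (nat_lit 17592186044416) (.ev (nat_lit 5757) (nat_lit 17179869184) .dd)))) (.ch (nat_lit 28) (.ev (nat_lit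
 3696) (nat_lit 36893505756801794080) .dd))) (.br (nat_lit 37) (.ch (nat_lit 33) (.ev (nat_lit 3696) (nat_lit
 17609365913600) (.ev (nat_lit 3732) (nat_lit 16777216) (.ev (nat_lit 5172) (nat_lit 36893488147419103232) (.ev
 (nat_lit 5181) (nat_lit 32) .dd))))) (.ch (nat_lit 37) (.ev (nat_lit 3696) (nat_lit 36893505756785016864) (.ev
 (nat_lit 3709) (nat_lit 16777216) .dd))))) (.br (nat_lit 40) (.br (nat_lit 39) (.ch (nat_lit 38) (.ev (nat_lit
 3696) (nat_lit 36893505756801794048) (.ev (nat_lit 3709) (nat_lit 32) .dd))) (.ch (nat_lit 39) (.ev (nat_lit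
 3696) (nat_lit 36893488164615749632) (.ev (nat_lit 5744) (nat_lit 17592186044416) (.ev (nat_lit 5757) (nat_lit
 32) .dd))))) (.br (nat_lit 41) (.ch (nat_lit 40) (.ev (nat_lit 3696) (nat_lit 36893505756801794080) .dd)) (.br
 (nat_lit 44) (.ch (nat_lit 41) (.ev (nat_lit 3696) (nat_lit 17592202821664) (.ev (nat_lit 3732) (nat_lit
 17179869184) (.ev (nat_lit 3741) (nat_lit 36893488147419103232) .dd)))) (.ch (nat_lit 44) (.ev (nat_lit 3696)
 (nat_lit 36893505739621924896) (.ev (nat_lit 3709) (nat_lit 17179869184) .dd)))))))))))))))) (.ch (nat_lit 15)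
 (.ev (nat_lit 52) (nat_lit 4613383750817710344) (.ev (nat_lit 180) (nat_lit 8388608) (.ev (nat_lit 916)
 (nat_lit 36893488147419103232) (.ev (nat_lit 2132) (nat_lit 70368744177664) (.ev (nat_lit 2420) (nat_lit 32)
 (.ev (nat_lit 2612) (nat_lit 18446744073709551616) (.nd (nat_lit 3680) (.br (nat_lit 23) (.br (nat_lit 14)
 (.br (nat_lit 6) (.br (nat_lit 5) (.ch (nat_lit 0) (.ev (nat_lit 3696) (nat_lit 36028797035741184) (.ev
 (nat_lit 3732) (nat_lit 17592186044416) (.ev (nat_lit 5172) (nat_lit 4398046511104) (.ev (nat_lit 5181)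
 (nat_lit 16) .dd))))) (.ch (nat_lit 5) (.ev (nat_lit 3696) (nat_lit 36050787268296720) .dd))) (.br (nat_lit
 13) (.ch (nat_lit 6) (.ev (nat_lit 3696) (nat_lit 21990232555536) (.ev (nat_lit 5744) (nat_lit 16777216) (.ev
 (nat_lit 5757) (nat_lit 36028797018963968) .dd)))) (.ch (nat_lit 13) (.ev (nat_lit 3696) (nat_lit 16777232)
 (.ev (nat_lit 3712) (nat_lit 17592186044416) (.ev (nat_lit 4324) (nat_lit 36028797018963968) (.ev (nat_lit
 4333) (nat_lit 4398046511104) .dd))))))) (.br (nat_lit 18) (.br (nat_lit 16) (.ch (nat_lit 14) (.ev (nat_lit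
 3696) (nat_lit 21990249332752) (.ev (nat_lit 3709) (nat_lit 36028797018963968) .dd))) (.ch (nat_lit 16) (.ev
 (nat_lit 3696) (nat_lit 36046389221785616) (.ev (nat_lit 3709) (nat_lit 4398046511104) .dd)))) (.br (nat_lit
 19) (.ch (nat_lit 18) (.ev (nat_lit 3696) (nat_lit 36050787268296720) .dd)) (.br (nat_lit 20) (.ch (nat_lit
 19) (.ev (nat_lit 3696) (nat_lit 36050787268296704) (.ev (nat_lit 3709) (nat_lit 16) .dd))) (.ch (nat_lit 20)
 (.ev (nat_lit 3696) (nat_lit 36028797018963984) (.ev (nat_lit 3732) (nat_lit 4398046511104) (.ev (nat_lit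
 3780) (nat_lit 17592186044416) (.ev (nat_lit 3789) (nat_lit 16777216) .dd))))))))) (.br (nat_lit 39) (.br
 (nat_lit 33) (.br (nat_lit 28) (.ch (nat_lit 23) (.ev (nat_lit 3696) (nat_lit 36046389205008400) (.ev (nat_lit
 4832) (nat_lit 4398046511104) (.ev (nat_lit 4845) (nat_lit 16777216) .dd)))) (.ch (nat_lit 28) (.ev (nat_lit
 3696) (nat_lit 36050787268296720) .dd))) (.br (nat_lit 36) (.ch (nat_lit 33) (.ev (nat_lit 3696) (nat_lit
 36028797018963984) (.ev (nat_lit 3732) (nat_lit 21990232555520) (.ev (nat_lit 3741) (nat_lit 16777216) .dd))))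
 (.ch (nat_lit 36) (.ev (nat_lit 3696) (nat_lit 21990249332752) (.ev (nat_lit 3709) (nat_lit 36028797018963968)
 .dd))))) (.br (nat_lit 41) (.br (nat_lit 40) (.ch (nat_lit 39) (.ev (nat_lit 3696) (nat_lit 17592202821648)
 (.ev (nat_lit 3732) (nat_lit 36028797018963968) (.ev (nat_lit 3741) (nat_lit 4398046511104) .dd)))) (.ch
 (nat_lit 40) (.ev (nat_lit 3696) (nat_lit 36050787268296720) .dd))) (.br (nat_lit 42) (.ch (nat_lit 41) (.ev
 (nat_lit 3696) (nat_lit 36050787251519488) (.ev (nat_lit 5744) (nat_lit 16777216) (.ev (nat_lit 5757) (nat_lit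
 16) .dd)))) (.br (nat_lit 43) (.ch (nat_lit 42) (.ev (nat_lit 3696) (nat_lit 36050787268296704) (.ev (nat_lit
 3709) (nat_lit 16) .dd))) (.ch (nat_lit 43) (.ev (nat_lit 3696) (nat_lit 36033195082252304) (.ev (nat_lit
 3709) (nat_lit 17592186044416) .dd))))))))))))))))))) (.br (nat_lit 22) (.br (nat_lit 18) (.br (nat_lit 17)
 (.ch (nat_lit 16) (.ev (nat_lit 52) (nat_lit 55377479277048496144) (.ev (nat_lit 404) (nat_lit 8796093022208)
 (.ev (nat_lit 1012) (nat_lit 32) (.ev (nat_lit 1044) (nat_lit 8) (.ev (nat_lit 1908) (nat_lit 17179869184)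
 (.ev (nat_lit 2676) (nat_lit 256) (.ev (nat_lit 3252) (nat_lit 536870912) (.ev (nat_lit 3508) (nat_lit
 68719476736) (.nd (nat_lit 3680) (.br (nat_lit 33) (.br (nat_lit 17) (.br (nat_lit 14) (.br (nat_lit 13) (.ch
 (nat_lit 5) (.ev (nat_lit 3696) (nat_lit 4612248968380841984) (.ev (nat_lit 4884) (nat_lit 8388608) (.ev
 (nat_lit 4893) (nat_lit 262144) .dd)))) (.ch (nat_lit 13) (.ev (nat_lit 3696) (nat_lit 4612248968389492736)
 .dd))) (.br (nat_lit 15) (.ch (nat_lit 14) (.ev (nat_lit 3696) (nat_lit 562949953716224) (.ev (nat_lit 3780)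
 (nat_lit 4611686018427387904) (.ev (nat_lit 3789) (nat_lit 8388608) .dd)))) (.ch (nat_lit 15) (.ev (nat_lit
 3696) (nat_lit 4612248968389492736) .dd)))) (.br (nat_lit 25) (.br (nat_lit 23) (.ch (nat_lit 17) (.ev
 (nat_lit 3696) (nat_lit 32768) (.ev (nat_lit 3732) (nat_lit 562949953421312) (.ev (nat_lit 5376) (nat_lit
 4611686018427387904) (.ev (nat_lit 5524) (nat_lit 262144) (.ev (nat_lit 5533) (nat_lit 8388608) .dd)))))) (.ch
 (nat_lit 23) (.ev (nat_lit 3696) (nat_lit 4612248968381104128) (.ev (nat_lit 3709) (nat_lit 8388608) .dd))))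
 (.br (nat_lit 27) (.ch (nat_lit 25) (.ev (nat_lit 3696) (nat_lit 4611686018436071424) (.ev (nat_lit 3709)
 (nat_lit 562949953421312) .dd))) (.br (nat_lit 28) (.ch (nat_lit 27) (.ev (nat_lit 3696) (nat_lit
 562949962104832) (.ev (nat_lit 3709) (nat_lit 4611686018427387904) .dd))) (.ch (nat_lit 28) (.ev (nat_lit
 3696) (nat_lit 4611686018436071424) (.ev (nat_lit 3709) (nat_lit 562949953421312) .dd))))))) (.br (nat_lit 40)
 (.br (nat_lit 37) (.br (nat_lit 36) (.ch (nat_lit 33) (.ev (nat_lit 3696) (nat_lit 4612248968389230592) (.ev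
 (nat_lit 3709) (nat_lit 262144) .dd))) (.ch (nat_lit 36) (.ev (nat_lit 3696) (nat_lit 4612248968389459968)
 (.ev (nat_lit 3709) (nat_lit 32768) .dd)))) (.br (nat_lit 39) (.ch (nat_lit 37) (.ev (nat_lit 3696) (nat_lit
 4612248968381071360) (.ev (nat_lit 5700) (nat_lit 32768) (.ev (nat_lit 5709) (nat_lit 8388608) .dd)))) (.ch
 (nat_lit 39) (.ev (nat_lit 3696) (nat_lit 4612248968389492736) .dd)))) (.br (nat_lit 43) (.br (nat_lit 42)
 (.ch (nat_lit 40) (.ev (nat_lit 3696) (nat_lit 4611686018436071424) (.ev (nat_lit 3709) (nat_lit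
 562949953421312) .dd))) (.ch (nat_lit 42) (.ev (nat_lit 3696) (nat_lit 4612248968381071360) (.ev (nat_lit
 3732) (nat_lit 8388608) (.ev (nat_lit 3741) (nat_lit 32768) .dd))))) (.br (nat_lit 44) (.ch (nat_lit 43) (.ev
 (nat_lit 3696) (nat_lit 4611686018427682816) (.ev (nat_lit 3792) (nat_lit 8388608) (.ev (nat_lit 3805)
 (nat_lit 562949953421312) .dd)))) (.br (nat_lit 45) (.ch (nat_lit 44) (.ev (nat_lit 3696) (nat_lit
 4611686018436038656) (.ev (nat_lit 3956) (nat_lit 562949953421312) (.ev (nat_lit 3965) (nat_lit 32768) .dd))))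
 (.ch (nat_lit 45) (.ev (nat_lit 3696) (nat_lit 8650752) (.ev (nat_lit 3744) (nat_lit 32768) (.ev (nat_lit
 3780) (nat_lit 4611686018427387904) (.ev (nat_lit 3789) (nat_lit 562949953421312) .dd)))))))))))))))))))) (.ch
 (nat_lit 17) (.ev (nat_lit 52) (nat_lit 41506396839965392936) (.ev (nat_lit 1076) (nat_lit 562949953421312)
 (.ev (nat_lit 2164) (nat_lit 68719476736) (.ev (nat_lit 2484) (nat_lit 16777216) (.nd (nat_lit 3680) (.br
 (nat_lit 33) (.br (nat_lit 13) (.br (nat_lit 6) (.ch (nat_lit 5) (.ev (nat_lit 3696) (nat_lit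
 18482777268775026960) (.ev (nat_lit 5412) (nat_lit 262144) (.ev (nat_lit 5421) (nat_lit 536870912) .dd))))
 (.br (nat_lit 8) (.ch (nat_lit 6) (.ev (nat_lit 3696) (nat_lit 18446748471756325136) (.ev (nat_lit 5744)
 (nat_lit 536870912) (.ev (nat_lit 5757) (nat_lit 36028797018963968) .dd)))) (.ch (nat_lit 8) (.ev (nat_lit
 3696) (nat_lit 4398046773504) (.ev (nat_lit 3780) (nat_lit 36028797555834880) (.ev (nat_lit 5700) (nat_lit 16)
 (.ev (nat_lit 5709) (nat_lit 18446744073709551616) .dd))))))) (.br (nat_lit 23) (.br (nat_lit 15) (.ch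
 (nat_lit 13) (.ev (nat_lit 3696) (nat_lit 36028797556097296) (.ev (nat_lit 3732) (nat_lit 4398046511104) (.ev
 (nat_lit 3741) (nat_lit 18446744073709551616) .dd)))) (.ch (nat_lit 15) (.ev (nat_lit 3696) (nat_lit
 18482777269311897856) (.ev (nat_lit 4068) (nat_lit 262144) (.ev (nat_lit 4077) (nat_lit 16) .dd))))) (.br
 (nat_lit 28) (.ch (nat_lit 23) (.ev (nat_lit 3696) (nat_lit 18446748472292933904) (.ev (nat_lit 3828) (nat_lit
 36028797018963968) (.ev (nat_lit 3837) (nat_lit 262144) .dd)))) (.ch (nat_lit 28) (.ev (nat_lit 3696) (nat_lit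
 18482777269312160016) .dd))))) (.br (nat_lit 41) (.br (nat_lit 38) (.br (nat_lit 35) (.ch (nat_lit 33) (.ev
 (nat_lit 3696) (nat_lit 18482777269312159760) (.ev (nat_lit 3709) (nat_lit 256) .dd))) (.ch (nat_lit 35) (.ev
 (nat_lit 3696) (nat_lit 18446744074246422800) (.ev (nat_lit 4112) (nat_lit 36028797018963968) (.ev (nat_lit
 5412) (nat_lit 262144) (.ev (nat_lit 5421) (nat_lit 4398046511104) .dd)))))) (.br (nat_lit 39) (.ch (nat_lit
 38) (.ev (nat_lit 3696) (nat_lit 18446748471756325136) (.ev (nat_lit 4468) (nat_lit 36028797018963968) (.ev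
 (nat_lit 4477) (nat_lit 536870912) .dd)))) (.ch (nat_lit 39) (.ev (nat_lit 3696) (nat_lit
 18482777269312160016) .dd)))) (.br (nat_lit 44) (.br (nat_lit 43) (.ch (nat_lit 41) (.ev (nat_lit 3696)
 (nat_lit 18482777269311897600) (.ev (nat_lit 3732) (nat_lit 256) (.ev (nat_lit 5412) (nat_lit 16) (.ev
 (nat_lit 5421) (nat_lit 262144) .dd))))) (.ch (nat_lit 43) (.ev (nat_lit 3696) (nat_lit 4398583644176) (.ev
 (nat_lit 3732) (nat_lit 18446744073709551616) (.ev (nat_lit 4480) (nat_lit 256) (.ev (nat_lit 4493) (nat_lit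
 36028797018963968) .dd)))))) (.br (nat_lit 45) (.ch (nat_lit 44) (.ev (nat_lit 3696) (nat_lit
 18482777269312160016) .dd)) (.ch (nat_lit 45) (.ev (nat_lit 3696) (nat_lit 18482772870728778000) (.ev (nat_lit
 5744) (nat_lit 4398046511104) (.ev (nat_lit 5757) (nat_lit 536870912) .dd))))))))))))))) (.br (nat_lit 21)
 (.ch (nat_lit 18) (.ev (nat_lit 52) (nat_lit 41505204952709497088) (.ev (nat_lit 436) (nat_lit 262144) (.ev
 (nat_lit 660) (nat_lit 68719476736) (.ev (nat_lit 692) (nat_lit 70368744177664) (.ev (nat_lit 788) (nat_lit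
 16777216) (.ev (nat_lit 1428) (nat_lit 18446744073709551616) (.ev (nat_lit 1812) (nat_lit 16) (.ev (nat_lit
 2036) (nat_lit 32) (.nd (nat_lit 3680) (.br (nat_lit 27) (.br (nat_lit 15) (.br (nat_lit 8) (.br (nat_lit 5)
 (.ch (nat_lit 0) (.ev (nat_lit 3696) (nat_lit 36591764160643080) (.ev (nat_lit 3709) (nat_lit
 1125899906842624) .dd))) (.ch (nat_lit 5) (.ev (nat_lit 3696) (nat_lit 36591764160643080) (.ev (nat_lit 3709)
 (nat_lit 1125899906842624) .dd)))) (.br (nat_lit 10) (.ch (nat_lit 8) (.ev (nat_lit 3696) (nat_lit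
 37717646887616520) (.ev (nat_lit 3709) (nat_lit 17179869184) .dd))) (.ch (nat_lit 10) (.ev (nat_lit 3696)
 (nat_lit 36028797018963976) (.ev (nat_lit 3828) (nat_lit 562949953421312) (.ev (nat_lit 5524) (nat_lit
 1125899915231232) (.ev (nat_lit 5533) (nat_lit 17179869184) .dd))))))) (.br (nat_lit 19) (.br (nat_lit 17)
 (.ch (nat_lit 15) (.ev (nat_lit 3696) (nat_lit 37717664067485704) .dd)) (.ch (nat_lit 17) (.ev (nat_lit 3696)
 (nat_lit 1688849868652552) (.ev (nat_lit 3732) (nat_lit 17179869184) (.ev (nat_lit 3741) (nat_lit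
 36028797018963968) .dd))))) (.br (nat_lit 20) (.ch (nat_lit 19) (.ev (nat_lit 3696) (nat_lit 1688849868652552)
 (.ev (nat_lit 5552) (nat_lit 17179869184) (.ev (nat_lit 5565) (nat_lit 36028797018963968) .dd)))) (.br
 (nat_lit 23) (.ch (nat_lit 20) (.ev (nat_lit 3696) (nat_lit 1688867048521736) (.ev (nat_lit 3709) (nat_lit
 36028797018963968) .dd))) (.ch (nat_lit 23) (.ev (nat_lit 3696) (nat_lit 37717664067485704) .dd)))))) (.br
 (nat_lit 36) (.br (nat_lit 33) (.br (nat_lit 28) (.ch (nat_lit 27) (.ev (nat_lit 3696) (nat_lit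
 37154696934195200) (.ev (nat_lit 4052) (nat_lit 17179869184) (.ev (nat_lit 5760) (nat_lit 562949953421312)
 (.ev (nat_lit 5773) (nat_lit 8) .dd))))) (.ch (nat_lit 28) (.ev (nat_lit 3696) (nat_lit 37717664067485696)
 (.ev (nat_lit 3709) (nat_lit 8) .dd)))) (.br (nat_lit 35) (.ch (nat_lit 33) (.ev (nat_lit 3696) (nat_lit
 36591764160643080) (.ev (nat_lit 3709) (nat_lit 1125899906842624) .dd))) (.ch (nat_lit 35) (.ev (nat_lit 3696)
 (nat_lit 37717664059097096) (.ev (nat_lit 3709) (nat_lit 8388608) .dd))))) (.br (nat_lit 42) (.br (nat_lit 38)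
 (.ch (nat_lit 36) (.ev (nat_lit 3696) (nat_lit 1125917095100416) (.ev (nat_lit 4628) (nat_lit 8) (.ev (nat_lit
 5760) (nat_lit 36591746972385280) .dd)))) (.ch (nat_lit 38) (.ev (nat_lit 3696) (nat_lit 36591764160643072)
 (.ev (nat_lit 3808) (nat_lit 1125899906842624) (.ev (nat_lit 3821) (nat_lit 8) .dd))))) (.br (nat_lit 43) (.ch
 (nat_lit 42) (.ev (nat_lit 3696) (nat_lit 36591746980773888) (.ev (nat_lit 4884) (nat_lit 1125899906842624)
 (.ev (nat_lit 5424) (nat_lit 8) (.ev (nat_lit 5437) (nat_lit 17179869184) .dd))))) (.br (nat_lit 45) (.ch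
 (nat_lit 43) (.ev (nat_lit 3696) (nat_lit 37154714105675784) (.ev (nat_lit 3780) (nat_lit 8388608) (.ev
 (nat_lit 3789) (nat_lit 562949953421312) .dd)))) (.ch (nat_lit 45) (.ev (nat_lit 3696) (nat_lit
 37717646887616520) (.ev (nat_lit 3709) (nat_lit 17179869184) .dd)))))))))))))))))) (.ch (nat_lit 21) (.ev
 (nat_lit 52) (nat_lit 1222674110742824) (.ev (nat_lit 180) (nat_lit 4611686018427387904) (.ev (nat_lit 852)
 (nat_lit 562949953421312) (.ev (nat_lit 1492) (nat_lit 16777216) (.ev (nat_lit 1588) (nat_lit 8388608) (.ev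
 (nat_lit 1844) (nat_lit 68719476736) (.ev (nat_lit 2292) (nat_lit 4398046511104) (.ev (nat_lit 3188) (nat_lit
 18446744073709551616) (.ev (nat_lit 3412) (nat_lit 36028797018963968) (.nd (nat_lit 3680) (.br (nat_lit 20)
 (.br (nat_lit 14) (.br (nat_lit 8) (.ch (nat_lit 6) (.ev (nat_lit 3696) (nat_lit 32784) (.ev (nat_lit 3732)
 (nat_lit 36893488147419103232) (.ev (nat_lit 3741) (nat_lit 536870912) .dd)))) (.br (nat_lit 10) (.ch (nat_lit
 8) (.ev (nat_lit 3696) (nat_lit 36893488147419136000) (.ev (nat_lit 3956) (nat_lit 16) (.ev (nat_lit 3965)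
 (nat_lit 536870912) .dd)))) (.ch (nat_lit 10) (.ev (nat_lit 3696) (nat_lit 536870928) (.ev (nat_lit 3732)
 (nat_lit 32768) (.ev (nat_lit 3741) (nat_lit 36893488147419103232) .dd)))))) (.br (nat_lit 17) (.br (nat_lit
 15) (.ch (nat_lit 14) (.ev (nat_lit 3696) (nat_lit 36893488147419136016) (.ev (nat_lit 3709) (nat_lit
 536870912) .dd))) (.ch (nat_lit 15) (.ev (nat_lit 3696) (nat_lit 536870928) (.ev (nat_lit 3732) (nat_lit
 32768) (.ev (nat_lit 3741) (nat_lit 36893488147419103232) .dd))))) (.br (nat_lit 19) (.ch (nat_lit 17) (.ev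
 (nat_lit 3696) (nat_lit 536870928) (.fin (nat_lit 576468998635864636)))) (.ch (nat_lit 19) (.ev (nat_lit 3696)
 (nat_lit 36893488147419136000) (.ev (nat_lit 3732) (nat_lit 16) (.ev (nat_lit 3741) (nat_lit 536870912)
 .dd))))))) (.br (nat_lit 37) (.br (nat_lit 28) (.br (nat_lit 23) (.ch (nat_lit 20) (.ev (nat_lit 3696)
 (nat_lit 32784) (.ev (nat_lit 5136) (nat_lit 536870912) (.ev (nat_lit 5149) (nat_lit 36893488147419103232)
 .dd)))) (.ch (nat_lit 23) (.ev (nat_lit 3696) (nat_lit 32784) (.ev (nat_lit 3732) (nat_lit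
 36893488147419103232) (.ev (nat_lit 3741) (nat_lit 536870912) .dd))))) (.br (nat_lit 36) (.ch (nat_lit 28)
 (.ev (nat_lit 3696) (nat_lit 36893488147956006912) (.ev (nat_lit 3709) (nat_lit 16) .dd))) (.ch (nat_lit 36)
 (.ev (nat_lit 3696) (nat_lit 36893488147955974160) (.ev (nat_lit 3709) (nat_lit 32768) .dd))))) (.br (nat_lit
 43) (.br (nat_lit 41) (.ch (nat_lit 37) (.ev (nat_lit 3696) (nat_lit 36893488147955974160) (.ev (nat_lit 3709)
 (nat_lit 32768) .dd))) (.ch (nat_lit 41) (.ev (nat_lit 3696) (nat_lit 32768) (.ev (nat_lit 3780) (nat_lit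
 36893488147419103232) (.ev (nat_lit 5600) (nat_lit 16) (.ev (nat_lit 5613) (nat_lit 536870912) .dd)))))) (.br
 (nat_lit 45) (.ch (nat_lit 43) (.ev (nat_lit 3696) (nat_lit 36893488147956006928) .dd)) (.ch (nat_lit 45) (.ev
 (nat_lit 3696) (nat_lit 36893488147956006912) (.ev (nat_lit 3709) (nat_lit 16) .dd)))))))))))))))))))) (.br
 (nat_lit 26) (.br (nat_lit 24) (.ch (nat_lit 22) (.ev (nat_lit 52) (nat_lit 4611690485730279688) (.ev (nat_lit
 724) (nat_lit 16) (.ev (nat_lit 820) (nat_lit 18446744073709551616) (.ev (nat_lit 1248) (nat_lit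
 36931302568527396896) .dd))))) (.ch (nat_lit 24) (.ev (nat_lit 52) (nat_lit 55340887547775844616) (.ev
 (nat_lit 500) (nat_lit 1125899906842624) (.ev (nat_lit 1812) (nat_lit 36028797018963968) (.ev (nat_lit 3008)
 (nat_lit 4611694883265577008) .dd)))))) (.br (nat_lit 28) (.ch (nat_lit 26) (.ev (nat_lit 52) (nat_lit
 41542355337487876400) (.ev (nat_lit 1076) (nat_lit 16777216) (.ev (nat_lit 1620) (nat_lit 524288) (.ev
 (nat_lit 1652) (nat_lit 562949953421312) (.ev (nat_lit 3092) (nat_lit 18446744073709551616) (.nd (nat_lit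
 3680) (.br (nat_lit 33) (.br (nat_lit 18) (.br (nat_lit 8) (.br (nat_lit 5) (.ch (nat_lit 0) (.ev (nat_lit
 3696) (nat_lit 74766799077376) (.ev (nat_lit 3709) (nat_lit 8) .dd))) (.ch (nat_lit 5) (.ev (nat_lit 3696)
 (nat_lit 74766790688776) (.ev (nat_lit 3709) (nat_lit 8388608) .dd)))) (.br (nat_lit 16) (.ch (nat_lit 8) (.ev
 (nat_lit 3696) (nat_lit 4398054899712) (.ev (nat_lit 3780) (nat_lit 70368744177664) (.ev (nat_lit 3789)
 (nat_lit 8) .dd)))) (.ch (nat_lit 16) (.ev (nat_lit 5524) (nat_lit 8) (.ev (nat_lit 5760) (nat_lit 8388608)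
 (.fin (nat_lit 576468998648447548))))))) (.br (nat_lit 23) (.br (nat_lit 19) (.ch (nat_lit 18) (.ev (nat_lit
 3696) (nat_lit 4398046511112) (.ev (nat_lit 3732) (nat_lit 8388608) (.ev (nat_lit 3741) (nat_lit
 70368744177664) .dd)))) (.ch (nat_lit 19) (.ev (nat_lit 3696) (nat_lit 4398054899720) (.ev (nat_lit 3709)
 (nat_lit 70368744177664) .dd)))) (.br (nat_lit 25) (.ch (nat_lit 23) (.ev (nat_lit 3696) (nat_lit
 70368744177664) (.ev (nat_lit 3732) (nat_lit 4398046511104) (.ev (nat_lit 3904) (nat_lit 8388608) (.ev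
 (nat_lit 3917) (nat_lit 8) .dd))))) (.br (nat_lit 28) (.ch (nat_lit 25) (.ev (nat_lit 3696) (nat_lit
 74766799077376) (.ev (nat_lit 3709) (nat_lit 8) .dd))) (.ch (nat_lit 28) (.ev (nat_lit 3696) (nat_lit
 4398054899712) (.ev (nat_lit 4964) (nat_lit 70368744177664) (.ev (nat_lit 4973) (nat_lit 8) .dd)))))))) (.br
 (nat_lit 39) (.br (nat_lit 36) (.br (nat_lit 35) (.ch (nat_lit 33) (.ev (nat_lit 3696) (nat_lit
 74766790688768) (.ev (nat_lit 3732) (nat_lit 8388608) (.ev (nat_lit 3741) (nat_lit 8) .dd)))) (.ch (nat_lit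
 35) (.ev (nat_lit 3696) (nat_lit 4398054899720) (.ev (nat_lit 3709) (nat_lit 70368744177664) .dd)))) (.br
 (nat_lit 38) (.ch (nat_lit 36) (.ev (nat_lit 3696) (nat_lit 74766799077384) .dd)) (.ch (nat_lit 38) (.ev
 (nat_lit 3696) (nat_lit 74766799077384) .dd)))) (.br (nat_lit 41) (.br (nat_lit 40) (.ch (nat_lit 39) (.ev
 (nat_lit 3696) (nat_lit 70368752566280) (.ev (nat_lit 3709) (nat_lit 4398046511104) .dd))) (.ch (nat_lit 40)
 (.ev (nat_lit 3696) (nat_lit 4398054899720) (.ev (nat_lit 3709) (nat_lit 70368744177664) .dd)))) (.br (nat_lit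
 42) (.ch (nat_lit 41) (.ev (nat_lit 3696) (nat_lit 74766799077384) .dd)) (.br (nat_lit 44) (.ch (nat_lit 42)
 (.ev (nat_lit 3696) (nat_lit 74766799077384) .dd)) (.ch (nat_lit 44) (.ev (nat_lit 3696) (nat_lit
 74766799077384) .dd)))))))))))))) (.br (nat_lit 29) (.ch (nat_lit 28) (.ev (nat_lit 52) (nat_lit
 571763763970352) (.ev (nat_lit 372) (nat_lit 1125899906842624) (.ev (nat_lit 692) (nat_lit
 4611686018427387904) (.ev (nat_lit 724) (nat_lit 36028797018963968) (.ev (nat_lit 1940) (nat_lit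
 17592186044416) (.ev (nat_lit 2324) (nat_lit 8388608) (.ev (nat_lit 2356) (nat_lit 16777216) (.nd (nat_lit
 3680) (.br (nat_lit 18) (.br (nat_lit 13) (.br (nat_lit 6) (.ch (nat_lit 0) (.ev (nat_lit 3696) (nat_lit
 55340306987919376392) (.ev (nat_lit 3709) (nat_lit 68719476736) .dd))) (.br (nat_lit 10) (.ch (nat_lit 6) (.ev
 (nat_lit 3696) (nat_lit 18446818909219749896) (.ev (nat_lit 3709) (nat_lit 36893488147419103232) .dd))) (.ch
 (nat_lit 10) (.ev (nat_lit 3696) (nat_lit 36893562982929268744) (.ev (nat_lit 3732) (nat_lit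
 18446744073709551616) (.ev (nat_lit 3741) (nat_lit 32768) .dd)))))) (.br (nat_lit 15) (.br (nat_lit 14) (.ch
 (nat_lit 13) (.ev (nat_lit 3696) (nat_lit 36893492545465647112) (.ev (nat_lit 3732) (nat_lit 68719476736) (.ev
 (nat_lit 5712) (nat_lit 18446744073709551616) (.ev (nat_lit 5725) (nat_lit 70368744177664) .dd))))) (.ch
 (nat_lit 14) (.ev (nat_lit 3696) (nat_lit 36893562982929268744) (.ev (nat_lit 4004) (nat_lit
 18446744073709551616) (.ev (nat_lit 4013) (nat_lit 32768) .dd))))) (.br (nat_lit 17) (.ch (nat_lit 15) (.ev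
 (nat_lit 3696) (nat_lit 55340307056638820360) (.ev (nat_lit 3709) (nat_lit 32768) .dd))) (.ch (nat_lit 17)
 (.ev (nat_lit 3696) (nat_lit 36893492614185091080) (.ev (nat_lit 3828) (nat_lit 32768) (.ev (nat_lit 4692)
 (nat_lit 70368744177664) (.ev (nat_lit 4701) (nat_lit 18446744073709551616) .dd)))))))) (.br (nat_lit 28) (.br
 (nat_lit 23) (.br (nat_lit 19) (.ch (nat_lit 18) (.ev (nat_lit 3696) (nat_lit 55340302658592342024) (.ev
 (nat_lit 3709) (nat_lit 4398046511104) .dd))) (.ch (nat_lit 19) (.ev (nat_lit 3696) (nat_lit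
 36893562982929301512) (.ev (nat_lit 3709) (nat_lit 18446744073709551616) .dd)))) (.br (nat_lit 27) (.ch
 (nat_lit 23) (.ev (nat_lit 3696) (nat_lit 18446818909219749896) (.ev (nat_lit 3709) (nat_lit
 36893488147419103232) .dd))) (.ch (nat_lit 27) (.ev (nat_lit 3696) (nat_lit 36893488216138612744) (.ev
 (nat_lit 5584) (nat_lit 70368744177664) (.ev (nat_lit 5728) (nat_lit 18446748471756062720) .dd)))))) (.br
 (nat_lit 39) (.br (nat_lit 36) (.ch (nat_lit 28) (.ev (nat_lit 3696) (nat_lit 36893492614185123848) (.ev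
 (nat_lit 5664) (nat_lit 18446744073709551616) (.ev (nat_lit 5677) (nat_lit 70368744177664) .dd)))) (.ch
 (nat_lit 36) (.ev (nat_lit 3696) (nat_lit 55340236687894675456) (.ev (nat_lit 3828) (nat_lit 70368744177664)
 (.ev (nat_lit 3837) (nat_lit 8) .dd))))) (.br (nat_lit 44) (.ch (nat_lit 39) (.ev (nat_lit 3696) (nat_lit
 55340236687894675464) (.ev (nat_lit 3709) (nat_lit 70368744177664) .dd))) (.ch (nat_lit 44) (.ev (nat_lit
 3696) (nat_lit 55340236687894675456) (.ev (nat_lit 5040) (nat_lit 8) (.ev (nat_lit 5053) (nat_lit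
 70368744177664) .dd))))))))))))))))) (.ch (nat_lit 29) (.ev (nat_lit 52) (nat_lit 23096152206319550504) (.ev
 (nat_lit 180) (nat_lit 32768) (.ev (nat_lit 980) (nat_lit 262144) (.ev (nat_lit 1652) (nat_lit 17592186044416)
 (.ev (nat_lit 2324) (nat_lit 70368744177664) (.ev (nat_lit 2452) (nat_lit 8388608) (.nd (nat_lit 3680) (.br
 (nat_lit 28) (.br (nat_lit 14) (.br (nat_lit 10) (.br (nat_lit 8) (.ch (nat_lit 6) (.ev (nat_lit 3696)
 (nat_lit 36893488147419103504) (.ev (nat_lit 5472) (nat_lit 17179869184) (.ev (nat_lit 5524) (nat_lit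
 16777216) (.ev (nat_lit 5533) (nat_lit 8796093022208) .dd))))) (.ch (nat_lit 8) (.ev (nat_lit 3696) (nat_lit
 36893496943528902928) (.ev (nat_lit 3709) (nat_lit 17179869184) .dd)))) (.br (nat_lit 13) (.ch (nat_lit 10)
 (.ev (nat_lit 3696) (nat_lit 8813289668880) (.ev (nat_lit 3709) (nat_lit 36893488147419103232) .dd))) (.ch
 (nat_lit 13) (.ev (nat_lit 3696) (nat_lit 8796109799696) (.ev (nat_lit 5760) (nat_lit 17179869184) (.ev
 (nat_lit 5773) (nat_lit 36893488147419103232) .dd)))))) (.br (nat_lit 17) (.br (nat_lit 15) (.ch (nat_lit 14)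
 (.ev (nat_lit 3696) (nat_lit 36893496960708772096) (.ev (nat_lit 3709) (nat_lit 16) .dd))) (.ch (nat_lit 15)
 (.ev (nat_lit 3696) (nat_lit 8813272891664) (.ev (nat_lit 3732) (nat_lit 16777216) (.ev (nat_lit 3741)
 (nat_lit 36893488147419103232) .dd))))) (.br (nat_lit 20) (.ch (nat_lit 17) (.ev (nat_lit 3696) (nat_lit
 8813289668624) (.ev (nat_lit 5712) (nat_lit 256) (.ev (nat_lit 5725) (nat_lit 36893488147419103232) .dd))))
 (.br (nat_lit 25) (.ch (nat_lit 20) (.ev (nat_lit 3696) (nat_lit 36893496960708771840) (.ev (nat_lit 5616)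
 (nat_lit 256) (.ev (nat_lit 5629) (nat_lit 16) .dd)))) (.ch (nat_lit 25) (.ev (nat_lit 3696) (nat_lit
 36893496943512125696) (.ev (nat_lit 3828) (nat_lit 16777216) (.ev (nat_lit 5840) (nat_lit 16) (.ev (nat_lit
 5853) (nat_lit 17179869184) .dd))))))))) (.br (nat_lit 38) (.br (nat_lit 35) (.br (nat_lit 33) (.ch (nat_lit
 28) (.ev (nat_lit 3696) (nat_lit 36893496960691994880) (.ev (nat_lit 3732) (nat_lit 16777216) (.ev (nat_lit
 3741) (nat_lit 16) .dd)))) (.ch (nat_lit 33) (.ev (nat_lit 3696) (nat_lit 17179869456) (.ev (nat_lit 3732)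
 (nat_lit 8796093022208) (.ev (nat_lit 4224) (nat_lit 36893488147419103232) (.ev (nat_lit 4237) (nat_lit
 16777216) .dd)))))) (.br (nat_lit 37) (.ch (nat_lit 35) (.ev (nat_lit 3696) (nat_lit 36893488164598972432)
 (.ev (nat_lit 3744) (nat_lit 256) (.ev (nat_lit 3780) (nat_lit 16777216) (.ev (nat_lit 3789) (nat_lit
 8796093022208) .dd))))) (.ch (nat_lit 37) (.ev (nat_lit 3696) (nat_lit 36893496943528902928) (.ev (nat_lit
 3709) (nat_lit 17179869184) .dd))))) (.br (nat_lit 41) (.br (nat_lit 40) (.ch (nat_lit 38) (.ev (nat_lit 3696)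
 (nat_lit 36893496960708772112) .dd)) (.ch (nat_lit 40) (.ev (nat_lit 3696) (nat_lit 36893496960708772096) (.ev
 (nat_lit 3709) (nat_lit 16) .dd)))) (.br (nat_lit 44) (.ch (nat_lit 41) (.ev (nat_lit 3696) (nat_lit
 8813289668624) (.ev (nat_lit 5268) (nat_lit 256) (.ev (nat_lit 5277) (nat_lit 36893488147419103232) .dd))))
 (.br (nat_lit 45) (.ch (nat_lit 44) (.ev (nat_lit 3696) (nat_lit 36893496943528902656) (.ev (nat_lit 3732)
 (nat_lit 256) (.ev (nat_lit 5424) (nat_lit 16) (.ev (nat_lit 5437) (nat_lit 17179869184) .dd))))) (.ch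
 (nat_lit 45) (.ev (nat_lit 3696) (nat_lit 36893496960708772096) (.ev (nat_lit 3709) (nat_lit 16)
 .dd))))))))))))))))))))) (.br (nat_lit 42) (.br (nat_lit 38) (.br (nat_lit 36) (.br (nat_lit 33) (.ch (nat_lit
 31) (.ev (nat_lit 52) (nat_lit 55341437354592174336) (.ev (nat_lit 724) (nat_lit 32) (.ev (nat_lit 820)
 (nat_lit 536870912) (.ev (nat_lit 1344) (nat_lit 4648299772838182936) .dd))))) (.ch (nat_lit 33) (.ev (nat_lit
 52) (nat_lit 4611694831725707520) (.ev (nat_lit 404) (nat_lit 32768) (.ev (nat_lit 724) (nat_lit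
 4398046511104) (.ev (nat_lit 1280) (nat_lit 55378037898194976824) .dd)))))) (.br (nat_lit 37) (.ch (nat_lit
 36) (.ev (nat_lit 52) (nat_lit 36028866292383792) (.ev (nat_lit 692) (nat_lit 8388608) (.ev (nat_lit 916)
 (nat_lit 17179869184) (.ev (nat_lit 1108) (nat_lit 1125899906842624) (.ev (nat_lit 1140) (nat_lit 524288) (.ev
 (nat_lit 1780) (nat_lit 70368744177664) (.ev (nat_lit 2624) (nat_lit 59952511975835042056) .dd)))))))) (.ch
 (nat_lit 37) (.ev (nat_lit 52) (nat_lit 23095021907837452336) (.ev (nat_lit 372) (nat_lit 8) (.ev (nat_lit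
 692) (nat_lit 8796093022208) (.ev (nat_lit 724) (nat_lit 17179869184) (.ev (nat_lit 1940) (nat_lit 16777216)
 (.ev (nat_lit 2324) (nat_lit 524288) (.ev (nat_lit 2356) (nat_lit 17592186044416) (.nd (nat_lit 3680) (.br
 (nat_lit 19) (.br (nat_lit 14) (.br (nat_lit 6) (.ch (nat_lit 5) (.ev (nat_lit 3696) (nat_lit
 36894688814116634880) (.ev (nat_lit 5664) (nat_lit 536870912) (.ev (nat_lit 5677) (nat_lit 32768) .dd)))) (.br
 (nat_lit 10) (.ch (nat_lit 6) (.ev (nat_lit 3696) (nat_lit 1200666697531648) (.ev (nat_lit 5584) (nat_lit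
 32768) (.ev (nat_lit 5728) (nat_lit 36893488147955974144) .dd)))) (.ch (nat_lit 10) (.ev (nat_lit 3696)
 (nat_lit 36894684416607027456) (.ev (nat_lit 3709) (nat_lit 4398046511104) .dd))))) (.br (nat_lit 16) (.br
 (nat_lit 15) (.ch (nat_lit 14) (.ev (nat_lit 3696) (nat_lit 36894688814116667648) (.ev (nat_lit 3709) (nat_lit
 536870912) .dd))) (.ch (nat_lit 15) (.ev (nat_lit 3696) (nat_lit 1200667234435328) (.ev (nat_lit 3709)
 (nat_lit 36893488147419103232) .dd)))) (.br (nat_lit 18) (.ch (nat_lit 16) (.ev (nat_lit 3696) (nat_lit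
 36894618445372457216) (.ev (nat_lit 3828) (nat_lit 70368744177664) (.ev (nat_lit 4692) (nat_lit 32768) (.ev
 (nat_lit 4701) (nat_lit 536870912) .dd))))) (.ch (nat_lit 18) (.ev (nat_lit 3696) (nat_lit
 36894618445909360896) (.ev (nat_lit 3709) (nat_lit 70368744177664) .dd)))))) (.br (nat_lit 33) (.br (nat_lit
 23) (.br (nat_lit 20) (.ch (nat_lit 19) (.ev (nat_lit 3696) (nat_lit 36894618445372489984) (.ev (nat_lit 4004)
 (nat_lit 536870912) (.ev (nat_lit 4013) (nat_lit 70368744177664) .dd)))) (.ch (nat_lit 20) (.ev (nat_lit 3696)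
 (nat_lit 36894688814116634624) (.ev (nat_lit 3732) (nat_lit 256) (.ev (nat_lit 5712) (nat_lit 536870912) (.ev
 (nat_lit 5725) (nat_lit 32768) .dd)))))) (.br (nat_lit 27) (.ch (nat_lit 23) (.ev (nat_lit 3696) (nat_lit
 36894618445372489984) (.ev (nat_lit 3732) (nat_lit 536870912) (.ev (nat_lit 3741) (nat_lit 70368744177664)
 .dd)))) (.ch (nat_lit 27) (.ev (nat_lit 3696) (nat_lit 36894684416607027456) (.ev (nat_lit 3709) (nat_lit
 4398046511104) .dd))))) (.br (nat_lit 41) (.br (nat_lit 36) (.ch (nat_lit 33) (.ev (nat_lit 3696) (nat_lit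
 36894688814653538304) (.ev (nat_lit 3709) (nat_lit 256) .dd))) (.ch (nat_lit 36) (.ev (nat_lit 3696) (nat_lit
 36893562914746663168) (.ev (nat_lit 5040) (nat_lit 1125899906842624) (.ev (nat_lit 5053) (nat_lit 32768)
 .dd))))) (.br (nat_lit 44) (.ch (nat_lit 41) (.ev (nat_lit 3696) (nat_lit 36894688814653505792) (.ev (nat_lit
 3709) (nat_lit 32768) .dd))) (.ch (nat_lit 44) (.ev (nat_lit 3696) (nat_lit 36893562914746663168) (.ev
 (nat_lit 3828) (nat_lit 32768) (.ev (nat_lit 3837) (nat_lit 1125899906842624) .dd))))))))))))))))))) (.br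
 (nat_lit 40) (.br (nat_lit 39) (.ch (nat_lit 38) (.ev (nat_lit 52) (nat_lit 580542140252464) (.ev (nat_lit
 532) (nat_lit 36028797018963968) (.ev (nat_lit 884) (nat_lit 4398046511104) (.ev (nat_lit 948) (nat_lit
 17179869184) (.ev (nat_lit 1012) (nat_lit 36893488147419103232) (.ev (nat_lit 1588) (nat_lit 70368744177664)
 (.ev (nat_lit 1780) (nat_lit 8796093022208) (.ev (nat_lit 2996) (nat_lit 536870912) (.ev (nat_lit 3668)
 (nat_lit 18446744073709551616) (.nd (nat_lit 3680) (.br (nat_lit 27) (.br (nat_lit 16) (.br (nat_lit 14) (.br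
 (nat_lit 13) (.ch (nat_lit 6) (.ev (nat_lit 3696) (nat_lit 4612811918351040520) (.ev (nat_lit 3780) (nat_lit
 8388608) (.ev (nat_lit 3789) (nat_lit 68719476736) .dd)))) (.ch (nat_lit 13) (.ev (nat_lit 3696) (nat_lit
 4612811918342651912) (.ev (nat_lit 3732) (nat_lit 16777216) (.ev (nat_lit 3741) (nat_lit 68719476736) .dd)))))
 (.br (nat_lit 15) (.ch (nat_lit 14) (.ev (nat_lit 3696) (nat_lit 4611686087172030472) (.ev (nat_lit 5744)
 (nat_lit 32768) (.ev (nat_lit 5757) (nat_lit 1125899906842624) .dd)))) (.ch (nat_lit 15) (.ev (nat_lit 3696)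
 (nat_lit 4611686087172063232) (.ev (nat_lit 4932) (nat_lit 8) (.ev (nat_lit 4941) (nat_lit 1125899906842624)
 .dd)))))) (.br (nat_lit 18) (.br (nat_lit 17) (.ch (nat_lit 16) (.ev (nat_lit 3696) (nat_lit
 4612811918359429120) (.ev (nat_lit 3732) (nat_lit 68719476736) (.ev (nat_lit 3741) (nat_lit 8) .dd)))) (.ch
 (nat_lit 17) (.ev (nat_lit 3696) (nat_lit 68736253960) (.ev (nat_lit 3828) (nat_lit 1125899906842624) (.ev
 (nat_lit 5524) (nat_lit 4611686018427387904) (.ev (nat_lit 5728) (nat_lit 8421376) .dd)))))) (.br (nat_lit 23)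
 (.ch (nat_lit 18) (.ev (nat_lit 3696) (nat_lit 1125968651517952) (.ev (nat_lit 3780) (nat_lit 8) (.ev (nat_lit
 3789) (nat_lit 4611686018427387904) .dd)))) (.br (nat_lit 25) (.ch (nat_lit 23) (.ev (nat_lit 3696) (nat_lit
 4612811987053740032) (.ev (nat_lit 5412) (nat_lit 8) (.ev (nat_lit 5568) (nat_lit 16777216) (.ev (nat_lit
 5581) (nat_lit 8388608) .dd))))) (.ch (nat_lit 25) (.ev (nat_lit 3696) (nat_lit 4611686087163674632) (.ev
 (nat_lit 5552) (nat_lit 1125899906842624) (.ev (nat_lit 5565) (nat_lit 8388608) .dd)))))))) (.br (nat_lit 40)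
 (.br (nat_lit 35) (.br (nat_lit 33) (.ch (nat_lit 27) (.ev (nat_lit 3696) (nat_lit 1125968651517952) (.ev
 (nat_lit 5440) (nat_lit 4611686018427387904) (.ev (nat_lit 5453) (nat_lit 8) .dd)))) (.ch (nat_lit 33) (.ev
 (nat_lit 3696) (nat_lit 1125968626352136) (.ev (nat_lit 4820) (nat_lit 4611686018427387904) (.ev (nat_lit
 5472) (nat_lit 8388608) (.ev (nat_lit 5485) (nat_lit 16777216) .dd)))))) (.br (nat_lit 37) (.ch (nat_lit 35)
 (.ev (nat_lit 3696) (nat_lit 4612811987078905864) .dd)) (.ch (nat_lit 37) (.ev (nat_lit 3696) (nat_lit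
 4612811918334263304) (.ev (nat_lit 5712) (nat_lit 25165824) (.ev (nat_lit 5725) (nat_lit 68719476736)
 .dd)))))) (.br (nat_lit 42) (.br (nat_lit 41) (.ch (nat_lit 40) (.ev (nat_lit 3696) (nat_lit
 4612811987078905864) .dd)) (.ch (nat_lit 41) (.ev (nat_lit 3696) (nat_lit 1125899915264008) (.ev (nat_lit
 3828) (nat_lit 16777216) (.ev (nat_lit 5712) (nat_lit 4611686018427387904) (.ev (nat_lit 5725) (nat_lit
 68719476736) .dd)))))) (.br (nat_lit 43) (.ch (nat_lit 42) (.ev (nat_lit 3696) (nat_lit 1125899932041224) (.ev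
 (nat_lit 3732) (nat_lit 68719476736) (.ev (nat_lit 3741) (nat_lit 4611686018427387904) .dd)))) (.br (nat_lit
 45) (.ch (nat_lit 43) (.ev (nat_lit 3696) (nat_lit 4612811918351040520) (.ev (nat_lit 3732) (nat_lit
 68719476736) (.ev (nat_lit 3741) (nat_lit 8388608) .dd)))) (.ch (nat_lit 45) (.ev (nat_lit 3696) (nat_lit
 4612811987078873096) (.ev (nat_lit 3709) (nat_lit 32768) .dd))))))))))))))))))) (.ch (nat_lit 39) (.ev
 (nat_lit 52) (nat_lit 55341991440270491904) (.ev (nat_lit 340) (nat_lit 8) (.ev (nat_lit 1184) (nat_lit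
 4647745687696736304) .dd))))) (.br (nat_lit 41) (.ch (nat_lit 40) (.ev (nat_lit 52) (nat_lit
 18447395001773064496) (.ev (nat_lit 692) (nat_lit 524288) (.ev (nat_lit 916) (nat_lit 36028797018963968) (.ev
 (nat_lit 1108) (nat_lit 8) (.ev (nat_lit 1140) (nat_lit 8388608) (.ev (nat_lit 1780) (nat_lit 32768) (.ev
 (nat_lit 2688) (nat_lit 41506313329166254080) .dd)))))))) (.ch (nat_lit 41) (.ev (nat_lit 52) (nat_lit
 4648924278262628376) (.ev (nat_lit 1076) (nat_lit 262144) (.ev (nat_lit 2164) (nat_lit 256) (.ev (nat_lit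
 2484) (nat_lit 17592186044416) (.nd (nat_lit 3680) (.br (nat_lit 28) (.br (nat_lit 18) (.br (nat_lit 5) (.ch
 (nat_lit 0) (.ev (nat_lit 3696) (nat_lit 55340795188798816288) (.ev (nat_lit 3709) (nat_lit 68719476736)
 .dd))) (.br (nat_lit 10) (.ch (nat_lit 5) (.ev (nat_lit 3696) (nat_lit 55340795257518293024) .dd)) (.ch
 (nat_lit 10) (.ev (nat_lit 3696) (nat_lit 55340232290385002528) (.ev (nat_lit 3828) (nat_lit 17179869184) (.ev
 (nat_lit 3837) (nat_lit 562949953421312) .dd)))))) (.br (nat_lit 25) (.br (nat_lit 20) (.ch (nat_lit 18) (.ev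
 (nat_lit 3696) (nat_lit 55340232307564871680) (.ev (nat_lit 4068) (nat_lit 562949953421312) (.ev (nat_lit
 4077) (nat_lit 32) .dd)))) (.ch (nat_lit 20) (.ev (nat_lit 3696) (nat_lit 18447307109562318880) (.ev (nat_lit
 3732) (nat_lit 536870912) (.ev (nat_lit 3741) (nat_lit 36893488147419103232) .dd))))) (.br (nat_lit 27) (.ch
 (nat_lit 25) (.ev (nat_lit 3696) (nat_lit 36894051166092001280) (.ev (nat_lit 3780) (nat_lit
 18446744090889420800) (.ev (nat_lit 5700) (nat_lit 32) (.ev (nat_lit 5709) (nat_lit 536870912) .dd))))) (.ch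
 (nat_lit 27) (.ev (nat_lit 3696) (nat_lit 36894051166628872224) (.ev (nat_lit 5744) (nat_lit
 18446744073709551616) (.ev (nat_lit 5757) (nat_lit 17179869184) .dd))))))) (.br (nat_lit 39) (.br (nat_lit 36)
 (.br (nat_lit 35) (.ch (nat_lit 28) (.ev (nat_lit 3696) (nat_lit 36893488233855320096) (.ev (nat_lit 5412)
 (nat_lit 562949953421312) (.ev (nat_lit 5421) (nat_lit 18446744073709551616) .dd)))) (.ch (nat_lit 35) (.ev
 (nat_lit 3696) (nat_lit 563036389638176) (.ev (nat_lit 5744) (nat_lit 36893488147419103232) (.ev (nat_lit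
 5757) (nat_lit 18446744073709551616) .dd))))) (.br (nat_lit 37) (.ch (nat_lit 36) (.ev (nat_lit 3696) (nat_lit
 55340795257518293024) .dd)) (.ch (nat_lit 37) (.ev (nat_lit 3696) (nat_lit 55340795171082076192) (.ev (nat_lit
 3732) (nat_lit 536870912) (.ev (nat_lit 4480) (nat_lit 68719476736) (.ev (nat_lit 4493) (nat_lit 17179869184)
 .dd))))))) (.br (nat_lit 42) (.br (nat_lit 41) (.ch (nat_lit 39) (.ev (nat_lit 3696) (nat_lit
 55340232238845394944) (.ev (nat_lit 3732) (nat_lit 68719476736) (.ev (nat_lit 5412) (nat_lit 32) (.ev (nat_lit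
 5421) (nat_lit 562949953421312) .dd))))) (.ch (nat_lit 41) (.ev (nat_lit 3696) (nat_lit 55340795257518293024)
 .dd))) (.br (nat_lit 45) (.ch (nat_lit 42) (.ev (nat_lit 3696) (nat_lit 36894051166628872224) (.ev (nat_lit
 4468) (nat_lit 17179869184) (.ev (nat_lit 4477) (nat_lit 18446744073709551616) .dd)))) (.ch (nat_lit 45) (.ev
 (nat_lit 3696) (nat_lit 18446744142965899296) (.ev (nat_lit 4112) (nat_lit 17179869184) (.ev (nat_lit 5412)
 (nat_lit 562949953421312) (.ev (nat_lit 5421) (nat_lit 36893488147419103232) .dd)))))))))))))))))) (.br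
 (nat_lit 47) (.br (nat_lit 44) (.br (nat_lit 43) (.ch (nat_lit 42) (.ev (nat_lit 52) (nat_lit
 59952001871184396288) (.ev (nat_lit 436) (nat_lit 562949953421312) (.ev (nat_lit 660) (nat_lit 256) (.ev
 (nat_lit 692) (nat_lit 32768) (.ev (nat_lit 788) (nat_lit 17592186044416) (.ev (nat_lit 1428) (nat_lit
 536870912) (.ev (nat_lit 1812) (nat_lit 32) (.ev (nat_lit 2036) (nat_lit 16) (.nd (nat_lit 3680) (.br (nat_lit
 25) (.br (nat_lit 13) (.br (nat_lit 6) (.br (nat_lit 5) (.ch (nat_lit 0) (.ev (nat_lit 3696) (nat_lit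
 37154714106462208) (.ev (nat_lit 3709) (nat_lit 8) .dd))) (.ch (nat_lit 5) (.ev (nat_lit 3696) (nat_lit
 36028814199619592) (.ev (nat_lit 3709) (nat_lit 1125899906842624) .dd)))) (.br (nat_lit 10) (.ch (nat_lit 6)
 (.ev (nat_lit 3696) (nat_lit 17180393480) (.ev (nat_lit 4052) (nat_lit 36028797018963968) (.ev (nat_lit 5760)
 (nat_lit 262144) (.ev (nat_lit 5773) (nat_lit 1125899906842624) .dd))))) (.ch (nat_lit 10) (.ev (nat_lit 3696)
 (nat_lit 37154714106462216) .dd)))) (.br (nat_lit 16) (.br (nat_lit 14) (.ch (nat_lit 13) (.ev (nat_lit 3696)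
 (nat_lit 37154696926593032) (.ev (nat_lit 3709) (nat_lit 17179869184) .dd))) (.ch (nat_lit 14) (.ev (nat_lit
 3696) (nat_lit 1125899907629064) (.ev (nat_lit 5552) (nat_lit 36028797018963968) (.ev (nat_lit 5565) (nat_lit
 17179869184) .dd))))) (.br (nat_lit 18) (.ch (nat_lit 16) (.ev (nat_lit 3696) (nat_lit 1125899907629064) (.ev
 (nat_lit 3732) (nat_lit 17179869184) (.ev (nat_lit 3741) (nat_lit 36028797018963968) .dd)))) (.br (nat_lit 23)
 (.ch (nat_lit 18) (.ev (nat_lit 3696) (nat_lit 37154714106462216) .dd)) (.ch (nat_lit 23) (.ev (nat_lit 3696)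
 (nat_lit 1125917086711808) (.ev (nat_lit 3828) (nat_lit 262144) (.ev (nat_lit 5524) (nat_lit 524296) (.ev
 (nat_lit 5533) (nat_lit 36028797018963968) .dd))))))))) (.br (nat_lit 37) (.br (nat_lit 33) (.br (nat_lit 28)
 (.ch (nat_lit 25) (.ev (nat_lit 3696) (nat_lit 1125917087498248) (.ev (nat_lit 3709) (nat_lit
 36028797018963968) .dd))) (.ch (nat_lit 28) (.ev (nat_lit 3696) (nat_lit 37154714106462208) (.ev (nat_lit
 3709) (nat_lit 8) .dd)))) (.br (nat_lit 35) (.ch (nat_lit 33) (.ev (nat_lit 3696) (nat_lit 37154714106462208)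
 (.ev (nat_lit 3709) (nat_lit 8) .dd))) (.ch (nat_lit 35) (.ev (nat_lit 3696) (nat_lit 1125917087498248) (.ev
 (nat_lit 3709) (nat_lit 36028797018963968) .dd))))) (.br (nat_lit 42) (.br (nat_lit 38) (.ch (nat_lit 37) (.ev
 (nat_lit 3696) (nat_lit 37154714105675784) (.ev (nat_lit 3780) (nat_lit 524288) (.ev (nat_lit 3789) (nat_lit
 262144) .dd)))) (.ch (nat_lit 38) (.ev (nat_lit 3696) (nat_lit 17180655616) (.ev (nat_lit 4884) (nat_lit 8)
 (.ev (nat_lit 5424) (nat_lit 1125899906842624) (.ev (nat_lit 5437) (nat_lit 36028797018963968) .dd)))))) (.br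
 (nat_lit 44) (.ch (nat_lit 42) (.ev (nat_lit 3696) (nat_lit 36028814199619584) (.ev (nat_lit 3808) (nat_lit 8)
 (.ev (nat_lit 3821) (nat_lit 1125899906842624) .dd)))) (.br (nat_lit 45) (.ch (nat_lit 44) (.ev (nat_lit 3696)
 (nat_lit 36028797019488264) (.ev (nat_lit 4628) (nat_lit 1125899906842624) (.ev (nat_lit 5760) (nat_lit
 17180131328) .dd)))) (.ch (nat_lit 45) (.ev (nat_lit 3696) (nat_lit 37154714105937928) (.ev (nat_lit 3709)
 (nat_lit 524288) .dd)))))))))))))))))) (.ch (nat_lit 43) (.ev (nat_lit 52) (nat_lit 36894618445398442240) (.ev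
 (nat_lit 308) (nat_lit 8) (.ev (nat_lit 884) (nat_lit 32) (.ev (nat_lit 1332) (nat_lit 562949953421312) (.ev
 (nat_lit 1460) (nat_lit 70368744177664) (.ev (nat_lit 2036) (nat_lit 17179869184) (.ev (nat_lit 2292) (nat_lit
 36028797018963968) (.ev (nat_lit 2772) (nat_lit 68719476736) (.nd (nat_lit 3680) (.br (nat_lit 27) (.br
 (nat_lit 15) (.br (nat_lit 10) (.br (nat_lit 8) (.ch (nat_lit 6) (.ev (nat_lit 3696) (nat_lit
 23058456480416006144) (.ev (nat_lit 5524) (nat_lit 536870912) (.ev (nat_lit 5533) (nat_lit 16) .dd)))) (.ch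
 (nat_lit 8) (.ev (nat_lit 3696) (nat_lit 18446770462525489168) (.ev (nat_lit 3709) (nat_lit
 4611686018427387904) .dd)))) (.br (nat_lit 14) (.ch (nat_lit 10) (.ev (nat_lit 3696) (nat_lit
 23058456480952877072) .dd)) (.ch (nat_lit 14) (.ev (nat_lit 3696) (nat_lit 4611712407243325440) (.ev (nat_lit
 3732) (nat_lit 18446744073709551616) (.ev (nat_lit 3741) (nat_lit 16) .dd)))))) (.br (nat_lit 18) (.br
 (nat_lit 17) (.ch (nat_lit 15) (.ev (nat_lit 3696) (nat_lit 23058447684859854864) (.ev (nat_lit 3709) (nat_lit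
 8796093022208) .dd))) (.ch (nat_lit 17) (.ev (nat_lit 3696) (nat_lit 26388815937552) (.ev (nat_lit 5568)
 (nat_lit 18446744073709551616) (.ev (nat_lit 5581) (nat_lit 4611686018427387904) .dd))))) (.br (nat_lit 23)
 (.ch (nat_lit 18) (.ev (nat_lit 3696) (nat_lit 18446752870339444752) (.ev (nat_lit 5600) (nat_lit
 17592186044416) (.ev (nat_lit 5613) (nat_lit 4611686018427387904) .dd)))) (.br (nat_lit 25) (.ch (nat_lit 23)
 (.ev (nat_lit 3696) (nat_lit 23058456480416006160) (.ev (nat_lit 3709) (nat_lit 536870912) .dd))) (.ch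
 (nat_lit 25) (.ev (nat_lit 3696) (nat_lit 23058447684322983936) (.ev (nat_lit 3780) (nat_lit 536870912) (.ev
 (nat_lit 5700) (nat_lit 8796093022208) (.ev (nat_lit 5709) (nat_lit 16) .dd))))))))) (.br (nat_lit 36) (.br
 (nat_lit 33) (.br (nat_lit 28) (.ch (nat_lit 27) (.ev (nat_lit 3696) (nat_lit 18446744074246422544) (.ev
 (nat_lit 3780) (nat_lit 8796093022208) (.ev (nat_lit 4256) (nat_lit 4611686018427387904) (.ev (nat_lit 4269)
 (nat_lit 17592186044416) .dd))))) (.ch (nat_lit 28) (.ev (nat_lit 3696) (nat_lit 26388279066624) (.ev (nat_lit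
 5648) (nat_lit 18446744073709551616) (.ev (nat_lit 5700) (nat_lit 16) (.ev (nat_lit 5712) (nat_lit 536870912)
 (.ev (nat_lit 5725) (nat_lit 4611686018427387904) .dd))))))) (.br (nat_lit 35) (.ch (nat_lit 33) (.ev (nat_lit
 3696) (nat_lit 4611686018964258832) (.ev (nat_lit 5728) (nat_lit 17592186044416) (.ev (nat_lit 5808) (nat_lit
 18446752869802573824) .dd)))) (.ch (nat_lit 35) (.ev (nat_lit 3696) (nat_lit 26388815937552) (.ev (nat_lit
 4612) (nat_lit 18446744073709551616) (.ev (nat_lit 4621) (nat_lit 4611686018427387904) .dd)))))) (.br (nat_lit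
 42) (.br (nat_lit 40) (.ch (nat_lit 36) (.ev (nat_lit 3696) (nat_lit 23058438888229961744) (.ev (nat_lit 5632)
 (nat_lit 536870912) (.ev (nat_lit 5645) (nat_lit 17592186044416) .dd)))) (.ch (nat_lit 40) (.ev (nat_lit 3696)
 (nat_lit 4611712407243325456) (.ev (nat_lit 3709) (nat_lit 18446744073709551616) .dd)))) (.br (nat_lit 44)
 (.ch (nat_lit 42) (.ev (nat_lit 3696) (nat_lit 18446761666432466960) (.ev (nat_lit 3732) (nat_lit
 8796093022208) (.ev (nat_lit 3741) (nat_lit 4611686018427387904) .dd)))) (.br (nat_lit 45) (.ch (nat_lit 44)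
 (.ev (nat_lit 3696) (nat_lit 4611712407243325456) (.ev (nat_lit 3709) (nat_lit 18446744073709551616) .dd)))
 (.ch (nat_lit 45) (.ev (nat_lit 3696) (nat_lit 18446752870339444736) (.ev (nat_lit 5524) (nat_lit 16) (.ev
 (nat_lit 5700) (nat_lit 17592186044416) (.ev (nat_lit 5709) (nat_lit 4611686018427387904)
 .dd))))))))))))))))))))) (.br (nat_lit 46) (.ch (nat_lit 44) (.ev (nat_lit 52) (nat_lit 4648933074884362552)
 (.ev (nat_lit 212) (nat_lit 562949953421312) (.ev (nat_lit 3360) (nat_lit 55340241103129444352) .dd)))) (.ch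
 (nat_lit 46) (.ev (nat_lit 52) (nat_lit 55378024704071991296) (.ev (nat_lit 500) (nat_lit 8) (.ev (nat_lit
 1812) (nat_lit 17179869184) (.ev (nat_lit 3200) (nat_lit 4611712406715367728) .dd))))))) (.br (nat_lit 49)
 (.br (nat_lit 48) (.ch (nat_lit 47) (.ev (nat_lit 52) (nat_lit 55341947545192529976) (.ev (nat_lit 212)
 (nat_lit 262144) (.ev (nat_lit 3456) (nat_lit 4647789582774436096) .dd)))) (.ch (nat_lit 48) (.ev (nat_lit 52)
 (nat_lit 36893510155393597480) (.ev (nat_lit 404) (nat_lit 4611686018427387904) (.ev (nat_lit 1012) (nat_lit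
 16) (.ev (nat_lit 1044) (nat_lit 1125899906842624) (.ev (nat_lit 1908) (nat_lit 36028797018963968) (.ev
 (nat_lit 2676) (nat_lit 68719476736) (.ev (nat_lit 3252) (nat_lit 18446744073709551616) (.ev (nat_lit 3508)
 (nat_lit 256) (.nd (nat_lit 3680) (.br (nat_lit 28) (.br (nat_lit 10) (.br (nat_lit 6) (.br (nat_lit 5) (.ch
 (nat_lit 0) (.ev (nat_lit 3696) (nat_lit 79164837986304) (.ev (nat_lit 3709) (nat_lit 562949953421312) .dd)))
 (.ch (nat_lit 5) (.ev (nat_lit 3696) (nat_lit 642114791145472) (.ev (nat_lit 3709) (nat_lit 262144) .dd))))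
 (.br (nat_lit 8) (.ch (nat_lit 6) (.ev (nat_lit 3696) (nat_lit 633318698385408) (.ev (nat_lit 3709) (nat_lit
 8796093022208) .dd))) (.ch (nat_lit 8) (.ev (nat_lit 3696) (nat_lit 642114791145472) (.ev (nat_lit 3709)
 (nat_lit 262144) .dd))))) (.br (nat_lit 18) (.br (nat_lit 16) (.ch (nat_lit 10) (.ev (nat_lit 3696) (nat_lit
 642114790883328) (.ev (nat_lit 3709) (nat_lit 524288) .dd))) (.ch (nat_lit 16) (.ev (nat_lit 3696) (nat_lit
 70368744177664) (.ev (nat_lit 3732) (nat_lit 262144) (.ev (nat_lit 5376) (nat_lit 8796093022208) (.ev (nat_lit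
 5524) (nat_lit 562949953421312) (.ev (nat_lit 5533) (nat_lit 524288) .dd))))))) (.br (nat_lit 19) (.ch
 (nat_lit 18) (.ev (nat_lit 3696) (nat_lit 642114791407616) .dd)) (.br (nat_lit 20) (.ch (nat_lit 19) (.ev
 (nat_lit 3696) (nat_lit 633318697861120) (.ev (nat_lit 3780) (nat_lit 8796093022208) (.ev (nat_lit 3789)
 (nat_lit 524288) .dd)))) (.ch (nat_lit 20) (.ev (nat_lit 3696) (nat_lit 642114791407616) .dd)))))) (.br
 (nat_lit 38) (.br (nat_lit 36) (.br (nat_lit 35) (.ch (nat_lit 28) (.ev (nat_lit 3696) (nat_lit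
 79164837462016) (.ev (nat_lit 4884) (nat_lit 524288) (.ev (nat_lit 4893) (nat_lit 562949953421312) .dd))))
 (.ch (nat_lit 35) (.ev (nat_lit 3696) (nat_lit 562949953945600) (.ev (nat_lit 3744) (nat_lit 70368744177664)
 (.ev (nat_lit 3780) (nat_lit 8796093022208) (.ev (nat_lit 3789) (nat_lit 262144) .dd)))))) (.br (nat_lit 37)
 (.ch (nat_lit 36) (.ev (nat_lit 3696) (nat_lit 571746046967808) (.ev (nat_lit 3956) (nat_lit 262144) (.ev
 (nat_lit 3965) (nat_lit 70368744177664) .dd)))) (.ch (nat_lit 37) (.ev (nat_lit 3696) (nat_lit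
 642114790621184) (.ev (nat_lit 3792) (nat_lit 524288) (.ev (nat_lit 3805) (nat_lit 262144) .dd)))))) (.br
 (nat_lit 41) (.br (nat_lit 40) (.ch (nat_lit 38) (.ev (nat_lit 3696) (nat_lit 571746046705664) (.ev (nat_lit
 3732) (nat_lit 524288) (.ev (nat_lit 3741) (nat_lit 70368744177664) .dd)))) (.ch (nat_lit 40) (.ev (nat_lit
 3696) (nat_lit 642114791145472) (.ev (nat_lit 3709) (nat_lit 262144) .dd)))) (.br (nat_lit 43) (.ch (nat_lit
 41) (.ev (nat_lit 3696) (nat_lit 642114791407616) .dd)) (.br (nat_lit 44) (.ch (nat_lit 43) (.ev (nat_lit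
 3696) (nat_lit 571746046705664) (.ev (nat_lit 5700) (nat_lit 70368744177664) (.ev (nat_lit 5709) (nat_lit
 524288) .dd)))) (.ch (nat_lit 44) (.ev (nat_lit 3696) (nat_lit 571746047229952) (.ev (nat_lit 3709) (nat_lit
 70368744177664) .dd))))))))))))))))))) (.br (nat_lit 50) (.ch (nat_lit 49) (.ev (nat_lit 52) (nat_lit
 4648304222398840832) (.ev (nat_lit 404) (nat_lit 70368744177664) (.ev (nat_lit 724) (nat_lit
 36893488147419103232) (.ev (nat_lit 1216) (nat_lit 18447874389405106488) .dd))))) (.br (nat_lit 52) (.ch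
 (nat_lit 50) (.ev (nat_lit 52) (nat_lit 563018698326064) (.ev (nat_lit 532) (nat_lit 17179869184) (.ev
 (nat_lit 884) (nat_lit 36893488147419103232) (.ev (nat_lit 948) (nat_lit 36028797018963968) (.ev (nat_lit
 1012) (nat_lit 4398046511104) (.ev (nat_lit 1588) (nat_lit 32768) (.ev (nat_lit 1780) (nat_lit
 4611686018427387904) (.ev (nat_lit 2996) (nat_lit 18446744073709551616) (.ev (nat_lit 3668) (nat_lit
 536870912) (.nd (nat_lit 3680) (.br (nat_lit 20) (.br (nat_lit 15) (.br (nat_lit 8) (.br (nat_lit 6) (.ch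
 (nat_lit 0) (.ev (nat_lit 3696) (nat_lit 1196268651020552) (.ev (nat_lit 4820) (nat_lit 8796093022208) (.ev
 (nat_lit 5472) (nat_lit 524288) (.ev (nat_lit 5485) (nat_lit 17592186044416) .dd))))) (.ch (nat_lit 6) (.ev
 (nat_lit 3696) (nat_lit 87960930746632) (.ev (nat_lit 5440) (nat_lit 8796093022208) (.ev (nat_lit 5453)
 (nat_lit 1125899906842624) .dd))))) (.br (nat_lit 10) (.ch (nat_lit 8) (.ev (nat_lit 3696) (nat_lit
 1222656930087168) (.ev (nat_lit 5552) (nat_lit 8) (.ev (nat_lit 5565) (nat_lit 524288) .dd)))) (.ch (nat_lit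
 10) (.ev (nat_lit 3696) (nat_lit 79164837200136) (.ev (nat_lit 5412) (nat_lit 1125899906842624) (.ev (nat_lit
 5568) (nat_lit 17592186044416) (.ev (nat_lit 5581) (nat_lit 524288) .dd))))))) (.br (nat_lit 17) (.br (nat_lit
 16) (.ch (nat_lit 15) (.ev (nat_lit 3696) (nat_lit 87960930746632) (.ev (nat_lit 3780) (nat_lit
 1125899906842624) (.ev (nat_lit 3789) (nat_lit 8796093022208) .dd)))) (.ch (nat_lit 16) (.ev (nat_lit 3696)
 (nat_lit 1143492092887296) (.ev (nat_lit 3828) (nat_lit 8) (.ev (nat_lit 5524) (nat_lit 8796093022208) (.ev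
 (nat_lit 5728) (nat_lit 70368744701952) .dd)))))) (.br (nat_lit 18) (.ch (nat_lit 17) (.ev (nat_lit 3696)
 (nat_lit 96757023768584) (.ev (nat_lit 3732) (nat_lit 256) (.ev (nat_lit 3741) (nat_lit 1125899906842624)
 .dd)))) (.br (nat_lit 19) (.ch (nat_lit 18) (.ev (nat_lit 3696) (nat_lit 96757023768832) (.ev (nat_lit 4932)
 (nat_lit 1125899906842624) (.ev (nat_lit 4941) (nat_lit 8) .dd)))) (.ch (nat_lit 19) (.ev (nat_lit 3696)
 (nat_lit 1152288186433792) (.ev (nat_lit 5744) (nat_lit 70368744177664) (.ev (nat_lit 5757) (nat_lit 8)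
 .dd)))))))) (.br (nat_lit 38) (.br (nat_lit 35) (.br (nat_lit 27) (.ch (nat_lit 20) (.ev (nat_lit 3696)
 (nat_lit 1205064744566792) (.ev (nat_lit 3732) (nat_lit 256) (.ev (nat_lit 3741) (nat_lit 17592186044416)
 .dd)))) (.ch (nat_lit 27) (.ev (nat_lit 3696) (nat_lit 1222656930086920) (.ev (nat_lit 3780) (nat_lit 524288)
 (.ev (nat_lit 3789) (nat_lit 256) .dd))))) (.br (nat_lit 37) (.ch (nat_lit 35) (.ev (nat_lit 3696) (nat_lit
 1152288186433800) (.ev (nat_lit 3709) (nat_lit 70368744177664) .dd))) (.ch (nat_lit 37) (.ev (nat_lit 3696)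
 (nat_lit 1222656930086920) (.ev (nat_lit 3732) (nat_lit 256) (.ev (nat_lit 3741) (nat_lit 524288) .dd))))))
 (.br (nat_lit 40) (.br (nat_lit 39) (.ch (nat_lit 38) (.ev (nat_lit 3696) (nat_lit 1213860837589000) (.ev
 (nat_lit 3732) (nat_lit 256) (.ev (nat_lit 3741) (nat_lit 8796093022208) .dd)))) (.ch (nat_lit 39) (.ev
 (nat_lit 3696) (nat_lit 1196268651544584) (.ev (nat_lit 3828) (nat_lit 17592186044416) (.ev (nat_lit 5712)
 (nat_lit 8796093022208) (.ev (nat_lit 5725) (nat_lit 256) .dd)))))) (.br (nat_lit 43) (.ch (nat_lit 40) (.ev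
 (nat_lit 3696) (nat_lit 1222656930611464) .dd)) (.br (nat_lit 45) (.ch (nat_lit 43) (.ev (nat_lit 3696)
 (nat_lit 1205064744042504) (.ev (nat_lit 5712) (nat_lit 17592186568704) (.ev (nat_lit 5725) (nat_lit 256)
 .dd)))) (.ch (nat_lit 45) (.ev (nat_lit 3696) (nat_lit 1222656930611464) .dd)))))))))))))))))) (.ch (nat_lit
 52) (.ev (nat_lit 52) (nat_lit 55341366934853910808) (.ev (nat_lit 180) (nat_lit 70368744177664) (.ev (nat_lit
 980) (nat_lit 562949953421312) (.ev (nat_lit 1652) (nat_lit 16777216) (.ev (nat_lit 2324) (nat_lit 32768) (.ev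
 (nat_lit 2452) (nat_lit 524288) (.nd (nat_lit 3680) (.br (nat_lit 25) (.br (nat_lit 16) (.br (nat_lit 8) (.br
 (nat_lit 5) (.ch (nat_lit 0) (.ev (nat_lit 3696) (nat_lit 36028865738440736) (.ev (nat_lit 3732) (nat_lit
 4611686018427387904) (.ev (nat_lit 4224) (nat_lit 4398046511104) (.ev (nat_lit 4237) (nat_lit 17592186044416)
 .dd))))) (.ch (nat_lit 5) (.ev (nat_lit 3696) (nat_lit 4647719282212339712) (.ev (nat_lit 3732) (nat_lit
 17592186044416) (.ev (nat_lit 3741) (nat_lit 32) .dd))))) (.br (nat_lit 13) (.ch (nat_lit 8) (.ev (nat_lit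
 3696) (nat_lit 4611690485193375744) (.ev (nat_lit 3828) (nat_lit 17592186044416) (.ev (nat_lit 5840) (nat_lit
 32) (.ev (nat_lit 5853) (nat_lit 36028797018963968) .dd))))) (.ch (nat_lit 13) (.ev (nat_lit 3696) (nat_lit
 4647736805678907392) (.ev (nat_lit 5616) (nat_lit 68719476736) (.ev (nat_lit 5629) (nat_lit 32) .dd)))))) (.br
 (nat_lit 19) (.br (nat_lit 18) (.ch (nat_lit 16) (.ev (nat_lit 3696) (nat_lit 4647732407632396320) (.ev
 (nat_lit 5712) (nat_lit 68719476736) (.ev (nat_lit 5725) (nat_lit 4398046511104) .dd)))) (.ch (nat_lit 18)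
 (.ev (nat_lit 3696) (nat_lit 4647714884165828640) (.ev (nat_lit 3732) (nat_lit 17592186044416) (.ev (nat_lit
 3741) (nat_lit 4398046511104) .dd))))) (.br (nat_lit 20) (.ch (nat_lit 19) (.ev (nat_lit 3696) (nat_lit
 4647736874398384128) (.ev (nat_lit 3709) (nat_lit 32) .dd))) (.br (nat_lit 23) (.ch (nat_lit 20) (.ev (nat_lit
 3696) (nat_lit 4611703679332909088) (.ev (nat_lit 5760) (nat_lit 36028797018963968) (.ev (nat_lit 5773)
 (nat_lit 4398046511104) .dd)))) (.ch (nat_lit 23) (.ev (nat_lit 3696) (nat_lit 4647732476351873056) (.ev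
 (nat_lit 3709) (nat_lit 4398046511104) .dd))))))) (.br (nat_lit 39) (.br (nat_lit 35) (.br (nat_lit 27) (.ch
 (nat_lit 25) (.ev (nat_lit 3696) (nat_lit 4611708077379420192) (.ev (nat_lit 3709) (nat_lit 36028797018963968)
 .dd))) (.ch (nat_lit 27) (.ev (nat_lit 3696) (nat_lit 4466765987872) (.ev (nat_lit 5472) (nat_lit
 36028797018963968) (.ev (nat_lit 5524) (nat_lit 17592186044416) (.ev (nat_lit 5533) (nat_lit
 4611686018427387904) .dd)))))) (.br (nat_lit 36) (.ch (nat_lit 35) (.ev (nat_lit 3696) (nat_lit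
 4647736874398384128) (.ev (nat_lit 3709) (nat_lit 32) .dd))) (.ch (nat_lit 36) (.ev (nat_lit 3696) (nat_lit
 4611708008659943424) (.ev (nat_lit 3732) (nat_lit 68719476736) (.ev (nat_lit 5424) (nat_lit 32) (.ev (nat_lit
 5437) (nat_lit 36028797018963968) .dd))))))) (.br (nat_lit 42) (.br (nat_lit 40) (.ch (nat_lit 39) (.ev
 (nat_lit 3696) (nat_lit 4647732407632396320) (.ev (nat_lit 5268) (nat_lit 68719476736) (.ev (nat_lit 5277)
 (nat_lit 4398046511104) .dd)))) (.ch (nat_lit 40) (.ev (nat_lit 3696) (nat_lit 4647736874398384128) (.ev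
 (nat_lit 3709) (nat_lit 32) .dd)))) (.br (nat_lit 43) (.ch (nat_lit 42) (.ev (nat_lit 3696) (nat_lit
 4647736874398384160) .dd)) (.br (nat_lit 45) (.ch (nat_lit 43) (.ev (nat_lit 3696) (nat_lit
 4611708077379420192) (.ev (nat_lit 3709) (nat_lit 36028797018963968) .dd))) (.ch (nat_lit 45) (.ev (nat_lit
 3696) (nat_lit 36033195065475104) (.ev (nat_lit 3744) (nat_lit 68719476736) (.ev (nat_lit 3780) (nat_lit
 17592186044416) (.ev (nat_lit 3789) (nat_lit 4611686018427387904) .dd))))))))))))))))))))))))))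

/-- Subtrie. -/
noncomputable def T19 : Tr := (.ev (nat_lit 20) (nat_lit 590334171039507257362) (.nd (nat_lit 33) (.br (nat_lit
 31) (.br (nat_lit 16) (.br (nat_lit 10) (.br (nat_lit 6) (.br (nat_lit 5) (.ch (nat_lit 4) (.ev (nat_lit 52)
 (nat_lit 332473760883983515808) (.ev (nat_lit 436) (nat_lit 140737488355328) (.ev (nat_lit 1076) (nat_lit
 18014398509481992) (.ev (nat_lit 1140) (nat_lit 147573952589676412928) (.ev (nat_lit 2196) (nat_lit
 1180591620717411303424) (.ev (nat_lit 2484) (nat_lit 1125899906842624) (.ev (nat_lit 2580) (nat_lit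
 18446744073713745920) (.ev (nat_lit 3252) (nat_lit 562949953421312) (.ev (nat_lit 3636) (nat_lit
 281474976710656) (.nd (nat_lit 3680) (.br (nat_lit 30) (.br (nat_lit 18) (.br (nat_lit 8) (.br (nat_lit 6)
 (.ch (nat_lit 1) (.ev (nat_lit 3696) (nat_lit 4620693217699430656) .dd)) (.ch (nat_lit 6) (.ev (nat_lit 3696)
 (nat_lit 17301504) (.ev (nat_lit 3828) (nat_lit 256) (.ev (nat_lit 5412) (nat_lit 9007199254740992) (.ev
 (nat_lit 5421) (nat_lit 4611686018427387904) .dd)))))) (.br (nat_lit 9) (.ch (nat_lit 8) (.ev (nat_lit 3696)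
 (nat_lit 4611686018444165376) (.ev (nat_lit 3792) (nat_lit 9007199254740992) (.ev (nat_lit 3805) (nat_lit
 524288) .dd)))) (.ch (nat_lit 9) (.ev (nat_lit 3696) (nat_lit 4620693217699430400) (.ev (nat_lit 3709)
 (nat_lit 256) .dd))))) (.br (nat_lit 24) (.br (nat_lit 21) (.ch (nat_lit 18) (.ev (nat_lit 3696) (nat_lit
 9007199255265536) (.ev (nat_lit 5744) (nat_lit 4611686018427387904) (.ev (nat_lit 5757) (nat_lit 16777216)
 .dd)))) (.ch (nat_lit 21) (.ev (nat_lit 3696) (nat_lit 4620693217699430656) .dd))) (.br (nat_lit 26) (.ch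
 (nat_lit 24) (.ev (nat_lit 3696) (nat_lit 4620693217698906368) (.ev (nat_lit 3709) (nat_lit 524288) .dd)))
 (.ch (nat_lit 26) (.ev (nat_lit 3696) (nat_lit 4620693217699430400) (.ev (nat_lit 3709) (nat_lit 256)
 .dd)))))) (.br (nat_lit 35) (.br (nat_lit 33) (.br (nat_lit 32) (.ch (nat_lit 30) (.ev (nat_lit 3696) (nat_lit
 4620693217698906112) (.ev (nat_lit 3732) (nat_lit 256) (.ev (nat_lit 3741) (nat_lit 524288) .dd)))) (.ch
 (nat_lit 32) (.ev (nat_lit 3732) (nat_lit 256) (.ev (nat_lit 3860) (nat_lit 9007199254740992) (.ev (nat_lit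
 5280) (nat_lit 4611686018427387904) (.ev (nat_lit 5412) (nat_lit 16777216) (.ev (nat_lit 5421) (nat_lit
 524288) .dd))))))) (.br (nat_lit 34) (.ch (nat_lit 33) (.ev (nat_lit 3696) (nat_lit 4620693217698906368) (.ev
 (nat_lit 3709) (nat_lit 524288) .dd))) (.ch (nat_lit 34) (.ev (nat_lit 3696) (nat_lit 4620693217682653440)
 (.ev (nat_lit 3709) (nat_lit 16777216) .dd))))) (.br (nat_lit 37) (.br (nat_lit 36) (.ch (nat_lit 35) (.ev
 (nat_lit 3696) (nat_lit 4620693217682129152) (.ev (nat_lit 4244) (nat_lit 524288) (.ev (nat_lit 4253) (nat_lit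
 16777216) .dd)))) (.ch (nat_lit 36) (.ev (nat_lit 3696) (nat_lit 9007199272042752) (.ev (nat_lit 3709)
 (nat_lit 4611686018427387904) .dd)))) (.br (nat_lit 45) (.ch (nat_lit 37) (.ev (nat_lit 3696) (nat_lit
 9007199272042496) (.ev (nat_lit 3828) (nat_lit 256) (.ev (nat_lit 3837) (nat_lit 4611686018427387904) .dd))))
 (.ch (nat_lit 45) (.ev (nat_lit 3696) (nat_lit 4620693217682653184) (.ev (nat_lit 3892) (nat_lit 16777216)
 (.ev (nat_lit 3901) (nat_lit 256) .dd))))))))))))))))))) (.ch (nat_lit 5) (.ev (nat_lit 52) (nat_lit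
 55494203433600155776) (.ev (nat_lit 416) (nat_lit 1628232693509719064872) .dd)))) (.br (nat_lit 9) (.ch
 (nat_lit 6) (.ev (nat_lit 52) (nat_lit 1347053674545010442248) (.ev (nat_lit 212) (nat_lit 1266637395197952)
 (.ev (nat_lit 788) (nat_lit 67108864) (.ev (nat_lit 1076) (nat_lit 295147905179352825856) (.ev (nat_lit 1268)
 (nat_lit 256) (.ev (nat_lit 1748) (nat_lit 281474976710656) (.ev (nat_lit 2996) (nat_lit 562949953421312) (.ev
 (nat_lit 3060) (nat_lit 128) (.ev (nat_lit 3316) (nat_lit 4611686018427387904) (.nd (nat_lit 3680) (.br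
 (nat_lit 30) (.br (nat_lit 21) (.br (nat_lit 9) (.br (nat_lit 1) (.ch (nat_lit 0) (.ev (nat_lit 3696) (nat_lit
 36893505739609341952) (.ev (nat_lit 3732) (nat_lit 18014398509481984) (.ev (nat_lit 5424) (nat_lit 16777216)
 (.ev (nat_lit 5744) (nat_lit 524288) (.ev (nat_lit 5757) (nat_lit 32) .dd)))))) (.ch (nat_lit 1) (.ev (nat_lit
 3696) (nat_lit 36911520138131931168) (.ev (nat_lit 3709) (nat_lit 4194304) .dd)))) (.br (nat_lit 15) (.ch
 (nat_lit 9) (.ev (nat_lit 3696) (nat_lit 18031990717022208) (.ev (nat_lit 5268) (nat_lit 36893488147419103232)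
 (.ev (nat_lit 5277) (nat_lit 32) .dd)))) (.ch (nat_lit 15) (.ev (nat_lit 3696) (nat_lit 36893505739626643488)
 (.ev (nat_lit 3709) (nat_lit 18014398509481984) .dd))))) (.br (nat_lit 25) (.br (nat_lit 24) (.ch (nat_lit 21)
 (.ev (nat_lit 3696) (nat_lit 36911520138136125472) .dd)) (.ch (nat_lit 24) (.ev (nat_lit 3696) (nat_lit
 36893488147440599072) (.ev (nat_lit 3956) (nat_lit 17592186044416) (.ev (nat_lit 3965) (nat_lit
 18014398509481984) .dd))))) (.br (nat_lit 26) (.ch (nat_lit 25) (.ev (nat_lit 3696) (nat_lit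
 36911502545950081056) (.ev (nat_lit 3709) (nat_lit 17592186044416) .dd))) (.br (nat_lit 29) (.ch (nat_lit 26)
 (.ev (nat_lit 3696) (nat_lit 18031990712827904) (.ev (nat_lit 3956) (nat_lit 36893488147419103232) (.ev
 (nat_lit 5524) (nat_lit 32) (.ev (nat_lit 5533) (nat_lit 4194304) .dd))))) (.ch (nat_lit 29) (.ev (nat_lit
 3696) (nat_lit 18031990717022240) (.ev (nat_lit 3709) (nat_lit 36893488147419103232) .dd))))))) (.br (nat_lit
 35) (.br (nat_lit 32) (.br (nat_lit 31) (.ch (nat_lit 30) (.ev (nat_lit 3696) (nat_lit 17592207015968) (.ev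
 (nat_lit 3828) (nat_lit 36893488147419103232) (.ev (nat_lit 5568) (nat_lit 18014398509481984) (.ev (nat_lit
 5581) (nat_lit 524288) .dd))))) (.ch (nat_lit 31) (.ev (nat_lit 3696) (nat_lit 18031990716497952) (.ev
 (nat_lit 5616) (nat_lit 36893488147419103232) (.ev (nat_lit 5629) (nat_lit 524288) .dd))))) (.br (nat_lit 33)
 (.ch (nat_lit 32) (.ev (nat_lit 3696) (nat_lit 36911520138114629632) (.ev (nat_lit 4292) (nat_lit 524288) (.ev
 (nat_lit 5504) (nat_lit 16777216) (.ev (nat_lit 5700) (nat_lit 32) (.ev (nat_lit 5709) (nat_lit 4194304)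
 .dd)))))) (.ch (nat_lit 33) (.ev (nat_lit 3696) (nat_lit 36911520138114629664) (.ev (nat_lit 3732) (nat_lit
 16777216) (.ev (nat_lit 5700) (nat_lit 524288) (.ev (nat_lit 5709) (nat_lit 4194304) .dd))))))) (.br (nat_lit
 38) (.br (nat_lit 36) (.ch (nat_lit 35) (.ev (nat_lit 3696) (nat_lit 36911502545950081056) (.ev (nat_lit 3709)
 (nat_lit 17592186044416) .dd))) (.ch (nat_lit 36) (.ev (nat_lit 3696) (nat_lit 36911520138136125472) .dd)))
 (.br (nat_lit 39) (.ch (nat_lit 38) (.ev (nat_lit 3696) (nat_lit 18014398530977824) (.ev (nat_lit 3732)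
 (nat_lit 36893488147419103232) (.ev (nat_lit 3741) (nat_lit 17592186044416) .dd)))) (.br (nat_lit 45) (.ch
 (nat_lit 39) (.ev (nat_lit 3696) (nat_lit 18031990696050720) (.ev (nat_lit 3780) (nat_lit
 36893488147419103232) (.ev (nat_lit 5680) (nat_lit 4194304) (.ev (nat_lit 5693) (nat_lit 16777216) .dd)))))
 (.ch (nat_lit 45) (.ev (nat_lit 3696) (nat_lit 36911502545933303840) (.ev (nat_lit 3780) (nat_lit
 17592186044416) (.ev (nat_lit 3789) (nat_lit 16777216) .dd)))))))))))))))))))) (.ch (nat_lit 9) (.ev (nat_lit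
 52) (nat_lit 4784652393784541192) (.ev (nat_lit 84) (nat_lit 17592186044416) (.ev (nat_lit 1204) (nat_lit
 524288) (.ev (nat_lit 1844) (nat_lit 128) (.ev (nat_lit 1876) (nat_lit 18446744073709551616) (.ev (nat_lit
 2292) (nat_lit 36893488147419103232) (.ev (nat_lit 2484) (nat_lit 4398046511104) (.ev (nat_lit 2996) (nat_lit
 32) (.nd (nat_lit 3680) (.br (nat_lit 29) (.br (nat_lit 17) (.br (nat_lit 9) (.br (nat_lit 8) (.ch (nat_lit 0)
 (.ev (nat_lit 3696) (nat_lit 1328453803683306537216) (.ev (nat_lit 5296) (nat_lit 536870912) (.ev (nat_lit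
 5776) (nat_lit 295148186654329536512) .dd)))) (.ch (nat_lit 8) (.ev (nat_lit 3696) (nat_lit
 1623601708862659363072) (.ev (nat_lit 3780) (nat_lit 536870912) (.ev (nat_lit 3789) (nat_lit 281474976710656)
 .dd))))) (.br (nat_lit 13) (.ch (nat_lit 9) (.ev (nat_lit 3696) (nat_lit 442721857769633218816) (.ev (nat_lit
 5024) (nat_lit 281474976710656) (.ev (nat_lit 5472) (nat_lit 1180591620717411303424) (.ev (nat_lit 5485)
 (nat_lit 288230376151711744) .dd))))) (.ch (nat_lit 13) (.ev (nat_lit 3696) (nat_lit 1328454085158753009920)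
 (.ev (nat_lit 3744) (nat_lit 295147905179352825856) (.ev (nat_lit 3757) (nat_lit 67108864) .dd)))))) (.br
 (nat_lit 24) (.br (nat_lit 21) (.ch (nat_lit 17) (.ev (nat_lit 3696) (nat_lit 1180591902192455123200) (.ev
 (nat_lit 3892) (nat_lit 147573952589676412928) (.ev (nat_lit 5776) (nat_lit 288230376688582656) (.ev (nat_lit
 5789) (nat_lit 295147905179352825856) .dd))))) (.ch (nat_lit 21) (.ev (nat_lit 3696) (nat_lit
 1623601708863129124864) (.ev (nat_lit 3732) (nat_lit 256) (.ev (nat_lit 5524) (nat_lit 67108864) (.ev (nat_lit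
 5533) (nat_lit 281474976710656) .dd)))))) (.br (nat_lit 25) (.ch (nat_lit 24) (.ev (nat_lit 3696) (nat_lit
 1623601990338172944640) .dd)) (.br (nat_lit 26) (.ch (nat_lit 25) (.ev (nat_lit 3696) (nat_lit
 1476027756273519821056) (.ev (nat_lit 3780) (nat_lit 281474976710656) (.ev (nat_lit 3789) (nat_lit
 147573952589676412928) .dd)))) (.ch (nat_lit 26) (.ev (nat_lit 3696) (nat_lit 1623601990338105835776) (.ev
 (nat_lit 3709) (nat_lit 67108864) .dd))))))) (.br (nat_lit 34) (.br (nat_lit 32) (.br (nat_lit 31) (.ch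
 (nat_lit 29) (.ev (nat_lit 3696) (nat_lit 1623313759962021232896) (.ev (nat_lit 3709) (nat_lit
 288230376151711744) .dd))) (.ch (nat_lit 31) (.ev (nat_lit 3696) (nat_lit 442722139244542820608) (.ev (nat_lit
 3892) (nat_lit 1180591620717411303424) (.ev (nat_lit 5472) (nat_lit 288230376151711744) (.ev (nat_lit 5485)
 (nat_lit 67108864) .dd)))))) (.br (nat_lit 33) (.ch (nat_lit 32) (.ev (nat_lit 3696) (nat_lit
 443010369620761640960) (.ev (nat_lit 4932) (nat_lit 256) (.ev (nat_lit 4941) (nat_lit 1180591620717411303424)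
 .dd)))) (.ch (nat_lit 33) (.ev (nat_lit 3696) (nat_lit 147862464440871944448) (.ev (nat_lit 3780) (nat_lit
 1180591620717411303424) (.ev (nat_lit 4784) (nat_lit 536870912) (.ev (nat_lit 4797) (nat_lit
 295147905179352825856) .dd))))))) (.br (nat_lit 39) (.br (nat_lit 36) (.ch (nat_lit 34) (.ev (nat_lit 3696)
 (nat_lit 1623313478487044521984) (.ev (nat_lit 4212) (nat_lit 288230376151711744) (.ev (nat_lit 5424) (nat_lit
 281474976710656) (.ev (nat_lit 5437) (nat_lit 256) .dd))))) (.ch (nat_lit 36) (.ev (nat_lit 3696) (nat_lit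
 1475739807372344819968) (.ev (nat_lit 5760) (nat_lit 147862182965828124672) .dd)))) (.br (nat_lit 40) (.ch
 (nat_lit 39) (.ev (nat_lit 3696) (nat_lit 443010369620694532352) (.ev (nat_lit 3780) (nat_lit 67108864) (.ev
 (nat_lit 3789) (nat_lit 1180591620717411303424) .dd)))) (.br (nat_lit 42) (.ch (nat_lit 40) (.ev (nat_lit
 3696) (nat_lit 1476028037748496531712) (.ev (nat_lit 3709) (nat_lit 147573952589676412928) .dd))) (.ch
 (nat_lit 42) (.ev (nat_lit 3696) (nat_lit 295436135556108517632) (.ev (nat_lit 3732) (nat_lit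
 147573952589676412928) (.ev (nat_lit 5524) (nat_lit 1180591620717411303424) (.ev (nat_lit 5533) (nat_lit
 281474976710656) .dd)))))))))))))))))))))) (.br (nat_lit 12) (.br (nat_lit 11) (.ch (nat_lit 10) (.ev (nat_lit
 52) (nat_lit 318215909818761216424) (.ev (nat_lit 768) (nat_lit 1365510987124558004224) .dd))) (.ch (nat_lit
 11) (.ev (nat_lit 52) (nat_lit 479760186782199054472) (.ev (nat_lit 436) (nat_lit 1125899906842624) (.ev
 (nat_lit 832) (nat_lit 1203965584261213323552) .dd))))) (.br (nat_lit 15) (.ch (nat_lit 12) (.ev (nat_lit 52)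
 (nat_lit 1351234840185828016392) (.ev (nat_lit 788) (nat_lit 295165919577862307840) (.ev (nat_lit 884)
 (nat_lit 288230376151711744) (.ev (nat_lit 1428) (nat_lit 281474976710656) (.ev (nat_lit 1652) (nat_lit
 4398046511104) (.ev (nat_lit 2516) (nat_lit 536870912) (.ev (nat_lit 3252) (nat_lit 32) (.ev (nat_lit 3316)
 (nat_lit 17592186044416) (.nd (nat_lit 3680) (.br (nat_lit 31) (.br (nat_lit 17) (.br (nat_lit 15) (.br
 (nat_lit 13) (.ch (nat_lit 9) (.ev (nat_lit 3696) (nat_lit 37037603335583563904) (.ev (nat_lit 3709) (nat_lit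
 2147483648) .dd))) (.ch (nat_lit 13) (.ev (nat_lit 3696) (nat_lit 37037603335583039616) (.ev (nat_lit 4852)
 (nat_lit 524288) (.ev (nat_lit 4861) (nat_lit 2147483648) .dd))))) (.br (nat_lit 16) (.ch (nat_lit 15) (.ev
 (nat_lit 3696) (nat_lit 144115190244311168) (.ev (nat_lit 4292) (nat_lit 36893488147419103232) (.ev (nat_lit
 5728) (nat_lit 67633152) .dd)))) (.ch (nat_lit 16) (.ev (nat_lit 3696) (nat_lit 37037603337731047552) .dd))))
 (.br (nat_lit 21) (.br (nat_lit 18) (.ch (nat_lit 17) (.ev (nat_lit 3696) (nat_lit 37037603337663938560) (.ev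
 (nat_lit 4324) (nat_lit 128) (.ev (nat_lit 4333) (nat_lit 67108864) .dd)))) (.ch (nat_lit 18) (.ev (nat_lit
 3696) (nat_lit 37037603337659744384) (.ev (nat_lit 5268) (nat_lit 67108864) (.ev (nat_lit 5277) (nat_lit
 4194304) .dd))))) (.br (nat_lit 25) (.ch (nat_lit 21) (.ev (nat_lit 3696) (nat_lit 37037603335516454912) (.ev
 (nat_lit 3732) (nat_lit 128) (.ev (nat_lit 5268) (nat_lit 67108864) (.ev (nat_lit 5277) (nat_lit 2147483648)
 .dd))))) (.br (nat_lit 30) (.ch (nat_lit 25) (.ev (nat_lit 3696) (nat_lit 37037603337731047552) .dd)) (.ch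
 (nat_lit 30) (.ev (nat_lit 3696) (nat_lit 144115190311944320) (.ev (nat_lit 3709) (nat_lit
 36893488147419103232) .dd))))))) (.br (nat_lit 35) (.br (nat_lit 33) (.br (nat_lit 32) (.ch (nat_lit 31) (.ev
 (nat_lit 3696) (nat_lit 37037603335516454912) (.ev (nat_lit 4256) (nat_lit 2147483648) (.ev (nat_lit 5172)
 (nat_lit 128) (.ev (nat_lit 5181) (nat_lit 67108864) .dd))))) (.ch (nat_lit 32) (.ev (nat_lit 3696) (nat_lit
 36893488147486212096) (.ev (nat_lit 5524) (nat_lit 4194304) (.ev (nat_lit 5584) (nat_lit 144115188075855872)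
 (.ev (nat_lit 5824) (nat_lit 16777344) (.ev (nat_lit 5840) (nat_lit 2148007936) .dd))))))) (.br (nat_lit 34)
 (.ch (nat_lit 33) (.ev (nat_lit 3696) (nat_lit 36893488147507708032) (.ev (nat_lit 5808) (nat_lit 2147483648)
 (.ev (nat_lit 5821) (nat_lit 144115188075855872) .dd)))) (.ch (nat_lit 34) (.ev (nat_lit 3696) (nat_lit
 36893488149571305600) (.ev (nat_lit 3780) (nat_lit 16777216) (.ev (nat_lit 5172) (nat_lit 144115188075855872)
 (.ev (nat_lit 5181) (nat_lit 67108864) .dd))))))) (.br (nat_lit 40) (.br (nat_lit 37) (.ch (nat_lit 35) (.ev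
 (nat_lit 3696) (nat_lit 36893488149587558528) (.ev (nat_lit 3780) (nat_lit 524288) (.ev (nat_lit 4340)
 (nat_lit 67108864) (.ev (nat_lit 4349) (nat_lit 144115188075855872) .dd))))) (.ch (nat_lit 37) (.ev (nat_lit
 3696) (nat_lit 36893488149571305472) (.ev (nat_lit 3860) (nat_lit 16777216) (.ev (nat_lit 5524) (nat_lit 128)
 (.ev (nat_lit 5712) (nat_lit 144115188075855872) (.ev (nat_lit 5725) (nat_lit 67108864) .dd))))))) (.br
 (nat_lit 44) (.ch (nat_lit 40) (.ev (nat_lit 3696) (nat_lit 144115190311944320) (.ev (nat_lit 3709) (nat_lit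
 36893488147419103232) .dd))) (.br (nat_lit 45) (.ch (nat_lit 44) (.ev (nat_lit 3696) (nat_lit
 37037603335583039488) (.ev (nat_lit 3828) (nat_lit 524288) (.ev (nat_lit 4660) (nat_lit 128) (.ev (nat_lit
 4669) (nat_lit 2147483648) .dd))))) (.ch (nat_lit 45) (.ev (nat_lit 3696) (nat_lit 37037603335566786688) (.ev
 (nat_lit 3828) (nat_lit 2147483648) (.ev (nat_lit 3837) (nat_lit 16777216) .dd))))))))))))))))))) (.ch
 (nat_lit 15) (.ev (nat_lit 52) (nat_lit 300067524822843261320) (.ev (nat_lit 180) (nat_lit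
 147573952589676412928) (.ev (nat_lit 724) (nat_lit 36893488147419103232) (.ev (nat_lit 820) (nat_lit
 281474976710656) (.ev (nat_lit 852) (nat_lit 67108864) (.ev (nat_lit 2932) (nat_lit 16777216) (.ev (nat_lit
 3348) (nat_lit 17592186044416) (.nd (nat_lit 3680) (.br (nat_lit 25) (.br (nat_lit 13) (.br (nat_lit 6) (.br
 (nat_lit 1) (.ch (nat_lit 0) (.ev (nat_lit 3696) (nat_lit 1199182620718832549920) (.ev (nat_lit 5172) (nat_lit
 9007199254740992) (.ev (nat_lit 5181) (nat_lit 4398046511104) .dd)))) (.ch (nat_lit 1) (.ev (nat_lit 3696)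
 (nat_lit 1199182625116879061024) (.ev (nat_lit 3709) (nat_lit 9007199254740992) .dd)))) (.br (nat_lit 9) (.ch
 (nat_lit 6) (.ev (nat_lit 3696) (nat_lit 1199182484379390705696) (.ev (nat_lit 5536) (nat_lit
 9007199254740992) (.ev (nat_lit 5549) (nat_lit 140737488355328) .dd)))) (.ch (nat_lit 9) (.ev (nat_lit 3696)
 (nat_lit 1199191627918087290880) (.ev (nat_lit 3780) (nat_lit 4398046511104) (.ev (nat_lit 3789) (nat_lit 32)
 .dd)))))) (.br (nat_lit 18) (.br (nat_lit 17) (.ch (nat_lit 13) (.ev (nat_lit 3696) (nat_lit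
 1180735881043169509408) (.ev (nat_lit 3732) (nat_lit 9007199254740992) (.ev (nat_lit 3741) (nat_lit
 18446744073709551616) .dd)))) (.ch (nat_lit 17) (.ev (nat_lit 3696) (nat_lit 1199191491578645446656) (.ev
 (nat_lit 3732) (nat_lit 32) (.ev (nat_lit 3741) (nat_lit 140737488355328) .dd))))) (.br (nat_lit 21) (.ch
 (nat_lit 18) (.ev (nat_lit 3696) (nat_lit 1199047376390569590816) (.ev (nat_lit 5536) (nat_lit
 140737488355328) (.ev (nat_lit 5549) (nat_lit 144115188075855872) .dd)))) (.br (nat_lit 24) (.ch (nat_lit 21)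
 (.ev (nat_lit 3696) (nat_lit 1180744883844377739296) (.ev (nat_lit 5648) (nat_lit 18446748471756062720) .dd)))
 (.ch (nat_lit 24) (.ev (nat_lit 3696) (nat_lit 18599870861234143264) (.ev (nat_lit 3828) (nat_lit
 140737488355328) (.ev (nat_lit 3837) (nat_lit 1180591620717411303424) .dd)))))))) (.br (nat_lit 37) (.br
 (nat_lit 32) (.br (nat_lit 26) (.ch (nat_lit 25) (.ev (nat_lit 3696) (nat_lit 1199191627918087290912) (.ev
 (nat_lit 3709) (nat_lit 4398046511104) .dd))) (.ch (nat_lit 26) (.ev (nat_lit 3696) (nat_lit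
 1199191627918087290880) (.ev (nat_lit 4852) (nat_lit 4398046511104) (.ev (nat_lit 4861) (nat_lit 32) .dd)))))
 (.br (nat_lit 34) (.ch (nat_lit 32) (.ev (nat_lit 3696) (nat_lit 18599866461040148512) (.ev (nat_lit 3860)
 (nat_lit 1180591620717411303424) (.ev (nat_lit 5792) (nat_lit 2147483648) (.ev (nat_lit 5808) (nat_lit
 145135534866432) .dd))))) (.ch (nat_lit 34) (.ev (nat_lit 3696) (nat_lit 1180735740305681154080) (.ev (nat_lit
 3780) (nat_lit 18446744073709551616) (.ev (nat_lit 5700) (nat_lit 140737488355328) (.ev (nat_lit 5709)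
 (nat_lit 9007199254740992) .dd))))))) (.br (nat_lit 40) (.br (nat_lit 39) (.ch (nat_lit 37) (.ev (nat_lit
 3696) (nat_lit 18446889209244418048) (.ev (nat_lit 5268) (nat_lit 2147483648) (.ev (nat_lit 5412) (nat_lit 32)
 (.ev (nat_lit 5712) (nat_lit 9007199254740992) (.ev (nat_lit 5760) (nat_lit 1180591620717411303424) (.ev
 (nat_lit 5773) (nat_lit 144115188075855872) .dd))))))) (.ch (nat_lit 39) (.ev (nat_lit 3696) (nat_lit
 1180744747504935895040) (.ev (nat_lit 5700) (nat_lit 18446744073709551648) (.ev (nat_lit 5709) (nat_lit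
 140737488355328) .dd))))) (.br (nat_lit 42) (.ch (nat_lit 40) (.ev (nat_lit 3696) (nat_lit
 1199191632316133801984) (.ev (nat_lit 3709) (nat_lit 32) .dd))) (.br (nat_lit 44) (.ch (nat_lit 42) (.ev
 (nat_lit 3696) (nat_lit 18600011598722498592) (.ev (nat_lit 3709) (nat_lit 1180591620717411303424) .dd))) (.ch
 (nat_lit 44) (.ev (nat_lit 3696) (nat_lit 1199182479979196710912) (.ev (nat_lit 5216) (nat_lit
 9007199254740992) (.ev (nat_lit 5524) (nat_lit 140737488355328) (.ev (nat_lit 5728) (nat_lit 4398046511104)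
 (.ev (nat_lit 5760) (nat_lit 32) (.ev (nat_lit 5773) (nat_lit 2147483648) .dd)))))))))))))))))))))))) (.br
 (nat_lit 22) (.br (nat_lit 18) (.br (nat_lit 17) (.ch (nat_lit 16) (.ev (nat_lit 52) (nat_lit
 1236383360793648300032) (.ev (nat_lit 276) (nat_lit 8) (.ev (nat_lit 372) (nat_lit 4194304) (.ev (nat_lit
 1332) (nat_lit 295147905179352825856) (.ev (nat_lit 1748) (nat_lit 562949953421312) (.ev (nat_lit 2164)
 (nat_lit 128) (.ev (nat_lit 3572) (nat_lit 32) (.nd (nat_lit 3680) (.br (nat_lit 33) (.br (nat_lit 15) (.br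
 (nat_lit 6) (.ch (nat_lit 0) (.ev (nat_lit 3696) (nat_lit 140738025226496) (.ev (nat_lit 3780) (nat_lit
 147573952589676412928) (.ev (nat_lit 3860) (nat_lit 9007199254740992) (.ev (nat_lit 4004) (nat_lit
 281474976710656) (.ev (nat_lit 4013) (nat_lit 4611686018427387904) .dd)))))) (.br (nat_lit 9) (.ch (nat_lit 6)
 (.ev (nat_lit 3696) (nat_lit 422213001936896) (.ev (nat_lit 3780) (nat_lit 147573952589676412928) (.ev
 (nat_lit 3828) (nat_lit 256) (.ev (nat_lit 5280) (nat_lit 9007199254740992) (.ev (nat_lit 5293) (nat_lit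
 4611686018427387904) .dd)))))) (.ch (nat_lit 9) (.ev (nat_lit 3696) (nat_lit 9429412256678144) (.ev (nat_lit
 4004) (nat_lit 147573952589676412928) (.ev (nat_lit 4013) (nat_lit 4611686018427387904) .dd)))))) (.br
 (nat_lit 29) (.br (nat_lit 16) (.ch (nat_lit 15) (.ev (nat_lit 3696) (nat_lit 152195068019823607808) (.ev
 (nat_lit 5776) (nat_lit 256) (.ev (nat_lit 5789) (nat_lit 536870912) .dd)))) (.ch (nat_lit 16) (.ev (nat_lit
 3696) (nat_lit 4612108230892454144) (.ev (nat_lit 4532) (nat_lit 536870912) (.ev (nat_lit 4884) (nat_lit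
 9007199254740992) (.ev (nat_lit 4893) (nat_lit 147573952589676412928) .dd)))))) (.br (nat_lit 30) (.ch
 (nat_lit 29) (.ev (nat_lit 3696) (nat_lit 152194927282872123648) (.ev (nat_lit 3709) (nat_lit 140737488355328)
 .dd))) (.ch (nat_lit 30) (.ev (nat_lit 3696) (nat_lit 152195068020360478976) .dd))))) (.br (nat_lit 38) (.br
 (nat_lit 35) (.br (nat_lit 34) (.ch (nat_lit 33) (.ev (nat_lit 3696) (nat_lit 147583382001933091072) (.ev
 (nat_lit 3709) (nat_lit 4611686018427387904) .dd))) (.ch (nat_lit 34) (.ev (nat_lit 3696) (nat_lit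
 152194927282872123648) (.ev (nat_lit 3709) (nat_lit 140737488355328) .dd)))) (.br (nat_lit 36) (.ch (nat_lit
 35) (.ev (nat_lit 3696) (nat_lit 4621115430684065792) (.ev (nat_lit 3780) (nat_lit 147573952589676412928) (.ev
 (nat_lit 3789) (nat_lit 256) .dd)))) (.ch (nat_lit 36) (.ev (nat_lit 3696) (nat_lit 4621115430684066048) (.ev
 (nat_lit 3709) (nat_lit 147573952589676412928) .dd))))) (.br (nat_lit 44) (.br (nat_lit 40) (.ch (nat_lit 38)
 (.ev (nat_lit 3696) (nat_lit 152194927282335252736) (.ev (nat_lit 3744) (nat_lit 536870912) (.ev (nat_lit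
 3757) (nat_lit 140737488355328) .dd)))) (.ch (nat_lit 40) (.ev (nat_lit 3696) (nat_lit 4612108231429324800)
 (.ev (nat_lit 5536) (nat_lit 9007199254740992) (.ev (nat_lit 5712) (nat_lit 147573952589676412928) (.ev
 (nat_lit 5725) (nat_lit 256) .dd)))))) (.br (nat_lit 45) (.ch (nat_lit 44) (.ev (nat_lit 3696) (nat_lit
 147583382001396220160) (.ev (nat_lit 5616) (nat_lit 536870912) (.ev (nat_lit 5629) (nat_lit
 4611686018427387904) .dd)))) (.ch (nat_lit 45) (.ev (nat_lit 3696) (nat_lit 152195068020360478976)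
 .dd))))))))))))))) (.ch (nat_lit 17) (.ev (nat_lit 52) (nat_lit 1369698912562858950696) (.ev (nat_lit 212)
 (nat_lit 4398046511104) (.ev (nat_lit 1312) (nat_lit 314027979982413758848) .dd))))) (.br (nat_lit 21) (.ch
 (nat_lit 18) (.ev (nat_lit 52) (nat_lit 1222385328727370760576) (.ev (nat_lit 340) (nat_lit 9007199254740992)
 (.ev (nat_lit 436) (nat_lit 144115188075855872) (.ev (nat_lit 1556) (nat_lit 147573952589676412928) (.ev
 (nat_lit 1652) (nat_lit 1125899906842624) (.ev (nat_lit 2516) (nat_lit 32) (.ev (nat_lit 3604) (nat_lit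
 4194304) (.nd (nat_lit 3680) (.br (nat_lit 29) (.br (nat_lit 16) (.br (nat_lit 8) (.ch (nat_lit 1) (.ev
 (nat_lit 3696) (nat_lit 313613367339030413320) .dd)) (.br (nat_lit 13) (.ch (nat_lit 8) (.ev (nat_lit 3696)
 (nat_lit 313613367339013636096) (.ev (nat_lit 3780) (nat_lit 16777216) (.ev (nat_lit 3789) (nat_lit 8) .dd))))
 (.ch (nat_lit 13) (.ev (nat_lit 3696) (nat_lit 18464899209724166144) (.ev (nat_lit 4004) (nat_lit
 562949953421312) (.ev (nat_lit 5616) (nat_lit 295147905179352825856) (.ev (nat_lit 5629) (nat_lit 8)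
 .dd))))))) (.br (nat_lit 25) (.br (nat_lit 24) (.ch (nat_lit 16) (.ev (nat_lit 3696) (nat_lit
 313613367339030413312) (.ev (nat_lit 3709) (nat_lit 8) .dd))) (.ch (nat_lit 24) (.ev (nat_lit 3696) (nat_lit
 313595352940520931336) (.ev (nat_lit 3709) (nat_lit 18014398509481984) .dd)))) (.br (nat_lit 26) (.ch (nat_lit
 25) (.ev (nat_lit 3696) (nat_lit 313613367339030413312) (.ev (nat_lit 3709) (nat_lit 8) .dd))) (.ch (nat_lit
 26) (.ev (nat_lit 3696) (nat_lit 18465462159677587464) (.ev (nat_lit 3709) (nat_lit 295147905179352825856)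
 .dd)))))) (.br (nat_lit 36) (.br (nat_lit 33) (.br (nat_lit 31) (.ch (nat_lit 29) (.ev (nat_lit 3696) (nat_lit
 313613226601542057992) (.ev (nat_lit 3709) (nat_lit 140737488355328) .dd))) (.ch (nat_lit 31) (.ev (nat_lit
 3696) (nat_lit 313613367339030413320) .dd))) (.br (nat_lit 34) (.ch (nat_lit 33) (.ev (nat_lit 3696) (nat_lit
 313595352940520931336) (.ev (nat_lit 3709) (nat_lit 18014398509481984) .dd))) (.ch (nat_lit 34) (.ev (nat_lit
 3696) (nat_lit 313613367339013636104) (.ev (nat_lit 3709) (nat_lit 16777216) .dd))))) (.br (nat_lit 44) (.br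
 (nat_lit 37) (.ch (nat_lit 36) (.ev (nat_lit 3696) (nat_lit 18465462159660810248) (.ev (nat_lit 3956) (nat_lit
 295147905179352825856) (.ev (nat_lit 3965) (nat_lit 16777216) .dd)))) (.ch (nat_lit 37) (.ev (nat_lit 3696)
 (nat_lit 313612804389076992000) (.ev (nat_lit 5424) (nat_lit 8) (.ev (nat_lit 5437) (nat_lit 562949953421312)
 .dd))))) (.br (nat_lit 45) (.ch (nat_lit 44) (.ev (nat_lit 3696) (nat_lit 295165919577879085064) (.ev (nat_lit
 5728) (nat_lit 140737488355328) (.fin (nat_lit 576465700110418480))))) (.ch (nat_lit 45) (.ev (nat_lit 3696)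
 (nat_lit 313594789990567510024) (.ev (nat_lit 3780) (nat_lit 18014398509481984) (.ev (nat_lit 3789) (nat_lit
 562949953421312) .dd))))))))))))))))) (.ch (nat_lit 21) (.ev (nat_lit 52) (nat_lit 1475902939715078717736)
 (.ev (nat_lit 500) (nat_lit 18446744073709551616) (.ev (nat_lit 980) (nat_lit 67108864) (.ev (nat_lit 1876)
 (nat_lit 9007199254740992) (.ev (nat_lit 2068) (nat_lit 562949953421312) (.ev (nat_lit 2420) (nat_lit
 36893488147419103232) (.ev (nat_lit 3092) (nat_lit 536870912) (.nd (nat_lit 3680) (.br (nat_lit 26) (.br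
 (nat_lit 16) (.br (nat_lit 6) (.ch (nat_lit 1) (.ev (nat_lit 3696) (nat_lit 152473868984259707008) (.ev
 (nat_lit 5700) (nat_lit 285873023221760) (.ev (nat_lit 5709) (nat_lit 16777216) .dd)))) (.br (nat_lit 13) (.ch
 (nat_lit 6) (.ev (nat_lit 3696) (nat_lit 288516249195905152) (.ev (nat_lit 5584) (nat_lit
 147573952589676412928) (.ev (nat_lit 5597) (nat_lit 4611686018427387904) .dd)))) (.ch (nat_lit 13) (.ev
 (nat_lit 3696) (nat_lit 152473873382322995200) (.ev (nat_lit 3732) (nat_lit 281474976710656) (.ev (nat_lit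
 3741) (nat_lit 128) .dd)))))) (.br (nat_lit 24) (.br (nat_lit 17) (.ch (nat_lit 16) (.ev (nat_lit 3696)
 (nat_lit 288516249195905152) (.ev (nat_lit 5472) (nat_lit 147573952589676412928) (.ev (nat_lit 5485) (nat_lit
 4611686018427387904) .dd)))) (.ch (nat_lit 17) (.ev (nat_lit 3696) (nat_lit 4398046511104) (.ev (nat_lit 3780)
 (nat_lit 16777216) (.ev (nat_lit 5040) (nat_lit 4194304) (.ev (nat_lit 5584) (nat_lit 4611686018427387904)
 (.ev (nat_lit 5700) (nat_lit 147573952589676412928) (.ev (nat_lit 5712) (nat_lit 288230376151711744) (.ev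
 (nat_lit 5776) (nat_lit 128) (.ev (nat_lit 5789) (nat_lit 281474976710656) .dd)))))))))) (.br (nat_lit 25)
 (.ch (nat_lit 24) (.ev (nat_lit 3696) (nat_lit 152473873382322995328) (.ev (nat_lit 3709) (nat_lit
 281474976710656) .dd))) (.ch (nat_lit 25) (.ev (nat_lit 3696) (nat_lit 4900202267619098752) (.ev (nat_lit
 3828) (nat_lit 147573952589676412928) (.ev (nat_lit 3837) (nat_lit 4194304) .dd))))))) (.br (nat_lit 37) (.br
 (nat_lit 33) (.br (nat_lit 32) (.ch (nat_lit 26) (.ev (nat_lit 3696) (nat_lit 152474154857299705984) .dd))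
 (.ch (nat_lit 32) (.ev (nat_lit 3696) (nat_lit 147862464440825806848) (.ev (nat_lit 3828) (nat_lit
 4398046511104) (.ev (nat_lit 4496) (nat_lit 128) (.ev (nat_lit 4509) (nat_lit 4611686018427387904) .dd))))))
 (.br (nat_lit 35) (.ch (nat_lit 33) (.ev (nat_lit 3696) (nat_lit 4900202267606515840) (.ev (nat_lit 3732)
 (nat_lit 16777216) (.ev (nat_lit 3741) (nat_lit 147573952589676412928) .dd)))) (.ch (nat_lit 35) (.ev (nat_lit
 3696) (nat_lit 4900202267606515712) (.ev (nat_lit 3732) (nat_lit 16777216) (.ev (nat_lit 4752) (nat_lit 128)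
 (.ev (nat_lit 4765) (nat_lit 147573952589676412928) .dd))))))) (.br (nat_lit 39) (.br (nat_lit 38) (.ch
 (nat_lit 37) (.ev (nat_lit 3696) (nat_lit 152474154857282928640) (.ev (nat_lit 4832) (nat_lit 16777216) (.ev
 (nat_lit 4845) (nat_lit 128) .dd)))) (.ch (nat_lit 38) (.ev (nat_lit 3696) (nat_lit 4900202267623293056) (.ev
 (nat_lit 3709) (nat_lit 147573952589676412928) .dd)))) (.br (nat_lit 45) (.ch (nat_lit 39) (.ev (nat_lit 3696)
 (nat_lit 147862468838872318080) (.ev (nat_lit 3709) (nat_lit 4611686018427387904) .dd))) (.ch (nat_lit 45)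
 (.ev (nat_lit 3696) (nat_lit 152185920083101483136) (.ev (nat_lit 4212) (nat_lit 288230376151711744) (.ev
 (nat_lit 4221) (nat_lit 4398046511104) .dd))))))))))))))))))) (.br (nat_lit 26) (.br (nat_lit 24) (.ch
 (nat_lit 22) (.ev (nat_lit 52) (nat_lit 1480513768112892412168) (.ev (nat_lit 372) (nat_lit 16777216) (.ev
 (nat_lit 628) (nat_lit 17592186044416) (.ev (nat_lit 1472) (nat_lit 203213111238223986848) .dd))))) (.ch
 (nat_lit 24) (.ev (nat_lit 52) (nat_lit 350659999864536957192) (.ev (nat_lit 340) (nat_lit 16777216) (.ev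
 (nat_lit 660) (nat_lit 1180591620717411303424) (.ev (nat_lit 2336) (nat_lit 152475276361354182816) .dd))))))
 (.br (nat_lit 28) (.ch (nat_lit 26) (.ev (nat_lit 52) (nat_lit 336663230037083816224) (.ev (nat_lit 180)
 (nat_lit 2147483648) (.ev (nat_lit 276) (nat_lit 67108864) (.ev (nat_lit 596) (nat_lit 16777216) (.ev (nat_lit
 1876) (nat_lit 4194304) (.ev (nat_lit 1908) (nat_lit 288230376151711744) (.ev (nat_lit 2452) (nat_lit
 147573952589676412928) (.ev (nat_lit 2484) (nat_lit 8) (.ev (nat_lit 2708) (nat_lit 524288) (.ev (nat_lit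
 2740) (nat_lit 1180591620717411303552) (.nd (nat_lit 3680) (.br (nat_lit 25) (.br (nat_lit 15) (.br (nat_lit
 9) (.br (nat_lit 6) (.ch (nat_lit 1) (.ev (nat_lit 3696) (nat_lit 18609577347736666112) (.ev (nat_lit 3732)
 (nat_lit 4398046511104) (.ev (nat_lit 3741) (nat_lit 281474976710656) .dd)))) (.ch (nat_lit 6) (.ev (nat_lit
 3696) (nat_lit 145104748540854272) (.ev (nat_lit 5412) (nat_lit 18446744073709551616) (.ev (nat_lit 5421)
 (nat_lit 18014398509481984) .dd))))) (.br (nat_lit 13) (.ch (nat_lit 9) (.ev (nat_lit 3696) (nat_lit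
 18465748032684032000) (.ev (nat_lit 3709) (nat_lit 144115188075855872) .dd))) (.ch (nat_lit 13) (.ev (nat_lit
 3696) (nat_lit 18609581745783177216) (.ev (nat_lit 3709) (nat_lit 281474976710656) .dd))))) (.br (nat_lit 17)
 (.br (nat_lit 16) (.ch (nat_lit 15) (.ev (nat_lit 3696) (nat_lit 144119586122366976) (.ev (nat_lit 3732)
 (nat_lit 844424930131968) (.ev (nat_lit 5700) (nat_lit 18446884811197906944) (.ev (nat_lit 5709) (nat_lit
 18014398509481984) .dd))))) (.ch (nat_lit 16) (.ev (nat_lit 3696) (nat_lit 18609722483271532544) (.ev (nat_lit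
 3709) (nat_lit 140737488355328) .dd)))) (.br (nat_lit 18) (.ch (nat_lit 17) (.ev (nat_lit 3696) (nat_lit
 18447733634174550016) (.ev (nat_lit 3732) (nat_lit 144115188075855872) (.ev (nat_lit 3741) (nat_lit
 18014398509481984) .dd)))) (.br (nat_lit 24) (.ch (nat_lit 18) (.ev (nat_lit 3696) (nat_lit
 18591844424203894784) (.ev (nat_lit 5700) (nat_lit 18014398509481984) (.ev (nat_lit 5709) (nat_lit
 4398046511104) .dd)))) (.ch (nat_lit 24) (.ev (nat_lit 3696) (nat_lit 18591281474250473472) (.ev (nat_lit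
 3860) (nat_lit 562949953421312) (.ev (nat_lit 5524) (nat_lit 4398046511104) (.ev (nat_lit 5533) (nat_lit
 18014398509481984) .dd))))))))) (.br (nat_lit 37) (.br (nat_lit 33) (.br (nat_lit 30) (.ch (nat_lit 25) (.ev
 (nat_lit 3696) (nat_lit 163114749003825152) (.ev (nat_lit 5700) (nat_lit 4398046511104) (.ev (nat_lit 5709)
 (nat_lit 18446744073709551616) .dd)))) (.ch (nat_lit 30) (.ev (nat_lit 3696) (nat_lit 18465748032684032000)
 (.ev (nat_lit 3709) (nat_lit 144115188075855872) .dd)))) (.br (nat_lit 34) (.ch (nat_lit 33) (.ev (nat_lit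
 3696) (nat_lit 18609858822713376768) (.ev (nat_lit 3709) (nat_lit 4398046511104) .dd))) (.ch (nat_lit 34) (.ev
 (nat_lit 3696) (nat_lit 18591145134808629248) (.ev (nat_lit 4004) (nat_lit 140737488355328) (.ev (nat_lit
 5536) (nat_lit 18014398509481984) (.ev (nat_lit 5549) (nat_lit 562949953421312) .dd))))))) (.br (nat_lit 42)
 (.br (nat_lit 39) (.ch (nat_lit 37) (.ev (nat_lit 3696) (nat_lit 18447452159197839360) (.ev (nat_lit 3904)
 (nat_lit 281474976710656) (.ev (nat_lit 5700) (nat_lit 144115188075855872) (.ev (nat_lit 5709) (nat_lit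
 18014398509481984) .dd))))) (.ch (nat_lit 39) (.ev (nat_lit 3696) (nat_lit 18018796555993088) (.ev (nat_lit
 3732) (nat_lit 18447166286174617600) (.ev (nat_lit 5524) (nat_lit 562949953421312) (.ev (nat_lit 5533)
 (nat_lit 144115188075855872) .dd)))))) (.br (nat_lit 44) (.ch (nat_lit 42) (.ev (nat_lit 3696) (nat_lit
 18447733634174550016) (.ev (nat_lit 3780) (nat_lit 144115188075855872) (.ev (nat_lit 3789) (nat_lit
 18014398509481984) .dd)))) (.br (nat_lit 45) (.ch (nat_lit 44) (.ev (nat_lit 3696) (nat_lit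
 162556197096914944) (.fin (nat_lit 576465700110418480)))) (.ch (nat_lit 45) (.ev (nat_lit 3696) (nat_lit
 18465748032684032000) (.ev (nat_lit 3709) (nat_lit 144115188075855872) .dd)))))))))))))))))))) (.br (nat_lit
 29) (.ch (nat_lit 28) (.ev (nat_lit 52) (nat_lit 1328481669706471178528) (.ev (nat_lit 276) (nat_lit
 1125899906842624) (.ev (nat_lit 404) (nat_lit 2147483648) (.ev (nat_lit 980) (nat_lit 140737488355328) (.ev
 (nat_lit 1908) (nat_lit 36893488147419103232) (.ev (nat_lit 3540) (nat_lit 8) (.nd (nat_lit 3680) (.br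
 (nat_lit 30) (.br (nat_lit 16) (.br (nat_lit 13) (.br (nat_lit 6) (.ch (nat_lit 1) (.ev (nat_lit 3696)
 (nat_lit 318206352863763890304) (.ev (nat_lit 5700) (nat_lit 4398046511104) (.ev (nat_lit 5709) (nat_lit
 144115188075855872) .dd)))) (.ch (nat_lit 6) (.ev (nat_lit 3696) (nat_lit 18590881252101849088) (.ev (nat_lit
 4004) (nat_lit 128) (.ev (nat_lit 4356) (nat_lit 295147905179352825856) (.ev (nat_lit 5760) (nat_lit
 4611686018427387904) (.ev (nat_lit 5773) (nat_lit 4194304) .dd))))))) (.br (nat_lit 15) (.ch (nat_lit 13) (.ev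
 (nat_lit 3696) (nat_lit 313738786431391760512) (.ev (nat_lit 5172) (nat_lit 4611686018427387904) (.ev (nat_lit
 5181) (nat_lit 67108864) .dd)))) (.ch (nat_lit 15) (.ev (nat_lit 3696) (nat_lit 299903728376109596800) (.ev
 (nat_lit 3780) (nat_lit 67108864) (.ev (nat_lit 3789) (nat_lit 18446744073709551616) .dd)))))) (.br (nat_lit
 25) (.br (nat_lit 21) (.ch (nat_lit 16) (.ev (nat_lit 3696) (nat_lit 23202549678280278144) (.ev (nat_lit 3732)
 (nat_lit 17592186044416) (.ev (nat_lit 5092) (nat_lit 67108864) (.ev (nat_lit 5101) (nat_lit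
 295147905179352825856) .dd))))) (.ch (nat_lit 21) (.ev (nat_lit 3696) (nat_lit 299903723978063085696) (.ev
 (nat_lit 3780) (nat_lit 67108864) (.ev (nat_lit 3860) (nat_lit 18446744073709551616) (.ev (nat_lit 3869)
 (nat_lit 4398046511104) .dd)))))) (.br (nat_lit 26) (.ch (nat_lit 25) (.ev (nat_lit 3696) (nat_lit
 313738768839268630656) (.ev (nat_lit 5700) (nat_lit 4611686018427387904) (.ev (nat_lit 5728) (nat_lit
 17592190238720) .dd)))) (.br (nat_lit 29) (.ch (nat_lit 26) (.ev (nat_lit 3696) (nat_lit 23202549678347387008)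
 (.ev (nat_lit 5892) (nat_lit 17592186044416) (.ev (nat_lit 5901) (nat_lit 295147905179352825856) .dd)))) (.ch
 (nat_lit 29) (.ev (nat_lit 3696) (nat_lit 299903706385944150144) (.ev (nat_lit 3732) (nat_lit 4398046511104)
 (.ev (nat_lit 5024) (nat_lit 18446761665895596032) .dd)))))))) (.br (nat_lit 36) (.br (nat_lit 33) (.br
 (nat_lit 32) (.ch (nat_lit 30) (.ev (nat_lit 3696) (nat_lit 318350472449882062848) (.ev (nat_lit 3732)
 (nat_lit 4194304) (.ev (nat_lit 3741) (nat_lit 128) .dd)))) (.ch (nat_lit 32) (.ev (nat_lit 3696) (nat_lit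
 318350472449869480064) (.ev (nat_lit 3709) (nat_lit 16777216) .dd)))) (.br (nat_lit 34) (.ch (nat_lit 33) (.ev
 (nat_lit 3696) (nat_lit 23058452082453381120) (.ev (nat_lit 3732) (nat_lit 144115188075856000) (.ev (nat_lit
 5712) (nat_lit 295147905179352825856) (.ev (nat_lit 5725) (nat_lit 4194304) .dd))))) (.ch (nat_lit 34) (.ev
 (nat_lit 3696) (nat_lit 299903723978130194560) (.ev (nat_lit 3712) (nat_lit 4398046511104) (.ev (nat_lit 3725)
 (nat_lit 18446744073709551616) .dd)))))) (.br (nat_lit 40) (.br (nat_lit 37) (.ch (nat_lit 36) (.ev (nat_lit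
 3696) (nat_lit 144137178379714560) (.ev (nat_lit 4516) (nat_lit 18446744073709551744) (.ev (nat_lit 5568)
 (nat_lit 16777216) (.ev (nat_lit 5600) (nat_lit 299759591197780213760) .dd))))) (.ch (nat_lit 37) (.ev
 (nat_lit 3696) (nat_lit 318350472449819148288) (.ev (nat_lit 3956) (nat_lit 67108864) (.ev (nat_lit 3965)
 (nat_lit 128) .dd))))) (.br (nat_lit 42) (.ch (nat_lit 40) (.ev (nat_lit 3696) (nat_lit 299903728376172511360)
 (.ev (nat_lit 4448) (nat_lit 18446744073709551616) (.ev (nat_lit 4461) (nat_lit 4194304) .dd)))) (.br (nat_lit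
 44) (.ch (nat_lit 42) (.ev (nat_lit 3696) (nat_lit 318350472449869480064) (.ev (nat_lit 3709) (nat_lit
 16777216) .dd))) (.ch (nat_lit 44) (.ev (nat_lit 3696) (nat_lit 299903723978130194560) (.ev (nat_lit 3732)
 (nat_lit 4398046511104) (.ev (nat_lit 3741) (nat_lit 18446744073709551616) .dd))))))))))))))))) (.ch (nat_lit
 29) (.ev (nat_lit 52) (nat_lit 318505547570384208040) (.ev (nat_lit 308) (nat_lit 20971520) (.ev (nat_lit 404)
 (nat_lit 147573952589676412928) (.ev (nat_lit 1652) (nat_lit 144115188075855872) (.ev (nat_lit 2676) (nat_lit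
 1180591620717411303424) (.nd (nat_lit 3680) (.br (nat_lit 30) (.br (nat_lit 17) (.br (nat_lit 6) (.br (nat_lit
 1) (.ch (nat_lit 0) (.ev (nat_lit 3696) (nat_lit 158331821883648) (.ev (nat_lit 3780) (nat_lit
 18014398509481984) (.ev (nat_lit 3789) (nat_lit 36893488147419103232) .dd)))) (.ch (nat_lit 1) (.ev (nat_lit
 3696) (nat_lit 36911643285564424448) (.ev (nat_lit 3709) (nat_lit 17592186044416) .dd)))) (.br (nat_lit 16)
 (.ch (nat_lit 6) (.ev (nat_lit 3696) (nat_lit 36893488149566587136) (.ev (nat_lit 3732) (nat_lit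
 18014398509481984) (.ev (nat_lit 4036) (nat_lit 17592186044416) (.ev (nat_lit 4045) (nat_lit 140737488355328)
 .dd))))) (.ch (nat_lit 16) (.ev (nat_lit 3696) (nat_lit 36911520138114629888) (.ev (nat_lit 3732) (nat_lit
 2147483648) (.ev (nat_lit 3741) (nat_lit 140737488355328) .dd)))))) (.br (nat_lit 25) (.br (nat_lit 18) (.ch
 (nat_lit 17) (.ev (nat_lit 3696) (nat_lit 36893505741752631552) (.fin (nat_lit 576462401572389439)))) (.ch
 (nat_lit 18) (.ev (nat_lit 3696) (nat_lit 36893646479240986624) (.ev (nat_lit 4052) (nat_lit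
 18014398509481984) (.ev (nat_lit 4061) (nat_lit 256) .dd))))) (.br (nat_lit 29) (.ch (nat_lit 25) (.ev
 (nat_lit 3696) (nat_lit 36911643285564424448) (.ev (nat_lit 3709) (nat_lit 17592186044416) .dd))) (.ch
 (nat_lit 29) (.ev (nat_lit 3696) (nat_lit 18155138145321216) (.ev (nat_lit 5216) (nat_lit
 36893488147419103232) (.ev (nat_lit 5229) (nat_lit 17592186044416) .dd))))))) (.br (nat_lit 37) (.br (nat_lit
 32) (.br (nat_lit 31) (.ch (nat_lit 30) (.ev (nat_lit 3696) (nat_lit 18172728183881984) (.ev (nat_lit 5412)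
 (nat_lit 2147483648) (.ev (nat_lit 5421) (nat_lit 36893488147419103232) .dd)))) (.ch (nat_lit 31) (.ev
 (nat_lit 3696) (nat_lit 18172730331365632) (.ev (nat_lit 3709) (nat_lit 36893488147419103232) .dd)))) (.br
 (nat_lit 35) (.ch (nat_lit 32) (.ev (nat_lit 3696) (nat_lit 36911520138114629632) (.ev (nat_lit 5280) (nat_lit
 140737488355328) (.ev (nat_lit 5328) (nat_lit 256) (.ev (nat_lit 5341) (nat_lit 2147483648) .dd))))) (.ch
 (nat_lit 35) (.ev (nat_lit 3696) (nat_lit 36911660875602984960) (.ev (nat_lit 3828) (nat_lit 2147483648) (.ev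
 (nat_lit 3837) (nat_lit 256) .dd)))))) (.br (nat_lit 42) (.br (nat_lit 38) (.ch (nat_lit 37) (.ev (nat_lit
 3696) (nat_lit 36893646477093502976) (.ev (nat_lit 4772) (nat_lit 2147483648) (.ev (nat_lit 5280) (nat_lit
 256) (.ev (nat_lit 5293) (nat_lit 18014398509481984) .dd))))) (.ch (nat_lit 38) (.ev (nat_lit 3696) (nat_lit
 18172730331365376) (.ev (nat_lit 5524) (nat_lit 256) (.ev (nat_lit 5533) (nat_lit 36893488147419103232)
 .dd))))) (.br (nat_lit 44) (.ch (nat_lit 42) (.ev (nat_lit 3696) (nat_lit 36911643285564424448) (.ev (nat_lit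
 3709) (nat_lit 17592186044416) .dd))) (.ch (nat_lit 44) (.ev (nat_lit 3696) (nat_lit 36911520140262113536)
 (.ev (nat_lit 3709) (nat_lit 140737488355328) .dd))))))))))))))))))) (.br (nat_lit 42) (.br (nat_lit 38) (.br
 (nat_lit 36) (.br (nat_lit 33) (.ch (nat_lit 31) (.ev (nat_lit 52) (nat_lit 55368801933483573504) (.ev
 (nat_lit 116) (nat_lit 17592186044416) (.ev (nat_lit 1108) (nat_lit 16777216) (.ev (nat_lit 1236) (nat_lit
 524288) (.ev (nat_lit 2772) (nat_lit 1180591620717411303424) (.ev (nat_lit 3284) (nat_lit 128) (.nd (nat_lit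
 3680) (.br (nat_lit 24) (.br (nat_lit 9) (.br (nat_lit 6) (.ch (nat_lit 1) (.ev (nat_lit 3696) (nat_lit
 299904269336346361864) (.ev (nat_lit 3828) (nat_lit 4398046511104) (.ev (nat_lit 4932) (nat_lit
 147573952589676412928) (.ev (nat_lit 5776) (nat_lit 32) (.ev (nat_lit 5789) (nat_lit 288230376151711744)
 .dd)))))) (.br (nat_lit 8) (.ch (nat_lit 6) (.ev (nat_lit 3696) (nat_lit 443154770681793609768) (.ev (nat_lit
 3709) (nat_lit 4611686018427387904) .dd))) (.ch (nat_lit 8) (.ev (nat_lit 3696) (nat_lit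
 447766452302174486560) (.ev (nat_lit 5524) (nat_lit 4398046511104) (.ev (nat_lit 5533) (nat_lit 8) .dd))))))
 (.br (nat_lit 18) (.br (nat_lit 15) (.ch (nat_lit 9) (.ev (nat_lit 3696) (nat_lit 295292587715965485088) (.ev
 (nat_lit 3780) (nat_lit 288230376151711744) (.ev (nat_lit 3860) (nat_lit 147573952589676412928) (.ev (nat_lit
 4244) (nat_lit 8) (.ev (nat_lit 4253) (nat_lit 4611686018427387904) .dd)))))) (.ch (nat_lit 15) (.ev (nat_lit
 3696) (nat_lit 443010655493717753896) (.ev (nat_lit 6000) (nat_lit 4755801206503243776) .dd)))) (.br (nat_lit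
 21) (.ch (nat_lit 18) (.ev (nat_lit 3696) (nat_lit 447766456700220997640) (.ev (nat_lit 3709) (nat_lit 32)
 .dd))) (.ch (nat_lit 21) (.ev (nat_lit 3696) (nat_lit 447478226324069285896) (.ev (nat_lit 3892) (nat_lit
 288230376151711744) (.ev (nat_lit 3901) (nat_lit 32) .dd))))))) (.br (nat_lit 37) (.br (nat_lit 33) (.br
 (nat_lit 29) (.ch (nat_lit 24) (.ev (nat_lit 3696) (nat_lit 447765889351684194344) (.ev (nat_lit 3732)
 (nat_lit 4398046511104) (.ev (nat_lit 3828) (nat_lit 536870912) (.ev (nat_lit 3837) (nat_lit 562949953421312)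
 .dd))))) (.ch (nat_lit 29) (.ev (nat_lit 3696) (nat_lit 447478226324069285920) (.ev (nat_lit 3780) (nat_lit
 288230376151711744) (.ev (nat_lit 3789) (nat_lit 8) .dd))))) (.br (nat_lit 35) (.ch (nat_lit 33) (.ev (nat_lit
 3696) (nat_lit 4900479345069391912) (.ev (nat_lit 3732) (nat_lit 147573952589676412928) (.ev (nat_lit 5524)
 (nat_lit 144115188075855872) (.ev (nat_lit 5700) (nat_lit 4398046511104) (.ev (nat_lit 5709) (nat_lit
 295147905179352825856) .dd)))))) (.ch (nat_lit 35) (.ev (nat_lit 3696) (nat_lit 4756368555040047144) (.ev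
 (nat_lit 5700) (nat_lit 295436135555504537600) (.ev (nat_lit 5709) (nat_lit 147573952589676412928) .dd))))))
 (.br (nat_lit 42) (.br (nat_lit 40) (.ch (nat_lit 37) (.ev (nat_lit 3696) (nat_lit 447766456700220997640) (.ev
 (nat_lit 3709) (nat_lit 32) .dd))) (.ch (nat_lit 40) (.ev (nat_lit 3696) (nat_lit 447478226323532415016) (.ev
 (nat_lit 3828) (nat_lit 288230376151711744) (.ev (nat_lit 3837) (nat_lit 536870912) .dd))))) (.br (nat_lit 44)
 (.ch (nat_lit 42) (.ev (nat_lit 3696) (nat_lit 300048388922468728872) (.ev (nat_lit 5552) (nat_lit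
 147573952589676412928) (.ev (nat_lit 5565) (nat_lit 144115188075855872) .dd)))) (.ch (nat_lit 44) (.ev
 (nat_lit 3696) (nat_lit 447765889351684194344) (.ev (nat_lit 3732) (nat_lit 4398046511104) (.ev (nat_lit 5524)
 (nat_lit 562949953421312) (.ev (nat_lit 5533) (nat_lit 536870912) .dd))))))))))))))))) (.ch (nat_lit 33) (.ev
 (nat_lit 52) (nat_lit 1332777540800575701376) (.ev (nat_lit 532) (nat_lit 288230376151711744) (.ev (nat_lit
 1172) (nat_lit 32) (.ev (nat_lit 1652) (nat_lit 18014398509481984) (.ev (nat_lit 1940) (nat_lit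
 1125899906842624) (.ev (nat_lit 2516) (nat_lit 562949953421312) (.ev (nat_lit 3028) (nat_lit 524288) (.ev
 (nat_lit 3540) (nat_lit 140737488355328) (.ev (nat_lit 3572) (nat_lit 536870912) (.nd (nat_lit 3680) (.br
 (nat_lit 18) (.br (nat_lit 13) (.br (nat_lit 1) (.ch (nat_lit 0) (.ev (nat_lit 3696) (nat_lit
 350632274580941570048) (.ev (nat_lit 5536) (nat_lit 9007199254740992) (.ev (nat_lit 5549) (nat_lit 8) .dd))))
 (.br (nat_lit 8) (.ch (nat_lit 1) (.ev (nat_lit 3696) (nat_lit 313594653653256372232) (.ev (nat_lit 5524)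
 (nat_lit 4194304) (.ev (nat_lit 5700) (nat_lit 17592186044416) (.ev (nat_lit 5808) (nat_lit
 37037603335494959104) (.ev (nat_lit 5821) (nat_lit 9007199254740992) .dd)))))) (.ch (nat_lit 8) (.ev (nat_lit
 3696) (nat_lit 350641281780196311040) (.ev (nat_lit 3709) (nat_lit 8) .dd))))) (.br (nat_lit 15) (.ch (nat_lit
 13) (.ev (nat_lit 3696) (nat_lit 332050422518410903552) (.ev (nat_lit 3732) (nat_lit 144115188075855880) (.ev
 (nat_lit 3741) (nat_lit 18446744073709551616) .dd)))) (.br (nat_lit 16) (.ch (nat_lit 15) (.ev (nat_lit 3696)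
 (nat_lit 313603678444701351944) (.ev (nat_lit 3828) (nat_lit 144115188075855872) (.ev (nat_lit 3837) (nat_lit
 36893488147419103232) .dd)))) (.ch (nat_lit 16) (.ev (nat_lit 3696) (nat_lit 350497148997786927104) (.ev
 (nat_lit 3732) (nat_lit 17594333528064) (.ev (nat_lit 5440) (nat_lit 8) (.ev (nat_lit 5453) (nat_lit
 144115188075855872) .dd)))))))) (.br (nat_lit 30) (.br (nat_lit 26) (.ch (nat_lit 18) (.ev (nat_lit 3696)
 (nat_lit 55349239422530879488) (.ev (nat_lit 3732) (nat_lit 144115188080050176) (.ev (nat_lit 5536) (nat_lit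
 8) (.ev (nat_lit 5700) (nat_lit 4398046511104) (.ev (nat_lit 6016) (nat_lit 295147922771538870272) .dd))))))
 (.br (nat_lit 29) (.ch (nat_lit 26) (.ev (nat_lit 3696) (nat_lit 18599884055373676552) (.ev (nat_lit 3732)
 (nat_lit 36893488147419103232) (.ev (nat_lit 4340) (nat_lit 4194304) (.ev (nat_lit 5440) (nat_lit
 4398046511104) (.ev (nat_lit 5453) (nat_lit 295147905179352825856) .dd)))))) (.ch (nat_lit 29) (.ev (nat_lit
 3696) (nat_lit 332194533308440248328) (.ev (nat_lit 3780) (nat_lit 18446744073709551616) (.ev (nat_lit 3789)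
 (nat_lit 4398046511104) .dd)))))) (.br (nat_lit 40) (.br (nat_lit 39) (.ch (nat_lit 30) (.ev (nat_lit 3696)
 (nat_lit 18455773265344331784) (.ev (nat_lit 3732) (nat_lit 144115188075855872) (.ev (nat_lit 5700) (nat_lit
 295147905179352825856) (.ev (nat_lit 5776) (nat_lit 36893488147419103232) (.ev (nat_lit 5789) (nat_lit
 4194304) .dd)))))) (.ch (nat_lit 39) (.ev (nat_lit 3696) (nat_lit 295301049556915978248) (.ev (nat_lit 3732)
 (nat_lit 36893488147423297536) (.ev (nat_lit 3828) (nat_lit 2147483648) (.ev (nat_lit 3837) (nat_lit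
 18446744073709551616) .dd)))))) (.br (nat_lit 45) (.ch (nat_lit 40) (.ev (nat_lit 3696) (nat_lit
 313747789234726502408) (.ev (nat_lit 3732) (nat_lit 36893488147419103232) (.ev (nat_lit 4800) (nat_lit
 4194304) (.ev (nat_lit 4813) (nat_lit 4398046511104) .dd))))) (.ch (nat_lit 45) (.ev (nat_lit 3696) (nat_lit
 350641277380002316296) (.ev (nat_lit 3732) (nat_lit 2147483648) (.ev (nat_lit 3741) (nat_lit 4398046511104)
 .dd)))))))))))))))))))) (.br (nat_lit 37) (.ch (nat_lit 36) (.ev (nat_lit 52) (nat_lit 1328336991568458154144)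
 (.ev (nat_lit 148) (nat_lit 4611686018427387904) (.ev (nat_lit 308) (nat_lit 18446744073709551616) (.ev
 (nat_lit 916) (nat_lit 288230376151711744) (.ev (nat_lit 1012) (nat_lit 36893488147419103232) (.ev (nat_lit
 1632) (nat_lit 295149756759153312008) .dd))))))) (.ch (nat_lit 37) (.ev (nat_lit 52) (nat_lit
 465780991548679258272) (.ev (nat_lit 212) (nat_lit 144115188075855872) (.ev (nat_lit 436) (nat_lit
 4398046511104) (.ev (nat_lit 724) (nat_lit 288230376151711744) (.ev (nat_lit 788) (nat_lit 1125899906842624)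
 (.ev (nat_lit 1332) (nat_lit 18014398509481984) (.ev (nat_lit 1396) (nat_lit 524544) (.ev (nat_lit 2932)
 (nat_lit 9007199254740992) (.nd (nat_lit 3680) (.br (nat_lit 30) (.br (nat_lit 17) (.br (nat_lit 9) (.br
 (nat_lit 1) (.ch (nat_lit 0) (.ev (nat_lit 3696) (nat_lit 1217485108867531538440) (.ev (nat_lit 3732) (nat_lit
 17592186044416) (.ev (nat_lit 3741) (nat_lit 281474976710656) .dd)))) (.ch (nat_lit 1) (.ev (nat_lit 3696)
 (nat_lit 1217485390340360765448) (.ev (nat_lit 5552) (nat_lit 2147483648) (.ev (nat_lit 5565) (nat_lit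
 17592186044416) .dd))))) (.br (nat_lit 15) (.ch (nat_lit 9) (.ev (nat_lit 3696) (nat_lit
 1217485126457570099200) (.ev (nat_lit 3780) (nat_lit 8) (.ev (nat_lit 5536) (nat_lit 281474976710656) (.ev
 (nat_lit 5549) (nat_lit 2147483648) .dd))))) (.ch (nat_lit 15) (.ev (nat_lit 3696) (nat_lit
 1180591919786738319368) (.ev (nat_lit 3732) (nat_lit 36893488147419103232) (.ev (nat_lit 3741) (nat_lit
 536870912) .dd)))))) (.br (nat_lit 21) (.br (nat_lit 18) (.ch (nat_lit 17) (.ev (nat_lit 3696) (nat_lit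
 1217485407934140645384) (.ev (nat_lit 5536) (nat_lit 553648128) .dd))) (.ch (nat_lit 18) (.ev (nat_lit 3696)
 (nat_lit 1217485407934677516288) (.ev (nat_lit 5632) (nat_lit 8) (.ev (nat_lit 5645) (nat_lit 16777216)
 .dd))))) (.br (nat_lit 25) (.ch (nat_lit 21) (.ev (nat_lit 3696) (nat_lit 1217485126459717582856) (.ev
 (nat_lit 3709) (nat_lit 281474976710656) .dd))) (.br (nat_lit 26) (.ch (nat_lit 25) (.ev (nat_lit 3696)
 (nat_lit 1217485407934694293512) .dd)) (.ch (nat_lit 26) (.ev (nat_lit 3696) (nat_lit 1180591902195089145864)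
 (.ev (nat_lit 5184) (nat_lit 36893488147419103232) (.ev (nat_lit 5197) (nat_lit 17592186044416) .dd))))))))
 (.br (nat_lit 34) (.br (nat_lit 32) (.br (nat_lit 31) (.ch (nat_lit 30) (.ev (nat_lit 3696) (nat_lit
 299069863886848) (.ev (nat_lit 3828) (nat_lit 8) (.ev (nat_lit 4532) (nat_lit 36893488147419103232) (.ev
 (nat_lit 4541) (nat_lit 1180591620717411303424) .dd))))) (.ch (nat_lit 31) (.ev (nat_lit 3696) (nat_lit
 1180591638312281702400) (.ev (nat_lit 5524) (nat_lit 36893488147419103240) (.ev (nat_lit 5568) (nat_lit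
 281474976710656) (.ev (nat_lit 5581) (nat_lit 16777216) .dd)))))) (.br (nat_lit 33) (.ch (nat_lit 32) (.ev
 (nat_lit 3696) (nat_lit 36893787215118729224) (.ev (nat_lit 5712) (nat_lit 2147483648) (.ev (nat_lit 5728)
 (nat_lit 1180591620717428080640) .dd)))) (.ch (nat_lit 33) (.ev (nat_lit 3696) (nat_lit
 1180591919786721542152) (.ev (nat_lit 3732) (nat_lit 16777216) (.ev (nat_lit 3780) (nat_lit 536870912) (.ev
 (nat_lit 3789) (nat_lit 36893488147419103232) .dd))))))) (.br (nat_lit 39) (.br (nat_lit 35) (.ch (nat_lit 34)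
 (.ev (nat_lit 3696) (nat_lit 299069847109640) (.ev (nat_lit 3780) (nat_lit 1180591620717411303424) (.ev
 (nat_lit 5700) (nat_lit 36893488147419103232) (.ev (nat_lit 5709) (nat_lit 16777216) .dd))))) (.ch (nat_lit
 35) (.ev (nat_lit 3696) (nat_lit 1217485407931993161736) (.ev (nat_lit 3828) (nat_lit 2147483648) (.ev
 (nat_lit 4932) (nat_lit 16777216) (.ev (nat_lit 4941) (nat_lit 536870912) .dd)))))) (.br (nat_lit 40) (.ch
 (nat_lit 39) (.ev (nat_lit 3696) (nat_lit 1217485407931993161736) (.ev (nat_lit 3780) (nat_lit 16777216) (.ev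
 (nat_lit 3828) (nat_lit 536870912) (.ev (nat_lit 3837) (nat_lit 2147483648) .dd))))) (.br (nat_lit 42) (.ch
 (nat_lit 40) (.ev (nat_lit 3696) (nat_lit 1180591919787275190280) (.ev (nat_lit 3709) (nat_lit
 36893488147419103232) .dd))) (.ch (nat_lit 42) (.ev (nat_lit 3696) (nat_lit 36893488149583364096) (.ev
 (nat_lit 4212) (nat_lit 281474976710656) (.ev (nat_lit 4820) (nat_lit 8) (.ev (nat_lit 5648) (nat_lit
 1180591620717411303424) (.ev (nat_lit 5700) (nat_lit 536870912) (.ev (nat_lit 5709) (nat_lit 17592186044416)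
 .dd)))))))))))))))))))))))) (.br (nat_lit 40) (.br (nat_lit 39) (.ch (nat_lit 38) (.ev (nat_lit 52) (nat_lit
 1180754471585772470560) (.ev (nat_lit 256) (nat_lit 502972425357546750088) .dd))) (.ch (nat_lit 39) (.ev
 (nat_lit 52) (nat_lit 498496124406934798720) (.ev (nat_lit 116) (nat_lit 4611686018427387904) (.ev (nat_lit
 436) (nat_lit 67108864) (.ev (nat_lit 596) (nat_lit 9007199254740992) (.ev (nat_lit 788) (nat_lit
 140737488355328) (.ev (nat_lit 1716) (nat_lit 17592186044416) (.ev (nat_lit 3520) (nat_lit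
 1180609920988960784424) .dd))))))))) (.br (nat_lit 41) (.ch (nat_lit 40) (.ev (nat_lit 52) (nat_lit
 461457553500737110432) (.ev (nat_lit 212) (nat_lit 18014398509481984) (.ev (nat_lit 820) (nat_lit 536870912)
 (.ev (nat_lit 1940) (nat_lit 144115188075855872) (.ev (nat_lit 2464) (nat_lit 1222107213855459901448)
 .dd)))))) (.ch (nat_lit 41) (.ev (nat_lit 52) (nat_lit 300049374084371841032) (.ev (nat_lit 276) (nat_lit
 144115188075855872) (.ev (nat_lit 960) (nat_lit 1383533407670871523744) .dd))))))) (.br (nat_lit 47) (.br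
 (nat_lit 44) (.br (nat_lit 43) (.ch (nat_lit 42) (.ev (nat_lit 52) (nat_lit 207670271890419613696) (.ev
 (nat_lit 756) (nat_lit 17592186044416) (.ev (nat_lit 1300) (nat_lit 256) (.ev (nat_lit 1364) (nat_lit 524288)
 (.ev (nat_lit 1492) (nat_lit 1125899906842624) (.ev (nat_lit 1940) (nat_lit 140737488355328) (.ev (nat_lit
 2068) (nat_lit 536870912) (.ev (nat_lit 2132) (nat_lit 2147483648) (.ev (nat_lit 2164) (nat_lit
 1180591620717411303424) (.nd (nat_lit 3680) (.br (nat_lit 25) (.br (nat_lit 15) (.br (nat_lit 8) (.br (nat_lit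
 6) (.ch (nat_lit 1) (.ev (nat_lit 3696) (nat_lit 295166482527815729288) (.ev (nat_lit 3732) (nat_lit
 9007199254741024) (.ev (nat_lit 3741) (nat_lit 288230376151711744) .dd)))) (.ch (nat_lit 6) (.ev (nat_lit
 3696) (nat_lit 295436698505457959080) (.ev (nat_lit 5744) (nat_lit 18014398509481984) (.ev (nat_lit 5757)
 (nat_lit 9007199254740992) .dd))))) (.br (nat_lit 9) (.ch (nat_lit 8) (.ev (nat_lit 3696) (nat_lit
 315814923869356192) (.ev (nat_lit 5524) (nat_lit 295147905179352825856) (.ev (nat_lit 5533) (nat_lit 8)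
 .dd)))) (.ch (nat_lit 9) (.ev (nat_lit 3696) (nat_lit 315814923869356200) (.ev (nat_lit 3709) (nat_lit
 295147905179352825856) .dd))))) (.br (nat_lit 17) (.br (nat_lit 16) (.ch (nat_lit 15) (.ev (nat_lit 3696)
 (nat_lit 295463157153268760712) (.ev (nat_lit 3732) (nat_lit 32) (.ev (nat_lit 3741) (nat_lit 562949953421312)
 .dd)))) (.ch (nat_lit 16) (.ev (nat_lit 3696) (nat_lit 295175489727070470184) (.ev (nat_lit 5296) (nat_lit
 128) (.ev (nat_lit 5309) (nat_lit 288230376151711744) .dd))))) (.br (nat_lit 18) (.ch (nat_lit 17) (.ev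
 (nat_lit 3696) (nat_lit 27584547717644320) (.ev (nat_lit 3892) (nat_lit 8) (.ev (nat_lit 5536) (nat_lit 128)
 (.ev (nat_lit 5824) (nat_lit 288230376151711744) (.ev (nat_lit 5837) (nat_lit 295147905179352825856) .dd))))))
 (.br (nat_lit 21) (.ch (nat_lit 18) (.ev (nat_lit 3696) (nat_lit 315251973915934888) (.ev (nat_lit 3780)
 (nat_lit 562949953421312) (.ev (nat_lit 3789) (nat_lit 295147905179352825856) .dd)))) (.ch (nat_lit 21) (.ev
 (nat_lit 3696) (nat_lit 295174926777117048840) (.ev (nat_lit 4784) (nat_lit 128) (.ev (nat_lit 5172) (nat_lit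
 32) (.ev (nat_lit 5524) (nat_lit 288230376151711744) (.ev (nat_lit 5533) (nat_lit 562949953421312)
 .dd)))))))))) (.br (nat_lit 36) (.br (nat_lit 33) (.br (nat_lit 30) (.ch (nat_lit 25) (.ev (nat_lit 3696)
 (nat_lit 295463720103222182048) (.ev (nat_lit 3709) (nat_lit 8) .dd))) (.ch (nat_lit 30) (.ev (nat_lit 3696)
 (nat_lit 295463720103222182048) (.ev (nat_lit 3709) (nat_lit 8) .dd)))) (.br (nat_lit 35) (.ch (nat_lit 33)
 (.ev (nat_lit 3696) (nat_lit 295445705704712700072) (.ev (nat_lit 3709) (nat_lit 18014398509481984) .dd)))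
 (.ch (nat_lit 35) (.ev (nat_lit 3696) (nat_lit 315814923869356200) (.ev (nat_lit 3709) (nat_lit
 295147905179352825856) .dd))))) (.br (nat_lit 38) (.br (nat_lit 37) (.ch (nat_lit 36) (.ev (nat_lit 3696)
 (nat_lit 295463720103222181928) (.ev (nat_lit 3709) (nat_lit 128) .dd))) (.ch (nat_lit 37) (.ev (nat_lit 3696)
 (nat_lit 295463157153268760712) (.ev (nat_lit 5700) (nat_lit 562949953421312) (.ev (nat_lit 5709) (nat_lit 32)
 .dd))))) (.br (nat_lit 44) (.ch (nat_lit 38) (.ev (nat_lit 3696) (nat_lit 315814923869356200) (.ev (nat_lit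
 3709) (nat_lit 295147905179352825856) .dd))) (.br (nat_lit 45) (.ch (nat_lit 44) (.ev (nat_lit 3696) (nat_lit
 295463720103222182048) (.ev (nat_lit 3709) (nat_lit 8) .dd))) (.ch (nat_lit 45) (.ev (nat_lit 3696) (nat_lit
 295463720103222182056) .dd)))))))))))))))))) (.ch (nat_lit 43) (.ev (nat_lit 52) (nat_lit
 184783823011129590016) (.ev (nat_lit 372) (nat_lit 18446744073709551616) (.ev (nat_lit 660) (nat_lit 128) (.ev
 (nat_lit 1076) (nat_lit 140737488355328) (.ev (nat_lit 2868) (nat_lit 32) (.ev (nat_lit 2900) (nat_lit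
 4194304) (.nd (nat_lit 3680) (.br (nat_lit 24) (.br (nat_lit 13) (.br (nat_lit 1) (.ch (nat_lit 0) (.ev
 (nat_lit 3696) (nat_lit 1480495890053824774144) (.ev (nat_lit 3732) (nat_lit 8) (.ev (nat_lit 5552) (nat_lit
 17592186044416) (.ev (nat_lit 5565) (nat_lit 281474976710656) .dd))))) (.br (nat_lit 6) (.ch (nat_lit 1) (.ev
 (nat_lit 3696) (nat_lit 1475740387913947414536) (.ev (nat_lit 5744) (nat_lit 4755801206503243776) (.ev
 (nat_lit 5757) (nat_lit 536870912) .dd)))) (.ch (nat_lit 6) (.ev (nat_lit 3696) (nat_lit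
 1475884503102560141320) (.ev (nat_lit 3709) (nat_lit 4611686018427387904) .dd))))) (.br (nat_lit 17) (.br
 (nat_lit 15) (.ch (nat_lit 13) (.ev (nat_lit 3696) (nat_lit 1475884503102493032456) (.ev (nat_lit 5700)
 (nat_lit 67108864) (.ev (nat_lit 5709) (nat_lit 4611686018427387904) .dd)))) (.ch (nat_lit 15) (.ev (nat_lit
 3696) (nat_lit 1480495907645473947656) (.ev (nat_lit 3732) (nat_lit 536870912) (.ev (nat_lit 3741) (nat_lit
 281474976710656) .dd))))) (.br (nat_lit 21) (.ch (nat_lit 17) (.ev (nat_lit 3696) (nat_lit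
 1180735753497673203712) (.ev (nat_lit 3780) (nat_lit 67108864) (.ev (nat_lit 5524) (nat_lit 562949953421312)
 (.ev (nat_lit 5700) (nat_lit 536870920) (.ev (nat_lit 5712) (nat_lit 281474976710656) (.ev (nat_lit 5728)
 (nat_lit 295147905179352825856) (.ev (nat_lit 5741) (nat_lit 4611686018427387904) .dd)))))))) (.ch (nat_lit
 21) (.ev (nat_lit 3696) (nat_lit 1480496189120920420352) (.ev (nat_lit 3732) (nat_lit 67108864) (.ev (nat_lit
 3741) (nat_lit 8) .dd))))))) (.br (nat_lit 31) (.br (nat_lit 26) (.br (nat_lit 25) (.ch (nat_lit 24) (.ev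
 (nat_lit 3696) (nat_lit 1480495890053824774144) (.ev (nat_lit 3780) (nat_lit 281474976710656) (.ev (nat_lit
 5268) (nat_lit 8) (.ev (nat_lit 5277) (nat_lit 17592186044416) .dd))))) (.ch (nat_lit 25) (.ev (nat_lit 3696)
 (nat_lit 1480495626171034107904) (.ev (nat_lit 5744) (nat_lit 562949953421320) .dd)))) (.br (nat_lit 29) (.ch
 (nat_lit 26) (.ev (nat_lit 3696) (nat_lit 1185348283941634703368) (.ev (nat_lit 3709) (nat_lit
 295147905179352825856) .dd))) (.ch (nat_lit 29) (.ev (nat_lit 3696) (nat_lit 299904550811390181376) (.ev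
 (nat_lit 4772) (nat_lit 17592186044416) (.ev (nat_lit 5776) (nat_lit 8) (.ev (nat_lit 5789) (nat_lit
 1180591620717411303424) .dd))))))) (.br (nat_lit 39) (.br (nat_lit 37) (.ch (nat_lit 31) (.ev (nat_lit 3696)
 (nat_lit 299904568402972246016) (.ev (nat_lit 3732) (nat_lit 603979776) (.ev (nat_lit 4820) (nat_lit
 1180591620717411303424) (.ev (nat_lit 4829) (nat_lit 8) .dd))))) (.ch (nat_lit 37) (.ev (nat_lit 3696)
 (nat_lit 1480351792457934962696) (.ev (nat_lit 4820) (nat_lit 144115188075855872) (.ev (nat_lit 4829) (nat_lit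
 281474976710656) .dd))))) (.br (nat_lit 45) (.ch (nat_lit 39) (.ev (nat_lit 3696) (nat_lit
 299760453214896390152) (.ev (nat_lit 3744) (nat_lit 144115188075855872) (.ev (nat_lit 3780) (nat_lit
 536870912) (.ev (nat_lit 4212) (nat_lit 1180591620717411303424) (.ev (nat_lit 4221) (nat_lit 67108864)
 .dd)))))) (.ch (nat_lit 45) (.ev (nat_lit 3696) (nat_lit 1480352056340725628936) (.ev (nat_lit 5744) (nat_lit
 17592186044416) (.ev (nat_lit 5757) (nat_lit 144115188075855872) .dd))))))))))))))))) (.br (nat_lit 46) (.ch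
 (nat_lit 44) (.ev (nat_lit 52) (nat_lit 1185204736101513167144) (.ev (nat_lit 212) (nat_lit
 295147905179352825856) (.ev (nat_lit 436) (nat_lit 18014398509481984) (.ev (nat_lit 468) (nat_lit
 18446744073709551616) (.ev (nat_lit 852) (nat_lit 140737488355328) (.ev (nat_lit 1588) (nat_lit 2147483648)
 (.ev (nat_lit 2292) (nat_lit 288230376151711744) (.ev (nat_lit 3156) (nat_lit 9007199254740992) (.nd (nat_lit
 3680) (.br (nat_lit 30) (.br (nat_lit 18) (.br (nat_lit 8) (.ch (nat_lit 6) (.ev (nat_lit 3696) (nat_lit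
 37038166285515489280) (.ev (nat_lit 4852) (nat_lit 147573952589676412928) (.ev (nat_lit 4861) (nat_lit 128)
 .dd)))) (.br (nat_lit 13) (.ch (nat_lit 8) (.ev (nat_lit 3696) (nat_lit 184612118875191902336) .dd)) (.ch
 (nat_lit 13) (.ev (nat_lit 3696) (nat_lit 184612118875124793344) (.ev (nat_lit 4244) (nat_lit 67108864) (.ev
 (nat_lit 4253) (nat_lit 128) .dd)))))) (.br (nat_lit 25) (.br (nat_lit 21) (.ch (nat_lit 18) (.ev (nat_lit
 3696) (nat_lit 184611555925238481024) (.ev (nat_lit 3709) (nat_lit 562949953421312) .dd))) (.ch (nat_lit 21)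
 (.ev (nat_lit 3696) (nat_lit 184612118875124793472) (.ev (nat_lit 3709) (nat_lit 67108864) .dd)))) (.br
 (nat_lit 29) (.ch (nat_lit 25) (.ev (nat_lit 3696) (nat_lit 184612118875191902336) .dd)) (.ch (nat_lit 29)
 (.ev (nat_lit 3696) (nat_lit 147718630727772799104) (.ev (nat_lit 3709) (nat_lit 36893488147419103232)
 .dd)))))) (.br (nat_lit 35) (.br (nat_lit 32) (.br (nat_lit 31) (.ch (nat_lit 30) (.ev (nat_lit 3696) (nat_lit
 184611555925238480896) (.ev (nat_lit 5776) (nat_lit 562949953421440) .dd))) (.ch (nat_lit 31) (.ev (nat_lit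
 3696) (nat_lit 184612118875124793472) (.ev (nat_lit 3709) (nat_lit 67108864) .dd)))) (.br (nat_lit 33) (.ch
 (nat_lit 32) (.ev (nat_lit 3696) (nat_lit 184467440737162625024) (.ev (nat_lit 3732) (nat_lit 128) (.ev
 (nat_lit 3936) (nat_lit 144115188075855872) (.ev (nat_lit 3949) (nat_lit 562949953421312) .dd))))) (.ch
 (nat_lit 33) (.ev (nat_lit 3696) (nat_lit 36894051097439633536) (.ev (nat_lit 3732) (nat_lit
 144115188075855872) (.ev (nat_lit 3741) (nat_lit 147573952589676412928) .dd)))))) (.br (nat_lit 42) (.br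
 (nat_lit 39) (.ch (nat_lit 35) (.ev (nat_lit 3696) (nat_lit 37038166285448380544) (.ev (nat_lit 3732) (nat_lit
 147573952589676412928) (.ev (nat_lit 3741) (nat_lit 67108864) .dd)))) (.ch (nat_lit 39) (.ev (nat_lit 3696)
 (nat_lit 184468003687048937600) (.ev (nat_lit 5584) (nat_lit 144115188075855872) (.ev (nat_lit 5597) (nat_lit
 67108864) .dd))))) (.br (nat_lit 44) (.ch (nat_lit 42) (.ev (nat_lit 3696) (nat_lit 184612118875191902208)
 (.ev (nat_lit 3709) (nat_lit 128) .dd))) (.ch (nat_lit 44) (.ev (nat_lit 3696) (nat_lit 184611555925238480896)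
 (.ev (nat_lit 4516) (nat_lit 128) (.ev (nat_lit 4525) (nat_lit 562949953421312) .dd)))))))))))))))))) (.ch
 (nat_lit 46) (.ev (nat_lit 52) (nat_lit 1678970796669581394048) (.ev (nat_lit 212) (nat_lit 8) (.ev (nat_lit
 1044) (nat_lit 4194304) (.ev (nat_lit 1332) (nat_lit 144115188075855872) (.ev (nat_lit 2004) (nat_lit
 4611686018427387904) (.ev (nat_lit 2356) (nat_lit 67108864) (.nd (nat_lit 3680) (.br (nat_lit 30) (.br
 (nat_lit 18) (.br (nat_lit 6) (.br (nat_lit 1) (.ch (nat_lit 0) (.ev (nat_lit 3696) (nat_lit 299067162755360)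
 (.ev (nat_lit 3709) (nat_lit 524288) .dd))) (.ch (nat_lit 1) (.ev (nat_lit 3696) (nat_lit 299067163279648)
 .dd))) (.br (nat_lit 9) (.ch (nat_lit 6) (.ev (nat_lit 3696) (nat_lit 281474977235232) (.ev (nat_lit 3709)
 (nat_lit 17592186044416) .dd))) (.ch (nat_lit 9) (.ev (nat_lit 3696) (nat_lit 299067163279392) (.ev (nat_lit
 3709) (nat_lit 256) .dd))))) (.br (nat_lit 25) (.br (nat_lit 21) (.ch (nat_lit 18) (.ev (nat_lit 3696)
 (nat_lit 281474977235200) (.ev (nat_lit 3780) (nat_lit 32) (.ev (nat_lit 3789) (nat_lit 17592186044416)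
 .dd)))) (.ch (nat_lit 21) (.ev (nat_lit 3696) (nat_lit 299067163279392) (.ev (nat_lit 3709) (nat_lit 256)
 .dd)))) (.br (nat_lit 26) (.ch (nat_lit 25) (.ev (nat_lit 3696) (nat_lit 281474976710688) (.ev (nat_lit 3732)
 (nat_lit 524288) (.ev (nat_lit 5012) (nat_lit 256) (.ev (nat_lit 5021) (nat_lit 17592186044416) .dd))))) (.br
 (nat_lit 29) (.ch (nat_lit 26) (.ev (nat_lit 3696) (nat_lit 299067163279392) (.ev (nat_lit 3709) (nat_lit 256)
 .dd))) (.ch (nat_lit 29) (.ev (nat_lit 3696) (nat_lit 281474977235232) (.ev (nat_lit 3709) (nat_lit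
 17592186044416) .dd))))))) (.br (nat_lit 36) (.br (nat_lit 34) (.br (nat_lit 32) (.ch (nat_lit 30) (.ev
 (nat_lit 3696) (nat_lit 299067163279648) .dd)) (.ch (nat_lit 32) (.ev (nat_lit 3696) (nat_lit 299067163279616)
 (.ev (nat_lit 3709) (nat_lit 32) .dd)))) (.br (nat_lit 35) (.ch (nat_lit 34) (.ev (nat_lit 3696) (nat_lit
 524320) (.ev (nat_lit 5524) (nat_lit 256) (.ev (nat_lit 5856) (nat_lit 299067162755072) .dd)))) (.ch (nat_lit
 35) (.ev (nat_lit 3696) (nat_lit 299067162755360) (.ev (nat_lit 3709) (nat_lit 524288) .dd))))) (.br (nat_lit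
 39) (.br (nat_lit 38) (.ch (nat_lit 36) (.ev (nat_lit 3696) (nat_lit 281474977235232) (.ev (nat_lit 3709)
 (nat_lit 17592186044416) .dd))) (.ch (nat_lit 38) (.ev (nat_lit 3696) (nat_lit 299067162755104) (.ev (nat_lit
 3732) (nat_lit 256) (.ev (nat_lit 3741) (nat_lit 524288) .dd))))) (.br (nat_lit 42) (.ch (nat_lit 39) (.ev
 (nat_lit 3696) (nat_lit 17592186568960) (.ev (nat_lit 5600) (nat_lit 281474976710656) (.ev (nat_lit 5613)
 (nat_lit 32) .dd)))) (.br (nat_lit 44) (.ch (nat_lit 42) (.ev (nat_lit 3696) (nat_lit 17592186568736) (.ev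
 (nat_lit 3732) (nat_lit 256) (.ev (nat_lit 3741) (nat_lit 281474976710656) .dd)))) (.ch (nat_lit 44) (.ev
 (nat_lit 3696) (nat_lit 299067162755328) (.ev (nat_lit 3744) (nat_lit 524288) (.ev (nat_lit 3757) (nat_lit 32)
 .dd))))))))))))))))))) (.br (nat_lit 49) (.br (nat_lit 48) (.ch (nat_lit 47) (.ev (nat_lit 52) (nat_lit
 1235933559380674347176) (.ev (nat_lit 1044) (nat_lit 9007199254740992) (.ev (nat_lit 1056) (nat_lit
 447784330363390132480) .dd)))) (.ch (nat_lit 48) (.ev (nat_lit 52) (nat_lit 184612000130574319656) (.ev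
 (nat_lit 1364) (nat_lit 256) (.ev (nat_lit 1652) (nat_lit 67108864) (.ev (nat_lit 1920) (nat_lit
 1499114896812677791872) .dd)))))) (.br (nat_lit 50) (.ch (nat_lit 49) (.ev (nat_lit 52) (nat_lit
 152186500625291804800) (.ev (nat_lit 192) (nat_lit 1531540396318027415848) .dd))) (.br (nat_lit 52) (.ch
 (nat_lit 50) (.ev (nat_lit 52) (nat_lit 451063652347281568) (.ev (nat_lit 628) (nat_lit 4611686018427387904)
 (.ev (nat_lit 1172) (nat_lit 536870912) (.ev (nat_lit 1268) (nat_lit 524288) (.ev (nat_lit 1652) (nat_lit 8)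
 (.ev (nat_lit 2100) (nat_lit 17592186044416) (.ev (nat_lit 2356) (nat_lit 1125899906842624) (.ev (nat_lit
 2644) (nat_lit 256) (.ev (nat_lit 2900) (nat_lit 9007199254740992) (.ev (nat_lit 3540) (nat_lit 4398046511104)
 (.ev (nat_lit 3572) (nat_lit 281474976710656) (.nd (nat_lit 3680) (.br (nat_lit 33) (.br (nat_lit 15) (.br
 (nat_lit 9) (.br (nat_lit 1) (.ch (nat_lit 0) (.ev (nat_lit 3696) (nat_lit 1346612317380864376832) (.ev
 (nat_lit 3732) (nat_lit 295147905179352825856) (.ev (nat_lit 3741) (nat_lit 36893488147419103232) .dd)))) (.ch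
 (nat_lit 1) (.ev (nat_lit 3696) (nat_lit 461168601842805899264) (.ev (nat_lit 4448) (nat_lit
 1180591620717411303424) (.ev (nat_lit 4461) (nat_lit 36893488147419103232) .dd))))) (.br (nat_lit 13) (.ch
 (nat_lit 9) (.ev (nat_lit 3696) (nat_lit 1383505805528283480064) (.ev (nat_lit 3709) (nat_lit
 295147905179352825856) .dd))) (.ch (nat_lit 13) (.ev (nat_lit 3696) (nat_lit 1365059061454573928448) (.ev
 (nat_lit 5700) (nat_lit 295147905179352825856) (.ev (nat_lit 5709) (nat_lit 18446744073709551616) .dd))))))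
 (.br (nat_lit 29) (.br (nat_lit 21) (.ch (nat_lit 15) (.ev (nat_lit 3696) (nat_lit 1641760222560150093824)
 (.ev (nat_lit 3892) (nat_lit 36893488147419103232) (.ev (nat_lit 3901) (nat_lit 67108864) .dd)))) (.ch
 (nat_lit 21) (.ev (nat_lit 3696) (nat_lit 1660206966633926754304) (.ev (nat_lit 3709) (nat_lit
 18446744073709551616) .dd)))) (.br (nat_lit 30) (.ch (nat_lit 29) (.ev (nat_lit 3696) (nat_lit
 479615345916515450880) (.ev (nat_lit 4432) (nat_lit 18446744073709551616) (.ev (nat_lit 4445) (nat_lit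
 1180591620717411303424) .dd)))) (.br (nat_lit 31) (.ch (nat_lit 30) (.ev (nat_lit 3696) (nat_lit
 1346612317380864376832) (.ev (nat_lit 3732) (nat_lit 36893488147419103232) (.ev (nat_lit 3741) (nat_lit
 295147905179352825856) .dd)))) (.ch (nat_lit 31) (.ev (nat_lit 3696) (nat_lit 1383505805528216371200) (.ev
 (nat_lit 3732) (nat_lit 295147905179352825856) (.ev (nat_lit 3741) (nat_lit 67108864) .dd)))))))) (.br
 (nat_lit 39) (.br (nat_lit 36) (.br (nat_lit 34) (.ch (nat_lit 33) (.ev (nat_lit 3696) (nat_lit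
 18446744073776660480) (.ev (nat_lit 3828) (nat_lit 147573952589676412928) (.ev (nat_lit 4516) (nat_lit
 36893488147419103232) (.ev (nat_lit 5536) (nat_lit 1475739525896764129280) .dd))))) (.ch (nat_lit 34) (.ev
 (nat_lit 3696) (nat_lit 350488137400548589568) (.ev (nat_lit 3732) (nat_lit 147573952589676412928) (.ev
 (nat_lit 3741) (nat_lit 1180591620717411303424) .dd))))) (.br (nat_lit 37) (.ch (nat_lit 36) (.ev (nat_lit
 3696) (nat_lit 350488137400481480704) (.ev (nat_lit 3956) (nat_lit 147573952589676412928) (.ev (nat_lit 5024)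
 (nat_lit 1180591620717411303424) (.ev (nat_lit 5037) (nat_lit 67108864) .dd))))) (.ch (nat_lit 37) (.ev
 (nat_lit 3696) (nat_lit 498062089990157893632) (.ev (nat_lit 3732) (nat_lit 1180591620717411303424) (.ev
 (nat_lit 3741) (nat_lit 67108864) .dd)))))) (.br (nat_lit 42) (.br (nat_lit 40) (.ch (nat_lit 39) (.ev
 (nat_lit 3696) (nat_lit 1623313478486440542208) (.ev (nat_lit 4964) (nat_lit 18446744073709551616) (.ev
 (nat_lit 5268) (nat_lit 67108864) (.ev (nat_lit 5277) (nat_lit 36893488147419103232) .dd))))) (.ch (nat_lit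
 40) (.ev (nat_lit 3696) (nat_lit 1475739525896831238144) (.ev (nat_lit 5536) (nat_lit 36893488147419103232)
 (.ev (nat_lit 5700) (nat_lit 18446744073709551616) (.ev (nat_lit 5709) (nat_lit 147573952589676412928)
 .dd)))))) (.br (nat_lit 44) (.ch (nat_lit 42) (.ev (nat_lit 3696) (nat_lit 350488137400548589568) (.ev
 (nat_lit 4272) (nat_lit 147573952589676412928) (.ev (nat_lit 4285) (nat_lit 1180591620717411303424) .dd))))
 (.br (nat_lit 45) (.ch (nat_lit 44) (.ev (nat_lit 3696) (nat_lit 1660206966633926754304) (.ev (nat_lit 3709)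
 (nat_lit 18446744073709551616) .dd))) (.ch (nat_lit 45) (.ev (nat_lit 3696) (nat_lit 1383505805528283480064)
 (.ev (nat_lit 3709) (nat_lit 295147905179352825856) .dd))))))))))))))))))))) (.ch (nat_lit 52) (.ev (nat_lit
 52) (nat_lit 350498551975223755144) (.ev (nat_lit 244) (nat_lit 17592186044416) (.ev (nat_lit 276) (nat_lit
 4398046511104) (.ev (nat_lit 468) (nat_lit 16777216) (.ev (nat_lit 1076) (nat_lit 144115188075855872) (.ev
 (nat_lit 1108) (nat_lit 4194304) (.ev (nat_lit 1428) (nat_lit 32) (.ev (nat_lit 1620) (nat_lit 2147483648)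
 (.ev (nat_lit 2388) (nat_lit 1180591620717411303424) (.ev (nat_lit 2868) (nat_lit 562949953421312) (.nd
 (nat_lit 3680) (.br (nat_lit 31) (.br (nat_lit 17) (.br (nat_lit 15) (.br (nat_lit 13) (.ch (nat_lit 0) (.ev
 (nat_lit 3696) (nat_lit 288371113640591360) (.ev (nat_lit 5424) (nat_lit 18014398509481984) (.ev (nat_lit
 5584) (nat_lit 4611686018427387904) (.ev (nat_lit 5597) (nat_lit 147573952589676412928) .dd))))) (.ch (nat_lit
 13) (.ev (nat_lit 3696) (nat_lit 147880338101825961984) (.ev (nat_lit 5700) (nat_lit 524288) (.ev (nat_lit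
 5709) (nat_lit 4611686018427387904) .dd))))) (.br (nat_lit 16) (.ch (nat_lit 15) (.ev (nat_lit 3696) (nat_lit
 152474009721743867904) (.ev (nat_lit 3780) (nat_lit 18014398509481984) (.ev (nat_lit 3789) (nat_lit 524288)
 .dd)))) (.ch (nat_lit 16) (.ev (nat_lit 3696) (nat_lit 306244774661718016) (.ev (nat_lit 5360) (nat_lit
 140737488355328) (.ev (nat_lit 5456) (nat_lit 147573952589676412928) (.ev (nat_lit 5469) (nat_lit
 4611686018427387904) .dd))))))) (.br (nat_lit 25) (.br (nat_lit 24) (.ch (nat_lit 17) (.ev (nat_lit 3696)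
 (nat_lit 152473868984256036864) (.fin (nat_lit 576462401572389439)))) (.ch (nat_lit 24) (.ev (nat_lit 3696)
 (nat_lit 152185638608104325120) (.ev (nat_lit 3732) (nat_lit 18014398509481984) (.ev (nat_lit 4036) (nat_lit
 288230376151711744) (.ev (nat_lit 4045) (nat_lit 140737488355328) .dd)))))) (.br (nat_lit 29) (.ch (nat_lit
 25) (.ev (nat_lit 3696) (nat_lit 4918071530576936960) (.ev (nat_lit 5728) (nat_lit 524288) (.ev (nat_lit 5741)
 (nat_lit 147573952589676412928) .dd)))) (.ch (nat_lit 29) (.ev (nat_lit 3696) (nat_lit 152203793744102162432)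
 (.ev (nat_lit 3709) (nat_lit 288230376151711744) .dd)))))) (.br (nat_lit 39) (.br (nat_lit 35) (.br (nat_lit
 34) (.ch (nat_lit 31) (.ev (nat_lit 3696) (nat_lit 152203793744102162432) (.ev (nat_lit 3709) (nat_lit
 288230376151711744) .dd))) (.ch (nat_lit 34) (.ev (nat_lit 3696) (nat_lit 152491883382765518848) (.ev (nat_lit
 3709) (nat_lit 140737488355328) .dd)))) (.br (nat_lit 38) (.ch (nat_lit 35) (.ev (nat_lit 3696) (nat_lit
 152203793744101638144) (.ev (nat_lit 5524) (nat_lit 524288) (.ev (nat_lit 5533) (nat_lit 288230376151711744)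
 .dd)))) (.ch (nat_lit 38) (.ev (nat_lit 3696) (nat_lit 152492024120253349888) (.ev (nat_lit 3709) (nat_lit
 524288) .dd))))) (.br (nat_lit 42) (.br (nat_lit 40) (.ch (nat_lit 39) (.ev (nat_lit 3696) (nat_lit
 147880197364338130944) (.ev (nat_lit 3732) (nat_lit 4611686018427387904) (.ev (nat_lit 3741) (nat_lit
 140737488355328) .dd)))) (.ch (nat_lit 40) (.ev (nat_lit 3696) (nat_lit 152203793744102162432) (.ev (nat_lit
 3709) (nat_lit 288230376151711744) .dd)))) (.br (nat_lit 44) (.ch (nat_lit 42) (.ev (nat_lit 3696) (nat_lit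
 4900057132067979264) (.ev (nat_lit 4052) (nat_lit 18014398509481984) (.ev (nat_lit 4061) (nat_lit
 147573952589676412928) .dd)))) (.ch (nat_lit 44) (.ev (nat_lit 3696) (nat_lit 306385512150073344) (.ev
 (nat_lit 3828) (nat_lit 4611686018427387904) (.ev (nat_lit 3837) (nat_lit 147573952589676412928)
 .dd))))))))))))))))))))))))))))

/-- The trie. -/
noncomputable def T : Tr := .nd (nat_lit 1000000) (.br (nat_lit 15) (.br (nat_lit 7) (.br (nat_lit 3) (.br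
 (nat_lit 1) (.ch (nat_lit 0) (.ev (nat_lit 0) (nat_lit 2361183241434822606847) .dd)) (.br (nat_lit 2) (.ch
 (nat_lit 1) T1) (.ch (nat_lit 2) T2))) (.br (nat_lit 4) (.ch (nat_lit 3) T3) (.br (nat_lit 6) (.ch (nat_lit 4)
 (.ev (nat_lit 0) (nat_lit 2361183241434822606847) .dd)) (.ch (nat_lit 6) (.ev (nat_lit 0) (nat_lit
 2361183241434822606847) .dd))))) (.br (nat_lit 10) (.br (nat_lit 8) (.ch (nat_lit 7) (.ev (nat_lit 0) (nat_lit
 2361183241434822606847) .dd)) (.br (nat_lit 9) (.ch (nat_lit 8) (.ev (nat_lit 0) (nat_lit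
 2361183241434822606847) .dd)) (.ch (nat_lit 9) T9))) (.br (nat_lit 12) (.ch (nat_lit 10) (.ev (nat_lit 0)
 (nat_lit 2361183241434822606847) .dd)) (.br (nat_lit 13) (.ch (nat_lit 12) T12) (.ch (nat_lit 13) (.ev
 (nat_lit 0) (nat_lit 2361183241434822606847) .dd)))))) (.br (nat_lit 30) (.br (nat_lit 19) (.br (nat_lit 17)
 (.ch (nat_lit 15) T15) (.br (nat_lit 18) (.ch (nat_lit 17) (.ev (nat_lit 0) (nat_lit 2361183241434822606847)
 .dd)) (.ch (nat_lit 18) T18))) (.br (nat_lit 23) (.ch (nat_lit 19) T19) (.br (nat_lit 24) (.ch (nat_lit 23)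
 (.ev (nat_lit 0) (nat_lit 2361183241434822606847) .dd)) (.ch (nat_lit 24) (.ev (nat_lit 0) (nat_lit
 2361183241434822606847) .dd))))) (.br (nat_lit 39) (.br (nat_lit 34) (.ch (nat_lit 30) (.ev (nat_lit 0)
 (nat_lit 2361183241434822606847) .dd)) (.br (nat_lit 37) (.ch (nat_lit 34) (.ev (nat_lit 0) (nat_lit
 2361183241434822606847) .dd)) (.ch (nat_lit 37) (.ev (nat_lit 0) (nat_lit 2361183241434822606847) .dd)))) (.br
 (nat_lit 41) (.br (nat_lit 40) (.ch (nat_lit 39) (.ev (nat_lit 0) (nat_lit 2361183241434822606847) .dd)) (.ch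
 (nat_lit 40) (.ev (nat_lit 0) (nat_lit 2361183241434822606847) .dd))) (.br (nat_lit 43) (.ch (nat_lit 41) (.ev
 (nat_lit 0) (nat_lit 2361183241434822606847) .dd)) (.ch (nat_lit 43) (.ev (nat_lit 0) (nat_lit
 2361183241434822606847) .dd)))))))

/-- The possible values. -/
noncomputable def oks : List ℕ := [7, 307, 706]

/-- The parameters. -/
noncomputable def S : Pr := ⟨fun i l e => lget mz (lget [] (lget [] tabs i) l) e, oks, [(nat_lit 0), (nat_lit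
 1), (nat_lit 0)], T, (nat_lit 2361183241434822606847), (nat_lit 87122173451996128837), (nat_lit 71), [(nat_lit
 12800101590481), (nat_lit 2287041271849359)], [(nat_lit 2209), (nat_lit 2809)]⟩

/-- Nothing known. -/
noncomputable def cs0 : Cs := (.cons (nat_lit 47) (nat_lit 0) (nat_lit 1) (.cons (nat_lit 53) (nat_lit 0) (nat_lit 1) .nil))

theorem part_1 : part S cs0 (nat_lit 1) = true := by decide +kernel

theorem part_2 : part S cs0 (nat_lit 2) = true := by decide +kernel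

theorem part_3 : part S cs0 (nat_lit 3) = true := by decide +kernel

theorem part_9 : part S cs0 (nat_lit 9) = true := by decide +kernel

theorem part_12 : part S cs0 (nat_lit 12) = true := by decide +kernel

theorem part_15 : part S cs0 (nat_lit 15) = true := by decide +kernel

theorem part_18 : part S cs0 (nat_lit 18) = true := by decide +kernel

theorem part_19 : part S cs0 (nat_lit 19) = true := by decide +kernel

/-- Data of a prime. -/
noncomputable def D0 : PD := ⟨(nat_lit 47), (nat_lit 2), (1034, 1, 9), (105, 517, 2039), (987, 5, 190)⟩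

theorem D0_ok : D0.Ok := pdb_sound (s := 1) (C := ⟨⟨47, 2, -76, 47, -2, 29, 0, -21, -1⟩, (2, 45, 26)⟩) (by show Nat.Prime 47; norm_num) (by decide +kernel)

/-- Lines of the first type. -/
noncomputable def Cl0 : List C1 := [⟨⟨47, -2, -76, 47, 2, 29, 0, 21, -1⟩, (9, 38, 23)⟩,
  ⟨⟨0, 0, 0, 0, 0, 0, 0, 0, 0⟩, (0, 0, 0)⟩,
  ⟨⟨0, 0, 0, 0, 0, 0, 0, 0, 0⟩, (0, 0, 0)⟩,
  ⟨⟨0, 0, 0, 0, 0, 0, 0, 0, 0⟩, (0, 0, 0)⟩,
  ⟨⟨17, 22, -76, -63, 18, 19, -4, -19, -7⟩, (10, 21, 17)⟩,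
  ⟨⟨0, 0, 0, 0, 0, 0, 0, 0, 0⟩, (0, 0, 0)⟩,
  ⟨⟨57, -18, -61, -23, -62, 4, -8, 5, -17⟩, (3, 26, 7)⟩,
  ⟨⟨57, 18, -61, -23, 62, 4, -8, -5, -17⟩, (16, 29, 6)⟩,
  ⟨⟨53, -22, -64, -13, -62, 29, -12, -3, -13⟩, (46, 10, 2)⟩,
  ⟨⟨0, 0, 0, 0, 0, 0, 0, 0, 0⟩, (0, 0, 0)⟩,
  ⟨⟨43, -38, -59, 3, -42, 56, -16, -11, -1⟩, (35, 9, 46)⟩,
  ⟨⟨0, 0, 0, 0, 0, 0, 0, 0, 0⟩, (0, 0, 0)⟩,
  ⟨⟨0, 0, 0, 0, 0, 0, 0, 0, 0⟩, (0, 0, 0)⟩,
  ⟨⟨-17, -22, -59, -63, 18, 44, 4, 19, -11⟩, (15, 39, 2)⟩,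
  ⟨⟨0, 0, 0, 0, 0, 0, 0, 0, 0⟩, (0, 0, 0)⟩,
  ⟨⟨0, 0, 0, 0, 0, 0, 0, 0, 0⟩, (0, 0, 0)⟩,
  ⟨⟨0, 0, 0, 0, 0, 0, 0, 0, 0⟩, (0, 0, 0)⟩,
  ⟨⟨53, 22, -64, -13, 62, 29, -12, 3, -13⟩, (41, 13, 12)⟩,
  ⟨⟨0, 0, 0, 0, 0, 0, 0, 0, 0⟩, (0, 0, 0)⟩,
  ⟨⟨0, 0, 0, 0, 0, 0, 0, 0, 0⟩, (0, 0, 0)⟩,
  ⟨⟨0, 0, 0, 0, 0, 0, 0, 0, 0⟩, (0, 0, 0)⟩,
  ⟨⟨0, 0, 0, 0, 0, 0, 0, 0, 0⟩, (0, 0, 0)⟩,
  ⟨⟨0, 0, 0, 0, 0, 0, 0, 0, 0⟩, (0, 0, 0)⟩,
  ⟨⟨43, 38, -59, 3, 42, 56, -16, 11, -1⟩, (5, 8, 20)⟩,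
  ⟨⟨3, -42, -59, 43, -38, 16, 16, 11, -17⟩, (39, 42, 20)⟩,
  ⟨⟨0, 0, 0, 0, 0, 0, 0, 0, 0⟩, (0, 0, 0)⟩,
  ⟨⟨0, 0, 0, 0, 0, 0, 0, 0, 0⟩, (0, 0, 0)⟩,
  ⟨⟨0, 0, 0, 0, 0, 0, 0, 0, 0⟩, (0, 0, 0)⟩,
  ⟨⟨0, 0, 0, 0, 0, 0, 0, 0, 0⟩, (0, 0, 0)⟩,
  ⟨⟨0, 0, 0, 0, 0, 0, 0, 0, 0⟩, (0, 0, 0)⟩,
  ⟨⟨-13, -62, -16, 53, -22, 11, 12, 3, -25⟩, (34, 6, 12)⟩,
  ⟨⟨0, 0, 0, 0, 0, 0, 0, 0, 0⟩, (0, 0, 0)⟩,
  ⟨⟨0, 0, 0, 0, 0, 0, 0, 0, 0⟩, (0, 0, 0)⟩,
  ⟨⟨0, 0, 0, 0, 0, 0, 0, 0, 0⟩, (0, 0, 0)⟩,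
  ⟨⟨17, -22, -76, -63, -18, 19, -4, 19, -7⟩, (15, 8, 2)⟩,
  ⟨⟨0, 0, 0, 0, 0, 0, 0, 0, 0⟩, (0, 0, 0)⟩,
  ⟨⟨0, 0, 0, 0, 0, 0, 0, 0, 0⟩, (0, 0, 0)⟩,
  ⟨⟨3, 42, -59, 43, 38, 16, 16, -11, -17⟩, (38, 12, 46)⟩,
  ⟨⟨0, 0, 0, 0, 0, 0, 0, 0, 0⟩, (0, 0, 0)⟩,
  ⟨⟨-13, 62, -16, 53, 22, 11, 12, -3, -25⟩, (37, 1, 2)⟩,
  ⟨⟨23, 62, -19, 57, -18, 4, 8, -5, -25⟩, (29, 31, 6)⟩,
  ⟨⟨23, -62, -19, 57, 18, 4, 8, 5, -25⟩, (26, 44, 7)⟩,
  ⟨⟨0, 0, 0, 0, 0, 0, 0, 0, 0⟩, (0, 0, 0)⟩,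
  ⟨⟨-17, 22, -59, -63, -18, 44, 4, -19, -11⟩, (10, 26, 17)⟩,
  ⟨⟨0, 0, 0, 0, 0, 0, 0, 0, 0⟩, (0, 0, 0)⟩,
  ⟨⟨0, 0, 0, 0, 0, 0, 0, 0, 0⟩, (0, 0, 0)⟩,
  ⟨⟨0, 0, 0, 0, 0, 0, 0, 0, 0⟩, (0, 0, 0)⟩]

/-- Data of a prime. -/
noncomputable def D1 : PD := ⟨(nat_lit 53), (nat_lit 2), (2545, 8, 14), (2610, 800, 1557), (1968, 957, 2439)⟩

theorem D1_ok : D1.Ok := pdb_sound (s := 12) (C := ⟨⟨-13, 2, -76, -47, -58, 31, 18, -15, -13⟩, (40, 6, 18)⟩) (by show Nat.Prime 53; norm_num) (by decide +kernel)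

/-- Lines of the first type. -/
noncomputable def Cl1 : List C1 := [⟨⟨13, -2, -89, -47, -58, 16, 18, -15, -5⟩, (17, 16, 48)⟩,
  ⟨⟨-23, 38, -56, 43, 58, 1, 18, -9, -23⟩, (9, 50, 16)⟩,
  ⟨⟨-23, -38, -56, 43, -58, 1, 18, 9, -23⟩, (18, 47, 32)⟩,
  ⟨⟨-13, -2, -76, -47, 58, 31, 18, 15, -13⟩, (20, 3, 9)⟩,
  ⟨⟨0, 0, 0, 0, 0, 0, 0, 0, 0⟩, (0, 0, 0)⟩,
  ⟨⟨0, 0, 0, 0, 0, 0, 0, 0, 0⟩, (0, 0, 0)⟩,
  ⟨⟨0, 0, 0, 0, 0, 0, 0, 0, 0⟩, (0, 0, 0)⟩,
  ⟨⟨23, -38, -79, -43, -58, 44, -18, 9, -5⟩, (29, 8, 28)⟩,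
  ⟨⟨33, -18, -89, 67, 2, 4, 2, 23, -7⟩, (12, 34, 20)⟩,
  ⟨⟨0, 0, 0, 0, 0, 0, 0, 0, 0⟩, (0, 0, 0)⟩,
  ⟨⟨0, 0, 0, 0, 0, 0, 0, 0, 0⟩, (0, 0, 0)⟩,
  ⟨⟨0, 0, 0, 0, 0, 0, 0, 0, 0⟩, (0, 0, 0)⟩,
  ⟨⟨0, 0, 0, 0, 0, 0, 0, 0, 0⟩, (0, 0, 0)⟩,
  ⟨⟨27, 42, -76, 7, 58, 49, 22, -7, -5⟩, (1, 14, 44)⟩,
  ⟨⟨33, 18, -89, 67, -2, 4, 2, -23, -7⟩, (44, 1, 38)⟩,
  ⟨⟨0, 0, 0, 0, 0, 0, 0, 0, 0⟩, (0, 0, 0)⟩,
  ⟨⟨0, 0, 0, 0, 0, 0, 0, 0, 0⟩, (0, 0, 0)⟩,
  ⟨⟨0, 0, 0, 0, 0, 0, 0, 0, 0⟩, (0, 0, 0)⟩,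
  ⟨⟨0, 0, 0, 0, 0, 0, 0, 0, 0⟩, (0, 0, 0)⟩,
  ⟨⟨57, 42, -56, -37, 62, 41, -10, 1, -19⟩, (20, 27, 3)⟩,
  ⟨⟨13, 2, -89, -47, 58, 16, 18, 15, -5⟩, (50, 19, 4)⟩,
  ⟨⟨0, 0, 0, 0, 0, 0, 0, 0, 0⟩, (0, 0, 0)⟩,
  ⟨⟨0, 0, 0, 0, 0, 0, 0, 0, 0⟩, (0, 0, 0)⟩,
  ⟨⟨57, -42, -56, -37, -62, 41, -10, -1, -19⟩, (16, 11, 13)⟩,
  ⟨⟨0, 0, 0, 0, 0, 0, 0, 0, 0⟩, (0, 0, 0)⟩,
  ⟨⟨7, 58, -56, 27, 42, 49, 22, -7, -17⟩, (20, 9, 25)⟩,
  ⟨⟨0, 0, 0, 0, 0, 0, 0, 0, 0⟩, (0, 0, 0)⟩,
  ⟨⟨67, -2, -71, 33, 18, 56, -2, 23, -5⟩, (28, 13, 49)⟩,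
  ⟨⟨0, 0, 0, 0, 0, 0, 0, 0, 0⟩, (0, 0, 0)⟩,
  ⟨⟨0, 0, 0, 0, 0, 0, 0, 0, 0⟩, (0, 0, 0)⟩,
  ⟨⟨23, 38, -79, -43, 58, 44, -18, -9, -5⟩, (20, 11, 12)⟩,
  ⟨⟨0, 0, 0, 0, 0, 0, 0, 0, 0⟩, (0, 0, 0)⟩,
  ⟨⟨7, -58, -56, 27, -42, 49, 22, 7, -17⟩, (17, 5, 8)⟩,
  ⟨⟨0, 0, 0, 0, 0, 0, 0, 0, 0⟩, (0, 0, 0)⟩,
  ⟨⟨67, 2, -71, 33, -18, 56, -2, -23, -5⟩, (8, 34, 14)⟩,
  ⟨⟨27, -42, -76, 7, -58, 49, 22, 7, -5⟩, (50, 11, 27)⟩,
  ⟨⟨0, 0, 0, 0, 0, 0, 0, 0, 0⟩, (0, 0, 0)⟩,
  ⟨⟨0, 0, 0, 0, 0, 0, 0, 0, 0⟩, (0, 0, 0)⟩,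
  ⟨⟨0, 0, 0, 0, 0, 0, 0, 0, 0⟩, (0, 0, 0)⟩,
  ⟨⟨0, 0, 0, 0, 0, 0, 0, 0, 0⟩, (0, 0, 0)⟩,
  ⟨⟨0, 0, 0, 0, 0, 0, 0, 0, 0⟩, (0, 0, 0)⟩,
  ⟨⟨0, 0, 0, 0, 0, 0, 0, 0, 0⟩, (0, 0, 0)⟩,
  ⟨⟨0, 0, 0, 0, 0, 0, 0, 0, 0⟩, (0, 0, 0)⟩,
  ⟨⟨0, 0, 0, 0, 0, 0, 0, 0, 0⟩, (0, 0, 0)⟩,
  ⟨⟨0, 0, 0, 0, 0, 0, 0, 0, 0⟩, (0, 0, 0)⟩,
  ⟨⟨-37, 62, -4, -57, -42, 1, 10, -1, -29⟩, (22, 21, 27)⟩,
  ⟨⟨0, 0, 0, 0, 0, 0, 0, 0, 0⟩, (0, 0, 0)⟩,
  ⟨⟨0, 0, 0, 0, 0, 0, 0, 0, 0⟩, (0, 0, 0)⟩,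
  ⟨⟨0, 0, 0, 0, 0, 0, 0, 0, 0⟩, (0, 0, 0)⟩,
  ⟨⟨0, 0, 0, 0, 0, 0, 0, 0, 0⟩, (0, 0, 0)⟩,
  ⟨⟨0, 0, 0, 0, 0, 0, 0, 0, 0⟩, (0, 0, 0)⟩,
  ⟨⟨-37, -62, -4, -57, 42, 1, 10, 1, -29⟩, (6, 25, 17)⟩,
  ⟨⟨0, 0, 0, 0, 0, 0, 0, 0, 0⟩, (0, 0, 0)⟩]

/-- Data of a prime. -/
noncomputable def Dm : PD := ⟨(nat_lit 71), (nat_lit 2), (72, 9, 33), (3977, 4536, 3372), (4173, 4400, 3526)⟩

theorem Dm_ok : Dm.Ok := pdb_sound (s := 11) (C := ⟨⟨59, 34, -112, -29, 94, 37, -24, -3, -11⟩, (59, 42, 47)⟩) (by show Nat.Prime 71; norm_num) (by decide +kernel)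

/-- Lines of the first type. -/
noncomputable def Clm : List C1 := [⟨⟨-59, -34, -53, 29, -94, 8, 24, 3, -35⟩, (17, 47, 34)⟩,
  ⟨⟨0, 0, 0, 0, 0, 0, 0, 0, 0⟩, (0, 0, 0)⟩,
  ⟨⟨49, -74, -77, 79, 14, 28, 12, 21, -29⟩, (59, 56, 13)⟩,
  ⟨⟨0, 0, 0, 0, 0, 0, 0, 0, 0⟩, (0, 0, 0)⟩,
  ⟨⟨0, 0, 0, 0, 0, 0, 0, 0, 0⟩, (0, 0, 0)⟩,
  ⟨⟨0, 0, 0, 0, 0, 0, 0, 0, 0⟩, (0, 0, 0)⟩,
  ⟨⟨79, -14, -107, 49, 74, 28, -12, 21, -17⟩, (44, 21, 5)⟩,
  ⟨⟨0, 0, 0, 0, 0, 0, 0, 0, 0⟩, (0, 0, 0)⟩,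
  ⟨⟨0, 0, 0, 0, 0, 0, 0, 0, 0⟩, (0, 0, 0)⟩,
  ⟨⟨39, 66, -92, -89, 46, 37, -8, -19, -23⟩, (13, 65, 21)⟩,
  ⟨⟨19, 46, -107, -91, -26, 8, 12, -27, -19⟩, (7, 30, 53)⟩,
  ⟨⟨0, 0, 0, 0, 0, 0, 0, 0, 0⟩, (0, 0, 0)⟩,
  ⟨⟨0, 0, 0, 0, 0, 0, 0, 0, 0⟩, (0, 0, 0)⟩,
  ⟨⟨99, 6, -67, 11, -94, 32, -4, -11, -31⟩, (13, 33, 59)⟩,
  ⟨⟨-39, -66, -53, -89, 46, 52, 8, 19, -31⟩, (17, 57, 22)⟩,
  ⟨⟨0, 0, 0, 0, 0, 0, 0, 0, 0⟩, (0, 0, 0)⟩,
  ⟨⟨0, 0, 0, 0, 0, 0, 0, 0, 0⟩, (0, 0, 0)⟩,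
  ⟨⟨19, -46, -107, -91, 26, 8, 12, 27, -19⟩, (15, 44, 2)⟩,
  ⟨⟨0, 0, 0, 0, 0, 0, 0, 0, 0⟩, (0, 0, 0)⟩,
  ⟨⟨0, 0, 0, 0, 0, 0, 0, 0, 0⟩, (0, 0, 0)⟩,
  ⟨⟨51, 66, -88, -59, 74, 67, -20, -5, -17⟩, (59, 64, 59)⟩,
  ⟨⟨49, 74, -77, 79, -14, 28, 12, -21, -29⟩, (6, 43, 29)⟩,
  ⟨⟨0, 0, 0, 0, 0, 0, 0, 0, 0⟩, (0, 0, 0)⟩,
  ⟨⟨0, 0, 0, 0, 0, 0, 0, 0, 0⟩, (0, 0, 0)⟩,
  ⟨⟨0, 0, 0, 0, 0, 0, 0, 0, 0⟩, (0, 0, 0)⟩,
  ⟨⟨31, 74, -83, -81, 54, 68, -16, -13, -19⟩, (8, 2, 60)⟩,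
  ⟨⟨0, 0, 0, 0, 0, 0, 0, 0, 0⟩, (0, 0, 0)⟩,
  ⟨⟨11, 94, -43, -99, 6, 32, 4, -11, -35⟩, (69, 18, 38)⟩,
  ⟨⟨-51, 66, -37, 59, 74, 8, 20, -5, -37⟩, (25, 56, 25)⟩,
  ⟨⟨0, 0, 0, 0, 0, 0, 0, 0, 0⟩, (0, 0, 0)⟩,
  ⟨⟨39, -66, -92, -89, -46, 37, -8, 19, -23⟩, (43, 2, 64)⟩,
  ⟨⟨0, 0, 0, 0, 0, 0, 0, 0, 0⟩, (0, 0, 0)⟩,
  ⟨⟨59, -34, -112, -29, -94, 37, -24, 3, -11⟩, (9, 4, 18)⟩,
  ⟨⟨0, 0, 0, 0, 0, 0, 0, 0, 0⟩, (0, 0, 0)⟩,
  ⟨⟨0, 0, 0, 0, 0, 0, 0, 0, 0⟩, (0, 0, 0)⟩,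
  ⟨⟨-59, 34, -53, 29, 94, 8, 24, -3, -35⟩, (8, 43, 16)⟩,
  ⟨⟨0, 0, 0, 0, 0, 0, 0, 0, 0⟩, (0, 0, 0)⟩,
  ⟨⟨11, -94, -43, -99, -6, 32, 4, 11, -35⟩, (2, 53, 33)⟩,
  ⟨⟨0, 0, 0, 0, 0, 0, 0, 0, 0⟩, (0, 0, 0)⟩,
  ⟨⟨0, 0, 0, 0, 0, 0, 0, 0, 0⟩, (0, 0, 0)⟩,
  ⟨⟨51, -66, -88, -59, -74, 67, -20, 5, -17⟩, (18, 46, 18)⟩,
  ⟨⟨-19, -46, -88, -91, -26, 83, -12, 27, -7⟩, (26, 61, 65)⟩,
  ⟨⟨0, 0, 0, 0, 0, 0, 0, 0, 0⟩, (0, 0, 0)⟩,
  ⟨⟨0, 0, 0, 0, 0, 0, 0, 0, 0⟩, (0, 0, 0)⟩,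
  ⟨⟨0, 0, 0, 0, 0, 0, 0, 0, 0⟩, (0, 0, 0)⟩,
  ⟨⟨-19, 46, -88, -91, 26, 83, -12, -27, -7⟩, (18, 4, 45)⟩,
  ⟨⟨0, 0, 0, 0, 0, 0, 0, 0, 0⟩, (0, 0, 0)⟩,
  ⟨⟨0, 0, 0, 0, 0, 0, 0, 0, 0⟩, (0, 0, 0)⟩,
  ⟨⟨0, 0, 0, 0, 0, 0, 0, 0, 0⟩, (0, 0, 0)⟩,
  ⟨⟨0, 0, 0, 0, 0, 0, 0, 0, 0⟩, (0, 0, 0)⟩,
  ⟨⟨0, 0, 0, 0, 0, 0, 0, 0, 0⟩, (0, 0, 0)⟩,
  ⟨⟨0, 0, 0, 0, 0, 0, 0, 0, 0⟩, (0, 0, 0)⟩,
  ⟨⟨99, -6, -67, 11, 94, 32, -4, 11, -31⟩, (48, 29, 54)⟩,
  ⟨⟨0, 0, 0, 0, 0, 0, 0, 0, 0⟩, (0, 0, 0)⟩,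
  ⟨⟨0, 0, 0, 0, 0, 0, 0, 0, 0⟩, (0, 0, 0)⟩,
  ⟨⟨0, 0, 0, 0, 0, 0, 0, 0, 0⟩, (0, 0, 0)⟩,
  ⟨⟨-51, -66, -37, 59, -74, 8, 20, 5, -37⟩, (55, 38, 55)⟩,
  ⟨⟨0, 0, 0, 0, 0, 0, 0, 0, 0⟩, (0, 0, 0)⟩,
  ⟨⟨0, 0, 0, 0, 0, 0, 0, 0, 0⟩, (0, 0, 0)⟩,
  ⟨⟨-31, -74, -52, -81, 54, 13, 16, 13, -35⟩, (64, 55, 54)⟩,
  ⟨⟨-31, 74, -52, -81, -54, 13, 16, -13, -35⟩, (11, 15, 47)⟩,
  ⟨⟨-39, 66, -53, -89, -46, 52, 8, -19, -31⟩, (58, 65, 50)⟩,
  ⟨⟨0, 0, 0, 0, 0, 0, 0, 0, 0⟩, (0, 0, 0)⟩,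
  ⟨⟨79, 14, -107, 49, -74, 28, -12, -21, -17⟩, (57, 3, 21)⟩,
  ⟨⟨0, 0, 0, 0, 0, 0, 0, 0, 0⟩, (0, 0, 0)⟩,
  ⟨⟨0, 0, 0, 0, 0, 0, 0, 0, 0⟩, (0, 0, 0)⟩,
  ⟨⟨31, -74, -83, -81, -54, 68, -16, 13, -19⟩, (61, 33, 67)⟩,
  ⟨⟨0, 0, 0, 0, 0, 0, 0, 0, 0⟩, (0, 0, 0)⟩,
  ⟨⟨0, 0, 0, 0, 0, 0, 0, 0, 0⟩, (0, 0, 0)⟩,
  ⟨⟨0, 0, 0, 0, 0, 0, 0, 0, 0⟩, (0, 0, 0)⟩,
  ⟨⟨0, 0, 0, 0, 0, 0, 0, 0, 0⟩, (0, 0, 0)⟩]

/-- Unit moves. -/
noncomputable def U : List Mv := [mz,
  mz,
  mz,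
  mz,
  mz,
  ⟨⟨-1, 0, 1, 0, -1, 0, 0, 0, 1⟩, .nil, (nat_lit 0), (nat_lit 5), (nat_lit 1), (nat_lit 0), (0, 0, 0), [], 42⟩,
  mz,
  mz,
  mz,
  mz,
  mz,
  ⟨⟨-1, 0, 1, 0, -1, 0, 0, 0, 1⟩, .nil, (nat_lit 0), (nat_lit 5), (nat_lit 1), (nat_lit 0), (0, 0, 0), [], 42⟩,
  mz,
  mz,
  ⟨⟨1, 0, 0, 0, -1, 0, 0, 0, 1⟩, .nil, (nat_lit 0), (nat_lit 42), (nat_lit 1), (nat_lit 0), (0, 0, 0), [], 42⟩,
  mz,
  ⟨⟨-1, 0, 1, 0, -1, 0, 0, 0, 1⟩, .nil, (nat_lit 0), (nat_lit 5), (nat_lit 1), (nat_lit 0), (0, 0, 0), [], 42⟩,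
  mz,
  mz,
  mz,
  ⟨⟨-1, 0, 1, 0, -1, 0, 0, 0, 1⟩, .nil, (nat_lit 0), (nat_lit 5), (nat_lit 1), (nat_lit 0), (0, 0, 0), [], 42⟩,
  ⟨⟨1, 0, 0, 0, -1, 0, 0, 0, 1⟩, .nil, (nat_lit 0), (nat_lit 42), (nat_lit 1), (nat_lit 0), (0, 0, 0), [], 42⟩,
  ⟨⟨1, 0, 0, 0, -1, 0, 0, 0, 1⟩, .nil, (nat_lit 0), (nat_lit 42), (nat_lit 1), (nat_lit 0), (0, 0, 0), [], 42⟩,
  mz,
  mz,
  ⟨⟨-1, 0, 1, 0, -1, 0, 0, 0, 1⟩, .nil, (nat_lit 0), (nat_lit 5), (nat_lit 1), (nat_lit 0), (0, 0, 0), [], 42⟩,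
  ⟨⟨-1, 0, 1, 0, -1, 0, 0, 0, 1⟩, .nil, (nat_lit 0), (nat_lit 5), (nat_lit 1), (nat_lit 0), (0, 0, 0), [], 42⟩,
  ⟨⟨1, 0, 0, 0, -1, 0, 0, 0, 1⟩, .nil, (nat_lit 0), (nat_lit 42), (nat_lit 1), (nat_lit 0), (0, 0, 0), [], 42⟩,
  ⟨⟨-1, 0, 1, 0, 1, 0, 0, 0, 1⟩, .nil, (nat_lit 46), (nat_lit 0), (nat_lit 0), (nat_lit 1), (0, 0, 0), [], 1⟩,
  ⟨⟨-1, 0, 1, 0, 1, 0, 0, 0, 1⟩, .nil, (nat_lit 46), (nat_lit 0), (nat_lit 0), (nat_lit 1), (0, 0, 0), [], 1⟩,
  mz,
  ⟨⟨1, 0, 0, 0, -1, 0, 0, 0, 1⟩, .nil, (nat_lit 0), (nat_lit 42), (nat_lit 1), (nat_lit 0), (0, 0, 0), [], 42⟩,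
  ⟨⟨-1, 0, 1, 0, 1, 0, 0, 0, 1⟩, .nil, (nat_lit 46), (nat_lit 0), (nat_lit 0), (nat_lit 1), (0, 0, 0), [], 1⟩,
  ⟨⟨-1, 0, 1, 0, -1, 0, 0, 0, 1⟩, .nil, (nat_lit 0), (nat_lit 5), (nat_lit 1), (nat_lit 0), (0, 0, 0), [], 42⟩,
  mz,
  ⟨⟨-1, 0, 1, 0, 1, 0, 0, 0, 1⟩, .nil, (nat_lit 46), (nat_lit 0), (nat_lit 0), (nat_lit 1), (0, 0, 0), [], 1⟩,
  ⟨⟨1, 0, 0, 0, -1, 0, 0, 0, 1⟩, .nil, (nat_lit 0), (nat_lit 42), (nat_lit 1), (nat_lit 0), (0, 0, 0), [], 42⟩,
  mz,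
  ⟨⟨-1, 0, 1, 0, 1, 0, 0, 0, 1⟩, .nil, (nat_lit 46), (nat_lit 0), (nat_lit 0), (nat_lit 1), (0, 0, 0), [], 1⟩,
  mz,
  mz,
  mz,
  ⟨⟨1, 0, 0, 0, -1, 0, 0, 0, 1⟩, .nil, (nat_lit 0), (nat_lit 42), (nat_lit 1), (nat_lit 0), (0, 0, 0), [], 42⟩,
  mz,
  ⟨⟨-1, 0, 1, 0, 1, 0, 0, 0, 1⟩, .nil, (nat_lit 46), (nat_lit 0), (nat_lit 0), (nat_lit 1), (0, 0, 0), [], 1⟩,
  ⟨⟨-1, 0, 1, 0, 1, 0, 0, 0, 1⟩, .nil, (nat_lit 46), (nat_lit 0), (nat_lit 0), (nat_lit 1), (0, 0, 0), [], 1⟩,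
  ⟨⟨-1, 0, 1, 0, 1, 0, 0, 0, 1⟩, .nil, (nat_lit 46), (nat_lit 0), (nat_lit 0), (nat_lit 1), (0, 0, 0), [], 1⟩]

theorem v_ty : tyb Dm S.ty1 Clm = true := by decide +kernel

theorem v_ty0 : tyb D0 (S.tys.getD 0 0) Cl0 = true := by decide +kernel

theorem v_ty1 : tyb D1 (S.tys.getD 1 0) Cl1 = true := by decide +kernel

theorem v_msc : mscb S D0 [D1] Dm (nat_lit 823822) = true := by decide +kernel

theorem v_mv0 : mvsn (nat_lit 31279813321) S D0 [D1] Dm (nat_lit 823822) 0 D0 = true := by decide +kernel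

theorem v_mv1 : mvsn (nat_lit 31279813321) S D0 [D1] Dm (nat_lit 823822) 1 D1 = true := by decide +kernel

theorem v_mm : mmsn (nat_lit 31279813321) S D0 [D1] Dm (nat_lit 823822) = true := by decide +kernel

theorem v_un : unb S D0 (nat_lit 823822) U = true := by decide +kernel

theorem v_ok : okb S.oks [(0, 0, 0), (0, 0, 0), (0, 0, 0)] = true := by decide +kernel

theorem v_part : ∀ d < D0.p, (nat_lit 823822).testBit d = true → part S (zc (D0 :: [D1])) d = true := by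
  intro d hd h
  have h1 : ∀ d < 47, (nat_lit 823822).testBit d = true → d = 1 ∨ d = 2 ∨ d = 3 ∨ d = 9 ∨ d = 12 ∨ d = 15 ∨ d = 18 ∨ d = 19 := by decide
  rcases h1 d hd h with rfl | rfl | rfl | rfl | rfl | rfl | rfl | rfl
  · exact part_1
  · exact part_2
  · exact part_3
  · exact part_9
  · exact part_12
  · exact part_15
  · exact part_18
  · exact part_19

theorem main (n : ℕ) (ho : Odd n) (hr : ¬ Rep n) (h0 : Split 47 n) (h1 : Split 53 n) (hm : Split 71 n) :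
    n ∈ EE := by
  refine concln (W := nat_lit 31279813321) (S := S) (P0 := D0) (Pl := [D1]) (Pm := Dm) (cn := nat_lit 823822) ?_ Dm_ok v_ty ?_ ?_ v_msc ?_ v_mm v_un v_part v_ok
    n ho hr ?_ hm
  · simp only [List.forall_mem_cons]
    exact ⟨D0_ok, D1_ok, fun _ h => absurd h (by simp)⟩
  · exact all2 (φ := fun j P => ∃ L, tyb P (S.tys.getD j 0) L = true) ⟨_, v_ty0⟩ ⟨_, v_ty1⟩
  · exact all2 (φ := fun j P => Nat.ble (S.pks.getD j 0) (Nat.pow P.p P.K) = true) (by decide +kernel) (by decide +kernel)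
  · exact all2 (φ := fun i P => mvsn (nat_lit 31279813321) S D0 [D1] Dm (nat_lit 823822) i P = true) v_mv0 v_mv1
  · simp only [List.forall_mem_cons]
    exact ⟨h0, h1, fun _ h => absurd h (by simp)⟩

end Pool.Agent.Work.MP_9954fe_nt.P47_53_71

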