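import Pool.Agent.Work.MP_9954fe_nt.Fast

/-!
Certificates for the sets {7, 37, 47}, {13, 31, 43}, {19, 31, 47}, {43, 53, 71} of split primes.
-/

set_option autoImplicit false
set_option linter.all false
set_option maxRecDepth 100000

namespace Pool.Agent.Work.MP_9954fe_nt.P7_37_47

/-- Dummy move. -/
noncomputable def mz : Mv := ⟨⟨0, 0, 0, 0, 0, 0, 0, 0, 0⟩, .nil, (nat_lit 0), (nat_lit 0), (nat_lit 0), (nat_lit 0), (0, 0, 0), [], 0⟩

/-- Moves. -/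
noncomputable def t0_1 : List Mv := [
  ⟨⟨-3, 4, -5, 2, -5, -6, 4, 4, -5⟩, (.cons (nat_lit 2251) (nat_lit 589) (nat_lit 1020) (nat_lit 1) (.cons (nat_lit 272) (nat_lit 808) (nat_lit 399) (nat_lit 1) .nil)), (nat_lit 38), (nat_lit 43), (nat_lit 29), (nat_lit 1), (3, 5, 3), [680, 97], 3⟩,
  ⟨⟨-3, 4, -5, -2, 5, 6, 4, 4, -5⟩, (.cons (nat_lit 1319) (nat_lit 1843) (nat_lit 312) (nat_lit 1) (.cons (nat_lit 126) (nat_lit 1335) (nat_lit 756) (nat_lit 1) .nil)), (nat_lit 1), (nat_lit 13), (nat_lit 14), (nat_lit 1), (3, 2, 3), [142, 102], 2⟩,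
  ⟨⟨7, 0, 0, 2, -5, -6, 4, 4, -5⟩, (.cons (nat_lit 1550) (nat_lit 209) (nat_lit 684) (nat_lit 1) (.cons (nat_lit 1180) (nat_lit 1304) (nat_lit 449) (nat_lit 1) .nil)), (nat_lit 9), (nat_lit 4), (nat_lit 29), (nat_lit 1), (0, 5, 3), [253, 360], 3⟩,
  ⟨⟨-3, 4, -5, 2, -5, -6, 4, 4, -5⟩, (.cons (nat_lit 2251) (nat_lit 589) (nat_lit 1020) (nat_lit 1) (.cons (nat_lit 272) (nat_lit 808) (nat_lit 399) (nat_lit 1) .nil)), (nat_lit 38), (nat_lit 43), (nat_lit 29), (nat_lit 1), (3, 5, 3), [680, 97], 3⟩,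
  ⟨⟨-3, 4, -5, 2, -5, -6, 4, 4, -5⟩, (.cons (nat_lit 2251) (nat_lit 589) (nat_lit 1020) (nat_lit 1) (.cons (nat_lit 272) (nat_lit 808) (nat_lit 399) (nat_lit 1) .nil)), (nat_lit 38), (nat_lit 43), (nat_lit 29), (nat_lit 1), (3, 5, 3), [680, 97], 3⟩,
  ⟨⟨-3, 4, -5, 2, -5, -6, 4, 4, -5⟩, (.cons (nat_lit 2251) (nat_lit 589) (nat_lit 1020) (nat_lit 1) (.cons (nat_lit 272) (nat_lit 808) (nat_lit 399) (nat_lit 1) .nil)), (nat_lit 38), (nat_lit 43), (nat_lit 29), (nat_lit 1), (3, 5, 3), [680, 97], 3⟩,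
  ⟨⟨7, 0, 0, 2, -5, -6, 4, 4, -5⟩, (.cons (nat_lit 1550) (nat_lit 209) (nat_lit 684) (nat_lit 1) (.cons (nat_lit 1180) (nat_lit 1304) (nat_lit 449) (nat_lit 1) .nil)), (nat_lit 9), (nat_lit 4), (nat_lit 29), (nat_lit 1), (0, 5, 3), [253, 360], 3⟩]

/-- Moves. -/
noncomputable def t0_3 : List Mv := [
  ⟨⟨1, 0, -9, 0, -7, 0, 6, 0, -5⟩, (.cons (nat_lit 489) (nat_lit 1009) (nat_lit 488) (nat_lit 1) (.cons (nat_lit 102) (nat_lit 917) (nat_lit 458) (nat_lit 1) .nil)), (nat_lit 1), (nat_lit 33), (nat_lit 31), (nat_lit 1), (2, 0, 5), [2099, 1314], 10⟩,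
  ⟨⟨1, 0, -9, 0, -7, 0, 6, 0, -5⟩, (.cons (nat_lit 489) (nat_lit 1009) (nat_lit 488) (nat_lit 1) (.cons (nat_lit 102) (nat_lit 917) (nat_lit 458) (nat_lit 1) .nil)), (nat_lit 1), (nat_lit 33), (nat_lit 31), (nat_lit 1), (2, 0, 5), [2099, 1314], 10⟩,
  ⟨⟨5, 0, 4, 0, 7, 0, 6, 0, -5⟩, (.cons (nat_lit 200) (nat_lit 705) (nat_lit 69) (nat_lit 1) (.cons (nat_lit 1368) (nat_lit 1176) (nat_lit 940) (nat_lit 1) .nil)), (nat_lit 46), (nat_lit 3), (nat_lit 10), (nat_lit 1), (3, 0, 5), [425, 499], 29⟩,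
  ⟨⟨5, 0, 4, 0, -7, 0, 6, 0, -5⟩, (.cons (nat_lit 1828) (nat_lit 426) (nat_lit 1412) (nat_lit 1) (.cons (nat_lit 1368) (nat_lit 1340) (nat_lit 561) (nat_lit 1) .nil)), (nat_lit 46), (nat_lit 14), (nat_lit 31), (nat_lit 1), (3, 0, 5), [566, 249], 10⟩,
  ⟨⟨1, 0, -9, 0, -7, 0, 6, 0, -5⟩, (.cons (nat_lit 489) (nat_lit 1009) (nat_lit 488) (nat_lit 1) (.cons (nat_lit 102) (nat_lit 917) (nat_lit 458) (nat_lit 1) .nil)), (nat_lit 1), (nat_lit 33), (nat_lit 31), (nat_lit 1), (2, 0, 5), [2099, 1314], 10⟩,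
  ⟨⟨1, 0, -9, 0, 7, 0, 6, 0, -5⟩, (.cons (nat_lit 1599) (nat_lit 317) (nat_lit 496) (nat_lit 1) (.cons (nat_lit 640) (nat_lit 1044) (nat_lit 1244) (nat_lit 1) .nil)), (nat_lit 1), (nat_lit 44), (nat_lit 10), (nat_lit 1), (2, 0, 5), [432, 750], 29⟩,
  ⟨⟨1, 0, -9, 0, -7, 0, 6, 0, -5⟩, (.cons (nat_lit 489) (nat_lit 1009) (nat_lit 488) (nat_lit 1) (.cons (nat_lit 102) (nat_lit 917) (nat_lit 458) (nat_lit 1) .nil)), (nat_lit 1), (nat_lit 33), (nat_lit 31), (nat_lit 1), (2, 0, 5), [2099, 1314], 10⟩]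

/-- Moves. -/
noncomputable def t1_1 : List Mv := [
  mz,
  ⟨⟨3, -16, -43, -10, -33, 20, 30, -12, -23⟩, (.cons (nat_lit 1547) (nat_lit 1766) (nat_lit 792) (nat_lit 1)
 (.cons (nat_lit 1206) (nat_lit 773) (nat_lit 1241) (nat_lit 1) .nil)), (nat_lit 30), (nat_lit 18), (nat_lit
 34), (nat_lit 1), (25, 3, 28), [95, 1156], 8⟩,
  mz,
  mz,
  ⟨⟨21, 4, 28, 8, 35, -14, 32, -8, -19⟩, (.cons (nat_lit 2400) (nat_lit 252) (nat_lit 2227) (nat_lit 1) (.cons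
 (nat_lit 347) (nat_lit 876) (nat_lit 96) (nat_lit 1) .nil)), (nat_lit 46), (nat_lit 7), (nat_lit 9), (nat_lit
 1), (33, 2, 8), [737, 240], 18⟩,
  ⟨⟨11, 12, -47, 8, -35, -14, 32, 8, -19⟩, (.cons (nat_lit 315) (nat_lit 57) (nat_lit 1908) (nat_lit 1) (.cons
 (nat_lit 1279) (nat_lit 1018) (nat_lit 267) (nat_lit 1) .nil)), (nat_lit 20), (nat_lit 21), (nat_lit 24),
 (nat_lit 1), (29, 11, 7), [246, 834], 1⟩,
  mz,
  ⟨⟨-17, 36, 17, 30, 17, -30, -18, 12, -19⟩, (.cons (nat_lit 711) (nat_lit 58) (nat_lit 1884) (nat_lit 1)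
 (.cons (nat_lit 287) (nat_lit 659) (nat_lit 10) (nat_lit 1) .nil)), (nat_lit 10), (nat_lit 4), (nat_lit 18),
 (nat_lit 1), (36, 17, 12), [116, 542], 9⟩,
  ⟨⟨-35, 12, -1, 12, 35, -6, 0, 0, -37⟩, (.cons (nat_lit 2400) (nat_lit 2258) (nat_lit 1829) (nat_lit 1) (.cons
 (nat_lit 623) (nat_lit 672) (nat_lit 767) (nat_lit 1) .nil)), (nat_lit 46), (nat_lit 33), (nat_lit 31),
 (nat_lit 1), (3, 18, 0), [1172, 1312], 41⟩,
  mz,
  ⟨⟨-17, -36, 17, 30, -17, -30, -18, -12, -19⟩, (.cons (nat_lit 1086) (nat_lit 2370) (nat_lit 417) (nat_lit 1)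
 (.cons (nat_lit 501) (nat_lit 874) (nat_lit 837) (nat_lit 1) .nil)), (nat_lit 1), (nat_lit 11), (nat_lit 12),
 (nat_lit 1), (22, 33, 32), [135, 1360], 6⟩,
  ⟨⟨3, 16, -43, 10, -33, -20, 30, 12, -23⟩, (.cons (nat_lit 2150) (nat_lit 198) (nat_lit 1) (nat_lit 952)
 (.cons (nat_lit 624) (nat_lit 780) (nat_lit 209) (nat_lit 1) .nil)), (nat_lit 11), (nat_lit 10), (nat_lit 45),
 (nat_lit 1), (23, 15, 8), [865, 854], 28⟩,
  ⟨⟨39, -4, -8, 10, 17, -40, 14, -28, -19⟩, (.cons (nat_lit 2400) (nat_lit 2115) (nat_lit 753) (nat_lit 1)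
 (.cons (nat_lit 1035) (nat_lit 1264) (nat_lit 1002) (nat_lit 1) .nil)), (nat_lit 46), (nat_lit 43), (nat_lit
 13), (nat_lit 1), (11, 18, 3), [710, 537], 40⟩,
  ⟨⟨-31, 24, 27, -8, 5, -36, 8, 32, -1⟩, (.cons (nat_lit 1047) (nat_lit 1730) (nat_lit 2215) (nat_lit 1) (.cons
 (nat_lit 858) (nat_lit 617) (nat_lit 347) (nat_lit 1) .nil)), (nat_lit 34), (nat_lit 27), (nat_lit 43),
 (nat_lit 1), (26, 27, 10), [376, 1046], 10⟩,
  mz,
  ⟨⟨-3, 40, 8, 32, 5, -36, -16, 16, -19⟩, (.cons (nat_lit 2003) (nat_lit 1717) (nat_lit 1) (nat_lit 588) (.cons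
 (nat_lit 495) (nat_lit 1269) (nat_lit 275) (nat_lit 1) .nil)), (nat_lit 15), (nat_lit 32), (nat_lit 3),
 (nat_lit 1), (27, 8, 33), [416, 615], 11⟩,
  ⟨⟨11, -12, 36, -8, -35, -6, 32, -8, -13⟩, (.cons (nat_lit 2400) (nat_lit 2046) (nat_lit 133) (nat_lit 1)
 (.cons (nat_lit 579) (nat_lit 308) (nat_lit 723) (nat_lit 1) .nil)), (nat_lit 46), (nat_lit 2), (nat_lit 8),
 (nat_lit 1), (3, 18, 2), [1391, 1042], 29⟩,
  ⟨⟨39, -8, -11, 8, 5, -44, 8, -32, -7⟩, (.cons (nat_lit 2400) (nat_lit 33) (nat_lit 1501) (nat_lit 1) (.cons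
 (nat_lit 1239) (nat_lit 78) (nat_lit 1283) (nat_lit 1) .nil)), (nat_lit 46), (nat_lit 35), (nat_lit 44),
 (nat_lit 1), (5, 20, 20), [795, 267], 6⟩,
  ⟨⟨39, 4, -8, 10, -17, -40, 14, 28, -19⟩, (.cons (nat_lit 1373) (nat_lit 1503) (nat_lit 183) (nat_lit 1)
 (.cons (nat_lit 653) (nat_lit 543) (nat_lit 261) (nat_lit 1) .nil)), (nat_lit 42), (nat_lit 18), (nat_lit 13),
 (nat_lit 1), (29, 34, 18), [1406, 1306], 40⟩,
  ⟨⟨39, -8, -28, -8, -5, -36, 8, -32, -1⟩, (.cons (nat_lit 1051) (nat_lit 1681) (nat_lit 741) (nat_lit 1)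
 (.cons (nat_lit 713) (nat_lit 1078) (nat_lit 357) (nat_lit 1) .nil)), (nat_lit 1), (nat_lit 32), (nat_lit 40),
 (nat_lit 1), (22, 23, 14), [311, 813], 41⟩,
  ⟨⟨25, -24, -36, -10, 17, -30, -14, -28, -5⟩, (.cons (nat_lit 2400) (nat_lit 2169) (nat_lit 1550) (nat_lit 1)
 (.cons (nat_lit 785) (nat_lit 190) (nat_lit 178) (nat_lit 1) .nil)), (nat_lit 46), (nat_lit 4), (nat_lit 34),
 (nat_lit 1), (21, 36, 6), [1179, 179], 40⟩,
  ⟨⟨13, -24, -40, -32, 5, -4, 16, 16, -35⟩, (.cons (nat_lit 55) (nat_lit 821) (nat_lit 1) (nat_lit 532) (.cons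
 (nat_lit 262) (nat_lit 1141) (nat_lit 989) (nat_lit 1) .nil)), (nat_lit 15), (nat_lit 15), (nat_lit 44),
 (nat_lit 1), (27, 36, 19), [605, 1238], 11⟩,
  ⟨⟨39, 8, -11, 8, -5, -44, 8, 32, -7⟩, (.cons (nat_lit 1591) (nat_lit 1143) (nat_lit 881) (nat_lit 1) (.cons
 (nat_lit 878) (nat_lit 1045) (nat_lit 389) (nat_lit 1) .nil)), (nat_lit 18), (nat_lit 16), (nat_lit 22),
 (nat_lit 1), (4, 16, 16), [1590, 966], 3⟩,
  mz,
  ⟨⟨13, 24, -40, -32, -5, -4, 16, -16, -35⟩, (.cons (nat_lit 547) (nat_lit 1595) (nat_lit 917) (nat_lit 1)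
 (.cons (nat_lit 1050) (nat_lit 506) (nat_lit 422) (nat_lit 1) .nil)), (nat_lit 1), (nat_lit 42), (nat_lit 22),
 (nat_lit 1), (24, 32, 21), [1986, 287], 29⟩,
  ⟨⟨1, 24, -37, -30, -17, 0, 18, -12, -37⟩, (.cons (nat_lit 1709) (nat_lit 157) (nat_lit 444) (nat_lit 1)
 (.cons (nat_lit 281) (nat_lit 1244) (nat_lit 757) (nat_lit 1) .nil)), (nat_lit 1), (nat_lit 36), (nat_lit 35),
 (nat_lit 1), (23, 13, 7), [2116, 924], 6⟩,
  ⟨⟨27, -4, -47, -10, 33, -10, 30, 12, -7⟩, (.cons (nat_lit 1785) (nat_lit 2287) (nat_lit 727) (nat_lit 1)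
 (.cons (nat_lit 565) (nat_lit 1112) (nat_lit 307) (nat_lit 1) .nil)), (nat_lit 30), (nat_lit 29), (nat_lit
 13), (nat_lit 1), (15, 15, 29), [1627, 62], 39⟩,
  ⟨⟨27, 4, -47, 10, 33, 10, 30, -12, -7⟩, (.cons (nat_lit 2113) (nat_lit 1997) (nat_lit 1) (nat_lit 1050)
 (.cons (nat_lit 270) (nat_lit 896) (nat_lit 85) (nat_lit 1) .nil)), (nat_lit 11), (nat_lit 37), (nat_lit 2),
 (nat_lit 1), (33, 4, 12), [402, 774], 19⟩,
  mz,
  ⟨⟨35, 12, -36, 12, -35, -6, 0, 0, -37⟩, (.cons (nat_lit 2400) (nat_lit 942) (nat_lit 926) (nat_lit 1) (.cons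
 (nat_lit 677) (nat_lit 1105) (nat_lit 1252) (nat_lit 1) .nil)), (nat_lit 46), (nat_lit 44), (nat_lit 10),
 (nat_lit 1), (14, 27, 0), [1802, 1276], 39⟩,
  ⟨⟨-39, 4, 31, -10, -17, -30, -14, 28, -5⟩, (.cons (nat_lit 1847) (nat_lit 292) (nat_lit 1350) (nat_lit 1)
 (.cons (nat_lit 105) (nat_lit 287) (nat_lit 18) (nat_lit 1) .nil)), (nat_lit 5), (nat_lit 18), (nat_lit 34),
 (nat_lit 1), (3, 15, 21), [615, 954], 40⟩,
  mz,
  mz,
  ⟨⟨-3, -40, 8, -32, 5, 36, -16, -16, -19⟩, (.cons (nat_lit 1232) (nat_lit 247) (nat_lit 1135) (nat_lit 1)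
 (.cons (nat_lit 537) (nat_lit 616) (nat_lit 903) (nat_lit 1) .nil)), (nat_lit 22), (nat_lit 46), (nat_lit 19),
 (nat_lit 1), (32, 33, 35), [1921, 103], 13⟩,
  mz,
  ⟨⟨21, -4, -49, -8, 35, -6, 32, 8, -13⟩, (.cons (nat_lit 1013) (nat_lit 2284) (nat_lit 1) (nat_lit 2163)
 (.cons (nat_lit 1285) (nat_lit 416) (nat_lit 1145) (nat_lit 1) .nil)), (nat_lit 40), (nat_lit 6), (nat_lit
 27), (nat_lit 1), (18, 9, 1), [1165, 8], 45⟩,
  ⟨⟨1, -24, -37, -30, 17, 0, 18, 12, -37⟩, (.cons (nat_lit 2048) (nat_lit 922) (nat_lit 888) (nat_lit 1) (.cons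
 (nat_lit 1365) (nat_lit 409) (nat_lit 81) (nat_lit 1) .nil)), (nat_lit 10), (nat_lit 43), (nat_lit 29),
 (nat_lit 1), (26, 34, 24), [1530, 1092], 9⟩]

/-- Moves. -/
noncomputable def t1_3 : List Mv := [
  mz,
  ⟨⟨27, 4, 20, 10, 33, -20, 30, -12, -23⟩, (.cons (nat_lit 2400) (nat_lit 2400) (nat_lit 140) (nat_lit 1)
 (.cons (nat_lit 124) (nat_lit 502) (nat_lit 161) (nat_lit 1) .nil)), (nat_lit 46), (nat_lit 29), (nat_lit 33),
 (nat_lit 1), (3, 34, 28), [2060, 1296], 8⟩,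
  mz,
  mz,
  ⟨⟨21, 4, 28, 8, 35, -14, 32, -8, -19⟩, (.cons (nat_lit 2400) (nat_lit 252) (nat_lit 2227) (nat_lit 1) (.cons
 (nat_lit 347) (nat_lit 876) (nat_lit 96) (nat_lit 1) .nil)), (nat_lit 46), (nat_lit 7), (nat_lit 9), (nat_lit
 1), (33, 2, 8), [737, 240], 18⟩,
  ⟨⟨21, -4, 28, 8, -35, -14, 32, 8, -19⟩, (.cons (nat_lit 406) (nat_lit 643) (nat_lit 1446) (nat_lit 1) (.cons
 (nat_lit 896) (nat_lit 170) (nat_lit 1223) (nat_lit 1) .nil)), (nat_lit 27), (nat_lit 26), (nat_lit 24),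
 (nat_lit 1), (15, 11, 7), [358, 1074], 1⟩,
  mz,
  ⟨⟨-1, -24, -36, 30, 17, -30, -18, 12, -19⟩, (.cons (nat_lit 773) (nat_lit 327) (nat_lit 498) (nat_lit 1)
 (.cons (nat_lit 331) (nat_lit 721) (nat_lit 688) (nat_lit 1) .nil)), (nat_lit 37), (nat_lit 43), (nat_lit 18),
 (nat_lit 1), (13, 17, 12), [1404, 139], 9⟩,
  ⟨⟨-35, 12, -1, 12, 35, -6, 0, 0, -37⟩, (.cons (nat_lit 2400) (nat_lit 2258) (nat_lit 1829) (nat_lit 1) (.cons
 (nat_lit 623) (nat_lit 672) (nat_lit 767) (nat_lit 1) .nil)), (nat_lit 46), (nat_lit 33), (nat_lit 31),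
 (nat_lit 1), (3, 18, 0), [1172, 1312], 41⟩,
  mz,
  ⟨⟨-1, 24, -36, 30, -17, -30, -18, -12, -19⟩, (.cons (nat_lit 2400) (nat_lit 381) (nat_lit 1992) (nat_lit 1)
 (.cons (nat_lit 915) (nat_lit 1216) (nat_lit 369) (nat_lit 1) .nil)), (nat_lit 46), (nat_lit 36), (nat_lit
 12), (nat_lit 1), (10, 33, 32), [835, 1243], 6⟩,
  ⟨⟨27, -4, 20, 10, -33, -20, 30, 12, -23⟩, (.cons (nat_lit 461) (nat_lit 2287) (nat_lit 1) (nat_lit 2016)
 (.cons (nat_lit 810) (nat_lit 717) (nat_lit 847) (nat_lit 1) .nil)), (nat_lit 36), (nat_lit 37), (nat_lit 45),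
 (nat_lit 1), (22, 15, 8), [1607, 1347], 28⟩,
  ⟨⟨39, -4, -8, -10, -17, 40, 14, -28, -19⟩, (.cons (nat_lit 1030) (nat_lit 555) (nat_lit 1189) (nat_lit 1)
 (.cons (nat_lit 608) (nat_lit 1179) (nat_lit 153) (nat_lit 1) .nil)), (nat_lit 28), (nat_lit 13), (nat_lit
 12), (nat_lit 1), (11, 19, 3), [1749, 929], 11⟩,
  ⟨⟨-31, 24, 27, 8, -5, 36, 8, 32, -1⟩, (.cons (nat_lit 2400) (nat_lit 1570) (nat_lit 1313) (nat_lit 1) (.cons
 (nat_lit 772) (nat_lit 1294) (nat_lit 1010) (nat_lit 1) .nil)), (nat_lit 46), (nat_lit 12), (nat_lit 3),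
 (nat_lit 1), (26, 10, 10), [360, 1227], 41⟩,
  mz,
  ⟨⟨-13, -24, -27, 32, 5, -36, -16, 16, -19⟩, (.cons (nat_lit 265) (nat_lit 670) (nat_lit 1) (nat_lit 476)
 (.cons (nat_lit 35) (nat_lit 545) (nat_lit 56) (nat_lit 1) .nil)), (nat_lit 32), (nat_lit 15), (nat_lit 3),
 (nat_lit 1), (6, 8, 33), [1144, 367], 11⟩,
  ⟨⟨21, 4, -49, -8, -35, -6, 32, -8, -13⟩, (.cons (nat_lit 505) (nat_lit 1328) (nat_lit 1071) (nat_lit 1)
 (.cons (nat_lit 778) (nat_lit 427) (nat_lit 940) (nat_lit 1) .nil)), (nat_lit 1), (nat_lit 45), (nat_lit 8),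
 (nat_lit 1), (36, 18, 2), [61, 854], 29⟩,
  ⟨⟨39, -8, -11, 8, 5, -44, 8, -32, -7⟩, (.cons (nat_lit 2400) (nat_lit 33) (nat_lit 1501) (nat_lit 1) (.cons
 (nat_lit 1239) (nat_lit 78) (nat_lit 1283) (nat_lit 1) .nil)), (nat_lit 46), (nat_lit 35), (nat_lit 44),
 (nat_lit 1), (5, 20, 20), [795, 267], 6⟩,
  ⟨⟨39, 4, -8, -10, 17, 40, 14, 28, -19⟩, (.cons (nat_lit 2400) (nat_lit 909) (nat_lit 1935) (nat_lit 1) (.cons
 (nat_lit 865) (nat_lit 517) (nat_lit 1267) (nat_lit 1) .nil)), (nat_lit 46), (nat_lit 18), (nat_lit 18),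
 (nat_lit 1), (29, 3, 18), [787, 1161], 40⟩,
  ⟨⟨-31, -24, 27, 8, 5, 36, 8, -32, -1⟩, (.cons (nat_lit 1353) (nat_lit 285) (nat_lit 1954) (nat_lit 1) (.cons
 (nat_lit 248) (nat_lit 294) (nat_lit 1223) (nat_lit 1) .nil)), (nat_lit 18), (nat_lit 31), (nat_lit 25),
 (nat_lit 1), (29, 14, 14), [2309, 636], 44⟩,
  ⟨⟨25, -24, -36, -10, 17, -30, -14, -28, -5⟩, (.cons (nat_lit 2400) (nat_lit 2169) (nat_lit 1550) (nat_lit 1)
 (.cons (nat_lit 785) (nat_lit 190) (nat_lit 178) (nat_lit 1) .nil)), (nat_lit 46), (nat_lit 4), (nat_lit 34),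
 (nat_lit 1), (21, 36, 6), [1179, 179], 40⟩,
  ⟨⟨13, -24, -40, 32, -5, 4, 16, 16, -35⟩, (.cons (nat_lit 64) (nat_lit 707) (nat_lit 2313) (nat_lit 1) (.cons
 (nat_lit 1208) (nat_lit 632) (nat_lit 9) (nat_lit 1) .nil)), (nat_lit 1), (nat_lit 31), (nat_lit 1), (nat_lit
 1), (27, 1, 19), [600, 373], 29⟩,
  ⟨⟨39, 8, -11, 8, -5, -44, 8, 32, -7⟩, (.cons (nat_lit 1591) (nat_lit 1143) (nat_lit 881) (nat_lit 1) (.cons
 (nat_lit 878) (nat_lit 1045) (nat_lit 389) (nat_lit 1) .nil)), (nat_lit 18), (nat_lit 16), (nat_lit 22),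
 (nat_lit 1), (4, 16, 16), [1590, 966], 3⟩,
  mz,
  ⟨⟨13, 24, -40, 32, 5, 4, 16, -16, -35⟩, (.cons (nat_lit 2303) (nat_lit 131) (nat_lit 923) (nat_lit 1) (.cons
 (nat_lit 321) (nat_lit 813) (nat_lit 902) (nat_lit 1) .nil)), (nat_lit 22), (nat_lit 1), (nat_lit 28),
 (nat_lit 1), (24, 5, 21), [458, 779], 13⟩,
  ⟨⟨1, 24, -37, 30, 17, 0, 18, -12, -37⟩, (.cons (nat_lit 1962) (nat_lit 1452) (nat_lit 1132) (nat_lit 1)
 (.cons (nat_lit 152) (nat_lit 853) (nat_lit 212) (nat_lit 1) .nil)), (nat_lit 33), (nat_lit 9), (nat_lit 17),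
 (nat_lit 1), (23, 24, 7), [2326, 24], 25⟩,
  ⟨⟨27, -4, -47, -10, 33, -10, 30, 12, -7⟩, (.cons (nat_lit 1785) (nat_lit 2287) (nat_lit 727) (nat_lit 1)
 (.cons (nat_lit 565) (nat_lit 1112) (nat_lit 307) (nat_lit 1) .nil)), (nat_lit 30), (nat_lit 29), (nat_lit
 13), (nat_lit 1), (15, 15, 29), [1627, 62], 39⟩,
  ⟨⟨27, 4, -47, -10, -33, -10, 30, -12, -7⟩, (.cons (nat_lit 211) (nat_lit 2352) (nat_lit 1039) (nat_lit 1)
 (.cons (nat_lit 1228) (nat_lit 103) (nat_lit 189) (nat_lit 1) .nil)), (nat_lit 1), (nat_lit 24), (nat_lit 13),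
 (nat_lit 1), (33, 33, 12), [474, 442], 39⟩,
  mz,
  ⟨⟨-35, -12, -1, 12, -35, -6, 0, 0, -37⟩, (.cons (nat_lit 1933) (nat_lit 2201) (nat_lit 1626) (nat_lit 1)
 (.cons (nat_lit 99) (nat_lit 393) (nat_lit 720) (nat_lit 1) .nil)), (nat_lit 1), (nat_lit 3), (nat_lit 10),
 (nat_lit 1), (23, 27, 0), [1921, 847], 39⟩,
  ⟨⟨25, 24, -36, -10, -17, -30, -14, 28, -5⟩, (.cons (nat_lit 1744) (nat_lit 1514) (nat_lit 783) (nat_lit 1)
 (.cons (nat_lit 464) (nat_lit 608) (nat_lit 1) (nat_lit 259) .nil)), (nat_lit 42), (nat_lit 29), (nat_lit 34),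
 (nat_lit 1), (18, 15, 21), [1476, 465], 40⟩,
  mz,
  mz,
  ⟨⟨-13, 24, -27, 32, -5, -36, -16, -16, -19⟩, (.cons (nat_lit 2400) (nat_lit 1812) (nat_lit 1477) (nat_lit 1)
 (.cons (nat_lit 1298) (nat_lit 311) (nat_lit 1285) (nat_lit 1) .nil)), (nat_lit 46), (nat_lit 42), (nat_lit
 25), (nat_lit 1), (3, 4, 35), [418, 42], 29⟩,
  mz,
  ⟨⟨21, -4, -49, -8, 35, -6, 32, 8, -13⟩, (.cons (nat_lit 1013) (nat_lit 2284) (nat_lit 1) (nat_lit 2163)
 (.cons (nat_lit 1285) (nat_lit 416) (nat_lit 1145) (nat_lit 1) .nil)), (nat_lit 40), (nat_lit 6), (nat_lit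
 27), (nat_lit 1), (18, 9, 1), [1165, 8], 45⟩,
  ⟨⟨1, -24, -37, 30, -17, 0, 18, 12, -37⟩, (.cons (nat_lit 1240) (nat_lit 2204) (nat_lit 761) (nat_lit 1)
 (.cons (nat_lit 194) (nat_lit 541) (nat_lit 218) (nat_lit 1) .nil)), (nat_lit 1), (nat_lit 13), (nat_lit 21),
 (nat_lit 1), (26, 3, 24), [1521, 10], 6⟩]

/-- Moves. -/
noncomputable def t4_1 : List Mv := [
  mz,
  ⟨⟨-25, 12, -36, -22, 35, 36, 20, 28, -37⟩, (.cons (nat_lit 1075) (nat_lit 996) (nat_lit 2203) (nat_lit 1)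
 (.cons (nat_lit 182) (nat_lit 602) (nat_lit 166) (nat_lit 1) .nil)), (nat_lit 21), (nat_lit 0), (nat_lit 0),
 (nat_lit 0), (2, 45, 36), [1020, 575], 0⟩,
  ⟨⟨21, -32, -49, 2, 35, -36, -28, -20, -13⟩, (.cons (nat_lit 1494) (nat_lit 2047) (nat_lit 769) (nat_lit 1)
 (.cons (nat_lit 636) (nat_lit 516) (nat_lit 280) (nat_lit 1) .nil)), (nat_lit 5), (nat_lit 0), (nat_lit 0),
 (nat_lit 0), (33, 30, 3), [2119, 546], 0⟩,
  ⟨⟨-51, 4, 19, -2, -45, -14, -12, 12, -37⟩, (.cons (nat_lit 1550) (nat_lit 2146) (nat_lit 1759) (nat_lit 1)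
 (.cons (nat_lit 1041) (nat_lit 945) (nat_lit 1038) (nat_lit 1) .nil)), (nat_lit 33), (nat_lit 0), (nat_lit 0),
 (nat_lit 0), (7, 27, 21), [746, 683], 0⟩,
  mz,
  ⟨⟨25, -12, -61, -22, 35, -14, -20, -28, -17⟩, (.cons (nat_lit 1223) (nat_lit 762) (nat_lit 705) (nat_lit 1)
 (.cons (nat_lit 127) (nat_lit 180) (nat_lit 34) (nat_lit 1) .nil)), (nat_lit 2), (nat_lit 0), (nat_lit 0),
 (nat_lit 0), (9, 9, 21), [97, 1026], 0⟩,
  mz,
  mz,
  mz,
  ⟨⟨27, 32, -47, -40, 17, 0, 10, -16, -47⟩, (.cons (nat_lit 631) (nat_lit 787) (nat_lit 1060) (nat_lit 1)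
 (.cons (nat_lit 81) (nat_lit 1111) (nat_lit 527) (nat_lit 1) .nil)), (nat_lit 38), (nat_lit 0), (nat_lit 0),
 (nat_lit 0), (43, 39, 2), [1566, 390], 0⟩,
  mz,
  ⟨⟨17, 48, -17, 40, -17, -40, -10, 16, -37⟩, (.cons (nat_lit 2363) (nat_lit 562) (nat_lit 323) (nat_lit 1)
 (.cons (nat_lit 458) (nat_lit 1289) (nat_lit 251) (nat_lit 1) .nil)), (nat_lit 9), (nat_lit 0), (nat_lit 0),
 (nat_lit 0), (25, 45, 24), [2047, 141], 0⟩,
  ⟨⟨21, 44, 8, 20, -23, 30, 38, 8, -37⟩, (.cons (nat_lit 1967) (nat_lit 433) (nat_lit 726) (nat_lit 1) (.cons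
 (nat_lit 1330) (nat_lit 1140) (nat_lit 644) (nat_lit 1) .nil)), (nat_lit 31), (nat_lit 0), (nat_lit 0),
 (nat_lit 0), (29, 3, 1), [2139, 1030], 0⟩,
  mz,
  ⟨⟨-51, -4, 19, 2, -45, 14, -12, -12, -37⟩, (.cons (nat_lit 2399) (nat_lit 881) (nat_lit 2250) (nat_lit 1)
 (.cons (nat_lit 1053) (nat_lit 732) (nat_lit 680) (nat_lit 1) .nil)), (nat_lit 44), (nat_lit 0), (nat_lit 0),
 (nat_lit 0), (25, 11, 28), [2242, 1041], 0⟩,
  ⟨⟨9, 4, -61, 40, 23, -10, 22, -32, -29⟩, (.cons (nat_lit 1111) (nat_lit 934) (nat_lit 1827) (nat_lit 1)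
 (.cons (nat_lit 845) (nat_lit 1209) (nat_lit 596) (nat_lit 1) .nil)), (nat_lit 35), (nat_lit 0), (nat_lit 0),
 (nat_lit 0), (18, 33, 44), [753, 1197], 0⟩,
  ⟨⟨-13, 36, 45, 40, 23, -30, -22, 32, -7⟩, (.cons (nat_lit 1795) (nat_lit 1596) (nat_lit 1399) (nat_lit 1)
 (.cons (nat_lit 746) (nat_lit 278) (nat_lit 762) (nat_lit 1) .nil)), (nat_lit 27), (nat_lit 0), (nat_lit 0),
 (nat_lit 0), (5, 28, 41), [1450, 1282], 0⟩,
  mz,
  ⟨⟨19, 0, -63, 0, 47, 0, 42, 0, -23⟩, (.cons (nat_lit 2108) (nat_lit 1141) (nat_lit 2310) (nat_lit 1) (.cons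
 (nat_lit 141) (nat_lit 1000) (nat_lit 174) (nat_lit 1) .nil)), (nat_lit 29), (nat_lit 0), (nat_lit 0),
 (nat_lit 0), (16, 0, 23), [1860, 188], 0⟩,
  ⟨⟨-39, 32, 8, -20, -33, -20, 6, 24, -41⟩, (.cons (nat_lit 1299) (nat_lit 134) (nat_lit 220) (nat_lit 1)
 (.cons (nat_lit 119) (nat_lit 86) (nat_lit 382) (nat_lit 1) .nil)), (nat_lit 22), (nat_lit 0), (nat_lit 0),
 (nat_lit 0), (25, 8, 7), [1556, 1064], 0⟩,
  ⟨⟨17, -36, 28, 20, -23, -50, 38, 8, -1⟩, (.cons (nat_lit 1535) (nat_lit 1190) (nat_lit 149) (nat_lit 1)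
 (.cons (nat_lit 943) (nat_lit 566) (nat_lit 1074) (nat_lit 1) .nil)), (nat_lit 16), (nat_lit 0), (nat_lit 0),
 (nat_lit 0), (2, 30, 10), [416, 995], 0⟩,
  ⟨⟨-49, -12, 36, -2, 35, 36, -28, 20, -13⟩, (.cons (nat_lit 947) (nat_lit 381) (nat_lit 228) (nat_lit 1)
 (.cons (nat_lit 1196) (nat_lit 102) (nat_lit 1338) (nat_lit 1) .nil)), (nat_lit 1), (nat_lit 0), (nat_lit 0),
 (nat_lit 0), (24, 24, 7), [195, 845], 0⟩,
  ⟨⟨-39, -32, 8, -20, 33, -20, 6, -24, -41⟩, (.cons (nat_lit 2400) (nat_lit 1427) (nat_lit 2218) (nat_lit 1)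
 (.cons (nat_lit 1368) (nat_lit 96) (nat_lit 1326) (nat_lit 1) .nil)), (nat_lit 22), (nat_lit 0), (nat_lit 0),
 (nat_lit 0), (28, 24, 21), [2069, 940], 0⟩,
  mz,
  mz,
  ⟨⟨-45, 8, -4, 20, 33, -40, -6, -24, -35⟩, (.cons (nat_lit 2400) (nat_lit 1569) (nat_lit 575) (nat_lit 1)
 (.cons (nat_lit 1368) (nat_lit 387) (nat_lit 1208) (nat_lit 1) .nil)), (nat_lit 25), (nat_lit 0), (nat_lit 0),
 (nat_lit 0), (40, 24, 21), [1789, 91], 0⟩,
  ⟨⟨49, -12, -13, -2, -35, -34, 28, 20, -41⟩, (.cons (nat_lit 1598) (nat_lit 409) (nat_lit 2181) (nat_lit 1)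
 (.cons (nat_lit 250) (nat_lit 1009) (nat_lit 969) (nat_lit 1) .nil)), (nat_lit 42), (nat_lit 0), (nat_lit 0),
 (nat_lit 0), (24, 23, 7), [1574, 1134], 0⟩,
  ⟨⟨17, 36, -45, -20, -23, -30, 38, -8, -37⟩, (.cons (nat_lit 709) (nat_lit 944) (nat_lit 1) (nat_lit 574)
 (.cons (nat_lit 1111) (nat_lit 845) (nat_lit 213) (nat_lit 1) .nil)), (nat_lit 32), (nat_lit 0), (nat_lit 0),
 (nat_lit 0), (45, 30, 37), [114, 49], 0⟩,
  ⟨⟨-45, -8, -4, -20, 33, 40, -6, 24, -35⟩, (.cons (nat_lit 2400) (nat_lit 1692) (nat_lit 892) (nat_lit 1)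
 (.cons (nat_lit 1368) (nat_lit 606) (nat_lit 535) (nat_lit 1) .nil)), (nat_lit 28), (nat_lit 0), (nat_lit 0),
 (nat_lit 0), (29, 39, 7), [2090, 422], 0⟩,
  ⟨⟨23, 0, -63, 0, -47, 0, 42, 0, -19⟩, (.cons (nat_lit 295) (nat_lit 1946) (nat_lit 434) (nat_lit 1) (.cons
 (nat_lit 835) (nat_lit 90) (nat_lit 1193) (nat_lit 1) .nil)), (nat_lit 18), (nat_lit 0), (nat_lit 0), (nat_lit
 0), (40, 0, 24), [1717, 712], 0⟩,
  mz,
  ⟨⟨13, 36, 32, 40, -23, -10, 22, 32, -29⟩, (.cons (nat_lit 1432) (nat_lit 1803) (nat_lit 1) (nat_lit 371)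
 (.cons (nat_lit 351) (nat_lit 977) (nat_lit 1210) (nat_lit 1) .nil)), (nat_lit 12), (nat_lit 0), (nat_lit 0),
 (nat_lit 0), (5, 19, 41), [1079, 313], 0⟩,
  ⟨⟨-13, -36, 45, 40, -23, -30, -22, -32, -7⟩, (.cons (nat_lit 1904) (nat_lit 466) (nat_lit 850) (nat_lit 1)
 (.cons (nat_lit 260) (nat_lit 709) (nat_lit 749) (nat_lit 1) .nil)), (nat_lit 27), (nat_lit 0), (nat_lit 0),
 (nat_lit 0), (26, 14, 44), [1096, 789], 0⟩,
  ⟨⟨51, -4, -32, 2, 45, -16, 12, -12, -49⟩, (.cons (nat_lit 2400) (nat_lit 537) (nat_lit 2154) (nat_lit 1)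
 (.cons (nat_lit 1368) (nat_lit 761) (nat_lit 653) (nat_lit 1) .nil)), (nat_lit 33), (nat_lit 0), (nat_lit 0),
 (nat_lit 0), (25, 36, 28), [1411, 758], 0⟩,
  mz,
  ⟨⟨21, -44, -29, -20, -23, 50, 38, -8, -1⟩, (.cons (nat_lit 2012) (nat_lit 775) (nat_lit 7) (nat_lit 1) (.cons
 (nat_lit 1079) (nat_lit 146) (nat_lit 346) (nat_lit 1) .nil)), (nat_lit 15), (nat_lit 0), (nat_lit 0),
 (nat_lit 0), (18, 3, 46), [1945, 346], 0⟩,
  ⟨⟨27, -32, -47, -40, -17, 0, 10, 16, -47⟩, (.cons (nat_lit 1838) (nat_lit 1937) (nat_lit 1763) (nat_lit 1)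
 (.cons (nat_lit 108) (nat_lit 331) (nat_lit 1206) (nat_lit 1) .nil)), (nat_lit 38), (nat_lit 0), (nat_lit 0),
 (nat_lit 0), (46, 45, 24), [241, 3], 0⟩,
  mz,
  ⟨⟨17, -48, -17, 40, 17, -40, -10, -16, -37⟩, (.cons (nat_lit 449) (nat_lit 1985) (nat_lit 1859) (nat_lit 1)
 (.cons (nat_lit 1200) (nat_lit 206) (nat_lit 78) (nat_lit 1) .nil)), (nat_lit 9), (nat_lit 0), (nat_lit 0),
 (nat_lit 0), (6, 39, 2), [2077, 606], 0⟩,
  mz,
  mz,
  mz,
  ⟨⟨45, -16, -1, -22, -35, 36, 20, -28, -37⟩, (.cons (nat_lit 900) (nat_lit 1654) (nat_lit 1118) (nat_lit 1)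
 (.cons (nat_lit 115) (nat_lit 330) (nat_lit 823) (nat_lit 1) .nil)), (nat_lit 26), (nat_lit 0), (nat_lit 0),
 (nat_lit 0), (12, 38, 21), [1797, 1124], 0⟩,
  mz,
  ⟨⟨-39, 8, -17, 2, -45, -16, 12, 12, -49⟩, (.cons (nat_lit 1200) (nat_lit 1641) (nat_lit 1125) (nat_lit 1)
 (.cons (nat_lit 1356) (nat_lit 1302) (nat_lit 626) (nat_lit 1) .nil)), (nat_lit 14), (nat_lit 0), (nat_lit 0),
 (nat_lit 0), (14, 27, 21), [1761, 697], 0⟩,
  ⟨⟨-21, -32, -28, -2, 35, -34, 28, -20, -41⟩, (.cons (nat_lit 921) (nat_lit 703) (nat_lit 2185) (nat_lit 1)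
 (.cons (nat_lit 589) (nat_lit 180) (nat_lit 889) (nat_lit 1) .nil)), (nat_lit 5), (nat_lit 0), (nat_lit 0),
 (nat_lit 0), (33, 30, 3), [1153, 649], 0⟩,
  ⟨⟨-45, 16, 44, -22, -35, -14, -20, 28, -17⟩, (.cons (nat_lit 1160) (nat_lit 727) (nat_lit 425) (nat_lit 1)
 (.cons (nat_lit 292) (nat_lit 357) (nat_lit 1221) (nat_lit 1) .nil)), (nat_lit 45), (nat_lit 0), (nat_lit 0),
 (nat_lit 0), (34, 2, 36), [1280, 40], 0⟩]

/-- Moves. -/
noncomputable def t4_3 : List Mv := [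
  mz,
  ⟨⟨45, 16, -1, 22, -35, -36, 20, 28, -37⟩, (.cons (nat_lit 891) (nat_lit 6) (nat_lit 2004) (nat_lit 1) (.cons
 (nat_lit 1129) (nat_lit 184) (nat_lit 736) (nat_lit 1) .nil)), (nat_lit 45), (nat_lit 0), (nat_lit 0),
 (nat_lit 0), (34, 2, 36), [167, 594], 0⟩,
  ⟨⟨21, -32, -49, 2, 35, -36, -28, -20, -13⟩, (.cons (nat_lit 1494) (nat_lit 2047) (nat_lit 769) (nat_lit 1)
 (.cons (nat_lit 636) (nat_lit 516) (nat_lit 280) (nat_lit 1) .nil)), (nat_lit 5), (nat_lit 0), (nat_lit 0),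
 (nat_lit 0), (33, 30, 3), [2119, 546], 0⟩,
  ⟨⟨-51, 4, 19, -2, -45, -14, -12, 12, -37⟩, (.cons (nat_lit 1550) (nat_lit 2146) (nat_lit 1759) (nat_lit 1)
 (.cons (nat_lit 1041) (nat_lit 945) (nat_lit 1038) (nat_lit 1) .nil)), (nat_lit 33), (nat_lit 0), (nat_lit 0),
 (nat_lit 0), (7, 27, 21), [746, 683], 0⟩,
  mz,
  ⟨⟨-45, -16, 44, -22, 35, -14, -20, -28, -17⟩, (.cons (nat_lit 975) (nat_lit 1261) (nat_lit 1713) (nat_lit 1)
 (.cons (nat_lit 86) (nat_lit 948) (nat_lit 210) (nat_lit 1) .nil)), (nat_lit 45), (nat_lit 0), (nat_lit 0),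
 (nat_lit 0), (12, 9, 21), [2120, 290], 0⟩,
  mz,
  mz,
  mz,
  ⟨⟨27, 32, -47, 40, -17, 0, 10, -16, -47⟩, (.cons (nat_lit 695) (nat_lit 773) (nat_lit 1209) (nat_lit 1)
 (.cons (nat_lit 822) (nat_lit 48) (nat_lit 397) (nat_lit 1) .nil)), (nat_lit 11), (nat_lit 0), (nat_lit 0),
 (nat_lit 0), (43, 8, 2), [1167, 1365], 0⟩,
  mz,
  ⟨⟨17, 48, -17, 40, -17, -40, -10, 16, -37⟩, (.cons (nat_lit 2363) (nat_lit 562) (nat_lit 323) (nat_lit 1)
 (.cons (nat_lit 458) (nat_lit 1289) (nat_lit 251) (nat_lit 1) .nil)), (nat_lit 9), (nat_lit 0), (nat_lit 0),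
 (nat_lit 0), (25, 45, 24), [2047, 141], 0⟩,
  ⟨⟨21, 44, 8, -20, 23, -30, 38, 8, -37⟩, (.cons (nat_lit 2265) (nat_lit 1132) (nat_lit 2387) (nat_lit 1)
 (.cons (nat_lit 997) (nat_lit 834) (nat_lit 757) (nat_lit 1) .nil)), (nat_lit 15), (nat_lit 0), (nat_lit 0),
 (nat_lit 0), (29, 44, 1), [1044, 867], 0⟩,
  mz,
  ⟨⟨-51, -4, 19, -2, 45, -14, -12, -12, -37⟩, (.cons (nat_lit 8) (nat_lit 2196) (nat_lit 2186) (nat_lit 1)
 (.cons (nat_lit 1329) (nat_lit 637) (nat_lit 1076) (nat_lit 1) .nil)), (nat_lit 33), (nat_lit 0), (nat_lit 0),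
 (nat_lit 0), (25, 36, 28), [914, 433], 0⟩,
  ⟨⟨13, -36, 32, 40, 23, -10, 22, -32, -29⟩, (.cons (nat_lit 1430) (nat_lit 1915) (nat_lit 812) (nat_lit 1)
 (.cons (nat_lit 92) (nat_lit 1305) (nat_lit 175) (nat_lit 1) .nil)), (nat_lit 12), (nat_lit 0), (nat_lit 0),
 (nat_lit 0), (26, 33, 44), [39, 448], 0⟩,
  ⟨⟨-9, -4, -52, 40, 23, -30, -22, 32, -7⟩, (.cons (nat_lit 585) (nat_lit 140) (nat_lit 1672) (nat_lit 1)
 (.cons (nat_lit 331) (nat_lit 207) (nat_lit 446) (nat_lit 1) .nil)), (nat_lit 20), (nat_lit 0), (nat_lit 0),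
 (nat_lit 0), (36, 28, 41), [1695, 275], 0⟩,
  mz,
  ⟨⟨19, 0, -63, 0, -47, 0, 42, 0, -23⟩, (.cons (nat_lit 1855) (nat_lit 779) (nat_lit 1) (nat_lit 1113) (.cons
 (nat_lit 1171) (nat_lit 1121) (nat_lit 1063) (nat_lit 1) .nil)), (nat_lit 29), (nat_lit 0), (nat_lit 0),
 (nat_lit 0), (16, 0, 23), [108, 214], 0⟩,
  ⟨⟨-39, 32, 8, 20, 33, 20, 6, 24, -41⟩, (.cons (nat_lit 2400) (nat_lit 1185) (nat_lit 501) (nat_lit 1) (.cons
 (nat_lit 1368) (nat_lit 1202) (nat_lit 775) (nat_lit 1) .nil)), (nat_lit 19), (nat_lit 0), (nat_lit 0),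
 (nat_lit 0), (25, 39, 7), [1180, 461], 0⟩,
  ⟨⟨17, -36, 28, 20, -23, -50, 38, 8, -1⟩, (.cons (nat_lit 1535) (nat_lit 1190) (nat_lit 149) (nat_lit 1)
 (.cons (nat_lit 943) (nat_lit 566) (nat_lit 1074) (nat_lit 1) .nil)), (nat_lit 16), (nat_lit 0), (nat_lit 0),
 (nat_lit 0), (2, 30, 10), [416, 995], 0⟩,
  ⟨⟨21, 32, -49, 2, -35, -36, -28, 20, -13⟩, (.cons (nat_lit 1360) (nat_lit 2356) (nat_lit 430) (nat_lit 1)
 (.cons (nat_lit 130) (nat_lit 1181) (nat_lit 788) (nat_lit 1) .nil)), (nat_lit 5), (nat_lit 0), (nat_lit 0),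
 (nat_lit 0), (30, 23, 7), [965, 668], 0⟩,
  ⟨⟨-39, -32, 8, 20, -33, 20, 6, -24, -41⟩, (.cons (nat_lit 2011) (nat_lit 1839) (nat_lit 1765) (nat_lit 1)
 (.cons (nat_lit 1346) (nat_lit 609) (nat_lit 572) (nat_lit 1) .nil)), (nat_lit 19), (nat_lit 0), (nat_lit 0),
 (nat_lit 0), (28, 23, 21), [1030, 197], 0⟩,
  mz,
  mz,
  ⟨⟨-45, 8, -4, 20, 33, -40, -6, -24, -35⟩, (.cons (nat_lit 2400) (nat_lit 1569) (nat_lit 575) (nat_lit 1)
 (.cons (nat_lit 1368) (nat_lit 387) (nat_lit 1208) (nat_lit 1) .nil)), (nat_lit 25), (nat_lit 0), (nat_lit 0),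
 (nat_lit 0), (40, 24, 21), [1789, 91], 0⟩,
  ⟨⟨-21, 32, -28, 2, 35, 34, 28, 20, -41⟩, (.cons (nat_lit 1934) (nat_lit 1943) (nat_lit 2040) (nat_lit 1)
 (.cons (nat_lit 770) (nat_lit 1183) (nat_lit 432) (nat_lit 1) .nil)), (nat_lit 46), (nat_lit 0), (nat_lit 0),
 (nat_lit 0), (30, 24, 7), [811, 69], 0⟩,
  ⟨⟨21, -44, 8, -20, -23, -30, 38, -8, -37⟩, (.cons (nat_lit 1342) (nat_lit 295) (nat_lit 1) (nat_lit 385)
 (.cons (nat_lit 744) (nat_lit 1082) (nat_lit 627) (nat_lit 1) .nil)), (nat_lit 15), (nat_lit 0), (nat_lit 0),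
 (nat_lit 0), (39, 30, 37), [317, 664], 0⟩,
  ⟨⟨-45, -8, -4, 20, -33, -40, -6, 24, -35⟩, (.cons (nat_lit 284) (nat_lit 643) (nat_lit 900) (nat_lit 1)
 (.cons (nat_lit 711) (nat_lit 712) (nat_lit 719) (nat_lit 1) .nil)), (nat_lit 25), (nat_lit 0), (nat_lit 0),
 (nat_lit 0), (29, 8, 7), [1430, 1249], 0⟩,
  ⟨⟨23, 0, -63, 0, -47, 0, 42, 0, -19⟩, (.cons (nat_lit 295) (nat_lit 1946) (nat_lit 434) (nat_lit 1) (.cons
 (nat_lit 835) (nat_lit 90) (nat_lit 1193) (nat_lit 1) .nil)), (nat_lit 18), (nat_lit 0), (nat_lit 0), (nat_lit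
 0), (40, 0, 24), [1717, 712], 0⟩,
  mz,
  ⟨⟨13, 36, 32, 40, -23, -10, 22, 32, -29⟩, (.cons (nat_lit 1432) (nat_lit 1803) (nat_lit 1) (nat_lit 371)
 (.cons (nat_lit 351) (nat_lit 977) (nat_lit 1210) (nat_lit 1) .nil)), (nat_lit 12), (nat_lit 0), (nat_lit 0),
 (nat_lit 0), (5, 19, 41), [1079, 313], 0⟩,
  ⟨⟨-9, 4, -52, 40, -23, -30, -22, -32, -7⟩, (.cons (nat_lit 1442) (nat_lit 521) (nat_lit 1767) (nat_lit 1)
 (.cons (nat_lit 1071) (nat_lit 853) (nat_lit 854) (nat_lit 1) .nil)), (nat_lit 20), (nat_lit 0), (nat_lit 0),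
 (nat_lit 0), (18, 14, 44), [438, 660], 0⟩,
  ⟨⟨51, -4, -32, 2, 45, -16, 12, -12, -49⟩, (.cons (nat_lit 2400) (nat_lit 537) (nat_lit 2154) (nat_lit 1)
 (.cons (nat_lit 1368) (nat_lit 761) (nat_lit 653) (nat_lit 1) .nil)), (nat_lit 33), (nat_lit 0), (nat_lit 0),
 (nat_lit 0), (25, 36, 28), [1411, 758], 0⟩,
  mz,
  ⟨⟨17, 36, 28, 20, 23, -50, 38, -8, -1⟩, (.cons (nat_lit 2394) (nat_lit 2269) (nat_lit 611) (nat_lit 1) (.cons
 (nat_lit 1175) (nat_lit 708) (nat_lit 663) (nat_lit 1) .nil)), (nat_lit 16), (nat_lit 0), (nat_lit 0),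
 (nat_lit 0), (28, 44, 46), [864, 88], 0⟩,
  ⟨⟨27, -32, -47, 40, 17, 0, 10, 16, -47⟩, (.cons (nat_lit 946) (nat_lit 349) (nat_lit 1615) (nat_lit 1) (.cons
 (nat_lit 340) (nat_lit 719) (nat_lit 951) (nat_lit 1) .nil)), (nat_lit 11), (nat_lit 0), (nat_lit 0), (nat_lit
 0), (46, 2, 24), [1769, 316], 0⟩,
  mz,
  ⟨⟨17, -48, -17, 40, 17, -40, -10, -16, -37⟩, (.cons (nat_lit 449) (nat_lit 1985) (nat_lit 1859) (nat_lit 1)
 (.cons (nat_lit 1200) (nat_lit 206) (nat_lit 78) (nat_lit 1) .nil)), (nat_lit 9), (nat_lit 0), (nat_lit 0),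
 (nat_lit 0), (6, 39, 2), [2077, 606], 0⟩,
  mz,
  mz,
  mz,
  ⟨⟨45, -16, -1, 22, 35, -36, 20, -28, -37⟩, (.cons (nat_lit 649) (nat_lit 1394) (nat_lit 1255) (nat_lit 1)
 (.cons (nat_lit 1356) (nat_lit 3) (nat_lit 1) (nat_lit 703) .nil)), (nat_lit 45), (nat_lit 0), (nat_lit 0),
 (nat_lit 0), (12, 9, 21), [1154, 1177], 0⟩,
  mz,
  ⟨⟨51, 4, -32, 2, -45, -16, 12, 12, -49⟩, (.cons (nat_lit 1439) (nat_lit 1355) (nat_lit 1699) (nat_lit 1)
 (.cons (nat_lit 1127) (nat_lit 258) (nat_lit 1311) (nat_lit 1) .nil)), (nat_lit 33), (nat_lit 0), (nat_lit 0),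
 (nat_lit 0), (7, 27, 21), [655, 589], 0⟩,
  ⟨⟨-21, -32, -28, 2, -35, 34, 28, -20, -41⟩, (.cons (nat_lit 1571) (nat_lit 759) (nat_lit 2204) (nat_lit 1)
 (.cons (nat_lit 1008) (nat_lit 191) (nat_lit 1332) (nat_lit 1) .nil)), (nat_lit 46), (nat_lit 0), (nat_lit 0),
 (nat_lit 0), (33, 17, 3), [740, 1057], 0⟩,
  ⟨⟨-45, 16, 44, -22, -35, -14, -20, 28, -17⟩, (.cons (nat_lit 1160) (nat_lit 727) (nat_lit 425) (nat_lit 1)
 (.cons (nat_lit 292) (nat_lit 357) (nat_lit 1221) (nat_lit 1) .nil)), (nat_lit 45), (nat_lit 0), (nat_lit 0),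
 (nat_lit 0), (34, 2, 36), [1280, 40], 0⟩]

/-- All the moves. -/
noncomputable def tabs : List (List (List Mv)) := [[[], t0_1, [], t0_3], [[], t1_1, [], t1_3], [], [], [[], t4_1, [], t4_3]]

/-- Subtrie. -/
noncomputable def T1 : Tr := (.ev (nat_lit 20) (nat_lit 35253129379852) (.nd (nat_lit 33) (.br (nat_lit 19)
 (.br (nat_lit 11) (.br (nat_lit 7) (.br (nat_lit 4) (.ch (nat_lit 1) (.ev (nat_lit 52) (nat_lit
 17914912571906) (.ev (nat_lit 244) (nat_lit 2147483648) (.ev (nat_lit 308) (nat_lit 4398046543872) (.nd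
 (nat_lit 752) (.br (nat_lit 3) (.ch (nat_lit 1) (.ev (nat_lit 768) (nat_lit 20512) (.nd (nat_lit 880) (.br
 (nat_lit 3) (.br (nat_lit 1) (.ch (nat_lit 0) (.ev (nat_lit 896) (nat_lit 70369013925888) (.ev (nat_lit 2096)
 (nat_lit 2097152) (.fin (nat_lit 576462401573438011))))) (.ch (nat_lit 1) (.ev (nat_lit 896) (nat_lit
 70369149716480) (.ev (nat_lit 909) (nat_lit 1048576) .dd)))) (.br (nat_lit 5) (.ch (nat_lit 3) (.ev (nat_lit
 896) (nat_lit 1574912) (.ev (nat_lit 964) (nat_lit 262144) (.ev (nat_lit 1940) (nat_lit 134217728) (.ev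
 (nat_lit 2048) (nat_lit 70368744177664) (.nd (nat_lit 2704) (.br (nat_lit 6) (.ch (nat_lit 5) (.ev (nat_lit
 2720) (nat_lit 2097152) (.ev (nat_lit 2733) (nat_lit 268435456) .dd))) (.ch (nat_lit 6) (.fin (nat_lit
 576462401583923775)))))))))) (.ch (nat_lit 5) (.ev (nat_lit 896) (nat_lit 404750336) (.ev (nat_lit 964)
 (nat_lit 262144) (.ev (nat_lit 1668) (nat_lit 1048576) (.ev (nat_lit 1904) (nat_lit 524288) (.ev (nat_lit
 2016) (nat_lit 2048) (.ev (nat_lit 2029) (nat_lit 70368744177664) .dd)))))))))))) (.br (nat_lit 6) (.ch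
 (nat_lit 3) (.ev (nat_lit 768) (nat_lit 3954688) (.nd (nat_lit 880) (.br (nat_lit 3) (.ch (nat_lit 1) (.ev
 (nat_lit 896) (nat_lit 70368878395424) (.ev (nat_lit 909) (nat_lit 268435456) .dd))) (.br (nat_lit 6) (.ch
 (nat_lit 3) (.ev (nat_lit 896) (nat_lit 268435488) (.ev (nat_lit 2452) (nat_lit 134217728) (.ev (nat_lit 2461)
 (nat_lit 70368744177664) .dd)))) (.ch (nat_lit 6) (.ev (nat_lit 896) (nat_lit 70368878395392) (.ev (nat_lit
 1520) (nat_lit 32) (.ev (nat_lit 1533) (nat_lit 268435456) .dd))))))))) (.ch (nat_lit 6) (.ev (nat_lit 768)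
 (nat_lit 70369148141568) (.ev (nat_lit 790) (nat_lit 524288) (.nd (nat_lit 880) (.br (nat_lit 3) (.ch (nat_lit
 0) (.ev (nat_lit 896) (nat_lit 2117632) (.fin (nat_lit 576455804509962794)))) (.br (nat_lit 5) (.ch (nat_lit
 3) (.ev (nat_lit 896) (nat_lit 2080) (.ev (nat_lit 1392) (nat_lit 4096) (.fin (nat_lit 576448107907596820)))))
 (.ch (nat_lit 5) (.ev (nat_lit 896) (nat_lit 18464) (.ev (nat_lit 912) (nat_lit 4096) (.ev (nat_lit 925)
 (nat_lit 2097152) .dd))))))))))))))))) (.br (nat_lit 5) (.ch (nat_lit 4) (.ev (nat_lit 52) (nat_lit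
 22029493617154) (.ev (nat_lit 148) (nat_lit 32768) (.ev (nat_lit 180) (nat_lit 268435456) (.ev (nat_lit 276)
 (nat_lit 134217728) (.ev (nat_lit 404) (nat_lit 70368744177664) (.ev (nat_lit 512) (nat_lit 1050624) (.nd
 (nat_lit 752) (.br (nat_lit 2) (.ch (nat_lit 0) (.ev (nat_lit 768) (nat_lit 8589938688) (.nd (nat_lit 880)
 (.br (nat_lit 5) (.br (nat_lit 4) (.ch (nat_lit 1) (.ev (nat_lit 896) (nat_lit 274878431264) (.ev (nat_lit
 909) (nat_lit 2147483648) .dd))) (.ch (nat_lit 4) (.ev (nat_lit 896) (nat_lit 277025390624) (.ev (nat_lit 909)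
 (nat_lit 524288) .dd)))) (.br (nat_lit 6) (.ch (nat_lit 5) (.ev (nat_lit 896) (nat_lit 2147483648) (.ev
 (nat_lit 1044) (nat_lit 524288) (.ev (nat_lit 2372) (nat_lit 32) (.ev (nat_lit 2381) (nat_lit 274877906944)
 .dd))))) (.ch (nat_lit 6) (.ev (nat_lit 896) (nat_lit 524320) (.ev (nat_lit 2160) (nat_lit 2147483648) (.ev
 (nat_lit 2173) (nat_lit 274877906944) .dd))))))))) (.br (nat_lit 3) (.ch (nat_lit 2) (.ev (nat_lit 768)
 (nat_lit 283468365856) (.nd (nat_lit 880) (.br (nat_lit 5) (.br (nat_lit 4) (.ch (nat_lit 0) (.fin (nat_lit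
 576462401573438018))) (.ch (nat_lit 4) (.ev (nat_lit 964) (nat_lit 4096) (.ev (nat_lit 973) (nat_lit
 2147483648) .dd)))) (.br (nat_lit 6) (.ch (nat_lit 5) (.ev (nat_lit 896) (nat_lit 2147483648) (.ev (nat_lit
 909) (nat_lit 4096) .dd))) (.ch (nat_lit 6) (.ev (nat_lit 896) (nat_lit 4096) (.ev (nat_lit 909) (nat_lit
 2147483648) .dd)))))))) (.ch (nat_lit 3) (.ev (nat_lit 768) (nat_lit 2148007936) (.nd (nat_lit 880) (.br
 (nat_lit 3) (.br (nat_lit 1) (.ch (nat_lit 0) (.ev (nat_lit 896) (nat_lit 8589934624) (.ev (nat_lit 964)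
 (nat_lit 4096) (.ev (nat_lit 973) (nat_lit 274877906944) .dd)))) (.ch (nat_lit 1) (.ev (nat_lit 896) (nat_lit
 32) (.ev (nat_lit 2004) (nat_lit 274877906944) (.ev (nat_lit 2144) (nat_lit 8589938688) .dd))))) (.br (nat_lit
 6) (.ch (nat_lit 3) (.ev (nat_lit 896) (nat_lit 274877911040) (.ev (nat_lit 1632) (nat_lit 8589934592) (.ev
 (nat_lit 1645) (nat_lit 32) .dd)))) (.ch (nat_lit 6) (.ev (nat_lit 896) (nat_lit 283467845632) (.ev (nat_lit
 909) (nat_lit 32) .dd)))))))))))))))))) (.ch (nat_lit 5) (.ev (nat_lit 52) (nat_lit 4407174627330) (.ev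
 (nat_lit 180) (nat_lit 67141632) (.ev (nat_lit 244) (nat_lit 4294967296) (.ev (nat_lit 276) (nat_lit 16384)
 (.ev (nat_lit 436) (nat_lit 32) (.nd (nat_lit 752) (.br (nat_lit 3) (.br (nat_lit 2) (.ch (nat_lit 1) (.ev
 (nat_lit 768) (nat_lit 311385659392) (.nd (nat_lit 880) (.br (nat_lit 3) (.ch (nat_lit 1) (.ev (nat_lit 896)
 (nat_lit 87961066537472) (.ev (nat_lit 909) (nat_lit 268435456) .dd))) (.br (nat_lit 5) (.ch (nat_lit 3) (.ev
 (nat_lit 896) (nat_lit 134217728) (.ev (nat_lit 964) (nat_lit 17592186044416) (.ev (nat_lit 1168) (nat_lit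
 70368744177664) (.ev (nat_lit 2180) (nat_lit 512) (.nd (nat_lit 2736) (.br (nat_lit 6) (.ch (nat_lit 2) (.ev
 (nat_lit 2752) (nat_lit 270532608) .dd)) (.ch (nat_lit 6) (.fin (nat_lit 576462401583923775)))))))))) (.ch
 (nat_lit 5) (.ev (nat_lit 896) (nat_lit 17592454479872) (.ev (nat_lit 2388) (nat_lit 512) (.ev (nat_lit 2500)
 (nat_lit 70368744177664) (.nd (nat_lit 2736) (.br (nat_lit 6) (.ch (nat_lit 2) (.ev (nat_lit 2752) (nat_lit
 136314880) .dd)) (.ch (nat_lit 6) (.fin (nat_lit 576456904011104872)))))))))))))) (.ch (nat_lit 2) (.ev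
 (nat_lit 768) (nat_lit 88270304708608) (.nd (nat_lit 880) (.br (nat_lit 5) (.br (nat_lit 4) (.ch (nat_lit 0)
 (.ev (nat_lit 896) (nat_lit 2415919104) (.ev (nat_lit 912) (nat_lit 4096) (.ev (nat_lit 925) (nat_lit 512)
 .dd)))) (.ch (nat_lit 4) (.ev (nat_lit 896) (nat_lit 512) (.ev (nat_lit 1140) (nat_lit 2147483648) (.ev
 (nat_lit 1488) (nat_lit 4096) (.ev (nat_lit 1501) (nat_lit 268435456) .dd)))))) (.br (nat_lit 6) (.ch (nat_lit
 5) (.ev (nat_lit 896) (nat_lit 4096) (.ev (nat_lit 964) (nat_lit 268435456) (.ev (nat_lit 1968) (nat_lit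
 2147483648) (.ev (nat_lit 1981) (nat_lit 512) .dd))))) (.ch (nat_lit 6) (.ev (nat_lit 896) (nat_lit
 2415923712) .dd)))))))) (.br (nat_lit 6) (.ch (nat_lit 3) (.ev (nat_lit 768) (nat_lit 2552760832) (.nd
 (nat_lit 880) (.br (nat_lit 5) (.br (nat_lit 3) (.ch (nat_lit 0) (.ev (nat_lit 896) (nat_lit 309237649408)
 (.ev (nat_lit 1940) (nat_lit 17592186044416) (.ev (nat_lit 1949) (nat_lit 70368744177664) .dd)))) (.ch
 (nat_lit 3) (.ev (nat_lit 896) (nat_lit 87960930226176) (.ev (nat_lit 1856) (nat_lit 274877906944) (.ev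
 (nat_lit 1869) (nat_lit 34359738368) .dd))))) (.br (nat_lit 6) (.ch (nat_lit 5) (.ev (nat_lit 896) (nat_lit
 88235808129024) (.ev (nat_lit 1056) (nat_lit 34359738368) (.ev (nat_lit 1069) (nat_lit 4096) .dd)))) (.ch
 (nat_lit 6) (.ev (nat_lit 896) (nat_lit 88270167871488) .dd))))))) (.ch (nat_lit 6) (.ev (nat_lit 768)
 (nat_lit 87961200759296) (.nd (nat_lit 880) (.br (nat_lit 3) (.ch (nat_lit 0) (.ev (nat_lit 896) (nat_lit
 309371863040) (.ev (nat_lit 964) (nat_lit 2147483648) (.ev (nat_lit 1536) (nat_lit 524288) (.ev (nat_lit 1549)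
 (nat_lit 2048) .dd))))) (.br (nat_lit 6) (.ch (nat_lit 3) (.ev (nat_lit 896) (nat_lit 524288) (.ev (nat_lit
 964) (nat_lit 309371863040) (.ev (nat_lit 1732) (nat_lit 2147483648) (.ev (nat_lit 1741) (nat_lit 2048)
 .dd))))) (.ch (nat_lit 6) (.ev (nat_lit 896) (nat_lit 277159610368) (.nd (nat_lit 2704) (.br (nat_lit 5) (.ch
 (nat_lit 4) (.ev (nat_lit 2720) (nat_lit 34360262656) .dd)) (.ch (nat_lit 5) (.fin (nat_lit
 576447008406454826))))))))))))))))))))))) (.br (nat_lit 8) (.ch (nat_lit 7) (.ev (nat_lit 52) (nat_lit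
 39061045762) (.ev (nat_lit 116) (nat_lit 17592186048512) (.ev (nat_lit 148) (nat_lit 262144) (.ev (nat_lit
 212) (nat_lit 2147483648) (.nd (nat_lit 752) (.br (nat_lit 2) (.ch (nat_lit 1) (.ev (nat_lit 768) (nat_lit
 70643622084640) (.nd (nat_lit 880) (.br (nat_lit 3) (.ch (nat_lit 1) (.ev (nat_lit 896) (nat_lit
 4398046513152) (.ev (nat_lit 928) (nat_lit 8589934592) (.ev (nat_lit 1376) (nat_lit 32768) (.ev (nat_lit 1440)
 (nat_lit 536870912) (.ev (nat_lit 1453) (nat_lit 67108864) .dd)))))) (.br (nat_lit 6) (.ch (nat_lit 3) (.ev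
 (nat_lit 896) (nat_lit 67141632) (.ev (nat_lit 992) (nat_lit 536870912) (.ev (nat_lit 1568) (nat_lit 2048)
 (.fin (nat_lit 576434913789035028)))))) (.ch (nat_lit 6) (.ev (nat_lit 896) (nat_lit 9126807552) (.ev (nat_lit
 964) (nat_lit 67108864) (.ev (nat_lit 1044) (nat_lit 4398046511104) (.ev (nat_lit 1053) (nat_lit 32768)
 .dd)))))))))) (.br (nat_lit 3) (.ch (nat_lit 2) (.ev (nat_lit 768) (nat_lit 70652279130144) (.nd (nat_lit 880)
 (.br (nat_lit 1) (.ch (nat_lit 0) (.ev (nat_lit 896) (nat_lit 32768) (.ev (nat_lit 1044) (nat_lit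
 4398046511104) (.ev (nat_lit 1053) (nat_lit 536870912) .dd)))) (.br (nat_lit 4) (.ch (nat_lit 1) (.ev (nat_lit
 896) (nat_lit 536903680) (.ev (nat_lit 909) (nat_lit 4398046511104) .dd))) (.ch (nat_lit 4) (.ev (nat_lit 896)
 (nat_lit 4398583382016) (.ev (nat_lit 909) (nat_lit 32768) .dd)))))))) (.ch (nat_lit 3) (.ev (nat_lit 768)
 (nat_lit 4407240460288) (.nd (nat_lit 880) (.br (nat_lit 3) (.br (nat_lit 1) (.ch (nat_lit 0) (.ev (nat_lit
 896) (nat_lit 70643622084640) .dd)) (.ch (nat_lit 1) (.ev (nat_lit 896) (nat_lit 70643622084608) (.ev (nat_lit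
 909) (nat_lit 32) .dd)))) (.br (nat_lit 5) (.ch (nat_lit 3) (.ev (nat_lit 896) (nat_lit 274877906976) (.ev
 (nat_lit 909) (nat_lit 70368744177664) .dd))) (.ch (nat_lit 5) (.ev (nat_lit 896) (nat_lit 32) (.fin (nat_lit
 576455804495282730))))))))))))))))) (.br (nat_lit 10) (.ch (nat_lit 8) (.ev (nat_lit 52) (nat_lit
 290179780608) (.ev (nat_lit 180) (nat_lit 2097152) (.ev (nat_lit 436) (nat_lit 70368744177664) (.ev (nat_lit
 496) (nat_lit 557088) (.nd (nat_lit 752) (.br (nat_lit 2) (.ch (nat_lit 1) (.ev (nat_lit 768) (nat_lit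
 21990903660544) (.nd (nat_lit 880) (.br (nat_lit 1) (.ch (nat_lit 0) (.ev (nat_lit 896) (nat_lit 34360000514)
 (.ev (nat_lit 912) (nat_lit 67108864) (.ev (nat_lit 1408) (nat_lit 512) (.ev (nat_lit 1421) (nat_lit 2048)
 .dd))))) (.br (nat_lit 6) (.ch (nat_lit 1) (.ev (nat_lit 896) (nat_lit 34360003072) (.ev (nat_lit 976)
 (nat_lit 2) (.ev (nat_lit 989) (nat_lit 67108864) .dd)))) (.ch (nat_lit 6) (.ev (nat_lit 896) (nat_lit
 67111424) (.ev (nat_lit 928) (nat_lit 34359738368) (.nd (nat_lit 2656) (.br (nat_lit 5) (.ch (nat_lit 3) (.ev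
 (nat_lit 2672) (nat_lit 262146) .dd)) (.ch (nat_lit 5) (.fin (nat_lit 576434913799520792))))))))))))) (.br
 (nat_lit 3) (.ch (nat_lit 2) (.ev (nat_lit 768) (nat_lit 22024793885186) (.nd (nat_lit 880) (.br (nat_lit 5)
 (.br (nat_lit 4) (.ch (nat_lit 0) (.ev (nat_lit 896) (nat_lit 16384) (.ev (nat_lit 909) (nat_lit 536870912)
 .dd))) (.ch (nat_lit 4) (.ev (nat_lit 896) (nat_lit 536870912) (.ev (nat_lit 909) (nat_lit 16384) .dd)))) (.br
 (nat_lit 6) (.ch (nat_lit 5) (.ev (nat_lit 896) (nat_lit 16384) (.ev (nat_lit 909) (nat_lit 536870912) .dd)))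
 (.ch (nat_lit 6) (.ev (nat_lit 896) (nat_lit 536870912) (.ev (nat_lit 909) (nat_lit 16384) .dd)))))))) (.ch
 (nat_lit 3) (.ev (nat_lit 768) (nat_lit 604260352) (.nd (nat_lit 880) (.br (nat_lit 1) (.ch (nat_lit 0) (.ev
 (nat_lit 896) (nat_lit 17592186044930) (.ev (nat_lit 1044) (nat_lit 4398046511104) (.ev (nat_lit 1350)
 (nat_lit 34493956096) .dd)))) (.br (nat_lit 6) (.ch (nat_lit 1) (.ev (nat_lit 896) (nat_lit 4432540467200)
 (.ev (nat_lit 1504) (nat_lit 512) (.nd (nat_lit 2736) (.br (nat_lit 4) (.ch (nat_lit 2) (.fin (nat_lit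
 576434913774354964))) (.ch (nat_lit 4) (.ev (nat_lit 2752) (nat_lit 17592186044418) .dd))))))) (.ch (nat_lit
 6) (.ev (nat_lit 896) (nat_lit 17626680001024) (.ev (nat_lit 1268) (nat_lit 2) (.ev (nat_lit 1277) (nat_lit
 4398046511104) .dd))))))))))))))))) (.ch (nat_lit 10) (.ev (nat_lit 52) (nat_lit 4436771475968) (.ev (nat_lit
 116) (nat_lit 32768) (.ev (nat_lit 180) (nat_lit 16384) (.ev (nat_lit 212) (nat_lit 536870912) (.ev (nat_lit
 276) (nat_lit 274877906944) (.nd (nat_lit 752) (.br (nat_lit 3) (.br (nat_lit 2) (.ch (nat_lit 0) (.ev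
 (nat_lit 768) (nat_lit 70377603336226) (.nd (nat_lit 880) (.br (nat_lit 5) (.ch (nat_lit 0) (.ev (nat_lit 896)
 (nat_lit 17594467745792) .dd)) (.br (nat_lit 6) (.ch (nat_lit 5) (.ev (nat_lit 896) (nat_lit 17592186044416)
 (.ev (nat_lit 1108) (nat_lit 2147483648) (.ev (nat_lit 1117) (nat_lit 134217728) .dd)))) (.ch (nat_lit 6) (.ev
 (nat_lit 896) (nat_lit 2281701376) (.ev (nat_lit 909) (nat_lit 17592186044416) .dd)))))))) (.ch (nat_lit 2)
 (.ev (nat_lit 768) (nat_lit 17600910723106) (.nd (nat_lit 880) (.br (nat_lit 5) (.br (nat_lit 1) (.ch (nat_lit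
 0) (.ev (nat_lit 896) (nat_lit 70369012613120) (.ev (nat_lit 912) (nat_lit 262144) (.ev (nat_lit 925) (nat_lit
 2147483648) .dd)))) (.ch (nat_lit 1) (.ev (nat_lit 896) (nat_lit 2415919104) (.fin (nat_lit
 576458003529024059))))) (.br (nat_lit 6) (.ch (nat_lit 5) (.ev (nat_lit 896) (nat_lit 70370891923456) (.ev
 (nat_lit 909) (nat_lit 268435456) .dd))) (.ch (nat_lit 6) (.ev (nat_lit 896) (nat_lit 262144) (.ev (nat_lit
 964) (nat_lit 70368744177664) (.ev (nat_lit 1408) (nat_lit 2147483648) (.ev (nat_lit 1421) (nat_lit 268435456)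
 .dd))))))))))) (.br (nat_lit 6) (.ch (nat_lit 3) (.ev (nat_lit 768) (nat_lit 2282489856) (.nd (nat_lit 880)
 (.br (nat_lit 3) (.br (nat_lit 1) (.ch (nat_lit 0) (.ev (nat_lit 896) (nat_lit 8858370082) (.ev (nat_lit 1072)
 (nat_lit 87960930222080) .dd))) (.ch (nat_lit 1) (.ev (nat_lit 896) (nat_lit 70377334112256) (.ev (nat_lit
 964) (nat_lit 268435456) (.ev (nat_lit 1056) (nat_lit 32) (.fin (nat_lit 576487690347168364))))))) (.br
 (nat_lit 6) (.ch (nat_lit 3) (.ev (nat_lit 896) (nat_lit 70369012613122) (.ev (nat_lit 1332) (nat_lit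
 17592186044416) (.ev (nat_lit 1856) (nat_lit 8589934592) (.ev (nat_lit 1869) (nat_lit 32) .dd))))) (.ch
 (nat_lit 6) (.ev (nat_lit 896) (nat_lit 87969520156704) (.nd (nat_lit 2704) (.br (nat_lit 6) (.ch (nat_lit 0)
 (.ev (nat_lit 2720) (nat_lit 268435458) .dd)) (.ch (nat_lit 6) (.fin (nat_lit 576466799628337727))))))))))))
 (.ch (nat_lit 6) (.ev (nat_lit 768) (nat_lit 87963346141186) (.nd (nat_lit 880) (.br (nat_lit 5) (.br (nat_lit
 3) (.ch (nat_lit 0) (.ev (nat_lit 896) (nat_lit 134742016) (.ev (nat_lit 2064) (nat_lit 262144) (.ev (nat_lit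
 2228) (nat_lit 8589934592) (.nd (nat_lit 2704) (.br (nat_lit 3) (.ch (nat_lit 1) (.fin (nat_lit
 576455804509962794))) (.ch (nat_lit 3) (.ev (nat_lit 2720) (nat_lit 2080) .dd)))))))) (.ch (nat_lit 3) (.ev
 (nat_lit 896) (nat_lit 8590723104) (.ev (nat_lit 909) (nat_lit 134217728) .dd)))) (.br (nat_lit 6) (.ch
 (nat_lit 5) (.ev (nat_lit 896) (nat_lit 8590723104) (.ev (nat_lit 909) (nat_lit 134217728) .dd))) (.ch
 (nat_lit 6) (.ev (nat_lit 896) (nat_lit 8590198816) (.ev (nat_lit 1140) (nat_lit 134217728) (.ev (nat_lit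
 1149) (nat_lit 524288) .dd))))))))))))))))))))) (.br (nat_lit 15) (.br (nat_lit 12) (.ch (nat_lit 11) (.ev
 (nat_lit 52) (nat_lit 21999360412160) (.ev (nat_lit 148) (nat_lit 67108864) (.ev (nat_lit 212) (nat_lit
 4294967296) (.ev (nat_lit 244) (nat_lit 2097152) (.ev (nat_lit 308) (nat_lit 134217728) (.nd (nat_lit 752)
 (.br (nat_lit 3) (.br (nat_lit 2) (.ch (nat_lit 1) (.ev (nat_lit 768) (nat_lit 70677981876256) (.nd (nat_lit
 880) (.br (nat_lit 3) (.ch (nat_lit 1) (.ev (nat_lit 896) (nat_lit 2148270080) (.ev (nat_lit 964) (nat_lit 2)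
 (.ev (nat_lit 973) (nat_lit 268435456) .dd)))) (.br (nat_lit 6) (.ch (nat_lit 3) (.ev (nat_lit 896) (nat_lit
 2) (.ev (nat_lit 912) (nat_lit 262144) (.ev (nat_lit 1008) (nat_lit 524288) (.ev (nat_lit 1440) (nat_lit
 2147483648) (.ev (nat_lit 1453) (nat_lit 268435456) .dd)))))) (.ch (nat_lit 6) (.ev (nat_lit 896) (nat_lit
 268959744) (.ev (nat_lit 964) (nat_lit 2147483648) (.fin (nat_lit 576434913799520792)))))))))) (.ch (nat_lit
 2) (.ev (nat_lit 768) (nat_lit 70680398286882) (.nd (nat_lit 880) (.br (nat_lit 5) (.ch (nat_lit 1) (.ev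
 (nat_lit 896) (nat_lit 294912) .dd)) (.br (nat_lit 6) (.ch (nat_lit 5) (.ev (nat_lit 896) (nat_lit 32768) (.ev
 (nat_lit 909) (nat_lit 262144) .dd))) (.ch (nat_lit 6) (.ev (nat_lit 1940) (nat_lit 32768) (.ev (nat_lit 1949)
 (nat_lit 262144) .dd))))))))) (.br (nat_lit 6) (.ch (nat_lit 3) (.ev (nat_lit 768) (nat_lit 2148319264) (.nd
 (nat_lit 880) (.br (nat_lit 5) (.br (nat_lit 3) (.ch (nat_lit 0) (.ev (nat_lit 896) (nat_lit 309506080770)
 (.ev (nat_lit 2048) (nat_lit 4096) (.ev (nat_lit 2061) (nat_lit 70368744177664) .dd)))) (.ch (nat_lit 3) (.ev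
 (nat_lit 896) (nat_lit 70643890524160) (.ev (nat_lit 2144) (nat_lit 2) (.ev (nat_lit 2157) (nat_lit
 34359738368) .dd))))) (.br (nat_lit 6) (.ch (nat_lit 5) (.ev (nat_lit 896) (nat_lit 268435458) (.ev (nat_lit
 964) (nat_lit 4096) (.ev (nat_lit 2640) (nat_lit 34359738368) (.fin (nat_lit 576455804495282730)))))) (.ch
 (nat_lit 6) (.ev (nat_lit 896) (nat_lit 70677981827072) (.nd (nat_lit 2736) (.br (nat_lit 6) (.ch (nat_lit 0)
 (.ev (nat_lit 2752) (nat_lit 2) (.ev (nat_lit 2765) (nat_lit 268435456) .dd))) (.ch (nat_lit 6) (.fin (nat_lit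
 576466799628337727)))))))))))) (.ch (nat_lit 6) (.ev (nat_lit 768) (nat_lit 70680397778946) (.nd (nat_lit 880)
 (.br (nat_lit 1) (.ch (nat_lit 0) (.ev (nat_lit 1604) (nat_lit 262144) (.ev (nat_lit 1648) (nat_lit 524288)
 (.ev (nat_lit 2016) (nat_lit 32) (.ev (nat_lit 2029) (nat_lit 16384) .dd))))) (.br (nat_lit 5) (.ch (nat_lit
 1) (.ev (nat_lit 896) (nat_lit 278528) (.ev (nat_lit 2356) (nat_lit 524288) (.ev (nat_lit 2365) (nat_lit 32)
 .dd)))) (.ch (nat_lit 5) (.ev (nat_lit 896) (nat_lit 540704) (.ev (nat_lit 909) (nat_lit 262144)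
 .dd))))))))))))))))) (.br (nat_lit 13) (.ch (nat_lit 12) (.ev (nat_lit 52) (nat_lit 6979600384) (.ev (nat_lit
 64) (nat_lit 92677277784610) .dd))) (.ch (nat_lit 13) (.ev (nat_lit 52) (nat_lit 87963480379392) (.ev (nat_lit
 84) (nat_lit 274877906946) (.ev (nat_lit 212) (nat_lit 2359296) (.ev (nat_lit 276) (nat_lit 536903680) (.ev
 (nat_lit 340) (nat_lit 8589934592) (.nd (nat_lit 752) (.br (nat_lit 3) (.ch (nat_lit 0) (.ev (nat_lit 768)
 (nat_lit 4436702265856) (.nd (nat_lit 880) (.br (nat_lit 5) (.br (nat_lit 4) (.ch (nat_lit 0) (.ev (nat_lit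
 896) (nat_lit 67635232) .dd)) (.ch (nat_lit 4) (.ev (nat_lit 896) (nat_lit 524320) (.ev (nat_lit 964) (nat_lit
 2048) (.ev (nat_lit 973) (nat_lit 67108864) .dd))))) (.br (nat_lit 6) (.ch (nat_lit 5) (.ev (nat_lit 896)
 (nat_lit 67108864) (.ev (nat_lit 1604) (nat_lit 32) (.ev (nat_lit 1904) (nat_lit 2048) (.ev (nat_lit 1917)
 (nat_lit 524288) .dd))))) (.ch (nat_lit 6) (.ev (nat_lit 896) (nat_lit 526368) (.ev (nat_lit 909) (nat_lit
 67108864) .dd)))))))) (.br (nat_lit 6) (.ch (nat_lit 3) (.ev (nat_lit 768) (nat_lit 68684288) (.nd (nat_lit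
 880) (.br (nat_lit 3) (.ch (nat_lit 0) (.ev (nat_lit 896) (nat_lit 32) (.ev (nat_lit 1392) (nat_lit
 4294967296) (.ev (nat_lit 1520) (nat_lit 4432406249472) .dd)))) (.br (nat_lit 5) (.ch (nat_lit 3) (.ev
 (nat_lit 896) (nat_lit 4436701216768) (.ev (nat_lit 909) (nat_lit 32) .dd))) (.ch (nat_lit 5) (.ev (nat_lit
 896) (nat_lit 38654705696) (.ev (nat_lit 909) (nat_lit 4398046511104) .dd)))))))) (.ch (nat_lit 6) (.ev
 (nat_lit 768) (nat_lit 4402341478432) (.ev (nat_lit 806) (nat_lit 2048) (.nd (nat_lit 880) (.br (nat_lit 5)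
 (.br (nat_lit 1) (.ch (nat_lit 0) (.ev (nat_lit 896) (nat_lit 34359738880) (.ev (nat_lit 1872) (nat_lit
 524288) (.nd (nat_lit 2704) (.br (nat_lit 3) (.ch (nat_lit 0) (.fin (nat_lit 576465700110418540))) (.ch
 (nat_lit 3) (.ev (nat_lit 2720) (nat_lit 1048576) (.ev (nat_lit 2733) (nat_lit 67108864) .dd)))))))) (.ch
 (nat_lit 1) (.ev (nat_lit 896) (nat_lit 34427371520) (.ev (nat_lit 912) (nat_lit 1048576) (.ev (nat_lit 925)
 (nat_lit 512) .dd))))) (.br (nat_lit 6) (.ch (nat_lit 5) (.ev (nat_lit 896) (nat_lit 34428420096) (.ev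
 (nat_lit 909) (nat_lit 512) .dd))) (.ch (nat_lit 6) (.ev (nat_lit 896) (nat_lit 68157952) (.fin (nat_lit
 576447008406454826))))))))))))))))))))) (.br (nat_lit 17) (.br (nat_lit 16) (.ch (nat_lit 15) (.ev (nat_lit
 52) (nat_lit 4675611938850) (.ev (nat_lit 180) (nat_lit 134217728) (.ev (nat_lit 212) (nat_lit 512) (.ev
 (nat_lit 308) (nat_lit 4294967296) (.ev (nat_lit 448) (nat_lit 34360264704) (.nd (nat_lit 752) (.br (nat_lit
 2) (.ch (nat_lit 0) (.ev (nat_lit 768) (nat_lit 87961198657536) (.ev (nat_lit 1760) (nat_lit 262144) (.ev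
 (nat_lit 1968) (nat_lit 32768) (.ev (nat_lit 2004) (nat_lit 8589934592) (.ev (nat_lit 2013) (nat_lit 67108864)
 .dd)))))) (.br (nat_lit 3) (.ch (nat_lit 2) (.ev (nat_lit 768) (nat_lit 17600843087872) (.nd (nat_lit 880)
 (.br (nat_lit 5) (.br (nat_lit 4) (.ch (nat_lit 1) (.ev (nat_lit 896) (nat_lit 268468224) (.fin (nat_lit
 576464600592499269)))) (.ch (nat_lit 4) (.ev (nat_lit 896) (nat_lit 70369012875264) (.ev (nat_lit 909)
 (nat_lit 32768) .dd)))) (.br (nat_lit 6) (.ch (nat_lit 5) (.ev (nat_lit 896) (nat_lit 70369012645888) (.ev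
 (nat_lit 909) (nat_lit 262144) .dd))) (.ch (nat_lit 6) (.ev (nat_lit 896) (nat_lit 70368744439808) (.fin
 (nat_lit 576479993761579583))))))))) (.ch (nat_lit 3) (.ev (nat_lit 768) (nat_lit 67403776) (.nd (nat_lit 880)
 (.br (nat_lit 5) (.br (nat_lit 3) (.ch (nat_lit 1) (.ev (nat_lit 896) (nat_lit 87969788592128) .dd)) (.ch
 (nat_lit 3) (.ev (nat_lit 992) (nat_lit 70368744177664) (.ev (nat_lit 2116) (nat_lit 17592454479872) (.ev
 (nat_lit 2125) (nat_lit 8589934592) .dd))))) (.br (nat_lit 6) (.ch (nat_lit 5) (.ev (nat_lit 896) (nat_lit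
 87961198657536) (.ev (nat_lit 909) (nat_lit 8589934592) .dd))) (.ch (nat_lit 6) (.ev (nat_lit 896) (nat_lit
 87960930222080) (.ev (nat_lit 1312) (nat_lit 268435456) (.ev (nat_lit 1325) (nat_lit 8589934592)
 .dd)))))))))))))))))) (.ch (nat_lit 16) (.ev (nat_lit 52) (nat_lit 87963749074976) (.ev (nat_lit 84) (nat_lit
 32768) (.ev (nat_lit 148) (nat_lit 512) (.ev (nat_lit 180) (nat_lit 274877906944) (.ev (nat_lit 464) (nat_lit
 4398046511104) (.ev (nat_lit 640) (nat_lit 268439552) (.nd (nat_lit 752) (.br (nat_lit 1) (.ch (nat_lit 0)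
 (.ev (nat_lit 768) (nat_lit 47247785986) (.ev (nat_lit 964) (nat_lit 524288) (.ev (nat_lit 973) (nat_lit
 67108864) .dd)))) (.br (nat_lit 6) (.ch (nat_lit 1) (.ev (nat_lit 768) (nat_lit 69206016) (.nd (nat_lit 880)
 (.br (nat_lit 3) (.ch (nat_lit 0) (.ev (nat_lit 896) (nat_lit 4296015874) (.ev (nat_lit 1108) (nat_lit
 42949672960) (.ev (nat_lit 1117) (nat_lit 524288) .dd)))) (.br (nat_lit 5) (.ch (nat_lit 3) (.ev (nat_lit 896)
 (nat_lit 8590983168) (.ev (nat_lit 992) (nat_lit 2) (.ev (nat_lit 1424) (nat_lit 34359738368) (.fin (nat_lit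
 576500884465730128)))))) (.ch (nat_lit 5) (.ev (nat_lit 896) (nat_lit 47245164546) (.ev (nat_lit 909) (nat_lit
 1048576) .dd)))))))) (.ch (nat_lit 6) (.ev (nat_lit 768) (nat_lit 524290) (.nd (nat_lit 880) (.br (nat_lit 3)
 (.ch (nat_lit 0) (.ev (nat_lit 896) (nat_lit 38654705664) (.ev (nat_lit 1280) (nat_lit 2097152) (.ev (nat_lit
 1360) (nat_lit 8589934592) (.fin (nat_lit 576456904011104788)))))) (.br (nat_lit 5) (.ch (nat_lit 3) (.ev
 (nat_lit 896) (nat_lit 4298113024) (.ev (nat_lit 944) (nat_lit 8589934592) (.ev (nat_lit 964) (nat_lit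
 34359738368) (.ev (nat_lit 973) (nat_lit 67108864) .dd))))) (.ch (nat_lit 5) (.ev (nat_lit 896) (nat_lit
 43019927552) (.ev (nat_lit 909) (nat_lit 4294967296) .dd))))))))))))))))))) (.br (nat_lit 18) (.ch (nat_lit
 17) (.ev (nat_lit 52) (nat_lit 42951245826) (.ev (nat_lit 84) (nat_lit 2147483648) (.ev (nat_lit 116) (nat_lit
 805306368) (.ev (nat_lit 308) (nat_lit 4096) (.nd (nat_lit 752) (.br (nat_lit 1) (.ch (nat_lit 0) (.ev
 (nat_lit 768) (nat_lit 74766859895296) (.nd (nat_lit 880) (.br (nat_lit 5) (.ch (nat_lit 4) (.ev (nat_lit 896)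
 (nat_lit 4429234176) (.ev (nat_lit 1360) (nat_lit 274878169088) (.ev (nat_lit 1520) (nat_lit 32) (.ev (nat_lit
 1556) (nat_lit 17592186044416) (.ev (nat_lit 1565) (nat_lit 2048) .dd)))))) (.br (nat_lit 6) (.ch (nat_lit 5)
 (.ev (nat_lit 896) (nat_lit 17871359215648) (.ev (nat_lit 912) (nat_lit 134234112) .dd))) (.ch (nat_lit 6)
 (.ev (nat_lit 896) (nat_lit 17867198185472) (.ev (nat_lit 944) (nat_lit 262144) (.ev (nat_lit 1140) (nat_lit
 4294969344) (.ev (nat_lit 1424) (nat_lit 32800) .dd)))))))))) (.br (nat_lit 6) (.ch (nat_lit 1) (.ev (nat_lit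
 768) (nat_lit 279240000032) (.nd (nat_lit 880) (.br (nat_lit 3) (.br (nat_lit 1) (.ch (nat_lit 0) (.ev
 (nat_lit 896) (nat_lit 74766793082880) (.ev (nat_lit 1952) (nat_lit 17592186044416) (.ev (nat_lit 1965)
 (nat_lit 134217728) .dd)))) (.ch (nat_lit 1) (.ev (nat_lit 896) (nat_lit 70368746571776) (.ev (nat_lit 964)
 (nat_lit 17592186044416) (.ev (nat_lit 1556) (nat_lit 4398046511104) (.ev (nat_lit 1565) (nat_lit 134217728)
 .dd)))))) (.br (nat_lit 5) (.ch (nat_lit 3) (.ev (nat_lit 896) (nat_lit 134479872) (.ev (nat_lit 964) (nat_lit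
 17592186044416) (.ev (nat_lit 976) (nat_lit 32768) (.ev (nat_lit 1254) (nat_lit 74766792785920) (.ev (nat_lit
 1261) (nat_lit 2048) .dd)))))) (.ch (nat_lit 5) (.ev (nat_lit 896) (nat_lit 21990232588288) (.ev (nat_lit
 1044) (nat_lit 2048) (.ev (nat_lit 1108) (nat_lit 262144) (.ev (nat_lit 1120) (nat_lit 70368744177664) (.fin
 (nat_lit 576456904011104872)))))))))))) (.ch (nat_lit 6) (.ev (nat_lit 768) (nat_lit 92359111245824) (.nd
 (nat_lit 880) (.br (nat_lit 3) (.br (nat_lit 1) (.ch (nat_lit 0) (.ev (nat_lit 896) (nat_lit 274880006688)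
 (.ev (nat_lit 964) (nat_lit 4294967296) (.ev (nat_lit 1268) (nat_lit 67108864) (.ev (nat_lit 1277) (nat_lit
 16384) .dd))))) (.ch (nat_lit 1) (.ev (nat_lit 896) (nat_lit 274947115552) (.ev (nat_lit 1108) (nat_lit 16384)
 (.ev (nat_lit 1117) (nat_lit 4294967296) .dd))))) (.br (nat_lit 5) (.ch (nat_lit 3) (.ev (nat_lit 896)
 (nat_lit 279239983104) (.ev (nat_lit 976) (nat_lit 32) (.ev (nat_lit 2180) (nat_lit 512) (.ev (nat_lit 2256)
 (nat_lit 2048) (.fin (nat_lit 576448107907596820))))))) (.ch (nat_lit 5) (.ev (nat_lit 896) (nat_lit 16416)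
 (.ev (nat_lit 964) (nat_lit 4294967296) (.ev (nat_lit 1044) (nat_lit 2097664) (.ev (nat_lit 1488) (nat_lit
 274945015808) (.ev (nat_lit 1501) (nat_lit 2048) .dd))))))))))))))))))) (.ch (nat_lit 18) (.ev (nat_lit 52)
 (nat_lit 5168202240) (.ev (nat_lit 84) (nat_lit 4398046527488) (.ev (nat_lit 116) (nat_lit 134217728) (.ev
 (nat_lit 148) (nat_lit 274877906946) (.ev (nat_lit 180) (nat_lit 17592186044416) (.ev (nat_lit 308) (nat_lit
 2097152) (.nd (nat_lit 752) (.br (nat_lit 3) (.br (nat_lit 2) (.ch (nat_lit 0) (.ev (nat_lit 768) (nat_lit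
 70411694899232) (.nd (nat_lit 880) (.br (nat_lit 1) (.ch (nat_lit 0) (.ev (nat_lit 896) (nat_lit 2147489792)
 .dd)) (.br (nat_lit 6) (.ch (nat_lit 1) (.ev (nat_lit 896) (nat_lit 2048) (.ev (nat_lit 912) (nat_lit 4096)
 (.ev (nat_lit 925) (nat_lit 2147483648) .dd)))) (.ch (nat_lit 6) (.ev (nat_lit 912) (nat_lit 2147483648) (.ev
 (nat_lit 1008) (nat_lit 2048) (.ev (nat_lit 1021) (nat_lit 4096) .dd))))))))) (.ch (nat_lit 2) (.ev (nat_lit
 768) (nat_lit 70411694901280) (.nd (nat_lit 880) (.br (nat_lit 4) (.ch (nat_lit 0) (.fin (nat_lit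
 576462401573438018))) (.br (nat_lit 6) (.ch (nat_lit 4) (.ev (nat_lit 896) (nat_lit 2147483648) (.ev (nat_lit
 909) (nat_lit 4096) .dd))) (.ch (nat_lit 6) (.ev (nat_lit 896) (nat_lit 4096) (.ev (nat_lit 909) (nat_lit
 2147483648) .dd))))))))) (.br (nat_lit 6) (.ch (nat_lit 3) (.ev (nat_lit 768) (nat_lit 36508272640) (.nd
 (nat_lit 880) (.br (nat_lit 3) (.br (nat_lit 1) (.ch (nat_lit 0) (.ev (nat_lit 896) (nat_lit 8589934624) (.ev
 (nat_lit 964) (nat_lit 4096) (.ev (nat_lit 973) (nat_lit 70368744177664) .dd)))) (.ch (nat_lit 1) (.ev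
 (nat_lit 896) (nat_lit 70368744177664) (.ev (nat_lit 976) (nat_lit 4096) (.ev (nat_lit 1184) (nat_lit 32) (.ev
 (nat_lit 1197) (nat_lit 8589934592) .dd)))))) (.br (nat_lit 6) (.ch (nat_lit 3) (.ev (nat_lit 896) (nat_lit
 8589938688) (.ev (nat_lit 2180) (nat_lit 70368744177664) (.ev (nat_lit 2189) (nat_lit 32) .dd)))) (.ch
 (nat_lit 6) (.ev (nat_lit 896) (nat_lit 70377334116384) .dd))))))) (.ch (nat_lit 6) (.ev (nat_lit 768)
 (nat_lit 70368744181760) (.nd (nat_lit 880) (.br (nat_lit 5) (.br (nat_lit 3) (.ch (nat_lit 0) (.ev (nat_lit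
 896) (nat_lit 36507222016) (.ev (nat_lit 1872) (nat_lit 8589934624) (.ev (nat_lit 1952) (nat_lit 1050624)
 .dd)))) (.ch (nat_lit 3) (.ev (nat_lit 896) (nat_lit 42949672992) (.ev (nat_lit 976) (nat_lit 1048576) (.ev
 (nat_lit 1044) (nat_lit 2147483648) (.ev (nat_lit 1053) (nat_lit 2048) .dd)))))) (.br (nat_lit 6) (.ch
 (nat_lit 5) (.ev (nat_lit 896) (nat_lit 45098207264) .dd)) (.ch (nat_lit 6) (.ev (nat_lit 896) (nat_lit
 1050624) (.ev (nat_lit 964) (nat_lit 2147483648) (.ev (nat_lit 976) (nat_lit 32) (.ev (nat_lit 1744) (nat_lit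
 34359738368) (.ev (nat_lit 1757) (nat_lit 8589934592) .dd))))))))))))))))))))))))) (.br (nat_lit 26) (.br
 (nat_lit 22) (.br (nat_lit 20) (.ch (nat_lit 19) (.ev (nat_lit 52) (nat_lit 8724713504) (.ev (nat_lit 96)
 (nat_lit 92675532671490) .dd))) (.br (nat_lit 21) (.ch (nat_lit 20) (.ev (nat_lit 52) (nat_lit 11274586112)
 (.ev (nat_lit 84) (nat_lit 4297064448) (.ev (nat_lit 116) (nat_lit 67108864) (.ev (nat_lit 180) (nat_lit 4096)
 (.ev (nat_lit 212) (nat_lit 34359738370) (.ev (nat_lit 244) (nat_lit 17592186044416) (.ev (nat_lit 480)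
 (nat_lit 32) (.nd (nat_lit 752) (.br (nat_lit 3) (.br (nat_lit 2) (.ch (nat_lit 1) (.ev (nat_lit 768) (nat_lit
 74767059141120) (.nd (nat_lit 880) (.br (nat_lit 5) (.br (nat_lit 1) (.ch (nat_lit 0) (.ev (nat_lit 896)
 (nat_lit 274878955520) (.fin (nat_lit 576462401573438011)))) (.ch (nat_lit 1) (.ev (nat_lit 896) (nat_lit
 274878431232) (.ev (nat_lit 2116) (nat_lit 134217728) (.ev (nat_lit 2125) (nat_lit 1048576) .dd))))) (.br
 (nat_lit 6) (.ch (nat_lit 5) (.ev (nat_lit 896) (nat_lit 135266304) (.ev (nat_lit 992) (nat_lit 274878431232)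
 .dd))) (.ch (nat_lit 6) (.ev (nat_lit 896) (nat_lit 134742016) (.ev (nat_lit 2144) (nat_lit 1048576) (.ev
 (nat_lit 2157) (nat_lit 274877906944) .dd))))))))) (.ch (nat_lit 2) (.ev (nat_lit 768) (nat_lit 274879479808)
 (.nd (nat_lit 880) (.br (nat_lit 5) (.ch (nat_lit 4) (.ev (nat_lit 896) (nat_lit 74766924922880) (.fin
 (nat_lit 576449207450681919)))) (.br (nat_lit 6) (.ch (nat_lit 5) (.ev (nat_lit 896) (nat_lit 74767193342464)
 (.ev (nat_lit 909) (nat_lit 16384) .dd))) (.ch (nat_lit 6) (.ev (nat_lit 896) (nat_lit 268452352) (.ev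
 (nat_lit 2388) (nat_lit 70368744177664) (.ev (nat_lit 2528) (nat_lit 134217728) (.ev (nat_lit 2541) (nat_lit
 4398046511104) .dd))))))))))) (.br (nat_lit 6) (.ch (nat_lit 3) (.ev (nat_lit 768) (nat_lit 275013714432) (.ev
 (nat_lit 2278) (nat_lit 70369012613120) (.ev (nat_lit 2285) (nat_lit 4398046511104) .dd)))) (.ch (nat_lit 6)
 (.ev (nat_lit 768) (nat_lit 75042071249408) (.nd (nat_lit 880) (.br (nat_lit 3) (.br (nat_lit 1) (.ch (nat_lit
 0) (.ev (nat_lit 896) (nat_lit 1589248) .dd)) (.ch (nat_lit 1) (.ev (nat_lit 1808) (nat_lit 540672) (.ev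
 (nat_lit 1821) (nat_lit 1048576) .dd)))) (.br (nat_lit 5) (.ch (nat_lit 3) (.ev (nat_lit 896) (nat_lit 540672)
 (.ev (nat_lit 909) (nat_lit 1048576) .dd))) (.ch (nat_lit 5) (.ev (nat_lit 896) (nat_lit 1589248)
 .dd)))))))))))))))))) (.ch (nat_lit 21) (.ev (nat_lit 52) (nat_lit 74809941951008) (.ev (nat_lit 116) (nat_lit
 274877906944) (.ev (nat_lit 180) (nat_lit 4294967296) (.ev (nat_lit 276) (nat_lit 2097152) (.ev (nat_lit 340)
 (nat_lit 524288) (.ev (nat_lit 592) (nat_lit 268435456) (.nd (nat_lit 752) (.br (nat_lit 3) (.br (nat_lit 2)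
 (.ch (nat_lit 0) (.ev (nat_lit 768) (nat_lit 1052674) (.nd (nat_lit 880) (.br (nat_lit 4) (.br (nat_lit 1)
 (.ch (nat_lit 0) (.ev (nat_lit 896) (nat_lit 2147485696) (.ev (nat_lit 1216) (nat_lit 32768) (.ev (nat_lit
 2128) (nat_lit 536870912) (.fin (nat_lit 576461302061810239)))))) (.ch (nat_lit 1) (.ev (nat_lit 896) (nat_lit
 17592722917376) (.ev (nat_lit 1236) (nat_lit 16384) (.ev (nat_lit 2116) (nat_lit 2147483648) (.ev (nat_lit
 2125) (nat_lit 32768) .dd)))))) (.br (nat_lit 5) (.ch (nat_lit 4) (.ev (nat_lit 896) (nat_lit 2684403712) (.ev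
 (nat_lit 1204) (nat_lit 2048) (.ev (nat_lit 1213) (nat_lit 17592186044416) .dd)))) (.ch (nat_lit 5) (.ev
 (nat_lit 896) (nat_lit 17592722964480) (.ev (nat_lit 912) (nat_lit 2147483648) (.ev (nat_lit 925) (nat_lit
 2048) .dd))))))))) (.ch (nat_lit 2) (.ev (nat_lit 768) (nat_lit 17594870450176) (.nd (nat_lit 880) (.br
 (nat_lit 1) (.ch (nat_lit 0) (.ev (nat_lit 896) (nat_lit 4098) (.ev (nat_lit 909) (nat_lit 1048576) .dd)))
 (.br (nat_lit 6) (.ch (nat_lit 1) (.ev (nat_lit 896) (nat_lit 1048576) (.ev (nat_lit 976) (nat_lit 2) (.ev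
 (nat_lit 989) (nat_lit 4096) .dd)))) (.ch (nat_lit 6) (.ev (nat_lit 896) (nat_lit 1052674) .dd)))))))) (.br
 (nat_lit 6) (.ch (nat_lit 3) (.ev (nat_lit 768) (nat_lit 2148587520) (.ev (nat_lit 2192) (nat_lit
 17592186044416) (.nd (nat_lit 2656) (.ch (nat_lit 1) (.nd (nat_lit 2736) (.br (nat_lit 4) (.ch (nat_lit 2)
 (.fin (nat_lit 576458003529024066))) (.ch (nat_lit 4) (.ev (nat_lit 2752) (nat_lit 536870914) .dd)))))))))
 (.ch (nat_lit 6) (.ev (nat_lit 768) (nat_lit 17594870431746) (.nd (nat_lit 880) (.br (nat_lit 1) (.ch (nat_lit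
 0) (.ev (nat_lit 896) (nat_lit 4096) (.ev (nat_lit 1008) (nat_lit 2048) (.ev (nat_lit 2128) (nat_lit 1064960)
 .dd)))) (.br (nat_lit 5) (.ch (nat_lit 1) (.ev (nat_lit 896) (nat_lit 1050624) (.ev (nat_lit 1940) (nat_lit
 4096) (.ev (nat_lit 1949) (nat_lit 16384) .dd)))) (.ch (nat_lit 5) (.ev (nat_lit 896) (nat_lit 1064960) (.ev
 (nat_lit 2420) (nat_lit 4096) (.ev (nat_lit 2429) (nat_lit 2048) .dd))))))))))))))))))))) (.br (nat_lit 24)
 (.ch (nat_lit 22) (.ev (nat_lit 52) (nat_lit 22029156761600) (.ev (nat_lit 116) (nat_lit 512) (.ev (nat_lit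
 192) (nat_lit 70655100622882) .dd)))) (.br (nat_lit 25) (.ch (nat_lit 24) (.ev (nat_lit 52) (nat_lit
 87965494939682) (.ev (nat_lit 128) (nat_lit 4718762445312) .dd))) (.ch (nat_lit 25) (.ev (nat_lit 52) (nat_lit
 17903774636064) (.ev (nat_lit 116) (nat_lit 262144) (.nd (nat_lit 752) (.br (nat_lit 2) (.br (nat_lit 1) (.ch
 (nat_lit 0) (.ev (nat_lit 768) (nat_lit 74767597568514) (.nd (nat_lit 880) (.br (nat_lit 4) (.ch (nat_lit 1)
 (.ev (nat_lit 896) (nat_lit 4294967296) (.ev (nat_lit 1408) (nat_lit 8589934592) (.ev (nat_lit 1421) (nat_lit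
 16384) .dd)))) (.br (nat_lit 6) (.ch (nat_lit 4) (.ev (nat_lit 896) (nat_lit 12884918272) .dd)) (.ch (nat_lit
 6) (.ev (nat_lit 896) (nat_lit 8589950976) (.ev (nat_lit 909) (nat_lit 4294967296) .dd)))))))) (.ch (nat_lit
 1) (.ev (nat_lit 768) (nat_lit 4406636462594) (.nd (nat_lit 880) (.br (nat_lit 5) (.br (nat_lit 3) (.ch
 (nat_lit 0) (.ev (nat_lit 896) (nat_lit 5101322240) (.nd (nat_lit 2704) (.br (nat_lit 6) (.ch (nat_lit 4) (.ev
 (nat_lit 2720) (nat_lit 70368744701952) .dd)) (.ch (nat_lit 6) (.fin (nat_lit 576466799628337734))))))) (.ch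
 (nat_lit 3) (.ev (nat_lit 896) (nat_lit 537919488) (.ev (nat_lit 1024) (nat_lit 268435456) (.ev (nat_lit 1456)
 (nat_lit 70368744177664) (.fin (nat_lit 576500884465730128))))))) (.br (nat_lit 6) (.ch (nat_lit 5) (.ev
 (nat_lit 896) (nat_lit 70369014185984) (.ev (nat_lit 1952) (nat_lit 4831838208) .dd))) (.ch (nat_lit 6) (.ev
 (nat_lit 896) (nat_lit 70369281572864) (.ev (nat_lit 1604) (nat_lit 4294967296) (.ev (nat_lit 2032) (nat_lit
 1048576) (.ev (nat_lit 2045) (nat_lit 268435456) .dd))))))))))) (.br (nat_lit 3) (.ch (nat_lit 2) (.ev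
 (nat_lit 768) (nat_lit 70382166474752) (.nd (nat_lit 880) (.br (nat_lit 5) (.br (nat_lit 4) (.ch (nat_lit 1)
 (.ev (nat_lit 896) (nat_lit 4398315995650) (.ev (nat_lit 909) (nat_lit 16384) .dd))) (.ch (nat_lit 4) (.ev
 (nat_lit 896) (nat_lit 4398046527488) (.ev (nat_lit 1888) (nat_lit 2) (.ev (nat_lit 1940) (nat_lit 1048576)
 (.nd (nat_lit 2704) (.br (nat_lit 6) (.ch (nat_lit 3) (.fin (nat_lit 576449207450681919))) (.ch (nat_lit 6)
 (.ev (nat_lit 2720) (nat_lit 268435968) .dd))))))))) (.br (nat_lit 6) (.ch (nat_lit 5) (.ev (nat_lit 896)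
 (nat_lit 4398315995650) (.ev (nat_lit 909) (nat_lit 16384) .dd))) (.ch (nat_lit 6) (.ev (nat_lit 896) (nat_lit
 269484546) (.ev (nat_lit 2004) (nat_lit 16384) (.ev (nat_lit 2013) (nat_lit 4398046511104) .dd))))))))) (.ch
 (nat_lit 3) (.ev (nat_lit 768) (nat_lit 4402611503616) (.ev (nat_lit 1472) (nat_lit 8589934592) (.ev (nat_lit
 2080) (nat_lit 70368744177664) (.nd (nat_lit 2656) (.br (nat_lit 1) (.ch (nat_lit 0) (.ev (nat_lit 2672)
 (nat_lit 536870914) .dd)) (.ch (nat_lit 1) (.fin (nat_lit 576458003529024066)))))))))))))))))) (.br (nat_lit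
 30) (.br (nat_lit 27) (.ch (nat_lit 26) (.ev (nat_lit 52) (nat_lit 70643624499712) (.ev (nat_lit 84) (nat_lit
 268435456) (.ev (nat_lit 148) (nat_lit 17592186044416) (.ev (nat_lit 212) (nat_lit 4398046511104) (.ev
 (nat_lit 288) (nat_lit 50131894306) .dd)))))) (.br (nat_lit 29) (.ch (nat_lit 27) (.ev (nat_lit 52) (nat_lit
 277159888928) (.ev (nat_lit 84) (nat_lit 512) (.ev (nat_lit 116) (nat_lit 2) (.ev (nat_lit 148) (nat_lit
 34359742464) (.ev (nat_lit 244) (nat_lit 4398046511104) (.nd (nat_lit 752) (.br (nat_lit 1) (.ch (nat_lit 0)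
 (.ev (nat_lit 768) (nat_lit 87974621478912) (.ev (nat_lit 912) (nat_lit 2097152) (.ev (nat_lit 1556) (nat_lit
 32768) (.nd (nat_lit 2656) (.br (nat_lit 6) (.ch (nat_lit 4) (.ev (nat_lit 2672) (nat_lit 524288) (.ev
 (nat_lit 2685) (nat_lit 67108864) .dd))) (.ch (nat_lit 6) (.ev (nat_lit 2672) (nat_lit 67108864) (.ev (nat_lit
 2685) (nat_lit 524288) .dd))))))))) (.br (nat_lit 2) (.ch (nat_lit 1) (.ev (nat_lit 768) (nat_lit 537952256)
 (.nd (nat_lit 880) (.br (nat_lit 5) (.br (nat_lit 1) (.ch (nat_lit 0) (.ev (nat_lit 896) (nat_lit 13153337344)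
 (.ev (nat_lit 964) (nat_lit 17592186044416) (.ev (nat_lit 1088) (nat_lit 2097152) (.ev (nat_lit 1872) (nat_lit
 67108864) (.nd (nat_lit 2736) (.br (nat_lit 6) (.ch (nat_lit 3) (.ev (nat_lit 2752) (nat_lit 70368744177664)
 (.ev (nat_lit 2765) (nat_lit 524288) .dd))) (.ch (nat_lit 6) (.fin (nat_lit 576466799628337734)))))))))) (.ch
 (nat_lit 1) (.ev (nat_lit 896) (nat_lit 87965563355136) (.ev (nat_lit 909) (nat_lit 8589934592) .dd)))) (.br
 (nat_lit 6) (.ch (nat_lit 5) (.ev (nat_lit 896) (nat_lit 17601112047616) (.ev (nat_lit 1424) (nat_lit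
 70368744177664) (.fin (nat_lit 576466799617851970))))) (.ch (nat_lit 6) (.ev (nat_lit 896) (nat_lit
 70368746799104) (.ev (nat_lit 964) (nat_lit 17592186044416) (.ev (nat_lit 1152) (nat_lit 8858370048) (.ev
 (nat_lit 2080) (nat_lit 4294967296) (.ev (nat_lit 2093) (nat_lit 67108864) .dd))))))))))) (.ch (nat_lit 2)
 (.ev (nat_lit 768) (nat_lit 17600845709312) (.nd (nat_lit 880) (.br (nat_lit 1) (.ch (nat_lit 0) (.ev (nat_lit
 896) (nat_lit 5100306432) (.ev (nat_lit 912) (nat_lit 1048576) (.ev (nat_lit 925) (nat_lit 70368744177664)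
 .dd)))) (.br (nat_lit 6) (.ch (nat_lit 1) (.ev (nat_lit 896) (nat_lit 4563435520) (.ev (nat_lit 1456) (nat_lit
 1048576) (.fin (nat_lit 576487690322002480))))) (.ch (nat_lit 6) (.ev (nat_lit 896) (nat_lit 70369282097152)
 (.ev (nat_lit 2564) (nat_lit 4294967296) (.fin (nat_lit 576479993761579583))))))))))))))))))) (.ch (nat_lit
 29) (.ev (nat_lit 52) (nat_lit 17626680576512) (.ev (nat_lit 148) (nat_lit 4294967296) (.ev (nat_lit 212)
 (nat_lit 4096) (.ev (nat_lit 308) (nat_lit 262144) (.ev (nat_lit 404) (nat_lit 32) (.ev (nat_lit 672) (nat_lit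
 67108864) (.nd (nat_lit 752) (.br (nat_lit 2) (.br (nat_lit 1) (.ch (nat_lit 0) (.ev (nat_lit 768) (nat_lit
 75044085563394) (.nd (nat_lit 880) (.br (nat_lit 4) (.ch (nat_lit 0) (.ev (nat_lit 896) (nat_lit 8589934592)
 (.ev (nat_lit 1556) (nat_lit 2097152) (.ev (nat_lit 1565) (nat_lit 536870912) .dd)))) (.br (nat_lit 5) (.ch
 (nat_lit 4) (.ev (nat_lit 896) (nat_lit 536870912) (.ev (nat_lit 1108) (nat_lit 8589934592) (.ev (nat_lit
 1117) (nat_lit 2097152) .dd)))) (.ch (nat_lit 5) (.ev (nat_lit 896) (nat_lit 2097152) (.ev (nat_lit 964)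
 (nat_lit 536870912) (.ev (nat_lit 973) (nat_lit 8589934592) .dd))))))))) (.ch (nat_lit 1) (.ev (nat_lit 768)
 (nat_lit 537919490) (.nd (nat_lit 880) (.br (nat_lit 5) (.br (nat_lit 3) (.ch (nat_lit 0) (.ev (nat_lit 896)
 (nat_lit 74775649058816) (.ev (nat_lit 964) (nat_lit 274877906944) (.ev (nat_lit 1872) (nat_lit 2147483648)
 (.ev (nat_lit 1885) (nat_lit 2097152) .dd))))) (.ch (nat_lit 3) (.ev (nat_lit 896) (nat_lit 277293826048) (.ev
 (nat_lit 2116) (nat_lit 2097152) (.ev (nat_lit 2244) (nat_lit 70368744177664) (.nd (nat_lit 2704) (.br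
 (nat_lit 5) (.ch (nat_lit 2) (.fin (nat_lit 576434913789035028))) (.ch (nat_lit 5) (.ev (nat_lit 2720)
 (nat_lit 8589934592) (.ev (nat_lit 2733) (nat_lit 4398046511104) .dd)))))))))) (.br (nat_lit 6) (.ch (nat_lit
 5) (.ev (nat_lit 896) (nat_lit 4409054461952) (.ev (nat_lit 964) (nat_lit 274877906944) (.ev (nat_lit 973)
 (nat_lit 70368744177664) .dd)))) (.ch (nat_lit 6) (.ev (nat_lit 896) (nat_lit 75041670692864) (.ev (nat_lit
 976) (nat_lit 8589934592) (.ev (nat_lit 2406) (nat_lit 2415919104) .dd)))))))))) (.br (nat_lit 3) (.ch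
 (nat_lit 2) (.ev (nat_lit 768) (nat_lit 283469938688) (.nd (nat_lit 880) (.br (nat_lit 5) (.br (nat_lit 4)
 (.ch (nat_lit 1) (.ev (nat_lit 896) (nat_lit 2416967680) (.ev (nat_lit 964) (nat_lit 4398046511104) (.ev
 (nat_lit 1140) (nat_lit 2) (.nd (nat_lit 2736) (.br (nat_lit 6) (.ch (nat_lit 3) (.ev (nat_lit 2752) (nat_lit
 536870912) (.ev (nat_lit 2765) (nat_lit 70368744177664) .dd))) (.ch (nat_lit 6) (.fin (nat_lit
 576487690322002480))))))))) (.ch (nat_lit 4) (.ev (nat_lit 896) (nat_lit 74769475043328) (.ev (nat_lit 1108)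
 (nat_lit 268435456) (.ev (nat_lit 1472) (nat_lit 1048576) (.ev (nat_lit 1485) (nat_lit 2) .dd)))))) (.br
 (nat_lit 6) (.ch (nat_lit 5) (.ev (nat_lit 896) (nat_lit 74766791737346) (.ev (nat_lit 992) (nat_lit
 536870912) (.ev (nat_lit 1044) (nat_lit 2147483648) (.ev (nat_lit 1053) (nat_lit 268435456) .dd))))) (.ch
 (nat_lit 6) (.ev (nat_lit 896) (nat_lit 70371696967682) (.ev (nat_lit 1044) (nat_lit 4398046511104) (.ev
 (nat_lit 1053) (nat_lit 1048576) .dd))))))))) (.ch (nat_lit 3) (.ev (nat_lit 768) (nat_lit 75044087660544)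
 (.nd (nat_lit 880) (.br (nat_lit 5) (.ch (nat_lit 3) (.ev (nat_lit 896) (nat_lit 536870912) (.ev (nat_lit
 1940) (nat_lit 2) (.ev (nat_lit 1949) (nat_lit 8589934592) .dd)))) (.br (nat_lit 6) (.ch (nat_lit 5) (.ev
 (nat_lit 896) (nat_lit 2) (.ev (nat_lit 964) (nat_lit 536870912) (.ev (nat_lit 973) (nat_lit 8589934592)
 .dd)))) (.ch (nat_lit 6) (.ev (nat_lit 896) (nat_lit 8589934592) (.ev (nat_lit 2004) (nat_lit 536870912) (.ev
 (nat_lit 2013) (nat_lit 2) .dd))))))))))))))))))))) (.br (nat_lit 35) (.br (nat_lit 33) (.ch (nat_lit 30) (.ev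
 (nat_lit 52) (nat_lit 17874314625024) (.ev (nat_lit 84) (nat_lit 34359738368) (.ev (nat_lit 116) (nat_lit
 4398046511104) (.ev (nat_lit 224) (nat_lit 70377536510498) .dd))))) (.ch (nat_lit 33) (.ev (nat_lit 52)
 (nat_lit 74801822074882) (.ev (nat_lit 84) (nat_lit 67108864) (.ev (nat_lit 244) (nat_lit 274877906944) (.ev
 (nat_lit 276) (nat_lit 262144) (.ev (nat_lit 404) (nat_lit 1048576) (.ev (nat_lit 608) (nat_lit 2147483648)
 (.nd (nat_lit 752) (.br (nat_lit 2) (.br (nat_lit 1) (.ch (nat_lit 0) (.ev (nat_lit 768) (nat_lit 4563403264)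
 (.nd (nat_lit 880) (.br (nat_lit 5) (.br (nat_lit 4) (.ch (nat_lit 0) (.ev (nat_lit 896) (nat_lit 4128) (.ev
 (nat_lit 1712) (nat_lit 8589934592) (.ev (nat_lit 1808) (nat_lit 2097152) (.fin (nat_lit
 576461302061810239)))))) (.ch (nat_lit 4) (.ev (nat_lit 896) (nat_lit 17600778092544) (.ev (nat_lit 912)
 (nat_lit 32) (.ev (nat_lit 925) (nat_lit 4096) .dd))))) (.br (nat_lit 6) (.ch (nat_lit 5) (.ev (nat_lit 896)
 (nat_lit 17592188145664) (.ev (nat_lit 1732) (nat_lit 16384) (.ev (nat_lit 1792) (nat_lit 8589934592) (.ev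
 (nat_lit 1805) (nat_lit 32) .dd))))) (.ch (nat_lit 6) (.ev (nat_lit 896) (nat_lit 8592048160) (.ev (nat_lit
 1702) (nat_lit 17592186048512) .dd)))))))) (.ch (nat_lit 1) (.ev (nat_lit 768) (nat_lit 8858391072) (.nd
 (nat_lit 880) (.br (nat_lit 1) (.ch (nat_lit 0) (.ev (nat_lit 896) (nat_lit 4294967296) (.ev (nat_lit 1008)
 (nat_lit 2097152) (.ev (nat_lit 1021) (nat_lit 17592186044416) .dd)))) (.br (nat_lit 5) (.ch (nat_lit 1) (.ev
 (nat_lit 896) (nat_lit 2097152) (.ev (nat_lit 1776) (nat_lit 4294967296) (.ev (nat_lit 1789) (nat_lit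
 17592186044416) .dd)))) (.ch (nat_lit 5) (.ev (nat_lit 896) (nat_lit 17592186044416) (.nd (nat_lit 2656) (.br
 (nat_lit 6) (.ch (nat_lit 2) (.ev (nat_lit 2672) (nat_lit 4297064448) .dd)) (.ch (nat_lit 6) (.fin (nat_lit
 576466799617851970))))))))))))) (.br (nat_lit 3) (.ch (nat_lit 2) (.ev (nat_lit 768) (nat_lit 17605073043488)
 (.nd (nat_lit 880) (.br (nat_lit 5) (.ch (nat_lit 1) (.ev (nat_lit 896) (nat_lit 268435456) (.ev (nat_lit
 1776) (nat_lit 4096) (.ev (nat_lit 1940) (nat_lit 512) (.ev (nat_lit 1949) (nat_lit 16384) .dd))))) (.br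
 (nat_lit 6) (.ch (nat_lit 5) (.ev (nat_lit 896) (nat_lit 16896) (.ev (nat_lit 1108) (nat_lit 268435456) (.ev
 (nat_lit 1117) (nat_lit 4096) .dd)))) (.ch (nat_lit 6) (.ev (nat_lit 896) (nat_lit 4608) (.ev (nat_lit 1044)
 (nat_lit 16384) (.ev (nat_lit 1053) (nat_lit 268435456) .dd))))))))) (.ch (nat_lit 3) (.ev (nat_lit 768)
 (nat_lit 17600778096672) (.nd (nat_lit 880) (.br (nat_lit 3) (.ch (nat_lit 0) (.ev (nat_lit 896) (nat_lit
 4563403264) .dd)) (.br (nat_lit 5) (.ch (nat_lit 3) (.ev (nat_lit 896) (nat_lit 512) (.ev (nat_lit 2420)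
 (nat_lit 268435456) (.ev (nat_lit 2429) (nat_lit 4294967296) .dd)))) (.ch (nat_lit 5) (.ev (nat_lit 896)
 (nat_lit 4563402752) (.ev (nat_lit 909) (nat_lit 512) .dd))))))))))))))))))) (.br (nat_lit 36) (.ch (nat_lit
 35) (.ev (nat_lit 52) (nat_lit 70652818395168) (.ev (nat_lit 160) (nat_lit 22031438989826) .dd))) (.ch
 (nat_lit 36) (.ev (nat_lit 52) (nat_lit 70654830876672) (.ev (nat_lit 116) (nat_lit 2113536) (.ev (nat_lit
 148) (nat_lit 4398046511104) (.ev (nat_lit 256) (nat_lit 17631377883682) .dd))))))))))))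

/-- Subtrie. -/
noncomputable def T3 : Tr := (.ev (nat_lit 20) (nat_lit 75076029401130) (.nd (nat_lit 33) (.br (nat_lit 19)
 (.br (nat_lit 11) (.br (nat_lit 7) (.br (nat_lit 4) (.ch (nat_lit 1) (.ev (nat_lit 52) (nat_lit
 17674394403328) (.ev (nat_lit 84) (nat_lit 4194308) (.ev (nat_lit 116) (nat_lit 65536) (.ev (nat_lit 308)
 (nat_lit 2097152) (.ev (nat_lit 436) (nat_lit 262144) (.nd (nat_lit 752) (.br (nat_lit 5) (.br (nat_lit 3)
 (.ch (nat_lit 2) (.ev (nat_lit 768) (nat_lit 35184641081344) (.ev (nat_lit 1456) (nat_lit 4096) (.ev (nat_lit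
 1952) (nat_lit 134217728) (.ev (nat_lit 2064) (nat_lit 2147483648) (.ev (nat_lit 2077) (nat_lit 33554432)
 .dd)))))) (.ch (nat_lit 3) (.ev (nat_lit 768) (nat_lit 168300544) (.nd (nat_lit 880) (.br (nat_lit 5) (.ch
 (nat_lit 4) (.ev (nat_lit 896) (nat_lit 35184372121600) (.ev (nat_lit 1536) (nat_lit 268435456) (.ev (nat_lit
 1549) (nat_lit 2147483648) .dd)))) (.br (nat_lit 6) (.ch (nat_lit 5) (.ev (nat_lit 896) (nat_lit 32768) (.ev
 (nat_lit 2116) (nat_lit 268435456) (.nd (nat_lit 2736) (.br (nat_lit 6) (.ch (nat_lit 4) (.fin (nat_lit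
 576466799619949123))) (.ch (nat_lit 6) (.ev (nat_lit 2752) (nat_lit 35186519572480) .dd))))))) (.ch (nat_lit
 6) (.ev (nat_lit 896) (nat_lit 35186788007936) (.ev (nat_lit 909) (nat_lit 32768) .dd))))))))) (.br (nat_lit
 6) (.ch (nat_lit 5) (.ev (nat_lit 768) (nat_lit 35186788012032) (.ev (nat_lit 1472) (nat_lit 32768) (.ev
 (nat_lit 1940) (nat_lit 33554432) (.nd (nat_lit 2704) (.br (nat_lit 6) (.ch (nat_lit 5) (.ev (nat_lit 2720)
 (nat_lit 134742016) .dd)) (.ch (nat_lit 6) (.nd (nat_lit 2800) (.br (nat_lit 5) (.ch (nat_lit 3) (.ev (nat_lit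
 2816) (nat_lit 134742016) .dd)) (.ch (nat_lit 5) (.fin (nat_lit 576460202548085317)))))))))))) (.ch (nat_lit
 6) (.ev (nat_lit 768) (nat_lit 2315288576) (.ev (nat_lit 1072) (nat_lit 35184372088832) (.ev (nat_lit 1392)
 (nat_lit 4096) (.ev (nat_lit 1888) (nat_lit 524288) (.ev (nat_lit 1901) (nat_lit 268435456) .dd)))))))))))))))
 (.br (nat_lit 5) (.ch (nat_lit 4) (.ev (nat_lit 52) (nat_lit 17597087351296) (.ev (nat_lit 84) (nat_lit
 8589934592) (.ev (nat_lit 180) (nat_lit 524288) (.ev (nat_lit 276) (nat_lit 4) (.ev (nat_lit 340) (nat_lit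
 167772160) (.ev (nat_lit 544) (nat_lit 4227072) (.nd (nat_lit 752) (.br (nat_lit 2) (.ch (nat_lit 0) (.ev
 (nat_lit 768) (nat_lit 68719480832) (.ev (nat_lit 1824) (nat_lit 65536) (.ev (nat_lit 2160) (nat_lit
 2147483648) (.ev (nat_lit 2468) (nat_lit 268435456) (.ev (nat_lit 2477) (nat_lit 35184372088832) .dd))))))
 (.br (nat_lit 6) (.ch (nat_lit 2) (.ev (nat_lit 768) (nat_lit 35253360066560) (.fin (nat_lit
 576462401573438018)))) (.ch (nat_lit 6) (.ev (nat_lit 768) (nat_lit 2147549184) (.ev (nat_lit 2004) (nat_lit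
 35184372088832) (.ev (nat_lit 2144) (nat_lit 4096) (.ev (nat_lit 2480) (nat_lit 68719476736) (.ev (nat_lit
 2493) (nat_lit 268435456) .dd)))))))))))))))) (.ch (nat_lit 5) (.ev (nat_lit 52) (nat_lit 35262218698756) (.ev
 (nat_lit 84) (nat_lit 17592186044416) (.ev (nat_lit 180) (nat_lit 4194304) (.ev (nat_lit 276) (nat_lit
 2097152) (.ev (nat_lit 340) (nat_lit 268439552) (.ev (nat_lit 624) (nat_lit 2148007936) (.nd (nat_lit 752)
 (.br (nat_lit 5) (.ch (nat_lit 3) (.ev (nat_lit 768) (nat_lit 4395631104) (.nd (nat_lit 880) (.br (nat_lit 4)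
 (.br (nat_lit 2) (.ch (nat_lit 1) (.fin (nat_lit 576462401571340866))) (.ch (nat_lit 2) (.ev (nat_lit 928)
 (nat_lit 134217728) (.ev (nat_lit 941) (nat_lit 32768) .dd)))) (.br (nat_lit 6) (.ch (nat_lit 4) (.ev (nat_lit
 896) (nat_lit 134217728) (.ev (nat_lit 909) (nat_lit 32768) .dd))) (.ch (nat_lit 6) (.ev (nat_lit 896)
 (nat_lit 32768) (.ev (nat_lit 909) (nat_lit 134217728) .dd)))))))) (.br (nat_lit 6) (.ch (nat_lit 5) (.ev
 (nat_lit 768) (nat_lit 134218240) (.ev (nat_lit 1824) (nat_lit 4294967296) (.ev (nat_lit 2160) (nat_lit 32768)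
 (.ev (nat_lit 2468) (nat_lit 33554432) (.ev (nat_lit 2477) (nat_lit 67108864) .dd)))))) (.ch (nat_lit 6) (.ev
 (nat_lit 768) (nat_lit 4295000064) (.ev (nat_lit 2004) (nat_lit 67108864) (.ev (nat_lit 2144) (nat_lit
 134217728) (.ev (nat_lit 2480) (nat_lit 512) (.ev (nat_lit 2493) (nat_lit 33554432) .dd)))))))))))))))))) (.br
 (nat_lit 8) (.ch (nat_lit 7) (.ev (nat_lit 52) (nat_lit 35257791873540) (.ev (nat_lit 212) (nat_lit
 17592253153280) (.ev (nat_lit 320) (nat_lit 11312336896) .dd)))) (.br (nat_lit 10) (.ch (nat_lit 8) (.ev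
 (nat_lit 52) (nat_lit 84024496128) (.ev (nat_lit 148) (nat_lit 524288) (.ev (nat_lit 212) (nat_lit 512) (.ev
 (nat_lit 308) (nat_lit 17592186044416) (.ev (nat_lit 384) (nat_lit 35185146298372) .dd)))))) (.ch (nat_lit 10)
 (.ev (nat_lit 52) (nat_lit 73121468932) (.ev (nat_lit 212) (nat_lit 35192962023424) (.ev (nat_lit 352)
 (nat_lit 17595273871360) .dd))))))) (.br (nat_lit 15) (.br (nat_lit 12) (.ch (nat_lit 11) (.ev (nat_lit 52)
 (nat_lit 52854404481536) (.ev (nat_lit 84) (nat_lit 2621440) (.ev (nat_lit 116) (nat_lit 4294967296) (.ev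
 (nat_lit 308) (nat_lit 4) (.ev (nat_lit 404) (nat_lit 262144) (.nd (nat_lit 752) (.br (nat_lit 3) (.br
 (nat_lit 2) (.ch (nat_lit 0) (.ev (nat_lit 768) (nat_lit 234913792) (.ev (nat_lit 1472) (nat_lit 2147483648)
 (.ev (nat_lit 1940) (nat_lit 268435456) (.nd (nat_lit 2656) (.br (nat_lit 4) (.ch (nat_lit 3) (.ev (nat_lit
 2672) (nat_lit 4198400) .dd)) (.br (nat_lit 5) (.ch (nat_lit 4) (.nd (nat_lit 2768) (.br (nat_lit 6) (.ch
 (nat_lit 4) (.fin (nat_lit 576462401571340859))) (.ch (nat_lit 6) (.ev (nat_lit 2784) (nat_lit 4198400)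
 .dd))))) (.ch (nat_lit 5) (.ev (nat_lit 2672) (nat_lit 4198400) .dd))))))))) (.ch (nat_lit 2) (.ev (nat_lit
 768) (nat_lit 406851584) (.ev (nat_lit 1408) (nat_lit 2147483648) (.ev (nat_lit 2116) (nat_lit 33554432) (.nd
 (nat_lit 2656) (.br (nat_lit 3) (.ch (nat_lit 2) (.ev (nat_lit 2672) (nat_lit 67141632) .dd)) (.ch (nat_lit 3)
 (.nd (nat_lit 2768) (.br (nat_lit 5) (.ch (nat_lit 3) (.ev (nat_lit 2784) (nat_lit 67141632) .dd)) (.ch
 (nat_lit 5) (.fin (nat_lit 576455804503671357))))))))))))) (.br (nat_lit 6) (.ch (nat_lit 3) (.ev (nat_lit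
 768) (nat_lit 2252341248) (.nd (nat_lit 880) (.br (nat_lit 5) (.br (nat_lit 4) (.ch (nat_lit 1) (.ev (nat_lit
 896) (nat_lit 402685952) (.ev (nat_lit 909) (nat_lit 4096) .dd))) (.ch (nat_lit 4) (.ev (nat_lit 896) (nat_lit
 134221824) (.ev (nat_lit 2064) (nat_lit 32768) (.ev (nat_lit 2077) (nat_lit 268435456) .dd))))) (.br (nat_lit
 6) (.ch (nat_lit 5) (.ev (nat_lit 896) (nat_lit 36864) (.ev (nat_lit 964) (nat_lit 134217728) (.ev (nat_lit
 973) (nat_lit 268435456) .dd)))) (.ch (nat_lit 6) (.ev (nat_lit 896) (nat_lit 402690048) .dd))))))) (.ch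
 (nat_lit 6) (.ev (nat_lit 768) (nat_lit 2415955968) (.ev (nat_lit 1072) (nat_lit 67108864) (.ev (nat_lit 1392)
 (nat_lit 134217728) (.ev (nat_lit 1888) (nat_lit 4194304) (.ev (nat_lit 1901) (nat_lit 33554432)
 .dd))))))))))))))) (.br (nat_lit 13) (.ch (nat_lit 12) (.ev (nat_lit 52) (nat_lit 35260108963840) (.ev
 (nat_lit 116) (nat_lit 512) (.ev (nat_lit 212) (nat_lit 2097152) (.ev (nat_lit 244) (nat_lit 17592186044416)
 (.nd (nat_lit 752) (.br (nat_lit 5) (.br (nat_lit 3) (.ch (nat_lit 2) (.ev (nat_lit 768) (nat_lit 8993112064)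
 (.ev (nat_lit 1940) (nat_lit 4096) (.ev (nat_lit 2372) (nat_lit 32772) (.ev (nat_lit 2381) (nat_lit 67108864)
 .dd))))) (.ch (nat_lit 3) (.ev (nat_lit 768) (nat_lit 8926007300) (.nd (nat_lit 880) (.br (nat_lit 2) (.ch
 (nat_lit 1) (.fin (nat_lit 576462401571340866))) (.br (nat_lit 4) (.ch (nat_lit 2) (.ev (nat_lit 896) (nat_lit
 32768) (.ev (nat_lit 909) (nat_lit 134217728) .dd))) (.ch (nat_lit 4) (.ev (nat_lit 896) (nat_lit 134217728)
 (.ev (nat_lit 909) (nat_lit 32768) .dd))))))))) (.br (nat_lit 6) (.ch (nat_lit 5) (.ev (nat_lit 768) (nat_lit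
 8925483012) (.ev (nat_lit 1296) (nat_lit 524288) (.ev (nat_lit 2310) (nat_lit 134250496) .dd)))) (.ch (nat_lit
 6) (.ev (nat_lit 768) (nat_lit 32772) (.ev (nat_lit 1108) (nat_lit 268435456) (.ev (nat_lit 2048) (nat_lit
 4096) (.ev (nat_lit 2180) (nat_lit 8589934592) (.ev (nat_lit 2292) (nat_lit 67108864) (.ev (nat_lit 2324)
 (nat_lit 134217728) (.ev (nat_lit 2333) (nat_lit 524288) .dd)))))))))))))))) (.ch (nat_lit 13) (.ev (nat_lit
 52) (nat_lit 17594740379648) (.ev (nat_lit 84) (nat_lit 35184372088832) (.ev (nat_lit 148) (nat_lit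
 68719476736) (.ev (nat_lit 212) (nat_lit 524288) (.ev (nat_lit 244) (nat_lit 65536) (.ev (nat_lit 340)
 (nat_lit 32768) (.nd (nat_lit 752) (.br (nat_lit 2) (.ch (nat_lit 0) (.ev (nat_lit 768) (nat_lit 12985827328)
 (.ev (nat_lit 1456) (nat_lit 536871424) (.ev (nat_lit 1584) (nat_lit 4) (.ev (nat_lit 1597) (nat_lit 2097152)
 .dd))))) (.br (nat_lit 5) (.ch (nat_lit 2) (.ev (nat_lit 768) (nat_lit 538968576) (.ev (nat_lit 1488) (nat_lit
 4294967296) (.nd (nat_lit 2656) (.br (nat_lit 3) (.ch (nat_lit 0) (.ev (nat_lit 2672) (nat_lit 8657305600)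
 (.fin (nat_lit 576468998659981881)))) (.br (nat_lit 4) (.ch (nat_lit 3) (.ev (nat_lit 2672) (nat_lit 33816580)
 (.nd (nat_lit 2800) (.br (nat_lit 5) (.ch (nat_lit 3) (.fin (nat_lit 576448107907596896))) (.ch (nat_lit 5)
 (.ev (nat_lit 2816) (nat_lit 8589934592) (.ev (nat_lit 2829) (nat_lit 67108864) .dd))))))) (.ch (nat_lit 4)
 (.ev (nat_lit 2672) (nat_lit 8690597892) (.ev (nat_lit 2685) (nat_lit 262144) .dd))))))))) (.ch (nat_lit 5)
 (.ev (nat_lit 768) (nat_lit 13421773316) (.ev (nat_lit 1152) (nat_lit 33554432) (.ev (nat_lit 1556) (nat_lit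
 2097152) (.ev (nat_lit 2228) (nat_lit 262144) (.ev (nat_lit 2237) (nat_lit 67108864) .dd))))))))))))))))))
 (.br (nat_lit 17) (.br (nat_lit 16) (.ch (nat_lit 15) (.ev (nat_lit 52) (nat_lit 2690650112) (.ev (nat_lit
 148) (nat_lit 8589934592) (.ev (nat_lit 244) (nat_lit 35184372088832) (.ev (nat_lit 308) (nat_lit 65536) (.ev
 (nat_lit 404) (nat_lit 33554432) (.ev (nat_lit 688) (nat_lit 68853694464) (.nd (nat_lit 752) (.br (nat_lit 3)
 (.ch (nat_lit 0) (.ev (nat_lit 768) (nat_lit 17596548907008) (.nd (nat_lit 880) (.br (nat_lit 3) (.ch (nat_lit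
 2) (.ev (nat_lit 896) (nat_lit 4) (.ev (nat_lit 1268) (nat_lit 512) (.nd (nat_lit 2704) (.br (nat_lit 5) (.ch
 (nat_lit 4) (.fin (nat_lit 576479993761579583))) (.ch (nat_lit 5) (.ev (nat_lit 2720) (nat_lit 268468224)
 .dd))))))) (.br (nat_lit 6) (.ch (nat_lit 3) (.ev (nat_lit 896) (nat_lit 32768) (.ev (nat_lit 964) (nat_lit 4)
 (.ev (nat_lit 976) (nat_lit 512) (.ev (nat_lit 989) (nat_lit 268435456) .dd))))) (.ch (nat_lit 6) (.ev
 (nat_lit 896) (nat_lit 268435972) (.ev (nat_lit 909) (nat_lit 32768) .dd)))))))) (.br (nat_lit 6) (.ch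
 (nat_lit 3) (.ev (nat_lit 768) (nat_lit 336363524) (.nd (nat_lit 880) (.br (nat_lit 5) (.ch (nat_lit 2) (.ev
 (nat_lit 896) (nat_lit 512) (.ev (nat_lit 964) (nat_lit 4294967296) (.ev (nat_lit 973) (nat_lit
 17592186044416) .dd)))) (.br (nat_lit 6) (.ch (nat_lit 5) (.ev (nat_lit 896) (nat_lit 17592186044416) (.ev
 (nat_lit 1604) (nat_lit 512) (.ev (nat_lit 1613) (nat_lit 4294967296) .dd)))) (.ch (nat_lit 6) (.ev (nat_lit
 896) (nat_lit 4294967296) (.ev (nat_lit 1120) (nat_lit 17592186044416) (.ev (nat_lit 1133) (nat_lit 512)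
 .dd))))))))) (.ch (nat_lit 6) (.ev (nat_lit 768) (nat_lit 17596749479940) (.ev (nat_lit 2582) (nat_lit 262656)
 (.nd (nat_lit 2704) (.ch (nat_lit 1) (.nd (nat_lit 2896) (.br (nat_lit 6) (.ch (nat_lit 0) (.fin (nat_lit
 576468998624330318))) (.ch (nat_lit 6) (.ev (nat_lit 2912) (nat_lit 67633152) .dd))))))))))))))))))) (.ch
 (nat_lit 16) (.ev (nat_lit 52) (nat_lit 52779376967684) (.ev (nat_lit 180) (nat_lit 68719476736) (.nd (nat_lit
 752) (.br (nat_lit 5) (.br (nat_lit 3) (.ch (nat_lit 0) (.ev (nat_lit 768) (nat_lit 4400353792) (.ev (nat_lit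
 1456) (nat_lit 8589934592) (.ev (nat_lit 2032) (nat_lit 65536) (.ev (nat_lit 2180) (nat_lit 32768) (.ev
 (nat_lit 2356) (nat_lit 268435456) (.ev (nat_lit 2365) (nat_lit 2097152) .dd))))))) (.ch (nat_lit 3) (.ev
 (nat_lit 768) (nat_lit 8693252096) (.nd (nat_lit 880) (.br (nat_lit 2) (.ch (nat_lit 1) (.ev (nat_lit 896)
 (nat_lit 4299227648) (.nd (nat_lit 2656) (.br (nat_lit 4) (.ch (nat_lit 3) (.ev (nat_lit 2672) (nat_lit
 268439552) .dd)) (.ch (nat_lit 4) (.fin (nat_lit 576447008406454857))))))) (.br (nat_lit 5) (.ch (nat_lit 2)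
 (.ev (nat_lit 896) (nat_lit 4563468288) (.ev (nat_lit 928) (nat_lit 512) (.ev (nat_lit 964) (nat_lit 4096)
 (.ev (nat_lit 973) (nat_lit 4194304) .dd))))) (.ch (nat_lit 5) (.ev (nat_lit 896) (nat_lit 4096) (.ev (nat_lit
 964) (nat_lit 4299227136) (.ev (nat_lit 1168) (nat_lit 268435456) (.ev (nat_lit 1181) (nat_lit 512)
 .dd))))))))))) (.br (nat_lit 6) (.ch (nat_lit 5) (.ev (nat_lit 768) (nat_lit 8862634496) (.ev (nat_lit 1680)
 (nat_lit 32768) (.ev (nat_lit 2180) (nat_lit 2097152) (.ev (nat_lit 2500) (nat_lit 33554432) (.nd (nat_lit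
 2704) (.br (nat_lit 6) (.ch (nat_lit 1) (.ev (nat_lit 2720) (nat_lit 67108864) (.nd (nat_lit 2800) (.br
 (nat_lit 6) (.ch (nat_lit 3) (.fin (nat_lit 576500884465730128))) (.ch (nat_lit 6) (.ev (nat_lit 2816)
 (nat_lit 4295491584) .dd)))))) (.ch (nat_lit 6) (.ev (nat_lit 2720) (nat_lit 4294967296) (.nd (nat_lit 2800)
 (.br (nat_lit 3) (.ch (nat_lit 0) (.fin (nat_lit 576462401583923778))) (.ch (nat_lit 3) (.ev (nat_lit 2816)
 (nat_lit 67633152) .dd))))))))))))) (.ch (nat_lit 6) (.ev (nat_lit 768) (nat_lit 4570320896) (.ev (nat_lit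
 1488) (nat_lit 8589934592) (.ev (nat_lit 2128) (nat_lit 67108864) (.ev (nat_lit 2452) (nat_lit 512) (.ev
 (nat_lit 2461) (nat_lit 33554432) .dd))))))))))))) (.br (nat_lit 18) (.ch (nat_lit 17) (.ev (nat_lit 52)
 (nat_lit 8624078848) (.ev (nat_lit 116) (nat_lit 67108864) (.ev (nat_lit 244) (nat_lit 512) (.ev (nat_lit 372)
 (nat_lit 134479872) (.ev (nat_lit 436) (nat_lit 32768) (.ev (nat_lit 736) (nat_lit 2097152) (.nd (nat_lit 752)
 (.br (nat_lit 3) (.br (nat_lit 2) (.ch (nat_lit 0) (.ev (nat_lit 768) (nat_lit 35257659166720) (.ev (nat_lit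
 2128) (nat_lit 17592186044416) (.ev (nat_lit 2144) (nat_lit 2147483648) (.ev (nat_lit 2212) (nat_lit 4) (.ev
 (nat_lit 2221) (nat_lit 536870912) .dd)))))) (.ch (nat_lit 2) (.ev (nat_lit 768) (nat_lit 52777367638016) (.ev
 (nat_lit 1792) (nat_lit 2147483648) (.ev (nat_lit 1808) (nat_lit 4294967296) (.ev (nat_lit 1940) (nat_lit
 68719476736) (.ev (nat_lit 1949) (nat_lit 4) .dd))))))) (.br (nat_lit 6) (.ch (nat_lit 3) (.ev (nat_lit 768)
 (nat_lit 52847425093636) (.nd (nat_lit 880) (.br (nat_lit 2) (.ch (nat_lit 1) (.ev (nat_lit 896) (nat_lit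
 4299161600) (.ev (nat_lit 2692) (nat_lit 536870912) (.nd (nat_lit 2768) (.br (nat_lit 4) (.ch (nat_lit 3) (.ev
 (nat_lit 2784) (nat_lit 268439552) .dd)) (.ch (nat_lit 4) (.fin (nat_lit 576447008406454857)))))))) (.br
 (nat_lit 4) (.ch (nat_lit 2) (.ev (nat_lit 896) (nat_lit 4563402752) (.ev (nat_lit 1776) (nat_lit 536870912)
 (.ev (nat_lit 1940) (nat_lit 4194304) (.ev (nat_lit 1949) (nat_lit 4096) .dd))))) (.ch (nat_lit 4) (.ev
 (nat_lit 896) (nat_lit 541069312) (.ev (nat_lit 2116) (nat_lit 4294967296) (.ev (nat_lit 2125) (nat_lit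
 268435456) .dd))))))))) (.ch (nat_lit 6) (.ev (nat_lit 768) (nat_lit 6979325956) (.ev (nat_lit 854) (nat_lit
 68719476736) (.ev (nat_lit 1984) (nat_lit 17592186044416) (.ev (nat_lit 2244) (nat_lit 268435456) (.nd
 (nat_lit 2656) (.ch (nat_lit 3) (.nd (nat_lit 2736) (.br (nat_lit 1) (.ch (nat_lit 0) (.fin (nat_lit
 576468998659981902))) (.ch (nat_lit 1) (.ev (nat_lit 2752) (nat_lit 35184376283136) .dd)))))))))))))))))))))
 (.ch (nat_lit 18) (.ev (nat_lit 52) (nat_lit 5168267776) (.ev (nat_lit 116) (nat_lit 68719476736) (.ev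
 (nat_lit 212) (nat_lit 4) (.ev (nat_lit 244) (nat_lit 8589934592) (.nd (nat_lit 752) (.br (nat_lit 3) (.br
 (nat_lit 2) (.ch (nat_lit 0) (.ev (nat_lit 768) (nat_lit 52776728002560) (.ev (nat_lit 1296) (nat_lit 4194304)
 (.ev (nat_lit 2356) (nat_lit 2147483648) (.ev (nat_lit 2365) (nat_lit 4096) .dd))))) (.ch (nat_lit 2) (.ev
 (nat_lit 768) (nat_lit 52776732196864) (.fin (nat_lit 576462401573438018))))) (.br (nat_lit 6) (.ch (nat_lit
 3) (.ev (nat_lit 768) (nat_lit 17592223797248) (.ev (nat_lit 1940) (nat_lit 134217728) (.ev (nat_lit 2372)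
 (nat_lit 2149580800) (.ev (nat_lit 2381) (nat_lit 35184372088832) .dd))))) (.ch (nat_lit 6) (.ev (nat_lit 768)
 (nat_lit 2149580800) (.ev (nat_lit 976) (nat_lit 33554432) (.ev (nat_lit 2048) (nat_lit 134217728) (.ev
 (nat_lit 2180) (nat_lit 17592186044416) (.ev (nat_lit 2292) (nat_lit 35184372088832) (.ev (nat_lit 2324)
 (nat_lit 4096) (.ev (nat_lit 2333) (nat_lit 4194304) .dd)))))))))))))))))))) (.br (nat_lit 26) (.br (nat_lit
 22) (.br (nat_lit 20) (.ch (nat_lit 19) (.ev (nat_lit 52) (nat_lit 8758267904) (.ev (nat_lit 84) (nat_lit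
 67108864) (.ev (nat_lit 148) (nat_lit 512) (.ev (nat_lit 212) (nat_lit 4194304) (.ev (nat_lit 244) (nat_lit
 4294967296) (.ev (nat_lit 340) (nat_lit 2147483648) (.nd (nat_lit 752) (.br (nat_lit 3) (.ch (nat_lit 0) (.ev
 (nat_lit 768) (nat_lit 17661444554752) (.ev (nat_lit 1152) (nat_lit 268435456) (.ev (nat_lit 1556) (nat_lit 4)
 (.ev (nat_lit 2228) (nat_lit 262144) (.ev (nat_lit 2237) (nat_lit 35184372088832) .dd)))))) (.br (nat_lit 5)
 (.ch (nat_lit 3) (.ev (nat_lit 768) (nat_lit 69256347652) (.ev (nat_lit 1488) (nat_lit 65536) (.nd (nat_lit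
 2656) (.br (nat_lit 4) (.ch (nat_lit 1) (.ev (nat_lit 2672) (nat_lit 52776558395392) (.fin (nat_lit
 576468998624330297)))) (.br (nat_lit 5) (.ch (nat_lit 4) (.ev (nat_lit 2672) (nat_lit 52776828665856) (.ev
 (nat_lit 2685) (nat_lit 262144) .dd))) (.ch (nat_lit 5) (.ev (nat_lit 2672) (nat_lit 270794752) (.nd (nat_lit
 2768) (.br (nat_lit 6) (.ch (nat_lit 4) (.ev (nat_lit 2784) (nat_lit 17592186044416) (.ev (nat_lit 2797)
 (nat_lit 35184372088832) .dd))) (.ch (nat_lit 6) (.fin (nat_lit 576448107934859872))))))))))))) (.ch (nat_lit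
 5) (.ev (nat_lit 768) (nat_lit 52776826896384) (.ev (nat_lit 1456) (nat_lit 69256347648) (.ev (nat_lit 1584)
 (nat_lit 2097152) (.ev (nat_lit 1597) (nat_lit 4) .dd))))))))))))))) (.br (nat_lit 21) (.ch (nat_lit 20) (.ev
 (nat_lit 52) (nat_lit 11312398340) (.ev (nat_lit 244) (nat_lit 2097152) (.ev (nat_lit 704) (nat_lit
 68719476736) (.nd (nat_lit 752) (.br (nat_lit 5) (.br (nat_lit 3) (.ch (nat_lit 0) (.ev (nat_lit 768) (nat_lit
 4765257728) (.ev (nat_lit 2004) (nat_lit 17592186044416) (.ev (nat_lit 2016) (nat_lit 512) (.ev (nat_lit 2029)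
 (nat_lit 35184372088832) .dd))))) (.ch (nat_lit 3) (.ev (nat_lit 768) (nat_lit 52776894202368) (.nd (nat_lit
 880) (.br (nat_lit 4) (.br (nat_lit 2) (.ch (nat_lit 1) (.ev (nat_lit 896) (nat_lit 4429189120) .dd)) (.ch
 (nat_lit 2) (.ev (nat_lit 2116) (nat_lit 134217728) (.ev (nat_lit 2128) (nat_lit 4096) (.ev (nat_lit 2141)
 (nat_lit 4294967296) .dd))))) (.br (nat_lit 6) (.ch (nat_lit 4) (.ev (nat_lit 896) (nat_lit 134221824) (.ev
 (nat_lit 909) (nat_lit 4294967296) .dd))) (.ch (nat_lit 6) (.ev (nat_lit 896) (nat_lit 4429189120) .dd))))))))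
 (.br (nat_lit 6) (.ch (nat_lit 5) (.ev (nat_lit 768) (nat_lit 52776826573312) (.ev (nat_lit 1940) (nat_lit
 4294967296) (.ev (nat_lit 2432) (nat_lit 67108864) (.nd (nat_lit 2704) (.br (nat_lit 6) (.ch (nat_lit 0) (.ev
 (nat_lit 2720) (nat_lit 134742016) .dd)) (.ch (nat_lit 6) (.fin (nat_lit 576460202548085317))))))))) (.ch
 (nat_lit 6) (.ev (nat_lit 768) (nat_lit 4496293888) (.ev (nat_lit 822) (nat_lit 524288) (.ev (nat_lit 1616)
 (nat_lit 4096) (.ev (nat_lit 2212) (nat_lit 17592186044416) (.ev (nat_lit 2468) (nat_lit 35184372088832) (.nd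
 (nat_lit 2704) (.br (nat_lit 4) (.ch (nat_lit 2) (.fin (nat_lit 576449207450681919))) (.ch (nat_lit 4) (.ev
 (nat_lit 2720) (nat_lit 268435968) .dd))))))))))))))))) (.ch (nat_lit 21) (.ev (nat_lit 52) (nat_lit
 8825143808) (.ev (nat_lit 84) (nat_lit 68719476736) (.ev (nat_lit 372) (nat_lit 536870912) (.ev (nat_lit 404)
 (nat_lit 4096) (.ev (nat_lit 576) (nat_lit 4299161604) (.nd (nat_lit 752) (.br (nat_lit 5) (.ch (nat_lit 3)
 (.ev (nat_lit 768) (nat_lit 17592186601472) (.nd (nat_lit 880) (.br (nat_lit 5) (.br (nat_lit 4) (.ch (nat_lit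
 1) (.ev (nat_lit 896) (nat_lit 35184372088832) (.ev (nat_lit 2544) (nat_lit 2147483648) (.fin (nat_lit
 576468998624330297))))) (.ch (nat_lit 4) (.ev (nat_lit 896) (nat_lit 35186521669632) (.ev (nat_lit 909)
 (nat_lit 268435456) .dd)))) (.br (nat_lit 6) (.ch (nat_lit 5) (.ev (nat_lit 896) (nat_lit 270532608) (.fin
 (nat_lit 576466799619949123)))) (.ch (nat_lit 6) (.ev (nat_lit 896) (nat_lit 2418016256) (.ev (nat_lit 909)
 (nat_lit 35184372088832) .dd)))))))) (.br (nat_lit 6) (.ch (nat_lit 5) (.ev (nat_lit 768) (nat_lit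
 35184641048576) (.ev (nat_lit 1760) (nat_lit 2147483648) (.ev (nat_lit 1968) (nat_lit 2129920) (.ev (nat_lit
 1981) (nat_lit 17592186044416) .dd))))) (.ch (nat_lit 6) (.ev (nat_lit 768) (nat_lit 2149613568) (.ev (nat_lit
 1120) (nat_lit 35184372088832) (.ev (nat_lit 2180) (nat_lit 17592186044416) (.ev (nat_lit 2336) (nat_lit
 268435456) (.ev (nat_lit 2349) (nat_lit 524288) .dd))))))))))))))))) (.br (nat_lit 24) (.ch (nat_lit 22) (.ev
 (nat_lit 52) (nat_lit 17596753641472) (.ev (nat_lit 116) (nat_lit 35184372088832) (.ev (nat_lit 244) (nat_lit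
 68719476736) (.ev (nat_lit 340) (nat_lit 262144) (.ev (nat_lit 372) (nat_lit 4096) (.ev (nat_lit 436) (nat_lit
 2147483648) (.ev (nat_lit 720) (nat_lit 4) (.nd (nat_lit 752) (.br (nat_lit 5) (.br (nat_lit 3) (.ch (nat_lit
 2) (.ev (nat_lit 768) (nat_lit 8659173888) (.ev (nat_lit 1940) (nat_lit 524288) (.ev (nat_lit 2128) (nat_lit
 65536) (.nd (nat_lit 2656) (.ch (nat_lit 0) (.ev (nat_lit 2692) (nat_lit 536870912) (.nd (nat_lit 2736) (.br
 (nat_lit 1) (.ch (nat_lit 0) (.fin (nat_lit 576447008412746313))) (.ch (nat_lit 1) (.ev (nat_lit 2752)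
 (nat_lit 167772160) .dd))))))))))) (.ch (nat_lit 3) (.ev (nat_lit 768) (nat_lit 9362210816) (.nd (nat_lit 880)
 (.br (nat_lit 4) (.br (nat_lit 2) (.ch (nat_lit 1) (.ev (nat_lit 896) (nat_lit 66048) (.ev (nat_lit 1792)
 (nat_lit 32768) (.ev (nat_lit 1805) (nat_lit 2097152) .dd)))) (.ch (nat_lit 2) (.ev (nat_lit 896) (nat_lit
 2097152) (.ev (nat_lit 1712) (nat_lit 32768) (.ev (nat_lit 1808) (nat_lit 65536) (.ev (nat_lit 1821) (nat_lit
 512) .dd)))))) (.br (nat_lit 5) (.ch (nat_lit 4) (.ev (nat_lit 896) (nat_lit 98816) (.ev (nat_lit 909)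
 (nat_lit 2097152) .dd))) (.ch (nat_lit 5) (.ev (nat_lit 896) (nat_lit 2195456) (.ev (nat_lit 909) (nat_lit
 512) .dd))))))))) (.br (nat_lit 6) (.ch (nat_lit 5) (.ev (nat_lit 768) (nat_lit 235471360) (.ev (nat_lit 2128)
 (nat_lit 8589934592) (.ev (nat_lit 2144) (nat_lit 32768) (.ev (nat_lit 2212) (nat_lit 2097152) (.ev (nat_lit
 2221) (nat_lit 536870912) .dd)))))) (.ch (nat_lit 6) (.ev (nat_lit 768) (nat_lit 673284096) (.ev (nat_lit 870)
 (nat_lit 512) (.ev (nat_lit 1984) (nat_lit 8589934592) (.ev (nat_lit 2244) (nat_lit 33554432) (.nd (nat_lit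
 2704) (.ch (nat_lit 1) (.nd (nat_lit 2864) (.br (nat_lit 6) (.ch (nat_lit 0) (.fin (nat_lit
 576468998624330318))) (.ch (nat_lit 6) (.ev (nat_lit 2880) (nat_lit 67633152) .dd)))))))))))))))))))))) (.br
 (nat_lit 25) (.ch (nat_lit 24) (.ev (nat_lit 52) (nat_lit 52849841278976) (.ev (nat_lit 84) (nat_lit 512) (.ev
 (nat_lit 340) (nat_lit 536870912) (.ev (nat_lit 404) (nat_lit 134217728) (.ev (nat_lit 528) (nat_lit 2686976)
 (.nd (nat_lit 752) (.br (nat_lit 2) (.ch (nat_lit 0) (.ev (nat_lit 768) (nat_lit 104857600) (.ev (nat_lit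
 1760) (nat_lit 32768) (.ev (nat_lit 1968) (nat_lit 2147483652) (.ev (nat_lit 1981) (nat_lit 8589934592)
 .dd))))) (.br (nat_lit 6) (.ch (nat_lit 2) (.ev (nat_lit 768) (nat_lit 10741612544) (.nd (nat_lit 2656) (.br
 (nat_lit 3) (.ch (nat_lit 0) (.ev (nat_lit 2672) (nat_lit 67141632) (.fin (nat_lit 576468998659981881)))) (.ch
 (nat_lit 3) (.ev (nat_lit 2672) (nat_lit 33554436) (.fin (nat_lit 576455804503671357)))))))) (.ch (nat_lit 6)
 (.ev (nat_lit 768) (nat_lit 2147516420) (.ev (nat_lit 992) (nat_lit 67108864) (.ev (nat_lit 2180) (nat_lit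
 8589934592) (.ev (nat_lit 2336) (nat_lit 33554432) (.ev (nat_lit 2349) (nat_lit 4194304) .dd)))))))))))))))
 (.ch (nat_lit 25) (.ev (nat_lit 52) (nat_lit 52778946826240) (.ev (nat_lit 180) (nat_lit 65536) (.nd (nat_lit
 752) (.br (nat_lit 5) (.ch (nat_lit 2) (.ev (nat_lit 768) (nat_lit 73820013056) (.ev (nat_lit 928) (nat_lit 4)
 (.ev (nat_lit 1044) (nat_lit 524288) (.ev (nat_lit 1053) (nat_lit 8589934592) .dd))))) (.br (nat_lit 6) (.ch
 (nat_lit 5) (.ev (nat_lit 768) (nat_lit 805306880) (.ev (nat_lit 1376) (nat_lit 262144) (.ev (nat_lit 1440)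
 (nat_lit 8589934592) (.ev (nat_lit 1504) (nat_lit 68719476740) (.nd (nat_lit 2656) (.br (nat_lit 6) (.ch
 (nat_lit 1) (.fin (nat_lit 576500884465730128))) (.ch (nat_lit 6) (.ev (nat_lit 2672) (nat_lit 4294967296)
 (.ev (nat_lit 2685) (nat_lit 524288) .dd)))))))))) (.ch (nat_lit 6) (.ev (nat_lit 768) (nat_lit 81605165060)
 (.ev (nat_lit 2614) (nat_lit 536870912) (.nd (nat_lit 2736) (.br (nat_lit 2) (.ch (nat_lit 1) (.ev (nat_lit
 2752) (nat_lit 268435968) .dd)) (.ch (nat_lit 2) (.fin (nat_lit 576449207450681919))))))))))))))))) (.br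
 (nat_lit 30) (.br (nat_lit 27) (.ch (nat_lit 26) (.ev (nat_lit 52) (nat_lit 2396672) (.ev (nat_lit 84)
 (nat_lit 65536) (.ev (nat_lit 308) (nat_lit 4194304) (.ev (nat_lit 436) (nat_lit 536870912) (.nd (nat_lit 752)
 (.br (nat_lit 5) (.br (nat_lit 2) (.ch (nat_lit 0) (.ev (nat_lit 768) (nat_lit 52851955466244) (.ev (nat_lit
 1056) (nat_lit 268435456) (.ev (nat_lit 1069) (nat_lit 8589934592) .dd)))) (.ch (nat_lit 2) (.ev (nat_lit 768)
 (nat_lit 52779141824516) (.ev (nat_lit 1044) (nat_lit 68719476736) (.ev (nat_lit 1376) (nat_lit 4294967296)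
 (.nd (nat_lit 2656) (.br (nat_lit 3) (.ch (nat_lit 2) (.ev (nat_lit 2672) (nat_lit 8657043456) (.ev (nat_lit
 2685) (nat_lit 524288) .dd))) (.ch (nat_lit 3) (.ev (nat_lit 2672) (nat_lit 524288) (.fin (nat_lit
 576448107907596896))))))))))) (.br (nat_lit 6) (.ch (nat_lit 5) (.ev (nat_lit 768) (nat_lit 35266379120640)
 (.ev (nat_lit 1872) (nat_lit 4) (.ev (nat_lit 1984) (nat_lit 17592186044416) (.nd (nat_lit 2656) (.br (nat_lit
 6) (.ch (nat_lit 1) (.ev (nat_lit 2672) (nat_lit 67633152) (.fin (nat_lit 576479993755288127)))) (.ch (nat_lit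
 6) (.ev (nat_lit 2672) (nat_lit 2181038080) (.nd (nat_lit 2832) (.br (nat_lit 5) (.ch (nat_lit 0) (.fin
 (nat_lit 576462401583923778))) (.ch (nat_lit 5) (.ev (nat_lit 2848) (nat_lit 67108864) (.ev (nat_lit 2861)
 (nat_lit 524288) .dd))))))))))))) (.ch (nat_lit 6) (.ev (nat_lit 768) (nat_lit 17598998118404) (.ev (nat_lit
 1840) (nat_lit 134217728) (.ev (nat_lit 2004) (nat_lit 68719476736) (.ev (nat_lit 2116) (nat_lit 8589934592)
 (.ev (nat_lit 2125) (nat_lit 35184372088832) .dd)))))))))))))) (.br (nat_lit 29) (.ch (nat_lit 27) (.ev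
 (nat_lit 52) (nat_lit 71001440260) (.ev (nat_lit 84) (nat_lit 4294967296) (.ev (nat_lit 308) (nat_lit 524288)
 (.ev (nat_lit 404) (nat_lit 536870912) (.nd (nat_lit 752) (.br (nat_lit 5) (.br (nat_lit 3) (.ch (nat_lit 0)
 (.ev (nat_lit 768) (nat_lit 17592286777856) (.ev (nat_lit 1872) (nat_lit 2097152) (.ev (nat_lit 1984) (nat_lit
 8589934592) (.nd (nat_lit 2656) (.br (nat_lit 4) (.ch (nat_lit 2) (.ev (nat_lit 2672) (nat_lit 35184376283136)
 (.fin (nat_lit 576479993761579583)))) (.ch (nat_lit 4) (.ev (nat_lit 2672) (nat_lit 268468224) (.nd (nat_lit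
 2736) (.br (nat_lit 4) (.ch (nat_lit 2) (.fin (nat_lit 576462401560855106))) (.ch (nat_lit 4) (.ev (nat_lit
 2752) (nat_lit 35184372088832) (.ev (nat_lit 2765) (nat_lit 4194304) .dd))))))))))))) (.ch (nat_lit 3) (.ev
 (nat_lit 768) (nat_lit 8961167360) (.nd (nat_lit 880) (.br (nat_lit 5) (.ch (nat_lit 2) (.ev (nat_lit 896)
 (nat_lit 17592186110464) (.ev (nat_lit 964) (nat_lit 35184372088832) (.ev (nat_lit 973) (nat_lit 4194304)
 .dd)))) (.br (nat_lit 6) (.ch (nat_lit 5) (.ev (nat_lit 896) (nat_lit 4194816) (.ev (nat_lit 964) (nat_lit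
 65536) (.fin (nat_lit 576474496186663456))))) (.ch (nat_lit 6) (.ev (nat_lit 896) (nat_lit 35184372088832)
 (.ev (nat_lit 912) (nat_lit 17592186044416) (.ev (nat_lit 1044) (nat_lit 512) (.ev (nat_lit 1376) (nat_lit
 65536) (.ev (nat_lit 1389) (nat_lit 4194304) .dd)))))))))))) (.br (nat_lit 6) (.ch (nat_lit 5) (.ev (nat_lit
 768) (nat_lit 35193303962112) (.ev (nat_lit 1056) (nat_lit 33554432) (.ev (nat_lit 1069) (nat_lit
 17592186044416) .dd)))) (.ch (nat_lit 6) (.ev (nat_lit 768) (nat_lit 35193270403072) (.ev (nat_lit 1840)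
 (nat_lit 4096) (.ev (nat_lit 2004) (nat_lit 512) (.ev (nat_lit 2116) (nat_lit 17592186044416) (.ev (nat_lit
 2125) (nat_lit 67108864) .dd)))))))))))))) (.ch (nat_lit 29) (.ev (nat_lit 52) (nat_lit 17592354439680) (.ev
 (nat_lit 148) (nat_lit 4194304) (.ev (nat_lit 212) (nat_lit 68719476736) (.ev (nat_lit 308) (nat_lit
 8589934592) (.ev (nat_lit 416) (nat_lit 35191689318404) .dd)))))))) (.br (nat_lit 35) (.br (nat_lit 33) (.ch
 (nat_lit 30) (.ev (nat_lit 52) (nat_lit 17599436718080) (.ev (nat_lit 244) (nat_lit 4) (.ev (nat_lit 560)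
 (nat_lit 512) (.nd (nat_lit 752) (.br (nat_lit 5) (.br (nat_lit 2) (.ch (nat_lit 0) (.ev (nat_lit 768)
 (nat_lit 77544292352) (.ev (nat_lit 1940) (nat_lit 65536) (.ev (nat_lit 2432) (nat_lit 35184372088832) (.nd
 (nat_lit 2736) (.br (nat_lit 4) (.ch (nat_lit 3) (.ev (nat_lit 2752) (nat_lit 4198400) .dd)) (.ch (nat_lit 4)
 (.fin (nat_lit 576460202550182469))))))))) (.ch (nat_lit 2) (.ev (nat_lit 768) (nat_lit 35261786357760) (.ev
 (nat_lit 2116) (nat_lit 4096) (.ev (nat_lit 2128) (nat_lit 134217728) (.ev (nat_lit 2141) (nat_lit 65536)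
 .dd)))))) (.br (nat_lit 6) (.ch (nat_lit 5) (.ev (nat_lit 768) (nat_lit 35184544124928) (.ev (nat_lit 2004)
 (nat_lit 8589934592) (.ev (nat_lit 2016) (nat_lit 68719476736) (.ev (nat_lit 2029) (nat_lit 67108864) .dd)))))
 (.ch (nat_lit 6) (.ev (nat_lit 768) (nat_lit 35184372158464) (.ev (nat_lit 838) (nat_lit 4194304) (.ev
 (nat_lit 1616) (nat_lit 134217728) (.ev (nat_lit 2212) (nat_lit 8589934592) (.ev (nat_lit 2468) (nat_lit
 67108864) (.nd (nat_lit 2656) (.br (nat_lit 2) (.ch (nat_lit 0) (.ev (nat_lit 2672) (nat_lit 68753031168)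
 .dd)) (.ch (nat_lit 2) (.fin (nat_lit 576449207415030335)))))))))))))))))) (.ch (nat_lit 33) (.ev (nat_lit 52)
 (nat_lit 671645700) (.ev (nat_lit 148) (nat_lit 17592186044416) (.ev (nat_lit 244) (nat_lit 67108864) (.ev
 (nat_lit 308) (nat_lit 4294967296) (.ev (nat_lit 404) (nat_lit 268435456) (.ev (nat_lit 656) (nat_lit 4608)
 (.nd (nat_lit 752) (.br (nat_lit 5) (.ch (nat_lit 2) (.ev (nat_lit 768) (nat_lit 35186559680512) (.ev (nat_lit
 1152) (nat_lit 8589934592) (.ev (nat_lit 1604) (nat_lit 68719476736) (.ev (nat_lit 1613) (nat_lit 65536)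
 .dd))))) (.br (nat_lit 6) (.ch (nat_lit 5) (.ev (nat_lit 768) (nat_lit 35192966545408) (.ev (nat_lit 1920)
 (nat_lit 2097152) (.nd (nat_lit 2656) (.ch (nat_lit 1) (.ev (nat_lit 2692) (nat_lit 68719476736) (.nd (nat_lit
 2768) (.br (nat_lit 6) (.ch (nat_lit 0) (.fin (nat_lit 576479993755288127))) (.ch (nat_lit 6) (.ev (nat_lit
 2784) (nat_lit 2181038080) .dd)))))))))) (.ch (nat_lit 6) (.ev (nat_lit 768) (nat_lit 10773135360) (.ev
 (nat_lit 2518) (nat_lit 68719738880) (.nd (nat_lit 2704) (.ch (nat_lit 3) (.nd (nat_lit 2768) (.br (nat_lit 1)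
 (.ch (nat_lit 0) (.fin (nat_lit 576468998659981902))) (.ch (nat_lit 1) (.ev (nat_lit 2784) (nat_lit
 35184376283136) .dd)))))))))))))))))))) (.br (nat_lit 36) (.ch (nat_lit 35) (.ev (nat_lit 52) (nat_lit
 9196310528) (.ev (nat_lit 180) (nat_lit 512) (.nd (nat_lit 752) (.br (nat_lit 5) (.br (nat_lit 2) (.ch
 (nat_lit 0) (.ev (nat_lit 768) (nat_lit 17665368784896) (.ev (nat_lit 1680) (nat_lit 2147483648) (.ev (nat_lit
 2180) (nat_lit 4) (.ev (nat_lit 2500) (nat_lit 268435456) (.nd (nat_lit 2704) (.br (nat_lit 4) (.ch (nat_lit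
 2) (.ev (nat_lit 2720) (nat_lit 35184372088832) (.nd (nat_lit 2768) (.br (nat_lit 5) (.ch (nat_lit 1) (.fin
 (nat_lit 576421719628530224))) (.ch (nat_lit 5) (.ev (nat_lit 2784) (nat_lit 4259840) .dd)))))) (.ch (nat_lit
 4) (.ev (nat_lit 2720) (nat_lit 65536) (.nd (nat_lit 2768) (.br (nat_lit 6) (.ch (nat_lit 2) (.fin (nat_lit
 576462401560855106))) (.ch (nat_lit 6) (.ev (nat_lit 2784) (nat_lit 35184376283136) .dd))))))))))))) (.ch
 (nat_lit 2) (.ev (nat_lit 768) (nat_lit 52778978246660) (.ev (nat_lit 976) (nat_lit 65536) (.ev (nat_lit 1044)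
 (nat_lit 4294967296) (.ev (nat_lit 2388) (nat_lit 524288) (.ev (nat_lit 2630) (nat_lit 68719476736) (.nd
 (nat_lit 2736) (.br (nat_lit 3) (.ch (nat_lit 0) (.nd (nat_lit 2832) (.br (nat_lit 1) (.ch (nat_lit 0) (.fin
 (nat_lit 576447008412746313))) (.ch (nat_lit 1) (.ev (nat_lit 2848) (nat_lit 167772160) .dd))))) (.ch (nat_lit
 3) (.ev (nat_lit 2752) (nat_lit 167772160) .dd))))))))))) (.br (nat_lit 6) (.ch (nat_lit 5) (.ev (nat_lit 768)
 (nat_lit 35253499002880) (.ev (nat_lit 1456) (nat_lit 17592186044416) (.ev (nat_lit 2032) (nat_lit 4294967296)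
 (.ev (nat_lit 2180) (nat_lit 2147483648) (.ev (nat_lit 2356) (nat_lit 33554432) (.ev (nat_lit 2365) (nat_lit
 4) .dd))))))) (.ch (nat_lit 6) (.ev (nat_lit 768) (nat_lit 6615007236) (.ev (nat_lit 1488) (nat_lit
 17592186044416) (.ev (nat_lit 2128) (nat_lit 35184372088832) (.ev (nat_lit 2452) (nat_lit 68719476736) (.ev
 (nat_lit 2461) (nat_lit 268435456) .dd)))))))))))) (.ch (nat_lit 36) (.ev (nat_lit 52) (nat_lit
 35195579830276) (.ev (nat_lit 180) (nat_lit 4294967296) (.nd (nat_lit 752) (.br (nat_lit 3) (.ch (nat_lit 0)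
 (.ev (nat_lit 768) (nat_lit 69289902080) (.ev (nat_lit 1376) (nat_lit 262144) (.ev (nat_lit 1440) (nat_lit
 17592186044416) (.ev (nat_lit 1504) (nat_lit 2097664) (.nd (nat_lit 2656) (.br (nat_lit 4) (.ch (nat_lit 2)
 (.fin (nat_lit 576421719628530224))) (.ch (nat_lit 4) (.ev (nat_lit 2672) (nat_lit 65536) (.ev (nat_lit 2685)
 (nat_lit 4194304) .dd)))))))))) (.br (nat_lit 6) (.ch (nat_lit 3) (.ev (nat_lit 768) (nat_lit 69290230272)
 (.nd (nat_lit 880) (.br (nat_lit 4) (.ch (nat_lit 2) (.ev (nat_lit 896) (nat_lit 17592188141568) (.ev (nat_lit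
 909) (nat_lit 4194304) .dd))) (.br (nat_lit 6) (.ch (nat_lit 4) (.ev (nat_lit 896) (nat_lit 6291456) (.ev
 (nat_lit 909) (nat_lit 17592186044416) .dd))) (.ch (nat_lit 6) (.ev (nat_lit 896) (nat_lit 17592186044416)
 (.ev (nat_lit 928) (nat_lit 2097152) (.ev (nat_lit 941) (nat_lit 4194304) .dd))))))))) (.ch (nat_lit 6) (.ev
 (nat_lit 768) (nat_lit 17592192664064) (.ev (nat_lit 2598) (nat_lit 536870912) (.nd (nat_lit 2704) (.br
 (nat_lit 3) (.ch (nat_lit 2) (.fin (nat_lit 576449207415030335))) (.ch (nat_lit 3) (.ev (nat_lit 2720)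
 (nat_lit 68753031168) .dd))))))))))))))))))))

/-- The trie. -/
noncomputable def T : Tr := .nd (nat_lit 1000000) (.br (nat_lit 1) (.ch (nat_lit 0) (.ev (nat_lit 0) (nat_lit 140737488355327) .dd)) (.br (nat_lit 3) (.ch (nat_lit 1) T1) (.ch (nat_lit 3) T3)))

/-- The possible values. -/
noncomputable def oks : List ℕ := [4, 9, 65, 249, 921, 3586]

/-- The parameters. -/
noncomputable def S : Pr := ⟨fun i l e => lget mz (lget [] (lget [] tabs i) l) e, oks, [(nat_lit 0), (nat_lit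
 1), (nat_lit 0), (nat_lit 0), (nat_lit 0)], T, (nat_lit 140737488355327), (nat_lit 12800101590481), (nat_lit
 47), [(nat_lit 1), (nat_lit 23899161165)], [(nat_lit 2401), (nat_lit 1369)]⟩

/-- Nothing known. -/
noncomputable def cs0 : Cs := (.cons (nat_lit 7) (nat_lit 0) (nat_lit 1) (.cons (nat_lit 37) (nat_lit 0) (nat_lit 1) .nil))

theorem part_1 : part S cs0 (nat_lit 1) = true := by decide +kernel

theorem part_3 : part S cs0 (nat_lit 3) = true := by decide +kernel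

/-- Data of a prime. -/
noncomputable def D0 : PD := ⟨(nat_lit 7), (nat_lit 4), (2282, 1, 2), (2043, 1659, 1089), (1701, 1622, 907)⟩

theorem D0_ok : D0.Ok := pdb_sound (s := 1) (C := ⟨⟨7, -2, -11, 7, 2, 4, 0, 3, -1⟩, (5, 2, 3)⟩) (by show Nat.Prime 7; norm_num) (by decide +kernel)

/-- Lines of the first type. -/
noncomputable def Cl0 : List C1 := [⟨⟨7, 2, -11, 7, -2, 4, 0, -3, -1⟩, (6, 1, 5)⟩,
  ⟨⟨0, 0, 0, 0, 0, 0, 0, 0, 0⟩, (0, 0, 0)⟩,
  ⟨⟨0, 0, 0, 0, 0, 0, 0, 0, 0⟩, (0, 0, 0)⟩,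
  ⟨⟨0, 0, 0, 0, 0, 0, 0, 0, 0⟩, (0, 0, 0)⟩,
  ⟨⟨0, 0, 0, 0, 0, 0, 0, 0, 0⟩, (0, 0, 0)⟩,
  ⟨⟨0, 0, 0, 0, 0, 0, 0, 0, 0⟩, (0, 0, 0)⟩,
  ⟨⟨0, 0, 0, 0, 0, 0, 0, 0, 0⟩, (0, 0, 0)⟩]

/-- Data of a prime. -/
noncomputable def D1 : PD := ⟨(nat_lit 37), (nat_lit 2), (556, 16, 5), (1239, 947, 1101), (730, 506, 467)⟩

theorem D1_ok : D1.Ok := pdb_sound (s := 2) (C := ⟨⟨43, 22, -44, 23, -2, 41, 6, -15, -7⟩, (6, 23, 6)⟩) (by show Nat.Prime 37; norm_num) (by decide +kernel)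

/-- Lines of the first type. -/
noncomputable def Cl1 : List C1 := [⟨⟨23, -2, -64, 43, 22, 1, -6, 15, -1⟩, (31, 29, 8)⟩,
  ⟨⟨0, 0, 0, 0, 0, 0, 0, 0, 0⟩, (0, 0, 0)⟩,
  ⟨⟨-7, 22, -49, 27, 42, 4, 14, -7, -13⟩, (1, 12, 35)⟩,
  ⟨⟨-13, 38, -31, -47, -22, 16, 6, -9, -17⟩, (20, 4, 5)⟩,
  ⟨⟨0, 0, 0, 0, 0, 0, 0, 0, 0⟩, (0, 0, 0)⟩,
  ⟨⟨0, 0, 0, 0, 0, 0, 0, 0, 0⟩, (0, 0, 0)⟩,
  ⟨⟨7, 22, -56, -27, 42, 31, 14, 7, -1⟩, (18, 31, 36)⟩,
  ⟨⟨0, 0, 0, 0, 0, 0, 0, 0, 0⟩, (0, 0, 0)⟩,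
  ⟨⟨0, 0, 0, 0, 0, 0, 0, 0, 0⟩, (0, 0, 0)⟩,
  ⟨⟨13, -38, -44, -47, -22, 31, -6, 9, -11⟩, (18, 26, 23)⟩,
  ⟨⟨0, 0, 0, 0, 0, 0, 0, 0, 0⟩, (0, 0, 0)⟩,
  ⟨⟨0, 0, 0, 0, 0, 0, 0, 0, 0⟩, (0, 0, 0)⟩,
  ⟨⟨0, 0, 0, 0, 0, 0, 0, 0, 0⟩, (0, 0, 0)⟩,
  ⟨⟨0, 0, 0, 0, 0, 0, 0, 0, 0⟩, (0, 0, 0)⟩,
  ⟨⟨13, 38, -44, -47, 22, 31, -6, -9, -11⟩, (4, 14, 1)⟩,
  ⟨⟨0, 0, 0, 0, 0, 0, 0, 0, 0⟩, (0, 0, 0)⟩,
  ⟨⟨0, 0, 0, 0, 0, 0, 0, 0, 0⟩, (0, 0, 0)⟩,
  ⟨⟨0, 0, 0, 0, 0, 0, 0, 0, 0⟩, (0, 0, 0)⟩,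
  ⟨⟨0, 0, 0, 0, 0, 0, 0, 0, 0⟩, (0, 0, 0)⟩,
  ⟨⟨0, 0, 0, 0, 0, 0, 0, 0, 0⟩, (0, 0, 0)⟩,
  ⟨⟨0, 0, 0, 0, 0, 0, 0, 0, 0⟩, (0, 0, 0)⟩,
  ⟨⟨0, 0, 0, 0, 0, 0, 0, 0, 0⟩, (0, 0, 0)⟩,
  ⟨⟨0, 0, 0, 0, 0, 0, 0, 0, 0⟩, (0, 0, 0)⟩,
  ⟨⟨-7, -22, -49, 27, -42, 4, 14, 7, -13⟩, (13, 8, 11)⟩,
  ⟨⟨0, 0, 0, 0, 0, 0, 0, 0, 0⟩, (0, 0, 0)⟩,
  ⟨⟨0, 0, 0, 0, 0, 0, 0, 0, 0⟩, (0, 0, 0)⟩,
  ⟨⟨0, 0, 0, 0, 0, 0, 0, 0, 0⟩, (0, 0, 0)⟩,
  ⟨⟨0, 0, 0, 0, 0, 0, 0, 0, 0⟩, (0, 0, 0)⟩,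
  ⟨⟨23, 2, -64, 43, -22, 1, -6, -15, -1⟩, (3, 4, 33)⟩,
  ⟨⟨0, 0, 0, 0, 0, 0, 0, 0, 0⟩, (0, 0, 0)⟩,
  ⟨⟨0, 0, 0, 0, 0, 0, 0, 0, 0⟩, (0, 0, 0)⟩,
  ⟨⟨-13, -38, -31, -47, 22, 16, 6, 9, -17⟩, (34, 29, 27)⟩,
  ⟨⟨7, -22, -56, -27, -42, 31, 14, -7, -1⟩, (30, 27, 23)⟩,
  ⟨⟨0, 0, 0, 0, 0, 0, 0, 0, 0⟩, (0, 0, 0)⟩,
  ⟨⟨43, -22, -44, 23, 2, 41, 6, 15, -7⟩, (12, 9, 12)⟩,
  ⟨⟨0, 0, 0, 0, 0, 0, 0, 0, 0⟩, (0, 0, 0)⟩,
  ⟨⟨0, 0, 0, 0, 0, 0, 0, 0, 0⟩, (0, 0, 0)⟩]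

/-- Data of a prime. -/
noncomputable def Dm : PD := ⟨(nat_lit 47), (nat_lit 2), (1034, 1, 9), (105, 517, 2039), (987, 5, 190)⟩

theorem Dm_ok : Dm.Ok := pdb_sound (s := 1) (C := ⟨⟨47, 2, -76, 47, -2, 29, 0, -21, -1⟩, (2, 45, 26)⟩) (by show Nat.Prime 47; norm_num) (by decide +kernel)

/-- Lines of the first type. -/
noncomputable def Clm : List C1 := [⟨⟨47, -2, -76, 47, 2, 29, 0, 21, -1⟩, (9, 38, 23)⟩,
  ⟨⟨0, 0, 0, 0, 0, 0, 0, 0, 0⟩, (0, 0, 0)⟩,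
  ⟨⟨0, 0, 0, 0, 0, 0, 0, 0, 0⟩, (0, 0, 0)⟩,
  ⟨⟨0, 0, 0, 0, 0, 0, 0, 0, 0⟩, (0, 0, 0)⟩,
  ⟨⟨17, 22, -76, -63, 18, 19, -4, -19, -7⟩, (10, 21, 17)⟩,
  ⟨⟨0, 0, 0, 0, 0, 0, 0, 0, 0⟩, (0, 0, 0)⟩,
  ⟨⟨57, -18, -61, -23, -62, 4, -8, 5, -17⟩, (3, 26, 7)⟩,
  ⟨⟨57, 18, -61, -23, 62, 4, -8, -5, -17⟩, (16, 29, 6)⟩,
  ⟨⟨53, -22, -64, -13, -62, 29, -12, -3, -13⟩, (46, 10, 2)⟩,
  ⟨⟨0, 0, 0, 0, 0, 0, 0, 0, 0⟩, (0, 0, 0)⟩,
  ⟨⟨43, -38, -59, 3, -42, 56, -16, -11, -1⟩, (35, 9, 46)⟩,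
  ⟨⟨0, 0, 0, 0, 0, 0, 0, 0, 0⟩, (0, 0, 0)⟩,
  ⟨⟨0, 0, 0, 0, 0, 0, 0, 0, 0⟩, (0, 0, 0)⟩,
  ⟨⟨-17, -22, -59, -63, 18, 44, 4, 19, -11⟩, (15, 39, 2)⟩,
  ⟨⟨0, 0, 0, 0, 0, 0, 0, 0, 0⟩, (0, 0, 0)⟩,
  ⟨⟨0, 0, 0, 0, 0, 0, 0, 0, 0⟩, (0, 0, 0)⟩,
  ⟨⟨0, 0, 0, 0, 0, 0, 0, 0, 0⟩, (0, 0, 0)⟩,
  ⟨⟨53, 22, -64, -13, 62, 29, -12, 3, -13⟩, (41, 13, 12)⟩,
  ⟨⟨0, 0, 0, 0, 0, 0, 0, 0, 0⟩, (0, 0, 0)⟩,
  ⟨⟨0, 0, 0, 0, 0, 0, 0, 0, 0⟩, (0, 0, 0)⟩,
  ⟨⟨0, 0, 0, 0, 0, 0, 0, 0, 0⟩, (0, 0, 0)⟩,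
  ⟨⟨0, 0, 0, 0, 0, 0, 0, 0, 0⟩, (0, 0, 0)⟩,
  ⟨⟨0, 0, 0, 0, 0, 0, 0, 0, 0⟩, (0, 0, 0)⟩,
  ⟨⟨43, 38, -59, 3, 42, 56, -16, 11, -1⟩, (5, 8, 20)⟩,
  ⟨⟨3, -42, -59, 43, -38, 16, 16, 11, -17⟩, (39, 42, 20)⟩,
  ⟨⟨0, 0, 0, 0, 0, 0, 0, 0, 0⟩, (0, 0, 0)⟩,
  ⟨⟨0, 0, 0, 0, 0, 0, 0, 0, 0⟩, (0, 0, 0)⟩,
  ⟨⟨0, 0, 0, 0, 0, 0, 0, 0, 0⟩, (0, 0, 0)⟩,
  ⟨⟨0, 0, 0, 0, 0, 0, 0, 0, 0⟩, (0, 0, 0)⟩,
  ⟨⟨0, 0, 0, 0, 0, 0, 0, 0, 0⟩, (0, 0, 0)⟩,
  ⟨⟨-13, -62, -16, 53, -22, 11, 12, 3, -25⟩, (34, 6, 12)⟩,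
  ⟨⟨0, 0, 0, 0, 0, 0, 0, 0, 0⟩, (0, 0, 0)⟩,
  ⟨⟨0, 0, 0, 0, 0, 0, 0, 0, 0⟩, (0, 0, 0)⟩,
  ⟨⟨0, 0, 0, 0, 0, 0, 0, 0, 0⟩, (0, 0, 0)⟩,
  ⟨⟨17, -22, -76, -63, -18, 19, -4, 19, -7⟩, (15, 8, 2)⟩,
  ⟨⟨0, 0, 0, 0, 0, 0, 0, 0, 0⟩, (0, 0, 0)⟩,
  ⟨⟨0, 0, 0, 0, 0, 0, 0, 0, 0⟩, (0, 0, 0)⟩,
  ⟨⟨3, 42, -59, 43, 38, 16, 16, -11, -17⟩, (38, 12, 46)⟩,
  ⟨⟨0, 0, 0, 0, 0, 0, 0, 0, 0⟩, (0, 0, 0)⟩,
  ⟨⟨-13, 62, -16, 53, 22, 11, 12, -3, -25⟩, (37, 1, 2)⟩,
  ⟨⟨23, 62, -19, 57, -18, 4, 8, -5, -25⟩, (29, 31, 6)⟩,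
  ⟨⟨23, -62, -19, 57, 18, 4, 8, 5, -25⟩, (26, 44, 7)⟩,
  ⟨⟨0, 0, 0, 0, 0, 0, 0, 0, 0⟩, (0, 0, 0)⟩,
  ⟨⟨-17, 22, -59, -63, -18, 44, 4, -19, -11⟩, (10, 26, 17)⟩,
  ⟨⟨0, 0, 0, 0, 0, 0, 0, 0, 0⟩, (0, 0, 0)⟩,
  ⟨⟨0, 0, 0, 0, 0, 0, 0, 0, 0⟩, (0, 0, 0)⟩,
  ⟨⟨0, 0, 0, 0, 0, 0, 0, 0, 0⟩, (0, 0, 0)⟩]

/-- Unit moves. -/
noncomputable def U : List Mv := [mz,
  mz,
  ⟨⟨1, 0, 0, 0, -1, 0, 0, 0, 1⟩, .nil, (nat_lit 0), (nat_lit 2), (nat_lit 1), (nat_lit 0), (0, 0, 0), [], 2⟩,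
  mz,
  ⟨⟨-1, 0, 1, 0, 1, 0, 0, 0, 1⟩, .nil, (nat_lit 6), (nat_lit 0), (nat_lit 0), (nat_lit 1), (0, 0, 0), [], 1⟩,
  ⟨⟨-1, 0, 1, 0, -1, 0, 0, 0, 1⟩, .nil, (nat_lit 0), (nat_lit 5), (nat_lit 1), (nat_lit 0), (0, 0, 0), [], 2⟩,
  ⟨⟨-1, 0, 1, 0, 1, 0, 0, 0, 1⟩, .nil, (nat_lit 6), (nat_lit 0), (nat_lit 0), (nat_lit 1), (0, 0, 0), [], 1⟩]

theorem v_ty : tyb Dm S.ty1 Clm = true := by decide +kernel

theorem v_ty0 : tyb D0 (S.tys.getD 0 0) Cl0 = true := by decide +kernel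

theorem v_ty1 : tyb D1 (S.tys.getD 1 0) Cl1 = true := by decide +kernel

theorem v_msc : mscb S D0 [D1] Dm (nat_lit 10) = true := by decide +kernel

theorem v_mv0 : mvsn (nat_lit 7260914521) S D0 [D1] Dm (nat_lit 10) 0 D0 = true := by decide +kernel

theorem v_mv1 : mvsn (nat_lit 7260914521) S D0 [D1] Dm (nat_lit 10) 1 D1 = true := by decide +kernel

theorem v_mm : mmsn (nat_lit 7260914521) S D0 [D1] Dm (nat_lit 10) = true := by decide +kernel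

theorem v_un : unb S D0 (nat_lit 10) U = true := by decide +kernel

theorem v_ok : okb S.oks [(0, 0, 0), (0, 3, 0), (1, 8, 0), (5, 8, 4), (16, 25, 2), (0, 0, 0)] = true := by decide +kernel

theorem v_part : ∀ d < D0.p, (nat_lit 10).testBit d = true → part S (zc (D0 :: [D1])) d = true := by
  intro d hd h
  have h1 : ∀ d < 7, (nat_lit 10).testBit d = true → d = 1 ∨ d = 3 := by decide
  rcases h1 d hd h with rfl | rfl
  · exact part_1
  · exact part_3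

theorem main (n : ℕ) (ho : Odd n) (hr : ¬ Rep n) (h0 : Split 7 n) (h1 : Split 37 n) (hm : Split 47 n) :
    n ∈ EE := by
  refine concln (W := nat_lit 7260914521) (S := S) (P0 := D0) (Pl := [D1]) (Pm := Dm) (cn := nat_lit 10) ?_ Dm_ok v_ty ?_ ?_ v_msc ?_ v_mm v_un v_part v_ok
    n ho hr ?_ hm
  · simp only [List.forall_mem_cons]
    exact ⟨D0_ok, D1_ok, fun _ h => absurd h (by simp)⟩
  · exact all2 (φ := fun j P => ∃ L, tyb P (S.tys.getD j 0) L = true) ⟨_, v_ty0⟩ ⟨_, v_ty1⟩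
  · exact all2 (φ := fun j P => Nat.ble (S.pks.getD j 0) (Nat.pow P.p P.K) = true) (by decide +kernel) (by decide +kernel)
  · exact all2 (φ := fun i P => mvsn (nat_lit 7260914521) S D0 [D1] Dm (nat_lit 10) i P = true) v_mv0 v_mv1
  · simp only [List.forall_mem_cons]
    exact ⟨h0, h1, fun _ h => absurd h (by simp)⟩

end Pool.Agent.Work.MP_9954fe_nt.P7_37_47

namespace Pool.Agent.Work.MP_9954fe_nt.P13_31_43

/-- Dummy move. -/
noncomputable def mz : Mv := ⟨⟨0, 0, 0, 0, 0, 0, 0, 0, 0⟩, .nil, (nat_lit 0), (nat_lit 0), (nat_lit 0), (nat_lit 0), (0, 0, 0), [], 0⟩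

/-- Moves. -/
noncomputable def t0_2 : List Mv := [
  ⟨⟨-1, -12, 9, 8, 5, 6, 8, -8, -7⟩, (.cons (nat_lit 1124) (nat_lit 173) (nat_lit 1983) (nat_lit 1) (.cons
 (nat_lit 423) (nat_lit 643) (nat_lit 183) (nat_lit 1) .nil)), (nat_lit 23), (nat_lit 21), (nat_lit 30),
 (nat_lit 1), (8, 1, 1), [1400, 52], 22⟩,
  ⟨⟨9, 4, -16, -8, -5, -6, 8, -8, -7⟩, (.cons (nat_lit 2069) (nat_lit 1980) (nat_lit 385) (nat_lit 1) (.cons
 (nat_lit 831) (nat_lit 405) (nat_lit 75) (nat_lit 1) .nil)), (nat_lit 1), (nat_lit 33), (nat_lit 40), (nat_lit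
 1), (6, 12, 1), [69, 633], 33⟩,
  ⟨⟨9, 4, -16, -8, -5, -6, 8, -8, -7⟩, (.cons (nat_lit 2069) (nat_lit 1980) (nat_lit 385) (nat_lit 1) (.cons
 (nat_lit 831) (nat_lit 405) (nat_lit 75) (nat_lit 1) .nil)), (nat_lit 1), (nat_lit 33), (nat_lit 40), (nat_lit
 1), (6, 12, 1), [69, 633], 33⟩,
  ⟨⟨-1, -12, 9, -8, -5, -6, 8, -8, -7⟩, (.cons (nat_lit 1594) (nat_lit 334) (nat_lit 1902) (nat_lit 1) (.cons
 (nat_lit 960) (nat_lit 666) (nat_lit 116) (nat_lit 1) .nil)), (nat_lit 42), (nat_lit 10), (nat_lit 40),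
 (nat_lit 1), (8, 12, 1), [1259, 865], 33⟩,
  ⟨⟨-1, -12, 9, 8, 5, 6, 8, -8, -7⟩, (.cons (nat_lit 1124) (nat_lit 173) (nat_lit 1983) (nat_lit 1) (.cons
 (nat_lit 423) (nat_lit 643) (nat_lit 183) (nat_lit 1) .nil)), (nat_lit 23), (nat_lit 21), (nat_lit 30),
 (nat_lit 1), (8, 1, 1), [1400, 52], 22⟩,
  ⟨⟨9, 4, -16, 8, 5, 6, 8, -8, -7⟩, (.cons (nat_lit 309) (nat_lit 1036) (nat_lit 1493) (nat_lit 1) (.cons (nat_lit 891) (nat_lit 125) (nat_lit 95) (nat_lit 1) .nil)), (nat_lit 20), (nat_lit 22), (nat_lit 30), (nat_lit 1), (6, 1, 1), [249, 397], 22⟩,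
  ⟨⟨9, 4, -16, 8, 5, 6, 8, -8, -7⟩, (.cons (nat_lit 309) (nat_lit 1036) (nat_lit 1493) (nat_lit 1) (.cons (nat_lit 891) (nat_lit 125) (nat_lit 95) (nat_lit 1) .nil)), (nat_lit 20), (nat_lit 22), (nat_lit 30), (nat_lit 1), (6, 1, 1), [249, 397], 22⟩,
  ⟨⟨-1, -12, 9, -8, -5, -6, 8, -8, -7⟩, (.cons (nat_lit 1594) (nat_lit 334) (nat_lit 1902) (nat_lit 1) (.cons
 (nat_lit 960) (nat_lit 666) (nat_lit 116) (nat_lit 1) .nil)), (nat_lit 42), (nat_lit 10), (nat_lit 40),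
 (nat_lit 1), (8, 12, 1), [1259, 865], 33⟩,
  ⟨⟨-1, -12, 9, -8, -5, -6, 8, -8, -7⟩, (.cons (nat_lit 1594) (nat_lit 334) (nat_lit 1902) (nat_lit 1) (.cons
 (nat_lit 960) (nat_lit 666) (nat_lit 116) (nat_lit 1) .nil)), (nat_lit 42), (nat_lit 10), (nat_lit 40),
 (nat_lit 1), (8, 12, 1), [1259, 865], 33⟩,
  ⟨⟨-1, -12, 9, -8, -5, -6, 8, -8, -7⟩, (.cons (nat_lit 1594) (nat_lit 334) (nat_lit 1902) (nat_lit 1) (.cons
 (nat_lit 960) (nat_lit 666) (nat_lit 116) (nat_lit 1) .nil)), (nat_lit 42), (nat_lit 10), (nat_lit 40),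
 (nat_lit 1), (8, 12, 1), [1259, 865], 33⟩,
  ⟨⟨-1, -12, 9, 8, 5, 6, 8, -8, -7⟩, (.cons (nat_lit 1124) (nat_lit 173) (nat_lit 1983) (nat_lit 1) (.cons
 (nat_lit 423) (nat_lit 643) (nat_lit 183) (nat_lit 1) .nil)), (nat_lit 23), (nat_lit 21), (nat_lit 30),
 (nat_lit 1), (8, 1, 1), [1400, 52], 22⟩,
  ⟨⟨-1, -12, 9, -8, -5, -6, 8, -8, -7⟩, (.cons (nat_lit 1594) (nat_lit 334) (nat_lit 1902) (nat_lit 1) (.cons
 (nat_lit 960) (nat_lit 666) (nat_lit 116) (nat_lit 1) .nil)), (nat_lit 42), (nat_lit 10), (nat_lit 40),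
 (nat_lit 1), (8, 12, 1), [1259, 865], 33⟩,
  ⟨⟨-1, -12, 9, -8, -5, -6, 8, -8, -7⟩, (.cons (nat_lit 1594) (nat_lit 334) (nat_lit 1902) (nat_lit 1) (.cons
 (nat_lit 960) (nat_lit 666) (nat_lit 116) (nat_lit 1) .nil)), (nat_lit 42), (nat_lit 10), (nat_lit 40),
 (nat_lit 1), (8, 12, 1), [1259, 865], 33⟩]

/-- Moves. -/
noncomputable def t0_4 : List Mv := [
  ⟨⟨5, 12, -9, -12, 5, 6, 0, 0, -13⟩, (.cons (nat_lit 344) (nat_lit 106) (nat_lit 1760) (nat_lit 1) (.cons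
 (nat_lit 373) (nat_lit 719) (nat_lit 205) (nat_lit 1) .nil)), (nat_lit 1), (nat_lit 35), (nat_lit 7), (nat_lit
 1), (12, 5, 0), [1668, 818], 33⟩,
  ⟨⟨-5, -12, -4, -12, 5, 6, 0, 0, -13⟩, (.cons (nat_lit 907) (nat_lit 1531) (nat_lit 230) (nat_lit 1) (.cons (nat_lit 960) (nat_lit 958) (nat_lit 397) (nat_lit 1) .nil)), (nat_lit 42), (nat_lit 8), (nat_lit 7), (nat_lit 1), (1, 5, 0), [297, 94], 33⟩,
  ⟨⟨-5, -12, -4, -12, 5, 6, 0, 0, -13⟩, (.cons (nat_lit 907) (nat_lit 1531) (nat_lit 230) (nat_lit 1) (.cons (nat_lit 960) (nat_lit 958) (nat_lit 397) (nat_lit 1) .nil)), (nat_lit 42), (nat_lit 8), (nat_lit 7), (nat_lit 1), (1, 5, 0), [297, 94], 33⟩,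
  ⟨⟨-5, -12, -4, 12, -5, -6, 0, 0, -13⟩, (.cons (nat_lit 391) (nat_lit 1594) (nat_lit 1459) (nat_lit 1) (.cons
 (nat_lit 156) (nat_lit 824) (nat_lit 398) (nat_lit 1) .nil)), (nat_lit 1), (nat_lit 37), (nat_lit 16),
 (nat_lit 1), (1, 8, 0), [829, 274], 29⟩,
  ⟨⟨5, 12, -9, 12, -5, -6, 0, 0, -13⟩, (.cons (nat_lit 472) (nat_lit 935) (nat_lit 1769) (nat_lit 1) (.cons
 (nat_lit 960) (nat_lit 956) (nat_lit 300) (nat_lit 1) .nil)), (nat_lit 42), (nat_lit 6), (nat_lit 16),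
 (nat_lit 1), (12, 8, 0), [798, 267], 29⟩,
  ⟨⟨5, 12, -9, 12, -5, -6, 0, 0, -13⟩, (.cons (nat_lit 472) (nat_lit 935) (nat_lit 1769) (nat_lit 1) (.cons
 (nat_lit 960) (nat_lit 956) (nat_lit 300) (nat_lit 1) .nil)), (nat_lit 42), (nat_lit 6), (nat_lit 16),
 (nat_lit 1), (12, 8, 0), [798, 267], 29⟩,
  ⟨⟨5, 12, -9, -12, 5, 6, 0, 0, -13⟩, (.cons (nat_lit 344) (nat_lit 106) (nat_lit 1760) (nat_lit 1) (.cons
 (nat_lit 373) (nat_lit 719) (nat_lit 205) (nat_lit 1) .nil)), (nat_lit 1), (nat_lit 35), (nat_lit 7), (nat_lit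
 1), (12, 5, 0), [1668, 818], 33⟩,
  ⟨⟨5, 12, -9, 12, -5, -6, 0, 0, -13⟩, (.cons (nat_lit 472) (nat_lit 935) (nat_lit 1769) (nat_lit 1) (.cons
 (nat_lit 960) (nat_lit 956) (nat_lit 300) (nat_lit 1) .nil)), (nat_lit 42), (nat_lit 6), (nat_lit 16),
 (nat_lit 1), (12, 8, 0), [798, 267], 29⟩,
  ⟨⟨5, 12, -9, 12, -5, -6, 0, 0, -13⟩, (.cons (nat_lit 472) (nat_lit 935) (nat_lit 1769) (nat_lit 1) (.cons
 (nat_lit 960) (nat_lit 956) (nat_lit 300) (nat_lit 1) .nil)), (nat_lit 42), (nat_lit 6), (nat_lit 16),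
 (nat_lit 1), (12, 8, 0), [798, 267], 29⟩,
  ⟨⟨-5, -12, -4, 12, -5, -6, 0, 0, -13⟩, (.cons (nat_lit 391) (nat_lit 1594) (nat_lit 1459) (nat_lit 1) (.cons
 (nat_lit 156) (nat_lit 824) (nat_lit 398) (nat_lit 1) .nil)), (nat_lit 1), (nat_lit 37), (nat_lit 16),
 (nat_lit 1), (1, 8, 0), [829, 274], 29⟩,
  ⟨⟨5, 12, -9, 12, -5, -6, 0, 0, -13⟩, (.cons (nat_lit 472) (nat_lit 935) (nat_lit 1769) (nat_lit 1) (.cons
 (nat_lit 960) (nat_lit 956) (nat_lit 300) (nat_lit 1) .nil)), (nat_lit 42), (nat_lit 6), (nat_lit 16),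
 (nat_lit 1), (12, 8, 0), [798, 267], 29⟩,
  ⟨⟨5, 12, -9, -12, 5, 6, 0, 0, -13⟩, (.cons (nat_lit 344) (nat_lit 106) (nat_lit 1760) (nat_lit 1) (.cons
 (nat_lit 373) (nat_lit 719) (nat_lit 205) (nat_lit 1) .nil)), (nat_lit 1), (nat_lit 35), (nat_lit 7), (nat_lit
 1), (12, 5, 0), [1668, 818], 33⟩,
  ⟨⟨5, 12, -9, 12, -5, -6, 0, 0, -13⟩, (.cons (nat_lit 472) (nat_lit 935) (nat_lit 1769) (nat_lit 1) (.cons
 (nat_lit 960) (nat_lit 956) (nat_lit 300) (nat_lit 1) .nil)), (nat_lit 42), (nat_lit 6), (nat_lit 16),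
 (nat_lit 1), (12, 8, 0), [798, 267], 29⟩]

/-- Moves. -/
noncomputable def t0_5 : List Mv := [
  ⟨⟨9, 8, -13, 10, -7, 0, 2, -4, -13⟩, (.cons (nat_lit 174) (nat_lit 316) (nat_lit 1278) (nat_lit 1) (.cons
 (nat_lit 160) (nat_lit 160) (nat_lit 909) (nat_lit 1) .nil)), (nat_lit 24), (nat_lit 2), (nat_lit 34),
 (nat_lit 1), (2, 8, 12), [574, 686], 30⟩,
  ⟨⟨9, 8, -13, -10, 7, 0, 2, -4, -13⟩, (.cons (nat_lit 1016) (nat_lit 1868) (nat_lit 945) (nat_lit 1) (.cons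
 (nat_lit 384) (nat_lit 228) (nat_lit 558) (nat_lit 1) .nil)), (nat_lit 1), (nat_lit 19), (nat_lit 12),
 (nat_lit 1), (2, 5, 12), [53, 805], 27⟩,
  ⟨⟨9, 8, -13, -10, 7, 0, 2, -4, -13⟩, (.cons (nat_lit 1016) (nat_lit 1868) (nat_lit 945) (nat_lit 1) (.cons
 (nat_lit 384) (nat_lit 228) (nat_lit 558) (nat_lit 1) .nil)), (nat_lit 1), (nat_lit 19), (nat_lit 12),
 (nat_lit 1), (2, 5, 12), [53, 805], 27⟩,
  ⟨⟨9, 8, -13, -10, 7, 0, 2, -4, -13⟩, (.cons (nat_lit 1016) (nat_lit 1868) (nat_lit 945) (nat_lit 1) (.cons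
 (nat_lit 384) (nat_lit 228) (nat_lit 558) (nat_lit 1) .nil)), (nat_lit 1), (nat_lit 19), (nat_lit 12),
 (nat_lit 1), (2, 5, 12), [53, 805], 27⟩,
  ⟨⟨-7, -12, 0, 10, -7, 0, 2, -4, -13⟩, (.cons (nat_lit 666) (nat_lit 1192) (nat_lit 2190) (nat_lit 1) (.cons
 (nat_lit 744) (nat_lit 875) (nat_lit 266) (nat_lit 1) .nil)), (nat_lit 19), (nat_lit 41), (nat_lit 34),
 (nat_lit 1), (10, 8, 12), [1975, 460], 30⟩,
  ⟨⟨9, 8, -13, 10, -7, 0, 2, -4, -13⟩, (.cons (nat_lit 174) (nat_lit 316) (nat_lit 1278) (nat_lit 1) (.cons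
 (nat_lit 160) (nat_lit 160) (nat_lit 909) (nat_lit 1) .nil)), (nat_lit 24), (nat_lit 2), (nat_lit 34),
 (nat_lit 1), (2, 8, 12), [574, 686], 30⟩,
  ⟨⟨9, 8, -13, 10, -7, 0, 2, -4, -13⟩, (.cons (nat_lit 174) (nat_lit 316) (nat_lit 1278) (nat_lit 1) (.cons
 (nat_lit 160) (nat_lit 160) (nat_lit 909) (nat_lit 1) .nil)), (nat_lit 24), (nat_lit 2), (nat_lit 34),
 (nat_lit 1), (2, 8, 12), [574, 686], 30⟩,
  ⟨⟨9, 8, -13, -10, 7, 0, 2, -4, -13⟩, (.cons (nat_lit 1016) (nat_lit 1868) (nat_lit 945) (nat_lit 1) (.cons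
 (nat_lit 384) (nat_lit 228) (nat_lit 558) (nat_lit 1) .nil)), (nat_lit 1), (nat_lit 19), (nat_lit 12),
 (nat_lit 1), (2, 5, 12), [53, 805], 27⟩,
  ⟨⟨-7, -12, 0, 10, -7, 0, 2, -4, -13⟩, (.cons (nat_lit 666) (nat_lit 1192) (nat_lit 2190) (nat_lit 1) (.cons
 (nat_lit 744) (nat_lit 875) (nat_lit 266) (nat_lit 1) .nil)), (nat_lit 19), (nat_lit 41), (nat_lit 34),
 (nat_lit 1), (10, 8, 12), [1975, 460], 30⟩,
  ⟨⟨-7, -12, 0, -10, 7, 0, 2, -4, -13⟩, (.cons (nat_lit 1329) (nat_lit 1668) (nat_lit 2026) (nat_lit 1) (.cons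
 (nat_lit 960) (nat_lit 437) (nat_lit 125) (nat_lit 1) .nil)), (nat_lit 42), (nat_lit 24), (nat_lit 12),
 (nat_lit 1), (10, 5, 12), [947, 41], 27⟩,
  ⟨⟨9, 8, -13, -10, 7, 0, 2, -4, -13⟩, (.cons (nat_lit 1016) (nat_lit 1868) (nat_lit 945) (nat_lit 1) (.cons
 (nat_lit 384) (nat_lit 228) (nat_lit 558) (nat_lit 1) .nil)), (nat_lit 1), (nat_lit 19), (nat_lit 12),
 (nat_lit 1), (2, 5, 12), [53, 805], 27⟩,
  ⟨⟨9, 8, -13, -10, 7, 0, 2, -4, -13⟩, (.cons (nat_lit 1016) (nat_lit 1868) (nat_lit 945) (nat_lit 1) (.cons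
 (nat_lit 384) (nat_lit 228) (nat_lit 558) (nat_lit 1) .nil)), (nat_lit 1), (nat_lit 19), (nat_lit 12),
 (nat_lit 1), (2, 5, 12), [53, 805], 27⟩,
  ⟨⟨9, 8, -13, -10, 7, 0, 2, -4, -13⟩, (.cons (nat_lit 1016) (nat_lit 1868) (nat_lit 945) (nat_lit 1) (.cons
 (nat_lit 384) (nat_lit 228) (nat_lit 558) (nat_lit 1) .nil)), (nat_lit 1), (nat_lit 19), (nat_lit 12),
 (nat_lit 1), (2, 5, 12), [53, 805], 27⟩]

/-- Moves. -/
noncomputable def t1_2 : List Mv := [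
  mz,
  ⟨⟨3, 20, 29, 4, -25, 18, 26, 8, -7⟩, (.cons (nat_lit 2070) (nat_lit 264) (nat_lit 1073) (nat_lit 1) (.cons
 (nat_lit 213) (nat_lit 582) (nat_lit 69) (nat_lit 1) .nil)), (nat_lit 24), (nat_lit 15), (nat_lit 28),
 (nat_lit 1), (26, 14, 29), [434, 417], 22⟩,
  ⟨⟨3, -20, 29, 4, 25, 18, 26, -8, -7⟩, (.cons (nat_lit 1097) (nat_lit 1729) (nat_lit 1523) (nat_lit 1) (.cons
 (nat_lit 666) (nat_lit 825) (nat_lit 28) (nat_lit 1) .nil)), (nat_lit 26), (nat_lit 7), (nat_lit 39), (nat_lit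
 1), (19, 15, 20), [690, 331], 3⟩,
  mz,
  ⟨⟨27, 16, -28, -4, -15, -28, -6, 24, -11⟩, (.cons (nat_lit 386) (nat_lit 125) (nat_lit 1353) (nat_lit 1)
 (.cons (nat_lit 749) (nat_lit 554) (nat_lit 751) (nat_lit 1) .nil)), (nat_lit 8), (nat_lit 6), (nat_lit 27),
 (nat_lit 1), (15, 15, 7), [148, 808], 42⟩,
  mz,
  ⟨⟨21, -4, -40, 16, 25, 2, 22, -16, -5⟩, (.cons (nat_lit 218) (nat_lit 1871) (nat_lit 1408) (nat_lit 1) (.cons
 (nat_lit 528) (nat_lit 151) (nat_lit 120) (nat_lit 1) .nil)), (nat_lit 17), (nat_lit 20), (nat_lit 10),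
 (nat_lit 1), (21, 16, 22), [1643, 667], 3⟩,
  mz,
  ⟨⟨-31, 0, 0, 10, 19, -30, -4, -20, -19⟩, (.cons (nat_lit 2196) (nat_lit 1242) (nat_lit 2084) (nat_lit 1)
 (.cons (nat_lit 582) (nat_lit 103) (nat_lit 437) (nat_lit 1) .nil)), (nat_lit 42), (nat_lit 7), (nat_lit 35),
 (nat_lit 1), (0, 5, 29), [635, 738], 28⟩,
  mz,
  mz,
  mz,
  mz,
  ⟨⟨27, 20, -19, 10, -19, -30, -4, 20, -19⟩, (.cons (nat_lit 113) (nat_lit 744) (nat_lit 116) (nat_lit 1)
 (.cons (nat_lit 947) (nat_lit 467) (nat_lit 116) (nat_lit 1) .nil)), (nat_lit 31), (nat_lit 16), (nat_lit 14),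
 (nat_lit 1), (5, 3, 5), [1828, 591], 37⟩,
  ⟨⟨27, -16, -28, -4, 15, -28, -6, -24, -11⟩, (.cons (nat_lit 2196) (nat_lit 2105) (nat_lit 331) (nat_lit 1)
 (.cons (nat_lit 864) (nat_lit 613) (nat_lit 819) (nat_lit 1) .nil)), (nat_lit 42), (nat_lit 21), (nat_lit 7),
 (nat_lit 1), (28, 28, 11), [729, 502], 30⟩,
  ⟨⟨3, 20, -32, 4, -25, -22, 26, 8, -19⟩, (.cons (nat_lit 1450) (nat_lit 1345) (nat_lit 447) (nat_lit 1) (.cons
 (nat_lit 739) (nat_lit 110) (nat_lit 776) (nat_lit 1) .nil)), (nat_lit 17), (nat_lit 7), (nat_lit 4), (nat_lit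
 1), (10, 3, 4), [1701, 53], 40⟩,
  mz,
  mz,
  ⟨⟨21, -4, 19, 16, 25, -18, 22, -16, -17⟩, (.cons (nat_lit 1262) (nat_lit 87) (nat_lit 506) (nat_lit 1) (.cons
 (nat_lit 738) (nat_lit 95) (nat_lit 489) (nat_lit 1) .nil)), (nat_lit 9), (nat_lit 6), (nat_lit 37), (nat_lit
 1), (7, 26, 28), [769, 550], 24⟩,
  ⟨⟨-9, 8, -31, -10, -29, 0, 20, -4, -31⟩, (.cons (nat_lit 1746) (nat_lit 1708) (nat_lit 1257) (nat_lit 1)
 (.cons (nat_lit 501) (nat_lit 320) (nat_lit 659) (nat_lit 1) .nil)), (nat_lit 1), (nat_lit 20), (nat_lit 38),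
 (nat_lit 1), (2, 16, 30), [517, 881], 8⟩,
  ⟨⟨9, 8, -40, 10, -29, -10, -20, -4, -11⟩, (.cons (nat_lit 2196) (nat_lit 1167) (nat_lit 1280) (nat_lit 1)
 (.cons (nat_lit 790) (nat_lit 532) (nat_lit 954) (nat_lit 1) .nil)), (nat_lit 42), (nat_lit 20), (nat_lit 5),
 (nat_lit 1), (27, 30, 2), [1775, 670], 8⟩,
  ⟨⟨33, 8, -16, 4, -15, -32, 6, 24, -17⟩, (.cons (nat_lit 1920) (nat_lit 543) (nat_lit 1306) (nat_lit 1) (.cons
 (nat_lit 245) (nat_lit 868) (nat_lit 861) (nat_lit 1) .nil)), (nat_lit 8), (nat_lit 37), (nat_lit 16),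
 (nat_lit 1), (1, 2, 3), [1682, 555], 42⟩,
  ⟨⟨9, -8, -40, 10, 29, -10, -20, 4, -11⟩, (.cons (nat_lit 1318) (nat_lit 259) (nat_lit 664) (nat_lit 1) (.cons
 (nat_lit 618) (nat_lit 668) (nat_lit 158) (nat_lit 1) .nil)), (nat_lit 25), (nat_lit 17), (nat_lit 12),
 (nat_lit 1), (18, 20, 22), [22, 177], 2⟩,
  ⟨⟨23, 12, 13, 4, 25, -22, 26, -8, -19⟩, (.cons (nat_lit 430) (nat_lit 2136) (nat_lit 2120) (nat_lit 1) (.cons
 (nat_lit 342) (nat_lit 850) (nat_lit 205) (nat_lit 1) .nil)), (nat_lit 24), (nat_lit 28), (nat_lit 15),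
 (nat_lit 1), (23, 4, 26), [457, 928], 21⟩,
  ⟨⟨29, 12, 0, 10, -29, 0, 20, 4, -31⟩, (.cons (nat_lit 2196) (nat_lit 1828) (nat_lit 1574) (nat_lit 1) (.cons
 (nat_lit 581) (nat_lit 511) (nat_lit 506) (nat_lit 1) .nil)), (nat_lit 42), (nat_lit 18), (nat_lit 39),
 (nat_lit 1), (26, 25, 19), [540, 524], 8⟩,
  ⟨⟨31, 0, -31, -10, 19, -20, 4, -20, -23⟩, (.cons (nat_lit 1233) (nat_lit 1959) (nat_lit 1911) (nat_lit 1)
 (.cons (nat_lit 243) (nat_lit 585) (nat_lit 724) (nat_lit 1) .nil)), (nat_lit 1), (nat_lit 7), (nat_lit 8),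
 (nat_lit 1), (0, 22, 16), [114, 457], 28⟩,
  ⟨⟨1, 12, 35, -16, 25, -2, 22, 16, -5⟩, (.cons (nat_lit 1464) (nat_lit 1885) (nat_lit 283) (nat_lit 1) (.cons
 (nat_lit 307) (nat_lit 665) (nat_lit 882) (nat_lit 1) .nil)), (nat_lit 5), (nat_lit 8), (nat_lit 20), (nat_lit
 1), (30, 16, 9), [1039, 13], 32⟩,
  ⟨⟨33, -8, -16, 4, 15, -32, 6, -24, -17⟩, (.cons (nat_lit 2196) (nat_lit 1798) (nat_lit 1210) (nat_lit 1)
 (.cons (nat_lit 793) (nat_lit 799) (nat_lit 600) (nat_lit 1) .nil)), (nat_lit 42), (nat_lit 22), (nat_lit 36),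
 (nat_lit 1), (23, 15, 7), [1702, 29], 30⟩,
  ⟨⟨1, 12, -36, -16, 25, 18, 22, 16, -17⟩, (.cons (nat_lit 923) (nat_lit 708) (nat_lit 712) (nat_lit 1) (.cons
 (nat_lit 156) (nat_lit 23) (nat_lit 264) (nat_lit 1) .nil)), (nat_lit 19), (nat_lit 11), (nat_lit 40),
 (nat_lit 1), (19, 6, 15), [337, 811], 21⟩,
  ⟨⟨-27, 20, 8, 10, 19, 20, 4, 20, -23⟩, (.cons (nat_lit 2196) (nat_lit 911) (nat_lit 1562) (nat_lit 1) (.cons
 (nat_lit 768) (nat_lit 199) (nat_lit 856) (nat_lit 1) .nil)), (nat_lit 42), (nat_lit 40), (nat_lit 33),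
 (nat_lit 1), (23, 11, 23), [1090, 521], 28⟩]

/-- Moves. -/
noncomputable def t1_4 : List Mv := [
  mz,
  ⟨⟨3, 20, 29, -4, 25, -18, 26, 8, -7⟩, (.cons (nat_lit 2126) (nat_lit 1387) (nat_lit 1394) (nat_lit 1) (.cons
 (nat_lit 719) (nat_lit 143) (nat_lit 125) (nat_lit 1) .nil)), (nat_lit 5), (nat_lit 14), (nat_lit 36),
 (nat_lit 1), (26, 17, 29), [1465, 819], 32⟩,
  ⟨⟨23, 12, -36, -4, -25, -18, 26, -8, -7⟩, (.cons (nat_lit 2089) (nat_lit 1766) (nat_lit 1) (nat_lit 1378)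
 (.cons (nat_lit 430) (nat_lit 115) (nat_lit 270) (nat_lit 1) .nil)), (nat_lit 34), (nat_lit 13), (nat_lit 16),
 (nat_lit 1), (1, 16, 20), [1862, 829], 19⟩,
  mz,
  ⟨⟨27, 16, -28, -4, -15, -28, -6, 24, -11⟩, (.cons (nat_lit 386) (nat_lit 125) (nat_lit 1353) (nat_lit 1)
 (.cons (nat_lit 749) (nat_lit 554) (nat_lit 751) (nat_lit 1) .nil)), (nat_lit 8), (nat_lit 6), (nat_lit 27),
 (nat_lit 1), (15, 15, 7), [148, 808], 42⟩,
  mz,
  ⟨⟨1, -12, 35, -16, -25, -2, 22, -16, -5⟩, (.cons (nat_lit 66) (nat_lit 1765) (nat_lit 2096) (nat_lit 1)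
 (.cons (nat_lit 790) (nat_lit 903) (nat_lit 23) (nat_lit 1) .nil)), (nat_lit 24), (nat_lit 11), (nat_lit 3),
 (nat_lit 1), (1, 15, 22), [609, 202], 22⟩,
  mz,
  ⟨⟨-31, 0, 0, 10, 19, -30, -4, -20, -19⟩, (.cons (nat_lit 2196) (nat_lit 1242) (nat_lit 2084) (nat_lit 1)
 (.cons (nat_lit 582) (nat_lit 103) (nat_lit 437) (nat_lit 1) .nil)), (nat_lit 42), (nat_lit 7), (nat_lit 35),
 (nat_lit 1), (0, 5, 29), [635, 738], 28⟩,
  mz,
  mz,
  mz,
  mz,
  ⟨⟨-31, 0, 0, 10, -19, -30, -4, 20, -19⟩, (.cons (nat_lit 2141) (nat_lit 1424) (nat_lit 1) (nat_lit 1430)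
 (.cons (nat_lit 923) (nat_lit 15) (nat_lit 809) (nat_lit 1) .nil)), (nat_lit 12), (nat_lit 27), (nat_lit 14),
 (nat_lit 1), (0, 3, 5), [74, 641], 37⟩,
  ⟨⟨27, -16, -28, -4, 15, -28, -6, -24, -11⟩, (.cons (nat_lit 2196) (nat_lit 2105) (nat_lit 331) (nat_lit 1)
 (.cons (nat_lit 864) (nat_lit 613) (nat_lit 819) (nat_lit 1) .nil)), (nat_lit 42), (nat_lit 21), (nat_lit 7),
 (nat_lit 1), (28, 28, 11), [729, 502], 30⟩,
  ⟨⟨3, 20, -32, 4, -25, -22, 26, 8, -19⟩, (.cons (nat_lit 1450) (nat_lit 1345) (nat_lit 447) (nat_lit 1) (.cons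
 (nat_lit 739) (nat_lit 110) (nat_lit 776) (nat_lit 1) .nil)), (nat_lit 17), (nat_lit 7), (nat_lit 4), (nat_lit
 1), (10, 3, 4), [1701, 53], 40⟩,
  mz,
  mz,
  ⟨⟨1, -12, -36, 16, 25, -18, 22, -16, -17⟩, (.cons (nat_lit 326) (nat_lit 1824) (nat_lit 824) (nat_lit 1)
 (.cons (nat_lit 750) (nat_lit 77) (nat_lit 378) (nat_lit 1) .nil)), (nat_lit 34), (nat_lit 37), (nat_lit 37),
 (nat_lit 1), (21, 26, 28), [841, 474], 24⟩,
  ⟨⟨-9, 8, -31, 10, 29, 0, 20, -4, -31⟩, (.cons (nat_lit 1187) (nat_lit 722) (nat_lit 1185) (nat_lit 1) (.cons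
 (nat_lit 792) (nat_lit 415) (nat_lit 687) (nat_lit 1) .nil)), (nat_lit 12), (nat_lit 32), (nat_lit 28),
 (nat_lit 1), (2, 15, 30), [1159, 143], 30⟩,
  ⟨⟨9, 8, -40, -10, 29, 10, -20, -4, -11⟩, (.cons (nat_lit 2192) (nat_lit 1295) (nat_lit 1123) (nat_lit 1)
 (.cons (nat_lit 25) (nat_lit 321) (nat_lit 414) (nat_lit 1) .nil)), (nat_lit 31), (nat_lit 32), (nat_lit 15),
 (nat_lit 1), (27, 1, 2), [550, 251], 30⟩,
  ⟨⟨-27, 16, -1, 4, -15, -32, 6, 24, -17⟩, (.cons (nat_lit 421) (nat_lit 665) (nat_lit 788) (nat_lit 1) (.cons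
 (nat_lit 728) (nat_lit 605) (nat_lit 734) (nat_lit 1) .nil)), (nat_lit 35), (nat_lit 6), (nat_lit 16),
 (nat_lit 1), (2, 2, 3), [133, 321], 42⟩,
  ⟨⟨9, -8, -40, -10, -29, 10, -20, 4, -11⟩, (.cons (nat_lit 2196) (nat_lit 1965) (nat_lit 778) (nat_lit 1)
 (.cons (nat_lit 295) (nat_lit 908) (nat_lit 539) (nat_lit 1) .nil)), (nat_lit 42), (nat_lit 25), (nat_lit 4),
 (nat_lit 1), (18, 11, 22), [1783, 32], 8⟩,
  ⟨⟨23, 12, 13, -4, -25, 22, 26, -8, -19⟩, (.cons (nat_lit 528) (nat_lit 2141) (nat_lit 91) (nat_lit 1) (.cons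
 (nat_lit 131) (nat_lit 194) (nat_lit 380) (nat_lit 1) .nil)), (nat_lit 5), (nat_lit 29), (nat_lit 7), (nat_lit
 1), (23, 27, 26), [781, 408], 11⟩,
  ⟨⟨-9, -8, -31, 10, -29, 0, 20, 4, -31⟩, (.cons (nat_lit 628) (nat_lit 1494) (nat_lit 566) (nat_lit 1) (.cons
 (nat_lit 274) (nat_lit 374) (nat_lit 314) (nat_lit 1) .nil)), (nat_lit 1), (nat_lit 25), (nat_lit 39),
 (nat_lit 1), (24, 25, 19), [1622, 881], 8⟩,
  ⟨⟨31, 0, -31, -10, 19, -20, 4, -20, -23⟩, (.cons (nat_lit 1233) (nat_lit 1959) (nat_lit 1911) (nat_lit 1)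
 (.cons (nat_lit 243) (nat_lit 585) (nat_lit 724) (nat_lit 1) .nil)), (nat_lit 1), (nat_lit 7), (nat_lit 8),
 (nat_lit 1), (0, 22, 16), [114, 457], 28⟩,
  ⟨⟨1, 12, 35, -16, 25, -2, 22, 16, -5⟩, (.cons (nat_lit 1464) (nat_lit 1885) (nat_lit 283) (nat_lit 1) (.cons
 (nat_lit 307) (nat_lit 665) (nat_lit 882) (nat_lit 1) .nil)), (nat_lit 5), (nat_lit 8), (nat_lit 20), (nat_lit
 1), (30, 16, 9), [1039, 13], 32⟩,
  ⟨⟨33, -8, -16, 4, 15, -32, 6, -24, -17⟩, (.cons (nat_lit 2196) (nat_lit 1798) (nat_lit 1210) (nat_lit 1)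
 (.cons (nat_lit 793) (nat_lit 799) (nat_lit 600) (nat_lit 1) .nil)), (nat_lit 42), (nat_lit 22), (nat_lit 36),
 (nat_lit 1), (23, 15, 7), [1702, 29], 30⟩,
  ⟨⟨1, 12, -36, 16, -25, -18, 22, 16, -17⟩, (.cons (nat_lit 1645) (nat_lit 2195) (nat_lit 167) (nat_lit 1)
 (.cons (nat_lit 247) (nat_lit 852) (nat_lit 433) (nat_lit 1) .nil)), (nat_lit 17), (nat_lit 23), (nat_lit 33),
 (nat_lit 1), (19, 25, 15), [167, 606], 40⟩,
  ⟨⟨31, 0, -31, -10, -19, -20, 4, 20, -23⟩, (.cons (nat_lit 682) (nat_lit 822) (nat_lit 675) (nat_lit 1) (.cons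
 (nat_lit 475) (nat_lit 180) (nat_lit 164) (nat_lit 1) .nil)), (nat_lit 31), (nat_lit 27), (nat_lit 29),
 (nat_lit 1), (0, 20, 23), [1332, 746], 37⟩]

/-- Moves. -/
noncomputable def t1_5 : List Mv := [
  mz,
  ⟨⟨23, -12, -36, -4, 25, -18, 26, 8, -7⟩, (.cons (nat_lit 1198) (nat_lit 199) (nat_lit 2058) (nat_lit 1)
 (.cons (nat_lit 388) (nat_lit 423) (nat_lit 935) (nat_lit 1) .nil)), (nat_lit 38), (nat_lit 29), (nat_lit 36),
 (nat_lit 1), (3, 17, 29), [450, 815], 32⟩,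
  ⟨⟨3, -20, 29, -4, -25, -18, 26, -8, -7⟩, (.cons (nat_lit 1964) (nat_lit 406) (nat_lit 634) (nat_lit 1) (.cons
 (nat_lit 529) (nat_lit 365) (nat_lit 455) (nat_lit 1) .nil)), (nat_lit 9), (nat_lit 30), (nat_lit 16),
 (nat_lit 1), (19, 16, 20), [1545, 707], 19⟩,
  mz,
  ⟨⟨-33, 8, 17, 4, 15, 28, -6, 24, -11⟩, (.cons (nat_lit 1666) (nat_lit 93) (nat_lit 1488) (nat_lit 1) (.cons
 (nat_lit 834) (nat_lit 345) (nat_lit 177) (nat_lit 1) .nil)), (nat_lit 1), (nat_lit 8), (nat_lit 30), (nat_lit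
 1), (23, 16, 7), [1952, 312], 30⟩,
  mz,
  ⟨⟨1, -12, 35, -16, -25, -2, 22, -16, -5⟩, (.cons (nat_lit 66) (nat_lit 1765) (nat_lit 2096) (nat_lit 1)
 (.cons (nat_lit 790) (nat_lit 903) (nat_lit 23) (nat_lit 1) .nil)), (nat_lit 24), (nat_lit 11), (nat_lit 3),
 (nat_lit 1), (1, 15, 22), [609, 202], 22⟩,
  mz,
  ⟨⟨27, -20, -19, 10, 19, -30, -4, -20, -19⟩, (.cons (nat_lit 2099) (nat_lit 843) (nat_lit 533) (nat_lit 1)
 (.cons (nat_lit 67) (nat_lit 474) (nat_lit 645) (nat_lit 1) .nil)), (nat_lit 1), (nat_lit 36), (nat_lit 35),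
 (nat_lit 1), (29, 5, 29), [750, 65], 28⟩,
  mz,
  mz,
  mz,
  mz,
  ⟨⟨-31, 0, 0, 10, -19, -30, -4, 20, -19⟩, (.cons (nat_lit 2141) (nat_lit 1424) (nat_lit 1) (nat_lit 1430)
 (.cons (nat_lit 923) (nat_lit 15) (nat_lit 809) (nat_lit 1) .nil)), (nat_lit 12), (nat_lit 27), (nat_lit 14),
 (nat_lit 1), (0, 3, 5), [74, 641], 37⟩,
  ⟨⟨27, -16, -28, -4, 15, -28, -6, -24, -11⟩, (.cons (nat_lit 2196) (nat_lit 2105) (nat_lit 331) (nat_lit 1)
 (.cons (nat_lit 864) (nat_lit 613) (nat_lit 819) (nat_lit 1) .nil)), (nat_lit 42), (nat_lit 21), (nat_lit 7),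
 (nat_lit 1), (28, 28, 11), [729, 502], 30⟩,
  ⟨⟨3, 20, -32, 4, -25, -22, 26, 8, -19⟩, (.cons (nat_lit 1450) (nat_lit 1345) (nat_lit 447) (nat_lit 1) (.cons
 (nat_lit 739) (nat_lit 110) (nat_lit 776) (nat_lit 1) .nil)), (nat_lit 17), (nat_lit 7), (nat_lit 4), (nat_lit
 1), (10, 3, 4), [1701, 53], 40⟩,
  mz,
  mz,
  ⟨⟨1, -12, -36, 16, 25, -18, 22, -16, -17⟩, (.cons (nat_lit 326) (nat_lit 1824) (nat_lit 824) (nat_lit 1)
 (.cons (nat_lit 750) (nat_lit 77) (nat_lit 378) (nat_lit 1) .nil)), (nat_lit 34), (nat_lit 37), (nat_lit 37),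
 (nat_lit 1), (21, 26, 28), [841, 474], 24⟩,
  ⟨⟨29, -12, 0, 10, 29, 0, 20, -4, -31⟩, (.cons (nat_lit 1711) (nat_lit 2052) (nat_lit 1943) (nat_lit 1) (.cons
 (nat_lit 539) (nat_lit 141) (nat_lit 791) (nat_lit 1) .nil)), (nat_lit 31), (nat_lit 11), (nat_lit 28),
 (nat_lit 1), (28, 15, 30), [1174, 477], 30⟩,
  ⟨⟨9, 8, -40, 10, -29, -10, -20, -4, -11⟩, (.cons (nat_lit 2196) (nat_lit 1167) (nat_lit 1280) (nat_lit 1)
 (.cons (nat_lit 790) (nat_lit 532) (nat_lit 954) (nat_lit 1) .nil)), (nat_lit 42), (nat_lit 20), (nat_lit 5),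
 (nat_lit 1), (27, 30, 2), [1775, 670], 8⟩,
  ⟨⟨-27, 16, -1, -4, 15, 32, 6, 24, -17⟩, (.cons (nat_lit 1866) (nat_lit 25) (nat_lit 400) (nat_lit 1) (.cons
 (nat_lit 221) (nat_lit 925) (nat_lit 1) (nat_lit 186) .nil)), (nat_lit 1), (nat_lit 35), (nat_lit 13),
 (nat_lit 1), (2, 29, 3), [501, 780], 30⟩,
  ⟨⟨9, -8, -40, 10, 29, -10, -20, 4, -11⟩, (.cons (nat_lit 1318) (nat_lit 259) (nat_lit 664) (nat_lit 1) (.cons
 (nat_lit 618) (nat_lit 668) (nat_lit 158) (nat_lit 1) .nil)), (nat_lit 25), (nat_lit 17), (nat_lit 12),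
 (nat_lit 1), (18, 20, 22), [22, 177], 2⟩,
  ⟨⟨3, -20, -32, -4, -25, 22, 26, -8, -19⟩, (.cons (nat_lit 1421) (nat_lit 1876) (nat_lit 699) (nat_lit 1)
 (.cons (nat_lit 692) (nat_lit 924) (nat_lit 260) (nat_lit 1) .nil)), (nat_lit 38), (nat_lit 14), (nat_lit 7),
 (nat_lit 1), (3, 27, 26), [2039, 259], 11⟩,
  ⟨⟨29, 12, 0, -10, 29, 0, 20, 4, -31⟩, (.cons (nat_lit 330) (nat_lit 1713) (nat_lit 334) (nat_lit 1) (.cons
 (nat_lit 898) (nat_lit 519) (nat_lit 292) (nat_lit 1) .nil)), (nat_lit 25), (nat_lit 26), (nat_lit 31),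
 (nat_lit 1), (26, 6, 19), [776, 734], 2⟩,
  ⟨⟨31, 0, -31, 10, -19, 20, 4, -20, -23⟩, (.cons (nat_lit 1186) (nat_lit 810) (nat_lit 835) (nat_lit 1) (.cons
 (nat_lit 206) (nat_lit 331) (nat_lit 240) (nat_lit 1) .nil)), (nat_lit 25), (nat_lit 30), (nat_lit 37),
 (nat_lit 1), (0, 9, 16), [735, 529], 34⟩,
  ⟨⟨1, 12, 35, 16, -25, 2, 22, 16, -5⟩, (.cons (nat_lit 2024) (nat_lit 1732) (nat_lit 1081) (nat_lit 1) (.cons
 (nat_lit 253) (nat_lit 314) (nat_lit 687) (nat_lit 1) .nil)), (nat_lit 9), (nat_lit 37), (nat_lit 6), (nat_lit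
 1), (30, 15, 9), [522, 760], 19⟩,
  ⟨⟨33, -8, -16, 4, 15, -32, 6, -24, -17⟩, (.cons (nat_lit 2196) (nat_lit 1798) (nat_lit 1210) (nat_lit 1)
 (.cons (nat_lit 793) (nat_lit 799) (nat_lit 600) (nat_lit 1) .nil)), (nat_lit 42), (nat_lit 22), (nat_lit 36),
 (nat_lit 1), (23, 15, 7), [1702, 29], 30⟩,
  ⟨⟨1, 12, -36, 16, -25, -18, 22, 16, -17⟩, (.cons (nat_lit 1645) (nat_lit 2195) (nat_lit 167) (nat_lit 1)
 (.cons (nat_lit 247) (nat_lit 852) (nat_lit 433) (nat_lit 1) .nil)), (nat_lit 17), (nat_lit 23), (nat_lit 33),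
 (nat_lit 1), (19, 25, 15), [167, 606], 40⟩,
  ⟨⟨-27, 20, 8, 10, 19, 20, 4, 20, -23⟩, (.cons (nat_lit 2196) (nat_lit 911) (nat_lit 1562) (nat_lit 1) (.cons
 (nat_lit 768) (nat_lit 199) (nat_lit 856) (nat_lit 1) .nil)), (nat_lit 42), (nat_lit 40), (nat_lit 33),
 (nat_lit 1), (23, 11, 23), [1090, 521], 28⟩]

/-- Moves. -/
noncomputable def t4_2 : List Mv := [
  mz,
  ⟨⟨3, 44, -20, 2, 15, 44, 36, 12, -25⟩, (.cons (nat_lit 1034) (nat_lit 821) (nat_lit 1565) (nat_lit 1) (.cons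
 (nat_lit 783) (nat_lit 552) (nat_lit 835) (nat_lit 1) .nil)), (nat_lit 22), (nat_lit 0), (nat_lit 0), (nat_lit
 0), (36, 24, 2), [1483, 138], 0⟩,
  mz,
  mz,
  ⟨⟨19, 36, -36, -20, -13, -30, 34, -8, -35⟩, (.cons (nat_lit 1567) (nat_lit 2024) (nat_lit 1800) (nat_lit 1)
 (.cons (nat_lit 393) (nat_lit 200) (nat_lit 615) (nat_lit 1) .nil)), (nat_lit 18), (nat_lit 0), (nat_lit 0),
 (nat_lit 0), (14, 26, 16), [1241, 55], 0⟩,
  ⟨⟨33, -32, -28, 2, 15, -46, 36, 12, -11⟩, (.cons (nat_lit 489) (nat_lit 113) (nat_lit 1696) (nat_lit 1)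
 (.cons (nat_lit 313) (nat_lit 541) (nat_lit 477) (nat_lit 1) .nil)), (nat_lit 21), (nat_lit 0), (nat_lit 0),
 (nat_lit 0), (19, 22, 9), [1337, 221], 0⟩,
  ⟨⟨-37, -24, 0, -20, 37, 0, 2, -8, -43⟩, (.cons (nat_lit 2196) (nat_lit 626) (nat_lit 1725) (nat_lit 1) (.cons
 (nat_lit 960) (nat_lit 612) (nat_lit 264) (nat_lit 1) .nil)), (nat_lit 6), (nat_lit 0), (nat_lit 0), (nat_lit
 0), (12, 3, 4), [2, 563], 0⟩,
  ⟨⟨33, 8, -53, -20, -27, -20, 30, -24, -13⟩, (.cons (nat_lit 1823) (nat_lit 1226) (nat_lit 2040) (nat_lit 1)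
 (.cons (nat_lit 844) (nat_lit 766) (nat_lit 619) (nat_lit 1) .nil)), (nat_lit 36), (nat_lit 0), (nat_lit 0),
 (nat_lit 0), (32, 21, 33), [76, 272], 0⟩,
  ⟨⟨-39, -16, -4, 20, -37, -20, -2, 8, -41⟩, (.cons (nat_lit 1176) (nat_lit 1614) (nat_lit 1610) (nat_lit 1)
 (.cons (nat_lit 282) (nat_lit 788) (nat_lit 251) (nat_lit 1) .nil)), (nat_lit 37), (nat_lit 0), (nat_lit 0),
 (nat_lit 0), (6, 30, 40), [2157, 401], 0⟩,
  ⟨⟨47, 0, -20, 0, 43, 0, 18, 0, -47⟩, (.cons (nat_lit 2196) (nat_lit 830) (nat_lit 276) (nat_lit 1) (.cons (nat_lit 960) (nat_lit 217) (nat_lit 64) (nat_lit 1) .nil)), (nat_lit 9), (nat_lit 0), (nat_lit 0), (nat_lit 0), (34, 0, 24), [1332, 446], 0⟩,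
  ⟨⟨21, -20, 31, 38, 15, -34, 12, -36, -13⟩, (.cons (nat_lit 1051) (nat_lit 2009) (nat_lit 149) (nat_lit 1)
 (.cons (nat_lit 887) (nat_lit 515) (nat_lit 1) (nat_lit 155) .nil)), (nat_lit 38), (nat_lit 0), (nat_lit 0),
 (nat_lit 0), (8, 37, 23), [384, 259], 0⟩,
  mz,
  ⟨⟨-15, 44, 16, 20, 13, -50, -34, 8, -1⟩, (.cons (nat_lit 1889) (nat_lit 2036) (nat_lit 1262) (nat_lit 1)
 (.cons (nat_lit 178) (nat_lit 821) (nat_lit 560) (nat_lit 1) .nil)), (nat_lit 25), (nat_lit 0), (nat_lit 0),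
 (nat_lit 0), (28, 20, 9), [1492, 939], 0⟩,
  ⟨⟨33, 8, 20, 20, 27, -40, 30, -24, -17⟩, (.cons (nat_lit 2196) (nat_lit 411) (nat_lit 959) (nat_lit 1) (.cons
 (nat_lit 960) (nat_lit 887) (nat_lit 699) (nat_lit 1) .nil)), (nat_lit 13), (nat_lit 0), (nat_lit 0), (nat_lit
 0), (4, 35, 31), [792, 540], 0⟩,
  mz,
  mz,
  mz,
  ⟨⟨5, 36, 31, 40, -13, -10, 14, 32, -25⟩, (.cons (nat_lit 2073) (nat_lit 1468) (nat_lit 505) (nat_lit 1)
 (.cons (nat_lit 356) (nat_lit 246) (nat_lit 50) (nat_lit 1) .nil)), (nat_lit 31), (nat_lit 0), (nat_lit 0),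
 (nat_lit 0), (1, 8, 20), [2109, 543], 0⟩,
  ⟨⟨-5, -36, 36, 40, -13, -30, -14, -32, -11⟩, (.cons (nat_lit 1510) (nat_lit 1984) (nat_lit 1886) (nat_lit 1)
 (.cons (nat_lit 313) (nat_lit 826) (nat_lit 666) (nat_lit 1) .nil)), (nat_lit 4), (nat_lit 0), (nat_lit 0),
 (nat_lit 0), (11, 41, 5), [2117, 929], 0⟩,
  mz,
  mz,
  ⟨⟨-9, 16, -44, 38, -15, -34, 12, 36, -13⟩, (.cons (nat_lit 629) (nat_lit 1424) (nat_lit 958) (nat_lit 1)
 (.cons (nat_lit 393) (nat_lit 729) (nat_lit 895) (nat_lit 1) .nil)), (nat_lit 5), (nat_lit 0), (nat_lit 0),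
 (nat_lit 0), (1, 34, 13), [1870, 530], 0⟩,
  ⟨⟨-21, 20, 52, 38, 15, -4, -12, 36, -1⟩, (.cons (nat_lit 1107) (nat_lit 711) (nat_lit 978) (nat_lit 1) (.cons
 (nat_lit 934) (nat_lit 489) (nat_lit 442) (nat_lit 1) .nil)), (nat_lit 1), (nat_lit 0), (nat_lit 0), (nat_lit
 0), (12, 9, 13), [43, 658], 0⟩,
  mz,
  mz,
  ⟨⟨5, -36, 31, 40, 13, -10, 14, -32, -25⟩, (.cons (nat_lit 118) (nat_lit 1658) (nat_lit 148) (nat_lit 1)
 (.cons (nat_lit 426) (nat_lit 137) (nat_lit 616) (nat_lit 1) .nil)), (nat_lit 31), (nat_lit 0), (nat_lit 0),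
 (nat_lit 0), (11, 2, 5), [838, 61], 0⟩,
  ⟨⟨-5, 36, 36, 40, 13, -30, -14, 32, -11⟩, (.cons (nat_lit 1135) (nat_lit 1713) (nat_lit 292) (nat_lit 1)
 (.cons (nat_lit 333) (nat_lit 404) (nat_lit 650) (nat_lit 1) .nil)), (nat_lit 4), (nat_lit 0), (nat_lit 0),
 (nat_lit 0), (1, 35, 20), [673, 815], 0⟩,
  mz,
  mz,
  mz,
  ⟨⟨33, -8, -53, 20, -27, 20, 30, 24, -13⟩, (.cons (nat_lit 705) (nat_lit 1446) (nat_lit 562) (nat_lit 1)
 (.cons (nat_lit 69) (nat_lit 883) (nat_lit 509) (nat_lit 1) .nil)), (nat_lit 13), (nat_lit 0), (nat_lit 0),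
 (nat_lit 0), (39, 8, 12), [1194, 427], 0⟩,
  ⟨⟨15, 44, 1, -20, 13, -30, 34, 8, -35⟩, (.cons (nat_lit 391) (nat_lit 2034) (nat_lit 1451) (nat_lit 1) (.cons
 (nat_lit 864) (nat_lit 796) (nat_lit 170) (nat_lit 1) .nil)), (nat_lit 25), (nat_lit 0), (nat_lit 0), (nat_lit
 0), (28, 20, 9), [617, 232], 0⟩,
  mz,
  ⟨⟨-21, -20, 52, 38, -15, -4, -12, -36, -1⟩, (.cons (nat_lit 1945) (nat_lit 255) (nat_lit 1180) (nat_lit 1)
 (.cons (nat_lit 282) (nat_lit 564) (nat_lit 493) (nat_lit 1) .nil)), (nat_lit 1), (nat_lit 0), (nat_lit 0),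
 (nat_lit 0), (8, 6, 23), [418, 802], 0⟩,
  ⟨⟨29, 0, -56, 0, -43, 0, -18, 0, -29⟩, (.cons (nat_lit 2196) (nat_lit 1920) (nat_lit 154) (nat_lit 1) (.cons
 (nat_lit 960) (nat_lit 33) (nat_lit 463) (nat_lit 1) .nil)), (nat_lit 34), (nat_lit 0), (nat_lit 0), (nat_lit
 0), (33, 0, 24), [1953, 284], 0⟩,
  ⟨⟨39, -16, -43, 20, 37, 0, 2, 8, -43⟩, (.cons (nat_lit 147) (nat_lit 1567) (nat_lit 196) (nat_lit 1) (.cons
 (nat_lit 942) (nat_lit 10) (nat_lit 839) (nat_lit 1) .nil)), (nat_lit 8), (nat_lit 0), (nat_lit 0), (nat_lit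
 0), (6, 13, 40), [779, 251], 0⟩,
  ⟨⟨33, -8, 20, -20, 27, 40, 30, 24, -17⟩, (.cons (nat_lit 494) (nat_lit 745) (nat_lit 1) (nat_lit 1703) (.cons
 (nat_lit 960) (nat_lit 671) (nat_lit 593) (nat_lit 1) .nil)), (nat_lit 36), (nat_lit 0), (nat_lit 0), (nat_lit
 0), (11, 22, 10), [1953, 228], 0⟩,
  ⟨⟨-39, 16, -4, 20, 37, -20, -2, -8, -41⟩, (.cons (nat_lit 2196) (nat_lit 1283) (nat_lit 304) (nat_lit 1)
 (.cons (nat_lit 960) (nat_lit 57) (nat_lit 731) (nat_lit 1) .nil)), (nat_lit 37), (nat_lit 0), (nat_lit 0),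
 (nat_lit 0), (35, 3, 4), [479, 541], 0⟩,
  ⟨⟨33, 32, -5, -2, 15, -44, 36, -12, -25⟩, (.cons (nat_lit 370) (nat_lit 1453) (nat_lit 1992) (nat_lit 1)
 (.cons (nat_lit 868) (nat_lit 929) (nat_lit 13) (nat_lit 1) .nil)), (nat_lit 10), (nat_lit 0), (nat_lit 0),
 (nat_lit 0), (24, 22, 34), [1981, 526], 0⟩,
  ⟨⟨-15, -44, 16, 20, -13, -50, -34, -8, -1⟩, (.cons (nat_lit 1596) (nat_lit 1383) (nat_lit 721) (nat_lit 1)
 (.cons (nat_lit 952) (nat_lit 845) (nat_lit 283) (nat_lit 1) .nil)), (nat_lit 25), (nat_lit 0), (nat_lit 0),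
 (nat_lit 0), (2, 26, 16), [2173, 492], 0⟩,
  mz,
  mz,
  ⟨⟨33, 32, -28, 2, -15, -46, 36, -12, -11⟩, (.cons (nat_lit 450) (nat_lit 1897) (nat_lit 1964) (nat_lit 1)
 (.cons (nat_lit 0) (nat_lit 557) (nat_lit 641) (nat_lit 1) .nil)), (nat_lit 21), (nat_lit 0), (nat_lit 0),
 (nat_lit 0), (34, 19, 41), [627, 616], 0⟩]

/-- Moves. -/
noncomputable def t4_4 : List Mv := [
  mz,
  ⟨⟨3, 44, -20, -2, -15, -44, 36, 12, -25⟩, (.cons (nat_lit 1578) (nat_lit 1858) (nat_lit 1016) (nat_lit 1)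
 (.cons (nat_lit 610) (nat_lit 959) (nat_lit 63) (nat_lit 1) .nil)), (nat_lit 33), (nat_lit 0), (nat_lit 0),
 (nat_lit 0), (36, 19, 2), [2195, 65], 0⟩,
  mz,
  mz,
  ⟨⟨19, 36, -36, -20, -13, -30, 34, -8, -35⟩, (.cons (nat_lit 1567) (nat_lit 2024) (nat_lit 1800) (nat_lit 1)
 (.cons (nat_lit 393) (nat_lit 200) (nat_lit 615) (nat_lit 1) .nil)), (nat_lit 18), (nat_lit 0), (nat_lit 0),
 (nat_lit 0), (14, 26, 16), [1241, 55], 0⟩,
  ⟨⟨3, 44, 17, -2, -15, 46, 36, 12, -11⟩, (.cons (nat_lit 1510) (nat_lit 243) (nat_lit 609) (nat_lit 1) (.cons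
 (nat_lit 624) (nat_lit 21) (nat_lit 525) (nat_lit 1) .nil)), (nat_lit 33), (nat_lit 0), (nat_lit 0), (nat_lit
 0), (33, 21, 9), [288, 583], 0⟩,
  ⟨⟨-37, -24, 0, -20, 37, 0, 2, -8, -43⟩, (.cons (nat_lit 2196) (nat_lit 626) (nat_lit 1725) (nat_lit 1) (.cons
 (nat_lit 960) (nat_lit 612) (nat_lit 264) (nat_lit 1) .nil)), (nat_lit 6), (nat_lit 0), (nat_lit 0), (nat_lit
 0), (12, 3, 4), [2, 563], 0⟩,
  ⟨⟨33, 8, -53, 20, 27, 20, 30, -24, -13⟩, (.cons (nat_lit 1471) (nat_lit 568) (nat_lit 36) (nat_lit 1) (.cons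
 (nat_lit 388) (nat_lit 330) (nat_lit 164) (nat_lit 1) .nil)), (nat_lit 13), (nat_lit 0), (nat_lit 0), (nat_lit
 0), (32, 22, 33), [1273, 729], 0⟩,
  ⟨⟨-39, -16, -4, 20, -37, -20, -2, 8, -41⟩, (.cons (nat_lit 1176) (nat_lit 1614) (nat_lit 1610) (nat_lit 1)
 (.cons (nat_lit 282) (nat_lit 788) (nat_lit 251) (nat_lit 1) .nil)), (nat_lit 37), (nat_lit 0), (nat_lit 0),
 (nat_lit 0), (6, 30, 40), [2157, 401], 0⟩,
  ⟨⟨-29, 0, -27, 0, -43, 0, 18, 0, -47⟩, (.cons (nat_lit 1185) (nat_lit 512) (nat_lit 1827) (nat_lit 1) (.cons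
 (nat_lit 745) (nat_lit 605) (nat_lit 1) (nat_lit 248) .nil)), (nat_lit 34), (nat_lit 0), (nat_lit 0), (nat_lit
 0), (33, 0, 24), [132, 936], 0⟩,
  ⟨⟨21, -20, 31, 38, 15, -34, 12, -36, -13⟩, (.cons (nat_lit 1051) (nat_lit 2009) (nat_lit 149) (nat_lit 1)
 (.cons (nat_lit 887) (nat_lit 515) (nat_lit 1) (nat_lit 155) .nil)), (nat_lit 38), (nat_lit 0), (nat_lit 0),
 (nat_lit 0), (8, 37, 23), [384, 259], 0⟩,
  mz,
  ⟨⟨-19, -36, -17, 20, 13, -50, -34, 8, -1⟩, (.cons (nat_lit 1437) (nat_lit 883) (nat_lit 801) (nat_lit 1)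
 (.cons (nat_lit 855) (nat_lit 436) (nat_lit 453) (nat_lit 1) .nil)), (nat_lit 18), (nat_lit 0), (nat_lit 0),
 (nat_lit 0), (24, 20, 9), [2020, 240], 0⟩,
  ⟨⟨33, 8, 20, 20, 27, -40, 30, -24, -17⟩, (.cons (nat_lit 2196) (nat_lit 411) (nat_lit 959) (nat_lit 1) (.cons
 (nat_lit 960) (nat_lit 887) (nat_lit 699) (nat_lit 1) .nil)), (nat_lit 13), (nat_lit 0), (nat_lit 0), (nat_lit
 0), (4, 35, 31), [792, 540], 0⟩,
  mz,
  mz,
  mz,
  ⟨⟨9, -4, -56, 40, -13, -10, 14, 32, -25⟩, (.cons (nat_lit 345) (nat_lit 1542) (nat_lit 1752) (nat_lit 1)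
 (.cons (nat_lit 672) (nat_lit 633) (nat_lit 524) (nat_lit 1) .nil)), (nat_lit 12), (nat_lit 0), (nat_lit 0),
 (nat_lit 0), (19, 8, 20), [84, 489], 0⟩,
  ⟨⟨-9, 4, -47, -40, 13, 30, -14, -32, -11⟩, (.cons (nat_lit 847) (nat_lit 1276) (nat_lit 426) (nat_lit 1)
 (.cons (nat_lit 825) (nat_lit 675) (nat_lit 104) (nat_lit 1) .nil)), (nat_lit 12), (nat_lit 0), (nat_lit 0),
 (nat_lit 0), (37, 2, 5), [813, 181], 0⟩,
  mz,
  mz,
  ⟨⟨21, 20, 31, 38, -15, -34, 12, 36, -13⟩, (.cons (nat_lit 790) (nat_lit 479) (nat_lit 66) (nat_lit 1) (.cons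
 (nat_lit 274) (nat_lit 465) (nat_lit 714) (nat_lit 1) .nil)), (nat_lit 38), (nat_lit 0), (nat_lit 0), (nat_lit
 0), (12, 34, 13), [1556, 436], 0⟩,
  ⟨⟨-21, 20, 52, 38, 15, -4, -12, 36, -1⟩, (.cons (nat_lit 1107) (nat_lit 711) (nat_lit 978) (nat_lit 1) (.cons
 (nat_lit 934) (nat_lit 489) (nat_lit 442) (nat_lit 1) .nil)), (nat_lit 1), (nat_lit 0), (nat_lit 0), (nat_lit
 0), (12, 9, 13), [43, 658], 0⟩,
  mz,
  mz,
  ⟨⟨9, 4, -56, 40, 13, -10, 14, -32, -25⟩, (.cons (nat_lit 2090) (nat_lit 349) (nat_lit 1017) (nat_lit 1)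
 (.cons (nat_lit 27) (nat_lit 897) (nat_lit 256) (nat_lit 1) .nil)), (nat_lit 12), (nat_lit 0), (nat_lit 0),
 (nat_lit 0), (37, 2, 5), [233, 299], 0⟩,
  ⟨⟨-5, 36, 36, 40, 13, -30, -14, 32, -11⟩, (.cons (nat_lit 1135) (nat_lit 1713) (nat_lit 292) (nat_lit 1)
 (.cons (nat_lit 333) (nat_lit 404) (nat_lit 650) (nat_lit 1) .nil)), (nat_lit 4), (nat_lit 0), (nat_lit 0),
 (nat_lit 0), (1, 35, 20), [673, 815], 0⟩,
  mz,
  mz,
  mz,
  ⟨⟨33, -8, -53, -20, 27, -20, 30, 24, -13⟩, (.cons (nat_lit 1739) (nat_lit 221) (nat_lit 481) (nat_lit 1)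
 (.cons (nat_lit 579) (nat_lit 240) (nat_lit 449) (nat_lit 1) .nil)), (nat_lit 36), (nat_lit 0), (nat_lit 0),
 (nat_lit 0), (39, 35, 12), [1093, 173], 0⟩,
  ⟨⟨15, 44, 1, 20, -13, 30, 34, 8, -35⟩, (.cons (nat_lit 1506) (nat_lit 1571) (nat_lit 1829) (nat_lit 1) (.cons
 (nat_lit 494) (nat_lit 523) (nat_lit 286) (nat_lit 1) .nil)), (nat_lit 17), (nat_lit 0), (nat_lit 0), (nat_lit
 0), (28, 23, 9), [1494, 219], 0⟩,
  mz,
  ⟨⟨-21, -20, 52, -38, 15, 4, -12, -36, -1⟩, (.cons (nat_lit 2010) (nat_lit 1297) (nat_lit 217) (nat_lit 1)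
 (.cons (nat_lit 837) (nat_lit 801) (nat_lit 866) (nat_lit 1) .nil)), (nat_lit 38), (nat_lit 0), (nat_lit 0),
 (nat_lit 0), (8, 37, 23), [1713, 314], 0⟩,
  ⟨⟨-47, 0, 27, 0, -43, 0, -18, 0, -29⟩, (.cons (nat_lit 254) (nat_lit 1772) (nat_lit 1706) (nat_lit 1) (.cons
 (nat_lit 248) (nat_lit 728) (nat_lit 743) (nat_lit 1) .nil)), (nat_lit 9), (nat_lit 0), (nat_lit 0), (nat_lit
 0), (34, 0, 24), [540, 657], 0⟩,
  ⟨⟨39, -16, -43, 20, 37, 0, 2, 8, -43⟩, (.cons (nat_lit 147) (nat_lit 1567) (nat_lit 196) (nat_lit 1) (.cons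
 (nat_lit 942) (nat_lit 10) (nat_lit 839) (nat_lit 1) .nil)), (nat_lit 8), (nat_lit 0), (nat_lit 0), (nat_lit
 0), (6, 13, 40), [779, 251], 0⟩,
  ⟨⟨33, -8, 20, 20, -27, -40, 30, 24, -17⟩, (.cons (nat_lit 256) (nat_lit 820) (nat_lit 744) (nat_lit 1) (.cons
 (nat_lit 322) (nat_lit 735) (nat_lit 627) (nat_lit 1) .nil)), (nat_lit 13), (nat_lit 0), (nat_lit 0), (nat_lit
 0), (11, 21, 10), [960, 838], 0⟩,
  ⟨⟨-39, 16, -4, -20, -37, 20, -2, -8, -41⟩, (.cons (nat_lit 1545) (nat_lit 2162) (nat_lit 1751) (nat_lit 1)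
 (.cons (nat_lit 610) (nat_lit 781) (nat_lit 650) (nat_lit 1) .nil)), (nat_lit 8), (nat_lit 0), (nat_lit 0),
 (nat_lit 0), (35, 40, 4), [620, 513], 0⟩,
  ⟨⟨3, -44, -20, -2, 15, -44, 36, -12, -25⟩, (.cons (nat_lit 2150) (nat_lit 1640) (nat_lit 1411) (nat_lit 1)
 (.cons (nat_lit 698) (nat_lit 204) (nat_lit 1) (nat_lit 899) .nil)), (nat_lit 33), (nat_lit 0), (nat_lit 0),
 (nat_lit 0), (10, 22, 34), [783, 466], 0⟩,
  ⟨⟨-15, -44, 16, -20, 13, 50, -34, -8, -1⟩, (.cons (nat_lit 531) (nat_lit 280) (nat_lit 2159) (nat_lit 1)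
 (.cons (nat_lit 475) (nat_lit 726) (nat_lit 44) (nat_lit 1) .nil)), (nat_lit 17), (nat_lit 0), (nat_lit 0),
 (nat_lit 0), (2, 17, 16), [1407, 882], 0⟩,
  mz,
  mz,
  ⟨⟨33, 32, -28, 2, -15, -46, 36, -12, -11⟩, (.cons (nat_lit 450) (nat_lit 1897) (nat_lit 1964) (nat_lit 1)
 (.cons (nat_lit 0) (nat_lit 557) (nat_lit 641) (nat_lit 1) .nil)), (nat_lit 21), (nat_lit 0), (nat_lit 0),
 (nat_lit 0), (34, 19, 41), [627, 616], 0⟩]

/-- Moves. -/
noncomputable def t4_5 : List Mv := [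
  mz,
  ⟨⟨3, 44, -20, -2, -15, -44, 36, 12, -25⟩, (.cons (nat_lit 1578) (nat_lit 1858) (nat_lit 1016) (nat_lit 1)
 (.cons (nat_lit 610) (nat_lit 959) (nat_lit 63) (nat_lit 1) .nil)), (nat_lit 33), (nat_lit 0), (nat_lit 0),
 (nat_lit 0), (36, 19, 2), [2195, 65], 0⟩,
  mz,
  mz,
  ⟨⟨19, 36, -36, -20, -13, -30, 34, -8, -35⟩, (.cons (nat_lit 1567) (nat_lit 2024) (nat_lit 1800) (nat_lit 1)
 (.cons (nat_lit 393) (nat_lit 200) (nat_lit 615) (nat_lit 1) .nil)), (nat_lit 18), (nat_lit 0), (nat_lit 0),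
 (nat_lit 0), (14, 26, 16), [1241, 55], 0⟩,
  ⟨⟨33, -32, -28, 2, 15, -46, 36, 12, -11⟩, (.cons (nat_lit 489) (nat_lit 113) (nat_lit 1696) (nat_lit 1)
 (.cons (nat_lit 313) (nat_lit 541) (nat_lit 477) (nat_lit 1) .nil)), (nat_lit 21), (nat_lit 0), (nat_lit 0),
 (nat_lit 0), (19, 22, 9), [1337, 221], 0⟩,
  ⟨⟨-37, -24, 0, 20, -37, 0, 2, -8, -43⟩, (.cons (nat_lit 1337) (nat_lit 285) (nat_lit 575) (nat_lit 1) (.cons
 (nat_lit 21) (nat_lit 387) (nat_lit 725) (nat_lit 1) .nil)), (nat_lit 35), (nat_lit 0), (nat_lit 0), (nat_lit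
 0), (12, 40, 4), [477, 389], 0⟩,
  ⟨⟨33, 8, -53, -20, -27, -20, 30, -24, -13⟩, (.cons (nat_lit 1823) (nat_lit 1226) (nat_lit 2040) (nat_lit 1)
 (.cons (nat_lit 844) (nat_lit 766) (nat_lit 619) (nat_lit 1) .nil)), (nat_lit 36), (nat_lit 0), (nat_lit 0),
 (nat_lit 0), (32, 21, 33), [76, 272], 0⟩,
  ⟨⟨37, 24, -37, -20, 37, 20, -2, 8, -41⟩, (.cons (nat_lit 1375) (nat_lit 632) (nat_lit 731) (nat_lit 1) (.cons
 (nat_lit 354) (nat_lit 304) (nat_lit 904) (nat_lit 1) .nil)), (nat_lit 35), (nat_lit 0), (nat_lit 0), (nat_lit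
 0), (34, 13, 40), [576, 786], 0⟩,
  ⟨⟨47, 0, -20, 0, 43, 0, 18, 0, -47⟩, (.cons (nat_lit 2196) (nat_lit 830) (nat_lit 276) (nat_lit 1) (.cons (nat_lit 960) (nat_lit 217) (nat_lit 64) (nat_lit 1) .nil)), (nat_lit 9), (nat_lit 0), (nat_lit 0), (nat_lit 0), (34, 0, 24), [1332, 446], 0⟩,
  ⟨⟨21, -20, 31, 38, 15, -34, 12, -36, -13⟩, (.cons (nat_lit 1051) (nat_lit 2009) (nat_lit 149) (nat_lit 1)
 (.cons (nat_lit 887) (nat_lit 515) (nat_lit 1) (nat_lit 155) .nil)), (nat_lit 38), (nat_lit 0), (nat_lit 0),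
 (nat_lit 0), (8, 37, 23), [384, 259], 0⟩,
  mz,
  ⟨⟨-15, 44, 16, -20, -13, 50, -34, 8, -1⟩, (.cons (nat_lit 1159) (nat_lit 1180) (nat_lit 1657) (nat_lit 1)
 (.cons (nat_lit 685) (nat_lit 767) (nat_lit 474) (nat_lit 1) .nil)), (nat_lit 17), (nat_lit 0), (nat_lit 0),
 (nat_lit 0), (28, 23, 9), [2078, 743], 0⟩,
  ⟨⟨-3, -32, -37, 20, 27, -40, 30, -24, -17⟩, (.cons (nat_lit 2063) (nat_lit 428) (nat_lit 610) (nat_lit 1)
 (.cons (nat_lit 195) (nat_lit 795) (nat_lit 689) (nat_lit 1) .nil)), (nat_lit 30), (nat_lit 0), (nat_lit 0),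
 (nat_lit 0), (27, 35, 31), [1059, 381], 0⟩,
  mz,
  mz,
  mz,
  ⟨⟨9, -4, -56, -40, 13, 10, 14, 32, -25⟩, (.cons (nat_lit 331) (nat_lit 1791) (nat_lit 1593) (nat_lit 1)
 (.cons (nat_lit 524) (nat_lit 132) (nat_lit 8) (nat_lit 1) .nil)), (nat_lit 39), (nat_lit 0), (nat_lit 0),
 (nat_lit 0), (19, 35, 20), [2019, 188], 0⟩,
  ⟨⟨-5, -36, 36, 40, -13, -30, -14, -32, -11⟩, (.cons (nat_lit 1510) (nat_lit 1984) (nat_lit 1886) (nat_lit 1)
 (.cons (nat_lit 313) (nat_lit 826) (nat_lit 666) (nat_lit 1) .nil)), (nat_lit 4), (nat_lit 0), (nat_lit 0),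
 (nat_lit 0), (11, 41, 5), [2117, 929], 0⟩,
  mz,
  mz,
  ⟨⟨-9, 16, -44, -38, 15, 34, 12, 36, -13⟩, (.cons (nat_lit 83) (nat_lit 733) (nat_lit 1763) (nat_lit 1) (.cons
 (nat_lit 958) (nat_lit 710) (nat_lit 1) (nat_lit 0) .nil)), (nat_lit 42), (nat_lit 0), (nat_lit 0), (nat_lit
 0), (1, 9, 13), [2096, 222], 0⟩,
  ⟨⟨-21, 20, 52, 38, 15, -4, -12, 36, -1⟩, (.cons (nat_lit 1107) (nat_lit 711) (nat_lit 978) (nat_lit 1) (.cons
 (nat_lit 934) (nat_lit 489) (nat_lit 442) (nat_lit 1) .nil)), (nat_lit 1), (nat_lit 0), (nat_lit 0), (nat_lit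
 0), (12, 9, 13), [43, 658], 0⟩,
  mz,
  mz,
  ⟨⟨9, 4, -56, 40, 13, -10, 14, -32, -25⟩, (.cons (nat_lit 2090) (nat_lit 349) (nat_lit 1017) (nat_lit 1)
 (.cons (nat_lit 27) (nat_lit 897) (nat_lit 256) (nat_lit 1) .nil)), (nat_lit 12), (nat_lit 0), (nat_lit 0),
 (nat_lit 0), (37, 2, 5), [233, 299], 0⟩,
  ⟨⟨-9, -4, -47, 40, 13, -30, -14, 32, -11⟩, (.cons (nat_lit 1873) (nat_lit 1315) (nat_lit 1350) (nat_lit 1)
 (.cons (nat_lit 678) (nat_lit 178) (nat_lit 42) (nat_lit 1) .nil)), (nat_lit 39), (nat_lit 0), (nat_lit 0),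
 (nat_lit 0), (19, 35, 20), [1735, 170], 0⟩,
  mz,
  mz,
  mz,
  ⟨⟨-3, 32, 40, 20, -27, 20, 30, 24, -13⟩, (.cons (nat_lit 1456) (nat_lit 480) (nat_lit 1) (nat_lit 741) (.cons
 (nat_lit 960) (nat_lit 64) (nat_lit 195) (nat_lit 1) .nil)), (nat_lit 30), (nat_lit 0), (nat_lit 0), (nat_lit
 0), (16, 8, 12), [2006, 516], 0⟩,
  ⟨⟨15, 44, 1, 20, -13, 30, 34, 8, -35⟩, (.cons (nat_lit 1506) (nat_lit 1571) (nat_lit 1829) (nat_lit 1) (.cons
 (nat_lit 494) (nat_lit 523) (nat_lit 286) (nat_lit 1) .nil)), (nat_lit 17), (nat_lit 0), (nat_lit 0), (nat_lit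
 0), (28, 23, 9), [1494, 219], 0⟩,
  mz,
  ⟨⟨-21, -20, 52, 38, -15, -4, -12, -36, -1⟩, (.cons (nat_lit 1945) (nat_lit 255) (nat_lit 1180) (nat_lit 1)
 (.cons (nat_lit 282) (nat_lit 564) (nat_lit 493) (nat_lit 1) .nil)), (nat_lit 1), (nat_lit 0), (nat_lit 0),
 (nat_lit 0), (8, 6, 23), [418, 802], 0⟩,
  ⟨⟨-47, 0, 27, 0, -43, 0, -18, 0, -29⟩, (.cons (nat_lit 254) (nat_lit 1772) (nat_lit 1706) (nat_lit 1) (.cons
 (nat_lit 248) (nat_lit 728) (nat_lit 743) (nat_lit 1) .nil)), (nat_lit 9), (nat_lit 0), (nat_lit 0), (nat_lit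
 0), (34, 0, 24), [540, 657], 0⟩,
  ⟨⟨-37, 24, 0, -20, -37, 0, 2, 8, -43⟩, (.cons (nat_lit 1566) (nat_lit 1878) (nat_lit 320) (nat_lit 1) (.cons
 (nat_lit 778) (nat_lit 668) (nat_lit 57) (nat_lit 1) .nil)), (nat_lit 6), (nat_lit 0), (nat_lit 0), (nat_lit
 0), (34, 30, 40), [935, 866], 0⟩,
  ⟨⟨-3, 32, -37, -20, 27, 40, 30, 24, -17⟩, (.cons (nat_lit 1075) (nat_lit 250) (nat_lit 1803) (nat_lit 1)
 (.cons (nat_lit 846) (nat_lit 639) (nat_lit 71) (nat_lit 1) .nil)), (nat_lit 7), (nat_lit 0), (nat_lit 0),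
 (nat_lit 0), (42, 22, 10), [1969, 784], 0⟩,
  ⟨⟨-39, 16, -4, 20, 37, -20, -2, -8, -41⟩, (.cons (nat_lit 2196) (nat_lit 1283) (nat_lit 304) (nat_lit 1)
 (.cons (nat_lit 960) (nat_lit 57) (nat_lit 731) (nat_lit 1) .nil)), (nat_lit 37), (nat_lit 0), (nat_lit 0),
 (nat_lit 0), (35, 3, 4), [479, 541], 0⟩,
  ⟨⟨3, -44, -20, -2, 15, -44, 36, -12, -25⟩, (.cons (nat_lit 2150) (nat_lit 1640) (nat_lit 1411) (nat_lit 1)
 (.cons (nat_lit 698) (nat_lit 204) (nat_lit 1) (nat_lit 899) .nil)), (nat_lit 33), (nat_lit 0), (nat_lit 0),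
 (nat_lit 0), (10, 22, 34), [783, 466], 0⟩,
  ⟨⟨-19, 36, -17, -20, 13, 50, -34, -8, -1⟩, (.cons (nat_lit 495) (nat_lit 1584) (nat_lit 1835) (nat_lit 1)
 (.cons (nat_lit 798) (nat_lit 184) (nat_lit 119) (nat_lit 1) .nil)), (nat_lit 26), (nat_lit 0), (nat_lit 0),
 (nat_lit 0), (14, 17, 16), [1072, 30], 0⟩,
  mz,
  mz,
  ⟨⟨33, 32, -28, 2, -15, -46, 36, -12, -11⟩, (.cons (nat_lit 450) (nat_lit 1897) (nat_lit 1964) (nat_lit 1)
 (.cons (nat_lit 0) (nat_lit 557) (nat_lit 641) (nat_lit 1) .nil)), (nat_lit 21), (nat_lit 0), (nat_lit 0),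
 (nat_lit 0), (34, 19, 41), [627, 616], 0⟩]

/-- All the moves. -/
noncomputable def tabs : List (List (List Mv)) := [[[], [], t0_2, [], t0_4, t0_5], [[], [], t1_2, [], t1_4, t1_5], [], [], [[], [], t4_2, [], t4_4, t4_5]]

/-- Subtrie. -/
noncomputable def T2 : Tr := (.ev (nat_lit 20) (nat_lit 695856010480) (.nd (nat_lit 33) (.br (nat_lit 20) (.br
 (nat_lit 13) (.br (nat_lit 4) (.br (nat_lit 2) (.ch (nat_lit 1) (.ev (nat_lit 52) (nat_lit 4760971248128) (.ev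
 (nat_lit 244) (nat_lit 33554432) (.ev (nat_lit 468) (nat_lit 8192) (.ev (nat_lit 500) (nat_lit 262144) (.ev
 (nat_lit 596) (nat_lit 256) (.nd (nat_lit 816) (.br (nat_lit 6) (.br (nat_lit 4) (.ch (nat_lit 2) (.ev
 (nat_lit 832) (nat_lit 1075838978) (.nd (nat_lit 2240) (.br (nat_lit 11) (.ch (nat_lit 10) (.fin (nat_lit
 576434913807909340))) (.ch (nat_lit 11) (.ev (nat_lit 2256) (nat_lit 34359738368) (.ev (nat_lit 2269) (nat_lit
 131072) .dd))))))) (.br (nat_lit 5) (.ch (nat_lit 4) (.ev (nat_lit 832) (nat_lit 1073872898) (.ev (nat_lit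
 1396) (nat_lit 2097152) (.ev (nat_lit 1405) (nat_lit 34359738368) .dd)))) (.ch (nat_lit 5) (.ev (nat_lit 832)
 (nat_lit 35433480194) (.ev (nat_lit 1524) (nat_lit 2097152) (.ev (nat_lit 1533) (nat_lit 131072) .dd))))))
 (.br (nat_lit 10) (.br (nat_lit 9) (.ch (nat_lit 6) (.ev (nat_lit 832) (nat_lit 35433611266) (.ev (nat_lit
 845) (nat_lit 2097152) .dd))) (.ch (nat_lit 9) (.ev (nat_lit 832) (nat_lit 35435708418) .dd))) (.br (nat_lit
 12) (.ch (nat_lit 10) (.ev (nat_lit 832) (nat_lit 35435577344) (.nd (nat_lit 2656) (.br (nat_lit 6) (.ch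
 (nat_lit 0) (.ev (nat_lit 2672) (nat_lit 2) (.ev (nat_lit 2685) (nat_lit 131072) .dd))) (.br (nat_lit 12) (.ch
 (nat_lit 6) (.fin (nat_lit 576474496213926468))) (.ch (nat_lit 12) (.ev (nat_lit 2672) (nat_lit 131074)
 .dd))))))) (.ch (nat_lit 12) (.ev (nat_lit 832) (nat_lit 34361966594) (.ev (nat_lit 845) (nat_lit 1073741824)
 .dd))))))))))))) (.ch (nat_lit 2) (.ev (nat_lit 52) (nat_lit 20403462914) (.ev (nat_lit 84) (nat_lit
 34359738368) (.ev (nat_lit 340) (nat_lit 4398046511104) (.nd (nat_lit 816) (.br (nat_lit 6) (.br (nat_lit 4)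
 (.ch (nat_lit 2) (.ev (nat_lit 832) (nat_lit 274911461376) (.ev (nat_lit 900) (nat_lit 68719476736) (.ev
 (nat_lit 909) (nat_lit 131072) .dd)))) (.br (nat_lit 5) (.ch (nat_lit 4) (.ev (nat_lit 832) (nat_lit
 343630938112) (.ev (nat_lit 845) (nat_lit 131072) .dd))) (.ch (nat_lit 5) (.ev (nat_lit 832) (nat_lit
 274911592448) (.ev (nat_lit 845) (nat_lit 68719476736) .dd))))) (.br (nat_lit 9) (.ch (nat_lit 6) (.ev
 (nat_lit 832) (nat_lit 343631069184) .dd)) (.br (nat_lit 10) (.ch (nat_lit 9) (.ev (nat_lit 832) (nat_lit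
 68719607808) (.nd (nat_lit 2272) (.br (nat_lit 9) (.ch (nat_lit 0) (.ev (nat_lit 2288) (nat_lit 33554432) (.ev
 (nat_lit 2301) (nat_lit 274877906944) .dd))) (.ch (nat_lit 9) (.fin (nat_lit 576448107934859836))))))) (.ch
 (nat_lit 10) (.ev (nat_lit 832) (nat_lit 33685504) (.ev (nat_lit 1536) (nat_lit 68719476736) (.ev (nat_lit
 1549) (nat_lit 274877906944) .dd))))))))))))) (.br (nat_lit 6) (.ch (nat_lit 4) (.ev (nat_lit 52) (nat_lit
 310311657984) (.ev (nat_lit 192) (nat_lit 4486129123586) .dd))) (.br (nat_lit 8) (.ch (nat_lit 6) (.ev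
 (nat_lit 52) (nat_lit 4401270096130) (.ev (nat_lit 180) (nat_lit 274877906944) (.ev (nat_lit 372) (nat_lit
 33554432) (.nd (nat_lit 816) (.br (nat_lit 4) (.br (nat_lit 1) (.ch (nat_lit 0) (.ev (nat_lit 832) (nat_lit
 103079354880) (.ev (nat_lit 845) (nat_lit 17179869184) .dd))) (.br (nat_lit 2) (.ch (nat_lit 1) (.ev (nat_lit
 832) (nat_lit 120259215360) (.ev (nat_lit 1440) (nat_lit 512) (.ev (nat_lit 1453) (nat_lit 8192) .dd)))) (.ch
 (nat_lit 2) (.ev (nat_lit 832) (nat_lit 85899354624) (.nd (nat_lit 2176) (.br (nat_lit 10) (.ch (nat_lit 0)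
 (.ev (nat_lit 2192) (nat_lit 131072) (.ev (nat_lit 2205) (nat_lit 34359738368) .dd))) (.ch (nat_lit 10) (.fin
 (nat_lit 576434913807909340))))))))) (.br (nat_lit 6) (.br (nat_lit 5) (.ch (nat_lit 4) (.ev (nat_lit 832)
 (nat_lit 85899485696) (.ev (nat_lit 845) (nat_lit 34359738368) .dd))) (.ch (nat_lit 5) (.ev (nat_lit 832)
 (nat_lit 103079215616) (.ev (nat_lit 932) (nat_lit 8192) (.ev (nat_lit 1524) (nat_lit 131072) (.ev (nat_lit
 1533) (nat_lit 17179869184) .dd)))))) (.br (nat_lit 10) (.ch (nat_lit 6) (.ev (nat_lit 832) (nat_lit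
 17180008448) (.ev (nat_lit 864) (nat_lit 68719476736) (.nd (nat_lit 1952) (.br (nat_lit 4) (.ch (nat_lit 1)
 (.ev (nat_lit 1968) (nat_lit 34359738880) .dd)) (.br (nat_lit 7) (.ch (nat_lit 4) (.ev (nat_lit 1968) (nat_lit
 512) (.ev (nat_lit 1981) (nat_lit 34359738368) .dd))) (.ch (nat_lit 7) (.fin (nat_lit
 576540466848678480))))))))) (.ch (nat_lit 10) (.ev (nat_lit 832) (nat_lit 103079354368) (.ev (nat_lit 848)
 (nat_lit 17179869696) .dd))))))))))) (.ch (nat_lit 8) (.ev (nat_lit 52) (nat_lit 4398082294528) (.ev (nat_lit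
 148) (nat_lit 2147483648) (.ev (nat_lit 244) (nat_lit 17179869184) (.ev (nat_lit 340) (nat_lit 274877906944)
 (.ev (nat_lit 628) (nat_lit 262144) (.nd (nat_lit 816) (.br (nat_lit 4) (.br (nat_lit 1) (.ch (nat_lit 0) (.ev
 (nat_lit 832) (nat_lit 104152956930) (.ev (nat_lit 845) (nat_lit 8192) .dd))) (.ch (nat_lit 1) (.ev (nat_lit
 832) (nat_lit 35433488386) (.ev (nat_lit 845) (nat_lit 68719476736) .dd)))) (.br (nat_lit 9) (.ch (nat_lit 4)
 (.ev (nat_lit 832) (nat_lit 69793226754) (.ev (nat_lit 845) (nat_lit 34359738368) .dd))) (.br (nat_lit 12)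
 (.ch (nat_lit 9) (.ev (nat_lit 832) (nat_lit 103079223298) (.ev (nat_lit 845) (nat_lit 1073741824) .dd))) (.ch
 (nat_lit 12) (.ev (nat_lit 832) (nat_lit 104152965120) (.ev (nat_lit 845) (nat_lit 2) .dd)))))))))))))))) (.br
 (nat_lit 15) (.br (nat_lit 14) (.ch (nat_lit 13) (.ev (nat_lit 52) (nat_lit 37614912000) (.ev (nat_lit 116)
 (nat_lit 2097152) (.ev (nat_lit 564) (nat_lit 8192) (.nd (nat_lit 816) (.br (nat_lit 6) (.br (nat_lit 2) (.ch
 (nat_lit 1) (.ev (nat_lit 832) (nat_lit 274877906944) (.ev (nat_lit 932) (nat_lit 68719476736) (.ev (nat_lit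
 964) (nat_lit 17179869184) (.ev (nat_lit 1424) (nat_lit 256) (.nd (nat_lit 2528) (.br (nat_lit 2) (.ch
 (nat_lit 1) (.ev (nat_lit 2544) (nat_lit 4398046511106) .dd)) (.ch (nat_lit 2) (.fin (nat_lit
 576390933382644256)))))))))) (.br (nat_lit 4) (.ch (nat_lit 2) (.ev (nat_lit 832) (nat_lit 4758823763970) (.ev
 (nat_lit 845) (nat_lit 256) .dd))) (.ch (nat_lit 4) (.ev (nat_lit 832) (nat_lit 68719476738) (.ev (nat_lit
 848) (nat_lit 256) (.ev (nat_lit 900) (nat_lit 17179869184) (.nd (nat_lit 1856) (.br (nat_lit 11) (.ch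
 (nat_lit 0) (.fin (nat_lit 576461302086975972))) (.ch (nat_lit 11) (.ev (nat_lit 1872) (nat_lit 4398046511104)
 (.ev (nat_lit 1885) (nat_lit 274877906944) .dd))))))))))) (.br (nat_lit 9) (.ch (nat_lit 6) (.ev (nat_lit 832)
 (nat_lit 4690104287488) (.ev (nat_lit 900) (nat_lit 2) (.ev (nat_lit 909) (nat_lit 68719476736) .dd)))) (.br
 (nat_lit 10) (.ch (nat_lit 9) (.ev (nat_lit 832) (nat_lit 343597383682) (.ev (nat_lit 900) (nat_lit 256) (.ev
 (nat_lit 932) (nat_lit 17179869184) (.ev (nat_lit 941) (nat_lit 4398046511104) .dd))))) (.ch (nat_lit 10) (.ev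
 (nat_lit 832) (nat_lit 4415226380546) (.ev (nat_lit 1472) (nat_lit 68719476736) (.ev (nat_lit 1485) (nat_lit
 274877906944) .dd)))))))))))) (.ch (nat_lit 14) (.ev (nat_lit 52) (nat_lit 70869320194) (.ev (nat_lit 128)
 (nat_lit 4725571461376) .dd)))) (.br (nat_lit 18) (.ch (nat_lit 15) (.ev (nat_lit 52) (nat_lit 4725573427712)
 (.ev (nat_lit 352) (nat_lit 70867353858) .dd))) (.br (nat_lit 19) (.ch (nat_lit 18) (.ev (nat_lit 52) (nat_lit
 377957261570) (.ev (nat_lit 84) (nat_lit 1073741824) (.ev (nat_lit 212) (nat_lit 17179869184) (.nd (nat_lit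
 816) (.br (nat_lit 6) (.br (nat_lit 2) (.ch (nat_lit 1) (.ev (nat_lit 832) (nat_lit 2181300224) (.ev (nat_lit
 1302) (nat_lit 4398046511616) (.ev (nat_lit 1309) (nat_lit 2097152) .dd)))) (.br (nat_lit 5) (.ch (nat_lit 2)
 (.ev (nat_lit 832) (nat_lit 4400229908992) .dd)) (.ch (nat_lit 5) (.ev (nat_lit 832) (nat_lit 4398048608768)
 (.ev (nat_lit 900) (nat_lit 262144) (.nd (nat_lit 2784) (.br (nat_lit 11) (.ch (nat_lit 2) (.ev (nat_lit 2800)
 (nat_lit 2181038080) .dd)) (.ch (nat_lit 11) (.fin (nat_lit 576448107915985476)))))))))) (.br (nat_lit 9) (.ch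
 (nat_lit 6) (.ev (nat_lit 832) (nat_lit 4400227549696) (.ev (nat_lit 900) (nat_lit 262144) (.ev (nat_lit 909)
 (nat_lit 2097152) .dd)))) (.br (nat_lit 12) (.ch (nat_lit 9) (.ev (nat_lit 832) (nat_lit 2181300736) (.ev
 (nat_lit 1060) (nat_lit 4398046511104) (.ev (nat_lit 1069) (nat_lit 2097152) .dd)))) (.ch (nat_lit 12) (.ev
 (nat_lit 832) (nat_lit 4400229908992) .dd)))))))))) (.ch (nat_lit 19) (.ev (nat_lit 52) (nat_lit 275954147842)
 (.ev (nat_lit 224) (nat_lit 4520486633728) .dd))))))) (.br (nat_lit 25) (.br (nat_lit 22) (.br (nat_lit 21)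
 (.ch (nat_lit 20) (.ev (nat_lit 52) (nat_lit 4487202873344) (.ev (nat_lit 288) (nat_lit 309237908226) .dd)))
 (.ch (nat_lit 21) (.ev (nat_lit 52) (nat_lit 20434788608) (.ev (nat_lit 212) (nat_lit 68719476736) (.ev
 (nat_lit 416) (nat_lit 4707286516226) .dd))))) (.br (nat_lit 23) (.ch (nat_lit 22) (.ev (nat_lit 52) (nat_lit
 4486127296512) (.ev (nat_lit 256) (nat_lit 310313485058) .dd))) (.br (nat_lit 24) (.ch (nat_lit 23) (.ev
 (nat_lit 52) (nat_lit 85901574658) (.ev (nat_lit 84) (nat_lit 4398046511104) (.ev (nat_lit 628) (nat_lit 8192)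
 (.ev (nat_lit 724) (nat_lit 256) (.nd (nat_lit 816) (.br (nat_lit 5) (.br (nat_lit 2) (.ch (nat_lit 1) (.ev
 (nat_lit 832) (nat_lit 312492687360) .dd)) (.br (nat_lit 4) (.ch (nat_lit 2) (.ev (nat_lit 832) (nat_lit
 3255042048) (.ev (nat_lit 900) (nat_lit 34359738368) (.ev (nat_lit 909) (nat_lit 274877906944) .dd)))) (.ch
 (nat_lit 4) (.ev (nat_lit 832) (nat_lit 36540776448) (.ev (nat_lit 1328) (nat_lit 275951648768) (.ev (nat_lit
 1341) (nat_lit 262144) .dd)))))) (.br (nat_lit 6) (.ch (nat_lit 5) (.ev (nat_lit 832) (nat_lit 275951910912)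
 (.ev (nat_lit 900) (nat_lit 34359738368) (.nd (nat_lit 2304) (.br (nat_lit 12) (.ch (nat_lit 11) (.fin
 (nat_lit 576448107915985476))) (.ch (nat_lit 12) (.ev (nat_lit 2320) (nat_lit 2181038080) .dd))))))) (.br
 (nat_lit 10) (.ch (nat_lit 6) (.ev (nat_lit 832) (nat_lit 37614518272) (.ev (nat_lit 1156) (nat_lit 262144)
 (.ev (nat_lit 1165) (nat_lit 274877906944) .dd)))) (.ch (nat_lit 10) (.ev (nat_lit 832) (nat_lit 312492687360)
 .dd))))))))))) (.ch (nat_lit 24) (.ev (nat_lit 52) (nat_lit 344704942594) (.ev (nat_lit 180) (nat_lit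
 34359738368) (.ev (nat_lit 212) (nat_lit 2147483648) (.ev (nat_lit 660) (nat_lit 8192) (.nd (nat_lit 816) (.br
 (nat_lit 6) (.br (nat_lit 2) (.ch (nat_lit 1) (.ev (nat_lit 832) (nat_lit 4398048739328) (.ev (nat_lit 900)
 (nat_lit 256) (.ev (nat_lit 909) (nat_lit 17179869184) .dd)))) (.br (nat_lit 5) (.ch (nat_lit 2) (.ev (nat_lit
 832) (nat_lit 17179869440) (.ev (nat_lit 900) (nat_lit 2097152) (.ev (nat_lit 948) (nat_lit 4398046511104)
 (.ev (nat_lit 957) (nat_lit 131072) .dd))))) (.ch (nat_lit 5) (.ev (nat_lit 832) (nat_lit 4415228477696) (.ev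
 (nat_lit 845) (nat_lit 131072) .dd))))) (.br (nat_lit 10) (.br (nat_lit 9) (.ch (nat_lit 6) (.ev (nat_lit 832)
 (nat_lit 4398048739584) (.ev (nat_lit 845) (nat_lit 17179869184) .dd))) (.ch (nat_lit 9) (.ev (nat_lit 832)
 (nat_lit 131328) (.ev (nat_lit 900) (nat_lit 4398046511104) (.ev (nat_lit 948) (nat_lit 2097152) (.ev (nat_lit
 957) (nat_lit 17179869184) .dd)))))) (.br (nat_lit 12) (.ch (nat_lit 10) (.ev (nat_lit 832) (nat_lit
 4415228477440) (.ev (nat_lit 900) (nat_lit 256) (.ev (nat_lit 909) (nat_lit 131072) .dd)))) (.ch (nat_lit 12)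
 (.ev (nat_lit 832) (nat_lit 4415228608512) (.ev (nat_lit 845) (nat_lit 256) .dd))))))))))))))) (.br (nat_lit
 27) (.br (nat_lit 26) (.ch (nat_lit 25) (.ev (nat_lit 52) (nat_lit 120259477506) (.ev (nat_lit 244) (nat_lit
 2147483648) (.ev (nat_lit 736) (nat_lit 1073741824) (.nd (nat_lit 816) (.br (nat_lit 4) (.br (nat_lit 1) (.ch
 (nat_lit 0) (.ev (nat_lit 832) (nat_lit 4672957980928) (.ev (nat_lit 848) (nat_lit 512) (.ev (nat_lit 861)
 (nat_lit 2097152) .dd)))) (.ch (nat_lit 1) (.ev (nat_lit 832) (nat_lit 274913559040) (.ev (nat_lit 864)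
 (nat_lit 4398046511104) (.fin (nat_lit 576478894252048953)))))) (.br (nat_lit 5) (.ch (nat_lit 4) (.ev
 (nat_lit 832) (nat_lit 33563136) (.ev (nat_lit 1620) (nat_lit 2097152) (.ev (nat_lit 1636) (nat_lit 256) (.nd
 (nat_lit 2688) (.br (nat_lit 12) (.ch (nat_lit 0) (.fin (nat_lit 576461302086975972))) (.ch (nat_lit 12) (.ev
 (nat_lit 2704) (nat_lit 4672924418048) .dd)))))))) (.br (nat_lit 9) (.ch (nat_lit 5) (.ev (nat_lit 832)
 (nat_lit 4672924418560) (.ev (nat_lit 1156) (nat_lit 256) (.ev (nat_lit 1524) (nat_lit 33554432) (.ev (nat_lit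
 1600) (nat_lit 8192) (.ev (nat_lit 1613) (nat_lit 2097152) .dd)))))) (.ch (nat_lit 9) (.ev (nat_lit 832)
 (nat_lit 4398046519808) (.ev (nat_lit 900) (nat_lit 2097152) (.ev (nat_lit 932) (nat_lit 256) (.nd (nat_lit
 2592) (.br (nat_lit 9) (.ch (nat_lit 6) (.ev (nat_lit 2608) (nat_lit 274877906944) (.ev (nat_lit 2621)
 (nat_lit 33554432) .dd))) (.br (nat_lit 12) (.ch (nat_lit 9) (.fin (nat_lit 576448107934859836))) (.ch
 (nat_lit 12) (.ev (nat_lit 2608) (nat_lit 274911461376) .dd))))))))))))))))) (.ch (nat_lit 26) (.ev (nat_lit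
 52) (nat_lit 4708359995648) (.ev (nat_lit 116) (nat_lit 131072) (.ev (nat_lit 212) (nat_lit 33554432) (.ev
 (nat_lit 372) (nat_lit 68719476736) (.ev (nat_lit 404) (nat_lit 8192) (.ev (nat_lit 532) (nat_lit 262144) (.nd
 (nat_lit 816) (.br (nat_lit 9) (.br (nat_lit 5) (.ch (nat_lit 4) (.ev (nat_lit 832) (nat_lit 2147484162) (.ev
 (nat_lit 845) (nat_lit 17179869184) .dd))) (.br (nat_lit 6) (.ch (nat_lit 5) (.ev (nat_lit 832) (nat_lit 514)
 (.ev (nat_lit 1456) (nat_lit 17179869184) (.ev (nat_lit 1469) (nat_lit 2147483648) .dd)))) (.ch (nat_lit 6)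
 (.ev (nat_lit 832) (nat_lit 2147484160) (.ev (nat_lit 900) (nat_lit 17179869184) (.ev (nat_lit 909) (nat_lit
 2) .dd)))))) (.br (nat_lit 10) (.ch (nat_lit 9) (.ev (nat_lit 832) (nat_lit 19327353344) (.ev (nat_lit 845)
 (nat_lit 2) .dd))) (.br (nat_lit 12) (.ch (nat_lit 10) (.ev (nat_lit 832) (nat_lit 17179869186) (.nd (nat_lit
 2624) (.br (nat_lit 8) (.ch (nat_lit 2) (.fin (nat_lit 576465700104127060))) (.ch (nat_lit 8) (.ev (nat_lit
 2640) (nat_lit 512) (.ev (nat_lit 2653) (nat_lit 2147483648) .dd))))))) (.ch (nat_lit 12) (.ev (nat_lit 832)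
 (nat_lit 19327353346) .dd)))))))))))))) (.br (nat_lit 28) (.ch (nat_lit 27) (.ev (nat_lit 52) (nat_lit
 4483979542528) (.ev (nat_lit 84) (nat_lit 2) (.ev (nat_lit 404) (nat_lit 262144) (.nd (nat_lit 816) (.br
 (nat_lit 4) (.br (nat_lit 1) (.ch (nat_lit 0) (.ev (nat_lit 832) (nat_lit 312458879744) (.ev (nat_lit 845)
 (nat_lit 2097152) .dd))) (.br (nat_lit 2) (.ch (nat_lit 1) (.ev (nat_lit 832) (nat_lit 311387226112) (.ev
 (nat_lit 1124) (nat_lit 1073741824) (.ev (nat_lit 1620) (nat_lit 512) (.nd (nat_lit 2880) (.br (nat_lit 9)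
 (.ch (nat_lit 8) (.ev (nat_lit 2896) (nat_lit 8448) .dd)) (.br (nat_lit 10) (.ch (nat_lit 9) (.ev (nat_lit
 2896) (nat_lit 8448) .dd)) (.ch (nat_lit 10) (.fin (nat_lit 576478894252048953)))))))))) (.ch (nat_lit 2) (.ev
 (nat_lit 832) (nat_lit 278099132928) (.ev (nat_lit 848) (nat_lit 34361843968) .dd))))) (.br (nat_lit 9) (.br
 (nat_lit 6) (.ch (nat_lit 4) (.ev (nat_lit 832) (nat_lit 277027496704) (.ev (nat_lit 1190) (nat_lit
 1073741824) (.ev (nat_lit 1197) (nat_lit 34359738368) .dd)))) (.ch (nat_lit 6) (.ev (nat_lit 832) (nat_lit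
 3221233920) (.ev (nat_lit 900) (nat_lit 274877906944) (.ev (nat_lit 1488) (nat_lit 2097152) (.nd (nat_lit
 2560) (.br (nat_lit 7) (.ch (nat_lit 1) (.ev (nat_lit 2576) (nat_lit 34359738368) (.ev (nat_lit 2589) (nat_lit
 512) .dd))) (.ch (nat_lit 7) (.fin (nat_lit 576540466848678480)))))))))) (.br (nat_lit 10) (.ch (nat_lit 9)
 (.ev (nat_lit 832) (nat_lit 311385137920) (.ev (nat_lit 1524) (nat_lit 1073741824) (.ev (nat_lit 1533)
 (nat_lit 2097152) .dd)))) (.ch (nat_lit 10) (.ev (nat_lit 832) (nat_lit 310313492736) (.nd (nat_lit 2432) (.br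
 (nat_lit 12) (.ch (nat_lit 2) (.fin (nat_lit 576465700104127060))) (.ch (nat_lit 12) (.ev (nat_lit 2448)
 (nat_lit 2147483648) (.ev (nat_lit 2461) (nat_lit 512) .dd))))))))))))))) (.br (nat_lit 29) (.ch (nat_lit 28)
 (.ev (nat_lit 52) (nat_lit 4778184679426) (.ev (nat_lit 148) (nat_lit 17179869184) (.ev (nat_lit 340) (nat_lit
 131584) (.ev (nat_lit 500) (nat_lit 256) (.ev (nat_lit 768) (nat_lit 262144) (.nd (nat_lit 816) (.br (nat_lit
 6) (.br (nat_lit 2) (.ch (nat_lit 1) (.ev (nat_lit 912) (nat_lit 2097152) (.ev (nat_lit 925) (nat_lit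
 1073741824) .dd))) (.br (nat_lit 5) (.ch (nat_lit 2) (.ev (nat_lit 832) (nat_lit 1073741824) (.ev (nat_lit
 845) (nat_lit 2097152) .dd))) (.ch (nat_lit 5) (.ev (nat_lit 832) (nat_lit 1073741824) (.ev (nat_lit 845)
 (nat_lit 2097152) .dd))))) (.br (nat_lit 9) (.ch (nat_lit 6) (.ev (nat_lit 832) (nat_lit 1075838976) .dd))
 (.br (nat_lit 10) (.ch (nat_lit 9) (.ev (nat_lit 1424) (nat_lit 2097152) (.ev (nat_lit 1437) (nat_lit
 1073741824) .dd))) (.ch (nat_lit 10) (.ev (nat_lit 832) (nat_lit 1075838976) .dd)))))))))))) (.ch (nat_lit 29)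
 (.ev (nat_lit 52) (nat_lit 294239084800) (.ev (nat_lit 116) (nat_lit 34359738368) (.ev (nat_lit 180) (nat_lit
 512) (.ev (nat_lit 244) (nat_lit 68719476736) (.nd (nat_lit 816) (.br (nat_lit 4) (.br (nat_lit 1) (.ch
 (nat_lit 0) (.ev (nat_lit 832) (nat_lit 4399120384002) (.ev (nat_lit 845) (nat_lit 2097152) .dd))) (.br
 (nat_lit 2) (.ch (nat_lit 1) (.ev (nat_lit 832) (nat_lit 131072) (.ev (nat_lit 880) (nat_lit 1073741824) (.ev
 (nat_lit 1524) (nat_lit 2097152) (.nd (nat_lit 2368) (.br (nat_lit 3) (.ch (nat_lit 2) (.fin (nat_lit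
 576390933382644256))) (.ch (nat_lit 3) (.ev (nat_lit 2384) (nat_lit 2) (.ev (nat_lit 2397) (nat_lit
 4398046511104) .dd))))))))) (.ch (nat_lit 2) (.ev (nat_lit 832) (nat_lit 4399122481154) .dd)))) (.br (nat_lit
 9) (.ch (nat_lit 4) (.ev (nat_lit 832) (nat_lit 131074) (.ev (nat_lit 912) (nat_lit 2097152) (.ev (nat_lit
 1268) (nat_lit 1073741824) (.ev (nat_lit 1277) (nat_lit 4398046511104) .dd))))) (.br (nat_lit 10) (.ch
 (nat_lit 9) (.ev (nat_lit 832) (nat_lit 131074) (.ev (nat_lit 1108) (nat_lit 4398046511104) (.ev (nat_lit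
 1536) (nat_lit 2097152) (.ev (nat_lit 1549) (nat_lit 1073741824) .dd))))) (.ch (nat_lit 10) (.ev (nat_lit 832)
 (nat_lit 4399122350080) (.fin (nat_lit 576474496213926468))))))))))))))))))))

/-- Subtrie. -/
noncomputable def T4 : Tr := (.ev (nat_lit 20) (nat_lit 4760002365248) (.nd (nat_lit 33) (.br (nat_lit 20) (.br
 (nat_lit 13) (.br (nat_lit 4) (.br (nat_lit 2) (.ch (nat_lit 1) (.ev (nat_lit 52) (nat_lit 148176371856) (.ev
 (nat_lit 84) (nat_lit 2097152) (.ev (nat_lit 448) (nat_lit 584115957794) .dd)))) (.ch (nat_lit 2) (.ev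
 (nat_lit 52) (nat_lit 10739785778) (.ev (nat_lit 116) (nat_lit 549755813888) (.ev (nat_lit 148) (nat_lit
 137438953472) (.ev (nat_lit 180) (nat_lit 131072) (.ev (nat_lit 784) (nat_lit 4096) (.nd (nat_lit 816) (.br
 (nat_lit 6) (.br (nat_lit 1) (.ch (nat_lit 0) (.ev (nat_lit 832) (nat_lit 128) (.ev (nat_lit 845) (nat_lit
 34359738368) .dd))) (.br (nat_lit 2) (.ch (nat_lit 1) (.ev (nat_lit 832) (nat_lit 34359738496) .dd)) (.ch
 (nat_lit 2) (.ev (nat_lit 832) (nat_lit 128) (.ev (nat_lit 845) (nat_lit 34359738368) .dd))))) (.br (nat_lit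
 7) (.ch (nat_lit 6) (.ev (nat_lit 1524) (nat_lit 128) (.ev (nat_lit 1533) (nat_lit 34359738368) .dd))) (.br
 (nat_lit 8) (.ch (nat_lit 7) (.ev (nat_lit 912) (nat_lit 34359738368) (.ev (nat_lit 925) (nat_lit 128) .dd)))
 (.ch (nat_lit 8) (.ev (nat_lit 832) (nat_lit 34359738496) .dd))))))))))))) (.br (nat_lit 6) (.ch (nat_lit 4)
 (.ev (nat_lit 52) (nat_lit 34360012816) (.ev (nat_lit 148) (nat_lit 128) (.ev (nat_lit 576) (nat_lit
 697934413858) .dd)))) (.br (nat_lit 8) (.ch (nat_lit 6) (.ev (nat_lit 52) (nat_lit 139588800674) (.ev (nat_lit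
 608) (nat_lit 592705626128) .dd))) (.ch (nat_lit 8) (.ev (nat_lit 52) (nat_lit 549758042256) (.ev (nat_lit 84)
 (nat_lit 32) (.ev (nat_lit 116) (nat_lit 2) (.ev (nat_lit 244) (nat_lit 34359738368) (.ev (nat_lit 308)
 (nat_lit 4096) (.ev (nat_lit 340) (nat_lit 262144) (.ev (nat_lit 372) (nat_lit 137438953472) (.nd (nat_lit
 816) (.br (nat_lit 6) (.br (nat_lit 2) (.ch (nat_lit 0) (.ev (nat_lit 832) (nat_lit 10737418240) (.ev (nat_lit
 845) (nat_lit 8192) .dd))) (.ch (nat_lit 2) (.ev (nat_lit 832) (nat_lit 8589942784) (.ev (nat_lit 845)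
 (nat_lit 2147483648) .dd)))) (.br (nat_lit 7) (.ch (nat_lit 6) (.ev (nat_lit 832) (nat_lit 8589942784) (.ev
 (nat_lit 845) (nat_lit 2147483648) .dd))) (.br (nat_lit 11) (.ch (nat_lit 7) (.ev (nat_lit 832) (nat_lit
 2147491840) (.ev (nat_lit 845) (nat_lit 8589934592) .dd))) (.ch (nat_lit 11) (.ev (nat_lit 832) (nat_lit
 2147491840) (.ev (nat_lit 845) (nat_lit 8589934592) .dd)))))))))))))))))) (.br (nat_lit 15) (.br (nat_lit 14)
 (.ch (nat_lit 13) (.ev (nat_lit 52) (nat_lit 173946572832) (.ev (nat_lit 384) (nat_lit 558347853970) .dd)))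
 (.ch (nat_lit 14) (.ev (nat_lit 52) (nat_lit 551905656962) (.ev (nat_lit 212) (nat_lit 34359738368) (.ev
 (nat_lit 372) (nat_lit 4096) (.nd (nat_lit 816) (.br (nat_lit 7) (.br (nat_lit 6) (.ch (nat_lit 3) (.ev
 (nat_lit 832) (nat_lit 48) (.ev (nat_lit 992) (nat_lit 8590065664) (.fin (nat_lit 576476695239279165))))) (.ch
 (nat_lit 6) (.ev (nat_lit 832) (nat_lit 146029019168) (.ev (nat_lit 848) (nat_lit 8192) (.ev (nat_lit 861)
 (nat_lit 16) .dd))))) (.br (nat_lit 8) (.ch (nat_lit 7) (.ev (nat_lit 832) (nat_lit 8590073904) (.ev (nat_lit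
 845) (nat_lit 137438953472) .dd))) (.br (nat_lit 11) (.ch (nat_lit 8) (.ev (nat_lit 832) (nat_lit
 146029027344) (.ev (nat_lit 845) (nat_lit 32) .dd))) (.ch (nat_lit 11) (.ev (nat_lit 832) (nat_lit
 146029027360) (.ev (nat_lit 845) (nat_lit 16) .dd)))))))))))) (.br (nat_lit 18) (.ch (nat_lit 15) (.ev
 (nat_lit 52) (nat_lit 584117661696) (.ev (nat_lit 84) (nat_lit 8589934592) (.ev (nat_lit 480) (nat_lit
 139586830514) .dd)))) (.br (nat_lit 19) (.ch (nat_lit 18) (.ev (nat_lit 52) (nat_lit 592705626162) (.ev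
 (nat_lit 704) (nat_lit 139588800640) .dd))) (.ch (nat_lit 19) (.ev (nat_lit 52) (nat_lit 549758316674) (.ev
 (nat_lit 180) (nat_lit 32) (.ev (nat_lit 276) (nat_lit 34359738368) (.ev (nat_lit 436) (nat_lit 16) (.nd
 (nat_lit 816) (.br (nat_lit 3) (.br (nat_lit 1) (.ch (nat_lit 0) (.ev (nat_lit 832) (nat_lit 10737418240) (.ev
 (nat_lit 845) (nat_lit 137438953472) .dd))) (.br (nat_lit 2) (.ch (nat_lit 1) (.ev (nat_lit 832) (nat_lit
 146028888064) (.ev (nat_lit 845) (nat_lit 2147483648) .dd))) (.ch (nat_lit 2) (.ev (nat_lit 832) (nat_lit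
 139586437120) (.ev (nat_lit 845) (nat_lit 8589934592) .dd))))) (.br (nat_lit 8) (.br (nat_lit 7) (.ch (nat_lit
 3) (.ev (nat_lit 832) (nat_lit 10737418240) (.ev (nat_lit 845) (nat_lit 137438953472) .dd))) (.ch (nat_lit 7)
 (.ev (nat_lit 832) (nat_lit 148176371712) .dd))) (.br (nat_lit 9) (.ch (nat_lit 8) (.ev (nat_lit 832) (nat_lit
 10737418240) (.ev (nat_lit 845) (nat_lit 137438953472) .dd))) (.ch (nat_lit 9) (.ev (nat_lit 832) (nat_lit
 148176371712) .dd))))))))))))))) (.br (nat_lit 25) (.br (nat_lit 22) (.br (nat_lit 21) (.ch (nat_lit 20) (.ev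
 (nat_lit 52) (nat_lit 2149720112) (.ev (nat_lit 180) (nat_lit 8589934592) (.ev (nat_lit 308) (nat_lit
 137438953472) (.nd (nat_lit 816) (.br (nat_lit 3) (.br (nat_lit 2) (.ch (nat_lit 0) (.ev (nat_lit 832)
 (nat_lit 549755818114) (.ev (nat_lit 900) (nat_lit 262144) (.ev (nat_lit 909) (nat_lit 34359738368) .dd))))
 (.ch (nat_lit 2) (.ev (nat_lit 832) (nat_lit 34360004736) (.ev (nat_lit 1654) (nat_lit 549755813890) .dd))))
 (.br (nat_lit 6) (.ch (nat_lit 3) (.ev (nat_lit 832) (nat_lit 549756076162) (.ev (nat_lit 1172) (nat_lit 4096)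
 (.ev (nat_lit 1181) (nat_lit 34359738368) .dd)))) (.br (nat_lit 7) (.ch (nat_lit 6) (.ev (nat_lit 832)
 (nat_lit 549756076034) (.ev (nat_lit 1364) (nat_lit 4096) (.nd (nat_lit 2944) (.br (nat_lit 9) (.ch (nat_lit
 0) (.ev (nat_lit 2960) (nat_lit 34359738496) .dd)) (.br (nat_lit 11) (.ch (nat_lit 9) (.fin (nat_lit
 576476695207821905))) (.ch (nat_lit 11) (.ev (nat_lit 2960) (nat_lit 34359738496) .dd)))))))) (.ch (nat_lit 7)
 (.ev (nat_lit 832) (nat_lit 549756080130) (.ev (nat_lit 1620) (nat_lit 128) (.ev (nat_lit 1629) (nat_lit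
 34359738368) .dd)))))))))))) (.ch (nat_lit 21) (.ev (nat_lit 52) (nat_lit 560493371424) (.ev (nat_lit 212)
 (nat_lit 137438953472) (.ev (nat_lit 372) (nat_lit 16) (.nd (nat_lit 816) (.br (nat_lit 3) (.br (nat_lit 2)
 (.ch (nat_lit 1) (.ev (nat_lit 832) (nat_lit 34362101888) (.ev (nat_lit 845) (nat_lit 2) .dd))) (.ch (nat_lit
 2) (.ev (nat_lit 832) (nat_lit 2363522) (.ev (nat_lit 845) (nat_lit 34359738368) .dd)))) (.br (nat_lit 6) (.ch
 (nat_lit 3) (.ev (nat_lit 832) (nat_lit 34362097666) (.ev (nat_lit 848) (nat_lit 128) (.ev (nat_lit 861)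
 (nat_lit 4096) .dd)))) (.br (nat_lit 11) (.ch (nat_lit 6) (.ev (nat_lit 832) (nat_lit 4098) (.ev (nat_lit 992)
 (nat_lit 2359296) (.fin (nat_lit 576476695207821905))))) (.ch (nat_lit 11) (.ev (nat_lit 832) (nat_lit
 34362097794) (.ev (nat_lit 845) (nat_lit 4096) .dd)))))))))))) (.br (nat_lit 23) (.ch (nat_lit 22) (.ev
 (nat_lit 52) (nat_lit 10737819824) (.ev (nat_lit 180) (nat_lit 2) (.ev (nat_lit 276) (nat_lit 137438953472)
 (.ev (nat_lit 436) (nat_lit 4096) (.nd (nat_lit 816) (.br (nat_lit 6) (.br (nat_lit 1) (.ch (nat_lit 0) (.ev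
 (nat_lit 832) (nat_lit 584117649408) .dd)) (.br (nat_lit 2) (.ch (nat_lit 1) (.ev (nat_lit 832) (nat_lit
 549757911040) (.ev (nat_lit 845) (nat_lit 34359738368) .dd))) (.ch (nat_lit 2) (.ev (nat_lit 832) (nat_lit
 584117649408) .dd)))) (.br (nat_lit 8) (.br (nat_lit 7) (.ch (nat_lit 6) (.ev (nat_lit 832) (nat_lit
 549757911040) (.ev (nat_lit 845) (nat_lit 34359738368) .dd))) (.ch (nat_lit 7) (.ev (nat_lit 832) (nat_lit
 584115552256) (.ev (nat_lit 845) (nat_lit 2097152) .dd)))) (.br (nat_lit 9) (.ch (nat_lit 8) (.ev (nat_lit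
 832) (nat_lit 34361835520) (.ev (nat_lit 845) (nat_lit 549755813888) .dd))) (.ch (nat_lit 9) (.ev (nat_lit
 832) (nat_lit 549757911040) (.ev (nat_lit 845) (nat_lit 34359738368) .dd)))))))))))) (.br (nat_lit 24) (.ch
 (nat_lit 23) (.ev (nat_lit 52) (nat_lit 558347980962) (.ev (nat_lit 116) (nat_lit 2147483648) (.ev (nat_lit
 148) (nat_lit 34359738368) (.ev (nat_lit 180) (nat_lit 262144) (.ev (nat_lit 752) (nat_lit 16) (.nd (nat_lit
 816) (.br (nat_lit 7) (.br (nat_lit 2) (.ch (nat_lit 1) (.ev (nat_lit 832) (nat_lit 137438961664) .dd)) (.br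
 (nat_lit 3) (.ch (nat_lit 2) (.ev (nat_lit 912) (nat_lit 137438953472) (.ev (nat_lit 925) (nat_lit 8192)
 .dd))) (.ch (nat_lit 3) (.ev (nat_lit 1524) (nat_lit 8192) (.ev (nat_lit 1533) (nat_lit 137438953472) .dd)))))
 (.br (nat_lit 8) (.ch (nat_lit 7) (.ev (nat_lit 832) (nat_lit 8192) (.ev (nat_lit 845) (nat_lit 137438953472)
 .dd))) (.br (nat_lit 9) (.ch (nat_lit 8) (.ev (nat_lit 832) (nat_lit 137438961664) .dd)) (.ch (nat_lit 9) (.ev
 (nat_lit 832) (nat_lit 8192) (.ev (nat_lit 845) (nat_lit 137438953472) .dd))))))))))))) (.ch (nat_lit 24) (.ev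
 (nat_lit 52) (nat_lit 558346014850) (.ev (nat_lit 180) (nat_lit 2097152) (.ev (nat_lit 308) (nat_lit
 34359738368) (.nd (nat_lit 816) (.br (nat_lit 6) (.br (nat_lit 3) (.ch (nat_lit 2) (.ev (nat_lit 832) (nat_lit
 2147614768) (.ev (nat_lit 1620) (nat_lit 8192) (.ev (nat_lit 1629) (nat_lit 137438953472) .dd)))) (.ch
 (nat_lit 3) (.ev (nat_lit 832) (nat_lit 2147614752) (.ev (nat_lit 1364) (nat_lit 16) (.nd (nat_lit 2912) (.br
 (nat_lit 3) (.ch (nat_lit 1) (.ev (nat_lit 2928) (nat_lit 137438961664) .dd)) (.br (nat_lit 5) (.ch (nat_lit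
 3) (.ev (nat_lit 2928) (nat_lit 137438961664) .dd)) (.ch (nat_lit 5) (.fin (nat_lit
 576476695239279165)))))))))) (.br (nat_lit 7) (.ch (nat_lit 6) (.ev (nat_lit 832) (nat_lit 2147622944) (.ev
 (nat_lit 1142) (nat_lit 137438953488) .dd))) (.br (nat_lit 9) (.ch (nat_lit 7) (.ev (nat_lit 832) (nat_lit
 137439092752) (.ev (nat_lit 1680) (nat_lit 2147483680) .dd))) (.ch (nat_lit 9) (.ev (nat_lit 832) (nat_lit
 2147491888) (.ev (nat_lit 900) (nat_lit 131072) (.ev (nat_lit 909) (nat_lit 137438953472) .dd)))))))))))))))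
 (.br (nat_lit 27) (.br (nat_lit 26) (.ch (nat_lit 25) (.ev (nat_lit 52) (nat_lit 721554898962) (.ev (nat_lit
 640) (nat_lit 10739527840) .dd))) (.ch (nat_lit 26) (.ev (nat_lit 52) (nat_lit 721556603056) (.ev (nat_lit
 544) (nat_lit 10737823746) .dd)))) (.br (nat_lit 28) (.ch (nat_lit 27) (.ev (nat_lit 52) (nat_lit
 137439088784) (.ev (nat_lit 148) (nat_lit 8192) (.ev (nat_lit 672) (nat_lit 594855329826) .dd)))) (.br
 (nat_lit 29) (.ch (nat_lit 28) (.ev (nat_lit 52) (nat_lit 182536122370) (.ev (nat_lit 512) (nat_lit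
 549758304432) .dd))) (.ch (nat_lit 29) (.ev (nat_lit 52) (nat_lit 10737692672) (.ev (nat_lit 84) (nat_lit 2)
 (.ev (nat_lit 116) (nat_lit 32) (.ev (nat_lit 244) (nat_lit 137438953472) (.ev (nat_lit 308) (nat_lit 16) (.ev
 (nat_lit 340) (nat_lit 131072) (.ev (nat_lit 372) (nat_lit 34359738368) (.nd (nat_lit 816) (.br (nat_lit 7)
 (.br (nat_lit 3) (.ch (nat_lit 2) (.ev (nat_lit 832) (nat_lit 549755814016) (.ev (nat_lit 845) (nat_lit
 2097152) .dd))) (.ch (nat_lit 3) (.ev (nat_lit 832) (nat_lit 2097280) (.ev (nat_lit 845) (nat_lit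
 549755813888) .dd)))) (.br (nat_lit 9) (.ch (nat_lit 7) (.ev (nat_lit 832) (nat_lit 2097280) (.ev (nat_lit
 845) (nat_lit 549755813888) .dd))) (.br (nat_lit 11) (.ch (nat_lit 9) (.ev (nat_lit 832) (nat_lit
 549757911040) (.ev (nat_lit 845) (nat_lit 128) .dd))) (.ch (nat_lit 11) (.ev (nat_lit 832) (nat_lit
 549755814016) (.ev (nat_lit 845) (nat_lit 2097152) .dd))))))))))))))))))))))

/-- Subtrie. -/
noncomputable def T5 : Tr := (.ev (nat_lit 20) (nat_lit 4552699150354) (.nd (nat_lit 33) (.br (nat_lit 20) (.br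
 (nat_lit 13) (.br (nat_lit 4) (.br (nat_lit 2) (.ch (nat_lit 1) (.ev (nat_lit 52) (nat_lit 354406106752) (.ev
 (nat_lit 340) (nat_lit 549755813888) (.ev (nat_lit 500) (nat_lit 4096) (.ev (nat_lit 596) (nat_lit 131072)
 (.nd (nat_lit 816) (.br (nat_lit 9) (.br (nat_lit 4) (.ch (nat_lit 1) (.ev (nat_lit 832) (nat_lit 34359746560)
 (.ev (nat_lit 880) (nat_lit 256) (.ev (nat_lit 1076) (nat_lit 32) (.ev (nat_lit 1524) (nat_lit 1073741824)
 (.nd (nat_lit 2016) (.br (nat_lit 1) (.ch (nat_lit 0) (.fin (nat_lit 576553661051126388))) (.ch (nat_lit 1)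
 (.ev (nat_lit 2032) (nat_lit 2097152) (.ev (nat_lit 2045) (nat_lit 64) .dd)))))))))) (.br (nat_lit 8) (.ch
 (nat_lit 4) (.ev (nat_lit 832) (nat_lit 2105376) (.ev (nat_lit 912) (nat_lit 1073741824) (.ev (nat_lit 1396)
 (nat_lit 64) (.nd (nat_lit 2208) (.br (nat_lit 9) (.ch (nat_lit 3) (.fin (nat_lit 576549263025586792))) (.ch
 (nat_lit 9) (.ev (nat_lit 2224) (nat_lit 34359738624) .dd)))))))) (.ch (nat_lit 8) (.ev (nat_lit 832) (nat_lit
 35435585856) (.ev (nat_lit 845) (nat_lit 32) .dd))))) (.br (nat_lit 11) (.ch (nat_lit 9) (.ev (nat_lit 832)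
 (nat_lit 34361843744) (.ev (nat_lit 848) (nat_lit 1073741824) (.ev (nat_lit 1204) (nat_lit 256) (.ev (nat_lit
 1213) (nat_lit 64) .dd))))) (.br (nat_lit 12) (.ch (nat_lit 11) (.ev (nat_lit 832) (nat_lit 35433480512) (.ev
 (nat_lit 912) (nat_lit 2097152) (.ev (nat_lit 1344) (nat_lit 8224) .dd)))) (.ch (nat_lit 12) (.ev (nat_lit
 832) (nat_lit 2105696) (.ev (nat_lit 1238) (nat_lit 35433480192) .dd)))))))))))) (.ch (nat_lit 2) (.ev
 (nat_lit 52) (nat_lit 11817460512) (.ev (nat_lit 116) (nat_lit 68719476736) (.ev (nat_lit 564) (nat_lit 4096)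
 (.ev (nat_lit 660) (nat_lit 274877906944) (.nd (nat_lit 816) (.br (nat_lit 4) (.br (nat_lit 1) (.ch (nat_lit
 0) (.ev (nat_lit 832) (nat_lit 584115684480) (.ev (nat_lit 1620) (nat_lit 64) (.ev (nat_lit 1629) (nat_lit
 67108864) .dd)))) (.ch (nat_lit 1) (.ev (nat_lit 832) (nat_lit 34359739456) (.ev (nat_lit 900) (nat_lit
 131200) (.nd (nat_lit 1920) (.br (nat_lit 4) (.ch (nat_lit 1) (.ev (nat_lit 1936) (nat_lit 549822922752) .dd))
 (.ch (nat_lit 4) (.fin (nat_lit 576474496195052112))))))))) (.br (nat_lit 6) (.ch (nat_lit 4) (.ev (nat_lit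
 832) (nat_lit 34359869568) (.ev (nat_lit 900) (nat_lit 67108864) (.ev (nat_lit 1504) (nat_lit 549755813888)
 (.ev (nat_lit 1524) (nat_lit 1024) (.ev (nat_lit 1533) (nat_lit 64) .dd)))))) (.br (nat_lit 8) (.ch (nat_lit
 6) (.ev (nat_lit 832) (nat_lit 67241152) (.ev (nat_lit 864) (nat_lit 34359738368) (.ev (nat_lit 877) (nat_lit
 549755813888) .dd)))) (.ch (nat_lit 8) (.ev (nat_lit 832) (nat_lit 131264) (.ev (nat_lit 1536) (nat_lit
 67108864) (.ev (nat_lit 1636) (nat_lit 549755813888) (.nd (nat_lit 2816) (.br (nat_lit 8) (.ch (nat_lit 5)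
 (.ev (nat_lit 2832) (nat_lit 34359739392) .dd)) (.br (nat_lit 11) (.ch (nat_lit 8) (.ev (nat_lit 2832)
 (nat_lit 34359738368) (.ev (nat_lit 2845) (nat_lit 1024) .dd))) (.ch (nat_lit 11) (.fin (nat_lit
 576368943097659916)))))))))))))))))))) (.br (nat_lit 6) (.ch (nat_lit 4) (.ev (nat_lit 52) (nat_lit
 310378509824) (.ev (nat_lit 148) (nat_lit 256) (.ev (nat_lit 212) (nat_lit 2097152) (.ev (nat_lit 308)
 (nat_lit 4194304) (.ev (nat_lit 596) (nat_lit 8589934592) (.nd (nat_lit 816) (.br (nat_lit 8) (.br (nat_lit 4)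
 (.ch (nat_lit 1) (.ev (nat_lit 832) (nat_lit 68719607936) (.ev (nat_lit 1424) (nat_lit 32) (.ev (nat_lit 1588)
 (nat_lit 64) (.nd (nat_lit 2080) (.br (nat_lit 2) (.ch (nat_lit 1) (.ev (nat_lit 2096) (nat_lit 551903297536)
 .dd)) (.ch (nat_lit 2) (.fin (nat_lit 576461301961146936))))))))) (.br (nat_lit 5) (.ch (nat_lit 4) (.ev
 (nat_lit 832) (nat_lit 70867091584) (.ev (nat_lit 848) (nat_lit 32) (.ev (nat_lit 1588) (nat_lit 549755813888)
 (.ev (nat_lit 1597) (nat_lit 64) .dd))))) (.ch (nat_lit 5) (.ev (nat_lit 832) (nat_lit 551903297632) (.ev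
 (nat_lit 900) (nat_lit 131072) (.fin (nat_lit 576470098169512516))))))) (.br (nat_lit 9) (.ch (nat_lit 8) (.ev
 (nat_lit 832) (nat_lit 620622774496) (.ev (nat_lit 845) (nat_lit 131072) .dd))) (.br (nat_lit 11) (.ch
 (nat_lit 9) (.ev (nat_lit 832) (nat_lit 70867091584) (.ev (nat_lit 880) (nat_lit 549755813888) (.ev (nat_lit
 900) (nat_lit 32) (.ev (nat_lit 909) (nat_lit 64) .dd))))) (.ch (nat_lit 11) (.ev (nat_lit 832) (nat_lit
 618475421888) (.ev (nat_lit 1440) (nat_lit 2147483680) .dd))))))))))))) (.br (nat_lit 8) (.ch (nat_lit 6) (.ev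
 (nat_lit 52) (nat_lit 3223328224) (.ev (nat_lit 436) (nat_lit 512) (.ev (nat_lit 500) (nat_lit 8589934592)
 (.ev (nat_lit 692) (nat_lit 131072) (.nd (nat_lit 816) (.br (nat_lit 5) (.br (nat_lit 4) (.ch (nat_lit 1) (.ev
 (nat_lit 832) (nat_lit 103083409408) (.ev (nat_lit 900) (nat_lit 274877915136) (.nd (nat_lit 1888) (.br
 (nat_lit 4) (.ch (nat_lit 0) (.ev (nat_lit 1904) (nat_lit 549822922752) .dd)) (.ch (nat_lit 4) (.fin (nat_lit
 576474496195052112)))))))) (.ch (nat_lit 4) (.ev (nat_lit 832) (nat_lit 893357400064) (.ev (nat_lit 1588)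
 (nat_lit 34359738368) (.ev (nat_lit 1597) (nat_lit 67108864) .dd))))) (.br (nat_lit 6) (.ch (nat_lit 5) (.ev
 (nat_lit 832) (nat_lit 274882109440) (.ev (nat_lit 900) (nat_lit 67108864) (.ev (nat_lit 1536) (nat_lit
 549755813888) (.ev (nat_lit 1588) (nat_lit 68719476736) (.ev (nat_lit 1597) (nat_lit 34359738368) .dd))))))
 (.br (nat_lit 12) (.ch (nat_lit 6) (.ev (nat_lit 832) (nat_lit 309237653504) (.ev (nat_lit 1504) (nat_lit
 67108864) (.ev (nat_lit 1620) (nat_lit 549755813888) (.nd (nat_lit 2496) (.br (nat_lit 4) (.ch (nat_lit 0)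
 (.ev (nat_lit 2512) (nat_lit 68723671040) .dd)) (.br (nat_lit 8) (.ch (nat_lit 4) (.ev (nat_lit 2512) (nat_lit
 4194304) (.ev (nat_lit 2525) (nat_lit 68719476736) .dd))) (.ch (nat_lit 8) (.fin (nat_lit
 576492088339153564)))))))))) (.ch (nat_lit 12) (.ev (nat_lit 832) (nat_lit 378024239104) (.ev (nat_lit 864)
 (nat_lit 4194304) (.ev (nat_lit 877) (nat_lit 549755813888) .dd))))))))))))) (.ch (nat_lit 8) (.ev (nat_lit
 52) (nat_lit 549825151936) (.ev (nat_lit 212) (nat_lit 2147483648) (.ev (nat_lit 564) (nat_lit 274877906944)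
 (.ev (nat_lit 692) (nat_lit 8589934592) (.ev (nat_lit 800) (nat_lit 8192) (.nd (nat_lit 816) (.br (nat_lit 6)
 (.br (nat_lit 4) (.ch (nat_lit 1) (.ev (nat_lit 832) (nat_lit 104157152256) (.ev (nat_lit 848) (nat_lit 4096)
 (.ev (nat_lit 861) (nat_lit 32) .dd)))) (.ch (nat_lit 4) (.ev (nat_lit 832) (nat_lit 68723675136) (.ev
 (nat_lit 1028) (nat_lit 34359738368) (.ev (nat_lit 1060) (nat_lit 1073741824) (.ev (nat_lit 1588) (nat_lit
 1024) (.ev (nat_lit 1597) (nat_lit 32) .dd))))))) (.br (nat_lit 9) (.ch (nat_lit 6) (.ev (nat_lit 832)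
 (nat_lit 34359743488) (.ev (nat_lit 1028) (nat_lit 1073741824) (.ev (nat_lit 1620) (nat_lit 32) (.nd (nat_lit
 2400) (.br (nat_lit 10) (.ch (nat_lit 8) (.fin (nat_lit 576430515782369764))) (.ch (nat_lit 10) (.ev (nat_lit
 2416) (nat_lit 68723671040) .dd)))))))) (.br (nat_lit 12) (.ch (nat_lit 9) (.ev (nat_lit 832) (nat_lit
 103079219200) (.ev (nat_lit 900) (nat_lit 32) (.ev (nat_lit 932) (nat_lit 1073741824) (.nd (nat_lit 2336) (.br
 (nat_lit 8) (.ch (nat_lit 2) (.fin (nat_lit 576461302042935864))) (.br (nat_lit 9) (.ch (nat_lit 8) (.ev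
 (nat_lit 2352) (nat_lit 4194304) (.ev (nat_lit 2365) (nat_lit 1024) .dd))) (.ch (nat_lit 9) (.ev (nat_lit
 2352) (nat_lit 4195328) .dd))))))))) (.ch (nat_lit 12) (.ev (nat_lit 832) (nat_lit 4199456) (.ev (nat_lit 864)
 (nat_lit 68719476736) (.fin (nat_lit 576443709869474345)))))))))))))))))) (.br (nat_lit 15) (.br (nat_lit 14)
 (.ch (nat_lit 13) (.ev (nat_lit 52) (nat_lit 37581100576) (.ev (nat_lit 64) (nat_lit 902016541120) .dd))) (.ch
 (nat_lit 14) (.ev (nat_lit 52) (nat_lit 620691980992) (.ev (nat_lit 148) (nat_lit 8192) (.ev (nat_lit 212)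
 (nat_lit 4194336) (.ev (nat_lit 468) (nat_lit 4096) (.ev (nat_lit 596) (nat_lit 274877906944) (.nd (nat_lit
 816) (.br (nat_lit 6) (.br (nat_lit 1) (.ch (nat_lit 0) (.ev (nat_lit 832) (nat_lit 44023546880) (.ev (nat_lit
 845) (nat_lit 256) .dd))) (.ch (nat_lit 1) (.ev (nat_lit 832) (nat_lit 42949805056) (.ev (nat_lit 848)
 (nat_lit 1073741824) (.ev (nat_lit 861) (nat_lit 256) .dd))))) (.br (nat_lit 11) (.ch (nat_lit 6) (.ev
 (nat_lit 832) (nat_lit 9663808768) (.ev (nat_lit 845) (nat_lit 34359738368) .dd))) (.br (nat_lit 12) (.ch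
 (nat_lit 11) (.ev (nat_lit 832) (nat_lit 44023546112) (.ev (nat_lit 845) (nat_lit 1024) .dd))) (.ch (nat_lit
 12) (.ev (nat_lit 832) (nat_lit 1280) (.ev (nat_lit 1668) (nat_lit 8590065664) (.fin (nat_lit
 576443709869474345)))))))))))))))) (.br (nat_lit 18) (.ch (nat_lit 15) (.ev (nat_lit 52) (nat_lit
 860073506304) (.ev (nat_lit 96) (nat_lit 79524135392) .dd))) (.br (nat_lit 19) (.ch (nat_lit 18) (.ev (nat_lit
 52) (nat_lit 936307204448) (.ev (nat_lit 116) (nat_lit 128) (.ev (nat_lit 320) (nat_lit 3290437120) .dd))))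
 (.ch (nat_lit 19) (.ev (nat_lit 52) (nat_lit 825781006976) (.ev (nat_lit 84) (nat_lit 68719476736) (.ev
 (nat_lit 308) (nat_lit 1024) (.ev (nat_lit 564) (nat_lit 8589934592) (.nd (nat_lit 816) (.br (nat_lit 4) (.br
 (nat_lit 1) (.ch (nat_lit 0) (.ev (nat_lit 832) (nat_lit 36507222336) (.ev (nat_lit 845) (nat_lit 32) .dd)))
 (.ch (nat_lit 1) (.ev (nat_lit 832) (nat_lit 34359738688) (.ev (nat_lit 932) (nat_lit 2147483648) (.ev
 (nat_lit 941) (nat_lit 32) .dd))))) (.br (nat_lit 9) (.ch (nat_lit 4) (.ev (nat_lit 832) (nat_lit 2147483936)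
 (.fin (nat_lit 576462401572389440)))) (.br (nat_lit 12) (.ch (nat_lit 9) (.ev (nat_lit 832) (nat_lit
 36507222112) (.ev (nat_lit 845) (nat_lit 256) .dd))) (.ch (nat_lit 12) (.ev (nat_lit 832) (nat_lit
 34359738720) (.ev (nat_lit 845) (nat_lit 2147483648) .dd)))))))))))))))) (.br (nat_lit 25) (.br (nat_lit 22)
 (.br (nat_lit 21) (.ch (nat_lit 20) (.ev (nat_lit 52) (nat_lit 72014241824) (.ev (nat_lit 84) (nat_lit
 34359738368) (.ev (nat_lit 160) (nat_lit 833223661504) .dd)))) (.ch (nat_lit 21) (.ev (nat_lit 52) (nat_lit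
 561567113504) (.ev (nat_lit 148) (nat_lit 1024) (.ev (nat_lit 244) (nat_lit 2097152) (.ev (nat_lit 436)
 (nat_lit 4194304) (.ev (nat_lit 628) (nat_lit 4096) (.nd (nat_lit 816) (.br (nat_lit 6) (.br (nat_lit 4) (.ch
 (nat_lit 0) (.ev (nat_lit 832) (nat_lit 377957122688) (.ev (nat_lit 1524) (nat_lit 64) (.ev (nat_lit 1533)
 (nat_lit 67108864) .dd)))) (.br (nat_lit 5) (.ch (nat_lit 4) (.ev (nat_lit 832) (nat_lit 343597383808) (.ev
 (nat_lit 1524) (nat_lit 67108864) (.ev (nat_lit 1620) (nat_lit 34359738368) (.nd (nat_lit 2720) (.br (nat_lit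
 12) (.ch (nat_lit 9) (.fin (nat_lit 576382137174278704))) (.ch (nat_lit 12) (.ev (nat_lit 2736) (nat_lit 576)
 .dd)))))))) (.ch (nat_lit 5) (.ev (nat_lit 832) (nat_lit 34426847808) (.ev (nat_lit 900) (nat_lit
 274877906944) (.fin (nat_lit 576470098169512516))))))) (.br (nat_lit 8) (.ch (nat_lit 6) (.ev (nat_lit 832)
 (nat_lit 343597383872) (.ev (nat_lit 880) (nat_lit 512) (.ev (nat_lit 900) (nat_lit 67108864) (.ev (nat_lit
 909) (nat_lit 34359738368) .dd))))) (.br (nat_lit 9) (.ch (nat_lit 8) (.ev (nat_lit 832) (nat_lit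
 343597383872) (.ev (nat_lit 848) (nat_lit 67108864) (.ev (nat_lit 1524) (nat_lit 512) (.ev (nat_lit 1533)
 (nat_lit 34359738368) .dd))))) (.ch (nat_lit 9) (.ev (nat_lit 832) (nat_lit 103146324672) (.ev (nat_lit 845)
 (nat_lit 274877906944) .dd)))))))))))))) (.br (nat_lit 23) (.ch (nat_lit 22) (.ev (nat_lit 52) (nat_lit
 79457035424) (.ev (nat_lit 84) (nat_lit 67108864) (.ev (nat_lit 116) (nat_lit 549755813888) (.ev (nat_lit 180)
 (nat_lit 34359738368) (.ev (nat_lit 244) (nat_lit 256) (.ev (nat_lit 276) (nat_lit 4194304) (.nd (nat_lit 816)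
 (.br (nat_lit 4) (.br (nat_lit 1) (.ch (nat_lit 0) (.ev (nat_lit 832) (nat_lit 1075839552) (.ev (nat_lit 982)
 (nat_lit 274877911040) .dd))) (.ch (nat_lit 1) (.ev (nat_lit 832) (nat_lit 274880008256) (.ev (nat_lit 900)
 (nat_lit 512) (.ev (nat_lit 909) (nat_lit 1073741824) .dd))))) (.br (nat_lit 6) (.ch (nat_lit 4) (.ev (nat_lit
 832) (nat_lit 274880008704) (.ev (nat_lit 1014) (nat_lit 1073741888) .dd))) (.br (nat_lit 11) (.ch (nat_lit 6)
 (.ev (nat_lit 832) (nat_lit 274877911616) (.ev (nat_lit 1046) (nat_lit 1075838976) .dd))) (.ch (nat_lit 11)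
 (.ev (nat_lit 832) (nat_lit 274877911552) (.ev (nat_lit 1364) (nat_lit 2097152) (.nd (nat_lit 2848) (.br
 (nat_lit 1) (.ch (nat_lit 0) (.ev (nat_lit 2864) (nat_lit 1073741888) .dd)) (.br (nat_lit 2) (.ch (nat_lit 1)
 (.ev (nat_lit 2864) (nat_lit 1073741888) .dd)) (.ch (nat_lit 2) (.fin (nat_lit
 576445908882244143)))))))))))))))))))) (.br (nat_lit 24) (.ch (nat_lit 23) (.ev (nat_lit 52) (nat_lit
 627067459296) (.ev (nat_lit 372) (nat_lit 2147483648) (.ev (nat_lit 628) (nat_lit 274877906944) (.nd (nat_lit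
 816) (.br (nat_lit 8) (.br (nat_lit 4) (.ch (nat_lit 1) (.ev (nat_lit 832) (nat_lit 35433488384) (.ev (nat_lit
 864) (nat_lit 4194304) (.nd (nat_lit 1760) (.br (nat_lit 7) (.ch (nat_lit 6) (.ev (nat_lit 1776) (nat_lit
 67109120) .dd)) (.br (nat_lit 8) (.ch (nat_lit 7) (.ev (nat_lit 1776) (nat_lit 67108864) (.ev (nat_lit 1789)
 (nat_lit 256) .dd))) (.ch (nat_lit 8) (.fin (nat_lit 576487690313613812))))))))) (.br (nat_lit 5) (.ch
 (nat_lit 4) (.ev (nat_lit 832) (nat_lit 1145053184) (.nd (nat_lit 1696) (.br (nat_lit 4) (.ch (nat_lit 3)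
 (.fin (nat_lit 576549263025586792))) (.ch (nat_lit 4) (.ev (nat_lit 1712) (nat_lit 34359738368) (.ev (nat_lit
 1725) (nat_lit 256) .dd))))))) (.ch (nat_lit 5) (.ev (nat_lit 832) (nat_lit 71303424) (.ev (nat_lit 932)
 (nat_lit 8192) (.ev (nat_lit 1440) (nat_lit 34359738368) (.ev (nat_lit 1453) (nat_lit 1073741824) .dd)))))))
 (.br (nat_lit 11) (.br (nat_lit 9) (.ch (nat_lit 8) (.ev (nat_lit 832) (nat_lit 35437674752) (.ev (nat_lit
 1524) (nat_lit 8192) (.ev (nat_lit 1533) (nat_lit 67108864) .dd)))) (.ch (nat_lit 9) (.ev (nat_lit 832)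
 (nat_lit 35504791552) (.ev (nat_lit 845) (nat_lit 256) .dd)))) (.br (nat_lit 12) (.ch (nat_lit 11) (.ev
 (nat_lit 832) (nat_lit 34363941120) (.ev (nat_lit 848) (nat_lit 1140850688) .dd))) (.ch (nat_lit 12) (.ev
 (nat_lit 832) (nat_lit 34431049984) (.ev (nat_lit 845) (nat_lit 1073741824) .dd))))))))))) (.ch (nat_lit 24)
 (.ev (nat_lit 52) (nat_lit 903083988608) (.ev (nat_lit 148) (nat_lit 2147483648) (.ev (nat_lit 276) (nat_lit
 256) (.ev (nat_lit 404) (nat_lit 131072) (.ev (nat_lit 436) (nat_lit 32) (.nd (nat_lit 816) (.br (nat_lit 6)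
 (.br (nat_lit 4) (.ch (nat_lit 0) (.ev (nat_lit 832) (nat_lit 34361843776) (.ev (nat_lit 845) (nat_lit
 4194304) .dd))) (.ch (nat_lit 4) (.ev (nat_lit 832) (nat_lit 6299648) (.fin (nat_lit 576462401572389440)))))
 (.br (nat_lit 8) (.ch (nat_lit 6) (.ev (nat_lit 832) (nat_lit 34363940928) (.ev (nat_lit 845) (nat_lit
 2097152) .dd))) (.br (nat_lit 12) (.ch (nat_lit 8) (.ev (nat_lit 832) (nat_lit 34366029888) (.ev (nat_lit 845)
 (nat_lit 8192) .dd))) (.ch (nat_lit 12) (.ev (nat_lit 832) (nat_lit 34359746624) (.ev (nat_lit 932) (nat_lit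
 4194304) (.ev (nat_lit 941) (nat_lit 2097152) .dd))))))))))))))))) (.br (nat_lit 27) (.br (nat_lit 26) (.ch
 (nat_lit 25) (.ev (nat_lit 52) (nat_lit 652906463232) (.ev (nat_lit 276) (nat_lit 8704) (.ev (nat_lit 308)
 (nat_lit 256) (.ev (nat_lit 404) (nat_lit 274877906944) (.ev (nat_lit 436) (nat_lit 1024) (.ev (nat_lit 468)
 (nat_lit 8589934592) (.ev (nat_lit 596) (nat_lit 4096) (.nd (nat_lit 816) (.br (nat_lit 6) (.br (nat_lit 1)
 (.ch (nat_lit 0) (.ev (nat_lit 832) (nat_lit 3223322816) (.ev (nat_lit 845) (nat_lit 32) .dd))) (.br (nat_lit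
 5) (.ch (nat_lit 1) (.ev (nat_lit 832) (nat_lit 128) (.ev (nat_lit 932) (nat_lit 1073741824) (.ev (nat_lit
 964) (nat_lit 2147483648) (.ev (nat_lit 1524) (nat_lit 32) (.nd (nat_lit 2048) (.br (nat_lit 1) (.ch (nat_lit
 0) (.fin (nat_lit 576368943070396940))) (.ch (nat_lit 1) (.ev (nat_lit 2064) (nat_lit 2097216) .dd)))))))))
 (.ch (nat_lit 5) (.ev (nat_lit 832) (nat_lit 2149580896) (.ev (nat_lit 1552) (nat_lit 1073741824) (.ev
 (nat_lit 1565) (nat_lit 128) .dd)))))) (.br (nat_lit 9) (.ch (nat_lit 6) (.ev (nat_lit 832) (nat_lit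
 1073742016) (.ev (nat_lit 900) (nat_lit 32) (.ev (nat_lit 932) (nat_lit 2147483648) (.ev (nat_lit 941)
 (nat_lit 2097152) .dd))))) (.br (nat_lit 11) (.ch (nat_lit 9) (.ev (nat_lit 832) (nat_lit 2149580960) (.ev
 (nat_lit 900) (nat_lit 64) (.ev (nat_lit 909) (nat_lit 1073741824) .dd)))) (.ch (nat_lit 11) (.ev (nat_lit
 832) (nat_lit 1073741888) (.ev (nat_lit 848) (nat_lit 32) (.ev (nat_lit 900) (nat_lit 2147483648) (.nd
 (nat_lit 1696) (.br (nat_lit 12) (.ch (nat_lit 1) (.ev (nat_lit 1712) (nat_lit 2097152) (.ev (nat_lit 1725)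
 (nat_lit 128) .dd))) (.ch (nat_lit 12) (.fin (nat_lit 576492088339153408))))))))))))))))))))) (.ch (nat_lit
 26) (.ev (nat_lit 52) (nat_lit 860136408480) (.ev (nat_lit 372) (nat_lit 4194304) (.ev (nat_lit 404) (nat_lit
 8589934592) (.ev (nat_lit 468) (nat_lit 131072) (.ev (nat_lit 532) (nat_lit 4096) (.nd (nat_lit 816) (.br
 (nat_lit 6) (.br (nat_lit 4) (.ch (nat_lit 0) (.ev (nat_lit 832) (nat_lit 2147492416) (.ev (nat_lit 845)
 (nat_lit 68719476736) .dd))) (.br (nat_lit 5) (.ch (nat_lit 4) (.ev (nat_lit 832) (nat_lit 70866968576) (.nd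
 (nat_lit 1728) (.br (nat_lit 9) (.ch (nat_lit 6) (.ev (nat_lit 1744) (nat_lit 64) (.ev (nat_lit 1757) (nat_lit
 512) .dd))) (.ch (nat_lit 9) (.fin (nat_lit 576540466947244624))))))) (.ch (nat_lit 5) (.ev (nat_lit 832)
 (nat_lit 70866960960) (.ev (nat_lit 845) (nat_lit 8192) .dd))))) (.br (nat_lit 9) (.br (nat_lit 8) (.ch
 (nat_lit 6) (.ev (nat_lit 832) (nat_lit 68719484992) (.nd (nat_lit 1792) (.br (nat_lit 7) (.ch (nat_lit 4)
 (.ev (nat_lit 1808) (nat_lit 2147483648) (.ev (nat_lit 1821) (nat_lit 512) .dd))) (.br (nat_lit 12) (.ch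
 (nat_lit 7) (.ev (nat_lit 1808) (nat_lit 2147484160) .dd)) (.ch (nat_lit 12) (.fin (nat_lit
 576456904017396268)))))))) (.ch (nat_lit 8) (.ev (nat_lit 832) (nat_lit 70866960448) (.ev (nat_lit 1588)
 (nat_lit 8192) (.ev (nat_lit 1597) (nat_lit 512) .dd))))) (.br (nat_lit 11) (.ch (nat_lit 9) (.ev (nat_lit
 832) (nat_lit 70866969152) .dd)) (.ch (nat_lit 11) (.ev (nat_lit 832) (nat_lit 70866960896) (.ev (nat_lit
 1252) (nat_lit 64) (.ev (nat_lit 1261) (nat_lit 8192) .dd))))))))))))))) (.br (nat_lit 28) (.ch (nat_lit 27)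
 (.ev (nat_lit 52) (nat_lit 68723806336) (.ev (nat_lit 116) (nat_lit 34359738368) (.ev (nat_lit 180) (nat_lit
 67108864) (.ev (nat_lit 276) (nat_lit 1024) (.ev (nat_lit 436) (nat_lit 2097408) (.ev (nat_lit 692) (nat_lit
 274877906944) (.nd (nat_lit 816) (.br (nat_lit 6) (.br (nat_lit 1) (.ch (nat_lit 0) (.ev (nat_lit 832)
 (nat_lit 561566982720) (.ev (nat_lit 845) (nat_lit 32) .dd))) (.br (nat_lit 5) (.ch (nat_lit 1) (.ev (nat_lit
 832) (nat_lit 1073750592) (.ev (nat_lit 900) (nat_lit 8589934592) (.ev (nat_lit 1568) (nat_lit 32) (.nd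
 (nat_lit 2112) (.br (nat_lit 2) (.ch (nat_lit 1) (.ev (nat_lit 2128) (nat_lit 549755813888) (.ev (nat_lit
 2141) (nat_lit 2147483648) .dd))) (.ch (nat_lit 2) (.fin (nat_lit 576461302160376392))))))))) (.ch (nat_lit 5)
 (.ev (nat_lit 832) (nat_lit 11811160672) (.ev (nat_lit 1108) (nat_lit 549755813888) (.ev (nat_lit 1117)
 (nat_lit 8192) .dd)))))) (.br (nat_lit 9) (.br (nat_lit 8) (.ch (nat_lit 6) (.ev (nat_lit 832) (nat_lit
 559419498592) (.nd (nat_lit 1824) (.br (nat_lit 12) (.ch (nat_lit 5) (.ev (nat_lit 1840) (nat_lit 512) (.ev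
 (nat_lit 1853) (nat_lit 2147483648) .dd))) (.ch (nat_lit 12) (.fin (nat_lit 576456904017396268))))))) (.ch
 (nat_lit 8) (.ev (nat_lit 832) (nat_lit 561566974528) (.ev (nat_lit 1488) (nat_lit 32) (.ev (nat_lit 1501)
 (nat_lit 8192) .dd))))) (.br (nat_lit 11) (.ch (nat_lit 9) (.ev (nat_lit 832) (nat_lit 10737426944) (.ev
 (nat_lit 848) (nat_lit 550829555808) .dd))) (.ch (nat_lit 11) (.ev (nat_lit 832) (nat_lit 558345749024) (.ev
 (nat_lit 1204) (nat_lit 8192) (.ev (nat_lit 1588) (nat_lit 2147483648) (.nd (nat_lit 2752) (.br (nat_lit 4)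
 (.ch (nat_lit 2) (.fin (nat_lit 576445908882244143))) (.br (nat_lit 6) (.ch (nat_lit 4) (.ev (nat_lit 2768)
 (nat_lit 1073741888) .dd)) (.ch (nat_lit 6) (.ev (nat_lit 2768) (nat_lit 1073741888) .dd))))))))))))))))))))
 (.br (nat_lit 29) (.ch (nat_lit 28) (.ev (nat_lit 52) (nat_lit 388698746944) (.ev (nat_lit 84) (nat_lit
 549755813888) (.ev (nat_lit 276) (nat_lit 32) (.ev (nat_lit 628) (nat_lit 131072) (.nd (nat_lit 816) (.br
 (nat_lit 8) (.br (nat_lit 5) (.ch (nat_lit 1) (.ev (nat_lit 832) (nat_lit 1664) (.ev (nat_lit 912) (nat_lit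
 1073741824) (.ev (nat_lit 1284) (nat_lit 2097152) (.nd (nat_lit 1984) (.br (nat_lit 8) (.ch (nat_lit 1) (.ev
 (nat_lit 2000) (nat_lit 67109120) .dd)) (.ch (nat_lit 8) (.fin (nat_lit 576434913807909516))))))))) (.br
 (nat_lit 6) (.ch (nat_lit 5) (.ev (nat_lit 832) (nat_lit 1142948736) (.ev (nat_lit 845) (nat_lit 1024) .dd)))
 (.ch (nat_lit 6) (.ev (nat_lit 832) (nat_lit 1920) (.ev (nat_lit 848) (nat_lit 1073741824) (.ev (nat_lit 1094)
 (nat_lit 2097152) (.ev (nat_lit 1101) (nat_lit 67108864) .dd))))))) (.br (nat_lit 9) (.ch (nat_lit 8) (.ev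
 (nat_lit 832) (nat_lit 1142948096) (.ev (nat_lit 912) (nat_lit 128) (.ev (nat_lit 1312) (nat_lit 1536) .dd))))
 (.br (nat_lit 11) (.ch (nat_lit 9) (.ev (nat_lit 832) (nat_lit 69207680) (.ev (nat_lit 1412) (nat_lit 256)
 (.ev (nat_lit 1421) (nat_lit 1073741824) .dd)))) (.ch (nat_lit 11) (.ev (nat_lit 832) (nat_lit 768) (.ev
 (nat_lit 880) (nat_lit 67108864) (.ev (nat_lit 1172) (nat_lit 1024) (.ev (nat_lit 1252) (nat_lit 1073741824)
 (.nd (nat_lit 2144) (.br (nat_lit 12) (.ch (nat_lit 0) (.ev (nat_lit 2160) (nat_lit 128) (.ev (nat_lit 2173)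
 (nat_lit 2097152) .dd))) (.ch (nat_lit 12) (.fin (nat_lit 576492088339153408))))))))))))))))))) (.ch (nat_lit
 29) (.ev (nat_lit 52) (nat_lit 285682446656) (.ev (nat_lit 84) (nat_lit 128) (.ev (nat_lit 148) (nat_lit
 2097152) (.ev (nat_lit 180) (nat_lit 68719476736) (.ev (nat_lit 308) (nat_lit 512) (.ev (nat_lit 340) (nat_lit
 1073741824) (.ev (nat_lit 532) (nat_lit 131072) (.nd (nat_lit 816) (.br (nat_lit 8) (.br (nat_lit 5) (.ch
 (nat_lit 4) (.ev (nat_lit 832) (nat_lit 4195328) (.ev (nat_lit 912) (nat_lit 549755813888) (.ev (nat_lit 1382)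
 (nat_lit 32) (.ev (nat_lit 1389) (nat_lit 34359738368) .dd))))) (.br (nat_lit 6) (.ch (nat_lit 5) (.ev
 (nat_lit 832) (nat_lit 34363933728) (.ev (nat_lit 845) (nat_lit 549755813888) .dd))) (.ch (nat_lit 6) (.ev
 (nat_lit 832) (nat_lit 4195328) (.ev (nat_lit 1220) (nat_lit 34359738368) (.ev (nat_lit 1424) (nat_lit
 549755813888) (.ev (nat_lit 1437) (nat_lit 32) .dd))))))) (.br (nat_lit 9) (.ch (nat_lit 8) (.ev (nat_lit 832)
 (nat_lit 4194304) (.ev (nat_lit 880) (nat_lit 32) (.ev (nat_lit 1456) (nat_lit 549755813888) (.nd (nat_lit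
 2464) (.br (nat_lit 11) (.ch (nat_lit 1) (.ev (nat_lit 2480) (nat_lit 1024) (.ev (nat_lit 2493) (nat_lit
 34359738368) .dd))) (.ch (nat_lit 11) (.fin (nat_lit 576368943097659916))))))))) (.br (nat_lit 11) (.ch
 (nat_lit 9) (.ev (nat_lit 832) (nat_lit 584115552288) (.fin (nat_lit 576461302042935864)))) (.ch (nat_lit 11)
 (.ev (nat_lit 832) (nat_lit 584119747616) .dd)))))))))))))))))))))

/-- The trie. -/
noncomputable def T : Tr := .nd (nat_lit 1000000) (.br (nat_lit 3) (.br (nat_lit 1) (.ch (nat_lit 0) (.ev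
 (nat_lit 0) (nat_lit 8796093022207) .dd)) (.br (nat_lit 2) (.ch (nat_lit 1) (.ev (nat_lit 0) (nat_lit
 8796093022207) .dd)) (.ch (nat_lit 2) T2))) (.br (nat_lit 4) (.ch (nat_lit 3) (.ev (nat_lit 0) (nat_lit
 8796093022207) .dd)) (.br (nat_lit 5) (.ch (nat_lit 4) T4) (.ch (nat_lit 5) T5))))

/-- The possible values. -/
noncomputable def oks : List ℕ := [3, 610, 706, 1140, 18178]

/-- The parameters. -/
noncomputable def S : Pr := ⟨fun i l e => lget mz (lget [] (lget [] tabs i) l) e, oks, [(nat_lit 0), (nat_lit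
 1), (nat_lit 0), (nat_lit 0)], T, (nat_lit 8796093022207), (nat_lit 3303796230157), (nat_lit 43), [(nat_lit
 11), (nat_lit 1073946281)], [(nat_lit 2197), (nat_lit 961)]⟩

/-- Nothing known. -/
noncomputable def cs0 : Cs := (.cons (nat_lit 13) (nat_lit 0) (nat_lit 1) (.cons (nat_lit 31) (nat_lit 0) (nat_lit 1) .nil))

theorem part_2 : part S cs0 (nat_lit 2) = true := by decide +kernel

theorem part_4 : part S cs0 (nat_lit 4) = true := by decide +kernel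

theorem part_5 : part S cs0 (nat_lit 5) = true := by decide +kernel

/-- Data of a prime. -/
noncomputable def D0 : PD := ⟨(nat_lit 13), (nat_lit 3), (963, 6, 3), (1541, 898, 2148), (848, 1279, 820)⟩

theorem D0_ok : D0.Ok := pdb_sound (s := 2) (C := ⟨⟨3, 18, -4, -17, 2, 1, 2, -1, -7⟩, (3, 9, 2)⟩) (by show Nat.Prime 13; norm_num) (by decide +kernel)

/-- Lines of the first type. -/
noncomputable def Cl0 : List C1 := [⟨⟨17, -2, -16, 3, 18, 1, -2, 1, -5⟩, (10, 1, 8)⟩,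
  ⟨⟨3, -18, -4, -17, -2, 1, 2, 1, -7⟩, (5, 2, 12)⟩,
  ⟨⟨0, 0, 0, 0, 0, 0, 0, 0, 0⟩, (0, 0, 0)⟩,
  ⟨⟨17, 2, -16, 3, -18, 1, -2, -1, -5⟩, (8, 6, 9)⟩,
  ⟨⟨0, 0, 0, 0, 0, 0, 0, 0, 0⟩, (0, 0, 0)⟩,
  ⟨⟨0, 0, 0, 0, 0, 0, 0, 0, 0⟩, (0, 0, 0)⟩,
  ⟨⟨0, 0, 0, 0, 0, 0, 0, 0, 0⟩, (0, 0, 0)⟩,
  ⟨⟨0, 0, 0, 0, 0, 0, 0, 0, 0⟩, (0, 0, 0)⟩,
  ⟨⟨0, 0, 0, 0, 0, 0, 0, 0, 0⟩, (0, 0, 0)⟩,
  ⟨⟨0, 0, 0, 0, 0, 0, 0, 0, 0⟩, (0, 0, 0)⟩,
  ⟨⟨0, 0, 0, 0, 0, 0, 0, 0, 0⟩, (0, 0, 0)⟩,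
  ⟨⟨0, 0, 0, 0, 0, 0, 0, 0, 0⟩, (0, 0, 0)⟩,
  ⟨⟨0, 0, 0, 0, 0, 0, 0, 0, 0⟩, (0, 0, 0)⟩]

/-- Data of a prime. -/
noncomputable def D1 : PD := ⟨(nat_lit 31), (nat_lit 2), (435, 8, 13), (281, 829, 278), (666, 926, 286)⟩

theorem D1_ok : D1.Ok := pdb_sound (s := 3) (C := ⟨⟨11, 26, -43, -19, 34, 32, -12, -3, -1⟩, (11, 12, 19)⟩) (by show Nat.Prime 31; norm_num) (by decide +kernel)

/-- Lines of the first type. -/
noncomputable def Cl1 : List C1 := [⟨⟨-11, -26, -32, 19, -34, 13, 12, 3, -13⟩, (22, 24, 7)⟩,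
  ⟨⟨0, 0, 0, 0, 0, 0, 0, 0, 0⟩, (0, 0, 0)⟩,
  ⟨⟨0, 0, 0, 0, 0, 0, 0, 0, 0⟩, (0, 0, 0)⟩,
  ⟨⟨29, 26, -37, 21, 6, 32, 8, -11, -7⟩, (2, 10, 23)⟩,
  ⟨⟨0, 0, 0, 0, 0, 0, 0, 0, 0⟩, (0, 0, 0)⟩,
  ⟨⟨21, 6, -53, 29, 26, 8, 8, -11, -1⟩, (6, 26, 20)⟩,
  ⟨⟨0, 0, 0, 0, 0, 0, 0, 0, 0⟩, (0, 0, 0)⟩,
  ⟨⟨29, -26, -37, 21, -6, 32, 8, 11, -7⟩, (27, 11, 16)⟩,
  ⟨⟨0, 0, 0, 0, 0, 0, 0, 0, 0⟩, (0, 0, 0)⟩,
  ⟨⟨-9, -6, -43, -41, 14, 28, 4, 13, -5⟩, (4, 1, 12)⟩,
  ⟨⟨9, -6, -52, -41, -14, 13, -4, 13, -1⟩, (29, 16, 25)⟩,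
  ⟨⟨21, -6, -53, 29, -26, 8, 8, 11, -1⟩, (7, 20, 13)⟩,
  ⟨⟨9, 6, -52, -41, 14, 13, -4, -13, -1⟩, (28, 24, 22)⟩,
  ⟨⟨0, 0, 0, 0, 0, 0, 0, 0, 0⟩, (0, 0, 0)⟩,
  ⟨⟨0, 0, 0, 0, 0, 0, 0, 0, 0⟩, (0, 0, 0)⟩,
  ⟨⟨0, 0, 0, 0, 0, 0, 0, 0, 0⟩, (0, 0, 0)⟩,
  ⟨⟨11, -26, -43, -19, -34, 32, -12, 3, -1⟩, (25, 16, 15)⟩,
  ⟨⟨-9, 6, -43, -41, -14, 28, 4, -13, -5⟩, (3, 24, 9)⟩,
  ⟨⟨0, 0, 0, 0, 0, 0, 0, 0, 0⟩, (0, 0, 0)⟩,
  ⟨⟨0, 0, 0, 0, 0, 0, 0, 0, 0⟩, (0, 0, 0)⟩,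
  ⟨⟨0, 0, 0, 0, 0, 0, 0, 0, 0⟩, (0, 0, 0)⟩,
  ⟨⟨0, 0, 0, 0, 0, 0, 0, 0, 0⟩, (0, 0, 0)⟩,
  ⟨⟨0, 0, 0, 0, 0, 0, 0, 0, 0⟩, (0, 0, 0)⟩,
  ⟨⟨0, 0, 0, 0, 0, 0, 0, 0, 0⟩, (0, 0, 0)⟩,
  ⟨⟨0, 0, 0, 0, 0, 0, 0, 0, 0⟩, (0, 0, 0)⟩,
  ⟨⟨0, 0, 0, 0, 0, 0, 0, 0, 0⟩, (0, 0, 0)⟩,
  ⟨⟨0, 0, 0, 0, 0, 0, 0, 0, 0⟩, (0, 0, 0)⟩,
  ⟨⟨0, 0, 0, 0, 0, 0, 0, 0, 0⟩, (0, 0, 0)⟩,
  ⟨⟨0, 0, 0, 0, 0, 0, 0, 0, 0⟩, (0, 0, 0)⟩,
  ⟨⟨0, 0, 0, 0, 0, 0, 0, 0, 0⟩, (0, 0, 0)⟩,
  ⟨⟨-11, 26, -32, 19, 34, 13, 12, -3, -13⟩, (28, 8, 23)⟩]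

/-- Data of a prime. -/
noncomputable def Dm : PD := ⟨(nat_lit 43), (nat_lit 2), (989, 1, 17), (1652, 774, 636), (172, 5, 130)⟩

theorem Dm_ok : Dm.Ok := pdb_sound (s := 1) (C := ⟨⟨43, -38, -44, 43, 38, 1, 0, 9, -19⟩, (5, 38, 9)⟩) (by show Nat.Prime 43; norm_num) (by decide +kernel)

/-- Lines of the first type. -/
noncomputable def Clm : List C1 := [⟨⟨43, 38, -44, 43, -38, 1, 0, -9, -19⟩, (42, 1, 24)⟩,
  ⟨⟨0, 0, 0, 0, 0, 0, 0, 0, 0⟩, (0, 0, 0)⟩,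
  ⟨⟨57, -18, -16, -17, -58, 1, 4, 1, -23⟩, (41, 27, 24)⟩,
  ⟨⟨7, -38, -56, -33, -42, 49, -16, 7, -1⟩, (28, 40, 22)⟩,
  ⟨⟨0, 0, 0, 0, 0, 0, 0, 0, 0⟩, (0, 0, 0)⟩,
  ⟨⟨0, 0, 0, 0, 0, 0, 0, 0, 0⟩, (0, 0, 0)⟩,
  ⟨⟨0, 0, 0, 0, 0, 0, 0, 0, 0⟩, (0, 0, 0)⟩,
  ⟨⟨0, 0, 0, 0, 0, 0, 0, 0, 0⟩, (0, 0, 0)⟩,
  ⟨⟨0, 0, 0, 0, 0, 0, 0, 0, 0⟩, (0, 0, 0)⟩,
  ⟨⟨0, 0, 0, 0, 0, 0, 0, 0, 0⟩, (0, 0, 0)⟩,
  ⟨⟨0, 0, 0, 0, 0, 0, 0, 0, 0⟩, (0, 0, 0)⟩,
  ⟨⟨27, -18, -71, -53, -22, 4, -4, 17, -7⟩, (6, 36, 23)⟩,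
  ⟨⟨0, 0, 0, 0, 0, 0, 0, 0, 0⟩, (0, 0, 0)⟩,
  ⟨⟨0, 0, 0, 0, 0, 0, 0, 0, 0⟩, (0, 0, 0)⟩,
  ⟨⟨-7, -2, -64, -47, -38, 31, 12, -15, -7⟩, (37, 15, 41)⟩,
  ⟨⟨-7, 2, -64, -47, 38, 31, 12, 15, -7⟩, (3, 14, 1)⟩,
  ⟨⟨-7, 38, -49, 33, 42, 16, 16, -7, -17⟩, (27, 14, 12)⟩,
  ⟨⟨0, 0, 0, 0, 0, 0, 0, 0, 0⟩, (0, 0, 0)⟩,
  ⟨⟨0, 0, 0, 0, 0, 0, 0, 0, 0⟩, (0, 0, 0)⟩,
  ⟨⟨57, 18, -16, -17, 58, 1, 4, -1, -23⟩, (36, 30, 41)⟩,
  ⟨⟨53, 22, -49, 27, -18, 44, 4, -17, -11⟩, (6, 42, 11)⟩,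
  ⟨⟨0, 0, 0, 0, 0, 0, 0, 0, 0⟩, (0, 0, 0)⟩,
  ⟨⟨0, 0, 0, 0, 0, 0, 0, 0, 0⟩, (0, 0, 0)⟩,
  ⟨⟨27, 18, -71, -53, 22, 4, -4, -17, -7⟩, (1, 6, 11)⟩,
  ⟨⟨57, -18, -41, -17, -58, 16, -4, -1, -19⟩, (7, 13, 41)⟩,
  ⟨⟨0, 0, 0, 0, 0, 0, 0, 0, 0⟩, (0, 0, 0)⟩,
  ⟨⟨0, 0, 0, 0, 0, 0, 0, 0, 0⟩, (0, 0, 0)⟩,
  ⟨⟨7, 38, -56, -33, 42, 49, -16, -7, -1⟩, (27, 14, 12)⟩,
  ⟨⟨7, 2, -71, -47, -38, 16, 12, -15, -5⟩, (3, 29, 42)⟩,
  ⟨⟨7, -2, -71, -47, 38, 16, 12, 15, -5⟩, (37, 28, 2)⟩,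
  ⟨⟨0, 0, 0, 0, 0, 0, 0, 0, 0⟩, (0, 0, 0)⟩,
  ⟨⟨0, 0, 0, 0, 0, 0, 0, 0, 0⟩, (0, 0, 0)⟩,
  ⟨⟨53, -22, -49, 27, 18, 44, 4, 17, -11⟩, (36, 37, 23)⟩,
  ⟨⟨0, 0, 0, 0, 0, 0, 0, 0, 0⟩, (0, 0, 0)⟩,
  ⟨⟨0, 0, 0, 0, 0, 0, 0, 0, 0⟩, (0, 0, 0)⟩,
  ⟨⟨0, 0, 0, 0, 0, 0, 0, 0, 0⟩, (0, 0, 0)⟩,
  ⟨⟨0, 0, 0, 0, 0, 0, 0, 0, 0⟩, (0, 0, 0)⟩,
  ⟨⟨0, 0, 0, 0, 0, 0, 0, 0, 0⟩, (0, 0, 0)⟩,
  ⟨⟨0, 0, 0, 0, 0, 0, 0, 0, 0⟩, (0, 0, 0)⟩,
  ⟨⟨0, 0, 0, 0, 0, 0, 0, 0, 0⟩, (0, 0, 0)⟩,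
  ⟨⟨-7, -38, -49, 33, -42, 16, 16, 7, -17⟩, (28, 40, 22)⟩,
  ⟨⟨57, 18, -41, -17, 58, 16, -4, 1, -19⟩, (2, 16, 24)⟩,
  ⟨⟨0, 0, 0, 0, 0, 0, 0, 0, 0⟩, (0, 0, 0)⟩]

/-- Unit moves. -/
noncomputable def U : List Mv := [mz,
  mz,
  mz,
  mz,
  mz,
  mz,
  ⟨⟨-1, 0, 1, 0, 1, 0, 0, 0, 1⟩, .nil, (nat_lit 12), (nat_lit 1), (nat_lit 4), (nat_lit 1), (0, 0, 0), [], 5⟩,
  ⟨⟨1, 0, 0, 0, -1, 0, 0, 0, 1⟩, .nil, (nat_lit 12), (nat_lit 3), (nat_lit 12), (nat_lit 1), (0, 0, 0), [], 11⟩,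
  ⟨⟨-1, 0, 1, 0, -1, 0, 0, 0, 1⟩, .nil, (nat_lit 0), (nat_lit 3), (nat_lit 1), (nat_lit 0), (0, 0, 0), [], 10⟩,
  ⟨⟨1, 0, 0, 0, -1, 0, 0, 0, 1⟩, .nil, (nat_lit 12), (nat_lit 3), (nat_lit 12), (nat_lit 1), (0, 0, 0), [], 11⟩,
  ⟨⟨-1, 0, 1, 0, 1, 0, 0, 0, 1⟩, .nil, (nat_lit 12), (nat_lit 1), (nat_lit 4), (nat_lit 1), (0, 0, 0), [], 5⟩,
  ⟨⟨-1, 0, 1, 0, -1, 0, 0, 0, 1⟩, .nil, (nat_lit 0), (nat_lit 3), (nat_lit 1), (nat_lit 0), (0, 0, 0), [], 10⟩,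
  ⟨⟨1, 0, 0, 0, -1, 0, 0, 0, 1⟩, .nil, (nat_lit 12), (nat_lit 3), (nat_lit 12), (nat_lit 1), (0, 0, 0), [], 11⟩]

theorem v_ty : tyb Dm S.ty1 Clm = true := by decide +kernel

theorem v_ty0 : tyb D0 (S.tys.getD 0 0) Cl0 = true := by decide +kernel

theorem v_ty1 : tyb D1 (S.tys.getD 1 0) Cl1 = true := by decide +kernel

theorem v_msc : mscb S D0 [D1] Dm (nat_lit 52) = true := by decide +kernel

theorem v_mv0 : mvsn (nat_lit 3903825133) S D0 [D1] Dm (nat_lit 52) 0 D0 = true := by decide +kernel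

theorem v_mv1 : mvsn (nat_lit 3903825133) S D0 [D1] Dm (nat_lit 52) 1 D1 = true := by decide +kernel

theorem v_mm : mmsn (nat_lit 3903825133) S D0 [D1] Dm (nat_lit 52) = true := by decide +kernel

theorem v_un : unb S D0 (nat_lit 52) U = true := by decide +kernel

theorem v_ok : okb S.oks [(0, 0, 0), (0, 0, 0), (0, 0, 0), (0, 0, 0), (0, 0, 0)] = true := by decide +kernel

theorem v_part : ∀ d < D0.p, (nat_lit 52).testBit d = true → part S (zc (D0 :: [D1])) d = true := by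
  intro d hd h
  have h1 : ∀ d < 13, (nat_lit 52).testBit d = true → d = 2 ∨ d = 4 ∨ d = 5 := by decide
  rcases h1 d hd h with rfl | rfl | rfl
  · exact part_2
  · exact part_4
  · exact part_5

theorem main (n : ℕ) (ho : Odd n) (hr : ¬ Rep n) (h0 : Split 13 n) (h1 : Split 31 n) (hm : Split 43 n) :
    n ∈ EE := by
  refine concln (W := nat_lit 3903825133) (S := S) (P0 := D0) (Pl := [D1]) (Pm := Dm) (cn := nat_lit 52) ?_ Dm_ok v_ty ?_ ?_ v_msc ?_ v_mm v_un v_part v_ok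
    n ho hr ?_ hm
  · simp only [List.forall_mem_cons]
    exact ⟨D0_ok, D1_ok, fun _ h => absurd h (by simp)⟩
  · exact all2 (φ := fun j P => ∃ L, tyb P (S.tys.getD j 0) L = true) ⟨_, v_ty0⟩ ⟨_, v_ty1⟩
  · exact all2 (φ := fun j P => Nat.ble (S.pks.getD j 0) (Nat.pow P.p P.K) = true) (by decide +kernel) (by decide +kernel)
  · exact all2 (φ := fun i P => mvsn (nat_lit 3903825133) S D0 [D1] Dm (nat_lit 52) i P = true) v_mv0 v_mv1
  · simp only [List.forall_mem_cons]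
    exact ⟨h0, h1, fun _ h => absurd h (by simp)⟩

end Pool.Agent.Work.MP_9954fe_nt.P13_31_43

namespace Pool.Agent.Work.MP_9954fe_nt.P19_31_47

/-- Dummy move. -/
noncomputable def mz : Mv := ⟨⟨0, 0, 0, 0, 0, 0, 0, 0, 0⟩, .nil, (nat_lit 0), (nat_lit 0), (nat_lit 0), (nat_lit 0), (0, 0, 0), [], 0⟩

/-- Moves. -/
noncomputable def t0_1 : List Mv := [
  ⟨⟨15, -4, -23, -10, 9, -10, 12, 12, -7⟩, (.cons (nat_lit 177) (nat_lit 313) (nat_lit 238) (nat_lit 1) (.cons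
 (nat_lit 763) (nat_lit 586) (nat_lit 955) (nat_lit 1) .nil)), (nat_lit 6), (nat_lit 2), (nat_lit 9), (nat_lit
 1), (18, 7, 3), [49, 577], 7⟩,
  ⟨⟨15, -4, -23, 10, -9, 10, 12, 12, -7⟩, (.cons (nat_lit 317) (nat_lit 293) (nat_lit 1) (nat_lit 190) (.cons
 (nat_lit 813) (nat_lit 886) (nat_lit 38) (nat_lit 1) .nil)), (nat_lit 1), (nat_lit 21), (nat_lit 3), (nat_lit
 1), (18, 12, 3), [350, 556], 3⟩,
  ⟨⟨15, -4, -23, -10, 9, -10, 12, 12, -7⟩, (.cons (nat_lit 177) (nat_lit 313) (nat_lit 238) (nat_lit 1) (.cons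
 (nat_lit 763) (nat_lit 586) (nat_lit 955) (nat_lit 1) .nil)), (nat_lit 6), (nat_lit 2), (nat_lit 9), (nat_lit
 1), (18, 7, 3), [49, 577], 7⟩,
  ⟨⟨15, -4, -23, -10, 9, -10, 12, 12, -7⟩, (.cons (nat_lit 177) (nat_lit 313) (nat_lit 238) (nat_lit 1) (.cons
 (nat_lit 763) (nat_lit 586) (nat_lit 955) (nat_lit 1) .nil)), (nat_lit 6), (nat_lit 2), (nat_lit 9), (nat_lit
 1), (18, 7, 3), [49, 577], 7⟩,
  ⟨⟨-3, 16, 16, 10, -9, 10, 12, 12, -7⟩, (.cons (nat_lit 235) (nat_lit 147) (nat_lit 254) (nat_lit 1) (.cons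
 (nat_lit 960) (nat_lit 615) (nat_lit 903) (nat_lit 1) .nil)), (nat_lit 46), (nat_lit 26), (nat_lit 3),
 (nat_lit 1), (4, 12, 3), [80, 206], 3⟩,
  ⟨⟨15, -4, -23, -10, 9, -10, 12, 12, -7⟩, (.cons (nat_lit 177) (nat_lit 313) (nat_lit 238) (nat_lit 1) (.cons
 (nat_lit 763) (nat_lit 586) (nat_lit 955) (nat_lit 1) .nil)), (nat_lit 6), (nat_lit 2), (nat_lit 9), (nat_lit
 1), (18, 7, 3), [49, 577], 7⟩,
  ⟨⟨15, -4, -23, 10, -9, 10, 12, 12, -7⟩, (.cons (nat_lit 317) (nat_lit 293) (nat_lit 1) (nat_lit 190) (.cons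
 (nat_lit 813) (nat_lit 886) (nat_lit 38) (nat_lit 1) .nil)), (nat_lit 1), (nat_lit 21), (nat_lit 3), (nat_lit
 1), (18, 12, 3), [350, 556], 3⟩,
  ⟨⟨-3, 16, 16, -10, 9, -10, 12, 12, -7⟩, (.cons (nat_lit 296) (nat_lit 76) (nat_lit 194) (nat_lit 1) (.cons (nat_lit 879) (nat_lit 378) (nat_lit 784) (nat_lit 1) .nil)), (nat_lit 41), (nat_lit 45), (nat_lit 9), (nat_lit 1), (4, 7, 3), [8, 786], 7⟩,
  ⟨⟨15, -4, -23, -10, 9, -10, 12, 12, -7⟩, (.cons (nat_lit 177) (nat_lit 313) (nat_lit 238) (nat_lit 1) (.cons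
 (nat_lit 763) (nat_lit 586) (nat_lit 955) (nat_lit 1) .nil)), (nat_lit 6), (nat_lit 2), (nat_lit 9), (nat_lit
 1), (18, 7, 3), [49, 577], 7⟩,
  ⟨⟨15, -4, -23, -10, 9, -10, 12, 12, -7⟩, (.cons (nat_lit 177) (nat_lit 313) (nat_lit 238) (nat_lit 1) (.cons
 (nat_lit 763) (nat_lit 586) (nat_lit 955) (nat_lit 1) .nil)), (nat_lit 6), (nat_lit 2), (nat_lit 9), (nat_lit
 1), (18, 7, 3), [49, 577], 7⟩,
  ⟨⟨15, -4, -23, -10, 9, -10, 12, 12, -7⟩, (.cons (nat_lit 177) (nat_lit 313) (nat_lit 238) (nat_lit 1) (.cons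
 (nat_lit 763) (nat_lit 586) (nat_lit 955) (nat_lit 1) .nil)), (nat_lit 6), (nat_lit 2), (nat_lit 9), (nat_lit
 1), (18, 7, 3), [49, 577], 7⟩,
  ⟨⟨-3, 16, 16, -10, 9, -10, 12, 12, -7⟩, (.cons (nat_lit 296) (nat_lit 76) (nat_lit 194) (nat_lit 1) (.cons (nat_lit 879) (nat_lit 378) (nat_lit 784) (nat_lit 1) .nil)), (nat_lit 41), (nat_lit 45), (nat_lit 9), (nat_lit 1), (4, 7, 3), [8, 786], 7⟩,
  ⟨⟨15, -4, -23, 10, -9, 10, 12, 12, -7⟩, (.cons (nat_lit 317) (nat_lit 293) (nat_lit 1) (nat_lit 190) (.cons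
 (nat_lit 813) (nat_lit 886) (nat_lit 38) (nat_lit 1) .nil)), (nat_lit 1), (nat_lit 21), (nat_lit 3), (nat_lit
 1), (18, 12, 3), [350, 556], 3⟩,
  ⟨⟨15, -4, -23, -10, 9, -10, 12, 12, -7⟩, (.cons (nat_lit 177) (nat_lit 313) (nat_lit 238) (nat_lit 1) (.cons
 (nat_lit 763) (nat_lit 586) (nat_lit 955) (nat_lit 1) .nil)), (nat_lit 6), (nat_lit 2), (nat_lit 9), (nat_lit
 1), (18, 7, 3), [49, 577], 7⟩,
  ⟨⟨15, -4, -23, -10, 9, -10, 12, 12, -7⟩, (.cons (nat_lit 177) (nat_lit 313) (nat_lit 238) (nat_lit 1) (.cons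
 (nat_lit 763) (nat_lit 586) (nat_lit 955) (nat_lit 1) .nil)), (nat_lit 6), (nat_lit 2), (nat_lit 9), (nat_lit
 1), (18, 7, 3), [49, 577], 7⟩,
  ⟨⟨-3, 16, 16, -10, 9, -10, 12, 12, -7⟩, (.cons (nat_lit 296) (nat_lit 76) (nat_lit 194) (nat_lit 1) (.cons (nat_lit 879) (nat_lit 378) (nat_lit 784) (nat_lit 1) .nil)), (nat_lit 41), (nat_lit 45), (nat_lit 9), (nat_lit 1), (4, 7, 3), [8, 786], 7⟩,
  ⟨⟨15, -4, -23, -10, 9, -10, 12, 12, -7⟩, (.cons (nat_lit 177) (nat_lit 313) (nat_lit 238) (nat_lit 1) (.cons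
 (nat_lit 763) (nat_lit 586) (nat_lit 955) (nat_lit 1) .nil)), (nat_lit 6), (nat_lit 2), (nat_lit 9), (nat_lit
 1), (18, 7, 3), [49, 577], 7⟩,
  ⟨⟨15, -4, -23, -10, 9, -10, 12, 12, -7⟩, (.cons (nat_lit 177) (nat_lit 313) (nat_lit 238) (nat_lit 1) (.cons
 (nat_lit 763) (nat_lit 586) (nat_lit 955) (nat_lit 1) .nil)), (nat_lit 6), (nat_lit 2), (nat_lit 9), (nat_lit
 1), (18, 7, 3), [49, 577], 7⟩,
  ⟨⟨-3, 16, 16, 10, -9, 10, 12, 12, -7⟩, (.cons (nat_lit 235) (nat_lit 147) (nat_lit 254) (nat_lit 1) (.cons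
 (nat_lit 960) (nat_lit 615) (nat_lit 903) (nat_lit 1) .nil)), (nat_lit 46), (nat_lit 26), (nat_lit 3),
 (nat_lit 1), (4, 12, 3), [80, 206], 3⟩]

/-- Moves. -/
noncomputable def t0_2 : List Mv := [
  ⟨⟨-11, 12, 20, 16, 5, 2, -2, 16, -5⟩, (.cons (nat_lit 131) (nat_lit 154) (nat_lit 242) (nat_lit 1) (.cons
 (nat_lit 236) (nat_lit 392) (nat_lit 203) (nat_lit 1) .nil)), (nat_lit 18), (nat_lit 26), (nat_lit 5),
 (nat_lit 1), (15, 11, 1), [46, 349], 34⟩,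
  ⟨⟨9, 4, -25, -16, -5, -2, -2, 16, -5⟩, (.cons (nat_lit 274) (nat_lit 291) (nat_lit 265) (nat_lit 1) (.cons (nat_lit 656) (nat_lit 427) (nat_lit 421) (nat_lit 1) .nil)), (nat_lit 10), (nat_lit 2), (nat_lit 26), (nat_lit 1), (5, 8, 1), [52, 753], 1⟩,
  ⟨⟨9, 4, -25, 16, 5, 2, -2, 16, -5⟩, (.cons (nat_lit 314) (nat_lit 176) (nat_lit 235) (nat_lit 1) (.cons (nat_lit 542) (nat_lit 81) (nat_lit 139) (nat_lit 1) .nil)), (nat_lit 29), (nat_lit 21), (nat_lit 5), (nat_lit 1), (5, 11, 1), [253, 852], 34⟩,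
  ⟨⟨9, 4, -25, -16, -5, -2, -2, 16, -5⟩, (.cons (nat_lit 274) (nat_lit 291) (nat_lit 265) (nat_lit 1) (.cons (nat_lit 656) (nat_lit 427) (nat_lit 421) (nat_lit 1) .nil)), (nat_lit 10), (nat_lit 2), (nat_lit 26), (nat_lit 1), (5, 8, 1), [52, 753], 1⟩,
  ⟨⟨9, 4, -25, -16, -5, -2, -2, 16, -5⟩, (.cons (nat_lit 274) (nat_lit 291) (nat_lit 265) (nat_lit 1) (.cons (nat_lit 656) (nat_lit 427) (nat_lit 421) (nat_lit 1) .nil)), (nat_lit 10), (nat_lit 2), (nat_lit 26), (nat_lit 1), (5, 8, 1), [52, 753], 1⟩,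
  ⟨⟨9, 4, -25, 16, 5, 2, -2, 16, -5⟩, (.cons (nat_lit 314) (nat_lit 176) (nat_lit 235) (nat_lit 1) (.cons (nat_lit 542) (nat_lit 81) (nat_lit 139) (nat_lit 1) .nil)), (nat_lit 29), (nat_lit 21), (nat_lit 5), (nat_lit 1), (5, 11, 1), [253, 852], 34⟩,
  ⟨⟨-11, 12, 20, 16, 5, 2, -2, 16, -5⟩, (.cons (nat_lit 131) (nat_lit 154) (nat_lit 242) (nat_lit 1) (.cons
 (nat_lit 236) (nat_lit 392) (nat_lit 203) (nat_lit 1) .nil)), (nat_lit 18), (nat_lit 26), (nat_lit 5),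
 (nat_lit 1), (15, 11, 1), [46, 349], 34⟩,
  ⟨⟨-11, 12, 20, -16, -5, -2, -2, 16, -5⟩, (.cons (nat_lit 108) (nat_lit 314) (nat_lit 59) (nat_lit 1) (.cons
 (nat_lit 702) (nat_lit 673) (nat_lit 735) (nat_lit 1) .nil)), (nat_lit 37), (nat_lit 45), (nat_lit 26),
 (nat_lit 1), (15, 8, 1), [7, 942], 1⟩,
  ⟨⟨9, 4, -25, -16, -5, -2, -2, 16, -5⟩, (.cons (nat_lit 274) (nat_lit 291) (nat_lit 265) (nat_lit 1) (.cons (nat_lit 656) (nat_lit 427) (nat_lit 421) (nat_lit 1) .nil)), (nat_lit 10), (nat_lit 2), (nat_lit 26), (nat_lit 1), (5, 8, 1), [52, 753], 1⟩,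
  ⟨⟨9, 4, -25, -16, -5, -2, -2, 16, -5⟩, (.cons (nat_lit 274) (nat_lit 291) (nat_lit 265) (nat_lit 1) (.cons (nat_lit 656) (nat_lit 427) (nat_lit 421) (nat_lit 1) .nil)), (nat_lit 10), (nat_lit 2), (nat_lit 26), (nat_lit 1), (5, 8, 1), [52, 753], 1⟩,
  ⟨⟨9, 4, -25, -16, -5, -2, -2, 16, -5⟩, (.cons (nat_lit 274) (nat_lit 291) (nat_lit 265) (nat_lit 1) (.cons (nat_lit 656) (nat_lit 427) (nat_lit 421) (nat_lit 1) .nil)), (nat_lit 10), (nat_lit 2), (nat_lit 26), (nat_lit 1), (5, 8, 1), [52, 753], 1⟩,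
  ⟨⟨9, 4, -25, -16, -5, -2, -2, 16, -5⟩, (.cons (nat_lit 274) (nat_lit 291) (nat_lit 265) (nat_lit 1) (.cons (nat_lit 656) (nat_lit 427) (nat_lit 421) (nat_lit 1) .nil)), (nat_lit 10), (nat_lit 2), (nat_lit 26), (nat_lit 1), (5, 8, 1), [52, 753], 1⟩,
  ⟨⟨9, 4, -25, -16, -5, -2, -2, 16, -5⟩, (.cons (nat_lit 274) (nat_lit 291) (nat_lit 265) (nat_lit 1) (.cons (nat_lit 656) (nat_lit 427) (nat_lit 421) (nat_lit 1) .nil)), (nat_lit 10), (nat_lit 2), (nat_lit 26), (nat_lit 1), (5, 8, 1), [52, 753], 1⟩,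
  ⟨⟨-11, 12, 20, -16, -5, -2, -2, 16, -5⟩, (.cons (nat_lit 108) (nat_lit 314) (nat_lit 59) (nat_lit 1) (.cons
 (nat_lit 702) (nat_lit 673) (nat_lit 735) (nat_lit 1) .nil)), (nat_lit 37), (nat_lit 45), (nat_lit 26),
 (nat_lit 1), (15, 8, 1), [7, 942], 1⟩,
  ⟨⟨9, 4, -25, -16, -5, -2, -2, 16, -5⟩, (.cons (nat_lit 274) (nat_lit 291) (nat_lit 265) (nat_lit 1) (.cons (nat_lit 656) (nat_lit 427) (nat_lit 421) (nat_lit 1) .nil)), (nat_lit 10), (nat_lit 2), (nat_lit 26), (nat_lit 1), (5, 8, 1), [52, 753], 1⟩,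
  ⟨⟨9, 4, -25, 16, 5, 2, -2, 16, -5⟩, (.cons (nat_lit 314) (nat_lit 176) (nat_lit 235) (nat_lit 1) (.cons (nat_lit 542) (nat_lit 81) (nat_lit 139) (nat_lit 1) .nil)), (nat_lit 29), (nat_lit 21), (nat_lit 5), (nat_lit 1), (5, 11, 1), [253, 852], 34⟩,
  ⟨⟨-11, 12, 20, -16, -5, -2, -2, 16, -5⟩, (.cons (nat_lit 108) (nat_lit 314) (nat_lit 59) (nat_lit 1) (.cons
 (nat_lit 702) (nat_lit 673) (nat_lit 735) (nat_lit 1) .nil)), (nat_lit 37), (nat_lit 45), (nat_lit 26),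
 (nat_lit 1), (15, 8, 1), [7, 942], 1⟩,
  ⟨⟨9, 4, -25, -16, -5, -2, -2, 16, -5⟩, (.cons (nat_lit 274) (nat_lit 291) (nat_lit 265) (nat_lit 1) (.cons (nat_lit 656) (nat_lit 427) (nat_lit 421) (nat_lit 1) .nil)), (nat_lit 10), (nat_lit 2), (nat_lit 26), (nat_lit 1), (5, 8, 1), [52, 753], 1⟩,
  ⟨⟨9, 4, -25, -16, -5, -2, -2, 16, -5⟩, (.cons (nat_lit 274) (nat_lit 291) (nat_lit 265) (nat_lit 1) (.cons (nat_lit 656) (nat_lit 427) (nat_lit 421) (nat_lit 1) .nil)), (nat_lit 10), (nat_lit 2), (nat_lit 26), (nat_lit 1), (5, 8, 1), [52, 753], 1⟩]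

/-- Moves. -/
noncomputable def t0_8 : List Mv := [
  ⟨⟨17, -12, -9, -4, -5, -18, 14, 8, -13⟩, (.cons (nat_lit 67) (nat_lit 114) (nat_lit 350) (nat_lit 1) (.cons
 (nat_lit 749) (nat_lit 443) (nat_lit 668) (nat_lit 1) .nil)), (nat_lit 10), (nat_lit 11), (nat_lit 9),
 (nat_lit 1), (9, 18, 13), [238, 71], 1⟩,
  ⟨⟨17, -12, -9, -4, -5, -18, 14, 8, -13⟩, (.cons (nat_lit 67) (nat_lit 114) (nat_lit 350) (nat_lit 1) (.cons
 (nat_lit 749) (nat_lit 443) (nat_lit 668) (nat_lit 1) .nil)), (nat_lit 10), (nat_lit 11), (nat_lit 9),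
 (nat_lit 1), (9, 18, 13), [238, 71], 1⟩,
  ⟨⟨17, -12, -9, -4, -5, -18, 14, 8, -13⟩, (.cons (nat_lit 67) (nat_lit 114) (nat_lit 350) (nat_lit 1) (.cons
 (nat_lit 749) (nat_lit 443) (nat_lit 668) (nat_lit 1) .nil)), (nat_lit 10), (nat_lit 11), (nat_lit 9),
 (nat_lit 1), (9, 18, 13), [238, 71], 1⟩,
  ⟨⟨-3, 20, -4, -4, -5, -18, 14, 8, -13⟩, (.cons (nat_lit 100) (nat_lit 351) (nat_lit 181) (nat_lit 1) (.cons
 (nat_lit 408) (nat_lit 41) (nat_lit 802) (nat_lit 1) .nil)), (nat_lit 37), (nat_lit 36), (nat_lit 9), (nat_lit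
 1), (4, 18, 13), [256, 44], 1⟩,
  ⟨⟨-3, 20, -4, 4, 5, 18, 14, 8, -13⟩, (.cons (nat_lit 78) (nat_lit 138) (nat_lit 1) (nat_lit 285) (.cons (nat_lit 452) (nat_lit 601) (nat_lit 500) (nat_lit 1) .nil)), (nat_lit 34), (nat_lit 9), (nat_lit 18), (nat_lit 1), (4, 1, 13), [71, 701], 12⟩,
  ⟨⟨17, -12, -9, -4, -5, -18, 14, 8, -13⟩, (.cons (nat_lit 67) (nat_lit 114) (nat_lit 350) (nat_lit 1) (.cons
 (nat_lit 749) (nat_lit 443) (nat_lit 668) (nat_lit 1) .nil)), (nat_lit 10), (nat_lit 11), (nat_lit 9),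
 (nat_lit 1), (9, 18, 13), [238, 71], 1⟩,
  ⟨⟨17, -12, -9, -4, -5, -18, 14, 8, -13⟩, (.cons (nat_lit 67) (nat_lit 114) (nat_lit 350) (nat_lit 1) (.cons
 (nat_lit 749) (nat_lit 443) (nat_lit 668) (nat_lit 1) .nil)), (nat_lit 10), (nat_lit 11), (nat_lit 9),
 (nat_lit 1), (9, 18, 13), [238, 71], 1⟩,
  ⟨⟨17, -12, -9, -4, -5, -18, 14, 8, -13⟩, (.cons (nat_lit 67) (nat_lit 114) (nat_lit 350) (nat_lit 1) (.cons
 (nat_lit 749) (nat_lit 443) (nat_lit 668) (nat_lit 1) .nil)), (nat_lit 10), (nat_lit 11), (nat_lit 9),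
 (nat_lit 1), (9, 18, 13), [238, 71], 1⟩,
  ⟨⟨17, -12, -9, 4, 5, 18, 14, 8, -13⟩, (.cons (nat_lit 273) (nat_lit 128) (nat_lit 294) (nat_lit 1) (.cons
 (nat_lit 552) (nat_lit 327) (nat_lit 729) (nat_lit 1) .nil)), (nat_lit 13), (nat_lit 38), (nat_lit 18),
 (nat_lit 1), (9, 1, 13), [176, 167], 12⟩,
  ⟨⟨17, -12, -9, -4, -5, -18, 14, 8, -13⟩, (.cons (nat_lit 67) (nat_lit 114) (nat_lit 350) (nat_lit 1) (.cons
 (nat_lit 749) (nat_lit 443) (nat_lit 668) (nat_lit 1) .nil)), (nat_lit 10), (nat_lit 11), (nat_lit 9),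
 (nat_lit 1), (9, 18, 13), [238, 71], 1⟩,
  ⟨⟨17, -12, -9, -4, -5, -18, 14, 8, -13⟩, (.cons (nat_lit 67) (nat_lit 114) (nat_lit 350) (nat_lit 1) (.cons
 (nat_lit 749) (nat_lit 443) (nat_lit 668) (nat_lit 1) .nil)), (nat_lit 10), (nat_lit 11), (nat_lit 9),
 (nat_lit 1), (9, 18, 13), [238, 71], 1⟩,
  ⟨⟨17, -12, -9, -4, -5, -18, 14, 8, -13⟩, (.cons (nat_lit 67) (nat_lit 114) (nat_lit 350) (nat_lit 1) (.cons
 (nat_lit 749) (nat_lit 443) (nat_lit 668) (nat_lit 1) .nil)), (nat_lit 10), (nat_lit 11), (nat_lit 9),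
 (nat_lit 1), (9, 18, 13), [238, 71], 1⟩,
  ⟨⟨17, -12, -9, -4, -5, -18, 14, 8, -13⟩, (.cons (nat_lit 67) (nat_lit 114) (nat_lit 350) (nat_lit 1) (.cons
 (nat_lit 749) (nat_lit 443) (nat_lit 668) (nat_lit 1) .nil)), (nat_lit 10), (nat_lit 11), (nat_lit 9),
 (nat_lit 1), (9, 18, 13), [238, 71], 1⟩,
  ⟨⟨-3, 20, -4, -4, -5, -18, 14, 8, -13⟩, (.cons (nat_lit 100) (nat_lit 351) (nat_lit 181) (nat_lit 1) (.cons
 (nat_lit 408) (nat_lit 41) (nat_lit 802) (nat_lit 1) .nil)), (nat_lit 37), (nat_lit 36), (nat_lit 9), (nat_lit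
 1), (4, 18, 13), [256, 44], 1⟩,
  ⟨⟨-3, 20, -4, 4, 5, 18, 14, 8, -13⟩, (.cons (nat_lit 78) (nat_lit 138) (nat_lit 1) (nat_lit 285) (.cons (nat_lit 452) (nat_lit 601) (nat_lit 500) (nat_lit 1) .nil)), (nat_lit 34), (nat_lit 9), (nat_lit 18), (nat_lit 1), (4, 1, 13), [71, 701], 12⟩,
  ⟨⟨17, -12, -9, 4, 5, 18, 14, 8, -13⟩, (.cons (nat_lit 273) (nat_lit 128) (nat_lit 294) (nat_lit 1) (.cons
 (nat_lit 552) (nat_lit 327) (nat_lit 729) (nat_lit 1) .nil)), (nat_lit 13), (nat_lit 38), (nat_lit 18),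
 (nat_lit 1), (9, 1, 13), [176, 167], 12⟩,
  ⟨⟨17, -12, -9, 4, 5, 18, 14, 8, -13⟩, (.cons (nat_lit 273) (nat_lit 128) (nat_lit 294) (nat_lit 1) (.cons
 (nat_lit 552) (nat_lit 327) (nat_lit 729) (nat_lit 1) .nil)), (nat_lit 13), (nat_lit 38), (nat_lit 18),
 (nat_lit 1), (9, 1, 13), [176, 167], 12⟩,
  ⟨⟨17, -12, -9, -4, -5, -18, 14, 8, -13⟩, (.cons (nat_lit 67) (nat_lit 114) (nat_lit 350) (nat_lit 1) (.cons
 (nat_lit 749) (nat_lit 443) (nat_lit 668) (nat_lit 1) .nil)), (nat_lit 10), (nat_lit 11), (nat_lit 9),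
 (nat_lit 1), (9, 18, 13), [238, 71], 1⟩,
  ⟨⟨-3, 20, -4, -4, -5, -18, 14, 8, -13⟩, (.cons (nat_lit 100) (nat_lit 351) (nat_lit 181) (nat_lit 1) (.cons
 (nat_lit 408) (nat_lit 41) (nat_lit 802) (nat_lit 1) .nil)), (nat_lit 37), (nat_lit 36), (nat_lit 9), (nat_lit
 1), (4, 18, 13), [256, 44], 1⟩]

/-- Moves. -/
noncomputable def t1_1 : List Mv := [
  mz,
  ⟨⟨3, 20, 29, -4, 25, -18, 26, 8, -7⟩, (.cons (nat_lit 58) (nat_lit 222) (nat_lit 38) (nat_lit 1) (.cons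
 (nat_lit 719) (nat_lit 143) (nat_lit 125) (nat_lit 1) .nil)), (nat_lit 24), (nat_lit 9), (nat_lit 25),
 (nat_lit 1), (26, 17, 29), [159, 819], 27⟩,
  ⟨⟨23, 12, -36, 4, 25, 18, 26, -8, -7⟩, (.cons (nat_lit 41) (nat_lit 315) (nat_lit 357) (nat_lit 1) (.cons
 (nat_lit 823) (nat_lit 764) (nat_lit 323) (nat_lit 1) .nil)), (nat_lit 45), (nat_lit 15), (nat_lit 34),
 (nat_lit 1), (1, 15, 20), [260, 67], 14⟩,
  mz,
  ⟨⟨27, 16, -28, 4, 15, 28, -6, 24, -11⟩, (.cons (nat_lit 360) (nat_lit 213) (nat_lit 263) (nat_lit 1) (.cons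
 (nat_lit 412) (nat_lit 83) (nat_lit 351) (nat_lit 1) .nil)), (nat_lit 46), (nat_lit 10), (nat_lit 39),
 (nat_lit 1), (15, 16, 7), [210, 852], 42⟩,
  mz,
  ⟨⟨1, -12, 35, -16, -25, -2, 22, -16, -5⟩, (.cons (nat_lit 358) (nat_lit 233) (nat_lit 291) (nat_lit 1) (.cons
 (nat_lit 790) (nat_lit 903) (nat_lit 23) (nat_lit 1) .nil)), (nat_lit 7), (nat_lit 29), (nat_lit 26), (nat_lit
 1), (1, 15, 22), [117, 202], 14⟩,
  mz,
  ⟨⟨-31, 0, 0, 10, 19, -30, -4, -20, -19⟩, (.cons (nat_lit 360) (nat_lit 63) (nat_lit 312) (nat_lit 1) (.cons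
 (nat_lit 582) (nat_lit 103) (nat_lit 437) (nat_lit 1) .nil)), (nat_lit 46), (nat_lit 9), (nat_lit 19),
 (nat_lit 1), (0, 5, 29), [1, 738], 26⟩,
  mz,
  mz,
  mz,
  mz,
  ⟨⟨-31, 0, 0, 10, -19, -30, -4, 20, -19⟩, (.cons (nat_lit 44) (nat_lit 179) (nat_lit 329) (nat_lit 1) (.cons
 (nat_lit 923) (nat_lit 15) (nat_lit 809) (nat_lit 1) .nil)), (nat_lit 38), (nat_lit 42), (nat_lit 46),
 (nat_lit 1), (0, 3, 5), [124, 641], 11⟩,
  ⟨⟨27, -16, -28, -4, 15, -28, -6, -24, -11⟩, (.cons (nat_lit 360) (nat_lit 350) (nat_lit 170) (nat_lit 1)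
 (.cons (nat_lit 864) (nat_lit 613) (nat_lit 819) (nat_lit 1) .nil)), (nat_lit 46), (nat_lit 7), (nat_lit 2),
 (nat_lit 1), (28, 28, 11), [182, 502], 42⟩,
  ⟨⟨23, -12, 13, 4, -25, -22, 26, 8, -19⟩, (.cons (nat_lit 153) (nat_lit 95) (nat_lit 66) (nat_lit 1) (.cons
 (nat_lit 926) (nat_lit 384) (nat_lit 792) (nat_lit 1) .nil)), (nat_lit 2), (nat_lit 15), (nat_lit 13),
 (nat_lit 1), (25, 3, 4), [259, 474], 33⟩,
  mz,
  mz,
  ⟨⟨1, -12, -36, 16, 25, -18, 22, -16, -17⟩, (.cons (nat_lit 310) (nat_lit 126) (nat_lit 1) (nat_lit 114)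
 (.cons (nat_lit 750) (nat_lit 77) (nat_lit 378) (nat_lit 1) .nil)), (nat_lit 20), (nat_lit 15), (nat_lit 25),
 (nat_lit 1), (21, 26, 28), [331, 474], 40⟩,
  ⟨⟨-9, 8, -31, -10, -29, 0, 20, -4, -31⟩, (.cons (nat_lit 61) (nat_lit 344) (nat_lit 295) (nat_lit 1) (.cons
 (nat_lit 501) (nat_lit 320) (nat_lit 659) (nat_lit 1) .nil)), (nat_lit 1), (nat_lit 35), (nat_lit 16),
 (nat_lit 1), (2, 16, 30), [40, 881], 33⟩,
  ⟨⟨-29, -12, 29, -10, 29, 10, -20, -4, -11⟩, (.cons (nat_lit 77) (nat_lit 292) (nat_lit 1) (nat_lit 152)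
 (.cons (nat_lit 847) (nat_lit 406) (nat_lit 3) (nat_lit 1) .nil)), (nat_lit 38), (nat_lit 27), (nat_lit 4),
 (nat_lit 1), (6, 1, 2), [353, 590], 39⟩,
  ⟨⟨33, 8, -16, 4, -15, -32, 6, 24, -17⟩, (.cons (nat_lit 329) (nat_lit 355) (nat_lit 27) (nat_lit 1) (.cons
 (nat_lit 245) (nat_lit 868) (nat_lit 861) (nat_lit 1) .nil)), (nat_lit 4), (nat_lit 24), (nat_lit 33),
 (nat_lit 1), (1, 2, 3), [59, 555], 12⟩,
  ⟨⟨9, -8, -40, 10, 29, -10, -20, 4, -11⟩, (.cons (nat_lit 184) (nat_lit 255) (nat_lit 206) (nat_lit 1) (.cons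
 (nat_lit 618) (nat_lit 668) (nat_lit 158) (nat_lit 1) .nil)), (nat_lit 21), (nat_lit 3), (nat_lit 10),
 (nat_lit 1), (18, 20, 22), [31, 177], 44⟩,
  ⟨⟨3, -20, -32, 4, 25, -22, 26, -8, -19⟩, (.cons (nat_lit 188) (nat_lit 64) (nat_lit 26) (nat_lit 1) (.cons
 (nat_lit 77) (nat_lit 742) (nat_lit 648) (nat_lit 1) .nil)), (nat_lit 40), (nat_lit 36), (nat_lit 13),
 (nat_lit 1), (3, 4, 26), [91, 722], 33⟩,
  ⟨⟨-9, -8, -31, -10, 29, 0, 20, 4, -31⟩, (.cons (nat_lit 152) (nat_lit 240) (nat_lit 75) (nat_lit 1) (.cons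
 (nat_lit 475) (nat_lit 776) (nat_lit 16) (nat_lit 1) .nil)), (nat_lit 26), (nat_lit 3), (nat_lit 37), (nat_lit
 1), (24, 6, 19), [125, 552], 44⟩,
  ⟨⟨-27, -20, 8, -10, 19, -20, 4, -20, -23⟩, (.cons (nat_lit 360) (nat_lit 298) (nat_lit 290) (nat_lit 1)
 (.cons (nat_lit 384) (nat_lit 14) (nat_lit 401) (nat_lit 1) .nil)), (nat_lit 46), (nat_lit 38), (nat_lit 28),
 (nat_lit 1), (16, 22, 16), [291, 536], 26⟩,
  ⟨⟨1, 12, 35, -16, 25, -2, 22, 16, -5⟩, (.cons (nat_lit 145) (nat_lit 93) (nat_lit 27) (nat_lit 1) (.cons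
 (nat_lit 307) (nat_lit 665) (nat_lit 882) (nat_lit 1) .nil)), (nat_lit 24), (nat_lit 31), (nat_lit 30),
 (nat_lit 1), (30, 16, 9), [63, 13], 27⟩,
  ⟨⟨-27, -16, -1, 4, 15, -32, 6, -24, -17⟩, (.cons (nat_lit 193) (nat_lit 12) (nat_lit 168) (nat_lit 1) (.cons
 (nat_lit 15) (nat_lit 177) (nat_lit 176) (nat_lit 1) .nil)), (nat_lit 1), (nat_lit 7), (nat_lit 45), (nat_lit
 1), (15, 15, 7), [164, 576], 42⟩,
  ⟨⟨1, 12, -36, 16, -25, -18, 22, 16, -17⟩, (.cons (nat_lit 270) (nat_lit 319) (nat_lit 270) (nat_lit 1) (.cons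
 (nat_lit 247) (nat_lit 852) (nat_lit 433) (nat_lit 1) .nil)), (nat_lit 45), (nat_lit 29), (nat_lit 3),
 (nat_lit 1), (19, 25, 15), [7, 606], 33⟩,
  ⟨⟨31, 0, -31, 10, 19, 20, 4, 20, -23⟩, (.cons (nat_lit 283) (nat_lit 345) (nat_lit 220) (nat_lit 1) (.cons
 (nat_lit 20) (nat_lit 215) (nat_lit 581) (nat_lit 1) .nil)), (nat_lit 1), (nat_lit 1), (nat_lit 17), (nat_lit
 1), (0, 11, 23), [154, 926], 26⟩]

/-- Moves. -/
noncomputable def t1_2 : List Mv := [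
  mz,
  ⟨⟨23, -12, -36, -4, 25, -18, 26, 8, -7⟩, (.cons (nat_lit 119) (nat_lit 305) (nat_lit 360) (nat_lit 1) (.cons
 (nat_lit 388) (nat_lit 423) (nat_lit 935) (nat_lit 1) .nil)), (nat_lit 23), (nat_lit 38), (nat_lit 25),
 (nat_lit 1), (3, 17, 29), [148, 815], 27⟩,
  ⟨⟨3, -20, 29, -4, -25, -18, 26, -8, -7⟩, (.cons (nat_lit 120) (nat_lit 198) (nat_lit 97) (nat_lit 1) (.cons
 (nat_lit 529) (nat_lit 365) (nat_lit 455) (nat_lit 1) .nil)), (nat_lit 27), (nat_lit 16), (nat_lit 3),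
 (nat_lit 1), (19, 16, 20), [13, 707], 7⟩,
  mz,
  ⟨⟨-33, 8, 17, -4, -15, -28, -6, 24, -11⟩, (.cons (nat_lit 48) (nat_lit 269) (nat_lit 185) (nat_lit 1) (.cons
 (nat_lit 698) (nat_lit 820) (nat_lit 957) (nat_lit 1) .nil)), (nat_lit 43), (nat_lit 24), (nat_lit 14),
 (nat_lit 1), (23, 15, 7), [118, 827], 12⟩,
  mz,
  ⟨⟨1, -12, 35, 16, 25, 2, 22, -16, -5⟩, (.cons (nat_lit 305) (nat_lit 158) (nat_lit 323) (nat_lit 1) (.cons
 (nat_lit 435) (nat_lit 727) (nat_lit 466) (nat_lit 1) .nil)), (nat_lit 2), (nat_lit 29), (nat_lit 44),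
 (nat_lit 1), (1, 16, 22), [83, 75], 14⟩,
  mz,
  ⟨⟨-31, 0, 0, -10, -19, 30, -4, -20, -19⟩, (.cons (nat_lit 320) (nat_lit 119) (nat_lit 132) (nat_lit 1) (.cons
 (nat_lit 455) (nat_lit 880) (nat_lit 531) (nat_lit 1) .nil)), (nat_lit 26), (nat_lit 36), (nat_lit 26),
 (nat_lit 1), (0, 26, 29), [147, 740], 10⟩,
  mz,
  mz,
  mz,
  mz,
  ⟨⟨-31, 0, 0, 10, -19, -30, -4, 20, -19⟩, (.cons (nat_lit 44) (nat_lit 179) (nat_lit 329) (nat_lit 1) (.cons
 (nat_lit 923) (nat_lit 15) (nat_lit 809) (nat_lit 1) .nil)), (nat_lit 38), (nat_lit 42), (nat_lit 46),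
 (nat_lit 1), (0, 3, 5), [124, 641], 11⟩,
  ⟨⟨-33, -8, 17, -4, 15, -28, -6, -24, -11⟩, (.cons (nat_lit 260) (nat_lit 129) (nat_lit 1) (nat_lit 1) (.cons
 (nat_lit 750) (nat_lit 425) (nat_lit 76) (nat_lit 1) .nil)), (nat_lit 1), (nat_lit 40), (nat_lit 2), (nat_lit
 1), (14, 28, 11), [90, 163], 42⟩,
  ⟨⟨3, 20, -32, 4, -25, -22, 26, 8, -19⟩, (.cons (nat_lit 251) (nat_lit 332) (nat_lit 13) (nat_lit 1) (.cons
 (nat_lit 739) (nat_lit 110) (nat_lit 776) (nat_lit 1) .nil)), (nat_lit 45), (nat_lit 32), (nat_lit 13),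
 (nat_lit 1), (10, 3, 4), [26, 53], 33⟩,
  mz,
  mz,
  ⟨⟨21, -4, 19, -16, -25, 18, 22, -16, -17⟩, (.cons (nat_lit 210) (nat_lit 266) (nat_lit 219) (nat_lit 1)
 (.cons (nat_lit 99) (nat_lit 869) (nat_lit 887) (nat_lit 1) .nil)), (nat_lit 24), (nat_lit 16), (nat_lit 17),
 (nat_lit 1), (7, 5, 28), [221, 18], 20⟩,
  ⟨⟨29, -12, 0, -10, -29, 0, 20, -4, -31⟩, (.cons (nat_lit 360) (nat_lit 214) (nat_lit 100) (nat_lit 1) (.cons
 (nat_lit 417) (nat_lit 102) (nat_lit 934) (nat_lit 1) .nil)), (nat_lit 46), (nat_lit 12), (nat_lit 16),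
 (nat_lit 1), (28, 16, 30), [87, 288], 33⟩,
  ⟨⟨9, 8, -40, 10, -29, -10, -20, -4, -11⟩, (.cons (nat_lit 360) (nat_lit 0) (nat_lit 315) (nat_lit 1) (.cons
 (nat_lit 790) (nat_lit 532) (nat_lit 954) (nat_lit 1) .nil)), (nat_lit 46), (nat_lit 35), (nat_lit 31),
 (nat_lit 1), (27, 30, 2), [330, 670], 33⟩,
  ⟨⟨33, 8, -16, -4, 15, 32, 6, 24, -17⟩, (.cons (nat_lit 360) (nat_lit 221) (nat_lit 278) (nat_lit 1) (.cons
 (nat_lit 103) (nat_lit 526) (nat_lit 464) (nat_lit 1) .nil)), (nat_lit 46), (nat_lit 37), (nat_lit 8),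
 (nat_lit 1), (1, 29, 3), [334, 828], 42⟩,
  ⟨⟨9, -8, -40, -10, -29, 10, -20, 4, -11⟩, (.cons (nat_lit 360) (nat_lit 244) (nat_lit 74) (nat_lit 1) (.cons
 (nat_lit 295) (nat_lit 908) (nat_lit 539) (nat_lit 1) .nil)), (nat_lit 46), (nat_lit 14), (nat_lit 7),
 (nat_lit 1), (18, 11, 22), [144, 32], 33⟩,
  ⟨⟨3, -20, -32, 4, 25, -22, 26, -8, -19⟩, (.cons (nat_lit 188) (nat_lit 64) (nat_lit 26) (nat_lit 1) (.cons
 (nat_lit 77) (nat_lit 742) (nat_lit 648) (nat_lit 1) .nil)), (nat_lit 40), (nat_lit 36), (nat_lit 13),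
 (nat_lit 1), (3, 4, 26), [91, 722], 33⟩,
  ⟨⟨-9, -8, -31, -10, 29, 0, 20, 4, -31⟩, (.cons (nat_lit 152) (nat_lit 240) (nat_lit 75) (nat_lit 1) (.cons
 (nat_lit 475) (nat_lit 776) (nat_lit 16) (nat_lit 1) .nil)), (nat_lit 26), (nat_lit 3), (nat_lit 37), (nat_lit
 1), (24, 6, 19), [125, 552], 44⟩,
  ⟨⟨-27, -20, 8, -10, 19, -20, 4, -20, -23⟩, (.cons (nat_lit 360) (nat_lit 298) (nat_lit 290) (nat_lit 1)
 (.cons (nat_lit 384) (nat_lit 14) (nat_lit 401) (nat_lit 1) .nil)), (nat_lit 46), (nat_lit 38), (nat_lit 28),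
 (nat_lit 1), (16, 22, 16), [291, 536], 26⟩,
  ⟨⟨1, 12, 35, -16, 25, -2, 22, 16, -5⟩, (.cons (nat_lit 145) (nat_lit 93) (nat_lit 27) (nat_lit 1) (.cons
 (nat_lit 307) (nat_lit 665) (nat_lit 882) (nat_lit 1) .nil)), (nat_lit 24), (nat_lit 31), (nat_lit 30),
 (nat_lit 1), (30, 16, 9), [63, 13], 27⟩,
  ⟨⟨33, -8, -16, 4, 15, -32, 6, -24, -17⟩, (.cons (nat_lit 360) (nat_lit 264) (nat_lit 291) (nat_lit 1) (.cons
 (nat_lit 793) (nat_lit 799) (nat_lit 600) (nat_lit 1) .nil)), (nat_lit 46), (nat_lit 40), (nat_lit 45),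
 (nat_lit 1), (23, 15, 7), [58, 29], 42⟩,
  ⟨⟨21, 4, 19, -16, 25, 18, 22, 16, -17⟩, (.cons (nat_lit 64) (nat_lit 225) (nat_lit 132) (nat_lit 1) (.cons
 (nat_lit 371) (nat_lit 497) (nat_lit 126) (nat_lit 1) .nil)), (nat_lit 7), (nat_lit 18), (nat_lit 21),
 (nat_lit 1), (27, 6, 15), [332, 747], 33⟩,
  ⟨⟨31, 0, -31, -10, -19, -20, 4, 20, -23⟩, (.cons (nat_lit 253) (nat_lit 292) (nat_lit 191) (nat_lit 1) (.cons
 (nat_lit 475) (nat_lit 180) (nat_lit 164) (nat_lit 1) .nil)), (nat_lit 9), (nat_lit 42), (nat_lit 1), (nat_lit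
 1), (0, 20, 23), [159, 746], 11⟩]

/-- Moves. -/
noncomputable def t1_8 : List Mv := [
  mz,
  ⟨⟨3, 20, 29, -4, 25, -18, 26, 8, -7⟩, (.cons (nat_lit 58) (nat_lit 222) (nat_lit 38) (nat_lit 1) (.cons
 (nat_lit 719) (nat_lit 143) (nat_lit 125) (nat_lit 1) .nil)), (nat_lit 24), (nat_lit 9), (nat_lit 25),
 (nat_lit 1), (26, 17, 29), [159, 819], 27⟩,
  ⟨⟨3, -20, 29, 4, 25, 18, 26, -8, -7⟩, (.cons (nat_lit 122) (nat_lit 206) (nat_lit 316) (nat_lit 1) (.cons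
 (nat_lit 666) (nat_lit 825) (nat_lit 28) (nat_lit 1) .nil)), (nat_lit 2), (nat_lit 32), (nat_lit 34), (nat_lit
 1), (19, 15, 20), [175, 331], 14⟩,
  mz,
  ⟨⟨27, 16, -28, 4, 15, 28, -6, 24, -11⟩, (.cons (nat_lit 360) (nat_lit 213) (nat_lit 263) (nat_lit 1) (.cons
 (nat_lit 412) (nat_lit 83) (nat_lit 351) (nat_lit 1) .nil)), (nat_lit 46), (nat_lit 10), (nat_lit 39),
 (nat_lit 1), (15, 16, 7), [210, 852], 42⟩,
  mz,
  ⟨⟨1, -12, 35, -16, -25, -2, 22, -16, -5⟩, (.cons (nat_lit 358) (nat_lit 233) (nat_lit 291) (nat_lit 1) (.cons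
 (nat_lit 790) (nat_lit 903) (nat_lit 23) (nat_lit 1) .nil)), (nat_lit 7), (nat_lit 29), (nat_lit 26), (nat_lit
 1), (1, 15, 22), [117, 202], 14⟩,
  mz,
  ⟨⟨-31, 0, 0, 10, 19, -30, -4, -20, -19⟩, (.cons (nat_lit 360) (nat_lit 63) (nat_lit 312) (nat_lit 1) (.cons
 (nat_lit 582) (nat_lit 103) (nat_lit 437) (nat_lit 1) .nil)), (nat_lit 46), (nat_lit 9), (nat_lit 19),
 (nat_lit 1), (0, 5, 29), [1, 738], 26⟩,
  mz,
  mz,
  mz,
  mz,
  ⟨⟨27, 20, -19, -10, 19, 30, -4, 20, -19⟩, (.cons (nat_lit 199) (nat_lit 296) (nat_lit 262) (nat_lit 1) (.cons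
 (nat_lit 468) (nat_lit 745) (nat_lit 851) (nat_lit 1) .nil)), (nat_lit 1), (nat_lit 46), (nat_lit 30),
 (nat_lit 1), (5, 28, 5), [181, 228], 26⟩,
  ⟨⟨27, -16, -28, -4, 15, -28, -6, -24, -11⟩, (.cons (nat_lit 360) (nat_lit 350) (nat_lit 170) (nat_lit 1)
 (.cons (nat_lit 864) (nat_lit 613) (nat_lit 819) (nat_lit 1) .nil)), (nat_lit 46), (nat_lit 7), (nat_lit 2),
 (nat_lit 1), (28, 28, 11), [182, 502], 42⟩,
  ⟨⟨23, -12, 13, -4, 25, 22, 26, 8, -19⟩, (.cons (nat_lit 220) (nat_lit 318) (nat_lit 201) (nat_lit 1) (.cons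
 (nat_lit 816) (nat_lit 847) (nat_lit 565) (nat_lit 1) .nil)), (nat_lit 27), (nat_lit 31), (nat_lit 44),
 (nat_lit 1), (25, 28, 4), [329, 122], 40⟩,
  mz,
  mz,
  ⟨⟨1, -12, -36, -16, -25, 18, 22, -16, -17⟩, (.cons (nat_lit 317) (nat_lit 142) (nat_lit 185) (nat_lit 1)
 (.cons (nat_lit 149) (nat_lit 364) (nat_lit 958) (nat_lit 1) .nil)), (nat_lit 23), (nat_lit 31), (nat_lit 17),
 (nat_lit 1), (21, 5, 28), [235, 681], 20⟩,
  ⟨⟨-9, 8, -31, -10, -29, 0, 20, -4, -31⟩, (.cons (nat_lit 61) (nat_lit 344) (nat_lit 295) (nat_lit 1) (.cons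
 (nat_lit 501) (nat_lit 320) (nat_lit 659) (nat_lit 1) .nil)), (nat_lit 1), (nat_lit 35), (nat_lit 16),
 (nat_lit 1), (2, 16, 30), [40, 881], 33⟩,
  ⟨⟨9, 8, -40, 10, -29, -10, -20, -4, -11⟩, (.cons (nat_lit 360) (nat_lit 0) (nat_lit 315) (nat_lit 1) (.cons
 (nat_lit 790) (nat_lit 532) (nat_lit 954) (nat_lit 1) .nil)), (nat_lit 46), (nat_lit 35), (nat_lit 31),
 (nat_lit 1), (27, 30, 2), [330, 670], 33⟩,
  ⟨⟨33, 8, -16, -4, 15, 32, 6, 24, -17⟩, (.cons (nat_lit 360) (nat_lit 221) (nat_lit 278) (nat_lit 1) (.cons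
 (nat_lit 103) (nat_lit 526) (nat_lit 464) (nat_lit 1) .nil)), (nat_lit 46), (nat_lit 37), (nat_lit 8),
 (nat_lit 1), (1, 29, 3), [334, 828], 42⟩,
  ⟨⟨9, -8, -40, -10, -29, 10, -20, 4, -11⟩, (.cons (nat_lit 360) (nat_lit 244) (nat_lit 74) (nat_lit 1) (.cons
 (nat_lit 295) (nat_lit 908) (nat_lit 539) (nat_lit 1) .nil)), (nat_lit 46), (nat_lit 14), (nat_lit 7),
 (nat_lit 1), (18, 11, 22), [144, 32], 33⟩,
  ⟨⟨3, -20, -32, 4, 25, -22, 26, -8, -19⟩, (.cons (nat_lit 188) (nat_lit 64) (nat_lit 26) (nat_lit 1) (.cons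
 (nat_lit 77) (nat_lit 742) (nat_lit 648) (nat_lit 1) .nil)), (nat_lit 40), (nat_lit 36), (nat_lit 13),
 (nat_lit 1), (3, 4, 26), [91, 722], 33⟩,
  ⟨⟨-9, -8, -31, -10, 29, 0, 20, 4, -31⟩, (.cons (nat_lit 152) (nat_lit 240) (nat_lit 75) (nat_lit 1) (.cons
 (nat_lit 475) (nat_lit 776) (nat_lit 16) (nat_lit 1) .nil)), (nat_lit 26), (nat_lit 3), (nat_lit 37), (nat_lit
 1), (24, 6, 19), [125, 552], 44⟩,
  ⟨⟨-27, -20, 8, -10, 19, -20, 4, -20, -23⟩, (.cons (nat_lit 360) (nat_lit 298) (nat_lit 290) (nat_lit 1)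
 (.cons (nat_lit 384) (nat_lit 14) (nat_lit 401) (nat_lit 1) .nil)), (nat_lit 46), (nat_lit 38), (nat_lit 28),
 (nat_lit 1), (16, 22, 16), [291, 536], 26⟩,
  ⟨⟨1, 12, 35, -16, 25, -2, 22, 16, -5⟩, (.cons (nat_lit 145) (nat_lit 93) (nat_lit 27) (nat_lit 1) (.cons
 (nat_lit 307) (nat_lit 665) (nat_lit 882) (nat_lit 1) .nil)), (nat_lit 24), (nat_lit 31), (nat_lit 30),
 (nat_lit 1), (30, 16, 9), [63, 13], 27⟩,
  ⟨⟨-27, -16, -1, -4, -15, 32, 6, -24, -17⟩, (.cons (nat_lit 173) (nat_lit 32) (nat_lit 124) (nat_lit 1) (.cons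
 (nat_lit 468) (nat_lit 82) (nat_lit 551) (nat_lit 1) .nil)), (nat_lit 35), (nat_lit 6), (nat_lit 27), (nat_lit
 1), (15, 16, 7), [320, 508], 36⟩,
  ⟨⟨1, 12, -36, 16, -25, -18, 22, 16, -17⟩, (.cons (nat_lit 270) (nat_lit 319) (nat_lit 270) (nat_lit 1) (.cons
 (nat_lit 247) (nat_lit 852) (nat_lit 433) (nat_lit 1) .nil)), (nat_lit 45), (nat_lit 29), (nat_lit 3),
 (nat_lit 1), (19, 25, 15), [7, 606], 33⟩,
  ⟨⟨31, 0, -31, -10, -19, -20, 4, 20, -23⟩, (.cons (nat_lit 253) (nat_lit 292) (nat_lit 191) (nat_lit 1) (.cons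
 (nat_lit 475) (nat_lit 180) (nat_lit 164) (nat_lit 1) .nil)), (nat_lit 9), (nat_lit 42), (nat_lit 1), (nat_lit
 1), (0, 20, 23), [159, 746], 11⟩]

/-- Moves. -/
noncomputable def t4_1 : List Mv := [
  mz,
  ⟨⟨-25, 12, -36, -22, 35, 36, 20, 28, -37⟩, (.cons (nat_lit 48) (nat_lit 5) (nat_lit 206) (nat_lit 1) (.cons
 (nat_lit 430) (nat_lit 588) (nat_lit 501) (nat_lit 1) .nil)), (nat_lit 21), (nat_lit 0), (nat_lit 0), (nat_lit
 0), (2, 45, 36), [54, 481], 0⟩,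
  ⟨⟨21, -32, -49, 2, 35, -36, -28, -20, -13⟩, (.cons (nat_lit 162) (nat_lit 177) (nat_lit 60) (nat_lit 1)
 (.cons (nat_lit 245) (nat_lit 677) (nat_lit 1) (nat_lit 589) .nil)), (nat_lit 5), (nat_lit 0), (nat_lit 0),
 (nat_lit 0), (33, 30, 3), [205, 509], 0⟩,
  ⟨⟨-51, 4, 19, -2, -45, -14, -12, 12, -37⟩, (.cons (nat_lit 262) (nat_lit 173) (nat_lit 193) (nat_lit 1)
 (.cons (nat_lit 940) (nat_lit 526) (nat_lit 246) (nat_lit 1) .nil)), (nat_lit 33), (nat_lit 0), (nat_lit 0),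
 (nat_lit 0), (7, 27, 21), [337, 430], 0⟩,
  mz,
  ⟨⟨25, -12, -61, -22, 35, -14, -20, -28, -17⟩, (.cons (nat_lit 78) (nat_lit 273) (nat_lit 13) (nat_lit 1)
 (.cons (nat_lit 124) (nat_lit 515) (nat_lit 455) (nat_lit 1) .nil)), (nat_lit 2), (nat_lit 0), (nat_lit 0),
 (nat_lit 0), (9, 9, 21), [326, 153], 0⟩,
  mz,
  mz,
  mz,
  ⟨⟨-17, -48, 0, -40, 17, 0, 10, -16, -47⟩, (.cons (nat_lit 360) (nat_lit 187) (nat_lit 90) (nat_lit 1) (.cons
 (nat_lit 960) (nat_lit 60) (nat_lit 501) (nat_lit 1) .nil)), (nat_lit 9), (nat_lit 0), (nat_lit 0), (nat_lit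
 0), (6, 39, 2), [255, 764], 0⟩,
  mz,
  ⟨⟨17, 48, -17, -40, 17, 40, -10, 16, -37⟩, (.cons (nat_lit 252) (nat_lit 18) (nat_lit 98) (nat_lit 1) (.cons
 (nat_lit 788) (nat_lit 460) (nat_lit 809) (nat_lit 1) .nil)), (nat_lit 36), (nat_lit 0), (nat_lit 0), (nat_lit
 0), (25, 2, 24), [308, 823], 0⟩,
  ⟨⟨17, -36, -45, -20, 23, -30, 38, 8, -37⟩, (.cons (nat_lit 10) (nat_lit 228) (nat_lit 312) (nat_lit 1) (.cons
 (nat_lit 804) (nat_lit 407) (nat_lit 811) (nat_lit 1) .nil)), (nat_lit 32), (nat_lit 0), (nat_lit 0), (nat_lit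
 0), (19, 44, 1), [299, 113], 0⟩,
  mz,
  ⟨⟨-51, -4, 19, 2, -45, 14, -12, -12, -37⟩, (.cons (nat_lit 207) (nat_lit 336) (nat_lit 29) (nat_lit 1) (.cons
 (nat_lit 784) (nat_lit 133) (nat_lit 917) (nat_lit 1) .nil)), (nat_lit 44), (nat_lit 0), (nat_lit 0), (nat_lit
 0), (25, 11, 28), [238, 433], 0⟩,
  ⟨⟨9, 4, -61, 40, 23, -10, 22, -32, -29⟩, (.cons (nat_lit 101) (nat_lit 252) (nat_lit 181) (nat_lit 1) (.cons
 (nat_lit 129) (nat_lit 274) (nat_lit 907) (nat_lit 1) .nil)), (nat_lit 35), (nat_lit 0), (nat_lit 0), (nat_lit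
 0), (18, 33, 44), [269, 906], 0⟩,
  ⟨⟨-13, 36, 45, 40, 23, -30, -22, 32, -7⟩, (.cons (nat_lit 282) (nat_lit 77) (nat_lit 203) (nat_lit 1) (.cons
 (nat_lit 428) (nat_lit 768) (nat_lit 281) (nat_lit 1) .nil)), (nat_lit 27), (nat_lit 0), (nat_lit 0), (nat_lit
 0), (5, 28, 41), [236, 314], 0⟩,
  mz,
  ⟨⟨23, 0, 40, 0, -47, 0, 42, 0, -23⟩, (.cons (nat_lit 360) (nat_lit 352) (nat_lit 31) (nat_lit 1) (.cons (nat_lit 960) (nat_lit 783) (nat_lit 17) (nat_lit 1) .nil)), (nat_lit 18), (nat_lit 0), (nat_lit 0), (nat_lit 0), (7, 0, 23), [70, 908], 0⟩,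
  ⟨⟨-39, 32, 8, -20, -33, -20, 6, 24, -41⟩, (.cons (nat_lit 129) (nat_lit 10) (nat_lit 252) (nat_lit 1) (.cons
 (nat_lit 863) (nat_lit 914) (nat_lit 472) (nat_lit 1) .nil)), (nat_lit 22), (nat_lit 0), (nat_lit 0), (nat_lit
 0), (25, 8, 7), [106, 799], 0⟩,
  ⟨⟨17, -36, 28, 20, -23, -50, 38, 8, -1⟩, (.cons (nat_lit 289) (nat_lit 252) (nat_lit 326) (nat_lit 1) (.cons
 (nat_lit 256) (nat_lit 165) (nat_lit 315) (nat_lit 1) .nil)), (nat_lit 16), (nat_lit 0), (nat_lit 0), (nat_lit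
 0), (2, 30, 10), [338, 537], 0⟩,
  ⟨⟨21, 32, -49, 2, -35, -36, -28, 20, -13⟩, (.cons (nat_lit 255) (nat_lit 14) (nat_lit 224) (nat_lit 1) (.cons
 (nat_lit 483) (nat_lit 64) (nat_lit 94) (nat_lit 1) .nil)), (nat_lit 5), (nat_lit 0), (nat_lit 0), (nat_lit
 0), (30, 23, 7), [329, 380], 0⟩,
  ⟨⟨-39, -32, 8, 20, -33, 20, 6, -24, -41⟩, (.cons (nat_lit 14) (nat_lit 221) (nat_lit 82) (nat_lit 1) (.cons
 (nat_lit 657) (nat_lit 127) (nat_lit 299) (nat_lit 1) .nil)), (nat_lit 19), (nat_lit 0), (nat_lit 0), (nat_lit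
 0), (28, 23, 21), [199, 27], 0⟩,
  mz,
  mz,
  ⟨⟨-45, 8, -4, 20, 33, -40, -6, -24, -35⟩, (.cons (nat_lit 360) (nat_lit 94) (nat_lit 250) (nat_lit 1) (.cons
 (nat_lit 960) (nat_lit 787) (nat_lit 294) (nat_lit 1) .nil)), (nat_lit 25), (nat_lit 0), (nat_lit 0), (nat_lit
 0), (40, 24, 21), [113, 824], 0⟩,
  ⟨⟨-21, 32, -28, -2, -35, -34, 28, 20, -41⟩, (.cons (nat_lit 168) (nat_lit 73) (nat_lit 332) (nat_lit 1)
 (.cons (nat_lit 227) (nat_lit 400) (nat_lit 775) (nat_lit 1) .nil)), (nat_lit 5), (nat_lit 0), (nat_lit 0),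
 (nat_lit 0), (30, 23, 7), [183, 181], 0⟩,
  ⟨⟨17, 36, -45, -20, -23, -30, 38, -8, -37⟩, (.cons (nat_lit 257) (nat_lit 354) (nat_lit 329) (nat_lit 1)
 (.cons (nat_lit 296) (nat_lit 541) (nat_lit 25) (nat_lit 1) .nil)), (nat_lit 32), (nat_lit 0), (nat_lit 0),
 (nat_lit 0), (45, 30, 37), [254, 957], 0⟩,
  ⟨⟨39, 32, -31, 20, -33, -40, -6, 24, -35⟩, (.cons (nat_lit 129) (nat_lit 49) (nat_lit 235) (nat_lit 1) (.cons
 (nat_lit 218) (nat_lit 299) (nat_lit 567) (nat_lit 1) .nil)), (nat_lit 22), (nat_lit 0), (nat_lit 0), (nat_lit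
 0), (25, 8, 7), [221, 236], 0⟩,
  ⟨⟨19, 0, 44, 0, -47, 0, 42, 0, -19⟩, (.cons (nat_lit 360) (nat_lit 92) (nat_lit 155) (nat_lit 1) (.cons (nat_lit 960) (nat_lit 19) (nat_lit 274) (nat_lit 1) .nil)), (nat_lit 29), (nat_lit 0), (nat_lit 0), (nat_lit 0), (31, 0, 24), [110, 326], 0⟩,
  mz,
  ⟨⟨9, -4, -61, 40, -23, -10, 22, 32, -29⟩, (.cons (nat_lit 105) (nat_lit 23) (nat_lit 341) (nat_lit 1) (.cons
 (nat_lit 420) (nat_lit 710) (nat_lit 896) (nat_lit 1) .nil)), (nat_lit 35), (nat_lit 0), (nat_lit 0), (nat_lit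
 0), (36, 19, 41), [159, 368], 0⟩,
  ⟨⟨-13, -36, 45, 40, -23, -30, -22, -32, -7⟩, (.cons (nat_lit 59) (nat_lit 52) (nat_lit 83) (nat_lit 1) (.cons
 (nat_lit 724) (nat_lit 404) (nat_lit 159) (nat_lit 1) .nil)), (nat_lit 27), (nat_lit 0), (nat_lit 0), (nat_lit
 0), (26, 14, 44), [85, 198], 0⟩,
  ⟨⟨51, -4, -32, 2, 45, -16, 12, -12, -49⟩, (.cons (nat_lit 360) (nat_lit 24) (nat_lit 294) (nat_lit 1) (.cons
 (nat_lit 960) (nat_lit 894) (nat_lit 404) (nat_lit 1) .nil)), (nat_lit 33), (nat_lit 0), (nat_lit 0), (nat_lit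
 0), (25, 36, 28), [281, 215], 0⟩,
  mz,
  ⟨⟨21, -44, -29, -20, -23, 50, 38, -8, -1⟩, (.cons (nat_lit 168) (nat_lit 262) (nat_lit 277) (nat_lit 1)
 (.cons (nat_lit 149) (nat_lit 497) (nat_lit 358) (nat_lit 1) .nil)), (nat_lit 15), (nat_lit 0), (nat_lit 0),
 (nat_lit 0), (18, 3, 46), [296, 585], 0⟩,
  ⟨⟨27, -32, -47, 40, 17, 0, 10, 16, -47⟩, (.cons (nat_lit 308) (nat_lit 232) (nat_lit 140) (nat_lit 1) (.cons
 (nat_lit 911) (nat_lit 897) (nat_lit 88) (nat_lit 1) .nil)), (nat_lit 11), (nat_lit 0), (nat_lit 0), (nat_lit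
 0), (46, 2, 24), [216, 960], 0⟩,
  mz,
  ⟨⟨-27, 32, -20, 40, 17, -40, -10, -16, -37⟩, (.cons (nat_lit 360) (nat_lit 5) (nat_lit 134) (nat_lit 1)
 (.cons (nat_lit 960) (nat_lit 291) (nat_lit 615) (nat_lit 1) .nil)), (nat_lit 38), (nat_lit 0), (nat_lit 0),
 (nat_lit 0), (43, 39, 2), [231, 231], 0⟩,
  mz,
  mz,
  mz,
  ⟨⟨45, -16, -1, 22, 35, -36, 20, -28, -37⟩, (.cons (nat_lit 195) (nat_lit 187) (nat_lit 342) (nat_lit 1)
 (.cons (nat_lit 864) (nat_lit 259) (nat_lit 498) (nat_lit 1) .nil)), (nat_lit 45), (nat_lit 0), (nat_lit 0),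
 (nat_lit 0), (12, 9, 21), [12, 881], 0⟩,
  mz,
  ⟨⟨-39, 8, -17, 2, -45, -16, 12, 12, -49⟩, (.cons (nat_lit 218) (nat_lit 35) (nat_lit 176) (nat_lit 1) (.cons
 (nat_lit 38) (nat_lit 712) (nat_lit 711) (nat_lit 1) .nil)), (nat_lit 14), (nat_lit 0), (nat_lit 0), (nat_lit
 0), (14, 27, 21), [221, 602], 0⟩,
  ⟨⟨49, 12, -13, 2, -35, 34, 28, -20, -41⟩, (.cons (nat_lit 88) (nat_lit 32) (nat_lit 147) (nat_lit 1) (.cons (nat_lit 949) (nat_lit 905) (nat_lit 823) (nat_lit 1) .nil)), (nat_lit 1), (nat_lit 0), (nat_lit 0), (nat_lit 0), (17, 17, 3), [9, 439], 0⟩,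
  ⟨⟨-45, 16, 44, -22, -35, -14, -20, 28, -17⟩, (.cons (nat_lit 225) (nat_lit 155) (nat_lit 1) (nat_lit 342)
 (.cons (nat_lit 299) (nat_lit 246) (nat_lit 960) (nat_lit 1) .nil)), (nat_lit 45), (nat_lit 0), (nat_lit 0),
 (nat_lit 0), (34, 2, 36), [274, 332], 0⟩]

/-- Moves. -/
noncomputable def t4_2 : List Mv := [
  mz,
  ⟨⟨45, 16, -1, 22, -35, -36, 20, 28, -37⟩, (.cons (nat_lit 160) (nat_lit 295) (nat_lit 306) (nat_lit 1) (.cons
 (nat_lit 80) (nat_lit 636) (nat_lit 469) (nat_lit 1) .nil)), (nat_lit 45), (nat_lit 0), (nat_lit 0), (nat_lit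
 0), (34, 2, 36), [82, 597], 0⟩,
  ⟨⟨21, -32, -49, 2, 35, -36, -28, -20, -13⟩, (.cons (nat_lit 162) (nat_lit 177) (nat_lit 60) (nat_lit 1)
 (.cons (nat_lit 245) (nat_lit 677) (nat_lit 1) (nat_lit 589) .nil)), (nat_lit 5), (nat_lit 0), (nat_lit 0),
 (nat_lit 0), (33, 30, 3), [205, 509], 0⟩,
  ⟨⟨-51, 4, 19, 2, 45, 14, -12, 12, -37⟩, (.cons (nat_lit 336) (nat_lit 162) (nat_lit 94) (nat_lit 1) (.cons (nat_lit 824) (nat_lit 868) (nat_lit 3) (nat_lit 1) .nil)), (nat_lit 44), (nat_lit 0), (nat_lit 0), (nat_lit 0), (7, 20, 21), [55, 908], 0⟩,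
  mz,
  ⟨⟨-45, -16, 44, -22, 35, -14, -20, -28, -17⟩, (.cons (nat_lit 344) (nat_lit 156) (nat_lit 289) (nat_lit 1)
 (.cons (nat_lit 23) (nat_lit 609) (nat_lit 914) (nat_lit 1) .nil)), (nat_lit 45), (nat_lit 0), (nat_lit 0),
 (nat_lit 0), (12, 9, 21), [45, 1], 0⟩,
  mz,
  mz,
  mz,
  ⟨⟨27, 32, -47, -40, 17, 0, 10, -16, -47⟩, (.cons (nat_lit 270) (nat_lit 106) (nat_lit 101) (nat_lit 1) (.cons
 (nat_lit 229) (nat_lit 912) (nat_lit 461) (nat_lit 1) .nil)), (nat_lit 38), (nat_lit 0), (nat_lit 0), (nat_lit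
 0), (43, 39, 2), [254, 30], 0⟩,
  mz,
  ⟨⟨17, 48, -17, 40, -17, -40, -10, 16, -37⟩, (.cons (nat_lit 96) (nat_lit 251) (nat_lit 177) (nat_lit 1)
 (.cons (nat_lit 875) (nat_lit 223) (nat_lit 539) (nat_lit 1) .nil)), (nat_lit 9), (nat_lit 0), (nat_lit 0),
 (nat_lit 0), (25, 45, 24), [135, 262], 0⟩,
  ⟨⟨17, -36, -45, -20, 23, -30, 38, 8, -37⟩, (.cons (nat_lit 10) (nat_lit 228) (nat_lit 312) (nat_lit 1) (.cons
 (nat_lit 804) (nat_lit 407) (nat_lit 811) (nat_lit 1) .nil)), (nat_lit 32), (nat_lit 0), (nat_lit 0), (nat_lit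
 0), (19, 44, 1), [299, 113], 0⟩,
  mz,
  ⟨⟨-51, -4, 19, -2, 45, -14, -12, -12, -37⟩, (.cons (nat_lit 89) (nat_lit 145) (nat_lit 243) (nat_lit 1)
 (.cons (nat_lit 266) (nat_lit 420) (nat_lit 248) (nat_lit 1) .nil)), (nat_lit 33), (nat_lit 0), (nat_lit 0),
 (nat_lit 0), (25, 36, 28), [74, 784], 0⟩,
  ⟨⟨9, 4, -61, 40, 23, -10, 22, -32, -29⟩, (.cons (nat_lit 101) (nat_lit 252) (nat_lit 181) (nat_lit 1) (.cons
 (nat_lit 129) (nat_lit 274) (nat_lit 907) (nat_lit 1) .nil)), (nat_lit 35), (nat_lit 0), (nat_lit 0), (nat_lit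
 0), (18, 33, 44), [269, 906], 0⟩,
  ⟨⟨-13, 36, 45, -40, -23, 30, -22, 32, -7⟩, (.cons (nat_lit 258) (nat_lit 93) (nat_lit 15) (nat_lit 1) (.cons
 (nat_lit 581) (nat_lit 794) (nat_lit 623) (nat_lit 1) .nil)), (nat_lit 12), (nat_lit 0), (nat_lit 0), (nat_lit
 0), (5, 19, 41), [11, 203], 0⟩,
  mz,
  ⟨⟨19, 0, -63, 0, -47, 0, 42, 0, -23⟩, (.cons (nat_lit 106) (nat_lit 215) (nat_lit 47) (nat_lit 1) (.cons (nat_lit 702) (nat_lit 397) (nat_lit 887) (nat_lit 1) .nil)), (nat_lit 29), (nat_lit 0), (nat_lit 0), (nat_lit 0), (16, 0, 23), [292, 832], 0⟩,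
  ⟨⟨-39, 32, 8, -20, -33, -20, 6, 24, -41⟩, (.cons (nat_lit 129) (nat_lit 10) (nat_lit 252) (nat_lit 1) (.cons
 (nat_lit 863) (nat_lit 914) (nat_lit 472) (nat_lit 1) .nil)), (nat_lit 22), (nat_lit 0), (nat_lit 0), (nat_lit
 0), (25, 8, 7), [106, 799], 0⟩,
  ⟨⟨17, -36, 28, -20, 23, 50, 38, 8, -1⟩, (.cons (nat_lit 304) (nat_lit 234) (nat_lit 191) (nat_lit 1) (.cons
 (nat_lit 420) (nat_lit 198) (nat_lit 756) (nat_lit 1) .nil)), (nat_lit 32), (nat_lit 0), (nat_lit 0), (nat_lit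
 0), (2, 17, 10), [111, 296], 0⟩,
  ⟨⟨-49, -12, 36, -2, 35, 36, -28, 20, -13⟩, (.cons (nat_lit 173) (nat_lit 218) (nat_lit 101) (nat_lit 1)
 (.cons (nat_lit 333) (nat_lit 240) (nat_lit 381) (nat_lit 1) .nil)), (nat_lit 1), (nat_lit 0), (nat_lit 0),
 (nat_lit 0), (24, 24, 7), [330, 187], 0⟩,
  ⟨⟨45, 8, -49, -20, 33, -20, 6, -24, -41⟩, (.cons (nat_lit 63) (nat_lit 20) (nat_lit 55) (nat_lit 1) (.cons (nat_lit 472) (nat_lit 36) (nat_lit 870) (nat_lit 1) .nil)), (nat_lit 25), (nat_lit 0), (nat_lit 0), (nat_lit 0), (40, 24, 21), [4, 668], 0⟩,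
  mz,
  mz,
  ⟨⟨39, -32, -31, 20, 33, -40, -6, -24, -35⟩, (.cons (nat_lit 149) (nat_lit 269) (nat_lit 108) (nat_lit 1)
 (.cons (nat_lit 226) (nat_lit 513) (nat_lit 385) (nat_lit 1) .nil)), (nat_lit 22), (nat_lit 0), (nat_lit 0),
 (nat_lit 0), (28, 24, 21), [359, 385], 0⟩,
  ⟨⟨-21, 32, -28, -2, -35, -34, 28, 20, -41⟩, (.cons (nat_lit 168) (nat_lit 73) (nat_lit 332) (nat_lit 1)
 (.cons (nat_lit 227) (nat_lit 400) (nat_lit 775) (nat_lit 1) .nil)), (nat_lit 5), (nat_lit 0), (nat_lit 0),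
 (nat_lit 0), (30, 23, 7), [183, 181], 0⟩,
  ⟨⟨17, 36, -45, -20, -23, -30, 38, -8, -37⟩, (.cons (nat_lit 257) (nat_lit 354) (nat_lit 329) (nat_lit 1)
 (.cons (nat_lit 296) (nat_lit 541) (nat_lit 25) (nat_lit 1) .nil)), (nat_lit 32), (nat_lit 0), (nat_lit 0),
 (nat_lit 0), (45, 30, 37), [254, 957], 0⟩,
  ⟨⟨-45, -8, -4, 20, -33, -40, -6, 24, -35⟩, (.cons (nat_lit 262) (nat_lit 149) (nat_lit 148) (nat_lit 1)
 (.cons (nat_lit 367) (nat_lit 856) (nat_lit 185) (nat_lit 1) .nil)), (nat_lit 25), (nat_lit 0), (nat_lit 0),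
 (nat_lit 0), (29, 8, 7), [334, 24], 0⟩,
  ⟨⟨19, 0, 44, 0, -47, 0, 42, 0, -19⟩, (.cons (nat_lit 360) (nat_lit 92) (nat_lit 155) (nat_lit 1) (.cons (nat_lit 960) (nat_lit 19) (nat_lit 274) (nat_lit 1) .nil)), (nat_lit 29), (nat_lit 0), (nat_lit 0), (nat_lit 0), (31, 0, 24), [110, 326], 0⟩,
  mz,
  ⟨⟨9, -4, -61, 40, -23, -10, 22, 32, -29⟩, (.cons (nat_lit 105) (nat_lit 23) (nat_lit 341) (nat_lit 1) (.cons
 (nat_lit 420) (nat_lit 710) (nat_lit 896) (nat_lit 1) .nil)), (nat_lit 35), (nat_lit 0), (nat_lit 0), (nat_lit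
 0), (36, 19, 41), [159, 368], 0⟩,
  ⟨⟨-9, 4, -52, 40, -23, -30, -22, -32, -7⟩, (.cons (nat_lit 189) (nat_lit 177) (nat_lit 1) (nat_lit 57) (.cons
 (nat_lit 135) (nat_lit 178) (nat_lit 767) (nat_lit 1) .nil)), (nat_lit 20), (nat_lit 0), (nat_lit 0), (nat_lit
 0), (18, 14, 44), [193, 454], 0⟩,
  ⟨⟨51, -4, -32, 2, 45, -16, 12, -12, -49⟩, (.cons (nat_lit 360) (nat_lit 24) (nat_lit 294) (nat_lit 1) (.cons
 (nat_lit 960) (nat_lit 894) (nat_lit 404) (nat_lit 1) .nil)), (nat_lit 33), (nat_lit 0), (nat_lit 0), (nat_lit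
 0), (25, 36, 28), [281, 215], 0⟩,
  mz,
  ⟨⟨17, 36, 28, 20, 23, -50, 38, -8, -1⟩, (.cons (nat_lit 138) (nat_lit 358) (nat_lit 262) (nat_lit 1) (.cons
 (nat_lit 255) (nat_lit 852) (nat_lit 118) (nat_lit 1) .nil)), (nat_lit 16), (nat_lit 0), (nat_lit 0), (nat_lit
 0), (28, 44, 46), [253, 463], 0⟩,
  ⟨⟨27, -32, -47, -40, -17, 0, 10, 16, -47⟩, (.cons (nat_lit 154) (nat_lit 56) (nat_lit 46) (nat_lit 1) (.cons
 (nat_lit 569) (nat_lit 521) (nat_lit 453) (nat_lit 1) .nil)), (nat_lit 38), (nat_lit 0), (nat_lit 0), (nat_lit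
 0), (46, 45, 24), [242, 47], 0⟩,
  mz,
  ⟨⟨-27, 32, -20, 40, 17, -40, -10, -16, -37⟩, (.cons (nat_lit 360) (nat_lit 5) (nat_lit 134) (nat_lit 1)
 (.cons (nat_lit 960) (nat_lit 291) (nat_lit 615) (nat_lit 1) .nil)), (nat_lit 38), (nat_lit 0), (nat_lit 0),
 (nat_lit 0), (43, 39, 2), [231, 231], 0⟩,
  mz,
  mz,
  mz,
  ⟨⟨45, -16, -1, 22, 35, -36, 20, -28, -37⟩, (.cons (nat_lit 195) (nat_lit 187) (nat_lit 342) (nat_lit 1)
 (.cons (nat_lit 864) (nat_lit 259) (nat_lit 498) (nat_lit 1) .nil)), (nat_lit 45), (nat_lit 0), (nat_lit 0),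
 (nat_lit 0), (12, 9, 21), [12, 881], 0⟩,
  mz,
  ⟨⟨-39, 8, -17, -2, 45, 16, 12, 12, -49⟩, (.cons (nat_lit 231) (nat_lit 122) (nat_lit 307) (nat_lit 1) (.cons
 (nat_lit 484) (nat_lit 806) (nat_lit 470) (nat_lit 1) .nil)), (nat_lit 3), (nat_lit 0), (nat_lit 0), (nat_lit
 0), (14, 20, 21), [286, 552], 0⟩,
  ⟨⟨49, 12, -13, -2, 35, -34, 28, -20, -41⟩, (.cons (nat_lit 137) (nat_lit 12) (nat_lit 76) (nat_lit 1) (.cons
 (nat_lit 426) (nat_lit 181) (nat_lit 233) (nat_lit 1) .nil)), (nat_lit 42), (nat_lit 0), (nat_lit 0), (nat_lit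
 0), (17, 30, 3), [325, 708], 0⟩,
  ⟨⟨-45, 16, 44, -22, -35, -14, -20, 28, -17⟩, (.cons (nat_lit 225) (nat_lit 155) (nat_lit 1) (nat_lit 342)
 (.cons (nat_lit 299) (nat_lit 246) (nat_lit 960) (nat_lit 1) .nil)), (nat_lit 45), (nat_lit 0), (nat_lit 0),
 (nat_lit 0), (34, 2, 36), [274, 332], 0⟩]

/-- Moves. -/
noncomputable def t4_8 : List Mv := [
  mz,
  ⟨⟨45, 16, -1, 22, -35, -36, 20, 28, -37⟩, (.cons (nat_lit 160) (nat_lit 295) (nat_lit 306) (nat_lit 1) (.cons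
 (nat_lit 80) (nat_lit 636) (nat_lit 469) (nat_lit 1) .nil)), (nat_lit 45), (nat_lit 0), (nat_lit 0), (nat_lit
 0), (34, 2, 36), [82, 597], 0⟩,
  ⟨⟨21, -32, -49, 2, 35, -36, -28, -20, -13⟩, (.cons (nat_lit 162) (nat_lit 177) (nat_lit 60) (nat_lit 1)
 (.cons (nat_lit 245) (nat_lit 677) (nat_lit 1) (nat_lit 589) .nil)), (nat_lit 5), (nat_lit 0), (nat_lit 0),
 (nat_lit 0), (33, 30, 3), [205, 509], 0⟩,
  ⟨⟨-51, 4, 19, -2, -45, -14, -12, 12, -37⟩, (.cons (nat_lit 262) (nat_lit 173) (nat_lit 193) (nat_lit 1)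
 (.cons (nat_lit 940) (nat_lit 526) (nat_lit 246) (nat_lit 1) .nil)), (nat_lit 33), (nat_lit 0), (nat_lit 0),
 (nat_lit 0), (7, 27, 21), [337, 430], 0⟩,
  mz,
  ⟨⟨25, -12, -61, -22, 35, -14, -20, -28, -17⟩, (.cons (nat_lit 78) (nat_lit 273) (nat_lit 13) (nat_lit 1)
 (.cons (nat_lit 124) (nat_lit 515) (nat_lit 455) (nat_lit 1) .nil)), (nat_lit 2), (nat_lit 0), (nat_lit 0),
 (nat_lit 0), (9, 9, 21), [326, 153], 0⟩,
  mz,
  mz,
  mz,
  ⟨⟨27, 32, -47, 40, -17, 0, 10, -16, -47⟩, (.cons (nat_lit 267) (nat_lit 129) (nat_lit 32) (nat_lit 1) (.cons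
 (nat_lit 257) (nat_lit 349) (nat_lit 822) (nat_lit 1) .nil)), (nat_lit 11), (nat_lit 0), (nat_lit 0), (nat_lit
 0), (43, 8, 2), [116, 111], 0⟩,
  mz,
  ⟨⟨17, 48, -17, 40, -17, -40, -10, 16, -37⟩, (.cons (nat_lit 96) (nat_lit 251) (nat_lit 177) (nat_lit 1)
 (.cons (nat_lit 875) (nat_lit 223) (nat_lit 539) (nat_lit 1) .nil)), (nat_lit 9), (nat_lit 0), (nat_lit 0),
 (nat_lit 0), (25, 45, 24), [135, 262], 0⟩,
  ⟨⟨17, -36, -45, 20, -23, 30, 38, 8, -37⟩, (.cons (nat_lit 7) (nat_lit 71) (nat_lit 256) (nat_lit 1) (.cons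
 (nat_lit 306) (nat_lit 169) (nat_lit 601) (nat_lit 1) .nil)), (nat_lit 16), (nat_lit 0), (nat_lit 0), (nat_lit
 0), (19, 3, 1), [178, 489], 0⟩,
  mz,
  ⟨⟨-51, -4, 19, -2, 45, -14, -12, -12, -37⟩, (.cons (nat_lit 89) (nat_lit 145) (nat_lit 243) (nat_lit 1)
 (.cons (nat_lit 266) (nat_lit 420) (nat_lit 248) (nat_lit 1) .nil)), (nat_lit 33), (nat_lit 0), (nat_lit 0),
 (nat_lit 0), (25, 36, 28), [74, 784], 0⟩,
  ⟨⟨9, 4, -61, 40, 23, -10, 22, -32, -29⟩, (.cons (nat_lit 101) (nat_lit 252) (nat_lit 181) (nat_lit 1) (.cons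
 (nat_lit 129) (nat_lit 274) (nat_lit 907) (nat_lit 1) .nil)), (nat_lit 35), (nat_lit 0), (nat_lit 0), (nat_lit
 0), (18, 33, 44), [269, 906], 0⟩,
  ⟨⟨-9, -4, -52, -40, -23, 30, -22, 32, -7⟩, (.cons (nat_lit 327) (nat_lit 259) (nat_lit 244) (nat_lit 1)
 (.cons (nat_lit 505) (nat_lit 268) (nat_lit 953) (nat_lit 1) .nil)), (nat_lit 35), (nat_lit 0), (nat_lit 0),
 (nat_lit 0), (36, 19, 41), [303, 534], 0⟩,
  mz,
  ⟨⟨23, 0, 40, 0, -47, 0, 42, 0, -23⟩, (.cons (nat_lit 360) (nat_lit 352) (nat_lit 31) (nat_lit 1) (.cons (nat_lit 960) (nat_lit 783) (nat_lit 17) (nat_lit 1) .nil)), (nat_lit 18), (nat_lit 0), (nat_lit 0), (nat_lit 0), (7, 0, 23), [70, 908], 0⟩,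
  ⟨⟨-39, 32, 8, -20, -33, -20, 6, 24, -41⟩, (.cons (nat_lit 129) (nat_lit 10) (nat_lit 252) (nat_lit 1) (.cons
 (nat_lit 863) (nat_lit 914) (nat_lit 472) (nat_lit 1) .nil)), (nat_lit 22), (nat_lit 0), (nat_lit 0), (nat_lit
 0), (25, 8, 7), [106, 799], 0⟩,
  ⟨⟨17, -36, 28, 20, -23, -50, 38, 8, -1⟩, (.cons (nat_lit 289) (nat_lit 252) (nat_lit 326) (nat_lit 1) (.cons
 (nat_lit 256) (nat_lit 165) (nat_lit 315) (nat_lit 1) .nil)), (nat_lit 16), (nat_lit 0), (nat_lit 0), (nat_lit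
 0), (2, 30, 10), [338, 537], 0⟩,
  ⟨⟨21, 32, -49, 2, -35, -36, -28, 20, -13⟩, (.cons (nat_lit 255) (nat_lit 14) (nat_lit 224) (nat_lit 1) (.cons
 (nat_lit 483) (nat_lit 64) (nat_lit 94) (nat_lit 1) .nil)), (nat_lit 5), (nat_lit 0), (nat_lit 0), (nat_lit
 0), (30, 23, 7), [329, 380], 0⟩,
  ⟨⟨45, 8, -49, 20, -33, 20, 6, -24, -41⟩, (.cons (nat_lit 14) (nat_lit 36) (nat_lit 320) (nat_lit 1) (.cons
 (nat_lit 745) (nat_lit 197) (nat_lit 425) (nat_lit 1) .nil)), (nat_lit 28), (nat_lit 0), (nat_lit 0), (nat_lit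
 0), (40, 23, 21), [357, 639], 0⟩,
  mz,
  mz,
  ⟨⟨-45, 8, -4, 20, 33, -40, -6, -24, -35⟩, (.cons (nat_lit 360) (nat_lit 94) (nat_lit 250) (nat_lit 1) (.cons
 (nat_lit 960) (nat_lit 787) (nat_lit 294) (nat_lit 1) .nil)), (nat_lit 25), (nat_lit 0), (nat_lit 0), (nat_lit
 0), (40, 24, 21), [113, 824], 0⟩,
  ⟨⟨-21, 32, -28, -2, -35, -34, 28, 20, -41⟩, (.cons (nat_lit 168) (nat_lit 73) (nat_lit 332) (nat_lit 1)
 (.cons (nat_lit 227) (nat_lit 400) (nat_lit 775) (nat_lit 1) .nil)), (nat_lit 5), (nat_lit 0), (nat_lit 0),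
 (nat_lit 0), (30, 23, 7), [183, 181], 0⟩,
  ⟨⟨17, 36, -45, 20, 23, 30, 38, -8, -37⟩, (.cons (nat_lit 329) (nat_lit 298) (nat_lit 359) (nat_lit 1) (.cons
 (nat_lit 842) (nat_lit 97) (nat_lit 765) (nat_lit 1) .nil)), (nat_lit 16), (nat_lit 0), (nat_lit 0), (nat_lit
 0), (45, 17, 37), [155, 7], 0⟩,
  ⟨⟨-45, -8, -4, 20, -33, -40, -6, 24, -35⟩, (.cons (nat_lit 262) (nat_lit 149) (nat_lit 148) (nat_lit 1)
 (.cons (nat_lit 367) (nat_lit 856) (nat_lit 185) (nat_lit 1) .nil)), (nat_lit 25), (nat_lit 0), (nat_lit 0),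
 (nat_lit 0), (29, 8, 7), [334, 24], 0⟩,
  ⟨⟨19, 0, 44, 0, -47, 0, 42, 0, -19⟩, (.cons (nat_lit 360) (nat_lit 92) (nat_lit 155) (nat_lit 1) (.cons (nat_lit 960) (nat_lit 19) (nat_lit 274) (nat_lit 1) .nil)), (nat_lit 29), (nat_lit 0), (nat_lit 0), (nat_lit 0), (31, 0, 24), [110, 326], 0⟩,
  mz,
  ⟨⟨9, -4, -61, 40, -23, -10, 22, 32, -29⟩, (.cons (nat_lit 105) (nat_lit 23) (nat_lit 341) (nat_lit 1) (.cons
 (nat_lit 420) (nat_lit 710) (nat_lit 896) (nat_lit 1) .nil)), (nat_lit 35), (nat_lit 0), (nat_lit 0), (nat_lit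
 0), (36, 19, 41), [159, 368], 0⟩,
  ⟨⟨-13, -36, 45, 40, -23, -30, -22, -32, -7⟩, (.cons (nat_lit 59) (nat_lit 52) (nat_lit 83) (nat_lit 1) (.cons
 (nat_lit 724) (nat_lit 404) (nat_lit 159) (nat_lit 1) .nil)), (nat_lit 27), (nat_lit 0), (nat_lit 0), (nat_lit
 0), (26, 14, 44), [85, 198], 0⟩,
  ⟨⟨51, -4, -32, 2, 45, -16, 12, -12, -49⟩, (.cons (nat_lit 360) (nat_lit 24) (nat_lit 294) (nat_lit 1) (.cons
 (nat_lit 960) (nat_lit 894) (nat_lit 404) (nat_lit 1) .nil)), (nat_lit 33), (nat_lit 0), (nat_lit 0), (nat_lit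
 0), (25, 36, 28), [281, 215], 0⟩,
  mz,
  ⟨⟨17, 36, 28, 20, 23, -50, 38, -8, -1⟩, (.cons (nat_lit 138) (nat_lit 358) (nat_lit 262) (nat_lit 1) (.cons
 (nat_lit 255) (nat_lit 852) (nat_lit 118) (nat_lit 1) .nil)), (nat_lit 16), (nat_lit 0), (nat_lit 0), (nat_lit
 0), (28, 44, 46), [253, 463], 0⟩,
  ⟨⟨27, -32, -47, -40, -17, 0, 10, 16, -47⟩, (.cons (nat_lit 154) (nat_lit 56) (nat_lit 46) (nat_lit 1) (.cons
 (nat_lit 569) (nat_lit 521) (nat_lit 453) (nat_lit 1) .nil)), (nat_lit 38), (nat_lit 0), (nat_lit 0), (nat_lit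
 0), (46, 45, 24), [242, 47], 0⟩,
  mz,
  ⟨⟨17, -48, -17, -40, -17, 40, -10, -16, -37⟩, (.cons (nat_lit 143) (nat_lit 295) (nat_lit 281) (nat_lit 1)
 (.cons (nat_lit 885) (nat_lit 195) (nat_lit 793) (nat_lit 1) .nil)), (nat_lit 36), (nat_lit 0), (nat_lit 0),
 (nat_lit 0), (6, 8, 2), [70, 470], 0⟩,
  mz,
  mz,
  mz,
  ⟨⟨45, -16, -1, 22, 35, -36, 20, -28, -37⟩, (.cons (nat_lit 195) (nat_lit 187) (nat_lit 342) (nat_lit 1)
 (.cons (nat_lit 864) (nat_lit 259) (nat_lit 498) (nat_lit 1) .nil)), (nat_lit 45), (nat_lit 0), (nat_lit 0),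
 (nat_lit 0), (12, 9, 21), [12, 881], 0⟩,
  mz,
  ⟨⟨51, 4, -32, 2, -45, -16, 12, 12, -49⟩, (.cons (nat_lit 52) (nat_lit 239) (nat_lit 188) (nat_lit 1) (.cons
 (nat_lit 141) (nat_lit 580) (nat_lit 1) (nat_lit 372) .nil)), (nat_lit 33), (nat_lit 0), (nat_lit 0), (nat_lit
 0), (7, 27, 21), [324, 888], 0⟩,
  ⟨⟨-21, -32, -28, 2, -35, 34, 28, -20, -41⟩, (.cons (nat_lit 247) (nat_lit 248) (nat_lit 146) (nat_lit 1)
 (.cons (nat_lit 45) (nat_lit 462) (nat_lit 45) (nat_lit 1) .nil)), (nat_lit 46), (nat_lit 0), (nat_lit 0),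
 (nat_lit 0), (33, 17, 3), [326, 561], 0⟩,
  ⟨⟨-45, 16, 44, -22, -35, -14, -20, 28, -17⟩, (.cons (nat_lit 225) (nat_lit 155) (nat_lit 1) (nat_lit 342)
 (.cons (nat_lit 299) (nat_lit 246) (nat_lit 960) (nat_lit 1) .nil)), (nat_lit 45), (nat_lit 0), (nat_lit 0),
 (nat_lit 0), (34, 2, 36), [274, 332], 0⟩]

/-- All the moves. -/
noncomputable def tabs : List (List (List Mv)) := [[[], t0_1, t0_2, [], [], [], [], [], t0_8], [[], t1_1, t1_2, [], [], [], [], [], t1_8], [], [], [[], t4_1, t4_2, [], [], [], [], [], t4_8]]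

/-- Subtrie. -/
noncomputable def T1 : Tr := (.ev (nat_lit 20) (nat_lit 70371666563084) (.nd (nat_lit 33) (.br (nat_lit 20)
 (.br (nat_lit 13) (.br (nat_lit 4) (.br (nat_lit 2) (.ch (nat_lit 1) (.ev (nat_lit 52) (nat_lit
 35459519250432) (.ev (nat_lit 64) (nat_lit 22106200951330) .dd))) (.ch (nat_lit 2) (.ev (nat_lit 52) (nat_lit
 35218736285728) (.ev (nat_lit 84) (nat_lit 68719476736) (.ev (nat_lit 244) (nat_lit 524288) (.ev (nat_lit 372)
 (nat_lit 4398046511104) (.ev (nat_lit 532) (nat_lit 2) (.ev (nat_lit 564) (nat_lit 8589934592) (.ev (nat_lit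
 628) (nat_lit 32768) (.ev (nat_lit 660) (nat_lit 274877906944) (.ev (nat_lit 724) (nat_lit 17592186044416)
 (.ev (nat_lit 1220) (nat_lit 512) (.ev (nat_lit 1248) (nat_lit 4563419136) (.ev (nat_lit 1261) (nat_lit 65536)
 .dd)))))))))))))) (.br (nat_lit 6) (.ch (nat_lit 4) (.ev (nat_lit 52) (nat_lit 17974438461474) (.ev (nat_lit
 148) (nat_lit 32768) (.ev (nat_lit 180) (nat_lit 524288) (.ev (nat_lit 244) (nat_lit 4210688) (.ev (nat_lit
 276) (nat_lit 8589934592) (.ev (nat_lit 308) (nat_lit 4398046511104) (.ev (nat_lit 724) (nat_lit 2048) (.ev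
 (nat_lit 960) (nat_lit 35184640524288) (.ev (nat_lit 973) (nat_lit 512) .dd)))))))))) (.br (nat_lit 8) (.ch
 (nat_lit 6) (.ev (nat_lit 52) (nat_lit 57483842390530) (.ev (nat_lit 180) (nat_lit 4194304) (.ev (nat_lit 308)
 (nat_lit 32) (.ev (nat_lit 468) (nat_lit 268435456) (.ev (nat_lit 704) (nat_lit 81605181440) .dd)))))) (.ch
 (nat_lit 8) (.ev (nat_lit 52) (nat_lit 57174873868800) (.ev (nat_lit 192) (nat_lit 390846332962) .dd))))))
 (.br (nat_lit 15) (.br (nat_lit 14) (.ch (nat_lit 13) (.ev (nat_lit 52) (nat_lit 352460259330) (.ev (nat_lit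
 84) (nat_lit 2048) (.ev (nat_lit 116) (nat_lit 34359738368) (.ev (nat_lit 340) (nat_lit 524288) (.ev (nat_lit
 692) (nat_lit 65536) (.ev (nat_lit 916) (nat_lit 4294967296) (.ev (nat_lit 980) (nat_lit 512) (.ev (nat_lit
 1460) (nat_lit 17592186044416) (.ev (nat_lit 1492) (nat_lit 32) (.ev (nat_lit 1508) (nat_lit 4398046511104)
 (.ev (nat_lit 1517) (nat_lit 35184372088832) .dd)))))))))))) (.ch (nat_lit 14) (.ev (nat_lit 52) (nat_lit
 4410931776032) (.ev (nat_lit 84) (nat_lit 17592186044416) (.ev (nat_lit 116) (nat_lit 4194304) (.ev (nat_lit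
 148) (nat_lit 34359738368) (.ev (nat_lit 576) (nat_lit 35528238448642) .dd))))))) (.br (nat_lit 18) (.ch
 (nat_lit 15) (.ev (nat_lit 52) (nat_lit 39685502337024) (.ev (nat_lit 84) (nat_lit 512) (.ev (nat_lit 148)
 (nat_lit 2048) (.ev (nat_lit 180) (nat_lit 32768) (.ev (nat_lit 244) (nat_lit 17592186044416) (.ev (nat_lit
 436) (nat_lit 4294967298) (.ev (nat_lit 628) (nat_lit 524288) (.ev (nat_lit 820) (nat_lit 32) (.ev (nat_lit
 1332) (nat_lit 274877906944) (.ev (nat_lit 1412) (nat_lit 8589934592) (.ev (nat_lit 1444) (nat_lit 268435456)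
 (.ev (nat_lit 1453) (nat_lit 16384) .dd))))))))))))) (.br (nat_lit 19) (.ch (nat_lit 18) (.ev (nat_lit 52)
 (nat_lit 68719594016) (.ev (nat_lit 148) (nat_lit 17592186044416) (.ev (nat_lit 160) (nat_lit 39904814563330)
 .dd)))) (.ch (nat_lit 19) (.ev (nat_lit 52) (nat_lit 17910013724672) (.ev (nat_lit 116) (nat_lit 16384) (.ev
 (nat_lit 148) (nat_lit 524288) (.ev (nat_lit 320) (nat_lit 39655705936418) .dd))))))))) (.br (nat_lit 25) (.br
 (nat_lit 22) (.br (nat_lit 21) (.ch (nat_lit 20) (.ev (nat_lit 52) (nat_lit 35291750810114) (.ev (nat_lit 244)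
 (nat_lit 32768) (.ev (nat_lit 276) (nat_lit 268435456) (.ev (nat_lit 404) (nat_lit 524288) (.ev (nat_lit 436)
 (nat_lit 32) (.ev (nat_lit 628) (nat_lit 2048) (.ev (nat_lit 1268) (nat_lit 17592186044416) (.ev (nat_lit
 1300) (nat_lit 274877906944) (.ev (nat_lit 1364) (nat_lit 8589934592) (.ev (nat_lit 1373) (nat_lit
 4398046511104) .dd))))))))))) (.ch (nat_lit 21) (.ev (nat_lit 52) (nat_lit 4398046874114) (.ev (nat_lit 116)
 (nat_lit 68719476736) (.ev (nat_lit 224) (nat_lit 53098953850912) .dd))))) (.br (nat_lit 23) (.ch (nat_lit 22)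
 (.ev (nat_lit 52) (nat_lit 39655433945600) (.ev (nat_lit 212) (nat_lit 34359738368) (.ev (nat_lit 340)
 (nat_lit 2048) (.ev (nat_lit 404) (nat_lit 17592186044416) (.ev (nat_lit 436) (nat_lit 274877906944) (.ev
 (nat_lit 564) (nat_lit 268435456) (.ev (nat_lit 724) (nat_lit 4194304) (.ev (nat_lit 928) (nat_lit 8589934626)
 .dd))))))))) (.br (nat_lit 24) (.ch (nat_lit 23) (.ev (nat_lit 52) (nat_lit 4564189698) (.ev (nat_lit 128)
 (nat_lit 57561156012064) .dd))) (.ch (nat_lit 24) (.ev (nat_lit 52) (nat_lit 17880217323552) (.ev (nat_lit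
 148) (nat_lit 16384) (.ev (nat_lit 212) (nat_lit 524288) (.ev (nat_lit 340) (nat_lit 512) (.ev (nat_lit 468)
 (nat_lit 65536) (.ev (nat_lit 608) (nat_lit 39685502271490) .dd)))))))))) (.br (nat_lit 27) (.br (nat_lit 26)
 (.ch (nat_lit 25) (.ev (nat_lit 52) (nat_lit 17970416386080) (.ev (nat_lit 84) (nat_lit 16384) (.ev (nat_lit
 212) (nat_lit 32768) (.ev (nat_lit 308) (nat_lit 2) (.ev (nat_lit 596) (nat_lit 2048) (.ev (nat_lit 692)
 (nat_lit 35184372088832) (.ev (nat_lit 788) (nat_lit 8590196736) (.ev (nat_lit 1124) (nat_lit 4294967296) (.ev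
 (nat_lit 1206) (nat_lit 512) (.ev (nat_lit 1213) (nat_lit 4398046511104) .dd))))))))))) (.ch (nat_lit 26) (.ev
 (nat_lit 52) (nat_lit 4788888537090) (.ev (nat_lit 116) (nat_lit 524288) (.ev (nat_lit 212) (nat_lit
 17592186044416) (.ev (nat_lit 384) (nat_lit 35184645095968) .dd)))))) (.br (nat_lit 28) (.ch (nat_lit 27) (.ev
 (nat_lit 52) (nat_lit 4745939173410) (.ev (nat_lit 84) (nat_lit 524288) (.ev (nat_lit 212) (nat_lit 2048) (.ev
 (nat_lit 404) (nat_lit 34359738880) (.ev (nat_lit 468) (nat_lit 35184372088832) (.ev (nat_lit 596) (nat_lit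
 17592190238720) (.ev (nat_lit 1076) (nat_lit 65536) (.ev (nat_lit 1142) (nat_lit 8589934592) (.ev (nat_lit
 1149) (nat_lit 268435456) .dd)))))))))) (.br (nat_lit 29) (.ch (nat_lit 28) (.ev (nat_lit 52) (nat_lit
 382252089888) (.ev (nat_lit 96) (nat_lit 57183468111874) .dd))) (.ch (nat_lit 29) (.ev (nat_lit 52) (nat_lit
 35231621466624) (.ev (nat_lit 84) (nat_lit 32768) (.ev (nat_lit 116) (nat_lit 17592186044416) (.ev (nat_lit
 148) (nat_lit 68719476736) (.ev (nat_lit 372) (nat_lit 2) (.ev (nat_lit 500) (nat_lit 262144) (.ev (nat_lit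
 852) (nat_lit 268500992) (.ev (nat_lit 1044) (nat_lit 32) (.ev (nat_lit 1492) (nat_lit 274877906944) (.ev
 (nat_lit 1501) (nat_lit 4398046511104) .dd))))))))))))))))))

/-- Subtrie. -/
noncomputable def T2 : Tr := (.ev (nat_lit 20) (nat_lit 4443480054306) (.nd (nat_lit 33) (.br (nat_lit 20) (.br
 (nat_lit 13) (.br (nat_lit 4) (.br (nat_lit 2) (.ch (nat_lit 1) (.ev (nat_lit 52) (nat_lit 105828668407808)
 (.ev (nat_lit 148) (nat_lit 4) (.ev (nat_lit 436) (nat_lit 8) (.ev (nat_lit 500) (nat_lit 65536) (.ev (nat_lit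
 564) (nat_lit 68719476736) (.ev (nat_lit 756) (nat_lit 33554432) (.ev (nat_lit 820) (nat_lit 17592186044416)
 (.ev (nat_lit 1568) (nat_lit 4299161600) .dd))))))))) (.ch (nat_lit 2) (.ev (nat_lit 52) (nat_lit
 35184946708484) (.ev (nat_lit 148) (nat_lit 274877906944) (.ev (nat_lit 244) (nat_lit 134217728) (.ev (nat_lit
 372) (nat_lit 1048576) (.ev (nat_lit 512) (nat_lit 88033946828808) .dd))))))) (.br (nat_lit 6) (.ch (nat_lit
 4) (.ev (nat_lit 52) (nat_lit 88309359509504) (.ev (nat_lit 180) (nat_lit 134217728) (.ev (nat_lit 308)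
 (nat_lit 8) (.ev (nat_lit 340) (nat_lit 4) (.ev (nat_lit 596) (nat_lit 2097152) (.ev (nat_lit 1508) (nat_lit
 35184376283136) (.ev (nat_lit 1588) (nat_lit 1048576) (.ev (nat_lit 1597) (nat_lit 33554432) .dd))))))))) (.br
 (nat_lit 8) (.ch (nat_lit 6) (.ev (nat_lit 52) (nat_lit 53051437154304) (.ev (nat_lit 212) (nat_lit 2097152)
 (.ev (nat_lit 468) (nat_lit 68719476736) (.ev (nat_lit 500) (nat_lit 70368744177664) (.ev (nat_lit 948)
 (nat_lit 4) (.ev (nat_lit 1088) (nat_lit 134217736) (.ev (nat_lit 1300) (nat_lit 536870912) (.ev (nat_lit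
 1332) (nat_lit 4294967296) (.nd (nat_lit 1600) (.ch (nat_lit 12) (.fin (nat_lit
 576470098156929604))))))))))))) (.ch (nat_lit 8) (.ev (nat_lit 52) (nat_lit 52776728002568) (.ev (nat_lit 212)
 (nat_lit 4) (.ev (nat_lit 276) (nat_lit 65536) (.ev (nat_lit 372) (nat_lit 4294967296) (.ev (nat_lit 436)
 (nat_lit 4194304) (.ev (nat_lit 1012) (nat_lit 70368744177664) (.ev (nat_lit 1312) (nat_lit 275415826432) (.ev
 (nat_lit 1325) (nat_lit 68719476736) .dd)))))))))))) (.br (nat_lit 15) (.br (nat_lit 14) (.ch (nat_lit 13)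
 (.ev (nat_lit 52) (nat_lit 343769350148) (.ev (nat_lit 352) (nat_lit 123150137360392) .dd))) (.ch (nat_lit 14)
 (.ev (nat_lit 52) (nat_lit 70373577129984) (.ev (nat_lit 116) (nat_lit 35184372088832) (.ev (nat_lit 180)
 (nat_lit 274877906944) (.ev (nat_lit 244) (nat_lit 4) (.ev (nat_lit 340) (nat_lit 134217728) (.ev (nat_lit
 532) (nat_lit 17592186044416) (.ev (nat_lit 692) (nat_lit 68719476736) (.ev (nat_lit 948) (nat_lit 2097152)
 (.ev (nat_lit 1044) (nat_lit 4194304) (.ev (nat_lit 1492) (nat_lit 8) (.ev (nat_lit 1501) (nat_lit 33554432)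
 .dd))))))))))))) (.br (nat_lit 18) (.ch (nat_lit 15) (.ev (nat_lit 52) (nat_lit 35253668347908) (.ev (nat_lit
 212) (nat_lit 274877906944) (.ev (nat_lit 276) (nat_lit 70368744177664) (.ev (nat_lit 308) (nat_lit
 17592186044416) (.ev (nat_lit 896) (nat_lit 4430233608) .dd)))))) (.br (nat_lit 19) (.ch (nat_lit 18) (.ev
 (nat_lit 52) (nat_lit 70437601083392) (.ev (nat_lit 308) (nat_lit 4194304) (.ev (nat_lit 404) (nat_lit 4) (.ev
 (nat_lit 596) (nat_lit 274877906944) (.ev (nat_lit 820) (nat_lit 8) (.ev (nat_lit 916) (nat_lit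
 17592186044416) (.ev (nat_lit 1300) (nat_lit 33554432) (.ev (nat_lit 1332) (nat_lit 536870912) (.ev (nat_lit
 1492) (nat_lit 4294967296) (.ev (nat_lit 1501) (nat_lit 35184372088832) .dd))))))))))) (.ch (nat_lit 19) (.ev
 (nat_lit 52) (nat_lit 88236380717060) (.ev (nat_lit 308) (nat_lit 4294967296) (.ev (nat_lit 340) (nat_lit
 35184372088832) (.ev (nat_lit 660) (nat_lit 8) (.ev (nat_lit 884) (nat_lit 68719476736) (.ev (nat_lit 916)
 (nat_lit 1048576) (.ev (nat_lit 1110) (nat_lit 4194304) (.ev (nat_lit 1117) (nat_lit 134217728)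
 .dd))))))))))))) (.br (nat_lit 25) (.br (nat_lit 22) (.br (nat_lit 21) (.ch (nat_lit 20) (.ev (nat_lit 52)
 (nat_lit 35257390792712) (.ev (nat_lit 416) (nat_lit 88236515917828) .dd))) (.ch (nat_lit 21) (.ev (nat_lit
 52) (nat_lit 70369281114120) (.ev (nat_lit 84) (nat_lit 134217728) (.ev (nat_lit 180) (nat_lit 2097152) (.ev
 (nat_lit 308) (nat_lit 33554432) (.ev (nat_lit 660) (nat_lit 4194304) (.ev (nat_lit 916) (nat_lit 4294967296)
 (.ev (nat_lit 1364) (nat_lit 68719476736) (.ev (nat_lit 1380) (nat_lit 35184372088832) (.ev (nat_lit 1478)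
 (nat_lit 17867064999940) .dd))))))))))) (.br (nat_lit 23) (.ch (nat_lit 22) (.ev (nat_lit 52) (nat_lit
 35257521864712) (.ev (nat_lit 84) (nat_lit 4) (.ev (nat_lit 628) (nat_lit 2097152) (.ev (nat_lit 660) (nat_lit
 33554432) (.ev (nat_lit 852) (nat_lit 70368744177664) (.ev (nat_lit 1280) (nat_lit 17867600822272) (.ev
 (nat_lit 1293) (nat_lit 4194304) .dd)))))))) (.br (nat_lit 24) (.ch (nat_lit 23) (.ev (nat_lit 52) (nat_lit
 4969201668) (.ev (nat_lit 84) (nat_lit 35184372088832) (.ev (nat_lit 276) (nat_lit 68719476736) (.ev (nat_lit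
 372) (nat_lit 8) (.ev (nat_lit 640) (nat_lit 88235845943296) .dd)))))) (.ch (nat_lit 24) (.ev (nat_lit 52)
 (nat_lit 17872033153028) (.ev (nat_lit 148) (nat_lit 35184372088832) (.ev (nat_lit 736) (nat_lit
 70437501468680) .dd))))))) (.br (nat_lit 27) (.br (nat_lit 26) (.ch (nat_lit 25) (.ev (nat_lit 52) (nat_lit
 17936325607436) (.ev (nat_lit 84) (nat_lit 2097152) (.ev (nat_lit 436) (nat_lit 4294967296) (.ev (nat_lit 724)
 (nat_lit 134217728) (.ev (nat_lit 1124) (nat_lit 33554432) (.ev (nat_lit 1220) (nat_lit 35184372088832) (.ev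
 (nat_lit 1229) (nat_lit 70368744177664) .dd)))))))) (.ch (nat_lit 26) (.ev (nat_lit 52) (nat_lit 348027617280)
 (.ev (nat_lit 180) (nat_lit 35184372088832) (.ev (nat_lit 340) (nat_lit 2097152) (.ev (nat_lit 372) (nat_lit
 17592186044416) (.ev (nat_lit 436) (nat_lit 536870912) (.ev (nat_lit 468) (nat_lit 70368744177664) (.ev
 (nat_lit 532) (nat_lit 8) (.ev (nat_lit 692) (nat_lit 65536) (.ev (nat_lit 756) (nat_lit 4194304) (.ev
 (nat_lit 1024) (nat_lit 4) (.ev (nat_lit 1037) (nat_lit 33554432) .dd))))))))))))) (.br (nat_lit 28) (.ch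
 (nat_lit 27) (.ev (nat_lit 52) (nat_lit 348563439616) (.ev (nat_lit 288) (nat_lit 123145343270924) .dd))) (.br
 (nat_lit 29) (.ch (nat_lit 28) (.ev (nat_lit 52) (nat_lit 70716770746380) (.ev (nat_lit 116) (nat_lit 2097152)
 (.ev (nat_lit 372) (nat_lit 536870912) (.ev (nat_lit 468) (nat_lit 65536) (.ev (nat_lit 532) (nat_lit 1048576)
 (.ev (nat_lit 628) (nat_lit 35184372088832) (.ev (nat_lit 756) (nat_lit 17592186044416) (.nd (nat_lit 1600)
 (.ch (nat_lit 12) (.fin (nat_lit 576470098156929604)))))))))))) (.ch (nat_lit 29) (.ev (nat_lit 52) (nat_lit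
 105557988999168) (.ev (nat_lit 212) (nat_lit 134217728) (.ev (nat_lit 244) (nat_lit 274877906944) (.ev
 (nat_lit 800) (nat_lit 17660905586700) .dd))))))))))))

/-- Subtrie. -/
noncomputable def T8 : Tr := (.ev (nat_lit 20) (nat_lit 92435014795272) (.nd (nat_lit 33) (.br (nat_lit 20)
 (.br (nat_lit 13) (.br (nat_lit 4) (.br (nat_lit 2) (.ch (nat_lit 1) (.ev (nat_lit 52) (nat_lit
 35459384475648) (.ev (nat_lit 116) (nat_lit 8589934592) (.ev (nat_lit 276) (nat_lit 4) (.ev (nat_lit 308)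
 (nat_lit 4096) (.ev (nat_lit 564) (nat_lit 34359738368) (.ev (nat_lit 596) (nat_lit 4194304) (.ev (nat_lit
 1364) (nat_lit 65536) (.ev (nat_lit 1412) (nat_lit 33554464) (.ev (nat_lit 1524) (nat_lit 2) (.nd (nat_lit
 1600) (.ch (nat_lit 8) (.fin (nat_lit 576461302055518776)))))))))))))) (.ch (nat_lit 2) (.ev (nat_lit 52)
 (nat_lit 35218769844260) (.ev (nat_lit 148) (nat_lit 2) (.ev (nat_lit 212) (nat_lit 8589934592) (.ev (nat_lit
 468) (nat_lit 65536) (.ev (nat_lit 532) (nat_lit 274877906944) (.ev (nat_lit 1056) (nat_lit 512) (.ev (nat_lit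
 1069) (nat_lit 134217728) .dd))))))))) (.br (nat_lit 6) (.ch (nat_lit 4) (.ev (nat_lit 52) (nat_lit
 309237973026) (.ev (nat_lit 116) (nat_lit 134217728) (.ev (nat_lit 148) (nat_lit 8589934592) (.ev (nat_lit
 276) (nat_lit 33554432) (.ev (nat_lit 500) (nat_lit 2048) (.ev (nat_lit 756) (nat_lit 4096) (.ev (nat_lit 852)
 (nat_lit 4) (.ev (nat_lit 980) (nat_lit 4194304) (.ev (nat_lit 996) (nat_lit 512) (.ev (nat_lit 1005) (nat_lit
 35184372088832) .dd))))))))))) (.br (nat_lit 8) (.ch (nat_lit 6) (.ev (nat_lit 52) (nat_lit 35493609806338)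
 (.ev (nat_lit 84) (nat_lit 134217728) (.ev (nat_lit 404) (nat_lit 4194304) (.ev (nat_lit 768) (nat_lit
 8623751204) .dd))))) (.ch (nat_lit 8) (.ev (nat_lit 52) (nat_lit 35184540129792) (.ev (nat_lit 180) (nat_lit
 2) (.ev (nat_lit 544) (nat_lit 317831839780) .dd))))))) (.br (nat_lit 15) (.br (nat_lit 14) (.ch (nat_lit 13)
 (.ev (nat_lit 52) (nat_lit 283640074246) (.ev (nat_lit 500) (nat_lit 34359738368) (.ev (nat_lit 564) (nat_lit
 65536) (.ev (nat_lit 660) (nat_lit 35184372088832) (.ev (nat_lit 1076) (nat_lit 2048) (.ev (nat_lit 1168)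
 (nat_lit 544) .dd))))))) (.ch (nat_lit 14) (.ev (nat_lit 52) (nat_lit 8590264864) (.ev (nat_lit 448) (nat_lit
 35493781704710) .dd)))) (.br (nat_lit 18) (.ch (nat_lit 15) (.ev (nat_lit 52) (nat_lit 35218769907716) (.ev
 (nat_lit 212) (nat_lit 134217728) (.ev (nat_lit 628) (nat_lit 2) (.ev (nat_lit 692) (nat_lit 32) (.ev (nat_lit
 820) (nat_lit 274877906944) (.ev (nat_lit 948) (nat_lit 8589934592) (.nd (nat_lit 1600) (.ch (nat_lit 8) (.fin
 (nat_lit 576461302055518776))))))))))) (.br (nat_lit 19) (.ch (nat_lit 18) (.ev (nat_lit 52) (nat_lit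
 134289952) (.ev (nat_lit 244) (nat_lit 4194304) (.ev (nat_lit 500) (nat_lit 4) (.ev (nat_lit 596) (nat_lit 2)
 (.ev (nat_lit 628) (nat_lit 262144) (.ev (nat_lit 1236) (nat_lit 35184372088832) (.ev (nat_lit 1344) (nat_lit
 42983227392) (.ev (nat_lit 1357) (nat_lit 274877906944) .dd))))))))) (.ch (nat_lit 19) (.ev (nat_lit 52)
 (nat_lit 317861206020) (.ev (nat_lit 116) (nat_lit 262146) (.ev (nat_lit 832) (nat_lit 35184510501408)
 .dd)))))))) (.br (nat_lit 25) (.br (nat_lit 22) (.br (nat_lit 21) (.ch (nat_lit 20) (.ev (nat_lit 52) (nat_lit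
 35218736353794) (.ev (nat_lit 148) (nat_lit 134217728) (.ev (nat_lit 180) (nat_lit 8589934592) (.ev (nat_lit
 852) (nat_lit 2048) (.ev (nat_lit 864) (nat_lit 274911461412) .dd)))))) (.ch (nat_lit 21) (.ev (nat_lit 52)
 (nat_lit 334338) (.ev (nat_lit 468) (nat_lit 33554464) (.ev (nat_lit 756) (nat_lit 35184372088832) (.ev
 (nat_lit 1156) (nat_lit 8589934592) (.ev (nat_lit 1188) (nat_lit 4) (.ev (nat_lit 1268) (nat_lit 134217728)
 (.ev (nat_lit 1332) (nat_lit 274877906944) (.ev (nat_lit 1428) (nat_lit 34359738368) (.ev (nat_lit 1437)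
 (nat_lit 4194304) .dd))))))))))) (.br (nat_lit 23) (.ch (nat_lit 22) (.ev (nat_lit 52) (nat_lit
 35184506634752) (.ev (nat_lit 116) (nat_lit 4194304) (.ev (nat_lit 244) (nat_lit 2) (.ev (nat_lit 660)
 (nat_lit 4096) (.ev (nat_lit 692) (nat_lit 34359738368) (.ev (nat_lit 756) (nat_lit 274877906944) (.ev
 (nat_lit 788) (nat_lit 32) (.ev (nat_lit 1392) (nat_lit 33556484) (.ev (nat_lit 1405) (nat_lit 8589934592)
 .dd)))))))))) (.br (nat_lit 24) (.ch (nat_lit 23) (.ev (nat_lit 52) (nat_lit 134480390) (.ev (nat_lit 256)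
 (nat_lit 35502237489184) .dd))) (.ch (nat_lit 24) (.ev (nat_lit 52) (nat_lit 283602061348) (.ev (nat_lit 180)
 (nat_lit 262144) (.ev (nat_lit 276) (nat_lit 34359738368) (.ev (nat_lit 340) (nat_lit 2) (.ev (nat_lit 532)
 (nat_lit 35184372088832) (.ev (nat_lit 820) (nat_lit 4096) (.ev (nat_lit 1268) (nat_lit 4194304) (.ev (nat_lit
 1364) (nat_lit 33554432) (.ev (nat_lit 1412) (nat_lit 512) (.ev (nat_lit 1421) (nat_lit 65536)
 .dd)))))))))))))) (.br (nat_lit 27) (.br (nat_lit 26) (.ch (nat_lit 25) (.ev (nat_lit 52) (nat_lit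
 309241905188) (.ev (nat_lit 276) (nat_lit 512) (.ev (nat_lit 372) (nat_lit 35184372092928) (.ev (nat_lit 404)
 (nat_lit 134217728) (.ev (nat_lit 724) (nat_lit 8590196736) (.ev (nat_lit 884) (nat_lit 33554432) (.ev
 (nat_lit 980) (nat_lit 2) (.ev (nat_lit 989) (nat_lit 2048) .dd))))))))) (.ch (nat_lit 26) (.ev (nat_lit 52)
 (nat_lit 317961799682) (.ev (nat_lit 340) (nat_lit 4194304) (.ev (nat_lit 480) (nat_lit 35184405975588)
 .dd))))) (.br (nat_lit 28) (.ch (nat_lit 27) (.ev (nat_lit 52) (nat_lit 275012386850) (.ev (nat_lit 244)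
 (nat_lit 8589934592) (.ev (nat_lit 276) (nat_lit 65536) (.ev (nat_lit 308) (nat_lit 35184372088832) (.ev
 (nat_lit 500) (nat_lit 33554432) (.ev (nat_lit 532) (nat_lit 4096) (.ev (nat_lit 788) (nat_lit 4) (.ev
 (nat_lit 1156) (nat_lit 4194304) (.ev (nat_lit 1188) (nat_lit 2048) (.ev (nat_lit 1556) (nat_lit 512) (.ev
 (nat_lit 1565) (nat_lit 34359738368) .dd)))))))))))) (.br (nat_lit 29) (.ch (nat_lit 28) (.ev (nat_lit 52)
 (nat_lit 309371867684) (.ev (nat_lit 84) (nat_lit 8589934592) (.ev (nat_lit 180) (nat_lit 4194304) (.ev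
 (nat_lit 340) (nat_lit 262144) (.ev (nat_lit 404) (nat_lit 2) (.ev (nat_lit 436) (nat_lit 35184372088832) (.ev
 (nat_lit 788) (nat_lit 33554432) (.ev (nat_lit 1536) (nat_lit 67584) .dd))))))))) (.ch (nat_lit 29) (.ev
 (nat_lit 52) (nat_lit 35227359513088) (.ev (nat_lit 404) (nat_lit 262144) (.ev (nat_lit 500) (nat_lit 32) (.ev
 (nat_lit 672) (nat_lit 275012194310) .dd))))))))))))

/-- The trie. -/
noncomputable def T : Tr := .nd (nat_lit 1000000) (.br (nat_lit 7) (.br (nat_lit 2) (.br (nat_lit 1) (.ch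
 (nat_lit 0) (.ev (nat_lit 0) (nat_lit 140737488355327) .dd)) (.ch (nat_lit 1) T1)) (.br (nat_lit 3) (.ch
 (nat_lit 2) T2) (.br (nat_lit 4) (.ch (nat_lit 3) (.ev (nat_lit 0) (nat_lit 140737488355327) .dd)) (.ch
 (nat_lit 4) (.ev (nat_lit 0) (nat_lit 140737488355327) .dd))))) (.br (nat_lit 9) (.br (nat_lit 8) (.ch
 (nat_lit 7) (.ev (nat_lit 0) (nat_lit 140737488355327) .dd)) (.ch (nat_lit 8) T8)) (.br (nat_lit 14) (.ch
 (nat_lit 9) (.ev (nat_lit 0) (nat_lit 140737488355327) .dd)) (.br (nat_lit 18) (.ch (nat_lit 14) (.ev (nat_lit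
 0) (nat_lit 140737488355327) .dd)) (.ch (nat_lit 18) (.ev (nat_lit 0) (nat_lit 140737488355327) .dd))))))

/-- The possible values. -/
noncomputable def oks : List ℕ := [178]

/-- The parameters. -/
noncomputable def S : Pr := ⟨fun i l e => lget mz (lget [] (lget [] tabs i) l) e, oks, [(nat_lit 0), (nat_lit
 1), (nat_lit 0)], T, (nat_lit 140737488355327), (nat_lit 12800101590481), (nat_lit 47), [(nat_lit 279193),
 (nat_lit 1073946281)], [(nat_lit 361), (nat_lit 961)]⟩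

/-- Nothing known. -/
noncomputable def cs0 : Cs := (.cons (nat_lit 19) (nat_lit 0) (nat_lit 1) (.cons (nat_lit 31) (nat_lit 0) (nat_lit 1) .nil))

theorem part_1 : part S cs0 (nat_lit 1) = true := by decide +kernel

theorem part_2 : part S cs0 (nat_lit 2) = true := by decide +kernel

theorem part_8 : part S cs0 (nat_lit 8) = true := by decide +kernel

/-- Data of a prime. -/
noncomputable def D0 : PD := ⟨(nat_lit 19), (nat_lit 2), (210, 3, 5), (67, 193, 280), (183, 17, 194)⟩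

theorem D0_ok : D0.Ok := pdb_sound (s := 9) (C := ⟨⟨21, 6, -28, 11, 14, 17, -4, 7, -1⟩, (2, 11, 15)⟩) (by show Nat.Prime 19; norm_num) (by decide +kernel)

/-- Lines of the first type. -/
noncomputable def Cl0 : List C1 := [⟨⟨11, 14, -28, 21, 6, 7, 4, -7, -5⟩, (12, 16, 13)⟩,
  ⟨⟨0, 0, 0, 0, 0, 0, 0, 0, 0⟩, (0, 0, 0)⟩,
  ⟨⟨0, 0, 0, 0, 0, 0, 0, 0, 0⟩, (0, 0, 0)⟩,
  ⟨⟨9, 6, -32, 1, 26, 7, 8, -1, -1⟩, (8, 3, 5)⟩,
  ⟨⟨-9, -6, -23, -1, -26, 8, 8, -1, -7⟩, (13, 12, 18)⟩,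
  ⟨⟨0, 0, 0, 0, 0, 0, 0, 0, 0⟩, (0, 0, 0)⟩,
  ⟨⟨0, 0, 0, 0, 0, 0, 0, 0, 0⟩, (0, 0, 0)⟩,
  ⟨⟨9, -6, -32, 1, -26, 7, 8, 1, -1⟩, (5, 9, 15)⟩,
  ⟨⟨0, 0, 0, 0, 0, 0, 0, 0, 0⟩, (0, 0, 0)⟩,
  ⟨⟨21, -6, -28, 11, -14, 17, -4, -7, -1⟩, (16, 12, 6)⟩,
  ⟨⟨0, 0, 0, 0, 0, 0, 0, 0, 0⟩, (0, 0, 0)⟩,
  ⟨⟨0, 0, 0, 0, 0, 0, 0, 0, 0⟩, (0, 0, 0)⟩,
  ⟨⟨0, 0, 0, 0, 0, 0, 0, 0, 0⟩, (0, 0, 0)⟩,
  ⟨⟨0, 0, 0, 0, 0, 0, 0, 0, 0⟩, (0, 0, 0)⟩,
  ⟨⟨11, -14, -28, 21, -6, 7, 4, 7, -5⟩, (5, 13, 7)⟩,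
  ⟨⟨0, 0, 0, 0, 0, 0, 0, 0, 0⟩, (0, 0, 0)⟩,
  ⟨⟨0, 0, 0, 0, 0, 0, 0, 0, 0⟩, (0, 0, 0)⟩,
  ⟨⟨0, 0, 0, 0, 0, 0, 0, 0, 0⟩, (0, 0, 0)⟩,
  ⟨⟨-9, 6, -23, -1, 26, 8, 8, 1, -7⟩, (16, 6, 9)⟩]

/-- Data of a prime. -/
noncomputable def D1 : PD := ⟨(nat_lit 31), (nat_lit 2), (435, 8, 13), (281, 829, 278), (666, 926, 286)⟩

theorem D1_ok : D1.Ok := pdb_sound (s := 3) (C := ⟨⟨11, 26, -43, -19, 34, 32, -12, -3, -1⟩, (11, 12, 19)⟩) (by show Nat.Prime 31; norm_num) (by decide +kernel)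

/-- Lines of the first type. -/
noncomputable def Cl1 : List C1 := [⟨⟨-11, -26, -32, 19, -34, 13, 12, 3, -13⟩, (22, 24, 7)⟩,
  ⟨⟨0, 0, 0, 0, 0, 0, 0, 0, 0⟩, (0, 0, 0)⟩,
  ⟨⟨0, 0, 0, 0, 0, 0, 0, 0, 0⟩, (0, 0, 0)⟩,
  ⟨⟨29, 26, -37, 21, 6, 32, 8, -11, -7⟩, (2, 10, 23)⟩,
  ⟨⟨0, 0, 0, 0, 0, 0, 0, 0, 0⟩, (0, 0, 0)⟩,
  ⟨⟨21, 6, -53, 29, 26, 8, 8, -11, -1⟩, (6, 26, 20)⟩,
  ⟨⟨0, 0, 0, 0, 0, 0, 0, 0, 0⟩, (0, 0, 0)⟩,
  ⟨⟨29, -26, -37, 21, -6, 32, 8, 11, -7⟩, (27, 11, 16)⟩,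
  ⟨⟨0, 0, 0, 0, 0, 0, 0, 0, 0⟩, (0, 0, 0)⟩,
  ⟨⟨-9, -6, -43, -41, 14, 28, 4, 13, -5⟩, (4, 1, 12)⟩,
  ⟨⟨9, -6, -52, -41, -14, 13, -4, 13, -1⟩, (29, 16, 25)⟩,
  ⟨⟨21, -6, -53, 29, -26, 8, 8, 11, -1⟩, (7, 20, 13)⟩,
  ⟨⟨9, 6, -52, -41, 14, 13, -4, -13, -1⟩, (28, 24, 22)⟩,
  ⟨⟨0, 0, 0, 0, 0, 0, 0, 0, 0⟩, (0, 0, 0)⟩,
  ⟨⟨0, 0, 0, 0, 0, 0, 0, 0, 0⟩, (0, 0, 0)⟩,
  ⟨⟨0, 0, 0, 0, 0, 0, 0, 0, 0⟩, (0, 0, 0)⟩,
  ⟨⟨11, -26, -43, -19, -34, 32, -12, 3, -1⟩, (25, 16, 15)⟩,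
  ⟨⟨-9, 6, -43, -41, -14, 28, 4, -13, -5⟩, (3, 24, 9)⟩,
  ⟨⟨0, 0, 0, 0, 0, 0, 0, 0, 0⟩, (0, 0, 0)⟩,
  ⟨⟨0, 0, 0, 0, 0, 0, 0, 0, 0⟩, (0, 0, 0)⟩,
  ⟨⟨0, 0, 0, 0, 0, 0, 0, 0, 0⟩, (0, 0, 0)⟩,
  ⟨⟨0, 0, 0, 0, 0, 0, 0, 0, 0⟩, (0, 0, 0)⟩,
  ⟨⟨0, 0, 0, 0, 0, 0, 0, 0, 0⟩, (0, 0, 0)⟩,
  ⟨⟨0, 0, 0, 0, 0, 0, 0, 0, 0⟩, (0, 0, 0)⟩,
  ⟨⟨0, 0, 0, 0, 0, 0, 0, 0, 0⟩, (0, 0, 0)⟩,
  ⟨⟨0, 0, 0, 0, 0, 0, 0, 0, 0⟩, (0, 0, 0)⟩,
  ⟨⟨0, 0, 0, 0, 0, 0, 0, 0, 0⟩, (0, 0, 0)⟩,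
  ⟨⟨0, 0, 0, 0, 0, 0, 0, 0, 0⟩, (0, 0, 0)⟩,
  ⟨⟨0, 0, 0, 0, 0, 0, 0, 0, 0⟩, (0, 0, 0)⟩,
  ⟨⟨0, 0, 0, 0, 0, 0, 0, 0, 0⟩, (0, 0, 0)⟩,
  ⟨⟨-11, 26, -32, 19, 34, 13, 12, -3, -13⟩, (28, 8, 23)⟩]

/-- Data of a prime. -/
noncomputable def Dm : PD := ⟨(nat_lit 47), (nat_lit 2), (1034, 1, 9), (105, 517, 2039), (987, 5, 190)⟩

theorem Dm_ok : Dm.Ok := pdb_sound (s := 1) (C := ⟨⟨47, 2, -76, 47, -2, 29, 0, -21, -1⟩, (2, 45, 26)⟩) (by show Nat.Prime 47; norm_num) (by decide +kernel)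

/-- Lines of the first type. -/
noncomputable def Clm : List C1 := [⟨⟨47, -2, -76, 47, 2, 29, 0, 21, -1⟩, (9, 38, 23)⟩,
  ⟨⟨0, 0, 0, 0, 0, 0, 0, 0, 0⟩, (0, 0, 0)⟩,
  ⟨⟨0, 0, 0, 0, 0, 0, 0, 0, 0⟩, (0, 0, 0)⟩,
  ⟨⟨0, 0, 0, 0, 0, 0, 0, 0, 0⟩, (0, 0, 0)⟩,
  ⟨⟨17, 22, -76, -63, 18, 19, -4, -19, -7⟩, (10, 21, 17)⟩,
  ⟨⟨0, 0, 0, 0, 0, 0, 0, 0, 0⟩, (0, 0, 0)⟩,
  ⟨⟨57, -18, -61, -23, -62, 4, -8, 5, -17⟩, (3, 26, 7)⟩,
  ⟨⟨57, 18, -61, -23, 62, 4, -8, -5, -17⟩, (16, 29, 6)⟩,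
  ⟨⟨53, -22, -64, -13, -62, 29, -12, -3, -13⟩, (46, 10, 2)⟩,
  ⟨⟨0, 0, 0, 0, 0, 0, 0, 0, 0⟩, (0, 0, 0)⟩,
  ⟨⟨43, -38, -59, 3, -42, 56, -16, -11, -1⟩, (35, 9, 46)⟩,
  ⟨⟨0, 0, 0, 0, 0, 0, 0, 0, 0⟩, (0, 0, 0)⟩,
  ⟨⟨0, 0, 0, 0, 0, 0, 0, 0, 0⟩, (0, 0, 0)⟩,
  ⟨⟨-17, -22, -59, -63, 18, 44, 4, 19, -11⟩, (15, 39, 2)⟩,
  ⟨⟨0, 0, 0, 0, 0, 0, 0, 0, 0⟩, (0, 0, 0)⟩,
  ⟨⟨0, 0, 0, 0, 0, 0, 0, 0, 0⟩, (0, 0, 0)⟩,
  ⟨⟨0, 0, 0, 0, 0, 0, 0, 0, 0⟩, (0, 0, 0)⟩,
  ⟨⟨53, 22, -64, -13, 62, 29, -12, 3, -13⟩, (41, 13, 12)⟩,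
  ⟨⟨0, 0, 0, 0, 0, 0, 0, 0, 0⟩, (0, 0, 0)⟩,
  ⟨⟨0, 0, 0, 0, 0, 0, 0, 0, 0⟩, (0, 0, 0)⟩,
  ⟨⟨0, 0, 0, 0, 0, 0, 0, 0, 0⟩, (0, 0, 0)⟩,
  ⟨⟨0, 0, 0, 0, 0, 0, 0, 0, 0⟩, (0, 0, 0)⟩,
  ⟨⟨0, 0, 0, 0, 0, 0, 0, 0, 0⟩, (0, 0, 0)⟩,
  ⟨⟨43, 38, -59, 3, 42, 56, -16, 11, -1⟩, (5, 8, 20)⟩,
  ⟨⟨3, -42, -59, 43, -38, 16, 16, 11, -17⟩, (39, 42, 20)⟩,
  ⟨⟨0, 0, 0, 0, 0, 0, 0, 0, 0⟩, (0, 0, 0)⟩,
  ⟨⟨0, 0, 0, 0, 0, 0, 0, 0, 0⟩, (0, 0, 0)⟩,
  ⟨⟨0, 0, 0, 0, 0, 0, 0, 0, 0⟩, (0, 0, 0)⟩,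
  ⟨⟨0, 0, 0, 0, 0, 0, 0, 0, 0⟩, (0, 0, 0)⟩,
  ⟨⟨0, 0, 0, 0, 0, 0, 0, 0, 0⟩, (0, 0, 0)⟩,
  ⟨⟨-13, -62, -16, 53, -22, 11, 12, 3, -25⟩, (34, 6, 12)⟩,
  ⟨⟨0, 0, 0, 0, 0, 0, 0, 0, 0⟩, (0, 0, 0)⟩,
  ⟨⟨0, 0, 0, 0, 0, 0, 0, 0, 0⟩, (0, 0, 0)⟩,
  ⟨⟨0, 0, 0, 0, 0, 0, 0, 0, 0⟩, (0, 0, 0)⟩,
  ⟨⟨17, -22, -76, -63, -18, 19, -4, 19, -7⟩, (15, 8, 2)⟩,
  ⟨⟨0, 0, 0, 0, 0, 0, 0, 0, 0⟩, (0, 0, 0)⟩,
  ⟨⟨0, 0, 0, 0, 0, 0, 0, 0, 0⟩, (0, 0, 0)⟩,
  ⟨⟨3, 42, -59, 43, 38, 16, 16, -11, -17⟩, (38, 12, 46)⟩,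
  ⟨⟨0, 0, 0, 0, 0, 0, 0, 0, 0⟩, (0, 0, 0)⟩,
  ⟨⟨-13, 62, -16, 53, 22, 11, 12, -3, -25⟩, (37, 1, 2)⟩,
  ⟨⟨23, 62, -19, 57, -18, 4, 8, -5, -25⟩, (29, 31, 6)⟩,
  ⟨⟨23, -62, -19, 57, 18, 4, 8, 5, -25⟩, (26, 44, 7)⟩,
  ⟨⟨0, 0, 0, 0, 0, 0, 0, 0, 0⟩, (0, 0, 0)⟩,
  ⟨⟨-17, 22, -59, -63, -18, 44, 4, -19, -11⟩, (10, 26, 17)⟩,
  ⟨⟨0, 0, 0, 0, 0, 0, 0, 0, 0⟩, (0, 0, 0)⟩,
  ⟨⟨0, 0, 0, 0, 0, 0, 0, 0, 0⟩, (0, 0, 0)⟩,
  ⟨⟨0, 0, 0, 0, 0, 0, 0, 0, 0⟩, (0, 0, 0)⟩]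

/-- Unit moves. -/
noncomputable def U : List Mv := [mz,
  mz,
  mz,
  mz,
  mz,
  ⟨⟨-1, 0, 1, 0, 1, 0, 0, 0, 1⟩, .nil, (nat_lit 18), (nat_lit 9), (nat_lit 4), (nat_lit 1), (0, 0, 0), [], 18⟩,
  ⟨⟨-1, 0, 1, 0, -1, 0, 0, 0, 1⟩, .nil, (nat_lit 0), (nat_lit 12), (nat_lit 1), (nat_lit 0), (0, 0, 0), [], 7⟩,
  mz,
  mz,
  mz,
  ⟨⟨1, 0, 0, 0, -1, 0, 0, 0, 1⟩, .nil, (nat_lit 18), (nat_lit 14), (nat_lit 2), (nat_lit 1), (0, 0, 0), [], 10⟩,
  ⟨⟨-1, 0, 1, 0, -1, 0, 0, 0, 1⟩, .nil, (nat_lit 0), (nat_lit 12), (nat_lit 1), (nat_lit 0), (0, 0, 0), [], 7⟩,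
  ⟨⟨-1, 0, 1, 0, -1, 0, 0, 0, 1⟩, .nil, (nat_lit 0), (nat_lit 12), (nat_lit 1), (nat_lit 0), (0, 0, 0), [], 7⟩,
  ⟨⟨-1, 0, 1, 0, 1, 0, 0, 0, 1⟩, .nil, (nat_lit 18), (nat_lit 9), (nat_lit 4), (nat_lit 1), (0, 0, 0), [], 18⟩,
  mz,
  ⟨⟨-1, 0, 1, 0, 1, 0, 0, 0, 1⟩, .nil, (nat_lit 18), (nat_lit 9), (nat_lit 4), (nat_lit 1), (0, 0, 0), [], 18⟩,
  ⟨⟨1, 0, 0, 0, -1, 0, 0, 0, 1⟩, .nil, (nat_lit 18), (nat_lit 14), (nat_lit 2), (nat_lit 1), (0, 0, 0), [], 10⟩,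
  ⟨⟨1, 0, 0, 0, -1, 0, 0, 0, 1⟩, .nil, (nat_lit 18), (nat_lit 14), (nat_lit 2), (nat_lit 1), (0, 0, 0), [], 10⟩,
  mz]

theorem v_ty : tyb Dm S.ty1 Clm = true := by decide +kernel

theorem v_ty0 : tyb D0 (S.tys.getD 0 0) Cl0 = true := by decide +kernel

theorem v_ty1 : tyb D1 (S.tys.getD 1 0) Cl1 = true := by decide +kernel

theorem v_msc : mscb S D0 [D1] Dm (nat_lit 262) = true := by decide +kernel

theorem v_mv0 : mvsn (nat_lit 766348489) S D0 [D1] Dm (nat_lit 262) 0 D0 = true := by decide +kernel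

theorem v_mv1 : mvsn (nat_lit 766348489) S D0 [D1] Dm (nat_lit 262) 1 D1 = true := by decide +kernel

theorem v_mm : mmsn (nat_lit 766348489) S D0 [D1] Dm (nat_lit 262) = true := by decide +kernel

theorem v_un : unb S D0 (nat_lit 262) U = true := by decide +kernel

theorem v_ok : okb S.oks [(0, 0, 0)] = true := by decide +kernel

theorem v_part : ∀ d < D0.p, (nat_lit 262).testBit d = true → part S (zc (D0 :: [D1])) d = true := by
  intro d hd h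
  have h1 : ∀ d < 19, (nat_lit 262).testBit d = true → d = 1 ∨ d = 2 ∨ d = 8 := by decide
  rcases h1 d hd h with rfl | rfl | rfl
  · exact part_1
  · exact part_2
  · exact part_8

theorem main (n : ℕ) (ho : Odd n) (hr : ¬ Rep n) (h0 : Split 19 n) (h1 : Split 31 n) (hm : Split 47 n) :
    n ∈ EE := by
  refine concln (W := nat_lit 766348489) (S := S) (P0 := D0) (Pl := [D1]) (Pm := Dm) (cn := nat_lit 262) ?_ Dm_ok v_ty ?_ ?_ v_msc ?_ v_mm v_un v_part v_ok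
    n ho hr ?_ hm
  · simp only [List.forall_mem_cons]
    exact ⟨D0_ok, D1_ok, fun _ h => absurd h (by simp)⟩
  · exact all2 (φ := fun j P => ∃ L, tyb P (S.tys.getD j 0) L = true) ⟨_, v_ty0⟩ ⟨_, v_ty1⟩
  · exact all2 (φ := fun j P => Nat.ble (S.pks.getD j 0) (Nat.pow P.p P.K) = true) (by decide +kernel) (by decide +kernel)
  · exact all2 (φ := fun i P => mvsn (nat_lit 766348489) S D0 [D1] Dm (nat_lit 262) i P = true) v_mv0 v_mv1
  · simp only [List.forall_mem_cons]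
    exact ⟨h0, h1, fun _ h => absurd h (by simp)⟩

end Pool.Agent.Work.MP_9954fe_nt.P19_31_47

namespace Pool.Agent.Work.MP_9954fe_nt.P43_53_71

/-- Dummy move. -/
noncomputable def mz : Mv := ⟨⟨0, 0, 0, 0, 0, 0, 0, 0, 0⟩, .nil, (nat_lit 0), (nat_lit 0), (nat_lit 0), (nat_lit 0), (0, 0, 0), [], 0⟩

/-- Moves. -/
noncomputable def t0_1 : List Mv := [
  ⟨⟨3, 44, -20, -2, -15, -44, 36, 12, -25⟩, (.cons (nat_lit 1645799) (nat_lit 1481520) (nat_lit 1938735)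
 (nat_lit 1) (.cons (nat_lit 2710575) (nat_lit 653602) (nat_lit 5828722) (nat_lit 1) .nil)), (nat_lit 37),
 (nat_lit 53), (nat_lit 3), (nat_lit 1), (36, 19, 2), [1559261, 6948779], 63⟩,
  ⟨⟨3, 44, -20, -2, -15, -44, 36, 12, -25⟩, (.cons (nat_lit 1645799) (nat_lit 1481520) (nat_lit 1938735)
 (nat_lit 1) (.cons (nat_lit 2710575) (nat_lit 653602) (nat_lit 5828722) (nat_lit 1) .nil)), (nat_lit 37),
 (nat_lit 53), (nat_lit 3), (nat_lit 1), (36, 19, 2), [1559261, 6948779], 63⟩,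
  ⟨⟨3, 44, -20, -2, -15, -44, 36, 12, -25⟩, (.cons (nat_lit 1645799) (nat_lit 1481520) (nat_lit 1938735)
 (nat_lit 1) (.cons (nat_lit 2710575) (nat_lit 653602) (nat_lit 5828722) (nat_lit 1) .nil)), (nat_lit 37),
 (nat_lit 53), (nat_lit 3), (nat_lit 1), (36, 19, 2), [1559261, 6948779], 63⟩,
  ⟨⟨3, 44, -20, 2, 15, 44, 36, 12, -25⟩, (.cons (nat_lit 2885586) (nat_lit 2586517) (nat_lit 719446) (nat_lit
 1) (.cons (nat_lit 3056520) (nat_lit 234352) (nat_lit 4275179) (nat_lit 1) .nil)), (nat_lit 35), (nat_lit 68),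
 (nat_lit 31), (nat_lit 1), (36, 24, 2), [379105, 5696941], 37⟩,
  ⟨⟨33, -32, -5, -2, -15, -44, 36, 12, -25⟩, (.cons (nat_lit 2677034) (nat_lit 1639807) (nat_lit 2765582)
 (nat_lit 1) (.cons (nat_lit 7090744) (nat_lit 2984986) (nat_lit 6101488) (nat_lit 1) .nil)), (nat_lit 47),
 (nat_lit 29), (nat_lit 12), (nat_lit 1), (9, 19, 2), [968054, 7726112], 50⟩,
  ⟨⟨3, 44, -20, -2, -15, -44, 36, 12, -25⟩, (.cons (nat_lit 1645799) (nat_lit 1481520) (nat_lit 1938735)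
 (nat_lit 1) (.cons (nat_lit 2710575) (nat_lit 653602) (nat_lit 5828722) (nat_lit 1) .nil)), (nat_lit 37),
 (nat_lit 53), (nat_lit 3), (nat_lit 1), (36, 19, 2), [1559261, 6948779], 63⟩,
  ⟨⟨33, -32, -5, -2, -15, -44, 36, 12, -25⟩, (.cons (nat_lit 2677034) (nat_lit 1639807) (nat_lit 2765582)
 (nat_lit 1) (.cons (nat_lit 7090744) (nat_lit 2984986) (nat_lit 6101488) (nat_lit 1) .nil)), (nat_lit 47),
 (nat_lit 29), (nat_lit 12), (nat_lit 1), (9, 19, 2), [968054, 7726112], 50⟩,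
  ⟨⟨33, -32, -5, -2, -15, -44, 36, 12, -25⟩, (.cons (nat_lit 2677034) (nat_lit 1639807) (nat_lit 2765582)
 (nat_lit 1) (.cons (nat_lit 7090744) (nat_lit 2984986) (nat_lit 6101488) (nat_lit 1) .nil)), (nat_lit 47),
 (nat_lit 29), (nat_lit 12), (nat_lit 1), (9, 19, 2), [968054, 7726112], 50⟩,
  ⟨⟨3, 44, -20, 2, 15, 44, 36, 12, -25⟩, (.cons (nat_lit 2885586) (nat_lit 2586517) (nat_lit 719446) (nat_lit
 1) (.cons (nat_lit 3056520) (nat_lit 234352) (nat_lit 4275179) (nat_lit 1) .nil)), (nat_lit 35), (nat_lit 68),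
 (nat_lit 31), (nat_lit 1), (36, 24, 2), [379105, 5696941], 37⟩,
  ⟨⟨3, 44, -20, -2, -15, -44, 36, 12, -25⟩, (.cons (nat_lit 1645799) (nat_lit 1481520) (nat_lit 1938735)
 (nat_lit 1) (.cons (nat_lit 2710575) (nat_lit 653602) (nat_lit 5828722) (nat_lit 1) .nil)), (nat_lit 37),
 (nat_lit 53), (nat_lit 3), (nat_lit 1), (36, 19, 2), [1559261, 6948779], 63⟩,
  ⟨⟨3, 44, -20, -2, -15, -44, 36, 12, -25⟩, (.cons (nat_lit 1645799) (nat_lit 1481520) (nat_lit 1938735)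
 (nat_lit 1) (.cons (nat_lit 2710575) (nat_lit 653602) (nat_lit 5828722) (nat_lit 1) .nil)), (nat_lit 37),
 (nat_lit 53), (nat_lit 3), (nat_lit 1), (36, 19, 2), [1559261, 6948779], 63⟩,
  ⟨⟨3, 44, -20, -2, -15, -44, 36, 12, -25⟩, (.cons (nat_lit 1645799) (nat_lit 1481520) (nat_lit 1938735)
 (nat_lit 1) (.cons (nat_lit 2710575) (nat_lit 653602) (nat_lit 5828722) (nat_lit 1) .nil)), (nat_lit 37),
 (nat_lit 53), (nat_lit 3), (nat_lit 1), (36, 19, 2), [1559261, 6948779], 63⟩,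
  ⟨⟨3, 44, -20, -2, -15, -44, 36, 12, -25⟩, (.cons (nat_lit 1645799) (nat_lit 1481520) (nat_lit 1938735)
 (nat_lit 1) (.cons (nat_lit 2710575) (nat_lit 653602) (nat_lit 5828722) (nat_lit 1) .nil)), (nat_lit 37),
 (nat_lit 53), (nat_lit 3), (nat_lit 1), (36, 19, 2), [1559261, 6948779], 63⟩,
  ⟨⟨3, 44, -20, -2, -15, -44, 36, 12, -25⟩, (.cons (nat_lit 1645799) (nat_lit 1481520) (nat_lit 1938735)
 (nat_lit 1) (.cons (nat_lit 2710575) (nat_lit 653602) (nat_lit 5828722) (nat_lit 1) .nil)), (nat_lit 37),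
 (nat_lit 53), (nat_lit 3), (nat_lit 1), (36, 19, 2), [1559261, 6948779], 63⟩,
  ⟨⟨3, 44, -20, -2, -15, -44, 36, 12, -25⟩, (.cons (nat_lit 1645799) (nat_lit 1481520) (nat_lit 1938735)
 (nat_lit 1) (.cons (nat_lit 2710575) (nat_lit 653602) (nat_lit 5828722) (nat_lit 1) .nil)), (nat_lit 37),
 (nat_lit 53), (nat_lit 3), (nat_lit 1), (36, 19, 2), [1559261, 6948779], 63⟩,
  ⟨⟨3, 44, -20, -2, -15, -44, 36, 12, -25⟩, (.cons (nat_lit 1645799) (nat_lit 1481520) (nat_lit 1938735)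
 (nat_lit 1) (.cons (nat_lit 2710575) (nat_lit 653602) (nat_lit 5828722) (nat_lit 1) .nil)), (nat_lit 37),
 (nat_lit 53), (nat_lit 3), (nat_lit 1), (36, 19, 2), [1559261, 6948779], 63⟩,
  ⟨⟨33, -32, -5, 2, 15, 44, 36, 12, -25⟩, (.cons (nat_lit 1410716) (nat_lit 2660945) (nat_lit 1333744) (nat_lit
 1) (.cons (nat_lit 2488396) (nat_lit 4816756) (nat_lit 5695079) (nat_lit 1) .nil)), (nat_lit 50), (nat_lit
 64), (nat_lit 65), (nat_lit 1), (9, 24, 2), [1724876, 7058148], 11⟩,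
  ⟨⟨3, 44, -20, 2, 15, 44, 36, 12, -25⟩, (.cons (nat_lit 2885586) (nat_lit 2586517) (nat_lit 719446) (nat_lit
 1) (.cons (nat_lit 3056520) (nat_lit 234352) (nat_lit 4275179) (nat_lit 1) .nil)), (nat_lit 35), (nat_lit 68),
 (nat_lit 31), (nat_lit 1), (36, 24, 2), [379105, 5696941], 37⟩,
  ⟨⟨3, 44, -20, -2, -15, -44, 36, 12, -25⟩, (.cons (nat_lit 1645799) (nat_lit 1481520) (nat_lit 1938735)
 (nat_lit 1) (.cons (nat_lit 2710575) (nat_lit 653602) (nat_lit 5828722) (nat_lit 1) .nil)), (nat_lit 37),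
 (nat_lit 53), (nat_lit 3), (nat_lit 1), (36, 19, 2), [1559261, 6948779], 63⟩,
  ⟨⟨33, -32, -5, 2, 15, 44, 36, 12, -25⟩, (.cons (nat_lit 1410716) (nat_lit 2660945) (nat_lit 1333744) (nat_lit
 1) (.cons (nat_lit 2488396) (nat_lit 4816756) (nat_lit 5695079) (nat_lit 1) .nil)), (nat_lit 50), (nat_lit
 64), (nat_lit 65), (nat_lit 1), (9, 24, 2), [1724876, 7058148], 11⟩,
  ⟨⟨33, -32, -5, 2, 15, 44, 36, 12, -25⟩, (.cons (nat_lit 1410716) (nat_lit 2660945) (nat_lit 1333744) (nat_lit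
 1) (.cons (nat_lit 2488396) (nat_lit 4816756) (nat_lit 5695079) (nat_lit 1) .nil)), (nat_lit 50), (nat_lit
 64), (nat_lit 65), (nat_lit 1), (9, 24, 2), [1724876, 7058148], 11⟩,
  ⟨⟨3, 44, -20, 2, 15, 44, 36, 12, -25⟩, (.cons (nat_lit 2885586) (nat_lit 2586517) (nat_lit 719446) (nat_lit
 1) (.cons (nat_lit 3056520) (nat_lit 234352) (nat_lit 4275179) (nat_lit 1) .nil)), (nat_lit 35), (nat_lit 68),
 (nat_lit 31), (nat_lit 1), (36, 24, 2), [379105, 5696941], 37⟩,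
  ⟨⟨3, 44, -20, -2, -15, -44, 36, 12, -25⟩, (.cons (nat_lit 1645799) (nat_lit 1481520) (nat_lit 1938735)
 (nat_lit 1) (.cons (nat_lit 2710575) (nat_lit 653602) (nat_lit 5828722) (nat_lit 1) .nil)), (nat_lit 37),
 (nat_lit 53), (nat_lit 3), (nat_lit 1), (36, 19, 2), [1559261, 6948779], 63⟩,
  ⟨⟨3, 44, -20, -2, -15, -44, 36, 12, -25⟩, (.cons (nat_lit 1645799) (nat_lit 1481520) (nat_lit 1938735)
 (nat_lit 1) (.cons (nat_lit 2710575) (nat_lit 653602) (nat_lit 5828722) (nat_lit 1) .nil)), (nat_lit 37),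
 (nat_lit 53), (nat_lit 3), (nat_lit 1), (36, 19, 2), [1559261, 6948779], 63⟩,
  ⟨⟨3, 44, -20, -2, -15, -44, 36, 12, -25⟩, (.cons (nat_lit 1645799) (nat_lit 1481520) (nat_lit 1938735)
 (nat_lit 1) (.cons (nat_lit 2710575) (nat_lit 653602) (nat_lit 5828722) (nat_lit 1) .nil)), (nat_lit 37),
 (nat_lit 53), (nat_lit 3), (nat_lit 1), (36, 19, 2), [1559261, 6948779], 63⟩,
  ⟨⟨3, 44, -20, -2, -15, -44, 36, 12, -25⟩, (.cons (nat_lit 1645799) (nat_lit 1481520) (nat_lit 1938735)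
 (nat_lit 1) (.cons (nat_lit 2710575) (nat_lit 653602) (nat_lit 5828722) (nat_lit 1) .nil)), (nat_lit 37),
 (nat_lit 53), (nat_lit 3), (nat_lit 1), (36, 19, 2), [1559261, 6948779], 63⟩,
  ⟨⟨33, -32, -5, -2, -15, -44, 36, 12, -25⟩, (.cons (nat_lit 2677034) (nat_lit 1639807) (nat_lit 2765582)
 (nat_lit 1) (.cons (nat_lit 7090744) (nat_lit 2984986) (nat_lit 6101488) (nat_lit 1) .nil)), (nat_lit 47),
 (nat_lit 29), (nat_lit 12), (nat_lit 1), (9, 19, 2), [968054, 7726112], 50⟩,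
  ⟨⟨33, -32, -5, 2, 15, 44, 36, 12, -25⟩, (.cons (nat_lit 1410716) (nat_lit 2660945) (nat_lit 1333744) (nat_lit
 1) (.cons (nat_lit 2488396) (nat_lit 4816756) (nat_lit 5695079) (nat_lit 1) .nil)), (nat_lit 50), (nat_lit
 64), (nat_lit 65), (nat_lit 1), (9, 24, 2), [1724876, 7058148], 11⟩,
  ⟨⟨33, -32, -5, -2, -15, -44, 36, 12, -25⟩, (.cons (nat_lit 2677034) (nat_lit 1639807) (nat_lit 2765582)
 (nat_lit 1) (.cons (nat_lit 7090744) (nat_lit 2984986) (nat_lit 6101488) (nat_lit 1) .nil)), (nat_lit 47),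
 (nat_lit 29), (nat_lit 12), (nat_lit 1), (9, 19, 2), [968054, 7726112], 50⟩,
  ⟨⟨3, 44, -20, 2, 15, 44, 36, 12, -25⟩, (.cons (nat_lit 2885586) (nat_lit 2586517) (nat_lit 719446) (nat_lit
 1) (.cons (nat_lit 3056520) (nat_lit 234352) (nat_lit 4275179) (nat_lit 1) .nil)), (nat_lit 35), (nat_lit 68),
 (nat_lit 31), (nat_lit 1), (36, 24, 2), [379105, 5696941], 37⟩,
  ⟨⟨3, 44, -20, 2, 15, 44, 36, 12, -25⟩, (.cons (nat_lit 2885586) (nat_lit 2586517) (nat_lit 719446) (nat_lit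
 1) (.cons (nat_lit 3056520) (nat_lit 234352) (nat_lit 4275179) (nat_lit 1) .nil)), (nat_lit 35), (nat_lit 68),
 (nat_lit 31), (nat_lit 1), (36, 24, 2), [379105, 5696941], 37⟩,
  ⟨⟨33, -32, -5, -2, -15, -44, 36, 12, -25⟩, (.cons (nat_lit 2677034) (nat_lit 1639807) (nat_lit 2765582)
 (nat_lit 1) (.cons (nat_lit 7090744) (nat_lit 2984986) (nat_lit 6101488) (nat_lit 1) .nil)), (nat_lit 47),
 (nat_lit 29), (nat_lit 12), (nat_lit 1), (9, 19, 2), [968054, 7726112], 50⟩,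
  ⟨⟨3, 44, -20, -2, -15, -44, 36, 12, -25⟩, (.cons (nat_lit 1645799) (nat_lit 1481520) (nat_lit 1938735)
 (nat_lit 1) (.cons (nat_lit 2710575) (nat_lit 653602) (nat_lit 5828722) (nat_lit 1) .nil)), (nat_lit 37),
 (nat_lit 53), (nat_lit 3), (nat_lit 1), (36, 19, 2), [1559261, 6948779], 63⟩,
  ⟨⟨3, 44, -20, -2, -15, -44, 36, 12, -25⟩, (.cons (nat_lit 1645799) (nat_lit 1481520) (nat_lit 1938735)
 (nat_lit 1) (.cons (nat_lit 2710575) (nat_lit 653602) (nat_lit 5828722) (nat_lit 1) .nil)), (nat_lit 37),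
 (nat_lit 53), (nat_lit 3), (nat_lit 1), (36, 19, 2), [1559261, 6948779], 63⟩,
  ⟨⟨33, -32, -5, 2, 15, 44, 36, 12, -25⟩, (.cons (nat_lit 1410716) (nat_lit 2660945) (nat_lit 1333744) (nat_lit
 1) (.cons (nat_lit 2488396) (nat_lit 4816756) (nat_lit 5695079) (nat_lit 1) .nil)), (nat_lit 50), (nat_lit
 64), (nat_lit 65), (nat_lit 1), (9, 24, 2), [1724876, 7058148], 11⟩,
  ⟨⟨3, 44, -20, -2, -15, -44, 36, 12, -25⟩, (.cons (nat_lit 1645799) (nat_lit 1481520) (nat_lit 1938735)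
 (nat_lit 1) (.cons (nat_lit 2710575) (nat_lit 653602) (nat_lit 5828722) (nat_lit 1) .nil)), (nat_lit 37),
 (nat_lit 53), (nat_lit 3), (nat_lit 1), (36, 19, 2), [1559261, 6948779], 63⟩,
  ⟨⟨3, 44, -20, -2, -15, -44, 36, 12, -25⟩, (.cons (nat_lit 1645799) (nat_lit 1481520) (nat_lit 1938735)
 (nat_lit 1) (.cons (nat_lit 2710575) (nat_lit 653602) (nat_lit 5828722) (nat_lit 1) .nil)), (nat_lit 37),
 (nat_lit 53), (nat_lit 3), (nat_lit 1), (36, 19, 2), [1559261, 6948779], 63⟩,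
  ⟨⟨3, 44, -20, -2, -15, -44, 36, 12, -25⟩, (.cons (nat_lit 1645799) (nat_lit 1481520) (nat_lit 1938735)
 (nat_lit 1) (.cons (nat_lit 2710575) (nat_lit 653602) (nat_lit 5828722) (nat_lit 1) .nil)), (nat_lit 37),
 (nat_lit 53), (nat_lit 3), (nat_lit 1), (36, 19, 2), [1559261, 6948779], 63⟩,
  ⟨⟨33, -32, -5, 2, 15, 44, 36, 12, -25⟩, (.cons (nat_lit 1410716) (nat_lit 2660945) (nat_lit 1333744) (nat_lit
 1) (.cons (nat_lit 2488396) (nat_lit 4816756) (nat_lit 5695079) (nat_lit 1) .nil)), (nat_lit 50), (nat_lit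
 64), (nat_lit 65), (nat_lit 1), (9, 24, 2), [1724876, 7058148], 11⟩,
  ⟨⟨3, 44, -20, -2, -15, -44, 36, 12, -25⟩, (.cons (nat_lit 1645799) (nat_lit 1481520) (nat_lit 1938735)
 (nat_lit 1) (.cons (nat_lit 2710575) (nat_lit 653602) (nat_lit 5828722) (nat_lit 1) .nil)), (nat_lit 37),
 (nat_lit 53), (nat_lit 3), (nat_lit 1), (36, 19, 2), [1559261, 6948779], 63⟩,
  ⟨⟨3, 44, -20, -2, -15, -44, 36, 12, -25⟩, (.cons (nat_lit 1645799) (nat_lit 1481520) (nat_lit 1938735)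
 (nat_lit 1) (.cons (nat_lit 2710575) (nat_lit 653602) (nat_lit 5828722) (nat_lit 1) .nil)), (nat_lit 37),
 (nat_lit 53), (nat_lit 3), (nat_lit 1), (36, 19, 2), [1559261, 6948779], 63⟩,
  ⟨⟨3, 44, -20, -2, -15, -44, 36, 12, -25⟩, (.cons (nat_lit 1645799) (nat_lit 1481520) (nat_lit 1938735)
 (nat_lit 1) (.cons (nat_lit 2710575) (nat_lit 653602) (nat_lit 5828722) (nat_lit 1) .nil)), (nat_lit 37),
 (nat_lit 53), (nat_lit 3), (nat_lit 1), (36, 19, 2), [1559261, 6948779], 63⟩,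
  ⟨⟨3, 44, -20, -2, -15, -44, 36, 12, -25⟩, (.cons (nat_lit 1645799) (nat_lit 1481520) (nat_lit 1938735)
 (nat_lit 1) (.cons (nat_lit 2710575) (nat_lit 653602) (nat_lit 5828722) (nat_lit 1) .nil)), (nat_lit 37),
 (nat_lit 53), (nat_lit 3), (nat_lit 1), (36, 19, 2), [1559261, 6948779], 63⟩]

/-- Moves. -/
noncomputable def t0_4 : List Mv := [
  ⟨⟨19, 36, -36, -20, -13, -30, 34, -8, -35⟩, (.cons (nat_lit 398284) (nat_lit 640947) (nat_lit 1995287)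
 (nat_lit 1) (.cons (nat_lit 5380853) (nat_lit 1113564) (nat_lit 1719398) (nat_lit 1) .nil)), (nat_lit 57),
 (nat_lit 46), (nat_lit 47), (nat_lit 1), (14, 26, 16), [1928435, 5419669], 61⟩,
  ⟨⟨19, 36, -36, 20, 13, 30, 34, -8, -35⟩, (.cons (nat_lit 1783875) (nat_lit 1773512) (nat_lit 1644506)
 (nat_lit 1) (.cons (nat_lit 7385041) (nat_lit 2669955) (nat_lit 6324191) (nat_lit 1) .nil)), (nat_lit 42),
 (nat_lit 15), (nat_lit 64), (nat_lit 1), (14, 17, 16), [2441495, 5458143], 2⟩,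
  ⟨⟨15, -44, 1, -20, -13, -30, 34, -8, -35⟩, (.cons (nat_lit 1214044) (nat_lit 1443005) (nat_lit 2559748)
 (nat_lit 1) (.cons (nat_lit 1805075) (nat_lit 4582341) (nat_lit 4212323) (nat_lit 1) .nil)), (nat_lit 69),
 (nat_lit 51), (nat_lit 17), (nat_lit 1), (2, 26, 16), [2771321, 5146128], 50⟩,
  ⟨⟨19, 36, -36, -20, -13, -30, 34, -8, -35⟩, (.cons (nat_lit 398284) (nat_lit 640947) (nat_lit 1995287)
 (nat_lit 1) (.cons (nat_lit 5380853) (nat_lit 1113564) (nat_lit 1719398) (nat_lit 1) .nil)), (nat_lit 57),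
 (nat_lit 46), (nat_lit 47), (nat_lit 1), (14, 26, 16), [1928435, 5419669], 61⟩,
  ⟨⟨19, 36, -36, 20, 13, 30, 34, -8, -35⟩, (.cons (nat_lit 1783875) (nat_lit 1773512) (nat_lit 1644506)
 (nat_lit 1) (.cons (nat_lit 7385041) (nat_lit 2669955) (nat_lit 6324191) (nat_lit 1) .nil)), (nat_lit 42),
 (nat_lit 15), (nat_lit 64), (nat_lit 1), (14, 17, 16), [2441495, 5458143], 2⟩,
  ⟨⟨19, 36, -36, -20, -13, -30, 34, -8, -35⟩, (.cons (nat_lit 398284) (nat_lit 640947) (nat_lit 1995287)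
 (nat_lit 1) (.cons (nat_lit 5380853) (nat_lit 1113564) (nat_lit 1719398) (nat_lit 1) .nil)), (nat_lit 57),
 (nat_lit 46), (nat_lit 47), (nat_lit 1), (14, 26, 16), [1928435, 5419669], 61⟩,
  ⟨⟨19, 36, -36, -20, -13, -30, 34, -8, -35⟩, (.cons (nat_lit 398284) (nat_lit 640947) (nat_lit 1995287)
 (nat_lit 1) (.cons (nat_lit 5380853) (nat_lit 1113564) (nat_lit 1719398) (nat_lit 1) .nil)), (nat_lit 57),
 (nat_lit 46), (nat_lit 47), (nat_lit 1), (14, 26, 16), [1928435, 5419669], 61⟩,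
  ⟨⟨19, 36, -36, -20, -13, -30, 34, -8, -35⟩, (.cons (nat_lit 398284) (nat_lit 640947) (nat_lit 1995287)
 (nat_lit 1) (.cons (nat_lit 5380853) (nat_lit 1113564) (nat_lit 1719398) (nat_lit 1) .nil)), (nat_lit 57),
 (nat_lit 46), (nat_lit 47), (nat_lit 1), (14, 26, 16), [1928435, 5419669], 61⟩,
  ⟨⟨19, 36, -36, -20, -13, -30, 34, -8, -35⟩, (.cons (nat_lit 398284) (nat_lit 640947) (nat_lit 1995287)
 (nat_lit 1) (.cons (nat_lit 5380853) (nat_lit 1113564) (nat_lit 1719398) (nat_lit 1) .nil)), (nat_lit 57),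
 (nat_lit 46), (nat_lit 47), (nat_lit 1), (14, 26, 16), [1928435, 5419669], 61⟩,
  ⟨⟨19, 36, -36, -20, -13, -30, 34, -8, -35⟩, (.cons (nat_lit 398284) (nat_lit 640947) (nat_lit 1995287)
 (nat_lit 1) (.cons (nat_lit 5380853) (nat_lit 1113564) (nat_lit 1719398) (nat_lit 1) .nil)), (nat_lit 57),
 (nat_lit 46), (nat_lit 47), (nat_lit 1), (14, 26, 16), [1928435, 5419669], 61⟩,
  ⟨⟨19, 36, -36, 20, 13, 30, 34, -8, -35⟩, (.cons (nat_lit 1783875) (nat_lit 1773512) (nat_lit 1644506)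
 (nat_lit 1) (.cons (nat_lit 7385041) (nat_lit 2669955) (nat_lit 6324191) (nat_lit 1) .nil)), (nat_lit 42),
 (nat_lit 15), (nat_lit 64), (nat_lit 1), (14, 17, 16), [2441495, 5458143], 2⟩,
  ⟨⟨15, -44, 1, 20, 13, 30, 34, -8, -35⟩, (.cons (nat_lit 2791712) (nat_lit 2920454) (nat_lit 1989022) (nat_lit
 1) (.cons (nat_lit 7568759) (nat_lit 1406204) (nat_lit 2108637) (nat_lit 1) .nil)), (nat_lit 67), (nat_lit
 12), (nat_lit 46), (nat_lit 1), (2, 17, 16), [710788, 6802785], 52⟩,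
  ⟨⟨19, 36, -36, -20, -13, -30, 34, -8, -35⟩, (.cons (nat_lit 398284) (nat_lit 640947) (nat_lit 1995287)
 (nat_lit 1) (.cons (nat_lit 5380853) (nat_lit 1113564) (nat_lit 1719398) (nat_lit 1) .nil)), (nat_lit 57),
 (nat_lit 46), (nat_lit 47), (nat_lit 1), (14, 26, 16), [1928435, 5419669], 61⟩,
  ⟨⟨19, 36, -36, -20, -13, -30, 34, -8, -35⟩, (.cons (nat_lit 398284) (nat_lit 640947) (nat_lit 1995287)
 (nat_lit 1) (.cons (nat_lit 5380853) (nat_lit 1113564) (nat_lit 1719398) (nat_lit 1) .nil)), (nat_lit 57),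
 (nat_lit 46), (nat_lit 47), (nat_lit 1), (14, 26, 16), [1928435, 5419669], 61⟩,
  ⟨⟨15, -44, 1, -20, -13, -30, 34, -8, -35⟩, (.cons (nat_lit 1214044) (nat_lit 1443005) (nat_lit 2559748)
 (nat_lit 1) (.cons (nat_lit 1805075) (nat_lit 4582341) (nat_lit 4212323) (nat_lit 1) .nil)), (nat_lit 69),
 (nat_lit 51), (nat_lit 17), (nat_lit 1), (2, 26, 16), [2771321, 5146128], 50⟩,
  ⟨⟨19, 36, -36, 20, 13, 30, 34, -8, -35⟩, (.cons (nat_lit 1783875) (nat_lit 1773512) (nat_lit 1644506)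
 (nat_lit 1) (.cons (nat_lit 7385041) (nat_lit 2669955) (nat_lit 6324191) (nat_lit 1) .nil)), (nat_lit 42),
 (nat_lit 15), (nat_lit 64), (nat_lit 1), (14, 17, 16), [2441495, 5458143], 2⟩,
  ⟨⟨15, -44, 1, -20, -13, -30, 34, -8, -35⟩, (.cons (nat_lit 1214044) (nat_lit 1443005) (nat_lit 2559748)
 (nat_lit 1) (.cons (nat_lit 1805075) (nat_lit 4582341) (nat_lit 4212323) (nat_lit 1) .nil)), (nat_lit 69),
 (nat_lit 51), (nat_lit 17), (nat_lit 1), (2, 26, 16), [2771321, 5146128], 50⟩,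
  ⟨⟨19, 36, -36, -20, -13, -30, 34, -8, -35⟩, (.cons (nat_lit 398284) (nat_lit 640947) (nat_lit 1995287)
 (nat_lit 1) (.cons (nat_lit 5380853) (nat_lit 1113564) (nat_lit 1719398) (nat_lit 1) .nil)), (nat_lit 57),
 (nat_lit 46), (nat_lit 47), (nat_lit 1), (14, 26, 16), [1928435, 5419669], 61⟩,
  ⟨⟨19, 36, -36, 20, 13, 30, 34, -8, -35⟩, (.cons (nat_lit 1783875) (nat_lit 1773512) (nat_lit 1644506)
 (nat_lit 1) (.cons (nat_lit 7385041) (nat_lit 2669955) (nat_lit 6324191) (nat_lit 1) .nil)), (nat_lit 42),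
 (nat_lit 15), (nat_lit 64), (nat_lit 1), (14, 17, 16), [2441495, 5458143], 2⟩,
  ⟨⟨19, 36, -36, -20, -13, -30, 34, -8, -35⟩, (.cons (nat_lit 398284) (nat_lit 640947) (nat_lit 1995287)
 (nat_lit 1) (.cons (nat_lit 5380853) (nat_lit 1113564) (nat_lit 1719398) (nat_lit 1) .nil)), (nat_lit 57),
 (nat_lit 46), (nat_lit 47), (nat_lit 1), (14, 26, 16), [1928435, 5419669], 61⟩,
  ⟨⟨15, -44, 1, -20, -13, -30, 34, -8, -35⟩, (.cons (nat_lit 1214044) (nat_lit 1443005) (nat_lit 2559748)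
 (nat_lit 1) (.cons (nat_lit 1805075) (nat_lit 4582341) (nat_lit 4212323) (nat_lit 1) .nil)), (nat_lit 69),
 (nat_lit 51), (nat_lit 17), (nat_lit 1), (2, 26, 16), [2771321, 5146128], 50⟩,
  ⟨⟨19, 36, -36, -20, -13, -30, 34, -8, -35⟩, (.cons (nat_lit 398284) (nat_lit 640947) (nat_lit 1995287)
 (nat_lit 1) (.cons (nat_lit 5380853) (nat_lit 1113564) (nat_lit 1719398) (nat_lit 1) .nil)), (nat_lit 57),
 (nat_lit 46), (nat_lit 47), (nat_lit 1), (14, 26, 16), [1928435, 5419669], 61⟩,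
  ⟨⟨15, -44, 1, 20, 13, 30, 34, -8, -35⟩, (.cons (nat_lit 2791712) (nat_lit 2920454) (nat_lit 1989022) (nat_lit
 1) (.cons (nat_lit 7568759) (nat_lit 1406204) (nat_lit 2108637) (nat_lit 1) .nil)), (nat_lit 67), (nat_lit
 12), (nat_lit 46), (nat_lit 1), (2, 17, 16), [710788, 6802785], 52⟩,
  ⟨⟨19, 36, -36, -20, -13, -30, 34, -8, -35⟩, (.cons (nat_lit 398284) (nat_lit 640947) (nat_lit 1995287)
 (nat_lit 1) (.cons (nat_lit 5380853) (nat_lit 1113564) (nat_lit 1719398) (nat_lit 1) .nil)), (nat_lit 57),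
 (nat_lit 46), (nat_lit 47), (nat_lit 1), (14, 26, 16), [1928435, 5419669], 61⟩,
  ⟨⟨15, -44, 1, 20, 13, 30, 34, -8, -35⟩, (.cons (nat_lit 2791712) (nat_lit 2920454) (nat_lit 1989022) (nat_lit
 1) (.cons (nat_lit 7568759) (nat_lit 1406204) (nat_lit 2108637) (nat_lit 1) .nil)), (nat_lit 67), (nat_lit
 12), (nat_lit 46), (nat_lit 1), (2, 17, 16), [710788, 6802785], 52⟩,
  ⟨⟨19, 36, -36, -20, -13, -30, 34, -8, -35⟩, (.cons (nat_lit 398284) (nat_lit 640947) (nat_lit 1995287)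
 (nat_lit 1) (.cons (nat_lit 5380853) (nat_lit 1113564) (nat_lit 1719398) (nat_lit 1) .nil)), (nat_lit 57),
 (nat_lit 46), (nat_lit 47), (nat_lit 1), (14, 26, 16), [1928435, 5419669], 61⟩,
  ⟨⟨19, 36, -36, -20, -13, -30, 34, -8, -35⟩, (.cons (nat_lit 398284) (nat_lit 640947) (nat_lit 1995287)
 (nat_lit 1) (.cons (nat_lit 5380853) (nat_lit 1113564) (nat_lit 1719398) (nat_lit 1) .nil)), (nat_lit 57),
 (nat_lit 46), (nat_lit 47), (nat_lit 1), (14, 26, 16), [1928435, 5419669], 61⟩,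
  ⟨⟨19, 36, -36, -20, -13, -30, 34, -8, -35⟩, (.cons (nat_lit 398284) (nat_lit 640947) (nat_lit 1995287)
 (nat_lit 1) (.cons (nat_lit 5380853) (nat_lit 1113564) (nat_lit 1719398) (nat_lit 1) .nil)), (nat_lit 57),
 (nat_lit 46), (nat_lit 47), (nat_lit 1), (14, 26, 16), [1928435, 5419669], 61⟩,
  ⟨⟨19, 36, -36, -20, -13, -30, 34, -8, -35⟩, (.cons (nat_lit 398284) (nat_lit 640947) (nat_lit 1995287)
 (nat_lit 1) (.cons (nat_lit 5380853) (nat_lit 1113564) (nat_lit 1719398) (nat_lit 1) .nil)), (nat_lit 57),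
 (nat_lit 46), (nat_lit 47), (nat_lit 1), (14, 26, 16), [1928435, 5419669], 61⟩,
  ⟨⟨19, 36, -36, -20, -13, -30, 34, -8, -35⟩, (.cons (nat_lit 398284) (nat_lit 640947) (nat_lit 1995287)
 (nat_lit 1) (.cons (nat_lit 5380853) (nat_lit 1113564) (nat_lit 1719398) (nat_lit 1) .nil)), (nat_lit 57),
 (nat_lit 46), (nat_lit 47), (nat_lit 1), (14, 26, 16), [1928435, 5419669], 61⟩,
  ⟨⟨19, 36, -36, -20, -13, -30, 34, -8, -35⟩, (.cons (nat_lit 398284) (nat_lit 640947) (nat_lit 1995287)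
 (nat_lit 1) (.cons (nat_lit 5380853) (nat_lit 1113564) (nat_lit 1719398) (nat_lit 1) .nil)), (nat_lit 57),
 (nat_lit 46), (nat_lit 47), (nat_lit 1), (14, 26, 16), [1928435, 5419669], 61⟩,
  ⟨⟨15, -44, 1, 20, 13, 30, 34, -8, -35⟩, (.cons (nat_lit 2791712) (nat_lit 2920454) (nat_lit 1989022) (nat_lit
 1) (.cons (nat_lit 7568759) (nat_lit 1406204) (nat_lit 2108637) (nat_lit 1) .nil)), (nat_lit 67), (nat_lit
 12), (nat_lit 46), (nat_lit 1), (2, 17, 16), [710788, 6802785], 52⟩,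
  ⟨⟨15, -44, 1, 20, 13, 30, 34, -8, -35⟩, (.cons (nat_lit 2791712) (nat_lit 2920454) (nat_lit 1989022) (nat_lit
 1) (.cons (nat_lit 7568759) (nat_lit 1406204) (nat_lit 2108637) (nat_lit 1) .nil)), (nat_lit 67), (nat_lit
 12), (nat_lit 46), (nat_lit 1), (2, 17, 16), [710788, 6802785], 52⟩,
  ⟨⟨15, -44, 1, -20, -13, -30, 34, -8, -35⟩, (.cons (nat_lit 1214044) (nat_lit 1443005) (nat_lit 2559748)
 (nat_lit 1) (.cons (nat_lit 1805075) (nat_lit 4582341) (nat_lit 4212323) (nat_lit 1) .nil)), (nat_lit 69),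
 (nat_lit 51), (nat_lit 17), (nat_lit 1), (2, 26, 16), [2771321, 5146128], 50⟩,
  ⟨⟨19, 36, -36, -20, -13, -30, 34, -8, -35⟩, (.cons (nat_lit 398284) (nat_lit 640947) (nat_lit 1995287)
 (nat_lit 1) (.cons (nat_lit 5380853) (nat_lit 1113564) (nat_lit 1719398) (nat_lit 1) .nil)), (nat_lit 57),
 (nat_lit 46), (nat_lit 47), (nat_lit 1), (14, 26, 16), [1928435, 5419669], 61⟩,
  ⟨⟨19, 36, -36, -20, -13, -30, 34, -8, -35⟩, (.cons (nat_lit 398284) (nat_lit 640947) (nat_lit 1995287)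
 (nat_lit 1) (.cons (nat_lit 5380853) (nat_lit 1113564) (nat_lit 1719398) (nat_lit 1) .nil)), (nat_lit 57),
 (nat_lit 46), (nat_lit 47), (nat_lit 1), (14, 26, 16), [1928435, 5419669], 61⟩,
  ⟨⟨19, 36, -36, 20, 13, 30, 34, -8, -35⟩, (.cons (nat_lit 1783875) (nat_lit 1773512) (nat_lit 1644506)
 (nat_lit 1) (.cons (nat_lit 7385041) (nat_lit 2669955) (nat_lit 6324191) (nat_lit 1) .nil)), (nat_lit 42),
 (nat_lit 15), (nat_lit 64), (nat_lit 1), (14, 17, 16), [2441495, 5458143], 2⟩,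
  ⟨⟨19, 36, -36, -20, -13, -30, 34, -8, -35⟩, (.cons (nat_lit 398284) (nat_lit 640947) (nat_lit 1995287)
 (nat_lit 1) (.cons (nat_lit 5380853) (nat_lit 1113564) (nat_lit 1719398) (nat_lit 1) .nil)), (nat_lit 57),
 (nat_lit 46), (nat_lit 47), (nat_lit 1), (14, 26, 16), [1928435, 5419669], 61⟩,
  ⟨⟨15, -44, 1, -20, -13, -30, 34, -8, -35⟩, (.cons (nat_lit 1214044) (nat_lit 1443005) (nat_lit 2559748)
 (nat_lit 1) (.cons (nat_lit 1805075) (nat_lit 4582341) (nat_lit 4212323) (nat_lit 1) .nil)), (nat_lit 69),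
 (nat_lit 51), (nat_lit 17), (nat_lit 1), (2, 26, 16), [2771321, 5146128], 50⟩,
  ⟨⟨15, -44, 1, -20, -13, -30, 34, -8, -35⟩, (.cons (nat_lit 1214044) (nat_lit 1443005) (nat_lit 2559748)
 (nat_lit 1) (.cons (nat_lit 1805075) (nat_lit 4582341) (nat_lit 4212323) (nat_lit 1) .nil)), (nat_lit 69),
 (nat_lit 51), (nat_lit 17), (nat_lit 1), (2, 26, 16), [2771321, 5146128], 50⟩,
  ⟨⟨19, 36, -36, -20, -13, -30, 34, -8, -35⟩, (.cons (nat_lit 398284) (nat_lit 640947) (nat_lit 1995287)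
 (nat_lit 1) (.cons (nat_lit 5380853) (nat_lit 1113564) (nat_lit 1719398) (nat_lit 1) .nil)), (nat_lit 57),
 (nat_lit 46), (nat_lit 47), (nat_lit 1), (14, 26, 16), [1928435, 5419669], 61⟩,
  ⟨⟨19, 36, -36, -20, -13, -30, 34, -8, -35⟩, (.cons (nat_lit 398284) (nat_lit 640947) (nat_lit 1995287)
 (nat_lit 1) (.cons (nat_lit 5380853) (nat_lit 1113564) (nat_lit 1719398) (nat_lit 1) .nil)), (nat_lit 57),
 (nat_lit 46), (nat_lit 47), (nat_lit 1), (14, 26, 16), [1928435, 5419669], 61⟩,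
  ⟨⟨19, 36, -36, -20, -13, -30, 34, -8, -35⟩, (.cons (nat_lit 398284) (nat_lit 640947) (nat_lit 1995287)
 (nat_lit 1) (.cons (nat_lit 5380853) (nat_lit 1113564) (nat_lit 1719398) (nat_lit 1) .nil)), (nat_lit 57),
 (nat_lit 46), (nat_lit 47), (nat_lit 1), (14, 26, 16), [1928435, 5419669], 61⟩]

/-- Moves. -/
noncomputable def t0_6 : List Mv := [
  ⟨⟨-37, -24, 0, 20, -37, 0, 2, -8, -43⟩, (.cons (nat_lit 2194156) (nat_lit 701506) (nat_lit 1546716) (nat_lit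
 1) (.cons (nat_lit 174114) (nat_lit 2291148) (nat_lit 327598) (nat_lit 1) .nil)), (nat_lit 23), (nat_lit 62),
 (nat_lit 32), (nat_lit 1), (12, 40, 4), [67969, 4848192], 46⟩,
  ⟨⟨-37, -24, 0, 20, -37, 0, 2, -8, -43⟩, (.cons (nat_lit 2194156) (nat_lit 701506) (nat_lit 1546716) (nat_lit
 1) (.cons (nat_lit 174114) (nat_lit 2291148) (nat_lit 327598) (nat_lit 1) .nil)), (nat_lit 23), (nat_lit 62),
 (nat_lit 32), (nat_lit 1), (12, 40, 4), [67969, 4848192], 46⟩,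
  ⟨⟨39, 16, -43, 20, -37, 0, 2, -8, -43⟩, (.cons (nat_lit 1849349) (nat_lit 3200185) (nat_lit 1916000) (nat_lit
 1) (.cons (nat_lit 870715) (nat_lit 7099132) (nat_lit 912676) (nat_lit 1) .nil)), (nat_lit 33), (nat_lit 31),
 (nat_lit 33), (nat_lit 1), (35, 40, 4), [2025630, 4613122], 30⟩,
  ⟨⟨39, 16, -43, -20, 37, 0, 2, -8, -43⟩, (.cons (nat_lit 374215) (nat_lit 2513663) (nat_lit 1389447) (nat_lit
 1) (.cons (nat_lit 7214792) (nat_lit 1184382) (nat_lit 5375256) (nat_lit 1) .nil)), (nat_lit 49), (nat_lit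
 57), (nat_lit 29), (nat_lit 1), (35, 3, 4), [1901760, 6576596], 31⟩,
  ⟨⟨-37, -24, 0, -20, 37, 0, 2, -8, -43⟩, (.cons (nat_lit 2602933) (nat_lit 2320225) (nat_lit 2713030) (nat_lit
 1) (.cons (nat_lit 7890480) (nat_lit 449059) (nat_lit 6757910) (nat_lit 1) .nil)), (nat_lit 70), (nat_lit 43),
 (nat_lit 40), (nat_lit 1), (12, 3, 4), [2562025, 6680364], 50⟩,
  ⟨⟨39, 16, -43, -20, 37, 0, 2, -8, -43⟩, (.cons (nat_lit 374215) (nat_lit 2513663) (nat_lit 1389447) (nat_lit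
 1) (.cons (nat_lit 7214792) (nat_lit 1184382) (nat_lit 5375256) (nat_lit 1) .nil)), (nat_lit 49), (nat_lit
 57), (nat_lit 29), (nat_lit 1), (35, 3, 4), [1901760, 6576596], 31⟩,
  ⟨⟨39, 16, -43, 20, -37, 0, 2, -8, -43⟩, (.cons (nat_lit 1849349) (nat_lit 3200185) (nat_lit 1916000) (nat_lit
 1) (.cons (nat_lit 870715) (nat_lit 7099132) (nat_lit 912676) (nat_lit 1) .nil)), (nat_lit 33), (nat_lit 31),
 (nat_lit 33), (nat_lit 1), (35, 40, 4), [2025630, 4613122], 30⟩,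
  ⟨⟨-37, -24, 0, -20, 37, 0, 2, -8, -43⟩, (.cons (nat_lit 2602933) (nat_lit 2320225) (nat_lit 2713030) (nat_lit
 1) (.cons (nat_lit 7890480) (nat_lit 449059) (nat_lit 6757910) (nat_lit 1) .nil)), (nat_lit 70), (nat_lit 43),
 (nat_lit 40), (nat_lit 1), (12, 3, 4), [2562025, 6680364], 50⟩,
  ⟨⟨39, 16, -43, 20, -37, 0, 2, -8, -43⟩, (.cons (nat_lit 1849349) (nat_lit 3200185) (nat_lit 1916000) (nat_lit
 1) (.cons (nat_lit 870715) (nat_lit 7099132) (nat_lit 912676) (nat_lit 1) .nil)), (nat_lit 33), (nat_lit 31),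
 (nat_lit 33), (nat_lit 1), (35, 40, 4), [2025630, 4613122], 30⟩,
  ⟨⟨39, 16, -43, 20, -37, 0, 2, -8, -43⟩, (.cons (nat_lit 1849349) (nat_lit 3200185) (nat_lit 1916000) (nat_lit
 1) (.cons (nat_lit 870715) (nat_lit 7099132) (nat_lit 912676) (nat_lit 1) .nil)), (nat_lit 33), (nat_lit 31),
 (nat_lit 33), (nat_lit 1), (35, 40, 4), [2025630, 4613122], 30⟩,
  ⟨⟨-37, -24, 0, 20, -37, 0, 2, -8, -43⟩, (.cons (nat_lit 2194156) (nat_lit 701506) (nat_lit 1546716) (nat_lit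
 1) (.cons (nat_lit 174114) (nat_lit 2291148) (nat_lit 327598) (nat_lit 1) .nil)), (nat_lit 23), (nat_lit 62),
 (nat_lit 32), (nat_lit 1), (12, 40, 4), [67969, 4848192], 46⟩,
  ⟨⟨-37, -24, 0, -20, 37, 0, 2, -8, -43⟩, (.cons (nat_lit 2602933) (nat_lit 2320225) (nat_lit 2713030) (nat_lit
 1) (.cons (nat_lit 7890480) (nat_lit 449059) (nat_lit 6757910) (nat_lit 1) .nil)), (nat_lit 70), (nat_lit 43),
 (nat_lit 40), (nat_lit 1), (12, 3, 4), [2562025, 6680364], 50⟩,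
  ⟨⟨-37, -24, 0, 20, -37, 0, 2, -8, -43⟩, (.cons (nat_lit 2194156) (nat_lit 701506) (nat_lit 1546716) (nat_lit
 1) (.cons (nat_lit 174114) (nat_lit 2291148) (nat_lit 327598) (nat_lit 1) .nil)), (nat_lit 23), (nat_lit 62),
 (nat_lit 32), (nat_lit 1), (12, 40, 4), [67969, 4848192], 46⟩,
  ⟨⟨-37, -24, 0, -20, 37, 0, 2, -8, -43⟩, (.cons (nat_lit 2602933) (nat_lit 2320225) (nat_lit 2713030) (nat_lit
 1) (.cons (nat_lit 7890480) (nat_lit 449059) (nat_lit 6757910) (nat_lit 1) .nil)), (nat_lit 70), (nat_lit 43),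
 (nat_lit 40), (nat_lit 1), (12, 3, 4), [2562025, 6680364], 50⟩,
  ⟨⟨-37, -24, 0, -20, 37, 0, 2, -8, -43⟩, (.cons (nat_lit 2602933) (nat_lit 2320225) (nat_lit 2713030) (nat_lit
 1) (.cons (nat_lit 7890480) (nat_lit 449059) (nat_lit 6757910) (nat_lit 1) .nil)), (nat_lit 70), (nat_lit 43),
 (nat_lit 40), (nat_lit 1), (12, 3, 4), [2562025, 6680364], 50⟩,
  ⟨⟨-37, -24, 0, -20, 37, 0, 2, -8, -43⟩, (.cons (nat_lit 2602933) (nat_lit 2320225) (nat_lit 2713030) (nat_lit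
 1) (.cons (nat_lit 7890480) (nat_lit 449059) (nat_lit 6757910) (nat_lit 1) .nil)), (nat_lit 70), (nat_lit 43),
 (nat_lit 40), (nat_lit 1), (12, 3, 4), [2562025, 6680364], 50⟩,
  ⟨⟨-37, -24, 0, -20, 37, 0, 2, -8, -43⟩, (.cons (nat_lit 2602933) (nat_lit 2320225) (nat_lit 2713030) (nat_lit
 1) (.cons (nat_lit 7890480) (nat_lit 449059) (nat_lit 6757910) (nat_lit 1) .nil)), (nat_lit 70), (nat_lit 43),
 (nat_lit 40), (nat_lit 1), (12, 3, 4), [2562025, 6680364], 50⟩,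
  ⟨⟨39, 16, -43, -20, 37, 0, 2, -8, -43⟩, (.cons (nat_lit 374215) (nat_lit 2513663) (nat_lit 1389447) (nat_lit
 1) (.cons (nat_lit 7214792) (nat_lit 1184382) (nat_lit 5375256) (nat_lit 1) .nil)), (nat_lit 49), (nat_lit
 57), (nat_lit 29), (nat_lit 1), (35, 3, 4), [1901760, 6576596], 31⟩,
  ⟨⟨-37, -24, 0, -20, 37, 0, 2, -8, -43⟩, (.cons (nat_lit 2602933) (nat_lit 2320225) (nat_lit 2713030) (nat_lit
 1) (.cons (nat_lit 7890480) (nat_lit 449059) (nat_lit 6757910) (nat_lit 1) .nil)), (nat_lit 70), (nat_lit 43),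
 (nat_lit 40), (nat_lit 1), (12, 3, 4), [2562025, 6680364], 50⟩,
  ⟨⟨-37, -24, 0, -20, 37, 0, 2, -8, -43⟩, (.cons (nat_lit 2602933) (nat_lit 2320225) (nat_lit 2713030) (nat_lit
 1) (.cons (nat_lit 7890480) (nat_lit 449059) (nat_lit 6757910) (nat_lit 1) .nil)), (nat_lit 70), (nat_lit 43),
 (nat_lit 40), (nat_lit 1), (12, 3, 4), [2562025, 6680364], 50⟩,
  ⟨⟨39, 16, -43, -20, 37, 0, 2, -8, -43⟩, (.cons (nat_lit 374215) (nat_lit 2513663) (nat_lit 1389447) (nat_lit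
 1) (.cons (nat_lit 7214792) (nat_lit 1184382) (nat_lit 5375256) (nat_lit 1) .nil)), (nat_lit 49), (nat_lit
 57), (nat_lit 29), (nat_lit 1), (35, 3, 4), [1901760, 6576596], 31⟩,
  ⟨⟨-37, -24, 0, -20, 37, 0, 2, -8, -43⟩, (.cons (nat_lit 2602933) (nat_lit 2320225) (nat_lit 2713030) (nat_lit
 1) (.cons (nat_lit 7890480) (nat_lit 449059) (nat_lit 6757910) (nat_lit 1) .nil)), (nat_lit 70), (nat_lit 43),
 (nat_lit 40), (nat_lit 1), (12, 3, 4), [2562025, 6680364], 50⟩,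
  ⟨⟨-37, -24, 0, -20, 37, 0, 2, -8, -43⟩, (.cons (nat_lit 2602933) (nat_lit 2320225) (nat_lit 2713030) (nat_lit
 1) (.cons (nat_lit 7890480) (nat_lit 449059) (nat_lit 6757910) (nat_lit 1) .nil)), (nat_lit 70), (nat_lit 43),
 (nat_lit 40), (nat_lit 1), (12, 3, 4), [2562025, 6680364], 50⟩,
  ⟨⟨-37, -24, 0, -20, 37, 0, 2, -8, -43⟩, (.cons (nat_lit 2602933) (nat_lit 2320225) (nat_lit 2713030) (nat_lit
 1) (.cons (nat_lit 7890480) (nat_lit 449059) (nat_lit 6757910) (nat_lit 1) .nil)), (nat_lit 70), (nat_lit 43),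
 (nat_lit 40), (nat_lit 1), (12, 3, 4), [2562025, 6680364], 50⟩,
  ⟨⟨-37, -24, 0, -20, 37, 0, 2, -8, -43⟩, (.cons (nat_lit 2602933) (nat_lit 2320225) (nat_lit 2713030) (nat_lit
 1) (.cons (nat_lit 7890480) (nat_lit 449059) (nat_lit 6757910) (nat_lit 1) .nil)), (nat_lit 70), (nat_lit 43),
 (nat_lit 40), (nat_lit 1), (12, 3, 4), [2562025, 6680364], 50⟩,
  ⟨⟨-37, -24, 0, -20, 37, 0, 2, -8, -43⟩, (.cons (nat_lit 2602933) (nat_lit 2320225) (nat_lit 2713030) (nat_lit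
 1) (.cons (nat_lit 7890480) (nat_lit 449059) (nat_lit 6757910) (nat_lit 1) .nil)), (nat_lit 70), (nat_lit 43),
 (nat_lit 40), (nat_lit 1), (12, 3, 4), [2562025, 6680364], 50⟩,
  ⟨⟨-37, -24, 0, 20, -37, 0, 2, -8, -43⟩, (.cons (nat_lit 2194156) (nat_lit 701506) (nat_lit 1546716) (nat_lit
 1) (.cons (nat_lit 174114) (nat_lit 2291148) (nat_lit 327598) (nat_lit 1) .nil)), (nat_lit 23), (nat_lit 62),
 (nat_lit 32), (nat_lit 1), (12, 40, 4), [67969, 4848192], 46⟩,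
  ⟨⟨39, 16, -43, -20, 37, 0, 2, -8, -43⟩, (.cons (nat_lit 374215) (nat_lit 2513663) (nat_lit 1389447) (nat_lit
 1) (.cons (nat_lit 7214792) (nat_lit 1184382) (nat_lit 5375256) (nat_lit 1) .nil)), (nat_lit 49), (nat_lit
 57), (nat_lit 29), (nat_lit 1), (35, 3, 4), [1901760, 6576596], 31⟩,
  ⟨⟨-37, -24, 0, -20, 37, 0, 2, -8, -43⟩, (.cons (nat_lit 2602933) (nat_lit 2320225) (nat_lit 2713030) (nat_lit
 1) (.cons (nat_lit 7890480) (nat_lit 449059) (nat_lit 6757910) (nat_lit 1) .nil)), (nat_lit 70), (nat_lit 43),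
 (nat_lit 40), (nat_lit 1), (12, 3, 4), [2562025, 6680364], 50⟩,
  ⟨⟨39, 16, -43, 20, -37, 0, 2, -8, -43⟩, (.cons (nat_lit 1849349) (nat_lit 3200185) (nat_lit 1916000) (nat_lit
 1) (.cons (nat_lit 870715) (nat_lit 7099132) (nat_lit 912676) (nat_lit 1) .nil)), (nat_lit 33), (nat_lit 31),
 (nat_lit 33), (nat_lit 1), (35, 40, 4), [2025630, 4613122], 30⟩,
  ⟨⟨39, 16, -43, -20, 37, 0, 2, -8, -43⟩, (.cons (nat_lit 374215) (nat_lit 2513663) (nat_lit 1389447) (nat_lit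
 1) (.cons (nat_lit 7214792) (nat_lit 1184382) (nat_lit 5375256) (nat_lit 1) .nil)), (nat_lit 49), (nat_lit
 57), (nat_lit 29), (nat_lit 1), (35, 3, 4), [1901760, 6576596], 31⟩,
  ⟨⟨-37, -24, 0, 20, -37, 0, 2, -8, -43⟩, (.cons (nat_lit 2194156) (nat_lit 701506) (nat_lit 1546716) (nat_lit
 1) (.cons (nat_lit 174114) (nat_lit 2291148) (nat_lit 327598) (nat_lit 1) .nil)), (nat_lit 23), (nat_lit 62),
 (nat_lit 32), (nat_lit 1), (12, 40, 4), [67969, 4848192], 46⟩,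
  ⟨⟨-37, -24, 0, -20, 37, 0, 2, -8, -43⟩, (.cons (nat_lit 2602933) (nat_lit 2320225) (nat_lit 2713030) (nat_lit
 1) (.cons (nat_lit 7890480) (nat_lit 449059) (nat_lit 6757910) (nat_lit 1) .nil)), (nat_lit 70), (nat_lit 43),
 (nat_lit 40), (nat_lit 1), (12, 3, 4), [2562025, 6680364], 50⟩,
  ⟨⟨-37, -24, 0, -20, 37, 0, 2, -8, -43⟩, (.cons (nat_lit 2602933) (nat_lit 2320225) (nat_lit 2713030) (nat_lit
 1) (.cons (nat_lit 7890480) (nat_lit 449059) (nat_lit 6757910) (nat_lit 1) .nil)), (nat_lit 70), (nat_lit 43),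
 (nat_lit 40), (nat_lit 1), (12, 3, 4), [2562025, 6680364], 50⟩,
  ⟨⟨39, 16, -43, -20, 37, 0, 2, -8, -43⟩, (.cons (nat_lit 374215) (nat_lit 2513663) (nat_lit 1389447) (nat_lit
 1) (.cons (nat_lit 7214792) (nat_lit 1184382) (nat_lit 5375256) (nat_lit 1) .nil)), (nat_lit 49), (nat_lit
 57), (nat_lit 29), (nat_lit 1), (35, 3, 4), [1901760, 6576596], 31⟩,
  ⟨⟨-37, -24, 0, -20, 37, 0, 2, -8, -43⟩, (.cons (nat_lit 2602933) (nat_lit 2320225) (nat_lit 2713030) (nat_lit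
 1) (.cons (nat_lit 7890480) (nat_lit 449059) (nat_lit 6757910) (nat_lit 1) .nil)), (nat_lit 70), (nat_lit 43),
 (nat_lit 40), (nat_lit 1), (12, 3, 4), [2562025, 6680364], 50⟩,
  ⟨⟨-37, -24, 0, -20, 37, 0, 2, -8, -43⟩, (.cons (nat_lit 2602933) (nat_lit 2320225) (nat_lit 2713030) (nat_lit
 1) (.cons (nat_lit 7890480) (nat_lit 449059) (nat_lit 6757910) (nat_lit 1) .nil)), (nat_lit 70), (nat_lit 43),
 (nat_lit 40), (nat_lit 1), (12, 3, 4), [2562025, 6680364], 50⟩,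
  ⟨⟨-37, -24, 0, -20, 37, 0, 2, -8, -43⟩, (.cons (nat_lit 2602933) (nat_lit 2320225) (nat_lit 2713030) (nat_lit
 1) (.cons (nat_lit 7890480) (nat_lit 449059) (nat_lit 6757910) (nat_lit 1) .nil)), (nat_lit 70), (nat_lit 43),
 (nat_lit 40), (nat_lit 1), (12, 3, 4), [2562025, 6680364], 50⟩,
  ⟨⟨39, 16, -43, 20, -37, 0, 2, -8, -43⟩, (.cons (nat_lit 1849349) (nat_lit 3200185) (nat_lit 1916000) (nat_lit
 1) (.cons (nat_lit 870715) (nat_lit 7099132) (nat_lit 912676) (nat_lit 1) .nil)), (nat_lit 33), (nat_lit 31),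
 (nat_lit 33), (nat_lit 1), (35, 40, 4), [2025630, 4613122], 30⟩,
  ⟨⟨-37, -24, 0, -20, 37, 0, 2, -8, -43⟩, (.cons (nat_lit 2602933) (nat_lit 2320225) (nat_lit 2713030) (nat_lit
 1) (.cons (nat_lit 7890480) (nat_lit 449059) (nat_lit 6757910) (nat_lit 1) .nil)), (nat_lit 70), (nat_lit 43),
 (nat_lit 40), (nat_lit 1), (12, 3, 4), [2562025, 6680364], 50⟩,
  ⟨⟨-37, -24, 0, -20, 37, 0, 2, -8, -43⟩, (.cons (nat_lit 2602933) (nat_lit 2320225) (nat_lit 2713030) (nat_lit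
 1) (.cons (nat_lit 7890480) (nat_lit 449059) (nat_lit 6757910) (nat_lit 1) .nil)), (nat_lit 70), (nat_lit 43),
 (nat_lit 40), (nat_lit 1), (12, 3, 4), [2562025, 6680364], 50⟩,
  ⟨⟨-37, -24, 0, -20, 37, 0, 2, -8, -43⟩, (.cons (nat_lit 2602933) (nat_lit 2320225) (nat_lit 2713030) (nat_lit
 1) (.cons (nat_lit 7890480) (nat_lit 449059) (nat_lit 6757910) (nat_lit 1) .nil)), (nat_lit 70), (nat_lit 43),
 (nat_lit 40), (nat_lit 1), (12, 3, 4), [2562025, 6680364], 50⟩,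
  ⟨⟨-37, -24, 0, -20, 37, 0, 2, -8, -43⟩, (.cons (nat_lit 2602933) (nat_lit 2320225) (nat_lit 2713030) (nat_lit
 1) (.cons (nat_lit 7890480) (nat_lit 449059) (nat_lit 6757910) (nat_lit 1) .nil)), (nat_lit 70), (nat_lit 43),
 (nat_lit 40), (nat_lit 1), (12, 3, 4), [2562025, 6680364], 50⟩]

/-- Moves. -/
noncomputable def t0_7 : List Mv := [
  ⟨⟨33, 8, -53, 20, 27, 20, 30, -24, -13⟩, (.cons (nat_lit 1860441) (nat_lit 2696660) (nat_lit 1250384)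
 (nat_lit 1) (.cons (nat_lit 7397297) (nat_lit 7335014) (nat_lit 480358) (nat_lit 1) .nil)), (nat_lit 65),
 (nat_lit 29), (nat_lit 24), (nat_lit 1), (32, 22, 33), [2205271, 1591049], 60⟩,
  ⟨⟨33, 8, -53, -20, -27, -20, 30, -24, -13⟩, (.cons (nat_lit 791007) (nat_lit 726738) (nat_lit 1258269)
 (nat_lit 1) (.cons (nat_lit 2289624) (nat_lit 4595428) (nat_lit 652058) (nat_lit 1) .nil)), (nat_lit 7),
 (nat_lit 64), (nat_lit 45), (nat_lit 1), (32, 21, 33), [983244, 4670912], 70⟩,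
  ⟨⟨33, 8, -53, -20, -27, -20, 30, -24, -13⟩, (.cons (nat_lit 791007) (nat_lit 726738) (nat_lit 1258269)
 (nat_lit 1) (.cons (nat_lit 2289624) (nat_lit 4595428) (nat_lit 652058) (nat_lit 1) .nil)), (nat_lit 7),
 (nat_lit 64), (nat_lit 45), (nat_lit 1), (32, 21, 33), [983244, 4670912], 70⟩,
  ⟨⟨33, 8, -53, -20, -27, -20, 30, -24, -13⟩, (.cons (nat_lit 791007) (nat_lit 726738) (nat_lit 1258269)
 (nat_lit 1) (.cons (nat_lit 2289624) (nat_lit 4595428) (nat_lit 652058) (nat_lit 1) .nil)), (nat_lit 7),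
 (nat_lit 64), (nat_lit 45), (nat_lit 1), (32, 21, 33), [983244, 4670912], 70⟩,
  ⟨⟨-3, -32, 40, 20, 27, 20, 30, -24, -13⟩, (.cons (nat_lit 2748256) (nat_lit 2951304) (nat_lit 478233)
 (nat_lit 1) (.cons (nat_lit 5093082) (nat_lit 2521799) (nat_lit 6955839) (nat_lit 1) .nil)), (nat_lit 42),
 (nat_lit 53), (nat_lit 70), (nat_lit 1), (1, 22, 33), [669139, 5414753], 33⟩,
  ⟨⟨33, 8, -53, -20, -27, -20, 30, -24, -13⟩, (.cons (nat_lit 791007) (nat_lit 726738) (nat_lit 1258269)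
 (nat_lit 1) (.cons (nat_lit 2289624) (nat_lit 4595428) (nat_lit 652058) (nat_lit 1) .nil)), (nat_lit 7),
 (nat_lit 64), (nat_lit 45), (nat_lit 1), (32, 21, 33), [983244, 4670912], 70⟩,
  ⟨⟨-3, -32, 40, 20, 27, 20, 30, -24, -13⟩, (.cons (nat_lit 2748256) (nat_lit 2951304) (nat_lit 478233)
 (nat_lit 1) (.cons (nat_lit 5093082) (nat_lit 2521799) (nat_lit 6955839) (nat_lit 1) .nil)), (nat_lit 42),
 (nat_lit 53), (nat_lit 70), (nat_lit 1), (1, 22, 33), [669139, 5414753], 33⟩,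
  ⟨⟨33, 8, -53, -20, -27, -20, 30, -24, -13⟩, (.cons (nat_lit 791007) (nat_lit 726738) (nat_lit 1258269)
 (nat_lit 1) (.cons (nat_lit 2289624) (nat_lit 4595428) (nat_lit 652058) (nat_lit 1) .nil)), (nat_lit 7),
 (nat_lit 64), (nat_lit 45), (nat_lit 1), (32, 21, 33), [983244, 4670912], 70⟩,
  ⟨⟨-3, -32, 40, 20, 27, 20, 30, -24, -13⟩, (.cons (nat_lit 2748256) (nat_lit 2951304) (nat_lit 478233)
 (nat_lit 1) (.cons (nat_lit 5093082) (nat_lit 2521799) (nat_lit 6955839) (nat_lit 1) .nil)), (nat_lit 42),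
 (nat_lit 53), (nat_lit 70), (nat_lit 1), (1, 22, 33), [669139, 5414753], 33⟩,
  ⟨⟨-3, -32, 40, -20, -27, -20, 30, -24, -13⟩, (.cons (nat_lit 1496593) (nat_lit 997820) (nat_lit 3144206)
 (nat_lit 1) (.cons (nat_lit 7890480) (nat_lit 4782388) (nat_lit 2619086) (nat_lit 1) .nil)), (nat_lit 70),
 (nat_lit 68), (nat_lit 61), (nat_lit 1), (1, 21, 33), [1492149, 2373754], 16⟩,
  ⟨⟨33, 8, -53, -20, -27, -20, 30, -24, -13⟩, (.cons (nat_lit 791007) (nat_lit 726738) (nat_lit 1258269)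
 (nat_lit 1) (.cons (nat_lit 2289624) (nat_lit 4595428) (nat_lit 652058) (nat_lit 1) .nil)), (nat_lit 7),
 (nat_lit 64), (nat_lit 45), (nat_lit 1), (32, 21, 33), [983244, 4670912], 70⟩,
  ⟨⟨33, 8, -53, 20, 27, 20, 30, -24, -13⟩, (.cons (nat_lit 1860441) (nat_lit 2696660) (nat_lit 1250384)
 (nat_lit 1) (.cons (nat_lit 7397297) (nat_lit 7335014) (nat_lit 480358) (nat_lit 1) .nil)), (nat_lit 65),
 (nat_lit 29), (nat_lit 24), (nat_lit 1), (32, 22, 33), [2205271, 1591049], 60⟩,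
  ⟨⟨33, 8, -53, -20, -27, -20, 30, -24, -13⟩, (.cons (nat_lit 791007) (nat_lit 726738) (nat_lit 1258269)
 (nat_lit 1) (.cons (nat_lit 2289624) (nat_lit 4595428) (nat_lit 652058) (nat_lit 1) .nil)), (nat_lit 7),
 (nat_lit 64), (nat_lit 45), (nat_lit 1), (32, 21, 33), [983244, 4670912], 70⟩,
  ⟨⟨33, 8, -53, 20, 27, 20, 30, -24, -13⟩, (.cons (nat_lit 1860441) (nat_lit 2696660) (nat_lit 1250384)
 (nat_lit 1) (.cons (nat_lit 7397297) (nat_lit 7335014) (nat_lit 480358) (nat_lit 1) .nil)), (nat_lit 65),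
 (nat_lit 29), (nat_lit 24), (nat_lit 1), (32, 22, 33), [2205271, 1591049], 60⟩,
  ⟨⟨33, 8, -53, -20, -27, -20, 30, -24, -13⟩, (.cons (nat_lit 791007) (nat_lit 726738) (nat_lit 1258269)
 (nat_lit 1) (.cons (nat_lit 2289624) (nat_lit 4595428) (nat_lit 652058) (nat_lit 1) .nil)), (nat_lit 7),
 (nat_lit 64), (nat_lit 45), (nat_lit 1), (32, 21, 33), [983244, 4670912], 70⟩,
  ⟨⟨-3, -32, 40, 20, 27, 20, 30, -24, -13⟩, (.cons (nat_lit 2748256) (nat_lit 2951304) (nat_lit 478233)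
 (nat_lit 1) (.cons (nat_lit 5093082) (nat_lit 2521799) (nat_lit 6955839) (nat_lit 1) .nil)), (nat_lit 42),
 (nat_lit 53), (nat_lit 70), (nat_lit 1), (1, 22, 33), [669139, 5414753], 33⟩,
  ⟨⟨-3, -32, 40, 20, 27, 20, 30, -24, -13⟩, (.cons (nat_lit 2748256) (nat_lit 2951304) (nat_lit 478233)
 (nat_lit 1) (.cons (nat_lit 5093082) (nat_lit 2521799) (nat_lit 6955839) (nat_lit 1) .nil)), (nat_lit 42),
 (nat_lit 53), (nat_lit 70), (nat_lit 1), (1, 22, 33), [669139, 5414753], 33⟩,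
  ⟨⟨33, 8, -53, -20, -27, -20, 30, -24, -13⟩, (.cons (nat_lit 791007) (nat_lit 726738) (nat_lit 1258269)
 (nat_lit 1) (.cons (nat_lit 2289624) (nat_lit 4595428) (nat_lit 652058) (nat_lit 1) .nil)), (nat_lit 7),
 (nat_lit 64), (nat_lit 45), (nat_lit 1), (32, 21, 33), [983244, 4670912], 70⟩,
  ⟨⟨33, 8, -53, -20, -27, -20, 30, -24, -13⟩, (.cons (nat_lit 791007) (nat_lit 726738) (nat_lit 1258269)
 (nat_lit 1) (.cons (nat_lit 2289624) (nat_lit 4595428) (nat_lit 652058) (nat_lit 1) .nil)), (nat_lit 7),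
 (nat_lit 64), (nat_lit 45), (nat_lit 1), (32, 21, 33), [983244, 4670912], 70⟩,
  ⟨⟨-3, -32, 40, -20, -27, -20, 30, -24, -13⟩, (.cons (nat_lit 1496593) (nat_lit 997820) (nat_lit 3144206)
 (nat_lit 1) (.cons (nat_lit 7890480) (nat_lit 4782388) (nat_lit 2619086) (nat_lit 1) .nil)), (nat_lit 70),
 (nat_lit 68), (nat_lit 61), (nat_lit 1), (1, 21, 33), [1492149, 2373754], 16⟩,
  ⟨⟨33, 8, -53, -20, -27, -20, 30, -24, -13⟩, (.cons (nat_lit 791007) (nat_lit 726738) (nat_lit 1258269)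
 (nat_lit 1) (.cons (nat_lit 2289624) (nat_lit 4595428) (nat_lit 652058) (nat_lit 1) .nil)), (nat_lit 7),
 (nat_lit 64), (nat_lit 45), (nat_lit 1), (32, 21, 33), [983244, 4670912], 70⟩,
  ⟨⟨33, 8, -53, -20, -27, -20, 30, -24, -13⟩, (.cons (nat_lit 791007) (nat_lit 726738) (nat_lit 1258269)
 (nat_lit 1) (.cons (nat_lit 2289624) (nat_lit 4595428) (nat_lit 652058) (nat_lit 1) .nil)), (nat_lit 7),
 (nat_lit 64), (nat_lit 45), (nat_lit 1), (32, 21, 33), [983244, 4670912], 70⟩,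
  ⟨⟨33, 8, -53, -20, -27, -20, 30, -24, -13⟩, (.cons (nat_lit 791007) (nat_lit 726738) (nat_lit 1258269)
 (nat_lit 1) (.cons (nat_lit 2289624) (nat_lit 4595428) (nat_lit 652058) (nat_lit 1) .nil)), (nat_lit 7),
 (nat_lit 64), (nat_lit 45), (nat_lit 1), (32, 21, 33), [983244, 4670912], 70⟩,
  ⟨⟨33, 8, -53, -20, -27, -20, 30, -24, -13⟩, (.cons (nat_lit 791007) (nat_lit 726738) (nat_lit 1258269)
 (nat_lit 1) (.cons (nat_lit 2289624) (nat_lit 4595428) (nat_lit 652058) (nat_lit 1) .nil)), (nat_lit 7),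
 (nat_lit 64), (nat_lit 45), (nat_lit 1), (32, 21, 33), [983244, 4670912], 70⟩,
  ⟨⟨33, 8, -53, -20, -27, -20, 30, -24, -13⟩, (.cons (nat_lit 791007) (nat_lit 726738) (nat_lit 1258269)
 (nat_lit 1) (.cons (nat_lit 2289624) (nat_lit 4595428) (nat_lit 652058) (nat_lit 1) .nil)), (nat_lit 7),
 (nat_lit 64), (nat_lit 45), (nat_lit 1), (32, 21, 33), [983244, 4670912], 70⟩,
  ⟨⟨33, 8, -53, -20, -27, -20, 30, -24, -13⟩, (.cons (nat_lit 791007) (nat_lit 726738) (nat_lit 1258269)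
 (nat_lit 1) (.cons (nat_lit 2289624) (nat_lit 4595428) (nat_lit 652058) (nat_lit 1) .nil)), (nat_lit 7),
 (nat_lit 64), (nat_lit 45), (nat_lit 1), (32, 21, 33), [983244, 4670912], 70⟩,
  ⟨⟨-3, -32, 40, 20, 27, 20, 30, -24, -13⟩, (.cons (nat_lit 2748256) (nat_lit 2951304) (nat_lit 478233)
 (nat_lit 1) (.cons (nat_lit 5093082) (nat_lit 2521799) (nat_lit 6955839) (nat_lit 1) .nil)), (nat_lit 42),
 (nat_lit 53), (nat_lit 70), (nat_lit 1), (1, 22, 33), [669139, 5414753], 33⟩,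
  ⟨⟨33, 8, -53, -20, -27, -20, 30, -24, -13⟩, (.cons (nat_lit 791007) (nat_lit 726738) (nat_lit 1258269)
 (nat_lit 1) (.cons (nat_lit 2289624) (nat_lit 4595428) (nat_lit 652058) (nat_lit 1) .nil)), (nat_lit 7),
 (nat_lit 64), (nat_lit 45), (nat_lit 1), (32, 21, 33), [983244, 4670912], 70⟩,
  ⟨⟨-3, -32, 40, -20, -27, -20, 30, -24, -13⟩, (.cons (nat_lit 1496593) (nat_lit 997820) (nat_lit 3144206)
 (nat_lit 1) (.cons (nat_lit 7890480) (nat_lit 4782388) (nat_lit 2619086) (nat_lit 1) .nil)), (nat_lit 70),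
 (nat_lit 68), (nat_lit 61), (nat_lit 1), (1, 21, 33), [1492149, 2373754], 16⟩,
  ⟨⟨-3, -32, 40, -20, -27, -20, 30, -24, -13⟩, (.cons (nat_lit 1496593) (nat_lit 997820) (nat_lit 3144206)
 (nat_lit 1) (.cons (nat_lit 7890480) (nat_lit 4782388) (nat_lit 2619086) (nat_lit 1) .nil)), (nat_lit 70),
 (nat_lit 68), (nat_lit 61), (nat_lit 1), (1, 21, 33), [1492149, 2373754], 16⟩,
  ⟨⟨33, 8, -53, -20, -27, -20, 30, -24, -13⟩, (.cons (nat_lit 791007) (nat_lit 726738) (nat_lit 1258269)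
 (nat_lit 1) (.cons (nat_lit 2289624) (nat_lit 4595428) (nat_lit 652058) (nat_lit 1) .nil)), (nat_lit 7),
 (nat_lit 64), (nat_lit 45), (nat_lit 1), (32, 21, 33), [983244, 4670912], 70⟩,
  ⟨⟨33, 8, -53, -20, -27, -20, 30, -24, -13⟩, (.cons (nat_lit 791007) (nat_lit 726738) (nat_lit 1258269)
 (nat_lit 1) (.cons (nat_lit 2289624) (nat_lit 4595428) (nat_lit 652058) (nat_lit 1) .nil)), (nat_lit 7),
 (nat_lit 64), (nat_lit 45), (nat_lit 1), (32, 21, 33), [983244, 4670912], 70⟩,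
  ⟨⟨33, 8, -53, -20, -27, -20, 30, -24, -13⟩, (.cons (nat_lit 791007) (nat_lit 726738) (nat_lit 1258269)
 (nat_lit 1) (.cons (nat_lit 2289624) (nat_lit 4595428) (nat_lit 652058) (nat_lit 1) .nil)), (nat_lit 7),
 (nat_lit 64), (nat_lit 45), (nat_lit 1), (32, 21, 33), [983244, 4670912], 70⟩,
  ⟨⟨33, 8, -53, 20, 27, 20, 30, -24, -13⟩, (.cons (nat_lit 1860441) (nat_lit 2696660) (nat_lit 1250384)
 (nat_lit 1) (.cons (nat_lit 7397297) (nat_lit 7335014) (nat_lit 480358) (nat_lit 1) .nil)), (nat_lit 65),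
 (nat_lit 29), (nat_lit 24), (nat_lit 1), (32, 22, 33), [2205271, 1591049], 60⟩,
  ⟨⟨-3, -32, 40, -20, -27, -20, 30, -24, -13⟩, (.cons (nat_lit 1496593) (nat_lit 997820) (nat_lit 3144206)
 (nat_lit 1) (.cons (nat_lit 7890480) (nat_lit 4782388) (nat_lit 2619086) (nat_lit 1) .nil)), (nat_lit 70),
 (nat_lit 68), (nat_lit 61), (nat_lit 1), (1, 21, 33), [1492149, 2373754], 16⟩,
  ⟨⟨33, 8, -53, -20, -27, -20, 30, -24, -13⟩, (.cons (nat_lit 791007) (nat_lit 726738) (nat_lit 1258269)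
 (nat_lit 1) (.cons (nat_lit 2289624) (nat_lit 4595428) (nat_lit 652058) (nat_lit 1) .nil)), (nat_lit 7),
 (nat_lit 64), (nat_lit 45), (nat_lit 1), (32, 21, 33), [983244, 4670912], 70⟩,
  ⟨⟨33, 8, -53, -20, -27, -20, 30, -24, -13⟩, (.cons (nat_lit 791007) (nat_lit 726738) (nat_lit 1258269)
 (nat_lit 1) (.cons (nat_lit 2289624) (nat_lit 4595428) (nat_lit 652058) (nat_lit 1) .nil)), (nat_lit 7),
 (nat_lit 64), (nat_lit 45), (nat_lit 1), (32, 21, 33), [983244, 4670912], 70⟩,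
  ⟨⟨33, 8, -53, -20, -27, -20, 30, -24, -13⟩, (.cons (nat_lit 791007) (nat_lit 726738) (nat_lit 1258269)
 (nat_lit 1) (.cons (nat_lit 2289624) (nat_lit 4595428) (nat_lit 652058) (nat_lit 1) .nil)), (nat_lit 7),
 (nat_lit 64), (nat_lit 45), (nat_lit 1), (32, 21, 33), [983244, 4670912], 70⟩,
  ⟨⟨-3, -32, 40, -20, -27, -20, 30, -24, -13⟩, (.cons (nat_lit 1496593) (nat_lit 997820) (nat_lit 3144206)
 (nat_lit 1) (.cons (nat_lit 7890480) (nat_lit 4782388) (nat_lit 2619086) (nat_lit 1) .nil)), (nat_lit 70),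
 (nat_lit 68), (nat_lit 61), (nat_lit 1), (1, 21, 33), [1492149, 2373754], 16⟩,
  ⟨⟨33, 8, -53, -20, -27, -20, 30, -24, -13⟩, (.cons (nat_lit 791007) (nat_lit 726738) (nat_lit 1258269)
 (nat_lit 1) (.cons (nat_lit 2289624) (nat_lit 4595428) (nat_lit 652058) (nat_lit 1) .nil)), (nat_lit 7),
 (nat_lit 64), (nat_lit 45), (nat_lit 1), (32, 21, 33), [983244, 4670912], 70⟩,
  ⟨⟨33, 8, -53, 20, 27, 20, 30, -24, -13⟩, (.cons (nat_lit 1860441) (nat_lit 2696660) (nat_lit 1250384)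
 (nat_lit 1) (.cons (nat_lit 7397297) (nat_lit 7335014) (nat_lit 480358) (nat_lit 1) .nil)), (nat_lit 65),
 (nat_lit 29), (nat_lit 24), (nat_lit 1), (32, 22, 33), [2205271, 1591049], 60⟩,
  ⟨⟨33, 8, -53, -20, -27, -20, 30, -24, -13⟩, (.cons (nat_lit 791007) (nat_lit 726738) (nat_lit 1258269)
 (nat_lit 1) (.cons (nat_lit 2289624) (nat_lit 4595428) (nat_lit 652058) (nat_lit 1) .nil)), (nat_lit 7),
 (nat_lit 64), (nat_lit 45), (nat_lit 1), (32, 21, 33), [983244, 4670912], 70⟩,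
  ⟨⟨33, 8, -53, 20, 27, 20, 30, -24, -13⟩, (.cons (nat_lit 1860441) (nat_lit 2696660) (nat_lit 1250384)
 (nat_lit 1) (.cons (nat_lit 7397297) (nat_lit 7335014) (nat_lit 480358) (nat_lit 1) .nil)), (nat_lit 65),
 (nat_lit 29), (nat_lit 24), (nat_lit 1), (32, 22, 33), [2205271, 1591049], 60⟩]

/-- Moves. -/
noncomputable def t0_9 : List Mv := [
  ⟨⟨-29, 0, -27, 0, -43, 0, 18, 0, -47⟩, (.cons (nat_lit 1293439) (nat_lit 2522280) (nat_lit 1454843) (nat_lit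
 1) (.cons (nat_lit 4983846) (nat_lit 6691615) (nat_lit 1498061) (nat_lit 1) .nil)), (nat_lit 54), (nat_lit
 31), (nat_lit 33), (nat_lit 1), (33, 0, 24), [1337266, 6693922], 61⟩,
  ⟨⟨47, 0, -20, 0, 43, 0, 18, 0, -47⟩, (.cons (nat_lit 13002) (nat_lit 3183993) (nat_lit 761183) (nat_lit 1)
 (.cons (nat_lit 7890480) (nat_lit 7706932) (nat_lit 6904550) (nat_lit 1) .nil)), (nat_lit 70), (nat_lit 43),
 (nat_lit 59), (nat_lit 1), (34, 0, 24), [3045414, 5111884], 7⟩,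
  ⟨⟨47, 0, -20, 0, -43, 0, 18, 0, -47⟩, (.cons (nat_lit 1456282) (nat_lit 73458) (nat_lit 1681281) (nat_lit 1)
 (.cons (nat_lit 7890480) (nat_lit 2483962) (nat_lit 3096503) (nat_lit 1) .nil)), (nat_lit 70), (nat_lit 62),
 (nat_lit 9), (nat_lit 1), (34, 0, 24), [2102709, 5870414], 32⟩,
  ⟨⟨-29, 0, -27, 0, -43, 0, 18, 0, -47⟩, (.cons (nat_lit 1293439) (nat_lit 2522280) (nat_lit 1454843) (nat_lit
 1) (.cons (nat_lit 4983846) (nat_lit 6691615) (nat_lit 1498061) (nat_lit 1) .nil)), (nat_lit 54), (nat_lit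
 31), (nat_lit 33), (nat_lit 1), (33, 0, 24), [1337266, 6693922], 61⟩,
  ⟨⟨-29, 0, -27, 0, -43, 0, 18, 0, -47⟩, (.cons (nat_lit 1293439) (nat_lit 2522280) (nat_lit 1454843) (nat_lit
 1) (.cons (nat_lit 4983846) (nat_lit 6691615) (nat_lit 1498061) (nat_lit 1) .nil)), (nat_lit 54), (nat_lit
 31), (nat_lit 33), (nat_lit 1), (33, 0, 24), [1337266, 6693922], 61⟩,
  ⟨⟨-29, 0, -27, 0, -43, 0, 18, 0, -47⟩, (.cons (nat_lit 1293439) (nat_lit 2522280) (nat_lit 1454843) (nat_lit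
 1) (.cons (nat_lit 4983846) (nat_lit 6691615) (nat_lit 1498061) (nat_lit 1) .nil)), (nat_lit 54), (nat_lit
 31), (nat_lit 33), (nat_lit 1), (33, 0, 24), [1337266, 6693922], 61⟩,
  ⟨⟨-29, 0, -27, 0, 43, 0, 18, 0, -47⟩, (.cons (nat_lit 792474) (nat_lit 1111492) (nat_lit 2527107) (nat_lit 1)
 (.cons (nat_lit 6976535) (nat_lit 1340096) (nat_lit 2422548) (nat_lit 1) .nil)), (nat_lit 16), (nat_lit 57),
 (nat_lit 8), (nat_lit 1), (33, 0, 24), [1130022, 6175395], 37⟩,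
  ⟨⟨-29, 0, -27, 0, -43, 0, 18, 0, -47⟩, (.cons (nat_lit 1293439) (nat_lit 2522280) (nat_lit 1454843) (nat_lit
 1) (.cons (nat_lit 4983846) (nat_lit 6691615) (nat_lit 1498061) (nat_lit 1) .nil)), (nat_lit 54), (nat_lit
 31), (nat_lit 33), (nat_lit 1), (33, 0, 24), [1337266, 6693922], 61⟩,
  ⟨⟨-29, 0, -27, 0, -43, 0, 18, 0, -47⟩, (.cons (nat_lit 1293439) (nat_lit 2522280) (nat_lit 1454843) (nat_lit
 1) (.cons (nat_lit 4983846) (nat_lit 6691615) (nat_lit 1498061) (nat_lit 1) .nil)), (nat_lit 54), (nat_lit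
 31), (nat_lit 33), (nat_lit 1), (33, 0, 24), [1337266, 6693922], 61⟩,
  ⟨⟨-29, 0, -27, 0, -43, 0, 18, 0, -47⟩, (.cons (nat_lit 1293439) (nat_lit 2522280) (nat_lit 1454843) (nat_lit
 1) (.cons (nat_lit 4983846) (nat_lit 6691615) (nat_lit 1498061) (nat_lit 1) .nil)), (nat_lit 54), (nat_lit
 31), (nat_lit 33), (nat_lit 1), (33, 0, 24), [1337266, 6693922], 61⟩,
  ⟨⟨-29, 0, -27, 0, -43, 0, 18, 0, -47⟩, (.cons (nat_lit 1293439) (nat_lit 2522280) (nat_lit 1454843) (nat_lit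
 1) (.cons (nat_lit 4983846) (nat_lit 6691615) (nat_lit 1498061) (nat_lit 1) .nil)), (nat_lit 54), (nat_lit
 31), (nat_lit 33), (nat_lit 1), (33, 0, 24), [1337266, 6693922], 61⟩,
  ⟨⟨-29, 0, -27, 0, 43, 0, 18, 0, -47⟩, (.cons (nat_lit 792474) (nat_lit 1111492) (nat_lit 2527107) (nat_lit 1)
 (.cons (nat_lit 6976535) (nat_lit 1340096) (nat_lit 2422548) (nat_lit 1) .nil)), (nat_lit 16), (nat_lit 57),
 (nat_lit 8), (nat_lit 1), (33, 0, 24), [1130022, 6175395], 37⟩,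
  ⟨⟨-29, 0, -27, 0, 43, 0, 18, 0, -47⟩, (.cons (nat_lit 792474) (nat_lit 1111492) (nat_lit 2527107) (nat_lit 1)
 (.cons (nat_lit 6976535) (nat_lit 1340096) (nat_lit 2422548) (nat_lit 1) .nil)), (nat_lit 16), (nat_lit 57),
 (nat_lit 8), (nat_lit 1), (33, 0, 24), [1130022, 6175395], 37⟩,
  ⟨⟨-29, 0, -27, 0, 43, 0, 18, 0, -47⟩, (.cons (nat_lit 792474) (nat_lit 1111492) (nat_lit 2527107) (nat_lit 1)
 (.cons (nat_lit 6976535) (nat_lit 1340096) (nat_lit 2422548) (nat_lit 1) .nil)), (nat_lit 16), (nat_lit 57),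
 (nat_lit 8), (nat_lit 1), (33, 0, 24), [1130022, 6175395], 37⟩,
  ⟨⟨-29, 0, -27, 0, -43, 0, 18, 0, -47⟩, (.cons (nat_lit 1293439) (nat_lit 2522280) (nat_lit 1454843) (nat_lit
 1) (.cons (nat_lit 4983846) (nat_lit 6691615) (nat_lit 1498061) (nat_lit 1) .nil)), (nat_lit 54), (nat_lit
 31), (nat_lit 33), (nat_lit 1), (33, 0, 24), [1337266, 6693922], 61⟩,
  ⟨⟨-29, 0, -27, 0, -43, 0, 18, 0, -47⟩, (.cons (nat_lit 1293439) (nat_lit 2522280) (nat_lit 1454843) (nat_lit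
 1) (.cons (nat_lit 4983846) (nat_lit 6691615) (nat_lit 1498061) (nat_lit 1) .nil)), (nat_lit 54), (nat_lit
 31), (nat_lit 33), (nat_lit 1), (33, 0, 24), [1337266, 6693922], 61⟩,
  ⟨⟨-29, 0, -27, 0, -43, 0, 18, 0, -47⟩, (.cons (nat_lit 1293439) (nat_lit 2522280) (nat_lit 1454843) (nat_lit
 1) (.cons (nat_lit 4983846) (nat_lit 6691615) (nat_lit 1498061) (nat_lit 1) .nil)), (nat_lit 54), (nat_lit
 31), (nat_lit 33), (nat_lit 1), (33, 0, 24), [1337266, 6693922], 61⟩,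
  ⟨⟨-29, 0, -27, 0, -43, 0, 18, 0, -47⟩, (.cons (nat_lit 1293439) (nat_lit 2522280) (nat_lit 1454843) (nat_lit
 1) (.cons (nat_lit 4983846) (nat_lit 6691615) (nat_lit 1498061) (nat_lit 1) .nil)), (nat_lit 54), (nat_lit
 31), (nat_lit 33), (nat_lit 1), (33, 0, 24), [1337266, 6693922], 61⟩,
  ⟨⟨47, 0, -20, 0, 43, 0, 18, 0, -47⟩, (.cons (nat_lit 13002) (nat_lit 3183993) (nat_lit 761183) (nat_lit 1)
 (.cons (nat_lit 7890480) (nat_lit 7706932) (nat_lit 6904550) (nat_lit 1) .nil)), (nat_lit 70), (nat_lit 43),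
 (nat_lit 59), (nat_lit 1), (34, 0, 24), [3045414, 5111884], 7⟩,
  ⟨⟨47, 0, -20, 0, -43, 0, 18, 0, -47⟩, (.cons (nat_lit 1456282) (nat_lit 73458) (nat_lit 1681281) (nat_lit 1)
 (.cons (nat_lit 7890480) (nat_lit 2483962) (nat_lit 3096503) (nat_lit 1) .nil)), (nat_lit 70), (nat_lit 62),
 (nat_lit 9), (nat_lit 1), (34, 0, 24), [2102709, 5870414], 32⟩,
  ⟨⟨-29, 0, -27, 0, -43, 0, 18, 0, -47⟩, (.cons (nat_lit 1293439) (nat_lit 2522280) (nat_lit 1454843) (nat_lit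
 1) (.cons (nat_lit 4983846) (nat_lit 6691615) (nat_lit 1498061) (nat_lit 1) .nil)), (nat_lit 54), (nat_lit
 31), (nat_lit 33), (nat_lit 1), (33, 0, 24), [1337266, 6693922], 61⟩,
  ⟨⟨-29, 0, -27, 0, -43, 0, 18, 0, -47⟩, (.cons (nat_lit 1293439) (nat_lit 2522280) (nat_lit 1454843) (nat_lit
 1) (.cons (nat_lit 4983846) (nat_lit 6691615) (nat_lit 1498061) (nat_lit 1) .nil)), (nat_lit 54), (nat_lit
 31), (nat_lit 33), (nat_lit 1), (33, 0, 24), [1337266, 6693922], 61⟩,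
  ⟨⟨-29, 0, -27, 0, -43, 0, 18, 0, -47⟩, (.cons (nat_lit 1293439) (nat_lit 2522280) (nat_lit 1454843) (nat_lit
 1) (.cons (nat_lit 4983846) (nat_lit 6691615) (nat_lit 1498061) (nat_lit 1) .nil)), (nat_lit 54), (nat_lit
 31), (nat_lit 33), (nat_lit 1), (33, 0, 24), [1337266, 6693922], 61⟩,
  ⟨⟨47, 0, -20, 0, -43, 0, 18, 0, -47⟩, (.cons (nat_lit 1456282) (nat_lit 73458) (nat_lit 1681281) (nat_lit 1)
 (.cons (nat_lit 7890480) (nat_lit 2483962) (nat_lit 3096503) (nat_lit 1) .nil)), (nat_lit 70), (nat_lit 62),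
 (nat_lit 9), (nat_lit 1), (34, 0, 24), [2102709, 5870414], 32⟩,
  ⟨⟨-29, 0, -27, 0, -43, 0, 18, 0, -47⟩, (.cons (nat_lit 1293439) (nat_lit 2522280) (nat_lit 1454843) (nat_lit
 1) (.cons (nat_lit 4983846) (nat_lit 6691615) (nat_lit 1498061) (nat_lit 1) .nil)), (nat_lit 54), (nat_lit
 31), (nat_lit 33), (nat_lit 1), (33, 0, 24), [1337266, 6693922], 61⟩,
  ⟨⟨47, 0, -20, 0, -43, 0, 18, 0, -47⟩, (.cons (nat_lit 1456282) (nat_lit 73458) (nat_lit 1681281) (nat_lit 1)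
 (.cons (nat_lit 7890480) (nat_lit 2483962) (nat_lit 3096503) (nat_lit 1) .nil)), (nat_lit 70), (nat_lit 62),
 (nat_lit 9), (nat_lit 1), (34, 0, 24), [2102709, 5870414], 32⟩,
  ⟨⟨-29, 0, -27, 0, -43, 0, 18, 0, -47⟩, (.cons (nat_lit 1293439) (nat_lit 2522280) (nat_lit 1454843) (nat_lit
 1) (.cons (nat_lit 4983846) (nat_lit 6691615) (nat_lit 1498061) (nat_lit 1) .nil)), (nat_lit 54), (nat_lit
 31), (nat_lit 33), (nat_lit 1), (33, 0, 24), [1337266, 6693922], 61⟩,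
  ⟨⟨47, 0, -20, 0, 43, 0, 18, 0, -47⟩, (.cons (nat_lit 13002) (nat_lit 3183993) (nat_lit 761183) (nat_lit 1)
 (.cons (nat_lit 7890480) (nat_lit 7706932) (nat_lit 6904550) (nat_lit 1) .nil)), (nat_lit 70), (nat_lit 43),
 (nat_lit 59), (nat_lit 1), (34, 0, 24), [3045414, 5111884], 7⟩,
  ⟨⟨-29, 0, -27, 0, -43, 0, 18, 0, -47⟩, (.cons (nat_lit 1293439) (nat_lit 2522280) (nat_lit 1454843) (nat_lit
 1) (.cons (nat_lit 4983846) (nat_lit 6691615) (nat_lit 1498061) (nat_lit 1) .nil)), (nat_lit 54), (nat_lit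
 31), (nat_lit 33), (nat_lit 1), (33, 0, 24), [1337266, 6693922], 61⟩,
  ⟨⟨-29, 0, -27, 0, -43, 0, 18, 0, -47⟩, (.cons (nat_lit 1293439) (nat_lit 2522280) (nat_lit 1454843) (nat_lit
 1) (.cons (nat_lit 4983846) (nat_lit 6691615) (nat_lit 1498061) (nat_lit 1) .nil)), (nat_lit 54), (nat_lit
 31), (nat_lit 33), (nat_lit 1), (33, 0, 24), [1337266, 6693922], 61⟩,
  ⟨⟨47, 0, -20, 0, 43, 0, 18, 0, -47⟩, (.cons (nat_lit 13002) (nat_lit 3183993) (nat_lit 761183) (nat_lit 1)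
 (.cons (nat_lit 7890480) (nat_lit 7706932) (nat_lit 6904550) (nat_lit 1) .nil)), (nat_lit 70), (nat_lit 43),
 (nat_lit 59), (nat_lit 1), (34, 0, 24), [3045414, 5111884], 7⟩,
  ⟨⟨-29, 0, -27, 0, -43, 0, 18, 0, -47⟩, (.cons (nat_lit 1293439) (nat_lit 2522280) (nat_lit 1454843) (nat_lit
 1) (.cons (nat_lit 4983846) (nat_lit 6691615) (nat_lit 1498061) (nat_lit 1) .nil)), (nat_lit 54), (nat_lit
 31), (nat_lit 33), (nat_lit 1), (33, 0, 24), [1337266, 6693922], 61⟩,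
  ⟨⟨-29, 0, -27, 0, 43, 0, 18, 0, -47⟩, (.cons (nat_lit 792474) (nat_lit 1111492) (nat_lit 2527107) (nat_lit 1)
 (.cons (nat_lit 6976535) (nat_lit 1340096) (nat_lit 2422548) (nat_lit 1) .nil)), (nat_lit 16), (nat_lit 57),
 (nat_lit 8), (nat_lit 1), (33, 0, 24), [1130022, 6175395], 37⟩,
  ⟨⟨47, 0, -20, 0, -43, 0, 18, 0, -47⟩, (.cons (nat_lit 1456282) (nat_lit 73458) (nat_lit 1681281) (nat_lit 1)
 (.cons (nat_lit 7890480) (nat_lit 2483962) (nat_lit 3096503) (nat_lit 1) .nil)), (nat_lit 70), (nat_lit 62),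
 (nat_lit 9), (nat_lit 1), (34, 0, 24), [2102709, 5870414], 32⟩,
  ⟨⟨-29, 0, -27, 0, -43, 0, 18, 0, -47⟩, (.cons (nat_lit 1293439) (nat_lit 2522280) (nat_lit 1454843) (nat_lit
 1) (.cons (nat_lit 4983846) (nat_lit 6691615) (nat_lit 1498061) (nat_lit 1) .nil)), (nat_lit 54), (nat_lit
 31), (nat_lit 33), (nat_lit 1), (33, 0, 24), [1337266, 6693922], 61⟩,
  ⟨⟨-29, 0, -27, 0, -43, 0, 18, 0, -47⟩, (.cons (nat_lit 1293439) (nat_lit 2522280) (nat_lit 1454843) (nat_lit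
 1) (.cons (nat_lit 4983846) (nat_lit 6691615) (nat_lit 1498061) (nat_lit 1) .nil)), (nat_lit 54), (nat_lit
 31), (nat_lit 33), (nat_lit 1), (33, 0, 24), [1337266, 6693922], 61⟩,
  ⟨⟨47, 0, -20, 0, -43, 0, 18, 0, -47⟩, (.cons (nat_lit 1456282) (nat_lit 73458) (nat_lit 1681281) (nat_lit 1)
 (.cons (nat_lit 7890480) (nat_lit 2483962) (nat_lit 3096503) (nat_lit 1) .nil)), (nat_lit 70), (nat_lit 62),
 (nat_lit 9), (nat_lit 1), (34, 0, 24), [2102709, 5870414], 32⟩,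
  ⟨⟨-29, 0, -27, 0, -43, 0, 18, 0, -47⟩, (.cons (nat_lit 1293439) (nat_lit 2522280) (nat_lit 1454843) (nat_lit
 1) (.cons (nat_lit 4983846) (nat_lit 6691615) (nat_lit 1498061) (nat_lit 1) .nil)), (nat_lit 54), (nat_lit
 31), (nat_lit 33), (nat_lit 1), (33, 0, 24), [1337266, 6693922], 61⟩,
  ⟨⟨47, 0, -20, 0, 43, 0, 18, 0, -47⟩, (.cons (nat_lit 13002) (nat_lit 3183993) (nat_lit 761183) (nat_lit 1)
 (.cons (nat_lit 7890480) (nat_lit 7706932) (nat_lit 6904550) (nat_lit 1) .nil)), (nat_lit 70), (nat_lit 43),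
 (nat_lit 59), (nat_lit 1), (34, 0, 24), [3045414, 5111884], 7⟩,
  ⟨⟨-29, 0, -27, 0, 43, 0, 18, 0, -47⟩, (.cons (nat_lit 792474) (nat_lit 1111492) (nat_lit 2527107) (nat_lit 1)
 (.cons (nat_lit 6976535) (nat_lit 1340096) (nat_lit 2422548) (nat_lit 1) .nil)), (nat_lit 16), (nat_lit 57),
 (nat_lit 8), (nat_lit 1), (33, 0, 24), [1130022, 6175395], 37⟩,
  ⟨⟨47, 0, -20, 0, 43, 0, 18, 0, -47⟩, (.cons (nat_lit 13002) (nat_lit 3183993) (nat_lit 761183) (nat_lit 1)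
 (.cons (nat_lit 7890480) (nat_lit 7706932) (nat_lit 6904550) (nat_lit 1) .nil)), (nat_lit 70), (nat_lit 43),
 (nat_lit 59), (nat_lit 1), (34, 0, 24), [3045414, 5111884], 7⟩,
  ⟨⟨-29, 0, -27, 0, -43, 0, 18, 0, -47⟩, (.cons (nat_lit 1293439) (nat_lit 2522280) (nat_lit 1454843) (nat_lit
 1) (.cons (nat_lit 4983846) (nat_lit 6691615) (nat_lit 1498061) (nat_lit 1) .nil)), (nat_lit 54), (nat_lit
 31), (nat_lit 33), (nat_lit 1), (33, 0, 24), [1337266, 6693922], 61⟩,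
  ⟨⟨-29, 0, -27, 0, -43, 0, 18, 0, -47⟩, (.cons (nat_lit 1293439) (nat_lit 2522280) (nat_lit 1454843) (nat_lit
 1) (.cons (nat_lit 4983846) (nat_lit 6691615) (nat_lit 1498061) (nat_lit 1) .nil)), (nat_lit 54), (nat_lit
 31), (nat_lit 33), (nat_lit 1), (33, 0, 24), [1337266, 6693922], 61⟩]

/-- Moves. -/
noncomputable def t0_10 : List Mv := [
  ⟨⟨21, -20, 31, 38, 15, -34, 12, -36, -13⟩, (.cons (nat_lit 2902922) (nat_lit 2287061) (nat_lit 2361854)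
 (nat_lit 1) (.cons (nat_lit 3471581) (nat_lit 7417436) (nat_lit 7349314) (nat_lit 1) .nil)), (nat_lit 41),
 (nat_lit 38), (nat_lit 50), (nat_lit 1), (8, 37, 23), [2525774, 6959783], 62⟩,
  ⟨⟨21, -20, 31, 38, 15, -34, 12, -36, -13⟩, (.cons (nat_lit 2902922) (nat_lit 2287061) (nat_lit 2361854)
 (nat_lit 1) (.cons (nat_lit 3471581) (nat_lit 7417436) (nat_lit 7349314) (nat_lit 1) .nil)), (nat_lit 41),
 (nat_lit 38), (nat_lit 50), (nat_lit 1), (8, 37, 23), [2525774, 6959783], 62⟩,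
  ⟨⟨21, -20, 31, 38, 15, -34, 12, -36, -13⟩, (.cons (nat_lit 2902922) (nat_lit 2287061) (nat_lit 2361854)
 (nat_lit 1) (.cons (nat_lit 3471581) (nat_lit 7417436) (nat_lit 7349314) (nat_lit 1) .nil)), (nat_lit 41),
 (nat_lit 38), (nat_lit 50), (nat_lit 1), (8, 37, 23), [2525774, 6959783], 62⟩,
  ⟨⟨-9, -16, -44, 38, 15, -34, 12, -36, -13⟩, (.cons (nat_lit 53027) (nat_lit 1582251) (nat_lit 1131366)
 (nat_lit 1) (.cons (nat_lit 6154158) (nat_lit 4122060) (nat_lit 1109769) (nat_lit 1) .nil)), (nat_lit 35),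
 (nat_lit 70), (nat_lit 22), (nat_lit 1), (15, 37, 23), [3203368, 5577744], 37⟩,
  ⟨⟨21, -20, 31, 38, 15, -34, 12, -36, -13⟩, (.cons (nat_lit 2902922) (nat_lit 2287061) (nat_lit 2361854)
 (nat_lit 1) (.cons (nat_lit 3471581) (nat_lit 7417436) (nat_lit 7349314) (nat_lit 1) .nil)), (nat_lit 41),
 (nat_lit 38), (nat_lit 50), (nat_lit 1), (8, 37, 23), [2525774, 6959783], 62⟩,
  ⟨⟨-9, -16, -44, 38, 15, -34, 12, -36, -13⟩, (.cons (nat_lit 53027) (nat_lit 1582251) (nat_lit 1131366)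
 (nat_lit 1) (.cons (nat_lit 6154158) (nat_lit 4122060) (nat_lit 1109769) (nat_lit 1) .nil)), (nat_lit 35),
 (nat_lit 70), (nat_lit 22), (nat_lit 1), (15, 37, 23), [3203368, 5577744], 37⟩,
  ⟨⟨21, -20, 31, 38, 15, -34, 12, -36, -13⟩, (.cons (nat_lit 2902922) (nat_lit 2287061) (nat_lit 2361854)
 (nat_lit 1) (.cons (nat_lit 3471581) (nat_lit 7417436) (nat_lit 7349314) (nat_lit 1) .nil)), (nat_lit 41),
 (nat_lit 38), (nat_lit 50), (nat_lit 1), (8, 37, 23), [2525774, 6959783], 62⟩,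
  ⟨⟨-9, -16, -44, 38, 15, -34, 12, -36, -13⟩, (.cons (nat_lit 53027) (nat_lit 1582251) (nat_lit 1131366)
 (nat_lit 1) (.cons (nat_lit 6154158) (nat_lit 4122060) (nat_lit 1109769) (nat_lit 1) .nil)), (nat_lit 35),
 (nat_lit 70), (nat_lit 22), (nat_lit 1), (15, 37, 23), [3203368, 5577744], 37⟩,
  ⟨⟨-9, -16, -44, -38, -15, 34, 12, -36, -13⟩, (.cons (nat_lit 2227366) (nat_lit 155714) (nat_lit 3120114)
 (nat_lit 1) (.cons (nat_lit 4724160) (nat_lit 4615714) (nat_lit 4318004) (nat_lit 1) .nil)), (nat_lit 35),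
 (nat_lit 22), (nat_lit 59), (nat_lit 1), (15, 6, 23), [812721, 3936159], 65⟩,
  ⟨⟨-9, -16, -44, -38, -15, 34, 12, -36, -13⟩, (.cons (nat_lit 2227366) (nat_lit 155714) (nat_lit 3120114)
 (nat_lit 1) (.cons (nat_lit 4724160) (nat_lit 4615714) (nat_lit 4318004) (nat_lit 1) .nil)), (nat_lit 35),
 (nat_lit 22), (nat_lit 59), (nat_lit 1), (15, 6, 23), [812721, 3936159], 65⟩,
  ⟨⟨-9, -16, -44, 38, 15, -34, 12, -36, -13⟩, (.cons (nat_lit 53027) (nat_lit 1582251) (nat_lit 1131366)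
 (nat_lit 1) (.cons (nat_lit 6154158) (nat_lit 4122060) (nat_lit 1109769) (nat_lit 1) .nil)), (nat_lit 35),
 (nat_lit 70), (nat_lit 22), (nat_lit 1), (15, 37, 23), [3203368, 5577744], 37⟩,
  ⟨⟨21, -20, 31, 38, 15, -34, 12, -36, -13⟩, (.cons (nat_lit 2902922) (nat_lit 2287061) (nat_lit 2361854)
 (nat_lit 1) (.cons (nat_lit 3471581) (nat_lit 7417436) (nat_lit 7349314) (nat_lit 1) .nil)), (nat_lit 41),
 (nat_lit 38), (nat_lit 50), (nat_lit 1), (8, 37, 23), [2525774, 6959783], 62⟩,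
  ⟨⟨21, -20, 31, 38, 15, -34, 12, -36, -13⟩, (.cons (nat_lit 2902922) (nat_lit 2287061) (nat_lit 2361854)
 (nat_lit 1) (.cons (nat_lit 3471581) (nat_lit 7417436) (nat_lit 7349314) (nat_lit 1) .nil)), (nat_lit 41),
 (nat_lit 38), (nat_lit 50), (nat_lit 1), (8, 37, 23), [2525774, 6959783], 62⟩,
  ⟨⟨21, -20, 31, -38, -15, 34, 12, -36, -13⟩, (.cons (nat_lit 3217896) (nat_lit 3139333) (nat_lit 2471889)
 (nat_lit 1) (.cons (nat_lit 3171724) (nat_lit 7592087) (nat_lit 5118174) (nat_lit 1) .nil)), (nat_lit 68),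
 (nat_lit 16), (nat_lit 36), (nat_lit 1), (8, 6, 23), [487684, 6033291], 24⟩,
  ⟨⟨21, -20, 31, 38, 15, -34, 12, -36, -13⟩, (.cons (nat_lit 2902922) (nat_lit 2287061) (nat_lit 2361854)
 (nat_lit 1) (.cons (nat_lit 3471581) (nat_lit 7417436) (nat_lit 7349314) (nat_lit 1) .nil)), (nat_lit 41),
 (nat_lit 38), (nat_lit 50), (nat_lit 1), (8, 37, 23), [2525774, 6959783], 62⟩,
  ⟨⟨-9, -16, -44, 38, 15, -34, 12, -36, -13⟩, (.cons (nat_lit 53027) (nat_lit 1582251) (nat_lit 1131366)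
 (nat_lit 1) (.cons (nat_lit 6154158) (nat_lit 4122060) (nat_lit 1109769) (nat_lit 1) .nil)), (nat_lit 35),
 (nat_lit 70), (nat_lit 22), (nat_lit 1), (15, 37, 23), [3203368, 5577744], 37⟩,
  ⟨⟨-9, -16, -44, 38, 15, -34, 12, -36, -13⟩, (.cons (nat_lit 53027) (nat_lit 1582251) (nat_lit 1131366)
 (nat_lit 1) (.cons (nat_lit 6154158) (nat_lit 4122060) (nat_lit 1109769) (nat_lit 1) .nil)), (nat_lit 35),
 (nat_lit 70), (nat_lit 22), (nat_lit 1), (15, 37, 23), [3203368, 5577744], 37⟩,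
  ⟨⟨21, -20, 31, 38, 15, -34, 12, -36, -13⟩, (.cons (nat_lit 2902922) (nat_lit 2287061) (nat_lit 2361854)
 (nat_lit 1) (.cons (nat_lit 3471581) (nat_lit 7417436) (nat_lit 7349314) (nat_lit 1) .nil)), (nat_lit 41),
 (nat_lit 38), (nat_lit 50), (nat_lit 1), (8, 37, 23), [2525774, 6959783], 62⟩,
  ⟨⟨-9, -16, -44, -38, -15, 34, 12, -36, -13⟩, (.cons (nat_lit 2227366) (nat_lit 155714) (nat_lit 3120114)
 (nat_lit 1) (.cons (nat_lit 4724160) (nat_lit 4615714) (nat_lit 4318004) (nat_lit 1) .nil)), (nat_lit 35),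
 (nat_lit 22), (nat_lit 59), (nat_lit 1), (15, 6, 23), [812721, 3936159], 65⟩,
  ⟨⟨21, -20, 31, 38, 15, -34, 12, -36, -13⟩, (.cons (nat_lit 2902922) (nat_lit 2287061) (nat_lit 2361854)
 (nat_lit 1) (.cons (nat_lit 3471581) (nat_lit 7417436) (nat_lit 7349314) (nat_lit 1) .nil)), (nat_lit 41),
 (nat_lit 38), (nat_lit 50), (nat_lit 1), (8, 37, 23), [2525774, 6959783], 62⟩,
  ⟨⟨21, -20, 31, 38, 15, -34, 12, -36, -13⟩, (.cons (nat_lit 2902922) (nat_lit 2287061) (nat_lit 2361854)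
 (nat_lit 1) (.cons (nat_lit 3471581) (nat_lit 7417436) (nat_lit 7349314) (nat_lit 1) .nil)), (nat_lit 41),
 (nat_lit 38), (nat_lit 50), (nat_lit 1), (8, 37, 23), [2525774, 6959783], 62⟩,
  ⟨⟨-9, -16, -44, 38, 15, -34, 12, -36, -13⟩, (.cons (nat_lit 53027) (nat_lit 1582251) (nat_lit 1131366)
 (nat_lit 1) (.cons (nat_lit 6154158) (nat_lit 4122060) (nat_lit 1109769) (nat_lit 1) .nil)), (nat_lit 35),
 (nat_lit 70), (nat_lit 22), (nat_lit 1), (15, 37, 23), [3203368, 5577744], 37⟩,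
  ⟨⟨21, -20, 31, 38, 15, -34, 12, -36, -13⟩, (.cons (nat_lit 2902922) (nat_lit 2287061) (nat_lit 2361854)
 (nat_lit 1) (.cons (nat_lit 3471581) (nat_lit 7417436) (nat_lit 7349314) (nat_lit 1) .nil)), (nat_lit 41),
 (nat_lit 38), (nat_lit 50), (nat_lit 1), (8, 37, 23), [2525774, 6959783], 62⟩,
  ⟨⟨21, -20, 31, 38, 15, -34, 12, -36, -13⟩, (.cons (nat_lit 2902922) (nat_lit 2287061) (nat_lit 2361854)
 (nat_lit 1) (.cons (nat_lit 3471581) (nat_lit 7417436) (nat_lit 7349314) (nat_lit 1) .nil)), (nat_lit 41),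
 (nat_lit 38), (nat_lit 50), (nat_lit 1), (8, 37, 23), [2525774, 6959783], 62⟩,
  ⟨⟨21, -20, 31, 38, 15, -34, 12, -36, -13⟩, (.cons (nat_lit 2902922) (nat_lit 2287061) (nat_lit 2361854)
 (nat_lit 1) (.cons (nat_lit 3471581) (nat_lit 7417436) (nat_lit 7349314) (nat_lit 1) .nil)), (nat_lit 41),
 (nat_lit 38), (nat_lit 50), (nat_lit 1), (8, 37, 23), [2525774, 6959783], 62⟩,
  ⟨⟨21, -20, 31, 38, 15, -34, 12, -36, -13⟩, (.cons (nat_lit 2902922) (nat_lit 2287061) (nat_lit 2361854)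
 (nat_lit 1) (.cons (nat_lit 3471581) (nat_lit 7417436) (nat_lit 7349314) (nat_lit 1) .nil)), (nat_lit 41),
 (nat_lit 38), (nat_lit 50), (nat_lit 1), (8, 37, 23), [2525774, 6959783], 62⟩,
  ⟨⟨21, -20, 31, 38, 15, -34, 12, -36, -13⟩, (.cons (nat_lit 2902922) (nat_lit 2287061) (nat_lit 2361854)
 (nat_lit 1) (.cons (nat_lit 3471581) (nat_lit 7417436) (nat_lit 7349314) (nat_lit 1) .nil)), (nat_lit 41),
 (nat_lit 38), (nat_lit 50), (nat_lit 1), (8, 37, 23), [2525774, 6959783], 62⟩,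
  ⟨⟨21, -20, 31, 38, 15, -34, 12, -36, -13⟩, (.cons (nat_lit 2902922) (nat_lit 2287061) (nat_lit 2361854)
 (nat_lit 1) (.cons (nat_lit 3471581) (nat_lit 7417436) (nat_lit 7349314) (nat_lit 1) .nil)), (nat_lit 41),
 (nat_lit 38), (nat_lit 50), (nat_lit 1), (8, 37, 23), [2525774, 6959783], 62⟩,
  ⟨⟨21, -20, 31, 38, 15, -34, 12, -36, -13⟩, (.cons (nat_lit 2902922) (nat_lit 2287061) (nat_lit 2361854)
 (nat_lit 1) (.cons (nat_lit 3471581) (nat_lit 7417436) (nat_lit 7349314) (nat_lit 1) .nil)), (nat_lit 41),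
 (nat_lit 38), (nat_lit 50), (nat_lit 1), (8, 37, 23), [2525774, 6959783], 62⟩,
  ⟨⟨21, -20, 31, -38, -15, 34, 12, -36, -13⟩, (.cons (nat_lit 3217896) (nat_lit 3139333) (nat_lit 2471889)
 (nat_lit 1) (.cons (nat_lit 3171724) (nat_lit 7592087) (nat_lit 5118174) (nat_lit 1) .nil)), (nat_lit 68),
 (nat_lit 16), (nat_lit 36), (nat_lit 1), (8, 6, 23), [487684, 6033291], 24⟩,
  ⟨⟨21, -20, 31, -38, -15, 34, 12, -36, -13⟩, (.cons (nat_lit 3217896) (nat_lit 3139333) (nat_lit 2471889)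
 (nat_lit 1) (.cons (nat_lit 3171724) (nat_lit 7592087) (nat_lit 5118174) (nat_lit 1) .nil)), (nat_lit 68),
 (nat_lit 16), (nat_lit 36), (nat_lit 1), (8, 6, 23), [487684, 6033291], 24⟩,
  ⟨⟨-9, -16, -44, -38, -15, 34, 12, -36, -13⟩, (.cons (nat_lit 2227366) (nat_lit 155714) (nat_lit 3120114)
 (nat_lit 1) (.cons (nat_lit 4724160) (nat_lit 4615714) (nat_lit 4318004) (nat_lit 1) .nil)), (nat_lit 35),
 (nat_lit 22), (nat_lit 59), (nat_lit 1), (15, 6, 23), [812721, 3936159], 65⟩,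
  ⟨⟨-9, -16, -44, -38, -15, 34, 12, -36, -13⟩, (.cons (nat_lit 2227366) (nat_lit 155714) (nat_lit 3120114)
 (nat_lit 1) (.cons (nat_lit 4724160) (nat_lit 4615714) (nat_lit 4318004) (nat_lit 1) .nil)), (nat_lit 35),
 (nat_lit 22), (nat_lit 59), (nat_lit 1), (15, 6, 23), [812721, 3936159], 65⟩,
  ⟨⟨-9, -16, -44, -38, -15, 34, 12, -36, -13⟩, (.cons (nat_lit 2227366) (nat_lit 155714) (nat_lit 3120114)
 (nat_lit 1) (.cons (nat_lit 4724160) (nat_lit 4615714) (nat_lit 4318004) (nat_lit 1) .nil)), (nat_lit 35),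
 (nat_lit 22), (nat_lit 59), (nat_lit 1), (15, 6, 23), [812721, 3936159], 65⟩,
  ⟨⟨21, -20, 31, -38, -15, 34, 12, -36, -13⟩, (.cons (nat_lit 3217896) (nat_lit 3139333) (nat_lit 2471889)
 (nat_lit 1) (.cons (nat_lit 3171724) (nat_lit 7592087) (nat_lit 5118174) (nat_lit 1) .nil)), (nat_lit 68),
 (nat_lit 16), (nat_lit 36), (nat_lit 1), (8, 6, 23), [487684, 6033291], 24⟩,
  ⟨⟨21, -20, 31, 38, 15, -34, 12, -36, -13⟩, (.cons (nat_lit 2902922) (nat_lit 2287061) (nat_lit 2361854)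
 (nat_lit 1) (.cons (nat_lit 3471581) (nat_lit 7417436) (nat_lit 7349314) (nat_lit 1) .nil)), (nat_lit 41),
 (nat_lit 38), (nat_lit 50), (nat_lit 1), (8, 37, 23), [2525774, 6959783], 62⟩,
  ⟨⟨21, -20, 31, 38, 15, -34, 12, -36, -13⟩, (.cons (nat_lit 2902922) (nat_lit 2287061) (nat_lit 2361854)
 (nat_lit 1) (.cons (nat_lit 3471581) (nat_lit 7417436) (nat_lit 7349314) (nat_lit 1) .nil)), (nat_lit 41),
 (nat_lit 38), (nat_lit 50), (nat_lit 1), (8, 37, 23), [2525774, 6959783], 62⟩,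
  ⟨⟨21, -20, 31, 38, 15, -34, 12, -36, -13⟩, (.cons (nat_lit 2902922) (nat_lit 2287061) (nat_lit 2361854)
 (nat_lit 1) (.cons (nat_lit 3471581) (nat_lit 7417436) (nat_lit 7349314) (nat_lit 1) .nil)), (nat_lit 41),
 (nat_lit 38), (nat_lit 50), (nat_lit 1), (8, 37, 23), [2525774, 6959783], 62⟩,
  ⟨⟨21, -20, 31, 38, 15, -34, 12, -36, -13⟩, (.cons (nat_lit 2902922) (nat_lit 2287061) (nat_lit 2361854)
 (nat_lit 1) (.cons (nat_lit 3471581) (nat_lit 7417436) (nat_lit 7349314) (nat_lit 1) .nil)), (nat_lit 41),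
 (nat_lit 38), (nat_lit 50), (nat_lit 1), (8, 37, 23), [2525774, 6959783], 62⟩,
  ⟨⟨21, -20, 31, 38, 15, -34, 12, -36, -13⟩, (.cons (nat_lit 2902922) (nat_lit 2287061) (nat_lit 2361854)
 (nat_lit 1) (.cons (nat_lit 3471581) (nat_lit 7417436) (nat_lit 7349314) (nat_lit 1) .nil)), (nat_lit 41),
 (nat_lit 38), (nat_lit 50), (nat_lit 1), (8, 37, 23), [2525774, 6959783], 62⟩,
  ⟨⟨21, -20, 31, 38, 15, -34, 12, -36, -13⟩, (.cons (nat_lit 2902922) (nat_lit 2287061) (nat_lit 2361854)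
 (nat_lit 1) (.cons (nat_lit 3471581) (nat_lit 7417436) (nat_lit 7349314) (nat_lit 1) .nil)), (nat_lit 41),
 (nat_lit 38), (nat_lit 50), (nat_lit 1), (8, 37, 23), [2525774, 6959783], 62⟩,
  ⟨⟨21, -20, 31, 38, 15, -34, 12, -36, -13⟩, (.cons (nat_lit 2902922) (nat_lit 2287061) (nat_lit 2361854)
 (nat_lit 1) (.cons (nat_lit 3471581) (nat_lit 7417436) (nat_lit 7349314) (nat_lit 1) .nil)), (nat_lit 41),
 (nat_lit 38), (nat_lit 50), (nat_lit 1), (8, 37, 23), [2525774, 6959783], 62⟩,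
  ⟨⟨21, -20, 31, -38, -15, 34, 12, -36, -13⟩, (.cons (nat_lit 3217896) (nat_lit 3139333) (nat_lit 2471889)
 (nat_lit 1) (.cons (nat_lit 3171724) (nat_lit 7592087) (nat_lit 5118174) (nat_lit 1) .nil)), (nat_lit 68),
 (nat_lit 16), (nat_lit 36), (nat_lit 1), (8, 6, 23), [487684, 6033291], 24⟩]

/-- Moves. -/
noncomputable def t0_17 : List Mv := [
  ⟨⟨9, -4, -56, 40, -13, -10, 14, 32, -25⟩, (.cons (nat_lit 2524543) (nat_lit 276797) (nat_lit 1671644)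
 (nat_lit 1) (.cons (nat_lit 6725940) (nat_lit 3154332) (nat_lit 3785664) (nat_lit 1) .nil)), (nat_lit 57),
 (nat_lit 42), (nat_lit 65), (nat_lit 1), (19, 8, 20), [2992385, 3185401], 61⟩,
  ⟨⟨9, -4, -56, 40, -13, -10, 14, 32, -25⟩, (.cons (nat_lit 2524543) (nat_lit 276797) (nat_lit 1671644)
 (nat_lit 1) (.cons (nat_lit 6725940) (nat_lit 3154332) (nat_lit 3785664) (nat_lit 1) .nil)), (nat_lit 57),
 (nat_lit 42), (nat_lit 65), (nat_lit 1), (19, 8, 20), [2992385, 3185401], 61⟩,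
  ⟨⟨9, -4, -56, -40, 13, 10, 14, 32, -25⟩, (.cons (nat_lit 2705623) (nat_lit 626502) (nat_lit 1083165) (nat_lit
 1) (.cons (nat_lit 3198435) (nat_lit 2895524) (nat_lit 54630) (nat_lit 1) .nil)), (nat_lit 45), (nat_lit 65),
 (nat_lit 32), (nat_lit 1), (19, 35, 20), [2314885, 4038760], 38⟩,
  ⟨⟨9, -4, -56, 40, -13, -10, 14, 32, -25⟩, (.cons (nat_lit 2524543) (nat_lit 276797) (nat_lit 1671644)
 (nat_lit 1) (.cons (nat_lit 6725940) (nat_lit 3154332) (nat_lit 3785664) (nat_lit 1) .nil)), (nat_lit 57),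
 (nat_lit 42), (nat_lit 65), (nat_lit 1), (19, 8, 20), [2992385, 3185401], 61⟩,
  ⟨⟨9, -4, -56, 40, -13, -10, 14, 32, -25⟩, (.cons (nat_lit 2524543) (nat_lit 276797) (nat_lit 1671644)
 (nat_lit 1) (.cons (nat_lit 6725940) (nat_lit 3154332) (nat_lit 3785664) (nat_lit 1) .nil)), (nat_lit 57),
 (nat_lit 42), (nat_lit 65), (nat_lit 1), (19, 8, 20), [2992385, 3185401], 61⟩,
  ⟨⟨9, -4, -56, 40, -13, -10, 14, 32, -25⟩, (.cons (nat_lit 2524543) (nat_lit 276797) (nat_lit 1671644)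
 (nat_lit 1) (.cons (nat_lit 6725940) (nat_lit 3154332) (nat_lit 3785664) (nat_lit 1) .nil)), (nat_lit 57),
 (nat_lit 42), (nat_lit 65), (nat_lit 1), (19, 8, 20), [2992385, 3185401], 61⟩,
  ⟨⟨5, 36, 31, 40, -13, -10, 14, 32, -25⟩, (.cons (nat_lit 2817003) (nat_lit 3117795) (nat_lit 2188332)
 (nat_lit 1) (.cons (nat_lit 1420092) (nat_lit 1899772) (nat_lit 2151688) (nat_lit 1) .nil)), (nat_lit 38),
 (nat_lit 50), (nat_lit 28), (nat_lit 1), (1, 8, 20), [71524, 2166419], 9⟩,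
  ⟨⟨9, -4, -56, 40, -13, -10, 14, 32, -25⟩, (.cons (nat_lit 2524543) (nat_lit 276797) (nat_lit 1671644)
 (nat_lit 1) (.cons (nat_lit 6725940) (nat_lit 3154332) (nat_lit 3785664) (nat_lit 1) .nil)), (nat_lit 57),
 (nat_lit 42), (nat_lit 65), (nat_lit 1), (19, 8, 20), [2992385, 3185401], 61⟩,
  ⟨⟨9, -4, -56, 40, -13, -10, 14, 32, -25⟩, (.cons (nat_lit 2524543) (nat_lit 276797) (nat_lit 1671644)
 (nat_lit 1) (.cons (nat_lit 6725940) (nat_lit 3154332) (nat_lit 3785664) (nat_lit 1) .nil)), (nat_lit 57),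
 (nat_lit 42), (nat_lit 65), (nat_lit 1), (19, 8, 20), [2992385, 3185401], 61⟩,
  ⟨⟨9, -4, -56, 40, -13, -10, 14, 32, -25⟩, (.cons (nat_lit 2524543) (nat_lit 276797) (nat_lit 1671644)
 (nat_lit 1) (.cons (nat_lit 6725940) (nat_lit 3154332) (nat_lit 3785664) (nat_lit 1) .nil)), (nat_lit 57),
 (nat_lit 42), (nat_lit 65), (nat_lit 1), (19, 8, 20), [2992385, 3185401], 61⟩,
  ⟨⟨9, -4, -56, 40, -13, -10, 14, 32, -25⟩, (.cons (nat_lit 2524543) (nat_lit 276797) (nat_lit 1671644)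
 (nat_lit 1) (.cons (nat_lit 6725940) (nat_lit 3154332) (nat_lit 3785664) (nat_lit 1) .nil)), (nat_lit 57),
 (nat_lit 42), (nat_lit 65), (nat_lit 1), (19, 8, 20), [2992385, 3185401], 61⟩,
  ⟨⟨5, 36, 31, 40, -13, -10, 14, 32, -25⟩, (.cons (nat_lit 2817003) (nat_lit 3117795) (nat_lit 2188332)
 (nat_lit 1) (.cons (nat_lit 1420092) (nat_lit 1899772) (nat_lit 2151688) (nat_lit 1) .nil)), (nat_lit 38),
 (nat_lit 50), (nat_lit 28), (nat_lit 1), (1, 8, 20), [71524, 2166419], 9⟩,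
  ⟨⟨9, -4, -56, -40, 13, 10, 14, 32, -25⟩, (.cons (nat_lit 2705623) (nat_lit 626502) (nat_lit 1083165) (nat_lit
 1) (.cons (nat_lit 3198435) (nat_lit 2895524) (nat_lit 54630) (nat_lit 1) .nil)), (nat_lit 45), (nat_lit 65),
 (nat_lit 32), (nat_lit 1), (19, 35, 20), [2314885, 4038760], 38⟩,
  ⟨⟨9, -4, -56, 40, -13, -10, 14, 32, -25⟩, (.cons (nat_lit 2524543) (nat_lit 276797) (nat_lit 1671644)
 (nat_lit 1) (.cons (nat_lit 6725940) (nat_lit 3154332) (nat_lit 3785664) (nat_lit 1) .nil)), (nat_lit 57),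
 (nat_lit 42), (nat_lit 65), (nat_lit 1), (19, 8, 20), [2992385, 3185401], 61⟩,
  ⟨⟨9, -4, -56, 40, -13, -10, 14, 32, -25⟩, (.cons (nat_lit 2524543) (nat_lit 276797) (nat_lit 1671644)
 (nat_lit 1) (.cons (nat_lit 6725940) (nat_lit 3154332) (nat_lit 3785664) (nat_lit 1) .nil)), (nat_lit 57),
 (nat_lit 42), (nat_lit 65), (nat_lit 1), (19, 8, 20), [2992385, 3185401], 61⟩,
  ⟨⟨9, -4, -56, -40, 13, 10, 14, 32, -25⟩, (.cons (nat_lit 2705623) (nat_lit 626502) (nat_lit 1083165) (nat_lit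
 1) (.cons (nat_lit 3198435) (nat_lit 2895524) (nat_lit 54630) (nat_lit 1) .nil)), (nat_lit 45), (nat_lit 65),
 (nat_lit 32), (nat_lit 1), (19, 35, 20), [2314885, 4038760], 38⟩,
  ⟨⟨9, -4, -56, 40, -13, -10, 14, 32, -25⟩, (.cons (nat_lit 2524543) (nat_lit 276797) (nat_lit 1671644)
 (nat_lit 1) (.cons (nat_lit 6725940) (nat_lit 3154332) (nat_lit 3785664) (nat_lit 1) .nil)), (nat_lit 57),
 (nat_lit 42), (nat_lit 65), (nat_lit 1), (19, 8, 20), [2992385, 3185401], 61⟩,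
  ⟨⟨5, 36, 31, -40, 13, 10, 14, 32, -25⟩, (.cons (nat_lit 3104322) (nat_lit 3397567) (nat_lit 2218924) (nat_lit
 1) (.cons (nat_lit 3322433) (nat_lit 6240097) (nat_lit 3006940) (nat_lit 1) .nil)), (nat_lit 53), (nat_lit 3),
 (nat_lit 47), (nat_lit 1), (1, 35, 20), [1597645, 1669237], 21⟩,
  ⟨⟨5, 36, 31, -40, 13, 10, 14, 32, -25⟩, (.cons (nat_lit 3104322) (nat_lit 3397567) (nat_lit 2218924) (nat_lit
 1) (.cons (nat_lit 3322433) (nat_lit 6240097) (nat_lit 3006940) (nat_lit 1) .nil)), (nat_lit 53), (nat_lit 3),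
 (nat_lit 47), (nat_lit 1), (1, 35, 20), [1597645, 1669237], 21⟩,
  ⟨⟨5, 36, 31, 40, -13, -10, 14, 32, -25⟩, (.cons (nat_lit 2817003) (nat_lit 3117795) (nat_lit 2188332)
 (nat_lit 1) (.cons (nat_lit 1420092) (nat_lit 1899772) (nat_lit 2151688) (nat_lit 1) .nil)), (nat_lit 38),
 (nat_lit 50), (nat_lit 28), (nat_lit 1), (1, 8, 20), [71524, 2166419], 9⟩,
  ⟨⟨5, 36, 31, -40, 13, 10, 14, 32, -25⟩, (.cons (nat_lit 3104322) (nat_lit 3397567) (nat_lit 2218924) (nat_lit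
 1) (.cons (nat_lit 3322433) (nat_lit 6240097) (nat_lit 3006940) (nat_lit 1) .nil)), (nat_lit 53), (nat_lit 3),
 (nat_lit 47), (nat_lit 1), (1, 35, 20), [1597645, 1669237], 21⟩,
  ⟨⟨9, -4, -56, -40, 13, 10, 14, 32, -25⟩, (.cons (nat_lit 2705623) (nat_lit 626502) (nat_lit 1083165) (nat_lit
 1) (.cons (nat_lit 3198435) (nat_lit 2895524) (nat_lit 54630) (nat_lit 1) .nil)), (nat_lit 45), (nat_lit 65),
 (nat_lit 32), (nat_lit 1), (19, 35, 20), [2314885, 4038760], 38⟩,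
  ⟨⟨5, 36, 31, 40, -13, -10, 14, 32, -25⟩, (.cons (nat_lit 2817003) (nat_lit 3117795) (nat_lit 2188332)
 (nat_lit 1) (.cons (nat_lit 1420092) (nat_lit 1899772) (nat_lit 2151688) (nat_lit 1) .nil)), (nat_lit 38),
 (nat_lit 50), (nat_lit 28), (nat_lit 1), (1, 8, 20), [71524, 2166419], 9⟩,
  ⟨⟨5, 36, 31, -40, 13, 10, 14, 32, -25⟩, (.cons (nat_lit 3104322) (nat_lit 3397567) (nat_lit 2218924) (nat_lit
 1) (.cons (nat_lit 3322433) (nat_lit 6240097) (nat_lit 3006940) (nat_lit 1) .nil)), (nat_lit 53), (nat_lit 3),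
 (nat_lit 47), (nat_lit 1), (1, 35, 20), [1597645, 1669237], 21⟩,
  ⟨⟨9, -4, -56, 40, -13, -10, 14, 32, -25⟩, (.cons (nat_lit 2524543) (nat_lit 276797) (nat_lit 1671644)
 (nat_lit 1) (.cons (nat_lit 6725940) (nat_lit 3154332) (nat_lit 3785664) (nat_lit 1) .nil)), (nat_lit 57),
 (nat_lit 42), (nat_lit 65), (nat_lit 1), (19, 8, 20), [2992385, 3185401], 61⟩,
  ⟨⟨9, -4, -56, 40, -13, -10, 14, 32, -25⟩, (.cons (nat_lit 2524543) (nat_lit 276797) (nat_lit 1671644)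
 (nat_lit 1) (.cons (nat_lit 6725940) (nat_lit 3154332) (nat_lit 3785664) (nat_lit 1) .nil)), (nat_lit 57),
 (nat_lit 42), (nat_lit 65), (nat_lit 1), (19, 8, 20), [2992385, 3185401], 61⟩,
  ⟨⟨9, -4, -56, 40, -13, -10, 14, 32, -25⟩, (.cons (nat_lit 2524543) (nat_lit 276797) (nat_lit 1671644)
 (nat_lit 1) (.cons (nat_lit 6725940) (nat_lit 3154332) (nat_lit 3785664) (nat_lit 1) .nil)), (nat_lit 57),
 (nat_lit 42), (nat_lit 65), (nat_lit 1), (19, 8, 20), [2992385, 3185401], 61⟩,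
  ⟨⟨9, -4, -56, 40, -13, -10, 14, 32, -25⟩, (.cons (nat_lit 2524543) (nat_lit 276797) (nat_lit 1671644)
 (nat_lit 1) (.cons (nat_lit 6725940) (nat_lit 3154332) (nat_lit 3785664) (nat_lit 1) .nil)), (nat_lit 57),
 (nat_lit 42), (nat_lit 65), (nat_lit 1), (19, 8, 20), [2992385, 3185401], 61⟩,
  ⟨⟨5, 36, 31, 40, -13, -10, 14, 32, -25⟩, (.cons (nat_lit 2817003) (nat_lit 3117795) (nat_lit 2188332)
 (nat_lit 1) (.cons (nat_lit 1420092) (nat_lit 1899772) (nat_lit 2151688) (nat_lit 1) .nil)), (nat_lit 38),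
 (nat_lit 50), (nat_lit 28), (nat_lit 1), (1, 8, 20), [71524, 2166419], 9⟩,
  ⟨⟨9, -4, -56, 40, -13, -10, 14, 32, -25⟩, (.cons (nat_lit 2524543) (nat_lit 276797) (nat_lit 1671644)
 (nat_lit 1) (.cons (nat_lit 6725940) (nat_lit 3154332) (nat_lit 3785664) (nat_lit 1) .nil)), (nat_lit 57),
 (nat_lit 42), (nat_lit 65), (nat_lit 1), (19, 8, 20), [2992385, 3185401], 61⟩,
  ⟨⟨5, 36, 31, 40, -13, -10, 14, 32, -25⟩, (.cons (nat_lit 2817003) (nat_lit 3117795) (nat_lit 2188332)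
 (nat_lit 1) (.cons (nat_lit 1420092) (nat_lit 1899772) (nat_lit 2151688) (nat_lit 1) .nil)), (nat_lit 38),
 (nat_lit 50), (nat_lit 28), (nat_lit 1), (1, 8, 20), [71524, 2166419], 9⟩,
  ⟨⟨5, 36, 31, 40, -13, -10, 14, 32, -25⟩, (.cons (nat_lit 2817003) (nat_lit 3117795) (nat_lit 2188332)
 (nat_lit 1) (.cons (nat_lit 1420092) (nat_lit 1899772) (nat_lit 2151688) (nat_lit 1) .nil)), (nat_lit 38),
 (nat_lit 50), (nat_lit 28), (nat_lit 1), (1, 8, 20), [71524, 2166419], 9⟩,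
  ⟨⟨5, 36, 31, -40, 13, 10, 14, 32, -25⟩, (.cons (nat_lit 3104322) (nat_lit 3397567) (nat_lit 2218924) (nat_lit
 1) (.cons (nat_lit 3322433) (nat_lit 6240097) (nat_lit 3006940) (nat_lit 1) .nil)), (nat_lit 53), (nat_lit 3),
 (nat_lit 47), (nat_lit 1), (1, 35, 20), [1597645, 1669237], 21⟩,
  ⟨⟨9, -4, -56, -40, 13, 10, 14, 32, -25⟩, (.cons (nat_lit 2705623) (nat_lit 626502) (nat_lit 1083165) (nat_lit
 1) (.cons (nat_lit 3198435) (nat_lit 2895524) (nat_lit 54630) (nat_lit 1) .nil)), (nat_lit 45), (nat_lit 65),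
 (nat_lit 32), (nat_lit 1), (19, 35, 20), [2314885, 4038760], 38⟩,
  ⟨⟨9, -4, -56, 40, -13, -10, 14, 32, -25⟩, (.cons (nat_lit 2524543) (nat_lit 276797) (nat_lit 1671644)
 (nat_lit 1) (.cons (nat_lit 6725940) (nat_lit 3154332) (nat_lit 3785664) (nat_lit 1) .nil)), (nat_lit 57),
 (nat_lit 42), (nat_lit 65), (nat_lit 1), (19, 8, 20), [2992385, 3185401], 61⟩,
  ⟨⟨9, -4, -56, 40, -13, -10, 14, 32, -25⟩, (.cons (nat_lit 2524543) (nat_lit 276797) (nat_lit 1671644)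
 (nat_lit 1) (.cons (nat_lit 6725940) (nat_lit 3154332) (nat_lit 3785664) (nat_lit 1) .nil)), (nat_lit 57),
 (nat_lit 42), (nat_lit 65), (nat_lit 1), (19, 8, 20), [2992385, 3185401], 61⟩,
  ⟨⟨9, -4, -56, 40, -13, -10, 14, 32, -25⟩, (.cons (nat_lit 2524543) (nat_lit 276797) (nat_lit 1671644)
 (nat_lit 1) (.cons (nat_lit 6725940) (nat_lit 3154332) (nat_lit 3785664) (nat_lit 1) .nil)), (nat_lit 57),
 (nat_lit 42), (nat_lit 65), (nat_lit 1), (19, 8, 20), [2992385, 3185401], 61⟩,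
  ⟨⟨9, -4, -56, 40, -13, -10, 14, 32, -25⟩, (.cons (nat_lit 2524543) (nat_lit 276797) (nat_lit 1671644)
 (nat_lit 1) (.cons (nat_lit 6725940) (nat_lit 3154332) (nat_lit 3785664) (nat_lit 1) .nil)), (nat_lit 57),
 (nat_lit 42), (nat_lit 65), (nat_lit 1), (19, 8, 20), [2992385, 3185401], 61⟩,
  ⟨⟨9, -4, -56, 40, -13, -10, 14, 32, -25⟩, (.cons (nat_lit 2524543) (nat_lit 276797) (nat_lit 1671644)
 (nat_lit 1) (.cons (nat_lit 6725940) (nat_lit 3154332) (nat_lit 3785664) (nat_lit 1) .nil)), (nat_lit 57),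
 (nat_lit 42), (nat_lit 65), (nat_lit 1), (19, 8, 20), [2992385, 3185401], 61⟩,
  ⟨⟨9, -4, -56, -40, 13, 10, 14, 32, -25⟩, (.cons (nat_lit 2705623) (nat_lit 626502) (nat_lit 1083165) (nat_lit
 1) (.cons (nat_lit 3198435) (nat_lit 2895524) (nat_lit 54630) (nat_lit 1) .nil)), (nat_lit 45), (nat_lit 65),
 (nat_lit 32), (nat_lit 1), (19, 35, 20), [2314885, 4038760], 38⟩,
  ⟨⟨9, -4, -56, 40, -13, -10, 14, 32, -25⟩, (.cons (nat_lit 2524543) (nat_lit 276797) (nat_lit 1671644)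
 (nat_lit 1) (.cons (nat_lit 6725940) (nat_lit 3154332) (nat_lit 3785664) (nat_lit 1) .nil)), (nat_lit 57),
 (nat_lit 42), (nat_lit 65), (nat_lit 1), (19, 8, 20), [2992385, 3185401], 61⟩,
  ⟨⟨9, -4, -56, 40, -13, -10, 14, 32, -25⟩, (.cons (nat_lit 2524543) (nat_lit 276797) (nat_lit 1671644)
 (nat_lit 1) (.cons (nat_lit 6725940) (nat_lit 3154332) (nat_lit 3785664) (nat_lit 1) .nil)), (nat_lit 57),
 (nat_lit 42), (nat_lit 65), (nat_lit 1), (19, 8, 20), [2992385, 3185401], 61⟩,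
  ⟨⟨9, -4, -56, 40, -13, -10, 14, 32, -25⟩, (.cons (nat_lit 2524543) (nat_lit 276797) (nat_lit 1671644)
 (nat_lit 1) (.cons (nat_lit 6725940) (nat_lit 3154332) (nat_lit 3785664) (nat_lit 1) .nil)), (nat_lit 57),
 (nat_lit 42), (nat_lit 65), (nat_lit 1), (19, 8, 20), [2992385, 3185401], 61⟩]

/-- Moves. -/
noncomputable def t1_1 : List Mv := [
  mz,
  mz,
  mz,
  mz,
  ⟨⟨51, 20, -47, 10, -47, -30, -2, 20, -47⟩, (.cons (nat_lit 935130) (nat_lit 2095481) (nat_lit 1906275)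
 (nat_lit 1) (.cons (nat_lit 2854593) (nat_lit 775833) (nat_lit 7029246) (nat_lit 1) .nil)), (nat_lit 51),
 (nat_lit 68), (nat_lit 22), (nat_lit 1), (24, 39, 24), [362458, 3566787], 24⟩,
  ⟨⟨-53, 0, 0, -10, -47, 30, -2, -20, -47⟩, (.cons (nat_lit 939311) (nat_lit 2127348) (nat_lit 863029) (nat_lit
 1) (.cons (nat_lit 2777262) (nat_lit 2311629) (nat_lit 6003670) (nat_lit 1) .nil)), (nat_lit 25), (nat_lit
 33), (nat_lit 52), (nat_lit 1), (0, 7, 12), [846771, 3489508], 21⟩,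
  ⟨⟨15, 56, -11, -28, 5, -36, 40, 8, -47⟩, (.cons (nat_lit 742319) (nat_lit 1609244) (nat_lit 2628530) (nat_lit
 1) (.cons (nat_lit 3836980) (nat_lit 7095884) (nat_lit 3223543) (nat_lit 1) .nil)), (nat_lit 5), (nat_lit 70),
 (nat_lit 65), (nat_lit 1), (1, 37, 38), [2691079, 2289031], 53⟩,
  mz,
  mz,
  ⟨⟨-33, -20, -32, 8, 45, -34, 24, -24, -49⟩, (.cons (nat_lit 1040042) (nat_lit 1601343) (nat_lit 1126126)
 (nat_lit 1) (.cons (nat_lit 3320803) (nat_lit 4389122) (nat_lit 1807882) (nat_lit 1) .nil)), (nat_lit 46),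
 (nat_lit 52), (nat_lit 27), (nat_lit 1), (35, 14, 42), [880751, 3535963], 20⟩,
  ⟨⟨-15, -56, 4, -28, 5, 64, -40, -8, -7⟩, (.cons (nat_lit 2082606) (nat_lit 1856770) (nat_lit 1110876)
 (nat_lit 1) (.cons (nat_lit 5520281) (nat_lit 2707339) (nat_lit 5903063) (nat_lit 1) .nil)), (nat_lit 31),
 (nat_lit 67), (nat_lit 24), (nat_lit 1), (10, 1, 9), [3372245, 6101311], 57⟩,
  ⟨⟨15, -32, 44, -50, -17, 30, 14, -44, -19⟩, (.cons (nat_lit 3245022) (nat_lit 2783160) (nat_lit 407795)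
 (nat_lit 1) (.cons (nat_lit 6349660) (nat_lit 6350028) (nat_lit 4927338) (nat_lit 1) .nil)), (nat_lit 67),
 (nat_lit 6), (nat_lit 66), (nat_lit 1), (29, 27, 20), [382226, 3960533], 29⟩,
  ⟨⟨-51, 20, 4, -10, -47, -20, 2, 20, -49⟩, (.cons (nat_lit 718392) (nat_lit 2947397) (nat_lit 755554) (nat_lit
 1) (.cons (nat_lit 2248305) (nat_lit 5550217) (nat_lit 4668296) (nat_lit 1) .nil)), (nat_lit 54), (nat_lit
 15), (nat_lit 4), (nat_lit 1), (48, 25, 48), [931735, 2207417], 34⟩,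
  mz,
  mz,
  ⟨⟨-51, -20, 4, -10, 47, -20, 2, -20, -49⟩, (.cons (nat_lit 3418800) (nat_lit 3085972) (nat_lit 1294446)
 (nat_lit 1) (.cons (nat_lit 4314151) (nat_lit 6999064) (nat_lit 3443806) (nat_lit 1) .nil)), (nat_lit 70),
 (nat_lit 12), (nat_lit 24), (nat_lit 1), (36, 32, 36), [3070516, 989393], 19⟩,
  ⟨⟨15, 52, 16, 10, 17, -60, 46, 4, -11⟩, (.cons (nat_lit 3050834) (nat_lit 2896135) (nat_lit 366621) (nat_lit
 1) (.cons (nat_lit 1251332) (nat_lit 4266202) (nat_lit 7253833) (nat_lit 1) .nil)), (nat_lit 67), (nat_lit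
 62), (nat_lit 27), (nat_lit 1), (24, 16, 10), [1409584, 6928554], 42⟩,
  ⟨⟨31, -48, -4, -10, -17, -50, 46, 4, -35⟩, (.cons (nat_lit 122171) (nat_lit 2250697) (nat_lit 1464028)
 (nat_lit 1) (.cons (nat_lit 2354198) (nat_lit 117428) (nat_lit 7130783) (nat_lit 1) .nil)), (nat_lit 53),
 (nat_lit 37), (nat_lit 52), (nat_lit 1), (18, 13, 25), [3139581, 2392756], 24⟩,
  ⟨⟨-57, -4, 40, -8, 45, -26, -24, -24, -25⟩, (.cons (nat_lit 1683537) (nat_lit 2688767) (nat_lit 794082)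
 (nat_lit 1) (.cons (nat_lit 2169052) (nat_lit 6191318) (nat_lit 2945743) (nat_lit 1) .nil)), (nat_lit 17),
 (nat_lit 39), (nat_lit 38), (nat_lit 1), (12, 24, 19), [121887, 4621735], 29⟩,
  mz,
  mz,
  ⟨⟨-33, 20, -32, 8, -45, -34, 24, 24, -49⟩, (.cons (nat_lit 2839974) (nat_lit 1812148) (nat_lit 2310072)
 (nat_lit 1) (.cons (nat_lit 1323067) (nat_lit 1259898) (nat_lit 7815040) (nat_lit 1) .nil)), (nat_lit 67),
 (nat_lit 63), (nat_lit 35), (nat_lit 1), (47, 40, 14), [2959298, 7336522], 69⟩,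
  ⟨⟨-45, -28, -4, 28, -45, -14, 0, 0, -53⟩, (.cons (nat_lit 2324925) (nat_lit 765895) (nat_lit 3348251)
 (nat_lit 1) (.cons (nat_lit 3102915) (nat_lit 148637) (nat_lit 1554903) (nat_lit 1) .nil)), (nat_lit 1),
 (nat_lit 9), (nat_lit 66), (nat_lit 1), (29, 22, 0), [3249823, 825806], 47⟩,
  mz,
  ⟨⟨-13, 48, -27, 30, -17, -60, 30, 36, -7⟩, (.cons (nat_lit 197261) (nat_lit 1446129) (nat_lit 867672)
 (nat_lit 1) (.cons (nat_lit 6610459) (nat_lit 6365867) (nat_lit 5197395) (nat_lit 1) .nil)), (nat_lit 0),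
 (nat_lit 42), (nat_lit 47), (nat_lit 1), (11, 48, 48), [220616, 3534223], 39⟩,
  mz,
  ⟨⟨-25, -48, -11, 28, 5, -64, -40, 8, -7⟩, (.cons (nat_lit 300408) (nat_lit 1071978) (nat_lit 321485) (nat_lit
 1) (.cons (nat_lit 6047124) (nat_lit 1824961) (nat_lit 1) (nat_lit 4001235) .nil)), (nat_lit 44), (nat_lit
 11), (nat_lit 43), (nat_lit 1), (2, 2, 35), [2798321, 351296], 17⟩,
  mz,
  ⟨⟨-1, -48, 37, 52, 5, -16, 8, -40, -31⟩, (.cons (nat_lit 213551) (nat_lit 2211076) (nat_lit 888558) (nat_lit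
 1) (.cons (nat_lit 597646) (nat_lit 6142929) (nat_lit 2271106) (nat_lit 1) .nil)), (nat_lit 57), (nat_lit 57),
 (nat_lit 58), (nat_lit 1), (29, 29, 33), [1953718, 3950918], 22⟩,
  ⟨⟨43, -12, -63, -30, 17, -30, 30, 36, -23⟩, (.cons (nat_lit 2427378) (nat_lit 70202) (nat_lit 1526039)
 (nat_lit 1) (.cons (nat_lit 615641) (nat_lit 5686034) (nat_lit 5103288) (nat_lit 1) .nil)), (nat_lit 3),
 (nat_lit 16), (nat_lit 1), (nat_lit 0), (16, 48, 5), [973862, 4237298], 4⟩,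
  mz,
  ⟨⟨45, -28, -49, 28, 45, -14, 0, 0, -53⟩, (.cons (nat_lit 1161345) (nat_lit 441858) (nat_lit 205968) (nat_lit
 1) (.cons (nat_lit 684971) (nat_lit 5174550) (nat_lit 2796875) (nat_lit 1) .nil)), (nat_lit 1), (nat_lit 57),
 (nat_lit 63), (nat_lit 1), (39, 49, 0), [3242304, 6405699], 61⟩,
  mz,
  ⟨⟨-39, 28, -17, 10, -33, -50, 18, 36, -37⟩, (.cons (nat_lit 1816463) (nat_lit 1396121) (nat_lit 2702585)
 (nat_lit 1) (.cons (nat_lit 5420005) (nat_lit 7422346) (nat_lit 1619287) (nat_lit 1) .nil)), (nat_lit 5),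
 (nat_lit 59), (nat_lit 17), (nat_lit 1), (43, 8, 25), [3389618, 3950882], 70⟩,
  mz,
  mz,
  ⟨⟨-9, 8, -59, 52, -5, -36, -8, -40, -23⟩, (.cons (nat_lit 192450) (nat_lit 2097715) (nat_lit 335375) (nat_lit
 1) (.cons (nat_lit 3221663) (nat_lit 503522) (nat_lit 3478152) (nat_lit 1) .nil)), (nat_lit 54), (nat_lit 68),
 (nat_lit 28), (nat_lit 1), (2, 12, 43), [1225167, 990193], 1⟩,
  ⟨⟨9, -8, -68, -52, 5, 16, 8, 40, -31⟩, (.cons (nat_lit 576534) (nat_lit 515139) (nat_lit 3301551) (nat_lit 1)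
 (.cons (nat_lit 4230101) (nat_lit 2867185) (nat_lit 2677752) (nat_lit 1) .nil)), (nat_lit 55), (nat_lit 7),
 (nat_lit 29), (nat_lit 1), (31, 27, 4), [1163891, 5465563], 37⟩,
  ⟨⟨-57, 8, 37, 10, 33, 40, -18, 36, -19⟩, (.cons (nat_lit 3047497) (nat_lit 2215860) (nat_lit 3173892)
 (nat_lit 1) (.cons (nat_lit 442927) (nat_lit 7648795) (nat_lit 7470885) (nat_lit 1) .nil)), (nat_lit 40),
 (nat_lit 14), (nat_lit 7), (nat_lit 1), (40, 6, 21), [2685949, 6316364], 50⟩,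
  ⟨⟨15, -56, -11, -28, -5, -36, 40, -8, -47⟩, (.cons (nat_lit 90546) (nat_lit 1836924) (nat_lit 2431821)
 (nat_lit 1) (.cons (nat_lit 1275306) (nat_lit 3349324) (nat_lit 5008160) (nat_lit 1) .nil)), (nat_lit 57),
 (nat_lit 8), (nat_lit 32), (nat_lit 1), (31, 34, 12), [596532, 6153873], 32⟩,
  ⟨⟨1, 48, 36, -52, -5, 36, -8, 40, -23⟩, (.cons (nat_lit 2337922) (nat_lit 1767639) (nat_lit 2378492) (nat_lit
 1) (.cons (nat_lit 2185149) (nat_lit 4868308) (nat_lit 1277514) (nat_lit 1) .nil)), (nat_lit 17), (nat_lit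
 12), (nat_lit 14), (nat_lit 1), (38, 38, 14), [1960492, 4974077], 51⟩,
  ⟨⟨31, 48, -4, -10, 17, -50, 46, -4, -35⟩, (.cons (nat_lit 3172211) (nat_lit 2923479) (nat_lit 1003604)
 (nat_lit 1) (.cons (nat_lit 6883105) (nat_lit 570559) (nat_lit 2830267) (nat_lit 1) .nil)), (nat_lit 9),
 (nat_lit 1), (nat_lit 54), (nat_lit 1), (15, 2, 12), [3162612, 1037093], 42⟩,
  ⟨⟨-57, 4, 40, -8, -45, -26, -24, 24, -25⟩, (.cons (nat_lit 425825) (nat_lit 265612) (nat_lit 132844) (nat_lit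
 1) (.cons (nat_lit 3048247) (nat_lit 509608) (nat_lit 406381) (nat_lit 1) .nil)), (nat_lit 64), (nat_lit 20),
 (nat_lit 19), (nat_lit 1), (25, 50, 44), [3029861, 6286556], 63⟩,
  ⟨⟨15, 32, 44, 50, -17, -30, 14, 44, -19⟩, (.cons (nat_lit 1102098) (nat_lit 1615846) (nat_lit 2230563)
 (nat_lit 1) (.cons (nat_lit 5743835) (nat_lit 6837522) (nat_lit 6724131) (nat_lit 1) .nil)), (nat_lit 38),
 (nat_lit 68), (nat_lit 32), (nat_lit 1), (27, 37, 4), [916051, 929430], 2⟩,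
  ⟨⟨-15, 32, 59, 50, 17, -20, -14, 44, -5⟩, (.cons (nat_lit 2047043) (nat_lit 1451686) (nat_lit 1552473)
 (nat_lit 1) (.cons (nat_lit 7281819) (nat_lit 7138151) (nat_lit 4780138) (nat_lit 1) .nil)), (nat_lit 48),
 (nat_lit 15), (nat_lit 8), (nat_lit 1), (6, 33, 48), [1044174, 3977989], 18⟩,
  mz,
  ⟨⟨-13, -48, -27, 30, 17, -60, 30, -36, -7⟩, (.cons (nat_lit 313385) (nat_lit 1897701) (nat_lit 2253490)
 (nat_lit 1) (.cons (nat_lit 295719) (nat_lit 5096781) (nat_lit 4168007) (nat_lit 1) .nil)), (nat_lit 61),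
 (nat_lit 36), (nat_lit 44), (nat_lit 1), (14, 37, 37), [1086747, 5049337], 8⟩,
  ⟨⟨1, -12, -64, -50, 17, 20, -14, -44, -5⟩, (.cons (nat_lit 3279805) (nat_lit 834214) (nat_lit 3007181)
 (nat_lit 1) (.cons (nat_lit 6107086) (nat_lit 7673008) (nat_lit 7446838) (nat_lit 1) .nil)), (nat_lit 37),
 (nat_lit 42), (nat_lit 15), (nat_lit 1), (3, 9, 11), [2930386, 5246347], 47⟩,
  ⟨⟨31, 48, -27, -10, 17, 60, 46, -4, -11⟩, (.cons (nat_lit 1383732) (nat_lit 1103371) (nat_lit 528162)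
 (nat_lit 1) (.cons (nat_lit 7467758) (nat_lit 5654516) (nat_lit 2963587) (nat_lit 1) .nil)), (nat_lit 65),
 (nat_lit 12), (nat_lit 65), (nat_lit 1), (36, 26, 50), [1143391, 3097046], 19⟩,
  ⟨⟨-39, -28, -17, 10, 33, -50, 18, -36, -37⟩, (.cons (nat_lit 695741) (nat_lit 839713) (nat_lit 1233899)
 (nat_lit 1) (.cons (nat_lit 4568767) (nat_lit 2110641) (nat_lit 6640120) (nat_lit 1) .nil)), (nat_lit 16),
 (nat_lit 54), (nat_lit 57), (nat_lit 1), (5, 49, 14), [474029, 1703946], 20⟩,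
  ⟨⟨39, -28, -56, -10, 33, -40, -18, -36, -19⟩, (.cons (nat_lit 3418800) (nat_lit 1727362) (nat_lit 2679058)
 (nat_lit 1) (.cons (nat_lit 7091676) (nat_lit 4555332) (nat_lit 6612029) (nat_lit 1) .nil)), (nat_lit 70),
 (nat_lit 17), (nat_lit 6), (nat_lit 1), (49, 35, 10), [963025, 2147297], 63⟩,
  mz,
  ⟨⟨-13, -48, 40, -30, -17, -30, 30, -36, -23⟩, (.cons (nat_lit 3418800) (nat_lit 1320800) (nat_lit 1151545)
 (nat_lit 1) (.cons (nat_lit 1126856) (nat_lit 428430) (nat_lit 5332572) (nat_lit 1) .nil)), (nat_lit 70),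
 (nat_lit 50), (nat_lit 62), (nat_lit 1), (45, 6, 47), [199856, 845079], 12⟩]

/-- Moves. -/
noncomputable def t1_4 : List Mv := [
  mz,
  mz,
  mz,
  mz,
  ⟨⟨51, 20, -47, 10, -47, -30, -2, 20, -47⟩, (.cons (nat_lit 935130) (nat_lit 2095481) (nat_lit 1906275)
 (nat_lit 1) (.cons (nat_lit 2854593) (nat_lit 775833) (nat_lit 7029246) (nat_lit 1) .nil)), (nat_lit 51),
 (nat_lit 68), (nat_lit 22), (nat_lit 1), (24, 39, 24), [362458, 3566787], 24⟩,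
  ⟨⟨51, -20, -47, 10, 47, -30, -2, -20, -47⟩, (.cons (nat_lit 2117880) (nat_lit 877621) (nat_lit 932911)
 (nat_lit 1) (.cons (nat_lit 2317390) (nat_lit 1858612) (nat_lit 2066768) (nat_lit 1) .nil)), (nat_lit 63),
 (nat_lit 49), (nat_lit 61), (nat_lit 1), (12, 46, 12), [1424175, 2513877], 14⟩,
  ⟨⟨25, -48, -36, 28, -5, 36, 40, 8, -47⟩, (.cons (nat_lit 547838) (nat_lit 2406370) (nat_lit 3256441) (nat_lit
 1) (.cons (nat_lit 4416162) (nat_lit 1396055) (nat_lit 5956047) (nat_lit 1) .nil)), (nat_lit 46), (nat_lit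
 16), (nat_lit 66), (nat_lit 1), (37, 16, 38), [2946199, 7462547], 67⟩,
  mz,
  mz,
  ⟨⟨57, -4, -17, 8, 45, -34, 24, -24, -49⟩, (.cons (nat_lit 3418800) (nat_lit 1962884) (nat_lit 2524142)
 (nat_lit 1) (.cons (nat_lit 6667805) (nat_lit 6061860) (nat_lit 7754634) (nat_lit 1) .nil)), (nat_lit 70),
 (nat_lit 37), (nat_lit 39), (nat_lit 1), (7, 14, 42), [3393929, 5776821], 65⟩,
  ⟨⟨-25, 48, -11, 28, -5, -64, -40, -8, -7⟩, (.cons (nat_lit 3056385) (nat_lit 3282269) (nat_lit 52848)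
 (nat_lit 1) (.cons (nat_lit 4802036) (nat_lit 4587043) (nat_lit 1307970) (nat_lit 1) .nil)), (nat_lit 25),
 (nat_lit 4), (nat_lit 10), (nat_lit 1), (52, 52, 9), [2967509, 6769220], 57⟩,
  ⟨⟨15, -32, 44, 50, 17, -30, 14, -44, -19⟩, (.cons (nat_lit 2911381) (nat_lit 285076) (nat_lit 1238725)
 (nat_lit 1) (.cons (nat_lit 6892726) (nat_lit 5526891) (nat_lit 446713) (nat_lit 1) .nil)), (nat_lit 8),
 (nat_lit 63), (nat_lit 65), (nat_lit 1), (29, 26, 20), [1613339, 3552138], 61⟩,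
  ⟨⟨-51, 20, 4, -10, -47, -20, 2, 20, -49⟩, (.cons (nat_lit 718392) (nat_lit 2947397) (nat_lit 755554) (nat_lit
 1) (.cons (nat_lit 2248305) (nat_lit 5550217) (nat_lit 4668296) (nat_lit 1) .nil)), (nat_lit 54), (nat_lit
 15), (nat_lit 4), (nat_lit 1), (48, 25, 48), [931735, 2207417], 34⟩,
  mz,
  mz,
  ⟨⟨-51, -20, 4, 10, -47, 20, 2, -20, -49⟩, (.cons (nat_lit 646567) (nat_lit 1323316) (nat_lit 3029374)
 (nat_lit 1) (.cons (nat_lit 333195) (nat_lit 7121621) (nat_lit 3271353) (nat_lit 1) .nil)), (nat_lit 25),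
 (nat_lit 51), (nat_lit 42), (nat_lit 1), (36, 21, 36), [2728150, 4265671], 21⟩,
  ⟨⟨15, 52, 16, -10, -17, 60, 46, 4, -11⟩, (.cons (nat_lit 172101) (nat_lit 65580) (nat_lit 2656900) (nat_lit
 1) (.cons (nat_lit 1989485) (nat_lit 1826592) (nat_lit 459400) (nat_lit 1) .nil)), (nat_lit 48), (nat_lit 43),
 (nat_lit 61), (nat_lit 1), (24, 37, 10), [2998901, 2498073], 58⟩,
  ⟨⟨15, 52, -31, -10, -17, -50, 46, 4, -35⟩, (.cons (nat_lit 3106355) (nat_lit 2265636) (nat_lit 224166)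
 (nat_lit 1) (.cons (nat_lit 4413771) (nat_lit 6475843) (nat_lit 3500688) (nat_lit 1) .nil)), (nat_lit 30),
 (nat_lit 52), (nat_lit 4), (nat_lit 1), (7, 13, 25), [2680169, 5110024], 62⟩,
  ⟨⟨33, -20, -65, 8, -45, 26, -24, -24, -25⟩, (.cons (nat_lit 968715) (nat_lit 1953329) (nat_lit 2874578)
 (nat_lit 1) (.cons (nat_lit 1848264) (nat_lit 2039880) (nat_lit 3805704) (nat_lit 1) .nil)), (nat_lit 19),
 (nat_lit 36), (nat_lit 15), (nat_lit 1), (7, 29, 19), [352640, 6242771], 6⟩,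
  mz,
  mz,
  ⟨⟨-33, 20, -32, 8, -45, -34, 24, 24, -49⟩, (.cons (nat_lit 2839974) (nat_lit 1812148) (nat_lit 2310072)
 (nat_lit 1) (.cons (nat_lit 1323067) (nat_lit 1259898) (nat_lit 7815040) (nat_lit 1) .nil)), (nat_lit 67),
 (nat_lit 63), (nat_lit 35), (nat_lit 1), (47, 40, 14), [2959298, 7336522], 69⟩,
  ⟨⟨45, 28, -49, 28, -45, -14, 0, 0, -53⟩, (.cons (nat_lit 3418800) (nat_lit 1216190) (nat_lit 523710) (nat_lit
 1) (.cons (nat_lit 3517226) (nat_lit 6386058) (nat_lit 1235851) (nat_lit 1) .nil)), (nat_lit 70), (nat_lit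
 61), (nat_lit 26), (nat_lit 1), (24, 22, 0), [960675, 4257688], 24⟩,
  mz,
  ⟨⟨-13, 48, -27, 30, -17, -60, 30, 36, -7⟩, (.cons (nat_lit 197261) (nat_lit 1446129) (nat_lit 867672)
 (nat_lit 1) (.cons (nat_lit 6610459) (nat_lit 6365867) (nat_lit 5197395) (nat_lit 1) .nil)), (nat_lit 0),
 (nat_lit 42), (nat_lit 47), (nat_lit 1), (11, 48, 48), [220616, 3534223], 39⟩,
  mz,
  ⟨⟨-25, -48, -11, 28, 5, -64, -40, 8, -7⟩, (.cons (nat_lit 300408) (nat_lit 1071978) (nat_lit 321485) (nat_lit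
 1) (.cons (nat_lit 6047124) (nat_lit 1824961) (nat_lit 1) (nat_lit 4001235) .nil)), (nat_lit 44), (nat_lit
 11), (nat_lit 43), (nat_lit 1), (2, 2, 35), [2798321, 351296], 17⟩,
  mz,
  ⟨⟨-1, -48, 37, 52, 5, -16, 8, -40, -31⟩, (.cons (nat_lit 213551) (nat_lit 2211076) (nat_lit 888558) (nat_lit
 1) (.cons (nat_lit 597646) (nat_lit 6142929) (nat_lit 2271106) (nat_lit 1) .nil)), (nat_lit 57), (nat_lit 57),
 (nat_lit 58), (nat_lit 1), (29, 29, 33), [1953718, 3950918], 22⟩,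
  ⟨⟨43, -12, -63, -30, 17, -30, 30, 36, -23⟩, (.cons (nat_lit 2427378) (nat_lit 70202) (nat_lit 1526039)
 (nat_lit 1) (.cons (nat_lit 615641) (nat_lit 5686034) (nat_lit 5103288) (nat_lit 1) .nil)), (nat_lit 3),
 (nat_lit 16), (nat_lit 1), (nat_lit 0), (16, 48, 5), [973862, 4237298], 4⟩,
  mz,
  ⟨⟨45, -28, -49, 28, 45, -14, 0, 0, -53⟩, (.cons (nat_lit 1161345) (nat_lit 441858) (nat_lit 205968) (nat_lit
 1) (.cons (nat_lit 684971) (nat_lit 5174550) (nat_lit 2796875) (nat_lit 1) .nil)), (nat_lit 1), (nat_lit 57),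
 (nat_lit 63), (nat_lit 1), (39, 49, 0), [3242304, 6405699], 61⟩,
  mz,
  ⟨⟨57, 8, -20, -10, 33, 50, 18, 36, -37⟩, (.cons (nat_lit 3418800) (nat_lit 19377) (nat_lit 1309718) (nat_lit
 1) (.cons (nat_lit 6819658) (nat_lit 5306599) (nat_lit 6662506) (nat_lit 1) .nil)), (nat_lit 70), (nat_lit
 25), (nat_lit 41), (nat_lit 1), (35, 45, 25), [42782, 7569091], 63⟩,
  mz,
  mz,
  ⟨⟨-9, 8, -59, 52, -5, -36, -8, -40, -23⟩, (.cons (nat_lit 192450) (nat_lit 2097715) (nat_lit 335375) (nat_lit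
 1) (.cons (nat_lit 3221663) (nat_lit 503522) (nat_lit 3478152) (nat_lit 1) .nil)), (nat_lit 54), (nat_lit 68),
 (nat_lit 28), (nat_lit 1), (2, 12, 43), [1225167, 990193], 1⟩,
  ⟨⟨9, -8, -68, -52, 5, 16, 8, 40, -31⟩, (.cons (nat_lit 576534) (nat_lit 515139) (nat_lit 3301551) (nat_lit 1)
 (.cons (nat_lit 4230101) (nat_lit 2867185) (nat_lit 2677752) (nat_lit 1) .nil)), (nat_lit 55), (nat_lit 7),
 (nat_lit 29), (nat_lit 1), (31, 27, 4), [1163891, 5465563], 37⟩,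
  ⟨⟨-57, 8, 37, -10, -33, -40, -18, 36, -19⟩, (.cons (nat_lit 1235447) (nat_lit 2906459) (nat_lit 1885386)
 (nat_lit 1) (.cons (nat_lit 130959) (nat_lit 4780167) (nat_lit 5329946) (nat_lit 1) .nil)), (nat_lit 41),
 (nat_lit 61), (nat_lit 26), (nat_lit 1), (40, 47, 21), [2117936, 101225], 22⟩,
  ⟨⟨15, -56, -11, -28, -5, -36, 40, -8, -47⟩, (.cons (nat_lit 90546) (nat_lit 1836924) (nat_lit 2431821)
 (nat_lit 1) (.cons (nat_lit 1275306) (nat_lit 3349324) (nat_lit 5008160) (nat_lit 1) .nil)), (nat_lit 57),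
 (nat_lit 8), (nat_lit 32), (nat_lit 1), (31, 34, 12), [596532, 6153873], 32⟩,
  ⟨⟨-9, -8, -59, 52, 5, -36, -8, 40, -23⟩, (.cons (nat_lit 2858435) (nat_lit 546142) (nat_lit 1422085) (nat_lit
 1) (.cons (nat_lit 7273294) (nat_lit 2172787) (nat_lit 2018632) (nat_lit 1) .nil)), (nat_lit 5), (nat_lit 46),
 (nat_lit 31), (nat_lit 1), (29, 15, 14), [753714, 7873025], 53⟩,
  ⟨⟨15, -52, -31, 10, -17, 50, 46, -4, -35⟩, (.cons (nat_lit 28353) (nat_lit 2522680) (nat_lit 2008871)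
 (nat_lit 1) (.cons (nat_lit 5789356) (nat_lit 363183) (nat_lit 919296) (nat_lit 1) .nil)), (nat_lit 59),
 (nat_lit 55), (nat_lit 9), (nat_lit 1), (50, 51, 12), [860257, 4857740], 33⟩,
  ⟨⟨-57, 4, 40, -8, -45, -26, -24, 24, -25⟩, (.cons (nat_lit 425825) (nat_lit 265612) (nat_lit 132844) (nat_lit
 1) (.cons (nat_lit 3048247) (nat_lit 509608) (nat_lit 406381) (nat_lit 1) .nil)), (nat_lit 64), (nat_lit 20),
 (nat_lit 19), (nat_lit 1), (25, 50, 44), [3029861, 6286556], 63⟩,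
  ⟨⟨15, 32, 44, 50, -17, -30, 14, 44, -19⟩, (.cons (nat_lit 1102098) (nat_lit 1615846) (nat_lit 2230563)
 (nat_lit 1) (.cons (nat_lit 5743835) (nat_lit 6837522) (nat_lit 6724131) (nat_lit 1) .nil)), (nat_lit 38),
 (nat_lit 68), (nat_lit 32), (nat_lit 1), (27, 37, 4), [916051, 929430], 2⟩,
  ⟨⟨-15, 32, 59, 50, 17, -20, -14, 44, -5⟩, (.cons (nat_lit 2047043) (nat_lit 1451686) (nat_lit 1552473)
 (nat_lit 1) (.cons (nat_lit 7281819) (nat_lit 7138151) (nat_lit 4780138) (nat_lit 1) .nil)), (nat_lit 48),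
 (nat_lit 15), (nat_lit 8), (nat_lit 1), (6, 33, 48), [1044174, 3977989], 18⟩,
  mz,
  ⟨⟨-13, -48, -27, 30, 17, -60, 30, -36, -7⟩, (.cons (nat_lit 313385) (nat_lit 1897701) (nat_lit 2253490)
 (nat_lit 1) (.cons (nat_lit 295719) (nat_lit 5096781) (nat_lit 4168007) (nat_lit 1) .nil)), (nat_lit 61),
 (nat_lit 36), (nat_lit 44), (nat_lit 1), (14, 37, 37), [1086747, 5049337], 8⟩,
  ⟨⟨-15, -32, 59, -50, 17, 20, -14, -44, -5⟩, (.cons (nat_lit 146693) (nat_lit 202817) (nat_lit 1397734)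
 (nat_lit 1) (.cons (nat_lit 6703577) (nat_lit 4314316) (nat_lit 255559) (nat_lit 1) .nil)), (nat_lit 57),
 (nat_lit 50), (nat_lit 52), (nat_lit 1), (8, 9, 11), [327510, 5002506], 50⟩,
  ⟨⟨15, -52, 16, 10, -17, -60, 46, -4, -11⟩, (.cons (nat_lit 278835) (nat_lit 1021818) (nat_lit 1897309)
 (nat_lit 1) (.cons (nat_lit 5321351) (nat_lit 6038442) (nat_lit 6456084) (nat_lit 1) .nil)), (nat_lit 8),
 (nat_lit 46), (nat_lit 35), (nat_lit 1), (14, 27, 50), [2520853, 5388467], 10⟩,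
  ⟨⟨-39, -28, -17, 10, 33, -50, 18, -36, -37⟩, (.cons (nat_lit 695741) (nat_lit 839713) (nat_lit 1233899)
 (nat_lit 1) (.cons (nat_lit 4568767) (nat_lit 2110641) (nat_lit 6640120) (nat_lit 1) .nil)), (nat_lit 16),
 (nat_lit 54), (nat_lit 57), (nat_lit 1), (5, 49, 14), [474029, 1703946], 20⟩,
  ⟨⟨-57, -8, 37, -10, 33, -40, -18, -36, -19⟩, (.cons (nat_lit 1876220) (nat_lit 3158771) (nat_lit 2465778)
 (nat_lit 1) (.cons (nat_lit 4426713) (nat_lit 1222364) (nat_lit 4618925) (nat_lit 1) .nil)), (nat_lit 40),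
 (nat_lit 41), (nat_lit 63), (nat_lit 1), (14, 35, 10), [3370810, 6796120], 50⟩,
  mz,
  ⟨⟨43, 12, -63, -30, -17, -30, 30, -36, -23⟩, (.cons (nat_lit 1107165) (nat_lit 1719558) (nat_lit 2560354)
 (nat_lit 1) (.cons (nat_lit 5288912) (nat_lit 3162638) (nat_lit 4737897) (nat_lit 1) .nil)), (nat_lit 7),
 (nat_lit 42), (nat_lit 2), (nat_lit 1), (2, 6, 47), [1615717, 3450906], 34⟩]

/-- Moves. -/
noncomputable def t1_6 : List Mv := [
  mz,
  mz,
  mz,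
  mz,
  ⟨⟨51, 20, -47, 10, -47, -30, -2, 20, -47⟩, (.cons (nat_lit 935130) (nat_lit 2095481) (nat_lit 1906275)
 (nat_lit 1) (.cons (nat_lit 2854593) (nat_lit 775833) (nat_lit 7029246) (nat_lit 1) .nil)), (nat_lit 51),
 (nat_lit 68), (nat_lit 22), (nat_lit 1), (24, 39, 24), [362458, 3566787], 24⟩,
  ⟨⟨-53, 0, 0, 10, 47, -30, -2, -20, -47⟩, (.cons (nat_lit 3418800) (nat_lit 443640) (nat_lit 2104704) (nat_lit
 1) (.cons (nat_lit 6412499) (nat_lit 2746593) (nat_lit 6016799) (nat_lit 1) .nil)), (nat_lit 70), (nat_lit 7),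
 (nat_lit 65), (nat_lit 1), (0, 46, 12), [2570641, 5555396], 43⟩,
  ⟨⟨15, 56, -11, 28, -5, 36, 40, 8, -47⟩, (.cons (nat_lit 983908) (nat_lit 1924289) (nat_lit 690545) (nat_lit
 1) (.cons (nat_lit 4741350) (nat_lit 6238019) (nat_lit 1261064) (nat_lit 1) .nil)), (nat_lit 54), (nat_lit
 22), (nat_lit 22), (nat_lit 1), (1, 16, 38), [1271607, 4829780], 1⟩,
  mz,
  mz,
  ⟨⟨-33, -20, -32, 8, 45, -34, 24, -24, -49⟩, (.cons (nat_lit 1040042) (nat_lit 1601343) (nat_lit 1126126)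
 (nat_lit 1) (.cons (nat_lit 3320803) (nat_lit 4389122) (nat_lit 1807882) (nat_lit 1) .nil)), (nat_lit 46),
 (nat_lit 52), (nat_lit 27), (nat_lit 1), (35, 14, 42), [880751, 3535963], 20⟩,
  ⟨⟨-25, 48, -11, 28, -5, -64, -40, -8, -7⟩, (.cons (nat_lit 3056385) (nat_lit 3282269) (nat_lit 52848)
 (nat_lit 1) (.cons (nat_lit 4802036) (nat_lit 4587043) (nat_lit 1307970) (nat_lit 1) .nil)), (nat_lit 25),
 (nat_lit 4), (nat_lit 10), (nat_lit 1), (52, 52, 9), [2967509, 6769220], 57⟩,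
  ⟨⟨15, -32, 44, 50, 17, -30, 14, -44, -19⟩, (.cons (nat_lit 2911381) (nat_lit 285076) (nat_lit 1238725)
 (nat_lit 1) (.cons (nat_lit 6892726) (nat_lit 5526891) (nat_lit 446713) (nat_lit 1) .nil)), (nat_lit 8),
 (nat_lit 63), (nat_lit 65), (nat_lit 1), (29, 26, 20), [1613339, 3552138], 61⟩,
  ⟨⟨53, 0, -53, -10, -47, -20, 2, 20, -49⟩, (.cons (nat_lit 1476543) (nat_lit 1426778) (nat_lit 1410616)
 (nat_lit 1) (.cons (nat_lit 5361064) (nat_lit 6078105) (nat_lit 3878160) (nat_lit 1) .nil)), (nat_lit 23),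
 (nat_lit 12), (nat_lit 54), (nat_lit 1), (0, 25, 48), [545122, 6804044], 32⟩,
  mz,
  mz,
  ⟨⟨-51, -20, 4, -10, 47, -20, 2, -20, -49⟩, (.cons (nat_lit 3418800) (nat_lit 3085972) (nat_lit 1294446)
 (nat_lit 1) (.cons (nat_lit 4314151) (nat_lit 6999064) (nat_lit 3443806) (nat_lit 1) .nil)), (nat_lit 70),
 (nat_lit 12), (nat_lit 24), (nat_lit 1), (36, 32, 36), [3070516, 989393], 19⟩,
  ⟨⟨31, -48, -27, -10, -17, 60, 46, 4, -11⟩, (.cons (nat_lit 3150681) (nat_lit 3409981) (nat_lit 1700193)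
 (nat_lit 1) (.cons (nat_lit 5349148) (nat_lit 6333821) (nat_lit 5884235) (nat_lit 1) .nil)), (nat_lit 48),
 (nat_lit 57), (nat_lit 32), (nat_lit 1), (39, 37, 10), [402647, 950374], 53⟩,
  ⟨⟨31, -48, -4, -10, -17, -50, 46, 4, -35⟩, (.cons (nat_lit 122171) (nat_lit 2250697) (nat_lit 1464028)
 (nat_lit 1) (.cons (nat_lit 2354198) (nat_lit 117428) (nat_lit 7130783) (nat_lit 1) .nil)), (nat_lit 53),
 (nat_lit 37), (nat_lit 52), (nat_lit 1), (18, 13, 25), [3139581, 2392756], 24⟩,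
  ⟨⟨-57, -4, 40, -8, 45, -26, -24, -24, -25⟩, (.cons (nat_lit 1683537) (nat_lit 2688767) (nat_lit 794082)
 (nat_lit 1) (.cons (nat_lit 2169052) (nat_lit 6191318) (nat_lit 2945743) (nat_lit 1) .nil)), (nat_lit 17),
 (nat_lit 39), (nat_lit 38), (nat_lit 1), (12, 24, 19), [121887, 4621735], 29⟩,
  mz,
  mz,
  ⟨⟨-33, 20, -32, 8, -45, -34, 24, 24, -49⟩, (.cons (nat_lit 2839974) (nat_lit 1812148) (nat_lit 2310072)
 (nat_lit 1) (.cons (nat_lit 1323067) (nat_lit 1259898) (nat_lit 7815040) (nat_lit 1) .nil)), (nat_lit 67),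
 (nat_lit 63), (nat_lit 35), (nat_lit 1), (47, 40, 14), [2959298, 7336522], 69⟩,
  ⟨⟨45, 28, -49, 28, -45, -14, 0, 0, -53⟩, (.cons (nat_lit 3418800) (nat_lit 1216190) (nat_lit 523710) (nat_lit
 1) (.cons (nat_lit 3517226) (nat_lit 6386058) (nat_lit 1235851) (nat_lit 1) .nil)), (nat_lit 70), (nat_lit
 61), (nat_lit 26), (nat_lit 1), (24, 22, 0), [960675, 4257688], 24⟩,
  mz,
  ⟨⟨-13, 48, -27, 30, -17, -60, 30, 36, -7⟩, (.cons (nat_lit 197261) (nat_lit 1446129) (nat_lit 867672)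
 (nat_lit 1) (.cons (nat_lit 6610459) (nat_lit 6365867) (nat_lit 5197395) (nat_lit 1) .nil)), (nat_lit 0),
 (nat_lit 42), (nat_lit 47), (nat_lit 1), (11, 48, 48), [220616, 3534223], 39⟩,
  mz,
  ⟨⟨-15, 56, 4, -28, -5, 64, -40, 8, -7⟩, (.cons (nat_lit 2026522) (nat_lit 333676) (nat_lit 890264) (nat_lit
 1) (.cons (nat_lit 3101088) (nat_lit 3879123) (nat_lit 5830533) (nat_lit 1) .nil)), (nat_lit 2), (nat_lit 5),
 (nat_lit 4), (nat_lit 1), (33, 51, 35), [1071786, 5808742], 31⟩,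
  mz,
  ⟨⟨9, 8, -68, -52, -5, 16, 8, -40, -31⟩, (.cons (nat_lit 792809) (nat_lit 3332374) (nat_lit 651045) (nat_lit
 1) (.cons (nat_lit 4749060) (nat_lit 5128561) (nat_lit 5583205) (nat_lit 1) .nil)), (nat_lit 46), (nat_lit
 62), (nat_lit 1), (nat_lit 1), (4, 24, 33), [1696834, 4606121], 67⟩,
  ⟨⟨43, -12, -63, 30, -17, 30, 30, 36, -23⟩, (.cons (nat_lit 2887236) (nat_lit 9005) (nat_lit 336271) (nat_lit
 1) (.cons (nat_lit 5409984) (nat_lit 7085583) (nat_lit 5096032) (nat_lit 1) .nil)), (nat_lit 7), (nat_lit 32),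
 (nat_lit 47), (nat_lit 1), (16, 5, 5), [2426009, 4158801], 34⟩,
  mz,
  ⟨⟨45, -28, -49, 28, 45, -14, 0, 0, -53⟩, (.cons (nat_lit 1161345) (nat_lit 441858) (nat_lit 205968) (nat_lit
 1) (.cons (nat_lit 684971) (nat_lit 5174550) (nat_lit 2796875) (nat_lit 1) .nil)), (nat_lit 1), (nat_lit 57),
 (nat_lit 63), (nat_lit 1), (39, 49, 0), [3242304, 6405699], 61⟩,
  mz,
  ⟨⟨57, 8, -20, -10, 33, 50, 18, 36, -37⟩, (.cons (nat_lit 3418800) (nat_lit 19377) (nat_lit 1309718) (nat_lit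
 1) (.cons (nat_lit 6819658) (nat_lit 5306599) (nat_lit 6662506) (nat_lit 1) .nil)), (nat_lit 70), (nat_lit
 25), (nat_lit 41), (nat_lit 1), (35, 45, 25), [42782, 7569091], 63⟩,
  mz,
  mz,
  ⟨⟨-9, 8, -59, 52, -5, -36, -8, -40, -23⟩, (.cons (nat_lit 192450) (nat_lit 2097715) (nat_lit 335375) (nat_lit
 1) (.cons (nat_lit 3221663) (nat_lit 503522) (nat_lit 3478152) (nat_lit 1) .nil)), (nat_lit 54), (nat_lit 68),
 (nat_lit 28), (nat_lit 1), (2, 12, 43), [1225167, 990193], 1⟩,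
  ⟨⟨9, -8, -68, -52, 5, 16, 8, 40, -31⟩, (.cons (nat_lit 576534) (nat_lit 515139) (nat_lit 3301551) (nat_lit 1)
 (.cons (nat_lit 4230101) (nat_lit 2867185) (nat_lit 2677752) (nat_lit 1) .nil)), (nat_lit 55), (nat_lit 7),
 (nat_lit 29), (nat_lit 1), (31, 27, 4), [1163891, 5465563], 37⟩,
  ⟨⟨39, 28, -56, -10, -33, -40, -18, 36, -19⟩, (.cons (nat_lit 1616270) (nat_lit 342793) (nat_lit 551569)
 (nat_lit 1) (.cons (nat_lit 367081) (nat_lit 2473977) (nat_lit 2424219) (nat_lit 1) .nil)), (nat_lit 63),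
 (nat_lit 9), (nat_lit 13), (nat_lit 1), (34, 47, 21), [1429506, 6130927], 49⟩,
  ⟨⟨25, 48, -36, 28, 5, 36, 40, -8, -47⟩, (.cons (nat_lit 2830204) (nat_lit 2300814) (nat_lit 2542318) (nat_lit
 1) (.cons (nat_lit 2010304) (nat_lit 2857557) (nat_lit 5963828) (nat_lit 1) .nil)), (nat_lit 7), (nat_lit 69),
 (nat_lit 16), (nat_lit 1), (34, 19, 12), [309613, 2783123], 8⟩,
  ⟨⟨-9, -8, -59, 52, 5, -36, -8, 40, -23⟩, (.cons (nat_lit 2858435) (nat_lit 546142) (nat_lit 1422085) (nat_lit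
 1) (.cons (nat_lit 7273294) (nat_lit 2172787) (nat_lit 2018632) (nat_lit 1) .nil)), (nat_lit 5), (nat_lit 46),
 (nat_lit 31), (nat_lit 1), (29, 15, 14), [753714, 7873025], 53⟩,
  ⟨⟨31, 48, -4, -10, 17, -50, 46, -4, -35⟩, (.cons (nat_lit 3172211) (nat_lit 2923479) (nat_lit 1003604)
 (nat_lit 1) (.cons (nat_lit 6883105) (nat_lit 570559) (nat_lit 2830267) (nat_lit 1) .nil)), (nat_lit 9),
 (nat_lit 1), (nat_lit 54), (nat_lit 1), (15, 2, 12), [3162612, 1037093], 42⟩,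
  ⟨⟨-57, 4, 40, -8, -45, -26, -24, 24, -25⟩, (.cons (nat_lit 425825) (nat_lit 265612) (nat_lit 132844) (nat_lit
 1) (.cons (nat_lit 3048247) (nat_lit 509608) (nat_lit 406381) (nat_lit 1) .nil)), (nat_lit 64), (nat_lit 20),
 (nat_lit 19), (nat_lit 1), (25, 50, 44), [3029861, 6286556], 63⟩,
  ⟨⟨15, 32, 44, 50, -17, -30, 14, 44, -19⟩, (.cons (nat_lit 1102098) (nat_lit 1615846) (nat_lit 2230563)
 (nat_lit 1) (.cons (nat_lit 5743835) (nat_lit 6837522) (nat_lit 6724131) (nat_lit 1) .nil)), (nat_lit 38),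
 (nat_lit 68), (nat_lit 32), (nat_lit 1), (27, 37, 4), [916051, 929430], 2⟩,
  ⟨⟨-15, 32, 59, -50, -17, 20, -14, 44, -5⟩, (.cons (nat_lit 2998339) (nat_lit 1230308) (nat_lit 1524541)
 (nat_lit 1) (.cons (nat_lit 6274735) (nat_lit 2636595) (nat_lit 6311292) (nat_lit 1) .nil)), (nat_lit 65),
 (nat_lit 46), (nat_lit 54), (nat_lit 1), (6, 20, 48), [1886002, 370295], 52⟩,
  mz,
  ⟨⟨-13, -48, -27, 30, 17, -60, 30, -36, -7⟩, (.cons (nat_lit 313385) (nat_lit 1897701) (nat_lit 2253490)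
 (nat_lit 1) (.cons (nat_lit 295719) (nat_lit 5096781) (nat_lit 4168007) (nat_lit 1) .nil)), (nat_lit 61),
 (nat_lit 36), (nat_lit 44), (nat_lit 1), (14, 37, 37), [1086747, 5049337], 8⟩,
  ⟨⟨-15, -32, 59, -50, 17, 20, -14, -44, -5⟩, (.cons (nat_lit 146693) (nat_lit 202817) (nat_lit 1397734)
 (nat_lit 1) (.cons (nat_lit 6703577) (nat_lit 4314316) (nat_lit 255559) (nat_lit 1) .nil)), (nat_lit 57),
 (nat_lit 50), (nat_lit 52), (nat_lit 1), (8, 9, 11), [327510, 5002506], 50⟩,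
  ⟨⟨15, -52, 16, -10, 17, 60, 46, -4, -11⟩, (.cons (nat_lit 1173263) (nat_lit 2580912) (nat_lit 1302076)
 (nat_lit 1) (.cons (nat_lit 2170015) (nat_lit 3086532) (nat_lit 6768730) (nat_lit 1) .nil)), (nat_lit 38),
 (nat_lit 15), (nat_lit 22), (nat_lit 1), (14, 26, 50), [1419752, 4754291], 69⟩,
  ⟨⟨-39, -28, -17, 10, 33, -50, 18, -36, -37⟩, (.cons (nat_lit 695741) (nat_lit 839713) (nat_lit 1233899)
 (nat_lit 1) (.cons (nat_lit 4568767) (nat_lit 2110641) (nat_lit 6640120) (nat_lit 1) .nil)), (nat_lit 16),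
 (nat_lit 54), (nat_lit 57), (nat_lit 1), (5, 49, 14), [474029, 1703946], 20⟩,
  ⟨⟨39, -28, -56, -10, 33, -40, -18, -36, -19⟩, (.cons (nat_lit 3418800) (nat_lit 1727362) (nat_lit 2679058)
 (nat_lit 1) (.cons (nat_lit 7091676) (nat_lit 4555332) (nat_lit 6612029) (nat_lit 1) .nil)), (nat_lit 70),
 (nat_lit 17), (nat_lit 6), (nat_lit 1), (49, 35, 10), [963025, 2147297], 63⟩,
  mz,
  ⟨⟨-13, -48, 40, 30, 17, 30, 30, -36, -23⟩, (.cons (nat_lit 1989977) (nat_lit 953564) (nat_lit 1220752)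
 (nat_lit 1) (.cons (nat_lit 5668415) (nat_lit 7659635) (nat_lit 3779191) (nat_lit 1) .nil)), (nat_lit 6),
 (nat_lit 3), (nat_lit 12), (nat_lit 1), (45, 47, 47), [214501, 2128245], 28⟩]

/-- Moves. -/
noncomputable def t1_7 : List Mv := [
  mz,
  mz,
  mz,
  mz,
  ⟨⟨51, 20, -47, 10, -47, -30, -2, 20, -47⟩, (.cons (nat_lit 935130) (nat_lit 2095481) (nat_lit 1906275)
 (nat_lit 1) (.cons (nat_lit 2854593) (nat_lit 775833) (nat_lit 7029246) (nat_lit 1) .nil)), (nat_lit 51),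
 (nat_lit 68), (nat_lit 22), (nat_lit 1), (24, 39, 24), [362458, 3566787], 24⟩,
  ⟨⟨51, -20, -47, -10, -47, 30, -2, -20, -47⟩, (.cons (nat_lit 644809) (nat_lit 53698) (nat_lit 951308)
 (nat_lit 1) (.cons (nat_lit 7706101) (nat_lit 1363439) (nat_lit 7460656) (nat_lit 1) .nil)), (nat_lit 34),
 (nat_lit 18), (nat_lit 10), (nat_lit 1), (12, 7, 12), [14635, 6069444], 1⟩,
  ⟨⟨15, 56, -11, -28, 5, -36, 40, 8, -47⟩, (.cons (nat_lit 742319) (nat_lit 1609244) (nat_lit 2628530) (nat_lit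
 1) (.cons (nat_lit 3836980) (nat_lit 7095884) (nat_lit 3223543) (nat_lit 1) .nil)), (nat_lit 5), (nat_lit 70),
 (nat_lit 65), (nat_lit 1), (1, 37, 38), [2691079, 2289031], 53⟩,
  mz,
  mz,
  ⟨⟨-33, -20, -32, -8, -45, 34, 24, -24, -49⟩, (.cons (nat_lit 1726353) (nat_lit 3192288) (nat_lit 951949)
 (nat_lit 1) (.cons (nat_lit 3228686) (nat_lit 4341650) (nat_lit 1924880) (nat_lit 1) .nil)), (nat_lit 10),
 (nat_lit 13), (nat_lit 23), (nat_lit 1), (35, 39, 42), [104745, 4305531], 52⟩,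
  ⟨⟨-15, -56, 4, 28, -5, -64, -40, -8, -7⟩, (.cons (nat_lit 3084316) (nat_lit 846161) (nat_lit 838329) (nat_lit
 1) (.cons (nat_lit 6209136) (nat_lit 6278616) (nat_lit 4208059) (nat_lit 1) .nil)), (nat_lit 17), (nat_lit
 11), (nat_lit 54), (nat_lit 1), (10, 52, 9), [2037376, 1829011], 51⟩,
  ⟨⟨-1, -12, -63, 50, 17, -30, 14, -44, -19⟩, (.cons (nat_lit 533005) (nat_lit 252725) (nat_lit 3373503)
 (nat_lit 1) (.cons (nat_lit 2880189) (nat_lit 4791484) (nat_lit 6498483) (nat_lit 1) .nil)), (nat_lit 37),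
 (nat_lit 21), (nat_lit 23), (nat_lit 1), (44, 26, 20), [111435, 2231212], 5⟩,
  ⟨⟨-51, 20, 4, 10, 47, 20, 2, 20, -49⟩, (.cons (nat_lit 3418800) (nat_lit 2269539) (nat_lit 915107) (nat_lit
 1) (.cons (nat_lit 833274) (nat_lit 5718228) (nat_lit 726984) (nat_lit 1) .nil)), (nat_lit 70), (nat_lit 46),
 (nat_lit 67), (nat_lit 1), (48, 28, 48), [496794, 1031367], 43⟩,
  mz,
  mz,
  ⟨⟨-51, -20, 4, -10, 47, -20, 2, -20, -49⟩, (.cons (nat_lit 3418800) (nat_lit 3085972) (nat_lit 1294446)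
 (nat_lit 1) (.cons (nat_lit 4314151) (nat_lit 6999064) (nat_lit 3443806) (nat_lit 1) .nil)), (nat_lit 70),
 (nat_lit 12), (nat_lit 24), (nat_lit 1), (36, 32, 36), [3070516, 989393], 19⟩,
  ⟨⟨15, 52, 16, 10, 17, -60, 46, 4, -11⟩, (.cons (nat_lit 3050834) (nat_lit 2896135) (nat_lit 366621) (nat_lit
 1) (.cons (nat_lit 1251332) (nat_lit 4266202) (nat_lit 7253833) (nat_lit 1) .nil)), (nat_lit 67), (nat_lit
 62), (nat_lit 27), (nat_lit 1), (24, 16, 10), [1409584, 6928554], 42⟩,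
  ⟨⟨31, -48, -4, -10, -17, -50, 46, 4, -35⟩, (.cons (nat_lit 122171) (nat_lit 2250697) (nat_lit 1464028)
 (nat_lit 1) (.cons (nat_lit 2354198) (nat_lit 117428) (nat_lit 7130783) (nat_lit 1) .nil)), (nat_lit 53),
 (nat_lit 37), (nat_lit 52), (nat_lit 1), (18, 13, 25), [3139581, 2392756], 24⟩,
  ⟨⟨-57, -4, 40, -8, 45, -26, -24, -24, -25⟩, (.cons (nat_lit 1683537) (nat_lit 2688767) (nat_lit 794082)
 (nat_lit 1) (.cons (nat_lit 2169052) (nat_lit 6191318) (nat_lit 2945743) (nat_lit 1) .nil)), (nat_lit 17),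
 (nat_lit 39), (nat_lit 38), (nat_lit 1), (12, 24, 19), [121887, 4621735], 29⟩,
  mz,
  mz,
  ⟨⟨57, 4, -17, -8, 45, 34, 24, 24, -49⟩, (.cons (nat_lit 3418800) (nat_lit 2095858) (nat_lit 3313068) (nat_lit
 1) (.cons (nat_lit 6006157) (nat_lit 2974286) (nat_lit 286010) (nat_lit 1) .nil)), (nat_lit 70), (nat_lit 2),
 (nat_lit 36), (nat_lit 1), (20, 13, 14), [1984389, 4666574], 35⟩,
  ⟨⟨45, 28, -49, -28, 45, 14, 0, 0, -53⟩, (.cons (nat_lit 60846) (nat_lit 159196) (nat_lit 995538) (nat_lit 1)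
 (.cons (nat_lit 7123905) (nat_lit 6710926) (nat_lit 2613675) (nat_lit 1) .nil)), (nat_lit 1), (nat_lit 14),
 (nat_lit 8), (nat_lit 1), (24, 31, 0), [2921782, 3978752], 61⟩,
  mz,
  ⟨⟨43, -12, 20, -30, 17, 60, 30, 36, -7⟩, (.cons (nat_lit 3418800) (nat_lit 2314592) (nat_lit 2764809)
 (nat_lit 1) (.cons (nat_lit 5219495) (nat_lit 2438619) (nat_lit 6792882) (nat_lit 1) .nil)), (nat_lit 70),
 (nat_lit 3), (nat_lit 0), (nat_lit 1), (37, 5, 48), [3388795, 1640987], 53⟩,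
  mz,
  ⟨⟨-25, -48, -11, 28, 5, -64, -40, 8, -7⟩, (.cons (nat_lit 300408) (nat_lit 1071978) (nat_lit 321485) (nat_lit
 1) (.cons (nat_lit 6047124) (nat_lit 1824961) (nat_lit 1) (nat_lit 4001235) .nil)), (nat_lit 44), (nat_lit
 11), (nat_lit 43), (nat_lit 1), (2, 2, 35), [2798321, 351296], 17⟩,
  mz,
  ⟨⟨-1, -48, 37, 52, 5, -16, 8, -40, -31⟩, (.cons (nat_lit 213551) (nat_lit 2211076) (nat_lit 888558) (nat_lit
 1) (.cons (nat_lit 597646) (nat_lit 6142929) (nat_lit 2271106) (nat_lit 1) .nil)), (nat_lit 57), (nat_lit 57),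
 (nat_lit 58), (nat_lit 1), (29, 29, 33), [1953718, 3950918], 22⟩,
  ⟨⟨-13, 48, 40, -30, 17, -30, 30, 36, -23⟩, (.cons (nat_lit 863283) (nat_lit 408173) (nat_lit 1215837)
 (nat_lit 1) (.cons (nat_lit 6321929) (nat_lit 1558013) (nat_lit 7284761) (nat_lit 1) .nil)), (nat_lit 12),
 (nat_lit 35), (nat_lit 69), (nat_lit 1), (42, 48, 5), [665208, 7133235], 56⟩,
  mz,
  ⟨⟨45, -28, -49, -28, -45, 14, 0, 0, -53⟩, (.cons (nat_lit 3418800) (nat_lit 524192) (nat_lit 3033637)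
 (nat_lit 1) (.cons (nat_lit 2234232) (nat_lit 2938693) (nat_lit 581137) (nat_lit 1) .nil)), (nat_lit 70),
 (nat_lit 31), (nat_lit 33), (nat_lit 1), (39, 4, 0), [752856, 3146007], 43⟩,
  mz,
  ⟨⟨-39, 28, -17, 10, -33, -50, 18, 36, -37⟩, (.cons (nat_lit 1816463) (nat_lit 1396121) (nat_lit 2702585)
 (nat_lit 1) (.cons (nat_lit 5420005) (nat_lit 7422346) (nat_lit 1619287) (nat_lit 1) .nil)), (nat_lit 5),
 (nat_lit 59), (nat_lit 17), (nat_lit 1), (43, 8, 25), [3389618, 3950882], 70⟩,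
  mz,
  mz,
  ⟨⟨-9, 8, -59, 52, -5, -36, -8, -40, -23⟩, (.cons (nat_lit 192450) (nat_lit 2097715) (nat_lit 335375) (nat_lit
 1) (.cons (nat_lit 3221663) (nat_lit 503522) (nat_lit 3478152) (nat_lit 1) .nil)), (nat_lit 54), (nat_lit 68),
 (nat_lit 28), (nat_lit 1), (2, 12, 43), [1225167, 990193], 1⟩,
  ⟨⟨9, -8, -68, 52, -5, -16, 8, 40, -31⟩, (.cons (nat_lit 605753) (nat_lit 1114694) (nat_lit 1580948) (nat_lit
 1) (.cons (nat_lit 3853792) (nat_lit 5427618) (nat_lit 4472134) (nat_lit 1) .nil)), (nat_lit 36), (nat_lit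
 33), (nat_lit 69), (nat_lit 1), (31, 26, 4), [3400777, 2090618], 61⟩,
  ⟨⟨39, 28, -56, -10, -33, -40, -18, 36, -19⟩, (.cons (nat_lit 1616270) (nat_lit 342793) (nat_lit 551569)
 (nat_lit 1) (.cons (nat_lit 367081) (nat_lit 2473977) (nat_lit 2424219) (nat_lit 1) .nil)), (nat_lit 63),
 (nat_lit 9), (nat_lit 13), (nat_lit 1), (34, 47, 21), [1429506, 6130927], 49⟩,
  ⟨⟨15, -56, -11, -28, -5, -36, 40, -8, -47⟩, (.cons (nat_lit 90546) (nat_lit 1836924) (nat_lit 2431821)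
 (nat_lit 1) (.cons (nat_lit 1275306) (nat_lit 3349324) (nat_lit 5008160) (nat_lit 1) .nil)), (nat_lit 57),
 (nat_lit 8), (nat_lit 32), (nat_lit 1), (31, 34, 12), [596532, 6153873], 32⟩,
  ⟨⟨1, 48, 36, 52, 5, -36, -8, 40, -23⟩, (.cons (nat_lit 2681513) (nat_lit 1359446) (nat_lit 1366916) (nat_lit
 1) (.cons (nat_lit 5098725) (nat_lit 4445558) (nat_lit 3273820) (nat_lit 1) .nil)), (nat_lit 61), (nat_lit
 51), (nat_lit 18), (nat_lit 1), (38, 15, 14), [3402858, 1159260], 19⟩,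
  ⟨⟨15, -52, -31, -10, 17, -50, 46, -4, -35⟩, (.cons (nat_lit 196538) (nat_lit 1972114) (nat_lit 3071861)
 (nat_lit 1) (.cons (nat_lit 7606593) (nat_lit 4515899) (nat_lit 3382746) (nat_lit 1) .nil)), (nat_lit 5),
 (nat_lit 34), (nat_lit 24), (nat_lit 1), (50, 2, 12), [503492, 5244040], 43⟩,
  ⟨⟨-57, 4, 40, -8, -45, -26, -24, 24, -25⟩, (.cons (nat_lit 425825) (nat_lit 265612) (nat_lit 132844) (nat_lit
 1) (.cons (nat_lit 3048247) (nat_lit 509608) (nat_lit 406381) (nat_lit 1) .nil)), (nat_lit 64), (nat_lit 20),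
 (nat_lit 19), (nat_lit 1), (25, 50, 44), [3029861, 6286556], 63⟩,
  ⟨⟨15, 32, 44, 50, -17, -30, 14, 44, -19⟩, (.cons (nat_lit 1102098) (nat_lit 1615846) (nat_lit 2230563)
 (nat_lit 1) (.cons (nat_lit 5743835) (nat_lit 6837522) (nat_lit 6724131) (nat_lit 1) .nil)), (nat_lit 38),
 (nat_lit 68), (nat_lit 32), (nat_lit 1), (27, 37, 4), [916051, 929430], 2⟩,
  ⟨⟨1, 12, -64, 50, 17, -20, -14, 44, -5⟩, (.cons (nat_lit 581160) (nat_lit 2566019) (nat_lit 1856483) (nat_lit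
 1) (.cons (nat_lit 3921349) (nat_lit 5467283) (nat_lit 1937577) (nat_lit 1) .nil)), (nat_lit 9), (nat_lit 12),
 (nat_lit 40), (nat_lit 1), (42, 33, 48), [2596904, 7291164], 42⟩,
  mz,
  ⟨⟨-13, -48, -27, 30, 17, -60, 30, -36, -7⟩, (.cons (nat_lit 313385) (nat_lit 1897701) (nat_lit 2253490)
 (nat_lit 1) (.cons (nat_lit 295719) (nat_lit 5096781) (nat_lit 4168007) (nat_lit 1) .nil)), (nat_lit 61),
 (nat_lit 36), (nat_lit 44), (nat_lit 1), (14, 37, 37), [1086747, 5049337], 8⟩,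
  ⟨⟨1, -12, -64, 50, -17, -20, -14, -44, -5⟩, (.cons (nat_lit 1909915) (nat_lit 465748) (nat_lit 1876666)
 (nat_lit 1) (.cons (nat_lit 7293500) (nat_lit 4977554) (nat_lit 2242767) (nat_lit 1) .nil)), (nat_lit 43),
 (nat_lit 65), (nat_lit 48), (nat_lit 1), (3, 44, 11), [2145785, 5412787], 6⟩,
  ⟨⟨15, -52, 16, 10, -17, -60, 46, -4, -11⟩, (.cons (nat_lit 278835) (nat_lit 1021818) (nat_lit 1897309)
 (nat_lit 1) (.cons (nat_lit 5321351) (nat_lit 6038442) (nat_lit 6456084) (nat_lit 1) .nil)), (nat_lit 8),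
 (nat_lit 46), (nat_lit 35), (nat_lit 1), (14, 27, 50), [2520853, 5388467], 10⟩,
  ⟨⟨-39, -28, -17, -10, -33, 50, 18, -36, -37⟩, (.cons (nat_lit 905018) (nat_lit 427730) (nat_lit 1636948)
 (nat_lit 1) (.cons (nat_lit 2299278) (nat_lit 1622573) (nat_lit 5438872) (nat_lit 1) .nil)), (nat_lit 26),
 (nat_lit 47), (nat_lit 34), (nat_lit 1), (5, 4, 14), [1652960, 6003067], 33⟩,
  ⟨⟨39, -28, -56, 10, -33, 40, -18, -36, -19⟩, (.cons (nat_lit 254821) (nat_lit 2929298) (nat_lit 2382563)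
 (nat_lit 1) (.cons (nat_lit 4653340) (nat_lit 4814268) (nat_lit 7475230) (nat_lit 1) .nil)), (nat_lit 62),
 (nat_lit 10), (nat_lit 46), (nat_lit 1), (49, 18, 10), [1136186, 1988448], 64⟩,
  mz,
  ⟨⟨-13, -48, 40, 30, 17, 30, 30, -36, -23⟩, (.cons (nat_lit 1989977) (nat_lit 953564) (nat_lit 1220752)
 (nat_lit 1) (.cons (nat_lit 5668415) (nat_lit 7659635) (nat_lit 3779191) (nat_lit 1) .nil)), (nat_lit 6),
 (nat_lit 3), (nat_lit 12), (nat_lit 1), (45, 47, 47), [214501, 2128245], 28⟩]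

/-- Moves. -/
noncomputable def t1_9 : List Mv := [
  mz,
  mz,
  mz,
  mz,
  ⟨⟨51, 20, -47, 10, -47, -30, -2, 20, -47⟩, (.cons (nat_lit 935130) (nat_lit 2095481) (nat_lit 1906275)
 (nat_lit 1) (.cons (nat_lit 2854593) (nat_lit 775833) (nat_lit 7029246) (nat_lit 1) .nil)), (nat_lit 51),
 (nat_lit 68), (nat_lit 22), (nat_lit 1), (24, 39, 24), [362458, 3566787], 24⟩,
  ⟨⟨51, -20, -47, 10, 47, -30, -2, -20, -47⟩, (.cons (nat_lit 2117880) (nat_lit 877621) (nat_lit 932911)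
 (nat_lit 1) (.cons (nat_lit 2317390) (nat_lit 1858612) (nat_lit 2066768) (nat_lit 1) .nil)), (nat_lit 63),
 (nat_lit 49), (nat_lit 61), (nat_lit 1), (12, 46, 12), [1424175, 2513877], 14⟩,
  ⟨⟨25, -48, -36, 28, -5, 36, 40, 8, -47⟩, (.cons (nat_lit 547838) (nat_lit 2406370) (nat_lit 3256441) (nat_lit
 1) (.cons (nat_lit 4416162) (nat_lit 1396055) (nat_lit 5956047) (nat_lit 1) .nil)), (nat_lit 46), (nat_lit
 16), (nat_lit 66), (nat_lit 1), (37, 16, 38), [2946199, 7462547], 67⟩,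
  mz,
  mz,
  ⟨⟨57, -4, -17, 8, 45, -34, 24, -24, -49⟩, (.cons (nat_lit 3418800) (nat_lit 1962884) (nat_lit 2524142)
 (nat_lit 1) (.cons (nat_lit 6667805) (nat_lit 6061860) (nat_lit 7754634) (nat_lit 1) .nil)), (nat_lit 70),
 (nat_lit 37), (nat_lit 39), (nat_lit 1), (7, 14, 42), [3393929, 5776821], 65⟩,
  ⟨⟨-25, 48, -11, 28, -5, -64, -40, -8, -7⟩, (.cons (nat_lit 3056385) (nat_lit 3282269) (nat_lit 52848)
 (nat_lit 1) (.cons (nat_lit 4802036) (nat_lit 4587043) (nat_lit 1307970) (nat_lit 1) .nil)), (nat_lit 25),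
 (nat_lit 4), (nat_lit 10), (nat_lit 1), (52, 52, 9), [2967509, 6769220], 57⟩,
  ⟨⟨15, -32, 44, 50, 17, -30, 14, -44, -19⟩, (.cons (nat_lit 2911381) (nat_lit 285076) (nat_lit 1238725)
 (nat_lit 1) (.cons (nat_lit 6892726) (nat_lit 5526891) (nat_lit 446713) (nat_lit 1) .nil)), (nat_lit 8),
 (nat_lit 63), (nat_lit 65), (nat_lit 1), (29, 26, 20), [1613339, 3552138], 61⟩,
  ⟨⟨-51, 20, 4, -10, -47, -20, 2, 20, -49⟩, (.cons (nat_lit 718392) (nat_lit 2947397) (nat_lit 755554) (nat_lit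
 1) (.cons (nat_lit 2248305) (nat_lit 5550217) (nat_lit 4668296) (nat_lit 1) .nil)), (nat_lit 54), (nat_lit
 15), (nat_lit 4), (nat_lit 1), (48, 25, 48), [931735, 2207417], 34⟩,
  mz,
  mz,
  ⟨⟨-51, -20, 4, -10, 47, -20, 2, -20, -49⟩, (.cons (nat_lit 3418800) (nat_lit 3085972) (nat_lit 1294446)
 (nat_lit 1) (.cons (nat_lit 4314151) (nat_lit 6999064) (nat_lit 3443806) (nat_lit 1) .nil)), (nat_lit 70),
 (nat_lit 12), (nat_lit 24), (nat_lit 1), (36, 32, 36), [3070516, 989393], 19⟩,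
  ⟨⟨15, 52, 16, 10, 17, -60, 46, 4, -11⟩, (.cons (nat_lit 3050834) (nat_lit 2896135) (nat_lit 366621) (nat_lit
 1) (.cons (nat_lit 1251332) (nat_lit 4266202) (nat_lit 7253833) (nat_lit 1) .nil)), (nat_lit 67), (nat_lit
 62), (nat_lit 27), (nat_lit 1), (24, 16, 10), [1409584, 6928554], 42⟩,
  ⟨⟨31, -48, -4, -10, -17, -50, 46, 4, -35⟩, (.cons (nat_lit 122171) (nat_lit 2250697) (nat_lit 1464028)
 (nat_lit 1) (.cons (nat_lit 2354198) (nat_lit 117428) (nat_lit 7130783) (nat_lit 1) .nil)), (nat_lit 53),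
 (nat_lit 37), (nat_lit 52), (nat_lit 1), (18, 13, 25), [3139581, 2392756], 24⟩,
  ⟨⟨33, -20, -65, -8, 45, -26, -24, -24, -25⟩, (.cons (nat_lit 3418800) (nat_lit 1130622) (nat_lit 613052)
 (nat_lit 1) (.cons (nat_lit 3749577) (nat_lit 5680641) (nat_lit 1961753) (nat_lit 1) .nil)), (nat_lit 70),
 (nat_lit 8), (nat_lit 9), (nat_lit 1), (7, 24, 19), [2194229, 400480], 35⟩,
  mz,
  mz,
  ⟨⟨57, 4, -17, 8, -45, -34, 24, 24, -49⟩, (.cons (nat_lit 2175073) (nat_lit 3016709) (nat_lit 1623018)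
 (nat_lit 1) (.cons (nat_lit 5940701) (nat_lit 7028726) (nat_lit 14108) (nat_lit 1) .nil)), (nat_lit 15),
 (nat_lit 21), (nat_lit 55), (nat_lit 1), (20, 40, 14), [3298826, 4349020], 1⟩,
  ⟨⟨45, 28, -49, -28, 45, 14, 0, 0, -53⟩, (.cons (nat_lit 60846) (nat_lit 159196) (nat_lit 995538) (nat_lit 1)
 (.cons (nat_lit 7123905) (nat_lit 6710926) (nat_lit 2613675) (nat_lit 1) .nil)), (nat_lit 1), (nat_lit 14),
 (nat_lit 8), (nat_lit 1), (24, 31, 0), [2921782, 3978752], 61⟩,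
  mz,
  ⟨⟨43, -12, 20, 30, -17, -60, 30, 36, -7⟩, (.cons (nat_lit 664072) (nat_lit 2816117) (nat_lit 2319180)
 (nat_lit 1) (.cons (nat_lit 3317421) (nat_lit 6085341) (nat_lit 1862883) (nat_lit 1) .nil)), (nat_lit 6),
 (nat_lit 50), (nat_lit 49), (nat_lit 1), (37, 48, 48), [1652000, 2743461], 43⟩,
  mz,
  ⟨⟨-25, -48, -11, 28, 5, -64, -40, 8, -7⟩, (.cons (nat_lit 300408) (nat_lit 1071978) (nat_lit 321485) (nat_lit
 1) (.cons (nat_lit 6047124) (nat_lit 1824961) (nat_lit 1) (nat_lit 4001235) .nil)), (nat_lit 44), (nat_lit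
 11), (nat_lit 43), (nat_lit 1), (2, 2, 35), [2798321, 351296], 17⟩,
  mz,
  ⟨⟨-1, -48, 37, 52, 5, -16, 8, -40, -31⟩, (.cons (nat_lit 213551) (nat_lit 2211076) (nat_lit 888558) (nat_lit
 1) (.cons (nat_lit 597646) (nat_lit 6142929) (nat_lit 2271106) (nat_lit 1) .nil)), (nat_lit 57), (nat_lit 57),
 (nat_lit 58), (nat_lit 1), (29, 29, 33), [1953718, 3950918], 22⟩,
  ⟨⟨-13, 48, 40, -30, 17, -30, 30, 36, -23⟩, (.cons (nat_lit 863283) (nat_lit 408173) (nat_lit 1215837)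
 (nat_lit 1) (.cons (nat_lit 6321929) (nat_lit 1558013) (nat_lit 7284761) (nat_lit 1) .nil)), (nat_lit 12),
 (nat_lit 35), (nat_lit 69), (nat_lit 1), (42, 48, 5), [665208, 7133235], 56⟩,
  mz,
  ⟨⟨45, -28, -49, -28, -45, 14, 0, 0, -53⟩, (.cons (nat_lit 3418800) (nat_lit 524192) (nat_lit 3033637)
 (nat_lit 1) (.cons (nat_lit 2234232) (nat_lit 2938693) (nat_lit 581137) (nat_lit 1) .nil)), (nat_lit 70),
 (nat_lit 31), (nat_lit 33), (nat_lit 1), (39, 4, 0), [752856, 3146007], 43⟩,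
  mz,
  ⟨⟨57, 8, -20, 10, -33, -50, 18, 36, -37⟩, (.cons (nat_lit 2774045) (nat_lit 3151129) (nat_lit 2995888)
 (nat_lit 1) (.cons (nat_lit 4141351) (nat_lit 618491) (nat_lit 2075537) (nat_lit 1) .nil)), (nat_lit 63),
 (nat_lit 66), (nat_lit 5), (nat_lit 1), (35, 8, 25), [840449, 5540574], 49⟩,
  mz,
  mz,
  ⟨⟨-9, 8, -59, 52, -5, -36, -8, -40, -23⟩, (.cons (nat_lit 192450) (nat_lit 2097715) (nat_lit 335375) (nat_lit
 1) (.cons (nat_lit 3221663) (nat_lit 503522) (nat_lit 3478152) (nat_lit 1) .nil)), (nat_lit 54), (nat_lit 68),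
 (nat_lit 28), (nat_lit 1), (2, 12, 43), [1225167, 990193], 1⟩,
  ⟨⟨-1, 48, 37, 52, -5, -16, 8, 40, -31⟩, (.cons (nat_lit 2245233) (nat_lit 1830204) (nat_lit 2087918) (nat_lit
 1) (.cons (nat_lit 5119050) (nat_lit 6142234) (nat_lit 3161272) (nat_lit 1) .nil)), (nat_lit 25), (nat_lit
 18), (nat_lit 18), (nat_lit 1), (26, 26, 4), [1839490, 7145290], 57⟩,
  ⟨⟨39, 28, -56, -10, -33, -40, -18, 36, -19⟩, (.cons (nat_lit 1616270) (nat_lit 342793) (nat_lit 551569)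
 (nat_lit 1) (.cons (nat_lit 367081) (nat_lit 2473977) (nat_lit 2424219) (nat_lit 1) .nil)), (nat_lit 63),
 (nat_lit 9), (nat_lit 13), (nat_lit 1), (34, 47, 21), [1429506, 6130927], 49⟩,
  ⟨⟨25, 48, -36, 28, 5, 36, 40, -8, -47⟩, (.cons (nat_lit 2830204) (nat_lit 2300814) (nat_lit 2542318) (nat_lit
 1) (.cons (nat_lit 2010304) (nat_lit 2857557) (nat_lit 5963828) (nat_lit 1) .nil)), (nat_lit 7), (nat_lit 69),
 (nat_lit 16), (nat_lit 1), (34, 19, 12), [309613, 2783123], 8⟩,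
  ⟨⟨-9, -8, -59, 52, 5, -36, -8, 40, -23⟩, (.cons (nat_lit 2858435) (nat_lit 546142) (nat_lit 1422085) (nat_lit
 1) (.cons (nat_lit 7273294) (nat_lit 2172787) (nat_lit 2018632) (nat_lit 1) .nil)), (nat_lit 5), (nat_lit 46),
 (nat_lit 31), (nat_lit 1), (29, 15, 14), [753714, 7873025], 53⟩,
  ⟨⟨31, 48, -4, -10, 17, -50, 46, -4, -35⟩, (.cons (nat_lit 3172211) (nat_lit 2923479) (nat_lit 1003604)
 (nat_lit 1) (.cons (nat_lit 6883105) (nat_lit 570559) (nat_lit 2830267) (nat_lit 1) .nil)), (nat_lit 9),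
 (nat_lit 1), (nat_lit 54), (nat_lit 1), (15, 2, 12), [3162612, 1037093], 42⟩,
  ⟨⟨33, 20, -65, -8, -45, -26, -24, 24, -25⟩, (.cons (nat_lit 2066068) (nat_lit 2843675) (nat_lit 2520677)
 (nat_lit 1) (.cons (nat_lit 7597119) (nat_lit 572061) (nat_lit 7322141) (nat_lit 1) .nil)), (nat_lit 15),
 (nat_lit 28), (nat_lit 59), (nat_lit 1), (19, 50, 44), [2877082, 5476254], 1⟩,
  ⟨⟨15, 32, 44, 50, -17, -30, 14, 44, -19⟩, (.cons (nat_lit 1102098) (nat_lit 1615846) (nat_lit 2230563)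
 (nat_lit 1) (.cons (nat_lit 5743835) (nat_lit 6837522) (nat_lit 6724131) (nat_lit 1) .nil)), (nat_lit 38),
 (nat_lit 68), (nat_lit 32), (nat_lit 1), (27, 37, 4), [916051, 929430], 2⟩,
  ⟨⟨-15, 32, 59, 50, 17, -20, -14, 44, -5⟩, (.cons (nat_lit 2047043) (nat_lit 1451686) (nat_lit 1552473)
 (nat_lit 1) (.cons (nat_lit 7281819) (nat_lit 7138151) (nat_lit 4780138) (nat_lit 1) .nil)), (nat_lit 48),
 (nat_lit 15), (nat_lit 8), (nat_lit 1), (6, 33, 48), [1044174, 3977989], 18⟩,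
  mz,
  ⟨⟨43, 12, 20, 30, 17, -60, 30, -36, -7⟩, (.cons (nat_lit 3418800) (nat_lit 1961205) (nat_lit 301075) (nat_lit
 1) (.cons (nat_lit 3895227) (nat_lit 4908199) (nat_lit 84680) (nat_lit 1) .nil)), (nat_lit 70), (nat_lit 69),
 (nat_lit 12), (nat_lit 1), (23, 37, 37), [1637964, 7090380], 59⟩,
  ⟨⟨-15, -32, 59, 50, -17, -20, -14, -44, -5⟩, (.cons (nat_lit 2537145) (nat_lit 1875344) (nat_lit 3250688)
 (nat_lit 1) (.cons (nat_lit 6142849) (nat_lit 705668) (nat_lit 5444970) (nat_lit 1) .nil)), (nat_lit 45),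
 (nat_lit 3), (nat_lit 33), (nat_lit 1), (8, 44, 11), [2033211, 2100313], 22⟩,
  ⟨⟨15, -52, 16, 10, -17, -60, 46, -4, -11⟩, (.cons (nat_lit 278835) (nat_lit 1021818) (nat_lit 1897309)
 (nat_lit 1) (.cons (nat_lit 5321351) (nat_lit 6038442) (nat_lit 6456084) (nat_lit 1) .nil)), (nat_lit 8),
 (nat_lit 46), (nat_lit 35), (nat_lit 1), (14, 27, 50), [2520853, 5388467], 10⟩,
  ⟨⟨57, -8, -20, 10, 33, -50, 18, -36, -37⟩, (.cons (nat_lit 3418800) (nat_lit 1485555) (nat_lit 3142712)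
 (nat_lit 1) (.cons (nat_lit 131123) (nat_lit 493885) (nat_lit 3545342) (nat_lit 1) .nil)), (nat_lit 70),
 (nat_lit 48), (nat_lit 64), (nat_lit 1), (9, 49, 14), [1794602, 6573356], 66⟩,
  ⟨⟨39, -28, -56, -10, 33, -40, -18, -36, -19⟩, (.cons (nat_lit 3418800) (nat_lit 1727362) (nat_lit 2679058)
 (nat_lit 1) (.cons (nat_lit 7091676) (nat_lit 4555332) (nat_lit 6612029) (nat_lit 1) .nil)), (nat_lit 70),
 (nat_lit 17), (nat_lit 6), (nat_lit 1), (49, 35, 10), [963025, 2147297], 63⟩,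
  mz,
  ⟨⟨-13, -48, 40, -30, -17, -30, 30, -36, -23⟩, (.cons (nat_lit 3418800) (nat_lit 1320800) (nat_lit 1151545)
 (nat_lit 1) (.cons (nat_lit 1126856) (nat_lit 428430) (nat_lit 5332572) (nat_lit 1) .nil)), (nat_lit 70),
 (nat_lit 50), (nat_lit 62), (nat_lit 1), (45, 6, 47), [199856, 845079], 12⟩]

/-- Moves. -/
noncomputable def t1_10 : List Mv := [
  mz,
  mz,
  mz,
  mz,
  ⟨⟨-53, 0, 0, 10, -47, -30, -2, 20, -47⟩, (.cons (nat_lit 2838507) (nat_lit 2683625) (nat_lit 648439) (nat_lit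
 1) (.cons (nat_lit 2753566) (nat_lit 382075) (nat_lit 3033848) (nat_lit 1) .nil)), (nat_lit 54), (nat_lit 64),
 (nat_lit 32), (nat_lit 1), (0, 39, 24), [2483089, 3609729], 34⟩,
  ⟨⟨51, -20, -47, 10, 47, -30, -2, -20, -47⟩, (.cons (nat_lit 2117880) (nat_lit 877621) (nat_lit 932911)
 (nat_lit 1) (.cons (nat_lit 2317390) (nat_lit 1858612) (nat_lit 2066768) (nat_lit 1) .nil)), (nat_lit 63),
 (nat_lit 49), (nat_lit 61), (nat_lit 1), (12, 46, 12), [1424175, 2513877], 14⟩,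
  ⟨⟨15, 56, -11, -28, 5, -36, 40, 8, -47⟩, (.cons (nat_lit 742319) (nat_lit 1609244) (nat_lit 2628530) (nat_lit
 1) (.cons (nat_lit 3836980) (nat_lit 7095884) (nat_lit 3223543) (nat_lit 1) .nil)), (nat_lit 5), (nat_lit 70),
 (nat_lit 65), (nat_lit 1), (1, 37, 38), [2691079, 2289031], 53⟩,
  mz,
  mz,
  ⟨⟨-33, -20, -32, -8, -45, 34, 24, -24, -49⟩, (.cons (nat_lit 1726353) (nat_lit 3192288) (nat_lit 951949)
 (nat_lit 1) (.cons (nat_lit 3228686) (nat_lit 4341650) (nat_lit 1924880) (nat_lit 1) .nil)), (nat_lit 10),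
 (nat_lit 13), (nat_lit 23), (nat_lit 1), (35, 39, 42), [104745, 4305531], 52⟩,
  ⟨⟨-15, -56, 4, -28, 5, 64, -40, -8, -7⟩, (.cons (nat_lit 2082606) (nat_lit 1856770) (nat_lit 1110876)
 (nat_lit 1) (.cons (nat_lit 5520281) (nat_lit 2707339) (nat_lit 5903063) (nat_lit 1) .nil)), (nat_lit 31),
 (nat_lit 67), (nat_lit 24), (nat_lit 1), (10, 1, 9), [3372245, 6101311], 57⟩,
  ⟨⟨-1, -12, -63, -50, -17, 30, 14, -44, -19⟩, (.cons (nat_lit 2377572) (nat_lit 1157317) (nat_lit 2937442)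
 (nat_lit 1) (.cons (nat_lit 1700006) (nat_lit 2752419) (nat_lit 7499727) (nat_lit 1) .nil)), (nat_lit 59),
 (nat_lit 2), (nat_lit 70), (nat_lit 1), (44, 27, 20), [1829778, 7359735], 33⟩,
  ⟨⟨-51, 20, 4, -10, -47, -20, 2, 20, -49⟩, (.cons (nat_lit 718392) (nat_lit 2947397) (nat_lit 755554) (nat_lit
 1) (.cons (nat_lit 2248305) (nat_lit 5550217) (nat_lit 4668296) (nat_lit 1) .nil)), (nat_lit 54), (nat_lit
 15), (nat_lit 4), (nat_lit 1), (48, 25, 48), [931735, 2207417], 34⟩,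
  mz,
  mz,
  ⟨⟨-51, -20, 4, -10, 47, -20, 2, -20, -49⟩, (.cons (nat_lit 3418800) (nat_lit 3085972) (nat_lit 1294446)
 (nat_lit 1) (.cons (nat_lit 4314151) (nat_lit 6999064) (nat_lit 3443806) (nat_lit 1) .nil)), (nat_lit 70),
 (nat_lit 12), (nat_lit 24), (nat_lit 1), (36, 32, 36), [3070516, 989393], 19⟩,
  ⟨⟨15, 52, 16, 10, 17, -60, 46, 4, -11⟩, (.cons (nat_lit 3050834) (nat_lit 2896135) (nat_lit 366621) (nat_lit
 1) (.cons (nat_lit 1251332) (nat_lit 4266202) (nat_lit 7253833) (nat_lit 1) .nil)), (nat_lit 67), (nat_lit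
 62), (nat_lit 27), (nat_lit 1), (24, 16, 10), [1409584, 6928554], 42⟩,
  ⟨⟨31, -48, -4, -10, -17, -50, 46, 4, -35⟩, (.cons (nat_lit 122171) (nat_lit 2250697) (nat_lit 1464028)
 (nat_lit 1) (.cons (nat_lit 2354198) (nat_lit 117428) (nat_lit 7130783) (nat_lit 1) .nil)), (nat_lit 53),
 (nat_lit 37), (nat_lit 52), (nat_lit 1), (18, 13, 25), [3139581, 2392756], 24⟩,
  ⟨⟨33, -20, -65, -8, 45, -26, -24, -24, -25⟩, (.cons (nat_lit 3418800) (nat_lit 1130622) (nat_lit 613052)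
 (nat_lit 1) (.cons (nat_lit 3749577) (nat_lit 5680641) (nat_lit 1961753) (nat_lit 1) .nil)), (nat_lit 70),
 (nat_lit 8), (nat_lit 9), (nat_lit 1), (7, 24, 19), [2194229, 400480], 35⟩,
  mz,
  mz,
  ⟨⟨-33, 20, -32, 8, -45, -34, 24, 24, -49⟩, (.cons (nat_lit 2839974) (nat_lit 1812148) (nat_lit 2310072)
 (nat_lit 1) (.cons (nat_lit 1323067) (nat_lit 1259898) (nat_lit 7815040) (nat_lit 1) .nil)), (nat_lit 67),
 (nat_lit 63), (nat_lit 35), (nat_lit 1), (47, 40, 14), [2959298, 7336522], 69⟩,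
  ⟨⟨45, 28, -49, 28, -45, -14, 0, 0, -53⟩, (.cons (nat_lit 3418800) (nat_lit 1216190) (nat_lit 523710) (nat_lit
 1) (.cons (nat_lit 3517226) (nat_lit 6386058) (nat_lit 1235851) (nat_lit 1) .nil)), (nat_lit 70), (nat_lit
 61), (nat_lit 26), (nat_lit 1), (24, 22, 0), [960675, 4257688], 24⟩,
  mz,
  ⟨⟨-13, 48, -27, 30, -17, -60, 30, 36, -7⟩, (.cons (nat_lit 197261) (nat_lit 1446129) (nat_lit 867672)
 (nat_lit 1) (.cons (nat_lit 6610459) (nat_lit 6365867) (nat_lit 5197395) (nat_lit 1) .nil)), (nat_lit 0),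
 (nat_lit 42), (nat_lit 47), (nat_lit 1), (11, 48, 48), [220616, 3534223], 39⟩,
  mz,
  ⟨⟨-25, -48, -11, 28, 5, -64, -40, 8, -7⟩, (.cons (nat_lit 300408) (nat_lit 1071978) (nat_lit 321485) (nat_lit
 1) (.cons (nat_lit 6047124) (nat_lit 1824961) (nat_lit 1) (nat_lit 4001235) .nil)), (nat_lit 44), (nat_lit
 11), (nat_lit 43), (nat_lit 1), (2, 2, 35), [2798321, 351296], 17⟩,
  mz,
  ⟨⟨-1, -48, 37, 52, 5, -16, 8, -40, -31⟩, (.cons (nat_lit 213551) (nat_lit 2211076) (nat_lit 888558) (nat_lit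
 1) (.cons (nat_lit 597646) (nat_lit 6142929) (nat_lit 2271106) (nat_lit 1) .nil)), (nat_lit 57), (nat_lit 57),
 (nat_lit 58), (nat_lit 1), (29, 29, 33), [1953718, 3950918], 22⟩,
  ⟨⟨-13, 48, 40, -30, 17, -30, 30, 36, -23⟩, (.cons (nat_lit 863283) (nat_lit 408173) (nat_lit 1215837)
 (nat_lit 1) (.cons (nat_lit 6321929) (nat_lit 1558013) (nat_lit 7284761) (nat_lit 1) .nil)), (nat_lit 12),
 (nat_lit 35), (nat_lit 69), (nat_lit 1), (42, 48, 5), [665208, 7133235], 56⟩,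
  mz,
  ⟨⟨45, -28, -49, 28, 45, -14, 0, 0, -53⟩, (.cons (nat_lit 1161345) (nat_lit 441858) (nat_lit 205968) (nat_lit
 1) (.cons (nat_lit 684971) (nat_lit 5174550) (nat_lit 2796875) (nat_lit 1) .nil)), (nat_lit 1), (nat_lit 57),
 (nat_lit 63), (nat_lit 1), (39, 49, 0), [3242304, 6405699], 61⟩,
  mz,
  ⟨⟨-39, 28, -17, -10, 33, 50, 18, 36, -37⟩, (.cons (nat_lit 1523233) (nat_lit 1750288) (nat_lit 743279)
 (nat_lit 1) (.cons (nat_lit 3800503) (nat_lit 4022867) (nat_lit 3293273) (nat_lit 1) .nil)), (nat_lit 16),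
 (nat_lit 60), (nat_lit 30), (nat_lit 1), (43, 45, 25), [313897, 6183128], 20⟩,
  mz,
  mz,
  ⟨⟨-9, 8, -59, 52, -5, -36, -8, -40, -23⟩, (.cons (nat_lit 192450) (nat_lit 2097715) (nat_lit 335375) (nat_lit
 1) (.cons (nat_lit 3221663) (nat_lit 503522) (nat_lit 3478152) (nat_lit 1) .nil)), (nat_lit 54), (nat_lit 68),
 (nat_lit 28), (nat_lit 1), (2, 12, 43), [1225167, 990193], 1⟩,
  ⟨⟨-1, 48, 37, 52, -5, -16, 8, 40, -31⟩, (.cons (nat_lit 2245233) (nat_lit 1830204) (nat_lit 2087918) (nat_lit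
 1) (.cons (nat_lit 5119050) (nat_lit 6142234) (nat_lit 3161272) (nat_lit 1) .nil)), (nat_lit 25), (nat_lit
 18), (nat_lit 18), (nat_lit 1), (26, 26, 4), [1839490, 7145290], 57⟩,
  ⟨⟨39, 28, -56, -10, -33, -40, -18, 36, -19⟩, (.cons (nat_lit 1616270) (nat_lit 342793) (nat_lit 551569)
 (nat_lit 1) (.cons (nat_lit 367081) (nat_lit 2473977) (nat_lit 2424219) (nat_lit 1) .nil)), (nat_lit 63),
 (nat_lit 9), (nat_lit 13), (nat_lit 1), (34, 47, 21), [1429506, 6130927], 49⟩,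
  ⟨⟨15, -56, -11, -28, -5, -36, 40, -8, -47⟩, (.cons (nat_lit 90546) (nat_lit 1836924) (nat_lit 2431821)
 (nat_lit 1) (.cons (nat_lit 1275306) (nat_lit 3349324) (nat_lit 5008160) (nat_lit 1) .nil)), (nat_lit 57),
 (nat_lit 8), (nat_lit 32), (nat_lit 1), (31, 34, 12), [596532, 6153873], 32⟩,
  ⟨⟨-9, -8, -59, 52, 5, -36, -8, 40, -23⟩, (.cons (nat_lit 2858435) (nat_lit 546142) (nat_lit 1422085) (nat_lit
 1) (.cons (nat_lit 7273294) (nat_lit 2172787) (nat_lit 2018632) (nat_lit 1) .nil)), (nat_lit 5), (nat_lit 46),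
 (nat_lit 31), (nat_lit 1), (29, 15, 14), [753714, 7873025], 53⟩,
  ⟨⟨31, 48, -4, 10, -17, 50, 46, -4, -35⟩, (.cons (nat_lit 2910267) (nat_lit 390613) (nat_lit 3397255) (nat_lit
 1) (.cons (nat_lit 5459221) (nat_lit 4971832) (nat_lit 2718332) (nat_lit 1) .nil)), (nat_lit 43), (nat_lit
 58), (nat_lit 44), (nat_lit 1), (15, 51, 12), [1840829, 7458632], 6⟩,
  ⟨⟨33, 20, -65, -8, -45, -26, -24, 24, -25⟩, (.cons (nat_lit 2066068) (nat_lit 2843675) (nat_lit 2520677)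
 (nat_lit 1) (.cons (nat_lit 7597119) (nat_lit 572061) (nat_lit 7322141) (nat_lit 1) .nil)), (nat_lit 15),
 (nat_lit 28), (nat_lit 59), (nat_lit 1), (19, 50, 44), [2877082, 5476254], 1⟩,
  ⟨⟨15, 32, 44, 50, -17, -30, 14, 44, -19⟩, (.cons (nat_lit 1102098) (nat_lit 1615846) (nat_lit 2230563)
 (nat_lit 1) (.cons (nat_lit 5743835) (nat_lit 6837522) (nat_lit 6724131) (nat_lit 1) .nil)), (nat_lit 38),
 (nat_lit 68), (nat_lit 32), (nat_lit 1), (27, 37, 4), [916051, 929430], 2⟩,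
  ⟨⟨1, 12, -64, 50, 17, -20, -14, 44, -5⟩, (.cons (nat_lit 581160) (nat_lit 2566019) (nat_lit 1856483) (nat_lit
 1) (.cons (nat_lit 3921349) (nat_lit 5467283) (nat_lit 1937577) (nat_lit 1) .nil)), (nat_lit 9), (nat_lit 12),
 (nat_lit 40), (nat_lit 1), (42, 33, 48), [2596904, 7291164], 42⟩,
  mz,
  ⟨⟨43, 12, 20, 30, 17, -60, 30, -36, -7⟩, (.cons (nat_lit 3418800) (nat_lit 1961205) (nat_lit 301075) (nat_lit
 1) (.cons (nat_lit 3895227) (nat_lit 4908199) (nat_lit 84680) (nat_lit 1) .nil)), (nat_lit 70), (nat_lit 69),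
 (nat_lit 12), (nat_lit 1), (23, 37, 37), [1637964, 7090380], 59⟩,
  ⟨⟨-15, -32, 59, 50, -17, -20, -14, -44, -5⟩, (.cons (nat_lit 2537145) (nat_lit 1875344) (nat_lit 3250688)
 (nat_lit 1) (.cons (nat_lit 6142849) (nat_lit 705668) (nat_lit 5444970) (nat_lit 1) .nil)), (nat_lit 45),
 (nat_lit 3), (nat_lit 33), (nat_lit 1), (8, 44, 11), [2033211, 2100313], 22⟩,
  ⟨⟨15, -52, 16, 10, -17, -60, 46, -4, -11⟩, (.cons (nat_lit 278835) (nat_lit 1021818) (nat_lit 1897309)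
 (nat_lit 1) (.cons (nat_lit 5321351) (nat_lit 6038442) (nat_lit 6456084) (nat_lit 1) .nil)), (nat_lit 8),
 (nat_lit 46), (nat_lit 35), (nat_lit 1), (14, 27, 50), [2520853, 5388467], 10⟩,
  ⟨⟨-39, -28, -17, 10, 33, -50, 18, -36, -37⟩, (.cons (nat_lit 695741) (nat_lit 839713) (nat_lit 1233899)
 (nat_lit 1) (.cons (nat_lit 4568767) (nat_lit 2110641) (nat_lit 6640120) (nat_lit 1) .nil)), (nat_lit 16),
 (nat_lit 54), (nat_lit 57), (nat_lit 1), (5, 49, 14), [474029, 1703946], 20⟩,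
  ⟨⟨-57, -8, 37, 10, -33, 40, -18, -36, -19⟩, (.cons (nat_lit 1171102) (nat_lit 457296) (nat_lit 190294)
 (nat_lit 1) (.cons (nat_lit 858253) (nat_lit 4042554) (nat_lit 5866219) (nat_lit 1) .nil)), (nat_lit 57),
 (nat_lit 45), (nat_lit 25), (nat_lit 1), (14, 18, 10), [3312846, 4870256], 17⟩,
  mz,
  ⟨⟨43, 12, -63, -30, -17, -30, 30, -36, -23⟩, (.cons (nat_lit 1107165) (nat_lit 1719558) (nat_lit 2560354)
 (nat_lit 1) (.cons (nat_lit 5288912) (nat_lit 3162638) (nat_lit 4737897) (nat_lit 1) .nil)), (nat_lit 7),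
 (nat_lit 42), (nat_lit 2), (nat_lit 1), (2, 6, 47), [1615717, 3450906], 34⟩]

/-- Moves. -/
noncomputable def t1_17 : List Mv := [
  mz,
  mz,
  mz,
  mz,
  ⟨⟨51, 20, -47, 10, -47, -30, -2, 20, -47⟩, (.cons (nat_lit 935130) (nat_lit 2095481) (nat_lit 1906275)
 (nat_lit 1) (.cons (nat_lit 2854593) (nat_lit 775833) (nat_lit 7029246) (nat_lit 1) .nil)), (nat_lit 51),
 (nat_lit 68), (nat_lit 22), (nat_lit 1), (24, 39, 24), [362458, 3566787], 24⟩,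
  ⟨⟨-53, 0, 0, 10, 47, -30, -2, -20, -47⟩, (.cons (nat_lit 3418800) (nat_lit 443640) (nat_lit 2104704) (nat_lit
 1) (.cons (nat_lit 6412499) (nat_lit 2746593) (nat_lit 6016799) (nat_lit 1) .nil)), (nat_lit 70), (nat_lit 7),
 (nat_lit 65), (nat_lit 1), (0, 46, 12), [2570641, 5555396], 43⟩,
  ⟨⟨15, 56, -11, -28, 5, -36, 40, 8, -47⟩, (.cons (nat_lit 742319) (nat_lit 1609244) (nat_lit 2628530) (nat_lit
 1) (.cons (nat_lit 3836980) (nat_lit 7095884) (nat_lit 3223543) (nat_lit 1) .nil)), (nat_lit 5), (nat_lit 70),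
 (nat_lit 65), (nat_lit 1), (1, 37, 38), [2691079, 2289031], 53⟩,
  mz,
  mz,
  ⟨⟨-33, -20, -32, 8, 45, -34, 24, -24, -49⟩, (.cons (nat_lit 1040042) (nat_lit 1601343) (nat_lit 1126126)
 (nat_lit 1) (.cons (nat_lit 3320803) (nat_lit 4389122) (nat_lit 1807882) (nat_lit 1) .nil)), (nat_lit 46),
 (nat_lit 52), (nat_lit 27), (nat_lit 1), (35, 14, 42), [880751, 3535963], 20⟩,
  ⟨⟨-15, -56, 4, -28, 5, 64, -40, -8, -7⟩, (.cons (nat_lit 2082606) (nat_lit 1856770) (nat_lit 1110876)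
 (nat_lit 1) (.cons (nat_lit 5520281) (nat_lit 2707339) (nat_lit 5903063) (nat_lit 1) .nil)), (nat_lit 31),
 (nat_lit 67), (nat_lit 24), (nat_lit 1), (10, 1, 9), [3372245, 6101311], 57⟩,
  ⟨⟨15, -32, 44, 50, 17, -30, 14, -44, -19⟩, (.cons (nat_lit 2911381) (nat_lit 285076) (nat_lit 1238725)
 (nat_lit 1) (.cons (nat_lit 6892726) (nat_lit 5526891) (nat_lit 446713) (nat_lit 1) .nil)), (nat_lit 8),
 (nat_lit 63), (nat_lit 65), (nat_lit 1), (29, 26, 20), [1613339, 3552138], 61⟩,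
  ⟨⟨-51, 20, 4, 10, 47, 20, 2, 20, -49⟩, (.cons (nat_lit 3418800) (nat_lit 2269539) (nat_lit 915107) (nat_lit
 1) (.cons (nat_lit 833274) (nat_lit 5718228) (nat_lit 726984) (nat_lit 1) .nil)), (nat_lit 70), (nat_lit 46),
 (nat_lit 67), (nat_lit 1), (48, 28, 48), [496794, 1031367], 43⟩,
  mz,
  mz,
  ⟨⟨53, 0, -53, 10, -47, 20, 2, -20, -49⟩, (.cons (nat_lit 2136651) (nat_lit 1497484) (nat_lit 2305942)
 (nat_lit 1) (.cons (nat_lit 6906545) (nat_lit 5716892) (nat_lit 113886) (nat_lit 1) .nil)), (nat_lit 39),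
 (nat_lit 46), (nat_lit 65), (nat_lit 1), (0, 21, 36), [333781, 202986], 10⟩,
  ⟨⟨15, 52, 16, 10, 17, -60, 46, 4, -11⟩, (.cons (nat_lit 3050834) (nat_lit 2896135) (nat_lit 366621) (nat_lit
 1) (.cons (nat_lit 1251332) (nat_lit 4266202) (nat_lit 7253833) (nat_lit 1) .nil)), (nat_lit 67), (nat_lit
 62), (nat_lit 27), (nat_lit 1), (24, 16, 10), [1409584, 6928554], 42⟩,
  ⟨⟨15, 52, -31, 10, 17, 50, 46, 4, -35⟩, (.cons (nat_lit 3268579) (nat_lit 114905) (nat_lit 2088791) (nat_lit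
 1) (.cons (nat_lit 6062022) (nat_lit 1902273) (nat_lit 4866373) (nat_lit 1) .nil)), (nat_lit 37), (nat_lit
 13), (nat_lit 59), (nat_lit 1), (7, 40, 25), [2716719, 3638760], 5⟩,
  ⟨⟨-57, -4, 40, -8, 45, -26, -24, -24, -25⟩, (.cons (nat_lit 1683537) (nat_lit 2688767) (nat_lit 794082)
 (nat_lit 1) (.cons (nat_lit 2169052) (nat_lit 6191318) (nat_lit 2945743) (nat_lit 1) .nil)), (nat_lit 17),
 (nat_lit 39), (nat_lit 38), (nat_lit 1), (12, 24, 19), [121887, 4621735], 29⟩,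
  mz,
  mz,
  ⟨⟨-33, 20, -32, 8, -45, -34, 24, 24, -49⟩, (.cons (nat_lit 2839974) (nat_lit 1812148) (nat_lit 2310072)
 (nat_lit 1) (.cons (nat_lit 1323067) (nat_lit 1259898) (nat_lit 7815040) (nat_lit 1) .nil)), (nat_lit 67),
 (nat_lit 63), (nat_lit 35), (nat_lit 1), (47, 40, 14), [2959298, 7336522], 69⟩,
  ⟨⟨45, 28, -49, 28, -45, -14, 0, 0, -53⟩, (.cons (nat_lit 3418800) (nat_lit 1216190) (nat_lit 523710) (nat_lit
 1) (.cons (nat_lit 3517226) (nat_lit 6386058) (nat_lit 1235851) (nat_lit 1) .nil)), (nat_lit 70), (nat_lit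
 61), (nat_lit 26), (nat_lit 1), (24, 22, 0), [960675, 4257688], 24⟩,
  mz,
  ⟨⟨43, -12, 20, -30, 17, 60, 30, 36, -7⟩, (.cons (nat_lit 3418800) (nat_lit 2314592) (nat_lit 2764809)
 (nat_lit 1) (.cons (nat_lit 5219495) (nat_lit 2438619) (nat_lit 6792882) (nat_lit 1) .nil)), (nat_lit 70),
 (nat_lit 3), (nat_lit 0), (nat_lit 1), (37, 5, 48), [3388795, 1640987], 53⟩,
  mz,
  ⟨⟨-15, 56, 4, -28, -5, 64, -40, 8, -7⟩, (.cons (nat_lit 2026522) (nat_lit 333676) (nat_lit 890264) (nat_lit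
 1) (.cons (nat_lit 3101088) (nat_lit 3879123) (nat_lit 5830533) (nat_lit 1) .nil)), (nat_lit 2), (nat_lit 5),
 (nat_lit 4), (nat_lit 1), (33, 51, 35), [1071786, 5808742], 31⟩,
  mz,
  ⟨⟨-1, -48, 37, 52, 5, -16, 8, -40, -31⟩, (.cons (nat_lit 213551) (nat_lit 2211076) (nat_lit 888558) (nat_lit
 1) (.cons (nat_lit 597646) (nat_lit 6142929) (nat_lit 2271106) (nat_lit 1) .nil)), (nat_lit 57), (nat_lit 57),
 (nat_lit 58), (nat_lit 1), (29, 29, 33), [1953718, 3950918], 22⟩,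
  ⟨⟨43, -12, -63, -30, 17, -30, 30, 36, -23⟩, (.cons (nat_lit 2427378) (nat_lit 70202) (nat_lit 1526039)
 (nat_lit 1) (.cons (nat_lit 615641) (nat_lit 5686034) (nat_lit 5103288) (nat_lit 1) .nil)), (nat_lit 3),
 (nat_lit 16), (nat_lit 1), (nat_lit 0), (16, 48, 5), [973862, 4237298], 4⟩,
  mz,
  ⟨⟨-45, 28, -4, -28, -45, 14, 0, 0, -53⟩, (.cons (nat_lit 435634) (nat_lit 1143563) (nat_lit 2376511) (nat_lit
 1) (.cons (nat_lit 3655600) (nat_lit 5887883) (nat_lit 2285624) (nat_lit 1) .nil)), (nat_lit 1), (nat_lit 62),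
 (nat_lit 5), (nat_lit 1), (14, 4, 0), [116714, 7307019], 47⟩,
  mz,
  ⟨⟨-39, 28, -17, 10, -33, -50, 18, 36, -37⟩, (.cons (nat_lit 1816463) (nat_lit 1396121) (nat_lit 2702585)
 (nat_lit 1) (.cons (nat_lit 5420005) (nat_lit 7422346) (nat_lit 1619287) (nat_lit 1) .nil)), (nat_lit 5),
 (nat_lit 59), (nat_lit 17), (nat_lit 1), (43, 8, 25), [3389618, 3950882], 70⟩,
  mz,
  mz,
  ⟨⟨-9, 8, -59, 52, -5, -36, -8, -40, -23⟩, (.cons (nat_lit 192450) (nat_lit 2097715) (nat_lit 335375) (nat_lit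
 1) (.cons (nat_lit 3221663) (nat_lit 503522) (nat_lit 3478152) (nat_lit 1) .nil)), (nat_lit 54), (nat_lit 68),
 (nat_lit 28), (nat_lit 1), (2, 12, 43), [1225167, 990193], 1⟩,
  ⟨⟨9, -8, -68, 52, -5, -16, 8, 40, -31⟩, (.cons (nat_lit 605753) (nat_lit 1114694) (nat_lit 1580948) (nat_lit
 1) (.cons (nat_lit 3853792) (nat_lit 5427618) (nat_lit 4472134) (nat_lit 1) .nil)), (nat_lit 36), (nat_lit
 33), (nat_lit 69), (nat_lit 1), (31, 26, 4), [3400777, 2090618], 61⟩,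
  ⟨⟨39, 28, -56, -10, -33, -40, -18, 36, -19⟩, (.cons (nat_lit 1616270) (nat_lit 342793) (nat_lit 551569)
 (nat_lit 1) (.cons (nat_lit 367081) (nat_lit 2473977) (nat_lit 2424219) (nat_lit 1) .nil)), (nat_lit 63),
 (nat_lit 9), (nat_lit 13), (nat_lit 1), (34, 47, 21), [1429506, 6130927], 49⟩,
  ⟨⟨15, -56, -11, -28, -5, -36, 40, -8, -47⟩, (.cons (nat_lit 90546) (nat_lit 1836924) (nat_lit 2431821)
 (nat_lit 1) (.cons (nat_lit 1275306) (nat_lit 3349324) (nat_lit 5008160) (nat_lit 1) .nil)), (nat_lit 57),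
 (nat_lit 8), (nat_lit 32), (nat_lit 1), (31, 34, 12), [596532, 6153873], 32⟩,
  ⟨⟨1, 48, 36, 52, 5, -36, -8, 40, -23⟩, (.cons (nat_lit 2681513) (nat_lit 1359446) (nat_lit 1366916) (nat_lit
 1) (.cons (nat_lit 5098725) (nat_lit 4445558) (nat_lit 3273820) (nat_lit 1) .nil)), (nat_lit 61), (nat_lit
 51), (nat_lit 18), (nat_lit 1), (38, 15, 14), [3402858, 1159260], 19⟩,
  ⟨⟨15, -52, -31, -10, 17, -50, 46, -4, -35⟩, (.cons (nat_lit 196538) (nat_lit 1972114) (nat_lit 3071861)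
 (nat_lit 1) (.cons (nat_lit 7606593) (nat_lit 4515899) (nat_lit 3382746) (nat_lit 1) .nil)), (nat_lit 5),
 (nat_lit 34), (nat_lit 24), (nat_lit 1), (50, 2, 12), [503492, 5244040], 43⟩,
  ⟨⟨-57, 4, 40, -8, -45, -26, -24, 24, -25⟩, (.cons (nat_lit 425825) (nat_lit 265612) (nat_lit 132844) (nat_lit
 1) (.cons (nat_lit 3048247) (nat_lit 509608) (nat_lit 406381) (nat_lit 1) .nil)), (nat_lit 64), (nat_lit 20),
 (nat_lit 19), (nat_lit 1), (25, 50, 44), [3029861, 6286556], 63⟩,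
  ⟨⟨15, 32, 44, 50, -17, -30, 14, 44, -19⟩, (.cons (nat_lit 1102098) (nat_lit 1615846) (nat_lit 2230563)
 (nat_lit 1) (.cons (nat_lit 5743835) (nat_lit 6837522) (nat_lit 6724131) (nat_lit 1) .nil)), (nat_lit 38),
 (nat_lit 68), (nat_lit 32), (nat_lit 1), (27, 37, 4), [916051, 929430], 2⟩,
  ⟨⟨1, 12, -64, -50, -17, 20, -14, 44, -5⟩, (.cons (nat_lit 228467) (nat_lit 51694) (nat_lit 3243294) (nat_lit
 1) (.cons (nat_lit 3843899) (nat_lit 6855138) (nat_lit 3261353) (nat_lit 1) .nil)), (nat_lit 53), (nat_lit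
 51), (nat_lit 60), (nat_lit 1), (42, 20, 48), [1829973, 1965762], 24⟩,
  mz,
  ⟨⟨-13, -48, -27, 30, 17, -60, 30, -36, -7⟩, (.cons (nat_lit 313385) (nat_lit 1897701) (nat_lit 2253490)
 (nat_lit 1) (.cons (nat_lit 295719) (nat_lit 5096781) (nat_lit 4168007) (nat_lit 1) .nil)), (nat_lit 61),
 (nat_lit 36), (nat_lit 44), (nat_lit 1), (14, 37, 37), [1086747, 5049337], 8⟩,
  ⟨⟨-15, -32, 59, 50, -17, -20, -14, -44, -5⟩, (.cons (nat_lit 2537145) (nat_lit 1875344) (nat_lit 3250688)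
 (nat_lit 1) (.cons (nat_lit 6142849) (nat_lit 705668) (nat_lit 5444970) (nat_lit 1) .nil)), (nat_lit 45),
 (nat_lit 3), (nat_lit 33), (nat_lit 1), (8, 44, 11), [2033211, 2100313], 22⟩,
  ⟨⟨15, -52, 16, 10, -17, -60, 46, -4, -11⟩, (.cons (nat_lit 278835) (nat_lit 1021818) (nat_lit 1897309)
 (nat_lit 1) (.cons (nat_lit 5321351) (nat_lit 6038442) (nat_lit 6456084) (nat_lit 1) .nil)), (nat_lit 8),
 (nat_lit 46), (nat_lit 35), (nat_lit 1), (14, 27, 50), [2520853, 5388467], 10⟩,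
  ⟨⟨-39, -28, -17, 10, 33, -50, 18, -36, -37⟩, (.cons (nat_lit 695741) (nat_lit 839713) (nat_lit 1233899)
 (nat_lit 1) (.cons (nat_lit 4568767) (nat_lit 2110641) (nat_lit 6640120) (nat_lit 1) .nil)), (nat_lit 16),
 (nat_lit 54), (nat_lit 57), (nat_lit 1), (5, 49, 14), [474029, 1703946], 20⟩,
  ⟨⟨39, -28, -56, -10, 33, -40, -18, -36, -19⟩, (.cons (nat_lit 3418800) (nat_lit 1727362) (nat_lit 2679058)
 (nat_lit 1) (.cons (nat_lit 7091676) (nat_lit 4555332) (nat_lit 6612029) (nat_lit 1) .nil)), (nat_lit 70),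
 (nat_lit 17), (nat_lit 6), (nat_lit 1), (49, 35, 10), [963025, 2147297], 63⟩,
  mz,
  ⟨⟨43, 12, -63, -30, -17, -30, 30, -36, -23⟩, (.cons (nat_lit 1107165) (nat_lit 1719558) (nat_lit 2560354)
 (nat_lit 1) (.cons (nat_lit 5288912) (nat_lit 3162638) (nat_lit 4737897) (nat_lit 1) .nil)), (nat_lit 7),
 (nat_lit 42), (nat_lit 2), (nat_lit 1), (2, 6, 47), [1615717, 3450906], 34⟩]

/-- Moves. -/
noncomputable def t4_1 : List Mv := [
  mz,
  ⟨⟨-75, 20, 43, -10, -21, -70, -12, 60, -13⟩, (.cons (nat_lit 592690) (nat_lit 132637) (nat_lit 1341165)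
 (nat_lit 1) (.cons (nat_lit 199876) (nat_lit 7034271) (nat_lit 2267574) (nat_lit 1) .nil)), (nat_lit 55),
 (nat_lit 0), (nat_lit 0), (nat_lit 0), (51, 21, 11), [1591384, 1279576], 0⟩,
  mz,
  ⟨⟨65, -24, -72, -4, 55, -48, -10, -40, -49⟩, (.cons (nat_lit 3418800) (nat_lit 2569734) (nat_lit 1051699)
 (nat_lit 1) (.cons (nat_lit 7890480) (nat_lit 1724584) (nat_lit 2522019) (nat_lit 1) .nil)), (nat_lit 3),
 (nat_lit 0), (nat_lit 0), (nat_lit 0), (37, 1, 38), [1866349, 212963], 0⟩,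
  ⟨⟨27, 68, 16, 64, -15, -62, -6, 48, -43⟩, (.cons (nat_lit 2277610) (nat_lit 2461196) (nat_lit 1703600)
 (nat_lit 1) (.cons (nat_lit 4942208) (nat_lit 4982296) (nat_lit 7522662) (nat_lit 1) .nil)), (nat_lit 46),
 (nat_lit 0), (nat_lit 0), (nat_lit 0), (60, 16, 34), [2791441, 5666188], 0⟩,
  ⟨⟨27, -68, 16, 64, 15, -62, -6, -48, -43⟩, (.cons (nat_lit 3232047) (nat_lit 1270838) (nat_lit 2387144)
 (nat_lit 1) (.cons (nat_lit 88970) (nat_lit 7666467) (nat_lit 6751871) (nat_lit 1) .nil)), (nat_lit 46),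
 (nat_lit 0), (nat_lit 0), (nat_lit 0), (7, 35, 30), [2900988, 1820193], 0⟩,
  mz,
  ⟨⟨-29, 72, 20, 56, 25, -68, -38, 16, -35⟩, (.cons (nat_lit 500399) (nat_lit 2099654) (nat_lit 2265370)
 (nat_lit 1) (.cons (nat_lit 5392578) (nat_lit 4293118) (nat_lit 4062981) (nat_lit 1) .nil)), (nat_lit 8),
 (nat_lit 0), (nat_lit 0), (nat_lit 0), (33, 44, 31), [1189881, 5663448], 0⟩,
  ⟨⟨23, -72, 9, 64, 25, -12, 26, -32, -67⟩, (.cons (nat_lit 1356924) (nat_lit 27193) (nat_lit 747313) (nat_lit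
 1) (.cons (nat_lit 4726077) (nat_lit 6739336) (nat_lit 3994986) (nat_lit 1) .nil)), (nat_lit 49), (nat_lit 0),
 (nat_lit 0), (nat_lit 0), (60, 62, 3), [2249833, 3255828], 0⟩,
  mz,
  mz,
  ⟨⟨33, -20, -92, 64, 15, -2, 6, 48, -49⟩, (.cons (nat_lit 2959406) (nat_lit 627285) (nat_lit 2611281) (nat_lit
 1) (.cons (nat_lit 5917902) (nat_lit 7275963) (nat_lit 1272386) (nat_lit 1) .nil)), (nat_lit 12), (nat_lit 0),
 (nat_lit 0), (nat_lit 0), (67, 3, 38), [19520, 6128501], 0⟩,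
  ⟨⟨9, 76, -20, 44, -15, -82, -42, 24, -25⟩, (.cons (nat_lit 1408279) (nat_lit 899000) (nat_lit 2351712)
 (nat_lit 1) (.cons (nat_lit 3041575) (nat_lit 6303760) (nat_lit 2846989) (nat_lit 1) .nil)), (nat_lit 67),
 (nat_lit 0), (nat_lit 0), (nat_lit 0), (31, 49, 21), [1017433, 7686866], 0⟩,
  mz,
  mz,
  ⟨⟨51, -52, -56, -44, -15, -38, 42, 24, -67⟩, (.cons (nat_lit 3102221) (nat_lit 1331109) (nat_lit 1895742)
 (nat_lit 1) (.cons (nat_lit 6865274) (nat_lit 7260770) (nat_lit 713253) (nat_lit 1) .nil)), (nat_lit 5),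
 (nat_lit 0), (nat_lit 0), (nat_lit 0), (24, 67, 49), [3336251, 3757812], 0⟩,
  ⟨⟨17, 24, -89, -36, -55, -12, 54, -24, -53⟩, (.cons (nat_lit 3262196) (nat_lit 371239) (nat_lit 2307283)
 (nat_lit 1) (.cons (nat_lit 2796471) (nat_lit 1968604) (nat_lit 786067) (nat_lit 1) .nil)), (nat_lit 22),
 (nat_lit 0), (nat_lit 0), (nat_lit 0), (7, 52, 64), [925493, 3516651], 0⟩,
  mz,
  ⟨⟨9, 56, -64, -56, -25, -12, 38, -16, -73⟩, (.cons (nat_lit 1225447) (nat_lit 206736) (nat_lit 2481857)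
 (nat_lit 1) (.cons (nat_lit 2907869) (nat_lit 4505461) (nat_lit 2192298) (nat_lit 1) .nil)), (nat_lit 39),
 (nat_lit 0), (nat_lit 0), (nat_lit 0), (56, 46, 55), [2792294, 238884], 0⟩,
  ⟨⟨39, 40, -80, 44, -55, -32, -22, -8, -55⟩, (.cons (nat_lit 3418800) (nat_lit 497072) (nat_lit 3063278)
 (nat_lit 1) (.cons (nat_lit 7890480) (nat_lit 859249) (nat_lit 6881262) (nat_lit 1) .nil)), (nat_lit 19),
 (nat_lit 0), (nat_lit 0), (nat_lit 0), (28, 68, 37), [599659, 7730832], 0⟩,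
  mz,
  mz,
  ⟨⟨17, -24, 72, 36, -55, -48, 54, 24, -1⟩, (.cons (nat_lit 1810480) (nat_lit 1255675) (nat_lit 1891026)
 (nat_lit 1) (.cons (nat_lit 6446649) (nat_lit 3800638) (nat_lit 3014941) (nat_lit 1) .nil)), (nat_lit 70),
 (nat_lit 0), (nat_lit 0), (nat_lit 0), (28, 5, 43), [2422949, 6707529], 0⟩,
  ⟨⟨-61, 48, 25, 44, 55, -32, -22, 8, -55⟩, (.cons (nat_lit 2569300) (nat_lit 2970957) (nat_lit 1231193)
 (nat_lit 1) (.cons (nat_lit 3737818) (nat_lit 2857378) (nat_lit 1467935) (nat_lit 1) .nil)), (nat_lit 24),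
 (nat_lit 0), (nat_lit 0), (nat_lit 0), (13, 43, 14), [1393737, 913784], 0⟩,
  ⟨⟨-39, 40, -41, 44, 55, -12, 22, -8, -77⟩, (.cons (nat_lit 3094790) (nat_lit 1207360) (nat_lit 699239)
 (nat_lit 1) (.cons (nat_lit 7570217) (nat_lit 992855) (nat_lit 3986379) (nat_lit 1) .nil)), (nat_lit 23),
 (nat_lit 0), (nat_lit 0), (nat_lit 0), (2, 56, 28), [3096412, 5543784], 0⟩,
  mz,
  ⟨⟨51, -4, 40, -10, 69, 20, 60, 12, -49⟩, (.cons (nat_lit 3418800) (nat_lit 2993252) (nat_lit 537170) (nat_lit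
 1) (.cons (nat_lit 7890480) (nat_lit 1250197) (nat_lit 5999769) (nat_lit 1) .nil)), (nat_lit 26), (nat_lit 0),
 (nat_lit 0), (nat_lit 0), (60, 30, 33), [118732, 2574497], 0⟩,
  mz,
  mz,
  ⟨⟨-13, -72, 36, 70, -11, -30, -4, -44, -49⟩, (.cons (nat_lit 168727) (nat_lit 1971925) (nat_lit 2660384)
 (nat_lit 1) (.cons (nat_lit 28088) (nat_lit 6907366) (nat_lit 577289) (nat_lit 1) .nil)), (nat_lit 62),
 (nat_lit 0), (nat_lit 0), (nat_lit 0), (29, 35, 69), [2085991, 925550], 0⟩,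
  mz,
  ⟨⟨-33, -68, -4, 50, -11, -80, -44, 4, -29⟩, (.cons (nat_lit 3287281) (nat_lit 406017) (nat_lit 65133)
 (nat_lit 1) (.cons (nat_lit 1390391) (nat_lit 334064) (nat_lit 6576972) (nat_lit 1) .nil)), (nat_lit 53),
 (nat_lit 0), (nat_lit 0), (nat_lit 0), (61, 13, 34), [2883450, 5532604], 0⟩,
  mz,
  ⟨⟨-29, -72, 20, 56, -25, -68, -38, -16, -35⟩, (.cons (nat_lit 3282094) (nat_lit 555783) (nat_lit 2863344)
 (nat_lit 1) (.cons (nat_lit 2282241) (nat_lit 2527909) (nat_lit 1963798) (nat_lit 1) .nil)), (nat_lit 8),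
 (nat_lit 0), (nat_lit 0), (nat_lit 0), (27, 36, 6), [1678207, 846083], 0⟩,
  ⟨⟨75, 20, -32, 10, -21, -80, 12, 60, -25⟩, (.cons (nat_lit 445244) (nat_lit 2026099) (nat_lit 298941)
 (nat_lit 1) (.cons (nat_lit 3589584) (nat_lit 5555554) (nat_lit 827873) (nat_lit 1) .nil)), (nat_lit 55),
 (nat_lit 0), (nat_lit 0), (nat_lit 0), (30, 4, 19), [2075779, 1106056], 0⟩,
  mz,
  ⟨⟨3, -40, -76, 64, -25, -12, 26, 32, -67⟩, (.cons (nat_lit 3248425) (nat_lit 1049543) (nat_lit 3327118)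
 (nat_lit 1) (.cons (nat_lit 1644985) (nat_lit 5997915) (nat_lit 2905803) (nat_lit 1) .nil)), (nat_lit 7),
 (nat_lit 0), (nat_lit 0), (nat_lit 0), (58, 54, 53), [776153, 3380671], 0⟩,
  mz,
  ⟨⟨17, -24, -89, 36, -55, 12, 54, 24, -53⟩, (.cons (nat_lit 1346030) (nat_lit 1173697) (nat_lit 2965233)
 (nat_lit 1) (.cons (nat_lit 641915) (nat_lit 3604945) (nat_lit 1826331) (nat_lit 1) .nil)), (nat_lit 70),
 (nat_lit 0), (nat_lit 0), (nat_lit 0), (5, 44, 66), [1731098, 2821397], 0⟩,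
  ⟨⟨-23, -72, 32, 64, -25, -52, -26, -32, -41⟩, (.cons (nat_lit 1220714) (nat_lit 103913) (nat_lit 1296272)
 (nat_lit 1) (.cons (nat_lit 5331842) (nat_lit 5405718) (nat_lit 3562408) (nat_lit 1) .nil)), (nat_lit 18),
 (nat_lit 0), (nat_lit 0), (nat_lit 0), (21, 28, 33), [2565414, 2770664], 0⟩,
  mz,
  mz,
  ⟨⟨-65, 24, -7, -4, 55, 52, 10, 40, -59⟩, (.cons (nat_lit 291111) (nat_lit 379457) (nat_lit 1236351) (nat_lit
 1) (.cons (nat_lit 6175441) (nat_lit 7579186) (nat_lit 4599478) (nat_lit 1) .nil)), (nat_lit 50), (nat_lit 0),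
 (nat_lit 0), (nat_lit 0), (43, 66, 48), [2761093, 7777016], 0⟩,
  ⟨⟨11, -72, -36, -50, 11, -30, 44, -4, -73⟩, (.cons (nat_lit 545185) (nat_lit 2715885) (nat_lit 1280502)
 (nat_lit 1) (.cons (nat_lit 1289576) (nat_lit 5653028) (nat_lit 5796220) (nat_lit 1) .nil)), (nat_lit 29),
 (nat_lit 0), (nat_lit 0), (nat_lit 0), (69, 22, 63), [3162861, 7522128], 0⟩,
  ⟨⟨61, 48, -36, 44, -55, -12, 22, 8, -77⟩, (.cons (nat_lit 3418800) (nat_lit 3105240) (nat_lit 1559302)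
 (nat_lit 1) (.cons (nat_lit 7890480) (nat_lit 2434983) (nat_lit 5679463) (nat_lit 1) .nil)), (nat_lit 44),
 (nat_lit 0), (nat_lit 0), (nat_lit 0), (30, 10, 5), [2319100, 2341739], 0⟩,
  mz,
  ⟨⟨-9, -76, -11, -44, 15, -38, 42, -24, -67⟩, (.cons (nat_lit 702603) (nat_lit 365729) (nat_lit 128501)
 (nat_lit 1) (.cons (nat_lit 3687400) (nat_lit 5609073) (nat_lit 5570606) (nat_lit 1) .nil)), (nat_lit 67),
 (nat_lit 0), (nat_lit 0), (nat_lit 0), (66, 15, 47), [718141, 7697709], 0⟩,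
  ⟨⟨9, -16, 80, -10, -69, -10, 60, -12, -11⟩, (.cons (nat_lit 3418800) (nat_lit 422066) (nat_lit 938246)
 (nat_lit 1) (.cons (nat_lit 7890480) (nat_lit 6423038) (nat_lit 1894562) (nat_lit 1) .nil)), (nat_lit 47),
 (nat_lit 0), (nat_lit 0), (nat_lit 0), (33, 58, 7), [424745, 7661229], 0⟩,
  ⟨⟨9, -16, -89, -10, -69, 20, 60, -12, -49⟩, (.cons (nat_lit 1769325) (nat_lit 109905) (nat_lit 1767507)
 (nat_lit 1) (.cons (nat_lit 5967608) (nat_lit 7357577) (nat_lit 4999496) (nat_lit 1) .nil)), (nat_lit 47),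
 (nat_lit 0), (nat_lit 0), (nat_lit 0), (19, 42, 32), [518194, 6289967], 0⟩,
  ⟨⟨9, -56, -64, -56, 25, -12, 38, 16, -73⟩, (.cons (nat_lit 2716146) (nat_lit 1012256) (nat_lit 1260243)
 (nat_lit 1) (.cons (nat_lit 1925815) (nat_lit 1375229) (nat_lit 3826980) (nat_lit 1) .nil)), (nat_lit 39),
 (nat_lit 0), (nat_lit 0), (nat_lit 0), (4, 54, 9), [3236423, 7163916], 0⟩,
  ⟨⟨65, 24, -72, -4, -55, -48, -10, 40, -49⟩, (.cons (nat_lit 1786782) (nat_lit 3223254) (nat_lit 2870692)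
 (nat_lit 1) (.cons (nat_lit 6424949) (nat_lit 7832416) (nat_lit 4951682) (nat_lit 1) .nil)), (nat_lit 3),
 (nat_lit 0), (nat_lit 0), (nat_lit 0), (39, 26, 65), [2215537, 3311799], 0⟩,
  ⟨⟨-51, 52, -5, 44, 15, -82, -42, -24, -25⟩, (.cons (nat_lit 1897573) (nat_lit 2408803) (nat_lit 422716)
 (nat_lit 1) (.cons (nat_lit 2860912) (nat_lit 676882) (nat_lit 5827964) (nat_lit 1) .nil)), (nat_lit 5),
 (nat_lit 0), (nat_lit 0), (nat_lit 0), (18, 68, 19), [679441, 1330430], 0⟩,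
  mz,
  ⟨⟨13, -72, 23, 70, 11, -40, 4, -44, -53⟩, (.cons (nat_lit 1440002) (nat_lit 1284156) (nat_lit 286505)
 (nat_lit 1) (.cons (nat_lit 2354087) (nat_lit 7135416) (nat_lit 6668322) (nat_lit 1) .nil)), (nat_lit 43),
 (nat_lit 0), (nat_lit 0), (nat_lit 0), (14, 59, 48), [621344, 2972780], 0⟩,
  ⟨⟨9, 16, 80, -10, 69, -10, 60, 12, -11⟩, (.cons (nat_lit 2196651) (nat_lit 2043314) (nat_lit 2969545)
 (nat_lit 1) (.cons (nat_lit 6292662) (nat_lit 4306237) (nat_lit 5308390) (nat_lit 1) .nil)), (nat_lit 47),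
 (nat_lit 0), (nat_lit 0), (nat_lit 0), (58, 46, 8), [2071739, 2220428], 0⟩,
  ⟨⟨-63, -40, 7, 10, 21, -80, 12, -60, -25⟩, (.cons (nat_lit 213238) (nat_lit 508677) (nat_lit 3402903)
 (nat_lit 1) (.cons (nat_lit 7549626) (nat_lit 7829319) (nat_lit 5156454) (nat_lit 1) .nil)), (nat_lit 58),
 (nat_lit 0), (nat_lit 0), (nat_lit 0), (33, 59, 14), [745114, 4458568], 0⟩,
  mz,
  ⟨⟨-11, -72, -25, 50, 11, -80, -44, -4, -29⟩, (.cons (nat_lit 2744444) (nat_lit 2393428) (nat_lit 912455)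
 (nat_lit 1) (.cons (nat_lit 4219999) (nat_lit 6186694) (nat_lit 6414286) (nat_lit 1) .nil)), (nat_lit 29),
 (nat_lit 0), (nat_lit 0), (nat_lit 0), (38, 8, 10), [2343195, 2025915], 0⟩,
  ⟨⟨-75, -20, 43, 10, -21, 70, -12, -60, -13⟩, (.cons (nat_lit 2303852) (nat_lit 3118310) (nat_lit 1268209)
 (nat_lit 1) (.cons (nat_lit 2335987) (nat_lit 1959854) (nat_lit 2352122) (nat_lit 1) .nil)), (nat_lit 34),
 (nat_lit 0), (nat_lit 0), (nat_lit 0), (2, 66, 6), [2412804, 102802], 0⟩,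
  mz,
  mz,
  mz,
  ⟨⟨11, 72, -36, -50, -11, -30, 44, 4, -73⟩, (.cons (nat_lit 1869098) (nat_lit 2814425) (nat_lit 1145231)
 (nat_lit 1) (.cons (nat_lit 7883458) (nat_lit 7644711) (nat_lit 6483894) (nat_lit 1) .nil)), (nat_lit 29),
 (nat_lit 0), (nat_lit 0), (nat_lit 0), (4, 27, 16), [585143, 2095159], 0⟩,
  mz,
  ⟨⟨-13, 72, 36, 70, 11, -30, -4, 44, -49⟩, (.cons (nat_lit 282240) (nat_lit 2789951) (nat_lit 2169523)
 (nat_lit 1) (.cons (nat_lit 4727333) (nat_lit 5920830) (nat_lit 239210) (nat_lit 1) .nil)), (nat_lit 62),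
 (nat_lit 0), (nat_lit 0), (nat_lit 0), (35, 30, 49), [1406870, 6774985], 0⟩,
  ⟨⟨75, -16, -52, 4, 55, -52, 10, -40, -59⟩, (.cons (nat_lit 3418800) (nat_lit 2899694) (nat_lit 793431)
 (nat_lit 1) (.cons (nat_lit 7890480) (nat_lit 2536914) (nat_lit 713665) (nat_lit 1) .nil)), (nat_lit 65),
 (nat_lit 0), (nat_lit 0), (nat_lit 0), (51, 51, 21), [2439797, 5634749], 0⟩,
  mz,
  ⟨⟨33, 20, -92, 64, -15, -2, 6, -48, -49⟩, (.cons (nat_lit 2322734) (nat_lit 827581) (nat_lit 1552346)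
 (nat_lit 1) (.cons (nat_lit 3714269) (nat_lit 5786796) (nat_lit 359476) (nat_lit 1) .nil)), (nat_lit 12),
 (nat_lit 0), (nat_lit 0), (nat_lit 0), (45, 55, 34), [371481, 4346241], 0⟩,
  ⟨⟨13, 72, 23, 70, -11, -40, 4, 44, -53⟩, (.cons (nat_lit 363075) (nat_lit 1745301) (nat_lit 646361) (nat_lit
 1) (.cons (nat_lit 7494899) (nat_lit 4732437) (nat_lit 5247702) (nat_lit 1) .nil)), (nat_lit 43), (nat_lit 0),
 (nat_lit 0), (nat_lit 0), (20, 64, 28), [1515706, 3159361], 0⟩,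
  ⟨⟨-23, 72, 32, 64, 25, -52, -26, 32, -41⟩, (.cons (nat_lit 1260897) (nat_lit 2714241) (nat_lit 221440)
 (nat_lit 1) (.cons (nat_lit 1470684) (nat_lit 6827506) (nat_lit 933669) (nat_lit 1) .nil)), (nat_lit 18),
 (nat_lit 0), (nat_lit 0), (nat_lit 0), (27, 36, 12), [1510360, 1384917], 0⟩,
  ⟨⟨17, 24, 72, 36, 55, -48, 54, -24, -1⟩, (.cons (nat_lit 3418800) (nat_lit 1039838) (nat_lit 1356095)
 (nat_lit 1) (.cons (nat_lit 7890480) (nat_lit 375740) (nat_lit 4862268) (nat_lit 1) .nil)), (nat_lit 70),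
 (nat_lit 0), (nat_lit 0), (nat_lit 0), (30, 51, 41), [1333512, 3886452], 0⟩]

/-- Moves. -/
noncomputable def t4_4 : List Mv := [
  mz,
  ⟨⟨-75, 20, 43, 10, 21, 70, -12, 60, -13⟩, (.cons (nat_lit 2649317) (nat_lit 1759061) (nat_lit 1405160)
 (nat_lit 1) (.cons (nat_lit 1662579) (nat_lit 1941341) (nat_lit 1047492) (nat_lit 1) .nil)), (nat_lit 34),
 (nat_lit 0), (nat_lit 0), (nat_lit 0), (51, 50, 11), [523449, 2660042], 0⟩,
  mz,
  ⟨⟨65, -24, -72, -4, 55, -48, -10, -40, -49⟩, (.cons (nat_lit 3418800) (nat_lit 2569734) (nat_lit 1051699)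
 (nat_lit 1) (.cons (nat_lit 7890480) (nat_lit 1724584) (nat_lit 2522019) (nat_lit 1) .nil)), (nat_lit 3),
 (nat_lit 0), (nat_lit 0), (nat_lit 0), (37, 1, 38), [1866349, 212963], 0⟩,
  ⟨⟨27, 68, 16, 64, -15, -62, -6, 48, -43⟩, (.cons (nat_lit 2277610) (nat_lit 2461196) (nat_lit 1703600)
 (nat_lit 1) (.cons (nat_lit 4942208) (nat_lit 4982296) (nat_lit 7522662) (nat_lit 1) .nil)), (nat_lit 46),
 (nat_lit 0), (nat_lit 0), (nat_lit 0), (60, 16, 34), [2791441, 5666188], 0⟩,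
  ⟨⟨27, -68, 16, -64, -15, 62, -6, -48, -43⟩, (.cons (nat_lit 3143217) (nat_lit 1832958) (nat_lit 2344916)
 (nat_lit 1) (.cons (nat_lit 3067392) (nat_lit 4406355) (nat_lit 6573099) (nat_lit 1) .nil)), (nat_lit 15),
 (nat_lit 0), (nat_lit 0), (nat_lit 0), (7, 36, 30), [1942185, 7380182], 0⟩,
  mz,
  ⟨⟨-29, 72, 20, -56, -25, 68, -38, 16, -35⟩, (.cons (nat_lit 1080706) (nat_lit 1352810) (nat_lit 2096417)
 (nat_lit 1) (.cons (nat_lit 350849) (nat_lit 5131422) (nat_lit 7301820) (nat_lit 1) .nil)), (nat_lit 36),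
 (nat_lit 0), (nat_lit 0), (nat_lit 0), (33, 27, 31), [739376, 2202769], 0⟩,
  ⟨⟨3, 40, -76, 64, 25, -12, 26, -32, -67⟩, (.cons (nat_lit 595620) (nat_lit 1490320) (nat_lit 1930071)
 (nat_lit 1) (.cons (nat_lit 514051) (nat_lit 7029872) (nat_lit 7203226) (nat_lit 1) .nil)), (nat_lit 7),
 (nat_lit 0), (nat_lit 0), (nat_lit 0), (14, 62, 3), [3017254, 1260878], 0⟩,
  mz,
  mz,
  ⟨⟨-27, 68, 43, -64, -15, 2, 6, 48, -49⟩, (.cons (nat_lit 2470321) (nat_lit 1504317) (nat_lit 1457502)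
 (nat_lit 1) (.cons (nat_lit 5723869) (nat_lit 321249) (nat_lit 2775144) (nat_lit 1) .nil)), (nat_lit 46),
 (nat_lit 0), (nat_lit 0), (nat_lit 0), (42, 68, 38), [3249864, 5017418], 0⟩,
  ⟨⟨9, 76, -20, 44, -15, -82, -42, 24, -25⟩, (.cons (nat_lit 1408279) (nat_lit 899000) (nat_lit 2351712)
 (nat_lit 1) (.cons (nat_lit 3041575) (nat_lit 6303760) (nat_lit 2846989) (nat_lit 1) .nil)), (nat_lit 67),
 (nat_lit 0), (nat_lit 0), (nat_lit 0), (31, 49, 21), [1017433, 7686866], 0⟩,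
  mz,
  mz,
  ⟨⟨51, -52, -56, -44, -15, -38, 42, 24, -67⟩, (.cons (nat_lit 3102221) (nat_lit 1331109) (nat_lit 1895742)
 (nat_lit 1) (.cons (nat_lit 6865274) (nat_lit 7260770) (nat_lit 713253) (nat_lit 1) .nil)), (nat_lit 5),
 (nat_lit 0), (nat_lit 0), (nat_lit 0), (24, 67, 49), [3336251, 3757812], 0⟩,
  ⟨⟨17, 24, -89, -36, -55, -12, 54, -24, -53⟩, (.cons (nat_lit 3262196) (nat_lit 371239) (nat_lit 2307283)
 (nat_lit 1) (.cons (nat_lit 2796471) (nat_lit 1968604) (nat_lit 786067) (nat_lit 1) .nil)), (nat_lit 22),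
 (nat_lit 0), (nat_lit 0), (nat_lit 0), (7, 52, 64), [925493, 3516651], 0⟩,
  mz,
  ⟨⟨9, 56, -64, -56, -25, -12, 38, -16, -73⟩, (.cons (nat_lit 1225447) (nat_lit 206736) (nat_lit 2481857)
 (nat_lit 1) (.cons (nat_lit 2907869) (nat_lit 4505461) (nat_lit 2192298) (nat_lit 1) .nil)), (nat_lit 39),
 (nat_lit 0), (nat_lit 0), (nat_lit 0), (56, 46, 55), [2792294, 238884], 0⟩,
  ⟨⟨-61, -48, 25, 44, -55, -32, -22, -8, -55⟩, (.cons (nat_lit 2992543) (nat_lit 2413899) (nat_lit 2931741)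
 (nat_lit 1) (.cons (nat_lit 684096) (nat_lit 7594826) (nat_lit 6239854) (nat_lit 1) .nil)), (nat_lit 24),
 (nat_lit 0), (nat_lit 0), (nat_lit 0), (9, 68, 37), [1417820, 5880607], 0⟩,
  mz,
  mz,
  ⟨⟨37, 48, -73, 36, -55, -48, 54, 24, -1⟩, (.cons (nat_lit 1108790) (nat_lit 321651) (nat_lit 938490) (nat_lit
 1) (.cons (nat_lit 1688293) (nat_lit 5779730) (nat_lit 259310) (nat_lit 1) .nil)), (nat_lit 38), (nat_lit 0),
 (nat_lit 0), (nat_lit 0), (15, 5, 43), [2368812, 1511838], 0⟩,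
  ⟨⟨-61, 48, 25, 44, 55, -32, -22, 8, -55⟩, (.cons (nat_lit 2569300) (nat_lit 2970957) (nat_lit 1231193)
 (nat_lit 1) (.cons (nat_lit 3737818) (nat_lit 2857378) (nat_lit 1467935) (nat_lit 1) .nil)), (nat_lit 24),
 (nat_lit 0), (nat_lit 0), (nat_lit 0), (13, 43, 14), [1393737, 913784], 0⟩,
  ⟨⟨-39, 40, -41, 44, 55, -12, 22, -8, -77⟩, (.cons (nat_lit 3094790) (nat_lit 1207360) (nat_lit 699239)
 (nat_lit 1) (.cons (nat_lit 7570217) (nat_lit 992855) (nat_lit 3986379) (nat_lit 1) .nil)), (nat_lit 23),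
 (nat_lit 0), (nat_lit 0), (nat_lit 0), (2, 56, 28), [3096412, 5543784], 0⟩,
  mz,
  ⟨⟨51, -4, 40, 10, -69, -20, 60, 12, -49⟩, (.cons (nat_lit 2907563) (nat_lit 2081878) (nat_lit 153637)
 (nat_lit 1) (.cons (nat_lit 4665395) (nat_lit 6676194) (nat_lit 680178) (nat_lit 1) .nil)), (nat_lit 48),
 (nat_lit 0), (nat_lit 0), (nat_lit 0), (60, 41, 33), [1106769, 6537188], 0⟩,
  mz,
  mz,
  ⟨⟨9, 28, -85, -70, 11, 30, -4, -44, -49⟩, (.cons (nat_lit 568564) (nat_lit 2552648) (nat_lit 311926) (nat_lit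
 1) (.cons (nat_lit 5039126) (nat_lit 4446467) (nat_lit 5314263) (nat_lit 1) .nil)), (nat_lit 57), (nat_lit 0),
 (nat_lit 0), (nat_lit 0), (40, 36, 69), [2067907, 526], 0⟩,
  mz,
  ⟨⟨-11, 72, -25, 50, -11, -80, -44, 4, -29⟩, (.cons (nat_lit 2210441) (nat_lit 2228937) (nat_lit 1529068)
 (nat_lit 1) (.cons (nat_lit 7318621) (nat_lit 6496543) (nat_lit 1601075) (nat_lit 1) .nil)), (nat_lit 29),
 (nat_lit 0), (nat_lit 0), (nat_lit 0), (44, 13, 34), [1366195, 3858855], 0⟩,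
  mz,
  ⟨⟨-9, 56, -55, -56, 25, 68, -38, -16, -35⟩, (.cons (nat_lit 643339) (nat_lit 725545) (nat_lit 3261108)
 (nat_lit 1) (.cons (nat_lit 835877) (nat_lit 1028218) (nat_lit 6011591) (nat_lit 1) .nil)), (nat_lit 69),
 (nat_lit 0), (nat_lit 0), (nat_lit 0), (50, 35, 6), [1179391, 1061469], 0⟩,
  ⟨⟨75, 20, -32, 10, -21, -80, 12, 60, -25⟩, (.cons (nat_lit 445244) (nat_lit 2026099) (nat_lit 298941)
 (nat_lit 1) (.cons (nat_lit 3589584) (nat_lit 5555554) (nat_lit 827873) (nat_lit 1) .nil)), (nat_lit 55),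
 (nat_lit 0), (nat_lit 0), (nat_lit 0), (30, 4, 19), [2075779, 1106056], 0⟩,
  mz,
  ⟨⟨3, -40, -76, 64, -25, -12, 26, 32, -67⟩, (.cons (nat_lit 3248425) (nat_lit 1049543) (nat_lit 3327118)
 (nat_lit 1) (.cons (nat_lit 1644985) (nat_lit 5997915) (nat_lit 2905803) (nat_lit 1) .nil)), (nat_lit 7),
 (nat_lit 0), (nat_lit 0), (nat_lit 0), (58, 54, 53), [776153, 3380671], 0⟩,
  mz,
  ⟨⟨17, -24, -89, -36, 55, -12, 54, 24, -53⟩, (.cons (nat_lit 2103189) (nat_lit 2402836) (nat_lit 2399934)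
 (nat_lit 1) (.cons (nat_lit 1302540) (nat_lit 2079343) (nat_lit 6172767) (nat_lit 1) .nil)), (nat_lit 22),
 (nat_lit 0), (nat_lit 0), (nat_lit 0), (5, 27, 66), [1694815, 6088888], 0⟩,
  ⟨⟨-3, 40, -73, -64, 25, 52, -26, -32, -41⟩, (.cons (nat_lit 695541) (nat_lit 1028930) (nat_lit 917948)
 (nat_lit 1) (.cons (nat_lit 5282938) (nat_lit 724812) (nat_lit 6694440) (nat_lit 1) .nil)), (nat_lit 7),
 (nat_lit 0), (nat_lit 0), (nat_lit 0), (12, 43, 33), [501238, 7308928], 0⟩,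
  mz,
  mz,
  ⟨⟨-65, 24, -7, -4, 55, 52, 10, 40, -59⟩, (.cons (nat_lit 291111) (nat_lit 379457) (nat_lit 1236351) (nat_lit
 1) (.cons (nat_lit 6175441) (nat_lit 7579186) (nat_lit 4599478) (nat_lit 1) .nil)), (nat_lit 50), (nat_lit 0),
 (nat_lit 0), (nat_lit 0), (43, 66, 48), [2761093, 7777016], 0⟩,
  ⟨⟨11, -72, -36, -50, 11, -30, 44, -4, -73⟩, (.cons (nat_lit 545185) (nat_lit 2715885) (nat_lit 1280502)
 (nat_lit 1) (.cons (nat_lit 1289576) (nat_lit 5653028) (nat_lit 5796220) (nat_lit 1) .nil)), (nat_lit 29),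
 (nat_lit 0), (nat_lit 0), (nat_lit 0), (69, 22, 63), [3162861, 7522128], 0⟩,
  ⟨⟨-39, -40, -41, 44, -55, -12, 22, 8, -77⟩, (.cons (nat_lit 491491) (nat_lit 292663) (nat_lit 1812357)
 (nat_lit 1) (.cons (nat_lit 6063906) (nat_lit 4717171) (nat_lit 4536961) (nat_lit 1) .nil)), (nat_lit 23),
 (nat_lit 0), (nat_lit 0), (nat_lit 0), (46, 10, 5), [2973517, 916867], 0⟩,
  mz,
  ⟨⟨-9, -76, -11, 44, -15, 38, 42, -24, -67⟩, (.cons (nat_lit 3359114) (nat_lit 198116) (nat_lit 2530429)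
 (nat_lit 1) (.cons (nat_lit 3670816) (nat_lit 2197228) (nat_lit 1949951) (nat_lit 1) .nil)), (nat_lit 11),
 (nat_lit 0), (nat_lit 0), (nat_lit 0), (66, 56, 47), [3308682, 6510644], 0⟩,
  ⟨⟨9, -16, 80, 10, 69, 10, 60, -12, -11⟩, (.cons (nat_lit 1063981) (nat_lit 2470876) (nat_lit 186321) (nat_lit
 1) (.cons (nat_lit 1484176) (nat_lit 4989959) (nat_lit 5008493) (nat_lit 1) .nil)), (nat_lit 54), (nat_lit 0),
 (nat_lit 0), (nat_lit 0), (33, 13, 7), [201420, 5613168], 0⟩,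
  ⟨⟨51, 4, 40, 10, 69, -20, 60, -12, -49⟩, (.cons (nat_lit 3418800) (nat_lit 2192597) (nat_lit 1602666)
 (nat_lit 1) (.cons (nat_lit 7890480) (nat_lit 2092908) (nat_lit 3206391) (nat_lit 1) .nil)), (nat_lit 48),
 (nat_lit 0), (nat_lit 0), (nat_lit 0), (13, 29, 32), [1410753, 6899514], 0⟩,
  ⟨⟨9, -56, -64, -56, 25, -12, 38, 16, -73⟩, (.cons (nat_lit 2716146) (nat_lit 1012256) (nat_lit 1260243)
 (nat_lit 1) (.cons (nat_lit 1925815) (nat_lit 1375229) (nat_lit 3826980) (nat_lit 1) .nil)), (nat_lit 39),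
 (nat_lit 0), (nat_lit 0), (nat_lit 0), (4, 54, 9), [3236423, 7163916], 0⟩,
  ⟨⟨-75, 16, 23, 4, 55, 48, -10, 40, -49⟩, (.cons (nat_lit 1171450) (nat_lit 1022171) (nat_lit 382685) (nat_lit
 1) (.cons (nat_lit 5873146) (nat_lit 1303003) (nat_lit 3066876) (nat_lit 1) .nil)), (nat_lit 42), (nat_lit 0),
 (nat_lit 0), (nat_lit 0), (26, 45, 65), [2733960, 1092246], 0⟩,
  ⟨⟨-51, 52, -5, 44, 15, -82, -42, -24, -25⟩, (.cons (nat_lit 1897573) (nat_lit 2408803) (nat_lit 422716)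
 (nat_lit 1) (.cons (nat_lit 2860912) (nat_lit 676882) (nat_lit 5827964) (nat_lit 1) .nil)), (nat_lit 5),
 (nat_lit 0), (nat_lit 0), (nat_lit 0), (18, 68, 19), [679441, 1330430], 0⟩,
  mz,
  ⟨⟨13, -72, 23, 70, 11, -40, 4, -44, -53⟩, (.cons (nat_lit 1440002) (nat_lit 1284156) (nat_lit 286505)
 (nat_lit 1) (.cons (nat_lit 2354087) (nat_lit 7135416) (nat_lit 6668322) (nat_lit 1) .nil)), (nat_lit 43),
 (nat_lit 0), (nat_lit 0), (nat_lit 0), (14, 59, 48), [621344, 2972780], 0⟩,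
  ⟨⟨9, 16, 80, -10, 69, -10, 60, 12, -11⟩, (.cons (nat_lit 2196651) (nat_lit 2043314) (nat_lit 2969545)
 (nat_lit 1) (.cons (nat_lit 6292662) (nat_lit 4306237) (nat_lit 5308390) (nat_lit 1) .nil)), (nat_lit 47),
 (nat_lit 0), (nat_lit 0), (nat_lit 0), (58, 46, 8), [2071739, 2220428], 0⟩,
  ⟨⟨75, -20, -32, 10, 21, -80, 12, -60, -25⟩, (.cons (nat_lit 3418800) (nat_lit 3380243) (nat_lit 1891238)
 (nat_lit 1) (.cons (nat_lit 7890480) (nat_lit 7803299) (nat_lit 1379929) (nat_lit 1) .nil)), (nat_lit 55),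
 (nat_lit 0), (nat_lit 0), (nat_lit 0), (52, 59, 14), [3163004, 5850020], 0⟩,
  mz,
  ⟨⟨-11, -72, -25, 50, 11, -80, -44, -4, -29⟩, (.cons (nat_lit 2744444) (nat_lit 2393428) (nat_lit 912455)
 (nat_lit 1) (.cons (nat_lit 4219999) (nat_lit 6186694) (nat_lit 6414286) (nat_lit 1) .nil)), (nat_lit 29),
 (nat_lit 0), (nat_lit 0), (nat_lit 0), (38, 8, 10), [2343195, 2025915], 0⟩,
  ⟨⟨-75, -20, 43, -10, 21, -70, -12, -60, -13⟩, (.cons (nat_lit 387689) (nat_lit 1639431) (nat_lit 2800320)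
 (nat_lit 1) (.cons (nat_lit 5613676) (nat_lit 5151759) (nat_lit 1460051) (nat_lit 1) .nil)), (nat_lit 55),
 (nat_lit 0), (nat_lit 0), (nat_lit 0), (2, 5, 6), [1282227, 1043065], 0⟩,
  mz,
  mz,
  mz,
  ⟨⟨11, 72, -36, 50, 11, 30, 44, 4, -73⟩, (.cons (nat_lit 386638) (nat_lit 2435583) (nat_lit 3304482) (nat_lit
 1) (.cons (nat_lit 7335756) (nat_lit 3924538) (nat_lit 1548273) (nat_lit 1) .nil)), (nat_lit 64), (nat_lit 0),
 (nat_lit 0), (nat_lit 0), (4, 44, 16), [83887, 3128708], 0⟩,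
  mz,
  ⟨⟨-13, 72, 36, 70, 11, -30, -4, 44, -49⟩, (.cons (nat_lit 282240) (nat_lit 2789951) (nat_lit 2169523)
 (nat_lit 1) (.cons (nat_lit 4727333) (nat_lit 5920830) (nat_lit 239210) (nat_lit 1) .nil)), (nat_lit 62),
 (nat_lit 0), (nat_lit 0), (nat_lit 0), (35, 30, 49), [1406870, 6774985], 0⟩,
  ⟨⟨-65, -24, -7, 4, 55, -52, 10, -40, -59⟩, (.cons (nat_lit 498070) (nat_lit 3168853) (nat_lit 2844187)
 (nat_lit 1) (.cons (nat_lit 4546168) (nat_lit 3660380) (nat_lit 5388332) (nat_lit 1) .nil)), (nat_lit 3),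
 (nat_lit 0), (nat_lit 0), (nat_lit 0), (41, 51, 21), [2405354, 303274], 0⟩,
  mz,
  ⟨⟨33, 20, -92, -64, 15, 2, 6, -48, -49⟩, (.cons (nat_lit 298630) (nat_lit 991693) (nat_lit 1442866) (nat_lit
 1) (.cons (nat_lit 7313149) (nat_lit 6466153) (nat_lit 7606808) (nat_lit 1) .nil)), (nat_lit 51), (nat_lit 0),
 (nat_lit 0), (nat_lit 0), (45, 16, 34), [1883651, 225974], 0⟩,
  ⟨⟨-9, -28, -76, -70, 11, 40, 4, 44, -53⟩, (.cons (nat_lit 1666539) (nat_lit 1922075) (nat_lit 2698120)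
 (nat_lit 1) (.cons (nat_lit 7688955) (nat_lit 1083930) (nat_lit 2954993) (nat_lit 1) .nil)), (nat_lit 31),
 (nat_lit 0), (nat_lit 0), (nat_lit 0), (8, 7, 28), [2992538, 5809380], 0⟩,
  ⟨⟨-3, -40, -73, 64, 25, -52, -26, 32, -41⟩, (.cons (nat_lit 245737) (nat_lit 639286) (nat_lit 2314207)
 (nat_lit 1) (.cons (nat_lit 1949094) (nat_lit 1844217) (nat_lit 3183940) (nat_lit 1) .nil)), (nat_lit 33),
 (nat_lit 0), (nat_lit 0), (nat_lit 0), (56, 36, 12), [2265526, 5473301], 0⟩,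
  ⟨⟨17, 24, 72, 36, 55, -48, 54, -24, -1⟩, (.cons (nat_lit 3418800) (nat_lit 1039838) (nat_lit 1356095)
 (nat_lit 1) (.cons (nat_lit 7890480) (nat_lit 375740) (nat_lit 4862268) (nat_lit 1) .nil)), (nat_lit 70),
 (nat_lit 0), (nat_lit 0), (nat_lit 0), (30, 51, 41), [1333512, 3886452], 0⟩]

/-- Moves. -/
noncomputable def t4_6 : List Mv := [
  mz,
  ⟨⟨-75, 20, 43, -10, -21, -70, -12, 60, -13⟩, (.cons (nat_lit 592690) (nat_lit 132637) (nat_lit 1341165)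
 (nat_lit 1) (.cons (nat_lit 199876) (nat_lit 7034271) (nat_lit 2267574) (nat_lit 1) .nil)), (nat_lit 55),
 (nat_lit 0), (nat_lit 0), (nat_lit 0), (51, 21, 11), [1591384, 1279576], 0⟩,
  mz,
  ⟨⟨-75, -16, 23, -4, 55, -48, -10, -40, -49⟩, (.cons (nat_lit 3155556) (nat_lit 682786) (nat_lit 587815)
 (nat_lit 1) (.cons (nat_lit 5567813) (nat_lit 4135479) (nat_lit 1352689) (nat_lit 1) .nil)), (nat_lit 65),
 (nat_lit 0), (nat_lit 0), (nat_lit 0), (1, 1, 38), [127601, 1398586], 0⟩,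
  ⟨⟨27, 68, 16, 64, -15, -62, -6, 48, -43⟩, (.cons (nat_lit 2277610) (nat_lit 2461196) (nat_lit 1703600)
 (nat_lit 1) (.cons (nat_lit 4942208) (nat_lit 4982296) (nat_lit 7522662) (nat_lit 1) .nil)), (nat_lit 46),
 (nat_lit 0), (nat_lit 0), (nat_lit 0), (60, 16, 34), [2791441, 5666188], 0⟩,
  ⟨⟨27, -68, 16, 64, 15, -62, -6, -48, -43⟩, (.cons (nat_lit 3232047) (nat_lit 1270838) (nat_lit 2387144)
 (nat_lit 1) (.cons (nat_lit 88970) (nat_lit 7666467) (nat_lit 6751871) (nat_lit 1) .nil)), (nat_lit 46),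
 (nat_lit 0), (nat_lit 0), (nat_lit 0), (7, 35, 30), [2900988, 1820193], 0⟩,
  mz,
  ⟨⟨-29, 72, 20, 56, 25, -68, -38, 16, -35⟩, (.cons (nat_lit 500399) (nat_lit 2099654) (nat_lit 2265370)
 (nat_lit 1) (.cons (nat_lit 5392578) (nat_lit 4293118) (nat_lit 4062981) (nat_lit 1) .nil)), (nat_lit 8),
 (nat_lit 0), (nat_lit 0), (nat_lit 0), (33, 44, 31), [1189881, 5663448], 0⟩,
  ⟨⟨3, 40, -76, -64, -25, 12, 26, -32, -67⟩, (.cons (nat_lit 2128401) (nat_lit 3403425) (nat_lit 173253)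
 (nat_lit 1) (.cons (nat_lit 7624176) (nat_lit 2638768) (nat_lit 3926672) (nat_lit 1) .nil)), (nat_lit 33),
 (nat_lit 0), (nat_lit 0), (nat_lit 0), (14, 9, 3), [1450209, 5550058], 0⟩,
  mz,
  mz,
  ⟨⟨33, -20, -92, 64, 15, -2, 6, 48, -49⟩, (.cons (nat_lit 2959406) (nat_lit 627285) (nat_lit 2611281) (nat_lit
 1) (.cons (nat_lit 5917902) (nat_lit 7275963) (nat_lit 1272386) (nat_lit 1) .nil)), (nat_lit 12), (nat_lit 0),
 (nat_lit 0), (nat_lit 0), (67, 3, 38), [19520, 6128501], 0⟩,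
  ⟨⟨9, 76, -20, 44, -15, -82, -42, 24, -25⟩, (.cons (nat_lit 1408279) (nat_lit 899000) (nat_lit 2351712)
 (nat_lit 1) (.cons (nat_lit 3041575) (nat_lit 6303760) (nat_lit 2846989) (nat_lit 1) .nil)), (nat_lit 67),
 (nat_lit 0), (nat_lit 0), (nat_lit 0), (31, 49, 21), [1017433, 7686866], 0⟩,
  mz,
  mz,
  ⟨⟨51, -52, -56, 44, 15, 38, 42, 24, -67⟩, (.cons (nat_lit 2638733) (nat_lit 438896) (nat_lit 1378652)
 (nat_lit 1) (.cons (nat_lit 677443) (nat_lit 7343481) (nat_lit 2236192) (nat_lit 1) .nil)), (nat_lit 4),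
 (nat_lit 0), (nat_lit 0), (nat_lit 0), (24, 4, 49), [2309136, 7862426], 0⟩,
  ⟨⟨37, -48, 36, -36, -55, -12, 54, -24, -53⟩, (.cons (nat_lit 3418800) (nat_lit 641368) (nat_lit 2638297)
 (nat_lit 1) (.cons (nat_lit 7890480) (nat_lit 3875607) (nat_lit 2165236) (nat_lit 1) .nil)), (nat_lit 16),
 (nat_lit 0), (nat_lit 0), (nat_lit 0), (57, 52, 64), [655625, 6687313], 0⟩,
  mz,
  ⟨⟨9, 56, -64, -56, -25, -12, 38, -16, -73⟩, (.cons (nat_lit 1225447) (nat_lit 206736) (nat_lit 2481857)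
 (nat_lit 1) (.cons (nat_lit 2907869) (nat_lit 4505461) (nat_lit 2192298) (nat_lit 1) .nil)), (nat_lit 39),
 (nat_lit 0), (nat_lit 0), (nat_lit 0), (56, 46, 55), [2792294, 238884], 0⟩,
  ⟨⟨-61, -48, 25, 44, -55, -32, -22, -8, -55⟩, (.cons (nat_lit 2992543) (nat_lit 2413899) (nat_lit 2931741)
 (nat_lit 1) (.cons (nat_lit 684096) (nat_lit 7594826) (nat_lit 6239854) (nat_lit 1) .nil)), (nat_lit 24),
 (nat_lit 0), (nat_lit 0), (nat_lit 0), (9, 68, 37), [1417820, 5880607], 0⟩,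
  mz,
  mz,
  ⟨⟨17, -24, 72, 36, -55, -48, 54, 24, -1⟩, (.cons (nat_lit 1810480) (nat_lit 1255675) (nat_lit 1891026)
 (nat_lit 1) (.cons (nat_lit 6446649) (nat_lit 3800638) (nat_lit 3014941) (nat_lit 1) .nil)), (nat_lit 70),
 (nat_lit 0), (nat_lit 0), (nat_lit 0), (28, 5, 43), [2422949, 6707529], 0⟩,
  ⟨⟨-61, 48, 25, 44, 55, -32, -22, 8, -55⟩, (.cons (nat_lit 2569300) (nat_lit 2970957) (nat_lit 1231193)
 (nat_lit 1) (.cons (nat_lit 3737818) (nat_lit 2857378) (nat_lit 1467935) (nat_lit 1) .nil)), (nat_lit 24),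
 (nat_lit 0), (nat_lit 0), (nat_lit 0), (13, 43, 14), [1393737, 913784], 0⟩,
  ⟨⟨-39, 40, -41, 44, 55, -12, 22, -8, -77⟩, (.cons (nat_lit 3094790) (nat_lit 1207360) (nat_lit 699239)
 (nat_lit 1) (.cons (nat_lit 7570217) (nat_lit 992855) (nat_lit 3986379) (nat_lit 1) .nil)), (nat_lit 23),
 (nat_lit 0), (nat_lit 0), (nat_lit 0), (2, 56, 28), [3096412, 5543784], 0⟩,
  mz,
  ⟨⟨51, -4, 40, 10, -69, -20, 60, 12, -49⟩, (.cons (nat_lit 2907563) (nat_lit 2081878) (nat_lit 153637)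
 (nat_lit 1) (.cons (nat_lit 4665395) (nat_lit 6676194) (nat_lit 680178) (nat_lit 1) .nil)), (nat_lit 48),
 (nat_lit 0), (nat_lit 0), (nat_lit 0), (60, 41, 33), [1106769, 6537188], 0⟩,
  mz,
  mz,
  ⟨⟨-13, -72, 36, -70, 11, 30, -4, -44, -49⟩, (.cons (nat_lit 409170) (nat_lit 2086794) (nat_lit 1925114)
 (nat_lit 1) (.cons (nat_lit 2827012) (nat_lit 4963039) (nat_lit 4807478) (nat_lit 1) .nil)), (nat_lit 43),
 (nat_lit 0), (nat_lit 0), (nat_lit 0), (29, 36, 69), [978502, 478663], 0⟩,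
  mz,
  ⟨⟨-11, 72, -25, 50, -11, -80, -44, 4, -29⟩, (.cons (nat_lit 2210441) (nat_lit 2228937) (nat_lit 1529068)
 (nat_lit 1) (.cons (nat_lit 7318621) (nat_lit 6496543) (nat_lit 1601075) (nat_lit 1) .nil)), (nat_lit 29),
 (nat_lit 0), (nat_lit 0), (nat_lit 0), (44, 13, 34), [1366195, 3858855], 0⟩,
  mz,
  ⟨⟨-29, -72, 20, 56, -25, -68, -38, -16, -35⟩, (.cons (nat_lit 3282094) (nat_lit 555783) (nat_lit 2863344)
 (nat_lit 1) (.cons (nat_lit 2282241) (nat_lit 2527909) (nat_lit 1963798) (nat_lit 1) .nil)), (nat_lit 8),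
 (nat_lit 0), (nat_lit 0), (nat_lit 0), (27, 36, 6), [1678207, 846083], 0⟩,
  ⟨⟨-63, 40, 7, -10, 21, 80, 12, 60, -25⟩, (.cons (nat_lit 2291213) (nat_lit 42295) (nat_lit 1649431) (nat_lit
 1) (.cons (nat_lit 123266) (nat_lit 1168062) (nat_lit 7572693) (nat_lit 1) .nil)), (nat_lit 1), (nat_lit 0),
 (nat_lit 0), (nat_lit 0), (60, 67, 19), [50578, 6344891], 0⟩,
  mz,
  ⟨⟨23, 72, 9, 64, -25, -12, 26, 32, -67⟩, (.cons (nat_lit 1178081) (nat_lit 2015368) (nat_lit 1902958)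
 (nat_lit 1) (.cons (nat_lit 4994321) (nat_lit 1427231) (nat_lit 7857403) (nat_lit 1) .nil)), (nat_lit 49),
 (nat_lit 0), (nat_lit 0), (nat_lit 0), (66, 54, 53), [476658, 5763181], 0⟩,
  mz,
  ⟨⟨17, -24, -89, -36, 55, -12, 54, 24, -53⟩, (.cons (nat_lit 2103189) (nat_lit 2402836) (nat_lit 2399934)
 (nat_lit 1) (.cons (nat_lit 1302540) (nat_lit 2079343) (nat_lit 6172767) (nat_lit 1) .nil)), (nat_lit 22),
 (nat_lit 0), (nat_lit 0), (nat_lit 0), (5, 27, 66), [1694815, 6088888], 0⟩,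
  ⟨⟨-23, -72, 32, -64, 25, 52, -26, -32, -41⟩, (.cons (nat_lit 600608) (nat_lit 3167784) (nat_lit 257253)
 (nat_lit 1) (.cons (nat_lit 7024817) (nat_lit 2025700) (nat_lit 5133503) (nat_lit 1) .nil)), (nat_lit 49),
 (nat_lit 0), (nat_lit 0), (nat_lit 0), (21, 43, 33), [565867, 2262673], 0⟩,
  mz,
  mz,
  ⟨⟨75, 16, -52, 4, -55, -52, 10, 40, -59⟩, (.cons (nat_lit 1282435) (nat_lit 3385029) (nat_lit 1324001)
 (nat_lit 1) (.cons (nat_lit 7600595) (nat_lit 4849143) (nat_lit 2396899) (nat_lit 1) .nil)), (nat_lit 65),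
 (nat_lit 0), (nat_lit 0), (nat_lit 0), (5, 5, 48), [2203669, 2790597], 0⟩,
  ⟨⟨11, -72, -36, -50, 11, -30, 44, -4, -73⟩, (.cons (nat_lit 545185) (nat_lit 2715885) (nat_lit 1280502)
 (nat_lit 1) (.cons (nat_lit 1289576) (nat_lit 5653028) (nat_lit 5796220) (nat_lit 1) .nil)), (nat_lit 29),
 (nat_lit 0), (nat_lit 0), (nat_lit 0), (69, 22, 63), [3162861, 7522128], 0⟩,
  ⟨⟨-39, -40, -41, 44, -55, -12, 22, 8, -77⟩, (.cons (nat_lit 491491) (nat_lit 292663) (nat_lit 1812357)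
 (nat_lit 1) (.cons (nat_lit 6063906) (nat_lit 4717171) (nat_lit 4536961) (nat_lit 1) .nil)), (nat_lit 23),
 (nat_lit 0), (nat_lit 0), (nat_lit 0), (46, 10, 5), [2973517, 916867], 0⟩,
  mz,
  ⟨⟨-9, -76, -11, -44, 15, -38, 42, -24, -67⟩, (.cons (nat_lit 702603) (nat_lit 365729) (nat_lit 128501)
 (nat_lit 1) (.cons (nat_lit 3687400) (nat_lit 5609073) (nat_lit 5570606) (nat_lit 1) .nil)), (nat_lit 67),
 (nat_lit 0), (nat_lit 0), (nat_lit 0), (66, 15, 47), [718141, 7697709], 0⟩,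
  ⟨⟨51, 4, -91, 10, 69, 10, 60, -12, -11⟩, (.cons (nat_lit 1296160) (nat_lit 135268) (nat_lit 864990) (nat_lit
 1) (.cons (nat_lit 1970707) (nat_lit 6183952) (nat_lit 2022750) (nat_lit 1) .nil)), (nat_lit 48), (nat_lit 0),
 (nat_lit 0), (nat_lit 0), (45, 13, 7), [534326, 7719405], 0⟩,
  ⟨⟨51, 4, 40, 10, 69, -20, 60, -12, -49⟩, (.cons (nat_lit 3418800) (nat_lit 2192597) (nat_lit 1602666)
 (nat_lit 1) (.cons (nat_lit 7890480) (nat_lit 2092908) (nat_lit 3206391) (nat_lit 1) .nil)), (nat_lit 48),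
 (nat_lit 0), (nat_lit 0), (nat_lit 0), (13, 29, 32), [1410753, 6899514], 0⟩,
  ⟨⟨9, -56, -64, -56, 25, -12, 38, 16, -73⟩, (.cons (nat_lit 2716146) (nat_lit 1012256) (nat_lit 1260243)
 (nat_lit 1) (.cons (nat_lit 1925815) (nat_lit 1375229) (nat_lit 3826980) (nat_lit 1) .nil)), (nat_lit 39),
 (nat_lit 0), (nat_lit 0), (nat_lit 0), (4, 54, 9), [3236423, 7163916], 0⟩,
  ⟨⟨-75, 16, 23, -4, -55, -48, -10, 40, -49⟩, (.cons (nat_lit 1263896) (nat_lit 814446) (nat_lit 740128)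
 (nat_lit 1) (.cons (nat_lit 7183979) (nat_lit 6964457) (nat_lit 3287417) (nat_lit 1) .nil)), (nat_lit 65),
 (nat_lit 0), (nat_lit 0), (nat_lit 0), (26, 26, 65), [25719, 2127903], 0⟩,
  ⟨⟨9, -76, -20, 44, 15, -82, -42, -24, -25⟩, (.cons (nat_lit 990952) (nat_lit 510510) (nat_lit 5788) (nat_lit
 1) (.cons (nat_lit 2259849) (nat_lit 2292142) (nat_lit 3907013) (nat_lit 1) .nil)), (nat_lit 67), (nat_lit 0),
 (nat_lit 0), (nat_lit 0), (1, 68, 19), [3196145, 493693], 0⟩,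
  mz,
  ⟨⟨13, -72, 23, 70, 11, -40, 4, -44, -53⟩, (.cons (nat_lit 1440002) (nat_lit 1284156) (nat_lit 286505)
 (nat_lit 1) (.cons (nat_lit 2354087) (nat_lit 7135416) (nat_lit 6668322) (nat_lit 1) .nil)), (nat_lit 43),
 (nat_lit 0), (nat_lit 0), (nat_lit 0), (14, 59, 48), [621344, 2972780], 0⟩,
  ⟨⟨9, 16, 80, -10, 69, -10, 60, 12, -11⟩, (.cons (nat_lit 2196651) (nat_lit 2043314) (nat_lit 2969545)
 (nat_lit 1) (.cons (nat_lit 6292662) (nat_lit 4306237) (nat_lit 5308390) (nat_lit 1) .nil)), (nat_lit 47),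
 (nat_lit 0), (nat_lit 0), (nat_lit 0), (58, 46, 8), [2071739, 2220428], 0⟩,
  ⟨⟨75, -20, -32, 10, 21, -80, 12, -60, -25⟩, (.cons (nat_lit 3418800) (nat_lit 3380243) (nat_lit 1891238)
 (nat_lit 1) (.cons (nat_lit 7890480) (nat_lit 7803299) (nat_lit 1379929) (nat_lit 1) .nil)), (nat_lit 55),
 (nat_lit 0), (nat_lit 0), (nat_lit 0), (52, 59, 14), [3163004, 5850020], 0⟩,
  mz,
  ⟨⟨-11, -72, -25, 50, 11, -80, -44, -4, -29⟩, (.cons (nat_lit 2744444) (nat_lit 2393428) (nat_lit 912455)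
 (nat_lit 1) (.cons (nat_lit 4219999) (nat_lit 6186694) (nat_lit 6414286) (nat_lit 1) .nil)), (nat_lit 29),
 (nat_lit 0), (nat_lit 0), (nat_lit 0), (38, 8, 10), [2343195, 2025915], 0⟩,
  ⟨⟨-75, -20, 43, -10, 21, -70, -12, -60, -13⟩, (.cons (nat_lit 387689) (nat_lit 1639431) (nat_lit 2800320)
 (nat_lit 1) (.cons (nat_lit 5613676) (nat_lit 5151759) (nat_lit 1460051) (nat_lit 1) .nil)), (nat_lit 55),
 (nat_lit 0), (nat_lit 0), (nat_lit 0), (2, 5, 6), [1282227, 1043065], 0⟩,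
  mz,
  mz,
  mz,
  ⟨⟨33, -68, -37, -50, -11, -30, 44, 4, -73⟩, (.cons (nat_lit 2800831) (nat_lit 3341025) (nat_lit 414403)
 (nat_lit 1) (.cons (nat_lit 222389) (nat_lit 5638925) (nat_lit 6366285) (nat_lit 1) .nil)), (nat_lit 53),
 (nat_lit 0), (nat_lit 0), (nat_lit 0), (12, 27, 16), [2686682, 2230803], 0⟩,
  mz,
  ⟨⟨-13, 72, 36, 70, 11, -30, -4, 44, -49⟩, (.cons (nat_lit 282240) (nat_lit 2789951) (nat_lit 2169523)
 (nat_lit 1) (.cons (nat_lit 4727333) (nat_lit 5920830) (nat_lit 239210) (nat_lit 1) .nil)), (nat_lit 62),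
 (nat_lit 0), (nat_lit 0), (nat_lit 0), (35, 30, 49), [1406870, 6774985], 0⟩,
  ⟨⟨-65, -24, -7, -4, -55, 52, 10, -40, -59⟩, (.cons (nat_lit 2912060) (nat_lit 2361368) (nat_lit 476745)
 (nat_lit 1) (.cons (nat_lit 4035548) (nat_lit 3594742) (nat_lit 4882138) (nat_lit 1) .nil)), (nat_lit 50),
 (nat_lit 0), (nat_lit 0), (nat_lit 0), (41, 20, 21), [1983108, 5974997], 0⟩,
  mz,
  ⟨⟨-27, -68, 43, 64, -15, -2, 6, -48, -49⟩, (.cons (nat_lit 446767) (nat_lit 1521208) (nat_lit 82348) (nat_lit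
 1) (.cons (nat_lit 4346541) (nat_lit 2922569) (nat_lit 771601) (nat_lit 1) .nil)), (nat_lit 15), (nat_lit 0),
 (nat_lit 0), (nat_lit 0), (60, 55, 34), [2786103, 1612608], 0⟩,
  ⟨⟨13, 72, 23, 70, -11, -40, 4, 44, -53⟩, (.cons (nat_lit 363075) (nat_lit 1745301) (nat_lit 646361) (nat_lit
 1) (.cons (nat_lit 7494899) (nat_lit 4732437) (nat_lit 5247702) (nat_lit 1) .nil)), (nat_lit 43), (nat_lit 0),
 (nat_lit 0), (nat_lit 0), (20, 64, 28), [1515706, 3159361], 0⟩,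
  ⟨⟨-23, 72, 32, 64, 25, -52, -26, 32, -41⟩, (.cons (nat_lit 1260897) (nat_lit 2714241) (nat_lit 221440)
 (nat_lit 1) (.cons (nat_lit 1470684) (nat_lit 6827506) (nat_lit 933669) (nat_lit 1) .nil)), (nat_lit 18),
 (nat_lit 0), (nat_lit 0), (nat_lit 0), (27, 36, 12), [1510360, 1384917], 0⟩,
  ⟨⟨17, 24, 72, 36, 55, -48, 54, -24, -1⟩, (.cons (nat_lit 3418800) (nat_lit 1039838) (nat_lit 1356095)
 (nat_lit 1) (.cons (nat_lit 7890480) (nat_lit 375740) (nat_lit 4862268) (nat_lit 1) .nil)), (nat_lit 70),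
 (nat_lit 0), (nat_lit 0), (nat_lit 0), (30, 51, 41), [1333512, 3886452], 0⟩]

/-- Moves. -/
noncomputable def t4_7 : List Mv := [
  mz,
  ⟨⟨-75, 20, 43, -10, -21, -70, -12, 60, -13⟩, (.cons (nat_lit 592690) (nat_lit 132637) (nat_lit 1341165)
 (nat_lit 1) (.cons (nat_lit 199876) (nat_lit 7034271) (nat_lit 2267574) (nat_lit 1) .nil)), (nat_lit 55),
 (nat_lit 0), (nat_lit 0), (nat_lit 0), (51, 21, 11), [1591384, 1279576], 0⟩,
  mz,
  ⟨⟨65, -24, -72, -4, 55, -48, -10, -40, -49⟩, (.cons (nat_lit 3418800) (nat_lit 2569734) (nat_lit 1051699)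
 (nat_lit 1) (.cons (nat_lit 7890480) (nat_lit 1724584) (nat_lit 2522019) (nat_lit 1) .nil)), (nat_lit 3),
 (nat_lit 0), (nat_lit 0), (nat_lit 0), (37, 1, 38), [1866349, 212963], 0⟩,
  ⟨⟨27, 68, 16, 64, -15, -62, -6, 48, -43⟩, (.cons (nat_lit 2277610) (nat_lit 2461196) (nat_lit 1703600)
 (nat_lit 1) (.cons (nat_lit 4942208) (nat_lit 4982296) (nat_lit 7522662) (nat_lit 1) .nil)), (nat_lit 46),
 (nat_lit 0), (nat_lit 0), (nat_lit 0), (60, 16, 34), [2791441, 5666188], 0⟩,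
  ⟨⟨-33, 20, -59, 64, 15, -62, -6, -48, -43⟩, (.cons (nat_lit 436842) (nat_lit 3020863) (nat_lit 3014342)
 (nat_lit 1) (.cons (nat_lit 5713841) (nat_lit 2043198) (nat_lit 3176399) (nat_lit 1) .nil)), (nat_lit 51),
 (nat_lit 0), (nat_lit 0), (nat_lit 0), (23, 35, 30), [2646815, 3367401], 0⟩,
  mz,
  ⟨⟨-29, 72, 20, 56, 25, -68, -38, 16, -35⟩, (.cons (nat_lit 500399) (nat_lit 2099654) (nat_lit 2265370)
 (nat_lit 1) (.cons (nat_lit 5392578) (nat_lit 4293118) (nat_lit 4062981) (nat_lit 1) .nil)), (nat_lit 8),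
 (nat_lit 0), (nat_lit 0), (nat_lit 0), (33, 44, 31), [1189881, 5663448], 0⟩,
  ⟨⟨3, 40, -76, 64, 25, -12, 26, -32, -67⟩, (.cons (nat_lit 595620) (nat_lit 1490320) (nat_lit 1930071)
 (nat_lit 1) (.cons (nat_lit 514051) (nat_lit 7029872) (nat_lit 7203226) (nat_lit 1) .nil)), (nat_lit 7),
 (nat_lit 0), (nat_lit 0), (nat_lit 0), (14, 62, 3), [3017254, 1260878], 0⟩,
  mz,
  mz,
  ⟨⟨33, -20, -92, 64, 15, -2, 6, 48, -49⟩, (.cons (nat_lit 2959406) (nat_lit 627285) (nat_lit 2611281) (nat_lit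
 1) (.cons (nat_lit 5917902) (nat_lit 7275963) (nat_lit 1272386) (nat_lit 1) .nil)), (nat_lit 12), (nat_lit 0),
 (nat_lit 0), (nat_lit 0), (67, 3, 38), [19520, 6128501], 0⟩,
  ⟨⟨9, 76, -20, -44, 15, 82, -42, 24, -25⟩, (.cons (nat_lit 2918448) (nat_lit 905800) (nat_lit 2522824)
 (nat_lit 1) (.cons (nat_lit 1960665) (nat_lit 3266732) (nat_lit 2790599) (nat_lit 1) .nil)), (nat_lit 11),
 (nat_lit 0), (nat_lit 0), (nat_lit 0), (31, 22, 21), [1983669, 413414], 0⟩,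
  mz,
  mz,
  ⟨⟨51, -52, -56, -44, -15, -38, 42, 24, -67⟩, (.cons (nat_lit 3102221) (nat_lit 1331109) (nat_lit 1895742)
 (nat_lit 1) (.cons (nat_lit 6865274) (nat_lit 7260770) (nat_lit 713253) (nat_lit 1) .nil)), (nat_lit 5),
 (nat_lit 0), (nat_lit 0), (nat_lit 0), (24, 67, 49), [3336251, 3757812], 0⟩,
  ⟨⟨17, 24, -89, -36, -55, -12, 54, -24, -53⟩, (.cons (nat_lit 3262196) (nat_lit 371239) (nat_lit 2307283)
 (nat_lit 1) (.cons (nat_lit 2796471) (nat_lit 1968604) (nat_lit 786067) (nat_lit 1) .nil)), (nat_lit 22),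
 (nat_lit 0), (nat_lit 0), (nat_lit 0), (7, 52, 64), [925493, 3516651], 0⟩,
  mz,
  ⟨⟨9, 56, -64, -56, -25, -12, 38, -16, -73⟩, (.cons (nat_lit 1225447) (nat_lit 206736) (nat_lit 2481857)
 (nat_lit 1) (.cons (nat_lit 2907869) (nat_lit 4505461) (nat_lit 2192298) (nat_lit 1) .nil)), (nat_lit 39),
 (nat_lit 0), (nat_lit 0), (nat_lit 0), (56, 46, 55), [2792294, 238884], 0⟩,
  ⟨⟨39, 40, -80, -44, 55, 32, -22, -8, -55⟩, (.cons (nat_lit 1496922) (nat_lit 1491590) (nat_lit 1974974)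
 (nat_lit 1) (.cons (nat_lit 7099631) (nat_lit 5837190) (nat_lit 2921856) (nat_lit 1) .nil)), (nat_lit 23),
 (nat_lit 0), (nat_lit 0), (nat_lit 0), (28, 3, 37), [1953816, 2563738], 0⟩,
  mz,
  mz,
  ⟨⟨37, 48, -73, -36, 55, 48, 54, 24, -1⟩, (.cons (nat_lit 2218242) (nat_lit 2330236) (nat_lit 561763) (nat_lit
 1) (.cons (nat_lit 678405) (nat_lit 455516) (nat_lit 6375250) (nat_lit 1) .nil)), (nat_lit 16), (nat_lit 0),
 (nat_lit 0), (nat_lit 0), (15, 66, 43), [107023, 2897211], 0⟩,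
  ⟨⟨-61, 48, 25, 44, 55, -32, -22, 8, -55⟩, (.cons (nat_lit 2569300) (nat_lit 2970957) (nat_lit 1231193)
 (nat_lit 1) (.cons (nat_lit 3737818) (nat_lit 2857378) (nat_lit 1467935) (nat_lit 1) .nil)), (nat_lit 24),
 (nat_lit 0), (nat_lit 0), (nat_lit 0), (13, 43, 14), [1393737, 913784], 0⟩,
  ⟨⟨61, -48, -36, -44, -55, 12, 22, -8, -77⟩, (.cons (nat_lit 3418800) (nat_lit 1886246) (nat_lit 758132)
 (nat_lit 1) (.cons (nat_lit 7890480) (nat_lit 4607141) (nat_lit 222152) (nat_lit 1) .nil)), (nat_lit 24),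
 (nat_lit 0), (nat_lit 0), (nat_lit 0), (26, 15, 28), [3211651, 2747529], 0⟩,
  mz,
  ⟨⟨51, -4, 40, 10, -69, -20, 60, 12, -49⟩, (.cons (nat_lit 2907563) (nat_lit 2081878) (nat_lit 153637)
 (nat_lit 1) (.cons (nat_lit 4665395) (nat_lit 6676194) (nat_lit 680178) (nat_lit 1) .nil)), (nat_lit 48),
 (nat_lit 0), (nat_lit 0), (nat_lit 0), (60, 41, 33), [1106769, 6537188], 0⟩,
  mz,
  mz,
  ⟨⟨-13, -72, 36, 70, -11, -30, -4, -44, -49⟩, (.cons (nat_lit 168727) (nat_lit 1971925) (nat_lit 2660384)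
 (nat_lit 1) (.cons (nat_lit 28088) (nat_lit 6907366) (nat_lit 577289) (nat_lit 1) .nil)), (nat_lit 62),
 (nat_lit 0), (nat_lit 0), (nat_lit 0), (29, 35, 69), [2085991, 925550], 0⟩,
  mz,
  ⟨⟨-11, 72, -25, 50, -11, -80, -44, 4, -29⟩, (.cons (nat_lit 2210441) (nat_lit 2228937) (nat_lit 1529068)
 (nat_lit 1) (.cons (nat_lit 7318621) (nat_lit 6496543) (nat_lit 1601075) (nat_lit 1) .nil)), (nat_lit 29),
 (nat_lit 0), (nat_lit 0), (nat_lit 0), (44, 13, 34), [1366195, 3858855], 0⟩,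
  mz,
  ⟨⟨-9, 56, -55, 56, -25, -68, -38, -16, -35⟩, (.cons (nat_lit 112799) (nat_lit 3006036) (nat_lit 3094039)
 (nat_lit 1) (.cons (nat_lit 6273211) (nat_lit 1066296) (nat_lit 2855921) (nat_lit 1) .nil)), (nat_lit 39),
 (nat_lit 0), (nat_lit 0), (nat_lit 0), (50, 36, 6), [3290191, 2707413], 0⟩,
  ⟨⟨-63, 40, 7, 10, -21, -80, 12, 60, -25⟩, (.cons (nat_lit 2842837) (nat_lit 1383500) (nat_lit 2219622)
 (nat_lit 1) (.cons (nat_lit 6201402) (nat_lit 7397650) (nat_lit 7458771) (nat_lit 1) .nil)), (nat_lit 58),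
 (nat_lit 0), (nat_lit 0), (nat_lit 0), (60, 4, 19), [3152972, 3696730], 0⟩,
  mz,
  ⟨⟨3, -40, -76, 64, -25, -12, 26, 32, -67⟩, (.cons (nat_lit 3248425) (nat_lit 1049543) (nat_lit 3327118)
 (nat_lit 1) (.cons (nat_lit 1644985) (nat_lit 5997915) (nat_lit 2905803) (nat_lit 1) .nil)), (nat_lit 7),
 (nat_lit 0), (nat_lit 0), (nat_lit 0), (58, 54, 53), [776153, 3380671], 0⟩,
  mz,
  ⟨⟨17, -24, -89, -36, 55, -12, 54, 24, -53⟩, (.cons (nat_lit 2103189) (nat_lit 2402836) (nat_lit 2399934)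
 (nat_lit 1) (.cons (nat_lit 1302540) (nat_lit 2079343) (nat_lit 6172767) (nat_lit 1) .nil)), (nat_lit 22),
 (nat_lit 0), (nat_lit 0), (nat_lit 0), (5, 27, 66), [1694815, 6088888], 0⟩,
  ⟨⟨-23, -72, 32, 64, -25, -52, -26, -32, -41⟩, (.cons (nat_lit 1220714) (nat_lit 103913) (nat_lit 1296272)
 (nat_lit 1) (.cons (nat_lit 5331842) (nat_lit 5405718) (nat_lit 3562408) (nat_lit 1) .nil)), (nat_lit 18),
 (nat_lit 0), (nat_lit 0), (nat_lit 0), (21, 28, 33), [2565414, 2770664], 0⟩,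
  mz,
  mz,
  ⟨⟨75, 16, -52, -4, 55, 52, 10, 40, -59⟩, (.cons (nat_lit 3418800) (nat_lit 593160) (nat_lit 1432130) (nat_lit
 1) (.cons (nat_lit 7890480) (nat_lit 416694) (nat_lit 2104567) (nat_lit 1) .nil)), (nat_lit 42), (nat_lit 0),
 (nat_lit 0), (nat_lit 0), (5, 66, 48), [2426037, 3360898], 0⟩,
  ⟨⟨33, 68, -37, -50, 11, -30, 44, -4, -73⟩, (.cons (nat_lit 3305551) (nat_lit 1710062) (nat_lit 2269760)
 (nat_lit 1) (.cons (nat_lit 1102116) (nat_lit 7529356) (nat_lit 648377) (nat_lit 1) .nil)), (nat_lit 53),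
 (nat_lit 0), (nat_lit 0), (nat_lit 0), (65, 22, 63), [2252207, 7811941], 0⟩,
  ⟨⟨-39, -40, -41, 44, -55, -12, 22, 8, -77⟩, (.cons (nat_lit 491491) (nat_lit 292663) (nat_lit 1812357)
 (nat_lit 1) (.cons (nat_lit 6063906) (nat_lit 4717171) (nat_lit 4536961) (nat_lit 1) .nil)), (nat_lit 23),
 (nat_lit 0), (nat_lit 0), (nat_lit 0), (46, 10, 5), [2973517, 916867], 0⟩,
  mz,
  ⟨⟨51, 52, -56, -44, 15, -38, 42, -24, -67⟩, (.cons (nat_lit 827982) (nat_lit 745262) (nat_lit 2577523)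
 (nat_lit 1) (.cons (nat_lit 4955740) (nat_lit 3916065) (nat_lit 6458199) (nat_lit 1) .nil)), (nat_lit 5),
 (nat_lit 0), (nat_lit 0), (nat_lit 0), (52, 15, 47), [2335801, 3260194], 0⟩,
  ⟨⟨9, -16, 80, 10, 69, 10, 60, -12, -11⟩, (.cons (nat_lit 1063981) (nat_lit 2470876) (nat_lit 186321) (nat_lit
 1) (.cons (nat_lit 1484176) (nat_lit 4989959) (nat_lit 5008493) (nat_lit 1) .nil)), (nat_lit 54), (nat_lit 0),
 (nat_lit 0), (nat_lit 0), (33, 13, 7), [201420, 5613168], 0⟩,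
  ⟨⟨51, 4, 40, 10, 69, -20, 60, -12, -49⟩, (.cons (nat_lit 3418800) (nat_lit 2192597) (nat_lit 1602666)
 (nat_lit 1) (.cons (nat_lit 7890480) (nat_lit 2092908) (nat_lit 3206391) (nat_lit 1) .nil)), (nat_lit 48),
 (nat_lit 0), (nat_lit 0), (nat_lit 0), (13, 29, 32), [1410753, 6899514], 0⟩,
  ⟨⟨29, 72, -9, -56, 25, -12, 38, 16, -73⟩, (.cons (nat_lit 634887) (nat_lit 462859) (nat_lit 1894149) (nat_lit
 1) (.cons (nat_lit 2879032) (nat_lit 7681058) (nat_lit 1234275) (nat_lit 1) .nil)), (nat_lit 8), (nat_lit 0),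
 (nat_lit 0), (nat_lit 0), (5, 54, 9), [1842621, 2683540], 0⟩,
  ⟨⟨-75, 16, 23, 4, 55, 48, -10, 40, -49⟩, (.cons (nat_lit 1171450) (nat_lit 1022171) (nat_lit 382685) (nat_lit
 1) (.cons (nat_lit 5873146) (nat_lit 1303003) (nat_lit 3066876) (nat_lit 1) .nil)), (nat_lit 42), (nat_lit 0),
 (nat_lit 0), (nat_lit 0), (26, 45, 65), [2733960, 1092246], 0⟩,
  ⟨⟨9, -76, -20, 44, 15, -82, -42, -24, -25⟩, (.cons (nat_lit 990952) (nat_lit 510510) (nat_lit 5788) (nat_lit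
 1) (.cons (nat_lit 2259849) (nat_lit 2292142) (nat_lit 3907013) (nat_lit 1) .nil)), (nat_lit 67), (nat_lit 0),
 (nat_lit 0), (nat_lit 0), (1, 68, 19), [3196145, 493693], 0⟩,
  mz,
  ⟨⟨13, -72, 23, -70, -11, 40, 4, -44, -53⟩, (.cons (nat_lit 1444934) (nat_lit 1779113) (nat_lit 916743)
 (nat_lit 1) (.cons (nat_lit 600650) (nat_lit 229924) (nat_lit 7378894) (nat_lit 1) .nil)), (nat_lit 62),
 (nat_lit 0), (nat_lit 0), (nat_lit 0), (14, 12, 48), [3105392, 7589792], 0⟩,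
  ⟨⟨9, 16, 80, -10, 69, -10, 60, 12, -11⟩, (.cons (nat_lit 2196651) (nat_lit 2043314) (nat_lit 2969545)
 (nat_lit 1) (.cons (nat_lit 6292662) (nat_lit 4306237) (nat_lit 5308390) (nat_lit 1) .nil)), (nat_lit 47),
 (nat_lit 0), (nat_lit 0), (nat_lit 0), (58, 46, 8), [2071739, 2220428], 0⟩,
  ⟨⟨-63, -40, 7, 10, 21, -80, 12, -60, -25⟩, (.cons (nat_lit 213238) (nat_lit 508677) (nat_lit 3402903)
 (nat_lit 1) (.cons (nat_lit 7549626) (nat_lit 7829319) (nat_lit 5156454) (nat_lit 1) .nil)), (nat_lit 58),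
 (nat_lit 0), (nat_lit 0), (nat_lit 0), (33, 59, 14), [745114, 4458568], 0⟩,
  mz,
  ⟨⟨-11, -72, -25, 50, 11, -80, -44, -4, -29⟩, (.cons (nat_lit 2744444) (nat_lit 2393428) (nat_lit 912455)
 (nat_lit 1) (.cons (nat_lit 4219999) (nat_lit 6186694) (nat_lit 6414286) (nat_lit 1) .nil)), (nat_lit 29),
 (nat_lit 0), (nat_lit 0), (nat_lit 0), (38, 8, 10), [2343195, 2025915], 0⟩,
  ⟨⟨-75, -20, 43, 10, -21, 70, -12, -60, -13⟩, (.cons (nat_lit 2303852) (nat_lit 3118310) (nat_lit 1268209)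
 (nat_lit 1) (.cons (nat_lit 2335987) (nat_lit 1959854) (nat_lit 2352122) (nat_lit 1) .nil)), (nat_lit 34),
 (nat_lit 0), (nat_lit 0), (nat_lit 0), (2, 66, 6), [2412804, 102802], 0⟩,
  mz,
  mz,
  mz,
  ⟨⟨11, 72, -36, 50, 11, 30, 44, 4, -73⟩, (.cons (nat_lit 386638) (nat_lit 2435583) (nat_lit 3304482) (nat_lit
 1) (.cons (nat_lit 7335756) (nat_lit 3924538) (nat_lit 1548273) (nat_lit 1) .nil)), (nat_lit 64), (nat_lit 0),
 (nat_lit 0), (nat_lit 0), (4, 44, 16), [83887, 3128708], 0⟩,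
  mz,
  ⟨⟨-13, 72, 36, 70, 11, -30, -4, 44, -49⟩, (.cons (nat_lit 282240) (nat_lit 2789951) (nat_lit 2169523)
 (nat_lit 1) (.cons (nat_lit 4727333) (nat_lit 5920830) (nat_lit 239210) (nat_lit 1) .nil)), (nat_lit 62),
 (nat_lit 0), (nat_lit 0), (nat_lit 0), (35, 30, 49), [1406870, 6774985], 0⟩,
  ⟨⟨75, -16, -52, 4, 55, -52, 10, -40, -59⟩, (.cons (nat_lit 3418800) (nat_lit 2899694) (nat_lit 793431)
 (nat_lit 1) (.cons (nat_lit 7890480) (nat_lit 2536914) (nat_lit 713665) (nat_lit 1) .nil)), (nat_lit 65),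
 (nat_lit 0), (nat_lit 0), (nat_lit 0), (51, 51, 21), [2439797, 5634749], 0⟩,
  mz,
  ⟨⟨-27, -68, 43, -64, 15, 2, 6, -48, -49⟩, (.cons (nat_lit 281483) (nat_lit 439605) (nat_lit 67597) (nat_lit
 1) (.cons (nat_lit 6171067) (nat_lit 4650390) (nat_lit 1963794) (nat_lit 1) .nil)), (nat_lit 46), (nat_lit 0),
 (nat_lit 0), (nat_lit 0), (60, 16, 34), [2773880, 260289], 0⟩,
  ⟨⟨13, 72, 23, 70, -11, -40, 4, 44, -53⟩, (.cons (nat_lit 363075) (nat_lit 1745301) (nat_lit 646361) (nat_lit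
 1) (.cons (nat_lit 7494899) (nat_lit 4732437) (nat_lit 5247702) (nat_lit 1) .nil)), (nat_lit 43), (nat_lit 0),
 (nat_lit 0), (nat_lit 0), (20, 64, 28), [1515706, 3159361], 0⟩,
  ⟨⟨-23, 72, 32, 64, 25, -52, -26, 32, -41⟩, (.cons (nat_lit 1260897) (nat_lit 2714241) (nat_lit 221440)
 (nat_lit 1) (.cons (nat_lit 1470684) (nat_lit 6827506) (nat_lit 933669) (nat_lit 1) .nil)), (nat_lit 18),
 (nat_lit 0), (nat_lit 0), (nat_lit 0), (27, 36, 12), [1510360, 1384917], 0⟩,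
  ⟨⟨17, 24, 72, 36, 55, -48, 54, -24, -1⟩, (.cons (nat_lit 3418800) (nat_lit 1039838) (nat_lit 1356095)
 (nat_lit 1) (.cons (nat_lit 7890480) (nat_lit 375740) (nat_lit 4862268) (nat_lit 1) .nil)), (nat_lit 70),
 (nat_lit 0), (nat_lit 0), (nat_lit 0), (30, 51, 41), [1333512, 3886452], 0⟩]

/-- Moves. -/
noncomputable def t4_9 : List Mv := [
  mz,
  ⟨⟨-75, 20, 43, -10, -21, -70, -12, 60, -13⟩, (.cons (nat_lit 592690) (nat_lit 132637) (nat_lit 1341165)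
 (nat_lit 1) (.cons (nat_lit 199876) (nat_lit 7034271) (nat_lit 2267574) (nat_lit 1) .nil)), (nat_lit 55),
 (nat_lit 0), (nat_lit 0), (nat_lit 0), (51, 21, 11), [1591384, 1279576], 0⟩,
  mz,
  ⟨⟨65, -24, -72, -4, 55, -48, -10, -40, -49⟩, (.cons (nat_lit 3418800) (nat_lit 2569734) (nat_lit 1051699)
 (nat_lit 1) (.cons (nat_lit 7890480) (nat_lit 1724584) (nat_lit 2522019) (nat_lit 1) .nil)), (nat_lit 3),
 (nat_lit 0), (nat_lit 0), (nat_lit 0), (37, 1, 38), [1866349, 212963], 0⟩,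
  ⟨⟨27, 68, 16, 64, -15, -62, -6, 48, -43⟩, (.cons (nat_lit 2277610) (nat_lit 2461196) (nat_lit 1703600)
 (nat_lit 1) (.cons (nat_lit 4942208) (nat_lit 4982296) (nat_lit 7522662) (nat_lit 1) .nil)), (nat_lit 46),
 (nat_lit 0), (nat_lit 0), (nat_lit 0), (60, 16, 34), [2791441, 5666188], 0⟩,
  ⟨⟨27, -68, 16, 64, 15, -62, -6, -48, -43⟩, (.cons (nat_lit 3232047) (nat_lit 1270838) (nat_lit 2387144)
 (nat_lit 1) (.cons (nat_lit 88970) (nat_lit 7666467) (nat_lit 6751871) (nat_lit 1) .nil)), (nat_lit 46),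
 (nat_lit 0), (nat_lit 0), (nat_lit 0), (7, 35, 30), [2900988, 1820193], 0⟩,
  mz,
  ⟨⟨-29, 72, 20, -56, -25, 68, -38, 16, -35⟩, (.cons (nat_lit 1080706) (nat_lit 1352810) (nat_lit 2096417)
 (nat_lit 1) (.cons (nat_lit 350849) (nat_lit 5131422) (nat_lit 7301820) (nat_lit 1) .nil)), (nat_lit 36),
 (nat_lit 0), (nat_lit 0), (nat_lit 0), (33, 27, 31), [739376, 2202769], 0⟩,
  ⟨⟨3, 40, -76, 64, 25, -12, 26, -32, -67⟩, (.cons (nat_lit 595620) (nat_lit 1490320) (nat_lit 1930071)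
 (nat_lit 1) (.cons (nat_lit 514051) (nat_lit 7029872) (nat_lit 7203226) (nat_lit 1) .nil)), (nat_lit 7),
 (nat_lit 0), (nat_lit 0), (nat_lit 0), (14, 62, 3), [3017254, 1260878], 0⟩,
  mz,
  mz,
  ⟨⟨33, -20, -92, 64, 15, -2, 6, 48, -49⟩, (.cons (nat_lit 2959406) (nat_lit 627285) (nat_lit 2611281) (nat_lit
 1) (.cons (nat_lit 5917902) (nat_lit 7275963) (nat_lit 1272386) (nat_lit 1) .nil)), (nat_lit 12), (nat_lit 0),
 (nat_lit 0), (nat_lit 0), (67, 3, 38), [19520, 6128501], 0⟩,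
  ⟨⟨9, 76, -20, 44, -15, -82, -42, 24, -25⟩, (.cons (nat_lit 1408279) (nat_lit 899000) (nat_lit 2351712)
 (nat_lit 1) (.cons (nat_lit 3041575) (nat_lit 6303760) (nat_lit 2846989) (nat_lit 1) .nil)), (nat_lit 67),
 (nat_lit 0), (nat_lit 0), (nat_lit 0), (31, 49, 21), [1017433, 7686866], 0⟩,
  mz,
  mz,
  ⟨⟨51, -52, -56, -44, -15, -38, 42, 24, -67⟩, (.cons (nat_lit 3102221) (nat_lit 1331109) (nat_lit 1895742)
 (nat_lit 1) (.cons (nat_lit 6865274) (nat_lit 7260770) (nat_lit 713253) (nat_lit 1) .nil)), (nat_lit 5),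
 (nat_lit 0), (nat_lit 0), (nat_lit 0), (24, 67, 49), [3336251, 3757812], 0⟩,
  ⟨⟨37, -48, 36, -36, -55, -12, 54, -24, -53⟩, (.cons (nat_lit 3418800) (nat_lit 641368) (nat_lit 2638297)
 (nat_lit 1) (.cons (nat_lit 7890480) (nat_lit 3875607) (nat_lit 2165236) (nat_lit 1) .nil)), (nat_lit 16),
 (nat_lit 0), (nat_lit 0), (nat_lit 0), (57, 52, 64), [655625, 6687313], 0⟩,
  mz,
  ⟨⟨29, -72, -9, 56, 25, 12, 38, -16, -73⟩, (.cons (nat_lit 2202347) (nat_lit 2651417) (nat_lit 1699157)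
 (nat_lit 1) (.cons (nat_lit 2784147) (nat_lit 7307517) (nat_lit 755328) (nat_lit 1) .nil)), (nat_lit 36),
 (nat_lit 0), (nat_lit 0), (nat_lit 0), (70, 25, 55), [1449646, 2281878], 0⟩,
  ⟨⟨-61, -48, 25, 44, -55, -32, -22, -8, -55⟩, (.cons (nat_lit 2992543) (nat_lit 2413899) (nat_lit 2931741)
 (nat_lit 1) (.cons (nat_lit 684096) (nat_lit 7594826) (nat_lit 6239854) (nat_lit 1) .nil)), (nat_lit 24),
 (nat_lit 0), (nat_lit 0), (nat_lit 0), (9, 68, 37), [1417820, 5880607], 0⟩,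
  mz,
  mz,
  ⟨⟨17, -24, 72, -36, 55, 48, 54, 24, -1⟩, (.cons (nat_lit 3418800) (nat_lit 1361572) (nat_lit 2712193)
 (nat_lit 1) (.cons (nat_lit 7890480) (nat_lit 4351685) (nat_lit 4143496) (nat_lit 1) .nil)), (nat_lit 22),
 (nat_lit 0), (nat_lit 0), (nat_lit 0), (28, 66, 43), [1874753, 1075271], 0⟩,
  ⟨⟨-61, 48, 25, 44, 55, -32, -22, 8, -55⟩, (.cons (nat_lit 2569300) (nat_lit 2970957) (nat_lit 1231193)
 (nat_lit 1) (.cons (nat_lit 3737818) (nat_lit 2857378) (nat_lit 1467935) (nat_lit 1) .nil)), (nat_lit 24),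
 (nat_lit 0), (nat_lit 0), (nat_lit 0), (13, 43, 14), [1393737, 913784], 0⟩,
  ⟨⟨-39, 40, -41, 44, 55, -12, 22, -8, -77⟩, (.cons (nat_lit 3094790) (nat_lit 1207360) (nat_lit 699239)
 (nat_lit 1) (.cons (nat_lit 7570217) (nat_lit 992855) (nat_lit 3986379) (nat_lit 1) .nil)), (nat_lit 23),
 (nat_lit 0), (nat_lit 0), (nat_lit 0), (2, 56, 28), [3096412, 5543784], 0⟩,
  mz,
  ⟨⟨51, -4, 40, 10, -69, -20, 60, 12, -49⟩, (.cons (nat_lit 2907563) (nat_lit 2081878) (nat_lit 153637)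
 (nat_lit 1) (.cons (nat_lit 4665395) (nat_lit 6676194) (nat_lit 680178) (nat_lit 1) .nil)), (nat_lit 48),
 (nat_lit 0), (nat_lit 0), (nat_lit 0), (60, 41, 33), [1106769, 6537188], 0⟩,
  mz,
  mz,
  ⟨⟨9, 28, -85, 70, -11, -30, -4, -44, -49⟩, (.cons (nat_lit 1157522) (nat_lit 2423750) (nat_lit 522209)
 (nat_lit 1) (.cons (nat_lit 3069776) (nat_lit 6447740) (nat_lit 7443776) (nat_lit 1) .nil)), (nat_lit 31),
 (nat_lit 0), (nat_lit 0), (nat_lit 0), (40, 35, 69), [1018516, 3333580], 0⟩,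
  mz,
  ⟨⟨-11, 72, -25, 50, -11, -80, -44, 4, -29⟩, (.cons (nat_lit 2210441) (nat_lit 2228937) (nat_lit 1529068)
 (nat_lit 1) (.cons (nat_lit 7318621) (nat_lit 6496543) (nat_lit 1601075) (nat_lit 1) .nil)), (nat_lit 29),
 (nat_lit 0), (nat_lit 0), (nat_lit 0), (44, 13, 34), [1366195, 3858855], 0⟩,
  mz,
  ⟨⟨-29, -72, 20, -56, 25, 68, -38, -16, -35⟩, (.cons (nat_lit 2359738) (nat_lit 1746396) (nat_lit 3397332)
 (nat_lit 1) (.cons (nat_lit 7747101) (nat_lit 6419422) (nat_lit 3090977) (nat_lit 1) .nil)), (nat_lit 36),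
 (nat_lit 0), (nat_lit 0), (nat_lit 0), (27, 35, 6), [810709, 1717886], 0⟩,
  ⟨⟨75, 20, -32, 10, -21, -80, 12, 60, -25⟩, (.cons (nat_lit 445244) (nat_lit 2026099) (nat_lit 298941)
 (nat_lit 1) (.cons (nat_lit 3589584) (nat_lit 5555554) (nat_lit 827873) (nat_lit 1) .nil)), (nat_lit 55),
 (nat_lit 0), (nat_lit 0), (nat_lit 0), (30, 4, 19), [2075779, 1106056], 0⟩,
  mz,
  ⟨⟨3, -40, -76, 64, -25, -12, 26, 32, -67⟩, (.cons (nat_lit 3248425) (nat_lit 1049543) (nat_lit 3327118)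
 (nat_lit 1) (.cons (nat_lit 1644985) (nat_lit 5997915) (nat_lit 2905803) (nat_lit 1) .nil)), (nat_lit 7),
 (nat_lit 0), (nat_lit 0), (nat_lit 0), (58, 54, 53), [776153, 3380671], 0⟩,
  mz,
  ⟨⟨37, 48, 36, -36, 55, -12, 54, 24, -53⟩, (.cons (nat_lit 3346244) (nat_lit 2610104) (nat_lit 681611)
 (nat_lit 1) (.cons (nat_lit 2113525) (nat_lit 5578579) (nat_lit 240004) (nat_lit 1) .nil)), (nat_lit 16),
 (nat_lit 0), (nat_lit 0), (nat_lit 0), (61, 27, 66), [406191, 487800], 0⟩,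
  ⟨⟨-23, -72, 32, -64, 25, 52, -26, -32, -41⟩, (.cons (nat_lit 600608) (nat_lit 3167784) (nat_lit 257253)
 (nat_lit 1) (.cons (nat_lit 7024817) (nat_lit 2025700) (nat_lit 5133503) (nat_lit 1) .nil)), (nat_lit 49),
 (nat_lit 0), (nat_lit 0), (nat_lit 0), (21, 43, 33), [565867, 2262673], 0⟩,
  mz,
  mz,
  ⟨⟨75, 16, -52, 4, -55, -52, 10, 40, -59⟩, (.cons (nat_lit 1282435) (nat_lit 3385029) (nat_lit 1324001)
 (nat_lit 1) (.cons (nat_lit 7600595) (nat_lit 4849143) (nat_lit 2396899) (nat_lit 1) .nil)), (nat_lit 65),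
 (nat_lit 0), (nat_lit 0), (nat_lit 0), (5, 5, 48), [2203669, 2790597], 0⟩,
  ⟨⟨11, -72, -36, -50, 11, -30, 44, -4, -73⟩, (.cons (nat_lit 545185) (nat_lit 2715885) (nat_lit 1280502)
 (nat_lit 1) (.cons (nat_lit 1289576) (nat_lit 5653028) (nat_lit 5796220) (nat_lit 1) .nil)), (nat_lit 29),
 (nat_lit 0), (nat_lit 0), (nat_lit 0), (69, 22, 63), [3162861, 7522128], 0⟩,
  ⟨⟨-39, -40, -41, 44, -55, -12, 22, 8, -77⟩, (.cons (nat_lit 491491) (nat_lit 292663) (nat_lit 1812357)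
 (nat_lit 1) (.cons (nat_lit 6063906) (nat_lit 4717171) (nat_lit 4536961) (nat_lit 1) .nil)), (nat_lit 23),
 (nat_lit 0), (nat_lit 0), (nat_lit 0), (46, 10, 5), [2973517, 916867], 0⟩,
  mz,
  ⟨⟨51, 52, -56, -44, 15, -38, 42, -24, -67⟩, (.cons (nat_lit 827982) (nat_lit 745262) (nat_lit 2577523)
 (nat_lit 1) (.cons (nat_lit 4955740) (nat_lit 3916065) (nat_lit 6458199) (nat_lit 1) .nil)), (nat_lit 5),
 (nat_lit 0), (nat_lit 0), (nat_lit 0), (52, 15, 47), [2335801, 3260194], 0⟩,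
  ⟨⟨9, -16, 80, -10, -69, -10, 60, -12, -11⟩, (.cons (nat_lit 3418800) (nat_lit 422066) (nat_lit 938246)
 (nat_lit 1) (.cons (nat_lit 7890480) (nat_lit 6423038) (nat_lit 1894562) (nat_lit 1) .nil)), (nat_lit 47),
 (nat_lit 0), (nat_lit 0), (nat_lit 0), (33, 58, 7), [424745, 7661229], 0⟩,
  ⟨⟨51, 4, 40, 10, 69, -20, 60, -12, -49⟩, (.cons (nat_lit 3418800) (nat_lit 2192597) (nat_lit 1602666)
 (nat_lit 1) (.cons (nat_lit 7890480) (nat_lit 2092908) (nat_lit 3206391) (nat_lit 1) .nil)), (nat_lit 48),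
 (nat_lit 0), (nat_lit 0), (nat_lit 0), (13, 29, 32), [1410753, 6899514], 0⟩,
  ⟨⟨29, 72, -9, 56, -25, 12, 38, 16, -73⟩, (.cons (nat_lit 352269) (nat_lit 3383270) (nat_lit 1969577) (nat_lit
 1) (.cons (nat_lit 6975718) (nat_lit 3344031) (nat_lit 1464121) (nat_lit 1) .nil)), (nat_lit 36), (nat_lit 0),
 (nat_lit 0), (nat_lit 0), (5, 17, 9), [2052037, 6694978], 0⟩,
  ⟨⟨65, 24, -72, -4, -55, -48, -10, 40, -49⟩, (.cons (nat_lit 1786782) (nat_lit 3223254) (nat_lit 2870692)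
 (nat_lit 1) (.cons (nat_lit 6424949) (nat_lit 7832416) (nat_lit 4951682) (nat_lit 1) .nil)), (nat_lit 3),
 (nat_lit 0), (nat_lit 0), (nat_lit 0), (39, 26, 65), [2215537, 3311799], 0⟩,
  ⟨⟨9, -76, -20, 44, 15, -82, -42, -24, -25⟩, (.cons (nat_lit 990952) (nat_lit 510510) (nat_lit 5788) (nat_lit
 1) (.cons (nat_lit 2259849) (nat_lit 2292142) (nat_lit 3907013) (nat_lit 1) .nil)), (nat_lit 67), (nat_lit 0),
 (nat_lit 0), (nat_lit 0), (1, 68, 19), [3196145, 493693], 0⟩,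
  mz,
  ⟨⟨13, -72, 23, 70, 11, -40, 4, -44, -53⟩, (.cons (nat_lit 1440002) (nat_lit 1284156) (nat_lit 286505)
 (nat_lit 1) (.cons (nat_lit 2354087) (nat_lit 7135416) (nat_lit 6668322) (nat_lit 1) .nil)), (nat_lit 43),
 (nat_lit 0), (nat_lit 0), (nat_lit 0), (14, 59, 48), [621344, 2972780], 0⟩,
  ⟨⟨9, 16, 80, -10, 69, -10, 60, 12, -11⟩, (.cons (nat_lit 2196651) (nat_lit 2043314) (nat_lit 2969545)
 (nat_lit 1) (.cons (nat_lit 6292662) (nat_lit 4306237) (nat_lit 5308390) (nat_lit 1) .nil)), (nat_lit 47),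
 (nat_lit 0), (nat_lit 0), (nat_lit 0), (58, 46, 8), [2071739, 2220428], 0⟩,
  ⟨⟨75, -20, -32, 10, 21, -80, 12, -60, -25⟩, (.cons (nat_lit 3418800) (nat_lit 3380243) (nat_lit 1891238)
 (nat_lit 1) (.cons (nat_lit 7890480) (nat_lit 7803299) (nat_lit 1379929) (nat_lit 1) .nil)), (nat_lit 55),
 (nat_lit 0), (nat_lit 0), (nat_lit 0), (52, 59, 14), [3163004, 5850020], 0⟩,
  mz,
  ⟨⟨-11, -72, -25, 50, 11, -80, -44, -4, -29⟩, (.cons (nat_lit 2744444) (nat_lit 2393428) (nat_lit 912455)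
 (nat_lit 1) (.cons (nat_lit 4219999) (nat_lit 6186694) (nat_lit 6414286) (nat_lit 1) .nil)), (nat_lit 29),
 (nat_lit 0), (nat_lit 0), (nat_lit 0), (38, 8, 10), [2343195, 2025915], 0⟩,
  ⟨⟨-75, -20, 43, -10, 21, -70, -12, -60, -13⟩, (.cons (nat_lit 387689) (nat_lit 1639431) (nat_lit 2800320)
 (nat_lit 1) (.cons (nat_lit 5613676) (nat_lit 5151759) (nat_lit 1460051) (nat_lit 1) .nil)), (nat_lit 55),
 (nat_lit 0), (nat_lit 0), (nat_lit 0), (2, 5, 6), [1282227, 1043065], 0⟩,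
  mz,
  mz,
  mz,
  ⟨⟨11, 72, -36, -50, -11, -30, 44, 4, -73⟩, (.cons (nat_lit 1869098) (nat_lit 2814425) (nat_lit 1145231)
 (nat_lit 1) (.cons (nat_lit 7883458) (nat_lit 7644711) (nat_lit 6483894) (nat_lit 1) .nil)), (nat_lit 29),
 (nat_lit 0), (nat_lit 0), (nat_lit 0), (4, 27, 16), [585143, 2095159], 0⟩,
  mz,
  ⟨⟨9, -28, -85, 70, 11, -30, -4, 44, -49⟩, (.cons (nat_lit 1445844) (nat_lit 3028895) (nat_lit 1006545)
 (nat_lit 1) (.cons (nat_lit 3821334) (nat_lit 3120232) (nat_lit 2262825) (nat_lit 1) .nil)), (nat_lit 31),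
 (nat_lit 0), (nat_lit 0), (nat_lit 0), (14, 30, 49), [159612, 4389572], 0⟩,
  ⟨⟨75, -16, -52, 4, 55, -52, 10, -40, -59⟩, (.cons (nat_lit 3418800) (nat_lit 2899694) (nat_lit 793431)
 (nat_lit 1) (.cons (nat_lit 7890480) (nat_lit 2536914) (nat_lit 713665) (nat_lit 1) .nil)), (nat_lit 65),
 (nat_lit 0), (nat_lit 0), (nat_lit 0), (51, 51, 21), [2439797, 5634749], 0⟩,
  mz,
  ⟨⟨33, 20, -92, 64, -15, -2, 6, -48, -49⟩, (.cons (nat_lit 2322734) (nat_lit 827581) (nat_lit 1552346)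
 (nat_lit 1) (.cons (nat_lit 3714269) (nat_lit 5786796) (nat_lit 359476) (nat_lit 1) .nil)), (nat_lit 12),
 (nat_lit 0), (nat_lit 0), (nat_lit 0), (45, 55, 34), [371481, 4346241], 0⟩,
  ⟨⟨13, 72, 23, 70, -11, -40, 4, 44, -53⟩, (.cons (nat_lit 363075) (nat_lit 1745301) (nat_lit 646361) (nat_lit
 1) (.cons (nat_lit 7494899) (nat_lit 4732437) (nat_lit 5247702) (nat_lit 1) .nil)), (nat_lit 43), (nat_lit 0),
 (nat_lit 0), (nat_lit 0), (20, 64, 28), [1515706, 3159361], 0⟩,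
  ⟨⟨-23, 72, 32, -64, -25, 52, -26, 32, -41⟩, (.cons (nat_lit 2307499) (nat_lit 175699) (nat_lit 875057)
 (nat_lit 1) (.cons (nat_lit 7344218) (nat_lit 1090181) (nat_lit 4166698) (nat_lit 1) .nil)), (nat_lit 49),
 (nat_lit 0), (nat_lit 0), (nat_lit 0), (27, 35, 12), [2327937, 6418821], 0⟩,
  ⟨⟨17, 24, 72, -36, -55, 48, 54, -24, -1⟩, (.cons (nat_lit 127952) (nat_lit 425395) (nat_lit 1663222) (nat_lit
 1) (.cons (nat_lit 7053867) (nat_lit 378757) (nat_lit 7569466) (nat_lit 1) .nil)), (nat_lit 22), (nat_lit 0),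
 (nat_lit 0), (nat_lit 0), (30, 20, 41), [1213963, 6135080], 0⟩]

/-- Moves. -/
noncomputable def t4_10 : List Mv := [
  mz,
  ⟨⟨-75, 20, 43, -10, -21, -70, -12, 60, -13⟩, (.cons (nat_lit 592690) (nat_lit 132637) (nat_lit 1341165)
 (nat_lit 1) (.cons (nat_lit 199876) (nat_lit 7034271) (nat_lit 2267574) (nat_lit 1) .nil)), (nat_lit 55),
 (nat_lit 0), (nat_lit 0), (nat_lit 0), (51, 21, 11), [1591384, 1279576], 0⟩,
  mz,
  ⟨⟨65, -24, -72, -4, 55, -48, -10, -40, -49⟩, (.cons (nat_lit 3418800) (nat_lit 2569734) (nat_lit 1051699)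
 (nat_lit 1) (.cons (nat_lit 7890480) (nat_lit 1724584) (nat_lit 2522019) (nat_lit 1) .nil)), (nat_lit 3),
 (nat_lit 0), (nat_lit 0), (nat_lit 0), (37, 1, 38), [1866349, 212963], 0⟩,
  ⟨⟨27, 68, 16, 64, -15, -62, -6, 48, -43⟩, (.cons (nat_lit 2277610) (nat_lit 2461196) (nat_lit 1703600)
 (nat_lit 1) (.cons (nat_lit 4942208) (nat_lit 4982296) (nat_lit 7522662) (nat_lit 1) .nil)), (nat_lit 46),
 (nat_lit 0), (nat_lit 0), (nat_lit 0), (60, 16, 34), [2791441, 5666188], 0⟩,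
  ⟨⟨-33, 20, -59, 64, 15, -62, -6, -48, -43⟩, (.cons (nat_lit 436842) (nat_lit 3020863) (nat_lit 3014342)
 (nat_lit 1) (.cons (nat_lit 5713841) (nat_lit 2043198) (nat_lit 3176399) (nat_lit 1) .nil)), (nat_lit 51),
 (nat_lit 0), (nat_lit 0), (nat_lit 0), (23, 35, 30), [2646815, 3367401], 0⟩,
  mz,
  ⟨⟨-29, 72, 20, 56, 25, -68, -38, 16, -35⟩, (.cons (nat_lit 500399) (nat_lit 2099654) (nat_lit 2265370)
 (nat_lit 1) (.cons (nat_lit 5392578) (nat_lit 4293118) (nat_lit 4062981) (nat_lit 1) .nil)), (nat_lit 8),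
 (nat_lit 0), (nat_lit 0), (nat_lit 0), (33, 44, 31), [1189881, 5663448], 0⟩,
  ⟨⟨3, 40, -76, 64, 25, -12, 26, -32, -67⟩, (.cons (nat_lit 595620) (nat_lit 1490320) (nat_lit 1930071)
 (nat_lit 1) (.cons (nat_lit 514051) (nat_lit 7029872) (nat_lit 7203226) (nat_lit 1) .nil)), (nat_lit 7),
 (nat_lit 0), (nat_lit 0), (nat_lit 0), (14, 62, 3), [3017254, 1260878], 0⟩,
  mz,
  mz,
  ⟨⟨33, -20, -92, 64, 15, -2, 6, 48, -49⟩, (.cons (nat_lit 2959406) (nat_lit 627285) (nat_lit 2611281) (nat_lit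
 1) (.cons (nat_lit 5917902) (nat_lit 7275963) (nat_lit 1272386) (nat_lit 1) .nil)), (nat_lit 12), (nat_lit 0),
 (nat_lit 0), (nat_lit 0), (67, 3, 38), [19520, 6128501], 0⟩,
  ⟨⟨9, 76, -20, -44, 15, 82, -42, 24, -25⟩, (.cons (nat_lit 2918448) (nat_lit 905800) (nat_lit 2522824)
 (nat_lit 1) (.cons (nat_lit 1960665) (nat_lit 3266732) (nat_lit 2790599) (nat_lit 1) .nil)), (nat_lit 11),
 (nat_lit 0), (nat_lit 0), (nat_lit 0), (31, 22, 21), [1983669, 413414], 0⟩,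
  mz,
  mz,
  ⟨⟨51, -52, -56, -44, -15, -38, 42, 24, -67⟩, (.cons (nat_lit 3102221) (nat_lit 1331109) (nat_lit 1895742)
 (nat_lit 1) (.cons (nat_lit 6865274) (nat_lit 7260770) (nat_lit 713253) (nat_lit 1) .nil)), (nat_lit 5),
 (nat_lit 0), (nat_lit 0), (nat_lit 0), (24, 67, 49), [3336251, 3757812], 0⟩,
  ⟨⟨17, 24, -89, -36, -55, -12, 54, -24, -53⟩, (.cons (nat_lit 3262196) (nat_lit 371239) (nat_lit 2307283)
 (nat_lit 1) (.cons (nat_lit 2796471) (nat_lit 1968604) (nat_lit 786067) (nat_lit 1) .nil)), (nat_lit 22),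
 (nat_lit 0), (nat_lit 0), (nat_lit 0), (7, 52, 64), [925493, 3516651], 0⟩,
  mz,
  ⟨⟨9, 56, -64, -56, -25, -12, 38, -16, -73⟩, (.cons (nat_lit 1225447) (nat_lit 206736) (nat_lit 2481857)
 (nat_lit 1) (.cons (nat_lit 2907869) (nat_lit 4505461) (nat_lit 2192298) (nat_lit 1) .nil)), (nat_lit 39),
 (nat_lit 0), (nat_lit 0), (nat_lit 0), (56, 46, 55), [2792294, 238884], 0⟩,
  ⟨⟨-61, -48, 25, 44, -55, -32, -22, -8, -55⟩, (.cons (nat_lit 2992543) (nat_lit 2413899) (nat_lit 2931741)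
 (nat_lit 1) (.cons (nat_lit 684096) (nat_lit 7594826) (nat_lit 6239854) (nat_lit 1) .nil)), (nat_lit 24),
 (nat_lit 0), (nat_lit 0), (nat_lit 0), (9, 68, 37), [1417820, 5880607], 0⟩,
  mz,
  mz,
  ⟨⟨17, -24, 72, 36, -55, -48, 54, 24, -1⟩, (.cons (nat_lit 1810480) (nat_lit 1255675) (nat_lit 1891026)
 (nat_lit 1) (.cons (nat_lit 6446649) (nat_lit 3800638) (nat_lit 3014941) (nat_lit 1) .nil)), (nat_lit 70),
 (nat_lit 0), (nat_lit 0), (nat_lit 0), (28, 5, 43), [2422949, 6707529], 0⟩,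
  ⟨⟨-61, 48, 25, 44, 55, -32, -22, 8, -55⟩, (.cons (nat_lit 2569300) (nat_lit 2970957) (nat_lit 1231193)
 (nat_lit 1) (.cons (nat_lit 3737818) (nat_lit 2857378) (nat_lit 1467935) (nat_lit 1) .nil)), (nat_lit 24),
 (nat_lit 0), (nat_lit 0), (nat_lit 0), (13, 43, 14), [1393737, 913784], 0⟩,
  ⟨⟨-39, 40, -41, 44, 55, -12, 22, -8, -77⟩, (.cons (nat_lit 3094790) (nat_lit 1207360) (nat_lit 699239)
 (nat_lit 1) (.cons (nat_lit 7570217) (nat_lit 992855) (nat_lit 3986379) (nat_lit 1) .nil)), (nat_lit 23),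
 (nat_lit 0), (nat_lit 0), (nat_lit 0), (2, 56, 28), [3096412, 5543784], 0⟩,
  mz,
  ⟨⟨51, -4, 40, -10, 69, 20, 60, 12, -49⟩, (.cons (nat_lit 3418800) (nat_lit 2993252) (nat_lit 537170) (nat_lit
 1) (.cons (nat_lit 7890480) (nat_lit 1250197) (nat_lit 5999769) (nat_lit 1) .nil)), (nat_lit 26), (nat_lit 0),
 (nat_lit 0), (nat_lit 0), (60, 30, 33), [118732, 2574497], 0⟩,
  mz,
  mz,
  ⟨⟨-13, -72, 36, 70, -11, -30, -4, -44, -49⟩, (.cons (nat_lit 168727) (nat_lit 1971925) (nat_lit 2660384)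
 (nat_lit 1) (.cons (nat_lit 28088) (nat_lit 6907366) (nat_lit 577289) (nat_lit 1) .nil)), (nat_lit 62),
 (nat_lit 0), (nat_lit 0), (nat_lit 0), (29, 35, 69), [2085991, 925550], 0⟩,
  mz,
  ⟨⟨-33, -68, -4, -50, 11, 80, -44, 4, -29⟩, (.cons (nat_lit 2624831) (nat_lit 2591375) (nat_lit 2210999)
 (nat_lit 1) (.cons (nat_lit 3018395) (nat_lit 3820933) (nat_lit 502317) (nat_lit 1) .nil)), (nat_lit 68),
 (nat_lit 0), (nat_lit 0), (nat_lit 0), (61, 58, 34), [932019, 1586098], 0⟩,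
  mz,
  ⟨⟨-29, -72, 20, 56, -25, -68, -38, -16, -35⟩, (.cons (nat_lit 3282094) (nat_lit 555783) (nat_lit 2863344)
 (nat_lit 1) (.cons (nat_lit 2282241) (nat_lit 2527909) (nat_lit 1963798) (nat_lit 1) .nil)), (nat_lit 8),
 (nat_lit 0), (nat_lit 0), (nat_lit 0), (27, 36, 6), [1678207, 846083], 0⟩,
  ⟨⟨-63, 40, 7, 10, -21, -80, 12, 60, -25⟩, (.cons (nat_lit 2842837) (nat_lit 1383500) (nat_lit 2219622)
 (nat_lit 1) (.cons (nat_lit 6201402) (nat_lit 7397650) (nat_lit 7458771) (nat_lit 1) .nil)), (nat_lit 58),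
 (nat_lit 0), (nat_lit 0), (nat_lit 0), (60, 4, 19), [3152972, 3696730], 0⟩,
  mz,
  ⟨⟨3, -40, -76, 64, -25, -12, 26, 32, -67⟩, (.cons (nat_lit 3248425) (nat_lit 1049543) (nat_lit 3327118)
 (nat_lit 1) (.cons (nat_lit 1644985) (nat_lit 5997915) (nat_lit 2905803) (nat_lit 1) .nil)), (nat_lit 7),
 (nat_lit 0), (nat_lit 0), (nat_lit 0), (58, 54, 53), [776153, 3380671], 0⟩,
  mz,
  ⟨⟨17, -24, -89, -36, 55, -12, 54, 24, -53⟩, (.cons (nat_lit 2103189) (nat_lit 2402836) (nat_lit 2399934)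
 (nat_lit 1) (.cons (nat_lit 1302540) (nat_lit 2079343) (nat_lit 6172767) (nat_lit 1) .nil)), (nat_lit 22),
 (nat_lit 0), (nat_lit 0), (nat_lit 0), (5, 27, 66), [1694815, 6088888], 0⟩,
  ⟨⟨-23, -72, 32, 64, -25, -52, -26, -32, -41⟩, (.cons (nat_lit 1220714) (nat_lit 103913) (nat_lit 1296272)
 (nat_lit 1) (.cons (nat_lit 5331842) (nat_lit 5405718) (nat_lit 3562408) (nat_lit 1) .nil)), (nat_lit 18),
 (nat_lit 0), (nat_lit 0), (nat_lit 0), (21, 28, 33), [2565414, 2770664], 0⟩,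
  mz,
  mz,
  ⟨⟨75, 16, -52, 4, -55, -52, 10, 40, -59⟩, (.cons (nat_lit 1282435) (nat_lit 3385029) (nat_lit 1324001)
 (nat_lit 1) (.cons (nat_lit 7600595) (nat_lit 4849143) (nat_lit 2396899) (nat_lit 1) .nil)), (nat_lit 65),
 (nat_lit 0), (nat_lit 0), (nat_lit 0), (5, 5, 48), [2203669, 2790597], 0⟩,
  ⟨⟨33, 68, -37, -50, 11, -30, 44, -4, -73⟩, (.cons (nat_lit 3305551) (nat_lit 1710062) (nat_lit 2269760)
 (nat_lit 1) (.cons (nat_lit 1102116) (nat_lit 7529356) (nat_lit 648377) (nat_lit 1) .nil)), (nat_lit 53),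
 (nat_lit 0), (nat_lit 0), (nat_lit 0), (65, 22, 63), [2252207, 7811941], 0⟩,
  ⟨⟨-39, -40, -41, 44, -55, -12, 22, 8, -77⟩, (.cons (nat_lit 491491) (nat_lit 292663) (nat_lit 1812357)
 (nat_lit 1) (.cons (nat_lit 6063906) (nat_lit 4717171) (nat_lit 4536961) (nat_lit 1) .nil)), (nat_lit 23),
 (nat_lit 0), (nat_lit 0), (nat_lit 0), (46, 10, 5), [2973517, 916867], 0⟩,
  mz,
  ⟨⟨51, 52, -56, -44, 15, -38, 42, -24, -67⟩, (.cons (nat_lit 827982) (nat_lit 745262) (nat_lit 2577523)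
 (nat_lit 1) (.cons (nat_lit 4955740) (nat_lit 3916065) (nat_lit 6458199) (nat_lit 1) .nil)), (nat_lit 5),
 (nat_lit 0), (nat_lit 0), (nat_lit 0), (52, 15, 47), [2335801, 3260194], 0⟩,
  ⟨⟨9, -16, 80, -10, -69, -10, 60, -12, -11⟩, (.cons (nat_lit 3418800) (nat_lit 422066) (nat_lit 938246)
 (nat_lit 1) (.cons (nat_lit 7890480) (nat_lit 6423038) (nat_lit 1894562) (nat_lit 1) .nil)), (nat_lit 47),
 (nat_lit 0), (nat_lit 0), (nat_lit 0), (33, 58, 7), [424745, 7661229], 0⟩,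
  ⟨⟨51, 4, 40, -10, -69, 20, 60, -12, -49⟩, (.cons (nat_lit 221704) (nat_lit 1386495) (nat_lit 2995716)
 (nat_lit 1) (.cons (nat_lit 7505037) (nat_lit 23049) (nat_lit 1407326) (nat_lit 1) .nil)), (nat_lit 26),
 (nat_lit 0), (nat_lit 0), (nat_lit 0), (13, 42, 32), [1655372, 2563564], 0⟩,
  ⟨⟨9, -56, -64, -56, 25, -12, 38, 16, -73⟩, (.cons (nat_lit 2716146) (nat_lit 1012256) (nat_lit 1260243)
 (nat_lit 1) (.cons (nat_lit 1925815) (nat_lit 1375229) (nat_lit 3826980) (nat_lit 1) .nil)), (nat_lit 39),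
 (nat_lit 0), (nat_lit 0), (nat_lit 0), (4, 54, 9), [3236423, 7163916], 0⟩,
  ⟨⟨65, 24, -72, 4, 55, 48, -10, 40, -49⟩, (.cons (nat_lit 3418800) (nat_lit 2267243) (nat_lit 1382779)
 (nat_lit 1) (.cons (nat_lit 7890480) (nat_lit 6447734) (nat_lit 4391078) (nat_lit 1) .nil)), (nat_lit 50),
 (nat_lit 0), (nat_lit 0), (nat_lit 0), (39, 45, 65), [1423406, 1240572], 0⟩,
  ⟨⟨9, -76, -20, 44, 15, -82, -42, -24, -25⟩, (.cons (nat_lit 990952) (nat_lit 510510) (nat_lit 5788) (nat_lit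
 1) (.cons (nat_lit 2259849) (nat_lit 2292142) (nat_lit 3907013) (nat_lit 1) .nil)), (nat_lit 67), (nat_lit 0),
 (nat_lit 0), (nat_lit 0), (1, 68, 19), [3196145, 493693], 0⟩,
  mz,
  ⟨⟨13, -72, 23, 70, 11, -40, 4, -44, -53⟩, (.cons (nat_lit 1440002) (nat_lit 1284156) (nat_lit 286505)
 (nat_lit 1) (.cons (nat_lit 2354087) (nat_lit 7135416) (nat_lit 6668322) (nat_lit 1) .nil)), (nat_lit 43),
 (nat_lit 0), (nat_lit 0), (nat_lit 0), (14, 59, 48), [621344, 2972780], 0⟩,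
  ⟨⟨9, 16, 80, -10, 69, -10, 60, 12, -11⟩, (.cons (nat_lit 2196651) (nat_lit 2043314) (nat_lit 2969545)
 (nat_lit 1) (.cons (nat_lit 6292662) (nat_lit 4306237) (nat_lit 5308390) (nat_lit 1) .nil)), (nat_lit 47),
 (nat_lit 0), (nat_lit 0), (nat_lit 0), (58, 46, 8), [2071739, 2220428], 0⟩,
  ⟨⟨-63, -40, 7, -10, -21, 80, 12, -60, -25⟩, (.cons (nat_lit 2738023) (nat_lit 2398375) (nat_lit 374907)
 (nat_lit 1) (.cons (nat_lit 1389073) (nat_lit 5992200) (nat_lit 6853412) (nat_lit 1) .nil)), (nat_lit 1),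
 (nat_lit 0), (nat_lit 0), (nat_lit 0), (33, 12, 14), [3373424, 6858629], 0⟩,
  mz,
  ⟨⟨-11, -72, -25, 50, 11, -80, -44, -4, -29⟩, (.cons (nat_lit 2744444) (nat_lit 2393428) (nat_lit 912455)
 (nat_lit 1) (.cons (nat_lit 4219999) (nat_lit 6186694) (nat_lit 6414286) (nat_lit 1) .nil)), (nat_lit 29),
 (nat_lit 0), (nat_lit 0), (nat_lit 0), (38, 8, 10), [2343195, 2025915], 0⟩,
  ⟨⟨-75, -20, 43, -10, 21, -70, -12, -60, -13⟩, (.cons (nat_lit 387689) (nat_lit 1639431) (nat_lit 2800320)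
 (nat_lit 1) (.cons (nat_lit 5613676) (nat_lit 5151759) (nat_lit 1460051) (nat_lit 1) .nil)), (nat_lit 55),
 (nat_lit 0), (nat_lit 0), (nat_lit 0), (2, 5, 6), [1282227, 1043065], 0⟩,
  mz,
  mz,
  mz,
  ⟨⟨11, 72, -36, -50, -11, -30, 44, 4, -73⟩, (.cons (nat_lit 1869098) (nat_lit 2814425) (nat_lit 1145231)
 (nat_lit 1) (.cons (nat_lit 7883458) (nat_lit 7644711) (nat_lit 6483894) (nat_lit 1) .nil)), (nat_lit 29),
 (nat_lit 0), (nat_lit 0), (nat_lit 0), (4, 27, 16), [585143, 2095159], 0⟩,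
  mz,
  ⟨⟨-13, 72, 36, 70, 11, -30, -4, 44, -49⟩, (.cons (nat_lit 282240) (nat_lit 2789951) (nat_lit 2169523)
 (nat_lit 1) (.cons (nat_lit 4727333) (nat_lit 5920830) (nat_lit 239210) (nat_lit 1) .nil)), (nat_lit 62),
 (nat_lit 0), (nat_lit 0), (nat_lit 0), (35, 30, 49), [1406870, 6774985], 0⟩,
  ⟨⟨75, -16, -52, -4, -55, 52, 10, -40, -59⟩, (.cons (nat_lit 3068810) (nat_lit 2317806) (nat_lit 727650)
 (nat_lit 1) (.cons (nat_lit 2210884) (nat_lit 6438541) (nat_lit 5062327) (nat_lit 1) .nil)), (nat_lit 42),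
 (nat_lit 0), (nat_lit 0), (nat_lit 0), (51, 20, 21), [3176831, 4930357], 0⟩,
  mz,
  ⟨⟨-27, -68, 43, -64, 15, 2, 6, -48, -49⟩, (.cons (nat_lit 281483) (nat_lit 439605) (nat_lit 67597) (nat_lit
 1) (.cons (nat_lit 6171067) (nat_lit 4650390) (nat_lit 1963794) (nat_lit 1) .nil)), (nat_lit 46), (nat_lit 0),
 (nat_lit 0), (nat_lit 0), (60, 16, 34), [2773880, 260289], 0⟩,
  ⟨⟨13, 72, 23, 70, -11, -40, 4, 44, -53⟩, (.cons (nat_lit 363075) (nat_lit 1745301) (nat_lit 646361) (nat_lit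
 1) (.cons (nat_lit 7494899) (nat_lit 4732437) (nat_lit 5247702) (nat_lit 1) .nil)), (nat_lit 43), (nat_lit 0),
 (nat_lit 0), (nat_lit 0), (20, 64, 28), [1515706, 3159361], 0⟩,
  ⟨⟨-23, 72, 32, 64, 25, -52, -26, 32, -41⟩, (.cons (nat_lit 1260897) (nat_lit 2714241) (nat_lit 221440)
 (nat_lit 1) (.cons (nat_lit 1470684) (nat_lit 6827506) (nat_lit 933669) (nat_lit 1) .nil)), (nat_lit 18),
 (nat_lit 0), (nat_lit 0), (nat_lit 0), (27, 36, 12), [1510360, 1384917], 0⟩,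
  ⟨⟨37, -48, -73, 36, 55, -48, 54, -24, -1⟩, (.cons (nat_lit 2631171) (nat_lit 2015312) (nat_lit 427854)
 (nat_lit 1) (.cons (nat_lit 4438172) (nat_lit 4553540) (nat_lit 4405128) (nat_lit 1) .nil)), (nat_lit 38),
 (nat_lit 0), (nat_lit 0), (nat_lit 0), (11, 51, 41), [3253462, 5361605], 0⟩]

/-- Moves. -/
noncomputable def t4_17 : List Mv := [
  mz,
  ⟨⟨-75, 20, 43, -10, -21, -70, -12, 60, -13⟩, (.cons (nat_lit 592690) (nat_lit 132637) (nat_lit 1341165)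
 (nat_lit 1) (.cons (nat_lit 199876) (nat_lit 7034271) (nat_lit 2267574) (nat_lit 1) .nil)), (nat_lit 55),
 (nat_lit 0), (nat_lit 0), (nat_lit 0), (51, 21, 11), [1591384, 1279576], 0⟩,
  mz,
  ⟨⟨65, -24, -72, -4, 55, -48, -10, -40, -49⟩, (.cons (nat_lit 3418800) (nat_lit 2569734) (nat_lit 1051699)
 (nat_lit 1) (.cons (nat_lit 7890480) (nat_lit 1724584) (nat_lit 2522019) (nat_lit 1) .nil)), (nat_lit 3),
 (nat_lit 0), (nat_lit 0), (nat_lit 0), (37, 1, 38), [1866349, 212963], 0⟩,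
  ⟨⟨27, 68, 16, -64, 15, 62, -6, 48, -43⟩, (.cons (nat_lit 1194815) (nat_lit 104747) (nat_lit 2352037) (nat_lit
 1) (.cons (nat_lit 1835160) (nat_lit 5527180) (nat_lit 5933532) (nat_lit 1) .nil)), (nat_lit 15), (nat_lit 0),
 (nat_lit 0), (nat_lit 0), (60, 55, 34), [917661, 4468799], 0⟩,
  ⟨⟨27, -68, 16, 64, 15, -62, -6, -48, -43⟩, (.cons (nat_lit 3232047) (nat_lit 1270838) (nat_lit 2387144)
 (nat_lit 1) (.cons (nat_lit 88970) (nat_lit 7666467) (nat_lit 6751871) (nat_lit 1) .nil)), (nat_lit 46),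
 (nat_lit 0), (nat_lit 0), (nat_lit 0), (7, 35, 30), [2900988, 1820193], 0⟩,
  mz,
  ⟨⟨-9, -56, -55, 56, 25, -68, -38, 16, -35⟩, (.cons (nat_lit 2662595) (nat_lit 1538791) (nat_lit 1011447)
 (nat_lit 1) (.cons (nat_lit 4543783) (nat_lit 3639832) (nat_lit 5645796) (nat_lit 1) .nil)), (nat_lit 39),
 (nat_lit 0), (nat_lit 0), (nat_lit 0), (69, 44, 31), [2176903, 4593458], 0⟩,
  ⟨⟨23, -72, 9, -64, -25, 12, 26, -32, -67⟩, (.cons (nat_lit 651936) (nat_lit 3317733) (nat_lit 1400430)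
 (nat_lit 1) (.cons (nat_lit 4945382) (nat_lit 1995886) (nat_lit 471298) (nat_lit 1) .nil)), (nat_lit 18),
 (nat_lit 0), (nat_lit 0), (nat_lit 0), (60, 9, 3), [2476877, 7882056], 0⟩,
  mz,
  mz,
  ⟨⟨-27, 68, 43, -64, -15, 2, 6, 48, -49⟩, (.cons (nat_lit 2470321) (nat_lit 1504317) (nat_lit 1457502)
 (nat_lit 1) (.cons (nat_lit 5723869) (nat_lit 321249) (nat_lit 2775144) (nat_lit 1) .nil)), (nat_lit 46),
 (nat_lit 0), (nat_lit 0), (nat_lit 0), (42, 68, 38), [3249864, 5017418], 0⟩,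
  ⟨⟨9, 76, -20, 44, -15, -82, -42, 24, -25⟩, (.cons (nat_lit 1408279) (nat_lit 899000) (nat_lit 2351712)
 (nat_lit 1) (.cons (nat_lit 3041575) (nat_lit 6303760) (nat_lit 2846989) (nat_lit 1) .nil)), (nat_lit 67),
 (nat_lit 0), (nat_lit 0), (nat_lit 0), (31, 49, 21), [1017433, 7686866], 0⟩,
  mz,
  mz,
  ⟨⟨-9, 76, -11, -44, -15, -38, 42, 24, -67⟩, (.cons (nat_lit 3036545) (nat_lit 698362) (nat_lit 1116281)
 (nat_lit 1) (.cons (nat_lit 3641129) (nat_lit 7007844) (nat_lit 1668293) (nat_lit 1) .nil)), (nat_lit 67),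
 (nat_lit 0), (nat_lit 0), (nat_lit 0), (25, 67, 49), [2205136, 886003], 0⟩,
  ⟨⟨17, 24, -89, 36, 55, 12, 54, -24, -53⟩, (.cons (nat_lit 724284) (nat_lit 1423504) (nat_lit 972172) (nat_lit
 1) (.cons (nat_lit 6940260) (nat_lit 1983027) (nat_lit 506895) (nat_lit 1) .nil)), (nat_lit 70), (nat_lit 0),
 (nat_lit 0), (nat_lit 0), (7, 19, 64), [3276873, 4840216], 0⟩,
  mz,
  ⟨⟨29, -72, -9, -56, -25, -12, 38, -16, -73⟩, (.cons (nat_lit 464410) (nat_lit 270951) (nat_lit 1911935)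
 (nat_lit 1) (.cons (nat_lit 932302) (nat_lit 4172253) (nat_lit 5147451) (nat_lit 1) .nil)), (nat_lit 8),
 (nat_lit 0), (nat_lit 0), (nat_lit 0), (70, 46, 55), [2707584, 3565291], 0⟩,
  ⟨⟨39, 40, -80, 44, -55, -32, -22, -8, -55⟩, (.cons (nat_lit 3418800) (nat_lit 497072) (nat_lit 3063278)
 (nat_lit 1) (.cons (nat_lit 7890480) (nat_lit 859249) (nat_lit 6881262) (nat_lit 1) .nil)), (nat_lit 19),
 (nat_lit 0), (nat_lit 0), (nat_lit 0), (28, 68, 37), [599659, 7730832], 0⟩,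
  mz,
  mz,
  ⟨⟨17, -24, 72, 36, -55, -48, 54, 24, -1⟩, (.cons (nat_lit 1810480) (nat_lit 1255675) (nat_lit 1891026)
 (nat_lit 1) (.cons (nat_lit 6446649) (nat_lit 3800638) (nat_lit 3014941) (nat_lit 1) .nil)), (nat_lit 70),
 (nat_lit 0), (nat_lit 0), (nat_lit 0), (28, 5, 43), [2422949, 6707529], 0⟩,
  ⟨⟨39, -40, -80, 44, 55, -32, -22, 8, -55⟩, (.cons (nat_lit 2690933) (nat_lit 2765759) (nat_lit 24957)
 (nat_lit 1) (.cons (nat_lit 4843150) (nat_lit 7321388) (nat_lit 6891506) (nat_lit 1) .nil)), (nat_lit 19),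
 (nat_lit 0), (nat_lit 0), (nat_lit 0), (1, 43, 14), [2739508, 1042484], 0⟩,
  ⟨⟨-39, 40, -41, 44, 55, -12, 22, -8, -77⟩, (.cons (nat_lit 3094790) (nat_lit 1207360) (nat_lit 699239)
 (nat_lit 1) (.cons (nat_lit 7570217) (nat_lit 992855) (nat_lit 3986379) (nat_lit 1) .nil)), (nat_lit 23),
 (nat_lit 0), (nat_lit 0), (nat_lit 0), (2, 56, 28), [3096412, 5543784], 0⟩,
  mz,
  ⟨⟨51, -4, 40, 10, -69, -20, 60, 12, -49⟩, (.cons (nat_lit 2907563) (nat_lit 2081878) (nat_lit 153637)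
 (nat_lit 1) (.cons (nat_lit 4665395) (nat_lit 6676194) (nat_lit 680178) (nat_lit 1) .nil)), (nat_lit 48),
 (nat_lit 0), (nat_lit 0), (nat_lit 0), (60, 41, 33), [1106769, 6537188], 0⟩,
  mz,
  mz,
  ⟨⟨-13, -72, 36, 70, -11, -30, -4, -44, -49⟩, (.cons (nat_lit 168727) (nat_lit 1971925) (nat_lit 2660384)
 (nat_lit 1) (.cons (nat_lit 28088) (nat_lit 6907366) (nat_lit 577289) (nat_lit 1) .nil)), (nat_lit 62),
 (nat_lit 0), (nat_lit 0), (nat_lit 0), (29, 35, 69), [2085991, 925550], 0⟩,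
  mz,
  ⟨⟨-33, -68, -4, -50, 11, 80, -44, 4, -29⟩, (.cons (nat_lit 2624831) (nat_lit 2591375) (nat_lit 2210999)
 (nat_lit 1) (.cons (nat_lit 3018395) (nat_lit 3820933) (nat_lit 502317) (nat_lit 1) .nil)), (nat_lit 68),
 (nat_lit 0), (nat_lit 0), (nat_lit 0), (61, 58, 34), [932019, 1586098], 0⟩,
  mz,
  ⟨⟨-29, -72, 20, 56, -25, -68, -38, -16, -35⟩, (.cons (nat_lit 3282094) (nat_lit 555783) (nat_lit 2863344)
 (nat_lit 1) (.cons (nat_lit 2282241) (nat_lit 2527909) (nat_lit 1963798) (nat_lit 1) .nil)), (nat_lit 8),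
 (nat_lit 0), (nat_lit 0), (nat_lit 0), (27, 36, 6), [1678207, 846083], 0⟩,
  ⟨⟨75, 20, -32, 10, -21, -80, 12, 60, -25⟩, (.cons (nat_lit 445244) (nat_lit 2026099) (nat_lit 298941)
 (nat_lit 1) (.cons (nat_lit 3589584) (nat_lit 5555554) (nat_lit 827873) (nat_lit 1) .nil)), (nat_lit 55),
 (nat_lit 0), (nat_lit 0), (nat_lit 0), (30, 4, 19), [2075779, 1106056], 0⟩,
  mz,
  ⟨⟨3, -40, -76, 64, -25, -12, 26, 32, -67⟩, (.cons (nat_lit 3248425) (nat_lit 1049543) (nat_lit 3327118)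
 (nat_lit 1) (.cons (nat_lit 1644985) (nat_lit 5997915) (nat_lit 2905803) (nat_lit 1) .nil)), (nat_lit 7),
 (nat_lit 0), (nat_lit 0), (nat_lit 0), (58, 54, 53), [776153, 3380671], 0⟩,
  mz,
  ⟨⟨17, -24, -89, -36, 55, -12, 54, 24, -53⟩, (.cons (nat_lit 2103189) (nat_lit 2402836) (nat_lit 2399934)
 (nat_lit 1) (.cons (nat_lit 1302540) (nat_lit 2079343) (nat_lit 6172767) (nat_lit 1) .nil)), (nat_lit 22),
 (nat_lit 0), (nat_lit 0), (nat_lit 0), (5, 27, 66), [1694815, 6088888], 0⟩,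
  ⟨⟨-3, 40, -73, 64, -25, -52, -26, -32, -41⟩, (.cons (nat_lit 2699725) (nat_lit 641277) (nat_lit 2898796)
 (nat_lit 1) (.cons (nat_lit 4040896) (nat_lit 3170859) (nat_lit 3627207) (nat_lit 1) .nil)), (nat_lit 33),
 (nat_lit 0), (nat_lit 0), (nat_lit 0), (12, 28, 33), [18868, 168028], 0⟩,
  mz,
  mz,
  ⟨⟨75, 16, -52, 4, -55, -52, 10, 40, -59⟩, (.cons (nat_lit 1282435) (nat_lit 3385029) (nat_lit 1324001)
 (nat_lit 1) (.cons (nat_lit 7600595) (nat_lit 4849143) (nat_lit 2396899) (nat_lit 1) .nil)), (nat_lit 65),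
 (nat_lit 0), (nat_lit 0), (nat_lit 0), (5, 5, 48), [2203669, 2790597], 0⟩,
  ⟨⟨11, -72, -36, -50, 11, -30, 44, -4, -73⟩, (.cons (nat_lit 545185) (nat_lit 2715885) (nat_lit 1280502)
 (nat_lit 1) (.cons (nat_lit 1289576) (nat_lit 5653028) (nat_lit 5796220) (nat_lit 1) .nil)), (nat_lit 29),
 (nat_lit 0), (nat_lit 0), (nat_lit 0), (69, 22, 63), [3162861, 7522128], 0⟩,
  ⟨⟨-39, -40, -41, 44, -55, -12, 22, 8, -77⟩, (.cons (nat_lit 491491) (nat_lit 292663) (nat_lit 1812357)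
 (nat_lit 1) (.cons (nat_lit 6063906) (nat_lit 4717171) (nat_lit 4536961) (nat_lit 1) .nil)), (nat_lit 23),
 (nat_lit 0), (nat_lit 0), (nat_lit 0), (46, 10, 5), [2973517, 916867], 0⟩,
  mz,
  ⟨⟨-9, -76, -11, 44, -15, 38, 42, -24, -67⟩, (.cons (nat_lit 3359114) (nat_lit 198116) (nat_lit 2530429)
 (nat_lit 1) (.cons (nat_lit 3670816) (nat_lit 2197228) (nat_lit 1949951) (nat_lit 1) .nil)), (nat_lit 11),
 (nat_lit 0), (nat_lit 0), (nat_lit 0), (66, 56, 47), [3308682, 6510644], 0⟩,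
  ⟨⟨9, -16, 80, 10, 69, 10, 60, -12, -11⟩, (.cons (nat_lit 1063981) (nat_lit 2470876) (nat_lit 186321) (nat_lit
 1) (.cons (nat_lit 1484176) (nat_lit 4989959) (nat_lit 5008493) (nat_lit 1) .nil)), (nat_lit 54), (nat_lit 0),
 (nat_lit 0), (nat_lit 0), (33, 13, 7), [201420, 5613168], 0⟩,
  ⟨⟨9, -16, -89, 10, 69, -20, 60, -12, -49⟩, (.cons (nat_lit 1759088) (nat_lit 1734851) (nat_lit 1836199)
 (nat_lit 1) (.cons (nat_lit 2315718) (nat_lit 1204097) (nat_lit 5477219) (nat_lit 1) .nil)), (nat_lit 54),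
 (nat_lit 0), (nat_lit 0), (nat_lit 0), (19, 29, 32), [2537009, 5943055], 0⟩,
  ⟨⟨9, -56, -64, -56, 25, -12, 38, 16, -73⟩, (.cons (nat_lit 2716146) (nat_lit 1012256) (nat_lit 1260243)
 (nat_lit 1) (.cons (nat_lit 1925815) (nat_lit 1375229) (nat_lit 3826980) (nat_lit 1) .nil)), (nat_lit 39),
 (nat_lit 0), (nat_lit 0), (nat_lit 0), (4, 54, 9), [3236423, 7163916], 0⟩,
  ⟨⟨65, 24, -72, -4, -55, -48, -10, 40, -49⟩, (.cons (nat_lit 1786782) (nat_lit 3223254) (nat_lit 2870692)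
 (nat_lit 1) (.cons (nat_lit 6424949) (nat_lit 7832416) (nat_lit 4951682) (nat_lit 1) .nil)), (nat_lit 3),
 (nat_lit 0), (nat_lit 0), (nat_lit 0), (39, 26, 65), [2215537, 3311799], 0⟩,
  ⟨⟨9, -76, -20, 44, 15, -82, -42, -24, -25⟩, (.cons (nat_lit 990952) (nat_lit 510510) (nat_lit 5788) (nat_lit
 1) (.cons (nat_lit 2259849) (nat_lit 2292142) (nat_lit 3907013) (nat_lit 1) .nil)), (nat_lit 67), (nat_lit 0),
 (nat_lit 0), (nat_lit 0), (1, 68, 19), [3196145, 493693], 0⟩,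
  mz,
  ⟨⟨-9, 28, -76, -70, -11, 40, 4, -44, -53⟩, (.cons (nat_lit 2638991) (nat_lit 956160) (nat_lit 1657074)
 (nat_lit 1) (.cons (nat_lit 5129629) (nat_lit 6609881) (nat_lit 5884565) (nat_lit 1) .nil)), (nat_lit 31),
 (nat_lit 0), (nat_lit 0), (nat_lit 0), (34, 12, 48), [1320505, 1962628], 0⟩,
  ⟨⟨51, -4, -91, 10, -69, 10, 60, 12, -11⟩, (.cons (nat_lit 304398) (nat_lit 3340568) (nat_lit 1053487)
 (nat_lit 1) (.cons (nat_lit 1151820) (nat_lit 6838830) (nat_lit 571122) (nat_lit 1) .nil)), (nat_lit 48),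
 (nat_lit 0), (nat_lit 0), (nat_lit 0), (21, 25, 8), [363513, 1207647], 0⟩,
  ⟨⟨75, -20, -32, 10, 21, -80, 12, -60, -25⟩, (.cons (nat_lit 3418800) (nat_lit 3380243) (nat_lit 1891238)
 (nat_lit 1) (.cons (nat_lit 7890480) (nat_lit 7803299) (nat_lit 1379929) (nat_lit 1) .nil)), (nat_lit 55),
 (nat_lit 0), (nat_lit 0), (nat_lit 0), (52, 59, 14), [3163004, 5850020], 0⟩,
  mz,
  ⟨⟨-11, -72, -25, 50, 11, -80, -44, -4, -29⟩, (.cons (nat_lit 2744444) (nat_lit 2393428) (nat_lit 912455)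
 (nat_lit 1) (.cons (nat_lit 4219999) (nat_lit 6186694) (nat_lit 6414286) (nat_lit 1) .nil)), (nat_lit 29),
 (nat_lit 0), (nat_lit 0), (nat_lit 0), (38, 8, 10), [2343195, 2025915], 0⟩,
  ⟨⟨-75, -20, 43, -10, 21, -70, -12, -60, -13⟩, (.cons (nat_lit 387689) (nat_lit 1639431) (nat_lit 2800320)
 (nat_lit 1) (.cons (nat_lit 5613676) (nat_lit 5151759) (nat_lit 1460051) (nat_lit 1) .nil)), (nat_lit 55),
 (nat_lit 0), (nat_lit 0), (nat_lit 0), (2, 5, 6), [1282227, 1043065], 0⟩,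
  mz,
  mz,
  mz,
  ⟨⟨11, 72, -36, -50, -11, -30, 44, 4, -73⟩, (.cons (nat_lit 1869098) (nat_lit 2814425) (nat_lit 1145231)
 (nat_lit 1) (.cons (nat_lit 7883458) (nat_lit 7644711) (nat_lit 6483894) (nat_lit 1) .nil)), (nat_lit 29),
 (nat_lit 0), (nat_lit 0), (nat_lit 0), (4, 27, 16), [585143, 2095159], 0⟩,
  mz,
  ⟨⟨-13, 72, 36, 70, 11, -30, -4, 44, -49⟩, (.cons (nat_lit 282240) (nat_lit 2789951) (nat_lit 2169523)
 (nat_lit 1) (.cons (nat_lit 4727333) (nat_lit 5920830) (nat_lit 239210) (nat_lit 1) .nil)), (nat_lit 62),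
 (nat_lit 0), (nat_lit 0), (nat_lit 0), (35, 30, 49), [1406870, 6774985], 0⟩,
  ⟨⟨75, -16, -52, 4, 55, -52, 10, -40, -59⟩, (.cons (nat_lit 3418800) (nat_lit 2899694) (nat_lit 793431)
 (nat_lit 1) (.cons (nat_lit 7890480) (nat_lit 2536914) (nat_lit 713665) (nat_lit 1) .nil)), (nat_lit 65),
 (nat_lit 0), (nat_lit 0), (nat_lit 0), (51, 51, 21), [2439797, 5634749], 0⟩,
  mz,
  ⟨⟨33, 20, -92, 64, -15, -2, 6, -48, -49⟩, (.cons (nat_lit 2322734) (nat_lit 827581) (nat_lit 1552346)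
 (nat_lit 1) (.cons (nat_lit 3714269) (nat_lit 5786796) (nat_lit 359476) (nat_lit 1) .nil)), (nat_lit 12),
 (nat_lit 0), (nat_lit 0), (nat_lit 0), (45, 55, 34), [371481, 4346241], 0⟩,
  ⟨⟨-9, -28, -76, -70, 11, 40, 4, 44, -53⟩, (.cons (nat_lit 1666539) (nat_lit 1922075) (nat_lit 2698120)
 (nat_lit 1) (.cons (nat_lit 7688955) (nat_lit 1083930) (nat_lit 2954993) (nat_lit 1) .nil)), (nat_lit 31),
 (nat_lit 0), (nat_lit 0), (nat_lit 0), (8, 7, 28), [2992538, 5809380], 0⟩,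
  ⟨⟨-23, 72, 32, 64, 25, -52, -26, 32, -41⟩, (.cons (nat_lit 1260897) (nat_lit 2714241) (nat_lit 221440)
 (nat_lit 1) (.cons (nat_lit 1470684) (nat_lit 6827506) (nat_lit 933669) (nat_lit 1) .nil)), (nat_lit 18),
 (nat_lit 0), (nat_lit 0), (nat_lit 0), (27, 36, 12), [1510360, 1384917], 0⟩,
  ⟨⟨37, -48, -73, -36, -55, 48, 54, -24, -1⟩, (.cons (nat_lit 2604440) (nat_lit 2516665) (nat_lit 376920)
 (nat_lit 1) (.cons (nat_lit 2148153) (nat_lit 4359301) (nat_lit 6253546) (nat_lit 1) .nil)), (nat_lit 16),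
 (nat_lit 0), (nat_lit 0), (nat_lit 0), (11, 20, 41), [1670537, 7152985], 0⟩]

/-- All the moves. -/
noncomputable def tabs : List (List (List Mv)) := [[[], t0_1, [], [], t0_4, [], t0_6, t0_7, [], t0_9, t0_10,
 [], [], [], [], [], [], t0_17], [[], t1_1, [], [], t1_4, [], t1_6, t1_7, [], t1_9, t1_10, [], [], [], [], [],
 [], t1_17], [], [], [[], t4_1, [], [], t4_4, [], t4_6, t4_7, [], t4_9, t4_10, [], [], [], [], [], [], t4_17]]

/-- Subtrie. -/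
noncomputable def T1 : Tr := (.ev (nat_lit 20) (nat_lit 2269095466417783148728) (.nd (nat_lit 33) (.br (nat_lit
 31) (.br (nat_lit 16) (.br (nat_lit 10) (.br (nat_lit 6) (.br (nat_lit 5) (.ch (nat_lit 4) (.ev (nat_lit 52)
 (nat_lit 290574812034629632) (.ev (nat_lit 84) (nat_lit 36028797018966016) (.ev (nat_lit 116) (nat_lit 256)
 (.ev (nat_lit 148) (nat_lit 2) (.ev (nat_lit 192) (nat_lit 4638997955989733376) .dd)))))) (.ch (nat_lit 5)
 (.ev (nat_lit 52) (nat_lit 45321871444410370) (.ev (nat_lit 84) (nat_lit 288230376151712000) (.ev (nat_lit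
 116) (nat_lit 68786587648) (.ev (nat_lit 148) (nat_lit 20266198323167232) (.ev (nat_lit 180) (nat_lit
 274877906944) (.ev (nat_lit 212) (nat_lit 8796093022208) (.ev (nat_lit 276) (nat_lit 17592186044416) (.nd
 (nat_lit 640) (.br (nat_lit 18) (.br (nat_lit 14) (.br (nat_lit 8) (.ch (nat_lit 2) (.ev (nat_lit 656)
 (nat_lit 4611756387172089856) (.ev (nat_lit 669) (nat_lit 8388608) .dd))) (.br (nat_lit 11) (.ch (nat_lit 8)
 (.ev (nat_lit 656) (nat_lit 4611756387180478464) .dd)) (.ch (nat_lit 11) (.ev (nat_lit 656) (nat_lit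
 4611756387172089856) (.ev (nat_lit 669) (nat_lit 8388608) .dd))))) (.br (nat_lit 16) (.ch (nat_lit 14) (.ev
 (nat_lit 656) (nat_lit 4611756387179954176) (.ev (nat_lit 669) (nat_lit 524288) .dd))) (.br (nat_lit 17) (.ch
 (nat_lit 16) (.ev (nat_lit 656) (nat_lit 4611686018436300800) (.ev (nat_lit 669) (nat_lit 70368744177664)
 .dd))) (.ch (nat_lit 17) (.ev (nat_lit 656) (nat_lit 4611756387180478464) .dd))))) (.br (nat_lit 27) (.br
 (nat_lit 19) (.ch (nat_lit 18) (.ev (nat_lit 656) (nat_lit 8388608) (.ev (nat_lit 768) (nat_lit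
 4611686018427912192) (.ev (nat_lit 781) (nat_lit 70368744177664) .dd)))) (.br (nat_lit 21) (.ch (nat_lit 19)
 (.ev (nat_lit 656) (nat_lit 4611756387179954176) (.ev (nat_lit 669) (nat_lit 524288) .dd))) (.ch (nat_lit 21)
 (.ev (nat_lit 656) (nat_lit 4611756387180478464) .dd)))) (.br (nat_lit 31) (.br (nat_lit 28) (.ch (nat_lit 27)
 (.ev (nat_lit 656) (nat_lit 4611756387180478464) .dd)) (.ch (nat_lit 28) (.ev (nat_lit 656) (nat_lit
 4611756387180478464) .dd))) (.br (nat_lit 38) (.ch (nat_lit 31) (.ev (nat_lit 656) (nat_lit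
 4611756387179954176) (.ev (nat_lit 669) (nat_lit 524288) .dd))) (.ch (nat_lit 38) (.ev (nat_lit 656) (nat_lit
 4611756387180478464) .dd)))))))))))))))) (.br (nat_lit 9) (.ch (nat_lit 6) (.ev (nat_lit 52) (nat_lit
 297242044328314882) (.ev (nat_lit 84) (nat_lit 18014398509481984) (.ev (nat_lit 180) (nat_lit
 36028797018963968) (.ev (nat_lit 212) (nat_lit 281474976710656) (.ev (nat_lit 432) (nat_lit 2251799813685248)
 (.nd (nat_lit 640) (.br (nat_lit 18) (.br (nat_lit 6) (.br (nat_lit 3) (.ch (nat_lit 2) (.ev (nat_lit 656)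
 (nat_lit 4611765458210127872) (.ev (nat_lit 752) (nat_lit 256) (.ev (nat_lit 765) (nat_lit 17592186044416)
 .dd)))) (.br (nat_lit 5) (.ch (nat_lit 3) (.ev (nat_lit 656) (nat_lit 4611712406706979072) (.ev (nat_lit 736)
 (nat_lit 274877906944) (.ev (nat_lit 1028) (nat_lit 70368744177664) (.ev (nat_lit 1037) (nat_lit 67108864)
 .dd))))) (.ch (nat_lit 5) (.ev (nat_lit 656) (nat_lit 4611782775518265600) (.ev (nat_lit 669) (nat_lit
 274877906944) .dd))))) (.br (nat_lit 14) (.ch (nat_lit 6) (.ev (nat_lit 656) (nat_lit 4611782775518265600)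
 (.ev (nat_lit 669) (nat_lit 274877906944) .dd))) (.br (nat_lit 17) (.ch (nat_lit 14) (.ev (nat_lit 656)
 (nat_lit 4611695089398841600) (.ev (nat_lit 708) (nat_lit 87960930222080) (.ev (nat_lit 717) (nat_lit
 67108864) .dd)))) (.ch (nat_lit 17) (.ev (nat_lit 656) (nat_lit 4611783050396172544) .dd))))) (.br (nat_lit
 27) (.br (nat_lit 21) (.ch (nat_lit 18) (.ev (nat_lit 656) (nat_lit 4611782775517741312) (.ev (nat_lit 708)
 (nat_lit 524288) (.ev (nat_lit 717) (nat_lit 274877906944) .dd)))) (.br (nat_lit 26) (.ch (nat_lit 21) (.ev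
 (nat_lit 656) (nat_lit 4611695089398841600) (.ev (nat_lit 708) (nat_lit 70368744177664) (.fin (nat_lit
 576421719668375980))))) (.ch (nat_lit 26) (.ev (nat_lit 656) (nat_lit 4611774254236041472) (.ev (nat_lit 752)
 (nat_lit 67108864) (.ev (nat_lit 765) (nat_lit 8796093022208) .dd)))))) (.br (nat_lit 29) (.br (nat_lit 28)
 (.ch (nat_lit 27) (.ev (nat_lit 656) (nat_lit 4611782775518265600) (.ev (nat_lit 669) (nat_lit 274877906944)
 .dd))) (.ch (nat_lit 28) (.ev (nat_lit 656) (nat_lit 26663224082688) (.ev (nat_lit 752) (nat_lit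
 70368744177664) (.ev (nat_lit 896) (nat_lit 4611686018427387904) (.ev (nat_lit 909) (nat_lit 524288) .dd))))))
 (.br (nat_lit 34) (.ch (nat_lit 29) (.ev (nat_lit 656) (nat_lit 17867064475904) (.ev (nat_lit 672) (nat_lit
 4611686018427387904) (.ev (nat_lit 708) (nat_lit 8796093022208) (.ev (nat_lit 1028) (nat_lit 67108864) (.ev
 (nat_lit 1037) (nat_lit 70368744177664) .dd)))))) (.ch (nat_lit 34) (.ev (nat_lit 656) (nat_lit
 4611712681584885760) (.ev (nat_lit 708) (nat_lit 70368744177664) (.ev (nat_lit 720) (nat_lit 256) (.ev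
 (nat_lit 733) (nat_lit 67108864) .dd)))))))))))))))) (.ch (nat_lit 9) (.ev (nat_lit 52) (nat_lit
 4674736758963830784) (.ev (nat_lit 84) (nat_lit 288234774198224896) (.ev (nat_lit 160) (nat_lit
 2630031881273602) .dd)))))) (.br (nat_lit 12) (.br (nat_lit 11) (.ch (nat_lit 10) (.ev (nat_lit 52) (nat_lit
 4659057446117966080) (.ev (nat_lit 84) (nat_lit 524288) (.ev (nat_lit 116) (nat_lit 288230378299195394) (.ev
 (nat_lit 148) (nat_lit 274945015808) (.ev (nat_lit 180) (nat_lit 17592194433024) (.ev (nat_lit 244) (nat_lit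
 18014398509481984) (.nd (nat_lit 640) (.br (nat_lit 17) (.br (nat_lit 13) (.br (nat_lit 8) (.ch (nat_lit 7)
 (.ev (nat_lit 656) (nat_lit 281474976710656) (.ev (nat_lit 669) (nat_lit 2048) .dd))) (.br (nat_lit 11) (.ch
 (nat_lit 8) (.ev (nat_lit 656) (nat_lit 281474976712704) .dd)) (.ch (nat_lit 11) (.ev (nat_lit 656) (nat_lit
 2048) (.ev (nat_lit 669) (nat_lit 281474976710656) .dd))))) (.br (nat_lit 14) (.ch (nat_lit 13) (.ev (nat_lit
 656) (nat_lit 2048) (.ev (nat_lit 669) (nat_lit 281474976710656) .dd))) (.br (nat_lit 16) (.ch (nat_lit 14)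
 (.ev (nat_lit 656) (nat_lit 281474976712704) .dd)) (.ch (nat_lit 16) (.ev (nat_lit 656) (nat_lit
 281474976710656) (.ev (nat_lit 669) (nat_lit 2048) .dd)))))) (.br (nat_lit 31) (.br (nat_lit 20) (.ch (nat_lit
 17) (.ev (nat_lit 656) (nat_lit 281474976712704) .dd)) (.br (nat_lit 29) (.ch (nat_lit 20) (.ev (nat_lit 656)
 (nat_lit 281474976712704) .dd)) (.ch (nat_lit 29) (.ev (nat_lit 656) (nat_lit 281474976712704) .dd)))) (.br
 (nat_lit 38) (.br (nat_lit 34) (.ch (nat_lit 31) (.ev (nat_lit 656) (nat_lit 2048) (.ev (nat_lit 669) (nat_lit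
 281474976710656) .dd))) (.ch (nat_lit 34) (.ev (nat_lit 656) (nat_lit 281474976710656) (.ev (nat_lit 669)
 (nat_lit 2048) .dd)))) (.br (nat_lit 40) (.ch (nat_lit 38) (.ev (nat_lit 656) (nat_lit 281474976712704) .dd))
 (.ch (nat_lit 40) (.ev (nat_lit 656) (nat_lit 281474976710656) (.ev (nat_lit 669) (nat_lit 2048)
 .dd))))))))))))))) (.ch (nat_lit 11) (.ev (nat_lit 52) (nat_lit 92702583031810) (.ev (nat_lit 84) (nat_lit
 9007199254740992) (.ev (nat_lit 116) (nat_lit 67108864) (.ev (nat_lit 148) (nat_lit 4629700419084353536) (.ev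
 (nat_lit 212) (nat_lit 2251799813685248) (.ev (nat_lit 308) (nat_lit 281474976710656) (.nd (nat_lit 640) (.br
 (nat_lit 18) (.br (nat_lit 13) (.br (nat_lit 8) (.ch (nat_lit 5) (.ev (nat_lit 656) (nat_lit
 288239172244734208) (.ev (nat_lit 669) (nat_lit 36028797018963968) .dd))) (.br (nat_lit 11) (.ch (nat_lit 8)
 (.ev (nat_lit 656) (nat_lit 324267969263697920) (.ev (nat_lit 669) (nat_lit 256) .dd))) (.ch (nat_lit 11) (.ev
 (nat_lit 656) (nat_lit 324259173170675712) (.ev (nat_lit 708) (nat_lit 8796093022208) (.ev (nat_lit 717)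
 (nat_lit 256) .dd)))))) (.br (nat_lit 14) (.ch (nat_lit 13) (.ev (nat_lit 656) (nat_lit 324267969263697920)
 (.ev (nat_lit 669) (nat_lit 256) .dd))) (.br (nat_lit 16) (.ch (nat_lit 14) (.ev (nat_lit 656) (nat_lit
 324267969263698176) .dd)) (.ch (nat_lit 16) (.ev (nat_lit 656) (nat_lit 324259173170675712) (.ev (nat_lit 832)
 (nat_lit 256) (.ev (nat_lit 845) (nat_lit 8796093022208) .dd))))))) (.br (nat_lit 29) (.br (nat_lit 20) (.ch
 (nat_lit 18) (.ev (nat_lit 656) (nat_lit 8796093022464) (.ev (nat_lit 944) (nat_lit 288230376151711744) (.ev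
 (nat_lit 957) (nat_lit 36028797018963968) .dd)))) (.br (nat_lit 28) (.ch (nat_lit 20) (.ev (nat_lit 656)
 (nat_lit 324267969263698176) .dd)) (.ch (nat_lit 28) (.ev (nat_lit 656) (nat_lit 324267969263698176) .dd))))
 (.br (nat_lit 34) (.br (nat_lit 30) (.ch (nat_lit 29) (.ev (nat_lit 656) (nat_lit 36028797018964224) (.ev
 (nat_lit 708) (nat_lit 8796093022208) (.ev (nat_lit 717) (nat_lit 288230376151711744) .dd)))) (.ch (nat_lit
 30) (.ev (nat_lit 656) (nat_lit 324267969263698176) .dd))) (.br (nat_lit 38) (.ch (nat_lit 34) (.ev (nat_lit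
 656) (nat_lit 324267969263698176) .dd)) (.ch (nat_lit 38) (.ev (nat_lit 656) (nat_lit 288239172244734208) (.ev
 (nat_lit 669) (nat_lit 36028797018963968) .dd)))))))))))))))) (.br (nat_lit 15) (.ch (nat_lit 12) (.ev
 (nat_lit 52) (nat_lit 4659053048079843586) (.ev (nat_lit 84) (nat_lit 2048) (.ev (nat_lit 116) (nat_lit
 288230376151711744) (.ev (nat_lit 148) (nat_lit 18014398509481984) (.ev (nat_lit 180) (nat_lit 2147483648)
 (.ev (nat_lit 212) (nat_lit 274877906944) (.ev (nat_lit 256) (nat_lit 303465276899328) .dd)))))))) (.ch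
 (nat_lit 15) (.ev (nat_lit 52) (nat_lit 4917939657901607168) (.ev (nat_lit 84) (nat_lit 11258999068426240)
 (.ev (nat_lit 116) (nat_lit 281749863006208) (.ev (nat_lit 148) (nat_lit 70368744177664) (.ev (nat_lit 180)
 (nat_lit 2) (.ev (nat_lit 592) (nat_lit 17592186044416) (.nd (nat_lit 640) (.br (nat_lit 21) (.br (nat_lit 16)
 (.br (nat_lit 4) (.ch (nat_lit 3) (.ev (nat_lit 656) (nat_lit 36028797086072832) (.ev (nat_lit 976) (nat_lit
 2147483648) (.ev (nat_lit 989) (nat_lit 4398046511104) .dd)))) (.br (nat_lit 8) (.ch (nat_lit 4) (.ev (nat_lit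
 656) (nat_lit 36033197280067584) .dd)) (.ch (nat_lit 8) (.ev (nat_lit 656) (nat_lit 36033197280067584) .dd))))
 (.br (nat_lit 17) (.ch (nat_lit 16) (.ev (nat_lit 656) (nat_lit 36033195132583936) (.ev (nat_lit 669) (nat_lit
 2147483648) .dd))) (.br (nat_lit 18) (.ch (nat_lit 17) (.ev (nat_lit 656) (nat_lit 36033197280067584) .dd))
 (.ch (nat_lit 18) (.ev (nat_lit 656) (nat_lit 36033197280067584) .dd))))) (.br (nat_lit 34) (.br (nat_lit 29)
 (.ch (nat_lit 21) (.ev (nat_lit 656) (nat_lit 36033197212958720) (.ev (nat_lit 669) (nat_lit 67108864) .dd)))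
 (.br (nat_lit 30) (.ch (nat_lit 29) (.ev (nat_lit 656) (nat_lit 36028797086072832) (.fin (nat_lit
 576478894304477748)))) (.ch (nat_lit 30) (.ev (nat_lit 656) (nat_lit 36033197212958720) (.ev (nat_lit 669)
 (nat_lit 67108864) .dd))))) (.br (nat_lit 38) (.ch (nat_lit 34) (.ev (nat_lit 656) (nat_lit 36033197280067584)
 .dd)) (.br (nat_lit 40) (.ch (nat_lit 38) (.ev (nat_lit 656) (nat_lit 2147483648) (.ev (nat_lit 768) (nat_lit
 4398046511104) (.ev (nat_lit 832) (nat_lit 67108864) (.ev (nat_lit 845) (nat_lit 36028797018963968) .dd)))))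
 (.ch (nat_lit 40) (.ev (nat_lit 656) (nat_lit 36033195132583936) (.ev (nat_lit 669) (nat_lit 2147483648)
 .dd)))))))))))))))))) (.br (nat_lit 22) (.br (nat_lit 18) (.br (nat_lit 17) (.ch (nat_lit 16) (.ev (nat_lit
 52) (nat_lit 344617732685694976) (.ev (nat_lit 84) (nat_lit 8796093022464) (.ev (nat_lit 192) (nat_lit
 4620975036264611842) .dd)))) (.ch (nat_lit 17) (.ev (nat_lit 52) (nat_lit 4638804373290876930) (.ev (nat_lit
 116) (nat_lit 2147483904) (.ev (nat_lit 180) (nat_lit 281474976710656) (.ev (nat_lit 192) (nat_lit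
 326515714628257792) .dd)))))) (.br (nat_lit 21) (.ch (nat_lit 18) (.ev (nat_lit 52) (nat_lit
 4900228658096507136) (.ev (nat_lit 84) (nat_lit 9007267974217728) (.ev (nat_lit 116) (nat_lit 70368744177664)
 (.ev (nat_lit 148) (nat_lit 274886295552) (.ev (nat_lit 212) (nat_lit 2) (.ev (nat_lit 352) (nat_lit
 56294995342131200) .dd))))))) (.ch (nat_lit 21) (.ev (nat_lit 52) (nat_lit 20362957494419712) (.ev (nat_lit
 84) (nat_lit 68719478784) (.ev (nat_lit 116) (nat_lit 288230376160100352) (.ev (nat_lit 192) (nat_lit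
 4657008162669330434) .dd))))))) (.br (nat_lit 26) (.br (nat_lit 24) (.ch (nat_lit 22) (.ev (nat_lit 52)
 (nat_lit 4632238158560362752) (.ev (nat_lit 84) (nat_lit 70370891661312) (.ev (nat_lit 116) (nat_lit
 36028797018963968) (.ev (nat_lit 148) (nat_lit 8388608) (.ev (nat_lit 180) (nat_lit 17592186044416) (.ev
 (nat_lit 212) (nat_lit 2) (.nd (nat_lit 640) (.br (nat_lit 27) (.br (nat_lit 19) (.br (nat_lit 13) (.ch
 (nat_lit 3) (.ev (nat_lit 656) (nat_lit 297246646377383936) (.ev (nat_lit 669) (nat_lit 524288) .dd))) (.br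
 (nat_lit 18) (.ch (nat_lit 13) (.ev (nat_lit 656) (nat_lit 288239447123167232) (.ev (nat_lit 669) (nat_lit
 9007199254740992) .dd))) (.ch (nat_lit 18) (.ev (nat_lit 656) (nat_lit 297246371499476992) (.ev (nat_lit 864)
 (nat_lit 524288) (.ev (nat_lit 877) (nat_lit 274877906944) .dd)))))) (.br (nat_lit 21) (.ch (nat_lit 19) (.ev
 (nat_lit 656) (nat_lit 297237575406454784) (.ev (nat_lit 816) (nat_lit 274877906944) (.ev (nat_lit 832)
 (nat_lit 8796093022208) (.ev (nat_lit 845) (nat_lit 524288) .dd))))) (.br (nat_lit 26) (.ch (nat_lit 21) (.ev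
 (nat_lit 656) (nat_lit 9016270226194432) (.ev (nat_lit 720) (nat_lit 288230376151711744) (.ev (nat_lit 733)
 (nat_lit 2048) .dd)))) (.ch (nat_lit 26) (.ev (nat_lit 656) (nat_lit 9007474133174272) (.ev (nat_lit 720)
 (nat_lit 288230376151711744) (.ev (nat_lit 733) (nat_lit 8796093022208) .dd))))))) (.br (nat_lit 30) (.br
 (nat_lit 28) (.ch (nat_lit 27) (.ev (nat_lit 656) (nat_lit 297246646377908224) .dd)) (.br (nat_lit 29) (.ch
 (nat_lit 28) (.ev (nat_lit 656) (nat_lit 288230376152238080) (.ev (nat_lit 688) (nat_lit 274877906944) (.ev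
 (nat_lit 708) (nat_lit 8796093022208) (.ev (nat_lit 717) (nat_lit 9007199254740992) .dd))))) (.ch (nat_lit 29)
 (.ev (nat_lit 656) (nat_lit 9007474133174272) (.ev (nat_lit 708) (nat_lit 8796093022208) (.ev (nat_lit 717)
 (nat_lit 288230376151711744) .dd)))))) (.br (nat_lit 38) (.br (nat_lit 31) (.ch (nat_lit 30) (.ev (nat_lit
 656) (nat_lit 9016270226196480) (.ev (nat_lit 669) (nat_lit 288230376151711744) .dd))) (.ch (nat_lit 31) (.ev
 (nat_lit 656) (nat_lit 297246646377908224) .dd))) (.br (nat_lit 40) (.ch (nat_lit 38) (.ev (nat_lit 656)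
 (nat_lit 297246646377908224) .dd)) (.ch (nat_lit 40) (.ev (nat_lit 656) (nat_lit 288239447122640896) (.ev
 (nat_lit 672) (nat_lit 524288) (.ev (nat_lit 912) (nat_lit 9007199254743040) .dd)))))))))))))))) (.ch (nat_lit
 24) (.ev (nat_lit 52) (nat_lit 27113956740958466) (.ev (nat_lit 96) (nat_lit 4938487608302370816) .dd)))) (.br
 (nat_lit 28) (.ch (nat_lit 26) (.ev (nat_lit 52) (nat_lit 4656748746577543424) (.ev (nat_lit 84) (nat_lit
 67108864) (.ev (nat_lit 128) (nat_lit 308852818398676994) .dd)))) (.br (nat_lit 29) (.ch (nat_lit 28) (.ev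
 (nat_lit 52) (nat_lit 315542519864101120) (.ev (nat_lit 84) (nat_lit 4400193994752) (.ev (nat_lit 148)
 (nat_lit 8388608) (.ev (nat_lit 180) (nat_lit 36028797018963970) (.ev (nat_lit 244) (nat_lit 17592186044416)
 (.ev (nat_lit 288) (nat_lit 4614008255771836416) .dd))))))) (.ch (nat_lit 29) (.ev (nat_lit 52) (nat_lit
 4947490407354728448) (.ev (nat_lit 84) (nat_lit 8388608) (.ev (nat_lit 116) (nat_lit 2) (.ev (nat_lit 180)
 (nat_lit 18014398509481984) (.ev (nat_lit 256) (nat_lit 96759170730240) .dd))))))))))) (.br (nat_lit 42) (.br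
 (nat_lit 38) (.br (nat_lit 36) (.br (nat_lit 33) (.ch (nat_lit 31) (.ev (nat_lit 52) (nat_lit
 27382583390109952) (.ev (nat_lit 84) (nat_lit 4398046511106) (.ev (nat_lit 116) (nat_lit 4611686018436300800)
 (.ev (nat_lit 276) (nat_lit 17592186044416) (.nd (nat_lit 640) (.br (nat_lit 14) (.br (nat_lit 6) (.br
 (nat_lit 4) (.ch (nat_lit 3) (.ev (nat_lit 656) (nat_lit 36028797018966016) (.ev (nat_lit 736) (nat_lit
 2251799813685248) (.ev (nat_lit 749) (nat_lit 288230376151711744) .dd)))) (.br (nat_lit 5) (.ch (nat_lit 4)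
 (.ev (nat_lit 656) (nat_lit 326510972984363008) .dd)) (.ch (nat_lit 5) (.ev (nat_lit 656) (nat_lit
 290482175965399040) (.ev (nat_lit 669) (nat_lit 36028797018963968) .dd))))) (.br (nat_lit 11) (.ch (nat_lit 6)
 (.ev (nat_lit 656) (nat_lit 288230376151713792) (.fin (nat_lit 576442610378818051)))) (.br (nat_lit 13) (.ch
 (nat_lit 11) (.ev (nat_lit 656) (nat_lit 324259173170677760) (.ev (nat_lit 669) (nat_lit 2251799813685248)
 .dd))) (.ch (nat_lit 13) (.ev (nat_lit 656) (nat_lit 324259173170677760) (.ev (nat_lit 669) (nat_lit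
 2251799813685248) .dd)))))) (.br (nat_lit 21) (.br (nat_lit 16) (.ch (nat_lit 14) (.ev (nat_lit 656) (nat_lit
 290482175965399040) (.ev (nat_lit 669) (nat_lit 36028797018963968) .dd))) (.br (nat_lit 18) (.ch (nat_lit 16)
 (.ev (nat_lit 656) (nat_lit 326510972984360960) (.ev (nat_lit 669) (nat_lit 2048) .dd))) (.ch (nat_lit 18)
 (.ev (nat_lit 656) (nat_lit 38280596832651264) (.ev (nat_lit 669) (nat_lit 288230376151711744) .dd))))) (.br
 (nat_lit 30) (.br (nat_lit 27) (.ch (nat_lit 21) (.ev (nat_lit 656) (nat_lit 2251799813687296) (.ev (nat_lit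
 708) (nat_lit 288230376151711744) (.ev (nat_lit 717) (nat_lit 36028797018963968) .dd)))) (.ch (nat_lit 27)
 (.ev (nat_lit 656) (nat_lit 290482175965399040) (.ev (nat_lit 669) (nat_lit 36028797018963968) .dd)))) (.br
 (nat_lit 38) (.ch (nat_lit 30) (.ev (nat_lit 656) (nat_lit 324259173170677760) (.ev (nat_lit 669) (nat_lit
 2251799813685248) .dd))) (.ch (nat_lit 38) (.ev (nat_lit 656) (nat_lit 326510972984360960) (.ev (nat_lit 669)
 (nat_lit 2048) .dd))))))))))))) (.ch (nat_lit 33) (.ev (nat_lit 52) (nat_lit 4611976564450527488) (.ev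
 (nat_lit 84) (nat_lit 54043195528445952) (.ev (nat_lit 116) (nat_lit 68720001024) (.ev (nat_lit 148) (nat_lit
 2256197860196352) (.ev (nat_lit 256) (nat_lit 297325538484158466) .dd))))))) (.br (nat_lit 37) (.ch (nat_lit
 36) (.ev (nat_lit 52) (nat_lit 63332213357283330) (.ev (nat_lit 84) (nat_lit 288305142942400768) (.ev (nat_lit
 116) (nat_lit 4611686020574871552) (.ev (nat_lit 148) (nat_lit 2269391999729664) (.ev (nat_lit 180) (nat_lit
 67108864) (.nd (nat_lit 640) (.br (nat_lit 16) (.br (nat_lit 6) (.br (nat_lit 3) (.ch (nat_lit 2) (.ev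
 (nat_lit 656) (nat_lit 8796093546496) (.ev (nat_lit 669) (nat_lit 8388608) .dd))) (.br (nat_lit 5) (.ch
 (nat_lit 3) (.ev (nat_lit 656) (nat_lit 8796101410816) (.ev (nat_lit 669) (nat_lit 524288) .dd))) (.ch
 (nat_lit 5) (.ev (nat_lit 656) (nat_lit 524288) (.ev (nat_lit 1028) (nat_lit 8388608) (.ev (nat_lit 1037)
 (nat_lit 8796093022208) .dd)))))) (.br (nat_lit 7) (.ch (nat_lit 6) (.ev (nat_lit 656) (nat_lit 8796101935104)
 .dd)) (.br (nat_lit 13) (.ch (nat_lit 7) (.ev (nat_lit 656) (nat_lit 8796101935104) .dd)) (.ch (nat_lit 13)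
 (.ev (nat_lit 656) (nat_lit 8912896) (.ev (nat_lit 669) (nat_lit 8796093022208) .dd)))))) (.br (nat_lit 26)
 (.br (nat_lit 17) (.ch (nat_lit 16) (.ev (nat_lit 656) (nat_lit 8912896) (.ev (nat_lit 669) (nat_lit
 8796093022208) .dd))) (.br (nat_lit 20) (.ch (nat_lit 17) (.ev (nat_lit 656) (nat_lit 8796101935104) .dd))
 (.ch (nat_lit 20) (.ev (nat_lit 656) (nat_lit 8796101935104) .dd)))) (.br (nat_lit 29) (.br (nat_lit 28) (.ch
 (nat_lit 26) (.ev (nat_lit 656) (nat_lit 8796093546496) (.ev (nat_lit 669) (nat_lit 8388608) .dd))) (.ch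
 (nat_lit 28) (.ev (nat_lit 656) (nat_lit 8912896) (.ev (nat_lit 669) (nat_lit 8796093022208) .dd)))) (.br
 (nat_lit 34) (.ch (nat_lit 29) (.ev (nat_lit 656) (nat_lit 8796101935104) .dd)) (.ch (nat_lit 34) (.ev
 (nat_lit 656) (nat_lit 8912896) (.ev (nat_lit 669) (nat_lit 8796093022208) .dd)))))))))))))) (.ch (nat_lit 37)
 (.ev (nat_lit 52) (nat_lit 4649966684055013378) (.ev (nat_lit 84) (nat_lit 9293072277963008) (.ev (nat_lit
 116) (nat_lit 274877906944) (.ev (nat_lit 148) (nat_lit 2147483648) (.ev (nat_lit 180) (nat_lit 8796093022208)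
 (.ev (nat_lit 276) (nat_lit 17592186044416) (.nd (nat_lit 640) (.br (nat_lit 21) (.br (nat_lit 11) (.br
 (nat_lit 6) (.ch (nat_lit 3) (.ev (nat_lit 656) (nat_lit 288230376151711744) (.ev (nat_lit 832) (nat_lit
 524288) (.ev (nat_lit 944) (nat_lit 70368744177664) (.ev (nat_lit 957) (nat_lit 18014398509481984) .dd)))))
 (.br (nat_lit 7) (.ch (nat_lit 6) (.ev (nat_lit 656) (nat_lit 306315143405895680) .dd)) (.ch (nat_lit 7) (.ev
 (nat_lit 656) (nat_lit 18084767254183936) (.ev (nat_lit 669) (nat_lit 288230376151711744) .dd))))) (.br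
 (nat_lit 13) (.ch (nat_lit 11) (.ev (nat_lit 656) (nat_lit 306315143405895680) .dd)) (.br (nat_lit 19) (.ch
 (nat_lit 13) (.ev (nat_lit 656) (nat_lit 306315143405371392) (.ev (nat_lit 669) (nat_lit 524288) .dd))) (.ch
 (nat_lit 19) (.ev (nat_lit 656) (nat_lit 18084767253659648) (.ev (nat_lit 720) (nat_lit 524288) (.ev (nat_lit
 733) (nat_lit 288230376151711744) .dd))))))) (.br (nat_lit 29) (.br (nat_lit 26) (.ch (nat_lit 21) (.ev
 (nat_lit 656) (nat_lit 288300744896413696) (.ev (nat_lit 669) (nat_lit 18014398509481984) .dd))) (.br (nat_lit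
 28) (.ch (nat_lit 26) (.ev (nat_lit 656) (nat_lit 18084767254183936) (.ev (nat_lit 669) (nat_lit
 288230376151711744) .dd))) (.ch (nat_lit 28) (.ev (nat_lit 656) (nat_lit 306244774661193728) (.ev (nat_lit
 708) (nat_lit 524288) (.ev (nat_lit 717) (nat_lit 70368744177664) .dd)))))) (.br (nat_lit 34) (.br (nat_lit
 30) (.ch (nat_lit 29) (.ev (nat_lit 656) (nat_lit 306244774661718016) (.ev (nat_lit 669) (nat_lit
 70368744177664) .dd))) (.ch (nat_lit 30) (.ev (nat_lit 656) (nat_lit 18084767254183936) (.ev (nat_lit 669)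
 (nat_lit 288230376151711744) .dd)))) (.br (nat_lit 38) (.ch (nat_lit 34) (.ev (nat_lit 656) (nat_lit
 288230376152236032) (.ev (nat_lit 848) (nat_lit 70368744177664) (.ev (nat_lit 861) (nat_lit 18014398509481984)
 .dd)))) (.ch (nat_lit 38) (.ev (nat_lit 656) (nat_lit 288300744896413696) (.ev (nat_lit 669) (nat_lit
 18014398509481984) .dd))))))))))))))))) (.br (nat_lit 40) (.br (nat_lit 39) (.ch (nat_lit 38) (.ev (nat_lit
 52) (nat_lit 18032267721441538) (.ev (nat_lit 84) (nat_lit 9077568007309312) (.ev (nat_lit 116) (nat_lit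
 281474976710656) (.ev (nat_lit 148) (nat_lit 4611686018427387904) (.ev (nat_lit 180) (nat_lit 68719476736)
 (.ev (nat_lit 244) (nat_lit 8796160131072) (.nd (nat_lit 640) (.br (nat_lit 18) (.br (nat_lit 7) (.br (nat_lit
 3) (.ch (nat_lit 2) (.ev (nat_lit 656) (nat_lit 326515371030872064) .dd)) (.br (nat_lit 6) (.ch (nat_lit 3)
 (.ev (nat_lit 656) (nat_lit 326510972984360960) (.ev (nat_lit 669) (nat_lit 4398046511104) .dd))) (.ch
 (nat_lit 6) (.ev (nat_lit 656) (nat_lit 288230376151711744) (.ev (nat_lit 752) (nat_lit 4398046511104) (.nd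
 (nat_lit 1073) (.ch (nat_lit 31) (.nd (nat_lit 1088) (.br (nat_lit 40) (.ch (nat_lit 17) (.ev (nat_lit 1104)
 (nat_lit 38280596832649216) .dd)) (.ch (nat_lit 40) (.fin (nat_lit 576442610378818051)))))))))))) (.br
 (nat_lit 16) (.br (nat_lit 8) (.ch (nat_lit 7) (.ev (nat_lit 656) (nat_lit 38284994879160320) (.ev (nat_lit
 669) (nat_lit 288230376151711744) .dd))) (.ch (nat_lit 8) (.ev (nat_lit 656) (nat_lit 324263571217186816) (.ev
 (nat_lit 669) (nat_lit 2251799813685248) .dd)))) (.br (nat_lit 17) (.ch (nat_lit 16) (.ev (nat_lit 656)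
 (nat_lit 326515371030872064) .dd)) (.ch (nat_lit 17) (.ev (nat_lit 656) (nat_lit 326515371030872064) .dd)))))
 (.br (nat_lit 26) (.br (nat_lit 19) (.ch (nat_lit 18) (.ev (nat_lit 656) (nat_lit 288234774198222848) (.ev
 (nat_lit 708) (nat_lit 2251799813685248) (.ev (nat_lit 717) (nat_lit 36028797018963968) .dd)))) (.br (nat_lit
 21) (.ch (nat_lit 19) (.ev (nat_lit 656) (nat_lit 38280596832649216) (.ev (nat_lit 720) (nat_lit
 4398046511104) (.ev (nat_lit 733) (nat_lit 288230376151711744) .dd)))) (.ch (nat_lit 21) (.ev (nat_lit 656)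
 (nat_lit 326515371030872064) .dd)))) (.br (nat_lit 31) (.br (nat_lit 30) (.ch (nat_lit 26) (.ev (nat_lit 656)
 (nat_lit 4398046511104) (.ev (nat_lit 708) (nat_lit 288230376151711744) (.ev (nat_lit 736) (nat_lit
 36028797018963968) (.ev (nat_lit 749) (nat_lit 2251799813685248) .dd))))) (.ch (nat_lit 30) (.ev (nat_lit 656)
 (nat_lit 4398046511104) (.ev (nat_lit 708) (nat_lit 38280596832649216) (.ev (nat_lit 717) (nat_lit
 288230376151711744) .dd))))) (.br (nat_lit 40) (.ch (nat_lit 31) (.ev (nat_lit 656) (nat_lit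
 288234774198222848) (.ev (nat_lit 708) (nat_lit 36028797018963968) (.ev (nat_lit 717) (nat_lit
 2251799813685248) .dd)))) (.ch (nat_lit 40) (.ev (nat_lit 656) (nat_lit 326510972984360960) (.ev (nat_lit 669)
 (nat_lit 4398046511104) .dd))))))))))))))) (.ch (nat_lit 39) (.ev (nat_lit 52) (nat_lit 290552546857584898)
 (.ev (nat_lit 84) (nat_lit 4611686018427387904) (.ev (nat_lit 128) (nat_lit 63362999758356480) .dd))))) (.br
 (nat_lit 41) (.ch (nat_lit 40) (.ev (nat_lit 52) (nat_lit 288318339296528640) (.ev (nat_lit 116) (nat_lit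
 11258999068426240) (.ev (nat_lit 148) (nat_lit 36028797018963968) (.ev (nat_lit 180) (nat_lit 2) (.ev (nat_lit
 212) (nat_lit 8388608) (.ev (nat_lit 244) (nat_lit 281749854617600) (.nd (nat_lit 640) (.br (nat_lit 20) (.br
 (nat_lit 16) (.br (nat_lit 4) (.ch (nat_lit 3) (.ev (nat_lit 656) (nat_lit 4611699281286922240) (.ev (nat_lit
 669) (nat_lit 18014398509481984) .dd))) (.br (nat_lit 7) (.ch (nat_lit 4) (.ev (nat_lit 656) (nat_lit
 4629713679796404224) .dd)) (.ch (nat_lit 7) (.ev (nat_lit 656) (nat_lit 4611699281286922240) (.ev (nat_lit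
 669) (nat_lit 18014398509481984) .dd))))) (.br (nat_lit 17) (.ch (nat_lit 16) (.ev (nat_lit 656) (nat_lit
 18018796556517376) (.ev (nat_lit 720) (nat_lit 4611686018427387904) (.ev (nat_lit 1028) (nat_lit 68719476736)
 (.ev (nat_lit 1037) (nat_lit 8796093022208) .dd))))) (.br (nat_lit 19) (.ch (nat_lit 17) (.ev (nat_lit 656)
 (nat_lit 18027592649015296) (.ev (nat_lit 784) (nat_lit 4611686018427387904) (.fin (nat_lit
 576474496213926468))))) (.ch (nat_lit 19) (.ev (nat_lit 656) (nat_lit 18023194603028480) (.ev (nat_lit 672)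
 (nat_lit 68719476736) (.ev (nat_lit 720) (nat_lit 4611686018427387904) (.ev (nat_lit 733) (nat_lit
 4398046511104) .dd)))))))) (.br (nat_lit 30) (.br (nat_lit 26) (.ch (nat_lit 20) (.ev (nat_lit 656) (nat_lit
 4629709213030416384) (.ev (nat_lit 708) (nat_lit 4398046511104) (.ev (nat_lit 717) (nat_lit 68719476736)
 .dd)))) (.br (nat_lit 28) (.ch (nat_lit 26) (.ev (nat_lit 656) (nat_lit 4629704883703382016) (.ev (nat_lit
 669) (nat_lit 8796093022208) .dd))) (.ch (nat_lit 28) (.ev (nat_lit 656) (nat_lit 4629713679796404224) .dd))))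
 (.br (nat_lit 38) (.br (nat_lit 34) (.ch (nat_lit 30) (.ev (nat_lit 656) (nat_lit 4629713679795879936) (.ev
 (nat_lit 669) (nat_lit 524288) .dd))) (.ch (nat_lit 34) (.ev (nat_lit 656) (nat_lit 4611690416474423296) (.ev
 (nat_lit 720) (nat_lit 8796093022208) (.ev (nat_lit 1028) (nat_lit 18014398509481984) (.ev (nat_lit 1037)
 (nat_lit 68719476736) .dd)))))) (.br (nat_lit 40) (.ch (nat_lit 38) (.ev (nat_lit 656) (nat_lit
 4611686087147388928) (.ev (nat_lit 708) (nat_lit 18014398509481984) (.ev (nat_lit 736) (nat_lit 8796093022208)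
 (.ev (nat_lit 749) (nat_lit 4398046511104) .dd))))) (.ch (nat_lit 40) (.ev (nat_lit 656) (nat_lit
 18023263322505216) (.ev (nat_lit 720) (nat_lit 4398046511104) (.ev (nat_lit 733) (nat_lit 4611686018427387904)
 .dd)))))))))))))))) (.ch (nat_lit 41) (.ev (nat_lit 52) (nat_lit 4938562304158992384) (.ev (nat_lit 116)
 (nat_lit 68786585600) (.ev (nat_lit 224) (nat_lit 27039192097751298) .dd))))))) (.br (nat_lit 47) (.br
 (nat_lit 44) (.br (nat_lit 43) (.ch (nat_lit 42) (.ev (nat_lit 52) (nat_lit 4614303199774375938) (.ev (nat_lit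
 116) (nat_lit 45035996273704960) (.ev (nat_lit 180) (nat_lit 524288) (.nd (nat_lit 640) (.br (nat_lit 19) (.br
 (nat_lit 7) (.br (nat_lit 4) (.ch (nat_lit 3) (.ev (nat_lit 656) (nat_lit 306262366847240448) (.ev (nat_lit
 669) (nat_lit 2147483648) .dd))) (.br (nat_lit 5) (.ch (nat_lit 4) (.ev (nat_lit 656) (nat_lit
 306262368994724096) .dd)) (.ch (nat_lit 5) (.ev (nat_lit 656) (nat_lit 18031990695526656) (.ev (nat_lit 708)
 (nat_lit 288230376151711744) (.ev (nat_lit 736) (nat_lit 2147483648) (.ev (nat_lit 749) (nat_lit 2048)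
 .dd))))))) (.br (nat_lit 14) (.br (nat_lit 8) (.ch (nat_lit 7) (.ev (nat_lit 656) (nat_lit 2147483904) (.ev
 (nat_lit 708) (nat_lit 18014398509481984) (.ev (nat_lit 768) (nat_lit 288230376151711744) (.fin (nat_lit
 576456903904149988)))))) (.ch (nat_lit 8) (.ev (nat_lit 656) (nat_lit 288247970485241856) (.ev (nat_lit 800)
 (nat_lit 256) (.ev (nat_lit 813) (nat_lit 18014398509481984) .dd))))) (.br (nat_lit 17) (.ch (nat_lit 14) (.ev
 (nat_lit 656) (nat_lit 306244776808679680) (.ev (nat_lit 669) (nat_lit 17592186044416) .dd))) (.ch (nat_lit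
 17) (.ev (nat_lit 656) (nat_lit 306262368994724096) .dd))))) (.br (nat_lit 26) (.br (nat_lit 20) (.ch (nat_lit
 19) (.ev (nat_lit 656) (nat_lit 306262368994724096) .dd)) (.br (nat_lit 21) (.ch (nat_lit 20) (.ev (nat_lit
 656) (nat_lit 306262368994724096) .dd)) (.ch (nat_lit 21) (.ev (nat_lit 656) (nat_lit 18031992843010304) (.ev
 (nat_lit 708) (nat_lit 288230376151711744) (.ev (nat_lit 717) (nat_lit 2048) .dd)))))) (.br (nat_lit 34) (.br
 (nat_lit 31) (.ch (nat_lit 26) (.ev (nat_lit 656) (nat_lit 18014400656965888) (.ev (nat_lit 752) (nat_lit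
 2048) (.ev (nat_lit 928) (nat_lit 17592186044416) (.ev (nat_lit 941) (nat_lit 288230376151711744) .dd)))))
 (.ch (nat_lit 31) (.ev (nat_lit 656) (nat_lit 288247968337758464) (.ev (nat_lit 720) (nat_lit 2147483648) (.ev
 (nat_lit 733) (nat_lit 18014398509481984) .dd))))) (.br (nat_lit 40) (.ch (nat_lit 34) (.ev (nat_lit 656)
 (nat_lit 17594333528320) (.ev (nat_lit 708) (nat_lit 18014398509484032) (.ev (nat_lit 717) (nat_lit
 288230376151711744) .dd)))) (.ch (nat_lit 40) (.ev (nat_lit 656) (nat_lit 306262366847238144) (.ev (nat_lit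
 720) (nat_lit 2147483904) (.ev (nat_lit 733) (nat_lit 2048) .dd))))))))))))) (.ch (nat_lit 43) (.ev (nat_lit
 52) (nat_lit 317508448810436864) (.ev (nat_lit 160) (nat_lit 4648093116232892418) .dd)))) (.br (nat_lit 46)
 (.ch (nat_lit 44) (.ev (nat_lit 52) (nat_lit 4648088649400320256) (.ev (nat_lit 84) (nat_lit 68719476736) (.ev
 (nat_lit 116) (nat_lit 2147483648) (.ev (nat_lit 180) (nat_lit 8796093022208) (.ev (nat_lit 212) (nat_lit
 67108864) (.ev (nat_lit 244) (nat_lit 18014398517870592) (.nd (nat_lit 640) (.br (nat_lit 14) (.br (nat_lit 5)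
 (.br (nat_lit 4) (.ch (nat_lit 3) (.ev (nat_lit 656) (nat_lit 299489375220137986) (.ev (nat_lit 832) (nat_lit
 2048) (.ev (nat_lit 845) (nat_lit 274877906944) .dd)))) (.ch (nat_lit 4) (.ev (nat_lit 656) (nat_lit
 299489650098046978) .dd))) (.br (nat_lit 6) (.ch (nat_lit 5) (.ev (nat_lit 656) (nat_lit 2252074691594240)
 (.ev (nat_lit 708) (nat_lit 2) (.ev (nat_lit 720) (nat_lit 288230376151711744) (.ev (nat_lit 733) (nat_lit
 9007199254740992) .dd))))) (.br (nat_lit 8) (.ch (nat_lit 6) (.ev (nat_lit 656) (nat_lit 288230651029620738)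
 (.ev (nat_lit 708) (nat_lit 2251799813685248) (.ev (nat_lit 717) (nat_lit 9007199254740992) .dd)))) (.ch
 (nat_lit 8) (.ev (nat_lit 656) (nat_lit 290482450843305986) (.ev (nat_lit 669) (nat_lit 9007199254740992)
 .dd)))))) (.br (nat_lit 19) (.br (nat_lit 17) (.ch (nat_lit 14) (.ev (nat_lit 656) (nat_lit 2252074691594242)
 (.ev (nat_lit 708) (nat_lit 288230376151711744) (.ev (nat_lit 717) (nat_lit 9007199254740992) .dd)))) (.ch
 (nat_lit 17) (.ev (nat_lit 656) (nat_lit 290482450843305986) (.ev (nat_lit 669) (nat_lit 9007199254740992)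
 .dd)))) (.br (nat_lit 27) (.ch (nat_lit 19) (.ev (nat_lit 656) (nat_lit 299489650098046978) .dd)) (.br
 (nat_lit 28) (.ch (nat_lit 27) (.ev (nat_lit 656) (nat_lit 11258999068428288) (.ev (nat_lit 736) (nat_lit
 274877906944) (.ev (nat_lit 752) (nat_lit 2) (.ev (nat_lit 765) (nat_lit 288230376151711744) .dd))))) (.ch
 (nat_lit 28) (.ev (nat_lit 656) (nat_lit 299489375220140034) (.ev (nat_lit 669) (nat_lit 274877906944)
 .dd))))))))))))))) (.ch (nat_lit 46) (.ev (nat_lit 52) (nat_lit 351355608592547840) (.ev (nat_lit 84) (nat_lit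
 256) (.ev (nat_lit 116) (nat_lit 2251799813687298) (.ev (nat_lit 148) (nat_lit 4611686018427387904) (.ev
 (nat_lit 180) (nat_lit 8388608) (.nd (nat_lit 640) (.br (nat_lit 20) (.br (nat_lit 7) (.br (nat_lit 5) (.ch
 (nat_lit 4) (.ev (nat_lit 656) (nat_lit 308138201317376) .dd)) (.br (nat_lit 6) (.ch (nat_lit 5) (.ev (nat_lit
 656) (nat_lit 17592253677568) (.ev (nat_lit 708) (nat_lit 9070970929152) (.ev (nat_lit 717) (nat_lit
 281474976710656) .dd)))) (.ch (nat_lit 6) (.ev (nat_lit 656) (nat_lit 307863323410432) (.ev (nat_lit 669)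
 (nat_lit 274877906944) .dd))))) (.br (nat_lit 8) (.ch (nat_lit 7) (.ev (nat_lit 656) (nat_lit 308138201317376)
 .dd)) (.br (nat_lit 18) (.ch (nat_lit 8) (.ev (nat_lit 656) (nat_lit 290546015272960) (.ev (nat_lit 669)
 (nat_lit 17592186044416) .dd))) (.ch (nat_lit 18) (.ev (nat_lit 656) (nat_lit 308138201317376) .dd))))) (.br
 (nat_lit 28) (.br (nat_lit 21) (.ch (nat_lit 20) (.ev (nat_lit 656) (nat_lit 308138201317376) .dd)) (.br
 (nat_lit 26) (.ch (nat_lit 21) (.ev (nat_lit 656) (nat_lit 290545948164096) (.fin (nat_lit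
 576421719668375980)))) (.ch (nat_lit 26) (.ev (nat_lit 656) (nat_lit 9071038562304) (.ev (nat_lit 1028)
 (nat_lit 17592186044416) (.ev (nat_lit 1037) (nat_lit 281474976710656) .dd)))))) (.br (nat_lit 30) (.ch
 (nat_lit 28) (.ev (nat_lit 656) (nat_lit 307863323410432) (.ev (nat_lit 669) (nat_lit 274877906944) .dd)))
 (.br (nat_lit 38) (.ch (nat_lit 30) (.ev (nat_lit 656) (nat_lit 308138200793088) (.ev (nat_lit 669) (nat_lit
 524288) .dd))) (.ch (nat_lit 38) (.ev (nat_lit 656) (nat_lit 299342041186304) (.ev (nat_lit 708) (nat_lit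
 67108864) (.ev (nat_lit 717) (nat_lit 8796093022208) .dd))))))))))))))))) (.br (nat_lit 49) (.br (nat_lit 48)
 (.ch (nat_lit 47) (.ev (nat_lit 52) (nat_lit 2278256887726080) (.ev (nat_lit 84) (nat_lit 324259173170675714)
 (.ev (nat_lit 180) (nat_lit 524288) (.ev (nat_lit 212) (nat_lit 256) (.nd (nat_lit 640) (.br (nat_lit 26) (.br
 (nat_lit 13) (.br (nat_lit 6) (.ch (nat_lit 5) (.ev (nat_lit 656) (nat_lit 27378116557012992) (.ev (nat_lit
 708) (nat_lit 2048) (.ev (nat_lit 717) (nat_lit 4611686018427387904) .dd)))) (.ch (nat_lit 6) (.ev (nat_lit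
 656) (nat_lit 27373718510503936) (.ev (nat_lit 708) (nat_lit 4398046511104) (.ev (nat_lit 717) (nat_lit
 4611686018427387904) .dd))))) (.br (nat_lit 16) (.ch (nat_lit 13) (.ev (nat_lit 656) (nat_lit
 4639064134984402944) .dd)) (.br (nat_lit 17) (.ch (nat_lit 16) (.ev (nat_lit 656) (nat_lit 281474976712704)
 (.ev (nat_lit 708) (nat_lit 70368744177664) (.ev (nat_lit 896) (nat_lit 27021872642129920) (.ev (nat_lit 1028)
 (nat_lit 4400193994752) (.ev (nat_lit 1037) (nat_lit 4611686018427387904) .dd)))))) (.ch (nat_lit 17) (.ev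
 (nat_lit 656) (nat_lit 27378116557015040) (.ev (nat_lit 669) (nat_lit 4611686018427387904) .dd)))))) (.br
 (nat_lit 30) (.br (nat_lit 29) (.ch (nat_lit 26) (.ev (nat_lit 656) (nat_lit 4638782660007692288) (.ev
 (nat_lit 669) (nat_lit 281474976710656) .dd))) (.ch (nat_lit 29) (.ev (nat_lit 656) (nat_lit
 4629981891913582592) (.ev (nat_lit 708) (nat_lit 274877906944) (.ev (nat_lit 736) (nat_lit 9007199254740992)
 (.ev (nat_lit 960) (nat_lit 70368744177664) (.fin (nat_lit 576478894304477748)))))))) (.br (nat_lit 31) (.ch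
 (nat_lit 30) (.ev (nat_lit 656) (nat_lit 4639064134984400896) (.ev (nat_lit 669) (nat_lit 2048) .dd))) (.br
 (nat_lit 40) (.ch (nat_lit 31) (.ev (nat_lit 656) (nat_lit 27378114409531392) (.ev (nat_lit 708) (nat_lit
 2147483648) (.ev (nat_lit 717) (nat_lit 4611686018427387904) .dd)))) (.ch (nat_lit 40) (.ev (nat_lit 656)
 (nat_lit 4639064134984400896) (.ev (nat_lit 669) (nat_lit 2048) .dd))))))))))))) (.ch (nat_lit 48) (.ev
 (nat_lit 52) (nat_lit 2555542056730626) (.ev (nat_lit 84) (nat_lit 4899916394579099648) (.ev (nat_lit 212)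
 (nat_lit 18014398509481984) (.ev (nat_lit 244) (nat_lit 8796093022208) (.nd (nat_lit 640) (.br (nat_lit 18)
 (.br (nat_lit 11) (.br (nat_lit 3) (.ch (nat_lit 2) (.ev (nat_lit 656) (nat_lit 45036065060292608) (.ev
 (nat_lit 708) (nat_lit 70368744177664) (.ev (nat_lit 1028) (nat_lit 524288) (.ev (nat_lit 1037) (nat_lit 256)
 .dd))))) (.br (nat_lit 4) (.ch (nat_lit 3) (.ev (nat_lit 656) (nat_lit 45036064993708288) (.ev (nat_lit 768)
 (nat_lit 70368744177664) (.ev (nat_lit 781) (nat_lit 67108864) .dd)))) (.ch (nat_lit 4) (.ev (nat_lit 656)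
 (nat_lit 45106365085518080) (.ev (nat_lit 669) (nat_lit 68719476736) .dd))))) (.br (nat_lit 14) (.ch (nat_lit
 11) (.ev (nat_lit 656) (nat_lit 9007268041853184) (.ev (nat_lit 708) (nat_lit 36028797018963968) (.ev (nat_lit
 717) (nat_lit 70368744177664) .dd)))) (.br (nat_lit 17) (.ch (nat_lit 14) (.ev (nat_lit 656) (nat_lit
 36099234549729536) (.ev (nat_lit 708) (nat_lit 524288) (.ev (nat_lit 717) (nat_lit 9007199254740992) .dd))))
 (.ch (nat_lit 17) (.ev (nat_lit 656) (nat_lit 36099165830252800) (.ev (nat_lit 736) (nat_lit 9007199254740992)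
 (.fin (nat_lit 576474496213926468)))))))) (.br (nat_lit 26) (.br (nat_lit 19) (.ch (nat_lit 18) (.ev (nat_lit
 656) (nat_lit 9077636785506560) (.ev (nat_lit 752) (nat_lit 36028797018963968) (.ev (nat_lit 765) (nat_lit
 524288) .dd)))) (.br (nat_lit 21) (.ch (nat_lit 19) (.ev (nat_lit 656) (nat_lit 36099234550253824) (.ev
 (nat_lit 669) (nat_lit 9007199254740992) .dd))) (.ch (nat_lit 21) (.ev (nat_lit 656) (nat_lit
 45036064993706240) (.ev (nat_lit 708) (nat_lit 67108864) (.ev (nat_lit 720) (nat_lit 70368744177664) (.ev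
 (nat_lit 733) (nat_lit 2048) .dd))))))) (.br (nat_lit 30) (.br (nat_lit 29) (.ch (nat_lit 26) (.ev (nat_lit
 656) (nat_lit 45106433737883648) (.ev (nat_lit 708) (nat_lit 67108864) (.ev (nat_lit 960) (nat_lit 2048) (.ev
 (nat_lit 973) (nat_lit 256) .dd))))) (.ch (nat_lit 29) (.ev (nat_lit 656) (nat_lit 45106433737885952) (.ev
 (nat_lit 669) (nat_lit 67108864) .dd)))) (.br (nat_lit 40) (.ch (nat_lit 30) (.ev (nat_lit 656) (nat_lit
 9077636786028800) (.ev (nat_lit 708) (nat_lit 36028797018963968) (.ev (nat_lit 717) (nat_lit 2048) .dd))))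
 (.ch (nat_lit 40) (.ev (nat_lit 656) (nat_lit 36099234549729280) (.ev (nat_lit 672) (nat_lit 524288) (.ev
 (nat_lit 688) (nat_lit 256) (.ev (nat_lit 701) (nat_lit 9007199254740992) .dd)))))))))))))))) (.br (nat_lit
 50) (.ch (nat_lit 49) (.ev (nat_lit 52) (nat_lit 4648022747489241088) (.ev (nat_lit 116) (nat_lit 2147483648)
 (.ev (nat_lit 128) (nat_lit 317578815406604546) .dd)))) (.br (nat_lit 52) (.ch (nat_lit 50) (.ev (nat_lit 52)
 (nat_lit 306244845536542720) (.ev (nat_lit 84) (nat_lit 4647719213492863232) (.ev (nat_lit 116) (nat_lit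
 9007199254740992) (.ev (nat_lit 148) (nat_lit 2251799813685248) (.ev (nat_lit 180) (nat_lit 8796160131072)
 (.ev (nat_lit 244) (nat_lit 2) (.nd (nat_lit 640) (.br (nat_lit 19) (.br (nat_lit 11) (.br (nat_lit 4) (.ch
 (nat_lit 2) (.ev (nat_lit 656) (nat_lit 281749854619648) (.ev (nat_lit 752) (nat_lit 17592186044416) (.ev
 (nat_lit 800) (nat_lit 524288) (.ev (nat_lit 813) (nat_lit 70368744177664) .dd))))) (.br (nat_lit 7) (.ch
 (nat_lit 4) (.ev (nat_lit 656) (nat_lit 369710785366016) .dd)) (.ch (nat_lit 7) (.ev (nat_lit 656) (nat_lit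
 352118599319552) (.fin (nat_lit 576456903904149988)))))) (.br (nat_lit 14) (.ch (nat_lit 11) (.ev (nat_lit
 656) (nat_lit 369710785366016) .dd)) (.br (nat_lit 17) (.ch (nat_lit 14) (.ev (nat_lit 656) (nat_lit
 299342040664064) (.ev (nat_lit 672) (nat_lit 70368744177664) (.ev (nat_lit 685) (nat_lit 524288) .dd)))) (.ch
 (nat_lit 17) (.ev (nat_lit 656) (nat_lit 369710785366016) .dd))))) (.br (nat_lit 28) (.br (nat_lit 20) (.ch
 (nat_lit 19) (.ev (nat_lit 656) (nat_lit 369435906934784) (.ev (nat_lit 752) (nat_lit 274877906944) (.ev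
 (nat_lit 765) (nat_lit 524288) .dd)))) (.br (nat_lit 26) (.ch (nat_lit 20) (.ev (nat_lit 656) (nat_lit
 352118599321600) (.ev (nat_lit 669) (nat_lit 17592186044416) .dd))) (.ch (nat_lit 26) (.ev (nat_lit 656)
 (nat_lit 369710785363968) (.ev (nat_lit 669) (nat_lit 2048) .dd))))) (.br (nat_lit 30) (.ch (nat_lit 28) (.ev
 (nat_lit 656) (nat_lit 369710785366016) .dd)) (.br (nat_lit 31) (.ch (nat_lit 30) (.ev (nat_lit 656) (nat_lit
 369710784841728) (.ev (nat_lit 669) (nat_lit 524288) .dd))) (.ch (nat_lit 31) (.ev (nat_lit 656) (nat_lit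
 88235808655360) (.ev (nat_lit 669) (nat_lit 281474976710656) .dd))))))))))))))) (.ch (nat_lit 52) (.ev
 (nat_lit 52) (nat_lit 11549270213656834) (.ev (nat_lit 84) (nat_lit 288300813615890432) (.ev (nat_lit 116)
 (nat_lit 4629700416936869888) (.ev (nat_lit 148) (nat_lit 274877906944) (.ev (nat_lit 512) (nat_lit
 17592186044416) (.nd (nat_lit 640) (.br (nat_lit 27) (.br (nat_lit 6) (.br (nat_lit 5) (.ch (nat_lit 3) (.ev
 (nat_lit 656) (nat_lit 36028797018966016) (.ev (nat_lit 708) (nat_lit 2147483648) (.ev (nat_lit 717) (nat_lit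
 4398046511104) .dd)))) (.ch (nat_lit 5) (.ev (nat_lit 656) (nat_lit 36028797018963968) (.ev (nat_lit 720)
 (nat_lit 2147483648) (.ev (nat_lit 976) (nat_lit 2048) (.ev (nat_lit 989) (nat_lit 4398046511104) .dd))))))
 (.br (nat_lit 13) (.ch (nat_lit 6) (.ev (nat_lit 656) (nat_lit 36033197212960768) .dd)) (.br (nat_lit 14) (.ch
 (nat_lit 13) (.ev (nat_lit 656) (nat_lit 36033197212960768) .dd)) (.ch (nat_lit 14) (.ev (nat_lit 656)
 (nat_lit 4400193996800) (.ev (nat_lit 669) (nat_lit 36028797018963968) .dd)))))) (.br (nat_lit 34) (.br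
 (nat_lit 31) (.ch (nat_lit 27) (.ev (nat_lit 656) (nat_lit 4398046511104) (.ev (nat_lit 720) (nat_lit
 36028797018963968) (.ev (nat_lit 736) (nat_lit 2048) (.ev (nat_lit 749) (nat_lit 2147483648) .dd))))) (.ch
 (nat_lit 31) (.ev (nat_lit 656) (nat_lit 36028799166449664) (.ev (nat_lit 669) (nat_lit 4398046511104) .dd))))
 (.br (nat_lit 38) (.ch (nat_lit 34) (.ev (nat_lit 656) (nat_lit 36033197212960768) .dd)) (.br (nat_lit 40)
 (.ch (nat_lit 38) (.ev (nat_lit 656) (nat_lit 2147485696) (.ev (nat_lit 708) (nat_lit 36028797018963968) (.ev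
 (nat_lit 717) (nat_lit 4398046511104) .dd)))) (.ch (nat_lit 40) (.ev (nat_lit 656) (nat_lit 36028799166449664)
 (.ev (nat_lit 669) (nat_lit 4398046511104) .dd))))))))))))))))))))))

/-- Subtrie. -/
noncomputable def T4 : Tr := (.ev (nat_lit 20) (nat_lit 1180943209712455618584) (.nd (nat_lit 33) (.br (nat_lit
 31) (.br (nat_lit 16) (.br (nat_lit 10) (.br (nat_lit 6) (.br (nat_lit 5) (.ch (nat_lit 4) (.ev (nat_lit 52)
 (nat_lit 922483646001187913888) (.ev (nat_lit 84) (nat_lit 16777216) (.ev (nat_lit 128) (nat_lit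
 170634212269166168322) .dd)))) (.ch (nat_lit 5) (.ev (nat_lit 52) (nat_lit 645780725676420104322) (.ev
 (nat_lit 84) (nat_lit 4611686018427387904) (.ev (nat_lit 116) (nat_lit 2304) (.ev (nat_lit 148) (nat_lit
 536870912) (.ev (nat_lit 180) (nat_lit 147573952589680607232) (.ev (nat_lit 224) (nat_lit
 295151493985305886752) .dd)))))))) (.br (nat_lit 9) (.ch (nat_lit 6) (.ev (nat_lit 52) (nat_lit
 756460627169244088322) (.ev (nat_lit 84) (nat_lit 2251799813685248) (.ev (nat_lit 148) (nat_lit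
 4611826755932520704) (.ev (nat_lit 212) (nat_lit 562949957615616) (.nd (nat_lit 640) (.br (nat_lit 20) (.br
 (nat_lit 10) (.br (nat_lit 2) (.ch (nat_lit 1) (.ev (nat_lit 656) (nat_lit 332042589595422949536) .dd)) (.br
 (nat_lit 8) (.ch (nat_lit 2) (.ev (nat_lit 656) (nat_lit 332041463695516106912) (.ev (nat_lit 669) (nat_lit
 1125899906842624) .dd))) (.ch (nat_lit 8) (.ev (nat_lit 656) (nat_lit 295149031079259668640) (.ev (nat_lit
 720) (nat_lit 36893488147419103232) (.ev (nat_lit 733) (nat_lit 70368744177664) .dd)))))) (.br (nat_lit 14)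
 (.ch (nat_lit 10) (.ev (nat_lit 656) (nat_lit 295147975548097003648) (.ev (nat_lit 708) (nat_lit
 1125899906842624) (.ev (nat_lit 736) (nat_lit 32) (.ev (nat_lit 749) (nat_lit 36893488147419103232) .dd)))))
 (.br (nat_lit 18) (.ch (nat_lit 14) (.ev (nat_lit 656) (nat_lit 332041463695516106752) (.ev (nat_lit 720)
 (nat_lit 32) (.ev (nat_lit 1028) (nat_lit 1125899906842624) (.ev (nat_lit 1037) (nat_lit 128) .dd))))) (.ch
 (nat_lit 18) (.ev (nat_lit 656) (nat_lit 36894684416070123680) (.ev (nat_lit 669) (nat_lit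
 295147905179352825856) .dd)))))) (.br (nat_lit 29) (.br (nat_lit 22) (.ch (nat_lit 20) (.ev (nat_lit 656)
 (nat_lit 332042589595422949536) .dd)) (.br (nat_lit 28) (.ch (nat_lit 22) (.ev (nat_lit 656) (nat_lit
 332042589595422949504) (.ev (nat_lit 669) (nat_lit 32) .dd))) (.ch (nat_lit 28) (.ev (nat_lit 656) (nat_lit
 295149101448003846176) (.ev (nat_lit 708) (nat_lit 36893488147419103232) (.ev (nat_lit 717) (nat_lit 128)
 .dd)))))) (.br (nat_lit 32) (.br (nat_lit 31) (.ch (nat_lit 29) (.ev (nat_lit 656) (nat_lit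
 295149031079259668512) (.ev (nat_lit 672) (nat_lit 128) (.ev (nat_lit 720) (nat_lit 70368744177664) (.ev
 (nat_lit 733) (nat_lit 36893488147419103232) .dd))))) (.ch (nat_lit 31) (.ev (nat_lit 656) (nat_lit
 36894614047325945888) (.ev (nat_lit 784) (nat_lit 70368744177664) (.fin (nat_lit 576456904011104812)))))) (.br
 (nat_lit 41) (.ch (nat_lit 32) (.ev (nat_lit 656) (nat_lit 332042519226678771712) (.ev (nat_lit 720) (nat_lit
 70368744177664) (.ev (nat_lit 1028) (nat_lit 32) (.ev (nat_lit 1037) (nat_lit 128) .dd))))) (.ch (nat_lit 41)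
 (.ev (nat_lit 656) (nat_lit 332041463695516106912) (.ev (nat_lit 669) (nat_lit 1125899906842624)
 .dd))))))))))))) (.ch (nat_lit 9) (.ev (nat_lit 52) (nat_lit 4757631345776132096) (.ev (nat_lit 84) (nat_lit
 74766790690816) (.ev (nat_lit 116) (nat_lit 8589934592) (.ev (nat_lit 148) (nat_lit 18446744073709551616) (.ev
 (nat_lit 212) (nat_lit 36893488147419103232) (.ev (nat_lit 308) (nat_lit 2) (.nd (nat_lit 640) (.br (nat_lit
 20) (.br (nat_lit 10) (.br (nat_lit 4) (.ch (nat_lit 1) (.ev (nat_lit 656) (nat_lit 1033019919928085446816)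
 (.ev (nat_lit 669) (nat_lit 256) .dd))) (.br (nat_lit 5) (.ch (nat_lit 4) (.ev (nat_lit 656) (nat_lit
 1033019919927548576160) (.ev (nat_lit 669) (nat_lit 536870912) .dd))) (.ch (nat_lit 5) (.ev (nat_lit 656)
 (nat_lit 1033017668128271761792) (.ev (nat_lit 708) (nat_lit 2251799813685248) (.ev (nat_lit 717) (nat_lit 32)
 .dd)))))) (.br (nat_lit 15) (.ch (nat_lit 10) (.ev (nat_lit 656) (nat_lit 1033019919928085447072) .dd)) (.br
 (nat_lit 18) (.ch (nat_lit 15) (.ev (nat_lit 656) (nat_lit 885445967337872163200) (.ev (nat_lit 708) (nat_lit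
 147573952590213283840) (.ev (nat_lit 717) (nat_lit 32) .dd)))) (.ch (nat_lit 18) (.ev (nat_lit 656) (nat_lit
 1033019919928085447072) .dd))))) (.br (nat_lit 36) (.br (nat_lit 22) (.ch (nat_lit 20) (.ev (nat_lit 656)
 (nat_lit 442724109568842924192) (.ev (nat_lit 720) (nat_lit 590295810358705651712) (.ev (nat_lit 960) (nat_lit
 536870912) (.ev (nat_lit 973) (nat_lit 256) .dd))))) (.br (nat_lit 31) (.ch (nat_lit 22) (.ev (nat_lit 656)
 (nat_lit 1033019919928085447072) .dd)) (.ch (nat_lit 31) (.ev (nat_lit 656) (nat_lit 737872014748732621088)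
 (.fin (nat_lit 576456904011104812)))))) (.br (nat_lit 39) (.ch (nat_lit 36) (.ev (nat_lit 656) (nat_lit
 885445967338409033888) (.ev (nat_lit 708) (nat_lit 256) (.ev (nat_lit 717) (nat_lit 147573952589676412928)
 .dd)))) (.br (nat_lit 41) (.ch (nat_lit 39) (.ev (nat_lit 656) (nat_lit 737869762948918935968) (.ev (nat_lit
 672) (nat_lit 2251799813685248) (.ev (nat_lit 685) (nat_lit 295147905179352825856) .dd)))) (.ch (nat_lit 41)
 (.ev (nat_lit 656) (nat_lit 1033019919928085447072) .dd)))))))))))))))) (.br (nat_lit 12) (.br (nat_lit 11)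
 (.ch (nat_lit 10) (.ev (nat_lit 52) (nat_lit 318209225337820152224) (.ev (nat_lit 84) (nat_lit 8589934592)
 (.ev (nat_lit 128) (nat_lit 774908632923960772610) .dd)))) (.ch (nat_lit 11) (.ev (nat_lit 52) (nat_lit
 1070056049917462317186) (.ev (nat_lit 84) (nat_lit 16777248) (.ev (nat_lit 128) (nat_lit 23061808352891764992)
 .dd))))) (.br (nat_lit 15) (.ch (nat_lit 12) (.ev (nat_lit 52) (nat_lit 170636534446309769474) (.ev (nat_lit
 96) (nat_lit 922481323824061089952) .dd))) (.ch (nat_lit 15) (.ev (nat_lit 52) (nat_lit 299761280048181545344)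
 (.ev (nat_lit 84) (nat_lit 18446744073709551616) (.ev (nat_lit 116) (nat_lit 36893558524753215488) (.ev
 (nat_lit 148) (nat_lit 147574098277131354144) (.nd (nat_lit 640) (.br (nat_lit 24) (.br (nat_lit 15) (.br
 (nat_lit 5) (.ch (nat_lit 2) (.ev (nat_lit 656) (nat_lit 590442177346595192832) (.ev (nat_lit 669) (nat_lit 2)
 .dd))) (.br (nat_lit 7) (.ch (nat_lit 5) (.ev (nat_lit 656) (nat_lit 590442177346595192834) .dd)) (.ch
 (nat_lit 7) (.ev (nat_lit 656) (nat_lit 146366987889541122) (.ev (nat_lit 669) (nat_lit 590295810358705651712)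
 .dd))))) (.br (nat_lit 16) (.ch (nat_lit 15) (.ev (nat_lit 656) (nat_lit 590442177346595192834) .dd)) (.br
 (nat_lit 22) (.ch (nat_lit 16) (.ev (nat_lit 656) (nat_lit 146366987889541122) (.ev (nat_lit 669) (nat_lit
 590295810358705651712) .dd))) (.ch (nat_lit 22) (.ev (nat_lit 656) (nat_lit 590442177346595192832) (.ev
 (nat_lit 669) (nat_lit 2) .dd)))))) (.br (nat_lit 32) (.br (nat_lit 26) (.ch (nat_lit 24) (.ev (nat_lit 656)
 (nat_lit 146366987889541122) (.ev (nat_lit 669) (nat_lit 590295810358705651712) .dd))) (.br (nat_lit 31) (.ch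
 (nat_lit 26) (.ev (nat_lit 656) (nat_lit 590298062158519336962) (.ev (nat_lit 669) (nat_lit
 144115188075855872) .dd))) (.ch (nat_lit 31) (.ev (nat_lit 656) (nat_lit 590442177346595192834) .dd)))) (.br
 (nat_lit 33) (.ch (nat_lit 32) (.ev (nat_lit 656) (nat_lit 590442177346595192834) .dd)) (.br (nat_lit 41) (.ch
 (nat_lit 33) (.ev (nat_lit 656) (nat_lit 590295810358705651712) (.ev (nat_lit 708) (nat_lit
 144115188075855872) (.ev (nat_lit 752) (nat_lit 2251799813685248) (.ev (nat_lit 765) (nat_lit 2) .dd))))) (.ch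
 (nat_lit 41) (.ev (nat_lit 656) (nat_lit 590442177346595192834) .dd))))))))))))))) (.br (nat_lit 22) (.br
 (nat_lit 18) (.br (nat_lit 17) (.ch (nat_lit 16) (.ev (nat_lit 52) (nat_lit 55487799877879990272) (.ev
 (nat_lit 84) (nat_lit 4194336) (.ev (nat_lit 116) (nat_lit 128) (.ev (nat_lit 244) (nat_lit 536870912) (.ev
 (nat_lit 372) (nat_lit 140737488355328) (.nd (nat_lit 640) (.br (nat_lit 24) (.br (nat_lit 14) (.br (nat_lit
 8) (.ch (nat_lit 7) (.ev (nat_lit 656) (nat_lit 890055965064785035266) (.ev (nat_lit 708) (nat_lit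
 147573952589676412928) (.ev (nat_lit 717) (nat_lit 256) .dd)))) (.ch (nat_lit 8) (.ev (nat_lit 656) (nat_lit
 890055401556485865728) (.ev (nat_lit 708) (nat_lit 8589934592) (.ev (nat_lit 736) (nat_lit 2) (.ev (nat_lit
 960) (nat_lit 549755813888) (.fin (nat_lit 576412923585839648)))))))) (.br (nat_lit 16) (.ch (nat_lit 14) (.ev
 (nat_lit 656) (nat_lit 1037629917654461448194) (.ev (nat_lit 669) (nat_lit 256) .dd))) (.br (nat_lit 20) (.ch
 (nat_lit 16) (.ev (nat_lit 656) (nat_lit 1037629917654461448450) .dd)) (.ch (nat_lit 20) (.ev (nat_lit 656)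
 (nat_lit 447334107295755796482) (.ev (nat_lit 708) (nat_lit 590295810358705651712) (.ev (nat_lit 717) (nat_lit
 256) .dd))))))) (.br (nat_lit 31) (.br (nat_lit 29) (.ch (nat_lit 24) (.ev (nat_lit 656) (nat_lit
 447334107295755796738) (.ev (nat_lit 669) (nat_lit 590295810358705651712) .dd))) (.ch (nat_lit 29) (.ev
 (nat_lit 656) (nat_lit 447334107295755796738) (.ev (nat_lit 669) (nat_lit 590295810358705651712) .dd)))) (.br
 (nat_lit 36) (.ch (nat_lit 31) (.ev (nat_lit 656) (nat_lit 1033018231636034060546) (.ev (nat_lit 669) (nat_lit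
 4611686018427387904) .dd))) (.br (nat_lit 41) (.ch (nat_lit 36) (.ev (nat_lit 656) (nat_lit
 594907496377133039616) (.ev (nat_lit 708) (nat_lit 549755813888) (.ev (nat_lit 896) (nat_lit
 295147905187942760450) (.ev (nat_lit 1028) (nat_lit 562949953421568) (.ev (nat_lit 1037) (nat_lit
 147573952589676412928) .dd)))))) (.ch (nat_lit 41) (.ev (nat_lit 656) (nat_lit 1037629354704508026882) (.ev
 (nat_lit 708) (nat_lit 562949953421312) (.ev (nat_lit 717) (nat_lit 256) .dd))))))))))))))) (.ch (nat_lit 17)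
 (.ev (nat_lit 52) (nat_lit 189080323024173924386) (.ev (nat_lit 84) (nat_lit 590295810358722428928) (.ev
 (nat_lit 116) (nat_lit 2251799813685248) (.ev (nat_lit 148) (nat_lit 128) (.ev (nat_lit 180) (nat_lit
 563499709235200) (.ev (nat_lit 416) (nat_lit 295147905179352825856) (.nd (nat_lit 640) (.br (nat_lit 31) (.br
 (nat_lit 18) (.br (nat_lit 4) (.ch (nat_lit 2) (.ev (nat_lit 656) (nat_lit 18446748480887064832) (.ev (nat_lit
 708) (nat_lit 140737488355328) (.ev (nat_lit 720) (nat_lit 144115190223339520) .dd)))) (.br (nat_lit 11) (.ch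
 (nat_lit 4) (.ev (nat_lit 656) (nat_lit 18591004406451276032) (.ev (nat_lit 669) (nat_lit 2147483648) .dd)))
 (.ch (nat_lit 11) (.ev (nat_lit 656) (nat_lit 144260334889207808) (.ev (nat_lit 688) (nat_lit
 18446744073709551616) (.ev (nat_lit 701) (nat_lit 256) .dd)))))) (.br (nat_lit 20) (.ch (nat_lit 18) (.ev
 (nat_lit 656) (nat_lit 18446889211932969216) (.ev (nat_lit 708) (nat_lit 8589934592) (.ev (nat_lit 717)
 (nat_lit 144115188075855872) .dd)))) (.br (nat_lit 22) (.ch (nat_lit 20) (.ev (nat_lit 656) (nat_lit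
 18590863671110402048) (.ev (nat_lit 672) (nat_lit 2048) (.ev (nat_lit 708) (nat_lit 256) (.ev (nat_lit 717)
 (nat_lit 140737488355328) .dd))))) (.ch (nat_lit 22) (.ev (nat_lit 656) (nat_lit 18591004406447079680) (.ev
 (nat_lit 708) (nat_lit 4194304) (.ev (nat_lit 768) (nat_lit 2147483648) (.ev (nat_lit 781) (nat_lit 2048)
 .dd)))))))) (.br (nat_lit 36) (.br (nat_lit 32) (.ch (nat_lit 31) (.ev (nat_lit 656) (nat_lit
 18446748482497675520) (.ev (nat_lit 672) (nat_lit 536870912) (.ev (nat_lit 720) (nat_lit 2048) (.ev (nat_lit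
 912) (nat_lit 144115188075855872) (.ev (nat_lit 925) (nat_lit 140737488355328) .dd)))))) (.br (nat_lit 33)
 (.ch (nat_lit 32) (.ev (nat_lit 656) (nat_lit 18591000001962313728) (.ev (nat_lit 688) (nat_lit 4398046511104)
 (.ev (nat_lit 708) (nat_lit 8589934592) (.ev (nat_lit 717) (nat_lit 256) .dd))))) (.ch (nat_lit 33) (.ev
 (nat_lit 656) (nat_lit 18591004408598759680) .dd)))) (.br (nat_lit 39) (.br (nat_lit 38) (.ch (nat_lit 36)
 (.ev (nat_lit 656) (nat_lit 18590859272522828032) (.ev (nat_lit 800) (nat_lit 4194304) (.ev (nat_lit 864)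
 (nat_lit 536870912) (.ev (nat_lit 960) (nat_lit 4398046511104) (.ev (nat_lit 973) (nat_lit 140737488355328)
 .dd)))))) (.ch (nat_lit 38) (.ev (nat_lit 656) (nat_lit 18446889217834352896) (.ev (nat_lit 708) (nat_lit
 4194304) (.ev (nat_lit 752) (nat_lit 536870912) (.ev (nat_lit 768) (nat_lit 144115188075855872) (.ev (nat_lit
 816) (nat_lit 2147483648) (.ev (nat_lit 829) (nat_lit 2048) .dd)))))))) (.br (nat_lit 41) (.ch (nat_lit 39)
 (.ev (nat_lit 656) (nat_lit 144260326295079168) (.ev (nat_lit 708) (nat_lit 8589934592) (.ev (nat_lit 736)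
 (nat_lit 18446744073709551616) (.ev (nat_lit 749) (nat_lit 4194304) .dd))))) (.ch (nat_lit 41) (.ev (nat_lit
 656) (nat_lit 18591000010015377408) (.ev (nat_lit 720) (nat_lit 4398046511360) (.ev (nat_lit 733) (nat_lit
 536870912) .dd))))))))))))))))) (.br (nat_lit 21) (.ch (nat_lit 18) (.ev (nat_lit 52) (nat_lit
 631800988925283010944) (.ev (nat_lit 84) (nat_lit 2251799830462464) (.ev (nat_lit 116) (nat_lit
 144115188075855872) (.ev (nat_lit 148) (nat_lit 70377334112256) (.ev (nat_lit 180) (nat_lit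
 147574515539629834240) (.ev (nat_lit 244) (nat_lit 295147905179352825856) (.ev (nat_lit 276) (nat_lit 4194304)
 (.ev (nat_lit 384) (nat_lit 1125899906842624) (.ev (nat_lit 630) (nat_lit 549755813888) (.nd (nat_lit 640)
 (.br (nat_lit 15) (.br (nat_lit 8) (.br (nat_lit 4) (.ch (nat_lit 1) (.ev (nat_lit 656) (nat_lit
 18446884811197906978) .dd)) (.br (nat_lit 5) (.ch (nat_lit 4) (.ev (nat_lit 656) (nat_lit
 18446884811197906944) (.ev (nat_lit 708) (nat_lit 2) (.ev (nat_lit 717) (nat_lit 32) .dd)))) (.ch (nat_lit 5)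
 (.ev (nat_lit 656) (nat_lit 18446744073709551618) (.ev (nat_lit 800) (nat_lit 140737488355328) (.ev (nat_lit
 813) (nat_lit 32) .dd)))))) (.br (nat_lit 11) (.ch (nat_lit 8) (.ev (nat_lit 656) (nat_lit
 18446884811197906978) .dd)) (.br (nat_lit 14) (.ch (nat_lit 11) (.ev (nat_lit 656) (nat_lit
 18446744073709551648) (.ev (nat_lit 708) (nat_lit 2) (.ev (nat_lit 717) (nat_lit 140737488355328) .dd)))) (.ch
 (nat_lit 14) (.ev (nat_lit 656) (nat_lit 18446884811197906946) (.ev (nat_lit 669) (nat_lit 32) .dd)))))) (.br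
 (nat_lit 33) (.br (nat_lit 20) (.ch (nat_lit 15) (.ev (nat_lit 656) (nat_lit 18446744073709551650) (.ev
 (nat_lit 669) (nat_lit 140737488355328) .dd))) (.br (nat_lit 24) (.ch (nat_lit 20) (.ev (nat_lit 656) (nat_lit
 18446884811197906978) .dd)) (.ch (nat_lit 24) (.ev (nat_lit 656) (nat_lit 18446884811197906978) .dd)))) (.br
 (nat_lit 38) (.br (nat_lit 36) (.ch (nat_lit 33) (.ev (nat_lit 656) (nat_lit 18446884811197906976) (.ev
 (nat_lit 669) (nat_lit 2) .dd))) (.ch (nat_lit 36) (.ev (nat_lit 656) (nat_lit 18446744073709551650) (.ev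
 (nat_lit 669) (nat_lit 140737488355328) .dd)))) (.br (nat_lit 41) (.ch (nat_lit 38) (.ev (nat_lit 656)
 (nat_lit 140737488355362) (.ev (nat_lit 669) (nat_lit 18446744073709551616) .dd))) (.ch (nat_lit 41) (.ev
 (nat_lit 656) (nat_lit 18446884811197906978) .dd))))))))))))))))) (.ch (nat_lit 21) (.ev (nat_lit 52) (nat_lit
 885591419534234878240) (.ev (nat_lit 64) (nat_lit 207526438736135981186) .dd))))) (.br (nat_lit 26) (.br
 (nat_lit 24) (.ch (nat_lit 22) (.ev (nat_lit 52) (nat_lit 890201914230202958080) (.ev (nat_lit 84) (nat_lit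
 1125902071103520) (.ev (nat_lit 116) (nat_lit 128) (.ev (nat_lit 148) (nat_lit 18446744082299486208) (.ev
 (nat_lit 180) (nat_lit 2) (.ev (nat_lit 212) (nat_lit 36893488147423297536) (.ev (nat_lit 244) (nat_lit 2048)
 (.nd (nat_lit 640) (.br (nat_lit 22) (.br (nat_lit 8) (.br (nat_lit 2) (.ch (nat_lit 1) (.ev (nat_lit 656)
 (nat_lit 633318697598976) (.ev (nat_lit 669) (nat_lit 147573952589676412928) .dd))) (.br (nat_lit 4) (.ch
 (nat_lit 2) (.ev (nat_lit 656) (nat_lit 147574515539629834240) (.ev (nat_lit 669) (nat_lit 70368744177664)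
 .dd))) (.ch (nat_lit 4) (.ev (nat_lit 656) (nat_lit 147574585908374011904) .dd)))) (.br (nat_lit 11) (.ch
 (nat_lit 8) (.ev (nat_lit 656) (nat_lit 70368744177664) (.fin (nat_lit 576412923585839648)))) (.br (nat_lit
 14) (.ch (nat_lit 11) (.ev (nat_lit 656) (nat_lit 147574585908374011904) .dd)) (.ch (nat_lit 14) (.ev (nat_lit
 656) (nat_lit 147574022958420590592) (.ev (nat_lit 669) (nat_lit 562949953421312) .dd)))))) (.br (nat_lit 31)
 (.br (nat_lit 24) (.ch (nat_lit 22) (.ev (nat_lit 944) (nat_lit 70368744177664) (.ev (nat_lit 976) (nat_lit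
 562949953421312) (.ev (nat_lit 989) (nat_lit 147573952589676412928) .dd)))) (.br (nat_lit 26) (.ch (nat_lit
 24) (.ev (nat_lit 656) (nat_lit 147574585908374011904) .dd)) (.ch (nat_lit 26) (.ev (nat_lit 656) (nat_lit
 147574585908374011904) .dd)))) (.br (nat_lit 32) (.ch (nat_lit 31) (.ev (nat_lit 656) (nat_lit
 147574515539629834240) (.ev (nat_lit 669) (nat_lit 70368744177664) .dd))) (.br (nat_lit 36) (.ch (nat_lit 32)
 (.ev (nat_lit 656) (nat_lit 147574585908374011904) .dd)) (.ch (nat_lit 36) (.ev (nat_lit 656) (nat_lit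
 147574022958420590592) (.ev (nat_lit 669) (nat_lit 562949953421312) .dd)))))))))))))))) (.ch (nat_lit 24) (.ev
 (nat_lit 52) (nat_lit 350633031601676617986) (.ev (nat_lit 84) (nat_lit 2147483648) (.ev (nat_lit 148)
 (nat_lit 590295810358705651712) (.ev (nat_lit 192) (nat_lit 152189016307841106080) .dd)))))) (.br (nat_lit 28)
 (.ch (nat_lit 26) (.ev (nat_lit 52) (nat_lit 926950015612938617120) (.ev (nat_lit 64) (nat_lit
 166167842657432242306) .dd))) (.br (nat_lit 29) (.ch (nat_lit 28) (.ev (nat_lit 52) (nat_lit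
 737870325907462293792) (.ev (nat_lit 84) (nat_lit 2147483648) (.ev (nat_lit 116) (nat_lit
 295147905179369603200) (.ev (nat_lit 180) (nat_lit 549755813888) (.ev (nat_lit 212) (nat_lit
 18446744073709551616) (.ev (nat_lit 244) (nat_lit 140737488355328) (.ev (nat_lit 464) (nat_lit 4398046511104)
 (.nd (nat_lit 640) (.br (nat_lit 22) (.br (nat_lit 8) (.br (nat_lit 4) (.ch (nat_lit 2) (.ev (nat_lit 656)
 (nat_lit 41652737422391246850) .dd)) (.br (nat_lit 7) (.ch (nat_lit 4) (.ev (nat_lit 656) (nat_lit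
 41506370434501705728) (.ev (nat_lit 708) (nat_lit 144115188075855872) (.fin (nat_lit 576544864834372168)))))
 (.ch (nat_lit 7) (.ev (nat_lit 656) (nat_lit 41652737422387052546) (.ev (nat_lit 669) (nat_lit 4194304)
 .dd))))) (.br (nat_lit 16) (.ch (nat_lit 8) (.ev (nat_lit 656) (nat_lit 4614008186989445120) (.ev (nat_lit
 672) (nat_lit 36893488147419103232) (.ev (nat_lit 708) (nat_lit 1125899906842624) (.ev (nat_lit 1028) (nat_lit
 2) (.ev (nat_lit 1037) (nat_lit 144115188075855872) .dd)))))) (.br (nat_lit 18) (.ch (nat_lit 16) (.ev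
 (nat_lit 656) (nat_lit 41650415253833383938) (.ev (nat_lit 736) (nat_lit 70368744177664) (.ev (nat_lit 749)
 (nat_lit 2251799813685248) .dd)))) (.ch (nat_lit 18) (.ev (nat_lit 656) (nat_lit 41652737422387052546) (.ev
 (nat_lit 669) (nat_lit 4194304) .dd)))))) (.br (nat_lit 29) (.br (nat_lit 24) (.ch (nat_lit 22) (.ev (nat_lit
 656) (nat_lit 41506370434501705728) (.ev (nat_lit 708) (nat_lit 146366987889541120) (.ev (nat_lit 717)
 (nat_lit 2) .dd)))) (.br (nat_lit 28) (.ch (nat_lit 24) (.ev (nat_lit 656) (nat_lit 37041051403959664642) (.ev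
 (nat_lit 708) (nat_lit 4611686018427387904) (.ev (nat_lit 717) (nat_lit 4194304) .dd)))) (.ch (nat_lit 28)
 (.ev (nat_lit 656) (nat_lit 41651611522484404224) (.ev (nat_lit 752) (nat_lit 2) (.ev (nat_lit 765) (nat_lit
 1125899906842624) .dd)))))) (.br (nat_lit 38) (.br (nat_lit 32) (.ch (nat_lit 29) (.ev (nat_lit 656) (nat_lit
 3448068468899842) (.ev (nat_lit 752) (nat_lit 144115188075855872) (.ev (nat_lit 896) (nat_lit
 36893488147419103232) (.ev (nat_lit 909) (nat_lit 4611686018427387904) .dd))))) (.ch (nat_lit 32) (.ev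
 (nat_lit 656) (nat_lit 41508551865571213312) (.ev (nat_lit 708) (nat_lit 144115188075855872) (.ev (nat_lit
 720) (nat_lit 70368744177664) (.ev (nat_lit 733) (nat_lit 2) .dd)))))) (.br (nat_lit 39) (.ch (nat_lit 38)
 (.ev (nat_lit 656) (nat_lit 41508622234311196672) (.ev (nat_lit 736) (nat_lit 4194304) (.ev (nat_lit 1028)
 (nat_lit 144115188075855872) (.ev (nat_lit 1037) (nat_lit 2) .dd))))) (.ch (nat_lit 39) (.ev (nat_lit 656)
 (nat_lit 41652737422387052546) (.ev (nat_lit 669) (nat_lit 4194304) .dd)))))))))))))))) (.ch (nat_lit 29) (.ev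
 (nat_lit 52) (nat_lit 908506090687042683040) (.ev (nat_lit 84) (nat_lit 147574022958420590592) (.ev (nat_lit
 116) (nat_lit 2147483648) (.ev (nat_lit 160) (nat_lit 37037744622760102146) .dd)))))))))) (.br (nat_lit 42)
 (.br (nat_lit 38) (.br (nat_lit 36) (.br (nat_lit 33) (.ch (nat_lit 31) (.ev (nat_lit 52) (nat_lit
 645637380137881174272) (.ev (nat_lit 84) (nat_lit 16777216) (.ev (nat_lit 116) (nat_lit 147573952589676413056)
 (.ev (nat_lit 212) (nat_lit 4398046511104) (.ev (nat_lit 244) (nat_lit 562949953421312) (.nd (nat_lit 640)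
 (.br (nat_lit 16) (.br (nat_lit 7) (.br (nat_lit 4) (.ch (nat_lit 2) (.ev (nat_lit 656) (nat_lit
 299905958194796562466) .dd)) (.br (nat_lit 5) (.ch (nat_lit 4) (.ev (nat_lit 656) (nat_lit
 295292020376555489280) (.ev (nat_lit 768) (nat_lit 32) (.ev (nat_lit 912) (nat_lit 4611686018427387904) (.fin
 (nat_lit 576544864834372168)))))) (.ch (nat_lit 5) (.ev (nat_lit 656) (nat_lit 299903706394982877186) (.ev
 (nat_lit 708) (nat_lit 32) (.ev (nat_lit 717) (nat_lit 2251799813685248) .dd)))))) (.br (nat_lit 10) (.ch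
 (nat_lit 7) (.ev (nat_lit 656) (nat_lit 299905958186206625826) (.ev (nat_lit 708) (nat_lit 8589934592) (.ev
 (nat_lit 717) (nat_lit 2048) .dd)))) (.br (nat_lit 15) (.ch (nat_lit 10) (.ev (nat_lit 656) (nat_lit
 299905958194796562466) .dd)) (.ch (nat_lit 15) (.ev (nat_lit 656) (nat_lit 299905958194259691554) (.ev
 (nat_lit 669) (nat_lit 536870912) .dd)))))) (.br (nat_lit 33) (.br (nat_lit 20) (.ch (nat_lit 16) (.ev
 (nat_lit 656) (nat_lit 299905958186206627842) (.ev (nat_lit 1028) (nat_lit 32) (.ev (nat_lit 1037) (nat_lit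
 8589934592) .dd)))) (.br (nat_lit 32) (.ch (nat_lit 20) (.ev (nat_lit 656) (nat_lit 299905958194259689506)
 (.ev (nat_lit 708) (nat_lit 536870912) (.ev (nat_lit 717) (nat_lit 2048) .dd)))) (.ch (nat_lit 32) (.ev
 (nat_lit 656) (nat_lit 299761842998130771970) (.ev (nat_lit 1028) (nat_lit 144115188075855904) (.ev (nat_lit
 1037) (nat_lit 8589934592) .dd)))))) (.br (nat_lit 38) (.ch (nat_lit 33) (.ev (nat_lit 656) (nat_lit
 4613937827367880736) (.ev (nat_lit 708) (nat_lit 2) (.ev (nat_lit 848) (nat_lit 295147905179352825856) (.ev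
 (nat_lit 861) (nat_lit 144115188075855872) .dd))))) (.br (nat_lit 39) (.ch (nat_lit 38) (.ev (nat_lit 656)
 (nat_lit 299761843006720706594) (.ev (nat_lit 669) (nat_lit 144115188075855872) .dd))) (.ch (nat_lit 39) (.ev
 (nat_lit 656) (nat_lit 299905958194796562466) .dd))))))))))))) (.ch (nat_lit 33) (.ev (nat_lit 52) (nat_lit
 152185639166466328960) (.ev (nat_lit 84) (nat_lit 295150156981850865664) (.ev (nat_lit 116) (nat_lit
 70368744177664) (.ev (nat_lit 148) (nat_lit 18446884811197906944) (.ev (nat_lit 180) (nat_lit 2) (.ev (nat_lit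
 276) (nat_lit 36894051097372524544) (.nd (nat_lit 640) (.br (nat_lit 20) (.br (nat_lit 14) (.br (nat_lit 10)
 (.ch (nat_lit 5) (.ev (nat_lit 656) (nat_lit 590441055844739055616) (.ev (nat_lit 669) (nat_lit 32) .dd)))
 (.br (nat_lit 11) (.ch (nat_lit 10) (.ev (nat_lit 656) (nat_lit 590439925546785701888) (.ev (nat_lit 912)
 (nat_lit 1125899906842624) (.ev (nat_lit 976) (nat_lit 4398046511104) (.ev (nat_lit 989) (nat_lit 32) .dd)))))
 (.ch (nat_lit 11) (.ev (nat_lit 656) (nat_lit 590441051446692544544) (.ev (nat_lit 669) (nat_lit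
 4398046511104) .dd))))) (.br (nat_lit 15) (.ch (nat_lit 14) (.ev (nat_lit 656) (nat_lit 1130297953353760) (.ev
 (nat_lit 708) (nat_lit 590439925546781507584) (.ev (nat_lit 717) (nat_lit 4194304) .dd)))) (.br (nat_lit 18)
 (.ch (nat_lit 15) (.ev (nat_lit 656) (nat_lit 145245486033403936) (.ev (nat_lit 669) (nat_lit
 590295810358705651712) .dd))) (.ch (nat_lit 18) (.ev (nat_lit 656) (nat_lit 590439929944832213024) (.ev
 (nat_lit 669) (nat_lit 1125899906842624) .dd)))))) (.br (nat_lit 26) (.br (nat_lit 22) (.ch (nat_lit 20) (.ev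
 (nat_lit 656) (nat_lit 590441055844739055648) .dd)) (.br (nat_lit 24) (.ch (nat_lit 22) (.ev (nat_lit 656)
 (nat_lit 590441055844734861312) (.ev (nat_lit 672) (nat_lit 32) (.ev (nat_lit 685) (nat_lit 4194304) .dd))))
 (.ch (nat_lit 24) (.ev (nat_lit 656) (nat_lit 144119586122367008) (.ev (nat_lit 708) (nat_lit
 590295810358709846016) (.ev (nat_lit 717) (nat_lit 1125899906842624) .dd)))))) (.br (nat_lit 29) (.br (nat_lit
 28) (.ch (nat_lit 26) (.ev (nat_lit 656) (nat_lit 590296940656663199744) (.ev (nat_lit 784) (nat_lit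
 144115188075855872) (.ev (nat_lit 797) (nat_lit 32) .dd)))) (.ch (nat_lit 28) (.ev (nat_lit 656) (nat_lit
 590441055844734861312) (.ev (nat_lit 708) (nat_lit 4194304) (.ev (nat_lit 717) (nat_lit 32) .dd))))) (.br
 (nat_lit 33) (.ch (nat_lit 29) (.ev (nat_lit 656) (nat_lit 590441055844739055648) .dd)) (.ch (nat_lit 33) (.ev
 (nat_lit 656) (nat_lit 590296940656663199776) (.ev (nat_lit 669) (nat_lit 144115188075855872)
 .dd)))))))))))))))) (.br (nat_lit 37) (.ch (nat_lit 36) (.ev (nat_lit 52) (nat_lit 147718068336651667618) (.ev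
 (nat_lit 64) (nat_lit 945399789933719191808) .dd))) (.ch (nat_lit 37) (.ev (nat_lit 52) (nat_lit
 465783243898181650594) (.ev (nat_lit 116) (nat_lit 2164260864) (.ev (nat_lit 148) (nat_lit 74766790688768)
 (.ev (nat_lit 180) (nat_lit 36893488147955974144) (.ev (nat_lit 244) (nat_lit 590296936258612494592) (.nd
 (nat_lit 640) (.br (nat_lit 26) (.br (nat_lit 14) (.br (nat_lit 8) (.ch (nat_lit 2) (.ev (nat_lit 656)
 (nat_lit 144115188075855872) (.ev (nat_lit 669) (nat_lit 8589934592) .dd))) (.br (nat_lit 10) (.ch (nat_lit 8)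
 (.ev (nat_lit 656) (nat_lit 8589934592) (.ev (nat_lit 669) (nat_lit 144115188075855872) .dd))) (.ch (nat_lit
 10) (.ev (nat_lit 656) (nat_lit 144115188075855872) (.ev (nat_lit 669) (nat_lit 8589934592) .dd))))) (.br
 (nat_lit 22) (.ch (nat_lit 14) (.ev (nat_lit 656) (nat_lit 144115196665790464) .dd)) (.br (nat_lit 24) (.ch
 (nat_lit 22) (.ev (nat_lit 656) (nat_lit 8589934592) (.ev (nat_lit 669) (nat_lit 144115188075855872) .dd)))
 (.ch (nat_lit 24) (.ev (nat_lit 656) (nat_lit 144115196665790464) .dd))))) (.br (nat_lit 32) (.br (nat_lit 29)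
 (.ch (nat_lit 26) (.ev (nat_lit 656) (nat_lit 144115196665790464) .dd)) (.br (nat_lit 31) (.ch (nat_lit 29)
 (.ev (nat_lit 656) (nat_lit 8589934592) (.ev (nat_lit 669) (nat_lit 144115188075855872) .dd))) (.ch (nat_lit
 31) (.ev (nat_lit 656) (nat_lit 144115196665790464) .dd)))) (.br (nat_lit 38) (.br (nat_lit 33) (.ch (nat_lit
 32) (.ev (nat_lit 656) (nat_lit 8589934592) (.ev (nat_lit 669) (nat_lit 144115188075855872) .dd))) (.ch
 (nat_lit 33) (.ev (nat_lit 656) (nat_lit 144115196665790464) .dd))) (.br (nat_lit 39) (.ch (nat_lit 38) (.ev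
 (nat_lit 656) (nat_lit 144115196665790464) .dd)) (.ch (nat_lit 39) (.ev (nat_lit 656) (nat_lit
 144115188075855872) (.ev (nat_lit 669) (nat_lit 8589934592) .dd)))))))))))))))) (.br (nat_lit 40) (.br
 (nat_lit 39) (.ch (nat_lit 38) (.ev (nat_lit 52) (nat_lit 144819436010864930) (.ev (nat_lit 84) (nat_lit
 1125899906842624) (.ev (nat_lit 116) (nat_lit 2251799813685376) (.ev (nat_lit 148) (nat_lit
 737869837715172753408) (.ev (nat_lit 244) (nat_lit 4194304) (.nd (nat_lit 640) (.br (nat_lit 24) (.br (nat_lit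
 16) (.br (nat_lit 5) (.ch (nat_lit 1) (.ev (nat_lit 656) (nat_lit 318206335272043413504) (.ev (nat_lit 708)
 (nat_lit 36893488147419103232) (.ev (nat_lit 717) (nat_lit 2048) .dd)))) (.br (nat_lit 14) (.ch (nat_lit 5)
 (.ev (nat_lit 656) (nat_lit 355099823419462518784) .dd)) (.ch (nat_lit 14) (.ev (nat_lit 656) (nat_lit
 350488137401035130880) (.ev (nat_lit 669) (nat_lit 4611686018427387904) .dd))))) (.br (nat_lit 18) (.ch
 (nat_lit 16) (.ev (nat_lit 656) (nat_lit 355099823419462518784) .dd)) (.br (nat_lit 22) (.ch (nat_lit 18) (.ev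
 (nat_lit 656) (nat_lit 350488137401018353664) (.ev (nat_lit 672) (nat_lit 16777216) (.ev (nat_lit 685)
 (nat_lit 4611686018427387904) .dd)))) (.ch (nat_lit 22) (.ev (nat_lit 656) (nat_lit 59951918240109690880) (.ev
 (nat_lit 708) (nat_lit 2048) (.ev (nat_lit 717) (nat_lit 295147905179352825856) .dd))))))) (.br (nat_lit 29)
 (.br (nat_lit 26) (.ch (nat_lit 24) (.ev (nat_lit 656) (nat_lit 350488137400498259968) (.ev (nat_lit 708)
 (nat_lit 536870912) (.ev (nat_lit 717) (nat_lit 4611686018427387904) .dd)))) (.br (nat_lit 28) (.ch (nat_lit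
 26) (.ev (nat_lit 656) (nat_lit 355099823419462518784) .dd)) (.ch (nat_lit 28) (.ev (nat_lit 656) (nat_lit
 336653079345216096256) (.ev (nat_lit 708) (nat_lit 536870912) (.ev (nat_lit 717) (nat_lit
 18446744073709551616) .dd)))))) (.br (nat_lit 33) (.br (nat_lit 32) (.ch (nat_lit 29) (.ev (nat_lit 656)
 (nat_lit 313594649253062379520) (.ev (nat_lit 708) (nat_lit 36893488147955974144) (.ev (nat_lit 832) (nat_lit
 4611686018427387904) (.ev (nat_lit 845) (nat_lit 16777216) .dd))))) (.ch (nat_lit 32) (.ev (nat_lit 656)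
 (nat_lit 355099823419462518784) .dd))) (.br (nat_lit 39) (.ch (nat_lit 33) (.ev (nat_lit 656) (nat_lit
 23058430092673812480) (.ev (nat_lit 708) (nat_lit 36893488147419103232) (.ev (nat_lit 720) (nat_lit 16777216)
 (.ev (nat_lit 733) (nat_lit 295147905179352825856) .dd))))) (.ch (nat_lit 39) (.ev (nat_lit 656) (nat_lit
 355099823418925647872) (.ev (nat_lit 669) (nat_lit 536870912) .dd)))))))))))))) (.ch (nat_lit 39) (.ev
 (nat_lit 52) (nat_lit 1088506027107801893250) (.ev (nat_lit 224) (nat_lit 4611831162568966176) .dd)))) (.br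
 (nat_lit 41) (.ch (nat_lit 40) (.ev (nat_lit 52) (nat_lit 1051465186268372011424) (.ev (nat_lit 116) (nat_lit
 1125900443713538) (.ev (nat_lit 148) (nat_lit 4613942216287584256) (.ev (nat_lit 320) (nat_lit
 37037603885267550208) .dd))))) (.ch (nat_lit 41) (.ev (nat_lit 52) (nat_lit 299763184401800759296) (.ev
 (nat_lit 84) (nat_lit 36893488699322400800) (.ev (nat_lit 212) (nat_lit 8589934592) (.ev (nat_lit 244)
 (nat_lit 147573952589676412928) (.ev (nat_lit 276) (nat_lit 562949953421312) (.ev (nat_lit 340) (nat_lit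
 536870912) (.nd (nat_lit 640) (.br (nat_lit 20) (.br (nat_lit 7) (.br (nat_lit 4) (.ch (nat_lit 1) (.ev
 (nat_lit 656) (nat_lit 608742554432415203714) (.ev (nat_lit 669) (nat_lit 144115188075855872) .dd))) (.br
 (nat_lit 5) (.ch (nat_lit 4) (.ev (nat_lit 656) (nat_lit 608886669620491059584) (.ev (nat_lit 669) (nat_lit 2)
 .dd))) (.ch (nat_lit 5) (.ev (nat_lit 656) (nat_lit 18590859261785407746) (.ev (nat_lit 1028) (nat_lit 128)
 (.ev (nat_lit 1037) (nat_lit 590295810358705651712) .dd)))))) (.br (nat_lit 8) (.ch (nat_lit 7) (.ev (nat_lit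
 656) (nat_lit 18590859261785407746) (.ev (nat_lit 1028) (nat_lit 128) (.ev (nat_lit 1037) (nat_lit
 590295810358705651712) .dd)))) (.br (nat_lit 10) (.ch (nat_lit 8) (.ev (nat_lit 656) (nat_lit
 608886669620491059584) (.ev (nat_lit 669) (nat_lit 2) .dd))) (.ch (nat_lit 10) (.ev (nat_lit 656) (nat_lit
 608886669620491059458) (.ev (nat_lit 669) (nat_lit 128) .dd)))))) (.br (nat_lit 29) (.br (nat_lit 22) (.ch
 (nat_lit 20) (.ev (nat_lit 656) (nat_lit 18590859261785407874) (.ev (nat_lit 669) (nat_lit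
 590295810358705651712) .dd))) (.br (nat_lit 28) (.ch (nat_lit 22) (.ev (nat_lit 656) (nat_lit
 608886669620491059584) (.ev (nat_lit 669) (nat_lit 2) .dd))) (.ch (nat_lit 28) (.ev (nat_lit 656) (nat_lit
 608886669620491059328) (.ev (nat_lit 708) (nat_lit 2) (.ev (nat_lit 717) (nat_lit 256) .dd)))))) (.br (nat_lit
 32) (.br (nat_lit 31) (.ch (nat_lit 29) (.ev (nat_lit 656) (nat_lit 608886669620491059586) .dd)) (.ch (nat_lit
 31) (.ev (nat_lit 656) (nat_lit 608886669620491059586) .dd))) (.br (nat_lit 33) (.ch (nat_lit 32) (.ev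
 (nat_lit 656) (nat_lit 608742554432415203714) (.ev (nat_lit 669) (nat_lit 144115188075855872) .dd))) (.ch
 (nat_lit 33) (.ev (nat_lit 656) (nat_lit 590295810358705651970) (.ev (nat_lit 708) (nat_lit
 18446744073709551744) (.ev (nat_lit 717) (nat_lit 144115188075855872) .dd))))))))))))))))))) (.br (nat_lit 47)
 (.br (nat_lit 44) (.br (nat_lit 43) (.ch (nat_lit 42) (.ev (nat_lit 52) (nat_lit 207672313142279405570) (.ev
 (nat_lit 84) (nat_lit 2304) (.ev (nat_lit 148) (nat_lit 295147905179352825984) (.ev (nat_lit 192) (nat_lit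
 590297639948738625568) .dd))))) (.ch (nat_lit 43) (.ev (nat_lit 52) (nat_lit 184470823395372566784) (.ev
 (nat_lit 84) (nat_lit 4611686018427388034) (.ev (nat_lit 116) (nat_lit 536870944) (.ev (nat_lit 180) (nat_lit
 70368744177664) (.ev (nat_lit 212) (nat_lit 144115188075855872) (.nd (nat_lit 640) (.br (nat_lit 22) (.br
 (nat_lit 11) (.br (nat_lit 7) (.br (nat_lit 4) (.ch (nat_lit 2) (.ev (nat_lit 656) (nat_lit
 903891163299214000128) .dd)) (.ch (nat_lit 4) (.ev (nat_lit 656) (nat_lit 313595352940508348416) (.ev (nat_lit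
 669) (nat_lit 590295810358705651712) .dd)))) (.br (nat_lit 10) (.ch (nat_lit 7) (.ev (nat_lit 656) (nat_lit
 903891163299214000128) .dd)) (.ch (nat_lit 10) (.ev (nat_lit 656) (nat_lit 903891163299214000128) .dd)))) (.br
 (nat_lit 15) (.br (nat_lit 14) (.ch (nat_lit 11) (.ev (nat_lit 656) (nat_lit 885444419225504448512) (.ev
 (nat_lit 669) (nat_lit 18446744073709551616) .dd))) (.ch (nat_lit 14) (.ev (nat_lit 656) (nat_lit
 903890600349260578816) (.ev (nat_lit 669) (nat_lit 562949953421312) .dd)))) (.br (nat_lit 16) (.ch (nat_lit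
 15) (.ev (nat_lit 656) (nat_lit 903891163299214000128) .dd)) (.ch (nat_lit 16) (.ev (nat_lit 656) (nat_lit
 903890600349260578816) (.ev (nat_lit 669) (nat_lit 562949953421312) .dd)))))) (.br (nat_lit 31) (.br (nat_lit
 28) (.br (nat_lit 26) (.ch (nat_lit 22) (.ev (nat_lit 656) (nat_lit 903890459611768029184) (.ev (nat_lit 708)
 (nat_lit 4194304) (.ev (nat_lit 912) (nat_lit 140737488355328) (.ev (nat_lit 925) (nat_lit 562949953421312)
 .dd))))) (.ch (nat_lit 26) (.ev (nat_lit 656) (nat_lit 903890600349260578816) (.ev (nat_lit 669) (nat_lit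
 562949953421312) .dd)))) (.br (nat_lit 29) (.ch (nat_lit 28) (.ev (nat_lit 656) (nat_lit
 903891163299214000128) .dd)) (.ch (nat_lit 29) (.ev (nat_lit 656) (nat_lit 295148608866798796800) (.ev
 (nat_lit 708) (nat_lit 18446744073709551616) (.ev (nat_lit 717) (nat_lit 590295810358705651712) .dd)))))) (.br
 (nat_lit 38) (.br (nat_lit 36) (.ch (nat_lit 31) (.ev (nat_lit 656) (nat_lit 903891163299214000128) .dd)) (.ch
 (nat_lit 36) (.ev (nat_lit 656) (nat_lit 608742695169903558656) (.ev (nat_lit 708) (nat_lit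
 295147905179352825856) (.ev (nat_lit 864) (nat_lit 4194304) (.ev (nat_lit 877) (nat_lit 562949953421312)
 .dd)))))) (.br (nat_lit 39) (.ch (nat_lit 38) (.ev (nat_lit 656) (nat_lit 608743258119856979968) (.ev (nat_lit
 708) (nat_lit 4194304) (.ev (nat_lit 717) (nat_lit 295147905179352825856) .dd)))) (.br (nat_lit 41) (.ch
 (nat_lit 39) (.ev (nat_lit 656) (nat_lit 885444419225500254208) (.ev (nat_lit 928) (nat_lit
 18446744073713745920) .dd))) (.ch (nat_lit 41) (.ev (nat_lit 656) (nat_lit 885443856275551027200) (.ev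
 (nat_lit 708) (nat_lit 18446744073709551616) (.ev (nat_lit 717) (nat_lit 562949953421312) .dd)))))))))))))))))
 (.br (nat_lit 46) (.ch (nat_lit 44) (.ev (nat_lit 52) (nat_lit 4612887244028510496) (.ev (nat_lit 84) (nat_lit
 144115188075855872) (.ev (nat_lit 116) (nat_lit 36893488147419103232) (.ev (nat_lit 128) (nat_lit
 1051467367690847389826) .dd))))) (.ch (nat_lit 46) (.ev (nat_lit 52) (nat_lit 1088359804705703985280) (.ev
 (nat_lit 84) (nat_lit 2251799813685248) (.ev (nat_lit 116) (nat_lit 549755813888) (.ev (nat_lit 148) (nat_lit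
 4611686027017322496) (.ev (nat_lit 224) (nat_lit 144115188080052514) .dd)))))))) (.br (nat_lit 49) (.br
 (nat_lit 48) (.ch (nat_lit 47) (.ev (nat_lit 52) (nat_lit 645639983229529227424) (.ev (nat_lit 148) (nat_lit
 147718067777752270848) (.ev (nat_lit 180) (nat_lit 256) (.ev (nat_lit 212) (nat_lit 140737488355330) (.ev
 (nat_lit 244) (nat_lit 74766790688768) (.nd (nat_lit 640) (.br (nat_lit 20) (.br (nat_lit 8) (.br (nat_lit 5)
 (.ch (nat_lit 4) (.ev (nat_lit 656) (nat_lit 299759591758810316800) .dd)) (.br (nat_lit 7) (.ch (nat_lit 5)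
 (.ev (nat_lit 656) (nat_lit 299759591758273445888) (.ev (nat_lit 669) (nat_lit 536870912) .dd))) (.ch (nat_lit
 7) (.ev (nat_lit 656) (nat_lit 299759591750220382208) (.ev (nat_lit 669) (nat_lit 8589934592) .dd))))) (.br
 (nat_lit 15) (.ch (nat_lit 8) (.ev (nat_lit 656) (nat_lit 299759591758810316800) .dd)) (.br (nat_lit 16) (.ch
 (nat_lit 15) (.ev (nat_lit 656) (nat_lit 295147905740382928896) (.ev (nat_lit 669) (nat_lit
 4611686018427387904) .dd))) (.ch (nat_lit 16) (.ev (nat_lit 656) (nat_lit 4611686579457490944) (.ev (nat_lit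
 669) (nat_lit 295147905179352825856) .dd)))))) (.br (nat_lit 28) (.br (nat_lit 22) (.ch (nat_lit 20) (.ev
 (nat_lit 656) (nat_lit 299759591756662833152) (.ev (nat_lit 669) (nat_lit 2147483648) .dd))) (.br (nat_lit 24)
 (.ch (nat_lit 22) (.ev (nat_lit 656) (nat_lit 4611686577310007296) (.ev (nat_lit 672) (nat_lit 2147483648)
 (.ev (nat_lit 685) (nat_lit 295147905179352825856) .dd)))) (.ch (nat_lit 24) (.ev (nat_lit 656) (nat_lit
 299759591208517632000) (.ev (nat_lit 1028) (nat_lit 536870912) (.ev (nat_lit 1037) (nat_lit 549755813888)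
 .dd)))))) (.br (nat_lit 36) (.br (nat_lit 29) (.ch (nat_lit 28) (.ev (nat_lit 656) (nat_lit
 299759591208517632000) (.ev (nat_lit 672) (nat_lit 549755813888) (.ev (nat_lit 685) (nat_lit 536870912)
 .dd)))) (.ch (nat_lit 29) (.ev (nat_lit 656) (nat_lit 299759591758273445888) (.ev (nat_lit 669) (nat_lit
 536870912) .dd)))) (.br (nat_lit 39) (.ch (nat_lit 36) (.ev (nat_lit 656) (nat_lit 299759591749683511296) (.ev
 (nat_lit 708) (nat_lit 8589934592) (.ev (nat_lit 717) (nat_lit 536870912) .dd)))) (.ch (nat_lit 39) (.ev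
 (nat_lit 656) (nat_lit 299759591749683511296) (.ev (nat_lit 708) (nat_lit 8589934592) (.ev (nat_lit 717)
 (nat_lit 536870912) .dd))))))))))))))) (.ch (nat_lit 48) (.ev (nat_lit 52) (nat_lit 184613952863225249826)
 (.ev (nat_lit 84) (nat_lit 256) (.ev (nat_lit 116) (nat_lit 18446744073709551616) (.ev (nat_lit 128) (nat_lit
 890057161333436057728) .dd)))))) (.br (nat_lit 50) (.ch (nat_lit 49) (.ev (nat_lit 52) (nat_lit
 742482011925357004928) (.ev (nat_lit 84) (nat_lit 1125899906842624) (.ev (nat_lit 148) (nat_lit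
 144115188075855872) (.ev (nat_lit 180) (nat_lit 295147905179352825856) (.ev (nat_lit 212) (nat_lit
 4398046511360) (.ev (nat_lit 244) (nat_lit 18446744073709551616) (.ev (nat_lit 276) (nat_lit 549755813888)
 (.nd (nat_lit 640) (.br (nat_lit 16) (.br (nat_lit 8) (.br (nat_lit 2) (.ch (nat_lit 1) (.ev (nat_lit 656)
 (nat_lit 36895951055629582370) (.ev (nat_lit 669) (nat_lit 536870912) .dd))) (.br (nat_lit 4) (.ch (nat_lit 2)
 (.ev (nat_lit 656) (nat_lit 36895880687422275616) (.ev (nat_lit 708) (nat_lit 2) (.ev (nat_lit 717) (nat_lit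
 70368744177664) .dd)))) (.ch (nat_lit 4) (.ev (nat_lit 656) (nat_lit 36895951056166453282) .dd)))) (.br
 (nat_lit 11) (.ch (nat_lit 8) (.ev (nat_lit 656) (nat_lit 2392540003172386) (.ev (nat_lit 672) (nat_lit
 36893488147419103232) (.ev (nat_lit 685) (nat_lit 70368744177664) .dd)))) (.br (nat_lit 15) (.ch (nat_lit 11)
 (.ev (nat_lit 656) (nat_lit 36895951056166453282) .dd)) (.ch (nat_lit 15) (.ev (nat_lit 656) (nat_lit
 36895810318141227010) (.ev (nat_lit 708) (nat_lit 140737488355360) (.ev (nat_lit 717) (nat_lit 536870912)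
 .dd))))))) (.br (nat_lit 31) (.br (nat_lit 20) (.ch (nat_lit 16) (.ev (nat_lit 656) (nat_lit
 36895951056166453282) .dd)) (.br (nat_lit 28) (.ch (nat_lit 20) (.ev (nat_lit 656) (nat_lit
 36895810318678097954) (.ev (nat_lit 669) (nat_lit 140737488355328) .dd))) (.ch (nat_lit 28) (.ev (nat_lit 656)
 (nat_lit 36895951055612805152) (.ev (nat_lit 708) (nat_lit 536870912) (.ev (nat_lit 736) (nat_lit 2) (.ev
 (nat_lit 749) (nat_lit 16777216) .dd))))))) (.br (nat_lit 36) (.br (nat_lit 33) (.ch (nat_lit 31) (.ev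
 (nat_lit 656) (nat_lit 36895810316530614306) (.ev (nat_lit 708) (nat_lit 140737488355328) (.ev (nat_lit 717)
 (nat_lit 2147483648) .dd)))) (.ch (nat_lit 33) (.ev (nat_lit 656) (nat_lit 211108916887586) (.ev (nat_lit 708)
 (nat_lit 16777216) (.ev (nat_lit 880) (nat_lit 2251799813685248) (.ev (nat_lit 893) (nat_lit
 36893488147419103232) .dd)))))) (.br (nat_lit 38) (.ch (nat_lit 36) (.ev (nat_lit 656) (nat_lit
 2322171242217506) (.ev (nat_lit 708) (nat_lit 36893488147419103232) (.ev (nat_lit 864) (nat_lit 16777216) (.ev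
 (nat_lit 877) (nat_lit 140737488355328) .dd))))) (.ch (nat_lit 38) (.ev (nat_lit 656) (nat_lit
 36893699256352768032) (.ev (nat_lit 708) (nat_lit 2) (.ev (nat_lit 717) (nat_lit 2251799813685248)
 .dd))))))))))))))))) (.br (nat_lit 52) (.ch (nat_lit 50) (.ev (nat_lit 52) (nat_lit 590440629236391739552)
 (.ev (nat_lit 84) (nat_lit 23058430092136939520) (.ev (nat_lit 116) (nat_lit 1125899906842624) (.ev (nat_lit
 148) (nat_lit 70918499991552) (.ev (nat_lit 180) (nat_lit 256) (.nd (nat_lit 640) (.br (nat_lit 26) (.br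
 (nat_lit 15) (.br (nat_lit 2) (.ch (nat_lit 1) (.ev (nat_lit 656) (nat_lit 442724113976016240642) (.ev
 (nat_lit 708) (nat_lit 2048) (.ev (nat_lit 717) (nat_lit 36893488147419103232) .dd)))) (.br (nat_lit 7) (.ch
 (nat_lit 2) (.ev (nat_lit 656) (nat_lit 479617602123435345920) (.ev (nat_lit 669) (nat_lit 2) .dd))) (.ch
 (nat_lit 7) (.ev (nat_lit 656) (nat_lit 479617597716798900226) (.ev (nat_lit 708) (nat_lit 4398046511104) (.ev
 (nat_lit 717) (nat_lit 8589934592) .dd)))))) (.br (nat_lit 18) (.ch (nat_lit 15) (.ev (nat_lit 656) (nat_lit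
 184469692545499138050) (.ev (nat_lit 708) (nat_lit 295147905179352825856) (.ev (nat_lit 864) (nat_lit
 536870912) (.ev (nat_lit 877) (nat_lit 4398046511104) .dd))))) (.br (nat_lit 24) (.ch (nat_lit 18) (.ev
 (nat_lit 656) (nat_lit 479617602123435345922) .dd)) (.ch (nat_lit 24) (.ev (nat_lit 656) (nat_lit
 479617602123435345922) .dd))))) (.br (nat_lit 36) (.br (nat_lit 28) (.ch (nat_lit 26) (.ev (nat_lit 656)
 (nat_lit 479617602123435345922) .dd)) (.br (nat_lit 33) (.ch (nat_lit 28) (.ev (nat_lit 656) (nat_lit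
 479617602122898472960) (.ev (nat_lit 708) (nat_lit 2) (.ev (nat_lit 736) (nat_lit 2048) (.ev (nat_lit 749)
 (nat_lit 536870912) .dd))))) (.ch (nat_lit 33) (.ev (nat_lit 656) (nat_lit 332043645135712421888) (.ev
 (nat_lit 708) (nat_lit 147573956987722924032) (.ev (nat_lit 717) (nat_lit 2) .dd)))))) (.br (nat_lit 39) (.br
 (nat_lit 38) (.ch (nat_lit 36) (.ev (nat_lit 656) (nat_lit 147576208796126545922) (.ev (nat_lit 708) (nat_lit
 536870912) (.ev (nat_lit 880) (nat_lit 36893488147419103232) (.ev (nat_lit 893) (nat_lit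
 295147905179352825856) .dd))))) (.ch (nat_lit 38) (.ev (nat_lit 656) (nat_lit 479615350323621658626) (.ev
 (nat_lit 708) (nat_lit 2048) (.ev (nat_lit 717) (nat_lit 2251799813685248) .dd))))) (.br (nat_lit 41) (.ch
 (nat_lit 39) (.ev (nat_lit 656) (nat_lit 184467445144268834818) (.ev (nat_lit 672) (nat_lit
 295147905179352825856) (.ev (nat_lit 685) (nat_lit 2251799813685248) .dd)))) (.ch (nat_lit 41) (.ev (nat_lit
 656) (nat_lit 479617597725388834818) (.ev (nat_lit 669) (nat_lit 4398046511104) .dd)))))))))))))) (.ch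
 (nat_lit 52) (.ev (nat_lit 52) (nat_lit 350491515659084628354) (.ev (nat_lit 96) (nat_lit
 742626342611286231072) .dd)))))))))))

/-- Subtrie. -/
noncomputable def T6 : Tr := (.ev (nat_lit 20) (nat_lit 2084673795585462765746) (.nd (nat_lit 33) (.br (nat_lit
 31) (.br (nat_lit 16) (.br (nat_lit 10) (.br (nat_lit 6) (.br (nat_lit 5) (.ch (nat_lit 4) (.ev (nat_lit 52)
 (nat_lit 37181789734665453568) (.ev (nat_lit 96) (nat_lit 152205482662698258696) .dd))) (.ch (nat_lit 5) (.ev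
 (nat_lit 52) (nat_lit 36894051647145218048) (.ev (nat_lit 84) (nat_lit 288230719749095424) (.ev (nat_lit 148)
 (nat_lit 70369281048576) (.ev (nat_lit 180) (nat_lit 140737488355328) (.ev (nat_lit 276) (nat_lit
 147573952589676412928) (.nd (nat_lit 640) (.br (nat_lit 13) (.br (nat_lit 9) (.br (nat_lit 1) (.ch (nat_lit 0)
 (.ev (nat_lit 656) (nat_lit 4630826334023581960) .dd)) (.br (nat_lit 6) (.ch (nat_lit 1) (.ev (nat_lit 656)
 (nat_lit 4630826334023581952) (.ev (nat_lit 669) (nat_lit 8) .dd))) (.ch (nat_lit 6) (.ev (nat_lit 656)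
 (nat_lit 19140298416324616) (.ev (nat_lit 708) (nat_lit 17179869184) (.ev (nat_lit 752) (nat_lit 256) (.ev
 (nat_lit 765) (nat_lit 4611686018427387904) .dd))))))) (.br (nat_lit 10) (.ch (nat_lit 9) (.ev (nat_lit 656)
 (nat_lit 18014398509482248) (.ev (nat_lit 708) (nat_lit 17179869184) (.ev (nat_lit 960) (nat_lit
 4611686018427387904) (.ev (nat_lit 973) (nat_lit 1125899906842624) .dd))))) (.br (nat_lit 12) (.ch (nat_lit
 10) (.ev (nat_lit 656) (nat_lit 4612811935514099976) (.ev (nat_lit 669) (nat_lit 18014398509481984) .dd)))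
 (.ch (nat_lit 12) (.ev (nat_lit 656) (nat_lit 4629700434116739072) (.ev (nat_lit 912) (nat_lit 256) (.ev
 (nat_lit 976) (nat_lit 8) (.ev (nat_lit 989) (nat_lit 1125899906842624) .dd)))))))) (.br (nat_lit 24) (.br
 (nat_lit 20) (.ch (nat_lit 13) (.ev (nat_lit 656) (nat_lit 4629700434116739336) (.ev (nat_lit 669) (nat_lit
 1125899906842624) .dd))) (.br (nat_lit 22) (.ch (nat_lit 20) (.ev (nat_lit 656) (nat_lit 4630826334023581960)
 .dd)) (.ch (nat_lit 22) (.ev (nat_lit 656) (nat_lit 19140315596194056) (.ev (nat_lit 669) (nat_lit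
 4611686018427387904) .dd))))) (.br (nat_lit 38) (.br (nat_lit 26) (.ch (nat_lit 24) (.ev (nat_lit 656)
 (nat_lit 4630826316843712776) (.ev (nat_lit 669) (nat_lit 17179869184) .dd))) (.ch (nat_lit 26) (.ev (nat_lit
 656) (nat_lit 4611686035607257096) (.ev (nat_lit 708) (nat_lit 1125899906842624) (.ev (nat_lit 832) (nat_lit
 18014398509481984) (.ev (nat_lit 845) (nat_lit 256) .dd)))))) (.br (nat_lit 41) (.ch (nat_lit 38) (.ev
 (nat_lit 656) (nat_lit 4612811935514099976) (.ev (nat_lit 669) (nat_lit 18014398509481984) .dd))) (.ch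
 (nat_lit 41) (.ev (nat_lit 656) (nat_lit 4612811918334230536) (.ev (nat_lit 708) (nat_lit 17179869184) (.ev
 (nat_lit 768) (nat_lit 256) (.ev (nat_lit 781) (nat_lit 18014398509481984) .dd))))))))))))))))) (.br (nat_lit
 9) (.ch (nat_lit 6) (.ev (nat_lit 52) (nat_lit 147862183584840323080) (.ev (nat_lit 84) (nat_lit 256) (.ev
 (nat_lit 116) (nat_lit 65536) (.ev (nat_lit 148) (nat_lit 4612248968380809216) (.ev (nat_lit 180) (nat_lit
 17196646400) (.nd (nat_lit 640) (.br (nat_lit 12) (.br (nat_lit 5) (.br (nat_lit 1) (.ch (nat_lit 0) (.ev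
 (nat_lit 656) (nat_lit 36912769458201690112) (.ev (nat_lit 669) (nat_lit 70368744177664) .dd))) (.br (nat_lit
 3) (.ch (nat_lit 1) (.ev (nat_lit 656) (nat_lit 36912839826945867776) .dd)) (.ch (nat_lit 3) (.ev (nat_lit
 656) (nat_lit 19351679526764544) (.ev (nat_lit 669) (nat_lit 36893488147419103232) .dd))))) (.br (nat_lit 8)
 (.br (nat_lit 6) (.ch (nat_lit 5) (.ev (nat_lit 656) (nat_lit 36894825153558478848) (.ev (nat_lit 708)
 (nat_lit 274877906944) (.ev (nat_lit 717) (nat_lit 18014398509481984) .dd)))) (.ch (nat_lit 6) (.ev (nat_lit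
 656) (nat_lit 36912839826945867776) .dd))) (.br (nat_lit 9) (.ch (nat_lit 8) (.ev (nat_lit 656) (nat_lit
 36894825153558478848) (.ev (nat_lit 720) (nat_lit 274877906944) (.ev (nat_lit 733) (nat_lit 18014398509481984)
 .dd)))) (.ch (nat_lit 9) (.ev (nat_lit 656) (nat_lit 36912839826945867776) .dd))))) (.br (nat_lit 22) (.br
 (nat_lit 13) (.ch (nat_lit 12) (.ev (nat_lit 656) (nat_lit 36893699253651636224) (.ev (nat_lit 708) (nat_lit
 18014673387388928) (.ev (nat_lit 717) (nat_lit 1125899906842624) .dd)))) (.br (nat_lit 20) (.ch (nat_lit 13)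
 (.ev (nat_lit 656) (nat_lit 211106232532992) (.ev (nat_lit 708) (nat_lit 1125899906842624) (.ev (nat_lit 736)
 (nat_lit 274877906944) (.fin (nat_lit 576355748907795040)))))) (.ch (nat_lit 20) (.ev (nat_lit 656) (nat_lit
 36894825428436385792) (.ev (nat_lit 669) (nat_lit 18014398509481984) .dd))))) (.br (nat_lit 29) (.br (nat_lit
 28) (.ch (nat_lit 22) (.ev (nat_lit 656) (nat_lit 36912839826945867776) .dd)) (.ch (nat_lit 28) (.ev (nat_lit
 656) (nat_lit 36911643558294847488) (.ev (nat_lit 708) (nat_lit 1125899906842624) (.ev (nat_lit 717) (nat_lit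
 70368744177664) .dd))))) (.br (nat_lit 41) (.ch (nat_lit 29) (.ev (nat_lit 656) (nat_lit 36911573189550669824)
 (.ev (nat_lit 708) (nat_lit 140737488355328) (.ev (nat_lit 717) (nat_lit 1125899906842624) .dd)))) (.ch
 (nat_lit 41) (.ev (nat_lit 656) (nat_lit 1337006139375616) (.ev (nat_lit 708) (nat_lit 274877906944) (.ev
 (nat_lit 752) (nat_lit 18014398509481984) (.ev (nat_lit 765) (nat_lit 36893488147419103232)
 .dd)))))))))))))))) (.ch (nat_lit 9) (.ev (nat_lit 52) (nat_lit 4631530897655500808) (.ev (nat_lit 84)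
 (nat_lit 288230376151711744) (.ev (nat_lit 148) (nat_lit 147573952589676412928) (.ev (nat_lit 224) (nat_lit
 36893558533880086784) .dd))))))) (.br (nat_lit 12) (.br (nat_lit 11) (.ch (nat_lit 10) (.ev (nat_lit 52)
 (nat_lit 4612319972796989704) (.ev (nat_lit 84) (nat_lit 36893488147419103232) (.ev (nat_lit 116) (nat_lit
 147593092888092770304) (.ev (nat_lit 148) (nat_lit 274877906944) (.ev (nat_lit 212) (nat_lit 140737488355328)
 (.nd (nat_lit 640) (.br (nat_lit 22) (.br (nat_lit 6) (.br (nat_lit 3) (.ch (nat_lit 1) (.ev (nat_lit 656)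
 (nat_lit 288230376151715840) (.ev (nat_lit 669) (nat_lit 536870912) .dd))) (.br (nat_lit 5) (.ch (nat_lit 3)
 (.ev (nat_lit 656) (nat_lit 288230376688586752) .dd)) (.ch (nat_lit 5) (.ev (nat_lit 656) (nat_lit
 288230376688582656) (.ev (nat_lit 669) (nat_lit 4096) .dd))))) (.br (nat_lit 10) (.ch (nat_lit 6) (.ev
 (nat_lit 656) (nat_lit 288230376151711744) (.ev (nat_lit 1028) (nat_lit 536870912) (.ev (nat_lit 1037)
 (nat_lit 4096) .dd)))) (.br (nat_lit 17) (.ch (nat_lit 10) (.ev (nat_lit 656) (nat_lit 288230376688582656)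
 (.ev (nat_lit 669) (nat_lit 4096) .dd))) (.ch (nat_lit 17) (.ev (nat_lit 656) (nat_lit 536875008) (.ev
 (nat_lit 669) (nat_lit 288230376151711744) .dd)))))) (.br (nat_lit 31) (.br (nat_lit 26) (.ch (nat_lit 22)
 (.ev (nat_lit 656) (nat_lit 288230376688586752) .dd)) (.br (nat_lit 30) (.ch (nat_lit 26) (.ev (nat_lit 656)
 (nat_lit 288230376688586752) .dd)) (.ch (nat_lit 30) (.ev (nat_lit 656) (nat_lit 288230376688582656) (.ev
 (nat_lit 669) (nat_lit 4096) .dd))))) (.br (nat_lit 40) (.br (nat_lit 38) (.ch (nat_lit 31) (.ev (nat_lit 656)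
 (nat_lit 288230376688586752) .dd)) (.ch (nat_lit 38) (.ev (nat_lit 656) (nat_lit 288230376688586752) .dd)))
 (.br (nat_lit 41) (.ch (nat_lit 40) (.ev (nat_lit 656) (nat_lit 288230376688582656) (.ev (nat_lit 669)
 (nat_lit 4096) .dd))) (.ch (nat_lit 41) (.ev (nat_lit 656) (nat_lit 288230376151715840) (.ev (nat_lit 669)
 (nat_lit 536870912) .dd)))))))))))))) (.ch (nat_lit 11) (.ev (nat_lit 52) (nat_lit 184468215136878923784) (.ev
 (nat_lit 84) (nat_lit 4611686018427387904) (.ev (nat_lit 160) (nat_lit 307371242057400576) .dd))))) (.br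
 (nat_lit 15) (.ch (nat_lit 12) (.ev (nat_lit 52) (nat_lit 152187538632916074760) (.ev (nat_lit 148) (nat_lit
 17179869184) (.ev (nat_lit 180) (nat_lit 36893488422833881088) (.nd (nat_lit 640) (.br (nat_lit 13) (.br
 (nat_lit 6) (.br (nat_lit 2) (.ch (nat_lit 1) (.ev (nat_lit 656) (nat_lit 306245324433854464) (.ev (nat_lit
 669) (nat_lit 32768) .dd))) (.br (nat_lit 3) (.ch (nat_lit 2) (.ev (nat_lit 656) (nat_lit 306245324417077248)
 (.ev (nat_lit 708) (nat_lit 32768) (.ev (nat_lit 717) (nat_lit 16777216) .dd)))) (.ch (nat_lit 3) (.ev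
 (nat_lit 656) (nat_lit 306244774678073344) (.ev (nat_lit 669) (nat_lit 549755813888) .dd))))) (.br (nat_lit
 10) (.ch (nat_lit 6) (.ev (nat_lit 656) (nat_lit 306245324433887232) .dd)) (.br (nat_lit 12) (.ch (nat_lit 10)
 (.ev (nat_lit 656) (nat_lit 549772660736) (.ev (nat_lit 752) (nat_lit 288230376151711744) (.ev (nat_lit 848)
 (nat_lit 32768) (.ev (nat_lit 861) (nat_lit 18014398509481984) .dd))))) (.ch (nat_lit 12) (.ev (nat_lit 656)
 (nat_lit 288230376151814144) (.ev (nat_lit 768) (nat_lit 18014398509481984) (.ev (nat_lit 976) (nat_lit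
 549755813888) (.ev (nat_lit 989) (nat_lit 16777216) .dd)))))))) (.br (nat_lit 26) (.br (nat_lit 17) (.ch
 (nat_lit 13) (.ev (nat_lit 656) (nat_lit 288230925924405248) (.ev (nat_lit 669) (nat_lit 18014398509481984)
 .dd))) (.br (nat_lit 20) (.ch (nat_lit 17) (.ev (nat_lit 656) (nat_lit 306245324433883136) (.ev (nat_lit 669)
 (nat_lit 4096) .dd))) (.ch (nat_lit 20) (.ev (nat_lit 656) (nat_lit 288230925907562496) (.ev (nat_lit 708)
 (nat_lit 18014398509481984) (.ev (nat_lit 1028) (nat_lit 65536) (.ev (nat_lit 1037) (nat_lit 16777216)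
 .dd))))))) (.br (nat_lit 29) (.br (nat_lit 28) (.ch (nat_lit 26) (.ev (nat_lit 656) (nat_lit
 306245324433821696) (.ev (nat_lit 669) (nat_lit 65536) .dd))) (.ch (nat_lit 28) (.ev (nat_lit 656) (nat_lit
 18014398526296064) (.ev (nat_lit 672) (nat_lit 288230376151711744) (.fin (nat_lit 576500884526547528))))))
 (.br (nat_lit 30) (.ch (nat_lit 29) (.ev (nat_lit 656) (nat_lit 18014948282073088) (.ev (nat_lit 708) (nat_lit
 65536) (.ev (nat_lit 816) (nat_lit 4096) (.ev (nat_lit 928) (nat_lit 288230376151711744) (.ev (nat_lit 941)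
 (nat_lit 32768) .dd)))))) (.ch (nat_lit 30) (.ev (nat_lit 656) (nat_lit 18014948282171392) (.ev (nat_lit 720)
 (nat_lit 4096) (.ev (nat_lit 733) (nat_lit 288230376151711744) .dd))))))))))))) (.ch (nat_lit 15) (.ev
 (nat_lit 52) (nat_lit 4919619729385099528) (.ev (nat_lit 116) (nat_lit 70368744177664) (.ev (nat_lit 192)
 (nat_lit 184467582299234435072) .dd))))))) (.br (nat_lit 22) (.br (nat_lit 18) (.br (nat_lit 17) (.ch (nat_lit
 16) (.ev (nat_lit 52) (nat_lit 37200929190748164096) (.ev (nat_lit 116) (nat_lit 549755814144) (.ev (nat_lit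
 148) (nat_lit 32768) (.ev (nat_lit 180) (nat_lit 140737488355328) (.ev (nat_lit 276) (nat_lit 536870912) (.nd
 (nat_lit 640) (.br (nat_lit 17) (.br (nat_lit 9) (.br (nat_lit 2) (.ch (nat_lit 0) (.ev (nat_lit 656) (nat_lit
 563035852767240) (.ev (nat_lit 672) (nat_lit 147573952589676412928) (.ev (nat_lit 768) (nat_lit
 4611686293305294848) .dd)))) (.br (nat_lit 8) (.ch (nat_lit 2) (.ev (nat_lit 656) (nat_lit
 4611686379204640776) (.ev (nat_lit 976) (nat_lit 562949953421312) (.ev (nat_lit 989) (nat_lit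
 147573952589676412928) .dd)))) (.ch (nat_lit 8) (.ev (nat_lit 656) (nat_lit 147574515900407087112) (.ev
 (nat_lit 669) (nat_lit 4611686018427387904) .dd))))) (.br (nat_lit 12) (.ch (nat_lit 9) (.ev (nat_lit 656)
 (nat_lit 152186201918834475016) .dd)) (.br (nat_lit 13) (.ch (nat_lit 12) (.ev (nat_lit 656) (nat_lit
 152186201918834475016) .dd)) (.ch (nat_lit 13) (.ev (nat_lit 656) (nat_lit 152186201643956568072) (.ev
 (nat_lit 669) (nat_lit 274877906944) .dd)))))) (.br (nat_lit 30) (.br (nat_lit 24) (.ch (nat_lit 17) (.ev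
 (nat_lit 656) (nat_lit 4612249243258716168) (.ev (nat_lit 708) (nat_lit 68719476736) (.ev (nat_lit 720)
 (nat_lit 147573952589676412928) (.ev (nat_lit 733) (nat_lit 17179869184) .dd))))) (.br (nat_lit 26) (.ch
 (nat_lit 24) (.ev (nat_lit 656) (nat_lit 152186201918834475016) .dd)) (.ch (nat_lit 26) (.ev (nat_lit 656)
 (nat_lit 152186201901654605824) (.ev (nat_lit 708) (nat_lit 17179869184) (.ev (nat_lit 717) (nat_lit 8)
 .dd)))))) (.br (nat_lit 40) (.br (nat_lit 38) (.ch (nat_lit 30) (.ev (nat_lit 656) (nat_lit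
 152185638968881053696) (.ev (nat_lit 784) (nat_lit 562949953421320) .dd))) (.ch (nat_lit 38) (.ev (nat_lit
 656) (nat_lit 152186201575237091336) (.ev (nat_lit 672) (nat_lit 68719476736) (.ev (nat_lit 685) (nat_lit
 274877906944) .dd))))) (.br (nat_lit 41) (.ch (nat_lit 40) (.ev (nat_lit 656) (nat_lit 360777252872) (.ev
 (nat_lit 848) (nat_lit 4611686018427387904) (.fin (nat_lit 576509680535683680))))) (.ch (nat_lit 41) (.ev
 (nat_lit 656) (nat_lit 147574515539629834248) (.ev (nat_lit 708) (nat_lit 4611686035607257088) (.ev (nat_lit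
 944) (nat_lit 343597383680) .dd))))))))))))))) (.ch (nat_lit 17) (.ev (nat_lit 52) (nat_lit
 189098337439863377928) (.ev (nat_lit 84) (nat_lit 288793326105133056) (.ev (nat_lit 148) (nat_lit 16777216)
 (.ev (nat_lit 224) (nat_lit 141631378424064) .dd)))))) (.br (nat_lit 21) (.ch (nat_lit 18) (.ev (nat_lit 52)
 (nat_lit 41793404542535176448) (.ev (nat_lit 116) (nat_lit 18577348462903296) (.ev (nat_lit 148) (nat_lit
 566935683072) (.ev (nat_lit 192) (nat_lit 147575289939429949448) .dd))))) (.ch (nat_lit 21) (.ev (nat_lit 52)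
 (nat_lit 19351421828792584) (.ev (nat_lit 84) (nat_lit 4611686087146864640) (.ev (nat_lit 116) (nat_lit
 36894051372250435584) (.ev (nat_lit 180) (nat_lit 536870912) (.ev (nat_lit 256) (nat_lit
 147862183515600748544) .dd)))))))) (.br (nat_lit 26) (.br (nat_lit 24) (.ch (nat_lit 22) (.ev (nat_lit 52)
 (nat_lit 4629841773437485320) (.ev (nat_lit 84) (nat_lit 288301019790573568) (.ev (nat_lit 116) (nat_lit 4096)
 (.ev (nat_lit 180) (nat_lit 36893488147419103232) (.ev (nat_lit 244) (nat_lit 1125899906842624) (.nd (nat_lit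
 640) (.br (nat_lit 24) (.br (nat_lit 10) (.br (nat_lit 5) (.ch (nat_lit 1) (.ev (nat_lit 656) (nat_lit
 147574515556809703424) .dd)) (.br (nat_lit 8) (.ch (nat_lit 5) (.ev (nat_lit 656) (nat_lit
 147573952606856282112) (.ev (nat_lit 669) (nat_lit 562949953421312) .dd))) (.ch (nat_lit 8) (.ev (nat_lit 656)
 (nat_lit 562967133290496) (.ev (nat_lit 669) (nat_lit 147573952589676412928) .dd))))) (.br (nat_lit 12) (.ch
 (nat_lit 10) (.ev (nat_lit 656) (nat_lit 147574515539629834240) (.ev (nat_lit 669) (nat_lit 17179869184)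
 .dd))) (.br (nat_lit 20) (.ch (nat_lit 12) (.ev (nat_lit 656) (nat_lit 147574515556809703424) .dd)) (.ch
 (nat_lit 20) (.ev (nat_lit 656) (nat_lit 147574515556809703424) .dd))))) (.br (nat_lit 31) (.br (nat_lit 26)
 (.ch (nat_lit 24) (.ev (nat_lit 944) (nat_lit 17179869184) (.ev (nat_lit 976) (nat_lit 147573952589676412928)
 (.ev (nat_lit 989) (nat_lit 562949953421312) .dd)))) (.br (nat_lit 27) (.ch (nat_lit 26) (.ev (nat_lit 656)
 (nat_lit 147574515539629834240) (.ev (nat_lit 669) (nat_lit 17179869184) .dd))) (.ch (nat_lit 27) (.ev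
 (nat_lit 656) (nat_lit 562967133290496) (.ev (nat_lit 669) (nat_lit 147573952589676412928) .dd))))) (.br
 (nat_lit 34) (.ch (nat_lit 31) (.ev (nat_lit 656) (nat_lit 147574515556809703424) .dd)) (.br (nat_lit 40) (.ch
 (nat_lit 34) (.ev (nat_lit 656) (nat_lit 147574515556809703424) .dd)) (.ch (nat_lit 40) (.ev (nat_lit 656)
 (nat_lit 17179869184) (.fin (nat_lit 576509680535683680))))))))))))))) (.ch (nat_lit 24) (.ev (nat_lit 52)
 (nat_lit 36912277169587126536) (.ev (nat_lit 160) (nat_lit 152474995227776585728) .dd)))) (.br (nat_lit 28)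
 (.ch (nat_lit 26) (.ev (nat_lit 52) (nat_lit 41506300427067494656) (.ev (nat_lit 84) (nat_lit 8) (.ev (nat_lit
 116) (nat_lit 147574022958437367808) (.ev (nat_lit 148) (nat_lit 288371113640067072) (.ev (nat_lit 180)
 (nat_lit 562949953421312) (.nd (nat_lit 640) (.br (nat_lit 20) (.br (nat_lit 9) (.br (nat_lit 5) (.br (nat_lit
 3) (.ch (nat_lit 0) (.ev (nat_lit 656) (nat_lit 18014398509547520) (.ev (nat_lit 669) (nat_lit 549755813888)
 .dd))) (.ch (nat_lit 3) (.ev (nat_lit 656) (nat_lit 18014948265361408) .dd))) (.br (nat_lit 8) (.ch (nat_lit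
 5) (.ev (nat_lit 656) (nat_lit 549755879424) (.ev (nat_lit 669) (nat_lit 18014398509481984) .dd))) (.ch
 (nat_lit 8) (.ev (nat_lit 656) (nat_lit 18014948265361408) .dd)))) (.br (nat_lit 12) (.br (nat_lit 10) (.ch
 (nat_lit 9) (.ev (nat_lit 656) (nat_lit 549755813888) (.ev (nat_lit 1028) (nat_lit 65536) (.ev (nat_lit 1037)
 (nat_lit 18014398509481984) .dd)))) (.ch (nat_lit 10) (.ev (nat_lit 656) (nat_lit 549755879424) (.ev (nat_lit
 669) (nat_lit 18014398509481984) .dd)))) (.br (nat_lit 17) (.ch (nat_lit 12) (.ev (nat_lit 656) (nat_lit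
 65536) (.ev (nat_lit 672) (nat_lit 549755813888) (.ev (nat_lit 685) (nat_lit 18014398509481984) .dd)))) (.ch
 (nat_lit 17) (.ev (nat_lit 656) (nat_lit 18014948265361408) .dd))))) (.br (nat_lit 28) (.br (nat_lit 26) (.br
 (nat_lit 22) (.ch (nat_lit 20) (.ev (nat_lit 656) (nat_lit 65536) (.ev (nat_lit 708) (nat_lit
 18014398509481984) (.ev (nat_lit 717) (nat_lit 549755813888) .dd)))) (.ch (nat_lit 22) (.ev (nat_lit 656)
 (nat_lit 18014948265361408) .dd))) (.br (nat_lit 27) (.ch (nat_lit 26) (.ev (nat_lit 656) (nat_lit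
 18014948265361408) .dd)) (.ch (nat_lit 27) (.ev (nat_lit 656) (nat_lit 18014948265361408) .dd)))) (.br
 (nat_lit 38) (.br (nat_lit 29) (.ch (nat_lit 28) (.ev (nat_lit 656) (nat_lit 18014398509481984) (.fin (nat_lit
 576500884526547528)))) (.ch (nat_lit 29) (.ev (nat_lit 656) (nat_lit 18014948265361408) .dd))) (.br (nat_lit
 40) (.ch (nat_lit 38) (.ev (nat_lit 656) (nat_lit 549755879424) (.ev (nat_lit 669) (nat_lit 18014398509481984)
 .dd))) (.br (nat_lit 41) (.ch (nat_lit 40) (.ev (nat_lit 656) (nat_lit 18014948265295872) (.ev (nat_lit 669)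
 (nat_lit 65536) .dd))) (.ch (nat_lit 41) (.ev (nat_lit 656) (nat_lit 18014948265295872) (.ev (nat_lit 669)
 (nat_lit 65536) .dd))))))))))))))) (.br (nat_lit 29) (.ch (nat_lit 28) (.ev (nat_lit 52) (nat_lit
 147880760606885679360) (.ev (nat_lit 84) (nat_lit 1196818406834176) (.ev (nat_lit 116) (nat_lit
 41505174165846491136) (.ev (nat_lit 180) (nat_lit 65536) (.ev (nat_lit 212) (nat_lit 140737488355328) (.nd
 (nat_lit 640) (.br (nat_lit 12) (.br (nat_lit 3) (.br (nat_lit 1) (.ch (nat_lit 0) (.ev (nat_lit 656) (nat_lit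
 68736253952) (.ev (nat_lit 800) (nat_lit 8) (.ev (nat_lit 813) (nat_lit 32768) .dd)))) (.br (nat_lit 2) (.ch
 (nat_lit 1) (.ev (nat_lit 656) (nat_lit 68736253952) (.ev (nat_lit 720) (nat_lit 32776) .dd))) (.ch (nat_lit
 2) (.ev (nat_lit 656) (nat_lit 32776) (.ev (nat_lit 976) (nat_lit 16777216) (.ev (nat_lit 989) (nat_lit
 68719476736) .dd)))))) (.br (nat_lit 5) (.ch (nat_lit 3) (.ev (nat_lit 656) (nat_lit 68736286728) .dd)) (.br
 (nat_lit 8) (.ch (nat_lit 5) (.ev (nat_lit 656) (nat_lit 68719509512) (.ev (nat_lit 669) (nat_lit 16777216)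
 .dd))) (.ch (nat_lit 8) (.ev (nat_lit 656) (nat_lit 68719509512) (.ev (nat_lit 669) (nat_lit 16777216)
 .dd)))))) (.br (nat_lit 30) (.br (nat_lit 17) (.ch (nat_lit 12) (.ev (nat_lit 656) (nat_lit 32768) (.ev
 (nat_lit 768) (nat_lit 16777216) (.ev (nat_lit 1028) (nat_lit 8) (.ev (nat_lit 1037) (nat_lit 68719476736)
 .dd))))) (.br (nat_lit 27) (.ch (nat_lit 17) (.ev (nat_lit 656) (nat_lit 68736286728) .dd)) (.ch (nat_lit 27)
 (.ev (nat_lit 656) (nat_lit 68736286728) .dd)))) (.br (nat_lit 34) (.ch (nat_lit 30) (.ev (nat_lit 656)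
 (nat_lit 68736286728) .dd)) (.br (nat_lit 40) (.ch (nat_lit 34) (.ev (nat_lit 656) (nat_lit 68736286720) (.ev
 (nat_lit 669) (nat_lit 8) .dd))) (.ch (nat_lit 40) (.ev (nat_lit 656) (nat_lit 68736286728) .dd)))))))))))))
 (.ch (nat_lit 29) (.ev (nat_lit 52) (nat_lit 4901605588573622280) (.ev (nat_lit 84) (nat_lit
 147573952589676478464) (.ev (nat_lit 148) (nat_lit 549755813888) (.ev (nat_lit 180) (nat_lit 16777472) (.nd
 (nat_lit 640) (.br (nat_lit 22) (.br (nat_lit 6) (.br (nat_lit 1) (.ch (nat_lit 0) (.ev (nat_lit 656) (nat_lit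
 36911713669340987392) (.ev (nat_lit 669) (nat_lit 32768) .dd))) (.br (nat_lit 3) (.ch (nat_lit 1) (.ev
 (nat_lit 656) (nat_lit 18084784433561600) (.ev (nat_lit 1028) (nat_lit 140737488355328) (.ev (nat_lit 1037)
 (nat_lit 36893488147419103232) .dd)))) (.ch (nat_lit 3) (.ev (nat_lit 656) (nat_lit 36911713669341020160)
 .dd)))) (.br (nat_lit 13) (.ch (nat_lit 6) (.ev (nat_lit 656) (nat_lit 36911713652161150976) (.ev (nat_lit
 669) (nat_lit 17179869184) .dd))) (.br (nat_lit 17) (.ch (nat_lit 13) (.ev (nat_lit 656) (nat_lit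
 211123412434944) (.fin (nat_lit 576355748907795040)))) (.ch (nat_lit 17) (.ev (nat_lit 656) (nat_lit
 36911502545928617984) (.ev (nat_lit 708) (nat_lit 70385924046848) (.ev (nat_lit 717) (nat_lit 140737488355328)
 .dd))))))) (.br (nat_lit 28) (.br (nat_lit 24) (.ch (nat_lit 22) (.ev (nat_lit 656) (nat_lit
 36911713652161150976) (.ev (nat_lit 669) (nat_lit 17179869184) .dd))) (.br (nat_lit 27) (.ch (nat_lit 24) (.ev
 (nat_lit 656) (nat_lit 36911713669341020160) .dd)) (.ch (nat_lit 27) (.ev (nat_lit 656) (nat_lit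
 18225521921916928) (.ev (nat_lit 669) (nat_lit 36893488147419103232) .dd))))) (.br (nat_lit 38) (.ch (nat_lit
 28) (.ev (nat_lit 656) (nat_lit 36911713669341020160) .dd)) (.br (nat_lit 41) (.ch (nat_lit 38) (.ev (nat_lit
 656) (nat_lit 36911713669341020160) .dd)) (.ch (nat_lit 41) (.ev (nat_lit 656) (nat_lit 36893628902087360512)
 (.ev (nat_lit 708) (nat_lit 18014398509481984) (.ev (nat_lit 717) (nat_lit 70368744177664)
 .dd))))))))))))))))))) (.br (nat_lit 42) (.br (nat_lit 38) (.br (nat_lit 36) (.br (nat_lit 33) (.ch (nat_lit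
 31) (.ev (nat_lit 52) (nat_lit 36912840445421162752) (.ev (nat_lit 84) (nat_lit 562949953454080) (.ev (nat_lit
 116) (nat_lit 288230376151711744) (.ev (nat_lit 192) (nat_lit 152185638625837383688) .dd))))) (.ch (nat_lit
 33) (.ev (nat_lit 52) (nat_lit 152185639449934168320) (.ev (nat_lit 84) (nat_lit 32768) (.ev (nat_lit 116)
 (nat_lit 68719542272) (.ev (nat_lit 148) (nat_lit 8) (.ev (nat_lit 180) (nat_lit 36894614047325945856) (.ev
 (nat_lit 244) (nat_lit 18014398509481984) (.nd (nat_lit 640) (.br (nat_lit 26) (.br (nat_lit 12) (.br (nat_lit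
 3) (.ch (nat_lit 1) (.ev (nat_lit 656) (nat_lit 289004432337670144) (.ev (nat_lit 669) (nat_lit 536870912)
 .dd))) (.br (nat_lit 10) (.ch (nat_lit 3) (.ev (nat_lit 656) (nat_lit 288863695386185728) (.ev (nat_lit 669)
 (nat_lit 140737488355328) .dd))) (.ch (nat_lit 10) (.ev (nat_lit 656) (nat_lit 289004432874541056) .dd))))
 (.br (nat_lit 22) (.ch (nat_lit 12) (.ev (nat_lit 656) (nat_lit 288441482921119744) (.ev (nat_lit 669)
 (nat_lit 562949953421312) .dd))) (.br (nat_lit 24) (.ch (nat_lit 22) (.ev (nat_lit 656) (nat_lit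
 774056185954304) (.ev (nat_lit 912) (nat_lit 4096) (.ev (nat_lit 976) (nat_lit 536870912) (.ev (nat_lit 989)
 (nat_lit 288230376151711744) .dd))))) (.ch (nat_lit 24) (.ev (nat_lit 656) (nat_lit 288230376688586752) (.ev
 (nat_lit 708) (nat_lit 703687441776640) (.ev (nat_lit 717) (nat_lit 70368744177664) .dd))))))) (.br (nat_lit
 29) (.br (nat_lit 27) (.ch (nat_lit 26) (.ev (nat_lit 656) (nat_lit 289004432874536960) (.ev (nat_lit 669)
 (nat_lit 4096) .dd))) (.br (nat_lit 28) (.ch (nat_lit 27) (.ev (nat_lit 656) (nat_lit 289004432874541056)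
 .dd)) (.ch (nat_lit 28) (.ev (nat_lit 656) (nat_lit 703687978651648) (.ev (nat_lit 672) (nat_lit
 288230376151711744) (.ev (nat_lit 685) (nat_lit 70368744177664) .dd)))))) (.br (nat_lit 31) (.br (nat_lit 30)
 (.ch (nat_lit 29) (.ev (nat_lit 656) (nat_lit 288793326642003968) (.ev (nat_lit 708) (nat_lit 211106232532992)
 (.ev (nat_lit 717) (nat_lit 4096) .dd)))) (.ch (nat_lit 30) (.ev (nat_lit 656) (nat_lit 211106769408000) (.ev
 (nat_lit 784) (nat_lit 562949953421312) (.ev (nat_lit 797) (nat_lit 288230376151711744) .dd))))) (.br (nat_lit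
 41) (.ch (nat_lit 31) (.ev (nat_lit 656) (nat_lit 703687978651648) (.ev (nat_lit 708) (nat_lit 70368744177664)
 (.ev (nat_lit 717) (nat_lit 288230376151711744) .dd)))) (.ch (nat_lit 41) (.ev (nat_lit 656) (nat_lit
 774056722829312) (.ev (nat_lit 669) (nat_lit 288230376151711744) .dd)))))))))))))))) (.br (nat_lit 37) (.ch
 (nat_lit 36) (.ev (nat_lit 52) (nat_lit 147591967882092773376) (.ev (nat_lit 96) (nat_lit
 41795304515270938888) .dd))) (.ch (nat_lit 37) (.ev (nat_lit 52) (nat_lit 152186342914020933632) (.ev (nat_lit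
 84) (nat_lit 16777216) (.ev (nat_lit 116) (nat_lit 274877911040) (.ev (nat_lit 148) (nat_lit
 288300744895889408) (.ev (nat_lit 180) (nat_lit 32768) (.ev (nat_lit 212) (nat_lit 36893488147419103232) (.nd
 (nat_lit 640) (.br (nat_lit 12) (.br (nat_lit 6) (.br (nat_lit 2) (.ch (nat_lit 1) (.ev (nat_lit 656) (nat_lit
 19140316133064960) (.ev (nat_lit 669) (nat_lit 8) .dd))) (.br (nat_lit 5) (.ch (nat_lit 2) (.ev (nat_lit 656)
 (nat_lit 19140316133064712) (.ev (nat_lit 669) (nat_lit 256) .dd))) (.ch (nat_lit 5) (.ev (nat_lit 656)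
 (nat_lit 19140316133064968) .dd)))) (.br (nat_lit 9) (.ch (nat_lit 6) (.ev (nat_lit 656) (nat_lit
 18014399046352904) (.ev (nat_lit 708) (nat_lit 256) (.fin (nat_lit 576346952898658888))))) (.br (nat_lit 10)
 (.ch (nat_lit 9) (.ev (nat_lit 656) (nat_lit 1125900443713800) (.ev (nat_lit 708) (nat_lit 18014398509481984)
 (.ev (nat_lit 717) (nat_lit 17179869184) .dd)))) (.ch (nat_lit 10) (.ev (nat_lit 656) (nat_lit
 18014399046352896) (.ev (nat_lit 708) (nat_lit 1125899906842624) (.ev (nat_lit 1008) (nat_lit 8) (.ev (nat_lit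
 1060) (nat_lit 256) (.ev (nat_lit 1069) (nat_lit 17179869184) .dd))))))))) (.br (nat_lit 27) (.br (nat_lit 13)
 (.ch (nat_lit 12) (.ev (nat_lit 656) (nat_lit 17716740360) (.ev (nat_lit 736) (nat_lit 18014398509481984) (.ev
 (nat_lit 749) (nat_lit 1125899906842624) .dd)))) (.br (nat_lit 24) (.ch (nat_lit 13) (.ev (nat_lit 656)
 (nat_lit 19140316133064968) .dd)) (.ch (nat_lit 24) (.ev (nat_lit 656) (nat_lit 19140298416324616) (.ev
 (nat_lit 992) (nat_lit 536870912) (.ev (nat_lit 1028) (nat_lit 17179869184) (.ev (nat_lit 1037) (nat_lit 256)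
 .dd))))))) (.br (nat_lit 40) (.br (nat_lit 30) (.ch (nat_lit 27) (.ev (nat_lit 656) (nat_lit
 19140298953195528) (.ev (nat_lit 1028) (nat_lit 17179869184) (.ev (nat_lit 1037) (nat_lit 256) .dd)))) (.ch
 (nat_lit 30) (.ev (nat_lit 656) (nat_lit 19140316133064960) (.ev (nat_lit 669) (nat_lit 8) .dd)))) (.br
 (nat_lit 41) (.ch (nat_lit 40) (.ev (nat_lit 656) (nat_lit 19140315596194056) (.ev (nat_lit 669) (nat_lit
 536870912) .dd))) (.ch (nat_lit 41) (.ev (nat_lit 656) (nat_lit 1125900443713544) (.ev (nat_lit 1028) (nat_lit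
 18014415689351168) (.ev (nat_lit 1037) (nat_lit 256) .dd)))))))))))))))))) (.br (nat_lit 40) (.br (nat_lit 39)
 (.ch (nat_lit 38) (.ev (nat_lit 52) (nat_lit 18718910584979712) (.ev (nat_lit 116) (nat_lit 4096) (.ev
 (nat_lit 148) (nat_lit 68719509504) (.ev (nat_lit 180) (nat_lit 8) (.ev (nat_lit 212) (nat_lit
 1125899906842624) (.ev (nat_lit 244) (nat_lit 70368744177664) (.nd (nat_lit 640) (.br (nat_lit 20) (.br
 (nat_lit 6) (.br (nat_lit 1) (.ch (nat_lit 0) (.ev (nat_lit 656) (nat_lit 37181718541287620608) (.ev (nat_lit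
 720) (nat_lit 147573952589676412928) (.ev (nat_lit 912) (nat_lit 4611686018427387904) (.ev (nat_lit 925)
 (nat_lit 16777216) .dd))))) (.br (nat_lit 2) (.ch (nat_lit 1) (.ev (nat_lit 656) (nat_lit
 152473869001989095424) (.ev (nat_lit 669) (nat_lit 36893488147419103232) .dd))) (.ch (nat_lit 2) (.ev (nat_lit
 656) (nat_lit 189367357149391421440) (.ev (nat_lit 669) (nat_lit 16777216) .dd))))) (.br (nat_lit 9) (.ch
 (nat_lit 6) (.ev (nat_lit 656) (nat_lit 184755671130443939840) (.ev (nat_lit 928) (nat_lit 536870912) (.ev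
 (nat_lit 941) (nat_lit 4611686018427387904) .dd)))) (.br (nat_lit 17) (.ch (nat_lit 9) (.ev (nat_lit 656)
 (nat_lit 189367357131674681344) (.ev (nat_lit 672) (nat_lit 16777216) (.ev (nat_lit 720) (nat_lit 536870912)
 (.ev (nat_lit 733) (nat_lit 17179869184) .dd))))) (.ch (nat_lit 17) (.ev (nat_lit 656) (nat_lit
 152473869001989095424) (.ev (nat_lit 669) (nat_lit 36893488147419103232) .dd)))))) (.br (nat_lit 29) (.br
 (nat_lit 22) (.ch (nat_lit 20) (.ev (nat_lit 656) (nat_lit 4611686036160970752) (.ev (nat_lit 736) (nat_lit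
 147573952589676412928) (.ev (nat_lit 832) (nat_lit 288230376151711744) (.ev (nat_lit 845) (nat_lit
 36893488147419103232) .dd))))) (.br (nat_lit 24) (.ch (nat_lit 22) (.ev (nat_lit 656) (nat_lit
 189367357148854550528) (.ev (nat_lit 708) (nat_lit 16777216) (.ev (nat_lit 717) (nat_lit 536870912) .dd))))
 (.ch (nat_lit 24) (.ev (nat_lit 656) (nat_lit 41793404559178137600) (.ev (nat_lit 672) (nat_lit
 147573952589676412928) (.ev (nat_lit 736) (nat_lit 536870912) (.ev (nat_lit 749) (nat_lit 16777216) .dd)))))))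
 (.br (nat_lit 31) (.br (nat_lit 30) (.ch (nat_lit 29) (.ev (nat_lit 656) (nat_lit 189079126773256486912) (.ev
 (nat_lit 669) (nat_lit 288230376151711744) .dd))) (.ch (nat_lit 30) (.ev (nat_lit 656) (nat_lit
 189079126756076552192) (.ev (nat_lit 848) (nat_lit 17179869184) (.ev (nat_lit 960) (nat_lit
 288230376151777280) .dd))))) (.br (nat_lit 41) (.ch (nat_lit 31) (.ev (nat_lit 656) (nat_lit
 189367357149408198656) .dd)) (.ch (nat_lit 41) (.ev (nat_lit 656) (nat_lit 4611686036160970752) (.ev (nat_lit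
 708) (nat_lit 147862182965828124672) (.ev (nat_lit 717) (nat_lit 36893488147419103232) .dd))))))))))))))))
 (.ch (nat_lit 39) (.ev (nat_lit 52) (nat_lit 184757430882144354560) (.ev (nat_lit 84) (nat_lit
 4629700416936869888) (.ev (nat_lit 148) (nat_lit 141029546201088) (.nd (nat_lit 640) (.br (nat_lit 26) (.br
 (nat_lit 9) (.br (nat_lit 1) (.ch (nat_lit 0) (.ev (nat_lit 656) (nat_lit 68736286728) .dd)) (.br (nat_lit 2)
 (.ch (nat_lit 1) (.ev (nat_lit 656) (nat_lit 68719476744) (.ev (nat_lit 1028) (nat_lit 32768) (.ev (nat_lit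
 1037) (nat_lit 16777216) .dd)))) (.ch (nat_lit 2) (.ev (nat_lit 656) (nat_lit 32776) (.ev (nat_lit 708)
 (nat_lit 68719476736) (.ev (nat_lit 717) (nat_lit 16777216) .dd)))))) (.br (nat_lit 10) (.ch (nat_lit 9) (.ev
 (nat_lit 656) (nat_lit 68736286728) .dd)) (.br (nat_lit 12) (.ch (nat_lit 10) (.ev (nat_lit 656) (nat_lit
 68736286720) (.ev (nat_lit 669) (nat_lit 8) .dd))) (.ch (nat_lit 12) (.ev (nat_lit 656) (nat_lit 68736286720)
 (.ev (nat_lit 669) (nat_lit 8) .dd)))))) (.br (nat_lit 30) (.br (nat_lit 27) (.ch (nat_lit 26) (.ev (nat_lit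
 656) (nat_lit 68736286720) (.ev (nat_lit 669) (nat_lit 8) .dd))) (.br (nat_lit 28) (.ch (nat_lit 27) (.ev
 (nat_lit 656) (nat_lit 16809992) (.ev (nat_lit 669) (nat_lit 68719476736) .dd))) (.ch (nat_lit 28) (.ev
 (nat_lit 656) (nat_lit 68736286728) .dd)))) (.br (nat_lit 31) (.ch (nat_lit 30) (.ev (nat_lit 656) (nat_lit
 68736286728) .dd)) (.br (nat_lit 38) (.ch (nat_lit 31) (.ev (nat_lit 656) (nat_lit 68736253960) (.ev (nat_lit
 669) (nat_lit 32768) .dd))) (.ch (nat_lit 38) (.ev (nat_lit 656) (nat_lit 68736253960) (.ev (nat_lit 669)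
 (nat_lit 32768) .dd))))))))))))) (.br (nat_lit 41) (.ch (nat_lit 40) (.ev (nat_lit 52) (nat_lit
 147862957039194013952) (.ev (nat_lit 84) (nat_lit 18014398509481992) (.ev (nat_lit 148) (nat_lit 274877939712)
 (.ev (nat_lit 180) (nat_lit 4096) (.ev (nat_lit 192) (nat_lit 41506300684782272512) .dd)))))) (.ch (nat_lit
 41) (.ev (nat_lit 52) (nat_lit 4901253675613192200) (.ev (nat_lit 116) (nat_lit 147573952658395889664) (.ev
 (nat_lit 160) (nat_lit 36912066063354630400) .dd))))))) (.br (nat_lit 47) (.br (nat_lit 44) (.br (nat_lit 43)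
 (.ch (nat_lit 42) (.ev (nat_lit 52) (nat_lit 189079198017637056512) (.ev (nat_lit 84) (nat_lit 17179873280)
 (.ev (nat_lit 116) (nat_lit 18014398509481984) (.ev (nat_lit 160) (nat_lit 290059964037300488) .dd))))) (.ch
 (nat_lit 43) (.ev (nat_lit 52) (nat_lit 184774812236314149120) (.ev (nat_lit 84) (nat_lit 4612248968380809216)
 (.ev (nat_lit 116) (nat_lit 536870920) (.ev (nat_lit 212) (nat_lit 70368744177664) (.ev (nat_lit 288) (nat_lit
 140823387705344) .dd))))))) (.br (nat_lit 46) (.ch (nat_lit 44) (.ev (nat_lit 52) (nat_lit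
 4612882837387874568) (.ev (nat_lit 84) (nat_lit 563293550870528) (.ev (nat_lit 116) (nat_lit
 147573952589676412928) (.nd (nat_lit 640) (.br (nat_lit 20) (.br (nat_lit 8) (.br (nat_lit 5) (.ch (nat_lit 2)
 (.ev (nat_lit 656) (nat_lit 37199873676748554240) .dd)) (.br (nat_lit 6) (.ch (nat_lit 5) (.ev (nat_lit 656)
 (nat_lit 37181859278239072256) (.ev (nat_lit 669) (nat_lit 18014398509481984) .dd))) (.ch (nat_lit 6) (.ev
 (nat_lit 656) (nat_lit 306385529329451008) (.ev (nat_lit 669) (nat_lit 36893488147419103232) .dd))))) (.br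
 (nat_lit 9) (.ch (nat_lit 8) (.ev (nat_lit 656) (nat_lit 37181859278239072256) (.ev (nat_lit 669) (nat_lit
 18014398509481984) .dd))) (.br (nat_lit 17) (.ch (nat_lit 9) (.ev (nat_lit 656) (nat_lit 37181859278239039488)
 (.ev (nat_lit 708) (nat_lit 18014398509481984) (.ev (nat_lit 717) (nat_lit 32768) .dd)))) (.ch (nat_lit 17)
 (.ev (nat_lit 656) (nat_lit 306244774661226496) (.ev (nat_lit 708) (nat_lit 36893628884907458560) (.ev
 (nat_lit 717) (nat_lit 17179869184) .dd))))))) (.br (nat_lit 26) (.br (nat_lit 22) (.ch (nat_lit 20) (.ev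
 (nat_lit 656) (nat_lit 37181859278239072256) (.ev (nat_lit 669) (nat_lit 18014398509481984) .dd))) (.br
 (nat_lit 24) (.ch (nat_lit 22) (.ev (nat_lit 656) (nat_lit 36911643300596842496) (.ev (nat_lit 669) (nat_lit
 288230376151711744) .dd))) (.ch (nat_lit 24) (.ev (nat_lit 656) (nat_lit 37199873659568685056) (.ev (nat_lit
 669) (nat_lit 17179869184) .dd))))) (.br (nat_lit 31) (.br (nat_lit 27) (.ch (nat_lit 26) (.ev (nat_lit 656)
 (nat_lit 37199873659568685056) (.ev (nat_lit 669) (nat_lit 17179869184) .dd))) (.ch (nat_lit 27) (.ev (nat_lit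
 656) (nat_lit 18155153177739264) (.ev (nat_lit 1028) (nat_lit 36893488147419103232) (.ev (nat_lit 1037)
 (nat_lit 288230376151711744) .dd))))) (.br (nat_lit 41) (.ch (nat_lit 31) (.ev (nat_lit 656) (nat_lit
 37199873676748554240) .dd)) (.ch (nat_lit 41) (.ev (nat_lit 656) (nat_lit 18155153177739264) (.ev (nat_lit
 1028) (nat_lit 36893488147419103232) (.ev (nat_lit 1037) (nat_lit 288230376151711744) .dd))))))))))))) (.ch
 (nat_lit 46) (.ev (nat_lit 52) (nat_lit 184775585537122664448) (.ev (nat_lit 84) (nat_lit 17179869184) (.ev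
 (nat_lit 116) (nat_lit 256) (.ev (nat_lit 256) (nat_lit 4611686843061178376) .dd))))))) (.br (nat_lit 49) (.br
 (nat_lit 48) (.ch (nat_lit 47) (.ev (nat_lit 52) (nat_lit 36895177083195523080) (.ev (nat_lit 84) (nat_lit
 288230925907525632) (.ev (nat_lit 116) (nat_lit 147573952589676417024) (.ev (nat_lit 148) (nat_lit
 18014398509481984) (.ev (nat_lit 276) (nat_lit 140737488355328) (.nd (nat_lit 640) (.br (nat_lit 27) (.br
 (nat_lit 9) (.br (nat_lit 6) (.ch (nat_lit 0) (.ev (nat_lit 656) (nat_lit 70369281114368) (.ev (nat_lit 708)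
 (nat_lit 4611686018427387904) (.ev (nat_lit 717) (nat_lit 274877906944) .dd)))) (.br (nat_lit 8) (.ch (nat_lit
 6) (.ev (nat_lit 656) (nat_lit 70643622150400) (.ev (nat_lit 708) (nat_lit 536870912) (.ev (nat_lit 717)
 (nat_lit 4611686018427387904) .dd)))) (.ch (nat_lit 8) (.ev (nat_lit 656) (nat_lit 70643622150400) (.ev
 (nat_lit 708) (nat_lit 536870912) (.ev (nat_lit 717) (nat_lit 4611686018427387904) .dd)))))) (.br (nat_lit 13)
 (.br (nat_lit 10) (.ch (nat_lit 9) (.ev (nat_lit 656) (nat_lit 70643622150400) (.ev (nat_lit 708) (nat_lit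
 536870912) (.ev (nat_lit 717) (nat_lit 4611686018427387904) .dd)))) (.ch (nat_lit 10) (.ev (nat_lit 656)
 (nat_lit 4611756662586409216) .dd))) (.br (nat_lit 20) (.ch (nat_lit 13) (.ev (nat_lit 656) (nat_lit
 4611756387708502272) (.ev (nat_lit 669) (nat_lit 274877906944) .dd))) (.ch (nat_lit 20) (.ev (nat_lit 656)
 (nat_lit 4611756662586409216) .dd))))) (.br (nat_lit 34) (.br (nat_lit 28) (.ch (nat_lit 27) (.ev (nat_lit
 656) (nat_lit 70643622150400) (.ev (nat_lit 708) (nat_lit 536870912) (.ev (nat_lit 717) (nat_lit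
 4611686018427387904) .dd)))) (.br (nat_lit 29) (.ch (nat_lit 28) (.ev (nat_lit 656) (nat_lit
 4611756662586409216) .dd)) (.ch (nat_lit 29) (.ev (nat_lit 656) (nat_lit 4611686293842166016) (.ev (nat_lit
 708) (nat_lit 70368744177664) (.ev (nat_lit 717) (nat_lit 65536) .dd)))))) (.br (nat_lit 40) (.br (nat_lit 38)
 (.ch (nat_lit 34) (.ev (nat_lit 656) (nat_lit 4611756662586409216) .dd)) (.ch (nat_lit 38) (.ev (nat_lit 656)
 (nat_lit 4611756387708502016) (.ev (nat_lit 672) (nat_lit 256) (.ev (nat_lit 685) (nat_lit 274877906944)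
 .dd))))) (.br (nat_lit 41) (.ch (nat_lit 40) (.ev (nat_lit 656) (nat_lit 70643622150400) (.ev (nat_lit 1028)
 (nat_lit 4611686018427387904) (.ev (nat_lit 1037) (nat_lit 536870912) .dd)))) (.ch (nat_lit 41) (.ev (nat_lit
 656) (nat_lit 4611756387708436736) (.ev (nat_lit 736) (nat_lit 274877972480) .dd)))))))))))))) (.ch (nat_lit
 48) (.ev (nat_lit 52) (nat_lit 184467581767195332616) (.ev (nat_lit 116) (nat_lit 65536) (.ev (nat_lit 148)
 (nat_lit 256) (.nd (nat_lit 640) (.br (nat_lit 20) (.br (nat_lit 5) (.br (nat_lit 1) (.ch (nat_lit 0) (.ev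
 (nat_lit 656) (nat_lit 306878162078269440) (.ev (nat_lit 708) (nat_lit 4611686568183201792) (.ev (nat_lit 717)
 (nat_lit 1125899906842624) .dd)))) (.br (nat_lit 3) (.ch (nat_lit 1) (.ev (nat_lit 656) (nat_lit
 4919690630168313856) .dd)) (.ch (nat_lit 3) (.ev (nat_lit 656) (nat_lit 4919127061739601920) (.ev (nat_lit
 736) (nat_lit 562949953421312) (.ev (nat_lit 1028) (nat_lit 68719476736) (.ev (nat_lit 1037) (nat_lit
 549755813888) .dd))))))) (.br (nat_lit 10) (.br (nat_lit 9) (.ch (nat_lit 5) (.ev (nat_lit 656) (nat_lit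
 307441112031690752) (.ev (nat_lit 708) (nat_lit 549755813888) (.ev (nat_lit 752) (nat_lit 4611686018427387904)
 (.ev (nat_lit 765) (nat_lit 562949953421312) .dd))))) (.ch (nat_lit 9) (.ev (nat_lit 656) (nat_lit
 289990213231443968) (.ev (nat_lit 736) (nat_lit 4611686018427387904) (.ev (nat_lit 749) (nat_lit
 18014398509481984) .dd))))) (.br (nat_lit 12) (.ch (nat_lit 10) (.ev (nat_lit 656) (nat_lit
 4613445855507120128) (.ev (nat_lit 864) (nat_lit 288230376151711744) (.ev (nat_lit 877) (nat_lit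
 18014398509481984) .dd)))) (.ch (nat_lit 12) (.ev (nat_lit 656) (nat_lit 4919127061739601920) (.ev (nat_lit
 708) (nat_lit 562949953421312) (.ev (nat_lit 1028) (nat_lit 68719476736) (.ev (nat_lit 1037) (nat_lit
 549755813888) .dd)))))))) (.br (nat_lit 29) (.br (nat_lit 22) (.ch (nat_lit 20) (.ev (nat_lit 656) (nat_lit
 4919127130459078656) (.ev (nat_lit 720) (nat_lit 562949953421312) (.ev (nat_lit 733) (nat_lit 549755813888)
 .dd)))) (.br (nat_lit 28) (.ch (nat_lit 22) (.ev (nat_lit 656) (nat_lit 308004611740925952) (.ev (nat_lit 669)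
 (nat_lit 4611686018427387904) .dd))) (.ch (nat_lit 28) (.ev (nat_lit 656) (nat_lit 4630263916646105088) (.ev
 (nat_lit 708) (nat_lit 1196268651020288) (.ev (nat_lit 848) (nat_lit 288230444871188480) .dd)))))) (.br
 (nat_lit 31) (.br (nat_lit 30) (.ch (nat_lit 29) (.ev (nat_lit 656) (nat_lit 4919690630168313856) .dd)) (.ch
 (nat_lit 30) (.ev (nat_lit 656) (nat_lit 4919127130459078656) (.ev (nat_lit 708) (nat_lit 549755813888) (.ev
 (nat_lit 717) (nat_lit 562949953421312) .dd))))) (.br (nat_lit 34) (.ch (nat_lit 31) (.ev (nat_lit 656)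
 (nat_lit 4919690630168313856) .dd)) (.ch (nat_lit 34) (.ev (nat_lit 656) (nat_lit 4919690630168313856)
 .dd)))))))))))) (.br (nat_lit 50) (.ch (nat_lit 49) (.ev (nat_lit 52) (nat_lit 152186201626776764416) (.ev
 (nat_lit 64) (nat_lit 37201070770586947848) .dd))) (.br (nat_lit 52) (.ch (nat_lit 50) (.ev (nat_lit 52)
 (nat_lit 306948530839289856) (.ev (nat_lit 84) (nat_lit 152185638608103800832) (.ev (nat_lit 116) (nat_lit
 32768) (.ev (nat_lit 148) (nat_lit 549755813888) (.ev (nat_lit 244) (nat_lit 70643622084608) (.ev (nat_lit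
 340) (nat_lit 8) (.nd (nat_lit 640) (.br (nat_lit 17) (.br (nat_lit 6) (.br (nat_lit 2) (.ch (nat_lit 1) (.ev
 (nat_lit 656) (nat_lit 1125917086716160) (.ev (nat_lit 672) (nat_lit 36893488147419103232) (.ev (nat_lit 685)
 (nat_lit 536870912) .dd)))) (.br (nat_lit 5) (.ch (nat_lit 2) (.ev (nat_lit 656) (nat_lit
 36894614065042690304) .dd)) (.ch (nat_lit 5) (.ev (nat_lit 656) (nat_lit 36894614065042690304) .dd)))) (.br
 (nat_lit 8) (.ch (nat_lit 6) (.ev (nat_lit 656) (nat_lit 36893488147955978496) (.fin (nat_lit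
 576346952898658888)))) (.br (nat_lit 9) (.ch (nat_lit 8) (.ev (nat_lit 656) (nat_lit 36894614064505819392)
 (.ev (nat_lit 669) (nat_lit 536870912) .dd))) (.ch (nat_lit 9) (.ev (nat_lit 656) (nat_lit
 36893488165135847680) (.ev (nat_lit 669) (nat_lit 1125899906842624) .dd)))))) (.br (nat_lit 34) (.br (nat_lit
 22) (.ch (nat_lit 17) (.ev (nat_lit 656) (nat_lit 36894614047862821120) (.ev (nat_lit 669) (nat_lit
 17179869184) .dd))) (.br (nat_lit 28) (.ch (nat_lit 22) (.ev (nat_lit 656) (nat_lit 36894614064505815296) (.ev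
 (nat_lit 752) (nat_lit 4096) (.ev (nat_lit 765) (nat_lit 536870912) .dd)))) (.ch (nat_lit 28) (.ev (nat_lit
 656) (nat_lit 17179873536) (.ev (nat_lit 752) (nat_lit 1125899906842624) (.ev (nat_lit 800) (nat_lit
 536870912) (.ev (nat_lit 813) (nat_lit 36893488147419103232) .dd))))))) (.br (nat_lit 38) (.ch (nat_lit 34)
 (.ev (nat_lit 656) (nat_lit 36894614065042690304) .dd)) (.br (nat_lit 40) (.ch (nat_lit 38) (.ev (nat_lit 656)
 (nat_lit 36894614065042690048) (.ev (nat_lit 669) (nat_lit 256) .dd))) (.ch (nat_lit 40) (.ev (nat_lit 656)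
 (nat_lit 36894614065042690304) .dd)))))))))))))) (.ch (nat_lit 52) (.ev (nat_lit 52) (nat_lit
 36894614614798569736) (.ev (nat_lit 84) (nat_lit 288793326105133056) (.ev (nat_lit 116) (nat_lit
 18155204717314048) (.ev (nat_lit 148) (nat_lit 147573952589693190144) (.ev (nat_lit 180) (nat_lit 32768) (.nd
 (nat_lit 640) (.br (nat_lit 26) (.br (nat_lit 13) (.br (nat_lit 5) (.ch (nat_lit 1) (.ev (nat_lit 656)
 (nat_lit 4611756662049472512) .dd)) (.br (nat_lit 8) (.ch (nat_lit 5) (.ev (nat_lit 656) (nat_lit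
 274877906944) (.ev (nat_lit 708) (nat_lit 70368744177664) (.ev (nat_lit 717) (nat_lit 4611686018427387904)
 .dd)))) (.ch (nat_lit 8) (.ev (nat_lit 656) (nat_lit 4611756387171565568) (.ev (nat_lit 669) (nat_lit
 274877906944) .dd))))) (.br (nat_lit 22) (.ch (nat_lit 13) (.ev (nat_lit 656) (nat_lit 4611756662049472512)
 .dd)) (.br (nat_lit 24) (.ch (nat_lit 22) (.ev (nat_lit 656) (nat_lit 4611756662049472512) .dd)) (.ch (nat_lit
 24) (.ev (nat_lit 656) (nat_lit 4611756662049472512) .dd))))) (.br (nat_lit 38) (.br (nat_lit 29) (.ch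
 (nat_lit 26) (.ev (nat_lit 656) (nat_lit 4611756662049472512) .dd)) (.br (nat_lit 34) (.ch (nat_lit 29) (.ev
 (nat_lit 656) (nat_lit 4611686018427387904) (.ev (nat_lit 708) (nat_lit 70368744177664) (.ev (nat_lit 717)
 (nat_lit 274877906944) .dd)))) (.ch (nat_lit 34) (.ev (nat_lit 656) (nat_lit 4611756387171565568) (.ev
 (nat_lit 669) (nat_lit 274877906944) .dd))))) (.br (nat_lit 40) (.ch (nat_lit 38) (.ev (nat_lit 656) (nat_lit
 4611756387171565568) (.ev (nat_lit 669) (nat_lit 274877906944) .dd))) (.br (nat_lit 41) (.ch (nat_lit 40) (.ev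
 (nat_lit 656) (nat_lit 4611756662049472512) .dd)) (.ch (nat_lit 41) (.ev (nat_lit 656) (nat_lit
 70643622084608) (.ev (nat_lit 669) (nat_lit 4611686018427387904) .dd))))))))))))))))))))))

/-- Subtrie. -/
noncomputable def T7 : Tr := (.ev (nat_lit 20) (nat_lit 2121522234877395861914) (.nd (nat_lit 33) (.br (nat_lit
 31) (.br (nat_lit 16) (.br (nat_lit 10) (.br (nat_lit 6) (.br (nat_lit 5) (.ch (nat_lit 4) (.ev (nat_lit 52)
 (nat_lit 288305719071997984) (.ev (nat_lit 64) (nat_lit 152250527386358618112) .dd))) (.ch (nat_lit 5) (.ev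
 (nat_lit 52) (nat_lit 45603902636265472) (.ev (nat_lit 84) (nat_lit 18014398509481984) (.ev (nat_lit 116)
 (nat_lit 288230376155906048) (.ev (nat_lit 148) (nat_lit 603979776) (.ev (nat_lit 180) (nat_lit
 70368752566272) (.ev (nat_lit 212) (nat_lit 17179869184) (.ev (nat_lit 244) (nat_lit 32) (.nd (nat_lit 640)
 (.br (nat_lit 31) (.br (nat_lit 12) (.br (nat_lit 8) (.ch (nat_lit 0) (.ev (nat_lit 656) (nat_lit
 152186914041592020992) (.ev (nat_lit 708) (nat_lit 524288) (.ev (nat_lit 717) (nat_lit 2048) .dd)))) (.br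
 (nat_lit 9) (.ch (nat_lit 8) (.ev (nat_lit 656) (nat_lit 152186764508011169792) (.ev (nat_lit 720) (nat_lit
 8796093022208) (.ev (nat_lit 733) (nat_lit 140737488355328) .dd)))) (.ch (nat_lit 9) (.ev (nat_lit 656)
 (nat_lit 4611835552009289728) (.ev (nat_lit 768) (nat_lit 147573952589676412928) (.ev (nat_lit 976) (nat_lit
 1125899906842624) (.ev (nat_lit 989) (nat_lit 2048) .dd))))))) (.br (nat_lit 13) (.ch (nat_lit 12) (.ev
 (nat_lit 656) (nat_lit 152186914041592023040) (.ev (nat_lit 669) (nat_lit 524288) .dd))) (.br (nat_lit 20)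
 (.ch (nat_lit 13) (.ev (nat_lit 656) (nat_lit 147575228023165159424) (.ev (nat_lit 669) (nat_lit
 4611686018427387904) .dd))) (.ch (nat_lit 20) (.ev (nat_lit 656) (nat_lit 147575078489583257600) (.ev (nat_lit
 708) (nat_lit 4611686018427387904) (.ev (nat_lit 816) (nat_lit 8796093022208) (.ev (nat_lit 928) (nat_lit
 140737488355328) (.ev (nat_lit 941) (nat_lit 524288) .dd))))))))) (.br (nat_lit 35) (.br (nat_lit 32) (.ch
 (nat_lit 31) (.ev (nat_lit 656) (nat_lit 152185788141685704704) (.ev (nat_lit 669) (nat_lit 1125899906842624)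
 .dd))) (.br (nat_lit 33) (.ch (nat_lit 32) (.ev (nat_lit 656) (nat_lit 147573961385769961472) (.ev (nat_lit
 672) (nat_lit 140737488355328) (.fin (nat_lit 576443709817045540))))) (.ch (nat_lit 33) (.ev (nat_lit 656)
 (nat_lit 4612820714427254784) (.ev (nat_lit 752) (nat_lit 140737488355328) (.ev (nat_lit 848) (nat_lit 524288)
 (.ev (nat_lit 861) (nat_lit 147573952589676412928) .dd))))))) (.br (nat_lit 40) (.br (nat_lit 38) (.ch
 (nat_lit 35) (.ev (nat_lit 656) (nat_lit 152186905245499525120) (.ev (nat_lit 669) (nat_lit 8796093022208)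
 .dd))) (.ch (nat_lit 38) (.ev (nat_lit 656) (nat_lit 152186914041592547328) .dd))) (.br (nat_lit 42) (.ch
 (nat_lit 40) (.ev (nat_lit 656) (nat_lit 4612961451916134400) (.ev (nat_lit 669) (nat_lit
 147573952589676412928) .dd))) (.ch (nat_lit 42) (.ev (nat_lit 656) (nat_lit 1275433488744448) (.ev (nat_lit
 708) (nat_lit 147573952589676412928) (.ev (nat_lit 1028) (nat_lit 4611686018427387904) (.ev (nat_lit 1037)
 (nat_lit 2048) .dd))))))))))))))))))) (.br (nat_lit 9) (.ch (nat_lit 6) (.ev (nat_lit 52) (nat_lit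
 147871195122020423680) (.ev (nat_lit 64) (nat_lit 4667637983410192416) .dd))) (.ch (nat_lit 9) (.ev (nat_lit
 52) (nat_lit 4676566550344404992) (.ev (nat_lit 116) (nat_lit 70385991157760) (.ev (nat_lit 148) (nat_lit
 4398046511104) (.ev (nat_lit 180) (nat_lit 147573952589676412928) (.ev (nat_lit 212) (nat_lit 8796093022208)
 (.nd (nat_lit 640) (.br (nat_lit 28) (.br (nat_lit 9) (.br (nat_lit 4) (.ch (nat_lit 0) (.ev (nat_lit 656)
 (nat_lit 9126805504) (.ev (nat_lit 768) (nat_lit 65536) (.ev (nat_lit 816) (nat_lit 288230376151711744) (.fin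
 (nat_lit 576465699997172200)))))) (.br (nat_lit 8) (.ch (nat_lit 4) (.ev (nat_lit 656) (nat_lit
 288230385279107104) .dd)) (.ch (nat_lit 8) (.ev (nat_lit 656) (nat_lit 537460768) (.ev (nat_lit 720) (nat_lit
 8589934592) (.ev (nat_lit 733) (nat_lit 288230376151711744) .dd)))))) (.br (nat_lit 13) (.br (nat_lit 11) (.ch
 (nat_lit 9) (.ev (nat_lit 656) (nat_lit 9126805536) (.ev (nat_lit 708) (nat_lit 288230376152236032) (.ev
 (nat_lit 717) (nat_lit 65536) .dd)))) (.ch (nat_lit 11) (.ev (nat_lit 656) (nat_lit 288230376151777312) (.ev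
 (nat_lit 720) (nat_lit 9126805504) (.ev (nat_lit 733) (nat_lit 524288) .dd))))) (.br (nat_lit 19) (.ch
 (nat_lit 13) (.ev (nat_lit 656) (nat_lit 288230376689172512) (.ev (nat_lit 669) (nat_lit 8589934592) .dd)))
 (.ch (nat_lit 19) (.ev (nat_lit 656) (nat_lit 288230385278517280) (.ev (nat_lit 708) (nat_lit 65536) (.ev
 (nat_lit 717) (nat_lit 524288) .dd))))))) (.br (nat_lit 32) (.br (nat_lit 29) (.ch (nat_lit 28) (.ev (nat_lit
 656) (nat_lit 288230376688582688) (.ev (nat_lit 708) (nat_lit 65536) (.ev (nat_lit 736) (nat_lit 8589934592)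
 (.ev (nat_lit 749) (nat_lit 524288) .dd))))) (.br (nat_lit 31) (.ch (nat_lit 29) (.ev (nat_lit 656) (nat_lit
 8590524448) (.ev (nat_lit 800) (nat_lit 536870912) (.ev (nat_lit 813) (nat_lit 288230376151711744) .dd))))
 (.ch (nat_lit 31) (.ev (nat_lit 656) (nat_lit 288230385279107072) (.ev (nat_lit 669) (nat_lit 32) .dd)))))
 (.br (nat_lit 35) (.br (nat_lit 33) (.ch (nat_lit 32) (.ev (nat_lit 656) (nat_lit 288230385279107104) .dd))
 (.ch (nat_lit 33) (.ev (nat_lit 656) (nat_lit 288230385279107104) .dd))) (.br (nat_lit 42) (.ch (nat_lit 35)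
 (.ev (nat_lit 656) (nat_lit 288230385278517248) (.ev (nat_lit 752) (nat_lit 524288) (.ev (nat_lit 928)
 (nat_lit 32) (.ev (nat_lit 941) (nat_lit 65536) .dd))))) (.ch (nat_lit 42) (.ev (nat_lit 656) (nat_lit
 288230385279107104) .dd))))))))))))))) (.br (nat_lit 12) (.br (nat_lit 11) (.ch (nat_lit 10) (.ev (nat_lit 52)
 (nat_lit 4657369094490751008) (.ev (nat_lit 84) (nat_lit 18014398513676288) (.ev (nat_lit 116) (nat_lit
 67108864) (.ev (nat_lit 148) (nat_lit 526336) (.ev (nat_lit 212) (nat_lit 536907776) (.ev (nat_lit 276)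
 (nat_lit 147573952589676412928) (.ev (nat_lit 340) (nat_lit 8388608) (.nd (nat_lit 640) (.br (nat_lit 31) (.br
 (nat_lit 20) (.br (nat_lit 12) (.ch (nat_lit 11) (.ev (nat_lit 656) (nat_lit 140737488355328) (.ev (nat_lit
 752) (nat_lit 288230376151711744) (.ev (nat_lit 1028) (nat_lit 8589934592) (.ev (nat_lit 1037) (nat_lit
 1125899906842624) .dd))))) (.br (nat_lit 16) (.ch (nat_lit 12) (.ev (nat_lit 656) (nat_lit 1266637395197952)
 (.ev (nat_lit 976) (nat_lit 288230376151711744) (.ev (nat_lit 989) (nat_lit 8589934592) .dd)))) (.ch (nat_lit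
 16) (.ev (nat_lit 656) (nat_lit 1266645985132544) (.ev (nat_lit 669) (nat_lit 288230376151711744) .dd)))))
 (.br (nat_lit 25) (.ch (nat_lit 20) (.ev (nat_lit 656) (nat_lit 1266645985132544) (.ev (nat_lit 669) (nat_lit
 288230376151711744) .dd))) (.br (nat_lit 26) (.ch (nat_lit 25) (.ev (nat_lit 656) (nat_lit 288230384741646336)
 (.ev (nat_lit 720) (nat_lit 1125899906842624) (.ev (nat_lit 733) (nat_lit 140737488355328) .dd)))) (.ch
 (nat_lit 26) (.ev (nat_lit 656) (nat_lit 288371122230001664) (.ev (nat_lit 669) (nat_lit 1125899906842624)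
 .dd)))))) (.br (nat_lit 35) (.br (nat_lit 32) (.ch (nat_lit 31) (.ev (nat_lit 656) (nat_lit
 289497022136844288) .dd)) (.br (nat_lit 34) (.ch (nat_lit 32) (.ev (nat_lit 656) (nat_lit 289497022136844288)
 .dd)) (.ch (nat_lit 34) (.ev (nat_lit 656) (nat_lit 289497022136844288) .dd)))) (.br (nat_lit 38) (.ch
 (nat_lit 35) (.ev (nat_lit 656) (nat_lit 289497022136844288) .dd)) (.br (nat_lit 42) (.ch (nat_lit 38) (.ev
 (nat_lit 656) (nat_lit 288230384741646336) (.ev (nat_lit 800) (nat_lit 1125899906842624) (.ev (nat_lit 813)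
 (nat_lit 140737488355328) .dd)))) (.ch (nat_lit 42) (.ev (nat_lit 656) (nat_lit 289497022136844288)
 .dd))))))))))))))) (.ch (nat_lit 11) (.ev (nat_lit 52) (nat_lit 147574731043917862912) (.ev (nat_lit 84)
 (nat_lit 557842432) (.ev (nat_lit 116) (nat_lit 8589934592) (.ev (nat_lit 148) (nat_lit 288239172244733952)
 (.ev (nat_lit 212) (nat_lit 9007199254773760) (.ev (nat_lit 276) (nat_lit 36028797018963968) (.nd (nat_lit
 640) (.br (nat_lit 31) (.br (nat_lit 20) (.br (nat_lit 13) (.ch (nat_lit 6) (.ev (nat_lit 656) (nat_lit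
 4630826883779395584) (.ev (nat_lit 708) (nat_lit 67108864) (.ev (nat_lit 717) (nat_lit 32) .dd)))) (.br
 (nat_lit 16) (.ch (nat_lit 13) (.ev (nat_lit 656) (nat_lit 1125917153820704) (.ev (nat_lit 672) (nat_lit
 4611686018427387904) (.ev (nat_lit 768) (nat_lit 18014948265295872) .dd)))) (.ch (nat_lit 16) (.ev (nat_lit
 656) (nat_lit 4630826316910821408) (.ev (nat_lit 672) (nat_lit 17179869184) (.ev (nat_lit 685) (nat_lit
 549755813888) .dd)))))) (.br (nat_lit 23) (.ch (nat_lit 20) (.ev (nat_lit 656) (nat_lit 19140848172138528)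
 (.ev (nat_lit 708) (nat_lit 17179869184) (.ev (nat_lit 720) (nat_lit 4611686018427387904) (.ev (nat_lit 733)
 (nat_lit 67108864) .dd))))) (.br (nat_lit 29) (.ch (nat_lit 23) (.ev (nat_lit 656) (nat_lit
 4630826883846504480) .dd)) (.ch (nat_lit 29) (.ev (nat_lit 656) (nat_lit 18014965512273952) (.ev (nat_lit 976)
 (nat_lit 1125899906842624) (.ev (nat_lit 989) (nat_lit 4611686018427387904) .dd))))))) (.br (nat_lit 34) (.br
 (nat_lit 32) (.ch (nat_lit 31) (.ev (nat_lit 656) (nat_lit 4630826334090690592) (.ev (nat_lit 669) (nat_lit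
 549755813888) .dd))) (.br (nat_lit 33) (.ch (nat_lit 32) (.ev (nat_lit 656) (nat_lit 567002791968) (.ev
 (nat_lit 848) (nat_lit 18014398509481984) (.fin (nat_lit 576443709817045540))))) (.ch (nat_lit 33) (.ev
 (nat_lit 656) (nat_lit 4630826883846504480) .dd)))) (.br (nat_lit 40) (.br (nat_lit 38) (.ch (nat_lit 34) (.ev
 (nat_lit 656) (nat_lit 4612812485337022496) (.ev (nat_lit 669) (nat_lit 18014398509481984) .dd))) (.ch
 (nat_lit 38) (.ev (nat_lit 656) (nat_lit 4629700983939661824) (.ev (nat_lit 784) (nat_lit 1125899906842656)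
 .dd)))) (.br (nat_lit 42) (.ch (nat_lit 40) (.ev (nat_lit 656) (nat_lit 4612811918334230560) (.ev (nat_lit
 708) (nat_lit 18014398576590848) (.ev (nat_lit 944) (nat_lit 566935683072) .dd)))) (.ch (nat_lit 42) (.ev
 (nat_lit 656) (nat_lit 4630826883846504480) .dd))))))))))))))) (.br (nat_lit 15) (.ch (nat_lit 12) (.ev
 (nat_lit 52) (nat_lit 152232583365161648128) (.ev (nat_lit 84) (nat_lit 65536) (.ev (nat_lit 116) (nat_lit
 603979776) (.ev (nat_lit 148) (nat_lit 17184063488) (.ev (nat_lit 180) (nat_lit 549755813888) (.ev (nat_lit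
 212) (nat_lit 32) (.ev (nat_lit 244) (nat_lit 32768) (.nd (nat_lit 640) (.br (nat_lit 19) (.br (nat_lit 11)
 (.br (nat_lit 4) (.ch (nat_lit 0) (.ev (nat_lit 656) (nat_lit 306249172725010432) (.ev (nat_lit 669) (nat_lit
 2048) .dd))) (.br (nat_lit 8) (.ch (nat_lit 4) (.ev (nat_lit 656) (nat_lit 306249172725012480) .dd)) (.ch
 (nat_lit 8) (.ev (nat_lit 656) (nat_lit 306249172725012480) .dd)))) (.br (nat_lit 15) (.br (nat_lit 12) (.ch
 (nat_lit 11) (.ev (nat_lit 656) (nat_lit 306249172724488192) (.ev (nat_lit 669) (nat_lit 524288) .dd))) (.ch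
 (nat_lit 12) (.ev (nat_lit 656) (nat_lit 4398047037440) (.ev (nat_lit 708) (nat_lit 288230376151711744) (.ev
 (nat_lit 848) (nat_lit 18014398509481984) (.ev (nat_lit 928) (nat_lit 16777216) (.ev (nat_lit 941) (nat_lit
 4096) .dd))))))) (.br (nat_lit 16) (.ch (nat_lit 15) (.ev (nat_lit 656) (nat_lit 306249172725012480) .dd))
 (.ch (nat_lit 16) (.ev (nat_lit 656) (nat_lit 306249172725012480) .dd))))) (.br (nat_lit 31) (.br (nat_lit 25)
 (.ch (nat_lit 19) (.ev (nat_lit 656) (nat_lit 288230376168495104) (.ev (nat_lit 720) (nat_lit 524288) (.ev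
 (nat_lit 880) (nat_lit 18018796555993088) .dd)))) (.br (nat_lit 28) (.ch (nat_lit 25) (.ev (nat_lit 656)
 (nat_lit 306249172708235264) (.ev (nat_lit 669) (nat_lit 16777216) .dd))) (.ch (nat_lit 28) (.ev (nat_lit 656)
 (nat_lit 306249172724486144) (.ev (nat_lit 708) (nat_lit 2048) (.ev (nat_lit 717) (nat_lit 524288) .dd))))))
 (.br (nat_lit 35) (.br (nat_lit 32) (.ch (nat_lit 31) (.ev (nat_lit 656) (nat_lit 306249172724486144) (.ev
 (nat_lit 708) (nat_lit 2048) (.ev (nat_lit 717) (nat_lit 524288) .dd)))) (.ch (nat_lit 32) (.ev (nat_lit 656)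
 (nat_lit 306244774678501376) (.ev (nat_lit 669) (nat_lit 4398046511104) .dd)))) (.br (nat_lit 42) (.ch
 (nat_lit 35) (.ev (nat_lit 656) (nat_lit 306249172708235264) (.ev (nat_lit 669) (nat_lit 16777216) .dd))) (.ch
 (nat_lit 42) (.ev (nat_lit 656) (nat_lit 306249172725006336) (.ev (nat_lit 864) (nat_lit 4096) (.ev (nat_lit
 877) (nat_lit 2048) .dd))))))))))))))))) (.ch (nat_lit 15) (.ev (nat_lit 52) (nat_lit 4919628456763365376)
 (.ev (nat_lit 84) (nat_lit 140737505132544) (.ev (nat_lit 128) (nat_lit 147619063911162118176) .dd))))))) (.br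
 (nat_lit 22) (.br (nat_lit 18) (.br (nat_lit 17) (.ch (nat_lit 16) (.ev (nat_lit 52) (nat_lit
 343474238462171136) (.ev (nat_lit 84) (nat_lit 140737488355360) (.ev (nat_lit 96) (nat_lit
 152195218129480089600) .dd)))) (.ch (nat_lit 17) (.ev (nat_lit 52) (nat_lit 152213865287868059680) (.ev
 (nat_lit 84) (nat_lit 36033744821288960) (.ev (nat_lit 148) (nat_lit 288230376151711744) (.ev (nat_lit 192)
 (nat_lit 703696589555712) .dd)))))) (.br (nat_lit 21) (.ch (nat_lit 18) (.ev (nat_lit 52) (nat_lit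
 4899929589323241472) (.ev (nat_lit 64) (nat_lit 147638903516107374624) .dd))) (.ch (nat_lit 21) (.ev (nat_lit
 52) (nat_lit 19360217922338848) (.ev (nat_lit 116) (nat_lit 4611686018427387904) (.ev (nat_lit 148) (nat_lit
 147573953139432226816) (.ev (nat_lit 180) (nat_lit 36028797018963968) (.ev (nat_lit 212) (nat_lit
 288230376151711744) (.ev (nat_lit 244) (nat_lit 8388608) (.nd (nat_lit 640) (.br (nat_lit 26) (.br (nat_lit
 12) (.br (nat_lit 8) (.br (nat_lit 4) (.ch (nat_lit 0) (.ev (nat_lit 656) (nat_lit 9574547879661568) (.ev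
 (nat_lit 752) (nat_lit 2048) (.ev (nat_lit 765) (nat_lit 8589934592) .dd)))) (.ch (nat_lit 4) (.ev (nat_lit
 656) (nat_lit 9574556402487296) (.ev (nat_lit 708) (nat_lit 2048) (.ev (nat_lit 717) (nat_lit 67108864)
 .dd))))) (.br (nat_lit 11) (.ch (nat_lit 8) (.ev (nat_lit 656) (nat_lit 9574547879663616) (.ev (nat_lit 669)
 (nat_lit 8589934592) .dd))) (.ch (nat_lit 11) (.ev (nat_lit 656) (nat_lit 4398134630400) (.ev (nat_lit 708)
 (nat_lit 562949953421312) (.ev (nat_lit 1028) (nat_lit 9126805504) (.ev (nat_lit 1037) (nat_lit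
 9007199254740992) .dd))))))) (.br (nat_lit 19) (.br (nat_lit 15) (.ch (nat_lit 12) (.ev (nat_lit 656) (nat_lit
 567348557809664) (.ev (nat_lit 708) (nat_lit 67108864) (.ev (nat_lit 1028) (nat_lit 8589938688) (.ev (nat_lit
 1037) (nat_lit 9007199254740992) .dd))))) (.ch (nat_lit 15) (.ev (nat_lit 656) (nat_lit 567357214857216) (.ev
 (nat_lit 669) (nat_lit 9007199254740992) .dd)))) (.br (nat_lit 23) (.ch (nat_lit 19) (.ev (nat_lit 656)
 (nat_lit 9011606516144128) (.ev (nat_lit 708) (nat_lit 32768) (.ev (nat_lit 717) (nat_lit 562949953421312)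
 .dd)))) (.ch (nat_lit 23) (.ev (nat_lit 656) (nat_lit 567357214824448) (.ev (nat_lit 752) (nat_lit 32768) (.ev
 (nat_lit 765) (nat_lit 9007199254740992) .dd))))))) (.br (nat_lit 33) (.br (nat_lit 31) (.br (nat_lit 28) (.ch
 (nat_lit 26) (.ev (nat_lit 656) (nat_lit 9574556398295040) (.ev (nat_lit 880) (nat_lit 4194304) (.ev (nat_lit
 893) (nat_lit 67108864) .dd)))) (.ch (nat_lit 28) (.ev (nat_lit 656) (nat_lit 9574547342792704) (.ev (nat_lit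
 752) (nat_lit 536870912) (.ev (nat_lit 765) (nat_lit 8589934592) .dd))))) (.br (nat_lit 32) (.ch (nat_lit 31)
 (.ev (nat_lit 656) (nat_lit 9574556469598208) .dd)) (.ch (nat_lit 32) (.ev (nat_lit 656) (nat_lit 9214924800)
 (.ev (nat_lit 736) (nat_lit 9007199254740992) (.ev (nat_lit 880) (nat_lit 4398046511104) (.ev (nat_lit 893)
 (nat_lit 562949953421312) .dd))))))) (.br (nat_lit 35) (.br (nat_lit 34) (.ch (nat_lit 33) (.ev (nat_lit 656)
 (nat_lit 9574555932688384) (.ev (nat_lit 736) (nat_lit 536875008) (.ev (nat_lit 1028) (nat_lit 2048) (.ev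
 (nat_lit 1037) (nat_lit 32768) .dd))))) (.ch (nat_lit 34) (.ev (nat_lit 656) (nat_lit 9574547795777536) (.ev
 (nat_lit 736) (nat_lit 8589934592) (.ev (nat_lit 880) (nat_lit 16777216) (.ev (nat_lit 893) (nat_lit 67108864)
 .dd)))))) (.br (nat_lit 38) (.ch (nat_lit 35) (.ev (nat_lit 656) (nat_lit 9574556469598208) .dd)) (.br
 (nat_lit 40) (.ch (nat_lit 38) (.ev (nat_lit 656) (nat_lit 567357214853120) (.ev (nat_lit 752) (nat_lit 4096)
 (.ev (nat_lit 765) (nat_lit 9007199254740992) .dd)))) (.ch (nat_lit 40) (.ev (nat_lit 656) (nat_lit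
 9011606511982592) (.ev (nat_lit 880) (nat_lit 4194304) (.ev (nat_lit 893) (nat_lit 562949953421312)
 .dd))))))))))))))))))) (.br (nat_lit 26) (.br (nat_lit 24) (.ch (nat_lit 22) (.ev (nat_lit 52) (nat_lit
 4629846102831628288) (.ev (nat_lit 84) (nat_lit 70368748371968) (.ev (nat_lit 116) (nat_lit 9007199255265280)
 (.ev (nat_lit 148) (nat_lit 8796093022208) (.ev (nat_lit 212) (nat_lit 1125899906842624) (.ev (nat_lit 276)
 (nat_lit 17179869184) (.ev (nat_lit 308) (nat_lit 147573952589676412928) (.nd (nat_lit 640) (.br (nat_lit 19)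
 (.br (nat_lit 12) (.br (nat_lit 8) (.ch (nat_lit 0) (.ev (nat_lit 656) (nat_lit 324822131739203616) .dd)) (.br
 (nat_lit 9) (.ch (nat_lit 8) (.ev (nat_lit 656) (nat_lit 36591746980775968) (.ev (nat_lit 752) (nat_lit
 8589934592) (.ev (nat_lit 912) (nat_lit 16777216) (.fin (nat_lit 576377739066950200)))))) (.ch (nat_lit 9)
 (.ev (nat_lit 656) (nat_lit 324822131739201568) (.ev (nat_lit 669) (nat_lit 2048) .dd))))) (.br (nat_lit 13)
 (.ch (nat_lit 12) (.ev (nat_lit 656) (nat_lit 36591746997557280) (.ev (nat_lit 708) (nat_lit 8589934592) (.ev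
 (nat_lit 717) (nat_lit 288230376151711744) .dd)))) (.br (nat_lit 15) (.ch (nat_lit 13) (.ev (nat_lit 656)
 (nat_lit 288793326130305056) (.ev (nat_lit 1028) (nat_lit 8589934592) (.ev (nat_lit 1037) (nat_lit
 36028797018963968) .dd)))) (.ch (nat_lit 15) (.ev (nat_lit 656) (nat_lit 324822131730815008) (.ev (nat_lit
 669) (nat_lit 8388608) .dd)))))) (.br (nat_lit 32) (.br (nat_lit 20) (.ch (nat_lit 19) (.ev (nat_lit 656)
 (nat_lit 324822131739203616) .dd)) (.br (nat_lit 29) (.ch (nat_lit 20) (.ev (nat_lit 656) (nat_lit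
 288230384766818336) (.ev (nat_lit 708) (nat_lit 36028797018963968) (.ev (nat_lit 717) (nat_lit
 562949953421312) .dd)))) (.ch (nat_lit 29) (.ev (nat_lit 656) (nat_lit 324259181785780256) (.ev (nat_lit 708)
 (nat_lit 2048) (.ev (nat_lit 717) (nat_lit 562949953421312) .dd)))))) (.br (nat_lit 34) (.ch (nat_lit 32) (.ev
 (nat_lit 656) (nat_lit 324822131739203616) .dd)) (.br (nat_lit 38) (.ch (nat_lit 34) (.ev (nat_lit 656)
 (nat_lit 288793326121916448) (.ev (nat_lit 1028) (nat_lit 8598323200) (.ev (nat_lit 1037) (nat_lit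
 36028797018963968) .dd)))) (.ch (nat_lit 38) (.ev (nat_lit 656) (nat_lit 324822131730810880) (.ev (nat_lit
 708) (nat_lit 4096) (.ev (nat_lit 848) (nat_lit 32) (.ev (nat_lit 861) (nat_lit 8388608) .dd))))))))))))))))))
 (.ch (nat_lit 24) (.ev (nat_lit 52) (nat_lit 27800628063406080) (.ev (nat_lit 84) (nat_lit 16842752) (.ev
 (nat_lit 116) (nat_lit 8388608) (.ev (nat_lit 148) (nat_lit 1125899906846752) (.ev (nat_lit 180) (nat_lit
 4611686018427387904) (.nd (nat_lit 640) (.br (nat_lit 25) (.br (nat_lit 9) (.br (nat_lit 6) (.ch (nat_lit 0)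
 (.ev (nat_lit 656) (nat_lit 147609981386762485760) (.ev (nat_lit 784) (nat_lit 288230376151711744) (.ev
 (nat_lit 976) (nat_lit 524288) (.ev (nat_lit 989) (nat_lit 8796093022208) .dd))))) (.br (nat_lit 8) (.ch
 (nat_lit 6) (.ev (nat_lit 656) (nat_lit 147862191761988780032) (.ev (nat_lit 669) (nat_lit 36028797018963968)
 .dd))) (.ch (nat_lit 8) (.ev (nat_lit 656) (nat_lit 147898220558940635136) (.ev (nat_lit 669) (nat_lit
 67108864) .dd))))) (.br (nat_lit 16) (.ch (nat_lit 9) (.ev (nat_lit 656) (nat_lit 147609990182788923392) (.ev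
 (nat_lit 720) (nat_lit 67108864) (.ev (nat_lit 733) (nat_lit 288230376151711744) .dd)))) (.br (nat_lit 19)
 (.ch (nat_lit 16) (.ev (nat_lit 656) (nat_lit 324267969331331072) (.ev (nat_lit 669) (nat_lit
 147573952589676412928) .dd))) (.ch (nat_lit 19) (.ev (nat_lit 656) (nat_lit 147898220559007744000) .dd)))))
 (.br (nat_lit 34) (.br (nat_lit 31) (.ch (nat_lit 25) (.ev (nat_lit 656) (nat_lit 147898220559007744000) .dd))
 (.br (nat_lit 33) (.ch (nat_lit 31) (.ev (nat_lit 656) (nat_lit 147898211762914197504) (.ev (nat_lit 708)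
 (nat_lit 8796093022208) (.ev (nat_lit 717) (nat_lit 524288) .dd)))) (.ch (nat_lit 33) (.ev (nat_lit 656)
 (nat_lit 147898220559007744000) .dd)))) (.br (nat_lit 40) (.br (nat_lit 35) (.ch (nat_lit 34) (.ev (nat_lit
 656) (nat_lit 147898211762847612928) (.ev (nat_lit 708) (nat_lit 67108864) (.ev (nat_lit 717) (nat_lit
 8796093022208) .dd)))) (.ch (nat_lit 35) (.ev (nat_lit 656) (nat_lit 147898220559007219712) (.ev (nat_lit 669)
 (nat_lit 524288) .dd)))) (.br (nat_lit 42) (.ch (nat_lit 40) (.ev (nat_lit 656) (nat_lit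
 147609981386695901184) (.ev (nat_lit 708) (nat_lit 8796093022208) (.ev (nat_lit 736) (nat_lit
 288230376218820608) .dd)))) (.ch (nat_lit 42) (.ev (nat_lit 656) (nat_lit 36028797086597120) (.ev (nat_lit
 720) (nat_lit 288230376151711744) (.ev (nat_lit 880) (nat_lit 147573952589676412928) (.ev (nat_lit 893)
 (nat_lit 8796093022208) .dd))))))))))))))))) (.br (nat_lit 28) (.ch (nat_lit 26) (.ev (nat_lit 52) (nat_lit
 4657856737007669280) (.ev (nat_lit 64) (nat_lit 147880976368422946816) .dd))) (.br (nat_lit 29) (.ch (nat_lit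
 28) (.ev (nat_lit 52) (nat_lit 147889776335945996320) (.ev (nat_lit 84) (nat_lit 71303168) (.ev (nat_lit 128)
 (nat_lit 4649056769413316608) .dd)))) (.ch (nat_lit 29) (.ev (nat_lit 52) (nat_lit 4946645647954022432) (.ev
 (nat_lit 116) (nat_lit 70368744210432) (.ev (nat_lit 148) (nat_lit 549760008192) (.ev (nat_lit 244) (nat_lit
 8796093024256) (.ev (nat_lit 276) (nat_lit 147573952589676412928) (.nd (nat_lit 640) (.br (nat_lit 16) (.br
 (nat_lit 12) (.br (nat_lit 4) (.ch (nat_lit 0) (.ev (nat_lit 656) (nat_lit 17205035008) (.ev (nat_lit 720)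
 (nat_lit 65536) (.ev (nat_lit 1028) (nat_lit 140737488355328) (.ev (nat_lit 1037) (nat_lit 18014398509481984)
 .dd))))) (.br (nat_lit 6) (.ch (nat_lit 4) (.ev (nat_lit 656) (nat_lit 17205100544) (.fin (nat_lit
 576462401572389439)))) (.ch (nat_lit 6) (.ev (nat_lit 656) (nat_lit 25231360) (.ev (nat_lit 736) (nat_lit
 17179869184) (.ev (nat_lit 1028) (nat_lit 18014398509481984) (.ev (nat_lit 1037) (nat_lit 140737488355328)
 .dd))))))) (.br (nat_lit 13) (.ch (nat_lit 12) (.ev (nat_lit 656) (nat_lit 140754693455872) (.ev (nat_lit 669)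
 (nat_lit 18014398509481984) .dd))) (.br (nat_lit 15) (.ch (nat_lit 13) (.ev (nat_lit 656) (nat_lit
 18155136014680064) (.ev (nat_lit 1028) (nat_lit 8388608) (.ev (nat_lit 1037) (nat_lit 17179869184) .dd))))
 (.ch (nat_lit 15) (.ev (nat_lit 656) (nat_lit 17179934720) (.ev (nat_lit 672) (nat_lit 8388608) (.ev (nat_lit
 708) (nat_lit 16777216) (.ev (nat_lit 1040) (nat_lit 140737488355328) (.ev (nat_lit 1053) (nat_lit
 18014398509481984) .dd))))))))) (.br (nat_lit 25) (.br (nat_lit 20) (.ch (nat_lit 16) (.ev (nat_lit 656)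
 (nat_lit 18155136023068672) (.ev (nat_lit 669) (nat_lit 17179869184) .dd))) (.br (nat_lit 23) (.ch (nat_lit
 20) (.ev (nat_lit 656) (nat_lit 18014415714516992) (.ev (nat_lit 708) (nat_lit 65536) (.ev (nat_lit 717)
 (nat_lit 140737488355328) .dd)))) (.ch (nat_lit 23) (.ev (nat_lit 656) (nat_lit 18155136023068672) (.ev
 (nat_lit 669) (nat_lit 17179869184) .dd))))) (.br (nat_lit 29) (.br (nat_lit 28) (.ch (nat_lit 25) (.ev
 (nat_lit 656) (nat_lit 17188323328) (.ev (nat_lit 708) (nat_lit 140737505132544) (.ev (nat_lit 717) (nat_lit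
 18014398509481984) .dd)))) (.ch (nat_lit 28) (.ev (nat_lit 656) (nat_lit 18155153202872320) (.ev (nat_lit 669)
 (nat_lit 65536) .dd)))) (.br (nat_lit 38) (.ch (nat_lit 29) (.ev (nat_lit 656) (nat_lit 18155153194549248)
 (.ev (nat_lit 669) (nat_lit 8388608) .dd))) (.ch (nat_lit 38) (.ev (nat_lit 656) (nat_lit 18155136006291456)
 (.ev (nat_lit 992) (nat_lit 17196646400) .dd))))))))))))))))))) (.br (nat_lit 42) (.br (nat_lit 38) (.br
 (nat_lit 36) (.br (nat_lit 33) (.ch (nat_lit 31) (.ev (nat_lit 52) (nat_lit 28367949823741952) (.ev (nat_lit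
 84) (nat_lit 4611686018435776544) (.ev (nat_lit 116) (nat_lit 524288) (.ev (nat_lit 180) (nat_lit 2048) (.nd
 (nat_lit 640) (.br (nat_lit 20) (.br (nat_lit 11) (.br (nat_lit 8) (.ch (nat_lit 4) (.ev (nat_lit 656)
 (nat_lit 147898779137170571264) .dd)) (.ch (nat_lit 8) (.ev (nat_lit 656) (nat_lit 147574519946819993600) (.ev
 (nat_lit 708) (nat_lit 288230376151711744) (.ev (nat_lit 720) (nat_lit 17179869184) (.ev (nat_lit 1028)
 (nat_lit 32768) (.ev (nat_lit 1037) (nat_lit 36028797018963968) .dd))))))) (.br (nat_lit 13) (.ch (nat_lit 11)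
 (.ev (nat_lit 656) (nat_lit 147862750322971738112) (.ev (nat_lit 672) (nat_lit 36028797018963968) (.ev
 (nat_lit 685) (nat_lit 17179869184) .dd)))) (.br (nat_lit 16) (.ch (nat_lit 13) (.ev (nat_lit 656) (nat_lit
 147862750331561672704) (.ev (nat_lit 708) (nat_lit 36028797018963968) (.ev (nat_lit 717) (nat_lit 8589934592)
 .dd)))) (.ch (nat_lit 16) (.ev (nat_lit 656) (nat_lit 36033220835278848) (.ev (nat_lit 708) (nat_lit
 147573952589676412928) (.ev (nat_lit 896) (nat_lit 16777216) (.ev (nat_lit 960) (nat_lit 536936448) (.ev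
 (nat_lit 1028) (nat_lit 562949953454080) (.ev (nat_lit 1037) (nat_lit 288230376151711744) .dd)))))))))) (.br
 (nat_lit 25) (.br (nat_lit 23) (.ch (nat_lit 20) (.ev (nat_lit 656) (nat_lit 25786613760) (.ev (nat_lit 708)
 (nat_lit 536870912) (.ev (nat_lit 896) (nat_lit 4398046511104) (.ev (nat_lit 960) (nat_lit
 147573952589676478464) (.ev (nat_lit 1028) (nat_lit 324259173170675712) (.ev (nat_lit 1037) (nat_lit
 562949953421312) .dd))))))) (.ch (nat_lit 23) (.ev (nat_lit 656) (nat_lit 147898779119990669312) (.ev (nat_lit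
 708) (nat_lit 32768) (.ev (nat_lit 717) (nat_lit 17179869184) .dd))))) (.br (nat_lit 28) (.ch (nat_lit 25)
 (.ev (nat_lit 656) (nat_lit 147898779128580603904) (.ev (nat_lit 672) (nat_lit 32768) (.ev (nat_lit 685)
 (nat_lit 8589934592) .dd)))) (.br (nat_lit 32) (.ch (nat_lit 28) (.ev (nat_lit 656) (nat_lit
 147862187381608218624) (.ev (nat_lit 708) (nat_lit 562949953421312) (.ev (nat_lit 720) (nat_lit 8589934592)
 (.ev (nat_lit 1028) (nat_lit 32768) (.ev (nat_lit 1037) (nat_lit 36028797018963968) .dd)))))) (.ch (nat_lit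
 32) (.ev (nat_lit 656) (nat_lit 147898779137170571264) .dd)))))))))))) (.ch (nat_lit 33) (.ev (nat_lit 52)
 (nat_lit 152185647979814717440) (.ev (nat_lit 84) (nat_lit 306389910196060160) (.ev (nat_lit 116) (nat_lit
 9007199791677440) (.ev (nat_lit 180) (nat_lit 36028797018963968) (.ev (nat_lit 212) (nat_lit 1125899906842624)
 (.ev (nat_lit 308) (nat_lit 70368744177664) (.nd (nat_lit 640) (.br (nat_lit 23) (.br (nat_lit 9) (.br
 (nat_lit 4) (.ch (nat_lit 0) (.ev (nat_lit 656) (nat_lit 562949957652480) (.fin (nat_lit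
 576465699997172200)))) (.ch (nat_lit 4) (.ev (nat_lit 656) (nat_lit 562949958176800) .dd))) (.br (nat_lit 13)
 (.ch (nat_lit 9) (.ev (nat_lit 656) (nat_lit 562949958144032) (.ev (nat_lit 669) (nat_lit 32768) .dd))) (.br
 (nat_lit 19) (.ch (nat_lit 13) (.ev (nat_lit 656) (nat_lit 562949953978400) (.ev (nat_lit 720) (nat_lit
 4194304) (.ev (nat_lit 733) (nat_lit 4096) .dd)))) (.ch (nat_lit 19) (.ev (nat_lit 656) (nat_lit 4231200) (.ev
 (nat_lit 720) (nat_lit 524288) (.ev (nat_lit 733) (nat_lit 562949953421312) .dd))))))) (.br (nat_lit 28) (.br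
 (nat_lit 25) (.ch (nat_lit 23) (.ev (nat_lit 656) (nat_lit 562949958176800) .dd)) (.ch (nat_lit 25) (.ev
 (nat_lit 656) (nat_lit 562949953982496) (.ev (nat_lit 669) (nat_lit 4194304) .dd)))) (.br (nat_lit 31) (.ch
 (nat_lit 28) (.ev (nat_lit 656) (nat_lit 4755456) (.ev (nat_lit 720) (nat_lit 32) (.ev (nat_lit 733) (nat_lit
 562949953421312) .dd)))) (.br (nat_lit 40) (.ch (nat_lit 31) (.ev (nat_lit 656) (nat_lit 562949958176800)
 .dd)) (.ch (nat_lit 40) (.ev (nat_lit 656) (nat_lit 562949953982496) (.ev (nat_lit 669) (nat_lit 4194304)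
 .dd)))))))))))))))) (.br (nat_lit 37) (.ch (nat_lit 36) (.ev (nat_lit 52) (nat_lit 147637003543359031328) (.ev
 (nat_lit 64) (nat_lit 4901829562071584768) .dd))) (.ch (nat_lit 37) (.ev (nat_lit 52) (nat_lit
 152222371642400114720) (.ev (nat_lit 84) (nat_lit 8589934592) (.ev (nat_lit 148) (nat_lit 1125899906842624)
 (.ev (nat_lit 212) (nat_lit 18023194619281408) (.nd (nat_lit 640) (.br (nat_lit 23) (.br (nat_lit 11) (.br
 (nat_lit 6) (.br (nat_lit 4) (.ch (nat_lit 0) (.ev (nat_lit 656) (nat_lit 297312359913918464) (.ev (nat_lit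
 669) (nat_lit 524288) .dd))) (.ch (nat_lit 4) (.ev (nat_lit 656) (nat_lit 288305143479832576) (.ev (nat_lit
 708) (nat_lit 17179869184) (.ev (nat_lit 717) (nat_lit 9007199254740992) .dd))))) (.br (nat_lit 8) (.ch
 (nat_lit 6) (.ev (nat_lit 656) (nat_lit 297241973990395904) (.ev (nat_lit 708) (nat_lit 17179869184) (.ev
 (nat_lit 717) (nat_lit 70368744177664) .dd)))) (.ch (nat_lit 8) (.ev (nat_lit 656) (nat_lit 9081983762726912)
 (.fin (nat_lit 576377739066950200)))))) (.br (nat_lit 19) (.br (nat_lit 12) (.ch (nat_lit 11) (.ev (nat_lit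
 656) (nat_lit 9081983762698240) (.ev (nat_lit 708) (nat_lit 288230376151711744) (.ev (nat_lit 717) (nat_lit
 32768) .dd)))) (.ch (nat_lit 12) (.ev (nat_lit 656) (nat_lit 74784507461632) (.ev (nat_lit 708) (nat_lit
 524288) (.ev (nat_lit 1028) (nat_lit 9007199254745088) (.ev (nat_lit 1037) (nat_lit 288230376151711744)
 .dd)))))) (.br (nat_lit 20) (.ch (nat_lit 19) (.ev (nat_lit 656) (nat_lit 297312359377571840) (.ev (nat_lit
 669) (nat_lit 536870912) .dd))) (.ch (nat_lit 20) (.ev (nat_lit 656) (nat_lit 9077585715695616) (.ev (nat_lit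
 708) (nat_lit 4398046511104) (.ev (nat_lit 736) (nat_lit 288230376151711744) (.ev (nat_lit 749) (nat_lit
 524288) .dd)))))))) (.br (nat_lit 31) (.br (nat_lit 28) (.br (nat_lit 26) (.ch (nat_lit 23) (.ev (nat_lit 656)
 (nat_lit 9081983762698240) (.ev (nat_lit 672) (nat_lit 32768) (.ev (nat_lit 685) (nat_lit 288230376151711744)
 .dd)))) (.ch (nat_lit 26) (.ev (nat_lit 656) (nat_lit 9081983762731008) (.ev (nat_lit 669) (nat_lit
 288230376151711744) .dd)))) (.br (nat_lit 29) (.ch (nat_lit 28) (.ev (nat_lit 656) (nat_lit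
 297312359377567744) (.ev (nat_lit 672) (nat_lit 536870912) (.ev (nat_lit 685) (nat_lit 4096) .dd)))) (.ch
 (nat_lit 29) (.ev (nat_lit 656) (nat_lit 297312359377571840) (.ev (nat_lit 669) (nat_lit 536870912) .dd)))))
 (.br (nat_lit 33) (.br (nat_lit 32) (.ch (nat_lit 31) (.ev (nat_lit 656) (nat_lit 297312359914442752) .dd))
 (.ch (nat_lit 32) (.ev (nat_lit 656) (nat_lit 288305160659697664) (.ev (nat_lit 752) (nat_lit
 9007199254740992) (.ev (nat_lit 765) (nat_lit 4096) .dd))))) (.br (nat_lit 38) (.ch (nat_lit 33) (.ev (nat_lit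
 656) (nat_lit 297237575406456832) (.ev (nat_lit 720) (nat_lit 557056) (.ev (nat_lit 864) (nat_lit 17179869184)
 (.ev (nat_lit 928) (nat_lit 70368744177664) (.ev (nat_lit 1028) (nat_lit 4398046511104) (.ev (nat_lit 1037)
 (nat_lit 536870912) .dd))))))) (.br (nat_lit 42) (.ch (nat_lit 38) (.ev (nat_lit 656) (nat_lit
 297312342734569472) (.ev (nat_lit 708) (nat_lit 17179869184) (.ev (nat_lit 717) (nat_lit 4096) .dd)))) (.ch
 (nat_lit 42) (.ev (nat_lit 656) (nat_lit 297312359914405888) (.ev (nat_lit 960) (nat_lit 4096) (.ev (nat_lit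
 973) (nat_lit 32768) .dd))))))))))))))))) (.br (nat_lit 40) (.br (nat_lit 39) (.ch (nat_lit 38) (.ev (nat_lit
 52) (nat_lit 18718644297531424) (.ev (nat_lit 64) (nat_lit 152520114461133084672) .dd))) (.ch (nat_lit 39)
 (.ev (nat_lit 52) (nat_lit 147863942734729971712) (.ev (nat_lit 64) (nat_lit 4674890370700644384) .dd)))) (.br
 (nat_lit 41) (.ch (nat_lit 40) (.ev (nat_lit 52) (nat_lit 147862957047855253536) (.ev (nat_lit 84) (nat_lit
 4398063288320) (.ev (nat_lit 116) (nat_lit 36029346783690752) (.ev (nat_lit 148) (nat_lit 536870912) (.ev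
 (nat_lit 180) (nat_lit 9007199254740992) (.ev (nat_lit 276) (nat_lit 1134695999864832) (.nd (nat_lit 640) (.br
 (nat_lit 28) (.br (nat_lit 11) (.br (nat_lit 6) (.ch (nat_lit 0) (.ev (nat_lit 656) (nat_lit
 4629700416936906752) .dd)) (.br (nat_lit 9) (.ch (nat_lit 6) (.ev (nat_lit 656) (nat_lit 4611686018427424768)
 (.ev (nat_lit 669) (nat_lit 18014398509481984) .dd))) (.ch (nat_lit 9) (.ev (nat_lit 656) (nat_lit
 18014398509486080) (.ev (nat_lit 1028) (nat_lit 32768) (.ev (nat_lit 1037) (nat_lit 4611686018427387904)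
 .dd)))))) (.br (nat_lit 15) (.ch (nat_lit 11) (.ev (nat_lit 656) (nat_lit 18014398509518848) (.ev (nat_lit
 669) (nat_lit 4611686018427387904) .dd))) (.br (nat_lit 23) (.ch (nat_lit 15) (.ev (nat_lit 656) (nat_lit
 4611686018427424768) (.ev (nat_lit 669) (nat_lit 18014398509481984) .dd))) (.ch (nat_lit 23) (.ev (nat_lit
 656) (nat_lit 4629700416936869888) (.ev (nat_lit 708) (nat_lit 4096) (.ev (nat_lit 717) (nat_lit 32768)
 .dd))))))) (.br (nat_lit 35) (.br (nat_lit 29) (.ch (nat_lit 28) (.ev (nat_lit 656) (nat_lit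
 4629700416936906752) .dd)) (.br (nat_lit 34) (.ch (nat_lit 29) (.ev (nat_lit 656) (nat_lit
 4629700416936902656) (.ev (nat_lit 669) (nat_lit 4096) .dd))) (.ch (nat_lit 34) (.ev (nat_lit 656) (nat_lit
 4611686018427424768) (.ev (nat_lit 669) (nat_lit 18014398509481984) .dd))))) (.br (nat_lit 38) (.ch (nat_lit
 35) (.ev (nat_lit 656) (nat_lit 4629700416936906752) .dd)) (.br (nat_lit 42) (.ch (nat_lit 38) (.ev (nat_lit
 656) (nat_lit 4629700416936906752) .dd)) (.ch (nat_lit 42) (.ev (nat_lit 656) (nat_lit 18014398509518848) (.ev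
 (nat_lit 669) (nat_lit 4611686018427387904) .dd))))))))))))))) (.ch (nat_lit 41) (.ev (nat_lit 52) (nat_lit
 4937295391906891776) (.ev (nat_lit 84) (nat_lit 65536) (.ev (nat_lit 116) (nat_lit 8589934592) (.ev (nat_lit
 148) (nat_lit 18014415689351168) (.ev (nat_lit 180) (nat_lit 536870912) (.ev (nat_lit 276) (nat_lit
 562949953421312) (.nd (nat_lit 640) (.br (nat_lit 28) (.br (nat_lit 16) (.br (nat_lit 12) (.ch (nat_lit 9)
 (.ev (nat_lit 656) (nat_lit 9007749010559008) (.ev (nat_lit 672) (nat_lit 67108864) (.ev (nat_lit 685)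
 (nat_lit 147573952589676412928) .dd)))) (.br (nat_lit 13) (.ch (nat_lit 12) (.ev (nat_lit 656) (nat_lit
 9007749077667872) (.ev (nat_lit 669) (nat_lit 147573952589676412928) .dd))) (.ch (nat_lit 13) (.ev (nat_lit
 656) (nat_lit 147582959788998266912) (.ev (nat_lit 669) (nat_lit 549755813888) .dd))))) (.br (nat_lit 23) (.ch
 (nat_lit 16) (.ev (nat_lit 656) (nat_lit 147573953139499339808) (.ev (nat_lit 669) (nat_lit 9007199254740992)
 .dd))) (.br (nat_lit 26) (.ch (nat_lit 23) (.ev (nat_lit 656) (nat_lit 147582960338754080800) .dd)) (.ch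
 (nat_lit 26) (.ev (nat_lit 656) (nat_lit 9007749077667872) (.ev (nat_lit 669) (nat_lit 147573952589676412928)
 .dd)))))) (.br (nat_lit 34) (.br (nat_lit 32) (.ch (nat_lit 28) (.ev (nat_lit 656) (nat_lit
 147582960338754080768) (.ev (nat_lit 669) (nat_lit 32) .dd))) (.br (nat_lit 33) (.ch (nat_lit 32) (.ev
 (nat_lit 656) (nat_lit 147582960338754076704) (.ev (nat_lit 669) (nat_lit 4096) .dd))) (.ch (nat_lit 33) (.ev
 (nat_lit 656) (nat_lit 9007749077663776) (.ev (nat_lit 708) (nat_lit 4096) (.ev (nat_lit 717) (nat_lit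
 147573952589676412928) .dd)))))) (.br (nat_lit 40) (.br (nat_lit 35) (.ch (nat_lit 34) (.ev (nat_lit 656)
 (nat_lit 147573953139499339776) (.ev (nat_lit 672) (nat_lit 32) (.ev (nat_lit 685) (nat_lit 9007199254740992)
 .dd)))) (.ch (nat_lit 35) (.ev (nat_lit 656) (nat_lit 147582960338754080800) .dd))) (.br (nat_lit 42) (.ch
 (nat_lit 40) (.ev (nat_lit 656) (nat_lit 9007749010559008) (.ev (nat_lit 1028) (nat_lit 67108864) (.ev
 (nat_lit 1037) (nat_lit 147573952589676412928) .dd)))) (.ch (nat_lit 42) (.ev (nat_lit 656) (nat_lit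
 9007749077663776) (.ev (nat_lit 708) (nat_lit 4096) (.ev (nat_lit 717) (nat_lit 147573952589676412928)
 .dd))))))))))))))))))) (.br (nat_lit 47) (.br (nat_lit 44) (.br (nat_lit 43) (.ch (nat_lit 42) (.ev (nat_lit
 52) (nat_lit 152185722729429729280) (.ev (nat_lit 64) (nat_lit 353110376000886816) .dd))) (.ch (nat_lit 43)
 (.ev (nat_lit 52) (nat_lit 147890335419917240320) (.ev (nat_lit 96) (nat_lit 4648497685513375776) .dd)))) (.br
 (nat_lit 46) (.ch (nat_lit 44) (.ev (nat_lit 52) (nat_lit 4648916041048002592) (.ev (nat_lit 84) (nat_lit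
 8388608) (.ev (nat_lit 116) (nat_lit 32768) (.ev (nat_lit 148) (nat_lit 288793326105133056) (.ev (nat_lit 212)
 (nat_lit 8796093087744) (.ev (nat_lit 276) (nat_lit 9007199254740992) (.nd (nat_lit 640) (.br (nat_lit 15)
 (.br (nat_lit 8) (.br (nat_lit 4) (.ch (nat_lit 0) (.ev (nat_lit 656) (nat_lit 147592107742921228288) (.ev
 (nat_lit 669) (nat_lit 2048) .dd))) (.br (nat_lit 6) (.ch (nat_lit 4) (.ev (nat_lit 656) (nat_lit
 147592107725674250240) (.ev (nat_lit 708) (nat_lit 67110912) (.ev (nat_lit 717) (nat_lit 17179869184) .dd))))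
 (.ch (nat_lit 6) (.ev (nat_lit 656) (nat_lit 140737488355328) (.ev (nat_lit 708) (nat_lit 17179869184) (.ev
 (nat_lit 736) (nat_lit 67108864) (.ev (nat_lit 832) (nat_lit 2048) (.ev (nat_lit 880) (nat_lit
 18014398509481984) (.ev (nat_lit 893) (nat_lit 147573952589676412928) .dd))))))))) (.br (nat_lit 9) (.ch
 (nat_lit 8) (.ev (nat_lit 656) (nat_lit 147592107742921230336) .dd)) (.br (nat_lit 13) (.ch (nat_lit 9) (.ev
 (nat_lit 656) (nat_lit 147592107742854121472) (.ev (nat_lit 669) (nat_lit 67108864) .dd))) (.ch (nat_lit 13)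
 (.ev (nat_lit 656) (nat_lit 147573952606923393024) (.ev (nat_lit 752) (nat_lit 18014398509481984) (.ev
 (nat_lit 765) (nat_lit 140737488355328) .dd))))))) (.br (nat_lit 31) (.br (nat_lit 26) (.ch (nat_lit 15) (.ev
 (nat_lit 656) (nat_lit 147592107742921230336) .dd)) (.br (nat_lit 29) (.ch (nat_lit 26) (.ev (nat_lit 656)
 (nat_lit 140754668226560) (.ev (nat_lit 672) (nat_lit 147573952589676412928) (.ev (nat_lit 708) (nat_lit
 67108864) (.ev (nat_lit 717) (nat_lit 18014398509481984) .dd))))) (.ch (nat_lit 29) (.ev (nat_lit 656)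
 (nat_lit 147573952606923390976) (.ev (nat_lit 708) (nat_lit 140737488355328) (.ev (nat_lit 720) (nat_lit
 18014398509484032) .dd)))))) (.br (nat_lit 34) (.br (nat_lit 33) (.ch (nat_lit 31) (.ev (nat_lit 656) (nat_lit
 18155153244817408) (.ev (nat_lit 669) (nat_lit 147573952589676412928) .dd))) (.ch (nat_lit 33) (.ev (nat_lit
 656) (nat_lit 18014398576592896) (.ev (nat_lit 736) (nat_lit 140737488355328) (.ev (nat_lit 800) (nat_lit
 17179869184) (.ev (nat_lit 813) (nat_lit 147573952589676412928) .dd)))))) (.br (nat_lit 38) (.ch (nat_lit 34)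
 (.ev (nat_lit 656) (nat_lit 147591967005432875008) (.ev (nat_lit 669) (nat_lit 140737488355328) .dd))) (.ch
 (nat_lit 38) (.ev (nat_lit 656) (nat_lit 147592107725741361152) (.ev (nat_lit 669) (nat_lit 17179869184)
 .dd))))))))))))))) (.ch (nat_lit 46) (.ev (nat_lit 52) (nat_lit 147927137715304300544) (.ev (nat_lit 84)
 (nat_lit 4194304) (.ev (nat_lit 96) (nat_lit 4611695390122121248) .dd)))))) (.br (nat_lit 49) (.br (nat_lit
 48) (.ch (nat_lit 47) (.ev (nat_lit 52) (nat_lit 1697663229657120) (.ev (nat_lit 84) (nat_lit 140737488420864)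
 (.ev (nat_lit 116) (nat_lit 18084767254183936) (.ev (nat_lit 148) (nat_lit 4398046511104) (.ev (nat_lit 180)
 (nat_lit 536870912) (.ev (nat_lit 276) (nat_lit 4096) (.nd (nat_lit 640) (.br (nat_lit 23) (.br (nat_lit 12)
 (.br (nat_lit 9) (.ch (nat_lit 8) (.ev (nat_lit 656) (nat_lit 152482876192100190208) (.ev (nat_lit 736)
 (nat_lit 36028797018963968) (.ev (nat_lit 749) (nat_lit 549755813888) .dd)))) (.br (nat_lit 11) (.ch (nat_lit
 9) (.ev (nat_lit 656) (nat_lit 147618989144295866368) (.ev (nat_lit 736) (nat_lit 288230376151711744) (.ev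
 (nat_lit 1028) (nat_lit 2048) (.ev (nat_lit 1037) (nat_lit 4611686018427387904) .dd))))) (.ch (nat_lit 11)
 (.ev (nat_lit 656) (nat_lit 152518905538874968064) .dd)))) (.br (nat_lit 15) (.br (nat_lit 13) (.ch (nat_lit
 12) (.ev (nat_lit 656) (nat_lit 324259722926491648) (.ev (nat_lit 708) (nat_lit 147573952598266347520) (.ev
 (nat_lit 848) (nat_lit 4620693217682128896) .dd)))) (.ch (nat_lit 13) (.ev (nat_lit 656) (nat_lit
 152482876741856004096) (.ev (nat_lit 669) (nat_lit 36028797018963968) .dd)))) (.br (nat_lit 19) (.ch (nat_lit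
 15) (.ev (nat_lit 656) (nat_lit 152509897789864413184) (.ev (nat_lit 864) (nat_lit 9007199254740992) (.ev
 (nat_lit 877) (nat_lit 549755813888) .dd)))) (.ch (nat_lit 19) (.ev (nat_lit 656) (nat_lit
 152518905538874968064) .dd))))) (.br (nat_lit 31) (.br (nat_lit 26) (.ch (nat_lit 23) (.ev (nat_lit 656)
 (nat_lit 152194646365704290304) (.ev (nat_lit 708) (nat_lit 2048) (.ev (nat_lit 752) (nat_lit
 36028797018963968) (.ev (nat_lit 765) (nat_lit 288230376151711744) .dd))))) (.br (nat_lit 29) (.ch (nat_lit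
 26) (.ev (nat_lit 656) (nat_lit 152230675162723254272) (.ev (nat_lit 708) (nat_lit 2048) (.ev (nat_lit 717)
 (nat_lit 288230376151711744) .dd)))) (.ch (nat_lit 29) (.ev (nat_lit 656) (nat_lit 147618989144295866368) (.ev
 (nat_lit 708) (nat_lit 288230376151711744) (.ev (nat_lit 1028) (nat_lit 2048) (.ev (nat_lit 1037) (nat_lit
 4611686018427387904) .dd))))))) (.br (nat_lit 38) (.br (nat_lit 33) (.ch (nat_lit 31) (.ev (nat_lit 656)
 (nat_lit 4908924152179589120) (.ev (nat_lit 708) (nat_lit 36028797018966016) (.ev (nat_lit 717) (nat_lit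
 147573952589676412928) .dd)))) (.ch (nat_lit 33) (.ev (nat_lit 656) (nat_lit 152518905538874968064) .dd)))
 (.br (nat_lit 42) (.ch (nat_lit 38) (.ev (nat_lit 656) (nat_lit 152518905538874968064) .dd)) (.ch (nat_lit 42)
 (.ev (nat_lit 656) (nat_lit 152230675162723254272) (.ev (nat_lit 720) (nat_lit 288230376151711744) (.ev
 (nat_lit 733) (nat_lit 2048) .dd)))))))))))))))) (.ch (nat_lit 48) (.ev (nat_lit 52) (nat_lit
 147574097742957416480) (.ev (nat_lit 84) (nat_lit 306244774661193728) (.ev (nat_lit 116) (nat_lit 67584) (.ev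
 (nat_lit 148) (nat_lit 70368744177664) (.ev (nat_lit 180) (nat_lit 562950020530176) (.ev (nat_lit 244)
 (nat_lit 524288) (.ev (nat_lit 308) (nat_lit 8589934592) (.nd (nat_lit 640) (.br (nat_lit 25) (.br (nat_lit
 15) (.br (nat_lit 11) (.ch (nat_lit 8) (.ev (nat_lit 656) (nat_lit 4621819117588971520) (.ev (nat_lit 672)
 (nat_lit 549755813888) (.ev (nat_lit 708) (nat_lit 8796093022208) (.ev (nat_lit 717) (nat_lit
 36028797018963968) .dd))))) (.br (nat_lit 13) (.ch (nat_lit 11) (.ev (nat_lit 656) (nat_lit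
 4611695364276224000) (.ev (nat_lit 708) (nat_lit 9007199254740992) (.ev (nat_lit 720) (nat_lit
 37154696925806592) .dd)))) (.ch (nat_lit 13) (.ev (nat_lit 656) (nat_lit 4657856710700957696) (.ev (nat_lit
 669) (nat_lit 549755813888) .dd))))) (.br (nat_lit 16) (.ch (nat_lit 15) (.ev (nat_lit 656) (nat_lit
 37163493018828800) (.ev (nat_lit 736) (nat_lit 9007199254740992) (.ev (nat_lit 800) (nat_lit
 4611686018427387904) (.ev (nat_lit 813) (nat_lit 549755813888) .dd))))) (.br (nat_lit 20) (.ch (nat_lit 16)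
 (.ev (nat_lit 656) (nat_lit 4648850061202030592) (.ev (nat_lit 669) (nat_lit 9007199254740992) .dd))) (.ch
 (nat_lit 20) (.ev (nat_lit 656) (nat_lit 46171242029383680) (.ev (nat_lit 669) (nat_lit 4611686018427387904)
 .dd)))))) (.br (nat_lit 33) (.br (nat_lit 29) (.ch (nat_lit 25) (.ev (nat_lit 656) (nat_lit
 4656731360549928960) (.ev (nat_lit 669) (nat_lit 1125899906842624) .dd))) (.br (nat_lit 31) (.ch (nat_lit 29)
 (.ev (nat_lit 656) (nat_lit 45036546029518848) (.ev (nat_lit 708) (nat_lit 1134695999864832) (.ev (nat_lit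
 717) (nat_lit 4611686018427387904) .dd)))) (.ch (nat_lit 31) (.ev (nat_lit 656) (nat_lit 9007199254740992)
 (.ev (nat_lit 708) (nat_lit 4611686018427387904) (.ev (nat_lit 736) (nat_lit 8796093022208) (.ev (nat_lit 832)
 (nat_lit 1125899906842624) (.ev (nat_lit 880) (nat_lit 36028797018963968) (.ev (nat_lit 893) (nat_lit
 549755813888) .dd))))))))) (.br (nat_lit 38) (.br (nat_lit 34) (.ch (nat_lit 33) (.ev (nat_lit 656) (nat_lit
 4657857260456771584) .dd)) (.ch (nat_lit 34) (.ev (nat_lit 656) (nat_lit 4657848464363749376) (.ev (nat_lit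
 669) (nat_lit 8796093022208) .dd)))) (.br (nat_lit 40) (.ch (nat_lit 38) (.ev (nat_lit 656) (nat_lit
 4612821264183066624) (.ev (nat_lit 752) (nat_lit 36028797018963968) (.ev (nat_lit 765) (nat_lit
 9007199254740992) .dd)))) (.ch (nat_lit 40) (.ev (nat_lit 656) (nat_lit 4657857260456771584)
 .dd)))))))))))))))) (.br (nat_lit 50) (.ch (nat_lit 49) (.ev (nat_lit 52) (nat_lit 152222239159831037952) (.ev
 (nat_lit 84) (nat_lit 18084767253659648) (.ev (nat_lit 148) (nat_lit 1125899906842624) (.ev (nat_lit 180)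
 (nat_lit 550292684800) (.ev (nat_lit 212) (nat_lit 9007199263129600) (.ev (nat_lit 244) (nat_lit 32768) (.nd
 (nat_lit 640) (.br (nat_lit 26) (.br (nat_lit 9) (.br (nat_lit 6) (.ch (nat_lit 0) (.ev (nat_lit 656) (nat_lit
 140754685005856) (.ev (nat_lit 672) (nat_lit 4398046511104) (.ev (nat_lit 685) (nat_lit 288230376151711744)
 .dd)))) (.br (nat_lit 8) (.ch (nat_lit 6) (.ev (nat_lit 656) (nat_lit 288234791394873344) (.ev (nat_lit 708)
 (nat_lit 140737488355328) (.ev (nat_lit 717) (nat_lit 32) .dd)))) (.ch (nat_lit 8) (.ev (nat_lit 656) (nat_lit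
 145152731512864) (.ev (nat_lit 708) (nat_lit 4096) (.ev (nat_lit 717) (nat_lit 288230376151711744) .dd))))))
 (.br (nat_lit 20) (.ch (nat_lit 9) (.ev (nat_lit 656) (nat_lit 145152731516960) (.ev (nat_lit 669) (nat_lit
 288230376151711744) .dd))) (.br (nat_lit 25) (.ch (nat_lit 20) (.ev (nat_lit 656) (nat_lit 288230376168493088)
 (.ev (nat_lit 708) (nat_lit 140737488355328) (.ev (nat_lit 720) (nat_lit 4398046511104) (.ev (nat_lit 733)
 (nat_lit 17179869184) .dd))))) (.ch (nat_lit 25) (.ev (nat_lit 656) (nat_lit 288375528883228704) .dd))))) (.br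
 (nat_lit 33) (.br (nat_lit 28) (.ch (nat_lit 26) (.ev (nat_lit 656) (nat_lit 288375528883228704) .dd)) (.br
 (nat_lit 29) (.ch (nat_lit 28) (.ev (nat_lit 656) (nat_lit 288375528883224608) (.ev (nat_lit 669) (nat_lit
 4096) .dd))) (.ch (nat_lit 29) (.ev (nat_lit 656) (nat_lit 17196646432) (.ev (nat_lit 708) (nat_lit
 140737488359424) (.ev (nat_lit 832) (nat_lit 288230376151711744) (.ev (nat_lit 845) (nat_lit 4398046511104)
 .dd))))))) (.br (nat_lit 40) (.br (nat_lit 34) (.ch (nat_lit 33) (.ev (nat_lit 656) (nat_lit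
 288375528883228704) .dd)) (.ch (nat_lit 34) (.ev (nat_lit 656) (nat_lit 288375511703359488) (.ev (nat_lit 708)
 (nat_lit 32) (.ev (nat_lit 717) (nat_lit 17179869184) .dd))))) (.br (nat_lit 42) (.ch (nat_lit 40) (.ev
 (nat_lit 656) (nat_lit 288375528883228704) .dd)) (.ch (nat_lit 42) (.ev (nat_lit 656) (nat_lit
 288375528866447392) (.ev (nat_lit 708) (nat_lit 4096) (.ev (nat_lit 717) (nat_lit 16777216)
 .dd)))))))))))))))) (.br (nat_lit 52) (.ch (nat_lit 50) (.ev (nat_lit 52) (nat_lit 306948462132396064) (.ev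
 (nat_lit 84) (nat_lit 4398046513152) (.ev (nat_lit 116) (nat_lit 4611686018427387904) (.ev (nat_lit 148)
 (nat_lit 147574022967547396096) (.ev (nat_lit 180) (nat_lit 524288) (.ev (nat_lit 244) (nat_lit 549755813888)
 (.nd (nat_lit 640) (.br (nat_lit 19) (.br (nat_lit 12) (.br (nat_lit 6) (.ch (nat_lit 4) (.ev (nat_lit 656)
 (nat_lit 37163493018865664) (.ev (nat_lit 708) (nat_lit 9007216434610176) (.ev (nat_lit 717) (nat_lit
 67108864) .dd)))) (.br (nat_lit 11) (.ch (nat_lit 6) (.ev (nat_lit 656) (nat_lit 46170709520584704) .dd)) (.ch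
 (nat_lit 11) (.ev (nat_lit 656) (nat_lit 10141912501587968) (.ev (nat_lit 928) (nat_lit 32768) (.ev (nat_lit
 941) (nat_lit 36028797018963968) .dd)))))) (.br (nat_lit 15) (.ch (nat_lit 12) (.ev (nat_lit 656) (nat_lit
 46170709453475840) (.ev (nat_lit 669) (nat_lit 67108864) .dd))) (.br (nat_lit 16) (.ch (nat_lit 15) (.ev
 (nat_lit 656) (nat_lit 37163510265843712) (.ev (nat_lit 669) (nat_lit 9007199254740992) .dd))) (.ch (nat_lit
 16) (.ev (nat_lit 656) (nat_lit 45044792433840128) (.ev (nat_lit 672) (nat_lit 17179869184) (.ev (nat_lit 736)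
 (nat_lit 32768) (.ev (nat_lit 749) (nat_lit 1125899906842624) .dd)))))))) (.br (nat_lit 29) (.br (nat_lit 25)
 (.ch (nat_lit 19) (.ev (nat_lit 656) (nat_lit 45036013520687104) (.ev (nat_lit 672) (nat_lit 1125899906842624)
 (.ev (nat_lit 720) (nat_lit 32768) (.ev (nat_lit 733) (nat_lit 8796093022208) .dd))))) (.br (nat_lit 26) (.ch
 (nat_lit 25) (.ev (nat_lit 656) (nat_lit 45044809613709312) (.ev (nat_lit 708) (nat_lit 32768) (.ev (nat_lit
 717) (nat_lit 1125899906842624) .dd)))) (.ch (nat_lit 26) (.ev (nat_lit 656) (nat_lit 46170709453471744) (.ev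
 (nat_lit 768) (nat_lit 4096) (.ev (nat_lit 781) (nat_lit 67108864) .dd)))))) (.br (nat_lit 34) (.br (nat_lit
 32) (.ch (nat_lit 29) (.ev (nat_lit 656) (nat_lit 45044809613742080) (.ev (nat_lit 669) (nat_lit
 1125899906842624) .dd))) (.ch (nat_lit 32) (.ev (nat_lit 656) (nat_lit 37154714172817408) (.ev (nat_lit 848)
 (nat_lit 8796093022208) (.ev (nat_lit 960) (nat_lit 9007199254745088) .dd))))) (.br (nat_lit 38) (.ch (nat_lit
 34) (.ev (nat_lit 656) (nat_lit 37163493018865664) (.ev (nat_lit 736) (nat_lit 17179869184) (.ev (nat_lit 832)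
 (nat_lit 9007199254740992) (.ev (nat_lit 845) (nat_lit 67108864) .dd))))) (.ch (nat_lit 38) (.ev (nat_lit 656)
 (nat_lit 9015995414908928) (.ev (nat_lit 720) (nat_lit 17179869184) (.ev (nat_lit 912) (nat_lit
 36028797018963968) (.ev (nat_lit 925) (nat_lit 1125899906842624) .dd))))))))))))))))) (.ch (nat_lit 52) (.ev
 (nat_lit 52) (nat_lit 10142471392661504) (.ev (nat_lit 84) (nat_lit 524288) (.ev (nat_lit 148) (nat_lit
 288230376168488992) (.ev (nat_lit 180) (nat_lit 152221667405122764800) (.ev (nat_lit 244) (nat_lit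
 562949953454080) (.nd (nat_lit 640) (.br (nat_lit 26) (.br (nat_lit 15) (.br (nat_lit 9) (.ch (nat_lit 4) (.ev
 (nat_lit 656) (nat_lit 74766794885120) (.fin (nat_lit 576462401572389439)))) (.br (nat_lit 13) (.ch (nat_lit
 9) (.ev (nat_lit 656) (nat_lit 18225504746211328) (.ev (nat_lit 669) (nat_lit 4398046511104) .dd))) (.ch
 (nat_lit 13) (.ev (nat_lit 656) (nat_lit 74766790690816) (.ev (nat_lit 736) (nat_lit 4194304) (.ev (nat_lit
 1028) (nat_lit 18014398509481984) (.ev (nat_lit 1037) (nat_lit 140737488355328) .dd))))))) (.br (nat_lit 23)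
 (.ch (nat_lit 15) (.ev (nat_lit 656) (nat_lit 18229902788528128) (.ev (nat_lit 669) (nat_lit 4194304) .dd)))
 (.br (nat_lit 25) (.ch (nat_lit 23) (.ev (nat_lit 656) (nat_lit 18225504742017024) (.ev (nat_lit 1028)
 (nat_lit 4194304) (.ev (nat_lit 1037) (nat_lit 4398046511104) .dd)))) (.ch (nat_lit 25) (.ev (nat_lit 656)
 (nat_lit 18229902788528128) (.ev (nat_lit 669) (nat_lit 4194304) .dd)))))) (.br (nat_lit 32) (.br (nat_lit 28)
 (.ch (nat_lit 26) (.ev (nat_lit 656) (nat_lit 18229902792720384) (.ev (nat_lit 669) (nat_lit 2048) .dd))) (.br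
 (nat_lit 29) (.ch (nat_lit 28) (.ev (nat_lit 656) (nat_lit 18159534044350464) (.ev (nat_lit 992) (nat_lit
 70368748371968) .dd))) (.ch (nat_lit 29) (.ev (nat_lit 656) (nat_lit 74766794883072) (.ev (nat_lit 720)
 (nat_lit 2048) (.ev (nat_lit 1028) (nat_lit 140737488355328) (.ev (nat_lit 1037) (nat_lit 18014398509481984)
 .dd))))))) (.br (nat_lit 34) (.br (nat_lit 33) (.ch (nat_lit 32) (.ev (nat_lit 656) (nat_lit 4196352) (.ev
 (nat_lit 672) (nat_lit 4398046511104) (.ev (nat_lit 708) (nat_lit 70368744177664) (.ev (nat_lit 1040) (nat_lit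
 140737488355328) (.ev (nat_lit 1053) (nat_lit 18014398509481984) .dd)))))) (.ch (nat_lit 33) (.ev (nat_lit
 656) (nat_lit 18089165304365056) (.ev (nat_lit 708) (nat_lit 2048) (.ev (nat_lit 717) (nat_lit
 140737488355328) .dd))))) (.br (nat_lit 40) (.ch (nat_lit 34) (.ev (nat_lit 656) (nat_lit 4398050707456) (.ev
 (nat_lit 708) (nat_lit 211106232532992) (.ev (nat_lit 717) (nat_lit 18014398509481984) .dd)))) (.ch (nat_lit
 40) (.ev (nat_lit 656) (nat_lit 215504283240448) (.ev (nat_lit 669) (nat_lit 18014398509481984)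
 .dd))))))))))))))))))))))

/-- Subtrie. -/
noncomputable def T9 : Tr := (.ev (nat_lit 20) (nat_lit 189245087111570266376) (.nd (nat_lit 33) (.br (nat_lit
 31) (.br (nat_lit 16) (.br (nat_lit 10) (.br (nat_lit 6) (.br (nat_lit 5) (.ch (nat_lit 4) (.ev (nat_lit 52)
 (nat_lit 885732017133895024800) (.ev (nat_lit 84) (nat_lit 18446744073709551616) (.ev (nat_lit 116) (nat_lit
 8388608) (.ev (nat_lit 148) (nat_lit 4194304) (.ev (nat_lit 160) (nat_lit 1180637219663639052306) .dd))))))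
 (.ch (nat_lit 5) (.ev (nat_lit 52) (nat_lit 608788153936988176530) (.ev (nat_lit 84) (nat_lit 536870912) (.ev
 (nat_lit 116) (nat_lit 524288) (.ev (nat_lit 148) (nat_lit 1180591620717411303424) (.ev (nat_lit 160) (nat_lit
 295436206216319336480) .dd))))))) (.br (nat_lit 9) (.ch (nat_lit 6) (.ev (nat_lit 52) (nat_lit
 1789631413284124262402) (.ev (nat_lit 84) (nat_lit 70368744177696) (.ev (nat_lit 116) (nat_lit 274877906944)
 (.ev (nat_lit 180) (nat_lit 524288) (.nd (nat_lit 640) (.br (nat_lit 24) (.br (nat_lit 9) (.br (nat_lit 8)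
 (.ch (nat_lit 6) (.ev (nat_lit 656) (nat_lit 295184496943509340176) (.ev (nat_lit 669) (nat_lit 128) .dd)))
 (.ch (nat_lit 8) (.ev (nat_lit 656) (nat_lit 295183933993555853456) (.ev (nat_lit 816) (nat_lit 65536) (.ev
 (nat_lit 829) (nat_lit 562949953421312) .dd))))) (.br (nat_lit 10) (.ch (nat_lit 9) (.ev (nat_lit 656)
 (nat_lit 36591764152320128) (.ev (nat_lit 672) (nat_lit 295147905179352825856) (.ev (nat_lit 708) (nat_lit
 4194304) (.ev (nat_lit 717) (nat_lit 16) .dd))))) (.br (nat_lit 11) (.ch (nat_lit 10) (.ev (nat_lit 656)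
 (nat_lit 36591764156514448) (.ev (nat_lit 669) (nat_lit 295147905179352825856) .dd))) (.ch (nat_lit 11) (.ev
 (nat_lit 656) (nat_lit 295184496943505145856) (.ev (nat_lit 752) (nat_lit 4194304) (.ev (nat_lit 1008)
 (nat_lit 144) .dd))))))) (.br (nat_lit 30) (.br (nat_lit 27) (.ch (nat_lit 24) (.ev (nat_lit 656) (nat_lit
 295184496926329470992) (.ev (nat_lit 1028) (nat_lit 17179869184) (.ev (nat_lit 1037) (nat_lit 128) .dd))))
 (.ch (nat_lit 27) (.ev (nat_lit 656) (nat_lit 36591746976645264) (.ev (nat_lit 708) (nat_lit 17179869184) (.ev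
 (nat_lit 717) (nat_lit 295147905179352825856) .dd))))) (.br (nat_lit 33) (.ch (nat_lit 30) (.ev (nat_lit 656)
 (nat_lit 295147905196536955024) (.ev (nat_lit 816) (nat_lit 36028797018963968) (.ev (nat_lit 829) (nat_lit
 562949953421312) .dd)))) (.br (nat_lit 38) (.ch (nat_lit 33) (.ev (nat_lit 656) (nat_lit 36591746976645120)
 (.ev (nat_lit 1028) (nat_lit 17179869328) (.ev (nat_lit 1037) (nat_lit 295147905179352825856) .dd)))) (.ch
 (nat_lit 38) (.ev (nat_lit 656) (nat_lit 562967137484816) (.ev (nat_lit 736) (nat_lit 65536) (.ev (nat_lit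
 976) (nat_lit 36028797018963968) (.fin (nat_lit 576456904011104812)))))))))))))))) (.ch (nat_lit 9) (.ev
 (nat_lit 52) (nat_lit 45599770873462800) (.ev (nat_lit 84) (nat_lit 1180591620717411303424) (.ev (nat_lit 116)
 (nat_lit 17179869184) (.ev (nat_lit 148) (nat_lit 32) (.ev (nat_lit 180) (nat_lit 65536) (.ev (nat_lit 212)
 (nat_lit 8589934592) (.ev (nat_lit 308) (nat_lit 262144) (.ev (nat_lit 372) (nat_lit 288230376151711744) (.nd
 (nat_lit 640) (.br (nat_lit 24) (.br (nat_lit 9) (.br (nat_lit 7) (.ch (nat_lit 1) (.ev (nat_lit 656) (nat_lit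
 903890529981049602178) .dd)) (.br (nat_lit 8) (.ch (nat_lit 7) (.ev (nat_lit 656) (nat_lit
 885443785907339526274) (.ev (nat_lit 708) (nat_lit 18446744073709551616) (.ev (nat_lit 717) (nat_lit 524288)
 .dd)))) (.ch (nat_lit 8) (.ev (nat_lit 656) (nat_lit 903890529981049602178) .dd)))) (.br (nat_lit 10) (.ch
 (nat_lit 9) (.ev (nat_lit 656) (nat_lit 313594649253599248514) (.ev (nat_lit 708) (nat_lit
 590295880727449829376) (.ev (nat_lit 717) (nat_lit 524288) .dd)))) (.br (nat_lit 19) (.ch (nat_lit 10) (.ev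
 (nat_lit 656) (nat_lit 313594719621807079552) (.ev (nat_lit 720) (nat_lit 536870912) (.ev (nat_lit 960)
 (nat_lit 590295810358705651712) (.ev (nat_lit 973) (nat_lit 2) .dd))))) (.ch (nat_lit 19) (.ev (nat_lit 656)
 (nat_lit 903890529981049602178) .dd))))) (.br (nat_lit 38) (.br (nat_lit 31) (.ch (nat_lit 24) (.ev (nat_lit
 656) (nat_lit 313594719622343950466) (.ev (nat_lit 669) (nat_lit 590295810358705651712) .dd))) (.br (nat_lit
 32) (.ch (nat_lit 31) (.ev (nat_lit 656) (nat_lit 885443785907340050434) (.ev (nat_lit 672) (nat_lit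
 18446744073709551616) (.ev (nat_lit 685) (nat_lit 128) .dd)))) (.ch (nat_lit 32) (.ev (nat_lit 656) (nat_lit
 903890529981049602176) (.ev (nat_lit 669) (nat_lit 2) .dd))))) (.br (nat_lit 39) (.ch (nat_lit 38) (.ev
 (nat_lit 656) (nat_lit 608742624801696776194) (.fin (nat_lit 576456904011104812)))) (.br (nat_lit 40) (.ch
 (nat_lit 39) (.ev (nat_lit 656) (nat_lit 903890459612305424512) (.ev (nat_lit 708) (nat_lit 2) (.ev (nat_lit
 717) (nat_lit 70368744177664) .dd)))) (.ch (nat_lit 40) (.ev (nat_lit 656) (nat_lit 903890529981049602178)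
 .dd)))))))))))))))))) (.br (nat_lit 12) (.br (nat_lit 11) (.ch (nat_lit 10) (.ev (nat_lit 52) (nat_lit
 313640319134969430192) (.ev (nat_lit 116) (nat_lit 288230376151711744) (.ev (nat_lit 148) (nat_lit 536870912)
 (.ev (nat_lit 180) (nat_lit 4194304) (.ev (nat_lit 212) (nat_lit 9175040) (.ev (nat_lit 308) (nat_lit
 8589934592) (.nd (nat_lit 640) (.br (nat_lit 23) (.br (nat_lit 8) (.br (nat_lit 2) (.ch (nat_lit 1) (.ev
 (nat_lit 656) (nat_lit 32770) (.ev (nat_lit 944) (nat_lit 1180591620717411303424) (.fin (nat_lit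
 576421719689347640))))) (.br (nat_lit 7) (.ch (nat_lit 2) (.ev (nat_lit 656) (nat_lit 1770887431350994862082)
 (.ev (nat_lit 669) (nat_lit 32768) .dd))) (.ch (nat_lit 7) (.ev (nat_lit 656) (nat_lit 1770887431350994862082)
 (.ev (nat_lit 669) (nat_lit 32768) .dd))))) (.br (nat_lit 11) (.ch (nat_lit 8) (.ev (nat_lit 656) (nat_lit
 1770887431350994894850) .dd)) (.br (nat_lit 18) (.ch (nat_lit 11) (.ev (nat_lit 656) (nat_lit
 1180591620992289210370) (.ev (nat_lit 672) (nat_lit 32768) (.ev (nat_lit 685) (nat_lit 590295810358705651712)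
 .dd)))) (.ch (nat_lit 18) (.ev (nat_lit 656) (nat_lit 1770887431350994862082) (.ev (nat_lit 669) (nat_lit
 32768) .dd)))))) (.br (nat_lit 27) (.br (nat_lit 24) (.ch (nat_lit 23) (.ev (nat_lit 656) (nat_lit
 1770887431350994894850) .dd)) (.br (nat_lit 25) (.ch (nat_lit 24) (.ev (nat_lit 656) (nat_lit
 1180591620717411336194) (.ev (nat_lit 976) (nat_lit 590295810358705651712) (.ev (nat_lit 989) (nat_lit
 274877906944) .dd)))) (.ch (nat_lit 25) (.ev (nat_lit 656) (nat_lit 590295810358705684482) (.ev (nat_lit 672)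
 (nat_lit 274877906944) (.ev (nat_lit 685) (nat_lit 1180591620717411303424) .dd)))))) (.br (nat_lit 31) (.br
 (nat_lit 30) (.ch (nat_lit 27) (.ev (nat_lit 656) (nat_lit 1770887431350994894850) .dd)) (.ch (nat_lit 30)
 (.ev (nat_lit 656) (nat_lit 590295810633583591426) (.ev (nat_lit 669) (nat_lit 1180591620717411303424) .dd))))
 (.br (nat_lit 39) (.ch (nat_lit 31) (.ev (nat_lit 656) (nat_lit 590295810633583591426) (.ev (nat_lit 669)
 (nat_lit 1180591620717411303424) .dd))) (.ch (nat_lit 39) (.ev (nat_lit 656) (nat_lit 1770887431076116987904)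
 (.ev (nat_lit 708) (nat_lit 274877906944) (.ev (nat_lit 717) (nat_lit 2) .dd)))))))))))))))) (.ch (nat_lit 11)
 (.ev (nat_lit 52) (nat_lit 885444349131642962050) (.ev (nat_lit 64) (nat_lit 1199371631739613249584) .dd))))
 (.br (nat_lit 15) (.ch (nat_lit 12) (.ev (nat_lit 52) (nat_lit 1199084034114690744322) (.ev (nat_lit 116)
 (nat_lit 295147905179352825984) (.ev (nat_lit 180) (nat_lit 590295810375885553680) (.ev (nat_lit 212) (nat_lit
 537395200) (.ev (nat_lit 276) (nat_lit 274877906944) (.ev (nat_lit 528) (nat_lit 32) (.nd (nat_lit 640) (.br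
 (nat_lit 19) (.br (nat_lit 10) (.br (nat_lit 2) (.ch (nat_lit 1) (.ev (nat_lit 656) (nat_lit
 288230925911785472) .dd)) (.br (nat_lit 8) (.ch (nat_lit 2) (.ev (nat_lit 656) (nat_lit 288230376155906048)
 (.ev (nat_lit 976) (nat_lit 65536) (.ev (nat_lit 989) (nat_lit 549755813888) .dd)))) (.ch (nat_lit 8) (.ev
 (nat_lit 656) (nat_lit 288230925911719936) (.ev (nat_lit 669) (nat_lit 65536) .dd))))) (.br (nat_lit 14) (.ch
 (nat_lit 10) (.ev (nat_lit 656) (nat_lit 65536) (.ev (nat_lit 768) (nat_lit 549755813888) (.ev (nat_lit 832)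
 (nat_lit 288230376151711744) (.ev (nat_lit 845) (nat_lit 4194304) .dd))))) (.br (nat_lit 18) (.ch (nat_lit 14)
 (.ev (nat_lit 656) (nat_lit 288230925911785472) .dd)) (.ch (nat_lit 18) (.ev (nat_lit 656) (nat_lit
 549760073728) (.ev (nat_lit 669) (nat_lit 288230376151711744) .dd)))))) (.br (nat_lit 31) (.br (nat_lit 27)
 (.ch (nat_lit 19) (.ev (nat_lit 656) (nat_lit 288230376155906048) (.fin (nat_lit 576421719594975800)))) (.br
 (nat_lit 30) (.ch (nat_lit 27) (.ev (nat_lit 656) (nat_lit 549760073728) (.ev (nat_lit 669) (nat_lit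
 288230376151711744) .dd))) (.ch (nat_lit 30) (.ev (nat_lit 656) (nat_lit 288230925911785472) .dd)))) (.br
 (nat_lit 32) (.ch (nat_lit 31) (.ev (nat_lit 656) (nat_lit 288230925911785472) .dd)) (.br (nat_lit 40) (.ch
 (nat_lit 32) (.ev (nat_lit 656) (nat_lit 288230925911719936) (.ev (nat_lit 669) (nat_lit 65536) .dd))) (.ch
 (nat_lit 40) (.ev (nat_lit 656) (nat_lit 288230925911785472) .dd)))))))))))))) (.ch (nat_lit 15) (.ev (nat_lit
 52) (nat_lit 295436698523179712640) (.ev (nat_lit 116) (nat_lit 9007207844675584) (.ev (nat_lit 180) (nat_lit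
 36099715518955552) (.ev (nat_lit 212) (nat_lit 18446744073717940224) (.ev (nat_lit 276) (nat_lit 65536) (.ev
 (nat_lit 544) (nat_lit 16) (.nd (nat_lit 640) (.br (nat_lit 19) (.br (nat_lit 10) (.br (nat_lit 2) (.ch
 (nat_lit 1) (.ev (nat_lit 656) (nat_lit 1180591620717411303426) (.fin (nat_lit 576421719689347640)))) (.br
 (nat_lit 6) (.ch (nat_lit 2) (.ev (nat_lit 656) (nat_lit 1770887431350994862080) (.ev (nat_lit 669) (nat_lit
 2) .dd))) (.ch (nat_lit 6) (.ev (nat_lit 656) (nat_lit 1770887431350994862082) .dd)))) (.br (nat_lit 12) (.ch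
 (nat_lit 10) (.ev (nat_lit 656) (nat_lit 274877906944) (.ev (nat_lit 768) (nat_lit 590295810358705651712) (.ev
 (nat_lit 832) (nat_lit 2) (.ev (nat_lit 845) (nat_lit 1180591620717411303424) .dd))))) (.br (nat_lit 18) (.ch
 (nat_lit 12) (.ev (nat_lit 656) (nat_lit 1770887431076116955138) (.ev (nat_lit 669) (nat_lit 274877906944)
 .dd))) (.ch (nat_lit 18) (.ev (nat_lit 656) (nat_lit 1180591620717411303426) (.ev (nat_lit 976) (nat_lit
 274877906944) (.ev (nat_lit 989) (nat_lit 590295810358705651712) .dd))))))) (.br (nat_lit 32) (.br (nat_lit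
 23) (.ch (nat_lit 19) (.ev (nat_lit 656) (nat_lit 1770887431350994862082) .dd)) (.br (nat_lit 31) (.ch
 (nat_lit 23) (.ev (nat_lit 656) (nat_lit 1770887431350994862082) .dd)) (.ch (nat_lit 31) (.ev (nat_lit 656)
 (nat_lit 1770887431076116955138) (.ev (nat_lit 669) (nat_lit 274877906944) .dd))))) (.br (nat_lit 33) (.ch
 (nat_lit 32) (.ev (nat_lit 656) (nat_lit 1770887431350994862082) .dd)) (.br (nat_lit 36) (.ch (nat_lit 33)
 (.ev (nat_lit 656) (nat_lit 1770887431350994862082) .dd)) (.ch (nat_lit 36) (.ev (nat_lit 656) (nat_lit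
 1770887431350994862080) (.ev (nat_lit 669) (nat_lit 2) .dd)))))))))))))))))) (.br (nat_lit 22) (.br (nat_lit
 18) (.br (nat_lit 17) (.ch (nat_lit 16) (.ev (nat_lit 52) (nat_lit 1199362694333036298256) (.ev (nat_lit 64)
 (nat_lit 885453286538219913378) .dd))) (.ch (nat_lit 17) (.ev (nat_lit 52) (nat_lit 1180600698302599102498)
 (.ev (nat_lit 64) (nat_lit 904215282568657109136) .dd)))) (.br (nat_lit 21) (.ch (nat_lit 18) (.ev (nat_lit
 52) (nat_lit 1771175661452806160512) (.ev (nat_lit 84) (nat_lit 9007199254740992) (.ev (nat_lit 116) (nat_lit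
 36099165763403776) (.ev (nat_lit 148) (nat_lit 18446744090889420800) (.ev (nat_lit 180) (nat_lit 8589934592)
 (.ev (nat_lit 212) (nat_lit 295147905454243315712) (.nd (nat_lit 640) (.br (nat_lit 13) (.br (nat_lit 9) (.br
 (nat_lit 2) (.ch (nat_lit 1) (.ev (nat_lit 656) (nat_lit 562949953421346) (.ev (nat_lit 708) (nat_lit 16) (.ev
 (nat_lit 717) (nat_lit 549755813888) .dd)))) (.br (nat_lit 8) (.ch (nat_lit 2) (.ev (nat_lit 656) (nat_lit
 549755813906) (.ev (nat_lit 992) (nat_lit 32) (.ev (nat_lit 1005) (nat_lit 562949953421312) .dd)))) (.ch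
 (nat_lit 8) (.ev (nat_lit 656) (nat_lit 549755813936) (.ev (nat_lit 720) (nat_lit 2) (.ev (nat_lit 733)
 (nat_lit 562949953421312) .dd)))))) (.br (nat_lit 10) (.ch (nat_lit 9) (.ev (nat_lit 656) (nat_lit
 562949953421346) (.ev (nat_lit 708) (nat_lit 16) (.ev (nat_lit 717) (nat_lit 549755813888) .dd)))) (.br
 (nat_lit 11) (.ch (nat_lit 10) (.ev (nat_lit 656) (nat_lit 562949953421362) (.ev (nat_lit 669) (nat_lit
 549755813888) .dd))) (.ch (nat_lit 11) (.ev (nat_lit 656) (nat_lit 562949953421362) (.ev (nat_lit 669)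
 (nat_lit 549755813888) .dd)))))) (.br (nat_lit 33) (.br (nat_lit 19) (.ch (nat_lit 13) (.ev (nat_lit 656)
 (nat_lit 563499709235250) .dd)) (.br (nat_lit 30) (.ch (nat_lit 19) (.ev (nat_lit 656) (nat_lit
 563499709235202) (.ev (nat_lit 672) (nat_lit 16) (.ev (nat_lit 685) (nat_lit 32) .dd)))) (.ch (nat_lit 30)
 (.ev (nat_lit 656) (nat_lit 563499709235232) (.ev (nat_lit 708) (nat_lit 2) (.ev (nat_lit 717) (nat_lit 16)
 .dd)))))) (.br (nat_lit 39) (.br (nat_lit 36) (.ch (nat_lit 33) (.ev (nat_lit 656) (nat_lit 50) (.ev (nat_lit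
 736) (nat_lit 549755813888) (.ev (nat_lit 749) (nat_lit 562949953421312) .dd)))) (.ch (nat_lit 36) (.ev
 (nat_lit 656) (nat_lit 563499709235250) .dd))) (.br (nat_lit 40) (.ch (nat_lit 39) (.ev (nat_lit 656) (nat_lit
 563499709235248) (.ev (nat_lit 669) (nat_lit 2) .dd))) (.ch (nat_lit 40) (.ev (nat_lit 656) (nat_lit
 563499709235250) .dd)))))))))))))) (.ch (nat_lit 21) (.ev (nat_lit 52) (nat_lit 2066035406641394679840) (.ev
 (nat_lit 84) (nat_lit 4194304) (.ev (nat_lit 116) (nat_lit 36028797018963968) (.ev (nat_lit 148) (nat_lit 16)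
 (.ev (nat_lit 180) (nat_lit 274877906944) (.ev (nat_lit 212) (nat_lit 128) (.ev (nat_lit 308) (nat_lit
 562949953421312) (.ev (nat_lit 372) (nat_lit 2) (.nd (nat_lit 640) (.br (nat_lit 23) (.br (nat_lit 12) (.br
 (nat_lit 10) (.ch (nat_lit 1) (.ev (nat_lit 656) (nat_lit 18743982208007045120) .dd)) (.br (nat_lit 11) (.ch
 (nat_lit 10) (.ev (nat_lit 656) (nat_lit 9007208389967872) (.ev (nat_lit 720) (nat_lit 18446744073709551616)
 (.ev (nat_lit 960) (nat_lit 549755813888) (.ev (nat_lit 973) (nat_lit 288230376151711744) .dd))))) (.ch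
 (nat_lit 11) (.ev (nat_lit 656) (nat_lit 18743981658242809856) (.ev (nat_lit 708) (nat_lit 549755846656) (.ev
 (nat_lit 717) (nat_lit 8388608) .dd)))))) (.br (nat_lit 13) (.ch (nat_lit 12) (.ev (nat_lit 656) (nat_lit
 18743982208007045120) .dd)) (.br (nat_lit 19) (.ch (nat_lit 13) (.ev (nat_lit 656) (nat_lit
 18743982207461785600) (.ev (nat_lit 708) (nat_lit 536870912) (.ev (nat_lit 717) (nat_lit 8388608) .dd)))) (.ch
 (nat_lit 19) (.ev (nat_lit 656) (nat_lit 18743982208007045120) .dd))))) (.br (nat_lit 31) (.br (nat_lit 24)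
 (.ch (nat_lit 23) (.ev (nat_lit 656) (nat_lit 18743982208007045120) .dd)) (.br (nat_lit 25) (.ch (nat_lit 24)
 (.ev (nat_lit 656) (nat_lit 18455751831855300608) (.ev (nat_lit 708) (nat_lit 288230376151711744) (.ev
 (nat_lit 717) (nat_lit 32768) .dd)))) (.ch (nat_lit 25) (.ev (nat_lit 656) (nat_lit 18734975000162369536)
 (.fin (nat_lit 576456904017396268)))))) (.br (nat_lit 32) (.ch (nat_lit 31) (.ev (nat_lit 656) (nat_lit
 18455751831855333376) (.ev (nat_lit 669) (nat_lit 288230376151711744) .dd))) (.br (nat_lit 39) (.ch (nat_lit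
 32) (.ev (nat_lit 656) (nat_lit 18743982198880239616) (.ev (nat_lit 672) (nat_lit 536870912) (.ev (nat_lit
 685) (nat_lit 8589934592) .dd)))) (.ch (nat_lit 39) (.ev (nat_lit 656) (nat_lit 18743981658251231232) (.ev
 (nat_lit 669) (nat_lit 549755813888) .dd))))))))))))))))))) (.br (nat_lit 26) (.br (nat_lit 24) (.ch (nat_lit
 22) (.ev (nat_lit 52) (nat_lit 2066035336805762564096) (.ev (nat_lit 84) (nat_lit 8388608) (.ev (nat_lit 116)
 (nat_lit 18446744090893615104) (.ev (nat_lit 148) (nat_lit 45036004863639552) (.ev (nat_lit 180) (nat_lit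
 274877906994) (.ev (nat_lit 212) (nat_lit 128) (.ev (nat_lit 276) (nat_lit 524288) (.nd (nat_lit 640) (.br
 (nat_lit 23) (.br (nat_lit 12) (.br (nat_lit 9) (.ch (nat_lit 7) (.ev (nat_lit 656) (nat_lit 633318697598976)
 (.ev (nat_lit 736) (nat_lit 288230376151711744) (.ev (nat_lit 749) (nat_lit 262144) .dd)))) (.br (nat_lit 10)
 (.ch (nat_lit 9) (.ev (nat_lit 656) (nat_lit 288793326105133056) (.ev (nat_lit 708) (nat_lit 262144) (.ev
 (nat_lit 717) (nat_lit 70368744177664) .dd)))) (.ch (nat_lit 10) (.ev (nat_lit 656) (nat_lit 633318697861120)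
 (.ev (nat_lit 669) (nat_lit 288230376151711744) .dd))))) (.br (nat_lit 13) (.ch (nat_lit 12) (.ev (nat_lit
 656) (nat_lit 288793326105395200) (.ev (nat_lit 669) (nat_lit 70368744177664) .dd))) (.br (nat_lit 18) (.ch
 (nat_lit 13) (.ev (nat_lit 656) (nat_lit 288793326105395200) (.ev (nat_lit 669) (nat_lit 70368744177664)
 .dd))) (.ch (nat_lit 18) (.ev (nat_lit 656) (nat_lit 288300744896151552) (.ev (nat_lit 669) (nat_lit
 562949953421312) .dd)))))) (.br (nat_lit 30) (.br (nat_lit 24) (.ch (nat_lit 23) (.ev (nat_lit 656) (nat_lit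
 288863694849310720) (.ev (nat_lit 669) (nat_lit 262144) .dd))) (.br (nat_lit 27) (.ch (nat_lit 24) (.ev
 (nat_lit 656) (nat_lit 288793326105395200) (.ev (nat_lit 669) (nat_lit 70368744177664) .dd))) (.ch (nat_lit
 27) (.ev (nat_lit 656) (nat_lit 633318697861120) (.ev (nat_lit 669) (nat_lit 288230376151711744) .dd))))) (.br
 (nat_lit 32) (.br (nat_lit 31) (.ch (nat_lit 30) (.ev (nat_lit 656) (nat_lit 288300744896151552) (.ev (nat_lit
 669) (nat_lit 562949953421312) .dd))) (.ch (nat_lit 31) (.ev (nat_lit 656) (nat_lit 288863694849572864) .dd)))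
 (.br (nat_lit 36) (.ch (nat_lit 32) (.ev (nat_lit 656) (nat_lit 633318697861120) (.ev (nat_lit 669) (nat_lit
 288230376151711744) .dd))) (.ch (nat_lit 36) (.ev (nat_lit 656) (nat_lit 562949953683456) (.fin (nat_lit
 576442610378818156))))))))))))))))) (.ch (nat_lit 24) (.ev (nat_lit 52) (nat_lit 313604290347081695234) (.ev
 (nat_lit 116) (nat_lit 36028797018964000) (.ev (nat_lit 180) (nat_lit 590295810358705651712) (.ev (nat_lit
 212) (nat_lit 288230651029618816) (.ev (nat_lit 244) (nat_lit 65536) (.nd (nat_lit 640) (.br (nat_lit 14) (.br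
 (nat_lit 8) (.br (nat_lit 6) (.br (nat_lit 2) (.ch (nat_lit 1) (.ev (nat_lit 656) (nat_lit
 1180591620717419692048) (.ev (nat_lit 669) (nat_lit 524288) .dd))) (.ch (nat_lit 2) (.ev (nat_lit 656)
 (nat_lit 1180591620717420216320) (.ev (nat_lit 669) (nat_lit 16) .dd)))) (.br (nat_lit 7) (.ch (nat_lit 6)
 (.ev (nat_lit 656) (nat_lit 1180591620717411827712) (.ev (nat_lit 1028) (nat_lit 16) (.ev (nat_lit 1037)
 (nat_lit 8388608) .dd)))) (.ch (nat_lit 7) (.ev (nat_lit 656) (nat_lit 1180591620717419692032) (.ev (nat_lit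
 1028) (nat_lit 16) (.ev (nat_lit 1037) (nat_lit 524288) .dd)))))) (.br (nat_lit 12) (.br (nat_lit 10) (.ch
 (nat_lit 8) (.ev (nat_lit 656) (nat_lit 1180591620717420216336) .dd)) (.ch (nat_lit 10) (.ev (nat_lit 656)
 (nat_lit 1180591620717420216336) .dd))) (.br (nat_lit 13) (.ch (nat_lit 12) (.ev (nat_lit 656) (nat_lit
 8912896) (.fin (nat_lit 576501984006718072)))) (.ch (nat_lit 13) (.ev (nat_lit 656) (nat_lit 524304) (.ev
 (nat_lit 736) (nat_lit 8388608) (.ev (nat_lit 749) (nat_lit 1180591620717411303424) .dd))))))) (.br (nat_lit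
 31) (.br (nat_lit 25) (.br (nat_lit 23) (.ch (nat_lit 14) (.ev (nat_lit 656) (nat_lit 1180591620717420216336)
 .dd)) (.ch (nat_lit 23) (.ev (nat_lit 656) (nat_lit 1180591620717420216336) .dd))) (.br (nat_lit 30) (.ch
 (nat_lit 25) (.ev (nat_lit 656) (nat_lit 8912912) (.ev (nat_lit 669) (nat_lit 1180591620717411303424) .dd)))
 (.ch (nat_lit 30) (.ev (nat_lit 656) (nat_lit 8388624) (.ev (nat_lit 720) (nat_lit 524288) (.ev (nat_lit 733)
 (nat_lit 1180591620717411303424) .dd)))))) (.br (nat_lit 38) (.br (nat_lit 33) (.ch (nat_lit 31) (.ev (nat_lit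
 656) (nat_lit 8912912) (.ev (nat_lit 669) (nat_lit 1180591620717411303424) .dd))) (.ch (nat_lit 33) (.ev
 (nat_lit 656) (nat_lit 1180591620717411827712) (.ev (nat_lit 1028) (nat_lit 16) (.ev (nat_lit 1037) (nat_lit
 8388608) .dd))))) (.br (nat_lit 39) (.ch (nat_lit 38) (.ev (nat_lit 656) (nat_lit 1180591620717419692032) (.ev
 (nat_lit 708) (nat_lit 524288) (.ev (nat_lit 717) (nat_lit 16) .dd)))) (.br (nat_lit 40) (.ch (nat_lit 39)
 (.ev (nat_lit 656) (nat_lit 1180591620717420216336) .dd)) (.ch (nat_lit 40) (.ev (nat_lit 656) (nat_lit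
 8912912) (.ev (nat_lit 669) (nat_lit 1180591620717411303424) .dd)))))))))))))))) (.br (nat_lit 28) (.ch
 (nat_lit 26) (.ev (nat_lit 52) (nat_lit 885488751835517059120) (.ev (nat_lit 116) (nat_lit 2) (.ev (nat_lit
 148) (nat_lit 18446744073709551616) (.ev (nat_lit 180) (nat_lit 1180591620717411303424) (.ev (nat_lit 212)
 (nat_lit 562949962334208) (.ev (nat_lit 308) (nat_lit 128) (.nd (nat_lit 640) (.br (nat_lit 24) (.br (nat_lit
 13) (.br (nat_lit 9) (.ch (nat_lit 2) (.ev (nat_lit 656) (nat_lit 288230925911785472) (.ev (nat_lit 669)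
 (nat_lit 70368744177664) .dd))) (.br (nat_lit 12) (.ch (nat_lit 9) (.ev (nat_lit 656) (nat_lit
 288230376155971584) (.ev (nat_lit 672) (nat_lit 70368744177664) (.ev (nat_lit 685) (nat_lit 549755813888)
 .dd)))) (.ch (nat_lit 12) (.ev (nat_lit 656) (nat_lit 288301294655963136) .dd)))) (.br (nat_lit 18) (.ch
 (nat_lit 13) (.ev (nat_lit 656) (nat_lit 288230925911785472) (.ev (nat_lit 669) (nat_lit 70368744177664)
 .dd))) (.br (nat_lit 19) (.ch (nat_lit 18) (.ev (nat_lit 656) (nat_lit 288230925911785472) (.ev (nat_lit 669)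
 (nat_lit 70368744177664) .dd))) (.ch (nat_lit 19) (.ev (nat_lit 656) (nat_lit 288300744895889408) (.ev
 (nat_lit 944) (nat_lit 4194304) (.fin (nat_lit 576421719594975800)))))))) (.br (nat_lit 36) (.br (nat_lit 32)
 (.ch (nat_lit 24) (.ev (nat_lit 656) (nat_lit 70918504185856) (.ev (nat_lit 708) (nat_lit 65536) (.ev (nat_lit
 717) (nat_lit 288230376151711744) .dd)))) (.br (nat_lit 33) (.ch (nat_lit 32) (.ev (nat_lit 656) (nat_lit
 288301294651768832) (.ev (nat_lit 669) (nat_lit 4194304) .dd))) (.ch (nat_lit 33) (.ev (nat_lit 656) (nat_lit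
 288301294651768832) (.ev (nat_lit 669) (nat_lit 4194304) .dd))))) (.br (nat_lit 39) (.br (nat_lit 38) (.ch
 (nat_lit 36) (.ev (nat_lit 656) (nat_lit 288301294655963136) .dd)) (.ch (nat_lit 38) (.ev (nat_lit 656)
 (nat_lit 288301294651703296) (.ev (nat_lit 672) (nat_lit 65536) (.ev (nat_lit 685) (nat_lit 4194304) .dd)))))
 (.br (nat_lit 40) (.ch (nat_lit 39) (.ev (nat_lit 656) (nat_lit 288300744900083712) (.ev (nat_lit 976)
 (nat_lit 549755813888) (.ev (nat_lit 989) (nat_lit 65536) .dd)))) (.ch (nat_lit 40) (.ev (nat_lit 656)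
 (nat_lit 288301294655963136) .dd)))))))))))))) (.br (nat_lit 29) (.ch (nat_lit 28) (.ev (nat_lit 52) (nat_lit
 1771185231902662197296) (.ev (nat_lit 116) (nat_lit 18446744073709617152) (.ev (nat_lit 160) (nat_lit
 295184004894884397186) .dd)))) (.ch (nat_lit 29) (.ev (nat_lit 52) (nat_lit 904224289218152104096) (.ev
 (nat_lit 116) (nat_lit 549755813904) (.ev (nat_lit 148) (nat_lit 17184063490) (.ev (nat_lit 244) (nat_lit
 262144) (.ev (nat_lit 560) (nat_lit 32768) (.nd (nat_lit 640) (.br (nat_lit 18) (.br (nat_lit 10) (.br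
 (nat_lit 9) (.ch (nat_lit 7) (.ev (nat_lit 656) (nat_lit 1180591691086163935232) .dd)) (.ch (nat_lit 9) (.ev
 (nat_lit 656) (nat_lit 70368744243200) (.ev (nat_lit 708) (nat_lit 1180591620717411303424) (.ev (nat_lit 717)
 (nat_lit 8388608) .dd))))) (.br (nat_lit 13) (.ch (nat_lit 10) (.ev (nat_lit 656) (nat_lit
 1180591691086155546624) (.ev (nat_lit 669) (nat_lit 8388608) .dd))) (.br (nat_lit 14) (.ch (nat_lit 13) (.ev
 (nat_lit 656) (nat_lit 1180591620717411368960) (.ev (nat_lit 708) (nat_lit 8388608) (.ev (nat_lit 717)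
 (nat_lit 70368744177664) .dd)))) (.ch (nat_lit 14) (.ev (nat_lit 656) (nat_lit 1180591620717411303424) (.ev
 (nat_lit 720) (nat_lit 70368744177664) (.ev (nat_lit 976) (nat_lit 65536) (.ev (nat_lit 989) (nat_lit 8388608)
 .dd)))))))) (.br (nat_lit 27) (.br (nat_lit 25) (.ch (nat_lit 18) (.ev (nat_lit 656) (nat_lit
 1180591691086163935232) .dd)) (.ch (nat_lit 25) (.ev (nat_lit 656) (nat_lit 8454144) (.ev (nat_lit 720)
 (nat_lit 1180591620717411303424) (.ev (nat_lit 733) (nat_lit 70368744177664) .dd))))) (.br (nat_lit 36) (.ch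
 (nat_lit 27) (.ev (nat_lit 656) (nat_lit 1180591691086155546624) (.ev (nat_lit 669) (nat_lit 8388608) .dd)))
 (.br (nat_lit 40) (.ch (nat_lit 36) (.ev (nat_lit 656) (nat_lit 1180591691086163935232) .dd)) (.ch (nat_lit
 40) (.ev (nat_lit 656) (nat_lit 70368752631808) (.ev (nat_lit 669) (nat_lit 1180591620717411303424)
 .dd))))))))))))))))))) (.br (nat_lit 42) (.br (nat_lit 38) (.br (nat_lit 36) (.br (nat_lit 33) (.ch (nat_lit
 31) (.ev (nat_lit 52) (nat_lit 608751632825052037120) (.ev (nat_lit 84) (nat_lit 524288) (.ev (nat_lit 116)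
 (nat_lit 1180627649514967138304) (.ev (nat_lit 148) (nat_lit 295147905196532695168) (.ev (nat_lit 180)
 (nat_lit 288230376151777328) (.ev (nat_lit 212) (nat_lit 8589934592) (.ev (nat_lit 276) (nat_lit 8388608) (.nd
 (nat_lit 640) (.br (nat_lit 27) (.br (nat_lit 10) (.br (nat_lit 7) (.ch (nat_lit 2) (.ev (nat_lit 656)
 (nat_lit 562949953454082) (.ev (nat_lit 669) (nat_lit 262144) .dd))) (.br (nat_lit 8) (.ch (nat_lit 7) (.ev
 (nat_lit 656) (nat_lit 562949953683458) (.ev (nat_lit 669) (nat_lit 32768) .dd))) (.ch (nat_lit 8) (.ev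
 (nat_lit 656) (nat_lit 562949953683458) (.ev (nat_lit 669) (nat_lit 32768) .dd))))) (.br (nat_lit 11) (.ch
 (nat_lit 10) (.ev (nat_lit 656) (nat_lit 562949953716224) (.ev (nat_lit 669) (nat_lit 2) .dd))) (.br (nat_lit
 13) (.ch (nat_lit 11) (.ev (nat_lit 656) (nat_lit 262146) (.ev (nat_lit 708) (nat_lit 562949953421312) (.ev
 (nat_lit 717) (nat_lit 32768) .dd)))) (.ch (nat_lit 13) (.ev (nat_lit 656) (nat_lit 294912) (.ev (nat_lit 736)
 (nat_lit 2) (.ev (nat_lit 749) (nat_lit 562949953421312) .dd))))))) (.br (nat_lit 33) (.br (nat_lit 31) (.ch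
 (nat_lit 27) (.ev (nat_lit 656) (nat_lit 562949953683456) (.fin (nat_lit 576479993774162452)))) (.br (nat_lit
 32) (.ch (nat_lit 31) (.ev (nat_lit 656) (nat_lit 562949953716224) (.ev (nat_lit 669) (nat_lit 2) .dd))) (.ch
 (nat_lit 32) (.ev (nat_lit 656) (nat_lit 562949953716226) .dd)))) (.br (nat_lit 39) (.br (nat_lit 36) (.ch
 (nat_lit 33) (.ev (nat_lit 656) (nat_lit 562949953454082) (.ev (nat_lit 669) (nat_lit 262144) .dd))) (.ch
 (nat_lit 36) (.ev (nat_lit 656) (nat_lit 562949953716224) (.ev (nat_lit 669) (nat_lit 2) .dd)))) (.br (nat_lit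
 40) (.ch (nat_lit 39) (.ev (nat_lit 656) (nat_lit 562949953683458) (.ev (nat_lit 669) (nat_lit 32768) .dd)))
 (.ch (nat_lit 40) (.ev (nat_lit 656) (nat_lit 294914) (.ev (nat_lit 669) (nat_lit 562949953421312)
 .dd)))))))))))))))) (.ch (nat_lit 33) (.ev (nat_lit 52) (nat_lit 1180591621567823478912) (.ev (nat_lit 84)
 (nat_lit 295147905179352825856) (.ev (nat_lit 116) (nat_lit 590295810358705651712) (.ev (nat_lit 148) (nat_lit
 536870912) (.ev (nat_lit 180) (nat_lit 9007199255330816) (.ev (nat_lit 212) (nat_lit 562949953421314) (.nd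
 (nat_lit 640) (.br (nat_lit 25) (.br (nat_lit 12) (.br (nat_lit 8) (.ch (nat_lit 6) (.ev (nat_lit 656)
 (nat_lit 324259173174870048) (.ev (nat_lit 720) (nat_lit 18446744073709584400) (.ev (nat_lit 733) (nat_lit
 70368744177664) .dd)))) (.br (nat_lit 11) (.ch (nat_lit 8) (.ev (nat_lit 656) (nat_lit 324329541914886160)
 (.ev (nat_lit 736) (nat_lit 18446744073709551616) (.fin (nat_lit 576501983975260792))))) (.ch (nat_lit 11)
 (.ev (nat_lit 656) (nat_lit 18771073615624437760) (.ev (nat_lit 672) (nat_lit 16) (.ev (nat_lit 708) (nat_lit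
 32) (.ev (nat_lit 717) (nat_lit 4194304) .dd))))))) (.br (nat_lit 14) (.br (nat_lit 13) (.ch (nat_lit 12) (.ev
 (nat_lit 656) (nat_lit 18482772870732742704) (.ev (nat_lit 708) (nat_lit 288230376151711744) (.ev (nat_lit
 717) (nat_lit 70368744177664) .dd)))) (.ch (nat_lit 13) (.ev (nat_lit 656) (nat_lit 18735044818605473808) (.ev
 (nat_lit 708) (nat_lit 4194336) (.ev (nat_lit 717) (nat_lit 36028797018963968) .dd))))) (.br (nat_lit 19) (.ch
 (nat_lit 14) (.ev (nat_lit 656) (nat_lit 18735044818609635376) (.ev (nat_lit 708) (nat_lit 36028797018963968)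
 (.ev (nat_lit 717) (nat_lit 32768) .dd)))) (.ch (nat_lit 19) (.ev (nat_lit 656) (nat_lit 18771073615624437776)
 (.ev (nat_lit 720) (nat_lit 32) (.ev (nat_lit 733) (nat_lit 4194304) .dd))))))) (.br (nat_lit 32) (.br
 (nat_lit 30) (.ch (nat_lit 25) (.ev (nat_lit 656) (nat_lit 18482772870732742704) (.ev (nat_lit 720) (nat_lit
 288230376151711744) (.ev (nat_lit 733) (nat_lit 70368744177664) .dd)))) (.br (nat_lit 31) (.ch (nat_lit 30)
 (.ev (nat_lit 656) (nat_lit 324329541919047728) (.ev (nat_lit 708) (nat_lit 18446744073709551616) (.ev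
 (nat_lit 717) (nat_lit 32768) .dd)))) (.ch (nat_lit 31) (.ev (nat_lit 656) (nat_lit 36028797023191088) (.ev
 (nat_lit 708) (nat_lit 288300744895889408) (.ev (nat_lit 717) (nat_lit 18446744073709551616) .dd)))))) (.br
 (nat_lit 36) (.br (nat_lit 33) (.ch (nat_lit 32) (.ev (nat_lit 656) (nat_lit 18771073615624437776) (.ev
 (nat_lit 708) (nat_lit 32) (.ev (nat_lit 717) (nat_lit 4194304) .dd)))) (.ch (nat_lit 33) (.ev (nat_lit 656)
 (nat_lit 18482772870732742688) (.ev (nat_lit 672) (nat_lit 16) (.ev (nat_lit 708) (nat_lit 288230376151711744)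
 (.ev (nat_lit 717) (nat_lit 70368744177664) .dd)))))) (.br (nat_lit 38) (.ch (nat_lit 36) (.ev (nat_lit 656)
 (nat_lit 18446744073713778736) (.ev (nat_lit 736) (nat_lit 36028797018963968) (.fin (nat_lit
 576442610378818156))))) (.ch (nat_lit 38) (.ev (nat_lit 656) (nat_lit 18735044818605441056) (.ev (nat_lit 720)
 (nat_lit 36028797018996752) (.ev (nat_lit 733) (nat_lit 4194304) .dd))))))))))))))))) (.br (nat_lit 37) (.ch
 (nat_lit 36) (.ev (nat_lit 52) (nat_lit 1180636657547445829810) (.ev (nat_lit 128) (nat_lit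
 904179323323810381824) .dd))) (.ch (nat_lit 37) (.ev (nat_lit 52) (nat_lit 313631241549803487410) (.ev
 (nat_lit 116) (nat_lit 275414777856) (.ev (nat_lit 160) (nat_lit 1771184739046037946368) .dd)))))) (.br
 (nat_lit 40) (.br (nat_lit 39) (.ch (nat_lit 38) (.ev (nat_lit 52) (nat_lit 1180592184500589166642) (.ev
 (nat_lit 64) (nat_lit 904223796370667044992) .dd))) (.ch (nat_lit 39) (.ev (nat_lit 52) (nat_lit
 904179323856914743426) (.ev (nat_lit 84) (nat_lit 32784) (.ev (nat_lit 116) (nat_lit 65536) (.ev (nat_lit 180)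
 (nat_lit 8388608) (.nd (nat_lit 640) (.br (nat_lit 25) (.br (nat_lit 11) (.br (nat_lit 10) (.ch (nat_lit 9)
 (.ev (nat_lit 656) (nat_lit 45036288331743232) (.ev (nat_lit 752) (nat_lit 1180591620717411303424) (.ev
 (nat_lit 1008) (nat_lit 8589934624) .dd)))) (.ch (nat_lit 10) (.ev (nat_lit 656) (nat_lit
 1180627649815078240288) (.ev (nat_lit 669) (nat_lit 9007199254740992) .dd)))) (.br (nat_lit 12) (.ch (nat_lit
 11) (.ev (nat_lit 656) (nat_lit 36029097666936832) (.ev (nat_lit 672) (nat_lit 9007199254740992) (.ev (nat_lit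
 708) (nat_lit 1180591620717411303424) (.ev (nat_lit 717) (nat_lit 32) .dd))))) (.br (nat_lit 14) (.ch (nat_lit
 12) (.ev (nat_lit 656) (nat_lit 1180636656739454812192) (.ev (nat_lit 816) (nat_lit 274877906944) (.ev
 (nat_lit 829) (nat_lit 262144) .dd)))) (.ch (nat_lit 14) (.ev (nat_lit 656) (nat_lit 1180636657005743046688)
 (.ev (nat_lit 669) (nat_lit 8589934592) .dd)))))) (.br (nat_lit 33) (.br (nat_lit 30) (.ch (nat_lit 25) (.ev
 (nat_lit 656) (nat_lit 1180627649514430529568) (.ev (nat_lit 736) (nat_lit 274877906944) (.ev (nat_lit 976)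
 (nat_lit 17179869184) (.fin (nat_lit 576456904017396268)))))) (.ch (nat_lit 30) (.ev (nat_lit 656) (nat_lit
 1180591621009469341696) (.ev (nat_lit 1028) (nat_lit 9007207844675616) (.ev (nat_lit 1037) (nat_lit
 36028797018963968) .dd))))) (.br (nat_lit 36) (.ch (nat_lit 33) (.ev (nat_lit 656) (nat_lit
 1180636656997152849952) (.ev (nat_lit 816) (nat_lit 17179869184) (.ev (nat_lit 829) (nat_lit 262144) .dd))))
 (.br (nat_lit 39) (.ch (nat_lit 36) (.ev (nat_lit 656) (nat_lit 1180591621018059276320) (.ev (nat_lit 708)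
 (nat_lit 36028797018963968) (.ev (nat_lit 717) (nat_lit 9007199254740992) .dd)))) (.ch (nat_lit 39) (.ev
 (nat_lit 656) (nat_lit 1180600628208724082720) (.ev (nat_lit 1028) (nat_lit 36028797018963968) (.ev (nat_lit
 1037) (nat_lit 8589934592) .dd))))))))))))))) (.br (nat_lit 41) (.ch (nat_lit 40) (.ev (nat_lit 52) (nat_lit
 904179323332391403696) (.ev (nat_lit 128) (nat_lit 1180636657538864807938) .dd))) (.ch (nat_lit 41) (.ev
 (nat_lit 52) (nat_lit 295472234996158726160) (.ev (nat_lit 84) (nat_lit 536870912) (.ev (nat_lit 96) (nat_lit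
 1789343745874560614562) .dd))))))) (.br (nat_lit 47) (.br (nat_lit 44) (.br (nat_lit 43) (.ch (nat_lit 42)
 (.ev (nat_lit 52) (nat_lit 18446815275689967618) (.ev (nat_lit 84) (nat_lit 295147905179352825856) (.ev
 (nat_lit 116) (nat_lit 562967133323264) (.ev (nat_lit 148) (nat_lit 36028797555834880) (.ev (nat_lit 180)
 (nat_lit 128) (.ev (nat_lit 212) (nat_lit 1180600627916666634240) (.nd (nat_lit 640) (.br (nat_lit 18) (.br
 (nat_lit 10) (.br (nat_lit 7) (.ch (nat_lit 1) (.ev (nat_lit 656) (nat_lit 590584040734857625600) (.ev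
 (nat_lit 672) (nat_lit 32) (.ev (nat_lit 685) (nat_lit 16) .dd)))) (.br (nat_lit 9) (.ch (nat_lit 7) (.ev
 (nat_lit 656) (nat_lit 590584040734857625648) .dd)) (.ch (nat_lit 9) (.ev (nat_lit 656) (nat_lit
 288230376151973936) (.ev (nat_lit 669) (nat_lit 590295810358705651712) .dd))))) (.br (nat_lit 11) (.ch
 (nat_lit 10) (.ev (nat_lit 656) (nat_lit 288230376151973936) (.ev (nat_lit 669) (nat_lit
 590295810358705651712) .dd))) (.br (nat_lit 12) (.ch (nat_lit 11) (.ev (nat_lit 656) (nat_lit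
 288230376151973904) (.ev (nat_lit 708) (nat_lit 32) (.ev (nat_lit 717) (nat_lit 590295810358705651712) .dd))))
 (.ch (nat_lit 12) (.ev (nat_lit 656) (nat_lit 590295810358705651760) (.ev (nat_lit 720) (nat_lit
 288230376151711744) (.ev (nat_lit 733) (nat_lit 262144) .dd))))))) (.br (nat_lit 24) (.br (nat_lit 19) (.ch
 (nat_lit 18) (.ev (nat_lit 656) (nat_lit 590584040734857363488) (.ev (nat_lit 992) (nat_lit 16) (.ev (nat_lit
 1005) (nat_lit 262144) .dd)))) (.br (nat_lit 23) (.ch (nat_lit 19) (.ev (nat_lit 656) (nat_lit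
 288230376151973904) (.ev (nat_lit 708) (nat_lit 32) (.ev (nat_lit 717) (nat_lit 590295810358705651712) .dd))))
 (.ch (nat_lit 23) (.ev (nat_lit 656) (nat_lit 590584040734857625648) .dd)))) (.br (nat_lit 30) (.br (nat_lit
 27) (.ch (nat_lit 24) (.ev (nat_lit 656) (nat_lit 590295810358705913904) (.ev (nat_lit 669) (nat_lit
 288230376151711744) .dd))) (.ch (nat_lit 27) (.ev (nat_lit 656) (nat_lit 590584040734857625648) .dd))) (.br
 (nat_lit 33) (.ch (nat_lit 30) (.ev (nat_lit 656) (nat_lit 288230376151711792) (.ev (nat_lit 736) (nat_lit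
 590295810358705651712) (.ev (nat_lit 749) (nat_lit 262144) .dd)))) (.ch (nat_lit 33) (.ev (nat_lit 656)
 (nat_lit 590295810358705913872) (.ev (nat_lit 708) (nat_lit 32) (.ev (nat_lit 717) (nat_lit
 288230376151711744) .dd)))))))))))))))) (.ch (nat_lit 43) (.ev (nat_lit 52) (nat_lit 297238408639381504) (.ev
 (nat_lit 84) (nat_lit 48) (.ev (nat_lit 96) (nat_lit 2084518742462616830082) .dd))))) (.br (nat_lit 46) (.ch
 (nat_lit 44) (.ev (nat_lit 52) (nat_lit 1180627720442062045232) (.ev (nat_lit 84) (nat_lit 17179869184) (.ev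
 (nat_lit 96) (nat_lit 904188260412014297218) .dd)))) (.ch (nat_lit 46) (.ev (nat_lit 52) (nat_lit
 2084815980020839514240) (.ev (nat_lit 116) (nat_lit 17179869200) (.ev (nat_lit 180) (nat_lit 549755813888)
 (.ev (nat_lit 212) (nat_lit 8590000130) (.ev (nat_lit 244) (nat_lit 274877906944) (.nd (nat_lit 640) (.br
 (nat_lit 19) (.br (nat_lit 12) (.br (nat_lit 8) (.br (nat_lit 7) (.ch (nat_lit 6) (.ev (nat_lit 656) (nat_lit
 13107232) .dd)) (.ch (nat_lit 7) (.ev (nat_lit 656) (nat_lit 8388640) (.ev (nat_lit 736) (nat_lit 524288) (.ev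
 (nat_lit 749) (nat_lit 4194304) .dd))))) (.br (nat_lit 10) (.ch (nat_lit 8) (.ev (nat_lit 656) (nat_lit
 8912896) (.fin (nat_lit 576420620146262536)))) (.ch (nat_lit 10) (.ev (nat_lit 656) (nat_lit 13107232) .dd))))
 (.br (nat_lit 14) (.br (nat_lit 13) (.ch (nat_lit 12) (.ev (nat_lit 656) (nat_lit 13107232) .dd)) (.ch
 (nat_lit 13) (.ev (nat_lit 656) (nat_lit 4718592) (.ev (nat_lit 1028) (nat_lit 32) (.ev (nat_lit 1037)
 (nat_lit 8388608) .dd))))) (.br (nat_lit 18) (.ch (nat_lit 14) (.ev (nat_lit 656) (nat_lit 12582912) (.ev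
 (nat_lit 1028) (nat_lit 32) (.ev (nat_lit 1037) (nat_lit 524288) .dd)))) (.ch (nat_lit 18) (.ev (nat_lit 656)
 (nat_lit 13107200) (.ev (nat_lit 669) (nat_lit 32) .dd)))))) (.br (nat_lit 30) (.br (nat_lit 24) (.br (nat_lit
 23) (.ch (nat_lit 19) (.ev (nat_lit 656) (nat_lit 4718624) (.ev (nat_lit 669) (nat_lit 8388608) .dd))) (.ch
 (nat_lit 23) (.ev (nat_lit 656) (nat_lit 8912928) (.ev (nat_lit 669) (nat_lit 4194304) .dd)))) (.br (nat_lit
 25) (.ch (nat_lit 24) (.ev (nat_lit 656) (nat_lit 13107232) .dd)) (.ch (nat_lit 25) (.ev (nat_lit 656)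
 (nat_lit 4718592) (.ev (nat_lit 708) (nat_lit 8388608) (.ev (nat_lit 717) (nat_lit 32) .dd)))))) (.br (nat_lit
 33) (.br (nat_lit 32) (.ch (nat_lit 30) (.ev (nat_lit 656) (nat_lit 12582912) (.ev (nat_lit 1028) (nat_lit 32)
 (.ev (nat_lit 1037) (nat_lit 524288) .dd)))) (.ch (nat_lit 32) (.ev (nat_lit 656) (nat_lit 8912928) (.ev
 (nat_lit 669) (nat_lit 4194304) .dd)))) (.br (nat_lit 38) (.ch (nat_lit 33) (.ev (nat_lit 656) (nat_lit
 524320) (.ev (nat_lit 720) (nat_lit 8388608) (.ev (nat_lit 733) (nat_lit 4194304) .dd)))) (.br (nat_lit 40)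
 (.ch (nat_lit 38) (.ev (nat_lit 656) (nat_lit 8912928) (.ev (nat_lit 669) (nat_lit 4194304) .dd))) (.ch
 (nat_lit 40) (.ev (nat_lit 656) (nat_lit 13107232) .dd)))))))))))))))) (.br (nat_lit 49) (.br (nat_lit 48)
 (.ch (nat_lit 47) (.ev (nat_lit 52) (nat_lit 1789334738116972413104) (.ev (nat_lit 84) (nat_lit
 36028797018963968) (.ev (nat_lit 96) (nat_lit 295445213957264834562) .dd)))) (.ch (nat_lit 48) (.ev (nat_lit
 52) (nat_lit 292607262754) (.ev (nat_lit 64) (nat_lit 2084815980578648948880) .dd)))) (.br (nat_lit 50) (.ch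
 (nat_lit 49) (.ev (nat_lit 52) (nat_lit 590332402114272755840) (.ev (nat_lit 84) (nat_lit 9007199254740992)
 (.ev (nat_lit 116) (nat_lit 549755813888) (.ev (nat_lit 148) (nat_lit 18446744073709551616) (.ev (nat_lit 180)
 (nat_lit 295147905454239121408) (.ev (nat_lit 212) (nat_lit 288230376151973888) (.nd (nat_lit 640) (.br
 (nat_lit 25) (.br (nat_lit 8) (.br (nat_lit 6) (.ch (nat_lit 1) (.ev (nat_lit 656) (nat_lit 70386460950562)
 (.ev (nat_lit 720) (nat_lit 16) (.ev (nat_lit 733) (nat_lit 1180591620717411303424) .dd)))) (.br (nat_lit 7)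
 (.ch (nat_lit 6) (.ev (nat_lit 656) (nat_lit 1180591620717948207154) (.ev (nat_lit 708) (nat_lit 17179869184)
 (.ev (nat_lit 717) (nat_lit 70368744177664) .dd)))) (.ch (nat_lit 7) (.ev (nat_lit 656) (nat_lit
 70369281081378) (.ev (nat_lit 708) (nat_lit 1180591620717411303440) (.ev (nat_lit 717) (nat_lit 17179869184)
 .dd)))))) (.br (nat_lit 12) (.br (nat_lit 9) (.ch (nat_lit 8) (.ev (nat_lit 656) (nat_lit
 1180591691103872221232) (.ev (nat_lit 708) (nat_lit 2) (.ev (nat_lit 717) (nat_lit 32768) .dd)))) (.ch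
 (nat_lit 9) (.ev (nat_lit 656) (nat_lit 70386460950530) (.ev (nat_lit 672) (nat_lit 32) (.ev (nat_lit 708)
 (nat_lit 16) (.ev (nat_lit 717) (nat_lit 1180591620717411303424) .dd)))))) (.br (nat_lit 14) (.ch (nat_lit 12)
 (.ev (nat_lit 656) (nat_lit 70385924079650) (.ev (nat_lit 736) (nat_lit 536870912) (.fin (nat_lit
 576501984006718072))))) (.ch (nat_lit 14) (.ev (nat_lit 656) (nat_lit 1180591620734591172626) (.ev (nat_lit
 720) (nat_lit 70369281048608) (.ev (nat_lit 733) (nat_lit 32768) .dd))))))) (.br (nat_lit 31) (.br (nat_lit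
 27) (.ch (nat_lit 25) (.ev (nat_lit 656) (nat_lit 536903698) (.ev (nat_lit 720) (nat_lit 70385924046880) (.ev
 (nat_lit 733) (nat_lit 1180591620717411303424) .dd)))) (.br (nat_lit 30) (.ch (nat_lit 27) (.ev (nat_lit 656)
 (nat_lit 1180591691086692352048) (.ev (nat_lit 736) (nat_lit 17179869184) (.fin (nat_lit
 576479993774162452))))) (.ch (nat_lit 30) (.ev (nat_lit 656) (nat_lit 1180591691103872221200) (.ev (nat_lit
 672) (nat_lit 32) (.ev (nat_lit 708) (nat_lit 2) (.ev (nat_lit 717) (nat_lit 32768) .dd))))))) (.br (nat_lit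
 33) (.br (nat_lit 32) (.ch (nat_lit 31) (.ev (nat_lit 656) (nat_lit 70386460950562) (.ev (nat_lit 708)
 (nat_lit 16) (.ev (nat_lit 717) (nat_lit 1180591620717411303424) .dd)))) (.ch (nat_lit 32) (.ev (nat_lit 656)
 (nat_lit 1180591691103335350320) (.ev (nat_lit 708) (nat_lit 32770) (.ev (nat_lit 717) (nat_lit 536870912)
 .dd))))) (.br (nat_lit 38) (.ch (nat_lit 33) (.ev (nat_lit 656) (nat_lit 1180591620734591205426) (.ev (nat_lit
 708) (nat_lit 536870912) (.ev (nat_lit 717) (nat_lit 70368744177664) .dd)))) (.ch (nat_lit 38) (.ev (nat_lit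
 656) (nat_lit 1180591691103872221232) (.ev (nat_lit 720) (nat_lit 2) (.ev (nat_lit 733) (nat_lit 32768)
 .dd)))))))))))))))) (.br (nat_lit 52) (.ch (nat_lit 50) (.ev (nat_lit 52) (nat_lit 590584603684823695536) (.ev
 (nat_lit 64) (nat_lit 1494231377186432516098) .dd))) (.ch (nat_lit 52) (.ev (nat_lit 52) (nat_lit
 313603657028388323474) (.ev (nat_lit 116) (nat_lit 590295810358705651744) (.ev (nat_lit 148) (nat_lit
 1180915879890581979136) (.ev (nat_lit 244) (nat_lit 562949953421312) (.ev (nat_lit 576) (nat_lit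
 70368744177664) (.nd (nat_lit 640) (.br (nat_lit 13) (.br (nat_lit 7) (.br (nat_lit 6) (.ch (nat_lit 2) (.ev
 (nat_lit 656) (nat_lit 274882658304) .dd)) (.ch (nat_lit 6) (.ev (nat_lit 656) (nat_lit 4194304) (.ev (nat_lit
 720) (nat_lit 32768) (.ev (nat_lit 976) (nat_lit 274877906944) (.ev (nat_lit 989) (nat_lit 524288) .dd))))))
 (.br (nat_lit 10) (.ch (nat_lit 7) (.ev (nat_lit 656) (nat_lit 274882101248) (.ev (nat_lit 708) (nat_lit
 524288) (.ev (nat_lit 717) (nat_lit 32768) .dd)))) (.br (nat_lit 11) (.ch (nat_lit 10) (.ev (nat_lit 656)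
 (nat_lit 274882134016) (.ev (nat_lit 669) (nat_lit 524288) .dd))) (.ch (nat_lit 11) (.ev (nat_lit 656)
 (nat_lit 274877939712) (.ev (nat_lit 708) (nat_lit 4194304) (.ev (nat_lit 717) (nat_lit 524288) .dd)))))))
 (.br (nat_lit 27) (.br (nat_lit 23) (.ch (nat_lit 13) (.ev (nat_lit 656) (nat_lit 274882658304) .dd)) (.ch
 (nat_lit 23) (.ev (nat_lit 656) (nat_lit 274878464000) (.ev (nat_lit 669) (nat_lit 4194304) .dd)))) (.br
 (nat_lit 36) (.ch (nat_lit 27) (.ev (nat_lit 656) (nat_lit 274882658304) .dd)) (.br (nat_lit 38) (.ch (nat_lit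
 36) (.ev (nat_lit 656) (nat_lit 274882134016) (.ev (nat_lit 669) (nat_lit 524288) .dd))) (.ch (nat_lit 38)
 (.ev (nat_lit 656) (nat_lit 274878431232) (.ev (nat_lit 720) (nat_lit 4194304) (.ev (nat_lit 733) (nat_lit
 32768) .dd)))))))))))))))))))))))

/-- Subtrie. -/
noncomputable def T10 : Tr := (.ev (nat_lit 20) (nat_lit 885903879640367859994) (.nd (nat_lit 33) (.br (nat_lit
 31) (.br (nat_lit 16) (.br (nat_lit 10) (.br (nat_lit 6) (.br (nat_lit 5) (.ch (nat_lit 4) (.ev (nat_lit 52)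
 (nat_lit 36895739975217447072) (.ev (nat_lit 84) (nat_lit 18447025548686262272) (.ev (nat_lit 116) (nat_lit
 1180591620717411303424) (.ev (nat_lit 180) (nat_lit 1134695999864832) (.ev (nat_lit 212) (nat_lit 16777216)
 (.ev (nat_lit 244) (nat_lit 36028797018963968) (.nd (nat_lit 640) (.br (nat_lit 13) (.br (nat_lit 8) (.br
 (nat_lit 5) (.ch (nat_lit 3) (.ev (nat_lit 656) (nat_lit 152185638608107999232) .dd)) (.br (nat_lit 7) (.ch
 (nat_lit 5) (.ev (nat_lit 656) (nat_lit 152185638608107995136) (.ev (nat_lit 669) (nat_lit 4096) .dd))) (.ch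
 (nat_lit 7) (.ev (nat_lit 656) (nat_lit 4611686018431586304) (.ev (nat_lit 669) (nat_lit
 147573952589676412928) .dd))))) (.br (nat_lit 9) (.ch (nat_lit 8) (.ev (nat_lit 656) (nat_lit
 152185638608107995136) (.ev (nat_lit 669) (nat_lit 4096) .dd))) (.br (nat_lit 10) (.ch (nat_lit 9) (.ev
 (nat_lit 656) (nat_lit 152185638608107999232) .dd)) (.ch (nat_lit 10) (.ev (nat_lit 656) (nat_lit
 152185638608103804928) (.ev (nat_lit 669) (nat_lit 4194304) .dd)))))) (.br (nat_lit 25) (.br (nat_lit 16) (.ch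
 (nat_lit 13) (.ev (nat_lit 656) (nat_lit 4611686018431586304) (.ev (nat_lit 669) (nat_lit
 147573952589676412928) .dd))) (.br (nat_lit 18) (.ch (nat_lit 16) (.ev (nat_lit 656) (nat_lit
 152185638608107995136) (.ev (nat_lit 669) (nat_lit 4096) .dd))) (.ch (nat_lit 18) (.ev (nat_lit 656) (nat_lit
 147573952589680611328) (.ev (nat_lit 669) (nat_lit 4611686018427387904) .dd))))) (.br (nat_lit 31) (.br
 (nat_lit 29) (.ch (nat_lit 25) (.ev (nat_lit 656) (nat_lit 152185638608107999232) .dd)) (.ch (nat_lit 29) (.ev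
 (nat_lit 656) (nat_lit 152185638608107999232) .dd))) (.br (nat_lit 32) (.ch (nat_lit 31) (.ev (nat_lit 656)
 (nat_lit 147573952589676412928) (.ev (nat_lit 768) (nat_lit 4198400) (.ev (nat_lit 781) (nat_lit
 4611686018427387904) .dd)))) (.ch (nat_lit 32) (.ev (nat_lit 656) (nat_lit 152185638608107999232)
 .dd)))))))))))))) (.ch (nat_lit 5) (.ev (nat_lit 52) (nat_lit 55376542503878529152) (.ev (nat_lit 128)
 (nat_lit 1332780645838580088864) .dd)))) (.br (nat_lit 9) (.ch (nat_lit 6) (.ev (nat_lit 52) (nat_lit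
 1346612317391534952448) (.ev (nat_lit 84) (nat_lit 2260595906707584) (.ev (nat_lit 128) (nat_lit
 41542610355016957984) .dd)))) (.ch (nat_lit 9) (.ev (nat_lit 52) (nat_lit 4648840717521653760) (.ev (nat_lit
 180) (nat_lit 8796160131072) (.ev (nat_lit 244) (nat_lit 147573952589676412928) (.ev (nat_lit 308) (nat_lit
 32) (.nd (nat_lit 640) (.br (nat_lit 30) (.br (nat_lit 19) (.br (nat_lit 9) (.ch (nat_lit 4) (.ev (nat_lit
 656) (nat_lit 1217487642148210999296) (.ev (nat_lit 672) (nat_lit 17179869184) (.ev (nat_lit 768) (nat_lit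
 18446744073709551616) (.ev (nat_lit 781) (nat_lit 128) .dd))))) (.br (nat_lit 15) (.ch (nat_lit 9) (.ev
 (nat_lit 656) (nat_lit 1235934386239100420224) .dd)) (.ch (nat_lit 15) (.ev (nat_lit 656) (nat_lit
 55342765513098920064) (.ev (nat_lit 928) (nat_lit 8589934592) (.ev (nat_lit 944) (nat_lit
 1180591620717411565568) .dd)))))) (.br (nat_lit 28) (.ch (nat_lit 19) (.ev (nat_lit 656) (nat_lit
 1235934386239100420224) .dd)) (.br (nat_lit 29) (.ch (nat_lit 28) (.ev (nat_lit 656) (nat_lit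
 1199040898065911513216) (.ev (nat_lit 752) (nat_lit 8589934592) (.ev (nat_lit 768) (nat_lit
 36893488147419103232) (.ev (nat_lit 781) (nat_lit 17179869184) .dd))))) (.ch (nat_lit 29) (.ev (nat_lit 656)
 (nat_lit 1235934386221920288768) (.ev (nat_lit 880) (nat_lit 262144) (.ev (nat_lit 1028) (nat_lit 128) (.ev
 (nat_lit 1037) (nat_lit 17179869184) .dd)))))))) (.br (nat_lit 34) (.br (nat_lit 31) (.ch (nat_lit 30) (.ev
 (nat_lit 656) (nat_lit 55342484046712406016) (.ev (nat_lit 708) (nat_lit 281474976710656) (.ev (nat_lit 752)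
 (nat_lit 1180591620717411303424) (.ev (nat_lit 765) (nat_lit 128) .dd))))) (.br (nat_lit 33) (.ch (nat_lit 31)
 (.ev (nat_lit 656) (nat_lit 1217485390356987248768) (.ev (nat_lit 864) (nat_lit 8589934592) (.fin (nat_lit
 576465700143972980))))) (.ch (nat_lit 33) (.ev (nat_lit 656) (nat_lit 1199038646291867631616) (.ev (nat_lit
 708) (nat_lit 36893488147419103232) (.ev (nat_lit 976) (nat_lit 2251799813685248) (.ev (nat_lit 989) (nat_lit
 128) .dd))))))) (.br (nat_lit 36) (.br (nat_lit 35) (.ch (nat_lit 34) (.ev (nat_lit 656) (nat_lit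
 1235932134439286734848) (.ev (nat_lit 672) (nat_lit 128) (.ev (nat_lit 685) (nat_lit 2251799813685248) .dd))))
 (.ch (nat_lit 35) (.ev (nat_lit 656) (nat_lit 1180593872542995054720) (.ev (nat_lit 720) (nat_lit
 36893769622395813888) (.ev (nat_lit 733) (nat_lit 18446744073709551616) .dd))))) (.br (nat_lit 42) (.ch
 (nat_lit 36) (.ev (nat_lit 656) (nat_lit 55342765521689116800) (.ev (nat_lit 669) (nat_lit
 1180591620717411303424) .dd))) (.ch (nat_lit 42) (.ev (nat_lit 656) (nat_lit 1180594153992201961600) (.ev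
 (nat_lit 720) (nat_lit 18446744073709551616) (.ev (nat_lit 736) (nat_lit 17179869184) (.ev (nat_lit 880)
 (nat_lit 36893488147419103232) (.ev (nat_lit 893) (nat_lit 8589934592) .dd)))))))))))))))))) (.br (nat_lit 12)
 (.br (nat_lit 11) (.ch (nat_lit 10) (.ev (nat_lit 52) (nat_lit 23096719502259257504) (.ev (nat_lit 84)
 (nat_lit 281474976710656) (.ev (nat_lit 116) (nat_lit 36893488147419103232) (.ev (nat_lit 148) (nat_lit
 262144) (.ev (nat_lit 180) (nat_lit 4194304) (.ev (nat_lit 212) (nat_lit 4096) (.nd (nat_lit 640) (.br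
 (nat_lit 17) (.br (nat_lit 10) (.br (nat_lit 5) (.ch (nat_lit 4) (.ev (nat_lit 656) (nat_lit
 1180592746619465629696) (.ev (nat_lit 992) (nat_lit 147573952589676412928) (.ev (nat_lit 1028) (nat_lit
 67108864) (.ev (nat_lit 1037) (nat_lit 8589934592) .dd))))) (.br (nat_lit 8) (.ch (nat_lit 5) (.ev (nat_lit
 656) (nat_lit 147575078491730739200) (.ev (nat_lit 1028) (nat_lit 1180591620717478412288) (.ev (nat_lit 1037)
 (nat_lit 8589934592) .dd)))) (.ch (nat_lit 8) (.ev (nat_lit 656) (nat_lit 1328165573309235200000) (.ev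
 (nat_lit 708) (nat_lit 8589934592) (.fin (nat_lit 576566855140328128))))))) (.br (nat_lit 13) (.ch (nat_lit
 10) (.ev (nat_lit 656) (nat_lit 1180592746628122673152) (.ev (nat_lit 669) (nat_lit 147573952589676412928)
 .dd))) (.br (nat_lit 16) (.ch (nat_lit 13) (.ev (nat_lit 656) (nat_lit 1328166699217799086080) .dd)) (.ch
 (nat_lit 16) (.ev (nat_lit 656) (nat_lit 1328166699217799086080) .dd))))) (.br (nat_lit 31) (.br (nat_lit 21)
 (.ch (nat_lit 17) (.ev (nat_lit 656) (nat_lit 1328166699215651602432) (.ev (nat_lit 669) (nat_lit 2147483648)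
 .dd))) (.br (nat_lit 28) (.ch (nat_lit 21) (.ev (nat_lit 656) (nat_lit 147573952600480940032) (.ev (nat_lit
 736) (nat_lit 1180591620717411303424) (.ev (nat_lit 749) (nat_lit 1125899906842624) .dd)))) (.ch (nat_lit 28)
 (.ev (nat_lit 656) (nat_lit 1328166699209209151488) (.ev (nat_lit 669) (nat_lit 8589934592) .dd))))) (.br
 (nat_lit 33) (.br (nat_lit 32) (.ch (nat_lit 31) (.ev (nat_lit 656) (nat_lit 1328165573307087716352) (.ev
 (nat_lit 708) (nat_lit 1125899906842624) (.ev (nat_lit 1008) (nat_lit 2147483648) (.ev (nat_lit 1060) (nat_lit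
 67108864) (.ev (nat_lit 1069) (nat_lit 8589934592) .dd)))))) (.ch (nat_lit 32) (.ev (nat_lit 656) (nat_lit
 1328166699209142042624) (.ev (nat_lit 1028) (nat_lit 67108864) (.ev (nat_lit 1037) (nat_lit 8589934592)
 .dd))))) (.br (nat_lit 36) (.ch (nat_lit 33) (.ev (nat_lit 656) (nat_lit 1328166699215651602432) (.ev (nat_lit
 669) (nat_lit 2147483648) .dd))) (.ch (nat_lit 36) (.ev (nat_lit 656) (nat_lit 147575078500320673792) (.ev
 (nat_lit 708) (nat_lit 1180591620717411303424) (.ev (nat_lit 717) (nat_lit 67108864) .dd)))))))))))))))) (.ch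
 (nat_lit 11) (.ev (nat_lit 52) (nat_lit 184467440737095520384) (.ev (nat_lit 84) (nat_lit 8589934592) (.ev
 (nat_lit 116) (nat_lit 18446744073709551616) (.ev (nat_lit 148) (nat_lit 1125899923619872) (.ev (nat_lit 180)
 (nat_lit 36028797018963968) (.ev (nat_lit 212) (nat_lit 1180593872517224988672) (.nd (nat_lit 640) (.br
 (nat_lit 18) (.br (nat_lit 7) (.br (nat_lit 4) (.ch (nat_lit 3) (.ev (nat_lit 656) (nat_lit
 4611967512735907840) (.ev (nat_lit 752) (nat_lit 67108864) (.ev (nat_lit 765) (nat_lit 8796093022208) .dd))))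
 (.br (nat_lit 5) (.ch (nat_lit 4) (.ev (nat_lit 656) (nat_lit 4611976308891844608) (.ev (nat_lit 669) (nat_lit
 4194304) .dd))) (.ch (nat_lit 5) (.ev (nat_lit 656) (nat_lit 4611686020646436864) (.ev (nat_lit 672) (nat_lit
 8796093022208) (.ev (nat_lit 688) (nat_lit 17179869184) (.ev (nat_lit 701) (nat_lit 281474976710656)
 .dd))))))) (.br (nat_lit 8) (.ch (nat_lit 7) (.ev (nat_lit 656) (nat_lit 4611694833919328256) (.ev (nat_lit
 669) (nat_lit 281474976710656) .dd))) (.br (nat_lit 15) (.ch (nat_lit 8) (.ev (nat_lit 656) (nat_lit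
 290290401542144) (.ev (nat_lit 708) (nat_lit 67108864) (.ev (nat_lit 717) (nat_lit 4611686018427387904)
 .dd)))) (.ch (nat_lit 15) (.ev (nat_lit 656) (nat_lit 290290464194560) (.ev (nat_lit 708) (nat_lit 4194304)
 (.ev (nat_lit 720) (nat_lit 262144) (.ev (nat_lit 733) (nat_lit 4611686018427387904) .dd)))))))) (.br (nat_lit
 30) (.br (nat_lit 25) (.ch (nat_lit 18) (.ev (nat_lit 656) (nat_lit 4611976308828667904) (.ev (nat_lit 708)
 (nat_lit 67108864) (.ev (nat_lit 717) (nat_lit 262144) .dd)))) (.br (nat_lit 29) (.ch (nat_lit 25) (.ev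
 (nat_lit 656) (nat_lit 4611967495622885376) (.ev (nat_lit 708) (nat_lit 262144) (.ev (nat_lit 1028) (nat_lit
 8796093022208) (.ev (nat_lit 1037) (nat_lit 17179869184) .dd))))) (.ch (nat_lit 29) (.ev (nat_lit 656)
 (nat_lit 4611976308891582464) (.ev (nat_lit 768) (nat_lit 262144) (.ev (nat_lit 781) (nat_lit 4194304)
 .dd)))))) (.br (nat_lit 35) (.br (nat_lit 33) (.ch (nat_lit 30) (.ev (nat_lit 656) (nat_lit
 4611686037826306048) (.ev (nat_lit 708) (nat_lit 8796093022208) (.ev (nat_lit 717) (nat_lit 281474976710656)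
 .dd)))) (.ch (nat_lit 33) (.ev (nat_lit 656) (nat_lit 4611976306748555264) (.ev (nat_lit 669) (nat_lit
 2147483648) .dd)))) (.br (nat_lit 42) (.ch (nat_lit 35) (.ev (nat_lit 656) (nat_lit 290273284587520) (.ev
 (nat_lit 708) (nat_lit 4194304) (.ev (nat_lit 960) (nat_lit 4611686018427387904) (.ev (nat_lit 973) (nat_lit
 17179869184) .dd))))) (.ch (nat_lit 42) (.ev (nat_lit 656) (nat_lit 4611686035678822400) (.ev (nat_lit 736)
 (nat_lit 281474976710656) (.fin (nat_lit 576461302078587464)))))))))))))))))) (.br (nat_lit 15) (.ch (nat_lit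
 12) (.ev (nat_lit 52) (nat_lit 1351263418700647366656) (.ev (nat_lit 84) (nat_lit 17179869184) (.ev (nat_lit
 116) (nat_lit 16777248) (.ev (nat_lit 148) (nat_lit 4194304) (.ev (nat_lit 244) (nat_lit 128) (.ev (nat_lit
 276) (nat_lit 67108864) (.nd (nat_lit 640) (.br (nat_lit 29) (.br (nat_lit 10) (.br (nat_lit 8) (.ch (nat_lit
 7) (.ev (nat_lit 656) (nat_lit 281477124198400) (.ev (nat_lit 669) (nat_lit 36893488147419103232) .dd))) (.br
 (nat_lit 9) (.ch (nat_lit 8) (.ev (nat_lit 656) (nat_lit 281477124198400) (.ev (nat_lit 669) (nat_lit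
 36893488147419103232) .dd))) (.ch (nat_lit 9) (.ev (nat_lit 656) (nat_lit 36893769624543301632) .dd)))) (.br
 (nat_lit 13) (.ch (nat_lit 10) (.ev (nat_lit 656) (nat_lit 36893769624543301632) .dd)) (.br (nat_lit 25) (.ch
 (nat_lit 13) (.ev (nat_lit 656) (nat_lit 36893769624543301632) .dd)) (.ch (nat_lit 25) (.ev (nat_lit 656)
 (nat_lit 36893769624543297536) (.ev (nat_lit 669) (nat_lit 4096) .dd)))))) (.br (nat_lit 34) (.br (nat_lit 30)
 (.ch (nat_lit 29) (.ev (nat_lit 656) (nat_lit 36893488147419103232) (.ev (nat_lit 708) (nat_lit 4096) (.ev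
 (nat_lit 752) (nat_lit 2147483648) (.ev (nat_lit 765) (nat_lit 281474976710656) .dd))))) (.br (nat_lit 31)
 (.ch (nat_lit 30) (.ev (nat_lit 656) (nat_lit 281477124198400) (.ev (nat_lit 669) (nat_lit
 36893488147419103232) .dd))) (.ch (nat_lit 31) (.ev (nat_lit 656) (nat_lit 36893769624543301632) .dd)))) (.br
 (nat_lit 35) (.ch (nat_lit 34) (.ev (nat_lit 656) (nat_lit 36893769624543301632) .dd)) (.br (nat_lit 42) (.ch
 (nat_lit 35) (.ev (nat_lit 656) (nat_lit 36893488149566590976) (.ev (nat_lit 669) (nat_lit 281474976710656)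
 .dd))) (.ch (nat_lit 42) (.ev (nat_lit 656) (nat_lit 36893488149566590976) (.ev (nat_lit 669) (nat_lit
 281474976710656) .dd))))))))))))))) (.ch (nat_lit 15) (.ev (nat_lit 52) (nat_lit 4612820731611582592) (.ev
 (nat_lit 96) (nat_lit 1383544367610847035424) .dd)))))) (.br (nat_lit 22) (.br (nat_lit 18) (.br (nat_lit 17)
 (.ch (nat_lit 16) (.ev (nat_lit 52) (nat_lit 1235971259437510823936) (.ev (nat_lit 84) (nat_lit
 290271074189312) (.ev (nat_lit 148) (nat_lit 32) (.ev (nat_lit 180) (nat_lit 128) (.ev (nat_lit 212) (nat_lit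
 152185638608103800832) (.nd (nat_lit 640) (.br (nat_lit 29) (.br (nat_lit 16) (.br (nat_lit 13) (.ch (nat_lit
 10) (.ev (nat_lit 656) (nat_lit 25769803776) .dd)) (.br (nat_lit 15) (.ch (nat_lit 13) (.ev (nat_lit 656)
 (nat_lit 25769803776) .dd)) (.ch (nat_lit 15) (.ev (nat_lit 656) (nat_lit 8589934592) (.ev (nat_lit 669)
 (nat_lit 17179869184) .dd))))) (.br (nat_lit 17) (.ch (nat_lit 16) (.ev (nat_lit 656) (nat_lit 17179869184)
 (.ev (nat_lit 669) (nat_lit 8589934592) .dd))) (.br (nat_lit 21) (.ch (nat_lit 17) (.ev (nat_lit 656) (nat_lit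
 25769803776) .dd)) (.ch (nat_lit 21) (.ev (nat_lit 656) (nat_lit 25769803776) .dd))))) (.br (nat_lit 35) (.br
 (nat_lit 30) (.ch (nat_lit 29) (.ev (nat_lit 656) (nat_lit 25769803776) .dd)) (.br (nat_lit 32) (.ch (nat_lit
 30) (.ev (nat_lit 656) (nat_lit 25769803776) .dd)) (.ch (nat_lit 32) (.ev (nat_lit 656) (nat_lit 25769803776)
 .dd)))) (.br (nat_lit 36) (.ch (nat_lit 35) (.ev (nat_lit 656) (nat_lit 25769803776) .dd)) (.br (nat_lit 42)
 (.ch (nat_lit 36) (.ev (nat_lit 656) (nat_lit 25769803776) .dd)) (.ch (nat_lit 42) (.ev (nat_lit 656) (nat_lit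
 25769803776) .dd))))))))))))) (.ch (nat_lit 17) (.ev (nat_lit 52) (nat_lit 1369671882186181054496) (.ev
 (nat_lit 84) (nat_lit 4194304) (.ev (nat_lit 116) (nat_lit 8590196736) (.ev (nat_lit 148) (nat_lit
 18448995873523236864) (.ev (nat_lit 276) (nat_lit 36028797018963968) (.nd (nat_lit 640) (.br (nat_lit 16) (.br
 (nat_lit 7) (.br (nat_lit 4) (.ch (nat_lit 3) (.ev (nat_lit 656) (nat_lit 281477140971648) .dd)) (.br (nat_lit
 5) (.ch (nat_lit 4) (.ev (nat_lit 656) (nat_lit 281477140971648) .dd)) (.ch (nat_lit 5) (.ev (nat_lit 656)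
 (nat_lit 2147483776) (.ev (nat_lit 708) (nat_lit 16777216) (.ev (nat_lit 717) (nat_lit 281474976710656)
 .dd)))))) (.br (nat_lit 8) (.ch (nat_lit 7) (.ev (nat_lit 656) (nat_lit 2164260992) (.ev (nat_lit 669)
 (nat_lit 281474976710656) .dd))) (.br (nat_lit 9) (.ch (nat_lit 8) (.ev (nat_lit 656) (nat_lit
 281477140971648) .dd)) (.ch (nat_lit 9) (.ev (nat_lit 656) (nat_lit 281477140971520) (.ev (nat_lit 669)
 (nat_lit 128) .dd)))))) (.br (nat_lit 29) (.br (nat_lit 18) (.ch (nat_lit 16) (.ev (nat_lit 656) (nat_lit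
 2147483776) (.ev (nat_lit 832) (nat_lit 281474976710656) (.ev (nat_lit 845) (nat_lit 16777216) .dd)))) (.br
 (nat_lit 21) (.ch (nat_lit 18) (.ev (nat_lit 656) (nat_lit 2164260992) (.ev (nat_lit 669) (nat_lit
 281474976710656) .dd))) (.ch (nat_lit 21) (.ev (nat_lit 656) (nat_lit 281477140971648) .dd)))) (.br (nat_lit
 36) (.br (nat_lit 30) (.ch (nat_lit 29) (.ev (nat_lit 656) (nat_lit 281474993487872) (.ev (nat_lit 944)
 (nat_lit 2147483648) (.ev (nat_lit 957) (nat_lit 128) .dd)))) (.ch (nat_lit 30) (.ev (nat_lit 656) (nat_lit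
 281477140971520) (.ev (nat_lit 669) (nat_lit 128) .dd)))) (.br (nat_lit 42) (.ch (nat_lit 36) (.ev (nat_lit
 656) (nat_lit 281474976710784) (.ev (nat_lit 708) (nat_lit 16777216) (.ev (nat_lit 717) (nat_lit 2147483648)
 .dd)))) (.ch (nat_lit 42) (.ev (nat_lit 656) (nat_lit 281477140971648) .dd)))))))))))))) (.br (nat_lit 21)
 (.ch (nat_lit 18) (.ev (nat_lit 52) (nat_lit 1222097085156542124160) (.ev (nat_lit 116) (nat_lit
 147573952589676412928) (.ev (nat_lit 148) (nat_lit 17039360) (.ev (nat_lit 180) (nat_lit 8589934592) (.ev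
 (nat_lit 212) (nat_lit 36028797018963968) (.ev (nat_lit 372) (nat_lit 32) (.nd (nat_lit 640) (.br (nat_lit 28)
 (.br (nat_lit 10) (.br (nat_lit 7) (.ch (nat_lit 4) (.ev (nat_lit 656) (nat_lit 18448995873527431168) (.ev
 (nat_lit 708) (nat_lit 1125899906842624) (.ev (nat_lit 717) (nat_lit 17179869184) .dd)))) (.br (nat_lit 8)
 (.ch (nat_lit 7) (.ev (nat_lit 656) (nat_lit 18450121773434273792) (.ev (nat_lit 669) (nat_lit 17179869184)
 .dd))) (.ch (nat_lit 8) (.ev (nat_lit 656) (nat_lit 18450121790614142976) .dd)))) (.br (nat_lit 17) (.ch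
 (nat_lit 10) (.ev (nat_lit 656) (nat_lit 18446744090893615104) (.ev (nat_lit 672) (nat_lit 1125899906842624)
 (.ev (nat_lit 685) (nat_lit 2251799813685248) .dd)))) (.br (nat_lit 21) (.ch (nat_lit 17) (.ev (nat_lit 656)
 (nat_lit 18450121790614142976) .dd)) (.ch (nat_lit 21) (.ev (nat_lit 656) (nat_lit 18448995873527431168) (.ev
 (nat_lit 708) (nat_lit 1125899906842624) (.ev (nat_lit 717) (nat_lit 17179869184) .dd))))))) (.br (nat_lit 31)
 (.br (nat_lit 29) (.ch (nat_lit 28) (.ev (nat_lit 656) (nat_lit 18448995890703106048) (.ev (nat_lit 708)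
 (nat_lit 4194304) (.ev (nat_lit 717) (nat_lit 1125899906842624) .dd)))) (.br (nat_lit 30) (.ch (nat_lit 29)
 (.ev (nat_lit 656) (nat_lit 3377699724722176) (.ev (nat_lit 736) (nat_lit 17179869184) (.ev (nat_lit 749)
 (nat_lit 18446744073709551616) .dd)))) (.ch (nat_lit 30) (.ev (nat_lit 656) (nat_lit 18450121790614142976)
 .dd)))) (.br (nat_lit 35) (.br (nat_lit 33) (.ch (nat_lit 31) (.ev (nat_lit 656) (nat_lit
 18450121790609948672) (.ev (nat_lit 669) (nat_lit 4194304) .dd))) (.ch (nat_lit 33) (.ev (nat_lit 656)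
 (nat_lit 1125917090906112) (.ev (nat_lit 992) (nat_lit 2251799813685248) (.ev (nat_lit 1005) (nat_lit
 18446744073709551616) .dd))))) (.br (nat_lit 36) (.ch (nat_lit 35) (.ev (nat_lit 656) (nat_lit
 3377716900397056) (.ev (nat_lit 720) (nat_lit 4194304) (.ev (nat_lit 733) (nat_lit 18446744073709551616)
 .dd)))) (.ch (nat_lit 36) (.ev (nat_lit 656) (nat_lit 18450121773434273792) (.ev (nat_lit 669) (nat_lit
 17179869184) .dd))))))))))))))) (.ch (nat_lit 21) (.ev (nat_lit 52) (nat_lit 1180595007232552468512) (.ev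
 (nat_lit 96) (nat_lit 207562181109906149504) .dd))))) (.br (nat_lit 26) (.br (nat_lit 24) (.ch (nat_lit 22)
 (.ev (nat_lit 52) (nat_lit 1185205840010696196096) (.ev (nat_lit 64) (nat_lit 202951348331762421920) .dd)))
 (.ch (nat_lit 24) (.ev (nat_lit 52) (nat_lit 55340232246902915072) (.ev (nat_lit 84) (nat_lit 4096) (.ev
 (nat_lit 116) (nat_lit 8796093022208) (.ev (nat_lit 148) (nat_lit 38280596849426432) (.ev (nat_lit 400)
 (nat_lit 2147483648) (.nd (nat_lit 640) (.br (nat_lit 17) (.br (nat_lit 8) (.br (nat_lit 5) (.ch (nat_lit 3)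
 (.ev (nat_lit 656) (nat_lit 1332778666700398657696) (.ev (nat_lit 669) (nat_lit 67108864) .dd))) (.br (nat_lit
 7) (.ch (nat_lit 5) (.ev (nat_lit 656) (nat_lit 1332778666700465766560) .dd)) (.ch (nat_lit 7) (.ev (nat_lit
 656) (nat_lit 1185204714110789353632) (.ev (nat_lit 669) (nat_lit 147573952589676412928) .dd))))) (.br
 (nat_lit 10) (.ch (nat_lit 8) (.ev (nat_lit 656) (nat_lit 1328165854782064427040) (.ev (nat_lit 976) (nat_lit
 4611686018427387904) (.ev (nat_lit 1028) (nat_lit 128) (.fin (nat_lit 576566855140328128)))))) (.br (nat_lit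
 16) (.ch (nat_lit 10) (.ev (nat_lit 656) (nat_lit 1332778666700465766560) .dd)) (.ch (nat_lit 16) (.ev
 (nat_lit 656) (nat_lit 1332778385225489055904) (.ev (nat_lit 669) (nat_lit 281474976710656) .dd)))))) (.br
 (nat_lit 32) (.br (nat_lit 21) (.ch (nat_lit 17) (.ev (nat_lit 656) (nat_lit 1332778666700465766560) .dd))
 (.br (nat_lit 30) (.ch (nat_lit 21) (.ev (nat_lit 656) (nat_lit 1328166980682038378624) (.ev (nat_lit 688)
 (nat_lit 32) (.ev (nat_lit 701) (nat_lit 4611686018427387904) .dd)))) (.ch (nat_lit 30) (.ev (nat_lit 656)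
 (nat_lit 152186764508077752480) (.ev (nat_lit 720) (nat_lit 281474976710656) (.ev (nat_lit 733) (nat_lit
 1180591620717411303424) .dd)))))) (.br (nat_lit 34) (.ch (nat_lit 32) (.ev (nat_lit 656) (nat_lit
 1328166980682038378656) (.ev (nat_lit 669) (nat_lit 4611686018427387904) .dd))) (.br (nat_lit 35) (.ch
 (nat_lit 34) (.ev (nat_lit 656) (nat_lit 1332778385225489055904) (.ev (nat_lit 669) (nat_lit 281474976710656)
 .dd))) (.ch (nat_lit 35) (.ev (nat_lit 656) (nat_lit 1328165573307154825376) (.ev (nat_lit 708) (nat_lit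
 4611686018427387904) (.ev (nat_lit 1028) (nat_lit 281474976710656) (.ev (nat_lit 1037) (nat_lit
 1125899906842624) .dd))))))))))))))))) (.br (nat_lit 28) (.ch (nat_lit 26) (.ev (nat_lit 52) (nat_lit
 41542337684635389984) (.ev (nat_lit 84) (nat_lit 281474976710656) (.ev (nat_lit 116) (nat_lit
 18446744075861229568) (.ev (nat_lit 224) (nat_lit 1328167825106985287808) .dd))))) (.br (nat_lit 29) (.ch
 (nat_lit 28) (.ev (nat_lit 52) (nat_lit 1328165863603927519264) (.ev (nat_lit 84) (nat_lit 1125899906842624)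
 (.ev (nat_lit 160) (nat_lit 59990198838624256128) .dd)))) (.ch (nat_lit 29) (.ev (nat_lit 52) (nat_lit
 23098118072510189728) (.ev (nat_lit 84) (nat_lit 36893488164598972416) (.ev (nat_lit 116) (nat_lit
 8796093284352) (.ev (nat_lit 180) (nat_lit 4194304) (.ev (nat_lit 212) (nat_lit 1180591620717411303424) (.nd
 (nat_lit 640) (.br (nat_lit 16) (.br (nat_lit 10) (.br (nat_lit 5) (.ch (nat_lit 3) (.ev (nat_lit 656)
 (nat_lit 147573952591840673792) .dd)) (.br (nat_lit 7) (.ch (nat_lit 5) (.ev (nat_lit 656) (nat_lit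
 147573952591840673792) .dd)) (.ch (nat_lit 7) (.ev (nat_lit 656) (nat_lit 2164260864) (.ev (nat_lit 669)
 (nat_lit 147573952589676412928) .dd))))) (.br (nat_lit 13) (.ch (nat_lit 10) (.ev (nat_lit 656) (nat_lit
 147573952591840673792) .dd)) (.br (nat_lit 15) (.ch (nat_lit 13) (.ev (nat_lit 656) (nat_lit
 147573952591840673792) .dd)) (.ch (nat_lit 15) (.ev (nat_lit 656) (nat_lit 147573952591840673792) .dd)))))
 (.br (nat_lit 28) (.br (nat_lit 18) (.ch (nat_lit 16) (.ev (nat_lit 656) (nat_lit 147573952591840673792) .dd))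
 (.br (nat_lit 19) (.ch (nat_lit 18) (.ev (nat_lit 656) (nat_lit 2164260864) (.ev (nat_lit 669) (nat_lit
 147573952589676412928) .dd))) (.ch (nat_lit 19) (.ev (nat_lit 656) (nat_lit 2147483648) (.ev (nat_lit 708)
 (nat_lit 16777216) (.ev (nat_lit 717) (nat_lit 147573952589676412928) .dd)))))) (.br (nat_lit 32) (.ch
 (nat_lit 28) (.ev (nat_lit 656) (nat_lit 2164260864) (.ev (nat_lit 669) (nat_lit 147573952589676412928) .dd)))
 (.br (nat_lit 36) (.ch (nat_lit 32) (.ev (nat_lit 656) (nat_lit 147573952589693190144) (.ev (nat_lit 669)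
 (nat_lit 2147483648) .dd))) (.ch (nat_lit 36) (.ev (nat_lit 656) (nat_lit 147573952589676412928) (.ev (nat_lit
 708) (nat_lit 16777216) (.ev (nat_lit 717) (nat_lit 2147483648) .dd)))))))))))))))))))) (.br (nat_lit 42) (.br
 (nat_lit 38) (.br (nat_lit 36) (.br (nat_lit 33) (.ch (nat_lit 31) (.ev (nat_lit 52) (nat_lit
 55341648394324021248) (.ev (nat_lit 84) (nat_lit 262144) (.ev (nat_lit 128) (nat_lit 1332815539948134334624)
 .dd)))) (.ch (nat_lit 33) (.ev (nat_lit 52) (nat_lit 1332777549622438789248) (.ev (nat_lit 84) (nat_lit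
 2251799813685248) (.ev (nat_lit 116) (nat_lit 36893488147419103232) (.ev (nat_lit 148) (nat_lit 2147483648)
 (.ev (nat_lit 180) (nat_lit 37154696925806592) (.nd (nat_lit 640) (.br (nat_lit 28) (.br (nat_lit 18) (.br
 (nat_lit 5) (.ch (nat_lit 4) (.ev (nat_lit 656) (nat_lit 4096) (.ev (nat_lit 708) (nat_lit
 18446744073709551616) (.ev (nat_lit 736) (nat_lit 32) (.ev (nat_lit 749) (nat_lit 4194304) .dd))))) (.br
 (nat_lit 15) (.ch (nat_lit 5) (.ev (nat_lit 656) (nat_lit 18446744073713745952) (.ev (nat_lit 669) (nat_lit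
 4096) .dd))) (.ch (nat_lit 15) (.ev (nat_lit 656) (nat_lit 18446744073709555744) (.ev (nat_lit 669) (nat_lit
 4194304) .dd))))) (.br (nat_lit 21) (.br (nat_lit 19) (.ch (nat_lit 18) (.ev (nat_lit 656) (nat_lit 4198432)
 (.ev (nat_lit 669) (nat_lit 18446744073709551616) .dd))) (.ch (nat_lit 19) (.ev (nat_lit 656) (nat_lit
 18446744073713750048) .dd))) (.br (nat_lit 25) (.ch (nat_lit 21) (.ev (nat_lit 656) (nat_lit
 18446744073709551616) (.ev (nat_lit 752) (nat_lit 4096) (.nd (nat_lit 1073) (.ch (nat_lit 11) (.nd (nat_lit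
 1088) (.br (nat_lit 27) (.ch (nat_lit 1) (.fin (nat_lit 576501983975260792))) (.ch (nat_lit 27) (.ev (nat_lit
 1104) (nat_lit 4194336) .dd))))))))) (.ch (nat_lit 25) (.ev (nat_lit 656) (nat_lit 4194336) (.ev (nat_lit 720)
 (nat_lit 4096) (.ev (nat_lit 733) (nat_lit 18446744073709551616) .dd))))))) (.br (nat_lit 32) (.br (nat_lit
 30) (.ch (nat_lit 28) (.ev (nat_lit 656) (nat_lit 18446744073709555712) (.ev (nat_lit 708) (nat_lit 32) (.ev
 (nat_lit 717) (nat_lit 4194304) .dd)))) (.br (nat_lit 31) (.ch (nat_lit 30) (.ev (nat_lit 656) (nat_lit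
 18446744073713745952) (.ev (nat_lit 669) (nat_lit 4096) .dd))) (.ch (nat_lit 31) (.ev (nat_lit 656) (nat_lit
 18446744073713750048) .dd)))) (.br (nat_lit 34) (.br (nat_lit 33) (.ch (nat_lit 32) (.ev (nat_lit 656)
 (nat_lit 18446744073709555712) (.ev (nat_lit 708) (nat_lit 32) (.ev (nat_lit 717) (nat_lit 4194304) .dd))))
 (.ch (nat_lit 33) (.ev (nat_lit 656) (nat_lit 18446744073713750048) .dd))) (.br (nat_lit 35) (.ch (nat_lit 34)
 (.ev (nat_lit 656) (nat_lit 18446744073713750048) .dd)) (.ch (nat_lit 35) (.ev (nat_lit 656) (nat_lit 4096)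
 (.ev (nat_lit 708) (nat_lit 4194336) (.ev (nat_lit 717) (nat_lit 18446744073709551616) .dd))))))))))))))))
 (.br (nat_lit 37) (.ch (nat_lit 36) (.ev (nat_lit 52) (nat_lit 1328201883587690365088) (.ev (nat_lit 84)
 (nat_lit 4611694831700283392) (.ev (nat_lit 116) (nat_lit 36893488147419103232) (.ev (nat_lit 148) (nat_lit
 2147483648) (.nd (nat_lit 640) (.br (nat_lit 28) (.br (nat_lit 8) (.br (nat_lit 4) (.ch (nat_lit 3) (.ev
 (nat_lit 656) (nat_lit 18448995873594540032) (.ev (nat_lit 669) (nat_lit 1125899906842624) .dd))) (.br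
 (nat_lit 7) (.ch (nat_lit 4) (.ev (nat_lit 656) (nat_lit 3377699724722176) (.ev (nat_lit 672) (nat_lit
 18446744073709551616) (.ev (nat_lit 685) (nat_lit 67108864) .dd)))) (.ch (nat_lit 7) (.ev (nat_lit 656)
 (nat_lit 18450121773501382656) .dd)))) (.br (nat_lit 9) (.ch (nat_lit 8) (.ev (nat_lit 656) (nat_lit
 18450121773434273792) (.ev (nat_lit 669) (nat_lit 67108864) .dd))) (.br (nat_lit 17) (.ch (nat_lit 9) (.ev
 (nat_lit 656) (nat_lit 18446744073780854784) (.ev (nat_lit 672) (nat_lit 1125899906842624) (.ev (nat_lit 685)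
 (nat_lit 2251799813685248) .dd)))) (.ch (nat_lit 17) (.ev (nat_lit 656) (nat_lit 18450121773501382656)
 .dd))))) (.br (nat_lit 34) (.br (nat_lit 31) (.ch (nat_lit 28) (.ev (nat_lit 656) (nat_lit
 18448995873594540032) (.ev (nat_lit 669) (nat_lit 1125899906842624) .dd))) (.br (nat_lit 32) (.ch (nat_lit 31)
 (.ev (nat_lit 656) (nat_lit 1125899911036928) (.ev (nat_lit 944) (nat_lit 67108864) (.fin (nat_lit
 576465700143972980))))) (.ch (nat_lit 32) (.ev (nat_lit 656) (nat_lit 1125899978145792) (.ev (nat_lit 976)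
 (nat_lit 2251799813685248) (.ev (nat_lit 989) (nat_lit 18446744073709551616) .dd)))))) (.br (nat_lit 36) (.br
 (nat_lit 35) (.ch (nat_lit 34) (.ev (nat_lit 656) (nat_lit 18450121773501382656) .dd)) (.ch (nat_lit 35) (.ev
 (nat_lit 656) (nat_lit 18448995873594540032) (.ev (nat_lit 669) (nat_lit 1125899906842624) .dd)))) (.br
 (nat_lit 42) (.ch (nat_lit 36) (.ev (nat_lit 656) (nat_lit 18450121773434273792) (.ev (nat_lit 669) (nat_lit
 67108864) .dd))) (.ch (nat_lit 42) (.ev (nat_lit 656) (nat_lit 3377699787636736) (.ev (nat_lit 708) (nat_lit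
 18446744073709551616) (.ev (nat_lit 717) (nat_lit 4194304) .dd)))))))))))))) (.ch (nat_lit 37) (.ev (nat_lit
 52) (nat_lit 170670663278717567136) (.ev (nat_lit 84) (nat_lit 36893496943512129536) (.ev (nat_lit 212)
 (nat_lit 16777216) (.nd (nat_lit 640) (.br (nat_lit 21) (.br (nat_lit 15) (.br (nat_lit 7) (.ch (nat_lit 5)
 (.ev (nat_lit 656) (nat_lit 10737418240) (.ev (nat_lit 736) (nat_lit 1180591902192388014080) (.fin (nat_lit
 576575651222864440))))) (.br (nat_lit 13) (.ch (nat_lit 7) (.ev (nat_lit 656) (nat_lit 1125910644260864) (.ev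
 (nat_lit 708) (nat_lit 1180591620734591172608) (.ev (nat_lit 717) (nat_lit 281474976710656) .dd)))) (.ch
 (nat_lit 13) (.ev (nat_lit 656) (nat_lit 1180593028120212144128) .dd)))) (.br (nat_lit 18) (.br (nat_lit 16)
 (.ch (nat_lit 15) (.ev (nat_lit 656) (nat_lit 1407385620971520) (.ev (nat_lit 720) (nat_lit
 1180591620717411303424) (.ev (nat_lit 733) (nat_lit 17179869184) .dd)))) (.ch (nat_lit 16) (.ev (nat_lit 656)
 (nat_lit 1180592746636645498880) (.ev (nat_lit 708) (nat_lit 8589934592) (.ev (nat_lit 717) (nat_lit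
 281474976710656) .dd))))) (.br (nat_lit 19) (.ch (nat_lit 18) (.ev (nat_lit 656) (nat_lit
 1180592746643087949824) (.ev (nat_lit 708) (nat_lit 281474976710656) (.ev (nat_lit 717) (nat_lit 2147483648)
 .dd)))) (.ch (nat_lit 19) (.ev (nat_lit 656) (nat_lit 1180593028120212144128) .dd))))) (.br (nat_lit 30) (.br
 (nat_lit 25) (.ch (nat_lit 21) (.ev (nat_lit 656) (nat_lit 1407385620971520) (.ev (nat_lit 708) (nat_lit
 17179869184) (.ev (nat_lit 717) (nat_lit 1180591620717411303424) .dd)))) (.br (nat_lit 29) (.ch (nat_lit 25)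
 (.ev (nat_lit 656) (nat_lit 1180591902220305301504) (.ev (nat_lit 669) (nat_lit 1125899906842624) .dd))) (.ch
 (nat_lit 29) (.ev (nat_lit 656) (nat_lit 1180593028120212144128) .dd)))) (.br (nat_lit 34) (.br (nat_lit 31)
 (.ch (nat_lit 30) (.ev (nat_lit 656) (nat_lit 1180593028120212144128) .dd)) (.ch (nat_lit 31) (.ev (nat_lit
 656) (nat_lit 1180593028118064660480) (.ev (nat_lit 669) (nat_lit 2147483648) .dd)))) (.br (nat_lit 35) (.ch
 (nat_lit 34) (.ev (nat_lit 656) (nat_lit 1180593028103032274944) (.ev (nat_lit 669) (nat_lit 17179869184)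
 .dd))) (.ch (nat_lit 35) (.ev (nat_lit 656) (nat_lit 281485714128896) (.ev (nat_lit 708) (nat_lit
 1180591620717411303424) (.ev (nat_lit 752) (nat_lit 17179869184) (.ev (nat_lit 765) (nat_lit 1125899906842624)
 .dd)))))))))))))))) (.br (nat_lit 40) (.br (nat_lit 39) (.ch (nat_lit 38) (.ev (nat_lit 52) (nat_lit
 1180591620728148983840) (.ev (nat_lit 64) (nat_lit 207565567614309634176) .dd))) (.ch (nat_lit 39) (.ev
 (nat_lit 52) (nat_lit 202917562512677273728) (.ev (nat_lit 96) (nat_lit 1185239625829781344288) .dd)))) (.br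
 (nat_lit 41) (.ch (nat_lit 40) (.ev (nat_lit 52) (nat_lit 166020696691374555296) (.ev (nat_lit 84) (nat_lit
 36893488147419103232) (.ev (nat_lit 160) (nat_lit 1185243003503664959488) .dd)))) (.ch (nat_lit 41) (.ev
 (nat_lit 52) (nat_lit 4651382786257584128) (.ev (nat_lit 116) (nat_lit 55340232221128654848) (.ev (nat_lit
 148) (nat_lit 128) (.ev (nat_lit 180) (nat_lit 32) (.ev (nat_lit 212) (nat_lit 67108864) (.ev (nat_lit 244)
 (nat_lit 8589934592) (.nd (nat_lit 640) (.br (nat_lit 19) (.br (nat_lit 15) (.br (nat_lit 9) (.br (nat_lit 8)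
 (.ch (nat_lit 5) (.ev (nat_lit 656) (nat_lit 1328165573309235466240) (.ev (nat_lit 669) (nat_lit 17179869184)
 .dd))) (.ch (nat_lit 8) (.ev (nat_lit 656) (nat_lit 147573952609004032000) (.ev (nat_lit 669) (nat_lit
 1180591620717411303424) .dd)))) (.br (nat_lit 10) (.ch (nat_lit 9) (.ev (nat_lit 656) (nat_lit
 1328165573326415331328) (.ev (nat_lit 669) (nat_lit 4096) .dd))) (.ch (nat_lit 10) (.ev (nat_lit 656) (nat_lit
 1328165573326415335424) .dd)))) (.br (nat_lit 17) (.br (nat_lit 16) (.ch (nat_lit 15) (.ev (nat_lit 656)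
 (nat_lit 1328165573326415335424) .dd)) (.ch (nat_lit 16) (.ev (nat_lit 656) (nat_lit 1328165573326415331328)
 (.ev (nat_lit 669) (nat_lit 4096) .dd)))) (.br (nat_lit 18) (.ch (nat_lit 17) (.ev (nat_lit 656) (nat_lit
 1328165573326415331328) (.ev (nat_lit 669) (nat_lit 4096) .dd))) (.ch (nat_lit 18) (.ev (nat_lit 656) (nat_lit
 1180591620736738660352) (.ev (nat_lit 708) (nat_lit 262144) (.ev (nat_lit 717) (nat_lit 147573952589676412928)
 .dd))))))) (.br (nat_lit 29) (.br (nat_lit 25) (.br (nat_lit 21) (.ch (nat_lit 19) (.ev (nat_lit 656) (nat_lit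
 1328165573326415335424) .dd)) (.ch (nat_lit 21) (.ev (nat_lit 656) (nat_lit 1328165573326415335424) .dd)))
 (.br (nat_lit 28) (.ch (nat_lit 25) (.ev (nat_lit 656) (nat_lit 1180591620736738656256) (.ev (nat_lit 708)
 (nat_lit 147573952589676412928) (.ev (nat_lit 864) (nat_lit 262144) (.ev (nat_lit 877) (nat_lit 4096) .dd)))))
 (.ch (nat_lit 28) (.ev (nat_lit 656) (nat_lit 147573952591824162816) (.ev (nat_lit 708) (nat_lit 17179869184)
 (.ev (nat_lit 717) (nat_lit 1180591620717411303424) .dd)))))) (.br (nat_lit 31) (.br (nat_lit 30) (.ch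
 (nat_lit 29) (.ev (nat_lit 656) (nat_lit 1328165573309235462144) (.ev (nat_lit 708) (nat_lit 17179869184) (.ev
 (nat_lit 717) (nat_lit 4096) .dd)))) (.ch (nat_lit 30) (.ev (nat_lit 656) (nat_lit 1328165573326415335424)
 .dd))) (.br (nat_lit 34) (.ch (nat_lit 31) (.ev (nat_lit 656) (nat_lit 1328165573324267585536) (.ev (nat_lit
 708) (nat_lit 262144) (.ev (nat_lit 912) (nat_lit 2147483648) (.ev (nat_lit 925) (nat_lit 4096) .dd))))) (.br
 (nat_lit 36) (.ch (nat_lit 34) (.ev (nat_lit 656) (nat_lit 1328165573326415335424) .dd)) (.ch (nat_lit 36)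
 (.ev (nat_lit 656) (nat_lit 1328165573309235204096) (.ev (nat_lit 928) (nat_lit 17180131328)
 .dd))))))))))))))))))) (.br (nat_lit 47) (.br (nat_lit 44) (.br (nat_lit 43) (.ch (nat_lit 42) (.ev (nat_lit
 52) (nat_lit 207528412908793888768) (.ev (nat_lit 84) (nat_lit 1125899906842624) (.ev (nat_lit 148) (nat_lit
 128) (.ev (nat_lit 244) (nat_lit 2147483648) (.ev (nat_lit 448) (nat_lit 32) (.nd (nat_lit 640) (.br (nat_lit
 25) (.br (nat_lit 13) (.br (nat_lit 7) (.ch (nat_lit 5) (.ev (nat_lit 656) (nat_lit 1180627649514430529536)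
 (.ev (nat_lit 800) (nat_lit 17179869184) (.ev (nat_lit 813) (nat_lit 4096) .dd)))) (.br (nat_lit 10) (.ch
 (nat_lit 7) (.ev (nat_lit 656) (nat_lit 36028814199095296) (.ev (nat_lit 708) (nat_lit 1180591620717411303424)
 (.ev (nat_lit 717) (nat_lit 4096) .dd)))) (.ch (nat_lit 10) (.ev (nat_lit 656) (nat_lit
 1180591620734591438848) (.ev (nat_lit 669) (nat_lit 36028797018963968) .dd))))) (.br (nat_lit 18) (.ch
 (nat_lit 13) (.ev (nat_lit 656) (nat_lit 1180627649531610402816) .dd)) (.br (nat_lit 19) (.ch (nat_lit 18)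
 (.ev (nat_lit 656) (nat_lit 1180627649531610402816) .dd)) (.ch (nat_lit 19) (.ev (nat_lit 656) (nat_lit
 1180627649531610402816) .dd))))) (.br (nat_lit 30) (.br (nat_lit 28) (.ch (nat_lit 25) (.ev (nat_lit 656)
 (nat_lit 1180627649531610140672) (.ev (nat_lit 669) (nat_lit 262144) .dd))) (.br (nat_lit 29) (.ch (nat_lit
 28) (.ev (nat_lit 656) (nat_lit 1180591620717411569664) (.ev (nat_lit 720) (nat_lit 17179869184) (.ev (nat_lit
 733) (nat_lit 36028797018963968) .dd)))) (.ch (nat_lit 29) (.ev (nat_lit 656) (nat_lit 1180627649514430533632)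
 (.ev (nat_lit 669) (nat_lit 17179869184) .dd))))) (.br (nat_lit 36) (.br (nat_lit 35) (.ch (nat_lit 30) (.ev
 (nat_lit 656) (nat_lit 1180627649531610398720) (.ev (nat_lit 669) (nat_lit 4096) .dd))) (.ch (nat_lit 35) (.ev
 (nat_lit 656) (nat_lit 36028814199099392) (.ev (nat_lit 669) (nat_lit 1180591620717411303424) .dd)))) (.br
 (nat_lit 42) (.ch (nat_lit 36) (.ev (nat_lit 656) (nat_lit 36028797019230208) (.ev (nat_lit 708) (nat_lit
 1180591620717411303424) (.ev (nat_lit 717) (nat_lit 17179869184) .dd)))) (.ch (nat_lit 42) (.ev (nat_lit 656)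
 (nat_lit 1180627649531610402816) .dd))))))))))))) (.ch (nat_lit 43) (.ev (nat_lit 52) (nat_lit
 184470818447570501632) (.ev (nat_lit 84) (nat_lit 18446744073709551616) (.ev (nat_lit 116) (nat_lit 4198400)
 (.ev (nat_lit 148) (nat_lit 1180591902192388014080) (.ev (nat_lit 192) (nat_lit 4647723628786352288)
 .dd))))))) (.br (nat_lit 46) (.ch (nat_lit 44) (.ev (nat_lit 52) (nat_lit 1185240742916352380960) (.ev
 (nat_lit 84) (nat_lit 17179869184) (.ev (nat_lit 116) (nat_lit 2251799813685248) (.ev (nat_lit 180) (nat_lit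
 67108864) (.nd (nat_lit 640) (.br (nat_lit 19) (.br (nat_lit 15) (.br (nat_lit 8) (.ch (nat_lit 4) (.ev
 (nat_lit 656) (nat_lit 202914193609045573760) .dd)) (.br (nat_lit 9) (.ch (nat_lit 8) (.ev (nat_lit 656)
 (nat_lit 202914193609045573760) .dd)) (.ch (nat_lit 9) (.ev (nat_lit 656) (nat_lit 202914193609045573760)
 .dd)))) (.br (nat_lit 16) (.ch (nat_lit 15) (.ev (nat_lit 656) (nat_lit 202914193609045573632) (.ev (nat_lit
 669) (nat_lit 128) .dd))) (.br (nat_lit 18) (.ch (nat_lit 16) (.ev (nat_lit 656) (nat_lit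
 184467449535336022144) (.ev (nat_lit 669) (nat_lit 18446744073709551616) .dd))) (.ch (nat_lit 18) (.ev
 (nat_lit 656) (nat_lit 55340241019369160832) (.ev (nat_lit 669) (nat_lit 147573952589676412928) .dd)))))) (.br
 (nat_lit 32) (.br (nat_lit 29) (.ch (nat_lit 19) (.ev (nat_lit 656) (nat_lit 202914193606898089984) (.ev
 (nat_lit 708) (nat_lit 2147483648) (.ev (nat_lit 717) (nat_lit 128) .dd)))) (.br (nat_lit 31) (.ch (nat_lit
 29) (.ev (nat_lit 656) (nat_lit 166020705461626470400) (.ev (nat_lit 672) (nat_lit 36893488147419103232) (.ev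
 (nat_lit 685) (nat_lit 128) .dd)))) (.ch (nat_lit 31) (.ev (nat_lit 656) (nat_lit 202914193609045573760)
 .dd)))) (.br (nat_lit 33) (.ch (nat_lit 32) (.ev (nat_lit 656) (nat_lit 184467449535336022144) (.ev (nat_lit
 669) (nat_lit 18446744073709551616) .dd))) (.br (nat_lit 42) (.ch (nat_lit 33) (.ev (nat_lit 656) (nat_lit
 147573961387916918784) (.ev (nat_lit 720) (nat_lit 128) (.ev (nat_lit 752) (nat_lit 36893488147419103232) (.ev
 (nat_lit 765) (nat_lit 18446744073709551616) .dd))))) (.ch (nat_lit 42) (.ev (nat_lit 656) (nat_lit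
 202914184810805067904) (.fin (nat_lit 576461302078587464)))))))))))))) (.ch (nat_lit 46) (.ev (nat_lit 52)
 (nat_lit 1383542960227306700928) (.ev (nat_lit 116) (nat_lit 4611967493471207424) (.ev (nat_lit 148) (nat_lit
 2260595906707456) (.ev (nat_lit 180) (nat_lit 8589934592) (.nd (nat_lit 640) (.br (nat_lit 21) (.br (nat_lit
 15) (.br (nat_lit 9) (.br (nat_lit 5) (.ch (nat_lit 3) (.ev (nat_lit 656) (nat_lit 17184067584) (.ev (nat_lit
 669) (nat_lit 32) .dd))) (.ch (nat_lit 5) (.ev (nat_lit 656) (nat_lit 17184063488) (.ev (nat_lit 736) (nat_lit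
 4096) (.ev (nat_lit 749) (nat_lit 32) .dd))))) (.br (nat_lit 10) (.ch (nat_lit 9) (.ev (nat_lit 656) (nat_lit
 17179873312) (.ev (nat_lit 669) (nat_lit 4194304) .dd))) (.ch (nat_lit 10) (.ev (nat_lit 656) (nat_lit
 17184067616) .dd)))) (.br (nat_lit 18) (.br (nat_lit 17) (.ch (nat_lit 15) (.ev (nat_lit 656) (nat_lit 4128)
 (.ev (nat_lit 1028) (nat_lit 4194304) (.ev (nat_lit 1037) (nat_lit 17179869184) .dd)))) (.ch (nat_lit 17) (.ev
 (nat_lit 656) (nat_lit 17184067616) .dd))) (.br (nat_lit 19) (.ch (nat_lit 18) (.ev (nat_lit 656) (nat_lit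
 17184067584) (.ev (nat_lit 669) (nat_lit 32) .dd))) (.ch (nat_lit 19) (.ev (nat_lit 656) (nat_lit 17184067616)
 .dd))))) (.br (nat_lit 31) (.br (nat_lit 28) (.br (nat_lit 25) (.ch (nat_lit 21) (.ev (nat_lit 656) (nat_lit
 17179873280) (.fin (nat_lit 576501983975260792)))) (.ch (nat_lit 25) (.ev (nat_lit 656) (nat_lit 4198432) (.ev
 (nat_lit 669) (nat_lit 17179869184) .dd)))) (.br (nat_lit 29) (.ch (nat_lit 28) (.ev (nat_lit 656) (nat_lit
 17184067584) (.ev (nat_lit 669) (nat_lit 32) .dd))) (.ch (nat_lit 29) (.ev (nat_lit 656) (nat_lit 17179869216)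
 (.ev (nat_lit 1028) (nat_lit 4096) (.ev (nat_lit 1037) (nat_lit 4194304) .dd)))))) (.br (nat_lit 34) (.br
 (nat_lit 32) (.ch (nat_lit 31) (.ev (nat_lit 656) (nat_lit 17179869216) (.ev (nat_lit 1028) (nat_lit 4194304)
 (.ev (nat_lit 1037) (nat_lit 4096) .dd)))) (.ch (nat_lit 32) (.ev (nat_lit 656) (nat_lit 17184067616) .dd)))
 (.br (nat_lit 35) (.ch (nat_lit 34) (.ev (nat_lit 656) (nat_lit 4198400) (.ev (nat_lit 720) (nat_lit
 17179869184) (.ev (nat_lit 733) (nat_lit 32) .dd)))) (.br (nat_lit 42) (.ch (nat_lit 35) (.ev (nat_lit 656)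
 (nat_lit 4128) (.ev (nat_lit 708) (nat_lit 17179869184) (.ev (nat_lit 717) (nat_lit 4194304) .dd)))) (.ch
 (nat_lit 42) (.ev (nat_lit 656) (nat_lit 17184067616) .dd))))))))))))))) (.br (nat_lit 49) (.br (nat_lit 48)
 (.ch (nat_lit 47) (.ev (nat_lit 52) (nat_lit 1235935239451621458080) (.ev (nat_lit 84) (nat_lit
 4611686018427387904) (.ev (nat_lit 116) (nat_lit 281474976710656) (.ev (nat_lit 224) (nat_lit
 147609981397433061376) .dd))))) (.ch (nat_lit 48) (.ev (nat_lit 52) (nat_lit 184469974031234240544) (.ev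
 (nat_lit 84) (nat_lit 8796093022208) (.ev (nat_lit 148) (nat_lit 1180591620717411303424) (.ev (nat_lit 160)
 (nat_lit 23095584797720051840) .dd)))))) (.br (nat_lit 50) (.ch (nat_lit 49) (.ev (nat_lit 52) (nat_lit
 152221957684853735552) (.ev (nat_lit 84) (nat_lit 18446744073709551616) (.ev (nat_lit 128) (nat_lit
 1217488486583895330848) .dd)))) (.br (nat_lit 52) (.ch (nat_lit 50) (.ev (nat_lit 52) (nat_lit 2168717472)
 (.ev (nat_lit 84) (nat_lit 166020978138362675200) (.ev (nat_lit 116) (nat_lit 8796093022208) (.ev (nat_lit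
 180) (nat_lit 8589934592) (.ev (nat_lit 212) (nat_lit 1180627649514430267392) (.ev (nat_lit 308) (nat_lit
 67108864) (.nd (nat_lit 640) (.br (nat_lit 17) (.br (nat_lit 7) (.br (nat_lit 5) (.ch (nat_lit 4) (.ev
 (nat_lit 656) (nat_lit 41508551882746892288) .dd)) (.ch (nat_lit 5) (.ev (nat_lit 656) (nat_lit
 41507425965660180480) (.fin (nat_lit 576575651222864440))))) (.br (nat_lit 13) (.ch (nat_lit 7) (.ev (nat_lit
 656) (nat_lit 41508551882746888192) (.ev (nat_lit 669) (nat_lit 4096) .dd))) (.br (nat_lit 15) (.ch (nat_lit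
 13) (.ev (nat_lit 656) (nat_lit 41508551882746892288) .dd)) (.ch (nat_lit 15) (.ev (nat_lit 656) (nat_lit
 36896865847139635200) (.ev (nat_lit 720) (nat_lit 17179869184) (.ev (nat_lit 733) (nat_lit
 4611686018427387904) .dd))))))) (.br (nat_lit 25) (.br (nat_lit 21) (.ch (nat_lit 17) (.ev (nat_lit 656)
 (nat_lit 41508551882746888192) (.ev (nat_lit 669) (nat_lit 4096) .dd))) (.ch (nat_lit 21) (.ev (nat_lit 656)
 (nat_lit 36895739964412661760) (.ev (nat_lit 720) (nat_lit 1125899906842624) (.ev (nat_lit 733) (nat_lit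
 4611686018427387904) .dd))))) (.br (nat_lit 31) (.ch (nat_lit 25) (.ev (nat_lit 656) (nat_lit
 4615063735327784960) (.ev (nat_lit 720) (nat_lit 4096) (.ev (nat_lit 733) (nat_lit 36893488147419103232)
 .dd)))) (.br (nat_lit 42) (.ch (nat_lit 31) (.ev (nat_lit 656) (nat_lit 41508551882746892288) .dd)) (.ch
 (nat_lit 42) (.ev (nat_lit 656) (nat_lit 41506300082933207040) (.ev (nat_lit 669) (nat_lit 2251799813685248)
 .dd))))))))))))))) (.ch (nat_lit 52) (.ev (nat_lit 52) (nat_lit 55343900217756094592) (.ev (nat_lit 84)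
 (nat_lit 2147483648) (.ev (nat_lit 116) (nat_lit 4611686018427387904) (.ev (nat_lit 192) (nat_lit
 1328201602104127651872) .dd)))))))))))))

/-- Subtrie. -/
noncomputable def T17 : Tr := (.ev (nat_lit 20) (nat_lit 650684041501178073098) (.nd (nat_lit 33) (.br (nat_lit
 31) (.br (nat_lit 16) (.br (nat_lit 10) (.br (nat_lit 6) (.br (nat_lit 5) (.ch (nat_lit 4) (.ev (nat_lit 52)
 (nat_lit 295147980498583945376) (.ev (nat_lit 84) (nat_lit 36028865738440704) (.ev (nat_lit 148) (nat_lit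
 18014398509481984) (.ev (nat_lit 212) (nat_lit 32768) (.ev (nat_lit 276) (nat_lit 147573952589676412928) (.ev
 (nat_lit 308) (nat_lit 1180591620717411303424) (.nd (nat_lit 640) (.br (nat_lit 23) (.br (nat_lit 12) (.br
 (nat_lit 6) (.ch (nat_lit 0) (.ev (nat_lit 656) (nat_lit 9429411728197904) (.ev (nat_lit 708) (nat_lit 524288)
 (.ev (nat_lit 717) (nat_lit 65536) .dd)))) (.br (nat_lit 11) (.ch (nat_lit 6) (.ev (nat_lit 656) (nat_lit
 9288674240430096) (.ev (nat_lit 708) (nat_lit 140737488357376) (.ev (nat_lit 717) (nat_lit 256) .dd)))) (.ch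
 (nat_lit 11) (.ev (nat_lit 656) (nat_lit 140737497335824) (.ev (nat_lit 708) (nat_lit 256) (.ev (nat_lit 720)
 (nat_lit 9288674231451648) .dd)))))) (.br (nat_lit 17) (.br (nat_lit 13) (.ch (nat_lit 12) (.ev (nat_lit 656)
 (nat_lit 281474985691408) (.ev (nat_lit 708) (nat_lit 140737488355328) (.ev (nat_lit 717) (nat_lit
 9007199254740992) .dd)))) (.ch (nat_lit 13) (.ev (nat_lit 656) (nat_lit 9429411728785664) (.ev (nat_lit 708)
 (nat_lit 2048) (.ev (nat_lit 717) (nat_lit 16) .dd))))) (.br (nat_lit 20) (.ch (nat_lit 17) (.ev (nat_lit 656)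
 (nat_lit 9147936752077056) (.ev (nat_lit 708) (nat_lit 16) (.ev (nat_lit 717) (nat_lit 281474976710656)
 .dd)))) (.ch (nat_lit 20) (.ev (nat_lit 656) (nat_lit 9429411728787728) .dd))))) (.br (nat_lit 28) (.br
 (nat_lit 24) (.ch (nat_lit 23) (.ev (nat_lit 656) (nat_lit 9429411720399104) (.ev (nat_lit 672) (nat_lit
 8388608) (.ev (nat_lit 685) (nat_lit 16) .dd)))) (.br (nat_lit 25) (.ch (nat_lit 24) (.ev (nat_lit 656)
 (nat_lit 9429411720331536) (.ev (nat_lit 672) (nat_lit 8388608) (.ev (nat_lit 736) (nat_lit 65536) (.ev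
 (nat_lit 749) (nat_lit 2048) .dd))))) (.ch (nat_lit 25) (.ev (nat_lit 656) (nat_lit 9429411728785680) (.ev
 (nat_lit 669) (nat_lit 2048) .dd))))) (.br (nat_lit 34) (.br (nat_lit 32) (.ch (nat_lit 28) (.ev (nat_lit 656)
 (nat_lit 9288674240432384) (.ev (nat_lit 736) (nat_lit 140737488355328) (.ev (nat_lit 749) (nat_lit 16)
 .dd)))) (.ch (nat_lit 32) (.ev (nat_lit 656) (nat_lit 9429411728785680) (.ev (nat_lit 669) (nat_lit 2048)
 .dd)))) (.br (nat_lit 39) (.ch (nat_lit 34) (.ev (nat_lit 656) (nat_lit 281474977300752) (.ev (nat_lit 708)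
 (nat_lit 2048) (.ev (nat_lit 736) (nat_lit 9007199263129600) (.ev (nat_lit 749) (nat_lit 140737488355328)
 .dd))))) (.ch (nat_lit 39) (.ev (nat_lit 656) (nat_lit 422212465658128) (.ev (nat_lit 708) (nat_lit 8388608)
 (.ev (nat_lit 717) (nat_lit 9007199254740992) .dd)))))))))))))))) (.ch (nat_lit 5) (.ev (nat_lit 52) (nat_lit
 45322421200322704) (.ev (nat_lit 116) (nat_lit 147573952589684803840) (.ev (nat_lit 148) (nat_lit 32) (.ev
 (nat_lit 180) (nat_lit 70368744177664) (.ev (nat_lit 276) (nat_lit 524288) (.ev (nat_lit 308) (nat_lit 262144)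
 (.nd (nat_lit 640) (.br (nat_lit 19) (.br (nat_lit 11) (.br (nat_lit 2) (.ch (nat_lit 0) (.ev (nat_lit 656)
 (nat_lit 1475739666703508832256) (.ev (nat_lit 669) (nat_lit 18014398509481984) .dd))) (.br (nat_lit 8) (.ch
 (nat_lit 2) (.ev (nat_lit 656) (nat_lit 295165919578399178752) (.ev (nat_lit 708) (nat_lit 140737488355328)
 (.ev (nat_lit 960) (nat_lit 1180591620717411303424) (.ev (nat_lit 973) (nat_lit 68719476736) .dd))))) (.ch
 (nat_lit 8) (.ev (nat_lit 656) (nat_lit 18014467765829632) (.ev (nat_lit 708) (nat_lit 140737488355328) (.ev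
 (nat_lit 752) (nat_lit 295147905179352825856) (.ev (nat_lit 765) (nat_lit 1180591620717411303424) .dd)))))))
 (.br (nat_lit 15) (.ch (nat_lit 11) (.ev (nat_lit 656) (nat_lit 1180591761455436529664) (.ev (nat_lit 708)
 (nat_lit 68719476736) (.ev (nat_lit 832) (nat_lit 18014398509481984) (.ev (nat_lit 845) (nat_lit
 295147905179352825856) .dd))))) (.br (nat_lit 18) (.ch (nat_lit 15) (.ev (nat_lit 656) (nat_lit
 1475757540364529958912) (.ev (nat_lit 669) (nat_lit 140737488355328) .dd))) (.ch (nat_lit 18) (.ev (nat_lit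
 656) (nat_lit 1475757681101481443328) (.ev (nat_lit 669) (nat_lit 536870912) .dd)))))) (.br (nat_lit 24) (.br
 (nat_lit 20) (.ch (nat_lit 19) (.ev (nat_lit 656) (nat_lit 295166060384607010816) (.ev (nat_lit 669) (nat_lit
 1180591620717411303424) .dd))) (.br (nat_lit 23) (.ch (nat_lit 20) (.ev (nat_lit 656) (nat_lit
 1475757681102018314240) .dd)) (.ch (nat_lit 23) (.ev (nat_lit 656) (nat_lit 1475757681102018314240) .dd))))
 (.br (nat_lit 37) (.br (nat_lit 30) (.ch (nat_lit 24) (.ev (nat_lit 656) (nat_lit 1180591620786667651072) (.ev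
 (nat_lit 708) (nat_lit 140737488355328) (.ev (nat_lit 768) (nat_lit 295147905179352825856) (.ev (nat_lit 781)
 (nat_lit 18014398509481984) .dd))))) (.ch (nat_lit 30) (.ev (nat_lit 656) (nat_lit 1475739666703508832256)
 (.ev (nat_lit 669) (nat_lit 18014398509481984) .dd)))) (.br (nat_lit 39) (.ch (nat_lit 37) (.ev (nat_lit 656)
 (nat_lit 1475757681033298837504) (.ev (nat_lit 669) (nat_lit 68719476736) .dd))) (.ch (nat_lit 39) (.ev
 (nat_lit 656) (nat_lit 1180609775853409140736) (.ev (nat_lit 912) (nat_lit 295147905179352825856) (.ev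
 (nat_lit 976) (nat_lit 536870912) (.ev (nat_lit 989) (nat_lit 68719476736) .dd)))))))))))))))))) (.br (nat_lit
 9) (.ch (nat_lit 6) (.ev (nat_lit 52) (nat_lit 1328174585525557299200) (.ev (nat_lit 84) (nat_lit
 140737488355360) (.ev (nat_lit 116) (nat_lit 18014398509481984) (.ev (nat_lit 148) (nat_lit 65536) (.ev
 (nat_lit 160) (nat_lit 295184285820093202832) .dd)))))) (.ch (nat_lit 9) (.ev (nat_lit 52) (nat_lit
 63191752902737936) (.ev (nat_lit 64) (nat_lit 1623313834728745666976) .dd))))) (.br (nat_lit 12) (.br (nat_lit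
 11) (.ch (nat_lit 10) (.ev (nat_lit 52) (nat_lit 295193016560892576176) (.ev (nat_lit 84) (nat_lit
 281474976710656) (.ev (nat_lit 116) (nat_lit 2147485696) (.ev (nat_lit 180) (nat_lit 147573952590213808128)
 (.ev (nat_lit 244) (nat_lit 262144) (.ev (nat_lit 276) (nat_lit 32768) (.nd (nat_lit 640) (.br (nat_lit 22)
 (.br (nat_lit 18) (.br (nat_lit 6) (.ch (nat_lit 2) (.ev (nat_lit 656) (nat_lit 1180609635115929174016) (.ev
 (nat_lit 669) (nat_lit 140737488355328) .dd))) (.br (nat_lit 12) (.ch (nat_lit 6) (.ev (nat_lit 656) (nat_lit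
 18014398509481984) (.ev (nat_lit 832) (nat_lit 8388608) (.ev (nat_lit 944) (nat_lit 140737488355328) (.ev
 (nat_lit 957) (nat_lit 1180591620717411303424) .dd))))) (.ch (nat_lit 12) (.ev (nat_lit 656) (nat_lit
 1180591761454908047360) (.ev (nat_lit 669) (nat_lit 18014398509481984) .dd))))) (.br (nat_lit 19) (.ch
 (nat_lit 18) (.ev (nat_lit 656) (nat_lit 1180609775853417529344) .dd)) (.br (nat_lit 21) (.ch (nat_lit 19)
 (.ev (nat_lit 656) (nat_lit 1180591761454908047360) (.ev (nat_lit 669) (nat_lit 18014398509481984) .dd))) (.ch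
 (nat_lit 21) (.ev (nat_lit 656) (nat_lit 1180609775853409140736) (.ev (nat_lit 669) (nat_lit 8388608)
 .dd)))))) (.br (nat_lit 31) (.br (nat_lit 25) (.ch (nat_lit 22) (.ev (nat_lit 656) (nat_lit
 1180609635115920785408) (.ev (nat_lit 708) (nat_lit 8388608) (.ev (nat_lit 717) (nat_lit 140737488355328)
 .dd)))) (.br (nat_lit 30) (.ch (nat_lit 25) (.ev (nat_lit 656) (nat_lit 1180591761454908047360) (.ev (nat_lit
 669) (nat_lit 18014398509481984) .dd))) (.ch (nat_lit 30) (.ev (nat_lit 656) (nat_lit 1180591761454899658752)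
 (.ev (nat_lit 720) (nat_lit 8388608) (.ev (nat_lit 733) (nat_lit 18014398509481984) .dd)))))) (.br (nat_lit
 33) (.br (nat_lit 32) (.ch (nat_lit 31) (.ev (nat_lit 656) (nat_lit 18014398517870592) (.ev (nat_lit 848)
 (nat_lit 140737488355328) (.ev (nat_lit 861) (nat_lit 1180591620717411303424) .dd)))) (.ch (nat_lit 32) (.ev
 (nat_lit 656) (nat_lit 1180609775853417529344) .dd))) (.br (nat_lit 37) (.ch (nat_lit 33) (.ev (nat_lit 656)
 (nat_lit 18155136006225920) (.ev (nat_lit 669) (nat_lit 1180591620717411303424) .dd))) (.ch (nat_lit 37) (.ev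
 (nat_lit 656) (nat_lit 18155136006225920) (.ev (nat_lit 669) (nat_lit 1180591620717411303424)
 .dd))))))))))))))) (.ch (nat_lit 11) (.ev (nat_lit 52) (nat_lit 442722073342036740224) (.ev (nat_lit 84)
 (nat_lit 2147483904) (.ev (nat_lit 116) (nat_lit 549755813888) (.ev (nat_lit 128) (nat_lit
 1180654952587708366896) .dd)))))) (.br (nat_lit 15) (.ch (nat_lit 12) (.ev (nat_lit 52) (nat_lit
 1328210820478322082048) (.ev (nat_lit 116) (nat_lit 65536) (.ev (nat_lit 180) (nat_lit 18018796555993216) (.ev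
 (nat_lit 212) (nat_lit 550292717568) (.nd (nat_lit 640) (.br (nat_lit 22) (.br (nat_lit 12) (.br (nat_lit 6)
 (.ch (nat_lit 2) (.ev (nat_lit 656) (nat_lit 295148186656477546544) .dd)) (.br (nat_lit 11) (.ch (nat_lit 6)
 (.ev (nat_lit 656) (nat_lit 281477124720688) (.ev (nat_lit 669) (nat_lit 295147905179352825856) .dd))) (.ch
 (nat_lit 11) (.ev (nat_lit 656) (nat_lit 281477124718624) (.ev (nat_lit 720) (nat_lit 2048) (.ev (nat_lit 880)
 (nat_lit 295147905179352825872) .dd)))))) (.br (nat_lit 15) (.br (nat_lit 13) (.ch (nat_lit 12) (.ev (nat_lit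
 656) (nat_lit 295148186656477546512) (.ev (nat_lit 669) (nat_lit 32) .dd))) (.ch (nat_lit 13) (.ev (nat_lit
 656) (nat_lit 295148186656477020208) (.ev (nat_lit 708) (nat_lit 2048) (.ev (nat_lit 717) (nat_lit 524288)
 .dd))))) (.br (nat_lit 17) (.ch (nat_lit 15) (.ev (nat_lit 656) (nat_lit 295148186656477022256) (.ev (nat_lit
 669) (nat_lit 524288) .dd))) (.ch (nat_lit 17) (.ev (nat_lit 656) (nat_lit 295147905179353352192) (.ev
 (nat_lit 708) (nat_lit 281474976710656) (.ev (nat_lit 848) (nat_lit 16) (.ev (nat_lit 928) (nat_lit 32) (.ev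
 (nat_lit 941) (nat_lit 2147483648) .dd))))))))) (.br (nat_lit 30) (.br (nat_lit 24) (.ch (nat_lit 22) (.ev
 (nat_lit 656) (nat_lit 295148186654329538608) (.ev (nat_lit 864) (nat_lit 2147483648) (.ev (nat_lit 877)
 (nat_lit 524288) .dd)))) (.br (nat_lit 28) (.ch (nat_lit 24) (.ev (nat_lit 656) (nat_lit
 295148186656477544496) (.ev (nat_lit 669) (nat_lit 2048) .dd))) (.ch (nat_lit 28) (.ev (nat_lit 656) (nat_lit
 295148186656477546512) (.ev (nat_lit 669) (nat_lit 32) .dd))))) (.br (nat_lit 34) (.br (nat_lit 32) (.ch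
 (nat_lit 30) (.ev (nat_lit 656) (nat_lit 295148186656477546544) .dd)) (.ch (nat_lit 32) (.ev (nat_lit 656)
 (nat_lit 295148186656477546544) .dd))) (.br (nat_lit 39) (.ch (nat_lit 34) (.ev (nat_lit 656) (nat_lit
 295148186656477020208) (.ev (nat_lit 708) (nat_lit 524288) (.ev (nat_lit 717) (nat_lit 2048) .dd)))) (.ch
 (nat_lit 39) (.ev (nat_lit 656) (nat_lit 295148186656477546544) .dd)))))))))))) (.ch (nat_lit 15) (.ev
 (nat_lit 52) (nat_lit 295165919647119477120) (.ev (nat_lit 116) (nat_lit 147573952589676478464) (.ev (nat_lit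
 148) (nat_lit 9007199254740992) (.ev (nat_lit 276) (nat_lit 1180591620719558787072) (.nd (nat_lit 640) (.br
 (nat_lit 15) (.br (nat_lit 8) (.br (nat_lit 2) (.ch (nat_lit 0) (.ev (nat_lit 656) (nat_lit 36526326038921264)
 .dd)) (.br (nat_lit 6) (.ch (nat_lit 2) (.ev (nat_lit 656) (nat_lit 36385588550565936) (.ev (nat_lit 669)
 (nat_lit 140737488355328) .dd))) (.ch (nat_lit 6) (.ev (nat_lit 656) (nat_lit 36385588542177328) (.ev (nat_lit
 708) (nat_lit 140737488355328) (.ev (nat_lit 717) (nat_lit 8388608) .dd)))))) (.br (nat_lit 12) (.br (nat_lit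
 11) (.ch (nat_lit 8) (.ev (nat_lit 656) (nat_lit 36385588550565936) (.ev (nat_lit 669) (nat_lit
 140737488355328) .dd))) (.ch (nat_lit 11) (.ev (nat_lit 656) (nat_lit 497529019957280) (.ev (nat_lit 708)
 (nat_lit 16) (.ev (nat_lit 717) (nat_lit 36028797018963968) .dd))))) (.br (nat_lit 13) (.ch (nat_lit 12) (.ev
 (nat_lit 656) (nat_lit 36099715527344176) (.ev (nat_lit 708) (nat_lit 422212465065984) (.ev (nat_lit 717)
 (nat_lit 4398046511104) .dd)))) (.ch (nat_lit 13) (.ev (nat_lit 656) (nat_lit 36244301306396720) (.ev (nat_lit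
 708) (nat_lit 281474976710656) (.ev (nat_lit 717) (nat_lit 549755813888) .dd))))))) (.br (nat_lit 22) (.br
 (nat_lit 20) (.ch (nat_lit 15) (.ev (nat_lit 656) (nat_lit 286422787424304) (.ev (nat_lit 672) (nat_lit
 70368744177664) (.ev (nat_lit 736) (nat_lit 36028797018963968) (.ev (nat_lit 749) (nat_lit 140737488355328)
 .dd))))) (.br (nat_lit 21) (.ch (nat_lit 20) (.ev (nat_lit 656) (nat_lit 36521378236596240) (.ev (nat_lit 708)
 (nat_lit 4398046511104) (.ev (nat_lit 720) (nat_lit 549755813920) .dd)))) (.ch (nat_lit 21) (.ev (nat_lit 656)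
 (nat_lit 36526326030532624) (.ev (nat_lit 708) (nat_lit 8388608) (.ev (nat_lit 717) (nat_lit 32) .dd))))))
 (.br (nat_lit 31) (.br (nat_lit 30) (.ch (nat_lit 22) (.ev (nat_lit 656) (nat_lit 36455957286354992) (.ev
 (nat_lit 672) (nat_lit 70368744177664) (.ev (nat_lit 685) (nat_lit 8388608) .dd)))) (.ch (nat_lit 30) (.ev
 (nat_lit 656) (nat_lit 36244851053822000) (.ev (nat_lit 736) (nat_lit 281474976710656) (.ev (nat_lit 749)
 (nat_lit 8388608) .dd))))) (.br (nat_lit 39) (.ch (nat_lit 31) (.ev (nat_lit 656) (nat_lit 36033195073863728)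
 (.ev (nat_lit 708) (nat_lit 140737488355328) (.ev (nat_lit 736) (nat_lit 70918499991552) (.ev (nat_lit 749)
 (nat_lit 281474976710656) .dd))))) (.ch (nat_lit 39) (.ev (nat_lit 656) (nat_lit 36455407538929712) (.ev
 (nat_lit 708) (nat_lit 549755813888) (.ev (nat_lit 717) (nat_lit 70368744177664) .dd))))))))))))))))) (.br
 (nat_lit 22) (.br (nat_lit 18) (.br (nat_lit 17) (.ch (nat_lit 16) (.ev (nat_lit 52) (nat_lit
 1180645738681878513680) (.ev (nat_lit 84) (nat_lit 262176) (.ev (nat_lit 96) (nat_lit 442731287799769629056)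
 .dd)))) (.ch (nat_lit 17) (.ev (nat_lit 52) (nat_lit 1328192665273605128224) (.ev (nat_lit 84) (nat_lit
 36028797018963968) (.ev (nat_lit 116) (nat_lit 281477124194304) (.ev (nat_lit 148) (nat_lit 256) (.ev (nat_lit
 180) (nat_lit 2064) (.ev (nat_lit 212) (nat_lit 69256347648) (.ev (nat_lit 614) (nat_lit 128) (.nd (nat_lit
 640) (.br (nat_lit 28) (.br (nat_lit 19) (.br (nat_lit 15) (.ch (nat_lit 12) (.ev (nat_lit 656) (nat_lit
 295148050864643768320) .dd)) (.ch (nat_lit 15) (.ev (nat_lit 656) (nat_lit 295147910127155412992) (.ev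
 (nat_lit 669) (nat_lit 140737488355328) .dd)))) (.br (nat_lit 23) (.ch (nat_lit 19) (.ev (nat_lit 656)
 (nat_lit 145685290942464) (.ev (nat_lit 669) (nat_lit 295147905179352825856) .dd))) (.br (nat_lit 24) (.ch
 (nat_lit 23) (.ev (nat_lit 656) (nat_lit 145685290680320) (.ev (nat_lit 708) (nat_lit 262144) (.ev (nat_lit
 717) (nat_lit 295147905179352825856) .dd)))) (.ch (nat_lit 24) (.ev (nat_lit 656) (nat_lit 145135535128576)
 (.ev (nat_lit 708) (nat_lit 549755813888) (.ev (nat_lit 717) (nat_lit 295147905179352825856) .dd))))))) (.br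
 (nat_lit 31) (.br (nat_lit 30) (.ch (nat_lit 28) (.ev (nat_lit 656) (nat_lit 295147905729108901888) (.ev
 (nat_lit 816) (nat_lit 4398046511104) (.ev (nat_lit 829) (nat_lit 140737488355328) .dd)))) (.ch (nat_lit 30)
 (.ev (nat_lit 656) (nat_lit 295148050864643768320) .dd))) (.br (nat_lit 34) (.ch (nat_lit 31) (.ev (nat_lit
 656) (nat_lit 295147909577399599104) (.ev (nat_lit 736) (nat_lit 140737488355328) (.ev (nat_lit 749) (nat_lit
 549755813888) .dd)))) (.br (nat_lit 39) (.ch (nat_lit 34) (.ev (nat_lit 656) (nat_lit 145685290942464) (.ev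
 (nat_lit 669) (nat_lit 295147905179352825856) .dd))) (.ch (nat_lit 39) (.ev (nat_lit 656) (nat_lit
 145135535128576) (.ev (nat_lit 720) (nat_lit 549755813888) (.ev (nat_lit 733) (nat_lit 295147905179352825856)
 .dd)))))))))))))))))) (.br (nat_lit 21) (.ch (nat_lit 18) (.ev (nat_lit 52) (nat_lit 1180591906593119504768)
 (.ev (nat_lit 96) (nat_lit 442785119888528900144) .dd))) (.ch (nat_lit 21) (.ev (nat_lit 52) (nat_lit
 1475757751403654480160) (.ev (nat_lit 84) (nat_lit 4398046513152) (.ev (nat_lit 128) (nat_lit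
 147619270679947411600) .dd)))))) (.br (nat_lit 26) (.br (nat_lit 24) (.ch (nat_lit 22) (.ev (nat_lit 52)
 (nat_lit 1475757967524797448448) (.ev (nat_lit 84) (nat_lit 2147483648) (.ev (nat_lit 116) (nat_lit
 36099165763141632) (.ev (nat_lit 160) (nat_lit 147582959788940331184) .dd))))) (.ch (nat_lit 24) (.ev (nat_lit
 52) (nat_lit 295175142831689074944) (.ev (nat_lit 84) (nat_lit 8388624) (.ev (nat_lit 116) (nat_lit
 1180591620786130780192) (.ev (nat_lit 308) (nat_lit 147573952589676412928) (.nd (nat_lit 640) (.br (nat_lit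
 19) (.br (nat_lit 15) (.br (nat_lit 12) (.ch (nat_lit 6) (.ev (nat_lit 656) (nat_lit 36310274143748224) .dd))
 (.br (nat_lit 13) (.ch (nat_lit 12) (.ev (nat_lit 656) (nat_lit 281477124784256) (.ev (nat_lit 669) (nat_lit
 36028797018963968) .dd))) (.ch (nat_lit 13) (.ev (nat_lit 656) (nat_lit 36028799166972032) (.ev (nat_lit 720)
 (nat_lit 281474976710656) (.ev (nat_lit 733) (nat_lit 65536) .dd)))))) (.br (nat_lit 17) (.ch (nat_lit 15)
 (.ev (nat_lit 656) (nat_lit 281474977235072) (.ev (nat_lit 784) (nat_lit 65536) (.ev (nat_lit 976) (nat_lit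
 36028797018963968) (.ev (nat_lit 989) (nat_lit 2147483648) .dd))))) (.br (nat_lit 18) (.ch (nat_lit 17) (.ev
 (nat_lit 656) (nat_lit 36028797019553920) (.ev (nat_lit 708) (nat_lit 281474976710656) (.ev (nat_lit 717)
 (nat_lit 2147483648) .dd)))) (.ch (nat_lit 18) (.ev (nat_lit 656) (nat_lit 36028799167037568) (.ev (nat_lit
 669) (nat_lit 281474976710656) .dd)))))) (.br (nat_lit 22) (.br (nat_lit 20) (.ch (nat_lit 19) (.ev (nat_lit
 656) (nat_lit 36310274143748224) .dd)) (.br (nat_lit 21) (.ch (nat_lit 20) (.ev (nat_lit 656) (nat_lit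
 36310271996198912) (.ev (nat_lit 720) (nat_lit 65536) (.ev (nat_lit 880) (nat_lit 128) (.ev (nat_lit 893)
 (nat_lit 2147483648) .dd))))) (.ch (nat_lit 21) (.ev (nat_lit 656) (nat_lit 36310274143748096) (.ev (nat_lit
 669) (nat_lit 128) .dd))))) (.br (nat_lit 30) (.br (nat_lit 28) (.ch (nat_lit 22) (.ev (nat_lit 656) (nat_lit
 36310274143748224) .dd)) (.ch (nat_lit 28) (.ev (nat_lit 656) (nat_lit 36310274143223936) (.ev (nat_lit 669)
 (nat_lit 524288) .dd)))) (.br (nat_lit 32) (.ch (nat_lit 30) (.ev (nat_lit 656) (nat_lit 36028797019488384)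
 (.ev (nat_lit 708) (nat_lit 2147483648) (.ev (nat_lit 736) (nat_lit 65536) (.ev (nat_lit 749) (nat_lit
 281474976710656) .dd))))) (.ch (nat_lit 32) (.ev (nat_lit 656) (nat_lit 281474977300608) (.ev (nat_lit 708)
 (nat_lit 2147483648) (.ev (nat_lit 717) (nat_lit 36028797018963968) .dd))))))))))))))) (.br (nat_lit 28) (.ch
 (nat_lit 26) (.ev (nat_lit 52) (nat_lit 295192941244883173680) (.ev (nat_lit 84) (nat_lit
 147574027356467101696) (.ev (nat_lit 244) (nat_lit 1180591620717411303424) (.ev (nat_lit 340) (nat_lit 128)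
 (.nd (nat_lit 640) (.br (nat_lit 21) (.br (nat_lit 12) (.br (nat_lit 8) (.br (nat_lit 6) (.ch (nat_lit 2) (.ev
 (nat_lit 656) (nat_lit 18295875642656768) (.ev (nat_lit 708) (nat_lit 140737488355328) (.ev (nat_lit 717)
 (nat_lit 549755813888) .dd)))) (.ch (nat_lit 6) (.ev (nat_lit 656) (nat_lit 18437162886823936) (.ev (nat_lit
 669) (nat_lit 2048) .dd)))) (.br (nat_lit 11) (.ch (nat_lit 8) (.ev (nat_lit 656) (nat_lit 18295875642656768)
 (.ev (nat_lit 672) (nat_lit 549755813888) (.ev (nat_lit 685) (nat_lit 140737488355328) .dd)))) (.ch (nat_lit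
 11) (.ev (nat_lit 656) (nat_lit 18437162886823936) (.ev (nat_lit 669) (nat_lit 2048) .dd))))) (.br (nat_lit
 18) (.br (nat_lit 13) (.ch (nat_lit 12) (.ev (nat_lit 656) (nat_lit 18437162886825984) .dd)) (.ch (nat_lit 13)
 (.ev (nat_lit 656) (nat_lit 140737496809472) (.ev (nat_lit 720) (nat_lit 549756338176) (.ev (nat_lit 864)
 (nat_lit 281474976710656) (.ev (nat_lit 928) (nat_lit 18014398509481984) (.ev (nat_lit 1028) (nat_lit
 2147483648) (.ev (nat_lit 1037) (nat_lit 2048) .dd)))))))) (.br (nat_lit 20) (.ch (nat_lit 18) (.ev (nat_lit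
 656) (nat_lit 18437162886301696) (.ev (nat_lit 669) (nat_lit 524288) .dd))) (.ch (nat_lit 20) (.ev (nat_lit
 656) (nat_lit 18155687910049792) (.ev (nat_lit 708) (nat_lit 65536) (.ev (nat_lit 717) (nat_lit
 281474976710656) .dd))))))) (.br (nat_lit 31) (.br (nat_lit 24) (.br (nat_lit 22) (.ch (nat_lit 21) (.ev
 (nat_lit 656) (nat_lit 141289400633344) (.ev (nat_lit 708) (nat_lit 281474976710656) (.ev (nat_lit 717)
 (nat_lit 18014398509481984) .dd)))) (.ch (nat_lit 22) (.ev (nat_lit 656) (nat_lit 18296425390082048) (.fin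
 (nat_lit 576500884453147088))))) (.br (nat_lit 28) (.ch (nat_lit 24) (.ev (nat_lit 656) (nat_lit
 18296425389492224) (.ev (nat_lit 708) (nat_lit 524288) (.ev (nat_lit 1028) (nat_lit 8454144) (.ev (nat_lit
 1037) (nat_lit 140737488355328) .dd))))) (.ch (nat_lit 28) (.ev (nat_lit 656) (nat_lit 18296423250462720) (.ev
 (nat_lit 708) (nat_lit 2147483648) (.ev (nat_lit 736) (nat_lit 140737488355328) (.ev (nat_lit 749) (nat_lit
 524288) .dd))))))) (.br (nat_lit 34) (.br (nat_lit 32) (.ch (nat_lit 31) (.ev (nat_lit 656) (nat_lit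
 18296425398470656) (.ev (nat_lit 669) (nat_lit 140737488355328) .dd))) (.ch (nat_lit 32) (.ev (nat_lit 656)
 (nat_lit 18437162878435328) (.ev (nat_lit 672) (nat_lit 2048) (.ev (nat_lit 685) (nat_lit 8388608) .dd)))))
 (.br (nat_lit 37) (.ch (nat_lit 34) (.ev (nat_lit 656) (nat_lit 18437162878371840) (.ev (nat_lit 752) (nat_lit
 65536) (.ev (nat_lit 765) (nat_lit 8388608) .dd)))) (.br (nat_lit 39) (.ch (nat_lit 37) (.ev (nat_lit 656)
 (nat_lit 18155687901726720) (.ev (nat_lit 708) (nat_lit 281474976710656) (.ev (nat_lit 717) (nat_lit 8388608)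
 .dd)))) (.ch (nat_lit 39) (.ev (nat_lit 656) (nat_lit 18436613122623488) (.ev (nat_lit 960) (nat_lit 8388608)
 (.ev (nat_lit 973) (nat_lit 549755813888) .dd))))))))))))))) (.br (nat_lit 29) (.ch (nat_lit 28) (.ev (nat_lit
 52) (nat_lit 1328192876380366309680) (.ev (nat_lit 84) (nat_lit 620631162880) (.ev (nat_lit 116) (nat_lit
 4398046511104) (.ev (nat_lit 148) (nat_lit 36028797018963968) (.ev (nat_lit 180) (nat_lit 140737488355328)
 (.ev (nat_lit 256) (nat_lit 295147975548097101952) .dd))))))) (.ch (nat_lit 29) (.ev (nat_lit 52) (nat_lit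
 295193227117906624672) (.ev (nat_lit 84) (nat_lit 1180591620717411368960) (.ev (nat_lit 116) (nat_lit 32768)
 (.ev (nat_lit 148) (nat_lit 549755815936) (.ev (nat_lit 480) (nat_lit 2147483648) (.nd (nat_lit 640) (.br
 (nat_lit 21) (.br (nat_lit 15) (.br (nat_lit 8) (.ch (nat_lit 6) (.ev (nat_lit 656) (nat_lit
 147592178094426816784) (.ev (nat_lit 669) (nat_lit 262144) .dd))) (.br (nat_lit 11) (.ch (nat_lit 8) (.ev
 (nat_lit 656) (nat_lit 147574163695917596944) (.ev (nat_lit 669) (nat_lit 18014398509481984) .dd))) (.ch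
 (nat_lit 11) (.ev (nat_lit 656) (nat_lit 147592178094427078928) .dd)))) (.br (nat_lit 17) (.ch (nat_lit 15)
 (.ev (nat_lit 656) (nat_lit 147592107725682901008) (.ev (nat_lit 688) (nat_lit 256) (.ev (nat_lit 701)
 (nat_lit 70368744177664) .dd)))) (.br (nat_lit 19) (.ch (nat_lit 17) (.ev (nat_lit 656) (nat_lit
 147592178094427078928) .dd)) (.ch (nat_lit 19) (.ev (nat_lit 656) (nat_lit 147592107725682901264) (.ev
 (nat_lit 669) (nat_lit 70368744177664) .dd)))))) (.br (nat_lit 28) (.br (nat_lit 22) (.ch (nat_lit 21) (.ev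
 (nat_lit 656) (nat_lit 147574163695917596944) (.ev (nat_lit 669) (nat_lit 18014398509481984) .dd))) (.br
 (nat_lit 24) (.ch (nat_lit 22) (.ev (nat_lit 656) (nat_lit 147591966988186157312) (.ev (nat_lit 976) (nat_lit
 70368744177664) (.ev (nat_lit 1028) (nat_lit 16) (.fin (nat_lit 576500884453147088)))))) (.ch (nat_lit 24)
 (.ev (nat_lit 656) (nat_lit 147574093327165030672) (.ev (nat_lit 708) (nat_lit 70368744177664) (.ev (nat_lit
 1028) (nat_lit 8388608) (.ev (nat_lit 1037) (nat_lit 18014398509481984) .dd))))))) (.br (nat_lit 30) (.ch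
 (nat_lit 28) (.ev (nat_lit 656) (nat_lit 147592037356938723600) (.ev (nat_lit 669) (nat_lit 140737488355328)
 .dd))) (.br (nat_lit 37) (.ch (nat_lit 30) (.ev (nat_lit 656) (nat_lit 211106241184016) (.ev (nat_lit 720)
 (nat_lit 18014398509481984) (.ev (nat_lit 733) (nat_lit 147573952589676412928) .dd)))) (.ch (nat_lit 37) (.ev
 (nat_lit 656) (nat_lit 147592178094427078928) .dd)))))))))))))))))) (.br (nat_lit 42) (.br (nat_lit 38) (.br
 (nat_lit 36) (.br (nat_lit 33) (.ch (nat_lit 31) (.ev (nat_lit 52) (nat_lit 27514799596241152) (.ev (nat_lit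
 84) (nat_lit 36028797027418240) (.ev (nat_lit 116) (nat_lit 16) (.ev (nat_lit 148) (nat_lit 32) (.ev (nat_lit
 180) (nat_lit 262144) (.ev (nat_lit 212) (nat_lit 536870912) (.ev (nat_lit 276) (nat_lit 2048) (.nd (nat_lit
 640) (.br (nat_lit 21) (.br (nat_lit 12) (.br (nat_lit 2) (.ch (nat_lit 0) (.ev (nat_lit 656) (nat_lit
 295147909577399369728) (.ev (nat_lit 688) (nat_lit 1180591620717411303424) (.ev (nat_lit 708) (nat_lit 524288)
 (.ev (nat_lit 717) (nat_lit 147573952589676412928) .dd))))) (.br (nat_lit 8) (.ch (nat_lit 2) (.ev (nat_lit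
 656) (nat_lit 1623313482884487610368) .dd)) (.ch (nat_lit 8) (.ev (nat_lit 656) (nat_lit
 1180591620717411860480) (.ev (nat_lit 672) (nat_lit 4398046511104) (.ev (nat_lit 912) (nat_lit
 442721857769029238784) .dd)))))) (.br (nat_lit 13) (.ch (nat_lit 12) (.ev (nat_lit 656) (nat_lit
 1623313478486441099264) (.ev (nat_lit 669) (nat_lit 4398046511104) .dd))) (.br (nat_lit 15) (.ch (nat_lit 13)
 (.ev (nat_lit 656) (nat_lit 1623313482884487053312) (.ev (nat_lit 720) (nat_lit 32768) (.ev (nat_lit 733)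
 (nat_lit 524288) .dd)))) (.ch (nat_lit 15) (.ev (nat_lit 656) (nat_lit 1623313482884487053312) (.ev (nat_lit
 708) (nat_lit 524288) (.ev (nat_lit 717) (nat_lit 32768) .dd))))))) (.br (nat_lit 28) (.br (nat_lit 22) (.ch
 (nat_lit 21) (.ev (nat_lit 656) (nat_lit 1623313482884487610368) .dd)) (.br (nat_lit 24) (.ch (nat_lit 22)
 (.ev (nat_lit 656) (nat_lit 442721857769029795840) (.ev (nat_lit 864) (nat_lit 4398046511104) (.ev (nat_lit
 877) (nat_lit 1180591620717411303424) .dd)))) (.ch (nat_lit 24) (.ev (nat_lit 656) (nat_lit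
 1328165577705134751744) (.ev (nat_lit 720) (nat_lit 32768) (.ev (nat_lit 733) (nat_lit 295147905179352825856)
 .dd)))))) (.br (nat_lit 33) (.br (nat_lit 30) (.ch (nat_lit 28) (.ev (nat_lit 656) (nat_lit
 1623313482884487610368) .dd)) (.ch (nat_lit 30) (.ev (nat_lit 656) (nat_lit 1623313482884487577600) (.ev
 (nat_lit 669) (nat_lit 32768) .dd)))) (.br (nat_lit 37) (.ch (nat_lit 33) (.ev (nat_lit 656) (nat_lit
 1475739530294811197440) (.ev (nat_lit 669) (nat_lit 147573952589676412928) .dd))) (.ch (nat_lit 37) (.ev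
 (nat_lit 656) (nat_lit 442721857769029271552) (.ev (nat_lit 816) (nat_lit 1180591620717411303424) (.ev
 (nat_lit 832) (nat_lit 524288) (.ev (nat_lit 845) (nat_lit 4398046511104) .dd)))))))))))))))))) (.ch (nat_lit
 33) (.ev (nat_lit 52) (nat_lit 1328165855331828894080) (.ev (nat_lit 64) (nat_lit 295211171149819510832)
 .dd)))) (.br (nat_lit 37) (.ch (nat_lit 36) (.ev (nat_lit 52) (nat_lit 1328228905795860072624) (.ev (nat_lit
 116) (nat_lit 295147905179353350144) (.ev (nat_lit 148) (nat_lit 4398046511104) (.ev (nat_lit 224) (nat_lit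
 211108388471040) .dd))))) (.ch (nat_lit 37) (.ev (nat_lit 52) (nat_lit 442758027922020567216) (.ev (nat_lit
 84) (nat_lit 281474976710656) (.ev (nat_lit 116) (nat_lit 1180609639514504167680) (.ev (nat_lit 148) (nat_lit
 2148007936) (.nd (nat_lit 640) (.br (nat_lit 21) (.br (nat_lit 13) (.br (nat_lit 11) (.br (nat_lit 8) (.ch
 (nat_lit 0) (.ev (nat_lit 656) (nat_lit 9077567998951424) .dd)) (.ch (nat_lit 8) (.ev (nat_lit 656) (nat_lit
 9077567998951424) .dd))) (.br (nat_lit 12) (.ch (nat_lit 11) (.ev (nat_lit 656) (nat_lit 70368744210432) (.ev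
 (nat_lit 669) (nat_lit 9007199254740992) .dd))) (.ch (nat_lit 12) (.ev (nat_lit 656) (nat_lit
 9077567998951424) .dd)))) (.br (nat_lit 19) (.br (nat_lit 17) (.ch (nat_lit 13) (.ev (nat_lit 656) (nat_lit
 9077567998951424) .dd)) (.ch (nat_lit 17) (.ev (nat_lit 656) (nat_lit 70368744177664) (.fin (nat_lit
 576456904050950768))))) (.br (nat_lit 20) (.ch (nat_lit 19) (.ev (nat_lit 656) (nat_lit 9007199254773760) (.ev
 (nat_lit 669) (nat_lit 70368744177664) .dd))) (.ch (nat_lit 20) (.ev (nat_lit 656) (nat_lit 9077567998918656)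
 (.ev (nat_lit 669) (nat_lit 32768) .dd)))))) (.br (nat_lit 31) (.br (nat_lit 24) (.br (nat_lit 22) (.ch
 (nat_lit 21) (.ev (nat_lit 656) (nat_lit 9007199254773760) (.ev (nat_lit 669) (nat_lit 70368744177664) .dd)))
 (.ch (nat_lit 22) (.ev (nat_lit 656) (nat_lit 9007199254773760) (.ev (nat_lit 669) (nat_lit 70368744177664)
 .dd)))) (.br (nat_lit 28) (.ch (nat_lit 24) (.ev (nat_lit 656) (nat_lit 9007199254740992) (.ev (nat_lit 708)
 (nat_lit 70368744177664) (.ev (nat_lit 717) (nat_lit 32768) .dd)))) (.ch (nat_lit 28) (.ev (nat_lit 656)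
 (nat_lit 70368744210432) (.ev (nat_lit 669) (nat_lit 9007199254740992) .dd))))) (.br (nat_lit 33) (.br
 (nat_lit 32) (.ch (nat_lit 31) (.ev (nat_lit 656) (nat_lit 9007199254740992) (.ev (nat_lit 672) (nat_lit
 32768) (.ev (nat_lit 685) (nat_lit 70368744177664) .dd)))) (.ch (nat_lit 32) (.ev (nat_lit 656) (nat_lit
 9077567998951424) .dd))) (.br (nat_lit 34) (.ch (nat_lit 33) (.ev (nat_lit 656) (nat_lit 9077567998951424)
 .dd)) (.br (nat_lit 39) (.ch (nat_lit 34) (.ev (nat_lit 656) (nat_lit 9077567998951424) .dd)) (.ch (nat_lit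
 39) (.ev (nat_lit 656) (nat_lit 32768) (.ev (nat_lit 1028) (nat_lit 70368744177664) (.ev (nat_lit 1037)
 (nat_lit 9007199254740992) .dd))))))))))))))))) (.br (nat_lit 40) (.br (nat_lit 39) (.ch (nat_lit 38) (.ev
 (nat_lit 52) (nat_lit 1180609776405313225008) (.ev (nat_lit 84) (nat_lit 2176) (.ev (nat_lit 96) (nat_lit
 442767250076335177728) .dd)))) (.ch (nat_lit 39) (.ev (nat_lit 52) (nat_lit 442721928690214111616) (.ev
 (nat_lit 96) (nat_lit 1180655097791434293296) .dd)))) (.br (nat_lit 41) (.ch (nat_lit 40) (.ev (nat_lit 52)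
 (nat_lit 442722068877409323440) (.ev (nat_lit 116) (nat_lit 18014398509744128) (.ev (nat_lit 148) (nat_lit
 4398046511104) (.ev (nat_lit 180) (nat_lit 36028797018963968) (.ev (nat_lit 212) (nat_lit 32768) (.nd (nat_lit
 640) (.br (nat_lit 25) (.br (nat_lit 20) (.br (nat_lit 15) (.ch (nat_lit 8) (.ev (nat_lit 656) (nat_lit
 9288743496712192) (.ev (nat_lit 816) (nat_lit 1180591620717411303424) (.ev (nat_lit 829) (nat_lit
 549755813888) .dd)))) (.ch (nat_lit 15) (.ev (nat_lit 656) (nat_lit 1180600910010663305216) (.ev (nat_lit 669)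
 (nat_lit 524288) .dd)))) (.br (nat_lit 22) (.ch (nat_lit 20) (.ev (nat_lit 656) (nat_lit
 1180600627985931304960) (.ev (nat_lit 816) (nat_lit 281474976710656) (.ev (nat_lit 829) (nat_lit 549755813888)
 .dd)))) (.br (nat_lit 23) (.ch (nat_lit 22) (.ev (nat_lit 656) (nat_lit 1180591902742680698880) (.ev (nat_lit
 1028) (nat_lit 68728389632) (.ev (nat_lit 1037) (nat_lit 9007199254740992) .dd)))) (.ch (nat_lit 23) (.ev
 (nat_lit 656) (nat_lit 1180600909941935964160) (.ev (nat_lit 1028) (nat_lit 8388608) (.ev (nat_lit 1037)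
 (nat_lit 68719476736) .dd))))))) (.br (nat_lit 34) (.br (nat_lit 31) (.ch (nat_lit 25) (.ev (nat_lit 656)
 (nat_lit 1180600909941944352768) (.ev (nat_lit 669) (nat_lit 68719476736) .dd))) (.ch (nat_lit 31) (.ev
 (nat_lit 656) (nat_lit 9007749555814400) (.ev (nat_lit 736) (nat_lit 281474976710656) (.ev (nat_lit 976)
 (nat_lit 1180591620717411303424) (.fin (nat_lit 576448107907596860))))))) (.br (nat_lit 37) (.ch (nat_lit 34)
 (.ev (nat_lit 656) (nat_lit 1180591902742152740864) (.ev (nat_lit 752) (nat_lit 536870912) (.ev (nat_lit 1008)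
 (nat_lit 9007267974217728) .dd)))) (.br (nat_lit 39) (.ch (nat_lit 37) (.ev (nat_lit 656) (nat_lit
 1180600910010654916608) (.ev (nat_lit 708) (nat_lit 8388608) (.ev (nat_lit 717) (nat_lit 524288) .dd)))) (.ch
 (nat_lit 39) (.ev (nat_lit 656) (nat_lit 1180591902811408564224) (.ev (nat_lit 672) (nat_lit 524288) (.ev
 (nat_lit 685) (nat_lit 9007199254740992) .dd))))))))))))))) (.ch (nat_lit 41) (.ev (nat_lit 52) (nat_lit
 295184430955636492304) (.ev (nat_lit 84) (nat_lit 32) (.ev (nat_lit 116) (nat_lit 9007201402290304) (.ev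
 (nat_lit 148) (nat_lit 68719476736) (.ev (nat_lit 308) (nat_lit 536870912) (.nd (nat_lit 640) (.br (nat_lit
 21) (.br (nat_lit 11) (.br (nat_lit 2) (.ch (nat_lit 0) (.ev (nat_lit 656) (nat_lit 147591967537941709056)
 (.ev (nat_lit 672) (nat_lit 1180591620717411303424) (.ev (nat_lit 685) (nat_lit 262144) .dd)))) (.br (nat_lit
 8) (.ch (nat_lit 2) (.ev (nat_lit 656) (nat_lit 1180609635115921047808) (.ev (nat_lit 708) (nat_lit
 147573952589676412928) (.ev (nat_lit 717) (nat_lit 549755813888) .dd)))) (.ch (nat_lit 8) (.ev (nat_lit 656)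
 (nat_lit 1180609635115921047808) (.ev (nat_lit 708) (nat_lit 147573952589676412928) (.ev (nat_lit 717)
 (nat_lit 549755813888) .dd)))))) (.br (nat_lit 17) (.br (nat_lit 13) (.ch (nat_lit 11) (.ev (nat_lit 656)
 (nat_lit 1328165573856843792384) (.ev (nat_lit 708) (nat_lit 256) (.ev (nat_lit 717) (nat_lit
 18014398509481984) .dd)))) (.ch (nat_lit 13) (.ev (nat_lit 656) (nat_lit 1328183587705597198592) (.ev (nat_lit
 708) (nat_lit 549755813888) (.ev (nat_lit 717) (nat_lit 262144) .dd))))) (.br (nat_lit 20) (.ch (nat_lit 17)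
 (.ev (nat_lit 656) (nat_lit 1328183588255353274624) .dd)) (.ch (nat_lit 20) (.ev (nat_lit 656) (nat_lit
 1180609635115921047808) (.ev (nat_lit 708) (nat_lit 147573952589676412928) (.ev (nat_lit 717) (nat_lit
 549755813888) .dd))))))) (.br (nat_lit 24) (.br (nat_lit 22) (.ch (nat_lit 21) (.ev (nat_lit 656) (nat_lit
 1328183588255353012480) (.ev (nat_lit 669) (nat_lit 262144) .dd))) (.br (nat_lit 23) (.ch (nat_lit 22) (.ev
 (nat_lit 656) (nat_lit 1328183588255353274624) .dd)) (.ch (nat_lit 23) (.ev (nat_lit 656) (nat_lit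
 1180609635115921047808) (.ev (nat_lit 708) (nat_lit 147573952589676412928) (.ev (nat_lit 717) (nat_lit
 549755813888) .dd)))))) (.br (nat_lit 31) (.br (nat_lit 25) (.ch (nat_lit 24) (.ev (nat_lit 656) (nat_lit
 1328183588255353274624) .dd)) (.ch (nat_lit 25) (.ev (nat_lit 656) (nat_lit 1328165573856843530496) (.ev
 (nat_lit 736) (nat_lit 18014398509744128) .dd)))) (.br (nat_lit 39) (.ch (nat_lit 31) (.ev (nat_lit 656)
 (nat_lit 1180609635115921047808) (.ev (nat_lit 1028) (nat_lit 549755813888) (.ev (nat_lit 1037) (nat_lit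
 147573952589676412928) .dd)))) (.ch (nat_lit 39) (.ev (nat_lit 656) (nat_lit 1328183588255353274624)
 .dd)))))))))))))))) (.br (nat_lit 47) (.br (nat_lit 44) (.br (nat_lit 43) (.ch (nat_lit 42) (.ev (nat_lit 52)
 (nat_lit 147574309449927491584) (.ev (nat_lit 84) (nat_lit 295183933976371790112) (.ev (nat_lit 116) (nat_lit
 262144) (.ev (nat_lit 148) (nat_lit 18014398509481984) (.ev (nat_lit 244) (nat_lit 2048) (.ev (nat_lit 276)
 (nat_lit 16) (.nd (nat_lit 640) (.br (nat_lit 22) (.br (nat_lit 15) (.br (nat_lit 12) (.ch (nat_lit 6) (.ev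
 (nat_lit 656) (nat_lit 9007201402847360) (.ev (nat_lit 880) (nat_lit 140737488355328) (.ev (nat_lit 1028)
 (nat_lit 536870912) (.ev (nat_lit 1037) (nat_lit 1180591620717411303424) .dd))))) (.br (nat_lit 13) (.ch
 (nat_lit 12) (.ev (nat_lit 656) (nat_lit 1180591761457047765120) (.ev (nat_lit 672) (nat_lit 536870912) (.ev
 (nat_lit 685) (nat_lit 9007199254740992) .dd)))) (.ch (nat_lit 13) (.ev (nat_lit 656) (nat_lit
 9147937280032896) (.ev (nat_lit 720) (nat_lit 32768) (.ev (nat_lit 736) (nat_lit 1180591620717411303424) (.ev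
 (nat_lit 880) (nat_lit 524288) (.ev (nat_lit 893) (nat_lit 2147483648) .dd)))))))) (.br (nat_lit 17) (.ch
 (nat_lit 15) (.ev (nat_lit 656) (nat_lit 1180600627917203472512) (.ev (nat_lit 928) (nat_lit 2147483648) (.ev
 (nat_lit 944) (nat_lit 140737488420864) .dd)))) (.br (nat_lit 19) (.ch (nat_lit 17) (.ev (nat_lit 656)
 (nat_lit 1180591761455437119616) (.ev (nat_lit 864) (nat_lit 2147483648) (.fin (nat_lit
 576456904050950768))))) (.ch (nat_lit 19) (.ev (nat_lit 656) (nat_lit 9147938891169920) (.ev (nat_lit 672)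
 (nat_lit 1180591620717411303424) (.ev (nat_lit 736) (nat_lit 32768) (.ev (nat_lit 749) (nat_lit 536870912)
 .dd)))))))) (.br (nat_lit 28) (.br (nat_lit 23) (.ch (nat_lit 22) (.ev (nat_lit 656) (nat_lit
 9147937280065664) (.ev (nat_lit 752) (nat_lit 2147483648) (.ev (nat_lit 768) (nat_lit 524288) (.ev (nat_lit
 781) (nat_lit 1180591620717411303424) .dd))))) (.br (nat_lit 25) (.ch (nat_lit 23) (.ev (nat_lit 656) (nat_lit
 1180600768656839311488) (.ev (nat_lit 669) (nat_lit 65536) .dd))) (.ch (nat_lit 25) (.ev (nat_lit 656)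
 (nat_lit 1180600768656839377024) .dd)))) (.br (nat_lit 37) (.br (nat_lit 33) (.ch (nat_lit 28) (.ev (nat_lit
 656) (nat_lit 1180591761457047240832) (.ev (nat_lit 708) (nat_lit 524288) (.ev (nat_lit 976) (nat_lit
 9007199254740992) (.ev (nat_lit 989) (nat_lit 536870912) .dd))))) (.ch (nat_lit 33) (.ev (nat_lit 656)
 (nat_lit 1180600768656302440448) (.ev (nat_lit 708) (nat_lit 128) (.ev (nat_lit 752) (nat_lit 65536) (.ev
 (nat_lit 765) (nat_lit 536870912) .dd)))))) (.br (nat_lit 39) (.ch (nat_lit 37) (.ev (nat_lit 656) (nat_lit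
 1180600768656839377024) .dd)) (.ch (nat_lit 39) (.ev (nat_lit 656) (nat_lit 1180600768656838819840) (.ev
 (nat_lit 720) (nat_lit 524416) (.ev (nat_lit 733) (nat_lit 32768) .dd)))))))))))))))) (.ch (nat_lit 43) (.ev
 (nat_lit 52) (nat_lit 147600979137399720192) (.ev (nat_lit 128) (nat_lit 1475776047344248684720) .dd)))) (.br
 (nat_lit 46) (.ch (nat_lit 44) (.ev (nat_lit 52) (nat_lit 1180628006306491138352) (.ev (nat_lit 84) (nat_lit
 295147905179361214464) (.ev (nat_lit 116) (nat_lit 2048) (.ev (nat_lit 148) (nat_lit 68719476864) (.ev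
 (nat_lit 180) (nat_lit 147574093329312284672) (.ev (nat_lit 276) (nat_lit 9007199254740992) (.nd (nat_lit 640)
 (.br (nat_lit 20) (.br (nat_lit 12) (.br (nat_lit 8) (.ch (nat_lit 6) (.ev (nat_lit 656) (nat_lit
 18014398509547520) .dd)) (.br (nat_lit 11) (.ch (nat_lit 8) (.ev (nat_lit 656) (nat_lit 18014398509547520)
 .dd)) (.ch (nat_lit 11) (.ev (nat_lit 656) (nat_lit 18014398509547520) .dd)))) (.br (nat_lit 17) (.ch (nat_lit
 12) (.ev (nat_lit 656) (nat_lit 18014398509547520) .dd)) (.br (nat_lit 18) (.ch (nat_lit 17) (.ev (nat_lit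
 656) (nat_lit 18014398509547520) .dd)) (.ch (nat_lit 18) (.ev (nat_lit 656) (nat_lit 18014398509547520)
 .dd))))) (.br (nat_lit 25) (.br (nat_lit 21) (.ch (nat_lit 20) (.ev (nat_lit 656) (nat_lit 18014398509547520)
 .dd)) (.br (nat_lit 23) (.ch (nat_lit 21) (.ev (nat_lit 656) (nat_lit 65536) (.ev (nat_lit 669) (nat_lit
 18014398509481984) .dd))) (.ch (nat_lit 23) (.ev (nat_lit 656) (nat_lit 18014398509481984) (.ev (nat_lit 669)
 (nat_lit 65536) .dd))))) (.br (nat_lit 32) (.ch (nat_lit 25) (.ev (nat_lit 656) (nat_lit 18014398509547520)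
 .dd)) (.br (nat_lit 33) (.ch (nat_lit 32) (.ev (nat_lit 656) (nat_lit 18014398509547520) .dd)) (.ch (nat_lit
 33) (.ev (nat_lit 656) (nat_lit 18014398509547520) .dd)))))))))))))) (.ch (nat_lit 46) (.ev (nat_lit 52)
 (nat_lit 1623376744456906899584) (.ev (nat_lit 84) (nat_lit 8388608) (.ev (nat_lit 116) (nat_lit
 281474976710656) (.ev (nat_lit 180) (nat_lit 16) (.ev (nat_lit 212) (nat_lit 524288) (.ev (nat_lit 288)
 (nat_lit 549755881760) .dd))))))))) (.br (nat_lit 49) (.br (nat_lit 48) (.ch (nat_lit 47) (.ev (nat_lit 52)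
 (nat_lit 1180591620786139201712) (.ev (nat_lit 84) (nat_lit 549756076032) (.ev (nat_lit 116) (nat_lit
 140739635838976) (.ev (nat_lit 276) (nat_lit 9007199254740992) (.ev (nat_lit 308) (nat_lit 70368744177664)
 (.ev (nat_lit 496) (nat_lit 295147905179352825856) (.nd (nat_lit 640) (.br (nat_lit 19) (.br (nat_lit 12) (.br
 (nat_lit 2) (.ch (nat_lit 0) (.ev (nat_lit 656) (nat_lit 36314670579582976) (.ev (nat_lit 800) (nat_lit 256)
 (.ev (nat_lit 864) (nat_lit 18014398509481984) (.ev (nat_lit 960) (nat_lit 147573952589676412928) (.ev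
 (nat_lit 973) (nat_lit 65536) .dd)))))) (.br (nat_lit 11) (.ch (nat_lit 2) (.ev (nat_lit 656) (nat_lit
 147592252861209708544) (.ev (nat_lit 708) (nat_lit 256) (.ev (nat_lit 768) (nat_lit 36028797018963968) (.ev
 (nat_lit 781) (nat_lit 536870912) .dd))))) (.ch (nat_lit 11) (.ev (nat_lit 656) (nat_lit
 147591971386769803520) (.ev (nat_lit 708) (nat_lit 65536) (.ev (nat_lit 720) (nat_lit 36310271995674624)
 .dd)))))) (.br (nat_lit 13) (.ch (nat_lit 12) (.ev (nat_lit 656) (nat_lit 147573956987723515904) (.ev (nat_lit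
 708) (nat_lit 256) (.ev (nat_lit 752) (nat_lit 18014398509481984) (.ev (nat_lit 768) (nat_lit 281474976710656)
 (.ev (nat_lit 816) (nat_lit 36028797018963968) (.ev (nat_lit 829) (nat_lit 536870912) .dd))))))) (.br (nat_lit
 18) (.ch (nat_lit 13) (.ev (nat_lit 656) (nat_lit 147609985784742414592) (.ev (nat_lit 672) (nat_lit
 18014398509481984) (.ev (nat_lit 720) (nat_lit 536870912) (.ev (nat_lit 912) (nat_lit 281474976710656) (.ev
 (nat_lit 925) (nat_lit 65536) .dd)))))) (.ch (nat_lit 18) (.ev (nat_lit 656) (nat_lit 147628277260718508032)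
 (.ev (nat_lit 708) (nat_lit 4398046511104) (.ev (nat_lit 736) (nat_lit 524288) (.ev (nat_lit 749) (nat_lit
 256) .dd)))))))) (.br (nat_lit 23) (.br (nat_lit 21) (.ch (nat_lit 19) (.ev (nat_lit 656) (nat_lit
 54324671042617600) (.ev (nat_lit 688) (nat_lit 147573952589676412928) (.ev (nat_lit 708) (nat_lit
 4398046511104) (.ev (nat_lit 717) (nat_lit 2048) .dd))))) (.br (nat_lit 22) (.ch (nat_lit 21) (.ev (nat_lit
 656) (nat_lit 147627995785742321920) (.ev (nat_lit 708) (nat_lit 4398046511104) (.ev (nat_lit 717) (nat_lit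
 281474976710656) .dd)))) (.ch (nat_lit 22) (.ev (nat_lit 656) (nat_lit 147628281658765017344) (.ev (nat_lit
 688) (nat_lit 524288) (.ev (nat_lit 701) (nat_lit 2048) .dd)))))) (.br (nat_lit 30) (.br (nat_lit 25) (.ch
 (nat_lit 23) (.ev (nat_lit 656) (nat_lit 147592252861746579712) (.ev (nat_lit 669) (nat_lit 36028797018963968)
 .dd))) (.ch (nat_lit 25) (.ev (nat_lit 656) (nat_lit 147628281658765543680) .dd))) (.br (nat_lit 33) (.ch
 (nat_lit 30) (.ev (nat_lit 656) (nat_lit 36314670579646720) (.ev (nat_lit 720) (nat_lit 147573952589676414976)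
 (.ev (nat_lit 733) (nat_lit 18014398509481984) .dd)))) (.ch (nat_lit 33) (.ev (nat_lit 656) (nat_lit
 147628281658228605184) (.ev (nat_lit 672) (nat_lit 536870912) (.ev (nat_lit 708) (nat_lit 2048) (.ev (nat_lit
 717) (nat_lit 65536) .dd))))))))))))))))) (.ch (nat_lit 48) (.ev (nat_lit 52) (nat_lit 147574379202880765984)
 (.ev (nat_lit 84) (nat_lit 1180609635115920785408) (.ev (nat_lit 116) (nat_lit 2048) (.ev (nat_lit 148)
 (nat_lit 65664) (.ev (nat_lit 180) (nat_lit 36028797018964224) (.ev (nat_lit 244) (nat_lit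
 295156912378607566848) (.nd (nat_lit 640) (.br (nat_lit 25) (.br (nat_lit 8) (.br (nat_lit 2) (.ch (nat_lit 0)
 (.ev (nat_lit 656) (nat_lit 618475552784) (.ev (nat_lit 708) (nat_lit 524288) (.ev (nat_lit 717) (nat_lit
 70368744177664) .dd)))) (.br (nat_lit 6) (.ch (nat_lit 2) (.ev (nat_lit 656) (nat_lit 70987220254736) .dd))
 (.ch (nat_lit 6) (.ev (nat_lit 656) (nat_lit 618475814928) (.ev (nat_lit 672) (nat_lit 262144) (.ev (nat_lit
 685) (nat_lit 70368744177664) .dd)))))) (.br (nat_lit 17) (.ch (nat_lit 8) (.ev (nat_lit 656) (nat_lit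
 70437464440848) (.ev (nat_lit 669) (nat_lit 549755813888) .dd))) (.br (nat_lit 24) (.ch (nat_lit 17) (.ev
 (nat_lit 656) (nat_lit 618475814912) (.ev (nat_lit 720) (nat_lit 70368744439808) (.ev (nat_lit 733) (nat_lit
 16) .dd)))) (.ch (nat_lit 24) (.ev (nat_lit 656) (nat_lit 70987220254720) (.ev (nat_lit 669) (nat_lit 16)
 .dd)))))) (.br (nat_lit 33) (.br (nat_lit 31) (.ch (nat_lit 25) (.ev (nat_lit 656) (nat_lit 70987220254720)
 (.ev (nat_lit 669) (nat_lit 16) .dd))) (.br (nat_lit 32) (.ch (nat_lit 31) (.ev (nat_lit 656) (nat_lit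
 70918500253712) (.fin (nat_lit 576448107907596860)))) (.ch (nat_lit 32) (.ev (nat_lit 656) (nat_lit
 618476077072) (.ev (nat_lit 669) (nat_lit 70368744177664) .dd))))) (.br (nat_lit 34) (.ch (nat_lit 33) (.ev
 (nat_lit 656) (nat_lit 70987220254736) .dd)) (.br (nat_lit 37) (.ch (nat_lit 34) (.ev (nat_lit 656) (nat_lit
 70987220254736) .dd)) (.ch (nat_lit 37) (.ev (nat_lit 656) (nat_lit 70987220254736) .dd))))))))))))))) (.br
 (nat_lit 50) (.ch (nat_lit 49) (.ev (nat_lit 52) (nat_lit 147610262930392156288) (.ev (nat_lit 64) (nat_lit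
 1475766763551256248624) .dd))) (.br (nat_lit 52) (.ch (nat_lit 50) (.ev (nat_lit 52) (nat_lit
 18155206873514160) (.ev (nat_lit 84) (nat_lit 36028797018963968) (.ev (nat_lit 96) (nat_lit
 1623322842477755926784) .dd)))) (.ch (nat_lit 52) (.ev (nat_lit 52) (nat_lit 295157194403885678992) (.ev
 (nat_lit 84) (nat_lit 2048) (.ev (nat_lit 96) (nat_lit 1328219832077762723872) .dd))))))))))))

/-- The trie. -/
noncomputable def T : Tr := .nd (nat_lit 1000000) (.br (nat_lit 16) (.br (nat_lit 7) (.br (nat_lit 3) (.br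
 (nat_lit 1) (.ch (nat_lit 0) (.ev (nat_lit 0) (nat_lit 2361183241434822606847) .dd)) (.br (nat_lit 2) (.ch
 (nat_lit 1) T1) (.ch (nat_lit 2) (.ev (nat_lit 0) (nat_lit 2361183241434822606847) .dd)))) (.br (nat_lit 4)
 (.ch (nat_lit 3) (.ev (nat_lit 0) (nat_lit 2361183241434822606847) .dd)) (.br (nat_lit 6) (.ch (nat_lit 4) T4)
 (.ch (nat_lit 6) T6)))) (.br (nat_lit 11) (.br (nat_lit 9) (.ch (nat_lit 7) T7) (.br (nat_lit 10) (.ch
 (nat_lit 9) T9) (.ch (nat_lit 10) T10))) (.br (nat_lit 14) (.ch (nat_lit 11) (.ev (nat_lit 0) (nat_lit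
 2361183241434822606847) .dd)) (.br (nat_lit 15) (.ch (nat_lit 14) (.ev (nat_lit 0) (nat_lit
 2361183241434822606847) .dd)) (.ch (nat_lit 15) (.ev (nat_lit 0) (nat_lit 2361183241434822606847) .dd))))))
 (.br (nat_lit 27) (.br (nat_lit 20) (.br (nat_lit 17) (.ch (nat_lit 16) (.ev (nat_lit 0) (nat_lit
 2361183241434822606847) .dd)) (.br (nat_lit 19) (.ch (nat_lit 17) T17) (.ch (nat_lit 19) (.ev (nat_lit 0)
 (nat_lit 2361183241434822606847) .dd)))) (.br (nat_lit 23) (.ch (nat_lit 20) (.ev (nat_lit 0) (nat_lit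
 2361183241434822606847) .dd)) (.br (nat_lit 24) (.ch (nat_lit 23) (.ev (nat_lit 0) (nat_lit
 2361183241434822606847) .dd)) (.ch (nat_lit 24) (.ev (nat_lit 0) (nat_lit 2361183241434822606847) .dd)))))
 (.br (nat_lit 32) (.br (nat_lit 28) (.ch (nat_lit 27) (.ev (nat_lit 0) (nat_lit 2361183241434822606847) .dd))
 (.br (nat_lit 29) (.ch (nat_lit 28) (.ev (nat_lit 0) (nat_lit 2361183241434822606847) .dd)) (.ch (nat_lit 29)
 (.ev (nat_lit 0) (nat_lit 2361183241434822606847) .dd)))) (.br (nat_lit 40) (.ch (nat_lit 32) (.ev (nat_lit 0)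
 (nat_lit 2361183241434822606847) .dd)) (.br (nat_lit 41) (.ch (nat_lit 40) (.ev (nat_lit 0) (nat_lit
 2361183241434822606847) .dd)) (.ch (nat_lit 41) (.ev (nat_lit 0) (nat_lit 2361183241434822606847) .dd)))))))

/-- The possible values. -/
noncomputable def oks : List ℕ := [7, 706, 6685, 7490, 38290]

/-- The parameters. -/
noncomputable def S : Pr := ⟨fun i l e => lget mz (lget [] (lget [] tabs i) l) e, oks, [(nat_lit 0), (nat_lit
 1), (nat_lit 0), (nat_lit 1), (nat_lit 0)], T, (nat_lit 2361183241434822606847), (nat_lit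
 87122173451996128837), (nat_lit 71), [(nat_lit 3303796230157), (nat_lit 2287041271849359)], [(nat_lit
 3418801), (nat_lit 7890481)]⟩

/-- Nothing known. -/
noncomputable def cs0 : Cs := (.cons (nat_lit 43) (nat_lit 0) (nat_lit 1) (.cons (nat_lit 53) (nat_lit 0) (nat_lit 1) .nil))

theorem part_1 : part S cs0 (nat_lit 1) = true := by decide +kernel

theorem part_4 : part S cs0 (nat_lit 4) = true := by decide +kernel

theorem part_6 : part S cs0 (nat_lit 6) = true := by decide +kernel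

theorem part_7 : part S cs0 (nat_lit 7) = true := by decide +kernel

theorem part_9 : part S cs0 (nat_lit 9) = true := by decide +kernel

theorem part_10 : part S cs0 (nat_lit 10) = true := by decide +kernel

theorem part_17 : part S cs0 (nat_lit 17) = true := by decide +kernel

/-- Data of a prime. -/
noncomputable def D0 : PD := ⟨(nat_lit 43), (nat_lit 4), (2393595, 1, 17), (861437, 3297541, 834535), (2917894, 2632981, 81486)⟩

theorem D0_ok : D0.Ok := pdb_sound (s := 1) (C := ⟨⟨43, -38, -44, 43, 38, 1, 0, 9, -19⟩, (5, 38, 9)⟩) (by show Nat.Prime 43; norm_num) (by decide +kernel)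

/-- Lines of the first type. -/
noncomputable def Cl0 : List C1 := [⟨⟨43, 38, -44, 43, -38, 1, 0, -9, -19⟩, (42, 1, 24)⟩,
  ⟨⟨0, 0, 0, 0, 0, 0, 0, 0, 0⟩, (0, 0, 0)⟩,
  ⟨⟨57, -18, -16, -17, -58, 1, 4, 1, -23⟩, (41, 27, 24)⟩,
  ⟨⟨7, -38, -56, -33, -42, 49, -16, 7, -1⟩, (28, 40, 22)⟩,
  ⟨⟨0, 0, 0, 0, 0, 0, 0, 0, 0⟩, (0, 0, 0)⟩,
  ⟨⟨0, 0, 0, 0, 0, 0, 0, 0, 0⟩, (0, 0, 0)⟩,
  ⟨⟨0, 0, 0, 0, 0, 0, 0, 0, 0⟩, (0, 0, 0)⟩,
  ⟨⟨0, 0, 0, 0, 0, 0, 0, 0, 0⟩, (0, 0, 0)⟩,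
  ⟨⟨0, 0, 0, 0, 0, 0, 0, 0, 0⟩, (0, 0, 0)⟩,
  ⟨⟨0, 0, 0, 0, 0, 0, 0, 0, 0⟩, (0, 0, 0)⟩,
  ⟨⟨0, 0, 0, 0, 0, 0, 0, 0, 0⟩, (0, 0, 0)⟩,
  ⟨⟨27, -18, -71, -53, -22, 4, -4, 17, -7⟩, (6, 36, 23)⟩,
  ⟨⟨0, 0, 0, 0, 0, 0, 0, 0, 0⟩, (0, 0, 0)⟩,
  ⟨⟨0, 0, 0, 0, 0, 0, 0, 0, 0⟩, (0, 0, 0)⟩,
  ⟨⟨-7, -2, -64, -47, -38, 31, 12, -15, -7⟩, (37, 15, 41)⟩,
  ⟨⟨-7, 2, -64, -47, 38, 31, 12, 15, -7⟩, (3, 14, 1)⟩,
  ⟨⟨-7, 38, -49, 33, 42, 16, 16, -7, -17⟩, (27, 14, 12)⟩,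
  ⟨⟨0, 0, 0, 0, 0, 0, 0, 0, 0⟩, (0, 0, 0)⟩,
  ⟨⟨0, 0, 0, 0, 0, 0, 0, 0, 0⟩, (0, 0, 0)⟩,
  ⟨⟨57, 18, -16, -17, 58, 1, 4, -1, -23⟩, (36, 30, 41)⟩,
  ⟨⟨53, 22, -49, 27, -18, 44, 4, -17, -11⟩, (6, 42, 11)⟩,
  ⟨⟨0, 0, 0, 0, 0, 0, 0, 0, 0⟩, (0, 0, 0)⟩,
  ⟨⟨0, 0, 0, 0, 0, 0, 0, 0, 0⟩, (0, 0, 0)⟩,
  ⟨⟨27, 18, -71, -53, 22, 4, -4, -17, -7⟩, (1, 6, 11)⟩,
  ⟨⟨57, -18, -41, -17, -58, 16, -4, -1, -19⟩, (7, 13, 41)⟩,
  ⟨⟨0, 0, 0, 0, 0, 0, 0, 0, 0⟩, (0, 0, 0)⟩,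
  ⟨⟨0, 0, 0, 0, 0, 0, 0, 0, 0⟩, (0, 0, 0)⟩,
  ⟨⟨7, 38, -56, -33, 42, 49, -16, -7, -1⟩, (27, 14, 12)⟩,
  ⟨⟨7, 2, -71, -47, -38, 16, 12, -15, -5⟩, (3, 29, 42)⟩,
  ⟨⟨7, -2, -71, -47, 38, 16, 12, 15, -5⟩, (37, 28, 2)⟩,
  ⟨⟨0, 0, 0, 0, 0, 0, 0, 0, 0⟩, (0, 0, 0)⟩,
  ⟨⟨0, 0, 0, 0, 0, 0, 0, 0, 0⟩, (0, 0, 0)⟩,
  ⟨⟨53, -22, -49, 27, 18, 44, 4, 17, -11⟩, (36, 37, 23)⟩,
  ⟨⟨0, 0, 0, 0, 0, 0, 0, 0, 0⟩, (0, 0, 0)⟩,
  ⟨⟨0, 0, 0, 0, 0, 0, 0, 0, 0⟩, (0, 0, 0)⟩,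
  ⟨⟨0, 0, 0, 0, 0, 0, 0, 0, 0⟩, (0, 0, 0)⟩,
  ⟨⟨0, 0, 0, 0, 0, 0, 0, 0, 0⟩, (0, 0, 0)⟩,
  ⟨⟨0, 0, 0, 0, 0, 0, 0, 0, 0⟩, (0, 0, 0)⟩,
  ⟨⟨0, 0, 0, 0, 0, 0, 0, 0, 0⟩, (0, 0, 0)⟩,
  ⟨⟨0, 0, 0, 0, 0, 0, 0, 0, 0⟩, (0, 0, 0)⟩,
  ⟨⟨-7, -38, -49, 33, -42, 16, 16, 7, -17⟩, (28, 40, 22)⟩,
  ⟨⟨57, 18, -41, -17, 58, 16, -4, 1, -19⟩, (2, 16, 24)⟩,
  ⟨⟨0, 0, 0, 0, 0, 0, 0, 0, 0⟩, (0, 0, 0)⟩]

/-- Data of a prime. -/
noncomputable def D1 : PD := ⟨(nat_lit 53), (nat_lit 4), (4766609, 8, 14), (5741397, 394060, 6448212), (2544113, 2380180, 3415374)⟩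

theorem D1_ok : D1.Ok := pdb_sound (s := 12) (C := ⟨⟨-13, 2, -76, -47, -58, 31, 18, -15, -13⟩, (40, 6, 18)⟩) (by show Nat.Prime 53; norm_num) (by decide +kernel)

/-- Lines of the first type. -/
noncomputable def Cl1 : List C1 := [⟨⟨13, -2, -89, -47, -58, 16, 18, -15, -5⟩, (17, 16, 48)⟩,
  ⟨⟨-23, 38, -56, 43, 58, 1, 18, -9, -23⟩, (9, 50, 16)⟩,
  ⟨⟨-23, -38, -56, 43, -58, 1, 18, 9, -23⟩, (18, 47, 32)⟩,
  ⟨⟨-13, -2, -76, -47, 58, 31, 18, 15, -13⟩, (20, 3, 9)⟩,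
  ⟨⟨0, 0, 0, 0, 0, 0, 0, 0, 0⟩, (0, 0, 0)⟩,
  ⟨⟨0, 0, 0, 0, 0, 0, 0, 0, 0⟩, (0, 0, 0)⟩,
  ⟨⟨0, 0, 0, 0, 0, 0, 0, 0, 0⟩, (0, 0, 0)⟩,
  ⟨⟨23, -38, -79, -43, -58, 44, -18, 9, -5⟩, (29, 8, 28)⟩,
  ⟨⟨33, -18, -89, 67, 2, 4, 2, 23, -7⟩, (12, 34, 20)⟩,
  ⟨⟨0, 0, 0, 0, 0, 0, 0, 0, 0⟩, (0, 0, 0)⟩,
  ⟨⟨0, 0, 0, 0, 0, 0, 0, 0, 0⟩, (0, 0, 0)⟩,
  ⟨⟨0, 0, 0, 0, 0, 0, 0, 0, 0⟩, (0, 0, 0)⟩,
  ⟨⟨0, 0, 0, 0, 0, 0, 0, 0, 0⟩, (0, 0, 0)⟩,
  ⟨⟨27, 42, -76, 7, 58, 49, 22, -7, -5⟩, (1, 14, 44)⟩,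
  ⟨⟨33, 18, -89, 67, -2, 4, 2, -23, -7⟩, (44, 1, 38)⟩,
  ⟨⟨0, 0, 0, 0, 0, 0, 0, 0, 0⟩, (0, 0, 0)⟩,
  ⟨⟨0, 0, 0, 0, 0, 0, 0, 0, 0⟩, (0, 0, 0)⟩,
  ⟨⟨0, 0, 0, 0, 0, 0, 0, 0, 0⟩, (0, 0, 0)⟩,
  ⟨⟨0, 0, 0, 0, 0, 0, 0, 0, 0⟩, (0, 0, 0)⟩,
  ⟨⟨57, 42, -56, -37, 62, 41, -10, 1, -19⟩, (20, 27, 3)⟩,
  ⟨⟨13, 2, -89, -47, 58, 16, 18, 15, -5⟩, (50, 19, 4)⟩,
  ⟨⟨0, 0, 0, 0, 0, 0, 0, 0, 0⟩, (0, 0, 0)⟩,
  ⟨⟨0, 0, 0, 0, 0, 0, 0, 0, 0⟩, (0, 0, 0)⟩,
  ⟨⟨57, -42, -56, -37, -62, 41, -10, -1, -19⟩, (16, 11, 13)⟩,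
  ⟨⟨0, 0, 0, 0, 0, 0, 0, 0, 0⟩, (0, 0, 0)⟩,
  ⟨⟨7, 58, -56, 27, 42, 49, 22, -7, -17⟩, (20, 9, 25)⟩,
  ⟨⟨0, 0, 0, 0, 0, 0, 0, 0, 0⟩, (0, 0, 0)⟩,
  ⟨⟨67, -2, -71, 33, 18, 56, -2, 23, -5⟩, (28, 13, 49)⟩,
  ⟨⟨0, 0, 0, 0, 0, 0, 0, 0, 0⟩, (0, 0, 0)⟩,
  ⟨⟨0, 0, 0, 0, 0, 0, 0, 0, 0⟩, (0, 0, 0)⟩,
  ⟨⟨23, 38, -79, -43, 58, 44, -18, -9, -5⟩, (20, 11, 12)⟩,
  ⟨⟨0, 0, 0, 0, 0, 0, 0, 0, 0⟩, (0, 0, 0)⟩,
  ⟨⟨7, -58, -56, 27, -42, 49, 22, 7, -17⟩, (17, 5, 8)⟩,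
  ⟨⟨0, 0, 0, 0, 0, 0, 0, 0, 0⟩, (0, 0, 0)⟩,
  ⟨⟨67, 2, -71, 33, -18, 56, -2, -23, -5⟩, (8, 34, 14)⟩,
  ⟨⟨27, -42, -76, 7, -58, 49, 22, 7, -5⟩, (50, 11, 27)⟩,
  ⟨⟨0, 0, 0, 0, 0, 0, 0, 0, 0⟩, (0, 0, 0)⟩,
  ⟨⟨0, 0, 0, 0, 0, 0, 0, 0, 0⟩, (0, 0, 0)⟩,
  ⟨⟨0, 0, 0, 0, 0, 0, 0, 0, 0⟩, (0, 0, 0)⟩,
  ⟨⟨0, 0, 0, 0, 0, 0, 0, 0, 0⟩, (0, 0, 0)⟩,
  ⟨⟨0, 0, 0, 0, 0, 0, 0, 0, 0⟩, (0, 0, 0)⟩,
  ⟨⟨0, 0, 0, 0, 0, 0, 0, 0, 0⟩, (0, 0, 0)⟩,
  ⟨⟨0, 0, 0, 0, 0, 0, 0, 0, 0⟩, (0, 0, 0)⟩,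
  ⟨⟨0, 0, 0, 0, 0, 0, 0, 0, 0⟩, (0, 0, 0)⟩,
  ⟨⟨0, 0, 0, 0, 0, 0, 0, 0, 0⟩, (0, 0, 0)⟩,
  ⟨⟨-37, 62, -4, -57, -42, 1, 10, -1, -29⟩, (22, 21, 27)⟩,
  ⟨⟨0, 0, 0, 0, 0, 0, 0, 0, 0⟩, (0, 0, 0)⟩,
  ⟨⟨0, 0, 0, 0, 0, 0, 0, 0, 0⟩, (0, 0, 0)⟩,
  ⟨⟨0, 0, 0, 0, 0, 0, 0, 0, 0⟩, (0, 0, 0)⟩,
  ⟨⟨0, 0, 0, 0, 0, 0, 0, 0, 0⟩, (0, 0, 0)⟩,
  ⟨⟨0, 0, 0, 0, 0, 0, 0, 0, 0⟩, (0, 0, 0)⟩,
  ⟨⟨-37, -62, -4, -57, 42, 1, 10, 1, -29⟩, (6, 25, 17)⟩,
  ⟨⟨0, 0, 0, 0, 0, 0, 0, 0, 0⟩, (0, 0, 0)⟩]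

/-- Data of a prime. -/
noncomputable def Dm : PD := ⟨(nat_lit 71), (nat_lit 2), (72, 9, 33), (3977, 4536, 3372), (4173, 4400, 3526)⟩

theorem Dm_ok : Dm.Ok := pdb_sound (s := 11) (C := ⟨⟨59, 34, -112, -29, 94, 37, -24, -3, -11⟩, (59, 42, 47)⟩) (by show Nat.Prime 71; norm_num) (by decide +kernel)

/-- Lines of the first type. -/
noncomputable def Clm : List C1 := [⟨⟨-59, -34, -53, 29, -94, 8, 24, 3, -35⟩, (17, 47, 34)⟩,
  ⟨⟨0, 0, 0, 0, 0, 0, 0, 0, 0⟩, (0, 0, 0)⟩,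
  ⟨⟨49, -74, -77, 79, 14, 28, 12, 21, -29⟩, (59, 56, 13)⟩,
  ⟨⟨0, 0, 0, 0, 0, 0, 0, 0, 0⟩, (0, 0, 0)⟩,
  ⟨⟨0, 0, 0, 0, 0, 0, 0, 0, 0⟩, (0, 0, 0)⟩,
  ⟨⟨0, 0, 0, 0, 0, 0, 0, 0, 0⟩, (0, 0, 0)⟩,
  ⟨⟨79, -14, -107, 49, 74, 28, -12, 21, -17⟩, (44, 21, 5)⟩,
  ⟨⟨0, 0, 0, 0, 0, 0, 0, 0, 0⟩, (0, 0, 0)⟩,
  ⟨⟨0, 0, 0, 0, 0, 0, 0, 0, 0⟩, (0, 0, 0)⟩,
  ⟨⟨39, 66, -92, -89, 46, 37, -8, -19, -23⟩, (13, 65, 21)⟩,
  ⟨⟨19, 46, -107, -91, -26, 8, 12, -27, -19⟩, (7, 30, 53)⟩,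
  ⟨⟨0, 0, 0, 0, 0, 0, 0, 0, 0⟩, (0, 0, 0)⟩,
  ⟨⟨0, 0, 0, 0, 0, 0, 0, 0, 0⟩, (0, 0, 0)⟩,
  ⟨⟨99, 6, -67, 11, -94, 32, -4, -11, -31⟩, (13, 33, 59)⟩,
  ⟨⟨-39, -66, -53, -89, 46, 52, 8, 19, -31⟩, (17, 57, 22)⟩,
  ⟨⟨0, 0, 0, 0, 0, 0, 0, 0, 0⟩, (0, 0, 0)⟩,
  ⟨⟨0, 0, 0, 0, 0, 0, 0, 0, 0⟩, (0, 0, 0)⟩,
  ⟨⟨19, -46, -107, -91, 26, 8, 12, 27, -19⟩, (15, 44, 2)⟩,
  ⟨⟨0, 0, 0, 0, 0, 0, 0, 0, 0⟩, (0, 0, 0)⟩,
  ⟨⟨0, 0, 0, 0, 0, 0, 0, 0, 0⟩, (0, 0, 0)⟩,
  ⟨⟨51, 66, -88, -59, 74, 67, -20, -5, -17⟩, (59, 64, 59)⟩,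
  ⟨⟨49, 74, -77, 79, -14, 28, 12, -21, -29⟩, (6, 43, 29)⟩,
  ⟨⟨0, 0, 0, 0, 0, 0, 0, 0, 0⟩, (0, 0, 0)⟩,
  ⟨⟨0, 0, 0, 0, 0, 0, 0, 0, 0⟩, (0, 0, 0)⟩,
  ⟨⟨0, 0, 0, 0, 0, 0, 0, 0, 0⟩, (0, 0, 0)⟩,
  ⟨⟨31, 74, -83, -81, 54, 68, -16, -13, -19⟩, (8, 2, 60)⟩,
  ⟨⟨0, 0, 0, 0, 0, 0, 0, 0, 0⟩, (0, 0, 0)⟩,
  ⟨⟨11, 94, -43, -99, 6, 32, 4, -11, -35⟩, (69, 18, 38)⟩,
  ⟨⟨-51, 66, -37, 59, 74, 8, 20, -5, -37⟩, (25, 56, 25)⟩,
  ⟨⟨0, 0, 0, 0, 0, 0, 0, 0, 0⟩, (0, 0, 0)⟩,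
  ⟨⟨39, -66, -92, -89, -46, 37, -8, 19, -23⟩, (43, 2, 64)⟩,
  ⟨⟨0, 0, 0, 0, 0, 0, 0, 0, 0⟩, (0, 0, 0)⟩,
  ⟨⟨59, -34, -112, -29, -94, 37, -24, 3, -11⟩, (9, 4, 18)⟩,
  ⟨⟨0, 0, 0, 0, 0, 0, 0, 0, 0⟩, (0, 0, 0)⟩,
  ⟨⟨0, 0, 0, 0, 0, 0, 0, 0, 0⟩, (0, 0, 0)⟩,
  ⟨⟨-59, 34, -53, 29, 94, 8, 24, -3, -35⟩, (8, 43, 16)⟩,
  ⟨⟨0, 0, 0, 0, 0, 0, 0, 0, 0⟩, (0, 0, 0)⟩,
  ⟨⟨11, -94, -43, -99, -6, 32, 4, 11, -35⟩, (2, 53, 33)⟩,
  ⟨⟨0, 0, 0, 0, 0, 0, 0, 0, 0⟩, (0, 0, 0)⟩,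
  ⟨⟨0, 0, 0, 0, 0, 0, 0, 0, 0⟩, (0, 0, 0)⟩,
  ⟨⟨51, -66, -88, -59, -74, 67, -20, 5, -17⟩, (18, 46, 18)⟩,
  ⟨⟨-19, -46, -88, -91, -26, 83, -12, 27, -7⟩, (26, 61, 65)⟩,
  ⟨⟨0, 0, 0, 0, 0, 0, 0, 0, 0⟩, (0, 0, 0)⟩,
  ⟨⟨0, 0, 0, 0, 0, 0, 0, 0, 0⟩, (0, 0, 0)⟩,
  ⟨⟨0, 0, 0, 0, 0, 0, 0, 0, 0⟩, (0, 0, 0)⟩,
  ⟨⟨-19, 46, -88, -91, 26, 83, -12, -27, -7⟩, (18, 4, 45)⟩,
  ⟨⟨0, 0, 0, 0, 0, 0, 0, 0, 0⟩, (0, 0, 0)⟩,
  ⟨⟨0, 0, 0, 0, 0, 0, 0, 0, 0⟩, (0, 0, 0)⟩,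
  ⟨⟨0, 0, 0, 0, 0, 0, 0, 0, 0⟩, (0, 0, 0)⟩,
  ⟨⟨0, 0, 0, 0, 0, 0, 0, 0, 0⟩, (0, 0, 0)⟩,
  ⟨⟨0, 0, 0, 0, 0, 0, 0, 0, 0⟩, (0, 0, 0)⟩,
  ⟨⟨0, 0, 0, 0, 0, 0, 0, 0, 0⟩, (0, 0, 0)⟩,
  ⟨⟨99, -6, -67, 11, 94, 32, -4, 11, -31⟩, (48, 29, 54)⟩,
  ⟨⟨0, 0, 0, 0, 0, 0, 0, 0, 0⟩, (0, 0, 0)⟩,
  ⟨⟨0, 0, 0, 0, 0, 0, 0, 0, 0⟩, (0, 0, 0)⟩,
  ⟨⟨0, 0, 0, 0, 0, 0, 0, 0, 0⟩, (0, 0, 0)⟩,
  ⟨⟨-51, -66, -37, 59, -74, 8, 20, 5, -37⟩, (55, 38, 55)⟩,
  ⟨⟨0, 0, 0, 0, 0, 0, 0, 0, 0⟩, (0, 0, 0)⟩,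
  ⟨⟨0, 0, 0, 0, 0, 0, 0, 0, 0⟩, (0, 0, 0)⟩,
  ⟨⟨-31, -74, -52, -81, 54, 13, 16, 13, -35⟩, (64, 55, 54)⟩,
  ⟨⟨-31, 74, -52, -81, -54, 13, 16, -13, -35⟩, (11, 15, 47)⟩,
  ⟨⟨-39, 66, -53, -89, -46, 52, 8, -19, -31⟩, (58, 65, 50)⟩,
  ⟨⟨0, 0, 0, 0, 0, 0, 0, 0, 0⟩, (0, 0, 0)⟩,
  ⟨⟨79, 14, -107, 49, -74, 28, -12, -21, -17⟩, (57, 3, 21)⟩,
  ⟨⟨0, 0, 0, 0, 0, 0, 0, 0, 0⟩, (0, 0, 0)⟩,
  ⟨⟨0, 0, 0, 0, 0, 0, 0, 0, 0⟩, (0, 0, 0)⟩,
  ⟨⟨31, -74, -83, -81, -54, 68, -16, 13, -19⟩, (61, 33, 67)⟩,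
  ⟨⟨0, 0, 0, 0, 0, 0, 0, 0, 0⟩, (0, 0, 0)⟩,
  ⟨⟨0, 0, 0, 0, 0, 0, 0, 0, 0⟩, (0, 0, 0)⟩,
  ⟨⟨0, 0, 0, 0, 0, 0, 0, 0, 0⟩, (0, 0, 0)⟩,
  ⟨⟨0, 0, 0, 0, 0, 0, 0, 0, 0⟩, (0, 0, 0)⟩]

/-- Unit moves. -/
noncomputable def U : List Mv := [mz,
  mz,
  mz,
  mz,
  mz,
  ⟨⟨-1, 0, 1, 0, -1, 0, 0, 0, 1⟩, .nil, (nat_lit 0), (nat_lit 5), (nat_lit 1), (nat_lit 0), (0, 0, 0), [], 38⟩,
  mz,
  mz,
  ⟨⟨-1, 0, 1, 0, -1, 0, 0, 0, 1⟩, .nil, (nat_lit 0), (nat_lit 5), (nat_lit 1), (nat_lit 0), (0, 0, 0), [], 38⟩,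
  mz,
  mz,
  mz,
  ⟨⟨-1, 0, 1, 0, -1, 0, 0, 0, 1⟩, .nil, (nat_lit 0), (nat_lit 5), (nat_lit 1), (nat_lit 0), (0, 0, 0), [], 38⟩,
  ⟨⟨-1, 0, 1, 0, -1, 0, 0, 0, 1⟩, .nil, (nat_lit 0), (nat_lit 5), (nat_lit 1), (nat_lit 0), (0, 0, 0), [], 38⟩,
  mz,
  mz,
  mz,
  mz,
  ⟨⟨-1, 0, 1, 0, -1, 0, 0, 0, 1⟩, .nil, (nat_lit 0), (nat_lit 5), (nat_lit 1), (nat_lit 0), (0, 0, 0), [], 38⟩,
  mz,
  mz,
  ⟨⟨1, 0, 0, 0, -1, 0, 0, 0, 1⟩, .nil, (nat_lit 0), (nat_lit 38), (nat_lit 1), (nat_lit 0), (0, 0, 0), [], 38⟩,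
  ⟨⟨-1, 0, 1, 0, -1, 0, 0, 0, 1⟩, .nil, (nat_lit 0), (nat_lit 5), (nat_lit 1), (nat_lit 0), (0, 0, 0), [], 38⟩,
  mz,
  mz,
  ⟨⟨1, 0, 0, 0, -1, 0, 0, 0, 1⟩, .nil, (nat_lit 0), (nat_lit 38), (nat_lit 1), (nat_lit 0), (0, 0, 0), [], 38⟩,
  ⟨⟨-1, 0, 1, 0, 1, 0, 0, 0, 1⟩, .nil, (nat_lit 42), (nat_lit 0), (nat_lit 0), (nat_lit 1), (0, 0, 0), [], 1⟩,
  mz,
  mz,
  mz,
  ⟨⟨1, 0, 0, 0, -1, 0, 0, 0, 1⟩, .nil, (nat_lit 0), (nat_lit 38), (nat_lit 1), (nat_lit 0), (0, 0, 0), [], 38⟩,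
  ⟨⟨1, 0, 0, 0, -1, 0, 0, 0, 1⟩, .nil, (nat_lit 0), (nat_lit 38), (nat_lit 1), (nat_lit 0), (0, 0, 0), [], 38⟩,
  mz,
  ⟨⟨-1, 0, 1, 0, 1, 0, 0, 0, 1⟩, .nil, (nat_lit 42), (nat_lit 0), (nat_lit 0), (nat_lit 1), (0, 0, 0), [], 1⟩,
  ⟨⟨-1, 0, 1, 0, 1, 0, 0, 0, 1⟩, .nil, (nat_lit 42), (nat_lit 0), (nat_lit 0), (nat_lit 1), (0, 0, 0), [], 1⟩,
  ⟨⟨1, 0, 0, 0, -1, 0, 0, 0, 1⟩, .nil, (nat_lit 0), (nat_lit 38), (nat_lit 1), (nat_lit 0), (0, 0, 0), [], 38⟩,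
  ⟨⟨-1, 0, 1, 0, 1, 0, 0, 0, 1⟩, .nil, (nat_lit 42), (nat_lit 0), (nat_lit 0), (nat_lit 1), (0, 0, 0), [], 1⟩,
  ⟨⟨-1, 0, 1, 0, 1, 0, 0, 0, 1⟩, .nil, (nat_lit 42), (nat_lit 0), (nat_lit 0), (nat_lit 1), (0, 0, 0), [], 1⟩,
  ⟨⟨1, 0, 0, 0, -1, 0, 0, 0, 1⟩, .nil, (nat_lit 0), (nat_lit 38), (nat_lit 1), (nat_lit 0), (0, 0, 0), [], 38⟩,
  ⟨⟨-1, 0, 1, 0, 1, 0, 0, 0, 1⟩, .nil, (nat_lit 42), (nat_lit 0), (nat_lit 0), (nat_lit 1), (0, 0, 0), [], 1⟩,
  mz,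
  mz,
  ⟨⟨-1, 0, 1, 0, 1, 0, 0, 0, 1⟩, .nil, (nat_lit 42), (nat_lit 0), (nat_lit 0), (nat_lit 1), (0, 0, 0), [], 1⟩]

theorem v_ty : tyb Dm S.ty1 Clm = true := by decide +kernel

theorem v_ty0 : tyb D0 (S.tys.getD 0 0) Cl0 = true := by decide +kernel

theorem v_ty1 : tyb D1 (S.tys.getD 1 0) Cl1 = true := by decide +kernel

theorem v_msc : mscb S D0 [D1] Dm (nat_lit 132818) = true := by decide +kernel

theorem v_mv0 : mvsn (nat_lit 135985937024069521) S D0 [D1] Dm (nat_lit 132818) 0 D0 = true := by decide +kernel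

theorem v_mv1 : mvsn (nat_lit 135985937024069521) S D0 [D1] Dm (nat_lit 132818) 1 D1 = true := by decide +kernel

theorem v_mm : mmsn (nat_lit 135985937024069521) S D0 [D1] Dm (nat_lit 132818) = true := by decide +kernel

theorem v_un : unb S D0 (nat_lit 132818) U = true := by decide +kernel

theorem v_ok : okb S.oks [(0, 0, 0), (0, 0, 0), (21, 78, 4), (0, 0, 0), (0, 0, 0)] = true := by decide +kernel

theorem v_part : ∀ d < D0.p, (nat_lit 132818).testBit d = true → part S (zc (D0 :: [D1])) d = true := by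
  intro d hd h
  have h1 : ∀ d < 43, (nat_lit 132818).testBit d = true → d = 1 ∨ d = 4 ∨ d = 6 ∨ d = 7 ∨ d = 9 ∨ d = 10 ∨ d = 17 := by decide
  rcases h1 d hd h with rfl | rfl | rfl | rfl | rfl | rfl | rfl
  · exact part_1
  · exact part_4
  · exact part_6
  · exact part_7
  · exact part_9
  · exact part_10
  · exact part_17

theorem main (n : ℕ) (ho : Odd n) (hr : ¬ Rep n) (h0 : Split 43 n) (h1 : Split 53 n) (hm : Split 71 n) :
    n ∈ EE := by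
  refine concln (W := nat_lit 135985937024069521) (S := S) (P0 := D0) (Pl := [D1]) (Pm := Dm) (cn := nat_lit 132818) ?_ Dm_ok v_ty ?_ ?_ v_msc ?_ v_mm v_un v_part v_ok
    n ho hr ?_ hm
  · simp only [List.forall_mem_cons]
    exact ⟨D0_ok, D1_ok, fun _ h => absurd h (by simp)⟩
  · exact all2 (φ := fun j P => ∃ L, tyb P (S.tys.getD j 0) L = true) ⟨_, v_ty0⟩ ⟨_, v_ty1⟩
  · exact all2 (φ := fun j P => Nat.ble (S.pks.getD j 0) (Nat.pow P.p P.K) = true) (by decide +kernel) (by decide +kernel)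
  · exact all2 (φ := fun i P => mvsn (nat_lit 135985937024069521) S D0 [D1] Dm (nat_lit 132818) i P = true) v_mv0 v_mv1
  · simp only [List.forall_mem_cons]
    exact ⟨h0, h1, fun _ h => absurd h (by simp)⟩

end Pool.Agent.Work.MP_9954fe_nt.P43_53_71

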