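import Pool.Agent.Work.MP_9954fe_nt.Fast

/-!
Certificates for the sets {7, 31, 71}, {7, 37, 71}, {7, 43, 47}, {11, 37, 47}, {43, 47, 71} of split primes.
-/

set_option autoImplicit false
set_option linter.all false
set_option maxRecDepth 100000

namespace Pool.Agent.Work.MP_9954fe_nt.P7_71_31

/-- Dummy move. -/
noncomputable def mz : Mv := ⟨⟨0, 0, 0, 0, 0, 0, 0, 0, 0⟩, .nil, (nat_lit 0), (nat_lit 0), (nat_lit 0), (nat_lit 0), (0, 0, 0), [], 0⟩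

/-- Moves. -/
noncomputable def t0_1 : List Mv := [
  ⟨⟨-3, 4, -5, 2, -5, -6, 4, 4, -5⟩, (.cons (nat_lit 11870394) (nat_lit 28783777) (nat_lit 28481682) (nat_lit
 1) (.cons (nat_lit 16096881) (nat_lit 9521994) (nat_lit 4355542) (nat_lit 1) .nil)), (nat_lit 16), (nat_lit
 13), (nat_lit 26), (nat_lit 1), (3, 5, 3), [10048865, 4678558], 22⟩,
  ⟨⟨-3, 4, -5, -2, 5, 6, 4, 4, -5⟩, (.cons (nat_lit 37305656) (nat_lit 7036773) (nat_lit 31813562) (nat_lit 1)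
 (.cons (nat_lit 12495992) (nat_lit 1088495) (nat_lit 3067260) (nat_lit 1) .nil)), (nat_lit 24), (nat_lit 8),
 (nat_lit 30), (nat_lit 1), (3, 2, 3), [5604076, 25331572], 7⟩,
  ⟨⟨7, 0, 0, 2, -5, -6, 4, 4, -5⟩, (.cons (nat_lit 23697019) (nat_lit 11044809) (nat_lit 25792226) (nat_lit 1)
 (.cons (nat_lit 17479579) (nat_lit 5234312) (nat_lit 5309263) (nat_lit 1) .nil)), (nat_lit 2), (nat_lit 29),
 (nat_lit 3), (nat_lit 1), (0, 5, 3), [9064028, 11874291], 25⟩,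
  ⟨⟨-3, 4, -5, 2, -5, -6, 4, 4, -5⟩, (.cons (nat_lit 11870394) (nat_lit 28783777) (nat_lit 28481682) (nat_lit
 1) (.cons (nat_lit 16096881) (nat_lit 9521994) (nat_lit 4355542) (nat_lit 1) .nil)), (nat_lit 16), (nat_lit
 13), (nat_lit 26), (nat_lit 1), (3, 5, 3), [10048865, 4678558], 22⟩,
  ⟨⟨-3, 4, -5, 2, -5, -6, 4, 4, -5⟩, (.cons (nat_lit 11870394) (nat_lit 28783777) (nat_lit 28481682) (nat_lit
 1) (.cons (nat_lit 16096881) (nat_lit 9521994) (nat_lit 4355542) (nat_lit 1) .nil)), (nat_lit 16), (nat_lit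
 13), (nat_lit 26), (nat_lit 1), (3, 5, 3), [10048865, 4678558], 22⟩,
  ⟨⟨-3, 4, -5, 2, -5, -6, 4, 4, -5⟩, (.cons (nat_lit 11870394) (nat_lit 28783777) (nat_lit 28481682) (nat_lit
 1) (.cons (nat_lit 16096881) (nat_lit 9521994) (nat_lit 4355542) (nat_lit 1) .nil)), (nat_lit 16), (nat_lit
 13), (nat_lit 26), (nat_lit 1), (3, 5, 3), [10048865, 4678558], 22⟩,
  ⟨⟨7, 0, 0, 2, -5, -6, 4, 4, -5⟩, (.cons (nat_lit 23697019) (nat_lit 11044809) (nat_lit 25792226) (nat_lit 1)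
 (.cons (nat_lit 17479579) (nat_lit 5234312) (nat_lit 5309263) (nat_lit 1) .nil)), (nat_lit 2), (nat_lit 29),
 (nat_lit 3), (nat_lit 1), (0, 5, 3), [9064028, 11874291], 25⟩]

/-- Moves. -/
noncomputable def t0_3 : List Mv := [
  ⟨⟨1, 0, -9, 0, -7, 0, 6, 0, -5⟩, (.cons (nat_lit 25004503) (nat_lit 30625764) (nat_lit 38675796) (nat_lit 1)
 (.cons (nat_lit 11019172) (nat_lit 19114595) (nat_lit 23189091) (nat_lit 1) .nil)), (nat_lit 29), (nat_lit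
 14), (nat_lit 28), (nat_lit 1), (2, 0, 5), [37099950, 8190031], 30⟩,
  ⟨⟨1, 0, -9, 0, -7, 0, 6, 0, -5⟩, (.cons (nat_lit 25004503) (nat_lit 30625764) (nat_lit 38675796) (nat_lit 1)
 (.cons (nat_lit 11019172) (nat_lit 19114595) (nat_lit 23189091) (nat_lit 1) .nil)), (nat_lit 29), (nat_lit
 14), (nat_lit 28), (nat_lit 1), (2, 0, 5), [37099950, 8190031], 30⟩,
  ⟨⟨5, 0, 4, 0, 7, 0, 6, 0, -5⟩, (.cons (nat_lit 23707674) (nat_lit 19696108) (nat_lit 34804965) (nat_lit 1)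
 (.cons (nat_lit 25411680) (nat_lit 19063370) (nat_lit 10960291) (nat_lit 1) .nil)), (nat_lit 30), (nat_lit
 21), (nat_lit 22), (nat_lit 1), (3, 0, 5), [11878172, 21155014], 17⟩,
  ⟨⟨5, 0, 4, 0, -7, 0, 6, 0, -5⟩, (.cons (nat_lit 26597705) (nat_lit 27856828) (nat_lit 8865904) (nat_lit 1)
 (.cons (nat_lit 25411680) (nat_lit 7379081) (nat_lit 21554984) (nat_lit 1) .nil)), (nat_lit 30), (nat_lit 27),
 (nat_lit 10), (nat_lit 1), (3, 0, 5), [2605651, 2738559], 25⟩,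
  ⟨⟨1, 0, -9, 0, -7, 0, 6, 0, -5⟩, (.cons (nat_lit 25004503) (nat_lit 30625764) (nat_lit 38675796) (nat_lit 1)
 (.cons (nat_lit 11019172) (nat_lit 19114595) (nat_lit 23189091) (nat_lit 1) .nil)), (nat_lit 29), (nat_lit
 14), (nat_lit 28), (nat_lit 1), (2, 0, 5), [37099950, 8190031], 30⟩,
  ⟨⟨1, 0, -9, 0, 7, 0, 6, 0, -5⟩, (.cons (nat_lit 17043897) (nat_lit 16716079) (nat_lit 24805227) (nat_lit 1)
 (.cons (nat_lit 17112126) (nat_lit 10397255) (nat_lit 18812476) (nat_lit 1) .nil)), (nat_lit 9), (nat_lit 4),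
 (nat_lit 8), (nat_lit 1), (2, 0, 5), [27270990, 6620870], 25⟩,
  ⟨⟨1, 0, -9, 0, -7, 0, 6, 0, -5⟩, (.cons (nat_lit 25004503) (nat_lit 30625764) (nat_lit 38675796) (nat_lit 1)
 (.cons (nat_lit 11019172) (nat_lit 19114595) (nat_lit 23189091) (nat_lit 1) .nil)), (nat_lit 29), (nat_lit
 14), (nat_lit 28), (nat_lit 1), (2, 0, 5), [37099950, 8190031], 30⟩]

/-- Moves. -/
noncomputable def t1_1 : List Mv := [
  mz,
  ⟨⟨-75, 20, 43, -10, -21, -70, -12, 60, -13⟩, (.cons (nat_lit 34032488) (nat_lit 14827324) (nat_lit 7465105)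
 (nat_lit 1) (.cons (nat_lit 9958158) (nat_lit 14218708) (nat_lit 17738934) (nat_lit 1) .nil)), (nat_lit 5),
 (nat_lit 18), (nat_lit 5), (nat_lit 1), (51, 21, 11), [30168121, 5763012], 21⟩,
  mz,
  ⟨⟨65, -24, -72, -4, 55, -48, -10, -40, -49⟩, (.cons (nat_lit 40353606) (nat_lit 30713124) (nat_lit 40298679)
 (nat_lit 1) (.cons (nat_lit 19071543) (nat_lit 14234576) (nat_lit 14827765) (nat_lit 1) .nil)), (nat_lit 30),
 (nat_lit 22), (nat_lit 26), (nat_lit 1), (37, 1, 38), [34335394, 22101516], 11⟩,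
  ⟨⟨-33, -20, -59, -64, 15, 62, -6, 48, -43⟩, (.cons (nat_lit 1388865) (nat_lit 30900130) (nat_lit 12587809)
 (nat_lit 1) (.cons (nat_lit 16093018) (nat_lit 6874285) (nat_lit 16919396) (nat_lit 1) .nil)), (nat_lit 22),
 (nat_lit 17), (nat_lit 30), (nat_lit 1), (45, 55, 34), [9050828, 21664538], 10⟩,
  ⟨⟨27, -68, 16, 64, 15, -62, -6, -48, -43⟩, (.cons (nat_lit 31315756) (nat_lit 34632259) (nat_lit 4515109)
 (nat_lit 1) (.cons (nat_lit 14436313) (nat_lit 12335421) (nat_lit 13733103) (nat_lit 1) .nil)), (nat_lit 3),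
 (nat_lit 25), (nat_lit 5), (nat_lit 1), (7, 35, 30), [37537121, 1072123], 13⟩,
  mz,
  ⟨⟨-29, 72, 20, 56, 25, -68, -38, 16, -35⟩, (.cons (nat_lit 28080237) (nat_lit 8871994) (nat_lit 31910141)
 (nat_lit 1) (.cons (nat_lit 10822884) (nat_lit 1507447) (nat_lit 12237693) (nat_lit 1) .nil)), (nat_lit 26),
 (nat_lit 23), (nat_lit 7), (nat_lit 1), (33, 44, 31), [15324894, 23280106], 25⟩,
  ⟨⟨23, -72, 9, 64, 25, -12, 26, -32, -67⟩, (.cons (nat_lit 37188482) (nat_lit 8177145) (nat_lit 37335432)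
 (nat_lit 1) (.cons (nat_lit 1500478) (nat_lit 4023338) (nat_lit 4932604) (nat_lit 1) .nil)), (nat_lit 14),
 (nat_lit 12), (nat_lit 29), (nat_lit 1), (60, 62, 3), [23002611, 25217914], 30⟩,
  mz,
  mz,
  ⟨⟨33, -20, -92, 64, 15, -2, 6, 48, -49⟩, (.cons (nat_lit 34637860) (nat_lit 15211618) (nat_lit 24400660)
 (nat_lit 1) (.cons (nat_lit 18710210) (nat_lit 6171651) (nat_lit 15890191) (nat_lit 1) .nil)), (nat_lit 21),
 (nat_lit 25), (nat_lit 4), (nat_lit 1), (67, 3, 38), [33887423, 11384974], 29⟩,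
  ⟨⟨-51, -52, -5, -44, 15, 82, -42, 24, -25⟩, (.cons (nat_lit 12800281) (nat_lit 11324347) (nat_lit 21479901)
 (nat_lit 1) (.cons (nat_lit 2013621) (nat_lit 13974808) (nat_lit 9801654) (nat_lit 1) .nil)), (nat_lit 24),
 (nat_lit 26), (nat_lit 24), (nat_lit 1), (61, 22, 21), [29518376, 23023636], 25⟩,
  mz,
  mz,
  ⟨⟨-9, 76, -11, -44, -15, -38, 42, 24, -67⟩, (.cons (nat_lit 18088192) (nat_lit 1850949) (nat_lit 9222847)
 (nat_lit 1) (.cons (nat_lit 4715657) (nat_lit 1928413) (nat_lit 21356184) (nat_lit 1) .nil)), (nat_lit 26),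
 (nat_lit 19), (nat_lit 18), (nat_lit 1), (25, 67, 49), [9519025, 21092642], 23⟩,
  ⟨⟨17, 24, -89, -36, -55, -12, 54, -24, -53⟩, (.cons (nat_lit 21919031) (nat_lit 21200847) (nat_lit 21675660)
 (nat_lit 1) (.cons (nat_lit 4333107) (nat_lit 13499443) (nat_lit 3248065) (nat_lit 1) .nil)), (nat_lit 29),
 (nat_lit 20), (nat_lit 16), (nat_lit 1), (7, 52, 64), [21487826, 21602980], 15⟩,
  mz,
  ⟨⟨9, 56, -64, -56, -25, -12, 38, -16, -73⟩, (.cons (nat_lit 24040259) (nat_lit 32071936) (nat_lit 33520969)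
 (nat_lit 1) (.cons (nat_lit 13624382) (nat_lit 3901849) (nat_lit 14862921) (nat_lit 1) .nil)), (nat_lit 7),
 (nat_lit 12), (nat_lit 7), (nat_lit 1), (56, 46, 55), [17549302, 24020974], 11⟩,
  ⟨⟨-61, -48, 25, -44, 55, 32, -22, -8, -55⟩, (.cons (nat_lit 15199268) (nat_lit 4435706) (nat_lit 27880630)
 (nat_lit 1) (.cons (nat_lit 6271889) (nat_lit 7686182) (nat_lit 16540640) (nat_lit 1) .nil)), (nat_lit 29),
 (nat_lit 20), (nat_lit 9), (nat_lit 1), (9, 3, 37), [39049659, 22761599], 5⟩,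
  mz,
  mz,
  ⟨⟨17, -24, 72, -36, 55, 48, 54, 24, -1⟩, (.cons (nat_lit 40353606) (nat_lit 29602569) (nat_lit 39181570)
 (nat_lit 1) (.cons (nat_lit 9088212) (nat_lit 1486220) (nat_lit 3878333) (nat_lit 1) .nil)), (nat_lit 30),
 (nat_lit 9), (nat_lit 19), (nat_lit 1), (28, 66, 43), [33774983, 17028542], 29⟩,
  ⟨⟨-61, 48, 25, 44, 55, -32, -22, 8, -55⟩, (.cons (nat_lit 19267760) (nat_lit 39040850) (nat_lit 1) (nat_lit
 37788506) (.cons (nat_lit 3652723) (nat_lit 12157983) (nat_lit 4018629) (nat_lit 1) .nil)), (nat_lit 8),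
 (nat_lit 11), (nat_lit 22), (nat_lit 1), (13, 43, 14), [194976, 9765772], 2⟩,
  ⟨⟨-39, 40, -41, 44, 55, -12, 22, -8, -77⟩, (.cons (nat_lit 22241345) (nat_lit 2923786) (nat_lit 2853738)
 (nat_lit 1) (.cons (nat_lit 14495468) (nat_lit 9396165) (nat_lit 2244716) (nat_lit 1) .nil)), (nat_lit 4),
 (nat_lit 18), (nat_lit 5), (nat_lit 1), (2, 56, 28), [6970269, 13223009], 1⟩,
  mz,
  ⟨⟨51, -4, 40, -10, 69, 20, 60, 12, -49⟩, (.cons (nat_lit 40353606) (nat_lit 3969068) (nat_lit 32037064)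
 (nat_lit 1) (.cons (nat_lit 8161405) (nat_lit 5738787) (nat_lit 1) (nat_lit 2748339) .nil)), (nat_lit 30),
 (nat_lit 16), (nat_lit 25), (nat_lit 1), (60, 30, 33), [11602656, 4432529], 13⟩,
  mz,
  mz,
  ⟨⟨-13, -72, 36, 70, -11, -30, -4, -44, -49⟩, (.cons (nat_lit 23248235) (nat_lit 14506406) (nat_lit 38779829)
 (nat_lit 1) (.cons (nat_lit 15855782) (nat_lit 18995683) (nat_lit 1) (nat_lit 2553941) .nil)), (nat_lit 28),
 (nat_lit 4), (nat_lit 5), (nat_lit 1), (29, 35, 69), [13639979, 20693009], 21⟩,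
  mz,
  ⟨⟨-11, 72, -25, 50, -11, -80, -44, 4, -29⟩, (.cons (nat_lit 20828719) (nat_lit 39629278) (nat_lit 22164295)
 (nat_lit 1) (.cons (nat_lit 12407002) (nat_lit 24376873) (nat_lit 14098317) (nat_lit 1) .nil)), (nat_lit 15),
 (nat_lit 26), (nat_lit 25), (nat_lit 1), (44, 13, 34), [35763684, 14269590], 20⟩,
  mz,
  ⟨⟨-29, -72, 20, -56, 25, 68, -38, -16, -35⟩, (.cons (nat_lit 37705897) (nat_lit 14535750) (nat_lit 7866378)
 (nat_lit 1) (.cons (nat_lit 23585245) (nat_lit 22731201) (nat_lit 2745648) (nat_lit 1) .nil)), (nat_lit 13),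
 (nat_lit 29), (nat_lit 1), (nat_lit 0), (27, 35, 6), [8731683, 23320108], 18⟩,
  ⟨⟨75, 20, -32, -10, 21, 80, 12, 60, -25⟩, (.cons (nat_lit 40353606) (nat_lit 35689747) (nat_lit 1721839)
 (nat_lit 1) (.cons (nat_lit 15359465) (nat_lit 9745398) (nat_lit 19884213) (nat_lit 1) .nil)), (nat_lit 30),
 (nat_lit 18), (nat_lit 7), (nat_lit 1), (30, 67, 19), [4623326, 10903580], 27⟩,
  mz,
  ⟨⟨3, -40, -76, -64, 25, 12, 26, 32, -67⟩, (.cons (nat_lit 22526927) (nat_lit 13743834) (nat_lit 36409192)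
 (nat_lit 1) (.cons (nat_lit 11498147) (nat_lit 9235268) (nat_lit 8778192) (nat_lit 1) .nil)), (nat_lit 0),
 (nat_lit 24), (nat_lit 19), (nat_lit 1), (58, 17, 53), [11527849, 10429235], 19⟩,
  mz,
  ⟨⟨17, -24, -89, 36, -55, 12, 54, 24, -53⟩, (.cons (nat_lit 2609223) (nat_lit 30475681) (nat_lit 38750878)
 (nat_lit 1) (.cons (nat_lit 12534630) (nat_lit 900075) (nat_lit 21681832) (nat_lit 1) .nil)), (nat_lit 29),
 (nat_lit 8), (nat_lit 9), (nat_lit 1), (5, 44, 66), [13895024, 6215286], 15⟩,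
  ⟨⟨-23, -72, 32, 64, -25, -52, -26, -32, -41⟩, (.cons (nat_lit 36946213) (nat_lit 38470870) (nat_lit 39589994)
 (nat_lit 1) (.cons (nat_lit 11744953) (nat_lit 12433497) (nat_lit 9872230) (nat_lit 1) .nil)), (nat_lit 9),
 (nat_lit 16), (nat_lit 30), (nat_lit 1), (21, 28, 33), [36273715, 8080566], 23⟩,
  mz,
  mz,
  ⟨⟨75, 16, -52, 4, -55, -52, 10, 40, -59⟩, (.cons (nat_lit 6062970) (nat_lit 39049004) (nat_lit 1666472)
 (nat_lit 1) (.cons (nat_lit 14668271) (nat_lit 20528607) (nat_lit 9658954) (nat_lit 1) .nil)), (nat_lit 29),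
 (nat_lit 8), (nat_lit 18), (nat_lit 1), (5, 5, 48), [5056241, 469455], 19⟩,
  ⟨⟨11, -72, -36, 50, -11, 30, 44, -4, -73⟩, (.cons (nat_lit 8044620) (nat_lit 20274680) (nat_lit 2621732)
 (nat_lit 1) (.cons (nat_lit 20835514) (nat_lit 15621287) (nat_lit 5304441) (nat_lit 1) .nil)), (nat_lit 14),
 (nat_lit 8), (nat_lit 23), (nat_lit 1), (69, 49, 63), [8478648, 19112063], 11⟩,
  ⟨⟨-39, -40, -41, -44, 55, 12, 22, 8, -77⟩, (.cons (nat_lit 28310995) (nat_lit 4341927) (nat_lit 1) (nat_lit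
 29943109) (.cons (nat_lit 3914650) (nat_lit 11224922) (nat_lit 14987655) (nat_lit 1) .nil)), (nat_lit 15),
 (nat_lit 10), (nat_lit 20), (nat_lit 1), (46, 61, 5), [11321427, 9764011], 9⟩,
  mz,
  ⟨⟨51, 52, -56, -44, 15, -38, 42, -24, -67⟩, (.cons (nat_lit 15061261) (nat_lit 26648098) (nat_lit 17766239)
 (nat_lit 1) (.cons (nat_lit 8736094) (nat_lit 17176897) (nat_lit 20721628) (nat_lit 1) .nil)), (nat_lit 21),
 (nat_lit 2), (nat_lit 19), (nat_lit 1), (52, 15, 47), [32977178, 2474823], 29⟩,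
  ⟨⟨9, -16, 80, -10, -69, -10, 60, -12, -11⟩, (.cons (nat_lit 40353606) (nat_lit 10379637) (nat_lit 28244864)
 (nat_lit 1) (.cons (nat_lit 13312123) (nat_lit 11384614) (nat_lit 7312001) (nat_lit 1) .nil)), (nat_lit 30),
 (nat_lit 16), (nat_lit 19), (nat_lit 1), (33, 58, 7), [22359356, 506377], 14⟩,
  ⟨⟨51, 4, 40, 10, 69, -20, 60, -12, -49⟩, (.cons (nat_lit 40353606) (nat_lit 24838549) (nat_lit 5272464)
 (nat_lit 1) (.cons (nat_lit 16195517) (nat_lit 6927046) (nat_lit 23631449) (nat_lit 1) .nil)), (nat_lit 30),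
 (nat_lit 25), (nat_lit 1), (nat_lit 1), (13, 29, 32), [3509641, 15405491], 17⟩,
  ⟨⟨9, -56, -64, -56, 25, -12, 38, 16, -73⟩, (.cons (nat_lit 16569304) (nat_lit 26839311) (nat_lit 3198177)
 (nat_lit 1) (.cons (nat_lit 23653989) (nat_lit 24861180) (nat_lit 21281576) (nat_lit 1) .nil)), (nat_lit 0),
 (nat_lit 25), (nat_lit 17), (nat_lit 1), (4, 54, 9), [20090487, 5232135], 19⟩,
  ⟨⟨65, 24, -72, 4, 55, 48, -10, 40, -49⟩, (.cons (nat_lit 40353606) (nat_lit 9822244) (nat_lit 23488125)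
 (nat_lit 1) (.cons (nat_lit 22883187) (nat_lit 18181005) (nat_lit 16721141) (nat_lit 1) .nil)), (nat_lit 30),
 (nat_lit 17), (nat_lit 28), (nat_lit 1), (39, 45, 65), [3620458, 19346476], 15⟩,
  ⟨⟨9, -76, -20, 44, 15, -82, -42, -24, -25⟩, (.cons (nat_lit 32135276) (nat_lit 13409381) (nat_lit 21217321)
 (nat_lit 1) (.cons (nat_lit 23868292) (nat_lit 390859) (nat_lit 12737451) (nat_lit 1) .nil)), (nat_lit 22),
 (nat_lit 29), (nat_lit 24), (nat_lit 1), (1, 68, 19), [1341273, 19420683], 21⟩,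
  mz,
  ⟨⟨-9, 28, -76, 70, 11, -40, 4, -44, -53⟩, (.cons (nat_lit 15588086) (nat_lit 6587183) (nat_lit 19954170)
 (nat_lit 1) (.cons (nat_lit 23018024) (nat_lit 1574902) (nat_lit 19231458) (nat_lit 1) .nil)), (nat_lit 7),
 (nat_lit 21), (nat_lit 9), (nat_lit 1), (34, 59, 48), [13430947, 10289507], 5⟩,
  ⟨⟨9, 16, 80, -10, 69, -10, 60, 12, -11⟩, (.cons (nat_lit 22756673) (nat_lit 29911502) (nat_lit 15103754)
 (nat_lit 1) (.cons (nat_lit 7016208) (nat_lit 2447189) (nat_lit 7473851) (nat_lit 1) .nil)), (nat_lit 0),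
 (nat_lit 18), (nat_lit 27), (nat_lit 1), (58, 46, 8), [22551637, 14008967], 3⟩,
  ⟨⟨75, -20, -32, 10, 21, -80, 12, -60, -25⟩, (.cons (nat_lit 40353606) (nat_lit 38979941) (nat_lit 39851062)
 (nat_lit 1) (.cons (nat_lit 21219829) (nat_lit 22655989) (nat_lit 5006122) (nat_lit 1) .nil)), (nat_lit 30),
 (nat_lit 1), (nat_lit 12), (nat_lit 1), (52, 59, 14), [27930169, 14756622], 24⟩,
  mz,
  ⟨⟨-11, -72, -25, 50, 11, -80, -44, -4, -29⟩, (.cons (nat_lit 2874965) (nat_lit 12383397) (nat_lit 5273985)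
 (nat_lit 1) (.cons (nat_lit 4036949) (nat_lit 1612015) (nat_lit 21865543) (nat_lit 1) .nil)), (nat_lit 17),
 (nat_lit 6), (nat_lit 5), (nat_lit 1), (38, 8, 10), [24103953, 2190974], 24⟩,
  ⟨⟨63, -40, -56, -10, 21, -70, -12, -60, -13⟩, (.cons (nat_lit 40353606) (nat_lit 27296374) (nat_lit 27132386)
 (nat_lit 1) (.cons (nat_lit 13124141) (nat_lit 10046469) (nat_lit 9865193) (nat_lit 1) .nil)), (nat_lit 30),
 (nat_lit 19), (nat_lit 5), (nat_lit 1), (4, 5, 6), [4394139, 9233348], 27⟩,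
  mz,
  mz,
  mz,
  ⟨⟨33, -68, -37, -50, -11, -30, 44, 4, -73⟩, (.cons (nat_lit 1553225) (nat_lit 17912353) (nat_lit 22090545)
 (nat_lit 1) (.cons (nat_lit 12563849) (nat_lit 13948659) (nat_lit 21859588) (nat_lit 1) .nil)), (nat_lit 16),
 (nat_lit 24), (nat_lit 5), (nat_lit 1), (12, 27, 16), [11911688, 13293766], 25⟩,
  mz,
  ⟨⟨-13, 72, 36, -70, -11, 30, -4, 44, -49⟩, (.cons (nat_lit 4626347) (nat_lit 17348805) (nat_lit 1329379)
 (nat_lit 1) (.cons (nat_lit 24830756) (nat_lit 7917185) (nat_lit 19155970) (nat_lit 1) .nil)), (nat_lit 20),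
 (nat_lit 26), (nat_lit 5), (nat_lit 1), (35, 41, 49), [16445728, 25084881], 29⟩,
  ⟨⟨75, -16, -52, 4, 55, -52, 10, -40, -59⟩, (.cons (nat_lit 40353606) (nat_lit 27178423) (nat_lit 28925973)
 (nat_lit 1) (.cons (nat_lit 11266956) (nat_lit 24683539) (nat_lit 24803122) (nat_lit 1) .nil)), (nat_lit 30),
 (nat_lit 14), (nat_lit 3), (nat_lit 1), (51, 51, 21), [12018582, 2618825], 15⟩,
  mz,
  ⟨⟨-27, -68, 43, 64, -15, -2, 6, -48, -49⟩, (.cons (nat_lit 31097204) (nat_lit 37538029) (nat_lit 32875242)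
 (nat_lit 1) (.cons (nat_lit 10253048) (nat_lit 24260685) (nat_lit 19286469) (nat_lit 1) .nil)), (nat_lit 6),
 (nat_lit 10), (nat_lit 16), (nat_lit 1), (60, 55, 34), [16458665, 19951550], 22⟩,
  ⟨⟨13, 72, 23, 70, -11, -40, 4, 44, -53⟩, (.cons (nat_lit 20157783) (nat_lit 40253652) (nat_lit 36065685)
 (nat_lit 1) (.cons (nat_lit 8221869) (nat_lit 18203907) (nat_lit 7691922) (nat_lit 1) .nil)), (nat_lit 15),
 (nat_lit 28), (nat_lit 21), (nat_lit 1), (20, 64, 28), [6515017, 13541919], 20⟩,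
  ⟨⟨-23, 72, 32, 64, 25, -52, -26, 32, -41⟩, (.cons (nat_lit 37760523) (nat_lit 4101994) (nat_lit 22318575)
 (nat_lit 1) (.cons (nat_lit 9047709) (nat_lit 17368815) (nat_lit 11049736) (nat_lit 1) .nil)), (nat_lit 26),
 (nat_lit 19), (nat_lit 15), (nat_lit 1), (27, 36, 12), [16580848, 20008534], 25⟩,
  ⟨⟨37, -48, -73, 36, 55, -48, 54, -24, -1⟩, (.cons (nat_lit 20102622) (nat_lit 21781944) (nat_lit 9061712)
 (nat_lit 1) (.cons (nat_lit 16139595) (nat_lit 3496366) (nat_lit 19922976) (nat_lit 1) .nil)), (nat_lit 15),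
 (nat_lit 4), (nat_lit 20), (nat_lit 1), (11, 51, 41), [36639831, 17369640], 4⟩]

/-- Moves. -/
noncomputable def t1_3 : List Mv := [
  mz,
  ⟨⟨63, 40, -56, -10, -21, -70, -12, 60, -13⟩, (.cons (nat_lit 30526419) (nat_lit 33396236) (nat_lit 37598614)
 (nat_lit 1) (.cons (nat_lit 23455902) (nat_lit 17463070) (nat_lit 1) (nat_lit 22382040) .nil)), (nat_lit 17),
 (nat_lit 26), (nat_lit 25), (nat_lit 1), (31, 21, 11), [4828758, 23711818], 7⟩,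
  mz,
  ⟨⟨65, -24, -72, -4, 55, -48, -10, -40, -49⟩, (.cons (nat_lit 40353606) (nat_lit 30713124) (nat_lit 40298679)
 (nat_lit 1) (.cons (nat_lit 19071543) (nat_lit 14234576) (nat_lit 14827765) (nat_lit 1) .nil)), (nat_lit 30),
 (nat_lit 22), (nat_lit 26), (nat_lit 1), (37, 1, 38), [34335394, 22101516], 11⟩,
  ⟨⟨27, 68, 16, 64, -15, -62, -6, 48, -43⟩, (.cons (nat_lit 26785679) (nat_lit 6964929) (nat_lit 24507071)
 (nat_lit 1) (.cons (nat_lit 2338641) (nat_lit 3232467) (nat_lit 10640152) (nat_lit 1) .nil)), (nat_lit 21),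
 (nat_lit 10), (nat_lit 25), (nat_lit 1), (60, 16, 34), [24026000, 10006727], 16⟩,
  ⟨⟨27, -68, 16, 64, 15, -62, -6, -48, -43⟩, (.cons (nat_lit 31315756) (nat_lit 34632259) (nat_lit 4515109)
 (nat_lit 1) (.cons (nat_lit 14436313) (nat_lit 12335421) (nat_lit 13733103) (nat_lit 1) .nil)), (nat_lit 3),
 (nat_lit 25), (nat_lit 5), (nat_lit 1), (7, 35, 30), [37537121, 1072123], 13⟩,
  mz,
  ⟨⟨-29, 72, 20, 56, 25, -68, -38, 16, -35⟩, (.cons (nat_lit 28080237) (nat_lit 8871994) (nat_lit 31910141)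
 (nat_lit 1) (.cons (nat_lit 10822884) (nat_lit 1507447) (nat_lit 12237693) (nat_lit 1) .nil)), (nat_lit 26),
 (nat_lit 23), (nat_lit 7), (nat_lit 1), (33, 44, 31), [15324894, 23280106], 25⟩,
  ⟨⟨3, 40, -76, 64, 25, -12, 26, -32, -67⟩, (.cons (nat_lit 37122335) (nat_lit 18079463) (nat_lit 19131162)
 (nat_lit 1) (.cons (nat_lit 17133532) (nat_lit 17207597) (nat_lit 20508952) (nat_lit 1) .nil)), (nat_lit 6),
 (nat_lit 17), (nat_lit 20), (nat_lit 1), (14, 62, 3), [39655226, 13037207], 1⟩,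
  mz,
  mz,
  ⟨⟨-27, 68, 43, 64, 15, -2, 6, 48, -49⟩, (.cons (nat_lit 13795665) (nat_lit 31744438) (nat_lit 31859755)
 (nat_lit 1) (.cons (nat_lit 5067300) (nat_lit 245757) (nat_lit 21402739) (nat_lit 1) .nil)), (nat_lit 10),
 (nat_lit 8), (nat_lit 26), (nat_lit 1), (42, 3, 38), [36121711, 19754024], 16⟩,
  ⟨⟨9, 76, -20, 44, -15, -82, -42, 24, -25⟩, (.cons (nat_lit 29765838) (nat_lit 14003677) (nat_lit 8058263)
 (nat_lit 1) (.cons (nat_lit 8602149) (nat_lit 22875120) (nat_lit 14551059) (nat_lit 1) .nil)), (nat_lit 21),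
 (nat_lit 28), (nat_lit 20), (nat_lit 1), (31, 49, 21), [38425098, 3891540], 16⟩,
  mz,
  mz,
  ⟨⟨-9, 76, -11, -44, -15, -38, 42, 24, -67⟩, (.cons (nat_lit 18088192) (nat_lit 1850949) (nat_lit 9222847)
 (nat_lit 1) (.cons (nat_lit 4715657) (nat_lit 1928413) (nat_lit 21356184) (nat_lit 1) .nil)), (nat_lit 26),
 (nat_lit 19), (nat_lit 18), (nat_lit 1), (25, 67, 49), [9519025, 21092642], 23⟩,
  ⟨⟨37, -48, 36, -36, -55, -12, 54, -24, -53⟩, (.cons (nat_lit 40353606) (nat_lit 12707993) (nat_lit 8786084)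
 (nat_lit 1) (.cons (nat_lit 20124520) (nat_lit 12963851) (nat_lit 2846017) (nat_lit 1) .nil)), (nat_lit 30),
 (nat_lit 19), (nat_lit 11), (nat_lit 1), (57, 52, 64), [27493882, 1083677], 1⟩,
  mz,
  ⟨⟨29, -72, -9, -56, -25, -12, 38, -16, -73⟩, (.cons (nat_lit 34475926) (nat_lit 23030587) (nat_lit 15100749)
 (nat_lit 1) (.cons (nat_lit 12782582) (nat_lit 20913428) (nat_lit 15490162) (nat_lit 1) .nil)), (nat_lit 20),
 (nat_lit 17), (nat_lit 13), (nat_lit 1), (70, 46, 55), [914698, 3637654], 20⟩,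
  ⟨⟨39, 40, -80, 44, -55, -32, -22, -8, -55⟩, (.cons (nat_lit 40353606) (nat_lit 21210937) (nat_lit 5047840)
 (nat_lit 1) (.cons (nat_lit 13611479) (nat_lit 25316420) (nat_lit 18103337) (nat_lit 1) .nil)), (nat_lit 30),
 (nat_lit 24), (nat_lit 3), (nat_lit 1), (28, 68, 37), [31935588, 17278052], 25⟩,
  mz,
  mz,
  ⟨⟨17, -24, 72, 36, -55, -48, 54, 24, -1⟩, (.cons (nat_lit 25200598) (nat_lit 3316015) (nat_lit 31873676)
 (nat_lit 1) (.cons (nat_lit 8656205) (nat_lit 4264002) (nat_lit 8449541) (nat_lit 1) .nil)), (nat_lit 12),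
 (nat_lit 17), (nat_lit 17), (nat_lit 1), (28, 5, 43), [14066070, 8136690], 18⟩,
  ⟨⟨39, -40, -80, 44, 55, -32, -22, 8, -55⟩, (.cons (nat_lit 17109854) (nat_lit 5334957) (nat_lit 1) (nat_lit
 6541094) (.cons (nat_lit 18124959) (nat_lit 15648998) (nat_lit 21296286) (nat_lit 1) .nil)), (nat_lit 8),
 (nat_lit 3), (nat_lit 18), (nat_lit 1), (1, 43, 14), [40292677, 13376371], 11⟩,
  ⟨⟨-39, 40, -41, 44, 55, -12, 22, -8, -77⟩, (.cons (nat_lit 22241345) (nat_lit 2923786) (nat_lit 2853738)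
 (nat_lit 1) (.cons (nat_lit 14495468) (nat_lit 9396165) (nat_lit 2244716) (nat_lit 1) .nil)), (nat_lit 4),
 (nat_lit 18), (nat_lit 5), (nat_lit 1), (2, 56, 28), [6970269, 13223009], 1⟩,
  mz,
  ⟨⟨51, -4, 40, 10, -69, -20, 60, 12, -49⟩, (.cons (nat_lit 27415651) (nat_lit 19557845) (nat_lit 29229043)
 (nat_lit 1) (.cons (nat_lit 19362272) (nat_lit 17138793) (nat_lit 21029141) (nat_lit 1) .nil)), (nat_lit 6),
 (nat_lit 12), (nat_lit 1), (nat_lit 0), (60, 41, 33), [4992744, 25123588], 16⟩,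
  mz,
  mz,
  ⟨⟨-13, -72, 36, 70, -11, -30, -4, -44, -49⟩, (.cons (nat_lit 23248235) (nat_lit 14506406) (nat_lit 38779829)
 (nat_lit 1) (.cons (nat_lit 15855782) (nat_lit 18995683) (nat_lit 1) (nat_lit 2553941) .nil)), (nat_lit 28),
 (nat_lit 4), (nat_lit 5), (nat_lit 1), (29, 35, 69), [13639979, 20693009], 21⟩,
  mz,
  ⟨⟨-33, -68, -4, 50, -11, -80, -44, 4, -29⟩, (.cons (nat_lit 9180925) (nat_lit 34874445) (nat_lit 10404505)
 (nat_lit 1) (.cons (nat_lit 14749038) (nat_lit 1995709) (nat_lit 21234913) (nat_lit 1) .nil)), (nat_lit 20),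
 (nat_lit 18), (nat_lit 21), (nat_lit 1), (61, 13, 34), [5148498, 13010794], 29⟩,
  mz,
  ⟨⟨-29, -72, 20, 56, -25, -68, -38, -16, -35⟩, (.cons (nat_lit 1654434) (nat_lit 19157403) (nat_lit 13615715)
 (nat_lit 1) (.cons (nat_lit 16218424) (nat_lit 14318191) (nat_lit 18958389) (nat_lit 1) .nil)), (nat_lit 12),
 (nat_lit 16), (nat_lit 17), (nat_lit 1), (27, 36, 6), [2980874, 5865947], 15⟩,
  ⟨⟨-63, 40, 7, -10, 21, 80, 12, 60, -25⟩, (.cons (nat_lit 3369794) (nat_lit 31888498) (nat_lit 19917457)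
 (nat_lit 1) (.cons (nat_lit 238905) (nat_lit 23217771) (nat_lit 23964691) (nat_lit 1) .nil)), (nat_lit 19),
 (nat_lit 26), (nat_lit 15), (nat_lit 1), (60, 67, 19), [24924446, 14068611], 9⟩,
  mz,
  ⟨⟨3, -40, -76, 64, -25, -12, 26, 32, -67⟩, (.cons (nat_lit 10700583) (nat_lit 33437451) (nat_lit 9593259)
 (nat_lit 1) (.cons (nat_lit 3786345) (nat_lit 16639266) (nat_lit 21351260) (nat_lit 1) .nil)), (nat_lit 7),
 (nat_lit 19), (nat_lit 24), (nat_lit 1), (58, 54, 53), [15085267, 13984265], 11⟩,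
  mz,
  ⟨⟨37, 48, 36, -36, 55, -12, 54, 24, -53⟩, (.cons (nat_lit 27817403) (nat_lit 34760391) (nat_lit 17238455)
 (nat_lit 1) (.cons (nat_lit 2115457) (nat_lit 5727923) (nat_lit 20910903) (nat_lit 1) .nil)), (nat_lit 13),
 (nat_lit 29), (nat_lit 23), (nat_lit 1), (61, 27, 66), [26598787, 13023268], 27⟩,
  ⟨⟨-23, -72, 32, -64, 25, 52, -26, -32, -41⟩, (.cons (nat_lit 37231507) (nat_lit 21572674) (nat_lit 12602834)
 (nat_lit 1) (.cons (nat_lit 11540357) (nat_lit 16526199) (nat_lit 20353211) (nat_lit 1) .nil)), (nat_lit 20),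
 (nat_lit 27), (nat_lit 1), (nat_lit 0), (21, 43, 33), [21888463, 3588248], 5⟩,
  mz,
  mz,
  ⟨⟨75, 16, -52, -4, 55, 52, 10, 40, -59⟩, (.cons (nat_lit 40353606) (nat_lit 9751135) (nat_lit 33388646)
 (nat_lit 1) (.cons (nat_lit 4301525) (nat_lit 13484958) (nat_lit 1312499) (nat_lit 1) .nil)), (nat_lit 30),
 (nat_lit 13), (nat_lit 13), (nat_lit 1), (5, 66, 48), [36148310, 7888827], 11⟩,
  ⟨⟨11, -72, -36, -50, 11, -30, 44, -4, -73⟩, (.cons (nat_lit 9447793) (nat_lit 33921270) (nat_lit 10550404)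
 (nat_lit 1) (.cons (nat_lit 11361759) (nat_lit 10080610) (nat_lit 23614597) (nat_lit 1) .nil)), (nat_lit 19),
 (nat_lit 13), (nat_lit 21), (nat_lit 1), (69, 22, 63), [36828938, 6446590], 8⟩,
  ⟨⟨-39, -40, -41, 44, -55, -12, 22, 8, -77⟩, (.cons (nat_lit 4959991) (nat_lit 28674870) (nat_lit 38364224)
 (nat_lit 1) (.cons (nat_lit 15706360) (nat_lit 10952460) (nat_lit 6076996) (nat_lit 1) .nil)), (nat_lit 10),
 (nat_lit 12), (nat_lit 25), (nat_lit 1), (46, 10, 5), [23512530, 19145410], 6⟩,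
  mz,
  ⟨⟨-9, -76, -11, -44, 15, -38, 42, -24, -67⟩, (.cons (nat_lit 14733567) (nat_lit 26528529) (nat_lit 7061132)
 (nat_lit 1) (.cons (nat_lit 22517634) (nat_lit 9532521) (nat_lit 18463696) (nat_lit 1) .nil)), (nat_lit 22),
 (nat_lit 15), (nat_lit 3), (nat_lit 1), (66, 15, 47), [22751508, 24428426], 10⟩,
  ⟨⟨9, -16, 80, -10, -69, -10, 60, -12, -11⟩, (.cons (nat_lit 40353606) (nat_lit 10379637) (nat_lit 28244864)
 (nat_lit 1) (.cons (nat_lit 13312123) (nat_lit 11384614) (nat_lit 7312001) (nat_lit 1) .nil)), (nat_lit 30),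
 (nat_lit 16), (nat_lit 19), (nat_lit 1), (33, 58, 7), [22359356, 506377], 14⟩,
  ⟨⟨51, 4, 40, 10, 69, -20, 60, -12, -49⟩, (.cons (nat_lit 40353606) (nat_lit 24838549) (nat_lit 5272464)
 (nat_lit 1) (.cons (nat_lit 16195517) (nat_lit 6927046) (nat_lit 23631449) (nat_lit 1) .nil)), (nat_lit 30),
 (nat_lit 25), (nat_lit 1), (nat_lit 1), (13, 29, 32), [3509641, 15405491], 17⟩,
  ⟨⟨29, 72, -9, -56, 25, -12, 38, 16, -73⟩, (.cons (nat_lit 16636351) (nat_lit 6072120) (nat_lit 30793430)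
 (nat_lit 1) (.cons (nat_lit 17071019) (nat_lit 22622819) (nat_lit 11122220) (nat_lit 1) .nil)), (nat_lit 20),
 (nat_lit 8), (nat_lit 9), (nat_lit 1), (5, 54, 9), [39100884, 8041095], 3⟩,
  ⟨⟨65, 24, -72, -4, -55, -48, -10, 40, -49⟩, (.cons (nat_lit 34286690) (nat_lit 34664433) (nat_lit 25658665)
 (nat_lit 1) (.cons (nat_lit 19741089) (nat_lit 2187581) (nat_lit 17965284) (nat_lit 1) .nil)), (nat_lit 29),
 (nat_lit 9), (nat_lit 16), (nat_lit 1), (39, 26, 65), [37644657, 17288678], 19⟩,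
  ⟨⟨9, -76, -20, 44, 15, -82, -42, -24, -25⟩, (.cons (nat_lit 32135276) (nat_lit 13409381) (nat_lit 21217321)
 (nat_lit 1) (.cons (nat_lit 23868292) (nat_lit 390859) (nat_lit 12737451) (nat_lit 1) .nil)), (nat_lit 22),
 (nat_lit 29), (nat_lit 24), (nat_lit 1), (1, 68, 19), [1341273, 19420683], 21⟩,
  mz,
  ⟨⟨13, -72, 23, -70, -11, 40, 4, -44, -53⟩, (.cons (nat_lit 28890530) (nat_lit 28496186) (nat_lit 35683203)
 (nat_lit 1) (.cons (nat_lit 8154356) (nat_lit 17891731) (nat_lit 3508630) (nat_lit 1) .nil)), (nat_lit 2),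
 (nat_lit 14), (nat_lit 21), (nat_lit 1), (14, 12, 48), [23560848, 10645685], 7⟩,
  ⟨⟨9, 16, 80, -10, 69, -10, 60, 12, -11⟩, (.cons (nat_lit 22756673) (nat_lit 29911502) (nat_lit 15103754)
 (nat_lit 1) (.cons (nat_lit 7016208) (nat_lit 2447189) (nat_lit 7473851) (nat_lit 1) .nil)), (nat_lit 0),
 (nat_lit 18), (nat_lit 27), (nat_lit 1), (58, 46, 8), [22551637, 14008967], 3⟩,
  ⟨⟨-63, -40, 7, -10, -21, 80, 12, -60, -25⟩, (.cons (nat_lit 28516101) (nat_lit 38924160) (nat_lit 1) (nat_lit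
 3005359) (.cons (nat_lit 2873988) (nat_lit 1451496) (nat_lit 4754636) (nat_lit 1) .nil)), (nat_lit 25),
 (nat_lit 15), (nat_lit 30), (nat_lit 1), (33, 12, 14), [9258265, 2523807], 12⟩,
  mz,
  ⟨⟨-33, 68, -4, 50, 11, -80, -44, -4, -29⟩, (.cons (nat_lit 17656322) (nat_lit 6769373) (nat_lit 3552510)
 (nat_lit 1) (.cons (nat_lit 22961212) (nat_lit 8498407) (nat_lit 21198867) (nat_lit 1) .nil)), (nat_lit 9),
 (nat_lit 28), (nat_lit 12), (nat_lit 1), (43, 8, 10), [16220518, 18527782], 2⟩,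
  ⟨⟨63, -40, -56, -10, 21, -70, -12, -60, -13⟩, (.cons (nat_lit 40353606) (nat_lit 27296374) (nat_lit 27132386)
 (nat_lit 1) (.cons (nat_lit 13124141) (nat_lit 10046469) (nat_lit 9865193) (nat_lit 1) .nil)), (nat_lit 30),
 (nat_lit 19), (nat_lit 5), (nat_lit 1), (4, 5, 6), [4394139, 9233348], 27⟩,
  mz,
  mz,
  mz,
  ⟨⟨11, 72, -36, -50, -11, -30, 44, 4, -73⟩, (.cons (nat_lit 12218337) (nat_lit 22372710) (nat_lit 12342009)
 (nat_lit 1) (.cons (nat_lit 6435578) (nat_lit 6376974) (nat_lit 4168498) (nat_lit 1) .nil)), (nat_lit 10),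
 (nat_lit 22), (nat_lit 12), (nat_lit 1), (4, 27, 16), [30039567, 25197485], 23⟩,
  mz,
  ⟨⟨-13, 72, 36, 70, 11, -30, -4, 44, -49⟩, (.cons (nat_lit 18053355) (nat_lit 38986863) (nat_lit 15820498)
 (nat_lit 1) (.cons (nat_lit 10591511) (nat_lit 23391675) (nat_lit 21523246) (nat_lit 1) .nil)), (nat_lit 9),
 (nat_lit 6), (nat_lit 25), (nat_lit 1), (35, 30, 49), [15534490, 22922958], 2⟩,
  ⟨⟨75, -16, -52, -4, -55, 52, 10, -40, -59⟩, (.cons (nat_lit 24402086) (nat_lit 33685951) (nat_lit 26260697)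
 (nat_lit 1) (.cons (nat_lit 13486898) (nat_lit 17457890) (nat_lit 11624604) (nat_lit 1) .nil)), (nat_lit 15),
 (nat_lit 4), (nat_lit 9), (nat_lit 1), (51, 20, 21), [8418015, 19780911], 28⟩,
  mz,
  ⟨⟨-27, -68, 43, 64, -15, -2, 6, -48, -49⟩, (.cons (nat_lit 31097204) (nat_lit 37538029) (nat_lit 32875242)
 (nat_lit 1) (.cons (nat_lit 10253048) (nat_lit 24260685) (nat_lit 19286469) (nat_lit 1) .nil)), (nat_lit 6),
 (nat_lit 10), (nat_lit 16), (nat_lit 1), (60, 55, 34), [16458665, 19951550], 22⟩,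
  ⟨⟨13, 72, 23, -70, 11, 40, 4, 44, -53⟩, (.cons (nat_lit 20728150) (nat_lit 14835134) (nat_lit 22343705)
 (nat_lit 1) (.cons (nat_lit 21177378) (nat_lit 10662998) (nat_lit 22641869) (nat_lit 1) .nil)), (nat_lit 17),
 (nat_lit 18), (nat_lit 12), (nat_lit 1), (20, 7, 28), [39445307, 1955048], 24⟩,
  ⟨⟨-23, 72, 32, -64, -25, 52, -26, 32, -41⟩, (.cons (nat_lit 255106) (nat_lit 31522941) (nat_lit 33935184)
 (nat_lit 1) (.cons (nat_lit 1127756) (nat_lit 5350195) (nat_lit 21410883) (nat_lit 1) .nil)), (nat_lit 12),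
 (nat_lit 24), (nat_lit 1), (nat_lit 1), (27, 35, 12), [25592925, 21496726], 15⟩,
  ⟨⟨17, 24, 72, 36, 55, -48, 54, -24, -1⟩, (.cons (nat_lit 40353606) (nat_lit 7573361) (nat_lit 19298176)
 (nat_lit 1) (.cons (nat_lit 18432159) (nat_lit 4681861) (nat_lit 11154038) (nat_lit 1) .nil)), (nat_lit 30),
 (nat_lit 21), (nat_lit 7), (nat_lit 1), (30, 51, 41), [14157616, 22737215], 30⟩]

/-- Moves. -/
noncomputable def t4_1 : List Mv := [
  mz,
  ⟨⟨3, 20, 29, -4, 25, -18, 26, 8, -7⟩, (.cons (nat_lit 32164367) (nat_lit 32102896) (nat_lit 2529029) (nat_lit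
 1) (.cons (nat_lit 11387945) (nat_lit 11646189) (nat_lit 18245043) (nat_lit 1) .nil)), (nat_lit 6), (nat_lit
 0), (nat_lit 0), (nat_lit 0), (26, 17, 29), [25479085, 17403750], 0⟩,
  ⟨⟨23, 12, -36, -4, -25, -18, 26, -8, -7⟩, (.cons (nat_lit 36484861) (nat_lit 24878627) (nat_lit 39166361)
 (nat_lit 1) (.cons (nat_lit 10601595) (nat_lit 8899219) (nat_lit 8892198) (nat_lit 1) .nil)), (nat_lit 28),
 (nat_lit 0), (nat_lit 0), (nat_lit 0), (1, 16, 20), [576178, 2233906], 0⟩,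
  mz,
  ⟨⟨27, 16, -28, -4, -15, -28, -6, 24, -11⟩, (.cons (nat_lit 20261629) (nat_lit 31133041) (nat_lit 8771062)
 (nat_lit 1) (.cons (nat_lit 24427947) (nat_lit 12938966) (nat_lit 18242210) (nat_lit 1) .nil)), (nat_lit 14),
 (nat_lit 0), (nat_lit 0), (nat_lit 0), (15, 15, 7), [38016924, 20388510], 0⟩,
  mz,
  ⟨⟨1, -12, 35, -16, -25, -2, 22, -16, -5⟩, (.cons (nat_lit 9271775) (nat_lit 10667315) (nat_lit 1) (nat_lit
 28054047) (.cons (nat_lit 17123452) (nat_lit 3239316) (nat_lit 9772962) (nat_lit 1) .nil)), (nat_lit 2),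
 (nat_lit 0), (nat_lit 0), (nat_lit 0), (1, 15, 22), [40101793, 2393964], 0⟩,
  mz,
  ⟨⟨-31, 0, 0, -10, -19, 30, -4, -20, -19⟩, (.cons (nat_lit 12164646) (nat_lit 5259980) (nat_lit 2726627)
 (nat_lit 1) (.cons (nat_lit 2475147) (nat_lit 16989087) (nat_lit 18327795) (nat_lit 1) .nil)), (nat_lit 13),
 (nat_lit 0), (nat_lit 0), (nat_lit 0), (0, 26, 29), [14611719, 126726], 0⟩,
  mz,
  mz,
  mz,
  mz,
  ⟨⟨-31, 0, 0, 10, -19, -30, -4, 20, -19⟩, (.cons (nat_lit 32776578) (nat_lit 23167512) (nat_lit 16736214)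
 (nat_lit 1) (.cons (nat_lit 7435160) (nat_lit 7109328) (nat_lit 266938) (nat_lit 1) .nil)), (nat_lit 8),
 (nat_lit 0), (nat_lit 0), (nat_lit 0), (0, 3, 5), [17799591, 15023187], 0⟩,
  ⟨⟨-33, -8, 17, -4, 15, -28, -6, -24, -11⟩, (.cons (nat_lit 14116796) (nat_lit 19533125) (nat_lit 38364224)
 (nat_lit 1) (.cons (nat_lit 22970880) (nat_lit 14475682) (nat_lit 13305282) (nat_lit 1) .nil)), (nat_lit 27),
 (nat_lit 0), (nat_lit 0), (nat_lit 0), (14, 28, 11), [5269835, 17310327], 0⟩,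
  ⟨⟨3, 20, -32, 4, -25, -22, 26, 8, -19⟩, (.cons (nat_lit 14217572) (nat_lit 13654861) (nat_lit 22070972)
 (nat_lit 1) (.cons (nat_lit 12046840) (nat_lit 11024044) (nat_lit 5768151) (nat_lit 1) .nil)), (nat_lit 26),
 (nat_lit 0), (nat_lit 0), (nat_lit 0), (10, 3, 4), [11537028, 13482584], 0⟩,
  mz,
  mz,
  ⟨⟨21, -4, 19, 16, 25, -18, 22, -16, -17⟩, (.cons (nat_lit 37556785) (nat_lit 14293012) (nat_lit 34870043)
 (nat_lit 1) (.cons (nat_lit 22939937) (nat_lit 19148580) (nat_lit 17097863) (nat_lit 1) .nil)), (nat_lit 23),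
 (nat_lit 0), (nat_lit 0), (nat_lit 0), (7, 26, 28), [7407119, 19375968], 0⟩,
  ⟨⟨-9, 8, -31, -10, -29, 0, 20, -4, -31⟩, (.cons (nat_lit 19128614) (nat_lit 5587998) (nat_lit 36008619)
 (nat_lit 1) (.cons (nat_lit 24212753) (nat_lit 6588761) (nat_lit 10127404) (nat_lit 1) .nil)), (nat_lit 20),
 (nat_lit 0), (nat_lit 0), (nat_lit 0), (2, 16, 30), [39465156, 11792647], 0⟩,
  ⟨⟨-29, -12, 29, 10, -29, -10, -20, -4, -11⟩, (.cons (nat_lit 22264677) (nat_lit 1913587) (nat_lit 11974169)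
 (nat_lit 1) (.cons (nat_lit 22097430) (nat_lit 16604410) (nat_lit 19514045) (nat_lit 1) .nil)), (nat_lit 19),
 (nat_lit 0), (nat_lit 0), (nat_lit 0), (6, 30, 2), [7258331, 2477558], 0⟩,
  ⟨⟨-27, 16, -1, 4, -15, -32, 6, 24, -17⟩, (.cons (nat_lit 9159805) (nat_lit 16918148) (nat_lit 34594148)
 (nat_lit 1) (.cons (nat_lit 12308328) (nat_lit 2759471) (nat_lit 14700589) (nat_lit 1) .nil)), (nat_lit 14),
 (nat_lit 0), (nat_lit 0), (nat_lit 0), (2, 2, 3), [13204395, 18064734], 0⟩,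
  ⟨⟨-29, 12, 29, 10, 29, -10, -20, 4, -11⟩, (.cons (nat_lit 8237471) (nat_lit 12306891) (nat_lit 12265037)
 (nat_lit 1) (.cons (nat_lit 7142884) (nat_lit 10266694) (nat_lit 2458088) (nat_lit 1) .nil)), (nat_lit 19),
 (nat_lit 0), (nat_lit 0), (nat_lit 0), (4, 20, 22), [22965998, 12195182], 0⟩,
  ⟨⟨23, 12, 13, 4, 25, -22, 26, -8, -19⟩, (.cons (nat_lit 14378396) (nat_lit 3358856) (nat_lit 1) (nat_lit
 7847840) (.cons (nat_lit 4482470) (nat_lit 23286057) (nat_lit 6290512) (nat_lit 1) .nil)), (nat_lit 18),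
 (nat_lit 0), (nat_lit 0), (nat_lit 0), (23, 4, 26), [32001240, 17282905], 0⟩,
  ⟨⟨-9, -8, -31, -10, 29, 0, 20, 4, -31⟩, (.cons (nat_lit 13481465) (nat_lit 161208) (nat_lit 40278818)
 (nat_lit 1) (.cons (nat_lit 10372421) (nat_lit 18994068) (nat_lit 5178199) (nat_lit 1) .nil)), (nat_lit 20),
 (nat_lit 0), (nat_lit 0), (nat_lit 0), (24, 6, 19), [13419783, 9922733], 0⟩,
  ⟨⟨31, 0, -31, -10, 19, -20, 4, -20, -23⟩, (.cons (nat_lit 30921157) (nat_lit 9947874) (nat_lit 31851388)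
 (nat_lit 1) (.cons (nat_lit 4485913) (nat_lit 23384087) (nat_lit 12433922) (nat_lit 1) .nil)), (nat_lit 8),
 (nat_lit 0), (nat_lit 0), (nat_lit 0), (0, 22, 16), [9131316, 22421476], 0⟩,
  ⟨⟨21, 4, -40, -16, 25, -2, 22, 16, -5⟩, (.cons (nat_lit 31425334) (nat_lit 26997003) (nat_lit 1555995)
 (nat_lit 1) (.cons (nat_lit 2352661) (nat_lit 9362903) (nat_lit 19869576) (nat_lit 1) .nil)), (nat_lit 15),
 (nat_lit 0), (nat_lit 0), (nat_lit 0), (10, 16, 9), [39973600, 10267116], 0⟩,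
  ⟨⟨-27, -16, -1, 4, 15, -32, 6, -24, -17⟩, (.cons (nat_lit 4768149) (nat_lit 885301) (nat_lit 34639826)
 (nat_lit 1) (.cons (nat_lit 16667653) (nat_lit 7784329) (nat_lit 18290578) (nat_lit 1) .nil)), (nat_lit 14),
 (nat_lit 0), (nat_lit 0), (nat_lit 0), (15, 15, 7), [35263869, 22436960], 0⟩,
  ⟨⟨1, 12, -36, -16, 25, 18, 22, 16, -17⟩, (.cons (nat_lit 29035491) (nat_lit 29503774) (nat_lit 1) (nat_lit
 24118976) (.cons (nat_lit 23772692) (nat_lit 1624254) (nat_lit 5773978) (nat_lit 1) .nil)), (nat_lit 2),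
 (nat_lit 0), (nat_lit 0), (nat_lit 0), (19, 6, 15), [2994883, 7968437], 0⟩,
  ⟨⟨31, 0, -31, -10, -19, -20, 4, 20, -23⟩, (.cons (nat_lit 12294980) (nat_lit 23752341) (nat_lit 18281174)
 (nat_lit 1) (.cons (nat_lit 8637507) (nat_lit 21097502) (nat_lit 23795410) (nat_lit 1) .nil)), (nat_lit 8),
 (nat_lit 0), (nat_lit 0), (nat_lit 0), (0, 20, 23), [38772893, 15722747], 0⟩]

/-- Moves. -/
noncomputable def t4_3 : List Mv := [
  mz,
  ⟨⟨3, 20, 29, -4, 25, -18, 26, 8, -7⟩, (.cons (nat_lit 32164367) (nat_lit 32102896) (nat_lit 2529029) (nat_lit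
 1) (.cons (nat_lit 11387945) (nat_lit 11646189) (nat_lit 18245043) (nat_lit 1) .nil)), (nat_lit 6), (nat_lit
 0), (nat_lit 0), (nat_lit 0), (26, 17, 29), [25479085, 17403750], 0⟩,
  ⟨⟨3, -20, 29, -4, -25, -18, 26, -8, -7⟩, (.cons (nat_lit 11553871) (nat_lit 20145716) (nat_lit 34800251)
 (nat_lit 1) (.cons (nat_lit 3973139) (nat_lit 1343146) (nat_lit 17040454) (nat_lit 1) .nil)), (nat_lit 6),
 (nat_lit 0), (nat_lit 0), (nat_lit 0), (19, 16, 20), [13168156, 15529691], 0⟩,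
  mz,
  ⟨⟨-33, 8, 17, 4, 15, 28, -6, 24, -11⟩, (.cons (nat_lit 15479605) (nat_lit 2038868) (nat_lit 14434936)
 (nat_lit 1) (.cons (nat_lit 16889517) (nat_lit 17681798) (nat_lit 19280178) (nat_lit 1) .nil)), (nat_lit 21),
 (nat_lit 0), (nat_lit 0), (nat_lit 0), (23, 16, 7), [10489497, 17002187], 0⟩,
  mz,
  ⟨⟨1, -12, 35, -16, -25, -2, 22, -16, -5⟩, (.cons (nat_lit 9271775) (nat_lit 10667315) (nat_lit 1) (nat_lit
 28054047) (.cons (nat_lit 17123452) (nat_lit 3239316) (nat_lit 9772962) (nat_lit 1) .nil)), (nat_lit 2),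
 (nat_lit 0), (nat_lit 0), (nat_lit 0), (1, 15, 22), [40101793, 2393964], 0⟩,
  mz,
  ⟨⟨27, -20, -19, -10, -19, 30, -4, -20, -19⟩, (.cons (nat_lit 15846134) (nat_lit 35561325) (nat_lit 21446300)
 (nat_lit 1) (.cons (nat_lit 21839565) (nat_lit 13639600) (nat_lit 1012083) (nat_lit 1) .nil)), (nat_lit 29),
 (nat_lit 0), (nat_lit 0), (nat_lit 0), (29, 26, 29), [4953147, 11870883], 0⟩,
  mz,
  mz,
  mz,
  mz,
  ⟨⟨27, 20, -19, -10, 19, 30, -4, 20, -19⟩, (.cons (nat_lit 3666244) (nat_lit 18421602) (nat_lit 30855787)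
 (nat_lit 1) (.cons (nat_lit 13757875) (nat_lit 17477696) (nat_lit 17303919) (nat_lit 1) .nil)), (nat_lit 29),
 (nat_lit 0), (nat_lit 0), (nat_lit 0), (5, 28, 5), [6716029, 6765728], 0⟩,
  ⟨⟨-33, -8, 17, 4, -15, 28, -6, -24, -11⟩, (.cons (nat_lit 30173607) (nat_lit 13534027) (nat_lit 36780973)
 (nat_lit 1) (.cons (nat_lit 8126432) (nat_lit 11519383) (nat_lit 24914272) (nat_lit 1) .nil)), (nat_lit 21),
 (nat_lit 0), (nat_lit 0), (nat_lit 0), (14, 3, 11), [4101017, 24727985], 0⟩,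
  ⟨⟨23, -12, 13, 4, -25, -22, 26, 8, -19⟩, (.cons (nat_lit 33496171) (nat_lit 563819) (nat_lit 6418279)
 (nat_lit 1) (.cons (nat_lit 22207899) (nat_lit 17287599) (nat_lit 3107651) (nat_lit 1) .nil)), (nat_lit 18),
 (nat_lit 0), (nat_lit 0), (nat_lit 0), (25, 3, 4), [23662673, 24586811], 0⟩,
  mz,
  mz,
  ⟨⟨21, -4, 19, 16, 25, -18, 22, -16, -17⟩, (.cons (nat_lit 37556785) (nat_lit 14293012) (nat_lit 34870043)
 (nat_lit 1) (.cons (nat_lit 22939937) (nat_lit 19148580) (nat_lit 17097863) (nat_lit 1) .nil)), (nat_lit 23),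
 (nat_lit 0), (nat_lit 0), (nat_lit 0), (7, 26, 28), [7407119, 19375968], 0⟩,
  ⟨⟨-9, 8, -31, 10, 29, 0, 20, -4, -31⟩, (.cons (nat_lit 4118522) (nat_lit 27444462) (nat_lit 13455146)
 (nat_lit 1) (.cons (nat_lit 7408377) (nat_lit 10235376) (nat_lit 1) (nat_lit 20083273) .nil)), (nat_lit 22),
 (nat_lit 0), (nat_lit 0), (nat_lit 0), (2, 15, 30), [21158182, 13582088], 0⟩,
  ⟨⟨9, 8, -40, 10, -29, -10, -20, -4, -11⟩, (.cons (nat_lit 40353606) (nat_lit 7352761) (nat_lit 22472867)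
 (nat_lit 1) (.cons (nat_lit 25411680) (nat_lit 16630176) (nat_lit 24736672) (nat_lit 1) .nil)), (nat_lit 20),
 (nat_lit 0), (nat_lit 0), (nat_lit 0), (27, 30, 2), [34539249, 6193095], 0⟩,
  ⟨⟨33, 8, -16, 4, -15, -32, 6, 24, -17⟩, (.cons (nat_lit 30795201) (nat_lit 5175700) (nat_lit 22564781)
 (nat_lit 1) (.cons (nat_lit 22185199) (nat_lit 3034083) (nat_lit 23889179) (nat_lit 1) .nil)), (nat_lit 27),
 (nat_lit 0), (nat_lit 0), (nat_lit 0), (1, 2, 3), [9196321, 19717773], 0⟩,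
  ⟨⟨9, -8, -40, 10, 29, -10, -20, 4, -11⟩, (.cons (nat_lit 36006064) (nat_lit 29911502) (nat_lit 16598338)
 (nat_lit 1) (.cons (nat_lit 24020582) (nat_lit 10714654) (nat_lit 16629061) (nat_lit 1) .nil)), (nat_lit 20),
 (nat_lit 0), (nat_lit 0), (nat_lit 0), (18, 20, 22), [36200331, 16963189], 0⟩,
  ⟨⟨23, 12, 13, 4, 25, -22, 26, -8, -19⟩, (.cons (nat_lit 14378396) (nat_lit 3358856) (nat_lit 1) (nat_lit
 7847840) (.cons (nat_lit 4482470) (nat_lit 23286057) (nat_lit 6290512) (nat_lit 1) .nil)), (nat_lit 18),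
 (nat_lit 0), (nat_lit 0), (nat_lit 0), (23, 4, 26), [32001240, 17282905], 0⟩,
  ⟨⟨-9, -8, -31, 10, -29, 0, 20, 4, -31⟩, (.cons (nat_lit 19756815) (nat_lit 7107519) (nat_lit 21451554)
 (nat_lit 1) (.cons (nat_lit 3451927) (nat_lit 7534441) (nat_lit 5756966) (nat_lit 1) .nil)), (nat_lit 22),
 (nat_lit 0), (nat_lit 0), (nat_lit 0), (24, 25, 19), [28350647, 1226640], 0⟩,
  ⟨⟨31, 0, -31, -10, 19, -20, 4, -20, -23⟩, (.cons (nat_lit 30921157) (nat_lit 9947874) (nat_lit 31851388)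
 (nat_lit 1) (.cons (nat_lit 4485913) (nat_lit 23384087) (nat_lit 12433922) (nat_lit 1) .nil)), (nat_lit 8),
 (nat_lit 0), (nat_lit 0), (nat_lit 0), (0, 22, 16), [9131316, 22421476], 0⟩,
  ⟨⟨1, 12, 35, -16, 25, -2, 22, 16, -5⟩, (.cons (nat_lit 30028303) (nat_lit 7822439) (nat_lit 9435223) (nat_lit
 1) (.cons (nat_lit 2742142) (nat_lit 10214943) (nat_lit 21785505) (nat_lit 1) .nil)), (nat_lit 2), (nat_lit
 0), (nat_lit 0), (nat_lit 0), (30, 16, 9), [20606343, 13933074], 0⟩,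
  ⟨⟨33, -8, -16, 4, 15, -32, 6, -24, -17⟩, (.cons (nat_lit 40353606) (nat_lit 36726371) (nat_lit 6005654)
 (nat_lit 1) (.cons (nat_lit 25411680) (nat_lit 18662838) (nat_lit 4917095) (nat_lit 1) .nil)), (nat_lit 27),
 (nat_lit 0), (nat_lit 0), (nat_lit 0), (23, 15, 7), [17307602, 16787434], 0⟩,
  ⟨⟨21, 4, 19, 16, -25, -18, 22, 16, -17⟩, (.cons (nat_lit 36491422) (nat_lit 5241866) (nat_lit 11162450)
 (nat_lit 1) (.cons (nat_lit 9447938) (nat_lit 3197945) (nat_lit 23135412) (nat_lit 1) .nil)), (nat_lit 23),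
 (nat_lit 0), (nat_lit 0), (nat_lit 0), (27, 25, 15), [14914423, 2589699], 0⟩,
  ⟨⟨31, 0, -31, -10, -19, -20, 4, 20, -23⟩, (.cons (nat_lit 12294980) (nat_lit 23752341) (nat_lit 18281174)
 (nat_lit 1) (.cons (nat_lit 8637507) (nat_lit 21097502) (nat_lit 23795410) (nat_lit 1) .nil)), (nat_lit 8),
 (nat_lit 0), (nat_lit 0), (nat_lit 0), (0, 20, 23), [38772893, 15722747], 0⟩]

/-- All the moves. -/
noncomputable def tabs : List (List (List Mv)) := [[[], t0_1, [], t0_3], [[], t1_1, [], t1_3], [], [], [[], t4_1, [], t4_3]]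

/-- Subtrie. -/
noncomputable def T1 : Tr := (.ev (nat_lit 20) (nat_lit 50331666) (.nd (nat_lit 33) (.br (nat_lit 39) (.br
 (nat_lit 19) (.br (nat_lit 8) (.br (nat_lit 4) (.br (nat_lit 3) (.ch (nat_lit 1) (.ev (nat_lit 52) (nat_lit
 202932548) (.ev (nat_lit 212) (nat_lit 16384) (.ev (nat_lit 372) (nat_lit 536870912) (.ev (nat_lit 708)
 (nat_lit 8388608) (.nd (nat_lit 1424) (.br (nat_lit 3) (.br (nat_lit 2) (.ch (nat_lit 1) (.ev (nat_lit 1440)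
 (nat_lit 6299648) (.ev (nat_lit 1552) (nat_lit 262144) (.ev (nat_lit 1565) (nat_lit 268435456) .dd)))) (.ch
 (nat_lit 2) (.ev (nat_lit 1440) (nat_lit 274989056) (.ev (nat_lit 1453) (nat_lit 8192) .dd)))) (.br (nat_lit
 6) (.ch (nat_lit 3) (.ev (nat_lit 1440) (nat_lit 268705792) (.fin (nat_lit 576464600600887876)))) (.ch
 (nat_lit 6) (.ev (nat_lit 1440) (nat_lit 274997248) .dd)))))))))) (.ch (nat_lit 3) (.ev (nat_lit 52) (nat_lit
 751837184) (.ev (nat_lit 84) (nat_lit 256) (.ev (nat_lit 288) (nat_lit 271368260) .dd))))) (.br (nat_lit 5)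
 (.ch (nat_lit 4) (.ev (nat_lit 52) (nat_lit 348651776) (.ev (nat_lit 180) (nat_lit 4) (.ev (nat_lit 580)
 (nat_lit 32768) (.nd (nat_lit 1424) (.br (nat_lit 3) (.br (nat_lit 2) (.ch (nat_lit 0) (.ev (nat_lit 1440)
 (nat_lit 134217792) (.ev (nat_lit 1504) (nat_lit 536870912) (.ev (nat_lit 1520) (nat_lit 262144) (.nd (nat_lit
 1584) (.br (nat_lit 4) (.ch (nat_lit 0) (.ev (nat_lit 1600) (nat_lit 3145728) (.fin (nat_lit
 576475595732894256)))) (.ch (nat_lit 4) (.ev (nat_lit 1600) (nat_lit 24576) (.fin (nat_lit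
 576465700116709948)))))))))) (.ch (nat_lit 2) (.ev (nat_lit 1440) (nat_lit 674521152) .dd))) (.br (nat_lit 6)
 (.ch (nat_lit 3) (.ev (nat_lit 1440) (nat_lit 540303360) (.ev (nat_lit 1472) (nat_lit 134217728) (.ev (nat_lit
 1485) (nat_lit 64) .dd)))) (.ch (nat_lit 6) (.ev (nat_lit 1440) (nat_lit 674521152) .dd))))))))) (.br (nat_lit
 7) (.ch (nat_lit 5) (.ev (nat_lit 52) (nat_lit 1876036) (.ev (nat_lit 180) (nat_lit 67108864) (.ev (nat_lit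
 384) (nat_lit 954220800) .dd)))) (.ch (nat_lit 7) (.ev (nat_lit 52) (nat_lit 684204036) (.ev (nat_lit 244)
 (nat_lit 32768) (.ev (nat_lit 308) (nat_lit 268435456) (.ev (nat_lit 468) (nat_lit 2097152) (.ev (nat_lit 548)
 (nat_lit 1048576) (.ev (nat_lit 676) (nat_lit 256) (.ev (nat_lit 1344) (nat_lit 262144) (.nd (nat_lit 1424)
 (.br (nat_lit 3) (.br (nat_lit 2) (.ch (nat_lit 0) (.ev (nat_lit 1440) (nat_lit 67125248) (.ev (nat_lit 1453)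
 (nat_lit 64) .dd))) (.ch (nat_lit 2) (.ev (nat_lit 1440) (nat_lit 67108928) (.ev (nat_lit 1453) (nat_lit
 16384) .dd)))) (.br (nat_lit 6) (.ch (nat_lit 3) (.ev (nat_lit 1440) (nat_lit 16384) (.ev (nat_lit 1456)
 (nat_lit 64) (.ev (nat_lit 1469) (nat_lit 67108864) .dd)))) (.ch (nat_lit 6) (.ev (nat_lit 1440) (nat_lit
 67108928) (.ev (nat_lit 1453) (nat_lit 16384) .dd))))))))))))))))) (.br (nat_lit 15) (.br (nat_lit 11) (.ch
 (nat_lit 8) (.ev (nat_lit 52) (nat_lit 814743872) (.ev (nat_lit 84) (nat_lit 524288) (.ev (nat_lit 180)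
 (nat_lit 8192) (.ev (nat_lit 308) (nat_lit 67108864) (.ev (nat_lit 340) (nat_lit 4194304) (.ev (nat_lit 404)
 (nat_lit 262144) (.ev (nat_lit 580) (nat_lit 16384) (.nd (nat_lit 1424) (.br (nat_lit 3) (.ch (nat_lit 2) (.ev
 (nat_lit 1440) (nat_lit 136347648) (.ev (nat_lit 1453) (nat_lit 4) .dd))) (.br (nat_lit 6) (.ch (nat_lit 3)
 (.ev (nat_lit 1440) (nat_lit 32772) (.fin (nat_lit 576479993758433837)))) (.ch (nat_lit 6) (.ev (nat_lit 1440)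
 (nat_lit 134217732) (.ev (nat_lit 1456) (nat_lit 2097152) (.ev (nat_lit 1469) (nat_lit 32768)
 .dd))))))))))))))) (.br (nat_lit 12) (.ch (nat_lit 11) (.ev (nat_lit 52) (nat_lit 13893696) (.ev (nat_lit 116)
 (nat_lit 16384) (.ev (nat_lit 160) (nat_lit 1009295620) .dd)))) (.ch (nat_lit 12) (.ev (nat_lit 52) (nat_lit
 268738820) (.ev (nat_lit 148) (nat_lit 524288) (.ev (nat_lit 404) (nat_lit 134217728) (.nd (nat_lit 1424) (.br
 (nat_lit 2) (.br (nat_lit 1) (.ch (nat_lit 0) (.ev (nat_lit 1440) (nat_lit 75497472) (.ev (nat_lit 1504)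
 (nat_lit 4194304) (.ev (nat_lit 1520) (nat_lit 16384) (.nd (nat_lit 1584) (.br (nat_lit 5) (.ch (nat_lit 4)
 (.ev (nat_lit 1600) (nat_lit 536870976) (.fin (nat_lit 576465700116709948)))) (.ch (nat_lit 5) (.ev (nat_lit
 1600) (nat_lit 3145728) (.fin (nat_lit 576468998673613367)))))))))) (.ch (nat_lit 1) (.ev (nat_lit 1440)
 (nat_lit 544227392) (.ev (nat_lit 1472) (nat_lit 8388608) (.ev (nat_lit 1485) (nat_lit 67108864) .dd))))) (.br
 (nat_lit 3) (.ch (nat_lit 2) (.ev (nat_lit 1440) (nat_lit 619724864) .dd)) (.ch (nat_lit 3) (.ev (nat_lit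
 1440) (nat_lit 619724864) .dd))))))))))) (.br (nat_lit 16) (.ch (nat_lit 15) (.ev (nat_lit 52) (nat_lit
 608207172) (.ev (nat_lit 116) (nat_lit 524288) (.ev (nat_lit 404) (nat_lit 8192) (.ev (nat_lit 644) (nat_lit
 2097152) (.ev (nat_lit 1104) (nat_lit 269484032) (.nd (nat_lit 1424) (.br (nat_lit 6) (.ch (nat_lit 1) (.ev
 (nat_lit 1440) (nat_lit 134234112) (.fin (nat_lit 576474496205537852)))) (.ch (nat_lit 6) (.ev (nat_lit 1440)
 (nat_lit 8650752) (.ev (nat_lit 1472) (nat_lit 134217728) (.ev (nat_lit 1485) (nat_lit 16384) .dd))))))))))))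
 (.br (nat_lit 18) (.ch (nat_lit 16) (.ev (nat_lit 52) (nat_lit 1007436032) (.ev (nat_lit 372) (nat_lit 64)
 (.ev (nat_lit 516) (nat_lit 2097152) (.ev (nat_lit 656) (nat_lit 13672452) .dd))))) (.ch (nat_lit 18) (.ev
 (nat_lit 52) (nat_lit 13140228) (.ev (nat_lit 128) (nat_lit 1010065472) .dd))))))) (.br (nat_lit 29) (.br
 (nat_lit 23) (.br (nat_lit 22) (.ch (nat_lit 19) (.ev (nat_lit 52) (nat_lit 337641476) (.ev (nat_lit 84)
 (nat_lit 40960) (.ev (nat_lit 212) (nat_lit 135266304) (.nd (nat_lit 1424) (.br (nat_lit 2) (.ch (nat_lit 0)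
 (.ev (nat_lit 1440) (nat_lit 13369664) (.ev (nat_lit 1488) (nat_lit 16384) (.ev (nat_lit 1501) (nat_lit
 536870912) .dd)))) (.br (nat_lit 3) (.ch (nat_lit 2) (.ev (nat_lit 1440) (nat_lit 549994560) (.fin (nat_lit
 576468998610698832)))) (.ch (nat_lit 3) (.ev (nat_lit 1440) (nat_lit 278784) (.ev (nat_lit 1504) (nat_lit 64)
 (.ev (nat_lit 1536) (nat_lit 8388608) (.ev (nat_lit 1572) (nat_lit 536870912) (.nd (nat_lit 1584) (.br
 (nat_lit 6) (.ch (nat_lit 1) (.ev (nat_lit 1600) (nat_lit 4718592) .dd)) (.ch (nat_lit 6) (.fin (nat_lit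
 576461302049227332))))))))))))))))) (.ch (nat_lit 22) (.ev (nat_lit 52) (nat_lit 215244864) (.ev (nat_lit 340)
 (nat_lit 2097152) (.ev (nat_lit 644) (nat_lit 536870912) (.ev (nat_lit 708) (nat_lit 524288) (.nd (nat_lit
 1424) (.br (nat_lit 2) (.ch (nat_lit 1) (.ev (nat_lit 1440) (nat_lit 268468224) (.ev (nat_lit 1456) (nat_lit
 260) .dd))) (.br (nat_lit 3) (.ch (nat_lit 2) (.ev (nat_lit 1440) (nat_lit 33024) (.ev (nat_lit 1488) (nat_lit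
 268435460) .dd))) (.ch (nat_lit 3) (.ev (nat_lit 1440) (nat_lit 260) (.ev (nat_lit 1456) (nat_lit 268468224)
 .dd)))))))))))) (.br (nat_lit 24) (.ch (nat_lit 23) (.ev (nat_lit 52) (nat_lit 671875136) (.ev (nat_lit 180)
 (nat_lit 1081344) (.ev (nat_lit 244) (nat_lit 67108864) (.ev (nat_lit 276) (nat_lit 8388608) (.ev (nat_lit
 548) (nat_lit 268435456) (.ev (nat_lit 740) (nat_lit 8192) (.nd (nat_lit 1424) (.br (nat_lit 3) (.br (nat_lit
 2) (.ch (nat_lit 1) (.ev (nat_lit 1440) (nat_lit 6291460) (.ev (nat_lit 1456) (nat_lit 256) (.ev (nat_lit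
 1469) (nat_lit 16384) .dd)))) (.ch (nat_lit 2) (.ev (nat_lit 1440) (nat_lit 6307840) (.ev (nat_lit 1472)
 (nat_lit 260) .dd)))) (.br (nat_lit 6) (.ch (nat_lit 3) (.ev (nat_lit 1440) (nat_lit 16644) (.fin (nat_lit
 576464600600887876)))) (.ch (nat_lit 6) (.ev (nat_lit 1440) (nat_lit 6308100) .dd)))))))))))) (.br (nat_lit
 26) (.ch (nat_lit 24) (.ev (nat_lit 52) (nat_lit 4489536) (.ev (nat_lit 96) (nat_lit 1018716164) .dd))) (.ch
 (nat_lit 26) (.ev (nat_lit 52) (nat_lit 741081092) (.ev (nat_lit 84) (nat_lit 269484032) (.ev (nat_lit 436)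
 (nat_lit 16384) (.ev (nat_lit 1088) (nat_lit 12582912) (.nd (nat_lit 1424) (.br (nat_lit 2) (.br (nat_lit 1)
 (.ch (nat_lit 0) (.ev (nat_lit 1440) (nat_lit 33088) (.ev (nat_lit 1453) (nat_lit 8192) .dd))) (.ch (nat_lit
 1) (.ev (nat_lit 1440) (nat_lit 8448) (.ev (nat_lit 1456) (nat_lit 64) (.ev (nat_lit 1469) (nat_lit 32768)
 .dd))))) (.br (nat_lit 3) (.ch (nat_lit 2) (.ev (nat_lit 1440) (nat_lit 32832) (.ev (nat_lit 1456) (nat_lit
 8192) (.ev (nat_lit 1469) (nat_lit 256) .dd)))) (.ch (nat_lit 3) (.ev (nat_lit 1440) (nat_lit 41216) (.ev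
 (nat_lit 1453) (nat_lit 64) .dd)))))))))))))) (.br (nat_lit 34) (.br (nat_lit 31) (.ch (nat_lit 29) (.ev
 (nat_lit 52) (nat_lit 82354240) (.ev (nat_lit 116) (nat_lit 262144) (.ev (nat_lit 436) (nat_lit 134217728)
 (.ev (nat_lit 708) (nat_lit 256) (.ev (nat_lit 1296) (nat_lit 536870912) (.nd (nat_lit 1424) (.br (nat_lit 1)
 (.ch (nat_lit 0) (.ev (nat_lit 1440) (nat_lit 16388) (.ev (nat_lit 1572) (nat_lit 1048576) (.ev (nat_lit 1581)
 (nat_lit 268435456) .dd)))) (.br (nat_lit 2) (.ch (nat_lit 1) (.ev (nat_lit 1440) (nat_lit 269484032) (.ev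
 (nat_lit 1472) (nat_lit 16388) .dd))) (.ch (nat_lit 2) (.ev (nat_lit 1456) (nat_lit 4) (.ev (nat_lit 1472)
 (nat_lit 16384) (.ev (nat_lit 1572) (nat_lit 1048576) (.ev (nat_lit 1581) (nat_lit 268435456)
 .dd)))))))))))))) (.br (nat_lit 33) (.ch (nat_lit 31) (.ev (nat_lit 52) (nat_lit 480788484) (.ev (nat_lit 116)
 (nat_lit 256) (.ev (nat_lit 468) (nat_lit 64) (.ev (nat_lit 688) (nat_lit 542416896) .dd))))) (.ch (nat_lit
 33) (.ev (nat_lit 52) (nat_lit 3178756) (.ev (nat_lit 148) (nat_lit 16384) (.ev (nat_lit 276) (nat_lit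
 268435456) (.ev (nat_lit 580) (nat_lit 67108864) (.ev (nat_lit 832) (nat_lit 794688) (.nd (nat_lit 1424) (.br
 (nat_lit 3) (.ch (nat_lit 2) (.ev (nat_lit 1440) (nat_lit 549453824) (.ev (nat_lit 1453) (nat_lit 134217728)
 .dd))) (.br (nat_lit 6) (.ch (nat_lit 3) (.ev (nat_lit 1440) (nat_lit 138412032) (.ev (nat_lit 1456) (nat_lit
 8388608) (.ev (nat_lit 1469) (nat_lit 536870912) .dd)))) (.ch (nat_lit 6) (.ev (nat_lit 1440) (nat_lit
 536870912) (.ev (nat_lit 1472) (nat_lit 134217728) (.fin (nat_lit 576436013314294317)))))))))))))))) (.br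
 (nat_lit 36) (.ch (nat_lit 34) (.ev (nat_lit 52) (nat_lit 282902532) (.ev (nat_lit 500) (nat_lit 64) (.ev
 (nat_lit 928) (nat_lit 136314880) (.nd (nat_lit 1424) (.br (nat_lit 2) (.ch (nat_lit 1) (.ev (nat_lit 1440)
 (nat_lit 603987968) (.ev (nat_lit 1453) (nat_lit 256) .dd))) (.br (nat_lit 3) (.ch (nat_lit 2) (.ev (nat_lit
 1440) (nat_lit 536871168) (.ev (nat_lit 1456) (nat_lit 67117056) .dd))) (.ch (nat_lit 3) (.ev (nat_lit 1440)
 (nat_lit 67117312) (.ev (nat_lit 1453) (nat_lit 536870912) .dd)))))))))) (.br (nat_lit 38) (.ch (nat_lit 36)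
 (.ev (nat_lit 52) (nat_lit 72130564) (.ev (nat_lit 180) (nat_lit 268435456) (.ev (nat_lit 848) (nat_lit
 9437504) (.nd (nat_lit 1424) (.br (nat_lit 3) (.ch (nat_lit 0) (.ev (nat_lit 1440) (nat_lit 671088640) (.ev
 (nat_lit 1456) (nat_lit 2097152) (.ev (nat_lit 1469) (nat_lit 16384) .dd)))) (.br (nat_lit 6) (.ch (nat_lit 3)
 (.ev (nat_lit 1440) (nat_lit 16384) (.ev (nat_lit 1472) (nat_lit 536870912) (.fin (nat_lit
 576442610363089491))))) (.ch (nat_lit 6) (.ev (nat_lit 1440) (nat_lit 136331264) (.ev (nat_lit 1453) (nat_lit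
 536870912) .dd)))))))))) (.ch (nat_lit 38) (.ev (nat_lit 52) (nat_lit 271327300) (.ev (nat_lit 436) (nat_lit
 1048576) (.ev (nat_lit 676) (nat_lit 67108864) (.ev (nat_lit 740) (nat_lit 32768) (.ev (nat_lit 864) (nat_lit
 8388864) (.nd (nat_lit 1424) (.br (nat_lit 2) (.ch (nat_lit 0) (.ev (nat_lit 1440) (nat_lit 134217728) (.ev
 (nat_lit 1488) (nat_lit 16384) (.ev (nat_lit 1536) (nat_lit 536870912) (.ev (nat_lit 1549) (nat_lit 4194304)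
 .dd))))) (.br (nat_lit 3) (.ch (nat_lit 2) (.ev (nat_lit 1440) (nat_lit 541065216) (.nd (nat_lit 1584) (.br
 (nat_lit 5) (.ch (nat_lit 4) (.ev (nat_lit 1600) (nat_lit 134234112) .dd)) (.ch (nat_lit 5) (.fin (nat_lit
 576452505983468092))))))) (.ch (nat_lit 3) (.ev (nat_lit 1440) (nat_lit 536887296) (.ev (nat_lit 1520)
 (nat_lit 134217728) (.ev (nat_lit 1533) (nat_lit 4194304) .dd)))))))))))))))))) (.br (nat_lit 54) (.br
 (nat_lit 47) (.br (nat_lit 43) (.br (nat_lit 42) (.ch (nat_lit 39) (.ev (nat_lit 52) (nat_lit 281550912) (.ev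
 (nat_lit 148) (nat_lit 4) (.ev (nat_lit 180) (nat_lit 16384) (.ev (nat_lit 276) (nat_lit 1048576) (.ev
 (nat_lit 560) (nat_lit 740589824) .dd)))))) (.ch (nat_lit 42) (.ev (nat_lit 52) (nat_lit 404234500) (.ev
 (nat_lit 84) (nat_lit 262144) (.ev (nat_lit 500) (nat_lit 4194304) (.ev (nat_lit 708) (nat_lit 67108864) (.ev
 (nat_lit 772) (nat_lit 49152) (.ev (nat_lit 880) (nat_lit 10485760) (.nd (nat_lit 1424) (.br (nat_lit 2) (.ch
 (nat_lit 1) (.ev (nat_lit 1440) (nat_lit 536870912) (.ev (nat_lit 1453) (nat_lit 64) .dd))) (.br (nat_lit 3)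
 (.ch (nat_lit 2) (.ev (nat_lit 1440) (nat_lit 536870976) .dd)) (.ch (nat_lit 3) (.ev (nat_lit 1440) (nat_lit
 64) (.ev (nat_lit 1453) (nat_lit 536870912) .dd)))))))))))))) (.br (nat_lit 44) (.ch (nat_lit 43) (.ev
 (nat_lit 52) (nat_lit 484466692) (.ev (nat_lit 116) (nat_lit 32768) (.ev (nat_lit 436) (nat_lit 256) (.ev
 (nat_lit 740) (nat_lit 262144) (.nd (nat_lit 1424) (.br (nat_lit 3) (.ch (nat_lit 2) (.ev (nat_lit 1440)
 (nat_lit 537395264) (.ev (nat_lit 1453) (nat_lit 1048576) .dd))) (.br (nat_lit 6) (.ch (nat_lit 3) (.ev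
 (nat_lit 1440) (nat_lit 537919488) (.ev (nat_lit 1504) (nat_lit 64) (.ev (nat_lit 1517) (nat_lit 524288)
 .dd)))) (.ch (nat_lit 6) (.ev (nat_lit 1440) (nat_lit 1048640) (.ev (nat_lit 1488) (nat_lit 536870912) (.ev
 (nat_lit 1501) (nat_lit 524288) .dd)))))))))))) (.br (nat_lit 46) (.ch (nat_lit 44) (.ev (nat_lit 52) (nat_lit
 345006080) (.ev (nat_lit 404) (nat_lit 4) (.ev (nat_lit 548) (nat_lit 256) (.nd (nat_lit 1424) (.br (nat_lit
 1) (.ch (nat_lit 0) (.ev (nat_lit 1440) (nat_lit 141328384) (.fin (nat_lit 576453605447909961)))) (.br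
 (nat_lit 3) (.ch (nat_lit 1) (.ev (nat_lit 1440) (nat_lit 677904448) (.ev (nat_lit 1488) (nat_lit 262144) (.ev
 (nat_lit 1501) (nat_lit 32768) .dd)))) (.ch (nat_lit 3) (.ev (nat_lit 1440) (nat_lit 537133120) (.ev (nat_lit
 1504) (nat_lit 2097152) (.ev (nat_lit 1536) (nat_lit 134217728) (.ev (nat_lit 1572) (nat_lit 32768) (.nd
 (nat_lit 1584) (.br (nat_lit 6) (.ch (nat_lit 5) (.ev (nat_lit 1600) (nat_lit 4718592) .dd)) (.ch (nat_lit 6)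
 (.fin (nat_lit 576461302049227332))))))))))))))))) (.ch (nat_lit 46) (.ev (nat_lit 52) (nat_lit 613425216)
 (.ev (nat_lit 116) (nat_lit 4) (.ev (nat_lit 244) (nat_lit 268959744) (.ev (nat_lit 404) (nat_lit 16384) (.ev
 (nat_lit 612) (nat_lit 4194304) (.ev (nat_lit 1280) (nat_lit 2097152) (.nd (nat_lit 1424) (.br (nat_lit 1)
 (.ch (nat_lit 0) (.ev (nat_lit 1440) (nat_lit 256) (.ev (nat_lit 1456) (nat_lit 262144) (.ev (nat_lit 1504)
 (nat_lit 32768) (.ev (nat_lit 1517) (nat_lit 134217728) .dd))))) (.br (nat_lit 2) (.ch (nat_lit 1) (.ev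
 (nat_lit 1440) (nat_lit 134512896) .dd)) (.ch (nat_lit 2) (.ev (nat_lit 1440) (nat_lit 32768) (.ev (nat_lit
 1488) (nat_lit 134217728) (.fin (nat_lit 576453605510824496)))))))))))))))))) (.br (nat_lit 50) (.br (nat_lit
 48) (.ch (nat_lit 47) (.ev (nat_lit 52) (nat_lit 70574080) (.ev (nat_lit 84) (nat_lit 8388608) (.ev (nat_lit
 116) (nat_lit 268435456) (.ev (nat_lit 148) (nat_lit 256) (.ev (nat_lit 276) (nat_lit 524288) (.ev (nat_lit
 772) (nat_lit 4) (.ev (nat_lit 1168) (nat_lit 4194304) (.nd (nat_lit 1424) (.br (nat_lit 2) (.ch (nat_lit 1)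
 (.ev (nat_lit 1440) (nat_lit 671088640) (.ev (nat_lit 1453) (nat_lit 64) .dd))) (.br (nat_lit 3) (.ch (nat_lit
 2) (.ev (nat_lit 1440) (nat_lit 671088704) .dd)) (.ch (nat_lit 3) (.ev (nat_lit 1440) (nat_lit 64) (.ev
 (nat_lit 1488) (nat_lit 536870912) (.ev (nat_lit 1501) (nat_lit 134217728) .dd))))))))))))))) (.br (nat_lit
 49) (.ch (nat_lit 48) (.ev (nat_lit 52) (nat_lit 404766784) (.ev (nat_lit 64) (nat_lit 618438916) .dd))) (.ch
 (nat_lit 49) (.ev (nat_lit 52) (nat_lit 546365440) (.ev (nat_lit 84) (nat_lit 67108864) (.ev (nat_lit 244)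
 (nat_lit 134217728) (.ev (nat_lit 276) (nat_lit 256) (.ev (nat_lit 612) (nat_lit 2097152) (.ev (nat_lit 804)
 (nat_lit 4194304) (.ev (nat_lit 944) (nat_lit 262148) (.nd (nat_lit 1424) (.br (nat_lit 3) (.ch (nat_lit 1)
 (.ev (nat_lit 1440) (nat_lit 268959744) (.ev (nat_lit 1453) (nat_lit 64) .dd))) (.br (nat_lit 6) (.ch (nat_lit
 3) (.ev (nat_lit 1440) (nat_lit 524288) (.ev (nat_lit 1488) (nat_lit 268435456) (.ev (nat_lit 1501) (nat_lit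
 64) .dd)))) (.ch (nat_lit 6) (.ev (nat_lit 1440) (nat_lit 268435520) (.ev (nat_lit 1453) (nat_lit 524288)
 .dd)))))))))))))))) (.br (nat_lit 51) (.ch (nat_lit 50) (.ev (nat_lit 52) (nat_lit 544784704) (.ev (nat_lit
 308) (nat_lit 134217728) (.ev (nat_lit 548) (nat_lit 262144) (.ev (nat_lit 580) (nat_lit 8388608) (.ev
 (nat_lit 1136) (nat_lit 268435460) (.nd (nat_lit 1424) (.br (nat_lit 6) (.ch (nat_lit 0) (.ev (nat_lit 1440)
 (nat_lit 67108864) (.ev (nat_lit 1453) (nat_lit 8192) .dd))) (.ch (nat_lit 6) (.ev (nat_lit 1440) (nat_lit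
 8192) (.ev (nat_lit 1453) (nat_lit 67108864) .dd))))))))))) (.br (nat_lit 53) (.ch (nat_lit 51) (.ev (nat_lit
 52) (nat_lit 814489856) (.ev (nat_lit 224) (nat_lit 208715844) .dd))) (.ch (nat_lit 53) (.ev (nat_lit 52)
 (nat_lit 808714500) (.ev (nat_lit 148) (nat_lit 134217728) (.ev (nat_lit 340) (nat_lit 64) (.ev (nat_lit 548)
 (nat_lit 557056) (.ev (nat_lit 1216) (nat_lit 8388608) (.nd (nat_lit 1424) (.br (nat_lit 2) (.ch (nat_lit 0)
 (.ev (nat_lit 1440) (nat_lit 67108864) (.ev (nat_lit 1536) (nat_lit 4194304) (.nd (nat_lit 1616) (.ch (nat_lit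
 0) (.nd (nat_lit 1633) (.br (nat_lit 26) (.ch (nat_lit 8) (.ev (nat_lit 1649) (nat_lit 24576) .dd)) (.br
 (nat_lit 67) (.ch (nat_lit 26) (.nd (nat_lit 1664) (.br (nat_lit 1) (.ch (nat_lit 0) (.fin (nat_lit
 576447008388629072))) (.ch (nat_lit 1) (.ev (nat_lit 1680) (nat_lit 24576) .dd))))) (.ch (nat_lit 67) (.ev
 (nat_lit 1649) (nat_lit 24576) .dd)))))))))) (.br (nat_lit 6) (.ch (nat_lit 2) (.ev (nat_lit 1440) (nat_lit
 4218880) (.ev (nat_lit 1453) (nat_lit 67108864) .dd))) (.ch (nat_lit 6) (.ev (nat_lit 1440) (nat_lit 24576)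
 (.ev (nat_lit 1488) (nat_lit 4194304) (.ev (nat_lit 1501) (nat_lit 67108864) .dd))))))))))))))))) (.br
 (nat_lit 64) (.br (nat_lit 57) (.br (nat_lit 55) (.ch (nat_lit 54) (.ev (nat_lit 52) (nat_lit 415252800) (.ev
 (nat_lit 256) (nat_lit 607952900) .dd))) (.ch (nat_lit 55) (.ev (nat_lit 52) (nat_lit 819232768) (.ev (nat_lit
 192) (nat_lit 203972932) .dd)))) (.br (nat_lit 58) (.ch (nat_lit 57) (.ev (nat_lit 52) (nat_lit 673497152)
 (.ev (nat_lit 212) (nat_lit 268435456) (.ev (nat_lit 372) (nat_lit 4194304) (.ev (nat_lit 528) (nat_lit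
 77078788) .dd))))) (.br (nat_lit 62) (.ch (nat_lit 58) (.ev (nat_lit 52) (nat_lit 82321476) (.ev (nat_lit 116)
 (nat_lit 135266304) (.ev (nat_lit 212) (nat_lit 256) (.ev (nat_lit 676) (nat_lit 268435456) (.ev (nat_lit 960)
 (nat_lit 278528) (.nd (nat_lit 1424) (.br (nat_lit 3) (.ch (nat_lit 1) (.ev (nat_lit 1440) (nat_lit 32768)
 (.ev (nat_lit 1453) (nat_lit 536870912) .dd))) (.br (nat_lit 6) (.ch (nat_lit 3) (.ev (nat_lit 1456) (nat_lit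
 536870912) (.ev (nat_lit 1469) (nat_lit 32768) .dd))) (.ch (nat_lit 6) (.ev (nat_lit 1440) (nat_lit 536903680)
 .dd))))))))))) (.ch (nat_lit 62) (.ev (nat_lit 52) (nat_lit 137675072) (.ev (nat_lit 308) (nat_lit 4) (.ev
 (nat_lit 468) (nat_lit 536870912) (.ev (nat_lit 580) (nat_lit 8192) (.ev (nat_lit 676) (nat_lit 524288) (.nd
 (nat_lit 1424) (.br (nat_lit 3) (.ch (nat_lit 2) (.ev (nat_lit 1440) (nat_lit 12582912) (.ev (nat_lit 1472)
 (nat_lit 335544320) .dd))) (.br (nat_lit 6) (.ch (nat_lit 3) (.ev (nat_lit 1440) (nat_lit 75497472) (.ev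
 (nat_lit 1456) (nat_lit 4194304) (.ev (nat_lit 1469) (nat_lit 268435456) .dd)))) (.ch (nat_lit 6) (.ev
 (nat_lit 1440) (nat_lit 335544320) (.fin (nat_lit 576486590807229011)))))))))))))))) (.br (nat_lit 68) (.br
 (nat_lit 65) (.ch (nat_lit 64) (.ev (nat_lit 52) (nat_lit 747684160) (.ev (nat_lit 548) (nat_lit 8192) (.ev
 (nat_lit 676) (nat_lit 262144) (.ev (nat_lit 772) (nat_lit 524288) (.nd (nat_lit 1424) (.br (nat_lit 3) (.ch
 (nat_lit 0) (.ev (nat_lit 1440) (nat_lit 270532608) (.ev (nat_lit 1504) (nat_lit 4) (.ev (nat_lit 1517)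
 (nat_lit 4194304) .dd)))) (.br (nat_lit 6) (.ch (nat_lit 3) (.ev (nat_lit 1440) (nat_lit 2097156) (.ev
 (nat_lit 1488) (nat_lit 268435456) (.ev (nat_lit 1501) (nat_lit 4194304) .dd)))) (.ch (nat_lit 6) (.ev
 (nat_lit 1440) (nat_lit 272629764) (.ev (nat_lit 1453) (nat_lit 2097152) .dd))))))))))) (.br (nat_lit 67) (.ch
 (nat_lit 65) (.ev (nat_lit 52) (nat_lit 543973632) (.ev (nat_lit 148) (nat_lit 32768) (.ev (nat_lit 308)
 (nat_lit 8388608) (.ev (nat_lit 436) (nat_lit 4) (.ev (nat_lit 752) (nat_lit 470810688) .dd)))))) (.ch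
 (nat_lit 67) (.ev (nat_lit 52) (nat_lit 878215172) (.ev (nat_lit 180) (nat_lit 256) (.ev (nat_lit 244)
 (nat_lit 16384) (.ev (nat_lit 1120) (nat_lit 2105344) (.nd (nat_lit 1424) (.br (nat_lit 1) (.ch (nat_lit 0)
 (.ev (nat_lit 1440) (nat_lit 8650752) (.ev (nat_lit 1472) (nat_lit 64) (.ev (nat_lit 1485) (nat_lit 134217728)
 .dd)))) (.ch (nat_lit 1) (.ev (nat_lit 1440) (nat_lit 134217792) (.fin (nat_lit
 576474496205537852))))))))))))) (.br (nat_lit 69) (.ch (nat_lit 68) (.ev (nat_lit 52) (nat_lit 407658500) (.ev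
 (nat_lit 212) (nat_lit 32768) (.ev (nat_lit 308) (nat_lit 1048576) (.ev (nat_lit 720) (nat_lit 614465856)
 .dd))))) (.br (nat_lit 70) (.ch (nat_lit 69) (.ev (nat_lit 52) (nat_lit 605323524) (.ev (nat_lit 148) (nat_lit
 8388608) (.ev (nat_lit 416) (nat_lit 409493568) .dd)))) (.ch (nat_lit 70) (.ev (nat_lit 52) (nat_lit
 879788352) (.ev (nat_lit 212) (nat_lit 8192) (.ev (nat_lit 1040) (nat_lit 786432) (.nd (nat_lit 1424) (.br
 (nat_lit 2) (.ch (nat_lit 1) (.ev (nat_lit 1440) (nat_lit 134217728) (.ev (nat_lit 1488) (nat_lit 16384) (.ev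
 (nat_lit 1536) (nat_lit 8388608) (.ev (nat_lit 1549) (nat_lit 4) .dd))))) (.br (nat_lit 6) (.ch (nat_lit 2)
 (.ev (nat_lit 1440) (nat_lit 8388612) (.nd (nat_lit 1584) (.br (nat_lit 5) (.ch (nat_lit 1) (.ev (nat_lit
 1600) (nat_lit 134234112) .dd)) (.ch (nat_lit 5) (.fin (nat_lit 576452505983468092))))))) (.ch (nat_lit 6)
 (.ev (nat_lit 1440) (nat_lit 8404992) (.ev (nat_lit 1520) (nat_lit 134217728) (.ev (nat_lit 1533) (nat_lit 4)
 .dd)))))))))))))))))))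

/-- Subtrie. -/
noncomputable def T3 : Tr := (.ev (nat_lit 20) (nat_lit 779092032) (.nd (nat_lit 33) (.br (nat_lit 39) (.br
 (nat_lit 19) (.br (nat_lit 8) (.br (nat_lit 4) (.br (nat_lit 3) (.ch (nat_lit 1) (.ev (nat_lit 52) (nat_lit
 17334534) (.ev (nat_lit 212) (nat_lit 16) (.ev (nat_lit 340) (nat_lit 262144) (.ev (nat_lit 1056) (nat_lit
 8404992) (.nd (nat_lit 1424) (.br (nat_lit 3) (.ch (nat_lit 2) (.ev (nat_lit 1440) (nat_lit 268443648) .dd))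
 (.br (nat_lit 6) (.ch (nat_lit 3) (.ev (nat_lit 1456) (nat_lit 8192) (.ev (nat_lit 1469) (nat_lit 268435456)
 .dd))) (.ch (nat_lit 6) (.ev (nat_lit 1440) (nat_lit 268435456) (.ev (nat_lit 1453) (nat_lit 8192)
 .dd))))))))))) (.ch (nat_lit 3) (.ev (nat_lit 52) (nat_lit 25174032) (.ev (nat_lit 276) (nat_lit 256) (.ev
 (nat_lit 308) (nat_lit 16384) (.nd (nat_lit 1424) (.br (nat_lit 3) (.br (nat_lit 2) (.ch (nat_lit 0) (.ev
 (nat_lit 1440) (nat_lit 268697602) (.ev (nat_lit 1552) (nat_lit 524288) (.ev (nat_lit 1572) (nat_lit 4) (.ev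
 (nat_lit 1581) (nat_lit 32768) .dd))))) (.ch (nat_lit 2) (.ev (nat_lit 1440) (nat_lit 786434) (.ev (nat_lit
 1552) (nat_lit 268435456) (.ev (nat_lit 1572) (nat_lit 4) (.ev (nat_lit 1581) (nat_lit 32768) .dd)))))) (.br
 (nat_lit 6) (.ch (nat_lit 3) (.ev (nat_lit 1440) (nat_lit 268730372) (.ev (nat_lit 1472) (nat_lit 524288) (.ev
 (nat_lit 1485) (nat_lit 2) .dd)))) (.ch (nat_lit 6) (.ev (nat_lit 1440) (nat_lit 557062) (.ev (nat_lit 1472)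
 (nat_lit 268435456) (.ev (nat_lit 1485) (nat_lit 262144) .dd)))))))))))) (.br (nat_lit 5) (.ch (nat_lit 4)
 (.ev (nat_lit 52) (nat_lit 294125826) (.ev (nat_lit 244) (nat_lit 16) (.ev (nat_lit 1152) (nat_lit 262144)
 (.nd (nat_lit 1424) (.br (nat_lit 5) (.ch (nat_lit 0) (.ev (nat_lit 1440) (nat_lit 8192) (.ev (nat_lit 1456)
 (nat_lit 16384) (.ev (nat_lit 1504) (nat_lit 4) (.ev (nat_lit 1517) (nat_lit 32768) .dd))))) (.br (nat_lit 6)
 (.ch (nat_lit 5) (.ev (nat_lit 1440) (nat_lit 4) (.ev (nat_lit 1488) (nat_lit 32768) (.fin (nat_lit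
 576447008388629072))))) (.ch (nat_lit 6) (.ev (nat_lit 1440) (nat_lit 57348) .dd))))))))) (.br (nat_lit 7)
 (.ch (nat_lit 5) (.ev (nat_lit 52) (nat_lit 17604612) (.ev (nat_lit 244) (nat_lit 16384) (.ev (nat_lit 1264)
 (nat_lit 268435456) (.nd (nat_lit 1424) (.br (nat_lit 5) (.ch (nat_lit 0) (.ev (nat_lit 1440) (nat_lit 2) (.ev
 (nat_lit 1488) (nat_lit 8388608) (.fin (nat_lit 576447008430572112))))) (.br (nat_lit 6) (.ch (nat_lit 5) (.ev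
 (nat_lit 1440) (nat_lit 256) (.ev (nat_lit 1456) (nat_lit 16) (.ev (nat_lit 1504) (nat_lit 2) (.ev (nat_lit
 1517) (nat_lit 8388608) .dd))))) (.ch (nat_lit 6) (.ev (nat_lit 1440) (nat_lit 8388882) .dd))))))))) (.ch
 (nat_lit 7) (.ev (nat_lit 52) (nat_lit 8921094) (.ev (nat_lit 624) (nat_lit 285524240) .dd)))))) (.br (nat_lit
 15) (.br (nat_lit 11) (.ch (nat_lit 8) (.ev (nat_lit 52) (nat_lit 293601538) (.ev (nat_lit 276) (nat_lit 16)
 (.ev (nat_lit 404) (nat_lit 8192) (.ev (nat_lit 436) (nat_lit 16384) (.ev (nat_lit 1360) (nat_lit 524288) (.nd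
 (nat_lit 1424) (.br (nat_lit 3) (.br (nat_lit 2) (.ch (nat_lit 0) (.ev (nat_lit 1440) (nat_lit 294912) (.ev
 (nat_lit 1453) (nat_lit 4) .dd))) (.ch (nat_lit 2) (.ev (nat_lit 1440) (nat_lit 32772) (.ev (nat_lit 1453)
 (nat_lit 262144) .dd)))) (.br (nat_lit 6) (.ch (nat_lit 3) (.ev (nat_lit 1440) (nat_lit 262144) (.ev (nat_lit
 1456) (nat_lit 4) (.ev (nat_lit 1469) (nat_lit 32768) .dd)))) (.ch (nat_lit 6) (.ev (nat_lit 1440) (nat_lit
 32772) (.ev (nat_lit 1453) (nat_lit 262144) .dd)))))))))))) (.br (nat_lit 12) (.ch (nat_lit 11) (.ev (nat_lit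
 52) (nat_lit 25427970) (.ev (nat_lit 436) (nat_lit 4) (.ev (nat_lit 580) (nat_lit 256) (.nd (nat_lit 1424)
 (.br (nat_lit 3) (.ch (nat_lit 2) (.ev (nat_lit 1440) (nat_lit 548880) (.fin (nat_lit 576474496195052092))))
 (.br (nat_lit 5) (.ch (nat_lit 3) (.ev (nat_lit 1440) (nat_lit 581648) (.ev (nat_lit 1453) (nat_lit 268435456)
 .dd))) (.ch (nat_lit 5) (.ev (nat_lit 1440) (nat_lit 268435456) (.ev (nat_lit 1488) (nat_lit 40960) (.ev
 (nat_lit 1520) (nat_lit 16384) (.nd (nat_lit 1616) (.ch (nat_lit 0) (.nd (nat_lit 1633) (.br (nat_lit 23) (.br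
 (nat_lit 8) (.ch (nat_lit 7) (.nd (nat_lit 1664) (.br (nat_lit 3) (.ch (nat_lit 2) (.ev (nat_lit 1680)
 (nat_lit 524304) .dd)) (.ch (nat_lit 3) (.fin (nat_lit 576465700116709960)))))) (.ch (nat_lit 8) (.ev (nat_lit
 1649) (nat_lit 16) (.ev (nat_lit 1661) (nat_lit 524288) .dd)))) (.br (nat_lit 52) (.ch (nat_lit 23) (.ev
 (nat_lit 1649) (nat_lit 524304) .dd)) (.br (nat_lit 70) (.ch (nat_lit 52) (.ev (nat_lit 1649) (nat_lit 16)
 (.ev (nat_lit 1661) (nat_lit 524288) .dd))) (.ch (nat_lit 70) (.ev (nat_lit 1649) (nat_lit 524304)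
 .dd))))))))))))))))))) (.ch (nat_lit 12) (.ev (nat_lit 52) (nat_lit 285516036) (.ev (nat_lit 116) (nat_lit
 16384) (.ev (nat_lit 148) (nat_lit 16) (.ev (nat_lit 244) (nat_lit 2) (.ev (nat_lit 784) (nat_lit 8912896)
 .dd)))))))) (.br (nat_lit 16) (.ch (nat_lit 15) (.ev (nat_lit 52) (nat_lit 33028) (.ev (nat_lit 180) (nat_lit
 24576) (.ev (nat_lit 612) (nat_lit 268435456) (.nd (nat_lit 1424) (.br (nat_lit 5) (.ch (nat_lit 3) (.ev
 (nat_lit 1440) (nat_lit 17301522) (.fin (nat_lit 576448107915985476)))) (.br (nat_lit 6) (.ch (nat_lit 5) (.ev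
 (nat_lit 1440) (nat_lit 262144) (.ev (nat_lit 1488) (nat_lit 25165824) (.ev (nat_lit 1520) (nat_lit 2) (.nd
 (nat_lit 1616) (.ch (nat_lit 0) (.nd (nat_lit 1633) (.br (nat_lit 36) (.br (nat_lit 33) (.ch (nat_lit 17) (.ev
 (nat_lit 1649) (nat_lit 16) (.ev (nat_lit 1661) (nat_lit 524288) .dd))) (.ch (nat_lit 33) (.ev (nat_lit 1649)
 (nat_lit 16) (.ev (nat_lit 1661) (nat_lit 524288) .dd)))) (.br (nat_lit 58) (.ch (nat_lit 36) (.nd (nat_lit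
 1664) (.br (nat_lit 3) (.ch (nat_lit 0) (.ev (nat_lit 1680) (nat_lit 524304) .dd)) (.ch (nat_lit 3) (.fin
 (nat_lit 576465700116709960)))))) (.br (nat_lit 63) (.ch (nat_lit 58) (.ev (nat_lit 1649) (nat_lit 524304)
 .dd)) (.ch (nat_lit 63) (.ev (nat_lit 1649) (nat_lit 524304) .dd)))))))))))) (.ch (nat_lit 6) (.ev (nat_lit
 1440) (nat_lit 25690130) (.ev (nat_lit 1453) (nat_lit 262144) .dd)))))))))) (.br (nat_lit 18) (.ch (nat_lit
 16) (.ev (nat_lit 52) (nat_lit 286015746) (.ev (nat_lit 148) (nat_lit 8192) (.ev (nat_lit 212) (nat_lit 4)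
 (.ev (nat_lit 340) (nat_lit 32768) (.ev (nat_lit 500) (nat_lit 8388608) (.ev (nat_lit 509) (nat_lit 16)
 .dd))))))) (.ch (nat_lit 18) (.ev (nat_lit 52) (nat_lit 8945940) (.ev (nat_lit 84) (nat_lit 8192) (.ev
 (nat_lit 740) (nat_lit 16384) (.nd (nat_lit 1424) (.br (nat_lit 2) (.ch (nat_lit 0) (.ev (nat_lit 1440)
 (nat_lit 262146) (.ev (nat_lit 1456) (nat_lit 16777216) (.ev (nat_lit 1469) (nat_lit 268435456) .dd)))) (.br
 (nat_lit 5) (.ch (nat_lit 2) (.ev (nat_lit 1440) (nat_lit 268697600) (.fin (nat_lit 576486590807228996))))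
 (.ch (nat_lit 5) (.ev (nat_lit 1440) (nat_lit 285212674) (.ev (nat_lit 1453) (nat_lit 262144)
 .dd)))))))))))))) (.br (nat_lit 29) (.br (nat_lit 23) (.br (nat_lit 22) (.ch (nat_lit 19) (.ev (nat_lit 52)
 (nat_lit 285212676) (.ev (nat_lit 244) (nat_lit 524288) (.ev (nat_lit 404) (nat_lit 16384) (.ev (nat_lit 740)
 (nat_lit 2) (.ev (nat_lit 912) (nat_lit 8388880) (.ev (nat_lit 1392) (nat_lit 262144) (.nd (nat_lit 1424) (.br
 (nat_lit 3) (.ch (nat_lit 0) (.ev (nat_lit 1440) (nat_lit 8192) (.ev (nat_lit 1453) (nat_lit 32768) .dd)))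
 (.br (nat_lit 6) (.ch (nat_lit 3) (.ev (nat_lit 1440) (nat_lit 40960) .dd)) (.ch (nat_lit 6) (.ev (nat_lit
 1440) (nat_lit 32768) (.ev (nat_lit 1453) (nat_lit 8192) .dd))))))))))))) (.ch (nat_lit 22) (.ev (nat_lit 52)
 (nat_lit 8675328) (.ev (nat_lit 352) (nat_lit 285770006) .dd)))) (.br (nat_lit 24) (.ch (nat_lit 23) (.ev
 (nat_lit 52) (nat_lit 786434) (.ev (nat_lit 244) (nat_lit 16777216) (.ev (nat_lit 404) (nat_lit 16) (.ev
 (nat_lit 740) (nat_lit 4) (.ev (nat_lit 896) (nat_lit 57344) (.ev (nat_lit 1408) (nat_lit 268435456) (.nd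
 (nat_lit 1424) (.br (nat_lit 5) (.ch (nat_lit 2) (.ev (nat_lit 1440) (nat_lit 8388864) .dd)) (.br (nat_lit 6)
 (.ch (nat_lit 5) (.ev (nat_lit 1440) (nat_lit 256) (.ev (nat_lit 1453) (nat_lit 8388608) .dd))) (.ch (nat_lit
 6) (.ev (nat_lit 1440) (nat_lit 8388608) (.ev (nat_lit 1453) (nat_lit 256) .dd))))))))))))) (.br (nat_lit 26)
 (.ch (nat_lit 24) (.ev (nat_lit 52) (nat_lit 295184) (.ev (nat_lit 404) (nat_lit 16777216) (.ev (nat_lit 468)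
 (nat_lit 8388608) (.ev (nat_lit 804) (nat_lit 268435456) (.nd (nat_lit 1424) (.br (nat_lit 5) (.br (nat_lit 2)
 (.ch (nat_lit 0) (.ev (nat_lit 1440) (nat_lit 540674) (.ev (nat_lit 1472) (nat_lit 8196) .dd))) (.ch (nat_lit
 2) (.ev (nat_lit 1440) (nat_lit 548864) (.ev (nat_lit 1456) (nat_lit 4) (.ev (nat_lit 1469) (nat_lit 2)
 .dd))))) (.br (nat_lit 6) (.ch (nat_lit 5) (.ev (nat_lit 1440) (nat_lit 8198) (.fin (nat_lit
 576464600590402111)))) (.ch (nat_lit 6) (.ev (nat_lit 1440) (nat_lit 548870) .dd)))))))))) (.ch (nat_lit 26)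
 (.ev (nat_lit 52) (nat_lit 786452) (.ev (nat_lit 84) (nat_lit 16777216) (.ev (nat_lit 116) (nat_lit 8192) (.ev
 (nat_lit 580) (nat_lit 16384) (.ev (nat_lit 644) (nat_lit 8388608) (.nd (nat_lit 1424) (.br (nat_lit 3) (.ch
 (nat_lit 0) (.ev (nat_lit 1440) (nat_lit 268435714) (.ev (nat_lit 1453) (nat_lit 32768) .dd))) (.br (nat_lit
 6) (.ch (nat_lit 3) (.ev (nat_lit 1440) (nat_lit 33024) (.ev (nat_lit 1472) (nat_lit 268435458) .dd))) (.ch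
 (nat_lit 6) (.ev (nat_lit 1440) (nat_lit 268468226) (.ev (nat_lit 1453) (nat_lit 256) .dd))))))))))))))) (.br
 (nat_lit 34) (.br (nat_lit 31) (.ch (nat_lit 29) (.ev (nat_lit 52) (nat_lit 8953872) (.ev (nat_lit 448)
 (nat_lit 285491462) .dd))) (.br (nat_lit 33) (.ch (nat_lit 31) (.ev (nat_lit 52) (nat_lit 277364756) (.ev
 (nat_lit 740) (nat_lit 8192) (.ev (nat_lit 1184) (nat_lit 262144) (.nd (nat_lit 1424) (.br (nat_lit 2) (.ch
 (nat_lit 0) (.ev (nat_lit 1440) (nat_lit 16777218) (.ev (nat_lit 1488) (nat_lit 32768) (.ev (nat_lit 1501)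
 (nat_lit 256) .dd)))) (.br (nat_lit 6) (.ch (nat_lit 2) (.ev (nat_lit 1440) (nat_lit 256) (.ev (nat_lit 1536)
 (nat_lit 32768) (.nd (nat_lit 1616) (.ch (nat_lit 6) (.nd (nat_lit 1633) (.br (nat_lit 58) (.ch (nat_lit 28)
 (.nd (nat_lit 1664) (.br (nat_lit 5) (.ch (nat_lit 3) (.fin (nat_lit 576436013314294332))) (.ch (nat_lit 5)
 (.ev (nat_lit 1680) (nat_lit 16777218) .dd))))) (.ch (nat_lit 58) (.ev (nat_lit 1649) (nat_lit 16777218)
 .dd))))))))) (.ch (nat_lit 6) (.ev (nat_lit 1440) (nat_lit 16809986) (.ev (nat_lit 1453) (nat_lit 256)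
 .dd)))))))))) (.ch (nat_lit 33) (.ev (nat_lit 52) (nat_lit 16810246) (.ev (nat_lit 592) (nat_lit 277635088)
 .dd))))) (.br (nat_lit 36) (.ch (nat_lit 34) (.ev (nat_lit 52) (nat_lit 277659652) (.nd (nat_lit 1424) (.br
 (nat_lit 5) (.br (nat_lit 3) (.ch (nat_lit 0) (.ev (nat_lit 1440) (nat_lit 8450) (.fin (nat_lit
 576458003520635457)))) (.ch (nat_lit 3) (.ev (nat_lit 1440) (nat_lit 16785682) .dd))) (.br (nat_lit 6) (.ch
 (nat_lit 5) (.ev (nat_lit 1440) (nat_lit 16777488) (.ev (nat_lit 1552) (nat_lit 8192) (.ev (nat_lit 1565)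
 (nat_lit 2) .dd)))) (.ch (nat_lit 6) (.ev (nat_lit 1440) (nat_lit 16785426) (.ev (nat_lit 1453) (nat_lit 256)
 .dd)))))))) (.br (nat_lit 38) (.ch (nat_lit 36) (.ev (nat_lit 52) (nat_lit 827396) (.ev (nat_lit 276) (nat_lit
 16384) (.ev (nat_lit 404) (nat_lit 256) (.ev (nat_lit 436) (nat_lit 16) (.ev (nat_lit 1376) (nat_lit 16777216)
 (.nd (nat_lit 1424) (.br (nat_lit 5) (.br (nat_lit 3) (.ch (nat_lit 2) (.ev (nat_lit 1440) (nat_lit 268435456)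
 (.ev (nat_lit 1456) (nat_lit 2) (.ev (nat_lit 1469) (nat_lit 8388608) .dd)))) (.ch (nat_lit 3) (.ev (nat_lit
 1440) (nat_lit 8388610) (.ev (nat_lit 1453) (nat_lit 268435456) .dd)))) (.br (nat_lit 6) (.ch (nat_lit 5) (.ev
 (nat_lit 1440) (nat_lit 276824064) (.ev (nat_lit 1453) (nat_lit 2) .dd))) (.ch (nat_lit 6) (.ev (nat_lit 1440)
 (nat_lit 8388610) (.ev (nat_lit 1453) (nat_lit 268435456) .dd)))))))))))) (.ch (nat_lit 38) (.ev (nat_lit 52)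
 (nat_lit 286007316) (.ev (nat_lit 148) (nat_lit 256) (.ev (nat_lit 212) (nat_lit 2) (.ev (nat_lit 340)
 (nat_lit 8388608) (.ev (nat_lit 500) (nat_lit 32768) (.ev (nat_lit 509) (nat_lit 16384) .dd)))))))))))) (.br
 (nat_lit 54) (.br (nat_lit 47) (.br (nat_lit 43) (.br (nat_lit 42) (.ch (nat_lit 39) (.ev (nat_lit 52)
 (nat_lit 277356546) (.ev (nat_lit 676) (nat_lit 16777216) (.ev (nat_lit 708) (nat_lit 256) (.ev (nat_lit 976)
 (nat_lit 16388) (.nd (nat_lit 1424) (.br (nat_lit 3) (.ch (nat_lit 2) (.ev (nat_lit 1440) (nat_lit 294912)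
 (.ev (nat_lit 1453) (nat_lit 16) .dd))) (.br (nat_lit 6) (.ch (nat_lit 3) (.ev (nat_lit 1440) (nat_lit 16)
 (.ev (nat_lit 1488) (nat_lit 32768) (.ev (nat_lit 1501) (nat_lit 262144) .dd)))) (.ch (nat_lit 6) (.ev
 (nat_lit 1440) (nat_lit 32784) (.ev (nat_lit 1453) (nat_lit 262144) .dd))))))))))) (.ch (nat_lit 42) (.ev
 (nat_lit 52) (nat_lit 285745428) (.ev (nat_lit 612) (nat_lit 8388608) (.ev (nat_lit 992) (nat_lit 16386) (.nd
 (nat_lit 1424) (.br (nat_lit 3) (.ch (nat_lit 0) (.ev (nat_lit 1440) (nat_lit 262144) (.ev (nat_lit 1453)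
 (nat_lit 32768) .dd))) (.br (nat_lit 6) (.ch (nat_lit 3) (.ev (nat_lit 1440) (nat_lit 294912) .dd)) (.ch
 (nat_lit 6) (.ev (nat_lit 1440) (nat_lit 32768) (.ev (nat_lit 1453) (nat_lit 262144) .dd))))))))))) (.br
 (nat_lit 44) (.ch (nat_lit 43) (.ev (nat_lit 52) (nat_lit 276848660) (.ev (nat_lit 772) (nat_lit 2) (.ev
 (nat_lit 1312) (nat_lit 32768) (.nd (nat_lit 1424) (.br (nat_lit 5) (.ch (nat_lit 0) (.ev (nat_lit 1440)
 (nat_lit 262400) (.ev (nat_lit 1572) (nat_lit 524288) (.ev (nat_lit 1581) (nat_lit 16777216) .dd)))) (.br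
 (nat_lit 6) (.ch (nat_lit 5) (.ev (nat_lit 1456) (nat_lit 262144) (.ev (nat_lit 1472) (nat_lit 256) (.ev
 (nat_lit 1572) (nat_lit 524288) (.ev (nat_lit 1581) (nat_lit 16777216) .dd))))) (.ch (nat_lit 6) (.ev (nat_lit
 1440) (nat_lit 17301504) (.ev (nat_lit 1472) (nat_lit 262400) .dd)))))))))) (.br (nat_lit 46) (.ch (nat_lit
 44) (.ev (nat_lit 52) (nat_lit 276848640) (.ev (nat_lit 404) (nat_lit 524288) (.ev (nat_lit 468) (nat_lit
 32768) (.ev (nat_lit 804) (nat_lit 262144) (.nd (nat_lit 1424) (.br (nat_lit 5) (.br (nat_lit 3) (.ch (nat_lit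
 0) (.ev (nat_lit 1440) (nat_lit 262) (.fin (nat_lit 576458003520635457)))) (.ch (nat_lit 3) (.ev (nat_lit
 1440) (nat_lit 16777488) (.ev (nat_lit 1456) (nat_lit 2) (.ev (nat_lit 1469) (nat_lit 4) .dd))))) (.br
 (nat_lit 6) (.ch (nat_lit 5) (.ev (nat_lit 1440) (nat_lit 16777236) (.ev (nat_lit 1472) (nat_lit 258) .dd)))
 (.ch (nat_lit 6) (.ev (nat_lit 1440) (nat_lit 16777494) .dd)))))))))) (.ch (nat_lit 46) (.ev (nat_lit 52)
 (nat_lit 8396802) (.ev (nat_lit 180) (nat_lit 272) (.ev (nat_lit 612) (nat_lit 262144) (.nd (nat_lit 1424)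
 (.br (nat_lit 2) (.ch (nat_lit 0) (.ev (nat_lit 1440) (nat_lit 268435456) (.ev (nat_lit 1488) (nat_lit 557056)
 (.ev (nat_lit 1520) (nat_lit 4) (.nd (nat_lit 1616) (.ch (nat_lit 3) (.nd (nat_lit 1633) (.br (nat_lit 33)
 (.br (nat_lit 24) (.ch (nat_lit 16) (.ev (nat_lit 1649) (nat_lit 16793600) .dd)) (.ch (nat_lit 24) (.ev
 (nat_lit 1649) (nat_lit 16384) (.ev (nat_lit 1661) (nat_lit 16777216) .dd)))) (.br (nat_lit 41) (.ch (nat_lit
 33) (.ev (nat_lit 1649) (nat_lit 16384) (.ev (nat_lit 1661) (nat_lit 16777216) .dd))) (.br (nat_lit 48) (.ch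
 (nat_lit 41) (.ev (nat_lit 1649) (nat_lit 16793600) .dd)) (.ch (nat_lit 48) (.nd (nat_lit 1664) (.br (nat_lit
 4) (.ch (nat_lit 0) (.ev (nat_lit 1680) (nat_lit 16793600) .dd)) (.ch (nat_lit 4) (.fin (nat_lit
 576456904023687736)))))))))))))))) (.br (nat_lit 6) (.ch (nat_lit 2) (.ev (nat_lit 1440) (nat_lit 17317892)
 (.fin (nat_lit 576474496195052092)))) (.ch (nat_lit 6) (.ev (nat_lit 1440) (nat_lit 17350660) (.ev (nat_lit
 1453) (nat_lit 268435456) .dd))))))))))))) (.br (nat_lit 50) (.br (nat_lit 48) (.ch (nat_lit 47) (.ev (nat_lit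
 52) (nat_lit 319504) (.ev (nat_lit 148) (nat_lit 2) (.ev (nat_lit 308) (nat_lit 4) (.ev (nat_lit 436) (nat_lit
 16777216) (.ev (nat_lit 1232) (nat_lit 524288) (.nd (nat_lit 1424) (.br (nat_lit 3) (.ch (nat_lit 0) (.ev
 (nat_lit 1440) (nat_lit 268435712) (.ev (nat_lit 1453) (nat_lit 8388608) .dd))) (.br (nat_lit 6) (.ch (nat_lit
 3) (.ev (nat_lit 1440) (nat_lit 276824320) .dd)) (.ch (nat_lit 6) (.ev (nat_lit 1440) (nat_lit 8388608) (.ev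
 (nat_lit 1488) (nat_lit 268435456) (.ev (nat_lit 1501) (nat_lit 256) .dd))))))))))))) (.br (nat_lit 49) (.ch
 (nat_lit 48) (.ev (nat_lit 52) (nat_lit 285229058) (.ev (nat_lit 84) (nat_lit 524288) (.ev (nat_lit 116)
 (nat_lit 256) (.ev (nat_lit 580) (nat_lit 16) (.ev (nat_lit 644) (nat_lit 32768) (.nd (nat_lit 1424) (.br
 (nat_lit 5) (.ch (nat_lit 2) (.ev (nat_lit 1440) (nat_lit 8396800) (.ev (nat_lit 1472) (nat_lit 262148) .dd)))
 (.br (nat_lit 6) (.ch (nat_lit 5) (.ev (nat_lit 1440) (nat_lit 270340) (.ev (nat_lit 1453) (nat_lit 8388608)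
 .dd))) (.ch (nat_lit 6) (.ev (nat_lit 1440) (nat_lit 8650756) (.ev (nat_lit 1453) (nat_lit 8192)
 .dd)))))))))))) (.ch (nat_lit 49) (.ev (nat_lit 52) (nat_lit 25223170) (.ev (nat_lit 84) (nat_lit 256) (.ev
 (nat_lit 740) (nat_lit 16) (.nd (nat_lit 1424) (.br (nat_lit 3) (.ch (nat_lit 0) (.ev (nat_lit 1440) (nat_lit
 786436) (.ev (nat_lit 1453) (nat_lit 268435456) .dd))) (.br (nat_lit 5) (.ch (nat_lit 3) (.ev (nat_lit 1440)
 (nat_lit 268697600) (.fin (nat_lit 576486590849172036)))) (.ch (nat_lit 5) (.ev (nat_lit 1440) (nat_lit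
 268435460) (.ev (nat_lit 1456) (nat_lit 524288) (.ev (nat_lit 1469) (nat_lit 262144) .dd))))))))))))) (.br
 (nat_lit 51) (.ch (nat_lit 50) (.ev (nat_lit 52) (nat_lit 573696) (.ev (nat_lit 276) (nat_lit 8192) (.ev
 (nat_lit 308) (nat_lit 16) (.nd (nat_lit 1424) (.br (nat_lit 5) (.br (nat_lit 3) (.ch (nat_lit 2) (.ev
 (nat_lit 1440) (nat_lit 277086210) (.ev (nat_lit 1472) (nat_lit 16777216) (.ev (nat_lit 1485) (nat_lit 4)
 .dd)))) (.ch (nat_lit 3) (.ev (nat_lit 1440) (nat_lit 285212676) (.ev (nat_lit 1552) (nat_lit 262144) (.ev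
 (nat_lit 1572) (nat_lit 2) (.ev (nat_lit 1581) (nat_lit 8388608) .dd)))))) (.br (nat_lit 6) (.ch (nat_lit 5)
 (.ev (nat_lit 1440) (nat_lit 268697604) (.ev (nat_lit 1552) (nat_lit 16777216) (.ev (nat_lit 1572) (nat_lit 2)
 (.ev (nat_lit 1581) (nat_lit 8388608) .dd))))) (.ch (nat_lit 6) (.ev (nat_lit 1440) (nat_lit 25165830) (.ev
 (nat_lit 1472) (nat_lit 262144) (.ev (nat_lit 1485) (nat_lit 268435456) .dd))))))))))) (.br (nat_lit 53) (.ch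
 (nat_lit 51) (.ev (nat_lit 52) (nat_lit 277618946) (.ev (nat_lit 116) (nat_lit 16) (.ev (nat_lit 148) (nat_lit
 16384) (.ev (nat_lit 244) (nat_lit 4) (.ev (nat_lit 816) (nat_lit 16809984) .dd)))))) (.ch (nat_lit 53) (.ev
 (nat_lit 52) (nat_lit 285475094) (.ev (nat_lit 708) (nat_lit 524288) (.nd (nat_lit 1424) (.br (nat_lit 3) (.ch
 (nat_lit 0) (.ev (nat_lit 1440) (nat_lit 24576) (.ev (nat_lit 1472) (nat_lit 8421376) .dd))) (.br (nat_lit 5)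
 (.ch (nat_lit 3) (.ev (nat_lit 1440) (nat_lit 8396800) (.ev (nat_lit 1456) (nat_lit 16384) (.ev (nat_lit 1469)
 (nat_lit 32768) .dd)))) (.ch (nat_lit 5) (.ev (nat_lit 1440) (nat_lit 8421376) (.fin (nat_lit
 576475595732894256)))))))))))))) (.br (nat_lit 64) (.br (nat_lit 57) (.br (nat_lit 55) (.ch (nat_lit 54) (.ev
 (nat_lit 52) (nat_lit 276840720) (.ev (nat_lit 148) (nat_lit 4) (.ev (nat_lit 308) (nat_lit 2) (.ev (nat_lit
 436) (nat_lit 524288) (.ev (nat_lit 1248) (nat_lit 16777216) (.nd (nat_lit 1424) (.br (nat_lit 5) (.ch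
 (nat_lit 2) (.ev (nat_lit 1440) (nat_lit 303104) .dd)) (.br (nat_lit 6) (.ch (nat_lit 5) (.ev (nat_lit 1440)
 (nat_lit 270336) (.ev (nat_lit 1453) (nat_lit 32768) .dd))) (.ch (nat_lit 6) (.ev (nat_lit 1440) (nat_lit
 32768) (.ev (nat_lit 1488) (nat_lit 262144) (.ev (nat_lit 1501) (nat_lit 8192) .dd))))))))))))) (.ch (nat_lit
 55) (.ev (nat_lit 52) (nat_lit 293896210) (.nd (nat_lit 1424) (.br (nat_lit 5) (.br (nat_lit 2) (.ch (nat_lit
 0) (.ev (nat_lit 1440) (nat_lit 548864) (.ev (nat_lit 1552) (nat_lit 256) (.ev (nat_lit 1565) (nat_lit 4)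
 .dd)))) (.ch (nat_lit 2) (.ev (nat_lit 1440) (nat_lit 549124) .dd))) (.br (nat_lit 6) (.ch (nat_lit 5) (.ev
 (nat_lit 1440) (nat_lit 8452) (.fin (nat_lit 576464600590402111)))) (.ch (nat_lit 6) (.ev (nat_lit 1440)
 (nat_lit 540932) (.ev (nat_lit 1453) (nat_lit 8192) .dd))))))))) (.br (nat_lit 58) (.ch (nat_lit 57) (.ev
 (nat_lit 52) (nat_lit 17088530) (.ev (nat_lit 740) (nat_lit 256) (.ev (nat_lit 1200) (nat_lit 268435456) (.nd
 (nat_lit 1424) (.br (nat_lit 5) (.ch (nat_lit 3) (.ev (nat_lit 1440) (nat_lit 8192) (.ev (nat_lit 1536)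
 (nat_lit 8388608) (.nd (nat_lit 1616) (.ch (nat_lit 2) (.nd (nat_lit 1633) (.br (nat_lit 58) (.ch (nat_lit 27)
 (.ev (nat_lit 1649) (nat_lit 524292) .dd)) (.ch (nat_lit 58) (.nd (nat_lit 1664) (.br (nat_lit 5) (.ch
 (nat_lit 3) (.ev (nat_lit 1680) (nat_lit 524292) .dd)) (.ch (nat_lit 5) (.fin (nat_lit
 576436013272351292))))))))))))) (.br (nat_lit 6) (.ch (nat_lit 5) (.ev (nat_lit 1440) (nat_lit 524292) (.ev
 (nat_lit 1488) (nat_lit 8388608) (.ev (nat_lit 1501) (nat_lit 8192) .dd)))) (.ch (nat_lit 6) (.ev (nat_lit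
 1440) (nat_lit 8912900) (.ev (nat_lit 1453) (nat_lit 8192) .dd)))))))))) (.br (nat_lit 62) (.ch (nat_lit 58)
 (.ev (nat_lit 52) (nat_lit 25698310) (.ev (nat_lit 212) (nat_lit 16384) (.ev (nat_lit 340) (nat_lit 268435456)
 (.ev (nat_lit 1072) (nat_lit 32784) (.nd (nat_lit 1424) (.br (nat_lit 3) (.ch (nat_lit 2) (.ev (nat_lit 1456)
 (nat_lit 256) (.ev (nat_lit 1469) (nat_lit 262144) .dd))) (.br (nat_lit 6) (.ch (nat_lit 3) (.ev (nat_lit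
 1440) (nat_lit 262400) .dd)) (.ch (nat_lit 6) (.ev (nat_lit 1440) (nat_lit 262144) (.ev (nat_lit 1453)
 (nat_lit 256) .dd))))))))))) (.ch (nat_lit 62) (.ev (nat_lit 52) (nat_lit 311570) (.ev (nat_lit 772) (nat_lit
 4) (.ev (nat_lit 1328) (nat_lit 8388608) (.nd (nat_lit 1424) (.br (nat_lit 5) (.ch (nat_lit 0) (.ev (nat_lit
 1456) (nat_lit 268435456) (.ev (nat_lit 1472) (nat_lit 8192) (.ev (nat_lit 1572) (nat_lit 524288) (.ev
 (nat_lit 1581) (nat_lit 16777216) .dd))))) (.br (nat_lit 6) (.ch (nat_lit 5) (.ev (nat_lit 1440) (nat_lit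
 268443648) (.ev (nat_lit 1572) (nat_lit 524288) (.ev (nat_lit 1581) (nat_lit 16777216) .dd)))) (.ch (nat_lit
 6) (.ev (nat_lit 1440) (nat_lit 17301504) (.ev (nat_lit 1472) (nat_lit 268443648) .dd))))))))))))) (.br
 (nat_lit 68) (.br (nat_lit 65) (.ch (nat_lit 64) (.ev (nat_lit 52) (nat_lit 25215232) (.ev (nat_lit 480)
 (nat_lit 269230102) .dd))) (.br (nat_lit 67) (.ch (nat_lit 65) (.ev (nat_lit 52) (nat_lit 17588482) (.ev
 (nat_lit 612) (nat_lit 32768) (.ev (nat_lit 1008) (nat_lit 20) (.nd (nat_lit 1424) (.br (nat_lit 5) (.ch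
 (nat_lit 2) (.ev (nat_lit 1440) (nat_lit 276824064) .dd)) (.br (nat_lit 6) (.ch (nat_lit 5) (.ev (nat_lit
 1440) (nat_lit 268435456) (.ev (nat_lit 1453) (nat_lit 8388608) .dd))) (.ch (nat_lit 6) (.ev (nat_lit 1440)
 (nat_lit 8388608) (.ev (nat_lit 1453) (nat_lit 268435456) .dd)))))))))) (.ch (nat_lit 67) (.ev (nat_lit 52)
 (nat_lit 268992516) (.ev (nat_lit 436) (nat_lit 2) (.ev (nat_lit 580) (nat_lit 8192) (.nd (nat_lit 1424) (.br
 (nat_lit 2) (.ch (nat_lit 0) (.ev (nat_lit 1440) (nat_lit 262144) (.ev (nat_lit 1488) (nat_lit 8388864) (.ev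
 (nat_lit 1520) (nat_lit 16) (.nd (nat_lit 1616) (.ch (nat_lit 3) (.nd (nat_lit 1633) (.br (nat_lit 33) (.br
 (nat_lit 3) (.ch (nat_lit 2) (.ev (nat_lit 1649) (nat_lit 16793600) .dd)) (.ch (nat_lit 3) (.ev (nat_lit 1649)
 (nat_lit 16384) (.ev (nat_lit 1661) (nat_lit 16777216) .dd)))) (.br (nat_lit 48) (.ch (nat_lit 33) (.ev
 (nat_lit 1649) (nat_lit 16793600) .dd)) (.br (nat_lit 70) (.ch (nat_lit 48) (.ev (nat_lit 1649) (nat_lit
 16384) (.ev (nat_lit 1661) (nat_lit 16777216) .dd))) (.ch (nat_lit 70) (.nd (nat_lit 1664) (.br (nat_lit 5)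
 (.ch (nat_lit 4) (.fin (nat_lit 576456904023687736))) (.ch (nat_lit 5) (.ev (nat_lit 1680) (nat_lit 16793600)
 .dd))))))))))))))) (.br (nat_lit 3) (.ch (nat_lit 2) (.ev (nat_lit 1440) (nat_lit 25182480) (.ev (nat_lit
 1453) (nat_lit 262144) .dd))) (.ch (nat_lit 3) (.ev (nat_lit 1440) (nat_lit 16793872) (.fin (nat_lit
 576448107915985476))))))))))))) (.br (nat_lit 69) (.ch (nat_lit 68) (.ev (nat_lit 52) (nat_lit 269246470) (.ev
 (nat_lit 708) (nat_lit 16777216) (.nd (nat_lit 1424) (.br (nat_lit 2) (.ch (nat_lit 0) (.ev (nat_lit 1440)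
 (nat_lit 8421376) (.fin (nat_lit 576475595690951216)))) (.br (nat_lit 5) (.ch (nat_lit 2) (.ev (nat_lit 1440)
 (nat_lit 33024) (.ev (nat_lit 1456) (nat_lit 16) (.ev (nat_lit 1469) (nat_lit 8388608) .dd)))) (.ch (nat_lit
 5) (.ev (nat_lit 1440) (nat_lit 272) (.ev (nat_lit 1472) (nat_lit 8421376) .dd))))))))) (.br (nat_lit 70) (.ch
 (nat_lit 69) (.ev (nat_lit 52) (nat_lit 17072388) (.ev (nat_lit 676) (nat_lit 524288) (.ev (nat_lit 708)
 (nat_lit 8192) (.ev (nat_lit 1024) (nat_lit 18) (.nd (nat_lit 1424) (.br (nat_lit 3) (.ch (nat_lit 2) (.ev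
 (nat_lit 1440) (nat_lit 16384) (.ev (nat_lit 1488) (nat_lit 8388608) (.ev (nat_lit 1501) (nat_lit 268435456)
 .dd)))) (.br (nat_lit 6) (.ch (nat_lit 3) (.ev (nat_lit 1440) (nat_lit 276824064) (.ev (nat_lit 1453) (nat_lit
 16384) .dd))) (.ch (nat_lit 6) (.ev (nat_lit 1440) (nat_lit 8404992) (.ev (nat_lit 1453) (nat_lit 268435456)
 .dd))))))))))) (.ch (nat_lit 70) (.ev (nat_lit 52) (nat_lit 268468496) (.ev (nat_lit 320) (nat_lit 25976838)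
 .dd)))))))))))

/-- The trie. -/
noncomputable def T : Tr := .nd (nat_lit 1000000) (.br (nat_lit 1) (.ch (nat_lit 0) (.ev (nat_lit 0) (nat_lit 2147483647) .dd)) (.br (nat_lit 3) (.ch (nat_lit 1) T1) (.ch (nat_lit 3) T3)))

/-- The possible values. -/
noncomputable def oks : List ℕ := [85, 274, 610, 2235]

/-- The parameters. -/
noncomputable def S : Pr := ⟨fun i l e => lget mz (lget [] (lget [] tabs i) l) e, oks, [(nat_lit 0), (nat_lit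
 1), (nat_lit 0), (nat_lit 0), (nat_lit 1), (nat_lit 0)], T, (nat_lit 2147483647), (nat_lit 1073946281),
 (nat_lit 31), [(nat_lit 1), (nat_lit 87122173451996128837)], [(nat_lit 40353607), (nat_lit 25411681)]⟩

/-- Nothing known. -/
noncomputable def cs0 : Cs := (.cons (nat_lit 7) (nat_lit 0) (nat_lit 1) (.cons (nat_lit 71) (nat_lit 0) (nat_lit 1) .nil))

theorem part_1 : part S cs0 (nat_lit 1) = true := by decide +kernel

theorem part_3 : part S cs0 (nat_lit 3) = true := by decide +kernel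

/-- Data of a prime. -/
noncomputable def D0 : PD := ⟨(nat_lit 7), (nat_lit 9), (1562932, 1, 2), (36264346, 14618947, 12267798), (17529001, 32002150, 38949929)⟩

theorem D0_ok : D0.Ok := pdb_sound (s := 1) (C := ⟨⟨7, -2, -11, 7, 2, 4, 0, 3, -1⟩, (5, 2, 3)⟩) (by show Nat.Prime 7; norm_num) (by decide +kernel)

/-- Lines of the first type. -/
noncomputable def Cl0 : List C1 := [⟨⟨7, 2, -11, 7, -2, 4, 0, -3, -1⟩, (6, 1, 5)⟩,
  ⟨⟨0, 0, 0, 0, 0, 0, 0, 0, 0⟩, (0, 0, 0)⟩,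
  ⟨⟨0, 0, 0, 0, 0, 0, 0, 0, 0⟩, (0, 0, 0)⟩,
  ⟨⟨0, 0, 0, 0, 0, 0, 0, 0, 0⟩, (0, 0, 0)⟩,
  ⟨⟨0, 0, 0, 0, 0, 0, 0, 0, 0⟩, (0, 0, 0)⟩,
  ⟨⟨0, 0, 0, 0, 0, 0, 0, 0, 0⟩, (0, 0, 0)⟩,
  ⟨⟨0, 0, 0, 0, 0, 0, 0, 0, 0⟩, (0, 0, 0)⟩]

/-- Data of a prime. -/
noncomputable def D1 : PD := ⟨(nat_lit 71), (nat_lit 4), (11251584, 9, 33), (23923522, 720358, 4464657), (17637591, 10151933, 2206443)⟩

theorem D1_ok : D1.Ok := pdb_sound (s := 11) (C := ⟨⟨59, 34, -112, -29, 94, 37, -24, -3, -11⟩, (59, 42, 47)⟩) (by show Nat.Prime 71; norm_num) (by decide +kernel)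

/-- Lines of the first type. -/
noncomputable def Cl1 : List C1 := [⟨⟨-59, -34, -53, 29, -94, 8, 24, 3, -35⟩, (17, 47, 34)⟩,
  ⟨⟨0, 0, 0, 0, 0, 0, 0, 0, 0⟩, (0, 0, 0)⟩,
  ⟨⟨49, -74, -77, 79, 14, 28, 12, 21, -29⟩, (59, 56, 13)⟩,
  ⟨⟨0, 0, 0, 0, 0, 0, 0, 0, 0⟩, (0, 0, 0)⟩,
  ⟨⟨0, 0, 0, 0, 0, 0, 0, 0, 0⟩, (0, 0, 0)⟩,
  ⟨⟨0, 0, 0, 0, 0, 0, 0, 0, 0⟩, (0, 0, 0)⟩,
  ⟨⟨79, -14, -107, 49, 74, 28, -12, 21, -17⟩, (44, 21, 5)⟩,
  ⟨⟨0, 0, 0, 0, 0, 0, 0, 0, 0⟩, (0, 0, 0)⟩,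
  ⟨⟨0, 0, 0, 0, 0, 0, 0, 0, 0⟩, (0, 0, 0)⟩,
  ⟨⟨39, 66, -92, -89, 46, 37, -8, -19, -23⟩, (13, 65, 21)⟩,
  ⟨⟨19, 46, -107, -91, -26, 8, 12, -27, -19⟩, (7, 30, 53)⟩,
  ⟨⟨0, 0, 0, 0, 0, 0, 0, 0, 0⟩, (0, 0, 0)⟩,
  ⟨⟨0, 0, 0, 0, 0, 0, 0, 0, 0⟩, (0, 0, 0)⟩,
  ⟨⟨99, 6, -67, 11, -94, 32, -4, -11, -31⟩, (13, 33, 59)⟩,
  ⟨⟨-39, -66, -53, -89, 46, 52, 8, 19, -31⟩, (17, 57, 22)⟩,
  ⟨⟨0, 0, 0, 0, 0, 0, 0, 0, 0⟩, (0, 0, 0)⟩,
  ⟨⟨0, 0, 0, 0, 0, 0, 0, 0, 0⟩, (0, 0, 0)⟩,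
  ⟨⟨19, -46, -107, -91, 26, 8, 12, 27, -19⟩, (15, 44, 2)⟩,
  ⟨⟨0, 0, 0, 0, 0, 0, 0, 0, 0⟩, (0, 0, 0)⟩,
  ⟨⟨0, 0, 0, 0, 0, 0, 0, 0, 0⟩, (0, 0, 0)⟩,
  ⟨⟨51, 66, -88, -59, 74, 67, -20, -5, -17⟩, (59, 64, 59)⟩,
  ⟨⟨49, 74, -77, 79, -14, 28, 12, -21, -29⟩, (6, 43, 29)⟩,
  ⟨⟨0, 0, 0, 0, 0, 0, 0, 0, 0⟩, (0, 0, 0)⟩,
  ⟨⟨0, 0, 0, 0, 0, 0, 0, 0, 0⟩, (0, 0, 0)⟩,
  ⟨⟨0, 0, 0, 0, 0, 0, 0, 0, 0⟩, (0, 0, 0)⟩,
  ⟨⟨31, 74, -83, -81, 54, 68, -16, -13, -19⟩, (8, 2, 60)⟩,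
  ⟨⟨0, 0, 0, 0, 0, 0, 0, 0, 0⟩, (0, 0, 0)⟩,
  ⟨⟨11, 94, -43, -99, 6, 32, 4, -11, -35⟩, (69, 18, 38)⟩,
  ⟨⟨-51, 66, -37, 59, 74, 8, 20, -5, -37⟩, (25, 56, 25)⟩,
  ⟨⟨0, 0, 0, 0, 0, 0, 0, 0, 0⟩, (0, 0, 0)⟩,
  ⟨⟨39, -66, -92, -89, -46, 37, -8, 19, -23⟩, (43, 2, 64)⟩,
  ⟨⟨0, 0, 0, 0, 0, 0, 0, 0, 0⟩, (0, 0, 0)⟩,
  ⟨⟨59, -34, -112, -29, -94, 37, -24, 3, -11⟩, (9, 4, 18)⟩,
  ⟨⟨0, 0, 0, 0, 0, 0, 0, 0, 0⟩, (0, 0, 0)⟩,
  ⟨⟨0, 0, 0, 0, 0, 0, 0, 0, 0⟩, (0, 0, 0)⟩,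
  ⟨⟨-59, 34, -53, 29, 94, 8, 24, -3, -35⟩, (8, 43, 16)⟩,
  ⟨⟨0, 0, 0, 0, 0, 0, 0, 0, 0⟩, (0, 0, 0)⟩,
  ⟨⟨11, -94, -43, -99, -6, 32, 4, 11, -35⟩, (2, 53, 33)⟩,
  ⟨⟨0, 0, 0, 0, 0, 0, 0, 0, 0⟩, (0, 0, 0)⟩,
  ⟨⟨0, 0, 0, 0, 0, 0, 0, 0, 0⟩, (0, 0, 0)⟩,
  ⟨⟨51, -66, -88, -59, -74, 67, -20, 5, -17⟩, (18, 46, 18)⟩,
  ⟨⟨-19, -46, -88, -91, -26, 83, -12, 27, -7⟩, (26, 61, 65)⟩,
  ⟨⟨0, 0, 0, 0, 0, 0, 0, 0, 0⟩, (0, 0, 0)⟩,
  ⟨⟨0, 0, 0, 0, 0, 0, 0, 0, 0⟩, (0, 0, 0)⟩,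
  ⟨⟨0, 0, 0, 0, 0, 0, 0, 0, 0⟩, (0, 0, 0)⟩,
  ⟨⟨-19, 46, -88, -91, 26, 83, -12, -27, -7⟩, (18, 4, 45)⟩,
  ⟨⟨0, 0, 0, 0, 0, 0, 0, 0, 0⟩, (0, 0, 0)⟩,
  ⟨⟨0, 0, 0, 0, 0, 0, 0, 0, 0⟩, (0, 0, 0)⟩,
  ⟨⟨0, 0, 0, 0, 0, 0, 0, 0, 0⟩, (0, 0, 0)⟩,
  ⟨⟨0, 0, 0, 0, 0, 0, 0, 0, 0⟩, (0, 0, 0)⟩,
  ⟨⟨0, 0, 0, 0, 0, 0, 0, 0, 0⟩, (0, 0, 0)⟩,
  ⟨⟨0, 0, 0, 0, 0, 0, 0, 0, 0⟩, (0, 0, 0)⟩,
  ⟨⟨99, -6, -67, 11, 94, 32, -4, 11, -31⟩, (48, 29, 54)⟩,
  ⟨⟨0, 0, 0, 0, 0, 0, 0, 0, 0⟩, (0, 0, 0)⟩,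
  ⟨⟨0, 0, 0, 0, 0, 0, 0, 0, 0⟩, (0, 0, 0)⟩,
  ⟨⟨0, 0, 0, 0, 0, 0, 0, 0, 0⟩, (0, 0, 0)⟩,
  ⟨⟨-51, -66, -37, 59, -74, 8, 20, 5, -37⟩, (55, 38, 55)⟩,
  ⟨⟨0, 0, 0, 0, 0, 0, 0, 0, 0⟩, (0, 0, 0)⟩,
  ⟨⟨0, 0, 0, 0, 0, 0, 0, 0, 0⟩, (0, 0, 0)⟩,
  ⟨⟨-31, -74, -52, -81, 54, 13, 16, 13, -35⟩, (64, 55, 54)⟩,
  ⟨⟨-31, 74, -52, -81, -54, 13, 16, -13, -35⟩, (11, 15, 47)⟩,
  ⟨⟨-39, 66, -53, -89, -46, 52, 8, -19, -31⟩, (58, 65, 50)⟩,
  ⟨⟨0, 0, 0, 0, 0, 0, 0, 0, 0⟩, (0, 0, 0)⟩,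
  ⟨⟨79, 14, -107, 49, -74, 28, -12, -21, -17⟩, (57, 3, 21)⟩,
  ⟨⟨0, 0, 0, 0, 0, 0, 0, 0, 0⟩, (0, 0, 0)⟩,
  ⟨⟨0, 0, 0, 0, 0, 0, 0, 0, 0⟩, (0, 0, 0)⟩,
  ⟨⟨31, -74, -83, -81, -54, 68, -16, 13, -19⟩, (61, 33, 67)⟩,
  ⟨⟨0, 0, 0, 0, 0, 0, 0, 0, 0⟩, (0, 0, 0)⟩,
  ⟨⟨0, 0, 0, 0, 0, 0, 0, 0, 0⟩, (0, 0, 0)⟩,
  ⟨⟨0, 0, 0, 0, 0, 0, 0, 0, 0⟩, (0, 0, 0)⟩,
  ⟨⟨0, 0, 0, 0, 0, 0, 0, 0, 0⟩, (0, 0, 0)⟩]

/-- Data of a prime. -/
noncomputable def Dm : PD := ⟨(nat_lit 31), (nat_lit 2), (435, 8, 13), (281, 829, 278), (666, 926, 286)⟩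

theorem Dm_ok : Dm.Ok := pdb_sound (s := 3) (C := ⟨⟨11, 26, -43, -19, 34, 32, -12, -3, -1⟩, (11, 12, 19)⟩) (by show Nat.Prime 31; norm_num) (by decide +kernel)

/-- Lines of the first type. -/
noncomputable def Clm : List C1 := [⟨⟨-11, -26, -32, 19, -34, 13, 12, 3, -13⟩, (22, 24, 7)⟩,
  ⟨⟨0, 0, 0, 0, 0, 0, 0, 0, 0⟩, (0, 0, 0)⟩,
  ⟨⟨0, 0, 0, 0, 0, 0, 0, 0, 0⟩, (0, 0, 0)⟩,
  ⟨⟨29, 26, -37, 21, 6, 32, 8, -11, -7⟩, (2, 10, 23)⟩,
  ⟨⟨0, 0, 0, 0, 0, 0, 0, 0, 0⟩, (0, 0, 0)⟩,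
  ⟨⟨21, 6, -53, 29, 26, 8, 8, -11, -1⟩, (6, 26, 20)⟩,
  ⟨⟨0, 0, 0, 0, 0, 0, 0, 0, 0⟩, (0, 0, 0)⟩,
  ⟨⟨29, -26, -37, 21, -6, 32, 8, 11, -7⟩, (27, 11, 16)⟩,
  ⟨⟨0, 0, 0, 0, 0, 0, 0, 0, 0⟩, (0, 0, 0)⟩,
  ⟨⟨-9, -6, -43, -41, 14, 28, 4, 13, -5⟩, (4, 1, 12)⟩,
  ⟨⟨9, -6, -52, -41, -14, 13, -4, 13, -1⟩, (29, 16, 25)⟩,
  ⟨⟨21, -6, -53, 29, -26, 8, 8, 11, -1⟩, (7, 20, 13)⟩,
  ⟨⟨9, 6, -52, -41, 14, 13, -4, -13, -1⟩, (28, 24, 22)⟩,
  ⟨⟨0, 0, 0, 0, 0, 0, 0, 0, 0⟩, (0, 0, 0)⟩,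
  ⟨⟨0, 0, 0, 0, 0, 0, 0, 0, 0⟩, (0, 0, 0)⟩,
  ⟨⟨0, 0, 0, 0, 0, 0, 0, 0, 0⟩, (0, 0, 0)⟩,
  ⟨⟨11, -26, -43, -19, -34, 32, -12, 3, -1⟩, (25, 16, 15)⟩,
  ⟨⟨-9, 6, -43, -41, -14, 28, 4, -13, -5⟩, (3, 24, 9)⟩,
  ⟨⟨0, 0, 0, 0, 0, 0, 0, 0, 0⟩, (0, 0, 0)⟩,
  ⟨⟨0, 0, 0, 0, 0, 0, 0, 0, 0⟩, (0, 0, 0)⟩,
  ⟨⟨0, 0, 0, 0, 0, 0, 0, 0, 0⟩, (0, 0, 0)⟩,
  ⟨⟨0, 0, 0, 0, 0, 0, 0, 0, 0⟩, (0, 0, 0)⟩,
  ⟨⟨0, 0, 0, 0, 0, 0, 0, 0, 0⟩, (0, 0, 0)⟩,
  ⟨⟨0, 0, 0, 0, 0, 0, 0, 0, 0⟩, (0, 0, 0)⟩,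
  ⟨⟨0, 0, 0, 0, 0, 0, 0, 0, 0⟩, (0, 0, 0)⟩,
  ⟨⟨0, 0, 0, 0, 0, 0, 0, 0, 0⟩, (0, 0, 0)⟩,
  ⟨⟨0, 0, 0, 0, 0, 0, 0, 0, 0⟩, (0, 0, 0)⟩,
  ⟨⟨0, 0, 0, 0, 0, 0, 0, 0, 0⟩, (0, 0, 0)⟩,
  ⟨⟨0, 0, 0, 0, 0, 0, 0, 0, 0⟩, (0, 0, 0)⟩,
  ⟨⟨0, 0, 0, 0, 0, 0, 0, 0, 0⟩, (0, 0, 0)⟩,
  ⟨⟨-11, 26, -32, 19, 34, 13, 12, -3, -13⟩, (28, 8, 23)⟩]

/-- Unit moves. -/
noncomputable def U : List Mv := [mz,
  mz,
  ⟨⟨1, 0, 0, 0, -1, 0, 0, 0, 1⟩, .nil, (nat_lit 0), (nat_lit 2), (nat_lit 1), (nat_lit 0), (0, 0, 0), [], 2⟩,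
  mz,
  ⟨⟨-1, 0, 1, 0, 1, 0, 0, 0, 1⟩, .nil, (nat_lit 6), (nat_lit 0), (nat_lit 0), (nat_lit 1), (0, 0, 0), [], 1⟩,
  ⟨⟨-1, 0, 1, 0, -1, 0, 0, 0, 1⟩, .nil, (nat_lit 0), (nat_lit 5), (nat_lit 1), (nat_lit 0), (0, 0, 0), [], 2⟩,
  ⟨⟨-1, 0, 1, 0, 1, 0, 0, 0, 1⟩, .nil, (nat_lit 6), (nat_lit 0), (nat_lit 0), (nat_lit 1), (0, 0, 0), [], 1⟩]

theorem v_ty : tyb Dm S.ty1 Clm = true := by decide +kernel

theorem v_ty0 : tyb D0 (S.tys.getD 0 0) Cl0 = true := by decide +kernel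

theorem v_ty1 : tyb D1 (S.tys.getD 1 0) Cl1 = true := by decide +kernel

theorem v_msc : mscb S D0 [D1] Dm (nat_lit 10) = true := by decide +kernel

theorem v_mv0 : mvsn (nat_lit 985460321740315687) S D0 [D1] Dm (nat_lit 10) 0 D0 = true := by decide +kernel

theorem v_mv1 : mvsn (nat_lit 985460321740315687) S D0 [D1] Dm (nat_lit 10) 1 D1 = true := by decide +kernel

theorem v_mm : mmsn (nat_lit 985460321740315687) S D0 [D1] Dm (nat_lit 10) = true := by decide +kernel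

theorem v_un : unb S D0 (nat_lit 10) U = true := by decide +kernel

theorem v_ok : okb S.oks [(2, 9, 0), (0, 0, 0), (0, 0, 0), (4, 47, 1)] = true := by decide +kernel

theorem v_part : ∀ d < D0.p, (nat_lit 10).testBit d = true → part S (zc (D0 :: [D1])) d = true := by
  intro d hd h
  have h1 : ∀ d < 7, (nat_lit 10).testBit d = true → d = 1 ∨ d = 3 := by decide
  rcases h1 d hd h with rfl | rfl
  · exact part_1
  · exact part_3

theorem main (n : ℕ) (ho : Odd n) (hr : ¬ Rep n) (h0 : Split 7 n) (h1 : Split 71 n) (hm : Split 31 n) :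
    n ∈ EE := by
  refine concln (W := nat_lit 985460321740315687) (S := S) (P0 := D0) (Pl := [D1]) (Pm := Dm) (cn := nat_lit 10) ?_ Dm_ok v_ty ?_ ?_ v_msc ?_ v_mm v_un v_part v_ok
    n ho hr ?_ hm
  · simp only [List.forall_mem_cons]
    exact ⟨D0_ok, D1_ok, fun _ h => absurd h (by simp)⟩
  · exact all2 (φ := fun j P => ∃ L, tyb P (S.tys.getD j 0) L = true) ⟨_, v_ty0⟩ ⟨_, v_ty1⟩
  · exact all2 (φ := fun j P => Nat.ble (S.pks.getD j 0) (Nat.pow P.p P.K) = true) (by decide +kernel) (by decide +kernel)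
  · exact all2 (φ := fun i P => mvsn (nat_lit 985460321740315687) S D0 [D1] Dm (nat_lit 10) i P = true) v_mv0 v_mv1
  · simp only [List.forall_mem_cons]
    exact ⟨h0, h1, fun _ h => absurd h (by simp)⟩

end Pool.Agent.Work.MP_9954fe_nt.P7_71_31

namespace Pool.Agent.Work.MP_9954fe_nt.P7_71_37

/-- Dummy move. -/
noncomputable def mz : Mv := ⟨⟨0, 0, 0, 0, 0, 0, 0, 0, 0⟩, .nil, (nat_lit 0), (nat_lit 0), (nat_lit 0), (nat_lit 0), (0, 0, 0), [], 0⟩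

/-- Moves. -/
noncomputable def t0_1 : List Mv := [
  ⟨⟨-3, 4, -5, 2, -5, -6, 4, 4, -5⟩, (.cons (nat_lit 11870394) (nat_lit 28783777) (nat_lit 28481682) (nat_lit
 1) (.cons (nat_lit 16096881) (nat_lit 9521994) (nat_lit 4355542) (nat_lit 1) .nil)), (nat_lit 13), (nat_lit
 31), (nat_lit 29), (nat_lit 1), (3, 5, 3), [10048865, 4678558], 23⟩,
  ⟨⟨-3, 4, -5, -2, 5, 6, 4, 4, -5⟩, (.cons (nat_lit 37305656) (nat_lit 7036773) (nat_lit 31813562) (nat_lit 1)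
 (.cons (nat_lit 12495992) (nat_lit 1088495) (nat_lit 3067260) (nat_lit 1) .nil)), (nat_lit 15), (nat_lit 3),
 (nat_lit 16), (nat_lit 1), (3, 2, 3), [5604076, 25331572], 28⟩,
  ⟨⟨7, 0, 0, 2, -5, -6, 4, 4, -5⟩, (.cons (nat_lit 23697019) (nat_lit 11044809) (nat_lit 25792226) (nat_lit 1)
 (.cons (nat_lit 17479579) (nat_lit 5234312) (nat_lit 5309263) (nat_lit 1) .nil)), (nat_lit 33), (nat_lit 9),
 (nat_lit 5), (nat_lit 1), (0, 5, 3), [9064028, 11874291], 27⟩,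
  ⟨⟨-3, 4, -5, 2, -5, -6, 4, 4, -5⟩, (.cons (nat_lit 11870394) (nat_lit 28783777) (nat_lit 28481682) (nat_lit
 1) (.cons (nat_lit 16096881) (nat_lit 9521994) (nat_lit 4355542) (nat_lit 1) .nil)), (nat_lit 13), (nat_lit
 31), (nat_lit 29), (nat_lit 1), (3, 5, 3), [10048865, 4678558], 23⟩,
  ⟨⟨-3, 4, -5, 2, -5, -6, 4, 4, -5⟩, (.cons (nat_lit 11870394) (nat_lit 28783777) (nat_lit 28481682) (nat_lit
 1) (.cons (nat_lit 16096881) (nat_lit 9521994) (nat_lit 4355542) (nat_lit 1) .nil)), (nat_lit 13), (nat_lit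
 31), (nat_lit 29), (nat_lit 1), (3, 5, 3), [10048865, 4678558], 23⟩,
  ⟨⟨-3, 4, -5, 2, -5, -6, 4, 4, -5⟩, (.cons (nat_lit 11870394) (nat_lit 28783777) (nat_lit 28481682) (nat_lit
 1) (.cons (nat_lit 16096881) (nat_lit 9521994) (nat_lit 4355542) (nat_lit 1) .nil)), (nat_lit 13), (nat_lit
 31), (nat_lit 29), (nat_lit 1), (3, 5, 3), [10048865, 4678558], 23⟩,
  ⟨⟨7, 0, 0, 2, -5, -6, 4, 4, -5⟩, (.cons (nat_lit 23697019) (nat_lit 11044809) (nat_lit 25792226) (nat_lit 1)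
 (.cons (nat_lit 17479579) (nat_lit 5234312) (nat_lit 5309263) (nat_lit 1) .nil)), (nat_lit 33), (nat_lit 9),
 (nat_lit 5), (nat_lit 1), (0, 5, 3), [9064028, 11874291], 27⟩]

/-- Moves. -/
noncomputable def t0_3 : List Mv := [
  ⟨⟨1, 0, -9, 0, -7, 0, 6, 0, -5⟩, (.cons (nat_lit 25004503) (nat_lit 30625764) (nat_lit 38675796) (nat_lit 1)
 (.cons (nat_lit 11019172) (nat_lit 19114595) (nat_lit 23189091) (nat_lit 1) .nil)), (nat_lit 28), (nat_lit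
 29), (nat_lit 14), (nat_lit 1), (2, 0, 5), [37099950, 8190031], 19⟩,
  ⟨⟨1, 0, -9, 0, -7, 0, 6, 0, -5⟩, (.cons (nat_lit 25004503) (nat_lit 30625764) (nat_lit 38675796) (nat_lit 1)
 (.cons (nat_lit 11019172) (nat_lit 19114595) (nat_lit 23189091) (nat_lit 1) .nil)), (nat_lit 28), (nat_lit
 29), (nat_lit 14), (nat_lit 1), (2, 0, 5), [37099950, 8190031], 19⟩,
  ⟨⟨5, 0, 4, 0, 7, 0, 6, 0, -5⟩, (.cons (nat_lit 23707674) (nat_lit 19696108) (nat_lit 34804965) (nat_lit 1)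
 (.cons (nat_lit 25411680) (nat_lit 19063370) (nat_lit 10960291) (nat_lit 1) .nil)), (nat_lit 36), (nat_lit
 29), (nat_lit 15), (nat_lit 1), (3, 0, 5), [11878172, 21155014], 18⟩,
  ⟨⟨5, 0, 4, 0, -7, 0, 6, 0, -5⟩, (.cons (nat_lit 26597705) (nat_lit 27856828) (nat_lit 8865904) (nat_lit 1)
 (.cons (nat_lit 25411680) (nat_lit 7379081) (nat_lit 21554984) (nat_lit 1) .nil)), (nat_lit 36), (nat_lit 8),
 (nat_lit 6), (nat_lit 1), (3, 0, 5), [2605651, 2738559], 27⟩,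
  ⟨⟨1, 0, -9, 0, -7, 0, 6, 0, -5⟩, (.cons (nat_lit 25004503) (nat_lit 30625764) (nat_lit 38675796) (nat_lit 1)
 (.cons (nat_lit 11019172) (nat_lit 19114595) (nat_lit 23189091) (nat_lit 1) .nil)), (nat_lit 28), (nat_lit
 29), (nat_lit 14), (nat_lit 1), (2, 0, 5), [37099950, 8190031], 19⟩,
  ⟨⟨1, 0, -9, 0, 7, 0, 6, 0, -5⟩, (.cons (nat_lit 17043897) (nat_lit 16716079) (nat_lit 24805227) (nat_lit 1)
 (.cons (nat_lit 17112126) (nat_lit 10397255) (nat_lit 18812476) (nat_lit 1) .nil)), (nat_lit 11), (nat_lit 8),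
 (nat_lit 23), (nat_lit 1), (2, 0, 5), [27270990, 6620870], 10⟩,
  ⟨⟨1, 0, -9, 0, -7, 0, 6, 0, -5⟩, (.cons (nat_lit 25004503) (nat_lit 30625764) (nat_lit 38675796) (nat_lit 1)
 (.cons (nat_lit 11019172) (nat_lit 19114595) (nat_lit 23189091) (nat_lit 1) .nil)), (nat_lit 28), (nat_lit
 29), (nat_lit 14), (nat_lit 1), (2, 0, 5), [37099950, 8190031], 19⟩]

/-- Moves. -/
noncomputable def t1_1 : List Mv := [
  mz,
  ⟨⟨-75, 20, 43, -10, -21, -70, -12, 60, -13⟩, (.cons (nat_lit 34032488) (nat_lit 14827324) (nat_lit 7465105)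
 (nat_lit 1) (.cons (nat_lit 9958158) (nat_lit 14218708) (nat_lit 17738934) (nat_lit 1) .nil)), (nat_lit 28),
 (nat_lit 28), (nat_lit 25), (nat_lit 1), (51, 21, 11), [30168121, 5763012], 19⟩,
  mz,
  ⟨⟨65, -24, -72, -4, 55, -48, -10, -40, -49⟩, (.cons (nat_lit 40353606) (nat_lit 30713124) (nat_lit 40298679)
 (nat_lit 1) (.cons (nat_lit 19071543) (nat_lit 14234576) (nat_lit 14827765) (nat_lit 1) .nil)), (nat_lit 36),
 (nat_lit 34), (nat_lit 26), (nat_lit 1), (37, 1, 38), [34335394, 22101516], 9⟩,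
  ⟨⟨-33, -20, -59, -64, 15, 62, -6, 48, -43⟩, (.cons (nat_lit 1388865) (nat_lit 30900130) (nat_lit 12587809)
 (nat_lit 1) (.cons (nat_lit 16093018) (nat_lit 6874285) (nat_lit 16919396) (nat_lit 1) .nil)), (nat_lit 9),
 (nat_lit 12), (nat_lit 31), (nat_lit 1), (45, 55, 34), [9050828, 21664538], 16⟩,
  ⟨⟨27, -68, 16, 64, 15, -62, -6, -48, -43⟩, (.cons (nat_lit 31315756) (nat_lit 34632259) (nat_lit 4515109)
 (nat_lit 1) (.cons (nat_lit 14436313) (nat_lit 12335421) (nat_lit 13733103) (nat_lit 1) .nil)), (nat_lit 12),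
 (nat_lit 1), (nat_lit 36), (nat_lit 1), (7, 35, 30), [37537121, 1072123], 2⟩,
  mz,
  ⟨⟨-29, 72, 20, 56, 25, -68, -38, 16, -35⟩, (.cons (nat_lit 28080237) (nat_lit 8871994) (nat_lit 31910141)
 (nat_lit 1) (.cons (nat_lit 10822884) (nat_lit 1507447) (nat_lit 12237693) (nat_lit 1) .nil)), (nat_lit 17),
 (nat_lit 20), (nat_lit 10), (nat_lit 1), (33, 44, 31), [15324894, 23280106], 31⟩,
  ⟨⟨23, -72, 9, 64, 25, -12, 26, -32, -67⟩, (.cons (nat_lit 37188482) (nat_lit 8177145) (nat_lit 37335432)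
 (nat_lit 1) (.cons (nat_lit 1500478) (nat_lit 4023338) (nat_lit 4932604) (nat_lit 1) .nil)), (nat_lit 27),
 (nat_lit 26), (nat_lit 1), (nat_lit 1), (60, 62, 3), [23002611, 25217914], 3⟩,
  mz,
  mz,
  ⟨⟨33, -20, -92, 64, 15, -2, 6, 48, -49⟩, (.cons (nat_lit 34637860) (nat_lit 15211618) (nat_lit 24400660)
 (nat_lit 1) (.cons (nat_lit 18710210) (nat_lit 6171651) (nat_lit 15890191) (nat_lit 1) .nil)), (nat_lit 34),
 (nat_lit 7), (nat_lit 4), (nat_lit 1), (67, 3, 38), [33887423, 11384974], 18⟩,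
  ⟨⟨-51, -52, -5, -44, 15, 82, -42, 24, -25⟩, (.cons (nat_lit 12800281) (nat_lit 11324347) (nat_lit 21479901)
 (nat_lit 1) (.cons (nat_lit 2013621) (nat_lit 13974808) (nat_lit 9801654) (nat_lit 1) .nil)), (nat_lit 33),
 (nat_lit 11), (nat_lit 13), (nat_lit 1), (61, 22, 21), [29518376, 23023636], 34⟩,
  mz,
  mz,
  ⟨⟨-9, 76, -11, -44, -15, -38, 42, 24, -67⟩, (.cons (nat_lit 18088192) (nat_lit 1850949) (nat_lit 9222847)
 (nat_lit 1) (.cons (nat_lit 4715657) (nat_lit 1928413) (nat_lit 21356184) (nat_lit 1) .nil)), (nat_lit 9),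
 (nat_lit 31), (nat_lit 24), (nat_lit 1), (25, 67, 49), [9519025, 21092642], 15⟩,
  ⟨⟨17, 24, -89, -36, -55, -12, 54, -24, -53⟩, (.cons (nat_lit 21919031) (nat_lit 21200847) (nat_lit 21675660)
 (nat_lit 1) (.cons (nat_lit 4333107) (nat_lit 13499443) (nat_lit 3248065) (nat_lit 1) .nil)), (nat_lit 28),
 (nat_lit 28), (nat_lit 3), (nat_lit 1), (7, 52, 64), [21487826, 21602980], 17⟩,
  mz,
  ⟨⟨9, 56, -64, -56, -25, -12, 38, -16, -73⟩, (.cons (nat_lit 24040259) (nat_lit 32071936) (nat_lit 33520969)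
 (nat_lit 1) (.cons (nat_lit 13624382) (nat_lit 3901849) (nat_lit 14862921) (nat_lit 1) .nil)), (nat_lit 5),
 (nat_lit 4), (nat_lit 22), (nat_lit 1), (56, 46, 55), [17549302, 24020974], 10⟩,
  ⟨⟨-61, -48, 25, -44, 55, 32, -22, -8, -55⟩, (.cons (nat_lit 15199268) (nat_lit 4435706) (nat_lit 27880630)
 (nat_lit 1) (.cons (nat_lit 6271889) (nat_lit 7686182) (nat_lit 16540640) (nat_lit 1) .nil)), (nat_lit 7),
 (nat_lit 22), (nat_lit 17), (nat_lit 1), (9, 3, 37), [39049659, 22761599], 28⟩,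
  mz,
  mz,
  ⟨⟨17, -24, 72, -36, 55, 48, 54, 24, -1⟩, (.cons (nat_lit 40353606) (nat_lit 29602569) (nat_lit 39181570)
 (nat_lit 1) (.cons (nat_lit 9088212) (nat_lit 1486220) (nat_lit 3878333) (nat_lit 1) .nil)), (nat_lit 36),
 (nat_lit 7), (nat_lit 24), (nat_lit 1), (28, 66, 43), [33774983, 17028542], 11⟩,
  ⟨⟨-61, 48, 25, 44, 55, -32, -22, 8, -55⟩, (.cons (nat_lit 19267760) (nat_lit 39040850) (nat_lit 1) (nat_lit
 37788506) (.cons (nat_lit 3652723) (nat_lit 12157983) (nat_lit 4018629) (nat_lit 1) .nil)), (nat_lit 2),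
 (nat_lit 11), (nat_lit 27), (nat_lit 1), (13, 43, 14), [194976, 9765772], 34⟩,
  ⟨⟨-39, 40, -41, 44, 55, -12, 22, -8, -77⟩, (.cons (nat_lit 22241345) (nat_lit 2923786) (nat_lit 2853738)
 (nat_lit 1) (.cons (nat_lit 14495468) (nat_lit 9396165) (nat_lit 2244716) (nat_lit 1) .nil)), (nat_lit 19),
 (nat_lit 13), (nat_lit 5), (nat_lit 1), (2, 56, 28), [6970269, 13223009], 27⟩,
  mz,
  ⟨⟨51, -4, 40, -10, 69, 20, 60, 12, -49⟩, (.cons (nat_lit 40353606) (nat_lit 3969068) (nat_lit 32037064)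
 (nat_lit 1) (.cons (nat_lit 8161405) (nat_lit 5738787) (nat_lit 1) (nat_lit 2748339) .nil)), (nat_lit 36),
 (nat_lit 7), (nat_lit 13), (nat_lit 1), (60, 30, 33), [11602656, 4432529], 20⟩,
  mz,
  mz,
  ⟨⟨-13, -72, 36, 70, -11, -30, -4, -44, -49⟩, (.cons (nat_lit 23248235) (nat_lit 14506406) (nat_lit 38779829)
 (nat_lit 1) (.cons (nat_lit 15855782) (nat_lit 18995683) (nat_lit 1) (nat_lit 2553941) .nil)), (nat_lit 31),
 (nat_lit 33), (nat_lit 27), (nat_lit 1), (29, 35, 69), [13639979, 20693009], 10⟩,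
  mz,
  ⟨⟨-11, 72, -25, 50, -11, -80, -44, 4, -29⟩, (.cons (nat_lit 20828719) (nat_lit 39629278) (nat_lit 22164295)
 (nat_lit 1) (.cons (nat_lit 12407002) (nat_lit 24376873) (nat_lit 14098317) (nat_lit 1) .nil)), (nat_lit 20),
 (nat_lit 1), (nat_lit 14), (nat_lit 1), (44, 13, 34), [35763684, 14269590], 19⟩,
  mz,
  ⟨⟨-29, -72, 20, -56, 25, 68, -38, -16, -35⟩, (.cons (nat_lit 37705897) (nat_lit 14535750) (nat_lit 7866378)
 (nat_lit 1) (.cons (nat_lit 23585245) (nat_lit 22731201) (nat_lit 2745648) (nat_lit 1) .nil)), (nat_lit 10),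
 (nat_lit 25), (nat_lit 12), (nat_lit 1), (27, 35, 6), [8731683, 23320108], 19⟩,
  ⟨⟨75, 20, -32, -10, 21, 80, 12, 60, -25⟩, (.cons (nat_lit 40353606) (nat_lit 35689747) (nat_lit 1721839)
 (nat_lit 1) (.cons (nat_lit 15359465) (nat_lit 9745398) (nat_lit 19884213) (nat_lit 1) .nil)), (nat_lit 36),
 (nat_lit 34), (nat_lit 10), (nat_lit 1), (30, 67, 19), [4623326, 10903580], 13⟩,
  mz,
  ⟨⟨3, -40, -76, -64, 25, 12, 26, 32, -67⟩, (.cons (nat_lit 22526927) (nat_lit 13743834) (nat_lit 36409192)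
 (nat_lit 1) (.cons (nat_lit 11498147) (nat_lit 9235268) (nat_lit 8778192) (nat_lit 1) .nil)), (nat_lit 26),
 (nat_lit 16), (nat_lit 21), (nat_lit 1), (58, 17, 53), [11527849, 10429235], 5⟩,
  mz,
  ⟨⟨17, -24, -89, 36, -55, 12, 54, 24, -53⟩, (.cons (nat_lit 2609223) (nat_lit 30475681) (nat_lit 38750878)
 (nat_lit 1) (.cons (nat_lit 12534630) (nat_lit 900075) (nat_lit 21681832) (nat_lit 1) .nil)), (nat_lit 28),
 (nat_lit 30), (nat_lit 25), (nat_lit 1), (5, 44, 66), [13895024, 6215286], 17⟩,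
  ⟨⟨-23, -72, 32, 64, -25, -52, -26, -32, -41⟩, (.cons (nat_lit 36946213) (nat_lit 38470870) (nat_lit 39589994)
 (nat_lit 1) (.cons (nat_lit 11744953) (nat_lit 12433497) (nat_lit 9872230) (nat_lit 1) .nil)), (nat_lit 15),
 (nat_lit 14), (nat_lit 3), (nat_lit 1), (21, 28, 33), [36273715, 8080566], 30⟩,
  mz,
  mz,
  ⟨⟨75, 16, -52, 4, -55, -52, 10, 40, -59⟩, (.cons (nat_lit 6062970) (nat_lit 39049004) (nat_lit 1666472)
 (nat_lit 1) (.cons (nat_lit 14668271) (nat_lit 20528607) (nat_lit 9658954) (nat_lit 1) .nil)), (nat_lit 0),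
 (nat_lit 11), (nat_lit 6), (nat_lit 1), (5, 5, 48), [5056241, 469455], 13⟩,
  ⟨⟨11, -72, -36, 50, -11, 30, 44, -4, -73⟩, (.cons (nat_lit 8044620) (nat_lit 20274680) (nat_lit 2621732)
 (nat_lit 1) (.cons (nat_lit 20835514) (nat_lit 15621287) (nat_lit 5304441) (nat_lit 1) .nil)), (nat_lit 9),
 (nat_lit 18), (nat_lit 21), (nat_lit 1), (69, 49, 63), [8478648, 19112063], 3⟩,
  ⟨⟨-39, -40, -41, -44, 55, 12, 22, 8, -77⟩, (.cons (nat_lit 28310995) (nat_lit 4341927) (nat_lit 1) (nat_lit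
 29943109) (.cons (nat_lit 3914650) (nat_lit 11224922) (nat_lit 14987655) (nat_lit 1) .nil)), (nat_lit 16),
 (nat_lit 18), (nat_lit 24), (nat_lit 1), (46, 61, 5), [11321427, 9764011], 27⟩,
  mz,
  ⟨⟨51, 52, -56, -44, 15, -38, 42, -24, -67⟩, (.cons (nat_lit 15061261) (nat_lit 26648098) (nat_lit 17766239)
 (nat_lit 1) (.cons (nat_lit 8736094) (nat_lit 17176897) (nat_lit 20721628) (nat_lit 1) .nil)), (nat_lit 34),
 (nat_lit 3), (nat_lit 34), (nat_lit 1), (52, 15, 47), [32977178, 2474823], 18⟩,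
  ⟨⟨9, -16, 80, -10, -69, -10, 60, -12, -11⟩, (.cons (nat_lit 40353606) (nat_lit 10379637) (nat_lit 28244864)
 (nat_lit 1) (.cons (nat_lit 13312123) (nat_lit 11384614) (nat_lit 7312001) (nat_lit 1) .nil)), (nat_lit 36),
 (nat_lit 11), (nat_lit 5), (nat_lit 1), (33, 58, 7), [22359356, 506377], 20⟩,
  ⟨⟨51, 4, 40, 10, 69, -20, 60, -12, -49⟩, (.cons (nat_lit 40353606) (nat_lit 24838549) (nat_lit 5272464)
 (nat_lit 1) (.cons (nat_lit 16195517) (nat_lit 6927046) (nat_lit 23631449) (nat_lit 1) .nil)), (nat_lit 36),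
 (nat_lit 13), (nat_lit 27), (nat_lit 1), (13, 29, 32), [3509641, 15405491], 17⟩,
  ⟨⟨9, -56, -64, -56, 25, -12, 38, 16, -73⟩, (.cons (nat_lit 16569304) (nat_lit 26839311) (nat_lit 3198177)
 (nat_lit 1) (.cons (nat_lit 23653989) (nat_lit 24861180) (nat_lit 21281576) (nat_lit 1) .nil)), (nat_lit 26),
 (nat_lit 25), (nat_lit 9), (nat_lit 1), (4, 54, 9), [20090487, 5232135], 5⟩,
  ⟨⟨65, 24, -72, 4, 55, 48, -10, 40, -49⟩, (.cons (nat_lit 40353606) (nat_lit 9822244) (nat_lit 23488125)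
 (nat_lit 1) (.cons (nat_lit 22883187) (nat_lit 18181005) (nat_lit 16721141) (nat_lit 1) .nil)), (nat_lit 36),
 (nat_lit 2), (nat_lit 33), (nat_lit 1), (39, 45, 65), [3620458, 19346476], 21⟩,
  ⟨⟨9, -76, -20, 44, 15, -82, -42, -24, -25⟩, (.cons (nat_lit 32135276) (nat_lit 13409381) (nat_lit 21217321)
 (nat_lit 1) (.cons (nat_lit 23868292) (nat_lit 390859) (nat_lit 12737451) (nat_lit 1) .nil)), (nat_lit 25),
 (nat_lit 5), (nat_lit 2), (nat_lit 1), (1, 68, 19), [1341273, 19420683], 8⟩,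
  mz,
  ⟨⟨-9, 28, -76, 70, 11, -40, 4, -44, -53⟩, (.cons (nat_lit 15588086) (nat_lit 6587183) (nat_lit 19954170)
 (nat_lit 1) (.cons (nat_lit 23018024) (nat_lit 1574902) (nat_lit 19231458) (nat_lit 1) .nil)), (nat_lit 1),
 (nat_lit 36), (nat_lit 28), (nat_lit 1), (34, 59, 48), [13430947, 10289507], 24⟩,
  ⟨⟨9, 16, 80, -10, 69, -10, 60, 12, -11⟩, (.cons (nat_lit 22756673) (nat_lit 29911502) (nat_lit 15103754)
 (nat_lit 1) (.cons (nat_lit 7016208) (nat_lit 2447189) (nat_lit 7473851) (nat_lit 1) .nil)), (nat_lit 24),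
 (nat_lit 13), (nat_lit 13), (nat_lit 1), (58, 46, 8), [22551637, 14008967], 9⟩,
  ⟨⟨75, -20, -32, 10, 21, -80, 12, -60, -25⟩, (.cons (nat_lit 40353606) (nat_lit 38979941) (nat_lit 39851062)
 (nat_lit 1) (.cons (nat_lit 21219829) (nat_lit 22655989) (nat_lit 5006122) (nat_lit 1) .nil)), (nat_lit 36),
 (nat_lit 10), (nat_lit 33), (nat_lit 1), (52, 59, 14), [27930169, 14756622], 6⟩,
  mz,
  ⟨⟨-11, -72, -25, 50, 11, -80, -44, -4, -29⟩, (.cons (nat_lit 2874965) (nat_lit 12383397) (nat_lit 5273985)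
 (nat_lit 1) (.cons (nat_lit 4036949) (nat_lit 1612015) (nat_lit 21865543) (nat_lit 1) .nil)), (nat_lit 34),
 (nat_lit 26), (nat_lit 23), (nat_lit 1), (38, 8, 10), [24103953, 2190974], 10⟩,
  ⟨⟨63, -40, -56, -10, 21, -70, -12, -60, -13⟩, (.cons (nat_lit 40353606) (nat_lit 27296374) (nat_lit 27132386)
 (nat_lit 1) (.cons (nat_lit 13124141) (nat_lit 10046469) (nat_lit 9865193) (nat_lit 1) .nil)), (nat_lit 36),
 (nat_lit 26), (nat_lit 33), (nat_lit 1), (4, 5, 6), [4394139, 9233348], 13⟩,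
  mz,
  mz,
  mz,
  ⟨⟨33, -68, -37, -50, -11, -30, 44, 4, -73⟩, (.cons (nat_lit 1553225) (nat_lit 17912353) (nat_lit 22090545)
 (nat_lit 1) (.cons (nat_lit 12563849) (nat_lit 13948659) (nat_lit 21859588) (nat_lit 1) .nil)), (nat_lit 30),
 (nat_lit 33), (nat_lit 30), (nat_lit 1), (12, 27, 16), [11911688, 13293766], 31⟩,
  mz,
  ⟨⟨-13, 72, 36, -70, -11, 30, -4, 44, -49⟩, (.cons (nat_lit 4626347) (nat_lit 17348805) (nat_lit 1329379)
 (nat_lit 1) (.cons (nat_lit 24830756) (nat_lit 7917185) (nat_lit 19155970) (nat_lit 1) .nil)), (nat_lit 33),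
 (nat_lit 35), (nat_lit 10), (nat_lit 1), (35, 41, 49), [16445728, 25084881], 11⟩,
  ⟨⟨75, -16, -52, 4, 55, -52, 10, -40, -59⟩, (.cons (nat_lit 40353606) (nat_lit 27178423) (nat_lit 28925973)
 (nat_lit 1) (.cons (nat_lit 11266956) (nat_lit 24683539) (nat_lit 24803122) (nat_lit 1) .nil)), (nat_lit 36),
 (nat_lit 34), (nat_lit 15), (nat_lit 1), (51, 51, 21), [12018582, 2618825], 21⟩,
  mz,
  ⟨⟨-27, -68, 43, 64, -15, -2, 6, -48, -49⟩, (.cons (nat_lit 31097204) (nat_lit 37538029) (nat_lit 32875242)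
 (nat_lit 1) (.cons (nat_lit 10253048) (nat_lit 24260685) (nat_lit 19286469) (nat_lit 1) .nil)), (nat_lit 33),
 (nat_lit 13), (nat_lit 22), (nat_lit 1), (60, 55, 34), [16458665, 19951550], 18⟩,
  ⟨⟨13, 72, 23, 70, -11, -40, 4, 44, -53⟩, (.cons (nat_lit 20157783) (nat_lit 40253652) (nat_lit 36065685)
 (nat_lit 1) (.cons (nat_lit 8221869) (nat_lit 18203907) (nat_lit 7691922) (nat_lit 1) .nil)), (nat_lit 20),
 (nat_lit 29), (nat_lit 26), (nat_lit 1), (20, 64, 28), [6515017, 13541919], 19⟩,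
  ⟨⟨-23, 72, 32, 64, 25, -52, -26, 32, -41⟩, (.cons (nat_lit 37760523) (nat_lit 4101994) (nat_lit 22318575)
 (nat_lit 1) (.cons (nat_lit 9047709) (nat_lit 17368815) (nat_lit 11049736) (nat_lit 1) .nil)), (nat_lit 17),
 (nat_lit 26), (nat_lit 2), (nat_lit 1), (27, 36, 12), [16580848, 20008534], 31⟩,
  ⟨⟨37, -48, -73, 36, 55, -48, 54, -24, -1⟩, (.cons (nat_lit 20102622) (nat_lit 21781944) (nat_lit 9061712)
 (nat_lit 1) (.cons (nat_lit 16139595) (nat_lit 3496366) (nat_lit 19922976) (nat_lit 1) .nil)), (nat_lit 4),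
 (nat_lit 28), (nat_lit 11), (nat_lit 1), (11, 51, 41), [36639831, 17369640], 24⟩]

/-- Moves. -/
noncomputable def t1_3 : List Mv := [
  mz,
  ⟨⟨63, 40, -56, -10, -21, -70, -12, 60, -13⟩, (.cons (nat_lit 30526419) (nat_lit 33396236) (nat_lit 37598614)
 (nat_lit 1) (.cons (nat_lit 23455902) (nat_lit 17463070) (nat_lit 1) (nat_lit 22382040) .nil)), (nat_lit 25),
 (nat_lit 28), (nat_lit 1), (nat_lit 0), (31, 21, 11), [4828758, 23711818], 10⟩,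
  mz,
  ⟨⟨65, -24, -72, -4, 55, -48, -10, -40, -49⟩, (.cons (nat_lit 40353606) (nat_lit 30713124) (nat_lit 40298679)
 (nat_lit 1) (.cons (nat_lit 19071543) (nat_lit 14234576) (nat_lit 14827765) (nat_lit 1) .nil)), (nat_lit 36),
 (nat_lit 34), (nat_lit 26), (nat_lit 1), (37, 1, 38), [34335394, 22101516], 9⟩,
  ⟨⟨27, 68, 16, 64, -15, -62, -6, 48, -43⟩, (.cons (nat_lit 26785679) (nat_lit 6964929) (nat_lit 24507071)
 (nat_lit 1) (.cons (nat_lit 2338641) (nat_lit 3232467) (nat_lit 10640152) (nat_lit 1) .nil)), (nat_lit 5),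
 (nat_lit 30), (nat_lit 10), (nat_lit 1), (60, 16, 34), [24026000, 10006727], 34⟩,
  ⟨⟨27, -68, 16, 64, 15, -62, -6, -48, -43⟩, (.cons (nat_lit 31315756) (nat_lit 34632259) (nat_lit 4515109)
 (nat_lit 1) (.cons (nat_lit 14436313) (nat_lit 12335421) (nat_lit 13733103) (nat_lit 1) .nil)), (nat_lit 12),
 (nat_lit 1), (nat_lit 36), (nat_lit 1), (7, 35, 30), [37537121, 1072123], 2⟩,
  mz,
  ⟨⟨-29, 72, 20, 56, 25, -68, -38, 16, -35⟩, (.cons (nat_lit 28080237) (nat_lit 8871994) (nat_lit 31910141)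
 (nat_lit 1) (.cons (nat_lit 10822884) (nat_lit 1507447) (nat_lit 12237693) (nat_lit 1) .nil)), (nat_lit 17),
 (nat_lit 20), (nat_lit 10), (nat_lit 1), (33, 44, 31), [15324894, 23280106], 31⟩,
  ⟨⟨3, 40, -76, 64, 25, -12, 26, -32, -67⟩, (.cons (nat_lit 37122335) (nat_lit 18079463) (nat_lit 19131162)
 (nat_lit 1) (.cons (nat_lit 17133532) (nat_lit 17207597) (nat_lit 20508952) (nat_lit 1) .nil)), (nat_lit 24),
 (nat_lit 1), (nat_lit 19), (nat_lit 1), (14, 62, 3), [39655226, 13037207], 22⟩,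
  mz,
  mz,
  ⟨⟨-27, 68, 43, 64, 15, -2, 6, 48, -49⟩, (.cons (nat_lit 13795665) (nat_lit 31744438) (nat_lit 31859755)
 (nat_lit 1) (.cons (nat_lit 5067300) (nat_lit 245757) (nat_lit 21402739) (nat_lit 1) .nil)), (nat_lit 25),
 (nat_lit 36), (nat_lit 9), (nat_lit 1), (42, 3, 38), [36121711, 19754024], 9⟩,
  ⟨⟨9, 76, -20, 44, -15, -82, -42, 24, -25⟩, (.cons (nat_lit 29765838) (nat_lit 14003677) (nat_lit 8058263)
 (nat_lit 1) (.cons (nat_lit 8602149) (nat_lit 22875120) (nat_lit 14551059) (nat_lit 1) .nil)), (nat_lit 5),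
 (nat_lit 26), (nat_lit 3), (nat_lit 1), (31, 49, 21), [38425098, 3891540], 34⟩,
  mz,
  mz,
  ⟨⟨-9, 76, -11, -44, -15, -38, 42, 24, -67⟩, (.cons (nat_lit 18088192) (nat_lit 1850949) (nat_lit 9222847)
 (nat_lit 1) (.cons (nat_lit 4715657) (nat_lit 1928413) (nat_lit 21356184) (nat_lit 1) .nil)), (nat_lit 9),
 (nat_lit 31), (nat_lit 24), (nat_lit 1), (25, 67, 49), [9519025, 21092642], 15⟩,
  ⟨⟨37, -48, 36, -36, -55, -12, 54, -24, -53⟩, (.cons (nat_lit 40353606) (nat_lit 12707993) (nat_lit 8786084)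
 (nat_lit 1) (.cons (nat_lit 20124520) (nat_lit 12963851) (nat_lit 2846017) (nat_lit 1) .nil)), (nat_lit 0),
 (nat_lit 3), (nat_lit 1), (nat_lit 0), (57, 52, 64), [27493882, 1083677], 9⟩,
  mz,
  ⟨⟨29, -72, -9, -56, -25, -12, 38, -16, -73⟩, (.cons (nat_lit 34475926) (nat_lit 23030587) (nat_lit 15100749)
 (nat_lit 1) (.cons (nat_lit 12782582) (nat_lit 20913428) (nat_lit 15490162) (nat_lit 1) .nil)), (nat_lit 22),
 (nat_lit 35), (nat_lit 27), (nat_lit 1), (70, 46, 55), [914698, 3637654], 31⟩,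
  ⟨⟨39, 40, -80, 44, -55, -32, -22, -8, -55⟩, (.cons (nat_lit 40353606) (nat_lit 21210937) (nat_lit 5047840)
 (nat_lit 1) (.cons (nat_lit 13611479) (nat_lit 25316420) (nat_lit 18103337) (nat_lit 1) .nil)), (nat_lit 36),
 (nat_lit 13), (nat_lit 2), (nat_lit 1), (28, 68, 37), [31935588, 17278052], 7⟩,
  mz,
  mz,
  ⟨⟨17, -24, 72, 36, -55, -48, 54, 24, -1⟩, (.cons (nat_lit 25200598) (nat_lit 3316015) (nat_lit 31873676)
 (nat_lit 1) (.cons (nat_lit 8656205) (nat_lit 4264002) (nat_lit 8449541) (nat_lit 1) .nil)), (nat_lit 28),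
 (nat_lit 10), (nat_lit 33), (nat_lit 1), (28, 5, 43), [14066070, 8136690], 18⟩,
  ⟨⟨39, -40, -80, 44, 55, -32, -22, 8, -55⟩, (.cons (nat_lit 17109854) (nat_lit 5334957) (nat_lit 1) (nat_lit
 6541094) (.cons (nat_lit 18124959) (nat_lit 15648998) (nat_lit 21296286) (nat_lit 1) .nil)), (nat_lit 20),
 (nat_lit 27), (nat_lit 3), (nat_lit 1), (1, 43, 14), [40292677, 13376371], 2⟩,
  ⟨⟨-39, 40, -41, 44, 55, -12, 22, -8, -77⟩, (.cons (nat_lit 22241345) (nat_lit 2923786) (nat_lit 2853738)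
 (nat_lit 1) (.cons (nat_lit 14495468) (nat_lit 9396165) (nat_lit 2244716) (nat_lit 1) .nil)), (nat_lit 19),
 (nat_lit 13), (nat_lit 5), (nat_lit 1), (2, 56, 28), [6970269, 13223009], 27⟩,
  mz,
  ⟨⟨51, -4, 40, 10, -69, -20, 60, 12, -49⟩, (.cons (nat_lit 27415651) (nat_lit 19557845) (nat_lit 29229043)
 (nat_lit 1) (.cons (nat_lit 19362272) (nat_lit 17138793) (nat_lit 21029141) (nat_lit 1) .nil)), (nat_lit 17),
 (nat_lit 10), (nat_lit 26), (nat_lit 1), (60, 41, 33), [4992744, 25123588], 26⟩,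
  mz,
  mz,
  ⟨⟨-13, -72, 36, 70, -11, -30, -4, -44, -49⟩, (.cons (nat_lit 23248235) (nat_lit 14506406) (nat_lit 38779829)
 (nat_lit 1) (.cons (nat_lit 15855782) (nat_lit 18995683) (nat_lit 1) (nat_lit 2553941) .nil)), (nat_lit 31),
 (nat_lit 33), (nat_lit 27), (nat_lit 1), (29, 35, 69), [13639979, 20693009], 10⟩,
  mz,
  ⟨⟨-33, -68, -4, 50, -11, -80, -44, 4, -29⟩, (.cons (nat_lit 9180925) (nat_lit 34874445) (nat_lit 10404505)
 (nat_lit 1) (.cons (nat_lit 14749038) (nat_lit 1995709) (nat_lit 21234913) (nat_lit 1) .nil)), (nat_lit 33),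
 (nat_lit 26), (nat_lit 22), (nat_lit 1), (61, 13, 34), [5148498, 13010794], 11⟩,
  mz,
  ⟨⟨-29, -72, 20, 56, -25, -68, -38, -16, -35⟩, (.cons (nat_lit 1654434) (nat_lit 19157403) (nat_lit 13615715)
 (nat_lit 1) (.cons (nat_lit 16218424) (nat_lit 14318191) (nat_lit 18958389) (nat_lit 1) .nil)), (nat_lit 27),
 (nat_lit 36), (nat_lit 36), (nat_lit 1), (27, 36, 6), [2980874, 5865947], 4⟩,
  ⟨⟨-63, 40, 7, -10, 21, 80, 12, 60, -25⟩, (.cons (nat_lit 3369794) (nat_lit 31888498) (nat_lit 19917457)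
 (nat_lit 1) (.cons (nat_lit 238905) (nat_lit 23217771) (nat_lit 23964691) (nat_lit 1) .nil)), (nat_lit 12),
 (nat_lit 0), (nat_lit 21), (nat_lit 1), (60, 67, 19), [24924446, 14068611], 1⟩,
  mz,
  ⟨⟨3, -40, -76, 64, -25, -12, 26, 32, -67⟩, (.cons (nat_lit 10700583) (nat_lit 33437451) (nat_lit 9593259)
 (nat_lit 1) (.cons (nat_lit 3786345) (nat_lit 16639266) (nat_lit 21351260) (nat_lit 1) .nil)), (nat_lit 5),
 (nat_lit 35), (nat_lit 30), (nat_lit 1), (58, 54, 53), [15085267, 13984265], 10⟩,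
  mz,
  ⟨⟨37, 48, 36, -36, 55, -12, 54, 24, -53⟩, (.cons (nat_lit 27817403) (nat_lit 34760391) (nat_lit 17238455)
 (nat_lit 1) (.cons (nat_lit 2115457) (nat_lit 5727923) (nat_lit 20910903) (nat_lit 1) .nil)), (nat_lit 4),
 (nat_lit 12), (nat_lit 33), (nat_lit 1), (61, 27, 66), [26598787, 13023268], 8⟩,
  ⟨⟨-23, -72, 32, -64, 25, 52, -26, -32, -41⟩, (.cons (nat_lit 37231507) (nat_lit 21572674) (nat_lit 12602834)
 (nat_lit 1) (.cons (nat_lit 11540357) (nat_lit 16526199) (nat_lit 20353211) (nat_lit 1) .nil)), (nat_lit 10),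
 (nat_lit 9), (nat_lit 21), (nat_lit 1), (21, 43, 33), [21888463, 3588248], 19⟩,
  mz,
  mz,
  ⟨⟨75, 16, -52, -4, 55, 52, 10, 40, -59⟩, (.cons (nat_lit 40353606) (nat_lit 9751135) (nat_lit 33388646)
 (nat_lit 1) (.cons (nat_lit 4301525) (nat_lit 13484958) (nat_lit 1312499) (nat_lit 1) .nil)), (nat_lit 36),
 (nat_lit 1), (nat_lit 33), (nat_lit 1), (5, 66, 48), [36148310, 7888827], 9⟩,
  ⟨⟨11, -72, -36, -50, 11, -30, 44, -4, -73⟩, (.cons (nat_lit 9447793) (nat_lit 33921270) (nat_lit 10550404)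
 (nat_lit 1) (.cons (nat_lit 11361759) (nat_lit 10080610) (nat_lit 23614597) (nat_lit 1) .nil)), (nat_lit 14),
 (nat_lit 12), (nat_lit 14), (nat_lit 1), (69, 22, 63), [36828938, 6446590], 18⟩,
  ⟨⟨-39, -40, -41, 44, -55, -12, 22, 8, -77⟩, (.cons (nat_lit 4959991) (nat_lit 28674870) (nat_lit 38364224)
 (nat_lit 1) (.cons (nat_lit 15706360) (nat_lit 10952460) (nat_lit 6076996) (nat_lit 1) .nil)), (nat_lit 25),
 (nat_lit 12), (nat_lit 13), (nat_lit 1), (46, 10, 5), [23512530, 19145410], 14⟩,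
  mz,
  ⟨⟨-9, -76, -11, -44, 15, -38, 42, -24, -67⟩, (.cons (nat_lit 14733567) (nat_lit 26528529) (nat_lit 7061132)
 (nat_lit 1) (.cons (nat_lit 22517634) (nat_lit 9532521) (nat_lit 18463696) (nat_lit 1) .nil)), (nat_lit 9),
 (nat_lit 14), (nat_lit 16), (nat_lit 1), (66, 15, 47), [22751508, 24428426], 16⟩,
  ⟨⟨9, -16, 80, -10, -69, -10, 60, -12, -11⟩, (.cons (nat_lit 40353606) (nat_lit 10379637) (nat_lit 28244864)
 (nat_lit 1) (.cons (nat_lit 13312123) (nat_lit 11384614) (nat_lit 7312001) (nat_lit 1) .nil)), (nat_lit 36),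
 (nat_lit 11), (nat_lit 5), (nat_lit 1), (33, 58, 7), [22359356, 506377], 20⟩,
  ⟨⟨51, 4, 40, 10, 69, -20, 60, -12, -49⟩, (.cons (nat_lit 40353606) (nat_lit 24838549) (nat_lit 5272464)
 (nat_lit 1) (.cons (nat_lit 16195517) (nat_lit 6927046) (nat_lit 23631449) (nat_lit 1) .nil)), (nat_lit 36),
 (nat_lit 13), (nat_lit 27), (nat_lit 1), (13, 29, 32), [3509641, 15405491], 17⟩,
  ⟨⟨29, 72, -9, -56, 25, -12, 38, 16, -73⟩, (.cons (nat_lit 16636351) (nat_lit 6072120) (nat_lit 30793430)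
 (nat_lit 1) (.cons (nat_lit 17071019) (nat_lit 22622819) (nat_lit 11122220) (nat_lit 1) .nil)), (nat_lit 11),
 (nat_lit 10), (nat_lit 26), (nat_lit 1), (5, 54, 9), [39100884, 8041095], 30⟩,
  ⟨⟨65, 24, -72, -4, -55, -48, -10, 40, -49⟩, (.cons (nat_lit 34286690) (nat_lit 34664433) (nat_lit 25658665)
 (nat_lit 1) (.cons (nat_lit 19741089) (nat_lit 2187581) (nat_lit 17965284) (nat_lit 1) .nil)), (nat_lit 0),
 (nat_lit 23), (nat_lit 27), (nat_lit 1), (39, 26, 65), [37644657, 17288678], 13⟩,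
  ⟨⟨9, -76, -20, 44, 15, -82, -42, -24, -25⟩, (.cons (nat_lit 32135276) (nat_lit 13409381) (nat_lit 21217321)
 (nat_lit 1) (.cons (nat_lit 23868292) (nat_lit 390859) (nat_lit 12737451) (nat_lit 1) .nil)), (nat_lit 25),
 (nat_lit 5), (nat_lit 2), (nat_lit 1), (1, 68, 19), [1341273, 19420683], 8⟩,
  mz,
  ⟨⟨13, -72, 23, -70, -11, 40, 4, -44, -53⟩, (.cons (nat_lit 28890530) (nat_lit 28496186) (nat_lit 35683203)
 (nat_lit 1) (.cons (nat_lit 8154356) (nat_lit 17891731) (nat_lit 3508630) (nat_lit 1) .nil)), (nat_lit 21),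
 (nat_lit 10), (nat_lit 36), (nat_lit 1), (14, 12, 48), [23560848, 10645685], 18⟩,
  ⟨⟨9, 16, 80, -10, 69, -10, 60, 12, -11⟩, (.cons (nat_lit 22756673) (nat_lit 29911502) (nat_lit 15103754)
 (nat_lit 1) (.cons (nat_lit 7016208) (nat_lit 2447189) (nat_lit 7473851) (nat_lit 1) .nil)), (nat_lit 24),
 (nat_lit 13), (nat_lit 13), (nat_lit 1), (58, 46, 8), [22551637, 14008967], 9⟩,
  ⟨⟨-63, -40, 7, -10, -21, 80, 12, -60, -25⟩, (.cons (nat_lit 28516101) (nat_lit 38924160) (nat_lit 1) (nat_lit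
 3005359) (.cons (nat_lit 2873988) (nat_lit 1451496) (nat_lit 4754636) (nat_lit 1) .nil)), (nat_lit 4),
 (nat_lit 36), (nat_lit 11), (nat_lit 1), (33, 12, 14), [9258265, 2523807], 8⟩,
  mz,
  ⟨⟨-33, 68, -4, 50, 11, -80, -44, -4, -29⟩, (.cons (nat_lit 17656322) (nat_lit 6769373) (nat_lit 3552510)
 (nat_lit 1) (.cons (nat_lit 22961212) (nat_lit 8498407) (nat_lit 21198867) (nat_lit 1) .nil)), (nat_lit 1),
 (nat_lit 1), (nat_lit 9), (nat_lit 1), (43, 8, 10), [16220518, 18527782], 24⟩,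
  ⟨⟨63, -40, -56, -10, 21, -70, -12, -60, -13⟩, (.cons (nat_lit 40353606) (nat_lit 27296374) (nat_lit 27132386)
 (nat_lit 1) (.cons (nat_lit 13124141) (nat_lit 10046469) (nat_lit 9865193) (nat_lit 1) .nil)), (nat_lit 36),
 (nat_lit 26), (nat_lit 33), (nat_lit 1), (4, 5, 6), [4394139, 9233348], 13⟩,
  mz,
  mz,
  mz,
  ⟨⟨11, 72, -36, -50, -11, -30, 44, 4, -73⟩, (.cons (nat_lit 12218337) (nat_lit 22372710) (nat_lit 12342009)
 (nat_lit 1) (.cons (nat_lit 6435578) (nat_lit 6376974) (nat_lit 4168498) (nat_lit 1) .nil)), (nat_lit 6),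
 (nat_lit 24), (nat_lit 23), (nat_lit 1), (4, 27, 16), [30039567, 25197485], 27⟩,
  mz,
  ⟨⟨-13, 72, 36, 70, 11, -30, -4, 44, -49⟩, (.cons (nat_lit 18053355) (nat_lit 38986863) (nat_lit 15820498)
 (nat_lit 1) (.cons (nat_lit 10591511) (nat_lit 23391675) (nat_lit 21523246) (nat_lit 1) .nil)), (nat_lit 1),
 (nat_lit 16), (nat_lit 26), (nat_lit 1), (35, 30, 49), [15534490, 22922958], 24⟩,
  ⟨⟨75, -16, -52, -4, -55, 52, 10, -40, -59⟩, (.cons (nat_lit 24402086) (nat_lit 33685951) (nat_lit 26260697)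
 (nat_lit 1) (.cons (nat_lit 13486898) (nat_lit 17457890) (nat_lit 11624604) (nat_lit 1) .nil)), (nat_lit 6),
 (nat_lit 8), (nat_lit 1), (nat_lit 0), (51, 20, 21), [8418015, 19780911], 24⟩,
  mz,
  ⟨⟨-27, -68, 43, 64, -15, -2, 6, -48, -49⟩, (.cons (nat_lit 31097204) (nat_lit 37538029) (nat_lit 32875242)
 (nat_lit 1) (.cons (nat_lit 10253048) (nat_lit 24260685) (nat_lit 19286469) (nat_lit 1) .nil)), (nat_lit 33),
 (nat_lit 13), (nat_lit 22), (nat_lit 1), (60, 55, 34), [16458665, 19951550], 18⟩,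
  ⟨⟨13, 72, 23, -70, 11, 40, 4, 44, -53⟩, (.cons (nat_lit 20728150) (nat_lit 14835134) (nat_lit 22343705)
 (nat_lit 1) (.cons (nat_lit 21177378) (nat_lit 10662998) (nat_lit 22641869) (nat_lit 1) .nil)), (nat_lit 34),
 (nat_lit 8), (nat_lit 10), (nat_lit 1), (20, 7, 28), [39445307, 1955048], 10⟩,
  ⟨⟨-23, 72, 32, -64, -25, 52, -26, 32, -41⟩, (.cons (nat_lit 255106) (nat_lit 31522941) (nat_lit 33935184)
 (nat_lit 1) (.cons (nat_lit 1127756) (nat_lit 5350195) (nat_lit 21410883) (nat_lit 1) .nil)), (nat_lit 27),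
 (nat_lit 27), (nat_lit 11), (nat_lit 1), (27, 35, 12), [25592925, 21496726], 4⟩,
  ⟨⟨17, 24, 72, 36, 55, -48, 54, -24, -1⟩, (.cons (nat_lit 40353606) (nat_lit 7573361) (nat_lit 19298176)
 (nat_lit 1) (.cons (nat_lit 18432159) (nat_lit 4681861) (nat_lit 11154038) (nat_lit 1) .nil)), (nat_lit 0),
 (nat_lit 21), (nat_lit 1), (nat_lit 0), (30, 51, 41), [14157616, 22737215], 11⟩]

/-- Moves. -/
noncomputable def t4_1 : List Mv := [
  mz,
  ⟨⟨3, -16, -43, -10, -33, 20, 30, -12, -23⟩, (.cons (nat_lit 13627222) (nat_lit 12306891) (nat_lit 38037434)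
 (nat_lit 1) (.cons (nat_lit 13315783) (nat_lit 10527240) (nat_lit 19738883) (nat_lit 1) .nil)), (nat_lit 27),
 (nat_lit 0), (nat_lit 0), (nat_lit 0), (25, 3, 28), [4120211, 3203448], 0⟩,
  mz,
  mz,
  ⟨⟨21, 4, 28, 8, 35, -14, 32, -8, -19⟩, (.cons (nat_lit 40353606) (nat_lit 2230781) (nat_lit 3613331) (nat_lit
 1) (.cons (nat_lit 25411680) (nat_lit 10154267) (nat_lit 13119203) (nat_lit 1) .nil)), (nat_lit 4), (nat_lit
 0), (nat_lit 0), (nat_lit 0), (33, 2, 8), [1174826, 21584153], 0⟩,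
  ⟨⟨11, 12, -47, 8, -35, -14, 32, 8, -19⟩, (.cons (nat_lit 23753408) (nat_lit 20322121) (nat_lit 25380478)
 (nat_lit 1) (.cons (nat_lit 21251659) (nat_lit 2152976) (nat_lit 17701949) (nat_lit 1) .nil)), (nat_lit 35),
 (nat_lit 0), (nat_lit 0), (nat_lit 0), (29, 11, 7), [32442558, 7808603], 0⟩,
  mz,
  ⟨⟨-17, 36, 17, 30, 17, -30, -18, 12, -19⟩, (.cons (nat_lit 7263736) (nat_lit 38809822) (nat_lit 27344472)
 (nat_lit 1) (.cons (nat_lit 5671019) (nat_lit 4411000) (nat_lit 13656028) (nat_lit 1) .nil)), (nat_lit 25),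
 (nat_lit 0), (nat_lit 0), (nat_lit 0), (36, 17, 12), [26211833, 3457312], 0⟩,
  ⟨⟨-35, 12, -1, 12, 35, -6, 0, 0, -37⟩, (.cons (nat_lit 40353606) (nat_lit 34108463) (nat_lit 21620433)
 (nat_lit 1) (.cons (nat_lit 25411680) (nat_lit 19069916) (nat_lit 3545005) (nat_lit 1) .nil)), (nat_lit 8),
 (nat_lit 0), (nat_lit 0), (nat_lit 0), (3, 18, 0), [37744892, 5103211], 0⟩,
  mz,
  ⟨⟨-17, -36, 17, 30, -17, -30, -18, -12, -19⟩, (.cons (nat_lit 24584925) (nat_lit 9719217) (nat_lit 38553274)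
 (nat_lit 1) (.cons (nat_lit 7379698) (nat_lit 2451384) (nat_lit 8444916) (nat_lit 1) .nil)), (nat_lit 25),
 (nat_lit 0), (nat_lit 0), (nat_lit 0), (22, 33, 32), [6653306, 16453269], 0⟩,
  ⟨⟨3, 16, -43, 10, -33, -20, 30, 12, -23⟩, (.cons (nat_lit 32991890) (nat_lit 13491417) (nat_lit 1) (nat_lit
 22066142) (.cons (nat_lit 9691045) (nat_lit 18334934) (nat_lit 3219586) (nat_lit 1) .nil)), (nat_lit 26),
 (nat_lit 0), (nat_lit 0), (nat_lit 0), (23, 15, 8), [15583355, 23869016], 0⟩,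
  ⟨⟨39, -4, -8, 10, 17, -40, 14, -28, -19⟩, (.cons (nat_lit 40353606) (nat_lit 12876277) (nat_lit 6005654)
 (nat_lit 1) (.cons (nat_lit 25411680) (nat_lit 16422772) (nat_lit 25290557) (nat_lit 1) .nil)), (nat_lit 12),
 (nat_lit 0), (nat_lit 0), (nat_lit 0), (11, 18, 3), [38515151, 7875211], 0⟩,
  ⟨⟨-31, 24, 27, -8, 5, -36, 8, 32, -1⟩, (.cons (nat_lit 37166126) (nat_lit 37154804) (nat_lit 25719326)
 (nat_lit 1) (.cons (nat_lit 14403782) (nat_lit 24430895) (nat_lit 22120063) (nat_lit 1) .nil)), (nat_lit 19),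
 (nat_lit 0), (nat_lit 0), (nat_lit 0), (26, 27, 10), [29710350, 4274977], 0⟩,
  mz,
  ⟨⟨-3, 40, 8, 32, 5, -36, -16, 16, -19⟩, (.cons (nat_lit 32629192) (nat_lit 36842661) (nat_lit 1) (nat_lit
 5931058) (.cons (nat_lit 24929961) (nat_lit 11587023) (nat_lit 11389343) (nat_lit 1) .nil)), (nat_lit 24),
 (nat_lit 0), (nat_lit 0), (nat_lit 0), (27, 8, 33), [28113725, 1140516], 0⟩,
  ⟨⟨11, -12, 36, -8, -35, -6, 32, -8, -13⟩, (.cons (nat_lit 40353606) (nat_lit 6018952) (nat_lit 2703659)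
 (nat_lit 1) (.cons (nat_lit 25411680) (nat_lit 23268483) (nat_lit 7405783) (nat_lit 1) .nil)), (nat_lit 16),
 (nat_lit 0), (nat_lit 0), (nat_lit 0), (3, 18, 2), [11454161, 10481293], 0⟩,
  ⟨⟨39, -8, -11, 8, 5, -44, 8, -32, -7⟩, (.cons (nat_lit 40353606) (nat_lit 14463657) (nat_lit 23418454)
 (nat_lit 1) (.cons (nat_lit 25411680) (nat_lit 17503726) (nat_lit 2715942) (nat_lit 1) .nil)), (nat_lit 17),
 (nat_lit 0), (nat_lit 0), (nat_lit 0), (5, 20, 20), [22493363, 16624077], 0⟩,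
  ⟨⟨39, 4, -8, 10, -17, -40, 14, 28, -19⟩, (.cons (nat_lit 16268148) (nat_lit 25853070) (nat_lit 22564781)
 (nat_lit 1) (.cons (nat_lit 7086058) (nat_lit 7463271) (nat_lit 1) (nat_lit 2171677) .nil)), (nat_lit 12),
 (nat_lit 0), (nat_lit 0), (nat_lit 0), (29, 34, 18), [29920267, 25374744], 0⟩,
  ⟨⟨39, -8, -28, -8, -5, -36, 8, -32, -1⟩, (.cons (nat_lit 28635377) (nat_lit 28367095) (nat_lit 18822180)
 (nat_lit 1) (.cons (nat_lit 4054997) (nat_lit 14241417) (nat_lit 13474158) (nat_lit 1) .nil)), (nat_lit 22),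
 (nat_lit 0), (nat_lit 0), (nat_lit 0), (22, 23, 14), [37575961, 16413140], 0⟩,
  ⟨⟨25, -24, -36, -10, 17, -30, -14, -28, -5⟩, (.cons (nat_lit 40353606) (nat_lit 6112714) (nat_lit 20580521)
 (nat_lit 1) (.cons (nat_lit 25411680) (nat_lit 14108775) (nat_lit 10196809) (nat_lit 1) .nil)), (nat_lit 20),
 (nat_lit 0), (nat_lit 0), (nat_lit 0), (21, 36, 6), [1744305, 17901510], 0⟩,
  ⟨⟨13, -24, -40, -32, 5, -4, 16, 16, -35⟩, (.cons (nat_lit 25757983) (nat_lit 8555584) (nat_lit 1) (nat_lit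
 23720011) (.cons (nat_lit 10170207) (nat_lit 19624694) (nat_lit 4517136) (nat_lit 1) .nil)), (nat_lit 33),
 (nat_lit 0), (nat_lit 0), (nat_lit 0), (27, 36, 19), [1093060, 12933255], 0⟩,
  ⟨⟨39, 8, -11, 8, -5, -44, 8, 32, -7⟩, (.cons (nat_lit 12597237) (nat_lit 15127443) (nat_lit 13465689)
 (nat_lit 1) (.cons (nat_lit 11822145) (nat_lit 25108683) (nat_lit 15324140) (nat_lit 1) .nil)), (nat_lit 17),
 (nat_lit 0), (nat_lit 0), (nat_lit 0), (4, 16, 16), [23579410, 992724], 0⟩,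
  mz,
  ⟨⟨13, 24, -40, -32, -5, -4, 16, -16, -35⟩, (.cons (nat_lit 5102672) (nat_lit 23281691) (nat_lit 28095018)
 (nat_lit 1) (.cons (nat_lit 16296974) (nat_lit 18179101) (nat_lit 22377111) (nat_lit 1) .nil)), (nat_lit 33),
 (nat_lit 0), (nat_lit 0), (nat_lit 0), (24, 32, 21), [26444199, 13176841], 0⟩,
  ⟨⟨1, 24, -37, -30, -17, 0, 18, -12, -37⟩, (.cons (nat_lit 6486810) (nat_lit 26343929) (nat_lit 3534716)
 (nat_lit 1) (.cons (nat_lit 18834645) (nat_lit 18632159) (nat_lit 2093828) (nat_lit 1) .nil)), (nat_lit 10),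
 (nat_lit 0), (nat_lit 0), (nat_lit 0), (23, 13, 7), [7164299, 22052005], 0⟩,
  ⟨⟨27, -4, -47, -10, 33, -10, 30, 12, -7⟩, (.cons (nat_lit 10582992) (nat_lit 3236434) (nat_lit 8099300)
 (nat_lit 1) (.cons (nat_lit 17394738) (nat_lit 12971050) (nat_lit 8585235) (nat_lit 1) .nil)), (nat_lit 11),
 (nat_lit 0), (nat_lit 0), (nat_lit 0), (15, 15, 29), [320960, 22834538], 0⟩,
  ⟨⟨27, 4, -47, 10, 33, 10, 30, -12, -7⟩, (.cons (nat_lit 28163442) (nat_lit 23647045) (nat_lit 1) (nat_lit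
 113897) (.cons (nat_lit 17632328) (nat_lit 2308185) (nat_lit 14847017) (nat_lit 1) .nil)), (nat_lit 1),
 (nat_lit 0), (nat_lit 0), (nat_lit 0), (33, 4, 12), [28735570, 23185533], 0⟩,
  mz,
  ⟨⟨35, 12, -36, 12, -35, -6, 0, 0, -37⟩, (.cons (nat_lit 40353606) (nat_lit 33778210) (nat_lit 37629398)
 (nat_lit 1) (.cons (nat_lit 25411680) (nat_lit 15893181) (nat_lit 18534038) (nat_lit 1) .nil)), (nat_lit 29),
 (nat_lit 0), (nat_lit 0), (nat_lit 0), (14, 27, 0), [39176518, 13807684], 0⟩,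
  ⟨⟨-39, 4, 31, -10, -17, -30, -14, 28, -5⟩, (.cons (nat_lit 33344534) (nat_lit 34012858) (nat_lit 2853738)
 (nat_lit 1) (.cons (nat_lit 1940220) (nat_lit 10807797) (nat_lit 16308680) (nat_lit 1) .nil)), (nat_lit 12),
 (nat_lit 0), (nat_lit 0), (nat_lit 0), (3, 15, 21), [25071857, 1978319], 0⟩,
  mz,
  mz,
  ⟨⟨-3, -40, 8, -32, 5, 36, -16, -16, -19⟩, (.cons (nat_lit 19324480) (nat_lit 30908320) (nat_lit 15686868)
 (nat_lit 1) (.cons (nat_lit 20824851) (nat_lit 23689107) (nat_lit 22462254) (nat_lit 1) .nil)), (nat_lit 21),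
 (nat_lit 0), (nat_lit 0), (nat_lit 0), (32, 33, 35), [32316980, 3735992], 0⟩,
  mz,
  ⟨⟨21, -4, -49, -8, 35, -6, 32, 8, -13⟩, (.cons (nat_lit 38236938) (nat_lit 34031657) (nat_lit 1) (nat_lit
 30394021) (.cons (nat_lit 8497273) (nat_lit 3374434) (nat_lit 2767621) (nat_lit 1) .nil)), (nat_lit 5),
 (nat_lit 0), (nat_lit 0), (nat_lit 0), (18, 9, 1), [12707257, 20956298], 0⟩,
  ⟨⟨1, -24, -37, -30, 17, 0, 18, 12, -37⟩, (.cons (nat_lit 3173769) (nat_lit 874886) (nat_lit 15424912)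
 (nat_lit 1) (.cons (nat_lit 14729428) (nat_lit 19132461) (nat_lit 25389406) (nat_lit 1) .nil)), (nat_lit 10),
 (nat_lit 0), (nat_lit 0), (nat_lit 0), (26, 34, 24), [18762944, 270728], 0⟩]

/-- Moves. -/
noncomputable def t4_3 : List Mv := [
  mz,
  ⟨⟨27, 4, 20, 10, 33, -20, 30, -12, -23⟩, (.cons (nat_lit 40353606) (nat_lit 6626759) (nat_lit 29916600)
 (nat_lit 1) (.cons (nat_lit 25411680) (nat_lit 2167007) (nat_lit 4439897) (nat_lit 1) .nil)), (nat_lit 1),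
 (nat_lit 0), (nat_lit 0), (nat_lit 0), (3, 34, 28), [8684076, 11881621], 0⟩,
  mz,
  mz,
  ⟨⟨21, 4, 28, 8, 35, -14, 32, -8, -19⟩, (.cons (nat_lit 40353606) (nat_lit 2230781) (nat_lit 3613331) (nat_lit
 1) (.cons (nat_lit 25411680) (nat_lit 10154267) (nat_lit 13119203) (nat_lit 1) .nil)), (nat_lit 4), (nat_lit
 0), (nat_lit 0), (nat_lit 0), (33, 2, 8), [1174826, 21584153], 0⟩,
  ⟨⟨21, -4, 28, 8, -35, -14, 32, 8, -19⟩, (.cons (nat_lit 17844638) (nat_lit 16771628) (nat_lit 20743685)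
 (nat_lit 1) (.cons (nat_lit 11198320) (nat_lit 15061216) (nat_lit 10605432) (nat_lit 1) .nil)), (nat_lit 4),
 (nat_lit 0), (nat_lit 0), (nat_lit 0), (15, 11, 7), [18939446, 24089387], 0⟩,
  mz,
  ⟨⟨-1, -24, -36, 30, 17, -30, -18, 12, -19⟩, (.cons (nat_lit 23319285) (nat_lit 11765227) (nat_lit 3150610)
 (nat_lit 1) (.cons (nat_lit 23056654) (nat_lit 25174731) (nat_lit 14797094) (nat_lit 1) .nil)), (nat_lit 10),
 (nat_lit 0), (nat_lit 0), (nat_lit 0), (13, 17, 12), [10508180, 2326483], 0⟩,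
  ⟨⟨-35, 12, -1, 12, 35, -6, 0, 0, -37⟩, (.cons (nat_lit 40353606) (nat_lit 34108463) (nat_lit 21620433)
 (nat_lit 1) (.cons (nat_lit 25411680) (nat_lit 19069916) (nat_lit 3545005) (nat_lit 1) .nil)), (nat_lit 8),
 (nat_lit 0), (nat_lit 0), (nat_lit 0), (3, 18, 0), [37744892, 5103211], 0⟩,
  mz,
  ⟨⟨-1, 24, -36, 30, -17, -30, -18, -12, -19⟩, (.cons (nat_lit 40353606) (nat_lit 37520808) (nat_lit 10088593)
 (nat_lit 1) (.cons (nat_lit 25411680) (nat_lit 8545772) (nat_lit 524871) (nat_lit 1) .nil)), (nat_lit 10),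
 (nat_lit 0), (nat_lit 0), (nat_lit 0), (10, 33, 32), [20116413, 10372447], 0⟩,
  ⟨⟨27, -4, 20, 10, -33, -20, 30, 12, -23⟩, (.cons (nat_lit 3748422) (nat_lit 31462590) (nat_lit 1) (nat_lit
 11675678) (.cons (nat_lit 21376482) (nat_lit 16043087) (nat_lit 13560129) (nat_lit 1) .nil)), (nat_lit 1),
 (nat_lit 0), (nat_lit 0), (nat_lit 0), (22, 15, 8), [11245490, 17353040], 0⟩,
  ⟨⟨39, -4, -8, -10, -17, 40, 14, -28, -19⟩, (.cons (nat_lit 36673904) (nat_lit 8416060) (nat_lit 29869629)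
 (nat_lit 1) (.cons (nat_lit 7420778) (nat_lit 24687496) (nat_lit 2815262) (nat_lit 1) .nil)), (nat_lit 18),
 (nat_lit 0), (nat_lit 0), (nat_lit 0), (11, 19, 3), [30998659, 5151228], 0⟩,
  ⟨⟨-31, 24, 27, 8, -5, 36, 8, 32, -1⟩, (.cons (nat_lit 40353606) (nat_lit 5963253) (nat_lit 1170600) (nat_lit
 1) (.cons (nat_lit 25411680) (nat_lit 24154662) (nat_lit 25114764) (nat_lit 1) .nil)), (nat_lit 13), (nat_lit
 0), (nat_lit 0), (nat_lit 0), (26, 10, 10), [518976, 24555185], 0⟩,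
  mz,
  ⟨⟨-13, -24, -27, 32, 5, -36, -16, 16, -19⟩, (.cons (nat_lit 23426822) (nat_lit 20930187) (nat_lit 1) (nat_lit
 5450746) (.cons (nat_lit 23624249) (nat_lit 8938259) (nat_lit 21286961) (nat_lit 1) .nil)), (nat_lit 33),
 (nat_lit 0), (nat_lit 0), (nat_lit 0), (6, 8, 33), [1124812, 11140581], 0⟩,
  ⟨⟨21, 4, -49, -8, -35, -6, 32, -8, -13⟩, (.cons (nat_lit 19981627) (nat_lit 6824970) (nat_lit 21209104)
 (nat_lit 1) (.cons (nat_lit 4798989) (nat_lit 25296842) (nat_lit 19438496) (nat_lit 1) .nil)), (nat_lit 5),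
 (nat_lit 0), (nat_lit 0), (nat_lit 0), (36, 18, 2), [16972730, 22657164], 0⟩,
  ⟨⟨39, -8, -11, 8, 5, -44, 8, -32, -7⟩, (.cons (nat_lit 40353606) (nat_lit 14463657) (nat_lit 23418454)
 (nat_lit 1) (.cons (nat_lit 25411680) (nat_lit 17503726) (nat_lit 2715942) (nat_lit 1) .nil)), (nat_lit 17),
 (nat_lit 0), (nat_lit 0), (nat_lit 0), (5, 20, 20), [22493363, 16624077], 0⟩,
  ⟨⟨39, 4, -8, -10, 17, 40, 14, 28, -19⟩, (.cons (nat_lit 40353606) (nat_lit 16889543) (nat_lit 34302621)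
 (nat_lit 1) (.cons (nat_lit 25411680) (nat_lit 21081920) (nat_lit 8018643) (nat_lit 1) .nil)), (nat_lit 18),
 (nat_lit 0), (nat_lit 0), (nat_lit 0), (29, 3, 18), [28582291, 12263400], 0⟩,
  ⟨⟨-31, -24, 27, 8, 5, 36, 8, -32, -1⟩, (.cons (nat_lit 32426858) (nat_lit 40123396) (nat_lit 22312046)
 (nat_lit 1) (.cons (nat_lit 3928223) (nat_lit 4931825) (nat_lit 9303265) (nat_lit 1) .nil)), (nat_lit 13),
 (nat_lit 0), (nat_lit 0), (nat_lit 0), (29, 14, 14), [19921005, 1806309], 0⟩,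
  ⟨⟨25, -24, -36, -10, 17, -30, -14, -28, -5⟩, (.cons (nat_lit 40353606) (nat_lit 6112714) (nat_lit 20580521)
 (nat_lit 1) (.cons (nat_lit 25411680) (nat_lit 14108775) (nat_lit 10196809) (nat_lit 1) .nil)), (nat_lit 20),
 (nat_lit 0), (nat_lit 0), (nat_lit 0), (21, 36, 6), [1744305, 17901510], 0⟩,
  ⟨⟨13, -24, -40, 32, -5, 4, 16, 16, -35⟩, (.cons (nat_lit 17143204) (nat_lit 15972159) (nat_lit 33940448)
 (nat_lit 1) (.cons (nat_lit 13658117) (nat_lit 12773769) (nat_lit 19042771) (nat_lit 1) .nil)), (nat_lit 15),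
 (nat_lit 0), (nat_lit 0), (nat_lit 0), (27, 1, 19), [699291, 370216], 0⟩,
  ⟨⟨39, 8, -11, 8, -5, -44, 8, 32, -7⟩, (.cons (nat_lit 12597237) (nat_lit 15127443) (nat_lit 13465689)
 (nat_lit 1) (.cons (nat_lit 11822145) (nat_lit 25108683) (nat_lit 15324140) (nat_lit 1) .nil)), (nat_lit 17),
 (nat_lit 0), (nat_lit 0), (nat_lit 0), (4, 16, 16), [23579410, 992724], 0⟩,
  mz,
  ⟨⟨13, 24, -40, 32, 5, 4, 16, -16, -35⟩, (.cons (nat_lit 29841931) (nat_lit 1258255) (nat_lit 28611239)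
 (nat_lit 1) (.cons (nat_lit 6847259) (nat_lit 11842684) (nat_lit 24813339) (nat_lit 1) .nil)), (nat_lit 15),
 (nat_lit 0), (nat_lit 0), (nat_lit 0), (24, 5, 21), [24380212, 2832164], 0⟩,
  ⟨⟨1, 24, -37, 30, 17, 0, 18, -12, -37⟩, (.cons (nat_lit 38278704) (nat_lit 24842198) (nat_lit 36251430)
 (nat_lit 1) (.cons (nat_lit 14987321) (nat_lit 25070844) (nat_lit 4488915) (nat_lit 1) .nil)), (nat_lit 7),
 (nat_lit 0), (nat_lit 0), (nat_lit 0), (23, 24, 7), [25488941, 12442192], 0⟩,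
  ⟨⟨27, -4, -47, -10, 33, -10, 30, 12, -7⟩, (.cons (nat_lit 10582992) (nat_lit 3236434) (nat_lit 8099300)
 (nat_lit 1) (.cons (nat_lit 17394738) (nat_lit 12971050) (nat_lit 8585235) (nat_lit 1) .nil)), (nat_lit 11),
 (nat_lit 0), (nat_lit 0), (nat_lit 0), (15, 15, 29), [320960, 22834538], 0⟩,
  ⟨⟨27, 4, -47, -10, -33, -10, 30, -12, -7⟩, (.cons (nat_lit 22862533) (nat_lit 19592111) (nat_lit 12260545)
 (nat_lit 1) (.cons (nat_lit 17682131) (nat_lit 22244670) (nat_lit 3787796) (nat_lit 1) .nil)), (nat_lit 11),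
 (nat_lit 0), (nat_lit 0), (nat_lit 0), (33, 33, 12), [843225, 20480251], 0⟩,
  mz,
  ⟨⟨-35, -12, -1, 12, -35, -6, 0, 0, -37⟩, (.cons (nat_lit 17221905) (nat_lit 33837093) (nat_lit 29632367)
 (nat_lit 1) (.cons (nat_lit 9803965) (nat_lit 23292851) (nat_lit 24040816) (nat_lit 1) .nil)), (nat_lit 8),
 (nat_lit 0), (nat_lit 0), (nat_lit 0), (23, 27, 0), [11241002, 14292331], 0⟩,
  ⟨⟨25, 24, -36, -10, -17, -30, -14, 28, -5⟩, (.cons (nat_lit 10638174) (nat_lit 37807660) (nat_lit 10325083)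
 (nat_lit 1) (.cons (nat_lit 6051168) (nat_lit 22063306) (nat_lit 1) (nat_lit 4273064) .nil)), (nat_lit 20),
 (nat_lit 0), (nat_lit 0), (nat_lit 0), (18, 15, 21), [35454642, 17596059], 0⟩,
  mz,
  mz,
  ⟨⟨-13, 24, -27, 32, -5, -36, -16, -16, -19⟩, (.cons (nat_lit 40353606) (nat_lit 325947) (nat_lit 8352155)
 (nat_lit 1) (.cons (nat_lit 25411680) (nat_lit 4593882) (nat_lit 23479423) (nat_lit 1) .nil)), (nat_lit 33),
 (nat_lit 0), (nat_lit 0), (nat_lit 0), (3, 4, 35), [9409937, 24176250], 0⟩,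
  mz,
  ⟨⟨21, -4, -49, -8, 35, -6, 32, 8, -13⟩, (.cons (nat_lit 38236938) (nat_lit 34031657) (nat_lit 1) (nat_lit
 30394021) (.cons (nat_lit 8497273) (nat_lit 3374434) (nat_lit 2767621) (nat_lit 1) .nil)), (nat_lit 5),
 (nat_lit 0), (nat_lit 0), (nat_lit 0), (18, 9, 1), [12707257, 20956298], 0⟩,
  ⟨⟨1, -24, -37, 30, -17, 0, 18, 12, -37⟩, (.cons (nat_lit 35454406) (nat_lit 39378604) (nat_lit 31785199)
 (nat_lit 1) (.cons (nat_lit 4272971) (nat_lit 301364) (nat_lit 2894030) (nat_lit 1) .nil)), (nat_lit 7),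
 (nat_lit 0), (nat_lit 0), (nat_lit 0), (26, 3, 24), [438503, 23219600], 0⟩]

/-- All the moves. -/
noncomputable def tabs : List (List (List Mv)) := [[[], t0_1, [], t0_3], [[], t1_1, [], t1_3], [], [], [[], t4_1, [], t4_3]]

/-- Subtrie. -/
noncomputable def T1 : Tr := (.ev (nat_lit 20) (nat_lit 104241565696) (.nd (nat_lit 33) (.br (nat_lit 39) (.br
 (nat_lit 19) (.br (nat_lit 8) (.br (nat_lit 4) (.br (nat_lit 3) (.ch (nat_lit 1) (.ev (nat_lit 52) (nat_lit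
 673579024) (.ev (nat_lit 180) (nat_lit 65536) (.ev (nat_lit 436) (nat_lit 128) (.ev (nat_lit 1568) (nat_lit
 256) (.nd (nat_lit 1680) (.br (nat_lit 3) (.br (nat_lit 2) (.ch (nat_lit 1) (.ev (nat_lit 1696) (nat_lit
 1092610) (.nd (nat_lit 2064) (.br (nat_lit 1) (.ch (nat_lit 0) (.ev (nat_lit 2080) (nat_lit 32) (.ev (nat_lit
 2292) (nat_lit 33554432) (.ev (nat_lit 2301) (nat_lit 8589934592) .dd)))) (.ch (nat_lit 1) (.ev (nat_lit 2080)
 (nat_lit 33554432) (.ev (nat_lit 2900) (nat_lit 8589934592) (.ev (nat_lit 2909) (nat_lit 32) .dd)))))))) (.ch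
 (nat_lit 2) (.ev (nat_lit 1696) (nat_lit 40962) (.nd (nat_lit 2000) (.br (nat_lit 1) (.ch (nat_lit 0) (.ev
 (nat_lit 2016) (nat_lit 8624539680) (.ev (nat_lit 2029) (nat_lit 1024) .dd))) (.br (nat_lit 6) (.ch (nat_lit
 1) (.ev (nat_lit 2016) (nat_lit 1048608) (.ev (nat_lit 2112) (nat_lit 33554432) (.ev (nat_lit 3552) (nat_lit
 2048) (.fin (nat_lit 576494287372894825)))))) (.ch (nat_lit 6) (.ev (nat_lit 2016) (nat_lit 8589937664) (.ev
 (nat_lit 2404) (nat_lit 33554432) (.ev (nat_lit 2768) (nat_lit 32) (.ev (nat_lit 2781) (nat_lit 1048576)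
 .dd))))))))))) (.br (nat_lit 6) (.ch (nat_lit 3) (.ev (nat_lit 1696) (nat_lit 33563648) (.nd (nat_lit 2000)
 (.br (nat_lit 3) (.ch (nat_lit 0) (.ev (nat_lit 2016) (nat_lit 1081346) (.ev (nat_lit 2900) (nat_lit
 8589934592) (.nd (nat_lit 4896) (.br (nat_lit 2) (.ch (nat_lit 0) (.ev (nat_lit 4912) (nat_lit 2080) .dd))
 (.ch (nat_lit 2) (.fin (nat_lit 576464600600887876)))))))) (.br (nat_lit 6) (.ch (nat_lit 3) (.ev (nat_lit
 2016) (nat_lit 8589934624) (.ev (nat_lit 2880) (nat_lit 2048) (.ev (nat_lit 2960) (nat_lit 32768) (.ev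
 (nat_lit 3184) (nat_lit 2) (.ev (nat_lit 3197) (nat_lit 1048576) .dd)))))) (.ch (nat_lit 6) (.ev (nat_lit
 2016) (nat_lit 8589934594) (.ev (nat_lit 3008) (nat_lit 2048) (.ev (nat_lit 3296) (nat_lit 32768) (.ev
 (nat_lit 3664) (nat_lit 1048608) .dd)))))))))) (.ch (nat_lit 6) (.ev (nat_lit 1696) (nat_lit 8623521826) (.ev
 (nat_lit 1968) (nat_lit 2048) (.ev (nat_lit 3312) (nat_lit 1024) (.fin (nat_lit
 576485491357467241)))))))))))))) (.ch (nat_lit 3) (.ev (nat_lit 52) (nat_lit 8726249488) (.ev (nat_lit 84)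
 (nat_lit 32768) (.ev (nat_lit 224) (nat_lit 571944354) .dd))))) (.br (nat_lit 5) (.ch (nat_lit 4) (.ev
 (nat_lit 52) (nat_lit 9261033616) (.ev (nat_lit 308) (nat_lit 33554432) (.ev (nat_lit 468) (nat_lit 256) (.ev
 (nat_lit 500) (nat_lit 131072) (.ev (nat_lit 788) (nat_lit 65536) (.nd (nat_lit 1680) (.br (nat_lit 3) (.br
 (nat_lit 2) (.ch (nat_lit 0) (.ev (nat_lit 1696) (nat_lit 3440674) (.ev (nat_lit 1709) (nat_lit 1024) .dd)))
 (.ch (nat_lit 2) (.ev (nat_lit 1696) (nat_lit 2) (.nd (nat_lit 2000) (.br (nat_lit 5) (.ch (nat_lit 4) (.ev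
 (nat_lit 2016) (nat_lit 2098176) (.ev (nat_lit 3284) (nat_lit 32768) (.ev (nat_lit 3552) (nat_lit 1310720)
 (.ev (nat_lit 3565) (nat_lit 32) .dd))))) (.br (nat_lit 6) (.ch (nat_lit 5) (.ev (nat_lit 2016) (nat_lit
 3441664) (.ev (nat_lit 2029) (nat_lit 32) .dd))) (.ch (nat_lit 6) (.ev (nat_lit 2016) (nat_lit 1310752) (.ev
 (nat_lit 2048) (nat_lit 32768) (.ev (nat_lit 2768) (nat_lit 1024) (.ev (nat_lit 2781) (nat_lit 2097152)
 .dd))))))))))) (.br (nat_lit 6) (.ch (nat_lit 3) (.ev (nat_lit 1696) (nat_lit 1048610) (.ev (nat_lit 1712)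
 (nat_lit 32768) (.nd (nat_lit 2144) (.br (nat_lit 3) (.ch (nat_lit 0) (.ev (nat_lit 2404) (nat_lit 2097152)
 (.ev (nat_lit 2900) (nat_lit 1024) (.ev (nat_lit 2909) (nat_lit 262144) .dd)))) (.br (nat_lit 6) (.ch (nat_lit
 3) (.ev (nat_lit 2160) (nat_lit 1024) (.ev (nat_lit 2880) (nat_lit 262144) (.ev (nat_lit 2893) (nat_lit
 2097152) .dd)))) (.ch (nat_lit 6) (.ev (nat_lit 2160) (nat_lit 2097152) (.nd (nat_lit 4736) (.br (nat_lit 5)
 (.ch (nat_lit 0) (.ev (nat_lit 4752) (nat_lit 263168) .dd)) (.ch (nat_lit 5) (.fin (nat_lit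
 576482192797418020))))))))))))) (.ch (nat_lit 6) (.ev (nat_lit 1696) (nat_lit 1081344) (.ev (nat_lit 3894)
 (nat_lit 32) (.nd (nat_lit 4288) (.br (nat_lit 6) (.ch (nat_lit 0) (.nd (nat_lit 4640) (.br (nat_lit 5) (.ch
 (nat_lit 1) (.ev (nat_lit 4656) (nat_lit 263168) (.fin (nat_lit 576481093281595927)))) (.ch (nat_lit 5) (.ev
 (nat_lit 4656) (nat_lit 2097154) (.fin (nat_lit 576482192797418020))))))) (.ch (nat_lit 6) (.ev (nat_lit 4304)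
 (nat_lit 2360322) .dd)))))))))))))))) (.br (nat_lit 7) (.ch (nat_lit 5) (.ev (nat_lit 52) (nat_lit 134579490)
 (.ev (nat_lit 180) (nat_lit 2097152) (.ev (nat_lit 212) (nat_lit 8192) (.ev (nat_lit 500) (nat_lit 8589934592)
 (.ev (nat_lit 704) (nat_lit 571607184) .dd)))))) (.ch (nat_lit 7) (.ev (nat_lit 52) (nat_lit 167839874) (.ev
 (nat_lit 372) (nat_lit 131072) (.nd (nat_lit 1680) (.br (nat_lit 3) (.br (nat_lit 2) (.ch (nat_lit 0) (.ev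
 (nat_lit 1696) (nat_lit 540288304) (.ev (nat_lit 2256) (nat_lit 32768) (.ev (nat_lit 2269) (nat_lit
 8589934592) .dd)))) (.ch (nat_lit 2) (.ev (nat_lit 1696) (nat_lit 2105344) (.ev (nat_lit 1798) (nat_lit 32)
 (.ev (nat_lit 1840) (nat_lit 262144) (.nd (nat_lit 2064) (.br (nat_lit 5) (.ch (nat_lit 0) (.ev (nat_lit 2080)
 (nat_lit 9127886848) (.ev (nat_lit 2864) (nat_lit 1024) (.ev (nat_lit 3168) (nat_lit 256) (.ev (nat_lit 3181)
 (nat_lit 16) .dd))))) (.br (nat_lit 6) (.ch (nat_lit 5) (.ev (nat_lit 2080) (nat_lit 1296) (.ev (nat_lit 2944)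
 (nat_lit 536870912) (.ev (nat_lit 3136) (nat_lit 1048576) (.fin (nat_lit 576466799618900545)))))) (.ch
 (nat_lit 6) (.ev (nat_lit 2080) (nat_lit 537953552) (.ev (nat_lit 2093) (nat_lit 8589934592) .dd)))))))))))
 (.br (nat_lit 6) (.ch (nat_lit 3) (.ev (nat_lit 1696) (nat_lit 8593121312) (.nd (nat_lit 2064) (.br (nat_lit
 3) (.br (nat_lit 1) (.ch (nat_lit 0) (.ev (nat_lit 2080) (nat_lit 537134336) (.ev (nat_lit 2093) (nat_lit 16)
 .dd))) (.ch (nat_lit 1) (.ev (nat_lit 2080) (nat_lit 536872208) (.ev (nat_lit 2093) (nat_lit 262144) .dd))))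
 (.br (nat_lit 6) (.ch (nat_lit 3) (.ev (nat_lit 2080) (nat_lit 536871168) (.ev (nat_lit 2304) (nat_lit 262144)
 (.ev (nat_lit 2436) (nat_lit 1024) (.ev (nat_lit 2445) (nat_lit 16) .dd))))) (.ch (nat_lit 6) (.ev (nat_lit
 2192) (nat_lit 256) (.ev (nat_lit 2384) (nat_lit 536870912) (.ev (nat_lit 3284) (nat_lit 16) (.fin (nat_lit
 576440411324105308))))))))))) (.ch (nat_lit 6) (.ev (nat_lit 1696) (nat_lit 9126838544) (.nd (nat_lit 2144)
 (.br (nat_lit 5) (.br (nat_lit 3) (.ch (nat_lit 0) (.ev (nat_lit 2160) (nat_lit 8192) (.ev (nat_lit 2912)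
 (nat_lit 1048576) (.ev (nat_lit 3200) (nat_lit 32) (.ev (nat_lit 3284) (nat_lit 2097152) (.fin (nat_lit
 576440411324105308))))))) (.ch (nat_lit 3) (.ev (nat_lit 2160) (nat_lit 2106400) (.ev (nat_lit 2912) (nat_lit
 1310720) .dd)))) (.br (nat_lit 6) (.ch (nat_lit 5) (.ev (nat_lit 2160) (nat_lit 2097184) (.ev (nat_lit 2436)
 (nat_lit 1024) (.ev (nat_lit 2784) (nat_lit 262144) (.fin (nat_lit 576485491357467241)))))) (.ch (nat_lit 6)
 (.ev (nat_lit 2160) (nat_lit 3408928) (.ev (nat_lit 2173) (nat_lit 8192) .dd))))))))))))))))) (.br (nat_lit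
 15) (.br (nat_lit 11) (.ch (nat_lit 8) (.ev (nat_lit 52) (nat_lit 674301184) (.ev (nat_lit 692) (nat_lit 2)
 (.ev (nat_lit 724) (nat_lit 131072) (.nd (nat_lit 1680) (.br (nat_lit 3) (.ch (nat_lit 2) (.ev (nat_lit 1696)
 (nat_lit 270384) (.nd (nat_lit 2000) (.br (nat_lit 4) (.ch (nat_lit 1) (.ev (nat_lit 2016) (nat_lit 128) (.ev
 (nat_lit 2404) (nat_lit 2048) (.ev (nat_lit 3136) (nat_lit 33587200) (.ev (nat_lit 3149) (nat_lit 8589934592)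
 .dd))))) (.br (nat_lit 6) (.ch (nat_lit 4) (.ev (nat_lit 2016) (nat_lit 8589936640) (.ev (nat_lit 2912)
 (nat_lit 33554432) (.fin (nat_lit 576470098150638150))))) (.ch (nat_lit 6) (.ev (nat_lit 2016) (nat_lit
 8623521920) (.ev (nat_lit 2029) (nat_lit 2048) .dd)))))))) (.br (nat_lit 6) (.ch (nat_lit 3) (.ev (nat_lit
 1696) (nat_lit 8590198944) (.nd (nat_lit 2144) (.br (nat_lit 3) (.ch (nat_lit 1) (.ev (nat_lit 2160) (nat_lit
 8192) (.ev (nat_lit 3780) (nat_lit 32768) (.fin (nat_lit 576487690313613859))))) (.ch (nat_lit 3) (.ev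
 (nat_lit 2292) (nat_lit 33554432) (.ev (nat_lit 3328) (nat_lit 32784) (.ev (nat_lit 3341) (nat_lit 8192)
 .dd)))))))) (.ch (nat_lit 6) (.ev (nat_lit 1696) (nat_lit 8623521936) (.ev (nat_lit 1814) (nat_lit 262144)
 (.ev (nat_lit 2832) (nat_lit 2048) (.ev (nat_lit 3360) (nat_lit 32) (.ev (nat_lit 3373) (nat_lit 8192)
 .dd))))))))))))) (.br (nat_lit 12) (.ch (nat_lit 11) (.ev (nat_lit 52) (nat_lit 135399698) (.ev (nat_lit 84)
 (nat_lit 8320) (.ev (nat_lit 544) (nat_lit 9162818592) .dd)))) (.ch (nat_lit 12) (.ev (nat_lit 52) (nat_lit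
 8724316304) (.ev (nat_lit 84) (nat_lit 2048) (.ev (nat_lit 180) (nat_lit 1024) (.ev (nat_lit 244) (nat_lit
 65536) (.ev (nat_lit 372) (nat_lit 2) (.ev (nat_lit 788) (nat_lit 256) (.nd (nat_lit 1680) (.br (nat_lit 2)
 (.br (nat_lit 1) (.ch (nat_lit 0) (.ev (nat_lit 1696) (nat_lit 36970528) (.ev (nat_lit 1709) (nat_lit
 536870912) .dd))) (.ch (nat_lit 1) (.ev (nat_lit 1696) (nat_lit 2367488) (.ev (nat_lit 1712) (nat_lit 32) (.nd
 (nat_lit 2000) (.br (nat_lit 5) (.ch (nat_lit 0) (.ev (nat_lit 2016) (nat_lit 1048576) (.nd (nat_lit 4608)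
 (.br (nat_lit 4) (.ch (nat_lit 1) (.fin (nat_lit 576460202501947975))) (.ch (nat_lit 4) (.ev (nat_lit 4624)
 (nat_lit 570425344) .dd)))))) (.br (nat_lit 6) (.ch (nat_lit 5) (.ev (nat_lit 2016) (nat_lit 33554432) (.ev
 (nat_lit 2176) (nat_lit 537919488) .dd))) (.ch (nat_lit 6) (.ev (nat_lit 2036) (nat_lit 536870912) (.ev
 (nat_lit 2404) (nat_lit 1048576) (.ev (nat_lit 2413) (nat_lit 33554432) .dd))))))))))) (.br (nat_lit 3) (.ch
 (nat_lit 2) (.ev (nat_lit 1696) (nat_lit 8224) (.nd (nat_lit 2000) (.br (nat_lit 4) (.ch (nat_lit 1) (.ev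
 (nat_lit 2016) (nat_lit 3407872) (.ev (nat_lit 2404) (nat_lit 536870912) (.ev (nat_lit 2413) (nat_lit
 33554432) .dd)))) (.br (nat_lit 6) (.ch (nat_lit 4) (.ev (nat_lit 2016) (nat_lit 2097152) (.nd (nat_lit 4576)
 (.br (nat_lit 3) (.ch (nat_lit 2) (.ev (nat_lit 4592) (nat_lit 1310720) (.fin (nat_lit 576462401619575353))))
 (.ch (nat_lit 3) (.ev (nat_lit 4592) (nat_lit 570425344) (.fin (nat_lit 576461302003089983)))))))) (.ch
 (nat_lit 6) (.ev (nat_lit 2016) (nat_lit 34865152) (.ev (nat_lit 2880) (nat_lit 536870912) (.ev (nat_lit 2893)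
 (nat_lit 2097152) .dd))))))))) (.ch (nat_lit 3) (.ev (nat_lit 1696) (nat_lit 262144) (.nd (nat_lit 2064) (.br
 (nat_lit 3) (.ch (nat_lit 1) (.ev (nat_lit 2080) (nat_lit 571482144) (.ev (nat_lit 2093) (nat_lit 2097152)
 .dd))) (.br (nat_lit 6) (.ch (nat_lit 3) (.ev (nat_lit 2080) (nat_lit 537919488) (.ev (nat_lit 2768) (nat_lit
 33562624) (.ev (nat_lit 3040) (nat_lit 32) (.ev (nat_lit 3053) (nat_lit 2097152) .dd))))) (.ch (nat_lit 6)
 (.ev (nat_lit 2080) (nat_lit 35659776) (.ev (nat_lit 2112) (nat_lit 32) (.ev (nat_lit 3552) (nat_lit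
 536870912) (.ev (nat_lit 3565) (nat_lit 1048576) .dd)))))))))))))))))))))) (.br (nat_lit 16) (.ch (nat_lit 15)
 (.ev (nat_lit 52) (nat_lit 8593352706) (.ev (nat_lit 116) (nat_lit 16) (.ev (nat_lit 244) (nat_lit 33554432)
 (.ev (nat_lit 276) (nat_lit 32768) (.ev (nat_lit 500) (nat_lit 65536) (.ev (nat_lit 532) (nat_lit 256) (.ev
 (nat_lit 864) (nat_lit 671088640) (.ev (nat_lit 1328) (nat_lit 1024) (.ev (nat_lit 1648) (nat_lit 128) (.nd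
 (nat_lit 1680) (.br (nat_lit 3) (.ch (nat_lit 1) (.ev (nat_lit 1696) (nat_lit 131104) .dd)) (.br (nat_lit 6)
 (.ch (nat_lit 3) (.ev (nat_lit 1696) (nat_lit 131072) (.ev (nat_lit 1709) (nat_lit 32) .dd))) (.ch (nat_lit 6)
 (.ev (nat_lit 1744) (nat_lit 32) (.ev (nat_lit 1757) (nat_lit 131072) .dd)))))))))))))))) (.br (nat_lit 18)
 (.ch (nat_lit 16) (.ev (nat_lit 52) (nat_lit 571744258) (.ev (nat_lit 244) (nat_lit 256) (.ev (nat_lit 308)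
 (nat_lit 134217728) (.ev (nat_lit 480) (nat_lit 8592264368) .dd))))) (.ch (nat_lit 18) (.ev (nat_lit 52)
 (nat_lit 167905458) (.ev (nat_lit 308) (nat_lit 536870912) (.ev (nat_lit 436) (nat_lit 32768) (.ev (nat_lit
 628) (nat_lit 8589934592) (.ev (nat_lit 660) (nat_lit 2097152) (.ev (nat_lit 768) (nat_lit 1385728)
 .dd))))))))))) (.br (nat_lit 29) (.br (nat_lit 23) (.br (nat_lit 22) (.ch (nat_lit 19) (.ev (nat_lit 52)
 (nat_lit 671490336) (.ev (nat_lit 308) (nat_lit 2097152) (.ev (nat_lit 340) (nat_lit 128) (.ev (nat_lit 532)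
 (nat_lit 65536) (.ev (nat_lit 756) (nat_lit 33554432) (.ev (nat_lit 1152) (nat_lit 2) (.nd (nat_lit 1680) (.br
 (nat_lit 2) (.ch (nat_lit 0) (.ev (nat_lit 1696) (nat_lit 8590986256) (.ev (nat_lit 1709) (nat_lit 32768)
 .dd))) (.br (nat_lit 3) (.ch (nat_lit 2) (.ev (nat_lit 1696) (nat_lit 1081344) (.ev (nat_lit 1952) (nat_lit
 16) (.ev (nat_lit 3296) (nat_lit 2048) (.fin (nat_lit 576494287372894825)))))) (.ch (nat_lit 3) (.ev (nat_lit
 1696) (nat_lit 16) (.nd (nat_lit 2144) (.br (nat_lit 6) (.ch (nat_lit 5) (.ev (nat_lit 2160) (nat_lit 1049600)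
 (.ev (nat_lit 2292) (nat_lit 8589934592) (.ev (nat_lit 2630) (nat_lit 2048) (.ev (nat_lit 2637) (nat_lit
 32768) .dd))))) (.ch (nat_lit 6) (.ev (nat_lit 2160) (nat_lit 8589969408) (.ev (nat_lit 2292) (nat_lit 1024)
 (.ev (nat_lit 2301) (nat_lit 1048576) .dd)))))))))))))))))) (.ch (nat_lit 22) (.ev (nat_lit 52) (nat_lit
 8591115648) (.ev (nat_lit 148) (nat_lit 2048) (.ev (nat_lit 596) (nat_lit 134217728) (.ev (nat_lit 692)
 (nat_lit 33554432) (.ev (nat_lit 880) (nat_lit 8208) (.ev (nat_lit 1536) (nat_lit 2097152) (.nd (nat_lit 1680)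
 (.br (nat_lit 2) (.ch (nat_lit 1) (.ev (nat_lit 1696) (nat_lit 537165824) (.ev (nat_lit 1732) (nat_lit 2) (.nd
 (nat_lit 2144) (.br (nat_lit 5) (.ch (nat_lit 0) (.ev (nat_lit 2160) (nat_lit 32) (.ev (nat_lit 2173) (nat_lit
 65536) .dd))) (.ch (nat_lit 5) (.ev (nat_lit 2160) (nat_lit 65536) (.ev (nat_lit 2173) (nat_lit 32)
 .dd)))))))) (.br (nat_lit 3) (.ch (nat_lit 2) (.ev (nat_lit 1696) (nat_lit 537198594) (.nd (nat_lit 2064) (.br
 (nat_lit 5) (.br (nat_lit 1) (.ch (nat_lit 0) (.ev (nat_lit 2080) (nat_lit 32768) (.ev (nat_lit 2093) (nat_lit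
 32) .dd))) (.ch (nat_lit 1) (.ev (nat_lit 2080) (nat_lit 32) (.ev (nat_lit 2093) (nat_lit 32768) .dd)))) (.br
 (nat_lit 6) (.ch (nat_lit 5) (.ev (nat_lit 2080) (nat_lit 32768) (.ev (nat_lit 2093) (nat_lit 32) .dd))) (.ch
 (nat_lit 6) (.ev (nat_lit 2080) (nat_lit 32) (.ev (nat_lit 2093) (nat_lit 32768) .dd)))))))) (.ch (nat_lit 3)
 (.ev (nat_lit 1696) (nat_lit 65570) (.ev (nat_lit 1732) (nat_lit 262144) (.ev (nat_lit 3024) (nat_lit
 536870912) (.ev (nat_lit 3037) (nat_lit 32768) .dd)))))))))))))))) (.br (nat_lit 24) (.ch (nat_lit 23) (.ev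
 (nat_lit 52) (nat_lit 570761488) (.ev (nat_lit 532) (nat_lit 8589934592) (.ev (nat_lit 1072) (nat_lit 131072)
 (.nd (nat_lit 1680) (.br (nat_lit 3) (.br (nat_lit 2) (.ch (nat_lit 1) (.ev (nat_lit 1696) (nat_lit 3181730)
 (.ev (nat_lit 1709) (nat_lit 134217728) .dd))) (.ch (nat_lit 2) (.ev (nat_lit 1696) (nat_lit 135299202) (.ev
 (nat_lit 1840) (nat_lit 2048) (.ev (nat_lit 1862) (nat_lit 1024) (.nd (nat_lit 2144) (.br (nat_lit 5) (.ch
 (nat_lit 0) (.ev (nat_lit 2160) (nat_lit 32) (.ev (nat_lit 2173) (nat_lit 2097152) .dd))) (.br (nat_lit 6)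
 (.ch (nat_lit 5) (.ev (nat_lit 2160) (nat_lit 2097152) (.ev (nat_lit 2173) (nat_lit 32) .dd))) (.ch (nat_lit
 6) (.ev (nat_lit 2160) (nat_lit 2097184) .dd)))))))))) (.br (nat_lit 6) (.ch (nat_lit 3) (.ev (nat_lit 1696)
 (nat_lit 137364482) (.nd (nat_lit 2000) (.br (nat_lit 5) (.br (nat_lit 3) (.ch (nat_lit 0) (.ev (nat_lit 2016)
 (nat_lit 32768) (.ev (nat_lit 3360) (nat_lit 128) (.fin (nat_lit 576458003520635452))))) (.ch (nat_lit 3) (.ev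
 (nat_lit 2016) (nat_lit 32768) (.ev (nat_lit 2304) (nat_lit 2048) (.ev (nat_lit 3568) (nat_lit 32) (.ev
 (nat_lit 3581) (nat_lit 128) .dd)))))) (.br (nat_lit 6) (.ch (nat_lit 5) (.ev (nat_lit 2016) (nat_lit 32) (.ev
 (nat_lit 3728) (nat_lit 2048) (.fin (nat_lit 576428316675228183))))) (.ch (nat_lit 6) (.ev (nat_lit 2016)
 (nat_lit 34976) .dd))))))) (.ch (nat_lit 6) (.ev (nat_lit 1696) (nat_lit 134250624) (.nd (nat_lit 2144) (.br
 (nat_lit 3) (.ch (nat_lit 0) (.ev (nat_lit 2160) (nat_lit 1024) (.ev (nat_lit 2352) (nat_lit 1048576) (.ev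
 (nat_lit 3648) (nat_lit 2080) (.fin (nat_lit 576481093281595927)))))) (.br (nat_lit 6) (.ch (nat_lit 3) (.ev
 (nat_lit 2160) (nat_lit 3147810) (.ev (nat_lit 2173) (nat_lit 1024) .dd))) (.ch (nat_lit 6) (.ev (nat_lit
 2160) (nat_lit 3147810) (.ev (nat_lit 2173) (nat_lit 1024) .dd))))))))))))))) (.br (nat_lit 26) (.ch (nat_lit
 24) (.ev (nat_lit 52) (nat_lit 538126736) (.ev (nat_lit 148) (nat_lit 32768) (.ev (nat_lit 532) (nat_lit 1024)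
 (.ev (nat_lit 692) (nat_lit 134217728) (.ev (nat_lit 800) (nat_lit 8625848354) .dd)))))) (.ch (nat_lit 26)
 (.ev (nat_lit 52) (nat_lit 8724644256) (.ev (nat_lit 148) (nat_lit 1048576) (.ev (nat_lit 436) (nat_lit 8192)
 (.ev (nat_lit 820) (nat_lit 1024) (.nd (nat_lit 1680) (.br (nat_lit 2) (.br (nat_lit 1) (.ch (nat_lit 0) (.ev
 (nat_lit 1696) (nat_lit 2050) (.ev (nat_lit 1732) (nat_lit 33554432) (.ev (nat_lit 3348) (nat_lit 16) (.ev
 (nat_lit 3648) (nat_lit 536870912) (.ev (nat_lit 3661) (nat_lit 2097152) .dd)))))) (.ch (nat_lit 1) (.ev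
 (nat_lit 1696) (nat_lit 2099216) (.nd (nat_lit 2064) (.br (nat_lit 5) (.br (nat_lit 3) (.ch (nat_lit 0) (.ev
 (nat_lit 2080) (nat_lit 2) (.fin (nat_lit 576462401619575353)))) (.ch (nat_lit 3) (.ev (nat_lit 2080) (nat_lit
 33554432) (.ev (nat_lit 2292) (nat_lit 2) (.ev (nat_lit 2301) (nat_lit 536870912) .dd))))) (.br (nat_lit 6)
 (.ch (nat_lit 5) (.ev (nat_lit 2292) (nat_lit 2) (.ev (nat_lit 2784) (nat_lit 536870912) (.ev (nat_lit 2797)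
 (nat_lit 33554432) .dd)))) (.ch (nat_lit 6) (.ev (nat_lit 2080) (nat_lit 570425346) .dd)))))))) (.br (nat_lit
 3) (.ch (nat_lit 2) (.ev (nat_lit 1696) (nat_lit 2097170) (.nd (nat_lit 2000) (.br (nat_lit 5) (.br (nat_lit
 4) (.ch (nat_lit 1) (.ev (nat_lit 2016) (nat_lit 570425344) (.ev (nat_lit 2029) (nat_lit 2048) .dd))) (.ch
 (nat_lit 4) (.ev (nat_lit 2016) (nat_lit 2048) (.fin (nat_lit 576462401619575353))))) (.br (nat_lit 6) (.ch
 (nat_lit 5) (.ev (nat_lit 2016) (nat_lit 33556480) (.ev (nat_lit 2029) (nat_lit 536870912) .dd))) (.ch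
 (nat_lit 6) (.ev (nat_lit 2292) (nat_lit 536870912) (.ev (nat_lit 2454) (nat_lit 33556480) .dd)))))))) (.ch
 (nat_lit 3) (.ev (nat_lit 1696) (nat_lit 2050) (.ev (nat_lit 1732) (nat_lit 536870912) (.ev (nat_lit 2864)
 (nat_lit 33554432) (.ev (nat_lit 3284) (nat_lit 2097152) (.ev (nat_lit 3293) (nat_lit 16) .dd)))))))))))))))))
 (.br (nat_lit 34) (.br (nat_lit 31) (.ch (nat_lit 29) (.ev (nat_lit 52) (nat_lit 264498) (.ev (nat_lit 180)
 (nat_lit 33554432) (.ev (nat_lit 692) (nat_lit 1024) (.nd (nat_lit 1680) (.br (nat_lit 1) (.ch (nat_lit 0)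
 (.ev (nat_lit 1696) (nat_lit 135331968) (.ev (nat_lit 2256) (nat_lit 536870912) (.ev (nat_lit 2304) (nat_lit
 8192) (.ev (nat_lit 3684) (nat_lit 8590065664) (.ev (nat_lit 3712) (nat_lit 32768) (.ev (nat_lit 3725)
 (nat_lit 2097152) .dd))))))) (.br (nat_lit 2) (.ch (nat_lit 1) (.ev (nat_lit 1696) (nat_lit 2138240) (.nd
 (nat_lit 2000) (.br (nat_lit 5) (.br (nat_lit 1) (.ch (nat_lit 0) (.ev (nat_lit 2016) (nat_lit 9127854080)
 (.ev (nat_lit 2208) (nat_lit 65536) (.ev (nat_lit 2292) (nat_lit 134217728) (.ev (nat_lit 2301) (nat_lit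
 131072) .dd))))) (.ch (nat_lit 1) (.ev (nat_lit 2016) (nat_lit 672333824) (.ev (nat_lit 2029) (nat_lit
 8589934592) .dd)))) (.br (nat_lit 6) (.ch (nat_lit 5) (.ev (nat_lit 2016) (nat_lit 537919488) (.ev (nat_lit
 2404) (nat_lit 134217728) (.ev (nat_lit 2960) (nat_lit 131072) (.ev (nat_lit 3184) (nat_lit 65536) (.ev
 (nat_lit 3197) (nat_lit 8589934592) .dd)))))) (.ch (nat_lit 6) (.ev (nat_lit 2016) (nat_lit 8590131200) (.ev
 (nat_lit 2292) (nat_lit 134217728) (.ev (nat_lit 3216) (nat_lit 536870912) (.ev (nat_lit 3229) (nat_lit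
 1048576) .dd)))))))))) (.ch (nat_lit 2) (.ev (nat_lit 1696) (nat_lit 9127010304) (.nd (nat_lit 2000) (.br
 (nat_lit 4) (.ch (nat_lit 1) (.ev (nat_lit 2016) (nat_lit 1081472) (.ev (nat_lit 3348) (nat_lit 134217728)
 (.ev (nat_lit 3357) (nat_lit 2097152) .dd)))) (.br (nat_lit 5) (.ch (nat_lit 4) (.ev (nat_lit 2016) (nat_lit
 136314880) (.ev (nat_lit 2336) (nat_lit 1048576) (.fin (nat_lit 576452505970885178))))) (.ch (nat_lit 5) (.ev
 (nat_lit 2016) (nat_lit 137363584) (.ev (nat_lit 2029) (nat_lit 32768) .dd))))))))))))))) (.br (nat_lit 33)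
 (.ch (nat_lit 31) (.ev (nat_lit 52) (nat_lit 572523554) (.ev (nat_lit 116) (nat_lit 128) (.ev (nat_lit 352)
 (nat_lit 8725702928) .dd)))) (.ch (nat_lit 33) (.ev (nat_lit 52) (nat_lit 135343106) (.ev (nat_lit 404)
 (nat_lit 128) (.ev (nat_lit 596) (nat_lit 536870912) (.ev (nat_lit 660) (nat_lit 131072) (.nd (nat_lit 1680)
 (.br (nat_lit 3) (.ch (nat_lit 2) (.ev (nat_lit 1696) (nat_lit 2359312) (.nd (nat_lit 2000) (.br (nat_lit 5)
 (.br (nat_lit 1) (.ch (nat_lit 0) (.ev (nat_lit 2016) (nat_lit 8623521792) (.ev (nat_lit 3216) (nat_lit 32)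
 (.ev (nat_lit 3229) (nat_lit 256) .dd)))) (.ch (nat_lit 1) (.ev (nat_lit 2016) (nat_lit 33554720) (.ev
 (nat_lit 2272) (nat_lit 8589967360) .dd)))) (.br (nat_lit 6) (.ch (nat_lit 5) (.ev (nat_lit 2292) (nat_lit
 33554432) (.ev (nat_lit 2560) (nat_lit 32) (.ev (nat_lit 3780) (nat_lit 256) (.fin (nat_lit
 576455804502622783)))))) (.ch (nat_lit 6) (.ev (nat_lit 2016) (nat_lit 8589967648) (.ev (nat_lit 2029)
 (nat_lit 33554432) .dd)))))))) (.br (nat_lit 6) (.ch (nat_lit 3) (.ev (nat_lit 1696) (nat_lit 8589934848) (.ev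
 (nat_lit 1878) (nat_lit 33554432) (.nd (nat_lit 2144) (.br (nat_lit 3) (.ch (nat_lit 1) (.ev (nat_lit 2160)
 (nat_lit 32800) (.ev (nat_lit 2240) (nat_lit 16) (.ev (nat_lit 3396) (nat_lit 2097152) (.ev (nat_lit 3405)
 (nat_lit 262144) .dd))))) (.br (nat_lit 5) (.ch (nat_lit 3) (.ev (nat_lit 2160) (nat_lit 32784) (.ev (nat_lit
 3696) (nat_lit 262144) (.ev (nat_lit 3780) (nat_lit 32) (.ev (nat_lit 3789) (nat_lit 2097152) .dd))))) (.ch
 (nat_lit 5) (.ev (nat_lit 2160) (nat_lit 2359344) (.ev (nat_lit 2173) (nat_lit 32768) .dd))))))))) (.ch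
 (nat_lit 6) (.ev (nat_lit 1696) (nat_lit 8623522096) (.ev (nat_lit 3376) (nat_lit 262144) (.ev (nat_lit 3389)
 (nat_lit 2097152) .dd)))))))))))))) (.br (nat_lit 36) (.ch (nat_lit 34) (.ev (nat_lit 52) (nat_lit 43394) (.ev
 (nat_lit 244) (nat_lit 131072) (.ev (nat_lit 340) (nat_lit 16) (.ev (nat_lit 404) (nat_lit 1048576) (.ev
 (nat_lit 564) (nat_lit 536870912) (.ev (nat_lit 660) (nat_lit 33554432) (.ev (nat_lit 692) (nat_lit 2097152)
 (.ev (nat_lit 1040) (nat_lit 134283264) (.nd (nat_lit 1680) (.br (nat_lit 2) (.ch (nat_lit 1) (.ev (nat_lit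
 1696) (nat_lit 263168) (.nd (nat_lit 2144) (.br (nat_lit 3) (.ch (nat_lit 0) (.ev (nat_lit 2160) (nat_lit 32)
 (.ev (nat_lit 2173) (nat_lit 8589934592) .dd))) (.br (nat_lit 5) (.ch (nat_lit 3) (.ev (nat_lit 2160) (nat_lit
 8589934592) (.ev (nat_lit 2173) (nat_lit 32) .dd))) (.ch (nat_lit 5) (.ev (nat_lit 2160) (nat_lit 8589934624)
 .dd))))))) (.br (nat_lit 3) (.ch (nat_lit 2) (.nd (nat_lit 2000) (.br (nat_lit 5) (.ch (nat_lit 4) (.ev
 (nat_lit 2016) (nat_lit 8589935616) (.ev (nat_lit 2240) (nat_lit 32) (.ev (nat_lit 2253) (nat_lit 262144)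
 .dd)))) (.br (nat_lit 6) (.ch (nat_lit 5) (.ev (nat_lit 2016) (nat_lit 8590196736) (.ev (nat_lit 2292)
 (nat_lit 1024) (.ev (nat_lit 2301) (nat_lit 32) .dd)))) (.ch (nat_lit 6) (.ev (nat_lit 2016) (nat_lit 262176)
 (.ev (nat_lit 2500) (nat_lit 1024) (.ev (nat_lit 2509) (nat_lit 8589934592) .dd)))))))) (.ch (nat_lit 3) (.ev
 (nat_lit 1696) (nat_lit 8589934624) (.ev (nat_lit 2100) (nat_lit 1024) (.ev (nat_lit 2109) (nat_lit 262144)
 .dd)))))))))))))))) (.br (nat_lit 38) (.ch (nat_lit 36) (.ev (nat_lit 52) (nat_lit 570499456) (.ev (nat_lit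
 180) (nat_lit 2) (.ev (nat_lit 212) (nat_lit 32) (.ev (nat_lit 308) (nat_lit 1024) (.ev (nat_lit 340) (nat_lit
 32768) (.nd (nat_lit 1680) (.br (nat_lit 3) (.ch (nat_lit 0) (.ev (nat_lit 1696) (nat_lit 1050624) (.ev
 (nat_lit 2292) (nat_lit 2097152) (.ev (nat_lit 2528) (nat_lit 262144) (.ev (nat_lit 2912) (nat_lit 134217728)
 (.ev (nat_lit 3104) (nat_lit 8590065664) (.ev (nat_lit 3117) (nat_lit 16) .dd))))))) (.br (nat_lit 6) (.ch
 (nat_lit 3) (.ev (nat_lit 1696) (nat_lit 137758720) (.nd (nat_lit 2144) (.br (nat_lit 1) (.ch (nat_lit 0) (.ev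
 (nat_lit 2160) (nat_lit 16) (.ev (nat_lit 2173) (nat_lit 8589934592) .dd))) (.br (nat_lit 6) (.ch (nat_lit 1)
 (.ev (nat_lit 2160) (nat_lit 8589934592) (.ev (nat_lit 2173) (nat_lit 16) .dd))) (.ch (nat_lit 6) (.ev
 (nat_lit 2160) (nat_lit 8589934592) (.ev (nat_lit 2173) (nat_lit 16) .dd)))))))) (.ch (nat_lit 6) (.ev
 (nat_lit 1696) (nat_lit 8724152336) (.ev (nat_lit 2960) (nat_lit 131072) (.ev (nat_lit 3216) (nat_lit 262144)
 (.ev (nat_lit 3296) (nat_lit 2048) (.nd (nat_lit 4384) (.br (nat_lit 5) (.ch (nat_lit 0) (.ev (nat_lit 4400)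
 (nat_lit 3145728) .dd)) (.br (nat_lit 6) (.ch (nat_lit 5) (.fin (nat_lit 576458003530072641))) (.ch (nat_lit
 6) (.ev (nat_lit 4400) (nat_lit 3145728) .dd))))))))))))))))))) (.ch (nat_lit 38) (.ev (nat_lit 52) (nat_lit
 35924224) (.ev (nat_lit 148) (nat_lit 32) (.ev (nat_lit 180) (nat_lit 9126805504) (.ev (nat_lit 596) (nat_lit
 65536) (.ev (nat_lit 724) (nat_lit 1024) (.ev (nat_lit 820) (nat_lit 134217728) (.ev (nat_lit 912) (nat_lit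
 131074) (.nd (nat_lit 1680) (.br (nat_lit 2) (.ch (nat_lit 0) (.ev (nat_lit 1696) (nat_lit 1048704) (.ev
 (nat_lit 3092) (nat_lit 16) (.ev (nat_lit 3101) (nat_lit 32768) .dd)))) (.br (nat_lit 3) (.ch (nat_lit 2) (.ev
 (nat_lit 1696) (nat_lit 32896) (.nd (nat_lit 2000) (.br (nat_lit 4) (.ch (nat_lit 0) (.ev (nat_lit 2016)
 (nat_lit 1048576) (.ev (nat_lit 2029) (nat_lit 16) .dd))) (.ch (nat_lit 4) (.ev (nat_lit 2016) (nat_lit 16)
 (.ev (nat_lit 2029) (nat_lit 1048576) .dd))))))) (.ch (nat_lit 3) (.ev (nat_lit 1696) (nat_lit 16) (.ev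
 (nat_lit 1920) (nat_lit 32768) (.ev (nat_lit 3264) (nat_lit 128) (.ev (nat_lit 3277) (nat_lit 1048576)
 .dd))))))))))))))))))))) (.br (nat_lit 54) (.br (nat_lit 47) (.br (nat_lit 43) (.br (nat_lit 42) (.ch (nat_lit
 39) (.ev (nat_lit 52) (nat_lit 570460592) (.ev (nat_lit 468) (nat_lit 2) (.ev (nat_lit 564) (nat_lit 65536)
 (.ev (nat_lit 640) (nat_lit 8727700480) .dd))))) (.ch (nat_lit 42) (.ev (nat_lit 52) (nat_lit 8592231426) (.ev
 (nat_lit 84) (nat_lit 32) (.ev (nat_lit 212) (nat_lit 128) (.ev (nat_lit 692) (nat_lit 536870912) (.nd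
 (nat_lit 1680) (.br (nat_lit 2) (.ch (nat_lit 1) (.ev (nat_lit 1696) (nat_lit 134521104) (.nd (nat_lit 2064)
 (.br (nat_lit 3) (.br (nat_lit 1) (.ch (nat_lit 0) (.ev (nat_lit 2080) (nat_lit 33554432) (.ev (nat_lit 2093)
 (nat_lit 1048576) .dd))) (.ch (nat_lit 1) (.ev (nat_lit 2080) (nat_lit 33554432) (.ev (nat_lit 2093) (nat_lit
 1048576) .dd)))) (.br (nat_lit 5) (.ch (nat_lit 3) (.ev (nat_lit 2080) (nat_lit 34603008) .dd)) (.ch (nat_lit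
 5) (.ev (nat_lit 2080) (nat_lit 1048576) (.ev (nat_lit 2093) (nat_lit 33554432) .dd)))))))) (.br (nat_lit 3)
 (.ch (nat_lit 2) (.ev (nat_lit 1696) (nat_lit 34643968) (.ev (nat_lit 1780) (nat_lit 16) (.nd (nat_lit 2064)
 (.br (nat_lit 5) (.ch (nat_lit 4) (.ev (nat_lit 2080) (nat_lit 134217984) (.ev (nat_lit 2093) (nat_lit 262144)
 .dd))) (.br (nat_lit 6) (.ch (nat_lit 5) (.ev (nat_lit 2080) (nat_lit 134479872) (.ev (nat_lit 2093) (nat_lit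
 256) .dd))) (.ch (nat_lit 6) (.ev (nat_lit 2080) (nat_lit 256) (.fin (nat_lit 576514078607360605))))))))))
 (.ch (nat_lit 3) (.ev (nat_lit 1696) (nat_lit 134479872) (.nd (nat_lit 2144) (.br (nat_lit 3) (.ch (nat_lit 0)
 (.ev (nat_lit 2160) (nat_lit 1089552) (.ev (nat_lit 2240) (nat_lit 33554432) (.ev (nat_lit 2253) (nat_lit 256)
 .dd)))) (.br (nat_lit 5) (.ch (nat_lit 3) (.ev (nat_lit 2160) (nat_lit 33554688) (.ev (nat_lit 3472) (nat_lit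
 16) (.ev (nat_lit 3520) (nat_lit 1089536) .dd)))) (.ch (nat_lit 5) (.ev (nat_lit 2160) (nat_lit 1057040) (.ev
 (nat_lit 2480) (nat_lit 33554432) (.ev (nat_lit 2493) (nat_lit 32768) .dd)))))))))))))))))) (.br (nat_lit 44)
 (.ch (nat_lit 43) (.ev (nat_lit 52) (nat_lit 9261195392) (.ev (nat_lit 180) (nat_lit 256) (.ev (nat_lit 212)
 (nat_lit 1048576) (.ev (nat_lit 500) (nat_lit 35651584) (.ev (nat_lit 692) (nat_lit 65536) (.nd (nat_lit 1680)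
 (.br (nat_lit 3) (.ch (nat_lit 2) (.ev (nat_lit 1696) (nat_lit 3090) (.nd (nat_lit 2000) (.br (nat_lit 4) (.ch
 (nat_lit 1) (.ev (nat_lit 2016) (nat_lit 262176) .dd)) (.br (nat_lit 6) (.ch (nat_lit 4) (.ev (nat_lit 2944)
 (nat_lit 32) (.ev (nat_lit 2957) (nat_lit 262144) .dd))) (.ch (nat_lit 6) (.ev (nat_lit 2608) (nat_lit 32)
 (.ev (nat_lit 2621) (nat_lit 262144) .dd)))))))) (.br (nat_lit 6) (.ch (nat_lit 3) (.ev (nat_lit 1696)
 (nat_lit 265216) (.nd (nat_lit 2064) (.br (nat_lit 5) (.ch (nat_lit 3) (.ev (nat_lit 2816) (nat_lit 16) (.ev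
 (nat_lit 3348) (nat_lit 2) (.ev (nat_lit 3357) (nat_lit 32) .dd)))) (.ch (nat_lit 5) (.ev (nat_lit 2080)
 (nat_lit 50) .dd)))))) (.ch (nat_lit 6) (.ev (nat_lit 1696) (nat_lit 50) (.ev (nat_lit 3684) (nat_lit 262144)
 (.ev (nat_lit 3780) (nat_lit 1024) (.ev (nat_lit 3789) (nat_lit 2048) .dd)))))))))))))) (.br (nat_lit 46) (.ch
 (nat_lit 44) (.ev (nat_lit 52) (nat_lit 538051874) (.ev (nat_lit 84) (nat_lit 262144) (.ev (nat_lit 116)
 (nat_lit 8192) (.ev (nat_lit 788) (nat_lit 33554432) (.ev (nat_lit 820) (nat_lit 2097152) (.ev (nat_lit 1168)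
 (nat_lit 65536) (.nd (nat_lit 1680) (.br (nat_lit 1) (.ch (nat_lit 0) (.ev (nat_lit 1696) (nat_lit 2176) (.ev
 (nat_lit 3696) (nat_lit 134217728) (.ev (nat_lit 3744) (nat_lit 8589934592) (.fin (nat_lit
 576496486473744961)))))) (.br (nat_lit 3) (.ch (nat_lit 1) (.ev (nat_lit 1696) (nat_lit 8724187152) (.ev
 (nat_lit 1709) (nat_lit 128) .dd))) (.ch (nat_lit 3) (.ev (nat_lit 1696) (nat_lit 134217728) (.nd (nat_lit
 2144) (.br (nat_lit 6) (.ch (nat_lit 3) (.ev (nat_lit 2160) (nat_lit 2064) (.ev (nat_lit 3396) (nat_lit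
 8589934592) (.ev (nat_lit 3414) (nat_lit 32768) (.ev (nat_lit 3421) (nat_lit 128) .dd))))) (.ch (nat_lit 6)
 (.ev (nat_lit 2160) (nat_lit 8589967488) (.ev (nat_lit 2292) (nat_lit 2048) (.ev (nat_lit 2301) (nat_lit 16)
 .dd)))))))))))))))))) (.ch (nat_lit 46) (.ev (nat_lit 52) (nat_lit 35751938) (.ev (nat_lit 468) (nat_lit 1024)
 (.ev (nat_lit 756) (nat_lit 536870912) (.ev (nat_lit 1184) (nat_lit 8192) (.nd (nat_lit 1680) (.br (nat_lit 1)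
 (.ch (nat_lit 0) (.ev (nat_lit 1696) (nat_lit 8591245728) (.ev (nat_lit 3092) (nat_lit 16) (.ev (nat_lit 3284)
 (nat_lit 131072) (.ev (nat_lit 3293) (nat_lit 134217728) .dd))))) (.br (nat_lit 2) (.ch (nat_lit 1) (.ev
 (nat_lit 1696) (nat_lit 134479888) (.nd (nat_lit 2064) (.br (nat_lit 3) (.ch (nat_lit 1) (.ev (nat_lit 2080)
 (nat_lit 32) (.ev (nat_lit 2272) (nat_lit 131072) (.ev (nat_lit 2320) (nat_lit 256) (.ev (nat_lit 3684)
 (nat_lit 128) (.ev (nat_lit 3728) (nat_lit 8590983168) .dd)))))) (.br (nat_lit 5) (.ch (nat_lit 3) (.ev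
 (nat_lit 2080) (nat_lit 8590983424) (.ev (nat_lit 2416) (nat_lit 32) (.ev (nat_lit 2976) (nat_lit 128) (.ev
 (nat_lit 2989) (nat_lit 131072) .dd))))) (.ch (nat_lit 5) (.ev (nat_lit 2080) (nat_lit 131456) (.ev (nat_lit
 3284) (nat_lit 32) (.ev (nat_lit 3360) (nat_lit 1048576) (.ev (nat_lit 3373) (nat_lit 8589934592)
 .dd)))))))))) (.ch (nat_lit 2) (.ev (nat_lit 1696) (nat_lit 134348976) (.nd (nat_lit 2000) (.br (nat_lit 4)
 (.ch (nat_lit 1) (.ev (nat_lit 2016) (nat_lit 1310976) (.ev (nat_lit 2029) (nat_lit 8589934592) .dd))) (.br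
 (nat_lit 5) (.ch (nat_lit 4) (.ev (nat_lit 2016) (nat_lit 8589934592) (.ev (nat_lit 3284) (nat_lit 256) (.fin
 (nat_lit 576461302003089983))))) (.ch (nat_lit 5) (.ev (nat_lit 2016) (nat_lit 1310976) (.ev (nat_lit 2029)
 (nat_lit 8589934592) .dd))))))))))))))))))) (.br (nat_lit 50) (.br (nat_lit 48) (.ch (nat_lit 47) (.ev
 (nat_lit 52) (nat_lit 539043874) (.ev (nat_lit 564) (nat_lit 1024) (.ev (nat_lit 596) (nat_lit 256) (.ev
 (nat_lit 820) (nat_lit 8589934592) (.nd (nat_lit 1680) (.br (nat_lit 2) (.ch (nat_lit 1) (.ev (nat_lit 1696)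
 (nat_lit 1343632) (.ev (nat_lit 1780) (nat_lit 131072) (.nd (nat_lit 2144) (.br (nat_lit 1) (.ch (nat_lit 0)
 (.ev (nat_lit 2208) (nat_lit 134217728) (.ev (nat_lit 2221) (nat_lit 33554432) .dd))) (.br (nat_lit 6) (.ch
 (nat_lit 1) (.ev (nat_lit 2160) (nat_lit 167772160) .dd)) (.ch (nat_lit 6) (.ev (nat_lit 2160) (nat_lit
 33554432) (.ev (nat_lit 2173) (nat_lit 134217728) .dd))))))))) (.br (nat_lit 3) (.ch (nat_lit 2) (.ev (nat_lit
 1696) (nat_lit 167936144) (.nd (nat_lit 2144) (.br (nat_lit 5) (.ch (nat_lit 4) (.ev (nat_lit 2160) (nat_lit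
 1310720) .dd)) (.br (nat_lit 6) (.ch (nat_lit 5) (.ev (nat_lit 2160) (nat_lit 1310720) .dd)) (.ch (nat_lit 6)
 (.ev (nat_lit 2704) (nat_lit 1048576) (.ev (nat_lit 2717) (nat_lit 262144) .dd)))))))) (.ch (nat_lit 3) (.ev
 (nat_lit 1696) (nat_lit 134348800) (.ev (nat_lit 1732) (nat_lit 1048576) (.ev (nat_lit 1744) (nat_lit 262144)
 (.nd (nat_lit 2064) (.br (nat_lit 5) (.br (nat_lit 3) (.ch (nat_lit 1) (.ev (nat_lit 2080) (nat_lit 128) (.ev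
 (nat_lit 3974) (nat_lit 32768) (.nd (nat_lit 5008) (.br (nat_lit 6) (.ch (nat_lit 5) (.fin (nat_lit
 576487690313613859))) (.ch (nat_lit 6) (.ev (nat_lit 5024) (nat_lit 33554448) .dd))))))) (.ch (nat_lit 3) (.ev
 (nat_lit 2080) (nat_lit 33554560) (.ev (nat_lit 3814) (nat_lit 32784) .dd)))) (.br (nat_lit 6) (.ch (nat_lit
 5) (.ev (nat_lit 2080) (nat_lit 32784) (.ev (nat_lit 2656) (nat_lit 128) (.ev (nat_lit 2669) (nat_lit
 33554432) .dd)))) (.ch (nat_lit 6) (.ev (nat_lit 2080) (nat_lit 33587328) (.ev (nat_lit 2093) (nat_lit 16)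
 .dd)))))))))))))))))) (.br (nat_lit 49) (.ch (nat_lit 48) (.ev (nat_lit 52) (nat_lit 9261196304) (.ev (nat_lit
 512) (nat_lit 37030306) .dd))) (.ch (nat_lit 49) (.ev (nat_lit 52) (nat_lit 134482994) (.ev (nat_lit 468)
 (nat_lit 131072) (.ev (nat_lit 960) (nat_lit 536903680) (.ev (nat_lit 1504) (nat_lit 33554432) (.nd (nat_lit
 1680) (.br (nat_lit 3) (.ch (nat_lit 1) (.ev (nat_lit 1696) (nat_lit 2105472) (.nd (nat_lit 2064) (.br
 (nat_lit 5) (.ch (nat_lit 1) (.ev (nat_lit 2080) (nat_lit 65536) (.ev (nat_lit 3072) (nat_lit 1048576) (.ev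
 (nat_lit 3092) (nat_lit 8589934592) (.ev (nat_lit 3101) (nat_lit 256) .dd))))) (.ch (nat_lit 5) (.ev (nat_lit
 2080) (nat_lit 256) (.ev (nat_lit 2100) (nat_lit 8589934592) (.ev (nat_lit 2304) (nat_lit 1048576) (.ev
 (nat_lit 2317) (nat_lit 65536) .dd))))))))) (.br (nat_lit 6) (.ch (nat_lit 3) (.ev (nat_lit 1696) (nat_lit
 65792) (.nd (nat_lit 2000) (.br (nat_lit 5) (.ch (nat_lit 0) (.ev (nat_lit 2016) (nat_lit 1056768) (.ev
 (nat_lit 2292) (nat_lit 2097152) (.ev (nat_lit 2900) (nat_lit 8589934592) (.ev (nat_lit 2909) (nat_lit 128)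
 .dd))))) (.br (nat_lit 6) (.ch (nat_lit 5) (.ev (nat_lit 2016) (nat_lit 8592031872) (.fin (nat_lit
 576465700104127034)))) (.ch (nat_lit 6) (.ev (nat_lit 2016) (nat_lit 8592040064) (.ev (nat_lit 2029) (nat_lit
 1048576) .dd)))))))) (.ch (nat_lit 6) (.ev (nat_lit 1696) (nat_lit 8590991744) (.ev (nat_lit 2516) (nat_lit
 2097152) (.ev (nat_lit 2525) (nat_lit 65536) .dd)))))))))))))) (.br (nat_lit 51) (.ch (nat_lit 50) (.ev
 (nat_lit 52) (nat_lit 167813152) (.ev (nat_lit 180) (nat_lit 131072) (.ev (nat_lit 372) (nat_lit 256) (.ev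
 (nat_lit 564) (nat_lit 2097152) (.ev (nat_lit 660) (nat_lit 2) (.ev (nat_lit 1312) (nat_lit 8589934592) (.nd
 (nat_lit 1680) (.br (nat_lit 3) (.ch (nat_lit 0) (.ev (nat_lit 1696) (nat_lit 1379456) (.ev (nat_lit 3092)
 (nat_lit 536870912) (.ev (nat_lit 3101) (nat_lit 16) .dd)))) (.br (nat_lit 6) (.ch (nat_lit 3) (.ev (nat_lit
 1696) (nat_lit 536936448) (.nd (nat_lit 2000) (.br (nat_lit 5) (.ch (nat_lit 0) (.ev (nat_lit 2016) (nat_lit
 1049744) (.ev (nat_lit 3136) (nat_lit 264192) .dd))) (.br (nat_lit 6) (.ch (nat_lit 5) (.ev (nat_lit 2016)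
 (nat_lit 265232) (.ev (nat_lit 3120) (nat_lit 1048704) .dd))) (.ch (nat_lit 6) (.ev (nat_lit 2016) (nat_lit
 1312896) (.ev (nat_lit 2192) (nat_lit 1040) .dd)))))))) (.ch (nat_lit 6) (.ev (nat_lit 1696) (nat_lit
 538183824) (.ev (nat_lit 2292) (nat_lit 65536) (.ev (nat_lit 2301) (nat_lit 1024) .dd)))))))))))))) (.br
 (nat_lit 53) (.ch (nat_lit 51) (.ev (nat_lit 52) (nat_lit 8727594016) (.ev (nat_lit 84) (nat_lit 16) (.ev
 (nat_lit 576) (nat_lit 570632578) .dd)))) (.ch (nat_lit 53) (.ev (nat_lit 52) (nat_lit 9262137346) (.ev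
 (nat_lit 116) (nat_lit 32) (.ev (nat_lit 244) (nat_lit 1024) (.ev (nat_lit 1024) (nat_lit 131200) (.ev
 (nat_lit 1392) (nat_lit 2048) (.nd (nat_lit 1680) (.br (nat_lit 2) (.ch (nat_lit 0) (.ev (nat_lit 1696)
 (nat_lit 33816832) (.ev (nat_lit 3056) (nat_lit 2097152) (.ev (nat_lit 4022) (nat_lit 8192) (.nd (nat_lit
 4480) (.br (nat_lit 6) (.ch (nat_lit 5) (.nd (nat_lit 5040) (.ch (nat_lit 4) (.nd (nat_lit 5185) (.br (nat_lit
 34) (.br (nat_lit 19) (.ch (nat_lit 18) (.ev (nat_lit 5201) (nat_lit 32768) (.ev (nat_lit 5213) (nat_lit 16)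
 .dd))) (.br (nat_lit 26) (.ch (nat_lit 19) (.ev (nat_lit 5201) (nat_lit 32784) .dd)) (.ch (nat_lit 26) (.ev
 (nat_lit 5201) (nat_lit 32784) .dd)))) (.br (nat_lit 53) (.br (nat_lit 46) (.ch (nat_lit 34) (.ev (nat_lit
 5201) (nat_lit 32784) .dd)) (.ch (nat_lit 46) (.ev (nat_lit 5201) (nat_lit 32784) .dd))) (.br (nat_lit 54)
 (.ch (nat_lit 53) (.nd (nat_lit 5264) (.br (nat_lit 1) (.ch (nat_lit 0) (.fin (nat_lit 576496486473744961)))
 (.ch (nat_lit 1) (.ev (nat_lit 5280) (nat_lit 32784) .dd))))) (.ch (nat_lit 54) (.ev (nat_lit 5201) (nat_lit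
 32768) (.ev (nat_lit 5213) (nat_lit 16) .dd)))))))))) (.ch (nat_lit 6) (.ev (nat_lit 4496) (nat_lit 32784)
 .dd)))))))) (.br (nat_lit 6) (.ch (nat_lit 2) (.ev (nat_lit 1696) (nat_lit 8192) (.nd (nat_lit 2000) (.br
 (nat_lit 6) (.ch (nat_lit 4) (.ev (nat_lit 2016) (nat_lit 2097168) (.ev (nat_lit 3284) (nat_lit 33024) (.ev
 (nat_lit 3584) (nat_lit 262144) (.ev (nat_lit 3597) (nat_lit 33554432) .dd))))) (.ch (nat_lit 6) (.ev (nat_lit
 2016) (nat_lit 294912) (.ev (nat_lit 2292) (nat_lit 2097152) (.ev (nat_lit 3296) (nat_lit 33554432) (.ev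
 (nat_lit 3712) (nat_lit 272) .dd))))))))) (.ch (nat_lit 6) (.ev (nat_lit 1696) (nat_lit 35692816) (.ev
 (nat_lit 1709) (nat_lit 262144) .dd)))))))))))))))) (.br (nat_lit 64) (.br (nat_lit 57) (.br (nat_lit 55) (.ch
 (nat_lit 54) (.ev (nat_lit 52) (nat_lit 36841746) (.ev (nat_lit 308) (nat_lit 8589934592) (.ev (nat_lit 372)
 (nat_lit 65536) (.ev (nat_lit 532) (nat_lit 134217728) (.ev (nat_lit 736) (nat_lit 537167008) .dd)))))) (.ch
 (nat_lit 55) (.ev (nat_lit 52) (nat_lit 9127922690) (.ev (nat_lit 148) (nat_lit 8192) (.ev (nat_lit 448)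
 (nat_lit 170295728) .dd))))) (.br (nat_lit 58) (.ch (nat_lit 57) (.ev (nat_lit 52) (nat_lit 2238864) (.ev
 (nat_lit 116) (nat_lit 32768) (.ev (nat_lit 276) (nat_lit 1310720) (.ev (nat_lit 672) (nat_lit 9294644258)
 .dd))))) (.br (nat_lit 62) (.ch (nat_lit 58) (.ev (nat_lit 52) (nat_lit 167772448) (.ev (nat_lit 340) (nat_lit
 8192) (.ev (nat_lit 596) (nat_lit 1024) (.ev (nat_lit 724) (nat_lit 536870912) (.ev (nat_lit 1360) (nat_lit
 131072) (.nd (nat_lit 1680) (.br (nat_lit 3) (.ch (nat_lit 1) (.ev (nat_lit 1696) (nat_lit 8592326802) (.ev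
 (nat_lit 2292) (nat_lit 1048576) (.ev (nat_lit 2528) (nat_lit 2048) (.ev (nat_lit 2541) (nat_lit 65536)
 .dd))))) (.br (nat_lit 6) (.ch (nat_lit 3) (.ev (nat_lit 1696) (nat_lit 3475456) (.nd (nat_lit 2064) (.br
 (nat_lit 5) (.ch (nat_lit 0) (.ev (nat_lit 2080) (nat_lit 32770) (.ev (nat_lit 2112) (nat_lit 16) (.ev
 (nat_lit 2336) (nat_lit 8589934592) (.ev (nat_lit 2349) (nat_lit 128) .dd))))) (.br (nat_lit 6) (.ch (nat_lit
 5) (.ev (nat_lit 2080) (nat_lit 8589934610) (.fin (nat_lit 576428316675228183)))) (.ch (nat_lit 6) (.ev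
 (nat_lit 2080) (nat_lit 8589967488) (.ev (nat_lit 3632) (nat_lit 18) .dd)))))))) (.ch (nat_lit 6) (.ev
 (nat_lit 1696) (nat_lit 8589967506) (.ev (nat_lit 2256) (nat_lit 2048) (.ev (nat_lit 3284) (nat_lit 65536)
 (.ev (nat_lit 3780) (nat_lit 262144) (.fin (nat_lit 576464600591450687)))))))))))))))) (.ch (nat_lit 62) (.ev
 (nat_lit 52) (nat_lit 8623588608) (.ev (nat_lit 244) (nat_lit 536870912) (.ev (nat_lit 596) (nat_lit 131072)
 (.ev (nat_lit 628) (nat_lit 2) (.ev (nat_lit 1280) (nat_lit 128) (.nd (nat_lit 1680) (.br (nat_lit 3) (.ch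
 (nat_lit 2) (.ev (nat_lit 1696) (nat_lit 1058816) (.nd (nat_lit 2064) (.br (nat_lit 5) (.br (nat_lit 4) (.ch
 (nat_lit 0) (.ev (nat_lit 2080) (nat_lit 136314880) (.ev (nat_lit 3664) (nat_lit 48) (.ev (nat_lit 3677)
 (nat_lit 262144) .dd)))) (.ch (nat_lit 4) (.ev (nat_lit 2080) (nat_lit 136577072) .dd))) (.br (nat_lit 6) (.ch
 (nat_lit 5) (.ev (nat_lit 2080) (nat_lit 136577024) (.ev (nat_lit 3830) (nat_lit 16) (.ev (nat_lit 3837)
 (nat_lit 32) .dd)))) (.ch (nat_lit 6) (.ev (nat_lit 2208) (nat_lit 2097152) (.ev (nat_lit 3958) (nat_lit 16)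
 (.ev (nat_lit 4244) (nat_lit 32) (.nd (nat_lit 5056) (.br (nat_lit 4) (.ch (nat_lit 1) (.fin (nat_lit
 576514078607360605))) (.ch (nat_lit 4) (.ev (nat_lit 5072) (nat_lit 134479872) .dd))))))))))))) (.br (nat_lit
 6) (.ch (nat_lit 3) (.ev (nat_lit 1696) (nat_lit 136577072) (.nd (nat_lit 2064) (.br (nat_lit 3) (.ch (nat_lit
 1) (.ev (nat_lit 2080) (nat_lit 1058816) .dd)) (.br (nat_lit 5) (.ch (nat_lit 3) (.ev (nat_lit 2080) (nat_lit
 8192) (.ev (nat_lit 3696) (nat_lit 2048) (.ev (nat_lit 3709) (nat_lit 1048576) .dd)))) (.ch (nat_lit 5) (.ev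
 (nat_lit 3924) (nat_lit 2048) (.fin (nat_lit 576465700104127034))))))))) (.ch (nat_lit 6) (.ev (nat_lit 1696)
 (nat_lit 136585264) (.ev (nat_lit 3120) (nat_lit 1050624) .dd))))))))))))))) (.br (nat_lit 68) (.br (nat_lit
 65) (.ch (nat_lit 64) (.ev (nat_lit 52) (nat_lit 673450034) (.ev (nat_lit 564) (nat_lit 33554432) (.ev
 (nat_lit 628) (nat_lit 66560) (.ev (nat_lit 660) (nat_lit 8589934592) (.nd (nat_lit 1680) (.br (nat_lit 3)
 (.ch (nat_lit 0) (.ev (nat_lit 1696) (nat_lit 1048960) (.ev (nat_lit 3600) (nat_lit 40960) (.ev (nat_lit 3613)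
 (nat_lit 131072) .dd)))) (.br (nat_lit 6) (.ch (nat_lit 3) (.ev (nat_lit 1696) (nat_lit 172032) (.ev (nat_lit
 2900) (nat_lit 1048576) (.ev (nat_lit 3284) (nat_lit 256) (.ev (nat_lit 3293) (nat_lit 128) .dd))))) (.ch
 (nat_lit 6) (.ev (nat_lit 1696) (nat_lit 41344) (.ev (nat_lit 3092) (nat_lit 1048576) (.ev (nat_lit 3101)
 (nat_lit 131072) .dd)))))))))))) (.br (nat_lit 67) (.ch (nat_lit 65) (.ev (nat_lit 52) (nat_lit 34946) (.ev
 (nat_lit 160) (nat_lit 9298191664) .dd))) (.ch (nat_lit 67) (.ev (nat_lit 52) (nat_lit 572590114) (.ev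
 (nat_lit 148) (nat_lit 128) (.ev (nat_lit 244) (nat_lit 134217728) (.ev (nat_lit 276) (nat_lit 16) (.ev
 (nat_lit 308) (nat_lit 131072) (.ev (nat_lit 468) (nat_lit 8589934592) (.ev (nat_lit 848) (nat_lit 9216) (.ev
 (nat_lit 1344) (nat_lit 1048576) (.ev (nat_lit 1664) (nat_lit 256) (.nd (nat_lit 1680) (.br (nat_lit 1) (.ch
 (nat_lit 0) (.ev (nat_lit 1744) (nat_lit 32768) (.ev (nat_lit 1757) (nat_lit 262144) .dd))) (.br (nat_lit 2)
 (.ch (nat_lit 1) (.ev (nat_lit 1696) (nat_lit 294912) .dd)) (.ch (nat_lit 2) (.ev (nat_lit 1696) (nat_lit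
 262144) (.ev (nat_lit 1709) (nat_lit 32768) .dd)))))))))))))))))) (.br (nat_lit 69) (.ch (nat_lit 68) (.ev
 (nat_lit 52) (nat_lit 135366912) (.ev (nat_lit 288) (nat_lit 9162859698) .dd))) (.br (nat_lit 70) (.ch
 (nat_lit 69) (.ev (nat_lit 52) (nat_lit 9127200050) (.ev (nat_lit 404) (nat_lit 8192) (.ev (nat_lit 608)
 (nat_lit 171018368) .dd)))) (.ch (nat_lit 70) (.ev (nat_lit 52) (nat_lit 672564352) (.ev (nat_lit 372)
 (nat_lit 2097152) (.ev (nat_lit 404) (nat_lit 32) (.ev (nat_lit 436) (nat_lit 16) (.ev (nat_lit 564) (nat_lit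
 8589934592) (.ev (nat_lit 832) (nat_lit 33562624) (.nd (nat_lit 1680) (.br (nat_lit 2) (.ch (nat_lit 1) (.ev
 (nat_lit 1696) (nat_lit 67584) (.nd (nat_lit 2144) (.br (nat_lit 3) (.ch (nat_lit 0) (.ev (nat_lit 2292)
 (nat_lit 256) (.ev (nat_lit 2301) (nat_lit 2) .dd))) (.br (nat_lit 5) (.ch (nat_lit 3) (.ev (nat_lit 2160)
 (nat_lit 256) (.ev (nat_lit 2173) (nat_lit 2) .dd))) (.ch (nat_lit 5) (.ev (nat_lit 2160) (nat_lit 256) (.ev
 (nat_lit 2173) (nat_lit 2) .dd)))))))) (.br (nat_lit 6) (.ch (nat_lit 2) (.ev (nat_lit 1696) (nat_lit 65538)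
 (.nd (nat_lit 2064) (.br (nat_lit 6) (.ch (nat_lit 1) (.ev (nat_lit 2080) (nat_lit 256) (.ev (nat_lit 2093)
 (nat_lit 2048) .dd))) (.ch (nat_lit 6) (.ev (nat_lit 2080) (nat_lit 2048) (.ev (nat_lit 2093) (nat_lit 256)
 .dd))))))) (.ch (nat_lit 6) (.ev (nat_lit 1696) (nat_lit 256) (.ev (nat_lit 3104) (nat_lit 2048) (.ev (nat_lit
 3284) (nat_lit 65536) (.ev (nat_lit 3293) (nat_lit 2) .dd)))))))))))))))))))))))

/-- Subtrie. -/
noncomputable def T3 : Tr := (.ev (nat_lit 20) (nat_lit 536872320) (.nd (nat_lit 33) (.br (nat_lit 39) (.br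
 (nat_lit 19) (.br (nat_lit 8) (.br (nat_lit 4) (.br (nat_lit 3) (.ch (nat_lit 1) (.ev (nat_lit 52) (nat_lit
 68923293712) (.ev (nat_lit 180) (nat_lit 8192) (.ev (nat_lit 244) (nat_lit 34668544) (.ev (nat_lit 1376)
 (nat_lit 32768) (.nd (nat_lit 1680) (.br (nat_lit 3) (.ch (nat_lit 2) (.ev (nat_lit 1696) (nat_lit 4724768)
 (.ev (nat_lit 2928) (nat_lit 34359738368) (.ev (nat_lit 3120) (nat_lit 8589934592) (.ev (nat_lit 3312)
 (nat_lit 2) (.fin (nat_lit 576464600599839295))))))) (.br (nat_lit 6) (.ch (nat_lit 3) (.ev (nat_lit 1696)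
 (nat_lit 44040192002) (.ev (nat_lit 1824) (nat_lit 32) (.ev (nat_lit 2848) (nat_lit 2048) (.ev (nat_lit 3152)
 (nat_lit 4194304) (.nd (nat_lit 4128) (.br (nat_lit 4) (.ch (nat_lit 1) (.ev (nat_lit 4144) (nat_lit 528384)
 .dd)) (.ch (nat_lit 4) (.fin (nat_lit 576415122598609465)))))))))) (.ch (nat_lit 6) (.ev (nat_lit 1696)
 (nat_lit 9668401184) (.ev (nat_lit 1894) (nat_lit 34359738368) (.ev (nat_lit 2292) (nat_lit 16777216) (.ev
 (nat_lit 2301) (nat_lit 2) .dd))))))))))))) (.ch (nat_lit 3) (.ev (nat_lit 52) (nat_lit 77513359376) (.ev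
 (nat_lit 308) (nat_lit 33554432) (.ev (nat_lit 468) (nat_lit 32) (.ev (nat_lit 500) (nat_lit 34359738368) (.ev
 (nat_lit 564) (nat_lit 4096) (.ev (nat_lit 1440) (nat_lit 32768) (.nd (nat_lit 1680) (.br (nat_lit 3) (.br
 (nat_lit 2) (.ch (nat_lit 0) (.ev (nat_lit 1696) (nat_lit 21364738) (.ev (nat_lit 1732) (nat_lit 65536) (.ev
 (nat_lit 3424) (nat_lit 8192) (.ev (nat_lit 3712) (nat_lit 2048) (.ev (nat_lit 3760) (nat_lit 1073741824) (.ev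
 (nat_lit 3773) (nat_lit 1048576) .dd))))))) (.ch (nat_lit 2) (.ev (nat_lit 1696) (nat_lit 1074866176) (.ev
 (nat_lit 1732) (nat_lit 16777216) (.ev (nat_lit 1968) (nat_lit 262144) (.ev (nat_lit 2640) (nat_lit 4194304)
 (.ev (nat_lit 3312) (nat_lit 2) (.ev (nat_lit 3325) (nat_lit 131072) .dd)))))))) (.br (nat_lit 6) (.ch
 (nat_lit 3) (.ev (nat_lit 1696) (nat_lit 1094721536) (.ev (nat_lit 1712) (nat_lit 65536) (.nd (nat_lit 4032)
 (.br (nat_lit 6) (.ch (nat_lit 4) (.ev (nat_lit 4048) (nat_lit 1048578) (.ev (nat_lit 4196) (nat_lit 131072)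
 (.nd (nat_lit 4672) (.br (nat_lit 6) (.ch (nat_lit 5) (.fin (nat_lit 576451406492811808))) (.ch (nat_lit 6)
 (.ev (nat_lit 4688) (nat_lit 264192) .dd))))))) (.ch (nat_lit 6) (.ev (nat_lit 4048) (nat_lit 395264) (.fin
 (nat_lit 576408525491094061))))))))) (.ch (nat_lit 6) (.ev (nat_lit 1696) (nat_lit 4268034) (.ev (nat_lit
 1712) (nat_lit 16777216) (.nd (nat_lit 4080) (.br (nat_lit 4) (.ch (nat_lit 2) (.ev (nat_lit 4096) (nat_lit
 1312768) (.fin (nat_lit 576507481575342691)))) (.ch (nat_lit 4) (.ev (nat_lit 4096) (nat_lit 1073872896) (.ev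
 (nat_lit 4116) (nat_lit 1048576) (.nd (nat_lit 4976) (.br (nat_lit 6) (.ch (nat_lit 5) (.ev (nat_lit 4992)
 (nat_lit 264192) .dd)) (.ch (nat_lit 6) (.fin (nat_lit 576451406492811808)))))))))))))))))))))))) (.br
 (nat_lit 5) (.ch (nat_lit 4) (.ev (nat_lit 52) (nat_lit 43151013904) (.ev (nat_lit 84) (nat_lit 32768) (.ev
 (nat_lit 180) (nat_lit 1073741824) (.ev (nat_lit 500) (nat_lit 68719476736) (.ev (nat_lit 532) (nat_lit
 1048576) (.ev (nat_lit 1264) (nat_lit 33554432) (.nd (nat_lit 1680) (.br (nat_lit 5) (.ch (nat_lit 0) (.ev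
 (nat_lit 1696) (nat_lit 6684706) (.ev (nat_lit 3684) (nat_lit 17301504) (.ev (nat_lit 3693) (nat_lit 65536)
 .dd)))) (.br (nat_lit 6) (.ch (nat_lit 5) (.ev (nat_lit 1696) (nat_lit 17760256) (.ev (nat_lit 2224) (nat_lit
 4194304) (.ev (nat_lit 2292) (nat_lit 32) (.nd (nat_lit 4160) (.br (nat_lit 5) (.ch (nat_lit 4) (.ev (nat_lit
 4176) (nat_lit 2097154) .dd)) (.ch (nat_lit 5) (.fin (nat_lit 576441510839927401))))))))) (.ch (nat_lit 6)
 (.ev (nat_lit 1696) (nat_lit 19398656) (.ev (nat_lit 1910) (nat_lit 262144) (.ev (nat_lit 2944) (nat_lit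
 65536) (.ev (nat_lit 3136) (nat_lit 2) (.ev (nat_lit 3248) (nat_lit 4194304) (.ev (nat_lit 3284) (nat_lit 32)
 (.ev (nat_lit 3293) (nat_lit 131072) .dd)))))))))))))))))) (.br (nat_lit 7) (.ch (nat_lit 5) (.ev (nat_lit 52)
 (nat_lit 202211362) (.ev (nat_lit 84) (nat_lit 8589934592) (.ev (nat_lit 180) (nat_lit 1048576) (.ev (nat_lit
 500) (nat_lit 33554432) (.ev (nat_lit 532) (nat_lit 1073741824) (.ev (nat_lit 1136) (nat_lit 68719476736) (.nd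
 (nat_lit 1680) (.br (nat_lit 5) (.ch (nat_lit 0) (.ev (nat_lit 1696) (nat_lit 34366042112) (.ev (nat_lit 2224)
 (nat_lit 131072) (.ev (nat_lit 2292) (nat_lit 16) (.nd (nat_lit 4160) (.br (nat_lit 6) (.ch (nat_lit 5) (.fin
 (nat_lit 576441510862996073))) (.ch (nat_lit 6) (.ev (nat_lit 4176) (nat_lit 16779264) .dd)))))))) (.br
 (nat_lit 6) (.ch (nat_lit 5) (.ev (nat_lit 1696) (nat_lit 21108752) (.ev (nat_lit 3684) (nat_lit 2105344) (.ev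
 (nat_lit 3693) (nat_lit 34359738368) .dd)))) (.ch (nat_lit 6) (.ev (nat_lit 1696) (nat_lit 18882560) (.ev
 (nat_lit 1942) (nat_lit 4096) (.ev (nat_lit 2944) (nat_lit 34359738368) (.ev (nat_lit 3136) (nat_lit 2048)
 (.ev (nat_lit 3248) (nat_lit 131072) (.ev (nat_lit 3284) (nat_lit 16) (.ev (nat_lit 3293) (nat_lit 4194304)
 .dd)))))))))))))))))) (.ch (nat_lit 7) (.ev (nat_lit 52) (nat_lit 35668953090) (.ev (nat_lit 244) (nat_lit
 262144) (.ev (nat_lit 256) (nat_lit 77333704752) .dd))))))) (.br (nat_lit 15) (.br (nat_lit 11) (.ch (nat_lit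
 8) (.ev (nat_lit 52) (nat_lit 103217168384) (.ev (nat_lit 148) (nat_lit 32768) (.ev (nat_lit 724) (nat_lit 32)
 (.ev (nat_lit 788) (nat_lit 8192) (.ev (nat_lit 820) (nat_lit 4096) (.nd (nat_lit 1680) (.br (nat_lit 3) (.br
 (nat_lit 2) (.ch (nat_lit 0) (.ev (nat_lit 1696) (nat_lit 8695187474) (.ev (nat_lit 2256) (nat_lit 16777216)
 (.ev (nat_lit 2269) (nat_lit 1073741824) .dd)))) (.ch (nat_lit 2) (.ev (nat_lit 1696) (nat_lit 8623489024)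
 (.ev (nat_lit 2352) (nat_lit 131072) (.ev (nat_lit 2544) (nat_lit 2) (.ev (nat_lit 2580) (nat_lit 67108864)
 (.ev (nat_lit 3648) (nat_lit 264192) (.ev (nat_lit 3780) (nat_lit 4194320) (.nd (nat_lit 4512) (.br (nat_lit
 4) (.ch (nat_lit 2) (.fin (nat_lit 576464600599839295))) (.ch (nat_lit 4) (.ev (nat_lit 4528) (nat_lit
 1090519040) .dd)))))))))))) (.br (nat_lit 6) (.ch (nat_lit 3) (.ev (nat_lit 1696) (nat_lit 9781116944) (.ev
 (nat_lit 3200) (nat_lit 2) (.ev (nat_lit 3312) (nat_lit 131072) (.ev (nat_lit 3924) (nat_lit 4194304) (.nd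
 (nat_lit 4288) (.br (nat_lit 4) (.ch (nat_lit 1) (.ev (nat_lit 4304) (nat_lit 264192) .dd)) (.br (nat_lit 6)
 (.ch (nat_lit 4) (.fin (nat_lit 576471197628711520))) (.ch (nat_lit 6) (.ev (nat_lit 4304) (nat_lit 264192)
 .dd)))))))))) (.ch (nat_lit 6) (.ev (nat_lit 1696) (nat_lit 1094844418) (.nd (nat_lit 2144) (.br (nat_lit 3)
 (.br (nat_lit 2) (.ch (nat_lit 0) (.ev (nat_lit 2160) (nat_lit 8690862080) (.ev (nat_lit 2173) (nat_lit 16)
 .dd))) (.ch (nat_lit 2) (.ev (nat_lit 2160) (nat_lit 8657043456) (.ev (nat_lit 2304) (nat_lit 262144) (.ev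
 (nat_lit 3568) (nat_lit 2048) (.fin (nat_lit 576434913807909469))))))) (.br (nat_lit 4) (.ch (nat_lit 3) (.ev
 (nat_lit 2160) (nat_lit 8657045520) (.ev (nat_lit 2404) (nat_lit 33554432) (.ev (nat_lit 2413) (nat_lit
 262144) .dd)))) (.ch (nat_lit 4) (.ev (nat_lit 2160) (nat_lit 33554432) (.ev (nat_lit 2192) (nat_lit
 8589934592) (.ev (nat_lit 2384) (nat_lit 67108864) (.ev (nat_lit 3696) (nat_lit 16) (.fin (nat_lit
 576471197628711520))))))))))))))))))))) (.br (nat_lit 12) (.ch (nat_lit 11) (.ev (nat_lit 52) (nat_lit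
 103231391762) (.ev (nat_lit 628) (nat_lit 1073741824) (.ev (nat_lit 660) (nat_lit 524288) (.ev (nat_lit 756)
 (nat_lit 33554432) (.ev (nat_lit 1200) (nat_lit 8192) (.nd (nat_lit 1680) (.br (nat_lit 3) (.ch (nat_lit 2)
 (.ev (nat_lit 1696) (nat_lit 73760800) (.ev (nat_lit 1760) (nat_lit 8589938688) .dd))) (.br (nat_lit 5) (.ch
 (nat_lit 3) (.ev (nat_lit 1696) (nat_lit 8657043456) (.ev (nat_lit 2100) (nat_lit 2097152) (.ev (nat_lit 2900)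
 (nat_lit 4096) (.ev (nat_lit 3284) (nat_lit 262144) (.ev (nat_lit 3296) (nat_lit 98304) (.ev (nat_lit 3744)
 (nat_lit 4194304) (.ev (nat_lit 3757) (nat_lit 32) .dd)))))))) (.ch (nat_lit 5) (.ev (nat_lit 1696) (nat_lit
 364544) (.ev (nat_lit 2784) (nat_lit 8589934592) (.ev (nat_lit 3056) (nat_lit 71303168) (.ev (nat_lit 3092)
 (nat_lit 2097152) (.ev (nat_lit 3101) (nat_lit 32) .dd))))))))))))))) (.ch (nat_lit 12) (.ev (nat_lit 52)
 (nat_lit 9881948176) (.ev (nat_lit 180) (nat_lit 327680) (.ev (nat_lit 384) (nat_lit 103120644130) .dd))))))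
 (.br (nat_lit 16) (.ch (nat_lit 15) (.ev (nat_lit 52) (nat_lit 111689345026) (.ev (nat_lit 372) (nat_lit
 524288) (.ev (nat_lit 500) (nat_lit 134217728) (.ev (nat_lit 1088) (nat_lit 16) (.nd (nat_lit 1680) (.br
 (nat_lit 5) (.ch (nat_lit 3) (.ev (nat_lit 1696) (nat_lit 1178701824) (.ev (nat_lit 1760) (nat_lit 131104)
 .dd))) (.br (nat_lit 6) (.ch (nat_lit 5) (.ev (nat_lit 1696) (nat_lit 33722368) (.ev (nat_lit 2292) (nat_lit
 65536) (.ev (nat_lit 3284) (nat_lit 1073741824) (.ev (nat_lit 3568) (nat_lit 32) (.ev (nat_lit 3904) (nat_lit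
 67108864) (.ev (nat_lit 3917) (nat_lit 4194304) .dd))))))) (.ch (nat_lit 6) (.ev (nat_lit 1696) (nat_lit
 1073741856) (.ev (nat_lit 2100) (nat_lit 65536) (.ev (nat_lit 3284) (nat_lit 100663296) (.ev (nat_lit 3684)
 (nat_lit 163840) (.ev (nat_lit 3696) (nat_lit 4096) (.ev (nat_lit 3709) (nat_lit 4194304) .dd)))))))))))))))
 (.br (nat_lit 18) (.ch (nat_lit 16) (.ev (nat_lit 52) (nat_lit 68771655682) (.ev (nat_lit 180) (nat_lit 32)
 (.ev (nat_lit 308) (nat_lit 16) (.ev (nat_lit 436) (nat_lit 2048) (.ev (nat_lit 944) (nat_lit 8724185088) (.ev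
 (nat_lit 1616) (nat_lit 4194304) (.nd (nat_lit 1680) (.br (nat_lit 3) (.ch (nat_lit 0) (.ev (nat_lit 1696)
 (nat_lit 1143078912) (.ev (nat_lit 3120) (nat_lit 65536) (.ev (nat_lit 3133) (nat_lit 34359738368) .dd))))
 (.br (nat_lit 5) (.ch (nat_lit 3) (.ev (nat_lit 1696) (nat_lit 35500654592) (.ev (nat_lit 3104) (nat_lit
 131072) (.ev (nat_lit 3117) (nat_lit 2097152) .dd)))) (.ch (nat_lit 5) (.ev (nat_lit 1696) (nat_lit
 34359869440) (.ev (nat_lit 1744) (nat_lit 2162688) (.ev (nat_lit 2176) (nat_lit 67108864) (.ev (nat_lit 2189)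
 (nat_lit 1073741824) .dd))))))))))))))) (.ch (nat_lit 18) (.ev (nat_lit 52) (nat_lit 235018290) (.ev (nat_lit
 468) (nat_lit 34376515584) (.ev (nat_lit 564) (nat_lit 65536) (.ev (nat_lit 628) (nat_lit 2097152) (.nd
 (nat_lit 1680) (.br (nat_lit 2) (.ch (nat_lit 0) (.ev (nat_lit 1696) (nat_lit 9668657152) (.ev (nat_lit 3296)
 (nat_lit 8192) (.ev (nat_lit 3616) (nat_lit 68720558080) .dd)))) (.br (nat_lit 5) (.ch (nat_lit 2) (.ev
 (nat_lit 1696) (nat_lit 77311016960) (.ev (nat_lit 3072) (nat_lit 1073741824) (.ev (nat_lit 3396) (nat_lit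
 8192) (.fin (nat_lit 576437112845845075)))))) (.ch (nat_lit 5) (.ev (nat_lit 1696) (nat_lit 68719779840) (.ev
 (nat_lit 2100) (nat_lit 1048576) (.ev (nat_lit 2320) (nat_lit 8589934592) (.ev (nat_lit 3728) (nat_lit
 4194304) (.fin (nat_lit 576465700110418490))))))))))))))))))) (.br (nat_lit 29) (.br (nat_lit 23) (.br
 (nat_lit 22) (.ch (nat_lit 19) (.ev (nat_lit 52) (nat_lit 103214362656) (.ev (nat_lit 660) (nat_lit
 1073741824) (.ev (nat_lit 756) (nat_lit 65536) (.ev (nat_lit 1472) (nat_lit 4194304) (.nd (nat_lit 1680) (.br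
 (nat_lit 3) (.ch (nat_lit 0) (.ev (nat_lit 1696) (nat_lit 8625586178) (.ev (nat_lit 2100) (nat_lit 67108864)
 (.ev (nat_lit 3284) (nat_lit 1048576) (.ev (nat_lit 3536) (nat_lit 32784) (.fin (nat_lit
 576441510862996073))))))) (.br (nat_lit 6) (.ch (nat_lit 3) (.ev (nat_lit 1696) (nat_lit 8708456466) (.ev
 (nat_lit 3136) (nat_lit 2097152) (.ev (nat_lit 3149) (nat_lit 2048) .dd)))) (.ch (nat_lit 6) (.ev (nat_lit
 1696) (nat_lit 16812048) (.ev (nat_lit 2036) (nat_lit 1048576) (.ev (nat_lit 2752) (nat_lit 33554434) (.ev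
 (nat_lit 3024) (nat_lit 67108864) (.fin (nat_lit 576461302034547215))))))))))))))) (.ch (nat_lit 22) (.ev
 (nat_lit 52) (nat_lit 9736163328) (.ev (nat_lit 96) (nat_lit 103266756658) .dd)))) (.br (nat_lit 24) (.ch
 (nat_lit 23) (.ev (nat_lit 52) (nat_lit 105721872) (.ev (nat_lit 660) (nat_lit 1048576) (.ev (nat_lit 756)
 (nat_lit 34359738368) (.ev (nat_lit 1488) (nat_lit 131072) (.nd (nat_lit 1680) (.br (nat_lit 5) (.ch (nat_lit
 2) (.ev (nat_lit 1696) (nat_lit 78519502880) (.ev (nat_lit 3136) (nat_lit 16777216) (.ev (nat_lit 3149)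
 (nat_lit 2) .dd)))) (.br (nat_lit 6) (.ch (nat_lit 5) (.ev (nat_lit 1696) (nat_lit 68736288768) (.ev (nat_lit
 2100) (nat_lit 134217728) (.ev (nat_lit 3284) (nat_lit 1073741824) (.ev (nat_lit 3536) (nat_lit 8589934624)
 (.fin (nat_lit 576441510839927401))))))) (.ch (nat_lit 6) (.ev (nat_lit 1696) (nat_lit 8592031778) (.ev
 (nat_lit 2036) (nat_lit 1073741824) (.ev (nat_lit 2752) (nat_lit 68719478784) (.ev (nat_lit 3024) (nat_lit
 134217728) (.fin (nat_lit 576461302086976015))))))))))))))) (.br (nat_lit 26) (.ch (nat_lit 24) (.ev (nat_lit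
 52) (nat_lit 1079191568) (.ev (nat_lit 116) (nat_lit 2) (.ev (nat_lit 372) (nat_lit 134217728) (.ev (nat_lit
 532) (nat_lit 33554432) (.ev (nat_lit 756) (nat_lit 2097152) (.ev (nat_lit 1216) (nat_lit 524288) (.nd
 (nat_lit 1680) (.br (nat_lit 5) (.br (nat_lit 2) (.ch (nat_lit 0) (.ev (nat_lit 1696) (nat_lit 77309448224)
 (.ev (nat_lit 2996) (nat_lit 34359738368) (.ev (nat_lit 3284) (nat_lit 262144) (.ev (nat_lit 3648) (nat_lit
 67108864) (.ev (nat_lit 3661) (nat_lit 16777216) .dd)))))) (.ch (nat_lit 2) (.ev (nat_lit 1696) (nat_lit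
 111753330720) (.ev (nat_lit 1709) (nat_lit 4096) .dd)))) (.br (nat_lit 6) (.ch (nat_lit 5) (.ev (nat_lit 1696)
 (nat_lit 68736552960) (.nd (nat_lit 4032) (.br (nat_lit 4) (.ch (nat_lit 1) (.ev (nat_lit 4048) (nat_lit
 34426847232) (.fin (nat_lit 576426117729567295)))) (.br (nat_lit 5) (.ch (nat_lit 4) (.ev (nat_lit 4048)
 (nat_lit 8589934624) (.fin (nat_lit 576464600590402111)))) (.ch (nat_lit 5) (.ev (nat_lit 4048) (nat_lit
 43016781856) .dd))))))) (.ch (nat_lit 6) (.ev (nat_lit 1696) (nat_lit 8589938720) (.ev (nat_lit 1840) (nat_lit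
 67108864) (.ev (nat_lit 2864) (nat_lit 34359738368) (.ev (nat_lit 2944) (nat_lit 262144) (.ev (nat_lit 3168)
 (nat_lit 68719476736) (.nd (nat_lit 4256) (.br (nat_lit 3) (.ch (nat_lit 1) (.fin (nat_lit
 576461302086976015))) (.ch (nat_lit 3) (.ev (nat_lit 4272) (nat_lit 16809984) .dd)))))))))))))))))))) (.ch
 (nat_lit 26) (.ev (nat_lit 52) (nat_lit 8796471328) (.ev (nat_lit 724) (nat_lit 33554432) (.ev (nat_lit 820)
 (nat_lit 34359738368) (.nd (nat_lit 1680) (.br (nat_lit 3) (.ch (nat_lit 0) (.ev (nat_lit 1696) (nat_lit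
 1075843074) (.ev (nat_lit 1732) (nat_lit 68719476736) (.ev (nat_lit 2224) (nat_lit 2048) (.ev (nat_lit 2672)
 (nat_lit 8192) (.ev (nat_lit 2720) (nat_lit 16777232) (.ev (nat_lit 2733) (nat_lit 1048576) .dd))))))) (.br
 (nat_lit 6) (.ch (nat_lit 3) (.ev (nat_lit 1696) (nat_lit 69812101136) (.ev (nat_lit 2304) (nat_lit 2) (.ev
 (nat_lit 2464) (nat_lit 2048) (.ev (nat_lit 2996) (nat_lit 4096) (.ev (nat_lit 3005) (nat_lit 1048576)
 .dd)))))) (.ch (nat_lit 6) (.ev (nat_lit 1696) (nat_lit 1058832) (.ev (nat_lit 1732) (nat_lit 16777216) (.ev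
 (nat_lit 3092) (nat_lit 2) (.ev (nat_lit 3456) (nat_lit 1073741824) (.ev (nat_lit 3504) (nat_lit 68721573888)
 (.ev (nat_lit 3517) (nat_lit 4096) .dd))))))))))))))))) (.br (nat_lit 34) (.br (nat_lit 31) (.ch (nat_lit 29)
 (.ev (nat_lit 52) (nat_lit 84154418) (.ev (nat_lit 148) (nat_lit 131072) (.ev (nat_lit 192) (nat_lit
 112918634496) .dd)))) (.br (nat_lit 33) (.ch (nat_lit 31) (.ev (nat_lit 52) (nat_lit 57147426) (.ev (nat_lit
 276) (nat_lit 131072) (.ev (nat_lit 308) (nat_lit 262144) (.ev (nat_lit 532) (nat_lit 65536) (.ev (nat_lit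
 596) (nat_lit 134217728) (.ev (nat_lit 692) (nat_lit 34359738368) (.ev (nat_lit 976) (nat_lit 40960) (.ev
 (nat_lit 1456) (nat_lit 8589934592) (.nd (nat_lit 1680) (.br (nat_lit 2) (.ch (nat_lit 0) (.ev (nat_lit 1696)
 (nat_lit 69860333584) (.ev (nat_lit 1709) (nat_lit 1048576) .dd))) (.br (nat_lit 6) (.ch (nat_lit 2) (.ev
 (nat_lit 1696) (nat_lit 68787634176) (.ev (nat_lit 3796) (nat_lit 4096) (.ev (nat_lit 3990) (nat_lit 16) (.nd
 (nat_lit 4544) (.br (nat_lit 4) (.ch (nat_lit 2) (.nd (nat_lit 5152) (.ch (nat_lit 3) (.nd (nat_lit 5217) (.ch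
 (nat_lit 58) (.nd (nat_lit 5296) (.br (nat_lit 4) (.ch (nat_lit 2) (.fin (nat_lit 576408525514162733))) (.ch
 (nat_lit 4) (.ev (nat_lit 5312) (nat_lit 1073743872) .dd))))))))) (.ch (nat_lit 4) (.ev (nat_lit 4560)
 (nat_lit 1073743872) .dd)))))))) (.ch (nat_lit 6) (.ev (nat_lit 1696) (nat_lit 16) (.ev (nat_lit 2800)
 (nat_lit 1048576) (.ev (nat_lit 3072) (nat_lit 2048) (.ev (nat_lit 3312) (nat_lit 1073745920) (.ev (nat_lit
 3348) (nat_lit 68719476736) (.ev (nat_lit 3357) (nat_lit 67108864) .dd))))))))))))))))))) (.ch (nat_lit 33)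
 (.ev (nat_lit 52) (nat_lit 103281666050) (.ev (nat_lit 244) (nat_lit 4096) (.ev (nat_lit 320) (nat_lit
 9721249840) .dd)))))) (.br (nat_lit 36) (.ch (nat_lit 34) (.ev (nat_lit 52) (nat_lit 35433523202) (.ev
 (nat_lit 340) (nat_lit 8589934592) (.ev (nat_lit 372) (nat_lit 2097152) (.ev (nat_lit 564) (nat_lit 16777216)
 (.ev (nat_lit 628) (nat_lit 100663296) (.ev (nat_lit 660) (nat_lit 262144) (.ev (nat_lit 1600) (nat_lit
 68719476736) (.nd (nat_lit 1680) (.br (nat_lit 5) (.br (nat_lit 3) (.ch (nat_lit 0) (.ev (nat_lit 1696)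
 (nat_lit 4198432) (.ev (nat_lit 2176) (nat_lit 524288) (.ev (nat_lit 2368) (nat_lit 16) (.ev (nat_lit 3348)
 (nat_lit 131072) (.ev (nat_lit 3684) (nat_lit 1048576) (.nd (nat_lit 4256) (.br (nat_lit 6) (.ch (nat_lit 2)
 (.ev (nat_lit 4272) (nat_lit 134283264) .dd)) (.ch (nat_lit 6) (.nd (nat_lit 5120) (.br (nat_lit 6) (.ch
 (nat_lit 4) (.ev (nat_lit 5136) (nat_lit 134283264) .dd)) (.ch (nat_lit 6) (.fin (nat_lit
 576464600600887871)))))))))))))) (.ch (nat_lit 3) (.ev (nat_lit 1696) (nat_lit 135790640) (.ev (nat_lit 3712)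
 (nat_lit 65536) (.ev (nat_lit 3760) (nat_lit 4194304) (.fin (nat_lit 576437112764056147))))))) (.br (nat_lit
 6) (.ch (nat_lit 5) (.ev (nat_lit 1696) (nat_lit 4919312) (.ev (nat_lit 1968) (nat_lit 134217728) (.ev
 (nat_lit 2304) (nat_lit 32) (.ev (nat_lit 2317) (nat_lit 1048576) .dd))))) (.ch (nat_lit 6) (.ev (nat_lit
 1696) (nat_lit 528400) (.ev (nat_lit 2292) (nat_lit 65536) (.ev (nat_lit 3284) (nat_lit 32) (.ev (nat_lit
 3552) (nat_lit 134217728) (.nd (nat_lit 4160) (.br (nat_lit 2) (.ch (nat_lit 0) (.ev (nat_lit 4176) (nat_lit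
 5242880) (.ev (nat_lit 4189) (nat_lit 131072) .dd))) (.ch (nat_lit 2) (.ev (nat_lit 4176) (nat_lit 131072)
 (.fin (nat_lit 576507481522913891)))))))))))))))))))))) (.br (nat_lit 38) (.ch (nat_lit 36) (.ev (nat_lit 52)
 (nat_lit 35550994432) (.ev (nat_lit 148) (nat_lit 8589934592) (.ev (nat_lit 724) (nat_lit 16) (.ev (nat_lit
 788) (nat_lit 524288) (.ev (nat_lit 820) (nat_lit 262144) (.nd (nat_lit 1680) (.br (nat_lit 5) (.br (nat_lit
 3) (.ch (nat_lit 2) (.ev (nat_lit 1696) (nat_lit 68856872992) (.ev (nat_lit 3200) (nat_lit 2048) (.ev (nat_lit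
 3312) (nat_lit 4194304) (.ev (nat_lit 3924) (nat_lit 131072) (.nd (nat_lit 4448) (.br (nat_lit 2) (.ch
 (nat_lit 0) (.ev (nat_lit 4464) (nat_lit 4098) .dd)) (.br (nat_lit 4) (.ch (nat_lit 2) (.ev (nat_lit 4464)
 (nat_lit 4098) .dd)) (.ch (nat_lit 4) (.fin (nat_lit 576471197702111840))))))))))) (.ch (nat_lit 3) (.ev
 (nat_lit 1696) (nat_lit 68719509504) (.ev (nat_lit 2352) (nat_lit 4194304) (.ev (nat_lit 2544) (nat_lit 2048)
 (.ev (nat_lit 2580) (nat_lit 134217728) (.ev (nat_lit 3648) (nat_lit 4098) (.ev (nat_lit 3780) (nat_lit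
 131104) (.nd (nat_lit 4256) (.br (nat_lit 6) (.ch (nat_lit 4) (.ev (nat_lit 4272) (nat_lit 3145728) .dd)) (.ch
 (nat_lit 6) (.fin (nat_lit 576458003530072641))))))))))))) (.br (nat_lit 6) (.ch (nat_lit 5) (.ev (nat_lit
 1696) (nat_lit 68858058786) (.ev (nat_lit 2256) (nat_lit 2097152) (.ev (nat_lit 2269) (nat_lit 1048576)
 .dd)))) (.ch (nat_lit 6) (.ev (nat_lit 1696) (nat_lit 7473152) (.ev (nat_lit 2192) (nat_lit 32768) (.ev
 (nat_lit 2384) (nat_lit 134217728) (.nd (nat_lit 4080) (.br (nat_lit 1) (.ch (nat_lit 0) (.ev (nat_lit 4096)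
 (nat_lit 68719476768) (.fin (nat_lit 576471197702111840)))) (.br (nat_lit 2) (.ch (nat_lit 1) (.ev (nat_lit
 4096) (nat_lit 68719480866) .dd)) (.ch (nat_lit 2) (.ev (nat_lit 4096) (nat_lit 4098) (.fin (nat_lit
 576434913755480669)))))))))))))))))))) (.ch (nat_lit 38) (.ev (nat_lit 52) (nat_lit 69829670912) (.ev (nat_lit
 180) (nat_lit 16) (.ev (nat_lit 308) (nat_lit 32) (.ev (nat_lit 436) (nat_lit 2) (.ev (nat_lit 928) (nat_lit
 8657076224) (.ev (nat_lit 1632) (nat_lit 131072) (.nd (nat_lit 1680) (.br (nat_lit 2) (.ch (nat_lit 0) (.ev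
 (nat_lit 1696) (nat_lit 4259840) (.ev (nat_lit 1744) (nat_lit 34376515584) (.ev (nat_lit 2176) (nat_lit
 134217728) (.ev (nat_lit 2189) (nat_lit 1048576) .dd))))) (.br (nat_lit 5) (.ch (nat_lit 2) (.ev (nat_lit
 1696) (nat_lit 34495070208) (.ev (nat_lit 3104) (nat_lit 4194304) (.ev (nat_lit 3117) (nat_lit 16777216)
 .dd)))) (.ch (nat_lit 5) (.ev (nat_lit 1696) (nat_lit 156237824) (.ev (nat_lit 3120) (nat_lit 34359738368)
 (.ev (nat_lit 3133) (nat_lit 65536) .dd))))))))))))))))))) (.br (nat_lit 54) (.br (nat_lit 47) (.br (nat_lit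
 43) (.br (nat_lit 42) (.ch (nat_lit 39) (.ev (nat_lit 52) (nat_lit 37787696) (.ev (nat_lit 244) (nat_lit
 134217728) (.ev (nat_lit 276) (nat_lit 8589934592) (.ev (nat_lit 308) (nat_lit 34359738368) (.ev (nat_lit 340)
 (nat_lit 131072) (.ev (nat_lit 596) (nat_lit 524288) (.ev (nat_lit 992) (nat_lit 16785408) (.ev (nat_lit 1552)
 (nat_lit 1073741824) (.nd (nat_lit 1680) (.br (nat_lit 3) (.ch (nat_lit 2) (.ev (nat_lit 1696) (nat_lit
 68789796864) (.ev (nat_lit 2404) (nat_lit 2) (.ev (nat_lit 2413) (nat_lit 262144) .dd)))) (.br (nat_lit 6)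
 (.ch (nat_lit 3) (.ev (nat_lit 1696) (nat_lit 67108866) (.ev (nat_lit 2132) (nat_lit 262144) (.ev (nat_lit
 2224) (nat_lit 1048576) (.ev (nat_lit 3878) (nat_lit 65536) (.nd (nat_lit 4320) (.br (nat_lit 4) (.ch (nat_lit
 1) (.ev (nat_lit 4336) (nat_lit 68721573888) .dd)) (.ch (nat_lit 4) (.fin (nat_lit
 576452505970885182)))))))))) (.ch (nat_lit 6) (.ev (nat_lit 1696) (nat_lit 68720787456) (.ev (nat_lit 3360)
 (nat_lit 2) (.ev (nat_lit 3684) (nat_lit 65536) (.ev (nat_lit 3780) (nat_lit 2097152) (.ev (nat_lit 3789)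
 (nat_lit 67108864) .dd)))))))))))))))))) (.ch (nat_lit 42) (.ev (nat_lit 52) (nat_lit 8592230402) (.ev
 (nat_lit 244) (nat_lit 8192) (.ev (nat_lit 468) (nat_lit 33816576) (.ev (nat_lit 500) (nat_lit 16777216) (.ev
 (nat_lit 596) (nat_lit 68719476736) (.ev (nat_lit 724) (nat_lit 1207959552) (.ev (nat_lit 788) (nat_lit
 1048576) (.nd (nat_lit 1680) (.br (nat_lit 3) (.ch (nat_lit 0) (.ev (nat_lit 1696) (nat_lit 4755504) (.ev
 (nat_lit 2292) (nat_lit 34359738368) (.ev (nat_lit 2301) (nat_lit 67108864) .dd)))) (.br (nat_lit 6) (.ch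
 (nat_lit 3) (.ev (nat_lit 1696) (nat_lit 34431041552) (.ev (nat_lit 1780) (nat_lit 32768) (.ev (nat_lit 2036)
 (nat_lit 32) (.fin (nat_lit 576415122598609465)))))) (.ch (nat_lit 6) (.ev (nat_lit 1696) (nat_lit 528384)
 (.ev (nat_lit 2516) (nat_lit 34359738368) (.ev (nat_lit 2688) (nat_lit 32768) (.ev (nat_lit 2736) (nat_lit
 71303168) (.ev (nat_lit 3008) (nat_lit 16) (.ev (nat_lit 3021) (nat_lit 32) .dd))))))))))))))))))) (.br
 (nat_lit 44) (.ch (nat_lit 43) (.ev (nat_lit 52) (nat_lit 111803539456) (.ev (nat_lit 372) (nat_lit 32) (.ev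
 (nat_lit 404) (nat_lit 2) (.ev (nat_lit 436) (nat_lit 4194304) (.ev (nat_lit 532) (nat_lit 262144) (.ev
 (nat_lit 788) (nat_lit 4096) (.nd (nat_lit 1680) (.br (nat_lit 5) (.ch (nat_lit 0) (.ev (nat_lit 1696)
 (nat_lit 37224448) (.ev (nat_lit 2928) (nat_lit 2048) (.ev (nat_lit 3120) (nat_lit 1140850688) (.ev (nat_lit
 3232) (nat_lit 16777216) (.ev (nat_lit 3312) (nat_lit 65536) (.ev (nat_lit 3325) (nat_lit 16) .dd))))))) (.br
 (nat_lit 6) (.ch (nat_lit 5) (.ev (nat_lit 1696) (nat_lit 50399248) (.ev (nat_lit 1824) (nat_lit 2097152) (.ev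
 (nat_lit 2900) (nat_lit 67108864) (.ev (nat_lit 3152) (nat_lit 1048576) (.nd (nat_lit 4352) (.br (nat_lit 5)
 (.ch (nat_lit 4) (.ev (nat_lit 4368) (nat_lit 1074266112) .dd)) (.ch (nat_lit 5) (.fin (nat_lit
 576456904011104838)))))))))) (.ch (nat_lit 6) (.ev (nat_lit 1696) (nat_lit 1158152192) (.ev (nat_lit 2208)
 (nat_lit 1048576) (.ev (nat_lit 2592) (nat_lit 2048) (.ev (nat_lit 2996) (nat_lit 65536) (.ev (nat_lit 3284)
 (nat_lit 35651584) (.ev (nat_lit 3293) (nat_lit 16) .dd))))))))))))))))) (.br (nat_lit 46) (.ch (nat_lit 44)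
 (.ev (nat_lit 52) (nat_lit 35439378466) (.ev (nat_lit 116) (nat_lit 2048) (.ev (nat_lit 372) (nat_lit
 67108864) (.ev (nat_lit 532) (nat_lit 68719476736) (.ev (nat_lit 756) (nat_lit 16777216) (.ev (nat_lit 1232)
 (nat_lit 8192) (.nd (nat_lit 1680) (.br (nat_lit 5) (.br (nat_lit 3) (.ch (nat_lit 0) (.ev (nat_lit 1696)
 (nat_lit 8625852416) (.nd (nat_lit 4080) (.br (nat_lit 5) (.ch (nat_lit 2) (.ev (nat_lit 4096) (nat_lit
 134283264) (.fin (nat_lit 576426117647778367)))) (.br (nat_lit 6) (.ch (nat_lit 5) (.ev (nat_lit 4096)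
 (nat_lit 134316048) .dd)) (.ch (nat_lit 6) (.ev (nat_lit 4096) (nat_lit 32784) (.fin (nat_lit
 576458003520635457))))))))) (.ch (nat_lit 3) (.ev (nat_lit 1696) (nat_lit 8759906320) (.ev (nat_lit 1709)
 (nat_lit 262144) .dd)))) (.br (nat_lit 6) (.ch (nat_lit 5) (.ev (nat_lit 1696) (nat_lit 8623783952) (.ev
 (nat_lit 2996) (nat_lit 65536) (.ev (nat_lit 3284) (nat_lit 4096) (.ev (nat_lit 3648) (nat_lit 134217728) (.ev
 (nat_lit 3661) (nat_lit 2097152) .dd)))))) (.ch (nat_lit 6) (.ev (nat_lit 1696) (nat_lit 294928) (.ev (nat_lit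
 1840) (nat_lit 134217728) (.ev (nat_lit 2864) (nat_lit 65536) (.ev (nat_lit 2944) (nat_lit 4096) (.ev (nat_lit
 3168) (nat_lit 33554432) (.nd (nat_lit 4128) (.br (nat_lit 3) (.ch (nat_lit 1) (.ev (nat_lit 4144) (nat_lit
 8592031744) .dd)) (.ch (nat_lit 3) (.fin (nat_lit 576461302034547215))))))))))))))))))))) (.ch (nat_lit 46)
 (.ev (nat_lit 52) (nat_lit 1126799362) (.ev (nat_lit 372) (nat_lit 8192) (.ev (nat_lit 500) (nat_lit 67108864)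
 (.ev (nat_lit 1056) (nat_lit 32) (.nd (nat_lit 1680) (.br (nat_lit 2) (.ch (nat_lit 0) (.ev (nat_lit 1696)
 (nat_lit 77313867776) (.ev (nat_lit 2292) (nat_lit 34359738368) (.ev (nat_lit 3284) (nat_lit 1048576) (.ev
 (nat_lit 3568) (nat_lit 16) (.ev (nat_lit 3904) (nat_lit 134217728) (.ev (nat_lit 3917) (nat_lit 131072)
 .dd))))))) (.br (nat_lit 6) (.ch (nat_lit 2) (.ev (nat_lit 1696) (nat_lit 111804809216) (.ev (nat_lit 1760)
 (nat_lit 4194320) .dd))) (.ch (nat_lit 6) (.ev (nat_lit 1696) (nat_lit 1048592) (.ev (nat_lit 2100) (nat_lit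
 34359738368) (.ev (nat_lit 3284) (nat_lit 68853694464) (.ev (nat_lit 3684) (nat_lit 8594128896) (.ev (nat_lit
 3696) (nat_lit 262144) (.ev (nat_lit 3709) (nat_lit 131072) .dd)))))))))))))))))) (.br (nat_lit 50) (.br
 (nat_lit 48) (.ch (nat_lit 47) (.ev (nat_lit 52) (nat_lit 69816887330) (.ev (nat_lit 212) (nat_lit 32768) (.ev
 (nat_lit 372) (nat_lit 1048576) (.ev (nat_lit 532) (nat_lit 134217728) (.nd (nat_lit 1680) (.br (nat_lit 3)
 (.ch (nat_lit 0) (.ev (nat_lit 1696) (nat_lit 42983362560) (.ev (nat_lit 1780) (nat_lit 262144) (.ev (nat_lit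
 3104) (nat_lit 67108864) (.ev (nat_lit 3117) (nat_lit 16) .dd))))) (.br (nat_lit 6) (.ch (nat_lit 3) (.ev
 (nat_lit 1696) (nat_lit 43050598416) (.ev (nat_lit 3488) (nat_lit 4096) (.ev (nat_lit 3501) (nat_lit 131072)
 .dd)))) (.ch (nat_lit 6) (.ev (nat_lit 1696) (nat_lit 67371008) (.ev (nat_lit 1732) (nat_lit 4096) (.ev
 (nat_lit 1744) (nat_lit 131072) (.ev (nat_lit 3440) (nat_lit 8589934592) (.nd (nat_lit 4208) (.br (nat_lit 2)
 (.ch (nat_lit 1) (.ev (nat_lit 4224) (nat_lit 33554448) (.ev (nat_lit 4237) (nat_lit 34359738368) .dd))) (.ch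
 (nat_lit 2) (.ev (nat_lit 4244) (nat_lit 34359738368) (.nd (nat_lit 4768) (.br (nat_lit 3) (.ch (nat_lit 0)
 (.fin (nat_lit 576434913807909469))) (.ch (nat_lit 3) (.ev (nat_lit 4784) (nat_lit 33554448)
 .dd))))))))))))))))))))) (.br (nat_lit 49) (.ch (nat_lit 48) (.ev (nat_lit 52) (nat_lit 43155370000) (.ev
 (nat_lit 724) (nat_lit 68719476736) (.ev (nat_lit 820) (nat_lit 65536) (.nd (nat_lit 1680) (.br (nat_lit 5)
 (.ch (nat_lit 2) (.ev (nat_lit 1696) (nat_lit 54001696) (.ev (nat_lit 2304) (nat_lit 2048) (.ev (nat_lit 2464)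
 (nat_lit 2) (.ev (nat_lit 2996) (nat_lit 262144) (.ev (nat_lit 3005) (nat_lit 1073741824) .dd)))))) (.br
 (nat_lit 6) (.ch (nat_lit 5) (.ev (nat_lit 1696) (nat_lit 18089984) (.ev (nat_lit 1732) (nat_lit 33554432)
 (.ev (nat_lit 2224) (nat_lit 2) (.ev (nat_lit 2672) (nat_lit 524288) (.ev (nat_lit 2720) (nat_lit 2097184)
 (.ev (nat_lit 2733) (nat_lit 1073741824) .dd))))))) (.ch (nat_lit 6) (.ev (nat_lit 1696) (nat_lit 1074266146)
 (.ev (nat_lit 1732) (nat_lit 2097152) (.ev (nat_lit 3092) (nat_lit 2048) (.ev (nat_lit 3456) (nat_lit 1048576)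
 (.ev (nat_lit 3504) (nat_lit 50331648) (.ev (nat_lit 3517) (nat_lit 262144) .dd)))))))))))))) (.ch (nat_lit
 49) (.ev (nat_lit 52) (nat_lit 68925261874) (.ev (nat_lit 468) (nat_lit 2162688) (.ev (nat_lit 564) (nat_lit
 34359738368) (.ev (nat_lit 628) (nat_lit 16777216) (.nd (nat_lit 1680) (.br (nat_lit 3) (.ch (nat_lit 0) (.ev
 (nat_lit 1696) (nat_lit 8624017408) (.ev (nat_lit 2100) (nat_lit 1073741824) (.ev (nat_lit 2320) (nat_lit
 32768) (.ev (nat_lit 3728) (nat_lit 131072) (.fin (nat_lit 576465700104127034))))))) (.br (nat_lit 5) (.ch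
 (nat_lit 3) (.ev (nat_lit 1696) (nat_lit 9697271808) (.ev (nat_lit 3072) (nat_lit 1048576) (.ev (nat_lit 3396)
 (nat_lit 524288) (.fin (nat_lit 576437112764056147)))))) (.ch (nat_lit 5) (.ev (nat_lit 1696) (nat_lit
 1224704) (.ev (nat_lit 3296) (nat_lit 524288) (.ev (nat_lit 3616) (nat_lit 9697230848) .dd)))))))))))))) (.br
 (nat_lit 51) (.ch (nat_lit 50) (.ev (nat_lit 52) (nat_lit 251699232) (.ev (nat_lit 308) (nat_lit 68719476736)
 (.ev (nat_lit 468) (nat_lit 16) (.ev (nat_lit 500) (nat_lit 65536) (.ev (nat_lit 564) (nat_lit 262144) (.ev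
 (nat_lit 1424) (nat_lit 8589934592) (.nd (nat_lit 1680) (.br (nat_lit 5) (.br (nat_lit 3) (.ch (nat_lit 2)
 (.ev (nat_lit 1696) (nat_lit 3801088) (.ev (nat_lit 1712) (nat_lit 34359738368) (.nd (nat_lit 4128) (.br
 (nat_lit 4) (.ch (nat_lit 2) (.ev (nat_lit 4144) (nat_lit 4198402) (.fin (nat_lit 576408525514162733)))) (.ch
 (nat_lit 4) (.ev (nat_lit 4144) (nat_lit 1073743872) (.ev (nat_lit 4196) (nat_lit 4194304) (.nd (nat_lit 4704)
 (.br (nat_lit 6) (.ch (nat_lit 5) (.ev (nat_lit 4720) (nat_lit 4098) .dd)) (.ch (nat_lit 6) (.fin (nat_lit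
 576451406419411488))))))))))))) (.ch (nat_lit 3) (.ev (nat_lit 1696) (nat_lit 35435053058) (.ev (nat_lit 1732)
 (nat_lit 2097152) (.ev (nat_lit 1968) (nat_lit 4096) (.ev (nat_lit 2640) (nat_lit 131072) (.ev (nat_lit 3312)
 (nat_lit 2048) (.ev (nat_lit 3325) (nat_lit 4194304) .dd)))))))) (.br (nat_lit 6) (.ch (nat_lit 5) (.ev
 (nat_lit 1696) (nat_lit 6428672) (.ev (nat_lit 1732) (nat_lit 34359738368) (.ev (nat_lit 3424) (nat_lit
 524288) (.ev (nat_lit 3712) (nat_lit 2) (.ev (nat_lit 3760) (nat_lit 1048576) (.ev (nat_lit 3773) (nat_lit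
 1073741824) .dd))))))) (.ch (nat_lit 6) (.ev (nat_lit 1696) (nat_lit 34360395776) (.ev (nat_lit 1712) (nat_lit
 2097152) (.nd (nat_lit 4032) (.br (nat_lit 2) (.ch (nat_lit 0) (.ev (nat_lit 4048) (nat_lit 5242880) (.ev
 (nat_lit 4068) (nat_lit 1073741824) (.nd (nat_lit 4832) (.br (nat_lit 2) (.ch (nat_lit 1) (.fin (nat_lit
 576471197702111840))) (.ch (nat_lit 2) (.ev (nat_lit 4848) (nat_lit 4098) .dd))))))) (.ch (nat_lit 2) (.ev
 (nat_lit 4048) (nat_lit 1073745922) (.fin (nat_lit 576507481522913891))))))))))))))))))) (.br (nat_lit 53)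
 (.ch (nat_lit 51) (.ev (nat_lit 52) (nat_lit 8798896160) (.ev (nat_lit 180) (nat_lit 34359742464) (.ev
 (nat_lit 416) (nat_lit 69844281362) .dd)))) (.ch (nat_lit 53) (.ev (nat_lit 52) (nat_lit 44225855490) (.ev
 (nat_lit 84) (nat_lit 2048) (.ev (nat_lit 308) (nat_lit 8192) (.ev (nat_lit 372) (nat_lit 4096) (.ev (nat_lit
 500) (nat_lit 32) (.ev (nat_lit 756) (nat_lit 262144) (.ev (nat_lit 1104) (nat_lit 33554432) (.nd (nat_lit
 1680) (.br (nat_lit 3) (.ch (nat_lit 0) (.ev (nat_lit 1696) (nat_lit 68725768192) (.ev (nat_lit 3296) (nat_lit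
 131072) (.ev (nat_lit 3846) (nat_lit 17301504) (.nd (nat_lit 4416) (.br (nat_lit 5) (.ch (nat_lit 2) (.nd
 (nat_lit 5088) (.br (nat_lit 5) (.ch (nat_lit 3) (.fin (nat_lit 576426117647778367))) (.ch (nat_lit 5) (.ev
 (nat_lit 5104) (nat_lit 32784) .dd))))) (.br (nat_lit 6) (.ch (nat_lit 5) (.ev (nat_lit 4432) (nat_lit 32784)
 .dd)) (.ch (nat_lit 6) (.ev (nat_lit 4432) (nat_lit 32784) .dd))))))))) (.br (nat_lit 5) (.ch (nat_lit 3) (.ev
 (nat_lit 1696) (nat_lit 17465360) (.ev (nat_lit 3104) (nat_lit 4194304) (.fin (nat_lit 576452505970885182)))))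
 (.ch (nat_lit 5) (.ev (nat_lit 1696) (nat_lit 68736942096) (.ev (nat_lit 3712) (nat_lit 2097152) (.ev (nat_lit
 3725) (nat_lit 4194304) .dd))))))))))))))))))) (.br (nat_lit 64) (.br (nat_lit 57) (.br (nat_lit 55) (.ch
 (nat_lit 54) (.ev (nat_lit 52) (nat_lit 34413881362) (.ev (nat_lit 212) (nat_lit 8589934592) (.ev (nat_lit
 372) (nat_lit 1073741824) (.ev (nat_lit 532) (nat_lit 67108864) (.nd (nat_lit 1680) (.br (nat_lit 5) (.ch
 (nat_lit 2) (.ev (nat_lit 1696) (nat_lit 68853796896) (.ev (nat_lit 3488) (nat_lit 262144) (.ev (nat_lit 3501)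
 (nat_lit 4194304) .dd)))) (.br (nat_lit 6) (.ch (nat_lit 5) (.ev (nat_lit 1696) (nat_lit 68724031488) (.ev
 (nat_lit 1780) (nat_lit 4096) (.ev (nat_lit 3104) (nat_lit 134217728) (.ev (nat_lit 3117) (nat_lit 32)
 .dd))))) (.ch (nat_lit 6) (.ev (nat_lit 1696) (nat_lit 134221824) (.ev (nat_lit 1732) (nat_lit 262144) (.ev
 (nat_lit 1744) (nat_lit 4194304) (.ev (nat_lit 3440) (nat_lit 32768) (.nd (nat_lit 4208) (.br (nat_lit 3) (.ch
 (nat_lit 2) (.ev (nat_lit 4244) (nat_lit 65536) (.nd (nat_lit 4800) (.br (nat_lit 4) (.ch (nat_lit 0) (.fin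
 (nat_lit 576434913755480669))) (.ch (nat_lit 4) (.ev (nat_lit 4816) (nat_lit 68719476768) .dd)))))) (.ch
 (nat_lit 3) (.ev (nat_lit 4224) (nat_lit 68719476768) (.ev (nat_lit 4237) (nat_lit 65536)
 .dd)))))))))))))))))) (.ch (nat_lit 55) (.ev (nat_lit 52) (nat_lit 8591575042) (.ev (nat_lit 340) (nat_lit
 32768) (.ev (nat_lit 372) (nat_lit 16777216) (.ev (nat_lit 564) (nat_lit 2097152) (.ev (nat_lit 628) (nat_lit
 68853694464) (.ev (nat_lit 660) (nat_lit 4096) (.ev (nat_lit 1584) (nat_lit 33554432) (.nd (nat_lit 1680) (.br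
 (nat_lit 5) (.br (nat_lit 2) (.ch (nat_lit 0) (.ev (nat_lit 1696) (nat_lit 34364334112) (.ev (nat_lit 1968)
 (nat_lit 67108864) (.ev (nat_lit 2304) (nat_lit 16) (.ev (nat_lit 2317) (nat_lit 1073741824) .dd))))) (.ch
 (nat_lit 2) (.ev (nat_lit 1696) (nat_lit 1140858928) (.ev (nat_lit 3712) (nat_lit 34359738368) (.ev (nat_lit
 3760) (nat_lit 131072) (.fin (nat_lit 576437112845845075))))))) (.br (nat_lit 6) (.ch (nat_lit 5) (.ev
 (nat_lit 1696) (nat_lit 393232) (.ev (nat_lit 2176) (nat_lit 8192) (.ev (nat_lit 2368) (nat_lit 32) (.ev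
 (nat_lit 3348) (nat_lit 4194304) (.ev (nat_lit 3684) (nat_lit 1073741824) (.nd (nat_lit 4384) (.br (nat_lit 4)
 (.ch (nat_lit 1) (.ev (nat_lit 4400) (nat_lit 34426847232) .dd)) (.ch (nat_lit 4) (.nd (nat_lit 4928) (.br
 (nat_lit 4) (.ch (nat_lit 2) (.fin (nat_lit 576464600590402111))) (.ch (nat_lit 4) (.ev (nat_lit 4944)
 (nat_lit 34426847232) .dd))))))))))))) (.ch (nat_lit 6) (.ev (nat_lit 1696) (nat_lit 270368) (.ev (nat_lit
 2292) (nat_lit 34359738368) (.ev (nat_lit 3284) (nat_lit 16) (.ev (nat_lit 3552) (nat_lit 67108864) (.nd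
 (nat_lit 4208) (.br (nat_lit 4) (.ch (nat_lit 2) (.ev (nat_lit 4224) (nat_lit 4194304) (.fin (nat_lit
 576507481575342691)))) (.ch (nat_lit 4) (.ev (nat_lit 4224) (nat_lit 1073872896) (.ev (nat_lit 4237) (nat_lit
 4194304) .dd)))))))))))))))))))))) (.br (nat_lit 58) (.ch (nat_lit 57) (.ev (nat_lit 52) (nat_lit 68738492432)
 (.ev (nat_lit 276) (nat_lit 4194304) (.ev (nat_lit 308) (nat_lit 4096) (.ev (nat_lit 532) (nat_lit
 34359738368) (.ev (nat_lit 596) (nat_lit 67108864) (.ev (nat_lit 692) (nat_lit 65536) (.ev (nat_lit 1008)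
 (nat_lit 8590458880) (.ev (nat_lit 1408) (nat_lit 32768) (.nd (nat_lit 1680) (.br (nat_lit 5) (.ch (nat_lit 3)
 (.ev (nat_lit 1696) (nat_lit 1241513984) (.ev (nat_lit 3796) (nat_lit 262144) (.ev (nat_lit 4006) (nat_lit 32)
 (.nd (nat_lit 4320) (.br (nat_lit 6) (.ch (nat_lit 4) (.ev (nat_lit 4336) (nat_lit 1048578) .dd)) (.ch
 (nat_lit 6) (.nd (nat_lit 4960) (.ch (nat_lit 4) (.nd (nat_lit 5169) (.ch (nat_lit 27) (.nd (nat_lit 5232)
 (.br (nat_lit 5) (.ch (nat_lit 0) (.fin (nat_lit 576408525491094061))) (.ch (nat_lit 5) (.ev (nat_lit 5248)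
 (nat_lit 1048578) .dd))))))))))))))) (.br (nat_lit 6) (.ch (nat_lit 5) (.ev (nat_lit 1696) (nat_lit 169082914)
 (.ev (nat_lit 1709) (nat_lit 1073741824) .dd))) (.ch (nat_lit 6) (.ev (nat_lit 1696) (nat_lit 32) (.ev
 (nat_lit 2800) (nat_lit 1073741824) (.ev (nat_lit 3072) (nat_lit 2) (.ev (nat_lit 3312) (nat_lit 1310720) (.ev
 (nat_lit 3348) (nat_lit 33554432) (.ev (nat_lit 3357) (nat_lit 134217728) .dd))))))))))))))))))) (.br (nat_lit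
 62) (.ch (nat_lit 58) (.ev (nat_lit 52) (nat_lit 255856672) (.ev (nat_lit 180) (nat_lit 524288) (.ev (nat_lit
 244) (nat_lit 104152956928) (.ev (nat_lit 1296) (nat_lit 8589934592) (.nd (nat_lit 1680) (.br (nat_lit 3) (.ch
 (nat_lit 2) (.ev (nat_lit 1696) (nat_lit 3246080) (.ev (nat_lit 1824) (nat_lit 16) (.ev (nat_lit 2848)
 (nat_lit 2) (.ev (nat_lit 3152) (nat_lit 131072) (.nd (nat_lit 4480) (.br (nat_lit 4) (.ch (nat_lit 0) (.ev
 (nat_lit 4496) (nat_lit 270336) .dd)) (.ch (nat_lit 4) (.fin (nat_lit 576415122546180665)))))))))) (.br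
 (nat_lit 6) (.ch (nat_lit 3) (.ev (nat_lit 1696) (nat_lit 401426) (.ev (nat_lit 2928) (nat_lit 65536) (.ev
 (nat_lit 3120) (nat_lit 32768) (.ev (nat_lit 3312) (nat_lit 2048) (.fin (nat_lit 576464600591450687)))))))
 (.ch (nat_lit 6) (.ev (nat_lit 1696) (nat_lit 1482770) (.ev (nat_lit 1990) (nat_lit 65536) (.ev (nat_lit 2292)
 (nat_lit 2097152) (.ev (nat_lit 2301) (nat_lit 2048) .dd))))))))))))) (.ch (nat_lit 62) (.ev (nat_lit 52)
 (nat_lit 8695414784) (.ev (nat_lit 372) (nat_lit 16) (.ev (nat_lit 404) (nat_lit 2048) (.ev (nat_lit 436)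
 (nat_lit 131072) (.ev (nat_lit 532) (nat_lit 4096) (.ev (nat_lit 788) (nat_lit 262144) (.nd (nat_lit 1680)
 (.br (nat_lit 5) (.ch (nat_lit 0) (.ev (nat_lit 1696) (nat_lit 103081312290) (.ev (nat_lit 1824) (nat_lit
 16777216) (.ev (nat_lit 2900) (nat_lit 134217728) (.ev (nat_lit 3152) (nat_lit 1073741824) (.nd (nat_lit 4352)
 (.br (nat_lit 6) (.ch (nat_lit 5) (.fin (nat_lit 576456904017396294))) (.ch (nat_lit 6) (.ev (nat_lit 4368)
 (nat_lit 1056768) .dd))))))))) (.br (nat_lit 6) (.ch (nat_lit 5) (.ev (nat_lit 1696) (nat_lit 69810003968)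
 (.ev (nat_lit 2928) (nat_lit 2) (.ev (nat_lit 3120) (nat_lit 135266304) (.ev (nat_lit 3232) (nat_lit 2097152)
 (.ev (nat_lit 3312) (nat_lit 34359738368) (.ev (nat_lit 3325) (nat_lit 32) .dd))))))) (.ch (nat_lit 6) (.ev
 (nat_lit 1696) (nat_lit 137371648) (.ev (nat_lit 2208) (nat_lit 1073741824) (.ev (nat_lit 2592) (nat_lit 2)
 (.ev (nat_lit 2996) (nat_lit 34359738368) (.ev (nat_lit 3284) (nat_lit 68736253952) (.ev (nat_lit 3293)
 (nat_lit 32) .dd)))))))))))))))))))) (.br (nat_lit 68) (.br (nat_lit 65) (.ch (nat_lit 64) (.ev (nat_lit 52)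
 (nat_lit 136583218) (.ev (nat_lit 128) (nat_lit 112866336768) .dd))) (.br (nat_lit 67) (.ch (nat_lit 65) (.ev
 (nat_lit 52) (nat_lit 34380744706) (.ev (nat_lit 244) (nat_lit 524288) (.ev (nat_lit 468) (nat_lit
 68719480832) (.ev (nat_lit 500) (nat_lit 2097152) (.ev (nat_lit 596) (nat_lit 33554432) (.ev (nat_lit 724)
 (nat_lit 68157440) (.ev (nat_lit 788) (nat_lit 1073741824) (.nd (nat_lit 1680) (.br (nat_lit 5) (.ch (nat_lit
 2) (.ev (nat_lit 1696) (nat_lit 134414368) (.ev (nat_lit 1780) (nat_lit 8589934592) (.ev (nat_lit 2036)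
 (nat_lit 16) (.fin (nat_lit 576415122546180665)))))) (.br (nat_lit 6) (.ch (nat_lit 5) (.ev (nat_lit 1696)
 (nat_lit 8590336048) (.ev (nat_lit 2292) (nat_lit 65536) (.ev (nat_lit 2301) (nat_lit 134217728) .dd)))) (.ch
 (nat_lit 6) (.ev (nat_lit 1696) (nat_lit 270336) (.ev (nat_lit 2516) (nat_lit 65536) (.ev (nat_lit 2688)
 (nat_lit 8589934592) (.ev (nat_lit 2736) (nat_lit 134348800) (.ev (nat_lit 3008) (nat_lit 32) (.ev (nat_lit
 3021) (nat_lit 16) .dd)))))))))))))))))) (.ch (nat_lit 67) (.ev (nat_lit 52) (nat_lit 1180764194) (.ev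
 (nat_lit 628) (nat_lit 1048576) (.ev (nat_lit 660) (nat_lit 8192) (.ev (nat_lit 756) (nat_lit 68719476736)
 (.ev (nat_lit 1248) (nat_lit 524288) (.nd (nat_lit 1680) (.br (nat_lit 2) (.ch (nat_lit 0) (.ev (nat_lit 1696)
 (nat_lit 42949939200) (.ev (nat_lit 2784) (nat_lit 32768) (.ev (nat_lit 3056) (nat_lit 134348800) (.ev
 (nat_lit 3092) (nat_lit 16777216) (.ev (nat_lit 3101) (nat_lit 16) .dd)))))) (.br (nat_lit 3) (.ch (nat_lit 2)
 (.ev (nat_lit 1696) (nat_lit 134250496) (.ev (nat_lit 2100) (nat_lit 16777216) (.ev (nat_lit 2900) (nat_lit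
 262144) (.ev (nat_lit 3284) (nat_lit 4096) (.ev (nat_lit 3296) (nat_lit 42949672960) (.ev (nat_lit 3744)
 (nat_lit 131072) (.ev (nat_lit 3757) (nat_lit 16) .dd)))))))) (.ch (nat_lit 3) (.ev (nat_lit 1696) (nat_lit
 43100803088) (.ev (nat_lit 1760) (nat_lit 294912) .dd)))))))))))))) (.br (nat_lit 69) (.ch (nat_lit 68) (.ev
 (nat_lit 52) (nat_lit 35635955712) (.ev (nat_lit 84) (nat_lit 2) (.ev (nat_lit 308) (nat_lit 524288) (.ev
 (nat_lit 372) (nat_lit 262144) (.ev (nat_lit 500) (nat_lit 16) (.ev (nat_lit 756) (nat_lit 4096) (.ev (nat_lit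
 1120) (nat_lit 68719476736) (.nd (nat_lit 1680) (.br (nat_lit 2) (.ch (nat_lit 0) (.ev (nat_lit 1696) (nat_lit
 8629788704) (.ev (nat_lit 3712) (nat_lit 16777216) (.ev (nat_lit 3725) (nat_lit 131072) .dd)))) (.br (nat_lit
 5) (.ch (nat_lit 2) (.ev (nat_lit 1696) (nat_lit 8596234272) (.ev (nat_lit 3104) (nat_lit 131072) (.fin
 (nat_lit 576452505964593726))))) (.ch (nat_lit 5) (.ev (nat_lit 1696) (nat_lit 50462720) (.ev (nat_lit 3296)
 (nat_lit 4194304) (.ev (nat_lit 3862) (nat_lit 2105344) (.nd (nat_lit 4448) (.br (nat_lit 4) (.ch (nat_lit 1)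
 (.nd (nat_lit 4864) (.br (nat_lit 6) (.ch (nat_lit 1) (.fin (nat_lit 576426117729567295))) (.ch (nat_lit 6)
 (.ev (nat_lit 4880) (nat_lit 8589934624) .dd))))) (.br (nat_lit 5) (.ch (nat_lit 4) (.ev (nat_lit 4464)
 (nat_lit 8589934624) .dd)) (.ch (nat_lit 5) (.ev (nat_lit 4464) (nat_lit 8589934624) .dd))))))))))))))))))))
 (.br (nat_lit 70) (.ch (nat_lit 69) (.ev (nat_lit 52) (nat_lit 77309804594) (.ev (nat_lit 244) (nat_lit
 67108864) (.ev (nat_lit 276) (nat_lit 32768) (.ev (nat_lit 308) (nat_lit 65536) (.ev (nat_lit 340) (nat_lit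
 4194304) (.ev (nat_lit 596) (nat_lit 8192) (.ev (nat_lit 896) (nat_lit 2621440) (.ev (nat_lit 1520) (nat_lit
 1048576) (.nd (nat_lit 1680) (.br (nat_lit 3) (.ch (nat_lit 2) (.ev (nat_lit 1696) (nat_lit 134219776) (.ev
 (nat_lit 2132) (nat_lit 4096) (.ev (nat_lit 2224) (nat_lit 1073741824) (.ev (nat_lit 3942) (nat_lit
 34359738368) (.nd (nat_lit 4416) (.br (nat_lit 4) (.ch (nat_lit 0) (.ev (nat_lit 4432) (nat_lit 50331648)
 .dd)) (.ch (nat_lit 4) (.fin (nat_lit 576452505964593726)))))))))) (.br (nat_lit 6) (.ch (nat_lit 3) (.ev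
 (nat_lit 1696) (nat_lit 35618029568) (.ev (nat_lit 2404) (nat_lit 2048) (.ev (nat_lit 2413) (nat_lit 4096)
 .dd)))) (.ch (nat_lit 6) (.ev (nat_lit 1696) (nat_lit 1107300352) (.ev (nat_lit 3360) (nat_lit 2048) (.ev
 (nat_lit 3684) (nat_lit 34359738368) (.ev (nat_lit 3780) (nat_lit 16777216) (.ev (nat_lit 3789) (nat_lit
 134217728) .dd)))))))))))))))))) (.ch (nat_lit 70) (.ev (nat_lit 52) (nat_lit 1213628416) (.ev (nat_lit 64)
 (nat_lit 111789291570) .dd)))))))))))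

/-- The trie. -/
noncomputable def T : Tr := .nd (nat_lit 1000000) (.br (nat_lit 1) (.ch (nat_lit 0) (.ev (nat_lit 0) (nat_lit 137438953471) .dd)) (.br (nat_lit 3) (.ch (nat_lit 1) T1) (.ch (nat_lit 3) T3)))

/-- The possible values. -/
noncomputable def oks : List ℕ := [67, 85, 186, 4165, 6052]

/-- The parameters. -/
noncomputable def S : Pr := ⟨fun i l e => lget mz (lget [] (lget [] tabs i) l) e, oks, [(nat_lit 0), (nat_lit
 1), (nat_lit 0), (nat_lit 0), (nat_lit 0), (nat_lit 1), (nat_lit 0)], T, (nat_lit 137438953471), (nat_lit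
 23899161165), (nat_lit 37), [(nat_lit 1), (nat_lit 87122173451996128837)], [(nat_lit 40353607), (nat_lit
 25411681)]⟩

/-- Nothing known. -/
noncomputable def cs0 : Cs := (.cons (nat_lit 7) (nat_lit 0) (nat_lit 1) (.cons (nat_lit 71) (nat_lit 0) (nat_lit 1) .nil))

theorem part_1 : part S cs0 (nat_lit 1) = true := by decide +kernel

theorem part_3 : part S cs0 (nat_lit 3) = true := by decide +kernel

/-- Data of a prime. -/
noncomputable def D0 : PD := ⟨(nat_lit 7), (nat_lit 9), (1562932, 1, 2), (36264346, 14618947, 12267798), (17529001, 32002150, 38949929)⟩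

theorem D0_ok : D0.Ok := pdb_sound (s := 1) (C := ⟨⟨7, -2, -11, 7, 2, 4, 0, 3, -1⟩, (5, 2, 3)⟩) (by show Nat.Prime 7; norm_num) (by decide +kernel)

/-- Lines of the first type. -/
noncomputable def Cl0 : List C1 := [⟨⟨7, 2, -11, 7, -2, 4, 0, -3, -1⟩, (6, 1, 5)⟩,
  ⟨⟨0, 0, 0, 0, 0, 0, 0, 0, 0⟩, (0, 0, 0)⟩,
  ⟨⟨0, 0, 0, 0, 0, 0, 0, 0, 0⟩, (0, 0, 0)⟩,
  ⟨⟨0, 0, 0, 0, 0, 0, 0, 0, 0⟩, (0, 0, 0)⟩,
  ⟨⟨0, 0, 0, 0, 0, 0, 0, 0, 0⟩, (0, 0, 0)⟩,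
  ⟨⟨0, 0, 0, 0, 0, 0, 0, 0, 0⟩, (0, 0, 0)⟩,
  ⟨⟨0, 0, 0, 0, 0, 0, 0, 0, 0⟩, (0, 0, 0)⟩]

/-- Data of a prime. -/
noncomputable def D1 : PD := ⟨(nat_lit 71), (nat_lit 4), (11251584, 9, 33), (23923522, 720358, 4464657), (17637591, 10151933, 2206443)⟩

theorem D1_ok : D1.Ok := pdb_sound (s := 11) (C := ⟨⟨59, 34, -112, -29, 94, 37, -24, -3, -11⟩, (59, 42, 47)⟩) (by show Nat.Prime 71; norm_num) (by decide +kernel)

/-- Lines of the first type. -/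
noncomputable def Cl1 : List C1 := [⟨⟨-59, -34, -53, 29, -94, 8, 24, 3, -35⟩, (17, 47, 34)⟩,
  ⟨⟨0, 0, 0, 0, 0, 0, 0, 0, 0⟩, (0, 0, 0)⟩,
  ⟨⟨49, -74, -77, 79, 14, 28, 12, 21, -29⟩, (59, 56, 13)⟩,
  ⟨⟨0, 0, 0, 0, 0, 0, 0, 0, 0⟩, (0, 0, 0)⟩,
  ⟨⟨0, 0, 0, 0, 0, 0, 0, 0, 0⟩, (0, 0, 0)⟩,
  ⟨⟨0, 0, 0, 0, 0, 0, 0, 0, 0⟩, (0, 0, 0)⟩,
  ⟨⟨79, -14, -107, 49, 74, 28, -12, 21, -17⟩, (44, 21, 5)⟩,
  ⟨⟨0, 0, 0, 0, 0, 0, 0, 0, 0⟩, (0, 0, 0)⟩,
  ⟨⟨0, 0, 0, 0, 0, 0, 0, 0, 0⟩, (0, 0, 0)⟩,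
  ⟨⟨39, 66, -92, -89, 46, 37, -8, -19, -23⟩, (13, 65, 21)⟩,
  ⟨⟨19, 46, -107, -91, -26, 8, 12, -27, -19⟩, (7, 30, 53)⟩,
  ⟨⟨0, 0, 0, 0, 0, 0, 0, 0, 0⟩, (0, 0, 0)⟩,
  ⟨⟨0, 0, 0, 0, 0, 0, 0, 0, 0⟩, (0, 0, 0)⟩,
  ⟨⟨99, 6, -67, 11, -94, 32, -4, -11, -31⟩, (13, 33, 59)⟩,
  ⟨⟨-39, -66, -53, -89, 46, 52, 8, 19, -31⟩, (17, 57, 22)⟩,
  ⟨⟨0, 0, 0, 0, 0, 0, 0, 0, 0⟩, (0, 0, 0)⟩,
  ⟨⟨0, 0, 0, 0, 0, 0, 0, 0, 0⟩, (0, 0, 0)⟩,
  ⟨⟨19, -46, -107, -91, 26, 8, 12, 27, -19⟩, (15, 44, 2)⟩,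
  ⟨⟨0, 0, 0, 0, 0, 0, 0, 0, 0⟩, (0, 0, 0)⟩,
  ⟨⟨0, 0, 0, 0, 0, 0, 0, 0, 0⟩, (0, 0, 0)⟩,
  ⟨⟨51, 66, -88, -59, 74, 67, -20, -5, -17⟩, (59, 64, 59)⟩,
  ⟨⟨49, 74, -77, 79, -14, 28, 12, -21, -29⟩, (6, 43, 29)⟩,
  ⟨⟨0, 0, 0, 0, 0, 0, 0, 0, 0⟩, (0, 0, 0)⟩,
  ⟨⟨0, 0, 0, 0, 0, 0, 0, 0, 0⟩, (0, 0, 0)⟩,
  ⟨⟨0, 0, 0, 0, 0, 0, 0, 0, 0⟩, (0, 0, 0)⟩,
  ⟨⟨31, 74, -83, -81, 54, 68, -16, -13, -19⟩, (8, 2, 60)⟩,
  ⟨⟨0, 0, 0, 0, 0, 0, 0, 0, 0⟩, (0, 0, 0)⟩,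
  ⟨⟨11, 94, -43, -99, 6, 32, 4, -11, -35⟩, (69, 18, 38)⟩,
  ⟨⟨-51, 66, -37, 59, 74, 8, 20, -5, -37⟩, (25, 56, 25)⟩,
  ⟨⟨0, 0, 0, 0, 0, 0, 0, 0, 0⟩, (0, 0, 0)⟩,
  ⟨⟨39, -66, -92, -89, -46, 37, -8, 19, -23⟩, (43, 2, 64)⟩,
  ⟨⟨0, 0, 0, 0, 0, 0, 0, 0, 0⟩, (0, 0, 0)⟩,
  ⟨⟨59, -34, -112, -29, -94, 37, -24, 3, -11⟩, (9, 4, 18)⟩,
  ⟨⟨0, 0, 0, 0, 0, 0, 0, 0, 0⟩, (0, 0, 0)⟩,
  ⟨⟨0, 0, 0, 0, 0, 0, 0, 0, 0⟩, (0, 0, 0)⟩,
  ⟨⟨-59, 34, -53, 29, 94, 8, 24, -3, -35⟩, (8, 43, 16)⟩,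
  ⟨⟨0, 0, 0, 0, 0, 0, 0, 0, 0⟩, (0, 0, 0)⟩,
  ⟨⟨11, -94, -43, -99, -6, 32, 4, 11, -35⟩, (2, 53, 33)⟩,
  ⟨⟨0, 0, 0, 0, 0, 0, 0, 0, 0⟩, (0, 0, 0)⟩,
  ⟨⟨0, 0, 0, 0, 0, 0, 0, 0, 0⟩, (0, 0, 0)⟩,
  ⟨⟨51, -66, -88, -59, -74, 67, -20, 5, -17⟩, (18, 46, 18)⟩,
  ⟨⟨-19, -46, -88, -91, -26, 83, -12, 27, -7⟩, (26, 61, 65)⟩,
  ⟨⟨0, 0, 0, 0, 0, 0, 0, 0, 0⟩, (0, 0, 0)⟩,
  ⟨⟨0, 0, 0, 0, 0, 0, 0, 0, 0⟩, (0, 0, 0)⟩,
  ⟨⟨0, 0, 0, 0, 0, 0, 0, 0, 0⟩, (0, 0, 0)⟩,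
  ⟨⟨-19, 46, -88, -91, 26, 83, -12, -27, -7⟩, (18, 4, 45)⟩,
  ⟨⟨0, 0, 0, 0, 0, 0, 0, 0, 0⟩, (0, 0, 0)⟩,
  ⟨⟨0, 0, 0, 0, 0, 0, 0, 0, 0⟩, (0, 0, 0)⟩,
  ⟨⟨0, 0, 0, 0, 0, 0, 0, 0, 0⟩, (0, 0, 0)⟩,
  ⟨⟨0, 0, 0, 0, 0, 0, 0, 0, 0⟩, (0, 0, 0)⟩,
  ⟨⟨0, 0, 0, 0, 0, 0, 0, 0, 0⟩, (0, 0, 0)⟩,
  ⟨⟨0, 0, 0, 0, 0, 0, 0, 0, 0⟩, (0, 0, 0)⟩,
  ⟨⟨99, -6, -67, 11, 94, 32, -4, 11, -31⟩, (48, 29, 54)⟩,
  ⟨⟨0, 0, 0, 0, 0, 0, 0, 0, 0⟩, (0, 0, 0)⟩,
  ⟨⟨0, 0, 0, 0, 0, 0, 0, 0, 0⟩, (0, 0, 0)⟩,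
  ⟨⟨0, 0, 0, 0, 0, 0, 0, 0, 0⟩, (0, 0, 0)⟩,
  ⟨⟨-51, -66, -37, 59, -74, 8, 20, 5, -37⟩, (55, 38, 55)⟩,
  ⟨⟨0, 0, 0, 0, 0, 0, 0, 0, 0⟩, (0, 0, 0)⟩,
  ⟨⟨0, 0, 0, 0, 0, 0, 0, 0, 0⟩, (0, 0, 0)⟩,
  ⟨⟨-31, -74, -52, -81, 54, 13, 16, 13, -35⟩, (64, 55, 54)⟩,
  ⟨⟨-31, 74, -52, -81, -54, 13, 16, -13, -35⟩, (11, 15, 47)⟩,
  ⟨⟨-39, 66, -53, -89, -46, 52, 8, -19, -31⟩, (58, 65, 50)⟩,
  ⟨⟨0, 0, 0, 0, 0, 0, 0, 0, 0⟩, (0, 0, 0)⟩,
  ⟨⟨79, 14, -107, 49, -74, 28, -12, -21, -17⟩, (57, 3, 21)⟩,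
  ⟨⟨0, 0, 0, 0, 0, 0, 0, 0, 0⟩, (0, 0, 0)⟩,
  ⟨⟨0, 0, 0, 0, 0, 0, 0, 0, 0⟩, (0, 0, 0)⟩,
  ⟨⟨31, -74, -83, -81, -54, 68, -16, 13, -19⟩, (61, 33, 67)⟩,
  ⟨⟨0, 0, 0, 0, 0, 0, 0, 0, 0⟩, (0, 0, 0)⟩,
  ⟨⟨0, 0, 0, 0, 0, 0, 0, 0, 0⟩, (0, 0, 0)⟩,
  ⟨⟨0, 0, 0, 0, 0, 0, 0, 0, 0⟩, (0, 0, 0)⟩,
  ⟨⟨0, 0, 0, 0, 0, 0, 0, 0, 0⟩, (0, 0, 0)⟩]

/-- Data of a prime. -/
noncomputable def Dm : PD := ⟨(nat_lit 37), (nat_lit 2), (556, 16, 5), (1239, 947, 1101), (730, 506, 467)⟩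

theorem Dm_ok : Dm.Ok := pdb_sound (s := 2) (C := ⟨⟨43, 22, -44, 23, -2, 41, 6, -15, -7⟩, (6, 23, 6)⟩) (by show Nat.Prime 37; norm_num) (by decide +kernel)

/-- Lines of the first type. -/
noncomputable def Clm : List C1 := [⟨⟨23, -2, -64, 43, 22, 1, -6, 15, -1⟩, (31, 29, 8)⟩,
  ⟨⟨0, 0, 0, 0, 0, 0, 0, 0, 0⟩, (0, 0, 0)⟩,
  ⟨⟨-7, 22, -49, 27, 42, 4, 14, -7, -13⟩, (1, 12, 35)⟩,
  ⟨⟨-13, 38, -31, -47, -22, 16, 6, -9, -17⟩, (20, 4, 5)⟩,
  ⟨⟨0, 0, 0, 0, 0, 0, 0, 0, 0⟩, (0, 0, 0)⟩,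
  ⟨⟨0, 0, 0, 0, 0, 0, 0, 0, 0⟩, (0, 0, 0)⟩,
  ⟨⟨7, 22, -56, -27, 42, 31, 14, 7, -1⟩, (18, 31, 36)⟩,
  ⟨⟨0, 0, 0, 0, 0, 0, 0, 0, 0⟩, (0, 0, 0)⟩,
  ⟨⟨0, 0, 0, 0, 0, 0, 0, 0, 0⟩, (0, 0, 0)⟩,
  ⟨⟨13, -38, -44, -47, -22, 31, -6, 9, -11⟩, (18, 26, 23)⟩,
  ⟨⟨0, 0, 0, 0, 0, 0, 0, 0, 0⟩, (0, 0, 0)⟩,
  ⟨⟨0, 0, 0, 0, 0, 0, 0, 0, 0⟩, (0, 0, 0)⟩,
  ⟨⟨0, 0, 0, 0, 0, 0, 0, 0, 0⟩, (0, 0, 0)⟩,
  ⟨⟨0, 0, 0, 0, 0, 0, 0, 0, 0⟩, (0, 0, 0)⟩,
  ⟨⟨13, 38, -44, -47, 22, 31, -6, -9, -11⟩, (4, 14, 1)⟩,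
  ⟨⟨0, 0, 0, 0, 0, 0, 0, 0, 0⟩, (0, 0, 0)⟩,
  ⟨⟨0, 0, 0, 0, 0, 0, 0, 0, 0⟩, (0, 0, 0)⟩,
  ⟨⟨0, 0, 0, 0, 0, 0, 0, 0, 0⟩, (0, 0, 0)⟩,
  ⟨⟨0, 0, 0, 0, 0, 0, 0, 0, 0⟩, (0, 0, 0)⟩,
  ⟨⟨0, 0, 0, 0, 0, 0, 0, 0, 0⟩, (0, 0, 0)⟩,
  ⟨⟨0, 0, 0, 0, 0, 0, 0, 0, 0⟩, (0, 0, 0)⟩,
  ⟨⟨0, 0, 0, 0, 0, 0, 0, 0, 0⟩, (0, 0, 0)⟩,
  ⟨⟨0, 0, 0, 0, 0, 0, 0, 0, 0⟩, (0, 0, 0)⟩,
  ⟨⟨-7, -22, -49, 27, -42, 4, 14, 7, -13⟩, (13, 8, 11)⟩,
  ⟨⟨0, 0, 0, 0, 0, 0, 0, 0, 0⟩, (0, 0, 0)⟩,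
  ⟨⟨0, 0, 0, 0, 0, 0, 0, 0, 0⟩, (0, 0, 0)⟩,
  ⟨⟨0, 0, 0, 0, 0, 0, 0, 0, 0⟩, (0, 0, 0)⟩,
  ⟨⟨0, 0, 0, 0, 0, 0, 0, 0, 0⟩, (0, 0, 0)⟩,
  ⟨⟨23, 2, -64, 43, -22, 1, -6, -15, -1⟩, (3, 4, 33)⟩,
  ⟨⟨0, 0, 0, 0, 0, 0, 0, 0, 0⟩, (0, 0, 0)⟩,
  ⟨⟨0, 0, 0, 0, 0, 0, 0, 0, 0⟩, (0, 0, 0)⟩,
  ⟨⟨-13, -38, -31, -47, 22, 16, 6, 9, -17⟩, (34, 29, 27)⟩,
  ⟨⟨7, -22, -56, -27, -42, 31, 14, -7, -1⟩, (30, 27, 23)⟩,
  ⟨⟨0, 0, 0, 0, 0, 0, 0, 0, 0⟩, (0, 0, 0)⟩,
  ⟨⟨43, -22, -44, 23, 2, 41, 6, 15, -7⟩, (12, 9, 12)⟩,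
  ⟨⟨0, 0, 0, 0, 0, 0, 0, 0, 0⟩, (0, 0, 0)⟩,
  ⟨⟨0, 0, 0, 0, 0, 0, 0, 0, 0⟩, (0, 0, 0)⟩]

/-- Unit moves. -/
noncomputable def U : List Mv := [mz,
  mz,
  ⟨⟨1, 0, 0, 0, -1, 0, 0, 0, 1⟩, .nil, (nat_lit 0), (nat_lit 2), (nat_lit 1), (nat_lit 0), (0, 0, 0), [], 2⟩,
  mz,
  ⟨⟨-1, 0, 1, 0, 1, 0, 0, 0, 1⟩, .nil, (nat_lit 6), (nat_lit 0), (nat_lit 0), (nat_lit 1), (0, 0, 0), [], 1⟩,
  ⟨⟨-1, 0, 1, 0, -1, 0, 0, 0, 1⟩, .nil, (nat_lit 0), (nat_lit 5), (nat_lit 1), (nat_lit 0), (0, 0, 0), [], 2⟩,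
  ⟨⟨-1, 0, 1, 0, 1, 0, 0, 0, 1⟩, .nil, (nat_lit 6), (nat_lit 0), (nat_lit 0), (nat_lit 1), (0, 0, 0), [], 1⟩]

theorem v_ty : tyb Dm S.ty1 Clm = true := by decide +kernel

theorem v_ty0 : tyb D0 (S.tys.getD 0 0) Cl0 = true := by decide +kernel

theorem v_ty1 : tyb D1 (S.tys.getD 1 0) Cl1 = true := by decide +kernel

theorem v_msc : mscb S D0 [D1] Dm (nat_lit 10) = true := by decide +kernel

theorem v_mv0 : mvsn (nat_lit 1403845140959929423) S D0 [D1] Dm (nat_lit 10) 0 D0 = true := by decide +kernel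

theorem v_mv1 : mvsn (nat_lit 1403845140959929423) S D0 [D1] Dm (nat_lit 10) 1 D1 = true := by decide +kernel

theorem v_mm : mmsn (nat_lit 1403845140959929423) S D0 [D1] Dm (nat_lit 10) = true := by decide +kernel

theorem v_un : unb S D0 (nat_lit 10) U = true := by decide +kernel

theorem v_ok : okb S.oks [(0, 0, 0), (2, 9, 0), (0, 0, 0), (14, 63, 0), (0, 0, 0)] = true := by decide +kernel

theorem v_part : ∀ d < D0.p, (nat_lit 10).testBit d = true → part S (zc (D0 :: [D1])) d = true := by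
  intro d hd h
  have h1 : ∀ d < 7, (nat_lit 10).testBit d = true → d = 1 ∨ d = 3 := by decide
  rcases h1 d hd h with rfl | rfl
  · exact part_1
  · exact part_3

theorem main (n : ℕ) (ho : Odd n) (hr : ¬ Rep n) (h0 : Split 7 n) (h1 : Split 71 n) (hm : Split 37 n) :
    n ∈ EE := by
  refine concln (W := nat_lit 1403845140959929423) (S := S) (P0 := D0) (Pl := [D1]) (Pm := Dm) (cn := nat_lit 10) ?_ Dm_ok v_ty ?_ ?_ v_msc ?_ v_mm v_un v_part v_ok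
    n ho hr ?_ hm
  · simp only [List.forall_mem_cons]
    exact ⟨D0_ok, D1_ok, fun _ h => absurd h (by simp)⟩
  · exact all2 (φ := fun j P => ∃ L, tyb P (S.tys.getD j 0) L = true) ⟨_, v_ty0⟩ ⟨_, v_ty1⟩
  · exact all2 (φ := fun j P => Nat.ble (S.pks.getD j 0) (Nat.pow P.p P.K) = true) (by decide +kernel) (by decide +kernel)
  · exact all2 (φ := fun i P => mvsn (nat_lit 1403845140959929423) S D0 [D1] Dm (nat_lit 10) i P = true) v_mv0 v_mv1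
  · simp only [List.forall_mem_cons]
    exact ⟨h0, h1, fun _ h => absurd h (by simp)⟩

end Pool.Agent.Work.MP_9954fe_nt.P7_71_37

namespace Pool.Agent.Work.MP_9954fe_nt.P7_47_43

/-- Dummy move. -/
noncomputable def mz : Mv := ⟨⟨0, 0, 0, 0, 0, 0, 0, 0, 0⟩, .nil, (nat_lit 0), (nat_lit 0), (nat_lit 0), (nat_lit 0), (0, 0, 0), [], 0⟩

/-- Moves. -/
noncomputable def t0_1 : List Mv := [
  ⟨⟨-3, 4, -5, 2, -5, -6, 4, 4, -5⟩, (.cons (nat_lit 193) (nat_lit 246) (nat_lit 334) (nat_lit 1) (.cons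
 (nat_lit 2153) (nat_lit 983) (nat_lit 2050) (nat_lit 1) .nil)), (nat_lit 12), (nat_lit 28), (nat_lit 3),
 (nat_lit 1), (3, 5, 3), [337, 1977], 31⟩,
  ⟨⟨-3, 4, -5, -2, 5, 6, 4, 4, -5⟩, (.cons (nat_lit 290) (nat_lit 128) (nat_lit 312) (nat_lit 1) (.cons (nat_lit 1740) (nat_lit 201) (nat_lit 14) (nat_lit 1) .nil)), (nat_lit 1), (nat_lit 29), (nat_lit 25), (nat_lit 1), (3, 2, 3), [142, 1318], 6⟩,
  ⟨⟨7, 0, 0, 2, -5, -6, 4, 4, -5⟩, (.cons (nat_lit 178) (nat_lit 209) (nat_lit 341) (nat_lit 1) (.cons (nat_lit 1419) (nat_lit 239) (nat_lit 76) (nat_lit 1) .nil)), (nat_lit 31), (nat_lit 15), (nat_lit 3), (nat_lit 1), (0, 5, 3), [253, 2071], 31⟩,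
  ⟨⟨-3, 4, -5, 2, -5, -6, 4, 4, -5⟩, (.cons (nat_lit 193) (nat_lit 246) (nat_lit 334) (nat_lit 1) (.cons
 (nat_lit 2153) (nat_lit 983) (nat_lit 2050) (nat_lit 1) .nil)), (nat_lit 12), (nat_lit 28), (nat_lit 3),
 (nat_lit 1), (3, 5, 3), [337, 1977], 31⟩,
  ⟨⟨-3, 4, -5, 2, -5, -6, 4, 4, -5⟩, (.cons (nat_lit 193) (nat_lit 246) (nat_lit 334) (nat_lit 1) (.cons
 (nat_lit 2153) (nat_lit 983) (nat_lit 2050) (nat_lit 1) .nil)), (nat_lit 12), (nat_lit 28), (nat_lit 3),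
 (nat_lit 1), (3, 5, 3), [337, 1977], 31⟩,
  ⟨⟨-3, 4, -5, 2, -5, -6, 4, 4, -5⟩, (.cons (nat_lit 193) (nat_lit 246) (nat_lit 334) (nat_lit 1) (.cons
 (nat_lit 2153) (nat_lit 983) (nat_lit 2050) (nat_lit 1) .nil)), (nat_lit 12), (nat_lit 28), (nat_lit 3),
 (nat_lit 1), (3, 5, 3), [337, 1977], 31⟩,
  ⟨⟨7, 0, 0, 2, -5, -6, 4, 4, -5⟩, (.cons (nat_lit 178) (nat_lit 209) (nat_lit 341) (nat_lit 1) (.cons (nat_lit 1419) (nat_lit 239) (nat_lit 76) (nat_lit 1) .nil)), (nat_lit 31), (nat_lit 15), (nat_lit 3), (nat_lit 1), (0, 5, 3), [253, 2071], 31⟩]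

/-- Moves. -/
noncomputable def t0_3 : List Mv := [
  ⟨⟨1, 0, -9, 0, -7, 0, 6, 0, -5⟩, (.cons (nat_lit 146) (nat_lit 323) (nat_lit 145) (nat_lit 1) (.cons (nat_lit 1646) (nat_lit 268) (nat_lit 830) (nat_lit 1) .nil)), (nat_lit 1), (nat_lit 16), (nat_lit 14), (nat_lit 1), (2, 0, 5), [41, 1467], 13⟩,
  ⟨⟨1, 0, -9, 0, -7, 0, 6, 0, -5⟩, (.cons (nat_lit 146) (nat_lit 323) (nat_lit 145) (nat_lit 1) (.cons (nat_lit 1646) (nat_lit 268) (nat_lit 830) (nat_lit 1) .nil)), (nat_lit 1), (nat_lit 16), (nat_lit 14), (nat_lit 1), (2, 0, 5), [41, 1467], 13⟩,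
  ⟨⟨5, 0, 4, 0, 7, 0, 6, 0, -5⟩, (.cons (nat_lit 200) (nat_lit 19) (nat_lit 69) (nat_lit 1) (.cons (nat_lit 2208) (nat_lit 990) (nat_lit 1185) (nat_lit 1) .nil)), (nat_lit 42), (nat_lit 3), (nat_lit 35), (nat_lit 1), (3, 0, 5), [82, 1204], 11⟩,
  ⟨⟨5, 0, 4, 0, -7, 0, 6, 0, -5⟩, (.cons (nat_lit 113) (nat_lit 83) (nat_lit 40) (nat_lit 1) (.cons (nat_lit 2208) (nat_lit 1659) (nat_lit 877) (nat_lit 1) .nil)), (nat_lit 42), (nat_lit 27), (nat_lit 14), (nat_lit 1), (3, 0, 5), [223, 1091], 13⟩,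
  ⟨⟨1, 0, -9, 0, -7, 0, 6, 0, -5⟩, (.cons (nat_lit 146) (nat_lit 323) (nat_lit 145) (nat_lit 1) (.cons (nat_lit 1646) (nat_lit 268) (nat_lit 830) (nat_lit 1) .nil)), (nat_lit 1), (nat_lit 16), (nat_lit 14), (nat_lit 1), (2, 0, 5), [41, 1467], 13⟩,
  ⟨⟨1, 0, -9, 0, 7, 0, 6, 0, -5⟩, (.cons (nat_lit 227) (nat_lit 317) (nat_lit 153) (nat_lit 1) (.cons (nat_lit 1458) (nat_lit 1125) (nat_lit 1984) (nat_lit 1) .nil)), (nat_lit 1), (nat_lit 40), (nat_lit 35), (nat_lit 1), (2, 0, 5), [89, 1627], 11⟩,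
  ⟨⟨1, 0, -9, 0, -7, 0, 6, 0, -5⟩, (.cons (nat_lit 146) (nat_lit 323) (nat_lit 145) (nat_lit 1) (.cons (nat_lit 1646) (nat_lit 268) (nat_lit 830) (nat_lit 1) .nil)), (nat_lit 1), (nat_lit 16), (nat_lit 14), (nat_lit 1), (2, 0, 5), [41, 1467], 13⟩]

/-- Moves. -/
noncomputable def t1_1 : List Mv := [
  mz,
  ⟨⟨-25, 12, -36, -22, 35, 36, 20, 28, -37⟩, (.cons (nat_lit 46) (nat_lit 310) (nat_lit 145) (nat_lit 1) (.cons
 (nat_lit 1079) (nat_lit 710) (nat_lit 405) (nat_lit 1) .nil)), (nat_lit 18), (nat_lit 8), (nat_lit 33),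
 (nat_lit 1), (2, 45, 36), [334, 699], 5⟩,
  ⟨⟨21, -32, -49, 2, 35, -36, -28, -20, -13⟩, (.cons (nat_lit 122) (nat_lit 332) (nat_lit 83) (nat_lit 1)
 (.cons (nat_lit 578) (nat_lit 370) (nat_lit 1159) (nat_lit 1) .nil)), (nat_lit 25), (nat_lit 7), (nat_lit 36),
 (nat_lit 1), (33, 30, 3), [61, 1915], 5⟩,
  ⟨⟨-51, 4, 19, -2, -45, -14, -12, 12, -37⟩, (.cons (nat_lit 178) (nat_lit 88) (nat_lit 44) (nat_lit 1) (.cons
 (nat_lit 361) (nat_lit 1112) (nat_lit 790) (nat_lit 1) .nil)), (nat_lit 11), (nat_lit 41), (nat_lit 9),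
 (nat_lit 1), (7, 27, 21), [60, 1146], 13⟩,
  mz,
  ⟨⟨25, -12, -61, -22, 35, -14, -20, -28, -17⟩, (.cons (nat_lit 194) (nat_lit 76) (nat_lit 19) (nat_lit 1)
 (.cons (nat_lit 211) (nat_lit 781) (nat_lit 2056) (nat_lit 1) .nil)), (nat_lit 31), (nat_lit 41), (nat_lit 2),
 (nat_lit 1), (9, 9, 21), [97, 1791], 32⟩,
  mz,
  mz,
  mz,
  ⟨⟨27, 32, -47, -40, 17, 0, 10, -16, -47⟩, (.cons (nat_lit 288) (nat_lit 101) (nat_lit 31) (nat_lit 1) (.cons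
 (nat_lit 1211) (nat_lit 1316) (nat_lit 278) (nat_lit 1) .nil)), (nat_lit 1), (nat_lit 24), (nat_lit 13),
 (nat_lit 1), (43, 39, 2), [194, 152], 40⟩,
  mz,
  ⟨⟨17, 48, -17, 40, -17, -40, -10, 16, -37⟩, (.cons (nat_lit 305) (nat_lit 219) (nat_lit 323) (nat_lit 1)
 (.cons (nat_lit 1602) (nat_lit 1282) (nat_lit 178) (nat_lit 1) .nil)), (nat_lit 38), (nat_lit 33), (nat_lit
 2), (nat_lit 1), (25, 45, 24), [332, 933], 17⟩,
  ⟨⟨21, 44, 8, 20, -23, 30, 38, 8, -37⟩, (.cons (nat_lit 252) (nat_lit 90) (nat_lit 40) (nat_lit 1) (.cons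
 (nat_lit 463) (nat_lit 276) (nat_lit 1337) (nat_lit 1) .nil)), (nat_lit 11), (nat_lit 7), (nat_lit 22),
 (nat_lit 1), (29, 3, 1), [81, 354], 30⟩,
  mz,
  ⟨⟨-51, -4, 19, 2, -45, 14, -12, -12, -37⟩, (.cons (nat_lit 341) (nat_lit 195) (nat_lit 192) (nat_lit 1)
 (.cons (nat_lit 1390) (nat_lit 1499) (nat_lit 1307) (nat_lit 1) .nil)), (nat_lit 4), (nat_lit 35), (nat_lit
 36), (nat_lit 1), (25, 11, 28), [184, 629], 36⟩,
  ⟨⟨9, 4, -61, 40, 23, -10, 22, -32, -29⟩, (.cons (nat_lit 82) (nat_lit 248) (nat_lit 112) (nat_lit 1) (.cons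
 (nat_lit 892) (nat_lit 661) (nat_lit 1320) (nat_lit 1) .nil)), (nat_lit 20), (nat_lit 2), (nat_lit 13),
 (nat_lit 1), (18, 33, 44), [67, 927], 19⟩,
  ⟨⟨-13, 36, 45, 40, 23, -30, -22, 32, -7⟩, (.cons (nat_lit 80) (nat_lit 224) (nat_lit 27) (nat_lit 1) (.cons
 (nat_lit 2015) (nat_lit 1298) (nat_lit 2026) (nat_lit 1) .nil)), (nat_lit 28), (nat_lit 14), (nat_lit 37),
 (nat_lit 1), (5, 28, 41), [78, 977], 18⟩,
  mz,
  ⟨⟨19, 0, -63, 0, 47, 0, 42, 0, -23⟩, (.cons (nat_lit 50) (nat_lit 112) (nat_lit 252) (nat_lit 1) (.cons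
 (nat_lit 1403) (nat_lit 1377) (nat_lit 943) (nat_lit 1) .nil)), (nat_lit 1), (nat_lit 12), (nat_lit 32),
 (nat_lit 1), (16, 0, 23), [145, 1784], 16⟩,
  ⟨⟨-39, 32, 8, -20, -33, -20, 6, 24, -41⟩, (.cons (nat_lit 270) (nat_lit 134) (nat_lit 220) (nat_lit 1) (.cons
 (nat_lit 1775) (nat_lit 303) (nat_lit 587) (nat_lit 1) .nil)), (nat_lit 9), (nat_lit 22), (nat_lit 13),
 (nat_lit 1), (25, 8, 7), [184, 1575], 33⟩,
  ⟨⟨17, -36, 28, 20, -23, -50, 38, 8, -1⟩, (.cons (nat_lit 163) (nat_lit 161) (nat_lit 149) (nat_lit 1) (.cons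
 (nat_lit 1665) (nat_lit 1449) (nat_lit 1658) (nat_lit 1) .nil)), (nat_lit 23), (nat_lit 21), (nat_lit 9),
 (nat_lit 1), (2, 30, 10), [73, 406], 24⟩,
  ⟨⟨-49, -12, 36, -2, 35, 36, -28, 20, -13⟩, (.cons (nat_lit 261) (nat_lit 38) (nat_lit 228) (nat_lit 1) (.cons
 (nat_lit 1608) (nat_lit 788) (nat_lit 1091) (nat_lit 1) .nil)), (nat_lit 12), (nat_lit 33), (nat_lit 34),
 (nat_lit 1), (24, 24, 7), [195, 1201], 32⟩,
  ⟨⟨-39, -32, 8, -20, 33, -20, 6, -24, -41⟩, (.cons (nat_lit 342) (nat_lit 55) (nat_lit 160) (nat_lit 1) (.cons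
 (nat_lit 1868) (nat_lit 2069) (nat_lit 1794) (nat_lit 1) .nil)), (nat_lit 42), (nat_lit 4), (nat_lit 41),
 (nat_lit 1), (28, 24, 21), [11, 1202], 28⟩,
  mz,
  mz,
  ⟨⟨-45, 8, -4, 20, 33, -40, -6, -24, -35⟩, (.cons (nat_lit 342) (nat_lit 197) (nat_lit 232) (nat_lit 1) (.cons
 (nat_lit 1084) (nat_lit 431) (nat_lit 1459) (nat_lit 1) .nil)), (nat_lit 42), (nat_lit 39), (nat_lit 2),
 (nat_lit 1), (40, 24, 21), [74, 1820], 28⟩,
  ⟨⟨49, -12, -13, -2, -35, -34, 28, 20, -41⟩, (.cons (nat_lit 226) (nat_lit 66) (nat_lit 123) (nat_lit 1)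
 (.cons (nat_lit 418) (nat_lit 471) (nat_lit 2163) (nat_lit 1) .nil)), (nat_lit 26), (nat_lit 22), (nat_lit
 27), (nat_lit 1), (24, 23, 7), [202, 2203], 7⟩,
  ⟨⟨17, 36, -45, -20, -23, -30, 38, -8, -37⟩, (.cons (nat_lit 23) (nat_lit 258) (nat_lit 1) (nat_lit 231)
 (.cons (nat_lit 404) (nat_lit 600) (nat_lit 653) (nat_lit 1) .nil)), (nat_lit 39), (nat_lit 10), (nat_lit 3),
 (nat_lit 1), (45, 30, 37), [114, 403], 7⟩,
  ⟨⟨-45, -8, -4, -20, 33, 40, -6, 24, -35⟩, (.cons (nat_lit 342) (nat_lit 320) (nat_lit 206) (nat_lit 1) (.cons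
 (nat_lit 1701) (nat_lit 1332) (nat_lit 378) (nat_lit 1) .nil)), (nat_lit 42), (nat_lit 10), (nat_lit 25),
 (nat_lit 1), (29, 39, 7), [32, 1857], 28⟩,
  ⟨⟨23, 0, -63, 0, -47, 0, 42, 0, -19⟩, (.cons (nat_lit 295) (nat_lit 231) (nat_lit 91) (nat_lit 1) (.cons
 (nat_lit 207) (nat_lit 2146) (nat_lit 1351) (nat_lit 1) .nil)), (nat_lit 1), (nat_lit 31), (nat_lit 11),
 (nat_lit 1), (40, 0, 24), [2, 831], 27⟩,
  mz,
  ⟨⟨13, 36, 32, 40, -23, -10, 22, 32, -29⟩, (.cons (nat_lit 60) (nat_lit 88) (nat_lit 1) (nat_lit 28) (.cons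
 (nat_lit 1774) (nat_lit 768) (nat_lit 1033) (nat_lit 1) .nil)), (nat_lit 4), (nat_lit 15), (nat_lit 41),
 (nat_lit 1), (5, 19, 41), [50, 1461], 7⟩,
  ⟨⟨-13, -36, 45, 40, -23, -30, -22, -32, -7⟩, (.cons (nat_lit 189) (nat_lit 123) (nat_lit 164) (nat_lit 1)
 (.cons (nat_lit 2007) (nat_lit 1130) (nat_lit 43) (nat_lit 1) .nil)), (nat_lit 32), (nat_lit 24), (nat_lit
 33), (nat_lit 1), (26, 14, 44), [67, 194], 30⟩,
  ⟨⟨51, -4, -32, 2, 45, -16, 12, -12, -49⟩, (.cons (nat_lit 342) (nat_lit 194) (nat_lit 96) (nat_lit 1) (.cons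
 (nat_lit 1770) (nat_lit 69) (nat_lit 122) (nat_lit 1) .nil)), (nat_lit 42), (nat_lit 6), (nat_lit 22),
 (nat_lit 1), (25, 36, 28), [39, 21], 16⟩,
  mz,
  ⟨⟨21, -44, -29, -20, -23, 50, 38, -8, -1⟩, (.cons (nat_lit 297) (nat_lit 89) (nat_lit 7) (nat_lit 1) (.cons
 (nat_lit 1483) (nat_lit 45) (nat_lit 1136) (nat_lit 1) .nil)), (nat_lit 28), (nat_lit 30), (nat_lit 23),
 (nat_lit 1), (18, 3, 46), [230, 1039], 25⟩,
  ⟨⟨27, -32, -47, -40, -17, 0, 10, 16, -47⟩, (.cons (nat_lit 123) (nat_lit 222) (nat_lit 48) (nat_lit 1) (.cons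
 (nat_lit 59) (nat_lit 2000) (nat_lit 1111) (nat_lit 1) .nil)), (nat_lit 38), (nat_lit 10), (nat_lit 41),
 (nat_lit 1), (46, 45, 24), [241, 313], 17⟩,
  mz,
  ⟨⟨17, -48, -17, 40, 17, -40, -10, -16, -37⟩, (.cons (nat_lit 106) (nat_lit 270) (nat_lit 144) (nat_lit 1)
 (.cons (nat_lit 894) (nat_lit 1313) (nat_lit 256) (nat_lit 1) .nil)), (nat_lit 1), (nat_lit 19), (nat_lit 30),
 (nat_lit 1), (6, 39, 2), [19, 1675], 40⟩,
  mz,
  mz,
  mz,
  ⟨⟨45, -16, -1, -22, -35, 36, 20, -28, -37⟩, (.cons (nat_lit 214) (nat_lit 282) (nat_lit 89) (nat_lit 1)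
 (.cons (nat_lit 994) (nat_lit 1716) (nat_lit 689) (nat_lit 1) .nil)), (nat_lit 5), (nat_lit 19), (nat_lit 37),
 (nat_lit 1), (12, 38, 21), [82, 485], 3⟩,
  mz,
  ⟨⟨-39, 8, -17, 2, -45, -16, 12, 12, -49⟩, (.cons (nat_lit 171) (nat_lit 269) (nat_lit 96) (nat_lit 1) (.cons
 (nat_lit 357) (nat_lit 1884) (nat_lit 989) (nat_lit 1) .nil)), (nat_lit 11), (nat_lit 2), (nat_lit 34),
 (nat_lit 1), (14, 27, 21), [46, 732], 13⟩,
  ⟨⟨-21, -32, -28, -2, 35, -34, 28, -20, -41⟩, (.cons (nat_lit 235) (nat_lit 17) (nat_lit 127) (nat_lit 1)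
 (.cons (nat_lit 1271) (nat_lit 1430) (nat_lit 1918) (nat_lit 1) .nil)), (nat_lit 18), (nat_lit 7), (nat_lit
 7), (nat_lit 1), (33, 30, 3), [124, 2109], 5⟩,
  ⟨⟨-45, 16, 44, -22, -35, -14, -20, 28, -17⟩, (.cons (nat_lit 131) (nat_lit 41) (nat_lit 82) (nat_lit 1)
 (.cons (nat_lit 1571) (nat_lit 299) (nat_lit 225) (nat_lit 1) .nil)), (nat_lit 17), (nat_lit 6), (nat_lit 30),
 (nat_lit 1), (34, 2, 36), [251, 1643], 7⟩]

/-- Moves. -/
noncomputable def t1_3 : List Mv := [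
  mz,
  ⟨⟨45, 16, -1, 22, -35, -36, 20, 28, -37⟩, (.cons (nat_lit 205) (nat_lit 6) (nat_lit 289) (nat_lit 1) (.cons
 (nat_lit 217) (nat_lit 236) (nat_lit 197) (nat_lit 1) .nil)), (nat_lit 26), (nat_lit 6), (nat_lit 13),
 (nat_lit 1), (34, 2, 36), [167, 114], 7⟩,
  ⟨⟨21, -32, -49, 2, 35, -36, -28, -20, -13⟩, (.cons (nat_lit 122) (nat_lit 332) (nat_lit 83) (nat_lit 1)
 (.cons (nat_lit 578) (nat_lit 370) (nat_lit 1159) (nat_lit 1) .nil)), (nat_lit 25), (nat_lit 7), (nat_lit 36),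
 (nat_lit 1), (33, 30, 3), [61, 1915], 5⟩,
  ⟨⟨-51, 4, 19, -2, -45, -14, -12, 12, -37⟩, (.cons (nat_lit 178) (nat_lit 88) (nat_lit 44) (nat_lit 1) (.cons
 (nat_lit 361) (nat_lit 1112) (nat_lit 790) (nat_lit 1) .nil)), (nat_lit 11), (nat_lit 41), (nat_lit 9),
 (nat_lit 1), (7, 27, 21), [60, 1146], 13⟩,
  mz,
  ⟨⟨-45, -16, 44, -22, 35, -14, -20, -28, -17⟩, (.cons (nat_lit 289) (nat_lit 232) (nat_lit 341) (nat_lit 1)
 (.cons (nat_lit 823) (nat_lit 911) (nat_lit 1116) (nat_lit 1) .nil)), (nat_lit 12), (nat_lit 2), (nat_lit 2),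
 (nat_lit 1), (12, 9, 21), [62, 287], 32⟩,
  mz,
  mz,
  mz,
  ⟨⟨27, 32, -47, 40, -17, 0, 10, -16, -47⟩, (.cons (nat_lit 9) (nat_lit 87) (nat_lit 180) (nat_lit 1) (.cons
 (nat_lit 1562) (nat_lit 1560) (nat_lit 1) (nat_lit 1363) .nil)), (nat_lit 17), (nat_lit 41), (nat_lit 9),
 (nat_lit 1), (43, 8, 2), [138, 179], 11⟩,
  mz,
  ⟨⟨17, 48, -17, 40, -17, -40, -10, 16, -37⟩, (.cons (nat_lit 305) (nat_lit 219) (nat_lit 323) (nat_lit 1)
 (.cons (nat_lit 1602) (nat_lit 1282) (nat_lit 178) (nat_lit 1) .nil)), (nat_lit 38), (nat_lit 33), (nat_lit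
 2), (nat_lit 1), (25, 45, 24), [332, 933], 17⟩,
  ⟨⟨21, 44, 8, -20, 23, -30, 38, 8, -37⟩, (.cons (nat_lit 207) (nat_lit 103) (nat_lit 329) (nat_lit 1) (.cons
 (nat_lit 88) (nat_lit 1873) (nat_lit 197) (nat_lit 1) .nil)), (nat_lit 15), (nat_lit 30), (nat_lit 20),
 (nat_lit 1), (29, 44, 1), [15, 2199], 18⟩,
  mz,
  ⟨⟨-51, -4, 19, -2, 45, -14, -12, -12, -37⟩, (.cons (nat_lit 8) (nat_lit 138) (nat_lit 128) (nat_lit 1) (.cons
 (nat_lit 414) (nat_lit 95) (nat_lit 51) (nat_lit 1) .nil)), (nat_lit 1), (nat_lit 6), (nat_lit 21), (nat_lit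
 1), (25, 36, 28), [228, 2196], 16⟩,
  ⟨⟨13, -36, 32, 40, 23, -10, 22, -32, -29⟩, (.cons (nat_lit 58) (nat_lit 200) (nat_lit 126) (nat_lit 1) (.cons
 (nat_lit 236) (nat_lit 1454) (nat_lit 1085) (nat_lit 1) .nil)), (nat_lit 23), (nat_lit 41), (nat_lit 13),
 (nat_lit 1), (26, 33, 44), [39, 128], 19⟩,
  ⟨⟨-9, -4, -52, 40, 23, -30, -22, 32, -7⟩, (.cons (nat_lit 242) (nat_lit 140) (nat_lit 300) (nat_lit 1) (.cons
 (nat_lit 523) (nat_lit 394) (nat_lit 146) (nat_lit 1) .nil)), (nat_lit 15), (nat_lit 29), (nat_lit 37),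
 (nat_lit 1), (36, 28, 41), [323, 1776], 18⟩,
  mz,
  ⟨⟨19, 0, -63, 0, -47, 0, 42, 0, -23⟩, (.cons (nat_lit 140) (nat_lit 93) (nat_lit 1) (nat_lit 84) (.cons
 (nat_lit 1748) (nat_lit 1366) (nat_lit 963) (nat_lit 1) .nil)), (nat_lit 1), (nat_lit 39), (nat_lit 18),
 (nat_lit 1), (16, 0, 23), [108, 1564], 9⟩,
  ⟨⟨-39, 32, 8, 20, 33, 20, 6, 24, -41⟩, (.cons (nat_lit 342) (nat_lit 156) (nat_lit 158) (nat_lit 1) (.cons
 (nat_lit 2020) (nat_lit 1741) (nat_lit 1969) (nat_lit 1) .nil)), (nat_lit 42), (nat_lit 33), (nat_lit 18),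
 (nat_lit 1), (25, 39, 7), [151, 150], 28⟩,
  ⟨⟨17, -36, 28, 20, -23, -50, 38, 8, -1⟩, (.cons (nat_lit 163) (nat_lit 161) (nat_lit 149) (nat_lit 1) (.cons
 (nat_lit 1665) (nat_lit 1449) (nat_lit 1658) (nat_lit 1) .nil)), (nat_lit 23), (nat_lit 21), (nat_lit 9),
 (nat_lit 1), (2, 30, 10), [73, 406], 24⟩,
  ⟨⟨21, 32, -49, 2, -35, -36, -28, 20, -13⟩, (.cons (nat_lit 331) (nat_lit 298) (nat_lit 87) (nat_lit 1) (.cons
 (nat_lit 333) (nat_lit 1589) (nat_lit 1486) (nat_lit 1) .nil)), (nat_lit 26), (nat_lit 21), (nat_lit 16),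
 (nat_lit 1), (30, 23, 7), [279, 500], 7⟩,
  ⟨⟨-39, -32, 8, 20, -33, 20, 6, -24, -41⟩, (.cons (nat_lit 296) (nat_lit 124) (nat_lit 50) (nat_lit 1) (.cons
 (nat_lit 1041) (nat_lit 324) (nat_lit 928) (nat_lit 1) .nil)), (nat_lit 24), (nat_lit 31), (nat_lit 32),
 (nat_lit 1), (28, 23, 21), [1, 1416], 2⟩,
  mz,
  mz,
  ⟨⟨-45, 8, -4, 20, 33, -40, -6, -24, -35⟩, (.cons (nat_lit 342) (nat_lit 197) (nat_lit 232) (nat_lit 1) (.cons
 (nat_lit 1084) (nat_lit 431) (nat_lit 1459) (nat_lit 1) .nil)), (nat_lit 42), (nat_lit 39), (nat_lit 2),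
 (nat_lit 1), (40, 24, 21), [74, 1820], 28⟩,
  ⟨⟨-21, 32, -28, 2, 35, 34, 28, 20, -41⟩, (.cons (nat_lit 219) (nat_lit 228) (nat_lit 325) (nat_lit 1) (.cons
 (nat_lit 1838) (nat_lit 1744) (nat_lit 888) (nat_lit 1) .nil)), (nat_lit 12), (nat_lit 10), (nat_lit 9),
 (nat_lit 1), (30, 24, 7), [125, 1675], 32⟩,
  ⟨⟨21, -44, 8, -20, -23, -30, 38, -8, -37⟩, (.cons (nat_lit 313) (nat_lit 295) (nat_lit 1) (nat_lit 42) (.cons
 (nat_lit 1429) (nat_lit 481) (nat_lit 2204) (nat_lit 1) .nil)), (nat_lit 4), (nat_lit 33), (nat_lit 3),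
 (nat_lit 1), (39, 30, 37), [317, 1625], 7⟩,
  ⟨⟨-45, -8, -4, 20, -33, -40, -6, 24, -35⟩, (.cons (nat_lit 284) (nat_lit 300) (nat_lit 214) (nat_lit 1)
 (.cons (nat_lit 1239) (nat_lit 596) (nat_lit 450) (nat_lit 1) .nil)), (nat_lit 9), (nat_lit 21), (nat_lit 30),
 (nat_lit 1), (29, 8, 7), [58, 1881], 33⟩,
  ⟨⟨23, 0, -63, 0, -47, 0, 42, 0, -19⟩, (.cons (nat_lit 295) (nat_lit 231) (nat_lit 91) (nat_lit 1) (.cons
 (nat_lit 207) (nat_lit 2146) (nat_lit 1351) (nat_lit 1) .nil)), (nat_lit 1), (nat_lit 31), (nat_lit 11),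
 (nat_lit 1), (40, 0, 24), [2, 831], 27⟩,
  mz,
  ⟨⟨13, 36, 32, 40, -23, -10, 22, 32, -29⟩, (.cons (nat_lit 60) (nat_lit 88) (nat_lit 1) (nat_lit 28) (.cons
 (nat_lit 1774) (nat_lit 768) (nat_lit 1033) (nat_lit 1) .nil)), (nat_lit 4), (nat_lit 15), (nat_lit 41),
 (nat_lit 1), (5, 19, 41), [50, 1461], 7⟩,
  ⟨⟨-9, 4, -52, 40, -23, -30, -22, -32, -7⟩, (.cons (nat_lit 70) (nat_lit 178) (nat_lit 52) (nat_lit 1) (.cons
 (nat_lit 2082) (nat_lit 45) (nat_lit 1124) (nat_lit 1) .nil)), (nat_lit 11), (nat_lit 19), (nat_lit 33),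
 (nat_lit 1), (18, 14, 44), [95, 100], 30⟩,
  ⟨⟨51, -4, -32, 2, 45, -16, 12, -12, -49⟩, (.cons (nat_lit 342) (nat_lit 194) (nat_lit 96) (nat_lit 1) (.cons
 (nat_lit 1770) (nat_lit 69) (nat_lit 122) (nat_lit 1) .nil)), (nat_lit 42), (nat_lit 6), (nat_lit 22),
 (nat_lit 1), (25, 36, 28), [39, 21], 16⟩,
  mz,
  ⟨⟨17, 36, 28, 20, 23, -50, 38, -8, -1⟩, (.cons (nat_lit 336) (nat_lit 211) (nat_lit 268) (nat_lit 1) (.cons
 (nat_lit 168) (nat_lit 1196) (nat_lit 34) (nat_lit 1) .nil)), (nat_lit 11), (nat_lit 36), (nat_lit 21),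
 (nat_lit 1), (28, 44, 46), [178, 734], 13⟩,
  ⟨⟨27, -32, -47, 40, 17, 0, 10, 16, -47⟩, (.cons (nat_lit 260) (nat_lit 6) (nat_lit 243) (nat_lit 1) (.cons
 (nat_lit 316) (nat_lit 2207) (nat_lit 738) (nat_lit 1) .nil)), (nat_lit 1), (nat_lit 21), (nat_lit 21),
 (nat_lit 1), (46, 2, 24), [54, 417], 40⟩,
  mz,
  ⟨⟨17, -48, -17, 40, 17, -40, -10, -16, -37⟩, (.cons (nat_lit 106) (nat_lit 270) (nat_lit 144) (nat_lit 1)
 (.cons (nat_lit 894) (nat_lit 1313) (nat_lit 256) (nat_lit 1) .nil)), (nat_lit 1), (nat_lit 19), (nat_lit 30),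
 (nat_lit 1), (6, 39, 2), [19, 1675], 40⟩,
  mz,
  mz,
  mz,
  ⟨⟨45, -16, -1, 22, 35, -36, 20, -28, -37⟩, (.cons (nat_lit 306) (nat_lit 22) (nat_lit 226) (nat_lit 1) (.cons
 (nat_lit 630) (nat_lit 554) (nat_lit 296) (nat_lit 1) .nil)), (nat_lit 31), (nat_lit 2), (nat_lit 41),
 (nat_lit 1), (12, 9, 21), [125, 2097], 32⟩,
  mz,
  ⟨⟨51, 4, -32, 2, -45, -16, 12, 12, -49⟩, (.cons (nat_lit 67) (nat_lit 326) (nat_lit 327) (nat_lit 1) (.cons
 (nat_lit 1664) (nat_lit 1547) (nat_lit 331) (nat_lit 1) .nil)), (nat_lit 32), (nat_lit 41), (nat_lit 34),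
 (nat_lit 1), (7, 27, 21), [312, 2095], 13⟩,
  ⟨⟨-21, -32, -28, 2, -35, 34, 28, -20, -41⟩, (.cons (nat_lit 199) (nat_lit 73) (nat_lit 146) (nat_lit 1)
 (.cons (nat_lit 2082) (nat_lit 411) (nat_lit 2054) (nat_lit 1) .nil)), (nat_lit 38), (nat_lit 30), (nat_lit
 21), (nat_lit 1), (33, 17, 3), [54, 483], 3⟩,
  ⟨⟨-45, 16, 44, -22, -35, -14, -20, 28, -17⟩, (.cons (nat_lit 131) (nat_lit 41) (nat_lit 82) (nat_lit 1)
 (.cons (nat_lit 1571) (nat_lit 299) (nat_lit 225) (nat_lit 1) .nil)), (nat_lit 17), (nat_lit 6), (nat_lit 30),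
 (nat_lit 1), (34, 2, 36), [251, 1643], 7⟩]

/-- Moves. -/
noncomputable def t4_1 : List Mv := [
  mz,
  ⟨⟨3, 44, -20, 2, 15, 44, 36, 12, -25⟩, (.cons (nat_lit 112) (nat_lit 103) (nat_lit 74) (nat_lit 1) (.cons
 (nat_lit 2076) (nat_lit 1100) (nat_lit 2200) (nat_lit 1) .nil)), (nat_lit 22), (nat_lit 0), (nat_lit 0),
 (nat_lit 0), (36, 24, 2), [176, 271], 0⟩,
  mz,
  mz,
  ⟨⟨19, 36, -36, -20, -13, -30, 34, -8, -35⟩, (.cons (nat_lit 103) (nat_lit 177) (nat_lit 95) (nat_lit 1)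
 (.cons (nat_lit 1314) (nat_lit 1871) (nat_lit 1490) (nat_lit 1) .nil)), (nat_lit 18), (nat_lit 0), (nat_lit
 0), (nat_lit 0), (14, 26, 16), [31, 99], 0⟩,
  ⟨⟨33, -32, -28, 2, 15, -46, 36, 12, -11⟩, (.cons (nat_lit 110) (nat_lit 175) (nat_lit 27) (nat_lit 1) (.cons
 (nat_lit 202) (nat_lit 591) (nat_lit 1716) (nat_lit 1) .nil)), (nat_lit 21), (nat_lit 0), (nat_lit 0),
 (nat_lit 0), (19, 22, 9), [152, 1220], 0⟩,
  ⟨⟨-37, -24, 0, -20, 37, 0, 2, -8, -43⟩, (.cons (nat_lit 342) (nat_lit 295) (nat_lit 124) (nat_lit 1) (.cons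
 (nat_lit 2208) (nat_lit 1011) (nat_lit 1198) (nat_lit 1) .nil)), (nat_lit 6), (nat_lit 0), (nat_lit 0),
 (nat_lit 0), (12, 3, 4), [15, 896], 0⟩,
  ⟨⟨-3, -32, 40, -20, -27, -20, 30, -24, -13⟩, (.cons (nat_lit 342) (nat_lit 73) (nat_lit 197) (nat_lit 1)
 (.cons (nat_lit 2208) (nat_lit 519) (nat_lit 83) (nat_lit 1) .nil)), (nat_lit 7), (nat_lit 0), (nat_lit 0),
 (nat_lit 0), (1, 21, 33), [3, 997], 0⟩,
  ⟨⟨37, 24, -37, -20, 37, 20, -2, 8, -41⟩, (.cons (nat_lit 155) (nat_lit 179) (nat_lit 67) (nat_lit 1) (.cons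
 (nat_lit 1035) (nat_lit 21) (nat_lit 1095) (nat_lit 1) .nil)), (nat_lit 35), (nat_lit 0), (nat_lit 0),
 (nat_lit 0), (34, 13, 40), [22, 1037], 0⟩,
  ⟨⟨-29, 0, -27, 0, -43, 0, 18, 0, -47⟩, (.cons (nat_lit 120) (nat_lit 167) (nat_lit 94) (nat_lit 1) (.cons
 (nat_lit 2022) (nat_lit 1421) (nat_lit 1483) (nat_lit 1) .nil)), (nat_lit 34), (nat_lit 0), (nat_lit 0),
 (nat_lit 0), (33, 0, 24), [318, 1774], 0⟩,
  ⟨⟨21, -20, 31, 38, 15, -34, 12, -36, -13⟩, (.cons (nat_lit 273) (nat_lit 307) (nat_lit 181) (nat_lit 1)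
 (.cons (nat_lit 2060) (nat_lit 2164) (nat_lit 1472) (nat_lit 1) .nil)), (nat_lit 38), (nat_lit 0), (nat_lit
 0), (nat_lit 0), (8, 37, 23), [309, 1070], 0⟩,
  mz,
  ⟨⟨-15, 44, 16, 20, 13, -50, -34, 8, -1⟩, (.cons (nat_lit 51) (nat_lit 214) (nat_lit 321) (nat_lit 1) (.cons
 (nat_lit 582) (nat_lit 396) (nat_lit 2164) (nat_lit 1) .nil)), (nat_lit 25), (nat_lit 0), (nat_lit 0),
 (nat_lit 0), (28, 20, 9), [209, 464], 0⟩,
  ⟨⟨-3, -32, -37, 20, 27, -40, 30, -24, -17⟩, (.cons (nat_lit 169) (nat_lit 166) (nat_lit 341) (nat_lit 1)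
 (.cons (nat_lit 95) (nat_lit 1872) (nat_lit 432) (nat_lit 1) .nil)), (nat_lit 30), (nat_lit 0), (nat_lit 0),
 (nat_lit 0), (27, 35, 31), [277, 1682], 0⟩,
  mz,
  mz,
  mz,
  ⟨⟨9, -4, -56, 40, -13, -10, 14, 32, -25⟩, (.cons (nat_lit 33) (nat_lit 309) (nat_lit 197) (nat_lit 1) (.cons
 (nat_lit 45) (nat_lit 587) (nat_lit 2098) (nat_lit 1) .nil)), (nat_lit 12), (nat_lit 0), (nat_lit 0), (nat_lit
 0), (19, 8, 20), [59, 1744], 0⟩,
  ⟨⟨-9, 4, -47, 40, -13, -30, -14, -32, -11⟩, (.cons (nat_lit 158) (nat_lit 265) (nat_lit 72) (nat_lit 1)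
 (.cons (nat_lit 1105) (nat_lit 733) (nat_lit 1168) (nat_lit 1) .nil)), (nat_lit 39), (nat_lit 0), (nat_lit 0),
 (nat_lit 0), (37, 41, 5), [293, 2128], 0⟩,
  mz,
  mz,
  ⟨⟨21, 20, 31, 38, -15, -34, 12, 36, -13⟩, (.cons (nat_lit 312) (nat_lit 7) (nat_lit 38) (nat_lit 1) (.cons
 (nat_lit 715) (nat_lit 1657) (nat_lit 1321) (nat_lit 1) .nil)), (nat_lit 38), (nat_lit 0), (nat_lit 0),
 (nat_lit 0), (12, 34, 13), [263, 529], 0⟩,
  ⟨⟨-21, 20, 52, 38, 15, -4, -12, 36, -1⟩, (.cons (nat_lit 292) (nat_lit 108) (nat_lit 1) (nat_lit 119) (.cons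
 (nat_lit 382) (nat_lit 1719) (nat_lit 1229) (nat_lit 1) .nil)), (nat_lit 1), (nat_lit 0), (nat_lit 0),
 (nat_lit 0), (12, 9, 13), [214, 2095], 0⟩,
  mz,
  mz,
  ⟨⟨5, -36, 31, 40, 13, -10, 14, -32, -25⟩, (.cons (nat_lit 115) (nat_lit 296) (nat_lit 221) (nat_lit 1) (.cons
 (nat_lit 1893) (nat_lit 915) (nat_lit 825) (nat_lit 1) .nil)), (nat_lit 31), (nat_lit 0), (nat_lit 0),
 (nat_lit 0), (11, 2, 5), [145, 913], 0⟩,
  ⟨⟨-5, 36, 36, 40, 13, -30, -14, 32, -11⟩, (.cons (nat_lit 135) (nat_lit 110) (nat_lit 93) (nat_lit 1) (.cons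
 (nat_lit 206) (nat_lit 1917) (nat_lit 43) (nat_lit 1) .nil)), (nat_lit 4), (nat_lit 0), (nat_lit 0), (nat_lit
 0), (1, 35, 20), [153, 934], 0⟩,
  mz,
  mz,
  mz,
  ⟨⟨33, -8, -53, 20, -27, 20, 30, 24, -13⟩, (.cons (nat_lit 274) (nat_lit 135) (nat_lit 205) (nat_lit 1) (.cons
 (nat_lit 2116) (nat_lit 1794) (nat_lit 414) (nat_lit 1) .nil)), (nat_lit 13), (nat_lit 0), (nat_lit 0),
 (nat_lit 0), (39, 8, 12), [38, 856], 0⟩,
  ⟨⟨15, 44, 1, -20, 13, -30, 34, 8, -35⟩, (.cons (nat_lit 173) (nat_lit 242) (nat_lit 183) (nat_lit 1) (.cons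
 (nat_lit 734) (nat_lit 2135) (nat_lit 1925) (nat_lit 1) .nil)), (nat_lit 25), (nat_lit 0), (nat_lit 0),
 (nat_lit 0), (28, 20, 9), [69, 1780], 0⟩,
  mz,
  ⟨⟨-21, -20, 52, 38, -15, -4, -12, -36, -1⟩, (.cons (nat_lit 117) (nat_lit 103) (nat_lit 245) (nat_lit 1)
 (.cons (nat_lit 1189) (nat_lit 68) (nat_lit 803) (nat_lit 1) .nil)), (nat_lit 1), (nat_lit 0), (nat_lit 0),
 (nat_lit 0), (8, 6, 23), [310, 1694], 0⟩,
  ⟨⟨29, 0, -56, 0, -43, 0, -18, 0, -29⟩, (.cons (nat_lit 342) (nat_lit 104) (nat_lit 88) (nat_lit 1) (.cons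
 (nat_lit 2208) (nat_lit 152) (nat_lit 1901) (nat_lit 1) .nil)), (nat_lit 34), (nat_lit 0), (nat_lit 0),
 (nat_lit 0), (33, 0, 24), [185, 646], 0⟩,
  ⟨⟨39, -16, -43, 20, 37, 0, 2, 8, -43⟩, (.cons (nat_lit 239) (nat_lit 94) (nat_lit 108) (nat_lit 1) (.cons
 (nat_lit 1176) (nat_lit 1812) (nat_lit 127) (nat_lit 1) .nil)), (nat_lit 8), (nat_lit 0), (nat_lit 0),
 (nat_lit 0), (6, 13, 40), [253, 1460], 0⟩,
  ⟨⟨33, -8, 20, 20, -27, -40, 30, 24, -17⟩, (.cons (nat_lit 304) (nat_lit 200) (nat_lit 257) (nat_lit 1) (.cons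
 (nat_lit 1226) (nat_lit 1107) (nat_lit 729) (nat_lit 1) .nil)), (nat_lit 13), (nat_lit 0), (nat_lit 0),
 (nat_lit 0), (11, 21, 10), [130, 1963], 0⟩,
  ⟨⟨37, -24, -37, 20, 37, -20, -2, -8, -41⟩, (.cons (nat_lit 232) (nat_lit 267) (nat_lit 149) (nat_lit 1)
 (.cons (nat_lit 1411) (nat_lit 1246) (nat_lit 1857) (nat_lit 1) .nil)), (nat_lit 6), (nat_lit 0), (nat_lit 0),
 (nat_lit 0), (12, 3, 4), [99, 2165], 0⟩,
  ⟨⟨33, 32, -5, 2, -15, 44, 36, -12, -25⟩, (.cons (nat_lit 177) (nat_lit 133) (nat_lit 134) (nat_lit 1) (.cons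
 (nat_lit 1208) (nat_lit 1907) (nat_lit 1339) (nat_lit 1) .nil)), (nat_lit 21), (nat_lit 0), (nat_lit 0),
 (nat_lit 0), (24, 21, 34), [324, 143], 0⟩,
  ⟨⟨-19, 36, -17, 20, -13, -50, -34, -8, -1⟩, (.cons (nat_lit 254) (nat_lit 261) (nat_lit 234) (nat_lit 1)
 (.cons (nat_lit 2) (nat_lit 743) (nat_lit 2082) (nat_lit 1) .nil)), (nat_lit 18), (nat_lit 0), (nat_lit 0),
 (nat_lit 0), (14, 26, 16), [115, 1885], 0⟩,
  mz,
  mz,
  ⟨⟨3, -44, 17, 2, -15, -46, 36, -12, -11⟩, (.cons (nat_lit 196) (nat_lit 124) (nat_lit 157) (nat_lit 1) (.cons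
 (nat_lit 1966) (nat_lit 1711) (nat_lit 1325) (nat_lit 1) .nil)), (nat_lit 22), (nat_lit 0), (nat_lit 0),
 (nat_lit 0), (7, 19, 41), [335, 1750], 0⟩]

/-- Moves. -/
noncomputable def t4_3 : List Mv := [
  mz,
  ⟨⟨3, 44, -20, -2, -15, -44, 36, 12, -25⟩, (.cons (nat_lit 129) (nat_lit 90) (nat_lit 294) (nat_lit 1) (.cons
 (nat_lit 366) (nat_lit 1620) (nat_lit 2108) (nat_lit 1) .nil)), (nat_lit 33), (nat_lit 0), (nat_lit 0),
 (nat_lit 0), (36, 19, 2), [333, 1939], 0⟩,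
  mz,
  mz,
  ⟨⟨15, -44, 1, -20, -13, -30, 34, -8, -35⟩, (.cons (nat_lit 9) (nat_lit 306) (nat_lit 67) (nat_lit 1) (.cons
 (nat_lit 566) (nat_lit 526) (nat_lit 1725) (nat_lit 1) .nil)), (nat_lit 25), (nat_lit 0), (nat_lit 0),
 (nat_lit 0), (2, 26, 16), [311, 1556], 0⟩,
  ⟨⟨33, -32, -28, 2, 15, -46, 36, 12, -11⟩, (.cons (nat_lit 110) (nat_lit 175) (nat_lit 27) (nat_lit 1) (.cons
 (nat_lit 202) (nat_lit 591) (nat_lit 1716) (nat_lit 1) .nil)), (nat_lit 21), (nat_lit 0), (nat_lit 0),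
 (nat_lit 0), (19, 22, 9), [152, 1220], 0⟩,
  ⟨⟨39, 16, -43, -20, 37, 0, 2, -8, -43⟩, (.cons (nat_lit 309) (nat_lit 160) (nat_lit 264) (nat_lit 1) (.cons
 (nat_lit 800) (nat_lit 1668) (nat_lit 1057) (nat_lit 1) .nil)), (nat_lit 37), (nat_lit 0), (nat_lit 0),
 (nat_lit 0), (35, 3, 4), [225, 332], 0⟩,
  ⟨⟨33, 8, -53, -20, -27, -20, 30, -24, -13⟩, (.cons (nat_lit 43) (nat_lit 179) (nat_lit 274) (nat_lit 1)
 (.cons (nat_lit 1599) (nat_lit 656) (nat_lit 1822) (nat_lit 1) .nil)), (nat_lit 36), (nat_lit 0), (nat_lit 0),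
 (nat_lit 0), (32, 21, 33), [80, 104], 0⟩,
  ⟨⟨-39, -16, -4, 20, -37, -20, -2, 8, -41⟩, (.cons (nat_lit 124) (nat_lit 17) (nat_lit 114) (nat_lit 1) (.cons
 (nat_lit 489) (nat_lit 985) (nat_lit 150) (nat_lit 1) .nil)), (nat_lit 37), (nat_lit 0), (nat_lit 0), (nat_lit
 0), (6, 30, 40), [141, 1229], 0⟩,
  ⟨⟨-29, 0, -27, 0, -43, 0, 18, 0, -47⟩, (.cons (nat_lit 120) (nat_lit 167) (nat_lit 94) (nat_lit 1) (.cons
 (nat_lit 2022) (nat_lit 1421) (nat_lit 1483) (nat_lit 1) .nil)), (nat_lit 34), (nat_lit 0), (nat_lit 0),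
 (nat_lit 0), (33, 0, 24), [318, 1774], 0⟩,
  ⟨⟨-9, -16, -44, 38, 15, -34, 12, -36, -13⟩, (.cons (nat_lit 98) (nat_lit 148) (nat_lit 286) (nat_lit 1)
 (.cons (nat_lit 1277) (nat_lit 1220) (nat_lit 955) (nat_lit 1) .nil)), (nat_lit 5), (nat_lit 0), (nat_lit 0),
 (nat_lit 0), (15, 37, 23), [295, 506], 0⟩,
  mz,
  ⟨⟨-15, 44, 16, -20, -13, 50, -34, 8, -1⟩, (.cons (nat_lit 52) (nat_lit 53) (nat_lit 46) (nat_lit 1) (.cons
 (nat_lit 540) (nat_lit 1116) (nat_lit 297) (nat_lit 1) .nil)), (nat_lit 17), (nat_lit 0), (nat_lit 0),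
 (nat_lit 0), (28, 23, 9), [41, 1047], 0⟩,
  ⟨⟨33, 8, 20, 20, 27, -40, 30, -24, -17⟩, (.cons (nat_lit 342) (nat_lit 170) (nat_lit 313) (nat_lit 1) (.cons
 (nat_lit 2208) (nat_lit 1747) (nat_lit 902) (nat_lit 1) .nil)), (nat_lit 13), (nat_lit 0), (nat_lit 0),
 (nat_lit 0), (4, 35, 31), [263, 319], 0⟩,
  mz,
  mz,
  mz,
  ⟨⟨5, 36, 31, 40, -13, -10, 14, 32, -25⟩, (.cons (nat_lit 198) (nat_lit 293) (nat_lit 218) (nat_lit 1) (.cons
 (nat_lit 1788) (nat_lit 2092) (nat_lit 124) (nat_lit 1) .nil)), (nat_lit 31), (nat_lit 0), (nat_lit 0),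
 (nat_lit 0), (1, 8, 20), [101, 475], 0⟩,
  ⟨⟨-5, -36, 36, 40, -13, -30, -14, -32, -11⟩, (.cons (nat_lit 10) (nat_lit 288) (nat_lit 79) (nat_lit 1)
 (.cons (nat_lit 775) (nat_lit 1288) (nat_lit 557) (nat_lit 1) .nil)), (nat_lit 4), (nat_lit 0), (nat_lit 0),
 (nat_lit 0), (11, 41, 5), [13, 13], 0⟩,
  mz,
  mz,
  ⟨⟨-9, 16, -44, 38, -15, -34, 12, 36, -13⟩, (.cons (nat_lit 290) (nat_lit 14) (nat_lit 59) (nat_lit 1) (.cons
 (nat_lit 1870) (nat_lit 1539) (nat_lit 757) (nat_lit 1) .nil)), (nat_lit 5), (nat_lit 0), (nat_lit 0),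
 (nat_lit 0), (1, 34, 13), [67, 1610], 0⟩,
  ⟨⟨9, 16, -53, 38, 15, -4, -12, 36, -1⟩, (.cons (nat_lit 142) (nat_lit 228) (nat_lit 1) (nat_lit 49) (.cons
 (nat_lit 2109) (nat_lit 1007) (nat_lit 2169) (nat_lit 1) .nil)), (nat_lit 42), (nat_lit 0), (nat_lit 0),
 (nat_lit 0), (1, 9, 13), [102, 1907], 0⟩,
  mz,
  mz,
  ⟨⟨5, -36, 31, 40, 13, -10, 14, -32, -25⟩, (.cons (nat_lit 115) (nat_lit 296) (nat_lit 221) (nat_lit 1) (.cons
 (nat_lit 1893) (nat_lit 915) (nat_lit 825) (nat_lit 1) .nil)), (nat_lit 31), (nat_lit 0), (nat_lit 0),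
 (nat_lit 0), (11, 2, 5), [145, 913], 0⟩,
  ⟨⟨-5, 36, 36, 40, 13, -30, -14, 32, -11⟩, (.cons (nat_lit 135) (nat_lit 110) (nat_lit 93) (nat_lit 1) (.cons
 (nat_lit 206) (nat_lit 1917) (nat_lit 43) (nat_lit 1) .nil)), (nat_lit 4), (nat_lit 0), (nat_lit 0), (nat_lit
 0), (1, 35, 20), [153, 934], 0⟩,
  mz,
  mz,
  mz,
  ⟨⟨33, -8, -53, -20, 27, -20, 30, 24, -13⟩, (.cons (nat_lit 205) (nat_lit 267) (nat_lit 340) (nat_lit 1)
 (.cons (nat_lit 1257) (nat_lit 1333) (nat_lit 2168) (nat_lit 1) .nil)), (nat_lit 36), (nat_lit 0), (nat_lit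
 0), (nat_lit 0), (39, 35, 12), [40, 738], 0⟩,
  ⟨⟨15, 44, 1, -20, 13, -30, 34, 8, -35⟩, (.cons (nat_lit 173) (nat_lit 242) (nat_lit 183) (nat_lit 1) (.cons
 (nat_lit 734) (nat_lit 2135) (nat_lit 1925) (nat_lit 1) .nil)), (nat_lit 25), (nat_lit 0), (nat_lit 0),
 (nat_lit 0), (28, 20, 9), [69, 1780], 0⟩,
  mz,
  ⟨⟨9, -16, -53, 38, -15, -4, -12, -36, -1⟩, (.cons (nat_lit 296) (nat_lit 184) (nat_lit 259) (nat_lit 1)
 (.cons (nat_lit 550) (nat_lit 1530) (nat_lit 897) (nat_lit 1) .nil)), (nat_lit 42), (nat_lit 0), (nat_lit 0),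
 (nat_lit 0), (15, 6, 23), [254, 1365], 0⟩,
  ⟨⟨-47, 0, 27, 0, -43, 0, -18, 0, -29⟩, (.cons (nat_lit 323) (nat_lit 253) (nat_lit 165) (nat_lit 1) (.cons
 (nat_lit 189) (nat_lit 929) (nat_lit 256) (nat_lit 1) .nil)), (nat_lit 9), (nat_lit 0), (nat_lit 0), (nat_lit
 0), (34, 0, 24), [290, 1680], 0⟩,
  ⟨⟨39, -16, -43, -20, -37, 0, 2, 8, -43⟩, (.cons (nat_lit 212) (nat_lit 192) (nat_lit 306) (nat_lit 1) (.cons
 (nat_lit 780) (nat_lit 1173) (nat_lit 1166) (nat_lit 1) .nil)), (nat_lit 37), (nat_lit 0), (nat_lit 0),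
 (nat_lit 0), (6, 30, 40), [57, 947], 0⟩,
  ⟨⟨33, -8, 20, 20, -27, -40, 30, 24, -17⟩, (.cons (nat_lit 304) (nat_lit 200) (nat_lit 257) (nat_lit 1) (.cons
 (nat_lit 1226) (nat_lit 1107) (nat_lit 729) (nat_lit 1) .nil)), (nat_lit 13), (nat_lit 0), (nat_lit 0),
 (nat_lit 0), (11, 21, 10), [130, 1963], 0⟩,
  ⟨⟨-39, 16, -4, 20, 37, -20, -2, -8, -41⟩, (.cons (nat_lit 342) (nat_lit 237) (nat_lit 254) (nat_lit 1) (.cons
 (nat_lit 2208) (nat_lit 1433) (nat_lit 1998) (nat_lit 1) .nil)), (nat_lit 37), (nat_lit 0), (nat_lit 0),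
 (nat_lit 0), (35, 3, 4), [64, 1601], 0⟩,
  ⟨⟨3, -44, -20, -2, 15, -44, 36, -12, -25⟩, (.cons (nat_lit 272) (nat_lit 216) (nat_lit 1) (nat_lit 217)
 (.cons (nat_lit 1510) (nat_lit 928) (nat_lit 419) (nat_lit 1) .nil)), (nat_lit 33), (nat_lit 0), (nat_lit 0),
 (nat_lit 0), (10, 22, 34), [148, 1014], 0⟩,
  ⟨⟨-15, -44, 16, -20, 13, 50, -34, -8, -1⟩, (.cons (nat_lit 193) (nat_lit 153) (nat_lit 176) (nat_lit 1)
 (.cons (nat_lit 2149) (nat_lit 1822) (nat_lit 240) (nat_lit 1) .nil)), (nat_lit 17), (nat_lit 0), (nat_lit 0),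
 (nat_lit 0), (2, 17, 16), [131, 1806], 0⟩,
  mz,
  mz,
  ⟨⟨33, 32, -28, 2, -15, -46, 36, -12, -11⟩, (.cons (nat_lit 161) (nat_lit 65) (nat_lit 164) (nat_lit 1) (.cons
 (nat_lit 1982) (nat_lit 310) (nat_lit 808) (nat_lit 1) .nil)), (nat_lit 21), (nat_lit 0), (nat_lit 0),
 (nat_lit 0), (34, 19, 41), [69, 481], 0⟩]

/-- All the moves. -/
noncomputable def tabs : List (List (List Mv)) := [[[], t0_1, [], t0_3], [[], t1_1, [], t1_3], [], [], [[], t4_1, [], t4_3]]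

/-- Subtrie. -/
noncomputable def T1 : Tr := (.ev (nat_lit 20) (nat_lit 68786591344) (.nd (nat_lit 33) (.br (nat_lit 25) (.br
 (nat_lit 14) (.br (nat_lit 5) (.br (nat_lit 2) (.ch (nat_lit 1) (.ev (nat_lit 52) (nat_lit 4957504020480) (.ev
 (nat_lit 404) (nat_lit 2147483648) (.ev (nat_lit 564) (nat_lit 34359738368) (.ev (nat_lit 596) (nat_lit
 137438953472) (.ev (nat_lit 768) (nat_lit 2097152) (.nd (nat_lit 1264) (.br (nat_lit 2) (.ch (nat_lit 1) (.ev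
 (nat_lit 1280) (nat_lit 17180000384) (.ev (nat_lit 1344) (nat_lit 256) (.nd (nat_lit 1648) (.br (nat_lit 6)
 (.ch (nat_lit 3) (.ev (nat_lit 1664) (nat_lit 274877906946) .dd)) (.ch (nat_lit 6) (.fin (nat_lit
 576459103037506113)))))))) (.br (nat_lit 3) (.ch (nat_lit 2) (.ev (nat_lit 1280) (nat_lit 292057776512) (.ev
 (nat_lit 1508) (nat_lit 131072) (.ev (nat_lit 1517) (nat_lit 2) .dd)))) (.ch (nat_lit 3) (.ev (nat_lit 1280)
 (nat_lit 274878038274) (.ev (nat_lit 1312) (nat_lit 17179869184) (.ev (nat_lit 1325) (nat_lit 128)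
 .dd))))))))))))) (.br (nat_lit 3) (.ch (nat_lit 2) (.ev (nat_lit 52) (nat_lit 446710161792) (.ev (nat_lit 160)
 (nat_lit 4976800038914) .dd))) (.ch (nat_lit 3) (.ev (nat_lit 52) (nat_lit 438090989824) (.ev (nat_lit 148)
 (nat_lit 8320) (.ev (nat_lit 276) (nat_lit 549755813888) (.ev (nat_lit 416) (nat_lit 4435663388674) .dd)))))))
 (.br (nat_lit 11) (.br (nat_lit 9) (.ch (nat_lit 5) (.ev (nat_lit 52) (nat_lit 294241042562) (.ev (nat_lit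
 116) (nat_lit 8589934592) (.ev (nat_lit 180) (nat_lit 549755813888) (.ev (nat_lit 436) (nat_lit 8192) (.ev
 (nat_lit 912) (nat_lit 1073741824) (.nd (nat_lit 1264) (.br (nat_lit 3) (.ch (nat_lit 0) (.ev (nat_lit 1280)
 (nat_lit 34364195072) (.ev (nat_lit 1392) (nat_lit 137438953472) (.ev (nat_lit 1405) (nat_lit 4398046511104)
 .dd)))) (.br (nat_lit 6) (.ch (nat_lit 3) (.ev (nat_lit 1280) (nat_lit 4194304) (.ev (nat_lit 1424) (nat_lit
 137438953472) (.ev (nat_lit 1508) (nat_lit 4398046773248) (.fin (nat_lit 576470098152735300)))))) (.ch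
 (nat_lit 6) (.ev (nat_lit 1280) (nat_lit 4569845203200) (.ev (nat_lit 1392) (nat_lit 4194304) (.ev (nat_lit
 1405) (nat_lit 262144) .dd))))))))))))) (.ch (nat_lit 9) (.ev (nat_lit 52) (nat_lit 5093867135106) (.ev
 (nat_lit 180) (nat_lit 4194304) (.ev (nat_lit 276) (nat_lit 2147483648) (.ev (nat_lit 500) (nat_lit 131072)
 (.nd (nat_lit 1264) (.br (nat_lit 3) (.br (nat_lit 2) (.ch (nat_lit 1) (.ev (nat_lit 1280) (nat_lit
 51539607552) (.ev (nat_lit 1376) (nat_lit 274877906944) (.fin (nat_lit 576474496195052088))))) (.ch (nat_lit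
 2) (.ev (nat_lit 1280) (nat_lit 292057776384) (.ev (nat_lit 1408) (nat_lit 1073741824) (.ev (nat_lit 1421)
 (nat_lit 34359738368) .dd))))) (.br (nat_lit 6) (.ch (nat_lit 3) (.ev (nat_lit 1280) (nat_lit 310311387392)
 (.ev (nat_lit 1293) (nat_lit 17179869184) .dd))) (.ch (nat_lit 6) (.ev (nat_lit 1280) (nat_lit 327491256576)
 .dd))))))))))) (.br (nat_lit 12) (.ch (nat_lit 11) (.ev (nat_lit 52) (nat_lit 338230911104) (.ev (nat_lit 436)
 (nat_lit 4194304) (.ev (nat_lit 1056) (nat_lit 4398046511104) (.nd (nat_lit 1264) (.br (nat_lit 1) (.ch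
 (nat_lit 0) (.ev (nat_lit 1280) (nat_lit 549789630466) (.ev (nat_lit 1508) (nat_lit 256) (.ev (nat_lit 1517)
 (nat_lit 137438953472) .dd)))) (.br (nat_lit 6) (.ch (nat_lit 1) (.ev (nat_lit 1280) (nat_lit 256) (.ev
 (nat_lit 1408) (nat_lit 2) (.ev (nat_lit 1424) (nat_lit 33554432) (.ev (nat_lit 1540) (nat_lit 137438953472)
 (.nd (nat_lit 1648) (.br (nat_lit 3) (.ch (nat_lit 0) (.fin (nat_lit 576456904019493444))) (.ch (nat_lit 3)
 (.ev (nat_lit 1664) (nat_lit 549756076032) .dd))))))))) (.ch (nat_lit 6) (.ev (nat_lit 1280) (nat_lit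
 687195029760) (.ev (nat_lit 1392) (nat_lit 33554432) (.ev (nat_lit 1405) (nat_lit 2) .dd))))))))))) (.ch
 (nat_lit 12) (.ev (nat_lit 52) (nat_lit 335043109120) (.ev (nat_lit 180) (nat_lit 2) (.ev (nat_lit 276)
 (nat_lit 4194304) (.ev (nat_lit 1168) (nat_lit 4398046511104) (.nd (nat_lit 1264) (.br (nat_lit 3) (.br
 (nat_lit 2) (.ch (nat_lit 0) (.ev (nat_lit 1280) (nat_lit 688268771456) (.ev (nat_lit 1376) (nat_lit
 2147614720) .dd))) (.ch (nat_lit 2) (.ev (nat_lit 1280) (nat_lit 139586830464) (.ev (nat_lit 1456) (nat_lit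
 550829555712) .dd)))) (.br (nat_lit 6) (.ch (nat_lit 3) (.ev (nat_lit 1280) (nat_lit 552977170432) (.ev
 (nat_lit 1296) (nat_lit 128) (.ev (nat_lit 1558) (nat_lit 137439215616) .dd)))) (.ch (nat_lit 6) (.ev (nat_lit
 1280) (nat_lit 690416386176) .dd))))))))))))) (.br (nat_lit 19) (.br (nat_lit 16) (.br (nat_lit 15) (.ch
 (nat_lit 14) (.ev (nat_lit 52) (nat_lit 5111049101570) (.ev (nat_lit 276) (nat_lit 274877906944) (.ev (nat_lit
 340) (nat_lit 2097152) (.ev (nat_lit 944) (nat_lit 1073741824) (.nd (nat_lit 1264) (.br (nat_lit 2) (.ch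
 (nat_lit 0) (.ev (nat_lit 1280) (nat_lit 131200) (.ev (nat_lit 1424) (nat_lit 2147483648) (.ev (nat_lit 1437)
 (nat_lit 34359738368) .dd)))) (.br (nat_lit 6) (.ch (nat_lit 2) (.ev (nat_lit 1280) (nat_lit 36507222016) (.ev
 (nat_lit 1408) (nat_lit 128) (.ev (nat_lit 1421) (nat_lit 131072) .dd)))) (.ch (nat_lit 6) (.ev (nat_lit 1280)
 (nat_lit 36507353216) .dd)))))))))) (.ch (nat_lit 15) (.ev (nat_lit 52) (nat_lit 4719095324674) (.ev (nat_lit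
 84) (nat_lit 137439084544) (.ev (nat_lit 340) (nat_lit 17179869440) (.ev (nat_lit 404) (nat_lit 4194304) (.ev
 (nat_lit 896) (nat_lit 128) (.nd (nat_lit 1264) (.br (nat_lit 1) (.ch (nat_lit 0) (.ev (nat_lit 1280) (nat_lit
 35913728) (.ev (nat_lit 1293) (nat_lit 549755813888) .dd))) (.br (nat_lit 2) (.ch (nat_lit 1) (.ev (nat_lit
 1280) (nat_lit 549757911040) (.fin (nat_lit 576478894237368904)))) (.ch (nat_lit 2) (.ev (nat_lit 1280)
 (nat_lit 33816576) (.ev (nat_lit 1424) (nat_lit 2097152) (.ev (nat_lit 1437) (nat_lit 549755813888)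
 .dd)))))))))))))) (.br (nat_lit 18) (.ch (nat_lit 16) (.ev (nat_lit 52) (nat_lit 5377338900608) (.ev (nat_lit
 180) (nat_lit 8192) (.ev (nat_lit 468) (nat_lit 8589934592) (.ev (nat_lit 544) (nat_lit 37581357314) .dd)))))
 (.ch (nat_lit 18) (.ev (nat_lit 52) (nat_lit 424134574466) (.ev (nat_lit 148) (nat_lit 549755813888) (.ev
 (nat_lit 372) (nat_lit 4398046511104) (.nd (nat_lit 1264) (.br (nat_lit 2) (.br (nat_lit 1) (.ch (nat_lit 0)
 (.ev (nat_lit 1280) (nat_lit 17213423616) (.ev (nat_lit 1440) (nat_lit 131072) (.fin (nat_lit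
 576474496195052116))))) (.ch (nat_lit 1) (.ev (nat_lit 1280) (nat_lit 51573301248) .dd))) (.br (nat_lit 6)
 (.ch (nat_lit 2) (.ev (nat_lit 1280) (nat_lit 51573293056) (.ev (nat_lit 1293) (nat_lit 8192) .dd))) (.ch
 (nat_lit 6) (.ev (nat_lit 1280) (nat_lit 34359877632) (.ev (nat_lit 1312) (nat_lit 33554432) (.ev (nat_lit
 1325) (nat_lit 17179869184) .dd))))))))))))) (.br (nat_lit 21) (.br (nat_lit 20) (.ch (nat_lit 19) (.ev
 (nat_lit 52) (nat_lit 4683701682432) (.ev (nat_lit 148) (nat_lit 1073741824) (.ev (nat_lit 340) (nat_lit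
 34359738496) (.ev (nat_lit 784) (nat_lit 8194) (.nd (nat_lit 1264) (.br (nat_lit 1) (.ch (nat_lit 0) (.ev
 (nat_lit 1280) (nat_lit 549756076032) (.ev (nat_lit 1408) (nat_lit 131072) (.ev (nat_lit 1424) (nat_lit
 17179869184) (.ev (nat_lit 1437) (nat_lit 137438953472) .dd))))) (.br (nat_lit 6) (.ch (nat_lit 1) (.ev
 (nat_lit 1280) (nat_lit 17180262400) (.ev (nat_lit 1360) (nat_lit 549755813888) (.ev (nat_lit 1373) (nat_lit
 137438953472) .dd)))) (.ch (nat_lit 6) (.ev (nat_lit 1280) (nat_lit 704374636544) (.ev (nat_lit 1408) (nat_lit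
 131072) (.ev (nat_lit 1421) (nat_lit 262144) .dd)))))))))))) (.ch (nat_lit 20) (.ev (nat_lit 52) (nat_lit
 4545188987264) (.ev (nat_lit 180) (nat_lit 274877906944) (.ev (nat_lit 564) (nat_lit 549755813888) (.ev
 (nat_lit 608) (nat_lit 17179877376) (.ev (nat_lit 1152) (nat_lit 2147483648) (.nd (nat_lit 1264) (.br (nat_lit
 2) (.ch (nat_lit 1) (.ev (nat_lit 1280) (nat_lit 34359869442) (.ev (nat_lit 1293) (nat_lit 262144) .dd))) (.br
 (nat_lit 6) (.ch (nat_lit 2) (.ev (nat_lit 1280) (nat_lit 262144) (.ev (nat_lit 1488) (nat_lit 2) (.ev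
 (nat_lit 1606) (nat_lit 34359869440) .dd)))) (.ch (nat_lit 6) (.ev (nat_lit 1280) (nat_lit 34360131586)
 .dd)))))))))))) (.br (nat_lit 22) (.ch (nat_lit 21) (.ev (nat_lit 52) (nat_lit 5120674898178) (.ev (nat_lit
 180) (nat_lit 33554432) (.ev (nat_lit 436) (nat_lit 2147483648) (.ev (nat_lit 720) (nat_lit 128) (.nd (nat_lit
 1264) (.br (nat_lit 1) (.ch (nat_lit 0) (.ev (nat_lit 1280) (nat_lit 292062232576) (.ev (nat_lit 1508)
 (nat_lit 8589934592) (.ev (nat_lit 1517) (nat_lit 2097152) .dd)))) (.br (nat_lit 6) (.ch (nat_lit 1) (.ev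
 (nat_lit 1280) (nat_lit 25776095232) (.ev (nat_lit 1312) (nat_lit 274877906944) (.ev (nat_lit 1325) (nat_lit
 262144) .dd)))) (.ch (nat_lit 6) (.ev (nat_lit 1280) (nat_lit 283468103680) (.ev (nat_lit 1344) (nat_lit
 17179869184) (.nd (nat_lit 1648) (.br (nat_lit 3) (.ch (nat_lit 0) (.ev (nat_lit 1664) (nat_lit 6291456) .dd))
 (.ch (nat_lit 3) (.fin (nat_lit 576459103039603263)))))))))))))))) (.ch (nat_lit 22) (.ev (nat_lit 52)
 (nat_lit 5095983022082) (.ev (nat_lit 320) (nat_lit 327527178624) .dd))))))) (.br (nat_lit 33) (.br (nat_lit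
 28) (.br (nat_lit 26) (.ch (nat_lit 25) (.ev (nat_lit 52) (nat_lit 5231272263682) (.ev (nat_lit 128) (nat_lit
 192237937024) .dd))) (.br (nat_lit 27) (.ch (nat_lit 26) (.ev (nat_lit 52) (nat_lit 4588098822530) (.ev
 (nat_lit 84) (nat_lit 8589934592) (.ev (nat_lit 308) (nat_lit 131072) (.nd (nat_lit 1264) (.br (nat_lit 1)
 (.ch (nat_lit 0) (.ev (nat_lit 1280) (nat_lit 549795921920) (.ev (nat_lit 1392) (nat_lit 2147483648) (.ev
 (nat_lit 1405) (nat_lit 274877906944) .dd)))) (.br (nat_lit 6) (.ch (nat_lit 1) (.ev (nat_lit 1280) (nat_lit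
 2183135232) (.ev (nat_lit 1408) (nat_lit 274877906944) (.ev (nat_lit 1520) (nat_lit 4194304) (.fin (nat_lit
 576456904019493444)))))) (.ch (nat_lit 6) (.ev (nat_lit 1280) (nat_lit 826781466624) (.ev (nat_lit 1328)
 (nat_lit 33554432) (.fin (nat_lit 576463501081920065)))))))))))) (.ch (nat_lit 27) (.ev (nat_lit 52) (nat_lit
 188985253890) (.ev (nat_lit 148) (nat_lit 33554432) (.ev (nat_lit 308) (nat_lit 4398046511104) (.ev (nat_lit
 404) (nat_lit 274877906944) (.ev (nat_lit 564) (nat_lit 256) (.nd (nat_lit 1264) (.br (nat_lit 2) (.br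
 (nat_lit 1) (.ch (nat_lit 0) (.ev (nat_lit 1280) (nat_lit 561566974080) .dd)) (.ch (nat_lit 1) (.ev (nat_lit
 1280) (nat_lit 9663676544) (.fin (nat_lit 576461302061810260))))) (.br (nat_lit 3) (.ch (nat_lit 2) (.ev
 (nat_lit 1280) (nat_lit 551903297536) (.ev (nat_lit 1360) (nat_lit 9663676416) (.ev (nat_lit 1373) (nat_lit
 128) .dd)))) (.br (nat_lit 6) (.ch (nat_lit 3) (.ev (nat_lit 1280) (nat_lit 561566973952) (.ev (nat_lit 1293)
 (nat_lit 128) .dd))) (.ch (nat_lit 6) (.ev (nat_lit 1280) (nat_lit 551903297536) (.ev (nat_lit 1328) (nat_lit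
 8589934720) (.ev (nat_lit 1341) (nat_lit 1073741824) .dd)))))))))))))))) (.br (nat_lit 31) (.br (nat_lit 29)
 (.ch (nat_lit 28) (.ev (nat_lit 52) (nat_lit 861147496450) (.ev (nat_lit 148) (nat_lit 256) (.ev (nat_lit 340)
 (nat_lit 8192) (.ev (nat_lit 624) (nat_lit 17180000256) (.ev (nat_lit 800) (nat_lit 137472507904) (.nd
 (nat_lit 1264) (.br (nat_lit 2) (.ch (nat_lit 1) (.ev (nat_lit 1280) (nat_lit 4406636445824) (.ev (nat_lit
 1293) (nat_lit 1073741824) .dd))) (.br (nat_lit 3) (.ch (nat_lit 2) (.ev (nat_lit 1280) (nat_lit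
 4399120252928) (.ev (nat_lit 1392) (nat_lit 8589934720) .dd))) (.ch (nat_lit 3) (.ev (nat_lit 1280) (nat_lit
 9663676544) (.ev (nat_lit 1293) (nat_lit 4398046511104) .dd)))))))))))) (.ch (nat_lit 29) (.ev (nat_lit 52)
 (nat_lit 4990791983104) (.ev (nat_lit 180) (nat_lit 262144) (.ev (nat_lit 276) (nat_lit 128) (.ev (nat_lit
 340) (nat_lit 2147483648) (.ev (nat_lit 468) (nat_lit 137438953472) (.nd (nat_lit 1264) (.br (nat_lit 2) (.br
 (nat_lit 1) (.ch (nat_lit 0) (.ev (nat_lit 1280) (nat_lit 1073742082) (.ev (nat_lit 1312) (nat_lit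
 274877906944) (.ev (nat_lit 1325) (nat_lit 17179869184) .dd)))) (.ch (nat_lit 1) (.ev (nat_lit 1280) (nat_lit
 292057776128) (.ev (nat_lit 1440) (nat_lit 2) (.fin (nat_lit 576474496195052088)))))) (.br (nat_lit 3) (.ch
 (nat_lit 2) (.ev (nat_lit 1280) (nat_lit 293131518210) .dd)) (.ch (nat_lit 3) (.ev (nat_lit 1280) (nat_lit
 293131517954) (.ev (nat_lit 1293) (nat_lit 256) .dd))))))))))))) (.br (nat_lit 32) (.ch (nat_lit 31) (.ev
 (nat_lit 52) (nat_lit 824640274562) (.ev (nat_lit 116) (nat_lit 131072) (.ev (nat_lit 148) (nat_lit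
 2147483648) (.ev (nat_lit 404) (nat_lit 1073741824) (.ev (nat_lit 1184) (nat_lit 34359738368) (.nd (nat_lit
 1264) (.br (nat_lit 2) (.br (nat_lit 1) (.ch (nat_lit 0) (.ev (nat_lit 1280) (nat_lit 154652385280) (.ev
 (nat_lit 1296) (nat_lit 8589934592) (.ev (nat_lit 1616) (nat_lit 4398046511360) .dd)))) (.ch (nat_lit 1) (.ev
 (nat_lit 1280) (nat_lit 4561288831232) .dd))) (.br (nat_lit 6) (.ch (nat_lit 2) (.ev (nat_lit 1280) (nat_lit
 4423849869568) (.ev (nat_lit 1456) (nat_lit 137438961664) .dd))) (.ch (nat_lit 6) (.ev (nat_lit 1280) (nat_lit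
 4544075407616) (.ev (nat_lit 1376) (nat_lit 17213423616) .dd)))))))))))) (.ch (nat_lit 32) (.ev (nat_lit 52)
 (nat_lit 4427037679874) (.ev (nat_lit 148) (nat_lit 34359738368) (.ev (nat_lit 340) (nat_lit 549755813888)
 (.ev (nat_lit 436) (nat_lit 274877906944) (.ev (nat_lit 532) (nat_lit 137438953472) (.nd (nat_lit 1264) (.br
 (nat_lit 2) (.br (nat_lit 1) (.ch (nat_lit 0) (.ev (nat_lit 1280) (nat_lit 40108160) .dd)) (.ch (nat_lit 1)
 (.ev (nat_lit 1280) (nat_lit 6291584) (.fin (nat_lit 576443709884154424))))) (.br (nat_lit 3) (.ch (nat_lit 2)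
 (.ev (nat_lit 1280) (nat_lit 33816576) (.ev (nat_lit 1360) (nat_lit 6291456) (.ev (nat_lit 1373) (nat_lit 128)
 .dd)))) (.br (nat_lit 6) (.ch (nat_lit 3) (.ev (nat_lit 1280) (nat_lit 40108032) (.ev (nat_lit 1293) (nat_lit
 128) .dd))) (.ch (nat_lit 6) (.ev (nat_lit 1280) (nat_lit 33816576) (.ev (nat_lit 1328) (nat_lit 4194432) (.ev
 (nat_lit 1341) (nat_lit 2097152) .dd))))))))))))))))) (.br (nat_lit 42) (.br (nat_lit 36) (.br (nat_lit 35)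
 (.ch (nat_lit 33) (.ev (nat_lit 52) (nat_lit 4433515905026) (.ev (nat_lit 180) (nat_lit 17179869184) (.ev
 (nat_lit 244) (nat_lit 137438953472) (.ev (nat_lit 340) (nat_lit 274877906944) (.ev (nat_lit 596) (nat_lit
 131072) (.ev (nat_lit 1072) (nat_lit 4194304) (.nd (nat_lit 1264) (.br (nat_lit 3) (.br (nat_lit 1) (.ch
 (nat_lit 0) (.ev (nat_lit 1280) (nat_lit 128) (.ev (nat_lit 1312) (nat_lit 2147483648) (.ev (nat_lit 1392)
 (nat_lit 256) (.ev (nat_lit 1472) (nat_lit 8192) (.ev (nat_lit 1568) (nat_lit 558345748480) .dd)))))) (.ch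
 (nat_lit 1) (.ev (nat_lit 1280) (nat_lit 558345757056) (.ev (nat_lit 1293) (nat_lit 2147483648) .dd)))) (.br
 (nat_lit 6) (.ch (nat_lit 3) (.ev (nat_lit 1280) (nat_lit 560493240576) (.ev (nat_lit 1293) (nat_lit 128)
 .dd))) (.ch (nat_lit 6) (.ev (nat_lit 1280) (nat_lit 560493240704) .dd)))))))))))) (.ch (nat_lit 35) (.ev
 (nat_lit 52) (nat_lit 181466956160) (.ev (nat_lit 148) (nat_lit 17179869184) (.ev (nat_lit 404) (nat_lit 2)
 (.ev (nat_lit 436) (nat_lit 33554432) (.ev (nat_lit 564) (nat_lit 8192) (.ev (nat_lit 864) (nat_lit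
 274877906944) (.nd (nat_lit 1264) (.br (nat_lit 3) (.ch (nat_lit 1) (.ev (nat_lit 1280) (nat_lit
 4398048608256) (.fin (nat_lit 576461302059713068)))) (.br (nat_lit 6) (.ch (nat_lit 3) (.ev (nat_lit 1280)
 (nat_lit 551905394688) (.ev (nat_lit 1293) (nat_lit 4398046511104) .dd))) (.ch (nat_lit 6) (.ev (nat_lit 1280)
 (nat_lit 551903297536) (.ev (nat_lit 1424) (nat_lit 2097152) (.ev (nat_lit 1437) (nat_lit 4398046511104)
 .dd))))))))))))))) (.br (nat_lit 38) (.ch (nat_lit 36) (.ev (nat_lit 52) (nat_lit 827859280128) (.ev (nat_lit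
 256) (nat_lit 4595650920578) .dd))) (.ch (nat_lit 38) (.ev (nat_lit 52) (nat_lit 4968241430658) (.ev (nat_lit
 212) (nat_lit 8589934592) (.ev (nat_lit 244) (nat_lit 131072) (.ev (nat_lit 276) (nat_lit 256) (.nd (nat_lit
 1264) (.br (nat_lit 3) (.br (nat_lit 1) (.ch (nat_lit 0) (.ev (nat_lit 1280) (nat_lit 137441050624) (.ev
 (nat_lit 1376) (nat_lit 274877906944) (.fin (nat_lit 576448107926471212))))) (.ch (nat_lit 1) (.ev (nat_lit
 1280) (nat_lit 446678704128) .dd))) (.br (nat_lit 6) (.ch (nat_lit 3) (.ev (nat_lit 1280) (nat_lit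
 274880012288) (.ev (nat_lit 1408) (nat_lit 34359738368) (.ev (nat_lit 1421) (nat_lit 137438953472) .dd))))
 (.ch (nat_lit 6) (.ev (nat_lit 1280) (nat_lit 446676606976) (.ev (nat_lit 1293) (nat_lit 2097152)
 .dd))))))))))))) (.br (nat_lit 45) (.br (nat_lit 44) (.ch (nat_lit 42) (.ev (nat_lit 52) (nat_lit
 4408788516992) (.ev (nat_lit 212) (nat_lit 137438953472) (.ev (nat_lit 276) (nat_lit 17179869184) (.ev
 (nat_lit 436) (nat_lit 549755813888) (.ev (nat_lit 564) (nat_lit 33554432) (.nd (nat_lit 1264) (.br (nat_lit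
 2) (.ch (nat_lit 1) (.ev (nat_lit 1280) (nat_lit 34361843968) (.ev (nat_lit 1328) (nat_lit 1073741824) (.fin
 (nat_lit 576463501084017215))))) (.br (nat_lit 3) (.ch (nat_lit 2) (.ev (nat_lit 1280) (nat_lit 310311387394)
 (.ev (nat_lit 1392) (nat_lit 2097152) (.ev (nat_lit 1405) (nat_lit 8192) .dd)))) (.ch (nat_lit 3) (.ev
 (nat_lit 1280) (nat_lit 1075838978) (.ev (nat_lit 1408) (nat_lit 8192) (.ev (nat_lit 1520) (nat_lit
 274877906944) (.fin (nat_lit 576470098152735300))))))))))))))) (.ch (nat_lit 44) (.ev (nat_lit 52) (nat_lit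
 311387357312) (.ev (nat_lit 148) (nat_lit 2) (.ev (nat_lit 340) (nat_lit 1073741824) (.ev (nat_lit 372)
 (nat_lit 137438953472) (.ev (nat_lit 404) (nat_lit 262144) (.ev (nat_lit 436) (nat_lit 256) (.ev (nat_lit 468)
 (nat_lit 4398046511104) (.ev (nat_lit 564) (nat_lit 4194304) (.ev (nat_lit 880) (nat_lit 8589934592) (.nd
 (nat_lit 1264) (.br (nat_lit 1) (.ch (nat_lit 0) (.ev (nat_lit 1280) (nat_lit 549789368320) (.ev (nat_lit
 1424) (nat_lit 8192) (.ev (nat_lit 1437) (nat_lit 17179869184) .dd)))) (.br (nat_lit 3) (.ch (nat_lit 1) (.ev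
 (nat_lit 1280) (nat_lit 17179877376) (.ev (nat_lit 1408) (nat_lit 549755813888) (.ev (nat_lit 1421) (nat_lit
 33554432) .dd)))) (.ch (nat_lit 3) (.ev (nat_lit 1280) (nat_lit 566969245696) .dd)))))))))))))))) (.br
 (nat_lit 46) (.ch (nat_lit 45) (.ev (nat_lit 52) (nat_lit 467077955968) (.ev (nat_lit 384) (nat_lit
 4956432244738) .dd))) (.ch (nat_lit 46) (.ev (nat_lit 52) (nat_lit 842923384834) (.ev (nat_lit 308) (nat_lit
 137438953472) (.ev (nat_lit 848) (nat_lit 4398046511360) (.nd (nat_lit 1264) (.br (nat_lit 2) (.ch (nat_lit 1)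
 (.ev (nat_lit 1280) (nat_lit 42949673088) (.ev (nat_lit 1296) (nat_lit 2151677952) .dd))) (.br (nat_lit 3)
 (.ch (nat_lit 2) (.ev (nat_lit 1280) (nat_lit 2151677952) (.ev (nat_lit 1376) (nat_lit 128) (.ev (nat_lit
 1424) (nat_lit 8589934592) (.ev (nat_lit 1437) (nat_lit 34359738368) .dd))))) (.ch (nat_lit 3) (.ev (nat_lit
 1280) (nat_lit 45101351040) .dd))))))))))))))))

/-- Subtrie. -/
noncomputable def T3 : Tr := (.ev (nat_lit 20) (nat_lit 138580066688) (.nd (nat_lit 33) (.br (nat_lit 25) (.br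
 (nat_lit 14) (.br (nat_lit 5) (.br (nat_lit 2) (.ch (nat_lit 1) (.ev (nat_lit 52) (nat_lit 4956430017072) (.ev
 (nat_lit 116) (nat_lit 68719476736) (.ev (nat_lit 180) (nat_lit 274877906944) (.ev (nat_lit 404) (nat_lit 2)
 (.ev (nat_lit 500) (nat_lit 17179869184) (.ev (nat_lit 576) (nat_lit 36509455424) .dd))))))) (.br (nat_lit 3)
 (.ch (nat_lit 2) (.ev (nat_lit 52) (nat_lit 377990689376) (.ev (nat_lit 212) (nat_lit 16) (.ev (nat_lit 244)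
 (nat_lit 17179869184) (.ev (nat_lit 276) (nat_lit 2) (.ev (nat_lit 372) (nat_lit 1024) (.ev (nat_lit 704)
 (nat_lit 4398046511104) (.nd (nat_lit 1264) (.br (nat_lit 2) (.ch (nat_lit 0) (.ev (nat_lit 1280) (nat_lit
 549755813888) (.ev (nat_lit 1424) (nat_lit 2097152) (.ev (nat_lit 1508) (nat_lit 8594128896) (.fin (nat_lit
 576456904009007672)))))) (.br (nat_lit 5) (.ch (nat_lit 2) (.ev (nat_lit 1280) (nat_lit 10739646464) (.ev
 (nat_lit 1392) (nat_lit 549755813888) (.ev (nat_lit 1405) (nat_lit 4194304) .dd)))) (.ch (nat_lit 5) (.ev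
 (nat_lit 1280) (nat_lit 551907622912) (.ev (nat_lit 1392) (nat_lit 2097152) (.ev (nat_lit 1405) (nat_lit
 8589934592) .dd)))))))))))))) (.ch (nat_lit 3) (.ev (nat_lit 52) (nat_lit 369371516960) (.ev (nat_lit 84)
 (nat_lit 2147483648) (.ev (nat_lit 192) (nat_lit 4982197724754) .dd)))))) (.br (nat_lit 11) (.br (nat_lit 9)
 (.ch (nat_lit 5) (.ev (nat_lit 52) (nat_lit 362960524290) (.ev (nat_lit 352) (nat_lit 4990756201072) .dd)))
 (.ch (nat_lit 9) (.ev (nat_lit 52) (nat_lit 5025147400722) (.ev (nat_lit 308) (nat_lit 17179869184) (.ev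
 (nat_lit 404) (nat_lit 4194304) (.ev (nat_lit 1024) (nat_lit 32) (.nd (nat_lit 1264) (.br (nat_lit 3) (.ch
 (nat_lit 0) (.ev (nat_lit 1280) (nat_lit 34359738368) (.ev (nat_lit 1408) (nat_lit 274877906944) (.ev (nat_lit
 1424) (nat_lit 1024) (.ev (nat_lit 1540) (nat_lit 64) (.nd (nat_lit 1648) (.br (nat_lit 4) (.ch (nat_lit 2)
 (.ev (nat_lit 1664) (nat_lit 2147614720) .dd)) (.ch (nat_lit 4) (.fin (nat_lit 576456904009007672))))))))))
 (.br (nat_lit 6) (.ch (nat_lit 3) (.ev (nat_lit 1280) (nat_lit 277025522688) (.ev (nat_lit 1508) (nat_lit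
 34359738368) (.ev (nat_lit 1517) (nat_lit 64) .dd)))) (.ch (nat_lit 6) (.ev (nat_lit 1280) (nat_lit
 36507353152) (.ev (nat_lit 1392) (nat_lit 1024) (.ev (nat_lit 1405) (nat_lit 274877906944) .dd)))))))))))))
 (.br (nat_lit 12) (.ch (nat_lit 11) (.ev (nat_lit 52) (nat_lit 337157173296) (.ev (nat_lit 84) (nat_lit
 4398046511104) (.ev (nat_lit 448) (nat_lit 618513040962) .dd)))) (.ch (nat_lit 12) (.ev (nat_lit 52) (nat_lit
 403762586688) (.ev (nat_lit 148) (nat_lit 549755813888) (.ev (nat_lit 564) (nat_lit 4096) (.ev (nat_lit 596)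
 (nat_lit 32) (.ev (nat_lit 1008) (nat_lit 131072) (.ev (nat_lit 1232) (nat_lit 4194304) (.nd (nat_lit 1264)
 (.br (nat_lit 3) (.br (nat_lit 2) (.ch (nat_lit 0) (.ev (nat_lit 1280) (nat_lit 530) (.ev (nat_lit 1376)
 (nat_lit 4398046511104) (.ev (nat_lit 1389) (nat_lit 2147483648) .dd)))) (.ch (nat_lit 2) (.ev (nat_lit 1280)
 (nat_lit 4400193994754) (.ev (nat_lit 1392) (nat_lit 528) .dd)))) (.br (nat_lit 6) (.ch (nat_lit 3) (.ev
 (nat_lit 1280) (nat_lit 528) (.ev (nat_lit 1440) (nat_lit 4398046511106) (.ev (nat_lit 1453) (nat_lit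
 2147483648) .dd)))) (.ch (nat_lit 6) (.ev (nat_lit 1280) (nat_lit 4400193994770) (.ev (nat_lit 1293) (nat_lit
 512) .dd)))))))))))))))) (.br (nat_lit 19) (.br (nat_lit 16) (.br (nat_lit 15) (.ch (nat_lit 14) (.ev (nat_lit
 52) (nat_lit 4973609885698) (.ev (nat_lit 84) (nat_lit 16) (.ev (nat_lit 224) (nat_lit 380106839648) .dd))))
 (.ch (nat_lit 15) (.ev (nat_lit 52) (nat_lit 4718021588482) (.ev (nat_lit 84) (nat_lit 68719476736) (.ev
 (nat_lit 180) (nat_lit 4194304) (.ev (nat_lit 212) (nat_lit 32) (.ev (nat_lit 960) (nat_lit 17179869184) (.ev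
 (nat_lit 1200) (nat_lit 2097152) (.nd (nat_lit 1264) (.br (nat_lit 3) (.br (nat_lit 2) (.ch (nat_lit 0) (.ev
 (nat_lit 1280) (nat_lit 33554448) (.ev (nat_lit 1440) (nat_lit 549755813952) (.ev (nat_lit 1453) (nat_lit
 131072) .dd)))) (.ch (nat_lit 2) (.ev (nat_lit 1280) (nat_lit 549789368336) (.ev (nat_lit 1376) (nat_lit 64)
 (.ev (nat_lit 1389) (nat_lit 131072) .dd))))) (.br (nat_lit 5) (.ch (nat_lit 3) (.ev (nat_lit 1280) (nat_lit
 549755945024) (.ev (nat_lit 1392) (nat_lit 33554448) .dd))) (.ch (nat_lit 5) (.ev (nat_lit 1280) (nat_lit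
 549789499456) (.ev (nat_lit 1293) (nat_lit 16) .dd)))))))))))))) (.br (nat_lit 18) (.ch (nat_lit 16) (.ev
 (nat_lit 52) (nat_lit 5308619423792) (.ev (nat_lit 84) (nat_lit 131072) (.ev (nat_lit 276) (nat_lit
 8589934592) (.ev (nat_lit 532) (nat_lit 2147483648) (.ev (nat_lit 672) (nat_lit 5120) (.ev (nat_lit 1136)
 (nat_lit 64) (.nd (nat_lit 1264) (.br (nat_lit 2) (.ch (nat_lit 0) (.ev (nat_lit 1280) (nat_lit 34359747074)
 .dd)) (.br (nat_lit 3) (.ch (nat_lit 2) (.ev (nat_lit 1280) (nat_lit 34359746562) (.ev (nat_lit 1293) (nat_lit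
 512) .dd))) (.ch (nat_lit 3) (.ev (nat_lit 1280) (nat_lit 512) (.ev (nat_lit 1488) (nat_lit 8192) (.ev
 (nat_lit 1584) (nat_lit 34359738370) .dd)))))))))))))) (.ch (nat_lit 18) (.ev (nat_lit 52) (nat_lit
 285621617682) (.ev (nat_lit 276) (nat_lit 34359738432) (.ev (nat_lit 500) (nat_lit 68719484928) (.ev (nat_lit
 532) (nat_lit 4398046511136) (.nd (nat_lit 1264) (.br (nat_lit 3) (.br (nat_lit 2) (.ch (nat_lit 0) (.ev
 (nat_lit 1280) (nat_lit 549789504000) (.ev (nat_lit 1293) (nat_lit 17179869184) .dd))) (.ch (nat_lit 2) (.ev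
 (nat_lit 1280) (nat_lit 17213554688) (.ev (nat_lit 1328) (nat_lit 549755814400) (.ev (nat_lit 1341) (nat_lit
 4096) .dd))))) (.br (nat_lit 5) (.ch (nat_lit 3) (.ev (nat_lit 1280) (nat_lit 17213554688) (.ev (nat_lit 1328)
 (nat_lit 4608) (.ev (nat_lit 1341) (nat_lit 549755813888) .dd)))) (.br (nat_lit 6) (.ch (nat_lit 5) (.ev
 (nat_lit 1280) (nat_lit 549789504000) (.ev (nat_lit 1293) (nat_lit 17179869184) .dd))) (.ch (nat_lit 6) (.ev
 (nat_lit 1280) (nat_lit 549755817984) (.ev (nat_lit 1344) (nat_lit 33685504) (.fin (nat_lit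
 576461302059713088)))))))))))))))) (.br (nat_lit 21) (.br (nat_lit 20) (.ch (nat_lit 19) (.ev (nat_lit 52)
 (nat_lit 4683701686320) (.ev (nat_lit 116) (nat_lit 512) (.ev (nat_lit 212) (nat_lit 68719476736) (.ev
 (nat_lit 244) (nat_lit 1024) (.ev (nat_lit 736) (nat_lit 8194) (.nd (nat_lit 1264) (.br (nat_lit 5) (.ch
 (nat_lit 2) (.ev (nat_lit 1280) (nat_lit 17179869248) (.ev (nat_lit 1408) (nat_lit 131072) (.ev (nat_lit 1424)
 (nat_lit 549755813888) (.ev (nat_lit 1437) (nat_lit 34359738368) .dd))))) (.br (nat_lit 6) (.ch (nat_lit 5)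
 (.ev (nat_lit 1280) (nat_lit 549755945024) (.ev (nat_lit 1360) (nat_lit 17179869184) (.ev (nat_lit 1373)
 (nat_lit 34359738368) .dd)))) (.ch (nat_lit 6) (.ev (nat_lit 1280) (nat_lit 601295421440) (.ev (nat_lit 1408)
 (nat_lit 131072) (.ev (nat_lit 1421) (nat_lit 64) .dd))))))))))))) (.ch (nat_lit 20) (.ev (nat_lit 52)
 (nat_lit 4406676292160) (.ev (nat_lit 96) (nat_lit 947040433202) .dd)))) (.br (nat_lit 22) (.ch (nat_lit 21)
 (.ev (nat_lit 52) (nat_lit 5050881679938) (.ev (nat_lit 212) (nat_lit 19327352832) (.ev (nat_lit 276) (nat_lit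
 274877906944) (.ev (nat_lit 372) (nat_lit 2097152) (.ev (nat_lit 928) (nat_lit 32) (.nd (nat_lit 1264) (.br
 (nat_lit 3) (.ch (nat_lit 0) (.ev (nat_lit 1280) (nat_lit 8623493136) (.ev (nat_lit 1392) (nat_lit 1024) (.ev
 (nat_lit 1405) (nat_lit 4194304) .dd)))) (.br (nat_lit 5) (.ch (nat_lit 3) (.ev (nat_lit 1280) (nat_lit
 37749776) (.ev (nat_lit 1392) (nat_lit 4096) (.ev (nat_lit 1405) (nat_lit 8589934592) .dd)))) (.ch (nat_lit 5)
 (.ev (nat_lit 1280) (nat_lit 4096) (.ev (nat_lit 1424) (nat_lit 1024) (.ev (nat_lit 1508) (nat_lit 8594128896)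
 (.fin (nat_lit 576456904019493432))))))))))))))) (.ch (nat_lit 22) (.ev (nat_lit 52) (nat_lit 4958544069682)
 (.ev (nat_lit 84) (nat_lit 512) (.ev (nat_lit 212) (nat_lit 8192) (.ev (nat_lit 244) (nat_lit 2097152) (.ev
 (nat_lit 752) (nat_lit 343597383680) (.nd (nat_lit 1264) (.br (nat_lit 3) (.ch (nat_lit 0) (.ev (nat_lit 1280)
 (nat_lit 34393296896) (.ev (nat_lit 1360) (nat_lit 17179869184) (.ev (nat_lit 1373) (nat_lit 64) .dd)))) (.br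
 (nat_lit 6) (.ch (nat_lit 3) (.ev (nat_lit 1280) (nat_lit 51539607552) (.ev (nat_lit 1408) (nat_lit 33554432)
 (.ev (nat_lit 1424) (nat_lit 4096) (.ev (nat_lit 1437) (nat_lit 64) .dd))))) (.ch (nat_lit 6) (.ev (nat_lit
 1280) (nat_lit 17179873344) (.ev (nat_lit 1408) (nat_lit 33554432) (.ev (nat_lit 1421) (nat_lit 34359738368)
 .dd))))))))))))))))) (.br (nat_lit 33) (.br (nat_lit 28) (.br (nat_lit 26) (.ch (nat_lit 25) (.ev (nat_lit 52)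
 (nat_lit 5231272268882) (.ev (nat_lit 116) (nat_lit 131072) (.ev (nat_lit 148) (nat_lit 34359738368) (.ev
 (nat_lit 244) (nat_lit 32) (.ev (nat_lit 436) (nat_lit 4194304) (.ev (nat_lit 640) (nat_lit 70866969088) (.nd
 (nat_lit 1264) (.br (nat_lit 5) (.ch (nat_lit 2) (.ev (nat_lit 1280) (nat_lit 17213423616) .dd)) (.br (nat_lit
 6) (.ch (nat_lit 5) (.ev (nat_lit 1376) (nat_lit 33554432) (.ev (nat_lit 1389) (nat_lit 17179869184) .dd)))
 (.ch (nat_lit 6) (.ev (nat_lit 1376) (nat_lit 17179869184) (.ev (nat_lit 1389) (nat_lit 33554432)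
 .dd))))))))))))) (.br (nat_lit 27) (.ch (nat_lit 26) (.ev (nat_lit 52) (nat_lit 4449586126930) (.ev (nat_lit
 116) (nat_lit 1024) (.ev (nat_lit 180) (nat_lit 549755813888) (.ev (nat_lit 244) (nat_lit 33554432) (.ev
 (nat_lit 308) (nat_lit 2097152) (.ev (nat_lit 500) (nat_lit 32) (.ev (nat_lit 596) (nat_lit 131072) (.ev
 (nat_lit 816) (nat_lit 8594128896) (.nd (nat_lit 1264) (.br (nat_lit 5) (.ch (nat_lit 2) (.ev (nat_lit 1280)
 (nat_lit 68719480832) (.ev (nat_lit 1376) (nat_lit 274877906944) (.ev (nat_lit 1424) (nat_lit 2147483648) (.ev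
 (nat_lit 1437) (nat_lit 512) .dd))))) (.br (nat_lit 6) (.ch (nat_lit 5) (.ev (nat_lit 1280) (nat_lit
 277025391104) (.ev (nat_lit 1296) (nat_lit 68719480832) .dd))) (.ch (nat_lit 6) (.ev (nat_lit 1280) (nat_lit
 345744871936) .dd)))))))))))))) (.ch (nat_lit 27) (.ev (nat_lit 52) (nat_lit 120265516098) (.ev (nat_lit 148)
 (nat_lit 4096) (.ev (nat_lit 564) (nat_lit 549755813888) (.ev (nat_lit 596) (nat_lit 4398046511104) (.ev
 (nat_lit 992) (nat_lit 33554432) (.ev (nat_lit 1248) (nat_lit 8589934592) (.nd (nat_lit 1264) (.br (nat_lit 5)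
 (.br (nat_lit 3) (.ch (nat_lit 2) (.ev (nat_lit 1280) (nat_lit 2147484160) (.ev (nat_lit 1440) (nat_lit
 274877906976) (.ev (nat_lit 1453) (nat_lit 16) .dd)))) (.ch (nat_lit 3) (.ev (nat_lit 1280) (nat_lit
 274877906992) (.ev (nat_lit 1392) (nat_lit 2147484160) .dd)))) (.br (nat_lit 6) (.ch (nat_lit 5) (.ev (nat_lit
 1280) (nat_lit 277025391104) (.ev (nat_lit 1376) (nat_lit 32) (.ev (nat_lit 1389) (nat_lit 16) .dd)))) (.ch
 (nat_lit 6) (.ev (nat_lit 1280) (nat_lit 277025390640) (.ev (nat_lit 1293) (nat_lit 512) .dd)))))))))))))))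
 (.br (nat_lit 31) (.br (nat_lit 29) (.ch (nat_lit 28) (.ev (nat_lit 52) (nat_lit 861147239458) (.ev (nat_lit
 116) (nat_lit 33554432) (.ev (nat_lit 148) (nat_lit 64) (.ev (nat_lit 244) (nat_lit 4398046511104) (.ev
 (nat_lit 436) (nat_lit 8589934592) (.ev (nat_lit 656) (nat_lit 68719485456) (.nd (nat_lit 1264) (.br (nat_lit
 3) (.ch (nat_lit 0) (.ev (nat_lit 1376) (nat_lit 131072) (.ev (nat_lit 1389) (nat_lit 17179869184) .dd))) (.br
 (nat_lit 6) (.ch (nat_lit 3) (.ev (nat_lit 1280) (nat_lit 17180000256) .dd)) (.ch (nat_lit 6) (.ev (nat_lit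
 1376) (nat_lit 17179869184) (.ev (nat_lit 1389) (nat_lit 131072) .dd))))))))))))) (.ch (nat_lit 29) (.ev
 (nat_lit 52) (nat_lit 5059511465056) (.nd (nat_lit 1264) (.br (nat_lit 3) (.br (nat_lit 2) (.ch (nat_lit 0)
 (.ev (nat_lit 1280) (nat_lit 277025391122) (.ev (nat_lit 1293) (nat_lit 17179869184) .dd))) (.ch (nat_lit 2)
 (.ev (nat_lit 1280) (nat_lit 292057776130) (.ev (nat_lit 1328) (nat_lit 528) (.ev (nat_lit 1341) (nat_lit
 2147483648) .dd))))) (.br (nat_lit 5) (.ch (nat_lit 3) (.ev (nat_lit 1280) (nat_lit 292057776130) (.ev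
 (nat_lit 1328) (nat_lit 2147484160) (.ev (nat_lit 1341) (nat_lit 16) .dd)))) (.br (nat_lit 6) (.ch (nat_lit 5)
 (.ev (nat_lit 1280) (nat_lit 277025391122) (.ev (nat_lit 1293) (nat_lit 17179869184) .dd))) (.ch (nat_lit 6)
 (.ev (nat_lit 1280) (nat_lit 2147483664) (.ev (nat_lit 1344) (nat_lit 274877906946) (.fin (nat_lit
 576461302059713088)))))))))))) (.br (nat_lit 32) (.ch (nat_lit 31) (.ev (nat_lit 52) (nat_lit 893359489650)
 (.ev (nat_lit 84) (nat_lit 8192) (.ev (nat_lit 180) (nat_lit 8589934592) (.ev (nat_lit 212) (nat_lit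
 4398046511104) (.ev (nat_lit 976) (nat_lit 17179869184) (.ev (nat_lit 1216) (nat_lit 1024) (.nd (nat_lit 1264)
 (.br (nat_lit 3) (.br (nat_lit 2) (.ch (nat_lit 0) (.ev (nat_lit 1280) (nat_lit 34393427968) (.ev (nat_lit
 1293) (nat_lit 2147483648) .dd))) (.ch (nat_lit 2) (.ev (nat_lit 1280) (nat_lit 34393296896) (.ev (nat_lit
 1392) (nat_lit 2147614720) .dd)))) (.br (nat_lit 5) (.ch (nat_lit 3) (.ev (nat_lit 1280) (nat_lit 2147618816)
 (.ev (nat_lit 1376) (nat_lit 34359738368) (.ev (nat_lit 1389) (nat_lit 33554432) .dd)))) (.ch (nat_lit 5) (.ev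
 (nat_lit 1280) (nat_lit 2147614720) (.ev (nat_lit 1440) (nat_lit 34359742464) (.ev (nat_lit 1453) (nat_lit
 33554432) .dd)))))))))))))) (.ch (nat_lit 32) (.ev (nat_lit 52) (nat_lit 4425963942946) (.ev (nat_lit 84)
 (nat_lit 33554432) (.ev (nat_lit 276) (nat_lit 4194304) (.ev (nat_lit 532) (nat_lit 16) (.ev (nat_lit 688)
 (nat_lit 549757911040) (.ev (nat_lit 1120) (nat_lit 34359738368) (.nd (nat_lit 1264) (.br (nat_lit 3) (.ch
 (nat_lit 2) (.ev (nat_lit 1280) (nat_lit 512) (.ev (nat_lit 1488) (nat_lit 68719476736) (.ev (nat_lit 1584)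
 (nat_lit 274877907008) .dd)))) (.br (nat_lit 5) (.ch (nat_lit 3) (.ev (nat_lit 1280) (nat_lit 343597383744)
 (.ev (nat_lit 1293) (nat_lit 512) .dd))) (.ch (nat_lit 5) (.ev (nat_lit 1280) (nat_lit 343597384256)
 .dd))))))))))))))) (.br (nat_lit 42) (.br (nat_lit 36) (.br (nat_lit 35) (.ch (nat_lit 33) (.ev (nat_lit 52)
 (nat_lit 4432441902674) (.ev (nat_lit 308) (nat_lit 131072) (.ev (nat_lit 372) (nat_lit 68719476736) (.ev
 (nat_lit 404) (nat_lit 4096) (.ev (nat_lit 468) (nat_lit 2147483648) (.ev (nat_lit 1088) (nat_lit 8192) (.nd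
 (nat_lit 1264) (.br (nat_lit 5) (.br (nat_lit 2) (.ch (nat_lit 0) (.ev (nat_lit 1280) (nat_lit 274877906944)
 (.ev (nat_lit 1312) (nat_lit 32) (.ev (nat_lit 1392) (nat_lit 17179869184) (.ev (nat_lit 1472) (nat_lit
 4194304) (.ev (nat_lit 1632) (nat_lit 558345748480) .dd)))))) (.ch (nat_lit 2) (.ev (nat_lit 1280) (nat_lit
 850407718912) (.ev (nat_lit 1293) (nat_lit 32) .dd)))) (.br (nat_lit 6) (.ch (nat_lit 5) (.ev (nat_lit 1280)
 (nat_lit 850407718944) .dd)) (.ch (nat_lit 6) (.ev (nat_lit 1280) (nat_lit 575529812000) (.ev (nat_lit 1293)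
 (nat_lit 274877906944) .dd))))))))))))) (.ch (nat_lit 35) (.ev (nat_lit 52) (nat_lit 42953999904) (.ev
 (nat_lit 64) (nat_lit 5310762725458) .dd)))) (.br (nat_lit 38) (.ch (nat_lit 36) (.ev (nat_lit 52) (nat_lit
 895505020448) (.ev (nat_lit 372) (nat_lit 17179869184) (.ev (nat_lit 404) (nat_lit 8589934592) (.ev (nat_lit
 1040) (nat_lit 4398046511104) (.nd (nat_lit 1264) (.br (nat_lit 5) (.ch (nat_lit 2) (.ev (nat_lit 1280)
 (nat_lit 35651602) (.ev (nat_lit 1508) (nat_lit 64) (.ev (nat_lit 1517) (nat_lit 34359738368) .dd)))) (.br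
 (nat_lit 6) (.ch (nat_lit 5) (.ev (nat_lit 1280) (nat_lit 64) (.ev (nat_lit 1408) (nat_lit 2) (.ev (nat_lit
 1424) (nat_lit 2097152) (.ev (nat_lit 1540) (nat_lit 34359738368) (.nd (nat_lit 1648) (.br (nat_lit 6) (.ch
 (nat_lit 1) (.ev (nat_lit 1664) (nat_lit 33554448) .dd)) (.ch (nat_lit 6) (.fin (nat_lit
 576456904019493432)))))))))) (.ch (nat_lit 6) (.ev (nat_lit 1280) (nat_lit 34393292880) (.ev (nat_lit 1392)
 (nat_lit 2097152) (.ev (nat_lit 1405) (nat_lit 2) .dd)))))))))))) (.ch (nat_lit 38) (.ev (nat_lit 52) (nat_lit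
 5035886904402) (.ev (nat_lit 84) (nat_lit 32) (.ev (nat_lit 480) (nat_lit 317829820928) .dd)))))) (.br
 (nat_lit 45) (.br (nat_lit 44) (.ch (nat_lit 42) (.ev (nat_lit 52) (nat_lit 4477507736096) (.ev (nat_lit 116)
 (nat_lit 8192) (.ev (nat_lit 180) (nat_lit 2) (.ev (nat_lit 404) (nat_lit 274877906944) (.ev (nat_lit 468)
 (nat_lit 17179869184) (.ev (nat_lit 512) (nat_lit 584151204944) .dd))))))) (.ch (nat_lit 44) (.ev (nat_lit 52)
 (nat_lit 311387358816) (.ev (nat_lit 308) (nat_lit 33554432) (.ev (nat_lit 372) (nat_lit 8192) (.ev (nat_lit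
 404) (nat_lit 549755813888) (.ev (nat_lit 468) (nat_lit 16) (.ev (nat_lit 1104) (nat_lit 68719476736) (.nd
 (nat_lit 1264) (.br (nat_lit 5) (.br (nat_lit 3) (.ch (nat_lit 0) (.ev (nat_lit 1280) (nat_lit 4423820513282)
 .dd)) (.ch (nat_lit 3) (.ev (nat_lit 1280) (nat_lit 25774002178) (.ev (nat_lit 1293) (nat_lit 4398046511104)
 .dd)))) (.br (nat_lit 6) (.ch (nat_lit 5) (.ev (nat_lit 1280) (nat_lit 2) (.ev (nat_lit 1312) (nat_lit
 4398046511104) (.ev (nat_lit 1392) (nat_lit 17179869184) (.ev (nat_lit 1472) (nat_lit 8589934592) (.ev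
 (nat_lit 1632) (nat_lit 4198400) .dd)))))) (.ch (nat_lit 6) (.ev (nat_lit 1280) (nat_lit 4423820513280) (.ev
 (nat_lit 1293) (nat_lit 2) .dd)))))))))))))) (.br (nat_lit 46) (.ch (nat_lit 45) (.ev (nat_lit 52) (nat_lit
 397284474976) (.ev (nat_lit 116) (nat_lit 2097152) (.ev (nat_lit 180) (nat_lit 4096) (.ev (nat_lit 244)
 (nat_lit 131072) (.ev (nat_lit 308) (nat_lit 1024) (.ev (nat_lit 500) (nat_lit 4398046511104) (.ev (nat_lit
 596) (nat_lit 33554432) (.ev (nat_lit 832) (nat_lit 8594128896) (.nd (nat_lit 1264) (.br (nat_lit 3) (.ch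
 (nat_lit 0) (.ev (nat_lit 1280) (nat_lit 530) (.ev (nat_lit 1296) (nat_lit 549755822080) .dd))) (.br (nat_lit
 6) (.ch (nat_lit 3) (.ev (nat_lit 1280) (nat_lit 549755822080) (.ev (nat_lit 1376) (nat_lit 2) (.ev (nat_lit
 1424) (nat_lit 16) (.ev (nat_lit 1437) (nat_lit 512) .dd))))) (.ch (nat_lit 6) (.ev (nat_lit 1280) (nat_lit
 549755822610) .dd)))))))))))))) (.ch (nat_lit 46) (.ev (nat_lit 52) (nat_lit 841849381906) (.ev (nat_lit 288)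
 (nat_lit 4511867343456) .dd))))))))))

/-- The trie. -/
noncomputable def T : Tr := .nd (nat_lit 1000000) (.br (nat_lit 1) (.ch (nat_lit 0) (.ev (nat_lit 0) (nat_lit 8796093022207) .dd)) (.br (nat_lit 3) (.ch (nat_lit 1) T1) (.ch (nat_lit 3) T3)))

/-- The possible values. -/
noncomputable def oks : List ℕ := [2, 18, 162, 802]

/-- The parameters. -/
noncomputable def S : Pr := ⟨fun i l e => lget mz (lget [] (lget [] tabs i) l) e, oks, [(nat_lit 0), (nat_lit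
 1), (nat_lit 0), (nat_lit 0)], T, (nat_lit 8796093022207), (nat_lit 3303796230157), (nat_lit 43), [(nat_lit
 1), (nat_lit 12800101590481)], [(nat_lit 343), (nat_lit 2209)]⟩

/-- Nothing known. -/
noncomputable def cs0 : Cs := (.cons (nat_lit 7) (nat_lit 0) (nat_lit 1) (.cons (nat_lit 47) (nat_lit 0) (nat_lit 1) .nil))

theorem part_1 : part S cs0 (nat_lit 1) = true := by decide +kernel

theorem part_3 : part S cs0 (nat_lit 3) = true := by decide +kernel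

/-- Data of a prime. -/
noncomputable def D0 : PD := ⟨(nat_lit 7), (nat_lit 3), (224, 1, 2), (328, 287, 60), (329, 250, 221)⟩

theorem D0_ok : D0.Ok := pdb_sound (s := 1) (C := ⟨⟨7, -2, -11, 7, 2, 4, 0, 3, -1⟩, (5, 2, 3)⟩) (by show Nat.Prime 7; norm_num) (by decide +kernel)

/-- Lines of the first type. -/
noncomputable def Cl0 : List C1 := [⟨⟨7, 2, -11, 7, -2, 4, 0, -3, -1⟩, (6, 1, 5)⟩,
  ⟨⟨0, 0, 0, 0, 0, 0, 0, 0, 0⟩, (0, 0, 0)⟩,
  ⟨⟨0, 0, 0, 0, 0, 0, 0, 0, 0⟩, (0, 0, 0)⟩,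
  ⟨⟨0, 0, 0, 0, 0, 0, 0, 0, 0⟩, (0, 0, 0)⟩,
  ⟨⟨0, 0, 0, 0, 0, 0, 0, 0, 0⟩, (0, 0, 0)⟩,
  ⟨⟨0, 0, 0, 0, 0, 0, 0, 0, 0⟩, (0, 0, 0)⟩,
  ⟨⟨0, 0, 0, 0, 0, 0, 0, 0, 0⟩, (0, 0, 0)⟩]

/-- Data of a prime. -/
noncomputable def D1 : PD := ⟨(nat_lit 47), (nat_lit 2), (1034, 1, 9), (105, 517, 2039), (987, 5, 190)⟩

theorem D1_ok : D1.Ok := pdb_sound (s := 1) (C := ⟨⟨47, 2, -76, 47, -2, 29, 0, -21, -1⟩, (2, 45, 26)⟩) (by show Nat.Prime 47; norm_num) (by decide +kernel)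

/-- Lines of the first type. -/
noncomputable def Cl1 : List C1 := [⟨⟨47, -2, -76, 47, 2, 29, 0, 21, -1⟩, (9, 38, 23)⟩,
  ⟨⟨0, 0, 0, 0, 0, 0, 0, 0, 0⟩, (0, 0, 0)⟩,
  ⟨⟨0, 0, 0, 0, 0, 0, 0, 0, 0⟩, (0, 0, 0)⟩,
  ⟨⟨0, 0, 0, 0, 0, 0, 0, 0, 0⟩, (0, 0, 0)⟩,
  ⟨⟨17, 22, -76, -63, 18, 19, -4, -19, -7⟩, (10, 21, 17)⟩,
  ⟨⟨0, 0, 0, 0, 0, 0, 0, 0, 0⟩, (0, 0, 0)⟩,
  ⟨⟨57, -18, -61, -23, -62, 4, -8, 5, -17⟩, (3, 26, 7)⟩,
  ⟨⟨57, 18, -61, -23, 62, 4, -8, -5, -17⟩, (16, 29, 6)⟩,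
  ⟨⟨53, -22, -64, -13, -62, 29, -12, -3, -13⟩, (46, 10, 2)⟩,
  ⟨⟨0, 0, 0, 0, 0, 0, 0, 0, 0⟩, (0, 0, 0)⟩,
  ⟨⟨43, -38, -59, 3, -42, 56, -16, -11, -1⟩, (35, 9, 46)⟩,
  ⟨⟨0, 0, 0, 0, 0, 0, 0, 0, 0⟩, (0, 0, 0)⟩,
  ⟨⟨0, 0, 0, 0, 0, 0, 0, 0, 0⟩, (0, 0, 0)⟩,
  ⟨⟨-17, -22, -59, -63, 18, 44, 4, 19, -11⟩, (15, 39, 2)⟩,
  ⟨⟨0, 0, 0, 0, 0, 0, 0, 0, 0⟩, (0, 0, 0)⟩,
  ⟨⟨0, 0, 0, 0, 0, 0, 0, 0, 0⟩, (0, 0, 0)⟩,
  ⟨⟨0, 0, 0, 0, 0, 0, 0, 0, 0⟩, (0, 0, 0)⟩,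
  ⟨⟨53, 22, -64, -13, 62, 29, -12, 3, -13⟩, (41, 13, 12)⟩,
  ⟨⟨0, 0, 0, 0, 0, 0, 0, 0, 0⟩, (0, 0, 0)⟩,
  ⟨⟨0, 0, 0, 0, 0, 0, 0, 0, 0⟩, (0, 0, 0)⟩,
  ⟨⟨0, 0, 0, 0, 0, 0, 0, 0, 0⟩, (0, 0, 0)⟩,
  ⟨⟨0, 0, 0, 0, 0, 0, 0, 0, 0⟩, (0, 0, 0)⟩,
  ⟨⟨0, 0, 0, 0, 0, 0, 0, 0, 0⟩, (0, 0, 0)⟩,
  ⟨⟨43, 38, -59, 3, 42, 56, -16, 11, -1⟩, (5, 8, 20)⟩,
  ⟨⟨3, -42, -59, 43, -38, 16, 16, 11, -17⟩, (39, 42, 20)⟩,
  ⟨⟨0, 0, 0, 0, 0, 0, 0, 0, 0⟩, (0, 0, 0)⟩,
  ⟨⟨0, 0, 0, 0, 0, 0, 0, 0, 0⟩, (0, 0, 0)⟩,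
  ⟨⟨0, 0, 0, 0, 0, 0, 0, 0, 0⟩, (0, 0, 0)⟩,
  ⟨⟨0, 0, 0, 0, 0, 0, 0, 0, 0⟩, (0, 0, 0)⟩,
  ⟨⟨0, 0, 0, 0, 0, 0, 0, 0, 0⟩, (0, 0, 0)⟩,
  ⟨⟨-13, -62, -16, 53, -22, 11, 12, 3, -25⟩, (34, 6, 12)⟩,
  ⟨⟨0, 0, 0, 0, 0, 0, 0, 0, 0⟩, (0, 0, 0)⟩,
  ⟨⟨0, 0, 0, 0, 0, 0, 0, 0, 0⟩, (0, 0, 0)⟩,
  ⟨⟨0, 0, 0, 0, 0, 0, 0, 0, 0⟩, (0, 0, 0)⟩,
  ⟨⟨17, -22, -76, -63, -18, 19, -4, 19, -7⟩, (15, 8, 2)⟩,
  ⟨⟨0, 0, 0, 0, 0, 0, 0, 0, 0⟩, (0, 0, 0)⟩,
  ⟨⟨0, 0, 0, 0, 0, 0, 0, 0, 0⟩, (0, 0, 0)⟩,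
  ⟨⟨3, 42, -59, 43, 38, 16, 16, -11, -17⟩, (38, 12, 46)⟩,
  ⟨⟨0, 0, 0, 0, 0, 0, 0, 0, 0⟩, (0, 0, 0)⟩,
  ⟨⟨-13, 62, -16, 53, 22, 11, 12, -3, -25⟩, (37, 1, 2)⟩,
  ⟨⟨23, 62, -19, 57, -18, 4, 8, -5, -25⟩, (29, 31, 6)⟩,
  ⟨⟨23, -62, -19, 57, 18, 4, 8, 5, -25⟩, (26, 44, 7)⟩,
  ⟨⟨0, 0, 0, 0, 0, 0, 0, 0, 0⟩, (0, 0, 0)⟩,
  ⟨⟨-17, 22, -59, -63, -18, 44, 4, -19, -11⟩, (10, 26, 17)⟩,
  ⟨⟨0, 0, 0, 0, 0, 0, 0, 0, 0⟩, (0, 0, 0)⟩,
  ⟨⟨0, 0, 0, 0, 0, 0, 0, 0, 0⟩, (0, 0, 0)⟩,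
  ⟨⟨0, 0, 0, 0, 0, 0, 0, 0, 0⟩, (0, 0, 0)⟩]

/-- Data of a prime. -/
noncomputable def Dm : PD := ⟨(nat_lit 43), (nat_lit 2), (989, 1, 17), (1652, 774, 636), (172, 5, 130)⟩

theorem Dm_ok : Dm.Ok := pdb_sound (s := 1) (C := ⟨⟨43, -38, -44, 43, 38, 1, 0, 9, -19⟩, (5, 38, 9)⟩) (by show Nat.Prime 43; norm_num) (by decide +kernel)

/-- Lines of the first type. -/
noncomputable def Clm : List C1 := [⟨⟨43, 38, -44, 43, -38, 1, 0, -9, -19⟩, (42, 1, 24)⟩,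
  ⟨⟨0, 0, 0, 0, 0, 0, 0, 0, 0⟩, (0, 0, 0)⟩,
  ⟨⟨57, -18, -16, -17, -58, 1, 4, 1, -23⟩, (41, 27, 24)⟩,
  ⟨⟨7, -38, -56, -33, -42, 49, -16, 7, -1⟩, (28, 40, 22)⟩,
  ⟨⟨0, 0, 0, 0, 0, 0, 0, 0, 0⟩, (0, 0, 0)⟩,
  ⟨⟨0, 0, 0, 0, 0, 0, 0, 0, 0⟩, (0, 0, 0)⟩,
  ⟨⟨0, 0, 0, 0, 0, 0, 0, 0, 0⟩, (0, 0, 0)⟩,
  ⟨⟨0, 0, 0, 0, 0, 0, 0, 0, 0⟩, (0, 0, 0)⟩,
  ⟨⟨0, 0, 0, 0, 0, 0, 0, 0, 0⟩, (0, 0, 0)⟩,
  ⟨⟨0, 0, 0, 0, 0, 0, 0, 0, 0⟩, (0, 0, 0)⟩,
  ⟨⟨0, 0, 0, 0, 0, 0, 0, 0, 0⟩, (0, 0, 0)⟩,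
  ⟨⟨27, -18, -71, -53, -22, 4, -4, 17, -7⟩, (6, 36, 23)⟩,
  ⟨⟨0, 0, 0, 0, 0, 0, 0, 0, 0⟩, (0, 0, 0)⟩,
  ⟨⟨0, 0, 0, 0, 0, 0, 0, 0, 0⟩, (0, 0, 0)⟩,
  ⟨⟨-7, -2, -64, -47, -38, 31, 12, -15, -7⟩, (37, 15, 41)⟩,
  ⟨⟨-7, 2, -64, -47, 38, 31, 12, 15, -7⟩, (3, 14, 1)⟩,
  ⟨⟨-7, 38, -49, 33, 42, 16, 16, -7, -17⟩, (27, 14, 12)⟩,
  ⟨⟨0, 0, 0, 0, 0, 0, 0, 0, 0⟩, (0, 0, 0)⟩,
  ⟨⟨0, 0, 0, 0, 0, 0, 0, 0, 0⟩, (0, 0, 0)⟩,
  ⟨⟨57, 18, -16, -17, 58, 1, 4, -1, -23⟩, (36, 30, 41)⟩,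
  ⟨⟨53, 22, -49, 27, -18, 44, 4, -17, -11⟩, (6, 42, 11)⟩,
  ⟨⟨0, 0, 0, 0, 0, 0, 0, 0, 0⟩, (0, 0, 0)⟩,
  ⟨⟨0, 0, 0, 0, 0, 0, 0, 0, 0⟩, (0, 0, 0)⟩,
  ⟨⟨27, 18, -71, -53, 22, 4, -4, -17, -7⟩, (1, 6, 11)⟩,
  ⟨⟨57, -18, -41, -17, -58, 16, -4, -1, -19⟩, (7, 13, 41)⟩,
  ⟨⟨0, 0, 0, 0, 0, 0, 0, 0, 0⟩, (0, 0, 0)⟩,
  ⟨⟨0, 0, 0, 0, 0, 0, 0, 0, 0⟩, (0, 0, 0)⟩,
  ⟨⟨7, 38, -56, -33, 42, 49, -16, -7, -1⟩, (27, 14, 12)⟩,
  ⟨⟨7, 2, -71, -47, -38, 16, 12, -15, -5⟩, (3, 29, 42)⟩,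
  ⟨⟨7, -2, -71, -47, 38, 16, 12, 15, -5⟩, (37, 28, 2)⟩,
  ⟨⟨0, 0, 0, 0, 0, 0, 0, 0, 0⟩, (0, 0, 0)⟩,
  ⟨⟨0, 0, 0, 0, 0, 0, 0, 0, 0⟩, (0, 0, 0)⟩,
  ⟨⟨53, -22, -49, 27, 18, 44, 4, 17, -11⟩, (36, 37, 23)⟩,
  ⟨⟨0, 0, 0, 0, 0, 0, 0, 0, 0⟩, (0, 0, 0)⟩,
  ⟨⟨0, 0, 0, 0, 0, 0, 0, 0, 0⟩, (0, 0, 0)⟩,
  ⟨⟨0, 0, 0, 0, 0, 0, 0, 0, 0⟩, (0, 0, 0)⟩,
  ⟨⟨0, 0, 0, 0, 0, 0, 0, 0, 0⟩, (0, 0, 0)⟩,
  ⟨⟨0, 0, 0, 0, 0, 0, 0, 0, 0⟩, (0, 0, 0)⟩,
  ⟨⟨0, 0, 0, 0, 0, 0, 0, 0, 0⟩, (0, 0, 0)⟩,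
  ⟨⟨0, 0, 0, 0, 0, 0, 0, 0, 0⟩, (0, 0, 0)⟩,
  ⟨⟨-7, -38, -49, 33, -42, 16, 16, 7, -17⟩, (28, 40, 22)⟩,
  ⟨⟨57, 18, -41, -17, 58, 16, -4, 1, -19⟩, (2, 16, 24)⟩,
  ⟨⟨0, 0, 0, 0, 0, 0, 0, 0, 0⟩, (0, 0, 0)⟩]

/-- Unit moves. -/
noncomputable def U : List Mv := [mz,
  mz,
  ⟨⟨1, 0, 0, 0, -1, 0, 0, 0, 1⟩, .nil, (nat_lit 0), (nat_lit 2), (nat_lit 1), (nat_lit 0), (0, 0, 0), [], 2⟩,
  mz,
  ⟨⟨-1, 0, 1, 0, 1, 0, 0, 0, 1⟩, .nil, (nat_lit 6), (nat_lit 0), (nat_lit 0), (nat_lit 1), (0, 0, 0), [], 1⟩,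
  ⟨⟨-1, 0, 1, 0, -1, 0, 0, 0, 1⟩, .nil, (nat_lit 0), (nat_lit 5), (nat_lit 1), (nat_lit 0), (0, 0, 0), [], 2⟩,
  ⟨⟨-1, 0, 1, 0, 1, 0, 0, 0, 1⟩, .nil, (nat_lit 6), (nat_lit 0), (nat_lit 0), (nat_lit 1), (0, 0, 0), [], 1⟩]

theorem v_ty : tyb Dm S.ty1 Clm = true := by decide +kernel

theorem v_ty0 : tyb D0 (S.tys.getD 0 0) Cl0 = true := by decide +kernel

theorem v_ty1 : tyb D1 (S.tys.getD 1 0) Cl1 = true := by decide +kernel

theorem v_msc : mscb S D0 [D1] Dm (nat_lit 10) = true := by decide +kernel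

theorem v_mv0 : mvsn (nat_lit 1400963263) S D0 [D1] Dm (nat_lit 10) 0 D0 = true := by decide +kernel

theorem v_mv1 : mvsn (nat_lit 1400963263) S D0 [D1] Dm (nat_lit 10) 1 D1 = true := by decide +kernel

theorem v_mm : mmsn (nat_lit 1400963263) S D0 [D1] Dm (nat_lit 10) = true := by decide +kernel

theorem v_un : unb S D0 (nat_lit 10) U = true := by decide +kernel

theorem v_ok : okb S.oks [(0, 0, 0), (0, 0, 0), (0, 0, 0), (0, 0, 0)] = true := by decide +kernel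

theorem v_part : ∀ d < D0.p, (nat_lit 10).testBit d = true → part S (zc (D0 :: [D1])) d = true := by
  intro d hd h
  have h1 : ∀ d < 7, (nat_lit 10).testBit d = true → d = 1 ∨ d = 3 := by decide
  rcases h1 d hd h with rfl | rfl
  · exact part_1
  · exact part_3

theorem main (n : ℕ) (ho : Odd n) (hr : ¬ Rep n) (h0 : Split 7 n) (h1 : Split 47 n) (hm : Split 43 n) :
    n ∈ EE := by
  refine concln (W := nat_lit 1400963263) (S := S) (P0 := D0) (Pl := [D1]) (Pm := Dm) (cn := nat_lit 10) ?_ Dm_ok v_ty ?_ ?_ v_msc ?_ v_mm v_un v_part v_ok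
    n ho hr ?_ hm
  · simp only [List.forall_mem_cons]
    exact ⟨D0_ok, D1_ok, fun _ h => absurd h (by simp)⟩
  · exact all2 (φ := fun j P => ∃ L, tyb P (S.tys.getD j 0) L = true) ⟨_, v_ty0⟩ ⟨_, v_ty1⟩
  · exact all2 (φ := fun j P => Nat.ble (S.pks.getD j 0) (Nat.pow P.p P.K) = true) (by decide +kernel) (by decide +kernel)
  · exact all2 (φ := fun i P => mvsn (nat_lit 1400963263) S D0 [D1] Dm (nat_lit 10) i P = true) v_mv0 v_mv1
  · simp only [List.forall_mem_cons]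
    exact ⟨h0, h1, fun _ h => absurd h (by simp)⟩

end Pool.Agent.Work.MP_9954fe_nt.P7_47_43

namespace Pool.Agent.Work.MP_9954fe_nt.P11_37_47

/-- Dummy move. -/
noncomputable def mz : Mv := ⟨⟨0, 0, 0, 0, 0, 0, 0, 0, 0⟩, .nil, (nat_lit 0), (nat_lit 0), (nat_lit 0), (nat_lit 0), (0, 0, 0), [], 0⟩

/-- Moves. -/
noncomputable def t0_1 : List Mv := [
  ⟨⟨3, 8, -11, -10, -1, 0, 4, -4, -11⟩, (.cons (nat_lit 15242817) (nat_lit 6282365) (nat_lit 2311098) (nat_lit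
 1) (.cons (nat_lit 1792065) (nat_lit 1042828) (nat_lit 1116138) (nat_lit 1) .nil)), (nat_lit 1), (nat_lit 30),
 (nat_lit 15), (nat_lit 1), (4, 5, 9), [14831522, 201655], 4⟩,
  ⟨⟨3, 8, -11, 10, 1, 0, 4, -4, -11⟩, (.cons (nat_lit 6190604) (nat_lit 17063049) (nat_lit 6190617) (nat_lit 1)
 (.cons (nat_lit 106419) (nat_lit 939830) (nat_lit 967109) (nat_lit 1) .nil)), (nat_lit 21), (nat_lit 39),
 (nat_lit 11), (nat_lit 1), (4, 6, 9), [1, 536105], 24⟩,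
  ⟨⟨1, -12, 0, 10, 1, 0, 4, -4, -11⟩, (.cons (nat_lit 13486901) (nat_lit 18743973) (nat_lit 18743974) (nat_lit
 1) (.cons (nat_lit 1046769) (nat_lit 1285028) (nat_lit 1738462) (nat_lit 1) .nil)), (nat_lit 26), (nat_lit 8),
 (nat_lit 11), (nat_lit 1), (5, 6, 9), [4149452, 128885], 24⟩,
  ⟨⟨1, -12, 0, -10, -1, 0, 4, -4, -11⟩, (.cons (nat_lit 10749318) (nat_lit 19050803) (nat_lit 10749329)
 (nat_lit 1) (.cons (nat_lit 1874160) (nat_lit 600115) (nat_lit 1373698) (nat_lit 1) .nil)), (nat_lit 46),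
 (nat_lit 17), (nat_lit 15), (nat_lit 1), (5, 5, 9), [14450835, 337968], 4⟩,
  ⟨⟨1, -12, 0, -10, -1, 0, 4, -4, -11⟩, (.cons (nat_lit 10749318) (nat_lit 19050803) (nat_lit 10749329)
 (nat_lit 1) (.cons (nat_lit 1874160) (nat_lit 600115) (nat_lit 1373698) (nat_lit 1) .nil)), (nat_lit 46),
 (nat_lit 17), (nat_lit 15), (nat_lit 1), (5, 5, 9), [14450835, 337968], 4⟩,
  ⟨⟨1, -12, 0, 10, 1, 0, 4, -4, -11⟩, (.cons (nat_lit 13486901) (nat_lit 18743973) (nat_lit 18743974) (nat_lit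
 1) (.cons (nat_lit 1046769) (nat_lit 1285028) (nat_lit 1738462) (nat_lit 1) .nil)), (nat_lit 26), (nat_lit 8),
 (nat_lit 11), (nat_lit 1), (5, 6, 9), [4149452, 128885], 24⟩,
  ⟨⟨1, -12, 0, -10, -1, 0, 4, -4, -11⟩, (.cons (nat_lit 10749318) (nat_lit 19050803) (nat_lit 10749329)
 (nat_lit 1) (.cons (nat_lit 1874160) (nat_lit 600115) (nat_lit 1373698) (nat_lit 1) .nil)), (nat_lit 46),
 (nat_lit 17), (nat_lit 15), (nat_lit 1), (5, 5, 9), [14450835, 337968], 4⟩,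
  ⟨⟨3, 8, -11, 10, 1, 0, 4, -4, -11⟩, (.cons (nat_lit 6190604) (nat_lit 17063049) (nat_lit 6190617) (nat_lit 1)
 (.cons (nat_lit 106419) (nat_lit 939830) (nat_lit 967109) (nat_lit 1) .nil)), (nat_lit 21), (nat_lit 39),
 (nat_lit 11), (nat_lit 1), (4, 6, 9), [1, 536105], 24⟩,
  ⟨⟨1, -12, 0, -10, -1, 0, 4, -4, -11⟩, (.cons (nat_lit 10749318) (nat_lit 19050803) (nat_lit 10749329)
 (nat_lit 1) (.cons (nat_lit 1874160) (nat_lit 600115) (nat_lit 1373698) (nat_lit 1) .nil)), (nat_lit 46),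
 (nat_lit 17), (nat_lit 15), (nat_lit 1), (5, 5, 9), [14450835, 337968], 4⟩,
  ⟨⟨3, 8, -11, -10, -1, 0, 4, -4, -11⟩, (.cons (nat_lit 15242817) (nat_lit 6282365) (nat_lit 2311098) (nat_lit
 1) (.cons (nat_lit 1792065) (nat_lit 1042828) (nat_lit 1116138) (nat_lit 1) .nil)), (nat_lit 1), (nat_lit 30),
 (nat_lit 15), (nat_lit 1), (4, 5, 9), [14831522, 201655], 4⟩,
  ⟨⟨1, -12, 0, -10, -1, 0, 4, -4, -11⟩, (.cons (nat_lit 10749318) (nat_lit 19050803) (nat_lit 10749329)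
 (nat_lit 1) (.cons (nat_lit 1874160) (nat_lit 600115) (nat_lit 1373698) (nat_lit 1) .nil)), (nat_lit 46),
 (nat_lit 17), (nat_lit 15), (nat_lit 1), (5, 5, 9), [14450835, 337968], 4⟩]

/-- Moves. -/
noncomputable def t0_4 : List Mv := [
  ⟨⟨-11, 0, 0, -4, 5, 12, -2, 8, -5⟩, (.cons (nat_lit 4611151) (nat_lit 18672974) (nat_lit 10896376) (nat_lit
 1) (.cons (nat_lit 1874160) (nat_lit 1616085) (nat_lit 628334) (nat_lit 1) .nil)), (nat_lit 46), (nat_lit 30),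
 (nat_lit 43), (nat_lit 1), (0, 5, 8), [13330250, 699141], 40⟩,
  ⟨⟨9, 8, -5, 4, -5, -12, -2, 8, -5⟩, (.cons (nat_lit 6586237) (nat_lit 5980849) (nat_lit 18545247) (nat_lit 1)
 (.cons (nat_lit 508306) (nat_lit 835026) (nat_lit 329819) (nat_lit 1) .nil)), (nat_lit 15), (nat_lit 8),
 (nat_lit 36), (nat_lit 1), (8, 6, 8), [4509665, 51616], 5⟩,
  ⟨⟨9, 8, -5, 4, -5, -12, -2, 8, -5⟩, (.cons (nat_lit 6586237) (nat_lit 5980849) (nat_lit 18545247) (nat_lit 1)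
 (.cons (nat_lit 508306) (nat_lit 835026) (nat_lit 329819) (nat_lit 1) .nil)), (nat_lit 15), (nat_lit 8),
 (nat_lit 36), (nat_lit 1), (8, 6, 8), [4509665, 51616], 5⟩,
  ⟨⟨9, 8, -5, 4, -5, -12, -2, 8, -5⟩, (.cons (nat_lit 6586237) (nat_lit 5980849) (nat_lit 18545247) (nat_lit 1)
 (.cons (nat_lit 508306) (nat_lit 835026) (nat_lit 329819) (nat_lit 1) .nil)), (nat_lit 15), (nat_lit 8),
 (nat_lit 36), (nat_lit 1), (8, 6, 8), [4509665, 51616], 5⟩,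
  ⟨⟨9, 8, -5, -4, 5, 12, -2, 8, -5⟩, (.cons (nat_lit 19404713) (nat_lit 11515759) (nat_lit 5642825) (nat_lit 1)
 (.cons (nat_lit 1269966) (nat_lit 1440676) (nat_lit 307123) (nat_lit 1) .nil)), (nat_lit 1), (nat_lit 17),
 (nat_lit 43), (nat_lit 1), (8, 5, 8), [18598650, 1330535], 40⟩,
  ⟨⟨-11, 0, 0, 4, -5, -12, -2, 8, -5⟩, (.cons (nat_lit 14857472) (nat_lit 1937884) (nat_lit 16472565) (nat_lit
 1) (.cons (nat_lit 1022071) (nat_lit 813026) (nat_lit 968567) (nat_lit 1) .nil)), (nat_lit 32), (nat_lit 39),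
 (nat_lit 36), (nat_lit 1), (0, 6, 8), [9454230, 86574], 5⟩,
  ⟨⟨9, 8, -5, 4, -5, -12, -2, 8, -5⟩, (.cons (nat_lit 6586237) (nat_lit 5980849) (nat_lit 18545247) (nat_lit 1)
 (.cons (nat_lit 508306) (nat_lit 835026) (nat_lit 329819) (nat_lit 1) .nil)), (nat_lit 15), (nat_lit 8),
 (nat_lit 36), (nat_lit 1), (8, 6, 8), [4509665, 51616], 5⟩,
  ⟨⟨9, 8, -5, -4, 5, 12, -2, 8, -5⟩, (.cons (nat_lit 19404713) (nat_lit 11515759) (nat_lit 5642825) (nat_lit 1)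
 (.cons (nat_lit 1269966) (nat_lit 1440676) (nat_lit 307123) (nat_lit 1) .nil)), (nat_lit 1), (nat_lit 17),
 (nat_lit 43), (nat_lit 1), (8, 5, 8), [18598650, 1330535], 40⟩,
  ⟨⟨-11, 0, 0, 4, -5, -12, -2, 8, -5⟩, (.cons (nat_lit 14857472) (nat_lit 1937884) (nat_lit 16472565) (nat_lit
 1) (.cons (nat_lit 1022071) (nat_lit 813026) (nat_lit 968567) (nat_lit 1) .nil)), (nat_lit 32), (nat_lit 39),
 (nat_lit 36), (nat_lit 1), (0, 6, 8), [9454230, 86574], 5⟩,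
  ⟨⟨9, 8, -5, 4, -5, -12, -2, 8, -5⟩, (.cons (nat_lit 6586237) (nat_lit 5980849) (nat_lit 18545247) (nat_lit 1)
 (.cons (nat_lit 508306) (nat_lit 835026) (nat_lit 329819) (nat_lit 1) .nil)), (nat_lit 15), (nat_lit 8),
 (nat_lit 36), (nat_lit 1), (8, 6, 8), [4509665, 51616], 5⟩,
  ⟨⟨9, 8, -5, 4, -5, -12, -2, 8, -5⟩, (.cons (nat_lit 6586237) (nat_lit 5980849) (nat_lit 18545247) (nat_lit 1)
 (.cons (nat_lit 508306) (nat_lit 835026) (nat_lit 329819) (nat_lit 1) .nil)), (nat_lit 15), (nat_lit 8),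
 (nat_lit 36), (nat_lit 1), (8, 6, 8), [4509665, 51616], 5⟩]

/-- Moves. -/
noncomputable def t1_1 : List Mv := [
  mz,
  ⟨⟨3, -16, -43, 10, 33, -20, 30, -12, -23⟩, (.cons (nat_lit 17080258) (nat_lit 3772299) (nat_lit 2291204)
 (nat_lit 1) (.cons (nat_lit 613252) (nat_lit 1059658) (nat_lit 579005) (nat_lit 1) .nil)), (nat_lit 1),
 (nat_lit 18), (nat_lit 33), (nat_lit 1), (25, 34, 28), [6455049, 1167854], 8⟩,
  mz,
  mz,
  ⟨⟨11, -12, -47, 8, 35, -14, 32, -8, -19⟩, (.cons (nat_lit 11597263) (nat_lit 18391292) (nat_lit 1265860)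
 (nat_lit 1) (.cons (nat_lit 428885) (nat_lit 476977) (nat_lit 1523725) (nat_lit 1) .nil)), (nat_lit 1),
 (nat_lit 40), (nat_lit 9), (nat_lit 1), (12, 2, 8), [13789968, 1417911], 18⟩,
  ⟨⟨11, 12, -47, 8, -35, -14, 32, 8, -19⟩, (.cons (nat_lit 3265794) (nat_lit 14048111) (nat_lit 5911939)
 (nat_lit 1) (.cons (nat_lit 1138918) (nat_lit 226903) (nat_lit 1747111) (nat_lit 1) .nil)), (nat_lit 20),
 (nat_lit 21), (nat_lit 24), (nat_lit 1), (29, 11, 7), [2983228, 1053595], 1⟩,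
  mz,
  ⟨⟨-1, -24, -36, -30, -17, 30, -18, 12, -19⟩, (.cons (nat_lit 8337923) (nat_lit 6495732) (nat_lit 1) (nat_lit
 11149248) (.cons (nat_lit 1460399) (nat_lit 751815) (nat_lit 476371) (nat_lit 1) .nil)), (nat_lit 46),
 (nat_lit 13), (nat_lit 26), (nat_lit 1), (13, 20, 12), [4145192, 1393329], 6⟩,
  ⟨⟨35, -12, -36, 12, 35, -6, 0, 0, -37⟩, (.cons (nat_lit 18776891) (nat_lit 15131345) (nat_lit 8758295)
 (nat_lit 1) (.cons (nat_lit 640647) (nat_lit 1853776) (nat_lit 1587560) (nat_lit 1) .nil)), (nat_lit 1),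
 (nat_lit 14), (nat_lit 31), (nat_lit 1), (34, 18, 0), [7990131, 1835062], 41⟩,
  mz,
  ⟨⟨-1, 24, -36, -30, 17, 30, -18, -12, -19⟩, (.cons (nat_lit 16218684) (nat_lit 7403857) (nat_lit 4011360)
 (nat_lit 1) (.cons (nat_lit 413761) (nat_lit 1019282) (nat_lit 864789) (nat_lit 1) .nil)), (nat_lit 14),
 (nat_lit 9), (nat_lit 30), (nat_lit 1), (10, 4, 32), [9316289, 549573], 25⟩,
  ⟨⟨27, -4, 20, -10, 33, 20, 30, 12, -23⟩, (.cons (nat_lit 19487170) (nat_lit 393710) (nat_lit 17342860)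
 (nat_lit 1) (.cons (nat_lit 1222104) (nat_lit 935258) (nat_lit 281482) (nat_lit 1) .nil)), (nat_lit 46),
 (nat_lit 24), (nat_lit 34), (nat_lit 1), (22, 22, 8), [8581807, 1171226], 8⟩,
  ⟨⟨39, -4, -8, 10, 17, -40, 14, -28, -19⟩, (.cons (nat_lit 19487170) (nat_lit 14519482) (nat_lit 2338009)
 (nat_lit 1) (.cons (nat_lit 1554850) (nat_lit 1613946) (nat_lit 285754) (nat_lit 1) .nil)), (nat_lit 46),
 (nat_lit 43), (nat_lit 13), (nat_lit 1), (11, 18, 3), [11912651, 179876], 40⟩,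
  ⟨⟨39, 8, -28, -8, 5, -36, 8, 32, -1⟩, (.cons (nat_lit 12299237) (nat_lit 200383) (nat_lit 13521307) (nat_lit
 1) (.cons (nat_lit 1823396) (nat_lit 1267075) (nat_lit 1419066) (nat_lit 1) .nil)), (nat_lit 13), (nat_lit
 20), (nat_lit 43), (nat_lit 1), (21, 27, 10), [964122, 1338202], 10⟩,
  mz,
  ⟨⟨-3, 40, 8, 32, 5, -36, -16, 16, -19⟩, (.cons (nat_lit 1643990) (nat_lit 8627991) (nat_lit 2867000) (nat_lit
 1) (.cons (nat_lit 798622) (nat_lit 669341) (nat_lit 1419928) (nat_lit 1) .nil)), (nat_lit 15), (nat_lit 32),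
 (nat_lit 3), (nat_lit 1), (27, 8, 33), [4923605, 1800850], 11⟩,
  ⟨⟨11, -12, 36, -8, -35, -6, 32, -8, -13⟩, (.cons (nat_lit 19487170) (nat_lit 3707271) (nat_lit 1323977)
 (nat_lit 1) (.cons (nat_lit 539965) (nat_lit 538325) (nat_lit 1673641) (nat_lit 1) .nil)), (nat_lit 46),
 (nat_lit 2), (nat_lit 8), (nat_lit 1), (3, 18, 2), [7121129, 1292009], 29⟩,
  ⟨⟨39, -8, -11, -8, -5, 44, 8, -32, -7⟩, (.cons (nat_lit 1508092) (nat_lit 13254333) (nat_lit 9115112)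
 (nat_lit 1) (.cons (nat_lit 460752) (nat_lit 665154) (nat_lit 1172797) (nat_lit 1) .nil)), (nat_lit 34),
 (nat_lit 20), (nat_lit 4), (nat_lit 1), (5, 17, 20), [2446459, 1248849], 37⟩,
  ⟨⟨39, 4, -8, 10, -17, -40, 14, 28, -19⟩, (.cons (nat_lit 14076893) (nat_lit 2640253) (nat_lit 6336314)
 (nat_lit 1) (.cons (nat_lit 101959) (nat_lit 470110) (nat_lit 1640323) (nat_lit 1) .nil)), (nat_lit 42),
 (nat_lit 18), (nat_lit 13), (nat_lit 1), (29, 34, 18), [9092899, 770684], 40⟩,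
  ⟨⟨39, -8, -28, -8, -5, -36, 8, -32, -1⟩, (.cons (nat_lit 1351113) (nat_lit 17885038) (nat_lit 3466137)
 (nat_lit 1) (.cons (nat_lit 1371082) (nat_lit 881345) (nat_lit 452127) (nat_lit 1) .nil)), (nat_lit 1),
 (nat_lit 32), (nat_lit 40), (nat_lit 1), (22, 23, 14), [149126, 10396], 41⟩,
  ⟨⟨25, -24, -36, -10, 17, -30, -14, -28, -5⟩, (.cons (nat_lit 19487170) (nat_lit 12509367) (nat_lit 16311374)
 (nat_lit 1) (.cons (nat_lit 740045) (nat_lit 1217231) (nat_lit 1723749) (nat_lit 1) .nil)), (nat_lit 46),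
 (nat_lit 4), (nat_lit 34), (nat_lit 1), (21, 36, 6), [8409234, 1773034], 40⟩,
  ⟨⟨13, -24, -40, -32, 5, -4, 16, 16, -35⟩, (.cons (nat_lit 16618245) (nat_lit 13415022) (nat_lit 5645806)
 (nat_lit 1) (.cons (nat_lit 790175) (nat_lit 546003) (nat_lit 1464450) (nat_lit 1) .nil)), (nat_lit 15),
 (nat_lit 15), (nat_lit 44), (nat_lit 1), (27, 36, 19), [14904179, 620026], 11⟩,
  ⟨⟨39, 8, -11, 8, -5, -44, 8, 32, -7⟩, (.cons (nat_lit 16584858) (nat_lit 1777441) (nat_lit 1627151) (nat_lit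
 1) (.cons (nat_lit 425268) (nat_lit 1360462) (nat_lit 1420042) (nat_lit 1) .nil)), (nat_lit 18), (nat_lit 16),
 (nat_lit 22), (nat_lit 1), (4, 16, 16), [5199588, 517079], 3⟩,
  mz,
  ⟨⟨13, 24, -40, 32, 5, 4, 16, -16, -35⟩, (.cons (nat_lit 4954430) (nat_lit 8035076) (nat_lit 4029268) (nat_lit
 1) (.cons (nat_lit 1571933) (nat_lit 218484) (nat_lit 1279548) (nat_lit 1) .nil)), (nat_lit 22), (nat_lit 1),
 (nat_lit 28), (nat_lit 1), (24, 5, 21), [3802514, 32266], 13⟩,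
  ⟨⟨17, -36, 0, 30, 17, 0, 18, -12, -37⟩, (.cons (nat_lit 871693) (nat_lit 10334384) (nat_lit 10907778)
 (nat_lit 1) (.cons (nat_lit 338837) (nat_lit 141716) (nat_lit 670967) (nat_lit 1) .nil)), (nat_lit 14),
 (nat_lit 38), (nat_lit 17), (nat_lit 1), (21, 24, 7), [4027148, 862200], 25⟩,
  ⟨⟨27, -4, -47, 10, -33, 10, 30, 12, -7⟩, (.cons (nat_lit 7824637) (nat_lit 16301330) (nat_lit 6957974)
 (nat_lit 1) (.cons (nat_lit 1774499) (nat_lit 605269) (nat_lit 894158) (nat_lit 1) .nil)), (nat_lit 1),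
 (nat_lit 29), (nat_lit 14), (nat_lit 1), (15, 22, 29), [2125517, 997872], 39⟩,
  ⟨⟨27, 4, -47, -10, -33, -10, 30, -12, -7⟩, (.cons (nat_lit 6755569) (nat_lit 9722058) (nat_lit 15529996)
 (nat_lit 1) (.cons (nat_lit 3966) (nat_lit 12424) (nat_lit 414996) (nat_lit 1) .nil)), (nat_lit 1), (nat_lit
 24), (nat_lit 13), (nat_lit 1), (33, 33, 12), [298252, 89427], 39⟩,
  mz,
  ⟨⟨-35, -12, -1, 12, -35, -6, 0, 0, -37⟩, (.cons (nat_lit 4572910) (nat_lit 12709997) (nat_lit 4146005)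
 (nat_lit 1) (.cons (nat_lit 1066550) (nat_lit 1394035) (nat_lit 434693) (nat_lit 1) .nil)), (nat_lit 1),
 (nat_lit 3), (nat_lit 10), (nat_lit 1), (23, 27, 0), [10596896, 1839414], 39⟩,
  ⟨⟨25, 24, -36, 10, 17, 30, -14, 28, -5⟩, (.cons (nat_lit 19487170) (nat_lit 10580937) (nat_lit 16009930)
 (nat_lit 1) (.cons (nat_lit 459819) (nat_lit 1725603) (nat_lit 889937) (nat_lit 1) .nil)), (nat_lit 46),
 (nat_lit 29), (nat_lit 29), (nat_lit 1), (18, 22, 21), [11754647, 1218758], 40⟩,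
  mz,
  mz,
  ⟨⟨-3, -40, 8, 32, -5, -36, -16, -16, -19⟩, (.cons (nat_lit 11991364) (nat_lit 12685269) (nat_lit 13229488)
 (nat_lit 1) (.cons (nat_lit 1782129) (nat_lit 882841) (nat_lit 1226847) (nat_lit 1) .nil)), (nat_lit 1),
 (nat_lit 5), (nat_lit 25), (nat_lit 1), (32, 4, 35), [6791639, 1421722], 29⟩,
  mz,
  ⟨⟨21, -4, -49, 8, -35, 6, 32, 8, -13⟩, (.cons (nat_lit 14991611) (nat_lit 877612) (nat_lit 8470325) (nat_lit
 1) (.cons (nat_lit 1867693) (nat_lit 815124) (nat_lit 1782597) (nat_lit 1) .nil)), (nat_lit 1), (nat_lit 7),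
 (nat_lit 38), (nat_lit 1), (18, 28, 1), [7679385, 580196], 29⟩,
  ⟨⟨17, 36, 0, -30, 17, 0, 18, 12, -37⟩, (.cons (nat_lit 8754498) (nat_lit 4229970) (nat_lit 5930332) (nat_lit
 1) (.cons (nat_lit 587166) (nat_lit 654203) (nat_lit 125876) (nat_lit 1) .nil)), (nat_lit 37), (nat_lit 4),
 (nat_lit 29), (nat_lit 1), (35, 34, 24), [12302027, 983644], 9⟩]

/-- Moves. -/
noncomputable def t1_4 : List Mv := [
  mz,
  ⟨⟨3, -16, -43, 10, 33, -20, 30, -12, -23⟩, (.cons (nat_lit 17080258) (nat_lit 3772299) (nat_lit 2291204)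
 (nat_lit 1) (.cons (nat_lit 613252) (nat_lit 1059658) (nat_lit 579005) (nat_lit 1) .nil)), (nat_lit 1),
 (nat_lit 18), (nat_lit 33), (nat_lit 1), (25, 34, 28), [6455049, 1167854], 8⟩,
  mz,
  mz,
  ⟨⟨21, 4, 28, 8, 35, -14, 32, -8, -19⟩, (.cons (nat_lit 19487170) (nat_lit 6742898) (nat_lit 4109168) (nat_lit
 1) (.cons (nat_lit 1425476) (nat_lit 1018043) (nat_lit 1761999) (nat_lit 1) .nil)), (nat_lit 46), (nat_lit 7),
 (nat_lit 9), (nat_lit 1), (33, 2, 8), [14034489, 1716966], 18⟩,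
  ⟨⟨21, -4, 28, 8, -35, -14, 32, 8, -19⟩, (.cons (nat_lit 1121347) (nat_lit 7905375) (nat_lit 4397540) (nat_lit
 1) (.cons (nat_lit 140534) (nat_lit 54930) (nat_lit 357163) (nat_lit 1) .nil)), (nat_lit 27), (nat_lit 26),
 (nat_lit 24), (nat_lit 1), (15, 11, 7), [9284509, 1768453], 1⟩,
  mz,
  ⟨⟨-1, -24, -36, 30, 17, -30, -18, 12, -19⟩, (.cons (nat_lit 17782077) (nat_lit 15081654) (nat_lit 2180063)
 (nat_lit 1) (.cons (nat_lit 1499386) (nat_lit 885095) (nat_lit 110208) (nat_lit 1) .nil)), (nat_lit 37),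
 (nat_lit 43), (nat_lit 18), (nat_lit 1), (13, 17, 12), [15275888, 466968], 9⟩,
  ⟨⟨-35, 12, -1, 12, 35, -6, 0, 0, -37⟩, (.cons (nat_lit 19487170) (nat_lit 14655612) (nat_lit 4381831)
 (nat_lit 1) (.cons (nat_lit 353825) (nat_lit 423693) (nat_lit 512773) (nat_lit 1) .nil)), (nat_lit 46),
 (nat_lit 33), (nat_lit 31), (nat_lit 1), (3, 18, 0), [6584823, 388739], 41⟩,
  mz,
  ⟨⟨-17, -36, 17, 30, -17, -30, -18, -12, -19⟩, (.cons (nat_lit 16753016) (nat_lit 7089076) (nat_lit 19002260)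
 (nat_lit 1) (.cons (nat_lit 1058738) (nat_lit 929056) (nat_lit 756525) (nat_lit 1) .nil)), (nat_lit 1),
 (nat_lit 11), (nat_lit 12), (nat_lit 1), (22, 33, 32), [13584063, 1425120], 6⟩,
  ⟨⟨3, 16, -43, 10, -33, -20, 30, 12, -23⟩, (.cons (nat_lit 4958427) (nat_lit 14874296) (nat_lit 4463179)
 (nat_lit 1) (.cons (nat_lit 657744) (nat_lit 232141) (nat_lit 594355) (nat_lit 1) .nil)), (nat_lit 11),
 (nat_lit 10), (nat_lit 45), (nat_lit 1), (23, 15, 8), [3357718, 1521813], 28⟩,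
  ⟨⟨39, -4, -8, -10, -17, 40, 14, -28, -19⟩, (.cons (nat_lit 2018425) (nat_lit 3991845) (nat_lit 16767508)
 (nat_lit 1) (.cons (nat_lit 114235) (nat_lit 1334585) (nat_lit 580609) (nat_lit 1) .nil)), (nat_lit 28),
 (nat_lit 13), (nat_lit 12), (nat_lit 1), (11, 19, 3), [18676974, 1791581], 11⟩,
  ⟨⟨39, 8, -28, -8, 5, -36, 8, 32, -1⟩, (.cons (nat_lit 12299237) (nat_lit 200383) (nat_lit 13521307) (nat_lit
 1) (.cons (nat_lit 1823396) (nat_lit 1267075) (nat_lit 1419066) (nat_lit 1) .nil)), (nat_lit 13), (nat_lit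
 20), (nat_lit 43), (nat_lit 1), (21, 27, 10), [964122, 1338202], 10⟩,
  mz,
  ⟨⟨-3, 40, 8, -32, -5, 36, -16, 16, -19⟩, (.cons (nat_lit 19194142) (nat_lit 622816) (nat_lit 13428574)
 (nat_lit 1) (.cons (nat_lit 505032) (nat_lit 1154438) (nat_lit 1762769) (nat_lit 1) .nil)), (nat_lit 1),
 (nat_lit 16), (nat_lit 46), (nat_lit 1), (27, 29, 33), [4696700, 1768448], 29⟩,
  ⟨⟨11, -12, 36, -8, -35, -6, 32, -8, -13⟩, (.cons (nat_lit 19487170) (nat_lit 3707271) (nat_lit 1323977)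
 (nat_lit 1) (.cons (nat_lit 539965) (nat_lit 538325) (nat_lit 1673641) (nat_lit 1) .nil)), (nat_lit 46),
 (nat_lit 2), (nat_lit 8), (nat_lit 1), (3, 18, 2), [7121129, 1292009], 29⟩,
  ⟨⟨-31, -24, 4, -8, -5, 44, 8, -32, -7⟩, (.cons (nat_lit 14804846) (nat_lit 1143096) (nat_lit 261133) (nat_lit
 1) (.cons (nat_lit 532719) (nat_lit 650032) (nat_lit 714456) (nat_lit 1) .nil)), (nat_lit 13), (nat_lit 27),
 (nat_lit 4), (nat_lit 1), (15, 17, 20), [10534455, 1634073], 37⟩,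
  ⟨⟨39, 4, -8, -10, 17, 40, 14, 28, -19⟩, (.cons (nat_lit 19487170) (nat_lit 6319532) (nat_lit 1357759)
 (nat_lit 1) (.cons (nat_lit 448528) (nat_lit 502940) (nat_lit 1378481) (nat_lit 1) .nil)), (nat_lit 46),
 (nat_lit 18), (nat_lit 18), (nat_lit 1), (29, 3, 18), [16489284, 1274331], 40⟩,
  ⟨⟨39, -8, -28, 8, 5, 36, 8, -32, -1⟩, (.cons (nat_lit 2311937) (nat_lit 6245384) (nat_lit 9000130) (nat_lit
 1) (.cons (nat_lit 1548467) (nat_lit 841939) (nat_lit 1749250) (nat_lit 1) .nil)), (nat_lit 29), (nat_lit 16),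
 (nat_lit 25), (nat_lit 1), (22, 14, 14), [8999961, 446381], 44⟩,
  ⟨⟨25, -24, -36, -10, 17, -30, -14, -28, -5⟩, (.cons (nat_lit 19487170) (nat_lit 12509367) (nat_lit 16311374)
 (nat_lit 1) (.cons (nat_lit 740045) (nat_lit 1217231) (nat_lit 1723749) (nat_lit 1) .nil)), (nat_lit 46),
 (nat_lit 4), (nat_lit 34), (nat_lit 1), (21, 36, 6), [8409234, 1773034], 40⟩,
  ⟨⟨13, -24, -40, 32, -5, 4, 16, 16, -35⟩, (.cons (nat_lit 10144257) (nat_lit 8090882) (nat_lit 1) (nat_lit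
 11579887) (.cons (nat_lit 222986) (nat_lit 1585934) (nat_lit 135540) (nat_lit 1) .nil)), (nat_lit 1), (nat_lit
 31), (nat_lit 1), (nat_lit 1), (27, 1, 19), [11990373, 375479], 29⟩,
  ⟨⟨39, 8, -11, 8, -5, -44, 8, 32, -7⟩, (.cons (nat_lit 16584858) (nat_lit 1777441) (nat_lit 1627151) (nat_lit
 1) (.cons (nat_lit 425268) (nat_lit 1360462) (nat_lit 1420042) (nat_lit 1) .nil)), (nat_lit 18), (nat_lit 16),
 (nat_lit 22), (nat_lit 1), (4, 16, 16), [5199588, 517079], 3⟩,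
  mz,
  ⟨⟨13, 24, -40, -32, -5, -4, 16, -16, -35⟩, (.cons (nat_lit 7302211) (nat_lit 2673351) (nat_lit 1) (nat_lit
 10806114) (.cons (nat_lit 1860152) (nat_lit 1054636) (nat_lit 705457) (nat_lit 1) .nil)), (nat_lit 1),
 (nat_lit 42), (nat_lit 22), (nat_lit 1), (24, 32, 21), [4791519, 1551364], 29⟩,
  ⟨⟨1, 24, -37, -30, -17, 0, 18, -12, -37⟩, (.cons (nat_lit 14543747) (nat_lit 2673307) (nat_lit 15716617)
 (nat_lit 1) (.cons (nat_lit 331579) (nat_lit 1579701) (nat_lit 232118) (nat_lit 1) .nil)), (nat_lit 1),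
 (nat_lit 36), (nat_lit 35), (nat_lit 1), (23, 13, 7), [880410, 853811], 6⟩,
  ⟨⟨27, -4, -47, -10, 33, -10, 30, 12, -7⟩, (.cons (nat_lit 18106232) (nat_lit 3877052) (nat_lit 14475543)
 (nat_lit 1) (.cons (nat_lit 274365) (nat_lit 283126) (nat_lit 1229669) (nat_lit 1) .nil)), (nat_lit 30),
 (nat_lit 29), (nat_lit 13), (nat_lit 1), (15, 15, 29), [13461942, 653075], 39⟩,
  ⟨⟨27, 4, -47, -10, -33, -10, 30, -12, -7⟩, (.cons (nat_lit 6755569) (nat_lit 9722058) (nat_lit 15529996)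
 (nat_lit 1) (.cons (nat_lit 3966) (nat_lit 12424) (nat_lit 414996) (nat_lit 1) .nil)), (nat_lit 1), (nat_lit
 24), (nat_lit 13), (nat_lit 1), (33, 33, 12), [298252, 89427], 39⟩,
  mz,
  ⟨⟨35, 12, -36, -12, 35, 6, 0, 0, -37⟩, (.cons (nat_lit 11579349) (nat_lit 17558037) (nat_lit 14714297)
 (nat_lit 1) (.cons (nat_lit 497604) (nat_lit 979766) (nat_lit 233085) (nat_lit 1) .nil)), (nat_lit 1),
 (nat_lit 33), (nat_lit 16), (nat_lit 1), (14, 10, 0), [2926413, 1742656], 41⟩,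
  ⟨⟨-39, 4, 31, -10, -17, -30, -14, 28, -5⟩, (.cons (nat_lit 10493090) (nat_lit 5438330) (nat_lit 6948455)
 (nat_lit 1) (.cons (nat_lit 603834) (nat_lit 328847) (nat_lit 657138) (nat_lit 1) .nil)), (nat_lit 5),
 (nat_lit 18), (nat_lit 34), (nat_lit 1), (3, 15, 21), [13952337, 870269], 40⟩,
  mz,
  mz,
  ⟨⟨-3, -40, 8, 32, -5, -36, -16, -16, -19⟩, (.cons (nat_lit 11991364) (nat_lit 12685269) (nat_lit 13229488)
 (nat_lit 1) (.cons (nat_lit 1782129) (nat_lit 882841) (nat_lit 1226847) (nat_lit 1) .nil)), (nat_lit 1),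
 (nat_lit 5), (nat_lit 25), (nat_lit 1), (32, 4, 35), [6791639, 1421722], 29⟩,
  mz,
  ⟨⟨21, -4, -49, -8, 35, -6, 32, 8, -13⟩, (.cons (nat_lit 1108088) (nat_lit 3844742) (nat_lit 14638096)
 (nat_lit 1) (.cons (nat_lit 1467484) (nat_lit 742414) (nat_lit 558328) (nat_lit 1) .nil)), (nat_lit 40),
 (nat_lit 6), (nat_lit 27), (nat_lit 1), (18, 9, 1), [1392689, 1006223], 45⟩,
  ⟨⟨1, -24, -37, -30, 17, 0, 18, 12, -37⟩, (.cons (nat_lit 6286797) (nat_lit 11355626) (nat_lit 18175836)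
 (nat_lit 1) (.cons (nat_lit 1196502) (nat_lit 1057277) (nat_lit 1384140) (nat_lit 1) .nil)), (nat_lit 10),
 (nat_lit 43), (nat_lit 29), (nat_lit 1), (26, 34, 24), [8759582, 1684962], 9⟩]

/-- Moves. -/
noncomputable def t4_1 : List Mv := [
  mz,
  ⟨⟨-25, 12, -36, 22, -35, -36, 20, 28, -37⟩, (.cons (nat_lit 8525462) (nat_lit 17355113) (nat_lit 9560798)
 (nat_lit 1) (.cons (nat_lit 9256) (nat_lit 1411520) (nat_lit 366617) (nat_lit 1) .nil)), (nat_lit 2), (nat_lit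
 0), (nat_lit 0), (nat_lit 0), (2, 2, 36), [7798914, 1134202], 0⟩,
  ⟨⟨-49, 12, 36, -2, -35, 36, -28, -20, -13⟩, (.cons (nat_lit 18183211) (nat_lit 18901035) (nat_lit 1) (nat_lit
 4498021) (.cons (nat_lit 1261657) (nat_lit 1805975) (nat_lit 1778753) (nat_lit 1) .nil)), (nat_lit 1),
 (nat_lit 0), (nat_lit 0), (nat_lit 0), (17, 17, 3), [4715972, 577825], 0⟩,
  ⟨⟨-51, 4, 19, -2, -45, -14, -12, 12, -37⟩, (.cons (nat_lit 14534682) (nat_lit 17489466) (nat_lit 15094487)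
 (nat_lit 1) (.cons (nat_lit 1725981) (nat_lit 91299) (nat_lit 1435750) (nat_lit 1) .nil)), (nat_lit 33),
 (nat_lit 0), (nat_lit 0), (nat_lit 0), (7, 27, 21), [6407106, 1833774], 0⟩,
  mz,
  ⟨⟨25, -12, -61, 22, -35, 14, -20, -28, -17⟩, (.cons (nat_lit 5235654) (nat_lit 19372803) (nat_lit 11864559)
 (nat_lit 1) (.cons (nat_lit 1809302) (nat_lit 1337704) (nat_lit 1315624) (nat_lit 1) .nil)), (nat_lit 21),
 (nat_lit 0), (nat_lit 0), (nat_lit 0), (9, 38, 21), [642647, 1062241], 0⟩,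
  mz,
  mz,
  mz,
  ⟨⟨-17, -48, 0, 40, -17, 0, 10, -16, -47⟩, (.cons (nat_lit 2255926) (nat_lit 7181594) (nat_lit 16205302)
 (nat_lit 1) (.cons (nat_lit 360475) (nat_lit 1449502) (nat_lit 1856704) (nat_lit 1) .nil)), (nat_lit 36),
 (nat_lit 0), (nat_lit 0), (nat_lit 0), (6, 8, 2), [17460796, 319436], 0⟩,
  mz,
  ⟨⟨17, 48, -17, 40, -17, -40, -10, 16, -37⟩, (.cons (nat_lit 619714) (nat_lit 2313062) (nat_lit 11760521)
 (nat_lit 1) (.cons (nat_lit 1103872) (nat_lit 110809) (nat_lit 1380203) (nat_lit 1) .nil)), (nat_lit 9),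
 (nat_lit 0), (nat_lit 0), (nat_lit 0), (25, 45, 24), [3702684, 1297953], 0⟩,
  ⟨⟨17, -36, -45, -20, 23, -30, 38, 8, -37⟩, (.cons (nat_lit 9237000) (nat_lit 8800548) (nat_lit 9423048)
 (nat_lit 1) (.cons (nat_lit 404701) (nat_lit 562153) (nat_lit 1262842) (nat_lit 1) .nil)), (nat_lit 32),
 (nat_lit 0), (nat_lit 0), (nat_lit 0), (19, 44, 1), [5338566, 82209], 0⟩,
  mz,
  ⟨⟨-51, -4, 19, -2, 45, -14, -12, -12, -37⟩, (.cons (nat_lit 9486072) (nat_lit 16329596) (nat_lit 1) (nat_lit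
 10190554) (.cons (nat_lit 65672) (nat_lit 1479157) (nat_lit 1315316) (nat_lit 1) .nil)), (nat_lit 33),
 (nat_lit 0), (nat_lit 0), (nat_lit 0), (25, 36, 28), [3869556, 1651447], 0⟩,
  ⟨⟨9, 4, -61, 40, 23, -10, 22, -32, -29⟩, (.cons (nat_lit 6683354) (nat_lit 7316267) (nat_lit 4417989)
 (nat_lit 1) (.cons (nat_lit 36439) (nat_lit 1296283) (nat_lit 764498) (nat_lit 1) .nil)), (nat_lit 35),
 (nat_lit 0), (nat_lit 0), (nat_lit 0), (18, 33, 44), [9293259, 468026], 0⟩,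
  ⟨⟨-13, 36, 45, 40, 23, -30, -22, 32, -7⟩, (.cons (nat_lit 483942) (nat_lit 3607994) (nat_lit 9181534)
 (nat_lit 1) (.cons (nat_lit 1486111) (nat_lit 1592425) (nat_lit 1115128) (nat_lit 1) .nil)), (nat_lit 27),
 (nat_lit 0), (nat_lit 0), (nat_lit 0), (5, 28, 41), [17587576, 164193], 0⟩,
  mz,
  ⟨⟨19, 0, -63, 0, -47, 0, 42, 0, -23⟩, (.cons (nat_lit 7095236) (nat_lit 15846415) (nat_lit 3169283) (nat_lit
 1) (.cons (nat_lit 1064884) (nat_lit 49036) (nat_lit 632172) (nat_lit 1) .nil)), (nat_lit 29), (nat_lit 0),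
 (nat_lit 0), (nat_lit 0), (16, 0, 23), [19112890, 787389], 0⟩,
  ⟨⟨-39, 32, 8, -20, -33, -20, 6, 24, -41⟩, (.cons (nat_lit 2476245) (nat_lit 13897564) (nat_lit 1469608)
 (nat_lit 1) (.cons (nat_lit 718844) (nat_lit 1593602) (nat_lit 1199626) (nat_lit 1) .nil)), (nat_lit 22),
 (nat_lit 0), (nat_lit 0), (nat_lit 0), (25, 8, 7), [5115410, 1301614], 0⟩,
  ⟨⟨17, -36, 28, -20, 23, 50, 38, 8, -1⟩, (.cons (nat_lit 880830) (nat_lit 3218214) (nat_lit 11752678) (nat_lit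
 1) (.cons (nat_lit 1138397) (nat_lit 441781) (nat_lit 1760739) (nat_lit 1) .nil)), (nat_lit 32), (nat_lit 0),
 (nat_lit 0), (nat_lit 0), (2, 17, 10), [2146538, 1012451], 0⟩,
  ⟨⟨21, 32, -49, -2, 35, 36, -28, 20, -13⟩, (.cons (nat_lit 15930148) (nat_lit 2068248) (nat_lit 10616346)
 (nat_lit 1) (.cons (nat_lit 480858) (nat_lit 1521683) (nat_lit 1) (nat_lit 1703998) .nil)), (nat_lit 46),
 (nat_lit 0), (nat_lit 0), (nat_lit 0), (30, 24, 7), [16840579, 559502], 0⟩,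
  ⟨⟨45, 8, -49, -20, 33, -20, 6, -24, -41⟩, (.cons (nat_lit 10153040) (nat_lit 17131533) (nat_lit 6942288)
 (nat_lit 1) (.cons (nat_lit 982636) (nat_lit 1278406) (nat_lit 908834) (nat_lit 1) .nil)), (nat_lit 25),
 (nat_lit 0), (nat_lit 0), (nat_lit 0), (40, 24, 21), [8813776, 748995], 0⟩,
  mz,
  mz,
  ⟨⟨-45, 8, -4, 20, 33, -40, -6, -24, -35⟩, (.cons (nat_lit 19487170) (nat_lit 18631157) (nat_lit 19367535)
 (nat_lit 1) (.cons (nat_lit 1874160) (nat_lit 12708) (nat_lit 1101884) (nat_lit 1) .nil)), (nat_lit 25),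
 (nat_lit 0), (nat_lit 0), (nat_lit 0), (40, 24, 21), [17990123, 1508729], 0⟩,
  ⟨⟨-21, 32, -28, -2, -35, -34, 28, 20, -41⟩, (.cons (nat_lit 310310) (nat_lit 9197125) (nat_lit 6960150)
 (nat_lit 1) (.cons (nat_lit 523519) (nat_lit 325255) (nat_lit 571573) (nat_lit 1) .nil)), (nat_lit 5),
 (nat_lit 0), (nat_lit 0), (nat_lit 0), (30, 23, 7), [10099454, 433311], 0⟩,
  ⟨⟨21, -44, 8, 20, 23, 30, 38, -8, -37⟩, (.cons (nat_lit 6646282) (nat_lit 15014685) (nat_lit 2139882)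
 (nat_lit 1) (.cons (nat_lit 1350855) (nat_lit 1741678) (nat_lit 592413) (nat_lit 1) .nil)), (nat_lit 31),
 (nat_lit 0), (nat_lit 0), (nat_lit 0), (39, 17, 37), [9116166, 1516806], 0⟩,
  ⟨⟨-45, -8, -4, -20, 33, 40, -6, 24, -35⟩, (.cons (nat_lit 19487170) (nat_lit 12893384) (nat_lit 2677363)
 (nat_lit 1) (.cons (nat_lit 1874160) (nat_lit 1015035) (nat_lit 357844) (nat_lit 1) .nil)), (nat_lit 28),
 (nat_lit 0), (nat_lit 0), (nat_lit 0), (29, 39, 7), [16319925, 962829], 0⟩,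
  ⟨⟨19, 0, 44, 0, -47, 0, 42, 0, -19⟩, (.cons (nat_lit 19487170) (nat_lit 18171765) (nat_lit 11007925) (nat_lit
 1) (.cons (nat_lit 1874160) (nat_lit 1828508) (nat_lit 46963) (nat_lit 1) .nil)), (nat_lit 29), (nat_lit 0),
 (nat_lit 0), (nat_lit 0), (31, 0, 24), [403328, 71899], 0⟩,
  mz,
  ⟨⟨13, 36, 32, -40, 23, 10, 22, 32, -29⟩, (.cons (nat_lit 11229667) (nat_lit 8777810) (nat_lit 13921594)
 (nat_lit 1) (.cons (nat_lit 1659704) (nat_lit 374029) (nat_lit 1488873) (nat_lit 1) .nil)), (nat_lit 27),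
 (nat_lit 0), (nat_lit 0), (nat_lit 0), (5, 28, 41), [10154435, 1620597], 0⟩,
  ⟨⟨-9, 4, -52, 40, -23, -30, -22, -32, -7⟩, (.cons (nat_lit 18337383) (nat_lit 834810) (nat_lit 1709879)
 (nat_lit 1) (.cons (nat_lit 1784878) (nat_lit 1814778) (nat_lit 1309618) (nat_lit 1) .nil)), (nat_lit 20),
 (nat_lit 0), (nat_lit 0), (nat_lit 0), (18, 14, 44), [4092580, 362076], 0⟩,
  ⟨⟨-39, -8, -17, -2, -45, 16, 12, -12, -49⟩, (.cons (nat_lit 11754365) (nat_lit 4984890) (nat_lit 2784060)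
 (nat_lit 1) (.cons (nat_lit 1237480) (nat_lit 1235204) (nat_lit 214644) (nat_lit 1) .nil)), (nat_lit 3),
 (nat_lit 0), (nat_lit 0), (nat_lit 0), (3, 11, 28), [11122913, 1082745], 0⟩,
  mz,
  ⟨⟨17, 36, 28, 20, 23, -50, 38, -8, -1⟩, (.cons (nat_lit 11149601) (nat_lit 15060024) (nat_lit 1915743)
 (nat_lit 1) (.cons (nat_lit 1363330) (nat_lit 690684) (nat_lit 162205) (nat_lit 1) .nil)), (nat_lit 16),
 (nat_lit 0), (nat_lit 0), (nat_lit 0), (28, 44, 46), [18274851, 1436169], 0⟩,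
  ⟨⟨-17, 48, 0, -40, -17, 0, 10, 16, -47⟩, (.cons (nat_lit 15563081) (nat_lit 4755178) (nat_lit 964363)
 (nat_lit 1) (.cons (nat_lit 1824426) (nat_lit 1379105) (nat_lit 1386809) (nat_lit 1) .nil)), (nat_lit 9),
 (nat_lit 0), (nat_lit 0), (nat_lit 0), (25, 45, 24), [7114077, 660593], 0⟩,
  mz,
  ⟨⟨17, -48, -17, -40, -17, 40, -10, -16, -37⟩, (.cons (nat_lit 3589630) (nat_lit 8209672) (nat_lit 3549231)
 (nat_lit 1) (.cons (nat_lit 501954) (nat_lit 750754) (nat_lit 226102) (nat_lit 1) .nil)), (nat_lit 36),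
 (nat_lit 0), (nat_lit 0), (nat_lit 0), (6, 8, 2), [16624478, 1463486], 0⟩,
  mz,
  mz,
  mz,
  ⟨⟨45, -16, -1, 22, 35, -36, 20, -28, -37⟩, (.cons (nat_lit 4879614) (nat_lit 9455004) (nat_lit 7376753)
 (nat_lit 1) (.cons (nat_lit 951442) (nat_lit 1076037) (nat_lit 1) (nat_lit 1195840) .nil)), (nat_lit 45),
 (nat_lit 0), (nat_lit 0), (nat_lit 0), (12, 9, 21), [8126291, 1732962], 0⟩,
  mz,
  ⟨⟨-39, 8, -17, -2, 45, 16, 12, 12, -49⟩, (.cons (nat_lit 2971595) (nat_lit 19382597) (nat_lit 12381608)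
 (nat_lit 1) (.cons (nat_lit 817860) (nat_lit 963749) (nat_lit 236413) (nat_lit 1) .nil)), (nat_lit 3),
 (nat_lit 0), (nat_lit 0), (nat_lit 0), (14, 20, 21), [17093752, 824737], 0⟩,
  ⟨⟨-21, -32, -28, -2, 35, -34, 28, -20, -41⟩, (.cons (nat_lit 3413138) (nat_lit 5595344) (nat_lit 2344800)
 (nat_lit 1) (.cons (nat_lit 1276497) (nat_lit 1779880) (nat_lit 1772375) (nat_lit 1) .nil)), (nat_lit 5),
 (nat_lit 0), (nat_lit 0), (nat_lit 0), (33, 30, 3), [4000650, 772765], 0⟩,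
  ⟨⟨-45, 16, 44, -22, -35, -14, -20, 28, -17⟩, (.cons (nat_lit 19487164) (nat_lit 4396070) (nat_lit 12219832)
 (nat_lit 1) (.cons (nat_lit 1092754) (nat_lit 1166745) (nat_lit 598105) (nat_lit 1) .nil)), (nat_lit 45),
 (nat_lit 0), (nat_lit 0), (nat_lit 0), (34, 2, 36), [14614826, 436751], 0⟩]

/-- Moves. -/
noncomputable def t4_4 : List Mv := [
  mz,
  ⟨⟨45, 16, -1, 22, -35, -36, 20, 28, -37⟩, (.cons (nat_lit 4720740) (nat_lit 11001169) (nat_lit 1295972)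
 (nat_lit 1) (.cons (nat_lit 326951) (nat_lit 431419) (nat_lit 813922) (nat_lit 1) .nil)), (nat_lit 45),
 (nat_lit 0), (nat_lit 0), (nat_lit 0), (34, 2, 36), [5546440, 90948], 0⟩,
  ⟨⟨21, -32, -49, 2, 35, -36, -28, -20, -13⟩, (.cons (nat_lit 6715582) (nat_lit 5688848) (nat_lit 8045816)
 (nat_lit 1) (.cons (nat_lit 1169762) (nat_lit 1485881) (nat_lit 1549988) (nat_lit 1) .nil)), (nat_lit 5),
 (nat_lit 0), (nat_lit 0), (nat_lit 0), (33, 30, 3), [2541062, 1411985], 0⟩,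
  ⟨⟨-51, 4, 19, 2, 45, 14, -12, 12, -37⟩, (.cons (nat_lit 14213203) (nat_lit 5984010) (nat_lit 1) (nat_lit
 12132857) (.cons (nat_lit 816291) (nat_lit 60562) (nat_lit 553987) (nat_lit 1) .nil)), (nat_lit 44), (nat_lit
 0), (nat_lit 0), (nat_lit 0), (7, 20, 21), [4169905, 489536], 0⟩,
  mz,
  ⟨⟨-45, -16, 44, -22, 35, -14, -20, -28, -17⟩, (.cons (nat_lit 12840887) (nat_lit 19446872) (nat_lit 4279764)
 (nat_lit 1) (.cons (nat_lit 1051478) (nat_lit 651223) (nat_lit 1775803) (nat_lit 1) .nil)), (nat_lit 45),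
 (nat_lit 0), (nat_lit 0), (nat_lit 0), (12, 9, 21), [1254839, 254924], 0⟩,
  mz,
  mz,
  mz,
  ⟨⟨27, 32, -47, -40, 17, 0, 10, -16, -47⟩, (.cons (nat_lit 12443297) (nat_lit 18942839) (nat_lit 9917810)
 (nat_lit 1) (.cons (nat_lit 1715438) (nat_lit 1294816) (nat_lit 925971) (nat_lit 1) .nil)), (nat_lit 38),
 (nat_lit 0), (nat_lit 0), (nat_lit 0), (43, 39, 2), [9787903, 1159933], 0⟩,
  mz,
  ⟨⟨17, 48, -17, 40, -17, -40, -10, 16, -37⟩, (.cons (nat_lit 619714) (nat_lit 2313062) (nat_lit 11760521)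
 (nat_lit 1) (.cons (nat_lit 1103872) (nat_lit 110809) (nat_lit 1380203) (nat_lit 1) .nil)), (nat_lit 9),
 (nat_lit 0), (nat_lit 0), (nat_lit 0), (25, 45, 24), [3702684, 1297953], 0⟩,
  ⟨⟨17, -36, -45, -20, 23, -30, 38, 8, -37⟩, (.cons (nat_lit 9237000) (nat_lit 8800548) (nat_lit 9423048)
 (nat_lit 1) (.cons (nat_lit 404701) (nat_lit 562153) (nat_lit 1262842) (nat_lit 1) .nil)), (nat_lit 32),
 (nat_lit 0), (nat_lit 0), (nat_lit 0), (19, 44, 1), [5338566, 82209], 0⟩,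
  mz,
  ⟨⟨-51, -4, 19, -2, 45, -14, -12, -12, -37⟩, (.cons (nat_lit 9486072) (nat_lit 16329596) (nat_lit 1) (nat_lit
 10190554) (.cons (nat_lit 65672) (nat_lit 1479157) (nat_lit 1315316) (nat_lit 1) .nil)), (nat_lit 33),
 (nat_lit 0), (nat_lit 0), (nat_lit 0), (25, 36, 28), [3869556, 1651447], 0⟩,
  ⟨⟨9, 4, -61, 40, 23, -10, 22, -32, -29⟩, (.cons (nat_lit 6683354) (nat_lit 7316267) (nat_lit 4417989)
 (nat_lit 1) (.cons (nat_lit 36439) (nat_lit 1296283) (nat_lit 764498) (nat_lit 1) .nil)), (nat_lit 35),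
 (nat_lit 0), (nat_lit 0), (nat_lit 0), (18, 33, 44), [9293259, 468026], 0⟩,
  ⟨⟨-9, -4, -52, -40, -23, 30, -22, 32, -7⟩, (.cons (nat_lit 13828310) (nat_lit 102178) (nat_lit 15249713)
 (nat_lit 1) (.cons (nat_lit 609579) (nat_lit 58292) (nat_lit 224343) (nat_lit 1) .nil)), (nat_lit 35),
 (nat_lit 0), (nat_lit 0), (nat_lit 0), (36, 19, 41), [1993727, 1233060], 0⟩,
  mz,
  ⟨⟨19, 0, -63, 0, -47, 0, 42, 0, -23⟩, (.cons (nat_lit 7095236) (nat_lit 15846415) (nat_lit 3169283) (nat_lit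
 1) (.cons (nat_lit 1064884) (nat_lit 49036) (nat_lit 632172) (nat_lit 1) .nil)), (nat_lit 29), (nat_lit 0),
 (nat_lit 0), (nat_lit 0), (16, 0, 23), [19112890, 787389], 0⟩,
  ⟨⟨-39, 32, 8, -20, -33, -20, 6, 24, -41⟩, (.cons (nat_lit 2476245) (nat_lit 13897564) (nat_lit 1469608)
 (nat_lit 1) (.cons (nat_lit 718844) (nat_lit 1593602) (nat_lit 1199626) (nat_lit 1) .nil)), (nat_lit 22),
 (nat_lit 0), (nat_lit 0), (nat_lit 0), (25, 8, 7), [5115410, 1301614], 0⟩,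
  ⟨⟨17, -36, 28, -20, 23, 50, 38, 8, -1⟩, (.cons (nat_lit 880830) (nat_lit 3218214) (nat_lit 11752678) (nat_lit
 1) (.cons (nat_lit 1138397) (nat_lit 441781) (nat_lit 1760739) (nat_lit 1) .nil)), (nat_lit 32), (nat_lit 0),
 (nat_lit 0), (nat_lit 0), (2, 17, 10), [2146538, 1012451], 0⟩,
  ⟨⟨21, 32, -49, 2, -35, -36, -28, 20, -13⟩, (.cons (nat_lit 9756419) (nat_lit 6203903) (nat_lit 18679853)
 (nat_lit 1) (.cons (nat_lit 1607336) (nat_lit 781511) (nat_lit 1647695) (nat_lit 1) .nil)), (nat_lit 5),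
 (nat_lit 0), (nat_lit 0), (nat_lit 0), (30, 23, 7), [7650157, 289527], 0⟩,
  ⟨⟨45, 8, -49, 20, -33, 20, 6, -24, -41⟩, (.cons (nat_lit 13442056) (nat_lit 9355679) (nat_lit 2384761)
 (nat_lit 1) (.cons (nat_lit 823505) (nat_lit 1406272) (nat_lit 559297) (nat_lit 1) .nil)), (nat_lit 28),
 (nat_lit 0), (nat_lit 0), (nat_lit 0), (40, 23, 21), [17604721, 1831661], 0⟩,
  mz,
  mz,
  ⟨⟨39, -32, -31, 20, 33, -40, -6, -24, -35⟩, (.cons (nat_lit 11415159) (nat_lit 5309791) (nat_lit 7218819)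
 (nat_lit 1) (.cons (nat_lit 1651099) (nat_lit 832217) (nat_lit 208499) (nat_lit 1) .nil)), (nat_lit 22),
 (nat_lit 0), (nat_lit 0), (nat_lit 0), (28, 24, 21), [19061947, 1460985], 0⟩,
  ⟨⟨-21, 32, -28, -2, -35, -34, 28, 20, -41⟩, (.cons (nat_lit 310310) (nat_lit 9197125) (nat_lit 6960150)
 (nat_lit 1) (.cons (nat_lit 523519) (nat_lit 325255) (nat_lit 571573) (nat_lit 1) .nil)), (nat_lit 5),
 (nat_lit 0), (nat_lit 0), (nat_lit 0), (30, 23, 7), [10099454, 433311], 0⟩,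
  ⟨⟨17, 36, -45, -20, -23, -30, 38, -8, -37⟩, (.cons (nat_lit 13927244) (nat_lit 12119653) (nat_lit 2790935)
 (nat_lit 1) (.cons (nat_lit 1582306) (nat_lit 1321930) (nat_lit 430079) (nat_lit 1) .nil)), (nat_lit 32),
 (nat_lit 0), (nat_lit 0), (nat_lit 0), (45, 30, 37), [1545141, 1384108], 0⟩,
  ⟨⟨39, 32, -31, 20, -33, -40, -6, 24, -35⟩, (.cons (nat_lit 18647630) (nat_lit 15934421) (nat_lit 12173332)
 (nat_lit 1) (.cons (nat_lit 297711) (nat_lit 559915) (nat_lit 964878) (nat_lit 1) .nil)), (nat_lit 22),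
 (nat_lit 0), (nat_lit 0), (nat_lit 0), (25, 8, 7), [18322801, 1434581], 0⟩,
  ⟨⟨19, 0, 44, 0, 47, 0, 42, 0, -19⟩, (.cons (nat_lit 19487170) (nat_lit 19021979) (nat_lit 6940448) (nat_lit
 1) (.cons (nat_lit 1874160) (nat_lit 801202) (nat_lit 1778330) (nat_lit 1) .nil)), (nat_lit 29), (nat_lit 0),
 (nat_lit 0), (nat_lit 0), (31, 0, 24), [11242191, 45813], 0⟩,
  mz,
  ⟨⟨9, -4, -61, 40, -23, -10, 22, 32, -29⟩, (.cons (nat_lit 2715516) (nat_lit 2494809) (nat_lit 18800504)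
 (nat_lit 1) (.cons (nat_lit 457173) (nat_lit 7902) (nat_lit 724711) (nat_lit 1) .nil)), (nat_lit 35), (nat_lit
 0), (nat_lit 0), (nat_lit 0), (36, 19, 41), [13194460, 436242], 0⟩,
  ⟨⟨-9, 4, -52, 40, -23, -30, -22, -32, -7⟩, (.cons (nat_lit 18337383) (nat_lit 834810) (nat_lit 1709879)
 (nat_lit 1) (.cons (nat_lit 1784878) (nat_lit 1814778) (nat_lit 1309618) (nat_lit 1) .nil)), (nat_lit 20),
 (nat_lit 0), (nat_lit 0), (nat_lit 0), (18, 14, 44), [4092580, 362076], 0⟩,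
  ⟨⟨-39, -8, -17, 2, 45, -16, 12, -12, -49⟩, (.cons (nat_lit 5899080) (nat_lit 18903331) (nat_lit 3721514)
 (nat_lit 1) (.cons (nat_lit 1677333) (nat_lit 1721773) (nat_lit 39591) (nat_lit 1) .nil)), (nat_lit 14),
 (nat_lit 0), (nat_lit 0), (nat_lit 0), (3, 36, 28), [12219619, 1520226], 0⟩,
  mz,
  ⟨⟨21, -44, -29, -20, -23, 50, 38, -8, -1⟩, (.cons (nat_lit 6642050) (nat_lit 10685153) (nat_lit 18766848)
 (nat_lit 1) (.cons (nat_lit 1606916) (nat_lit 1482773) (nat_lit 354917) (nat_lit 1) .nil)), (nat_lit 15),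
 (nat_lit 0), (nat_lit 0), (nat_lit 0), (18, 3, 46), [10163015, 1619873], 0⟩,
  ⟨⟨27, -32, -47, -40, -17, 0, 10, 16, -47⟩, (.cons (nat_lit 12509384) (nat_lit 16735911) (nat_lit 1) (nat_lit
 5798672) (.cons (nat_lit 87724) (nat_lit 747805) (nat_lit 1548176) (nat_lit 1) .nil)), (nat_lit 38), (nat_lit
 0), (nat_lit 0), (nat_lit 0), (46, 45, 24), [12469178, 1080144], 0⟩,
  mz,
  ⟨⟨-27, 32, -20, 40, 17, -40, -10, -16, -37⟩, (.cons (nat_lit 19487170) (nat_lit 12800587) (nat_lit 18607996)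
 (nat_lit 1) (.cons (nat_lit 1874160) (nat_lit 490117) (nat_lit 1871257) (nat_lit 1) .nil)), (nat_lit 38),
 (nat_lit 0), (nat_lit 0), (nat_lit 0), (43, 39, 2), [18232332, 660476], 0⟩,
  mz,
  mz,
  mz,
  ⟨⟨45, -16, -1, 22, 35, -36, 20, -28, -37⟩, (.cons (nat_lit 4879614) (nat_lit 9455004) (nat_lit 7376753)
 (nat_lit 1) (.cons (nat_lit 951442) (nat_lit 1076037) (nat_lit 1) (nat_lit 1195840) .nil)), (nat_lit 45),
 (nat_lit 0), (nat_lit 0), (nat_lit 0), (12, 9, 21), [8126291, 1732962], 0⟩,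
  mz,
  ⟨⟨51, 4, -32, 2, -45, -16, 12, 12, -49⟩, (.cons (nat_lit 14076089) (nat_lit 19379615) (nat_lit 11853424)
 (nat_lit 1) (.cons (nat_lit 391292) (nat_lit 1829242) (nat_lit 714560) (nat_lit 1) .nil)), (nat_lit 33),
 (nat_lit 0), (nat_lit 0), (nat_lit 0), (7, 27, 21), [7055712, 1557142], 0⟩,
  ⟨⟨49, 12, -13, -2, 35, -34, 28, -20, -41⟩, (.cons (nat_lit 14903310) (nat_lit 915065) (nat_lit 7674330)
 (nat_lit 1) (.cons (nat_lit 796388) (nat_lit 1851836) (nat_lit 349411) (nat_lit 1) .nil)), (nat_lit 42),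
 (nat_lit 0), (nat_lit 0), (nat_lit 0), (17, 30, 3), [12072562, 823262], 0⟩,
  ⟨⟨25, 12, -61, 22, 35, 14, -20, 28, -17⟩, (.cons (nat_lit 4580239) (nat_lit 13928077) (nat_lit 425398)
 (nat_lit 1) (.cons (nat_lit 1381025) (nat_lit 603004) (nat_lit 1331932) (nat_lit 1) .nil)), (nat_lit 21),
 (nat_lit 0), (nat_lit 0), (nat_lit 0), (2, 45, 36), [130687, 300711], 0⟩]

/-- All the moves. -/
noncomputable def tabs : List (List (List Mv)) := [[[], t0_1, [], [], t0_4], [[], t1_1, [], [], t1_4], [], [], [[], t4_1, [], [], t4_4]]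

/-- Subtrie. -/
noncomputable def T1 : Tr := (.ev (nat_lit 20) (nat_lit 74766892226560) (.nd (nat_lit 33) (.br (nat_lit 19)
 (.br (nat_lit 11) (.br (nat_lit 7) (.br (nat_lit 4) (.ch (nat_lit 1) (.ev (nat_lit 52) (nat_lit
 17983564939778) (.ev (nat_lit 84) (nat_lit 134217728) (.ev (nat_lit 212) (nat_lit 35184372088832) (.ev
 (nat_lit 276) (nat_lit 2097152) (.ev (nat_lit 308) (nat_lit 4194304) (.ev (nat_lit 512) (nat_lit 2417000492)
 .dd))))))) (.br (nat_lit 5) (.ch (nat_lit 4) (.ev (nat_lit 52) (nat_lit 17631379718658) (.ev (nat_lit 84)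
 (nat_lit 1048576) (.ev (nat_lit 340) (nat_lit 35459249995776) (.ev (nat_lit 688) (nat_lit 134250496) (.nd
 (nat_lit 864) (.br (nat_lit 5) (.ch (nat_lit 2) (.ev (nat_lit 880) (nat_lit 10737418248) (.ev (nat_lit 948)
 (nat_lit 4) (.ev (nat_lit 1280) (nat_lit 4194304) (.ev (nat_lit 1364) (nat_lit 32) (.ev (nat_lit 1696)
 (nat_lit 68987912192) .dd)))))) (.br (nat_lit 9) (.ch (nat_lit 5) (.ev (nat_lit 880) (nat_lit 70871154728)
 (.ev (nat_lit 948) (nat_lit 8589934592) (.ev (nat_lit 960) (nat_lit 4) (.ev (nat_lit 973) (nat_lit 268435456)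
 .dd))))) (.ch (nat_lit 9) (.ev (nat_lit 880) (nat_lit 8862564384) (.ev (nat_lit 960) (nat_lit 4) (.ev (nat_lit
 980) (nat_lit 68719476736) (.ev (nat_lit 1312) (nat_lit 2147483648) (.ev (nat_lit 1325) (nat_lit 8)
 .dd)))))))))))))) (.ch (nat_lit 5) (.ev (nat_lit 52) (nat_lit 35262219419662) (.ev (nat_lit 308) (nat_lit
 17592186044416) (.ev (nat_lit 500) (nat_lit 4194304) (.ev (nat_lit 564) (nat_lit 32) (.ev (nat_lit 592)
 (nat_lit 4294967296) (.nd (nat_lit 864) (.br (nat_lit 9) (.br (nat_lit 7) (.ch (nat_lit 1) (.ev (nat_lit 880)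
 (nat_lit 277430141440) (.ev (nat_lit 1364) (nat_lit 32768) (.ev (nat_lit 1373) (nat_lit 34359738368) .dd))))
 (.ch (nat_lit 7) (.ev (nat_lit 880) (nat_lit 311655694336) (.ev (nat_lit 1364) (nat_lit 134217728) (.ev
 (nat_lit 1373) (nat_lit 512) .dd))))) (.br (nat_lit 10) (.ch (nat_lit 9) (.ev (nat_lit 880) (nat_lit
 34764521984) (.fin (nat_lit 576471197660168785)))) (.ch (nat_lit 10) (.ev (nat_lit 880) (nat_lit 277159641600)
 (.ev (nat_lit 1024) (nat_lit 2097152) (.ev (nat_lit 1092) (nat_lit 268435456) (.ev (nat_lit 1101) (nat_lit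
 34359738368) .dd)))))))))))))))) (.br (nat_lit 8) (.ch (nat_lit 7) (.ev (nat_lit 52) (nat_lit 35292152070662)
 (.ev (nat_lit 212) (nat_lit 4194336) (.ev (nat_lit 244) (nat_lit 536870912) (.ev (nat_lit 404) (nat_lit
 274877906944) (.ev (nat_lit 468) (nat_lit 17592186044416) (.nd (nat_lit 864) (.br (nat_lit 5) (.br (nat_lit 2)
 (.ch (nat_lit 0) (.ev (nat_lit 880) (nat_lit 2147516424) (.ev (nat_lit 893) (nat_lit 8589934592) .dd))) (.ch
 (nat_lit 2) (.ev (nat_lit 880) (nat_lit 10737451008) (.ev (nat_lit 893) (nat_lit 8) .dd)))) (.br (nat_lit 7)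
 (.ch (nat_lit 5) (.ev (nat_lit 880) (nat_lit 10737418248) (.ev (nat_lit 893) (nat_lit 32768) .dd))) (.br
 (nat_lit 9) (.ch (nat_lit 7) (.ev (nat_lit 880) (nat_lit 8589967368) (.ev (nat_lit 893) (nat_lit 2147483648)
 .dd))) (.ch (nat_lit 9) (.ev (nat_lit 880) (nat_lit 10737418240) (.ev (nat_lit 1664) (nat_lit 32768) (.ev
 (nat_lit 1677) (nat_lit 8) .dd)))))))))))))) (.br (nat_lit 10) (.ch (nat_lit 8) (.ev (nat_lit 52) (nat_lit
 358903447560) (.ev (nat_lit 116) (nat_lit 512) (.ev (nat_lit 148) (nat_lit 4) (.ev (nat_lit 340) (nat_lit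
 2097152) (.ev (nat_lit 500) (nat_lit 35184372088832) (.ev (nat_lit 608) (nat_lit 34359738368) (.nd (nat_lit
 864) (.br (nat_lit 5) (.br (nat_lit 1) (.ch (nat_lit 0) (.ev (nat_lit 880) (nat_lit 671121442) (.ev (nat_lit
 893) (nat_lit 17592186044416) .dd))) (.br (nat_lit 2) (.ch (nat_lit 1) (.ev (nat_lit 880) (nat_lit 536870946)
 (.ev (nat_lit 948) (nat_lit 134217728) (.ev (nat_lit 1520) (nat_lit 32768) (.ev (nat_lit 1533) (nat_lit
 17592186044416) .dd))))) (.ch (nat_lit 2) (.ev (nat_lit 880) (nat_lit 17592722948098) (.ev (nat_lit 896)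
 (nat_lit 32) (.ev (nat_lit 909) (nat_lit 134217728) .dd)))))) (.br (nat_lit 9) (.ch (nat_lit 5) (.ev (nat_lit
 880) (nat_lit 17592320294944) (.ev (nat_lit 928) (nat_lit 536870912) (.ev (nat_lit 941) (nat_lit 2) .dd))))
 (.br (nat_lit 10) (.ch (nat_lit 9) (.ev (nat_lit 880) (nat_lit 17592722948128) (.ev (nat_lit 1120) (nat_lit 2)
 (.ev (nat_lit 1133) (nat_lit 134217728) .dd)))) (.ch (nat_lit 10) (.ev (nat_lit 880) (nat_lit 134217762) (.ev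
 (nat_lit 1364) (nat_lit 32768) (.ev (nat_lit 1856) (nat_lit 17592722915328) .dd))))))))))))))) (.ch (nat_lit
 10) (.ev (nat_lit 52) (nat_lit 107381522956) (.ev (nat_lit 116) (nat_lit 671088640) (.ev (nat_lit 244)
 (nat_lit 8589934592) (.ev (nat_lit 372) (nat_lit 17592186044416) (.ev (nat_lit 624) (nat_lit 2147483680) (.nd
 (nat_lit 864) (.br (nat_lit 5) (.ch (nat_lit 1) (.ev (nat_lit 880) (nat_lit 275146342400) (.ev (nat_lit 912)
 (nat_lit 2) (.ev (nat_lit 1092) (nat_lit 32768) (.ev (nat_lit 1101) (nat_lit 35184372088832) .dd))))) (.br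
 (nat_lit 9) (.ch (nat_lit 5) (.ev (nat_lit 880) (nat_lit 35184372088832) (.ev (nat_lit 912) (nat_lit 2) (.ev
 (nat_lit 998) (nat_lit 268468224) (.ev (nat_lit 1005) (nat_lit 274877906944) .dd))))) (.ch (nat_lit 9) (.ev
 (nat_lit 880) (nat_lit 35459518431232) (.ev (nat_lit 912) (nat_lit 32768) (.ev (nat_lit 925) (nat_lit 2)
 .dd)))))))))))))))) (.br (nat_lit 15) (.br (nat_lit 12) (.ch (nat_lit 11) (.ev (nat_lit 52) (nat_lit
 52854405464576) (.ev (nat_lit 116) (nat_lit 4294967296) (.ev (nat_lit 148) (nat_lit 8) (.ev (nat_lit 212)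
 (nat_lit 34359738368) (.ev (nat_lit 308) (nat_lit 274877906944) (.ev (nat_lit 532) (nat_lit 268435456) (.ev
 (nat_lit 576) (nat_lit 2281701376) (.nd (nat_lit 864) (.br (nat_lit 7) (.br (nat_lit 5) (.ch (nat_lit 1) (.ev
 (nat_lit 880) (nat_lit 2129956) (.ev (nat_lit 1364) (nat_lit 2) (.ev (nat_lit 1373) (nat_lit 4194304) .dd))))
 (.ch (nat_lit 5) (.ev (nat_lit 880) (nat_lit 6291490) (.ev (nat_lit 1312) (nat_lit 32768) (.ev (nat_lit 1325)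
 (nat_lit 4) .dd))))) (.br (nat_lit 10) (.ch (nat_lit 7) (.ev (nat_lit 880) (nat_lit 2129926) (.ev (nat_lit
 1364) (nat_lit 32) (.ev (nat_lit 1373) (nat_lit 4194304) .dd)))) (.ch (nat_lit 10) (.ev (nat_lit 880) (nat_lit
 4194342) (.ev (nat_lit 1364) (nat_lit 2097152) (.ev (nat_lit 1373) (nat_lit 32768) .dd))))))))))))))) (.br
 (nat_lit 13) (.ch (nat_lit 12) (.ev (nat_lit 52) (nat_lit 35260075081728) (.ev (nat_lit 160) (nat_lit
 17910419456558) .dd))) (.ch (nat_lit 13) (.ev (nat_lit 52) (nat_lit 17594740375552) (.ev (nat_lit 148)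
 (nat_lit 4294967808) (.ev (nat_lit 224) (nat_lit 35571459194926) .dd)))))) (.br (nat_lit 17) (.br (nat_lit 16)
 (.ch (nat_lit 15) (.ev (nat_lit 52) (nat_lit 277569601570) (.ev (nat_lit 244) (nat_lit 512) (.ev (nat_lit 500)
 (nat_lit 32768) (.ev (nat_lit 532) (nat_lit 4294967296) (.ev (nat_lit 564) (nat_lit 34359738368) (.nd (nat_lit
 864) (.br (nat_lit 5) (.br (nat_lit 1) (.ch (nat_lit 0) (.ev (nat_lit 880) (nat_lit 52776960786440) (.ev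
 (nat_lit 912) (nat_lit 68719476736) (.ev (nat_lit 1280) (nat_lit 4) (.ev (nat_lit 1293) (nat_lit 8589934592)
 .dd))))) (.ch (nat_lit 1) (.ev (nat_lit 880) (nat_lit 69122129924) (.ev (nat_lit 1376) (nat_lit
 17592186044416) (.ev (nat_lit 1540) (nat_lit 35184372088832) (.nd (nat_lit 1873) (.ch (nat_lit 36) (.nd
 (nat_lit 1888) (.br (nat_lit 9) (.ch (nat_lit 2) (.fin (nat_lit 576461302059713087))) (.ch (nat_lit 9) (.ev
 (nat_lit 1904) (nat_lit 8589934600) .dd))))))))))) (.br (nat_lit 7) (.ch (nat_lit 5) (.ev (nat_lit 880)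
 (nat_lit 17592588697612) (.ev (nat_lit 1364) (nat_lit 77309411328) (.ev (nat_lit 1373) (nat_lit
 35184372088832) .dd)))) (.br (nat_lit 10) (.ch (nat_lit 7) (.ev (nat_lit 880) (nat_lit 35261949935620) (.ev
 (nat_lit 1364) (nat_lit 8) (.fin (nat_lit 576462401588118073))))) (.ch (nat_lit 10) (.ev (nat_lit 880)
 (nat_lit 52854001762308) (.ev (nat_lit 1168) (nat_lit 8) (.ev (nat_lit 1181) (nat_lit 268435456)
 .dd)))))))))))))) (.ch (nat_lit 16) (.ev (nat_lit 52) (nat_lit 52779376705572) (.ev (nat_lit 84) (nat_lit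
 268435456) (.ev (nat_lit 180) (nat_lit 8) (.ev (nat_lit 500) (nat_lit 2097152) (.nd (nat_lit 864) (.br
 (nat_lit 7) (.br (nat_lit 2) (.ch (nat_lit 1) (.ev (nat_lit 880) (nat_lit 356487561218) (.ev (nat_lit 1156)
 (nat_lit 34359738368) (.ev (nat_lit 1165) (nat_lit 512) .dd)))) (.ch (nat_lit 2) (.ev (nat_lit 880) (nat_lit
 115969393154) (.ev (nat_lit 893) (nat_lit 274877906944) .dd)))) (.br (nat_lit 9) (.ch (nat_lit 7) (.ev
 (nat_lit 880) (nat_lit 73015525890) (.ev (nat_lit 1264) (nat_lit 34359738368) (.ev (nat_lit 1664) (nat_lit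
 8589934592) (.ev (nat_lit 1744) (nat_lit 274882101248) .dd))))) (.br (nat_lit 10) (.ch (nat_lit 9) (.ev
 (nat_lit 880) (nat_lit 322127790592) (.ev (nat_lit 1200) (nat_lit 68719476736) (.ev (nat_lit 1424) (nat_lit 2)
 (.ev (nat_lit 1437) (nat_lit 32768) .dd))))) (.ch (nat_lit 10) (.ev (nat_lit 880) (nat_lit 377957122050) (.ev
 (nat_lit 948) (nat_lit 8594128896) (.ev (nat_lit 960) (nat_lit 512) (.ev (nat_lit 1392) (nat_lit 32768) (.fin
 (nat_lit 576462401571340863))))))))))))))))) (.br (nat_lit 18) (.ch (nat_lit 17) (.ev (nat_lit 52) (nat_lit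
 42950721546) (.ev (nat_lit 116) (nat_lit 268435456) (.ev (nat_lit 372) (nat_lit 4194304) (.ev (nat_lit 404)
 (nat_lit 17592186044448) (.ev (nat_lit 564) (nat_lit 32768) (.nd (nat_lit 864) (.br (nat_lit 2) (.br (nat_lit
 1) (.ch (nat_lit 0) (.ev (nat_lit 880) (nat_lit 35260207202820) (.ev (nat_lit 893) (nat_lit 274877906944)
 .dd))) (.ch (nat_lit 1) (.ev (nat_lit 880) (nat_lit 348563439620) (.ev (nat_lit 948) (nat_lit 2097664) (.ev
 (nat_lit 1364) (nat_lit 2147483648) (.ev (nat_lit 1373) (nat_lit 35184372088832) .dd)))))) (.br (nat_lit 5)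
 (.ch (nat_lit 2) (.ev (nat_lit 880) (nat_lit 2686451716) (.ev (nat_lit 948) (nat_lit 275012124672) (.ev
 (nat_lit 1168) (nat_lit 512) (.ev (nat_lit 1216) (nat_lit 68719476736) (.ev (nat_lit 1280) (nat_lit
 4294967296) (.ev (nat_lit 1293) (nat_lit 35184372088832) .dd))))))) (.br (nat_lit 10) (.ch (nat_lit 5) (.ev
 (nat_lit 880) (nat_lit 2283799040) (.ev (nat_lit 948) (nat_lit 4294967296) (.ev (nat_lit 1264) (nat_lit 4)
 (.ev (nat_lit 1440) (nat_lit 274877906944) (.ev (nat_lit 1680) (nat_lit 69256347648) (.ev (nat_lit 1693)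
 (nat_lit 35184372088832) .dd))))))) (.ch (nat_lit 10) (.ev (nat_lit 880) (nat_lit 350174052356) (.ev (nat_lit
 1344) (nat_lit 35184372088832) (.ev (nat_lit 1376) (nat_lit 536870912) (.ev (nat_lit 1540) (nat_lit 2097152)
 (.ev (nat_lit 1549) (nat_lit 512) .dd)))))))))))))))) (.ch (nat_lit 18) (.ev (nat_lit 52) (nat_lit 5100306952)
 (.ev (nat_lit 84) (nat_lit 2) (.ev (nat_lit 180) (nat_lit 10737418240) (.ev (nat_lit 244) (nat_lit 4) (.ev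
 (nat_lit 308) (nat_lit 35184372088832) (.ev (nat_lit 372) (nat_lit 32) (.ev (nat_lit 784) (nat_lit 1048576)
 (.nd (nat_lit 864) (.br (nat_lit 5) (.br (nat_lit 2) (.ch (nat_lit 0) (.ev (nat_lit 880) (nat_lit 140509184)
 (.ev (nat_lit 1424) (nat_lit 34359738368) (.ev (nat_lit 1552) (nat_lit 17592186044416) (.ev (nat_lit 1572)
 (nat_lit 68719476736) (.ev (nat_lit 1581) (nat_lit 274877906944) .dd)))))) (.ch (nat_lit 2) (.ev (nat_lit 880)
 (nat_lit 17626682097664) (.ev (nat_lit 1296) (nat_lit 4194304) (.ev (nat_lit 1364) (nat_lit 68719476736) (.ev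
 (nat_lit 1373) (nat_lit 274877906944) .dd)))))) (.br (nat_lit 7) (.ch (nat_lit 5) (.ev (nat_lit 880) (nat_lit
 17901564198912) (.ev (nat_lit 893) (nat_lit 68719476736) .dd))) (.br (nat_lit 9) (.ch (nat_lit 7) (.ev
 (nat_lit 880) (nat_lit 103219724288) (.ev (nat_lit 1364) (nat_lit 274877906944) (.ev (nat_lit 1373) (nat_lit
 17592186044416) .dd)))) (.ch (nat_lit 9) (.ev (nat_lit 880) (nat_lit 17970147360768) (.ev (nat_lit 1232)
 (nat_lit 134217728) (.ev (nat_lit 1245) (nat_lit 2097152) .dd)))))))))))))))))))) (.br (nat_lit 26) (.br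
 (nat_lit 22) (.br (nat_lit 20) (.ch (nat_lit 19) (.ev (nat_lit 52) (nat_lit 8724185128) (.ev (nat_lit 96)
 (nat_lit 53161770353158) .dd))) (.br (nat_lit 21) (.ch (nat_lit 20) (.ev (nat_lit 52) (nat_lit 11278516228)
 (.ev (nat_lit 372) (nat_lit 274877906944) (.ev (nat_lit 436) (nat_lit 268435456) (.ev (nat_lit 468) (nat_lit
 34359738368) (.ev (nat_lit 532) (nat_lit 134217728) (.nd (nat_lit 864) (.br (nat_lit 2) (.br (nat_lit 1) (.ch
 (nat_lit 0) (.ev (nat_lit 880) (nat_lit 35184374186538) (.ev (nat_lit 1376) (nat_lit 17596482060288) (.ev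
 (nat_lit 1389) (nat_lit 68719476736) .dd)))) (.ch (nat_lit 1) (.ev (nat_lit 880) (nat_lit 35257386533408) (.ev
 (nat_lit 948) (nat_lit 8) (.ev (nat_lit 1328) (nat_lit 1048576) (.ev (nat_lit 1376) (nat_lit 2) (.ev (nat_lit
 1712) (nat_lit 17592188141568) .dd))))))) (.br (nat_lit 5) (.ch (nat_lit 2) (.ev (nat_lit 880) (nat_lit
 17660908666890) (.ev (nat_lit 948) (nat_lit 32) (.ev (nat_lit 1364) (nat_lit 512) (.ev (nat_lit 1488) (nat_lit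
 35188667056128) .dd))))) (.br (nat_lit 10) (.ch (nat_lit 5) (.ev (nat_lit 880) (nat_lit 52776560230954) (.ev
 (nat_lit 1344) (nat_lit 4294967296) (.ev (nat_lit 1376) (nat_lit 1048576) (.ev (nat_lit 1389) (nat_lit
 68719476736) .dd))))) (.ch (nat_lit 10) (.ev (nat_lit 880) (nat_lit 17660905521186) (.ev (nat_lit 948)
 (nat_lit 35184372088840) (.ev (nat_lit 1328) (nat_lit 2097152) (.ev (nat_lit 1680) (nat_lit 512) (.fin
 (nat_lit 576462401571340863))))))))))))))))) (.ch (nat_lit 21) (.ev (nat_lit 52) (nat_lit 43083891232) (.ev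
 (nat_lit 64) (nat_lit 53127410647054) .dd))))) (.br (nat_lit 24) (.ch (nat_lit 22) (.ev (nat_lit 52) (nat_lit
 17631114428416) (.ev (nat_lit 116) (nat_lit 2) (.ev (nat_lit 180) (nat_lit 68719476736) (.ev (nat_lit 212)
 (nat_lit 274877906944) (.ev (nat_lit 468) (nat_lit 35184372088832) (.nd (nat_lit 864) (.br (nat_lit 2) (.br
 (nat_lit 1) (.ch (nat_lit 0) (.ev (nat_lit 880) (nat_lit 9263153708) (.ev (nat_lit 893) (nat_lit 2147483648)
 .dd))) (.ch (nat_lit 1) (.ev (nat_lit 880) (nat_lit 2097196) (.ev (nat_lit 948) (nat_lit 8589934592) (.ev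
 (nat_lit 1156) (nat_lit 2147483648) (.ev (nat_lit 1440) (nat_lit 32768) (.ev (nat_lit 1606) (nat_lit
 671089152) .dd))))))) (.br (nat_lit 7) (.ch (nat_lit 2) (.ev (nat_lit 880) (nat_lit 11276419080) (.ev (nat_lit
 1040) (nat_lit 4) (.ev (nat_lit 1364) (nat_lit 512) (.ev (nat_lit 1376) (nat_lit 134217728) (.ev (nat_lit
 1389) (nat_lit 32) .dd)))))) (.br (nat_lit 9) (.ch (nat_lit 7) (.ev (nat_lit 880) (nat_lit 2130436) (.ev
 (nat_lit 948) (nat_lit 2147483656) (.ev (nat_lit 1328) (nat_lit 536870912) (.ev (nat_lit 1440) (nat_lit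
 8589934624) (.ev (nat_lit 1453) (nat_lit 134217728) .dd)))))) (.ch (nat_lit 9) (.ev (nat_lit 880) (nat_lit
 11274322440) (.ev (nat_lit 948) (nat_lit 36) (.ev (nat_lit 1376) (nat_lit 134217728) (.ev (nat_lit 1389)
 (nat_lit 2097152) .dd))))))))))))))) (.br (nat_lit 25) (.ch (nat_lit 24) (.ev (nat_lit 52) (nat_lit
 52849842061346) (.ev (nat_lit 148) (nat_lit 134217728) (.ev (nat_lit 276) (nat_lit 32768) (.ev (nat_lit 308)
 (nat_lit 2097152) (.ev (nat_lit 404) (nat_lit 4194304) (.nd (nat_lit 864) (.br (nat_lit 7) (.br (nat_lit 2)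
 (.ch (nat_lit 1) (.ev (nat_lit 880) (nat_lit 309774516228) (.ev (nat_lit 1540) (nat_lit 512) (.ev (nat_lit
 1552) (nat_lit 2147483648) (.nd (nat_lit 1873) (.ch (nat_lit 23) (.nd (nat_lit 1888) (.br (nat_lit 4) (.ch
 (nat_lit 2) (.fin (nat_lit 576461302059713087))) (.ch (nat_lit 4) (.ev (nat_lit 1904) (nat_lit 8589934600)
 .dd)))))))))) (.ch (nat_lit 2) (.ev (nat_lit 880) (nat_lit 320511934976) (.ev (nat_lit 1408) (nat_lit 8) (.ev
 (nat_lit 1421) (nat_lit 4) .dd))))) (.br (nat_lit 9) (.ch (nat_lit 7) (.ev (nat_lit 880) (nat_lit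
 277025391116) (.ev (nat_lit 912) (nat_lit 34359738368) (.ev (nat_lit 1168) (nat_lit 8589934592) (.ev (nat_lit
 1181) (nat_lit 536870912) .dd))))) (.br (nat_lit 10) (.ch (nat_lit 9) (.ev (nat_lit 880) (nat_lit 43486544388)
 (.ev (nat_lit 1364) (nat_lit 8) (.fin (nat_lit 576471197660168785))))) (.ch (nat_lit 10) (.ev (nat_lit 880)
 (nat_lit 277562261516) (.ev (nat_lit 1540) (nat_lit 8589935104) (.ev (nat_lit 1549) (nat_lit 34359738368)
 .dd)))))))))))))) (.ch (nat_lit 25) (.ev (nat_lit 52) (nat_lit 53088083804192) (.ev (nat_lit 84) (nat_lit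
 536870912) (.ev (nat_lit 116) (nat_lit 4) (.ev (nat_lit 244) (nat_lit 4294967304) (.nd (nat_lit 864) (.br
 (nat_lit 5) (.br (nat_lit 1) (.ch (nat_lit 0) (.ev (nat_lit 880) (nat_lit 77577847298) (.ev (nat_lit 893)
 (nat_lit 1048576) .dd))) (.br (nat_lit 2) (.ch (nat_lit 1) (.ev (nat_lit 880) (nat_lit 77578895362) (.ev
 (nat_lit 893) (nat_lit 512) .dd))) (.ch (nat_lit 2) (.ev (nat_lit 880) (nat_lit 8859418626) (.fin (nat_lit
 576462401572389440)))))) (.br (nat_lit 7) (.ch (nat_lit 5) (.ev (nat_lit 880) (nat_lit 8589935106) (.ev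
 (nat_lit 948) (nat_lit 68719476736) (.ev (nat_lit 1364) (nat_lit 1048576) (.ev (nat_lit 1373) (nat_lit
 268435456) .dd))))) (.br (nat_lit 9) (.ch (nat_lit 7) (.ev (nat_lit 880) (nat_lit 68988960768) (.ev (nat_lit
 948) (nat_lit 512) (.ev (nat_lit 1364) (nat_lit 2) (.ev (nat_lit 1373) (nat_lit 8589934592) .dd))))) (.ch
 (nat_lit 9) (.ev (nat_lit 880) (nat_lit 8859419138) (.ev (nat_lit 893) (nat_lit 68719476736)
 .dd))))))))))))))) (.br (nat_lit 30) (.br (nat_lit 27) (.ch (nat_lit 26) (.ev (nat_lit 52) (nat_lit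
 274880037384) (.ev (nat_lit 84) (nat_lit 4) (.ev (nat_lit 148) (nat_lit 8589934592) (.ev (nat_lit 180)
 (nat_lit 268435458) (.ev (nat_lit 276) (nat_lit 34359738368) (.ev (nat_lit 436) (nat_lit 4294967296) (.nd
 (nat_lit 864) (.br (nat_lit 2) (.br (nat_lit 1) (.ch (nat_lit 0) (.ev (nat_lit 880) (nat_lit 35185047371776)
 (.ev (nat_lit 948) (nat_lit 1048576) (.ev (nat_lit 1168) (nat_lit 17592186044416) (.ev (nat_lit 1540) (nat_lit
 32) (.ev (nat_lit 1760) (nat_lit 68719476736) (.ev (nat_lit 1773) (nat_lit 2147483648) .dd))))))) (.ch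
 (nat_lit 1) (.ev (nat_lit 880) (nat_lit 17661043933216) (.ev (nat_lit 948) (nat_lit 537919488) (.ev (nat_lit
 1472) (nat_lit 35184372088832) (.ev (nat_lit 1485) (nat_lit 2147483648) .dd)))))) (.br (nat_lit 7) (.ch
 (nat_lit 2) (.ev (nat_lit 880) (nat_lit 52779377754112) (.ev (nat_lit 948) (nat_lit 4194304) (.ev (nat_lit
 1328) (nat_lit 32) (.ev (nat_lit 1341) (nat_lit 68719476736) .dd))))) (.br (nat_lit 9) (.ch (nat_lit 7) (.ev
 (nat_lit 880) (nat_lit 35253092614144) (.ev (nat_lit 1344) (nat_lit 2147483648) (.ev (nat_lit 1376) (nat_lit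
 32) (.ev (nat_lit 1824) (nat_lit 541065216) (.fin (nat_lit 576462401588118073))))))) (.ch (nat_lit 9) (.ev
 (nat_lit 880) (nat_lit 52845819723776) (.ev (nat_lit 1440) (nat_lit 134217728) (.ev (nat_lit 1540) (nat_lit
 2147483648) (.ev (nat_lit 1549) (nat_lit 32) .dd)))))))))))))))) (.br (nat_lit 29) (.ch (nat_lit 27) (.ev
 (nat_lit 52) (nat_lit 345879085100) (.ev (nat_lit 84) (nat_lit 8589934592) (.ev (nat_lit 148) (nat_lit
 536870912) (.ev (nat_lit 180) (nat_lit 4294967296) (.ev (nat_lit 244) (nat_lit 2) (.ev (nat_lit 416) (nat_lit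
 52811193680384) .dd))))))) (.ch (nat_lit 29) (.ev (nat_lit 52) (nat_lit 17626680033792) (.ev (nat_lit 128)
 (nat_lit 35543814504494) .dd))))) (.br (nat_lit 35) (.br (nat_lit 33) (.ch (nat_lit 30) (.ev (nat_lit 52)
 (nat_lit 17874313838592) (.ev (nat_lit 84) (nat_lit 512) (.ev (nat_lit 116) (nat_lit 1048576) (.ev (nat_lit
 180) (nat_lit 4) (.ev (nat_lit 276) (nat_lit 4194304) (.ev (nat_lit 308) (nat_lit 34359738368) (.ev (nat_lit
 372) (nat_lit 35184372088832) (.ev (nat_lit 436) (nat_lit 68719476736) (.ev (nat_lit 532) (nat_lit 2) (.nd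
 (nat_lit 864) (.br (nat_lit 5) (.br (nat_lit 1) (.ch (nat_lit 0) (.ev (nat_lit 880) (nat_lit 8724152328) (.ev
 (nat_lit 893) (nat_lit 32) .dd))) (.br (nat_lit 2) (.ch (nat_lit 1) (.ev (nat_lit 880) (nat_lit 134217768)
 (.ev (nat_lit 893) (nat_lit 8589934592) .dd))) (.ch (nat_lit 2) (.ev (nat_lit 880) (nat_lit 8589934632) (.ev
 (nat_lit 893) (nat_lit 134217728) .dd))))) (.br (nat_lit 7) (.ch (nat_lit 5) (.ev (nat_lit 880) (nat_lit
 134217768) (.ev (nat_lit 893) (nat_lit 8589934592) .dd))) (.br (nat_lit 10) (.ch (nat_lit 7) (.ev (nat_lit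
 880) (nat_lit 8724152328) (.ev (nat_lit 893) (nat_lit 32) .dd))) (.ch (nat_lit 10) (.ev (nat_lit 880) (nat_lit
 8724152352) (.ev (nat_lit 893) (nat_lit 8) .dd))))))))))))))))) (.ch (nat_lit 33) (.ev (nat_lit 52) (nat_lit
 35030859790) (.ev (nat_lit 116) (nat_lit 68719476736) (.ev (nat_lit 148) (nat_lit 269484032) (.ev (nat_lit
 276) (nat_lit 32) (.ev (nat_lit 532) (nat_lit 8589934592) (.ev (nat_lit 640) (nat_lit 512) (.nd (nat_lit 864)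
 (.br (nat_lit 5) (.br (nat_lit 1) (.ch (nat_lit 0) (.ev (nat_lit 880) (nat_lit 52778711908352) (.ev (nat_lit
 896) (nat_lit 279172874240) .dd))) (.ch (nat_lit 1) (.ev (nat_lit 880) (nat_lit 35465694543872) (.ev (nat_lit
 1392) (nat_lit 17592186044416) (.ev (nat_lit 1405) (nat_lit 4194304) .dd))))) (.br (nat_lit 7) (.ch (nat_lit
 5) (.ev (nat_lit 880) (nat_lit 53053589815296) (.ev (nat_lit 893) (nat_lit 4294967296) .dd))) (.br (nat_lit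
 10) (.ch (nat_lit 7) (.ev (nat_lit 880) (nat_lit 35463549157376) (.ev (nat_lit 960) (nat_lit 17592186044416)
 (.ev (nat_lit 1424) (nat_lit 2147483648) (.ev (nat_lit 1437) (nat_lit 2097152) .dd))))) (.ch (nat_lit 10) (.ev
 (nat_lit 880) (nat_lit 17873508499456) (.ev (nat_lit 1264) (nat_lit 4194304) (.ev (nat_lit 1277) (nat_lit
 35184372088832) .dd)))))))))))))))) (.br (nat_lit 36) (.ch (nat_lit 35) (.ev (nat_lit 52) (nat_lit
 284006842408) (.ev (nat_lit 84) (nat_lit 4294967296) (.ev (nat_lit 148) (nat_lit 2) (.ev (nat_lit 404)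
 (nat_lit 35184372088832) (.ev (nat_lit 800) (nat_lit 68719476736) (.ev (nat_lit 848) (nat_lit 17592186044416)
 (.nd (nat_lit 864) (.br (nat_lit 7) (.ch (nat_lit 2) (.ev (nat_lit 880) (nat_lit 36508270592) (.ev (nat_lit
 948) (nat_lit 4194304) (.ev (nat_lit 1392) (nat_lit 4) (.ev (nat_lit 1456) (nat_lit 134217728) (.ev (nat_lit
 1616) (nat_lit 268435968) .dd)))))) (.br (nat_lit 10) (.ch (nat_lit 7) (.ev (nat_lit 880) (nat_lit
 34763440132) (.ev (nat_lit 948) (nat_lit 2147483648) (.ev (nat_lit 960) (nat_lit 4194304) (.ev (nat_lit 973)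
 (nat_lit 512) .dd))))) (.ch (nat_lit 10) (.ev (nat_lit 880) (nat_lit 2281701892) (.ev (nat_lit 960) (nat_lit
 4194304) (.ev (nat_lit 980) (nat_lit 268435456) (.ev (nat_lit 1472) (nat_lit 34359738368) (.ev (nat_lit 1485)
 (nat_lit 1048576) .dd)))))))))))))))) (.ch (nat_lit 36) (.ev (nat_lit 52) (nat_lit 35470391148548) (.ev
 (nat_lit 340) (nat_lit 17592190238720) (.ev (nat_lit 372) (nat_lit 34361835520) (.ev (nat_lit 500) (nat_lit
 32) (.nd (nat_lit 864) (.br (nat_lit 7) (.br (nat_lit 1) (.ch (nat_lit 0) (.ev (nat_lit 880) (nat_lit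
 4831838730) (.ev (nat_lit 893) (nat_lit 68719476736) .dd))) (.br (nat_lit 2) (.ch (nat_lit 1) (.ev (nat_lit
 880) (nat_lit 73551315458) (.ev (nat_lit 893) (nat_lit 8) .dd))) (.ch (nat_lit 2) (.ev (nat_lit 880) (nat_lit
 4831838218) (.fin (nat_lit 576462401572389440)))))) (.br (nat_lit 9) (.ch (nat_lit 7) (.ev (nat_lit 880)
 (nat_lit 73551314954) (.ev (nat_lit 893) (nat_lit 512) .dd))) (.br (nat_lit 10) (.ch (nat_lit 9) (.ev (nat_lit
 880) (nat_lit 4831838720) (.ev (nat_lit 948) (nat_lit 68719476736) (.ev (nat_lit 1504) (nat_lit 8) (.ev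
 (nat_lit 1517) (nat_lit 2) .dd))))) (.ch (nat_lit 10) (.ev (nat_lit 880) (nat_lit 68719476746) (.ev (nat_lit
 948) (nat_lit 512) (.ev (nat_lit 1364) (nat_lit 536870912) (.ev (nat_lit 1373) (nat_lit 4294967296)
 .dd)))))))))))))))))))))

/-- Subtrie. -/
noncomputable def T4 : Tr := (.ev (nat_lit 20) (nat_lit 17594535680518) (.nd (nat_lit 33) (.br (nat_lit 19)
 (.br (nat_lit 11) (.br (nat_lit 7) (.br (nat_lit 4) (.ch (nat_lit 1) (.ev (nat_lit 52) (nat_lit 391378894848)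
 (.ev (nat_lit 244) (nat_lit 65536) (.ev (nat_lit 276) (nat_lit 4398046511104) (.ev (nat_lit 436) (nat_lit
 33554432) (.nd (nat_lit 864) (.br (nat_lit 4) (.br (nat_lit 2) (.ch (nat_lit 0) (.ev (nat_lit 880) (nat_lit
 105553117331496) (.ev (nat_lit 948) (nat_lit 268435456) (.ev (nat_lit 1364) (nat_lit 4194304) (.ev (nat_lit
 1373) (nat_lit 2097152) .dd))))) (.ch (nat_lit 2) (.ev (nat_lit 880) (nat_lit 105553120460800) (.ev (nat_lit
 1040) (nat_lit 16384) (.ev (nat_lit 1092) (nat_lit 268435456) (.ev (nat_lit 1364) (nat_lit 2097152) (.ev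
 (nat_lit 1376) (nat_lit 32) (.fin (nat_lit 576460202533405240))))))))) (.br (nat_lit 5) (.ch (nat_lit 4) (.ev
 (nat_lit 880) (nat_lit 275775496) (.ev (nat_lit 948) (nat_lit 35184372105216) (.ev (nat_lit 1296) (nat_lit
 70368744177664) (.ev (nat_lit 1309) (nat_lit 32) .dd))))) (.br (nat_lit 8) (.ch (nat_lit 5) (.ev (nat_lit 880)
 (nat_lit 105553389961216) (.ev (nat_lit 1168) (nat_lit 8) (.ev (nat_lit 1364) (nat_lit 32) (.ev (nat_lit 1373)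
 (nat_lit 2097152) .dd))))) (.ch (nat_lit 8) (.ev (nat_lit 880) (nat_lit 70369012629512) (.ev (nat_lit 948)
 (nat_lit 35184372088832) (.ev (nat_lit 1440) (nat_lit 1048576) (.ev (nat_lit 1572) (nat_lit 2097152) (.ev
 (nat_lit 1680) (nat_lit 4194304) (.ev (nat_lit 1693) (nat_lit 32) .dd)))))))))))))))) (.br (nat_lit 5) (.ch
 (nat_lit 4) (.ev (nat_lit 52) (nat_lit 4437240201216) (.ev (nat_lit 180) (nat_lit 65536) (.ev (nat_lit 320)
 (nat_lit 105905610817576) .dd)))) (.ch (nat_lit 5) (.ev (nat_lit 52) (nat_lit 39660265996296) (.ev (nat_lit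
 340) (nat_lit 4194304) (.ev (nat_lit 404) (nat_lit 268435456) (.ev (nat_lit 480) (nat_lit 70682312458272)
 .dd))))))) (.br (nat_lit 8) (.ch (nat_lit 7) (.ev (nat_lit 52) (nat_lit 35292017934336) (.ev (nat_lit 84)
 (nat_lit 70368744177696) (.ev (nat_lit 736) (nat_lit 4194312) (.nd (nat_lit 864) (.br (nat_lit 5) (.ch
 (nat_lit 4) (.ev (nat_lit 880) (nat_lit 4673461288960) (.ev (nat_lit 912) (nat_lit 8589934592) (.ev (nat_lit
 925) (nat_lit 33554432) .dd)))) (.br (nat_lit 6) (.ch (nat_lit 5) (.ev (nat_lit 880) (nat_lit 536870912) (.ev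
 (nat_lit 912) (nat_lit 33554432) (.ev (nat_lit 1136) (nat_lit 8589934592) (.ev (nat_lit 1782) (nat_lit
 4672924418048) .dd))))) (.ch (nat_lit 6) (.ev (nat_lit 880) (nat_lit 4672924418048) (.ev (nat_lit 912)
 (nat_lit 33554432) (.ev (nat_lit 1520) (nat_lit 9126805504) .dd))))))))))) (.br (nat_lit 10) (.ch (nat_lit 8)
 (.ev (nat_lit 52) (nat_lit 356755963912) (.ev (nat_lit 84) (nat_lit 33554432) (.ev (nat_lit 116) (nat_lit 32)
 (.ev (nat_lit 148) (nat_lit 70368744177664) (.ev (nat_lit 276) (nat_lit 536870912) (.ev (nat_lit 544) (nat_lit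
 39616780517376) .dd))))))) (.ch (nat_lit 10) (.ev (nat_lit 52) (nat_lit 4505461653512) (.ev (nat_lit 468)
 (nat_lit 35184908959744) (.nd (nat_lit 864) (.br (nat_lit 6) (.br (nat_lit 2) (.ch (nat_lit 0) (.ev (nat_lit
 880) (nat_lit 70377334112288) (.ev (nat_lit 1488) (nat_lit 16384) (.ev (nat_lit 1840) (nat_lit 275146342400)
 .dd)))) (.ch (nat_lit 2) (.ev (nat_lit 880) (nat_lit 70652480454656) (.ev (nat_lit 1364) (nat_lit 32) (.ev
 (nat_lit 1373) (nat_lit 16384) .dd))))) (.br (nat_lit 7) (.ch (nat_lit 6) (.ev (nat_lit 880) (nat_lit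
 70652480471072) .dd)) (.ch (nat_lit 7) (.ev (nat_lit 880) (nat_lit 275146358816) (.ev (nat_lit 1540) (nat_lit
 8589934592) (.ev (nat_lit 1549) (nat_lit 70368744177664) .dd))))))))))))) (.br (nat_lit 15) (.br (nat_lit 12)
 (.ch (nat_lit 11) (.ev (nat_lit 52) (nat_lit 39660265996288) (.ev (nat_lit 84) (nat_lit 34359738368) (.ev
 (nat_lit 116) (nat_lit 70368744177664) (.ev (nat_lit 180) (nat_lit 2097152) (.ev (nat_lit 212) (nat_lit 16384)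
 (.ev (nat_lit 276) (nat_lit 268435456) (.nd (nat_lit 864) (.br (nat_lit 5) (.br (nat_lit 2) (.ch (nat_lit 0)
 (.ev (nat_lit 880) (nat_lit 274911461408) (.ev (nat_lit 948) (nat_lit 8) (.ev (nat_lit 1376) (nat_lit
 4299161600) .dd)))) (.br (nat_lit 4) (.ch (nat_lit 2) (.ev (nat_lit 880) (nat_lit 279210622984) (.ev (nat_lit
 893) (nat_lit 32) .dd))) (.ch (nat_lit 4) (.ev (nat_lit 880) (nat_lit 279177068584) (.ev (nat_lit 893)
 (nat_lit 33554432) .dd))))) (.br (nat_lit 6) (.ch (nat_lit 5) (.ev (nat_lit 880) (nat_lit 4332716032) (.ev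
 (nat_lit 1376) (nat_lit 274877906976) (.ev (nat_lit 1389) (nat_lit 8) .dd)))) (.br (nat_lit 7) (.ch (nat_lit
 6) (.ev (nat_lit 880) (nat_lit 279177068576) (.ev (nat_lit 1792) (nat_lit 33554440) .dd))) (.ch (nat_lit 7)
 (.ev (nat_lit 880) (nat_lit 279210623016) .dd))))))))))))) (.br (nat_lit 13) (.ch (nat_lit 12) (.ev (nat_lit
 52) (nat_lit 35257961234432) (.ev (nat_lit 180) (nat_lit 8) (.ev (nat_lit 276) (nat_lit 1048576) (.ev (nat_lit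
 752) (nat_lit 8589934592) (.nd (nat_lit 864) (.br (nat_lit 4) (.br (nat_lit 2) (.ch (nat_lit 0) (.ev (nat_lit
 880) (nat_lit 70403372351520) (.ev (nat_lit 1184) (nat_lit 274877906944) (.ev (nat_lit 1540) (nat_lit 2097152)
 (.ev (nat_lit 1549) (nat_lit 4398046511104) .dd))))) (.ch (nat_lit 2) (.ev (nat_lit 880) (nat_lit
 70643622084640) (.ev (nat_lit 1184) (nat_lit 268435456) (.ev (nat_lit 1540) (nat_lit 2097152) (.ev (nat_lit
 1552) (nat_lit 34359738368) (.ev (nat_lit 1565) (nat_lit 4398046511104) .dd))))))) (.br (nat_lit 6) (.ch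
 (nat_lit 4) (.ev (nat_lit 880) (nat_lit 4707554689024) (.ev (nat_lit 1408) (nat_lit 70368744177664) (.ev
 (nat_lit 1421) (nat_lit 32) .dd)))) (.br (nat_lit 8) (.ch (nat_lit 6) (.ev (nat_lit 880) (nat_lit
 70643892617248) (.ev (nat_lit 1364) (nat_lit 4398046511104) (.ev (nat_lit 1373) (nat_lit 34359738368) .dd))))
 (.ch (nat_lit 8) (.ev (nat_lit 880) (nat_lit 75076296769568) (.ev (nat_lit 893) (nat_lit 2097152)
 .dd)))))))))))) (.ch (nat_lit 13) (.ev (nat_lit 52) (nat_lit 70369016823808) (.ev (nat_lit 84) (nat_lit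
 68719476736) (.ev (nat_lit 116) (nat_lit 33554432) (.ev (nat_lit 244) (nat_lit 2097152) (.ev (nat_lit 308)
 (nat_lit 35184372088832) (.ev (nat_lit 404) (nat_lit 8589934592) (.ev (nat_lit 436) (nat_lit 34359738368) (.ev
 (nat_lit 448) (nat_lit 4677757370408) .dd))))))))))) (.br (nat_lit 17) (.br (nat_lit 16) (.ch (nat_lit 15)
 (.ev (nat_lit 52) (nat_lit 4673468645408) (.ev (nat_lit 148) (nat_lit 33554432) (.ev (nat_lit 212) (nat_lit
 8589934592) (.ev (nat_lit 436) (nat_lit 70368744243200) (.ev (nat_lit 656) (nat_lit 268435456) (.nd (nat_lit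
 864) (.br (nat_lit 5) (.br (nat_lit 4) (.ch (nat_lit 2) (.ev (nat_lit 880) (nat_lit 73014444032) (.ev (nat_lit
 912) (nat_lit 8) (.ev (nat_lit 1280) (nat_lit 34359738368) (.ev (nat_lit 1293) (nat_lit 35184372088832)
 .dd))))) (.ch (nat_lit 4) (.ev (nat_lit 880) (nat_lit 34359738376) (.ev (nat_lit 1572) (nat_lit
 35184372088832) (.nd (nat_lit 1873) (.ch (nat_lit 0) (.nd (nat_lit 1888) (.ch (nat_lit 3) (.fin (nat_lit
 576451406450868808)))))))))) (.br (nat_lit 7) (.ch (nat_lit 5) (.ev (nat_lit 880) (nat_lit 68719476736) (.ev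
 (nat_lit 1424) (nat_lit 34359738368) (.ev (nat_lit 1540) (nat_lit 8) (.ev (nat_lit 1552) (nat_lit 4294967296)
 (.ev (nat_lit 1565) (nat_lit 35184372088832) .dd)))))) (.br (nat_lit 8) (.ch (nat_lit 7) (.ev (nat_lit 880)
 (nat_lit 35291746271240) .dd)) (.ch (nat_lit 8) (.ev (nat_lit 880) (nat_lit 35291746271240) .dd))))))))))))
 (.ch (nat_lit 16) (.ev (nat_lit 52) (nat_lit 105553653153824) (.ev (nat_lit 212) (nat_lit 268435456) (.ev
 (nat_lit 340) (nat_lit 274877906944) (.ev (nat_lit 564) (nat_lit 4398046511104) (.nd (nat_lit 864) (.br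
 (nat_lit 5) (.br (nat_lit 2) (.ch (nat_lit 0) (.ev (nat_lit 880) (nat_lit 8629780480) (.ev (nat_lit 948)
 (nat_lit 103079215104) (.ev (nat_lit 960) (nat_lit 65536) (.ev (nat_lit 1392) (nat_lit 8) (.fin (nat_lit
 576460202550182465))))))) (.ch (nat_lit 2) (.ev (nat_lit 880) (nat_lit 115998785536) (.ev (nat_lit 1248)
 (nat_lit 2097152) (.ev (nat_lit 1312) (nat_lit 4194304) (.ev (nat_lit 1325) (nat_lit 8) .dd)))))) (.br
 (nat_lit 6) (.ch (nat_lit 5) (.ev (nat_lit 880) (nat_lit 115971522568) (.ev (nat_lit 893) (nat_lit 33554432)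
 .dd))) (.br (nat_lit 7) (.ch (nat_lit 6) (.ev (nat_lit 880) (nat_lit 4302372872) (.ev (nat_lit 1216) (nat_lit
 8589934592) (.ev (nat_lit 1664) (nat_lit 68753031168) (.ev (nat_lit 1677) (nat_lit 34359738368) .dd))))) (.ch
 (nat_lit 7) (.ev (nat_lit 880) (nat_lit 107415076872) (.ev (nat_lit 1424) (nat_lit 8589934592) (.ev (nat_lit
 1437) (nat_lit 65536) .dd)))))))))))))) (.br (nat_lit 18) (.ch (nat_lit 17) (.ev (nat_lit 52) (nat_lit
 42984341512) (.ev (nat_lit 116) (nat_lit 68719476736) (.ev (nat_lit 180) (nat_lit 70368744177664) (.ev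
 (nat_lit 372) (nat_lit 4398046511104) (.ev (nat_lit 816) (nat_lit 274877906944) (.nd (nat_lit 864) (.br
 (nat_lit 4) (.ch (nat_lit 2) (.ev (nat_lit 880) (nat_lit 35188939685920) (.ev (nat_lit 948) (nat_lit 2097152)
 (.ev (nat_lit 1540) (nat_lit 16384) (.ev (nat_lit 1549) (nat_lit 536870912) .dd))))) (.br (nat_lit 6) (.ch
 (nat_lit 4) (.ev (nat_lit 880) (nat_lit 274726912) (.ev (nat_lit 1056) (nat_lit 16384) (.ev (nat_lit 1156)
 (nat_lit 32) (.ev (nat_lit 1456) (nat_lit 35184372088832) (.ev (nat_lit 1572) (nat_lit 536870912) (.ev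
 (nat_lit 1581) (nat_lit 4294967296) .dd))))))) (.ch (nat_lit 6) (.ev (nat_lit 880) (nat_lit 35189206024224)
 (.ev (nat_lit 948) (nat_lit 16384) (.fin (nat_lit 576461302059713084)))))))))))))) (.ch (nat_lit 18) (.ev
 (nat_lit 52) (nat_lit 5100339208) (.ev (nat_lit 212) (nat_lit 274877906944) (.ev (nat_lit 244) (nat_lit
 68719476768) (.ev (nat_lit 276) (nat_lit 4194304) (.ev (nat_lit 500) (nat_lit 1048576) (.nd (nat_lit 864) (.br
 (nat_lit 4) (.br (nat_lit 2) (.ch (nat_lit 0) (.ev (nat_lit 880) (nat_lit 109959786283008) (.ev (nat_lit 1248)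
 (nat_lit 34359738368) (.ev (nat_lit 1261) (nat_lit 2097152) .dd)))) (.ch (nat_lit 2) (.ev (nat_lit 880)
 (nat_lit 70377369763840) (.ev (nat_lit 948) (nat_lit 4398046511104) (.ev (nat_lit 1504) (nat_lit 34359738368)
 (.ev (nat_lit 1728) (nat_lit 35184372105216) .dd)))))) (.br (nat_lit 6) (.ch (nat_lit 4) (.ev (nat_lit 880)
 (nat_lit 74801186095104) (.ev (nat_lit 896) (nat_lit 35192962023424) .dd))) (.br (nat_lit 8) (.ch (nat_lit 6)
 (.ev (nat_lit 880) (nat_lit 105587478102016) (.ev (nat_lit 948) (nat_lit 16384) (.ev (nat_lit 1344) (nat_lit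
 33554432) (.ev (nat_lit 1648) (nat_lit 4406636445696) .dd))))) (.ch (nat_lit 8) (.ev (nat_lit 880) (nat_lit
 39625370386432) (.ev (nat_lit 1200) (nat_lit 70368744177664) (.ev (nat_lit 1213) (nat_lit 33554432)
 .dd)))))))))))))))))) (.br (nat_lit 26) (.br (nat_lit 22) (.br (nat_lit 20) (.ch (nat_lit 19) (.ev (nat_lit
 52) (nat_lit 8623489064) (.ev (nat_lit 148) (nat_lit 68719476736) (.ev (nat_lit 244) (nat_lit 70368744177664)
 (.ev (nat_lit 308) (nat_lit 4402341478400) (.ev (nat_lit 532) (nat_lit 2097152) (.ev (nat_lit 672) (nat_lit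
 65536) (.nd (nat_lit 864) (.br (nat_lit 5) (.ch (nat_lit 0) (.ev (nat_lit 880) (nat_lit 35184644718592) (.ev
 (nat_lit 1092) (nat_lit 309237645312) (.ev (nat_lit 1296) (nat_lit 1048576) (.ev (nat_lit 1456) (nat_lit
 536870912) (.ev (nat_lit 1469) (nat_lit 16384) .dd)))))) (.br (nat_lit 6) (.ch (nat_lit 5) (.ev (nat_lit 880)
 (nat_lit 810565632) (.ev (nat_lit 948) (nat_lit 35184372088832) (.ev (nat_lit 1056) (nat_lit 34359738368) (.ev
 (nat_lit 1069) (nat_lit 274877906944) .dd))))) (.ch (nat_lit 6) (.ev (nat_lit 880) (nat_lit 35459787931648)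
 (.ev (nat_lit 948) (nat_lit 34359738368) (.fin (nat_lit 576461302059713084))))))))))))))) (.br (nat_lit 21)
 (.ch (nat_lit 20) (.ev (nat_lit 52) (nat_lit 9164619776) (.ev (nat_lit 276) (nat_lit 35184372088832) (.ev
 (nat_lit 340) (nat_lit 16384) (.ev (nat_lit 468) (nat_lit 274877906944) (.nd (nat_lit 864) (.br (nat_lit 4)
 (.br (nat_lit 2) (.ch (nat_lit 0) (.ev (nat_lit 880) (nat_lit 70471823392800) (.ev (nat_lit 948) (nat_lit
 4398048608256) (.ev (nat_lit 1216) (nat_lit 8) (.ev (nat_lit 1760) (nat_lit 268435456) (.fin (nat_lit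
 576460202550182465))))))) (.ch (nat_lit 2) (.ev (nat_lit 880) (nat_lit 70407400980520) (.ev (nat_lit 948)
 (nat_lit 68719476736) (.ev (nat_lit 1328) (nat_lit 4398047559680) (.ev (nat_lit 1341) (nat_lit 268435456)
 .dd)))))) (.br (nat_lit 5) (.ch (nat_lit 4) (.ev (nat_lit 880) (nat_lit 74870140436488) (.ev (nat_lit 1364)
 (nat_lit 4294967296) (.ev (nat_lit 1376) (nat_lit 1048576) (.ev (nat_lit 1389) (nat_lit 32) .dd))))) (.br
 (nat_lit 8) (.ch (nat_lit 5) (.ev (nat_lit 880) (nat_lit 4467035471904) (.ev (nat_lit 948) (nat_lit 2097152)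
 (.ev (nat_lit 1408) (nat_lit 34359738368) (.ev (nat_lit 1488) (nat_lit 4294967296) (.ev (nat_lit 1632)
 (nat_lit 70368744177672) .dd)))))) (.ch (nat_lit 8) (.ev (nat_lit 880) (nat_lit 4501396258824) (.ev (nat_lit
 1344) (nat_lit 4294967296) (.ev (nat_lit 1376) (nat_lit 70368745226240) (.ev (nat_lit 1389) (nat_lit 32)
 .dd)))))))))))))) (.ch (nat_lit 21) (.ev (nat_lit 52) (nat_lit 74809773981728) (.ev (nat_lit 340) (nat_lit
 4563402752) (.ev (nat_lit 372) (nat_lit 274877906944) (.ev (nat_lit 404) (nat_lit 35184908959744) (.ev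
 (nat_lit 832) (nat_lit 2097152) (.nd (nat_lit 864) (.br (nat_lit 5) (.br (nat_lit 2) (.ch (nat_lit 0) (.ev
 (nat_lit 880) (nat_lit 1048576) (.ev (nat_lit 1184) (nat_lit 4194304) (.ev (nat_lit 1364) (nat_lit 16384) (.ev
 (nat_lit 1376) (nat_lit 8) (.ev (nat_lit 1389) (nat_lit 68719476736) .dd)))))) (.ch (nat_lit 2) (.ev (nat_lit
 880) (nat_lit 4210688) (.ev (nat_lit 1588) (nat_lit 68719476736) (.nd (nat_lit 1873) (.ch (nat_lit 36) (.nd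
 (nat_lit 1888) (.ch (nat_lit 10) (.fin (nat_lit 576460202533405240)))))))))) (.br (nat_lit 6) (.ch (nat_lit 5)
 (.ev (nat_lit 880) (nat_lit 68724736008) .dd)) (.br (nat_lit 7) (.ch (nat_lit 6) (.ev (nat_lit 880) (nat_lit
 1048584) (.ev (nat_lit 912) (nat_lit 16384) (.ev (nat_lit 1156) (nat_lit 4194304) (.ev (nat_lit 1165) (nat_lit
 68719476736) .dd))))) (.ch (nat_lit 7) (.ev (nat_lit 880) (nat_lit 68724736008) .dd)))))))))))))) (.br
 (nat_lit 24) (.ch (nat_lit 22) (.ev (nat_lit 52) (nat_lit 4436974911488) (.ev (nat_lit 352) (nat_lit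
 105905876172840) .dd))) (.br (nat_lit 25) (.ch (nat_lit 24) (.ev (nat_lit 52) (nat_lit 105626400194592) (.ev
 (nat_lit 84) (nat_lit 8) (.ev (nat_lit 276) (nat_lit 16384) (.ev (nat_lit 500) (nat_lit 274877906944) (.ev
 (nat_lit 704) (nat_lit 34359738368) (.nd (nat_lit 864) (.br (nat_lit 5) (.br (nat_lit 4) (.ch (nat_lit 2) (.ev
 (nat_lit 880) (nat_lit 9164619776) (.ev (nat_lit 896) (nat_lit 4398048608256) .dd))) (.ch (nat_lit 4) (.ev
 (nat_lit 880) (nat_lit 4398052868096) (.ev (nat_lit 960) (nat_lit 8589934592) (.ev (nat_lit 1392) (nat_lit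
 33554432) (.ev (nat_lit 1405) (nat_lit 536870912) .dd)))))) (.br (nat_lit 7) (.ch (nat_lit 5) (.ev (nat_lit
 880) (nat_lit 9166716928) (.ev (nat_lit 893) (nat_lit 4398046511104) .dd))) (.br (nat_lit 8) (.ch (nat_lit 7)
 (.ev (nat_lit 880) (nat_lit 4398623227904) (.ev (nat_lit 1156) (nat_lit 65536) (.ev (nat_lit 1165) (nat_lit
 8589934592) .dd)))) (.ch (nat_lit 8) (.ev (nat_lit 880) (nat_lit 4407208968192) (.ev (nat_lit 1216) (nat_lit
 65536) (.ev (nat_lit 1229) (nat_lit 4194304) .dd)))))))))))))) (.ch (nat_lit 25) (.ev (nat_lit 52) (nat_lit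
 35493649580064) (.ev (nat_lit 116) (nat_lit 8) (.ev (nat_lit 212) (nat_lit 4398046511104) (.ev (nat_lit 372)
 (nat_lit 16384) (.ev (nat_lit 468) (nat_lit 4294967296) (.ev (nat_lit 500) (nat_lit 8589934592) (.nd (nat_lit
 864) (.br (nat_lit 6) (.br (nat_lit 2) (.ch (nat_lit 0) (.ev (nat_lit 880) (nat_lit 70438001573888) (.ev
 (nat_lit 1364) (nat_lit 268435456) (.ev (nat_lit 1373) (nat_lit 65536) .dd)))) (.ch (nat_lit 2) (.ev (nat_lit
 880) (nat_lit 70437732155392) (.ev (nat_lit 1540) (nat_lit 536870912) (.ev (nat_lit 1549) (nat_lit 1048576)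
 .dd))))) (.br (nat_lit 8) (.ch (nat_lit 6) (.ev (nat_lit 880) (nat_lit 70438270074880) .dd)) (.ch (nat_lit 8)
 (.ev (nat_lit 880) (nat_lit 806354944) (.ev (nat_lit 1056) (nat_lit 68719476736) (.ev (nat_lit 1104) (nat_lit
 70368744177664) (.ev (nat_lit 1117) (nat_lit 65536) .dd)))))))))))))))))) (.br (nat_lit 30) (.br (nat_lit 27)
 (.ch (nat_lit 26) (.ev (nat_lit 52) (nat_lit 70643624198152) (.ev (nat_lit 180) (nat_lit 68719476736) (.ev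
 (nat_lit 212) (nat_lit 1048576) (.ev (nat_lit 276) (nat_lit 4294967296) (.ev (nat_lit 308) (nat_lit 268435456)
 (.ev (nat_lit 436) (nat_lit 32) (.ev (nat_lit 532) (nat_lit 34359738368) (.ev (nat_lit 564) (nat_lit
 8589934592) (.nd (nat_lit 864) (.br (nat_lit 5) (.br (nat_lit 2) (.ch (nat_lit 0) (.ev (nat_lit 880) (nat_lit
 39582452219904) (.ev (nat_lit 1008) (nat_lit 541065216) .dd))) (.br (nat_lit 4) (.ch (nat_lit 2) (.ev (nat_lit
 880) (nat_lit 35184409837568) (.ev (nat_lit 948) (nat_lit 536870912) (.ev (nat_lit 1520) (nat_lit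
 4398046576640) .dd)))) (.ch (nat_lit 4) (.ev (nat_lit 880) (nat_lit 4398050770944) (.ev (nat_lit 1364)
 (nat_lit 35184372088832) (.ev (nat_lit 1376) (nat_lit 33554432) (.ev (nat_lit 1389) (nat_lit 536870912)
 .dd))))))) (.br (nat_lit 7) (.ch (nat_lit 5) (.ev (nat_lit 880) (nat_lit 4398621196288) (.ev (nat_lit 893)
 (nat_lit 35184372088832) .dd))) (.br (nat_lit 8) (.ch (nat_lit 7) (.ev (nat_lit 880) (nat_lit 39582993285120)
 .dd)) (.ch (nat_lit 8) (.ev (nat_lit 880) (nat_lit 39582989090816) (.ev (nat_lit 893) (nat_lit 4194304)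
 .dd)))))))))))))))) (.br (nat_lit 29) (.ch (nat_lit 27) (.ev (nat_lit 52) (nat_lit 343597400104) (.ev (nat_lit
 256) (nat_lit 109999253684224) .dd))) (.ch (nat_lit 29) (.ev (nat_lit 52) (nat_lit 34393374720) (.ev (nat_lit
 148) (nat_lit 2097184) (.ev (nat_lit 212) (nat_lit 4299161600) (.ev (nat_lit 436) (nat_lit 8) (.ev (nat_lit
 468) (nat_lit 1048576) (.ev (nat_lit 564) (nat_lit 35184372088832) (.ev (nat_lit 720) (nat_lit 274877906944)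
 (.nd (nat_lit 864) (.br (nat_lit 5) (.br (nat_lit 2) (.ch (nat_lit 0) (.ev (nat_lit 880) (nat_lit
 70378139418624) (.ev (nat_lit 896) (nat_lit 4398046511104) (.ev (nat_lit 909) (nat_lit 68719476736) .dd))))
 (.br (nat_lit 4) (.ch (nat_lit 2) (.ev (nat_lit 880) (nat_lit 74775380623360) (.ev (nat_lit 948) (nat_lit
 68719476736) (.ev (nat_lit 1376) (nat_lit 268435456) (.ev (nat_lit 1389) (nat_lit 536870912) .dd))))) (.ch
 (nat_lit 4) (.ev (nat_lit 880) (nat_lit 74844368535552) (.ev (nat_lit 893) (nat_lit 536870912) .dd))))) (.br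
 (nat_lit 6) (.ch (nat_lit 5) (.ev (nat_lit 880) (nat_lit 4467571294208) (.ev (nat_lit 928) (nat_lit
 8589934592) (.ev (nat_lit 941) (nat_lit 70368744177664) .dd)))) (.br (nat_lit 8) (.ch (nat_lit 6) (.ev
 (nat_lit 880) (nat_lit 74835510165504) (.ev (nat_lit 1072) (nat_lit 536870912) (.ev (nat_lit 1120) (nat_lit
 8589934592) (.ev (nat_lit 1133) (nat_lit 268435456) .dd))))) (.ch (nat_lit 8) (.ev (nat_lit 880) (nat_lit
 4407441752064) (.ev (nat_lit 1504) (nat_lit 68719476736) (.ev (nat_lit 1517) (nat_lit 70368744177664)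
 .dd)))))))))))))))))) (.br (nat_lit 35) (.br (nat_lit 33) (.ch (nat_lit 30) (.ev (nat_lit 52) (nat_lit
 279980277760) (.ev (nat_lit 180) (nat_lit 34359738368) (.ev (nat_lit 288) (nat_lit 110028511068200) .dd))))
 (.ch (nat_lit 33) (.ev (nat_lit 52) (nat_lit 74801687298056) (.ev (nat_lit 192) (nat_lit 35541163786272)
 .dd)))) (.br (nat_lit 36) (.ch (nat_lit 35) (.ev (nat_lit 52) (nat_lit 70652750987304) (.ev (nat_lit 340)
 (nat_lit 4398046511104) (.ev (nat_lit 404) (nat_lit 1048576) (.ev (nat_lit 768) (nat_lit 16384) (.nd (nat_lit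
 864) (.br (nat_lit 7) (.br (nat_lit 5) (.ch (nat_lit 4) (.ev (nat_lit 880) (nat_lit 35219038076928) (.fin
 (nat_lit 576451406450868808)))) (.ch (nat_lit 5) (.ev (nat_lit 880) (nat_lit 35257659228160) (.ev (nat_lit
 1328) (nat_lit 34359738368) (.ev (nat_lit 1341) (nat_lit 33554432) .dd))))) (.br (nat_lit 8) (.ch (nat_lit 7)
 (.ev (nat_lit 880) (nat_lit 35291784019968) (.ev (nat_lit 1364) (nat_lit 268435456) (.ev (nat_lit 1373)
 (nat_lit 65536) .dd)))) (.ch (nat_lit 8) (.ev (nat_lit 880) (nat_lit 107642683392) (.ev (nat_lit 1392)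
 (nat_lit 33554432) (.ev (nat_lit 1808) (nat_lit 35184376283136) .dd)))))))))))) (.ch (nat_lit 36) (.ev
 (nat_lit 52) (nat_lit 105836853592064) (.ev (nat_lit 116) (nat_lit 65536) (.ev (nat_lit 244) (nat_lit
 34359738368) (.ev (nat_lit 384) (nat_lit 4471637688360) .dd))))))))))))

/-- The trie. -/
noncomputable def T : Tr := .nd (nat_lit 1000000) (.br (nat_lit 4) (.br (nat_lit 1) (.ch (nat_lit 0) (.ev
 (nat_lit 0) (nat_lit 140737488355327) .dd)) (.ch (nat_lit 1) T1)) (.br (nat_lit 5) (.ch (nat_lit 4) T4) (.br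
 (nat_lit 10) (.ch (nat_lit 5) (.ev (nat_lit 0) (nat_lit 140737488355327) .dd)) (.ch (nat_lit 10) (.ev (nat_lit
 0) (nat_lit 140737488355327) .dd)))))

/-- The possible values. -/
noncomputable def oks : List ℕ := [3, 4, 9, 34, 565]

/-- The parameters. -/
noncomputable def S : Pr := ⟨fun i l e => lget mz (lget [] (lget [] tabs i) l) e, oks, [(nat_lit 0), (nat_lit
 1), (nat_lit 0), (nat_lit 1), (nat_lit 0)], T, (nat_lit 140737488355327), (nat_lit 12800101590481), (nat_lit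
 47), [(nat_lit 1057), (nat_lit 23899161165)], [(nat_lit 19487171), (nat_lit 1874161)]⟩

/-- Nothing known. -/
noncomputable def cs0 : Cs := (.cons (nat_lit 11) (nat_lit 0) (nat_lit 1) (.cons (nat_lit 37) (nat_lit 0) (nat_lit 1) .nil))

theorem part_1 : part S cs0 (nat_lit 1) = true := by decide +kernel

theorem part_4 : part S cs0 (nat_lit 4) = true := by decide +kernel

/-- Data of a prime. -/
noncomputable def D0 : PD := ⟨(nat_lit 11), (nat_lit 7), (6190614, 3, 3), (12381250, 14211882, 1830652), (13368790, 19487156, 19487136)⟩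

theorem D0_ok : D0.Ok := pdb_sound (s := 1) (C := ⟨⟨9, -6, -17, -1, -14, 8, -4, -1, -1⟩, (9, 10, 7)⟩) (by show Nat.Prime 11; norm_num) (by decide +kernel)

/-- Lines of the first type. -/
noncomputable def Cl0 : List C1 := [⟨⟨-9, 6, -8, 1, 14, 7, 4, 1, -5⟩, (4, 2, 8)⟩,
  ⟨⟨0, 0, 0, 0, 0, 0, 0, 0, 0⟩, (0, 0, 0)⟩,
  ⟨⟨0, 0, 0, 0, 0, 0, 0, 0, 0⟩, (0, 0, 0)⟩,
  ⟨⟨0, 0, 0, 0, 0, 0, 0, 0, 0⟩, (0, 0, 0)⟩,
  ⟨⟨0, 0, 0, 0, 0, 0, 0, 0, 0⟩, (0, 0, 0)⟩,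
  ⟨⟨9, 6, -17, -1, 14, 8, -4, 1, -1⟩, (8, 4, 5)⟩,
  ⟨⟨0, 0, 0, 0, 0, 0, 0, 0, 0⟩, (0, 0, 0)⟩,
  ⟨⟨0, 0, 0, 0, 0, 0, 0, 0, 0⟩, (0, 0, 0)⟩,
  ⟨⟨0, 0, 0, 0, 0, 0, 0, 0, 0⟩, (0, 0, 0)⟩,
  ⟨⟨0, 0, 0, 0, 0, 0, 0, 0, 0⟩, (0, 0, 0)⟩,
  ⟨⟨-9, -6, -8, 1, -14, 7, 4, -1, -5⟩, (7, 9, 3)⟩]

/-- Data of a prime. -/
noncomputable def D1 : PD := ⟨(nat_lit 37), (nat_lit 4), (1164206, 16, 5), (290098, 1020852, 1005947), (112988, 1391410, 1055966)⟩

theorem D1_ok : D1.Ok := pdb_sound (s := 2) (C := ⟨⟨43, 22, -44, 23, -2, 41, 6, -15, -7⟩, (6, 23, 6)⟩) (by show Nat.Prime 37; norm_num) (by decide +kernel)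

/-- Lines of the first type. -/
noncomputable def Cl1 : List C1 := [⟨⟨23, -2, -64, 43, 22, 1, -6, 15, -1⟩, (31, 29, 8)⟩,
  ⟨⟨0, 0, 0, 0, 0, 0, 0, 0, 0⟩, (0, 0, 0)⟩,
  ⟨⟨-7, 22, -49, 27, 42, 4, 14, -7, -13⟩, (1, 12, 35)⟩,
  ⟨⟨-13, 38, -31, -47, -22, 16, 6, -9, -17⟩, (20, 4, 5)⟩,
  ⟨⟨0, 0, 0, 0, 0, 0, 0, 0, 0⟩, (0, 0, 0)⟩,
  ⟨⟨0, 0, 0, 0, 0, 0, 0, 0, 0⟩, (0, 0, 0)⟩,
  ⟨⟨7, 22, -56, -27, 42, 31, 14, 7, -1⟩, (18, 31, 36)⟩,
  ⟨⟨0, 0, 0, 0, 0, 0, 0, 0, 0⟩, (0, 0, 0)⟩,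
  ⟨⟨0, 0, 0, 0, 0, 0, 0, 0, 0⟩, (0, 0, 0)⟩,
  ⟨⟨13, -38, -44, -47, -22, 31, -6, 9, -11⟩, (18, 26, 23)⟩,
  ⟨⟨0, 0, 0, 0, 0, 0, 0, 0, 0⟩, (0, 0, 0)⟩,
  ⟨⟨0, 0, 0, 0, 0, 0, 0, 0, 0⟩, (0, 0, 0)⟩,
  ⟨⟨0, 0, 0, 0, 0, 0, 0, 0, 0⟩, (0, 0, 0)⟩,
  ⟨⟨0, 0, 0, 0, 0, 0, 0, 0, 0⟩, (0, 0, 0)⟩,
  ⟨⟨13, 38, -44, -47, 22, 31, -6, -9, -11⟩, (4, 14, 1)⟩,
  ⟨⟨0, 0, 0, 0, 0, 0, 0, 0, 0⟩, (0, 0, 0)⟩,
  ⟨⟨0, 0, 0, 0, 0, 0, 0, 0, 0⟩, (0, 0, 0)⟩,
  ⟨⟨0, 0, 0, 0, 0, 0, 0, 0, 0⟩, (0, 0, 0)⟩,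
  ⟨⟨0, 0, 0, 0, 0, 0, 0, 0, 0⟩, (0, 0, 0)⟩,
  ⟨⟨0, 0, 0, 0, 0, 0, 0, 0, 0⟩, (0, 0, 0)⟩,
  ⟨⟨0, 0, 0, 0, 0, 0, 0, 0, 0⟩, (0, 0, 0)⟩,
  ⟨⟨0, 0, 0, 0, 0, 0, 0, 0, 0⟩, (0, 0, 0)⟩,
  ⟨⟨0, 0, 0, 0, 0, 0, 0, 0, 0⟩, (0, 0, 0)⟩,
  ⟨⟨-7, -22, -49, 27, -42, 4, 14, 7, -13⟩, (13, 8, 11)⟩,
  ⟨⟨0, 0, 0, 0, 0, 0, 0, 0, 0⟩, (0, 0, 0)⟩,
  ⟨⟨0, 0, 0, 0, 0, 0, 0, 0, 0⟩, (0, 0, 0)⟩,
  ⟨⟨0, 0, 0, 0, 0, 0, 0, 0, 0⟩, (0, 0, 0)⟩,
  ⟨⟨0, 0, 0, 0, 0, 0, 0, 0, 0⟩, (0, 0, 0)⟩,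
  ⟨⟨23, 2, -64, 43, -22, 1, -6, -15, -1⟩, (3, 4, 33)⟩,
  ⟨⟨0, 0, 0, 0, 0, 0, 0, 0, 0⟩, (0, 0, 0)⟩,
  ⟨⟨0, 0, 0, 0, 0, 0, 0, 0, 0⟩, (0, 0, 0)⟩,
  ⟨⟨-13, -38, -31, -47, 22, 16, 6, 9, -17⟩, (34, 29, 27)⟩,
  ⟨⟨7, -22, -56, -27, -42, 31, 14, -7, -1⟩, (30, 27, 23)⟩,
  ⟨⟨0, 0, 0, 0, 0, 0, 0, 0, 0⟩, (0, 0, 0)⟩,
  ⟨⟨43, -22, -44, 23, 2, 41, 6, 15, -7⟩, (12, 9, 12)⟩,
  ⟨⟨0, 0, 0, 0, 0, 0, 0, 0, 0⟩, (0, 0, 0)⟩,
  ⟨⟨0, 0, 0, 0, 0, 0, 0, 0, 0⟩, (0, 0, 0)⟩]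

/-- Data of a prime. -/
noncomputable def Dm : PD := ⟨(nat_lit 47), (nat_lit 2), (1034, 1, 9), (105, 517, 2039), (987, 5, 190)⟩

theorem Dm_ok : Dm.Ok := pdb_sound (s := 1) (C := ⟨⟨47, 2, -76, 47, -2, 29, 0, -21, -1⟩, (2, 45, 26)⟩) (by show Nat.Prime 47; norm_num) (by decide +kernel)

/-- Lines of the first type. -/
noncomputable def Clm : List C1 := [⟨⟨47, -2, -76, 47, 2, 29, 0, 21, -1⟩, (9, 38, 23)⟩,
  ⟨⟨0, 0, 0, 0, 0, 0, 0, 0, 0⟩, (0, 0, 0)⟩,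
  ⟨⟨0, 0, 0, 0, 0, 0, 0, 0, 0⟩, (0, 0, 0)⟩,
  ⟨⟨0, 0, 0, 0, 0, 0, 0, 0, 0⟩, (0, 0, 0)⟩,
  ⟨⟨17, 22, -76, -63, 18, 19, -4, -19, -7⟩, (10, 21, 17)⟩,
  ⟨⟨0, 0, 0, 0, 0, 0, 0, 0, 0⟩, (0, 0, 0)⟩,
  ⟨⟨57, -18, -61, -23, -62, 4, -8, 5, -17⟩, (3, 26, 7)⟩,
  ⟨⟨57, 18, -61, -23, 62, 4, -8, -5, -17⟩, (16, 29, 6)⟩,
  ⟨⟨53, -22, -64, -13, -62, 29, -12, -3, -13⟩, (46, 10, 2)⟩,
  ⟨⟨0, 0, 0, 0, 0, 0, 0, 0, 0⟩, (0, 0, 0)⟩,
  ⟨⟨43, -38, -59, 3, -42, 56, -16, -11, -1⟩, (35, 9, 46)⟩,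
  ⟨⟨0, 0, 0, 0, 0, 0, 0, 0, 0⟩, (0, 0, 0)⟩,
  ⟨⟨0, 0, 0, 0, 0, 0, 0, 0, 0⟩, (0, 0, 0)⟩,
  ⟨⟨-17, -22, -59, -63, 18, 44, 4, 19, -11⟩, (15, 39, 2)⟩,
  ⟨⟨0, 0, 0, 0, 0, 0, 0, 0, 0⟩, (0, 0, 0)⟩,
  ⟨⟨0, 0, 0, 0, 0, 0, 0, 0, 0⟩, (0, 0, 0)⟩,
  ⟨⟨0, 0, 0, 0, 0, 0, 0, 0, 0⟩, (0, 0, 0)⟩,
  ⟨⟨53, 22, -64, -13, 62, 29, -12, 3, -13⟩, (41, 13, 12)⟩,
  ⟨⟨0, 0, 0, 0, 0, 0, 0, 0, 0⟩, (0, 0, 0)⟩,
  ⟨⟨0, 0, 0, 0, 0, 0, 0, 0, 0⟩, (0, 0, 0)⟩,
  ⟨⟨0, 0, 0, 0, 0, 0, 0, 0, 0⟩, (0, 0, 0)⟩,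
  ⟨⟨0, 0, 0, 0, 0, 0, 0, 0, 0⟩, (0, 0, 0)⟩,
  ⟨⟨0, 0, 0, 0, 0, 0, 0, 0, 0⟩, (0, 0, 0)⟩,
  ⟨⟨43, 38, -59, 3, 42, 56, -16, 11, -1⟩, (5, 8, 20)⟩,
  ⟨⟨3, -42, -59, 43, -38, 16, 16, 11, -17⟩, (39, 42, 20)⟩,
  ⟨⟨0, 0, 0, 0, 0, 0, 0, 0, 0⟩, (0, 0, 0)⟩,
  ⟨⟨0, 0, 0, 0, 0, 0, 0, 0, 0⟩, (0, 0, 0)⟩,
  ⟨⟨0, 0, 0, 0, 0, 0, 0, 0, 0⟩, (0, 0, 0)⟩,
  ⟨⟨0, 0, 0, 0, 0, 0, 0, 0, 0⟩, (0, 0, 0)⟩,
  ⟨⟨0, 0, 0, 0, 0, 0, 0, 0, 0⟩, (0, 0, 0)⟩,
  ⟨⟨-13, -62, -16, 53, -22, 11, 12, 3, -25⟩, (34, 6, 12)⟩,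
  ⟨⟨0, 0, 0, 0, 0, 0, 0, 0, 0⟩, (0, 0, 0)⟩,
  ⟨⟨0, 0, 0, 0, 0, 0, 0, 0, 0⟩, (0, 0, 0)⟩,
  ⟨⟨0, 0, 0, 0, 0, 0, 0, 0, 0⟩, (0, 0, 0)⟩,
  ⟨⟨17, -22, -76, -63, -18, 19, -4, 19, -7⟩, (15, 8, 2)⟩,
  ⟨⟨0, 0, 0, 0, 0, 0, 0, 0, 0⟩, (0, 0, 0)⟩,
  ⟨⟨0, 0, 0, 0, 0, 0, 0, 0, 0⟩, (0, 0, 0)⟩,
  ⟨⟨3, 42, -59, 43, 38, 16, 16, -11, -17⟩, (38, 12, 46)⟩,
  ⟨⟨0, 0, 0, 0, 0, 0, 0, 0, 0⟩, (0, 0, 0)⟩,
  ⟨⟨-13, 62, -16, 53, 22, 11, 12, -3, -25⟩, (37, 1, 2)⟩,
  ⟨⟨23, 62, -19, 57, -18, 4, 8, -5, -25⟩, (29, 31, 6)⟩,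
  ⟨⟨23, -62, -19, 57, 18, 4, 8, 5, -25⟩, (26, 44, 7)⟩,
  ⟨⟨0, 0, 0, 0, 0, 0, 0, 0, 0⟩, (0, 0, 0)⟩,
  ⟨⟨-17, 22, -59, -63, -18, 44, 4, -19, -11⟩, (10, 26, 17)⟩,
  ⟨⟨0, 0, 0, 0, 0, 0, 0, 0, 0⟩, (0, 0, 0)⟩,
  ⟨⟨0, 0, 0, 0, 0, 0, 0, 0, 0⟩, (0, 0, 0)⟩,
  ⟨⟨0, 0, 0, 0, 0, 0, 0, 0, 0⟩, (0, 0, 0)⟩]

/-- Unit moves. -/
noncomputable def U : List Mv := [mz,
  mz,
  ⟨⟨-1, 0, 1, 0, 1, 0, 0, 0, 1⟩, .nil, (nat_lit 10), (nat_lit 5), (nat_lit 1), (nat_lit 1), (0, 0, 0), [], 6⟩,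
  ⟨⟨1, 0, 0, 0, -1, 0, 0, 0, 1⟩, .nil, (nat_lit 10), (nat_lit 10), (nat_lit 2), (nat_lit 1), (0, 0, 0), [], 10⟩,
  mz,
  mz,
  ⟨⟨-1, 0, 1, 0, -1, 0, 0, 0, 1⟩, .nil, (nat_lit 0), (nat_lit 6), (nat_lit 1), (nat_lit 0), (0, 0, 0), [], 5⟩,
  ⟨⟨-1, 0, 1, 0, -1, 0, 0, 0, 1⟩, .nil, (nat_lit 0), (nat_lit 6), (nat_lit 1), (nat_lit 0), (0, 0, 0), [], 5⟩,
  ⟨⟨1, 0, 0, 0, -1, 0, 0, 0, 1⟩, .nil, (nat_lit 10), (nat_lit 10), (nat_lit 2), (nat_lit 1), (0, 0, 0), [], 10⟩,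
  ⟨⟨-1, 0, 1, 0, 1, 0, 0, 0, 1⟩, .nil, (nat_lit 10), (nat_lit 5), (nat_lit 1), (nat_lit 1), (0, 0, 0), [], 6⟩,
  mz]

theorem v_ty : tyb Dm S.ty1 Clm = true := by decide +kernel

theorem v_ty0 : tyb D0 (S.tys.getD 0 0) Cl0 = true := by decide +kernel

theorem v_ty1 : tyb D1 (S.tys.getD 1 0) Cl1 = true := by decide +kernel

theorem v_msc : mscb S D0 [D1] Dm (nat_lit 18) = true := by decide +kernel

theorem v_mv0 : mvsn (nat_lit 80677309817764979) S D0 [D1] Dm (nat_lit 18) 0 D0 = true := by decide +kernel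

theorem v_mv1 : mvsn (nat_lit 80677309817764979) S D0 [D1] Dm (nat_lit 18) 1 D1 = true := by decide +kernel

theorem v_mm : mmsn (nat_lit 80677309817764979) S D0 [D1] Dm (nat_lit 18) = true := by decide +kernel

theorem v_un : unb S D0 (nat_lit 18) U = true := by decide +kernel

theorem v_ok : okb S.oks [(0, 0, 0), (0, 0, 0), (0, 3, 0), (0, 0, 0), (6, 23, 0)] = true := by decide +kernel

theorem v_part : ∀ d < D0.p, (nat_lit 18).testBit d = true → part S (zc (D0 :: [D1])) d = true := by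
  intro d hd h
  have h1 : ∀ d < 11, (nat_lit 18).testBit d = true → d = 1 ∨ d = 4 := by decide
  rcases h1 d hd h with rfl | rfl
  · exact part_1
  · exact part_4

theorem main (n : ℕ) (ho : Odd n) (hr : ¬ Rep n) (h0 : Split 11 n) (h1 : Split 37 n) (hm : Split 47 n) :
    n ∈ EE := by
  refine concln (W := nat_lit 80677309817764979) (S := S) (P0 := D0) (Pl := [D1]) (Pm := Dm) (cn := nat_lit 18) ?_ Dm_ok v_ty ?_ ?_ v_msc ?_ v_mm v_un v_part v_ok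
    n ho hr ?_ hm
  · simp only [List.forall_mem_cons]
    exact ⟨D0_ok, D1_ok, fun _ h => absurd h (by simp)⟩
  · exact all2 (φ := fun j P => ∃ L, tyb P (S.tys.getD j 0) L = true) ⟨_, v_ty0⟩ ⟨_, v_ty1⟩
  · exact all2 (φ := fun j P => Nat.ble (S.pks.getD j 0) (Nat.pow P.p P.K) = true) (by decide +kernel) (by decide +kernel)
  · exact all2 (φ := fun i P => mvsn (nat_lit 80677309817764979) S D0 [D1] Dm (nat_lit 18) i P = true) v_mv0 v_mv1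
  · simp only [List.forall_mem_cons]
    exact ⟨h0, h1, fun _ h => absurd h (by simp)⟩

end Pool.Agent.Work.MP_9954fe_nt.P11_37_47

namespace Pool.Agent.Work.MP_9954fe_nt.P43_47_71

/-- Dummy move. -/
noncomputable def mz : Mv := ⟨⟨0, 0, 0, 0, 0, 0, 0, 0, 0⟩, .nil, (nat_lit 0), (nat_lit 0), (nat_lit 0), (nat_lit 0), (0, 0, 0), [], 0⟩

/-- Moves. -/
noncomputable def t0_1 : List Mv := [
  ⟨⟨3, 44, -20, -2, -15, -44, 36, 12, -25⟩, (.cons (nat_lit 189) (nat_lit 471) (nat_lit 983) (nat_lit 1) (.cons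
 (nat_lit 366) (nat_lit 1620) (nat_lit 2108) (nat_lit 1) .nil)), (nat_lit 37), (nat_lit 53), (nat_lit 3),
 (nat_lit 1), (36, 19, 2), [554, 1939], 63⟩,
  ⟨⟨3, 44, -20, -2, -15, -44, 36, 12, -25⟩, (.cons (nat_lit 189) (nat_lit 471) (nat_lit 983) (nat_lit 1) (.cons
 (nat_lit 366) (nat_lit 1620) (nat_lit 2108) (nat_lit 1) .nil)), (nat_lit 37), (nat_lit 53), (nat_lit 3),
 (nat_lit 1), (36, 19, 2), [554, 1939], 63⟩,
  ⟨⟨3, 44, -20, -2, -15, -44, 36, 12, -25⟩, (.cons (nat_lit 189) (nat_lit 471) (nat_lit 983) (nat_lit 1) (.cons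
 (nat_lit 366) (nat_lit 1620) (nat_lit 2108) (nat_lit 1) .nil)), (nat_lit 37), (nat_lit 53), (nat_lit 3),
 (nat_lit 1), (36, 19, 2), [554, 1939], 63⟩,
  ⟨⟨3, 44, -20, 2, 15, 44, 36, 12, -25⟩, (.cons (nat_lit 1146) (nat_lit 1615) (nat_lit 185) (nat_lit 1) (.cons
 (nat_lit 2076) (nat_lit 1100) (nat_lit 2200) (nat_lit 1) .nil)), (nat_lit 35), (nat_lit 68), (nat_lit 31),
 (nat_lit 1), (36, 24, 2), [60, 271], 37⟩,
  ⟨⟨33, -32, -5, -2, -15, -44, 36, 12, -25⟩, (.cons (nat_lit 1531) (nat_lit 1593) (nat_lit 1327) (nat_lit 1)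
 (.cons (nat_lit 1702) (nat_lit 1435) (nat_lit 463) (nat_lit 1) .nil)), (nat_lit 47), (nat_lit 29), (nat_lit
 12), (nat_lit 1), (9, 19, 2), [1027, 2080], 50⟩,
  ⟨⟨3, 44, -20, -2, -15, -44, 36, 12, -25⟩, (.cons (nat_lit 189) (nat_lit 471) (nat_lit 983) (nat_lit 1) (.cons
 (nat_lit 366) (nat_lit 1620) (nat_lit 2108) (nat_lit 1) .nil)), (nat_lit 37), (nat_lit 53), (nat_lit 3),
 (nat_lit 1), (36, 19, 2), [554, 1939], 63⟩,
  ⟨⟨33, -32, -5, -2, -15, -44, 36, 12, -25⟩, (.cons (nat_lit 1531) (nat_lit 1593) (nat_lit 1327) (nat_lit 1)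
 (.cons (nat_lit 1702) (nat_lit 1435) (nat_lit 463) (nat_lit 1) .nil)), (nat_lit 47), (nat_lit 29), (nat_lit
 12), (nat_lit 1), (9, 19, 2), [1027, 2080], 50⟩,
  ⟨⟨33, -32, -5, -2, -15, -44, 36, 12, -25⟩, (.cons (nat_lit 1531) (nat_lit 1593) (nat_lit 1327) (nat_lit 1)
 (.cons (nat_lit 1702) (nat_lit 1435) (nat_lit 463) (nat_lit 1) .nil)), (nat_lit 47), (nat_lit 29), (nat_lit
 12), (nat_lit 1), (9, 19, 2), [1027, 2080], 50⟩,
  ⟨⟨3, 44, -20, 2, 15, 44, 36, 12, -25⟩, (.cons (nat_lit 1146) (nat_lit 1615) (nat_lit 185) (nat_lit 1) (.cons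
 (nat_lit 2076) (nat_lit 1100) (nat_lit 2200) (nat_lit 1) .nil)), (nat_lit 35), (nat_lit 68), (nat_lit 31),
 (nat_lit 1), (36, 24, 2), [60, 271], 37⟩,
  ⟨⟨3, 44, -20, -2, -15, -44, 36, 12, -25⟩, (.cons (nat_lit 189) (nat_lit 471) (nat_lit 983) (nat_lit 1) (.cons
 (nat_lit 366) (nat_lit 1620) (nat_lit 2108) (nat_lit 1) .nil)), (nat_lit 37), (nat_lit 53), (nat_lit 3),
 (nat_lit 1), (36, 19, 2), [554, 1939], 63⟩,
  ⟨⟨3, 44, -20, -2, -15, -44, 36, 12, -25⟩, (.cons (nat_lit 189) (nat_lit 471) (nat_lit 983) (nat_lit 1) (.cons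
 (nat_lit 366) (nat_lit 1620) (nat_lit 2108) (nat_lit 1) .nil)), (nat_lit 37), (nat_lit 53), (nat_lit 3),
 (nat_lit 1), (36, 19, 2), [554, 1939], 63⟩,
  ⟨⟨3, 44, -20, -2, -15, -44, 36, 12, -25⟩, (.cons (nat_lit 189) (nat_lit 471) (nat_lit 983) (nat_lit 1) (.cons
 (nat_lit 366) (nat_lit 1620) (nat_lit 2108) (nat_lit 1) .nil)), (nat_lit 37), (nat_lit 53), (nat_lit 3),
 (nat_lit 1), (36, 19, 2), [554, 1939], 63⟩,
  ⟨⟨3, 44, -20, -2, -15, -44, 36, 12, -25⟩, (.cons (nat_lit 189) (nat_lit 471) (nat_lit 983) (nat_lit 1) (.cons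
 (nat_lit 366) (nat_lit 1620) (nat_lit 2108) (nat_lit 1) .nil)), (nat_lit 37), (nat_lit 53), (nat_lit 3),
 (nat_lit 1), (36, 19, 2), [554, 1939], 63⟩,
  ⟨⟨3, 44, -20, -2, -15, -44, 36, 12, -25⟩, (.cons (nat_lit 189) (nat_lit 471) (nat_lit 983) (nat_lit 1) (.cons
 (nat_lit 366) (nat_lit 1620) (nat_lit 2108) (nat_lit 1) .nil)), (nat_lit 37), (nat_lit 53), (nat_lit 3),
 (nat_lit 1), (36, 19, 2), [554, 1939], 63⟩,
  ⟨⟨3, 44, -20, -2, -15, -44, 36, 12, -25⟩, (.cons (nat_lit 189) (nat_lit 471) (nat_lit 983) (nat_lit 1) (.cons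
 (nat_lit 366) (nat_lit 1620) (nat_lit 2108) (nat_lit 1) .nil)), (nat_lit 37), (nat_lit 53), (nat_lit 3),
 (nat_lit 1), (36, 19, 2), [554, 1939], 63⟩,
  ⟨⟨3, 44, -20, -2, -15, -44, 36, 12, -25⟩, (.cons (nat_lit 189) (nat_lit 471) (nat_lit 983) (nat_lit 1) (.cons
 (nat_lit 366) (nat_lit 1620) (nat_lit 2108) (nat_lit 1) .nil)), (nat_lit 37), (nat_lit 53), (nat_lit 3),
 (nat_lit 1), (36, 19, 2), [554, 1939], 63⟩,
  ⟨⟨33, -32, -5, 2, 15, 44, 36, 12, -25⟩, (.cons (nat_lit 1778) (nat_lit 234) (nat_lit 615) (nat_lit 1) (.cons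
 (nat_lit 603) (nat_lit 921) (nat_lit 508) (nat_lit 1) .nil)), (nat_lit 50), (nat_lit 64), (nat_lit 65),
 (nat_lit 1), (9, 24, 2), [1608, 1540], 11⟩,
  ⟨⟨3, 44, -20, 2, 15, 44, 36, 12, -25⟩, (.cons (nat_lit 1146) (nat_lit 1615) (nat_lit 185) (nat_lit 1) (.cons
 (nat_lit 2076) (nat_lit 1100) (nat_lit 2200) (nat_lit 1) .nil)), (nat_lit 35), (nat_lit 68), (nat_lit 31),
 (nat_lit 1), (36, 24, 2), [60, 271], 37⟩,
  ⟨⟨3, 44, -20, -2, -15, -44, 36, 12, -25⟩, (.cons (nat_lit 189) (nat_lit 471) (nat_lit 983) (nat_lit 1) (.cons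
 (nat_lit 366) (nat_lit 1620) (nat_lit 2108) (nat_lit 1) .nil)), (nat_lit 37), (nat_lit 53), (nat_lit 3),
 (nat_lit 1), (36, 19, 2), [554, 1939], 63⟩,
  ⟨⟨33, -32, -5, 2, 15, 44, 36, 12, -25⟩, (.cons (nat_lit 1778) (nat_lit 234) (nat_lit 615) (nat_lit 1) (.cons
 (nat_lit 603) (nat_lit 921) (nat_lit 508) (nat_lit 1) .nil)), (nat_lit 50), (nat_lit 64), (nat_lit 65),
 (nat_lit 1), (9, 24, 2), [1608, 1540], 11⟩,
  ⟨⟨33, -32, -5, 2, 15, 44, 36, 12, -25⟩, (.cons (nat_lit 1778) (nat_lit 234) (nat_lit 615) (nat_lit 1) (.cons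
 (nat_lit 603) (nat_lit 921) (nat_lit 508) (nat_lit 1) .nil)), (nat_lit 50), (nat_lit 64), (nat_lit 65),
 (nat_lit 1), (9, 24, 2), [1608, 1540], 11⟩,
  ⟨⟨3, 44, -20, 2, 15, 44, 36, 12, -25⟩, (.cons (nat_lit 1146) (nat_lit 1615) (nat_lit 185) (nat_lit 1) (.cons
 (nat_lit 2076) (nat_lit 1100) (nat_lit 2200) (nat_lit 1) .nil)), (nat_lit 35), (nat_lit 68), (nat_lit 31),
 (nat_lit 1), (36, 24, 2), [60, 271], 37⟩,
  ⟨⟨3, 44, -20, -2, -15, -44, 36, 12, -25⟩, (.cons (nat_lit 189) (nat_lit 471) (nat_lit 983) (nat_lit 1) (.cons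
 (nat_lit 366) (nat_lit 1620) (nat_lit 2108) (nat_lit 1) .nil)), (nat_lit 37), (nat_lit 53), (nat_lit 3),
 (nat_lit 1), (36, 19, 2), [554, 1939], 63⟩,
  ⟨⟨3, 44, -20, -2, -15, -44, 36, 12, -25⟩, (.cons (nat_lit 189) (nat_lit 471) (nat_lit 983) (nat_lit 1) (.cons
 (nat_lit 366) (nat_lit 1620) (nat_lit 2108) (nat_lit 1) .nil)), (nat_lit 37), (nat_lit 53), (nat_lit 3),
 (nat_lit 1), (36, 19, 2), [554, 1939], 63⟩,
  ⟨⟨3, 44, -20, -2, -15, -44, 36, 12, -25⟩, (.cons (nat_lit 189) (nat_lit 471) (nat_lit 983) (nat_lit 1) (.cons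
 (nat_lit 366) (nat_lit 1620) (nat_lit 2108) (nat_lit 1) .nil)), (nat_lit 37), (nat_lit 53), (nat_lit 3),
 (nat_lit 1), (36, 19, 2), [554, 1939], 63⟩,
  ⟨⟨3, 44, -20, -2, -15, -44, 36, 12, -25⟩, (.cons (nat_lit 189) (nat_lit 471) (nat_lit 983) (nat_lit 1) (.cons
 (nat_lit 366) (nat_lit 1620) (nat_lit 2108) (nat_lit 1) .nil)), (nat_lit 37), (nat_lit 53), (nat_lit 3),
 (nat_lit 1), (36, 19, 2), [554, 1939], 63⟩,
  ⟨⟨33, -32, -5, -2, -15, -44, 36, 12, -25⟩, (.cons (nat_lit 1531) (nat_lit 1593) (nat_lit 1327) (nat_lit 1)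
 (.cons (nat_lit 1702) (nat_lit 1435) (nat_lit 463) (nat_lit 1) .nil)), (nat_lit 47), (nat_lit 29), (nat_lit
 12), (nat_lit 1), (9, 19, 2), [1027, 2080], 50⟩,
  ⟨⟨33, -32, -5, 2, 15, 44, 36, 12, -25⟩, (.cons (nat_lit 1778) (nat_lit 234) (nat_lit 615) (nat_lit 1) (.cons
 (nat_lit 603) (nat_lit 921) (nat_lit 508) (nat_lit 1) .nil)), (nat_lit 50), (nat_lit 64), (nat_lit 65),
 (nat_lit 1), (9, 24, 2), [1608, 1540], 11⟩,
  ⟨⟨33, -32, -5, -2, -15, -44, 36, 12, -25⟩, (.cons (nat_lit 1531) (nat_lit 1593) (nat_lit 1327) (nat_lit 1)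
 (.cons (nat_lit 1702) (nat_lit 1435) (nat_lit 463) (nat_lit 1) .nil)), (nat_lit 47), (nat_lit 29), (nat_lit
 12), (nat_lit 1), (9, 19, 2), [1027, 2080], 50⟩,
  ⟨⟨3, 44, -20, 2, 15, 44, 36, 12, -25⟩, (.cons (nat_lit 1146) (nat_lit 1615) (nat_lit 185) (nat_lit 1) (.cons
 (nat_lit 2076) (nat_lit 1100) (nat_lit 2200) (nat_lit 1) .nil)), (nat_lit 35), (nat_lit 68), (nat_lit 31),
 (nat_lit 1), (36, 24, 2), [60, 271], 37⟩,
  ⟨⟨3, 44, -20, 2, 15, 44, 36, 12, -25⟩, (.cons (nat_lit 1146) (nat_lit 1615) (nat_lit 185) (nat_lit 1) (.cons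
 (nat_lit 2076) (nat_lit 1100) (nat_lit 2200) (nat_lit 1) .nil)), (nat_lit 35), (nat_lit 68), (nat_lit 31),
 (nat_lit 1), (36, 24, 2), [60, 271], 37⟩,
  ⟨⟨33, -32, -5, -2, -15, -44, 36, 12, -25⟩, (.cons (nat_lit 1531) (nat_lit 1593) (nat_lit 1327) (nat_lit 1)
 (.cons (nat_lit 1702) (nat_lit 1435) (nat_lit 463) (nat_lit 1) .nil)), (nat_lit 47), (nat_lit 29), (nat_lit
 12), (nat_lit 1), (9, 19, 2), [1027, 2080], 50⟩,
  ⟨⟨3, 44, -20, -2, -15, -44, 36, 12, -25⟩, (.cons (nat_lit 189) (nat_lit 471) (nat_lit 983) (nat_lit 1) (.cons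
 (nat_lit 366) (nat_lit 1620) (nat_lit 2108) (nat_lit 1) .nil)), (nat_lit 37), (nat_lit 53), (nat_lit 3),
 (nat_lit 1), (36, 19, 2), [554, 1939], 63⟩,
  ⟨⟨3, 44, -20, -2, -15, -44, 36, 12, -25⟩, (.cons (nat_lit 189) (nat_lit 471) (nat_lit 983) (nat_lit 1) (.cons
 (nat_lit 366) (nat_lit 1620) (nat_lit 2108) (nat_lit 1) .nil)), (nat_lit 37), (nat_lit 53), (nat_lit 3),
 (nat_lit 1), (36, 19, 2), [554, 1939], 63⟩,
  ⟨⟨33, -32, -5, 2, 15, 44, 36, 12, -25⟩, (.cons (nat_lit 1778) (nat_lit 234) (nat_lit 615) (nat_lit 1) (.cons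
 (nat_lit 603) (nat_lit 921) (nat_lit 508) (nat_lit 1) .nil)), (nat_lit 50), (nat_lit 64), (nat_lit 65),
 (nat_lit 1), (9, 24, 2), [1608, 1540], 11⟩,
  ⟨⟨3, 44, -20, -2, -15, -44, 36, 12, -25⟩, (.cons (nat_lit 189) (nat_lit 471) (nat_lit 983) (nat_lit 1) (.cons
 (nat_lit 366) (nat_lit 1620) (nat_lit 2108) (nat_lit 1) .nil)), (nat_lit 37), (nat_lit 53), (nat_lit 3),
 (nat_lit 1), (36, 19, 2), [554, 1939], 63⟩,
  ⟨⟨3, 44, -20, -2, -15, -44, 36, 12, -25⟩, (.cons (nat_lit 189) (nat_lit 471) (nat_lit 983) (nat_lit 1) (.cons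
 (nat_lit 366) (nat_lit 1620) (nat_lit 2108) (nat_lit 1) .nil)), (nat_lit 37), (nat_lit 53), (nat_lit 3),
 (nat_lit 1), (36, 19, 2), [554, 1939], 63⟩,
  ⟨⟨3, 44, -20, -2, -15, -44, 36, 12, -25⟩, (.cons (nat_lit 189) (nat_lit 471) (nat_lit 983) (nat_lit 1) (.cons
 (nat_lit 366) (nat_lit 1620) (nat_lit 2108) (nat_lit 1) .nil)), (nat_lit 37), (nat_lit 53), (nat_lit 3),
 (nat_lit 1), (36, 19, 2), [554, 1939], 63⟩,
  ⟨⟨33, -32, -5, 2, 15, 44, 36, 12, -25⟩, (.cons (nat_lit 1778) (nat_lit 234) (nat_lit 615) (nat_lit 1) (.cons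
 (nat_lit 603) (nat_lit 921) (nat_lit 508) (nat_lit 1) .nil)), (nat_lit 50), (nat_lit 64), (nat_lit 65),
 (nat_lit 1), (9, 24, 2), [1608, 1540], 11⟩,
  ⟨⟨3, 44, -20, -2, -15, -44, 36, 12, -25⟩, (.cons (nat_lit 189) (nat_lit 471) (nat_lit 983) (nat_lit 1) (.cons
 (nat_lit 366) (nat_lit 1620) (nat_lit 2108) (nat_lit 1) .nil)), (nat_lit 37), (nat_lit 53), (nat_lit 3),
 (nat_lit 1), (36, 19, 2), [554, 1939], 63⟩,
  ⟨⟨3, 44, -20, -2, -15, -44, 36, 12, -25⟩, (.cons (nat_lit 189) (nat_lit 471) (nat_lit 983) (nat_lit 1) (.cons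
 (nat_lit 366) (nat_lit 1620) (nat_lit 2108) (nat_lit 1) .nil)), (nat_lit 37), (nat_lit 53), (nat_lit 3),
 (nat_lit 1), (36, 19, 2), [554, 1939], 63⟩,
  ⟨⟨3, 44, -20, -2, -15, -44, 36, 12, -25⟩, (.cons (nat_lit 189) (nat_lit 471) (nat_lit 983) (nat_lit 1) (.cons
 (nat_lit 366) (nat_lit 1620) (nat_lit 2108) (nat_lit 1) .nil)), (nat_lit 37), (nat_lit 53), (nat_lit 3),
 (nat_lit 1), (36, 19, 2), [554, 1939], 63⟩,
  ⟨⟨3, 44, -20, -2, -15, -44, 36, 12, -25⟩, (.cons (nat_lit 189) (nat_lit 471) (nat_lit 983) (nat_lit 1) (.cons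
 (nat_lit 366) (nat_lit 1620) (nat_lit 2108) (nat_lit 1) .nil)), (nat_lit 37), (nat_lit 53), (nat_lit 3),
 (nat_lit 1), (36, 19, 2), [554, 1939], 63⟩]

/-- Moves. -/
noncomputable def t0_4 : List Mv := [
  ⟨⟨19, 36, -36, -20, -13, -30, 34, -8, -35⟩, (.cons (nat_lit 749) (nat_lit 1193) (nat_lit 216) (nat_lit 1)
 (.cons (nat_lit 1314) (nat_lit 1871) (nat_lit 1490) (nat_lit 1) .nil)), (nat_lit 57), (nat_lit 46), (nat_lit
 47), (nat_lit 1), (14, 26, 16), [1777, 99], 61⟩,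
  ⟨⟨19, 36, -36, 20, 13, 30, 34, -8, -35⟩, (.cons (nat_lit 1439) (nat_lit 321) (nat_lit 745) (nat_lit 1) (.cons
 (nat_lit 504) (nat_lit 1374) (nat_lit 418) (nat_lit 1) .nil)), (nat_lit 42), (nat_lit 15), (nat_lit 64),
 (nat_lit 1), (14, 17, 16), [815, 2135], 2⟩,
  ⟨⟨15, -44, 1, -20, -13, -30, 34, -8, -35⟩, (.cons (nat_lit 1100) (nat_lit 785) (nat_lit 732) (nat_lit 1)
 (.cons (nat_lit 566) (nat_lit 526) (nat_lit 1725) (nat_lit 1) .nil)), (nat_lit 69), (nat_lit 51), (nat_lit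
 17), (nat_lit 1), (2, 26, 16), [1519, 1556], 50⟩,
  ⟨⟨19, 36, -36, -20, -13, -30, 34, -8, -35⟩, (.cons (nat_lit 749) (nat_lit 1193) (nat_lit 216) (nat_lit 1)
 (.cons (nat_lit 1314) (nat_lit 1871) (nat_lit 1490) (nat_lit 1) .nil)), (nat_lit 57), (nat_lit 46), (nat_lit
 47), (nat_lit 1), (14, 26, 16), [1777, 99], 61⟩,
  ⟨⟨19, 36, -36, 20, 13, 30, 34, -8, -35⟩, (.cons (nat_lit 1439) (nat_lit 321) (nat_lit 745) (nat_lit 1) (.cons
 (nat_lit 504) (nat_lit 1374) (nat_lit 418) (nat_lit 1) .nil)), (nat_lit 42), (nat_lit 15), (nat_lit 64),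
 (nat_lit 1), (14, 17, 16), [815, 2135], 2⟩,
  ⟨⟨19, 36, -36, -20, -13, -30, 34, -8, -35⟩, (.cons (nat_lit 749) (nat_lit 1193) (nat_lit 216) (nat_lit 1)
 (.cons (nat_lit 1314) (nat_lit 1871) (nat_lit 1490) (nat_lit 1) .nil)), (nat_lit 57), (nat_lit 46), (nat_lit
 47), (nat_lit 1), (14, 26, 16), [1777, 99], 61⟩,
  ⟨⟨19, 36, -36, -20, -13, -30, 34, -8, -35⟩, (.cons (nat_lit 749) (nat_lit 1193) (nat_lit 216) (nat_lit 1)
 (.cons (nat_lit 1314) (nat_lit 1871) (nat_lit 1490) (nat_lit 1) .nil)), (nat_lit 57), (nat_lit 46), (nat_lit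
 47), (nat_lit 1), (14, 26, 16), [1777, 99], 61⟩,
  ⟨⟨19, 36, -36, -20, -13, -30, 34, -8, -35⟩, (.cons (nat_lit 749) (nat_lit 1193) (nat_lit 216) (nat_lit 1)
 (.cons (nat_lit 1314) (nat_lit 1871) (nat_lit 1490) (nat_lit 1) .nil)), (nat_lit 57), (nat_lit 46), (nat_lit
 47), (nat_lit 1), (14, 26, 16), [1777, 99], 61⟩,
  ⟨⟨19, 36, -36, -20, -13, -30, 34, -8, -35⟩, (.cons (nat_lit 749) (nat_lit 1193) (nat_lit 216) (nat_lit 1)
 (.cons (nat_lit 1314) (nat_lit 1871) (nat_lit 1490) (nat_lit 1) .nil)), (nat_lit 57), (nat_lit 46), (nat_lit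
 47), (nat_lit 1), (14, 26, 16), [1777, 99], 61⟩,
  ⟨⟨19, 36, -36, -20, -13, -30, 34, -8, -35⟩, (.cons (nat_lit 749) (nat_lit 1193) (nat_lit 216) (nat_lit 1)
 (.cons (nat_lit 1314) (nat_lit 1871) (nat_lit 1490) (nat_lit 1) .nil)), (nat_lit 57), (nat_lit 46), (nat_lit
 47), (nat_lit 1), (14, 26, 16), [1777, 99], 61⟩,
  ⟨⟨19, 36, -36, 20, 13, 30, 34, -8, -35⟩, (.cons (nat_lit 1439) (nat_lit 321) (nat_lit 745) (nat_lit 1) (.cons
 (nat_lit 504) (nat_lit 1374) (nat_lit 418) (nat_lit 1) .nil)), (nat_lit 42), (nat_lit 15), (nat_lit 64),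
 (nat_lit 1), (14, 17, 16), [815, 2135], 2⟩,
  ⟨⟨15, -44, 1, 20, 13, 30, 34, -8, -35⟩, (.cons (nat_lit 1571) (nat_lit 883) (nat_lit 1347) (nat_lit 1) (.cons
 (nat_lit 1423) (nat_lit 1916) (nat_lit 1687) (nat_lit 1) .nil)), (nat_lit 67), (nat_lit 12), (nat_lit 46),
 (nat_lit 1), (2, 17, 16), [772, 1148], 52⟩,
  ⟨⟨19, 36, -36, -20, -13, -30, 34, -8, -35⟩, (.cons (nat_lit 749) (nat_lit 1193) (nat_lit 216) (nat_lit 1)
 (.cons (nat_lit 1314) (nat_lit 1871) (nat_lit 1490) (nat_lit 1) .nil)), (nat_lit 57), (nat_lit 46), (nat_lit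
 47), (nat_lit 1), (14, 26, 16), [1777, 99], 61⟩,
  ⟨⟨19, 36, -36, -20, -13, -30, 34, -8, -35⟩, (.cons (nat_lit 749) (nat_lit 1193) (nat_lit 216) (nat_lit 1)
 (.cons (nat_lit 1314) (nat_lit 1871) (nat_lit 1490) (nat_lit 1) .nil)), (nat_lit 57), (nat_lit 46), (nat_lit
 47), (nat_lit 1), (14, 26, 16), [1777, 99], 61⟩,
  ⟨⟨15, -44, 1, -20, -13, -30, 34, -8, -35⟩, (.cons (nat_lit 1100) (nat_lit 785) (nat_lit 732) (nat_lit 1)
 (.cons (nat_lit 566) (nat_lit 526) (nat_lit 1725) (nat_lit 1) .nil)), (nat_lit 69), (nat_lit 51), (nat_lit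
 17), (nat_lit 1), (2, 26, 16), [1519, 1556], 50⟩,
  ⟨⟨19, 36, -36, 20, 13, 30, 34, -8, -35⟩, (.cons (nat_lit 1439) (nat_lit 321) (nat_lit 745) (nat_lit 1) (.cons
 (nat_lit 504) (nat_lit 1374) (nat_lit 418) (nat_lit 1) .nil)), (nat_lit 42), (nat_lit 15), (nat_lit 64),
 (nat_lit 1), (14, 17, 16), [815, 2135], 2⟩,
  ⟨⟨15, -44, 1, -20, -13, -30, 34, -8, -35⟩, (.cons (nat_lit 1100) (nat_lit 785) (nat_lit 732) (nat_lit 1)
 (.cons (nat_lit 566) (nat_lit 526) (nat_lit 1725) (nat_lit 1) .nil)), (nat_lit 69), (nat_lit 51), (nat_lit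
 17), (nat_lit 1), (2, 26, 16), [1519, 1556], 50⟩,
  ⟨⟨19, 36, -36, -20, -13, -30, 34, -8, -35⟩, (.cons (nat_lit 749) (nat_lit 1193) (nat_lit 216) (nat_lit 1)
 (.cons (nat_lit 1314) (nat_lit 1871) (nat_lit 1490) (nat_lit 1) .nil)), (nat_lit 57), (nat_lit 46), (nat_lit
 47), (nat_lit 1), (14, 26, 16), [1777, 99], 61⟩,
  ⟨⟨19, 36, -36, 20, 13, 30, 34, -8, -35⟩, (.cons (nat_lit 1439) (nat_lit 321) (nat_lit 745) (nat_lit 1) (.cons
 (nat_lit 504) (nat_lit 1374) (nat_lit 418) (nat_lit 1) .nil)), (nat_lit 42), (nat_lit 15), (nat_lit 64),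
 (nat_lit 1), (14, 17, 16), [815, 2135], 2⟩,
  ⟨⟨19, 36, -36, -20, -13, -30, 34, -8, -35⟩, (.cons (nat_lit 749) (nat_lit 1193) (nat_lit 216) (nat_lit 1)
 (.cons (nat_lit 1314) (nat_lit 1871) (nat_lit 1490) (nat_lit 1) .nil)), (nat_lit 57), (nat_lit 46), (nat_lit
 47), (nat_lit 1), (14, 26, 16), [1777, 99], 61⟩,
  ⟨⟨15, -44, 1, -20, -13, -30, 34, -8, -35⟩, (.cons (nat_lit 1100) (nat_lit 785) (nat_lit 732) (nat_lit 1)
 (.cons (nat_lit 566) (nat_lit 526) (nat_lit 1725) (nat_lit 1) .nil)), (nat_lit 69), (nat_lit 51), (nat_lit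
 17), (nat_lit 1), (2, 26, 16), [1519, 1556], 50⟩,
  ⟨⟨19, 36, -36, -20, -13, -30, 34, -8, -35⟩, (.cons (nat_lit 749) (nat_lit 1193) (nat_lit 216) (nat_lit 1)
 (.cons (nat_lit 1314) (nat_lit 1871) (nat_lit 1490) (nat_lit 1) .nil)), (nat_lit 57), (nat_lit 46), (nat_lit
 47), (nat_lit 1), (14, 26, 16), [1777, 99], 61⟩,
  ⟨⟨15, -44, 1, 20, 13, 30, 34, -8, -35⟩, (.cons (nat_lit 1571) (nat_lit 883) (nat_lit 1347) (nat_lit 1) (.cons
 (nat_lit 1423) (nat_lit 1916) (nat_lit 1687) (nat_lit 1) .nil)), (nat_lit 67), (nat_lit 12), (nat_lit 46),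
 (nat_lit 1), (2, 17, 16), [772, 1148], 52⟩,
  ⟨⟨19, 36, -36, -20, -13, -30, 34, -8, -35⟩, (.cons (nat_lit 749) (nat_lit 1193) (nat_lit 216) (nat_lit 1)
 (.cons (nat_lit 1314) (nat_lit 1871) (nat_lit 1490) (nat_lit 1) .nil)), (nat_lit 57), (nat_lit 46), (nat_lit
 47), (nat_lit 1), (14, 26, 16), [1777, 99], 61⟩,
  ⟨⟨15, -44, 1, 20, 13, 30, 34, -8, -35⟩, (.cons (nat_lit 1571) (nat_lit 883) (nat_lit 1347) (nat_lit 1) (.cons
 (nat_lit 1423) (nat_lit 1916) (nat_lit 1687) (nat_lit 1) .nil)), (nat_lit 67), (nat_lit 12), (nat_lit 46),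
 (nat_lit 1), (2, 17, 16), [772, 1148], 52⟩,
  ⟨⟨19, 36, -36, -20, -13, -30, 34, -8, -35⟩, (.cons (nat_lit 749) (nat_lit 1193) (nat_lit 216) (nat_lit 1)
 (.cons (nat_lit 1314) (nat_lit 1871) (nat_lit 1490) (nat_lit 1) .nil)), (nat_lit 57), (nat_lit 46), (nat_lit
 47), (nat_lit 1), (14, 26, 16), [1777, 99], 61⟩,
  ⟨⟨19, 36, -36, -20, -13, -30, 34, -8, -35⟩, (.cons (nat_lit 749) (nat_lit 1193) (nat_lit 216) (nat_lit 1)
 (.cons (nat_lit 1314) (nat_lit 1871) (nat_lit 1490) (nat_lit 1) .nil)), (nat_lit 57), (nat_lit 46), (nat_lit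
 47), (nat_lit 1), (14, 26, 16), [1777, 99], 61⟩,
  ⟨⟨19, 36, -36, -20, -13, -30, 34, -8, -35⟩, (.cons (nat_lit 749) (nat_lit 1193) (nat_lit 216) (nat_lit 1)
 (.cons (nat_lit 1314) (nat_lit 1871) (nat_lit 1490) (nat_lit 1) .nil)), (nat_lit 57), (nat_lit 46), (nat_lit
 47), (nat_lit 1), (14, 26, 16), [1777, 99], 61⟩,
  ⟨⟨19, 36, -36, -20, -13, -30, 34, -8, -35⟩, (.cons (nat_lit 749) (nat_lit 1193) (nat_lit 216) (nat_lit 1)
 (.cons (nat_lit 1314) (nat_lit 1871) (nat_lit 1490) (nat_lit 1) .nil)), (nat_lit 57), (nat_lit 46), (nat_lit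
 47), (nat_lit 1), (14, 26, 16), [1777, 99], 61⟩,
  ⟨⟨19, 36, -36, -20, -13, -30, 34, -8, -35⟩, (.cons (nat_lit 749) (nat_lit 1193) (nat_lit 216) (nat_lit 1)
 (.cons (nat_lit 1314) (nat_lit 1871) (nat_lit 1490) (nat_lit 1) .nil)), (nat_lit 57), (nat_lit 46), (nat_lit
 47), (nat_lit 1), (14, 26, 16), [1777, 99], 61⟩,
  ⟨⟨19, 36, -36, -20, -13, -30, 34, -8, -35⟩, (.cons (nat_lit 749) (nat_lit 1193) (nat_lit 216) (nat_lit 1)
 (.cons (nat_lit 1314) (nat_lit 1871) (nat_lit 1490) (nat_lit 1) .nil)), (nat_lit 57), (nat_lit 46), (nat_lit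
 47), (nat_lit 1), (14, 26, 16), [1777, 99], 61⟩,
  ⟨⟨15, -44, 1, 20, 13, 30, 34, -8, -35⟩, (.cons (nat_lit 1571) (nat_lit 883) (nat_lit 1347) (nat_lit 1) (.cons
 (nat_lit 1423) (nat_lit 1916) (nat_lit 1687) (nat_lit 1) .nil)), (nat_lit 67), (nat_lit 12), (nat_lit 46),
 (nat_lit 1), (2, 17, 16), [772, 1148], 52⟩,
  ⟨⟨15, -44, 1, 20, 13, 30, 34, -8, -35⟩, (.cons (nat_lit 1571) (nat_lit 883) (nat_lit 1347) (nat_lit 1) (.cons
 (nat_lit 1423) (nat_lit 1916) (nat_lit 1687) (nat_lit 1) .nil)), (nat_lit 67), (nat_lit 12), (nat_lit 46),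
 (nat_lit 1), (2, 17, 16), [772, 1148], 52⟩,
  ⟨⟨15, -44, 1, -20, -13, -30, 34, -8, -35⟩, (.cons (nat_lit 1100) (nat_lit 785) (nat_lit 732) (nat_lit 1)
 (.cons (nat_lit 566) (nat_lit 526) (nat_lit 1725) (nat_lit 1) .nil)), (nat_lit 69), (nat_lit 51), (nat_lit
 17), (nat_lit 1), (2, 26, 16), [1519, 1556], 50⟩,
  ⟨⟨19, 36, -36, -20, -13, -30, 34, -8, -35⟩, (.cons (nat_lit 749) (nat_lit 1193) (nat_lit 216) (nat_lit 1)
 (.cons (nat_lit 1314) (nat_lit 1871) (nat_lit 1490) (nat_lit 1) .nil)), (nat_lit 57), (nat_lit 46), (nat_lit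
 47), (nat_lit 1), (14, 26, 16), [1777, 99], 61⟩,
  ⟨⟨19, 36, -36, -20, -13, -30, 34, -8, -35⟩, (.cons (nat_lit 749) (nat_lit 1193) (nat_lit 216) (nat_lit 1)
 (.cons (nat_lit 1314) (nat_lit 1871) (nat_lit 1490) (nat_lit 1) .nil)), (nat_lit 57), (nat_lit 46), (nat_lit
 47), (nat_lit 1), (14, 26, 16), [1777, 99], 61⟩,
  ⟨⟨19, 36, -36, 20, 13, 30, 34, -8, -35⟩, (.cons (nat_lit 1439) (nat_lit 321) (nat_lit 745) (nat_lit 1) (.cons
 (nat_lit 504) (nat_lit 1374) (nat_lit 418) (nat_lit 1) .nil)), (nat_lit 42), (nat_lit 15), (nat_lit 64),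
 (nat_lit 1), (14, 17, 16), [815, 2135], 2⟩,
  ⟨⟨19, 36, -36, -20, -13, -30, 34, -8, -35⟩, (.cons (nat_lit 749) (nat_lit 1193) (nat_lit 216) (nat_lit 1)
 (.cons (nat_lit 1314) (nat_lit 1871) (nat_lit 1490) (nat_lit 1) .nil)), (nat_lit 57), (nat_lit 46), (nat_lit
 47), (nat_lit 1), (14, 26, 16), [1777, 99], 61⟩,
  ⟨⟨15, -44, 1, -20, -13, -30, 34, -8, -35⟩, (.cons (nat_lit 1100) (nat_lit 785) (nat_lit 732) (nat_lit 1)
 (.cons (nat_lit 566) (nat_lit 526) (nat_lit 1725) (nat_lit 1) .nil)), (nat_lit 69), (nat_lit 51), (nat_lit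
 17), (nat_lit 1), (2, 26, 16), [1519, 1556], 50⟩,
  ⟨⟨15, -44, 1, -20, -13, -30, 34, -8, -35⟩, (.cons (nat_lit 1100) (nat_lit 785) (nat_lit 732) (nat_lit 1)
 (.cons (nat_lit 566) (nat_lit 526) (nat_lit 1725) (nat_lit 1) .nil)), (nat_lit 69), (nat_lit 51), (nat_lit
 17), (nat_lit 1), (2, 26, 16), [1519, 1556], 50⟩,
  ⟨⟨19, 36, -36, -20, -13, -30, 34, -8, -35⟩, (.cons (nat_lit 749) (nat_lit 1193) (nat_lit 216) (nat_lit 1)
 (.cons (nat_lit 1314) (nat_lit 1871) (nat_lit 1490) (nat_lit 1) .nil)), (nat_lit 57), (nat_lit 46), (nat_lit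
 47), (nat_lit 1), (14, 26, 16), [1777, 99], 61⟩,
  ⟨⟨19, 36, -36, -20, -13, -30, 34, -8, -35⟩, (.cons (nat_lit 749) (nat_lit 1193) (nat_lit 216) (nat_lit 1)
 (.cons (nat_lit 1314) (nat_lit 1871) (nat_lit 1490) (nat_lit 1) .nil)), (nat_lit 57), (nat_lit 46), (nat_lit
 47), (nat_lit 1), (14, 26, 16), [1777, 99], 61⟩,
  ⟨⟨19, 36, -36, -20, -13, -30, 34, -8, -35⟩, (.cons (nat_lit 749) (nat_lit 1193) (nat_lit 216) (nat_lit 1)
 (.cons (nat_lit 1314) (nat_lit 1871) (nat_lit 1490) (nat_lit 1) .nil)), (nat_lit 57), (nat_lit 46), (nat_lit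
 47), (nat_lit 1), (14, 26, 16), [1777, 99], 61⟩]

/-- Moves. -/
noncomputable def t0_6 : List Mv := [
  ⟨⟨-37, -24, 0, 20, -37, 0, 2, -8, -43⟩, (.cons (nat_lit 1242) (nat_lit 735) (nat_lit 952) (nat_lit 1) (.cons
 (nat_lit 146) (nat_lit 1917) (nat_lit 1502) (nat_lit 1) .nil)), (nat_lit 23), (nat_lit 62), (nat_lit 32),
 (nat_lit 1), (12, 40, 4), [1405, 1679], 46⟩,
  ⟨⟨-37, -24, 0, 20, -37, 0, 2, -8, -43⟩, (.cons (nat_lit 1242) (nat_lit 735) (nat_lit 952) (nat_lit 1) (.cons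
 (nat_lit 146) (nat_lit 1917) (nat_lit 1502) (nat_lit 1) .nil)), (nat_lit 23), (nat_lit 62), (nat_lit 32),
 (nat_lit 1), (12, 40, 4), [1405, 1679], 46⟩,
  ⟨⟨39, 16, -43, 20, -37, 0, 2, -8, -43⟩, (.cons (nat_lit 349) (nat_lit 1415) (nat_lit 436) (nat_lit 1) (.cons
 (nat_lit 653) (nat_lit 1843) (nat_lit 891) (nat_lit 1) .nil)), (nat_lit 33), (nat_lit 31), (nat_lit 33),
 (nat_lit 1), (35, 40, 4), [975, 1397], 30⟩,
  ⟨⟨39, 16, -43, -20, 37, 0, 2, -8, -43⟩, (.cons (nat_lit 717) (nat_lit 872) (nat_lit 848) (nat_lit 1) (.cons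
 (nat_lit 800) (nat_lit 1668) (nat_lit 1057) (nat_lit 1) .nil)), (nat_lit 49), (nat_lit 57), (nat_lit 29),
 (nat_lit 1), (35, 3, 4), [988, 332], 31⟩,
  ⟨⟨-37, -24, 0, -20, 37, 0, 2, -8, -43⟩, (.cons (nat_lit 1390) (nat_lit 1579) (nat_lit 547) (nat_lit 1) (.cons
 (nat_lit 2208) (nat_lit 1011) (nat_lit 1198) (nat_lit 1) .nil)), (nat_lit 70), (nat_lit 43), (nat_lit 40),
 (nat_lit 1), (12, 3, 4), [1160, 896], 50⟩,
  ⟨⟨39, 16, -43, -20, 37, 0, 2, -8, -43⟩, (.cons (nat_lit 717) (nat_lit 872) (nat_lit 848) (nat_lit 1) (.cons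
 (nat_lit 800) (nat_lit 1668) (nat_lit 1057) (nat_lit 1) .nil)), (nat_lit 49), (nat_lit 57), (nat_lit 29),
 (nat_lit 1), (35, 3, 4), [988, 332], 31⟩,
  ⟨⟨39, 16, -43, 20, -37, 0, 2, -8, -43⟩, (.cons (nat_lit 349) (nat_lit 1415) (nat_lit 436) (nat_lit 1) (.cons
 (nat_lit 653) (nat_lit 1843) (nat_lit 891) (nat_lit 1) .nil)), (nat_lit 33), (nat_lit 31), (nat_lit 33),
 (nat_lit 1), (35, 40, 4), [975, 1397], 30⟩,
  ⟨⟨-37, -24, 0, -20, 37, 0, 2, -8, -43⟩, (.cons (nat_lit 1390) (nat_lit 1579) (nat_lit 547) (nat_lit 1) (.cons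
 (nat_lit 2208) (nat_lit 1011) (nat_lit 1198) (nat_lit 1) .nil)), (nat_lit 70), (nat_lit 43), (nat_lit 40),
 (nat_lit 1), (12, 3, 4), [1160, 896], 50⟩,
  ⟨⟨39, 16, -43, 20, -37, 0, 2, -8, -43⟩, (.cons (nat_lit 349) (nat_lit 1415) (nat_lit 436) (nat_lit 1) (.cons
 (nat_lit 653) (nat_lit 1843) (nat_lit 891) (nat_lit 1) .nil)), (nat_lit 33), (nat_lit 31), (nat_lit 33),
 (nat_lit 1), (35, 40, 4), [975, 1397], 30⟩,
  ⟨⟨39, 16, -43, 20, -37, 0, 2, -8, -43⟩, (.cons (nat_lit 349) (nat_lit 1415) (nat_lit 436) (nat_lit 1) (.cons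
 (nat_lit 653) (nat_lit 1843) (nat_lit 891) (nat_lit 1) .nil)), (nat_lit 33), (nat_lit 31), (nat_lit 33),
 (nat_lit 1), (35, 40, 4), [975, 1397], 30⟩,
  ⟨⟨-37, -24, 0, 20, -37, 0, 2, -8, -43⟩, (.cons (nat_lit 1242) (nat_lit 735) (nat_lit 952) (nat_lit 1) (.cons
 (nat_lit 146) (nat_lit 1917) (nat_lit 1502) (nat_lit 1) .nil)), (nat_lit 23), (nat_lit 62), (nat_lit 32),
 (nat_lit 1), (12, 40, 4), [1405, 1679], 46⟩,
  ⟨⟨-37, -24, 0, -20, 37, 0, 2, -8, -43⟩, (.cons (nat_lit 1390) (nat_lit 1579) (nat_lit 547) (nat_lit 1) (.cons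
 (nat_lit 2208) (nat_lit 1011) (nat_lit 1198) (nat_lit 1) .nil)), (nat_lit 70), (nat_lit 43), (nat_lit 40),
 (nat_lit 1), (12, 3, 4), [1160, 896], 50⟩,
  ⟨⟨-37, -24, 0, 20, -37, 0, 2, -8, -43⟩, (.cons (nat_lit 1242) (nat_lit 735) (nat_lit 952) (nat_lit 1) (.cons
 (nat_lit 146) (nat_lit 1917) (nat_lit 1502) (nat_lit 1) .nil)), (nat_lit 23), (nat_lit 62), (nat_lit 32),
 (nat_lit 1), (12, 40, 4), [1405, 1679], 46⟩,
  ⟨⟨-37, -24, 0, -20, 37, 0, 2, -8, -43⟩, (.cons (nat_lit 1390) (nat_lit 1579) (nat_lit 547) (nat_lit 1) (.cons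
 (nat_lit 2208) (nat_lit 1011) (nat_lit 1198) (nat_lit 1) .nil)), (nat_lit 70), (nat_lit 43), (nat_lit 40),
 (nat_lit 1), (12, 3, 4), [1160, 896], 50⟩,
  ⟨⟨-37, -24, 0, -20, 37, 0, 2, -8, -43⟩, (.cons (nat_lit 1390) (nat_lit 1579) (nat_lit 547) (nat_lit 1) (.cons
 (nat_lit 2208) (nat_lit 1011) (nat_lit 1198) (nat_lit 1) .nil)), (nat_lit 70), (nat_lit 43), (nat_lit 40),
 (nat_lit 1), (12, 3, 4), [1160, 896], 50⟩,
  ⟨⟨-37, -24, 0, -20, 37, 0, 2, -8, -43⟩, (.cons (nat_lit 1390) (nat_lit 1579) (nat_lit 547) (nat_lit 1) (.cons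
 (nat_lit 2208) (nat_lit 1011) (nat_lit 1198) (nat_lit 1) .nil)), (nat_lit 70), (nat_lit 43), (nat_lit 40),
 (nat_lit 1), (12, 3, 4), [1160, 896], 50⟩,
  ⟨⟨-37, -24, 0, -20, 37, 0, 2, -8, -43⟩, (.cons (nat_lit 1390) (nat_lit 1579) (nat_lit 547) (nat_lit 1) (.cons
 (nat_lit 2208) (nat_lit 1011) (nat_lit 1198) (nat_lit 1) .nil)), (nat_lit 70), (nat_lit 43), (nat_lit 40),
 (nat_lit 1), (12, 3, 4), [1160, 896], 50⟩,
  ⟨⟨39, 16, -43, -20, 37, 0, 2, -8, -43⟩, (.cons (nat_lit 717) (nat_lit 872) (nat_lit 848) (nat_lit 1) (.cons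
 (nat_lit 800) (nat_lit 1668) (nat_lit 1057) (nat_lit 1) .nil)), (nat_lit 49), (nat_lit 57), (nat_lit 29),
 (nat_lit 1), (35, 3, 4), [988, 332], 31⟩,
  ⟨⟨-37, -24, 0, -20, 37, 0, 2, -8, -43⟩, (.cons (nat_lit 1390) (nat_lit 1579) (nat_lit 547) (nat_lit 1) (.cons
 (nat_lit 2208) (nat_lit 1011) (nat_lit 1198) (nat_lit 1) .nil)), (nat_lit 70), (nat_lit 43), (nat_lit 40),
 (nat_lit 1), (12, 3, 4), [1160, 896], 50⟩,
  ⟨⟨-37, -24, 0, -20, 37, 0, 2, -8, -43⟩, (.cons (nat_lit 1390) (nat_lit 1579) (nat_lit 547) (nat_lit 1) (.cons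
 (nat_lit 2208) (nat_lit 1011) (nat_lit 1198) (nat_lit 1) .nil)), (nat_lit 70), (nat_lit 43), (nat_lit 40),
 (nat_lit 1), (12, 3, 4), [1160, 896], 50⟩,
  ⟨⟨39, 16, -43, -20, 37, 0, 2, -8, -43⟩, (.cons (nat_lit 717) (nat_lit 872) (nat_lit 848) (nat_lit 1) (.cons
 (nat_lit 800) (nat_lit 1668) (nat_lit 1057) (nat_lit 1) .nil)), (nat_lit 49), (nat_lit 57), (nat_lit 29),
 (nat_lit 1), (35, 3, 4), [988, 332], 31⟩,
  ⟨⟨-37, -24, 0, -20, 37, 0, 2, -8, -43⟩, (.cons (nat_lit 1390) (nat_lit 1579) (nat_lit 547) (nat_lit 1) (.cons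
 (nat_lit 2208) (nat_lit 1011) (nat_lit 1198) (nat_lit 1) .nil)), (nat_lit 70), (nat_lit 43), (nat_lit 40),
 (nat_lit 1), (12, 3, 4), [1160, 896], 50⟩,
  ⟨⟨-37, -24, 0, -20, 37, 0, 2, -8, -43⟩, (.cons (nat_lit 1390) (nat_lit 1579) (nat_lit 547) (nat_lit 1) (.cons
 (nat_lit 2208) (nat_lit 1011) (nat_lit 1198) (nat_lit 1) .nil)), (nat_lit 70), (nat_lit 43), (nat_lit 40),
 (nat_lit 1), (12, 3, 4), [1160, 896], 50⟩,
  ⟨⟨-37, -24, 0, -20, 37, 0, 2, -8, -43⟩, (.cons (nat_lit 1390) (nat_lit 1579) (nat_lit 547) (nat_lit 1) (.cons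
 (nat_lit 2208) (nat_lit 1011) (nat_lit 1198) (nat_lit 1) .nil)), (nat_lit 70), (nat_lit 43), (nat_lit 40),
 (nat_lit 1), (12, 3, 4), [1160, 896], 50⟩,
  ⟨⟨-37, -24, 0, -20, 37, 0, 2, -8, -43⟩, (.cons (nat_lit 1390) (nat_lit 1579) (nat_lit 547) (nat_lit 1) (.cons
 (nat_lit 2208) (nat_lit 1011) (nat_lit 1198) (nat_lit 1) .nil)), (nat_lit 70), (nat_lit 43), (nat_lit 40),
 (nat_lit 1), (12, 3, 4), [1160, 896], 50⟩,
  ⟨⟨-37, -24, 0, -20, 37, 0, 2, -8, -43⟩, (.cons (nat_lit 1390) (nat_lit 1579) (nat_lit 547) (nat_lit 1) (.cons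
 (nat_lit 2208) (nat_lit 1011) (nat_lit 1198) (nat_lit 1) .nil)), (nat_lit 70), (nat_lit 43), (nat_lit 40),
 (nat_lit 1), (12, 3, 4), [1160, 896], 50⟩,
  ⟨⟨-37, -24, 0, 20, -37, 0, 2, -8, -43⟩, (.cons (nat_lit 1242) (nat_lit 735) (nat_lit 952) (nat_lit 1) (.cons
 (nat_lit 146) (nat_lit 1917) (nat_lit 1502) (nat_lit 1) .nil)), (nat_lit 23), (nat_lit 62), (nat_lit 32),
 (nat_lit 1), (12, 40, 4), [1405, 1679], 46⟩,
  ⟨⟨39, 16, -43, -20, 37, 0, 2, -8, -43⟩, (.cons (nat_lit 717) (nat_lit 872) (nat_lit 848) (nat_lit 1) (.cons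
 (nat_lit 800) (nat_lit 1668) (nat_lit 1057) (nat_lit 1) .nil)), (nat_lit 49), (nat_lit 57), (nat_lit 29),
 (nat_lit 1), (35, 3, 4), [988, 332], 31⟩,
  ⟨⟨-37, -24, 0, -20, 37, 0, 2, -8, -43⟩, (.cons (nat_lit 1390) (nat_lit 1579) (nat_lit 547) (nat_lit 1) (.cons
 (nat_lit 2208) (nat_lit 1011) (nat_lit 1198) (nat_lit 1) .nil)), (nat_lit 70), (nat_lit 43), (nat_lit 40),
 (nat_lit 1), (12, 3, 4), [1160, 896], 50⟩,
  ⟨⟨39, 16, -43, 20, -37, 0, 2, -8, -43⟩, (.cons (nat_lit 349) (nat_lit 1415) (nat_lit 436) (nat_lit 1) (.cons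
 (nat_lit 653) (nat_lit 1843) (nat_lit 891) (nat_lit 1) .nil)), (nat_lit 33), (nat_lit 31), (nat_lit 33),
 (nat_lit 1), (35, 40, 4), [975, 1397], 30⟩,
  ⟨⟨39, 16, -43, -20, 37, 0, 2, -8, -43⟩, (.cons (nat_lit 717) (nat_lit 872) (nat_lit 848) (nat_lit 1) (.cons
 (nat_lit 800) (nat_lit 1668) (nat_lit 1057) (nat_lit 1) .nil)), (nat_lit 49), (nat_lit 57), (nat_lit 29),
 (nat_lit 1), (35, 3, 4), [988, 332], 31⟩,
  ⟨⟨-37, -24, 0, 20, -37, 0, 2, -8, -43⟩, (.cons (nat_lit 1242) (nat_lit 735) (nat_lit 952) (nat_lit 1) (.cons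
 (nat_lit 146) (nat_lit 1917) (nat_lit 1502) (nat_lit 1) .nil)), (nat_lit 23), (nat_lit 62), (nat_lit 32),
 (nat_lit 1), (12, 40, 4), [1405, 1679], 46⟩,
  ⟨⟨-37, -24, 0, -20, 37, 0, 2, -8, -43⟩, (.cons (nat_lit 1390) (nat_lit 1579) (nat_lit 547) (nat_lit 1) (.cons
 (nat_lit 2208) (nat_lit 1011) (nat_lit 1198) (nat_lit 1) .nil)), (nat_lit 70), (nat_lit 43), (nat_lit 40),
 (nat_lit 1), (12, 3, 4), [1160, 896], 50⟩,
  ⟨⟨-37, -24, 0, -20, 37, 0, 2, -8, -43⟩, (.cons (nat_lit 1390) (nat_lit 1579) (nat_lit 547) (nat_lit 1) (.cons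
 (nat_lit 2208) (nat_lit 1011) (nat_lit 1198) (nat_lit 1) .nil)), (nat_lit 70), (nat_lit 43), (nat_lit 40),
 (nat_lit 1), (12, 3, 4), [1160, 896], 50⟩,
  ⟨⟨39, 16, -43, -20, 37, 0, 2, -8, -43⟩, (.cons (nat_lit 717) (nat_lit 872) (nat_lit 848) (nat_lit 1) (.cons
 (nat_lit 800) (nat_lit 1668) (nat_lit 1057) (nat_lit 1) .nil)), (nat_lit 49), (nat_lit 57), (nat_lit 29),
 (nat_lit 1), (35, 3, 4), [988, 332], 31⟩,
  ⟨⟨-37, -24, 0, -20, 37, 0, 2, -8, -43⟩, (.cons (nat_lit 1390) (nat_lit 1579) (nat_lit 547) (nat_lit 1) (.cons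
 (nat_lit 2208) (nat_lit 1011) (nat_lit 1198) (nat_lit 1) .nil)), (nat_lit 70), (nat_lit 43), (nat_lit 40),
 (nat_lit 1), (12, 3, 4), [1160, 896], 50⟩,
  ⟨⟨-37, -24, 0, -20, 37, 0, 2, -8, -43⟩, (.cons (nat_lit 1390) (nat_lit 1579) (nat_lit 547) (nat_lit 1) (.cons
 (nat_lit 2208) (nat_lit 1011) (nat_lit 1198) (nat_lit 1) .nil)), (nat_lit 70), (nat_lit 43), (nat_lit 40),
 (nat_lit 1), (12, 3, 4), [1160, 896], 50⟩,
  ⟨⟨-37, -24, 0, -20, 37, 0, 2, -8, -43⟩, (.cons (nat_lit 1390) (nat_lit 1579) (nat_lit 547) (nat_lit 1) (.cons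
 (nat_lit 2208) (nat_lit 1011) (nat_lit 1198) (nat_lit 1) .nil)), (nat_lit 70), (nat_lit 43), (nat_lit 40),
 (nat_lit 1), (12, 3, 4), [1160, 896], 50⟩,
  ⟨⟨39, 16, -43, 20, -37, 0, 2, -8, -43⟩, (.cons (nat_lit 349) (nat_lit 1415) (nat_lit 436) (nat_lit 1) (.cons
 (nat_lit 653) (nat_lit 1843) (nat_lit 891) (nat_lit 1) .nil)), (nat_lit 33), (nat_lit 31), (nat_lit 33),
 (nat_lit 1), (35, 40, 4), [975, 1397], 30⟩,
  ⟨⟨-37, -24, 0, -20, 37, 0, 2, -8, -43⟩, (.cons (nat_lit 1390) (nat_lit 1579) (nat_lit 547) (nat_lit 1) (.cons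
 (nat_lit 2208) (nat_lit 1011) (nat_lit 1198) (nat_lit 1) .nil)), (nat_lit 70), (nat_lit 43), (nat_lit 40),
 (nat_lit 1), (12, 3, 4), [1160, 896], 50⟩,
  ⟨⟨-37, -24, 0, -20, 37, 0, 2, -8, -43⟩, (.cons (nat_lit 1390) (nat_lit 1579) (nat_lit 547) (nat_lit 1) (.cons
 (nat_lit 2208) (nat_lit 1011) (nat_lit 1198) (nat_lit 1) .nil)), (nat_lit 70), (nat_lit 43), (nat_lit 40),
 (nat_lit 1), (12, 3, 4), [1160, 896], 50⟩,
  ⟨⟨-37, -24, 0, -20, 37, 0, 2, -8, -43⟩, (.cons (nat_lit 1390) (nat_lit 1579) (nat_lit 547) (nat_lit 1) (.cons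
 (nat_lit 2208) (nat_lit 1011) (nat_lit 1198) (nat_lit 1) .nil)), (nat_lit 70), (nat_lit 43), (nat_lit 40),
 (nat_lit 1), (12, 3, 4), [1160, 896], 50⟩,
  ⟨⟨-37, -24, 0, -20, 37, 0, 2, -8, -43⟩, (.cons (nat_lit 1390) (nat_lit 1579) (nat_lit 547) (nat_lit 1) (.cons
 (nat_lit 2208) (nat_lit 1011) (nat_lit 1198) (nat_lit 1) .nil)), (nat_lit 70), (nat_lit 43), (nat_lit 40),
 (nat_lit 1), (12, 3, 4), [1160, 896], 50⟩]

/-- Moves. -/
noncomputable def t0_7 : List Mv := [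
  ⟨⟨33, 8, -53, 20, 27, 20, 30, -24, -13⟩, (.cons (nat_lit 347) (nat_lit 818) (nat_lit 460) (nat_lit 1) (.cons
 (nat_lit 90) (nat_lit 1718) (nat_lit 117) (nat_lit 1) .nil)), (nat_lit 65), (nat_lit 29), (nat_lit 24),
 (nat_lit 1), (32, 22, 33), [1263, 11], 60⟩,
  ⟨⟨33, 8, -53, -20, -27, -20, 30, -24, -13⟩, (.cons (nat_lit 1484) (nat_lit 81) (nat_lit 949) (nat_lit 1)
 (.cons (nat_lit 1599) (nat_lit 656) (nat_lit 1822) (nat_lit 1) .nil)), (nat_lit 7), (nat_lit 64), (nat_lit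
 45), (nat_lit 1), (32, 21, 33), [1425, 104], 70⟩,
  ⟨⟨33, 8, -53, -20, -27, -20, 30, -24, -13⟩, (.cons (nat_lit 1484) (nat_lit 81) (nat_lit 949) (nat_lit 1)
 (.cons (nat_lit 1599) (nat_lit 656) (nat_lit 1822) (nat_lit 1) .nil)), (nat_lit 7), (nat_lit 64), (nat_lit
 45), (nat_lit 1), (32, 21, 33), [1425, 104], 70⟩,
  ⟨⟨33, 8, -53, -20, -27, -20, 30, -24, -13⟩, (.cons (nat_lit 1484) (nat_lit 81) (nat_lit 949) (nat_lit 1)
 (.cons (nat_lit 1599) (nat_lit 656) (nat_lit 1822) (nat_lit 1) .nil)), (nat_lit 7), (nat_lit 64), (nat_lit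
 45), (nat_lit 1), (32, 21, 33), [1425, 104], 70⟩,
  ⟨⟨-3, -32, 40, 20, 27, 20, 30, -24, -13⟩, (.cons (nat_lit 642) (nat_lit 300) (nat_lit 1191) (nat_lit 1)
 (.cons (nat_lit 1132) (nat_lit 2089) (nat_lit 1809) (nat_lit 1) .nil)), (nat_lit 42), (nat_lit 53), (nat_lit
 70), (nat_lit 1), (1, 22, 33), [1650, 716], 33⟩,
  ⟨⟨33, 8, -53, -20, -27, -20, 30, -24, -13⟩, (.cons (nat_lit 1484) (nat_lit 81) (nat_lit 949) (nat_lit 1)
 (.cons (nat_lit 1599) (nat_lit 656) (nat_lit 1822) (nat_lit 1) .nil)), (nat_lit 7), (nat_lit 64), (nat_lit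
 45), (nat_lit 1), (32, 21, 33), [1425, 104], 70⟩,
  ⟨⟨-3, -32, 40, 20, 27, 20, 30, -24, -13⟩, (.cons (nat_lit 642) (nat_lit 300) (nat_lit 1191) (nat_lit 1)
 (.cons (nat_lit 1132) (nat_lit 2089) (nat_lit 1809) (nat_lit 1) .nil)), (nat_lit 42), (nat_lit 53), (nat_lit
 70), (nat_lit 1), (1, 22, 33), [1650, 716], 33⟩,
  ⟨⟨33, 8, -53, -20, -27, -20, 30, -24, -13⟩, (.cons (nat_lit 1484) (nat_lit 81) (nat_lit 949) (nat_lit 1)
 (.cons (nat_lit 1599) (nat_lit 656) (nat_lit 1822) (nat_lit 1) .nil)), (nat_lit 7), (nat_lit 64), (nat_lit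
 45), (nat_lit 1), (32, 21, 33), [1425, 104], 70⟩,
  ⟨⟨-3, -32, 40, 20, 27, 20, 30, -24, -13⟩, (.cons (nat_lit 642) (nat_lit 300) (nat_lit 1191) (nat_lit 1)
 (.cons (nat_lit 1132) (nat_lit 2089) (nat_lit 1809) (nat_lit 1) .nil)), (nat_lit 42), (nat_lit 53), (nat_lit
 70), (nat_lit 1), (1, 22, 33), [1650, 716], 33⟩,
  ⟨⟨-3, -32, 40, -20, -27, -20, 30, -24, -13⟩, (.cons (nat_lit 752) (nat_lit 1209) (nat_lit 906) (nat_lit 1)
 (.cons (nat_lit 2208) (nat_lit 519) (nat_lit 83) (nat_lit 1) .nil)), (nat_lit 70), (nat_lit 68), (nat_lit 61),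
 (nat_lit 1), (1, 21, 33), [6, 997], 16⟩,
  ⟨⟨33, 8, -53, -20, -27, -20, 30, -24, -13⟩, (.cons (nat_lit 1484) (nat_lit 81) (nat_lit 949) (nat_lit 1)
 (.cons (nat_lit 1599) (nat_lit 656) (nat_lit 1822) (nat_lit 1) .nil)), (nat_lit 7), (nat_lit 64), (nat_lit
 45), (nat_lit 1), (32, 21, 33), [1425, 104], 70⟩,
  ⟨⟨33, 8, -53, 20, 27, 20, 30, -24, -13⟩, (.cons (nat_lit 347) (nat_lit 818) (nat_lit 460) (nat_lit 1) (.cons
 (nat_lit 90) (nat_lit 1718) (nat_lit 117) (nat_lit 1) .nil)), (nat_lit 65), (nat_lit 29), (nat_lit 24),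
 (nat_lit 1), (32, 22, 33), [1263, 11], 60⟩,
  ⟨⟨33, 8, -53, -20, -27, -20, 30, -24, -13⟩, (.cons (nat_lit 1484) (nat_lit 81) (nat_lit 949) (nat_lit 1)
 (.cons (nat_lit 1599) (nat_lit 656) (nat_lit 1822) (nat_lit 1) .nil)), (nat_lit 7), (nat_lit 64), (nat_lit
 45), (nat_lit 1), (32, 21, 33), [1425, 104], 70⟩,
  ⟨⟨33, 8, -53, 20, 27, 20, 30, -24, -13⟩, (.cons (nat_lit 347) (nat_lit 818) (nat_lit 460) (nat_lit 1) (.cons
 (nat_lit 90) (nat_lit 1718) (nat_lit 117) (nat_lit 1) .nil)), (nat_lit 65), (nat_lit 29), (nat_lit 24),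
 (nat_lit 1), (32, 22, 33), [1263, 11], 60⟩,
  ⟨⟨33, 8, -53, -20, -27, -20, 30, -24, -13⟩, (.cons (nat_lit 1484) (nat_lit 81) (nat_lit 949) (nat_lit 1)
 (.cons (nat_lit 1599) (nat_lit 656) (nat_lit 1822) (nat_lit 1) .nil)), (nat_lit 7), (nat_lit 64), (nat_lit
 45), (nat_lit 1), (32, 21, 33), [1425, 104], 70⟩,
  ⟨⟨-3, -32, 40, 20, 27, 20, 30, -24, -13⟩, (.cons (nat_lit 642) (nat_lit 300) (nat_lit 1191) (nat_lit 1)
 (.cons (nat_lit 1132) (nat_lit 2089) (nat_lit 1809) (nat_lit 1) .nil)), (nat_lit 42), (nat_lit 53), (nat_lit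
 70), (nat_lit 1), (1, 22, 33), [1650, 716], 33⟩,
  ⟨⟨-3, -32, 40, 20, 27, 20, 30, -24, -13⟩, (.cons (nat_lit 642) (nat_lit 300) (nat_lit 1191) (nat_lit 1)
 (.cons (nat_lit 1132) (nat_lit 2089) (nat_lit 1809) (nat_lit 1) .nil)), (nat_lit 42), (nat_lit 53), (nat_lit
 70), (nat_lit 1), (1, 22, 33), [1650, 716], 33⟩,
  ⟨⟨33, 8, -53, -20, -27, -20, 30, -24, -13⟩, (.cons (nat_lit 1484) (nat_lit 81) (nat_lit 949) (nat_lit 1)
 (.cons (nat_lit 1599) (nat_lit 656) (nat_lit 1822) (nat_lit 1) .nil)), (nat_lit 7), (nat_lit 64), (nat_lit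
 45), (nat_lit 1), (32, 21, 33), [1425, 104], 70⟩,
  ⟨⟨33, 8, -53, -20, -27, -20, 30, -24, -13⟩, (.cons (nat_lit 1484) (nat_lit 81) (nat_lit 949) (nat_lit 1)
 (.cons (nat_lit 1599) (nat_lit 656) (nat_lit 1822) (nat_lit 1) .nil)), (nat_lit 7), (nat_lit 64), (nat_lit
 45), (nat_lit 1), (32, 21, 33), [1425, 104], 70⟩,
  ⟨⟨-3, -32, 40, -20, -27, -20, 30, -24, -13⟩, (.cons (nat_lit 752) (nat_lit 1209) (nat_lit 906) (nat_lit 1)
 (.cons (nat_lit 2208) (nat_lit 519) (nat_lit 83) (nat_lit 1) .nil)), (nat_lit 70), (nat_lit 68), (nat_lit 61),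
 (nat_lit 1), (1, 21, 33), [6, 997], 16⟩,
  ⟨⟨33, 8, -53, -20, -27, -20, 30, -24, -13⟩, (.cons (nat_lit 1484) (nat_lit 81) (nat_lit 949) (nat_lit 1)
 (.cons (nat_lit 1599) (nat_lit 656) (nat_lit 1822) (nat_lit 1) .nil)), (nat_lit 7), (nat_lit 64), (nat_lit
 45), (nat_lit 1), (32, 21, 33), [1425, 104], 70⟩,
  ⟨⟨33, 8, -53, -20, -27, -20, 30, -24, -13⟩, (.cons (nat_lit 1484) (nat_lit 81) (nat_lit 949) (nat_lit 1)
 (.cons (nat_lit 1599) (nat_lit 656) (nat_lit 1822) (nat_lit 1) .nil)), (nat_lit 7), (nat_lit 64), (nat_lit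
 45), (nat_lit 1), (32, 21, 33), [1425, 104], 70⟩,
  ⟨⟨33, 8, -53, -20, -27, -20, 30, -24, -13⟩, (.cons (nat_lit 1484) (nat_lit 81) (nat_lit 949) (nat_lit 1)
 (.cons (nat_lit 1599) (nat_lit 656) (nat_lit 1822) (nat_lit 1) .nil)), (nat_lit 7), (nat_lit 64), (nat_lit
 45), (nat_lit 1), (32, 21, 33), [1425, 104], 70⟩,
  ⟨⟨33, 8, -53, -20, -27, -20, 30, -24, -13⟩, (.cons (nat_lit 1484) (nat_lit 81) (nat_lit 949) (nat_lit 1)
 (.cons (nat_lit 1599) (nat_lit 656) (nat_lit 1822) (nat_lit 1) .nil)), (nat_lit 7), (nat_lit 64), (nat_lit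
 45), (nat_lit 1), (32, 21, 33), [1425, 104], 70⟩,
  ⟨⟨33, 8, -53, -20, -27, -20, 30, -24, -13⟩, (.cons (nat_lit 1484) (nat_lit 81) (nat_lit 949) (nat_lit 1)
 (.cons (nat_lit 1599) (nat_lit 656) (nat_lit 1822) (nat_lit 1) .nil)), (nat_lit 7), (nat_lit 64), (nat_lit
 45), (nat_lit 1), (32, 21, 33), [1425, 104], 70⟩,
  ⟨⟨33, 8, -53, -20, -27, -20, 30, -24, -13⟩, (.cons (nat_lit 1484) (nat_lit 81) (nat_lit 949) (nat_lit 1)
 (.cons (nat_lit 1599) (nat_lit 656) (nat_lit 1822) (nat_lit 1) .nil)), (nat_lit 7), (nat_lit 64), (nat_lit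
 45), (nat_lit 1), (32, 21, 33), [1425, 104], 70⟩,
  ⟨⟨-3, -32, 40, 20, 27, 20, 30, -24, -13⟩, (.cons (nat_lit 642) (nat_lit 300) (nat_lit 1191) (nat_lit 1)
 (.cons (nat_lit 1132) (nat_lit 2089) (nat_lit 1809) (nat_lit 1) .nil)), (nat_lit 42), (nat_lit 53), (nat_lit
 70), (nat_lit 1), (1, 22, 33), [1650, 716], 33⟩,
  ⟨⟨33, 8, -53, -20, -27, -20, 30, -24, -13⟩, (.cons (nat_lit 1484) (nat_lit 81) (nat_lit 949) (nat_lit 1)
 (.cons (nat_lit 1599) (nat_lit 656) (nat_lit 1822) (nat_lit 1) .nil)), (nat_lit 7), (nat_lit 64), (nat_lit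
 45), (nat_lit 1), (32, 21, 33), [1425, 104], 70⟩,
  ⟨⟨-3, -32, 40, -20, -27, -20, 30, -24, -13⟩, (.cons (nat_lit 752) (nat_lit 1209) (nat_lit 906) (nat_lit 1)
 (.cons (nat_lit 2208) (nat_lit 519) (nat_lit 83) (nat_lit 1) .nil)), (nat_lit 70), (nat_lit 68), (nat_lit 61),
 (nat_lit 1), (1, 21, 33), [6, 997], 16⟩,
  ⟨⟨-3, -32, 40, -20, -27, -20, 30, -24, -13⟩, (.cons (nat_lit 752) (nat_lit 1209) (nat_lit 906) (nat_lit 1)
 (.cons (nat_lit 2208) (nat_lit 519) (nat_lit 83) (nat_lit 1) .nil)), (nat_lit 70), (nat_lit 68), (nat_lit 61),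
 (nat_lit 1), (1, 21, 33), [6, 997], 16⟩,
  ⟨⟨33, 8, -53, -20, -27, -20, 30, -24, -13⟩, (.cons (nat_lit 1484) (nat_lit 81) (nat_lit 949) (nat_lit 1)
 (.cons (nat_lit 1599) (nat_lit 656) (nat_lit 1822) (nat_lit 1) .nil)), (nat_lit 7), (nat_lit 64), (nat_lit
 45), (nat_lit 1), (32, 21, 33), [1425, 104], 70⟩,
  ⟨⟨33, 8, -53, -20, -27, -20, 30, -24, -13⟩, (.cons (nat_lit 1484) (nat_lit 81) (nat_lit 949) (nat_lit 1)
 (.cons (nat_lit 1599) (nat_lit 656) (nat_lit 1822) (nat_lit 1) .nil)), (nat_lit 7), (nat_lit 64), (nat_lit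
 45), (nat_lit 1), (32, 21, 33), [1425, 104], 70⟩,
  ⟨⟨33, 8, -53, -20, -27, -20, 30, -24, -13⟩, (.cons (nat_lit 1484) (nat_lit 81) (nat_lit 949) (nat_lit 1)
 (.cons (nat_lit 1599) (nat_lit 656) (nat_lit 1822) (nat_lit 1) .nil)), (nat_lit 7), (nat_lit 64), (nat_lit
 45), (nat_lit 1), (32, 21, 33), [1425, 104], 70⟩,
  ⟨⟨33, 8, -53, 20, 27, 20, 30, -24, -13⟩, (.cons (nat_lit 347) (nat_lit 818) (nat_lit 460) (nat_lit 1) (.cons
 (nat_lit 90) (nat_lit 1718) (nat_lit 117) (nat_lit 1) .nil)), (nat_lit 65), (nat_lit 29), (nat_lit 24),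
 (nat_lit 1), (32, 22, 33), [1263, 11], 60⟩,
  ⟨⟨-3, -32, 40, -20, -27, -20, 30, -24, -13⟩, (.cons (nat_lit 752) (nat_lit 1209) (nat_lit 906) (nat_lit 1)
 (.cons (nat_lit 2208) (nat_lit 519) (nat_lit 83) (nat_lit 1) .nil)), (nat_lit 70), (nat_lit 68), (nat_lit 61),
 (nat_lit 1), (1, 21, 33), [6, 997], 16⟩,
  ⟨⟨33, 8, -53, -20, -27, -20, 30, -24, -13⟩, (.cons (nat_lit 1484) (nat_lit 81) (nat_lit 949) (nat_lit 1)
 (.cons (nat_lit 1599) (nat_lit 656) (nat_lit 1822) (nat_lit 1) .nil)), (nat_lit 7), (nat_lit 64), (nat_lit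
 45), (nat_lit 1), (32, 21, 33), [1425, 104], 70⟩,
  ⟨⟨33, 8, -53, -20, -27, -20, 30, -24, -13⟩, (.cons (nat_lit 1484) (nat_lit 81) (nat_lit 949) (nat_lit 1)
 (.cons (nat_lit 1599) (nat_lit 656) (nat_lit 1822) (nat_lit 1) .nil)), (nat_lit 7), (nat_lit 64), (nat_lit
 45), (nat_lit 1), (32, 21, 33), [1425, 104], 70⟩,
  ⟨⟨33, 8, -53, -20, -27, -20, 30, -24, -13⟩, (.cons (nat_lit 1484) (nat_lit 81) (nat_lit 949) (nat_lit 1)
 (.cons (nat_lit 1599) (nat_lit 656) (nat_lit 1822) (nat_lit 1) .nil)), (nat_lit 7), (nat_lit 64), (nat_lit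
 45), (nat_lit 1), (32, 21, 33), [1425, 104], 70⟩,
  ⟨⟨-3, -32, 40, -20, -27, -20, 30, -24, -13⟩, (.cons (nat_lit 752) (nat_lit 1209) (nat_lit 906) (nat_lit 1)
 (.cons (nat_lit 2208) (nat_lit 519) (nat_lit 83) (nat_lit 1) .nil)), (nat_lit 70), (nat_lit 68), (nat_lit 61),
 (nat_lit 1), (1, 21, 33), [6, 997], 16⟩,
  ⟨⟨33, 8, -53, -20, -27, -20, 30, -24, -13⟩, (.cons (nat_lit 1484) (nat_lit 81) (nat_lit 949) (nat_lit 1)
 (.cons (nat_lit 1599) (nat_lit 656) (nat_lit 1822) (nat_lit 1) .nil)), (nat_lit 7), (nat_lit 64), (nat_lit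
 45), (nat_lit 1), (32, 21, 33), [1425, 104], 70⟩,
  ⟨⟨33, 8, -53, 20, 27, 20, 30, -24, -13⟩, (.cons (nat_lit 347) (nat_lit 818) (nat_lit 460) (nat_lit 1) (.cons
 (nat_lit 90) (nat_lit 1718) (nat_lit 117) (nat_lit 1) .nil)), (nat_lit 65), (nat_lit 29), (nat_lit 24),
 (nat_lit 1), (32, 22, 33), [1263, 11], 60⟩,
  ⟨⟨33, 8, -53, -20, -27, -20, 30, -24, -13⟩, (.cons (nat_lit 1484) (nat_lit 81) (nat_lit 949) (nat_lit 1)
 (.cons (nat_lit 1599) (nat_lit 656) (nat_lit 1822) (nat_lit 1) .nil)), (nat_lit 7), (nat_lit 64), (nat_lit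
 45), (nat_lit 1), (32, 21, 33), [1425, 104], 70⟩,
  ⟨⟨33, 8, -53, 20, 27, 20, 30, -24, -13⟩, (.cons (nat_lit 347) (nat_lit 818) (nat_lit 460) (nat_lit 1) (.cons
 (nat_lit 90) (nat_lit 1718) (nat_lit 117) (nat_lit 1) .nil)), (nat_lit 65), (nat_lit 29), (nat_lit 24),
 (nat_lit 1), (32, 22, 33), [1263, 11], 60⟩]

/-- Moves. -/
noncomputable def t0_9 : List Mv := [
  ⟨⟨-29, 0, -27, 0, -43, 0, 18, 0, -47⟩, (.cons (nat_lit 988) (nat_lit 244) (nat_lit 1529) (nat_lit 1) (.cons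
 (nat_lit 2022) (nat_lit 1421) (nat_lit 1483) (nat_lit 1) .nil)), (nat_lit 54), (nat_lit 31), (nat_lit 33),
 (nat_lit 1), (33, 0, 24), [439, 1774], 61⟩,
  ⟨⟨47, 0, -20, 0, 43, 0, 18, 0, -47⟩, (.cons (nat_lit 59) (nat_lit 15) (nat_lit 1244) (nat_lit 1) (.cons
 (nat_lit 2208) (nat_lit 1090) (nat_lit 1205) (nat_lit 1) .nil)), (nat_lit 70), (nat_lit 43), (nat_lit 59),
 (nat_lit 1), (34, 0, 24), [111, 890], 7⟩,
  ⟨⟨47, 0, -20, 0, -43, 0, 18, 0, -47⟩, (.cons (nat_lit 1119) (nat_lit 1347) (nat_lit 540) (nat_lit 1) (.cons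
 (nat_lit 2208) (nat_lit 1869) (nat_lit 919) (nat_lit 1) .nil)), (nat_lit 70), (nat_lit 62), (nat_lit 9),
 (nat_lit 1), (34, 0, 24), [396, 599], 32⟩,
  ⟨⟨-29, 0, -27, 0, -43, 0, 18, 0, -47⟩, (.cons (nat_lit 988) (nat_lit 244) (nat_lit 1529) (nat_lit 1) (.cons
 (nat_lit 2022) (nat_lit 1421) (nat_lit 1483) (nat_lit 1) .nil)), (nat_lit 54), (nat_lit 31), (nat_lit 33),
 (nat_lit 1), (33, 0, 24), [439, 1774], 61⟩,
  ⟨⟨-29, 0, -27, 0, -43, 0, 18, 0, -47⟩, (.cons (nat_lit 988) (nat_lit 244) (nat_lit 1529) (nat_lit 1) (.cons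
 (nat_lit 2022) (nat_lit 1421) (nat_lit 1483) (nat_lit 1) .nil)), (nat_lit 54), (nat_lit 31), (nat_lit 33),
 (nat_lit 1), (33, 0, 24), [439, 1774], 61⟩,
  ⟨⟨-29, 0, -27, 0, -43, 0, 18, 0, -47⟩, (.cons (nat_lit 988) (nat_lit 244) (nat_lit 1529) (nat_lit 1) (.cons
 (nat_lit 2022) (nat_lit 1421) (nat_lit 1483) (nat_lit 1) .nil)), (nat_lit 54), (nat_lit 31), (nat_lit 33),
 (nat_lit 1), (33, 0, 24), [439, 1774], 61⟩,
  ⟨⟨-29, 0, -27, 0, 43, 0, 18, 0, -47⟩, (.cons (nat_lit 1102) (nat_lit 243) (nat_lit 1373) (nat_lit 1) (.cons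
 (nat_lit 2163) (nat_lit 1307) (nat_lit 1064) (nat_lit 1) .nil)), (nat_lit 16), (nat_lit 57), (nat_lit 8),
 (nat_lit 1), (33, 0, 24), [283, 2206], 37⟩,
  ⟨⟨-29, 0, -27, 0, -43, 0, 18, 0, -47⟩, (.cons (nat_lit 988) (nat_lit 244) (nat_lit 1529) (nat_lit 1) (.cons
 (nat_lit 2022) (nat_lit 1421) (nat_lit 1483) (nat_lit 1) .nil)), (nat_lit 54), (nat_lit 31), (nat_lit 33),
 (nat_lit 1), (33, 0, 24), [439, 1774], 61⟩,
  ⟨⟨-29, 0, -27, 0, -43, 0, 18, 0, -47⟩, (.cons (nat_lit 988) (nat_lit 244) (nat_lit 1529) (nat_lit 1) (.cons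
 (nat_lit 2022) (nat_lit 1421) (nat_lit 1483) (nat_lit 1) .nil)), (nat_lit 54), (nat_lit 31), (nat_lit 33),
 (nat_lit 1), (33, 0, 24), [439, 1774], 61⟩,
  ⟨⟨-29, 0, -27, 0, -43, 0, 18, 0, -47⟩, (.cons (nat_lit 988) (nat_lit 244) (nat_lit 1529) (nat_lit 1) (.cons
 (nat_lit 2022) (nat_lit 1421) (nat_lit 1483) (nat_lit 1) .nil)), (nat_lit 54), (nat_lit 31), (nat_lit 33),
 (nat_lit 1), (33, 0, 24), [439, 1774], 61⟩,
  ⟨⟨-29, 0, -27, 0, -43, 0, 18, 0, -47⟩, (.cons (nat_lit 988) (nat_lit 244) (nat_lit 1529) (nat_lit 1) (.cons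
 (nat_lit 2022) (nat_lit 1421) (nat_lit 1483) (nat_lit 1) .nil)), (nat_lit 54), (nat_lit 31), (nat_lit 33),
 (nat_lit 1), (33, 0, 24), [439, 1774], 61⟩,
  ⟨⟨-29, 0, -27, 0, 43, 0, 18, 0, -47⟩, (.cons (nat_lit 1102) (nat_lit 243) (nat_lit 1373) (nat_lit 1) (.cons
 (nat_lit 2163) (nat_lit 1307) (nat_lit 1064) (nat_lit 1) .nil)), (nat_lit 16), (nat_lit 57), (nat_lit 8),
 (nat_lit 1), (33, 0, 24), [283, 2206], 37⟩,
  ⟨⟨-29, 0, -27, 0, 43, 0, 18, 0, -47⟩, (.cons (nat_lit 1102) (nat_lit 243) (nat_lit 1373) (nat_lit 1) (.cons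
 (nat_lit 2163) (nat_lit 1307) (nat_lit 1064) (nat_lit 1) .nil)), (nat_lit 16), (nat_lit 57), (nat_lit 8),
 (nat_lit 1), (33, 0, 24), [283, 2206], 37⟩,
  ⟨⟨-29, 0, -27, 0, 43, 0, 18, 0, -47⟩, (.cons (nat_lit 1102) (nat_lit 243) (nat_lit 1373) (nat_lit 1) (.cons
 (nat_lit 2163) (nat_lit 1307) (nat_lit 1064) (nat_lit 1) .nil)), (nat_lit 16), (nat_lit 57), (nat_lit 8),
 (nat_lit 1), (33, 0, 24), [283, 2206], 37⟩,
  ⟨⟨-29, 0, -27, 0, -43, 0, 18, 0, -47⟩, (.cons (nat_lit 988) (nat_lit 244) (nat_lit 1529) (nat_lit 1) (.cons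
 (nat_lit 2022) (nat_lit 1421) (nat_lit 1483) (nat_lit 1) .nil)), (nat_lit 54), (nat_lit 31), (nat_lit 33),
 (nat_lit 1), (33, 0, 24), [439, 1774], 61⟩,
  ⟨⟨-29, 0, -27, 0, -43, 0, 18, 0, -47⟩, (.cons (nat_lit 988) (nat_lit 244) (nat_lit 1529) (nat_lit 1) (.cons
 (nat_lit 2022) (nat_lit 1421) (nat_lit 1483) (nat_lit 1) .nil)), (nat_lit 54), (nat_lit 31), (nat_lit 33),
 (nat_lit 1), (33, 0, 24), [439, 1774], 61⟩,
  ⟨⟨-29, 0, -27, 0, -43, 0, 18, 0, -47⟩, (.cons (nat_lit 988) (nat_lit 244) (nat_lit 1529) (nat_lit 1) (.cons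
 (nat_lit 2022) (nat_lit 1421) (nat_lit 1483) (nat_lit 1) .nil)), (nat_lit 54), (nat_lit 31), (nat_lit 33),
 (nat_lit 1), (33, 0, 24), [439, 1774], 61⟩,
  ⟨⟨-29, 0, -27, 0, -43, 0, 18, 0, -47⟩, (.cons (nat_lit 988) (nat_lit 244) (nat_lit 1529) (nat_lit 1) (.cons
 (nat_lit 2022) (nat_lit 1421) (nat_lit 1483) (nat_lit 1) .nil)), (nat_lit 54), (nat_lit 31), (nat_lit 33),
 (nat_lit 1), (33, 0, 24), [439, 1774], 61⟩,
  ⟨⟨47, 0, -20, 0, 43, 0, 18, 0, -47⟩, (.cons (nat_lit 59) (nat_lit 15) (nat_lit 1244) (nat_lit 1) (.cons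
 (nat_lit 2208) (nat_lit 1090) (nat_lit 1205) (nat_lit 1) .nil)), (nat_lit 70), (nat_lit 43), (nat_lit 59),
 (nat_lit 1), (34, 0, 24), [111, 890], 7⟩,
  ⟨⟨47, 0, -20, 0, -43, 0, 18, 0, -47⟩, (.cons (nat_lit 1119) (nat_lit 1347) (nat_lit 540) (nat_lit 1) (.cons
 (nat_lit 2208) (nat_lit 1869) (nat_lit 919) (nat_lit 1) .nil)), (nat_lit 70), (nat_lit 62), (nat_lit 9),
 (nat_lit 1), (34, 0, 24), [396, 599], 32⟩,
  ⟨⟨-29, 0, -27, 0, -43, 0, 18, 0, -47⟩, (.cons (nat_lit 988) (nat_lit 244) (nat_lit 1529) (nat_lit 1) (.cons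
 (nat_lit 2022) (nat_lit 1421) (nat_lit 1483) (nat_lit 1) .nil)), (nat_lit 54), (nat_lit 31), (nat_lit 33),
 (nat_lit 1), (33, 0, 24), [439, 1774], 61⟩,
  ⟨⟨-29, 0, -27, 0, -43, 0, 18, 0, -47⟩, (.cons (nat_lit 988) (nat_lit 244) (nat_lit 1529) (nat_lit 1) (.cons
 (nat_lit 2022) (nat_lit 1421) (nat_lit 1483) (nat_lit 1) .nil)), (nat_lit 54), (nat_lit 31), (nat_lit 33),
 (nat_lit 1), (33, 0, 24), [439, 1774], 61⟩,
  ⟨⟨-29, 0, -27, 0, -43, 0, 18, 0, -47⟩, (.cons (nat_lit 988) (nat_lit 244) (nat_lit 1529) (nat_lit 1) (.cons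
 (nat_lit 2022) (nat_lit 1421) (nat_lit 1483) (nat_lit 1) .nil)), (nat_lit 54), (nat_lit 31), (nat_lit 33),
 (nat_lit 1), (33, 0, 24), [439, 1774], 61⟩,
  ⟨⟨47, 0, -20, 0, -43, 0, 18, 0, -47⟩, (.cons (nat_lit 1119) (nat_lit 1347) (nat_lit 540) (nat_lit 1) (.cons
 (nat_lit 2208) (nat_lit 1869) (nat_lit 919) (nat_lit 1) .nil)), (nat_lit 70), (nat_lit 62), (nat_lit 9),
 (nat_lit 1), (34, 0, 24), [396, 599], 32⟩,
  ⟨⟨-29, 0, -27, 0, -43, 0, 18, 0, -47⟩, (.cons (nat_lit 988) (nat_lit 244) (nat_lit 1529) (nat_lit 1) (.cons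
 (nat_lit 2022) (nat_lit 1421) (nat_lit 1483) (nat_lit 1) .nil)), (nat_lit 54), (nat_lit 31), (nat_lit 33),
 (nat_lit 1), (33, 0, 24), [439, 1774], 61⟩,
  ⟨⟨47, 0, -20, 0, -43, 0, 18, 0, -47⟩, (.cons (nat_lit 1119) (nat_lit 1347) (nat_lit 540) (nat_lit 1) (.cons
 (nat_lit 2208) (nat_lit 1869) (nat_lit 919) (nat_lit 1) .nil)), (nat_lit 70), (nat_lit 62), (nat_lit 9),
 (nat_lit 1), (34, 0, 24), [396, 599], 32⟩,
  ⟨⟨-29, 0, -27, 0, -43, 0, 18, 0, -47⟩, (.cons (nat_lit 988) (nat_lit 244) (nat_lit 1529) (nat_lit 1) (.cons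
 (nat_lit 2022) (nat_lit 1421) (nat_lit 1483) (nat_lit 1) .nil)), (nat_lit 54), (nat_lit 31), (nat_lit 33),
 (nat_lit 1), (33, 0, 24), [439, 1774], 61⟩,
  ⟨⟨47, 0, -20, 0, 43, 0, 18, 0, -47⟩, (.cons (nat_lit 59) (nat_lit 15) (nat_lit 1244) (nat_lit 1) (.cons
 (nat_lit 2208) (nat_lit 1090) (nat_lit 1205) (nat_lit 1) .nil)), (nat_lit 70), (nat_lit 43), (nat_lit 59),
 (nat_lit 1), (34, 0, 24), [111, 890], 7⟩,
  ⟨⟨-29, 0, -27, 0, -43, 0, 18, 0, -47⟩, (.cons (nat_lit 988) (nat_lit 244) (nat_lit 1529) (nat_lit 1) (.cons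
 (nat_lit 2022) (nat_lit 1421) (nat_lit 1483) (nat_lit 1) .nil)), (nat_lit 54), (nat_lit 31), (nat_lit 33),
 (nat_lit 1), (33, 0, 24), [439, 1774], 61⟩,
  ⟨⟨-29, 0, -27, 0, -43, 0, 18, 0, -47⟩, (.cons (nat_lit 988) (nat_lit 244) (nat_lit 1529) (nat_lit 1) (.cons
 (nat_lit 2022) (nat_lit 1421) (nat_lit 1483) (nat_lit 1) .nil)), (nat_lit 54), (nat_lit 31), (nat_lit 33),
 (nat_lit 1), (33, 0, 24), [439, 1774], 61⟩,
  ⟨⟨47, 0, -20, 0, 43, 0, 18, 0, -47⟩, (.cons (nat_lit 59) (nat_lit 15) (nat_lit 1244) (nat_lit 1) (.cons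
 (nat_lit 2208) (nat_lit 1090) (nat_lit 1205) (nat_lit 1) .nil)), (nat_lit 70), (nat_lit 43), (nat_lit 59),
 (nat_lit 1), (34, 0, 24), [111, 890], 7⟩,
  ⟨⟨-29, 0, -27, 0, -43, 0, 18, 0, -47⟩, (.cons (nat_lit 988) (nat_lit 244) (nat_lit 1529) (nat_lit 1) (.cons
 (nat_lit 2022) (nat_lit 1421) (nat_lit 1483) (nat_lit 1) .nil)), (nat_lit 54), (nat_lit 31), (nat_lit 33),
 (nat_lit 1), (33, 0, 24), [439, 1774], 61⟩,
  ⟨⟨-29, 0, -27, 0, 43, 0, 18, 0, -47⟩, (.cons (nat_lit 1102) (nat_lit 243) (nat_lit 1373) (nat_lit 1) (.cons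
 (nat_lit 2163) (nat_lit 1307) (nat_lit 1064) (nat_lit 1) .nil)), (nat_lit 16), (nat_lit 57), (nat_lit 8),
 (nat_lit 1), (33, 0, 24), [283, 2206], 37⟩,
  ⟨⟨47, 0, -20, 0, -43, 0, 18, 0, -47⟩, (.cons (nat_lit 1119) (nat_lit 1347) (nat_lit 540) (nat_lit 1) (.cons
 (nat_lit 2208) (nat_lit 1869) (nat_lit 919) (nat_lit 1) .nil)), (nat_lit 70), (nat_lit 62), (nat_lit 9),
 (nat_lit 1), (34, 0, 24), [396, 599], 32⟩,
  ⟨⟨-29, 0, -27, 0, -43, 0, 18, 0, -47⟩, (.cons (nat_lit 988) (nat_lit 244) (nat_lit 1529) (nat_lit 1) (.cons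
 (nat_lit 2022) (nat_lit 1421) (nat_lit 1483) (nat_lit 1) .nil)), (nat_lit 54), (nat_lit 31), (nat_lit 33),
 (nat_lit 1), (33, 0, 24), [439, 1774], 61⟩,
  ⟨⟨-29, 0, -27, 0, -43, 0, 18, 0, -47⟩, (.cons (nat_lit 988) (nat_lit 244) (nat_lit 1529) (nat_lit 1) (.cons
 (nat_lit 2022) (nat_lit 1421) (nat_lit 1483) (nat_lit 1) .nil)), (nat_lit 54), (nat_lit 31), (nat_lit 33),
 (nat_lit 1), (33, 0, 24), [439, 1774], 61⟩,
  ⟨⟨47, 0, -20, 0, -43, 0, 18, 0, -47⟩, (.cons (nat_lit 1119) (nat_lit 1347) (nat_lit 540) (nat_lit 1) (.cons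
 (nat_lit 2208) (nat_lit 1869) (nat_lit 919) (nat_lit 1) .nil)), (nat_lit 70), (nat_lit 62), (nat_lit 9),
 (nat_lit 1), (34, 0, 24), [396, 599], 32⟩,
  ⟨⟨-29, 0, -27, 0, -43, 0, 18, 0, -47⟩, (.cons (nat_lit 988) (nat_lit 244) (nat_lit 1529) (nat_lit 1) (.cons
 (nat_lit 2022) (nat_lit 1421) (nat_lit 1483) (nat_lit 1) .nil)), (nat_lit 54), (nat_lit 31), (nat_lit 33),
 (nat_lit 1), (33, 0, 24), [439, 1774], 61⟩,
  ⟨⟨47, 0, -20, 0, 43, 0, 18, 0, -47⟩, (.cons (nat_lit 59) (nat_lit 15) (nat_lit 1244) (nat_lit 1) (.cons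
 (nat_lit 2208) (nat_lit 1090) (nat_lit 1205) (nat_lit 1) .nil)), (nat_lit 70), (nat_lit 43), (nat_lit 59),
 (nat_lit 1), (34, 0, 24), [111, 890], 7⟩,
  ⟨⟨-29, 0, -27, 0, 43, 0, 18, 0, -47⟩, (.cons (nat_lit 1102) (nat_lit 243) (nat_lit 1373) (nat_lit 1) (.cons
 (nat_lit 2163) (nat_lit 1307) (nat_lit 1064) (nat_lit 1) .nil)), (nat_lit 16), (nat_lit 57), (nat_lit 8),
 (nat_lit 1), (33, 0, 24), [283, 2206], 37⟩,
  ⟨⟨47, 0, -20, 0, 43, 0, 18, 0, -47⟩, (.cons (nat_lit 59) (nat_lit 15) (nat_lit 1244) (nat_lit 1) (.cons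
 (nat_lit 2208) (nat_lit 1090) (nat_lit 1205) (nat_lit 1) .nil)), (nat_lit 70), (nat_lit 43), (nat_lit 59),
 (nat_lit 1), (34, 0, 24), [111, 890], 7⟩,
  ⟨⟨-29, 0, -27, 0, -43, 0, 18, 0, -47⟩, (.cons (nat_lit 988) (nat_lit 244) (nat_lit 1529) (nat_lit 1) (.cons
 (nat_lit 2022) (nat_lit 1421) (nat_lit 1483) (nat_lit 1) .nil)), (nat_lit 54), (nat_lit 31), (nat_lit 33),
 (nat_lit 1), (33, 0, 24), [439, 1774], 61⟩,
  ⟨⟨-29, 0, -27, 0, -43, 0, 18, 0, -47⟩, (.cons (nat_lit 988) (nat_lit 244) (nat_lit 1529) (nat_lit 1) (.cons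
 (nat_lit 2022) (nat_lit 1421) (nat_lit 1483) (nat_lit 1) .nil)), (nat_lit 54), (nat_lit 31), (nat_lit 33),
 (nat_lit 1), (33, 0, 24), [439, 1774], 61⟩]

/-- Moves. -/
noncomputable def t0_10 : List Mv := [
  ⟨⟨21, -20, 31, 38, 15, -34, 12, -36, -13⟩, (.cons (nat_lit 1841) (nat_lit 1697) (nat_lit 681) (nat_lit 1)
 (.cons (nat_lit 2060) (nat_lit 2164) (nat_lit 1472) (nat_lit 1) .nil)), (nat_lit 41), (nat_lit 38), (nat_lit
 50), (nat_lit 1), (8, 37, 23), [40, 1070], 62⟩,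
  ⟨⟨21, -20, 31, 38, 15, -34, 12, -36, -13⟩, (.cons (nat_lit 1841) (nat_lit 1697) (nat_lit 681) (nat_lit 1)
 (.cons (nat_lit 2060) (nat_lit 2164) (nat_lit 1472) (nat_lit 1) .nil)), (nat_lit 41), (nat_lit 38), (nat_lit
 50), (nat_lit 1), (8, 37, 23), [40, 1070], 62⟩,
  ⟨⟨21, -20, 31, 38, 15, -34, 12, -36, -13⟩, (.cons (nat_lit 1841) (nat_lit 1697) (nat_lit 681) (nat_lit 1)
 (.cons (nat_lit 2060) (nat_lit 2164) (nat_lit 1472) (nat_lit 1) .nil)), (nat_lit 41), (nat_lit 38), (nat_lit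
 50), (nat_lit 1), (8, 37, 23), [40, 1070], 62⟩,
  ⟨⟨-9, -16, -44, 38, 15, -34, 12, -36, -13⟩, (.cons (nat_lit 1255) (nat_lit 1356) (nat_lit 1627) (nat_lit 1)
 (.cons (nat_lit 1277) (nat_lit 1220) (nat_lit 955) (nat_lit 1) .nil)), (nat_lit 35), (nat_lit 70), (nat_lit
 22), (nat_lit 1), (15, 37, 23), [900, 506], 37⟩,
  ⟨⟨21, -20, 31, 38, 15, -34, 12, -36, -13⟩, (.cons (nat_lit 1841) (nat_lit 1697) (nat_lit 681) (nat_lit 1)
 (.cons (nat_lit 2060) (nat_lit 2164) (nat_lit 1472) (nat_lit 1) .nil)), (nat_lit 41), (nat_lit 38), (nat_lit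
 50), (nat_lit 1), (8, 37, 23), [40, 1070], 62⟩,
  ⟨⟨-9, -16, -44, 38, 15, -34, 12, -36, -13⟩, (.cons (nat_lit 1255) (nat_lit 1356) (nat_lit 1627) (nat_lit 1)
 (.cons (nat_lit 1277) (nat_lit 1220) (nat_lit 955) (nat_lit 1) .nil)), (nat_lit 35), (nat_lit 70), (nat_lit
 22), (nat_lit 1), (15, 37, 23), [900, 506], 37⟩,
  ⟨⟨21, -20, 31, 38, 15, -34, 12, -36, -13⟩, (.cons (nat_lit 1841) (nat_lit 1697) (nat_lit 681) (nat_lit 1)
 (.cons (nat_lit 2060) (nat_lit 2164) (nat_lit 1472) (nat_lit 1) .nil)), (nat_lit 41), (nat_lit 38), (nat_lit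
 50), (nat_lit 1), (8, 37, 23), [40, 1070], 62⟩,
  ⟨⟨-9, -16, -44, 38, 15, -34, 12, -36, -13⟩, (.cons (nat_lit 1255) (nat_lit 1356) (nat_lit 1627) (nat_lit 1)
 (.cons (nat_lit 1277) (nat_lit 1220) (nat_lit 955) (nat_lit 1) .nil)), (nat_lit 35), (nat_lit 70), (nat_lit
 22), (nat_lit 1), (15, 37, 23), [900, 506], 37⟩,
  ⟨⟨-9, -16, -44, -38, -15, 34, 12, -36, -13⟩, (.cons (nat_lit 1170) (nat_lit 398) (nat_lit 851) (nat_lit 1)
 (.cons (nat_lit 531) (nat_lit 214) (nat_lit 1641) (nat_lit 1) .nil)), (nat_lit 35), (nat_lit 22), (nat_lit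
 59), (nat_lit 1), (15, 6, 23), [1010, 1224], 65⟩,
  ⟨⟨-9, -16, -44, -38, -15, 34, 12, -36, -13⟩, (.cons (nat_lit 1170) (nat_lit 398) (nat_lit 851) (nat_lit 1)
 (.cons (nat_lit 531) (nat_lit 214) (nat_lit 1641) (nat_lit 1) .nil)), (nat_lit 35), (nat_lit 22), (nat_lit
 59), (nat_lit 1), (15, 6, 23), [1010, 1224], 65⟩,
  ⟨⟨-9, -16, -44, 38, 15, -34, 12, -36, -13⟩, (.cons (nat_lit 1255) (nat_lit 1356) (nat_lit 1627) (nat_lit 1)
 (.cons (nat_lit 1277) (nat_lit 1220) (nat_lit 955) (nat_lit 1) .nil)), (nat_lit 35), (nat_lit 70), (nat_lit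
 22), (nat_lit 1), (15, 37, 23), [900, 506], 37⟩,
  ⟨⟨21, -20, 31, 38, 15, -34, 12, -36, -13⟩, (.cons (nat_lit 1841) (nat_lit 1697) (nat_lit 681) (nat_lit 1)
 (.cons (nat_lit 2060) (nat_lit 2164) (nat_lit 1472) (nat_lit 1) .nil)), (nat_lit 41), (nat_lit 38), (nat_lit
 50), (nat_lit 1), (8, 37, 23), [40, 1070], 62⟩,
  ⟨⟨21, -20, 31, 38, 15, -34, 12, -36, -13⟩, (.cons (nat_lit 1841) (nat_lit 1697) (nat_lit 681) (nat_lit 1)
 (.cons (nat_lit 2060) (nat_lit 2164) (nat_lit 1472) (nat_lit 1) .nil)), (nat_lit 41), (nat_lit 38), (nat_lit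
 50), (nat_lit 1), (8, 37, 23), [40, 1070], 62⟩,
  ⟨⟨21, -20, 31, -38, -15, 34, 12, -36, -13⟩, (.cons (nat_lit 636) (nat_lit 1580) (nat_lit 1625) (nat_lit 1)
 (.cons (nat_lit 2148) (nat_lit 1384) (nat_lit 1735) (nat_lit 1) .nil)), (nat_lit 68), (nat_lit 16), (nat_lit
 36), (nat_lit 1), (8, 6, 23), [1397, 1553], 24⟩,
  ⟨⟨21, -20, 31, 38, 15, -34, 12, -36, -13⟩, (.cons (nat_lit 1841) (nat_lit 1697) (nat_lit 681) (nat_lit 1)
 (.cons (nat_lit 2060) (nat_lit 2164) (nat_lit 1472) (nat_lit 1) .nil)), (nat_lit 41), (nat_lit 38), (nat_lit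
 50), (nat_lit 1), (8, 37, 23), [40, 1070], 62⟩,
  ⟨⟨-9, -16, -44, 38, 15, -34, 12, -36, -13⟩, (.cons (nat_lit 1255) (nat_lit 1356) (nat_lit 1627) (nat_lit 1)
 (.cons (nat_lit 1277) (nat_lit 1220) (nat_lit 955) (nat_lit 1) .nil)), (nat_lit 35), (nat_lit 70), (nat_lit
 22), (nat_lit 1), (15, 37, 23), [900, 506], 37⟩,
  ⟨⟨-9, -16, -44, 38, 15, -34, 12, -36, -13⟩, (.cons (nat_lit 1255) (nat_lit 1356) (nat_lit 1627) (nat_lit 1)
 (.cons (nat_lit 1277) (nat_lit 1220) (nat_lit 955) (nat_lit 1) .nil)), (nat_lit 35), (nat_lit 70), (nat_lit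
 22), (nat_lit 1), (15, 37, 23), [900, 506], 37⟩,
  ⟨⟨21, -20, 31, 38, 15, -34, 12, -36, -13⟩, (.cons (nat_lit 1841) (nat_lit 1697) (nat_lit 681) (nat_lit 1)
 (.cons (nat_lit 2060) (nat_lit 2164) (nat_lit 1472) (nat_lit 1) .nil)), (nat_lit 41), (nat_lit 38), (nat_lit
 50), (nat_lit 1), (8, 37, 23), [40, 1070], 62⟩,
  ⟨⟨-9, -16, -44, -38, -15, 34, 12, -36, -13⟩, (.cons (nat_lit 1170) (nat_lit 398) (nat_lit 851) (nat_lit 1)
 (.cons (nat_lit 531) (nat_lit 214) (nat_lit 1641) (nat_lit 1) .nil)), (nat_lit 35), (nat_lit 22), (nat_lit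
 59), (nat_lit 1), (15, 6, 23), [1010, 1224], 65⟩,
  ⟨⟨21, -20, 31, 38, 15, -34, 12, -36, -13⟩, (.cons (nat_lit 1841) (nat_lit 1697) (nat_lit 681) (nat_lit 1)
 (.cons (nat_lit 2060) (nat_lit 2164) (nat_lit 1472) (nat_lit 1) .nil)), (nat_lit 41), (nat_lit 38), (nat_lit
 50), (nat_lit 1), (8, 37, 23), [40, 1070], 62⟩,
  ⟨⟨21, -20, 31, 38, 15, -34, 12, -36, -13⟩, (.cons (nat_lit 1841) (nat_lit 1697) (nat_lit 681) (nat_lit 1)
 (.cons (nat_lit 2060) (nat_lit 2164) (nat_lit 1472) (nat_lit 1) .nil)), (nat_lit 41), (nat_lit 38), (nat_lit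
 50), (nat_lit 1), (8, 37, 23), [40, 1070], 62⟩,
  ⟨⟨-9, -16, -44, 38, 15, -34, 12, -36, -13⟩, (.cons (nat_lit 1255) (nat_lit 1356) (nat_lit 1627) (nat_lit 1)
 (.cons (nat_lit 1277) (nat_lit 1220) (nat_lit 955) (nat_lit 1) .nil)), (nat_lit 35), (nat_lit 70), (nat_lit
 22), (nat_lit 1), (15, 37, 23), [900, 506], 37⟩,
  ⟨⟨21, -20, 31, 38, 15, -34, 12, -36, -13⟩, (.cons (nat_lit 1841) (nat_lit 1697) (nat_lit 681) (nat_lit 1)
 (.cons (nat_lit 2060) (nat_lit 2164) (nat_lit 1472) (nat_lit 1) .nil)), (nat_lit 41), (nat_lit 38), (nat_lit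
 50), (nat_lit 1), (8, 37, 23), [40, 1070], 62⟩,
  ⟨⟨21, -20, 31, 38, 15, -34, 12, -36, -13⟩, (.cons (nat_lit 1841) (nat_lit 1697) (nat_lit 681) (nat_lit 1)
 (.cons (nat_lit 2060) (nat_lit 2164) (nat_lit 1472) (nat_lit 1) .nil)), (nat_lit 41), (nat_lit 38), (nat_lit
 50), (nat_lit 1), (8, 37, 23), [40, 1070], 62⟩,
  ⟨⟨21, -20, 31, 38, 15, -34, 12, -36, -13⟩, (.cons (nat_lit 1841) (nat_lit 1697) (nat_lit 681) (nat_lit 1)
 (.cons (nat_lit 2060) (nat_lit 2164) (nat_lit 1472) (nat_lit 1) .nil)), (nat_lit 41), (nat_lit 38), (nat_lit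
 50), (nat_lit 1), (8, 37, 23), [40, 1070], 62⟩,
  ⟨⟨21, -20, 31, 38, 15, -34, 12, -36, -13⟩, (.cons (nat_lit 1841) (nat_lit 1697) (nat_lit 681) (nat_lit 1)
 (.cons (nat_lit 2060) (nat_lit 2164) (nat_lit 1472) (nat_lit 1) .nil)), (nat_lit 41), (nat_lit 38), (nat_lit
 50), (nat_lit 1), (8, 37, 23), [40, 1070], 62⟩,
  ⟨⟨21, -20, 31, 38, 15, -34, 12, -36, -13⟩, (.cons (nat_lit 1841) (nat_lit 1697) (nat_lit 681) (nat_lit 1)
 (.cons (nat_lit 2060) (nat_lit 2164) (nat_lit 1472) (nat_lit 1) .nil)), (nat_lit 41), (nat_lit 38), (nat_lit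
 50), (nat_lit 1), (8, 37, 23), [40, 1070], 62⟩,
  ⟨⟨21, -20, 31, 38, 15, -34, 12, -36, -13⟩, (.cons (nat_lit 1841) (nat_lit 1697) (nat_lit 681) (nat_lit 1)
 (.cons (nat_lit 2060) (nat_lit 2164) (nat_lit 1472) (nat_lit 1) .nil)), (nat_lit 41), (nat_lit 38), (nat_lit
 50), (nat_lit 1), (8, 37, 23), [40, 1070], 62⟩,
  ⟨⟨21, -20, 31, 38, 15, -34, 12, -36, -13⟩, (.cons (nat_lit 1841) (nat_lit 1697) (nat_lit 681) (nat_lit 1)
 (.cons (nat_lit 2060) (nat_lit 2164) (nat_lit 1472) (nat_lit 1) .nil)), (nat_lit 41), (nat_lit 38), (nat_lit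
 50), (nat_lit 1), (8, 37, 23), [40, 1070], 62⟩,
  ⟨⟨21, -20, 31, -38, -15, 34, 12, -36, -13⟩, (.cons (nat_lit 636) (nat_lit 1580) (nat_lit 1625) (nat_lit 1)
 (.cons (nat_lit 2148) (nat_lit 1384) (nat_lit 1735) (nat_lit 1) .nil)), (nat_lit 68), (nat_lit 16), (nat_lit
 36), (nat_lit 1), (8, 6, 23), [1397, 1553], 24⟩,
  ⟨⟨21, -20, 31, -38, -15, 34, 12, -36, -13⟩, (.cons (nat_lit 636) (nat_lit 1580) (nat_lit 1625) (nat_lit 1)
 (.cons (nat_lit 2148) (nat_lit 1384) (nat_lit 1735) (nat_lit 1) .nil)), (nat_lit 68), (nat_lit 16), (nat_lit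
 36), (nat_lit 1), (8, 6, 23), [1397, 1553], 24⟩,
  ⟨⟨-9, -16, -44, -38, -15, 34, 12, -36, -13⟩, (.cons (nat_lit 1170) (nat_lit 398) (nat_lit 851) (nat_lit 1)
 (.cons (nat_lit 531) (nat_lit 214) (nat_lit 1641) (nat_lit 1) .nil)), (nat_lit 35), (nat_lit 22), (nat_lit
 59), (nat_lit 1), (15, 6, 23), [1010, 1224], 65⟩,
  ⟨⟨-9, -16, -44, -38, -15, 34, 12, -36, -13⟩, (.cons (nat_lit 1170) (nat_lit 398) (nat_lit 851) (nat_lit 1)
 (.cons (nat_lit 531) (nat_lit 214) (nat_lit 1641) (nat_lit 1) .nil)), (nat_lit 35), (nat_lit 22), (nat_lit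
 59), (nat_lit 1), (15, 6, 23), [1010, 1224], 65⟩,
  ⟨⟨-9, -16, -44, -38, -15, 34, 12, -36, -13⟩, (.cons (nat_lit 1170) (nat_lit 398) (nat_lit 851) (nat_lit 1)
 (.cons (nat_lit 531) (nat_lit 214) (nat_lit 1641) (nat_lit 1) .nil)), (nat_lit 35), (nat_lit 22), (nat_lit
 59), (nat_lit 1), (15, 6, 23), [1010, 1224], 65⟩,
  ⟨⟨21, -20, 31, -38, -15, 34, 12, -36, -13⟩, (.cons (nat_lit 636) (nat_lit 1580) (nat_lit 1625) (nat_lit 1)
 (.cons (nat_lit 2148) (nat_lit 1384) (nat_lit 1735) (nat_lit 1) .nil)), (nat_lit 68), (nat_lit 16), (nat_lit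
 36), (nat_lit 1), (8, 6, 23), [1397, 1553], 24⟩,
  ⟨⟨21, -20, 31, 38, 15, -34, 12, -36, -13⟩, (.cons (nat_lit 1841) (nat_lit 1697) (nat_lit 681) (nat_lit 1)
 (.cons (nat_lit 2060) (nat_lit 2164) (nat_lit 1472) (nat_lit 1) .nil)), (nat_lit 41), (nat_lit 38), (nat_lit
 50), (nat_lit 1), (8, 37, 23), [40, 1070], 62⟩,
  ⟨⟨21, -20, 31, 38, 15, -34, 12, -36, -13⟩, (.cons (nat_lit 1841) (nat_lit 1697) (nat_lit 681) (nat_lit 1)
 (.cons (nat_lit 2060) (nat_lit 2164) (nat_lit 1472) (nat_lit 1) .nil)), (nat_lit 41), (nat_lit 38), (nat_lit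
 50), (nat_lit 1), (8, 37, 23), [40, 1070], 62⟩,
  ⟨⟨21, -20, 31, 38, 15, -34, 12, -36, -13⟩, (.cons (nat_lit 1841) (nat_lit 1697) (nat_lit 681) (nat_lit 1)
 (.cons (nat_lit 2060) (nat_lit 2164) (nat_lit 1472) (nat_lit 1) .nil)), (nat_lit 41), (nat_lit 38), (nat_lit
 50), (nat_lit 1), (8, 37, 23), [40, 1070], 62⟩,
  ⟨⟨21, -20, 31, 38, 15, -34, 12, -36, -13⟩, (.cons (nat_lit 1841) (nat_lit 1697) (nat_lit 681) (nat_lit 1)
 (.cons (nat_lit 2060) (nat_lit 2164) (nat_lit 1472) (nat_lit 1) .nil)), (nat_lit 41), (nat_lit 38), (nat_lit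
 50), (nat_lit 1), (8, 37, 23), [40, 1070], 62⟩,
  ⟨⟨21, -20, 31, 38, 15, -34, 12, -36, -13⟩, (.cons (nat_lit 1841) (nat_lit 1697) (nat_lit 681) (nat_lit 1)
 (.cons (nat_lit 2060) (nat_lit 2164) (nat_lit 1472) (nat_lit 1) .nil)), (nat_lit 41), (nat_lit 38), (nat_lit
 50), (nat_lit 1), (8, 37, 23), [40, 1070], 62⟩,
  ⟨⟨21, -20, 31, 38, 15, -34, 12, -36, -13⟩, (.cons (nat_lit 1841) (nat_lit 1697) (nat_lit 681) (nat_lit 1)
 (.cons (nat_lit 2060) (nat_lit 2164) (nat_lit 1472) (nat_lit 1) .nil)), (nat_lit 41), (nat_lit 38), (nat_lit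
 50), (nat_lit 1), (8, 37, 23), [40, 1070], 62⟩,
  ⟨⟨21, -20, 31, 38, 15, -34, 12, -36, -13⟩, (.cons (nat_lit 1841) (nat_lit 1697) (nat_lit 681) (nat_lit 1)
 (.cons (nat_lit 2060) (nat_lit 2164) (nat_lit 1472) (nat_lit 1) .nil)), (nat_lit 41), (nat_lit 38), (nat_lit
 50), (nat_lit 1), (8, 37, 23), [40, 1070], 62⟩,
  ⟨⟨21, -20, 31, -38, -15, 34, 12, -36, -13⟩, (.cons (nat_lit 636) (nat_lit 1580) (nat_lit 1625) (nat_lit 1)
 (.cons (nat_lit 2148) (nat_lit 1384) (nat_lit 1735) (nat_lit 1) .nil)), (nat_lit 68), (nat_lit 16), (nat_lit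
 36), (nat_lit 1), (8, 6, 23), [1397, 1553], 24⟩]

/-- Moves. -/
noncomputable def t0_17 : List Mv := [
  ⟨⟨9, -4, -56, 40, -13, -10, 14, 32, -25⟩, (.cons (nat_lit 658) (nat_lit 1296) (nat_lit 148) (nat_lit 1)
 (.cons (nat_lit 45) (nat_lit 587) (nat_lit 2098) (nat_lit 1) .nil)), (nat_lit 57), (nat_lit 42), (nat_lit 65),
 (nat_lit 1), (19, 8, 20), [703, 1744], 61⟩,
  ⟨⟨9, -4, -56, 40, -13, -10, 14, 32, -25⟩, (.cons (nat_lit 658) (nat_lit 1296) (nat_lit 148) (nat_lit 1)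
 (.cons (nat_lit 45) (nat_lit 587) (nat_lit 2098) (nat_lit 1) .nil)), (nat_lit 57), (nat_lit 42), (nat_lit 65),
 (nat_lit 1), (19, 8, 20), [703, 1744], 61⟩,
  ⟨⟨9, -4, -56, -40, 13, 10, 14, 32, -25⟩, (.cons (nat_lit 536) (nat_lit 1540) (nat_lit 1500) (nat_lit 1)
 (.cons (nat_lit 1804) (nat_lit 104) (nat_lit 4) (nat_lit 1) .nil)), (nat_lit 45), (nat_lit 65), (nat_lit 32),
 (nat_lit 1), (19, 35, 20), [1786, 41], 38⟩,
  ⟨⟨9, -4, -56, 40, -13, -10, 14, 32, -25⟩, (.cons (nat_lit 658) (nat_lit 1296) (nat_lit 148) (nat_lit 1)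
 (.cons (nat_lit 45) (nat_lit 587) (nat_lit 2098) (nat_lit 1) .nil)), (nat_lit 57), (nat_lit 42), (nat_lit 65),
 (nat_lit 1), (19, 8, 20), [703, 1744], 61⟩,
  ⟨⟨9, -4, -56, 40, -13, -10, 14, 32, -25⟩, (.cons (nat_lit 658) (nat_lit 1296) (nat_lit 148) (nat_lit 1)
 (.cons (nat_lit 45) (nat_lit 587) (nat_lit 2098) (nat_lit 1) .nil)), (nat_lit 57), (nat_lit 42), (nat_lit 65),
 (nat_lit 1), (19, 8, 20), [703, 1744], 61⟩,
  ⟨⟨9, -4, -56, 40, -13, -10, 14, 32, -25⟩, (.cons (nat_lit 658) (nat_lit 1296) (nat_lit 148) (nat_lit 1)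
 (.cons (nat_lit 45) (nat_lit 587) (nat_lit 2098) (nat_lit 1) .nil)), (nat_lit 57), (nat_lit 42), (nat_lit 65),
 (nat_lit 1), (19, 8, 20), [703, 1744], 61⟩,
  ⟨⟨5, 36, 31, 40, -13, -10, 14, 32, -25⟩, (.cons (nat_lit 976) (nat_lit 381) (nat_lit 965) (nat_lit 1) (.cons
 (nat_lit 1788) (nat_lit 2092) (nat_lit 124) (nat_lit 1) .nil)), (nat_lit 38), (nat_lit 50), (nat_lit 28),
 (nat_lit 1), (1, 8, 20), [1262, 475], 9⟩,
  ⟨⟨9, -4, -56, 40, -13, -10, 14, 32, -25⟩, (.cons (nat_lit 658) (nat_lit 1296) (nat_lit 148) (nat_lit 1)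
 (.cons (nat_lit 45) (nat_lit 587) (nat_lit 2098) (nat_lit 1) .nil)), (nat_lit 57), (nat_lit 42), (nat_lit 65),
 (nat_lit 1), (19, 8, 20), [703, 1744], 61⟩,
  ⟨⟨9, -4, -56, 40, -13, -10, 14, 32, -25⟩, (.cons (nat_lit 658) (nat_lit 1296) (nat_lit 148) (nat_lit 1)
 (.cons (nat_lit 45) (nat_lit 587) (nat_lit 2098) (nat_lit 1) .nil)), (nat_lit 57), (nat_lit 42), (nat_lit 65),
 (nat_lit 1), (19, 8, 20), [703, 1744], 61⟩,
  ⟨⟨9, -4, -56, 40, -13, -10, 14, 32, -25⟩, (.cons (nat_lit 658) (nat_lit 1296) (nat_lit 148) (nat_lit 1)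
 (.cons (nat_lit 45) (nat_lit 587) (nat_lit 2098) (nat_lit 1) .nil)), (nat_lit 57), (nat_lit 42), (nat_lit 65),
 (nat_lit 1), (19, 8, 20), [703, 1744], 61⟩,
  ⟨⟨9, -4, -56, 40, -13, -10, 14, 32, -25⟩, (.cons (nat_lit 658) (nat_lit 1296) (nat_lit 148) (nat_lit 1)
 (.cons (nat_lit 45) (nat_lit 587) (nat_lit 2098) (nat_lit 1) .nil)), (nat_lit 57), (nat_lit 42), (nat_lit 65),
 (nat_lit 1), (19, 8, 20), [703, 1744], 61⟩,
  ⟨⟨5, 36, 31, 40, -13, -10, 14, 32, -25⟩, (.cons (nat_lit 976) (nat_lit 381) (nat_lit 965) (nat_lit 1) (.cons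
 (nat_lit 1788) (nat_lit 2092) (nat_lit 124) (nat_lit 1) .nil)), (nat_lit 38), (nat_lit 50), (nat_lit 28),
 (nat_lit 1), (1, 8, 20), [1262, 475], 9⟩,
  ⟨⟨9, -4, -56, -40, 13, 10, 14, 32, -25⟩, (.cons (nat_lit 536) (nat_lit 1540) (nat_lit 1500) (nat_lit 1)
 (.cons (nat_lit 1804) (nat_lit 104) (nat_lit 4) (nat_lit 1) .nil)), (nat_lit 45), (nat_lit 65), (nat_lit 32),
 (nat_lit 1), (19, 35, 20), [1786, 41], 38⟩,
  ⟨⟨9, -4, -56, 40, -13, -10, 14, 32, -25⟩, (.cons (nat_lit 658) (nat_lit 1296) (nat_lit 148) (nat_lit 1)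
 (.cons (nat_lit 45) (nat_lit 587) (nat_lit 2098) (nat_lit 1) .nil)), (nat_lit 57), (nat_lit 42), (nat_lit 65),
 (nat_lit 1), (19, 8, 20), [703, 1744], 61⟩,
  ⟨⟨9, -4, -56, 40, -13, -10, 14, 32, -25⟩, (.cons (nat_lit 658) (nat_lit 1296) (nat_lit 148) (nat_lit 1)
 (.cons (nat_lit 45) (nat_lit 587) (nat_lit 2098) (nat_lit 1) .nil)), (nat_lit 57), (nat_lit 42), (nat_lit 65),
 (nat_lit 1), (19, 8, 20), [703, 1744], 61⟩,
  ⟨⟨9, -4, -56, -40, 13, 10, 14, 32, -25⟩, (.cons (nat_lit 536) (nat_lit 1540) (nat_lit 1500) (nat_lit 1)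
 (.cons (nat_lit 1804) (nat_lit 104) (nat_lit 4) (nat_lit 1) .nil)), (nat_lit 45), (nat_lit 65), (nat_lit 32),
 (nat_lit 1), (19, 35, 20), [1786, 41], 38⟩,
  ⟨⟨9, -4, -56, 40, -13, -10, 14, 32, -25⟩, (.cons (nat_lit 658) (nat_lit 1296) (nat_lit 148) (nat_lit 1)
 (.cons (nat_lit 45) (nat_lit 587) (nat_lit 2098) (nat_lit 1) .nil)), (nat_lit 57), (nat_lit 42), (nat_lit 65),
 (nat_lit 1), (19, 8, 20), [703, 1744], 61⟩,
  ⟨⟨5, 36, 31, -40, 13, 10, 14, 32, -25⟩, (.cons (nat_lit 1700) (nat_lit 954) (nat_lit 124) (nat_lit 1) (.cons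
 (nat_lit 593) (nat_lit 1447) (nat_lit 286) (nat_lit 1) .nil)), (nat_lit 53), (nat_lit 3), (nat_lit 47),
 (nat_lit 1), (1, 35, 20), [109, 511], 21⟩,
  ⟨⟨5, 36, 31, -40, 13, 10, 14, 32, -25⟩, (.cons (nat_lit 1700) (nat_lit 954) (nat_lit 124) (nat_lit 1) (.cons
 (nat_lit 593) (nat_lit 1447) (nat_lit 286) (nat_lit 1) .nil)), (nat_lit 53), (nat_lit 3), (nat_lit 47),
 (nat_lit 1), (1, 35, 20), [109, 511], 21⟩,
  ⟨⟨5, 36, 31, 40, -13, -10, 14, 32, -25⟩, (.cons (nat_lit 976) (nat_lit 381) (nat_lit 965) (nat_lit 1) (.cons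
 (nat_lit 1788) (nat_lit 2092) (nat_lit 124) (nat_lit 1) .nil)), (nat_lit 38), (nat_lit 50), (nat_lit 28),
 (nat_lit 1), (1, 8, 20), [1262, 475], 9⟩,
  ⟨⟨5, 36, 31, -40, 13, 10, 14, 32, -25⟩, (.cons (nat_lit 1700) (nat_lit 954) (nat_lit 124) (nat_lit 1) (.cons
 (nat_lit 593) (nat_lit 1447) (nat_lit 286) (nat_lit 1) .nil)), (nat_lit 53), (nat_lit 3), (nat_lit 47),
 (nat_lit 1), (1, 35, 20), [109, 511], 21⟩,
  ⟨⟨9, -4, -56, -40, 13, 10, 14, 32, -25⟩, (.cons (nat_lit 536) (nat_lit 1540) (nat_lit 1500) (nat_lit 1)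
 (.cons (nat_lit 1804) (nat_lit 104) (nat_lit 4) (nat_lit 1) .nil)), (nat_lit 45), (nat_lit 65), (nat_lit 32),
 (nat_lit 1), (19, 35, 20), [1786, 41], 38⟩,
  ⟨⟨5, 36, 31, 40, -13, -10, 14, 32, -25⟩, (.cons (nat_lit 976) (nat_lit 381) (nat_lit 965) (nat_lit 1) (.cons
 (nat_lit 1788) (nat_lit 2092) (nat_lit 124) (nat_lit 1) .nil)), (nat_lit 38), (nat_lit 50), (nat_lit 28),
 (nat_lit 1), (1, 8, 20), [1262, 475], 9⟩,
  ⟨⟨5, 36, 31, -40, 13, 10, 14, 32, -25⟩, (.cons (nat_lit 1700) (nat_lit 954) (nat_lit 124) (nat_lit 1) (.cons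
 (nat_lit 593) (nat_lit 1447) (nat_lit 286) (nat_lit 1) .nil)), (nat_lit 53), (nat_lit 3), (nat_lit 47),
 (nat_lit 1), (1, 35, 20), [109, 511], 21⟩,
  ⟨⟨9, -4, -56, 40, -13, -10, 14, 32, -25⟩, (.cons (nat_lit 658) (nat_lit 1296) (nat_lit 148) (nat_lit 1)
 (.cons (nat_lit 45) (nat_lit 587) (nat_lit 2098) (nat_lit 1) .nil)), (nat_lit 57), (nat_lit 42), (nat_lit 65),
 (nat_lit 1), (19, 8, 20), [703, 1744], 61⟩,
  ⟨⟨9, -4, -56, 40, -13, -10, 14, 32, -25⟩, (.cons (nat_lit 658) (nat_lit 1296) (nat_lit 148) (nat_lit 1)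
 (.cons (nat_lit 45) (nat_lit 587) (nat_lit 2098) (nat_lit 1) .nil)), (nat_lit 57), (nat_lit 42), (nat_lit 65),
 (nat_lit 1), (19, 8, 20), [703, 1744], 61⟩,
  ⟨⟨9, -4, -56, 40, -13, -10, 14, 32, -25⟩, (.cons (nat_lit 658) (nat_lit 1296) (nat_lit 148) (nat_lit 1)
 (.cons (nat_lit 45) (nat_lit 587) (nat_lit 2098) (nat_lit 1) .nil)), (nat_lit 57), (nat_lit 42), (nat_lit 65),
 (nat_lit 1), (19, 8, 20), [703, 1744], 61⟩,
  ⟨⟨9, -4, -56, 40, -13, -10, 14, 32, -25⟩, (.cons (nat_lit 658) (nat_lit 1296) (nat_lit 148) (nat_lit 1)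
 (.cons (nat_lit 45) (nat_lit 587) (nat_lit 2098) (nat_lit 1) .nil)), (nat_lit 57), (nat_lit 42), (nat_lit 65),
 (nat_lit 1), (19, 8, 20), [703, 1744], 61⟩,
  ⟨⟨5, 36, 31, 40, -13, -10, 14, 32, -25⟩, (.cons (nat_lit 976) (nat_lit 381) (nat_lit 965) (nat_lit 1) (.cons
 (nat_lit 1788) (nat_lit 2092) (nat_lit 124) (nat_lit 1) .nil)), (nat_lit 38), (nat_lit 50), (nat_lit 28),
 (nat_lit 1), (1, 8, 20), [1262, 475], 9⟩,
  ⟨⟨9, -4, -56, 40, -13, -10, 14, 32, -25⟩, (.cons (nat_lit 658) (nat_lit 1296) (nat_lit 148) (nat_lit 1)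
 (.cons (nat_lit 45) (nat_lit 587) (nat_lit 2098) (nat_lit 1) .nil)), (nat_lit 57), (nat_lit 42), (nat_lit 65),
 (nat_lit 1), (19, 8, 20), [703, 1744], 61⟩,
  ⟨⟨5, 36, 31, 40, -13, -10, 14, 32, -25⟩, (.cons (nat_lit 976) (nat_lit 381) (nat_lit 965) (nat_lit 1) (.cons
 (nat_lit 1788) (nat_lit 2092) (nat_lit 124) (nat_lit 1) .nil)), (nat_lit 38), (nat_lit 50), (nat_lit 28),
 (nat_lit 1), (1, 8, 20), [1262, 475], 9⟩,
  ⟨⟨5, 36, 31, 40, -13, -10, 14, 32, -25⟩, (.cons (nat_lit 976) (nat_lit 381) (nat_lit 965) (nat_lit 1) (.cons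
 (nat_lit 1788) (nat_lit 2092) (nat_lit 124) (nat_lit 1) .nil)), (nat_lit 38), (nat_lit 50), (nat_lit 28),
 (nat_lit 1), (1, 8, 20), [1262, 475], 9⟩,
  ⟨⟨5, 36, 31, -40, 13, 10, 14, 32, -25⟩, (.cons (nat_lit 1700) (nat_lit 954) (nat_lit 124) (nat_lit 1) (.cons
 (nat_lit 593) (nat_lit 1447) (nat_lit 286) (nat_lit 1) .nil)), (nat_lit 53), (nat_lit 3), (nat_lit 47),
 (nat_lit 1), (1, 35, 20), [109, 511], 21⟩,
  ⟨⟨9, -4, -56, -40, 13, 10, 14, 32, -25⟩, (.cons (nat_lit 536) (nat_lit 1540) (nat_lit 1500) (nat_lit 1)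
 (.cons (nat_lit 1804) (nat_lit 104) (nat_lit 4) (nat_lit 1) .nil)), (nat_lit 45), (nat_lit 65), (nat_lit 32),
 (nat_lit 1), (19, 35, 20), [1786, 41], 38⟩,
  ⟨⟨9, -4, -56, 40, -13, -10, 14, 32, -25⟩, (.cons (nat_lit 658) (nat_lit 1296) (nat_lit 148) (nat_lit 1)
 (.cons (nat_lit 45) (nat_lit 587) (nat_lit 2098) (nat_lit 1) .nil)), (nat_lit 57), (nat_lit 42), (nat_lit 65),
 (nat_lit 1), (19, 8, 20), [703, 1744], 61⟩,
  ⟨⟨9, -4, -56, 40, -13, -10, 14, 32, -25⟩, (.cons (nat_lit 658) (nat_lit 1296) (nat_lit 148) (nat_lit 1)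
 (.cons (nat_lit 45) (nat_lit 587) (nat_lit 2098) (nat_lit 1) .nil)), (nat_lit 57), (nat_lit 42), (nat_lit 65),
 (nat_lit 1), (19, 8, 20), [703, 1744], 61⟩,
  ⟨⟨9, -4, -56, 40, -13, -10, 14, 32, -25⟩, (.cons (nat_lit 658) (nat_lit 1296) (nat_lit 148) (nat_lit 1)
 (.cons (nat_lit 45) (nat_lit 587) (nat_lit 2098) (nat_lit 1) .nil)), (nat_lit 57), (nat_lit 42), (nat_lit 65),
 (nat_lit 1), (19, 8, 20), [703, 1744], 61⟩,
  ⟨⟨9, -4, -56, 40, -13, -10, 14, 32, -25⟩, (.cons (nat_lit 658) (nat_lit 1296) (nat_lit 148) (nat_lit 1)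
 (.cons (nat_lit 45) (nat_lit 587) (nat_lit 2098) (nat_lit 1) .nil)), (nat_lit 57), (nat_lit 42), (nat_lit 65),
 (nat_lit 1), (19, 8, 20), [703, 1744], 61⟩,
  ⟨⟨9, -4, -56, 40, -13, -10, 14, 32, -25⟩, (.cons (nat_lit 658) (nat_lit 1296) (nat_lit 148) (nat_lit 1)
 (.cons (nat_lit 45) (nat_lit 587) (nat_lit 2098) (nat_lit 1) .nil)), (nat_lit 57), (nat_lit 42), (nat_lit 65),
 (nat_lit 1), (19, 8, 20), [703, 1744], 61⟩,
  ⟨⟨9, -4, -56, -40, 13, 10, 14, 32, -25⟩, (.cons (nat_lit 536) (nat_lit 1540) (nat_lit 1500) (nat_lit 1)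
 (.cons (nat_lit 1804) (nat_lit 104) (nat_lit 4) (nat_lit 1) .nil)), (nat_lit 45), (nat_lit 65), (nat_lit 32),
 (nat_lit 1), (19, 35, 20), [1786, 41], 38⟩,
  ⟨⟨9, -4, -56, 40, -13, -10, 14, 32, -25⟩, (.cons (nat_lit 658) (nat_lit 1296) (nat_lit 148) (nat_lit 1)
 (.cons (nat_lit 45) (nat_lit 587) (nat_lit 2098) (nat_lit 1) .nil)), (nat_lit 57), (nat_lit 42), (nat_lit 65),
 (nat_lit 1), (19, 8, 20), [703, 1744], 61⟩,
  ⟨⟨9, -4, -56, 40, -13, -10, 14, 32, -25⟩, (.cons (nat_lit 658) (nat_lit 1296) (nat_lit 148) (nat_lit 1)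
 (.cons (nat_lit 45) (nat_lit 587) (nat_lit 2098) (nat_lit 1) .nil)), (nat_lit 57), (nat_lit 42), (nat_lit 65),
 (nat_lit 1), (19, 8, 20), [703, 1744], 61⟩,
  ⟨⟨9, -4, -56, 40, -13, -10, 14, 32, -25⟩, (.cons (nat_lit 658) (nat_lit 1296) (nat_lit 148) (nat_lit 1)
 (.cons (nat_lit 45) (nat_lit 587) (nat_lit 2098) (nat_lit 1) .nil)), (nat_lit 57), (nat_lit 42), (nat_lit 65),
 (nat_lit 1), (19, 8, 20), [703, 1744], 61⟩]

/-- Moves. -/
noncomputable def t1_1 : List Mv := [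
  mz,
  ⟨⟨-25, 12, -36, 22, -35, -36, 20, 28, -37⟩, (.cons (nat_lit 834) (nat_lit 1628) (nat_lit 1475) (nat_lit 1)
 (.cons (nat_lit 206) (nat_lit 375) (nat_lit 1748) (nat_lit 1) .nil)), (nat_lit 19), (nat_lit 60), (nat_lit
 46), (nat_lit 1), (2, 2, 36), [1469, 1430], 33⟩,
  ⟨⟨21, -32, -49, 2, 35, -36, -28, -20, -13⟩, (.cons (nat_lit 369) (nat_lit 781) (nat_lit 1627) (nat_lit 1)
 (.cons (nat_lit 578) (nat_lit 370) (nat_lit 1159) (nat_lit 1) .nil)), (nat_lit 54), (nat_lit 24), (nat_lit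
 13), (nat_lit 1), (33, 30, 3), [736, 1915], 56⟩,
  ⟨⟨-51, 4, 19, 2, 45, 14, -12, 12, -37⟩, (.cons (nat_lit 689) (nat_lit 1701) (nat_lit 489) (nat_lit 1) (.cons
 (nat_lit 1698) (nat_lit 1801) (nat_lit 985) (nat_lit 1) .nil)), (nat_lit 37), (nat_lit 14), (nat_lit 18),
 (nat_lit 1), (7, 20, 21), [274, 1540], 48⟩,
  mz,
  ⟨⟨-45, -16, 44, -22, 35, -14, -20, -28, -17⟩, (.cons (nat_lit 700) (nat_lit 1550) (nat_lit 1206) (nat_lit 1)
 (.cons (nat_lit 823) (nat_lit 911) (nat_lit 1116) (nat_lit 1) .nil)), (nat_lit 37), (nat_lit 8), (nat_lit 10),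
 (nat_lit 1), (12, 9, 21), [1451, 287], 38⟩,
  mz,
  mz,
  mz,
  ⟨⟨27, 32, -47, -40, 17, 0, 10, -16, -47⟩, (.cons (nat_lit 130) (nat_lit 282) (nat_lit 400) (nat_lit 1) (.cons
 (nat_lit 1211) (nat_lit 1316) (nat_lit 278) (nat_lit 1) .nil)), (nat_lit 49), (nat_lit 30), (nat_lit 44),
 (nat_lit 1), (43, 39, 2), [1803, 152], 26⟩,
  mz,
  ⟨⟨17, 48, -17, -40, 17, 40, -10, 16, -37⟩, (.cons (nat_lit 560) (nat_lit 1183) (nat_lit 1828) (nat_lit 1)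
 (.cons (nat_lit 1779) (nat_lit 466) (nat_lit 398) (nat_lit 1) .nil)), (nat_lit 29), (nat_lit 32), (nat_lit
 61), (nat_lit 1), (25, 2, 24), [513, 342], 69⟩,
  ⟨⟨17, -36, -45, -20, 23, -30, 38, 8, -37⟩, (.cons (nat_lit 28) (nat_lit 13) (nat_lit 149) (nat_lit 1) (.cons
 (nat_lit 570) (nat_lit 1135) (nat_lit 2077) (nat_lit 1) .nil)), (nat_lit 5), (nat_lit 15), (nat_lit 3),
 (nat_lit 1), (19, 44, 1), [878, 178], 37⟩,
  mz,
  ⟨⟨-51, -4, 19, -2, 45, -14, -12, -12, -37⟩, (.cons (nat_lit 259) (nat_lit 1812) (nat_lit 322) (nat_lit 1)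
 (.cons (nat_lit 414) (nat_lit 95) (nat_lit 51) (nat_lit 1) .nil)), (nat_lit 37), (nat_lit 4), (nat_lit 63),
 (nat_lit 1), (25, 36, 28), [790, 2196], 48⟩,
  ⟨⟨9, 4, -61, 40, 23, -10, 22, -32, -29⟩, (.cons (nat_lit 1181) (nat_lit 475) (nat_lit 443) (nat_lit 1) (.cons
 (nat_lit 892) (nat_lit 661) (nat_lit 1320) (nat_lit 1) .nil)), (nat_lit 37), (nat_lit 19), (nat_lit 32),
 (nat_lit 1), (18, 33, 44), [363, 927], 1⟩,
  ⟨⟨-9, -4, -52, 40, 23, -30, -22, 32, -7⟩, (.cons (nat_lit 1391) (nat_lit 1147) (nat_lit 1456) (nat_lit 1)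
 (.cons (nat_lit 523) (nat_lit 394) (nat_lit 146) (nat_lit 1) .nil)), (nat_lit 35), (nat_lit 9), (nat_lit 54),
 (nat_lit 1), (36, 28, 41), [792, 1776], 39⟩,
  mz,
  ⟨⟨19, 0, -63, 0, -47, 0, 42, 0, -23⟩, (.cons (nat_lit 861) (nat_lit 1716) (nat_lit 1136) (nat_lit 1) (.cons
 (nat_lit 1748) (nat_lit 1366) (nat_lit 963) (nat_lit 1) .nil)), (nat_lit 47), (nat_lit 47), (nat_lit 34),
 (nat_lit 1), (16, 0, 23), [1084, 1564], 51⟩,
  ⟨⟨45, -8, -49, -20, -33, -20, 6, 24, -41⟩, (.cons (nat_lit 249) (nat_lit 107) (nat_lit 1002) (nat_lit 1)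
 (.cons (nat_lit 2079) (nat_lit 1295) (nat_lit 493) (nat_lit 1) .nil)), (nat_lit 33), (nat_lit 24), (nat_lit
 37), (nat_lit 1), (29, 8, 7), [76, 2045], 1⟩,
  ⟨⟨21, 44, -29, -20, 23, 50, 38, 8, -1⟩, (.cons (nat_lit 254) (nat_lit 1538) (nat_lit 40) (nat_lit 1) (.cons
 (nat_lit 597) (nat_lit 534) (nat_lit 726) (nat_lit 1) .nil)), (nat_lit 46), (nat_lit 7), (nat_lit 63),
 (nat_lit 1), (8, 17, 10), [1240, 1697], 37⟩,
  ⟨⟨21, 32, -49, 2, -35, -36, -28, 20, -13⟩, (.cons (nat_lit 456) (nat_lit 838) (nat_lit 360) (nat_lit 1)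
 (.cons (nat_lit 333) (nat_lit 1589) (nat_lit 1486) (nat_lit 1) .nil)), (nat_lit 39), (nat_lit 7), (nat_lit 6),
 (nat_lit 1), (30, 23, 7), [265, 500], 1⟩,
  ⟨⟨-39, -32, 8, -20, 33, -20, 6, -24, -41⟩, (.cons (nat_lit 1848) (nat_lit 1122) (nat_lit 1073) (nat_lit 1)
 (.cons (nat_lit 1868) (nat_lit 2069) (nat_lit 1794) (nat_lit 1) .nil)), (nat_lit 70), (nat_lit 14), (nat_lit
 64), (nat_lit 1), (28, 24, 21), [1318, 1202], 15⟩,
  mz,
  mz,
  ⟨⟨-45, 8, -4, 20, 33, -40, -6, -24, -35⟩, (.cons (nat_lit 1848) (nat_lit 340) (nat_lit 862) (nat_lit 1)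
 (.cons (nat_lit 1084) (nat_lit 431) (nat_lit 1459) (nat_lit 1) .nil)), (nat_lit 70), (nat_lit 22), (nat_lit
 68), (nat_lit 1), (40, 24, 21), [243, 1820], 2⟩,
  ⟨⟨-21, 32, -28, -2, -35, -34, 28, 20, -41⟩, (.cons (nat_lit 1092) (nat_lit 1010) (nat_lit 199) (nat_lit 1)
 (.cons (nat_lit 1274) (nat_lit 140) (nat_lit 1035) (nat_lit 1) .nil)), (nat_lit 19), (nat_lit 26), (nat_lit
 57), (nat_lit 1), (30, 23, 7), [437, 41], 33⟩,
  ⟨⟨17, 36, -45, -20, -23, -30, 38, -8, -37⟩, (.cons (nat_lit 211) (nat_lit 1386) (nat_lit 347) (nat_lit 1)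
 (.cons (nat_lit 404) (nat_lit 600) (nat_lit 653) (nat_lit 1) .nil)), (nat_lit 42), (nat_lit 46), (nat_lit 46),
 (nat_lit 1), (45, 30, 37), [1426, 403], 66⟩,
  ⟨⟨-45, -8, -4, 20, -33, -40, -6, 24, -35⟩, (.cons (nat_lit 1213) (nat_lit 1182) (nat_lit 1836) (nat_lit 1)
 (.cons (nat_lit 1239) (nat_lit 596) (nat_lit 450) (nat_lit 1) .nil)), (nat_lit 9), (nat_lit 9), (nat_lit 50),
 (nat_lit 1), (29, 8, 7), [1065, 1881], 66⟩,
  ⟨⟨23, 0, -63, 0, -47, 0, 42, 0, -19⟩, (.cons (nat_lit 732) (nat_lit 547) (nat_lit 1000) (nat_lit 1) (.cons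
 (nat_lit 207) (nat_lit 2146) (nat_lit 1351) (nat_lit 1) .nil)), (nat_lit 18), (nat_lit 22), (nat_lit 28),
 (nat_lit 1), (40, 0, 24), [1231, 831], 61⟩,
  mz,
  ⟨⟨9, -4, -61, 40, -23, -10, 22, 32, -29⟩, (.cons (nat_lit 1415) (nat_lit 372) (nat_lit 729) (nat_lit 1)
 (.cons (nat_lit 1469) (nat_lit 1394) (nat_lit 1785) (nat_lit 1) .nil)), (nat_lit 42), (nat_lit 26), (nat_lit
 65), (nat_lit 1), (36, 19, 41), [738, 1696], 66⟩,
  ⟨⟨-13, -36, 45, 40, -23, -30, -22, -32, -7⟩, (.cons (nat_lit 333) (nat_lit 712) (nat_lit 936) (nat_lit 1)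
 (.cons (nat_lit 2007) (nat_lit 1130) (nat_lit 43) (nat_lit 1) .nil)), (nat_lit 22), (nat_lit 53), (nat_lit
 53), (nat_lit 1), (26, 14, 44), [1234, 194], 65⟩,
  ⟨⟨51, -4, -32, 2, 45, -16, 12, -12, -49⟩, (.cons (nat_lit 1848) (nat_lit 92) (nat_lit 194) (nat_lit 1) (.cons
 (nat_lit 1770) (nat_lit 69) (nat_lit 122) (nat_lit 1) .nil)), (nat_lit 70), (nat_lit 63), (nat_lit 64),
 (nat_lit 1), (25, 36, 28), [1306, 21], 52⟩,
  mz,
  ⟨⟨21, -44, -29, -20, -23, 50, 38, -8, -1⟩, (.cons (nat_lit 501) (nat_lit 546) (nat_lit 1786) (nat_lit 1)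
 (.cons (nat_lit 1483) (nat_lit 45) (nat_lit 1136) (nat_lit 1) .nil)), (nat_lit 48), (nat_lit 11), (nat_lit
 26), (nat_lit 1), (18, 3, 46), [1659, 1039], 39⟩,
  ⟨⟨27, -32, -47, 40, 17, 0, 10, 16, -47⟩, (.cons (nat_lit 1291) (nat_lit 21) (nat_lit 1225) (nat_lit 1) (.cons
 (nat_lit 316) (nat_lit 2207) (nat_lit 738) (nat_lit 1) .nil)), (nat_lit 49), (nat_lit 65), (nat_lit 64),
 (nat_lit 1), (46, 2, 24), [169, 417], 26⟩,
  mz,
  ⟨⟨17, -48, -17, 40, 17, -40, -10, -16, -37⟩, (.cons (nat_lit 1721) (nat_lit 965) (nat_lit 1277) (nat_lit 1)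
 (.cons (nat_lit 894) (nat_lit 1313) (nat_lit 256) (nat_lit 1) .nil)), (nat_lit 29), (nat_lit 53), (nat_lit 2),
 (nat_lit 1), (6, 39, 2), [728, 1675], 69⟩,
  mz,
  mz,
  mz,
  ⟨⟨45, -16, -1, 22, 35, -36, 20, -28, -37⟩, (.cons (nat_lit 1321) (nat_lit 1808) (nat_lit 471) (nat_lit 1)
 (.cons (nat_lit 630) (nat_lit 554) (nat_lit 296) (nat_lit 1) .nil)), (nat_lit 57), (nat_lit 61), (nat_lit 42),
 (nat_lit 1), (12, 9, 21), [1021, 2097], 17⟩,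
  mz,
  ⟨⟨51, 4, -32, 2, -45, -16, 12, 12, -49⟩, (.cons (nat_lit 1623) (nat_lit 643) (nat_lit 1797) (nat_lit 1)
 (.cons (nat_lit 1664) (nat_lit 1547) (nat_lit 331) (nat_lit 1) .nil)), (nat_lit 20), (nat_lit 22), (nat_lit
 5), (nat_lit 1), (7, 27, 21), [314, 2095], 30⟩,
  ⟨⟨-21, -32, -28, 2, -35, 34, 28, -20, -41⟩, (.cons (nat_lit 1457) (nat_lit 1578) (nat_lit 537) (nat_lit 1)
 (.cons (nat_lit 2082) (nat_lit 411) (nat_lit 2054) (nat_lit 1) .nil)), (nat_lit 53), (nat_lit 65), (nat_lit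
 64), (nat_lit 1), (33, 17, 3), [1465, 483], 51⟩,
  ⟨⟨-45, 16, 44, -22, -35, -14, -20, 28, -17⟩, (.cons (nat_lit 533) (nat_lit 221) (nat_lit 374) (nat_lit 1)
 (.cons (nat_lit 1571) (nat_lit 299) (nat_lit 225) (nat_lit 1) .nil)), (nat_lit 67), (nat_lit 47), (nat_lit
 43), (nat_lit 1), (34, 2, 36), [824, 1643], 35⟩]

/-- Moves. -/
noncomputable def t1_4 : List Mv := [
  mz,
  ⟨⟨45, 16, -1, 22, -35, -36, 20, 28, -37⟩, (.cons (nat_lit 241) (nat_lit 49) (nat_lit 615) (nat_lit 1) (.cons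
 (nat_lit 217) (nat_lit 236) (nat_lit 197) (nat_lit 1) .nil)), (nat_lit 39), (nat_lit 25), (nat_lit 67),
 (nat_lit 1), (34, 2, 36), [222, 114], 1⟩,
  ⟨⟨21, -32, -49, 2, 35, -36, -28, -20, -13⟩, (.cons (nat_lit 369) (nat_lit 781) (nat_lit 1627) (nat_lit 1)
 (.cons (nat_lit 578) (nat_lit 370) (nat_lit 1159) (nat_lit 1) .nil)), (nat_lit 54), (nat_lit 24), (nat_lit
 13), (nat_lit 1), (33, 30, 3), [736, 1915], 56⟩,
  ⟨⟨39, 8, -56, -2, -45, -14, -12, 12, -37⟩, (.cons (nat_lit 118) (nat_lit 45) (nat_lit 568) (nat_lit 1) (.cons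
 (nat_lit 1190) (nat_lit 1050) (nat_lit 1824) (nat_lit 1) .nil)), (nat_lit 20), (nat_lit 9), (nat_lit 28),
 (nat_lit 1), (14, 27, 21), [529, 1193], 30⟩,
  mz,
  ⟨⟨25, -12, -61, -22, 35, -14, -20, -28, -17⟩, (.cons (nat_lit 461) (nat_lit 514) (nat_lit 647) (nat_lit 1)
 (.cons (nat_lit 211) (nat_lit 781) (nat_lit 2056) (nat_lit 1) .nil)), (nat_lit 25), (nat_lit 39), (nat_lit
 30), (nat_lit 1), (9, 9, 21), [1150, 1791], 68⟩,
  mz,
  mz,
  mz,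
  ⟨⟨27, 32, -47, -40, 17, 0, 10, -16, -47⟩, (.cons (nat_lit 130) (nat_lit 282) (nat_lit 400) (nat_lit 1) (.cons
 (nat_lit 1211) (nat_lit 1316) (nat_lit 278) (nat_lit 1) .nil)), (nat_lit 49), (nat_lit 30), (nat_lit 44),
 (nat_lit 1), (43, 39, 2), [1803, 152], 26⟩,
  mz,
  ⟨⟨17, 48, -17, 40, -17, -40, -10, 16, -37⟩, (.cons (nat_lit 339) (nat_lit 1409) (nat_lit 776) (nat_lit 1)
 (.cons (nat_lit 1602) (nat_lit 1282) (nat_lit 178) (nat_lit 1) .nil)), (nat_lit 14), (nat_lit 16), (nat_lit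
 1), (nat_lit 0), (25, 45, 24), [1350, 933], 29⟩,
  ⟨⟨21, 44, 8, 20, -23, 30, 38, 8, -37⟩, (.cons (nat_lit 355) (nat_lit 1641) (nat_lit 280) (nat_lit 1) (.cons
 (nat_lit 463) (nat_lit 276) (nat_lit 1337) (nat_lit 1) .nil)), (nat_lit 11), (nat_lit 51), (nat_lit 24),
 (nat_lit 1), (29, 3, 1), [804, 354], 2⟩,
  mz,
  ⟨⟨39, -8, -56, -2, 45, -14, -12, -12, -37⟩, (.cons (nat_lit 1848) (nat_lit 1714) (nat_lit 967) (nat_lit 1)
 (.cons (nat_lit 1795) (nat_lit 516) (nat_lit 2025) (nat_lit 1) .nil)), (nat_lit 70), (nat_lit 11), (nat_lit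
 31), (nat_lit 1), (3, 36, 28), [1263, 457], 28⟩,
  ⟨⟨13, -36, 32, 40, 23, -10, 22, -32, -29⟩, (.cons (nat_lit 1528) (nat_lit 1589) (nat_lit 400) (nat_lit 1)
 (.cons (nat_lit 236) (nat_lit 1454) (nat_lit 1085) (nat_lit 1) .nil)), (nat_lit 69), (nat_lit 24), (nat_lit
 10), (nat_lit 1), (26, 33, 44), [1051, 128], 14⟩,
  ⟨⟨-13, 36, 45, 40, 23, -30, -22, 32, -7⟩, (.cons (nat_lit 1533) (nat_lit 444) (nat_lit 37) (nat_lit 1) (.cons
 (nat_lit 2015) (nat_lit 1298) (nat_lit 2026) (nat_lit 1) .nil)), (nat_lit 48), (nat_lit 61), (nat_lit 14),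
 (nat_lit 1), (5, 28, 41), [706, 977], 32⟩,
  mz,
  ⟨⟨19, 0, -63, 0, -47, 0, 42, 0, -23⟩, (.cons (nat_lit 861) (nat_lit 1716) (nat_lit 1136) (nat_lit 1) (.cons
 (nat_lit 1748) (nat_lit 1366) (nat_lit 963) (nat_lit 1) .nil)), (nat_lit 47), (nat_lit 47), (nat_lit 34),
 (nat_lit 1), (16, 0, 23), [1084, 1564], 51⟩,
  ⟨⟨-39, 32, 8, -20, -33, -20, 6, 24, -41⟩, (.cons (nat_lit 1127) (nat_lit 1699) (nat_lit 830) (nat_lit 1)
 (.cons (nat_lit 1775) (nat_lit 303) (nat_lit 587) (nat_lit 1) .nil)), (nat_lit 9), (nat_lit 19), (nat_lit 5),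
 (nat_lit 1), (25, 8, 7), [1237, 1575], 66⟩,
  ⟨⟨17, -36, 28, 20, -23, -50, 38, 8, -1⟩, (.cons (nat_lit 109) (nat_lit 709) (nat_lit 310) (nat_lit 1) (.cons
 (nat_lit 1665) (nat_lit 1449) (nat_lit 1658) (nat_lit 1) .nil)), (nat_lit 69), (nat_lit 18), (nat_lit 37),
 (nat_lit 1), (2, 30, 10), [1658, 406], 57⟩,
  ⟨⟨21, 32, -49, -2, 35, 36, -28, 20, -13⟩, (.cons (nat_lit 1708) (nat_lit 96) (nat_lit 1625) (nat_lit 1)
 (.cons (nat_lit 1823) (nat_lit 293) (nat_lit 1561) (nat_lit 1) .nil)), (nat_lit 57), (nat_lit 33), (nat_lit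
 26), (nat_lit 1), (30, 24, 7), [1795, 496], 17⟩,
  ⟨⟨-39, -32, 8, -20, 33, -20, 6, -24, -41⟩, (.cons (nat_lit 1848) (nat_lit 1122) (nat_lit 1073) (nat_lit 1)
 (.cons (nat_lit 1868) (nat_lit 2069) (nat_lit 1794) (nat_lit 1) .nil)), (nat_lit 70), (nat_lit 14), (nat_lit
 64), (nat_lit 1), (28, 24, 21), [1318, 1202], 15⟩,
  mz,
  mz,
  ⟨⟨-45, 8, -4, 20, 33, -40, -6, -24, -35⟩, (.cons (nat_lit 1848) (nat_lit 340) (nat_lit 862) (nat_lit 1)
 (.cons (nat_lit 1084) (nat_lit 431) (nat_lit 1459) (nat_lit 1) .nil)), (nat_lit 70), (nat_lit 22), (nat_lit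
 68), (nat_lit 1), (40, 24, 21), [243, 1820], 2⟩,
  ⟨⟨-21, 32, -28, -2, -35, -34, 28, 20, -41⟩, (.cons (nat_lit 1092) (nat_lit 1010) (nat_lit 199) (nat_lit 1)
 (.cons (nat_lit 1274) (nat_lit 140) (nat_lit 1035) (nat_lit 1) .nil)), (nat_lit 19), (nat_lit 26), (nat_lit
 57), (nat_lit 1), (30, 23, 7), [437, 41], 33⟩,
  ⟨⟨21, -44, 8, -20, -23, -30, 38, -8, -37⟩, (.cons (nat_lit 1294) (nat_lit 1366) (nat_lit 1336) (nat_lit 1)
 (.cons (nat_lit 1429) (nat_lit 481) (nat_lit 2204) (nat_lit 1) .nil)), (nat_lit 65), (nat_lit 51), (nat_lit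
 64), (nat_lit 1), (39, 30, 37), [1039, 1625], 25⟩,
  ⟨⟨-45, -8, -4, 20, -33, -40, -6, 24, -35⟩, (.cons (nat_lit 1213) (nat_lit 1182) (nat_lit 1836) (nat_lit 1)
 (.cons (nat_lit 1239) (nat_lit 596) (nat_lit 450) (nat_lit 1) .nil)), (nat_lit 9), (nat_lit 9), (nat_lit 50),
 (nat_lit 1), (29, 8, 7), [1065, 1881], 66⟩,
  ⟨⟨19, 0, 44, 0, -47, 0, 42, 0, -19⟩, (.cons (nat_lit 1848) (nat_lit 55) (nat_lit 1645) (nat_lit 1) (.cons
 (nat_lit 1626) (nat_lit 16) (nat_lit 1962) (nat_lit 1) .nil)), (nat_lit 70), (nat_lit 16), (nat_lit 3),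
 (nat_lit 1), (31, 0, 24), [328, 1160], 40⟩,
  mz,
  ⟨⟨9, -4, -61, 40, -23, -10, 22, 32, -29⟩, (.cons (nat_lit 1415) (nat_lit 372) (nat_lit 729) (nat_lit 1)
 (.cons (nat_lit 1469) (nat_lit 1394) (nat_lit 1785) (nat_lit 1) .nil)), (nat_lit 42), (nat_lit 26), (nat_lit
 65), (nat_lit 1), (36, 19, 41), [738, 1696], 66⟩,
  ⟨⟨-13, -36, 45, -40, 23, 30, -22, -32, -7⟩, (.cons (nat_lit 1783) (nat_lit 858) (nat_lit 589) (nat_lit 1)
 (.cons (nat_lit 292) (nat_lit 1196) (nat_lit 369) (nat_lit 1) .nil)), (nat_lit 57), (nat_lit 68), (nat_lit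
 42), (nat_lit 1), (26, 33, 44), [836, 768], 10⟩,
  ⟨⟨51, -4, -32, 2, 45, -16, 12, -12, -49⟩, (.cons (nat_lit 1848) (nat_lit 92) (nat_lit 194) (nat_lit 1) (.cons
 (nat_lit 1770) (nat_lit 69) (nat_lit 122) (nat_lit 1) .nil)), (nat_lit 70), (nat_lit 63), (nat_lit 64),
 (nat_lit 1), (25, 36, 28), [1306, 21], 52⟩,
  mz,
  ⟨⟨17, 36, 28, 20, 23, -50, 38, -8, -1⟩, (.cons (nat_lit 484) (nat_lit 1197) (nat_lit 1569) (nat_lit 1) (.cons
 (nat_lit 168) (nat_lit 1196) (nat_lit 34) (nat_lit 1) .nil)), (nat_lit 59), (nat_lit 5), (nat_lit 56),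
 (nat_lit 1), (28, 44, 46), [400, 734], 21⟩,
  ⟨⟨-17, 48, 0, -40, -17, 0, 10, 16, -47⟩, (.cons (nat_lit 1424) (nat_lit 506) (nat_lit 901) (nat_lit 1) (.cons
 (nat_lit 599) (nat_lit 1807) (nat_lit 312) (nat_lit 1) .nil)), (nat_lit 5), (nat_lit 50), (nat_lit 51),
 (nat_lit 1), (25, 45, 24), [1006, 2099], 51⟩,
  mz,
  ⟨⟨17, -48, -17, 40, 17, -40, -10, -16, -37⟩, (.cons (nat_lit 1721) (nat_lit 965) (nat_lit 1277) (nat_lit 1)
 (.cons (nat_lit 894) (nat_lit 1313) (nat_lit 256) (nat_lit 1) .nil)), (nat_lit 29), (nat_lit 53), (nat_lit 2),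
 (nat_lit 1), (6, 39, 2), [728, 1675], 69⟩,
  mz,
  mz,
  mz,
  ⟨⟨45, -16, -1, -22, -35, 36, 20, -28, -37⟩, (.cons (nat_lit 1209) (nat_lit 965) (nat_lit 381) (nat_lit 1)
 (.cons (nat_lit 994) (nat_lit 1716) (nat_lit 689) (nat_lit 1) .nil)), (nat_lit 42), (nat_lit 14), (nat_lit
 56), (nat_lit 1), (12, 38, 21), [3, 485], 58⟩,
  mz,
  ⟨⟨-39, 8, -17, -2, 45, 16, 12, 12, -49⟩, (.cons (nat_lit 1162) (nat_lit 19) (nat_lit 1274) (nat_lit 1) (.cons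
 (nat_lit 914) (nat_lit 1444) (nat_lit 618) (nat_lit 1) .nil)), (nat_lit 48), (nat_lit 38), (nat_lit 59),
 (nat_lit 1), (14, 20, 21), [446, 958], 45⟩,
  ⟨⟨49, 12, -13, 2, -35, 34, 28, -20, -41⟩, (.cons (nat_lit 1381) (nat_lit 744) (nat_lit 1225) (nat_lit 1)
 (.cons (nat_lit 174) (nat_lit 576) (nat_lit 1819) (nat_lit 1) .nil)), (nat_lit 51), (nat_lit 3), (nat_lit 62),
 (nat_lit 1), (17, 17, 3), [175, 1705], 45⟩,
  ⟨⟨-45, 16, 44, -22, -35, -14, -20, 28, -17⟩, (.cons (nat_lit 533) (nat_lit 221) (nat_lit 374) (nat_lit 1)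
 (.cons (nat_lit 1571) (nat_lit 299) (nat_lit 225) (nat_lit 1) .nil)), (nat_lit 67), (nat_lit 47), (nat_lit
 43), (nat_lit 1), (34, 2, 36), [824, 1643], 35⟩]

/-- Moves. -/
noncomputable def t1_6 : List Mv := [
  mz,
  ⟨⟨-25, 12, -36, 22, -35, -36, 20, 28, -37⟩, (.cons (nat_lit 834) (nat_lit 1628) (nat_lit 1475) (nat_lit 1)
 (.cons (nat_lit 206) (nat_lit 375) (nat_lit 1748) (nat_lit 1) .nil)), (nat_lit 19), (nat_lit 60), (nat_lit
 46), (nat_lit 1), (2, 2, 36), [1469, 1430], 33⟩,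
  ⟨⟨21, -32, -49, 2, 35, -36, -28, -20, -13⟩, (.cons (nat_lit 369) (nat_lit 781) (nat_lit 1627) (nat_lit 1)
 (.cons (nat_lit 578) (nat_lit 370) (nat_lit 1159) (nat_lit 1) .nil)), (nat_lit 54), (nat_lit 24), (nat_lit
 13), (nat_lit 1), (33, 30, 3), [736, 1915], 56⟩,
  ⟨⟨39, 8, -56, -2, -45, -14, -12, 12, -37⟩, (.cons (nat_lit 118) (nat_lit 45) (nat_lit 568) (nat_lit 1) (.cons
 (nat_lit 1190) (nat_lit 1050) (nat_lit 1824) (nat_lit 1) .nil)), (nat_lit 20), (nat_lit 9), (nat_lit 28),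
 (nat_lit 1), (14, 27, 21), [529, 1193], 30⟩,
  mz,
  ⟨⟨-45, -16, 44, -22, 35, -14, -20, -28, -17⟩, (.cons (nat_lit 700) (nat_lit 1550) (nat_lit 1206) (nat_lit 1)
 (.cons (nat_lit 823) (nat_lit 911) (nat_lit 1116) (nat_lit 1) .nil)), (nat_lit 37), (nat_lit 8), (nat_lit 10),
 (nat_lit 1), (12, 9, 21), [1451, 287], 38⟩,
  mz,
  mz,
  mz,
  ⟨⟨-17, -48, 0, 40, -17, 0, 10, -16, -47⟩, (.cons (nat_lit 757) (nat_lit 1550) (nat_lit 224) (nat_lit 1)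
 (.cons (nat_lit 1728) (nat_lit 1589) (nat_lit 1) (nat_lit 846) .nil)), (nat_lit 57), (nat_lit 61), (nat_lit
 4), (nat_lit 1), (6, 8, 2), [527, 2059], 56⟩,
  mz,
  ⟨⟨17, 48, -17, -40, 17, 40, -10, 16, -37⟩, (.cons (nat_lit 560) (nat_lit 1183) (nat_lit 1828) (nat_lit 1)
 (.cons (nat_lit 1779) (nat_lit 466) (nat_lit 398) (nat_lit 1) .nil)), (nat_lit 29), (nat_lit 32), (nat_lit
 61), (nat_lit 1), (25, 2, 24), [513, 342], 69⟩,
  ⟨⟨17, -36, -45, -20, 23, -30, 38, 8, -37⟩, (.cons (nat_lit 28) (nat_lit 13) (nat_lit 149) (nat_lit 1) (.cons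
 (nat_lit 570) (nat_lit 1135) (nat_lit 2077) (nat_lit 1) .nil)), (nat_lit 5), (nat_lit 15), (nat_lit 3),
 (nat_lit 1), (19, 44, 1), [878, 178], 37⟩,
  mz,
  ⟨⟨39, -8, -56, -2, 45, -14, -12, -12, -37⟩, (.cons (nat_lit 1848) (nat_lit 1714) (nat_lit 967) (nat_lit 1)
 (.cons (nat_lit 1795) (nat_lit 516) (nat_lit 2025) (nat_lit 1) .nil)), (nat_lit 70), (nat_lit 11), (nat_lit
 31), (nat_lit 1), (3, 36, 28), [1263, 457], 28⟩,
  ⟨⟨9, 4, -61, 40, 23, -10, 22, -32, -29⟩, (.cons (nat_lit 1181) (nat_lit 475) (nat_lit 443) (nat_lit 1) (.cons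
 (nat_lit 892) (nat_lit 661) (nat_lit 1320) (nat_lit 1) .nil)), (nat_lit 37), (nat_lit 19), (nat_lit 32),
 (nat_lit 1), (18, 33, 44), [363, 927], 1⟩,
  ⟨⟨-9, -4, -52, -40, -23, 30, -22, 32, -7⟩, (.cons (nat_lit 1509) (nat_lit 200) (nat_lit 948) (nat_lit 1)
 (.cons (nat_lit 137) (nat_lit 1193) (nat_lit 580) (nat_lit 1) .nil)), (nat_lit 65), (nat_lit 30), (nat_lit
 52), (nat_lit 1), (36, 19, 41), [1641, 1823], 25⟩,
  mz,
  ⟨⟨19, 0, -63, 0, 47, 0, 42, 0, -23⟩, (.cons (nat_lit 1119) (nat_lit 1775) (nat_lit 1494) (nat_lit 1) (.cons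
 (nat_lit 1403) (nat_lit 1377) (nat_lit 943) (nat_lit 1) .nil)), (nat_lit 4), (nat_lit 54), (nat_lit 30),
 (nat_lit 1), (16, 0, 23), [1263, 1784], 18⟩,
  ⟨⟨45, -8, -49, -20, -33, -20, 6, 24, -41⟩, (.cons (nat_lit 249) (nat_lit 107) (nat_lit 1002) (nat_lit 1)
 (.cons (nat_lit 2079) (nat_lit 1295) (nat_lit 493) (nat_lit 1) .nil)), (nat_lit 33), (nat_lit 24), (nat_lit
 37), (nat_lit 1), (29, 8, 7), [76, 2045], 1⟩,
  ⟨⟨17, -36, 28, 20, -23, -50, 38, 8, -1⟩, (.cons (nat_lit 109) (nat_lit 709) (nat_lit 310) (nat_lit 1) (.cons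
 (nat_lit 1665) (nat_lit 1449) (nat_lit 1658) (nat_lit 1) .nil)), (nat_lit 69), (nat_lit 18), (nat_lit 37),
 (nat_lit 1), (2, 30, 10), [1658, 406], 57⟩,
  ⟨⟨21, 32, -49, 2, -35, -36, -28, 20, -13⟩, (.cons (nat_lit 456) (nat_lit 838) (nat_lit 360) (nat_lit 1)
 (.cons (nat_lit 333) (nat_lit 1589) (nat_lit 1486) (nat_lit 1) .nil)), (nat_lit 39), (nat_lit 7), (nat_lit 6),
 (nat_lit 1), (30, 23, 7), [265, 500], 1⟩,
  ⟨⟨45, 8, -49, 20, -33, 20, 6, -24, -41⟩, (.cons (nat_lit 922) (nat_lit 1560) (nat_lit 1322) (nat_lit 1)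
 (.cons (nat_lit 557) (nat_lit 381) (nat_lit 2009) (nat_lit 1) .nil)), (nat_lit 8), (nat_lit 9), (nat_lit 5),
 (nat_lit 1), (40, 23, 21), [45, 1651], 36⟩,
  mz,
  mz,
  ⟨⟨-45, 8, -4, 20, 33, -40, -6, -24, -35⟩, (.cons (nat_lit 1848) (nat_lit 340) (nat_lit 862) (nat_lit 1)
 (.cons (nat_lit 1084) (nat_lit 431) (nat_lit 1459) (nat_lit 1) .nil)), (nat_lit 70), (nat_lit 22), (nat_lit
 68), (nat_lit 1), (40, 24, 21), [243, 1820], 2⟩,
  ⟨⟨-21, 32, -28, -2, -35, -34, 28, 20, -41⟩, (.cons (nat_lit 1092) (nat_lit 1010) (nat_lit 199) (nat_lit 1)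
 (.cons (nat_lit 1274) (nat_lit 140) (nat_lit 1035) (nat_lit 1) .nil)), (nat_lit 19), (nat_lit 26), (nat_lit
 57), (nat_lit 1), (30, 23, 7), [437, 41], 33⟩,
  ⟨⟨17, 36, -45, -20, -23, -30, 38, -8, -37⟩, (.cons (nat_lit 211) (nat_lit 1386) (nat_lit 347) (nat_lit 1)
 (.cons (nat_lit 404) (nat_lit 600) (nat_lit 653) (nat_lit 1) .nil)), (nat_lit 42), (nat_lit 46), (nat_lit 46),
 (nat_lit 1), (45, 30, 37), [1426, 403], 66⟩,
  ⟨⟨39, 32, -31, 20, -33, -40, -6, 24, -35⟩, (.cons (nat_lit 1109) (nat_lit 624) (nat_lit 159) (nat_lit 1)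
 (.cons (nat_lit 2004) (nat_lit 156) (nat_lit 262) (nat_lit 1) .nil)), (nat_lit 9), (nat_lit 61), (nat_lit 26),
 (nat_lit 1), (25, 8, 7), [377, 894], 5⟩,
  ⟨⟨19, 0, 44, 0, -47, 0, 42, 0, -19⟩, (.cons (nat_lit 1848) (nat_lit 55) (nat_lit 1645) (nat_lit 1) (.cons
 (nat_lit 1626) (nat_lit 16) (nat_lit 1962) (nat_lit 1) .nil)), (nat_lit 70), (nat_lit 16), (nat_lit 3),
 (nat_lit 1), (31, 0, 24), [328, 1160], 40⟩,
  mz,
  ⟨⟨9, -4, -61, 40, -23, -10, 22, 32, -29⟩, (.cons (nat_lit 1415) (nat_lit 372) (nat_lit 729) (nat_lit 1)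
 (.cons (nat_lit 1469) (nat_lit 1394) (nat_lit 1785) (nat_lit 1) .nil)), (nat_lit 42), (nat_lit 26), (nat_lit
 65), (nat_lit 1), (36, 19, 41), [738, 1696], 66⟩,
  ⟨⟨-9, 4, -52, -40, 23, 30, -22, -32, -7⟩, (.cons (nat_lit 1055) (nat_lit 1206) (nat_lit 546) (nat_lit 1)
 (.cons (nat_lit 883) (nat_lit 402) (nat_lit 1168) (nat_lit 1) .nil)), (nat_lit 55), (nat_lit 64), (nat_lit
 54), (nat_lit 1), (18, 33, 44), [148, 345], 26⟩,
  ⟨⟨51, -4, -32, 2, 45, -16, 12, -12, -49⟩, (.cons (nat_lit 1848) (nat_lit 92) (nat_lit 194) (nat_lit 1) (.cons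
 (nat_lit 1770) (nat_lit 69) (nat_lit 122) (nat_lit 1) .nil)), (nat_lit 70), (nat_lit 63), (nat_lit 64),
 (nat_lit 1), (25, 36, 28), [1306, 21], 52⟩,
  mz,
  ⟨⟨17, 36, 28, -20, -23, 50, 38, -8, -1⟩, (.cons (nat_lit 1176) (nat_lit 1776) (nat_lit 1356) (nat_lit 1)
 (.cons (nat_lit 961) (nat_lit 1130) (nat_lit 196) (nat_lit 1) .nil)), (nat_lit 31), (nat_lit 4), (nat_lit 30),
 (nat_lit 1), (28, 3, 46), [154, 381], 6⟩,
  ⟨⟨-17, 48, 0, -40, -17, 0, 10, 16, -47⟩, (.cons (nat_lit 1424) (nat_lit 506) (nat_lit 901) (nat_lit 1) (.cons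
 (nat_lit 599) (nat_lit 1807) (nat_lit 312) (nat_lit 1) .nil)), (nat_lit 5), (nat_lit 50), (nat_lit 51),
 (nat_lit 1), (25, 45, 24), [1006, 2099], 51⟩,
  mz,
  ⟨⟨17, -48, -17, 40, 17, -40, -10, -16, -37⟩, (.cons (nat_lit 1721) (nat_lit 965) (nat_lit 1277) (nat_lit 1)
 (.cons (nat_lit 894) (nat_lit 1313) (nat_lit 256) (nat_lit 1) .nil)), (nat_lit 29), (nat_lit 53), (nat_lit 2),
 (nat_lit 1), (6, 39, 2), [728, 1675], 69⟩,
  mz,
  mz,
  mz,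
  ⟨⟨-25, -12, -36, -22, -35, 36, 20, -28, -37⟩, (.cons (nat_lit 511) (nat_lit 884) (nat_lit 1542) (nat_lit 1)
 (.cons (nat_lit 1732) (nat_lit 963) (nat_lit 1300) (nat_lit 1) .nil)), (nat_lit 53), (nat_lit 30), (nat_lit
 44), (nat_lit 1), (9, 38, 21), [1035, 2083], 51⟩,
  mz,
  ⟨⟨51, 4, -32, 2, -45, -16, 12, 12, -49⟩, (.cons (nat_lit 1623) (nat_lit 643) (nat_lit 1797) (nat_lit 1)
 (.cons (nat_lit 1664) (nat_lit 1547) (nat_lit 331) (nat_lit 1) .nil)), (nat_lit 20), (nat_lit 22), (nat_lit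
 5), (nat_lit 1), (7, 27, 21), [314, 2095], 30⟩,
  ⟨⟨-21, -32, -28, -2, 35, -34, 28, -20, -41⟩, (.cons (nat_lit 663) (nat_lit 394) (nat_lit 1039) (nat_lit 1)
 (.cons (nat_lit 1271) (nat_lit 1430) (nat_lit 1918) (nat_lit 1) .nil)), (nat_lit 48), (nat_lit 42), (nat_lit
 17), (nat_lit 1), (33, 30, 3), [220, 2109], 9⟩,
  ⟨⟨25, 12, -61, 22, 35, 14, -20, 28, -17⟩, (.cons (nat_lit 1272) (nat_lit 1771) (nat_lit 182) (nat_lit 1)
 (.cons (nat_lit 409) (nat_lit 39) (nat_lit 391) (nat_lit 1) .nil)), (nat_lit 5), (nat_lit 48), (nat_lit 12),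
 (nat_lit 1), (2, 45, 36), [1510, 1586], 70⟩]

/-- Moves. -/
noncomputable def t1_7 : List Mv := [
  mz,
  ⟨⟨45, 16, -1, 22, -35, -36, 20, 28, -37⟩, (.cons (nat_lit 241) (nat_lit 49) (nat_lit 615) (nat_lit 1) (.cons
 (nat_lit 217) (nat_lit 236) (nat_lit 197) (nat_lit 1) .nil)), (nat_lit 39), (nat_lit 25), (nat_lit 67),
 (nat_lit 1), (34, 2, 36), [222, 114], 1⟩,
  ⟨⟨21, -32, -49, 2, 35, -36, -28, -20, -13⟩, (.cons (nat_lit 369) (nat_lit 781) (nat_lit 1627) (nat_lit 1)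
 (.cons (nat_lit 578) (nat_lit 370) (nat_lit 1159) (nat_lit 1) .nil)), (nat_lit 54), (nat_lit 24), (nat_lit
 13), (nat_lit 1), (33, 30, 3), [736, 1915], 56⟩,
  ⟨⟨39, 8, -56, 2, 45, 14, -12, 12, -37⟩, (.cons (nat_lit 1848) (nat_lit 148) (nat_lit 1134) (nat_lit 1) (.cons
 (nat_lit 1122) (nat_lit 1160) (nat_lit 1126) (nat_lit 1) .nil)), (nat_lit 70), (nat_lit 30), (nat_lit 35),
 (nat_lit 1), (14, 20, 21), [317, 1728], 52⟩,
  mz,
  ⟨⟨-45, -16, 44, -22, 35, -14, -20, -28, -17⟩, (.cons (nat_lit 700) (nat_lit 1550) (nat_lit 1206) (nat_lit 1)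
 (.cons (nat_lit 823) (nat_lit 911) (nat_lit 1116) (nat_lit 1) .nil)), (nat_lit 37), (nat_lit 8), (nat_lit 10),
 (nat_lit 1), (12, 9, 21), [1451, 287], 38⟩,
  mz,
  mz,
  mz,
  ⟨⟨27, 32, -47, -40, 17, 0, 10, -16, -47⟩, (.cons (nat_lit 130) (nat_lit 282) (nat_lit 400) (nat_lit 1) (.cons
 (nat_lit 1211) (nat_lit 1316) (nat_lit 278) (nat_lit 1) .nil)), (nat_lit 49), (nat_lit 30), (nat_lit 44),
 (nat_lit 1), (43, 39, 2), [1803, 152], 26⟩,
  mz,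
  ⟨⟨17, 48, -17, 40, -17, -40, -10, 16, -37⟩, (.cons (nat_lit 339) (nat_lit 1409) (nat_lit 776) (nat_lit 1)
 (.cons (nat_lit 1602) (nat_lit 1282) (nat_lit 178) (nat_lit 1) .nil)), (nat_lit 14), (nat_lit 16), (nat_lit
 1), (nat_lit 0), (25, 45, 24), [1350, 933], 29⟩,
  ⟨⟨17, -36, -45, 20, -23, 30, 38, 8, -37⟩, (.cons (nat_lit 290) (nat_lit 1670) (nat_lit 796) (nat_lit 1)
 (.cons (nat_lit 853) (nat_lit 288) (nat_lit 1619) (nat_lit 1) .nil)), (nat_lit 17), (nat_lit 46), (nat_lit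
 68), (nat_lit 1), (19, 3, 1), [1492, 1529], 28⟩,
  mz,
  ⟨⟨39, -8, -56, 2, -45, 14, -12, -12, -37⟩, (.cons (nat_lit 1802) (nat_lit 266) (nat_lit 810) (nat_lit 1)
 (.cons (nat_lit 349) (nat_lit 1415) (nat_lit 132) (nat_lit 1) .nil)), (nat_lit 32), (nat_lit 67), (nat_lit
 27), (nat_lit 1), (3, 11, 28), [1842, 1334], 48⟩,
  ⟨⟨9, 4, -61, -40, -23, 10, 22, -32, -29⟩, (.cons (nat_lit 677) (nat_lit 1610) (nat_lit 655) (nat_lit 1)
 (.cons (nat_lit 291) (nat_lit 249) (nat_lit 1112) (nat_lit 1) .nil)), (nat_lit 17), (nat_lit 23), (nat_lit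
 65), (nat_lit 1), (18, 14, 44), [1019, 472], 28⟩,
  ⟨⟨-13, 36, 45, 40, 23, -30, -22, 32, -7⟩, (.cons (nat_lit 1533) (nat_lit 444) (nat_lit 37) (nat_lit 1) (.cons
 (nat_lit 2015) (nat_lit 1298) (nat_lit 2026) (nat_lit 1) .nil)), (nat_lit 48), (nat_lit 61), (nat_lit 14),
 (nat_lit 1), (5, 28, 41), [706, 977], 32⟩,
  mz,
  ⟨⟨19, 0, -63, 0, -47, 0, 42, 0, -23⟩, (.cons (nat_lit 861) (nat_lit 1716) (nat_lit 1136) (nat_lit 1) (.cons
 (nat_lit 1748) (nat_lit 1366) (nat_lit 963) (nat_lit 1) .nil)), (nat_lit 47), (nat_lit 47), (nat_lit 34),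
 (nat_lit 1), (16, 0, 23), [1084, 1564], 51⟩,
  ⟨⟨-39, 32, 8, -20, -33, -20, 6, 24, -41⟩, (.cons (nat_lit 1127) (nat_lit 1699) (nat_lit 830) (nat_lit 1)
 (.cons (nat_lit 1775) (nat_lit 303) (nat_lit 587) (nat_lit 1) .nil)), (nat_lit 9), (nat_lit 19), (nat_lit 5),
 (nat_lit 1), (25, 8, 7), [1237, 1575], 66⟩,
  ⟨⟨17, -36, 28, 20, -23, -50, 38, 8, -1⟩, (.cons (nat_lit 109) (nat_lit 709) (nat_lit 310) (nat_lit 1) (.cons
 (nat_lit 1665) (nat_lit 1449) (nat_lit 1658) (nat_lit 1) .nil)), (nat_lit 69), (nat_lit 18), (nat_lit 37),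
 (nat_lit 1), (2, 30, 10), [1658, 406], 57⟩,
  ⟨⟨-49, -12, 36, 2, -35, -36, -28, 20, -13⟩, (.cons (nat_lit 275) (nat_lit 968) (nat_lit 1220) (nat_lit 1)
 (.cons (nat_lit 748) (nat_lit 808) (nat_lit 499) (nat_lit 1) .nil)), (nat_lit 67), (nat_lit 49), (nat_lit 34),
 (nat_lit 1), (24, 23, 7), [7, 406], 35⟩,
  ⟨⟨-39, -32, 8, 20, -33, 20, 6, -24, -41⟩, (.cons (nat_lit 1744) (nat_lit 891) (nat_lit 247) (nat_lit 1)
 (.cons (nat_lit 1041) (nat_lit 324) (nat_lit 928) (nat_lit 1) .nil)), (nat_lit 8), (nat_lit 61), (nat_lit 31),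
 (nat_lit 1), (28, 23, 21), [1550, 1416], 35⟩,
  mz,
  mz,
  ⟨⟨39, -32, -31, -20, -33, 40, -6, -24, -35⟩, (.cons (nat_lit 750) (nat_lit 1106) (nat_lit 1043) (nat_lit 1)
 (.cons (nat_lit 483) (nat_lit 547) (nat_lit 1099) (nat_lit 1) .nil)), (nat_lit 28), (nat_lit 38), (nat_lit
 29), (nat_lit 1), (28, 23, 21), [1120, 178], 3⟩,
  ⟨⟨-21, 32, -28, -2, -35, -34, 28, 20, -41⟩, (.cons (nat_lit 1092) (nat_lit 1010) (nat_lit 199) (nat_lit 1)
 (.cons (nat_lit 1274) (nat_lit 140) (nat_lit 1035) (nat_lit 1) .nil)), (nat_lit 19), (nat_lit 26), (nat_lit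
 57), (nat_lit 1), (30, 23, 7), [437, 41], 33⟩,
  ⟨⟨17, 36, -45, -20, -23, -30, 38, -8, -37⟩, (.cons (nat_lit 211) (nat_lit 1386) (nat_lit 347) (nat_lit 1)
 (.cons (nat_lit 404) (nat_lit 600) (nat_lit 653) (nat_lit 1) .nil)), (nat_lit 42), (nat_lit 46), (nat_lit 46),
 (nat_lit 1), (45, 30, 37), [1426, 403], 66⟩,
  ⟨⟨39, 32, -31, -20, 33, 40, -6, 24, -35⟩, (.cons (nat_lit 1506) (nat_lit 1323) (nat_lit 799) (nat_lit 1)
 (.cons (nat_lit 1918) (nat_lit 830) (nat_lit 472) (nat_lit 1) .nil)), (nat_lit 61), (nat_lit 14), (nat_lit 1),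
 (nat_lit 1), (25, 39, 7), [1318, 1058], 63⟩,
  ⟨⟨23, 0, -63, 0, -47, 0, 42, 0, -19⟩, (.cons (nat_lit 732) (nat_lit 547) (nat_lit 1000) (nat_lit 1) (.cons
 (nat_lit 207) (nat_lit 2146) (nat_lit 1351) (nat_lit 1) .nil)), (nat_lit 18), (nat_lit 22), (nat_lit 28),
 (nat_lit 1), (40, 0, 24), [1231, 831], 61⟩,
  mz,
  ⟨⟨9, -4, -61, 40, -23, -10, 22, 32, -29⟩, (.cons (nat_lit 1415) (nat_lit 372) (nat_lit 729) (nat_lit 1)
 (.cons (nat_lit 1469) (nat_lit 1394) (nat_lit 1785) (nat_lit 1) .nil)), (nat_lit 42), (nat_lit 26), (nat_lit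
 65), (nat_lit 1), (36, 19, 41), [738, 1696], 66⟩,
  ⟨⟨-13, -36, 45, 40, -23, -30, -22, -32, -7⟩, (.cons (nat_lit 333) (nat_lit 712) (nat_lit 936) (nat_lit 1)
 (.cons (nat_lit 2007) (nat_lit 1130) (nat_lit 43) (nat_lit 1) .nil)), (nat_lit 22), (nat_lit 53), (nat_lit
 53), (nat_lit 1), (26, 14, 44), [1234, 194], 65⟩,
  ⟨⟨51, -4, -32, -2, -45, 16, 12, -12, -49⟩, (.cons (nat_lit 1759) (nat_lit 551) (nat_lit 867) (nat_lit 1)
 (.cons (nat_lit 203) (nat_lit 1335) (nat_lit 1734) (nat_lit 1) .nil)), (nat_lit 32), (nat_lit 6), (nat_lit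
 53), (nat_lit 1), (25, 11, 28), [1025, 345], 48⟩,
  mz,
  ⟨⟨17, 36, 28, 20, 23, -50, 38, -8, -1⟩, (.cons (nat_lit 484) (nat_lit 1197) (nat_lit 1569) (nat_lit 1) (.cons
 (nat_lit 168) (nat_lit 1196) (nat_lit 34) (nat_lit 1) .nil)), (nat_lit 59), (nat_lit 5), (nat_lit 56),
 (nat_lit 1), (28, 44, 46), [400, 734], 21⟩,
  ⟨⟨27, -32, -47, 40, 17, 0, 10, 16, -47⟩, (.cons (nat_lit 1291) (nat_lit 21) (nat_lit 1225) (nat_lit 1) (.cons
 (nat_lit 316) (nat_lit 2207) (nat_lit 738) (nat_lit 1) .nil)), (nat_lit 49), (nat_lit 65), (nat_lit 64),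
 (nat_lit 1), (46, 2, 24), [169, 417], 26⟩,
  mz,
  ⟨⟨17, -48, -17, 40, 17, -40, -10, -16, -37⟩, (.cons (nat_lit 1721) (nat_lit 965) (nat_lit 1277) (nat_lit 1)
 (.cons (nat_lit 894) (nat_lit 1313) (nat_lit 256) (nat_lit 1) .nil)), (nat_lit 29), (nat_lit 53), (nat_lit 2),
 (nat_lit 1), (6, 39, 2), [728, 1675], 69⟩,
  mz,
  mz,
  mz,
  ⟨⟨45, -16, -1, 22, 35, -36, 20, -28, -37⟩, (.cons (nat_lit 1321) (nat_lit 1808) (nat_lit 471) (nat_lit 1)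
 (.cons (nat_lit 630) (nat_lit 554) (nat_lit 296) (nat_lit 1) .nil)), (nat_lit 57), (nat_lit 61), (nat_lit 42),
 (nat_lit 1), (12, 9, 21), [1021, 2097], 17⟩,
  mz,
  ⟨⟨51, 4, -32, 2, -45, -16, 12, 12, -49⟩, (.cons (nat_lit 1623) (nat_lit 643) (nat_lit 1797) (nat_lit 1)
 (.cons (nat_lit 1664) (nat_lit 1547) (nat_lit 331) (nat_lit 1) .nil)), (nat_lit 20), (nat_lit 22), (nat_lit
 5), (nat_lit 1), (7, 27, 21), [314, 2095], 30⟩,
  ⟨⟨-21, -32, -28, -2, 35, -34, 28, -20, -41⟩, (.cons (nat_lit 663) (nat_lit 394) (nat_lit 1039) (nat_lit 1)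
 (.cons (nat_lit 1271) (nat_lit 1430) (nat_lit 1918) (nat_lit 1) .nil)), (nat_lit 48), (nat_lit 42), (nat_lit
 17), (nat_lit 1), (33, 30, 3), [220, 2109], 9⟩,
  ⟨⟨-45, 16, 44, -22, -35, -14, -20, 28, -17⟩, (.cons (nat_lit 533) (nat_lit 221) (nat_lit 374) (nat_lit 1)
 (.cons (nat_lit 1571) (nat_lit 299) (nat_lit 225) (nat_lit 1) .nil)), (nat_lit 67), (nat_lit 47), (nat_lit
 43), (nat_lit 1), (34, 2, 36), [824, 1643], 35⟩]

/-- Moves. -/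
noncomputable def t1_9 : List Mv := [
  mz,
  ⟨⟨45, 16, -1, 22, -35, -36, 20, 28, -37⟩, (.cons (nat_lit 241) (nat_lit 49) (nat_lit 615) (nat_lit 1) (.cons
 (nat_lit 217) (nat_lit 236) (nat_lit 197) (nat_lit 1) .nil)), (nat_lit 39), (nat_lit 25), (nat_lit 67),
 (nat_lit 1), (34, 2, 36), [222, 114], 1⟩,
  ⟨⟨21, -32, -49, 2, 35, -36, -28, -20, -13⟩, (.cons (nat_lit 369) (nat_lit 781) (nat_lit 1627) (nat_lit 1)
 (.cons (nat_lit 578) (nat_lit 370) (nat_lit 1159) (nat_lit 1) .nil)), (nat_lit 54), (nat_lit 24), (nat_lit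
 13), (nat_lit 1), (33, 30, 3), [736, 1915], 56⟩,
  ⟨⟨39, 8, -56, 2, 45, 14, -12, 12, -37⟩, (.cons (nat_lit 1848) (nat_lit 148) (nat_lit 1134) (nat_lit 1) (.cons
 (nat_lit 1122) (nat_lit 1160) (nat_lit 1126) (nat_lit 1) .nil)), (nat_lit 70), (nat_lit 30), (nat_lit 35),
 (nat_lit 1), (14, 20, 21), [317, 1728], 52⟩,
  mz,
  ⟨⟨25, -12, -61, -22, 35, -14, -20, -28, -17⟩, (.cons (nat_lit 461) (nat_lit 514) (nat_lit 647) (nat_lit 1)
 (.cons (nat_lit 211) (nat_lit 781) (nat_lit 2056) (nat_lit 1) .nil)), (nat_lit 25), (nat_lit 39), (nat_lit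
 30), (nat_lit 1), (9, 9, 21), [1150, 1791], 68⟩,
  mz,
  mz,
  mz,
  ⟨⟨27, 32, -47, -40, 17, 0, 10, -16, -47⟩, (.cons (nat_lit 130) (nat_lit 282) (nat_lit 400) (nat_lit 1) (.cons
 (nat_lit 1211) (nat_lit 1316) (nat_lit 278) (nat_lit 1) .nil)), (nat_lit 49), (nat_lit 30), (nat_lit 44),
 (nat_lit 1), (43, 39, 2), [1803, 152], 26⟩,
  mz,
  ⟨⟨-27, -32, -20, -40, 17, 40, -10, 16, -37⟩, (.cons (nat_lit 1848) (nat_lit 623) (nat_lit 1140) (nat_lit 1)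
 (.cons (nat_lit 1746) (nat_lit 756) (nat_lit 163) (nat_lit 1) .nil)), (nat_lit 70), (nat_lit 0), (nat_lit 63),
 (nat_lit 1), (46, 2, 24), [1459, 13], 24⟩,
  ⟨⟨21, 44, 8, -20, 23, -30, 38, 8, -37⟩, (.cons (nat_lit 144) (nat_lit 460) (nat_lit 1568) (nat_lit 1) (.cons
 (nat_lit 88) (nat_lit 1873) (nat_lit 197) (nat_lit 1) .nil)), (nat_lit 35), (nat_lit 12), (nat_lit 5),
 (nat_lit 1), (29, 44, 1), [1222, 2199], 39⟩,
  mz,
  ⟨⟨39, -8, -56, 2, -45, 14, -12, -12, -37⟩, (.cons (nat_lit 1802) (nat_lit 266) (nat_lit 810) (nat_lit 1)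
 (.cons (nat_lit 349) (nat_lit 1415) (nat_lit 132) (nat_lit 1) .nil)), (nat_lit 32), (nat_lit 67), (nat_lit
 27), (nat_lit 1), (3, 11, 28), [1842, 1334], 48⟩,
  ⟨⟨9, 4, -61, 40, 23, -10, 22, -32, -29⟩, (.cons (nat_lit 1181) (nat_lit 475) (nat_lit 443) (nat_lit 1) (.cons
 (nat_lit 892) (nat_lit 661) (nat_lit 1320) (nat_lit 1) .nil)), (nat_lit 37), (nat_lit 19), (nat_lit 32),
 (nat_lit 1), (18, 33, 44), [363, 927], 1⟩,
  ⟨⟨-13, 36, 45, -40, -23, 30, -22, 32, -7⟩, (.cons (nat_lit 899) (nat_lit 58) (nat_lit 1808) (nat_lit 1)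
 (.cons (nat_lit 1931) (nat_lit 499) (nat_lit 909) (nat_lit 1) .nil)), (nat_lit 46), (nat_lit 14), (nat_lit
 67), (nat_lit 1), (5, 19, 41), [1297, 1024], 34⟩,
  mz,
  ⟨⟨19, 0, -63, 0, -47, 0, 42, 0, -23⟩, (.cons (nat_lit 861) (nat_lit 1716) (nat_lit 1136) (nat_lit 1) (.cons
 (nat_lit 1748) (nat_lit 1366) (nat_lit 963) (nat_lit 1) .nil)), (nat_lit 47), (nat_lit 47), (nat_lit 34),
 (nat_lit 1), (16, 0, 23), [1084, 1564], 51⟩,
  ⟨⟨45, -8, -49, 20, 33, 20, 6, 24, -41⟩, (.cons (nat_lit 345) (nat_lit 268) (nat_lit 1695) (nat_lit 1) (.cons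
 (nat_lit 2116) (nat_lit 1643) (nat_lit 1452) (nat_lit 1) .nil)), (nat_lit 7), (nat_lit 44), (nat_lit 64),
 (nat_lit 1), (29, 39, 7), [243, 9], 34⟩,
  ⟨⟨17, -36, 28, 20, -23, -50, 38, 8, -1⟩, (.cons (nat_lit 109) (nat_lit 709) (nat_lit 310) (nat_lit 1) (.cons
 (nat_lit 1665) (nat_lit 1449) (nat_lit 1658) (nat_lit 1) .nil)), (nat_lit 69), (nat_lit 18), (nat_lit 37),
 (nat_lit 1), (2, 30, 10), [1658, 406], 57⟩,
  ⟨⟨21, 32, -49, 2, -35, -36, -28, 20, -13⟩, (.cons (nat_lit 456) (nat_lit 838) (nat_lit 360) (nat_lit 1)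
 (.cons (nat_lit 333) (nat_lit 1589) (nat_lit 1486) (nat_lit 1) .nil)), (nat_lit 39), (nat_lit 7), (nat_lit 6),
 (nat_lit 1), (30, 23, 7), [265, 500], 1⟩,
  ⟨⟨45, 8, -49, 20, -33, 20, 6, -24, -41⟩, (.cons (nat_lit 922) (nat_lit 1560) (nat_lit 1322) (nat_lit 1)
 (.cons (nat_lit 557) (nat_lit 381) (nat_lit 2009) (nat_lit 1) .nil)), (nat_lit 8), (nat_lit 9), (nat_lit 5),
 (nat_lit 1), (40, 23, 21), [45, 1651], 36⟩,
  mz,
  mz,
  ⟨⟨-45, 8, -4, -20, -33, 40, -6, -24, -35⟩, (.cons (nat_lit 282) (nat_lit 1345) (nat_lit 1817) (nat_lit 1)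
 (.cons (nat_lit 927) (nat_lit 1192) (nat_lit 1428) (nat_lit 1) .nil)), (nat_lit 8), (nat_lit 70), (nat_lit
 26), (nat_lit 1), (40, 23, 21), [1464, 319], 35⟩,
  ⟨⟨-21, 32, -28, -2, -35, -34, 28, 20, -41⟩, (.cons (nat_lit 1092) (nat_lit 1010) (nat_lit 199) (nat_lit 1)
 (.cons (nat_lit 1274) (nat_lit 140) (nat_lit 1035) (nat_lit 1) .nil)), (nat_lit 19), (nat_lit 26), (nat_lit
 57), (nat_lit 1), (30, 23, 7), [437, 41], 33⟩,
  ⟨⟨21, -44, 8, -20, -23, -30, 38, -8, -37⟩, (.cons (nat_lit 1294) (nat_lit 1366) (nat_lit 1336) (nat_lit 1)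
 (.cons (nat_lit 1429) (nat_lit 481) (nat_lit 2204) (nat_lit 1) .nil)), (nat_lit 65), (nat_lit 51), (nat_lit
 64), (nat_lit 1), (39, 30, 37), [1039, 1625], 25⟩,
  ⟨⟨-45, -8, -4, -20, 33, 40, -6, 24, -35⟩, (.cons (nat_lit 1848) (nat_lit 1429) (nat_lit 1057) (nat_lit 1)
 (.cons (nat_lit 1701) (nat_lit 1332) (nat_lit 378) (nat_lit 1) .nil)), (nat_lit 70), (nat_lit 30), (nat_lit
 63), (nat_lit 1), (29, 39, 7), [1017, 1857], 15⟩,
  ⟨⟨23, 0, -63, 0, -47, 0, 42, 0, -19⟩, (.cons (nat_lit 732) (nat_lit 547) (nat_lit 1000) (nat_lit 1) (.cons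
 (nat_lit 207) (nat_lit 2146) (nat_lit 1351) (nat_lit 1) .nil)), (nat_lit 18), (nat_lit 22), (nat_lit 28),
 (nat_lit 1), (40, 0, 24), [1231, 831], 61⟩,
  mz,
  ⟨⟨9, -4, -61, 40, -23, -10, 22, 32, -29⟩, (.cons (nat_lit 1415) (nat_lit 372) (nat_lit 729) (nat_lit 1)
 (.cons (nat_lit 1469) (nat_lit 1394) (nat_lit 1785) (nat_lit 1) .nil)), (nat_lit 42), (nat_lit 26), (nat_lit
 65), (nat_lit 1), (36, 19, 41), [738, 1696], 66⟩,
  ⟨⟨-13, -36, 45, -40, 23, 30, -22, -32, -7⟩, (.cons (nat_lit 1783) (nat_lit 858) (nat_lit 589) (nat_lit 1)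
 (.cons (nat_lit 292) (nat_lit 1196) (nat_lit 369) (nat_lit 1) .nil)), (nat_lit 57), (nat_lit 68), (nat_lit
 42), (nat_lit 1), (26, 33, 44), [836, 768], 10⟩,
  ⟨⟨51, -4, -32, 2, 45, -16, 12, -12, -49⟩, (.cons (nat_lit 1848) (nat_lit 92) (nat_lit 194) (nat_lit 1) (.cons
 (nat_lit 1770) (nat_lit 69) (nat_lit 122) (nat_lit 1) .nil)), (nat_lit 70), (nat_lit 63), (nat_lit 64),
 (nat_lit 1), (25, 36, 28), [1306, 21], 52⟩,
  mz,
  ⟨⟨17, 36, 28, 20, 23, -50, 38, -8, -1⟩, (.cons (nat_lit 484) (nat_lit 1197) (nat_lit 1569) (nat_lit 1) (.cons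
 (nat_lit 168) (nat_lit 1196) (nat_lit 34) (nat_lit 1) .nil)), (nat_lit 59), (nat_lit 5), (nat_lit 56),
 (nat_lit 1), (28, 44, 46), [400, 734], 21⟩,
  ⟨⟨27, -32, -47, -40, -17, 0, 10, 16, -47⟩, (.cons (nat_lit 1543) (nat_lit 397) (nat_lit 1718) (nat_lit 1)
 (.cons (nat_lit 59) (nat_lit 2000) (nat_lit 1111) (nat_lit 1) .nil)), (nat_lit 14), (nat_lit 42), (nat_lit
 47), (nat_lit 1), (46, 45, 24), [361, 313], 38⟩,
  mz,
  ⟨⟨-27, 32, -20, -40, -17, 40, -10, -16, -37⟩, (.cons (nat_lit 1316) (nat_lit 256) (nat_lit 335) (nat_lit 1)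
 (.cons (nat_lit 1516) (nat_lit 1800) (nat_lit 2193) (nat_lit 1) .nil)), (nat_lit 57), (nat_lit 64), (nat_lit
 26), (nat_lit 1), (43, 8, 2), [914, 610], 56⟩,
  mz,
  mz,
  mz,
  ⟨⟨45, -16, -1, 22, 35, -36, 20, -28, -37⟩, (.cons (nat_lit 1321) (nat_lit 1808) (nat_lit 471) (nat_lit 1)
 (.cons (nat_lit 630) (nat_lit 554) (nat_lit 296) (nat_lit 1) .nil)), (nat_lit 57), (nat_lit 61), (nat_lit 42),
 (nat_lit 1), (12, 9, 21), [1021, 2097], 17⟩,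
  mz,
  ⟨⟨51, 4, -32, 2, -45, -16, 12, 12, -49⟩, (.cons (nat_lit 1623) (nat_lit 643) (nat_lit 1797) (nat_lit 1)
 (.cons (nat_lit 1664) (nat_lit 1547) (nat_lit 331) (nat_lit 1) .nil)), (nat_lit 20), (nat_lit 22), (nat_lit
 5), (nat_lit 1), (7, 27, 21), [314, 2095], 30⟩,
  ⟨⟨-21, -32, -28, -2, 35, -34, 28, -20, -41⟩, (.cons (nat_lit 663) (nat_lit 394) (nat_lit 1039) (nat_lit 1)
 (.cons (nat_lit 1271) (nat_lit 1430) (nat_lit 1918) (nat_lit 1) .nil)), (nat_lit 48), (nat_lit 42), (nat_lit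
 17), (nat_lit 1), (33, 30, 3), [220, 2109], 9⟩,
  ⟨⟨25, 12, -61, -22, -35, -14, -20, 28, -17⟩, (.cons (nat_lit 241) (nat_lit 1456) (nat_lit 1363) (nat_lit 1)
 (.cons (nat_lit 685) (nat_lit 1440) (nat_lit 601) (nat_lit 1) .nil)), (nat_lit 22), (nat_lit 26), (nat_lit
 34), (nat_lit 1), (2, 2, 36), [222, 1173], 27⟩]

/-- Moves. -/
noncomputable def t1_10 : List Mv := [
  mz,
  ⟨⟨45, 16, -1, 22, -35, -36, 20, 28, -37⟩, (.cons (nat_lit 241) (nat_lit 49) (nat_lit 615) (nat_lit 1) (.cons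
 (nat_lit 217) (nat_lit 236) (nat_lit 197) (nat_lit 1) .nil)), (nat_lit 39), (nat_lit 25), (nat_lit 67),
 (nat_lit 1), (34, 2, 36), [222, 114], 1⟩,
  ⟨⟨-49, 12, 36, -2, -35, 36, -28, -20, -13⟩, (.cons (nat_lit 1328) (nat_lit 1346) (nat_lit 1140) (nat_lit 1)
 (.cons (nat_lit 1674) (nat_lit 1981) (nat_lit 1580) (nat_lit 1) .nil)), (nat_lit 15), (nat_lit 23), (nat_lit
 20), (nat_lit 1), (17, 17, 3), [734, 362], 41⟩,
  ⟨⟨39, 8, -56, 2, 45, 14, -12, 12, -37⟩, (.cons (nat_lit 1848) (nat_lit 148) (nat_lit 1134) (nat_lit 1) (.cons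
 (nat_lit 1122) (nat_lit 1160) (nat_lit 1126) (nat_lit 1) .nil)), (nat_lit 70), (nat_lit 30), (nat_lit 35),
 (nat_lit 1), (14, 20, 21), [317, 1728], 52⟩,
  mz,
  ⟨⟨-45, -16, 44, -22, 35, -14, -20, -28, -17⟩, (.cons (nat_lit 700) (nat_lit 1550) (nat_lit 1206) (nat_lit 1)
 (.cons (nat_lit 823) (nat_lit 911) (nat_lit 1116) (nat_lit 1) .nil)), (nat_lit 37), (nat_lit 8), (nat_lit 10),
 (nat_lit 1), (12, 9, 21), [1451, 287], 38⟩,
  mz,
  mz,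
  mz,
  ⟨⟨27, 32, -47, -40, 17, 0, 10, -16, -47⟩, (.cons (nat_lit 130) (nat_lit 282) (nat_lit 400) (nat_lit 1) (.cons
 (nat_lit 1211) (nat_lit 1316) (nat_lit 278) (nat_lit 1) .nil)), (nat_lit 49), (nat_lit 30), (nat_lit 44),
 (nat_lit 1), (43, 39, 2), [1803, 152], 26⟩,
  mz,
  ⟨⟨-27, -32, -20, 40, -17, -40, -10, 16, -37⟩, (.cons (nat_lit 392) (nat_lit 1343) (nat_lit 1808) (nat_lit 1)
 (.cons (nat_lit 1735) (nat_lit 2196) (nat_lit 1071) (nat_lit 1) .nil)), (nat_lit 5), (nat_lit 35), (nat_lit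
 12), (nat_lit 1), (46, 45, 24), [705, 2014], 51⟩,
  ⟨⟨17, -36, -45, -20, 23, -30, 38, 8, -37⟩, (.cons (nat_lit 28) (nat_lit 13) (nat_lit 149) (nat_lit 1) (.cons
 (nat_lit 570) (nat_lit 1135) (nat_lit 2077) (nat_lit 1) .nil)), (nat_lit 5), (nat_lit 15), (nat_lit 3),
 (nat_lit 1), (19, 44, 1), [878, 178], 37⟩,
  mz,
  ⟨⟨39, -8, -56, -2, 45, -14, -12, -12, -37⟩, (.cons (nat_lit 1848) (nat_lit 1714) (nat_lit 967) (nat_lit 1)
 (.cons (nat_lit 1795) (nat_lit 516) (nat_lit 2025) (nat_lit 1) .nil)), (nat_lit 70), (nat_lit 11), (nat_lit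
 31), (nat_lit 1), (3, 36, 28), [1263, 457], 28⟩,
  ⟨⟨9, 4, -61, 40, 23, -10, 22, -32, -29⟩, (.cons (nat_lit 1181) (nat_lit 475) (nat_lit 443) (nat_lit 1) (.cons
 (nat_lit 892) (nat_lit 661) (nat_lit 1320) (nat_lit 1) .nil)), (nat_lit 37), (nat_lit 19), (nat_lit 32),
 (nat_lit 1), (18, 33, 44), [363, 927], 1⟩,
  ⟨⟨-13, 36, 45, -40, -23, 30, -22, 32, -7⟩, (.cons (nat_lit 899) (nat_lit 58) (nat_lit 1808) (nat_lit 1)
 (.cons (nat_lit 1931) (nat_lit 499) (nat_lit 909) (nat_lit 1) .nil)), (nat_lit 46), (nat_lit 14), (nat_lit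
 67), (nat_lit 1), (5, 19, 41), [1297, 1024], 34⟩,
  mz,
  ⟨⟨19, 0, -63, 0, -47, 0, 42, 0, -23⟩, (.cons (nat_lit 861) (nat_lit 1716) (nat_lit 1136) (nat_lit 1) (.cons
 (nat_lit 1748) (nat_lit 1366) (nat_lit 963) (nat_lit 1) .nil)), (nat_lit 47), (nat_lit 47), (nat_lit 34),
 (nat_lit 1), (16, 0, 23), [1084, 1564], 51⟩,
  ⟨⟨45, -8, -49, 20, 33, 20, 6, 24, -41⟩, (.cons (nat_lit 345) (nat_lit 268) (nat_lit 1695) (nat_lit 1) (.cons
 (nat_lit 2116) (nat_lit 1643) (nat_lit 1452) (nat_lit 1) .nil)), (nat_lit 7), (nat_lit 44), (nat_lit 64),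
 (nat_lit 1), (29, 39, 7), [243, 9], 34⟩,
  ⟨⟨21, 44, -29, 20, -23, -50, 38, 8, -1⟩, (.cons (nat_lit 407) (nat_lit 1097) (nat_lit 353) (nat_lit 1) (.cons
 (nat_lit 262) (nat_lit 2170) (nat_lit 671) (nat_lit 1) .nil)), (nat_lit 57), (nat_lit 33), (nat_lit 22),
 (nat_lit 1), (8, 30, 10), [1830, 77], 61⟩,
  ⟨⟨-49, -12, 36, 2, -35, -36, -28, 20, -13⟩, (.cons (nat_lit 275) (nat_lit 968) (nat_lit 1220) (nat_lit 1)
 (.cons (nat_lit 748) (nat_lit 808) (nat_lit 499) (nat_lit 1) .nil)), (nat_lit 67), (nat_lit 49), (nat_lit 34),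
 (nat_lit 1), (24, 23, 7), [7, 406], 35⟩,
  ⟨⟨-39, -32, 8, -20, 33, -20, 6, -24, -41⟩, (.cons (nat_lit 1848) (nat_lit 1122) (nat_lit 1073) (nat_lit 1)
 (.cons (nat_lit 1868) (nat_lit 2069) (nat_lit 1794) (nat_lit 1) .nil)), (nat_lit 70), (nat_lit 14), (nat_lit
 64), (nat_lit 1), (28, 24, 21), [1318, 1202], 15⟩,
  mz,
  mz,
  ⟨⟨-45, 8, -4, 20, 33, -40, -6, -24, -35⟩, (.cons (nat_lit 1848) (nat_lit 340) (nat_lit 862) (nat_lit 1)
 (.cons (nat_lit 1084) (nat_lit 431) (nat_lit 1459) (nat_lit 1) .nil)), (nat_lit 70), (nat_lit 22), (nat_lit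
 68), (nat_lit 1), (40, 24, 21), [243, 1820], 2⟩,
  ⟨⟨49, -12, -13, 2, 35, 34, 28, 20, -41⟩, (.cons (nat_lit 74) (nat_lit 1065) (nat_lit 1514) (nat_lit 1) (.cons
 (nat_lit 747) (nat_lit 1170) (nat_lit 2110) (nat_lit 1) .nil)), (nat_lit 25), (nat_lit 54), (nat_lit 69),
 (nat_lit 1), (24, 24, 7), [376, 500], 68⟩,
  ⟨⟨17, 36, -45, -20, -23, -30, 38, -8, -37⟩, (.cons (nat_lit 211) (nat_lit 1386) (nat_lit 347) (nat_lit 1)
 (.cons (nat_lit 404) (nat_lit 600) (nat_lit 653) (nat_lit 1) .nil)), (nat_lit 42), (nat_lit 46), (nat_lit 46),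
 (nat_lit 1), (45, 30, 37), [1426, 403], 66⟩,
  ⟨⟨-45, -8, -4, 20, -33, -40, -6, 24, -35⟩, (.cons (nat_lit 1213) (nat_lit 1182) (nat_lit 1836) (nat_lit 1)
 (.cons (nat_lit 1239) (nat_lit 596) (nat_lit 450) (nat_lit 1) .nil)), (nat_lit 9), (nat_lit 9), (nat_lit 50),
 (nat_lit 1), (29, 8, 7), [1065, 1881], 66⟩,
  ⟨⟨19, 0, 44, 0, -47, 0, 42, 0, -19⟩, (.cons (nat_lit 1848) (nat_lit 55) (nat_lit 1645) (nat_lit 1) (.cons
 (nat_lit 1626) (nat_lit 16) (nat_lit 1962) (nat_lit 1) .nil)), (nat_lit 70), (nat_lit 16), (nat_lit 3),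
 (nat_lit 1), (31, 0, 24), [328, 1160], 40⟩,
  mz,
  ⟨⟨9, -4, -61, -40, 23, 10, 22, 32, -29⟩, (.cons (nat_lit 845) (nat_lit 1233) (nat_lit 1253) (nat_lit 1)
 (.cons (nat_lit 361) (nat_lit 1237) (nat_lit 105) (nat_lit 1) .nil)), (nat_lit 5), (nat_lit 48), (nat_lit 32),
 (nat_lit 1), (36, 28, 41), [362, 807], 37⟩,
  ⟨⟨-13, -36, 45, 40, -23, -30, -22, -32, -7⟩, (.cons (nat_lit 333) (nat_lit 712) (nat_lit 936) (nat_lit 1)
 (.cons (nat_lit 2007) (nat_lit 1130) (nat_lit 43) (nat_lit 1) .nil)), (nat_lit 22), (nat_lit 53), (nat_lit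
 53), (nat_lit 1), (26, 14, 44), [1234, 194], 65⟩,
  ⟨⟨51, -4, -32, 2, 45, -16, 12, -12, -49⟩, (.cons (nat_lit 1848) (nat_lit 92) (nat_lit 194) (nat_lit 1) (.cons
 (nat_lit 1770) (nat_lit 69) (nat_lit 122) (nat_lit 1) .nil)), (nat_lit 70), (nat_lit 63), (nat_lit 64),
 (nat_lit 1), (25, 36, 28), [1306, 21], 52⟩,
  mz,
  ⟨⟨17, 36, 28, 20, 23, -50, 38, -8, -1⟩, (.cons (nat_lit 484) (nat_lit 1197) (nat_lit 1569) (nat_lit 1) (.cons
 (nat_lit 168) (nat_lit 1196) (nat_lit 34) (nat_lit 1) .nil)), (nat_lit 59), (nat_lit 5), (nat_lit 56),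
 (nat_lit 1), (28, 44, 46), [400, 734], 21⟩,
  ⟨⟨27, -32, -47, -40, -17, 0, 10, 16, -47⟩, (.cons (nat_lit 1543) (nat_lit 397) (nat_lit 1718) (nat_lit 1)
 (.cons (nat_lit 59) (nat_lit 2000) (nat_lit 1111) (nat_lit 1) .nil)), (nat_lit 14), (nat_lit 42), (nat_lit
 47), (nat_lit 1), (46, 45, 24), [361, 313], 38⟩,
  mz,
  ⟨⟨17, -48, -17, 40, 17, -40, -10, -16, -37⟩, (.cons (nat_lit 1721) (nat_lit 965) (nat_lit 1277) (nat_lit 1)
 (.cons (nat_lit 894) (nat_lit 1313) (nat_lit 256) (nat_lit 1) .nil)), (nat_lit 29), (nat_lit 53), (nat_lit 2),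
 (nat_lit 1), (6, 39, 2), [728, 1675], 69⟩,
  mz,
  mz,
  mz,
  ⟨⟨-25, -12, -36, -22, -35, 36, 20, -28, -37⟩, (.cons (nat_lit 511) (nat_lit 884) (nat_lit 1542) (nat_lit 1)
 (.cons (nat_lit 1732) (nat_lit 963) (nat_lit 1300) (nat_lit 1) .nil)), (nat_lit 53), (nat_lit 30), (nat_lit
 44), (nat_lit 1), (9, 38, 21), [1035, 2083], 51⟩,
  mz,
  ⟨⟨51, 4, -32, 2, -45, -16, 12, 12, -49⟩, (.cons (nat_lit 1623) (nat_lit 643) (nat_lit 1797) (nat_lit 1)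
 (.cons (nat_lit 1664) (nat_lit 1547) (nat_lit 331) (nat_lit 1) .nil)), (nat_lit 20), (nat_lit 22), (nat_lit
 5), (nat_lit 1), (7, 27, 21), [314, 2095], 30⟩,
  ⟨⟨49, 12, -13, -2, 35, -34, 28, -20, -41⟩, (.cons (nat_lit 928) (nat_lit 1068) (nat_lit 1125) (nat_lit 1)
 (.cons (nat_lit 233) (nat_lit 1296) (nat_lit 790) (nat_lit 1) .nil)), (nat_lit 5), (nat_lit 50), (nat_lit 3),
 (nat_lit 1), (17, 30, 3), [951, 840], 70⟩,
  ⟨⟨-45, 16, 44, -22, -35, -14, -20, 28, -17⟩, (.cons (nat_lit 533) (nat_lit 221) (nat_lit 374) (nat_lit 1)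
 (.cons (nat_lit 1571) (nat_lit 299) (nat_lit 225) (nat_lit 1) .nil)), (nat_lit 67), (nat_lit 47), (nat_lit
 43), (nat_lit 1), (34, 2, 36), [824, 1643], 35⟩]

/-- Moves. -/
noncomputable def t1_17 : List Mv := [
  mz,
  ⟨⟨45, 16, -1, -22, 35, 36, 20, 28, -37⟩, (.cons (nat_lit 25) (nat_lit 1110) (nat_lit 979) (nat_lit 1) (.cons
 (nat_lit 472) (nat_lit 2204) (nat_lit 1486) (nat_lit 1) .nil)), (nat_lit 54), (nat_lit 66), (nat_lit 37),
 (nat_lit 1), (34, 45, 36), [177, 934], 56⟩,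
  ⟨⟨-49, 12, 36, -2, -35, 36, -28, -20, -13⟩, (.cons (nat_lit 1328) (nat_lit 1346) (nat_lit 1140) (nat_lit 1)
 (.cons (nat_lit 1674) (nat_lit 1981) (nat_lit 1580) (nat_lit 1) .nil)), (nat_lit 15), (nat_lit 23), (nat_lit
 20), (nat_lit 1), (17, 17, 3), [734, 362], 41⟩,
  ⟨⟨-51, 4, 19, -2, -45, -14, -12, 12, -37⟩, (.cons (nat_lit 785) (nat_lit 170) (nat_lit 52) (nat_lit 1) (.cons
 (nat_lit 361) (nat_lit 1112) (nat_lit 790) (nat_lit 1) .nil)), (nat_lit 5), (nat_lit 61), (nat_lit 26),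
 (nat_lit 1), (7, 27, 21), [1389, 1146], 41⟩,
  mz,
  ⟨⟨-45, -16, 44, -22, 35, -14, -20, -28, -17⟩, (.cons (nat_lit 700) (nat_lit 1550) (nat_lit 1206) (nat_lit 1)
 (.cons (nat_lit 823) (nat_lit 911) (nat_lit 1116) (nat_lit 1) .nil)), (nat_lit 37), (nat_lit 8), (nat_lit 10),
 (nat_lit 1), (12, 9, 21), [1451, 287], 38⟩,
  mz,
  mz,
  mz,
  ⟨⟨-17, -48, 0, 40, -17, 0, 10, -16, -47⟩, (.cons (nat_lit 757) (nat_lit 1550) (nat_lit 224) (nat_lit 1)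
 (.cons (nat_lit 1728) (nat_lit 1589) (nat_lit 1) (nat_lit 846) .nil)), (nat_lit 57), (nat_lit 61), (nat_lit
 4), (nat_lit 1), (6, 8, 2), [527, 2059], 56⟩,
  mz,
  ⟨⟨17, 48, -17, 40, -17, -40, -10, 16, -37⟩, (.cons (nat_lit 339) (nat_lit 1409) (nat_lit 776) (nat_lit 1)
 (.cons (nat_lit 1602) (nat_lit 1282) (nat_lit 178) (nat_lit 1) .nil)), (nat_lit 14), (nat_lit 16), (nat_lit
 1), (nat_lit 0), (25, 45, 24), [1350, 933], 29⟩,
  ⟨⟨17, -36, -45, -20, 23, -30, 38, 8, -37⟩, (.cons (nat_lit 28) (nat_lit 13) (nat_lit 149) (nat_lit 1) (.cons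
 (nat_lit 570) (nat_lit 1135) (nat_lit 2077) (nat_lit 1) .nil)), (nat_lit 5), (nat_lit 15), (nat_lit 3),
 (nat_lit 1), (19, 44, 1), [878, 178], 37⟩,
  mz,
  ⟨⟨-51, -4, 19, -2, 45, -14, -12, -12, -37⟩, (.cons (nat_lit 259) (nat_lit 1812) (nat_lit 322) (nat_lit 1)
 (.cons (nat_lit 414) (nat_lit 95) (nat_lit 51) (nat_lit 1) .nil)), (nat_lit 37), (nat_lit 4), (nat_lit 63),
 (nat_lit 1), (25, 36, 28), [790, 2196], 48⟩,
  ⟨⟨13, -36, 32, -40, -23, 10, 22, -32, -29⟩, (.cons (nat_lit 613) (nat_lit 239) (nat_lit 139) (nat_lit 1)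
 (.cons (nat_lit 1166) (nat_lit 1678) (nat_lit 736) (nat_lit 1) .nil)), (nat_lit 59), (nat_lit 44), (nat_lit
 58), (nat_lit 1), (26, 14, 44), [245, 989], 50⟩,
  ⟨⟨-9, -4, -52, 40, 23, -30, -22, 32, -7⟩, (.cons (nat_lit 1391) (nat_lit 1147) (nat_lit 1456) (nat_lit 1)
 (.cons (nat_lit 523) (nat_lit 394) (nat_lit 146) (nat_lit 1) .nil)), (nat_lit 35), (nat_lit 9), (nat_lit 54),
 (nat_lit 1), (36, 28, 41), [792, 1776], 39⟩,
  mz,
  ⟨⟨19, 0, -63, 0, 47, 0, 42, 0, -23⟩, (.cons (nat_lit 1119) (nat_lit 1775) (nat_lit 1494) (nat_lit 1) (.cons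
 (nat_lit 1403) (nat_lit 1377) (nat_lit 943) (nat_lit 1) .nil)), (nat_lit 4), (nat_lit 54), (nat_lit 30),
 (nat_lit 1), (16, 0, 23), [1263, 1784], 18⟩,
  ⟨⟨-39, 32, 8, 20, 33, 20, 6, 24, -41⟩, (.cons (nat_lit 1848) (nat_lit 635) (nat_lit 104) (nat_lit 1) (.cons
 (nat_lit 2020) (nat_lit 1741) (nat_lit 1969) (nat_lit 1) .nil)), (nat_lit 70), (nat_lit 23), (nat_lit 28),
 (nat_lit 1), (25, 39, 7), [544, 150], 2⟩,
  ⟨⟨17, -36, 28, 20, -23, -50, 38, 8, -1⟩, (.cons (nat_lit 109) (nat_lit 709) (nat_lit 310) (nat_lit 1) (.cons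
 (nat_lit 1665) (nat_lit 1449) (nat_lit 1658) (nat_lit 1) .nil)), (nat_lit 69), (nat_lit 18), (nat_lit 37),
 (nat_lit 1), (2, 30, 10), [1658, 406], 57⟩,
  ⟨⟨21, 32, -49, 2, -35, -36, -28, 20, -13⟩, (.cons (nat_lit 456) (nat_lit 838) (nat_lit 360) (nat_lit 1)
 (.cons (nat_lit 333) (nat_lit 1589) (nat_lit 1486) (nat_lit 1) .nil)), (nat_lit 39), (nat_lit 7), (nat_lit 6),
 (nat_lit 1), (30, 23, 7), [265, 500], 1⟩,
  ⟨⟨-39, -32, 8, -20, 33, -20, 6, -24, -41⟩, (.cons (nat_lit 1848) (nat_lit 1122) (nat_lit 1073) (nat_lit 1)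
 (.cons (nat_lit 1868) (nat_lit 2069) (nat_lit 1794) (nat_lit 1) .nil)), (nat_lit 70), (nat_lit 14), (nat_lit
 64), (nat_lit 1), (28, 24, 21), [1318, 1202], 15⟩,
  mz,
  mz,
  ⟨⟨39, -32, -31, -20, -33, 40, -6, -24, -35⟩, (.cons (nat_lit 750) (nat_lit 1106) (nat_lit 1043) (nat_lit 1)
 (.cons (nat_lit 483) (nat_lit 547) (nat_lit 1099) (nat_lit 1) .nil)), (nat_lit 28), (nat_lit 38), (nat_lit
 29), (nat_lit 1), (28, 23, 21), [1120, 178], 3⟩,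
  ⟨⟨49, -12, -13, -2, -35, -34, 28, 20, -41⟩, (.cons (nat_lit 26) (nat_lit 796) (nat_lit 1188) (nat_lit 1)
 (.cons (nat_lit 418) (nat_lit 471) (nat_lit 2163) (nat_lit 1) .nil)), (nat_lit 22), (nat_lit 47), (nat_lit
 46), (nat_lit 1), (24, 23, 7), [179, 2203], 27⟩,
  ⟨⟨17, 36, -45, -20, -23, -30, 38, -8, -37⟩, (.cons (nat_lit 211) (nat_lit 1386) (nat_lit 347) (nat_lit 1)
 (.cons (nat_lit 404) (nat_lit 600) (nat_lit 653) (nat_lit 1) .nil)), (nat_lit 42), (nat_lit 46), (nat_lit 46),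
 (nat_lit 1), (45, 30, 37), [1426, 403], 66⟩,
  ⟨⟨39, 32, -31, 20, -33, -40, -6, 24, -35⟩, (.cons (nat_lit 1109) (nat_lit 624) (nat_lit 159) (nat_lit 1)
 (.cons (nat_lit 2004) (nat_lit 156) (nat_lit 262) (nat_lit 1) .nil)), (nat_lit 9), (nat_lit 61), (nat_lit 26),
 (nat_lit 1), (25, 8, 7), [377, 894], 5⟩,
  ⟨⟨19, 0, 44, 0, -47, 0, 42, 0, -19⟩, (.cons (nat_lit 1848) (nat_lit 55) (nat_lit 1645) (nat_lit 1) (.cons
 (nat_lit 1626) (nat_lit 16) (nat_lit 1962) (nat_lit 1) .nil)), (nat_lit 70), (nat_lit 16), (nat_lit 3),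
 (nat_lit 1), (31, 0, 24), [328, 1160], 40⟩,
  mz,
  ⟨⟨13, 36, 32, 40, -23, -10, 22, 32, -29⟩, (.cons (nat_lit 1724) (nat_lit 1735) (nat_lit 1718) (nat_lit 1)
 (.cons (nat_lit 1774) (nat_lit 768) (nat_lit 1033) (nat_lit 1) .nil)), (nat_lit 13), (nat_lit 47), (nat_lit
 43), (nat_lit 1), (5, 19, 41), [394, 1461], 54⟩,
  ⟨⟨-13, -36, 45, 40, -23, -30, -22, -32, -7⟩, (.cons (nat_lit 333) (nat_lit 712) (nat_lit 936) (nat_lit 1)
 (.cons (nat_lit 2007) (nat_lit 1130) (nat_lit 43) (nat_lit 1) .nil)), (nat_lit 22), (nat_lit 53), (nat_lit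
 53), (nat_lit 1), (26, 14, 44), [1234, 194], 65⟩,
  ⟨⟨-39, -8, -17, 2, 45, -16, 12, -12, -49⟩, (.cons (nat_lit 1592) (nat_lit 1585) (nat_lit 1398) (nat_lit 1)
 (.cons (nat_lit 1332) (nat_lit 777) (nat_lit 592) (nat_lit 1) .nil)), (nat_lit 48), (nat_lit 21), (nat_lit
 29), (nat_lit 1), (3, 36, 28), [1779, 820], 45⟩,
  mz,
  ⟨⟨17, 36, 28, 20, 23, -50, 38, -8, -1⟩, (.cons (nat_lit 484) (nat_lit 1197) (nat_lit 1569) (nat_lit 1) (.cons
 (nat_lit 168) (nat_lit 1196) (nat_lit 34) (nat_lit 1) .nil)), (nat_lit 59), (nat_lit 5), (nat_lit 56),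
 (nat_lit 1), (28, 44, 46), [400, 734], 21⟩,
  ⟨⟨27, -32, -47, -40, -17, 0, 10, 16, -47⟩, (.cons (nat_lit 1543) (nat_lit 397) (nat_lit 1718) (nat_lit 1)
 (.cons (nat_lit 59) (nat_lit 2000) (nat_lit 1111) (nat_lit 1) .nil)), (nat_lit 14), (nat_lit 42), (nat_lit
 47), (nat_lit 1), (46, 45, 24), [361, 313], 38⟩,
  mz,
  ⟨⟨17, -48, -17, 40, 17, -40, -10, -16, -37⟩, (.cons (nat_lit 1721) (nat_lit 965) (nat_lit 1277) (nat_lit 1)
 (.cons (nat_lit 894) (nat_lit 1313) (nat_lit 256) (nat_lit 1) .nil)), (nat_lit 29), (nat_lit 53), (nat_lit 2),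
 (nat_lit 1), (6, 39, 2), [728, 1675], 69⟩,
  mz,
  mz,
  mz,
  ⟨⟨45, -16, -1, 22, 35, -36, 20, -28, -37⟩, (.cons (nat_lit 1321) (nat_lit 1808) (nat_lit 471) (nat_lit 1)
 (.cons (nat_lit 630) (nat_lit 554) (nat_lit 296) (nat_lit 1) .nil)), (nat_lit 57), (nat_lit 61), (nat_lit 42),
 (nat_lit 1), (12, 9, 21), [1021, 2097], 17⟩,
  mz,
  ⟨⟨51, 4, -32, 2, -45, -16, 12, 12, -49⟩, (.cons (nat_lit 1623) (nat_lit 643) (nat_lit 1797) (nat_lit 1)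
 (.cons (nat_lit 1664) (nat_lit 1547) (nat_lit 331) (nat_lit 1) .nil)), (nat_lit 20), (nat_lit 22), (nat_lit
 5), (nat_lit 1), (7, 27, 21), [314, 2095], 30⟩,
  ⟨⟨49, 12, -13, 2, -35, 34, 28, -20, -41⟩, (.cons (nat_lit 1381) (nat_lit 744) (nat_lit 1225) (nat_lit 1)
 (.cons (nat_lit 174) (nat_lit 576) (nat_lit 1819) (nat_lit 1) .nil)), (nat_lit 51), (nat_lit 3), (nat_lit 62),
 (nat_lit 1), (17, 17, 3), [175, 1705], 45⟩,
  ⟨⟨-45, 16, 44, -22, -35, -14, -20, 28, -17⟩, (.cons (nat_lit 533) (nat_lit 221) (nat_lit 374) (nat_lit 1)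
 (.cons (nat_lit 1571) (nat_lit 299) (nat_lit 225) (nat_lit 1) .nil)), (nat_lit 67), (nat_lit 47), (nat_lit
 43), (nat_lit 1), (34, 2, 36), [824, 1643], 35⟩]

/-- Moves. -/
noncomputable def t4_1 : List Mv := [
  mz,
  ⟨⟨-75, 20, 43, -10, -21, -70, -12, 60, -13⟩, (.cons (nat_lit 1010) (nat_lit 1358) (nat_lit 640) (nat_lit 1)
 (.cons (nat_lit 337) (nat_lit 304) (nat_lit 1415) (nat_lit 1) .nil)), (nat_lit 55), (nat_lit 0), (nat_lit 0),
 (nat_lit 0), (51, 21, 11), [1244, 98], 0⟩,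
  mz,
  ⟨⟨65, -24, -72, -4, 55, -48, -10, -40, -49⟩, (.cons (nat_lit 1848) (nat_lit 1473) (nat_lit 1467) (nat_lit 1)
 (.cons (nat_lit 2208) (nat_lit 1454) (nat_lit 141) (nat_lit 1) .nil)), (nat_lit 3), (nat_lit 0), (nat_lit 0),
 (nat_lit 0), (37, 1, 38), [708, 964], 0⟩,
  ⟨⟨27, 68, 16, 64, -15, -62, -6, 48, -43⟩, (.cons (nat_lit 1491) (nat_lit 177) (nat_lit 671) (nat_lit 1)
 (.cons (nat_lit 973) (nat_lit 1402) (nat_lit 1576) (nat_lit 1) .nil)), (nat_lit 46), (nat_lit 0), (nat_lit 0),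
 (nat_lit 0), (60, 16, 34), [1300, 1174], 0⟩,
  ⟨⟨27, -68, 16, 64, 15, -62, -6, -48, -43⟩, (.cons (nat_lit 1844) (nat_lit 575) (nat_lit 85) (nat_lit 1)
 (.cons (nat_lit 869) (nat_lit 680) (nat_lit 614) (nat_lit 1) .nil)), (nat_lit 46), (nat_lit 0), (nat_lit 0),
 (nat_lit 0), (7, 35, 30), [1756, 1502], 0⟩,
  mz,
  ⟨⟨-29, 72, 20, 56, 25, -68, -38, 16, -35⟩, (.cons (nat_lit 1169) (nat_lit 1039) (nat_lit 345) (nat_lit 1)
 (.cons (nat_lit 756) (nat_lit 294) (nat_lit 693) (nat_lit 1) .nil)), (nat_lit 8), (nat_lit 0), (nat_lit 0),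
 (nat_lit 0), (33, 44, 31), [974, 1719], 0⟩,
  ⟨⟨23, -72, 9, 64, 25, -12, 26, -32, -67⟩, (.cons (nat_lit 1607) (nat_lit 1307) (nat_lit 317) (nat_lit 1)
 (.cons (nat_lit 1727) (nat_lit 520) (nat_lit 1554) (nat_lit 1) .nil)), (nat_lit 49), (nat_lit 0), (nat_lit 0),
 (nat_lit 0), (60, 62, 3), [1449, 410], 0⟩,
  mz,
  mz,
  ⟨⟨33, -20, -92, 64, 15, -2, 6, 48, -49⟩, (.cons (nat_lit 1006) (nat_lit 474) (nat_lit 493) (nat_lit 1) (.cons
 (nat_lit 421) (nat_lit 17) (nat_lit 386) (nat_lit 1) .nil)), (nat_lit 12), (nat_lit 0), (nat_lit 0), (nat_lit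
 0), (67, 3, 38), [1030, 838], 0⟩,
  ⟨⟨9, 76, -20, 44, -15, -82, -42, 24, -25⟩, (.cons (nat_lit 1190) (nat_lit 386) (nat_lit 1633) (nat_lit 1)
 (.cons (nat_lit 1302) (nat_lit 1003) (nat_lit 857) (nat_lit 1) .nil)), (nat_lit 67), (nat_lit 0), (nat_lit 0),
 (nat_lit 0), (31, 49, 21), [483, 375], 0⟩,
  mz,
  mz,
  ⟨⟨51, -52, -56, -44, -15, -38, 42, 24, -67⟩, (.cons (nat_lit 1448) (nat_lit 1678) (nat_lit 517) (nat_lit 1)
 (.cons (nat_lit 1490) (nat_lit 2005) (nat_lit 83) (nat_lit 1) .nil)), (nat_lit 5), (nat_lit 0), (nat_lit 0),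
 (nat_lit 0), (24, 67, 49), [655, 234], 0⟩,
  ⟨⟨17, 24, -89, -36, -55, -12, 54, -24, -53⟩, (.cons (nat_lit 560) (nat_lit 1439) (nat_lit 1580) (nat_lit 1)
 (.cons (nat_lit 2116) (nat_lit 1059) (nat_lit 537) (nat_lit 1) .nil)), (nat_lit 22), (nat_lit 0), (nat_lit 0),
 (nat_lit 0), (7, 52, 64), [993, 367], 0⟩,
  mz,
  ⟨⟨9, 56, -64, -56, -25, -12, 38, -16, -73⟩, (.cons (nat_lit 1409) (nat_lit 1497) (nat_lit 499) (nat_lit 1)
 (.cons (nat_lit 1711) (nat_lit 2037) (nat_lit 18) (nat_lit 1) .nil)), (nat_lit 39), (nat_lit 0), (nat_lit 0),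
 (nat_lit 0), (56, 46, 55), [304, 1098], 0⟩,
  ⟨⟨39, 40, -80, 44, -55, -32, -22, -8, -55⟩, (.cons (nat_lit 1848) (nat_lit 1540) (nat_lit 1334) (nat_lit 1)
 (.cons (nat_lit 2208) (nat_lit 434) (nat_lit 227) (nat_lit 1) .nil)), (nat_lit 19), (nat_lit 0), (nat_lit 0),
 (nat_lit 0), (28, 68, 37), [583, 1054], 0⟩,
  mz,
  mz,
  ⟨⟨17, -24, 72, 36, -55, -48, 54, 24, -1⟩, (.cons (nat_lit 309) (nat_lit 204) (nat_lit 1348) (nat_lit 1)
 (.cons (nat_lit 380) (nat_lit 1297) (nat_lit 767) (nat_lit 1) .nil)), (nat_lit 70), (nat_lit 0), (nat_lit 0),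
 (nat_lit 0), (28, 5, 43), [759, 309], 0⟩,
  ⟨⟨-61, 48, 25, 44, 55, -32, -22, 8, -55⟩, (.cons (nat_lit 1039) (nat_lit 1463) (nat_lit 1608) (nat_lit 1)
 (.cons (nat_lit 2083) (nat_lit 1874) (nat_lit 2135) (nat_lit 1) .nil)), (nat_lit 24), (nat_lit 0), (nat_lit
 0), (nat_lit 0), (13, 43, 14), [1440, 373], 0⟩,
  ⟨⟨-39, 40, -41, 44, 55, -12, 22, -8, -77⟩, (.cons (nat_lit 1413) (nat_lit 1812) (nat_lit 317) (nat_lit 1)
 (.cons (nat_lit 1385) (nat_lit 85) (nat_lit 876) (nat_lit 1) .nil)), (nat_lit 23), (nat_lit 0), (nat_lit 0),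
 (nat_lit 0), (2, 56, 28), [1186, 616], 0⟩,
  mz,
  ⟨⟨51, -4, 40, -10, 69, 20, 60, 12, -49⟩, (.cons (nat_lit 1848) (nat_lit 1570) (nat_lit 960) (nat_lit 1)
 (.cons (nat_lit 2208) (nat_lit 1964) (nat_lit 1244) (nat_lit 1) .nil)), (nat_lit 26), (nat_lit 0), (nat_lit
 0), (nat_lit 0), (60, 30, 33), [396, 55], 0⟩,
  mz,
  mz,
  ⟨⟨-13, -72, 36, 70, -11, -30, -4, -44, -49⟩, (.cons (nat_lit 468) (nat_lit 891) (nat_lit 1522) (nat_lit 1)
 (.cons (nat_lit 2138) (nat_lit 405) (nat_lit 1730) (nat_lit 1) .nil)), (nat_lit 62), (nat_lit 0), (nat_lit 0),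
 (nat_lit 0), (29, 35, 69), [319, 93], 0⟩,
  mz,
  ⟨⟨-33, -68, -4, 50, -11, -80, -44, 4, -29⟩, (.cons (nat_lit 1608) (nat_lit 1086) (nat_lit 418) (nat_lit 1)
 (.cons (nat_lit 1361) (nat_lit 647) (nat_lit 1616) (nat_lit 1) .nil)), (nat_lit 53), (nat_lit 0), (nat_lit 0),
 (nat_lit 0), (61, 13, 34), [859, 1312], 0⟩,
  mz,
  ⟨⟨-29, -72, 20, 56, -25, -68, -38, -16, -35⟩, (.cons (nat_lit 119) (nat_lit 1083) (nat_lit 1092) (nat_lit 1)
 (.cons (nat_lit 1335) (nat_lit 1253) (nat_lit 29) (nat_lit 1) .nil)), (nat_lit 8), (nat_lit 0), (nat_lit 0),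
 (nat_lit 0), (27, 36, 6), [1164, 17], 0⟩,
  ⟨⟨75, 20, -32, 10, -21, -80, 12, 60, -25⟩, (.cons (nat_lit 1484) (nat_lit 1444) (nat_lit 1252) (nat_lit 1)
 (.cons (nat_lit 838) (nat_lit 1338) (nat_lit 512) (nat_lit 1) .nil)), (nat_lit 55), (nat_lit 0), (nat_lit 0),
 (nat_lit 0), (30, 4, 19), [1201, 850], 0⟩,
  mz,
  ⟨⟨3, -40, -76, 64, -25, -12, 26, 32, -67⟩, (.cons (nat_lit 1581) (nat_lit 1160) (nat_lit 767) (nat_lit 1)
 (.cons (nat_lit 2134) (nat_lit 98) (nat_lit 871) (nat_lit 1) .nil)), (nat_lit 7), (nat_lit 0), (nat_lit 0),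
 (nat_lit 0), (58, 54, 53), [1422, 2038], 0⟩,
  mz,
  ⟨⟨17, -24, -89, 36, -55, 12, 54, 24, -53⟩, (.cons (nat_lit 1807) (nat_lit 1431) (nat_lit 1286) (nat_lit 1)
 (.cons (nat_lit 1176) (nat_lit 135) (nat_lit 371) (nat_lit 1) .nil)), (nat_lit 70), (nat_lit 0), (nat_lit 0),
 (nat_lit 0), (5, 44, 66), [434, 2200], 0⟩,
  ⟨⟨-23, -72, 32, 64, -25, -52, -26, -32, -41⟩, (.cons (nat_lit 374) (nat_lit 369) (nat_lit 123) (nat_lit 1)
 (.cons (nat_lit 1415) (nat_lit 390) (nat_lit 1038) (nat_lit 1) .nil)), (nat_lit 18), (nat_lit 0), (nat_lit 0),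
 (nat_lit 0), (21, 28, 33), [851, 2070], 0⟩,
  mz,
  mz,
  ⟨⟨-65, 24, -7, -4, 55, 52, 10, 40, -59⟩, (.cons (nat_lit 818) (nat_lit 412) (nat_lit 1219) (nat_lit 1) (.cons
 (nat_lit 2022) (nat_lit 1974) (nat_lit 1232) (nat_lit 1) .nil)), (nat_lit 50), (nat_lit 0), (nat_lit 0),
 (nat_lit 0), (43, 66, 48), [536, 1152], 0⟩,
  ⟨⟨11, -72, -36, -50, 11, -30, 44, -4, -73⟩, (.cons (nat_lit 1579) (nat_lit 1553) (nat_lit 994) (nat_lit 1)
 (.cons (nat_lit 1372) (nat_lit 961) (nat_lit 1868) (nat_lit 1) .nil)), (nat_lit 29), (nat_lit 0), (nat_lit 0),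
 (nat_lit 0), (69, 22, 63), [1071, 1799], 0⟩,
  ⟨⟨61, 48, -36, 44, -55, -12, 22, 8, -77⟩, (.cons (nat_lit 1848) (nat_lit 769) (nat_lit 595) (nat_lit 1)
 (.cons (nat_lit 2208) (nat_lit 1497) (nat_lit 1342) (nat_lit 1) .nil)), (nat_lit 44), (nat_lit 0), (nat_lit
 0), (nat_lit 0), (30, 10, 5), [454, 114], 0⟩,
  mz,
  ⟨⟨-9, -76, -11, -44, 15, -38, 42, -24, -67⟩, (.cons (nat_lit 1832) (nat_lit 1476) (nat_lit 920) (nat_lit 1)
 (.cons (nat_lit 519) (nat_lit 1554) (nat_lit 1416) (nat_lit 1) .nil)), (nat_lit 67), (nat_lit 0), (nat_lit 0),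
 (nat_lit 0), (66, 15, 47), [729, 86], 0⟩,
  ⟨⟨9, -16, 80, -10, -69, -10, 60, -12, -11⟩, (.cons (nat_lit 1848) (nat_lit 494) (nat_lit 803) (nat_lit 1)
 (.cons (nat_lit 2208) (nat_lit 1937) (nat_lit 1247) (nat_lit 1) .nil)), (nat_lit 47), (nat_lit 0), (nat_lit
 0), (nat_lit 0), (33, 58, 7), [1324, 1684], 0⟩,
  ⟨⟨9, -16, -89, -10, -69, 20, 60, -12, -49⟩, (.cons (nat_lit 1681) (nat_lit 814) (nat_lit 1712) (nat_lit 1)
 (.cons (nat_lit 1145) (nat_lit 1989) (nat_lit 514) (nat_lit 1) .nil)), (nat_lit 47), (nat_lit 0), (nat_lit 0),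
 (nat_lit 0), (19, 42, 32), [474, 1473], 0⟩,
  ⟨⟨9, -56, -64, -56, 25, -12, 38, 16, -73⟩, (.cons (nat_lit 1814) (nat_lit 853) (nat_lit 1074) (nat_lit 1)
 (.cons (nat_lit 1602) (nat_lit 2150) (nat_lit 1657) (nat_lit 1) .nil)), (nat_lit 39), (nat_lit 0), (nat_lit
 0), (nat_lit 0), (4, 54, 9), [673, 1578], 0⟩,
  ⟨⟨65, 24, -72, -4, -55, -48, -10, 40, -49⟩, (.cons (nat_lit 648) (nat_lit 447) (nat_lit 1044) (nat_lit 1)
 (.cons (nat_lit 608) (nat_lit 334) (nat_lit 1) (nat_lit 658) .nil)), (nat_lit 3), (nat_lit 0), (nat_lit 0),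
 (nat_lit 0), (39, 26, 65), [435, 1807], 0⟩,
  ⟨⟨-51, 52, -5, 44, 15, -82, -42, -24, -25⟩, (.cons (nat_lit 499) (nat_lit 1405) (nat_lit 1144) (nat_lit 1)
 (.cons (nat_lit 49) (nat_lit 702) (nat_lit 1545) (nat_lit 1) .nil)), (nat_lit 5), (nat_lit 0), (nat_lit 0),
 (nat_lit 0), (18, 68, 19), [858, 1120], 0⟩,
  mz,
  ⟨⟨13, -72, 23, 70, 11, -40, 4, -44, -53⟩, (.cons (nat_lit 1480) (nat_lit 950) (nat_lit 1759) (nat_lit 1)
 (.cons (nat_lit 1577) (nat_lit 546) (nat_lit 2004) (nat_lit 1) .nil)), (nat_lit 43), (nat_lit 0), (nat_lit 0),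
 (nat_lit 0), (14, 59, 48), [80, 1644], 0⟩,
  ⟨⟨9, 16, 80, -10, 69, -10, 60, 12, -11⟩, (.cons (nat_lit 39) (nat_lit 169) (nat_lit 51) (nat_lit 1) (.cons
 (nat_lit 2192) (nat_lit 1707) (nat_lit 1272) (nat_lit 1) .nil)), (nat_lit 47), (nat_lit 0), (nat_lit 0),
 (nat_lit 0), (58, 46, 8), [859, 2099], 0⟩,
  ⟨⟨-63, -40, 7, 10, 21, -80, 12, -60, -25⟩, (.cons (nat_lit 603) (nat_lit 202) (nat_lit 743) (nat_lit 1)
 (.cons (nat_lit 424) (nat_lit 130) (nat_lit 1301) (nat_lit 1) .nil)), (nat_lit 58), (nat_lit 0), (nat_lit 0),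
 (nat_lit 0), (33, 59, 14), [1816, 1281], 0⟩,
  mz,
  ⟨⟨-11, -72, -25, 50, 11, -80, -44, -4, -29⟩, (.cons (nat_lit 528) (nat_lit 822) (nat_lit 898) (nat_lit 1)
 (.cons (nat_lit 1072) (nat_lit 914) (nat_lit 1798) (nat_lit 1) .nil)), (nat_lit 29), (nat_lit 0), (nat_lit 0),
 (nat_lit 0), (38, 8, 10), [512, 1235], 0⟩,
  ⟨⟨-75, -20, 43, 10, -21, 70, -12, -60, -13⟩, (.cons (nat_lit 1847) (nat_lit 896) (nat_lit 1644) (nat_lit 1)
 (.cons (nat_lit 805) (nat_lit 649) (nat_lit 735) (nat_lit 1) .nil)), (nat_lit 34), (nat_lit 0), (nat_lit 0),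
 (nat_lit 0), (2, 66, 6), [1708, 2165], 0⟩,
  mz,
  mz,
  mz,
  ⟨⟨11, 72, -36, -50, -11, -30, 44, 4, -73⟩, (.cons (nat_lit 1608) (nat_lit 247) (nat_lit 700) (nat_lit 1)
 (.cons (nat_lit 280) (nat_lit 1468) (nat_lit 1580) (nat_lit 1) .nil)), (nat_lit 29), (nat_lit 0), (nat_lit 0),
 (nat_lit 0), (4, 27, 16), [859, 1500], 0⟩,
  mz,
  ⟨⟨-13, 72, 36, 70, 11, -30, -4, 44, -49⟩, (.cons (nat_lit 1192) (nat_lit 1659) (nat_lit 646) (nat_lit 1)
 (.cons (nat_lit 1466) (nat_lit 2008) (nat_lit 1762) (nat_lit 1) .nil)), (nat_lit 62), (nat_lit 0), (nat_lit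
 0), (nat_lit 0), (35, 30, 49), [1630, 718], 0⟩,
  ⟨⟨75, -16, -52, 4, 55, -52, 10, -40, -59⟩, (.cons (nat_lit 1848) (nat_lit 462) (nat_lit 210) (nat_lit 1)
 (.cons (nat_lit 2208) (nat_lit 1084) (nat_lit 235) (nat_lit 1) .nil)), (nat_lit 65), (nat_lit 0), (nat_lit 0),
 (nat_lit 0), (51, 51, 21), [966, 1528], 0⟩,
  mz,
  ⟨⟨33, 20, -92, 64, -15, -2, 6, -48, -49⟩, (.cons (nat_lit 390) (nat_lit 1078) (nat_lit 1035) (nat_lit 1)
 (.cons (nat_lit 151) (nat_lit 968) (nat_lit 924) (nat_lit 1) .nil)), (nat_lit 12), (nat_lit 0), (nat_lit 0),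
 (nat_lit 0), (45, 55, 34), [1681, 1545], 0⟩,
  ⟨⟨13, 72, 23, 70, -11, -40, 4, 44, -53⟩, (.cons (nat_lit 671) (nat_lit 1694) (nat_lit 1060) (nat_lit 1)
 (.cons (nat_lit 237) (nat_lit 4) (nat_lit 2141) (nat_lit 1) .nil)), (nat_lit 43), (nat_lit 0), (nat_lit 0),
 (nat_lit 0), (20, 64, 28), [1375, 795], 0⟩,
  ⟨⟨-23, 72, 32, 64, 25, -52, -26, 32, -41⟩, (.cons (nat_lit 1728) (nat_lit 1758) (nat_lit 1409) (nat_lit 1)
 (.cons (nat_lit 333) (nat_lit 1564) (nat_lit 1370) (nat_lit 1) .nil)), (nat_lit 18), (nat_lit 0), (nat_lit 0),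
 (nat_lit 0), (27, 36, 12), [1576, 685], 0⟩,
  ⟨⟨17, 24, 72, 36, 55, -48, 54, -24, -1⟩, (.cons (nat_lit 1848) (nat_lit 700) (nat_lit 778) (nat_lit 1) (.cons
 (nat_lit 2208) (nat_lit 1122) (nat_lit 1556) (nat_lit 1) .nil)), (nat_lit 70), (nat_lit 0), (nat_lit 0),
 (nat_lit 0), (30, 51, 41), [383, 526], 0⟩]

/-- Moves. -/
noncomputable def t4_4 : List Mv := [
  mz,
  ⟨⟨-75, 20, 43, 10, 21, 70, -12, 60, -13⟩, (.cons (nat_lit 1549) (nat_lit 662) (nat_lit 1769) (nat_lit 1)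
 (.cons (nat_lit 1317) (nat_lit 630) (nat_lit 590) (nat_lit 1) .nil)), (nat_lit 34), (nat_lit 0), (nat_lit 0),
 (nat_lit 0), (51, 50, 11), [182, 952], 0⟩,
  mz,
  ⟨⟨65, -24, -72, -4, 55, -48, -10, -40, -49⟩, (.cons (nat_lit 1848) (nat_lit 1473) (nat_lit 1467) (nat_lit 1)
 (.cons (nat_lit 2208) (nat_lit 1454) (nat_lit 141) (nat_lit 1) .nil)), (nat_lit 3), (nat_lit 0), (nat_lit 0),
 (nat_lit 0), (37, 1, 38), [708, 964], 0⟩,
  ⟨⟨27, 68, 16, 64, -15, -62, -6, 48, -43⟩, (.cons (nat_lit 1491) (nat_lit 177) (nat_lit 671) (nat_lit 1)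
 (.cons (nat_lit 973) (nat_lit 1402) (nat_lit 1576) (nat_lit 1) .nil)), (nat_lit 46), (nat_lit 0), (nat_lit 0),
 (nat_lit 0), (60, 16, 34), [1300, 1174], 0⟩,
  ⟨⟨27, -68, 16, -64, -15, 62, -6, -48, -43⟩, (.cons (nat_lit 1766) (nat_lit 599) (nat_lit 384) (nat_lit 1)
 (.cons (nat_lit 1232) (nat_lit 1711) (nat_lit 1567) (nat_lit 1) .nil)), (nat_lit 15), (nat_lit 0), (nat_lit
 0), (nat_lit 0), (7, 36, 30), [735, 1169], 0⟩,
  mz,
  ⟨⟨-29, 72, 20, -56, -25, 68, -38, 16, -35⟩, (.cons (nat_lit 890) (nat_lit 1191) (nat_lit 1500) (nat_lit 1)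
 (.cons (nat_lit 1885) (nat_lit 826) (nat_lit 1661) (nat_lit 1) .nil)), (nat_lit 36), (nat_lit 0), (nat_lit 0),
 (nat_lit 0), (33, 27, 31), [1625, 1647], 0⟩,
  ⟨⟨3, 40, -76, 64, 25, -12, 26, -32, -67⟩, (.cons (nat_lit 242) (nat_lit 26) (nat_lit 1564) (nat_lit 1) (.cons
 (nat_lit 1610) (nat_lit 1595) (nat_lit 2024) (nat_lit 1) .nil)), (nat_lit 7), (nat_lit 0), (nat_lit 0),
 (nat_lit 0), (14, 62, 3), [1535, 1820], 0⟩,
  mz,
  mz,
  ⟨⟨-27, 68, 43, -64, -15, 2, 6, 48, -49⟩, (.cons (nat_lit 57) (nat_lit 1080) (nat_lit 490) (nat_lit 1) (.cons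
 (nat_lit 1894) (nat_lit 556) (nat_lit 116) (nat_lit 1) .nil)), (nat_lit 46), (nat_lit 0), (nat_lit 0),
 (nat_lit 0), (42, 68, 38), [1171, 234], 0⟩,
  ⟨⟨9, 76, -20, 44, -15, -82, -42, 24, -25⟩, (.cons (nat_lit 1190) (nat_lit 386) (nat_lit 1633) (nat_lit 1)
 (.cons (nat_lit 1302) (nat_lit 1003) (nat_lit 857) (nat_lit 1) .nil)), (nat_lit 67), (nat_lit 0), (nat_lit 0),
 (nat_lit 0), (31, 49, 21), [483, 375], 0⟩,
  mz,
  mz,
  ⟨⟨51, -52, -56, -44, -15, -38, 42, 24, -67⟩, (.cons (nat_lit 1448) (nat_lit 1678) (nat_lit 517) (nat_lit 1)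
 (.cons (nat_lit 1490) (nat_lit 2005) (nat_lit 83) (nat_lit 1) .nil)), (nat_lit 5), (nat_lit 0), (nat_lit 0),
 (nat_lit 0), (24, 67, 49), [655, 234], 0⟩,
  ⟨⟨17, 24, -89, -36, -55, -12, 54, -24, -53⟩, (.cons (nat_lit 560) (nat_lit 1439) (nat_lit 1580) (nat_lit 1)
 (.cons (nat_lit 2116) (nat_lit 1059) (nat_lit 537) (nat_lit 1) .nil)), (nat_lit 22), (nat_lit 0), (nat_lit 0),
 (nat_lit 0), (7, 52, 64), [993, 367], 0⟩,
  mz,
  ⟨⟨9, 56, -64, -56, -25, -12, 38, -16, -73⟩, (.cons (nat_lit 1409) (nat_lit 1497) (nat_lit 499) (nat_lit 1)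
 (.cons (nat_lit 1711) (nat_lit 2037) (nat_lit 18) (nat_lit 1) .nil)), (nat_lit 39), (nat_lit 0), (nat_lit 0),
 (nat_lit 0), (56, 46, 55), [304, 1098], 0⟩,
  ⟨⟨-61, -48, 25, 44, -55, -32, -22, -8, -55⟩, (.cons (nat_lit 861) (nat_lit 954) (nat_lit 1076) (nat_lit 1)
 (.cons (nat_lit 1176) (nat_lit 647) (nat_lit 1120) (nat_lit 1) .nil)), (nat_lit 24), (nat_lit 0), (nat_lit 0),
 (nat_lit 0), (9, 68, 37), [1486, 67], 0⟩,
  mz,
  mz,
  ⟨⟨37, 48, -73, 36, -55, -48, 54, 24, -1⟩, (.cons (nat_lit 1239) (nat_lit 1774) (nat_lit 1047) (nat_lit 1)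
 (.cons (nat_lit 513) (nat_lit 724) (nat_lit 2083) (nat_lit 1) .nil)), (nat_lit 38), (nat_lit 0), (nat_lit 0),
 (nat_lit 0), (15, 5, 43), [243, 1014], 0⟩,
  ⟨⟨-61, 48, 25, 44, 55, -32, -22, 8, -55⟩, (.cons (nat_lit 1039) (nat_lit 1463) (nat_lit 1608) (nat_lit 1)
 (.cons (nat_lit 2083) (nat_lit 1874) (nat_lit 2135) (nat_lit 1) .nil)), (nat_lit 24), (nat_lit 0), (nat_lit
 0), (nat_lit 0), (13, 43, 14), [1440, 373], 0⟩,
  ⟨⟨-39, 40, -41, 44, 55, -12, 22, -8, -77⟩, (.cons (nat_lit 1413) (nat_lit 1812) (nat_lit 317) (nat_lit 1)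
 (.cons (nat_lit 1385) (nat_lit 85) (nat_lit 876) (nat_lit 1) .nil)), (nat_lit 23), (nat_lit 0), (nat_lit 0),
 (nat_lit 0), (2, 56, 28), [1186, 616], 0⟩,
  mz,
  ⟨⟨51, -4, 40, 10, -69, -20, 60, 12, -49⟩, (.cons (nat_lit 935) (nat_lit 1753) (nat_lit 170) (nat_lit 1)
 (.cons (nat_lit 622) (nat_lit 682) (nat_lit 503) (nat_lit 1) .nil)), (nat_lit 48), (nat_lit 0), (nat_lit 0),
 (nat_lit 0), (60, 41, 33), [1067, 150], 0⟩,
  mz,
  mz,
  ⟨⟨9, 28, -85, -70, 11, 30, -4, -44, -49⟩, (.cons (nat_lit 921) (nat_lit 1028) (nat_lit 1294) (nat_lit 1)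
 (.cons (nat_lit 2141) (nat_lit 300) (nat_lit 769) (nat_lit 1) .nil)), (nat_lit 57), (nat_lit 0), (nat_lit 0),
 (nat_lit 0), (40, 36, 69), [725, 375], 0⟩,
  mz,
  ⟨⟨-11, 72, -25, 50, -11, -80, -44, 4, -29⟩, (.cons (nat_lit 886) (nat_lit 892) (nat_lit 1794) (nat_lit 1)
 (.cons (nat_lit 1553) (nat_lit 434) (nat_lit 911) (nat_lit 1) .nil)), (nat_lit 29), (nat_lit 0), (nat_lit 0),
 (nat_lit 0), (44, 13, 34), [1633, 231], 0⟩,
  mz,
  ⟨⟨-9, 56, -55, -56, 25, 68, -38, -16, -35⟩, (.cons (nat_lit 1736) (nat_lit 737) (nat_lit 1321) (nat_lit 1)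
 (.cons (nat_lit 881) (nat_lit 1442) (nat_lit 1682) (nat_lit 1) .nil)), (nat_lit 69), (nat_lit 0), (nat_lit 0),
 (nat_lit 0), (50, 35, 6), [1578, 1021], 0⟩,
  ⟨⟨75, 20, -32, 10, -21, -80, 12, 60, -25⟩, (.cons (nat_lit 1484) (nat_lit 1444) (nat_lit 1252) (nat_lit 1)
 (.cons (nat_lit 838) (nat_lit 1338) (nat_lit 512) (nat_lit 1) .nil)), (nat_lit 55), (nat_lit 0), (nat_lit 0),
 (nat_lit 0), (30, 4, 19), [1201, 850], 0⟩,
  mz,
  ⟨⟨3, -40, -76, 64, -25, -12, 26, 32, -67⟩, (.cons (nat_lit 1581) (nat_lit 1160) (nat_lit 767) (nat_lit 1)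
 (.cons (nat_lit 2134) (nat_lit 98) (nat_lit 871) (nat_lit 1) .nil)), (nat_lit 7), (nat_lit 0), (nat_lit 0),
 (nat_lit 0), (58, 54, 53), [1422, 2038], 0⟩,
  mz,
  ⟨⟨17, -24, -89, -36, 55, -12, 54, 24, -53⟩, (.cons (nat_lit 876) (nat_lit 985) (nat_lit 1781) (nat_lit 1)
 (.cons (nat_lit 1210) (nat_lit 933) (nat_lit 39) (nat_lit 1) .nil)), (nat_lit 22), (nat_lit 0), (nat_lit 0),
 (nat_lit 0), (5, 27, 66), [1131, 812], 0⟩,
  ⟨⟨-3, 40, -73, -64, 25, 52, -26, -32, -41⟩, (.cons (nat_lit 317) (nat_lit 886) (nat_lit 844) (nat_lit 1)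
 (.cons (nat_lit 2009) (nat_lit 1642) (nat_lit 1971) (nat_lit 1) .nil)), (nat_lit 7), (nat_lit 0), (nat_lit 0),
 (nat_lit 0), (12, 43, 33), [159, 1679], 0⟩,
  mz,
  mz,
  ⟨⟨-65, 24, -7, -4, 55, 52, 10, 40, -59⟩, (.cons (nat_lit 818) (nat_lit 412) (nat_lit 1219) (nat_lit 1) (.cons
 (nat_lit 2022) (nat_lit 1974) (nat_lit 1232) (nat_lit 1) .nil)), (nat_lit 50), (nat_lit 0), (nat_lit 0),
 (nat_lit 0), (43, 66, 48), [536, 1152], 0⟩,
  ⟨⟨11, -72, -36, -50, 11, -30, 44, -4, -73⟩, (.cons (nat_lit 1579) (nat_lit 1553) (nat_lit 994) (nat_lit 1)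
 (.cons (nat_lit 1372) (nat_lit 961) (nat_lit 1868) (nat_lit 1) .nil)), (nat_lit 29), (nat_lit 0), (nat_lit 0),
 (nat_lit 0), (69, 22, 63), [1071, 1799], 0⟩,
  ⟨⟨-39, -40, -41, 44, -55, -12, 22, 8, -77⟩, (.cons (nat_lit 1506) (nat_lit 521) (nat_lit 337) (nat_lit 1)
 (.cons (nat_lit 1270) (nat_lit 1511) (nat_lit 26) (nat_lit 1) .nil)), (nat_lit 23), (nat_lit 0), (nat_lit 0),
 (nat_lit 0), (46, 10, 5), [325, 1947], 0⟩,
  mz,
  ⟨⟨-9, -76, -11, 44, -15, 38, 42, -24, -67⟩, (.cons (nat_lit 1330) (nat_lit 273) (nat_lit 997) (nat_lit 1)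
 (.cons (nat_lit 554) (nat_lit 1236) (nat_lit 2006) (nat_lit 1) .nil)), (nat_lit 11), (nat_lit 0), (nat_lit 0),
 (nat_lit 0), (66, 56, 47), [821, 1545], 0⟩,
  ⟨⟨9, -16, 80, 10, 69, 10, 60, -12, -11⟩, (.cons (nat_lit 806) (nat_lit 612) (nat_lit 1421) (nat_lit 1) (.cons
 (nat_lit 2079) (nat_lit 1010) (nat_lit 1894) (nat_lit 1) .nil)), (nat_lit 54), (nat_lit 0), (nat_lit 0),
 (nat_lit 0), (33, 13, 7), [1728, 978], 0⟩,
  ⟨⟨51, 4, 40, 10, 69, -20, 60, -12, -49⟩, (.cons (nat_lit 1848) (nat_lit 1532) (nat_lit 1432) (nat_lit 1)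
 (.cons (nat_lit 2208) (nat_lit 1144) (nat_lit 1784) (nat_lit 1) .nil)), (nat_lit 48), (nat_lit 0), (nat_lit
 0), (nat_lit 0), (13, 29, 32), [1815, 2123], 0⟩,
  ⟨⟨9, -56, -64, -56, 25, -12, 38, 16, -73⟩, (.cons (nat_lit 1814) (nat_lit 853) (nat_lit 1074) (nat_lit 1)
 (.cons (nat_lit 1602) (nat_lit 2150) (nat_lit 1657) (nat_lit 1) .nil)), (nat_lit 39), (nat_lit 0), (nat_lit
 0), (nat_lit 0), (4, 54, 9), [673, 1578], 0⟩,
  ⟨⟨-75, 16, 23, 4, 55, 48, -10, 40, -49⟩, (.cons (nat_lit 1033) (nat_lit 1523) (nat_lit 1791) (nat_lit 1)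
 (.cons (nat_lit 189) (nat_lit 235) (nat_lit 1306) (nat_lit 1) .nil)), (nat_lit 42), (nat_lit 0), (nat_lit 0),
 (nat_lit 0), (26, 45, 65), [1138, 1340], 0⟩,
  ⟨⟨-51, 52, -5, 44, 15, -82, -42, -24, -25⟩, (.cons (nat_lit 499) (nat_lit 1405) (nat_lit 1144) (nat_lit 1)
 (.cons (nat_lit 49) (nat_lit 702) (nat_lit 1545) (nat_lit 1) .nil)), (nat_lit 5), (nat_lit 0), (nat_lit 0),
 (nat_lit 0), (18, 68, 19), [858, 1120], 0⟩,
  mz,
  ⟨⟨13, -72, 23, 70, 11, -40, 4, -44, -53⟩, (.cons (nat_lit 1480) (nat_lit 950) (nat_lit 1759) (nat_lit 1)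
 (.cons (nat_lit 1577) (nat_lit 546) (nat_lit 2004) (nat_lit 1) .nil)), (nat_lit 43), (nat_lit 0), (nat_lit 0),
 (nat_lit 0), (14, 59, 48), [80, 1644], 0⟩,
  ⟨⟨9, 16, 80, -10, 69, -10, 60, 12, -11⟩, (.cons (nat_lit 39) (nat_lit 169) (nat_lit 51) (nat_lit 1) (.cons
 (nat_lit 2192) (nat_lit 1707) (nat_lit 1272) (nat_lit 1) .nil)), (nat_lit 47), (nat_lit 0), (nat_lit 0),
 (nat_lit 0), (58, 46, 8), [859, 2099], 0⟩,
  ⟨⟨75, -20, -32, 10, 21, -80, 12, -60, -25⟩, (.cons (nat_lit 1848) (nat_lit 271) (nat_lit 1560) (nat_lit 1)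
 (.cons (nat_lit 2208) (nat_lit 951) (nat_lit 1395) (nat_lit 1) .nil)), (nat_lit 55), (nat_lit 0), (nat_lit 0),
 (nat_lit 0), (52, 59, 14), [1214, 106], 0⟩,
  mz,
  ⟨⟨-11, -72, -25, 50, 11, -80, -44, -4, -29⟩, (.cons (nat_lit 528) (nat_lit 822) (nat_lit 898) (nat_lit 1)
 (.cons (nat_lit 1072) (nat_lit 914) (nat_lit 1798) (nat_lit 1) .nil)), (nat_lit 29), (nat_lit 0), (nat_lit 0),
 (nat_lit 0), (38, 8, 10), [512, 1235], 0⟩,
  ⟨⟨-75, -20, 43, -10, 21, -70, -12, -60, -13⟩, (.cons (nat_lit 1248) (nat_lit 1217) (nat_lit 934) (nat_lit 1)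
 (.cons (nat_lit 1787) (nat_lit 1844) (nat_lit 1190) (nat_lit 1) .nil)), (nat_lit 55), (nat_lit 0), (nat_lit
 0), (nat_lit 0), (2, 5, 6), [870, 2174], 0⟩,
  mz,
  mz,
  mz,
  ⟨⟨11, 72, -36, 50, 11, 30, 44, 4, -73⟩, (.cons (nat_lit 197) (nat_lit 450) (nat_lit 319) (nat_lit 1) (.cons
 (nat_lit 773) (nat_lit 743) (nat_lit 927) (nat_lit 1) .nil)), (nat_lit 64), (nat_lit 0), (nat_lit 0), (nat_lit
 0), (4, 44, 16), [682, 469], 0⟩,
  mz,
  ⟨⟨-13, 72, 36, 70, 11, -30, -4, 44, -49⟩, (.cons (nat_lit 1192) (nat_lit 1659) (nat_lit 646) (nat_lit 1)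
 (.cons (nat_lit 1466) (nat_lit 2008) (nat_lit 1762) (nat_lit 1) .nil)), (nat_lit 62), (nat_lit 0), (nat_lit
 0), (nat_lit 0), (35, 30, 49), [1630, 718], 0⟩,
  ⟨⟨-65, -24, -7, 4, 55, -52, 10, -40, -59⟩, (.cons (nat_lit 689) (nat_lit 1516) (nat_lit 425) (nat_lit 1)
 (.cons (nat_lit 1646) (nat_lit 1031) (nat_lit 47) (nat_lit 1) .nil)), (nat_lit 3), (nat_lit 0), (nat_lit 0),
 (nat_lit 0), (41, 51, 21), [1654, 964], 0⟩,
  mz,
  ⟨⟨33, 20, -92, -64, 15, 2, 6, -48, -49⟩, (.cons (nat_lit 941) (nat_lit 629) (nat_lit 646) (nat_lit 1) (.cons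
 (nat_lit 1480) (nat_lit 683) (nat_lit 420) (nat_lit 1) .nil)), (nat_lit 51), (nat_lit 0), (nat_lit 0),
 (nat_lit 0), (45, 16, 34), [1369, 1032], 0⟩,
  ⟨⟨-9, -28, -76, -70, 11, 40, 4, 44, -53⟩, (.cons (nat_lit 590) (nat_lit 964) (nat_lit 429) (nat_lit 1) (.cons
 (nat_lit 1513) (nat_lit 1517) (nat_lit 823) (nat_lit 1) .nil)), (nat_lit 31), (nat_lit 0), (nat_lit 0),
 (nat_lit 0), (8, 7, 28), [856, 1282], 0⟩,
  ⟨⟨-3, -40, -73, 64, 25, -52, -26, 32, -41⟩, (.cons (nat_lit 1669) (nat_lit 1381) (nat_lit 1108) (nat_lit 1)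
 (.cons (nat_lit 1359) (nat_lit 1914) (nat_lit 477) (nat_lit 1) .nil)), (nat_lit 33), (nat_lit 0), (nat_lit 0),
 (nat_lit 0), (56, 36, 12), [501, 1249], 0⟩,
  ⟨⟨17, 24, 72, 36, 55, -48, 54, -24, -1⟩, (.cons (nat_lit 1848) (nat_lit 700) (nat_lit 778) (nat_lit 1) (.cons
 (nat_lit 2208) (nat_lit 1122) (nat_lit 1556) (nat_lit 1) .nil)), (nat_lit 70), (nat_lit 0), (nat_lit 0),
 (nat_lit 0), (30, 51, 41), [383, 526], 0⟩]

/-- Moves. -/
noncomputable def t4_6 : List Mv := [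
  mz,
  ⟨⟨-75, 20, 43, -10, -21, -70, -12, 60, -13⟩, (.cons (nat_lit 1010) (nat_lit 1358) (nat_lit 640) (nat_lit 1)
 (.cons (nat_lit 337) (nat_lit 304) (nat_lit 1415) (nat_lit 1) .nil)), (nat_lit 55), (nat_lit 0), (nat_lit 0),
 (nat_lit 0), (51, 21, 11), [1244, 98], 0⟩,
  mz,
  ⟨⟨-75, -16, 23, -4, 55, -48, -10, -40, -49⟩, (.cons (nat_lit 1162) (nat_lit 505) (nat_lit 1682) (nat_lit 1)
 (.cons (nat_lit 565) (nat_lit 661) (nat_lit 2162) (nat_lit 1) .nil)), (nat_lit 65), (nat_lit 0), (nat_lit 0),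
 (nat_lit 0), (1, 1, 38), [20, 1528], 0⟩,
  ⟨⟨27, 68, 16, 64, -15, -62, -6, 48, -43⟩, (.cons (nat_lit 1491) (nat_lit 177) (nat_lit 671) (nat_lit 1)
 (.cons (nat_lit 973) (nat_lit 1402) (nat_lit 1576) (nat_lit 1) .nil)), (nat_lit 46), (nat_lit 0), (nat_lit 0),
 (nat_lit 0), (60, 16, 34), [1300, 1174], 0⟩,
  ⟨⟨27, -68, 16, 64, 15, -62, -6, -48, -43⟩, (.cons (nat_lit 1844) (nat_lit 575) (nat_lit 85) (nat_lit 1)
 (.cons (nat_lit 869) (nat_lit 680) (nat_lit 614) (nat_lit 1) .nil)), (nat_lit 46), (nat_lit 0), (nat_lit 0),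
 (nat_lit 0), (7, 35, 30), [1756, 1502], 0⟩,
  mz,
  ⟨⟨-29, 72, 20, 56, 25, -68, -38, 16, -35⟩, (.cons (nat_lit 1169) (nat_lit 1039) (nat_lit 345) (nat_lit 1)
 (.cons (nat_lit 756) (nat_lit 294) (nat_lit 693) (nat_lit 1) .nil)), (nat_lit 8), (nat_lit 0), (nat_lit 0),
 (nat_lit 0), (33, 44, 31), [974, 1719], 0⟩,
  ⟨⟨3, 40, -76, -64, -25, 12, 26, -32, -67⟩, (.cons (nat_lit 202) (nat_lit 1265) (nat_lit 1296) (nat_lit 1)
 (.cons (nat_lit 1979) (nat_lit 1020) (nat_lit 43) (nat_lit 1) .nil)), (nat_lit 33), (nat_lit 0), (nat_lit 0),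
 (nat_lit 0), (14, 9, 3), [593, 237], 0⟩,
  mz,
  mz,
  ⟨⟨33, -20, -92, 64, 15, -2, 6, 48, -49⟩, (.cons (nat_lit 1006) (nat_lit 474) (nat_lit 493) (nat_lit 1) (.cons
 (nat_lit 421) (nat_lit 17) (nat_lit 386) (nat_lit 1) .nil)), (nat_lit 12), (nat_lit 0), (nat_lit 0), (nat_lit
 0), (67, 3, 38), [1030, 838], 0⟩,
  ⟨⟨9, 76, -20, 44, -15, -82, -42, 24, -25⟩, (.cons (nat_lit 1190) (nat_lit 386) (nat_lit 1633) (nat_lit 1)
 (.cons (nat_lit 1302) (nat_lit 1003) (nat_lit 857) (nat_lit 1) .nil)), (nat_lit 67), (nat_lit 0), (nat_lit 0),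
 (nat_lit 0), (31, 49, 21), [483, 375], 0⟩,
  mz,
  mz,
  ⟨⟨51, -52, -56, 44, 15, 38, 42, 24, -67⟩, (.cons (nat_lit 210) (nat_lit 683) (nat_lit 1147) (nat_lit 1)
 (.cons (nat_lit 1903) (nat_lit 15) (nat_lit 1029) (nat_lit 1) .nil)), (nat_lit 4), (nat_lit 0), (nat_lit 0),
 (nat_lit 0), (24, 4, 49), [1584, 2066], 0⟩,
  ⟨⟨37, -48, 36, -36, -55, -12, 54, -24, -53⟩, (.cons (nat_lit 1848) (nat_lit 1614) (nat_lit 1623) (nat_lit 1)
 (.cons (nat_lit 2208) (nat_lit 1996) (nat_lit 1712) (nat_lit 1) .nil)), (nat_lit 16), (nat_lit 0), (nat_lit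
 0), (nat_lit 0), (57, 52, 64), [1079, 1025], 0⟩,
  mz,
  ⟨⟨9, 56, -64, -56, -25, -12, 38, -16, -73⟩, (.cons (nat_lit 1409) (nat_lit 1497) (nat_lit 499) (nat_lit 1)
 (.cons (nat_lit 1711) (nat_lit 2037) (nat_lit 18) (nat_lit 1) .nil)), (nat_lit 39), (nat_lit 0), (nat_lit 0),
 (nat_lit 0), (56, 46, 55), [304, 1098], 0⟩,
  ⟨⟨-61, -48, 25, 44, -55, -32, -22, -8, -55⟩, (.cons (nat_lit 861) (nat_lit 954) (nat_lit 1076) (nat_lit 1)
 (.cons (nat_lit 1176) (nat_lit 647) (nat_lit 1120) (nat_lit 1) .nil)), (nat_lit 24), (nat_lit 0), (nat_lit 0),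
 (nat_lit 0), (9, 68, 37), [1486, 67], 0⟩,
  mz,
  mz,
  ⟨⟨17, -24, 72, 36, -55, -48, 54, 24, -1⟩, (.cons (nat_lit 309) (nat_lit 204) (nat_lit 1348) (nat_lit 1)
 (.cons (nat_lit 380) (nat_lit 1297) (nat_lit 767) (nat_lit 1) .nil)), (nat_lit 70), (nat_lit 0), (nat_lit 0),
 (nat_lit 0), (28, 5, 43), [759, 309], 0⟩,
  ⟨⟨-61, 48, 25, 44, 55, -32, -22, 8, -55⟩, (.cons (nat_lit 1039) (nat_lit 1463) (nat_lit 1608) (nat_lit 1)
 (.cons (nat_lit 2083) (nat_lit 1874) (nat_lit 2135) (nat_lit 1) .nil)), (nat_lit 24), (nat_lit 0), (nat_lit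
 0), (nat_lit 0), (13, 43, 14), [1440, 373], 0⟩,
  ⟨⟨-39, 40, -41, 44, 55, -12, 22, -8, -77⟩, (.cons (nat_lit 1413) (nat_lit 1812) (nat_lit 317) (nat_lit 1)
 (.cons (nat_lit 1385) (nat_lit 85) (nat_lit 876) (nat_lit 1) .nil)), (nat_lit 23), (nat_lit 0), (nat_lit 0),
 (nat_lit 0), (2, 56, 28), [1186, 616], 0⟩,
  mz,
  ⟨⟨51, -4, 40, 10, -69, -20, 60, 12, -49⟩, (.cons (nat_lit 935) (nat_lit 1753) (nat_lit 170) (nat_lit 1)
 (.cons (nat_lit 622) (nat_lit 682) (nat_lit 503) (nat_lit 1) .nil)), (nat_lit 48), (nat_lit 0), (nat_lit 0),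
 (nat_lit 0), (60, 41, 33), [1067, 150], 0⟩,
  mz,
  mz,
  ⟨⟨-13, -72, 36, -70, 11, 30, -4, -44, -49⟩, (.cons (nat_lit 541) (nat_lit 1122) (nat_lit 305) (nat_lit 1)
 (.cons (nat_lit 256) (nat_lit 1392) (nat_lit 1145) (nat_lit 1) .nil)), (nat_lit 43), (nat_lit 0), (nat_lit 0),
 (nat_lit 0), (29, 36, 69), [381, 516], 0⟩,
  mz,
  ⟨⟨-11, 72, -25, 50, -11, -80, -44, 4, -29⟩, (.cons (nat_lit 886) (nat_lit 892) (nat_lit 1794) (nat_lit 1)
 (.cons (nat_lit 1553) (nat_lit 434) (nat_lit 911) (nat_lit 1) .nil)), (nat_lit 29), (nat_lit 0), (nat_lit 0),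
 (nat_lit 0), (44, 13, 34), [1633, 231], 0⟩,
  mz,
  ⟨⟨-29, -72, 20, 56, -25, -68, -38, -16, -35⟩, (.cons (nat_lit 119) (nat_lit 1083) (nat_lit 1092) (nat_lit 1)
 (.cons (nat_lit 1335) (nat_lit 1253) (nat_lit 29) (nat_lit 1) .nil)), (nat_lit 8), (nat_lit 0), (nat_lit 0),
 (nat_lit 0), (27, 36, 6), [1164, 17], 0⟩,
  ⟨⟨-63, 40, 7, -10, 21, 80, 12, 60, -25⟩, (.cons (nat_lit 302) (nat_lit 1617) (nat_lit 123) (nat_lit 1) (.cons
 (nat_lit 894) (nat_lit 75) (nat_lit 491) (nat_lit 1) .nil)), (nat_lit 1), (nat_lit 0), (nat_lit 0), (nat_lit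
 0), (60, 67, 19), [655, 294], 0⟩,
  mz,
  ⟨⟨23, 72, 9, 64, -25, -12, 26, 32, -67⟩, (.cons (nat_lit 268) (nat_lit 1807) (nat_lit 337) (nat_lit 1) (.cons
 (nat_lit 639) (nat_lit 1124) (nat_lit 1106) (nat_lit 1) .nil)), (nat_lit 49), (nat_lit 0), (nat_lit 0),
 (nat_lit 0), (66, 54, 53), [1465, 769], 0⟩,
  mz,
  ⟨⟨17, -24, -89, -36, 55, -12, 54, 24, -53⟩, (.cons (nat_lit 876) (nat_lit 985) (nat_lit 1781) (nat_lit 1)
 (.cons (nat_lit 1210) (nat_lit 933) (nat_lit 39) (nat_lit 1) .nil)), (nat_lit 22), (nat_lit 0), (nat_lit 0),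
 (nat_lit 0), (5, 27, 66), [1131, 812], 0⟩,
  ⟨⟨-23, -72, 32, -64, 25, 52, -26, -32, -41⟩, (.cons (nat_lit 1532) (nat_lit 447) (nat_lit 242) (nat_lit 1)
 (.cons (nat_lit 1281) (nat_lit 473) (nat_lit 232) (nat_lit 1) .nil)), (nat_lit 49), (nat_lit 0), (nat_lit 0),
 (nat_lit 0), (21, 43, 33), [73, 269], 0⟩,
  mz,
  mz,
  ⟨⟨75, 16, -52, 4, -55, -52, 10, 40, -59⟩, (.cons (nat_lit 1078) (nat_lit 1359) (nat_lit 117) (nat_lit 1)
 (.cons (nat_lit 238) (nat_lit 1885) (nat_lit 1) (nat_lit 188) .nil)), (nat_lit 65), (nat_lit 0), (nat_lit 0),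
 (nat_lit 0), (5, 5, 48), [1510, 1196], 0⟩,
  ⟨⟨11, -72, -36, -50, 11, -30, 44, -4, -73⟩, (.cons (nat_lit 1579) (nat_lit 1553) (nat_lit 994) (nat_lit 1)
 (.cons (nat_lit 1372) (nat_lit 961) (nat_lit 1868) (nat_lit 1) .nil)), (nat_lit 29), (nat_lit 0), (nat_lit 0),
 (nat_lit 0), (69, 22, 63), [1071, 1799], 0⟩,
  ⟨⟨-39, -40, -41, 44, -55, -12, 22, 8, -77⟩, (.cons (nat_lit 1506) (nat_lit 521) (nat_lit 337) (nat_lit 1)
 (.cons (nat_lit 1270) (nat_lit 1511) (nat_lit 26) (nat_lit 1) .nil)), (nat_lit 23), (nat_lit 0), (nat_lit 0),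
 (nat_lit 0), (46, 10, 5), [325, 1947], 0⟩,
  mz,
  ⟨⟨-9, -76, -11, -44, 15, -38, 42, -24, -67⟩, (.cons (nat_lit 1832) (nat_lit 1476) (nat_lit 920) (nat_lit 1)
 (.cons (nat_lit 519) (nat_lit 1554) (nat_lit 1416) (nat_lit 1) .nil)), (nat_lit 67), (nat_lit 0), (nat_lit 0),
 (nat_lit 0), (66, 15, 47), [729, 86], 0⟩,
  ⟨⟨51, 4, -91, 10, 69, 10, 60, -12, -11⟩, (.cons (nat_lit 11) (nat_lit 291) (nat_lit 1507) (nat_lit 1) (.cons
 (nat_lit 600) (nat_lit 1669) (nat_lit 860) (nat_lit 1) .nil)), (nat_lit 48), (nat_lit 0), (nat_lit 0),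
 (nat_lit 0), (45, 13, 7), [1814, 1495], 0⟩,
  ⟨⟨51, 4, 40, 10, 69, -20, 60, -12, -49⟩, (.cons (nat_lit 1848) (nat_lit 1532) (nat_lit 1432) (nat_lit 1)
 (.cons (nat_lit 2208) (nat_lit 1144) (nat_lit 1784) (nat_lit 1) .nil)), (nat_lit 48), (nat_lit 0), (nat_lit
 0), (nat_lit 0), (13, 29, 32), [1815, 2123], 0⟩,
  ⟨⟨9, -56, -64, -56, 25, -12, 38, 16, -73⟩, (.cons (nat_lit 1814) (nat_lit 853) (nat_lit 1074) (nat_lit 1)
 (.cons (nat_lit 1602) (nat_lit 2150) (nat_lit 1657) (nat_lit 1) .nil)), (nat_lit 39), (nat_lit 0), (nat_lit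
 0), (nat_lit 0), (4, 54, 9), [673, 1578], 0⟩,
  ⟨⟨-75, 16, 23, -4, -55, -48, -10, 40, -49⟩, (.cons (nat_lit 1029) (nat_lit 886) (nat_lit 528) (nat_lit 1)
 (.cons (nat_lit 1507) (nat_lit 1264) (nat_lit 1) (nat_lit 1598) .nil)), (nat_lit 65), (nat_lit 0), (nat_lit
 0), (nat_lit 0), (26, 26, 65), [1682, 1196], 0⟩,
  ⟨⟨9, -76, -20, 44, 15, -82, -42, -24, -25⟩, (.cons (nat_lit 1737) (nat_lit 186) (nat_lit 241) (nat_lit 1)
 (.cons (nat_lit 703) (nat_lit 1413) (nat_lit 746) (nat_lit 1) .nil)), (nat_lit 67), (nat_lit 0), (nat_lit 0),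
 (nat_lit 0), (1, 68, 19), [1073, 932], 0⟩,
  mz,
  ⟨⟨13, -72, 23, 70, 11, -40, 4, -44, -53⟩, (.cons (nat_lit 1480) (nat_lit 950) (nat_lit 1759) (nat_lit 1)
 (.cons (nat_lit 1577) (nat_lit 546) (nat_lit 2004) (nat_lit 1) .nil)), (nat_lit 43), (nat_lit 0), (nat_lit 0),
 (nat_lit 0), (14, 59, 48), [80, 1644], 0⟩,
  ⟨⟨9, 16, 80, -10, 69, -10, 60, 12, -11⟩, (.cons (nat_lit 39) (nat_lit 169) (nat_lit 51) (nat_lit 1) (.cons
 (nat_lit 2192) (nat_lit 1707) (nat_lit 1272) (nat_lit 1) .nil)), (nat_lit 47), (nat_lit 0), (nat_lit 0),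
 (nat_lit 0), (58, 46, 8), [859, 2099], 0⟩,
  ⟨⟨75, -20, -32, 10, 21, -80, 12, -60, -25⟩, (.cons (nat_lit 1848) (nat_lit 271) (nat_lit 1560) (nat_lit 1)
 (.cons (nat_lit 2208) (nat_lit 951) (nat_lit 1395) (nat_lit 1) .nil)), (nat_lit 55), (nat_lit 0), (nat_lit 0),
 (nat_lit 0), (52, 59, 14), [1214, 106], 0⟩,
  mz,
  ⟨⟨-11, -72, -25, 50, 11, -80, -44, -4, -29⟩, (.cons (nat_lit 528) (nat_lit 822) (nat_lit 898) (nat_lit 1)
 (.cons (nat_lit 1072) (nat_lit 914) (nat_lit 1798) (nat_lit 1) .nil)), (nat_lit 29), (nat_lit 0), (nat_lit 0),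
 (nat_lit 0), (38, 8, 10), [512, 1235], 0⟩,
  ⟨⟨-75, -20, 43, -10, 21, -70, -12, -60, -13⟩, (.cons (nat_lit 1248) (nat_lit 1217) (nat_lit 934) (nat_lit 1)
 (.cons (nat_lit 1787) (nat_lit 1844) (nat_lit 1190) (nat_lit 1) .nil)), (nat_lit 55), (nat_lit 0), (nat_lit
 0), (nat_lit 0), (2, 5, 6), [870, 2174], 0⟩,
  mz,
  mz,
  mz,
  ⟨⟨33, -68, -37, -50, -11, -30, 44, 4, -73⟩, (.cons (nat_lit 1445) (nat_lit 1731) (nat_lit 227) (nat_lit 1)
 (.cons (nat_lit 1224) (nat_lit 1822) (nat_lit 875) (nat_lit 1) .nil)), (nat_lit 53), (nat_lit 0), (nat_lit 0),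
 (nat_lit 0), (12, 27, 16), [85, 372], 0⟩,
  mz,
  ⟨⟨-13, 72, 36, 70, 11, -30, -4, 44, -49⟩, (.cons (nat_lit 1192) (nat_lit 1659) (nat_lit 646) (nat_lit 1)
 (.cons (nat_lit 1466) (nat_lit 2008) (nat_lit 1762) (nat_lit 1) .nil)), (nat_lit 62), (nat_lit 0), (nat_lit
 0), (nat_lit 0), (35, 30, 49), [1630, 718], 0⟩,
  ⟨⟨-65, -24, -7, -4, -55, 52, 10, -40, -59⟩, (.cons (nat_lit 1734) (nat_lit 195) (nat_lit 1552) (nat_lit 1)
 (.cons (nat_lit 1269) (nat_lit 1443) (nat_lit 1394) (nat_lit 1) .nil)), (nat_lit 50), (nat_lit 0), (nat_lit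
 0), (nat_lit 0), (41, 20, 21), [980, 1475], 0⟩,
  mz,
  ⟨⟨-27, -68, 43, 64, -15, -2, 6, -48, -49⟩, (.cons (nat_lit 1158) (nat_lit 1330) (nat_lit 992) (nat_lit 1)
 (.cons (nat_lit 1541) (nat_lit 1053) (nat_lit 877) (nat_lit 1) .nil)), (nat_lit 15), (nat_lit 0), (nat_lit 0),
 (nat_lit 0), (60, 55, 34), [1509, 652], 0⟩,
  ⟨⟨13, 72, 23, 70, -11, -40, 4, 44, -53⟩, (.cons (nat_lit 671) (nat_lit 1694) (nat_lit 1060) (nat_lit 1)
 (.cons (nat_lit 237) (nat_lit 4) (nat_lit 2141) (nat_lit 1) .nil)), (nat_lit 43), (nat_lit 0), (nat_lit 0),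
 (nat_lit 0), (20, 64, 28), [1375, 795], 0⟩,
  ⟨⟨-23, 72, 32, 64, 25, -52, -26, 32, -41⟩, (.cons (nat_lit 1728) (nat_lit 1758) (nat_lit 1409) (nat_lit 1)
 (.cons (nat_lit 333) (nat_lit 1564) (nat_lit 1370) (nat_lit 1) .nil)), (nat_lit 18), (nat_lit 0), (nat_lit 0),
 (nat_lit 0), (27, 36, 12), [1576, 685], 0⟩,
  ⟨⟨17, 24, 72, 36, 55, -48, 54, -24, -1⟩, (.cons (nat_lit 1848) (nat_lit 700) (nat_lit 778) (nat_lit 1) (.cons
 (nat_lit 2208) (nat_lit 1122) (nat_lit 1556) (nat_lit 1) .nil)), (nat_lit 70), (nat_lit 0), (nat_lit 0),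
 (nat_lit 0), (30, 51, 41), [383, 526], 0⟩]

/-- Moves. -/
noncomputable def t4_7 : List Mv := [
  mz,
  ⟨⟨-75, 20, 43, -10, -21, -70, -12, 60, -13⟩, (.cons (nat_lit 1010) (nat_lit 1358) (nat_lit 640) (nat_lit 1)
 (.cons (nat_lit 337) (nat_lit 304) (nat_lit 1415) (nat_lit 1) .nil)), (nat_lit 55), (nat_lit 0), (nat_lit 0),
 (nat_lit 0), (51, 21, 11), [1244, 98], 0⟩,
  mz,
  ⟨⟨65, -24, -72, -4, 55, -48, -10, -40, -49⟩, (.cons (nat_lit 1848) (nat_lit 1473) (nat_lit 1467) (nat_lit 1)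
 (.cons (nat_lit 2208) (nat_lit 1454) (nat_lit 141) (nat_lit 1) .nil)), (nat_lit 3), (nat_lit 0), (nat_lit 0),
 (nat_lit 0), (37, 1, 38), [708, 964], 0⟩,
  ⟨⟨27, 68, 16, 64, -15, -62, -6, 48, -43⟩, (.cons (nat_lit 1491) (nat_lit 177) (nat_lit 671) (nat_lit 1)
 (.cons (nat_lit 973) (nat_lit 1402) (nat_lit 1576) (nat_lit 1) .nil)), (nat_lit 46), (nat_lit 0), (nat_lit 0),
 (nat_lit 0), (60, 16, 34), [1300, 1174], 0⟩,
  ⟨⟨-33, 20, -59, 64, 15, -62, -6, -48, -43⟩, (.cons (nat_lit 478) (nat_lit 1446) (nat_lit 472) (nat_lit 1)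
 (.cons (nat_lit 541) (nat_lit 166) (nat_lit 1366) (nat_lit 1) .nil)), (nat_lit 51), (nat_lit 0), (nat_lit 0),
 (nat_lit 0), (23, 35, 30), [896, 374], 0⟩,
  mz,
  ⟨⟨-29, 72, 20, 56, 25, -68, -38, 16, -35⟩, (.cons (nat_lit 1169) (nat_lit 1039) (nat_lit 345) (nat_lit 1)
 (.cons (nat_lit 756) (nat_lit 294) (nat_lit 693) (nat_lit 1) .nil)), (nat_lit 8), (nat_lit 0), (nat_lit 0),
 (nat_lit 0), (33, 44, 31), [974, 1719], 0⟩,
  ⟨⟨3, 40, -76, 64, 25, -12, 26, -32, -67⟩, (.cons (nat_lit 242) (nat_lit 26) (nat_lit 1564) (nat_lit 1) (.cons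
 (nat_lit 1610) (nat_lit 1595) (nat_lit 2024) (nat_lit 1) .nil)), (nat_lit 7), (nat_lit 0), (nat_lit 0),
 (nat_lit 0), (14, 62, 3), [1535, 1820], 0⟩,
  mz,
  mz,
  ⟨⟨33, -20, -92, 64, 15, -2, 6, 48, -49⟩, (.cons (nat_lit 1006) (nat_lit 474) (nat_lit 493) (nat_lit 1) (.cons
 (nat_lit 421) (nat_lit 17) (nat_lit 386) (nat_lit 1) .nil)), (nat_lit 12), (nat_lit 0), (nat_lit 0), (nat_lit
 0), (67, 3, 38), [1030, 838], 0⟩,
  ⟨⟨9, 76, -20, -44, 15, 82, -42, 24, -25⟩, (.cons (nat_lit 726) (nat_lit 1639) (nat_lit 788) (nat_lit 1)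
 (.cons (nat_lit 446) (nat_lit 1254) (nat_lit 146) (nat_lit 1) .nil)), (nat_lit 11), (nat_lit 0), (nat_lit 0),
 (nat_lit 0), (31, 22, 21), [1541, 468], 0⟩,
  mz,
  mz,
  ⟨⟨51, -52, -56, -44, -15, -38, 42, 24, -67⟩, (.cons (nat_lit 1448) (nat_lit 1678) (nat_lit 517) (nat_lit 1)
 (.cons (nat_lit 1490) (nat_lit 2005) (nat_lit 83) (nat_lit 1) .nil)), (nat_lit 5), (nat_lit 0), (nat_lit 0),
 (nat_lit 0), (24, 67, 49), [655, 234], 0⟩,
  ⟨⟨17, 24, -89, -36, -55, -12, 54, -24, -53⟩, (.cons (nat_lit 560) (nat_lit 1439) (nat_lit 1580) (nat_lit 1)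
 (.cons (nat_lit 2116) (nat_lit 1059) (nat_lit 537) (nat_lit 1) .nil)), (nat_lit 22), (nat_lit 0), (nat_lit 0),
 (nat_lit 0), (7, 52, 64), [993, 367], 0⟩,
  mz,
  ⟨⟨9, 56, -64, -56, -25, -12, 38, -16, -73⟩, (.cons (nat_lit 1409) (nat_lit 1497) (nat_lit 499) (nat_lit 1)
 (.cons (nat_lit 1711) (nat_lit 2037) (nat_lit 18) (nat_lit 1) .nil)), (nat_lit 39), (nat_lit 0), (nat_lit 0),
 (nat_lit 0), (56, 46, 55), [304, 1098], 0⟩,
  ⟨⟨39, 40, -80, -44, 55, 32, -22, -8, -55⟩, (.cons (nat_lit 1081) (nat_lit 1296) (nat_lit 242) (nat_lit 1)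
 (.cons (nat_lit 2187) (nat_lit 2106) (nat_lit 64) (nat_lit 1) .nil)), (nat_lit 23), (nat_lit 0), (nat_lit 0),
 (nat_lit 0), (28, 3, 37), [1272, 1838], 0⟩,
  mz,
  mz,
  ⟨⟨37, 48, -73, -36, 55, 48, 54, 24, -1⟩, (.cons (nat_lit 1291) (nat_lit 496) (nat_lit 1516) (nat_lit 1)
 (.cons (nat_lit 95) (nat_lit 1009) (nat_lit 2001) (nat_lit 1) .nil)), (nat_lit 16), (nat_lit 0), (nat_lit 0),
 (nat_lit 0), (15, 66, 43), [1630, 1325], 0⟩,
  ⟨⟨-61, 48, 25, 44, 55, -32, -22, 8, -55⟩, (.cons (nat_lit 1039) (nat_lit 1463) (nat_lit 1608) (nat_lit 1)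
 (.cons (nat_lit 2083) (nat_lit 1874) (nat_lit 2135) (nat_lit 1) .nil)), (nat_lit 24), (nat_lit 0), (nat_lit
 0), (nat_lit 0), (13, 43, 14), [1440, 373], 0⟩,
  ⟨⟨61, -48, -36, -44, -55, 12, 22, -8, -77⟩, (.cons (nat_lit 1848) (nat_lit 266) (nat_lit 42) (nat_lit 1)
 (.cons (nat_lit 2208) (nat_lit 1399) (nat_lit 1841) (nat_lit 1) .nil)), (nat_lit 24), (nat_lit 0), (nat_lit
 0), (nat_lit 0), (26, 15, 28), [1787, 678], 0⟩,
  mz,
  ⟨⟨51, -4, 40, 10, -69, -20, 60, 12, -49⟩, (.cons (nat_lit 935) (nat_lit 1753) (nat_lit 170) (nat_lit 1)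
 (.cons (nat_lit 622) (nat_lit 682) (nat_lit 503) (nat_lit 1) .nil)), (nat_lit 48), (nat_lit 0), (nat_lit 0),
 (nat_lit 0), (60, 41, 33), [1067, 150], 0⟩,
  mz,
  mz,
  ⟨⟨-13, -72, 36, 70, -11, -30, -4, -44, -49⟩, (.cons (nat_lit 468) (nat_lit 891) (nat_lit 1522) (nat_lit 1)
 (.cons (nat_lit 2138) (nat_lit 405) (nat_lit 1730) (nat_lit 1) .nil)), (nat_lit 62), (nat_lit 0), (nat_lit 0),
 (nat_lit 0), (29, 35, 69), [319, 93], 0⟩,
  mz,
  ⟨⟨-11, 72, -25, 50, -11, -80, -44, 4, -29⟩, (.cons (nat_lit 886) (nat_lit 892) (nat_lit 1794) (nat_lit 1)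
 (.cons (nat_lit 1553) (nat_lit 434) (nat_lit 911) (nat_lit 1) .nil)), (nat_lit 29), (nat_lit 0), (nat_lit 0),
 (nat_lit 0), (44, 13, 34), [1633, 231], 0⟩,
  mz,
  ⟨⟨-9, 56, -55, 56, -25, -68, -38, -16, -35⟩, (.cons (nat_lit 10) (nat_lit 1411) (nat_lit 662) (nat_lit 1)
 (.cons (nat_lit 169) (nat_lit 909) (nat_lit 264) (nat_lit 1) .nil)), (nat_lit 39), (nat_lit 0), (nat_lit 0),
 (nat_lit 0), (50, 36, 6), [820, 675], 0⟩,
  ⟨⟨-63, 40, 7, 10, -21, -80, 12, 60, -25⟩, (.cons (nat_lit 924) (nat_lit 448) (nat_lit 822) (nat_lit 1) (.cons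
 (nat_lit 1512) (nat_lit 1717) (nat_lit 2016) (nat_lit 1) .nil)), (nat_lit 58), (nat_lit 0), (nat_lit 0),
 (nat_lit 0), (60, 4, 19), [427, 897], 0⟩,
  mz,
  ⟨⟨3, -40, -76, 64, -25, -12, 26, 32, -67⟩, (.cons (nat_lit 1581) (nat_lit 1160) (nat_lit 767) (nat_lit 1)
 (.cons (nat_lit 2134) (nat_lit 98) (nat_lit 871) (nat_lit 1) .nil)), (nat_lit 7), (nat_lit 0), (nat_lit 0),
 (nat_lit 0), (58, 54, 53), [1422, 2038], 0⟩,
  mz,
  ⟨⟨17, -24, -89, -36, 55, -12, 54, 24, -53⟩, (.cons (nat_lit 876) (nat_lit 985) (nat_lit 1781) (nat_lit 1)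
 (.cons (nat_lit 1210) (nat_lit 933) (nat_lit 39) (nat_lit 1) .nil)), (nat_lit 22), (nat_lit 0), (nat_lit 0),
 (nat_lit 0), (5, 27, 66), [1131, 812], 0⟩,
  ⟨⟨-23, -72, 32, 64, -25, -52, -26, -32, -41⟩, (.cons (nat_lit 374) (nat_lit 369) (nat_lit 123) (nat_lit 1)
 (.cons (nat_lit 1415) (nat_lit 390) (nat_lit 1038) (nat_lit 1) .nil)), (nat_lit 18), (nat_lit 0), (nat_lit 0),
 (nat_lit 0), (21, 28, 33), [851, 2070], 0⟩,
  mz,
  mz,
  ⟨⟨75, 16, -52, -4, 55, 52, 10, 40, -59⟩, (.cons (nat_lit 1848) (nat_lit 1480) (nat_lit 1004) (nat_lit 1)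
 (.cons (nat_lit 2208) (nat_lit 658) (nat_lit 1420) (nat_lit 1) .nil)), (nat_lit 42), (nat_lit 0), (nat_lit 0),
 (nat_lit 0), (5, 66, 48), [149, 1152], 0⟩,
  ⟨⟨33, 68, -37, -50, 11, -30, 44, -4, -73⟩, (.cons (nat_lit 1388) (nat_lit 1586) (nat_lit 1037) (nat_lit 1)
 (.cons (nat_lit 367) (nat_lit 637) (nat_lit 129) (nat_lit 1) .nil)), (nat_lit 53), (nat_lit 0), (nat_lit 0),
 (nat_lit 0), (65, 22, 63), [125, 765], 0⟩,
  ⟨⟨-39, -40, -41, 44, -55, -12, 22, 8, -77⟩, (.cons (nat_lit 1506) (nat_lit 521) (nat_lit 337) (nat_lit 1)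
 (.cons (nat_lit 1270) (nat_lit 1511) (nat_lit 26) (nat_lit 1) .nil)), (nat_lit 23), (nat_lit 0), (nat_lit 0),
 (nat_lit 0), (46, 10, 5), [325, 1947], 0⟩,
  mz,
  ⟨⟨51, 52, -56, -44, 15, -38, 42, -24, -67⟩, (.cons (nat_lit 1479) (nat_lit 115) (nat_lit 17) (nat_lit 1)
 (.cons (nat_lit 938) (nat_lit 561) (nat_lit 617) (nat_lit 1) .nil)), (nat_lit 5), (nat_lit 0), (nat_lit 0),
 (nat_lit 0), (52, 15, 47), [514, 274], 0⟩,
  ⟨⟨9, -16, 80, 10, 69, 10, 60, -12, -11⟩, (.cons (nat_lit 806) (nat_lit 612) (nat_lit 1421) (nat_lit 1) (.cons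
 (nat_lit 2079) (nat_lit 1010) (nat_lit 1894) (nat_lit 1) .nil)), (nat_lit 54), (nat_lit 0), (nat_lit 0),
 (nat_lit 0), (33, 13, 7), [1728, 978], 0⟩,
  ⟨⟨51, 4, 40, 10, 69, -20, 60, -12, -49⟩, (.cons (nat_lit 1848) (nat_lit 1532) (nat_lit 1432) (nat_lit 1)
 (.cons (nat_lit 2208) (nat_lit 1144) (nat_lit 1784) (nat_lit 1) .nil)), (nat_lit 48), (nat_lit 0), (nat_lit
 0), (nat_lit 0), (13, 29, 32), [1815, 2123], 0⟩,
  ⟨⟨29, 72, -9, -56, 25, -12, 38, 16, -73⟩, (.cons (nat_lit 680) (nat_lit 609) (nat_lit 773) (nat_lit 1) (.cons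
 (nat_lit 1077) (nat_lit 1046) (nat_lit 764) (nat_lit 1) .nil)), (nat_lit 8), (nat_lit 0), (nat_lit 0),
 (nat_lit 0), (5, 54, 9), [1017, 1907], 0⟩,
  ⟨⟨-75, 16, 23, 4, 55, 48, -10, 40, -49⟩, (.cons (nat_lit 1033) (nat_lit 1523) (nat_lit 1791) (nat_lit 1)
 (.cons (nat_lit 189) (nat_lit 235) (nat_lit 1306) (nat_lit 1) .nil)), (nat_lit 42), (nat_lit 0), (nat_lit 0),
 (nat_lit 0), (26, 45, 65), [1138, 1340], 0⟩,
  ⟨⟨9, -76, -20, 44, 15, -82, -42, -24, -25⟩, (.cons (nat_lit 1737) (nat_lit 186) (nat_lit 241) (nat_lit 1)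
 (.cons (nat_lit 703) (nat_lit 1413) (nat_lit 746) (nat_lit 1) .nil)), (nat_lit 67), (nat_lit 0), (nat_lit 0),
 (nat_lit 0), (1, 68, 19), [1073, 932], 0⟩,
  mz,
  ⟨⟨13, -72, 23, -70, -11, 40, 4, -44, -53⟩, (.cons (nat_lit 865) (nat_lit 375) (nat_lit 1488) (nat_lit 1)
 (.cons (nat_lit 1904) (nat_lit 1251) (nat_lit 1795) (nat_lit 1) .nil)), (nat_lit 62), (nat_lit 0), (nat_lit
 0), (nat_lit 0), (14, 12, 48), [921, 1315], 0⟩,
  ⟨⟨9, 16, 80, -10, 69, -10, 60, 12, -11⟩, (.cons (nat_lit 39) (nat_lit 169) (nat_lit 51) (nat_lit 1) (.cons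
 (nat_lit 2192) (nat_lit 1707) (nat_lit 1272) (nat_lit 1) .nil)), (nat_lit 47), (nat_lit 0), (nat_lit 0),
 (nat_lit 0), (58, 46, 8), [859, 2099], 0⟩,
  ⟨⟨-63, -40, 7, 10, 21, -80, 12, -60, -25⟩, (.cons (nat_lit 603) (nat_lit 202) (nat_lit 743) (nat_lit 1)
 (.cons (nat_lit 424) (nat_lit 130) (nat_lit 1301) (nat_lit 1) .nil)), (nat_lit 58), (nat_lit 0), (nat_lit 0),
 (nat_lit 0), (33, 59, 14), [1816, 1281], 0⟩,
  mz,
  ⟨⟨-11, -72, -25, 50, 11, -80, -44, -4, -29⟩, (.cons (nat_lit 528) (nat_lit 822) (nat_lit 898) (nat_lit 1)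
 (.cons (nat_lit 1072) (nat_lit 914) (nat_lit 1798) (nat_lit 1) .nil)), (nat_lit 29), (nat_lit 0), (nat_lit 0),
 (nat_lit 0), (38, 8, 10), [512, 1235], 0⟩,
  ⟨⟨-75, -20, 43, 10, -21, 70, -12, -60, -13⟩, (.cons (nat_lit 1847) (nat_lit 896) (nat_lit 1644) (nat_lit 1)
 (.cons (nat_lit 805) (nat_lit 649) (nat_lit 735) (nat_lit 1) .nil)), (nat_lit 34), (nat_lit 0), (nat_lit 0),
 (nat_lit 0), (2, 66, 6), [1708, 2165], 0⟩,
  mz,
  mz,
  mz,
  ⟨⟨11, 72, -36, 50, 11, 30, 44, 4, -73⟩, (.cons (nat_lit 197) (nat_lit 450) (nat_lit 319) (nat_lit 1) (.cons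
 (nat_lit 773) (nat_lit 743) (nat_lit 927) (nat_lit 1) .nil)), (nat_lit 64), (nat_lit 0), (nat_lit 0), (nat_lit
 0), (4, 44, 16), [682, 469], 0⟩,
  mz,
  ⟨⟨-13, 72, 36, 70, 11, -30, -4, 44, -49⟩, (.cons (nat_lit 1192) (nat_lit 1659) (nat_lit 646) (nat_lit 1)
 (.cons (nat_lit 1466) (nat_lit 2008) (nat_lit 1762) (nat_lit 1) .nil)), (nat_lit 62), (nat_lit 0), (nat_lit
 0), (nat_lit 0), (35, 30, 49), [1630, 718], 0⟩,
  ⟨⟨75, -16, -52, 4, 55, -52, 10, -40, -59⟩, (.cons (nat_lit 1848) (nat_lit 462) (nat_lit 210) (nat_lit 1)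
 (.cons (nat_lit 2208) (nat_lit 1084) (nat_lit 235) (nat_lit 1) .nil)), (nat_lit 65), (nat_lit 0), (nat_lit 0),
 (nat_lit 0), (51, 51, 21), [966, 1528], 0⟩,
  mz,
  ⟨⟨-27, -68, 43, -64, 15, 2, 6, -48, -49⟩, (.cons (nat_lit 435) (nat_lit 1392) (nat_lit 1033) (nat_lit 1)
 (.cons (nat_lit 1528) (nat_lit 163) (nat_lit 1172) (nat_lit 1) .nil)), (nat_lit 46), (nat_lit 0), (nat_lit 0),
 (nat_lit 0), (60, 16, 34), [380, 2160], 0⟩,
  ⟨⟨13, 72, 23, 70, -11, -40, 4, 44, -53⟩, (.cons (nat_lit 671) (nat_lit 1694) (nat_lit 1060) (nat_lit 1)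
 (.cons (nat_lit 237) (nat_lit 4) (nat_lit 2141) (nat_lit 1) .nil)), (nat_lit 43), (nat_lit 0), (nat_lit 0),
 (nat_lit 0), (20, 64, 28), [1375, 795], 0⟩,
  ⟨⟨-23, 72, 32, 64, 25, -52, -26, 32, -41⟩, (.cons (nat_lit 1728) (nat_lit 1758) (nat_lit 1409) (nat_lit 1)
 (.cons (nat_lit 333) (nat_lit 1564) (nat_lit 1370) (nat_lit 1) .nil)), (nat_lit 18), (nat_lit 0), (nat_lit 0),
 (nat_lit 0), (27, 36, 12), [1576, 685], 0⟩,
  ⟨⟨17, 24, 72, 36, 55, -48, 54, -24, -1⟩, (.cons (nat_lit 1848) (nat_lit 700) (nat_lit 778) (nat_lit 1) (.cons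
 (nat_lit 2208) (nat_lit 1122) (nat_lit 1556) (nat_lit 1) .nil)), (nat_lit 70), (nat_lit 0), (nat_lit 0),
 (nat_lit 0), (30, 51, 41), [383, 526], 0⟩]

/-- Moves. -/
noncomputable def t4_9 : List Mv := [
  mz,
  ⟨⟨-75, 20, 43, -10, -21, -70, -12, 60, -13⟩, (.cons (nat_lit 1010) (nat_lit 1358) (nat_lit 640) (nat_lit 1)
 (.cons (nat_lit 337) (nat_lit 304) (nat_lit 1415) (nat_lit 1) .nil)), (nat_lit 55), (nat_lit 0), (nat_lit 0),
 (nat_lit 0), (51, 21, 11), [1244, 98], 0⟩,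
  mz,
  ⟨⟨65, -24, -72, -4, 55, -48, -10, -40, -49⟩, (.cons (nat_lit 1848) (nat_lit 1473) (nat_lit 1467) (nat_lit 1)
 (.cons (nat_lit 2208) (nat_lit 1454) (nat_lit 141) (nat_lit 1) .nil)), (nat_lit 3), (nat_lit 0), (nat_lit 0),
 (nat_lit 0), (37, 1, 38), [708, 964], 0⟩,
  ⟨⟨27, 68, 16, 64, -15, -62, -6, 48, -43⟩, (.cons (nat_lit 1491) (nat_lit 177) (nat_lit 671) (nat_lit 1)
 (.cons (nat_lit 973) (nat_lit 1402) (nat_lit 1576) (nat_lit 1) .nil)), (nat_lit 46), (nat_lit 0), (nat_lit 0),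
 (nat_lit 0), (60, 16, 34), [1300, 1174], 0⟩,
  ⟨⟨27, -68, 16, 64, 15, -62, -6, -48, -43⟩, (.cons (nat_lit 1844) (nat_lit 575) (nat_lit 85) (nat_lit 1)
 (.cons (nat_lit 869) (nat_lit 680) (nat_lit 614) (nat_lit 1) .nil)), (nat_lit 46), (nat_lit 0), (nat_lit 0),
 (nat_lit 0), (7, 35, 30), [1756, 1502], 0⟩,
  mz,
  ⟨⟨-29, 72, 20, -56, -25, 68, -38, 16, -35⟩, (.cons (nat_lit 890) (nat_lit 1191) (nat_lit 1500) (nat_lit 1)
 (.cons (nat_lit 1885) (nat_lit 826) (nat_lit 1661) (nat_lit 1) .nil)), (nat_lit 36), (nat_lit 0), (nat_lit 0),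
 (nat_lit 0), (33, 27, 31), [1625, 1647], 0⟩,
  ⟨⟨3, 40, -76, 64, 25, -12, 26, -32, -67⟩, (.cons (nat_lit 242) (nat_lit 26) (nat_lit 1564) (nat_lit 1) (.cons
 (nat_lit 1610) (nat_lit 1595) (nat_lit 2024) (nat_lit 1) .nil)), (nat_lit 7), (nat_lit 0), (nat_lit 0),
 (nat_lit 0), (14, 62, 3), [1535, 1820], 0⟩,
  mz,
  mz,
  ⟨⟨33, -20, -92, 64, 15, -2, 6, 48, -49⟩, (.cons (nat_lit 1006) (nat_lit 474) (nat_lit 493) (nat_lit 1) (.cons
 (nat_lit 421) (nat_lit 17) (nat_lit 386) (nat_lit 1) .nil)), (nat_lit 12), (nat_lit 0), (nat_lit 0), (nat_lit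
 0), (67, 3, 38), [1030, 838], 0⟩,
  ⟨⟨9, 76, -20, 44, -15, -82, -42, 24, -25⟩, (.cons (nat_lit 1190) (nat_lit 386) (nat_lit 1633) (nat_lit 1)
 (.cons (nat_lit 1302) (nat_lit 1003) (nat_lit 857) (nat_lit 1) .nil)), (nat_lit 67), (nat_lit 0), (nat_lit 0),
 (nat_lit 0), (31, 49, 21), [483, 375], 0⟩,
  mz,
  mz,
  ⟨⟨51, -52, -56, -44, -15, -38, 42, 24, -67⟩, (.cons (nat_lit 1448) (nat_lit 1678) (nat_lit 517) (nat_lit 1)
 (.cons (nat_lit 1490) (nat_lit 2005) (nat_lit 83) (nat_lit 1) .nil)), (nat_lit 5), (nat_lit 0), (nat_lit 0),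
 (nat_lit 0), (24, 67, 49), [655, 234], 0⟩,
  ⟨⟨37, -48, 36, -36, -55, -12, 54, -24, -53⟩, (.cons (nat_lit 1848) (nat_lit 1614) (nat_lit 1623) (nat_lit 1)
 (.cons (nat_lit 2208) (nat_lit 1996) (nat_lit 1712) (nat_lit 1) .nil)), (nat_lit 16), (nat_lit 0), (nat_lit
 0), (nat_lit 0), (57, 52, 64), [1079, 1025], 0⟩,
  mz,
  ⟨⟨29, -72, -9, 56, 25, 12, 38, -16, -73⟩, (.cons (nat_lit 188) (nat_lit 1800) (nat_lit 1775) (nat_lit 1)
 (.cons (nat_lit 646) (nat_lit 1566) (nat_lit 574) (nat_lit 1) .nil)), (nat_lit 36), (nat_lit 0), (nat_lit 0),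
 (nat_lit 0), (70, 25, 55), [30, 1068], 0⟩,
  ⟨⟨-61, -48, 25, 44, -55, -32, -22, -8, -55⟩, (.cons (nat_lit 861) (nat_lit 954) (nat_lit 1076) (nat_lit 1)
 (.cons (nat_lit 1176) (nat_lit 647) (nat_lit 1120) (nat_lit 1) .nil)), (nat_lit 24), (nat_lit 0), (nat_lit 0),
 (nat_lit 0), (9, 68, 37), [1486, 67], 0⟩,
  mz,
  mz,
  ⟨⟨17, -24, 72, -36, 55, 48, 54, 24, -1⟩, (.cons (nat_lit 1848) (nat_lit 708) (nat_lit 1559) (nat_lit 1)
 (.cons (nat_lit 2208) (nat_lit 2046) (nat_lit 967) (nat_lit 1) .nil)), (nat_lit 22), (nat_lit 0), (nat_lit 0),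
 (nat_lit 0), (28, 66, 43), [1716, 1983], 0⟩,
  ⟨⟨-61, 48, 25, 44, 55, -32, -22, 8, -55⟩, (.cons (nat_lit 1039) (nat_lit 1463) (nat_lit 1608) (nat_lit 1)
 (.cons (nat_lit 2083) (nat_lit 1874) (nat_lit 2135) (nat_lit 1) .nil)), (nat_lit 24), (nat_lit 0), (nat_lit
 0), (nat_lit 0), (13, 43, 14), [1440, 373], 0⟩,
  ⟨⟨-39, 40, -41, 44, 55, -12, 22, -8, -77⟩, (.cons (nat_lit 1413) (nat_lit 1812) (nat_lit 317) (nat_lit 1)
 (.cons (nat_lit 1385) (nat_lit 85) (nat_lit 876) (nat_lit 1) .nil)), (nat_lit 23), (nat_lit 0), (nat_lit 0),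
 (nat_lit 0), (2, 56, 28), [1186, 616], 0⟩,
  mz,
  ⟨⟨51, -4, 40, 10, -69, -20, 60, 12, -49⟩, (.cons (nat_lit 935) (nat_lit 1753) (nat_lit 170) (nat_lit 1)
 (.cons (nat_lit 622) (nat_lit 682) (nat_lit 503) (nat_lit 1) .nil)), (nat_lit 48), (nat_lit 0), (nat_lit 0),
 (nat_lit 0), (60, 41, 33), [1067, 150], 0⟩,
  mz,
  mz,
  ⟨⟨9, 28, -85, 70, -11, -30, -4, -44, -49⟩, (.cons (nat_lit 48) (nat_lit 1560) (nat_lit 791) (nat_lit 1)
 (.cons (nat_lit 165) (nat_lit 1287) (nat_lit 2106) (nat_lit 1) .nil)), (nat_lit 31), (nat_lit 0), (nat_lit 0),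
 (nat_lit 0), (40, 35, 69), [1566, 2161], 0⟩,
  mz,
  ⟨⟨-11, 72, -25, 50, -11, -80, -44, 4, -29⟩, (.cons (nat_lit 886) (nat_lit 892) (nat_lit 1794) (nat_lit 1)
 (.cons (nat_lit 1553) (nat_lit 434) (nat_lit 911) (nat_lit 1) .nil)), (nat_lit 29), (nat_lit 0), (nat_lit 0),
 (nat_lit 0), (44, 13, 34), [1633, 231], 0⟩,
  mz,
  ⟨⟨-29, -72, 20, -56, 25, 68, -38, -16, -35⟩, (.cons (nat_lit 414) (nat_lit 940) (nat_lit 719) (nat_lit 1)
 (.cons (nat_lit 12) (nat_lit 1519) (nat_lit 2152) (nat_lit 1) .nil)), (nat_lit 36), (nat_lit 0), (nat_lit 0),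
 (nat_lit 0), (27, 35, 6), [847, 598], 0⟩,
  ⟨⟨75, 20, -32, 10, -21, -80, 12, 60, -25⟩, (.cons (nat_lit 1484) (nat_lit 1444) (nat_lit 1252) (nat_lit 1)
 (.cons (nat_lit 838) (nat_lit 1338) (nat_lit 512) (nat_lit 1) .nil)), (nat_lit 55), (nat_lit 0), (nat_lit 0),
 (nat_lit 0), (30, 4, 19), [1201, 850], 0⟩,
  mz,
  ⟨⟨3, -40, -76, 64, -25, -12, 26, 32, -67⟩, (.cons (nat_lit 1581) (nat_lit 1160) (nat_lit 767) (nat_lit 1)
 (.cons (nat_lit 2134) (nat_lit 98) (nat_lit 871) (nat_lit 1) .nil)), (nat_lit 7), (nat_lit 0), (nat_lit 0),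
 (nat_lit 0), (58, 54, 53), [1422, 2038], 0⟩,
  mz,
  ⟨⟨37, 48, 36, -36, 55, -12, 54, 24, -53⟩, (.cons (nat_lit 1403) (nat_lit 1165) (nat_lit 1179) (nat_lit 1)
 (.cons (nat_lit 153) (nat_lit 2075) (nat_lit 509) (nat_lit 1) .nil)), (nat_lit 16), (nat_lit 0), (nat_lit 0),
 (nat_lit 0), (61, 27, 66), [1260, 1893], 0⟩,
  ⟨⟨-23, -72, 32, -64, 25, 52, -26, -32, -41⟩, (.cons (nat_lit 1532) (nat_lit 447) (nat_lit 242) (nat_lit 1)
 (.cons (nat_lit 1281) (nat_lit 473) (nat_lit 232) (nat_lit 1) .nil)), (nat_lit 49), (nat_lit 0), (nat_lit 0),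
 (nat_lit 0), (21, 43, 33), [73, 269], 0⟩,
  mz,
  mz,
  ⟨⟨75, 16, -52, 4, -55, -52, 10, 40, -59⟩, (.cons (nat_lit 1078) (nat_lit 1359) (nat_lit 117) (nat_lit 1)
 (.cons (nat_lit 238) (nat_lit 1885) (nat_lit 1) (nat_lit 188) .nil)), (nat_lit 65), (nat_lit 0), (nat_lit 0),
 (nat_lit 0), (5, 5, 48), [1510, 1196], 0⟩,
  ⟨⟨11, -72, -36, -50, 11, -30, 44, -4, -73⟩, (.cons (nat_lit 1579) (nat_lit 1553) (nat_lit 994) (nat_lit 1)
 (.cons (nat_lit 1372) (nat_lit 961) (nat_lit 1868) (nat_lit 1) .nil)), (nat_lit 29), (nat_lit 0), (nat_lit 0),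
 (nat_lit 0), (69, 22, 63), [1071, 1799], 0⟩,
  ⟨⟨-39, -40, -41, 44, -55, -12, 22, 8, -77⟩, (.cons (nat_lit 1506) (nat_lit 521) (nat_lit 337) (nat_lit 1)
 (.cons (nat_lit 1270) (nat_lit 1511) (nat_lit 26) (nat_lit 1) .nil)), (nat_lit 23), (nat_lit 0), (nat_lit 0),
 (nat_lit 0), (46, 10, 5), [325, 1947], 0⟩,
  mz,
  ⟨⟨51, 52, -56, -44, 15, -38, 42, -24, -67⟩, (.cons (nat_lit 1479) (nat_lit 115) (nat_lit 17) (nat_lit 1)
 (.cons (nat_lit 938) (nat_lit 561) (nat_lit 617) (nat_lit 1) .nil)), (nat_lit 5), (nat_lit 0), (nat_lit 0),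
 (nat_lit 0), (52, 15, 47), [514, 274], 0⟩,
  ⟨⟨9, -16, 80, -10, -69, -10, 60, -12, -11⟩, (.cons (nat_lit 1848) (nat_lit 494) (nat_lit 803) (nat_lit 1)
 (.cons (nat_lit 2208) (nat_lit 1937) (nat_lit 1247) (nat_lit 1) .nil)), (nat_lit 47), (nat_lit 0), (nat_lit
 0), (nat_lit 0), (33, 58, 7), [1324, 1684], 0⟩,
  ⟨⟨51, 4, 40, 10, 69, -20, 60, -12, -49⟩, (.cons (nat_lit 1848) (nat_lit 1532) (nat_lit 1432) (nat_lit 1)
 (.cons (nat_lit 2208) (nat_lit 1144) (nat_lit 1784) (nat_lit 1) .nil)), (nat_lit 48), (nat_lit 0), (nat_lit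
 0), (nat_lit 0), (13, 29, 32), [1815, 2123], 0⟩,
  ⟨⟨29, 72, -9, 56, -25, 12, 38, 16, -73⟩, (.cons (nat_lit 959) (nat_lit 1449) (nat_lit 392) (nat_lit 1) (.cons
 (nat_lit 1687) (nat_lit 1343) (nat_lit 783) (nat_lit 1) .nil)), (nat_lit 36), (nat_lit 0), (nat_lit 0),
 (nat_lit 0), (5, 17, 9), [1496, 1083], 0⟩,
  ⟨⟨65, 24, -72, -4, -55, -48, -10, 40, -49⟩, (.cons (nat_lit 648) (nat_lit 447) (nat_lit 1044) (nat_lit 1)
 (.cons (nat_lit 608) (nat_lit 334) (nat_lit 1) (nat_lit 658) .nil)), (nat_lit 3), (nat_lit 0), (nat_lit 0),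
 (nat_lit 0), (39, 26, 65), [435, 1807], 0⟩,
  ⟨⟨9, -76, -20, 44, 15, -82, -42, -24, -25⟩, (.cons (nat_lit 1737) (nat_lit 186) (nat_lit 241) (nat_lit 1)
 (.cons (nat_lit 703) (nat_lit 1413) (nat_lit 746) (nat_lit 1) .nil)), (nat_lit 67), (nat_lit 0), (nat_lit 0),
 (nat_lit 0), (1, 68, 19), [1073, 932], 0⟩,
  mz,
  ⟨⟨13, -72, 23, 70, 11, -40, 4, -44, -53⟩, (.cons (nat_lit 1480) (nat_lit 950) (nat_lit 1759) (nat_lit 1)
 (.cons (nat_lit 1577) (nat_lit 546) (nat_lit 2004) (nat_lit 1) .nil)), (nat_lit 43), (nat_lit 0), (nat_lit 0),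
 (nat_lit 0), (14, 59, 48), [80, 1644], 0⟩,
  ⟨⟨9, 16, 80, -10, 69, -10, 60, 12, -11⟩, (.cons (nat_lit 39) (nat_lit 169) (nat_lit 51) (nat_lit 1) (.cons
 (nat_lit 2192) (nat_lit 1707) (nat_lit 1272) (nat_lit 1) .nil)), (nat_lit 47), (nat_lit 0), (nat_lit 0),
 (nat_lit 0), (58, 46, 8), [859, 2099], 0⟩,
  ⟨⟨75, -20, -32, 10, 21, -80, 12, -60, -25⟩, (.cons (nat_lit 1848) (nat_lit 271) (nat_lit 1560) (nat_lit 1)
 (.cons (nat_lit 2208) (nat_lit 951) (nat_lit 1395) (nat_lit 1) .nil)), (nat_lit 55), (nat_lit 0), (nat_lit 0),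
 (nat_lit 0), (52, 59, 14), [1214, 106], 0⟩,
  mz,
  ⟨⟨-11, -72, -25, 50, 11, -80, -44, -4, -29⟩, (.cons (nat_lit 528) (nat_lit 822) (nat_lit 898) (nat_lit 1)
 (.cons (nat_lit 1072) (nat_lit 914) (nat_lit 1798) (nat_lit 1) .nil)), (nat_lit 29), (nat_lit 0), (nat_lit 0),
 (nat_lit 0), (38, 8, 10), [512, 1235], 0⟩,
  ⟨⟨-75, -20, 43, -10, 21, -70, -12, -60, -13⟩, (.cons (nat_lit 1248) (nat_lit 1217) (nat_lit 934) (nat_lit 1)
 (.cons (nat_lit 1787) (nat_lit 1844) (nat_lit 1190) (nat_lit 1) .nil)), (nat_lit 55), (nat_lit 0), (nat_lit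
 0), (nat_lit 0), (2, 5, 6), [870, 2174], 0⟩,
  mz,
  mz,
  mz,
  ⟨⟨11, 72, -36, -50, -11, -30, 44, 4, -73⟩, (.cons (nat_lit 1608) (nat_lit 247) (nat_lit 700) (nat_lit 1)
 (.cons (nat_lit 280) (nat_lit 1468) (nat_lit 1580) (nat_lit 1) .nil)), (nat_lit 29), (nat_lit 0), (nat_lit 0),
 (nat_lit 0), (4, 27, 16), [859, 1500], 0⟩,
  mz,
  ⟨⟨9, -28, -85, 70, 11, -30, -4, 44, -49⟩, (.cons (nat_lit 1775) (nat_lit 233) (nat_lit 689) (nat_lit 1)
 (.cons (nat_lit 1730) (nat_lit 1470) (nat_lit 23) (nat_lit 1) .nil)), (nat_lit 31), (nat_lit 0), (nat_lit 0),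
 (nat_lit 0), (14, 30, 49), [598, 201], 0⟩,
  ⟨⟨75, -16, -52, 4, 55, -52, 10, -40, -59⟩, (.cons (nat_lit 1848) (nat_lit 462) (nat_lit 210) (nat_lit 1)
 (.cons (nat_lit 2208) (nat_lit 1084) (nat_lit 235) (nat_lit 1) .nil)), (nat_lit 65), (nat_lit 0), (nat_lit 0),
 (nat_lit 0), (51, 51, 21), [966, 1528], 0⟩,
  mz,
  ⟨⟨33, 20, -92, 64, -15, -2, 6, -48, -49⟩, (.cons (nat_lit 390) (nat_lit 1078) (nat_lit 1035) (nat_lit 1)
 (.cons (nat_lit 151) (nat_lit 968) (nat_lit 924) (nat_lit 1) .nil)), (nat_lit 12), (nat_lit 0), (nat_lit 0),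
 (nat_lit 0), (45, 55, 34), [1681, 1545], 0⟩,
  ⟨⟨13, 72, 23, 70, -11, -40, 4, 44, -53⟩, (.cons (nat_lit 671) (nat_lit 1694) (nat_lit 1060) (nat_lit 1)
 (.cons (nat_lit 237) (nat_lit 4) (nat_lit 2141) (nat_lit 1) .nil)), (nat_lit 43), (nat_lit 0), (nat_lit 0),
 (nat_lit 0), (20, 64, 28), [1375, 795], 0⟩,
  ⟨⟨-23, 72, 32, -64, -25, 52, -26, 32, -41⟩, (.cons (nat_lit 1796) (nat_lit 44) (nat_lit 480) (nat_lit 1)
 (.cons (nat_lit 912) (nat_lit 43) (nat_lit 586) (nat_lit 1) .nil)), (nat_lit 49), (nat_lit 0), (nat_lit 0),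
 (nat_lit 0), (27, 35, 12), [46, 1286], 0⟩,
  ⟨⟨17, 24, 72, -36, -55, 48, 54, -24, -1⟩, (.cons (nat_lit 371) (nat_lit 125) (nat_lit 971) (nat_lit 1) (.cons
 (nat_lit 529) (nat_lit 886) (nat_lit 713) (nat_lit 1) .nil)), (nat_lit 22), (nat_lit 0), (nat_lit 0), (nat_lit
 0), (30, 20, 41), [1019, 1773], 0⟩]

/-- Moves. -/
noncomputable def t4_10 : List Mv := [
  mz,
  ⟨⟨-75, 20, 43, -10, -21, -70, -12, 60, -13⟩, (.cons (nat_lit 1010) (nat_lit 1358) (nat_lit 640) (nat_lit 1)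
 (.cons (nat_lit 337) (nat_lit 304) (nat_lit 1415) (nat_lit 1) .nil)), (nat_lit 55), (nat_lit 0), (nat_lit 0),
 (nat_lit 0), (51, 21, 11), [1244, 98], 0⟩,
  mz,
  ⟨⟨65, -24, -72, -4, 55, -48, -10, -40, -49⟩, (.cons (nat_lit 1848) (nat_lit 1473) (nat_lit 1467) (nat_lit 1)
 (.cons (nat_lit 2208) (nat_lit 1454) (nat_lit 141) (nat_lit 1) .nil)), (nat_lit 3), (nat_lit 0), (nat_lit 0),
 (nat_lit 0), (37, 1, 38), [708, 964], 0⟩,
  ⟨⟨27, 68, 16, 64, -15, -62, -6, 48, -43⟩, (.cons (nat_lit 1491) (nat_lit 177) (nat_lit 671) (nat_lit 1)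
 (.cons (nat_lit 973) (nat_lit 1402) (nat_lit 1576) (nat_lit 1) .nil)), (nat_lit 46), (nat_lit 0), (nat_lit 0),
 (nat_lit 0), (60, 16, 34), [1300, 1174], 0⟩,
  ⟨⟨-33, 20, -59, 64, 15, -62, -6, -48, -43⟩, (.cons (nat_lit 478) (nat_lit 1446) (nat_lit 472) (nat_lit 1)
 (.cons (nat_lit 541) (nat_lit 166) (nat_lit 1366) (nat_lit 1) .nil)), (nat_lit 51), (nat_lit 0), (nat_lit 0),
 (nat_lit 0), (23, 35, 30), [896, 374], 0⟩,
  mz,
  ⟨⟨-29, 72, 20, 56, 25, -68, -38, 16, -35⟩, (.cons (nat_lit 1169) (nat_lit 1039) (nat_lit 345) (nat_lit 1)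
 (.cons (nat_lit 756) (nat_lit 294) (nat_lit 693) (nat_lit 1) .nil)), (nat_lit 8), (nat_lit 0), (nat_lit 0),
 (nat_lit 0), (33, 44, 31), [974, 1719], 0⟩,
  ⟨⟨3, 40, -76, 64, 25, -12, 26, -32, -67⟩, (.cons (nat_lit 242) (nat_lit 26) (nat_lit 1564) (nat_lit 1) (.cons
 (nat_lit 1610) (nat_lit 1595) (nat_lit 2024) (nat_lit 1) .nil)), (nat_lit 7), (nat_lit 0), (nat_lit 0),
 (nat_lit 0), (14, 62, 3), [1535, 1820], 0⟩,
  mz,
  mz,
  ⟨⟨33, -20, -92, 64, 15, -2, 6, 48, -49⟩, (.cons (nat_lit 1006) (nat_lit 474) (nat_lit 493) (nat_lit 1) (.cons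
 (nat_lit 421) (nat_lit 17) (nat_lit 386) (nat_lit 1) .nil)), (nat_lit 12), (nat_lit 0), (nat_lit 0), (nat_lit
 0), (67, 3, 38), [1030, 838], 0⟩,
  ⟨⟨9, 76, -20, -44, 15, 82, -42, 24, -25⟩, (.cons (nat_lit 726) (nat_lit 1639) (nat_lit 788) (nat_lit 1)
 (.cons (nat_lit 446) (nat_lit 1254) (nat_lit 146) (nat_lit 1) .nil)), (nat_lit 11), (nat_lit 0), (nat_lit 0),
 (nat_lit 0), (31, 22, 21), [1541, 468], 0⟩,
  mz,
  mz,
  ⟨⟨51, -52, -56, -44, -15, -38, 42, 24, -67⟩, (.cons (nat_lit 1448) (nat_lit 1678) (nat_lit 517) (nat_lit 1)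
 (.cons (nat_lit 1490) (nat_lit 2005) (nat_lit 83) (nat_lit 1) .nil)), (nat_lit 5), (nat_lit 0), (nat_lit 0),
 (nat_lit 0), (24, 67, 49), [655, 234], 0⟩,
  ⟨⟨17, 24, -89, -36, -55, -12, 54, -24, -53⟩, (.cons (nat_lit 560) (nat_lit 1439) (nat_lit 1580) (nat_lit 1)
 (.cons (nat_lit 2116) (nat_lit 1059) (nat_lit 537) (nat_lit 1) .nil)), (nat_lit 22), (nat_lit 0), (nat_lit 0),
 (nat_lit 0), (7, 52, 64), [993, 367], 0⟩,
  mz,
  ⟨⟨9, 56, -64, -56, -25, -12, 38, -16, -73⟩, (.cons (nat_lit 1409) (nat_lit 1497) (nat_lit 499) (nat_lit 1)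
 (.cons (nat_lit 1711) (nat_lit 2037) (nat_lit 18) (nat_lit 1) .nil)), (nat_lit 39), (nat_lit 0), (nat_lit 0),
 (nat_lit 0), (56, 46, 55), [304, 1098], 0⟩,
  ⟨⟨-61, -48, 25, 44, -55, -32, -22, -8, -55⟩, (.cons (nat_lit 861) (nat_lit 954) (nat_lit 1076) (nat_lit 1)
 (.cons (nat_lit 1176) (nat_lit 647) (nat_lit 1120) (nat_lit 1) .nil)), (nat_lit 24), (nat_lit 0), (nat_lit 0),
 (nat_lit 0), (9, 68, 37), [1486, 67], 0⟩,
  mz,
  mz,
  ⟨⟨17, -24, 72, 36, -55, -48, 54, 24, -1⟩, (.cons (nat_lit 309) (nat_lit 204) (nat_lit 1348) (nat_lit 1)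
 (.cons (nat_lit 380) (nat_lit 1297) (nat_lit 767) (nat_lit 1) .nil)), (nat_lit 70), (nat_lit 0), (nat_lit 0),
 (nat_lit 0), (28, 5, 43), [759, 309], 0⟩,
  ⟨⟨-61, 48, 25, 44, 55, -32, -22, 8, -55⟩, (.cons (nat_lit 1039) (nat_lit 1463) (nat_lit 1608) (nat_lit 1)
 (.cons (nat_lit 2083) (nat_lit 1874) (nat_lit 2135) (nat_lit 1) .nil)), (nat_lit 24), (nat_lit 0), (nat_lit
 0), (nat_lit 0), (13, 43, 14), [1440, 373], 0⟩,
  ⟨⟨-39, 40, -41, 44, 55, -12, 22, -8, -77⟩, (.cons (nat_lit 1413) (nat_lit 1812) (nat_lit 317) (nat_lit 1)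
 (.cons (nat_lit 1385) (nat_lit 85) (nat_lit 876) (nat_lit 1) .nil)), (nat_lit 23), (nat_lit 0), (nat_lit 0),
 (nat_lit 0), (2, 56, 28), [1186, 616], 0⟩,
  mz,
  ⟨⟨51, -4, 40, -10, 69, 20, 60, 12, -49⟩, (.cons (nat_lit 1848) (nat_lit 1570) (nat_lit 960) (nat_lit 1)
 (.cons (nat_lit 2208) (nat_lit 1964) (nat_lit 1244) (nat_lit 1) .nil)), (nat_lit 26), (nat_lit 0), (nat_lit
 0), (nat_lit 0), (60, 30, 33), [396, 55], 0⟩,
  mz,
  mz,
  ⟨⟨-13, -72, 36, 70, -11, -30, -4, -44, -49⟩, (.cons (nat_lit 468) (nat_lit 891) (nat_lit 1522) (nat_lit 1)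
 (.cons (nat_lit 2138) (nat_lit 405) (nat_lit 1730) (nat_lit 1) .nil)), (nat_lit 62), (nat_lit 0), (nat_lit 0),
 (nat_lit 0), (29, 35, 69), [319, 93], 0⟩,
  mz,
  ⟨⟨-33, -68, -4, -50, 11, 80, -44, 4, -29⟩, (.cons (nat_lit 1100) (nat_lit 926) (nat_lit 1444) (nat_lit 1)
 (.cons (nat_lit 2136) (nat_lit 291) (nat_lit 436) (nat_lit 1) .nil)), (nat_lit 68), (nat_lit 0), (nat_lit 0),
 (nat_lit 0), (61, 58, 34), [123, 1550], 0⟩,
  mz,
  ⟨⟨-29, -72, 20, 56, -25, -68, -38, -16, -35⟩, (.cons (nat_lit 119) (nat_lit 1083) (nat_lit 1092) (nat_lit 1)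
 (.cons (nat_lit 1335) (nat_lit 1253) (nat_lit 29) (nat_lit 1) .nil)), (nat_lit 8), (nat_lit 0), (nat_lit 0),
 (nat_lit 0), (27, 36, 6), [1164, 17], 0⟩,
  ⟨⟨-63, 40, 7, 10, -21, -80, 12, 60, -25⟩, (.cons (nat_lit 924) (nat_lit 448) (nat_lit 822) (nat_lit 1) (.cons
 (nat_lit 1512) (nat_lit 1717) (nat_lit 2016) (nat_lit 1) .nil)), (nat_lit 58), (nat_lit 0), (nat_lit 0),
 (nat_lit 0), (60, 4, 19), [427, 897], 0⟩,
  mz,
  ⟨⟨3, -40, -76, 64, -25, -12, 26, 32, -67⟩, (.cons (nat_lit 1581) (nat_lit 1160) (nat_lit 767) (nat_lit 1)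
 (.cons (nat_lit 2134) (nat_lit 98) (nat_lit 871) (nat_lit 1) .nil)), (nat_lit 7), (nat_lit 0), (nat_lit 0),
 (nat_lit 0), (58, 54, 53), [1422, 2038], 0⟩,
  mz,
  ⟨⟨17, -24, -89, -36, 55, -12, 54, 24, -53⟩, (.cons (nat_lit 876) (nat_lit 985) (nat_lit 1781) (nat_lit 1)
 (.cons (nat_lit 1210) (nat_lit 933) (nat_lit 39) (nat_lit 1) .nil)), (nat_lit 22), (nat_lit 0), (nat_lit 0),
 (nat_lit 0), (5, 27, 66), [1131, 812], 0⟩,
  ⟨⟨-23, -72, 32, 64, -25, -52, -26, -32, -41⟩, (.cons (nat_lit 374) (nat_lit 369) (nat_lit 123) (nat_lit 1)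
 (.cons (nat_lit 1415) (nat_lit 390) (nat_lit 1038) (nat_lit 1) .nil)), (nat_lit 18), (nat_lit 0), (nat_lit 0),
 (nat_lit 0), (21, 28, 33), [851, 2070], 0⟩,
  mz,
  mz,
  ⟨⟨75, 16, -52, 4, -55, -52, 10, 40, -59⟩, (.cons (nat_lit 1078) (nat_lit 1359) (nat_lit 117) (nat_lit 1)
 (.cons (nat_lit 238) (nat_lit 1885) (nat_lit 1) (nat_lit 188) .nil)), (nat_lit 65), (nat_lit 0), (nat_lit 0),
 (nat_lit 0), (5, 5, 48), [1510, 1196], 0⟩,
  ⟨⟨33, 68, -37, -50, 11, -30, 44, -4, -73⟩, (.cons (nat_lit 1388) (nat_lit 1586) (nat_lit 1037) (nat_lit 1)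
 (.cons (nat_lit 367) (nat_lit 637) (nat_lit 129) (nat_lit 1) .nil)), (nat_lit 53), (nat_lit 0), (nat_lit 0),
 (nat_lit 0), (65, 22, 63), [125, 765], 0⟩,
  ⟨⟨-39, -40, -41, 44, -55, -12, 22, 8, -77⟩, (.cons (nat_lit 1506) (nat_lit 521) (nat_lit 337) (nat_lit 1)
 (.cons (nat_lit 1270) (nat_lit 1511) (nat_lit 26) (nat_lit 1) .nil)), (nat_lit 23), (nat_lit 0), (nat_lit 0),
 (nat_lit 0), (46, 10, 5), [325, 1947], 0⟩,
  mz,
  ⟨⟨51, 52, -56, -44, 15, -38, 42, -24, -67⟩, (.cons (nat_lit 1479) (nat_lit 115) (nat_lit 17) (nat_lit 1)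
 (.cons (nat_lit 938) (nat_lit 561) (nat_lit 617) (nat_lit 1) .nil)), (nat_lit 5), (nat_lit 0), (nat_lit 0),
 (nat_lit 0), (52, 15, 47), [514, 274], 0⟩,
  ⟨⟨9, -16, 80, -10, -69, -10, 60, -12, -11⟩, (.cons (nat_lit 1848) (nat_lit 494) (nat_lit 803) (nat_lit 1)
 (.cons (nat_lit 2208) (nat_lit 1937) (nat_lit 1247) (nat_lit 1) .nil)), (nat_lit 47), (nat_lit 0), (nat_lit
 0), (nat_lit 0), (33, 58, 7), [1324, 1684], 0⟩,
  ⟨⟨51, 4, 40, -10, -69, 20, 60, -12, -49⟩, (.cons (nat_lit 1673) (nat_lit 1594) (nat_lit 336) (nat_lit 1)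
 (.cons (nat_lit 1346) (nat_lit 972) (nat_lit 1125) (nat_lit 1) .nil)), (nat_lit 26), (nat_lit 0), (nat_lit 0),
 (nat_lit 0), (13, 42, 32), [517, 1802], 0⟩,
  ⟨⟨9, -56, -64, -56, 25, -12, 38, 16, -73⟩, (.cons (nat_lit 1814) (nat_lit 853) (nat_lit 1074) (nat_lit 1)
 (.cons (nat_lit 1602) (nat_lit 2150) (nat_lit 1657) (nat_lit 1) .nil)), (nat_lit 39), (nat_lit 0), (nat_lit
 0), (nat_lit 0), (4, 54, 9), [673, 1578], 0⟩,
  ⟨⟨65, 24, -72, 4, 55, 48, -10, 40, -49⟩, (.cons (nat_lit 1848) (nat_lit 369) (nat_lit 1576) (nat_lit 1)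
 (.cons (nat_lit 2208) (nat_lit 188) (nat_lit 1494) (nat_lit 1) .nil)), (nat_lit 50), (nat_lit 0), (nat_lit 0),
 (nat_lit 0), (39, 45, 65), [1525, 1340], 0⟩,
  ⟨⟨9, -76, -20, 44, 15, -82, -42, -24, -25⟩, (.cons (nat_lit 1737) (nat_lit 186) (nat_lit 241) (nat_lit 1)
 (.cons (nat_lit 703) (nat_lit 1413) (nat_lit 746) (nat_lit 1) .nil)), (nat_lit 67), (nat_lit 0), (nat_lit 0),
 (nat_lit 0), (1, 68, 19), [1073, 932], 0⟩,
  mz,
  ⟨⟨13, -72, 23, 70, 11, -40, 4, -44, -53⟩, (.cons (nat_lit 1480) (nat_lit 950) (nat_lit 1759) (nat_lit 1)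
 (.cons (nat_lit 1577) (nat_lit 546) (nat_lit 2004) (nat_lit 1) .nil)), (nat_lit 43), (nat_lit 0), (nat_lit 0),
 (nat_lit 0), (14, 59, 48), [80, 1644], 0⟩,
  ⟨⟨9, 16, 80, -10, 69, -10, 60, 12, -11⟩, (.cons (nat_lit 39) (nat_lit 169) (nat_lit 51) (nat_lit 1) (.cons
 (nat_lit 2192) (nat_lit 1707) (nat_lit 1272) (nat_lit 1) .nil)), (nat_lit 47), (nat_lit 0), (nat_lit 0),
 (nat_lit 0), (58, 46, 8), [859, 2099], 0⟩,
  ⟨⟨-63, -40, 7, -10, -21, 80, 12, -60, -25⟩, (.cons (nat_lit 1503) (nat_lit 222) (nat_lit 1409) (nat_lit 1)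
 (.cons (nat_lit 1134) (nat_lit 2077) (nat_lit 1333) (nat_lit 1) .nil)), (nat_lit 1), (nat_lit 0), (nat_lit 0),
 (nat_lit 0), (33, 12, 14), [848, 238], 0⟩,
  mz,
  ⟨⟨-11, -72, -25, 50, 11, -80, -44, -4, -29⟩, (.cons (nat_lit 528) (nat_lit 822) (nat_lit 898) (nat_lit 1)
 (.cons (nat_lit 1072) (nat_lit 914) (nat_lit 1798) (nat_lit 1) .nil)), (nat_lit 29), (nat_lit 0), (nat_lit 0),
 (nat_lit 0), (38, 8, 10), [512, 1235], 0⟩,
  ⟨⟨-75, -20, 43, -10, 21, -70, -12, -60, -13⟩, (.cons (nat_lit 1248) (nat_lit 1217) (nat_lit 934) (nat_lit 1)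
 (.cons (nat_lit 1787) (nat_lit 1844) (nat_lit 1190) (nat_lit 1) .nil)), (nat_lit 55), (nat_lit 0), (nat_lit
 0), (nat_lit 0), (2, 5, 6), [870, 2174], 0⟩,
  mz,
  mz,
  mz,
  ⟨⟨11, 72, -36, -50, -11, -30, 44, 4, -73⟩, (.cons (nat_lit 1608) (nat_lit 247) (nat_lit 700) (nat_lit 1)
 (.cons (nat_lit 280) (nat_lit 1468) (nat_lit 1580) (nat_lit 1) .nil)), (nat_lit 29), (nat_lit 0), (nat_lit 0),
 (nat_lit 0), (4, 27, 16), [859, 1500], 0⟩,
  mz,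
  ⟨⟨-13, 72, 36, 70, 11, -30, -4, 44, -49⟩, (.cons (nat_lit 1192) (nat_lit 1659) (nat_lit 646) (nat_lit 1)
 (.cons (nat_lit 1466) (nat_lit 2008) (nat_lit 1762) (nat_lit 1) .nil)), (nat_lit 62), (nat_lit 0), (nat_lit
 0), (nat_lit 0), (35, 30, 49), [1630, 718], 0⟩,
  ⟨⟨75, -16, -52, -4, -55, 52, 10, -40, -59⟩, (.cons (nat_lit 1319) (nat_lit 1009) (nat_lit 993) (nat_lit 1)
 (.cons (nat_lit 799) (nat_lit 484) (nat_lit 1253) (nat_lit 1) .nil)), (nat_lit 42), (nat_lit 0), (nat_lit 0),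
 (nat_lit 0), (51, 20, 21), [249, 1240], 0⟩,
  mz,
  ⟨⟨-27, -68, 43, -64, 15, 2, 6, -48, -49⟩, (.cons (nat_lit 435) (nat_lit 1392) (nat_lit 1033) (nat_lit 1)
 (.cons (nat_lit 1528) (nat_lit 163) (nat_lit 1172) (nat_lit 1) .nil)), (nat_lit 46), (nat_lit 0), (nat_lit 0),
 (nat_lit 0), (60, 16, 34), [380, 2160], 0⟩,
  ⟨⟨13, 72, 23, 70, -11, -40, 4, 44, -53⟩, (.cons (nat_lit 671) (nat_lit 1694) (nat_lit 1060) (nat_lit 1)
 (.cons (nat_lit 237) (nat_lit 4) (nat_lit 2141) (nat_lit 1) .nil)), (nat_lit 43), (nat_lit 0), (nat_lit 0),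
 (nat_lit 0), (20, 64, 28), [1375, 795], 0⟩,
  ⟨⟨-23, 72, 32, 64, 25, -52, -26, 32, -41⟩, (.cons (nat_lit 1728) (nat_lit 1758) (nat_lit 1409) (nat_lit 1)
 (.cons (nat_lit 333) (nat_lit 1564) (nat_lit 1370) (nat_lit 1) .nil)), (nat_lit 18), (nat_lit 0), (nat_lit 0),
 (nat_lit 0), (27, 36, 12), [1576, 685], 0⟩,
  ⟨⟨37, -48, -73, 36, 55, -48, 54, -24, -1⟩, (.cons (nat_lit 44) (nat_lit 1751) (nat_lit 735) (nat_lit 1)
 (.cons (nat_lit 1035) (nat_lit 1651) (nat_lit 381) (nat_lit 1) .nil)), (nat_lit 38), (nat_lit 0), (nat_lit 0),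
 (nat_lit 0), (11, 51, 41), [1071, 949], 0⟩]

/-- Moves. -/
noncomputable def t4_17 : List Mv := [
  mz,
  ⟨⟨-75, 20, 43, -10, -21, -70, -12, 60, -13⟩, (.cons (nat_lit 1010) (nat_lit 1358) (nat_lit 640) (nat_lit 1)
 (.cons (nat_lit 337) (nat_lit 304) (nat_lit 1415) (nat_lit 1) .nil)), (nat_lit 55), (nat_lit 0), (nat_lit 0),
 (nat_lit 0), (51, 21, 11), [1244, 98], 0⟩,
  mz,
  ⟨⟨65, -24, -72, -4, 55, -48, -10, -40, -49⟩, (.cons (nat_lit 1848) (nat_lit 1473) (nat_lit 1467) (nat_lit 1)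
 (.cons (nat_lit 2208) (nat_lit 1454) (nat_lit 141) (nat_lit 1) .nil)), (nat_lit 3), (nat_lit 0), (nat_lit 0),
 (nat_lit 0), (37, 1, 38), [708, 964], 0⟩,
  ⟨⟨27, 68, 16, -64, 15, 62, -6, 48, -43⟩, (.cons (nat_lit 361) (nat_lit 1203) (nat_lit 109) (nat_lit 1) (.cons
 (nat_lit 1220) (nat_lit 1581) (nat_lit 1541) (nat_lit 1) .nil)), (nat_lit 15), (nat_lit 0), (nat_lit 0),
 (nat_lit 0), (60, 55, 34), [557, 368], 0⟩,
  ⟨⟨27, -68, 16, 64, 15, -62, -6, -48, -43⟩, (.cons (nat_lit 1844) (nat_lit 575) (nat_lit 85) (nat_lit 1)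
 (.cons (nat_lit 869) (nat_lit 680) (nat_lit 614) (nat_lit 1) .nil)), (nat_lit 46), (nat_lit 0), (nat_lit 0),
 (nat_lit 0), (7, 35, 30), [1756, 1502], 0⟩,
  mz,
  ⟨⟨-9, -56, -55, 56, 25, -68, -38, 16, -35⟩, (.cons (nat_lit 35) (nat_lit 423) (nat_lit 44) (nat_lit 1) (.cons
 (nat_lit 983) (nat_lit 693) (nat_lit 2009) (nat_lit 1) .nil)), (nat_lit 39), (nat_lit 0), (nat_lit 0),
 (nat_lit 0), (69, 44, 31), [630, 1390], 0⟩,
  ⟨⟨23, -72, 9, -64, -25, 12, 26, -32, -67⟩, (.cons (nat_lit 1088) (nat_lit 627) (nat_lit 737) (nat_lit 1)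
 (.cons (nat_lit 841) (nat_lit 907) (nat_lit 1500) (nat_lit 1) .nil)), (nat_lit 18), (nat_lit 0), (nat_lit 0),
 (nat_lit 0), (60, 9, 3), [1066, 1929], 0⟩,
  mz,
  mz,
  ⟨⟨-27, 68, 43, -64, -15, 2, 6, 48, -49⟩, (.cons (nat_lit 57) (nat_lit 1080) (nat_lit 490) (nat_lit 1) (.cons
 (nat_lit 1894) (nat_lit 556) (nat_lit 116) (nat_lit 1) .nil)), (nat_lit 46), (nat_lit 0), (nat_lit 0),
 (nat_lit 0), (42, 68, 38), [1171, 234], 0⟩,
  ⟨⟨9, 76, -20, 44, -15, -82, -42, 24, -25⟩, (.cons (nat_lit 1190) (nat_lit 386) (nat_lit 1633) (nat_lit 1)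
 (.cons (nat_lit 1302) (nat_lit 1003) (nat_lit 857) (nat_lit 1) .nil)), (nat_lit 67), (nat_lit 0), (nat_lit 0),
 (nat_lit 0), (31, 49, 21), [483, 375], 0⟩,
  mz,
  mz,
  ⟨⟨-9, 76, -11, -44, -15, -38, 42, 24, -67⟩, (.cons (nat_lit 487) (nat_lit 1289) (nat_lit 1334) (nat_lit 1)
 (.cons (nat_lit 625) (nat_lit 157) (nat_lit 1916) (nat_lit 1) .nil)), (nat_lit 67), (nat_lit 0), (nat_lit 0),
 (nat_lit 0), (25, 67, 49), [1128, 845], 0⟩,
  ⟨⟨17, 24, -89, 36, 55, 12, 54, -24, -53⟩, (.cons (nat_lit 1325) (nat_lit 1623) (nat_lit 1447) (nat_lit 1)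
 (.cons (nat_lit 1547) (nat_lit 2049) (nat_lit 1818) (nat_lit 1) .nil)), (nat_lit 70), (nat_lit 0), (nat_lit
 0), (nat_lit 0), (7, 19, 64), [445, 2135], 0⟩,
  mz,
  ⟨⟨29, -72, -9, -56, -25, -12, 38, -16, -73⟩, (.cons (nat_lit 311) (nat_lit 997) (nat_lit 69) (nat_lit 1)
 (.cons (nat_lit 1203) (nat_lit 125) (nat_lit 253) (nat_lit 1) .nil)), (nat_lit 8), (nat_lit 0), (nat_lit 0),
 (nat_lit 0), (70, 46, 55), [648, 440], 0⟩,
  ⟨⟨39, 40, -80, 44, -55, -32, -22, -8, -55⟩, (.cons (nat_lit 1848) (nat_lit 1540) (nat_lit 1334) (nat_lit 1)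
 (.cons (nat_lit 2208) (nat_lit 434) (nat_lit 227) (nat_lit 1) .nil)), (nat_lit 19), (nat_lit 0), (nat_lit 0),
 (nat_lit 0), (28, 68, 37), [583, 1054], 0⟩,
  mz,
  mz,
  ⟨⟨17, -24, 72, 36, -55, -48, 54, 24, -1⟩, (.cons (nat_lit 309) (nat_lit 204) (nat_lit 1348) (nat_lit 1)
 (.cons (nat_lit 380) (nat_lit 1297) (nat_lit 767) (nat_lit 1) .nil)), (nat_lit 70), (nat_lit 0), (nat_lit 0),
 (nat_lit 0), (28, 5, 43), [759, 309], 0⟩,
  ⟨⟨39, -40, -80, 44, 55, -32, -22, 8, -55⟩, (.cons (nat_lit 638) (nat_lit 1504) (nat_lit 920) (nat_lit 1)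
 (.cons (nat_lit 502) (nat_lit 899) (nat_lit 1007) (nat_lit 1) .nil)), (nat_lit 19), (nat_lit 0), (nat_lit 0),
 (nat_lit 0), (1, 43, 14), [1139, 232], 0⟩,
  ⟨⟨-39, 40, -41, 44, 55, -12, 22, -8, -77⟩, (.cons (nat_lit 1413) (nat_lit 1812) (nat_lit 317) (nat_lit 1)
 (.cons (nat_lit 1385) (nat_lit 85) (nat_lit 876) (nat_lit 1) .nil)), (nat_lit 23), (nat_lit 0), (nat_lit 0),
 (nat_lit 0), (2, 56, 28), [1186, 616], 0⟩,
  mz,
  ⟨⟨51, -4, 40, 10, -69, -20, 60, 12, -49⟩, (.cons (nat_lit 935) (nat_lit 1753) (nat_lit 170) (nat_lit 1)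
 (.cons (nat_lit 622) (nat_lit 682) (nat_lit 503) (nat_lit 1) .nil)), (nat_lit 48), (nat_lit 0), (nat_lit 0),
 (nat_lit 0), (60, 41, 33), [1067, 150], 0⟩,
  mz,
  mz,
  ⟨⟨-13, -72, 36, 70, -11, -30, -4, -44, -49⟩, (.cons (nat_lit 468) (nat_lit 891) (nat_lit 1522) (nat_lit 1)
 (.cons (nat_lit 2138) (nat_lit 405) (nat_lit 1730) (nat_lit 1) .nil)), (nat_lit 62), (nat_lit 0), (nat_lit 0),
 (nat_lit 0), (29, 35, 69), [319, 93], 0⟩,
  mz,
  ⟨⟨-33, -68, -4, -50, 11, 80, -44, 4, -29⟩, (.cons (nat_lit 1100) (nat_lit 926) (nat_lit 1444) (nat_lit 1)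
 (.cons (nat_lit 2136) (nat_lit 291) (nat_lit 436) (nat_lit 1) .nil)), (nat_lit 68), (nat_lit 0), (nat_lit 0),
 (nat_lit 0), (61, 58, 34), [123, 1550], 0⟩,
  mz,
  ⟨⟨-29, -72, 20, 56, -25, -68, -38, -16, -35⟩, (.cons (nat_lit 119) (nat_lit 1083) (nat_lit 1092) (nat_lit 1)
 (.cons (nat_lit 1335) (nat_lit 1253) (nat_lit 29) (nat_lit 1) .nil)), (nat_lit 8), (nat_lit 0), (nat_lit 0),
 (nat_lit 0), (27, 36, 6), [1164, 17], 0⟩,
  ⟨⟨75, 20, -32, 10, -21, -80, 12, 60, -25⟩, (.cons (nat_lit 1484) (nat_lit 1444) (nat_lit 1252) (nat_lit 1)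
 (.cons (nat_lit 838) (nat_lit 1338) (nat_lit 512) (nat_lit 1) .nil)), (nat_lit 55), (nat_lit 0), (nat_lit 0),
 (nat_lit 0), (30, 4, 19), [1201, 850], 0⟩,
  mz,
  ⟨⟨3, -40, -76, 64, -25, -12, 26, 32, -67⟩, (.cons (nat_lit 1581) (nat_lit 1160) (nat_lit 767) (nat_lit 1)
 (.cons (nat_lit 2134) (nat_lit 98) (nat_lit 871) (nat_lit 1) .nil)), (nat_lit 7), (nat_lit 0), (nat_lit 0),
 (nat_lit 0), (58, 54, 53), [1422, 2038], 0⟩,
  mz,
  ⟨⟨17, -24, -89, -36, 55, -12, 54, 24, -53⟩, (.cons (nat_lit 876) (nat_lit 985) (nat_lit 1781) (nat_lit 1)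
 (.cons (nat_lit 1210) (nat_lit 933) (nat_lit 39) (nat_lit 1) .nil)), (nat_lit 22), (nat_lit 0), (nat_lit 0),
 (nat_lit 0), (5, 27, 66), [1131, 812], 0⟩,
  ⟨⟨-3, 40, -73, 64, -25, -52, -26, -32, -41⟩, (.cons (nat_lit 185) (nat_lit 1523) (nat_lit 1413) (nat_lit 1)
 (.cons (nat_lit 183) (nat_lit 1537) (nat_lit 286) (nat_lit 1) .nil)), (nat_lit 33), (nat_lit 0), (nat_lit 0),
 (nat_lit 0), (12, 28, 33), [378, 378], 0⟩,
  mz,
  mz,
  ⟨⟨75, 16, -52, 4, -55, -52, 10, 40, -59⟩, (.cons (nat_lit 1078) (nat_lit 1359) (nat_lit 117) (nat_lit 1)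
 (.cons (nat_lit 238) (nat_lit 1885) (nat_lit 1) (nat_lit 188) .nil)), (nat_lit 65), (nat_lit 0), (nat_lit 0),
 (nat_lit 0), (5, 5, 48), [1510, 1196], 0⟩,
  ⟨⟨11, -72, -36, -50, 11, -30, 44, -4, -73⟩, (.cons (nat_lit 1579) (nat_lit 1553) (nat_lit 994) (nat_lit 1)
 (.cons (nat_lit 1372) (nat_lit 961) (nat_lit 1868) (nat_lit 1) .nil)), (nat_lit 29), (nat_lit 0), (nat_lit 0),
 (nat_lit 0), (69, 22, 63), [1071, 1799], 0⟩,
  ⟨⟨-39, -40, -41, 44, -55, -12, 22, 8, -77⟩, (.cons (nat_lit 1506) (nat_lit 521) (nat_lit 337) (nat_lit 1)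
 (.cons (nat_lit 1270) (nat_lit 1511) (nat_lit 26) (nat_lit 1) .nil)), (nat_lit 23), (nat_lit 0), (nat_lit 0),
 (nat_lit 0), (46, 10, 5), [325, 1947], 0⟩,
  mz,
  ⟨⟨-9, -76, -11, 44, -15, 38, 42, -24, -67⟩, (.cons (nat_lit 1330) (nat_lit 273) (nat_lit 997) (nat_lit 1)
 (.cons (nat_lit 554) (nat_lit 1236) (nat_lit 2006) (nat_lit 1) .nil)), (nat_lit 11), (nat_lit 0), (nat_lit 0),
 (nat_lit 0), (66, 56, 47), [821, 1545], 0⟩,
  ⟨⟨9, -16, 80, 10, 69, 10, 60, -12, -11⟩, (.cons (nat_lit 806) (nat_lit 612) (nat_lit 1421) (nat_lit 1) (.cons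
 (nat_lit 2079) (nat_lit 1010) (nat_lit 1894) (nat_lit 1) .nil)), (nat_lit 54), (nat_lit 0), (nat_lit 0),
 (nat_lit 0), (33, 13, 7), [1728, 978], 0⟩,
  ⟨⟨9, -16, -89, 10, 69, -20, 60, -12, -49⟩, (.cons (nat_lit 689) (nat_lit 489) (nat_lit 142) (nat_lit 1)
 (.cons (nat_lit 565) (nat_lit 1018) (nat_lit 985) (nat_lit 1) .nil)), (nat_lit 54), (nat_lit 0), (nat_lit 0),
 (nat_lit 0), (19, 29, 32), [181, 384], 0⟩,
  ⟨⟨9, -56, -64, -56, 25, -12, 38, 16, -73⟩, (.cons (nat_lit 1814) (nat_lit 853) (nat_lit 1074) (nat_lit 1)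
 (.cons (nat_lit 1602) (nat_lit 2150) (nat_lit 1657) (nat_lit 1) .nil)), (nat_lit 39), (nat_lit 0), (nat_lit
 0), (nat_lit 0), (4, 54, 9), [673, 1578], 0⟩,
  ⟨⟨65, 24, -72, -4, -55, -48, -10, 40, -49⟩, (.cons (nat_lit 648) (nat_lit 447) (nat_lit 1044) (nat_lit 1)
 (.cons (nat_lit 608) (nat_lit 334) (nat_lit 1) (nat_lit 658) .nil)), (nat_lit 3), (nat_lit 0), (nat_lit 0),
 (nat_lit 0), (39, 26, 65), [435, 1807], 0⟩,
  ⟨⟨9, -76, -20, 44, 15, -82, -42, -24, -25⟩, (.cons (nat_lit 1737) (nat_lit 186) (nat_lit 241) (nat_lit 1)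
 (.cons (nat_lit 703) (nat_lit 1413) (nat_lit 746) (nat_lit 1) .nil)), (nat_lit 67), (nat_lit 0), (nat_lit 0),
 (nat_lit 0), (1, 68, 19), [1073, 932], 0⟩,
  mz,
  ⟨⟨-9, 28, -76, -70, -11, 40, 4, -44, -53⟩, (.cons (nat_lit 468) (nat_lit 227) (nat_lit 370) (nat_lit 1)
 (.cons (nat_lit 211) (nat_lit 441) (nat_lit 1419) (nat_lit 1) .nil)), (nat_lit 31), (nat_lit 0), (nat_lit 0),
 (nat_lit 0), (34, 12, 48), [319, 1174], 0⟩,
  ⟨⟨51, -4, -91, 10, -69, 10, 60, 12, -11⟩, (.cons (nat_lit 1162) (nat_lit 1274) (nat_lit 1406) (nat_lit 1)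
 (.cons (nat_lit 1646) (nat_lit 1003) (nat_lit 96) (nat_lit 1) .nil)), (nat_lit 48), (nat_lit 0), (nat_lit 0),
 (nat_lit 0), (21, 25, 8), [1109, 2013], 0⟩,
  ⟨⟨75, -20, -32, 10, 21, -80, 12, -60, -25⟩, (.cons (nat_lit 1848) (nat_lit 271) (nat_lit 1560) (nat_lit 1)
 (.cons (nat_lit 2208) (nat_lit 951) (nat_lit 1395) (nat_lit 1) .nil)), (nat_lit 55), (nat_lit 0), (nat_lit 0),
 (nat_lit 0), (52, 59, 14), [1214, 106], 0⟩,
  mz,
  ⟨⟨-11, -72, -25, 50, 11, -80, -44, -4, -29⟩, (.cons (nat_lit 528) (nat_lit 822) (nat_lit 898) (nat_lit 1)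
 (.cons (nat_lit 1072) (nat_lit 914) (nat_lit 1798) (nat_lit 1) .nil)), (nat_lit 29), (nat_lit 0), (nat_lit 0),
 (nat_lit 0), (38, 8, 10), [512, 1235], 0⟩,
  ⟨⟨-75, -20, 43, -10, 21, -70, -12, -60, -13⟩, (.cons (nat_lit 1248) (nat_lit 1217) (nat_lit 934) (nat_lit 1)
 (.cons (nat_lit 1787) (nat_lit 1844) (nat_lit 1190) (nat_lit 1) .nil)), (nat_lit 55), (nat_lit 0), (nat_lit
 0), (nat_lit 0), (2, 5, 6), [870, 2174], 0⟩,
  mz,
  mz,
  mz,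
  ⟨⟨11, 72, -36, -50, -11, -30, 44, 4, -73⟩, (.cons (nat_lit 1608) (nat_lit 247) (nat_lit 700) (nat_lit 1)
 (.cons (nat_lit 280) (nat_lit 1468) (nat_lit 1580) (nat_lit 1) .nil)), (nat_lit 29), (nat_lit 0), (nat_lit 0),
 (nat_lit 0), (4, 27, 16), [859, 1500], 0⟩,
  mz,
  ⟨⟨-13, 72, 36, 70, 11, -30, -4, 44, -49⟩, (.cons (nat_lit 1192) (nat_lit 1659) (nat_lit 646) (nat_lit 1)
 (.cons (nat_lit 1466) (nat_lit 2008) (nat_lit 1762) (nat_lit 1) .nil)), (nat_lit 62), (nat_lit 0), (nat_lit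
 0), (nat_lit 0), (35, 30, 49), [1630, 718], 0⟩,
  ⟨⟨75, -16, -52, 4, 55, -52, 10, -40, -59⟩, (.cons (nat_lit 1848) (nat_lit 462) (nat_lit 210) (nat_lit 1)
 (.cons (nat_lit 2208) (nat_lit 1084) (nat_lit 235) (nat_lit 1) .nil)), (nat_lit 65), (nat_lit 0), (nat_lit 0),
 (nat_lit 0), (51, 51, 21), [966, 1528], 0⟩,
  mz,
  ⟨⟨33, 20, -92, 64, -15, -2, 6, -48, -49⟩, (.cons (nat_lit 390) (nat_lit 1078) (nat_lit 1035) (nat_lit 1)
 (.cons (nat_lit 151) (nat_lit 968) (nat_lit 924) (nat_lit 1) .nil)), (nat_lit 12), (nat_lit 0), (nat_lit 0),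
 (nat_lit 0), (45, 55, 34), [1681, 1545], 0⟩,
  ⟨⟨-9, -28, -76, -70, 11, 40, 4, 44, -53⟩, (.cons (nat_lit 590) (nat_lit 964) (nat_lit 429) (nat_lit 1) (.cons
 (nat_lit 1513) (nat_lit 1517) (nat_lit 823) (nat_lit 1) .nil)), (nat_lit 31), (nat_lit 0), (nat_lit 0),
 (nat_lit 0), (8, 7, 28), [856, 1282], 0⟩,
  ⟨⟨-23, 72, 32, 64, 25, -52, -26, 32, -41⟩, (.cons (nat_lit 1728) (nat_lit 1758) (nat_lit 1409) (nat_lit 1)
 (.cons (nat_lit 333) (nat_lit 1564) (nat_lit 1370) (nat_lit 1) .nil)), (nat_lit 18), (nat_lit 0), (nat_lit 0),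
 (nat_lit 0), (27, 36, 12), [1576, 685], 0⟩,
  ⟨⟨37, -48, -73, -36, -55, 48, 54, -24, -1⟩, (.cons (nat_lit 1048) (nat_lit 176) (nat_lit 1573) (nat_lit 1)
 (.cons (nat_lit 317) (nat_lit 2122) (nat_lit 243) (nat_lit 1) .nil)), (nat_lit 16), (nat_lit 0), (nat_lit 0),
 (nat_lit 0), (11, 20, 41), [890, 692], 0⟩]

/-- All the moves. -/
noncomputable def tabs : List (List (List Mv)) := [[[], t0_1, [], [], t0_4, [], t0_6, t0_7, [], t0_9, t0_10,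
 [], [], [], [], [], [], t0_17], [[], t1_1, [], [], t1_4, [], t1_6, t1_7, [], t1_9, t1_10, [], [], [], [], [],
 [], t1_17], [], [], [[], t4_1, [], [], t4_4, [], t4_6, t4_7, [], t4_9, t4_10, [], [], [], [], [], [], t4_17]]

/-- Subtrie. -/
noncomputable def T1 : Tr := (.ev (nat_lit 20) (nat_lit 2269095466417783148728) (.nd (nat_lit 33) (.br (nat_lit
 25) (.br (nat_lit 14) (.br (nat_lit 5) (.br (nat_lit 2) (.ch (nat_lit 1) (.ev (nat_lit 52) (nat_lit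
 63134232553193472) (.ev (nat_lit 116) (nat_lit 288511851128422400) (.ev (nat_lit 148) (nat_lit 17592186044416)
 (.ev (nat_lit 180) (nat_lit 4611686020574871554) (.ev (nat_lit 308) (nat_lit 67108864) (.nd (nat_lit 704) (.br
 (nat_lit 17) (.br (nat_lit 11) (.br (nat_lit 4) (.ch (nat_lit 2) (.ev (nat_lit 720) (nat_lit 2251868533688320)
 (.ev (nat_lit 733) (nat_lit 256) .dd))) (.br (nat_lit 5) (.ch (nat_lit 4) (.ev (nat_lit 720) (nat_lit
 2251868533164032) (.ev (nat_lit 788) (nat_lit 524288) (.ev (nat_lit 797) (nat_lit 256) .dd)))) (.ch (nat_lit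
 5) (.ev (nat_lit 720) (nat_lit 2251868533688576) .dd)))) (.br (nat_lit 13) (.ch (nat_lit 11) (.ev (nat_lit
 720) (nat_lit 2251868533688576) .dd)) (.br (nat_lit 16) (.ch (nat_lit 13) (.ev (nat_lit 720) (nat_lit
 68719479040) (.ev (nat_lit 788) (nat_lit 524288) (.ev (nat_lit 797) (nat_lit 2251799813685248) .dd)))) (.ch
 (nat_lit 16) (.ev (nat_lit 720) (nat_lit 2251868533686272) (.ev (nat_lit 864) (nat_lit 2048) (.ev (nat_lit
 877) (nat_lit 256) .dd))))))) (.br (nat_lit 28) (.br (nat_lit 19) (.ch (nat_lit 17) (.ev (nat_lit 720)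
 (nat_lit 2251799813687552) (.fin (nat_lit 576474496213926468)))) (.br (nat_lit 27) (.ch (nat_lit 19) (.ev
 (nat_lit 720) (nat_lit 2251799814211840) (.ev (nat_lit 733) (nat_lit 68719476736) .dd))) (.ch (nat_lit 27)
 (.ev (nat_lit 720) (nat_lit 2251868533686272) (.ev (nat_lit 736) (nat_lit 2304) .dd))))) (.br (nat_lit 31)
 (.br (nat_lit 29) (.ch (nat_lit 28) (.ev (nat_lit 720) (nat_lit 68719479040) (.ev (nat_lit 800) (nat_lit
 524288) (.ev (nat_lit 813) (nat_lit 2251799813685248) .dd)))) (.ch (nat_lit 29) (.ev (nat_lit 720) (nat_lit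
 2251868533688576) .dd))) (.br (nat_lit 40) (.ch (nat_lit 31) (.ev (nat_lit 720) (nat_lit 68719479040) (.ev
 (nat_lit 788) (nat_lit 2251799813685248) (.ev (nat_lit 797) (nat_lit 524288) .dd)))) (.ch (nat_lit 40) (.ev
 (nat_lit 720) (nat_lit 2251868533688320) (.ev (nat_lit 733) (nat_lit 256) .dd)))))))))))))) (.br (nat_lit 3)
 (.ch (nat_lit 2) (.ev (nat_lit 52) (nat_lit 344525715167250432) (.ev (nat_lit 84) (nat_lit 256) (.ev (nat_lit
 116) (nat_lit 13194139533312) (.ev (nat_lit 148) (nat_lit 17592186044416) (.ev (nat_lit 180) (nat_lit 2) (.nd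
 (nat_lit 704) (.br (nat_lit 18) (.br (nat_lit 14) (.br (nat_lit 7) (.ch (nat_lit 6) (.ev (nat_lit 720)
 (nat_lit 4621045063550500864) .dd)) (.ch (nat_lit 7) (.ev (nat_lit 720) (nat_lit 4621045063550500864) .dd)))
 (.br (nat_lit 17) (.ch (nat_lit 14) (.ev (nat_lit 720) (nat_lit 4621045061403017216) (.ev (nat_lit 733)
 (nat_lit 2147483648) .dd))) (.ch (nat_lit 17) (.ev (nat_lit 720) (nat_lit 9359045123112960) (.ev (nat_lit 733)
 (nat_lit 4611686018427387904) .dd))))) (.br (nat_lit 29) (.br (nat_lit 21) (.ch (nat_lit 18) (.ev (nat_lit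
 720) (nat_lit 9288676378935296) (.ev (nat_lit 788) (nat_lit 70368744177664) (.ev (nat_lit 797) (nat_lit
 4611686018427387904) .dd)))) (.ch (nat_lit 21) (.ev (nat_lit 720) (nat_lit 4620693219829612544) (.ev (nat_lit
 816) (nat_lit 351843720888320) .dd)))) (.br (nat_lit 38) (.ch (nat_lit 29) (.ev (nat_lit 720) (nat_lit
 351843720888320) (.ev (nat_lit 788) (nat_lit 4620693217682128896) (.ev (nat_lit 797) (nat_lit 2147483648)
 .dd)))) (.br (nat_lit 40) (.ch (nat_lit 38) (.ev (nat_lit 720) (nat_lit 4621045063550500864) .dd)) (.ch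
 (nat_lit 40) (.ev (nat_lit 720) (nat_lit 351843720888320) (.ev (nat_lit 788) (nat_lit 4611686020574871552)
 (.ev (nat_lit 797) (nat_lit 9007199254740992) .dd))))))))))))))) (.ch (nat_lit 3) (.ev (nat_lit 52) (nat_lit
 4665738355793723648) (.ev (nat_lit 84) (nat_lit 288300744895889408) (.ev (nat_lit 180) (nat_lit
 281474976710656) (.ev (nat_lit 212) (nat_lit 17592253153282) (.ev (nat_lit 260) (nat_lit 2251799822073856)
 (.ev (nat_lit 308) (nat_lit 4398046511104) (.nd (nat_lit 704) (.br (nat_lit 17) (.br (nat_lit 11) (.br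
 (nat_lit 7) (.ch (nat_lit 5) (.ev (nat_lit 720) (nat_lit 9007199255267328) .dd)) (.ch (nat_lit 7) (.ev
 (nat_lit 720) (nat_lit 9007199255265280) (.ev (nat_lit 733) (nat_lit 2048) .dd)))) (.br (nat_lit 16) (.ch
 (nat_lit 11) (.ev (nat_lit 720) (nat_lit 9007199255267328) .dd)) (.ch (nat_lit 16) (.ev (nat_lit 720) (nat_lit
 9007199255265280) (.ev (nat_lit 733) (nat_lit 2048) .dd))))) (.br (nat_lit 20) (.br (nat_lit 19) (.ch (nat_lit
 17) (.ev (nat_lit 720) (nat_lit 526336) (.ev (nat_lit 733) (nat_lit 9007199254740992) .dd))) (.ch (nat_lit 19)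
 (.ev (nat_lit 720) (nat_lit 2048) (.ev (nat_lit 788) (nat_lit 524288) (.ev (nat_lit 797) (nat_lit
 9007199254740992) .dd))))) (.br (nat_lit 21) (.ch (nat_lit 20) (.ev (nat_lit 720) (nat_lit 526336) (.ev
 (nat_lit 733) (nat_lit 9007199254740992) .dd))) (.br (nat_lit 28) (.ch (nat_lit 21) (.ev (nat_lit 720)
 (nat_lit 9007199255265280) (.ev (nat_lit 733) (nat_lit 2048) .dd))) (.ch (nat_lit 28) (.ev (nat_lit 720)
 (nat_lit 526336) (.ev (nat_lit 733) (nat_lit 9007199254740992) .dd))))))))))))))))) (.br (nat_lit 11) (.br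
 (nat_lit 9) (.ch (nat_lit 5) (.ev (nat_lit 52) (nat_lit 9363443245123842) (.ev (nat_lit 84) (nat_lit
 68719476736) (.ev (nat_lit 116) (nat_lit 342273571680157696) (.ev (nat_lit 148) (nat_lit 524288) (.ev (nat_lit
 288) (nat_lit 4613964481398046720) .dd)))))) (.ch (nat_lit 9) (.ev (nat_lit 52) (nat_lit 333565439655805186)
 (.ev (nat_lit 84) (nat_lit 4398046513152) (.ev (nat_lit 116) (nat_lit 2147483648) (.ev (nat_lit 192) (nat_lit
 4632031725193527296) .dd)))))) (.br (nat_lit 12) (.ch (nat_lit 11) (.ev (nat_lit 52) (nat_lit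
 4674824649027618818) (.ev (nat_lit 84) (nat_lit 288234845065183232) (.ev (nat_lit 148) (nat_lit 67108864) (.ev
 (nat_lit 180) (nat_lit 2251799813685248) (.ev (nat_lit 212) (nat_lit 290271069732864) (.ev (nat_lit 221)
 (nat_lit 256) .dd))))))) (.ch (nat_lit 12) (.ev (nat_lit 52) (nat_lit 288613281143193856) (.ev (nat_lit 84)
 (nat_lit 4611686018427389952) (.ev (nat_lit 116) (nat_lit 9007199254740992) (.ev (nat_lit 148) (nat_lit
 54043195528445952) (.ev (nat_lit 180) (nat_lit 2251799813685248) (.ev (nat_lit 212) (nat_lit 8388608) (.nd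
 (nat_lit 704) (.br (nat_lit 27) (.br (nat_lit 14) (.br (nat_lit 8) (.ch (nat_lit 6) (.ev (nat_lit 720)
 (nat_lit 70867484672) (.ev (nat_lit 733) (nat_lit 2) .dd))) (.br (nat_lit 13) (.ch (nat_lit 8) (.ev (nat_lit
 720) (nat_lit 2148007938) (.ev (nat_lit 733) (nat_lit 68719476736) .dd))) (.ch (nat_lit 13) (.ev (nat_lit 720)
 (nat_lit 70867484674) .dd)))) (.br (nat_lit 17) (.ch (nat_lit 14) (.ev (nat_lit 720) (nat_lit 68720001026)
 (.ev (nat_lit 733) (nat_lit 2147483648) .dd))) (.br (nat_lit 19) (.ch (nat_lit 17) (.ev (nat_lit 720) (nat_lit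
 2147483650) (.fin (nat_lit 576474496213926468)))) (.ch (nat_lit 19) (.ev (nat_lit 720) (nat_lit 70867484674)
 .dd))))) (.br (nat_lit 30) (.br (nat_lit 28) (.ch (nat_lit 27) (.ev (nat_lit 720) (nat_lit 524290) (.ev
 (nat_lit 736) (nat_lit 2147483648) (.ev (nat_lit 749) (nat_lit 68719476736) .dd)))) (.br (nat_lit 29) (.ch
 (nat_lit 28) (.ev (nat_lit 720) (nat_lit 70867484672) (.ev (nat_lit 733) (nat_lit 2) .dd))) (.ch (nat_lit 29)
 (.ev (nat_lit 720) (nat_lit 2148007938) (.ev (nat_lit 733) (nat_lit 68719476736) .dd))))) (.br (nat_lit 38)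
 (.br (nat_lit 34) (.ch (nat_lit 30) (.ev (nat_lit 720) (nat_lit 2148007938) (.ev (nat_lit 733) (nat_lit
 68719476736) .dd))) (.ch (nat_lit 34) (.ev (nat_lit 720) (nat_lit 70867484674) .dd))) (.br (nat_lit 40) (.ch
 (nat_lit 38) (.ev (nat_lit 720) (nat_lit 70867484674) .dd)) (.ch (nat_lit 40) (.ev (nat_lit 720) (nat_lit
 68719476738) (.ev (nat_lit 800) (nat_lit 2147483648) (.ev (nat_lit 813) (nat_lit 524288)
 .dd))))))))))))))))))) (.br (nat_lit 19) (.br (nat_lit 16) (.br (nat_lit 15) (.ch (nat_lit 14) (.ev (nat_lit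
 52) (nat_lit 4611769652178061568) (.ev (nat_lit 84) (nat_lit 36028797018963968) (.ev (nat_lit 128) (nat_lit
 317803115846303746) .dd)))) (.ch (nat_lit 15) (.ev (nat_lit 52) (nat_lit 4614219364085270530) (.ev (nat_lit
 84) (nat_lit 9015995347763200) (.ev (nat_lit 116) (nat_lit 288230376151711744) (.ev (nat_lit 160) (nat_lit
 54135829458583808) .dd)))))) (.br (nat_lit 18) (.ch (nat_lit 16) (.ev (nat_lit 52) (nat_lit
 4648093047454695680) (.ev (nat_lit 84) (nat_lit 9007267974742016) (.ev (nat_lit 116) (nat_lit 274877906944)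
 (.ev (nat_lit 260) (nat_lit 2251799813687296) (.ev (nat_lit 624) (nat_lit 18014398509481984) (.nd (nat_lit
 704) (.br (nat_lit 20) (.br (nat_lit 11) (.br (nat_lit 7) (.ch (nat_lit 6) (.ev (nat_lit 720) (nat_lit
 288234776412815362) .dd)) (.br (nat_lit 8) (.ch (nat_lit 7) (.ev (nat_lit 720) (nat_lit 4400261103618) (.ev
 (nat_lit 733) (nat_lit 288230376151711744) .dd))) (.ch (nat_lit 8) (.ev (nat_lit 720) (nat_lit 4400261103618)
 (.ev (nat_lit 733) (nat_lit 288230376151711744) .dd))))) (.br (nat_lit 16) (.br (nat_lit 14) (.ch (nat_lit 11)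
 (.ev (nat_lit 720) (nat_lit 4400261103618) (.ev (nat_lit 733) (nat_lit 288230376151711744) .dd))) (.ch
 (nat_lit 14) (.ev (nat_lit 720) (nat_lit 288234774198222850) (.ev (nat_lit 832) (nat_lit 2147483648) (.ev
 (nat_lit 845) (nat_lit 67108864) .dd))))) (.br (nat_lit 19) (.ch (nat_lit 16) (.ev (nat_lit 720) (nat_lit
 288234776412815360) (.ev (nat_lit 733) (nat_lit 2) .dd))) (.ch (nat_lit 19) (.ev (nat_lit 720) (nat_lit
 4400261103618) (.ev (nat_lit 733) (nat_lit 288230376151711744) .dd)))))) (.br (nat_lit 28) (.br (nat_lit 26)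
 (.ch (nat_lit 20) (.ev (nat_lit 720) (nat_lit 288234774265331712) (.ev (nat_lit 788) (nat_lit 2) (.ev (nat_lit
 797) (nat_lit 2147483648) .dd)))) (.br (nat_lit 27) (.ch (nat_lit 26) (.ev (nat_lit 720) (nat_lit
 4400261103618) (.ev (nat_lit 733) (nat_lit 288230376151711744) .dd))) (.ch (nat_lit 27) (.ev (nat_lit 720)
 (nat_lit 4398113619970) (.ev (nat_lit 788) (nat_lit 2147483648) (.ev (nat_lit 797) (nat_lit
 288230376151711744) .dd)))))) (.br (nat_lit 31) (.br (nat_lit 30) (.ch (nat_lit 28) (.ev (nat_lit 720)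
 (nat_lit 288234776412815360) (.ev (nat_lit 733) (nat_lit 2) .dd))) (.ch (nat_lit 30) (.ev (nat_lit 720)
 (nat_lit 4400193994754) (.ev (nat_lit 928) (nat_lit 67108864) (.ev (nat_lit 941) (nat_lit 288230376151711744)
 .dd))))) (.br (nat_lit 34) (.ch (nat_lit 31) (.ev (nat_lit 720) (nat_lit 288230378366304258) (.ev (nat_lit
 733) (nat_lit 4398046511104) .dd))) (.ch (nat_lit 34) (.ev (nat_lit 720) (nat_lit 288234776412815362)
 .dd))))))))))))) (.ch (nat_lit 18) (.ev (nat_lit 52) (nat_lit 317785525798832130) (.ev (nat_lit 84) (nat_lit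
 36028797019488256) (.ev (nat_lit 116) (nat_lit 4611690416473899008) (.ev (nat_lit 148) (nat_lit 68719476736)
 (.ev (nat_lit 212) (nat_lit 17592186044416) (.ev (nat_lit 308) (nat_lit 256) (.ev (nat_lit 384) (nat_lit
 79164845588480) .dd)))))))))) (.br (nat_lit 21) (.br (nat_lit 20) (.ch (nat_lit 19) (.ev (nat_lit 52) (nat_lit
 38360105275623426) (.ev (nat_lit 84) (nat_lit 18014398509481984) (.ev (nat_lit 116) (nat_lit 256) (.ev
 (nat_lit 148) (nat_lit 17592186044416) (.ev (nat_lit 180) (nat_lit 524288) (.nd (nat_lit 704) (.br (nat_lit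
 20) (.br (nat_lit 6) (.br (nat_lit 3) (.ch (nat_lit 2) (.ev (nat_lit 720) (nat_lit 4909209466924171264) (.ev
 (nat_lit 733) (nat_lit 2147483648) .dd))) (.br (nat_lit 4) (.ch (nat_lit 3) (.ev (nat_lit 720) (nat_lit
 4620693219829612544) (.ev (nat_lit 832) (nat_lit 288511851128422400) (.ev (nat_lit 864) (nat_lit
 4398113619968) .dd)))) (.ch (nat_lit 4) (.ev (nat_lit 720) (nat_lit 4909209469071654912) .dd)))) (.br (nat_lit
 16) (.br (nat_lit 7) (.ch (nat_lit 6) (.ev (nat_lit 720) (nat_lit 4899916396793692160) (.ev (nat_lit 800)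
 (nat_lit 285873023221760) (.ev (nat_lit 813) (nat_lit 9007199254740992) .dd)))) (.ch (nat_lit 7) (.ev (nat_lit
 720) (nat_lit 4620979092919943168) (.ev (nat_lit 733) (nat_lit 288230376151711744) .dd)))) (.br (nat_lit 19)
 (.ch (nat_lit 16) (.ev (nat_lit 720) (nat_lit 297519050450272256) (.ev (nat_lit 752) (nat_lit 2147483648) (.ev
 (nat_lit 788) (nat_lit 4398046511104) (.ev (nat_lit 797) (nat_lit 4611686018427387904) .dd))))) (.ch (nat_lit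
 19) (.ev (nat_lit 720) (nat_lit 4900202269816913920) (.ev (nat_lit 733) (nat_lit 9007199254740992) .dd))))))
 (.br (nat_lit 29) (.br (nat_lit 26) (.ch (nat_lit 20) (.ev (nat_lit 720) (nat_lit 4909209466924171264) (.ev
 (nat_lit 733) (nat_lit 2147483648) .dd))) (.br (nat_lit 27) (.ch (nat_lit 26) (.ev (nat_lit 720) (nat_lit
 4909209469071654912) .dd)) (.ch (nat_lit 27) (.ev (nat_lit 720) (nat_lit 4620979090772459520) (.ev (nat_lit
 752) (nat_lit 288230376151711744) (.ev (nat_lit 765) (nat_lit 2147483648) .dd)))))) (.br (nat_lit 38) (.br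
 (nat_lit 31) (.ch (nat_lit 29) (.ev (nat_lit 720) (nat_lit 288516249174933504) (.ev (nat_lit 736) (nat_lit
 4611686018427387904) (.ev (nat_lit 788) (nat_lit 2147483648) (.ev (nat_lit 800) (nat_lit 67108864) (.ev
 (nat_lit 813) (nat_lit 9007199254740992) .dd)))))) (.ch (nat_lit 31) (.ev (nat_lit 720) (nat_lit
 4908927991947460608) (.ev (nat_lit 788) (nat_lit 2147483648) (.ev (nat_lit 797) (nat_lit 281474976710656)
 .dd))))) (.br (nat_lit 40) (.ch (nat_lit 38) (.ev (nat_lit 720) (nat_lit 4909205070958034944) (.ev (nat_lit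
 788) (nat_lit 67108864) (.ev (nat_lit 797) (nat_lit 4398046511104) .dd)))) (.ch (nat_lit 40) (.ev (nat_lit
 720) (nat_lit 4909209466924171264) (.ev (nat_lit 733) (nat_lit 2147483648) .dd)))))))))))))) (.ch (nat_lit 20)
 (.ev (nat_lit 52) (nat_lit 4629981962789453824) (.ev (nat_lit 84) (nat_lit 4398046511360) (.ev (nat_lit 180)
 (nat_lit 2251799813685248) (.ev (nat_lit 308) (nat_lit 17592186046464) (.nd (nat_lit 704) (.br (nat_lit 20)
 (.br (nat_lit 7) (.br (nat_lit 4) (.ch (nat_lit 3) (.ev (nat_lit 720) (nat_lit 45044792433836034) (.ev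
 (nat_lit 736) (nat_lit 288230376151711744) (.ev (nat_lit 800) (nat_lit 274877906944) (.ev (nat_lit 813)
 (nat_lit 70368744177664) .dd))))) (.br (nat_lit 5) (.ch (nat_lit 4) (.ev (nat_lit 720) (nat_lit
 333345812140523520) (.ev (nat_lit 736) (nat_lit 67108866) .dd))) (.ch (nat_lit 5) (.ev (nat_lit 720) (nat_lit
 9086639036956672) (.ev (nat_lit 788) (nat_lit 288230376151711744) (.ev (nat_lit 832) (nat_lit
 36028797018963970) .dd)))))) (.br (nat_lit 16) (.ch (nat_lit 7) (.ev (nat_lit 720) (nat_lit 45106639962898434)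
 (.ev (nat_lit 736) (nat_lit 288239172244733952) .dd))) (.br (nat_lit 18) (.ch (nat_lit 16) (.ev (nat_lit 720)
 (nat_lit 324268244208713730) (.ev (nat_lit 816) (nat_lit 70368744177664) (.ev (nat_lit 829) (nat_lit
 9007199254740992) .dd)))) (.ch (nat_lit 18) (.ev (nat_lit 720) (nat_lit 333275168585547778) (.ev (nat_lit 752)
 (nat_lit 274877906944) (.ev (nat_lit 765) (nat_lit 70368744177664) .dd))))))) (.br (nat_lit 31) (.br (nat_lit
 21) (.ch (nat_lit 20) (.ev (nat_lit 720) (nat_lit 324338612952891392) (.ev (nat_lit 788) (nat_lit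
 9007199254740992) (.ev (nat_lit 797) (nat_lit 2) .dd)))) (.br (nat_lit 27) (.ch (nat_lit 21) (.ev (nat_lit
 720) (nat_lit 333275168518438914) (.ev (nat_lit 788) (nat_lit 70643622084608) (.ev (nat_lit 797) (nat_lit
 67108864) .dd)))) (.ch (nat_lit 27) (.ev (nat_lit 720) (nat_lit 45115436055920640) (.ev (nat_lit 788) (nat_lit
 2) (.ev (nat_lit 797) (nat_lit 288230376151711744) .dd)))))) (.br (nat_lit 38) (.br (nat_lit 34) (.ch (nat_lit
 31) (.ev (nat_lit 720) (nat_lit 297317015188668418) (.ev (nat_lit 733) (nat_lit 36028797018963968) .dd))) (.ch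
 (nat_lit 34) (.ev (nat_lit 720) (nat_lit 45106639962898434) (.ev (nat_lit 788) (nat_lit 8796093022208) (.ev
 (nat_lit 797) (nat_lit 288230376151711744) .dd))))) (.br (nat_lit 40) (.ch (nat_lit 38) (.ev (nat_lit 720)
 (nat_lit 333345812140523522) (.ev (nat_lit 733) (nat_lit 67108864) .dd))) (.ch (nat_lit 40) (.ev (nat_lit 720)
 (nat_lit 324338612952891394) (.ev (nat_lit 733) (nat_lit 9007199254740992) .dd)))))))))))))) (.br (nat_lit 22)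
 (.ch (nat_lit 21) (.ev (nat_lit 52) (nat_lit 11540474054050050) (.ev (nat_lit 84) (nat_lit 4398046511104) (.ev
 (nat_lit 96) (nat_lit 4954056692942768128) .dd)))) (.ch (nat_lit 22) (.ev (nat_lit 52) (nat_lit
 4938267635034358016) (.ev (nat_lit 84) (nat_lit 18014398509481984) (.ev (nat_lit 116) (nat_lit 2147483648)
 (.ev (nat_lit 128) (nat_lit 9319529352005634) .dd))))))))) (.br (nat_lit 33) (.br (nat_lit 28) (.br (nat_lit
 26) (.ch (nat_lit 25) (.ev (nat_lit 52) (nat_lit 326581412595499266) (.ev (nat_lit 84) (nat_lit 524288) (.ev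
 (nat_lit 116) (nat_lit 9007199321851904) (.ev (nat_lit 180) (nat_lit 8796093022208) (.ev (nat_lit 192)
 (nat_lit 4630004157032431616) .dd)))))) (.br (nat_lit 27) (.ch (nat_lit 26) (.ev (nat_lit 52) (nat_lit
 27109627481030914) (.ev (nat_lit 84) (nat_lit 36028797018963968) (.ev (nat_lit 116) (nat_lit
 288230376151711744) (.ev (nat_lit 128) (nat_lit 4614232764391622656) .dd))))) (.ch (nat_lit 27) (.ev (nat_lit
 52) (nat_lit 4639006754288435202) (.ev (nat_lit 84) (nat_lit 36028797018963968) (.ev (nat_lit 116) (nat_lit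
 2330964650885120) (.ev (nat_lit 240) (nat_lit 288235049085044992) .dd))))))) (.br (nat_lit 31) (.br (nat_lit
 29) (.ch (nat_lit 28) (.ev (nat_lit 52) (nat_lit 290570205615098114) (.ev (nat_lit 84) (nat_lit
 4611686018427387904) (.ev (nat_lit 116) (nat_lit 18014398509481984) (.ev (nat_lit 128) (nat_lit
 45330942491361280) .dd))))) (.ch (nat_lit 29) (.ev (nat_lit 52) (nat_lit 4666090197434237184) (.ev (nat_lit
 84) (nat_lit 297241973452963840) (.ev (nat_lit 116) (nat_lit 8388610) (.ev (nat_lit 148) (nat_lit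
 2251799813685248) (.nd (nat_lit 704) (.br (nat_lit 19) (.br (nat_lit 8) (.br (nat_lit 5) (.ch (nat_lit 4) (.ev
 (nat_lit 720) (nat_lit 17592186570752) (.ev (nat_lit 733) (nat_lit 2147483648) .dd))) (.br (nat_lit 7) (.ch
 (nat_lit 5) (.ev (nat_lit 720) (nat_lit 17592186568704) (.ev (nat_lit 788) (nat_lit 2048) (.ev (nat_lit 797)
 (nat_lit 2147483648) .dd)))) (.ch (nat_lit 7) (.ev (nat_lit 720) (nat_lit 17594334052352) (.ev (nat_lit 733)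
 (nat_lit 2048) .dd))))) (.br (nat_lit 14) (.ch (nat_lit 8) (.ev (nat_lit 720) (nat_lit 17594334054400) .dd))
 (.br (nat_lit 18) (.ch (nat_lit 14) (.ev (nat_lit 720) (nat_lit 17592186570752) (.ev (nat_lit 733) (nat_lit
 2147483648) .dd))) (.ch (nat_lit 18) (.ev (nat_lit 720) (nat_lit 17594333530112) (.ev (nat_lit 733) (nat_lit
 524288) .dd)))))) (.br (nat_lit 26) (.br (nat_lit 20) (.ch (nat_lit 19) (.ev (nat_lit 720) (nat_lit
 17594334054400) .dd)) (.br (nat_lit 21) (.ch (nat_lit 20) (.ev (nat_lit 720) (nat_lit 526336) (.ev (nat_lit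
 736) (nat_lit 17594333528064) .dd))) (.ch (nat_lit 21) (.ev (nat_lit 720) (nat_lit 17594334054400) .dd))))
 (.br (nat_lit 28) (.br (nat_lit 27) (.ch (nat_lit 26) (.ev (nat_lit 720) (nat_lit 17594334054400) .dd)) (.ch
 (nat_lit 27) (.ev (nat_lit 720) (nat_lit 17592186568704) (.ev (nat_lit 788) (nat_lit 2048) (.ev (nat_lit 797)
 (nat_lit 2147483648) .dd))))) (.br (nat_lit 34) (.ch (nat_lit 28) (.ev (nat_lit 720) (nat_lit 17594334054400)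
 .dd)) (.ch (nat_lit 34) (.ev (nat_lit 720) (nat_lit 17594334052352) (.ev (nat_lit 733) (nat_lit 2048)
 .dd)))))))))))))) (.br (nat_lit 32) (.ch (nat_lit 31) (.ev (nat_lit 52) (nat_lit 317530164231667968) (.ev
 (nat_lit 116) (nat_lit 2048) (.ev (nat_lit 160) (nat_lit 4648071400811659266) .dd)))) (.ch (nat_lit 32) (.ev
 (nat_lit 52) (nat_lit 4638791250009917440) (.ev (nat_lit 84) (nat_lit 288230376151711744) (.ev (nat_lit 116)
 (nat_lit 2) (.ev (nat_lit 192) (nat_lit 38579938881700096) .dd)))))))) (.br (nat_lit 42) (.br (nat_lit 36)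
 (.br (nat_lit 35) (.ch (nat_lit 33) (.ev (nat_lit 52) (nat_lit 4613951289473105922) (.ev (nat_lit 84) (nat_lit
 70368744177920) (.ev (nat_lit 116) (nat_lit 281474976710656) (.ev (nat_lit 160) (nat_lit 351298431849334784)
 .dd))))) (.ch (nat_lit 35) (.ev (nat_lit 52) (nat_lit 56308464435595520) (.ev (nat_lit 84) (nat_lit
 4900197871703293952) (.ev (nat_lit 116) (nat_lit 70368744177664) (.ev (nat_lit 260) (nat_lit 9007199254740992)
 (.nd (nat_lit 704) (.br (nat_lit 26) (.br (nat_lit 13) (.br (nat_lit 8) (.ch (nat_lit 5) (.ev (nat_lit 720)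
 (nat_lit 17660905521154) .dd)) (.br (nat_lit 11) (.ch (nat_lit 8) (.ev (nat_lit 720) (nat_lit 2) (.ev (nat_lit
 788) (nat_lit 17592186044416) (.ev (nat_lit 797) (nat_lit 68719476736) .dd)))) (.ch (nat_lit 11) (.ev (nat_lit
 720) (nat_lit 17660905521154) .dd)))) (.br (nat_lit 17) (.ch (nat_lit 13) (.ev (nat_lit 720) (nat_lit
 17660905521154) .dd)) (.br (nat_lit 19) (.ch (nat_lit 17) (.ev (nat_lit 720) (nat_lit 17660905521154) .dd))
 (.ch (nat_lit 19) (.ev (nat_lit 720) (nat_lit 17660905521154) .dd))))) (.br (nat_lit 30) (.br (nat_lit 27)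
 (.ch (nat_lit 26) (.ev (nat_lit 720) (nat_lit 17592186044416) (.ev (nat_lit 788) (nat_lit 2) (.ev (nat_lit
 797) (nat_lit 68719476736) .dd)))) (.br (nat_lit 29) (.ch (nat_lit 27) (.ev (nat_lit 720) (nat_lit
 17592186044416) (.ev (nat_lit 788) (nat_lit 2) (.ev (nat_lit 797) (nat_lit 68719476736) .dd)))) (.ch (nat_lit
 29) (.ev (nat_lit 720) (nat_lit 17660905521154) .dd)))) (.br (nat_lit 34) (.br (nat_lit 31) (.ch (nat_lit 30)
 (.ev (nat_lit 720) (nat_lit 17592186044418) (.ev (nat_lit 733) (nat_lit 68719476736) .dd))) (.ch (nat_lit 31)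
 (.ev (nat_lit 720) (nat_lit 17660905521154) .dd))) (.br (nat_lit 38) (.ch (nat_lit 34) (.ev (nat_lit 720)
 (nat_lit 17592186044418) (.ev (nat_lit 733) (nat_lit 68719476736) .dd))) (.ch (nat_lit 38) (.ev (nat_lit 720)
 (nat_lit 17660905521154) .dd))))))))))))) (.br (nat_lit 38) (.ch (nat_lit 36) (.ev (nat_lit 52) (nat_lit
 299792911371862018) (.ev (nat_lit 84) (nat_lit 4611686018427387904) (.ev (nat_lit 116) (nat_lit
 70368744179968) (.ev (nat_lit 148) (nat_lit 36028797018963968) (.ev (nat_lit 180) (nat_lit 524288) (.ev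
 (nat_lit 212) (nat_lit 18023194602504192) (.ev (nat_lit 221) (nat_lit 274877906944) .dd)))))))) (.ch (nat_lit
 38) (.ev (nat_lit 52) (nat_lit 351293965083346944) (.ev (nat_lit 116) (nat_lit 70368744177664) (.ev (nat_lit
 128) (nat_lit 4614237231215804674) .dd)))))) (.br (nat_lit 45) (.br (nat_lit 44) (.ch (nat_lit 42) (.ev
 (nat_lit 52) (nat_lit 4631969808937125888) (.ev (nat_lit 84) (nat_lit 70368744177664) (.ev (nat_lit 116)
 (nat_lit 9011597301252096) (.ev (nat_lit 148) (nat_lit 8388608) (.ev (nat_lit 180) (nat_lit 274877906944) (.ev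
 (nat_lit 212) (nat_lit 281474976710656) (.ev (nat_lit 340) (nat_lit 2) (.nd (nat_lit 704) (.br (nat_lit 13)
 (.br (nat_lit 6) (.br (nat_lit 3) (.ch (nat_lit 2) (.ev (nat_lit 720) (nat_lit 324268038050283520) (.ev
 (nat_lit 800) (nat_lit 256) (.ev (nat_lit 813) (nat_lit 2147483648) .dd)))) (.br (nat_lit 4) (.ch (nat_lit 3)
 (.ev (nat_lit 720) (nat_lit 36037661898572032) (.ev (nat_lit 788) (nat_lit 2147483648) (.ev (nat_lit 797)
 (nat_lit 288230376151711744) .dd)))) (.ch (nat_lit 4) (.ev (nat_lit 720) (nat_lit 324268040130658560) (.ev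
 (nat_lit 733) (nat_lit 67108864) .dd))))) (.br (nat_lit 8) (.ch (nat_lit 6) (.ev (nat_lit 720) (nat_lit
 288239243178803456) (.ev (nat_lit 733) (nat_lit 36028797018963968) .dd))) (.br (nat_lit 11) (.ch (nat_lit 8)
 (.ev (nat_lit 720) (nat_lit 36037664046055680) (.ev (nat_lit 733) (nat_lit 288230376151711744) .dd))) (.ch
 (nat_lit 11) (.ev (nat_lit 720) (nat_lit 324259241957261312) (.ev (nat_lit 788) (nat_lit 256) (.ev (nat_lit
 816) (nat_lit 8796093022208) (.ev (nat_lit 829) (nat_lit 2147483648) .dd)))))))) (.br (nat_lit 28) (.br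
 (nat_lit 17) (.ch (nat_lit 13) (.ev (nat_lit 720) (nat_lit 324259244104744960) (.ev (nat_lit 788) (nat_lit
 256) (.ev (nat_lit 797) (nat_lit 8796093022208) .dd)))) (.br (nat_lit 27) (.ch (nat_lit 17) (.ev (nat_lit 720)
 (nat_lit 324268040197767424) .dd)) (.ch (nat_lit 27) (.ev (nat_lit 720) (nat_lit 36037664046055424) (.ev
 (nat_lit 976) (nat_lit 288230376151711744) (.ev (nat_lit 989) (nat_lit 256) .dd)))))) (.br (nat_lit 38) (.br
 (nat_lit 31) (.ch (nat_lit 28) (.ev (nat_lit 720) (nat_lit 324268040197767424) .dd)) (.ch (nat_lit 31) (.ev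
 (nat_lit 720) (nat_lit 324268038050283776) (.ev (nat_lit 733) (nat_lit 2147483648) .dd)))) (.br (nat_lit 40)
 (.ch (nat_lit 38) (.ev (nat_lit 720) (nat_lit 288239243178803456) (.ev (nat_lit 733) (nat_lit
 36028797018963968) .dd))) (.ch (nat_lit 40) (.ev (nat_lit 720) (nat_lit 324259175385268224) (.ev (nat_lit 788)
 (nat_lit 8796093022464) (.ev (nat_lit 797) (nat_lit 68719476736) .dd))))))))))))))))) (.ch (nat_lit 44) (.ev
 (nat_lit 52) (nat_lit 4900211065842829312) (.ev (nat_lit 116) (nat_lit 9007267974217728) (.ev (nat_lit 180)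
 (nat_lit 2) (.ev (nat_lit 420) (nat_lit 274877906944) (.nd (nat_lit 704) (.br (nat_lit 16) (.br (nat_lit 6)
 (.br (nat_lit 4) (.ch (nat_lit 3) (.ev (nat_lit 720) (nat_lit 54131156458668288) (.ev (nat_lit 816) (nat_lit
 2251799813685248) (.ev (nat_lit 848) (nat_lit 8388608) (.ev (nat_lit 864) (nat_lit 524288) (.ev (nat_lit 877)
 (nat_lit 67108864) .dd)))))) (.br (nat_lit 5) (.ch (nat_lit 4) (.ev (nat_lit 720) (nat_lit 56312587536564224)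
 (.ev (nat_lit 788) (nat_lit 70368744701952) (.ev (nat_lit 800) (nat_lit 256) (.ev (nat_lit 813) (nat_lit
 67108864) .dd))))) (.ch (nat_lit 5) (.ev (nat_lit 720) (nat_lit 56382956348375296) .dd)))) (.br (nat_lit 11)
 (.br (nat_lit 7) (.ch (nat_lit 6) (.ev (nat_lit 720) (nat_lit 18102359515726080) (.ev (nat_lit 788) (nat_lit
 36028797018963968) (.ev (nat_lit 797) (nat_lit 2251799813685248) .dd)))) (.ch (nat_lit 7) (.ev (nat_lit 720)
 (nat_lit 38368557830504448) (.ev (nat_lit 788) (nat_lit 8388608) (.ev (nat_lit 816) (nat_lit 256) (.ev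
 (nat_lit 829) (nat_lit 18014398509481984) .dd)))))) (.br (nat_lit 14) (.ch (nat_lit 11) (.ev (nat_lit 720)
 (nat_lit 18102359515726080) (.ev (nat_lit 752) (nat_lit 2251799813685248) (.ev (nat_lit 765) (nat_lit
 36028797018963968) .dd)))) (.ch (nat_lit 14) (.ev (nat_lit 720) (nat_lit 56294995342655744) (.ev (nat_lit 896)
 (nat_lit 8388608) (.ev (nat_lit 944) (nat_lit 87960930222080) (.ev (nat_lit 957) (nat_lit 67108864)
 .dd)))))))) (.br (nat_lit 26) (.br (nat_lit 18) (.ch (nat_lit 16) (.ev (nat_lit 720) (nat_lit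
 38298189094715648) (.ev (nat_lit 912) (nat_lit 18084767253659648) .dd))) (.br (nat_lit 20) (.ch (nat_lit 18)
 (.ev (nat_lit 720) (nat_lit 56382956348375296) .dd)) (.ch (nat_lit 20) (.ev (nat_lit 720) (nat_lit
 56382956348375296) .dd)))) (.br (nat_lit 29) (.br (nat_lit 28) (.ch (nat_lit 26) (.ev (nat_lit 720) (nat_lit
 56382956339986432) (.ev (nat_lit 832) (nat_lit 256) (.ev (nat_lit 845) (nat_lit 8388608) .dd)))) (.ch (nat_lit
 28) (.ev (nat_lit 720) (nat_lit 54131156534690048) (.ev (nat_lit 733) (nat_lit 2251799813685248) .dd)))) (.br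
 (nat_lit 40) (.ch (nat_lit 29) (.ev (nat_lit 720) (nat_lit 56312587604197632) (.ev (nat_lit 733) (nat_lit
 70368744177664) .dd))) (.ch (nat_lit 40) (.ev (nat_lit 720) (nat_lit 54131156534165504) (.ev (nat_lit 788)
 (nat_lit 524544) (.ev (nat_lit 797) (nat_lit 2251799813685248) .dd))))))))))))))) (.br (nat_lit 46) (.ch
 (nat_lit 45) (.ev (nat_lit 52) (nat_lit 324633075843596544) (.ev (nat_lit 84) (nat_lit 9007199254740992) (.ev
 (nat_lit 116) (nat_lit 4613937818241073152) (.ev (nat_lit 148) (nat_lit 18023194602504194) (.nd (nat_lit 704)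
 (.br (nat_lit 16) (.br (nat_lit 7) (.br (nat_lit 4) (.ch (nat_lit 3) (.ev (nat_lit 720) (nat_lit 2215118848)
 (.ev (nat_lit 788) (nat_lit 8388608) (.ev (nat_lit 797) (nat_lit 274877906944) .dd)))) (.br (nat_lit 6) (.ch
 (nat_lit 4) (.ev (nat_lit 720) (nat_lit 277033781248) (.ev (nat_lit 848) (nat_lit 524288) (.ev (nat_lit 861)
 (nat_lit 67108864) .dd)))) (.ch (nat_lit 6) (.ev (nat_lit 720) (nat_lit 277101412352) (.ev (nat_lit 733)
 (nat_lit 2048) .dd))))) (.br (nat_lit 8) (.ch (nat_lit 7) (.ev (nat_lit 720) (nat_lit 277101412352) (.ev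
 (nat_lit 733) (nat_lit 2048) .dd))) (.br (nat_lit 11) (.ch (nat_lit 8) (.ev (nat_lit 720) (nat_lit
 277101414400) .dd)) (.ch (nat_lit 11) (.ev (nat_lit 720) (nat_lit 277034305536) (.ev (nat_lit 733) (nat_lit
 67108864) .dd)))))) (.br (nat_lit 21) (.br (nat_lit 19) (.ch (nat_lit 16) (.ev (nat_lit 720) (nat_lit
 274953930752) (.ev (nat_lit 733) (nat_lit 2147483648) .dd))) (.br (nat_lit 20) (.ch (nat_lit 19) (.ev (nat_lit
 720) (nat_lit 277101414400) .dd)) (.ch (nat_lit 20) (.ev (nat_lit 720) (nat_lit 277101414400) .dd)))) (.br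
 (nat_lit 28) (.ch (nat_lit 21) (.ev (nat_lit 720) (nat_lit 274953930752) (.ev (nat_lit 733) (nat_lit
 2147483648) .dd))) (.br (nat_lit 29) (.ch (nat_lit 28) (.ev (nat_lit 720) (nat_lit 277101414400) .dd)) (.ch
 (nat_lit 29) (.ev (nat_lit 720) (nat_lit 277034305536) (.ev (nat_lit 733) (nat_lit 67108864) .dd)))))))))))))
 (.ch (nat_lit 46) (.ev (nat_lit 52) (nat_lit 299788511170004992) (.ev (nat_lit 84) (nat_lit 18014398509482240)
 (.ev (nat_lit 160) (nat_lit 4647798655363842050) .dd)))))))))))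

/-- Subtrie. -/
noncomputable def T4 : Tr := (.ev (nat_lit 20) (nat_lit 1180943209712455618584) (.nd (nat_lit 33) (.br (nat_lit
 25) (.br (nat_lit 14) (.br (nat_lit 5) (.br (nat_lit 2) (.ch (nat_lit 1) (.ev (nat_lit 52) (nat_lit
 756316722526924308640) (.ev (nat_lit 84) (nat_lit 144115188075855872) (.ev (nat_lit 96) (nat_lit
 336657020555370694914) .dd)))) (.br (nat_lit 3) (.ch (nat_lit 2) (.ev (nat_lit 52) (nat_lit
 903894400819787729024) (.ev (nat_lit 84) (nat_lit 70368744177664) (.ev (nat_lit 116) (nat_lit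
 4611826755932520448) (.ev (nat_lit 180) (nat_lit 4398046511106) (.nd (nat_lit 704) (.br (nat_lit 24) (.br
 (nat_lit 14) (.br (nat_lit 2) (.ch (nat_lit 1) (.ev (nat_lit 720) (nat_lit 184467440739247194400) (.ev
 (nat_lit 800) (nat_lit 144115188612726784) .dd))) (.br (nat_lit 11) (.ch (nat_lit 2) (.ev (nat_lit 720)
 (nat_lit 184611555925712437536) (.ev (nat_lit 733) (nat_lit 2147483648) .dd))) (.ch (nat_lit 11) (.ev (nat_lit
 720) (nat_lit 184611555927855726880) (.ev (nat_lit 733) (nat_lit 4194304) .dd))))) (.br (nat_lit 20) (.br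
 (nat_lit 16) (.ch (nat_lit 14) (.ev (nat_lit 720) (nat_lit 144115190760210720) (.ev (nat_lit 752) (nat_lit
 4194304) (.ev (nat_lit 788) (nat_lit 147573952589676412928) (.ev (nat_lit 797) (nat_lit 36893488147419103232)
 .dd))))) (.ch (nat_lit 16) (.ev (nat_lit 720) (nat_lit 184611555927859920896) (.ev (nat_lit 800) (nat_lit 288)
 .dd)))) (.br (nat_lit 22) (.ch (nat_lit 20) (.ev (nat_lit 720) (nat_lit 184611555927323050016) (.ev (nat_lit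
 788) (nat_lit 536870912) (.ev (nat_lit 797) (nat_lit 256) .dd)))) (.ch (nat_lit 22) (.ev (nat_lit 720)
 (nat_lit 184611555927855726624) (.ev (nat_lit 788) (nat_lit 4194304) (.ev (nat_lit 797) (nat_lit 256)
 .dd))))))) (.br (nat_lit 36) (.br (nat_lit 26) (.ch (nat_lit 24) (.ev (nat_lit 720) (nat_lit
 184611555925712437536) (.ev (nat_lit 733) (nat_lit 2147483648) .dd))) (.br (nat_lit 32) (.ch (nat_lit 26) (.ev
 (nat_lit 720) (nat_lit 184467440739784065312) (.ev (nat_lit 733) (nat_lit 144115188075855872) .dd))) (.ch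
 (nat_lit 32) (.ev (nat_lit 720) (nat_lit 184611555927855726848) (.ev (nat_lit 896) (nat_lit 4194336) .dd)))))
 (.br (nat_lit 39) (.br (nat_lit 38) (.ch (nat_lit 36) (.ev (nat_lit 720) (nat_lit 184611555927318855712) (.ev
 (nat_lit 788) (nat_lit 4194560) (.ev (nat_lit 797) (nat_lit 536870912) .dd)))) (.ch (nat_lit 38) (.ev (nat_lit
 720) (nat_lit 147573952590213284128) (.ev (nat_lit 788) (nat_lit 4194304) (.ev (nat_lit 832) (nat_lit
 2147483648) (.ev (nat_lit 912) (nat_lit 37037603335494959104) .dd)))))) (.br (nat_lit 41) (.ch (nat_lit 39)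
 (.ev (nat_lit 720) (nat_lit 184611555927855726880) (.ev (nat_lit 733) (nat_lit 4194304) .dd))) (.ch (nat_lit
 41) (.ev (nat_lit 720) (nat_lit 184611555927859921184) .dd)))))))))))) (.ch (nat_lit 3) (.ev (nat_lit 52)
 (nat_lit 189224930795610702080) (.ev (nat_lit 84) (nat_lit 18446748472292933634) (.ev (nat_lit 116) (nat_lit
 590295810358705651712) (.ev (nat_lit 148) (nat_lit 549755814016) (.ev (nat_lit 180) (nat_lit 140737488355328)
 (.ev (nat_lit 212) (nat_lit 70368744177664) (.nd (nat_lit 704) (.br (nat_lit 18) (.br (nat_lit 10) (.br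
 (nat_lit 4) (.ch (nat_lit 1) (.ev (nat_lit 720) (nat_lit 295150156987756445696) (.ev (nat_lit 736) (nat_lit
 2080) (.ev (nat_lit 749) (nat_lit 16777216) .dd)))) (.br (nat_lit 8) (.ch (nat_lit 4) (.ev (nat_lit 720)
 (nat_lit 295150156987773224992) .dd)) (.ch (nat_lit 8) (.ev (nat_lit 720) (nat_lit 295150156987773224992)
 .dd)))) (.br (nat_lit 11) (.ch (nat_lit 10) (.ev (nat_lit 720) (nat_lit 295150156979166513152) (.ev (nat_lit
 788) (nat_lit 16777216) (.ev (nat_lit 816) (nat_lit 32) (.ev (nat_lit 829) (nat_lit 8589934592) .dd))))) (.br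
 (nat_lit 16) (.ch (nat_lit 11) (.ev (nat_lit 720) (nat_lit 295150156987773224992) .dd)) (.ch (nat_lit 16) (.ev
 (nat_lit 720) (nat_lit 295147905179369605152) (.ev (nat_lit 788) (nat_lit 2251799813685248) (.ev (nat_lit 797)
 (nat_lit 8589934592) .dd))))))) (.br (nat_lit 29) (.br (nat_lit 20) (.ch (nat_lit 18) (.ev (nat_lit 720)
 (nat_lit 295150156987773224992) .dd)) (.br (nat_lit 24) (.ch (nat_lit 20) (.ev (nat_lit 720) (nat_lit
 295150156987773224992) .dd)) (.ch (nat_lit 24) (.ev (nat_lit 720) (nat_lit 295150156987773224992) .dd)))) (.br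
 (nat_lit 33) (.br (nat_lit 31) (.ch (nat_lit 29) (.ev (nat_lit 720) (nat_lit 295147905187942762528) (.ev
 (nat_lit 788) (nat_lit 2251799813685248) (.ev (nat_lit 797) (nat_lit 16777216) .dd)))) (.ch (nat_lit 31) (.ev
 (nat_lit 720) (nat_lit 8606711840) (.ev (nat_lit 736) (nat_lit 2048) (.ev (nat_lit 800) (nat_lit
 2251799813685248) (.ev (nat_lit 813) (nat_lit 295147905179352825856) .dd)))))) (.br (nat_lit 41) (.ch (nat_lit
 33) (.ev (nat_lit 720) (nat_lit 295150156987773222944) (.ev (nat_lit 733) (nat_lit 2048) .dd))) (.ch (nat_lit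
 41) (.ev (nat_lit 720) (nat_lit 295147905187959539744) (.ev (nat_lit 733) (nat_lit 2251799813685248)
 .dd))))))))))))))))) (.br (nat_lit 11) (.br (nat_lit 9) (.ch (nat_lit 5) (.ev (nat_lit 52) (nat_lit
 461168676611697936770) (.ev (nat_lit 84) (nat_lit 4611686018427387936) (.ev (nat_lit 148) (nat_lit
 36893488147419103232) (.ev (nat_lit 180) (nat_lit 140737488355328) (.nd (nat_lit 704) (.br (nat_lit 18) (.br
 (nat_lit 8) (.br (nat_lit 5) (.ch (nat_lit 1) (.ev (nat_lit 720) (nat_lit 590299751566725349376) (.ev (nat_lit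
 800) (nat_lit 144115188612726784) .dd))) (.br (nat_lit 7) (.ch (nat_lit 5) (.ev (nat_lit 720) (nat_lit
 145804596818739200) (.ev (nat_lit 800) (nat_lit 590298062158519336960) .dd))) (.ch (nat_lit 7) (.ev (nat_lit
 720) (nat_lit 590443866205582262272) (.ev (nat_lit 733) (nat_lit 549755813888) .dd))))) (.br (nat_lit 14) (.br
 (nat_lit 10) (.ch (nat_lit 8) (.ev (nat_lit 720) (nat_lit 590298062167646142464) (.ev (nat_lit 788) (nat_lit
 562949953421312) (.ev (nat_lit 864) (nat_lit 1125899906842624) (.ev (nat_lit 992) (nat_lit 144115737831669760)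
 .dd))))) (.ch (nat_lit 10) (.ev (nat_lit 720) (nat_lit 590443866205582262272) (.ev (nat_lit 733) (nat_lit
 549755813888) .dd)))) (.br (nat_lit 15) (.ch (nat_lit 14) (.ev (nat_lit 720) (nat_lit 590443303805384654848)
 (.ev (nat_lit 733) (nat_lit 562949953421312) .dd))) (.ch (nat_lit 15) (.ev (nat_lit 720) (nat_lit
 147493446679003136) (.ev (nat_lit 848) (nat_lit 590296373308659073024) .dd)))))) (.br (nat_lit 29) (.br
 (nat_lit 22) (.ch (nat_lit 18) (.ev (nat_lit 720) (nat_lit 590443303805384654848) (.ev (nat_lit 733) (nat_lit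
 562949953421312) .dd))) (.br (nat_lit 26) (.ch (nat_lit 22) (.ev (nat_lit 720) (nat_lit 590299751567262220288)
 (.ev (nat_lit 733) (nat_lit 144115188075855872) .dd))) (.ch (nat_lit 26) (.ev (nat_lit 720) (nat_lit
 590443866755338076160) .dd)))) (.br (nat_lit 39) (.br (nat_lit 36) (.ch (nat_lit 29) (.ev (nat_lit 720)
 (nat_lit 590443866754801205248) (.ev (nat_lit 733) (nat_lit 536870912) .dd))) (.ch (nat_lit 36) (.ev (nat_lit
 720) (nat_lit 590442177896887877632) (.ev (nat_lit 752) (nat_lit 562949953421312) (.ev (nat_lit 788) (nat_lit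
 8589934592) (.ev (nat_lit 797) (nat_lit 1125899906842624) .dd)))))) (.br (nat_lit 41) (.ch (nat_lit 39) (.ev
 (nat_lit 720) (nat_lit 590441052005034098688) (.ev (nat_lit 788) (nat_lit 2814749767106560) (.ev (nat_lit 797)
 (nat_lit 536870912) .dd)))) (.ch (nat_lit 41) (.ev (nat_lit 720) (nat_lit 590441052005570969600) (.ev (nat_lit
 788) (nat_lit 562949953421312) (.ev (nat_lit 797) (nat_lit 2251799813685248) .dd)))))))))))))) (.ch (nat_lit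
 9) (.ev (nat_lit 52) (nat_lit 350633378497611956514) (.ev (nat_lit 84) (nat_lit 590295810358705651712) (.ev
 (nat_lit 116) (nat_lit 549755813888) (.ev (nat_lit 128) (nat_lit 152188668864297437312) .dd)))))) (.br
 (nat_lit 12) (.ch (nat_lit 11) (.ev (nat_lit 52) (nat_lit 1092971486323920603138) (.ev (nat_lit 84) (nat_lit
 8589934592) (.ev (nat_lit 116) (nat_lit 32) (.ev (nat_lit 160) (nat_lit 146371937860321664) .dd))))) (.ch
 (nat_lit 12) (.ev (nat_lit 52) (nat_lit 295293362321387159936) (.ev (nat_lit 84) (nat_lit 2251799813685248)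
 (.ev (nat_lit 116) (nat_lit 4194336) (.ev (nat_lit 148) (nat_lit 4611686018427387904) (.ev (nat_lit 212)
 (nat_lit 147573952589676412928) (.nd (nat_lit 704) (.br (nat_lit 15) (.br (nat_lit 5) (.br (nat_lit 2) (.ch
 (nat_lit 1) (.ev (nat_lit 720) (nat_lit 608743117393106044930) (.ev (nat_lit 736) (nat_lit
 36893488147955974144) .dd))) (.br (nat_lit 4) (.ch (nat_lit 2) (.ev (nat_lit 720) (nat_lit
 645636605532472084482) (.ev (nat_lit 733) (nat_lit 8589934592) .dd))) (.ch (nat_lit 4) (.ev (nat_lit 720)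
 (nat_lit 645636605538914535424) (.ev (nat_lit 944) (nat_lit 2147483650) .dd))))) (.br (nat_lit 7) (.ch
 (nat_lit 5) (.ev (nat_lit 720) (nat_lit 627189861467352467458) (.ev (nat_lit 733) (nat_lit
 18446744073709551616) .dd))) (.br (nat_lit 14) (.ch (nat_lit 7) (.ev (nat_lit 720) (nat_lit
 627189861467352467458) (.ev (nat_lit 733) (nat_lit 18446744073709551616) .dd))) (.ch (nat_lit 14) (.ev
 (nat_lit 720) (nat_lit 18447307034937262082) (.ev (nat_lit 788) (nat_lit 590295810358705651712) (.ev (nat_lit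
 800) (nat_lit 2048) (.ev (nat_lit 813) (nat_lit 36893488147419103232) .dd)))))))) (.br (nat_lit 33) (.br
 (nat_lit 18) (.ch (nat_lit 15) (.ev (nat_lit 720) (nat_lit 645636605538914535426) (.ev (nat_lit 733) (nat_lit
 2147483648) .dd))) (.br (nat_lit 29) (.ch (nat_lit 18) (.ev (nat_lit 720) (nat_lit 645636605541062019072) (.ev
 (nat_lit 733) (nat_lit 2) .dd))) (.ch (nat_lit 29) (.ev (nat_lit 720) (nat_lit 645636605541062017026) (.ev
 (nat_lit 733) (nat_lit 2048) .dd))))) (.br (nat_lit 38) (.ch (nat_lit 33) (.ev (nat_lit 720) (nat_lit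
 627189298517399046144) (.ev (nat_lit 816) (nat_lit 562949953421312) (.ev (nat_lit 880) (nat_lit
 18446744073709551618) .dd)))) (.br (nat_lit 41) (.ch (nat_lit 38) (.ev (nat_lit 720) (nat_lit
 627189861465204981762) (.ev (nat_lit 800) (nat_lit 18446744073709551616) (.ev (nat_lit 848) (nat_lit 2048)
 (.ev (nat_lit 861) (nat_lit 2147483648) .dd))))) (.ch (nat_lit 41) (.ev (nat_lit 720) (nat_lit
 627189861467352465410) (.ev (nat_lit 736) (nat_lit 2048) (.ev (nat_lit 749) (nat_lit 18446744073709551616)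
 .dd)))))))))))))))))) (.br (nat_lit 19) (.br (nat_lit 16) (.br (nat_lit 15) (.ch (nat_lit 14) (.ev (nat_lit
 52) (nat_lit 4757142612836616480) (.ev (nat_lit 84) (nat_lit 2251799813685248) (.ev (nat_lit 116) (nat_lit
 536870914) (.ev (nat_lit 148) (nat_lit 295147905179352825856) (.ev (nat_lit 180) (nat_lit 549760008320) (.ev
 (nat_lit 212) (nat_lit 8589934592) (.ev (nat_lit 560) (nat_lit 36893488147419103232) (.nd (nat_lit 704) (.br
 (nat_lit 28) (.br (nat_lit 11) (.br (nat_lit 7) (.ch (nat_lit 2) (.ev (nat_lit 720) (nat_lit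
 756316507022108393472) (.ev (nat_lit 733) (nat_lit 562949953421312) .dd))) (.br (nat_lit 10) (.ch (nat_lit 7)
 (.ev (nat_lit 720) (nat_lit 756317069972061814784) .dd)) (.ch (nat_lit 10) (.ev (nat_lit 720) (nat_lit
 756317069972045037568) (.ev (nat_lit 733) (nat_lit 16777216) .dd))))) (.br (nat_lit 14) (.ch (nat_lit 11) (.ev
 (nat_lit 720) (nat_lit 737870325898352263168) (.ev (nat_lit 733) (nat_lit 18446744073709551616) .dd))) (.br
 (nat_lit 26) (.ch (nat_lit 14) (.ev (nat_lit 720) (nat_lit 608743117382385401856) (.ev (nat_lit 733) (nat_lit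
 147573952589676412928) .dd))) (.ch (nat_lit 26) (.ev (nat_lit 720) (nat_lit 756317069972061814784) .dd)))))
 (.br (nat_lit 36) (.br (nat_lit 29) (.ch (nat_lit 28) (.ev (nat_lit 720) (nat_lit 756317069972061814784) .dd))
 (.br (nat_lit 31) (.ch (nat_lit 29) (.ev (nat_lit 720) (nat_lit 166021259613339385856) (.ev (nat_lit 736)
 (nat_lit 16777216) (.ev (nat_lit 749) (nat_lit 590295810358705651712) .dd)))) (.ch (nat_lit 31) (.ev (nat_lit
 720) (nat_lit 608743117382385401856) (.ev (nat_lit 733) (nat_lit 147573952589676412928) .dd))))) (.br (nat_lit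
 39) (.ch (nat_lit 36) (.ev (nat_lit 720) (nat_lit 756316507022108393472) (.ev (nat_lit 733) (nat_lit
 562949953421312) .dd))) (.br (nat_lit 41) (.ch (nat_lit 39) (.ev (nat_lit 720) (nat_lit 756317069972061814784)
 .dd)) (.ch (nat_lit 41) (.ev (nat_lit 720) (nat_lit 590296373308659073024) (.ev (nat_lit 752) (nat_lit
 18446744073709551616) (.ev (nat_lit 864) (nat_lit 16777216) (.ev (nat_lit 877) (nat_lit 147573952589676412928)
 .dd)))))))))))))))))) (.ch (nat_lit 15) (.ev (nat_lit 52) (nat_lit 890203035184471738498) (.ev (nat_lit 116)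
 (nat_lit 4398046511104) (.ev (nat_lit 148) (nat_lit 70368744177664) (.ev (nat_lit 212) (nat_lit
 36894051097372524544) (.nd (nat_lit 704) (.br (nat_lit 18) (.br (nat_lit 7) (.br (nat_lit 4) (.ch (nat_lit 1)
 (.ev (nat_lit 720) (nat_lit 166020697221731713024) (.ev (nat_lit 788) (nat_lit 288) (.ev (nat_lit 797)
 (nat_lit 4194304) .dd)))) (.br (nat_lit 5) (.ch (nat_lit 4) (.ev (nat_lit 720) (nat_lit 166020697221735907360)
 (.ev (nat_lit 733) (nat_lit 256) .dd))) (.ch (nat_lit 5) (.ev (nat_lit 720) (nat_lit 166020697221735907584)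
 (.ev (nat_lit 733) (nat_lit 32) .dd))))) (.br (nat_lit 15) (.br (nat_lit 11) (.ch (nat_lit 7) (.ev (nat_lit
 720) (nat_lit 32) (.ev (nat_lit 752) (nat_lit 256) (.ev (nat_lit 788) (nat_lit 147573952598270541824) (.ev
 (nat_lit 800) (nat_lit 549755813888) (.ev (nat_lit 813) (nat_lit 18446744073709551616) .dd)))))) (.ch (nat_lit
 11) (.ev (nat_lit 720) (nat_lit 147573952598266347808) (.ev (nat_lit 788) (nat_lit 549755813888) (.ev (nat_lit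
 800) (nat_lit 4194304) (.ev (nat_lit 813) (nat_lit 18446744073709551616) .dd)))))) (.br (nat_lit 16) (.ch
 (nat_lit 15) (.ev (nat_lit 720) (nat_lit 166020696671980093728) (.ev (nat_lit 733) (nat_lit 549755813888)
 .dd))) (.ch (nat_lit 16) (.ev (nat_lit 720) (nat_lit 147573952598270541824) (.ev (nat_lit 788) (nat_lit
 18446744073709551616) (.ev (nat_lit 800) (nat_lit 256) (.ev (nat_lit 848) (nat_lit 32) (.ev (nat_lit 861)
 (nat_lit 549755813888) .dd))))))))) (.br (nat_lit 32) (.br (nat_lit 22) (.ch (nat_lit 18) (.ev (nat_lit 720)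
 (nat_lit 166020697213141778720) (.ev (nat_lit 816) (nat_lit 8594128896) .dd))) (.br (nat_lit 29) (.ch (nat_lit
 22) (.ev (nat_lit 720) (nat_lit 18446744632059494432) (.ev (nat_lit 788) (nat_lit 147573952589676412928) (.ev
 (nat_lit 797) (nat_lit 256) .dd)))) (.ch (nat_lit 29) (.ev (nat_lit 720) (nat_lit 147573953148026356000) (.ev
 (nat_lit 733) (nat_lit 18446744073709551616) .dd))))) (.br (nat_lit 36) (.br (nat_lit 33) (.ch (nat_lit 32)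
 (.ev (nat_lit 720) (nat_lit 166020697221735907616) .dd)) (.ch (nat_lit 33) (.ev (nat_lit 720) (nat_lit
 147573953148026356000) (.ev (nat_lit 733) (nat_lit 18446744073709551616) .dd)))) (.br (nat_lit 38) (.ch
 (nat_lit 36) (.ev (nat_lit 720) (nat_lit 166020696671980093728) (.ev (nat_lit 733) (nat_lit 549755813888)
 .dd))) (.ch (nat_lit 38) (.ev (nat_lit 720) (nat_lit 166020697221731713312) (.ev (nat_lit 733) (nat_lit
 4194304) .dd)))))))))))))) (.br (nat_lit 18) (.ch (nat_lit 16) (.ev (nat_lit 52) (nat_lit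
 484371358779476804000) (.ev (nat_lit 84) (nat_lit 590295810360869912576) (.ev (nat_lit 116) (nat_lit
 2251799813685248) (.ev (nat_lit 148) (nat_lit 2050) (.ev (nat_lit 240) (nat_lit 18448437330210455552)
 .dd)))))) (.ch (nat_lit 18) (.ev (nat_lit 52) (nat_lit 1033164176413610215554) (.ev (nat_lit 84) (nat_lit
 4398046511104) (.ev (nat_lit 116) (nat_lit 18446744073709551616) (.ev (nat_lit 160) (nat_lit
 41506933385004581152) .dd))))))) (.br (nat_lit 21) (.br (nat_lit 20) (.ch (nat_lit 19) (.ev (nat_lit 52)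
 (nat_lit 590298133085609265154) (.ev (nat_lit 64) (nat_lit 502819725184761594272) .dd))) (.ch (nat_lit 20)
 (.ev (nat_lit 52) (nat_lit 779375077854405460096) (.ev (nat_lit 84) (nat_lit 70918499991584) (.ev (nat_lit
 116) (nat_lit 16777216) (.ev (nat_lit 180) (nat_lit 18448432923569815808) (.ev (nat_lit 212) (nat_lit 2) (.ev
 (nat_lit 260) (nat_lit 4398046511104) (.ev (nat_lit 308) (nat_lit 2251799813685248) (.nd (nat_lit 704) (.br
 (nat_lit 28) (.br (nat_lit 14) (.br (nat_lit 2) (.ch (nat_lit 1) (.ev (nat_lit 720) (nat_lit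
 295147905187942760448) (.ev (nat_lit 752) (nat_lit 144115188075855872) (.ev (nat_lit 765) (nat_lit 2048)
 .dd)))) (.br (nat_lit 5) (.ch (nat_lit 2) (.ev (nat_lit 720) (nat_lit 295292020367428683776) (.ev (nat_lit
 733) (nat_lit 8589934592) .dd))) (.ch (nat_lit 5) (.ev (nat_lit 720) (nat_lit 295292020376018618368) .dd))))
 (.br (nat_lit 16) (.ch (nat_lit 14) (.ev (nat_lit 720) (nat_lit 295292020376018618368) .dd)) (.br (nat_lit 24)
 (.ch (nat_lit 16) (.ev (nat_lit 720) (nat_lit 295292020367428683776) (.ev (nat_lit 733) (nat_lit 8589934592)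
 .dd))) (.ch (nat_lit 24) (.ev (nat_lit 720) (nat_lit 295292020376018618368) .dd))))) (.br (nat_lit 32) (.br
 (nat_lit 29) (.ch (nat_lit 28) (.ev (nat_lit 720) (nat_lit 295292020376018618368) .dd)) (.br (nat_lit 31) (.ch
 (nat_lit 29) (.ev (nat_lit 720) (nat_lit 295292020376018618368) .dd)) (.ch (nat_lit 31) (.ev (nat_lit 720)
 (nat_lit 295292020376018618368) .dd)))) (.br (nat_lit 38) (.ch (nat_lit 32) (.ev (nat_lit 720) (nat_lit
 295292020367428683776) (.ev (nat_lit 733) (nat_lit 8589934592) .dd))) (.br (nat_lit 41) (.ch (nat_lit 38) (.ev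
 (nat_lit 720) (nat_lit 144115196665792512) (.ev (nat_lit 733) (nat_lit 295147905179352825856) .dd))) (.ch
 (nat_lit 41) (.ev (nat_lit 720) (nat_lit 295292020376018616320) (.ev (nat_lit 733) (nat_lit 2048)
 .dd))))))))))))))))) (.br (nat_lit 22) (.ch (nat_lit 21) (.ev (nat_lit 52) (nat_lit 737872718994520146306)
 (.ev (nat_lit 84) (nat_lit 144115188075855872) (.ev (nat_lit 116) (nat_lit 1125899906842624) (.ev (nat_lit
 148) (nat_lit 2048) (.ev (nat_lit 180) (nat_lit 295147905181500309504) (.ev (nat_lit 212) (nat_lit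
 18446744073709551616) (.ev (nat_lit 260) (nat_lit 32) (.nd (nat_lit 704) (.br (nat_lit 14) (.br (nat_lit 8)
 (.br (nat_lit 4) (.ch (nat_lit 1) (.ev (nat_lit 720) (nat_lit 4611756387188342784) (.ev (nat_lit 788) (nat_lit
 36893488147423297536) (.ev (nat_lit 797) (nat_lit 4398046511104) .dd)))) (.br (nat_lit 7) (.ch (nat_lit 4)
 (.ev (nat_lit 720) (nat_lit 4611760785239048192) (.ev (nat_lit 733) (nat_lit 36893488147419103232) .dd))) (.ch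
 (nat_lit 7) (.ev (nat_lit 720) (nat_lit 41505248932658151424) .dd)))) (.br (nat_lit 10) (.ch (nat_lit 8) (.ev
 (nat_lit 720) (nat_lit 36893562914230763520) (.ev (nat_lit 733) (nat_lit 4611686018427387904) .dd))) (.br
 (nat_lit 11) (.ch (nat_lit 10) (.ev (nat_lit 720) (nat_lit 41505178563913973760) (.ev (nat_lit 733) (nat_lit
 70368744177664) .dd))) (.ch (nat_lit 11) (.ev (nat_lit 720) (nat_lit 36893558516163280896) (.ev (nat_lit 788)
 (nat_lit 4194304) (.ev (nat_lit 816) (nat_lit 4398046511104) (.ev (nat_lit 848) (nat_lit 4611686018427387904)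
 (.ev (nat_lit 861) (nat_lit 16777216) .dd))))))))) (.br (nat_lit 24) (.br (nat_lit 18) (.ch (nat_lit 14) (.ev
 (nat_lit 720) (nat_lit 41505248932658151424) .dd)) (.br (nat_lit 20) (.ch (nat_lit 18) (.ev (nat_lit 720)
 (nat_lit 36893492545469808640) (.ev (nat_lit 736) (nat_lit 70368744177664) (.ev (nat_lit 788) (nat_lit
 4611686018427387904) (.ev (nat_lit 797) (nat_lit 16777216) .dd))))) (.ch (nat_lit 20) (.ev (nat_lit 720)
 (nat_lit 41505248932658151424) .dd)))) (.br (nat_lit 31) (.br (nat_lit 28) (.ch (nat_lit 24) (.ev (nat_lit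
 720) (nat_lit 36893562914213986304) (.ev (nat_lit 944) (nat_lit 16777216) (.ev (nat_lit 957) (nat_lit
 4611686018427387904) .dd)))) (.ch (nat_lit 28) (.ev (nat_lit 720) (nat_lit 4611760785239048192) (.ev (nat_lit
 733) (nat_lit 36893488147419103232) .dd)))) (.br (nat_lit 38) (.ch (nat_lit 31) (.ev (nat_lit 720) (nat_lit
 36893492545486585856) (.ev (nat_lit 788) (nat_lit 4611686018427387904) (.ev (nat_lit 797) (nat_lit
 70368744177664) .dd)))) (.ch (nat_lit 38) (.ev (nat_lit 720) (nat_lit 41505178563909779456) (.ev (nat_lit 788)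
 (nat_lit 4194304) (.ev (nat_lit 797) (nat_lit 70368744177664) .dd))))))))))))))))) (.ch (nat_lit 22) (.ev
 (nat_lit 52) (nat_lit 742484334635076551072) (.ev (nat_lit 64) (nat_lit 350633523635294308354) .dd))))))) (.br
 (nat_lit 33) (.br (nat_lit 28) (.br (nat_lit 26) (.ch (nat_lit 25) (.ev (nat_lit 52) (nat_lit
 147576838260111966626) (.ev (nat_lit 84) (nat_lit 536870912) (.ev (nat_lit 96) (nat_lit 945541020009722021888)
 .dd)))) (.br (nat_lit 27) (.ch (nat_lit 26) (.ev (nat_lit 52) (nat_lit 36894122025020293538) (.ev (nat_lit 84)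
 (nat_lit 2251801961168896) (.ev (nat_lit 116) (nat_lit 4398046511104) (.ev (nat_lit 148) (nat_lit
 18446744073709551616) (.ev (nat_lit 192) (nat_lit 1037774735971633334272) .dd)))))) (.ch (nat_lit 27) (.ev
 (nat_lit 52) (nat_lit 631801547485263953954) (.ev (nat_lit 84) (nat_lit 18447870523909079040) (.ev (nat_lit
 116) (nat_lit 384) (.ev (nat_lit 180) (nat_lit 2048) (.ev (nat_lit 212) (nat_lit 295147905179352825856) (.nd
 (nat_lit 704) (.br (nat_lit 22) (.br (nat_lit 10) (.br (nat_lit 7) (.ch (nat_lit 5) (.ev (nat_lit 720)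
 (nat_lit 147720535081844998144) .dd)) (.br (nat_lit 8) (.ch (nat_lit 7) (.ev (nat_lit 720) (nat_lit
 146578094122074112) (.ev (nat_lit 800) (nat_lit 4398046511104) (.ev (nat_lit 813) (nat_lit
 147573952589676412928) .dd)))) (.ch (nat_lit 8) (.ev (nat_lit 720) (nat_lit 147574168093955457024) (.ev
 (nat_lit 736) (nat_lit 144115188075855872) (.ev (nat_lit 749) (nat_lit 2251799813685248) .dd)))))) (.br
 (nat_lit 11) (.ch (nat_lit 10) (.ev (nat_lit 720) (nat_lit 146582492168585216) (.ev (nat_lit 733) (nat_lit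
 147573952589676412928) .dd))) (.br (nat_lit 15) (.ch (nat_lit 11) (.ev (nat_lit 720) (nat_lit
 147720530683798487040) (.ev (nat_lit 733) (nat_lit 4398046511104) .dd))) (.ch (nat_lit 15) (.ev (nat_lit 720)
 (nat_lit 146437356633718784) (.ev (nat_lit 752) (nat_lit 147573952589676412928) (.ev (nat_lit 816) (nat_lit
 140737488355328) (.ev (nat_lit 829) (nat_lit 4398046511104) .dd)))))))) (.br (nat_lit 32) (.br (nat_lit 26)
 (.ch (nat_lit 22) (.ev (nat_lit 720) (nat_lit 144189954866544640) (.ev (nat_lit 788) (nat_lit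
 147573952589676412928) (.ev (nat_lit 800) (nat_lit 2251799813685248) (.ev (nat_lit 813) (nat_lit
 140737488355328) .dd))))) (.br (nat_lit 28) (.ch (nat_lit 26) (.ev (nat_lit 720) (nat_lit
 147576419893769142272) (.ev (nat_lit 733) (nat_lit 144115188075855872) .dd))) (.ch (nat_lit 28) (.ev (nat_lit
 720) (nat_lit 147720535081844998144) .dd)))) (.br (nat_lit 33) (.ch (nat_lit 32) (.ev (nat_lit 720) (nat_lit
 147720535081844998144) .dd)) (.br (nat_lit 36) (.ch (nat_lit 33) (.ev (nat_lit 720) (nat_lit 2396935348551680)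
 (.ev (nat_lit 816) (nat_lit 70368744177664) (.ev (nat_lit 848) (nat_lit 147718067777752268800) .dd)))) (.ch
 (nat_lit 36) (.ev (nat_lit 720) (nat_lit 147720530683798487040) (.ev (nat_lit 733) (nat_lit 4398046511104)
 .dd)))))))))))))))) (.br (nat_lit 31) (.br (nat_lit 29) (.ch (nat_lit 28) (.ev (nat_lit 52) (nat_lit
 590442247723933501698) (.ev (nat_lit 84) (nat_lit 4398046511104) (.ev (nat_lit 116) (nat_lit
 18447869973616394272) (.ev (nat_lit 180) (nat_lit 549755813888) (.ev (nat_lit 212) (nat_lit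
 36893628885444329472) (.nd (nat_lit 704) (.br (nat_lit 22) (.br (nat_lit 14) (.br (nat_lit 10) (.ch (nat_lit
 4) (.ev (nat_lit 720) (nat_lit 447334106739574308992) .dd)) (.br (nat_lit 11) (.ch (nat_lit 10) (.ev (nat_lit
 720) (nat_lit 299760154149881118848) (.ev (nat_lit 788) (nat_lit 16777216) (.ev (nat_lit 797) (nat_lit
 147573952589676412928) .dd)))) (.ch (nat_lit 11) (.ev (nat_lit 720) (nat_lit 442722420721146921088) (.ev
 (nat_lit 733) (nat_lit 4611686018427387904) .dd))))) (.br (nat_lit 15) (.ch (nat_lit 14) (.ev (nat_lit 720)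
 (nat_lit 442721857771193499776) (.ev (nat_lit 788) (nat_lit 4611686018427387904) (.ev (nat_lit 797) (nat_lit
 562949953421312) .dd)))) (.br (nat_lit 16) (.ch (nat_lit 15) (.ev (nat_lit 720) (nat_lit
 442721857771176722560) (.ev (nat_lit 752) (nat_lit 4611686018427387904) (.ev (nat_lit 816) (nat_lit 16777216)
 (.ev (nat_lit 829) (nat_lit 562949953421312) .dd))))) (.ch (nat_lit 16) (.ev (nat_lit 720) (nat_lit
 152185638608120578176) (.ev (nat_lit 788) (nat_lit 295147905179352825856) (.ev (nat_lit 816) (nat_lit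
 562949953421312) (.ev (nat_lit 829) (nat_lit 2147483648) .dd)))))))) (.br (nat_lit 31) (.br (nat_lit 26) (.ch
 (nat_lit 22) (.ev (nat_lit 720) (nat_lit 299760154149897896064) (.ev (nat_lit 733) (nat_lit
 147573952589676412928) .dd))) (.br (nat_lit 28) (.ch (nat_lit 26) (.ev (nat_lit 720) (nat_lit
 442722420718999437440) (.ev (nat_lit 788) (nat_lit 2147483648) (.ev (nat_lit 797) (nat_lit
 4611686018427387904) .dd)))) (.ch (nat_lit 28) (.ev (nat_lit 720) (nat_lit 447334106739574308992) .dd)))) (.br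
 (nat_lit 38) (.ch (nat_lit 31) (.ev (nat_lit 720) (nat_lit 147574515541794095104) (.ev (nat_lit 816) (nat_lit
 4611686018427387904) (.fin (nat_lit 576456904011104812))))) (.br (nat_lit 41) (.ch (nat_lit 38) (.ev (nat_lit
 720) (nat_lit 447333543789620887680) (.ev (nat_lit 733) (nat_lit 562949953421312) .dd))) (.ch (nat_lit 41)
 (.ev (nat_lit 720) (nat_lit 447334106739557531776) (.ev (nat_lit 733) (nat_lit 16777216) .dd))))))))))))))
 (.ch (nat_lit 29) (.ev (nat_lit 52) (nat_lit 23059204148863959328) (.ev (nat_lit 84) (nat_lit 2147485696) (.ev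
 (nat_lit 116) (nat_lit 2251808403619968) (.ev (nat_lit 212) (nat_lit 36893488147419103232) (.ev (nat_lit 260)
 (nat_lit 1125899906842624) (.nd (nat_lit 704) (.br (nat_lit 24) (.br (nat_lit 10) (.br (nat_lit 2) (.ch
 (nat_lit 1) (.ev (nat_lit 720) (nat_lit 885587831275890147330) (.ev (nat_lit 752) (nat_lit 16777216) (.ev
 (nat_lit 788) (nat_lit 147573952589676412928) (.ev (nat_lit 797) (nat_lit 4398046511104) .dd))))) (.br
 (nat_lit 7) (.ch (nat_lit 2) (.ev (nat_lit 720) (nat_lit 1033161783865583337474) (.ev (nat_lit 733) (nat_lit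
 4398046511104) .dd))) (.ch (nat_lit 7) (.ev (nat_lit 720) (nat_lit 295292020917201272834) (.ev (nat_lit 788)
 (nat_lit 147573956987722924032) (.ev (nat_lit 797) (nat_lit 590295810358705651712) .dd)))))) (.br (nat_lit 16)
 (.br (nat_lit 15) (.ch (nat_lit 10) (.ev (nat_lit 720) (nat_lit 738013882534504431618) (.ev (nat_lit 788)
 (nat_lit 295147905179369603072) (.ev (nat_lit 797) (nat_lit 549755813888) .dd)))) (.ch (nat_lit 15) (.ev
 (nat_lit 720) (nat_lit 738013883084277022722) (.ev (nat_lit 733) (nat_lit 295147905179352825856) .dd)))) (.br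
 (nat_lit 22) (.ch (nat_lit 16) (.ev (nat_lit 720) (nat_lit 590439930494583832578) (.ev (nat_lit 752) (nat_lit
 147573952589676412928) (.ev (nat_lit 788) (nat_lit 16777216) (.ev (nat_lit 797) (nat_lit
 295147905179352825856) .dd))))) (.ch (nat_lit 22) (.ev (nat_lit 720) (nat_lit 1033017673075553992704) (.ev
 (nat_lit 1012) (nat_lit 2) (.ev (nat_lit 1021) (nat_lit 144115188075855872) .dd))))))) (.br (nat_lit 31) (.br
 (nat_lit 28) (.ch (nat_lit 24) (.ev (nat_lit 720) (nat_lit 1033161788263613071362) (.ev (nat_lit 733) (nat_lit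
 16777216) .dd))) (.br (nat_lit 29) (.ch (nat_lit 28) (.ev (nat_lit 720) (nat_lit 1033161788263629848576) (.ev
 (nat_lit 733) (nat_lit 2) .dd))) (.ch (nat_lit 29) (.ev (nat_lit 720) (nat_lit 1033161788263613071362) (.ev
 (nat_lit 733) (nat_lit 16777216) .dd))))) (.br (nat_lit 36) (.br (nat_lit 32) (.ch (nat_lit 31) (.ev (nat_lit
 720) (nat_lit 885587835673953435650) (.ev (nat_lit 733) (nat_lit 147573952589676412928) .dd))) (.ch (nat_lit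
 32) (.ev (nat_lit 720) (nat_lit 1033017673075553992706) (.ev (nat_lit 733) (nat_lit 144115188075855872)
 .dd)))) (.br (nat_lit 38) (.ch (nat_lit 36) (.ev (nat_lit 720) (nat_lit 885587835673953435650) (.ev (nat_lit
 733) (nat_lit 147573952589676412928) .dd))) (.ch (nat_lit 38) (.ev (nat_lit 720) (nat_lit
 1033017673075553992704) (.ev (nat_lit 1012) (nat_lit 2) (.ev (nat_lit 1021) (nat_lit 144115188075855872)
 .dd)))))))))))))))) (.br (nat_lit 32) (.ch (nat_lit 31) (.ev (nat_lit 52) (nat_lit 166167627161722159392) (.ev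
 (nat_lit 64) (nat_lit 926950231108648700034) .dd))) (.ch (nat_lit 32) (.ev (nat_lit 52) (nat_lit
 613354878178340898816) (.ev (nat_lit 84) (nat_lit 1125899906842624) (.ev (nat_lit 116) (nat_lit 549755813888)
 (.ev (nat_lit 148) (nat_lit 144115188075855872) (.ev (nat_lit 180) (nat_lit 147573952589676412928) (.ev
 (nat_lit 212) (nat_lit 140737492549634) (.ev (nat_lit 260) (nat_lit 36895739947232788736) (.nd (nat_lit 704)
 (.br (nat_lit 22) (.br (nat_lit 14) (.br (nat_lit 5) (.ch (nat_lit 2) (.ev (nat_lit 720) (nat_lit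
 295147905179889696928) .dd)) (.br (nat_lit 7) (.ch (nat_lit 5) (.ev (nat_lit 720) (nat_lit
 295147905179889696896) (.ev (nat_lit 733) (nat_lit 32) .dd))) (.ch (nat_lit 7) (.ev (nat_lit 720) (nat_lit
 295147905179889696800) (.ev (nat_lit 733) (nat_lit 128) .dd))))) (.br (nat_lit 15) (.ch (nat_lit 14) (.ev
 (nat_lit 720) (nat_lit 295147905179889696896) (.ev (nat_lit 733) (nat_lit 32) .dd))) (.br (nat_lit 20) (.ch
 (nat_lit 15) (.ev (nat_lit 720) (nat_lit 160) (.ev (nat_lit 800) (nat_lit 536870912) (.ev (nat_lit 813)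
 (nat_lit 295147905179352825856) .dd)))) (.ch (nat_lit 20) (.ev (nat_lit 720) (nat_lit 295147905179352826016)
 (.ev (nat_lit 733) (nat_lit 536870912) .dd)))))) (.br (nat_lit 32) (.br (nat_lit 24) (.ch (nat_lit 22) (.ev
 (nat_lit 720) (nat_lit 295147905179889696928) .dd)) (.br (nat_lit 31) (.ch (nat_lit 24) (.ev (nat_lit 720)
 (nat_lit 295147905179889696928) .dd)) (.ch (nat_lit 31) (.ev (nat_lit 720) (nat_lit 536870944) (.fin (nat_lit
 576456904011104812)))))) (.br (nat_lit 39) (.br (nat_lit 36) (.ch (nat_lit 32) (.ev (nat_lit 720) (nat_lit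
 295147905179889696800) (.ev (nat_lit 733) (nat_lit 128) .dd))) (.ch (nat_lit 36) (.ev (nat_lit 720) (nat_lit
 295147905179889696928) .dd))) (.br (nat_lit 41) (.ch (nat_lit 39) (.ev (nat_lit 720) (nat_lit
 295147905179352825888) (.ev (nat_lit 736) (nat_lit 536870912) (.ev (nat_lit 749) (nat_lit 128) .dd)))) (.ch
 (nat_lit 41) (.ev (nat_lit 720) (nat_lit 295147905179889696800) (.ev (nat_lit 733) (nat_lit 128)
 .dd))))))))))))))))))) (.br (nat_lit 42) (.br (nat_lit 36) (.br (nat_lit 35) (.ch (nat_lit 33) (.ev (nat_lit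
 52) (nat_lit 779522434960568877058) (.ev (nat_lit 128) (nat_lit 313595423309801982368) .dd))) (.ch (nat_lit
 35) (.ev (nat_lit 52) (nat_lit 18594945605339973888) (.ev (nat_lit 84) (nat_lit 2147483648) (.ev (nat_lit 116)
 (nat_lit 70368765149344) (.ev (nat_lit 260) (nat_lit 594907496377133039616) (.nd (nat_lit 704) (.br (nat_lit
 22) (.br (nat_lit 8) (.br (nat_lit 5) (.ch (nat_lit 2) (.ev (nat_lit 720) (nat_lit 479615345916985212930)
 .dd)) (.br (nat_lit 7) (.ch (nat_lit 5) (.ev (nat_lit 720) (nat_lit 479615345916985212930) .dd)) (.ch (nat_lit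
 7) (.ev (nat_lit 720) (nat_lit 332041393327308800002) (.ev (nat_lit 733) (nat_lit 147573952589676412928)
 .dd))))) (.br (nat_lit 15) (.br (nat_lit 14) (.ch (nat_lit 8) (.ev (nat_lit 720) (nat_lit
 479615345916985212928) (.ev (nat_lit 733) (nat_lit 2) .dd))) (.ch (nat_lit 14) (.ev (nat_lit 720) (nat_lit
 332041393327308800002) (.ev (nat_lit 733) (nat_lit 147573952589676412928) .dd)))) (.br (nat_lit 16) (.ch
 (nat_lit 15) (.ev (nat_lit 720) (nat_lit 479615345916985212930) .dd)) (.ch (nat_lit 16) (.ev (nat_lit 720)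
 (nat_lit 36893488147955974146) (.ev (nat_lit 788) (nat_lit 147573952589676412928) (.ev (nat_lit 797) (nat_lit
 295147905179352825856) .dd))))))) (.br (nat_lit 29) (.br (nat_lit 26) (.ch (nat_lit 22) (.ev (nat_lit 720)
 (nat_lit 184467440737632387074) (.ev (nat_lit 733) (nat_lit 295147905179352825856) .dd))) (.br (nat_lit 28)
 (.ch (nat_lit 26) (.ev (nat_lit 720) (nat_lit 479615345916985212928) (.ev (nat_lit 733) (nat_lit 2) .dd)))
 (.ch (nat_lit 28) (.ev (nat_lit 720) (nat_lit 479615345916448342018) (.ev (nat_lit 733) (nat_lit 536870912)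
 .dd))))) (.br (nat_lit 36) (.br (nat_lit 33) (.ch (nat_lit 29) (.ev (nat_lit 720) (nat_lit
 442721857769029238786) (.ev (nat_lit 912) (nat_lit 36893488147419103232) (.ev (nat_lit 925) (nat_lit
 536870912) .dd)))) (.ch (nat_lit 33) (.ev (nat_lit 720) (nat_lit 332041393327308800002) (.ev (nat_lit 733)
 (nat_lit 147573952589676412928) .dd)))) (.br (nat_lit 38) (.ch (nat_lit 36) (.ev (nat_lit 720) (nat_lit
 332041393326771929088) (.ev (nat_lit 788) (nat_lit 147573952589676412928) (.ev (nat_lit 912) (nat_lit 2) (.ev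
 (nat_lit 925) (nat_lit 536870912) .dd))))) (.ch (nat_lit 38) (.ev (nat_lit 720) (nat_lit
 147573952590213283840) (.ev (nat_lit 896) (nat_lit 332041393326771929088) (.ev (nat_lit 909) (nat_lit 2)
 .dd))))))))))))))) (.br (nat_lit 38) (.ch (nat_lit 36) (.ev (nat_lit 52) (nat_lit 313596905453623705762) (.ev
 (nat_lit 84) (nat_lit 36893488147419103232) (.ev (nat_lit 116) (nat_lit 147573952589676412928) (.ev (nat_lit
 180) (nat_lit 256) (.ev (nat_lit 608) (nat_lit 140737488355328) (.nd (nat_lit 704) (.br (nat_lit 8) (.br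
 (nat_lit 5) (.br (nat_lit 2) (.ch (nat_lit 1) (.ev (nat_lit 720) (nat_lit 594909256154083231744) (.ev (nat_lit
 788) (nat_lit 4194304) (.ev (nat_lit 797) (nat_lit 144115188075855872) .dd)))) (.ch (nat_lit 2) (.ev (nat_lit
 720) (nat_lit 595052175073512259584) (.ev (nat_lit 788) (nat_lit 70368744177664) (.ev (nat_lit 800) (nat_lit
 2048) (.ev (nat_lit 813) (nat_lit 1125899906842624) .dd)))))) (.br (nat_lit 7) (.ch (nat_lit 5) (.ev (nat_lit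
 720) (nat_lit 4757560983457630208) (.ev (nat_lit 733) (nat_lit 590295810358705651712) .dd))) (.ch (nat_lit 7)
 (.ev (nat_lit 720) (nat_lit 4757560983453435904) (.ev (nat_lit 788) (nat_lit 4194304) (.ev (nat_lit 797)
 (nat_lit 590295810358705651712) .dd)))))) (.br (nat_lit 24) (.br (nat_lit 14) (.ch (nat_lit 8) (.ev (nat_lit
 720) (nat_lit 595051682492303017984) (.ev (nat_lit 788) (nat_lit 1125899906842624) (.ev (nat_lit 797) (nat_lit
 562949953421312) .dd)))) (.ch (nat_lit 14) (.ev (nat_lit 720) (nat_lit 144185565409970176) (.ev (nat_lit 788)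
 (nat_lit 590296373308659073024) (.ev (nat_lit 800) (nat_lit 4612811918334230528) (.ev (nat_lit 816) (nat_lit
 4194304) (.ev (nat_lit 829) (nat_lit 549755813888) .dd))))))) (.br (nat_lit 32) (.ch (nat_lit 24) (.ev
 (nat_lit 720) (nat_lit 590440559423829051392) (.ev (nat_lit 788) (nat_lit 1125899906842624) (.ev (nat_lit 797)
 (nat_lit 4611686018427387904) .dd)))) (.br (nat_lit 38) (.ch (nat_lit 32) (.ev (nat_lit 720) (nat_lit
 595053371333569153024) (.ev (nat_lit 816) (nat_lit 4194304) (.ev (nat_lit 829) (nat_lit 8589934592) .dd))))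
 (.ch (nat_lit 38) (.ev (nat_lit 720) (nat_lit 595052738023465682944) (.ev (nat_lit 788) (nat_lit
 70368744177664) (.ev (nat_lit 797) (nat_lit 562949953421312) .dd))))))))))))))) (.ch (nat_lit 38) (.ev
 (nat_lit 52) (nat_lit 461168747528583120896) (.ev (nat_lit 64) (nat_lit 631949110741787738530) .dd))))) (.br
 (nat_lit 45) (.br (nat_lit 44) (.ch (nat_lit 42) (.ev (nat_lit 52) (nat_lit 355103905364953794592) (.ev
 (nat_lit 84) (nat_lit 128) (.ev (nat_lit 116) (nat_lit 16777472) (.ev (nat_lit 148) (nat_lit 70368744177664)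
 (.ev (nat_lit 180) (nat_lit 147718067777752268800) (.ev (nat_lit 212) (nat_lit 4398046511104) (.nd (nat_lit
 704) (.br (nat_lit 24) (.br (nat_lit 16) (.br (nat_lit 10) (.ch (nat_lit 8) (.ev (nat_lit 720) (nat_lit
 590295810360857329666) .dd)) (.br (nat_lit 14) (.ch (nat_lit 10) (.ev (nat_lit 720) (nat_lit
 590295810360857329666) .dd)) (.ch (nat_lit 14) (.ev (nat_lit 720) (nat_lit 590295810360857329666) .dd)))) (.br
 (nat_lit 18) (.ch (nat_lit 16) (.ev (nat_lit 720) (nat_lit 4194306) (.ev (nat_lit 816) (nat_lit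
 590295810358705651712) (.ev (nat_lit 829) (nat_lit 2147483648) .dd)))) (.br (nat_lit 20) (.ch (nat_lit 18)
 (.ev (nat_lit 720) (nat_lit 590295810360857329666) .dd)) (.ch (nat_lit 20) (.ev (nat_lit 720) (nat_lit
 2151677954) (.ev (nat_lit 733) (nat_lit 590295810358705651712) .dd)))))) (.br (nat_lit 33) (.br (nat_lit 26)
 (.ch (nat_lit 24) (.ev (nat_lit 720) (nat_lit 590295810358709846018) (.ev (nat_lit 733) (nat_lit 2147483648)
 .dd))) (.br (nat_lit 28) (.ch (nat_lit 26) (.ev (nat_lit 720) (nat_lit 590295810360857329664) (.ev (nat_lit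
 733) (nat_lit 2) .dd))) (.ch (nat_lit 28) (.ev (nat_lit 720) (nat_lit 590295810360853135362) (.ev (nat_lit
 733) (nat_lit 4194304) .dd))))) (.br (nat_lit 39) (.br (nat_lit 36) (.ch (nat_lit 33) (.ev (nat_lit 720)
 (nat_lit 590295810360853135362) (.ev (nat_lit 733) (nat_lit 4194304) .dd))) (.ch (nat_lit 36) (.ev (nat_lit
 720) (nat_lit 590295810360857329664) (.ev (nat_lit 733) (nat_lit 2) .dd)))) (.br (nat_lit 41) (.ch (nat_lit
 39) (.ev (nat_lit 720) (nat_lit 590295810360853135362) (.ev (nat_lit 733) (nat_lit 4194304) .dd))) (.ch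
 (nat_lit 41) (.ev (nat_lit 720) (nat_lit 590295810360857329666) .dd)))))))))))))) (.ch (nat_lit 44) (.ev
 (nat_lit 52) (nat_lit 631945104662577809568) (.ev (nat_lit 84) (nat_lit 18448995882113171456) (.ev (nat_lit
 116) (nat_lit 295147905179352825856) (.ev (nat_lit 148) (nat_lit 1266637395197952) (.ev (nat_lit 180) (nat_lit
 147573952589676412928) (.ev (nat_lit 212) (nat_lit 562949957615618) (.ev (nat_lit 260) (nat_lit 256) (.nd
 (nat_lit 704) (.br (nat_lit 16) (.br (nat_lit 5) (.br (nat_lit 2) (.ch (nat_lit 1) (.ev (nat_lit 720) (nat_lit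
 70368744177664) (.ev (nat_lit 788) (nat_lit 536870912) (.ev (nat_lit 797) (nat_lit 16777216) .dd)))) (.ch
 (nat_lit 2) (.ev (nat_lit 720) (nat_lit 553648128) (.ev (nat_lit 733) (nat_lit 70368744177664) .dd)))) (.br
 (nat_lit 15) (.ch (nat_lit 5) (.ev (nat_lit 720) (nat_lit 553648128) (.ev (nat_lit 733) (nat_lit
 70368744177664) .dd))) (.ch (nat_lit 15) (.ev (nat_lit 720) (nat_lit 70369281048576) (.ev (nat_lit 733)
 (nat_lit 16777216) .dd))))) (.br (nat_lit 20) (.br (nat_lit 18) (.ch (nat_lit 16) (.ev (nat_lit 720) (nat_lit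
 70369281048576) (.ev (nat_lit 733) (nat_lit 16777216) .dd))) (.ch (nat_lit 18) (.ev (nat_lit 720) (nat_lit
 70369297825792) .dd))) (.br (nat_lit 29) (.ch (nat_lit 20) (.ev (nat_lit 720) (nat_lit 70369297825792) .dd))
 (.br (nat_lit 41) (.ch (nat_lit 29) (.ev (nat_lit 720) (nat_lit 553648128) (.ev (nat_lit 733) (nat_lit
 70368744177664) .dd))) (.ch (nat_lit 41) (.ev (nat_lit 720) (nat_lit 70369281048576) (.ev (nat_lit 733)
 (nat_lit 16777216) .dd))))))))))))))))) (.br (nat_lit 46) (.ch (nat_lit 45) (.ev (nat_lit 52) (nat_lit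
 903891238074607206784) (.ev (nat_lit 84) (nat_lit 4755801756259059744) (.ev (nat_lit 116) (nat_lit 2) (.ev
 (nat_lit 180) (nat_lit 536870912) (.ev (nat_lit 212) (nat_lit 147573952589680607232) (.nd (nat_lit 704) (.br
 (nat_lit 26) (.br (nat_lit 7) (.br (nat_lit 4) (.ch (nat_lit 2) (.ev (nat_lit 720) (nat_lit
 36895739949380272128) (.ev (nat_lit 733) (nat_lit 1125899906842624) .dd))) (.ch (nat_lit 4) (.ev (nat_lit 720)
 (nat_lit 1125902054326272) (.ev (nat_lit 752) (nat_lit 2251799813685248) (.ev (nat_lit 765) (nat_lit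
 36893488147419103232) .dd))))) (.br (nat_lit 10) (.ch (nat_lit 7) (.ev (nat_lit 720) (nat_lit
 36896865849287114752) .dd)) (.br (nat_lit 16) (.ch (nat_lit 10) (.ev (nat_lit 720) (nat_lit
 36896865849287114752) .dd)) (.ch (nat_lit 16) (.ev (nat_lit 720) (nat_lit 36895739949380272128) (.ev (nat_lit
 733) (nat_lit 1125899906842624) .dd)))))) (.br (nat_lit 33) (.br (nat_lit 29) (.ch (nat_lit 26) (.ev (nat_lit
 720) (nat_lit 36896865849287114752) .dd)) (.br (nat_lit 32) (.ch (nat_lit 29) (.ev (nat_lit 720) (nat_lit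
 36896865849287114752) .dd)) (.ch (nat_lit 32) (.ev (nat_lit 720) (nat_lit 36896865849287114752) .dd)))) (.br
 (nat_lit 36) (.ch (nat_lit 33) (.ev (nat_lit 720) (nat_lit 36896865849287114752) .dd)) (.br (nat_lit 41) (.ch
 (nat_lit 36) (.ev (nat_lit 720) (nat_lit 36895739947232788480) (.ev (nat_lit 788) (nat_lit 2147483648) (.ev
 (nat_lit 797) (nat_lit 1125899906842624) .dd)))) (.ch (nat_lit 41) (.ev (nat_lit 720) (nat_lit
 1125899906842624) (.ev (nat_lit 788) (nat_lit 36895739947232788480) (.ev (nat_lit 797) (nat_lit 2147483648)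
 .dd))))))))))))))) (.ch (nat_lit 46) (.ev (nat_lit 52) (nat_lit 479763401763324954656) (.ev (nat_lit 96)
 (nat_lit 613354456507045904770) .dd))))))))))

/-- Subtrie. -/
noncomputable def T6 : Tr := (.ev (nat_lit 20) (nat_lit 2084673795585462765746) (.nd (nat_lit 33) (.br (nat_lit
 25) (.br (nat_lit 14) (.br (nat_lit 5) (.br (nat_lit 2) (.ch (nat_lit 1) (.ev (nat_lit 52) (nat_lit
 147592178369849987080) (.ev (nat_lit 116) (nat_lit 4611686018427387904) (.ev (nat_lit 148) (nat_lit 65536)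
 (.ev (nat_lit 212) (nat_lit 36894614047325945856) (.ev (nat_lit 260) (nat_lit 549755813888) (.nd (nat_lit 704)
 (.br (nat_lit 27) (.br (nat_lit 6) (.br (nat_lit 1) (.ch (nat_lit 0) (.ev (nat_lit 720) (nat_lit
 288793412004479232) (.ev (nat_lit 733) (nat_lit 32768) .dd))) (.br (nat_lit 3) (.ch (nat_lit 1) (.ev (nat_lit
 720) (nat_lit 288230462051090432) (.ev (nat_lit 752) (nat_lit 562949953421312) (.ev (nat_lit 765) (nat_lit
 256) .dd)))) (.ch (nat_lit 3) (.ev (nat_lit 720) (nat_lit 288793412004511744) (.ev (nat_lit 733) (nat_lit 256)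
 .dd))))) (.br (nat_lit 8) (.ch (nat_lit 6) (.ev (nat_lit 720) (nat_lit 288230444871221248) (.ev (nat_lit 788)
 (nat_lit 256) (.ev (nat_lit 816) (nat_lit 562949953421312) (.ev (nat_lit 829) (nat_lit 17179869184) .dd)))))
 (.br (nat_lit 17) (.ch (nat_lit 8) (.ev (nat_lit 720) (nat_lit 288793412004512000) .dd)) (.ch (nat_lit 17)
 (.ev (nat_lit 720) (nat_lit 288793326105166080) (.ev (nat_lit 788) (nat_lit 68719476736) (.ev (nat_lit 797)
 (nat_lit 17179869184) .dd))))))) (.br (nat_lit 34) (.br (nat_lit 29) (.ch (nat_lit 27) (.ev (nat_lit 720)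
 (nat_lit 288793343285035264) (.ev (nat_lit 733) (nat_lit 68719476736) .dd))) (.br (nat_lit 30) (.ch (nat_lit
 29) (.ev (nat_lit 720) (nat_lit 288793412004512000) .dd)) (.ch (nat_lit 30) (.ev (nat_lit 720) (nat_lit
 563035852800256) (.ev (nat_lit 733) (nat_lit 288230376151711744) .dd))))) (.br (nat_lit 40) (.br (nat_lit 38)
 (.ch (nat_lit 34) (.ev (nat_lit 720) (nat_lit 288793412004512000) .dd)) (.ch (nat_lit 38) (.ev (nat_lit 720)
 (nat_lit 288793394824642816) (.ev (nat_lit 733) (nat_lit 17179869184) .dd)))) (.br (nat_lit 41) (.ch (nat_lit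
 40) (.ev (nat_lit 720) (nat_lit 288793412004512000) .dd)) (.ch (nat_lit 41) (.ev (nat_lit 720) (nat_lit
 288230462051090432) (.ev (nat_lit 800) (nat_lit 562949953421312) (.ev (nat_lit 813) (nat_lit 256)
 .dd))))))))))))))) (.br (nat_lit 3) (.ch (nat_lit 2) (.ev (nat_lit 52) (nat_lit 307934517874659328) (.ev
 (nat_lit 84) (nat_lit 147573952589676412928) (.ev (nat_lit 116) (nat_lit 32768) (.ev (nat_lit 128) (nat_lit
 41505385289812607240) .dd))))) (.ch (nat_lit 3) (.ev (nat_lit 52) (nat_lit 189098830347490066696) (.ev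
 (nat_lit 116) (nat_lit 549755813888) (.ev (nat_lit 148) (nat_lit 140737488355328) (.ev (nat_lit 212) (nat_lit
 536870912) (.nd (nat_lit 704) (.br (nat_lit 20) (.br (nat_lit 8) (.br (nat_lit 2) (.ch (nat_lit 1) (.ev
 (nat_lit 720) (nat_lit 288300744912732160) (.ev (nat_lit 788) (nat_lit 4096) (.ev (nat_lit 797) (nat_lit
 17179869184) .dd)))) (.br (nat_lit 6) (.ch (nat_lit 2) (.ev (nat_lit 720) (nat_lit 288300762075828224) (.ev
 (nat_lit 733) (nat_lit 16777216) .dd))) (.ch (nat_lit 6) (.ev (nat_lit 720) (nat_lit 288300762092605440)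
 .dd)))) (.br (nat_lit 9) (.ch (nat_lit 8) (.ev (nat_lit 720) (nat_lit 288300762092605440) .dd)) (.br (nat_lit
 10) (.ch (nat_lit 9) (.ev (nat_lit 720) (nat_lit 288300744912670720) (.ev (nat_lit 788) (nat_lit 17179869184)
 (.ev (nat_lit 797) (nat_lit 65536) .dd)))) (.ch (nat_lit 10) (.ev (nat_lit 720) (nat_lit 288300744912732160)
 (.ev (nat_lit 800) (nat_lit 4096) (.ev (nat_lit 813) (nat_lit 17179869184) .dd))))))) (.br (nat_lit 30) (.br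
 (nat_lit 27) (.ch (nat_lit 20) (.ev (nat_lit 720) (nat_lit 70385924116480) (.ev (nat_lit 788) (nat_lit
 288230376151711744) (.ev (nat_lit 797) (nat_lit 16777216) .dd)))) (.br (nat_lit 28) (.ch (nat_lit 27) (.ev
 (nat_lit 720) (nat_lit 70385940893696) (.ev (nat_lit 733) (nat_lit 288230376151711744) .dd))) (.ch (nat_lit
 28) (.ev (nat_lit 720) (nat_lit 288230393348362240) (.ev (nat_lit 788) (nat_lit 65536) (.ev (nat_lit 797)
 (nat_lit 70368744177664) .dd)))))) (.br (nat_lit 38) (.br (nat_lit 34) (.ch (nat_lit 30) (.ev (nat_lit 720)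
 (nat_lit 288300744912732160) (.ev (nat_lit 816) (nat_lit 4096) (.ev (nat_lit 829) (nat_lit 17179869184)
 .dd)))) (.ch (nat_lit 34) (.ev (nat_lit 720) (nat_lit 288300762092605440) .dd))) (.br (nat_lit 40) (.ch
 (nat_lit 38) (.ev (nat_lit 720) (nat_lit 288300762092605440) .dd)) (.ch (nat_lit 40) (.ev (nat_lit 720)
 (nat_lit 288300762092605440) .dd)))))))))))))) (.br (nat_lit 11) (.br (nat_lit 9) (.ch (nat_lit 5) (.ev
 (nat_lit 52) (nat_lit 147574022958437372168) (.ev (nat_lit 84) (nat_lit 288230943087394816) (.ev (nat_lit 116)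
 (nat_lit 32768) (.ev (nat_lit 148) (nat_lit 1125899906908160) (.ev (nat_lit 212) (nat_lit 140737488355328)
 (.ev (nat_lit 308) (nat_lit 36893488147419103232) (.nd (nat_lit 704) (.br (nat_lit 22) (.br (nat_lit 9) (.br
 (nat_lit 1) (.ch (nat_lit 0) (.ev (nat_lit 720) (nat_lit 4630263711024545792) .dd)) (.br (nat_lit 2) (.ch
 (nat_lit 1) (.ev (nat_lit 720) (nat_lit 4629700761071124480) (.ev (nat_lit 733) (nat_lit 562949953421312)
 .dd))) (.ch (nat_lit 2) (.ev (nat_lit 720) (nat_lit 4629700692351647744) (.ev (nat_lit 880) (nat_lit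
 68719476736) (.ev (nat_lit 893) (nat_lit 562949953421312) .dd)))))) (.br (nat_lit 13) (.br (nat_lit 10) (.ch
 (nat_lit 9) (.ev (nat_lit 720) (nat_lit 4630263436146638848) (.ev (nat_lit 733) (nat_lit 274877906944) .dd)))
 (.ch (nat_lit 10) (.ev (nat_lit 720) (nat_lit 4630263710487674880) (.ev (nat_lit 733) (nat_lit 536870912)
 .dd)))) (.br (nat_lit 20) (.ch (nat_lit 13) (.ev (nat_lit 720) (nat_lit 4630263436146638848) (.ev (nat_lit
 733) (nat_lit 274877906944) .dd))) (.ch (nat_lit 20) (.ev (nat_lit 720) (nat_lit 4630263711024545792) .dd)))))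
 (.br (nat_lit 28) (.br (nat_lit 26) (.ch (nat_lit 22) (.ev (nat_lit 720) (nat_lit 4630263711024545792) .dd))
 (.br (nat_lit 27) (.ch (nat_lit 26) (.ev (nat_lit 720) (nat_lit 4612249312515063808) (.ev (nat_lit 733)
 (nat_lit 18014398509481984) .dd))) (.ch (nat_lit 27) (.ev (nat_lit 720) (nat_lit 18577623340810240) (.ev
 (nat_lit 800) (nat_lit 4611686018427387904) (.ev (nat_lit 832) (nat_lit 536870912) (.ev (nat_lit 845) (nat_lit
 68719476736) .dd))))))) (.br (nat_lit 40) (.br (nat_lit 31) (.ch (nat_lit 28) (.ev (nat_lit 720) (nat_lit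
 4630263642305069056) (.ev (nat_lit 733) (nat_lit 68719476736) .dd))) (.ch (nat_lit 31) (.ev (nat_lit 720)
 (nat_lit 4612249037637156864) (.ev (nat_lit 736) (nat_lit 18014398509481984) (.ev (nat_lit 749) (nat_lit
 274877906944) .dd))))) (.br (nat_lit 41) (.ch (nat_lit 40) (.ev (nat_lit 720) (nat_lit 4630263711024545792)
 .dd)) (.ch (nat_lit 41) (.ev (nat_lit 720) (nat_lit 4612249311978192896) (.ev (nat_lit 800) (nat_lit
 536870912) (.ev (nat_lit 813) (nat_lit 18014398509481984) .dd)))))))))))))))) (.ch (nat_lit 9) (.ev (nat_lit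
 52) (nat_lit 37182844424031310080) (.ev (nat_lit 84) (nat_lit 4629700416936902656) (.ev (nat_lit 116) (nat_lit
 70368744177664) (.ev (nat_lit 148) (nat_lit 68719476736) (.nd (nat_lit 704) (.br (nat_lit 28) (.br (nat_lit 5)
 (.br (nat_lit 2) (.ch (nat_lit 1) (.ev (nat_lit 720) (nat_lit 147574094151798554632) (.ev (nat_lit 788)
 (nat_lit 17179869184) (.ev (nat_lit 797) (nat_lit 562949953421312) .dd)))) (.ch (nat_lit 2) (.ev (nat_lit 720)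
 (nat_lit 147574656844053938184) (.ev (nat_lit 733) (nat_lit 274877906944) .dd)))) (.br (nat_lit 26) (.ch
 (nat_lit 5) (.ev (nat_lit 720) (nat_lit 147573953431490068488) (.ev (nat_lit 800) (nat_lit 703687441776640)
 .dd))) (.ch (nat_lit 26) (.ev (nat_lit 720) (nat_lit 147574656569175965696) (.ev (nat_lit 788) (nat_lit 8)
 (.ev (nat_lit 816) (nat_lit 549755879424) .dd)))))) (.br (nat_lit 31) (.br (nat_lit 30) (.ch (nat_lit 28) (.ev
 (nat_lit 720) (nat_lit 704529255366664) (.ev (nat_lit 800) (nat_lit 65536) (.ev (nat_lit 813) (nat_lit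
 147573952589676412928) .dd)))) (.ch (nat_lit 30) (.ev (nat_lit 720) (nat_lit 147574657101751910408) (.ev
 (nat_lit 788) (nat_lit 17179869184) (.ev (nat_lit 797) (nat_lit 65536) .dd))))) (.br (nat_lit 34) (.ch
 (nat_lit 31) (.ev (nat_lit 720) (nat_lit 147574657118931779592) (.ev (nat_lit 733) (nat_lit 65536) .dd))) (.br
 (nat_lit 41) (.ch (nat_lit 34) (.ev (nat_lit 720) (nat_lit 147574656844053938184) (.ev (nat_lit 733) (nat_lit
 274877906944) .dd))) (.ch (nat_lit 41) (.ev (nat_lit 720) (nat_lit 147574656844053938176) (.ev (nat_lit 788)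
 (nat_lit 274877906944) (.ev (nat_lit 797) (nat_lit 8) .dd))))))))))))))) (.br (nat_lit 12) (.ch (nat_lit 11)
 (.ev (nat_lit 52) (nat_lit 189099041402719830016) (.ev (nat_lit 84) (nat_lit 4096) (.ev (nat_lit 148) (nat_lit
 549755813888) (.ev (nat_lit 308) (nat_lit 256) (.ev (nat_lit 544) (nat_lit 8) (.nd (nat_lit 704) (.br (nat_lit
 24) (.br (nat_lit 5) (.br (nat_lit 3) (.ch (nat_lit 1) (.ev (nat_lit 720) (nat_lit 288230444888064000) .dd))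
 (.ch (nat_lit 3) (.ev (nat_lit 720) (nat_lit 288230444888064000) .dd))) (.br (nat_lit 9) (.ch (nat_lit 5) (.ev
 (nat_lit 720) (nat_lit 288230376168587264) (.ev (nat_lit 733) (nat_lit 68719476736) .dd))) (.br (nat_lit 20)
 (.ch (nat_lit 9) (.ev (nat_lit 720) (nat_lit 288230376168521728) (.ev (nat_lit 800) (nat_lit 68719542272)
 .dd))) (.ch (nat_lit 20) (.ev (nat_lit 720) (nat_lit 288230444871286784) (.ev (nat_lit 733) (nat_lit 16777216)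
 .dd)))))) (.br (nat_lit 29) (.br (nat_lit 26) (.ch (nat_lit 24) (.ev (nat_lit 720) (nat_lit
 288230444888064000) .dd)) (.br (nat_lit 27) (.ch (nat_lit 26) (.ev (nat_lit 720) (nat_lit 288230444887998464)
 (.ev (nat_lit 733) (nat_lit 65536) .dd))) (.ch (nat_lit 27) (.ev (nat_lit 720) (nat_lit 16875520) (.ev
 (nat_lit 736) (nat_lit 68719476736) (.ev (nat_lit 749) (nat_lit 288230376151711744) .dd)))))) (.br (nat_lit
 38) (.ch (nat_lit 29) (.ev (nat_lit 720) (nat_lit 68719542272) (.ev (nat_lit 788) (nat_lit 288230376151744512)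
 (.ev (nat_lit 797) (nat_lit 16777216) .dd)))) (.br (nat_lit 40) (.ch (nat_lit 38) (.ev (nat_lit 720) (nat_lit
 288230444888064000) .dd)) (.ch (nat_lit 40) (.ev (nat_lit 720) (nat_lit 288230444887998464) (.ev (nat_lit 733)
 (nat_lit 65536) .dd)))))))))))))) (.ch (nat_lit 12) (.ev (nat_lit 52) (nat_lit 289568206941585664) (.ev
 (nat_lit 84) (nat_lit 68719542272) (.ev (nat_lit 116) (nat_lit 32768) (.ev (nat_lit 148) (nat_lit
 562949953421312) (.ev (nat_lit 192) (nat_lit 189097141171749130248) .dd))))))))) (.br (nat_lit 19) (.br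
 (nat_lit 16) (.br (nat_lit 15) (.ch (nat_lit 14) (.ev (nat_lit 52) (nat_lit 4613023110466175240) (.ev (nat_lit
 84) (nat_lit 306807724631392256) (.ev (nat_lit 148) (nat_lit 536903680) (.ev (nat_lit 340) (nat_lit
 36893488147419103232) (.nd (nat_lit 704) (.br (nat_lit 24) (.br (nat_lit 10) (.br (nat_lit 1) (.ch (nat_lit 0)
 (.ev (nat_lit 720) (nat_lit 147573952589676417024) (.ev (nat_lit 752) (nat_lit 549755813888) (.ev (nat_lit
 765) (nat_lit 274877906944) .dd)))) (.br (nat_lit 3) (.ch (nat_lit 1) (.ev (nat_lit 720) (nat_lit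
 147573953414310133760) (.ev (nat_lit 733) (nat_lit 4096) .dd))) (.ch (nat_lit 3) (.ev (nat_lit 720) (nat_lit
 147573952864554323968) (.ev (nat_lit 733) (nat_lit 549755813888) .dd))))) (.br (nat_lit 13) (.br (nat_lit 12)
 (.ch (nat_lit 10) (.ev (nat_lit 720) (nat_lit 147573952864554323968) (.ev (nat_lit 733) (nat_lit 549755813888)
 .dd))) (.ch (nat_lit 12) (.ev (nat_lit 720) (nat_lit 147573952864554323968) (.ev (nat_lit 733) (nat_lit
 549755813888) .dd)))) (.br (nat_lit 17) (.ch (nat_lit 13) (.ev (nat_lit 720) (nat_lit 147573953139432230912)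
 (.ev (nat_lit 733) (nat_lit 274877906944) .dd))) (.ch (nat_lit 17) (.ev (nat_lit 720) (nat_lit
 147573953139432226816) (.ev (nat_lit 832) (nat_lit 274877906944) (.ev (nat_lit 845) (nat_lit 4096) .dd)))))))
 (.br (nat_lit 31) (.br (nat_lit 28) (.ch (nat_lit 24) (.ev (nat_lit 720) (nat_lit 274877911040) (.ev (nat_lit
 880) (nat_lit 549755813888) (.ev (nat_lit 893) (nat_lit 147573952589676412928) .dd)))) (.br (nat_lit 29) (.ch
 (nat_lit 28) (.ev (nat_lit 720) (nat_lit 147573952864554323968) (.ev (nat_lit 733) (nat_lit 549755813888)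
 .dd))) (.ch (nat_lit 29) (.ev (nat_lit 720) (nat_lit 147573953139432230912) (.ev (nat_lit 733) (nat_lit
 274877906944) .dd))))) (.br (nat_lit 40) (.br (nat_lit 38) (.ch (nat_lit 31) (.ev (nat_lit 720) (nat_lit
 147573953139432230912) (.ev (nat_lit 733) (nat_lit 274877906944) .dd))) (.ch (nat_lit 38) (.ev (nat_lit 720)
 (nat_lit 147573953139432230912) (.ev (nat_lit 733) (nat_lit 274877906944) .dd)))) (.br (nat_lit 41) (.ch
 (nat_lit 40) (.ev (nat_lit 720) (nat_lit 824633724928) (.ev (nat_lit 733) (nat_lit 147573952589676412928)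
 .dd))) (.ch (nat_lit 41) (.ev (nat_lit 720) (nat_lit 147573952589676417024) (.ev (nat_lit 752) (nat_lit
 274877906944) (.ev (nat_lit 765) (nat_lit 549755813888) .dd)))))))))))))) (.ch (nat_lit 15) (.ev (nat_lit 52)
 (nat_lit 4612952725095714816) (.ev (nat_lit 84) (nat_lit 562967133356032) (.ev (nat_lit 116) (nat_lit
 288230376151711744) (.ev (nat_lit 148) (nat_lit 147573952589676412928) (.ev (nat_lit 180) (nat_lit
 36911502545928585480) (.ev (nat_lit 340) (nat_lit 70368744177664) (.nd (nat_lit 704) (.br (nat_lit 13) (.br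
 (nat_lit 9) (.br (nat_lit 5) (.ch (nat_lit 1) (.ev (nat_lit 720) (nat_lit 824633753600) .dd)) (.br (nat_lit 8)
 (.ch (nat_lit 5) (.ev (nat_lit 720) (nat_lit 549755846656) (.ev (nat_lit 733) (nat_lit 274877906944) .dd)))
 (.ch (nat_lit 8) (.ev (nat_lit 720) (nat_lit 824633753600) .dd)))) (.br (nat_lit 10) (.ch (nat_lit 9) (.ev
 (nat_lit 720) (nat_lit 549755846656) (.ev (nat_lit 733) (nat_lit 274877906944) .dd))) (.br (nat_lit 12) (.ch
 (nat_lit 10) (.ev (nat_lit 720) (nat_lit 824633753600) .dd)) (.ch (nat_lit 12) (.ev (nat_lit 720) (nat_lit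
 32768) (.ev (nat_lit 788) (nat_lit 549755813888) (.ev (nat_lit 797) (nat_lit 274877906944) .dd))))))) (.br
 (nat_lit 26) (.br (nat_lit 20) (.ch (nat_lit 13) (.ev (nat_lit 720) (nat_lit 32768) (.ev (nat_lit 788)
 (nat_lit 274877906944) (.ev (nat_lit 797) (nat_lit 549755813888) .dd)))) (.br (nat_lit 22) (.ch (nat_lit 20)
 (.ev (nat_lit 720) (nat_lit 824633753600) .dd)) (.ch (nat_lit 22) (.ev (nat_lit 720) (nat_lit 824633753600)
 .dd)))) (.br (nat_lit 31) (.br (nat_lit 28) (.ch (nat_lit 26) (.ev (nat_lit 720) (nat_lit 824633753600) .dd))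
 (.ch (nat_lit 28) (.ev (nat_lit 720) (nat_lit 824633753600) .dd))) (.br (nat_lit 34) (.ch (nat_lit 31) (.ev
 (nat_lit 720) (nat_lit 549755813888) (.ev (nat_lit 788) (nat_lit 32768) (.ev (nat_lit 797) (nat_lit
 274877906944) .dd)))) (.ch (nat_lit 34) (.ev (nat_lit 720) (nat_lit 824633753600) .dd))))))))))))))) (.br
 (nat_lit 18) (.ch (nat_lit 16) (.ev (nat_lit 52) (nat_lit 189079338412048154880) (.ev (nat_lit 84) (nat_lit
 16777224) (.ev (nat_lit 148) (nat_lit 18577348462907392) (.ev (nat_lit 260) (nat_lit 274877906944) (.nd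
 (nat_lit 704) (.br (nat_lit 17) (.br (nat_lit 5) (.br (nat_lit 2) (.ch (nat_lit 1) (.ev (nat_lit 720) (nat_lit
 289356361957965824) .dd)) (.br (nat_lit 3) (.ch (nat_lit 2) (.ev (nat_lit 720) (nat_lit 289356361957965824)
 .dd)) (.ch (nat_lit 3) (.ev (nat_lit 720) (nat_lit 289356293238489088) (.ev (nat_lit 733) (nat_lit
 68719476736) .dd))))) (.br (nat_lit 10) (.br (nat_lit 9) (.ch (nat_lit 5) (.ev (nat_lit 720) (nat_lit
 289356361957900288) (.ev (nat_lit 733) (nat_lit 65536) .dd))) (.ch (nat_lit 9) (.ev (nat_lit 720) (nat_lit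
 289356293238489088) (.ev (nat_lit 733) (nat_lit 68719476736) .dd)))) (.br (nat_lit 13) (.ch (nat_lit 10) (.ev
 (nat_lit 720) (nat_lit 288230444871254016) (.ev (nat_lit 912) (nat_lit 1125899906842624) (.ev (nat_lit 925)
 (nat_lit 17179869184) .dd)))) (.ch (nat_lit 13) (.ev (nat_lit 720) (nat_lit 17179934720) (.ev (nat_lit 768)
 (nat_lit 68719476736) (.ev (nat_lit 848) (nat_lit 288230376151711744) (.ev (nat_lit 861) (nat_lit
 1125899906842624) .dd)))))))) (.br (nat_lit 24) (.br (nat_lit 20) (.ch (nat_lit 17) (.ev (nat_lit 720)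
 (nat_lit 289356361957900288) (.ev (nat_lit 733) (nat_lit 65536) .dd))) (.br (nat_lit 22) (.ch (nat_lit 20)
 (.ev (nat_lit 720) (nat_lit 1125985806188544) (.ev (nat_lit 788) (nat_lit 65536) (.ev (nat_lit 797) (nat_lit
 288230376151711744) .dd)))) (.ch (nat_lit 22) (.ev (nat_lit 720) (nat_lit 1125985806254080) (.ev (nat_lit 733)
 (nat_lit 288230376151711744) .dd))))) (.br (nat_lit 40) (.br (nat_lit 34) (.ch (nat_lit 24) (.ev (nat_lit 720)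
 (nat_lit 289356344778096640) (.ev (nat_lit 733) (nat_lit 17179869184) .dd))) (.ch (nat_lit 34) (.ev (nat_lit
 720) (nat_lit 289356361957965824) .dd))) (.br (nat_lit 41) (.ch (nat_lit 40) (.ev (nat_lit 720) (nat_lit
 289356361957900288) (.ev (nat_lit 733) (nat_lit 65536) .dd))) (.ch (nat_lit 41) (.ev (nat_lit 720) (nat_lit
 1125899906842624) (.ev (nat_lit 788) (nat_lit 65536) (.ev (nat_lit 832) (nat_lit 288230376151711744) (.ev
 (nat_lit 896) (nat_lit 68719476736) (.ev (nat_lit 909) (nat_lit 17179869184) .dd)))))))))))))))) (.ch (nat_lit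
 18) (.ev (nat_lit 52) (nat_lit 147880338926459752448) (.ev (nat_lit 84) (nat_lit 17179869184) (.ev (nat_lit
 116) (nat_lit 36893488147419103232) (.ev (nat_lit 180) (nat_lit 70368744177664) (.ev (nat_lit 308) (nat_lit
 1125900443713536) (.ev (nat_lit 340) (nat_lit 256) (.ev (nat_lit 432) (nat_lit 68719476736) (.nd (nat_lit 704)
 (.br (nat_lit 13) (.br (nat_lit 6) (.br (nat_lit 3) (.ch (nat_lit 2) (.ev (nat_lit 720) (nat_lit
 4611686018444165128) (.ev (nat_lit 788) (nat_lit 32768) (.ev (nat_lit 797) (nat_lit 562949953421312) .dd))))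
 (.ch (nat_lit 3) (.ev (nat_lit 720) (nat_lit 562949970231296) (.ev (nat_lit 788) (nat_lit 8) (.ev (nat_lit
 797) (nat_lit 4611686018427387904) .dd))))) (.br (nat_lit 8) (.ch (nat_lit 6) (.ev (nat_lit 720) (nat_lit
 562949970231304) (.ev (nat_lit 733) (nat_lit 4611686018427387904) .dd))) (.ch (nat_lit 8) (.ev (nat_lit 720)
 (nat_lit 562949953454088) (.ev (nat_lit 788) (nat_lit 4611686018427387904) (.ev (nat_lit 797) (nat_lit
 16777216) .dd)))))) (.br (nat_lit 26) (.br (nat_lit 20) (.ch (nat_lit 13) (.ev (nat_lit 720) (nat_lit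
 4612248968397619208) .dd)) (.ch (nat_lit 20) (.ev (nat_lit 720) (nat_lit 4611686018427420680) (.ev (nat_lit
 788) (nat_lit 16777216) (.ev (nat_lit 797) (nat_lit 562949953421312) .dd))))) (.br (nat_lit 34) (.ch (nat_lit
 26) (.ev (nat_lit 720) (nat_lit 4612248968397619200) (.ev (nat_lit 733) (nat_lit 8) .dd))) (.br (nat_lit 40)
 (.ch (nat_lit 34) (.ev (nat_lit 720) (nat_lit 4612248968397619200) (.ev (nat_lit 733) (nat_lit 8) .dd))) (.ch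
 (nat_lit 40) (.ev (nat_lit 720) (nat_lit 4611686018444197896) (.ev (nat_lit 733) (nat_lit 562949953421312)
 .dd)))))))))))))))))) (.br (nat_lit 21) (.br (nat_lit 20) (.ch (nat_lit 19) (.ev (nat_lit 52) (nat_lit
 71279277346816) (.ev (nat_lit 84) (nat_lit 8) (.ev (nat_lit 116) (nat_lit 147862182965828124672) (.ev (nat_lit
 148) (nat_lit 140737488355328) (.ev (nat_lit 180) (nat_lit 536870912) (.ev (nat_lit 212) (nat_lit
 1125899906842880) (.nd (nat_lit 704) (.br (nat_lit 13) (.br (nat_lit 8) (.br (nat_lit 1) (.ch (nat_lit 0) (.ev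
 (nat_lit 720) (nat_lit 41523751514326171648) .dd)) (.br (nat_lit 2) (.ch (nat_lit 1) (.ev (nat_lit 720)
 (nat_lit 4629700416953647104) (.ev (nat_lit 832) (nat_lit 36894051097372524544) .dd))) (.ch (nat_lit 2) (.ev
 (nat_lit 720) (nat_lit 41523751514326171648) .dd)))) (.br (nat_lit 9) (.ch (nat_lit 8) (.ev (nat_lit 720)
 (nat_lit 41523751514309394432) (.ev (nat_lit 733) (nat_lit 16777216) .dd))) (.br (nat_lit 10) (.ch (nat_lit 9)
 (.ev (nat_lit 720) (nat_lit 36912065495882006528) (.ev (nat_lit 800) (nat_lit 16777216) (.ev (nat_lit 813)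
 (nat_lit 4611686018427387904) .dd)))) (.ch (nat_lit 10) (.ev (nat_lit 720) (nat_lit 41523751514326171648)
 .dd))))) (.br (nat_lit 24) (.br (nat_lit 17) (.ch (nat_lit 13) (.ev (nat_lit 720) (nat_lit
 41505737115816689664) (.ev (nat_lit 733) (nat_lit 18014398509481984) .dd))) (.br (nat_lit 22) (.ch (nat_lit
 17) (.ev (nat_lit 720) (nat_lit 36912065495898783744) (.ev (nat_lit 733) (nat_lit 4611686018427387904) .dd)))
 (.ch (nat_lit 22) (.ev (nat_lit 720) (nat_lit 36912065495898783744) (.ev (nat_lit 733) (nat_lit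
 4611686018427387904) .dd))))) (.br (nat_lit 29) (.ch (nat_lit 24) (.ev (nat_lit 720) (nat_lit
 41523188564372750336) (.ev (nat_lit 733) (nat_lit 562949953421312) .dd))) (.br (nat_lit 40) (.ch (nat_lit 29)
 (.ev (nat_lit 720) (nat_lit 41523751514309394432) (.ev (nat_lit 733) (nat_lit 16777216) .dd))) (.ch (nat_lit
 40) (.ev (nat_lit 720) (nat_lit 41505174165863268352) (.ev (nat_lit 788) (nat_lit 562949953421312) (.ev
 (nat_lit 797) (nat_lit 18014398509481984) .dd)))))))))))))))) (.ch (nat_lit 20) (.ev (nat_lit 52) (nat_lit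
 189097281977957027848) (.ev (nat_lit 148) (nat_lit 32768) (.ev (nat_lit 180) (nat_lit 256) (.ev (nat_lit 192)
 (nat_lit 289990419406651392) .dd)))))) (.br (nat_lit 22) (.ch (nat_lit 21) (.ev (nat_lit 52) (nat_lit
 147574656844590813448) (.ev (nat_lit 84) (nat_lit 4611686362024771584) (.ev (nat_lit 180) (nat_lit
 70368744177664) (.ev (nat_lit 288) (nat_lit 37200858822003949568) .dd))))) (.ch (nat_lit 22) (.ev (nat_lit 52)
 (nat_lit 152474503144766804224) (.ev (nat_lit 84) (nat_lit 16777216) (.ev (nat_lit 116) (nat_lit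
 18014398509481992) (.ev (nat_lit 148) (nat_lit 536870912) (.ev (nat_lit 212) (nat_lit 140737488355328) (.nd
 (nat_lit 704) (.br (nat_lit 26) (.br (nat_lit 9) (.br (nat_lit 5) (.ch (nat_lit 3) (.ev (nat_lit 720) (nat_lit
 1125968626319360) (.ev (nat_lit 733) (nat_lit 36893488147419103232) .dd))) (.br (nat_lit 8) (.ch (nat_lit 5)
 (.ev (nat_lit 720) (nat_lit 36894614047325945856) (.ev (nat_lit 733) (nat_lit 68719476736) .dd))) (.ch
 (nat_lit 8) (.ev (nat_lit 720) (nat_lit 68719476736) (.fin (nat_lit 576461302059713084)))))) (.br (nat_lit 17)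
 (.br (nat_lit 10) (.ch (nat_lit 9) (.ev (nat_lit 720) (nat_lit 36893488216138579968) (.ev (nat_lit 733)
 (nat_lit 1125899906842624) .dd))) (.ch (nat_lit 10) (.ev (nat_lit 720) (nat_lit 36893488216138579968) (.ev
 (nat_lit 733) (nat_lit 1125899906842624) .dd)))) (.br (nat_lit 24) (.ch (nat_lit 17) (.ev (nat_lit 720)
 (nat_lit 36894614047325945856) (.ev (nat_lit 733) (nat_lit 68719476736) .dd))) (.ch (nat_lit 24) (.ev (nat_lit
 720) (nat_lit 36894614116045422592) .dd))))) (.br (nat_lit 30) (.br (nat_lit 27) (.ch (nat_lit 26) (.ev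
 (nat_lit 720) (nat_lit 36894614116045422592) .dd)) (.br (nat_lit 28) (.ch (nat_lit 27) (.ev (nat_lit 720)
 (nat_lit 1125968626319360) (.ev (nat_lit 733) (nat_lit 36893488147419103232) .dd))) (.ch (nat_lit 28) (.ev
 (nat_lit 720) (nat_lit 36894614047325945856) (.ev (nat_lit 733) (nat_lit 68719476736) .dd))))) (.br (nat_lit
 40) (.br (nat_lit 34) (.ch (nat_lit 30) (.ev (nat_lit 720) (nat_lit 36894614116045422592) .dd)) (.ch (nat_lit
 34) (.ev (nat_lit 720) (nat_lit 36894614116045422592) .dd))) (.br (nat_lit 41) (.ch (nat_lit 40) (.ev (nat_lit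
 720) (nat_lit 36894614116045422592) .dd)) (.ch (nat_lit 41) (.ev (nat_lit 720) (nat_lit 36894614116045422592)
 .dd))))))))))))))))) (.br (nat_lit 33) (.br (nat_lit 28) (.br (nat_lit 26) (.ch (nat_lit 25) (.ev (nat_lit 52)
 (nat_lit 147862816903017828608) (.ev (nat_lit 116) (nat_lit 1125899906842624) (.ev (nat_lit 148) (nat_lit
 536936448) (.ev (nat_lit 192) (nat_lit 41523329593902104584) .dd))))) (.br (nat_lit 27) (.ch (nat_lit 26) (.ev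
 (nat_lit 52) (nat_lit 36912136500835025152) (.ev (nat_lit 84) (nat_lit 4611686018427387904) (.ev (nat_lit 116)
 (nat_lit 147573952589676412928) (.ev (nat_lit 192) (nat_lit 289497288424886280) .dd))))) (.ch (nat_lit 27)
 (.ev (nat_lit 52) (nat_lit 41523751583045746696) (.ev (nat_lit 116) (nat_lit 288230376151711744) (.ev (nat_lit
 160) (nat_lit 147575290438166253824) .dd)))))) (.br (nat_lit 31) (.br (nat_lit 29) (.ch (nat_lit 28) (.ev
 (nat_lit 52) (nat_lit 288300830795272448) (.ev (nat_lit 84) (nat_lit 4611686293305294856) (.ev (nat_lit 116)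
 (nat_lit 536870912) (.ev (nat_lit 148) (nat_lit 18718085951258624) (.ev (nat_lit 180) (nat_lit
 147573953139432292352) (.nd (nat_lit 704) (.br (nat_lit 12) (.br (nat_lit 5) (.br (nat_lit 2) (.ch (nat_lit 1)
 (.ev (nat_lit 720) (nat_lit 36894614047342723072) .dd)) (.br (nat_lit 3) (.ch (nat_lit 2) (.ev (nat_lit 720)
 (nat_lit 36894614047325945856) (.ev (nat_lit 733) (nat_lit 16777216) .dd))) (.ch (nat_lit 3) (.ev (nat_lit
 720) (nat_lit 1125899923619840) (.ev (nat_lit 733) (nat_lit 36893488147419103232) .dd))))) (.br (nat_lit 9)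
 (.br (nat_lit 8) (.ch (nat_lit 5) (.ev (nat_lit 720) (nat_lit 36894614047325945856) (.ev (nat_lit 733)
 (nat_lit 16777216) .dd))) (.ch (nat_lit 8) (.ev (nat_lit 720) (nat_lit 16777216) (.fin (nat_lit
 576461302059713084))))) (.br (nat_lit 10) (.ch (nat_lit 9) (.ev (nat_lit 720) (nat_lit 36894614047342723072)
 .dd)) (.ch (nat_lit 10) (.ev (nat_lit 720) (nat_lit 36893488147435880448) (.ev (nat_lit 733) (nat_lit
 1125899906842624) .dd)))))) (.br (nat_lit 29) (.br (nat_lit 17) (.ch (nat_lit 12) (.ev (nat_lit 720) (nat_lit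
 36893488147435880448) (.ev (nat_lit 733) (nat_lit 1125899906842624) .dd))) (.br (nat_lit 26) (.ch (nat_lit 17)
 (.ev (nat_lit 720) (nat_lit 36894614047342723072) .dd)) (.ch (nat_lit 26) (.ev (nat_lit 720) (nat_lit
 36894614047325945856) (.ev (nat_lit 733) (nat_lit 16777216) .dd))))) (.br (nat_lit 40) (.br (nat_lit 31) (.ch
 (nat_lit 29) (.ev (nat_lit 720) (nat_lit 36894614047342723072) .dd)) (.ch (nat_lit 31) (.ev (nat_lit 720)
 (nat_lit 36894614047342723072) .dd))) (.br (nat_lit 41) (.ch (nat_lit 40) (.ev (nat_lit 720) (nat_lit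
 36894614047342723072) .dd)) (.ch (nat_lit 41) (.ev (nat_lit 720) (nat_lit 1125899923619840) (.ev (nat_lit 733)
 (nat_lit 36893488147419103232) .dd)))))))))))))) (.ch (nat_lit 29) (.ev (nat_lit 52) (nat_lit
 4630474834437046528) (.ev (nat_lit 84) (nat_lit 549755813888) (.ev (nat_lit 212) (nat_lit
 36893488147419103232) (.ev (nat_lit 240) (nat_lit 147863308865751748616) .dd)))))) (.br (nat_lit 32) (.ch
 (nat_lit 31) (.ev (nat_lit 52) (nat_lit 147880760864046846216) (.ev (nat_lit 96) (nat_lit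
 41506511533316866048) .dd))) (.ch (nat_lit 32) (.ev (nat_lit 52) (nat_lit 4630333821550624768) (.ev (nat_lit
 84) (nat_lit 65536) (.ev (nat_lit 148) (nat_lit 147574093327164768256) (.ev (nat_lit 180) (nat_lit 4096) (.ev
 (nat_lit 212) (nat_lit 256) (.ev (nat_lit 260) (nat_lit 36893488147419103232) (.nd (nat_lit 704) (.br (nat_lit
 20) (.br (nat_lit 9) (.br (nat_lit 3) (.ch (nat_lit 0) (.ev (nat_lit 720) (nat_lit 289356551473332232) (.ev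
 (nat_lit 733) (nat_lit 549755813888) .dd))) (.br (nat_lit 5) (.ch (nat_lit 3) (.ev (nat_lit 720) (nat_lit
 289357101229146120) .dd)) (.ch (nat_lit 5) (.ev (nat_lit 720) (nat_lit 289356826351239176) (.ev (nat_lit 733)
 (nat_lit 274877906944) .dd))))) (.br (nat_lit 12) (.ch (nat_lit 9) (.ev (nat_lit 720) (nat_lit
 289356825814368264) (.ev (nat_lit 736) (nat_lit 274877906944) (.ev (nat_lit 749) (nat_lit 536870912) .dd))))
 (.br (nat_lit 17) (.ch (nat_lit 12) (.ev (nat_lit 720) (nat_lit 1126725077434368) (.ev (nat_lit 788) (nat_lit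
 288230376151711744) (.ev (nat_lit 797) (nat_lit 8) .dd)))) (.ch (nat_lit 17) (.ev (nat_lit 720) (nat_lit
 1125900443713544) (.ev (nat_lit 800) (nat_lit 274877906944) (.ev (nat_lit 832) (nat_lit 288230925907525632)
 .dd))))))) (.br (nat_lit 27) (.br (nat_lit 22) (.ch (nat_lit 20) (.ev (nat_lit 720) (nat_lit 1126725077434376)
 (.ev (nat_lit 733) (nat_lit 288230376151711744) .dd))) (.br (nat_lit 26) (.ch (nat_lit 22) (.ev (nat_lit 720)
 (nat_lit 289357101229146120) .dd)) (.ch (nat_lit 26) (.ev (nat_lit 720) (nat_lit 289357100692275208) (.ev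
 (nat_lit 733) (nat_lit 536870912) .dd))))) (.br (nat_lit 28) (.ch (nat_lit 27) (.ev (nat_lit 720) (nat_lit
 1126725077434376) (.ev (nat_lit 733) (nat_lit 288230376151711744) .dd))) (.br (nat_lit 29) (.ch (nat_lit 28)
 (.ev (nat_lit 720) (nat_lit 288230651566489608) (.ev (nat_lit 800) (nat_lit 549755813888) (.ev (nat_lit 813)
 (nat_lit 1125899906842624) .dd)))) (.ch (nat_lit 29) (.ev (nat_lit 720) (nat_lit 1126450199527424) (.ev
 (nat_lit 788) (nat_lit 288230376151711744) (.ev (nat_lit 816) (nat_lit 8) (.ev (nat_lit 829) (nat_lit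
 274877906944) .dd)))))))))))))))))))) (.br (nat_lit 42) (.br (nat_lit 36) (.br (nat_lit 35) (.ch (nat_lit 33)
 (.ev (nat_lit 52) (nat_lit 189080253480063467520) (.ev (nat_lit 64) (nat_lit 307018917300244744) .dd))) (.ch
 (nat_lit 35) (.ev (nat_lit 52) (nat_lit 19844810491822336) (.ev (nat_lit 84) (nat_lit 68719542280) (.ev
 (nat_lit 116) (nat_lit 288230393348358144) (.ev (nat_lit 404) (nat_lit 536870912) (.nd (nat_lit 704) (.br
 (nat_lit 26) (.br (nat_lit 12) (.br (nat_lit 2) (.ch (nat_lit 1) (.ev (nat_lit 720) (nat_lit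
 189079197124267081728) (.ev (nat_lit 800) (nat_lit 4096) (.ev (nat_lit 813) (nat_lit 32768) .dd)))) (.br
 (nat_lit 3) (.ch (nat_lit 2) (.ev (nat_lit 720) (nat_lit 189079126755522940928) (.ev (nat_lit 733) (nat_lit
 70368744177664) .dd))) (.ch (nat_lit 3) (.ev (nat_lit 720) (nat_lit 152185638608103837696) (.ev (nat_lit 788)
 (nat_lit 70368744177664) (.ev (nat_lit 797) (nat_lit 36893488147419103232) .dd)))))) (.br (nat_lit 17) (.ch
 (nat_lit 12) (.ev (nat_lit 720) (nat_lit 184467511105839730688) (.ev (nat_lit 733) (nat_lit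
 4611686018427387904) .dd))) (.br (nat_lit 20) (.ch (nat_lit 17) (.ev (nat_lit 720) (nat_lit
 4611686018427424768) (.ev (nat_lit 788) (nat_lit 70368744177664) (.ev (nat_lit 800) (nat_lit
 36893488147419103232) (.ev (nat_lit 813) (nat_lit 147573952589676412928) .dd))))) (.ch (nat_lit 20) (.ev
 (nat_lit 720) (nat_lit 41505244534590705664) (.ev (nat_lit 733) (nat_lit 147573952589676412928) .dd)))))) (.br
 (nat_lit 34) (.br (nat_lit 28) (.ch (nat_lit 26) (.ev (nat_lit 720) (nat_lit 189079197124267114496) (.ev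
 (nat_lit 733) (nat_lit 4096) .dd))) (.br (nat_lit 31) (.ch (nat_lit 28) (.ev (nat_lit 720) (nat_lit
 189079126755522940928) (.ev (nat_lit 733) (nat_lit 70368744177664) .dd))) (.ch (nat_lit 31) (.ev (nat_lit 720)
 (nat_lit 189079197124267118592) .dd)))) (.br (nat_lit 40) (.ch (nat_lit 34) (.ev (nat_lit 720) (nat_lit
 189079197124267118592) .dd)) (.br (nat_lit 41) (.ch (nat_lit 40) (.ev (nat_lit 720) (nat_lit
 41505174165846523904) (.ev (nat_lit 800) (nat_lit 147573952589676412928) (.ev (nat_lit 832) (nat_lit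
 70368744181760) .dd)))) (.ch (nat_lit 41) (.ev (nat_lit 720) (nat_lit 36893558516163317760) (.ev (nat_lit 736)
 (nat_lit 147573952589676412928) (.ev (nat_lit 749) (nat_lit 4611686018427387904) .dd))))))))))))))) (.br
 (nat_lit 38) (.ch (nat_lit 36) (.ev (nat_lit 52) (nat_lit 288230462604705800) (.ev (nat_lit 84) (nat_lit
 4611686293305294848) (.ev (nat_lit 116) (nat_lit 36893488147419103232) (.ev (nat_lit 148) (nat_lit
 70368744177664) (.ev (nat_lit 180) (nat_lit 140737488355328) (.ev (nat_lit 212) (nat_lit 1125899906842624)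
 (.nd (nat_lit 704) (.br (nat_lit 8) (.br (nat_lit 5) (.br (nat_lit 1) (.ch (nat_lit 0) (.ev (nat_lit 720)
 (nat_lit 18577348462973184) (.ev (nat_lit 788) (nat_lit 147573952589676412928) (.ev (nat_lit 816) (nat_lit
 549755846656) .dd)))) (.ch (nat_lit 1) (.ev (nat_lit 720) (nat_lit 147592530487895228416) (.ev (nat_lit 788)
 (nat_lit 256) (.ev (nat_lit 797) (nat_lit 4096) .dd))))) (.br (nat_lit 6) (.ch (nat_lit 5) (.ev (nat_lit 720)
 (nat_lit 147592529938139414784) (.ev (nat_lit 788) (nat_lit 4096) (.ev (nat_lit 797) (nat_lit 549755813888)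
 .dd)))) (.ch (nat_lit 6) (.ev (nat_lit 720) (nat_lit 147592530487895166976) (.ev (nat_lit 800) (nat_lit 65792)
 .dd))))) (.br (nat_lit 13) (.br (nat_lit 10) (.ch (nat_lit 8) (.ev (nat_lit 720) (nat_lit 563499709337856)
 (.ev (nat_lit 788) (nat_lit 18014398509481984) (.ev (nat_lit 797) (nat_lit 147573952589676412928) .dd)))) (.ch
 (nat_lit 10) (.ev (nat_lit 720) (nat_lit 147574516089385750784) (.ev (nat_lit 733) (nat_lit 18014398509481984)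
 .dd)))) (.br (nat_lit 17) (.ch (nat_lit 13) (.ev (nat_lit 720) (nat_lit 147574516089385750784) (.ev (nat_lit
 733) (nat_lit 18014398509481984) .dd))) (.br (nat_lit 24) (.ch (nat_lit 17) (.ev (nat_lit 720) (nat_lit
 147592529938139418880) (.ev (nat_lit 733) (nat_lit 549755813888) .dd))) (.ch (nat_lit 24) (.ev (nat_lit 720)
 (nat_lit 147591966988185997568) (.ev (nat_lit 800) (nat_lit 549755813888) (.ev (nat_lit 813) (nat_lit
 562949953421312) .dd)))))))))))))))) (.ch (nat_lit 38) (.ev (nat_lit 52) (nat_lit 147880338669315391496) (.ev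
 (nat_lit 84) (nat_lit 274877906944) (.ev (nat_lit 116) (nat_lit 4611686018427392000) (.ev (nat_lit 212)
 (nat_lit 36893488147419103232) (.ev (nat_lit 320) (nat_lit 1759287323918592) .dd)))))))) (.br (nat_lit 45)
 (.br (nat_lit 44) (.ch (nat_lit 42) (.ev (nat_lit 52) (nat_lit 41525018719177244672) (.ev (nat_lit 84)
 (nat_lit 288230444871188480) (.ev (nat_lit 116) (nat_lit 274877906944) (.ev (nat_lit 148) (nat_lit 16777216)
 (.ev (nat_lit 212) (nat_lit 70368744177664) (.ev (nat_lit 372) (nat_lit 256) (.nd (nat_lit 704) (.br (nat_lit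
 24) (.br (nat_lit 6) (.br (nat_lit 3) (.ch (nat_lit 2) (.ev (nat_lit 720) (nat_lit 147573952589676417032)
 .dd)) (.br (nat_lit 5) (.ch (nat_lit 3) (.ev (nat_lit 720) (nat_lit 147573952589676417024) (.ev (nat_lit 733)
 (nat_lit 8) .dd))) (.ch (nat_lit 5) (.ev (nat_lit 720) (nat_lit 147573952589676417032) .dd)))) (.br (nat_lit
 8) (.ch (nat_lit 6) (.ev (nat_lit 720) (nat_lit 147573952589676417024) (.ev (nat_lit 733) (nat_lit 8) .dd)))
 (.br (nat_lit 20) (.ch (nat_lit 8) (.ev (nat_lit 720) (nat_lit 4104) (.ev (nat_lit 733) (nat_lit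
 147573952589676412928) .dd))) (.ch (nat_lit 20) (.ev (nat_lit 720) (nat_lit 147573952589676417032) .dd)))))
 (.br (nat_lit 34) (.br (nat_lit 26) (.ch (nat_lit 24) (.ev (nat_lit 720) (nat_lit 147573952589676417032) .dd))
 (.br (nat_lit 28) (.ch (nat_lit 26) (.ev (nat_lit 720) (nat_lit 147573952589676412936) (.ev (nat_lit 733)
 (nat_lit 4096) .dd))) (.ch (nat_lit 28) (.ev (nat_lit 720) (nat_lit 4104) (.ev (nat_lit 733) (nat_lit
 147573952589676412928) .dd))))) (.br (nat_lit 38) (.ch (nat_lit 34) (.ev (nat_lit 720) (nat_lit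
 147573952589676417032) .dd)) (.br (nat_lit 41) (.ch (nat_lit 38) (.ev (nat_lit 720) (nat_lit
 147573952589676417032) .dd)) (.ch (nat_lit 41) (.ev (nat_lit 720) (nat_lit 4104) (.ev (nat_lit 733) (nat_lit
 147573952589676412928) .dd))))))))))))))) (.ch (nat_lit 44) (.ev (nat_lit 52) (nat_lit 41793405091754086408)
 (.ev (nat_lit 84) (nat_lit 18014398509481984) (.ev (nat_lit 96) (nat_lit 147575852907100143872) .dd))))) (.br
 (nat_lit 46) (.ch (nat_lit 45) (.ev (nat_lit 52) (nat_lit 289004501073953024) (.ev (nat_lit 84) (nat_lit 4096)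
 (.ev (nat_lit 116) (nat_lit 274877906952) (.ev (nat_lit 192) (nat_lit 189098267621411848192) .dd))))) (.ch
 (nat_lit 46) (.ev (nat_lit 52) (nat_lit 184757360032363872256) (.ev (nat_lit 84) (nat_lit 4096) (.ev (nat_lit
 116) (nat_lit 70385924046848) (.ev (nat_lit 148) (nat_lit 549755814144) (.ev (nat_lit 180) (nat_lit
 274877906944) (.nd (nat_lit 704) (.br (nat_lit 13) (.br (nat_lit 5) (.br (nat_lit 1) (.ch (nat_lit 0) (.ev
 (nat_lit 720) (nat_lit 18155136014680072) (.ev (nat_lit 733) (nat_lit 4611686018427387904) .dd))) (.br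
 (nat_lit 3) (.ch (nat_lit 1) (.ev (nat_lit 720) (nat_lit 4629841154442067976) .dd)) (.ch (nat_lit 3) (.ev
 (nat_lit 720) (nat_lit 18155136014680072) (.ev (nat_lit 733) (nat_lit 4611686018427387904) .dd))))) (.br
 (nat_lit 8) (.ch (nat_lit 5) (.ev (nat_lit 720) (nat_lit 4611826755915808776) (.ev (nat_lit 788) (nat_lit
 16777216) (.ev (nat_lit 797) (nat_lit 18014398509481984) .dd)))) (.br (nat_lit 12) (.ch (nat_lit 8) (.ev
 (nat_lit 720) (nat_lit 4629841154442067976) .dd)) (.ch (nat_lit 12) (.ev (nat_lit 720) (nat_lit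
 4611686018427453448) (.ev (nat_lit 736) (nat_lit 18014398509481984) (.ev (nat_lit 788) (nat_lit 16777216) (.ev
 (nat_lit 797) (nat_lit 140737488355328) .dd)))))))) (.br (nat_lit 29) (.br (nat_lit 22) (.ch (nat_lit 13) (.ev
 (nat_lit 720) (nat_lit 4611826755932585992) (.ev (nat_lit 733) (nat_lit 18014398509481984) .dd))) (.br
 (nat_lit 24) (.ch (nat_lit 22) (.ev (nat_lit 720) (nat_lit 4629700416936935432) (.ev (nat_lit 880) (nat_lit
 140737488355328) (.ev (nat_lit 893) (nat_lit 16777216) .dd)))) (.ch (nat_lit 24) (.ev (nat_lit 720) (nat_lit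
 4629841154425290760) (.ev (nat_lit 733) (nat_lit 16777216) .dd))))) (.br (nat_lit 34) (.br (nat_lit 31) (.ch
 (nat_lit 29) (.ev (nat_lit 720) (nat_lit 4629700416936869888) (.ev (nat_lit 788) (nat_lit 65536) (.ev (nat_lit
 816) (nat_lit 8) (.ev (nat_lit 864) (nat_lit 140737488355328) (.ev (nat_lit 877) (nat_lit 16777216) .dd))))))
 (.ch (nat_lit 31) (.ev (nat_lit 720) (nat_lit 4611826755932520456) (.ev (nat_lit 788) (nat_lit 65536) (.ev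
 (nat_lit 797) (nat_lit 18014398509481984) .dd))))) (.br (nat_lit 41) (.ch (nat_lit 34) (.ev (nat_lit 720)
 (nat_lit 4629841154442067976) .dd)) (.ch (nat_lit 41) (.ev (nat_lit 720) (nat_lit 18155136014614528) (.ev
 (nat_lit 788) (nat_lit 4611686018427453440) (.ev (nat_lit 797) (nat_lit 8) .dd))))))))))))))))))))))

/-- Subtrie. -/
noncomputable def T7 : Tr := (.ev (nat_lit 20) (nat_lit 2121522234877395861914) (.nd (nat_lit 33) (.br (nat_lit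
 25) (.br (nat_lit 14) (.br (nat_lit 5) (.br (nat_lit 2) (.ch (nat_lit 1) (.ev (nat_lit 52) (nat_lit
 147637227285393707040) (.ev (nat_lit 84) (nat_lit 524288) (.ev (nat_lit 116) (nat_lit 549760008192) (.ev
 (nat_lit 148) (nat_lit 1125899906842624) (.ev (nat_lit 180) (nat_lit 2048) (.ev (nat_lit 260) (nat_lit
 4611686035607257088) (.nd (nat_lit 704) (.br (nat_lit 16) (.br (nat_lit 9) (.br (nat_lit 4) (.ch (nat_lit 0)
 (.ev (nat_lit 720) (nat_lit 562950020628480) (.ev (nat_lit 788) (nat_lit 288230376151711744) (.ev (nat_lit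
 797) (nat_lit 8589934592) .dd)))) (.br (nat_lit 8) (.ch (nat_lit 4) (.ev (nat_lit 720) (nat_lit
 288793326105231360) (.ev (nat_lit 800) (nat_lit 8589934592) (.ev (nat_lit 813) (nat_lit 67108864) .dd)))) (.ch
 (nat_lit 8) (.ev (nat_lit 720) (nat_lit 562958543454208) (.ev (nat_lit 752) (nat_lit 67108864) (.ev (nat_lit
 765) (nat_lit 288230376151711744) .dd)))))) (.br (nat_lit 12) (.br (nat_lit 11) (.ch (nat_lit 9) (.ev (nat_lit
 720) (nat_lit 562958610563072) (.ev (nat_lit 733) (nat_lit 288230376151711744) .dd))) (.ch (nat_lit 11) (.ev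
 (nat_lit 720) (nat_lit 562958610563072) (.ev (nat_lit 733) (nat_lit 288230376151711744) .dd)))) (.br (nat_lit
 15) (.ch (nat_lit 12) (.ev (nat_lit 720) (nat_lit 288230384741744640) (.ev (nat_lit 800) (nat_lit 67108864)
 (.ev (nat_lit 813) (nat_lit 562949953421312) .dd)))) (.ch (nat_lit 15) (.ev (nat_lit 720) (nat_lit
 288793326172340224) (.ev (nat_lit 733) (nat_lit 8589934592) .dd)))))) (.br (nat_lit 26) (.br (nat_lit 19) (.ch
 (nat_lit 16) (.ev (nat_lit 720) (nat_lit 8657108992) (.ev (nat_lit 788) (nat_lit 288230376151711744) (.ev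
 (nat_lit 848) (nat_lit 562949953421312) (.ev (nat_lit 861) (nat_lit 32768) .dd))))) (.br (nat_lit 20) (.ch
 (nat_lit 19) (.ev (nat_lit 720) (nat_lit 288793334695165952) (.ev (nat_lit 733) (nat_lit 67108864) .dd))) (.ch
 (nat_lit 20) (.ev (nat_lit 720) (nat_lit 562958610464768) (.ev (nat_lit 736) (nat_lit 32768) (.ev (nat_lit
 788) (nat_lit 288230376151711744) (.ev (nat_lit 797) (nat_lit 65536) .dd))))))) (.br (nat_lit 29) (.br
 (nat_lit 28) (.ch (nat_lit 26) (.ev (nat_lit 720) (nat_lit 288793334695165952) (.ev (nat_lit 733) (nat_lit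
 67108864) .dd))) (.ch (nat_lit 28) (.ev (nat_lit 720) (nat_lit 288230384808853504) (.ev (nat_lit 733) (nat_lit
 562949953421312) .dd)))) (.br (nat_lit 34) (.ch (nat_lit 29) (.ev (nat_lit 720) (nat_lit 562958543454208) (.ev
 (nat_lit 788) (nat_lit 288230376151711744) (.ev (nat_lit 797) (nat_lit 67108864) .dd)))) (.ch (nat_lit 34)
 (.ev (nat_lit 720) (nat_lit 288230384741744640) (.ev (nat_lit 788) (nat_lit 67108864) (.ev (nat_lit 797)
 (nat_lit 562949953421312) .dd)))))))))))))))) (.br (nat_lit 3) (.ch (nat_lit 2) (.ev (nat_lit 52) (nat_lit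
 343962979962198016) (.ev (nat_lit 64) (nat_lit 152194870125468418080) .dd))) (.ch (nat_lit 3) (.ev (nat_lit
 52) (nat_lit 152241379449589760000) (.ev (nat_lit 84) (nat_lit 589824) (.ev (nat_lit 116) (nat_lit
 4398046515200) (.ev (nat_lit 148) (nat_lit 8598323200) (.ev (nat_lit 212) (nat_lit 297237575406452736) (.ev
 (nat_lit 260) (nat_lit 67108864) (.ev (nat_lit 340) (nat_lit 536870912) (.ev (nat_lit 662) (nat_lit 16777216)
 (.nd (nat_lit 704) (.br (nat_lit 23) (.br (nat_lit 8) (.br (nat_lit 4) (.ch (nat_lit 0) (.ev (nat_lit 720)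
 (nat_lit 70385924046880) (.ev (nat_lit 788) (nat_lit 549755815936) (.ev (nat_lit 797) (nat_lit
 140737488355328) .dd)))) (.br (nat_lit 6) (.ch (nat_lit 4) (.ev (nat_lit 720) (nat_lit 566935683072) (.ev
 (nat_lit 788) (nat_lit 70368744179712) (.ev (nat_lit 896) (nat_lit 32) (.ev (nat_lit 909) (nat_lit
 140737488355328) .dd))))) (.ch (nat_lit 6) (.ev (nat_lit 720) (nat_lit 211655988348960) (.ev (nat_lit 733)
 (nat_lit 17179869184) .dd))))) (.br (nat_lit 13) (.br (nat_lit 12) (.ch (nat_lit 8) (.ev (nat_lit 720)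
 (nat_lit 211106232535072) (.ev (nat_lit 800) (nat_lit 17179869184) (.ev (nat_lit 813) (nat_lit 549755813888)
 .dd)))) (.ch (nat_lit 12) (.ev (nat_lit 720) (nat_lit 211673168218144) .dd))) (.br (nat_lit 15) (.ch (nat_lit
 13) (.ev (nat_lit 720) (nat_lit 2080) (.ev (nat_lit 768) (nat_lit 70368744177664) (.ev (nat_lit 816) (nat_lit
 566935683072) (.ev (nat_lit 829) (nat_lit 140737488355328) .dd))))) (.ch (nat_lit 15) (.ev (nat_lit 720)
 (nat_lit 211673168218144) .dd))))) (.br (nat_lit 34) (.br (nat_lit 28) (.ch (nat_lit 23) (.ev (nat_lit 720)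
 (nat_lit 211655988348960) (.ev (nat_lit 733) (nat_lit 17179869184) .dd))) (.br (nat_lit 33) (.ch (nat_lit 28)
 (.ev (nat_lit 720) (nat_lit 211673168216064) (.ev (nat_lit 832) (nat_lit 2080) .dd))) (.ch (nat_lit 33) (.ev
 (nat_lit 720) (nat_lit 141304424040480) (.ev (nat_lit 733) (nat_lit 70368744177664) .dd))))) (.br (nat_lit 40)
 (.br (nat_lit 35) (.ch (nat_lit 34) (.ev (nat_lit 720) (nat_lit 211673168218112) (.ev (nat_lit 733) (nat_lit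
 32) .dd))) (.ch (nat_lit 35) (.ev (nat_lit 720) (nat_lit 211673168218144) .dd))) (.br (nat_lit 42) (.ch
 (nat_lit 40) (.ev (nat_lit 720) (nat_lit 211655988348960) (.ev (nat_lit 733) (nat_lit 17179869184) .dd))) (.ch
 (nat_lit 42) (.ev (nat_lit 720) (nat_lit 141304424040480) (.ev (nat_lit 733) (nat_lit 70368744177664)
 .dd))))))))))))))))))) (.br (nat_lit 11) (.br (nat_lit 9) (.ch (nat_lit 5) (.ev (nat_lit 52) (nat_lit
 147583034555818317824) (.ev (nat_lit 64) (nat_lit 4955798549612298272) .dd))) (.ch (nat_lit 9) (.ev (nat_lit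
 52) (nat_lit 334392281547673632) (.ev (nat_lit 84) (nat_lit 140737488355328) (.ev (nat_lit 96) (nat_lit
 152204300086394587136) .dd))))) (.br (nat_lit 12) (.ch (nat_lit 11) (.ev (nat_lit 52) (nat_lit
 152250588976705439744) (.ev (nat_lit 84) (nat_lit 4194304) (.ev (nat_lit 116) (nat_lit 8606777344) (.ev
 (nat_lit 180) (nat_lit 288230376151711744) (.ev (nat_lit 240) (nat_lit 13743962492960) .dd)))))) (.ch (nat_lit
 12) (.ev (nat_lit 52) (nat_lit 289581126270320640) (.ev (nat_lit 84) (nat_lit 8589967360) (.ev (nat_lit 148)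
 (nat_lit 562949953425408) (.ev (nat_lit 180) (nat_lit 17717264416) (.ev (nat_lit 260) (nat_lit
 4611686018427387904) (.ev (nat_lit 308) (nat_lit 36028797018963968) (.ev (nat_lit 404) (nat_lit
 147573952589676412928) (.nd (nat_lit 704) (.br (nat_lit 20) (.br (nat_lit 12) (.br (nat_lit 8) (.ch (nat_lit
 0) (.ev (nat_lit 720) (nat_lit 27021597776871424) (.ev (nat_lit 733) (nat_lit 2048) .dd))) (.br (nat_lit 11)
 (.ch (nat_lit 8) (.ev (nat_lit 720) (nat_lit 27021597776873472) .dd)) (.ch (nat_lit 11) (.ev (nat_lit 720)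
 (nat_lit 18014398522132480) (.ev (nat_lit 733) (nat_lit 9007199254740992) .dd))))) (.br (nat_lit 13) (.ch
 (nat_lit 12) (.ev (nat_lit 720) (nat_lit 12584960) (.ev (nat_lit 788) (nat_lit 9007199254740992) (.ev (nat_lit
 800) (nat_lit 65536) (.ev (nat_lit 813) (nat_lit 18014398509481984) .dd))))) (.br (nat_lit 15) (.ch (nat_lit
 13) (.ev (nat_lit 720) (nat_lit 9007199254808576) (.ev (nat_lit 788) (nat_lit 18014398517870592) (.ev (nat_lit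
 797) (nat_lit 4194304) .dd)))) (.ch (nat_lit 15) (.ev (nat_lit 720) (nat_lit 9007199263197184) (.ev (nat_lit
 752) (nat_lit 4194304) (.ev (nat_lit 765) (nat_lit 18014398509481984) .dd))))))) (.br (nat_lit 29) (.br
 (nat_lit 25) (.ch (nat_lit 20) (.ev (nat_lit 720) (nat_lit 27021597776873472) .dd)) (.br (nat_lit 28) (.ch
 (nat_lit 25) (.ev (nat_lit 720) (nat_lit 27021597768484864) (.ev (nat_lit 733) (nat_lit 8388608) .dd))) (.ch
 (nat_lit 28) (.ev (nat_lit 720) (nat_lit 27021597768484864) (.ev (nat_lit 733) (nat_lit 8388608) .dd))))) (.br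
 (nat_lit 35) (.br (nat_lit 32) (.ch (nat_lit 29) (.ev (nat_lit 720) (nat_lit 9007199263197184) (.ev (nat_lit
 788) (nat_lit 4194304) (.ev (nat_lit 797) (nat_lit 18014398509481984) .dd)))) (.ch (nat_lit 32) (.ev (nat_lit
 720) (nat_lit 27021597768484864) (.ev (nat_lit 733) (nat_lit 8388608) .dd)))) (.br (nat_lit 42) (.ch (nat_lit
 35) (.ev (nat_lit 720) (nat_lit 18014398522132480) (.ev (nat_lit 733) (nat_lit 9007199254740992) .dd))) (.ch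
 (nat_lit 42) (.ev (nat_lit 720) (nat_lit 27021597768484864) (.ev (nat_lit 733) (nat_lit 8388608)
 .dd))))))))))))))))))) (.br (nat_lit 19) (.br (nat_lit 16) (.br (nat_lit 15) (.ch (nat_lit 14) (.ev (nat_lit
 52) (nat_lit 4613036235886233632) (.ev (nat_lit 84) (nat_lit 18014398535172096) (.ev (nat_lit 116) (nat_lit
 9007199254740992) (.ev (nat_lit 148) (nat_lit 67108864) (.ev (nat_lit 212) (nat_lit 36591746972385280) (.ev
 (nat_lit 260) (nat_lit 288230925907525632) (.nd (nat_lit 704) (.br (nat_lit 23) (.br (nat_lit 12) (.br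
 (nat_lit 9) (.ch (nat_lit 8) (.ev (nat_lit 720) (nat_lit 147573952598807445504) (.ev (nat_lit 733) (nat_lit
 4096) .dd))) (.br (nat_lit 11) (.ch (nat_lit 9) (.ev (nat_lit 720) (nat_lit 147573952598807449600) .dd)) (.ch
 (nat_lit 11) (.ev (nat_lit 720) (nat_lit 147573952589680611328) (.ev (nat_lit 788) (nat_lit 536870912) (.ev
 (nat_lit 816) (nat_lit 8589934592) (.ev (nat_lit 829) (nat_lit 32768) .dd))))))) (.br (nat_lit 15) (.ch
 (nat_lit 12) (.ev (nat_lit 720) (nat_lit 9126838272) (.ev (nat_lit 736) (nat_lit 4096) (.ev (nat_lit 848)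
 (nat_lit 147573952589676412928) (.ev (nat_lit 861) (nat_lit 4194304) .dd))))) (.br (nat_lit 16) (.ch (nat_lit
 15) (.ev (nat_lit 720) (nat_lit 147573952598807449600) .dd)) (.ch (nat_lit 16) (.ev (nat_lit 720) (nat_lit
 8594165760) (.ev (nat_lit 832) (nat_lit 147573952589676412928) (.ev (nat_lit 845) (nat_lit 536870912)
 .dd))))))) (.br (nat_lit 34) (.br (nat_lit 26) (.ch (nat_lit 23) (.ev (nat_lit 720) (nat_lit
 147573952598807449600) .dd)) (.br (nat_lit 29) (.ch (nat_lit 26) (.ev (nat_lit 720) (nat_lit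
 147573952598807449600) .dd)) (.ch (nat_lit 29) (.ev (nat_lit 720) (nat_lit 147573952589680640000) (.ev
 (nat_lit 736) (nat_lit 8589938688) (.ev (nat_lit 749) (nat_lit 536870912) .dd)))))) (.br (nat_lit 38) (.br
 (nat_lit 35) (.ch (nat_lit 34) (.ev (nat_lit 720) (nat_lit 147573952598807449600) .dd)) (.ch (nat_lit 35) (.ev
 (nat_lit 720) (nat_lit 9131036672) (.ev (nat_lit 733) (nat_lit 147573952589676412928) .dd)))) (.br (nat_lit
 42) (.ch (nat_lit 38) (.ev (nat_lit 720) (nat_lit 147573952598807449600) .dd)) (.ch (nat_lit 42) (.ev (nat_lit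
 720) (nat_lit 9131003904) (.ev (nat_lit 788) (nat_lit 147573952589676412928) (.ev (nat_lit 797) (nat_lit
 32768) .dd)))))))))))))))) (.ch (nat_lit 15) (.ev (nat_lit 52) (nat_lit 4612952656376764416) (.ev (nat_lit 84)
 (nat_lit 18014398509482016) (.ev (nat_lit 116) (nat_lit 70368748371968) (.ev (nat_lit 148) (nat_lit
 8796093022208) (.ev (nat_lit 180) (nat_lit 67141632) (.ev (nat_lit 212) (nat_lit 36028797018963968) (.ev
 (nat_lit 260) (nat_lit 288793326105133056) (.nd (nat_lit 704) (.br (nat_lit 16) (.br (nat_lit 9) (.br (nat_lit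
 6) (.ch (nat_lit 0) (.ev (nat_lit 720) (nat_lit 147582959814709346304) (.ev (nat_lit 736) (nat_lit
 549755813888) (.ev (nat_lit 788) (nat_lit 4398046511104) (.ev (nat_lit 797) (nat_lit 65536) .dd))))) (.br
 (nat_lit 8) (.ch (nat_lit 6) (.ev (nat_lit 720) (nat_lit 147582964736741933056) (.ev (nat_lit 788) (nat_lit
 17179869184) (.ev (nat_lit 797) (nat_lit 8589934592) .dd)))) (.ch (nat_lit 8) (.ev (nat_lit 720) (nat_lit
 147582964745331867648) (.ev (nat_lit 733) (nat_lit 17179869184) .dd))))) (.br (nat_lit 11) (.ch (nat_lit 9)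
 (.ev (nat_lit 720) (nat_lit 147573957013501181952) (.ev (nat_lit 736) (nat_lit 9007749010554880) .dd))) (.br
 (nat_lit 13) (.ch (nat_lit 11) (.ev (nat_lit 720) (nat_lit 147582964204165988352) (.ev (nat_lit 788) (nat_lit
 8589934592) (.ev (nat_lit 797) (nat_lit 549755813888) .dd)))) (.ch (nat_lit 13) (.ev (nat_lit 720) (nat_lit
 147582964753913413632) (.ev (nat_lit 736) (nat_lit 8598323200) .dd)))))) (.br (nat_lit 23) (.br (nat_lit 19)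
 (.ch (nat_lit 16) (.ev (nat_lit 720) (nat_lit 147573957013501181952) (.ev (nat_lit 788) (nat_lit
 9007199254740992) (.ev (nat_lit 797) (nat_lit 549755813888) .dd)))) (.br (nat_lit 20) (.ch (nat_lit 19) (.ev
 (nat_lit 720) (nat_lit 147582960364456771584) (.ev (nat_lit 788) (nat_lit 4398046576640) (.ev (nat_lit 797)
 (nat_lit 8388608) .dd)))) (.ch (nat_lit 20) (.ev (nat_lit 720) (nat_lit 9012172835323904) (.ev (nat_lit 733)
 (nat_lit 147573952589676412928) .dd))))) (.br (nat_lit 26) (.br (nat_lit 25) (.ch (nat_lit 23) (.ev (nat_lit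
 720) (nat_lit 147582960364465160192) (.ev (nat_lit 752) (nat_lit 65536) (.ev (nat_lit 765) (nat_lit
 4398046511104) .dd)))) (.ch (nat_lit 25) (.ev (nat_lit 720) (nat_lit 147582964762503348224) (.ev (nat_lit 733)
 (nat_lit 8388608) .dd)))) (.br (nat_lit 40) (.ch (nat_lit 26) (.ev (nat_lit 720) (nat_lit 9011614489575424)
 (.ev (nat_lit 788) (nat_lit 549755813888) (.ev (nat_lit 832) (nat_lit 147573952598266347520) .dd)))) (.ch
 (nat_lit 40) (.ev (nat_lit 720) (nat_lit 147582960347285356544) (.ev (nat_lit 896) (nat_lit 4415226380288)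
 .dd))))))))))))))))) (.br (nat_lit 18) (.ch (nat_lit 16) (.ev (nat_lit 52) (nat_lit 152221887857749426208)
 (.ev (nat_lit 64) (nat_lit 316945247681189888) .dd))) (.ch (nat_lit 18) (.ev (nat_lit 52) (nat_lit
 147889345859497826304) (.ev (nat_lit 84) (nat_lit 4398046511104) (.ev (nat_lit 96) (nat_lit
 4649482847886278688) .dd)))))) (.br (nat_lit 21) (.br (nat_lit 20) (.ch (nat_lit 19) (.ev (nat_lit 52)
 (nat_lit 36108537390274560) (.ev (nat_lit 84) (nat_lit 4194304) (.ev (nat_lit 116) (nat_lit 32) (.ev (nat_lit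
 148) (nat_lit 298363475313295360) (.ev (nat_lit 180) (nat_lit 537395200) (.ev (nat_lit 308) (nat_lit 67108864)
 (.nd (nat_lit 704) (.br (nat_lit 23) (.br (nat_lit 12) (.br (nat_lit 6) (.ch (nat_lit 4) (.ev (nat_lit 720)
 (nat_lit 152186205956120510464) (.fin (nat_lit 576462401572389439)))) (.br (nat_lit 11) (.ch (nat_lit 6) (.ev
 (nat_lit 720) (nat_lit 152186205956120510464) (.ev (nat_lit 800) (nat_lit 18155135997837312) .dd))) (.ch
 (nat_lit 11) (.ev (nat_lit 720) (nat_lit 152203798142164926464) (.ev (nat_lit 733) (nat_lit 562949953421312)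
 .dd))))) (.br (nat_lit 16) (.br (nat_lit 15) (.ch (nat_lit 12) (.ev (nat_lit 720) (nat_lit
 147592670675644448768) (.ev (nat_lit 816) (nat_lit 4398046511104) (.ev (nat_lit 829) (nat_lit
 4611686018427387904) .dd)))) (.ch (nat_lit 15) (.ev (nat_lit 720) (nat_lit 152186346693592088576) (.ev
 (nat_lit 788) (nat_lit 16777216) (.ev (nat_lit 797) (nat_lit 18014398509481984) .dd))))) (.br (nat_lit 20)
 (.ch (nat_lit 16) (.ev (nat_lit 720) (nat_lit 4630408502425157632) (.ev (nat_lit 880) (nat_lit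
 147573952589693190144) .dd))) (.ch (nat_lit 20) (.ev (nat_lit 720) (nat_lit 4629700416953647104) (.ev (nat_lit
 788) (nat_lit 147573952589676412928) (.ev (nat_lit 800) (nat_lit 140737488355328) (.ev (nat_lit 816) (nat_lit
 4398046511104) (.ev (nat_lit 829) (nat_lit 562949953421312) .dd))))))))) (.br (nat_lit 29) (.br (nat_lit 26)
 (.ch (nat_lit 23) (.ev (nat_lit 720) (nat_lit 152203793744118415360) (.ev (nat_lit 832) (nat_lit
 4398046511104) (.ev (nat_lit 845) (nat_lit 562949953421312) .dd)))) (.br (nat_lit 28) (.ch (nat_lit 26) (.ev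
 (nat_lit 720) (nat_lit 4630408502441934848) (.ev (nat_lit 733) (nat_lit 147573952589676412928) .dd))) (.ch
 (nat_lit 28) (.ev (nat_lit 720) (nat_lit 152203798142164926464) (.ev (nat_lit 733) (nat_lit 562949953421312)
 .dd))))) (.br (nat_lit 40) (.br (nat_lit 33) (.ch (nat_lit 29) (.ev (nat_lit 720) (nat_lit
 147592675073690959872) (.ev (nat_lit 733) (nat_lit 4611686018427387904) .dd))) (.ch (nat_lit 33) (.ev (nat_lit
 720) (nat_lit 4630404104395423744) (.ev (nat_lit 896) (nat_lit 4398046511104) (.ev (nat_lit 909) (nat_lit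
 147573952589676412928) .dd))))) (.br (nat_lit 42) (.ch (nat_lit 40) (.ev (nat_lit 720) (nat_lit
 152203798142164926464) (.ev (nat_lit 733) (nat_lit 562949953421312) .dd))) (.ch (nat_lit 42) (.ev (nat_lit
 720) (nat_lit 147592675073690959872) (.ev (nat_lit 733) (nat_lit 4611686018427387904) .dd))))))))))))))) (.ch
 (nat_lit 20) (.ev (nat_lit 52) (nat_lit 152203793761831555072) (.ev (nat_lit 64) (nat_lit 335039343599061024)
 .dd)))) (.br (nat_lit 22) (.ch (nat_lit 21) (.ev (nat_lit 52) (nat_lit 147583664052444401664) (.ev (nat_lit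
 84) (nat_lit 18014398509481984) (.ev (nat_lit 116) (nat_lit 4398046511104) (.ev (nat_lit 148) (nat_lit
 4611686018427387936) (.ev (nat_lit 180) (nat_lit 289356276058554368) (.nd (nat_lit 704) (.br (nat_lit 29) (.br
 (nat_lit 13) (.br (nat_lit 6) (.ch (nat_lit 0) (.ev (nat_lit 720) (nat_lit 36107961944276992) (.ev (nat_lit
 733) (nat_lit 2048) .dd))) (.br (nat_lit 12) (.ch (nat_lit 6) (.ev (nat_lit 720) (nat_lit 79164858204160) (.ev
 (nat_lit 848) (nat_lit 36028797018963968) (.ev (nat_lit 880) (nat_lit 67110912) .dd)))) (.ch (nat_lit 12) (.ev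
 (nat_lit 720) (nat_lit 36107961877170176) (.ev (nat_lit 733) (nat_lit 67108864) .dd))))) (.br (nat_lit 19)
 (.ch (nat_lit 13) (.ev (nat_lit 720) (nat_lit 36037593195907072) (.ev (nat_lit 816) (nat_lit 70368748371968)
 .dd))) (.br (nat_lit 23) (.ch (nat_lit 19) (.ev (nat_lit 720) (nat_lit 36099165784115200) (.ev (nat_lit 788)
 (nat_lit 67141632) (.ev (nat_lit 797) (nat_lit 8796093022208) .dd)))) (.ch (nat_lit 23) (.ev (nat_lit 720)
 (nat_lit 79164925282304) (.ev (nat_lit 788) (nat_lit 32768) (.ev (nat_lit 797) (nat_lit 36028797018963968)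
 .dd))))))) (.br (nat_lit 35) (.br (nat_lit 31) (.ch (nat_lit 29) (.ev (nat_lit 720) (nat_lit
 36099165851256832) (.ev (nat_lit 733) (nat_lit 8796093022208) .dd))) (.br (nat_lit 34) (.ch (nat_lit 31) (.ev
 (nat_lit 720) (nat_lit 79164858206208) (.ev (nat_lit 736) (nat_lit 67108864) (.ev (nat_lit 749) (nat_lit
 36028797018963968) .dd)))) (.ch (nat_lit 34) (.ev (nat_lit 720) (nat_lit 79164908537856) (.ev (nat_lit 788)
 (nat_lit 36028797018963968) (.ev (nat_lit 797) (nat_lit 16777216) .dd)))))) (.br (nat_lit 40) (.ch (nat_lit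
 35) (.ev (nat_lit 720) (nat_lit 79164908537856) (.ev (nat_lit 752) (nat_lit 36028797018963968) (.ev (nat_lit
 765) (nat_lit 16777216) .dd)))) (.br (nat_lit 42) (.ch (nat_lit 40) (.ev (nat_lit 720) (nat_lit
 36107961944279040) .dd)) (.ch (nat_lit 42) (.ev (nat_lit 720) (nat_lit 36099165851254784) (.ev (nat_lit 864)
 (nat_lit 2048) (.ev (nat_lit 877) (nat_lit 8796093022208) .dd))))))))))))))) (.ch (nat_lit 22) (.ev (nat_lit
 52) (nat_lit 152510531666908385312) (.ev (nat_lit 116) (nat_lit 4194304) (.ev (nat_lit 148) (nat_lit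
 8589934592) (.ev (nat_lit 180) (nat_lit 8796101412864) (.ev (nat_lit 212) (nat_lit 9007199254740992) (.ev
 (nat_lit 646) (nat_lit 16777216) (.nd (nat_lit 704) (.br (nat_lit 29) (.br (nat_lit 15) (.br (nat_lit 9) (.ch
 (nat_lit 4) (.ev (nat_lit 720) (nat_lit 1130298557333504) (.fin (nat_lit 576462401572389439)))) (.br (nat_lit
 12) (.ch (nat_lit 9) (.ev (nat_lit 720) (nat_lit 18155136601817088) (.ev (nat_lit 768) (nat_lit 4398046511104)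
 (.ev (nat_lit 781) (nat_lit 1125899906842624) .dd)))) (.ch (nat_lit 12) (.ev (nat_lit 720) (nat_lit
 19281036441550848) (.ev (nat_lit 896) (nat_lit 4398113619968) .dd))))) (.br (nat_lit 23) (.br (nat_lit 20)
 (.ch (nat_lit 15) (.ev (nat_lit 720) (nat_lit 19285434555170816) .dd)) (.ch (nat_lit 20) (.ev (nat_lit 720)
 (nat_lit 19285434018299904) (.ev (nat_lit 733) (nat_lit 536870912) .dd)))) (.br (nat_lit 28) (.ch (nat_lit 23)
 (.ev (nat_lit 720) (nat_lit 19285434018299904) (.ev (nat_lit 733) (nat_lit 536870912) .dd))) (.ch (nat_lit 28)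
 (.ev (nat_lit 720) (nat_lit 19285434018299904) (.ev (nat_lit 733) (nat_lit 536870912) .dd)))))) (.br (nat_lit
 34) (.br (nat_lit 31) (.ch (nat_lit 29) (.ev (nat_lit 720) (nat_lit 18014398576590848) (.ev (nat_lit 788)
 (nat_lit 4398046511104) (.ev (nat_lit 800) (nat_lit 140737488355328) (.ev (nat_lit 816) (nat_lit
 1125899906842624) (.ev (nat_lit 829) (nat_lit 536870912) .dd)))))) (.br (nat_lit 33) (.ch (nat_lit 31) (.ev
 (nat_lit 720) (nat_lit 18159534111457280) (.ev (nat_lit 832) (nat_lit 1125899906842624) (.ev (nat_lit 845)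
 (nat_lit 536870912) .dd)))) (.ch (nat_lit 33) (.ev (nat_lit 720) (nat_lit 19281036508659712) (.ev (nat_lit
 733) (nat_lit 4398046511104) .dd))))) (.br (nat_lit 38) (.br (nat_lit 35) (.ch (nat_lit 34) (.ev (nat_lit 720)
 (nat_lit 1130298557333504) (.ev (nat_lit 800) (nat_lit 18155135997837312) .dd))) (.ch (nat_lit 35) (.ev
 (nat_lit 720) (nat_lit 19285434555170816) .dd))) (.br (nat_lit 40) (.ch (nat_lit 38) (.ev (nat_lit 720)
 (nat_lit 18159534648328192) (.ev (nat_lit 733) (nat_lit 1125899906842624) .dd))) (.ch (nat_lit 40) (.ev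
 (nat_lit 720) (nat_lit 1271035978579968) (.ev (nat_lit 788) (nat_lit 67108864) (.ev (nat_lit 797) (nat_lit
 18014398509481984) .dd)))))))))))))))))))) (.br (nat_lit 33) (.br (nat_lit 28) (.br (nat_lit 26) (.ch (nat_lit
 25) (.ev (nat_lit 52) (nat_lit 147898845631321509920) (.ev (nat_lit 84) (nat_lit 140737488355328) (.ev
 (nat_lit 116) (nat_lit 4611686018427387904) (.ev (nat_lit 180) (nat_lit 1125908496777216) (.ev (nat_lit 212)
 (nat_lit 9007199254740992) (.ev (nat_lit 308) (nat_lit 65536) (.ev (nat_lit 372) (nat_lit 603979776) (.nd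
 (nat_lit 704) (.br (nat_lit 28) (.br (nat_lit 9) (.br (nat_lit 6) (.ch (nat_lit 4) (.ev (nat_lit 720) (nat_lit
 18027592649541632) (.ev (nat_lit 832) (nat_lit 8388608) (.ev (nat_lit 845) (nat_lit 17179869184) .dd)))) (.br
 (nat_lit 8) (.ch (nat_lit 6) (.ev (nat_lit 720) (nat_lit 13194147921920) (.ev (nat_lit 736) (nat_lit 524288)
 (.ev (nat_lit 788) (nat_lit 17179869184) (.ev (nat_lit 800) (nat_lit 18014398509481984) (.ev (nat_lit 813)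
 (nat_lit 2048) .dd)))))) (.ch (nat_lit 8) (.ev (nat_lit 720) (nat_lit 18018796564908032) (.ev (nat_lit 752)
 (nat_lit 8796093022208) (.ev (nat_lit 765) (nat_lit 17179869184) .dd)))))) (.br (nat_lit 16) (.br (nat_lit 15)
 (.ch (nat_lit 9) (.ev (nat_lit 720) (nat_lit 18027609837799424) .dd)) (.ch (nat_lit 15) (.ev (nat_lit 720)
 (nat_lit 18027592657930240) (.ev (nat_lit 733) (nat_lit 17179869184) .dd)))) (.br (nat_lit 19) (.ch (nat_lit
 16) (.ev (nat_lit 720) (nat_lit 18027609837797376) (.ev (nat_lit 733) (nat_lit 2048) .dd))) (.ch (nat_lit 19)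
 (.ev (nat_lit 720) (nat_lit 18023194610894848) (.ev (nat_lit 752) (nat_lit 17179869184) (.ev (nat_lit 800)
 (nat_lit 4398046511104) (.ev (nat_lit 813) (nat_lit 524288) .dd)))))))) (.br (nat_lit 32) (.br (nat_lit 29)
 (.ch (nat_lit 28) (.ev (nat_lit 720) (nat_lit 18018813744777216) (.ev (nat_lit 733) (nat_lit 8796093022208)
 .dd))) (.br (nat_lit 31) (.ch (nat_lit 29) (.ev (nat_lit 720) (nat_lit 18023211782897664) (.ev (nat_lit 800)
 (nat_lit 4398054899712) (.ev (nat_lit 813) (nat_lit 2048) .dd)))) (.ch (nat_lit 31) (.ev (nat_lit 720)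
 (nat_lit 18027609837799424) .dd)))) (.br (nat_lit 38) (.br (nat_lit 33) (.ch (nat_lit 32) (.ev (nat_lit 720)
 (nat_lit 17180395520) (.ev (nat_lit 832) (nat_lit 8388608) (.ev (nat_lit 848) (nat_lit 8796093022208) (.ev
 (nat_lit 880) (nat_lit 4398046511104) (.ev (nat_lit 893) (nat_lit 18014398509481984) .dd)))))) (.ch (nat_lit
 33) (.ev (nat_lit 720) (nat_lit 18027592657930240) (.ev (nat_lit 733) (nat_lit 17179869184) .dd)))) (.br
 (nat_lit 40) (.ch (nat_lit 38) (.ev (nat_lit 720) (nat_lit 18027592657930240) (.ev (nat_lit 733) (nat_lit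
 17179869184) .dd))) (.ch (nat_lit 40) (.ev (nat_lit 720) (nat_lit 8813281806336) (.ev (nat_lit 788) (nat_lit
 18014398509481984) (.ev (nat_lit 797) (nat_lit 4398046511104) .dd))))))))))))))))) (.br (nat_lit 27) (.ch
 (nat_lit 26) (.ev (nat_lit 52) (nat_lit 27655492612423712) (.ev (nat_lit 96) (nat_lit 152511177612818192384)
 .dd))) (.ch (nat_lit 27) (.ev (nat_lit 52) (nat_lit 4639270574823145504) (.ev (nat_lit 84) (nat_lit
 36169534507319296) (.ev (nat_lit 116) (nat_lit 147573952607401541632) (.ev (nat_lit 148) (nat_lit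
 549755813888) (.ev (nat_lit 180) (nat_lit 1125899906842624) (.ev (nat_lit 212) (nat_lit 2048) (.ev (nat_lit
 260) (nat_lit 4398046511104) (.nd (nat_lit 704) (.br (nat_lit 26) (.br (nat_lit 16) (.br (nat_lit 12) (.ch
 (nat_lit 6) (.ev (nat_lit 720) (nat_lit 288239172245262336) (.ev (nat_lit 733) (nat_lit 70368744177664) .dd)))
 (.br (nat_lit 15) (.ch (nat_lit 12) (.ev (nat_lit 720) (nat_lit 288309540988915712) (.ev (nat_lit 733)
 (nat_lit 524288) .dd))) (.ch (nat_lit 15) (.ev (nat_lit 720) (nat_lit 288309540989440000) .dd)))) (.br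
 (nat_lit 19) (.ch (nat_lit 16) (.ev (nat_lit 720) (nat_lit 79164837728256) (.ev (nat_lit 733) (nat_lit
 288230376151711744) .dd))) (.br (nat_lit 20) (.ch (nat_lit 19) (.ev (nat_lit 720) (nat_lit 288309540988915712)
 (.ev (nat_lit 733) (nat_lit 524288) .dd))) (.ch (nat_lit 20) (.ev (nat_lit 720) (nat_lit 288300744896417792)
 (.ev (nat_lit 733) (nat_lit 8796093022208) .dd)))))) (.br (nat_lit 31) (.br (nat_lit 28) (.ch (nat_lit 26)
 (.ev (nat_lit 720) (nat_lit 288309540989435904) (.ev (nat_lit 733) (nat_lit 4096) .dd))) (.br (nat_lit 29)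
 (.ch (nat_lit 28) (.ev (nat_lit 720) (nat_lit 288300744896417792) (.ev (nat_lit 733) (nat_lit 8796093022208)
 .dd))) (.ch (nat_lit 29) (.ev (nat_lit 720) (nat_lit 288300744896413696) (.ev (nat_lit 848) (nat_lit
 8796093026304) .dd))))) (.br (nat_lit 35) (.ch (nat_lit 31) (.ev (nat_lit 720) (nat_lit 288300744895893504)
 (.ev (nat_lit 788) (nat_lit 524288) (.ev (nat_lit 797) (nat_lit 8796093022208) .dd)))) (.br (nat_lit 40) (.ch
 (nat_lit 35) (.ev (nat_lit 720) (nat_lit 79164837728256) (.ev (nat_lit 733) (nat_lit 288230376151711744)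
 .dd))) (.ch (nat_lit 40) (.ev (nat_lit 720) (nat_lit 288309540988915712) (.ev (nat_lit 733) (nat_lit 524288)
 .dd)))))))))))))))))) (.br (nat_lit 31) (.br (nat_lit 29) (.ch (nat_lit 28) (.ev (nat_lit 52) (nat_lit
 288300770669926400) (.ev (nat_lit 84) (nat_lit 65536) (.ev (nat_lit 116) (nat_lit 83886080) (.ev (nat_lit 148)
 (nat_lit 8796093022208) (.ev (nat_lit 180) (nat_lit 152185638608103800832) (.ev (nat_lit 212) (nat_lit
 1125899906842624) (.ev (nat_lit 228) (nat_lit 562949953421312) (.ev (nat_lit 260) (nat_lit 549755813888) (.nd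
 (nat_lit 704) (.br (nat_lit 25) (.br (nat_lit 12) (.br (nat_lit 8) (.ch (nat_lit 0) (.ev (nat_lit 720)
 (nat_lit 63195530863312928) (.ev (nat_lit 733) (nat_lit 524288) .dd))) (.br (nat_lit 11) (.ch (nat_lit 8) (.ev
 (nat_lit 720) (nat_lit 63195530863837216) .dd)) (.ch (nat_lit 11) (.ev (nat_lit 720) (nat_lit
 63195530326442016) (.ev (nat_lit 752) (nat_lit 524288) (.ev (nat_lit 765) (nat_lit 536870912) .dd)))))) (.br
 (nat_lit 20) (.br (nat_lit 13) (.ch (nat_lit 12) (.ev (nat_lit 720) (nat_lit 27166733844348960) (.ev (nat_lit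
 848) (nat_lit 36028797018963968) (.ev (nat_lit 861) (nat_lit 524288) .dd)))) (.ch (nat_lit 13) (.ev (nat_lit
 720) (nat_lit 27025995811258400) (.ev (nat_lit 848) (nat_lit 36028797018963968) (.ev (nat_lit 880) (nat_lit
 8388608) (.ev (nat_lit 960) (nat_lit 536870912) (.ev (nat_lit 973) (nat_lit 140737488355328) .dd))))))) (.br
 (nat_lit 23) (.ch (nat_lit 20) (.ev (nat_lit 720) (nat_lit 27025996355993632) (.ev (nat_lit 788) (nat_lit
 36028797018963968) (.ev (nat_lit 800) (nat_lit 140737488355328) (.ev (nat_lit 813) (nat_lit 524288) .dd)))))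
 (.ch (nat_lit 23) (.ev (nat_lit 720) (nat_lit 18159534053261344) (.ev (nat_lit 800) (nat_lit
 45035996810575872) .dd)))))) (.br (nat_lit 33) (.br (nat_lit 26) (.ch (nat_lit 25) (.ev (nat_lit 720) (nat_lit
 45181132345966624) (.ev (nat_lit 752) (nat_lit 8388608) (.ev (nat_lit 765) (nat_lit 18014398509481984) .dd))))
 (.br (nat_lit 31) (.ch (nat_lit 26) (.ev (nat_lit 720) (nat_lit 45176734307844096) (.ev (nat_lit 788) (nat_lit
 32) (.ev (nat_lit 928) (nat_lit 18014398509481984) (.ev (nat_lit 941) (nat_lit 4398046511104) .dd))))) (.ch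
 (nat_lit 31) (.ev (nat_lit 720) (nat_lit 63195530863312896) (.ev (nat_lit 880) (nat_lit 524320) .dd))))) (.br
 (nat_lit 35) (.br (nat_lit 34) (.ch (nat_lit 33) (.ev (nat_lit 720) (nat_lit 63195530863312928) (.ev (nat_lit
 733) (nat_lit 524288) .dd))) (.ch (nat_lit 34) (.ev (nat_lit 720) (nat_lit 63054793375481888) (.ev (nat_lit
 733) (nat_lit 140737488355328) .dd)))) (.br (nat_lit 42) (.ch (nat_lit 35) (.ev (nat_lit 720) (nat_lit
 63195530863312928) (.ev (nat_lit 733) (nat_lit 524288) .dd))) (.ch (nat_lit 42) (.ev (nat_lit 720) (nat_lit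
 63195530855448608) (.ev (nat_lit 733) (nat_lit 8388608) .dd))))))))))))))))) (.ch (nat_lit 29) (.ev (nat_lit
 52) (nat_lit 4666512084022951968) (.ev (nat_lit 84) (nat_lit 4398063288320) (.ev (nat_lit 116) (nat_lit
 526336) (.ev (nat_lit 180) (nat_lit 147573952589676412928) (.ev (nat_lit 260) (nat_lit 4096) (.ev (nat_lit
 448) (nat_lit 549755813888) (.nd (nat_lit 704) (.br (nat_lit 23) (.br (nat_lit 16) (.br (nat_lit 15) (.ch
 (nat_lit 6) (.ev (nat_lit 720) (nat_lit 298363475313295360) (.ev (nat_lit 788) (nat_lit 8589934592) (.ev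
 (nat_lit 797) (nat_lit 8388608) .dd)))) (.ch (nat_lit 15) (.ev (nat_lit 720) (nat_lit 289356284656877568) (.ev
 (nat_lit 733) (nat_lit 9007199254740992) .dd)))) (.br (nat_lit 19) (.ch (nat_lit 16) (.ev (nat_lit 720)
 (nat_lit 289356284656877568) (.ev (nat_lit 733) (nat_lit 9007199254740992) .dd))) (.ch (nat_lit 19) (.ev
 (nat_lit 720) (nat_lit 297237583996387328) (.ev (nat_lit 788) (nat_lit 8388608) (.ev (nat_lit 797) (nat_lit
 1125899906842624) .dd)))))) (.br (nat_lit 29) (.br (nat_lit 25) (.ch (nat_lit 23) (.ev (nat_lit 720) (nat_lit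
 298363483911618560) .dd)) (.ch (nat_lit 25) (.ev (nat_lit 720) (nat_lit 298363483903229952) (.ev (nat_lit 733)
 (nat_lit 8388608) .dd)))) (.br (nat_lit 35) (.ch (nat_lit 29) (.ev (nat_lit 720) (nat_lit 10133099169972224)
 (.ev (nat_lit 788) (nat_lit 288230376151711744) (.ev (nat_lit 797) (nat_lit 8589934592) .dd)))) (.br (nat_lit
 40) (.ch (nat_lit 35) (.ev (nat_lit 720) (nat_lit 1125908505165824) (.ev (nat_lit 788) (nat_lit
 9007199254740992) (.ev (nat_lit 797) (nat_lit 288230376151711744) .dd)))) (.ch (nat_lit 40) (.ev (nat_lit 720)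
 (nat_lit 10133107759906816) (.ev (nat_lit 733) (nat_lit 288230376151711744) .dd)))))))))))))))) (.br (nat_lit
 32) (.ch (nat_lit 31) (.ev (nat_lit 52) (nat_lit 147889776868060041248) (.ev (nat_lit 84) (nat_lit
 4398063812608) (.ev (nat_lit 96) (nat_lit 4649051839306762240) .dd)))) (.ch (nat_lit 32) (.ev (nat_lit 52)
 (nat_lit 4639354154882992128) (.ev (nat_lit 84) (nat_lit 65536) (.ev (nat_lit 116) (nat_lit 140737492549632)
 (.ev (nat_lit 148) (nat_lit 1125900443713536) (.ev (nat_lit 212) (nat_lit 147573952589676412928) (.ev (nat_lit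
 260) (nat_lit 36028797018963968) (.nd (nat_lit 704) (.br (nat_lit 20) (.br (nat_lit 8) (.br (nat_lit 4) (.ch
 (nat_lit 0) (.ev (nat_lit 720) (nat_lit 288230925915918336) (.ev (nat_lit 733) (nat_lit 32) .dd))) (.br
 (nat_lit 6) (.ch (nat_lit 4) (.ev (nat_lit 720) (nat_lit 288230925915918336) (.ev (nat_lit 733) (nat_lit 32)
 .dd))) (.ch (nat_lit 6) (.ev (nat_lit 720) (nat_lit 288230925907529760) (.ev (nat_lit 733) (nat_lit 8388608)
 .dd))))) (.br (nat_lit 11) (.ch (nat_lit 8) (.ev (nat_lit 720) (nat_lit 288230925915914272) (.ev (nat_lit 733)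
 (nat_lit 4096) .dd))) (.br (nat_lit 19) (.ch (nat_lit 11) (.ev (nat_lit 720) (nat_lit 288230925915918368)
 .dd)) (.ch (nat_lit 19) (.ev (nat_lit 720) (nat_lit 288230925907529760) (.ev (nat_lit 733) (nat_lit 8388608)
 .dd)))))) (.br (nat_lit 31) (.br (nat_lit 26) (.ch (nat_lit 20) (.ev (nat_lit 720) (nat_lit 549764206624) (.ev
 (nat_lit 733) (nat_lit 288230376151711744) .dd))) (.br (nat_lit 28) (.ch (nat_lit 26) (.ev (nat_lit 720)
 (nat_lit 288230925915914272) (.ev (nat_lit 733) (nat_lit 4096) .dd))) (.ch (nat_lit 28) (.ev (nat_lit 720)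
 (nat_lit 288230925907525664) (.ev (nat_lit 788) (nat_lit 4096) (.ev (nat_lit 797) (nat_lit 8388608) .dd))))))
 (.br (nat_lit 32) (.ch (nat_lit 31) (.ev (nat_lit 720) (nat_lit 288230376160104480) (.ev (nat_lit 733)
 (nat_lit 549755813888) .dd))) (.br (nat_lit 42) (.ch (nat_lit 32) (.ev (nat_lit 720) (nat_lit
 288230925915914272) (.ev (nat_lit 733) (nat_lit 4096) .dd))) (.ch (nat_lit 42) (.ev (nat_lit 720) (nat_lit
 549755818016) (.ev (nat_lit 848) (nat_lit 288230376160100352) .dd)))))))))))))))))) (.br (nat_lit 42) (.br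
 (nat_lit 36) (.br (nat_lit 35) (.ch (nat_lit 33) (.ev (nat_lit 52) (nat_lit 152186778260567228416) (.ev
 (nat_lit 84) (nat_lit 8388608) (.ev (nat_lit 116) (nat_lit 65536) (.ev (nat_lit 148) (nat_lit 17179906048)
 (.ev (nat_lit 180) (nat_lit 288230376151711744) (.ev (nat_lit 260) (nat_lit 2048) (.ev (nat_lit 276) (nat_lit
 536870912) (.ev (nat_lit 694) (nat_lit 524288) (.nd (nat_lit 704) (.br (nat_lit 28) (.br (nat_lit 19) (.br
 (nat_lit 6) (.ch (nat_lit 4) (.ev (nat_lit 720) (nat_lit 36732484477517824) (.ev (nat_lit 788) (nat_lit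
 9007199254741024) (.ev (nat_lit 816) (nat_lit 70368744177664) (.ev (nat_lit 829) (nat_lit 18014398509481984)
 .dd))))) (.br (nat_lit 12) (.ch (nat_lit 6) (.ev (nat_lit 720) (nat_lit 63613344753385504) (.ev (nat_lit 788)
 (nat_lit 140737488355328) (.ev (nat_lit 797) (nat_lit 70368744177664) .dd)))) (.ch (nat_lit 12) (.ev (nat_lit
 720) (nat_lit 63824450985918464) (.ev (nat_lit 733) (nat_lit 32) .dd))))) (.br (nat_lit 23) (.br (nat_lit 20)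
 (.ch (nat_lit 19) (.ev (nat_lit 720) (nat_lit 63824450985918496) .dd)) (.ch (nat_lit 20) (.ev (nat_lit 720)
 (nat_lit 63261501032497184) (.ev (nat_lit 733) (nat_lit 562949953421312) .dd)))) (.br (nat_lit 25) (.ch
 (nat_lit 23) (.ev (nat_lit 720) (nat_lit 27232704013533216) (.ev (nat_lit 752) (nat_lit 562949953421312) (.ev
 (nat_lit 765) (nat_lit 36028797018963968) .dd)))) (.ch (nat_lit 25) (.ev (nat_lit 720) (nat_lit
 45669314971303936) (.ev (nat_lit 768) (nat_lit 32) (.ev (nat_lit 800) (nat_lit 16777216) (.ev (nat_lit 848)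
 (nat_lit 18014398509481984) (.ev (nat_lit 861) (nat_lit 140737488355328) .dd))))))))) (.br (nat_lit 33) (.br
 (nat_lit 29) (.ch (nat_lit 28) (.ev (nat_lit 720) (nat_lit 54183933033578528) (.ev (nat_lit 788) (nat_lit
 633318697598976) (.ev (nat_lit 797) (nat_lit 9007199254740992) .dd)))) (.br (nat_lit 32) (.ch (nat_lit 29)
 (.ev (nat_lit 720) (nat_lit 63824450985918496) .dd)) (.ch (nat_lit 32) (.ev (nat_lit 720) (nat_lit
 36099165779918880) (.ev (nat_lit 816) (nat_lit 562949953421312) (.ev (nat_lit 848) (nat_lit 9147936743096320)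
 (.ev (nat_lit 861) (nat_lit 18014398509481984) .dd))))))) (.br (nat_lit 35) (.br (nat_lit 34) (.ch (nat_lit
 33) (.ev (nat_lit 720) (nat_lit 63683713497563168) (.ev (nat_lit 733) (nat_lit 140737488355328) .dd))) (.ch
 (nat_lit 34) (.ev (nat_lit 720) (nat_lit 27232704013533216) (.ev (nat_lit 788) (nat_lit 36028797018963968)
 (.ev (nat_lit 797) (nat_lit 562949953421312) .dd))))) (.br (nat_lit 42) (.ch (nat_lit 35) (.ev (nat_lit 720)
 (nat_lit 63824450985918464) (.ev (nat_lit 733) (nat_lit 32) .dd))) (.ch (nat_lit 42) (.ev (nat_lit 720)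
 (nat_lit 63824450985918496) .dd)))))))))))))))) (.ch (nat_lit 35) (.ev (nat_lit 52) (nat_lit
 55886535438370816) (.ev (nat_lit 96) (nat_lit 152482946569992245280) .dd)))) (.br (nat_lit 38) (.ch (nat_lit
 36) (.ev (nat_lit 52) (nat_lit 297241991261978656) (.ev (nat_lit 84) (nat_lit 140737492549632) (.ev (nat_lit
 116) (nat_lit 18014398509547520) (.ev (nat_lit 148) (nat_lit 526336) (.ev (nat_lit 180) (nat_lit
 147574515548219768832) (.ev (nat_lit 260) (nat_lit 1125899906842624) (.ev (nat_lit 372) (nat_lit 549755813888)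
 (.ev (nat_lit 464) (nat_lit 4611686018427387904) (.nd (nat_lit 704) (.br (nat_lit 26) (.br (nat_lit 19) (.br
 (nat_lit 8) (.ch (nat_lit 4) (.ev (nat_lit 720) (nat_lit 36107961856200704) .dd)) (.ch (nat_lit 8) (.ev
 (nat_lit 720) (nat_lit 70368744210432) (.ev (nat_lit 788) (nat_lit 36028797018968064) (.ev (nat_lit 797)
 (nat_lit 8796093022208) .dd))))) (.br (nat_lit 20) (.ch (nat_lit 19) (.ev (nat_lit 720) (nat_lit
 36099165763178496) (.ev (nat_lit 733) (nat_lit 8796093022208) .dd))) (.br (nat_lit 23) (.ch (nat_lit 20) (.ev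
 (nat_lit 720) (nat_lit 36107961856163840) (.ev (nat_lit 736) (nat_lit 32768) (.ev (nat_lit 749) (nat_lit 4096)
 .dd)))) (.ch (nat_lit 23) (.ev (nat_lit 720) (nat_lit 36107961856167936) (.ev (nat_lit 733) (nat_lit 32768)
 .dd)))))) (.br (nat_lit 38) (.br (nat_lit 28) (.ch (nat_lit 26) (.ev (nat_lit 720) (nat_lit 36037593112023040)
 (.ev (nat_lit 733) (nat_lit 70368744177664) .dd))) (.br (nat_lit 35) (.ch (nat_lit 28) (.ev (nat_lit 720)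
 (nat_lit 36037593112023040) (.ev (nat_lit 733) (nat_lit 70368744177664) .dd))) (.ch (nat_lit 35) (.ev (nat_lit
 720) (nat_lit 36107961856200704) .dd)))) (.br (nat_lit 40) (.ch (nat_lit 38) (.ev (nat_lit 720) (nat_lit
 36107961856200704) .dd)) (.br (nat_lit 42) (.ch (nat_lit 40) (.ev (nat_lit 720) (nat_lit 36107961856200704)
 .dd)) (.ch (nat_lit 42) (.ev (nat_lit 720) (nat_lit 36037593111990272) (.ev (nat_lit 800) (nat_lit
 70368744210432) .dd))))))))))))))))) (.ch (nat_lit 38) (.ev (nat_lit 52) (nat_lit 147925387859737544704) (.ev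
 (nat_lit 84) (nat_lit 8589934592) (.ev (nat_lit 148) (nat_lit 70368744177664) (.ev (nat_lit 180) (nat_lit
 4611686018427387904) (.ev (nat_lit 288) (nat_lit 1688849931571232) .dd)))))))) (.br (nat_lit 45) (.br (nat_lit
 44) (.ch (nat_lit 42) (.ev (nat_lit 52) (nat_lit 4631530580348602400) (.ev (nat_lit 84) (nat_lit
 70368744177664) (.ev (nat_lit 96) (nat_lit 147907232156337836032) .dd)))) (.ch (nat_lit 44) (.ev (nat_lit 52)
 (nat_lit 4899930138474518560) (.ev (nat_lit 64) (nat_lit 147638902966956097536) .dd)))) (.br (nat_lit 46) (.ch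
 (nat_lit 45) (.ev (nat_lit 52) (nat_lit 325037636009885696) (.ev (nat_lit 64) (nat_lit 152213795469420730400)
 .dd))) (.ch (nat_lit 46) (.ev (nat_lit 52) (nat_lit 147872879024137603104) (.ev (nat_lit 116) (nat_lit
 18018796572770304) (.ev (nat_lit 148) (nat_lit 8796093022208) (.ev (nat_lit 180) (nat_lit 8392704) (.ev
 (nat_lit 212) (nat_lit 549755813888) (.ev (nat_lit 260) (nat_lit 4611686018427387904) (.nd (nat_lit 704) (.br
 (nat_lit 31) (.br (nat_lit 11) (.br (nat_lit 4) (.ch (nat_lit 0) (.ev (nat_lit 720) (nat_lit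
 36099182947205120) (.ev (nat_lit 788) (nat_lit 140737488355328) (.ev (nat_lit 797) (nat_lit 65536) .dd))))
 (.br (nat_lit 8) (.ch (nat_lit 4) (.ev (nat_lit 720) (nat_lit 36169551691448320) (.ev (nat_lit 733) (nat_lit
 70368744177664) .dd))) (.ch (nat_lit 8) (.ev (nat_lit 720) (nat_lit 36099165767401472) (.ev (nat_lit 832)
 (nat_lit 140737488355328) (.ev (nat_lit 845) (nat_lit 17179869184) .dd)))))) (.br (nat_lit 19) (.ch (nat_lit
 11) (.ev (nat_lit 720) (nat_lit 36239920435625984) .dd)) (.br (nat_lit 28) (.ch (nat_lit 19) (.ev (nat_lit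
 720) (nat_lit 36239903255756800) (.ev (nat_lit 733) (nat_lit 17179869184) .dd))) (.ch (nat_lit 28) (.ev
 (nat_lit 720) (nat_lit 36239920435625984) .dd))))) (.br (nat_lit 35) (.br (nat_lit 32) (.ch (nat_lit 31) (.ev
 (nat_lit 720) (nat_lit 211123416662016) (.ev (nat_lit 733) (nat_lit 36028797018963968) .dd))) (.br (nat_lit
 34) (.ch (nat_lit 32) (.ev (nat_lit 720) (nat_lit 36169551691448320) (.ev (nat_lit 733) (nat_lit
 70368744177664) .dd))) (.ch (nat_lit 34) (.ev (nat_lit 720) (nat_lit 211123416662016) (.ev (nat_lit 733)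
 (nat_lit 36028797018963968) .dd))))) (.br (nat_lit 38) (.ch (nat_lit 35) (.ev (nat_lit 720) (nat_lit
 36239920435625984) .dd)) (.br (nat_lit 40) (.ch (nat_lit 38) (.ev (nat_lit 720) (nat_lit 36239920435625984)
 .dd)) (.ch (nat_lit 40) (.ev (nat_lit 720) (nat_lit 36239903251562496) (.ev (nat_lit 864) (nat_lit
 17184063488) .dd))))))))))))))))))))))

/-- Subtrie. -/
noncomputable def T9 : Tr := (.ev (nat_lit 20) (nat_lit 189245087111570266376) (.nd (nat_lit 33) (.br (nat_lit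
 25) (.br (nat_lit 14) (.br (nat_lit 5) (.br (nat_lit 2) (.ch (nat_lit 1) (.ev (nat_lit 52) (nat_lit
 608787661072856514736) (.ev (nat_lit 84) (nat_lit 562949953421312) (.ev (nat_lit 128) (nat_lit
 1476027756848446275586) .dd)))) (.br (nat_lit 3) (.ch (nat_lit 2) (.ev (nat_lit 52) (nat_lit
 904215282568124956800) (.ev (nat_lit 84) (nat_lit 32768) (.ev (nat_lit 160) (nat_lit 1180600698303131222066)
 .dd)))) (.ch (nat_lit 3) (.ev (nat_lit 52) (nat_lit 36592021854519312) (.ev (nat_lit 84) (nat_lit 17188257792)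
 (.ev (nat_lit 116) (nat_lit 524448) (.ev (nat_lit 148) (nat_lit 1475739525896764129280) (.ev (nat_lit 180)
 (nat_lit 297307944687501312) (.ev (nat_lit 212) (nat_lit 65536) (.nd (nat_lit 704) (.br (nat_lit 14) (.br
 (nat_lit 9) (.br (nat_lit 6) (.ch (nat_lit 2) (.ev (nat_lit 720) (nat_lit 590295810917051662336) (.ev (nat_lit
 788) (nat_lit 2) (.ev (nat_lit 797) (nat_lit 18446744073709551616) .dd)))) (.br (nat_lit 7) (.ch (nat_lit 6)
 (.ev (nat_lit 720) (nat_lit 18446744623465627650) (.ev (nat_lit 788) (nat_lit 590295810358705651712) (.ev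
 (nat_lit 797) (nat_lit 8589934592) .dd)))) (.ch (nat_lit 7) (.ev (nat_lit 720) (nat_lit 608742554441005137922)
 (.ev (nat_lit 800) (nat_lit 262144) (.ev (nat_lit 813) (nat_lit 549755813888) .dd)))))) (.br (nat_lit 11) (.ch
 (nat_lit 9) (.ev (nat_lit 720) (nat_lit 608742554990761213954) .dd)) (.br (nat_lit 12) (.ch (nat_lit 11) (.ev
 (nat_lit 720) (nat_lit 608742554990761213954) .dd)) (.ch (nat_lit 12) (.ev (nat_lit 720) (nat_lit
 608742554990761213954) .dd))))) (.br (nat_lit 36) (.br (nat_lit 18) (.ch (nat_lit 14) (.ev (nat_lit 720)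
 (nat_lit 608742554441005137922) (.ev (nat_lit 788) (nat_lit 262144) (.ev (nat_lit 797) (nat_lit 549755813888)
 .dd)))) (.br (nat_lit 27) (.ch (nat_lit 18) (.ev (nat_lit 720) (nat_lit 18446744632055300098) (.ev (nat_lit
 788) (nat_lit 262144) (.ev (nat_lit 797) (nat_lit 590295810358705651712) .dd)))) (.ch (nat_lit 27) (.ev
 (nat_lit 720) (nat_lit 608742554990761213952) (.ev (nat_lit 733) (nat_lit 2) .dd))))) (.br (nat_lit 39) (.br
 (nat_lit 38) (.ch (nat_lit 36) (.ev (nat_lit 720) (nat_lit 590295810917051662338) (.ev (nat_lit 733) (nat_lit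
 18446744073709551616) .dd))) (.ch (nat_lit 38) (.ev (nat_lit 720) (nat_lit 608742554990761213954) .dd))) (.br
 (nat_lit 40) (.ch (nat_lit 39) (.ev (nat_lit 720) (nat_lit 608742554990761213954) .dd)) (.ch (nat_lit 40) (.ev
 (nat_lit 720) (nat_lit 608742554441005137922) (.ev (nat_lit 800) (nat_lit 549756076032) .dd)))))))))))))))))
 (.br (nat_lit 11) (.br (nat_lit 9) (.ch (nat_lit 5) (.ev (nat_lit 52) (nat_lit 313603726821074141330) (.ev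
 (nat_lit 84) (nat_lit 590295810358705651744) (.ev (nat_lit 116) (nat_lit 562950490292224) (.ev (nat_lit 148)
 (nat_lit 17179869184) (.ev (nat_lit 180) (nat_lit 36028805608898560) (.ev (nat_lit 212) (nat_lit 274877906944)
 (.ev (nat_lit 260) (nat_lit 1180591620717411303424) (.nd (nat_lit 704) (.br (nat_lit 19) (.br (nat_lit 14)
 (.br (nat_lit 11) (.ch (nat_lit 7) (.ev (nat_lit 720) (nat_lit 288230925908148224) .dd)) (.ch (nat_lit 11)
 (.ev (nat_lit 720) (nat_lit 288230925908148224) .dd))) (.br (nat_lit 18) (.ch (nat_lit 14) (.ev (nat_lit 720)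
 (nat_lit 288230376151777280) (.ev (nat_lit 788) (nat_lit 557056) (.ev (nat_lit 797) (nat_lit 549755813888)
 .dd)))) (.ch (nat_lit 18) (.ev (nat_lit 720) (nat_lit 288230925908115456) (.ev (nat_lit 733) (nat_lit 32768)
 .dd))))) (.br (nat_lit 32) (.br (nat_lit 31) (.ch (nat_lit 19) (.ev (nat_lit 720) (nat_lit 288230376152334336)
 (.ev (nat_lit 733) (nat_lit 549755813888) .dd))) (.ch (nat_lit 31) (.ev (nat_lit 720) (nat_lit 549756370944)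
 (.ev (nat_lit 816) (nat_lit 288230376151777280) .dd)))) (.br (nat_lit 36) (.ch (nat_lit 32) (.ev (nat_lit 720)
 (nat_lit 549756403712) (.ev (nat_lit 788) (nat_lit 288230376151711744) (.ev (nat_lit 797) (nat_lit 32768)
 .dd)))) (.br (nat_lit 39) (.ch (nat_lit 36) (.ev (nat_lit 720) (nat_lit 288230925908148224) .dd)) (.ch
 (nat_lit 39) (.ev (nat_lit 720) (nat_lit 288230376151777280) (.ev (nat_lit 788) (nat_lit 549755846656) (.ev
 (nat_lit 797) (nat_lit 524288) .dd))))))))))))))))) (.ch (nat_lit 9) (.ev (nat_lit 52) (nat_lit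
 313927915634619318322) (.ev (nat_lit 84) (nat_lit 70368744177664) (.ev (nat_lit 116) (nat_lit 262144) (.ev
 (nat_lit 128) (nat_lit 1770887994867892453504) .dd)))))) (.br (nat_lit 12) (.ch (nat_lit 11) (.ev (nat_lit 52)
 (nat_lit 903936129219342893058) (.ev (nat_lit 84) (nat_lit 32) (.ev (nat_lit 148) (nat_lit 32768) (.ev
 (nat_lit 180) (nat_lit 288230376151711872) (.ev (nat_lit 212) (nat_lit 8589934592) (.ev (nat_lit 308) (nat_lit
 1180591620717411303424) (.ev (nat_lit 480) (nat_lit 262144) (.nd (nat_lit 704) (.br (nat_lit 14) (.br (nat_lit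
 11) (.br (nat_lit 8) (.ch (nat_lit 1) (.ev (nat_lit 720) (nat_lit 549760073744) .dd)) (.br (nat_lit 9) (.ch
 (nat_lit 8) (.ev (nat_lit 720) (nat_lit 549755813904) (.ev (nat_lit 736) (nat_lit 4194304) (.ev (nat_lit 749)
 (nat_lit 65536) .dd)))) (.ch (nat_lit 9) (.ev (nat_lit 720) (nat_lit 65536) (.ev (nat_lit 788) (nat_lit
 4194320) (.ev (nat_lit 797) (nat_lit 549755813888) .dd)))))) (.br (nat_lit 12) (.ch (nat_lit 11) (.ev (nat_lit
 720) (nat_lit 549755879424) (.ev (nat_lit 788) (nat_lit 4194304) (.ev (nat_lit 797) (nat_lit 16) .dd)))) (.br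
 (nat_lit 13) (.ch (nat_lit 12) (.ev (nat_lit 720) (nat_lit 549760008192) (.ev (nat_lit 788) (nat_lit 65536)
 (.ev (nat_lit 797) (nat_lit 16) .dd)))) (.ch (nat_lit 13) (.ev (nat_lit 720) (nat_lit 549760073744) .dd)))))
 (.br (nat_lit 30) (.br (nat_lit 19) (.ch (nat_lit 14) (.ev (nat_lit 720) (nat_lit 4259856) (.ev (nat_lit 733)
 (nat_lit 549755813888) .dd))) (.br (nat_lit 25) (.ch (nat_lit 19) (.ev (nat_lit 720) (nat_lit 549760073744)
 .dd)) (.ch (nat_lit 25) (.ev (nat_lit 720) (nat_lit 549760008208) (.ev (nat_lit 733) (nat_lit 65536) .dd)))))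
 (.br (nat_lit 32) (.br (nat_lit 31) (.ch (nat_lit 30) (.ev (nat_lit 720) (nat_lit 549760073728) (.ev (nat_lit
 733) (nat_lit 16) .dd))) (.ch (nat_lit 31) (.ev (nat_lit 720) (nat_lit 549760073728) (.ev (nat_lit 733)
 (nat_lit 16) .dd)))) (.br (nat_lit 39) (.ch (nat_lit 32) (.ev (nat_lit 720) (nat_lit 549755813904) (.ev
 (nat_lit 788) (nat_lit 65536) (.ev (nat_lit 797) (nat_lit 4194304) .dd)))) (.ch (nat_lit 39) (.ev (nat_lit
 720) (nat_lit 549760008208) (.ev (nat_lit 733) (nat_lit 65536) .dd)))))))))))))))) (.ch (nat_lit 12) (.ev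
 (nat_lit 52) (nat_lit 1476027827466294001808) (.ev (nat_lit 84) (nat_lit 18446744073709617152) (.ev (nat_lit
 116) (nat_lit 4194304) (.ev (nat_lit 148) (nat_lit 536870944) (.ev (nat_lit 212) (nat_lit
 590295810358705651712) (.ev (nat_lit 260) (nat_lit 9007199263129600) (.nd (nat_lit 704) (.br (nat_lit 24) (.br
 (nat_lit 10) (.br (nat_lit 6) (.ch (nat_lit 1) (.ev (nat_lit 720) (nat_lit 36591772742221826) (.ev (nat_lit
 733) (nat_lit 524288) .dd))) (.br (nat_lit 7) (.ch (nat_lit 6) (.ev (nat_lit 720) (nat_lit 36028805608898562)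
 (.ev (nat_lit 788) (nat_lit 524288) (.ev (nat_lit 800) (nat_lit 32768) (.ev (nat_lit 832) (nat_lit
 562949953421312) (.ev (nat_lit 845) (nat_lit 17179869184) .dd)))))) (.ch (nat_lit 7) (.ev (nat_lit 720)
 (nat_lit 36591772742713346) (.ev (nat_lit 733) (nat_lit 32768) .dd))))) (.br (nat_lit 18) (.br (nat_lit 13)
 (.ch (nat_lit 10) (.ev (nat_lit 720) (nat_lit 36591746972418050) (.ev (nat_lit 788) (nat_lit 17179869184) (.ev
 (nat_lit 800) (nat_lit 8589934592) (.ev (nat_lit 813) (nat_lit 524288) .dd))))) (.ch (nat_lit 13) (.ev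
 (nat_lit 720) (nat_lit 562967133847554) (.ev (nat_lit 816) (nat_lit 36028797018963968) (.ev (nat_lit 829)
 (nat_lit 8589934592) .dd))))) (.br (nat_lit 19) (.ch (nat_lit 18) (.ev (nat_lit 720) (nat_lit
 36028814199357442) (.ev (nat_lit 788) (nat_lit 8589967360) (.ev (nat_lit 797) (nat_lit 562949953421312)
 .dd)))) (.ch (nat_lit 19) (.ev (nat_lit 720) (nat_lit 36591772742746114) .dd))))) (.br (nat_lit 32) (.br
 (nat_lit 27) (.ch (nat_lit 24) (.ev (nat_lit 720) (nat_lit 36591755562876930) (.ev (nat_lit 733) (nat_lit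
 17179869184) .dd))) (.br (nat_lit 30) (.ch (nat_lit 27) (.ev (nat_lit 720) (nat_lit 36591772742713344) (.ev
 (nat_lit 788) (nat_lit 2) (.ev (nat_lit 797) (nat_lit 32768) .dd)))) (.ch (nat_lit 30) (.ev (nat_lit 720)
 (nat_lit 36591772742221826) (.ev (nat_lit 733) (nat_lit 524288) .dd))))) (.br (nat_lit 39) (.br (nat_lit 33)
 (.ch (nat_lit 32) (.ev (nat_lit 720) (nat_lit 36028822789324802) (.ev (nat_lit 733) (nat_lit 562949953421312)
 .dd))) (.ch (nat_lit 33) (.ev (nat_lit 720) (nat_lit 36591755562876930) (.ev (nat_lit 733) (nat_lit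
 17179869184) .dd)))) (.br (nat_lit 40) (.ch (nat_lit 39) (.ev (nat_lit 720) (nat_lit 562949953421312) (.ev
 (nat_lit 752) (nat_lit 32768) (.ev (nat_lit 788) (nat_lit 36028805608898562) (.ev (nat_lit 800) (nat_lit
 17179869184) (.ev (nat_lit 813) (nat_lit 524288) .dd)))))) (.ch (nat_lit 40) (.ev (nat_lit 720) (nat_lit
 36591764152811522) (.ev (nat_lit 733) (nat_lit 8589934592) .dd)))))))))))))))))) (.br (nat_lit 19) (.br
 (nat_lit 16) (.br (nat_lit 15) (.ch (nat_lit 14) (.ev (nat_lit 52) (nat_lit 1180591691103335677984) (.ev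
 (nat_lit 84) (nat_lit 36028797019488256) (.ev (nat_lit 116) (nat_lit 8598323216) (.ev (nat_lit 148) (nat_lit
 9007199258935296) (.ev (nat_lit 180) (nat_lit 313594649253062410242) (.ev (nat_lit 212) (nat_lit 274877906944)
 (.nd (nat_lit 704) (.br (nat_lit 14) (.br (nat_lit 9) (.br (nat_lit 6) (.ch (nat_lit 2) (.ev (nat_lit 720)
 (nat_lit 590584040735394234496) (.ev (nat_lit 788) (nat_lit 562949953421312) (.ev (nat_lit 797) (nat_lit
 549755813888) .dd)))) (.br (nat_lit 8) (.ch (nat_lit 6) (.ev (nat_lit 720) (nat_lit 288230926444396672) (.ev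
 (nat_lit 788) (nat_lit 562949953421312) (.ev (nat_lit 797) (nat_lit 590295810358705651712) .dd)))) (.ch
 (nat_lit 8) (.ev (nat_lit 720) (nat_lit 590584604235103469696) .dd)))) (.br (nat_lit 11) (.ch (nat_lit 9) (.ev
 (nat_lit 720) (nat_lit 590584604235103469696) .dd)) (.br (nat_lit 13) (.ch (nat_lit 11) (.ev (nat_lit 720)
 (nat_lit 590584604235103469696) .dd)) (.ch (nat_lit 13) (.ev (nat_lit 720) (nat_lit 288230926444396672) (.ev
 (nat_lit 800) (nat_lit 562949953421312) (.ev (nat_lit 813) (nat_lit 590295810358705651712) .dd))))))) (.br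
 (nat_lit 24) (.br (nat_lit 18) (.ch (nat_lit 14) (.ev (nat_lit 720) (nat_lit 590584603685347655680) (.ev
 (nat_lit 788) (nat_lit 549755813888) (.ev (nat_lit 797) (nat_lit 128) .dd)))) (.br (nat_lit 23) (.ch (nat_lit
 18) (.ev (nat_lit 720) (nat_lit 590296373858414887040) (.ev (nat_lit 788) (nat_lit 288230376151711744) (.ev
 (nat_lit 797) (nat_lit 536870912) .dd)))) (.ch (nat_lit 23) (.ev (nat_lit 720) (nat_lit 288230926444396672)
 (.ev (nat_lit 800) (nat_lit 590296373308659073024) .dd))))) (.br (nat_lit 27) (.br (nat_lit 25) (.ch (nat_lit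
 24) (.ev (nat_lit 720) (nat_lit 590584604235103469696) .dd)) (.ch (nat_lit 25) (.ev (nat_lit 720) (nat_lit
 590584604235103469696) .dd))) (.br (nat_lit 36) (.ch (nat_lit 27) (.ev (nat_lit 720) (nat_lit
 590584604234566598784) (.ev (nat_lit 733) (nat_lit 536870912) .dd))) (.ch (nat_lit 36) (.ev (nat_lit 720)
 (nat_lit 590296373858951757952) (.ev (nat_lit 733) (nat_lit 288230376151711744) .dd))))))))))))))) (.ch
 (nat_lit 15) (.ev (nat_lit 52) (nat_lit 885443715538596135058) (.ev (nat_lit 64) (nat_lit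
 1199372265332660076576) .dd)))) (.br (nat_lit 18) (.ch (nat_lit 16) (.ev (nat_lit 52) (nat_lit
 295184004895417335968) (.ev (nat_lit 116) (nat_lit 274878431234) (.ev (nat_lit 148) (nat_lit
 288230376155906048) (.ev (nat_lit 180) (nat_lit 1180591620717411303440) (.nd (nat_lit 704) (.br (nat_lit 19)
 (.br (nat_lit 9) (.br (nat_lit 7) (.ch (nat_lit 2) (.ev (nat_lit 720) (nat_lit 608743117382368624640) (.ev
 (nat_lit 788) (nat_lit 8589934592) (.ev (nat_lit 816) (nat_lit 9007216434610176) (.ev (nat_lit 829) (nat_lit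
 65536) .dd))))) (.br (nat_lit 8) (.ch (nat_lit 7) (.ev (nat_lit 720) (nat_lit 608743117408138493952) (.ev
 (nat_lit 733) (nat_lit 9007199254740992) .dd))) (.ch (nat_lit 8) (.ev (nat_lit 720) (nat_lit
 590305380516503814144) (.ev (nat_lit 816) (nat_lit 17179869184) (.ev (nat_lit 829) (nat_lit
 18446744073709551616) .dd)))))) (.br (nat_lit 13) (.br (nat_lit 10) (.ch (nat_lit 9) (.ev (nat_lit 720)
 (nat_lit 608752124607393234944) .dd)) (.ch (nat_lit 10) (.ev (nat_lit 720) (nat_lit 608743117382368690176)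
 (.ev (nat_lit 752) (nat_lit 17179869184) (.ev (nat_lit 788) (nat_lit 8589934592) (.ev (nat_lit 797) (nat_lit
 9007199254740992) .dd)))))) (.br (nat_lit 18) (.ch (nat_lit 13) (.ev (nat_lit 720) (nat_lit
 608752124598803300352) (.ev (nat_lit 733) (nat_lit 8589934592) .dd))) (.ch (nat_lit 18) (.ev (nat_lit 720)
 (nat_lit 608751561648849879040) (.ev (nat_lit 788) (nat_lit 8589934592) (.ev (nat_lit 797) (nat_lit
 562949953421312) .dd))))))) (.br (nat_lit 30) (.br (nat_lit 24) (.ch (nat_lit 19) (.ev (nat_lit 720) (nat_lit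
 608752124607393234944) .dd)) (.br (nat_lit 25) (.ch (nat_lit 24) (.ev (nat_lit 720) (nat_lit
 18456314231507648512) (.ev (nat_lit 788) (nat_lit 17179934720) (.ev (nat_lit 797) (nat_lit
 590295810358705651712) .dd)))) (.ch (nat_lit 25) (.ev (nat_lit 720) (nat_lit 608743117399548559360) (.fin
 (nat_lit 576456904017396268)))))) (.br (nat_lit 32) (.br (nat_lit 31) (.ch (nat_lit 30) (.ev (nat_lit 720)
 (nat_lit 590304817583730262016) (.ev (nat_lit 816) (nat_lit 562949953421312) (.ev (nat_lit 829) (nat_lit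
 18446744073709551616) .dd)))) (.ch (nat_lit 31) (.ev (nat_lit 720) (nat_lit 608743117408138493952) (.ev
 (nat_lit 733) (nat_lit 9007199254740992) .dd)))) (.br (nat_lit 33) (.ch (nat_lit 32) (.ev (nat_lit 720)
 (nat_lit 608752124607393169408) (.ev (nat_lit 733) (nat_lit 65536) .dd))) (.ch (nat_lit 33) (.ev (nat_lit 720)
 (nat_lit 590304817566550392832) (.ev (nat_lit 788) (nat_lit 562967133290496) (.ev (nat_lit 797) (nat_lit
 18446744073709551616) .dd)))))))))))))) (.ch (nat_lit 18) (.ev (nat_lit 52) (nat_lit 2066332574664104149122)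
 (.ev (nat_lit 84) (nat_lit 36099182943043632) (.ev (nat_lit 116) (nat_lit 18446744074246422528) (.ev (nat_lit
 212) (nat_lit 8912896) (.nd (nat_lit 704) (.br (nat_lit 31) (.br (nat_lit 24) (.br (nat_lit 23) (.ch (nat_lit
 10) (.ev (nat_lit 720) (nat_lit 562949953683456) .dd)) (.ch (nat_lit 23) (.ev (nat_lit 720) (nat_lit
 562949953421312) (.ev (nat_lit 733) (nat_lit 262144) .dd)))) (.br (nat_lit 25) (.ch (nat_lit 24) (.ev (nat_lit
 720) (nat_lit 562949953683456) .dd)) (.br (nat_lit 30) (.ch (nat_lit 25) (.ev (nat_lit 720) (nat_lit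
 562949953683456) .dd)) (.ch (nat_lit 30) (.ev (nat_lit 720) (nat_lit 562949953421312) (.ev (nat_lit 733)
 (nat_lit 262144) .dd)))))) (.br (nat_lit 38) (.br (nat_lit 32) (.ch (nat_lit 31) (.ev (nat_lit 720) (nat_lit
 562949953421312) (.ev (nat_lit 733) (nat_lit 262144) .dd))) (.br (nat_lit 33) (.ch (nat_lit 32) (.ev (nat_lit
 720) (nat_lit 262144) (.ev (nat_lit 733) (nat_lit 562949953421312) .dd))) (.ch (nat_lit 33) (.ev (nat_lit 720)
 (nat_lit 262144) (.ev (nat_lit 733) (nat_lit 562949953421312) .dd))))) (.br (nat_lit 39) (.ch (nat_lit 38)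
 (.ev (nat_lit 720) (nat_lit 562949953683456) .dd)) (.br (nat_lit 40) (.ch (nat_lit 39) (.ev (nat_lit 720)
 (nat_lit 562949953683456) .dd)) (.ch (nat_lit 40) (.ev (nat_lit 720) (nat_lit 262144) (.ev (nat_lit 733)
 (nat_lit 562949953421312) .dd))))))))))))))) (.br (nat_lit 21) (.br (nat_lit 20) (.ch (nat_lit 19) (.ev
 (nat_lit 52) (nat_lit 590331910374881067026) (.ev (nat_lit 116) (nat_lit 295147905179352825856) (.ev (nat_lit
 148) (nat_lit 128) (.ev (nat_lit 180) (nat_lit 1180879851093563015168) (.nd (nat_lit 704) (.br (nat_lit 25)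
 (.br (nat_lit 14) (.br (nat_lit 8) (.ch (nat_lit 6) (.ev (nat_lit 720) (nat_lit 9570149749751840) (.ev
 (nat_lit 733) (nat_lit 18446744073709551616) .dd))) (.br (nat_lit 12) (.ch (nat_lit 8) (.ev (nat_lit 720)
 (nat_lit 9570149208686624) (.ev (nat_lit 788) (nat_lit 536870912) (.ev (nat_lit 800) (nat_lit
 18446744073709551616) (.ev (nat_lit 813) (nat_lit 4194304) .dd))))) (.ch (nat_lit 12) (.ev (nat_lit 720)
 (nat_lit 9570149749751840) (.ev (nat_lit 733) (nat_lit 18446744073709551616) .dd))))) (.br (nat_lit 18) (.ch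
 (nat_lit 14) (.ev (nat_lit 720) (nat_lit 18456314223458779168) (.ev (nat_lit 733) (nat_lit 524288) .dd))) (.br
 (nat_lit 24) (.ch (nat_lit 18) (.ev (nat_lit 720) (nat_lit 18455751272969011200) (.ev (nat_lit 788) (nat_lit
 562949953421312) (.ev (nat_lit 800) (nat_lit 32) (.ev (nat_lit 813) (nat_lit 536870912) .dd))))) (.ch (nat_lit
 24) (.ev (nat_lit 720) (nat_lit 18456314223459303456) .dd))))) (.br (nat_lit 33) (.br (nat_lit 30) (.ch
 (nat_lit 25) (.ev (nat_lit 720) (nat_lit 18456314223459303424) (.ev (nat_lit 733) (nat_lit 32) .dd))) (.br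
 (nat_lit 32) (.ch (nat_lit 30) (.ev (nat_lit 720) (nat_lit 18456314223459303456) .dd)) (.ch (nat_lit 32) (.ev
 (nat_lit 720) (nat_lit 18456314223459303424) (.ev (nat_lit 733) (nat_lit 32) .dd))))) (.br (nat_lit 38) (.ch
 (nat_lit 33) (.ev (nat_lit 720) (nat_lit 18456314223455109120) (.ev (nat_lit 736) (nat_lit 4194336) .dd)))
 (.br (nat_lit 40) (.ch (nat_lit 38) (.ev (nat_lit 720) (nat_lit 18447307024199843872) (.ev (nat_lit 736)
 (nat_lit 9007199254740992) (.ev (nat_lit 832) (nat_lit 524288) (.ev (nat_lit 845) (nat_lit 4194304) .dd)))))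
 (.ch (nat_lit 40) (.ev (nat_lit 720) (nat_lit 18455751273501687840) (.ev (nat_lit 736) (nat_lit 4194304) (.ev
 (nat_lit 749) (nat_lit 562949953421312) .dd)))))))))))))) (.ch (nat_lit 20) (.ev (nat_lit 52) (nat_lit
 590295810376435826816) (.ev (nat_lit 64) (nat_lit 1494520170494820384818) .dd)))) (.br (nat_lit 22) (.ch
 (nat_lit 21) (.ev (nat_lit 52) (nat_lit 590305381083985543298) (.ev (nat_lit 84) (nat_lit 70368744177664) (.ev
 (nat_lit 128) (nat_lit 1494510529418526490672) .dd)))) (.ch (nat_lit 22) (.ev (nat_lit 52) (nat_lit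
 590620703692388139168) (.ev (nat_lit 116) (nat_lit 9007199254740992) (.ev (nat_lit 148) (nat_lit 8589934592)
 (.ev (nat_lit 180) (nat_lit 4194306) (.nd (nat_lit 704) (.br (nat_lit 25) (.br (nat_lit 12) (.br (nat_lit 6)
 (.ch (nat_lit 2) (.ev (nat_lit 720) (nat_lit 1475739525897309388800) (.ev (nat_lit 788) (nat_lit 262144) (.ev
 (nat_lit 800) (nat_lit 16) (.ev (nat_lit 813) (nat_lit 18446744073709551616) .dd))))) (.br (nat_lit 8) (.ch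
 (nat_lit 6) (.ev (nat_lit 720) (nat_lit 1494186269971010813968) (.ev (nat_lit 733) (nat_lit 8388608) .dd)))
 (.ch (nat_lit 8) (.ev (nat_lit 720) (nat_lit 1494186269970482331664) (.ev (nat_lit 733) (nat_lit 536870912)
 .dd))))) (.br (nat_lit 14) (.ch (nat_lit 12) (.ev (nat_lit 720) (nat_lit 295147905179361476624) (.ev (nat_lit
 788) (nat_lit 18446744073709551616) (.ev (nat_lit 800) (nat_lit 536870912) (.ev (nat_lit 813) (nat_lit
 1180591620717411303424) .dd))))) (.br (nat_lit 23) (.ch (nat_lit 14) (.ev (nat_lit 720) (nat_lit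
 1494186269970482331664) (.ev (nat_lit 733) (nat_lit 536870912) .dd))) (.ch (nat_lit 23) (.ev (nat_lit 720)
 (nat_lit 313594649253607637008) (.ev (nat_lit 736) (nat_lit 1180591620717411303424) (.ev (nat_lit 749)
 (nat_lit 262144) .dd))))))) (.br (nat_lit 33) (.br (nat_lit 30) (.ch (nat_lit 25) (.ev (nat_lit 720) (nat_lit
 18446744074246684688) (.ev (nat_lit 736) (nat_lit 295147905179352825856) (.ev (nat_lit 832) (nat_lit 8388608)
 (.ev (nat_lit 845) (nat_lit 1180591620717411303424) .dd))))) (.br (nat_lit 31) (.ch (nat_lit 30) (.ev (nat_lit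
 720) (nat_lit 313594649253607899136) (.ev (nat_lit 736) (nat_lit 1180591620717411303440) .dd))) (.ch (nat_lit
 31) (.ev (nat_lit 720) (nat_lit 1494186269971019202560) (.ev (nat_lit 733) (nat_lit 16) .dd))))) (.br (nat_lit
 38) (.ch (nat_lit 33) (.ev (nat_lit 720) (nat_lit 1494186269971019202576) .dd)) (.br (nat_lit 39) (.ch
 (nat_lit 38) (.ev (nat_lit 720) (nat_lit 1494186269971019202560) (.ev (nat_lit 733) (nat_lit 16) .dd))) (.ch
 (nat_lit 39) (.ev (nat_lit 720) (nat_lit 1494186269971019202576) .dd)))))))))))))))) (.br (nat_lit 33) (.br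
 (nat_lit 28) (.br (nat_lit 26) (.ch (nat_lit 25) (.ev (nat_lit 52) (nat_lit 1180916513759039619234) (.ev
 (nat_lit 84) (nat_lit 536870928) (.ev (nat_lit 148) (nat_lit 274877906944) (.ev (nat_lit 260) (nat_lit
 295147905179352825856) (.ev (nat_lit 308) (nat_lit 8388608) (.ev (nat_lit 340) (nat_lit 262144) (.nd (nat_lit
 704) (.br (nat_lit 25) (.br (nat_lit 18) (.br (nat_lit 7) (.ch (nat_lit 1) (.ev (nat_lit 720) (nat_lit
 9007225025134592) (.ev (nat_lit 788) (nat_lit 590295810358705651712) (.ev (nat_lit 797) (nat_lit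
 18446744073709551616) .dd)))) (.br (nat_lit 14) (.ch (nat_lit 7) (.ev (nat_lit 720) (nat_lit
 608751561640259944448) (.ev (nat_lit 788) (nat_lit 524288) (.ev (nat_lit 797) (nat_lit 17179869184) .dd))))
 (.ch (nat_lit 14) (.ev (nat_lit 720) (nat_lit 608751561648849813504) (.ev (nat_lit 788) (nat_lit 8589934592)
 (.ev (nat_lit 816) (nat_lit 65536) (.ev (nat_lit 829) (nat_lit 524288) .dd))))))) (.br (nat_lit 19) (.ch
 (nat_lit 18) (.ev (nat_lit 720) (nat_lit 18455751298734686208) (.ev (nat_lit 733) (nat_lit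
 590295810358705651712) .dd))) (.br (nat_lit 24) (.ch (nat_lit 19) (.ev (nat_lit 720) (nat_lit
 18455751281554751488) (.ev (nat_lit 752) (nat_lit 17179869184) (.ev (nat_lit 832) (nat_lit
 590295810358705651712) (.ev (nat_lit 845) (nat_lit 65536) .dd))))) (.ch (nat_lit 24) (.ev (nat_lit 720)
 (nat_lit 608751561640260403200) (.ev (nat_lit 788) (nat_lit 17179869184) (.ev (nat_lit 797) (nat_lit 65536)
 .dd))))))) (.br (nat_lit 33) (.br (nat_lit 27) (.ch (nat_lit 25) (.ev (nat_lit 720) (nat_lit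
 608742554432415793152) (.ev (nat_lit 816) (nat_lit 17179869184) (.fin (nat_lit 576456904017396268))))) (.br
 (nat_lit 31) (.ch (nat_lit 27) (.ev (nat_lit 720) (nat_lit 590304817583730786304) (.ev (nat_lit 733) (nat_lit
 18446744073709551616) .dd))) (.ch (nat_lit 31) (.ev (nat_lit 720) (nat_lit 608751561657440337920) .dd)))) (.br
 (nat_lit 39) (.ch (nat_lit 33) (.ev (nat_lit 720) (nat_lit 608751561657440272384) (.ev (nat_lit 733) (nat_lit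
 65536) .dd))) (.br (nat_lit 40) (.ch (nat_lit 39) (.ev (nat_lit 720) (nat_lit 608751561640260468736) (.ev
 (nat_lit 733) (nat_lit 17179869184) .dd))) (.ch (nat_lit 40) (.ev (nat_lit 720) (nat_lit
 608751561657440337920) .dd)))))))))))))) (.br (nat_lit 27) (.ch (nat_lit 26) (.ev (nat_lit 52) (nat_lit
 9641094019317922) (.ev (nat_lit 84) (nat_lit 18446744073709551632) (.ev (nat_lit 116) (nat_lit
 590295810358705651712) (.ev (nat_lit 148) (nat_lit 8388608) (.ev (nat_lit 180) (nat_lit 288230376151711744)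
 (.nd (nat_lit 704) (.br (nat_lit 25) (.br (nat_lit 14) (.br (nat_lit 8) (.ch (nat_lit 1) (.ev (nat_lit 720)
 (nat_lit 1475775554693783683072) (.ev (nat_lit 733) (nat_lit 274877906944) .dd))) (.br (nat_lit 13) (.ch
 (nat_lit 8) (.ev (nat_lit 720) (nat_lit 1475775554968661524480) (.ev (nat_lit 733) (nat_lit 65536) .dd))) (.ch
 (nat_lit 13) (.ev (nat_lit 720) (nat_lit 274878496768) (.ev (nat_lit 800) (nat_lit 1180591620717411303424)
 (.ev (nat_lit 832) (nat_lit 295147905179352825856) (.ev (nat_lit 845) (nat_lit 36028797018963968) .dd)))))))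
 (.br (nat_lit 19) (.br (nat_lit 18) (.ch (nat_lit 14) (.ev (nat_lit 720) (nat_lit 1475775554968661590016)
 .dd)) (.ch (nat_lit 18) (.ev (nat_lit 720) (nat_lit 1475739525896764719104) (.ev (nat_lit 816) (nat_lit
 36028797018963968) (.ev (nat_lit 829) (nat_lit 274877906944) .dd))))) (.br (nat_lit 23) (.ch (nat_lit 19) (.ev
 (nat_lit 720) (nat_lit 1475775554968661590016) .dd)) (.ch (nat_lit 23) (.ev (nat_lit 720) (nat_lit
 1475775554968661590016) .dd))))) (.br (nat_lit 33) (.br (nat_lit 27) (.ch (nat_lit 25) (.ev (nat_lit 720)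
 (nat_lit 1180627649789308764160) (.ev (nat_lit 733) (nat_lit 295147905179352825856) .dd))) (.br (nat_lit 30)
 (.ch (nat_lit 27) (.ev (nat_lit 720) (nat_lit 1475775554968661590016) .dd)) (.ch (nat_lit 30) (.ev (nat_lit
 720) (nat_lit 1475739526171642626048) (.ev (nat_lit 733) (nat_lit 36028797018963968) .dd))))) (.br (nat_lit
 38) (.br (nat_lit 36) (.ch (nat_lit 33) (.ev (nat_lit 720) (nat_lit 1475775554968661524480) (.ev (nat_lit 733)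
 (nat_lit 65536) .dd))) (.ch (nat_lit 36) (.ev (nat_lit 720) (nat_lit 1180591620992289275904) (.ev (nat_lit
 848) (nat_lit 36028797018963968) (.ev (nat_lit 960) (nat_lit 295147905179352825856) (.ev (nat_lit 973)
 (nat_lit 524288) .dd)))))) (.br (nat_lit 39) (.ch (nat_lit 38) (.ev (nat_lit 720) (nat_lit
 1475775554968661000192) (.ev (nat_lit 736) (nat_lit 524288) (.ev (nat_lit 749) (nat_lit 65536) .dd)))) (.ch
 (nat_lit 39) (.ev (nat_lit 720) (nat_lit 1475775554968661065728) (.ev (nat_lit 733) (nat_lit 524288)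
 .dd)))))))))))))) (.ch (nat_lit 27) (.ev (nat_lit 52) (nat_lit 590305380516508041250) (.ev (nat_lit 84)
 (nat_lit 275414777856) (.ev (nat_lit 116) (nat_lit 1180591620717411303424) (.ev (nat_lit 148) (nat_lit
 18446744073709551632) (.ev (nat_lit 212) (nat_lit 549755813888) (.ev (nat_lit 260) (nat_lit
 295147905179353350144) (.nd (nat_lit 704) (.br (nat_lit 23) (.br (nat_lit 10) (.br (nat_lit 2) (.ch (nat_lit
 1) (.ev (nat_lit 720) (nat_lit 324329559103373440) .dd)) (.br (nat_lit 7) (.ch (nat_lit 2) (.ev (nat_lit 720)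
 (nat_lit 324259190358933504) (.ev (nat_lit 788) (nat_lit 262272) (.ev (nat_lit 797) (nat_lit 70368744177664)
 .dd)))) (.ch (nat_lit 7) (.ev (nat_lit 720) (nat_lit 324329541923504128) (.ev (nat_lit 816) (nat_lit
 17179869184) (.ev (nat_lit 829) (nat_lit 128) .dd)))))) (.br (nat_lit 14) (.br (nat_lit 13) (.ch (nat_lit 10)
 (.ev (nat_lit 720) (nat_lit 288300762076020736) (.ev (nat_lit 788) (nat_lit 36028797018963968) (.ev (nat_lit
 800) (nat_lit 128) (.ev (nat_lit 813) (nat_lit 8388608) .dd))))) (.ch (nat_lit 13) (.ev (nat_lit 720) (nat_lit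
 324259190359195776) (.ev (nat_lit 733) (nat_lit 70368744177664) .dd)))) (.br (nat_lit 19) (.ch (nat_lit 14)
 (.ev (nat_lit 720) (nat_lit 288230393331581056) (.ev (nat_lit 788) (nat_lit 8388608) (.ev (nat_lit 800)
 (nat_lit 70368744177664) (.ev (nat_lit 832) (nat_lit 262144) (.ev (nat_lit 845) (nat_lit 36028797018963968)
 .dd)))))) (.ch (nat_lit 19) (.ev (nat_lit 720) (nat_lit 324329559094984832) (.ev (nat_lit 733) (nat_lit
 8388608) .dd)))))) (.br (nat_lit 31) (.br (nat_lit 24) (.ch (nat_lit 23) (.ev (nat_lit 720) (nat_lit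
 324329559103373312) (.ev (nat_lit 733) (nat_lit 128) .dd))) (.br (nat_lit 30) (.ch (nat_lit 24) (.ev (nat_lit
 720) (nat_lit 262144) (.ev (nat_lit 752) (nat_lit 70368744177664) (.ev (nat_lit 788) (nat_lit
 288230393331581056) (.ev (nat_lit 800) (nat_lit 36028797018963968) (.ev (nat_lit 813) (nat_lit 8388608)
 .dd)))))) (.ch (nat_lit 30) (.ev (nat_lit 720) (nat_lit 288300762084409472) (.ev (nat_lit 733) (nat_lit
 36028797018963968) .dd))))) (.br (nat_lit 36) (.br (nat_lit 33) (.ch (nat_lit 31) (.ev (nat_lit 720) (nat_lit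
 324329559103111296) (.ev (nat_lit 733) (nat_lit 262144) .dd))) (.ch (nat_lit 33) (.ev (nat_lit 720) (nat_lit
 324329559094984832) (.ev (nat_lit 733) (nat_lit 8388608) .dd)))) (.br (nat_lit 39) (.ch (nat_lit 36) (.ev
 (nat_lit 720) (nat_lit 36028814207484032) (.ev (nat_lit 788) (nat_lit 288230376151711744) (.ev (nat_lit 797)
 (nat_lit 70368744177664) .dd)))) (.ch (nat_lit 39) (.ev (nat_lit 720) (nat_lit 288300762084409472) (.ev
 (nat_lit 733) (nat_lit 36028797018963968) .dd))))))))))))))))) (.br (nat_lit 31) (.br (nat_lit 29) (.ch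
 (nat_lit 28) (.ev (nat_lit 52) (nat_lit 1771175731846787137554) (.ev (nat_lit 84) (nat_lit
 18446744073709551648) (.ev (nat_lit 148) (nat_lit 65536) (.ev (nat_lit 260) (nat_lit 9007199254740992) (.ev
 (nat_lit 308) (nat_lit 524288) (.ev (nat_lit 340) (nat_lit 562949953421312) (.nd (nat_lit 704) (.br (nat_lit
 24) (.br (nat_lit 13) (.br (nat_lit 2) (.ch (nat_lit 1) (.ev (nat_lit 720) (nat_lit 295147905179898085504)
 (.ev (nat_lit 752) (nat_lit 36028797018963968) (.ev (nat_lit 832) (nat_lit 549755813888) (.ev (nat_lit 845)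
 (nat_lit 274877906944) .dd))))) (.br (nat_lit 6) (.ch (nat_lit 2) (.ev (nat_lit 720) (nat_lit
 295183934251794956416) (.ev (nat_lit 733) (nat_lit 549755813888) .dd))) (.ch (nat_lit 6) (.ev (nat_lit 720)
 (nat_lit 295183934526664474624) (.ev (nat_lit 788) (nat_lit 128) (.ev (nat_lit 816) (nat_lit 274877906944)
 (.ev (nat_lit 829) (nat_lit 8388608) .dd))))))) (.br (nat_lit 19) (.ch (nat_lit 13) (.ev (nat_lit 720)
 (nat_lit 295147906004523417728) (.ev (nat_lit 788) (nat_lit 8388608) (.ev (nat_lit 797) (nat_lit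
 36028797018963968) .dd)))) (.br (nat_lit 23) (.ch (nat_lit 19) (.ev (nat_lit 720) (nat_lit
 295183934251258085504) (.ev (nat_lit 788) (nat_lit 549755813888) (.ev (nat_lit 797) (nat_lit 536870912)
 .dd)))) (.ch (nat_lit 23) (.ev (nat_lit 720) (nat_lit 295183934801550770304) .dd))))) (.br (nat_lit 36) (.br
 (nat_lit 30) (.ch (nat_lit 24) (.ev (nat_lit 720) (nat_lit 295147906004531806336) (.ev (nat_lit 733) (nat_lit
 36028797018963968) .dd))) (.br (nat_lit 32) (.ch (nat_lit 30) (.ev (nat_lit 720) (nat_lit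
 295183934526672863360) (.ev (nat_lit 733) (nat_lit 274877906944) .dd))) (.ch (nat_lit 32) (.ev (nat_lit 720)
 (nat_lit 295183934801550770304) .dd)))) (.br (nat_lit 38) (.ch (nat_lit 36) (.ev (nat_lit 720) (nat_lit
 295183934801013899392) (.ev (nat_lit 733) (nat_lit 536870912) .dd))) (.br (nat_lit 39) (.ch (nat_lit 38) (.ev
 (nat_lit 720) (nat_lit 825178980352) (.ev (nat_lit 816) (nat_lit 36028797018963968) (.fin (nat_lit
 576456904011104812))))) (.ch (nat_lit 39) (.ev (nat_lit 720) (nat_lit 295147905729653899392) (.ev (nat_lit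
 788) (nat_lit 36028797018963968) (.ev (nat_lit 797) (nat_lit 274877906944) .dd)))))))))))))))) (.ch (nat_lit
 29) (.ev (nat_lit 52) (nat_lit 1199075027199436619824) (.ev (nat_lit 148) (nat_lit 8589934720) (.ev (nat_lit
 180) (nat_lit 295156912378607566848) (.ev (nat_lit 212) (nat_lit 288230376151711746) (.ev (nat_lit 340)
 (nat_lit 590295810908461465600) (.nd (nat_lit 704) (.br (nat_lit 10) (.br (nat_lit 6) (.br (nat_lit 2) (.ch
 (nat_lit 1) (.ev (nat_lit 720) (nat_lit 8388608) (.ev (nat_lit 733) (nat_lit 524288) .dd))) (.ch (nat_lit 2)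
 (.ev (nat_lit 720) (nat_lit 8388608) (.ev (nat_lit 733) (nat_lit 524288) .dd)))) (.br (nat_lit 7) (.ch
 (nat_lit 6) (.ev (nat_lit 720) (nat_lit 8912896) .dd)) (.br (nat_lit 8) (.ch (nat_lit 7) (.ev (nat_lit 720)
 (nat_lit 8388608) (.ev (nat_lit 733) (nat_lit 524288) .dd))) (.ch (nat_lit 8) (.ev (nat_lit 720) (nat_lit
 8912896) .dd))))) (.br (nat_lit 14) (.br (nat_lit 12) (.ch (nat_lit 10) (.ev (nat_lit 720) (nat_lit 8912896)
 .dd)) (.br (nat_lit 13) (.ch (nat_lit 12) (.ev (nat_lit 720) (nat_lit 8912896) .dd)) (.ch (nat_lit 13) (.ev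
 (nat_lit 720) (nat_lit 524288) (.ev (nat_lit 733) (nat_lit 8388608) .dd))))) (.br (nat_lit 18) (.ch (nat_lit
 14) (.ev (nat_lit 720) (nat_lit 8912896) .dd)) (.br (nat_lit 19) (.ch (nat_lit 18) (.ev (nat_lit 720) (nat_lit
 524288) (.ev (nat_lit 733) (nat_lit 8388608) .dd))) (.ch (nat_lit 19) (.ev (nat_lit 720) (nat_lit 524288) (.ev
 (nat_lit 733) (nat_lit 8388608) .dd))))))))))))))) (.br (nat_lit 32) (.ch (nat_lit 31) (.ev (nat_lit 52)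
 (nat_lit 18744545157423562784) (.ev (nat_lit 64) (nat_lit 2066071435713832648850) .dd))) (.ch (nat_lit 32)
 (.ev (nat_lit 52) (nat_lit 608752194976137904144) (.ev (nat_lit 116) (nat_lit 288230376160165888) (.ev
 (nat_lit 148) (nat_lit 1180591620717411303426) (.ev (nat_lit 180) (nat_lit 4194336) (.nd (nat_lit 704) (.br
 (nat_lit 18) (.br (nat_lit 10) (.br (nat_lit 2) (.ch (nat_lit 1) (.ev (nat_lit 720) (nat_lit
 295183934801542643840) .dd)) (.br (nat_lit 7) (.ch (nat_lit 2) (.ev (nat_lit 720) (nat_lit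
 295183934801542381568) (.ev (nat_lit 788) (nat_lit 128) (.ev (nat_lit 797) (nat_lit 262144) .dd)))) (.ch
 (nat_lit 7) (.ev (nat_lit 720) (nat_lit 295183934801542643712) (.ev (nat_lit 733) (nat_lit 128) .dd))))) (.br
 (nat_lit 12) (.br (nat_lit 11) (.ch (nat_lit 10) (.ev (nat_lit 720) (nat_lit 825170853888) (.ev (nat_lit 752)
 (nat_lit 36028797018963968) (.ev (nat_lit 788) (nat_lit 128) (.ev (nat_lit 797) (nat_lit
 295147905179352825856) .dd))))) (.ch (nat_lit 11) (.ev (nat_lit 720) (nat_lit 295183934801542643840) .dd)))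
 (.br (nat_lit 13) (.ch (nat_lit 12) (.ev (nat_lit 720) (nat_lit 295147906003986808960) (.ev (nat_lit 816)
 (nat_lit 36028797018963968) (.ev (nat_lit 829) (nat_lit 536870912) .dd)))) (.ch (nat_lit 13) (.ev (nat_lit
 720) (nat_lit 36029622189817984) (.ev (nat_lit 733) (nat_lit 295147905179352825856) .dd)))))) (.br (nat_lit
 32) (.br (nat_lit 30) (.ch (nat_lit 18) (.ev (nat_lit 720) (nat_lit 550292946944) (.ev (nat_lit 788) (nat_lit
 128) (.ev (nat_lit 816) (nat_lit 295183933976371789824) (.ev (nat_lit 829) (nat_lit 274877906944) .dd)))))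
 (.br (nat_lit 31) (.ch (nat_lit 30) (.ev (nat_lit 720) (nat_lit 295147906003986546816) (.ev (nat_lit 788)
 (nat_lit 537133056) (.ev (nat_lit 797) (nat_lit 36028797018963968) .dd)))) (.ch (nat_lit 31) (.ev (nat_lit
 720) (nat_lit 295183934526664736896) (.ev (nat_lit 733) (nat_lit 274877906944) .dd))))) (.br (nat_lit 38) (.br
 (nat_lit 33) (.ch (nat_lit 32) (.ev (nat_lit 720) (nat_lit 36029622189817984) (.ev (nat_lit 733) (nat_lit
 295147905179352825856) .dd))) (.ch (nat_lit 33) (.ev (nat_lit 720) (nat_lit 295183934801005510784) (.ev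
 (nat_lit 816) (nat_lit 262144) (.ev (nat_lit 829) (nat_lit 536870912) .dd))))) (.br (nat_lit 39) (.ch (nat_lit
 38) (.ev (nat_lit 720) (nat_lit 36029622189817856) (.fin (nat_lit 576456904011104812)))) (.ch (nat_lit 39)
 (.ev (nat_lit 720) (nat_lit 295147905179889959040) (.ev (nat_lit 788) (nat_lit 36029071896870912) (.ev
 (nat_lit 797) (nat_lit 549755813888) .dd))))))))))))))))) (.br (nat_lit 42) (.br (nat_lit 36) (.br (nat_lit
 35) (.ch (nat_lit 33) (.ev (nat_lit 52) (nat_lit 590295811191933501458) (.ev (nat_lit 64) (nat_lit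
 1494520169679322710176) .dd))) (.ch (nat_lit 35) (.ev (nat_lit 52) (nat_lit 1199074957371325808640) (.ev
 (nat_lit 64) (nat_lit 885741023499930402994) .dd)))) (.br (nat_lit 38) (.ch (nat_lit 36) (.ev (nat_lit 52)
 (nat_lit 1494483507563605262514) (.ev (nat_lit 84) (nat_lit 32768) (.ev (nat_lit 116) (nat_lit
 562949953421312) (.ev (nat_lit 128) (nat_lit 590331910357697495040) .dd))))) (.ch (nat_lit 38) (.ev (nat_lit
 52) (nat_lit 313927916192969621504) (.ev (nat_lit 84) (nat_lit 16) (.ev (nat_lit 148) (nat_lit 70368744177664)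
 (.ev (nat_lit 180) (nat_lit 8589934594) (.ev (nat_lit 212) (nat_lit 128) (.ev (nat_lit 308) (nat_lit 4194304)
 (.ev (nat_lit 496) (nat_lit 562949953421312) (.nd (nat_lit 704) (.br (nat_lit 12) (.br (nat_lit 8) (.br
 (nat_lit 6) (.ch (nat_lit 1) (.ev (nat_lit 720) (nat_lit 1770887431350994862112) .dd)) (.br (nat_lit 7) (.ch
 (nat_lit 6) (.ev (nat_lit 720) (nat_lit 1180591620992289210400) (.ev (nat_lit 733) (nat_lit
 590295810358705651712) .dd))) (.ch (nat_lit 7) (.ev (nat_lit 720) (nat_lit 1770887431350994862112) .dd))))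
 (.br (nat_lit 9) (.ch (nat_lit 8) (.ev (nat_lit 720) (nat_lit 1770887431076116955136) (.ev (nat_lit 788)
 (nat_lit 274877906944) (.ev (nat_lit 797) (nat_lit 32) .dd)))) (.br (nat_lit 11) (.ch (nat_lit 9) (.ev
 (nat_lit 720) (nat_lit 590295810633583558656) (.ev (nat_lit 788) (nat_lit 1180591620717411303424) (.ev
 (nat_lit 797) (nat_lit 32) .dd)))) (.ch (nat_lit 11) (.ev (nat_lit 720) (nat_lit 274877906944) (.ev (nat_lit
 788) (nat_lit 1180591620717411303456) (.ev (nat_lit 797) (nat_lit 590295810358705651712) .dd))))))) (.br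
 (nat_lit 31) (.br (nat_lit 19) (.ch (nat_lit 12) (.ev (nat_lit 720) (nat_lit 590295810358705651744) (.ev
 (nat_lit 736) (nat_lit 1180591620717411303424) (.ev (nat_lit 749) (nat_lit 274877906944) .dd)))) (.br (nat_lit
 24) (.ch (nat_lit 19) (.ev (nat_lit 720) (nat_lit 1770887431350994862112) .dd)) (.ch (nat_lit 24) (.ev
 (nat_lit 720) (nat_lit 1770887431076116955168) (.ev (nat_lit 733) (nat_lit 274877906944) .dd))))) (.br
 (nat_lit 33) (.br (nat_lit 32) (.ch (nat_lit 31) (.ev (nat_lit 720) (nat_lit 590295810358705651744) (.ev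
 (nat_lit 788) (nat_lit 274877906944) (.ev (nat_lit 797) (nat_lit 1180591620717411303424) .dd)))) (.ch (nat_lit
 32) (.ev (nat_lit 720) (nat_lit 1770887431350994862080) (.ev (nat_lit 733) (nat_lit 32) .dd)))) (.br (nat_lit
 38) (.ch (nat_lit 33) (.ev (nat_lit 720) (nat_lit 1770887431350994862080) (.ev (nat_lit 733) (nat_lit 32)
 .dd))) (.ch (nat_lit 38) (.ev (nat_lit 720) (nat_lit 1770887431076116955168) (.ev (nat_lit 733) (nat_lit
 274877906944) .dd)))))))))))))))))) (.br (nat_lit 45) (.br (nat_lit 44) (.ch (nat_lit 42) (.ev (nat_lit 52)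
 (nat_lit 313595212779078910000) (.ev (nat_lit 84) (nat_lit 262144) (.ev (nat_lit 96) (nat_lit
 1771220768092177039490) .dd)))) (.ch (nat_lit 44) (.ev (nat_lit 52) (nat_lit 1771175662002024546464) (.ev
 (nat_lit 64) (nat_lit 313640318869231665170) .dd)))) (.br (nat_lit 46) (.ch (nat_lit 45) (.ev (nat_lit 52)
 (nat_lit 2084806972829637836944) (.ev (nat_lit 84) (nat_lit 536870944) (.ev (nat_lit 116) (nat_lit
 549755813888) (.ev (nat_lit 148) (nat_lit 524288) (.ev (nat_lit 180) (nat_lit 2) (.nd (nat_lit 704) (.br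
 (nat_lit 25) (.br (nat_lit 7) (.br (nat_lit 2) (.ch (nat_lit 1) (.ev (nat_lit 720) (nat_lit 9007491325165568)
 .dd)) (.br (nat_lit 6) (.ch (nat_lit 2) (.ev (nat_lit 720) (nat_lit 9007474145230848) (.ev (nat_lit 816)
 (nat_lit 17179869184) (.ev (nat_lit 829) (nat_lit 65536) .dd)))) (.ch (nat_lit 6) (.ev (nat_lit 720) (nat_lit
 9007491325165568) .dd)))) (.br (nat_lit 19) (.br (nat_lit 12) (.ch (nat_lit 7) (.ev (nat_lit 720) (nat_lit
 274886361088) (.ev (nat_lit 800) (nat_lit 4194304) (.ev (nat_lit 832) (nat_lit 9007199254740992) (.ev (nat_lit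
 845) (nat_lit 17179869184) .dd))))) (.ch (nat_lit 12) (.ev (nat_lit 720) (nat_lit 9007216447258624) (.ev
 (nat_lit 733) (nat_lit 274877906944) .dd)))) (.br (nat_lit 24) (.ch (nat_lit 19) (.ev (nat_lit 720) (nat_lit
 9007491325100032) (.ev (nat_lit 733) (nat_lit 65536) .dd))) (.ch (nat_lit 24) (.ev (nat_lit 720) (nat_lit
 9007491316776960) (.ev (nat_lit 733) (nat_lit 8388608) .dd)))))) (.br (nat_lit 33) (.br (nat_lit 27) (.ch
 (nat_lit 25) (.ev (nat_lit 720) (nat_lit 9007216438870016) (.ev (nat_lit 736) (nat_lit 8388608) (.ev (nat_lit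
 749) (nat_lit 274877906944) .dd)))) (.br (nat_lit 30) (.ch (nat_lit 27) (.ev (nat_lit 720) (nat_lit
 274882166784) (.ev (nat_lit 848) (nat_lit 17179869184) (.ev (nat_lit 960) (nat_lit 9007199254740992) (.ev
 (nat_lit 973) (nat_lit 8388608) .dd))))) (.ch (nat_lit 30) (.ev (nat_lit 720) (nat_lit 9007216447258624) (.ev
 (nat_lit 733) (nat_lit 274877906944) .dd))))) (.br (nat_lit 38) (.br (nat_lit 36) (.ch (nat_lit 33) (.ev
 (nat_lit 720) (nat_lit 9007474145296384) (.ev (nat_lit 733) (nat_lit 17179869184) .dd))) (.ch (nat_lit 36)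
 (.ev (nat_lit 720) (nat_lit 9007491325165568) .dd))) (.br (nat_lit 40) (.ch (nat_lit 38) (.ev (nat_lit 720)
 (nat_lit 292070424576) (.ev (nat_lit 733) (nat_lit 9007199254740992) .dd))) (.ch (nat_lit 40) (.ev (nat_lit
 720) (nat_lit 9007491325165568) .dd))))))))))))) (.ch (nat_lit 46) (.ev (nat_lit 52) (nat_lit
 1476037326431251365920) (.ev (nat_lit 84) (nat_lit 549755813904) (.ev (nat_lit 116) (nat_lit
 18446744073709813760) (.ev (nat_lit 148) (nat_lit 36028797018963968) (.ev (nat_lit 180) (nat_lit 17179869312)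
 (.ev (nat_lit 212) (nat_lit 65536) (.ev (nat_lit 260) (nat_lit 4194304) (.nd (nat_lit 704) (.br (nat_lit 13)
 (.br (nat_lit 6) (.br (nat_lit 2) (.ch (nat_lit 1) (.ev (nat_lit 720) (nat_lit 70643630473218) (.ev (nat_lit
 733) (nat_lit 590295810358705651712) .dd))) (.ch (nat_lit 2) (.ev (nat_lit 720) (nat_lit
 590295810633591947266) (.ev (nat_lit 733) (nat_lit 70368744177664) .dd)))) (.br (nat_lit 9) (.ch (nat_lit 6)
 (.ev (nat_lit 720) (nat_lit 274877906946) (.ev (nat_lit 788) (nat_lit 70368752566272) (.ev (nat_lit 797)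
 (nat_lit 590295810358705651712) .dd)))) (.ch (nat_lit 9) (.ev (nat_lit 720) (nat_lit 590295881002336124930)
 .dd)))) (.br (nat_lit 27) (.br (nat_lit 24) (.ch (nat_lit 13) (.ev (nat_lit 720) (nat_lit
 590295881002336124930) .dd)) (.ch (nat_lit 24) (.ev (nat_lit 720) (nat_lit 274877906946) (.ev (nat_lit 788)
 (nat_lit 590295880727449829376) (.ev (nat_lit 797) (nat_lit 8388608) .dd))))) (.br (nat_lit 31) (.ch (nat_lit
 27) (.ev (nat_lit 720) (nat_lit 590295881002336124930) .dd)) (.br (nat_lit 32) (.ch (nat_lit 31) (.ev (nat_lit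
 720) (nat_lit 590295810633591947264) (.ev (nat_lit 788) (nat_lit 2) (.ev (nat_lit 797) (nat_lit
 70368744177664) .dd)))) (.ch (nat_lit 32) (.ev (nat_lit 720) (nat_lit 590295880727458217984) (.ev (nat_lit
 816) (nat_lit 274877906946) .dd)))))))))))))))))))))))

/-- Subtrie. -/
noncomputable def T10 : Tr := (.ev (nat_lit 20) (nat_lit 885903879640367859994) (.nd (nat_lit 33) (.br (nat_lit
 25) (.br (nat_lit 14) (.br (nat_lit 5) (.br (nat_lit 2) (.ch (nat_lit 1) (.ev (nat_lit 52) (nat_lit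
 166056734256514994336) (.ev (nat_lit 84) (nat_lit 4611967501994033152) (.ev (nat_lit 148) (nat_lit
 36893488147486212096) (.ev (nat_lit 180) (nat_lit 4194304) (.ev (nat_lit 212) (nat_lit 1180591620717411303424)
 (.nd (nat_lit 704) (.br (nat_lit 21) (.br (nat_lit 16) (.br (nat_lit 8) (.ch (nat_lit 3) (.ev (nat_lit 720)
 (nat_lit 3377719047880704) .dd)) (.ch (nat_lit 8) (.ev (nat_lit 720) (nat_lit 2251801961168896) (.ev (nat_lit
 752) (nat_lit 17179869184) (.ev (nat_lit 765) (nat_lit 1125899906842624) .dd))))) (.br (nat_lit 17) (.ch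
 (nat_lit 16) (.ev (nat_lit 720) (nat_lit 3377719047880704) .dd)) (.br (nat_lit 19) (.ch (nat_lit 17) (.ev
 (nat_lit 720) (nat_lit 3377716900397056) (.ev (nat_lit 733) (nat_lit 2147483648) .dd))) (.ch (nat_lit 19) (.ev
 (nat_lit 720) (nat_lit 3377719047880704) .dd))))) (.br (nat_lit 29) (.br (nat_lit 25) (.ch (nat_lit 21) (.ev
 (nat_lit 720) (nat_lit 3377719047880704) .dd)) (.br (nat_lit 28) (.ch (nat_lit 25) (.ev (nat_lit 720) (nat_lit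
 2147483648) (.ev (nat_lit 788) (nat_lit 1125917086711808) (.ev (nat_lit 797) (nat_lit 2251799813685248)
 .dd)))) (.ch (nat_lit 28) (.ev (nat_lit 720) (nat_lit 3377716900397056) (.ev (nat_lit 733) (nat_lit
 2147483648) .dd))))) (.br (nat_lit 32) (.ch (nat_lit 29) (.ev (nat_lit 720) (nat_lit 3377719047880704) .dd))
 (.br (nat_lit 34) (.ch (nat_lit 32) (.ev (nat_lit 720) (nat_lit 1125917086711808) (.ev (nat_lit 788) (nat_lit
 2251799813685248) (.ev (nat_lit 797) (nat_lit 2147483648) .dd)))) (.ch (nat_lit 34) (.ev (nat_lit 720)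
 (nat_lit 3377719047880704) .dd))))))))))))) (.br (nat_lit 3) (.ch (nat_lit 2) (.ev (nat_lit 52) (nat_lit
 18486150579106353280) (.ev (nat_lit 84) (nat_lit 147573952589680607232) (.ev (nat_lit 148) (nat_lit 16777216)
 (.ev (nat_lit 180) (nat_lit 36893488147419103232) (.ev (nat_lit 308) (nat_lit 1180591902192388014080) (.nd
 (nat_lit 704) (.br (nat_lit 25) (.br (nat_lit 16) (.br (nat_lit 13) (.ch (nat_lit 4) (.ev (nat_lit 720)
 (nat_lit 4611694816667893760) (.ev (nat_lit 928) (nat_lit 32) (.ev (nat_lit 941) (nat_lit 17179869184) .dd))))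
 (.br (nat_lit 15) (.ch (nat_lit 13) (.ev (nat_lit 720) (nat_lit 4611694833847762944) (.ev (nat_lit 733)
 (nat_lit 32) .dd))) (.ch (nat_lit 15) (.ev (nat_lit 720) (nat_lit 19327352864) (.ev (nat_lit 788) (nat_lit
 4611686018427387904) (.ev (nat_lit 797) (nat_lit 8796093022208) .dd)))))) (.br (nat_lit 19) (.ch (nat_lit 16)
 (.ev (nat_lit 720) (nat_lit 4611694833847762976) .dd)) (.br (nat_lit 21) (.ch (nat_lit 19) (.ev (nat_lit 720)
 (nat_lit 19327352864) (.ev (nat_lit 788) (nat_lit 8796093022208) (.ev (nat_lit 797) (nat_lit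
 4611686018427387904) .dd)))) (.ch (nat_lit 21) (.ev (nat_lit 720) (nat_lit 4611686037754740736) (.ev (nat_lit
 788) (nat_lit 8796093022208) (.ev (nat_lit 797) (nat_lit 32) .dd))))))) (.br (nat_lit 31) (.br (nat_lit 29)
 (.ch (nat_lit 25) (.ev (nat_lit 720) (nat_lit 4611694833847762976) .dd)) (.br (nat_lit 30) (.ch (nat_lit 29)
 (.ev (nat_lit 720) (nat_lit 4611694833847762976) .dd)) (.ch (nat_lit 30) (.ev (nat_lit 720) (nat_lit
 19327352864) (.ev (nat_lit 800) (nat_lit 8796093022208) (.ev (nat_lit 813) (nat_lit 4611686018427387904)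
 .dd)))))) (.br (nat_lit 35) (.br (nat_lit 32) (.ch (nat_lit 31) (.ev (nat_lit 720) (nat_lit
 4611694833847762944) (.ev (nat_lit 733) (nat_lit 32) .dd))) (.ch (nat_lit 32) (.ev (nat_lit 720) (nat_lit
 4611694831700279328) (.ev (nat_lit 733) (nat_lit 2147483648) .dd)))) (.br (nat_lit 42) (.ch (nat_lit 35) (.ev
 (nat_lit 720) (nat_lit 4611694816667893760) (.ev (nat_lit 736) (nat_lit 17179869216) .dd))) (.ch (nat_lit 42)
 (.ev (nat_lit 720) (nat_lit 4611686035607257120) (.fin (nat_lit 576461302078587464))))))))))))))) (.ch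
 (nat_lit 3) (.ev (nat_lit 52) (nat_lit 189116290250693410816) (.ev (nat_lit 84) (nat_lit 281492156579840) (.ev
 (nat_lit 148) (nat_lit 16777216) (.ev (nat_lit 260) (nat_lit 1180591620717411303424) (.ev (nat_lit 308)
 (nat_lit 32) (.nd (nat_lit 704) (.br (nat_lit 28) (.br (nat_lit 13) (.br (nat_lit 5) (.ch (nat_lit 3) (.ev
 (nat_lit 720) (nat_lit 18448995873590612096) (.ev (nat_lit 733) (nat_lit 8589934592) .dd))) (.br (nat_lit 8)
 (.ch (nat_lit 5) (.ev (nat_lit 720) (nat_lit 18446744082299748480) (.ev (nat_lit 788) (nat_lit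
 2251799813689344) (.ev (nat_lit 797) (nat_lit 67108864) .dd)))) (.ch (nat_lit 8) (.ev (nat_lit 720) (nat_lit
 18448995882180284544) (.ev (nat_lit 733) (nat_lit 262144) .dd))))) (.br (nat_lit 18) (.br (nat_lit 17) (.ch
 (nat_lit 13) (.ev (nat_lit 720) (nat_lit 18446744073709817856) (.ev (nat_lit 788) (nat_lit 2251808403619840)
 (.ev (nat_lit 848) (nat_lit 67108992) .dd)))) (.ch (nat_lit 17) (.ev (nat_lit 720) (nat_lit
 18448995882180284544) (.ev (nat_lit 733) (nat_lit 262144) .dd)))) (.br (nat_lit 21) (.ch (nat_lit 18) (.ev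
 (nat_lit 720) (nat_lit 18446744082366861312) (.ev (nat_lit 832) (nat_lit 2251799813685376) .dd))) (.ch
 (nat_lit 21) (.ev (nat_lit 720) (nat_lit 18448995882180280448) (.ev (nat_lit 800) (nat_lit 262144) (.ev
 (nat_lit 813) (nat_lit 4096) .dd))))))) (.br (nat_lit 31) (.br (nat_lit 29) (.ch (nat_lit 28) (.ev (nat_lit
 720) (nat_lit 18448995873590612096) (.ev (nat_lit 733) (nat_lit 8589934592) .dd))) (.br (nat_lit 30) (.ch
 (nat_lit 29) (.ev (nat_lit 720) (nat_lit 2251808470994944) (.ev (nat_lit 832) (nat_lit 128) (.ev (nat_lit 845)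
 (nat_lit 18446744073709551616) .dd)))) (.ch (nat_lit 30) (.ev (nat_lit 720) (nat_lit 18448995882180546560)
 (.ev (nat_lit 733) (nat_lit 128) .dd))))) (.br (nat_lit 35) (.br (nat_lit 32) (.ch (nat_lit 31) (.ev (nat_lit
 720) (nat_lit 18448995873523236992) (.ev (nat_lit 864) (nat_lit 4096) (.ev (nat_lit 944) (nat_lit 8589934592)
 (.ev (nat_lit 976) (nat_lit 67371008) .dd))))) (.ch (nat_lit 32) (.ev (nat_lit 720) (nat_lit 2251808470995072)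
 (.ev (nat_lit 733) (nat_lit 18446744073709551616) .dd)))) (.br (nat_lit 42) (.ch (nat_lit 35) (.ev (nat_lit
 720) (nat_lit 2251808470995072) (.ev (nat_lit 733) (nat_lit 18446744073709551616) .dd))) (.ch (nat_lit 42)
 (.ev (nat_lit 720) (nat_lit 18448995882180284544) (.ev (nat_lit 733) (nat_lit 262144) .dd)))))))))))))))) (.br
 (nat_lit 11) (.br (nat_lit 9) (.ch (nat_lit 5) (.ev (nat_lit 52) (nat_lit 166020978140598505600) (.ev (nat_lit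
 116) (nat_lit 8589934592) (.ev (nat_lit 160) (nat_lit 1222136210193270177824) .dd)))) (.ch (nat_lit 9) (.ev
 (nat_lit 52) (nat_lit 55377668401709191200) (.ev (nat_lit 84) (nat_lit 4611694814520410112) (.ev (nat_lit 180)
 (nat_lit 147573952589676413056) (.ev (nat_lit 212) (nat_lit 1180593872517224988672) (.nd (nat_lit 704) (.br
 (nat_lit 25) (.br (nat_lit 9) (.br (nat_lit 4) (.ch (nat_lit 3) (.ev (nat_lit 720) (nat_lit 19327614976) .dd))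
 (.br (nat_lit 5) (.ch (nat_lit 4) (.ev (nat_lit 720) (nat_lit 19327614976) .dd)) (.ch (nat_lit 5) (.ev
 (nat_lit 720) (nat_lit 2147745792) (.ev (nat_lit 733) (nat_lit 17179869184) .dd))))) (.br (nat_lit 17) (.br
 (nat_lit 13) (.ch (nat_lit 9) (.ev (nat_lit 720) (nat_lit 19327614976) .dd)) (.ch (nat_lit 13) (.ev (nat_lit
 720) (nat_lit 19327614976) .dd))) (.br (nat_lit 18) (.ch (nat_lit 17) (.ev (nat_lit 720) (nat_lit 19327614976)
 .dd)) (.ch (nat_lit 18) (.ev (nat_lit 720) (nat_lit 17179869184) (.ev (nat_lit 788) (nat_lit 262144) (.ev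
 (nat_lit 797) (nat_lit 2147483648) .dd))))))) (.br (nat_lit 30) (.br (nat_lit 28) (.ch (nat_lit 25) (.ev
 (nat_lit 720) (nat_lit 2147745792) (.ev (nat_lit 733) (nat_lit 17179869184) .dd))) (.br (nat_lit 29) (.ch
 (nat_lit 28) (.ev (nat_lit 720) (nat_lit 2147745792) (.ev (nat_lit 733) (nat_lit 17179869184) .dd))) (.ch
 (nat_lit 29) (.ev (nat_lit 720) (nat_lit 2147745792) (.ev (nat_lit 733) (nat_lit 17179869184) .dd))))) (.br
 (nat_lit 35) (.br (nat_lit 34) (.ch (nat_lit 30) (.ev (nat_lit 720) (nat_lit 19327614976) .dd)) (.ch (nat_lit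
 34) (.ev (nat_lit 720) (nat_lit 2147745792) (.ev (nat_lit 733) (nat_lit 17179869184) .dd)))) (.br (nat_lit 36)
 (.ch (nat_lit 35) (.ev (nat_lit 720) (nat_lit 2147745792) (.ev (nat_lit 733) (nat_lit 17179869184) .dd))) (.ch
 (nat_lit 36) (.ev (nat_lit 720) (nat_lit 2147745792) (.ev (nat_lit 733) (nat_lit 17179869184)
 .dd)))))))))))))) (.br (nat_lit 12) (.ch (nat_lit 11) (.ev (nat_lit 52) (nat_lit 207563025543338131456) (.ev
 (nat_lit 84) (nat_lit 8796093026304) (.ev (nat_lit 148) (nat_lit 1180591620719562981376) (.ev (nat_lit 180)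
 (nat_lit 83886080) (.ev (nat_lit 212) (nat_lit 32) (.ev (nat_lit 512) (nat_lit 262144) (.nd (nat_lit 704) (.br
 (nat_lit 18) (.br (nat_lit 8) (.br (nat_lit 4) (.ch (nat_lit 3) (.ev (nat_lit 720) (nat_lit 2533274790396032)
 (.ev (nat_lit 733) (nat_lit 8589934592) .dd))) (.br (nat_lit 7) (.ch (nat_lit 4) (.ev (nat_lit 720) (nat_lit
 2533283380330496) (.ev (nat_lit 733) (nat_lit 128) .dd))) (.ch (nat_lit 7) (.ev (nat_lit 720) (nat_lit
 281483566645376) (.ev (nat_lit 733) (nat_lit 2251799813685248) .dd))))) (.br (nat_lit 9) (.ch (nat_lit 8) (.ev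
 (nat_lit 720) (nat_lit 2533283380330624) .dd)) (.br (nat_lit 13) (.ch (nat_lit 9) (.ev (nat_lit 720) (nat_lit
 2533283380330496) (.ev (nat_lit 733) (nat_lit 128) .dd))) (.ch (nat_lit 13) (.ev (nat_lit 720) (nat_lit
 281483566645248) (.ev (nat_lit 788) (nat_lit 2251799813685248) (.ev (nat_lit 797) (nat_lit 128) .dd)))))))
 (.br (nat_lit 28) (.br (nat_lit 21) (.ch (nat_lit 18) (.ev (nat_lit 720) (nat_lit 2251808403619840) (.ev
 (nat_lit 788) (nat_lit 281474976710656) (.ev (nat_lit 797) (nat_lit 128) .dd)))) (.br (nat_lit 25) (.ch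
 (nat_lit 21) (.ev (nat_lit 720) (nat_lit 2533283380330624) .dd)) (.ch (nat_lit 25) (.ev (nat_lit 720) (nat_lit
 2533283380330624) .dd)))) (.br (nat_lit 34) (.br (nat_lit 33) (.ch (nat_lit 28) (.ev (nat_lit 720) (nat_lit
 2251799813685248) (.ev (nat_lit 788) (nat_lit 281474976710784) (.ev (nat_lit 797) (nat_lit 8589934592) .dd))))
 (.ch (nat_lit 33) (.ev (nat_lit 720) (nat_lit 8589934720) (.ev (nat_lit 736) (nat_lit 281474976710656) (.ev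
 (nat_lit 749) (nat_lit 2251799813685248) .dd))))) (.br (nat_lit 42) (.ch (nat_lit 34) (.ev (nat_lit 720)
 (nat_lit 281483566645376) (.ev (nat_lit 733) (nat_lit 2251799813685248) .dd))) (.ch (nat_lit 42) (.ev (nat_lit
 720) (nat_lit 8589934720) (.ev (nat_lit 788) (nat_lit 2251799813685248) (.ev (nat_lit 797) (nat_lit
 281474976710656) .dd)))))))))))))))) (.ch (nat_lit 12) (.ev (nat_lit 52) (nat_lit 1180593036888472027264) (.ev
 (nat_lit 84) (nat_lit 4611686020574871552) (.ev (nat_lit 116) (nat_lit 36893488147419103232) (.ev (nat_lit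
 160) (nat_lit 166058977285992615968) .dd)))))))) (.br (nat_lit 19) (.br (nat_lit 16) (.br (nat_lit 15) (.ch
 (nat_lit 14) (.ev (nat_lit 52) (nat_lit 1185204441451166171168) (.ev (nat_lit 84) (nat_lit 281474980904960)
 (.ev (nat_lit 116) (nat_lit 147573952589676413056) (.ev (nat_lit 148) (nat_lit 8589934592) (.ev (nat_lit 180)
 (nat_lit 16777216) (.ev (nat_lit 528) (nat_lit 18446744073709551616) (.nd (nat_lit 704) (.br (nat_lit 17) (.br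
 (nat_lit 13) (.br (nat_lit 5) (.ch (nat_lit 3) (.ev (nat_lit 720) (nat_lit 36931768744251756544) (.ev (nat_lit
 733) (nat_lit 67108864) .dd))) (.br (nat_lit 8) (.ch (nat_lit 5) (.ev (nat_lit 720) (nat_lit
 36931768744318861312) (.ev (nat_lit 733) (nat_lit 4096) .dd))) (.ch (nat_lit 8) (.ev (nat_lit 720) (nat_lit
 38280596832649216) (.ev (nat_lit 752) (nat_lit 36893488147419103232) (.ev (nat_lit 848) (nat_lit 67108864)
 (.ev (nat_lit 861) (nat_lit 4096) .dd))))))) (.br (nat_lit 15) (.ch (nat_lit 13) (.ev (nat_lit 720) (nat_lit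
 36929516944438071296) (.ev (nat_lit 736) (nat_lit 67108864) (.ev (nat_lit 749) (nat_lit 2251799813685248)
 .dd)))) (.br (nat_lit 16) (.ch (nat_lit 15) (.ev (nat_lit 720) (nat_lit 36931768744318865408) .dd)) (.ch
 (nat_lit 16) (.ev (nat_lit 720) (nat_lit 36931768744318865408) .dd))))) (.br (nat_lit 30) (.br (nat_lit 25)
 (.ch (nat_lit 17) (.ev (nat_lit 720) (nat_lit 36931768744318865408) .dd)) (.br (nat_lit 28) (.ch (nat_lit 25)
 (.ev (nat_lit 720) (nat_lit 36931768744318865408) .dd)) (.ch (nat_lit 28) (.ev (nat_lit 720) (nat_lit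
 36895739947299901440) (.ev (nat_lit 733) (nat_lit 36028797018963968) .dd))))) (.br (nat_lit 35) (.ch (nat_lit
 30) (.ev (nat_lit 720) (nat_lit 36931768744318861312) (.ev (nat_lit 733) (nat_lit 4096) .dd))) (.br (nat_lit
 42) (.ch (nat_lit 35) (.ev (nat_lit 720) (nat_lit 36895739947299901440) (.ev (nat_lit 733) (nat_lit
 36028797018963968) .dd))) (.ch (nat_lit 42) (.ev (nat_lit 720) (nat_lit 38280596899762176) (.ev (nat_lit 733)
 (nat_lit 36893488147419103232) .dd))))))))))))))) (.ch (nat_lit 15) (.ev (nat_lit 52) (nat_lit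
 4615345195289153664) (.ev (nat_lit 128) (nat_lit 1383541843147169464352) .dd)))) (.br (nat_lit 18) (.ch
 (nat_lit 16) (.ev (nat_lit 52) (nat_lit 189115445823611863200) (.ev (nat_lit 84) (nat_lit 4194304) (.ev
 (nat_lit 116) (nat_lit 18446744073709555712) (.ev (nat_lit 180) (nat_lit 1125908496777216) (.nd (nat_lit 704)
 (.br (nat_lit 15) (.br (nat_lit 8) (.br (nat_lit 5) (.ch (nat_lit 4) (.ev (nat_lit 720) (nat_lit
 1180593872536636227584) .dd)) (.br (nat_lit 7) (.ch (nat_lit 5) (.ev (nat_lit 720) (nat_lit 19394461696) (.ev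
 (nat_lit 788) (nat_lit 2251799813685248) (.ev (nat_lit 800) (nat_lit 16777216) (.ev (nat_lit 813) (nat_lit
 1180591620717411303424) .dd))))) (.ch (nat_lit 7) (.ev (nat_lit 720) (nat_lit 1180591620736822542336) (.ev
 (nat_lit 733) (nat_lit 2251799813685248) .dd))))) (.br (nat_lit 9) (.ch (nat_lit 8) (.ev (nat_lit 720)
 (nat_lit 1180593872519456358400) (.ev (nat_lit 733) (nat_lit 17179869184) .dd))) (.br (nat_lit 13) (.ch
 (nat_lit 9) (.ev (nat_lit 720) (nat_lit 1180591620736822542336) (.ev (nat_lit 733) (nat_lit 2251799813685248)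
 .dd))) (.ch (nat_lit 13) (.ev (nat_lit 720) (nat_lit 1180593872536569118720) (.ev (nat_lit 733) (nat_lit
 67108864) .dd)))))) (.br (nat_lit 33) (.br (nat_lit 17) (.ch (nat_lit 15) (.ev (nat_lit 720) (nat_lit
 2251819208146944) (.ev (nat_lit 788) (nat_lit 1180591620717411303424) (.ev (nat_lit 797) (nat_lit 16777216)
 .dd)))) (.br (nat_lit 18) (.ch (nat_lit 17) (.ev (nat_lit 720) (nat_lit 2251819208146944) (.ev (nat_lit 752)
 (nat_lit 1180591620717411303424) (.ev (nat_lit 765) (nat_lit 16777216) .dd)))) (.ch (nat_lit 18) (.ev (nat_lit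
 720) (nat_lit 1180593872536636227584) .dd)))) (.br (nat_lit 36) (.br (nat_lit 34) (.ch (nat_lit 33) (.ev
 (nat_lit 720) (nat_lit 1180591620736822542336) (.ev (nat_lit 733) (nat_lit 2251799813685248) .dd))) (.ch
 (nat_lit 34) (.ev (nat_lit 720) (nat_lit 1180591620736822542336) (.ev (nat_lit 733) (nat_lit 2251799813685248)
 .dd)))) (.br (nat_lit 42) (.ch (nat_lit 36) (.ev (nat_lit 720) (nat_lit 1180593872519456358400) (.ev (nat_lit
 733) (nat_lit 17179869184) .dd))) (.ch (nat_lit 42) (.ev (nat_lit 720) (nat_lit 1180593872517292097536) (.ev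
 (nat_lit 788) (nat_lit 17179869184) (.ev (nat_lit 800) (nat_lit 2147483648) (.ev (nat_lit 813) (nat_lit
 16777216) .dd))))))))))))))) (.ch (nat_lit 18) (.ev (nat_lit 52) (nat_lit 1328168106592686837888) (.ev
 (nat_lit 116) (nat_lit 4611686018427387904) (.ev (nat_lit 148) (nat_lit 16777216) (.ev (nat_lit 180) (nat_lit
 36028797018963968) (.ev (nat_lit 240) (nat_lit 55341366934308651040) .dd)))))))) (.br (nat_lit 21) (.br
 (nat_lit 20) (.ch (nat_lit 19) (.ev (nat_lit 52) (nat_lit 38289418695741440) (.ev (nat_lit 84) (nat_lit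
 18446744073709551616) (.ev (nat_lit 180) (nat_lit 128) (.ev (nat_lit 212) (nat_lit 147573952589676412928) (.ev
 (nat_lit 228) (nat_lit 1180591620717411303424) (.nd (nat_lit 704) (.br (nat_lit 21) (.br (nat_lit 9) (.br
 (nat_lit 5) (.ch (nat_lit 3) (.ev (nat_lit 720) (nat_lit 41506581542898499616) (.ev (nat_lit 733) (nat_lit
 67108864) .dd))) (.br (nat_lit 7) (.ch (nat_lit 5) (.ev (nat_lit 720) (nat_lit 41506300067988897792) (.ev
 (nat_lit 752) (nat_lit 281474976710656) (.ev (nat_lit 765) (nat_lit 32) .dd)))) (.ch (nat_lit 7) (.ev (nat_lit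
 720) (nat_lit 4612811920569794592) (.ev (nat_lit 864) (nat_lit 36893769622395813888) .dd))))) (.br (nat_lit
 16) (.br (nat_lit 15) (.ch (nat_lit 9) (.ev (nat_lit 720) (nat_lit 41506581542965608480) .dd)) (.ch (nat_lit
 15) (.ev (nat_lit 720) (nat_lit 36894895524521443360) (.ev (nat_lit 752) (nat_lit 4611686018427387904) (.ev
 (nat_lit 765) (nat_lit 16777216) .dd))))) (.br (nat_lit 18) (.ch (nat_lit 16) (.ev (nat_lit 720) (nat_lit
 41506300067988897824) (.ev (nat_lit 733) (nat_lit 281474976710656) .dd))) (.ch (nat_lit 18) (.ev (nat_lit 720)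
 (nat_lit 41506300065841414176) (.ev (nat_lit 800) (nat_lit 2147483648) (.ev (nat_lit 813) (nat_lit
 281474976710656) .dd))))))) (.br (nat_lit 32) (.br (nat_lit 28) (.ch (nat_lit 21) (.ev (nat_lit 720) (nat_lit
 36894895524538220576) (.ev (nat_lit 733) (nat_lit 4611686018427387904) .dd))) (.br (nat_lit 31) (.ch (nat_lit
 28) (.ev (nat_lit 720) (nat_lit 4611967495639662624) (.ev (nat_lit 788) (nat_lit 36893488147419103232) (.ev
 (nat_lit 797) (nat_lit 1125899906842624) .dd)))) (.ch (nat_lit 31) (.ev (nat_lit 720) (nat_lit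
 36894895524471111680) (.ev (nat_lit 800) (nat_lit 32) (.ev (nat_lit 832) (nat_lit 4611686018427387904) (.ev
 (nat_lit 845) (nat_lit 67108864) .dd))))))) (.br (nat_lit 34) (.br (nat_lit 33) (.ch (nat_lit 32) (.ev
 (nat_lit 720) (nat_lit 41506581540813930496) (.ev (nat_lit 800) (nat_lit 2151677984) .dd))) (.ch (nat_lit 33)
 (.ev (nat_lit 720) (nat_lit 41506300067988897824) (.ev (nat_lit 733) (nat_lit 281474976710656) .dd)))) (.br
 (nat_lit 36) (.ch (nat_lit 34) (.ev (nat_lit 720) (nat_lit 41506300067988897824) (.ev (nat_lit 733) (nat_lit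
 281474976710656) .dd))) (.ch (nat_lit 36) (.ev (nat_lit 720) (nat_lit 41506300065774305312) (.ev (nat_lit 788)
 (nat_lit 2147483648) (.ev (nat_lit 800) (nat_lit 67108864) (.ev (nat_lit 813) (nat_lit 281474976710656)
 .dd)))))))))))))))) (.ch (nat_lit 20) (.ev (nat_lit 52) (nat_lit 189079408249831428224) (.ev (nat_lit 84)
 (nat_lit 8796093022208) (.ev (nat_lit 116) (nat_lit 18446744073709551616) (.ev (nat_lit 148) (nat_lit
 2251799880794144) (.ev (nat_lit 180) (nat_lit 36028797018963968) (.ev (nat_lit 340) (nat_lit 1125908496777216)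
 (.ev (nat_lit 404) (nat_lit 16777216) (.ev (nat_lit 413) (nat_lit 1180591620717411303424) .dd)))))))))) (.br
 (nat_lit 22) (.ch (nat_lit 21) (.ev (nat_lit 52) (nat_lit 147576485890236878976) (.ev (nat_lit 116) (nat_lit
 23058430092141133824) (.ev (nat_lit 148) (nat_lit 1180591620717478412288) (.ev (nat_lit 180) (nat_lit
 36893488147419103232) (.ev (nat_lit 212) (nat_lit 2164260896) (.nd (nat_lit 704) (.br (nat_lit 21) (.br
 (nat_lit 15) (.br (nat_lit 8) (.ch (nat_lit 5) (.ev (nat_lit 720) (nat_lit 36037593111986176) (.ev (nat_lit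
 733) (nat_lit 1125899906842624) .dd))) (.br (nat_lit 9) (.ch (nat_lit 8) (.ev (nat_lit 720) (nat_lit
 37163493018828800) .dd)) (.ch (nat_lit 9) (.ev (nat_lit 720) (nat_lit 37163493018828800) .dd)))) (.br (nat_lit
 18) (.ch (nat_lit 15) (.ev (nat_lit 720) (nat_lit 37163493018828800) .dd)) (.br (nat_lit 19) (.ch (nat_lit 18)
 (.ev (nat_lit 720) (nat_lit 37154696925806592) (.ev (nat_lit 733) (nat_lit 8796093022208) .dd))) (.ch (nat_lit
 19) (.ev (nat_lit 720) (nat_lit 1134695999864832) (.ev (nat_lit 733) (nat_lit 36028797018963968) .dd))))))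
 (.br (nat_lit 31) (.br (nat_lit 25) (.ch (nat_lit 21) (.ev (nat_lit 720) (nat_lit 1134695999864832) (.ev
 (nat_lit 733) (nat_lit 36028797018963968) .dd))) (.br (nat_lit 30) (.ch (nat_lit 25) (.ev (nat_lit 720)
 (nat_lit 37163493018828800) .dd)) (.ch (nat_lit 30) (.ev (nat_lit 720) (nat_lit 37163493018828800) .dd))))
 (.br (nat_lit 34) (.ch (nat_lit 31) (.ev (nat_lit 720) (nat_lit 36037593111986176) (.ev (nat_lit 733) (nat_lit
 1125899906842624) .dd))) (.br (nat_lit 36) (.ch (nat_lit 34) (.ev (nat_lit 720) (nat_lit 1134695999864832)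
 (.ev (nat_lit 733) (nat_lit 36028797018963968) .dd))) (.ch (nat_lit 36) (.ev (nat_lit 720) (nat_lit
 37163493018828800) .dd))))))))))))) (.ch (nat_lit 22) (.ev (nat_lit 52) (nat_lit 152223919222116323488) (.ev
 (nat_lit 84) (nat_lit 18446752871950319616) (.ev (nat_lit 116) (nat_lit 1180592746617318146048) (.ev (nat_lit
 180) (nat_lit 16777216) (.ev (nat_lit 288) (nat_lit 36893769631057051648) .dd)))))))))) (.br (nat_lit 33) (.br
 (nat_lit 28) (.br (nat_lit 26) (.ch (nat_lit 25) (.ev (nat_lit 52) (nat_lit 1328203853906088824992) (.ev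
 (nat_lit 84) (nat_lit 18446752886982443008) (.ev (nat_lit 116) (nat_lit 1125899906842624) (.ev (nat_lit 148)
 (nat_lit 67108864) (.ev (nat_lit 352) (nat_lit 41505455649413398528) .dd)))))) (.br (nat_lit 27) (.ch (nat_lit
 26) (.ev (nat_lit 52) (nat_lit 36893488173277249696) (.ev (nat_lit 84) (nat_lit 4611967493404098560) (.ev
 (nat_lit 116) (nat_lit 18446744073709555712) (.ev (nat_lit 180) (nat_lit 1125899906842624) (.ev (nat_lit 212)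
 (nat_lit 1180591620717411303424) (.ev (nat_lit 340) (nat_lit 147573952589676412928) (.nd (nat_lit 704) (.br
 (nat_lit 25) (.br (nat_lit 15) (.br (nat_lit 9) (.ch (nat_lit 3) (.ev (nat_lit 720) (nat_lit
 38289395073155072) .dd)) (.br (nat_lit 10) (.ch (nat_lit 9) (.ev (nat_lit 720) (nat_lit 38289395073155072)
 .dd)) (.ch (nat_lit 10) (.ev (nat_lit 720) (nat_lit 8798240505856) (.ev (nat_lit 800) (nat_lit
 2251799813685248) (.ev (nat_lit 813) (nat_lit 36028797018963968) .dd)))))) (.br (nat_lit 17) (.ch (nat_lit 15)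
 (.ev (nat_lit 720) (nat_lit 38289395073155072) .dd)) (.br (nat_lit 18) (.ch (nat_lit 17) (.ev (nat_lit 720)
 (nat_lit 2260595906707456) (.ev (nat_lit 788) (nat_lit 36028797018963968) (.ev (nat_lit 797) (nat_lit
 2147483648) .dd)))) (.ch (nat_lit 18) (.ev (nat_lit 720) (nat_lit 38289395073155072) .dd))))) (.br (nat_lit
 32) (.br (nat_lit 28) (.ch (nat_lit 25) (.ev (nat_lit 720) (nat_lit 36037595259469824) (.ev (nat_lit 733)
 (nat_lit 2251799813685248) .dd))) (.br (nat_lit 29) (.ch (nat_lit 28) (.ev (nat_lit 720) (nat_lit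
 2260598054191104) (.ev (nat_lit 733) (nat_lit 36028797018963968) .dd))) (.ch (nat_lit 29) (.ev (nat_lit 720)
 (nat_lit 38289395073155072) .dd)))) (.br (nat_lit 34) (.ch (nat_lit 32) (.ev (nat_lit 720) (nat_lit
 36037595259469824) (.ev (nat_lit 733) (nat_lit 2251799813685248) .dd))) (.br (nat_lit 42) (.ch (nat_lit 34)
 (.ev (nat_lit 720) (nat_lit 8798240505856) (.ev (nat_lit 960) (nat_lit 38280596832649216) .dd))) (.ch (nat_lit
 42) (.ev (nat_lit 720) (nat_lit 36028797018963968) (.ev (nat_lit 832) (nat_lit 2251799813685248) (.fin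
 (nat_lit 576461302078587464))))))))))))))))) (.ch (nat_lit 27) (.ev (nat_lit 52) (nat_lit
 41505455651648700448) (.ev (nat_lit 84) (nat_lit 2251799813685248) (.ev (nat_lit 116) (nat_lit 262144) (.ev
 (nat_lit 160) (nat_lit 1346649480890995970176) .dd))))))) (.br (nat_lit 31) (.br (nat_lit 29) (.ch (nat_lit
 28) (.ev (nat_lit 52) (nat_lit 1180593872542999252992) (.ev (nat_lit 96) (nat_lit 207563315799459365024)
 .dd))) (.ch (nat_lit 29) (.ev (nat_lit 52) (nat_lit 1203686369894888374304) (.ev (nat_lit 84) (nat_lit 128)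
 (.ev (nat_lit 116) (nat_lit 147573952589676412928) (.ev (nat_lit 192) (nat_lit 36896865857893830656) .dd))))))
 (.br (nat_lit 32) (.ch (nat_lit 31) (.ev (nat_lit 52) (nat_lit 166022957270097203232) (.ev (nat_lit 84)
 (nat_lit 262144) (.ev (nat_lit 116) (nat_lit 36893488164598972544) (.ev (nat_lit 148) (nat_lit
 36028797039935488) (.ev (nat_lit 180) (nat_lit 1180591620717411303424) (.ev (nat_lit 212) (nat_lit
 1125899906842624) (.ev (nat_lit 260) (nat_lit 281474976710656) (.ev (nat_lit 269) (nat_lit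
 4611686018427387904) .dd))))))))) (.ch (nat_lit 32) (.ev (nat_lit 52) (nat_lit 23058438916231135232) (.ev
 (nat_lit 96) (nat_lit 1365098749426227482784) .dd)))))) (.br (nat_lit 42) (.br (nat_lit 36) (.br (nat_lit 35)
 (.ch (nat_lit 33) (.ev (nat_lit 52) (nat_lit 189082513262145175552) (.ev (nat_lit 84) (nat_lit 262144) (.ev
 (nat_lit 116) (nat_lit 4096) (.ev (nat_lit 148) (nat_lit 1180627649514430267392) (.ev (nat_lit 240) (nat_lit
 18447025565882908832) .dd)))))) (.ch (nat_lit 35) (.ev (nat_lit 52) (nat_lit 1199077780092610412544) (.ev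
 (nat_lit 84) (nat_lit 17179869312) (.ev (nat_lit 128) (nat_lit 189079408232668336160) .dd))))) (.br (nat_lit
 38) (.ch (nat_lit 36) (.ev (nat_lit 52) (nat_lit 1199040898085322490016) (.ev (nat_lit 84) (nat_lit
 36893488147423301632) (.ev (nat_lit 180) (nat_lit 8796093022208) (.ev (nat_lit 260) (nat_lit 262144) (.ev
 (nat_lit 320) (nat_lit 152222793313619542016) .dd)))))) (.ch (nat_lit 38) (.ev (nat_lit 52) (nat_lit
 166056734273694859264) (.ev (nat_lit 84) (nat_lit 36893488147419107328) (.ev (nat_lit 116) (nat_lit 67108864)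
 (.ev (nat_lit 160) (nat_lit 1185206965921277542560) .dd))))))) (.br (nat_lit 45) (.br (nat_lit 44) (.ch
 (nat_lit 42) (.ev (nat_lit 52) (nat_lit 59955295965046374432) (.ev (nat_lit 116) (nat_lit 8798240505856) (.ev
 (nat_lit 148) (nat_lit 128) (.ev (nat_lit 212) (nat_lit 16777216) (.nd (nat_lit 704) (.br (nat_lit 21) (.br
 (nat_lit 15) (.br (nat_lit 5) (.ch (nat_lit 3) (.ev (nat_lit 720) (nat_lit 1180591902192459583488) (.ev
 (nat_lit 788) (nat_lit 36028797018963968) (.ev (nat_lit 797) (nat_lit 147573952589676412928) .dd)))) (.br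
 (nat_lit 10) (.ch (nat_lit 5) (.ev (nat_lit 720) (nat_lit 147610262861676548096) (.ev (nat_lit 800) (nat_lit
 1180591620717411303424) (.ev (nat_lit 813) (nat_lit 67108864) .dd)))) (.ch (nat_lit 10) (.ev (nat_lit 720)
 (nat_lit 1180627930989474353152) (.ev (nat_lit 736) (nat_lit 4194304) (.ev (nat_lit 749) (nat_lit
 147573952589676412928) .dd)))))) (.br (nat_lit 18) (.ch (nat_lit 15) (.ev (nat_lit 720) (nat_lit
 1180627930989474091008) (.ev (nat_lit 896) (nat_lit 262144) (.ev (nat_lit 960) (nat_lit 147573952589680607232)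
 .dd)))) (.br (nat_lit 19) (.ch (nat_lit 18) (.ev (nat_lit 720) (nat_lit 1180627649514434727936) (.ev (nat_lit
 788) (nat_lit 147573952589676412928) (.ev (nat_lit 816) (nat_lit 281474976710656) (.ev (nat_lit 829) (nat_lit
 67108864) .dd))))) (.ch (nat_lit 19) (.ev (nat_lit 720) (nat_lit 1328201883579154956288) (.ev (nat_lit 733)
 (nat_lit 4096) .dd)))))) (.br (nat_lit 34) (.br (nat_lit 25) (.ch (nat_lit 21) (.ev (nat_lit 720) (nat_lit
 1328165854782131798016) (.ev (nat_lit 788) (nat_lit 36028797023158272) (.ev (nat_lit 797) (nat_lit 4096)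
 .dd)))) (.br (nat_lit 31) (.ch (nat_lit 25) (.ev (nat_lit 720) (nat_lit 1328201883579154694144) (.ev (nat_lit
 912) (nat_lit 262144) (.ev (nat_lit 925) (nat_lit 4096) .dd)))) (.ch (nat_lit 31) (.ev (nat_lit 720) (nat_lit
 1328201883579150766080) (.ev (nat_lit 733) (nat_lit 4194304) .dd))))) (.br (nat_lit 35) (.ch (nat_lit 34) (.ev
 (nat_lit 720) (nat_lit 1328201883579154960384) .dd)) (.br (nat_lit 42) (.ch (nat_lit 35) (.ev (nat_lit 720)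
 (nat_lit 1180627649514501836800) (.ev (nat_lit 752) (nat_lit 147573952589676412928) (.ev (nat_lit 765)
 (nat_lit 281474976710656) .dd)))) (.ch (nat_lit 42) (.ev (nat_lit 720) (nat_lit 1328201883579154698240) (.ev
 (nat_lit 733) (nat_lit 262144) .dd))))))))))))) (.ch (nat_lit 44) (.ev (nat_lit 52) (nat_lit
 1222097085156475015328) (.ev (nat_lit 116) (nat_lit 18446744073709551616) (.ev (nat_lit 148) (nat_lit 4194304)
 (.ev (nat_lit 180) (nat_lit 1125899906842624) (.ev (nat_lit 192) (nat_lit 147612233212363014144) .dd)))))))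
 (.br (nat_lit 46) (.ch (nat_lit 45) (.ev (nat_lit 52) (nat_lit 1199074675071723503744) (.ev (nat_lit 84)
 (nat_lit 2147483648) (.ev (nat_lit 116) (nat_lit 17179869184) (.ev (nat_lit 148) (nat_lit
 36893488147419103264) (.ev (nat_lit 260) (nat_lit 1125899906842624) (.nd (nat_lit 704) (.br (nat_lit 21) (.br
 (nat_lit 16) (.br (nat_lit 5) (.ch (nat_lit 4) (.ev (nat_lit 720) (nat_lit 152187899204077621248) (.ev
 (nat_lit 733) (nat_lit 4194304) .dd))) (.br (nat_lit 13) (.ch (nat_lit 5) (.ev (nat_lit 720) (nat_lit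
 152187899204081811456) (.ev (nat_lit 733) (nat_lit 4096) .dd))) (.ch (nat_lit 13) (.ev (nat_lit 720) (nat_lit
 152187899204010512384) (.ev (nat_lit 788) (nat_lit 4194304) (.ev (nat_lit 797) (nat_lit 67108864) .dd))))))
 (.br (nat_lit 18) (.ch (nat_lit 16) (.ev (nat_lit 720) (nat_lit 152187899204014706688) (.ev (nat_lit 733)
 (nat_lit 67108864) .dd))) (.br (nat_lit 19) (.ch (nat_lit 18) (.ev (nat_lit 720) (nat_lit 2251799884992512)
 (.ev (nat_lit 788) (nat_lit 4611694814520410112) (.ev (nat_lit 797) (nat_lit 147573952589676412928) .dd))))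
 (.ch (nat_lit 19) (.ev (nat_lit 720) (nat_lit 147576204389561405440) (.ev (nat_lit 788) (nat_lit
 4611686018427387904) (.ev (nat_lit 797) (nat_lit 8796093022208) .dd))))))) (.br (nat_lit 32) (.br (nat_lit 28)
 (.ch (nat_lit 21) (.ev (nat_lit 720) (nat_lit 147576213185650233344) (.ev (nat_lit 800) (nat_lit
 4611686018427387904) (.ev (nat_lit 813) (nat_lit 4194304) .dd)))) (.br (nat_lit 30) (.ch (nat_lit 28) (.ev
 (nat_lit 720) (nat_lit 152187899204081815552) .dd)) (.ch (nat_lit 30) (.ev (nat_lit 720) (nat_lit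
 152187899204081815552) .dd)))) (.br (nat_lit 35) (.br (nat_lit 34) (.ch (nat_lit 32) (.ev (nat_lit 720)
 (nat_lit 152185647404268130304) (.ev (nat_lit 733) (nat_lit 2251799813685248) .dd))) (.ch (nat_lit 34) (.ev
 (nat_lit 720) (nat_lit 152185647404268130304) (.ev (nat_lit 733) (nat_lit 2251799813685248) .dd)))) (.br
 (nat_lit 36) (.ch (nat_lit 35) (.ev (nat_lit 720) (nat_lit 147576204389557211136) (.ev (nat_lit 788) (nat_lit
 4611686018427387904) (.ev (nat_lit 816) (nat_lit 8796093022208) (.ev (nat_lit 829) (nat_lit 4194304) .dd)))))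
 (.ch (nat_lit 36) (.ev (nat_lit 720) (nat_lit 147576213185587318784) (.ev (nat_lit 788) (nat_lit 67108864)
 (.ev (nat_lit 797) (nat_lit 4611686018427387904) .dd))))))))))))))) (.ch (nat_lit 46) (.ev (nat_lit 52)
 (nat_lit 1365062720637861101600) (.ev (nat_lit 116) (nat_lit 4611686037754740736) (.ev (nat_lit 148) (nat_lit
 36028797018963968) (.ev (nat_lit 240) (nat_lit 18446752869823811712) .dd))))))))))))

/-- Subtrie. -/
noncomputable def T17 : Tr := (.ev (nat_lit 20) (nat_lit 650684041501178073098) (.nd (nat_lit 33) (.br (nat_lit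
 25) (.br (nat_lit 14) (.br (nat_lit 5) (.br (nat_lit 2) (.ch (nat_lit 1) (.ev (nat_lit 52) (nat_lit
 147637218489284165808) (.ev (nat_lit 84) (nat_lit 256) (.ev (nat_lit 116) (nat_lit 34816) (.ev (nat_lit 148)
 (nat_lit 1475739525896764129280) (.ev (nat_lit 180) (nat_lit 2147549184) (.nd (nat_lit 704) (.br (nat_lit 28)
 (.br (nat_lit 17) (.br (nat_lit 6) (.ch (nat_lit 2) (.ev (nat_lit 720) (nat_lit 282093452525568) .dd)) (.br
 (nat_lit 12) (.ch (nat_lit 6) (.ev (nat_lit 720) (nat_lit 282093452525568) .dd)) (.ch (nat_lit 12) (.ev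
 (nat_lit 720) (nat_lit 68720001024) (.ev (nat_lit 788) (nat_lit 281474976710656) (.ev (nat_lit 797) (nat_lit
 549755813888) .dd)))))) (.br (nat_lit 19) (.ch (nat_lit 17) (.ev (nat_lit 720) (nat_lit 618475814912) (.ev
 (nat_lit 733) (nat_lit 281474976710656) .dd))) (.br (nat_lit 20) (.ch (nat_lit 19) (.ev (nat_lit 720) (nat_lit
 282093452525568) .dd)) (.ch (nat_lit 20) (.ev (nat_lit 720) (nat_lit 281543696711680) (.ev (nat_lit 733)
 (nat_lit 549755813888) .dd)))))) (.br (nat_lit 33) (.br (nat_lit 30) (.ch (nat_lit 28) (.ev (nat_lit 720)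
 (nat_lit 282093452525568) .dd)) (.br (nat_lit 31) (.ch (nat_lit 30) (.ev (nat_lit 720) (nat_lit
 282093452525568) .dd)) (.ch (nat_lit 31) (.ev (nat_lit 720) (nat_lit 549755813888) (.ev (nat_lit 832) (nat_lit
 281474976710656) (.fin (nat_lit 576448107907596860))))))) (.br (nat_lit 37) (.ch (nat_lit 33) (.ev (nat_lit
 720) (nat_lit 618475814912) (.ev (nat_lit 733) (nat_lit 281474976710656) .dd))) (.br (nat_lit 39) (.ch
 (nat_lit 37) (.ev (nat_lit 720) (nat_lit 68720001024) (.ev (nat_lit 848) (nat_lit 281474976710656) (.ev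
 (nat_lit 861) (nat_lit 549755813888) .dd)))) (.ch (nat_lit 39) (.ev (nat_lit 720) (nat_lit 281543696187392)
 (.ev (nat_lit 788) (nat_lit 549755813888) (.ev (nat_lit 797) (nat_lit 524288) .dd))))))))))))))) (.br (nat_lit
 3) (.ch (nat_lit 2) (.ev (nat_lit 52) (nat_lit 295201948993365739648) (.ev (nat_lit 116) (nat_lit 65536) (.ev
 (nat_lit 148) (nat_lit 1180600909392179625984) (.ev (nat_lit 180) (nat_lit 32768) (.ev (nat_lit 212) (nat_lit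
 4398046511104) (.ev (nat_lit 308) (nat_lit 140737488355328) (.nd (nat_lit 704) (.br (nat_lit 23) (.br (nat_lit
 15) (.br (nat_lit 11) (.ch (nat_lit 8) (.ev (nat_lit 720) (nat_lit 70370891661584) (.ev (nat_lit 800) (nat_lit
 147573952589676412960) .dd))) (.br (nat_lit 13) (.ch (nat_lit 11) (.ev (nat_lit 720) (nat_lit
 147574022960568074288) (.ev (nat_lit 733) (nat_lit 256) .dd))) (.ch (nat_lit 13) (.ev (nat_lit 720) (nat_lit
 147574022960568074528) (.ev (nat_lit 733) (nat_lit 16) .dd))))) (.br (nat_lit 19) (.ch (nat_lit 15) (.ev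
 (nat_lit 720) (nat_lit 147573952589676413232) (.ev (nat_lit 788) (nat_lit 2147483648) (.ev (nat_lit 797)
 (nat_lit 70368744177664) .dd)))) (.br (nat_lit 20) (.ch (nat_lit 19) (.ev (nat_lit 720) (nat_lit
 147574022960568074544) .dd)) (.ch (nat_lit 20) (.ev (nat_lit 720) (nat_lit 2147483920) (.ev (nat_lit 788)
 (nat_lit 32) (.ev (nat_lit 832) (nat_lit 147574022958420590592) .dd))))))) (.br (nat_lit 30) (.br (nat_lit 25)
 (.ch (nat_lit 23) (.ev (nat_lit 720) (nat_lit 147574022960568074544) .dd)) (.br (nat_lit 28) (.ch (nat_lit 25)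
 (.ev (nat_lit 720) (nat_lit 147573952591823896880) (.ev (nat_lit 733) (nat_lit 70368744177664) .dd))) (.ch
 (nat_lit 28) (.ev (nat_lit 720) (nat_lit 147574022960568074544) .dd)))) (.br (nat_lit 34) (.br (nat_lit 33)
 (.ch (nat_lit 30) (.ev (nat_lit 720) (nat_lit 147574022958420590896) (.ev (nat_lit 733) (nat_lit 2147483648)
 .dd))) (.ch (nat_lit 33) (.ev (nat_lit 720) (nat_lit 147574022960568074544) .dd))) (.br (nat_lit 37) (.ch
 (nat_lit 34) (.ev (nat_lit 720) (nat_lit 70370891661584) (.ev (nat_lit 752) (nat_lit 147573952589676412928)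
 (.ev (nat_lit 765) (nat_lit 32) .dd)))) (.ch (nat_lit 37) (.ev (nat_lit 720) (nat_lit 147574022960568074512)
 (.ev (nat_lit 733) (nat_lit 32) .dd))))))))))))))) (.ch (nat_lit 3) (.ev (nat_lit 52) (nat_lit
 147627995856071852304) (.ev (nat_lit 64) (nat_lit 1475749030625576552608) .dd))))) (.br (nat_lit 11) (.br
 (nat_lit 9) (.ch (nat_lit 5) (.ev (nat_lit 52) (nat_lit 442731221212207516048) (.ev (nat_lit 84) (nat_lit
 68719476736) (.ev (nat_lit 116) (nat_lit 32) (.ev (nat_lit 160) (nat_lit 1180645805200721412096) .dd))))) (.ch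
 (nat_lit 9) (.ev (nat_lit 52) (nat_lit 295193222651140636976) (.ev (nat_lit 84) (nat_lit 618483679232) (.ev
 (nat_lit 212) (nat_lit 140737488355328) (.ev (nat_lit 576) (nat_lit 2147483648) (.nd (nat_lit 704) (.br
 (nat_lit 19) (.br (nat_lit 15) (.br (nat_lit 6) (.ch (nat_lit 2) (.ev (nat_lit 720) (nat_lit
 18089165300533376) (.ev (nat_lit 788) (nat_lit 1180591620717411303424) (.ev (nat_lit 797) (nat_lit
 147573952589676412928) .dd)))) (.ch (nat_lit 6) (.ev (nat_lit 720) (nat_lit 147592041754976682112) (.ev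
 (nat_lit 788) (nat_lit 1180591620717411303424) (.ev (nat_lit 800) (nat_lit 262144) (.ev (nat_lit 813) (nat_lit
 2048) .dd)))))) (.br (nat_lit 17) (.ch (nat_lit 15) (.ev (nat_lit 720) (nat_lit 1328183592103644039296) (.ev
 (nat_lit 788) (nat_lit 32768) (.ev (nat_lit 797) (nat_lit 70368744177664) .dd)))) (.ch (nat_lit 17) (.ev
 (nat_lit 720) (nat_lit 1328183662472388216832) (.ev (nat_lit 816) (nat_lit 32768) (.ev (nat_lit 829) (nat_lit
 128) .dd)))))) (.br (nat_lit 30) (.br (nat_lit 20) (.ch (nat_lit 19) (.ev (nat_lit 720) (nat_lit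
 1180609635115921047680) (.ev (nat_lit 788) (nat_lit 147574022958420592640) (.ev (nat_lit 800) (nat_lit
 4398046511104) (.ev (nat_lit 816) (nat_lit 32768) (.ev (nat_lit 829) (nat_lit 65536) .dd)))))) (.ch (nat_lit
 20) (.ev (nat_lit 720) (nat_lit 1328183592103644072064) (.ev (nat_lit 733) (nat_lit 70368744177664) .dd))))
 (.br (nat_lit 34) (.ch (nat_lit 30) (.ev (nat_lit 720) (nat_lit 1328165648073878734976) (.ev (nat_lit 788)
 (nat_lit 32768) (.ev (nat_lit 797) (nat_lit 18014398509481984) .dd)))) (.br (nat_lit 37) (.ch (nat_lit 34)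
 (.ev (nat_lit 720) (nat_lit 1180609709882711834752) (.ev (nat_lit 788) (nat_lit 2048) (.ev (nat_lit 797)
 (nat_lit 147573952589676412928) .dd)))) (.ch (nat_lit 37) (.ev (nat_lit 720) (nat_lit 1328183658074341736576)
 (.ev (nat_lit 788) (nat_lit 2048) (.ev (nat_lit 797) (nat_lit 4398046511104) .dd))))))))))))))) (.br (nat_lit
 12) (.ch (nat_lit 11) (.ev (nat_lit 52) (nat_lit 442785119270590744576) (.ev (nat_lit 96) (nat_lit
 1180591907211057660336) .dd))) (.ch (nat_lit 12) (.ev (nat_lit 52) (nat_lit 1475740023425775960464) (.ev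
 (nat_lit 84) (nat_lit 18014398509547520) (.ev (nat_lit 116) (nat_lit 8388608) (.ev (nat_lit 148) (nat_lit
 536872960) (.ev (nat_lit 260) (nat_lit 147573952589676412928) (.nd (nat_lit 704) (.br (nat_lit 20) (.br
 (nat_lit 15) (.br (nat_lit 2) (.ch (nat_lit 0) (.ev (nat_lit 720) (nat_lit 45036067141222432) .dd)) (.br
 (nat_lit 12) (.ch (nat_lit 2) (.ev (nat_lit 720) (nat_lit 9007201402781728) (.ev (nat_lit 788) (nat_lit
 68719476736) (.ev (nat_lit 797) (nat_lit 36028797018963968) .dd)))) (.ch (nat_lit 12) (.ev (nat_lit 720)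
 (nat_lit 9007201402781728) (.ev (nat_lit 788) (nat_lit 68719476736) (.ev (nat_lit 797) (nat_lit
 36028797018963968) .dd)))))) (.br (nat_lit 18) (.br (nat_lit 17) (.ch (nat_lit 15) (.ev (nat_lit 720) (nat_lit
 68720033824) (.ev (nat_lit 788) (nat_lit 9007201402224640) (.ev (nat_lit 797) (nat_lit 36028797018963968)
 .dd)))) (.ch (nat_lit 17) (.ev (nat_lit 720) (nat_lit 45036067141222400) (.ev (nat_lit 733) (nat_lit 32)
 .dd)))) (.br (nat_lit 19) (.ch (nat_lit 18) (.ev (nat_lit 720) (nat_lit 36028799166480416) (.ev (nat_lit 752)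
 (nat_lit 9007199254740992) (.ev (nat_lit 788) (nat_lit 68719476736) (.ev (nat_lit 797) (nat_lit 524288)
 .dd))))) (.ch (nat_lit 19) (.ev (nat_lit 720) (nat_lit 45036067140698144) (.ev (nat_lit 733) (nat_lit 524288)
 .dd)))))) (.br (nat_lit 24) (.br (nat_lit 21) (.ch (nat_lit 20) (.ev (nat_lit 720) (nat_lit 45036067141222432)
 .dd)) (.br (nat_lit 22) (.ch (nat_lit 21) (.ev (nat_lit 720) (nat_lit 9007267974774816) (.ev (nat_lit 800)
 (nat_lit 36028799166447616) .dd))) (.ch (nat_lit 22) (.ev (nat_lit 720) (nat_lit 36028865738997792) (.ev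
 (nat_lit 816) (nat_lit 9007199254740992) (.ev (nat_lit 829) (nat_lit 2147483648) .dd)))))) (.br (nat_lit 33)
 (.br (nat_lit 31) (.ch (nat_lit 24) (.ev (nat_lit 720) (nat_lit 45036067140698144) (.ev (nat_lit 733) (nat_lit
 524288) .dd))) (.ch (nat_lit 31) (.ev (nat_lit 720) (nat_lit 45035998421221408) (.fin (nat_lit
 576448107907596860))))) (.br (nat_lit 34) (.ch (nat_lit 33) (.ev (nat_lit 720) (nat_lit 36028867886448640)
 (.ev (nat_lit 788) (nat_lit 9007199254741024) (.ev (nat_lit 797) (nat_lit 32768) .dd)))) (.ch (nat_lit 34)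
 (.ev (nat_lit 720) (nat_lit 36028799166480384) (.ev (nat_lit 788) (nat_lit 68719476736) (.ev (nat_lit 816)
 (nat_lit 9007199255265280) (.ev (nat_lit 829) (nat_lit 32) .dd))))))))))))))))))) (.br (nat_lit 19) (.br
 (nat_lit 16) (.br (nat_lit 15) (.ch (nat_lit 14) (.ev (nat_lit 52) (nat_lit 1180591836292557637920) (.ev
 (nat_lit 84) (nat_lit 8388608) (.ev (nat_lit 116) (nat_lit 295147905179352825984) (.ev (nat_lit 148) (nat_lit
 524288) (.ev (nat_lit 212) (nat_lit 32768) (.nd (nat_lit 704) (.br (nat_lit 25) (.br (nat_lit 21) (.br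
 (nat_lit 15) (.ch (nat_lit 11) (.ev (nat_lit 720) (nat_lit 147637285009728995328) (.ev (nat_lit 733) (nat_lit
 16) .dd))) (.br (nat_lit 18) (.ch (nat_lit 15) (.ev (nat_lit 720) (nat_lit 147583241264444735504) (.ev
 (nat_lit 788) (nat_lit 36029346774777856) (.ev (nat_lit 797) (nat_lit 18014398509481984) .dd)))) (.ch (nat_lit
 18) (.ev (nat_lit 720) (nat_lit 147592248463162605584) (.ev (nat_lit 736) (nat_lit 536870912) (.ev (nat_lit
 800) (nat_lit 36028797018963968) (.ev (nat_lit 816) (nat_lit 549755813888) (.ev (nat_lit 829) (nat_lit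
 9007199254740992) .dd)))))))) (.br (nat_lit 22) (.ch (nat_lit 21) (.ev (nat_lit 720) (nat_lit
 147637285009728995344) .dd)) (.br (nat_lit 23) (.ch (nat_lit 22) (.ev (nat_lit 720) (nat_lit
 147628277810474254352) (.ev (nat_lit 733) (nat_lit 9007199254740992) .dd))) (.ch (nat_lit 23) (.ev (nat_lit
 720) (nat_lit 147601255662954217488) (.ev (nat_lit 944) (nat_lit 549755813888) (.ev (nat_lit 957) (nat_lit
 36028797018963968) .dd))))))) (.br (nat_lit 33) (.br (nat_lit 30) (.ch (nat_lit 25) (.ev (nat_lit 720)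
 (nat_lit 147601256212710031376) (.ev (nat_lit 733) (nat_lit 36028797018963968) .dd))) (.br (nat_lit 32) (.ch
 (nat_lit 30) (.ev (nat_lit 720) (nat_lit 147637285009728995344) .dd)) (.ch (nat_lit 32) (.ev (nat_lit 720)
 (nat_lit 147601256212710031376) (.ev (nat_lit 733) (nat_lit 36028797018963968) .dd))))) (.br (nat_lit 37) (.br
 (nat_lit 34) (.ch (nat_lit 33) (.ev (nat_lit 720) (nat_lit 54325220260970512) (.ev (nat_lit 800) (nat_lit
 536870912) (.ev (nat_lit 864) (nat_lit 147573952589676412928) (.ev (nat_lit 877) (nat_lit 9007199254740992)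
 .dd))))) (.ch (nat_lit 34) (.ev (nat_lit 720) (nat_lit 63050945075871760) (.ev (nat_lit 788) (nat_lit
 147573952589676412928) (.ev (nat_lit 797) (nat_lit 281474976710656) .dd))))) (.br (nat_lit 39) (.ch (nat_lit
 37) (.ev (nat_lit 720) (nat_lit 147637285009728995344) .dd)) (.ch (nat_lit 39) (.ev (nat_lit 720) (nat_lit
 147637285009728995344) .dd))))))))))))) (.ch (nat_lit 15) (.ev (nat_lit 52) (nat_lit 295148327463222511760)
 (.ev (nat_lit 84) (nat_lit 549755879424) (.ev (nat_lit 116) (nat_lit 1180591620717411303456) (.ev (nat_lit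
 148) (nat_lit 36028797018963968) (.ev (nat_lit 212) (nat_lit 147573952589676412928) (.ev (nat_lit 260)
 (nat_lit 32768) (.ev (nat_lit 678) (nat_lit 8388608) (.nd (nat_lit 704) (.br (nat_lit 21) (.br (nat_lit 13)
 (.br (nat_lit 8) (.ch (nat_lit 0) (.ev (nat_lit 720) (nat_lit 9011597301252352) (.ev (nat_lit 752) (nat_lit
 18014398509481984) (.ev (nat_lit 765) (nat_lit 70368744177664) .dd)))) (.br (nat_lit 11) (.ch (nat_lit 8) (.ev
 (nat_lit 720) (nat_lit 27096364554912000) .dd)) (.ch (nat_lit 11) (.ev (nat_lit 720) (nat_lit 74766790688768)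
 (.ev (nat_lit 816) (nat_lit 256) (.ev (nat_lit 864) (nat_lit 9007199254740992) (.ev (nat_lit 877) (nat_lit
 18014398509481984) .dd))))))) (.br (nat_lit 19) (.ch (nat_lit 13) (.ev (nat_lit 720) (nat_lit
 27096364554912000) .dd)) (.br (nat_lit 20) (.ch (nat_lit 19) (.ev (nat_lit 720) (nat_lit 9011597301252352)
 (.ev (nat_lit 800) (nat_lit 70368744177664) (.ev (nat_lit 813) (nat_lit 18014398509481984) .dd)))) (.ch
 (nat_lit 20) (.ev (nat_lit 720) (nat_lit 27025995810734336) (.ev (nat_lit 733) (nat_lit 70368744177664)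
 .dd)))))) (.br (nat_lit 31) (.br (nat_lit 22) (.ch (nat_lit 21) (.ev (nat_lit 720) (nat_lit 9077567998918912)
 (.ev (nat_lit 788) (nat_lit 18014398509481984) (.ev (nat_lit 797) (nat_lit 4398046511104) .dd)))) (.br
 (nat_lit 28) (.ch (nat_lit 22) (.ev (nat_lit 720) (nat_lit 18084767253659904) (.ev (nat_lit 736) (nat_lit
 9007199254740992) (.ev (nat_lit 749) (nat_lit 4398046511104) .dd)))) (.ch (nat_lit 28) (.ev (nat_lit 720)
 (nat_lit 9081966045430016) (.ev (nat_lit 733) (nat_lit 18014398509481984) .dd))))) (.br (nat_lit 33) (.ch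
 (nat_lit 31) (.ev (nat_lit 720) (nat_lit 27025995810734336) (.ev (nat_lit 733) (nat_lit 70368744177664) .dd)))
 (.br (nat_lit 39) (.ch (nat_lit 33) (.ev (nat_lit 720) (nat_lit 18089165300171008) (.ev (nat_lit 733) (nat_lit
 9007199254740992) .dd))) (.ch (nat_lit 39) (.ev (nat_lit 720) (nat_lit 27096364554912000) .dd))))))))))))))))
 (.br (nat_lit 18) (.ch (nat_lit 16) (.ev (nat_lit 52) (nat_lit 442758379697558815136) (.ev (nat_lit 84)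
 (nat_lit 2147483648) (.ev (nat_lit 116) (nat_lit 1180591620717411303424) (.ev (nat_lit 148) (nat_lit
 9007267974217728) (.ev (nat_lit 260) (nat_lit 4398046511104) (.ev (nat_lit 308) (nat_lit 16) (.nd (nat_lit
 704) (.br (nat_lit 24) (.br (nat_lit 12) (.br (nat_lit 8) (.ch (nat_lit 6) (.ev (nat_lit 720) (nat_lit
 18014398510071808) (.ev (nat_lit 733) (nat_lit 2048) .dd))) (.br (nat_lit 11) (.ch (nat_lit 8) (.ev (nat_lit
 720) (nat_lit 18014398510073856) .dd)) (.ch (nat_lit 11) (.ev (nat_lit 720) (nat_lit 18014398510071808) (.ev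
 (nat_lit 733) (nat_lit 2048) .dd))))) (.br (nat_lit 13) (.ch (nat_lit 12) (.ev (nat_lit 720) (nat_lit 591872)
 (.ev (nat_lit 733) (nat_lit 18014398509481984) .dd))) (.br (nat_lit 18) (.ch (nat_lit 13) (.ev (nat_lit 720)
 (nat_lit 18014398509484032) (.ev (nat_lit 752) (nat_lit 524288) (.ev (nat_lit 765) (nat_lit 65536) .dd))))
 (.ch (nat_lit 18) (.ev (nat_lit 720) (nat_lit 18014398510073856) .dd))))) (.br (nat_lit 34) (.br (nat_lit 28)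
 (.ch (nat_lit 24) (.ev (nat_lit 720) (nat_lit 18014398510073856) .dd)) (.br (nat_lit 32) (.ch (nat_lit 28)
 (.ev (nat_lit 720) (nat_lit 18014398510073856) .dd)) (.ch (nat_lit 32) (.ev (nat_lit 720) (nat_lit
 18014398510073856) .dd)))) (.br (nat_lit 37) (.ch (nat_lit 34) (.ev (nat_lit 720) (nat_lit 18014398510008320)
 (.ev (nat_lit 733) (nat_lit 65536) .dd))) (.br (nat_lit 39) (.ch (nat_lit 37) (.ev (nat_lit 720) (nat_lit
 18014398510071808) (.ev (nat_lit 733) (nat_lit 2048) .dd))) (.ch (nat_lit 39) (.ev (nat_lit 720) (nat_lit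
 18014398510073856) .dd)))))))))))))) (.ch (nat_lit 18) (.ev (nat_lit 52) (nat_lit 1623340922848573196416) (.ev
 (nat_lit 84) (nat_lit 70368744177664) (.ev (nat_lit 116) (nat_lit 4398046511392) (.ev (nat_lit 148) (nat_lit
 68719476736) (.ev (nat_lit 180) (nat_lit 536870912) (.ev (nat_lit 212) (nat_lit 32768) (.ev (nat_lit 260)
 (nat_lit 524288) (.nd (nat_lit 704) (.br (nat_lit 24) (.br (nat_lit 19) (.br (nat_lit 15) (.ch (nat_lit 13)
 (.ev (nat_lit 720) (nat_lit 36028797027352592) (.ev (nat_lit 733) (nat_lit 262144) .dd))) (.br (nat_lit 18)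
 (.ch (nat_lit 15) (.ev (nat_lit 720) (nat_lit 8650768) (.ev (nat_lit 733) (nat_lit 36028797018963968) .dd)))
 (.ch (nat_lit 18) (.ev (nat_lit 720) (nat_lit 36028797027614736) .dd)))) (.br (nat_lit 21) (.ch (nat_lit 19)
 (.ev (nat_lit 720) (nat_lit 36028797027614736) .dd)) (.br (nat_lit 23) (.ch (nat_lit 21) (.ev (nat_lit 720)
 (nat_lit 262160) (.ev (nat_lit 788) (nat_lit 8388608) (.ev (nat_lit 797) (nat_lit 36028797018963968) .dd))))
 (.ch (nat_lit 23) (.ev (nat_lit 720) (nat_lit 36028797019226128) (.ev (nat_lit 733) (nat_lit 8388608)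
 .dd)))))) (.br (nat_lit 31) (.br (nat_lit 25) (.ch (nat_lit 24) (.ev (nat_lit 720) (nat_lit 262160) (.ev
 (nat_lit 788) (nat_lit 8388608) (.ev (nat_lit 797) (nat_lit 36028797018963968) .dd)))) (.br (nat_lit 30) (.ch
 (nat_lit 25) (.ev (nat_lit 720) (nat_lit 8650752) (.ev (nat_lit 736) (nat_lit 36028797018963984) .dd))) (.ch
 (nat_lit 30) (.ev (nat_lit 720) (nat_lit 36028797027614736) .dd)))) (.br (nat_lit 33) (.br (nat_lit 32) (.ch
 (nat_lit 31) (.ev (nat_lit 720) (nat_lit 36028797027614736) .dd)) (.ch (nat_lit 32) (.ev (nat_lit 720)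
 (nat_lit 8650768) (.ev (nat_lit 733) (nat_lit 36028797018963968) .dd)))) (.br (nat_lit 39) (.ch (nat_lit 33)
 (.ev (nat_lit 720) (nat_lit 36028797019226128) (.ev (nat_lit 733) (nat_lit 8388608) .dd))) (.ch (nat_lit 39)
 (.ev (nat_lit 720) (nat_lit 36028797027614736) .dd))))))))))))))))) (.br (nat_lit 21) (.br (nat_lit 20) (.ch
 (nat_lit 19) (.ev (nat_lit 52) (nat_lit 36099784247183376) (.ev (nat_lit 116) (nat_lit 295147909579546820608)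
 (.ev (nat_lit 180) (nat_lit 281474976710656) (.ev (nat_lit 212) (nat_lit 147573952589676412928) (.ev (nat_lit
 308) (nat_lit 536870912) (.nd (nat_lit 704) (.br (nat_lit 28) (.br (nat_lit 11) (.br (nat_lit 2) (.ch (nat_lit
 0) (.ev (nat_lit 720) (nat_lit 1180600768654154924192) (.ev (nat_lit 788) (nat_lit 256) (.ev (nat_lit 797)
 (nat_lit 18014398509481984) .dd)))) (.ch (nat_lit 2) (.ev (nat_lit 720) (nat_lit 1180618783052664406432)
 .dd))) (.br (nat_lit 20) (.ch (nat_lit 11) (.ev (nat_lit 720) (nat_lit 27162335253102880) (.ev (nat_lit 800)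
 (nat_lit 1180591620717411303552) .dd))) (.br (nat_lit 22) (.ch (nat_lit 20) (.ev (nat_lit 720) (nat_lit
 1180618783052664406432) .dd)) (.ch (nat_lit 22) (.ev (nat_lit 720) (nat_lit 1180618642315175526816) (.ev
 (nat_lit 788) (nat_lit 524288) (.ev (nat_lit 797) (nat_lit 140737488355328) .dd))))))) (.br (nat_lit 33) (.br
 (nat_lit 31) (.ch (nat_lit 28) (.ev (nat_lit 720) (nat_lit 1180591761454900183424) (.ev (nat_lit 752) (nat_lit
 32) (.ev (nat_lit 788) (nat_lit 9007199254740992) (.ev (nat_lit 797) (nat_lit 18014398509481984) .dd))))) (.br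
 (nat_lit 32) (.ch (nat_lit 31) (.ev (nat_lit 720) (nat_lit 1180618783052664406432) .dd)) (.ch (nat_lit 32)
 (.ev (nat_lit 720) (nat_lit 1180618783052664406432) .dd)))) (.br (nat_lit 34) (.ch (nat_lit 33) (.ev (nat_lit
 720) (nat_lit 1180618783052664406432) .dd)) (.br (nat_lit 37) (.ch (nat_lit 34) (.ev (nat_lit 720) (nat_lit
 1180618783052664406432) .dd)) (.ch (nat_lit 37) (.ev (nat_lit 720) (nat_lit 1180609635115921310080) (.ev
 (nat_lit 752) (nat_lit 9007199254740992) (.ev (nat_lit 788) (nat_lit 32) (.ev (nat_lit 797) (nat_lit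
 140737488355328) .dd)))))))))))))))) (.ch (nat_lit 20) (.ev (nat_lit 52) (nat_lit 147592389272064032896) (.ev
 (nat_lit 84) (nat_lit 549755813888) (.ev (nat_lit 116) (nat_lit 36099165763141888) (.ev (nat_lit 148) (nat_lit
 4398046513152) (.ev (nat_lit 592) (nat_lit 295147905179352825856) (.nd (nat_lit 704) (.br (nat_lit 20) (.br
 (nat_lit 12) (.br (nat_lit 8) (.ch (nat_lit 6) (.ev (nat_lit 720) (nat_lit 1180600627916666077232) .dd)) (.br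
 (nat_lit 11) (.ch (nat_lit 8) (.ev (nat_lit 720) (nat_lit 9007199254773776) (.ev (nat_lit 848) (nat_lit
 1180591620717411303424) (.ev (nat_lit 861) (nat_lit 32) .dd)))) (.ch (nat_lit 11) (.ev (nat_lit 720) (nat_lit
 1180591620717411336240) (.ev (nat_lit 733) (nat_lit 9007199254740992) .dd))))) (.br (nat_lit 17) (.br (nat_lit
 13) (.ch (nat_lit 12) (.ev (nat_lit 720) (nat_lit 1180591620717411336240) (.ev (nat_lit 733) (nat_lit
 9007199254740992) .dd))) (.ch (nat_lit 13) (.ev (nat_lit 720) (nat_lit 1180600627916666077232) .dd))) (.br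
 (nat_lit 18) (.ch (nat_lit 17) (.ev (nat_lit 720) (nat_lit 1180591620717411336240) (.ev (nat_lit 733) (nat_lit
 9007199254740992) .dd))) (.ch (nat_lit 18) (.ev (nat_lit 720) (nat_lit 1180591620717411336240) (.ev (nat_lit
 733) (nat_lit 9007199254740992) .dd)))))) (.br (nat_lit 28) (.br (nat_lit 22) (.ch (nat_lit 20) (.ev (nat_lit
 720) (nat_lit 1180591620717411336240) (.ev (nat_lit 733) (nat_lit 9007199254740992) .dd))) (.br (nat_lit 23)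
 (.ch (nat_lit 22) (.ev (nat_lit 720) (nat_lit 32816) (.ev (nat_lit 788) (nat_lit 9007199254740992) (.ev
 (nat_lit 797) (nat_lit 1180591620717411303424) .dd)))) (.ch (nat_lit 23) (.ev (nat_lit 720) (nat_lit
 1180600627916666077216) (.ev (nat_lit 733) (nat_lit 16) .dd))))) (.br (nat_lit 31) (.br (nat_lit 30) (.ch
 (nat_lit 28) (.ev (nat_lit 720) (nat_lit 1180591620717411336240) (.ev (nat_lit 733) (nat_lit 9007199254740992)
 .dd))) (.ch (nat_lit 30) (.ev (nat_lit 720) (nat_lit 1180600627916666044464) (.ev (nat_lit 733) (nat_lit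
 32768) .dd)))) (.br (nat_lit 33) (.ch (nat_lit 31) (.ev (nat_lit 720) (nat_lit 9007199254741040) (.ev (nat_lit
 788) (nat_lit 32768) (.ev (nat_lit 797) (nat_lit 1180591620717411303424) .dd)))) (.ch (nat_lit 33) (.ev
 (nat_lit 720) (nat_lit 1180600627916666044464) (.ev (nat_lit 733) (nat_lit 32768) .dd))))))))))))))) (.br
 (nat_lit 22) (.ch (nat_lit 21) (.ev (nat_lit 52) (nat_lit 147583382551698145664) (.ev (nat_lit 84) (nat_lit
 1180627649514430267392) (.ev (nat_lit 128) (nat_lit 295165994415519991856) .dd)))) (.ch (nat_lit 22) (.ev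
 (nat_lit 52) (nat_lit 147610052305195991456) (.ev (nat_lit 96) (nat_lit 1475766974176452413456) .dd)))))))
 (.br (nat_lit 33) (.br (nat_lit 28) (.br (nat_lit 26) (.ch (nat_lit 25) (.ev (nat_lit 52) (nat_lit
 1328201673093473665440) (.ev (nat_lit 116) (nat_lit 18014398518198272) (.ev (nat_lit 148) (nat_lit 2048) (.ev
 (nat_lit 180) (nat_lit 295147905179352825856) (.ev (nat_lit 212) (nat_lit 536870912) (.ev (nat_lit 308)
 (nat_lit 4398046511104) (.nd (nat_lit 704) (.br (nat_lit 24) (.br (nat_lit 17) (.br (nat_lit 12) (.ch (nat_lit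
 11) (.ev (nat_lit 720) (nat_lit 422212465590288) (.ev (nat_lit 733) (nat_lit 9007199254740992) .dd))) (.br
 (nat_lit 13) (.ch (nat_lit 12) (.ev (nat_lit 720) (nat_lit 9147936743620624) (.ev (nat_lit 733) (nat_lit
 281474976710656) .dd))) (.ch (nat_lit 13) (.ev (nat_lit 720) (nat_lit 9429411720331280) .dd)))) (.br (nat_lit
 19) (.ch (nat_lit 17) (.ev (nat_lit 720) (nat_lit 422212465590272) (.ev (nat_lit 816) (nat_lit
 9007199254741008) .dd))) (.br (nat_lit 21) (.ch (nat_lit 19) (.ev (nat_lit 720) (nat_lit 9429411719806992)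
 (.ev (nat_lit 733) (nat_lit 524288) .dd))) (.ch (nat_lit 21) (.ev (nat_lit 720) (nat_lit 9429411720331280)
 .dd))))) (.br (nat_lit 33) (.br (nat_lit 28) (.ch (nat_lit 24) (.ev (nat_lit 720) (nat_lit 9429411720331280)
 .dd)) (.br (nat_lit 32) (.ch (nat_lit 28) (.ev (nat_lit 720) (nat_lit 9288674231451664) (.ev (nat_lit 800)
 (nat_lit 140737488355328) (.ev (nat_lit 813) (nat_lit 524288) .dd)))) (.ch (nat_lit 32) (.ev (nat_lit 720)
 (nat_lit 9288674231975952) (.ev (nat_lit 733) (nat_lit 140737488355328) .dd))))) (.br (nat_lit 34) (.ch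
 (nat_lit 33) (.ev (nat_lit 720) (nat_lit 140737488879632) (.ev (nat_lit 788) (nat_lit 9007199254740992) (.ev
 (nat_lit 797) (nat_lit 281474976710656) .dd)))) (.br (nat_lit 39) (.ch (nat_lit 34) (.ev (nat_lit 720)
 (nat_lit 9288674231975952) (.ev (nat_lit 733) (nat_lit 140737488355328) .dd))) (.ch (nat_lit 39) (.ev (nat_lit
 720) (nat_lit 9429411719806992) (.ev (nat_lit 733) (nat_lit 524288) .dd))))))))))))))) (.br (nat_lit 27) (.ch
 (nat_lit 26) (.ev (nat_lit 52) (nat_lit 27092585520857504) (.ev (nat_lit 84) (nat_lit 2155874304) (.ev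
 (nat_lit 116) (nat_lit 16) (.ev (nat_lit 148) (nat_lit 295148186654330060800) (.ev (nat_lit 180) (nat_lit
 4398046576640) (.nd (nat_lit 704) (.br (nat_lit 23) (.br (nat_lit 17) (.br (nat_lit 2) (.ch (nat_lit 0) (.ev
 (nat_lit 720) (nat_lit 1328201742841595035648) .dd)) (.br (nat_lit 6) (.ch (nat_lit 2) (.ev (nat_lit 720)
 (nat_lit 147574093327164768256) (.ev (nat_lit 816) (nat_lit 36028797018963968) (.ev (nat_lit 829) (nat_lit
 1180591620717411303424) .dd)))) (.ch (nat_lit 6) (.ev (nat_lit 720) (nat_lit 1328201602104106680320) (.ev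
 (nat_lit 733) (nat_lit 140737488355328) .dd))))) (.br (nat_lit 19) (.ch (nat_lit 17) (.ev (nat_lit 720)
 (nat_lit 1328201742841595035648) .dd)) (.br (nat_lit 22) (.ch (nat_lit 19) (.ev (nat_lit 720) (nat_lit
 147610122124183732224) (.ev (nat_lit 733) (nat_lit 1180591620717411303424) .dd))) (.ch (nat_lit 22) (.ev
 (nat_lit 720) (nat_lit 1328201602104106680320) (.ev (nat_lit 733) (nat_lit 140737488355328) .dd)))))) (.br
 (nat_lit 30) (.br (nat_lit 24) (.ch (nat_lit 23) (.ev (nat_lit 720) (nat_lit 1180627790251918622720) (.ev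
 (nat_lit 733) (nat_lit 147573952589676412928) .dd))) (.br (nat_lit 28) (.ch (nat_lit 24) (.ev (nat_lit 720)
 (nat_lit 1328201602104106680320) (.ev (nat_lit 733) (nat_lit 140737488355328) .dd))) (.ch (nat_lit 28) (.ev
 (nat_lit 720) (nat_lit 1328201742841595035648) .dd)))) (.br (nat_lit 34) (.br (nat_lit 32) (.ch (nat_lit 30)
 (.ev (nat_lit 720) (nat_lit 1328201742841595035648) .dd)) (.ch (nat_lit 32) (.ev (nat_lit 720) (nat_lit
 1328165714044576071680) (.ev (nat_lit 733) (nat_lit 36028797018963968) .dd)))) (.br (nat_lit 39) (.ch (nat_lit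
 34) (.ev (nat_lit 720) (nat_lit 1180627790251918622720) (.ev (nat_lit 733) (nat_lit 147573952589676412928)
 .dd))) (.ch (nat_lit 39) (.ev (nat_lit 720) (nat_lit 1328201742841595035648) .dd))))))))))))) (.ch (nat_lit
 27) (.ev (nat_lit 52) (nat_lit 27303143607992352) (.ev (nat_lit 64) (nat_lit 1623349723338040412560) .dd)))))
 (.br (nat_lit 31) (.br (nat_lit 29) (.ch (nat_lit 28) (.ev (nat_lit 52) (nat_lit 1180591691154875255056) (.ev
 (nat_lit 84) (nat_lit 36028799174836256) (.ev (nat_lit 116) (nat_lit 281474976710656) (.ev (nat_lit 148)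
 (nat_lit 524288) (.ev (nat_lit 180) (nat_lit 18014398509481984) (.ev (nat_lit 212) (nat_lit 140737488355328)
 (.ev (nat_lit 372) (nat_lit 4398046511104) (.nd (nat_lit 704) (.br (nat_lit 19) (.br (nat_lit 12) (.br
 (nat_lit 2) (.ch (nat_lit 0) (.ev (nat_lit 720) (nat_lit 442730865518576730112) (.ev (nat_lit 733) (nat_lit
 128) .dd))) (.br (nat_lit 8) (.ch (nat_lit 2) (.ev (nat_lit 720) (nat_lit 442730865518039859328) (.ev (nat_lit
 733) (nat_lit 536870912) .dd))) (.ch (nat_lit 8) (.ev (nat_lit 720) (nat_lit 442730865518576730240) .dd))))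
 (.br (nat_lit 17) (.ch (nat_lit 12) (.ev (nat_lit 720) (nat_lit 442721858318785118336) (.ev (nat_lit 736)
 (nat_lit 9007199791611904) .dd))) (.br (nat_lit 18) (.ch (nat_lit 17) (.ev (nat_lit 720) (nat_lit
 442730865518576730112) (.ev (nat_lit 733) (nat_lit 128) .dd))) (.ch (nat_lit 18) (.ev (nat_lit 720) (nat_lit
 442730865518039859328) (.ev (nat_lit 733) (nat_lit 536870912) .dd)))))) (.br (nat_lit 34) (.br (nat_lit 20)
 (.ch (nat_lit 19) (.ev (nat_lit 720) (nat_lit 295147905179889762432) (.ev (nat_lit 736) (nat_lit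
 147573952589676412928) (.ev (nat_lit 848) (nat_lit 549755813888) (.ev (nat_lit 861) (nat_lit 9007199254740992)
 .dd))))) (.br (nat_lit 25) (.ch (nat_lit 20) (.ev (nat_lit 720) (nat_lit 442721858319321923584) (.ev (nat_lit
 788) (nat_lit 65536) (.ev (nat_lit 800) (nat_lit 128) (.ev (nat_lit 813) (nat_lit 9007199254740992) .dd)))))
 (.ch (nat_lit 25) (.ev (nat_lit 720) (nat_lit 442730865518576730240) .dd)))) (.br (nat_lit 37) (.ch (nat_lit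
 34) (.ev (nat_lit 720) (nat_lit 147582960338686967936) (.ev (nat_lit 788) (nat_lit 295147905179352825856) (.ev
 (nat_lit 800) (nat_lit 536870912) (.ev (nat_lit 813) (nat_lit 65536) .dd))))) (.br (nat_lit 39) (.ch (nat_lit
 37) (.ev (nat_lit 720) (nat_lit 442730864968820916352) (.ev (nat_lit 733) (nat_lit 549755813888) .dd))) (.ch
 (nat_lit 39) (.ev (nat_lit 720) (nat_lit 147573953139969163392) (.ev (nat_lit 736) (nat_lit 9007199254740992)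
 (.ev (nat_lit 749) (nat_lit 295147905179352825856) .dd))))))))))))))))) (.ch (nat_lit 29) (.ev (nat_lit 52)
 (nat_lit 1180646156563405701424) (.ev (nat_lit 84) (nat_lit 2147483648) (.ev (nat_lit 160) (nat_lit
 442730869916095219840) .dd))))) (.br (nat_lit 32) (.ch (nat_lit 31) (.ev (nat_lit 52) (nat_lit
 147600974739352322336) (.ev (nat_lit 84) (nat_lit 262144) (.ev (nat_lit 116) (nat_lit 536871040) (.ev (nat_lit
 148) (nat_lit 4398046511104) (.ev (nat_lit 180) (nat_lit 70437464178688) (.nd (nat_lit 704) (.br (nat_lit 21)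
 (.br (nat_lit 13) (.br (nat_lit 8) (.ch (nat_lit 2) (.ev (nat_lit 720) (nat_lit 1475739948109229295632) (.ev
 (nat_lit 733) (nat_lit 36028797018963968) .dd))) (.br (nat_lit 11) (.ch (nat_lit 8) (.ev (nat_lit 720)
 (nat_lit 1180591902192388114448) (.ev (nat_lit 800) (nat_lit 36028797018963968) (.ev (nat_lit 832) (nat_lit
 295147905179352825856) (.ev (nat_lit 845) (nat_lit 140737488355328) .dd))))) (.ch (nat_lit 11) (.ev (nat_lit
 720) (nat_lit 1475739948109229293568) (.ev (nat_lit 832) (nat_lit 16) (.ev (nat_lit 864) (nat_lit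
 36028797018966016) .dd)))))) (.br (nat_lit 18) (.ch (nat_lit 13) (.ev (nat_lit 720) (nat_lit
 1475775695431271516176) (.ev (nat_lit 736) (nat_lit 281474976743424) .dd))) (.br (nat_lit 20) (.ch (nat_lit
 18) (.ev (nat_lit 720) (nat_lit 1475739948109229295632) (.ev (nat_lit 733) (nat_lit 36028797018963968) .dd)))
 (.ch (nat_lit 20) (.ev (nat_lit 720) (nat_lit 1475775976906248257552) (.ev (nat_lit 733) (nat_lit 2048)
 .dd)))))) (.br (nat_lit 32) (.br (nat_lit 22) (.ch (nat_lit 21) (.ev (nat_lit 720) (nat_lit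
 295184356188836956176) (.ev (nat_lit 733) (nat_lit 1180591620717411303424) .dd))) (.br (nat_lit 31) (.ch
 (nat_lit 22) (.ev (nat_lit 720) (nat_lit 1475775836168759904272) (.ev (nat_lit 733) (nat_lit 140737488355328)
 .dd))) (.ch (nat_lit 31) (.ev (nat_lit 720) (nat_lit 1475775836168759805968) (.ev (nat_lit 788) (nat_lit
 65536) (.ev (nat_lit 800) (nat_lit 140737488355328) (.ev (nat_lit 813) (nat_lit 32768) .dd))))))) (.br
 (nat_lit 37) (.ch (nat_lit 32) (.ev (nat_lit 720) (nat_lit 1475739807371740940304) (.ev (nat_lit 736) (nat_lit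
 140737488355328) (.ev (nat_lit 749) (nat_lit 36028797018963968) .dd)))) (.br (nat_lit 39) (.ch (nat_lit 37)
 (.ev (nat_lit 720) (nat_lit 1180628071726895431696) (.ev (nat_lit 800) (nat_lit 295147905179352825856) (.ev
 (nat_lit 813) (nat_lit 2048) .dd)))) (.ch (nat_lit 39) (.ev (nat_lit 720) (nat_lit 1180628071726895433744)
 (.ev (nat_lit 733) (nat_lit 295147905179352825856) .dd)))))))))))))) (.ch (nat_lit 32) (.ev (nat_lit 52)
 (nat_lit 27096435422431248) (.ev (nat_lit 64) (nat_lit 1623349930046225973664) .dd)))))) (.br (nat_lit 42)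
 (.br (nat_lit 36) (.br (nat_lit 35) (.ch (nat_lit 33) (.ev (nat_lit 52) (nat_lit 147573957539626221584) (.ev
 (nat_lit 84) (nat_lit 36028797018964000) (.ev (nat_lit 116) (nat_lit 295147905248072302592) (.ev (nat_lit 148)
 (nat_lit 9077567998918912) (.ev (nat_lit 180) (nat_lit 537397248) (.ev (nat_lit 212) (nat_lit 140737488355328)
 (.nd (nat_lit 704) (.br (nat_lit 21) (.br (nat_lit 8) (.br (nat_lit 2) (.ch (nat_lit 0) (.ev (nat_lit 720)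
 (nat_lit 18295873486487552) (.ev (nat_lit 736) (nat_lit 8388608) (.ev (nat_lit 800) (nat_lit 128) (.ev
 (nat_lit 816) (nat_lit 1180591620717411303424) (.ev (nat_lit 829) (nat_lit 65536) .dd)))))) (.br (nat_lit 6)
 (.ch (nat_lit 2) (.ev (nat_lit 720) (nat_lit 1180609916590906245248) .dd)) (.ch (nat_lit 6) (.ev (nat_lit 720)
 (nat_lit 1180609916590905983104) (.ev (nat_lit 733) (nat_lit 262144) .dd))))) (.br (nat_lit 15) (.ch (nat_lit
 8) (.ev (nat_lit 720) (nat_lit 18295873494941696) (.ev (nat_lit 880) (nat_lit 1180591620717411303424) (.ev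
 (nat_lit 893) (nat_lit 128) .dd)))) (.br (nat_lit 17) (.ch (nat_lit 15) (.ev (nat_lit 720) (nat_lit
 1180609916590906179712) (.ev (nat_lit 733) (nat_lit 65536) .dd))) (.ch (nat_lit 17) (.ev (nat_lit 720)
 (nat_lit 1180609635115929501824) (.ev (nat_lit 788) (nat_lit 32768) (.ev (nat_lit 797) (nat_lit
 281474976710656) .dd))))))) (.br (nat_lit 25) (.br (nat_lit 22) (.ch (nat_lit 21) (.ev (nat_lit 720) (nat_lit
 281474985459712) (.ev (nat_lit 788) (nat_lit 1180591620717411303552) (.ev (nat_lit 797) (nat_lit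
 18014398509481984) .dd)))) (.br (nat_lit 24) (.ch (nat_lit 22) (.ev (nat_lit 720) (nat_lit
 1180609916590906245248) .dd)) (.ch (nat_lit 24) (.ev (nat_lit 720) (nat_lit 1180609916590897758336) (.ev
 (nat_lit 816) (nat_lit 32768) (.ev (nat_lit 864) (nat_lit 8454144) .dd)))))) (.br (nat_lit 37) (.br (nat_lit
 31) (.ch (nat_lit 25) (.ev (nat_lit 720) (nat_lit 1180609916590906245248) .dd)) (.ch (nat_lit 31) (.ev
 (nat_lit 720) (nat_lit 1180609916590906245120) (.ev (nat_lit 733) (nat_lit 128) .dd)))) (.br (nat_lit 39) (.ch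
 (nat_lit 37) (.ev (nat_lit 720) (nat_lit 1180609916590906245120) (.ev (nat_lit 733) (nat_lit 128) .dd))) (.ch
 (nat_lit 39) (.ev (nat_lit 720) (nat_lit 1180609916590906245248) .dd)))))))))))))) (.ch (nat_lit 35) (.ev
 (nat_lit 52) (nat_lit 1180645809598239344896) (.ev (nat_lit 84) (nat_lit 281474976710656) (.ev (nat_lit 96)
 (nat_lit 442730935408432349360) .dd))))) (.br (nat_lit 38) (.ch (nat_lit 36) (.ev (nat_lit 52) (nat_lit
 1475748819040454312112) (.ev (nat_lit 84) (nat_lit 2048) (.ev (nat_lit 128) (nat_lit 147628207441194090752)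
 .dd)))) (.ch (nat_lit 38) (.ev (nat_lit 52) (nat_lit 442785053849649252352) (.ev (nat_lit 84) (nat_lit
 68719476992) (.ev (nat_lit 116) (nat_lit 16) (.ev (nat_lit 148) (nat_lit 2147483648) (.ev (nat_lit 180)
 (nat_lit 1180591620717411303552) (.nd (nat_lit 704) (.br (nat_lit 22) (.br (nat_lit 13) (.br (nat_lit 2) (.ch
 (nat_lit 0) (.ev (nat_lit 720) (nat_lit 281474976710688) (.ev (nat_lit 733) (nat_lit 70368744177664) .dd)))
 (.br (nat_lit 12) (.ch (nat_lit 2) (.ev (nat_lit 720) (nat_lit 351843720888352) .dd)) (.ch (nat_lit 12) (.ev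
 (nat_lit 720) (nat_lit 351843720888352) .dd)))) (.br (nat_lit 19) (.br (nat_lit 15) (.ch (nat_lit 13) (.ev
 (nat_lit 720) (nat_lit 351843720888352) .dd)) (.ch (nat_lit 15) (.ev (nat_lit 720) (nat_lit 281474976710688)
 (.ev (nat_lit 733) (nat_lit 70368744177664) .dd)))) (.br (nat_lit 21) (.ch (nat_lit 19) (.ev (nat_lit 720)
 (nat_lit 281474976710688) (.ev (nat_lit 733) (nat_lit 70368744177664) .dd))) (.ch (nat_lit 21) (.ev (nat_lit
 720) (nat_lit 70368744177664) (.ev (nat_lit 788) (nat_lit 32) (.ev (nat_lit 797) (nat_lit 281474976710656)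
 .dd))))))) (.br (nat_lit 32) (.br (nat_lit 24) (.ch (nat_lit 22) (.ev (nat_lit 720) (nat_lit 351843720888352)
 .dd)) (.br (nat_lit 25) (.ch (nat_lit 24) (.ev (nat_lit 720) (nat_lit 281474976710688) (.ev (nat_lit 733)
 (nat_lit 70368744177664) .dd))) (.ch (nat_lit 25) (.ev (nat_lit 720) (nat_lit 281474976710688) (.ev (nat_lit
 733) (nat_lit 70368744177664) .dd))))) (.br (nat_lit 37) (.br (nat_lit 34) (.ch (nat_lit 32) (.ev (nat_lit
 720) (nat_lit 281474976710688) (.ev (nat_lit 733) (nat_lit 70368744177664) .dd))) (.ch (nat_lit 34) (.ev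
 (nat_lit 720) (nat_lit 351843720888352) .dd))) (.br (nat_lit 39) (.ch (nat_lit 37) (.ev (nat_lit 720) (nat_lit
 351843720888352) .dd)) (.ch (nat_lit 39) (.ev (nat_lit 720) (nat_lit 281474976710688) (.ev (nat_lit 733)
 (nat_lit 70368744177664) .dd)))))))))))))))) (.br (nat_lit 45) (.br (nat_lit 44) (.ch (nat_lit 42) (.ev
 (nat_lit 52) (nat_lit 295166060865643972656) (.ev (nat_lit 84) (nat_lit 36028797019226112) (.ev (nat_lit 116)
 (nat_lit 256) (.ev (nat_lit 160) (nat_lit 1328174936818985205888) .dd))))) (.ch (nat_lit 44) (.ev (nat_lit 52)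
 (nat_lit 1180591907142337890464) (.ev (nat_lit 64) (nat_lit 442785119339310514448) .dd)))) (.br (nat_lit 46)
 (.ch (nat_lit 45) (.ev (nat_lit 52) (nat_lit 1475776051741758620048) (.ev (nat_lit 84) (nat_lit
 147573952589676412928) (.ev (nat_lit 116) (nat_lit 27021599911706624) (.ev (nat_lit 212) (nat_lit 536870912)
 (.nd (nat_lit 704) (.br (nat_lit 23) (.br (nat_lit 19) (.br (nat_lit 11) (.ch (nat_lit 6) (.ev (nat_lit 720)
 (nat_lit 549756403744) (.ev (nat_lit 788) (nat_lit 2048) (.ev (nat_lit 797) (nat_lit 8388608) .dd)))) (.br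
 (nat_lit 17) (.ch (nat_lit 11) (.ev (nat_lit 720) (nat_lit 549764792352) (.ev (nat_lit 733) (nat_lit 2048)
 .dd))) (.ch (nat_lit 17) (.ev (nat_lit 720) (nat_lit 549764794368) (.ev (nat_lit 733) (nat_lit 32) .dd)))))
 (.br (nat_lit 21) (.br (nat_lit 20) (.ch (nat_lit 19) (.ev (nat_lit 720) (nat_lit 8454176) (.ev (nat_lit 736)
 (nat_lit 549755813888) (.ev (nat_lit 788) (nat_lit 2048) (.ev (nat_lit 797) (nat_lit 524288) .dd))))) (.ch
 (nat_lit 20) (.ev (nat_lit 720) (nat_lit 8978464) (.ev (nat_lit 788) (nat_lit 2048) (.ev (nat_lit 797)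
 (nat_lit 549755813888) .dd))))) (.br (nat_lit 22) (.ch (nat_lit 21) (.ev (nat_lit 720) (nat_lit 549756405760)
 (.ev (nat_lit 880) (nat_lit 32) (.ev (nat_lit 893) (nat_lit 8388608) .dd)))) (.ch (nat_lit 22) (.ev (nat_lit
 720) (nat_lit 549756403744) (.ev (nat_lit 752) (nat_lit 8388608) (.ev (nat_lit 765) (nat_lit 2048) .dd)))))))
 (.br (nat_lit 31) (.br (nat_lit 24) (.ch (nat_lit 23) (.ev (nat_lit 720) (nat_lit 549756340256) (.ev (nat_lit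
 848) (nat_lit 8388608) (.ev (nat_lit 861) (nat_lit 65536) .dd)))) (.br (nat_lit 30) (.ch (nat_lit 24) (.ev
 (nat_lit 720) (nat_lit 549764726816) (.ev (nat_lit 788) (nat_lit 2048) (.ev (nat_lit 797) (nat_lit 65536)
 .dd)))) (.ch (nat_lit 30) (.ev (nat_lit 720) (nat_lit 549756405792) (.ev (nat_lit 733) (nat_lit 8388608)
 .dd))))) (.br (nat_lit 37) (.br (nat_lit 32) (.ch (nat_lit 31) (.ev (nat_lit 720) (nat_lit 549764728864) (.ev
 (nat_lit 733) (nat_lit 65536) .dd))) (.ch (nat_lit 32) (.ev (nat_lit 720) (nat_lit 549764792352) (.ev (nat_lit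
 733) (nat_lit 2048) .dd)))) (.br (nat_lit 39) (.ch (nat_lit 37) (.ev (nat_lit 720) (nat_lit 549756405760) (.ev
 (nat_lit 788) (nat_lit 8388608) (.ev (nat_lit 797) (nat_lit 32) .dd)))) (.ch (nat_lit 39) (.ev (nat_lit 720)
 (nat_lit 549756405792) (.ev (nat_lit 733) (nat_lit 8388608) .dd))))))))))))) (.ch (nat_lit 46) (.ev (nat_lit
 52) (nat_lit 1623322767229928900640) (.ev (nat_lit 84) (nat_lit 18014398509482240) (.ev (nat_lit 128) (nat_lit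
 36244853210022032) .dd)))))))))))

/-- The trie. -/
noncomputable def T : Tr := .nd (nat_lit 1000000) (.br (nat_lit 16) (.br (nat_lit 7) (.br (nat_lit 3) (.br
 (nat_lit 1) (.ch (nat_lit 0) (.ev (nat_lit 0) (nat_lit 2361183241434822606847) .dd)) (.br (nat_lit 2) (.ch
 (nat_lit 1) T1) (.ch (nat_lit 2) (.ev (nat_lit 0) (nat_lit 2361183241434822606847) .dd)))) (.br (nat_lit 4)
 (.ch (nat_lit 3) (.ev (nat_lit 0) (nat_lit 2361183241434822606847) .dd)) (.br (nat_lit 6) (.ch (nat_lit 4) T4)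
 (.ch (nat_lit 6) T6)))) (.br (nat_lit 11) (.br (nat_lit 9) (.ch (nat_lit 7) T7) (.br (nat_lit 10) (.ch
 (nat_lit 9) T9) (.ch (nat_lit 10) T10))) (.br (nat_lit 14) (.ch (nat_lit 11) (.ev (nat_lit 0) (nat_lit
 2361183241434822606847) .dd)) (.br (nat_lit 15) (.ch (nat_lit 14) (.ev (nat_lit 0) (nat_lit
 2361183241434822606847) .dd)) (.ch (nat_lit 15) (.ev (nat_lit 0) (nat_lit 2361183241434822606847) .dd))))))
 (.br (nat_lit 27) (.br (nat_lit 20) (.br (nat_lit 17) (.ch (nat_lit 16) (.ev (nat_lit 0) (nat_lit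
 2361183241434822606847) .dd)) (.br (nat_lit 19) (.ch (nat_lit 17) T17) (.ch (nat_lit 19) (.ev (nat_lit 0)
 (nat_lit 2361183241434822606847) .dd)))) (.br (nat_lit 23) (.ch (nat_lit 20) (.ev (nat_lit 0) (nat_lit
 2361183241434822606847) .dd)) (.br (nat_lit 24) (.ch (nat_lit 23) (.ev (nat_lit 0) (nat_lit
 2361183241434822606847) .dd)) (.ch (nat_lit 24) (.ev (nat_lit 0) (nat_lit 2361183241434822606847) .dd)))))
 (.br (nat_lit 32) (.br (nat_lit 28) (.ch (nat_lit 27) (.ev (nat_lit 0) (nat_lit 2361183241434822606847) .dd))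
 (.br (nat_lit 29) (.ch (nat_lit 28) (.ev (nat_lit 0) (nat_lit 2361183241434822606847) .dd)) (.ch (nat_lit 29)
 (.ev (nat_lit 0) (nat_lit 2361183241434822606847) .dd)))) (.br (nat_lit 40) (.ch (nat_lit 32) (.ev (nat_lit 0)
 (nat_lit 2361183241434822606847) .dd)) (.br (nat_lit 41) (.ch (nat_lit 40) (.ev (nat_lit 0) (nat_lit
 2361183241434822606847) .dd)) (.ch (nat_lit 41) (.ev (nat_lit 0) (nat_lit 2361183241434822606847) .dd)))))))

/-- The possible values. -/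
noncomputable def oks : List ℕ := [7, 34, 706]

/-- The parameters. -/
noncomputable def S : Pr := ⟨fun i l e => lget mz (lget [] (lget [] tabs i) l) e, oks, [(nat_lit 0), (nat_lit
 1), (nat_lit 0)], T, (nat_lit 2361183241434822606847), (nat_lit 87122173451996128837), (nat_lit 71), [(nat_lit
 3303796230157), (nat_lit 12800101590481)], [(nat_lit 1849), (nat_lit 2209)]⟩

/-- Nothing known. -/
noncomputable def cs0 : Cs := (.cons (nat_lit 43) (nat_lit 0) (nat_lit 1) (.cons (nat_lit 47) (nat_lit 0) (nat_lit 1) .nil))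

theorem part_1 : part S cs0 (nat_lit 1) = true := by decide +kernel

theorem part_4 : part S cs0 (nat_lit 4) = true := by decide +kernel

theorem part_6 : part S cs0 (nat_lit 6) = true := by decide +kernel

theorem part_7 : part S cs0 (nat_lit 7) = true := by decide +kernel

theorem part_9 : part S cs0 (nat_lit 9) = true := by decide +kernel

theorem part_10 : part S cs0 (nat_lit 10) = true := by decide +kernel

theorem part_17 : part S cs0 (nat_lit 17) = true := by decide +kernel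

/-- Data of a prime. -/
noncomputable def D0 : PD := ⟨(nat_lit 43), (nat_lit 2), (989, 1, 17), (1652, 774, 636), (172, 5, 130)⟩

theorem D0_ok : D0.Ok := pdb_sound (s := 1) (C := ⟨⟨43, -38, -44, 43, 38, 1, 0, 9, -19⟩, (5, 38, 9)⟩) (by show Nat.Prime 43; norm_num) (by decide +kernel)

/-- Lines of the first type. -/
noncomputable def Cl0 : List C1 := [⟨⟨43, 38, -44, 43, -38, 1, 0, -9, -19⟩, (42, 1, 24)⟩,
  ⟨⟨0, 0, 0, 0, 0, 0, 0, 0, 0⟩, (0, 0, 0)⟩,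
  ⟨⟨57, -18, -16, -17, -58, 1, 4, 1, -23⟩, (41, 27, 24)⟩,
  ⟨⟨7, -38, -56, -33, -42, 49, -16, 7, -1⟩, (28, 40, 22)⟩,
  ⟨⟨0, 0, 0, 0, 0, 0, 0, 0, 0⟩, (0, 0, 0)⟩,
  ⟨⟨0, 0, 0, 0, 0, 0, 0, 0, 0⟩, (0, 0, 0)⟩,
  ⟨⟨0, 0, 0, 0, 0, 0, 0, 0, 0⟩, (0, 0, 0)⟩,
  ⟨⟨0, 0, 0, 0, 0, 0, 0, 0, 0⟩, (0, 0, 0)⟩,
  ⟨⟨0, 0, 0, 0, 0, 0, 0, 0, 0⟩, (0, 0, 0)⟩,
  ⟨⟨0, 0, 0, 0, 0, 0, 0, 0, 0⟩, (0, 0, 0)⟩,
  ⟨⟨0, 0, 0, 0, 0, 0, 0, 0, 0⟩, (0, 0, 0)⟩,
  ⟨⟨27, -18, -71, -53, -22, 4, -4, 17, -7⟩, (6, 36, 23)⟩,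
  ⟨⟨0, 0, 0, 0, 0, 0, 0, 0, 0⟩, (0, 0, 0)⟩,
  ⟨⟨0, 0, 0, 0, 0, 0, 0, 0, 0⟩, (0, 0, 0)⟩,
  ⟨⟨-7, -2, -64, -47, -38, 31, 12, -15, -7⟩, (37, 15, 41)⟩,
  ⟨⟨-7, 2, -64, -47, 38, 31, 12, 15, -7⟩, (3, 14, 1)⟩,
  ⟨⟨-7, 38, -49, 33, 42, 16, 16, -7, -17⟩, (27, 14, 12)⟩,
  ⟨⟨0, 0, 0, 0, 0, 0, 0, 0, 0⟩, (0, 0, 0)⟩,
  ⟨⟨0, 0, 0, 0, 0, 0, 0, 0, 0⟩, (0, 0, 0)⟩,
  ⟨⟨57, 18, -16, -17, 58, 1, 4, -1, -23⟩, (36, 30, 41)⟩,
  ⟨⟨53, 22, -49, 27, -18, 44, 4, -17, -11⟩, (6, 42, 11)⟩,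
  ⟨⟨0, 0, 0, 0, 0, 0, 0, 0, 0⟩, (0, 0, 0)⟩,
  ⟨⟨0, 0, 0, 0, 0, 0, 0, 0, 0⟩, (0, 0, 0)⟩,
  ⟨⟨27, 18, -71, -53, 22, 4, -4, -17, -7⟩, (1, 6, 11)⟩,
  ⟨⟨57, -18, -41, -17, -58, 16, -4, -1, -19⟩, (7, 13, 41)⟩,
  ⟨⟨0, 0, 0, 0, 0, 0, 0, 0, 0⟩, (0, 0, 0)⟩,
  ⟨⟨0, 0, 0, 0, 0, 0, 0, 0, 0⟩, (0, 0, 0)⟩,
  ⟨⟨7, 38, -56, -33, 42, 49, -16, -7, -1⟩, (27, 14, 12)⟩,
  ⟨⟨7, 2, -71, -47, -38, 16, 12, -15, -5⟩, (3, 29, 42)⟩,
  ⟨⟨7, -2, -71, -47, 38, 16, 12, 15, -5⟩, (37, 28, 2)⟩,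
  ⟨⟨0, 0, 0, 0, 0, 0, 0, 0, 0⟩, (0, 0, 0)⟩,
  ⟨⟨0, 0, 0, 0, 0, 0, 0, 0, 0⟩, (0, 0, 0)⟩,
  ⟨⟨53, -22, -49, 27, 18, 44, 4, 17, -11⟩, (36, 37, 23)⟩,
  ⟨⟨0, 0, 0, 0, 0, 0, 0, 0, 0⟩, (0, 0, 0)⟩,
  ⟨⟨0, 0, 0, 0, 0, 0, 0, 0, 0⟩, (0, 0, 0)⟩,
  ⟨⟨0, 0, 0, 0, 0, 0, 0, 0, 0⟩, (0, 0, 0)⟩,
  ⟨⟨0, 0, 0, 0, 0, 0, 0, 0, 0⟩, (0, 0, 0)⟩,
  ⟨⟨0, 0, 0, 0, 0, 0, 0, 0, 0⟩, (0, 0, 0)⟩,
  ⟨⟨0, 0, 0, 0, 0, 0, 0, 0, 0⟩, (0, 0, 0)⟩,
  ⟨⟨0, 0, 0, 0, 0, 0, 0, 0, 0⟩, (0, 0, 0)⟩,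
  ⟨⟨-7, -38, -49, 33, -42, 16, 16, 7, -17⟩, (28, 40, 22)⟩,
  ⟨⟨57, 18, -41, -17, 58, 16, -4, 1, -19⟩, (2, 16, 24)⟩,
  ⟨⟨0, 0, 0, 0, 0, 0, 0, 0, 0⟩, (0, 0, 0)⟩]

/-- Data of a prime. -/
noncomputable def D1 : PD := ⟨(nat_lit 47), (nat_lit 2), (1034, 1, 9), (105, 517, 2039), (987, 5, 190)⟩

theorem D1_ok : D1.Ok := pdb_sound (s := 1) (C := ⟨⟨47, 2, -76, 47, -2, 29, 0, -21, -1⟩, (2, 45, 26)⟩) (by show Nat.Prime 47; norm_num) (by decide +kernel)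

/-- Lines of the first type. -/
noncomputable def Cl1 : List C1 := [⟨⟨47, -2, -76, 47, 2, 29, 0, 21, -1⟩, (9, 38, 23)⟩,
  ⟨⟨0, 0, 0, 0, 0, 0, 0, 0, 0⟩, (0, 0, 0)⟩,
  ⟨⟨0, 0, 0, 0, 0, 0, 0, 0, 0⟩, (0, 0, 0)⟩,
  ⟨⟨0, 0, 0, 0, 0, 0, 0, 0, 0⟩, (0, 0, 0)⟩,
  ⟨⟨17, 22, -76, -63, 18, 19, -4, -19, -7⟩, (10, 21, 17)⟩,
  ⟨⟨0, 0, 0, 0, 0, 0, 0, 0, 0⟩, (0, 0, 0)⟩,
  ⟨⟨57, -18, -61, -23, -62, 4, -8, 5, -17⟩, (3, 26, 7)⟩,
  ⟨⟨57, 18, -61, -23, 62, 4, -8, -5, -17⟩, (16, 29, 6)⟩,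
  ⟨⟨53, -22, -64, -13, -62, 29, -12, -3, -13⟩, (46, 10, 2)⟩,
  ⟨⟨0, 0, 0, 0, 0, 0, 0, 0, 0⟩, (0, 0, 0)⟩,
  ⟨⟨43, -38, -59, 3, -42, 56, -16, -11, -1⟩, (35, 9, 46)⟩,
  ⟨⟨0, 0, 0, 0, 0, 0, 0, 0, 0⟩, (0, 0, 0)⟩,
  ⟨⟨0, 0, 0, 0, 0, 0, 0, 0, 0⟩, (0, 0, 0)⟩,
  ⟨⟨-17, -22, -59, -63, 18, 44, 4, 19, -11⟩, (15, 39, 2)⟩,
  ⟨⟨0, 0, 0, 0, 0, 0, 0, 0, 0⟩, (0, 0, 0)⟩,
  ⟨⟨0, 0, 0, 0, 0, 0, 0, 0, 0⟩, (0, 0, 0)⟩,
  ⟨⟨0, 0, 0, 0, 0, 0, 0, 0, 0⟩, (0, 0, 0)⟩,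
  ⟨⟨53, 22, -64, -13, 62, 29, -12, 3, -13⟩, (41, 13, 12)⟩,
  ⟨⟨0, 0, 0, 0, 0, 0, 0, 0, 0⟩, (0, 0, 0)⟩,
  ⟨⟨0, 0, 0, 0, 0, 0, 0, 0, 0⟩, (0, 0, 0)⟩,
  ⟨⟨0, 0, 0, 0, 0, 0, 0, 0, 0⟩, (0, 0, 0)⟩,
  ⟨⟨0, 0, 0, 0, 0, 0, 0, 0, 0⟩, (0, 0, 0)⟩,
  ⟨⟨0, 0, 0, 0, 0, 0, 0, 0, 0⟩, (0, 0, 0)⟩,
  ⟨⟨43, 38, -59, 3, 42, 56, -16, 11, -1⟩, (5, 8, 20)⟩,
  ⟨⟨3, -42, -59, 43, -38, 16, 16, 11, -17⟩, (39, 42, 20)⟩,
  ⟨⟨0, 0, 0, 0, 0, 0, 0, 0, 0⟩, (0, 0, 0)⟩,
  ⟨⟨0, 0, 0, 0, 0, 0, 0, 0, 0⟩, (0, 0, 0)⟩,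
  ⟨⟨0, 0, 0, 0, 0, 0, 0, 0, 0⟩, (0, 0, 0)⟩,
  ⟨⟨0, 0, 0, 0, 0, 0, 0, 0, 0⟩, (0, 0, 0)⟩,
  ⟨⟨0, 0, 0, 0, 0, 0, 0, 0, 0⟩, (0, 0, 0)⟩,
  ⟨⟨-13, -62, -16, 53, -22, 11, 12, 3, -25⟩, (34, 6, 12)⟩,
  ⟨⟨0, 0, 0, 0, 0, 0, 0, 0, 0⟩, (0, 0, 0)⟩,
  ⟨⟨0, 0, 0, 0, 0, 0, 0, 0, 0⟩, (0, 0, 0)⟩,
  ⟨⟨0, 0, 0, 0, 0, 0, 0, 0, 0⟩, (0, 0, 0)⟩,
  ⟨⟨17, -22, -76, -63, -18, 19, -4, 19, -7⟩, (15, 8, 2)⟩,
  ⟨⟨0, 0, 0, 0, 0, 0, 0, 0, 0⟩, (0, 0, 0)⟩,
  ⟨⟨0, 0, 0, 0, 0, 0, 0, 0, 0⟩, (0, 0, 0)⟩,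
  ⟨⟨3, 42, -59, 43, 38, 16, 16, -11, -17⟩, (38, 12, 46)⟩,
  ⟨⟨0, 0, 0, 0, 0, 0, 0, 0, 0⟩, (0, 0, 0)⟩,
  ⟨⟨-13, 62, -16, 53, 22, 11, 12, -3, -25⟩, (37, 1, 2)⟩,
  ⟨⟨23, 62, -19, 57, -18, 4, 8, -5, -25⟩, (29, 31, 6)⟩,
  ⟨⟨23, -62, -19, 57, 18, 4, 8, 5, -25⟩, (26, 44, 7)⟩,
  ⟨⟨0, 0, 0, 0, 0, 0, 0, 0, 0⟩, (0, 0, 0)⟩,
  ⟨⟨-17, 22, -59, -63, -18, 44, 4, -19, -11⟩, (10, 26, 17)⟩,
  ⟨⟨0, 0, 0, 0, 0, 0, 0, 0, 0⟩, (0, 0, 0)⟩,
  ⟨⟨0, 0, 0, 0, 0, 0, 0, 0, 0⟩, (0, 0, 0)⟩,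
  ⟨⟨0, 0, 0, 0, 0, 0, 0, 0, 0⟩, (0, 0, 0)⟩]

/-- Data of a prime. -/
noncomputable def Dm : PD := ⟨(nat_lit 71), (nat_lit 2), (72, 9, 33), (3977, 4536, 3372), (4173, 4400, 3526)⟩

theorem Dm_ok : Dm.Ok := pdb_sound (s := 11) (C := ⟨⟨59, 34, -112, -29, 94, 37, -24, -3, -11⟩, (59, 42, 47)⟩) (by show Nat.Prime 71; norm_num) (by decide +kernel)

/-- Lines of the first type. -/
noncomputable def Clm : List C1 := [⟨⟨-59, -34, -53, 29, -94, 8, 24, 3, -35⟩, (17, 47, 34)⟩,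
  ⟨⟨0, 0, 0, 0, 0, 0, 0, 0, 0⟩, (0, 0, 0)⟩,
  ⟨⟨49, -74, -77, 79, 14, 28, 12, 21, -29⟩, (59, 56, 13)⟩,
  ⟨⟨0, 0, 0, 0, 0, 0, 0, 0, 0⟩, (0, 0, 0)⟩,
  ⟨⟨0, 0, 0, 0, 0, 0, 0, 0, 0⟩, (0, 0, 0)⟩,
  ⟨⟨0, 0, 0, 0, 0, 0, 0, 0, 0⟩, (0, 0, 0)⟩,
  ⟨⟨79, -14, -107, 49, 74, 28, -12, 21, -17⟩, (44, 21, 5)⟩,
  ⟨⟨0, 0, 0, 0, 0, 0, 0, 0, 0⟩, (0, 0, 0)⟩,
  ⟨⟨0, 0, 0, 0, 0, 0, 0, 0, 0⟩, (0, 0, 0)⟩,
  ⟨⟨39, 66, -92, -89, 46, 37, -8, -19, -23⟩, (13, 65, 21)⟩,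
  ⟨⟨19, 46, -107, -91, -26, 8, 12, -27, -19⟩, (7, 30, 53)⟩,
  ⟨⟨0, 0, 0, 0, 0, 0, 0, 0, 0⟩, (0, 0, 0)⟩,
  ⟨⟨0, 0, 0, 0, 0, 0, 0, 0, 0⟩, (0, 0, 0)⟩,
  ⟨⟨99, 6, -67, 11, -94, 32, -4, -11, -31⟩, (13, 33, 59)⟩,
  ⟨⟨-39, -66, -53, -89, 46, 52, 8, 19, -31⟩, (17, 57, 22)⟩,
  ⟨⟨0, 0, 0, 0, 0, 0, 0, 0, 0⟩, (0, 0, 0)⟩,
  ⟨⟨0, 0, 0, 0, 0, 0, 0, 0, 0⟩, (0, 0, 0)⟩,
  ⟨⟨19, -46, -107, -91, 26, 8, 12, 27, -19⟩, (15, 44, 2)⟩,
  ⟨⟨0, 0, 0, 0, 0, 0, 0, 0, 0⟩, (0, 0, 0)⟩,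
  ⟨⟨0, 0, 0, 0, 0, 0, 0, 0, 0⟩, (0, 0, 0)⟩,
  ⟨⟨51, 66, -88, -59, 74, 67, -20, -5, -17⟩, (59, 64, 59)⟩,
  ⟨⟨49, 74, -77, 79, -14, 28, 12, -21, -29⟩, (6, 43, 29)⟩,
  ⟨⟨0, 0, 0, 0, 0, 0, 0, 0, 0⟩, (0, 0, 0)⟩,
  ⟨⟨0, 0, 0, 0, 0, 0, 0, 0, 0⟩, (0, 0, 0)⟩,
  ⟨⟨0, 0, 0, 0, 0, 0, 0, 0, 0⟩, (0, 0, 0)⟩,
  ⟨⟨31, 74, -83, -81, 54, 68, -16, -13, -19⟩, (8, 2, 60)⟩,
  ⟨⟨0, 0, 0, 0, 0, 0, 0, 0, 0⟩, (0, 0, 0)⟩,
  ⟨⟨11, 94, -43, -99, 6, 32, 4, -11, -35⟩, (69, 18, 38)⟩,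
  ⟨⟨-51, 66, -37, 59, 74, 8, 20, -5, -37⟩, (25, 56, 25)⟩,
  ⟨⟨0, 0, 0, 0, 0, 0, 0, 0, 0⟩, (0, 0, 0)⟩,
  ⟨⟨39, -66, -92, -89, -46, 37, -8, 19, -23⟩, (43, 2, 64)⟩,
  ⟨⟨0, 0, 0, 0, 0, 0, 0, 0, 0⟩, (0, 0, 0)⟩,
  ⟨⟨59, -34, -112, -29, -94, 37, -24, 3, -11⟩, (9, 4, 18)⟩,
  ⟨⟨0, 0, 0, 0, 0, 0, 0, 0, 0⟩, (0, 0, 0)⟩,
  ⟨⟨0, 0, 0, 0, 0, 0, 0, 0, 0⟩, (0, 0, 0)⟩,
  ⟨⟨-59, 34, -53, 29, 94, 8, 24, -3, -35⟩, (8, 43, 16)⟩,
  ⟨⟨0, 0, 0, 0, 0, 0, 0, 0, 0⟩, (0, 0, 0)⟩,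
  ⟨⟨11, -94, -43, -99, -6, 32, 4, 11, -35⟩, (2, 53, 33)⟩,
  ⟨⟨0, 0, 0, 0, 0, 0, 0, 0, 0⟩, (0, 0, 0)⟩,
  ⟨⟨0, 0, 0, 0, 0, 0, 0, 0, 0⟩, (0, 0, 0)⟩,
  ⟨⟨51, -66, -88, -59, -74, 67, -20, 5, -17⟩, (18, 46, 18)⟩,
  ⟨⟨-19, -46, -88, -91, -26, 83, -12, 27, -7⟩, (26, 61, 65)⟩,
  ⟨⟨0, 0, 0, 0, 0, 0, 0, 0, 0⟩, (0, 0, 0)⟩,
  ⟨⟨0, 0, 0, 0, 0, 0, 0, 0, 0⟩, (0, 0, 0)⟩,
  ⟨⟨0, 0, 0, 0, 0, 0, 0, 0, 0⟩, (0, 0, 0)⟩,
  ⟨⟨-19, 46, -88, -91, 26, 83, -12, -27, -7⟩, (18, 4, 45)⟩,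
  ⟨⟨0, 0, 0, 0, 0, 0, 0, 0, 0⟩, (0, 0, 0)⟩,
  ⟨⟨0, 0, 0, 0, 0, 0, 0, 0, 0⟩, (0, 0, 0)⟩,
  ⟨⟨0, 0, 0, 0, 0, 0, 0, 0, 0⟩, (0, 0, 0)⟩,
  ⟨⟨0, 0, 0, 0, 0, 0, 0, 0, 0⟩, (0, 0, 0)⟩,
  ⟨⟨0, 0, 0, 0, 0, 0, 0, 0, 0⟩, (0, 0, 0)⟩,
  ⟨⟨0, 0, 0, 0, 0, 0, 0, 0, 0⟩, (0, 0, 0)⟩,
  ⟨⟨99, -6, -67, 11, 94, 32, -4, 11, -31⟩, (48, 29, 54)⟩,
  ⟨⟨0, 0, 0, 0, 0, 0, 0, 0, 0⟩, (0, 0, 0)⟩,
  ⟨⟨0, 0, 0, 0, 0, 0, 0, 0, 0⟩, (0, 0, 0)⟩,
  ⟨⟨0, 0, 0, 0, 0, 0, 0, 0, 0⟩, (0, 0, 0)⟩,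
  ⟨⟨-51, -66, -37, 59, -74, 8, 20, 5, -37⟩, (55, 38, 55)⟩,
  ⟨⟨0, 0, 0, 0, 0, 0, 0, 0, 0⟩, (0, 0, 0)⟩,
  ⟨⟨0, 0, 0, 0, 0, 0, 0, 0, 0⟩, (0, 0, 0)⟩,
  ⟨⟨-31, -74, -52, -81, 54, 13, 16, 13, -35⟩, (64, 55, 54)⟩,
  ⟨⟨-31, 74, -52, -81, -54, 13, 16, -13, -35⟩, (11, 15, 47)⟩,
  ⟨⟨-39, 66, -53, -89, -46, 52, 8, -19, -31⟩, (58, 65, 50)⟩,
  ⟨⟨0, 0, 0, 0, 0, 0, 0, 0, 0⟩, (0, 0, 0)⟩,
  ⟨⟨79, 14, -107, 49, -74, 28, -12, -21, -17⟩, (57, 3, 21)⟩,
  ⟨⟨0, 0, 0, 0, 0, 0, 0, 0, 0⟩, (0, 0, 0)⟩,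
  ⟨⟨0, 0, 0, 0, 0, 0, 0, 0, 0⟩, (0, 0, 0)⟩,
  ⟨⟨31, -74, -83, -81, -54, 68, -16, 13, -19⟩, (61, 33, 67)⟩,
  ⟨⟨0, 0, 0, 0, 0, 0, 0, 0, 0⟩, (0, 0, 0)⟩,
  ⟨⟨0, 0, 0, 0, 0, 0, 0, 0, 0⟩, (0, 0, 0)⟩,
  ⟨⟨0, 0, 0, 0, 0, 0, 0, 0, 0⟩, (0, 0, 0)⟩,
  ⟨⟨0, 0, 0, 0, 0, 0, 0, 0, 0⟩, (0, 0, 0)⟩]

/-- Unit moves. -/
noncomputable def U : List Mv := [mz,
  mz,
  mz,
  mz,
  mz,
  ⟨⟨-1, 0, 1, 0, -1, 0, 0, 0, 1⟩, .nil, (nat_lit 0), (nat_lit 5), (nat_lit 1), (nat_lit 0), (0, 0, 0), [], 38⟩,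
  mz,
  mz,
  ⟨⟨-1, 0, 1, 0, -1, 0, 0, 0, 1⟩, .nil, (nat_lit 0), (nat_lit 5), (nat_lit 1), (nat_lit 0), (0, 0, 0), [], 38⟩,
  mz,
  mz,
  mz,
  ⟨⟨-1, 0, 1, 0, -1, 0, 0, 0, 1⟩, .nil, (nat_lit 0), (nat_lit 5), (nat_lit 1), (nat_lit 0), (0, 0, 0), [], 38⟩,
  ⟨⟨-1, 0, 1, 0, -1, 0, 0, 0, 1⟩, .nil, (nat_lit 0), (nat_lit 5), (nat_lit 1), (nat_lit 0), (0, 0, 0), [], 38⟩,
  mz,
  mz,
  mz,
  mz,
  ⟨⟨-1, 0, 1, 0, -1, 0, 0, 0, 1⟩, .nil, (nat_lit 0), (nat_lit 5), (nat_lit 1), (nat_lit 0), (0, 0, 0), [], 38⟩,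
  mz,
  mz,
  ⟨⟨1, 0, 0, 0, -1, 0, 0, 0, 1⟩, .nil, (nat_lit 0), (nat_lit 38), (nat_lit 1), (nat_lit 0), (0, 0, 0), [], 38⟩,
  ⟨⟨-1, 0, 1, 0, -1, 0, 0, 0, 1⟩, .nil, (nat_lit 0), (nat_lit 5), (nat_lit 1), (nat_lit 0), (0, 0, 0), [], 38⟩,
  mz,
  mz,
  ⟨⟨1, 0, 0, 0, -1, 0, 0, 0, 1⟩, .nil, (nat_lit 0), (nat_lit 38), (nat_lit 1), (nat_lit 0), (0, 0, 0), [], 38⟩,
  ⟨⟨-1, 0, 1, 0, 1, 0, 0, 0, 1⟩, .nil, (nat_lit 42), (nat_lit 0), (nat_lit 0), (nat_lit 1), (0, 0, 0), [], 1⟩,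
  mz,
  mz,
  mz,
  ⟨⟨1, 0, 0, 0, -1, 0, 0, 0, 1⟩, .nil, (nat_lit 0), (nat_lit 38), (nat_lit 1), (nat_lit 0), (0, 0, 0), [], 38⟩,
  ⟨⟨1, 0, 0, 0, -1, 0, 0, 0, 1⟩, .nil, (nat_lit 0), (nat_lit 38), (nat_lit 1), (nat_lit 0), (0, 0, 0), [], 38⟩,
  mz,
  ⟨⟨-1, 0, 1, 0, 1, 0, 0, 0, 1⟩, .nil, (nat_lit 42), (nat_lit 0), (nat_lit 0), (nat_lit 1), (0, 0, 0), [], 1⟩,
  ⟨⟨-1, 0, 1, 0, 1, 0, 0, 0, 1⟩, .nil, (nat_lit 42), (nat_lit 0), (nat_lit 0), (nat_lit 1), (0, 0, 0), [], 1⟩,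
  ⟨⟨1, 0, 0, 0, -1, 0, 0, 0, 1⟩, .nil, (nat_lit 0), (nat_lit 38), (nat_lit 1), (nat_lit 0), (0, 0, 0), [], 38⟩,
  ⟨⟨-1, 0, 1, 0, 1, 0, 0, 0, 1⟩, .nil, (nat_lit 42), (nat_lit 0), (nat_lit 0), (nat_lit 1), (0, 0, 0), [], 1⟩,
  ⟨⟨-1, 0, 1, 0, 1, 0, 0, 0, 1⟩, .nil, (nat_lit 42), (nat_lit 0), (nat_lit 0), (nat_lit 1), (0, 0, 0), [], 1⟩,
  ⟨⟨1, 0, 0, 0, -1, 0, 0, 0, 1⟩, .nil, (nat_lit 0), (nat_lit 38), (nat_lit 1), (nat_lit 0), (0, 0, 0), [], 38⟩,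
  ⟨⟨-1, 0, 1, 0, 1, 0, 0, 0, 1⟩, .nil, (nat_lit 42), (nat_lit 0), (nat_lit 0), (nat_lit 1), (0, 0, 0), [], 1⟩,
  mz,
  mz,
  ⟨⟨-1, 0, 1, 0, 1, 0, 0, 0, 1⟩, .nil, (nat_lit 42), (nat_lit 0), (nat_lit 0), (nat_lit 1), (0, 0, 0), [], 1⟩]

theorem v_ty : tyb Dm S.ty1 Clm = true := by decide +kernel

theorem v_ty0 : tyb D0 (S.tys.getD 0 0) Cl0 = true := by decide +kernel

theorem v_ty1 : tyb D1 (S.tys.getD 1 0) Cl1 = true := by decide +kernel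

theorem v_msc : mscb S D0 [D1] Dm (nat_lit 132818) = true := by decide +kernel

theorem v_mv0 : mvsn (nat_lit 20589667081) S D0 [D1] Dm (nat_lit 132818) 0 D0 = true := by decide +kernel

theorem v_mv1 : mvsn (nat_lit 20589667081) S D0 [D1] Dm (nat_lit 132818) 1 D1 = true := by decide +kernel

theorem v_mm : mmsn (nat_lit 20589667081) S D0 [D1] Dm (nat_lit 132818) = true := by decide +kernel

theorem v_un : unb S D0 (nat_lit 132818) U = true := by decide +kernel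

theorem v_ok : okb S.oks [(0, 0, 0), (0, 0, 0), (0, 0, 0)] = true := by decide +kernel

theorem v_part : ∀ d < D0.p, (nat_lit 132818).testBit d = true → part S (zc (D0 :: [D1])) d = true := by
  intro d hd h
  have h1 : ∀ d < 43, (nat_lit 132818).testBit d = true → d = 1 ∨ d = 4 ∨ d = 6 ∨ d = 7 ∨ d = 9 ∨ d = 10 ∨ d = 17 := by decide
  rcases h1 d hd h with rfl | rfl | rfl | rfl | rfl | rfl | rfl
  · exact part_1
  · exact part_4
  · exact part_6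
  · exact part_7
  · exact part_9
  · exact part_10
  · exact part_17

theorem main (n : ℕ) (ho : Odd n) (hr : ¬ Rep n) (h0 : Split 43 n) (h1 : Split 47 n) (hm : Split 71 n) :
    n ∈ EE := by
  refine concln (W := nat_lit 20589667081) (S := S) (P0 := D0) (Pl := [D1]) (Pm := Dm) (cn := nat_lit 132818) ?_ Dm_ok v_ty ?_ ?_ v_msc ?_ v_mm v_un v_part v_ok
    n ho hr ?_ hm
  · simp only [List.forall_mem_cons]
    exact ⟨D0_ok, D1_ok, fun _ h => absurd h (by simp)⟩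
  · exact all2 (φ := fun j P => ∃ L, tyb P (S.tys.getD j 0) L = true) ⟨_, v_ty0⟩ ⟨_, v_ty1⟩
  · exact all2 (φ := fun j P => Nat.ble (S.pks.getD j 0) (Nat.pow P.p P.K) = true) (by decide +kernel) (by decide +kernel)
  · exact all2 (φ := fun i P => mvsn (nat_lit 20589667081) S D0 [D1] Dm (nat_lit 132818) i P = true) v_mv0 v_mv1
  · simp only [List.forall_mem_cons]
    exact ⟨h0, h1, fun _ h => absurd h (by simp)⟩

end Pool.Agent.Work.MP_9954fe_nt.P43_47_71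

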