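import Pool.Agent.Work.MP_9954fe_nt.Fast

/-!
Certificates for the sets {7, 47, 53}, {11, 31, 71}, {11, 37, 43}, {11, 37, 71}, {17, 43}, {43, 47, 53} of split primes.
-/

set_option autoImplicit false
set_option linter.all false
set_option maxRecDepth 100000

namespace Pool.Agent.Work.MP_9954fe_nt.P7_47_53

/-- Dummy move. -/
noncomputable def mz : Mv := ⟨⟨0, 0, 0, 0, 0, 0, 0, 0, 0⟩, .nil, (nat_lit 0), (nat_lit 0), (nat_lit 0), (nat_lit 0), (0, 0, 0), [], 0⟩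

/-- Moves. -/
noncomputable def t0_1 : List Mv := [
  ⟨⟨-3, 4, -5, 2, -5, -6, 4, 4, -5⟩, (.cons (nat_lit 11870394) (nat_lit 28783777) (nat_lit 28481682) (nat_lit
 1) (.cons (nat_lit 671480) (nat_lit 1048049) (nat_lit 4444349) (nat_lit 1) .nil)), (nat_lit 34), (nat_lit 43),
 (nat_lit 9), (nat_lit 1), (3, 5, 3), [10048865, 1643264], 33⟩,
  ⟨⟨-3, 4, -5, -2, 5, 6, 4, 4, -5⟩, (.cons (nat_lit 37305656) (nat_lit 7036773) (nat_lit 31813562) (nat_lit 1)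
 (.cons (nat_lit 4521354) (nat_lit 552451) (nat_lit 1265771) (nat_lit 1) .nil)), (nat_lit 50), (nat_lit 11),
 (nat_lit 28), (nat_lit 1), (3, 2, 3), [5604076, 2071151], 49⟩,
  ⟨⟨7, 0, 0, 2, -5, -6, 4, 4, -5⟩, (.cons (nat_lit 23697019) (nat_lit 11044809) (nat_lit 25792226) (nat_lit 1)
 (.cons (nat_lit 1669214) (nat_lit 1672452) (nat_lit 3856990) (nat_lit 1) .nil)), (nat_lit 13), (nat_lit 44),
 (nat_lit 19), (nat_lit 1), (0, 5, 3), [9064028, 3483455], 16⟩,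
  ⟨⟨-3, 4, -5, 2, -5, -6, 4, 4, -5⟩, (.cons (nat_lit 11870394) (nat_lit 28783777) (nat_lit 28481682) (nat_lit
 1) (.cons (nat_lit 671480) (nat_lit 1048049) (nat_lit 4444349) (nat_lit 1) .nil)), (nat_lit 34), (nat_lit 43),
 (nat_lit 9), (nat_lit 1), (3, 5, 3), [10048865, 1643264], 33⟩,
  ⟨⟨-3, 4, -5, 2, -5, -6, 4, 4, -5⟩, (.cons (nat_lit 11870394) (nat_lit 28783777) (nat_lit 28481682) (nat_lit
 1) (.cons (nat_lit 671480) (nat_lit 1048049) (nat_lit 4444349) (nat_lit 1) .nil)), (nat_lit 34), (nat_lit 43),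
 (nat_lit 9), (nat_lit 1), (3, 5, 3), [10048865, 1643264], 33⟩,
  ⟨⟨-3, 4, -5, 2, -5, -6, 4, 4, -5⟩, (.cons (nat_lit 11870394) (nat_lit 28783777) (nat_lit 28481682) (nat_lit
 1) (.cons (nat_lit 671480) (nat_lit 1048049) (nat_lit 4444349) (nat_lit 1) .nil)), (nat_lit 34), (nat_lit 43),
 (nat_lit 9), (nat_lit 1), (3, 5, 3), [10048865, 1643264], 33⟩,
  ⟨⟨7, 0, 0, 2, -5, -6, 4, 4, -5⟩, (.cons (nat_lit 23697019) (nat_lit 11044809) (nat_lit 25792226) (nat_lit 1)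
 (.cons (nat_lit 1669214) (nat_lit 1672452) (nat_lit 3856990) (nat_lit 1) .nil)), (nat_lit 13), (nat_lit 44),
 (nat_lit 19), (nat_lit 1), (0, 5, 3), [9064028, 3483455], 16⟩]

/-- Moves. -/
noncomputable def t0_3 : List Mv := [
  ⟨⟨1, 0, -9, 0, -7, 0, 6, 0, -5⟩, (.cons (nat_lit 25004503) (nat_lit 30625764) (nat_lit 38675796) (nat_lit 1)
 (.cons (nat_lit 399266) (nat_lit 2772563) (nat_lit 4796569) (nat_lit 1) .nil)), (nat_lit 32), (nat_lit 8),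
 (nat_lit 14), (nat_lit 1), (2, 0, 5), [37099950, 1523468], 30⟩,
  ⟨⟨1, 0, -9, 0, -7, 0, 6, 0, -5⟩, (.cons (nat_lit 25004503) (nat_lit 30625764) (nat_lit 38675796) (nat_lit 1)
 (.cons (nat_lit 399266) (nat_lit 2772563) (nat_lit 4796569) (nat_lit 1) .nil)), (nat_lit 32), (nat_lit 8),
 (nat_lit 14), (nat_lit 1), (2, 0, 5), [37099950, 1523468], 30⟩,
  ⟨⟨5, 0, 4, 0, 7, 0, 6, 0, -5⟩, (.cons (nat_lit 23707674) (nat_lit 19696108) (nat_lit 34804965) (nat_lit 1)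
 (.cons (nat_lit 4879680) (nat_lit 4792311) (nat_lit 3800665) (nat_lit 1) .nil)), (nat_lit 52), (nat_lit 34),
 (nat_lit 4), (nat_lit 1), (3, 0, 5), [11878172, 1976050], 5⟩,
  ⟨⟨5, 0, 4, 0, -7, 0, 6, 0, -5⟩, (.cons (nat_lit 26597705) (nat_lit 27856828) (nat_lit 8865904) (nat_lit 1)
 (.cons (nat_lit 4879680) (nat_lit 2802671) (nat_lit 4290755) (nat_lit 1) .nil)), (nat_lit 52), (nat_lit 27),
 (nat_lit 3), (nat_lit 1), (3, 0, 5), [2605651, 3347726], 9⟩,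
  ⟨⟨1, 0, -9, 0, -7, 0, 6, 0, -5⟩, (.cons (nat_lit 25004503) (nat_lit 30625764) (nat_lit 38675796) (nat_lit 1)
 (.cons (nat_lit 399266) (nat_lit 2772563) (nat_lit 4796569) (nat_lit 1) .nil)), (nat_lit 32), (nat_lit 8),
 (nat_lit 14), (nat_lit 1), (2, 0, 5), [37099950, 1523468], 30⟩,
  ⟨⟨1, 0, -9, 0, 7, 0, 6, 0, -5⟩, (.cons (nat_lit 17043897) (nat_lit 16716079) (nat_lit 24805227) (nat_lit 1)
 (.cons (nat_lit 2259056) (nat_lit 3930936) (nat_lit 4735871) (nat_lit 1) .nil)), (nat_lit 42), (nat_lit 14),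
 (nat_lit 51), (nat_lit 1), (2, 0, 5), [27270990, 3608924], 13⟩,
  ⟨⟨1, 0, -9, 0, -7, 0, 6, 0, -5⟩, (.cons (nat_lit 25004503) (nat_lit 30625764) (nat_lit 38675796) (nat_lit 1)
 (.cons (nat_lit 399266) (nat_lit 2772563) (nat_lit 4796569) (nat_lit 1) .nil)), (nat_lit 32), (nat_lit 8),
 (nat_lit 14), (nat_lit 1), (2, 0, 5), [37099950, 1523468], 30⟩]

/-- Moves. -/
noncomputable def t1_1 : List Mv := [
  mz,
  ⟨⟨-25, 12, -36, -22, 35, 36, 20, 28, -37⟩, (.cons (nat_lit 31514200) (nat_lit 30361641) (nat_lit 36072426)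
 (nat_lit 1) (.cons (nat_lit 3687900) (nat_lit 3298747) (nat_lit 3928007) (nat_lit 1) .nil)), (nat_lit 17),
 (nat_lit 50), (nat_lit 22), (nat_lit 1), (2, 45, 36), [11746712, 2428390], 32⟩,
  ⟨⟨21, -32, -49, 2, 35, -36, -28, -20, -13⟩, (.cons (nat_lit 32775144) (nat_lit 35508035) (nat_lit 3691106)
 (nat_lit 1) (.cons (nat_lit 4036421) (nat_lit 2319820) (nat_lit 3157820) (nat_lit 1) .nil)), (nat_lit 38),
 (nat_lit 51), (nat_lit 46), (nat_lit 1), (33, 30, 3), [24043332, 2531220], 38⟩,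
  ⟨⟨-51, 4, 19, -2, -45, -14, -12, 12, -37⟩, (.cons (nat_lit 16090651) (nat_lit 39320922) (nat_lit 37370923)
 (nat_lit 1) (.cons (nat_lit 3267472) (nat_lit 672648) (nat_lit 252616) (nat_lit 1) .nil)), (nat_lit 11),
 (nat_lit 35), (nat_lit 48), (nat_lit 1), (7, 27, 21), [21482493, 3007595], 3⟩,
  mz,
  ⟨⟨25, -12, -61, -22, 35, -14, -20, -28, -17⟩, (.cons (nat_lit 33269479) (nat_lit 22452513) (nat_lit 17808922)
 (nat_lit 1) (.cons (nat_lit 2074462) (nat_lit 4111730) (nat_lit 97043) (nat_lit 1) .nil)), (nat_lit 7),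
 (nat_lit 14), (nat_lit 49), (nat_lit 1), (9, 9, 21), [15534567, 1024558], 7⟩,
  mz,
  mz,
  mz,
  ⟨⟨27, 32, -47, -40, 17, 0, 10, -16, -47⟩, (.cons (nat_lit 1184324) (nat_lit 3083671) (nat_lit 5792272)
 (nat_lit 1) (.cons (nat_lit 438593) (nat_lit 2647698) (nat_lit 3163566) (nat_lit 1) .nil)), (nat_lit 8),
 (nat_lit 18), (nat_lit 15), (nat_lit 1), (43, 39, 2), [24251666, 4188416], 18⟩,
  mz,
  ⟨⟨17, 48, -17, 40, -17, -40, -10, 16, -37⟩, (.cons (nat_lit 722663) (nat_lit 28639690) (nat_lit 19208323)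
 (nat_lit 1) (.cons (nat_lit 3080948) (nat_lit 4600420) (nat_lit 2520647) (nat_lit 1) .nil)), (nat_lit 43),
 (nat_lit 49), (nat_lit 46), (nat_lit 1), (25, 45, 24), [30381900, 3100160], 16⟩,
  ⟨⟨21, 44, 8, 20, -23, 30, 38, 8, -37⟩, (.cons (nat_lit 4794363) (nat_lit 19551776) (nat_lit 31835585)
 (nat_lit 1) (.cons (nat_lit 2715324) (nat_lit 928056) (nat_lit 1874569) (nat_lit 1) .nil)), (nat_lit 6),
 (nat_lit 8), (nat_lit 7), (nat_lit 1), (29, 3, 1), [32701358, 1577580], 35⟩,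
  mz,
  ⟨⟨-51, -4, 19, 2, -45, 14, -12, -12, -37⟩, (.cons (nat_lit 32896099) (nat_lit 33199508) (nat_lit 6283266)
 (nat_lit 1) (.cons (nat_lit 4370792) (nat_lit 3690529) (nat_lit 1399604) (nat_lit 1) .nil)), (nat_lit 42),
 (nat_lit 47), (nat_lit 16), (nat_lit 1), (25, 11, 28), [35926004, 689837], 33⟩,
  ⟨⟨9, 4, -61, 40, 23, -10, 22, -32, -29⟩, (.cons (nat_lit 29967992) (nat_lit 12433312) (nat_lit 28813827)
 (nat_lit 1) (.cons (nat_lit 2991878) (nat_lit 4619680) (nat_lit 4293407) (nat_lit 1) .nil)), (nat_lit 13),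
 (nat_lit 23), (nat_lit 25), (nat_lit 1), (18, 33, 44), [3595050, 2640682], 33⟩,
  ⟨⟨-13, 36, 45, 40, 23, -30, -22, 32, -7⟩, (.cons (nat_lit 2157893) (nat_lit 16431639) (nat_lit 13017220)
 (nat_lit 1) (.cons (nat_lit 437188) (nat_lit 697133) (nat_lit 3171941) (nat_lit 1) .nil)), (nat_lit 49),
 (nat_lit 42), (nat_lit 2), (nat_lit 1), (5, 28, 41), [8325717, 2174633], 51⟩,
  mz,
  ⟨⟨19, 0, -63, 0, 47, 0, 42, 0, -23⟩, (.cons (nat_lit 22100912) (nat_lit 34746012) (nat_lit 32374993) (nat_lit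
 1) (.cons (nat_lit 3487205) (nat_lit 2828897) (nat_lit 3148768) (nat_lit 1) .nil)), (nat_lit 29), (nat_lit
 38), (nat_lit 40), (nat_lit 1), (16, 0, 23), [16984133, 3624544], 42⟩,
  ⟨⟨-39, 32, 8, -20, -33, -20, 6, 24, -41⟩, (.cons (nat_lit 24297018) (nat_lit 3428762) (nat_lit 3536893)
 (nat_lit 1) (.cons (nat_lit 1042214) (nat_lit 2107689) (nat_lit 1681636) (nat_lit 1) .nil)), (nat_lit 37),
 (nat_lit 7), (nat_lit 24), (nat_lit 1), (25, 8, 7), [9648774, 3482959], 9⟩,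
  ⟨⟨17, -36, 28, 20, -23, -50, 38, 8, -1⟩, (.cons (nat_lit 35457102) (nat_lit 32028129) (nat_lit 16725515)
 (nat_lit 1) (.cons (nat_lit 1883733) (nat_lit 156079) (nat_lit 4181086) (nat_lit 1) .nil)), (nat_lit 46),
 (nat_lit 41), (nat_lit 39), (nat_lit 1), (2, 30, 10), [37708121, 1420793], 43⟩,
  ⟨⟨-49, -12, 36, -2, 35, 36, -28, 20, -13⟩, (.cons (nat_lit 18486246) (nat_lit 26829155) (nat_lit 18358274)
 (nat_lit 1) (.cons (nat_lit 1154706) (nat_lit 3358468) (nat_lit 3816034) (nat_lit 1) .nil)), (nat_lit 25),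
 (nat_lit 22), (nat_lit 33), (nat_lit 1), (24, 24, 7), [28370411, 1414961], 19⟩,
  ⟨⟨-39, -32, 8, -20, 33, -20, 6, -24, -41⟩, (.cons (nat_lit 40353606) (nat_lit 25336779) (nat_lit 20076979)
 (nat_lit 1) (.cons (nat_lit 3165156) (nat_lit 1791359) (nat_lit 2140106) (nat_lit 1) .nil)), (nat_lit 52),
 (nat_lit 41), (nat_lit 16), (nat_lit 1), (28, 24, 21), [33786540, 2000347], 20⟩,
  mz,
  mz,
  ⟨⟨-45, 8, -4, 20, 33, -40, -6, -24, -35⟩, (.cons (nat_lit 40353606) (nat_lit 18664542) (nat_lit 15919205)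
 (nat_lit 1) (.cons (nat_lit 2157068) (nat_lit 2176296) (nat_lit 2038157) (nat_lit 1) .nil)), (nat_lit 52),
 (nat_lit 48), (nat_lit 26), (nat_lit 1), (40, 24, 21), [3970642, 4139277], 21⟩,
  ⟨⟨49, -12, -13, -2, -35, -34, 28, 20, -41⟩, (.cons (nat_lit 32924110) (nat_lit 4343818) (nat_lit 14374567)
 (nat_lit 1) (.cons (nat_lit 1931084) (nat_lit 4729940) (nat_lit 2120594) (nat_lit 1) .nil)), (nat_lit 12),
 (nat_lit 37), (nat_lit 9), (nat_lit 1), (24, 23, 7), [18950266, 1435844], 18⟩,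
  ⟨⟨17, 36, -45, -20, -23, -30, 38, -8, -37⟩, (.cons (nat_lit 36030115) (nat_lit 9852247) (nat_lit 1) (nat_lit
 5073887) (.cons (nat_lit 4528854) (nat_lit 3479775) (nat_lit 1025629) (nat_lit 1) .nil)), (nat_lit 33),
 (nat_lit 28), (nat_lit 51), (nat_lit 1), (45, 30, 37), [2365099, 3738031], 4⟩,
  ⟨⟨-45, -8, -4, -20, 33, 40, -6, 24, -35⟩, (.cons (nat_lit 40353606) (nat_lit 6052212) (nat_lit 33209123)
 (nat_lit 1) (.cons (nat_lit 527443) (nat_lit 63184) (nat_lit 3852874) (nat_lit 1) .nil)), (nat_lit 52),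
 (nat_lit 47), (nat_lit 32), (nat_lit 1), (29, 39, 7), [20285738, 2942036], 20⟩,
  ⟨⟨23, 0, -63, 0, -47, 0, 42, 0, -19⟩, (.cons (nat_lit 7515425) (nat_lit 8767997) (nat_lit 39871440) (nat_lit
 1) (.cons (nat_lit 430962) (nat_lit 2542496) (nat_lit 1010864) (nat_lit 1) .nil)), (nat_lit 11), (nat_lit 6),
 (nat_lit 37), (nat_lit 1), (40, 0, 24), [8037864, 3901925], 6⟩,
  mz,
  ⟨⟨13, 36, 32, 40, -23, -10, 22, 32, -29⟩, (.cons (nat_lit 5979922) (nat_lit 24263908) (nat_lit 1) (nat_lit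
 10675217) (.cons (nat_lit 1784437) (nat_lit 2658195) (nat_lit 3966188) (nat_lit 1) .nil)), (nat_lit 9),
 (nat_lit 34), (nat_lit 43), (nat_lit 1), (5, 19, 41), [14952106, 2811309], 26⟩,
  ⟨⟨-13, -36, 45, 40, -23, -30, -22, -32, -7⟩, (.cons (nat_lit 19620475) (nat_lit 12406433) (nat_lit 9395963)
 (nat_lit 1) (.cons (nat_lit 4598936) (nat_lit 2561361) (nat_lit 3494681) (nat_lit 1) .nil)), (nat_lit 45),
 (nat_lit 12), (nat_lit 37), (nat_lit 1), (26, 14, 44), [28690645, 4345297], 44⟩,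
  ⟨⟨51, -4, -32, 2, 45, -16, 12, -12, -49⟩, (.cons (nat_lit 40353606) (nat_lit 2149432) (nat_lit 25032579)
 (nat_lit 1) (.cons (nat_lit 721904) (nat_lit 3282643) (nat_lit 2092045) (nat_lit 1) .nil)), (nat_lit 52),
 (nat_lit 19), (nat_lit 3), (nat_lit 1), (25, 36, 28), [7432506, 2458638], 23⟩,
  mz,
  ⟨⟨21, -44, -29, -20, -23, 50, 38, -8, -1⟩, (.cons (nat_lit 19246027) (nat_lit 27211308) (nat_lit 3889627)
 (nat_lit 1) (.cons (nat_lit 2440219) (nat_lit 3435040) (nat_lit 3400787) (nat_lit 1) .nil)), (nat_lit 49),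
 (nat_lit 39), (nat_lit 47), (nat_lit 1), (18, 3, 46), [15483593, 2614286], 2⟩,
  ⟨⟨27, -32, -47, -40, -17, 0, 10, 16, -47⟩, (.cons (nat_lit 40254) (nat_lit 34326633) (nat_lit 26595239)
 (nat_lit 1) (.cons (nat_lit 2522737) (nat_lit 3949483) (nat_lit 3250550) (nat_lit 1) .nil)), (nat_lit 32),
 (nat_lit 2), (nat_lit 30), (nat_lit 1), (46, 45, 24), [4053129, 2337435], 9⟩,
  mz,
  ⟨⟨17, -48, -17, 40, 17, -40, -10, -16, -37⟩, (.cons (nat_lit 34449997) (nat_lit 27872793) (nat_lit 31512583)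
 (nat_lit 1) (.cons (nat_lit 1860872) (nat_lit 3365620) (nat_lit 2536188) (nat_lit 1) .nil)), (nat_lit 20),
 (nat_lit 11), (nat_lit 18), (nat_lit 1), (6, 39, 2), [40139594, 2650266], 45⟩,
  mz,
  mz,
  mz,
  ⟨⟨45, -16, -1, -22, -35, 36, 20, -28, -37⟩, (.cons (nat_lit 39867104) (nat_lit 2443471) (nat_lit 30229708)
 (nat_lit 1) (.cons (nat_lit 2744572) (nat_lit 1554643) (nat_lit 1546989) (nat_lit 1) .nil)), (nat_lit 31),
 (nat_lit 19), (nat_lit 39), (nat_lit 1), (12, 38, 21), [681280, 1341348], 20⟩,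
  mz,
  ⟨⟨-39, 8, -17, 2, -45, -16, 12, 12, -49⟩, (.cons (nat_lit 19158779) (nat_lit 31464345) (nat_lit 28128840)
 (nat_lit 1) (.cons (nat_lit 2743935) (nat_lit 1426689) (nat_lit 3405058) (nat_lit 1) .nil)), (nat_lit 24),
 (nat_lit 38), (nat_lit 40), (nat_lit 1), (14, 27, 21), [2765312, 4268520], 34⟩,
  ⟨⟨-21, -32, -28, -2, 35, -34, 28, -20, -41⟩, (.cons (nat_lit 34030294) (nat_lit 9371806) (nat_lit 28679729)
 (nat_lit 1) (.cons (nat_lit 3045273) (nat_lit 783416) (nat_lit 1362662) (nat_lit 1) .nil)), (nat_lit 17),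
 (nat_lit 5), (nat_lit 8), (nat_lit 1), (33, 30, 3), [1033583, 4523932], 32⟩,
  ⟨⟨-45, 16, 44, -22, -35, -14, -20, 28, -17⟩, (.cons (nat_lit 14440774) (nat_lit 13422317) (nat_lit 26812392)
 (nat_lit 1) (.cons (nat_lit 92140) (nat_lit 1177696) (nat_lit 3187812) (nat_lit 1) .nil)), (nat_lit 42),
 (nat_lit 44), (nat_lit 41), (nat_lit 1), (34, 2, 36), [27696815, 2937404], 28⟩]

/-- Moves. -/
noncomputable def t1_3 : List Mv := [
  mz,
  ⟨⟨45, 16, -1, 22, -35, -36, 20, 28, -37⟩, (.cons (nat_lit 35204353) (nat_lit 24062828) (nat_lit 22765885)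
 (nat_lit 1) (.cons (nat_lit 3519154) (nat_lit 4078050) (nat_lit 1628230) (nat_lit 1) .nil)), (nat_lit 37),
 (nat_lit 33), (nat_lit 12), (nat_lit 1), (34, 2, 36), [39138868, 1689999], 34⟩,
  ⟨⟨21, -32, -49, 2, 35, -36, -28, -20, -13⟩, (.cons (nat_lit 32775144) (nat_lit 35508035) (nat_lit 3691106)
 (nat_lit 1) (.cons (nat_lit 4036421) (nat_lit 2319820) (nat_lit 3157820) (nat_lit 1) .nil)), (nat_lit 38),
 (nat_lit 51), (nat_lit 46), (nat_lit 1), (33, 30, 3), [24043332, 2531220], 38⟩,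
  ⟨⟨-51, 4, 19, -2, -45, -14, -12, 12, -37⟩, (.cons (nat_lit 16090651) (nat_lit 39320922) (nat_lit 37370923)
 (nat_lit 1) (.cons (nat_lit 3267472) (nat_lit 672648) (nat_lit 252616) (nat_lit 1) .nil)), (nat_lit 11),
 (nat_lit 35), (nat_lit 48), (nat_lit 1), (7, 27, 21), [21482493, 3007595], 3⟩,
  mz,
  ⟨⟨-45, -16, 44, -22, 35, -14, -20, -28, -17⟩, (.cons (nat_lit 37653457) (nat_lit 19264484) (nat_lit 29939782)
 (nat_lit 1) (.cons (nat_lit 4445331) (nat_lit 2815177) (nat_lit 120402) (nat_lit 1) .nil)), (nat_lit 25),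
 (nat_lit 34), (nat_lit 12), (nat_lit 1), (12, 9, 21), [13791063, 3905799], 19⟩,
  mz,
  mz,
  mz,
  ⟨⟨27, 32, -47, 40, -17, 0, 10, -16, -47⟩, (.cons (nat_lit 17465569) (nat_lit 20764621) (nat_lit 21374911)
 (nat_lit 1) (.cons (nat_lit 4026360) (nat_lit 600199) (nat_lit 1) (nat_lit 3171278) .nil)), (nat_lit 37),
 (nat_lit 42), (nat_lit 47), (nat_lit 1), (43, 8, 2), [12887334, 1098052], 15⟩,
  mz,
  ⟨⟨17, 48, -17, 40, -17, -40, -10, 16, -37⟩, (.cons (nat_lit 722663) (nat_lit 28639690) (nat_lit 19208323)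
 (nat_lit 1) (.cons (nat_lit 3080948) (nat_lit 4600420) (nat_lit 2520647) (nat_lit 1) .nil)), (nat_lit 43),
 (nat_lit 49), (nat_lit 46), (nat_lit 1), (25, 45, 24), [30381900, 3100160], 16⟩,
  ⟨⟨21, 44, 8, -20, 23, -30, 38, 8, -37⟩, (.cons (nat_lit 9406982) (nat_lit 6099672) (nat_lit 18766202)
 (nat_lit 1) (.cons (nat_lit 1798214) (nat_lit 2533387) (nat_lit 2463232) (nat_lit 1) .nil)), (nat_lit 15),
 (nat_lit 14), (nat_lit 50), (nat_lit 1), (29, 44, 1), [38114518, 1517573], 24⟩,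
  mz,
  ⟨⟨-51, -4, 19, -2, 45, -14, -12, -12, -37⟩, (.cons (nat_lit 24434985) (nat_lit 35757888) (nat_lit 31815436)
 (nat_lit 1) (.cons (nat_lit 3168120) (nat_lit 2701702) (nat_lit 700304) (nat_lit 1) .nil)), (nat_lit 22),
 (nat_lit 44), (nat_lit 36), (nat_lit 1), (25, 36, 28), [3249467, 3803885], 44⟩,
  ⟨⟨13, -36, 32, 40, 23, -10, 22, -32, -29⟩, (.cons (nat_lit 36729527) (nat_lit 33740767) (nat_lit 23665068)
 (nat_lit 1) (.cons (nat_lit 2074487) (nat_lit 3317163) (nat_lit 2552480) (nat_lit 1) .nil)), (nat_lit 46),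
 (nat_lit 45), (nat_lit 32), (nat_lit 1), (26, 33, 44), [5579963, 1893241], 10⟩,
  ⟨⟨-9, -4, -52, 40, 23, -30, -22, 32, -7⟩, (.cons (nat_lit 34423722) (nat_lit 290661) (nat_lit 11596101)
 (nat_lit 1) (.cons (nat_lit 3663045) (nat_lit 2626895) (nat_lit 753415) (nat_lit 1) .nil)), (nat_lit 15),
 (nat_lit 21), (nat_lit 51), (nat_lit 1), (36, 28, 41), [3122995, 3255633], 24⟩,
  mz,
  ⟨⟨19, 0, -63, 0, -47, 0, 42, 0, -23⟩, (.cons (nat_lit 24835398) (nat_lit 8351457) (nat_lit 1) (nat_lit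
 39454345) (.cons (nat_lit 1176936) (nat_lit 429912) (nat_lit 2989740) (nat_lit 1) .nil)), (nat_lit 49),
 (nat_lit 50), (nat_lit 8), (nat_lit 1), (16, 0, 23), [37578159, 1311501], 14⟩,
  ⟨⟨-39, 32, 8, 20, 33, 20, 6, 24, -41⟩, (.cons (nat_lit 40353606) (nat_lit 5148929) (nat_lit 11217973)
 (nat_lit 1) (.cons (nat_lit 3920786) (nat_lit 4181169) (nat_lit 4572390) (nat_lit 1) .nil)), (nat_lit 52),
 (nat_lit 30), (nat_lit 31), (nat_lit 1), (25, 39, 7), [6668757, 4877622], 21⟩,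
  ⟨⟨17, -36, 28, 20, -23, -50, 38, 8, -1⟩, (.cons (nat_lit 35457102) (nat_lit 32028129) (nat_lit 16725515)
 (nat_lit 1) (.cons (nat_lit 1883733) (nat_lit 156079) (nat_lit 4181086) (nat_lit 1) .nil)), (nat_lit 46),
 (nat_lit 41), (nat_lit 39), (nat_lit 1), (2, 30, 10), [37708121, 1420793], 43⟩,
  ⟨⟨21, 32, -49, 2, -35, -36, -28, 20, -13⟩, (.cons (nat_lit 9828653) (nat_lit 10386681) (nat_lit 3695569)
 (nat_lit 1) (.cons (nat_lit 4822580) (nat_lit 2610418) (nat_lit 4209631) (nat_lit 1) .nil)), (nat_lit 37),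
 (nat_lit 22), (nat_lit 18), (nat_lit 1), (30, 23, 7), [9316845, 3508392], 34⟩,
  ⟨⟨-39, -32, 8, 20, -33, 20, 6, -24, -41⟩, (.cons (nat_lit 6890480) (nat_lit 10304530) (nat_lit 24811298)
 (nat_lit 1) (.cons (nat_lit 135790) (nat_lit 106356) (nat_lit 4290806) (nat_lit 1) .nil)), (nat_lit 43),
 (nat_lit 17), (nat_lit 28), (nat_lit 1), (28, 23, 21), [12848781, 180345], 52⟩,
  mz,
  mz,
  ⟨⟨-45, 8, -4, 20, 33, -40, -6, -24, -35⟩, (.cons (nat_lit 40353606) (nat_lit 18664542) (nat_lit 15919205)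
 (nat_lit 1) (.cons (nat_lit 2157068) (nat_lit 2176296) (nat_lit 2038157) (nat_lit 1) .nil)), (nat_lit 52),
 (nat_lit 48), (nat_lit 26), (nat_lit 1), (40, 24, 21), [3970642, 4139277], 21⟩,
  ⟨⟨-21, 32, -28, 2, 35, 34, 28, 20, -41⟩, (.cons (nat_lit 37416717) (nat_lit 33620745) (nat_lit 19567789)
 (nat_lit 1) (.cons (nat_lit 503281) (nat_lit 2796129) (nat_lit 199698) (nat_lit 1) .nil)), (nat_lit 6),
 (nat_lit 36), (nat_lit 39), (nat_lit 1), (30, 24, 7), [29489893, 1031069], 14⟩,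
  ⟨⟨21, -44, 8, -20, -23, -30, 38, -8, -37⟩, (.cons (nat_lit 28688490) (nat_lit 16838508) (nat_lit 1) (nat_lit
 23090802) (.cons (nat_lit 1894542) (nat_lit 548313) (nat_lit 686994) (nat_lit 1) .nil)), (nat_lit 18),
 (nat_lit 36), (nat_lit 29), (nat_lit 1), (39, 30, 37), [16490385, 1128215], 8⟩,
  ⟨⟨-45, -8, -4, 20, -33, -40, -6, 24, -35⟩, (.cons (nat_lit 27446115) (nat_lit 13042875) (nat_lit 36949889)
 (nat_lit 1) (.cons (nat_lit 1057141) (nat_lit 597026) (nat_lit 1560004) (nat_lit 1) .nil)), (nat_lit 37),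
 (nat_lit 44), (nat_lit 52), (nat_lit 1), (29, 8, 7), [11182887, 1576898], 9⟩,
  ⟨⟨23, 0, -63, 0, -47, 0, 42, 0, -19⟩, (.cons (nat_lit 7515425) (nat_lit 8767997) (nat_lit 39871440) (nat_lit
 1) (.cons (nat_lit 430962) (nat_lit 2542496) (nat_lit 1010864) (nat_lit 1) .nil)), (nat_lit 11), (nat_lit 6),
 (nat_lit 37), (nat_lit 1), (40, 0, 24), [8037864, 3901925], 6⟩,
  mz,
  ⟨⟨13, 36, 32, 40, -23, -10, 22, 32, -29⟩, (.cons (nat_lit 5979922) (nat_lit 24263908) (nat_lit 1) (nat_lit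
 10675217) (.cons (nat_lit 1784437) (nat_lit 2658195) (nat_lit 3966188) (nat_lit 1) .nil)), (nat_lit 9),
 (nat_lit 34), (nat_lit 43), (nat_lit 1), (5, 19, 41), [14952106, 2811309], 26⟩,
  ⟨⟨-9, 4, -52, 40, -23, -30, -22, -32, -7⟩, (.cons (nat_lit 875406) (nat_lit 28886952) (nat_lit 37181252)
 (nat_lit 1) (.cons (nat_lit 779650) (nat_lit 2920343) (nat_lit 4622352) (nat_lit 1) .nil)), (nat_lit 6),
 (nat_lit 4), (nat_lit 14), (nat_lit 1), (18, 14, 44), [11222712, 4210454], 35⟩,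
  ⟨⟨51, -4, -32, 2, 45, -16, 12, -12, -49⟩, (.cons (nat_lit 40353606) (nat_lit 2149432) (nat_lit 25032579)
 (nat_lit 1) (.cons (nat_lit 721904) (nat_lit 3282643) (nat_lit 2092045) (nat_lit 1) .nil)), (nat_lit 52),
 (nat_lit 19), (nat_lit 3), (nat_lit 1), (25, 36, 28), [7432506, 2458638], 23⟩,
  mz,
  ⟨⟨17, 36, 28, 20, 23, -50, 38, -8, -1⟩, (.cons (nat_lit 1054032) (nat_lit 2588146) (nat_lit 22065801)
 (nat_lit 1) (.cons (nat_lit 2580280) (nat_lit 1744097) (nat_lit 2365873) (nat_lit 1) .nil)), (nat_lit 3),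
 (nat_lit 26), (nat_lit 23), (nat_lit 1), (28, 44, 46), [10608482, 2370991], 34⟩,
  ⟨⟨27, -32, -47, 40, 17, 0, 10, 16, -47⟩, (.cons (nat_lit 30460032) (nat_lit 23482129) (nat_lit 36808945)
 (nat_lit 1) (.cons (nat_lit 1100398) (nat_lit 1360742) (nat_lit 142114) (nat_lit 1) .nil)), (nat_lit 8),
 (nat_lit 1), (nat_lit 5), (nat_lit 1), (46, 2, 24), [33608566, 2509841], 18⟩,
  mz,
  ⟨⟨17, -48, -17, 40, 17, -40, -10, -16, -37⟩, (.cons (nat_lit 34449997) (nat_lit 27872793) (nat_lit 31512583)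
 (nat_lit 1) (.cons (nat_lit 1860872) (nat_lit 3365620) (nat_lit 2536188) (nat_lit 1) .nil)), (nat_lit 20),
 (nat_lit 11), (nat_lit 18), (nat_lit 1), (6, 39, 2), [40139594, 2650266], 45⟩,
  mz,
  mz,
  mz,
  ⟨⟨45, -16, -1, 22, 35, -36, 20, -28, -37⟩, (.cons (nat_lit 24558077) (nat_lit 27324774) (nat_lit 33113446)
 (nat_lit 1) (.cons (nat_lit 1948968) (nat_lit 22644) (nat_lit 4583971) (nat_lit 1) .nil)), (nat_lit 2),
 (nat_lit 23), (nat_lit 41), (nat_lit 1), (12, 9, 21), [21725402, 1795805], 25⟩,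
  mz,
  ⟨⟨51, 4, -32, 2, -45, -16, 12, 12, -49⟩, (.cons (nat_lit 3161155) (nat_lit 25377524) (nat_lit 35250780)
 (nat_lit 1) (.cons (nat_lit 4298169) (nat_lit 4287007) (nat_lit 1537795) (nat_lit 1) .nil)), (nat_lit 17),
 (nat_lit 33), (nat_lit 4), (nat_lit 1), (7, 27, 21), [3546932, 3233862], 1⟩,
  ⟨⟨-21, -32, -28, 2, -35, 34, 28, -20, -41⟩, (.cons (nat_lit 21757032) (nat_lit 32399853) (nat_lit 7567755)
 (nat_lit 1) (.cons (nat_lit 2275143) (nat_lit 2439147) (nat_lit 2138157) (nat_lit 1) .nil)), (nat_lit 24),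
 (nat_lit 4), (nat_lit 23), (nat_lit 1), (33, 17, 3), [36774456, 775842], 16⟩,
  ⟨⟨-45, 16, 44, -22, -35, -14, -20, 28, -17⟩, (.cons (nat_lit 14440774) (nat_lit 13422317) (nat_lit 26812392)
 (nat_lit 1) (.cons (nat_lit 92140) (nat_lit 1177696) (nat_lit 3187812) (nat_lit 1) .nil)), (nat_lit 42),
 (nat_lit 44), (nat_lit 41), (nat_lit 1), (34, 2, 36), [27696815, 2937404], 28⟩]

/-- Moves. -/
noncomputable def t4_1 : List Mv := [
  mz,
  mz,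
  mz,
  mz,
  ⟨⟨-53, 0, 0, 10, -47, -30, -2, 20, -47⟩, (.cons (nat_lit 2501247) (nat_lit 4463161) (nat_lit 6080433)
 (nat_lit 1) (.cons (nat_lit 4376425) (nat_lit 4261899) (nat_lit 2034317) (nat_lit 1) .nil)), (nat_lit 5),
 (nat_lit 0), (nat_lit 0), (nat_lit 0), (0, 39, 24), [27058440, 1987999], 0⟩,
  ⟨⟨-53, 0, 0, -10, -47, 30, -2, -20, -47⟩, (.cons (nat_lit 8239122) (nat_lit 19222964) (nat_lit 1) (nat_lit
 16687125) (.cons (nat_lit 2498842) (nat_lit 3727284) (nat_lit 198922) (nat_lit 1) .nil)), (nat_lit 4),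
 (nat_lit 0), (nat_lit 0), (nat_lit 0), (0, 7, 12), [38687837, 3427508], 0⟩,
  ⟨⟨15, 56, -11, -28, 5, -36, 40, 8, -47⟩, (.cons (nat_lit 4201865) (nat_lit 18607989) (nat_lit 32518631)
 (nat_lit 1) (.cons (nat_lit 4602841) (nat_lit 1423495) (nat_lit 3014630) (nat_lit 1) .nil)), (nat_lit 28),
 (nat_lit 0), (nat_lit 0), (nat_lit 0), (1, 37, 38), [7652030, 1650432], 0⟩,
  mz,
  mz,
  ⟨⟨-33, -20, -32, 8, 45, -34, 24, -24, -49⟩, (.cons (nat_lit 17646280) (nat_lit 5920186) (nat_lit 14897715)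
 (nat_lit 1) (.cons (nat_lit 2288807) (nat_lit 1393642) (nat_lit 3988949) (nat_lit 1) .nil)), (nat_lit 18),
 (nat_lit 0), (nat_lit 0), (nat_lit 0), (35, 14, 42), [16380291, 1948817], 0⟩,
  ⟨⟨-25, 48, -11, 28, -5, -64, -40, -8, -7⟩, (.cons (nat_lit 36507133) (nat_lit 2918158) (nat_lit 39937830)
 (nat_lit 1) (.cons (nat_lit 4235367) (nat_lit 4634313) (nat_lit 4614764) (nat_lit 1) .nil)), (nat_lit 36),
 (nat_lit 0), (nat_lit 0), (nat_lit 0), (52, 52, 9), [9234338, 4044810], 0⟩,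
  ⟨⟨-1, -12, -63, 50, 17, -30, 14, -44, -19⟩, (.cons (nat_lit 36153906) (nat_lit 22959728) (nat_lit 35000197)
 (nat_lit 1) (.cons (nat_lit 4857855) (nat_lit 1213091) (nat_lit 1439933) (nat_lit 1) .nil)), (nat_lit 16),
 (nat_lit 0), (nat_lit 0), (nat_lit 0), (44, 26, 20), [12193596, 2523749], 0⟩,
  ⟨⟨-51, 20, 4, -10, -47, -20, 2, 20, -49⟩, (.cons (nat_lit 26662440) (nat_lit 36923891) (nat_lit 11071758)
 (nat_lit 1) (.cons (nat_lit 4187955) (nat_lit 2343340) (nat_lit 3844584) (nat_lit 1) .nil)), (nat_lit 15),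
 (nat_lit 0), (nat_lit 0), (nat_lit 0), (48, 25, 48), [38906367, 1747688], 0⟩,
  mz,
  mz,
  ⟨⟨-51, -20, 4, -10, 47, -20, 2, -20, -49⟩, (.cons (nat_lit 40353606) (nat_lit 1306333) (nat_lit 39113142)
 (nat_lit 1) (.cons (nat_lit 4879680) (nat_lit 582505) (nat_lit 1626210) (nat_lit 1) .nil)), (nat_lit 15),
 (nat_lit 0), (nat_lit 0), (nat_lit 0), (36, 32, 36), [19326667, 4012083], 0⟩,
  ⟨⟨15, 52, 16, 10, 17, -60, 46, 4, -11⟩, (.cons (nat_lit 3409425) (nat_lit 30509573) (nat_lit 1422287)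
 (nat_lit 1) (.cons (nat_lit 3502452) (nat_lit 1852281) (nat_lit 2318736) (nat_lit 1) .nil)), (nat_lit 44),
 (nat_lit 0), (nat_lit 0), (nat_lit 0), (24, 16, 10), [32497076, 3069421], 0⟩,
  ⟨⟨31, -48, -4, -10, -17, -50, 46, 4, -35⟩, (.cons (nat_lit 8235601) (nat_lit 27106946) (nat_lit 10547543)
 (nat_lit 1) (.cons (nat_lit 3553063) (nat_lit 2987422) (nat_lit 1210381) (nat_lit 1) .nil)), (nat_lit 11),
 (nat_lit 0), (nat_lit 0), (nat_lit 0), (18, 13, 25), [26891439, 3624392], 0⟩,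
  ⟨⟨-57, -4, 40, 8, -45, 26, -24, -24, -25⟩, (.cons (nat_lit 5223134) (nat_lit 38148273) (nat_lit 30933883)
 (nat_lit 1) (.cons (nat_lit 3490814) (nat_lit 1497629) (nat_lit 1221836) (nat_lit 1) .nil)), (nat_lit 21),
 (nat_lit 0), (nat_lit 0), (nat_lit 0), (12, 29, 19), [29676270, 2401442], 0⟩,
  mz,
  mz,
  ⟨⟨-33, 20, -32, 8, -45, -34, 24, 24, -49⟩, (.cons (nat_lit 13999432) (nat_lit 8555584) (nat_lit 1) (nat_lit
 11961460) (.cons (nat_lit 4317431) (nat_lit 4151890) (nat_lit 1160777) (nat_lit 1) .nil)), (nat_lit 18),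
 (nat_lit 0), (nat_lit 0), (nat_lit 0), (47, 40, 14), [17263030, 826908], 0⟩,
  ⟨⟨45, 28, -49, -28, 45, 14, 0, 0, -53⟩, (.cons (nat_lit 28347481) (nat_lit 10271709) (nat_lit 36834336)
 (nat_lit 1) (.cons (nat_lit 2415378) (nat_lit 1552770) (nat_lit 2387014) (nat_lit 1) .nil)), (nat_lit 31),
 (nat_lit 0), (nat_lit 0), (nat_lit 0), (24, 31, 0), [6069332, 616537], 0⟩,
  mz,
  ⟨⟨-13, 48, -27, 30, -17, -60, 30, 36, -7⟩, (.cons (nat_lit 10880868) (nat_lit 20304135) (nat_lit 10898320)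
 (nat_lit 1) (.cons (nat_lit 3114907) (nat_lit 3279779) (nat_lit 1891181) (nat_lit 1) .nil)), (nat_lit 29),
 (nat_lit 0), (nat_lit 0), (nat_lit 0), (11, 48, 48), [17989211, 2706558], 0⟩,
  mz,
  ⟨⟨-25, -48, -11, 28, 5, -64, -40, 8, -7⟩, (.cons (nat_lit 11281581) (nat_lit 14808401) (nat_lit 8677937)
 (nat_lit 1) (.cons (nat_lit 939802) (nat_lit 1694767) (nat_lit 2517129) (nat_lit 1) .nil)), (nat_lit 36),
 (nat_lit 0), (nat_lit 0), (nat_lit 0), (2, 2, 35), [25049431, 666111], 0⟩,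
  mz,
  ⟨⟨-1, -48, 37, 52, 5, -16, 8, -40, -31⟩, (.cons (nat_lit 30222932) (nat_lit 17398145) (nat_lit 12507064)
 (nat_lit 1) (.cons (nat_lit 3612716) (nat_lit 2884118) (nat_lit 1905949) (nat_lit 1) .nil)), (nat_lit 6),
 (nat_lit 0), (nat_lit 0), (nat_lit 0), (29, 29, 33), [19910818, 3475208], 0⟩,
  ⟨⟨-13, 48, 40, -30, 17, -30, 30, 36, -23⟩, (.cons (nat_lit 21115196) (nat_lit 19560164) (nat_lit 40174970)
 (nat_lit 1) (.cons (nat_lit 4834313) (nat_lit 3519403) (nat_lit 3965972) (nat_lit 1) .nil)), (nat_lit 52),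
 (nat_lit 0), (nat_lit 0), (nat_lit 0), (42, 48, 5), [27935239, 4716378], 0⟩,
  mz,
  ⟨⟨45, -28, -49, 28, 45, -14, 0, 0, -53⟩, (.cons (nat_lit 25864700) (nat_lit 38964569) (nat_lit 24042333)
 (nat_lit 1) (.cons (nat_lit 3347905) (nat_lit 2669052) (nat_lit 1385159) (nat_lit 1) .nil)), (nat_lit 22),
 (nat_lit 0), (nat_lit 0), (nat_lit 0), (39, 49, 0), [32485722, 3078820], 0⟩,
  mz,
  ⟨⟨-39, 28, -17, 10, -33, -50, 18, 36, -37⟩, (.cons (nat_lit 33892694) (nat_lit 11995324) (nat_lit 2853738)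
 (nat_lit 1) (.cons (nat_lit 3889123) (nat_lit 4404194) (nat_lit 1508190) (nat_lit 1) .nil)), (nat_lit 50),
 (nat_lit 0), (nat_lit 0), (nat_lit 0), (43, 8, 25), [26455334, 3404348], 0⟩,
  mz,
  mz,
  ⟨⟨-9, 8, -59, 52, -5, -36, -8, -40, -23⟩, (.cons (nat_lit 38652932) (nat_lit 30706969) (nat_lit 14705986)
 (nat_lit 1) (.cons (nat_lit 153476) (nat_lit 1600891) (nat_lit 899400) (nat_lit 1) .nil)), (nat_lit 10),
 (nat_lit 0), (nat_lit 0), (nat_lit 0), (2, 12, 43), [1667941, 1230], 0⟩,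
  ⟨⟨-1, 48, 37, 52, -5, -16, 8, 40, -31⟩, (.cons (nat_lit 11841982) (nat_lit 10430410) (nat_lit 27064309)
 (nat_lit 1) (.cons (nat_lit 1611968) (nat_lit 4127994) (nat_lit 3607359) (nat_lit 1) .nil)), (nat_lit 6),
 (nat_lit 0), (nat_lit 0), (nat_lit 0), (26, 26, 4), [40093355, 3247784], 0⟩,
  ⟨⟨39, 28, -56, -10, -33, -40, -18, 36, -19⟩, (.cons (nat_lit 30864579) (nat_lit 38402621) (nat_lit 22564781)
 (nat_lit 1) (.cons (nat_lit 3731457) (nat_lit 561850) (nat_lit 94369) (nat_lit 1) .nil)), (nat_lit 50),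
 (nat_lit 0), (nat_lit 0), (nat_lit 0), (34, 47, 21), [18728454, 3112854], 0⟩,
  ⟨⟨15, -56, -11, -28, -5, -36, 40, -8, -47⟩, (.cons (nat_lit 10672576) (nat_lit 22523720) (nat_lit 12260883)
 (nat_lit 1) (.cons (nat_lit 4413638) (nat_lit 3797957) (nat_lit 3014182) (nat_lit 1) .nil)), (nat_lit 28),
 (nat_lit 0), (nat_lit 0), (nat_lit 0), (31, 34, 12), [20538281, 1041886], 0⟩,
  ⟨⟨1, 48, 36, 52, 5, -36, -8, 40, -23⟩, (.cons (nat_lit 34069676) (nat_lit 12003387) (nat_lit 514203) (nat_lit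
 1) (.cons (nat_lit 1459924) (nat_lit 1937355) (nat_lit 2764849) (nat_lit 1) .nil)), (nat_lit 39), (nat_lit 0),
 (nat_lit 0), (nat_lit 0), (38, 15, 14), [2283891, 507862], 0⟩,
  ⟨⟨31, 48, -4, 10, -17, 50, 46, -4, -35⟩, (.cons (nat_lit 39868764) (nat_lit 13464728) (nat_lit 5165049)
 (nat_lit 1) (.cons (nat_lit 3593538) (nat_lit 2957229) (nat_lit 1595941) (nat_lit 1) .nil)), (nat_lit 43),
 (nat_lit 0), (nat_lit 0), (nat_lit 0), (15, 51, 12), [765783, 525938], 0⟩,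
  ⟨⟨-57, 4, 40, -8, -45, -26, -24, 24, -25⟩, (.cons (nat_lit 18729138) (nat_lit 36842661) (nat_lit 1) (nat_lit
 32384611) (.cons (nat_lit 4053573) (nat_lit 3343764) (nat_lit 3003893) (nat_lit 1) .nil)), (nat_lit 9),
 (nat_lit 0), (nat_lit 0), (nat_lit 0), (25, 50, 44), [21342756, 2547155], 0⟩,
  ⟨⟨15, 32, 44, 50, -17, -30, 14, 44, -19⟩, (.cons (nat_lit 38370230) (nat_lit 18249926) (nat_lit 32363846)
 (nat_lit 1) (.cons (nat_lit 474187) (nat_lit 4140509) (nat_lit 612280) (nat_lit 1) .nil)), (nat_lit 41),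
 (nat_lit 0), (nat_lit 0), (nat_lit 0), (27, 37, 4), [6380613, 2806827], 0⟩,
  ⟨⟨1, 12, -64, 50, 17, -20, -14, 44, -5⟩, (.cons (nat_lit 12634381) (nat_lit 13243628) (nat_lit 24832404)
 (nat_lit 1) (.cons (nat_lit 1416896) (nat_lit 3309566) (nat_lit 1755279) (nat_lit 1) .nil)), (nat_lit 48),
 (nat_lit 0), (nat_lit 0), (nat_lit 0), (42, 33, 48), [6189733, 2397237], 0⟩,
  mz,
  ⟨⟨43, 12, 20, 30, 17, -60, 30, -36, -7⟩, (.cons (nat_lit 40353606) (nat_lit 7694426) (nat_lit 9765969)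
 (nat_lit 1) (.cons (nat_lit 4879680) (nat_lit 3924346) (nat_lit 915921) (nat_lit 1) .nil)), (nat_lit 46),
 (nat_lit 0), (nat_lit 0), (nat_lit 0), (23, 37, 37), [33701165, 1409437], 0⟩,
  ⟨⟨-15, -32, 59, 50, -17, -20, -14, -44, -5⟩, (.cons (nat_lit 9581462) (nat_lit 22197656) (nat_lit 29916441)
 (nat_lit 1) (.cons (nat_lit 4663563) (nat_lit 64905) (nat_lit 3776659) (nat_lit 1) .nil)), (nat_lit 17),
 (nat_lit 0), (nat_lit 0), (nat_lit 0), (8, 44, 11), [19486828, 1611685], 0⟩,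
  ⟨⟨15, -52, 16, 10, -17, -60, 46, -4, -11⟩, (.cons (nat_lit 28981199) (nat_lit 12195696) (nat_lit 3257152)
 (nat_lit 1) (.cons (nat_lit 3134683) (nat_lit 632791) (nat_lit 2099466) (nat_lit 1) .nil)), (nat_lit 44),
 (nat_lit 0), (nat_lit 0), (nat_lit 0), (14, 27, 50), [6455244, 3904864], 0⟩,
  ⟨⟨-39, -28, -17, 10, 33, -50, 18, -36, -37⟩, (.cons (nat_lit 35826729) (nat_lit 29446547) (nat_lit 38364224)
 (nat_lit 1) (.cons (nat_lit 3929671) (nat_lit 2345913) (nat_lit 4631572) (nat_lit 1) .nil)), (nat_lit 50),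
 (nat_lit 0), (nat_lit 0), (nat_lit 0), (5, 49, 14), [29692976, 542949], 0⟩,
  ⟨⟨39, -28, -56, 10, -33, 40, -18, -36, -19⟩, (.cons (nat_lit 21317235) (nat_lit 29414907) (nat_lit 9024916)
 (nat_lit 1) (.cons (nat_lit 400638) (nat_lit 1224230) (nat_lit 4840647) (nat_lit 1) .nil)), (nat_lit 38),
 (nat_lit 0), (nat_lit 0), (nat_lit 0), (49, 18, 10), [38010047, 117482], 0⟩,
  mz,
  ⟨⟨43, 12, -63, -30, -17, -30, 30, -36, -23⟩, (.cons (nat_lit 35317311) (nat_lit 29090447) (nat_lit 8077005)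
 (nat_lit 1) (.cons (nat_lit 3781621) (nat_lit 2083576) (nat_lit 2634221) (nat_lit 1) .nil)), (nat_lit 24),
 (nat_lit 0), (nat_lit 0), (nat_lit 0), (2, 6, 47), [34448189, 645168], 0⟩]

/-- Moves. -/
noncomputable def t4_3 : List Mv := [
  mz,
  mz,
  mz,
  mz,
  ⟨⟨51, 20, -47, 10, -47, -30, -2, 20, -47⟩, (.cons (nat_lit 36298024) (nat_lit 8706380) (nat_lit 26628135)
 (nat_lit 1) (.cons (nat_lit 282873) (nat_lit 4653343) (nat_lit 1024287) (nat_lit 1) .nil)), (nat_lit 15),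
 (nat_lit 0), (nat_lit 0), (nat_lit 0), (24, 39, 24), [9761566, 2772899], 0⟩,
  ⟨⟨51, -20, -47, 10, 47, -30, -2, -20, -47⟩, (.cons (nat_lit 40266185) (nat_lit 27561786) (nat_lit 15843865)
 (nat_lit 1) (.cons (nat_lit 4861963) (nat_lit 3860003) (nat_lit 3223062) (nat_lit 1) .nil)), (nat_lit 15),
 (nat_lit 0), (nat_lit 0), (nat_lit 0), (12, 46, 12), [2485570, 660466], 0⟩,
  ⟨⟨25, -48, -36, 28, -5, 36, 40, 8, -47⟩, (.cons (nat_lit 37144020) (nat_lit 33817544) (nat_lit 30917925)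
 (nat_lit 1) (.cons (nat_lit 2250950) (nat_lit 2766413) (nat_lit 4820005) (nat_lit 1) .nil)), (nat_lit 40),
 (nat_lit 0), (nat_lit 0), (nat_lit 0), (37, 16, 38), [8526471, 1881277], 0⟩,
  mz,
  mz,
  ⟨⟨-33, -20, -32, -8, -45, 34, 24, -24, -49⟩, (.cons (nat_lit 1578801) (nat_lit 16683742) (nat_lit 22137674)
 (nat_lit 1) (.cons (nat_lit 1456607) (nat_lit 1068101) (nat_lit 1269305) (nat_lit 1) .nil)), (nat_lit 42),
 (nat_lit 0), (nat_lit 0), (nat_lit 0), (35, 39, 42), [23781556, 3279778], 0⟩,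
  ⟨⟨-25, 48, -11, 28, -5, -64, -40, -8, -7⟩, (.cons (nat_lit 36507133) (nat_lit 2918158) (nat_lit 39937830)
 (nat_lit 1) (.cons (nat_lit 4235367) (nat_lit 4634313) (nat_lit 4614764) (nat_lit 1) .nil)), (nat_lit 36),
 (nat_lit 0), (nat_lit 0), (nat_lit 0), (52, 52, 9), [9234338, 4044810], 0⟩,
  ⟨⟨15, -32, 44, 50, 17, -30, 14, -44, -19⟩, (.cons (nat_lit 17756027) (nat_lit 30588956) (nat_lit 35835815)
 (nat_lit 1) (.cons (nat_lit 4492137) (nat_lit 4770479) (nat_lit 755566) (nat_lit 1) .nil)), (nat_lit 41),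
 (nat_lit 0), (nat_lit 0), (nat_lit 0), (29, 26, 20), [28352403, 1593196], 0⟩,
  ⟨⟨-51, 20, 4, 10, 47, 20, 2, 20, -49⟩, (.cons (nat_lit 40353606) (nat_lit 37015955) (nat_lit 27652226)
 (nat_lit 1) (.cons (nat_lit 4879680) (nat_lit 1668597) (nat_lit 3950338) (nat_lit 1) .nil)), (nat_lit 12),
 (nat_lit 0), (nat_lit 0), (nat_lit 0), (48, 28, 48), [1802398, 1697662], 0⟩,
  mz,
  mz,
  ⟨⟨-51, -20, 4, 10, -47, 20, 2, -20, -49⟩, (.cons (nat_lit 6763572) (nat_lit 21536030) (nat_lit 1) (nat_lit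
 3773084) (.cons (nat_lit 3562781) (nat_lit 23833) (nat_lit 129326) (nat_lit 1) .nil)), (nat_lit 12), (nat_lit
 0), (nat_lit 0), (nat_lit 0), (36, 21, 36), [2803968, 2406903], 0⟩,
  ⟨⟨31, -48, -27, -10, -17, 60, 46, 4, -11⟩, (.cons (nat_lit 18621508) (nat_lit 12683682) (nat_lit 25249655)
 (nat_lit 1) (.cons (nat_lit 4309349) (nat_lit 3925308) (nat_lit 4194499) (nat_lit 1) .nil)), (nat_lit 11),
 (nat_lit 0), (nat_lit 0), (nat_lit 0), (39, 37, 10), [19519559, 3879613], 0⟩,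
  ⟨⟨31, -48, -4, -10, -17, -50, 46, 4, -35⟩, (.cons (nat_lit 8235601) (nat_lit 27106946) (nat_lit 10547543)
 (nat_lit 1) (.cons (nat_lit 3553063) (nat_lit 2987422) (nat_lit 1210381) (nat_lit 1) .nil)), (nat_lit 11),
 (nat_lit 0), (nat_lit 0), (nat_lit 0), (18, 13, 25), [26891439, 3624392], 0⟩,
  ⟨⟨33, -20, -65, -8, 45, -26, -24, -24, -25⟩, (.cons (nat_lit 40353606) (nat_lit 38784213) (nat_lit 19364891)
 (nat_lit 1) (.cons (nat_lit 4879680) (nat_lit 4138959) (nat_lit 3554034) (nat_lit 1) .nil)), (nat_lit 18),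
 (nat_lit 0), (nat_lit 0), (nat_lit 0), (7, 24, 19), [28782240, 4415471], 0⟩,
  mz,
  mz,
  ⟨⟨-33, 20, -32, -8, 45, 34, 24, 24, -49⟩, (.cons (nat_lit 37634808) (nat_lit 63749) (nat_lit 29020274)
 (nat_lit 1) (.cons (nat_lit 4069355) (nat_lit 4126117) (nat_lit 4818337) (nat_lit 1) .nil)), (nat_lit 42),
 (nat_lit 0), (nat_lit 0), (nat_lit 0), (47, 13, 14), [14660419, 4213888], 0⟩,
  ⟨⟨45, 28, -49, 28, -45, -14, 0, 0, -53⟩, (.cons (nat_lit 17018771) (nat_lit 37390719) (nat_lit 1) (nat_lit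
 23334836) (.cons (nat_lit 4879680) (nat_lit 1411472) (nat_lit 4573802) (nat_lit 1) .nil)), (nat_lit 22),
 (nat_lit 0), (nat_lit 0), (nat_lit 0), (24, 22, 0), [30616445, 846969], 0⟩,
  mz,
  ⟨⟨43, -12, 20, 30, -17, -60, 30, 36, -7⟩, (.cons (nat_lit 10044337) (nat_lit 18867781) (nat_lit 2909437)
 (nat_lit 1) (.cons (nat_lit 2614675) (nat_lit 4733110) (nat_lit 3802201) (nat_lit 1) .nil)), (nat_lit 46),
 (nat_lit 0), (nat_lit 0), (nat_lit 0), (37, 48, 48), [21923120, 26853], 0⟩,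
  mz,
  ⟨⟨-25, -48, -11, 28, 5, -64, -40, 8, -7⟩, (.cons (nat_lit 11281581) (nat_lit 14808401) (nat_lit 8677937)
 (nat_lit 1) (.cons (nat_lit 939802) (nat_lit 1694767) (nat_lit 2517129) (nat_lit 1) .nil)), (nat_lit 36),
 (nat_lit 0), (nat_lit 0), (nat_lit 0), (2, 2, 35), [25049431, 666111], 0⟩,
  mz,
  ⟨⟨-1, -48, 37, 52, 5, -16, 8, -40, -31⟩, (.cons (nat_lit 30222932) (nat_lit 17398145) (nat_lit 12507064)
 (nat_lit 1) (.cons (nat_lit 3612716) (nat_lit 2884118) (nat_lit 1905949) (nat_lit 1) .nil)), (nat_lit 6),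
 (nat_lit 0), (nat_lit 0), (nat_lit 0), (29, 29, 33), [19910818, 3475208], 0⟩,
  ⟨⟨-13, 48, 40, 30, -17, 30, 30, 36, -23⟩, (.cons (nat_lit 40353606) (nat_lit 14905193) (nat_lit 33996050)
 (nat_lit 1) (.cons (nat_lit 4879680) (nat_lit 4830156) (nat_lit 877458) (nat_lit 1) .nil)), (nat_lit 29),
 (nat_lit 0), (nat_lit 0), (nat_lit 0), (42, 5, 5), [33342798, 3300245], 0⟩,
  mz,
  ⟨⟨45, -28, -49, 28, 45, -14, 0, 0, -53⟩, (.cons (nat_lit 25864700) (nat_lit 38964569) (nat_lit 24042333)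
 (nat_lit 1) (.cons (nat_lit 3347905) (nat_lit 2669052) (nat_lit 1385159) (nat_lit 1) .nil)), (nat_lit 22),
 (nat_lit 0), (nat_lit 0), (nat_lit 0), (39, 49, 0), [32485722, 3078820], 0⟩,
  mz,
  ⟨⟨-39, 28, -17, 10, -33, -50, 18, 36, -37⟩, (.cons (nat_lit 33892694) (nat_lit 11995324) (nat_lit 2853738)
 (nat_lit 1) (.cons (nat_lit 3889123) (nat_lit 4404194) (nat_lit 1508190) (nat_lit 1) .nil)), (nat_lit 50),
 (nat_lit 0), (nat_lit 0), (nat_lit 0), (43, 8, 25), [26455334, 3404348], 0⟩,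
  mz,
  mz,
  ⟨⟨-9, 8, -59, -52, 5, 36, -8, -40, -23⟩, (.cons (nat_lit 6977724) (nat_lit 26781592) (nat_lit 32879606)
 (nat_lit 1) (.cons (nat_lit 4458481) (nat_lit 1965953) (nat_lit 1564249) (nat_lit 1) .nil)), (nat_lit 26),
 (nat_lit 0), (nat_lit 0), (nat_lit 0), (2, 41, 43), [15213188, 419550], 0⟩,
  ⟨⟨-1, 48, 37, 52, -5, -16, 8, 40, -31⟩, (.cons (nat_lit 11841982) (nat_lit 10430410) (nat_lit 27064309)
 (nat_lit 1) (.cons (nat_lit 1611968) (nat_lit 4127994) (nat_lit 3607359) (nat_lit 1) .nil)), (nat_lit 6),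
 (nat_lit 0), (nat_lit 0), (nat_lit 0), (26, 26, 4), [40093355, 3247784], 0⟩,
  ⟨⟨-57, 8, 37, -10, -33, -40, -18, 36, -19⟩, (.cons (nat_lit 27961223) (nat_lit 29231925) (nat_lit 12312126)
 (nat_lit 1) (.cons (nat_lit 3623103) (nat_lit 1243890) (nat_lit 648734) (nat_lit 1) .nil)), (nat_lit 49),
 (nat_lit 0), (nat_lit 0), (nat_lit 0), (40, 47, 21), [30718180, 1445341], 0⟩,
  ⟨⟨25, 48, -36, 28, 5, 36, 40, -8, -47⟩, (.cons (nat_lit 24782781) (nat_lit 36780715) (nat_lit 6276808)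
 (nat_lit 1) (.cons (nat_lit 1532938) (nat_lit 1952825) (nat_lit 2429808) (nat_lit 1) .nil)), (nat_lit 40),
 (nat_lit 0), (nat_lit 0), (nat_lit 0), (34, 19, 12), [16349197, 4642688], 0⟩,
  ⟨⟨-9, -8, -59, -52, -5, 36, -8, 40, -23⟩, (.cons (nat_lit 21142182) (nat_lit 8954886) (nat_lit 5069919)
 (nat_lit 1) (.cons (nat_lit 3244184) (nat_lit 383442) (nat_lit 3092491) (nat_lit 1) .nil)), (nat_lit 26),
 (nat_lit 0), (nat_lit 0), (nat_lit 0), (29, 38, 14), [26553234, 1070180], 0⟩,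
  ⟨⟨31, 48, -4, -10, 17, -50, 46, -4, -35⟩, (.cons (nat_lit 34648037) (nat_lit 16383056) (nat_lit 14334736)
 (nat_lit 1) (.cons (nat_lit 4424896) (nat_lit 1961648) (nat_lit 2706652) (nat_lit 1) .nil)), (nat_lit 11),
 (nat_lit 0), (nat_lit 0), (nat_lit 0), (15, 2, 12), [10416270, 3978364], 0⟩,
  ⟨⟨33, 20, -65, -8, -45, -26, -24, 24, -25⟩, (.cons (nat_lit 37289538) (nat_lit 33918715) (nat_lit 1) (nat_lit
 10752665) (.cons (nat_lit 171821) (nat_lit 1020233) (nat_lit 1693533) (nat_lit 1) .nil)), (nat_lit 18),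
 (nat_lit 0), (nat_lit 0), (nat_lit 0), (19, 50, 44), [5227748, 614703], 0⟩,
  ⟨⟨15, 32, 44, 50, -17, -30, 14, 44, -19⟩, (.cons (nat_lit 38370230) (nat_lit 18249926) (nat_lit 32363846)
 (nat_lit 1) (.cons (nat_lit 474187) (nat_lit 4140509) (nat_lit 612280) (nat_lit 1) .nil)), (nat_lit 41),
 (nat_lit 0), (nat_lit 0), (nat_lit 0), (27, 37, 4), [6380613, 2806827], 0⟩,
  ⟨⟨-15, 32, 59, 50, 17, -20, -14, 44, -5⟩, (.cons (nat_lit 17715554) (nat_lit 9793638) (nat_lit 12768709)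
 (nat_lit 1) (.cons (nat_lit 3890814) (nat_lit 4074839) (nat_lit 1029928) (nat_lit 1) .nil)), (nat_lit 17),
 (nat_lit 0), (nat_lit 0), (nat_lit 0), (6, 33, 48), [30138329, 3303444], 0⟩,
  mz,
  ⟨⟨43, 12, 20, 30, 17, -60, 30, -36, -7⟩, (.cons (nat_lit 40353606) (nat_lit 7694426) (nat_lit 9765969)
 (nat_lit 1) (.cons (nat_lit 4879680) (nat_lit 3924346) (nat_lit 915921) (nat_lit 1) .nil)), (nat_lit 46),
 (nat_lit 0), (nat_lit 0), (nat_lit 0), (23, 37, 37), [33701165, 1409437], 0⟩,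
  ⟨⟨-15, -32, 59, 50, -17, -20, -14, -44, -5⟩, (.cons (nat_lit 9581462) (nat_lit 22197656) (nat_lit 29916441)
 (nat_lit 1) (.cons (nat_lit 4663563) (nat_lit 64905) (nat_lit 3776659) (nat_lit 1) .nil)), (nat_lit 17),
 (nat_lit 0), (nat_lit 0), (nat_lit 0), (8, 44, 11), [19486828, 1611685], 0⟩,
  ⟨⟨31, 48, -27, -10, 17, 60, 46, -4, -11⟩, (.cons (nat_lit 23598271) (nat_lit 8659027) (nat_lit 1558264)
 (nat_lit 1) (.cons (nat_lit 736862) (nat_lit 1171812) (nat_lit 3844328) (nat_lit 1) .nil)), (nat_lit 11),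
 (nat_lit 0), (nat_lit 0), (nat_lit 0), (36, 26, 50), [39562172, 1268073], 0⟩,
  ⟨⟨-39, -28, -17, 10, 33, -50, 18, -36, -37⟩, (.cons (nat_lit 35826729) (nat_lit 29446547) (nat_lit 38364224)
 (nat_lit 1) (.cons (nat_lit 3929671) (nat_lit 2345913) (nat_lit 4631572) (nat_lit 1) .nil)), (nat_lit 50),
 (nat_lit 0), (nat_lit 0), (nat_lit 0), (5, 49, 14), [29692976, 542949], 0⟩,
  ⟨⟨-57, -8, 37, -10, 33, -40, -18, -36, -19⟩, (.cons (nat_lit 8132349) (nat_lit 5899057) (nat_lit 30853869)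
 (nat_lit 1) (.cons (nat_lit 3253999) (nat_lit 3611478) (nat_lit 3216441) (nat_lit 1) .nil)), (nat_lit 49),
 (nat_lit 0), (nat_lit 0), (nat_lit 0), (14, 35, 10), [3059558, 3252593], 0⟩,
  mz,
  ⟨⟨-13, -48, 40, 30, 17, 30, 30, -36, -23⟩, (.cons (nat_lit 11768262) (nat_lit 26402346) (nat_lit 25862229)
 (nat_lit 1) (.cons (nat_lit 1116127) (nat_lit 3455371) (nat_lit 993491) (nat_lit 1) .nil)), (nat_lit 29),
 (nat_lit 0), (nat_lit 0), (nat_lit 0), (45, 47, 47), [39843396, 4718690], 0⟩]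

/-- All the moves. -/
noncomputable def tabs : List (List (List Mv)) := [[[], t0_1, [], t0_3], [[], t1_1, [], t1_3], [], [], [[], t4_1, [], t4_3]]

/-- Subtrie. -/
noncomputable def T1 : Tr := (.ev (nat_lit 20) (nat_lit 4645033185837568) (.nd (nat_lit 33) (.br (nat_lit 25)
 (.br (nat_lit 14) (.br (nat_lit 5) (.br (nat_lit 2) (.ch (nat_lit 1) (.ev (nat_lit 52) (nat_lit
 593738498054176) (.ev (nat_lit 84) (nat_lit 64) (.ev (nat_lit 340) (nat_lit 281474976710656) (.ev (nat_lit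
 404) (nat_lit 32768) (.ev (nat_lit 500) (nat_lit 274877906944) (.ev (nat_lit 608) (nat_lit 70369281048576)
 (.nd (nat_lit 992) (.br (nat_lit 2) (.ch (nat_lit 1) (.ev (nat_lit 1008) (nat_lit 1127068140044304) (.nd
 (nat_lit 1072) (.br (nat_lit 3) (.ch (nat_lit 1) (.ev (nat_lit 1088) (nat_lit 1024) (.ev (nat_lit 1101)
 (nat_lit 2199023255552) .dd))) (.br (nat_lit 6) (.ch (nat_lit 3) (.ev (nat_lit 1088) (nat_lit 2199023256576)
 .dd)) (.ch (nat_lit 6) (.ev (nat_lit 1120) (nat_lit 2199023256576) .dd))))))) (.br (nat_lit 3) (.ch (nat_lit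
 2) (.ev (nat_lit 1008) (nat_lit 2267744830480) (.nd (nat_lit 1072) (.br (nat_lit 4) (.ch (nat_lit 1) (.ev
 (nat_lit 1088) (nat_lit 1126999418470400) .dd)) (.br (nat_lit 5) (.ch (nat_lit 4) (.ev (nat_lit 1088) (nat_lit
 1099511627776) (.ev (nat_lit 1101) (nat_lit 1125899906842624) .dd))) (.ch (nat_lit 5) (.ev (nat_lit 1088)
 (nat_lit 1125899906842624) (.ev (nat_lit 1101) (nat_lit 1099511627776) .dd)))))))) (.ch (nat_lit 3) (.ev
 (nat_lit 1008) (nat_lit 1129198441725952) (.nd (nat_lit 1072) (.br (nat_lit 6) (.ch (nat_lit 3) (.ev (nat_lit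
 1088) (nat_lit 68721573904) (.ev (nat_lit 1101) (nat_lit 1024) .dd))) (.ch (nat_lit 6) (.ev (nat_lit 1088)
 (nat_lit 1024) (.ev (nat_lit 1156) (nat_lit 68719476736) (.nd (nat_lit 1760) (.ch (nat_lit 6) (.nd (nat_lit
 1777) (.br (nat_lit 11) (.ch (nat_lit 8) (.ev (nat_lit 1793) (nat_lit 2097168) .dd)) (.br (nat_lit 46) (.ch
 (nat_lit 11) (.nd (nat_lit 1808) (.br (nat_lit 6) (.ch (nat_lit 1) (.ev (nat_lit 1824) (nat_lit 2097168) .dd))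
 (.ch (nat_lit 6) (.fin (nat_lit 576466799628337727)))))) (.ch (nat_lit 46) (.ev (nat_lit 1793) (nat_lit
 2097168) .dd)))))))))))))))))))))))) (.br (nat_lit 3) (.ch (nat_lit 2) (.ev (nat_lit 52) (nat_lit
 2049764619485216) (.ev (nat_lit 276) (nat_lit 536870912) (.ev (nat_lit 320) (nat_lit 25359640697936) .dd))))
 (.ch (nat_lit 3) (.ev (nat_lit 52) (nat_lit 1689952058350672) (.ev (nat_lit 276) (nat_lit 4398046511104) (.ev
 (nat_lit 384) (nat_lit 380774692192288) .dd)))))) (.br (nat_lit 11) (.br (nat_lit 9) (.ch (nat_lit 5) (.ev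
 (nat_lit 52) (nat_lit 18969333340192) (.ev (nat_lit 340) (nat_lit 68719476736) (.ev (nat_lit 372) (nat_lit
 2199023255552) (.ev (nat_lit 532) (nat_lit 262144) (.ev (nat_lit 928) (nat_lit 32768) (.nd (nat_lit 992) (.br
 (nat_lit 3) (.ch (nat_lit 0) (.ev (nat_lit 1008) (nat_lit 844424930132992) (.nd (nat_lit 1072) (.br (nat_lit
 5) (.br (nat_lit 4) (.ch (nat_lit 1) (.ev (nat_lit 1088) (nat_lit 4398046511104) (.ev (nat_lit 1156) (nat_lit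
 64) (.ev (nat_lit 1204) (nat_lit 16) (.ev (nat_lit 1348) (nat_lit 70368744177664) (.fin (nat_lit
 576465700085252698))))))) (.ch (nat_lit 4) (.ev (nat_lit 1088) (nat_lit 1134695999864896) (.ev (nat_lit 1184)
 (nat_lit 74766790688768) (.ev (nat_lit 1197) (nat_lit 16) .dd))))) (.br (nat_lit 6) (.ch (nat_lit 5) (.ev
 (nat_lit 1088) (nat_lit 1200666697531392) (.ev (nat_lit 1156) (nat_lit 64) (.ev (nat_lit 1360) (nat_lit 16)
 (.ev (nat_lit 1373) (nat_lit 8796093022208) .dd))))) (.ch (nat_lit 6) (.ev (nat_lit 1088) (nat_lit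
 1134695999864896) (.ev (nat_lit 1348) (nat_lit 16) (.ev (nat_lit 1492) (nat_lit 4398046511104) (.ev (nat_lit
 1501) (nat_lit 70368744177664) .dd)))))))))) (.br (nat_lit 6) (.ch (nat_lit 3) (.ev (nat_lit 1008) (nat_lit
 1490937767264320) (.nd (nat_lit 1072) (.br (nat_lit 3) (.ch (nat_lit 1) (.ev (nat_lit 1088) (nat_lit
 562949953421328) (.ev (nat_lit 1101) (nat_lit 1024) .dd))) (.br (nat_lit 6) (.ch (nat_lit 3) (.ev (nat_lit
 1088) (nat_lit 1040) (.ev (nat_lit 1101) (nat_lit 562949953421312) .dd))) (.ch (nat_lit 6) (.ev (nat_lit 1088)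
 (nat_lit 562949953422336) (.ev (nat_lit 1101) (nat_lit 16) .dd)))))))) (.ch (nat_lit 6) (.ev (nat_lit 1008)
 (nat_lit 1134695999865936) (.nd (nat_lit 1072) (.br (nat_lit 3) (.br (nat_lit 1) (.ch (nat_lit 0) (.ev
 (nat_lit 1204) (nat_lit 562949953421312) (.ev (nat_lit 1348) (nat_lit 4398046511104) (.ev (nat_lit 1520)
 (nat_lit 281474976710656) (.ev (nat_lit 1533) (nat_lit 70368744177664) .dd))))) (.ch (nat_lit 1) (.ev (nat_lit
 1088) (nat_lit 356241767399424) (.ev (nat_lit 1101) (nat_lit 562949953421312) .dd)))) (.br (nat_lit 6) (.ch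
 (nat_lit 3) (.ev (nat_lit 1088) (nat_lit 4398046511104) (.ev (nat_lit 1328) (nat_lit 281474976710656) (.ev
 (nat_lit 1492) (nat_lit 70368744177664) (.ev (nat_lit 1501) (nat_lit 562949953421312) .dd))))) (.ch (nat_lit
 6) (.ev (nat_lit 1088) (nat_lit 285873023221760) (.ev (nat_lit 1168) (nat_lit 70368744177664) (.ev (nat_lit
 1181) (nat_lit 562949953421312) .dd)))))))))))))))))) (.ch (nat_lit 9) (.ev (nat_lit 52) (nat_lit
 639159859710976) (.ev (nat_lit 372) (nat_lit 2147483648) (.ev (nat_lit 532) (nat_lit 1125899906842624) (.nd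
 (nat_lit 992) (.br (nat_lit 3) (.br (nat_lit 2) (.ch (nat_lit 1) (.ev (nat_lit 1008) (nat_lit 310062815903808)
 (.nd (nat_lit 1072) (.br (nat_lit 3) (.br (nat_lit 1) (.ch (nat_lit 0) (.ev (nat_lit 1088) (nat_lit 67108864)
 (.ev (nat_lit 1492) (nat_lit 4096) (.fin (nat_lit 576434913726120493))))) (.ch (nat_lit 1) (.ev (nat_lit 1088)
 (nat_lit 48) (.ev (nat_lit 1204) (nat_lit 4096) (.ev (nat_lit 1213) (nat_lit 67108864) .dd))))) (.br (nat_lit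
 5) (.ch (nat_lit 3) (.ev (nat_lit 1088) (nat_lit 67112960) (.ev (nat_lit 1104) (nat_lit 16) (.ev (nat_lit
 1117) (nat_lit 32) .dd)))) (.br (nat_lit 6) (.ch (nat_lit 5) (.ev (nat_lit 1088) (nat_lit 4144) (.ev (nat_lit
 1101) (nat_lit 67108864) .dd))) (.ch (nat_lit 6) (.ev (nat_lit 1088) (nat_lit 67108880) (.ev (nat_lit 1216)
 (nat_lit 4128) .dd))))))))) (.ch (nat_lit 2) (.ev (nat_lit 1008) (nat_lit 2199090364464) (.nd (nat_lit 1072)
 (.br (nat_lit 4) (.br (nat_lit 1) (.ch (nat_lit 0) (.ev (nat_lit 1088) (nat_lit 17592186044480) (.ev (nat_lit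
 1296) (nat_lit 4096) (.ev (nat_lit 1392) (nat_lit 281474976710656) (.fin (nat_lit 576419520622051843))))))
 (.ch (nat_lit 1) (.ev (nat_lit 1088) (nat_lit 307863792648192) (.ev (nat_lit 1156) (nat_lit 64) (.ev (nat_lit
 1165) (nat_lit 4096) .dd))))) (.br (nat_lit 5) (.ch (nat_lit 4) (.ev (nat_lit 1088) (nat_lit 307863792648256)
 (.ev (nat_lit 1101) (nat_lit 4096) .dd))) (.ch (nat_lit 5) (.ev (nat_lit 1088) (nat_lit 290271069732864) (.ev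
 (nat_lit 1156) (nat_lit 17592186044416) (.ev (nat_lit 1168) (nat_lit 536870912) (.ev (nat_lit 1348) (nat_lit
 4096) (.ev (nat_lit 1357) (nat_lit 64) .dd)))))))))))) (.br (nat_lit 6) (.ch (nat_lit 3) (.ev (nat_lit 1008)
 (nat_lit 310062279032896) (.nd (nat_lit 1072) (.br (nat_lit 5) (.ch (nat_lit 1) (.ev (nat_lit 1088) (nat_lit
 16) (.ev (nat_lit 1156) (nat_lit 536870912) (.ev (nat_lit 1168) (nat_lit 32) (.ev (nat_lit 1284) (nat_lit
 4096) (.ev (nat_lit 1293) (nat_lit 67108864) .dd)))))) (.br (nat_lit 6) (.ch (nat_lit 5) (.ev (nat_lit 1088)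
 (nat_lit 603983904) (.ev (nat_lit 1101) (nat_lit 16) .dd))) (.ch (nat_lit 6) (.ev (nat_lit 1088) (nat_lit
 603979808) (.ev (nat_lit 1168) (nat_lit 16) (.ev (nat_lit 1181) (nat_lit 4096) .dd))))))))) (.ch (nat_lit 6)
 (.ev (nat_lit 1008) (nat_lit 8796160131104) (.nd (nat_lit 1072) (.br (nat_lit 5) (.br (nat_lit 3) (.ch
 (nat_lit 1) (.ev (nat_lit 1088) (nat_lit 283673999966208) (.ev (nat_lit 1156) (nat_lit 17592186044416) (.ev
 (nat_lit 1168) (nat_lit 4096) (.ev (nat_lit 1184) (nat_lit 80) (.ev (nat_lit 1197) (nat_lit 536870912)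
 .dd)))))) (.ch (nat_lit 3) (.ev (nat_lit 1088) (nat_lit 17592186044480) (.ev (nat_lit 1348) (nat_lit 16) (.ev
 (nat_lit 1360) (nat_lit 536870912) (.ev (nat_lit 1572) (nat_lit 4096) (.fin (nat_lit
 576461302080684582)))))))) (.br (nat_lit 6) (.ch (nat_lit 5) (.ev (nat_lit 1088) (nat_lit 299067699626000)
 (.ev (nat_lit 1284) (nat_lit 4096) (.ev (nat_lit 1296) (nat_lit 2199023255552) (.ev (nat_lit 1309) (nat_lit
 64) .dd))))) (.ch (nat_lit 6) (.ev (nat_lit 1088) (nat_lit 301266186014784) (.ev (nat_lit 1680) (nat_lit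
 536870928) .dd)))))))))))))))) (.br (nat_lit 12) (.ch (nat_lit 11) (.ev (nat_lit 52) (nat_lit 594080419807312)
 (.ev (nat_lit 84) (nat_lit 1099511627776) (.ev (nat_lit 404) (nat_lit 1024) (.ev (nat_lit 736) (nat_lit
 2147483648) (.nd (nat_lit 992) (.br (nat_lit 1) (.ch (nat_lit 0) (.ev (nat_lit 1008) (nat_lit 283674067111968)
 (.nd (nat_lit 1072) (.br (nat_lit 5) (.ch (nat_lit 4) (.ev (nat_lit 1088) (nat_lit 1125899906842624) (.ev
 (nat_lit 1104) (nat_lit 2048) (.ev (nat_lit 1117) (nat_lit 70368744177664) .dd)))) (.br (nat_lit 6) (.ch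
 (nat_lit 5) (.ev (nat_lit 1088) (nat_lit 1196268651022336) .dd)) (.ch (nat_lit 6) (.ev (nat_lit 1088) (nat_lit
 70368744177664) (.ev (nat_lit 1136) (nat_lit 1125899906844672) .dd)))))))) (.br (nat_lit 6) (.ch (nat_lit 1)
 (.ev (nat_lit 1008) (nat_lit 1198467674277920) (.nd (nat_lit 1072) (.br (nat_lit 3) (.ch (nat_lit 0) (.ev
 (nat_lit 1348) (nat_lit 281474976710656) (.ev (nat_lit 1492) (nat_lit 36864) (.ev (nat_lit 1501) (nat_lit
 67108864) .dd)))) (.br (nat_lit 5) (.ch (nat_lit 3) (.ev (nat_lit 1088) (nat_lit 281475043856384) .dd)) (.ch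
 (nat_lit 5) (.ev (nat_lit 1088) (nat_lit 281474976714752) (.ev (nat_lit 1232) (nat_lit 67141632) .dd))))))))
 (.ch (nat_lit 6) (.ev (nat_lit 1008) (nat_lit 1125899973986304) (.ev (nat_lit 1028) (nat_lit 70368744177664)
 (.nd (nat_lit 1072) (.br (nat_lit 3) (.ch (nat_lit 0) (.ev (nat_lit 1088) (nat_lit 283673999970304) (.ev
 (nat_lit 1101) (nat_lit 32) .dd))) (.ch (nat_lit 3) (.ev (nat_lit 1348) (nat_lit 4096) (.ev (nat_lit 1360)
 (nat_lit 32) (.nd (nat_lit 1760) (.ch (nat_lit 3) (.nd (nat_lit 1777) (.ch (nat_lit 1) (.nd (nat_lit 1808)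
 (.br (nat_lit 3) (.ch (nat_lit 1) (.ev (nat_lit 1824) (nat_lit 283673999966208) .dd)) (.ch (nat_lit 3) (.fin
 (nat_lit 576461302080684582))))))))))))))))))))))))) (.ch (nat_lit 12) (.ev (nat_lit 52) (nat_lit
 1759218671846416) (.ev (nat_lit 180) (nat_lit 536870912) (.ev (nat_lit 244) (nat_lit 2048) (.ev (nat_lit 372)
 (nat_lit 68719476736) (.nd (nat_lit 992) (.br (nat_lit 3) (.br (nat_lit 2) (.ch (nat_lit 0) (.ev (nat_lit
 1008) (nat_lit 311163942342720) (.nd (nat_lit 1072) (.br (nat_lit 4) (.br (nat_lit 1) (.ch (nat_lit 0) (.ev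
 (nat_lit 1088) (nat_lit 32) (.ev (nat_lit 1204) (nat_lit 274880004096) (.ev (nat_lit 1213) (nat_lit
 4398046511104) .dd)))) (.ch (nat_lit 1) (.ev (nat_lit 1088) (nat_lit 4672924418080) (.ev (nat_lit 1101)
 (nat_lit 2097152) .dd)))) (.br (nat_lit 5) (.ch (nat_lit 4) (.ev (nat_lit 1088) (nat_lit 274877906944) (.ev
 (nat_lit 1284) (nat_lit 4398046511104) (.ev (nat_lit 1716) (nat_lit 32) (.ev (nat_lit 1725) (nat_lit 2097152)
 .dd))))) (.br (nat_lit 6) (.ch (nat_lit 5) (.ev (nat_lit 1088) (nat_lit 4398048608288) (.ev (nat_lit 1101)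
 (nat_lit 274877906944) .dd))) (.ch (nat_lit 6) (.ev (nat_lit 1088) (nat_lit 4398048608256) (.ev (nat_lit 1104)
 (nat_lit 32) (.ev (nat_lit 1117) (nat_lit 274877906944) .dd)))))))))) (.ch (nat_lit 2) (.ev (nat_lit 1008)
 (nat_lit 277025390688) (.nd (nat_lit 1072) (.br (nat_lit 4) (.br (nat_lit 1) (.ch (nat_lit 0) (.ev (nat_lit
 1088) (nat_lit 18691697672192) (.ev (nat_lit 1156) (nat_lit 281474978811904) (.ev (nat_lit 1168) (nat_lit
 4194304) (.ev (nat_lit 1216) (nat_lit 4398046511104) (.fin (nat_lit 576462401573438018))))))) (.ch (nat_lit 1)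
 (.ev (nat_lit 1088) (nat_lit 302365701832704) (.ev (nat_lit 1120) (nat_lit 8796093026304) (.ev (nat_lit 1296)
 (nat_lit 2097152) (.ev (nat_lit 1309) (nat_lit 4398046511104) .dd)))))) (.br (nat_lit 5) (.ch (nat_lit 4) (.ev
 (nat_lit 1088) (nat_lit 308962771603456) (.ev (nat_lit 1156) (nat_lit 4398046511104) (.ev (nat_lit 1184)
 (nat_lit 2199023255552) (.ev (nat_lit 1197) (nat_lit 2097152) .dd))))) (.ch (nat_lit 5) (.ev (nat_lit 1088)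
 (nat_lit 296868139503616) (.ev (nat_lit 1284) (nat_lit 1099515822080) (.ev (nat_lit 1296) (nat_lit 2097152)
 (.ev (nat_lit 1309) (nat_lit 17592186044416) .dd))))))))))) (.br (nat_lit 6) (.ch (nat_lit 3) (.ev (nat_lit
 1008) (nat_lit 305939110432832) (.nd (nat_lit 1072) (.br (nat_lit 1) (.ch (nat_lit 0) (.ev (nat_lit 1088)
 (nat_lit 2151677952) (.ev (nat_lit 1168) (nat_lit 8796093022240) (.ev (nat_lit 1492) (nat_lit 2097152) (.ev
 (nat_lit 1501) (nat_lit 1099511627776) .dd))))) (.br (nat_lit 5) (.ch (nat_lit 1) (.ev (nat_lit 1088) (nat_lit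
 9895610941440) (.ev (nat_lit 1156) (nat_lit 2147483648) (.ev (nat_lit 1165) (nat_lit 32) .dd)))) (.ch (nat_lit
 5) (.ev (nat_lit 1088) (nat_lit 9897752133664) (.ev (nat_lit 1156) (nat_lit 2097152) (.ev (nat_lit 1165)
 (nat_lit 4194304) .dd))))))))) (.ch (nat_lit 6) (.ev (nat_lit 1008) (nat_lit 14570676555776) (.nd (nat_lit
 1072) (.br (nat_lit 3) (.ch (nat_lit 1) (.ev (nat_lit 1088) (nat_lit 2199027449856) (.ev (nat_lit 1104)
 (nat_lit 281474976710656) (.ev (nat_lit 1156) (nat_lit 32) (.ev (nat_lit 1204) (nat_lit 2097152) (.fin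
 (nat_lit 576487690351362650))))))) (.br (nat_lit 5) (.ch (nat_lit 3) (.ev (nat_lit 1088) (nat_lit
 301266188107840) (.ev (nat_lit 1716) (nat_lit 32) (.ev (nat_lit 1725) (nat_lit 4194304) .dd)))) (.ch (nat_lit
 5) (.ev (nat_lit 1088) (nat_lit 299067162755168) (.ev (nat_lit 1104) (nat_lit 2199023255552) (.ev (nat_lit
 1204) (nat_lit 4194304) (.ev (nat_lit 1213) (nat_lit 2097152) .dd))))))))))))))))))))) (.br (nat_lit 19) (.br
 (nat_lit 16) (.br (nat_lit 15) (.ch (nat_lit 14) (.ev (nat_lit 52) (nat_lit 360983482630240) (.ev (nat_lit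
 148) (nat_lit 4096) (.ev (nat_lit 212) (nat_lit 4398046511104) (.ev (nat_lit 436) (nat_lit 562949953421312)
 (.ev (nat_lit 532) (nat_lit 2147483648) (.ev (nat_lit 752) (nat_lit 2199023255552) (.ev (nat_lit 896) (nat_lit
 1125899906842624) (.nd (nat_lit 992) (.br (nat_lit 2) (.ch (nat_lit 0) (.ev (nat_lit 1008) (nat_lit
 18692234544144) (.nd (nat_lit 1072) (.br (nat_lit 1) (.ch (nat_lit 0) (.ev (nat_lit 1088) (nat_lit 2048) (.fin
 (nat_lit 576461302061810239)))) (.br (nat_lit 5) (.ch (nat_lit 1) (.ev (nat_lit 1088) (nat_lit 264192) (.ev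
 (nat_lit 1101) (nat_lit 2097152) .dd))) (.ch (nat_lit 5) (.ev (nat_lit 1088) (nat_lit 2097152) (.ev (nat_lit
 1156) (nat_lit 2048) (.ev (nat_lit 1165) (nat_lit 262144) .dd))))))))) (.br (nat_lit 6) (.ch (nat_lit 2) (.ev
 (nat_lit 1008) (nat_lit 17592188143632) (.nd (nat_lit 1072) (.br (nat_lit 5) (.br (nat_lit 4) (.ch (nat_lit 1)
 (.ev (nat_lit 1088) (nat_lit 536871936) (.ev (nat_lit 1156) (nat_lit 1099511627776) (.ev (nat_lit 1165)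
 (nat_lit 262144) .dd)))) (.ch (nat_lit 4) (.ev (nat_lit 1088) (nat_lit 1100048499712) (.ev (nat_lit 1101)
 (nat_lit 262144) .dd)))) (.br (nat_lit 6) (.ch (nat_lit 5) (.ev (nat_lit 1088) (nat_lit 1099511627776) (.ev
 (nat_lit 1156) (nat_lit 536871936) (.ev (nat_lit 1165) (nat_lit 262144) .dd)))) (.ch (nat_lit 6) (.ev (nat_lit
 1088) (nat_lit 1100048760832) (.ev (nat_lit 1101) (nat_lit 1024) .dd)))))))) (.ch (nat_lit 6) (.ev (nat_lit
 1008) (nat_lit 1099511892992) (.nd (nat_lit 1072) (.br (nat_lit 3) (.br (nat_lit 1) (.ch (nat_lit 0) (.ev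
 (nat_lit 1088) (nat_lit 2097152) (.ev (nat_lit 1492) (nat_lit 536870912) (.ev (nat_lit 1504) (nat_lit 16) (.ev
 (nat_lit 1517) (nat_lit 17592186044416) .dd))))) (.ch (nat_lit 1) (.ev (nat_lit 1156) (nat_lit 16) (.ev
 (nat_lit 1204) (nat_lit 2097152) (.ev (nat_lit 1328) (nat_lit 17592186044416) (.ev (nat_lit 1341) (nat_lit
 536870912) .dd)))))) (.br (nat_lit 6) (.ch (nat_lit 3) (.ev (nat_lit 1088) (nat_lit 17592186044432) (.ev
 (nat_lit 1156) (nat_lit 2097152) (.ev (nat_lit 1165) (nat_lit 536870912) .dd)))) (.ch (nat_lit 6) (.ev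
 (nat_lit 1088) (nat_lit 17592186044432) (.ev (nat_lit 1204) (nat_lit 2097152) (.ev (nat_lit 1213) (nat_lit
 536870912) .dd)))))))))))))))))))) (.ch (nat_lit 15) (.ev (nat_lit 52) (nat_lit 351914594145280) (.ev (nat_lit
 116) (nat_lit 67108864) (.ev (nat_lit 148) (nat_lit 536870912) (.ev (nat_lit 276) (nat_lit 64) (.ev (nat_lit
 500) (nat_lit 17592186077184) (.ev (nat_lit 564) (nat_lit 262144) (.nd (nat_lit 992) (.br (nat_lit 1) (.ch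
 (nat_lit 0) (.ev (nat_lit 1008) (nat_lit 566248488306688) (.nd (nat_lit 1072) (.br (nat_lit 1) (.ch (nat_lit
 0) (.ev (nat_lit 1088) (nat_lit 1139094046375984) (.ev (nat_lit 1101) (nat_lit 274877906944) .dd))) (.br
 (nat_lit 6) (.ch (nat_lit 1) (.ev (nat_lit 1088) (nat_lit 274877906976) (.ev (nat_lit 1348) (nat_lit 16) (.ev
 (nat_lit 1376) (nat_lit 4398046511104) (.fin (nat_lit 576465700085252698)))))) (.ch (nat_lit 6) (.ev (nat_lit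
 1088) (nat_lit 1130572831260672) (.ev (nat_lit 1156) (nat_lit 32) (.ev (nat_lit 1348) (nat_lit 8796093022208)
 (.ev (nat_lit 1357) (nat_lit 16) .dd)))))))))) (.br (nat_lit 2) (.ch (nat_lit 1) (.ev (nat_lit 1008) (nat_lit
 1139368924284928) (.nd (nat_lit 1072) (.br (nat_lit 3) (.br (nat_lit 1) (.ch (nat_lit 0) (.ev (nat_lit 1088)
 (nat_lit 566248488304640) (.fin (nat_lit 576487690395402835)))) (.ch (nat_lit 1) (.ev (nat_lit 1088) (nat_lit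
 48) (.ev (nat_lit 1156) (nat_lit 562949953421312) (.fin (nat_lit 576467899144159869)))))) (.br (nat_lit 6)
 (.ch (nat_lit 3) (.ev (nat_lit 1088) (nat_lit 565148976676880) (.ev (nat_lit 1716) (nat_lit 32) (.ev (nat_lit
 1725) (nat_lit 1099511627776) .dd)))) (.ch (nat_lit 6) (.ev (nat_lit 1088) (nat_lit 16) (.ev (nat_lit 1156)
 (nat_lit 562949953421344) (.ev (nat_lit 1184) (nat_lit 3298534883328) .dd))))))))) (.ch (nat_lit 2) (.ev
 (nat_lit 1008) (nat_lit 1697920831193136) (.nd (nat_lit 1072) (.br (nat_lit 5) (.ch (nat_lit 4) (.ev (nat_lit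
 1088) (nat_lit 2048) (.ev (nat_lit 1204) (nat_lit 1099511627776) (.ev (nat_lit 1360) (nat_lit 2199023255552)
 (.ev (nat_lit 1373) (nat_lit 4398046511104) .dd))))) (.br (nat_lit 6) (.ch (nat_lit 5) (.ev (nat_lit 1088)
 (nat_lit 7696581394432) (.ev (nat_lit 1101) (nat_lit 2048) .dd))) (.ch (nat_lit 6) (.ev (nat_lit 1088)
 (nat_lit 5497558140928) (.ev (nat_lit 1101) (nat_lit 2199023255552) .dd))))))))))))))))))) (.br (nat_lit 18)
 (.ch (nat_lit 16) (.ev (nat_lit 52) (nat_lit 3370010280032) (.ev (nat_lit 148) (nat_lit 562949953421312) (.ev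
 (nat_lit 180) (nat_lit 4096) (.ev (nat_lit 404) (nat_lit 8796093022208) (.ev (nat_lit 480) (nat_lit
 1500008740326416) .dd)))))) (.ch (nat_lit 18) (.ev (nat_lit 52) (nat_lit 652081266425920) (.ev (nat_lit 148)
 (nat_lit 4398046511104) (.ev (nat_lit 340) (nat_lit 8796093022208) (.ev (nat_lit 468) (nat_lit 4096) (.ev
 (nat_lit 500) (nat_lit 1125899906842624) (.ev (nat_lit 596) (nat_lit 16) (.nd (nat_lit 992) (.br (nat_lit 2)
 (.br (nat_lit 1) (.ch (nat_lit 0) (.ev (nat_lit 1008) (nat_lit 283674539231232) (.nd (nat_lit 1072) (.br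
 (nat_lit 4) (.ch (nat_lit 1) (.ev (nat_lit 1088) (nat_lit 274945015840) (.ev (nat_lit 1101) (nat_lit 1024)
 .dd))) (.br (nat_lit 6) (.ch (nat_lit 4) (.ev (nat_lit 1088) (nat_lit 274877906944) (.ev (nat_lit 1156)
 (nat_lit 32) (.ev (nat_lit 1248) (nat_lit 1024) (.ev (nat_lit 1261) (nat_lit 67108864) .dd))))) (.ch (nat_lit
 6) (.ev (nat_lit 1088) (nat_lit 1024) (.ev (nat_lit 1156) (nat_lit 274877906944) (.nd (nat_lit 1728) (.br
 (nat_lit 5) (.ch (nat_lit 3) (.fin (nat_lit 576463501143786067))) (.ch (nat_lit 5) (.ev (nat_lit 1744)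
 (nat_lit 67108896) .dd)))))))))))) (.ch (nat_lit 1) (.ev (nat_lit 1008) (nat_lit 283674538936320) (.nd
 (nat_lit 1072) (.br (nat_lit 5) (.ch (nat_lit 3) (.ev (nat_lit 1088) (nat_lit 274945049600) (.ev (nat_lit
 1156) (nat_lit 262144) (.ev (nat_lit 1165) (nat_lit 32) .dd)))) (.br (nat_lit 6) (.ch (nat_lit 5) (.ev
 (nat_lit 1088) (nat_lit 32) (.ev (nat_lit 1168) (nat_lit 67108864) (.ev (nat_lit 1408) (nat_lit 1024) (.ev
 (nat_lit 1540) (nat_lit 262144) (.fin (nat_lit 576507481510330967))))))) (.ch (nat_lit 6) (.ev (nat_lit 1088)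
 (nat_lit 274945310720) (.ev (nat_lit 1156) (nat_lit 32) (.ev (nat_lit 1165) (nat_lit 1024) .dd)))))))))) (.br
 (nat_lit 6) (.ch (nat_lit 2) (.ev (nat_lit 1008) (nat_lit 274947407904) (.ev (nat_lit 1046) (nat_lit 1024)
 (.nd (nat_lit 1072) (.br (nat_lit 5) (.br (nat_lit 1) (.ch (nat_lit 0) (.ev (nat_lit 1088) (nat_lit 2048) (.ev
 (nat_lit 1408) (nat_lit 536870912) (.fin (nat_lit 576461302099559023))))) (.ch (nat_lit 1) (.ev (nat_lit 1088)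
 (nat_lit 283674536839168) .dd))) (.br (nat_lit 6) (.ch (nat_lit 5) (.ev (nat_lit 1088) (nat_lit 2199023255552)
 (.ev (nat_lit 1156) (nat_lit 2048) (.ev (nat_lit 1216) (nat_lit 281474976710656) (.ev (nat_lit 1229) (nat_lit
 536870912) .dd))))) (.ch (nat_lit 6) (.ev (nat_lit 1088) (nat_lit 2199560126464) (.ev (nat_lit 1156) (nat_lit
 281474976710656) (.ev (nat_lit 1165) (nat_lit 2048) .dd)))))))))) (.ch (nat_lit 6) (.ev (nat_lit 1008)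
 (nat_lit 2474505439232) (.nd (nat_lit 1072) (.br (nat_lit 5) (.br (nat_lit 1) (.ch (nat_lit 0) (.ev (nat_lit
 1088) (nat_lit 281474978807808) (.ev (nat_lit 1168) (nat_lit 1024) (.ev (nat_lit 1181) (nat_lit 32) .dd))))
 (.ch (nat_lit 1) (.ev (nat_lit 1088) (nat_lit 1024) (.ev (nat_lit 1216) (nat_lit 281474976710656) (.ev
 (nat_lit 1284) (nat_lit 2097152) (.ev (nat_lit 1293) (nat_lit 32) .dd)))))) (.br (nat_lit 6) (.ch (nat_lit 5)
 (.ev (nat_lit 1088) (nat_lit 281474976710688) (.ev (nat_lit 1156) (nat_lit 1024) (.ev (nat_lit 1165) (nat_lit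
 2097152) .dd)))) (.ch (nat_lit 6) (.ev (nat_lit 1088) (nat_lit 281474978807808) (.ev (nat_lit 1716) (nat_lit
 32) (.ev (nat_lit 1725) (nat_lit 1024) .dd))))))))))))))))))))) (.br (nat_lit 21) (.br (nat_lit 20) (.ch
 (nat_lit 19) (.ev (nat_lit 52) (nat_lit 848067066596384) (.ev (nat_lit 404) (nat_lit 2147483648) (.ev (nat_lit
 500) (nat_lit 70368744439808) (.ev (nat_lit 596) (nat_lit 1125899906842624) (.ev (nat_lit 624) (nat_lit
 8796629925888) (.nd (nat_lit 992) (.br (nat_lit 1) (.ch (nat_lit 0) (.ev (nat_lit 1008) (nat_lit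
 4398046515280) (.nd (nat_lit 1072) (.br (nat_lit 5) (.ch (nat_lit 4) (.ev (nat_lit 1088) (nat_lit 67108864)
 (.ev (nat_lit 1504) (nat_lit 17592188141568) .dd))) (.br (nat_lit 6) (.ch (nat_lit 5) (.ev (nat_lit 1088)
 (nat_lit 17592255250432) .dd)) (.ch (nat_lit 6) (.ev (nat_lit 1088) (nat_lit 17592188141568) (.ev (nat_lit
 1101) (nat_lit 67108864) .dd)))))))) (.br (nat_lit 6) (.ch (nat_lit 1) (.ev (nat_lit 1008) (nat_lit
 17592188141648) (.nd (nat_lit 1072) (.br (nat_lit 3) (.ch (nat_lit 0) (.ev (nat_lit 1088) (nat_lit 67108864)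
 (.fin (nat_lit 576466799628337734)))) (.br (nat_lit 5) (.ch (nat_lit 3) (.ev (nat_lit 1088) (nat_lit
 4398113624064) .dd)) (.ch (nat_lit 5) (.ev (nat_lit 1088) (nat_lit 4398046515200) (.ev (nat_lit 1101) (nat_lit
 67108864) .dd)))))))) (.ch (nat_lit 6) (.ev (nat_lit 1008) (nat_lit 4398113624064) (.nd (nat_lit 1072) (.br
 (nat_lit 1) (.ch (nat_lit 0) (.ev (nat_lit 1088) (nat_lit 17592188141632) (.ev (nat_lit 1101) (nat_lit 16)
 .dd))) (.br (nat_lit 6) (.ch (nat_lit 1) (.ev (nat_lit 1348) (nat_lit 16) (.ev (nat_lit 1492) (nat_lit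
 2097152) (.fin (nat_lit 576487690351362650))))) (.ch (nat_lit 6) (.ev (nat_lit 1088) (nat_lit 17592186044496)
 (.ev (nat_lit 1101) (nat_lit 2097152) .dd))))))))))))))))) (.ch (nat_lit 20) (.ev (nat_lit 52) (nat_lit
 71811855319120) (.ev (nat_lit 212) (nat_lit 562949953421312) (.ev (nat_lit 340) (nat_lit 2147483648) (.ev
 (nat_lit 372) (nat_lit 1024) (.ev (nat_lit 404) (nat_lit 17592186044416) (.ev (nat_lit 468) (nat_lit 2048)
 (.ev (nat_lit 944) (nat_lit 67108864) (.nd (nat_lit 992) (.br (nat_lit 2) (.ch (nat_lit 1) (.ev (nat_lit 1008)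
 (nat_lit 1416171517902880) (.nd (nat_lit 1072) (.br (nat_lit 5) (.ch (nat_lit 1) (.ev (nat_lit 1088) (nat_lit
 6597069766656) (.ev (nat_lit 1101) (nat_lit 4096) .dd))) (.br (nat_lit 6) (.ch (nat_lit 5) (.ev (nat_lit 1088)
 (nat_lit 6597069770752) .dd)) (.ch (nat_lit 6) (.ev (nat_lit 1156) (nat_lit 6597069766656) (.ev (nat_lit 1165)
 (nat_lit 4096) .dd)))))))) (.br (nat_lit 6) (.ch (nat_lit 2) (.ev (nat_lit 1008) (nat_lit 283673999970336)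
 (.nd (nat_lit 1072) (.br (nat_lit 4) (.br (nat_lit 1) (.ch (nat_lit 0) (.ev (nat_lit 1088) (nat_lit
 1125899906842624) (.ev (nat_lit 1204) (nat_lit 262144) (.ev (nat_lit 1392) (nat_lit 4194304) (.ev (nat_lit
 1540) (nat_lit 4398046511104) (.fin (nat_lit 576419520622051843))))))) (.ch (nat_lit 1) (.ev (nat_lit 1088)
 (nat_lit 8796097216512) (.ev (nat_lit 1156) (nat_lit 1125899906842624) (.ev (nat_lit 1168) (nat_lit 536870912)
 (.ev (nat_lit 1204) (nat_lit 4398046511104) (.ev (nat_lit 1213) (nat_lit 262144) .dd))))))) (.br (nat_lit 6)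
 (.ch (nat_lit 4) (.ev (nat_lit 1088) (nat_lit 8796634349568) (.ev (nat_lit 1156) (nat_lit 4398046511104) (.ev
 (nat_lit 1165) (nat_lit 1125899906842624) .dd)))) (.ch (nat_lit 6) (.ev (nat_lit 1088) (nat_lit 8796634349568)
 (.ev (nat_lit 1156) (nat_lit 1125899906842624) (.ev (nat_lit 1165) (nat_lit 4398046511104) .dd))))))))) (.ch
 (nat_lit 6) (.ev (nat_lit 1008) (nat_lit 1141293606764544) (.nd (nat_lit 1072) (.br (nat_lit 1) (.ch (nat_lit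
 0) (.ev (nat_lit 1088) (nat_lit 281474976714752) (.ev (nat_lit 1312) (nat_lit 4194304) (.ev (nat_lit 1325)
 (nat_lit 32) .dd)))) (.br (nat_lit 3) (.ch (nat_lit 1) (.ev (nat_lit 1088) (nat_lit 281474980904992) (.ev
 (nat_lit 1101) (nat_lit 4096) .dd))) (.ch (nat_lit 3) (.ev (nat_lit 1088) (nat_lit 4194304) (.ev (nat_lit
 1156) (nat_lit 281474976710688) (.ev (nat_lit 1165) (nat_lit 4096) .dd))))))))))))))))))))) (.br (nat_lit 22)
 (.ch (nat_lit 21) (.ev (nat_lit 52) (nat_lit 1781483717008400) (.ev (nat_lit 180) (nat_lit 64) (.ev (nat_lit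
 308) (nat_lit 67108864) (.ev (nat_lit 404) (nat_lit 2199023255552) (.ev (nat_lit 564) (nat_lit 68719476736)
 (.ev (nat_lit 640) (nat_lit 4227072) (.nd (nat_lit 992) (.br (nat_lit 1) (.ch (nat_lit 0) (.ev (nat_lit 1008)
 (nat_lit 282575025471520) (.nd (nat_lit 1072) (.br (nat_lit 1) (.ch (nat_lit 0) (.ev (nat_lit 1088) (nat_lit
 8796093022208) (.ev (nat_lit 1101) (nat_lit 2147483648) .dd))) (.br (nat_lit 4) (.ch (nat_lit 1) (.ev (nat_lit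
 1088) (nat_lit 2147483648) (.ev (nat_lit 1101) (nat_lit 8796093022208) .dd))) (.ch (nat_lit 4) (.ev (nat_lit
 1088) (nat_lit 8798240505856) .dd))))))) (.br (nat_lit 6) (.ch (nat_lit 1) (.ev (nat_lit 1008) (nat_lit
 8798777376768) (.nd (nat_lit 1072) (.br (nat_lit 3) (.ch (nat_lit 0) (.ev (nat_lit 1088) (nat_lit
 1099511889952) (.ev (nat_lit 1101) (nat_lit 281474976710656) .dd))) (.ch (nat_lit 3) (.ev (nat_lit 1088)
 (nat_lit 281474976710656) (.ev (nat_lit 1156) (nat_lit 1099511627776) (.nd (nat_lit 1760) (.ch (nat_lit 6)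
 (.nd (nat_lit 1777) (.ch (nat_lit 15) (.nd (nat_lit 1808) (.br (nat_lit 6) (.ch (nat_lit 4) (.fin (nat_lit
 576462401583923775))) (.ch (nat_lit 6) (.ev (nat_lit 1824) (nat_lit 262176) .dd))))))))))))))) (.ch (nat_lit
 6) (.ev (nat_lit 1008) (nat_lit 9897752395808) (.nd (nat_lit 1072) (.br (nat_lit 3) (.ch (nat_lit 0) (.ev
 (nat_lit 1088) (nat_lit 281475513581568) .dd)) (.br (nat_lit 5) (.ch (nat_lit 3) (.ev (nat_lit 1120) (nat_lit
 281475513581568) .dd)) (.ch (nat_lit 5) (.ev (nat_lit 1088) (nat_lit 281474976710656) (.ev (nat_lit 1101)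
 (nat_lit 536870912) .dd)))))))))))))))))) (.ch (nat_lit 22) (.ev (nat_lit 52) (nat_lit 1226026399039568) (.ev
 (nat_lit 244) (nat_lit 562949953421312) (.ev (nat_lit 308) (nat_lit 4096) (.ev (nat_lit 372) (nat_lit 262144)
 (.ev (nat_lit 512) (nat_lit 286148444326944) .dd)))))))))) (.br (nat_lit 33) (.br (nat_lit 28) (.br (nat_lit
 26) (.ch (nat_lit 25) (.ev (nat_lit 52) (nat_lit 873287718539328) (.ev (nat_lit 116) (nat_lit 4398046511104)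
 (.ev (nat_lit 340) (nat_lit 32) (.ev (nat_lit 404) (nat_lit 1125899906842624) (.ev (nat_lit 544) (nat_lit
 71539125160976) .dd)))))) (.br (nat_lit 27) (.ch (nat_lit 26) (.ev (nat_lit 52) (nat_lit 1704587159408656)
 (.ev (nat_lit 116) (nat_lit 2112) (.ev (nat_lit 340) (nat_lit 1024) (.ev (nat_lit 372) (nat_lit 32) (.ev
 (nat_lit 404) (nat_lit 70368744177664) (.ev (nat_lit 532) (nat_lit 32768) (.ev (nat_lit 596) (nat_lit
 2147483648) (.nd (nat_lit 992) (.br (nat_lit 1) (.ch (nat_lit 0) (.ev (nat_lit 1008) (nat_lit 282574492532736)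
 (.nd (nat_lit 1072) (.br (nat_lit 6) (.ch (nat_lit 4) (.ev (nat_lit 1088) (nat_lit 67371008) (.ev (nat_lit
 1101) (nat_lit 17592186044416) .dd))) (.ch (nat_lit 6) (.ev (nat_lit 1088) (nat_lit 17592186044416) (.ev
 (nat_lit 1360) (nat_lit 262144) (.ev (nat_lit 1373) (nat_lit 67108864) .dd)))))))) (.br (nat_lit 6) (.ch
 (nat_lit 1) (.ev (nat_lit 1008) (nat_lit 17592190238720) (.nd (nat_lit 1072) (.br (nat_lit 1) (.ch (nat_lit 0)
 (.ev (nat_lit 1088) (nat_lit 1099578998784) (.ev (nat_lit 1101) (nat_lit 281474976710656) .dd))) (.br (nat_lit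
 6) (.ch (nat_lit 1) (.ev (nat_lit 1088) (nat_lit 281474976710656) (.ev (nat_lit 1156) (nat_lit 1099511627776)
 (.ev (nat_lit 1504) (nat_lit 262144) (.ev (nat_lit 1517) (nat_lit 67108864) .dd))))) (.ch (nat_lit 6) (.ev
 (nat_lit 1088) (nat_lit 67108864) (.ev (nat_lit 1204) (nat_lit 262144) (.ev (nat_lit 1492) (nat_lit
 1099511627776) (.ev (nat_lit 1501) (nat_lit 281474976710656) .dd)))))))))) (.ch (nat_lit 6) (.ev (nat_lit
 1008) (nat_lit 282574555709440) (.nd (nat_lit 1072) (.br (nat_lit 3) (.ch (nat_lit 0) (.ev (nat_lit 1088)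
 (nat_lit 17592190238720) .dd)) (.br (nat_lit 5) (.ch (nat_lit 3) (.ev (nat_lit 1088) (nat_lit 17592190238720)
 .dd)) (.ch (nat_lit 5) (.ev (nat_lit 1104) (nat_lit 17592190238720) .dd)))))))))))))))))) (.ch (nat_lit 27)
 (.ev (nat_lit 52) (nat_lit 288347528369184) (.ev (nat_lit 180) (nat_lit 2048) (.ev (nat_lit 372) (nat_lit
 4194304) (.ev (nat_lit 532) (nat_lit 68719476736) (.ev (nat_lit 564) (nat_lit 32768) (.nd (nat_lit 992) (.br
 (nat_lit 2) (.br (nat_lit 1) (.ch (nat_lit 0) (.ev (nat_lit 1008) (nat_lit 564049465049104) (.nd (nat_lit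
 1072) (.br (nat_lit 5) (.br (nat_lit 4) (.ch (nat_lit 0) (.ev (nat_lit 1088) (nat_lit 1152288188006464) (.ev
 (nat_lit 1204) (nat_lit 70370891661312) (.ev (nat_lit 1213) (nat_lit 262144) .dd)))) (.ch (nat_lit 4) (.ev
 (nat_lit 1088) (nat_lit 1134698147348544) (.ev (nat_lit 1312) (nat_lit 2097152) (.ev (nat_lit 1348) (nat_lit
 262144) (.fin (nat_lit 576419520622051927))))))) (.br (nat_lit 6) (.ch (nat_lit 5) (.ev (nat_lit 1088)
 (nat_lit 87963079802880) (.ev (nat_lit 1296) (nat_lit 262144) (.ev (nat_lit 1540) (nat_lit 64) (.fin (nat_lit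
 576408525488996881)))))) (.ch (nat_lit 6) (.ev (nat_lit 1088) (nat_lit 1213862986645568) (.ev (nat_lit 1168)
 (nat_lit 8796093022208) (.ev (nat_lit 1181) (nat_lit 262144) .dd))))))))) (.ch (nat_lit 1) (.ev (nat_lit 1008)
 (nat_lit 1222659079667776) (.nd (nat_lit 1072) (.br (nat_lit 3) (.br (nat_lit 1) (.ch (nat_lit 0) (.ev
 (nat_lit 1088) (nat_lit 564049465311232) (.ev (nat_lit 1101) (nat_lit 16) .dd))) (.ch (nat_lit 1) (.ev
 (nat_lit 1088) (nat_lit 262160) (.ev (nat_lit 1284) (nat_lit 562949953421312) (.ev (nat_lit 1293) (nat_lit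
 1099511627776) .dd))))) (.br (nat_lit 5) (.ch (nat_lit 3) (.ev (nat_lit 1088) (nat_lit 562949953421328) (.ev
 (nat_lit 1540) (nat_lit 262144) (.ev (nat_lit 1549) (nat_lit 1099511627776) .dd)))) (.ch (nat_lit 5) (.ev
 (nat_lit 1088) (nat_lit 562949953421328) (.ev (nat_lit 1168) (nat_lit 1099511627776) (.ev (nat_lit 1181)
 (nat_lit 262144) .dd)))))))))) (.br (nat_lit 3) (.ch (nat_lit 2) (.ev (nat_lit 1008) (nat_lit
 1697648102866960) (.nd (nat_lit 1072) (.br (nat_lit 4) (.br (nat_lit 1) (.ch (nat_lit 0) (.ev (nat_lit 1088)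
 (nat_lit 89060442112064) .dd)) (.ch (nat_lit 1) (.ev (nat_lit 1088) (nat_lit 17592186306560) (.ev (nat_lit
 1360) (nat_lit 64) (.ev (nat_lit 1440) (nat_lit 70368744177664) (.ev (nat_lit 1453) (nat_lit 1099511627776)
 .dd)))))) (.br (nat_lit 5) (.ch (nat_lit 4) (.ev (nat_lit 1088) (nat_lit 87960930222144) (.ev (nat_lit 1492)
 (nat_lit 1099511627776) (.ev (nat_lit 1501) (nat_lit 262144) .dd)))) (.br (nat_lit 6) (.ch (nat_lit 5) (.ev
 (nat_lit 1088) (nat_lit 17592186044416) (.ev (nat_lit 1104) (nat_lit 1099511627776) (.ev (nat_lit 1156)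
 (nat_lit 70368744177728) (.ev (nat_lit 1165) (nat_lit 262144) .dd))))) (.ch (nat_lit 6) (.ev (nat_lit 1088)
 (nat_lit 71468256067648) (.ev (nat_lit 1101) (nat_lit 17592186044416) .dd))))))))) (.br (nat_lit 6) (.ch
 (nat_lit 3) (.ev (nat_lit 1008) (nat_lit 89060442112064) (.nd (nat_lit 1072) (.br (nat_lit 3) (.br (nat_lit 1)
 (.ch (nat_lit 0) (.ev (nat_lit 1088) (nat_lit 8798240505856) (.ev (nat_lit 1312) (nat_lit 1125899906842624)
 (.ev (nat_lit 1360) (nat_lit 2097152) (.fin (nat_lit 576415122533597741)))))) (.ch (nat_lit 1) (.ev (nat_lit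
 1088) (nat_lit 571746046443536) (.ev (nat_lit 1184) (nat_lit 1125902054326272) (.ev (nat_lit 1197) (nat_lit
 2097152) .dd))))) (.br (nat_lit 5) (.ch (nat_lit 3) (.ev (nat_lit 1088) (nat_lit 1688852009844752) (.ev
 (nat_lit 1101) (nat_lit 8796093022208) .dd))) (.br (nat_lit 6) (.ch (nat_lit 5) (.ev (nat_lit 1088) (nat_lit
 1134698149445632) (.ev (nat_lit 1104) (nat_lit 16) (.ev (nat_lit 1117) (nat_lit 562949953421312) .dd)))) (.ch
 (nat_lit 6) (.ev (nat_lit 1088) (nat_lit 1697645955383296) (.ev (nat_lit 1648) (nat_lit 16) (.ev (nat_lit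
 1661) (nat_lit 2147483648) .dd)))))))))) (.ch (nat_lit 6) (.ev (nat_lit 1008) (nat_lit 1223756444074064) (.nd
 (nat_lit 1072) (.br (nat_lit 5) (.br (nat_lit 3) (.ch (nat_lit 1) (.ev (nat_lit 1204) (nat_lit
 562949953421312) (.ev (nat_lit 1213) (nat_lit 2147483648) .dd))) (.ch (nat_lit 3) (.ev (nat_lit 1184) (nat_lit
 2147483648) (.ev (nat_lit 1197) (nat_lit 562949953421312) .dd)))) (.br (nat_lit 6) (.ch (nat_lit 5) (.ev
 (nat_lit 1088) (nat_lit 562952100904960) .dd)) (.ch (nat_lit 6) (.ev (nat_lit 1088) (nat_lit 2147483648) (.ev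
 (nat_lit 1101) (nat_lit 562949953421312) .dd)))))))))))))))))))) (.br (nat_lit 31) (.br (nat_lit 29) (.ch
 (nat_lit 28) (.ev (nat_lit 52) (nat_lit 1407377031072768) (.ev (nat_lit 212) (nat_lit 64) (.ev (nat_lit 564)
 (nat_lit 70368744177664) (.ev (nat_lit 688) (nat_lit 274882101248) (.nd (nat_lit 992) (.br (nat_lit 2) (.ch
 (nat_lit 1) (.ev (nat_lit 1008) (nat_lit 27557116248080) (.nd (nat_lit 1072) (.br (nat_lit 3) (.ch (nat_lit 1)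
 (.ev (nat_lit 1088) (nat_lit 567348000194592) (.ev (nat_lit 1492) (nat_lit 2199023255552) (.ev (nat_lit 1501)
 (nat_lit 4096) .dd)))) (.br (nat_lit 6) (.ch (nat_lit 3) (.ev (nat_lit 1088) (nat_lit 569547023192064) (.fin
 (nat_lit 576462401583923775)))) (.ch (nat_lit 6) (.ev (nat_lit 1088) (nat_lit 262176) (.ev (nat_lit 1348)
 (nat_lit 4398046511104) (.ev (nat_lit 1492) (nat_lit 4096) (.fin (nat_lit 576448107951637054))))))))))) (.br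
 (nat_lit 3) (.ch (nat_lit 2) (.ev (nat_lit 1008) (nat_lit 573945676042288) (.nd (nat_lit 1072) (.br (nat_lit
 5) (.ch (nat_lit 4) (.ev (nat_lit 1088) (nat_lit 21990232555520) (.ev (nat_lit 1120) (nat_lit 1099511627776)
 (.ev (nat_lit 1133) (nat_lit 68719476736) .dd)))) (.br (nat_lit 6) (.ch (nat_lit 5) (.ev (nat_lit 1088)
 (nat_lit 5497558138880) (.ev (nat_lit 1156) (nat_lit 68719476736) (.ev (nat_lit 1165) (nat_lit 17592186044416)
 .dd)))) (.ch (nat_lit 6) (.ev (nat_lit 1088) (nat_lit 1168231104512) (.ev (nat_lit 1120) (nat_lit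
 4398046511104) (.ev (nat_lit 1133) (nat_lit 17592186044416) .dd))))))))) (.ch (nat_lit 3) (.ev (nat_lit 1008)
 (nat_lit 587207928975392) (.nd (nat_lit 1072) (.br (nat_lit 3) (.ch (nat_lit 1) (.ev (nat_lit 1088) (nat_lit
 9895606747152) (.ev (nat_lit 1492) (nat_lit 67108864) (.ev (nat_lit 1501) (nat_lit 536870912) .dd)))) (.br
 (nat_lit 6) (.ch (nat_lit 3) (.ev (nat_lit 1088) (nat_lit 2097168) (.ev (nat_lit 1440) (nat_lit 1099511627776)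
 (.ev (nat_lit 1492) (nat_lit 536870912) (.fin (nat_lit 576434913770160706)))))) (.ch (nat_lit 6) (.ev (nat_lit
 1088) (nat_lit 9896208629760) (.fin (nat_lit 576466799628337727))))))))))))))))) (.ch (nat_lit 29) (.ev
 (nat_lit 52) (nat_lit 1134973633432576) (.ev (nat_lit 436) (nat_lit 1099511631872) (.ev (nat_lit 596) (nat_lit
 68719476768) (.nd (nat_lit 992) (.br (nat_lit 2) (.br (nat_lit 1) (.ch (nat_lit 0) (.ev (nat_lit 1008)
 (nat_lit 868614188072960) (.nd (nat_lit 1072) (.br (nat_lit 5) (.br (nat_lit 1) (.ch (nat_lit 0) (.ev (nat_lit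
 1088) (nat_lit 80) (.ev (nat_lit 1168) (nat_lit 262144) (.ev (nat_lit 1181) (nat_lit 70368744177664) .dd))))
 (.ch (nat_lit 1) (.ev (nat_lit 1088) (nat_lit 262144) (.ev (nat_lit 1216) (nat_lit 16) (.ev (nat_lit 1284)
 (nat_lit 64) (.ev (nat_lit 1293) (nat_lit 70368744177664) .dd)))))) (.br (nat_lit 6) (.ch (nat_lit 5) (.ev
 (nat_lit 1088) (nat_lit 70368744177680) (.ev (nat_lit 1156) (nat_lit 262144) (.ev (nat_lit 1165) (nat_lit 64)
 .dd)))) (.ch (nat_lit 6) (.ev (nat_lit 1088) (nat_lit 80) (.ev (nat_lit 1616) (nat_lit 70368744439808)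
 .dd)))))))) (.ch (nat_lit 1) (.ev (nat_lit 1008) (nat_lit 582741164851280) (.nd (nat_lit 1072) (.br (nat_lit
 3) (.ch (nat_lit 1) (.ev (nat_lit 1088) (nat_lit 281474976710656) (.ev (nat_lit 1156) (nat_lit 70368744177664)
 (.ev (nat_lit 1360) (nat_lit 4398046511104) (.ev (nat_lit 1373) (nat_lit 262144) .dd))))) (.br (nat_lit 5)
 (.ch (nat_lit 3) (.ev (nat_lit 1088) (nat_lit 262144) (.ev (nat_lit 1156) (nat_lit 281474976710656) (.nd
 (nat_lit 1728) (.br (nat_lit 6) (.ch (nat_lit 1) (.ev (nat_lit 1744) (nat_lit 74766790688768) .dd)) (.ch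
 (nat_lit 6) (.fin (nat_lit 576478894306574917)))))))) (.ch (nat_lit 5) (.ev (nat_lit 1088) (nat_lit
 356241767399424) (.ev (nat_lit 1101) (nat_lit 262144) .dd))))))))) (.br (nat_lit 3) (.ch (nat_lit 2) (.ev
 (nat_lit 1008) (nat_lit 562949955551312) (.nd (nat_lit 1072) (.br (nat_lit 1) (.ch (nat_lit 0) (.ev (nat_lit
 1088) (nat_lit 70368744177664) (.ev (nat_lit 1168) (nat_lit 4398046511104) (.ev (nat_lit 1284) (nat_lit
 262144) (.ev (nat_lit 1540) (nat_lit 17592186044416) (.fin (nat_lit 576461302021964305))))))) (.br (nat_lit 5)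
 (.ch (nat_lit 1) (.ev (nat_lit 1088) (nat_lit 305664232521728) (.ev (nat_lit 1156) (nat_lit 70368744177664)
 (.ev (nat_lit 1165) (nat_lit 262144) .dd)))) (.ch (nat_lit 5) (.ev (nat_lit 1088) (nat_lit 288072046739456)
 (.ev (nat_lit 1156) (nat_lit 17592186044416) (.ev (nat_lit 1165) (nat_lit 70368744177664) .dd))))))))) (.ch
 (nat_lit 3) (.ev (nat_lit 1008) (nat_lit 376032976699456) (.nd (nat_lit 1072) (.br (nat_lit 5) (.br (nat_lit
 1) (.ch (nat_lit 0) (.ev (nat_lit 1088) (nat_lit 2097152) (.ev (nat_lit 1204) (nat_lit 262144) (.ev (nat_lit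
 1264) (nat_lit 32768) (.fin (nat_lit 576507481587925587)))))) (.ch (nat_lit 1) (.ev (nat_lit 1088) (nat_lit
 562949955551248) (.ev (nat_lit 1101) (nat_lit 262144) .dd)))) (.br (nat_lit 6) (.ch (nat_lit 5) (.ev (nat_lit
 1088) (nat_lit 562949953421312) (.ev (nat_lit 1156) (nat_lit 2097152) (.ev (nat_lit 1216) (nat_lit 16) (.ev
 (nat_lit 1348) (nat_lit 262144) (.ev (nat_lit 1357) (nat_lit 32768) .dd)))))) (.ch (nat_lit 6) (.ev (nat_lit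
 1088) (nat_lit 562949953454080) (.ev (nat_lit 1156) (nat_lit 16) (.ev (nat_lit 1296) (nat_lit 2359296)
 .dd))))))))))))))))) (.br (nat_lit 32) (.ch (nat_lit 31) (.ev (nat_lit 52) (nat_lit 352945451335744) (.ev
 (nat_lit 116) (nat_lit 562949953421312) (.ev (nat_lit 500) (nat_lit 32) (.ev (nat_lit 564) (nat_lit 2097152)
 (.nd (nat_lit 992) (.br (nat_lit 2) (.br (nat_lit 1) (.ch (nat_lit 0) (.ev (nat_lit 1008) (nat_lit
 20066624084992) (.nd (nat_lit 1072) (.br (nat_lit 5) (.ch (nat_lit 1) (.ev (nat_lit 1088) (nat_lit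
 1125899907104768) (.ev (nat_lit 1168) (nat_lit 8796093022224) (.ev (nat_lit 1284) (nat_lit 68719476736) (.ev
 (nat_lit 1293) (nat_lit 4398046511104) .dd))))) (.br (nat_lit 6) (.ch (nat_lit 5) (.ev (nat_lit 1088) (nat_lit
 1139094046375952) (.ev (nat_lit 1156) (nat_lit 68719476736) (.ev (nat_lit 1165) (nat_lit 262144) .dd)))) (.ch
 (nat_lit 6) (.ev (nat_lit 1088) (nat_lit 13262859272192) (.ev (nat_lit 1156) (nat_lit 1125899906842624) (.ev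
 (nat_lit 1165) (nat_lit 16) .dd))))))))) (.ch (nat_lit 1) (.ev (nat_lit 1008) (nat_lit 1156686769295360) (.nd
 (nat_lit 1072) (.br (nat_lit 3) (.ch (nat_lit 0) (.ev (nat_lit 1088) (nat_lit 2199023517696) (.ev (nat_lit
 1104) (nat_lit 1024) (.ev (nat_lit 1156) (nat_lit 16) (.ev (nat_lit 1204) (nat_lit 68719476736) (.fin (nat_lit
 576456903992230438))))))) (.br (nat_lit 6) (.ch (nat_lit 3) (.ev (nat_lit 1088) (nat_lit 2542620642304) (.ev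
 (nat_lit 1606) (nat_lit 262160) .dd))) (.ch (nat_lit 6) (.ev (nat_lit 1088) (nat_lit 274877910032) (.ev
 (nat_lit 1104) (nat_lit 2199023255552) (.ev (nat_lit 1348) (nat_lit 262144) (.ev (nat_lit 1357) (nat_lit
 68719476736) .dd))))))))))) (.br (nat_lit 6) (.ch (nat_lit 2) (.ev (nat_lit 1008) (nat_lit 1126174784753680)
 (.ev (nat_lit 1062) (nat_lit 68719476736) (.nd (nat_lit 1072) (.br (nat_lit 5) (.br (nat_lit 4) (.ch (nat_lit
 0) (.ev (nat_lit 1088) (nat_lit 4398046513152) (.ev (nat_lit 1156) (nat_lit 536871936) (.ev (nat_lit 1168)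
 (nat_lit 262144) (.ev (nat_lit 1216) (nat_lit 17592186044416) (.fin (nat_lit 576462401573438018))))))) (.ch
 (nat_lit 4) (.ev (nat_lit 1088) (nat_lit 28587839194112) (.ev (nat_lit 1284) (nat_lit 4398046773248) (.ev
 (nat_lit 1293) (nat_lit 2048) .dd))))) (.br (nat_lit 6) (.ch (nat_lit 5) (.ev (nat_lit 1088) (nat_lit
 6597070031872) (.ev (nat_lit 1120) (nat_lit 8796629893120) (.ev (nat_lit 1133) (nat_lit 17592186044416)
 .dd)))) (.ch (nat_lit 6) (.ev (nat_lit 1088) (nat_lit 13194676669440) (.ev (nat_lit 1156) (nat_lit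
 2199023255552) (.ev (nat_lit 1165) (nat_lit 17592186044416) .dd)))))))))) (.ch (nat_lit 6) (.ev (nat_lit 1008)
 (nat_lit 1141568484674560) (.nd (nat_lit 1072) (.br (nat_lit 3) (.br (nat_lit 1) (.ch (nat_lit 0) (.ev
 (nat_lit 1088) (nat_lit 4096) (.ev (nat_lit 1284) (nat_lit 17592186044416) (.ev (nat_lit 1664) (nat_lit
 68719476736) (.ev (nat_lit 1677) (nat_lit 16) .dd))))) (.ch (nat_lit 1) (.ev (nat_lit 1088) (nat_lit 16) (.ev
 (nat_lit 1204) (nat_lit 68719480832) (.ev (nat_lit 1213) (nat_lit 17592186044416) .dd))))) (.br (nat_lit 5)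
 (.ch (nat_lit 3) (.ev (nat_lit 1088) (nat_lit 17660905521152) (.ev (nat_lit 1104) (nat_lit 16) (.ev (nat_lit
 1117) (nat_lit 4096) .dd)))) (.br (nat_lit 6) (.ch (nat_lit 5) (.ev (nat_lit 1088) (nat_lit 17660905521168)
 (.ev (nat_lit 1101) (nat_lit 4096) .dd))) (.ch (nat_lit 6) (.ev (nat_lit 1088) (nat_lit 17592186048528) (.ev
 (nat_lit 1101) (nat_lit 68719476736) .dd))))))))))))))))) (.ch (nat_lit 32) (.ev (nat_lit 52) (nat_lit
 7767989421072) (.ev (nat_lit 308) (nat_lit 562949953421376) (.ev (nat_lit 500) (nat_lit 281474976710656) (.ev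
 (nat_lit 596) (nat_lit 17592186044416) (.nd (nat_lit 992) (.br (nat_lit 2) (.br (nat_lit 1) (.ch (nat_lit 0)
 (.ev (nat_lit 1008) (nat_lit 70368744214528) (.nd (nat_lit 1072) (.br (nat_lit 5) (.br (nat_lit 1) (.ch
 (nat_lit 0) (.ev (nat_lit 1088) (nat_lit 1134970880131104) (.ev (nat_lit 1168) (nat_lit 67108864) (.ev
 (nat_lit 1181) (nat_lit 2048) .dd)))) (.ch (nat_lit 1) (.ev (nat_lit 1088) (nat_lit 1126174852120608) (.ev
 (nat_lit 1204) (nat_lit 8796095119360) (.ev (nat_lit 1213) (nat_lit 2048) .dd))))) (.br (nat_lit 6) (.ch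
 (nat_lit 5) (.ev (nat_lit 1088) (nat_lit 69470240) (.ev (nat_lit 1168) (nat_lit 274877906944) (.fin (nat_lit
 576408525488996881))))) (.ch (nat_lit 6) (.ev (nat_lit 1088) (nat_lit 1134970879868928) (.ev (nat_lit 1424)
 (nat_lit 2048) (.ev (nat_lit 1540) (nat_lit 262144) (.fin (nat_lit 576459102977737261))))))))))) (.ch (nat_lit
 1) (.ev (nat_lit 1008) (nat_lit 1134970947239968) (.nd (nat_lit 1072) (.br (nat_lit 5) (.br (nat_lit 3) (.ch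
 (nat_lit 1) (.ev (nat_lit 1088) (nat_lit 36864) (.ev (nat_lit 1348) (nat_lit 2048) (.ev (nat_lit 1357)
 (nat_lit 70368744177664) .dd)))) (.ch (nat_lit 3) (.ev (nat_lit 1088) (nat_lit 36864) (.ev (nat_lit 1168)
 (nat_lit 70368744177664) (.ev (nat_lit 1181) (nat_lit 2048) .dd))))) (.br (nat_lit 6) (.ch (nat_lit 5) (.ev
 (nat_lit 1088) (nat_lit 70368744183808) (.ev (nat_lit 1101) (nat_lit 32768) .dd))) (.ch (nat_lit 6) (.ev
 (nat_lit 1088) (nat_lit 34816) (.ev (nat_lit 1284) (nat_lit 4096) (.ev (nat_lit 1293) (nat_lit 70368744177664)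
 .dd)))))))))) (.br (nat_lit 3) (.ch (nat_lit 2) (.ev (nat_lit 1008) (nat_lit 274947149856) (.nd (nat_lit 1072)
 (.br (nat_lit 4) (.br (nat_lit 1) (.ch (nat_lit 0) (.ev (nat_lit 1088) (nat_lit 1205064744306688) .dd)) (.ch
 (nat_lit 1) (.ev (nat_lit 1088) (nat_lit 1125899906844672) (.ev (nat_lit 1312) (nat_lit 8796093022208) (.ev
 (nat_lit 1360) (nat_lit 262144) (.ev (nat_lit 1373) (nat_lit 70368744177664) .dd)))))) (.br (nat_lit 5) (.ch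
 (nat_lit 4) (.ev (nat_lit 1088) (nat_lit 1134696000126976) (.ev (nat_lit 1540) (nat_lit 70368744177664) (.ev
 (nat_lit 1549) (nat_lit 2048) .dd)))) (.br (nat_lit 6) (.ch (nat_lit 5) (.ev (nat_lit 1088) (nat_lit
 1125899906842624) (.ev (nat_lit 1104) (nat_lit 70368744177664) (.ev (nat_lit 1156) (nat_lit 8796093284352)
 (.ev (nat_lit 1165) (nat_lit 2048) .dd))))) (.ch (nat_lit 6) (.ev (nat_lit 1088) (nat_lit 79164837464064) (.ev
 (nat_lit 1101) (nat_lit 1125899906842624) .dd))))))))) (.br (nat_lit 6) (.ch (nat_lit 3) (.ev (nat_lit 1008)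
 (nat_lit 1205064744306688) (.nd (nat_lit 1072) (.br (nat_lit 3) (.br (nat_lit 1) (.ch (nat_lit 0) (.ev
 (nat_lit 1088) (nat_lit 69206016) (.ev (nat_lit 1360) (nat_lit 274877906944) (.ev (nat_lit 1440) (nat_lit 32)
 (.fin (nat_lit 576434913726120507)))))) (.ch (nat_lit 1) (.ev (nat_lit 1088) (nat_lit 67145728) (.ev (nat_lit
 1296) (nat_lit 274877906944) (.ev (nat_lit 1328) (nat_lit 2097184) .dd))))) (.br (nat_lit 5) (.ch (nat_lit 3)
 (.ev (nat_lit 1088) (nat_lit 274880040992) (.ev (nat_lit 1101) (nat_lit 67108864) .dd))) (.br (nat_lit 6) (.ch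
 (nat_lit 5) (.ev (nat_lit 1088) (nat_lit 274947112992) (.ev (nat_lit 1104) (nat_lit 32768) (.ev (nat_lit 1117)
 (nat_lit 4096) .dd)))) (.ch (nat_lit 6) (.ev (nat_lit 1088) (nat_lit 274945019936) (.ev (nat_lit 1716)
 (nat_lit 32768) (.ev (nat_lit 1725) (nat_lit 2097152) .dd)))))))))) (.ch (nat_lit 6) (.ev (nat_lit 1008)
 (nat_lit 1205339689355296) (.nd (nat_lit 1072) (.br (nat_lit 3) (.br (nat_lit 1) (.ch (nat_lit 0) (.ev
 (nat_lit 1088) (nat_lit 2097152) (.ev (nat_lit 1101) (nat_lit 4096) .dd))) (.ch (nat_lit 1) (.ev (nat_lit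
 1088) (nat_lit 2097152) (.ev (nat_lit 1101) (nat_lit 4096) .dd)))) (.br (nat_lit 5) (.ch (nat_lit 3) (.ev
 (nat_lit 1204) (nat_lit 4096) (.ev (nat_lit 1213) (nat_lit 2097152) .dd))) (.ch (nat_lit 5) (.ev (nat_lit
 1184) (nat_lit 2097152) (.ev (nat_lit 1197) (nat_lit 4096) .dd)))))))))))))))))))) (.br (nat_lit 42) (.br
 (nat_lit 36) (.br (nat_lit 35) (.ch (nat_lit 33) (.ev (nat_lit 52) (nat_lit 17869815710816) (.ev (nat_lit 148)
 (nat_lit 2048) (.ev (nat_lit 372) (nat_lit 70368744177664) (.ev (nat_lit 564) (nat_lit 4194304) (.nd (nat_lit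
 992) (.br (nat_lit 3) (.br (nat_lit 1) (.ch (nat_lit 0) (.ev (nat_lit 1008) (nat_lit 847723465019392) (.nd
 (nat_lit 1072) (.br (nat_lit 4) (.br (nat_lit 1) (.ch (nat_lit 0) (.ev (nat_lit 1088) (nat_lit
 1134764719341584) (.ev (nat_lit 1284) (nat_lit 2097152) (.ev (nat_lit 1293) (nat_lit 4398046511104) .dd))))
 (.ch (nat_lit 1) (.ev (nat_lit 1088) (nat_lit 16) (.ev (nat_lit 1120) (nat_lit 1134695999864832) (.ev (nat_lit
 1216) (nat_lit 2097152) (.ev (nat_lit 1348) (nat_lit 4398046511104) (.ev (nat_lit 1357) (nat_lit 68719476736)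
 .dd))))))) (.br (nat_lit 5) (.ch (nat_lit 4) (.ev (nat_lit 1088) (nat_lit 1134695999864848) (.ev (nat_lit
 1168) (nat_lit 68719476736) (.ev (nat_lit 1184) (nat_lit 4398046511104) (.ev (nat_lit 1197) (nat_lit 2097152)
 .dd))))) (.ch (nat_lit 5) (.ev (nat_lit 1088) (nat_lit 4398046511104) (.ev (nat_lit 1156) (nat_lit
 8796093022224) (.ev (nat_lit 1284) (nat_lit 68719476736) (.ev (nat_lit 1312) (nat_lit 2097152) (.ev (nat_lit
 1325) (nat_lit 1125899906842624) .dd))))))))))) (.ch (nat_lit 1) (.ev (nat_lit 1008) (nat_lit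
 1134696001962000) (.nd (nat_lit 1072) (.br (nat_lit 3) (.br (nat_lit 1) (.ch (nat_lit 0) (.ev (nat_lit 1088)
 (nat_lit 566248488304640) (.ev (nat_lit 1156) (nat_lit 281474976710656) (.ev (nat_lit 1376) (nat_lit 4096)
 (.ev (nat_lit 1572) (nat_lit 4398046511104) (.ev (nat_lit 1581) (nat_lit 68719476736) .dd)))))) (.ch (nat_lit
 1) (.ev (nat_lit 1088) (nat_lit 285873023221760) (.ev (nat_lit 1156) (nat_lit 562949953421312) (.ev (nat_lit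
 1204) (nat_lit 68719476736) (.ev (nat_lit 1328) (nat_lit 4096) (.nd (nat_lit 1728) (.br (nat_lit 2) (.ch
 (nat_lit 0) (.fin (nat_lit 576454704977363459))) (.ch (nat_lit 2) (.ev (nat_lit 1744) (nat_lit 3298534883328)
 .dd)))))))))) (.br (nat_lit 5) (.ch (nat_lit 3) (.ev (nat_lit 1088) (nat_lit 566317207785472) (.ev (nat_lit
 1104) (nat_lit 4398046511104) (.ev (nat_lit 1117) (nat_lit 281474976710656) .dd)))) (.br (nat_lit 6) (.ch
 (nat_lit 5) (.ev (nat_lit 1088) (nat_lit 285941742702592) (.ev (nat_lit 1104) (nat_lit 2199023255552) (.ev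
 (nat_lit 1348) (nat_lit 1099511627776) (.ev (nat_lit 1357) (nat_lit 562949953421312) .dd))))) (.ch (nat_lit 6)
 (.ev (nat_lit 1088) (nat_lit 570646534819840) (.ev (nat_lit 1216) (nat_lit 281543696187392) .dd)))))))))) (.br
 (nat_lit 6) (.ch (nat_lit 3) (.ev (nat_lit 1008) (nat_lit 297967651131392) (.nd (nat_lit 1072) (.br (nat_lit
 5) (.br (nat_lit 3) (.ch (nat_lit 1) (.ev (nat_lit 1088) (nat_lit 562949955518480) (.ev (nat_lit 1120)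
 (nat_lit 1125899906842624) (.ev (nat_lit 1133) (nat_lit 68719476736) .dd)))) (.ch (nat_lit 3) (.ev (nat_lit
 1088) (nat_lit 1125899908939792) (.ev (nat_lit 1156) (nat_lit 68719476736) (.ev (nat_lit 1165) (nat_lit
 562949953421312) .dd))))) (.br (nat_lit 6) (.ch (nat_lit 5) (.ev (nat_lit 1088) (nat_lit 16) (.ev (nat_lit
 1156) (nat_lit 562949953421312) (.ev (nat_lit 1168) (nat_lit 2097152) (.ev (nat_lit 1504) (nat_lit
 68719476736) (.ev (nat_lit 1517) (nat_lit 1125899906842624) .dd)))))) (.ch (nat_lit 6) (.ev (nat_lit 1088)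
 (nat_lit 1688849860263936) (.ev (nat_lit 1472) (nat_lit 68719476736) (.ev (nat_lit 1492) (nat_lit 16) (.ev
 (nat_lit 1501) (nat_lit 2097152) .dd)))))))))) (.ch (nat_lit 6) (.ev (nat_lit 1008) (nat_lit 1698745464918032)
 (.nd (nat_lit 1072) (.br (nat_lit 3) (.ch (nat_lit 0) (.ev (nat_lit 1088) (nat_lit 2199025352704) (.ev
 (nat_lit 1156) (nat_lit 4398046511104) (.ev (nat_lit 1204) (nat_lit 68719476736) (.ev (nat_lit 1213) (nat_lit
 281474976710656) .dd))))) (.br (nat_lit 6) (.ch (nat_lit 3) (.ev (nat_lit 1088) (nat_lit 68719476736) (.ev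
 (nat_lit 1156) (nat_lit 2199023255552) (.ev (nat_lit 1284) (nat_lit 281474976710656) (.ev (nat_lit 1540)
 (nat_lit 2097152) (.ev (nat_lit 1549) (nat_lit 4398046511104) .dd)))))) (.ch (nat_lit 6) (.ev (nat_lit 1088)
 (nat_lit 288072046477312) (.ev (nat_lit 1204) (nat_lit 2097152) (.ev (nat_lit 1213) (nat_lit 68719476736)
 .dd))))))))))))))))) (.ch (nat_lit 35) (.ev (nat_lit 52) (nat_lit 1973692628209760) (.ev (nat_lit 340)
 (nat_lit 262144) (.ev (nat_lit 404) (nat_lit 2097152) (.ev (nat_lit 532) (nat_lit 16) (.ev (nat_lit 564)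
 (nat_lit 1024) (.nd (nat_lit 992) (.br (nat_lit 3) (.ch (nat_lit 1) (.ev (nat_lit 1008) (nat_lit
 26390497853440) (.nd (nat_lit 1072) (.br (nat_lit 5) (.br (nat_lit 3) (.ch (nat_lit 0) (.ev (nat_lit 1088)
 (nat_lit 274877906944) (.ev (nat_lit 1156) (nat_lit 34816) (.ev (nat_lit 1184) (nat_lit 74766790688768)
 .dd)))) (.ch (nat_lit 3) (.ev (nat_lit 1088) (nat_lit 274877939712) (.ev (nat_lit 1156) (nat_lit 2048) (.fin
 (nat_lit 576443709814948411)))))) (.br (nat_lit 6) (.ch (nat_lit 5) (.ev (nat_lit 1088) (nat_lit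
 74766790690816) (.fin (nat_lit 576507481510330967)))) (.ch (nat_lit 6) (.ev (nat_lit 1088) (nat_lit
 70643622086656) (.ev (nat_lit 1696) (nat_lit 4398046543872) .dd)))))))) (.br (nat_lit 6) (.ch (nat_lit 3) (.ev
 (nat_lit 1008) (nat_lit 92358976735232) (.nd (nat_lit 1072) (.br (nat_lit 3) (.ch (nat_lit 0) (.ev (nat_lit
 1088) (nat_lit 2218786816) (.ev (nat_lit 1156) (nat_lit 32768) (.ev (nat_lit 1348) (nat_lit 8796093022208)
 (.ev (nat_lit 1357) (nat_lit 274877906944) .dd))))) (.br (nat_lit 5) (.ch (nat_lit 3) (.ev (nat_lit 1088)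
 (nat_lit 4227072) (.ev (nat_lit 1204) (nat_lit 274877906944) (.ev (nat_lit 1232) (nat_lit 2147483648) (.fin
 (nat_lit 576434913770160706)))))) (.ch (nat_lit 5) (.ev (nat_lit 1088) (nat_lit 9073185554432) (.ev (nat_lit
 1101) (nat_lit 4194304) .dd)))))))) (.ch (nat_lit 6) (.ev (nat_lit 1008) (nat_lit 9071042267136) (.nd (nat_lit
 1072) (.br (nat_lit 3) (.ch (nat_lit 1) (.ev (nat_lit 1088) (nat_lit 74768938172416) (.ev (nat_lit 1101)
 (nat_lit 17592186044416) .dd))) (.br (nat_lit 6) (.ch (nat_lit 3) (.ev (nat_lit 1088) (nat_lit 17592186044416)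
 (.ev (nat_lit 1348) (nat_lit 4398046511104) (.ev (nat_lit 1492) (nat_lit 70368744177664) (.ev (nat_lit 1501)
 (nat_lit 2147483648) .dd))))) (.ch (nat_lit 6) (.ev (nat_lit 1088) (nat_lit 21992380039168) (.ev (nat_lit
 1101) (nat_lit 70368744177664) .dd)))))))))))))))))) (.br (nat_lit 38) (.ch (nat_lit 36) (.ev (nat_lit 52)
 (nat_lit 1230424447913984) (.ev (nat_lit 116) (nat_lit 536870912) (.ev (nat_lit 244) (nat_lit 64) (.ev
 (nat_lit 576) (nat_lit 844699812269104) .dd))))) (.ch (nat_lit 38) (.ev (nat_lit 52) (nat_lit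
 1412875128408096) (.ev (nat_lit 276) (nat_lit 67108864) (.ev (nat_lit 340) (nat_lit 4194304) (.ev (nat_lit
 372) (nat_lit 8796093022208) (.ev (nat_lit 404) (nat_lit 16) (.nd (nat_lit 992) (.br (nat_lit 3) (.br (nat_lit
 1) (.ch (nat_lit 0) (.ev (nat_lit 1008) (nat_lit 565492574097408) (.nd (nat_lit 1072) (.br (nat_lit 4) (.br
 (nat_lit 1) (.ch (nat_lit 0) (.ev (nat_lit 1088) (nat_lit 87960930222080) (.ev (nat_lit 1204) (nat_lit 1024)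
 (.ev (nat_lit 1213) (nat_lit 64) .dd)))) (.ch (nat_lit 1) (.ev (nat_lit 1088) (nat_lit 70368744177728) (.ev
 (nat_lit 1216) (nat_lit 17592186045440) .dd)))) (.br (nat_lit 5) (.ch (nat_lit 4) (.ev (nat_lit 1088) (nat_lit
 64) (.ev (nat_lit 1492) (nat_lit 1024) (.fin (nat_lit 576503083499471401))))) (.br (nat_lit 6) (.ch (nat_lit
 5) (.ev (nat_lit 1088) (nat_lit 87960930223104) (.ev (nat_lit 1101) (nat_lit 64) .dd))) (.ch (nat_lit 6) (.ev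
 (nat_lit 1088) (nat_lit 1088) (.ev (nat_lit 1104) (nat_lit 70368744177664) (.ev (nat_lit 1117) (nat_lit
 17592186044416) .dd)))))))))) (.ch (nat_lit 1) (.ev (nat_lit 1008) (nat_lit 17592186077248) (.nd (nat_lit
 1072) (.br (nat_lit 5) (.br (nat_lit 1) (.ch (nat_lit 0) (.ev (nat_lit 1088) (nat_lit 565148976676864) (.ev
 (nat_lit 1156) (nat_lit 68719476736) (.ev (nat_lit 1168) (nat_lit 1024) (.ev (nat_lit 1184) (nat_lit
 70643622084608) (.ev (nat_lit 1197) (nat_lit 4096) .dd)))))) (.ch (nat_lit 1) (.ev (nat_lit 1088) (nat_lit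
 565492574061568) (.ev (nat_lit 1716) (nat_lit 4096) (.ev (nat_lit 1725) (nat_lit 70368744177664) .dd))))) (.br
 (nat_lit 6) (.ch (nat_lit 5) (.ev (nat_lit 1088) (nat_lit 633387417075712) (.ev (nat_lit 1284) (nat_lit 1024)
 (.ev (nat_lit 1312) (nat_lit 2199023259648) (.ev (nat_lit 1325) (nat_lit 274877906944) .dd))))) (.ch (nat_lit
 6) (.ev (nat_lit 1088) (nat_lit 343597383680) (.ev (nat_lit 1216) (nat_lit 4096) (.ev (nat_lit 1348) (nat_lit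
 70368744177664) (.ev (nat_lit 1588) (nat_lit 1024) (.fin (nat_lit 576448107951637054))))))))))))) (.br
 (nat_lit 6) (.ch (nat_lit 3) (.ev (nat_lit 1008) (nat_lit 90159953477696) (.nd (nat_lit 1072) (.br (nat_lit 3)
 (.br (nat_lit 1) (.ch (nat_lit 0) (.ev (nat_lit 1088) (nat_lit 343597383680) (.ev (nat_lit 1392) (nat_lit
 562949953421312) (.ev (nat_lit 1472) (nat_lit 1024) (.fin (nat_lit 576487690395402821)))))) (.ch (nat_lit 1)
 (.ev (nat_lit 1088) (nat_lit 562949953454080) (.ev (nat_lit 1156) (nat_lit 68719476736) (.ev (nat_lit 1168)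
 (nat_lit 4096) (.ev (nat_lit 1504) (nat_lit 1024) (.ev (nat_lit 1517) (nat_lit 274877906944) .dd))))))) (.br
 (nat_lit 5) (.ch (nat_lit 3) (.ev (nat_lit 1088) (nat_lit 563018672934912) (.ev (nat_lit 1156) (nat_lit 1024)
 (.ev (nat_lit 1165) (nat_lit 274877906944) .dd)))) (.ch (nat_lit 5) (.ev (nat_lit 1088) (nat_lit
 563293550841856) (.ev (nat_lit 1101) (nat_lit 1024) .dd)))))))) (.ch (nat_lit 6) (.ev (nat_lit 1008) (nat_lit
 565492574093312) (.nd (nat_lit 1072) (.br (nat_lit 5) (.ch (nat_lit 3) (.ev (nat_lit 1088) (nat_lit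
 17592186049600) (.ev (nat_lit 1101) (nat_lit 70368744177664) .dd))) (.br (nat_lit 6) (.ch (nat_lit 5) (.ev
 (nat_lit 1088) (nat_lit 70368744177664) (.ev (nat_lit 1156) (nat_lit 4096) (.ev (nat_lit 1168) (nat_lit
 17592186044416) (.ev (nat_lit 1284) (nat_lit 1024) (.ev (nat_lit 1293) (nat_lit 64) .dd)))))) (.ch (nat_lit 6)
 (.ev (nat_lit 1088) (nat_lit 17592186048576) (.ev (nat_lit 1168) (nat_lit 70368744177664) (.ev (nat_lit 1181)
 (nat_lit 1024) .dd)))))))))))))))))))) (.br (nat_lit 45) (.br (nat_lit 44) (.ch (nat_lit 42) (.ev (nat_lit 52)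
 (nat_lit 85764058942544) (.ev (nat_lit 116) (nat_lit 1099511627776) (.ev (nat_lit 276) (nat_lit 4096) (.ev
 (nat_lit 404) (nat_lit 281474976710656) (.ev (nat_lit 468) (nat_lit 67108864) (.ev (nat_lit 532) (nat_lit
 17592186044416) (.ev (nat_lit 564) (nat_lit 32) (.nd (nat_lit 992) (.br (nat_lit 2) (.ch (nat_lit 1) (.ev
 (nat_lit 1008) (nat_lit 1688850399232000) (.nd (nat_lit 1072) (.br (nat_lit 3) (.ch (nat_lit 1) (.ev (nat_lit
 1104) (nat_lit 343597383680) .dd)) (.br (nat_lit 6) (.ch (nat_lit 3) (.ev (nat_lit 1088) (nat_lit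
 343597383680) .dd)) (.ch (nat_lit 6) (.ev (nat_lit 1088) (nat_lit 343597383680) .dd))))))) (.br (nat_lit 3)
 (.ch (nat_lit 2) (.ev (nat_lit 1008) (nat_lit 563224833425408) (.nd (nat_lit 1072) (.br (nat_lit 6) (.ch
 (nat_lit 1) (.ev (nat_lit 1088) (nat_lit 68719476736) (.ev (nat_lit 1216) (nat_lit 1125899906842624) (.ev
 (nat_lit 1229) (nat_lit 536870912) .dd)))) (.ch (nat_lit 6) (.ev (nat_lit 1088) (nat_lit 1125900443713536)
 (.ev (nat_lit 1101) (nat_lit 68719476736) .dd))))))) (.ch (nat_lit 3) (.ev (nat_lit 1008) (nat_lit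
 343597383680) (.nd (nat_lit 1072) (.br (nat_lit 5) (.ch (nat_lit 0) (.ev (nat_lit 1088) (nat_lit 2097152) (.ev
 (nat_lit 1156) (nat_lit 562949953421312) (.ev (nat_lit 1492) (nat_lit 536870912) (.ev (nat_lit 1501) (nat_lit
 1125899906842624) .dd))))) (.br (nat_lit 6) (.ch (nat_lit 5) (.ev (nat_lit 1088) (nat_lit 536870912) (.ev
 (nat_lit 1348) (nat_lit 1125899906842624) (.ev (nat_lit 1492) (nat_lit 562949953421312) (.ev (nat_lit 1501)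
 (nat_lit 2097152) .dd))))) (.ch (nat_lit 6) (.ev (nat_lit 1088) (nat_lit 1688850397134848) (.ev (nat_lit 1101)
 (nat_lit 2097152) .dd))))))))))))))))))) (.ch (nat_lit 44) (.ev (nat_lit 52) (nat_lit 1765815745516560) (.ev
 (nat_lit 84) (nat_lit 2048) (.ev (nat_lit 372) (nat_lit 17592186044416) (.ev (nat_lit 500) (nat_lit
 68719476736) (.ev (nat_lit 596) (nat_lit 32768) (.ev (nat_lit 768) (nat_lit 64) (.ev (nat_lit 912) (nat_lit
 2147483648) (.nd (nat_lit 992) (.br (nat_lit 1) (.ch (nat_lit 0) (.ev (nat_lit 1008) (nat_lit 282849903116320)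
 (.nd (nat_lit 1072) (.br (nat_lit 4) (.ch (nat_lit 0) (.ev (nat_lit 1088) (nat_lit 8796093022208) (.fin
 (nat_lit 576461302061810239)))) (.br (nat_lit 6) (.ch (nat_lit 4) (.ev (nat_lit 1088) (nat_lit 8796093284352)
 (.ev (nat_lit 1101) (nat_lit 2097152) .dd))) (.ch (nat_lit 6) (.ev (nat_lit 1088) (nat_lit 2097152) (.ev
 (nat_lit 1156) (nat_lit 262144) (.ev (nat_lit 1165) (nat_lit 8796093022208) .dd))))))))) (.br (nat_lit 3) (.ch
 (nat_lit 1) (.ev (nat_lit 1008) (nat_lit 9896143618048) (.nd (nat_lit 1072) (.br (nat_lit 3) (.br (nat_lit 1)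
 (.ch (nat_lit 0) (.ev (nat_lit 1088) (nat_lit 274878169120) (.ev (nat_lit 1101) (nat_lit 281474976710656)
 .dd))) (.ch (nat_lit 1) (.ev (nat_lit 1088) (nat_lit 281474976710688) (.ev (nat_lit 1156) (nat_lit
 274877906944) (.ev (nat_lit 1165) (nat_lit 262144) .dd))))) (.br (nat_lit 6) (.ch (nat_lit 3) (.ev (nat_lit
 1088) (nat_lit 274877906944) (.ev (nat_lit 1156) (nat_lit 281474976710688) (.ev (nat_lit 1165) (nat_lit
 262144) .dd)))) (.ch (nat_lit 6) (.ev (nat_lit 1088) (nat_lit 281749854617632) (.ev (nat_lit 1101) (nat_lit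
 262144) .dd)))))))) (.ch (nat_lit 3) (.ev (nat_lit 1008) (nat_lit 290545947901952) (.nd (nat_lit 1072) (.br
 (nat_lit 3) (.br (nat_lit 1) (.ch (nat_lit 0) (.ev (nat_lit 1156) (nat_lit 1099511627776) (.ev (nat_lit 1204)
 (nat_lit 2097152) (.ev (nat_lit 1296) (nat_lit 536870912) (.ev (nat_lit 1309) (nat_lit 32) .dd))))) (.ch
 (nat_lit 1) (.ev (nat_lit 1088) (nat_lit 1100048498688) (.ev (nat_lit 1156) (nat_lit 2097152) (.ev (nat_lit
 1165) (nat_lit 32) .dd))))) (.br (nat_lit 6) (.ch (nat_lit 3) (.ev (nat_lit 1088) (nat_lit 2097152) (.ev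
 (nat_lit 1296) (nat_lit 1099511627776) (.ev (nat_lit 1376) (nat_lit 536870944) .dd)))) (.ch (nat_lit 6) (.ev
 (nat_lit 1088) (nat_lit 1100048498688) (.ev (nat_lit 1204) (nat_lit 32) (.ev (nat_lit 1213) (nat_lit 2097152)
 .dd))))))))))))))))))))) (.br (nat_lit 46) (.ch (nat_lit 45) (.ev (nat_lit 52) (nat_lit 1707816973011040) (.ev
 (nat_lit 352) (nat_lit 367307824043024) .dd))) (.ch (nat_lit 46) (.ev (nat_lit 52) (nat_lit 1433834035905616)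
 (.ev (nat_lit 148) (nat_lit 67108864) (.ev (nat_lit 308) (nat_lit 536870912) (.ev (nat_lit 832) (nat_lit
 1099511627776) (.nd (nat_lit 992) (.br (nat_lit 2) (.ch (nat_lit 1) (.ev (nat_lit 1008) (nat_lit
 562949953421312) (.nd (nat_lit 1072) (.br (nat_lit 3) (.ch (nat_lit 0) (.ev (nat_lit 1088) (nat_lit
 72567767695392) (.nd (nat_lit 1728) (.br (nat_lit 6) (.ch (nat_lit 0) (.ev (nat_lit 1744) (nat_lit
 4398046515200) (.fin (nat_lit 576456903992230438)))) (.ch (nat_lit 6) (.ev (nat_lit 1744) (nat_lit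
 274877908992) (.fin (nat_lit 576466799628337734)))))))) (.br (nat_lit 5) (.ch (nat_lit 3) (.ev (nat_lit 1088)
 (nat_lit 6871947679744) (.ev (nat_lit 1156) (nat_lit 70368744177664) (.ev (nat_lit 1348) (nat_lit 262144) (.ev
 (nat_lit 1357) (nat_lit 32) .dd))))) (.ch (nat_lit 5) (.ev (nat_lit 1088) (nat_lit 75041668601888) (.ev
 (nat_lit 1136) (nat_lit 262144) (.ev (nat_lit 1149) (nat_lit 2199023255552) .dd))))))))) (.br (nat_lit 3) (.ch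
 (nat_lit 2) (.ev (nat_lit 1008) (nat_lit 569821901363232) (.ev (nat_lit 1021) (nat_lit 70368744177664) .dd)))
 (.ch (nat_lit 3) (.ev (nat_lit 1008) (nat_lit 77240692119552) (.nd (nat_lit 1072) (.br (nat_lit 3) (.ch
 (nat_lit 0) (.ev (nat_lit 1088) (nat_lit 562949953421344) .dd)) (.br (nat_lit 5) (.ch (nat_lit 3) (.ev
 (nat_lit 1120) (nat_lit 32) (.ev (nat_lit 1133) (nat_lit 562949953421312) .dd))) (.ch (nat_lit 5) (.ev
 (nat_lit 1088) (nat_lit 32) (.ev (nat_lit 1101) (nat_lit 562949953421312) .dd)))))))))))))))))))))))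

/-- Subtrie. -/
noncomputable def T3 : Tr := (.ev (nat_lit 20) (nat_lit 721288284865584) (.nd (nat_lit 33) (.br (nat_lit 25)
 (.br (nat_lit 14) (.br (nat_lit 5) (.br (nat_lit 2) (.ch (nat_lit 1) (.ev (nat_lit 52) (nat_lit
 13746332637184) (.ev (nat_lit 128) (nat_lit 5985123365388864) .dd))) (.br (nat_lit 3) (.ch (nat_lit 2) (.ev
 (nat_lit 52) (nat_lit 1486952054686208) (.ev (nat_lit 180) (nat_lit 4194304) (.ev (nat_lit 212) (nat_lit 2048)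
 (.ev (nat_lit 244) (nat_lit 131072) (.ev (nat_lit 340) (nat_lit 4096) (.ev (nat_lit 372) (nat_lit 68719476736)
 (.ev (nat_lit 468) (nat_lit 2147483648) (.ev (nat_lit 864) (nat_lit 4398046511104) (.nd (nat_lit 992) (.br
 (nat_lit 2) (.ch (nat_lit 0) (.ev (nat_lit 1008) (nat_lit 4507448186568704) (.nd (nat_lit 1072) (.br (nat_lit
 3) (.ch (nat_lit 2) (.ev (nat_lit 1088) (nat_lit 536870976) (.ev (nat_lit 1101) (nat_lit 2097152) .dd))) (.br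
 (nat_lit 4) (.ch (nat_lit 3) (.ev (nat_lit 1088) (nat_lit 538968064) (.ev (nat_lit 1101) (nat_lit 64) .dd)))
 (.ch (nat_lit 4) (.ev (nat_lit 1088) (nat_lit 2097216) (.ev (nat_lit 1101) (nat_lit 536870912) .dd))))))))
 (.br (nat_lit 5) (.ch (nat_lit 2) (.ev (nat_lit 1008) (nat_lit 1100316999744) (.nd (nat_lit 1072) (.br
 (nat_lit 3) (.br (nat_lit 2) (.ch (nat_lit 0) (.ev (nat_lit 1204) (nat_lit 2097152) (.ev (nat_lit 1348)
 (nat_lit 2199023255552) (.ev (nat_lit 1360) (nat_lit 4503599627370496) (.ev (nat_lit 1373) (nat_lit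
 549755813888) .dd))))) (.ch (nat_lit 2) (.ev (nat_lit 1088) (nat_lit 2199023255552) (.ev (nat_lit 1312)
 (nat_lit 4503599627370496) (.ev (nat_lit 1492) (nat_lit 549755813888) (.ev (nat_lit 1501) (nat_lit 2097152)
 .dd)))))) (.br (nat_lit 4) (.ch (nat_lit 3) (.ev (nat_lit 1088) (nat_lit 4506348406439936) (.ev (nat_lit 1101)
 (nat_lit 2097152) .dd))) (.ch (nat_lit 4) (.ev (nat_lit 1088) (nat_lit 4505798650626048) (.ev (nat_lit 1168)
 (nat_lit 549755813888) (.ev (nat_lit 1181) (nat_lit 2097152) .dd))))))))) (.ch (nat_lit 5) (.ev (nat_lit 1008)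
 (nat_lit 4503599629467712) (.nd (nat_lit 1072) (.br (nat_lit 4) (.br (nat_lit 1) (.ch (nat_lit 0) (.ev
 (nat_lit 1088) (nat_lit 1099780128768) (.ev (nat_lit 1348) (nat_lit 536870912) (.ev (nat_lit 1492) (nat_lit
 2199023255552) (.ev (nat_lit 1501) (nat_lit 549755813888) .dd))))) (.ch (nat_lit 1) (.ev (nat_lit 1088)
 (nat_lit 1099780128768) (.ev (nat_lit 1184) (nat_lit 2748779069440) (.ev (nat_lit 1197) (nat_lit 536870912)
 .dd))))) (.br (nat_lit 6) (.ch (nat_lit 4) (.ev (nat_lit 1088) (nat_lit 2749047504896) (.ev (nat_lit 1156)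
 (nat_lit 65536) (.ev (nat_lit 1408) (nat_lit 1099511627776) (.ev (nat_lit 1421) (nat_lit 536870912) .dd)))))
 (.ch (nat_lit 6) (.ev (nat_lit 1088) (nat_lit 2199023255552) (.ev (nat_lit 1156) (nat_lit 65536) (.ev (nat_lit
 1204) (nat_lit 536870912) (.ev (nat_lit 1348) (nat_lit 549755813888) (.fin (nat_lit
 576461302091170354)))))))))))))))))))))))) (.ch (nat_lit 3) (.ev (nat_lit 52) (nat_lit 1127551877584960) (.ev
 (nat_lit 256) (nat_lit 4871317820441088) .dd))))) (.br (nat_lit 11) (.br (nat_lit 9) (.ch (nat_lit 5) (.ev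
 (nat_lit 52) (nat_lit 1926836066816) (.ev (nat_lit 288) (nat_lit 5996942861959232) .dd))) (.ch (nat_lit 9)
 (.ev (nat_lit 52) (nat_lit 76347362150912) (.ev (nat_lit 212) (nat_lit 2199023255552) (.ev (nat_lit 564)
 (nat_lit 281474976710656) (.ev (nat_lit 784) (nat_lit 4503599627370496) (.nd (nat_lit 992) (.br (nat_lit 3)
 (.ch (nat_lit 0) (.ev (nat_lit 1008) (nat_lit 1126452078575680) (.nd (nat_lit 1072) (.br (nat_lit 3) (.ch
 (nat_lit 2) (.ev (nat_lit 1088) (nat_lit 8796629962752) .dd)) (.br (nat_lit 4) (.ch (nat_lit 3) (.ev (nat_lit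
 1088) (nat_lit 8796093087744) (.ev (nat_lit 1376) (nat_lit 536875008) .dd))) (.ch (nat_lit 4) (.ev (nat_lit
 1284) (nat_lit 536870912) (.ev (nat_lit 1348) (nat_lit 8796093087744) (.ev (nat_lit 1357) (nat_lit 4096)
 .dd))))))))) (.br (nat_lit 6) (.ch (nat_lit 3) (.ev (nat_lit 1008) (nat_lit 1135246292619264) (.nd (nat_lit
 1072) (.br (nat_lit 5) (.ch (nat_lit 2) (.ev (nat_lit 1088) (nat_lit 2415919168) .dd)) (.br (nat_lit 6) (.ch
 (nat_lit 5) (.ev (nat_lit 1088) (nat_lit 64) (.ev (nat_lit 1104) (nat_lit 268435456) (.ev (nat_lit 1117)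
 (nat_lit 2147483648) .dd)))) (.ch (nat_lit 6) (.ev (nat_lit 1088) (nat_lit 2147483648) (.ev (nat_lit 1136)
 (nat_lit 268435520) .dd)))))))) (.ch (nat_lit 6) (.ev (nat_lit 1008) (nat_lit 805310528) (.ev (nat_lit 1028)
 (nat_lit 2147483648) (.nd (nat_lit 1072) (.br (nat_lit 2) (.ch (nat_lit 0) (.ev (nat_lit 1204) (nat_lit
 8796093022208) (.ev (nat_lit 1216) (nat_lit 549755813888) (.nd (nat_lit 1760) (.ch (nat_lit 5) (.nd (nat_lit
 1777) (.ch (nat_lit 19) (.nd (nat_lit 1808) (.br (nat_lit 2) (.ch (nat_lit 1) (.ev (nat_lit 1824) (nat_lit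
 1125899906908160) .dd)) (.ch (nat_lit 2) (.fin (nat_lit 576474496169886282)))))))))))) (.ch (nat_lit 2) (.ev
 (nat_lit 1088) (nat_lit 1134695999930368) (.ev (nat_lit 1101) (nat_lit 549755813888) .dd))))))))))))))))) (.br
 (nat_lit 12) (.ch (nat_lit 11) (.ev (nat_lit 52) (nat_lit 4517275615167040) (.ev (nat_lit 84) (nat_lit
 70368744177664) (.ev (nat_lit 416) (nat_lit 1411225338681344) .dd)))) (.ch (nat_lit 12) (.ev (nat_lit 52)
 (nat_lit 5700005986271232) (.ev (nat_lit 180) (nat_lit 16777216) (.ev (nat_lit 276) (nat_lit 4398046511104)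
 (.ev (nat_lit 340) (nat_lit 281474976710656) (.ev (nat_lit 372) (nat_lit 512) (.nd (nat_lit 992) (.br (nat_lit
 3) (.br (nat_lit 2) (.ch (nat_lit 0) (.ev (nat_lit 1008) (nat_lit 12990128588800) (.nd (nat_lit 1072) (.br
 (nat_lit 4) (.br (nat_lit 3) (.ch (nat_lit 2) (.ev (nat_lit 1088) (nat_lit 538972224) (.ev (nat_lit 1101)
 (nat_lit 4194304) .dd))) (.ch (nat_lit 3) (.ev (nat_lit 1088) (nat_lit 64) (.ev (nat_lit 1204) (nat_lit
 4194304) (.ev (nat_lit 1540) (nat_lit 4096) (.nd (nat_lit 1728) (.br (nat_lit 6) (.ch (nat_lit 5) (.ev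
 (nat_lit 1744) (nat_lit 538968064) .dd)) (.ch (nat_lit 6) (.fin (nat_lit 576478894306574923)))))))))) (.br
 (nat_lit 5) (.ch (nat_lit 4) (.ev (nat_lit 1088) (nat_lit 543166464) (.ev (nat_lit 1101) (nat_lit 64) .dd)))
 (.br (nat_lit 6) (.ch (nat_lit 5) (.ev (nat_lit 1088) (nat_lit 543162368) (.ev (nat_lit 1376) (nat_lit 4096)
 (.ev (nat_lit 1389) (nat_lit 64) .dd)))) (.ch (nat_lit 6) (.ev (nat_lit 1088) (nat_lit 4160) (.ev (nat_lit
 1104) (nat_lit 536870912) (.ev (nat_lit 1456) (nat_lit 2097152) (.ev (nat_lit 1469) (nat_lit 4194304)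
 .dd))))))))))) (.ch (nat_lit 2) (.ev (nat_lit 1008) (nat_lit 536877120) (.nd (nat_lit 1072) (.br (nat_lit 3)
 (.br (nat_lit 2) (.ch (nat_lit 0) (.ev (nat_lit 1088) (nat_lit 1443111108608) (.ev (nat_lit 1156) (nat_lit
 551907491840) (.fin (nat_lit 576462401573438018))))) (.ch (nat_lit 2) (.ev (nat_lit 1088) (nat_lit
 12715254874112) (.ev (nat_lit 1156) (nat_lit 274877906944) (.ev (nat_lit 1165) (nat_lit 2097152) .dd))))) (.br
 (nat_lit 6) (.ch (nat_lit 3) (.ev (nat_lit 1088) (nat_lit 3850440278016) (.ev (nat_lit 1120) (nat_lit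
 8796093022208) (.ev (nat_lit 1204) (nat_lit 274877906944) (.ev (nat_lit 1492) (nat_lit 4194304) (.ev (nat_lit
 1501) (nat_lit 68719476736) .dd)))))) (.ch (nat_lit 6) (.ev (nat_lit 1088) (nat_lit 9414570409984) (.ev
 (nat_lit 1156) (nat_lit 1101659111424) (.ev (nat_lit 1168) (nat_lit 4194304) (.ev (nat_lit 1184) (nat_lit
 2199023255552) (.ev (nat_lit 1197) (nat_lit 274877906944) .dd)))))))))))) (.br (nat_lit 6) (.ch (nat_lit 3)
 (.ev (nat_lit 1008) (nat_lit 9348535291968) (.nd (nat_lit 1072) (.br (nat_lit 2) (.ch (nat_lit 1) (.ev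
 (nat_lit 1088) (nat_lit 1168231104512) (.ev (nat_lit 1104) (nat_lit 2199023255552) (.ev (nat_lit 1156)
 (nat_lit 274877906944) (.ev (nat_lit 1284) (nat_lit 4194304) (.ev (nat_lit 1293) (nat_lit 2048) .dd)))))) (.br
 (nat_lit 5) (.ch (nat_lit 2) (.ev (nat_lit 1088) (nat_lit 2473901164544) (.ev (nat_lit 1104) (nat_lit
 1099511627776) (.ev (nat_lit 1392) (nat_lit 4194304) (.ev (nat_lit 1405) (nat_lit 68719476736) .dd))))) (.ch
 (nat_lit 5) (.ev (nat_lit 1088) (nat_lit 3367258554368) (.nd (nat_lit 1728) (.br (nat_lit 4) (.ch (nat_lit 0)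
 (.fin (nat_lit 576514078605263471))) (.ch (nat_lit 4) (.ev (nat_lit 1744) (nat_lit 274877908992)
 .dd))))))))))) (.ch (nat_lit 6) (.ev (nat_lit 1008) (nat_lit 3369940817984) (.nd (nat_lit 1072) (.br (nat_lit
 1) (.ch (nat_lit 0) (.ev (nat_lit 1088) (nat_lit 274877906944) (.ev (nat_lit 1168) (nat_lit 8796093022208)
 (.ev (nat_lit 1492) (nat_lit 4194304) (.ev (nat_lit 1501) (nat_lit 549755813888) .dd))))) (.br (nat_lit 3)
 (.ch (nat_lit 1) (.ev (nat_lit 1088) (nat_lit 9345848836096) (.ev (nat_lit 1216) (nat_lit 274877906944) (.ev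
 (nat_lit 1229) (nat_lit 4194304) .dd)))) (.ch (nat_lit 3) (.ev (nat_lit 1088) (nat_lit 9620730937344)
 .dd))))))))))))))))))) (.br (nat_lit 19) (.br (nat_lit 16) (.br (nat_lit 15) (.ch (nat_lit 14) (.ev (nat_lit
 52) (nat_lit 4865132798706240) (.ev (nat_lit 224) (nat_lit 1133736899319808) .dd))) (.ch (nat_lit 15) (.ev
 (nat_lit 52) (nat_lit 352602074189824) (.ev (nat_lit 468) (nat_lit 8796093022208) (.nd (nat_lit 992) (.br
 (nat_lit 3) (.br (nat_lit 2) (.ch (nat_lit 0) (.ev (nat_lit 1008) (nat_lit 5633072947005952) (.nd (nat_lit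
 1072) (.br (nat_lit 4) (.ch (nat_lit 2) (.ev (nat_lit 1088) (nat_lit 537133056) (.ev (nat_lit 1104) (nat_lit
 131072) (.ev (nat_lit 1156) (nat_lit 32768) (.ev (nat_lit 1284) (nat_lit 4398046511104) (.ev (nat_lit 1293)
 (nat_lit 64) .dd)))))) (.br (nat_lit 6) (.ch (nat_lit 4) (.ev (nat_lit 1088) (nat_lit 4398583775232) (.nd
 (nat_lit 1728) (.br (nat_lit 4) (.ch (nat_lit 2) (.fin (nat_lit 576463501143786031))) (.ch (nat_lit 4) (.ev
 (nat_lit 1744) (nat_lit 32832) .dd)))))) (.ch (nat_lit 6) (.ev (nat_lit 1088) (nat_lit 163904) (.ev (nat_lit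
 1104) (nat_lit 262144) (.ev (nat_lit 1248) (nat_lit 4398046511104) (.ev (nat_lit 1261) (nat_lit 536870912)
 .dd)))))))))) (.ch (nat_lit 2) (.ev (nat_lit 1008) (nat_lit 275415206464) (.nd (nat_lit 1072) (.br (nat_lit 3)
 (.br (nat_lit 2) (.ch (nat_lit 0) (.ev (nat_lit 1088) (nat_lit 7696581394432) (.ev (nat_lit 1376) (nat_lit
 4503599627370496) (.ev (nat_lit 1389) (nat_lit 1125899906842624) .dd)))) (.ch (nat_lit 2) (.ev (nat_lit 1088)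
 (nat_lit 5632798069096448) (.ev (nat_lit 1101) (nat_lit 4398046511104) .dd)))) (.br (nat_lit 4) (.ch (nat_lit
 3) (.ev (nat_lit 1088) (nat_lit 4511296208764928) (.ev (nat_lit 1101) (nat_lit 1125899906842624) .dd))) (.br
 (nat_lit 6) (.ch (nat_lit 4) (.ev (nat_lit 1088) (nat_lit 5629499534213120) (.ev (nat_lit 1104) (nat_lit
 2199023255552) (.ev (nat_lit 1284) (nat_lit 1099511627776) (.ev (nat_lit 1293) (nat_lit 4398046511104)
 .dd))))) (.ch (nat_lit 6) (.ev (nat_lit 1088) (nat_lit 1125899906842624) (.ev (nat_lit 1204) (nat_lit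
 4398046511104) (.ev (nat_lit 1540) (nat_lit 4503599627370496) (.nd (nat_lit 1728) (.br (nat_lit 5) (.ch
 (nat_lit 2) (.fin (nat_lit 576454704977363459))) (.ch (nat_lit 5) (.ev (nat_lit 1744) (nat_lit 3298534883328)
 .dd))))))))))))))) (.br (nat_lit 5) (.ch (nat_lit 3) (.ev (nat_lit 1008) (nat_lit 5631698557468736) (.nd
 (nat_lit 1072) (.br (nat_lit 4) (.br (nat_lit 2) (.ch (nat_lit 1) (.ev (nat_lit 1088) (nat_lit 1100048760832)
 (.ev (nat_lit 1156) (nat_lit 4672924451328) (.fin (nat_lit 576462401571340866))))) (.ch (nat_lit 2) (.ev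
 (nat_lit 1088) (nat_lit 4673461684736) (.ev (nat_lit 1156) (nat_lit 32768) (.ev (nat_lit 1165) (nat_lit
 1099511627776) .dd))))) (.br (nat_lit 6) (.ch (nat_lit 4) (.ev (nat_lit 1088) (nat_lit 1100048501248) (.ev
 (nat_lit 1156) (nat_lit 274878169088) (.ev (nat_lit 1168) (nat_lit 4398046511104) (.ev (nat_lit 1184) (nat_lit
 131072) (.ev (nat_lit 1197) (nat_lit 32768) .dd)))))) (.ch (nat_lit 6) (.ev (nat_lit 1088) (nat_lit
 1374389928448) (.ev (nat_lit 1120) (nat_lit 2048) (.ev (nat_lit 1204) (nat_lit 32768) (.ev (nat_lit 1348)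
 (nat_lit 4398046511104) (.ev (nat_lit 1357) (nat_lit 536870912) .dd))))))))))) (.ch (nat_lit 5) (.ev (nat_lit
 1008) (nat_lit 5633073484267584) (.nd (nat_lit 1072) (.br (nat_lit 5) (.ch (nat_lit 1) (.ev (nat_lit 1088)
 (nat_lit 32768) (.ev (nat_lit 1168) (nat_lit 2048) (.ev (nat_lit 1284) (nat_lit 4398046511104) (.ev (nat_lit
 1293) (nat_lit 512) .dd))))) (.br (nat_lit 6) (.ch (nat_lit 5) (.ev (nat_lit 1088) (nat_lit 2560) (.ev
 (nat_lit 1216) (nat_lit 32768) (.ev (nat_lit 1229) (nat_lit 4398046511104) .dd)))) (.ch (nat_lit 6) (.ev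
 (nat_lit 1088) (nat_lit 4398046546432) .dd)))))))))))))) (.br (nat_lit 18) (.ch (nat_lit 16) (.ev (nat_lit 52)
 (nat_lit 4507107009626176) (.ev (nat_lit 276) (nat_lit 8796093022208) (.ev (nat_lit 308) (nat_lit 16777216)
 (.ev (nat_lit 500) (nat_lit 281474976710656) (.ev (nat_lit 532) (nat_lit 2097152) (.ev (nat_lit 960) (nat_lit
 4398046511104) (.nd (nat_lit 992) (.br (nat_lit 2) (.ch (nat_lit 0) (.ev (nat_lit 1008) (nat_lit
 1126724809033728) (.nd (nat_lit 1072) (.br (nat_lit 3) (.ch (nat_lit 2) (.ev (nat_lit 1088) (nat_lit 69632)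
 (.ev (nat_lit 1504) (nat_lit 70368744177664) (.ev (nat_lit 1517) (nat_lit 512) .dd)))) (.br (nat_lit 5) (.ch
 (nat_lit 3) (.ev (nat_lit 1088) (nat_lit 70368744243712) (.ev (nat_lit 1101) (nat_lit 4096) .dd))) (.ch
 (nat_lit 5) (.ev (nat_lit 1088) (nat_lit 512) (.ev (nat_lit 1156) (nat_lit 70368744243200) (.ev (nat_lit 1165)
 (nat_lit 4096) .dd))))))))) (.br (nat_lit 3) (.ch (nat_lit 2) (.ev (nat_lit 1008) (nat_lit 70643890620928)
 (.nd (nat_lit 1072) (.br (nat_lit 4) (.ch (nat_lit 3) (.ev (nat_lit 1088) (nat_lit 1126449662660608) .dd))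
 (.br (nat_lit 6) (.ch (nat_lit 4) (.ev (nat_lit 1156) (nat_lit 1126449662656512) (.ev (nat_lit 1165) (nat_lit
 4096) .dd))) (.ch (nat_lit 6) (.ev (nat_lit 1088) (nat_lit 1126449662656512) (.ev (nat_lit 1101) (nat_lit
 4096) .dd)))))))) (.ch (nat_lit 3) (.ev (nat_lit 1008) (nat_lit 70918500061184) (.nd (nat_lit 1072) (.br
 (nat_lit 5) (.br (nat_lit 4) (.ch (nat_lit 2) (.ev (nat_lit 1088) (nat_lit 275146344960) (.ev (nat_lit 1156)
 (nat_lit 1125899906842624) (.ev (nat_lit 1165) (nat_lit 32768) .dd)))) (.ch (nat_lit 4) (.ev (nat_lit 1088)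
 (nat_lit 275146344960) (.ev (nat_lit 1156) (nat_lit 32768) (.ev (nat_lit 1165) (nat_lit 1125899906842624)
 .dd))))) (.br (nat_lit 6) (.ch (nat_lit 5) (.ev (nat_lit 1088) (nat_lit 32768) (.ev (nat_lit 1204) (nat_lit
 268435456) (.ev (nat_lit 1392) (nat_lit 512) (.ev (nat_lit 1540) (nat_lit 1125899906842624) (.fin (nat_lit
 576408525516259857))))))) (.ch (nat_lit 6) (.ev (nat_lit 1088) (nat_lit 274877907456) (.ev (nat_lit 1156)
 (nat_lit 32768) (.ev (nat_lit 1168) (nat_lit 2048) (.ev (nat_lit 1204) (nat_lit 1125899906842624) (.ev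
 (nat_lit 1213) (nat_lit 268435456) .dd))))))))))))))))))))) (.ch (nat_lit 18) (.ev (nat_lit 52) (nat_lit
 72088899551296) (.ev (nat_lit 84) (nat_lit 4398046773248) (.ev (nat_lit 180) (nat_lit 2199023386624) (.ev
 (nat_lit 596) (nat_lit 281474976776192) (.nd (nat_lit 992) (.br (nat_lit 3) (.br (nat_lit 2) (.ch (nat_lit 0)
 (.ev (nat_lit 1008) (nat_lit 1126175053220352) (.nd (nat_lit 1072) (.br (nat_lit 4) (.br (nat_lit 3) (.ch
 (nat_lit 2) (.ev (nat_lit 1088) (nat_lit 137975828480) (.ev (nat_lit 1204) (nat_lit 8796093022208) (.ev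
 (nat_lit 1716) (nat_lit 2097152) (.ev (nat_lit 1725) (nat_lit 4503599627370496) .dd))))) (.ch (nat_lit 3) (.ev
 (nat_lit 1088) (nat_lit 8933531979776) (.ev (nat_lit 1204) (nat_lit 4503599627370496) (.fin (nat_lit
 576443709814948405)))))) (.br (nat_lit 5) (.ch (nat_lit 4) (.ev (nat_lit 1088) (nat_lit 8933531975680) (.ev
 (nat_lit 1168) (nat_lit 2097152) (.ev (nat_lit 1184) (nat_lit 536870912) (.ev (nat_lit 1424) (nat_lit
 4503599627370496) (.ev (nat_lit 1437) (nat_lit 4096) .dd)))))) (.ch (nat_lit 5) (.ev (nat_lit 1088) (nat_lit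
 4503600166342656) (.ev (nat_lit 1348) (nat_lit 137438953472) (.ev (nat_lit 1357) (nat_lit 8796093022208)
 .dd))))))))) (.ch (nat_lit 2) (.ev (nat_lit 1008) (nat_lit 1126175592187904) (.nd (nat_lit 1072) (.br (nat_lit
 4) (.br (nat_lit 3) (.ch (nat_lit 0) (.ev (nat_lit 1088) (nat_lit 4503599627375104) (.ev (nat_lit 1284)
 (nat_lit 137438953472) (.ev (nat_lit 1293) (nat_lit 8796093022208) .dd)))) (.ch (nat_lit 3) (.ev (nat_lit
 1088) (nat_lit 4512395720397312) (.ev (nat_lit 1101) (nat_lit 137438953472) .dd)))) (.br (nat_lit 6) (.ch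
 (nat_lit 4) (.ev (nat_lit 1088) (nat_lit 4512533159346176) (.ev (nat_lit 1312) (nat_lit 4096) (.ev (nat_lit
 1325) (nat_lit 512) .dd)))) (.ch (nat_lit 6) (.ev (nat_lit 1088) (nat_lit 8933531980288) (.ev (nat_lit 1101)
 (nat_lit 4503599627370496) .dd))))))))) (.br (nat_lit 5) (.ch (nat_lit 3) (.ev (nat_lit 1008) (nat_lit
 5638707944100352) (.nd (nat_lit 1072) (.br (nat_lit 4) (.br (nat_lit 2) (.ch (nat_lit 1) (.ev (nat_lit 1088)
 (nat_lit 539000832) (.ev (nat_lit 1284) (nat_lit 268435456) (.ev (nat_lit 1293) (nat_lit 2048) .dd)))) (.ch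
 (nat_lit 2) (.ev (nat_lit 1088) (nat_lit 270567424) (.ev (nat_lit 1101) (nat_lit 536870912) .dd)))) (.br
 (nat_lit 5) (.ch (nat_lit 4) (.ev (nat_lit 1088) (nat_lit 805308416) (.ev (nat_lit 1312) (nat_lit 32768) (.ev
 (nat_lit 1325) (nat_lit 2097152) .dd)))) (.ch (nat_lit 5) (.ev (nat_lit 1088) (nat_lit 539002880) (.ev
 (nat_lit 1101) (nat_lit 268435456) .dd)))))))) (.br (nat_lit 6) (.ch (nat_lit 5) (.ev (nat_lit 1008) (nat_lit
 1135108318826496) (.nd (nat_lit 1072) (.br (nat_lit 5) (.br (nat_lit 1) (.ch (nat_lit 0) (.ev (nat_lit 1088)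
 (nat_lit 268470272) (.ev (nat_lit 1204) (nat_lit 536870912) (.fin (nat_lit 576443709934486069))))) (.ch
 (nat_lit 1) (.ev (nat_lit 1088) (nat_lit 4503599895838720) (.ev (nat_lit 1204) (nat_lit 2048) (.ev (nat_lit
 1716) (nat_lit 512) (.ev (nat_lit 1725) (nat_lit 536870912) .dd)))))) (.br (nat_lit 6) (.ch (nat_lit 5) (.ev
 (nat_lit 1088) (nat_lit 4503600164274688) (.ev (nat_lit 1348) (nat_lit 268435456) (.ev (nat_lit 1357) (nat_lit
 2048) .dd)))) (.ch (nat_lit 6) (.ev (nat_lit 1088) (nat_lit 268437504) (.ev (nat_lit 1168) (nat_lit 512) (.ev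
 (nat_lit 1184) (nat_lit 4503599627370496) (.ev (nat_lit 1424) (nat_lit 536870912) (.ev (nat_lit 1437) (nat_lit
 32768) .dd))))))))))) (.ch (nat_lit 6) (.ev (nat_lit 1008) (nat_lit 4512533966789120) (.nd (nat_lit 1072) (.br
 (nat_lit 2) (.br (nat_lit 1) (.ch (nat_lit 0) (.ev (nat_lit 1088) (nat_lit 274877906944) (.ev (nat_lit 1101)
 (nat_lit 1125899906842624) .dd))) (.ch (nat_lit 1) (.ev (nat_lit 1088) (nat_lit 1125899906842624) (.ev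
 (nat_lit 1101) (nat_lit 274877906944) .dd)))) (.br (nat_lit 3) (.ch (nat_lit 2) (.ev (nat_lit 1088) (nat_lit
 1126174784749568) .dd)) (.br (nat_lit 4) (.ch (nat_lit 3) (.ev (nat_lit 1088) (nat_lit 274877906944) (.ev
 (nat_lit 1101) (nat_lit 1125899906842624) .dd))) (.ch (nat_lit 4) (.ev (nat_lit 1088) (nat_lit
 1125899906842624) (.ev (nat_lit 1101) (nat_lit 274877906944) .dd)))))))))))))))))))) (.br (nat_lit 21) (.br
 (nat_lit 20) (.ch (nat_lit 19) (.ev (nat_lit 52) (nat_lit 285666885896192) (.ev (nat_lit 244) (nat_lit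
 8796093022208) (.ev (nat_lit 276) (nat_lit 2147483648) (.ev (nat_lit 340) (nat_lit 64) (.ev (nat_lit 372)
 (nat_lit 4096) (.ev (nat_lit 500) (nat_lit 2097152) (.ev (nat_lit 532) (nat_lit 536870912) (.ev (nat_lit 656)
 (nat_lit 4507997942317056) (.nd (nat_lit 992) (.br (nat_lit 5) (.ch (nat_lit 2) (.ev (nat_lit 1008) (nat_lit
 70368744276480) (.nd (nat_lit 1072) (.br (nat_lit 3) (.ch (nat_lit 2) (.ev (nat_lit 1088) (nat_lit
 1126037345796096) (.ev (nat_lit 1101) (nat_lit 262144) .dd))) (.br (nat_lit 6) (.ch (nat_lit 3) (.ev (nat_lit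
 1088) (nat_lit 262144) (.ev (nat_lit 1504) (nat_lit 1126037345796096) .dd))) (.ch (nat_lit 6) (.ev (nat_lit
 1088) (nat_lit 1126037346058240) .dd))))))) (.br (nat_lit 6) (.ch (nat_lit 5) (.ev (nat_lit 1008) (nat_lit
 1196406090039296) (.nd (nat_lit 1072) (.br (nat_lit 1) (.ch (nat_lit 0) (.ev (nat_lit 1088) (nat_lit 33280)
 (.ev (nat_lit 1101) (nat_lit 262144) .dd))) (.br (nat_lit 6) (.ch (nat_lit 1) (.ev (nat_lit 1088) (nat_lit
 295424) .dd)) (.ch (nat_lit 6) (.ev (nat_lit 1088) (nat_lit 262144) (.fin (nat_lit 576462401583923778)))))))))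
 (.ch (nat_lit 6) (.ev (nat_lit 1008) (nat_lit 295424) (.nd (nat_lit 1072) (.br (nat_lit 1) (.ch (nat_lit 0)
 (.ev (nat_lit 1424) (nat_lit 70368744177664) (.ev (nat_lit 1492) (nat_lit 137438953472) (.fin (nat_lit
 576474496169886282))))) (.br (nat_lit 4) (.ch (nat_lit 1) (.ev (nat_lit 1088) (nat_lit 1196268651085824) (.ev
 (nat_lit 1101) (nat_lit 137438953472) .dd))) (.ch (nat_lit 4) (.ev (nat_lit 1088) (nat_lit 1126037345861632)
 (.ev (nat_lit 1101) (nat_lit 70368744177664) .dd)))))))))))))))))))) (.ch (nat_lit 20) (.ev (nat_lit 52)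
 (nat_lit 4575961238700096) (.ev (nat_lit 192) (nat_lit 1422908459325952) .dd)))) (.br (nat_lit 22) (.ch
 (nat_lit 21) (.ev (nat_lit 52) (nat_lit 1200941862819840) (.ev (nat_lit 180) (nat_lit 2147483648) (.ev
 (nat_lit 212) (nat_lit 8796093022208) (.ev (nat_lit 244) (nat_lit 2199023255552) (.ev (nat_lit 340) (nat_lit
 32768) (.ev (nat_lit 372) (nat_lit 1099511627776) (.ev (nat_lit 468) (nat_lit 4194304) (.ev (nat_lit 880)
 (nat_lit 262144) (.nd (nat_lit 992) (.br (nat_lit 3) (.ch (nat_lit 0) (.ev (nat_lit 1008) (nat_lit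
 550292685312) (.nd (nat_lit 1072) (.br (nat_lit 4) (.br (nat_lit 3) (.ch (nat_lit 2) (.ev (nat_lit 1088)
 (nat_lit 281681135140864) (.ev (nat_lit 1184) (nat_lit 131136) (.ev (nat_lit 1197) (nat_lit 4503599627370496)
 .dd)))) (.ch (nat_lit 3) (.ev (nat_lit 1088) (nat_lit 281681135140864) (.ev (nat_lit 1348) (nat_lit
 4503599627370496) (.ev (nat_lit 1492) (nat_lit 131072) (.ev (nat_lit 1501) (nat_lit 64) .dd)))))) (.br
 (nat_lit 6) (.ch (nat_lit 4) (.ev (nat_lit 1088) (nat_lit 131072) (.ev (nat_lit 1156) (nat_lit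
 281474976710656) (.ev (nat_lit 1204) (nat_lit 4503599627370496) (.ev (nat_lit 1348) (nat_lit 64) (.fin
 (nat_lit 576461302030352946))))))) (.ch (nat_lit 6) (.ev (nat_lit 1088) (nat_lit 137439084608) (.ev (nat_lit
 1156) (nat_lit 281474976710656) (.ev (nat_lit 1408) (nat_lit 68719476736) (.ev (nat_lit 1421) (nat_lit
 4503599627370496) .dd)))))))))) (.br (nat_lit 5) (.ch (nat_lit 3) (.ev (nat_lit 1008) (nat_lit
 4785830518325248) (.nd (nat_lit 1072) (.br (nat_lit 5) (.br (nat_lit 4) (.ch (nat_lit 1) (.ev (nat_lit 1204)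
 (nat_lit 512) (.ev (nat_lit 1348) (nat_lit 131072) (.ev (nat_lit 1360) (nat_lit 536870912) (.ev (nat_lit 1373)
 (nat_lit 64) .dd))))) (.ch (nat_lit 4) (.ev (nat_lit 1088) (nat_lit 537001984) (.ev (nat_lit 1168) (nat_lit
 64) (.ev (nat_lit 1181) (nat_lit 512) .dd))))) (.br (nat_lit 6) (.ch (nat_lit 5) (.ev (nat_lit 1088) (nat_lit
 537002048) (.ev (nat_lit 1101) (nat_lit 512) .dd))) (.ch (nat_lit 6) (.ev (nat_lit 1088) (nat_lit 131072) (.ev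
 (nat_lit 1312) (nat_lit 536870912) (.ev (nat_lit 1492) (nat_lit 64) (.ev (nat_lit 1501) (nat_lit 512)
 .dd)))))))))) (.ch (nat_lit 5) (.ev (nat_lit 1008) (nat_lit 281681672142912) (.nd (nat_lit 1072) (.br (nat_lit
 1) (.ch (nat_lit 0) (.ev (nat_lit 1088) (nat_lit 4503599627371008) (.ev (nat_lit 1101) (nat_lit 549755813888)
 .dd))) (.br (nat_lit 6) (.ch (nat_lit 1) (.ev (nat_lit 1088) (nat_lit 4504149383184384) (.ev (nat_lit 1101)
 (nat_lit 512) .dd))) (.ch (nat_lit 6) (.ev (nat_lit 1088) (nat_lit 549755814400) (.ev (nat_lit 1101) (nat_lit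
 4503599627370496) .dd)))))))))))))))))))) (.ch (nat_lit 22) (.ev (nat_lit 52) (nat_lit 1208434146082880) (.ev
 (nat_lit 244) (nat_lit 2048) (.ev (nat_lit 276) (nat_lit 4194304) (.ev (nat_lit 340) (nat_lit 549755813888)
 (.ev (nat_lit 372) (nat_lit 32768) (.ev (nat_lit 500) (nat_lit 512) (.ev (nat_lit 532) (nat_lit
 4503599627370496) (.ev (nat_lit 672) (nat_lit 137976086528) (.nd (nat_lit 992) (.br (nat_lit 3) (.ch (nat_lit
 0) (.ev (nat_lit 1008) (nat_lit 281750139830272) (.nd (nat_lit 1072) (.br (nat_lit 3) (.ch (nat_lit 2) (.ev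
 (nat_lit 1088) (nat_lit 4398048612352) .dd)) (.br (nat_lit 4) (.ch (nat_lit 3) (.ev (nat_lit 1088) (nat_lit
 2101248) (.ev (nat_lit 1101) (nat_lit 4398046511104) .dd))) (.ch (nat_lit 4) (.ev (nat_lit 1088) (nat_lit
 4398046511104) (.fin (nat_lit 576462401560855106))))))))) (.br (nat_lit 6) (.ch (nat_lit 3) (.ev (nat_lit
 1008) (nat_lit 281474995589120) (.nd (nat_lit 1072) (.br (nat_lit 5) (.ch (nat_lit 2) (.ev (nat_lit 1088)
 (nat_lit 4673192853504) .dd)) (.br (nat_lit 6) (.ch (nat_lit 5) (.ev (nat_lit 1088) (nat_lit 4398046511104)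
 (.ev (nat_lit 1504) (nat_lit 275146342400) .dd))) (.ch (nat_lit 6) (.ev (nat_lit 1088) (nat_lit 275146342400)
 (.ev (nat_lit 1101) (nat_lit 4398046511104) .dd)))))))) (.ch (nat_lit 6) (.ev (nat_lit 1008) (nat_lit
 4398048612352) (.nd (nat_lit 1072) (.br (nat_lit 3) (.ch (nat_lit 0) (.ev (nat_lit 1088) (nat_lit
 281750123053056) (.ev (nat_lit 1101) (nat_lit 16777216) .dd))) (.br (nat_lit 4) (.ch (nat_lit 3) (.ev (nat_lit
 1088) (nat_lit 281749871394816) (.ev (nat_lit 1101) (nat_lit 268435456) .dd))) (.ch (nat_lit 4) (.ev (nat_lit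
 1424) (nat_lit 16777216) (.ev (nat_lit 1492) (nat_lit 268435456) (.fin (nat_lit
 576474496230703690)))))))))))))))))))))))))) (.br (nat_lit 33) (.br (nat_lit 28) (.br (nat_lit 26) (.ch
 (nat_lit 25) (.ev (nat_lit 52) (nat_lit 292883219419200) (.ev (nat_lit 84) (nat_lit 131072) (.ev (nat_lit 308)
 (nat_lit 4398046511104) (.ev (nat_lit 340) (nat_lit 512) (.ev (nat_lit 404) (nat_lit 1099511627776) (.ev
 (nat_lit 436) (nat_lit 2048) (.ev (nat_lit 720) (nat_lit 70437480693760) (.nd (nat_lit 992) (.br (nat_lit 5)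
 (.ch (nat_lit 2) (.ev (nat_lit 1008) (nat_lit 4503599627403264) (.nd (nat_lit 1072) (.br (nat_lit 3) (.ch
 (nat_lit 0) (.ev (nat_lit 1088) (nat_lit 549757911040) (.ev (nat_lit 1136) (nat_lit 1125902054326272) .dd)))
 (.br (nat_lit 4) (.ch (nat_lit 3) (.ev (nat_lit 1088) (nat_lit 1126449662656512) (.ev (nat_lit 1204) (nat_lit
 2147483648) (.ev (nat_lit 1213) (nat_lit 2097152) .dd)))) (.ch (nat_lit 4) (.ev (nat_lit 1088) (nat_lit
 2149580800) (.ev (nat_lit 1204) (nat_lit 1125899906842624) (.ev (nat_lit 1213) (nat_lit 549755813888)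
 .dd))))))))) (.br (nat_lit 6) (.ch (nat_lit 5) (.ev (nat_lit 1008) (nat_lit 1126449662689280) (.nd (nat_lit
 1072) (.br (nat_lit 1) (.ch (nat_lit 0) (.ev (nat_lit 1088) (nat_lit 2097152) (.ev (nat_lit 1104) (nat_lit
 4503599627370496) (.ev (nat_lit 1117) (nat_lit 2147483648) .dd)))) (.br (nat_lit 6) (.ch (nat_lit 1) (.ev
 (nat_lit 1088) (nat_lit 4503599627370496) (.ev (nat_lit 1348) (nat_lit 2097152) (.ev (nat_lit 1357) (nat_lit
 2147483648) .dd)))) (.ch (nat_lit 6) (.ev (nat_lit 1088) (nat_lit 2149580800) (.ev (nat_lit 1101) (nat_lit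
 4503599627370496) .dd)))))))) (.ch (nat_lit 6) (.ev (nat_lit 1008) (nat_lit 4503601776951296) (.nd (nat_lit
 1072) (.br (nat_lit 3) (.ch (nat_lit 2) (.ev (nat_lit 1088) (nat_lit 32768) (.ev (nat_lit 1440) (nat_lit
 549755813888) (.ev (nat_lit 1453) (nat_lit 1125899906842624) .dd)))) (.br (nat_lit 4) (.ch (nat_lit 3) (.ev
 (nat_lit 1088) (nat_lit 549755813888) (.ev (nat_lit 1104) (nat_lit 32768) (.ev (nat_lit 1117) (nat_lit
 1125899906842624) .dd)))) (.ch (nat_lit 4) (.ev (nat_lit 1088) (nat_lit 1126449662656512) (.ev (nat_lit 1101)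
 (nat_lit 32768) .dd))))))))))))))))))) (.br (nat_lit 27) (.ch (nat_lit 26) (.ev (nat_lit 52) (nat_lit
 5645786589171712) (.ev (nat_lit 180) (nat_lit 262144) (.ev (nat_lit 276) (nat_lit 70368744177664) (.ev
 (nat_lit 308) (nat_lit 2048) (.ev (nat_lit 340) (nat_lit 137438953472) (.ev (nat_lit 436) (nat_lit 131072)
 (.ev (nat_lit 848) (nat_lit 64) (.nd (nat_lit 992) (.br (nat_lit 5) (.ch (nat_lit 2) (.ev (nat_lit 1008)
 (nat_lit 282574777844224) (.ev (nat_lit 1021) (nat_lit 2147483648) .dd))) (.br (nat_lit 6) (.ch (nat_lit 5)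
 (.ev (nat_lit 1008) (nat_lit 4194304) (.nd (nat_lit 1072) (.br (nat_lit 5) (.ch (nat_lit 4) (.ev (nat_lit
 1088) (nat_lit 1099780162048) (.ev (nat_lit 1156) (nat_lit 2147483648) (.ev (nat_lit 1204) (nat_lit
 281474976710656) (.ev (nat_lit 1213) (nat_lit 16777216) .dd))))) (.br (nat_lit 6) (.ch (nat_lit 5) (.ev
 (nat_lit 1088) (nat_lit 1101944357376) (.ev (nat_lit 1136) (nat_lit 281474976710656) (.ev (nat_lit 1149)
 (nat_lit 65536) .dd)))) (.ch (nat_lit 6) (.ev (nat_lit 1088) (nat_lit 281477141037056) (.nd (nat_lit 1728)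
 (.br (nat_lit 4) (.ch (nat_lit 0) (.ev (nat_lit 1744) (nat_lit 1099780063232) (.fin (nat_lit
 576462401583923778)))) (.ch (nat_lit 4) (.ev (nat_lit 1744) (nat_lit 33280) (.fin (nat_lit
 576461302091170354))))))))))))) (.ch (nat_lit 6) (.ev (nat_lit 1008) (nat_lit 282576904356352) (.nd (nat_lit
 1072) (.br (nat_lit 1) (.ch (nat_lit 0) (.ev (nat_lit 1120) (nat_lit 16777216) (.ev (nat_lit 1133) (nat_lit
 4194304) .dd))) (.br (nat_lit 2) (.ch (nat_lit 1) (.ev (nat_lit 1088) (nat_lit 16777216) (.ev (nat_lit 1101)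
 (nat_lit 4194304) .dd))) (.ch (nat_lit 2) (.ev (nat_lit 1088) (nat_lit 20971520) .dd)))))))))))))))))) (.ch
 (nat_lit 27) (.ev (nat_lit 52) (nat_lit 288485185425408) (.ev (nat_lit 180) (nat_lit 70368744177664) (.ev
 (nat_lit 276) (nat_lit 262144) (.ev (nat_lit 340) (nat_lit 65536) (.ev (nat_lit 372) (nat_lit 2097152) (.nd
 (nat_lit 992) (.br (nat_lit 5) (.br (nat_lit 3) (.ch (nat_lit 2) (.ev (nat_lit 1008) (nat_lit
 4504149387414080) (.nd (nat_lit 1072) (.br (nat_lit 3) (.ch (nat_lit 0) (.ev (nat_lit 1088) (nat_lit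
 1168231104512) (.ev (nat_lit 1104) (nat_lit 131072) (.ev (nat_lit 1156) (nat_lit 1125899906842624) (.ev
 (nat_lit 1284) (nat_lit 2147483648) (.ev (nat_lit 1293) (nat_lit 8796093022208) .dd)))))) (.br (nat_lit 6)
 (.ch (nat_lit 3) (.ev (nat_lit 1088) (nat_lit 1170378719232) (.nd (nat_lit 1728) (.br (nat_lit 5) (.ch
 (nat_lit 2) (.fin (nat_lit 576514078632526447))) (.ch (nat_lit 5) (.ev (nat_lit 1744) (nat_lit
 1134695999864832) .dd)))))) (.ch (nat_lit 6) (.ev (nat_lit 1088) (nat_lit 1134695999995904) (.ev (nat_lit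
 1104) (nat_lit 68719476736) (.ev (nat_lit 1392) (nat_lit 2147483648) (.ev (nat_lit 1405) (nat_lit
 1099511627776) .dd)))))))))) (.ch (nat_lit 3) (.ev (nat_lit 1008) (nat_lit 4512945476239360) (.nd (nat_lit
 1072) (.br (nat_lit 5) (.br (nat_lit 2) (.ch (nat_lit 1) (.ev (nat_lit 1088) (nat_lit 1127068137947648) (.ev
 (nat_lit 1156) (nat_lit 2151678016) (.fin (nat_lit 576462401571340866))))) (.ch (nat_lit 2) (.ev (nat_lit
 1088) (nat_lit 1099511630400) (.ev (nat_lit 1156) (nat_lit 68723671040) (.ev (nat_lit 1168) (nat_lit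
 2147483648) (.ev (nat_lit 1184) (nat_lit 131072) (.ev (nat_lit 1197) (nat_lit 1125899906842624) .dd)))))))
 (.br (nat_lit 6) (.ch (nat_lit 5) (.ev (nat_lit 1088) (nat_lit 68723802688) (.ev (nat_lit 1120) (nat_lit 2048)
 (.ev (nat_lit 1204) (nat_lit 1125899906842624) (.ev (nat_lit 1492) (nat_lit 2147483648) (.ev (nat_lit 1501)
 (nat_lit 1099511627776) .dd)))))) (.ch (nat_lit 6) (.ev (nat_lit 1088) (nat_lit 1170382915648) (.ev (nat_lit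
 1156) (nat_lit 1125899906842624) (.ev (nat_lit 1165) (nat_lit 512) .dd)))))))))) (.br (nat_lit 6) (.ch
 (nat_lit 5) (.ev (nat_lit 1008) (nat_lit 1135864235296832) (.nd (nat_lit 1072) (.br (nat_lit 4) (.br (nat_lit
 1) (.ch (nat_lit 0) (.ev (nat_lit 1088) (nat_lit 549755813888) (.ev (nat_lit 1204) (nat_lit 2147483648) (.ev
 (nat_lit 1540) (nat_lit 32768) (.nd (nat_lit 1728) (.br (nat_lit 2) (.ch (nat_lit 1) (.fin (nat_lit
 576478894187037259))) (.ch (nat_lit 2) (.ev (nat_lit 1744) (nat_lit 4503599627371008) .dd)))))))) (.ch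
 (nat_lit 1) (.ev (nat_lit 1088) (nat_lit 4504149383217664) (.ev (nat_lit 1101) (nat_lit 2147483648) .dd))))
 (.br (nat_lit 5) (.ch (nat_lit 4) (.ev (nat_lit 1088) (nat_lit 549755846656) (.ev (nat_lit 1104) (nat_lit
 4503599627370496) (.ev (nat_lit 1456) (nat_lit 512) (.ev (nat_lit 1469) (nat_lit 2147483648) .dd))))) (.br
 (nat_lit 6) (.ch (nat_lit 5) (.ev (nat_lit 1088) (nat_lit 4503601774854656) (.ev (nat_lit 1376) (nat_lit
 32768) (.ev (nat_lit 1389) (nat_lit 549755813888) .dd)))) (.ch (nat_lit 6) (.ev (nat_lit 1088) (nat_lit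
 4503601774887424) (.ev (nat_lit 1101) (nat_lit 549755813888) .dd))))))))) (.ch (nat_lit 6) (.ev (nat_lit 1008)
 (nat_lit 4514113711669760) (.nd (nat_lit 1072) (.br (nat_lit 3) (.ch (nat_lit 1) (.ev (nat_lit 1088) (nat_lit
 1125902054328384) .dd)) (.br (nat_lit 4) (.ch (nat_lit 3) (.ev (nat_lit 1088) (nat_lit 2112) (.ev (nat_lit
 1216) (nat_lit 1125899906842624) (.ev (nat_lit 1229) (nat_lit 2147483648) .dd)))) (.ch (nat_lit 4) (.ev
 (nat_lit 1088) (nat_lit 1125899906842624) (.ev (nat_lit 1168) (nat_lit 2048) (.ev (nat_lit 1492) (nat_lit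
 2147483648) (.ev (nat_lit 1501) (nat_lit 64) .dd))))))))))))))))))))) (.br (nat_lit 31) (.br (nat_lit 29) (.ch
 (nat_lit 28) (.ev (nat_lit 52) (nat_lit 5911664121841664) (.ev (nat_lit 84) (nat_lit 2199023255552) (.ev
 (nat_lit 308) (nat_lit 262144) (.ev (nat_lit 340) (nat_lit 2097152) (.ev (nat_lit 404) (nat_lit 68719476736)
 (.ev (nat_lit 436) (nat_lit 8796093022208) (.ev (nat_lit 704) (nat_lit 75866319093760) (.nd (nat_lit 992) (.br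
 (nat_lit 3) (.ch (nat_lit 0) (.ev (nat_lit 1008) (nat_lit 274877911104) (.nd (nat_lit 1072) (.br (nat_lit 3)
 (.ch (nat_lit 2) (.ev (nat_lit 1088) (nat_lit 536870912) (.ev (nat_lit 1348) (nat_lit 512) (.ev (nat_lit 1357)
 (nat_lit 4194304) .dd)))) (.br (nat_lit 4) (.ch (nat_lit 3) (.ev (nat_lit 1088) (nat_lit 512) (.ev (nat_lit
 1104) (nat_lit 536870912) (.ev (nat_lit 1117) (nat_lit 4194304) .dd)))) (.ch (nat_lit 4) (.ev (nat_lit 1088)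
 (nat_lit 4194816) (.ev (nat_lit 1101) (nat_lit 536870912) .dd)))))))) (.br (nat_lit 6) (.ch (nat_lit 3) (.ev
 (nat_lit 1008) (nat_lit 536875008) (.nd (nat_lit 1072) (.br (nat_lit 4) (.ch (nat_lit 1) (.ev (nat_lit 1088)
 (nat_lit 576) (.ev (nat_lit 1136) (nat_lit 274882101248) .dd))) (.br (nat_lit 5) (.ch (nat_lit 4) (.ev
 (nat_lit 1088) (nat_lit 4194816) (.ev (nat_lit 1204) (nat_lit 274877906944) (.ev (nat_lit 1213) (nat_lit 64)
 .dd)))) (.ch (nat_lit 5) (.ev (nat_lit 1088) (nat_lit 274877907008) (.ev (nat_lit 1204) (nat_lit 4194304) (.ev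
 (nat_lit 1213) (nat_lit 512) .dd))))))))) (.ch (nat_lit 6) (.ev (nat_lit 1008) (nat_lit 541065728) (.nd
 (nat_lit 1072) (.br (nat_lit 1) (.ch (nat_lit 0) (.ev (nat_lit 1088) (nat_lit 274877907008) (.ev (nat_lit
 1101) (nat_lit 4096) .dd))) (.br (nat_lit 2) (.ch (nat_lit 1) (.ev (nat_lit 1088) (nat_lit 64) (.ev (nat_lit
 1104) (nat_lit 4096) (.ev (nat_lit 1117) (nat_lit 274877906944) .dd)))) (.ch (nat_lit 2) (.ev (nat_lit 1088)
 (nat_lit 4096) (.ev (nat_lit 1440) (nat_lit 64) (.ev (nat_lit 1453) (nat_lit 274877906944)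
 .dd)))))))))))))))))))) (.ch (nat_lit 29) (.ev (nat_lit 52) (nat_lit 5638710901082112) (.ev (nat_lit 212)
 (nat_lit 4398046773248) (.ev (nat_lit 468) (nat_lit 70368760954880) (.nd (nat_lit 992) (.br (nat_lit 3) (.br
 (nat_lit 2) (.ch (nat_lit 0) (.ev (nat_lit 1008) (nat_lit 285323269570560) (.nd (nat_lit 1072) (.br (nat_lit
 5) (.br (nat_lit 4) (.ch (nat_lit 3) (.ev (nat_lit 1088) (nat_lit 68719640576) (.ev (nat_lit 1204) (nat_lit
 512) (.ev (nat_lit 1632) (nat_lit 4160) .dd)))) (.ch (nat_lit 4) (.ev (nat_lit 1088) (nat_lit 68719608320)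
 (.ev (nat_lit 1204) (nat_lit 4096) (.fin (nat_lit 576459102977737297)))))) (.br (nat_lit 6) (.ch (nat_lit 5)
 (.ev (nat_lit 1088) (nat_lit 68719477248) (.ev (nat_lit 1168) (nat_lit 64) (.ev (nat_lit 1184) (nat_lit 32768)
 (.ev (nat_lit 1296) (nat_lit 4096) (.ev (nat_lit 1309) (nat_lit 131072) .dd)))))) (.ch (nat_lit 6) (.ev
 (nat_lit 1088) (nat_lit 163904) (.ev (nat_lit 1348) (nat_lit 68719480832) (.ev (nat_lit 1357) (nat_lit 512)
 .dd))))))))) (.ch (nat_lit 2) (.ev (nat_lit 1008) (nat_lit 284773513789504) (.nd (nat_lit 1072) (.br (nat_lit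
 3) (.br (nat_lit 2) (.ch (nat_lit 0) (.ev (nat_lit 1088) (nat_lit 68719481344) (.ev (nat_lit 1168) (nat_lit
 131072) (.ev (nat_lit 1181) (nat_lit 549755813888) .dd)))) (.ch (nat_lit 2) (.ev (nat_lit 1088) (nat_lit
 618475422208) (.ev (nat_lit 1101) (nat_lit 4096) .dd)))) (.br (nat_lit 6) (.ch (nat_lit 3) (.ev (nat_lit 1088)
 (nat_lit 549755949056) (.ev (nat_lit 1284) (nat_lit 68719476736) (.ev (nat_lit 1293) (nat_lit 512) .dd))))
 (.ch (nat_lit 6) (.ev (nat_lit 1088) (nat_lit 549755949568) (.ev (nat_lit 1101) (nat_lit 68719476736)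
 .dd))))))))) (.br (nat_lit 5) (.ch (nat_lit 3) (.ev (nat_lit 1008) (nat_lit 282093452202496) (.nd (nat_lit
 1072) (.br (nat_lit 5) (.br (nat_lit 2) (.ch (nat_lit 1) (.ev (nat_lit 1088) (nat_lit 1099513757696) (.ev
 (nat_lit 1168) (nat_lit 2199023255552) (.ev (nat_lit 1181) (nat_lit 64) .dd)))) (.ch (nat_lit 2) (.ev (nat_lit
 1088) (nat_lit 2199025385536) (.ev (nat_lit 1101) (nat_lit 1099511627776) .dd)))) (.br (nat_lit 6) (.ch
 (nat_lit 5) (.ev (nat_lit 1088) (nat_lit 2199023288384) (.ev (nat_lit 1284) (nat_lit 1099511627776) (.ev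
 (nat_lit 1293) (nat_lit 2097152) .dd)))) (.ch (nat_lit 6) (.ev (nat_lit 1088) (nat_lit 3298536980544) (.ev
 (nat_lit 1101) (nat_lit 32768) .dd)))))))) (.br (nat_lit 6) (.ch (nat_lit 5) (.ev (nat_lit 1008) (nat_lit
 281543696384576) (.nd (nat_lit 1072) (.br (nat_lit 5) (.br (nat_lit 4) (.ch (nat_lit 0) (.ev (nat_lit 1088)
 (nat_lit 3298534887424) (.ev (nat_lit 1204) (nat_lit 2097152) (.ev (nat_lit 1632) (nat_lit 549755846656)
 .dd)))) (.ch (nat_lit 4) (.ev (nat_lit 1088) (nat_lit 2748779073536) (.ev (nat_lit 1348) (nat_lit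
 1099511660544) (.ev (nat_lit 1357) (nat_lit 2097152) .dd))))) (.br (nat_lit 6) (.ch (nat_lit 5) (.ev (nat_lit
 1088) (nat_lit 1099513724928) (.ev (nat_lit 1168) (nat_lit 549755813888) (.ev (nat_lit 1184) (nat_lit 4096)
 (.ev (nat_lit 1296) (nat_lit 32768) (.ev (nat_lit 1309) (nat_lit 2199023255552) .dd)))))) (.ch (nat_lit 6)
 (.ev (nat_lit 1088) (nat_lit 3298536980480) (.ev (nat_lit 1204) (nat_lit 32768) (.fin (nat_lit
 576459103097274961)))))))))) (.ch (nat_lit 6) (.ev (nat_lit 1008) (nat_lit 3917012439616) (.nd (nat_lit 1072)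
 (.br (nat_lit 2) (.br (nat_lit 1) (.ch (nat_lit 0) (.ev (nat_lit 1088) (nat_lit 281474976710656) (.ev (nat_lit
 1101) (nat_lit 65536) .dd))) (.ch (nat_lit 1) (.ev (nat_lit 1088) (nat_lit 65536) (.ev (nat_lit 1101) (nat_lit
 281474976710656) .dd)))) (.br (nat_lit 3) (.ch (nat_lit 2) (.ev (nat_lit 1088) (nat_lit 281474976776192) .dd))
 (.br (nat_lit 4) (.ch (nat_lit 3) (.ev (nat_lit 1088) (nat_lit 281474976710656) (.ev (nat_lit 1101) (nat_lit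
 65536) .dd))) (.ch (nat_lit 4) (.ev (nat_lit 1088) (nat_lit 65536) (.ev (nat_lit 1101) (nat_lit
 281474976710656) .dd)))))))))))))))))) (.br (nat_lit 32) (.ch (nat_lit 31) (.ev (nat_lit 52) (nat_lit
 353083108459072) (.ev (nat_lit 468) (nat_lit 2048) (.nd (nat_lit 992) (.br (nat_lit 3) (.br (nat_lit 2) (.ch
 (nat_lit 0) (.ev (nat_lit 1008) (nat_lit 5636990494179328) (.nd (nat_lit 1072) (.br (nat_lit 4) (.ch (nat_lit
 2) (.ev (nat_lit 1088) (nat_lit 4096) (.ev (nat_lit 1168) (nat_lit 8796093022208) (.ev (nat_lit 1284) (nat_lit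
 262144) (.ev (nat_lit 1293) (nat_lit 2097152) .dd))))) (.br (nat_lit 5) (.ch (nat_lit 4) (.ev (nat_lit 1088)
 (nat_lit 8796095385600) .dd)) (.ch (nat_lit 5) (.ev (nat_lit 1088) (nat_lit 8796095119360) (.ev (nat_lit 1216)
 (nat_lit 4096) (.ev (nat_lit 1229) (nat_lit 262144) .dd))))))))) (.ch (nat_lit 2) (.ev (nat_lit 1008) (nat_lit
 825170722816) (.nd (nat_lit 1072) (.br (nat_lit 4) (.br (nat_lit 2) (.ch (nat_lit 0) (.ev (nat_lit 1088)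
 (nat_lit 4508066393358336) (.ev (nat_lit 1156) (nat_lit 1125899909206016) (.fin (nat_lit
 576462401573438018))))) (.ch (nat_lit 2) (.ev (nat_lit 1088) (nat_lit 1132565698183168) (.ev (nat_lit 1120)
 (nat_lit 8796093022208) (.ev (nat_lit 1204) (nat_lit 4096) (.ev (nat_lit 1348) (nat_lit 262144) (.ev (nat_lit
 1357) (nat_lit 4503599627370496) .dd))))))) (.br (nat_lit 6) (.ch (nat_lit 4) (.ev (nat_lit 1088) (nat_lit
 4512464441966592) (.ev (nat_lit 1156) (nat_lit 1130297953353728) (.ev (nat_lit 1168) (nat_lit 262144) (.ev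
 (nat_lit 1184) (nat_lit 2199023255552) (.ev (nat_lit 1197) (nat_lit 4096) .dd)))))) (.ch (nat_lit 6) (.ev
 (nat_lit 1088) (nat_lit 5644892699361280) (.ev (nat_lit 1156) (nat_lit 4096) (.ev (nat_lit 1165) (nat_lit
 68719476736) .dd)))))))))) (.br (nat_lit 5) (.ch (nat_lit 3) (.ev (nat_lit 1008) (nat_lit 5645442454917120)
 (.nd (nat_lit 1072) (.br (nat_lit 4) (.br (nat_lit 2) (.ch (nat_lit 1) (.ev (nat_lit 1088) (nat_lit
 68719869952) (.ev (nat_lit 1376) (nat_lit 536870912) (.ev (nat_lit 1389) (nat_lit 274877906944) .dd)))) (.ch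
 (nat_lit 2) (.ev (nat_lit 1088) (nat_lit 274877906944) (.ev (nat_lit 1204) (nat_lit 262144) (.ev (nat_lit
 1540) (nat_lit 536870912) (.nd (nat_lit 1728) (.br (nat_lit 6) (.ch (nat_lit 3) (.ev (nat_lit 1744) (nat_lit
 68719607808) .dd)) (.ch (nat_lit 6) (.fin (nat_lit 576454705004626435)))))))))) (.br (nat_lit 5) (.ch (nat_lit
 4) (.ev (nat_lit 1088) (nat_lit 275414777856) (.ev (nat_lit 1104) (nat_lit 131072) (.ev (nat_lit 1284)
 (nat_lit 68719476736) (.ev (nat_lit 1293) (nat_lit 262144) .dd))))) (.br (nat_lit 6) (.ch (nat_lit 5) (.ev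
 (nat_lit 1088) (nat_lit 69256740864) (.ev (nat_lit 1101) (nat_lit 274877906944) .dd))) (.ch (nat_lit 6) (.ev
 (nat_lit 1088) (nat_lit 344134385664) (.ev (nat_lit 1101) (nat_lit 262144) .dd))))))))) (.ch (nat_lit 5) (.ev
 (nat_lit 1008) (nat_lit 1135040136347648) (.nd (nat_lit 1072) (.br (nat_lit 4) (.ch (nat_lit 1) (.ev (nat_lit
 1088) (nat_lit 4507997673881600) (.ev (nat_lit 1104) (nat_lit 2199023255552) (.ev (nat_lit 1156) (nat_lit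
 4096) (.ev (nat_lit 1284) (nat_lit 262144) (.ev (nat_lit 1293) (nat_lit 549755813888) .dd)))))) (.br (nat_lit
 6) (.ch (nat_lit 4) (.ev (nat_lit 1088) (nat_lit 2748779073536) (.ev (nat_lit 1104) (nat_lit 4398046511104)
 (.ev (nat_lit 1248) (nat_lit 262144) (.ev (nat_lit 1261) (nat_lit 4503599627370496) .dd))))) (.ch (nat_lit 6)
 (.ev (nat_lit 1088) (nat_lit 4510196697399296) (.nd (nat_lit 1728) (.br (nat_lit 5) (.ch (nat_lit 0) (.fin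
 (nat_lit 576463501024248367))) (.ch (nat_lit 5) (.ev (nat_lit 1744) (nat_lit 549755817984)
 .dd))))))))))))))))) (.ch (nat_lit 32) (.ev (nat_lit 52) (nat_lit 4511917641170944) (.ev (nat_lit 276)
 (nat_lit 2048) (.ev (nat_lit 308) (nat_lit 70368744177664) (.ev (nat_lit 500) (nat_lit 65536) (.ev (nat_lit
 532) (nat_lit 512) (.ev (nat_lit 976) (nat_lit 262144) (.nd (nat_lit 992) (.br (nat_lit 3) (.ch (nat_lit 2)
 (.ev (nat_lit 1008) (nat_lit 281474993520704) (.nd (nat_lit 1072) (.br (nat_lit 4) (.br (nat_lit 3) (.ch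
 (nat_lit 2) (.ev (nat_lit 1088) (nat_lit 1125899908939776) (.ev (nat_lit 1156) (nat_lit 4096) (.ev (nat_lit
 1168) (nat_lit 8796093022208) (.ev (nat_lit 1204) (nat_lit 274877906944) (.ev (nat_lit 1213) (nat_lit
 137438953472) .dd)))))) (.ch (nat_lit 3) (.ev (nat_lit 1088) (nat_lit 4096) (.ev (nat_lit 1204) (nat_lit
 137438953472) (.ev (nat_lit 1392) (nat_lit 2097152) (.ev (nat_lit 1540) (nat_lit 274877906944) (.fin (nat_lit
 576408525488996881)))))))) (.br (nat_lit 6) (.ch (nat_lit 4) (.ev (nat_lit 1088) (nat_lit 1134833440915456)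
 (.ev (nat_lit 1156) (nat_lit 4096) (.ev (nat_lit 1165) (nat_lit 274877906944) .dd)))) (.ch (nat_lit 6) (.ev
 (nat_lit 1088) (nat_lit 1134833440915456) (.ev (nat_lit 1156) (nat_lit 274877906944) (.ev (nat_lit 1165)
 (nat_lit 4096) .dd))))))))) (.br (nat_lit 5) (.ch (nat_lit 3) (.ev (nat_lit 1008) (nat_lit 1416308434407424)
 (.nd (nat_lit 1072) (.br (nat_lit 4) (.ch (nat_lit 2) (.ev (nat_lit 1088) (nat_lit 274877907008) (.ev (nat_lit
 1101) (nat_lit 32768) .dd))) (.br (nat_lit 5) (.ch (nat_lit 4) (.ev (nat_lit 1156) (nat_lit 274877907008) (.ev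
 (nat_lit 1165) (nat_lit 32768) .dd))) (.ch (nat_lit 5) (.ev (nat_lit 1088) (nat_lit 274877939776) .dd)))))))
 (.ch (nat_lit 5) (.ev (nat_lit 1008) (nat_lit 1135108316729408) (.nd (nat_lit 1072) (.br (nat_lit 1) (.ch
 (nat_lit 0) (.ev (nat_lit 1088) (nat_lit 281474995585024) (.ev (nat_lit 1101) (nat_lit 32768) .dd))) (.br
 (nat_lit 5) (.ch (nat_lit 1) (.ev (nat_lit 1088) (nat_lit 281474976743424) (.ev (nat_lit 1504) (nat_lit
 16777216) (.ev (nat_lit 1517) (nat_lit 2097152) .dd)))) (.ch (nat_lit 5) (.ev (nat_lit 1088) (nat_lit 2097152)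
 (.ev (nat_lit 1156) (nat_lit 281474993487872) (.ev (nat_lit 1165) (nat_lit 32768) .dd))))))))))))))))))))))
 (.br (nat_lit 42) (.br (nat_lit 36) (.br (nat_lit 35) (.ch (nat_lit 33) (.ev (nat_lit 52) (nat_lit
 277847900224) (.ev (nat_lit 84) (nat_lit 2048) (.ev (nat_lit 148) (nat_lit 8796093022208) (.ev (nat_lit 244)
 (nat_lit 4398046511104) (.ev (nat_lit 532) (nat_lit 65536) (.ev (nat_lit 564) (nat_lit 549755813888) (.ev
 (nat_lit 596) (nat_lit 1125899906842624) (.nd (nat_lit 992) (.br (nat_lit 5) (.br (nat_lit 2) (.ch (nat_lit 0)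
 (.ev (nat_lit 1008) (nat_lit 3367260651520) (.nd (nat_lit 1072) (.br (nat_lit 4) (.br (nat_lit 3) (.ch
 (nat_lit 2) (.ev (nat_lit 1088) (nat_lit 4574105810505728) (.ev (nat_lit 1284) (nat_lit 281474976710656) (.ev
 (nat_lit 1293) (nat_lit 512) .dd)))) (.ch (nat_lit 3) (.ev (nat_lit 1088) (nat_lit 4574105810501632) (.ev
 (nat_lit 1168) (nat_lit 4096) (.ev (nat_lit 1184) (nat_lit 512) (.ev (nat_lit 1197) (nat_lit 281474976710656)
 .dd)))))) (.br (nat_lit 5) (.ch (nat_lit 4) (.ev (nat_lit 1088) (nat_lit 70368744177664) (.ev (nat_lit 1120)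
 (nat_lit 4503737066323968) (.ev (nat_lit 1348) (nat_lit 512) (.ev (nat_lit 1360) (nat_lit 281474976710656)
 (.ev (nat_lit 1373) (nat_lit 4096) .dd)))))) (.ch (nat_lit 5) (.ev (nat_lit 1088) (nat_lit 281474976711168)
 (.ev (nat_lit 1156) (nat_lit 4573968371548160) (.ev (nat_lit 1284) (nat_lit 4096) (.ev (nat_lit 1293) (nat_lit
 137438953472) .dd)))))))))) (.ch (nat_lit 2) (.ev (nat_lit 1008) (nat_lit 4855580787212288) (.nd (nat_lit
 1072) (.br (nat_lit 3) (.br (nat_lit 2) (.ch (nat_lit 0) (.ev (nat_lit 1088) (nat_lit 68721578496) (.ev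
 (nat_lit 1104) (nat_lit 1099511627776) (.ev (nat_lit 1328) (nat_lit 2199023255552) (.ev (nat_lit 1341)
 (nat_lit 4194304) .dd))))) (.ch (nat_lit 2) (.ev (nat_lit 1088) (nat_lit 3367258554880) (.ev (nat_lit 1216)
 (nat_lit 2101248) .dd)))) (.br (nat_lit 4) (.ch (nat_lit 3) (.ev (nat_lit 1088) (nat_lit 3367258558464) (.ev
 (nat_lit 1104) (nat_lit 512) (.ev (nat_lit 1117) (nat_lit 2097152) .dd)))) (.br (nat_lit 6) (.ch (nat_lit 4)
 (.ev (nat_lit 1088) (nat_lit 3298539077632) (.ev (nat_lit 1348) (nat_lit 2097152) (.ev (nat_lit 1376) (nat_lit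
 68719476736) (.ev (nat_lit 1556) (nat_lit 512) (.ev (nat_lit 1565) (nat_lit 4096) .dd)))))) (.ch (nat_lit 6)
 (.ev (nat_lit 1088) (nat_lit 2097664) (.ev (nat_lit 1156) (nat_lit 4194304) (.ev (nat_lit 1184) (nat_lit
 68719476736) (.ev (nat_lit 1204) (nat_lit 4096) (.nd (nat_lit 1728) (.br (nat_lit 6) (.ch (nat_lit 2) (.fin
 (nat_lit 576454704977363459))) (.ch (nat_lit 6) (.ev (nat_lit 1744) (nat_lit 3298534883328)
 .dd)))))))))))))))) (.br (nat_lit 6) (.ch (nat_lit 5) (.ev (nat_lit 1008) (nat_lit 4576373557428224) (.nd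
 (nat_lit 1072) (.br (nat_lit 5) (.ch (nat_lit 0) (.ev (nat_lit 1088) (nat_lit 282574488338432) (.ev (nat_lit
 1156) (nat_lit 512) (.ev (nat_lit 1204) (nat_lit 4096) (.ev (nat_lit 1213) (nat_lit 2097152) .dd))))) (.br
 (nat_lit 6) (.ch (nat_lit 5) (.ev (nat_lit 1088) (nat_lit 1099513725440) (.ev (nat_lit 1204) (nat_lit
 281474976710656) (.ev (nat_lit 1213) (nat_lit 4096) .dd)))) (.ch (nat_lit 6) (.ev (nat_lit 1088) (nat_lit
 4096) (.ev (nat_lit 1156) (nat_lit 1099511627776) (.ev (nat_lit 1284) (nat_lit 2097152) (.ev (nat_lit 1556)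
 (nat_lit 281474976710656) (.ev (nat_lit 1565) (nat_lit 512) .dd))))))))))) (.ch (nat_lit 6) (.ev (nat_lit
 1008) (nat_lit 4506966883828224) (.nd (nat_lit 1072) (.br (nat_lit 3) (.br (nat_lit 1) (.ch (nat_lit 0) (.ev
 (nat_lit 1088) (nat_lit 351843725082624) (.ev (nat_lit 1120) (nat_lit 137438953472) (.ev (nat_lit 1133)
 (nat_lit 4096) .dd)))) (.ch (nat_lit 1) (.ev (nat_lit 1088) (nat_lit 70368744177664) (.ev (nat_lit 1156)
 (nat_lit 4194304) (.ev (nat_lit 1168) (nat_lit 281474976710656) (.ev (nat_lit 1360) (nat_lit 4096) (.ev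
 (nat_lit 1373) (nat_lit 137438953472) .dd))))))) (.br (nat_lit 4) (.ch (nat_lit 3) (.ev (nat_lit 1088)
 (nat_lit 137443147776) (.ev (nat_lit 1284) (nat_lit 70368744177664) (.ev (nat_lit 1296) (nat_lit 4096) (.ev
 (nat_lit 1309) (nat_lit 281474976710656) .dd))))) (.ch (nat_lit 4) (.ev (nat_lit 1088) (nat_lit
 351981159841792) (.ev (nat_lit 1156) (nat_lit 4096) (.ev (nat_lit 1165) (nat_lit 4194304)
 .dd)))))))))))))))))))) (.ch (nat_lit 35) (.ev (nat_lit 52) (nat_lit 1411292447380032) (.ev (nat_lit 160)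
 (nat_lit 4587577250646016) .dd)))) (.br (nat_lit 38) (.ch (nat_lit 36) (.ev (nat_lit 52) (nat_lit
 1212832479973888) (.ev (nat_lit 212) (nat_lit 131072) (.ev (nat_lit 564) (nat_lit 65536) (.ev (nat_lit 800)
 (nat_lit 536870912) (.nd (nat_lit 992) (.br (nat_lit 5) (.ch (nat_lit 2) (.ev (nat_lit 1008) (nat_lit
 4785349482022976) (.nd (nat_lit 1072) (.br (nat_lit 3) (.ch (nat_lit 2) (.ev (nat_lit 1088) (nat_lit 4194304)
 (.ev (nat_lit 1136) (nat_lit 687194767360) .dd))) (.br (nat_lit 6) (.ch (nat_lit 3) (.ev (nat_lit 1088)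
 (nat_lit 549755813888) (.ev (nat_lit 1104) (nat_lit 137438953472) (.ev (nat_lit 1117) (nat_lit 4194304)
 .dd)))) (.ch (nat_lit 6) (.ev (nat_lit 1088) (nat_lit 687198961664) .dd))))))) (.br (nat_lit 6) (.ch (nat_lit
 5) (.ev (nat_lit 1008) (nat_lit 962076868672) (.nd (nat_lit 1072) (.br (nat_lit 1) (.ch (nat_lit 0) (.ev
 (nat_lit 1088) (nat_lit 281474976712704) (.ev (nat_lit 1376) (nat_lit 4503599627403264) .dd))) (.br (nat_lit
 6) (.ch (nat_lit 1) (.ev (nat_lit 1088) (nat_lit 4785074604115968) .dd)) (.ch (nat_lit 6) (.ev (nat_lit 1284)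
 (nat_lit 4503599627370496) (.ev (nat_lit 1348) (nat_lit 281474976712704) (.ev (nat_lit 1357) (nat_lit 32768)
 .dd))))))))) (.ch (nat_lit 6) (.ev (nat_lit 1008) (nat_lit 4504286822170624) (.ev (nat_lit 1028) (nat_lit
 4194304) (.nd (nat_lit 1072) (.br (nat_lit 4) (.ch (nat_lit 2) (.ev (nat_lit 1088) (nat_lit 281749854619648)
 (.ev (nat_lit 1101) (nat_lit 64) .dd))) (.ch (nat_lit 4) (.ev (nat_lit 1204) (nat_lit 2048) (.ev (nat_lit
 1216) (nat_lit 64) (.nd (nat_lit 1760) (.ch (nat_lit 2) (.nd (nat_lit 1777) (.ch (nat_lit 8) (.nd (nat_lit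
 1808) (.br (nat_lit 5) (.ch (nat_lit 4) (.fin (nat_lit 576474496230703690))) (.ch (nat_lit 5) (.ev (nat_lit
 1824) (nat_lit 281749854617600) .dd)))))))))))))))))))))))) (.ch (nat_lit 38) (.ev (nat_lit 52) (nat_lit
 5917162218981888) (.ev (nat_lit 84) (nat_lit 16777216) (.ev (nat_lit 448) (nat_lit 81707462266944) .dd))))))
 (.br (nat_lit 45) (.br (nat_lit 44) (.ch (nat_lit 42) (.ev (nat_lit 52) (nat_lit 85901497894976) (.ev (nat_lit
 96) (nat_lit 5912968200131072) .dd))) (.ch (nat_lit 44) (.ev (nat_lit 52) (nat_lit 5707152547123200) (.ev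
 (nat_lit 84) (nat_lit 8796093022208) (.ev (nat_lit 148) (nat_lit 2048) (.ev (nat_lit 244) (nat_lit 262144)
 (.ev (nat_lit 532) (nat_lit 281474976710656) (.ev (nat_lit 564) (nat_lit 64) (.ev (nat_lit 596) (nat_lit
 274877906944) (.nd (nat_lit 992) (.br (nat_lit 5) (.br (nat_lit 3) (.ch (nat_lit 0) (.ev (nat_lit 1008)
 (nat_lit 1102481326080) (.nd (nat_lit 1072) (.br (nat_lit 4) (.ch (nat_lit 3) (.ev (nat_lit 1088) (nat_lit
 68719542272) (.ev (nat_lit 1156) (nat_lit 2097152) (.ev (nat_lit 1204) (nat_lit 32768) (.ev (nat_lit 1213)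
 (nat_lit 512) .dd))))) (.br (nat_lit 5) (.ch (nat_lit 4) (.ev (nat_lit 1088) (nat_lit 32768) (.ev (nat_lit
 1156) (nat_lit 68719476736) (.ev (nat_lit 1284) (nat_lit 512) (.ev (nat_lit 1556) (nat_lit 65536) (.ev
 (nat_lit 1565) (nat_lit 2097152) .dd)))))) (.ch (nat_lit 5) (.ev (nat_lit 1088) (nat_lit 68721574400) (.ev
 (nat_lit 1204) (nat_lit 65536) (.ev (nat_lit 1213) (nat_lit 32768) .dd))))))))) (.ch (nat_lit 3) (.ev (nat_lit
 1008) (nat_lit 822149120) (.nd (nat_lit 1072) (.br (nat_lit 4) (.br (nat_lit 2) (.ch (nat_lit 1) (.ev (nat_lit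
 1088) (nat_lit 1099513758208) (.ev (nat_lit 1104) (nat_lit 68719476736) (.ev (nat_lit 1328) (nat_lit 131072)
 (.ev (nat_lit 1341) (nat_lit 2147483648) .dd))))) (.ch (nat_lit 2) (.ev (nat_lit 1088) (nat_lit 2097664) (.ev
 (nat_lit 1156) (nat_lit 2147483648) (.ev (nat_lit 1184) (nat_lit 1099511627776) (.ev (nat_lit 1204) (nat_lit
 32768) (.nd (nat_lit 1728) (.br (nat_lit 6) (.ch (nat_lit 2) (.ev (nat_lit 1744) (nat_lit 68719607808) .dd))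
 (.ch (nat_lit 6) (.fin (nat_lit 576454705004626435))))))))))) (.br (nat_lit 5) (.ch (nat_lit 4) (.ev (nat_lit
 1088) (nat_lit 70867091456) (.ev (nat_lit 1348) (nat_lit 512) (.ev (nat_lit 1376) (nat_lit 1099511627776) (.ev
 (nat_lit 1556) (nat_lit 2097152) (.ev (nat_lit 1565) (nat_lit 32768) .dd)))))) (.br (nat_lit 6) (.ch (nat_lit
 5) (.ev (nat_lit 1088) (nat_lit 1170378752000) (.ev (nat_lit 1104) (nat_lit 2097152) (.ev (nat_lit 1117)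
 (nat_lit 512) .dd)))) (.ch (nat_lit 6) (.ev (nat_lit 1088) (nat_lit 1170380816384) (.ev (nat_lit 1216)
 (nat_lit 33280) .dd)))))))))) (.br (nat_lit 6) (.ch (nat_lit 5) (.ev (nat_lit 1008) (nat_lit 1170378719744)
 (.nd (nat_lit 1072) (.br (nat_lit 5) (.br (nat_lit 1) (.ch (nat_lit 0) (.ev (nat_lit 1088) (nat_lit 822083584)
 (.ev (nat_lit 1168) (nat_lit 32768) (.ev (nat_lit 1184) (nat_lit 2097152) (.ev (nat_lit 1197) (nat_lit 65536)
 .dd))))) (.ch (nat_lit 1) (.ev (nat_lit 1088) (nat_lit 822116352) (.ev (nat_lit 1284) (nat_lit 65536) (.ev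
 (nat_lit 1293) (nat_lit 2097152) .dd))))) (.br (nat_lit 6) (.ch (nat_lit 5) (.ev (nat_lit 1088) (nat_lit
 2162688) (.ev (nat_lit 1156) (nat_lit 553648128) (.ev (nat_lit 1284) (nat_lit 32768) (.ev (nat_lit 1293)
 (nat_lit 268435456) .dd))))) (.ch (nat_lit 6) (.ev (nat_lit 1088) (nat_lit 16777216) (.ev (nat_lit 1120)
 (nat_lit 805306368) (.ev (nat_lit 1348) (nat_lit 2097152) (.ev (nat_lit 1360) (nat_lit 65536) (.ev (nat_lit
 1373) (nat_lit 32768) .dd))))))))))) (.ch (nat_lit 6) (.ev (nat_lit 1008) (nat_lit 1168770204160) (.nd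
 (nat_lit 1072) (.br (nat_lit 3) (.br (nat_lit 1) (.ch (nat_lit 0) (.ev (nat_lit 1088) (nat_lit 285278208) (.ev
 (nat_lit 1156) (nat_lit 32768) (.ev (nat_lit 1165) (nat_lit 2147483648) .dd)))) (.ch (nat_lit 1) (.ev (nat_lit
 1088) (nat_lit 2415919104) (.ev (nat_lit 1284) (nat_lit 16777216) (.ev (nat_lit 1296) (nat_lit 32768) (.ev
 (nat_lit 1309) (nat_lit 65536) .dd)))))) (.br (nat_lit 4) (.ch (nat_lit 3) (.ev (nat_lit 1088) (nat_lit
 16777216) (.ev (nat_lit 1156) (nat_lit 2147483648) (.ev (nat_lit 1168) (nat_lit 65536) (.ev (nat_lit 1360)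
 (nat_lit 32768) (.ev (nat_lit 1373) (nat_lit 268435456) .dd)))))) (.ch (nat_lit 4) (.ev (nat_lit 1088)
 (nat_lit 2164326400) (.ev (nat_lit 1120) (nat_lit 268435456) (.ev (nat_lit 1133) (nat_lit 32768)
 .dd))))))))))))))))))))) (.br (nat_lit 46) (.ch (nat_lit 45) (.ev (nat_lit 52) (nat_lit 5630874461047360) (.ev
 (nat_lit 180) (nat_lit 4398046511104) (.ev (nat_lit 276) (nat_lit 16777216) (.ev (nat_lit 308) (nat_lit
 8796093022208) (.ev (nat_lit 340) (nat_lit 268435456) (.ev (nat_lit 436) (nat_lit 2199023255552) (.ev (nat_lit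
 816) (nat_lit 549755813888) (.nd (nat_lit 992) (.br (nat_lit 3) (.ch (nat_lit 0) (.ev (nat_lit 1008) (nat_lit
 2147483648) (.nd (nat_lit 1072) (.br (nat_lit 5) (.ch (nat_lit 4) (.ev (nat_lit 1088) (nat_lit
 351843725148160) (.nd (nat_lit 1728) (.br (nat_lit 5) (.ch (nat_lit 2) (.ev (nat_lit 1744) (nat_lit
 206158430208) (.fin (nat_lit 576462401560855106)))) (.ch (nat_lit 5) (.ev (nat_lit 1744) (nat_lit 2101248)
 (.fin (nat_lit 576461302030352946)))))))) (.br (nat_lit 6) (.ch (nat_lit 5) (.ev (nat_lit 1088) (nat_lit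
 70574908903424) (.ev (nat_lit 1136) (nat_lit 65536) (.ev (nat_lit 1149) (nat_lit 281474976710656) .dd)))) (.ch
 (nat_lit 6) (.ev (nat_lit 1088) (nat_lit 281681137242112) (.ev (nat_lit 1156) (nat_lit 4194304) (.ev (nat_lit
 1204) (nat_lit 65536) (.ev (nat_lit 1213) (nat_lit 70368744177664) .dd)))))))))) (.br (nat_lit 6) (.ch
 (nat_lit 3) (.ev (nat_lit 1008) (nat_lit 352052028968960) (.ev (nat_lit 1021) (nat_lit 4194304) .dd))) (.ch
 (nat_lit 6) (.ev (nat_lit 1008) (nat_lit 281681141501952) (.nd (nat_lit 1072) (.br (nat_lit 3) (.ch (nat_lit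
 2) (.ev (nat_lit 1088) (nat_lit 70370891661312) .dd)) (.br (nat_lit 4) (.ch (nat_lit 3) (.ev (nat_lit 1088)
 (nat_lit 70368744177664) (.ev (nat_lit 1101) (nat_lit 2147483648) .dd))) (.ch (nat_lit 4) (.ev (nat_lit 1120)
 (nat_lit 70368744177664) (.ev (nat_lit 1133) (nat_lit 2147483648) .dd))))))))))))))))))) (.ch (nat_lit 46)
 (.ev (nat_lit 52) (nat_lit 5919841477231168) (.ev (nat_lit 64) (nat_lit 79028220794880) .dd))))))))))

/-- The trie. -/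
noncomputable def T : Tr := .nd (nat_lit 1000000) (.br (nat_lit 1) (.ch (nat_lit 0) (.ev (nat_lit 0) (nat_lit 9007199254740991) .dd)) (.br (nat_lit 3) (.ch (nat_lit 1) T1) (.ch (nat_lit 3) T3)))

/-- The possible values. -/
noncomputable def oks : List ℕ := [4, 9, 249, 2074, 7156]

/-- The parameters. -/
noncomputable def S : Pr := ⟨fun i l e => lget mz (lget [] (lget [] tabs i) l) e, oks, [(nat_lit 0), (nat_lit
 1), (nat_lit 0), (nat_lit 0), (nat_lit 0), (nat_lit 1), (nat_lit 0)], T, (nat_lit 9007199254740991), (nat_lit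
 2287041271849359), (nat_lit 53), [(nat_lit 1), (nat_lit 12800101590481)], [(nat_lit 40353607), (nat_lit
 4879681)]⟩

/-- Nothing known. -/
noncomputable def cs0 : Cs := (.cons (nat_lit 7) (nat_lit 0) (nat_lit 1) (.cons (nat_lit 47) (nat_lit 0) (nat_lit 1) .nil))

theorem part_1 : part S cs0 (nat_lit 1) = true := by decide +kernel

theorem part_3 : part S cs0 (nat_lit 3) = true := by decide +kernel

/-- Data of a prime. -/
noncomputable def D0 : PD := ⟨(nat_lit 7), (nat_lit 9), (1562932, 1, 2), (36264346, 14618947, 12267798), (17529001, 32002150, 38949929)⟩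

theorem D0_ok : D0.Ok := pdb_sound (s := 1) (C := ⟨⟨7, -2, -11, 7, 2, 4, 0, 3, -1⟩, (5, 2, 3)⟩) (by show Nat.Prime 7; norm_num) (by decide +kernel)

/-- Lines of the first type. -/
noncomputable def Cl0 : List C1 := [⟨⟨7, 2, -11, 7, -2, 4, 0, -3, -1⟩, (6, 1, 5)⟩,
  ⟨⟨0, 0, 0, 0, 0, 0, 0, 0, 0⟩, (0, 0, 0)⟩,
  ⟨⟨0, 0, 0, 0, 0, 0, 0, 0, 0⟩, (0, 0, 0)⟩,
  ⟨⟨0, 0, 0, 0, 0, 0, 0, 0, 0⟩, (0, 0, 0)⟩,
  ⟨⟨0, 0, 0, 0, 0, 0, 0, 0, 0⟩, (0, 0, 0)⟩,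
  ⟨⟨0, 0, 0, 0, 0, 0, 0, 0, 0⟩, (0, 0, 0)⟩,
  ⟨⟨0, 0, 0, 0, 0, 0, 0, 0, 0⟩, (0, 0, 0)⟩]

/-- Data of a prime. -/
noncomputable def D1 : PD := ⟨(nat_lit 47), (nat_lit 4), (3268145, 1, 9), (1705453, 2174173, 4643148), (2649578, 426342, 1561953)⟩

theorem D1_ok : D1.Ok := pdb_sound (s := 1) (C := ⟨⟨47, 2, -76, 47, -2, 29, 0, -21, -1⟩, (2, 45, 26)⟩) (by show Nat.Prime 47; norm_num) (by decide +kernel)

/-- Lines of the first type. -/
noncomputable def Cl1 : List C1 := [⟨⟨47, -2, -76, 47, 2, 29, 0, 21, -1⟩, (9, 38, 23)⟩,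
  ⟨⟨0, 0, 0, 0, 0, 0, 0, 0, 0⟩, (0, 0, 0)⟩,
  ⟨⟨0, 0, 0, 0, 0, 0, 0, 0, 0⟩, (0, 0, 0)⟩,
  ⟨⟨0, 0, 0, 0, 0, 0, 0, 0, 0⟩, (0, 0, 0)⟩,
  ⟨⟨17, 22, -76, -63, 18, 19, -4, -19, -7⟩, (10, 21, 17)⟩,
  ⟨⟨0, 0, 0, 0, 0, 0, 0, 0, 0⟩, (0, 0, 0)⟩,
  ⟨⟨57, -18, -61, -23, -62, 4, -8, 5, -17⟩, (3, 26, 7)⟩,
  ⟨⟨57, 18, -61, -23, 62, 4, -8, -5, -17⟩, (16, 29, 6)⟩,
  ⟨⟨53, -22, -64, -13, -62, 29, -12, -3, -13⟩, (46, 10, 2)⟩,
  ⟨⟨0, 0, 0, 0, 0, 0, 0, 0, 0⟩, (0, 0, 0)⟩,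
  ⟨⟨43, -38, -59, 3, -42, 56, -16, -11, -1⟩, (35, 9, 46)⟩,
  ⟨⟨0, 0, 0, 0, 0, 0, 0, 0, 0⟩, (0, 0, 0)⟩,
  ⟨⟨0, 0, 0, 0, 0, 0, 0, 0, 0⟩, (0, 0, 0)⟩,
  ⟨⟨-17, -22, -59, -63, 18, 44, 4, 19, -11⟩, (15, 39, 2)⟩,
  ⟨⟨0, 0, 0, 0, 0, 0, 0, 0, 0⟩, (0, 0, 0)⟩,
  ⟨⟨0, 0, 0, 0, 0, 0, 0, 0, 0⟩, (0, 0, 0)⟩,
  ⟨⟨0, 0, 0, 0, 0, 0, 0, 0, 0⟩, (0, 0, 0)⟩,
  ⟨⟨53, 22, -64, -13, 62, 29, -12, 3, -13⟩, (41, 13, 12)⟩,
  ⟨⟨0, 0, 0, 0, 0, 0, 0, 0, 0⟩, (0, 0, 0)⟩,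
  ⟨⟨0, 0, 0, 0, 0, 0, 0, 0, 0⟩, (0, 0, 0)⟩,
  ⟨⟨0, 0, 0, 0, 0, 0, 0, 0, 0⟩, (0, 0, 0)⟩,
  ⟨⟨0, 0, 0, 0, 0, 0, 0, 0, 0⟩, (0, 0, 0)⟩,
  ⟨⟨0, 0, 0, 0, 0, 0, 0, 0, 0⟩, (0, 0, 0)⟩,
  ⟨⟨43, 38, -59, 3, 42, 56, -16, 11, -1⟩, (5, 8, 20)⟩,
  ⟨⟨3, -42, -59, 43, -38, 16, 16, 11, -17⟩, (39, 42, 20)⟩,
  ⟨⟨0, 0, 0, 0, 0, 0, 0, 0, 0⟩, (0, 0, 0)⟩,
  ⟨⟨0, 0, 0, 0, 0, 0, 0, 0, 0⟩, (0, 0, 0)⟩,
  ⟨⟨0, 0, 0, 0, 0, 0, 0, 0, 0⟩, (0, 0, 0)⟩,
  ⟨⟨0, 0, 0, 0, 0, 0, 0, 0, 0⟩, (0, 0, 0)⟩,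
  ⟨⟨0, 0, 0, 0, 0, 0, 0, 0, 0⟩, (0, 0, 0)⟩,
  ⟨⟨-13, -62, -16, 53, -22, 11, 12, 3, -25⟩, (34, 6, 12)⟩,
  ⟨⟨0, 0, 0, 0, 0, 0, 0, 0, 0⟩, (0, 0, 0)⟩,
  ⟨⟨0, 0, 0, 0, 0, 0, 0, 0, 0⟩, (0, 0, 0)⟩,
  ⟨⟨0, 0, 0, 0, 0, 0, 0, 0, 0⟩, (0, 0, 0)⟩,
  ⟨⟨17, -22, -76, -63, -18, 19, -4, 19, -7⟩, (15, 8, 2)⟩,
  ⟨⟨0, 0, 0, 0, 0, 0, 0, 0, 0⟩, (0, 0, 0)⟩,
  ⟨⟨0, 0, 0, 0, 0, 0, 0, 0, 0⟩, (0, 0, 0)⟩,
  ⟨⟨3, 42, -59, 43, 38, 16, 16, -11, -17⟩, (38, 12, 46)⟩,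
  ⟨⟨0, 0, 0, 0, 0, 0, 0, 0, 0⟩, (0, 0, 0)⟩,
  ⟨⟨-13, 62, -16, 53, 22, 11, 12, -3, -25⟩, (37, 1, 2)⟩,
  ⟨⟨23, 62, -19, 57, -18, 4, 8, -5, -25⟩, (29, 31, 6)⟩,
  ⟨⟨23, -62, -19, 57, 18, 4, 8, 5, -25⟩, (26, 44, 7)⟩,
  ⟨⟨0, 0, 0, 0, 0, 0, 0, 0, 0⟩, (0, 0, 0)⟩,
  ⟨⟨-17, 22, -59, -63, -18, 44, 4, -19, -11⟩, (10, 26, 17)⟩,
  ⟨⟨0, 0, 0, 0, 0, 0, 0, 0, 0⟩, (0, 0, 0)⟩,
  ⟨⟨0, 0, 0, 0, 0, 0, 0, 0, 0⟩, (0, 0, 0)⟩,
  ⟨⟨0, 0, 0, 0, 0, 0, 0, 0, 0⟩, (0, 0, 0)⟩]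

/-- Data of a prime. -/
noncomputable def Dm : PD := ⟨(nat_lit 53), (nat_lit 2), (2545, 8, 14), (2610, 800, 1557), (1968, 957, 2439)⟩

theorem Dm_ok : Dm.Ok := pdb_sound (s := 12) (C := ⟨⟨-13, 2, -76, -47, -58, 31, 18, -15, -13⟩, (40, 6, 18)⟩) (by show Nat.Prime 53; norm_num) (by decide +kernel)

/-- Lines of the first type. -/
noncomputable def Clm : List C1 := [⟨⟨13, -2, -89, -47, -58, 16, 18, -15, -5⟩, (17, 16, 48)⟩,
  ⟨⟨-23, 38, -56, 43, 58, 1, 18, -9, -23⟩, (9, 50, 16)⟩,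
  ⟨⟨-23, -38, -56, 43, -58, 1, 18, 9, -23⟩, (18, 47, 32)⟩,
  ⟨⟨-13, -2, -76, -47, 58, 31, 18, 15, -13⟩, (20, 3, 9)⟩,
  ⟨⟨0, 0, 0, 0, 0, 0, 0, 0, 0⟩, (0, 0, 0)⟩,
  ⟨⟨0, 0, 0, 0, 0, 0, 0, 0, 0⟩, (0, 0, 0)⟩,
  ⟨⟨0, 0, 0, 0, 0, 0, 0, 0, 0⟩, (0, 0, 0)⟩,
  ⟨⟨23, -38, -79, -43, -58, 44, -18, 9, -5⟩, (29, 8, 28)⟩,
  ⟨⟨33, -18, -89, 67, 2, 4, 2, 23, -7⟩, (12, 34, 20)⟩,
  ⟨⟨0, 0, 0, 0, 0, 0, 0, 0, 0⟩, (0, 0, 0)⟩,
  ⟨⟨0, 0, 0, 0, 0, 0, 0, 0, 0⟩, (0, 0, 0)⟩,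
  ⟨⟨0, 0, 0, 0, 0, 0, 0, 0, 0⟩, (0, 0, 0)⟩,
  ⟨⟨0, 0, 0, 0, 0, 0, 0, 0, 0⟩, (0, 0, 0)⟩,
  ⟨⟨27, 42, -76, 7, 58, 49, 22, -7, -5⟩, (1, 14, 44)⟩,
  ⟨⟨33, 18, -89, 67, -2, 4, 2, -23, -7⟩, (44, 1, 38)⟩,
  ⟨⟨0, 0, 0, 0, 0, 0, 0, 0, 0⟩, (0, 0, 0)⟩,
  ⟨⟨0, 0, 0, 0, 0, 0, 0, 0, 0⟩, (0, 0, 0)⟩,
  ⟨⟨0, 0, 0, 0, 0, 0, 0, 0, 0⟩, (0, 0, 0)⟩,
  ⟨⟨0, 0, 0, 0, 0, 0, 0, 0, 0⟩, (0, 0, 0)⟩,
  ⟨⟨57, 42, -56, -37, 62, 41, -10, 1, -19⟩, (20, 27, 3)⟩,
  ⟨⟨13, 2, -89, -47, 58, 16, 18, 15, -5⟩, (50, 19, 4)⟩,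
  ⟨⟨0, 0, 0, 0, 0, 0, 0, 0, 0⟩, (0, 0, 0)⟩,
  ⟨⟨0, 0, 0, 0, 0, 0, 0, 0, 0⟩, (0, 0, 0)⟩,
  ⟨⟨57, -42, -56, -37, -62, 41, -10, -1, -19⟩, (16, 11, 13)⟩,
  ⟨⟨0, 0, 0, 0, 0, 0, 0, 0, 0⟩, (0, 0, 0)⟩,
  ⟨⟨7, 58, -56, 27, 42, 49, 22, -7, -17⟩, (20, 9, 25)⟩,
  ⟨⟨0, 0, 0, 0, 0, 0, 0, 0, 0⟩, (0, 0, 0)⟩,
  ⟨⟨67, -2, -71, 33, 18, 56, -2, 23, -5⟩, (28, 13, 49)⟩,
  ⟨⟨0, 0, 0, 0, 0, 0, 0, 0, 0⟩, (0, 0, 0)⟩,
  ⟨⟨0, 0, 0, 0, 0, 0, 0, 0, 0⟩, (0, 0, 0)⟩,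
  ⟨⟨23, 38, -79, -43, 58, 44, -18, -9, -5⟩, (20, 11, 12)⟩,
  ⟨⟨0, 0, 0, 0, 0, 0, 0, 0, 0⟩, (0, 0, 0)⟩,
  ⟨⟨7, -58, -56, 27, -42, 49, 22, 7, -17⟩, (17, 5, 8)⟩,
  ⟨⟨0, 0, 0, 0, 0, 0, 0, 0, 0⟩, (0, 0, 0)⟩,
  ⟨⟨67, 2, -71, 33, -18, 56, -2, -23, -5⟩, (8, 34, 14)⟩,
  ⟨⟨27, -42, -76, 7, -58, 49, 22, 7, -5⟩, (50, 11, 27)⟩,
  ⟨⟨0, 0, 0, 0, 0, 0, 0, 0, 0⟩, (0, 0, 0)⟩,
  ⟨⟨0, 0, 0, 0, 0, 0, 0, 0, 0⟩, (0, 0, 0)⟩,
  ⟨⟨0, 0, 0, 0, 0, 0, 0, 0, 0⟩, (0, 0, 0)⟩,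
  ⟨⟨0, 0, 0, 0, 0, 0, 0, 0, 0⟩, (0, 0, 0)⟩,
  ⟨⟨0, 0, 0, 0, 0, 0, 0, 0, 0⟩, (0, 0, 0)⟩,
  ⟨⟨0, 0, 0, 0, 0, 0, 0, 0, 0⟩, (0, 0, 0)⟩,
  ⟨⟨0, 0, 0, 0, 0, 0, 0, 0, 0⟩, (0, 0, 0)⟩,
  ⟨⟨0, 0, 0, 0, 0, 0, 0, 0, 0⟩, (0, 0, 0)⟩,
  ⟨⟨0, 0, 0, 0, 0, 0, 0, 0, 0⟩, (0, 0, 0)⟩,
  ⟨⟨-37, 62, -4, -57, -42, 1, 10, -1, -29⟩, (22, 21, 27)⟩,
  ⟨⟨0, 0, 0, 0, 0, 0, 0, 0, 0⟩, (0, 0, 0)⟩,
  ⟨⟨0, 0, 0, 0, 0, 0, 0, 0, 0⟩, (0, 0, 0)⟩,
  ⟨⟨0, 0, 0, 0, 0, 0, 0, 0, 0⟩, (0, 0, 0)⟩,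
  ⟨⟨0, 0, 0, 0, 0, 0, 0, 0, 0⟩, (0, 0, 0)⟩,
  ⟨⟨0, 0, 0, 0, 0, 0, 0, 0, 0⟩, (0, 0, 0)⟩,
  ⟨⟨-37, -62, -4, -57, 42, 1, 10, 1, -29⟩, (6, 25, 17)⟩,
  ⟨⟨0, 0, 0, 0, 0, 0, 0, 0, 0⟩, (0, 0, 0)⟩]

/-- Unit moves. -/
noncomputable def U : List Mv := [mz,
  mz,
  ⟨⟨1, 0, 0, 0, -1, 0, 0, 0, 1⟩, .nil, (nat_lit 0), (nat_lit 2), (nat_lit 1), (nat_lit 0), (0, 0, 0), [], 2⟩,
  mz,
  ⟨⟨-1, 0, 1, 0, 1, 0, 0, 0, 1⟩, .nil, (nat_lit 6), (nat_lit 0), (nat_lit 0), (nat_lit 1), (0, 0, 0), [], 1⟩,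
  ⟨⟨-1, 0, 1, 0, -1, 0, 0, 0, 1⟩, .nil, (nat_lit 0), (nat_lit 5), (nat_lit 1), (nat_lit 0), (0, 0, 0), [], 2⟩,
  ⟨⟨-1, 0, 1, 0, 1, 0, 0, 0, 1⟩, .nil, (nat_lit 6), (nat_lit 0), (nat_lit 0), (nat_lit 1), (0, 0, 0), [], 1⟩]

theorem v_ty : tyb Dm S.ty1 Clm = true := by decide +kernel

theorem v_ty0 : tyb D0 (S.tys.getD 0 0) Cl0 = true := by decide +kernel

theorem v_ty1 : tyb D1 (S.tys.getD 1 0) Cl1 = true := by decide +kernel

theorem v_msc : mscb S D0 [D1] Dm (nat_lit 10) = true := by decide +kernel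

theorem v_mv0 : mvsn (nat_lit 553127856770461903) S D0 [D1] Dm (nat_lit 10) 0 D0 = true := by decide +kernel

theorem v_mv1 : mvsn (nat_lit 553127856770461903) S D0 [D1] Dm (nat_lit 10) 1 D1 = true := by decide +kernel

theorem v_mm : mmsn (nat_lit 553127856770461903) S D0 [D1] Dm (nat_lit 10) = true := by decide +kernel

theorem v_un : unb S D0 (nat_lit 10) U = true := by decide +kernel

theorem v_ok : okb S.oks [(0, 0, 0), (0, 3, 0), (5, 8, 4), (0, 0, 0), (0, 0, 0)] = true := by decide +kernel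

theorem v_part : ∀ d < D0.p, (nat_lit 10).testBit d = true → part S (zc (D0 :: [D1])) d = true := by
  intro d hd h
  have h1 : ∀ d < 7, (nat_lit 10).testBit d = true → d = 1 ∨ d = 3 := by decide
  rcases h1 d hd h with rfl | rfl
  · exact part_1
  · exact part_3

theorem main (n : ℕ) (ho : Odd n) (hr : ¬ Rep n) (h0 : Split 7 n) (h1 : Split 47 n) (hm : Split 53 n) :
    n ∈ EE := by
  refine concln (W := nat_lit 553127856770461903) (S := S) (P0 := D0) (Pl := [D1]) (Pm := Dm) (cn := nat_lit 10) ?_ Dm_ok v_ty ?_ ?_ v_msc ?_ v_mm v_un v_part v_ok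
    n ho hr ?_ hm
  · simp only [List.forall_mem_cons]
    exact ⟨D0_ok, D1_ok, fun _ h => absurd h (by simp)⟩
  · exact all2 (φ := fun j P => ∃ L, tyb P (S.tys.getD j 0) L = true) ⟨_, v_ty0⟩ ⟨_, v_ty1⟩
  · exact all2 (φ := fun j P => Nat.ble (S.pks.getD j 0) (Nat.pow P.p P.K) = true) (by decide +kernel) (by decide +kernel)
  · exact all2 (φ := fun i P => mvsn (nat_lit 553127856770461903) S D0 [D1] Dm (nat_lit 10) i P = true) v_mv0 v_mv1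
  · simp only [List.forall_mem_cons]
    exact ⟨h0, h1, fun _ h => absurd h (by simp)⟩

end Pool.Agent.Work.MP_9954fe_nt.P7_47_53

namespace Pool.Agent.Work.MP_9954fe_nt.P11_71_31

/-- Dummy move. -/
noncomputable def mz : Mv := ⟨⟨0, 0, 0, 0, 0, 0, 0, 0, 0⟩, .nil, (nat_lit 0), (nat_lit 0), (nat_lit 0), (nat_lit 0), (0, 0, 0), [], 0⟩

/-- Moves. -/
noncomputable def t0_1 : List Mv := [
  ⟨⟨3, 8, -11, -10, -1, 0, 4, -4, -11⟩, (.cons (nat_lit 205) (nat_lit 45) (nat_lit 482) (nat_lit 1) (.cons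
 (nat_lit 4806) (nat_lit 1674) (nat_lit 1237) (nat_lit 1) .nil)), (nat_lit 12), (nat_lit 16), (nat_lit 21),
 (nat_lit 1), (4, 5, 9), [189, 424], 30⟩,
  ⟨⟨3, 8, -11, 10, 1, 0, 4, -4, -11⟩, (.cons (nat_lit 123) (nat_lit 960) (nat_lit 136) (nat_lit 1) (.cons
 (nat_lit 3249) (nat_lit 1678) (nat_lit 4640) (nat_lit 1) .nil)), (nat_lit 11), (nat_lit 16), (nat_lit 1),
 (nat_lit 0), (4, 6, 9), [1, 1922], 10⟩,
  ⟨⟨1, -12, 0, 10, 1, 0, 4, -4, -11⟩, (.cons (nat_lit 1209) (nat_lit 831) (nat_lit 832) (nat_lit 1) (.cons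
 (nat_lit 3069) (nat_lit 2353) (nat_lit 4114) (nat_lit 1) .nil)), (nat_lit 10), (nat_lit 30), (nat_lit 24),
 (nat_lit 1), (5, 6, 9), [725, 3147], 29⟩,
  ⟨⟨1, -12, 0, -10, -1, 0, 4, -4, -11⟩, (.cons (nat_lit 162) (nat_lit 200) (nat_lit 173) (nat_lit 1) (.cons
 (nat_lit 5040) (nat_lit 159) (nat_lit 2969) (nat_lit 1) .nil)), (nat_lit 30), (nat_lit 0), (nat_lit 22),
 (nat_lit 1), (5, 5, 9), [168, 4479], 20⟩,
  ⟨⟨1, -12, 0, -10, -1, 0, 4, -4, -11⟩, (.cons (nat_lit 162) (nat_lit 200) (nat_lit 173) (nat_lit 1) (.cons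
 (nat_lit 5040) (nat_lit 159) (nat_lit 2969) (nat_lit 1) .nil)), (nat_lit 30), (nat_lit 0), (nat_lit 22),
 (nat_lit 1), (5, 5, 9), [168, 4479], 20⟩,
  ⟨⟨1, -12, 0, 10, 1, 0, 4, -4, -11⟩, (.cons (nat_lit 1209) (nat_lit 831) (nat_lit 832) (nat_lit 1) (.cons
 (nat_lit 3069) (nat_lit 2353) (nat_lit 4114) (nat_lit 1) .nil)), (nat_lit 10), (nat_lit 30), (nat_lit 24),
 (nat_lit 1), (5, 6, 9), [725, 3147], 29⟩,
  ⟨⟨1, -12, 0, -10, -1, 0, 4, -4, -11⟩, (.cons (nat_lit 162) (nat_lit 200) (nat_lit 173) (nat_lit 1) (.cons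
 (nat_lit 5040) (nat_lit 159) (nat_lit 2969) (nat_lit 1) .nil)), (nat_lit 30), (nat_lit 0), (nat_lit 22),
 (nat_lit 1), (5, 5, 9), [168, 4479], 20⟩,
  ⟨⟨3, 8, -11, 10, 1, 0, 4, -4, -11⟩, (.cons (nat_lit 123) (nat_lit 960) (nat_lit 136) (nat_lit 1) (.cons
 (nat_lit 3249) (nat_lit 1678) (nat_lit 4640) (nat_lit 1) .nil)), (nat_lit 11), (nat_lit 16), (nat_lit 1),
 (nat_lit 0), (4, 6, 9), [1, 1922], 10⟩,
  ⟨⟨1, -12, 0, -10, -1, 0, 4, -4, -11⟩, (.cons (nat_lit 162) (nat_lit 200) (nat_lit 173) (nat_lit 1) (.cons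
 (nat_lit 5040) (nat_lit 159) (nat_lit 2969) (nat_lit 1) .nil)), (nat_lit 30), (nat_lit 0), (nat_lit 22),
 (nat_lit 1), (5, 5, 9), [168, 4479], 20⟩,
  ⟨⟨3, 8, -11, -10, -1, 0, 4, -4, -11⟩, (.cons (nat_lit 205) (nat_lit 45) (nat_lit 482) (nat_lit 1) (.cons
 (nat_lit 4806) (nat_lit 1674) (nat_lit 1237) (nat_lit 1) .nil)), (nat_lit 12), (nat_lit 16), (nat_lit 21),
 (nat_lit 1), (4, 5, 9), [189, 424], 30⟩,
  ⟨⟨1, -12, 0, -10, -1, 0, 4, -4, -11⟩, (.cons (nat_lit 162) (nat_lit 200) (nat_lit 173) (nat_lit 1) (.cons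
 (nat_lit 5040) (nat_lit 159) (nat_lit 2969) (nat_lit 1) .nil)), (nat_lit 30), (nat_lit 0), (nat_lit 22),
 (nat_lit 1), (5, 5, 9), [168, 4479], 20⟩]

/-- Moves. -/
noncomputable def t0_4 : List Mv := [
  ⟨⟨-11, 0, 0, -4, 5, 12, -2, 8, -5⟩, (.cons (nat_lit 567) (nat_lit 375) (nat_lit 810) (nat_lit 1) (.cons
 (nat_lit 5040) (nat_lit 4958) (nat_lit 1033) (nat_lit 1) .nil)), (nat_lit 30), (nat_lit 9), (nat_lit 13),
 (nat_lit 1), (0, 5, 8), [285, 451], 4⟩,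
  ⟨⟨9, 8, -5, 4, -5, -12, -2, 8, -5⟩, (.cons (nat_lit 449) (nat_lit 666) (nat_lit 424) (nat_lit 1) (.cons
 (nat_lit 1543) (nat_lit 1942) (nat_lit 1497) (nat_lit 1) .nil)), (nat_lit 1), (nat_lit 12), (nat_lit 24),
 (nat_lit 1), (8, 6, 8), [237, 3040], 5⟩,
  ⟨⟨9, 8, -5, 4, -5, -12, -2, 8, -5⟩, (.cons (nat_lit 449) (nat_lit 666) (nat_lit 424) (nat_lit 1) (.cons
 (nat_lit 1543) (nat_lit 1942) (nat_lit 1497) (nat_lit 1) .nil)), (nat_lit 1), (nat_lit 12), (nat_lit 24),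
 (nat_lit 1), (8, 6, 8), [237, 3040], 5⟩,
  ⟨⟨9, 8, -5, 4, -5, -12, -2, 8, -5⟩, (.cons (nat_lit 449) (nat_lit 666) (nat_lit 424) (nat_lit 1) (.cons
 (nat_lit 1543) (nat_lit 1942) (nat_lit 1497) (nat_lit 1) .nil)), (nat_lit 1), (nat_lit 12), (nat_lit 24),
 (nat_lit 1), (8, 6, 8), [237, 3040], 5⟩,
  ⟨⟨9, 8, -5, -4, 5, 12, -2, 8, -5⟩, (.cons (nat_lit 64) (nat_lit 1278) (nat_lit 716) (nat_lit 1) (.cons
 (nat_lit 1554) (nat_lit 4397) (nat_lit 1866) (nat_lit 1) .nil)), (nat_lit 24), (nat_lit 10), (nat_lit 26),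
 (nat_lit 1), (8, 5, 8), [587, 1828], 23⟩,
  ⟨⟨-11, 0, 0, 4, -5, -12, -2, 8, -5⟩, (.cons (nat_lit 850) (nat_lit 1279) (nat_lit 109) (nat_lit 1) (.cons
 (nat_lit 987) (nat_lit 2474) (nat_lit 3509) (nat_lit 1) .nil)), (nat_lit 8), (nat_lit 17), (nat_lit 21),
 (nat_lit 1), (0, 6, 8), [137, 1488], 26⟩,
  ⟨⟨9, 8, -5, 4, -5, -12, -2, 8, -5⟩, (.cons (nat_lit 449) (nat_lit 666) (nat_lit 424) (nat_lit 1) (.cons
 (nat_lit 1543) (nat_lit 1942) (nat_lit 1497) (nat_lit 1) .nil)), (nat_lit 1), (nat_lit 12), (nat_lit 24),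
 (nat_lit 1), (8, 6, 8), [237, 3040], 5⟩,
  ⟨⟨9, 8, -5, -4, 5, 12, -2, 8, -5⟩, (.cons (nat_lit 64) (nat_lit 1278) (nat_lit 716) (nat_lit 1) (.cons
 (nat_lit 1554) (nat_lit 4397) (nat_lit 1866) (nat_lit 1) .nil)), (nat_lit 24), (nat_lit 10), (nat_lit 26),
 (nat_lit 1), (8, 5, 8), [587, 1828], 23⟩,
  ⟨⟨-11, 0, 0, 4, -5, -12, -2, 8, -5⟩, (.cons (nat_lit 850) (nat_lit 1279) (nat_lit 109) (nat_lit 1) (.cons
 (nat_lit 987) (nat_lit 2474) (nat_lit 3509) (nat_lit 1) .nil)), (nat_lit 8), (nat_lit 17), (nat_lit 21),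
 (nat_lit 1), (0, 6, 8), [137, 1488], 26⟩,
  ⟨⟨9, 8, -5, 4, -5, -12, -2, 8, -5⟩, (.cons (nat_lit 449) (nat_lit 666) (nat_lit 424) (nat_lit 1) (.cons
 (nat_lit 1543) (nat_lit 1942) (nat_lit 1497) (nat_lit 1) .nil)), (nat_lit 1), (nat_lit 12), (nat_lit 24),
 (nat_lit 1), (8, 6, 8), [237, 3040], 5⟩,
  ⟨⟨9, 8, -5, 4, -5, -12, -2, 8, -5⟩, (.cons (nat_lit 449) (nat_lit 666) (nat_lit 424) (nat_lit 1) (.cons
 (nat_lit 1543) (nat_lit 1942) (nat_lit 1497) (nat_lit 1) .nil)), (nat_lit 1), (nat_lit 12), (nat_lit 24),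
 (nat_lit 1), (8, 6, 8), [237, 3040], 5⟩]

/-- Moves. -/
noncomputable def t1_1 : List Mv := [
  mz,
  ⟨⟨63, 40, -56, 10, 21, 70, -12, 60, -13⟩, (.cons (nat_lit 1330) (nat_lit 659) (nat_lit 1236) (nat_lit 1)
 (.cons (nat_lit 4580) (nat_lit 4789) (nat_lit 4651) (nat_lit 1) .nil)), (nat_lit 30), (nat_lit 6), (nat_lit
 2), (nat_lit 1), (31, 50, 11), [656, 2962], 24⟩,
  mz,
  ⟨⟨65, -24, -72, -4, 55, -48, -10, -40, -49⟩, (.cons (nat_lit 1330) (nat_lit 55) (nat_lit 846) (nat_lit 1)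
 (.cons (nat_lit 1440) (nat_lit 3833) (nat_lit 2184) (nat_lit 1) .nil)), (nat_lit 30), (nat_lit 22), (nat_lit
 26), (nat_lit 1), (37, 1, 38), [159, 1772], 11⟩,
  ⟨⟨27, 68, 16, 64, -15, -62, -6, 48, -43⟩, (.cons (nat_lit 688) (nat_lit 860) (nat_lit 992) (nat_lit 1) (.cons
 (nat_lit 4658) (nat_lit 1186) (nat_lit 3642) (nat_lit 1) .nil)), (nat_lit 21), (nat_lit 10), (nat_lit 25),
 (nat_lit 1), (60, 16, 34), [560, 342], 16⟩,
  ⟨⟨-33, 20, -59, -64, -15, 62, -6, -48, -43⟩, (.cons (nat_lit 1166) (nat_lit 304) (nat_lit 259) (nat_lit 1)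
 (.cons (nat_lit 828) (nat_lit 2296) (nat_lit 4968) (nat_lit 1) .nil)), (nat_lit 3), (nat_lit 13), (nat_lit
 15), (nat_lit 1), (23, 36, 30), [1123, 2958], 23⟩,
  mz,
  ⟨⟨-29, 72, 20, 56, 25, -68, -38, 16, -35⟩, (.cons (nat_lit 168) (nat_lit 448) (nat_lit 1307) (nat_lit 1)
 (.cons (nat_lit 4898) (nat_lit 188) (nat_lit 3186) (nat_lit 1) .nil)), (nat_lit 26), (nat_lit 23), (nat_lit
 7), (nat_lit 1), (33, 44, 31), [678, 768], 25⟩,
  ⟨⟨3, 40, -76, -64, -25, 12, 26, -32, -67⟩, (.cons (nat_lit 788) (nat_lit 1004) (nat_lit 504) (nat_lit 1)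
 (.cons (nat_lit 2626) (nat_lit 27) (nat_lit 185) (nat_lit 1) .nil)), (nat_lit 13), (nat_lit 9), (nat_lit 27),
 (nat_lit 1), (14, 9, 3), [738, 2369], 24⟩,
  mz,
  mz,
  ⟨⟨33, -20, -92, 64, 15, -2, 6, 48, -49⟩, (.cons (nat_lit 1040) (nat_lit 781) (nat_lit 686) (nat_lit 1) (.cons
 (nat_lit 3059) (nat_lit 1467) (nat_lit 959) (nat_lit 1) .nil)), (nat_lit 21), (nat_lit 25), (nat_lit 4),
 (nat_lit 1), (67, 3, 38), [102, 2396], 29⟩,
  ⟨⟨-51, -52, -5, 44, -15, -82, -42, 24, -25⟩, (.cons (nat_lit 185) (nat_lit 993) (nat_lit 1) (nat_lit 88)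
 (.cons (nat_lit 2231) (nat_lit 111) (nat_lit 2420) (nat_lit 1) .nil)), (nat_lit 21), (nat_lit 6), (nat_lit
 26), (nat_lit 1), (61, 49, 21), [719, 4257], 6⟩,
  mz,
  mz,
  ⟨⟨51, -52, -56, -44, -15, -38, 42, 24, -67⟩, (.cons (nat_lit 12) (nat_lit 1180) (nat_lit 1256) (nat_lit 1)
 (.cons (nat_lit 2153) (nat_lit 1733) (nat_lit 1524) (nat_lit 1) .nil)), (nat_lit 10), (nat_lit 20), (nat_lit
 27), (nat_lit 1), (24, 67, 49), [701, 2545], 4⟩,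
  ⟨⟨17, 24, -89, -36, -55, -12, 54, -24, -53⟩, (.cons (nat_lit 334) (nat_lit 955) (nat_lit 980) (nat_lit 1)
 (.cons (nat_lit 2888) (nat_lit 4686) (nat_lit 1661) (nat_lit 1) .nil)), (nat_lit 29), (nat_lit 20), (nat_lit
 16), (nat_lit 1), (7, 52, 64), [300, 2295], 15⟩,
  mz,
  ⟨⟨9, 56, -64, -56, -25, -12, 38, -16, -73⟩, (.cons (nat_lit 522) (nat_lit 482) (nat_lit 942) (nat_lit 1)
 (.cons (nat_lit 3600) (nat_lit 115) (nat_lit 2053) (nat_lit 1) .nil)), (nat_lit 7), (nat_lit 12), (nat_lit 7),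
 (nat_lit 1), (56, 46, 55), [510, 609], 11⟩,
  ⟨⟨-61, -48, 25, 44, -55, -32, -22, -8, -55⟩, (.cons (nat_lit 65) (nat_lit 1249) (nat_lit 335) (nat_lit 1)
 (.cons (nat_lit 2149) (nat_lit 4607) (nat_lit 2684) (nat_lit 1) .nil)), (nat_lit 28), (nat_lit 22), (nat_lit
 10), (nat_lit 1), (9, 68, 37), [254, 2507], 23⟩,
  mz,
  mz,
  ⟨⟨37, 48, -73, -36, 55, 48, 54, 24, -1⟩, (.cons (nat_lit 267) (nat_lit 567) (nat_lit 547) (nat_lit 1) (.cons
 (nat_lit 2163) (nat_lit 1758) (nat_lit 3450) (nat_lit 1) .nil)), (nat_lit 15), (nat_lit 10), (nat_lit 8),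
 (nat_lit 1), (15, 66, 43), [1139, 1386], 4⟩,
  ⟨⟨-61, 48, 25, 44, 55, -32, -22, 8, -55⟩, (.cons (nat_lit 1127) (nat_lit 760) (nat_lit 1175) (nat_lit 1)
 (.cons (nat_lit 3039) (nat_lit 4132) (nat_lit 952) (nat_lit 1) .nil)), (nat_lit 8), (nat_lit 11), (nat_lit
 22), (nat_lit 1), (13, 43, 14), [673, 1355], 2⟩,
  ⟨⟨-39, 40, -41, 44, 55, -12, 22, -8, -77⟩, (.cons (nat_lit 933) (nat_lit 343) (nat_lit 469) (nat_lit 1)
 (.cons (nat_lit 2593) (nat_lit 4782) (nat_lit 1471) (nat_lit 1) .nil)), (nat_lit 4), (nat_lit 18), (nat_lit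
 5), (nat_lit 1), (2, 56, 28), [778, 466], 1⟩,
  mz,
  ⟨⟨51, -4, 40, 10, -69, -20, 60, 12, -49⟩, (.cons (nat_lit 1072) (nat_lit 1106) (nat_lit 1141) (nat_lit 1)
 (.cons (nat_lit 4832) (nat_lit 4434) (nat_lit 3130) (nat_lit 1) .nil)), (nat_lit 6), (nat_lit 12), (nat_lit
 1), (nat_lit 0), (60, 41, 33), [1006, 4285], 16⟩,
  mz,
  mz,
  ⟨⟨9, 28, -85, 70, -11, -30, -4, -44, -49⟩, (.cons (nat_lit 1092) (nat_lit 1176) (nat_lit 1134) (nat_lit 1)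
 (.cons (nat_lit 3285) (nat_lit 1597) (nat_lit 51) (nat_lit 1) .nil)), (nat_lit 29), (nat_lit 21), (nat_lit
 19), (nat_lit 1), (40, 35, 69), [548, 2494], 18⟩,
  mz,
  ⟨⟨-11, 72, -25, 50, -11, -80, -44, 4, -29⟩, (.cons (nat_lit 323) (nat_lit 818) (nat_lit 1074) (nat_lit 1)
 (.cons (nat_lit 1101) (nat_lit 3638) (nat_lit 3681) (nat_lit 1) .nil)), (nat_lit 15), (nat_lit 26), (nat_lit
 25), (nat_lit 1), (44, 13, 34), [518, 3560], 20⟩,
  mz,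
  ⟨⟨-29, -72, 20, 56, -25, -68, -38, -16, -35⟩, (.cons (nat_lit 1130) (nat_lit 823) (nat_lit 148) (nat_lit 1)
 (.cons (nat_lit 1527) (nat_lit 1751) (nat_lit 4229) (nat_lit 1) .nil)), (nat_lit 12), (nat_lit 16), (nat_lit
 17), (nat_lit 1), (27, 36, 6), [207, 3264], 15⟩,
  ⟨⟨75, 20, -32, 10, -21, -80, 12, 60, -25⟩, (.cons (nat_lit 850) (nat_lit 1299) (nat_lit 11) (nat_lit 1)
 (.cons (nat_lit 3179) (nat_lit 4361) (nat_lit 427) (nat_lit 1) .nil)), (nat_lit 17), (nat_lit 28), (nat_lit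
 21), (nat_lit 1), (30, 4, 19), [158, 1161], 7⟩,
  mz,
  ⟨⟨3, -40, -76, -64, 25, 12, 26, 32, -67⟩, (.cons (nat_lit 447) (nat_lit 83) (nat_lit 1215) (nat_lit 1) (.cons
 (nat_lit 4667) (nat_lit 156) (nat_lit 1811) (nat_lit 1) .nil)), (nat_lit 0), (nat_lit 24), (nat_lit 19),
 (nat_lit 1), (58, 17, 53), [578, 4447], 19⟩,
  mz,
  ⟨⟨17, -24, -89, 36, -55, 12, 54, 24, -53⟩, (.cons (nat_lit 642) (nat_lit 786) (nat_lit 1126) (nat_lit 1)
 (.cons (nat_lit 2704) (nat_lit 2777) (nat_lit 491) (nat_lit 1) .nil)), (nat_lit 29), (nat_lit 8), (nat_lit 9),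
 (nat_lit 1), (5, 44, 66), [718, 4774], 15⟩,
  ⟨⟨-23, -72, 32, 64, -25, -52, -26, -32, -41⟩, (.cons (nat_lit 691) (nat_lit 1019) (nat_lit 1268) (nat_lit 1)
 (.cons (nat_lit 4464) (nat_lit 2391) (nat_lit 1952) (nat_lit 1) .nil)), (nat_lit 9), (nat_lit 16), (nat_lit
 30), (nat_lit 1), (21, 28, 33), [874, 4884], 23⟩,
  mz,
  mz,
  ⟨⟨75, 16, -52, 4, -55, -52, 10, 40, -59⟩, (.cons (nat_lit 17) (nat_lit 981) (nat_lit 494) (nat_lit 1) (.cons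
 (nat_lit 4002) (nat_lit 1655) (nat_lit 398) (nat_lit 1) .nil)), (nat_lit 29), (nat_lit 8), (nat_lit 18),
 (nat_lit 1), (5, 5, 48), [1294, 642], 19⟩,
  ⟨⟨11, -72, -36, -50, 11, -30, 44, -4, -73⟩, (.cons (nat_lit 108) (nat_lit 175) (nat_lit 49) (nat_lit 1)
 (.cons (nat_lit 4386) (nat_lit 3651) (nat_lit 2553) (nat_lit 1) .nil)), (nat_lit 19), (nat_lit 13), (nat_lit
 21), (nat_lit 1), (69, 22, 63), [455, 4192], 8⟩,
  ⟨⟨-39, -40, -41, 44, -55, -12, 22, 8, -77⟩, (.cons (nat_lit 780) (nat_lit 861) (nat_lit 1253) (nat_lit 1)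
 (.cons (nat_lit 3645) (nat_lit 3408) (nat_lit 2591) (nat_lit 1) .nil)), (nat_lit 10), (nat_lit 12), (nat_lit
 25), (nat_lit 1), (46, 10, 5), [1277, 4733], 6⟩,
  mz,
  ⟨⟨51, 52, -56, -44, 15, -38, 42, -24, -67⟩, (.cons (nat_lit 578) (nat_lit 933) (nat_lit 88) (nat_lit 1)
 (.cons (nat_lit 41) (nat_lit 2210) (nat_lit 3118) (nat_lit 1) .nil)), (nat_lit 21), (nat_lit 2), (nat_lit 19),
 (nat_lit 1), (52, 15, 47), [1158, 4733], 29⟩,
  ⟨⟨9, -16, 80, -10, -69, -10, 60, -12, -11⟩, (.cons (nat_lit 1330) (nat_lit 647) (nat_lit 918) (nat_lit 1)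
 (.cons (nat_lit 3883) (nat_lit 2036) (nat_lit 2551) (nat_lit 1) .nil)), (nat_lit 30), (nat_lit 16), (nat_lit
 19), (nat_lit 1), (33, 58, 7), [1167, 2277], 14⟩,
  ⟨⟨9, -16, -89, -10, -69, 20, 60, -12, -49⟩, (.cons (nat_lit 1064) (nat_lit 629) (nat_lit 1261) (nat_lit 1)
 (.cons (nat_lit 3729) (nat_lit 1199) (nat_lit 1664) (nat_lit 1) .nil)), (nat_lit 13), (nat_lit 13), (nat_lit
 26), (nat_lit 1), (19, 42, 32), [712, 212], 11⟩,
  ⟨⟨9, -56, -64, -56, 25, -12, 38, 16, -73⟩, (.cons (nat_lit 502) (nat_lit 817) (nat_lit 725) (nat_lit 1)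
 (.cons (nat_lit 1617) (nat_lit 4009) (nat_lit 3515) (nat_lit 1) .nil)), (nat_lit 0), (nat_lit 25), (nat_lit
 17), (nat_lit 1), (4, 54, 9), [237, 4618], 19⟩,
  ⟨⟨-75, 16, 23, 4, 55, 48, -10, 40, -49⟩, (.cons (nat_lit 590) (nat_lit 1123) (nat_lit 1222) (nat_lit 1)
 (.cons (nat_lit 1533) (nat_lit 4938) (nat_lit 1) (nat_lit 3195) .nil)), (nat_lit 6), (nat_lit 12), (nat_lit
 17), (nat_lit 1), (26, 45, 65), [96, 3227], 16⟩,
  ⟨⟨9, -76, -20, 44, 15, -82, -42, -24, -25⟩, (.cons (nat_lit 93) (nat_lit 718) (nat_lit 1033) (nat_lit 1)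
 (.cons (nat_lit 4198) (nat_lit 2702) (nat_lit 3885) (nat_lit 1) .nil)), (nat_lit 22), (nat_lit 29), (nat_lit
 24), (nat_lit 1), (1, 68, 19), [642, 2751], 21⟩,
  mz,
  ⟨⟨13, -72, 23, -70, -11, 40, 4, -44, -53⟩, (.cons (nat_lit 1010) (nat_lit 1125) (nat_lit 222) (nat_lit 1)
 (.cons (nat_lit 3059) (nat_lit 1222) (nat_lit 94) (nat_lit 1) .nil)), (nat_lit 2), (nat_lit 14), (nat_lit 21),
 (nat_lit 1), (14, 12, 48), [499, 4134], 7⟩,
  ⟨⟨9, 16, 80, -10, 69, -10, 60, 12, -11⟩, (.cons (nat_lit 1208) (nat_lit 102) (nat_lit 1219) (nat_lit 1)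
 (.cons (nat_lit 4177) (nat_lit 2304) (nat_lit 3089) (nat_lit 1) .nil)), (nat_lit 0), (nat_lit 18), (nat_lit
 27), (nat_lit 1), (58, 46, 8), [222, 28], 3⟩,
  ⟨⟨75, -20, -32, 10, 21, -80, 12, -60, -25⟩, (.cons (nat_lit 1330) (nat_lit 284) (nat_lit 695) (nat_lit 1)
 (.cons (nat_lit 2260) (nat_lit 1735) (nat_lit 409) (nat_lit 1) .nil)), (nat_lit 30), (nat_lit 1), (nat_lit
 12), (nat_lit 1), (52, 59, 14), [1283, 1615], 24⟩,
  mz,
  ⟨⟨-11, -72, -25, 50, 11, -80, -44, -4, -29⟩, (.cons (nat_lit 421) (nat_lit 1045) (nat_lit 1011) (nat_lit 1)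
 (.cons (nat_lit 4149) (nat_lit 3936) (nat_lit 2726) (nat_lit 1) .nil)), (nat_lit 17), (nat_lit 6), (nat_lit
 5), (nat_lit 1), (38, 8, 10), [700, 3180], 24⟩,
  ⟨⟨-75, -20, 43, 10, -21, 70, -12, -60, -13⟩, (.cons (nat_lit 916) (nat_lit 1160) (nat_lit 980) (nat_lit 1)
 (.cons (nat_lit 3667) (nat_lit 170) (nat_lit 3188) (nat_lit 1) .nil)), (nat_lit 17), (nat_lit 22), (nat_lit
 13), (nat_lit 1), (2, 66, 6), [1143, 3947], 3⟩,
  mz,
  mz,
  mz,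
  ⟨⟨11, 72, -36, 50, 11, 30, 44, 4, -73⟩, (.cons (nat_lit 59) (nat_lit 521) (nat_lit 392) (nat_lit 1) (.cons
 (nat_lit 4497) (nat_lit 1862) (nat_lit 1092) (nat_lit 1) .nil)), (nat_lit 7), (nat_lit 20), (nat_lit 11),
 (nat_lit 1), (4, 44, 16), [969, 2716], 5⟩,
  mz,
  ⟨⟨-13, 72, 36, 70, 11, -30, -4, 44, -49⟩, (.cons (nat_lit 564) (nat_lit 307) (nat_lit 1189) (nat_lit 1)
 (.cons (nat_lit 370) (nat_lit 1435) (nat_lit 3217) (nat_lit 1) .nil)), (nat_lit 9), (nat_lit 6), (nat_lit 25),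
 (nat_lit 1), (35, 30, 49), [713, 1531], 2⟩,
  ⟨⟨75, -16, -52, 4, 55, -52, 10, -40, -59⟩, (.cons (nat_lit 1330) (nat_lit 174) (nat_lit 854) (nat_lit 1)
 (.cons (nat_lit 321) (nat_lit 2803) (nat_lit 1402) (nat_lit 1) .nil)), (nat_lit 30), (nat_lit 14), (nat_lit
 3), (nat_lit 1), (51, 51, 21), [881, 2546], 15⟩,
  mz,
  ⟨⟨-27, -68, 43, 64, -15, -2, 6, -48, -49⟩, (.cons (nat_lit 614) (nat_lit 1310) (nat_lit 403) (nat_lit 1)
 (.cons (nat_lit 4695) (nat_lit 3393) (nat_lit 4644) (nat_lit 1) .nil)), (nat_lit 6), (nat_lit 10), (nat_lit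
 16), (nat_lit 1), (60, 55, 34), [1068, 4313], 22⟩,
  ⟨⟨-9, -28, -76, -70, 11, 40, 4, 44, -53⟩, (.cons (nat_lit 944) (nat_lit 608) (nat_lit 90) (nat_lit 1) (.cons
 (nat_lit 2789) (nat_lit 3617) (nat_lit 2165) (nat_lit 1) .nil)), (nat_lit 19), (nat_lit 26), (nat_lit 26),
 (nat_lit 1), (8, 7, 28), [543, 657], 8⟩,
  ⟨⟨-23, 72, 32, 64, 25, -52, -26, 32, -41⟩, (.cons (nat_lit 817) (nat_lit 1101) (nat_lit 545) (nat_lit 1)
 (.cons (nat_lit 4155) (nat_lit 2570) (nat_lit 4905) (nat_lit 1) .nil)), (nat_lit 26), (nat_lit 19), (nat_lit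
 15), (nat_lit 1), (27, 36, 12), [227, 805], 25⟩,
  ⟨⟨17, 24, 72, 36, 55, -48, 54, -24, -1⟩, (.cons (nat_lit 1330) (nat_lit 899) (nat_lit 872) (nat_lit 1) (.cons
 (nat_lit 2263) (nat_lit 3813) (nat_lit 3346) (nat_lit 1) .nil)), (nat_lit 30), (nat_lit 21), (nat_lit 7),
 (nat_lit 1), (30, 51, 41), [532, 2305], 30⟩]

/-- Moves. -/
noncomputable def t1_4 : List Mv := [
  mz,
  ⟨⟨63, 40, -56, 10, 21, 70, -12, 60, -13⟩, (.cons (nat_lit 1330) (nat_lit 659) (nat_lit 1236) (nat_lit 1)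
 (.cons (nat_lit 4580) (nat_lit 4789) (nat_lit 4651) (nat_lit 1) .nil)), (nat_lit 30), (nat_lit 6), (nat_lit
 2), (nat_lit 1), (31, 50, 11), [656, 2962], 24⟩,
  mz,
  ⟨⟨65, -24, -72, -4, 55, -48, -10, -40, -49⟩, (.cons (nat_lit 1330) (nat_lit 55) (nat_lit 846) (nat_lit 1)
 (.cons (nat_lit 1440) (nat_lit 3833) (nat_lit 2184) (nat_lit 1) .nil)), (nat_lit 30), (nat_lit 22), (nat_lit
 26), (nat_lit 1), (37, 1, 38), [159, 1772], 11⟩,
  ⟨⟨-33, -20, -59, 64, -15, -62, -6, 48, -43⟩, (.cons (nat_lit 852) (nat_lit 936) (nat_lit 736) (nat_lit 1)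
 (.cons (nat_lit 1893) (nat_lit 4515) (nat_lit 1336) (nat_lit 1) .nil)), (nat_lit 26), (nat_lit 9), (nat_lit
 7), (nat_lit 1), (45, 16, 34), [762, 1111], 23⟩,
  ⟨⟨27, -68, 16, 64, 15, -62, -6, -48, -43⟩, (.cons (nat_lit 1080) (nat_lit 1258) (nat_lit 792) (nat_lit 1)
 (.cons (nat_lit 3930) (nat_lit 94) (nat_lit 1419) (nat_lit 1) .nil)), (nat_lit 3), (nat_lit 25), (nat_lit 5),
 (nat_lit 1), (7, 35, 30), [386, 3431], 13⟩,
  mz,
  ⟨⟨-29, 72, 20, 56, 25, -68, -38, 16, -35⟩, (.cons (nat_lit 168) (nat_lit 448) (nat_lit 1307) (nat_lit 1)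
 (.cons (nat_lit 4898) (nat_lit 188) (nat_lit 3186) (nat_lit 1) .nil)), (nat_lit 26), (nat_lit 23), (nat_lit
 7), (nat_lit 1), (33, 44, 31), [678, 768], 25⟩,
  ⟨⟨3, 40, -76, 64, 25, -12, 26, -32, -67⟩, (.cons (nat_lit 103) (nat_lit 441) (nat_lit 1141) (nat_lit 1)
 (.cons (nat_lit 4214) (nat_lit 2664) (nat_lit 2164) (nat_lit 1) .nil)), (nat_lit 6), (nat_lit 17), (nat_lit
 20), (nat_lit 1), (14, 62, 3), [178, 1181], 1⟩,
  mz,
  mz,
  ⟨⟨33, -20, -92, 64, 15, -2, 6, 48, -49⟩, (.cons (nat_lit 1040) (nat_lit 781) (nat_lit 686) (nat_lit 1) (.cons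
 (nat_lit 3059) (nat_lit 1467) (nat_lit 959) (nat_lit 1) .nil)), (nat_lit 21), (nat_lit 25), (nat_lit 4),
 (nat_lit 1), (67, 3, 38), [102, 2396], 29⟩,
  ⟨⟨9, 76, -20, -44, 15, 82, -42, 24, -25⟩, (.cons (nat_lit 805) (nat_lit 858) (nat_lit 135) (nat_lit 1) (.cons
 (nat_lit 381) (nat_lit 2442) (nat_lit 1190) (nat_lit 1) .nil)), (nat_lit 3), (nat_lit 18), (nat_lit 19),
 (nat_lit 1), (31, 22, 21), [1090, 1983], 13⟩,
  mz,
  mz,
  ⟨⟨-9, 76, -11, -44, -15, -38, 42, 24, -67⟩, (.cons (nat_lit 995) (nat_lit 930) (nat_lit 977) (nat_lit 1)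
 (.cons (nat_lit 2322) (nat_lit 2751) (nat_lit 2508) (nat_lit 1) .nil)), (nat_lit 26), (nat_lit 19), (nat_lit
 18), (nat_lit 1), (25, 67, 49), [300, 1098], 23⟩,
  ⟨⟨17, 24, -89, -36, -55, -12, 54, -24, -53⟩, (.cons (nat_lit 334) (nat_lit 955) (nat_lit 980) (nat_lit 1)
 (.cons (nat_lit 2888) (nat_lit 4686) (nat_lit 1661) (nat_lit 1) .nil)), (nat_lit 29), (nat_lit 20), (nat_lit
 16), (nat_lit 1), (7, 52, 64), [300, 2295], 15⟩,
  mz,
  ⟨⟨9, 56, -64, -56, -25, -12, 38, -16, -73⟩, (.cons (nat_lit 522) (nat_lit 482) (nat_lit 942) (nat_lit 1)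
 (.cons (nat_lit 3600) (nat_lit 115) (nat_lit 2053) (nat_lit 1) .nil)), (nat_lit 7), (nat_lit 12), (nat_lit 7),
 (nat_lit 1), (56, 46, 55), [510, 609], 11⟩,
  ⟨⟨39, 40, -80, 44, -55, -32, -22, -8, -55⟩, (.cons (nat_lit 1330) (nat_lit 1136) (nat_lit 1264) (nat_lit 1)
 (.cons (nat_lit 779) (nat_lit 518) (nat_lit 1106) (nat_lit 1) .nil)), (nat_lit 30), (nat_lit 24), (nat_lit 3),
 (nat_lit 1), (28, 68, 37), [21, 2545], 25⟩,
  mz,
  mz,
  ⟨⟨17, -24, 72, 36, -55, -48, 54, 24, -1⟩, (.cons (nat_lit 976) (nat_lit 1299) (nat_lit 688) (nat_lit 1)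
 (.cons (nat_lit 808) (nat_lit 4357) (nat_lit 825) (nat_lit 1) .nil)), (nat_lit 12), (nat_lit 17), (nat_lit
 17), (nat_lit 1), (28, 5, 43), [626, 516], 18⟩,
  ⟨⟨-61, 48, 25, -44, -55, 32, -22, 8, -55⟩, (.cons (nat_lit 186) (nat_lit 905) (nat_lit 1198) (nat_lit 1)
 (.cons (nat_lit 2279) (nat_lit 1410) (nat_lit 3129) (nat_lit 1) .nil)), (nat_lit 28), (nat_lit 5), (nat_lit
 13), (nat_lit 1), (13, 28, 14), [540, 3777], 23⟩,
  ⟨⟨61, -48, -36, -44, -55, 12, 22, -8, -77⟩, (.cons (nat_lit 1330) (nat_lit 80) (nat_lit 813) (nat_lit 1)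
 (.cons (nat_lit 3009) (nat_lit 272) (nat_lit 3489) (nat_lit 1) .nil)), (nat_lit 30), (nat_lit 6), (nat_lit
 14), (nat_lit 1), (26, 15, 28), [659, 1709], 10⟩,
  mz,
  ⟨⟨51, -4, 40, 10, -69, -20, 60, 12, -49⟩, (.cons (nat_lit 1072) (nat_lit 1106) (nat_lit 1141) (nat_lit 1)
 (.cons (nat_lit 4832) (nat_lit 4434) (nat_lit 3130) (nat_lit 1) .nil)), (nat_lit 6), (nat_lit 12), (nat_lit
 1), (nat_lit 0), (60, 41, 33), [1006, 4285], 16⟩,
  mz,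
  mz,
  ⟨⟨-13, -72, 36, 70, -11, -30, -4, -44, -49⟩, (.cons (nat_lit 710) (nat_lit 601) (nat_lit 1) (nat_lit 176)
 (.cons (nat_lit 1837) (nat_lit 1195) (nat_lit 1) (nat_lit 3195) .nil)), (nat_lit 28), (nat_lit 4), (nat_lit
 5), (nat_lit 1), (29, 35, 69), [365, 4745], 21⟩,
  mz,
  ⟨⟨-33, -68, -4, -50, 11, 80, -44, 4, -29⟩, (.cons (nat_lit 368) (nat_lit 1195) (nat_lit 155) (nat_lit 1)
 (.cons (nat_lit 2984) (nat_lit 3737) (nat_lit 3999) (nat_lit 1) .nil)), (nat_lit 18), (nat_lit 28), (nat_lit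
 28), (nat_lit 1), (61, 58, 34), [144, 245], 19⟩,
  mz,
  ⟨⟨-29, -72, 20, -56, 25, 68, -38, -16, -35⟩, (.cons (nat_lit 932) (nat_lit 1173) (nat_lit 301) (nat_lit 1)
 (.cons (nat_lit 3447) (nat_lit 1332) (nat_lit 3344) (nat_lit 1) .nil)), (nat_lit 13), (nat_lit 29), (nat_lit
 1), (nat_lit 0), (27, 35, 6), [824, 442], 18⟩,
  ⟨⟨-63, 40, 7, 10, -21, -80, 12, 60, -25⟩, (.cons (nat_lit 356) (nat_lit 981) (nat_lit 1173) (nat_lit 1)
 (.cons (nat_lit 3531) (nat_lit 156) (nat_lit 4966) (nat_lit 1) .nil)), (nat_lit 11), (nat_lit 6), (nat_lit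
 12), (nat_lit 1), (60, 4, 19), [1194, 4933], 22⟩,
  mz,
  ⟨⟨3, -40, -76, 64, -25, -12, 26, 32, -67⟩, (.cons (nat_lit 1072) (nat_lit 860) (nat_lit 675) (nat_lit 1)
 (.cons (nat_lit 554) (nat_lit 3966) (nat_lit 2625) (nat_lit 1) .nil)), (nat_lit 7), (nat_lit 19), (nat_lit
 24), (nat_lit 1), (58, 54, 53), [840, 531], 11⟩,
  mz,
  ⟨⟨37, 48, 36, 36, -55, 12, 54, 24, -53⟩, (.cons (nat_lit 1330) (nat_lit 297) (nat_lit 610) (nat_lit 1) (.cons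
 (nat_lit 2394) (nat_lit 323) (nat_lit 3116) (nat_lit 1) .nil)), (nat_lit 30), (nat_lit 25), (nat_lit 18),
 (nat_lit 1), (61, 44, 66), [974, 4126], 2⟩,
  ⟨⟨-23, -72, 32, 64, -25, -52, -26, -32, -41⟩, (.cons (nat_lit 691) (nat_lit 1019) (nat_lit 1268) (nat_lit 1)
 (.cons (nat_lit 4464) (nat_lit 2391) (nat_lit 1952) (nat_lit 1) .nil)), (nat_lit 9), (nat_lit 16), (nat_lit
 30), (nat_lit 1), (21, 28, 33), [874, 4884], 23⟩,
  mz,
  mz,
  ⟨⟨-65, 24, -7, -4, 55, 52, 10, 40, -59⟩, (.cons (nat_lit 855) (nat_lit 817) (nat_lit 25) (nat_lit 1) (.cons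
 (nat_lit 4971) (nat_lit 535) (nat_lit 2015) (nat_lit 1) .nil)), (nat_lit 26), (nat_lit 29), (nat_lit 23),
 (nat_lit 1), (43, 66, 48), [94, 679], 28⟩,
  ⟨⟨33, 68, -37, -50, 11, -30, 44, -4, -73⟩, (.cons (nat_lit 966) (nat_lit 761) (nat_lit 1) (nat_lit 264)
 (.cons (nat_lit 4907) (nat_lit 3138) (nat_lit 2453) (nat_lit 1) .nil)), (nat_lit 16), (nat_lit 29), (nat_lit
 25), (nat_lit 1), (65, 22, 63), [1011, 41], 26⟩,
  ⟨⟨-39, -40, -41, 44, -55, -12, 22, 8, -77⟩, (.cons (nat_lit 780) (nat_lit 861) (nat_lit 1253) (nat_lit 1)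
 (.cons (nat_lit 3645) (nat_lit 3408) (nat_lit 2591) (nat_lit 1) .nil)), (nat_lit 10), (nat_lit 12), (nat_lit
 25), (nat_lit 1), (46, 10, 5), [1277, 4733], 6⟩,
  mz,
  ⟨⟨51, 52, -56, -44, 15, -38, 42, -24, -67⟩, (.cons (nat_lit 578) (nat_lit 933) (nat_lit 88) (nat_lit 1)
 (.cons (nat_lit 41) (nat_lit 2210) (nat_lit 3118) (nat_lit 1) .nil)), (nat_lit 21), (nat_lit 2), (nat_lit 19),
 (nat_lit 1), (52, 15, 47), [1158, 4733], 29⟩,
  ⟨⟨51, 4, -91, 10, 69, 10, 60, -12, -11⟩, (.cons (nat_lit 997) (nat_lit 1119) (nat_lit 578) (nat_lit 1) (.cons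
 (nat_lit 2037) (nat_lit 4520) (nat_lit 3659) (nat_lit 1) .nil)), (nat_lit 12), (nat_lit 30), (nat_lit 29),
 (nat_lit 1), (45, 13, 7), [884, 2878], 28⟩,
  ⟨⟨9, -16, -89, 10, 69, -20, 60, -12, -49⟩, (.cons (nat_lit 1273) (nat_lit 248) (nat_lit 372) (nat_lit 1)
 (.cons (nat_lit 2301) (nat_lit 4905) (nat_lit 1577) (nat_lit 1) .nil)), (nat_lit 9), (nat_lit 8), (nat_lit 0),
 (nat_lit 1), (19, 29, 32), [881, 10], 19⟩,
  ⟨⟨9, -56, -64, 56, -25, 12, 38, 16, -73⟩, (.cons (nat_lit 744) (nat_lit 1299) (nat_lit 258) (nat_lit 1)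
 (.cons (nat_lit 3188) (nat_lit 2350) (nat_lit 394) (nat_lit 1) .nil)), (nat_lit 13), (nat_lit 29), (nat_lit
 18), (nat_lit 1), (4, 17, 9), [1211, 209], 24⟩,
  ⟨⟨-75, 16, 23, -4, -55, -48, -10, 40, -49⟩, (.cons (nat_lit 408) (nat_lit 58) (nat_lit 16) (nat_lit 1) (.cons
 (nat_lit 774) (nat_lit 4292) (nat_lit 1859) (nat_lit 1) .nil)), (nat_lit 1), (nat_lit 10), (nat_lit 20),
 (nat_lit 1), (26, 26, 65), [983, 3192], 24⟩,
  ⟨⟨-51, 52, -5, -44, -15, 82, -42, -24, -25⟩, (.cons (nat_lit 339) (nat_lit 805) (nat_lit 724) (nat_lit 1)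
 (.cons (nat_lit 4340) (nat_lit 422) (nat_lit 2221) (nat_lit 1) .nil)), (nat_lit 6), (nat_lit 8), (nat_lit 20),
 (nat_lit 1), (18, 3, 19), [650, 337], 22⟩,
  mz,
  ⟨⟨13, -72, 23, 70, 11, -40, 4, -44, -53⟩, (.cons (nat_lit 1199) (nat_lit 199) (nat_lit 908) (nat_lit 1)
 (.cons (nat_lit 4841) (nat_lit 1750) (nat_lit 2908) (nat_lit 1) .nil)), (nat_lit 2), (nat_lit 4), (nat_lit
 12), (nat_lit 1), (14, 59, 48), [1009, 2831], 11⟩,
  ⟨⟨51, -4, -91, 10, -69, 10, 60, 12, -11⟩, (.cons (nat_lit 436) (nat_lit 1014) (nat_lit 190) (nat_lit 1)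
 (.cons (nat_lit 4597) (nat_lit 3443) (nat_lit 4588) (nat_lit 1) .nil)), (nat_lit 7), (nat_lit 6), (nat_lit 0),
 (nat_lit 1), (21, 25, 8), [1161, 3475], 30⟩,
  ⟨⟨75, -20, -32, -10, -21, 80, 12, -60, -25⟩, (.cons (nat_lit 202) (nat_lit 1140) (nat_lit 440) (nat_lit 1)
 (.cons (nat_lit 3993) (nat_lit 2116) (nat_lit 1527) (nat_lit 1) .nil)), (nat_lit 11), (nat_lit 2), (nat_lit
 17), (nat_lit 1), (52, 12, 14), [999, 4142], 10⟩,
  mz,
  ⟨⟨-33, 68, -4, -50, -11, 80, -44, -4, -29⟩, (.cons (nat_lit 471) (nat_lit 904) (nat_lit 1) (nat_lit 484)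
 (.cons (nat_lit 2624) (nat_lit 1676) (nat_lit 853) (nat_lit 1) .nil)), (nat_lit 28), (nat_lit 18), (nat_lit
 8), (nat_lit 1), (43, 63, 10), [1143, 401], 21⟩,
  ⟨⟨-75, -20, 43, -10, 21, -70, -12, -60, -13⟩, (.cons (nat_lit 562) (nat_lit 623) (nat_lit 1) (nat_lit 1199)
 (.cons (nat_lit 2500) (nat_lit 553) (nat_lit 252) (nat_lit 1) .nil)), (nat_lit 18), (nat_lit 20), (nat_lit
 25), (nat_lit 1), (2, 5, 6), [724, 4292], 2⟩,
  mz,
  mz,
  mz,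
  ⟨⟨33, -68, -37, -50, -11, -30, 44, 4, -73⟩, (.cons (nat_lit 170) (nat_lit 414) (nat_lit 859) (nat_lit 1)
 (.cons (nat_lit 1677) (nat_lit 212) (nat_lit 1812) (nat_lit 1) .nil)), (nat_lit 16), (nat_lit 24), (nat_lit
 5), (nat_lit 1), (12, 27, 16), [1046, 649], 25⟩,
  mz,
  ⟨⟨-13, 72, 36, 70, 11, -30, -4, 44, -49⟩, (.cons (nat_lit 564) (nat_lit 307) (nat_lit 1189) (nat_lit 1)
 (.cons (nat_lit 370) (nat_lit 1435) (nat_lit 3217) (nat_lit 1) .nil)), (nat_lit 9), (nat_lit 6), (nat_lit 25),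
 (nat_lit 1), (35, 30, 49), [713, 1531], 2⟩,
  ⟨⟨-65, -24, -7, -4, -55, 52, 10, -40, -59⟩, (.cons (nat_lit 199) (nat_lit 437) (nat_lit 809) (nat_lit 1)
 (.cons (nat_lit 1725) (nat_lit 3750) (nat_lit 1632) (nat_lit 1) .nil)), (nat_lit 1), (nat_lit 21), (nat_lit
 11), (nat_lit 1), (41, 20, 21), [26, 3542], 24⟩,
  mz,
  ⟨⟨33, 20, -92, 64, -15, -2, 6, -48, -49⟩, (.cons (nat_lit 629) (nat_lit 420) (nat_lit 712) (nat_lit 1) (.cons
 (nat_lit 267) (nat_lit 40) (nat_lit 5010) (nat_lit 1) .nil)), (nat_lit 3), (nat_lit 9), (nat_lit 2), (nat_lit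
 1), (45, 55, 34), [1008, 1507], 20⟩,
  ⟨⟨-9, -28, -76, 70, -11, -40, 4, 44, -53⟩, (.cons (nat_lit 1089) (nat_lit 1233) (nat_lit 633) (nat_lit 1)
 (.cons (nat_lit 1931) (nat_lit 4697) (nat_lit 4543) (nat_lit 1) .nil)), (nat_lit 10), (nat_lit 6), (nat_lit
 13), (nat_lit 1), (8, 64, 28), [1075, 3028], 23⟩,
  ⟨⟨-23, 72, 32, -64, -25, 52, -26, 32, -41⟩, (.cons (nat_lit 195) (nat_lit 916) (nat_lit 268) (nat_lit 1)
 (.cons (nat_lit 3613) (nat_lit 1694) (nat_lit 1756) (nat_lit 1) .nil)), (nat_lit 12), (nat_lit 24), (nat_lit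
 1), (nat_lit 1), (27, 35, 12), [999, 1902], 15⟩,
  ⟨⟨37, -48, -73, 36, 55, -48, 54, -24, -1⟩, (.cons (nat_lit 1246) (nat_lit 260) (nat_lit 1209) (nat_lit 1)
 (.cons (nat_lit 3354) (nat_lit 2953) (nat_lit 944) (nat_lit 1) .nil)), (nat_lit 15), (nat_lit 4), (nat_lit
 20), (nat_lit 1), (11, 51, 41), [688, 3395], 4⟩]

/-- Moves. -/
noncomputable def t4_1 : List Mv := [
  mz,
  ⟨⟨3, 20, 29, 4, -25, 18, 26, 8, -7⟩, (.cons (nat_lit 810) (nat_lit 90) (nat_lit 173) (nat_lit 1) (.cons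
 (nat_lit 2398) (nat_lit 3468) (nat_lit 2910) (nat_lit 1) .nil)), (nat_lit 26), (nat_lit 0), (nat_lit 0),
 (nat_lit 0), (26, 14, 29), [304, 4985], 0⟩,
  ⟨⟨3, -20, 29, 4, 25, 18, 26, -8, -7⟩, (.cons (nat_lit 563) (nat_lit 1327) (nat_lit 1280) (nat_lit 1) (.cons
 (nat_lit 4512) (nat_lit 4897) (nat_lit 4626) (nat_lit 1) .nil)), (nat_lit 26), (nat_lit 0), (nat_lit 0),
 (nat_lit 0), (19, 15, 20), [850, 3789], 0⟩,
  mz,
  ⟨⟨-33, 8, 17, 4, 15, 28, -6, 24, -11⟩, (.cons (nat_lit 784) (nat_lit 130) (nat_lit 1) (nat_lit 0) (.cons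
 (nat_lit 2167) (nat_lit 3011) (nat_lit 3394) (nat_lit 1) .nil)), (nat_lit 21), (nat_lit 0), (nat_lit 0),
 (nat_lit 0), (23, 16, 7), [1294, 3935], 0⟩,
  mz,
  ⟨⟨21, -4, -40, 16, 25, 2, 22, -16, -5⟩, (.cons (nat_lit 1270) (nat_lit 507) (nat_lit 556) (nat_lit 1) (.cons
 (nat_lit 3067) (nat_lit 1324) (nat_lit 2647) (nat_lit 1) .nil)), (nat_lit 23), (nat_lit 0), (nat_lit 0),
 (nat_lit 0), (21, 16, 22), [134, 4503], 0⟩,
  mz,
  ⟨⟨27, -20, -19, 10, 19, -30, -4, -20, -19⟩, (.cons (nat_lit 787) (nat_lit 983) (nat_lit 1285) (nat_lit 1)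
 (.cons (nat_lit 1625) (nat_lit 2322) (nat_lit 1228) (nat_lit 1) .nil)), (nat_lit 25), (nat_lit 0), (nat_lit
 0), (nat_lit 0), (29, 5, 29), [677, 5037], 0⟩,
  mz,
  mz,
  mz,
  mz,
  ⟨⟨-31, 0, 0, 10, -19, -30, -4, 20, -19⟩, (.cons (nat_lit 568) (nat_lit 952) (nat_lit 61) (nat_lit 1) (.cons
 (nat_lit 4726) (nat_lit 1518) (nat_lit 4806) (nat_lit 1) .nil)), (nat_lit 8), (nat_lit 0), (nat_lit 0),
 (nat_lit 0), (0, 3, 5), [415, 1007], 0⟩,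
  ⟨⟨27, -16, -28, -4, 15, -28, -6, -24, -11⟩, (.cons (nat_lit 1330) (nat_lit 219) (nat_lit 41) (nat_lit 1)
 (.cons (nat_lit 5040) (nat_lit 3149) (nat_lit 3498) (nat_lit 1) .nil)), (nat_lit 14), (nat_lit 0), (nat_lit
 0), (nat_lit 0), (28, 28, 11), [201, 4035], 0⟩,
  ⟨⟨3, 20, -32, 4, -25, -22, 26, 8, -19⟩, (.cons (nat_lit 501) (nat_lit 797) (nat_lit 553) (nat_lit 1) (.cons
 (nat_lit 3891) (nat_lit 4418) (nat_lit 1247) (nat_lit 1) .nil)), (nat_lit 26), (nat_lit 0), (nat_lit 0),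
 (nat_lit 0), (10, 3, 4), [697, 2950], 0⟩,
  mz,
  mz,
  ⟨⟨1, -12, -36, 16, 25, -18, 22, -16, -17⟩, (.cons (nat_lit 288) (nat_lit 889) (nat_lit 1) (nat_lit 154)
 (.cons (nat_lit 556) (nat_lit 2785) (nat_lit 3295) (nat_lit 1) .nil)), (nat_lit 1), (nat_lit 0), (nat_lit 0),
 (nat_lit 0), (21, 26, 28), [381, 2000], 0⟩,
  ⟨⟨29, -12, 0, 10, 29, 0, 20, -4, -31⟩, (.cons (nat_lit 748) (nat_lit 405) (nat_lit 415) (nat_lit 1) (.cons
 (nat_lit 586) (nat_lit 2307) (nat_lit 4672) (nat_lit 1) .nil)), (nat_lit 24), (nat_lit 0), (nat_lit 0),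
 (nat_lit 0), (28, 15, 30), [230, 1860], 0⟩,
  ⟨⟨9, 8, -40, 10, -29, -10, -20, -4, -11⟩, (.cons (nat_lit 1330) (nat_lit 53) (nat_lit 265) (nat_lit 1) (.cons
 (nat_lit 5040) (nat_lit 4958) (nat_lit 485) (nat_lit 1) .nil)), (nat_lit 20), (nat_lit 0), (nat_lit 0),
 (nat_lit 0), (27, 30, 2), [1142, 2747], 0⟩,
  ⟨⟨-27, 16, -1, -4, 15, 32, 6, 24, -17⟩, (.cons (nat_lit 0) (nat_lit 173) (nat_lit 73) (nat_lit 1) (.cons
 (nat_lit 2959) (nat_lit 2939) (nat_lit 3867) (nat_lit 1) .nil)), (nat_lit 4), (nat_lit 0), (nat_lit 0),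
 (nat_lit 0), (2, 29, 3), [1146, 3019], 0⟩,
  ⟨⟨-29, 12, 29, -10, -29, 10, -20, 4, -11⟩, (.cons (nat_lit 1028) (nat_lit 11) (nat_lit 795) (nat_lit 1)
 (.cons (nat_lit 1023) (nat_lit 1226) (nat_lit 3918) (nat_lit 1) .nil)), (nat_lit 24), (nat_lit 0), (nat_lit
 0), (nat_lit 0), (4, 11, 22), [978, 4983], 0⟩,
  ⟨⟨3, -20, -32, 4, 25, -22, 26, -8, -19⟩, (.cons (nat_lit 801) (nat_lit 1304) (nat_lit 336) (nat_lit 1) (.cons
 (nat_lit 3667) (nat_lit 2353) (nat_lit 3314) (nat_lit 1) .nil)), (nat_lit 26), (nat_lit 0), (nat_lit 0),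
 (nat_lit 0), (3, 4, 26), [1264, 746], 0⟩,
  ⟨⟨29, 12, 0, -10, 29, 0, 20, 4, -31⟩, (.cons (nat_lit 356) (nat_lit 899) (nat_lit 1) (nat_lit 88) (.cons
 (nat_lit 714) (nat_lit 1209) (nat_lit 1334) (nat_lit 1) .nil)), (nat_lit 19), (nat_lit 0), (nat_lit 0),
 (nat_lit 0), (26, 6, 19), [380, 3419], 0⟩,
  ⟨⟨31, 0, -31, -10, 19, -20, 4, -20, -23⟩, (.cons (nat_lit 849) (nat_lit 1301) (nat_lit 455) (nat_lit 1)
 (.cons (nat_lit 4464) (nat_lit 3929) (nat_lit 2816) (nat_lit 1) .nil)), (nat_lit 8), (nat_lit 0), (nat_lit 0),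
 (nat_lit 0), (0, 22, 16), [409, 4149], 0⟩,
  ⟨⟨1, 12, 35, 16, -25, 2, 22, 16, -5⟩, (.cons (nat_lit 327) (nat_lit 1183) (nat_lit 662) (nat_lit 1) (.cons
 (nat_lit 4362) (nat_lit 625) (nat_lit 4859) (nat_lit 1) .nil)), (nat_lit 1), (nat_lit 0), (nat_lit 0),
 (nat_lit 0), (30, 15, 9), [734, 1706], 0⟩,
  ⟨⟨33, -8, -16, 4, 15, -32, 6, -24, -17⟩, (.cons (nat_lit 1330) (nat_lit 1112) (nat_lit 1146) (nat_lit 1)
 (.cons (nat_lit 5040) (nat_lit 1056) (nat_lit 2120) (nat_lit 1) .nil)), (nat_lit 27), (nat_lit 0), (nat_lit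
 0), (nat_lit 0), (23, 15, 7), [863, 904], 0⟩,
  ⟨⟨1, 12, -36, 16, -25, -18, 22, 16, -17⟩, (.cons (nat_lit 996) (nat_lit 81) (nat_lit 848) (nat_lit 1) (.cons
 (nat_lit 909) (nat_lit 3480) (nat_lit 4119) (nat_lit 1) .nil)), (nat_lit 1), (nat_lit 0), (nat_lit 0),
 (nat_lit 0), (19, 25, 15), [796, 678], 0⟩,
  ⟨⟨31, 0, -31, -10, -19, -20, 4, 20, -23⟩, (.cons (nat_lit 314) (nat_lit 535) (nat_lit 888) (nat_lit 1) (.cons
 (nat_lit 2274) (nat_lit 917) (nat_lit 1890) (nat_lit 1) .nil)), (nat_lit 8), (nat_lit 0), (nat_lit 0),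
 (nat_lit 0), (0, 20, 23), [452, 4909], 0⟩]

/-- Moves. -/
noncomputable def t4_4 : List Mv := [
  mz,
  ⟨⟨3, 20, 29, -4, 25, -18, 26, 8, -7⟩, (.cons (nat_lit 30) (nat_lit 754) (nat_lit 660) (nat_lit 1) (.cons
 (nat_lit 326) (nat_lit 1479) (nat_lit 1664) (nat_lit 1) .nil)), (nat_lit 6), (nat_lit 0), (nat_lit 0),
 (nat_lit 0), (26, 17, 29), [951, 2218], 0⟩,
  ⟨⟨3, -20, 29, -4, -25, -18, 26, -8, -7⟩, (.cons (nat_lit 1313) (nat_lit 636) (nat_lit 739) (nat_lit 1) (.cons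
 (nat_lit 831) (nat_lit 2240) (nat_lit 1874) (nat_lit 1) .nil)), (nat_lit 6), (nat_lit 0), (nat_lit 0),
 (nat_lit 0), (19, 16, 20), [1106, 3411], 0⟩,
  mz,
  ⟨⟨-33, 8, 17, -4, -15, -28, -6, 24, -11⟩, (.cons (nat_lit 276) (nat_lit 533) (nat_lit 606) (nat_lit 1) (.cons
 (nat_lit 461) (nat_lit 3685) (nat_lit 4193) (nat_lit 1) .nil)), (nat_lit 27), (nat_lit 0), (nat_lit 0),
 (nat_lit 0), (23, 15, 7), [586, 2449], 0⟩,
  mz,
  ⟨⟨1, -12, 35, -16, -25, -2, 22, -16, -5⟩, (.cons (nat_lit 1257) (nat_lit 479) (nat_lit 115) (nat_lit 1)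
 (.cons (nat_lit 4216) (nat_lit 2994) (nat_lit 3504) (nat_lit 1) .nil)), (nat_lit 2), (nat_lit 0), (nat_lit 0),
 (nat_lit 0), (1, 15, 22), [406, 4530], 0⟩,
  mz,
  ⟨⟨-31, 0, 0, -10, -19, 30, -4, -20, -19⟩, (.cons (nat_lit 1174) (nat_lit 392) (nat_lit 260) (nat_lit 1)
 (.cons (nat_lit 16) (nat_lit 917) (nat_lit 3760) (nat_lit 1) .nil)), (nat_lit 13), (nat_lit 0), (nat_lit 0),
 (nat_lit 0), (0, 26, 29), [600, 701], 0⟩,
  mz,
  mz,
  mz,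
  mz,
  ⟨⟨-31, 0, 0, 10, -19, -30, -4, 20, -19⟩, (.cons (nat_lit 568) (nat_lit 952) (nat_lit 61) (nat_lit 1) (.cons
 (nat_lit 4726) (nat_lit 1518) (nat_lit 4806) (nat_lit 1) .nil)), (nat_lit 8), (nat_lit 0), (nat_lit 0),
 (nat_lit 0), (0, 3, 5), [415, 1007], 0⟩,
  ⟨⟨27, -16, -28, -4, 15, -28, -6, -24, -11⟩, (.cons (nat_lit 1330) (nat_lit 219) (nat_lit 41) (nat_lit 1)
 (.cons (nat_lit 5040) (nat_lit 3149) (nat_lit 3498) (nat_lit 1) .nil)), (nat_lit 14), (nat_lit 0), (nat_lit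
 0), (nat_lit 0), (28, 28, 11), [201, 4035], 0⟩,
  ⟨⟨23, -12, 13, 4, -25, -22, 26, 8, -19⟩, (.cons (nat_lit 799) (nat_lit 1122) (nat_lit 656) (nat_lit 1) (.cons
 (nat_lit 2294) (nat_lit 2010) (nat_lit 2395) (nat_lit 1) .nil)), (nat_lit 18), (nat_lit 0), (nat_lit 0),
 (nat_lit 0), (25, 3, 4), [1152, 1854], 0⟩,
  mz,
  mz,
  ⟨⟨21, -4, 19, -16, -25, 18, 22, -16, -17⟩, (.cons (nat_lit 668) (nat_lit 1188) (nat_lit 1022) (nat_lit 1)
 (.cons (nat_lit 1391) (nat_lit 1845) (nat_lit 656) (nat_lit 1) .nil)), (nat_lit 15), (nat_lit 0), (nat_lit 0),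
 (nat_lit 0), (7, 5, 28), [545, 3036], 0⟩,
  ⟨⟨-9, 8, -31, -10, -29, 0, 20, -4, -31⟩, (.cons (nat_lit 218) (nat_lit 151) (nat_lit 781) (nat_lit 1) (.cons
 (nat_lit 830) (nat_lit 174) (nat_lit 35) (nat_lit 1) .nil)), (nat_lit 20), (nat_lit 0), (nat_lit 0), (nat_lit
 0), (2, 16, 30), [832, 1748], 0⟩,
  ⟨⟨9, 8, -40, 10, -29, -10, -20, -4, -11⟩, (.cons (nat_lit 1330) (nat_lit 53) (nat_lit 265) (nat_lit 1) (.cons
 (nat_lit 5040) (nat_lit 4958) (nat_lit 485) (nat_lit 1) .nil)), (nat_lit 20), (nat_lit 0), (nat_lit 0),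
 (nat_lit 0), (27, 30, 2), [1142, 2747], 0⟩,
  ⟨⟨33, 8, -16, -4, 15, 32, 6, 24, -17⟩, (.cons (nat_lit 1330) (nat_lit 18) (nat_lit 354) (nat_lit 1) (.cons
 (nat_lit 5040) (nat_lit 91) (nat_lit 1497) (nat_lit 1) .nil)), (nat_lit 21), (nat_lit 0), (nat_lit 0),
 (nat_lit 0), (1, 29, 3), [575, 3751], 0⟩,
  ⟨⟨9, -8, -40, 10, 29, -10, -20, 4, -11⟩, (.cons (nat_lit 1328) (nat_lit 439) (nat_lit 1) (nat_lit 737) (.cons
 (nat_lit 217) (nat_lit 2529) (nat_lit 3843) (nat_lit 1) .nil)), (nat_lit 20), (nat_lit 0), (nat_lit 0),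
 (nat_lit 0), (18, 20, 22), [959, 224], 0⟩,
  ⟨⟨3, -20, -32, -4, -25, 22, 26, -8, -19⟩, (.cons (nat_lit 240) (nat_lit 772) (nat_lit 991) (nat_lit 1) (.cons
 (nat_lit 3971) (nat_lit 159) (nat_lit 4289) (nat_lit 1) .nil)), (nat_lit 6), (nat_lit 0), (nat_lit 0),
 (nat_lit 0), (3, 27, 26), [69, 1451], 0⟩,
  ⟨⟨-9, -8, -31, 10, -29, 0, 20, 4, -31⟩, (.cons (nat_lit 1208) (nat_lit 22) (nat_lit 622) (nat_lit 1) (.cons
 (nat_lit 3883) (nat_lit 3187) (nat_lit 144) (nat_lit 1) .nil)), (nat_lit 22), (nat_lit 0), (nat_lit 0),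
 (nat_lit 0), (24, 25, 19), [766, 1677], 0⟩,
  ⟨⟨31, 0, -31, -10, 19, -20, 4, -20, -23⟩, (.cons (nat_lit 849) (nat_lit 1301) (nat_lit 455) (nat_lit 1)
 (.cons (nat_lit 4464) (nat_lit 3929) (nat_lit 2816) (nat_lit 1) .nil)), (nat_lit 8), (nat_lit 0), (nat_lit 0),
 (nat_lit 0), (0, 22, 16), [409, 4149], 0⟩,
  ⟨⟨1, 12, 35, -16, 25, -2, 22, 16, -5⟩, (.cons (nat_lit 435) (nat_lit 409) (nat_lit 889) (nat_lit 1) (.cons
 (nat_lit 4879) (nat_lit 1877) (nat_lit 3344) (nat_lit 1) .nil)), (nat_lit 2), (nat_lit 0), (nat_lit 0),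
 (nat_lit 0), (30, 16, 9), [548, 4791], 0⟩,
  ⟨⟨-27, -16, -1, -4, -15, 32, 6, -24, -17⟩, (.cons (nat_lit 815) (nat_lit 842) (nat_lit 1242) (nat_lit 1)
 (.cons (nat_lit 3193) (nat_lit 4530) (nat_lit 647) (nat_lit 1) .nil)), (nat_lit 4), (nat_lit 0), (nat_lit 0),
 (nat_lit 0), (15, 16, 7), [872, 1063], 0⟩,
  ⟨⟨1, 12, -36, 16, -25, -18, 22, 16, -17⟩, (.cons (nat_lit 996) (nat_lit 81) (nat_lit 848) (nat_lit 1) (.cons
 (nat_lit 909) (nat_lit 3480) (nat_lit 4119) (nat_lit 1) .nil)), (nat_lit 1), (nat_lit 0), (nat_lit 0),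
 (nat_lit 0), (19, 25, 15), [796, 678], 0⟩,
  ⟨⟨31, 0, -31, -10, -19, -20, 4, 20, -23⟩, (.cons (nat_lit 314) (nat_lit 535) (nat_lit 888) (nat_lit 1) (.cons
 (nat_lit 2274) (nat_lit 917) (nat_lit 1890) (nat_lit 1) .nil)), (nat_lit 8), (nat_lit 0), (nat_lit 0),
 (nat_lit 0), (0, 20, 23), [452, 4909], 0⟩]

/-- All the moves. -/
noncomputable def tabs : List (List (List Mv)) := [[[], t0_1, [], [], t0_4], [[], t1_1, [], [], t1_4], [], [], [[], t4_1, [], [], t4_4]]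

/-- Subtrie. -/
noncomputable def T1 : Tr := (.ev (nat_lit 20) (nat_lit 948215808) (.nd (nat_lit 33) (.br (nat_lit 39) (.br
 (nat_lit 19) (.br (nat_lit 8) (.br (nat_lit 4) (.br (nat_lit 3) (.ch (nat_lit 1) (.ev (nat_lit 52) (nat_lit
 85459270) (.ev (nat_lit 84) (nat_lit 2097152) (.ev (nat_lit 660) (nat_lit 16) (.nd (nat_lit 2160) (.br
 (nat_lit 7) (.br (nat_lit 5) (.ch (nat_lit 1) (.ev (nat_lit 2176) (nat_lit 37765120) .dd)) (.ch (nat_lit 5)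
 (.ev (nat_lit 2176) (nat_lit 4194304) (.fin (nat_lit 576470098152735306))))) (.br (nat_lit 9) (.ch (nat_lit 7)
 (.ev (nat_lit 2176) (nat_lit 37748736) (.ev (nat_lit 2189) (nat_lit 16384) .dd))) (.ch (nat_lit 9) (.ev
 (nat_lit 2176) (nat_lit 33554432) (.ev (nat_lit 2208) (nat_lit 4194304) (.ev (nat_lit 2221) (nat_lit 16384)
 .dd))))))))))) (.ch (nat_lit 3) (.ev (nat_lit 52) (nat_lit 122683408) (.ev (nat_lit 352) (nat_lit 2638150)
 .dd)))) (.br (nat_lit 5) (.ch (nat_lit 4) (.ev (nat_lit 52) (nat_lit 88604930) (.ev (nat_lit 148) (nat_lit 16)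
 (.ev (nat_lit 244) (nat_lit 64) (.ev (nat_lit 704) (nat_lit 36716548) .dd))))) (.br (nat_lit 7) (.ch (nat_lit
 5) (.ev (nat_lit 52) (nat_lit 18350148) (.ev (nat_lit 116) (nat_lit 2097152) (.ev (nat_lit 148) (nat_lit 256)
 (.ev (nat_lit 1012) (nat_lit 16384) (.ev (nat_lit 1344) (nat_lit 37748752) (.nd (nat_lit 2160) (.ch (nat_lit
 0) (.fin (nat_lit 576474496205537872)))))))))) (.ch (nat_lit 7) (.ev (nat_lit 52) (nat_lit 4718598) (.ev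
 (nat_lit 148) (nat_lit 16384) (.ev (nat_lit 276) (nat_lit 16) (.ev (nat_lit 308) (nat_lit 67108864) (.ev
 (nat_lit 692) (nat_lit 256) (.ev (nat_lit 768) (nat_lit 53477440) .dd)))))))))) (.br (nat_lit 15) (.br
 (nat_lit 11) (.ch (nat_lit 8) (.ev (nat_lit 52) (nat_lit 17826114) (.ev (nat_lit 404) (nat_lit 16) (.ev
 (nat_lit 628) (nat_lit 33554432) (.ev (nat_lit 916) (nat_lit 4194304) (.ev (nat_lit 980) (nat_lit 524288) (.ev
 (nat_lit 1108) (nat_lit 67108864) (.ev (nat_lit 1700) (nat_lit 4) (.ev (nat_lit 1712) (nat_lit 2097152) (.ev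
 (nat_lit 1725) (nat_lit 16384) .dd)))))))))) (.br (nat_lit 12) (.ch (nat_lit 11) (.ev (nat_lit 52) (nat_lit
 55574594) (.ev (nat_lit 180) (nat_lit 4) (.ev (nat_lit 308) (nat_lit 256) (.ev (nat_lit 340) (nat_lit
 67633152) (.ev (nat_lit 500) (nat_lit 16384) (.ev (nat_lit 1120) (nat_lit 2097168) .dd))))))) (.ch (nat_lit
 12) (.ev (nat_lit 52) (nat_lit 50331908) (.ev (nat_lit 116) (nat_lit 16384) (.ev (nat_lit 788) (nat_lit
 524288) (.ev (nat_lit 1044) (nat_lit 16) (.ev (nat_lit 1140) (nat_lit 2097152) (.ev (nat_lit 1472) (nat_lit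
 5242944) (.nd (nat_lit 2160) (.ch (nat_lit 0) (.fin (nat_lit 576474496205537872))))))))))))) (.br (nat_lit 16)
 (.ch (nat_lit 15) (.ev (nat_lit 52) (nat_lit 104857924) (.ev (nat_lit 116) (nat_lit 524290) (.ev (nat_lit 724)
 (nat_lit 16) (.ev (nat_lit 992) (nat_lit 19939328) .dd))))) (.br (nat_lit 18) (.ch (nat_lit 16) (.ev (nat_lit
 52) (nat_lit 84427010) (.ev (nat_lit 180) (nat_lit 4194304) (.ev (nat_lit 660) (nat_lit 33554432) (.ev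
 (nat_lit 1540) (nat_lit 64) (.ev (nat_lit 2020) (nat_lit 1048576) (.ev (nat_lit 2144) (nat_lit 4) (.nd
 (nat_lit 2160) (.br (nat_lit 9) (.br (nat_lit 5) (.ch (nat_lit 1) (.ev (nat_lit 2176) (nat_lit 2097168) .dd))
 (.ch (nat_lit 5) (.nd (nat_lit 2304) (.br (nat_lit 10) (.ch (nat_lit 3) (.fin (nat_lit 576452505952010812)))
 (.ch (nat_lit 10) (.ev (nat_lit 2320) (nat_lit 2097168) .dd)))))) (.br (nat_lit 10) (.ch (nat_lit 9) (.ev
 (nat_lit 2176) (nat_lit 2097168) .dd)) (.ch (nat_lit 10) (.ev (nat_lit 2176) (nat_lit 2097168) .dd))))))))))))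
 (.ch (nat_lit 18) (.ev (nat_lit 52) (nat_lit 38273300) (.ev (nat_lit 148) (nat_lit 2) (.ev (nat_lit 468)
 (nat_lit 16777216) (.ev (nat_lit 564) (nat_lit 64) (.ev (nat_lit 1024) (nat_lit 70270976) .dd)))))))))) (.br
 (nat_lit 29) (.br (nat_lit 23) (.br (nat_lit 22) (.ch (nat_lit 19) (.ev (nat_lit 52) (nat_lit 119537668) (.ev
 (nat_lit 244) (nat_lit 4194304) (.ev (nat_lit 480) (nat_lit 1589586) .dd)))) (.ch (nat_lit 22) (.ev (nat_lit
 52) (nat_lit 105922624) (.ev (nat_lit 308) (nat_lit 16777216) (.ev (nat_lit 628) (nat_lit 524288) (.ev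
 (nat_lit 1540) (nat_lit 4) (.ev (nat_lit 1748) (nat_lit 2) (.ev (nat_lit 2128) (nat_lit 256) (.nd (nat_lit
 2160) (.br (nat_lit 7) (.br (nat_lit 5) (.ch (nat_lit 0) (.ev (nat_lit 2176) (nat_lit 2097168) .dd)) (.ch
 (nat_lit 5) (.nd (nat_lit 2304) (.br (nat_lit 8) (.ch (nat_lit 3) (.fin (nat_lit 576452505952010812))) (.ch
 (nat_lit 8) (.ev (nat_lit 2320) (nat_lit 2097168) .dd)))))) (.br (nat_lit 10) (.ch (nat_lit 7) (.ev (nat_lit
 2176) (nat_lit 2097168) .dd)) (.ch (nat_lit 10) (.ev (nat_lit 2176) (nat_lit 2097168) .dd))))))))))))) (.br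
 (nat_lit 24) (.ch (nat_lit 23) (.ev (nat_lit 52) (nat_lit 524354) (.ev (nat_lit 96) (nat_lit 124797204) .dd)))
 (.br (nat_lit 26) (.ch (nat_lit 24) (.ev (nat_lit 52) (nat_lit 4194640) (.ev (nat_lit 148) (nat_lit 2097152)
 (.ev (nat_lit 320) (nat_lit 119029766) .dd)))) (.ch (nat_lit 26) (.ev (nat_lit 52) (nat_lit 69730324) (.ev
 (nat_lit 276) (nat_lit 33554432) (.ev (nat_lit 404) (nat_lit 2) (.ev (nat_lit 576) (nat_lit 22036800)
 .dd)))))))) (.br (nat_lit 34) (.br (nat_lit 31) (.ch (nat_lit 29) (.ev (nat_lit 52) (nat_lit 107479120) (.ev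
 (nat_lit 372) (nat_lit 16777216) (.ev (nat_lit 628) (nat_lit 256) (.ev (nat_lit 660) (nat_lit 2) (.ev (nat_lit
 1044) (nat_lit 16384) (.nd (nat_lit 2160) (.br (nat_lit 5) (.ch (nat_lit 0) (.ev (nat_lit 2176) (nat_lit
 1048576) (.ev (nat_lit 2189) (nat_lit 4) .dd))) (.br (nat_lit 9) (.ch (nat_lit 5) (.ev (nat_lit 2246) (nat_lit
 1048580) .dd)) (.ch (nat_lit 9) (.ev (nat_lit 2176) (nat_lit 1048576) (.ev (nat_lit 2189) (nat_lit 4)
 .dd)))))))))))) (.br (nat_lit 33) (.ch (nat_lit 31) (.ev (nat_lit 52) (nat_lit 103301140) (.ev (nat_lit 116)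
 (nat_lit 256) (.ev (nat_lit 276) (nat_lit 16777216) (.ev (nat_lit 340) (nat_lit 2) (.ev (nat_lit 436) (nat_lit
 1048576) (.nd (nat_lit 2160) (.br (nat_lit 2) (.ch (nat_lit 0) (.ev (nat_lit 2176) (nat_lit 4194304) (.ev
 (nat_lit 2189) (nat_lit 64) .dd))) (.br (nat_lit 7) (.ch (nat_lit 2) (.ev (nat_lit 2176) (nat_lit 4194304)
 (.ev (nat_lit 2189) (nat_lit 64) .dd))) (.ch (nat_lit 7) (.ev (nat_lit 2278) (nat_lit 4194368) .dd)))))))))))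
 (.ch (nat_lit 33) (.ev (nat_lit 52) (nat_lit 53477638) (.ev (nat_lit 148) (nat_lit 524288) (.ev (nat_lit 948)
 (nat_lit 64) (.ev (nat_lit 1012) (nat_lit 16) (.ev (nat_lit 1984) (nat_lit 67125248) (.ev (nat_lit 1997)
 (nat_lit 4194304) .dd))))))))) (.br (nat_lit 36) (.ch (nat_lit 34) (.ev (nat_lit 52) (nat_lit 39337988) (.ev
 (nat_lit 116) (nat_lit 16) (.ev (nat_lit 340) (nat_lit 16777216) (.ev (nat_lit 660) (nat_lit 256) (.ev
 (nat_lit 1460) (nat_lit 67108864) (.ev (nat_lit 1616) (nat_lit 64) (.ev (nat_lit 1760) (nat_lit 2) (.ev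
 (nat_lit 1773) (nat_lit 2097152) .dd))))))))) (.br (nat_lit 38) (.ch (nat_lit 36) (.ev (nat_lit 52) (nat_lit
 105381892) (.ev (nat_lit 308) (nat_lit 16) (.ev (nat_lit 404) (nat_lit 16777216) (.ev (nat_lit 596) (nat_lit
 16384) (.ev (nat_lit 724) (nat_lit 256) (.ev (nat_lit 1360) (nat_lit 3145728) (.ev (nat_lit 2004) (nat_lit 2)
 (.ev (nat_lit 2013) (nat_lit 64) .dd))))))))) (.ch (nat_lit 38) (.ev (nat_lit 52) (nat_lit 52953172) (.ev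
 (nat_lit 276) (nat_lit 256) (.ev (nat_lit 692) (nat_lit 67125248) (.ev (nat_lit 948) (nat_lit 1048576) (.ev
 (nat_lit 1440) (nat_lit 2) (.ev (nat_lit 1453) (nat_lit 4194304) .dd)))))))))))) (.br (nat_lit 54) (.br
 (nat_lit 47) (.br (nat_lit 43) (.br (nat_lit 42) (.ch (nat_lit 39) (.ev (nat_lit 52) (nat_lit 38273090) (.ev
 (nat_lit 212) (nat_lit 4) (.ev (nat_lit 468) (nat_lit 256) (.ev (nat_lit 692) (nat_lit 16777216) (.ev (nat_lit
 724) (nat_lit 16384) (.ev (nat_lit 1488) (nat_lit 1048592) (.ev (nat_lit 1892) (nat_lit 2097152) (.ev (nat_lit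
 1901) (nat_lit 67108864) .dd))))))))) (.ch (nat_lit 42) (.ev (nat_lit 52) (nat_lit 51904788) (.ev (nat_lit
 372) (nat_lit 16384) (.ev (nat_lit 628) (nat_lit 67108864) (.ev (nat_lit 884) (nat_lit 4194304) (.ev (nat_lit
 1088) (nat_lit 2097218) .dd))))))) (.br (nat_lit 44) (.ch (nat_lit 43) (.ev (nat_lit 52) (nat_lit 73416724)
 (.ev (nat_lit 212) (nat_lit 1048576) (.ev (nat_lit 608) (nat_lit 50856258) .dd)))) (.br (nat_lit 46) (.ch
 (nat_lit 44) (.ev (nat_lit 52) (nat_lit 68173824) (.ev (nat_lit 64) (nat_lit 57147734) .dd))) (.ch (nat_lit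
 46) (.ev (nat_lit 52) (nat_lit 101711938) (.ev (nat_lit 212) (nat_lit 4194304) (.ev (nat_lit 500) (nat_lit
 18874368) (.ev (nat_lit 1012) (nat_lit 524288) (.ev (nat_lit 1140) (nat_lit 16) (.nd (nat_lit 2160) (.br
 (nat_lit 9) (.ch (nat_lit 2) (.ev (nat_lit 2176) (nat_lit 16640) (.ev (nat_lit 2189) (nat_lit 4) .dd))) (.br
 (nat_lit 10) (.ch (nat_lit 9) (.ev (nat_lit 2176) (nat_lit 4) (.fin (nat_lit 576465700116709950)))) (.ch
 (nat_lit 10) (.ev (nat_lit 2176) (nat_lit 16644) .dd)))))))))))))) (.br (nat_lit 50) (.br (nat_lit 48) (.ch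
 (nat_lit 47) (.ev (nat_lit 52) (nat_lit 70270992) (.ev (nat_lit 276) (nat_lit 2) (.ev (nat_lit 372) (nat_lit
 33554432) (.ev (nat_lit 596) (nat_lit 524288) (.ev (nat_lit 788) (nat_lit 256) (.ev (nat_lit 960) (nat_lit
 20971588) .dd))))))) (.br (nat_lit 49) (.ch (nat_lit 48) (.ev (nat_lit 52) (nat_lit 52445250) (.ev (nat_lit
 84) (nat_lit 67109120) (.ev (nat_lit 180) (nat_lit 1048576) (.ev (nat_lit 404) (nat_lit 524288) (.ev (nat_lit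
 564) (nat_lit 4194304) (.ev (nat_lit 1876) (nat_lit 4) (.ev (nat_lit 1885) (nat_lit 16) .dd)))))))) (.ch
 (nat_lit 49) (.ev (nat_lit 52) (nat_lit 17842178) (.ev (nat_lit 256) (nat_lit 107479380) .dd))))) (.br
 (nat_lit 51) (.ch (nat_lit 50) (.ev (nat_lit 52) (nat_lit 41435456) (.ev (nat_lit 372) (nat_lit 16) (.ev
 (nat_lit 404) (nat_lit 67108864) (.ev (nat_lit 1044) (nat_lit 2) (.nd (nat_lit 2160) (.br (nat_lit 1) (.ch
 (nat_lit 0) (.ev (nat_lit 2176) (nat_lit 4) (.ev (nat_lit 2189) (nat_lit 16777216) .dd))) (.br (nat_lit 5)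
 (.ch (nat_lit 1) (.fin (nat_lit 576465700103078471))) (.ch (nat_lit 5) (.ev (nat_lit 2228) (nat_lit 4) (.ev
 (nat_lit 2237) (nat_lit 16777216) .dd))))))))))) (.br (nat_lit 53) (.ch (nat_lit 51) (.ev (nat_lit 52)
 (nat_lit 524546) (.ev (nat_lit 128) (nat_lit 124797012) .dd))) (.ch (nat_lit 53) (.ev (nat_lit 52) (nat_lit
 19923222) (.ev (nat_lit 308) (nat_lit 16384) (.ev (nat_lit 436) (nat_lit 64) (.ev (nat_lit 468) (nat_lit
 33554432) (.ev (nat_lit 500) (nat_lit 67108864) (.nd (nat_lit 2160) (.br (nat_lit 9) (.br (nat_lit 7) (.ch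
 (nat_lit 1) (.ev (nat_lit 2176) (nat_lit 4194304) (.ev (nat_lit 2189) (nat_lit 524288) .dd))) (.ch (nat_lit 7)
 (.ev (nat_lit 2176) (nat_lit 4718592) .dd))) (.br (nat_lit 10) (.ch (nat_lit 9) (.ev (nat_lit 2176) (nat_lit
 4718592) .dd)) (.ch (nat_lit 10) (.nd (nat_lit 2304) (.br (nat_lit 9) (.ch (nat_lit 5) (.fin (nat_lit
 576461302067053115))) (.ch (nat_lit 9) (.ev (nat_lit 2320) (nat_lit 4718592) .dd)))))))))))))))))) (.br
 (nat_lit 64) (.br (nat_lit 57) (.br (nat_lit 55) (.ch (nat_lit 54) (.ev (nat_lit 52) (nat_lit 4211024) (.ev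
 (nat_lit 116) (nat_lit 33554432) (.ev (nat_lit 384) (nat_lit 87556102) .dd)))) (.ch (nat_lit 55) (.ev (nat_lit
 52) (nat_lit 22020114) (.ev (nat_lit 84) (nat_lit 524288) (.ev (nat_lit 340) (nat_lit 16384) (.ev (nat_lit
 640) (nat_lit 102760772) .dd)))))) (.br (nat_lit 58) (.ch (nat_lit 57) (.ev (nat_lit 52) (nat_lit 18890834)
 (.ev (nat_lit 448) (nat_lit 106430724) .dd))) (.br (nat_lit 62) (.ch (nat_lit 58) (.ev (nat_lit 52) (nat_lit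
 90701894) (.ev (nat_lit 1780) (nat_lit 16) (.ev (nat_lit 2080) (nat_lit 33554432) (.nd (nat_lit 2160) (.br
 (nat_lit 7) (.br (nat_lit 5) (.ch (nat_lit 0) (.ev (nat_lit 2176) (nat_lit 1065216) .dd)) (.ch (nat_lit 5)
 (.ev (nat_lit 2176) (nat_lit 1048832) (.ev (nat_lit 2189) (nat_lit 16384) .dd)))) (.br (nat_lit 9) (.ch
 (nat_lit 7) (.ev (nat_lit 2176) (nat_lit 256) (.ev (nat_lit 2208) (nat_lit 1048576) (.ev (nat_lit 2221)
 (nat_lit 16384) .dd)))) (.ch (nat_lit 9) (.ev (nat_lit 2176) (nat_lit 1048576) (.fin (nat_lit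
 576465700116709950))))))))))) (.ch (nat_lit 62) (.ev (nat_lit 52) (nat_lit 3162450) (.ev (nat_lit 84) (nat_lit
 33554432) (.ev (nat_lit 692) (nat_lit 524288) (.ev (nat_lit 1664) (nat_lit 4194304) (.ev (nat_lit 1780)
 (nat_lit 67108864) (.nd (nat_lit 2160) (.br (nat_lit 2) (.ch (nat_lit 1) (.fin (nat_lit 576465700103078471)))
 (.br (nat_lit 9) (.ch (nat_lit 2) (.ev (nat_lit 2176) (nat_lit 16777216) (.ev (nat_lit 2189) (nat_lit 4)
 .dd))) (.ch (nat_lit 9) (.ev (nat_lit 2228) (nat_lit 4) (.ev (nat_lit 2237) (nat_lit 16777216)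
 .dd))))))))))))))) (.br (nat_lit 68) (.br (nat_lit 65) (.ch (nat_lit 64) (.ev (nat_lit 52) (nat_lit 84951360)
 (.ev (nat_lit 468) (nat_lit 2) (.ev (nat_lit 500) (nat_lit 33554432) (.ev (nat_lit 788) (nat_lit 16) (.ev
 (nat_lit 1412) (nat_lit 4) (.ev (nat_lit 1908) (nat_lit 2097152) (.nd (nat_lit 2160) (.br (nat_lit 7) (.ch
 (nat_lit 0) (.ev (nat_lit 2176) (nat_lit 4194304) (.ev (nat_lit 2189) (nat_lit 524288) .dd))) (.br (nat_lit
 10) (.ch (nat_lit 7) (.ev (nat_lit 2228) (nat_lit 524288) (.ev (nat_lit 2237) (nat_lit 4194304) .dd))) (.ch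
 (nat_lit 10) (.fin (nat_lit 576461302067053115))))))))))))) (.br (nat_lit 67) (.ch (nat_lit 65) (.ev (nat_lit
 52) (nat_lit 23609602) (.ev (nat_lit 372) (nat_lit 67108864) (.ev (nat_lit 532) (nat_lit 4) (.ev (nat_lit 596)
 (nat_lit 33554432) (.ev (nat_lit 1108) (nat_lit 16) (.nd (nat_lit 2160) (.br (nat_lit 7) (.br (nat_lit 5) (.ch
 (nat_lit 1) (.ev (nat_lit 2176) (nat_lit 1048576) (.ev (nat_lit 2189) (nat_lit 64) .dd))) (.ch (nat_lit 5)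
 (.ev (nat_lit 2176) (nat_lit 64) (.ev (nat_lit 2189) (nat_lit 1048576) .dd)))) (.br (nat_lit 10) (.ch (nat_lit
 7) (.ev (nat_lit 2176) (nat_lit 1048576) (.ev (nat_lit 2189) (nat_lit 64) .dd))) (.ch (nat_lit 10) (.ev
 (nat_lit 2176) (nat_lit 64) (.ev (nat_lit 2189) (nat_lit 1048576) .dd)))))))))))) (.ch (nat_lit 67) (.ev
 (nat_lit 52) (nat_lit 72876036) (.ev (nat_lit 84) (nat_lit 16777232) (.ev (nat_lit 308) (nat_lit 2097152) (.ev
 (nat_lit 1908) (nat_lit 2) (.ev (nat_lit 2064) (nat_lit 256) (.nd (nat_lit 2160) (.br (nat_lit 5) (.ch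
 (nat_lit 2) (.ev (nat_lit 2176) (nat_lit 33570816) (.ev (nat_lit 2189) (nat_lit 64) .dd))) (.br (nat_lit 7)
 (.ch (nat_lit 5) (.ev (nat_lit 2176) (nat_lit 64) (.fin (nat_lit 576470098152735306)))) (.ch (nat_lit 7) (.ev
 (nat_lit 2176) (nat_lit 33570880) .dd))))))))))))) (.br (nat_lit 69) (.ch (nat_lit 68) (.ev (nat_lit 52)
 (nat_lit 38289414) (.ev (nat_lit 276) (nat_lit 2097152) (.ev (nat_lit 340) (nat_lit 256) (.ev (nat_lit 628)
 (nat_lit 16777216) (.ev (nat_lit 1264) (nat_lit 1048640) (.ev (nat_lit 1732) (nat_lit 16) (.ev (nat_lit 1741)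
 (nat_lit 67108864) .dd)))))))) (.br (nat_lit 70) (.ch (nat_lit 69) (.ev (nat_lit 52) (nat_lit 84934916) (.ev
 (nat_lit 288) (nat_lit 40386642) .dd))) (.ch (nat_lit 70) (.ev (nat_lit 52) (nat_lit 74449232) (.ev (nat_lit
 672) (nat_lit 50872326) .dd)))))))))))

/-- Subtrie. -/
noncomputable def T4 : Tr := (.ev (nat_lit 20) (nat_lit 843595778) (.nd (nat_lit 33) (.br (nat_lit 39) (.br
 (nat_lit 19) (.br (nat_lit 8) (.br (nat_lit 4) (.br (nat_lit 3) (.ch (nat_lit 1) (.ev (nat_lit 52) (nat_lit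
 219185476) (.ev (nat_lit 628) (nat_lit 8388608) (.ev (nat_lit 916) (nat_lit 262144) (.nd (nat_lit 2160) (.br
 (nat_lit 6) (.br (nat_lit 4) (.ch (nat_lit 0) (.ev (nat_lit 2176) (nat_lit 2105360) .dd)) (.ch (nat_lit 4)
 (.ev (nat_lit 2176) (nat_lit 2097152) (.fin (nat_lit 576456904023687746))))) (.br (nat_lit 8) (.ch (nat_lit 6)
 (.ev (nat_lit 2176) (nat_lit 2105344) (.ev (nat_lit 2189) (nat_lit 16) .dd))) (.ch (nat_lit 8) (.ev (nat_lit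
 2176) (nat_lit 8192) (.ev (nat_lit 2208) (nat_lit 2097152) (.ev (nat_lit 2221) (nat_lit 16) .dd)))))))))))
 (.ch (nat_lit 3) (.ev (nat_lit 52) (nat_lit 227549200) (.ev (nat_lit 180) (nat_lit 32768) (.ev (nat_lit 800)
 (nat_lit 2359620) .dd))))) (.br (nat_lit 5) (.ch (nat_lit 4) (.ev (nat_lit 52) (nat_lit 92274944) (.ev
 (nat_lit 116) (nat_lit 1048576) (.ev (nat_lit 532) (nat_lit 32768) (.ev (nat_lit 852) (nat_lit 8192) (.nd
 (nat_lit 2160) (.br (nat_lit 6) (.br (nat_lit 5) (.ch (nat_lit 4) (.ev (nat_lit 2176) (nat_lit 136314948) (.ev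
 (nat_lit 2192) (nat_lit 262144) (.ev (nat_lit 2205) (nat_lit 16) .dd)))) (.ch (nat_lit 5) (.ev (nat_lit 2176)
 (nat_lit 136577040) (.fin (nat_lit 576474496195052112))))) (.br (nat_lit 8) (.ch (nat_lit 6) (.ev (nat_lit
 2176) (nat_lit 2359364) (.ev (nat_lit 2192) (nat_lit 134217728) (.ev (nat_lit 2205) (nat_lit 16) .dd)))) (.ch
 (nat_lit 8) (.ev (nat_lit 2176) (nat_lit 134479940) (.fin (nat_lit 576463501079822913)))))))))))) (.br
 (nat_lit 7) (.ch (nat_lit 5) (.ev (nat_lit 52) (nat_lit 18128964) (.ev (nat_lit 308) (nat_lit 8388608) (.ev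
 (nat_lit 532) (nat_lit 16) (.ev (nat_lit 724) (nat_lit 67108864) (.nd (nat_lit 2160) (.br (nat_lit 5) (.ch
 (nat_lit 0) (.ev (nat_lit 2176) (nat_lit 136315136) .dd)) (.br (nat_lit 7) (.ch (nat_lit 5) (.ev (nat_lit
 2176) (nat_lit 2097152) (.fin (nat_lit 576452505968788034)))) (.ch (nat_lit 7) (.ev (nat_lit 2176) (nat_lit
 134217984) (.ev (nat_lit 2189) (nat_lit 2097152) .dd))))))))))) (.ch (nat_lit 7) (.ev (nat_lit 52) (nat_lit
 142614532) (.ev (nat_lit 192) (nat_lit 87327056) .dd)))))) (.br (nat_lit 15) (.br (nat_lit 11) (.ch (nat_lit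
 8) (.ev (nat_lit 52) (nat_lit 26214720) (.ev (nat_lit 212) (nat_lit 4) (.ev (nat_lit 512) (nat_lit 203726864)
 .dd)))) (.br (nat_lit 12) (.ch (nat_lit 11) (.ev (nat_lit 52) (nat_lit 26476608) (.ev (nat_lit 84) (nat_lit
 67108864) (.ev (nat_lit 244) (nat_lit 40960) (.ev (nat_lit 532) (nat_lit 256) (.ev (nat_lit 1940) (nat_lit
 134217732) (.nd (nat_lit 2160) (.br (nat_lit 7) (.br (nat_lit 2) (.ch (nat_lit 0) (.ev (nat_lit 2176) (nat_lit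
 2097168) .dd)) (.ch (nat_lit 2) (.ev (nat_lit 2176) (nat_lit 16) (.ev (nat_lit 2189) (nat_lit 2097152) .dd))))
 (.br (nat_lit 8) (.ch (nat_lit 7) (.ev (nat_lit 2176) (nat_lit 16) (.ev (nat_lit 2189) (nat_lit 2097152)
 .dd))) (.ch (nat_lit 8) (.nd (nat_lit 2304) (.br (nat_lit 3) (.ch (nat_lit 1) (.fin (nat_lit
 576459103041700415))) (.ch (nat_lit 3) (.ev (nat_lit 2320) (nat_lit 2097168) .dd)))))))))))))) (.ch (nat_lit
 12) (.ev (nat_lit 52) (nat_lit 17080580) (.ev (nat_lit 148) (nat_lit 67108864) (.ev (nat_lit 340) (nat_lit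
 1048576) (.ev (nat_lit 500) (nat_lit 8388608) (.ev (nat_lit 2052) (nat_lit 80) (.nd (nat_lit 2160) (.br
 (nat_lit 6) (.br (nat_lit 5) (.ch (nat_lit 2) (.ev (nat_lit 2176) (nat_lit 136314880) .dd)) (.ch (nat_lit 5)
 (.ev (nat_lit 2176) (nat_lit 2097152) (.ev (nat_lit 2189) (nat_lit 134217728) .dd)))) (.br (nat_lit 7) (.ch
 (nat_lit 6) (.ev (nat_lit 2176) (nat_lit 2097152) (.ev (nat_lit 2189) (nat_lit 134217728) .dd))) (.ch (nat_lit
 7) (.nd (nat_lit 2304) (.br (nat_lit 9) (.ch (nat_lit 5) (.fin (nat_lit 576456904014250559))) (.ch (nat_lit 9)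
 (.ev (nat_lit 2320) (nat_lit 136314880) .dd)))))))))))))))) (.br (nat_lit 16) (.ch (nat_lit 15) (.ev (nat_lit
 52) (nat_lit 67141956) (.ev (nat_lit 148) (nat_lit 8388608) (.ev (nat_lit 852) (nat_lit 262144) (.ev (nat_lit
 1044) (nat_lit 1048576) (.ev (nat_lit 1860) (nat_lit 2097152) (.ev (nat_lit 2096) (nat_lit 16777216) (.nd
 (nat_lit 2160) (.br (nat_lit 4) (.ch (nat_lit 2) (.ev (nat_lit 2176) (nat_lit 134225936) .dd)) (.br (nat_lit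
 7) (.ch (nat_lit 4) (.ev (nat_lit 2176) (nat_lit 134217728) (.fin (nat_lit 576456904023687746)))) (.ch
 (nat_lit 7) (.ev (nat_lit 2176) (nat_lit 8208) (.ev (nat_lit 2189) (nat_lit 134217728) .dd))))))))))))) (.br
 (nat_lit 18) (.ch (nat_lit 16) (.ev (nat_lit 52) (nat_lit 218366208) (.ev (nat_lit 212) (nat_lit 8192) (.ev
 (nat_lit 416) (nat_lit 11567188) .dd)))) (.ch (nat_lit 18) (.ev (nat_lit 52) (nat_lit 8421652) (.ev (nat_lit
 180) (nat_lit 262144) (.ev (nat_lit 212) (nat_lit 134217728) (.ev (nat_lit 372) (nat_lit 67108864) (.ev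
 (nat_lit 1012) (nat_lit 1048576) (.ev (nat_lit 1812) (nat_lit 8192) (.ev (nat_lit 1840) (nat_lit 16777280)
 (.ev (nat_lit 1853) (nat_lit 2097152) .dd))))))))))))) (.br (nat_lit 29) (.br (nat_lit 23) (.br (nat_lit 22)
 (.ch (nat_lit 19) (.ev (nat_lit 52) (nat_lit 85983236) (.ev (nat_lit 852) (nat_lit 64) (.ev (nat_lit 1152)
 (nat_lit 262400) (.ev (nat_lit 1584) (nat_lit 40960) (.nd (nat_lit 2160) (.br (nat_lit 8) (.ch (nat_lit 6)
 (.ev (nat_lit 2176) (nat_lit 1048592) (.ev (nat_lit 2228) (nat_lit 8388608) (.ev (nat_lit 2237) (nat_lit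
 134217728) .dd)))) (.ch (nat_lit 8) (.ev (nat_lit 2176) (nat_lit 142606336) (.ev (nat_lit 2228) (nat_lit 16)
 (.ev (nat_lit 2237) (nat_lit 1048576) .dd))))))))))) (.ch (nat_lit 22) (.ev (nat_lit 52) (nat_lit 211034176)
 (.ev (nat_lit 436) (nat_lit 2097156) (.ev (nat_lit 896) (nat_lit 16810256) .dd))))) (.br (nat_lit 24) (.ch
 (nat_lit 23) (.ev (nat_lit 52) (nat_lit 134479936) (.ev (nat_lit 148) (nat_lit 16777216) (.ev (nat_lit 564)
 (nat_lit 256) (.ev (nat_lit 596) (nat_lit 8388608) (.ev (nat_lit 724) (nat_lit 1048576) (.ev (nat_lit 1568)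
 (nat_lit 8196) (.nd (nat_lit 2160) (.br (nat_lit 7) (.ch (nat_lit 6) (.ev (nat_lit 2176) (nat_lit 2129920)
 (.ev (nat_lit 2228) (nat_lit 16) (.ev (nat_lit 2237) (nat_lit 67108864) .dd)))) (.ch (nat_lit 7) (.ev (nat_lit
 2176) (nat_lit 67108880) (.ev (nat_lit 2228) (nat_lit 32768) (.ev (nat_lit 2237) (nat_lit 2097152)
 .dd))))))))))))) (.br (nat_lit 26) (.ch (nat_lit 24) (.ev (nat_lit 52) (nat_lit 295248) (.ev (nat_lit 244)
 (nat_lit 134217728) (.ev (nat_lit 468) (nat_lit 67108864) (.ev (nat_lit 564) (nat_lit 4) (.ev (nat_lit 852)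
 (nat_lit 2097152) (.ev (nat_lit 1168) (nat_lit 8396800) (.ev (nat_lit 1552) (nat_lit 17825792) .dd))))))))
 (.ch (nat_lit 26) (.ev (nat_lit 52) (nat_lit 203685908) (.ev (nat_lit 404) (nat_lit 1048576) (.ev (nat_lit
 544) (nat_lit 25207104) .dd))))))) (.br (nat_lit 34) (.br (nat_lit 31) (.ch (nat_lit 29) (.ev (nat_lit 52)
 (nat_lit 77635664) (.ev (nat_lit 180) (nat_lit 134217728) (.ev (nat_lit 468) (nat_lit 1048576) (.ev (nat_lit
 864) (nat_lit 17039620) .dd))))) (.br (nat_lit 33) (.ch (nat_lit 31) (.ev (nat_lit 52) (nat_lit 211812372)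
 (.ev (nat_lit 756) (nat_lit 262144) (.ev (nat_lit 884) (nat_lit 8256) (.ev (nat_lit 1200) (nat_lit 33024) (.ev
 (nat_lit 2004) (nat_lit 16777216) (.ev (nat_lit 2013) (nat_lit 1048576) .dd))))))) (.ch (nat_lit 33) (.ev
 (nat_lit 52) (nat_lit 19955972) (.ev (nat_lit 180) (nat_lit 64) (.ev (nat_lit 852) (nat_lit 16) (.ev (nat_lit
 1076) (nat_lit 134217728) (.ev (nat_lit 1540) (nat_lit 8192) (.ev (nat_lit 1680) (nat_lit 75497472) (.ev
 (nat_lit 1693) (nat_lit 262144) .dd)))))))))) (.br (nat_lit 36) (.ch (nat_lit 34) (.ev (nat_lit 52) (nat_lit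
 9732100) (.ev (nat_lit 116) (nat_lit 16777216) (.ev (nat_lit 916) (nat_lit 8192) (.ev (nat_lit 1076) (nat_lit
 64) (.ev (nat_lit 1412) (nat_lit 2097152) (.ev (nat_lit 2112) (nat_lit 67108864) (.nd (nat_lit 2160) (.br
 (nat_lit 6) (.br (nat_lit 5) (.ch (nat_lit 4) (.ev (nat_lit 2176) (nat_lit 134218000) .dd)) (.ch (nat_lit 5)
 (.ev (nat_lit 2176) (nat_lit 16) (.fin (nat_lit 576452505968788034))))) (.br (nat_lit 7) (.ch (nat_lit 6) (.ev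
 (nat_lit 2176) (nat_lit 256) (.ev (nat_lit 2208) (nat_lit 16) (.ev (nat_lit 2221) (nat_lit 134217728) .dd))))
 (.ch (nat_lit 7) (.ev (nat_lit 2176) (nat_lit 272) (.ev (nat_lit 2189) (nat_lit 134217728) .dd)))))))))))))
 (.br (nat_lit 38) (.ch (nat_lit 36) (.ev (nat_lit 52) (nat_lit 67411972) (.ev (nat_lit 180) (nat_lit 16) (.ev
 (nat_lit 244) (nat_lit 2097408) (.ev (nat_lit 596) (nat_lit 16777216) (.ev (nat_lit 928) (nat_lit 143654976)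
 .dd)))))) (.ch (nat_lit 38) (.ev (nat_lit 52) (nat_lit 19144788) (.ev (nat_lit 436) (nat_lit 134217728) (.ev
 (nat_lit 1076) (nat_lit 32768) (.ev (nat_lit 1216) (nat_lit 75497472) (.ev (nat_lit 1520) (nat_lit 256) (.ev
 (nat_lit 1533) (nat_lit 1048576) .dd)))))))))))) (.br (nat_lit 54) (.br (nat_lit 47) (.br (nat_lit 43) (.br
 (nat_lit 42) (.ch (nat_lit 39) (.ev (nat_lit 52) (nat_lit 8396864) (.ev (nat_lit 160) (nat_lit 221544724)
 .dd))) (.ch (nat_lit 42) (.ev (nat_lit 52) (nat_lit 152051988) (.ev (nat_lit 276) (nat_lit 8388608) (.ev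
 (nat_lit 564) (nat_lit 262144) (.ev (nat_lit 820) (nat_lit 2129920) (.nd (nat_lit 2160) (.br (nat_lit 4) (.ch
 (nat_lit 0) (.fin (nat_lit 576467899130528327))) (.br (nat_lit 6) (.ch (nat_lit 4) (.ev (nat_lit 2176)
 (nat_lit 64) (.ev (nat_lit 2189) (nat_lit 67108864) .dd))) (.ch (nat_lit 6) (.ev (nat_lit 2228) (nat_lit 64)
 (.ev (nat_lit 2237) (nat_lit 67108864) .dd)))))))))))) (.br (nat_lit 44) (.ch (nat_lit 43) (.ev (nat_lit 52)
 (nat_lit 211820564) (.ev (nat_lit 788) (nat_lit 1048576) (.ev (nat_lit 1232) (nat_lit 32832) (.ev (nat_lit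
 1460) (nat_lit 16777216) (.ev (nat_lit 1940) (nat_lit 256) (.ev (nat_lit 1949) (nat_lit 262144) .dd)))))))
 (.br (nat_lit 46) (.ch (nat_lit 44) (.ev (nat_lit 52) (nat_lit 76554240) (.ev (nat_lit 244) (nat_lit 4) (.ev
 (nat_lit 756) (nat_lit 16) (.ev (nat_lit 884) (nat_lit 32768) (.ev (nat_lit 1504) (nat_lit 320) (.nd (nat_lit
 2160) (.br (nat_lit 8) (.ch (nat_lit 7) (.ev (nat_lit 2176) (nat_lit 2359296) (.ev (nat_lit 2228) (nat_lit
 16777216) (.ev (nat_lit 2237) (nat_lit 134217728) .dd)))) (.ch (nat_lit 8) (.ev (nat_lit 2176) (nat_lit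
 150994944) (.ev (nat_lit 2228) (nat_lit 262144) (.ev (nat_lit 2237) (nat_lit 2097152) .dd)))))))))))) (.ch
 (nat_lit 46) (.ev (nat_lit 52) (nat_lit 76554304) (.ev (nat_lit 84) (nat_lit 16777216) (.ev (nat_lit 212)
 (nat_lit 262144) (.ev (nat_lit 244) (nat_lit 16) (.ev (nat_lit 832) (nat_lit 136347908) .dd))))))))) (.br
 (nat_lit 50) (.br (nat_lit 48) (.ch (nat_lit 47) (.ev (nat_lit 52) (nat_lit 70557712) (.ev (nat_lit 308)
 (nat_lit 16777216) (.ev (nat_lit 532) (nat_lit 134217728) (.ev (nat_lit 820) (nat_lit 4) (.ev (nat_lit 980)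
 (nat_lit 8388608) (.ev (nat_lit 1792) (nat_lit 64) (.ev (nat_lit 1805) (nat_lit 256) .dd)))))))) (.br (nat_lit
 49) (.ch (nat_lit 48) (.ev (nat_lit 52) (nat_lit 153092160) (.ev (nat_lit 212) (nat_lit 32768) (.ev (nat_lit
 340) (nat_lit 67108864) (.ev (nat_lit 372) (nat_lit 8388608) (.ev (nat_lit 820) (nat_lit 8192) (.ev (nat_lit
 1424) (nat_lit 1048848) (.ev (nat_lit 1812) (nat_lit 4) (.ev (nat_lit 1821) (nat_lit 262144) .dd))))))))) (.ch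
 (nat_lit 49) (.ev (nat_lit 52) (nat_lit 26255360) (.ev (nat_lit 404) (nat_lit 67108864) (.ev (nat_lit 532)
 (nat_lit 262144) (.ev (nat_lit 820) (nat_lit 64) (.ev (nat_lit 1376) (nat_lit 134217984) (.ev (nat_lit 1972)
 (nat_lit 16) (.ev (nat_lit 2032) (nat_lit 2097156) .dd)))))))))) (.br (nat_lit 51) (.ch (nat_lit 50) (.ev
 (nat_lit 52) (nat_lit 3178816) (.ev (nat_lit 564) (nat_lit 8192) (.ev (nat_lit 980) (nat_lit 67108864) (.ev
 (nat_lit 1632) (nat_lit 262144) (.ev (nat_lit 2020) (nat_lit 8388608) (.nd (nat_lit 2160) (.br (nat_lit 6)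
 (.br (nat_lit 2) (.ch (nat_lit 0) (.ev (nat_lit 2176) (nat_lit 150994960) (.ev (nat_lit 2189) (nat_lit 4)
 .dd))) (.ch (nat_lit 2) (.ev (nat_lit 2176) (nat_lit 150994964) .dd))) (.br (nat_lit 8) (.ch (nat_lit 6) (.ev
 (nat_lit 2176) (nat_lit 16777220) (.nd (nat_lit 2304) (.br (nat_lit 4) (.ch (nat_lit 2) (.ev (nat_lit 2320)
 (nat_lit 134217744) .dd)) (.ch (nat_lit 4) (.fin (nat_lit 576461302059713084))))))) (.ch (nat_lit 8) (.ev
 (nat_lit 2176) (nat_lit 134217744) (.fin (nat_lit 576456904018444857))))))))))))) (.br (nat_lit 53) (.ch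
 (nat_lit 51) (.ev (nat_lit 52) (nat_lit 8659200) (.ev (nat_lit 148) (nat_lit 1048576) (.ev (nat_lit 276)
 (nat_lit 83886080) (.nd (nat_lit 2160) (.br (nat_lit 7) (.br (nat_lit 5) (.ch (nat_lit 2) (.ev (nat_lit 2176)
 (nat_lit 134217812) (.ev (nat_lit 2192) (nat_lit 32768) (.ev (nat_lit 2205) (nat_lit 2097152) .dd)))) (.ch
 (nat_lit 5) (.ev (nat_lit 2176) (nat_lit 136347664) (.fin (nat_lit 576474496195052112))))) (.br (nat_lit 8)
 (.ch (nat_lit 7) (.ev (nat_lit 2176) (nat_lit 32852) (.fin (nat_lit 576465700107272769)))) (.ch (nat_lit 8)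
 (.ev (nat_lit 2176) (nat_lit 134250564) (.ev (nat_lit 2192) (nat_lit 16) (.ev (nat_lit 2205) (nat_lit 2097152)
 .dd))))))))))) (.ch (nat_lit 53) (.ev (nat_lit 52) (nat_lit 20185364) (.ev (nat_lit 116) (nat_lit 67108864)
 (.ev (nat_lit 1184) (nat_lit 8396800) (.ev (nat_lit 1332) (nat_lit 64) (.ev (nat_lit 1956) (nat_lit 32768)
 (.ev (nat_lit 1965) (nat_lit 134217728) .dd))))))))))) (.br (nat_lit 64) (.br (nat_lit 57) (.br (nat_lit 55)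
 (.ch (nat_lit 54) (.ev (nat_lit 52) (nat_lit 142606672) (.ev (nat_lit 180) (nat_lit 2097152) (.ev (nat_lit
 596) (nat_lit 1048576) (.ev (nat_lit 980) (nat_lit 16777216) (.ev (nat_lit 1296) (nat_lit 270336) (.ev
 (nat_lit 1828) (nat_lit 32768) (.ev (nat_lit 1860) (nat_lit 4) (.ev (nat_lit 1869) (nat_lit 67108864)
 .dd))))))))) (.ch (nat_lit 55) (.ev (nat_lit 52) (nat_lit 26509328) (.ev (nat_lit 436) (nat_lit 64) (.ev
 (nat_lit 756) (nat_lit 134225920) (.ev (nat_lit 1332) (nat_lit 256) (.ev (nat_lit 1392) (nat_lit 2097156) (.ev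
 (nat_lit 1405) (nat_lit 67108864) .dd)))))))) (.br (nat_lit 58) (.ch (nat_lit 57) (.ev (nat_lit 52) (nat_lit
 153387088) (.ev (nat_lit 1076) (nat_lit 256) (.ev (nat_lit 1280) (nat_lit 8196) (.nd (nat_lit 2160) (.br
 (nat_lit 4) (.ch (nat_lit 2) (.ev (nat_lit 2176) (nat_lit 8388608) (.ev (nat_lit 2256) (nat_lit 68157440)
 .dd))) (.br (nat_lit 5) (.ch (nat_lit 4) (.ev (nat_lit 2176) (nat_lit 1048576) (.ev (nat_lit 2228) (nat_lit
 8388608) (.ev (nat_lit 2237) (nat_lit 67108864) .dd)))) (.ch (nat_lit 5) (.ev (nat_lit 2176) (nat_lit 1048576)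
 (.ev (nat_lit 2228) (nat_lit 8388608) (.ev (nat_lit 2237) (nat_lit 67108864) .dd))))))))))) (.br (nat_lit 62)
 (.ch (nat_lit 58) (.ev (nat_lit 52) (nat_lit 94380100) (.ev (nat_lit 500) (nat_lit 1048576) (.ev (nat_lit 736)
 (nat_lit 134512912) .dd)))) (.ch (nat_lit 62) (.ev (nat_lit 52) (nat_lit 137658704) (.ev (nat_lit 84) (nat_lit
 8388608) (.ev (nat_lit 180) (nat_lit 8192) (.ev (nat_lit 660) (nat_lit 67108864) (.nd (nat_lit 2160) (.br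
 (nat_lit 7) (.br (nat_lit 5) (.ch (nat_lit 4) (.ev (nat_lit 2176) (nat_lit 16777220) .dd)) (.ch (nat_lit 5)
 (.ev (nat_lit 2176) (nat_lit 4) (.ev (nat_lit 2189) (nat_lit 16777216) .dd)))) (.br (nat_lit 8) (.ch (nat_lit
 7) (.ev (nat_lit 2176) (nat_lit 16777220) .dd)) (.ch (nat_lit 8) (.nd (nat_lit 2304) (.br (nat_lit 8) (.ch
 (nat_lit 2) (.ev (nat_lit 2320) (nat_lit 16777220) .dd)) (.ch (nat_lit 8) (.fin (nat_lit
 576456904018444857))))))))))))))))) (.br (nat_lit 68) (.br (nat_lit 65) (.ch (nat_lit 64) (.ev (nat_lit 52)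
 (nat_lit 227574080) (.ev (nat_lit 532) (nat_lit 2097152) (.ev (nat_lit 1056) (nat_lit 270356) .dd)))) (.br
 (nat_lit 67) (.ch (nat_lit 65) (.ev (nat_lit 52) (nat_lit 19144960) (.ev (nat_lit 948) (nat_lit 4) (.ev
 (nat_lit 1108) (nat_lit 8388608) (.ev (nat_lit 1600) (nat_lit 1048576) (.ev (nat_lit 1700) (nat_lit 32768)
 (.nd (nat_lit 2160) (.br (nat_lit 6) (.br (nat_lit 2) (.ch (nat_lit 0) (.ev (nat_lit 2176) (nat_lit 134217744)
 (.fin (nat_lit 576467899130528327)))) (.ch (nat_lit 2) (.ev (nat_lit 2176) (nat_lit 134217808) (.ev (nat_lit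
 2189) (nat_lit 67108864) .dd)))) (.br (nat_lit 7) (.ch (nat_lit 6) (.ev (nat_lit 2176) (nat_lit 67108928) (.nd
 (nat_lit 2304) (.br (nat_lit 10) (.ch (nat_lit 4) (.fin (nat_lit 576461302059713084))) (.ch (nat_lit 10) (.ev
 (nat_lit 2320) (nat_lit 134217744) .dd)))))) (.ch (nat_lit 7) (.ev (nat_lit 2176) (nat_lit 201326672)
 .dd))))))))))) (.ch (nat_lit 67) (.ev (nat_lit 52) (nat_lit 68190212) (.ev (nat_lit 224) (nat_lit 161751376)
 .dd))))) (.br (nat_lit 69) (.ch (nat_lit 68) (.ev (nat_lit 52) (nat_lit 134488068) (.ev (nat_lit 212) (nat_lit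
 2097152) (.ev (nat_lit 692) (nat_lit 67108864) (.ev (nat_lit 756) (nat_lit 32768) (.ev (nat_lit 948) (nat_lit
 16) (.ev (nat_lit 1248) (nat_lit 320) (.nd (nat_lit 2160) (.br (nat_lit 5) (.ch (nat_lit 2) (.ev (nat_lit
 2176) (nat_lit 16777216) (.ev (nat_lit 2228) (nat_lit 1048576) (.ev (nat_lit 2237) (nat_lit 8388608) .dd))))
 (.br (nat_lit 6) (.ch (nat_lit 5) (.ev (nat_lit 2176) (nat_lit 1048576) (.ev (nat_lit 2288) (nat_lit 25165824)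
 .dd))) (.ch (nat_lit 6) (.ev (nat_lit 2176) (nat_lit 16777216) (.ev (nat_lit 2228) (nat_lit 1048576) (.ev
 (nat_lit 2237) (nat_lit 8388608) .dd)))))))))))))) (.br (nat_lit 70) (.ch (nat_lit 69) (.ev (nat_lit 52)
 (nat_lit 85229828) (.ev (nat_lit 788) (nat_lit 8388608) (.ev (nat_lit 1648) (nat_lit 134217728) (.ev (nat_lit
 1920) (nat_lit 8272) (.ev (nat_lit 1933) (nat_lit 2097152) .dd)))))) (.ch (nat_lit 70) (.ev (nat_lit 52)
 (nat_lit 70287696) (.ev (nat_lit 436) (nat_lit 262144) (.ev (nat_lit 468) (nat_lit 16777216) (.ev (nat_lit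
 660) (nat_lit 8388608) (.ev (nat_lit 916) (nat_lit 134217728) (.ev (nat_lit 1312) (nat_lit 8192) (.ev (nat_lit
 1325) (nat_lit 4) .dd))))))))))))))))

/-- The trie. -/
noncomputable def T : Tr := .nd (nat_lit 1000000) (.br (nat_lit 4) (.br (nat_lit 1) (.ch (nat_lit 0) (.ev
 (nat_lit 0) (nat_lit 2147483647) .dd)) (.ch (nat_lit 1) T1)) (.br (nat_lit 5) (.ch (nat_lit 4) T4) (.br
 (nat_lit 10) (.ch (nat_lit 5) (.ev (nat_lit 0) (nat_lit 2147483647) .dd)) (.ch (nat_lit 10) (.ev (nat_lit 0)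
 (nat_lit 2147483647) .dd)))))

/-- The possible values. -/
noncomputable def oks : List ℕ := [34, 42, 122, 234, 610]

/-- The parameters. -/
noncomputable def S : Pr := ⟨fun i l e => lget mz (lget [] (lget [] tabs i) l) e, oks, [(nat_lit 0), (nat_lit
 1), (nat_lit 0), (nat_lit 0)], T, (nat_lit 2147483647), (nat_lit 1073946281), (nat_lit 31), [(nat_lit 1057),
 (nat_lit 87122173451996128837)], [(nat_lit 1331), (nat_lit 5041)]⟩

/-- Nothing known. -/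
noncomputable def cs0 : Cs := (.cons (nat_lit 11) (nat_lit 0) (nat_lit 1) (.cons (nat_lit 71) (nat_lit 0) (nat_lit 1) .nil))

theorem part_1 : part S cs0 (nat_lit 1) = true := by decide +kernel

theorem part_4 : part S cs0 (nat_lit 4) = true := by decide +kernel

/-- Data of a prime. -/
noncomputable def D0 : PD := ⟨(nat_lit 11), (nat_lit 3), (133, 3, 3), (288, 795, 527), (226, 1316, 1296)⟩

theorem D0_ok : D0.Ok := pdb_sound (s := 1) (C := ⟨⟨9, -6, -17, -1, -14, 8, -4, -1, -1⟩, (9, 10, 7)⟩) (by show Nat.Prime 11; norm_num) (by decide +kernel)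

/-- Lines of the first type. -/
noncomputable def Cl0 : List C1 := [⟨⟨-9, 6, -8, 1, 14, 7, 4, 1, -5⟩, (4, 2, 8)⟩,
  ⟨⟨0, 0, 0, 0, 0, 0, 0, 0, 0⟩, (0, 0, 0)⟩,
  ⟨⟨0, 0, 0, 0, 0, 0, 0, 0, 0⟩, (0, 0, 0)⟩,
  ⟨⟨0, 0, 0, 0, 0, 0, 0, 0, 0⟩, (0, 0, 0)⟩,
  ⟨⟨0, 0, 0, 0, 0, 0, 0, 0, 0⟩, (0, 0, 0)⟩,
  ⟨⟨9, 6, -17, -1, 14, 8, -4, 1, -1⟩, (8, 4, 5)⟩,
  ⟨⟨0, 0, 0, 0, 0, 0, 0, 0, 0⟩, (0, 0, 0)⟩,
  ⟨⟨0, 0, 0, 0, 0, 0, 0, 0, 0⟩, (0, 0, 0)⟩,
  ⟨⟨0, 0, 0, 0, 0, 0, 0, 0, 0⟩, (0, 0, 0)⟩,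
  ⟨⟨0, 0, 0, 0, 0, 0, 0, 0, 0⟩, (0, 0, 0)⟩,
  ⟨⟨-9, -6, -8, 1, -14, 7, 4, -1, -5⟩, (7, 9, 3)⟩]

/-- Data of a prime. -/
noncomputable def D1 : PD := ⟨(nat_lit 71), (nat_lit 2), (72, 9, 33), (3977, 4536, 3372), (4173, 4400, 3526)⟩

theorem D1_ok : D1.Ok := pdb_sound (s := 11) (C := ⟨⟨59, 34, -112, -29, 94, 37, -24, -3, -11⟩, (59, 42, 47)⟩) (by show Nat.Prime 71; norm_num) (by decide +kernel)

/-- Lines of the first type. -/
noncomputable def Cl1 : List C1 := [⟨⟨-59, -34, -53, 29, -94, 8, 24, 3, -35⟩, (17, 47, 34)⟩,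
  ⟨⟨0, 0, 0, 0, 0, 0, 0, 0, 0⟩, (0, 0, 0)⟩,
  ⟨⟨49, -74, -77, 79, 14, 28, 12, 21, -29⟩, (59, 56, 13)⟩,
  ⟨⟨0, 0, 0, 0, 0, 0, 0, 0, 0⟩, (0, 0, 0)⟩,
  ⟨⟨0, 0, 0, 0, 0, 0, 0, 0, 0⟩, (0, 0, 0)⟩,
  ⟨⟨0, 0, 0, 0, 0, 0, 0, 0, 0⟩, (0, 0, 0)⟩,
  ⟨⟨79, -14, -107, 49, 74, 28, -12, 21, -17⟩, (44, 21, 5)⟩,
  ⟨⟨0, 0, 0, 0, 0, 0, 0, 0, 0⟩, (0, 0, 0)⟩,
  ⟨⟨0, 0, 0, 0, 0, 0, 0, 0, 0⟩, (0, 0, 0)⟩,
  ⟨⟨39, 66, -92, -89, 46, 37, -8, -19, -23⟩, (13, 65, 21)⟩,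
  ⟨⟨19, 46, -107, -91, -26, 8, 12, -27, -19⟩, (7, 30, 53)⟩,
  ⟨⟨0, 0, 0, 0, 0, 0, 0, 0, 0⟩, (0, 0, 0)⟩,
  ⟨⟨0, 0, 0, 0, 0, 0, 0, 0, 0⟩, (0, 0, 0)⟩,
  ⟨⟨99, 6, -67, 11, -94, 32, -4, -11, -31⟩, (13, 33, 59)⟩,
  ⟨⟨-39, -66, -53, -89, 46, 52, 8, 19, -31⟩, (17, 57, 22)⟩,
  ⟨⟨0, 0, 0, 0, 0, 0, 0, 0, 0⟩, (0, 0, 0)⟩,
  ⟨⟨0, 0, 0, 0, 0, 0, 0, 0, 0⟩, (0, 0, 0)⟩,
  ⟨⟨19, -46, -107, -91, 26, 8, 12, 27, -19⟩, (15, 44, 2)⟩,
  ⟨⟨0, 0, 0, 0, 0, 0, 0, 0, 0⟩, (0, 0, 0)⟩,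
  ⟨⟨0, 0, 0, 0, 0, 0, 0, 0, 0⟩, (0, 0, 0)⟩,
  ⟨⟨51, 66, -88, -59, 74, 67, -20, -5, -17⟩, (59, 64, 59)⟩,
  ⟨⟨49, 74, -77, 79, -14, 28, 12, -21, -29⟩, (6, 43, 29)⟩,
  ⟨⟨0, 0, 0, 0, 0, 0, 0, 0, 0⟩, (0, 0, 0)⟩,
  ⟨⟨0, 0, 0, 0, 0, 0, 0, 0, 0⟩, (0, 0, 0)⟩,
  ⟨⟨0, 0, 0, 0, 0, 0, 0, 0, 0⟩, (0, 0, 0)⟩,
  ⟨⟨31, 74, -83, -81, 54, 68, -16, -13, -19⟩, (8, 2, 60)⟩,
  ⟨⟨0, 0, 0, 0, 0, 0, 0, 0, 0⟩, (0, 0, 0)⟩,
  ⟨⟨11, 94, -43, -99, 6, 32, 4, -11, -35⟩, (69, 18, 38)⟩,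
  ⟨⟨-51, 66, -37, 59, 74, 8, 20, -5, -37⟩, (25, 56, 25)⟩,
  ⟨⟨0, 0, 0, 0, 0, 0, 0, 0, 0⟩, (0, 0, 0)⟩,
  ⟨⟨39, -66, -92, -89, -46, 37, -8, 19, -23⟩, (43, 2, 64)⟩,
  ⟨⟨0, 0, 0, 0, 0, 0, 0, 0, 0⟩, (0, 0, 0)⟩,
  ⟨⟨59, -34, -112, -29, -94, 37, -24, 3, -11⟩, (9, 4, 18)⟩,
  ⟨⟨0, 0, 0, 0, 0, 0, 0, 0, 0⟩, (0, 0, 0)⟩,
  ⟨⟨0, 0, 0, 0, 0, 0, 0, 0, 0⟩, (0, 0, 0)⟩,
  ⟨⟨-59, 34, -53, 29, 94, 8, 24, -3, -35⟩, (8, 43, 16)⟩,
  ⟨⟨0, 0, 0, 0, 0, 0, 0, 0, 0⟩, (0, 0, 0)⟩,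
  ⟨⟨11, -94, -43, -99, -6, 32, 4, 11, -35⟩, (2, 53, 33)⟩,
  ⟨⟨0, 0, 0, 0, 0, 0, 0, 0, 0⟩, (0, 0, 0)⟩,
  ⟨⟨0, 0, 0, 0, 0, 0, 0, 0, 0⟩, (0, 0, 0)⟩,
  ⟨⟨51, -66, -88, -59, -74, 67, -20, 5, -17⟩, (18, 46, 18)⟩,
  ⟨⟨-19, -46, -88, -91, -26, 83, -12, 27, -7⟩, (26, 61, 65)⟩,
  ⟨⟨0, 0, 0, 0, 0, 0, 0, 0, 0⟩, (0, 0, 0)⟩,
  ⟨⟨0, 0, 0, 0, 0, 0, 0, 0, 0⟩, (0, 0, 0)⟩,
  ⟨⟨0, 0, 0, 0, 0, 0, 0, 0, 0⟩, (0, 0, 0)⟩,
  ⟨⟨-19, 46, -88, -91, 26, 83, -12, -27, -7⟩, (18, 4, 45)⟩,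
  ⟨⟨0, 0, 0, 0, 0, 0, 0, 0, 0⟩, (0, 0, 0)⟩,
  ⟨⟨0, 0, 0, 0, 0, 0, 0, 0, 0⟩, (0, 0, 0)⟩,
  ⟨⟨0, 0, 0, 0, 0, 0, 0, 0, 0⟩, (0, 0, 0)⟩,
  ⟨⟨0, 0, 0, 0, 0, 0, 0, 0, 0⟩, (0, 0, 0)⟩,
  ⟨⟨0, 0, 0, 0, 0, 0, 0, 0, 0⟩, (0, 0, 0)⟩,
  ⟨⟨0, 0, 0, 0, 0, 0, 0, 0, 0⟩, (0, 0, 0)⟩,
  ⟨⟨99, -6, -67, 11, 94, 32, -4, 11, -31⟩, (48, 29, 54)⟩,
  ⟨⟨0, 0, 0, 0, 0, 0, 0, 0, 0⟩, (0, 0, 0)⟩,
  ⟨⟨0, 0, 0, 0, 0, 0, 0, 0, 0⟩, (0, 0, 0)⟩,
  ⟨⟨0, 0, 0, 0, 0, 0, 0, 0, 0⟩, (0, 0, 0)⟩,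
  ⟨⟨-51, -66, -37, 59, -74, 8, 20, 5, -37⟩, (55, 38, 55)⟩,
  ⟨⟨0, 0, 0, 0, 0, 0, 0, 0, 0⟩, (0, 0, 0)⟩,
  ⟨⟨0, 0, 0, 0, 0, 0, 0, 0, 0⟩, (0, 0, 0)⟩,
  ⟨⟨-31, -74, -52, -81, 54, 13, 16, 13, -35⟩, (64, 55, 54)⟩,
  ⟨⟨-31, 74, -52, -81, -54, 13, 16, -13, -35⟩, (11, 15, 47)⟩,
  ⟨⟨-39, 66, -53, -89, -46, 52, 8, -19, -31⟩, (58, 65, 50)⟩,
  ⟨⟨0, 0, 0, 0, 0, 0, 0, 0, 0⟩, (0, 0, 0)⟩,
  ⟨⟨79, 14, -107, 49, -74, 28, -12, -21, -17⟩, (57, 3, 21)⟩,
  ⟨⟨0, 0, 0, 0, 0, 0, 0, 0, 0⟩, (0, 0, 0)⟩,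
  ⟨⟨0, 0, 0, 0, 0, 0, 0, 0, 0⟩, (0, 0, 0)⟩,
  ⟨⟨31, -74, -83, -81, -54, 68, -16, 13, -19⟩, (61, 33, 67)⟩,
  ⟨⟨0, 0, 0, 0, 0, 0, 0, 0, 0⟩, (0, 0, 0)⟩,
  ⟨⟨0, 0, 0, 0, 0, 0, 0, 0, 0⟩, (0, 0, 0)⟩,
  ⟨⟨0, 0, 0, 0, 0, 0, 0, 0, 0⟩, (0, 0, 0)⟩,
  ⟨⟨0, 0, 0, 0, 0, 0, 0, 0, 0⟩, (0, 0, 0)⟩]

/-- Data of a prime. -/
noncomputable def Dm : PD := ⟨(nat_lit 31), (nat_lit 2), (435, 8, 13), (281, 829, 278), (666, 926, 286)⟩

theorem Dm_ok : Dm.Ok := pdb_sound (s := 3) (C := ⟨⟨11, 26, -43, -19, 34, 32, -12, -3, -1⟩, (11, 12, 19)⟩) (by show Nat.Prime 31; norm_num) (by decide +kernel)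

/-- Lines of the first type. -/
noncomputable def Clm : List C1 := [⟨⟨-11, -26, -32, 19, -34, 13, 12, 3, -13⟩, (22, 24, 7)⟩,
  ⟨⟨0, 0, 0, 0, 0, 0, 0, 0, 0⟩, (0, 0, 0)⟩,
  ⟨⟨0, 0, 0, 0, 0, 0, 0, 0, 0⟩, (0, 0, 0)⟩,
  ⟨⟨29, 26, -37, 21, 6, 32, 8, -11, -7⟩, (2, 10, 23)⟩,
  ⟨⟨0, 0, 0, 0, 0, 0, 0, 0, 0⟩, (0, 0, 0)⟩,
  ⟨⟨21, 6, -53, 29, 26, 8, 8, -11, -1⟩, (6, 26, 20)⟩,
  ⟨⟨0, 0, 0, 0, 0, 0, 0, 0, 0⟩, (0, 0, 0)⟩,
  ⟨⟨29, -26, -37, 21, -6, 32, 8, 11, -7⟩, (27, 11, 16)⟩,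
  ⟨⟨0, 0, 0, 0, 0, 0, 0, 0, 0⟩, (0, 0, 0)⟩,
  ⟨⟨-9, -6, -43, -41, 14, 28, 4, 13, -5⟩, (4, 1, 12)⟩,
  ⟨⟨9, -6, -52, -41, -14, 13, -4, 13, -1⟩, (29, 16, 25)⟩,
  ⟨⟨21, -6, -53, 29, -26, 8, 8, 11, -1⟩, (7, 20, 13)⟩,
  ⟨⟨9, 6, -52, -41, 14, 13, -4, -13, -1⟩, (28, 24, 22)⟩,
  ⟨⟨0, 0, 0, 0, 0, 0, 0, 0, 0⟩, (0, 0, 0)⟩,
  ⟨⟨0, 0, 0, 0, 0, 0, 0, 0, 0⟩, (0, 0, 0)⟩,
  ⟨⟨0, 0, 0, 0, 0, 0, 0, 0, 0⟩, (0, 0, 0)⟩,
  ⟨⟨11, -26, -43, -19, -34, 32, -12, 3, -1⟩, (25, 16, 15)⟩,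
  ⟨⟨-9, 6, -43, -41, -14, 28, 4, -13, -5⟩, (3, 24, 9)⟩,
  ⟨⟨0, 0, 0, 0, 0, 0, 0, 0, 0⟩, (0, 0, 0)⟩,
  ⟨⟨0, 0, 0, 0, 0, 0, 0, 0, 0⟩, (0, 0, 0)⟩,
  ⟨⟨0, 0, 0, 0, 0, 0, 0, 0, 0⟩, (0, 0, 0)⟩,
  ⟨⟨0, 0, 0, 0, 0, 0, 0, 0, 0⟩, (0, 0, 0)⟩,
  ⟨⟨0, 0, 0, 0, 0, 0, 0, 0, 0⟩, (0, 0, 0)⟩,
  ⟨⟨0, 0, 0, 0, 0, 0, 0, 0, 0⟩, (0, 0, 0)⟩,
  ⟨⟨0, 0, 0, 0, 0, 0, 0, 0, 0⟩, (0, 0, 0)⟩,
  ⟨⟨0, 0, 0, 0, 0, 0, 0, 0, 0⟩, (0, 0, 0)⟩,
  ⟨⟨0, 0, 0, 0, 0, 0, 0, 0, 0⟩, (0, 0, 0)⟩,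
  ⟨⟨0, 0, 0, 0, 0, 0, 0, 0, 0⟩, (0, 0, 0)⟩,
  ⟨⟨0, 0, 0, 0, 0, 0, 0, 0, 0⟩, (0, 0, 0)⟩,
  ⟨⟨0, 0, 0, 0, 0, 0, 0, 0, 0⟩, (0, 0, 0)⟩,
  ⟨⟨-11, 26, -32, 19, 34, 13, 12, -3, -13⟩, (28, 8, 23)⟩]

/-- Unit moves. -/
noncomputable def U : List Mv := [mz,
  mz,
  ⟨⟨-1, 0, 1, 0, 1, 0, 0, 0, 1⟩, .nil, (nat_lit 10), (nat_lit 5), (nat_lit 1), (nat_lit 1), (0, 0, 0), [], 6⟩,
  ⟨⟨1, 0, 0, 0, -1, 0, 0, 0, 1⟩, .nil, (nat_lit 10), (nat_lit 10), (nat_lit 2), (nat_lit 1), (0, 0, 0), [], 10⟩,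
  mz,
  mz,
  ⟨⟨-1, 0, 1, 0, -1, 0, 0, 0, 1⟩, .nil, (nat_lit 0), (nat_lit 6), (nat_lit 1), (nat_lit 0), (0, 0, 0), [], 5⟩,
  ⟨⟨-1, 0, 1, 0, -1, 0, 0, 0, 1⟩, .nil, (nat_lit 0), (nat_lit 6), (nat_lit 1), (nat_lit 0), (0, 0, 0), [], 5⟩,
  ⟨⟨1, 0, 0, 0, -1, 0, 0, 0, 1⟩, .nil, (nat_lit 10), (nat_lit 10), (nat_lit 2), (nat_lit 1), (0, 0, 0), [], 10⟩,
  ⟨⟨-1, 0, 1, 0, 1, 0, 0, 0, 1⟩, .nil, (nat_lit 10), (nat_lit 5), (nat_lit 1), (nat_lit 1), (0, 0, 0), [], 6⟩,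
  mz]

theorem v_ty : tyb Dm S.ty1 Clm = true := by decide +kernel

theorem v_ty0 : tyb D0 (S.tys.getD 0 0) Cl0 = true := by decide +kernel

theorem v_ty1 : tyb D1 (S.tys.getD 1 0) Cl1 = true := by decide +kernel

theorem v_msc : mscb S D0 [D1] Dm (nat_lit 18) = true := by decide +kernel

theorem v_mv0 : mvsn (nat_lit 6447897731) S D0 [D1] Dm (nat_lit 18) 0 D0 = true := by decide +kernel

theorem v_mv1 : mvsn (nat_lit 6447897731) S D0 [D1] Dm (nat_lit 18) 1 D1 = true := by decide +kernel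

theorem v_mm : mmsn (nat_lit 6447897731) S D0 [D1] Dm (nat_lit 18) = true := by decide +kernel

theorem v_un : unb S D0 (nat_lit 18) U = true := by decide +kernel

theorem v_ok : okb S.oks [(0, 0, 0), (0, 0, 0), (0, 0, 0), (0, 0, 0), (0, 0, 0)] = true := by decide +kernel

theorem v_part : ∀ d < D0.p, (nat_lit 18).testBit d = true → part S (zc (D0 :: [D1])) d = true := by
  intro d hd h
  have h1 : ∀ d < 11, (nat_lit 18).testBit d = true → d = 1 ∨ d = 4 := by decide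
  rcases h1 d hd h with rfl | rfl
  · exact part_1
  · exact part_4

theorem main (n : ℕ) (ho : Odd n) (hr : ¬ Rep n) (h0 : Split 11 n) (h1 : Split 71 n) (hm : Split 31 n) :
    n ∈ EE := by
  refine concln (W := nat_lit 6447897731) (S := S) (P0 := D0) (Pl := [D1]) (Pm := Dm) (cn := nat_lit 18) ?_ Dm_ok v_ty ?_ ?_ v_msc ?_ v_mm v_un v_part v_ok
    n ho hr ?_ hm
  · simp only [List.forall_mem_cons]
    exact ⟨D0_ok, D1_ok, fun _ h => absurd h (by simp)⟩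
  · exact all2 (φ := fun j P => ∃ L, tyb P (S.tys.getD j 0) L = true) ⟨_, v_ty0⟩ ⟨_, v_ty1⟩
  · exact all2 (φ := fun j P => Nat.ble (S.pks.getD j 0) (Nat.pow P.p P.K) = true) (by decide +kernel) (by decide +kernel)
  · exact all2 (φ := fun i P => mvsn (nat_lit 6447897731) S D0 [D1] Dm (nat_lit 18) i P = true) v_mv0 v_mv1
  · simp only [List.forall_mem_cons]
    exact ⟨h0, h1, fun _ h => absurd h (by simp)⟩

end Pool.Agent.Work.MP_9954fe_nt.P11_71_31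

namespace Pool.Agent.Work.MP_9954fe_nt.P11_37_43

/-- Dummy move. -/
noncomputable def mz : Mv := ⟨⟨0, 0, 0, 0, 0, 0, 0, 0, 0⟩, .nil, (nat_lit 0), (nat_lit 0), (nat_lit 0), (nat_lit 0), (0, 0, 0), [], 0⟩

/-- Moves. -/
noncomputable def t0_1 : List Mv := [
  ⟨⟨3, 8, -11, -10, -1, 0, 4, -4, -11⟩, (.cons (nat_lit 15242817) (nat_lit 6282365) (nat_lit 2311098) (nat_lit
 1) (.cons (nat_lit 1792065) (nat_lit 1042828) (nat_lit 1116138) (nat_lit 1) .nil)), (nat_lit 1), (nat_lit 10),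
 (nat_lit 36), (nat_lit 1), (4, 5, 9), [14831522, 201655], 36⟩,
  ⟨⟨3, 8, -11, 10, 1, 0, 4, -4, -11⟩, (.cons (nat_lit 6190604) (nat_lit 17063049) (nat_lit 6190617) (nat_lit 1)
 (.cons (nat_lit 106419) (nat_lit 939830) (nat_lit 967109) (nat_lit 1) .nil)), (nat_lit 25), (nat_lit 21),
 (nat_lit 13), (nat_lit 1), (4, 6, 9), [1, 536105], 24⟩,
  ⟨⟨1, -12, 0, 10, 1, 0, 4, -4, -11⟩, (.cons (nat_lit 13486901) (nat_lit 18743973) (nat_lit 18743974) (nat_lit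
 1) (.cons (nat_lit 1046769) (nat_lit 1285028) (nat_lit 1738462) (nat_lit 1) .nil)), (nat_lit 18), (nat_lit
 22), (nat_lit 13), (nat_lit 1), (5, 6, 9), [4149452, 128885], 24⟩,
  ⟨⟨1, -12, 0, -10, -1, 0, 4, -4, -11⟩, (.cons (nat_lit 10749318) (nat_lit 19050803) (nat_lit 10749329)
 (nat_lit 1) (.cons (nat_lit 1874160) (nat_lit 600115) (nat_lit 1373698) (nat_lit 1) .nil)), (nat_lit 42),
 (nat_lit 33), (nat_lit 36), (nat_lit 1), (5, 5, 9), [14450835, 337968], 36⟩,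
  ⟨⟨1, -12, 0, -10, -1, 0, 4, -4, -11⟩, (.cons (nat_lit 10749318) (nat_lit 19050803) (nat_lit 10749329)
 (nat_lit 1) (.cons (nat_lit 1874160) (nat_lit 600115) (nat_lit 1373698) (nat_lit 1) .nil)), (nat_lit 42),
 (nat_lit 33), (nat_lit 36), (nat_lit 1), (5, 5, 9), [14450835, 337968], 36⟩,
  ⟨⟨1, -12, 0, 10, 1, 0, 4, -4, -11⟩, (.cons (nat_lit 13486901) (nat_lit 18743973) (nat_lit 18743974) (nat_lit
 1) (.cons (nat_lit 1046769) (nat_lit 1285028) (nat_lit 1738462) (nat_lit 1) .nil)), (nat_lit 18), (nat_lit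
 22), (nat_lit 13), (nat_lit 1), (5, 6, 9), [4149452, 128885], 24⟩,
  ⟨⟨1, -12, 0, -10, -1, 0, 4, -4, -11⟩, (.cons (nat_lit 10749318) (nat_lit 19050803) (nat_lit 10749329)
 (nat_lit 1) (.cons (nat_lit 1874160) (nat_lit 600115) (nat_lit 1373698) (nat_lit 1) .nil)), (nat_lit 42),
 (nat_lit 33), (nat_lit 36), (nat_lit 1), (5, 5, 9), [14450835, 337968], 36⟩,
  ⟨⟨3, 8, -11, 10, 1, 0, 4, -4, -11⟩, (.cons (nat_lit 6190604) (nat_lit 17063049) (nat_lit 6190617) (nat_lit 1)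
 (.cons (nat_lit 106419) (nat_lit 939830) (nat_lit 967109) (nat_lit 1) .nil)), (nat_lit 25), (nat_lit 21),
 (nat_lit 13), (nat_lit 1), (4, 6, 9), [1, 536105], 24⟩,
  ⟨⟨1, -12, 0, -10, -1, 0, 4, -4, -11⟩, (.cons (nat_lit 10749318) (nat_lit 19050803) (nat_lit 10749329)
 (nat_lit 1) (.cons (nat_lit 1874160) (nat_lit 600115) (nat_lit 1373698) (nat_lit 1) .nil)), (nat_lit 42),
 (nat_lit 33), (nat_lit 36), (nat_lit 1), (5, 5, 9), [14450835, 337968], 36⟩,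
  ⟨⟨3, 8, -11, -10, -1, 0, 4, -4, -11⟩, (.cons (nat_lit 15242817) (nat_lit 6282365) (nat_lit 2311098) (nat_lit
 1) (.cons (nat_lit 1792065) (nat_lit 1042828) (nat_lit 1116138) (nat_lit 1) .nil)), (nat_lit 1), (nat_lit 10),
 (nat_lit 36), (nat_lit 1), (4, 5, 9), [14831522, 201655], 36⟩,
  ⟨⟨1, -12, 0, -10, -1, 0, 4, -4, -11⟩, (.cons (nat_lit 10749318) (nat_lit 19050803) (nat_lit 10749329)
 (nat_lit 1) (.cons (nat_lit 1874160) (nat_lit 600115) (nat_lit 1373698) (nat_lit 1) .nil)), (nat_lit 42),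
 (nat_lit 33), (nat_lit 36), (nat_lit 1), (5, 5, 9), [14450835, 337968], 36⟩]

/-- Moves. -/
noncomputable def t0_4 : List Mv := [
  ⟨⟨-11, 0, 0, -4, 5, 12, -2, 8, -5⟩, (.cons (nat_lit 4611151) (nat_lit 18672974) (nat_lit 10896376) (nat_lit
 1) (.cons (nat_lit 1874160) (nat_lit 1616085) (nat_lit 628334) (nat_lit 1) .nil)), (nat_lit 42), (nat_lit 12),
 (nat_lit 34), (nat_lit 1), (0, 5, 8), [13330250, 699141], 16⟩,
  ⟨⟨9, 8, -5, 4, -5, -12, -2, 8, -5⟩, (.cons (nat_lit 6586237) (nat_lit 5980849) (nat_lit 18545247) (nat_lit 1)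
 (.cons (nat_lit 508306) (nat_lit 835026) (nat_lit 329819) (nat_lit 1) .nil)), (nat_lit 7), (nat_lit 4),
 (nat_lit 25), (nat_lit 1), (8, 6, 8), [4509665, 51616], 9⟩,
  ⟨⟨9, 8, -5, 4, -5, -12, -2, 8, -5⟩, (.cons (nat_lit 6586237) (nat_lit 5980849) (nat_lit 18545247) (nat_lit 1)
 (.cons (nat_lit 508306) (nat_lit 835026) (nat_lit 329819) (nat_lit 1) .nil)), (nat_lit 7), (nat_lit 4),
 (nat_lit 25), (nat_lit 1), (8, 6, 8), [4509665, 51616], 9⟩,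
  ⟨⟨9, 8, -5, 4, -5, -12, -2, 8, -5⟩, (.cons (nat_lit 6586237) (nat_lit 5980849) (nat_lit 18545247) (nat_lit 1)
 (.cons (nat_lit 508306) (nat_lit 835026) (nat_lit 329819) (nat_lit 1) .nil)), (nat_lit 7), (nat_lit 4),
 (nat_lit 25), (nat_lit 1), (8, 6, 8), [4509665, 51616], 9⟩,
  ⟨⟨9, 8, -5, -4, 5, 12, -2, 8, -5⟩, (.cons (nat_lit 19404713) (nat_lit 11515759) (nat_lit 5642825) (nat_lit 1)
 (.cons (nat_lit 1269966) (nat_lit 1440676) (nat_lit 307123) (nat_lit 1) .nil)), (nat_lit 1), (nat_lit 31),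
 (nat_lit 34), (nat_lit 1), (8, 5, 8), [18598650, 1330535], 16⟩,
  ⟨⟨-11, 0, 0, 4, -5, -12, -2, 8, -5⟩, (.cons (nat_lit 14857472) (nat_lit 1937884) (nat_lit 16472565) (nat_lit
 1) (.cons (nat_lit 1022071) (nat_lit 813026) (nat_lit 968567) (nat_lit 1) .nil)), (nat_lit 36), (nat_lit 39),
 (nat_lit 25), (nat_lit 1), (0, 6, 8), [9454230, 86574], 9⟩,
  ⟨⟨9, 8, -5, 4, -5, -12, -2, 8, -5⟩, (.cons (nat_lit 6586237) (nat_lit 5980849) (nat_lit 18545247) (nat_lit 1)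
 (.cons (nat_lit 508306) (nat_lit 835026) (nat_lit 329819) (nat_lit 1) .nil)), (nat_lit 7), (nat_lit 4),
 (nat_lit 25), (nat_lit 1), (8, 6, 8), [4509665, 51616], 9⟩,
  ⟨⟨9, 8, -5, -4, 5, 12, -2, 8, -5⟩, (.cons (nat_lit 19404713) (nat_lit 11515759) (nat_lit 5642825) (nat_lit 1)
 (.cons (nat_lit 1269966) (nat_lit 1440676) (nat_lit 307123) (nat_lit 1) .nil)), (nat_lit 1), (nat_lit 31),
 (nat_lit 34), (nat_lit 1), (8, 5, 8), [18598650, 1330535], 16⟩,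
  ⟨⟨-11, 0, 0, 4, -5, -12, -2, 8, -5⟩, (.cons (nat_lit 14857472) (nat_lit 1937884) (nat_lit 16472565) (nat_lit
 1) (.cons (nat_lit 1022071) (nat_lit 813026) (nat_lit 968567) (nat_lit 1) .nil)), (nat_lit 36), (nat_lit 39),
 (nat_lit 25), (nat_lit 1), (0, 6, 8), [9454230, 86574], 9⟩,
  ⟨⟨9, 8, -5, 4, -5, -12, -2, 8, -5⟩, (.cons (nat_lit 6586237) (nat_lit 5980849) (nat_lit 18545247) (nat_lit 1)
 (.cons (nat_lit 508306) (nat_lit 835026) (nat_lit 329819) (nat_lit 1) .nil)), (nat_lit 7), (nat_lit 4),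
 (nat_lit 25), (nat_lit 1), (8, 6, 8), [4509665, 51616], 9⟩,
  ⟨⟨9, 8, -5, 4, -5, -12, -2, 8, -5⟩, (.cons (nat_lit 6586237) (nat_lit 5980849) (nat_lit 18545247) (nat_lit 1)
 (.cons (nat_lit 508306) (nat_lit 835026) (nat_lit 329819) (nat_lit 1) .nil)), (nat_lit 7), (nat_lit 4),
 (nat_lit 25), (nat_lit 1), (8, 6, 8), [4509665, 51616], 9⟩]

/-- Moves. -/
noncomputable def t1_1 : List Mv := [
  mz,
  ⟨⟨3, -16, -43, 10, 33, -20, 30, -12, -23⟩, (.cons (nat_lit 17080258) (nat_lit 3772299) (nat_lit 2291204)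
 (nat_lit 1) (.cons (nat_lit 613252) (nat_lit 1059658) (nat_lit 579005) (nat_lit 1) .nil)), (nat_lit 1),
 (nat_lit 35), (nat_lit 34), (nat_lit 1), (25, 34, 28), [6455049, 1167854], 39⟩,
  mz,
  mz,
  ⟨⟨11, -12, -47, 8, 35, -14, 32, -8, -19⟩, (.cons (nat_lit 11597263) (nat_lit 18391292) (nat_lit 1265860)
 (nat_lit 1) (.cons (nat_lit 428885) (nat_lit 476977) (nat_lit 1523725) (nat_lit 1) .nil)), (nat_lit 1),
 (nat_lit 32), (nat_lit 16), (nat_lit 1), (12, 2, 8), [13789968, 1417911], 13⟩,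
  ⟨⟨11, 12, -47, 8, -35, -14, 32, 8, -19⟩, (.cons (nat_lit 3265794) (nat_lit 14048111) (nat_lit 5911939)
 (nat_lit 1) (.cons (nat_lit 1138918) (nat_lit 226903) (nat_lit 1747111) (nat_lit 1) .nil)), (nat_lit 34),
 (nat_lit 35), (nat_lit 36), (nat_lit 1), (29, 11, 7), [2983228, 1053595], 40⟩,
  mz,
  ⟨⟨-1, -24, -36, -30, -17, 30, -18, 12, -19⟩, (.cons (nat_lit 8337923) (nat_lit 6495732) (nat_lit 1) (nat_lit
 11149248) (.cons (nat_lit 1460399) (nat_lit 751815) (nat_lit 476371) (nat_lit 1) .nil)), (nat_lit 42),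
 (nat_lit 38), (nat_lit 10), (nat_lit 1), (13, 20, 12), [4145192, 1393329], 7⟩,
  ⟨⟨35, -12, -36, 12, 35, -6, 0, 0, -37⟩, (.cons (nat_lit 18776891) (nat_lit 15131345) (nat_lit 8758295)
 (nat_lit 1) (.cons (nat_lit 640647) (nat_lit 1853776) (nat_lit 1587560) (nat_lit 1) .nil)), (nat_lit 1),
 (nat_lit 32), (nat_lit 15), (nat_lit 1), (34, 18, 0), [7990131, 1835062], 7⟩,
  mz,
  ⟨⟨-1, 24, -36, -30, 17, 30, -18, -12, -19⟩, (.cons (nat_lit 16218684) (nat_lit 7403857) (nat_lit 4011360)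
 (nat_lit 1) (.cons (nat_lit 413761) (nat_lit 1019282) (nat_lit 864789) (nat_lit 1) .nil)), (nat_lit 13),
 (nat_lit 30), (nat_lit 6), (nat_lit 1), (10, 4, 32), [9316289, 549573], 30⟩,
  ⟨⟨27, -4, 20, -10, 33, 20, 30, 12, -23⟩, (.cons (nat_lit 19487170) (nat_lit 393710) (nat_lit 17342860)
 (nat_lit 1) (.cons (nat_lit 1222104) (nat_lit 935258) (nat_lit 281482) (nat_lit 1) .nil)), (nat_lit 42),
 (nat_lit 41), (nat_lit 36), (nat_lit 1), (22, 22, 8), [8581807, 1171226], 39⟩,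
  ⟨⟨39, -4, -8, 10, 17, -40, 14, -28, -19⟩, (.cons (nat_lit 19487170) (nat_lit 14519482) (nat_lit 2338009)
 (nat_lit 1) (.cons (nat_lit 1554850) (nat_lit 1613946) (nat_lit 285754) (nat_lit 1) .nil)), (nat_lit 42),
 (nat_lit 32), (nat_lit 5), (nat_lit 1), (11, 18, 3), [11912651, 179876], 23⟩,
  ⟨⟨39, 8, -28, -8, 5, -36, 8, 32, -1⟩, (.cons (nat_lit 12299237) (nat_lit 200383) (nat_lit 13521307) (nat_lit
 1) (.cons (nat_lit 1823396) (nat_lit 1267075) (nat_lit 1419066) (nat_lit 1) .nil)), (nat_lit 28), (nat_lit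
 25), (nat_lit 38), (nat_lit 1), (21, 27, 10), [964122, 1338202], 28⟩,
  mz,
  ⟨⟨-3, 40, 8, 32, 5, -36, -16, 16, -19⟩, (.cons (nat_lit 1643990) (nat_lit 8627991) (nat_lit 2867000) (nat_lit
 1) (.cons (nat_lit 798622) (nat_lit 669341) (nat_lit 1419928) (nat_lit 1) .nil)), (nat_lit 7), (nat_lit 16),
 (nat_lit 14), (nat_lit 1), (27, 8, 33), [4923605, 1800850], 12⟩,
  ⟨⟨11, -12, 36, -8, -35, -6, 32, -8, -13⟩, (.cons (nat_lit 19487170) (nat_lit 3707271) (nat_lit 1323977)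
 (nat_lit 1) (.cons (nat_lit 539965) (nat_lit 538325) (nat_lit 1673641) (nat_lit 1) .nil)), (nat_lit 42),
 (nat_lit 6), (nat_lit 15), (nat_lit 1), (3, 18, 2), [7121129, 1292009], 30⟩,
  ⟨⟨39, -8, -11, -8, -5, 44, 8, -32, -7⟩, (.cons (nat_lit 1508092) (nat_lit 13254333) (nat_lit 9115112)
 (nat_lit 1) (.cons (nat_lit 460752) (nat_lit 665154) (nat_lit 1172797) (nat_lit 1) .nil)), (nat_lit 15),
 (nat_lit 25), (nat_lit 5), (nat_lit 1), (5, 17, 20), [2446459, 1248849], 15⟩,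
  ⟨⟨39, 4, -8, 10, -17, -40, 14, 28, -19⟩, (.cons (nat_lit 14076893) (nat_lit 2640253) (nat_lit 6336314)
 (nat_lit 1) (.cons (nat_lit 101959) (nat_lit 470110) (nat_lit 1640323) (nat_lit 1) .nil)), (nat_lit 40),
 (nat_lit 17), (nat_lit 12), (nat_lit 1), (29, 34, 18), [9092899, 770684], 38⟩,
  ⟨⟨39, -8, -28, -8, -5, -36, 8, -32, -1⟩, (.cons (nat_lit 1351113) (nat_lit 17885038) (nat_lit 3466137)
 (nat_lit 1) (.cons (nat_lit 1371082) (nat_lit 881345) (nat_lit 452127) (nat_lit 1) .nil)), (nat_lit 1),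
 (nat_lit 3), (nat_lit 31), (nat_lit 1), (22, 23, 14), [149126, 10396], 7⟩,
  ⟨⟨25, -24, -36, -10, 17, -30, -14, -28, -5⟩, (.cons (nat_lit 19487170) (nat_lit 12509367) (nat_lit 16311374)
 (nat_lit 1) (.cons (nat_lit 740045) (nat_lit 1217231) (nat_lit 1723749) (nat_lit 1) .nil)), (nat_lit 42),
 (nat_lit 11), (nat_lit 38), (nat_lit 1), (21, 36, 6), [8409234, 1773034], 23⟩,
  ⟨⟨13, -24, -40, -32, 5, -4, 16, 16, -35⟩, (.cons (nat_lit 16618245) (nat_lit 13415022) (nat_lit 5645806)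
 (nat_lit 1) (.cons (nat_lit 790175) (nat_lit 546003) (nat_lit 1464450) (nat_lit 1) .nil)), (nat_lit 7),
 (nat_lit 27), (nat_lit 29), (nat_lit 1), (27, 36, 19), [14904179, 620026], 12⟩,
  ⟨⟨39, 8, -11, 8, -5, -44, 8, 32, -7⟩, (.cons (nat_lit 16584858) (nat_lit 1777441) (nat_lit 1627151) (nat_lit
 1) (.cons (nat_lit 425268) (nat_lit 1360462) (nat_lit 1420042) (nat_lit 1) .nil)), (nat_lit 23), (nat_lit 27),
 (nat_lit 14), (nat_lit 1), (4, 16, 16), [5199588, 517079], 23⟩,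
  mz,
  ⟨⟨13, 24, -40, 32, 5, 4, 16, -16, -35⟩, (.cons (nat_lit 4954430) (nat_lit 8035076) (nat_lit 4029268) (nat_lit
 1) (.cons (nat_lit 1571933) (nat_lit 218484) (nat_lit 1279548) (nat_lit 1) .nil)), (nat_lit 37), (nat_lit 10),
 (nat_lit 41), (nat_lit 1), (24, 5, 21), [3802514, 32266], 2⟩,
  ⟨⟨17, -36, 0, 30, 17, 0, 18, -12, -37⟩, (.cons (nat_lit 871693) (nat_lit 10334384) (nat_lit 10907778)
 (nat_lit 1) (.cons (nat_lit 338837) (nat_lit 141716) (nat_lit 670967) (nat_lit 1) .nil)), (nat_lit 13),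
 (nat_lit 13), (nat_lit 37), (nat_lit 1), (21, 24, 7), [4027148, 862200], 30⟩,
  ⟨⟨27, -4, -47, 10, -33, 10, 30, 12, -7⟩, (.cons (nat_lit 7824637) (nat_lit 16301330) (nat_lit 6957974)
 (nat_lit 1) (.cons (nat_lit 1774499) (nat_lit 605269) (nat_lit 894158) (nat_lit 1) .nil)), (nat_lit 1),
 (nat_lit 8), (nat_lit 9), (nat_lit 1), (15, 22, 29), [2125517, 997872], 4⟩,
  ⟨⟨27, 4, -47, -10, -33, -10, 30, -12, -7⟩, (.cons (nat_lit 6755569) (nat_lit 9722058) (nat_lit 15529996)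
 (nat_lit 1) (.cons (nat_lit 3966) (nat_lit 12424) (nat_lit 414996) (nat_lit 1) .nil)), (nat_lit 1), (nat_lit
 41), (nat_lit 7), (nat_lit 1), (33, 33, 12), [298252, 89427], 4⟩,
  mz,
  ⟨⟨-35, -12, -1, 12, -35, -6, 0, 0, -37⟩, (.cons (nat_lit 4572910) (nat_lit 12709997) (nat_lit 4146005)
 (nat_lit 1) (.cons (nat_lit 1066550) (nat_lit 1394035) (nat_lit 434693) (nat_lit 1) .nil)), (nat_lit 1),
 (nat_lit 20), (nat_lit 4), (nat_lit 1), (23, 27, 0), [10596896, 1839414], 42⟩,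
  ⟨⟨25, 24, -36, 10, 17, 30, -14, 28, -5⟩, (.cons (nat_lit 19487170) (nat_lit 10580937) (nat_lit 16009930)
 (nat_lit 1) (.cons (nat_lit 459819) (nat_lit 1725603) (nat_lit 889937) (nat_lit 1) .nil)), (nat_lit 42),
 (nat_lit 18), (nat_lit 28), (nat_lit 1), (18, 22, 21), [11754647, 1218758], 23⟩,
  mz,
  mz,
  ⟨⟨-3, -40, 8, 32, -5, -36, -16, -16, -19⟩, (.cons (nat_lit 11991364) (nat_lit 12685269) (nat_lit 13229488)
 (nat_lit 1) (.cons (nat_lit 1782129) (nat_lit 882841) (nat_lit 1226847) (nat_lit 1) .nil)), (nat_lit 1),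
 (nat_lit 22), (nat_lit 35), (nat_lit 1), (32, 4, 35), [6791639, 1421722], 30⟩,
  mz,
  ⟨⟨21, -4, -49, 8, -35, 6, 32, 8, -13⟩, (.cons (nat_lit 14991611) (nat_lit 877612) (nat_lit 8470325) (nat_lit
 1) (.cons (nat_lit 1867693) (nat_lit 815124) (nat_lit 1782597) (nat_lit 1) .nil)), (nat_lit 1), (nat_lit 11),
 (nat_lit 27), (nat_lit 1), (18, 28, 1), [7679385, 580196], 30⟩,
  ⟨⟨17, 36, 0, -30, 17, 0, 18, 12, -37⟩, (.cons (nat_lit 8754498) (nat_lit 4229970) (nat_lit 5930332) (nat_lit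
 1) (.cons (nat_lit 587166) (nat_lit 654203) (nat_lit 125876) (nat_lit 1) .nil)), (nat_lit 10), (nat_lit 42),
 (nat_lit 17), (nat_lit 1), (35, 34, 24), [12302027, 983644], 33⟩]

/-- Moves. -/
noncomputable def t1_4 : List Mv := [
  mz,
  ⟨⟨3, -16, -43, 10, 33, -20, 30, -12, -23⟩, (.cons (nat_lit 17080258) (nat_lit 3772299) (nat_lit 2291204)
 (nat_lit 1) (.cons (nat_lit 613252) (nat_lit 1059658) (nat_lit 579005) (nat_lit 1) .nil)), (nat_lit 1),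
 (nat_lit 35), (nat_lit 34), (nat_lit 1), (25, 34, 28), [6455049, 1167854], 39⟩,
  mz,
  mz,
  ⟨⟨21, 4, 28, 8, 35, -14, 32, -8, -19⟩, (.cons (nat_lit 19487170) (nat_lit 6742898) (nat_lit 4109168) (nat_lit
 1) (.cons (nat_lit 1425476) (nat_lit 1018043) (nat_lit 1761999) (nat_lit 1) .nil)), (nat_lit 42), (nat_lit
 11), (nat_lit 16), (nat_lit 1), (33, 2, 8), [14034489, 1716966], 13⟩,
  ⟨⟨21, -4, 28, 8, -35, -14, 32, 8, -19⟩, (.cons (nat_lit 1121347) (nat_lit 7905375) (nat_lit 4397540) (nat_lit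
 1) (.cons (nat_lit 140534) (nat_lit 54930) (nat_lit 357163) (nat_lit 1) .nil)), (nat_lit 9), (nat_lit 8),
 (nat_lit 36), (nat_lit 1), (15, 11, 7), [9284509, 1768453], 40⟩,
  mz,
  ⟨⟨-1, -24, -36, 30, 17, -30, -18, 12, -19⟩, (.cons (nat_lit 17782077) (nat_lit 15081654) (nat_lit 2180063)
 (nat_lit 1) (.cons (nat_lit 1499386) (nat_lit 885095) (nat_lit 110208) (nat_lit 1) .nil)), (nat_lit 10),
 (nat_lit 1), (nat_lit 26), (nat_lit 1), (13, 17, 12), [15275888, 466968], 33⟩,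
  ⟨⟨-35, 12, -1, 12, 35, -6, 0, 0, -37⟩, (.cons (nat_lit 19487170) (nat_lit 14655612) (nat_lit 4381831)
 (nat_lit 1) (.cons (nat_lit 353825) (nat_lit 423693) (nat_lit 512773) (nat_lit 1) .nil)), (nat_lit 42),
 (nat_lit 11), (nat_lit 15), (nat_lit 1), (3, 18, 0), [6584823, 388739], 7⟩,
  mz,
  ⟨⟨-17, -36, 17, 30, -17, -30, -18, -12, -19⟩, (.cons (nat_lit 16753016) (nat_lit 7089076) (nat_lit 19002260)
 (nat_lit 1) (.cons (nat_lit 1058738) (nat_lit 929056) (nat_lit 756525) (nat_lit 1) .nil)), (nat_lit 1),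
 (nat_lit 36), (nat_lit 42), (nat_lit 1), (22, 33, 32), [13584063, 1425120], 7⟩,
  ⟨⟨3, 16, -43, 10, -33, -20, 30, 12, -23⟩, (.cons (nat_lit 4958427) (nat_lit 14874296) (nat_lit 4463179)
 (nat_lit 1) (.cons (nat_lit 657744) (nat_lit 232141) (nat_lit 594355) (nat_lit 1) .nil)), (nat_lit 39),
 (nat_lit 19), (nat_lit 22), (nat_lit 1), (23, 15, 8), [3357718, 1521813], 5⟩,
  ⟨⟨39, -4, -8, -10, -17, 40, 14, -28, -19⟩, (.cons (nat_lit 2018425) (nat_lit 3991845) (nat_lit 16767508)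
 (nat_lit 1) (.cons (nat_lit 114235) (nat_lit 1334585) (nat_lit 580609) (nat_lit 1) .nil)), (nat_lit 14),
 (nat_lit 20), (nat_lit 4), (nat_lit 1), (11, 19, 3), [18676974, 1791581], 9⟩,
  ⟨⟨39, 8, -28, -8, 5, -36, 8, 32, -1⟩, (.cons (nat_lit 12299237) (nat_lit 200383) (nat_lit 13521307) (nat_lit
 1) (.cons (nat_lit 1823396) (nat_lit 1267075) (nat_lit 1419066) (nat_lit 1) .nil)), (nat_lit 28), (nat_lit
 25), (nat_lit 38), (nat_lit 1), (21, 27, 10), [964122, 1338202], 28⟩,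
  mz,
  ⟨⟨-3, 40, 8, -32, -5, 36, -16, 16, -19⟩, (.cons (nat_lit 19194142) (nat_lit 622816) (nat_lit 13428574)
 (nat_lit 1) (.cons (nat_lit 505032) (nat_lit 1154438) (nat_lit 1762769) (nat_lit 1) .nil)), (nat_lit 1),
 (nat_lit 40), (nat_lit 30), (nat_lit 1), (27, 29, 33), [4696700, 1768448], 30⟩,
  ⟨⟨11, -12, 36, -8, -35, -6, 32, -8, -13⟩, (.cons (nat_lit 19487170) (nat_lit 3707271) (nat_lit 1323977)
 (nat_lit 1) (.cons (nat_lit 539965) (nat_lit 538325) (nat_lit 1673641) (nat_lit 1) .nil)), (nat_lit 42),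
 (nat_lit 6), (nat_lit 15), (nat_lit 1), (3, 18, 2), [7121129, 1292009], 30⟩,
  ⟨⟨-31, -24, 4, -8, -5, 44, 8, -32, -7⟩, (.cons (nat_lit 14804846) (nat_lit 1143096) (nat_lit 261133) (nat_lit
 1) (.cons (nat_lit 532719) (nat_lit 650032) (nat_lit 714456) (nat_lit 1) .nil)), (nat_lit 28), (nat_lit 18),
 (nat_lit 5), (nat_lit 1), (15, 17, 20), [10534455, 1634073], 15⟩,
  ⟨⟨39, 4, -8, -10, 17, 40, 14, 28, -19⟩, (.cons (nat_lit 19487170) (nat_lit 6319532) (nat_lit 1357759)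
 (nat_lit 1) (.cons (nat_lit 448528) (nat_lit 502940) (nat_lit 1378481) (nat_lit 1) .nil)), (nat_lit 42),
 (nat_lit 25), (nat_lit 15), (nat_lit 1), (29, 3, 18), [16489284, 1274331], 23⟩,
  ⟨⟨39, -8, -28, 8, 5, 36, 8, -32, -1⟩, (.cons (nat_lit 2311937) (nat_lit 6245384) (nat_lit 9000130) (nat_lit
 1) (.cons (nat_lit 1548467) (nat_lit 841939) (nat_lit 1749250) (nat_lit 1) .nil)), (nat_lit 20), (nat_lit 27),
 (nat_lit 29), (nat_lit 1), (22, 14, 14), [8999961, 446381], 20⟩,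
  ⟨⟨25, -24, -36, -10, 17, -30, -14, -28, -5⟩, (.cons (nat_lit 19487170) (nat_lit 12509367) (nat_lit 16311374)
 (nat_lit 1) (.cons (nat_lit 740045) (nat_lit 1217231) (nat_lit 1723749) (nat_lit 1) .nil)), (nat_lit 42),
 (nat_lit 11), (nat_lit 38), (nat_lit 1), (21, 36, 6), [8409234, 1773034], 23⟩,
  ⟨⟨13, -24, -40, 32, -5, 4, 16, 16, -35⟩, (.cons (nat_lit 10144257) (nat_lit 8090882) (nat_lit 1) (nat_lit
 11579887) (.cons (nat_lit 222986) (nat_lit 1585934) (nat_lit 135540) (nat_lit 1) .nil)), (nat_lit 1), (nat_lit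
 3), (nat_lit 13), (nat_lit 1), (27, 1, 19), [11990373, 375479], 30⟩,
  ⟨⟨39, 8, -11, 8, -5, -44, 8, 32, -7⟩, (.cons (nat_lit 16584858) (nat_lit 1777441) (nat_lit 1627151) (nat_lit
 1) (.cons (nat_lit 425268) (nat_lit 1360462) (nat_lit 1420042) (nat_lit 1) .nil)), (nat_lit 23), (nat_lit 27),
 (nat_lit 14), (nat_lit 1), (4, 16, 16), [5199588, 517079], 23⟩,
  mz,
  ⟨⟨13, 24, -40, -32, -5, -4, 16, -16, -35⟩, (.cons (nat_lit 7302211) (nat_lit 2673351) (nat_lit 1) (nat_lit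
 10806114) (.cons (nat_lit 1860152) (nat_lit 1054636) (nat_lit 705457) (nat_lit 1) .nil)), (nat_lit 1),
 (nat_lit 21), (nat_lit 8), (nat_lit 1), (24, 32, 21), [4791519, 1551364], 30⟩,
  ⟨⟨1, 24, -37, -30, -17, 0, 18, -12, -37⟩, (.cons (nat_lit 14543747) (nat_lit 2673307) (nat_lit 15716617)
 (nat_lit 1) (.cons (nat_lit 331579) (nat_lit 1579701) (nat_lit 232118) (nat_lit 1) .nil)), (nat_lit 1),
 (nat_lit 7), (nat_lit 1), (nat_lit 1), (23, 13, 7), [880410, 853811], 7⟩,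
  ⟨⟨27, -4, -47, -10, 33, -10, 30, 12, -7⟩, (.cons (nat_lit 18106232) (nat_lit 3877052) (nat_lit 14475543)
 (nat_lit 1) (.cons (nat_lit 274365) (nat_lit 283126) (nat_lit 1229669) (nat_lit 1) .nil)), (nat_lit 32),
 (nat_lit 37), (nat_lit 27), (nat_lit 1), (15, 15, 29), [13461942, 653075], 40⟩,
  ⟨⟨27, 4, -47, -10, -33, -10, 30, -12, -7⟩, (.cons (nat_lit 6755569) (nat_lit 9722058) (nat_lit 15529996)
 (nat_lit 1) (.cons (nat_lit 3966) (nat_lit 12424) (nat_lit 414996) (nat_lit 1) .nil)), (nat_lit 1), (nat_lit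
 41), (nat_lit 7), (nat_lit 1), (33, 33, 12), [298252, 89427], 4⟩,
  mz,
  ⟨⟨35, 12, -36, -12, 35, 6, 0, 0, -37⟩, (.cons (nat_lit 11579349) (nat_lit 17558037) (nat_lit 14714297)
 (nat_lit 1) (.cons (nat_lit 497604) (nat_lit 979766) (nat_lit 233085) (nat_lit 1) .nil)), (nat_lit 1),
 (nat_lit 11), (nat_lit 28), (nat_lit 1), (14, 10, 0), [2926413, 1742656], 7⟩,
  ⟨⟨-39, 4, 31, -10, -17, -30, -14, 28, -5⟩, (.cons (nat_lit 10493090) (nat_lit 5438330) (nat_lit 6948455)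
 (nat_lit 1) (.cons (nat_lit 603834) (nat_lit 328847) (nat_lit 657138) (nat_lit 1) .nil)), (nat_lit 3),
 (nat_lit 17), (nat_lit 31), (nat_lit 1), (3, 15, 21), [13952337, 870269], 38⟩,
  mz,
  mz,
  ⟨⟨-3, -40, 8, 32, -5, -36, -16, -16, -19⟩, (.cons (nat_lit 11991364) (nat_lit 12685269) (nat_lit 13229488)
 (nat_lit 1) (.cons (nat_lit 1782129) (nat_lit 882841) (nat_lit 1226847) (nat_lit 1) .nil)), (nat_lit 1),
 (nat_lit 22), (nat_lit 35), (nat_lit 1), (32, 4, 35), [6791639, 1421722], 30⟩,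
  mz,
  ⟨⟨21, -4, -49, -8, 35, -6, 32, 8, -13⟩, (.cons (nat_lit 1108088) (nat_lit 3844742) (nat_lit 14638096)
 (nat_lit 1) (.cons (nat_lit 1467484) (nat_lit 742414) (nat_lit 558328) (nat_lit 1) .nil)), (nat_lit 19),
 (nat_lit 23), (nat_lit 4), (nat_lit 1), (18, 9, 1), [1392689, 1006223], 8⟩,
  ⟨⟨1, -24, -37, -30, 17, 0, 18, 12, -37⟩, (.cons (nat_lit 6286797) (nat_lit 11355626) (nat_lit 18175836)
 (nat_lit 1) (.cons (nat_lit 1196502) (nat_lit 1057277) (nat_lit 1384140) (nat_lit 1) .nil)), (nat_lit 33),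
 (nat_lit 1), (nat_lit 17), (nat_lit 1), (26, 34, 24), [8759582, 1684962], 33⟩]

/-- Moves. -/
noncomputable def t4_1 : List Mv := [
  mz,
  ⟨⟨3, 44, -20, 2, 15, 44, 36, 12, -25⟩, (.cons (nat_lit 4236291) (nat_lit 6182597) (nat_lit 13123339) (nat_lit
 1) (.cons (nat_lit 1061826) (nat_lit 455374) (nat_lit 585259) (nat_lit 1) .nil)), (nat_lit 22), (nat_lit 0),
 (nat_lit 0), (nat_lit 0), (36, 24, 2), [17342491, 1567395], 0⟩,
  mz,
  mz,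
  ⟨⟨19, 36, -36, 20, 13, 30, 34, -8, -35⟩, (.cons (nat_lit 17782077) (nat_lit 1075336) (nat_lit 4640308)
 (nat_lit 1) (.cons (nat_lit 883635) (nat_lit 415687) (nat_lit 256360) (nat_lit 1) .nil)), (nat_lit 26),
 (nat_lit 0), (nat_lit 0), (nat_lit 0), (14, 17, 16), [13274890, 1204842], 0⟩,
  ⟨⟨33, -32, -28, 2, 15, -46, 36, 12, -11⟩, (.cons (nat_lit 12086274) (nat_lit 6305611) (nat_lit 9400252)
 (nat_lit 1) (.cons (nat_lit 846620) (nat_lit 110997) (nat_lit 76577) (nat_lit 1) .nil)), (nat_lit 21),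
 (nat_lit 0), (nat_lit 0), (nat_lit 0), (19, 22, 9), [13276761, 34610], 0⟩,
  ⟨⟨-37, -24, 0, 20, -37, 0, 2, -8, -43⟩, (.cons (nat_lit 7422495) (nat_lit 6497803) (nat_lit 6681494) (nat_lit
 1) (.cons (nat_lit 488677) (nat_lit 898148) (nat_lit 1383164) (nat_lit 1) .nil)), (nat_lit 35), (nat_lit 0),
 (nat_lit 0), (nat_lit 0), (12, 40, 4), [8191921, 361924], 0⟩,
  ⟨⟨33, 8, -53, -20, -27, -20, 30, -24, -13⟩, (.cons (nat_lit 381333) (nat_lit 1227761) (nat_lit 5680006)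
 (nat_lit 1) (.cons (nat_lit 1817134) (nat_lit 58883) (nat_lit 928041) (nat_lit 1) .nil)), (nat_lit 36),
 (nat_lit 0), (nat_lit 0), (nat_lit 0), (32, 21, 33), [1195506, 1035437], 0⟩,
  ⟨⟨-39, -16, -4, 20, -37, -20, -2, 8, -41⟩, (.cons (nat_lit 14534678) (nat_lit 9025765) (nat_lit 6341400)
 (nat_lit 1) (.cons (nat_lit 1129534) (nat_lit 806312) (nat_lit 1860066) (nat_lit 1) .nil)), (nat_lit 37),
 (nat_lit 0), (nat_lit 0), (nat_lit 0), (6, 30, 40), [974451, 1527098], 0⟩,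
  ⟨⟨47, 0, -20, 0, -43, 0, 18, 0, -47⟩, (.cons (nat_lit 19487170) (nat_lit 12239860) (nat_lit 12194306)
 (nat_lit 1) (.cons (nat_lit 1874160) (nat_lit 431581) (nat_lit 519689) (nat_lit 1) .nil)), (nat_lit 9),
 (nat_lit 0), (nat_lit 0), (nat_lit 0), (34, 0, 24), [2629558, 402162], 0⟩,
  ⟨⟨21, -20, 31, 38, 15, -34, 12, -36, -13⟩, (.cons (nat_lit 6744479) (nat_lit 16083729) (nat_lit 9245059)
 (nat_lit 1) (.cons (nat_lit 1577832) (nat_lit 295961) (nat_lit 1566443) (nat_lit 1) .nil)), (nat_lit 38),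
 (nat_lit 0), (nat_lit 0), (nat_lit 0), (8, 37, 23), [10719320, 344758], 0⟩,
  mz,
  ⟨⟨-19, -36, -17, 20, 13, -50, -34, 8, -1⟩, (.cons (nat_lit 17139113) (nat_lit 4764643) (nat_lit 14508598)
 (nat_lit 1) (.cons (nat_lit 323265) (nat_lit 1745904) (nat_lit 856716) (nat_lit 1) .nil)), (nat_lit 18),
 (nat_lit 0), (nat_lit 0), (nat_lit 0), (24, 20, 9), [15144496, 1633656], 0⟩,
  ⟨⟨33, 8, 20, 20, 27, -40, 30, -24, -17⟩, (.cons (nat_lit 19487170) (nat_lit 8689765) (nat_lit 13750578)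
 (nat_lit 1) (.cons (nat_lit 1874160) (nat_lit 1523104) (nat_lit 926388) (nat_lit 1) .nil)), (nat_lit 13),
 (nat_lit 0), (nat_lit 0), (nat_lit 0), (4, 35, 31), [14549954, 679138], 0⟩,
  mz,
  mz,
  mz,
  ⟨⟨5, 36, 31, -40, 13, 10, 14, 32, -25⟩, (.cons (nat_lit 172394) (nat_lit 325273) (nat_lit 4640100) (nat_lit
 1) (.cons (nat_lit 1520733) (nat_lit 186253) (nat_lit 1201) (nat_lit 1) .nil)), (nat_lit 4), (nat_lit 0),
 (nat_lit 0), (nat_lit 0), (1, 35, 20), [281439, 673543], 0⟩,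
  ⟨⟨-9, 4, -47, -40, 13, 30, -14, -32, -11⟩, (.cons (nat_lit 10938747) (nat_lit 13491190) (nat_lit 15212156)
 (nat_lit 1) (.cons (nat_lit 758842) (nat_lit 1617664) (nat_lit 633130) (nat_lit 1) .nil)), (nat_lit 12),
 (nat_lit 0), (nat_lit 0), (nat_lit 0), (37, 2, 5), [4410297, 1873090], 0⟩,
  mz,
  mz,
  ⟨⟨21, 20, 31, -38, 15, 34, 12, 36, -13⟩, (.cons (nat_lit 6793375) (nat_lit 9693197) (nat_lit 3759368)
 (nat_lit 1) (.cons (nat_lit 1349507) (nat_lit 1153201) (nat_lit 856538) (nat_lit 1) .nil)), (nat_lit 1),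
 (nat_lit 0), (nat_lit 0), (nat_lit 0), (12, 9, 13), [18963777, 328383], 0⟩,
  ⟨⟨9, 16, -53, -38, -15, 4, -12, 36, -1⟩, (.cons (nat_lit 9795628) (nat_lit 1824705) (nat_lit 18413930)
 (nat_lit 1) (.cons (nat_lit 1499886) (nat_lit 1442445) (nat_lit 737442) (nat_lit 1) .nil)), (nat_lit 5),
 (nat_lit 0), (nat_lit 0), (nat_lit 0), (1, 34, 13), [8736236, 533309], 0⟩,
  mz,
  mz,
  ⟨⟨9, 4, -56, -40, -13, 10, 14, -32, -25⟩, (.cons (nat_lit 17196463) (nat_lit 14811236) (nat_lit 18773345)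
 (nat_lit 1) (.cons (nat_lit 956786) (nat_lit 185382) (nat_lit 1070886) (nat_lit 1) .nil)), (nat_lit 39),
 (nat_lit 0), (nat_lit 0), (nat_lit 0), (37, 41, 5), [4854518, 97228], 0⟩,
  ⟨⟨-5, 36, 36, 40, 13, -30, -14, 32, -11⟩, (.cons (nat_lit 16218684) (nat_lit 15575072) (nat_lit 18620551)
 (nat_lit 1) (.cons (nat_lit 1234210) (nat_lit 898997) (nat_lit 1281064) (nat_lit 1) .nil)), (nat_lit 4),
 (nat_lit 0), (nat_lit 0), (nat_lit 0), (1, 35, 20), [15302812, 1722176], 0⟩,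
  mz,
  mz,
  mz,
  ⟨⟨33, -8, -53, -20, 27, -20, 30, 24, -13⟩, (.cons (nat_lit 592893) (nat_lit 3049783) (nat_lit 5995253)
 (nat_lit 1) (.cons (nat_lit 208042) (nat_lit 92848) (nat_lit 1235709) (nat_lit 1) .nil)), (nat_lit 36),
 (nat_lit 0), (nat_lit 0), (nat_lit 0), (39, 35, 12), [6137545, 426976], 0⟩,
  ⟨⟨19, -36, -36, -20, 13, -30, 34, 8, -35⟩, (.cons (nat_lit 6758725) (nat_lit 7431180) (nat_lit 9371416)
 (nat_lit 1) (.cons (nat_lit 240459) (nat_lit 560312) (nat_lit 1408041) (nat_lit 1) .nil)), (nat_lit 18),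
 (nat_lit 0), (nat_lit 0), (nat_lit 0), (24, 20, 9), [9598574, 1524212], 0⟩,
  mz,
  ⟨⟨-21, -20, 52, 38, -15, -4, -12, -36, -1⟩, (.cons (nat_lit 7626467) (nat_lit 18075979) (nat_lit 7472996)
 (nat_lit 1) (.cons (nat_lit 509291) (nat_lit 411199) (nat_lit 1556142) (nat_lit 1) .nil)), (nat_lit 1),
 (nat_lit 0), (nat_lit 0), (nat_lit 0), (8, 6, 23), [15302812, 1001390], 0⟩,
  ⟨⟨-47, 0, 27, 0, -43, 0, -18, 0, -29⟩, (.cons (nat_lit 10348082) (nat_lit 1120183) (nat_lit 8018905) (nat_lit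
 1) (.cons (nat_lit 471030) (nat_lit 1863091) (nat_lit 659602) (nat_lit 1) .nil)), (nat_lit 9), (nat_lit 0),
 (nat_lit 0), (nat_lit 0), (34, 0, 24), [8819387, 1405791], 0⟩,
  ⟨⟨-37, 24, 0, -20, -37, 0, 2, 8, -43⟩, (.cons (nat_lit 6333155) (nat_lit 11083023) (nat_lit 12642276)
 (nat_lit 1) (.cons (nat_lit 1819621) (nat_lit 45863) (nat_lit 910149) (nat_lit 1) .nil)), (nat_lit 6),
 (nat_lit 0), (nat_lit 0), (nat_lit 0), (34, 30, 40), [19278924, 1403185], 0⟩,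
  ⟨⟨-3, 32, -37, -20, 27, 40, 30, 24, -17⟩, (.cons (nat_lit 12231447) (nat_lit 7551708) (nat_lit 14829139)
 (nat_lit 1) (.cons (nat_lit 12850) (nat_lit 514494) (nat_lit 1833754) (nat_lit 1) .nil)), (nat_lit 7),
 (nat_lit 0), (nat_lit 0), (nat_lit 0), (42, 22, 10), [584042, 826586], 0⟩,
  ⟨⟨-39, 16, -4, 20, 37, -20, -2, -8, -41⟩, (.cons (nat_lit 19487170) (nat_lit 14539485) (nat_lit 9140534)
 (nat_lit 1) (.cons (nat_lit 1874160) (nat_lit 1764313) (nat_lit 405930) (nat_lit 1) .nil)), (nat_lit 37),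
 (nat_lit 0), (nat_lit 0), (nat_lit 0), (35, 3, 4), [12562084, 1595529], 0⟩,
  ⟨⟨3, -44, -20, -2, 15, -44, 36, -12, -25⟩, (.cons (nat_lit 2806336) (nat_lit 13420405) (nat_lit 2712025)
 (nat_lit 1) (.cons (nat_lit 1789460) (nat_lit 1084973) (nat_lit 369791) (nat_lit 1) .nil)), (nat_lit 33),
 (nat_lit 0), (nat_lit 0), (nat_lit 0), (10, 22, 34), [4175535, 1476127], 0⟩,
  ⟨⟨-15, -44, 16, 20, -13, -50, -34, -8, -1⟩, (.cons (nat_lit 13959995) (nat_lit 8418993) (nat_lit 8653968)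
 (nat_lit 1) (.cons (nat_lit 179660) (nat_lit 1859172) (nat_lit 367017) (nat_lit 1) .nil)), (nat_lit 25),
 (nat_lit 0), (nat_lit 0), (nat_lit 0), (2, 26, 16), [7656060, 258403], 0⟩,
  mz,
  mz,
  ⟨⟨33, 32, -28, 2, -15, -46, 36, -12, -11⟩, (.cons (nat_lit 5333997) (nat_lit 4652442) (nat_lit 14780598)
 (nat_lit 1) (.cons (nat_lit 1688592) (nat_lit 336189) (nat_lit 1329574) (nat_lit 1) .nil)), (nat_lit 21),
 (nat_lit 0), (nat_lit 0), (nat_lit 0), (34, 19, 41), [4136711, 1086484], 0⟩]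

/-- Moves. -/
noncomputable def t4_4 : List Mv := [
  mz,
  ⟨⟨33, -32, -5, 2, 15, 44, 36, 12, -25⟩, (.cons (nat_lit 7626467) (nat_lit 8963895) (nat_lit 18699775)
 (nat_lit 1) (.cons (nat_lit 423829) (nat_lit 546400) (nat_lit 1215859) (nat_lit 1) .nil)), (nat_lit 21),
 (nat_lit 0), (nat_lit 0), (nat_lit 0), (9, 24, 2), [2749735, 579449], 0⟩,
  mz,
  mz,
  ⟨⟨15, -44, 1, 20, 13, 30, 34, -8, -35⟩, (.cons (nat_lit 6861102) (nat_lit 17540758) (nat_lit 11359671)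
 (nat_lit 1) (.cons (nat_lit 1772013) (nat_lit 763133) (nat_lit 859283) (nat_lit 1) .nil)), (nat_lit 17),
 (nat_lit 0), (nat_lit 0), (nat_lit 0), (2, 17, 16), [3531991, 4997], 0⟩,
  ⟨⟨3, 44, 17, 2, 15, -46, 36, 12, -11⟩, (.cons (nat_lit 9639770) (nat_lit 7616222) (nat_lit 18336328) (nat_lit
 1) (.cons (nat_lit 867119) (nat_lit 479742) (nat_lit 644475) (nat_lit 1) .nil)), (nat_lit 22), (nat_lit 0),
 (nat_lit 0), (nat_lit 0), (33, 22, 9), [12240014, 1665152], 0⟩,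
  ⟨⟨39, 16, -43, 20, -37, 0, 2, -8, -43⟩, (.cons (nat_lit 16054534) (nat_lit 12264954) (nat_lit 821077)
 (nat_lit 1) (.cons (nat_lit 35426) (nat_lit 582553) (nat_lit 1144024) (nat_lit 1) .nil)), (nat_lit 8),
 (nat_lit 0), (nat_lit 0), (nat_lit 0), (35, 40, 4), [911583, 1614370], 0⟩,
  ⟨⟨33, 8, -53, -20, -27, -20, 30, -24, -13⟩, (.cons (nat_lit 381333) (nat_lit 1227761) (nat_lit 5680006)
 (nat_lit 1) (.cons (nat_lit 1817134) (nat_lit 58883) (nat_lit 928041) (nat_lit 1) .nil)), (nat_lit 36),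
 (nat_lit 0), (nat_lit 0), (nat_lit 0), (32, 21, 33), [1195506, 1035437], 0⟩,
  ⟨⟨37, 24, -37, 20, -37, -20, -2, 8, -41⟩, (.cons (nat_lit 15217434) (nat_lit 19422746) (nat_lit 1809507)
 (nat_lit 1) (.cons (nat_lit 443173) (nat_lit 1413725) (nat_lit 1233890) (nat_lit 1) .nil)), (nat_lit 6),
 (nat_lit 0), (nat_lit 0), (nat_lit 0), (34, 30, 40), [2383746, 629742], 0⟩,
  ⟨⟨47, 0, -20, 0, -43, 0, 18, 0, -47⟩, (.cons (nat_lit 19487170) (nat_lit 12239860) (nat_lit 12194306)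
 (nat_lit 1) (.cons (nat_lit 1874160) (nat_lit 431581) (nat_lit 519689) (nat_lit 1) .nil)), (nat_lit 9),
 (nat_lit 0), (nat_lit 0), (nat_lit 0), (34, 0, 24), [2629558, 402162], 0⟩,
  ⟨⟨21, -20, 31, 38, 15, -34, 12, -36, -13⟩, (.cons (nat_lit 6744479) (nat_lit 16083729) (nat_lit 9245059)
 (nat_lit 1) (.cons (nat_lit 1577832) (nat_lit 295961) (nat_lit 1566443) (nat_lit 1) .nil)), (nat_lit 38),
 (nat_lit 0), (nat_lit 0), (nat_lit 0), (8, 37, 23), [10719320, 344758], 0⟩,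
  mz,
  ⟨⟨-15, 44, 16, 20, 13, -50, -34, 8, -1⟩, (.cons (nat_lit 3918121) (nat_lit 2133536) (nat_lit 5568120)
 (nat_lit 1) (.cons (nat_lit 1233322) (nat_lit 420228) (nat_lit 1044237) (nat_lit 1) .nil)), (nat_lit 25),
 (nat_lit 0), (nat_lit 0), (nat_lit 0), (28, 20, 9), [17791749, 537806], 0⟩,
  ⟨⟨33, 8, 20, 20, 27, -40, 30, -24, -17⟩, (.cons (nat_lit 19487170) (nat_lit 8689765) (nat_lit 13750578)
 (nat_lit 1) (.cons (nat_lit 1874160) (nat_lit 1523104) (nat_lit 926388) (nat_lit 1) .nil)), (nat_lit 13),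
 (nat_lit 0), (nat_lit 0), (nat_lit 0), (4, 35, 31), [14549954, 679138], 0⟩,
  mz,
  mz,
  mz,
  ⟨⟨9, -4, -56, 40, -13, -10, 14, 32, -25⟩, (.cons (nat_lit 13919406) (nat_lit 9225702) (nat_lit 3668255)
 (nat_lit 1) (.cons (nat_lit 992744) (nat_lit 1778333) (nat_lit 784164) (nat_lit 1) .nil)), (nat_lit 12),
 (nat_lit 0), (nat_lit 0), (nat_lit 0), (19, 8, 20), [10141264, 837789], 0⟩,
  ⟨⟨-5, -36, 36, 40, -13, -30, -14, -32, -11⟩, (.cons (nat_lit 17697242) (nat_lit 8420343) (nat_lit 1789928)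
 (nat_lit 1) (.cons (nat_lit 1352991) (nat_lit 733762) (nat_lit 1243279) (nat_lit 1) .nil)), (nat_lit 4),
 (nat_lit 0), (nat_lit 0), (nat_lit 0), (11, 41, 5), [298027, 173834], 0⟩,
  mz,
  mz,
  ⟨⟨21, 20, 31, 38, -15, -34, 12, 36, -13⟩, (.cons (nat_lit 1782522) (nat_lit 18540658) (nat_lit 5840325)
 (nat_lit 1) (.cons (nat_lit 586665) (nat_lit 878360) (nat_lit 606636) (nat_lit 1) .nil)), (nat_lit 38),
 (nat_lit 0), (nat_lit 0), (nat_lit 0), (12, 34, 13), [1483758, 1251080], 0⟩,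
  ⟨⟨-21, 20, 52, 38, 15, -4, -12, 36, -1⟩, (.cons (nat_lit 8636741) (nat_lit 9798879) (nat_lit 1920023)
 (nat_lit 1) (.cons (nat_lit 1251504) (nat_lit 1865189) (nat_lit 1) (nat_lit 6771) .nil)), (nat_lit 1),
 (nat_lit 0), (nat_lit 0), (nat_lit 0), (12, 9, 13), [8987559, 1399966], 0⟩,
  mz,
  mz,
  ⟨⟨9, 4, -56, 40, 13, -10, 14, -32, -25⟩, (.cons (nat_lit 14098309) (nat_lit 17109058) (nat_lit 10527257)
 (nat_lit 1) (.cons (nat_lit 510786) (nat_lit 1080122) (nat_lit 831996) (nat_lit 1) .nil)), (nat_lit 12),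
 (nat_lit 0), (nat_lit 0), (nat_lit 0), (37, 2, 5), [18652867, 1718402], 0⟩,
  ⟨⟨-9, -4, -47, 40, 13, -30, -14, 32, -11⟩, (.cons (nat_lit 14750373) (nat_lit 6892135) (nat_lit 14311003)
 (nat_lit 1) (.cons (nat_lit 675823) (nat_lit 537750) (nat_lit 29139) (nat_lit 1) .nil)), (nat_lit 39),
 (nat_lit 0), (nat_lit 0), (nat_lit 0), (19, 35, 20), [4113448, 316022], 0⟩,
  mz,
  mz,
  mz,
  ⟨⟨33, -8, -53, -20, 27, -20, 30, 24, -13⟩, (.cons (nat_lit 592893) (nat_lit 3049783) (nat_lit 5995253)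
 (nat_lit 1) (.cons (nat_lit 208042) (nat_lit 92848) (nat_lit 1235709) (nat_lit 1) .nil)), (nat_lit 36),
 (nat_lit 0), (nat_lit 0), (nat_lit 0), (39, 35, 12), [6137545, 426976], 0⟩,
  ⟨⟨19, -36, -36, -20, 13, -30, 34, 8, -35⟩, (.cons (nat_lit 6758725) (nat_lit 7431180) (nat_lit 9371416)
 (nat_lit 1) (.cons (nat_lit 240459) (nat_lit 560312) (nat_lit 1408041) (nat_lit 1) .nil)), (nat_lit 18),
 (nat_lit 0), (nat_lit 0), (nat_lit 0), (24, 20, 9), [9598574, 1524212], 0⟩,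
  mz,
  ⟨⟨-21, -20, 52, -38, 15, 4, -12, -36, -1⟩, (.cons (nat_lit 3542581) (nat_lit 18297737) (nat_lit 16297066)
 (nat_lit 1) (.cons (nat_lit 1276782) (nat_lit 861298) (nat_lit 1769041) (nat_lit 1) .nil)), (nat_lit 38),
 (nat_lit 0), (nat_lit 0), (nat_lit 0), (8, 37, 23), [6119095, 1302532], 0⟩,
  ⟨⟨-47, 0, 27, 0, -43, 0, -18, 0, -29⟩, (.cons (nat_lit 10348082) (nat_lit 1120183) (nat_lit 8018905) (nat_lit
 1) (.cons (nat_lit 471030) (nat_lit 1863091) (nat_lit 659602) (nat_lit 1) .nil)), (nat_lit 9), (nat_lit 0),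
 (nat_lit 0), (nat_lit 0), (34, 0, 24), [8819387, 1405791], 0⟩,
  ⟨⟨-37, 24, 0, -20, -37, 0, 2, 8, -43⟩, (.cons (nat_lit 6333155) (nat_lit 11083023) (nat_lit 12642276)
 (nat_lit 1) (.cons (nat_lit 1819621) (nat_lit 45863) (nat_lit 910149) (nat_lit 1) .nil)), (nat_lit 6),
 (nat_lit 0), (nat_lit 0), (nat_lit 0), (34, 30, 40), [19278924, 1403185], 0⟩,
  ⟨⟨-3, 32, -37, 20, -27, -40, 30, 24, -17⟩, (.cons (nat_lit 4647921) (nat_lit 12605967) (nat_lit 3493556)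
 (nat_lit 1) (.cons (nat_lit 961782) (nat_lit 488192) (nat_lit 1531424) (nat_lit 1) .nil)), (nat_lit 30),
 (nat_lit 0), (nat_lit 0), (nat_lit 0), (42, 21, 10), [4764433, 520321], 0⟩,
  ⟨⟨-39, 16, -4, 20, 37, -20, -2, -8, -41⟩, (.cons (nat_lit 19487170) (nat_lit 14539485) (nat_lit 9140534)
 (nat_lit 1) (.cons (nat_lit 1874160) (nat_lit 1764313) (nat_lit 405930) (nat_lit 1) .nil)), (nat_lit 37),
 (nat_lit 0), (nat_lit 0), (nat_lit 0), (35, 3, 4), [12562084, 1595529], 0⟩,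
  ⟨⟨3, -44, -20, -2, 15, -44, 36, -12, -25⟩, (.cons (nat_lit 2806336) (nat_lit 13420405) (nat_lit 2712025)
 (nat_lit 1) (.cons (nat_lit 1789460) (nat_lit 1084973) (nat_lit 369791) (nat_lit 1) .nil)), (nat_lit 33),
 (nat_lit 0), (nat_lit 0), (nat_lit 0), (10, 22, 34), [4175535, 1476127], 0⟩,
  ⟨⟨-19, 36, -17, -20, 13, 50, -34, -8, -1⟩, (.cons (nat_lit 11191165) (nat_lit 1804736) (nat_lit 1) (nat_lit
 717816) (.cons (nat_lit 954672) (nat_lit 935603) (nat_lit 1858476) (nat_lit 1) .nil)), (nat_lit 26), (nat_lit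
 0), (nat_lit 0), (nat_lit 0), (14, 17, 16), [4473976, 571337], 0⟩,
  mz,
  mz,
  ⟨⟨33, 32, -28, 2, -15, -46, 36, -12, -11⟩, (.cons (nat_lit 5333997) (nat_lit 4652442) (nat_lit 14780598)
 (nat_lit 1) (.cons (nat_lit 1688592) (nat_lit 336189) (nat_lit 1329574) (nat_lit 1) .nil)), (nat_lit 21),
 (nat_lit 0), (nat_lit 0), (nat_lit 0), (34, 19, 41), [4136711, 1086484], 0⟩]

/-- All the moves. -/
noncomputable def tabs : List (List (List Mv)) := [[[], t0_1, [], [], t0_4], [[], t1_1, [], [], t1_4], [], [], [[], t4_1, [], [], t4_4]]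

/-- Subtrie. -/
noncomputable def T1 : Tr := (.ev (nat_lit 20) (nat_lit 4563402753312) (.nd (nat_lit 33) (.br (nat_lit 19) (.br
 (nat_lit 11) (.br (nat_lit 7) (.br (nat_lit 4) (.ch (nat_lit 1) (.ev (nat_lit 52) (nat_lit 550829817856) (.ev
 (nat_lit 64) (nat_lit 378064220882) .dd))) (.br (nat_lit 5) (.ch (nat_lit 4) (.ev (nat_lit 52) (nat_lit
 1074016976) (.ev (nat_lit 148) (nat_lit 549755813888) (.ev (nat_lit 180) (nat_lit 68719476736) (.ev (nat_lit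
 468) (nat_lit 274877906944) (.ev (nat_lit 576) (nat_lit 69206016) (.ev (nat_lit 816) (nat_lit 34359738368)
 (.ev (nat_lit 1264) (nat_lit 4194304) (.nd (nat_lit 1280) (.br (nat_lit 5) (.ch (nat_lit 2) (.ev (nat_lit
 1296) (nat_lit 131072) (.nd (nat_lit 1536) (.br (nat_lit 6) (.ch (nat_lit 2) (.ev (nat_lit 1552) (nat_lit
 33554432) (.ev (nat_lit 1565) (nat_lit 2) .dd))) (.ch (nat_lit 6) (.fin (nat_lit 576456903715406368)))))))
 (.br (nat_lit 9) (.ch (nat_lit 5) (.ev (nat_lit 1296) (nat_lit 33685504) (.ev (nat_lit 1309) (nat_lit 2)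
 .dd))) (.ch (nat_lit 9) (.ev (nat_lit 1296) (nat_lit 2) (.nd (nat_lit 1536) (.br (nat_lit 7) (.ch (nat_lit 5)
 (.fin (nat_lit 576460202549133877))) (.ch (nat_lit 7) (.ev (nat_lit 1552) (nat_lit 33685504)
 .dd))))))))))))))))) (.ch (nat_lit 5) (.ev (nat_lit 52) (nat_lit 653975880320) (.ev (nat_lit 212) (nat_lit 64)
 (.ev (nat_lit 244) (nat_lit 274877915136) (.ev (nat_lit 308) (nat_lit 2) (.ev (nat_lit 1216) (nat_lit 16) (.nd
 (nat_lit 1280) (.br (nat_lit 9) (.br (nat_lit 7) (.ch (nat_lit 1) (.ev (nat_lit 1296) (nat_lit 33685504) (.ev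
 (nat_lit 1348) (nat_lit 262144) (.nd (nat_lit 1536) (.br (nat_lit 7) (.br (nat_lit 3) (.ch (nat_lit 2) (.ev
 (nat_lit 1552) (nat_lit 2101248) (.ev (nat_lit 1565) (nat_lit 4194304) .dd))) (.ch (nat_lit 3) (.ev (nat_lit
 1552) (nat_lit 4194304) (.fin (nat_lit 576460202575348280))))) (.br (nat_lit 9) (.ch (nat_lit 7) (.ev (nat_lit
 1552) (nat_lit 6295552) .dd)) (.ch (nat_lit 9) (.ev (nat_lit 1552) (nat_lit 6295552) .dd)))))))) (.ch (nat_lit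
 7) (.ev (nat_lit 1296) (nat_lit 40112128) (.ev (nat_lit 1309) (nat_lit 131072) .dd)))) (.br (nat_lit 10) (.ch
 (nat_lit 9) (.ev (nat_lit 1296) (nat_lit 2363392) (.nd (nat_lit 1536) (.br (nat_lit 4) (.ch (nat_lit 2) (.ev
 (nat_lit 1552) (nat_lit 33685504) (.ev (nat_lit 1565) (nat_lit 4194304) .dd))) (.br (nat_lit 5) (.ch (nat_lit
 4) (.ev (nat_lit 1552) (nat_lit 37748736) (.ev (nat_lit 1565) (nat_lit 131072) .dd))) (.ch (nat_lit 5) (.ev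
 (nat_lit 1552) (nat_lit 4194304) (.fin (nat_lit 576462401572389451))))))))) (.ch (nat_lit 10) (.ev (nat_lit
 1296) (nat_lit 6426624) (.nd (nat_lit 1616) (.ch (nat_lit 6) (.nd (nat_lit 1649) (.br (nat_lit 10) (.ch
 (nat_lit 3) (.ev (nat_lit 1665) (nat_lit 262144) (.ev (nat_lit 1677) (nat_lit 33554432) .dd))) (.br (nat_lit
 34) (.ch (nat_lit 10) (.nd (nat_lit 1680) (.ch (nat_lit 7) (.fin (nat_lit 576742777021743808))))) (.ch
 (nat_lit 34) (.ev (nat_lit 1665) (nat_lit 262144) (.ev (nat_lit 1677) (nat_lit 33554432)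
 .dd))))))))))))))))))))) (.br (nat_lit 8) (.ch (nat_lit 7) (.ev (nat_lit 52) (nat_lit 825709564482) (.ev
 (nat_lit 116) (nat_lit 68719476736) (.ev (nat_lit 404) (nat_lit 8192) (.ev (nat_lit 592) (nat_lit 67108880)
 (.ev (nat_lit 928) (nat_lit 34359738368) (.ev (nat_lit 1024) (nat_lit 33554432) (.nd (nat_lit 1280) (.br
 (nat_lit 5) (.br (nat_lit 2) (.ch (nat_lit 0) (.ev (nat_lit 1296) (nat_lit 128) (.ev (nat_lit 1332) (nat_lit
 4194304) (.nd (nat_lit 1536) (.br (nat_lit 3) (.ch (nat_lit 1) (.ev (nat_lit 1552) (nat_lit 393216) .dd)) (.br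
 (nat_lit 4) (.ch (nat_lit 3) (.ev (nat_lit 1552) (nat_lit 262144) (.ev (nat_lit 1565) (nat_lit 131072) .dd)))
 (.ch (nat_lit 4) (.fin (nat_lit 576461302034547272))))))))) (.ch (nat_lit 2) (.ev (nat_lit 1296) (nat_lit
 4325376) (.ev (nat_lit 1332) (nat_lit 262144) (.ev (nat_lit 1341) (nat_lit 128) .dd))))) (.br (nat_lit 7) (.ch
 (nat_lit 5) (.ev (nat_lit 1296) (nat_lit 4325376) (.ev (nat_lit 1332) (nat_lit 128) (.ev (nat_lit 1341)
 (nat_lit 262144) .dd)))) (.br (nat_lit 9) (.ch (nat_lit 7) (.ev (nat_lit 1296) (nat_lit 262144) (.ev (nat_lit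
 1332) (nat_lit 131072) (.nd (nat_lit 1536) (.br (nat_lit 2) (.ch (nat_lit 0) (.ev (nat_lit 1552) (nat_lit 128)
 (.ev (nat_lit 1565) (nat_lit 4194304) .dd))) (.br (nat_lit 10) (.ch (nat_lit 2) (.ev (nat_lit 1552) (nat_lit
 4194432) .dd)) (.ch (nat_lit 10) (.fin (nat_lit 576448107926471248))))))))) (.ch (nat_lit 9) (.ev (nat_lit
 1296) (nat_lit 262272) (.ev (nat_lit 1332) (nat_lit 131072) (.ev (nat_lit 1341) (nat_lit 4194304)
 .dd))))))))))))))) (.br (nat_lit 10) (.ch (nat_lit 8) (.ev (nat_lit 52) (nat_lit 34366427152) (.ev (nat_lit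
 180) (nat_lit 64) (.ev (nat_lit 244) (nat_lit 2) (.ev (nat_lit 340) (nat_lit 33554560) (.ev (nat_lit 436)
 (nat_lit 512) (.ev (nat_lit 500) (nat_lit 8192) (.nd (nat_lit 1280) (.br (nat_lit 5) (.br (nat_lit 1) (.ch
 (nat_lit 0) (.ev (nat_lit 1296) (nat_lit 274877906944) (.ev (nat_lit 1348) (nat_lit 67108864) (.ev (nat_lit
 1428) (nat_lit 1073741824) (.nd (nat_lit 1536) (.br (nat_lit 3) (.br (nat_lit 2) (.ch (nat_lit 1) (.ev
 (nat_lit 1552) (nat_lit 618475290624) .dd)) (.ch (nat_lit 2) (.ev (nat_lit 1552) (nat_lit 68719476736) (.ev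
 (nat_lit 1565) (nat_lit 549755813888) .dd)))) (.br (nat_lit 4) (.ch (nat_lit 3) (.ev (nat_lit 1552) (nat_lit
 549755813888) (.ev (nat_lit 1565) (nat_lit 68719476736) .dd))) (.br (nat_lit 7) (.ch (nat_lit 4) (.ev (nat_lit
 1552) (nat_lit 618475290624) .dd)) (.ch (nat_lit 7) (.ev (nat_lit 1552) (nat_lit 618475290624) .dd))))))))))
 (.br (nat_lit 2) (.ch (nat_lit 1) (.ev (nat_lit 1296) (nat_lit 550829555712) (.nd (nat_lit 1536) (.br (nat_lit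
 7) (.br (nat_lit 5) (.ch (nat_lit 2) (.ev (nat_lit 1552) (nat_lit 343664492544) .dd)) (.ch (nat_lit 5) (.ev
 (nat_lit 1552) (nat_lit 68719476736) (.ev (nat_lit 1584) (nat_lit 274877906944) (.ev (nat_lit 1597) (nat_lit
 67108864) .dd))))) (.br (nat_lit 9) (.ch (nat_lit 7) (.ev (nat_lit 1552) (nat_lit 343664492544) .dd)) (.ch
 (nat_lit 9) (.ev (nat_lit 1552) (nat_lit 67108864) (.fin (nat_lit 576482192765960775))))))))) (.ch (nat_lit 2)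
 (.ev (nat_lit 1296) (nat_lit 344738234368) (.ev (nat_lit 1309) (nat_lit 549755813888) .dd))))) (.br (nat_lit
 9) (.ch (nat_lit 5) (.ev (nat_lit 1296) (nat_lit 618542399488) (.nd (nat_lit 1536) (.br (nat_lit 5) (.ch
 (nat_lit 3) (.ev (nat_lit 1552) (nat_lit 274877906944) (.ev (nat_lit 1565) (nat_lit 1073741824) .dd))) (.ch
 (nat_lit 5) (.fin (nat_lit 576470098152735306))))))) (.br (nat_lit 10) (.ch (nat_lit 9) (.ev (nat_lit 1296)
 (nat_lit 894494048256) .dd)) (.ch (nat_lit 10) (.ev (nat_lit 1296) (nat_lit 894494048256) .dd)))))))))))))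
 (.ch (nat_lit 10) (.ev (nat_lit 52) (nat_lit 858993463938) (.ev (nat_lit 84) (nat_lit 68719476800) (.ev
 (nat_lit 180) (nat_lit 67108864) (.ev (nat_lit 244) (nat_lit 1073741824) (.ev (nat_lit 372) (nat_lit 2097152)
 (.ev (nat_lit 404) (nat_lit 131072) (.ev (nat_lit 608) (nat_lit 33554448) (.nd (nat_lit 1280) (.br (nat_lit 5)
 (.ch (nat_lit 1) (.ev (nat_lit 1296) (nat_lit 8192) (.nd (nat_lit 1536) (.br (nat_lit 3) (.ch (nat_lit 2) (.ev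
 (nat_lit 1552) (nat_lit 262144) (.ev (nat_lit 1565) (nat_lit 4194304) .dd))) (.br (nat_lit 10) (.ch (nat_lit
 3) (.ev (nat_lit 1552) (nat_lit 4194304) (.ev (nat_lit 1565) (nat_lit 262144) .dd))) (.ch (nat_lit 10) (.ev
 (nat_lit 1552) (nat_lit 262144) (.ev (nat_lit 1565) (nat_lit 4194304) .dd)))))))) (.br (nat_lit 9) (.ch
 (nat_lit 5) (.ev (nat_lit 1296) (nat_lit 4194304) (.nd (nat_lit 1536) (.br (nat_lit 5) (.ch (nat_lit 3) (.ev
 (nat_lit 1552) (nat_lit 8192) (.ev (nat_lit 1565) (nat_lit 262144) .dd))) (.br (nat_lit 9) (.ch (nat_lit 5)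
 (.ev (nat_lit 1552) (nat_lit 262144) (.ev (nat_lit 1565) (nat_lit 8192) .dd))) (.ch (nat_lit 9) (.fin (nat_lit
 576473396693910063)))))))) (.ch (nat_lit 9) (.ev (nat_lit 1296) (nat_lit 262144) (.nd (nat_lit 1536) (.br
 (nat_lit 3) (.ch (nat_lit 2) (.ev (nat_lit 1552) (nat_lit 8192) (.ev (nat_lit 1565) (nat_lit 4194304) .dd)))
 (.br (nat_lit 10) (.ch (nat_lit 3) (.fin (nat_lit 576465700116709950))) (.ch (nat_lit 10) (.ev (nat_lit 1552)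
 (nat_lit 4194304) (.ev (nat_lit 1565) (nat_lit 8192) .dd)))))))))))))))))))))) (.br (nat_lit 15) (.br (nat_lit
 12) (.ch (nat_lit 11) (.ev (nat_lit 52) (nat_lit 69210240) (.ev (nat_lit 340) (nat_lit 16) (.ev (nat_lit 436)
 (nat_lit 131072) (.ev (nat_lit 912) (nat_lit 549755813952) (.ev (nat_lit 1072) (nat_lit 34359738368) (.ev
 (nat_lit 1152) (nat_lit 33554432) (.nd (nat_lit 1280) (.br (nat_lit 7) (.br (nat_lit 5) (.ch (nat_lit 1) (.ev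
 (nat_lit 1296) (nat_lit 1074012674) (.ev (nat_lit 1380) (nat_lit 4194304) (.nd (nat_lit 1536) (.br (nat_lit 9)
 (.ch (nat_lit 5) (.ev (nat_lit 1552) (nat_lit 343597383680) .dd)) (.br (nat_lit 10) (.ch (nat_lit 9) (.fin
 (nat_lit 576482192765960775))) (.ch (nat_lit 10) (.ev (nat_lit 1552) (nat_lit 343597383680) .dd)))))))) (.ch
 (nat_lit 5) (.ev (nat_lit 1296) (nat_lit 344675320320) (.nd (nat_lit 1536) (.br (nat_lit 8) (.ch (nat_lit 2)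
 (.ev (nat_lit 1552) (nat_lit 270338) .dd)) (.br (nat_lit 9) (.ch (nat_lit 8) (.ev (nat_lit 1552) (nat_lit
 270336) (.ev (nat_lit 1565) (nat_lit 2) .dd))) (.ch (nat_lit 9) (.ev (nat_lit 1552) (nat_lit 2) (.fin (nat_lit
 576473396693910063)))))))))) (.br (nat_lit 10) (.ch (nat_lit 7) (.ev (nat_lit 1296) (nat_lit 344671395842)
 (.nd (nat_lit 1616) (.ch (nat_lit 1) (.nd (nat_lit 1649) (.ch (nat_lit 19) (.nd (nat_lit 1680) (.ch (nat_lit
 4) (.fin (nat_lit 576500884453147208)))))))))) (.ch (nat_lit 10) (.ev (nat_lit 1296) (nat_lit 343601848832)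
 (.nd (nat_lit 1536) (.br (nat_lit 10) (.ch (nat_lit 0) (.ev (nat_lit 1552) (nat_lit 2) (.ev (nat_lit 1565)
 (nat_lit 1073741824) .dd))) (.ch (nat_lit 10) (.nd (nat_lit 1617) (.br (nat_lit 25) (.ch (nat_lit 5) (.ev
 (nat_lit 1633) (nat_lit 1073741824) (.ev (nat_lit 1645) (nat_lit 2) .dd))) (.br (nat_lit 33) (.ch (nat_lit 25)
 (.nd (nat_lit 1648) (.ch (nat_lit 3) (.fin (nat_lit 576487690345071140))))) (.ch (nat_lit 33) (.ev (nat_lit
 1633) (nat_lit 1073741826) .dd)))))))))))))))))))) (.br (nat_lit 13) (.ch (nat_lit 12) (.ev (nat_lit 52)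
 (nat_lit 824701231106) (.ev (nat_lit 160) (nat_lit 104192807632) .dd))) (.ch (nat_lit 13) (.ev (nat_lit 52)
 (nat_lit 825810354898) (.ev (nat_lit 116) (nat_lit 4096) (.ev (nat_lit 276) (nat_lit 8192) (.ev (nat_lit 512)
 (nat_lit 103083671552) .dd))))))) (.br (nat_lit 17) (.br (nat_lit 16) (.ch (nat_lit 15) (.ev (nat_lit 52)
 (nat_lit 68759466064) (.ev (nat_lit 116) (nat_lit 67108864) (.ev (nat_lit 180) (nat_lit 128) (.ev (nat_lit
 500) (nat_lit 1073741824) (.ev (nat_lit 656) (nat_lit 549755813888) (.ev (nat_lit 864) (nat_lit 262144) (.ev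
 (nat_lit 1120) (nat_lit 34359738368) (.nd (nat_lit 1280) (.br (nat_lit 5) (.br (nat_lit 1) (.ch (nat_lit 0)
 (.ev (nat_lit 1296) (nat_lit 514) (.ev (nat_lit 1309) (nat_lit 274877906944) .dd))) (.ch (nat_lit 1) (.ev
 (nat_lit 1296) (nat_lit 274877907458) .dd))) (.br (nat_lit 7) (.ch (nat_lit 5) (.ev (nat_lit 1296) (nat_lit
 514) (.ev (nat_lit 1309) (nat_lit 274877906944) .dd))) (.br (nat_lit 10) (.ch (nat_lit 7) (.ev (nat_lit 1296)
 (nat_lit 274877906946) (.ev (nat_lit 1309) (nat_lit 512) .dd))) (.ch (nat_lit 10) (.nd (nat_lit 1536) (.br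
 (nat_lit 5) (.ch (nat_lit 0) (.ev (nat_lit 1552) (nat_lit 514) (.ev (nat_lit 1565) (nat_lit 274877906944)
 .dd))) (.br (nat_lit 6) (.ch (nat_lit 5) (.ev (nat_lit 1552) (nat_lit 512) (.fin (nat_lit
 576460202549133910)))) (.ch (nat_lit 6) (.ev (nat_lit 1552) (nat_lit 274877906946) (.ev (nat_lit 1565)
 (nat_lit 512) .dd))))))))))))))))))) (.ch (nat_lit 16) (.ev (nat_lit 52) (nat_lit 68719620306) (.ev (nat_lit
 84) (nat_lit 67108864) (.ev (nat_lit 180) (nat_lit 34359738368) (.ev (nat_lit 212) (nat_lit 549755813888) (.ev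
 (nat_lit 308) (nat_lit 2097152) (.ev (nat_lit 404) (nat_lit 4194304) (.ev (nat_lit 564) (nat_lit 512) (.nd
 (nat_lit 1280) (.br (nat_lit 7) (.br (nat_lit 2) (.ch (nat_lit 1) (.ev (nat_lit 1296) (nat_lit 1107558400)
 (.ev (nat_lit 1309) (nat_lit 274877906944) .dd))) (.ch (nat_lit 2) (.ev (nat_lit 1296) (nat_lit 1074003968)
 (.ev (nat_lit 1332) (nat_lit 274877906944) (.ev (nat_lit 1341) (nat_lit 33554432) .dd))))) (.br (nat_lit 9)
 (.ch (nat_lit 7) (.ev (nat_lit 1296) (nat_lit 275985465344) .dd)) (.br (nat_lit 10) (.ch (nat_lit 9) (.ev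
 (nat_lit 1296) (nat_lit 275951910912) (.ev (nat_lit 1309) (nat_lit 33554432) .dd))) (.ch (nat_lit 10) (.nd
 (nat_lit 1536) (.br (nat_lit 6) (.ch (nat_lit 5) (.ev (nat_lit 1552) (nat_lit 33816576) (.fin (nat_lit
 576500884767720088)))) (.ch (nat_lit 6) (.ev (nat_lit 1552) (nat_lit 275951648768) (.fin (nat_lit
 576742777021743808)))))))))))))))))))) (.br (nat_lit 18) (.ch (nat_lit 17) (.ev (nat_lit 52) (nat_lit
 893424902160) (.ev (nat_lit 148) (nat_lit 33554432) (.ev (nat_lit 532) (nat_lit 64) (.ev (nat_lit 672)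
 (nat_lit 34359738368) (.ev (nat_lit 1248) (nat_lit 128) (.nd (nat_lit 1280) (.br (nat_lit 2) (.br (nat_lit 1)
 (.ch (nat_lit 0) (.ev (nat_lit 1296) (nat_lit 1075843586) .dd)) (.ch (nat_lit 1) (.ev (nat_lit 1296) (nat_lit
 1073746434) (.ev (nat_lit 1309) (nat_lit 2097152) .dd)))) (.br (nat_lit 5) (.ch (nat_lit 2) (.ev (nat_lit
 1296) (nat_lit 1073741826) (.ev (nat_lit 1380) (nat_lit 2097152) (.nd (nat_lit 1616) (.ch (nat_lit 2) (.nd
 (nat_lit 1649) (.br (nat_lit 30) (.ch (nat_lit 27) (.ev (nat_lit 1665) (nat_lit 4608) .dd)) (.ch (nat_lit 30)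
 (.nd (nat_lit 1680) (.br (nat_lit 10) (.ch (nat_lit 4) (.ev (nat_lit 1696) (nat_lit 4608) .dd)) (.ch (nat_lit
 10) (.fin (nat_lit 576566855119356788))))))))))))) (.br (nat_lit 10) (.ch (nat_lit 5) (.ev (nat_lit 1296)
 (nat_lit 2101760) (.ev (nat_lit 1332) (nat_lit 2) (.ev (nat_lit 1341) (nat_lit 1073741824) .dd)))) (.ch
 (nat_lit 10) (.ev (nat_lit 1296) (nat_lit 2101248) (.ev (nat_lit 1446) (nat_lit 1073741824) (.nd (nat_lit
 1536) (.br (nat_lit 2) (.ch (nat_lit 0) (.ev (nat_lit 1552) (nat_lit 514) .dd)) (.br (nat_lit 5) (.ch (nat_lit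
 2) (.fin (nat_lit 576471197667508802))) (.ch (nat_lit 5) (.ev (nat_lit 1552) (nat_lit 512) (.ev (nat_lit 1565)
 (nat_lit 2) .dd))))))))))))))))))) (.ch (nat_lit 18) (.ev (nat_lit 52) (nat_lit 343698313218) (.ev (nat_lit
 116) (nat_lit 64) (.ev (nat_lit 180) (nat_lit 549755813888) (.ev (nat_lit 244) (nat_lit 131072) (.ev (nat_lit
 276) (nat_lit 2097152) (.ev (nat_lit 468) (nat_lit 1073741824) (.ev (nat_lit 944) (nat_lit 16) (.ev (nat_lit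
 1184) (nat_lit 34359738368) (.nd (nat_lit 1280) (.br (nat_lit 5) (.br (nat_lit 2) (.ch (nat_lit 0) (.ev
 (nat_lit 1296) (nat_lit 8832) (.ev (nat_lit 1309) (nat_lit 4194304) .dd))) (.ch (nat_lit 2) (.ev (nat_lit
 1296) (nat_lit 4194432) (.fin (nat_lit 576471197644440130))))) (.br (nat_lit 7) (.ch (nat_lit 5) (.ev (nat_lit
 1296) (nat_lit 4194944) (.ev (nat_lit 1309) (nat_lit 8192) .dd))) (.br (nat_lit 9) (.ch (nat_lit 7) (.ev
 (nat_lit 1296) (nat_lit 8704) (.fin (nat_lit 576474496195052080)))) (.ch (nat_lit 9) (.ev (nat_lit 1296)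
 (nat_lit 640) (.nd (nat_lit 1536) (.br (nat_lit 3) (.ch (nat_lit 2) (.ev (nat_lit 1552) (nat_lit 4194304) (.ev
 (nat_lit 1565) (nat_lit 8192) .dd))) (.br (nat_lit 4) (.ch (nat_lit 3) (.fin (nat_lit 576465700116709950)))
 (.ch (nat_lit 4) (.ev (nat_lit 1552) (nat_lit 8192) (.ev (nat_lit 1565) (nat_lit 4194304)
 .dd))))))))))))))))))))))))) (.br (nat_lit 26) (.br (nat_lit 22) (.br (nat_lit 20) (.ch (nat_lit 19) (.ev
 (nat_lit 52) (nat_lit 310347436674) (.ev (nat_lit 320) (nat_lit 618546602064) .dd))) (.br (nat_lit 21) (.ch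
 (nat_lit 20) (.ev (nat_lit 52) (nat_lit 1174536786) (.ev (nat_lit 84) (nat_lit 34359738368) (.ev (nat_lit 148)
 (nat_lit 4096) (.ev (nat_lit 180) (nat_lit 262144) (.ev (nat_lit 212) (nat_lit 128) (.ev (nat_lit 308)
 (nat_lit 274877906944) (.ev (nat_lit 436) (nat_lit 2097152) (.nd (nat_lit 1280) (.br (nat_lit 2) (.br (nat_lit
 1) (.ch (nat_lit 0) (.ev (nat_lit 1296) (nat_lit 4202496) (.nd (nat_lit 1536) (.br (nat_lit 7) (.ch (nat_lit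
 3) (.ev (nat_lit 1552) (nat_lit 549755813888) (.ev (nat_lit 1565) (nat_lit 68719476736) .dd))) (.br (nat_lit
 8) (.ch (nat_lit 7) (.ev (nat_lit 1552) (nat_lit 618475290624) .dd)) (.ch (nat_lit 8) (.fin (nat_lit
 576237001568109148)))))))) (.ch (nat_lit 1) (.ev (nat_lit 1296) (nat_lit 549760016384) (.ev (nat_lit 1309)
 (nat_lit 68719476736) .dd)))) (.br (nat_lit 5) (.ch (nat_lit 2) (.ev (nat_lit 1296) (nat_lit 618475290624)
 (.nd (nat_lit 1536) (.br (nat_lit 6) (.ch (nat_lit 2) (.ev (nat_lit 1552) (nat_lit 4194304) (.ev (nat_lit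
 1565) (nat_lit 8192) .dd))) (.ch (nat_lit 6) (.fin (nat_lit 576575651380151140))))))) (.br (nat_lit 10) (.ch
 (nat_lit 5) (.ev (nat_lit 1296) (nat_lit 618479484928) (.ev (nat_lit 1309) (nat_lit 8192) .dd))) (.ch (nat_lit
 10) (.ev (nat_lit 1296) (nat_lit 618479493120) .dd)))))))))))))) (.ch (nat_lit 21) (.ev (nat_lit 52) (nat_lit
 550903218368) (.ev (nat_lit 192) (nat_lit 377990820370) .dd))))) (.br (nat_lit 24) (.ch (nat_lit 22) (.ev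
 (nat_lit 52) (nat_lit 68824608770) (.ev (nat_lit 116) (nat_lit 128) (.ev (nat_lit 340) (nat_lit 34359738368)
 (.ev (nat_lit 500) (nat_lit 274877906944) (.ev (nat_lit 688) (nat_lit 1073741824) (.ev (nat_lit 1200) (nat_lit
 64) (.nd (nat_lit 1280) (.br (nat_lit 2) (.br (nat_lit 1) (.ch (nat_lit 0) (.ev (nat_lit 1296) (nat_lit
 549758042640) .dd)) (.ch (nat_lit 1) (.ev (nat_lit 1296) (nat_lit 549755945472) (.ev (nat_lit 1332) (nat_lit
 2097152) (.ev (nat_lit 1341) (nat_lit 16) .dd))))) (.br (nat_lit 7) (.ch (nat_lit 2) (.ev (nat_lit 1296)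
 (nat_lit 131584) (.nd (nat_lit 1536) (.br (nat_lit 2) (.ch (nat_lit 1) (.ev (nat_lit 1552) (nat_lit
 549757911056) .dd)) (.br (nat_lit 8) (.ch (nat_lit 2) (.ev (nat_lit 1552) (nat_lit 549755813888) (.ev (nat_lit
 1604) (nat_lit 16) (.ev (nat_lit 1613) (nat_lit 2097152) .dd)))) (.ch (nat_lit 8) (.ev (nat_lit 1552) (nat_lit
 16) (.fin (nat_lit 576464600585159233))))))))) (.br (nat_lit 9) (.ch (nat_lit 7) (.ev (nat_lit 1296) (nat_lit
 2097168) (.ev (nat_lit 1604) (nat_lit 131072) (.nd (nat_lit 1616) (.ch (nat_lit 2) (.nd (nat_lit 1649) (.br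
 (nat_lit 3) (.ch (nat_lit 1) (.ev (nat_lit 1665) (nat_lit 512) (.ev (nat_lit 1677) (nat_lit 549755813888)
 .dd))) (.br (nat_lit 19) (.ch (nat_lit 3) (.nd (nat_lit 1680) (.br (nat_lit 8) (.ch (nat_lit 7) (.fin (nat_lit
 576355748886823180))) (.ch (nat_lit 8) (.ev (nat_lit 1696) (nat_lit 549755814400) .dd))))) (.ch (nat_lit 19)
 (.ev (nat_lit 1665) (nat_lit 512) (.ev (nat_lit 1677) (nat_lit 549755813888) .dd))))))))))) (.ch (nat_lit 9)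
 (.ev (nat_lit 1296) (nat_lit 549757911568) (.ev (nat_lit 1309) (nat_lit 131072) .dd)))))))))))))) (.br
 (nat_lit 25) (.ch (nat_lit 24) (.ev (nat_lit 52) (nat_lit 35507146896) (.ev (nat_lit 84) (nat_lit
 549755813888) (.ev (nat_lit 308) (nat_lit 131072) (.ev (nat_lit 404) (nat_lit 274877906944) (.ev (nat_lit 736)
 (nat_lit 66) (.ev (nat_lit 1104) (nat_lit 68719476736) (.nd (nat_lit 1280) (.br (nat_lit 7) (.br (nat_lit 2)
 (.ch (nat_lit 1) (.ev (nat_lit 1296) (nat_lit 33563136) .dd)) (.ch (nat_lit 2) (.nd (nat_lit 1536) (.br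
 (nat_lit 7) (.ch (nat_lit 2) (.ev (nat_lit 1552) (nat_lit 33554432) (.fin (nat_lit 576451406477083198)))) (.br
 (nat_lit 10) (.ch (nat_lit 7) (.ev (nat_lit 1552) (nat_lit 8704) (.ev (nat_lit 1565) (nat_lit 33554432) .dd)))
 (.ch (nat_lit 10) (.ev (nat_lit 1552) (nat_lit 33562624) (.ev (nat_lit 1565) (nat_lit 512) .dd)))))))) (.br
 (nat_lit 9) (.ch (nat_lit 7) (.ev (nat_lit 1296) (nat_lit 33562624) (.ev (nat_lit 1309) (nat_lit 512) .dd)))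
 (.br (nat_lit 10) (.ch (nat_lit 9) (.ev (nat_lit 1296) (nat_lit 8704) (.ev (nat_lit 1309) (nat_lit 33554432)
 .dd))) (.ch (nat_lit 10) (.ev (nat_lit 1296) (nat_lit 33562624) (.ev (nat_lit 1309) (nat_lit 512)
 .dd)))))))))))))) (.ch (nat_lit 25) (.ev (nat_lit 52) (nat_lit 68719476752) (.ev (nat_lit 148) (nat_lit
 67108864) (.ev (nat_lit 276) (nat_lit 1073741824) (.ev (nat_lit 372) (nat_lit 274877906944) (.nd (nat_lit
 1280) (.br (nat_lit 5) (.br (nat_lit 1) (.ch (nat_lit 0) (.ev (nat_lit 1296) (nat_lit 34399597250) (.ev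
 (nat_lit 1348) (nat_lit 549755813888) (.nd (nat_lit 1536) (.br (nat_lit 4) (.ch (nat_lit 2) (.ev (nat_lit
 1552) (nat_lit 393216) .dd)) (.ch (nat_lit 4) (.fin (nat_lit 576461302086976056)))))))) (.br (nat_lit 2) (.ch
 (nat_lit 1) (.ev (nat_lit 1296) (nat_lit 584153703106) (.nd (nat_lit 1536) (.br (nat_lit 3) (.ch (nat_lit 2)
 (.ev (nat_lit 1552) (nat_lit 4096) (.ev (nat_lit 1565) (nat_lit 2097152) .dd))) (.br (nat_lit 4) (.ch (nat_lit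
 3) (.fin (nat_lit 576460202575348280))) (.ch (nat_lit 4) (.ev (nat_lit 1552) (nat_lit 2097152) (.ev (nat_lit
 1565) (nat_lit 4096) .dd)))))))) (.ch (nat_lit 2) (.ev (nat_lit 1296) (nat_lit 135680) (.ev (nat_lit 1332)
 (nat_lit 549756076032) (.ev (nat_lit 1412) (nat_lit 33554432) (.nd (nat_lit 1536) (.br (nat_lit 7) (.br
 (nat_lit 6) (.ch (nat_lit 1) (.ev (nat_lit 1552) (nat_lit 34366038210) .dd)) (.ch (nat_lit 6) (.ev (nat_lit
 1552) (nat_lit 2097282) (.nd (nat_lit 1617) (.br (nat_lit 22) (.br (nat_lit 20) (.ch (nat_lit 15) (.ev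
 (nat_lit 1633) (nat_lit 34363940928) .dd)) (.ch (nat_lit 20) (.ev (nat_lit 1633) (nat_lit 4202496) (.nd
 (nat_lit 1648) (.ch (nat_lit 9) (.fin (nat_lit 576462401572389440))))))) (.br (nat_lit 23) (.ch (nat_lit 22)
 (.ev (nat_lit 1633) (nat_lit 34363940928) .dd)) (.br (nat_lit 28) (.ch (nat_lit 23) (.ev (nat_lit 1633)
 (nat_lit 34363940928) .dd)) (.ch (nat_lit 28) (.ev (nat_lit 1633) (nat_lit 34359738432) (.nd (nat_lit 1648)
 (.ch (nat_lit 2) (.fin (nat_lit 576575651380151140))))))))))))) (.br (nat_lit 8) (.ch (nat_lit 7) (.ev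
 (nat_lit 1552) (nat_lit 34366038210) .dd)) (.br (nat_lit 9) (.ch (nat_lit 8) (.ev (nat_lit 1552) (nat_lit
 34363941058) (.ev (nat_lit 1565) (nat_lit 2097152) .dd))) (.ch (nat_lit 9) (.ev (nat_lit 1552) (nat_lit
 34366038080) (.nd (nat_lit 1617) (.br (nat_lit 23) (.ch (nat_lit 22) (.ev (nat_lit 1633) (nat_lit 2) (.ev
 (nat_lit 1645) (nat_lit 128) .dd))) (.br (nat_lit 31) (.ch (nat_lit 23) (.nd (nat_lit 1648) (.br (nat_lit 7)
 (.ch (nat_lit 2) (.ev (nat_lit 1664) (nat_lit 128) (.ev (nat_lit 1677) (nat_lit 2) .dd))) (.ch (nat_lit 7)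
 (.fin (nat_lit 576421719930520040)))))) (.ch (nat_lit 31) (.ev (nat_lit 1633) (nat_lit 2) (.ev (nat_lit 1645)
 (nat_lit 128) .dd)))))))))))))))))) (.br (nat_lit 7) (.ch (nat_lit 5) (.ev (nat_lit 1296) (nat_lit
 584155542144) (.ev (nat_lit 1312) (nat_lit 64) (.ev (nat_lit 1332) (nat_lit 262144) (.ev (nat_lit 1341)
 (nat_lit 2) .dd))))) (.br (nat_lit 9) (.ch (nat_lit 7) (.ev (nat_lit 1296) (nat_lit 36057282) (.ev (nat_lit
 1312) (nat_lit 34359738368) (.nd (nat_lit 1536) (.br (nat_lit 2) (.ch (nat_lit 1) (.ev (nat_lit 1552) (nat_lit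
 549755813888) (.fin (nat_lit 576500884453147208)))) (.ch (nat_lit 2) (.ev (nat_lit 1552) (nat_lit 4194304)
 (.fin (nat_lit 576355748886823180))))))))) (.ch (nat_lit 9) (.ev (nat_lit 1296) (nat_lit 584122245826) (.nd
 (nat_lit 1536) (.br (nat_lit 10) (.ch (nat_lit 3) (.ev (nat_lit 1552) (nat_lit 4096) (.ev (nat_lit 1565)
 (nat_lit 33554432) .dd))) (.ch (nat_lit 10) (.ev (nat_lit 1552) (nat_lit 33554432) (.ev (nat_lit 1565)
 (nat_lit 4096) .dd))))))))))))))))))) (.br (nat_lit 30) (.br (nat_lit 27) (.ch (nat_lit 26) (.ev (nat_lit 52)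
 (nat_lit 309271208464) (.ev (nat_lit 148) (nat_lit 64) (.ev (nat_lit 212) (nat_lit 262144) (.ev (nat_lit 436)
 (nat_lit 4194304) (.ev (nat_lit 500) (nat_lit 2) (.ev (nat_lit 532) (nat_lit 4096) (.ev (nat_lit 704) (nat_lit
 1073741824) (.ev (nat_lit 896) (nat_lit 67108864) (.nd (nat_lit 1280) (.br (nat_lit 2) (.br (nat_lit 1) (.ch
 (nat_lit 0) (.ev (nat_lit 1296) (nat_lit 2228352) (.nd (nat_lit 1616) (.ch (nat_lit 8) (.nd (nat_lit 1649)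
 (.br (nat_lit 26) (.ch (nat_lit 19) (.ev (nat_lit 1665) (nat_lit 549755813888) (.ev (nat_lit 1677) (nat_lit
 68719476736) .dd))) (.br (nat_lit 28) (.ch (nat_lit 26) (.ev (nat_lit 1665) (nat_lit 549755813888) (.ev
 (nat_lit 1677) (nat_lit 68719476736) .dd))) (.ch (nat_lit 28) (.nd (nat_lit 1680) (.br (nat_lit 9) (.ch
 (nat_lit 4) (.ev (nat_lit 1696) (nat_lit 618475290624) .dd)) (.ch (nat_lit 9) (.fin (nat_lit
 576237001568109148))))))))))))) (.ch (nat_lit 1) (.ev (nat_lit 1296) (nat_lit 618477518976) .dd))) (.br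
 (nat_lit 7) (.ch (nat_lit 2) (.ev (nat_lit 1296) (nat_lit 68719607936) (.nd (nat_lit 1536) (.br (nat_lit 8)
 (.ch (nat_lit 6) (.ev (nat_lit 1552) (nat_lit 549755813888) (.ev (nat_lit 1565) (nat_lit 2097152) .dd))) (.ch
 (nat_lit 8) (.fin (nat_lit 576464600585159233))))))) (.br (nat_lit 9) (.ch (nat_lit 7) (.ev (nat_lit 1296)
 (nat_lit 618477387776) (.nd (nat_lit 1536) (.br (nat_lit 5) (.ch (nat_lit 0) (.ev (nat_lit 1552) (nat_lit
 131200) .dd)) (.br (nat_lit 9) (.ch (nat_lit 5) (.fin (nat_lit 576449207438098980))) (.ch (nat_lit 9) (.ev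
 (nat_lit 1552) (nat_lit 131200) .dd))))))) (.ch (nat_lit 9) (.ev (nat_lit 1296) (nat_lit 618475421824) (.ev
 (nat_lit 1309) (nat_lit 2097152) .dd)))))))))))))))) (.br (nat_lit 29) (.ch (nat_lit 27) (.ev (nat_lit 52)
 (nat_lit 68723802690) (.ev (nat_lit 84) (nat_lit 128) (.ev (nat_lit 128) (nat_lit 860170235920) .dd)))) (.ch
 (nat_lit 29) (.ev (nat_lit 52) (nat_lit 549862768704) (.ev (nat_lit 96) (nat_lit 379031270034) .dd))))) (.br
 (nat_lit 35) (.br (nat_lit 33) (.ch (nat_lit 30) (.ev (nat_lit 52) (nat_lit 309271593600) (.ev (nat_lit 276)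
 (nat_lit 4194304) (.ev (nat_lit 308) (nat_lit 8192) (.ev (nat_lit 468) (nat_lit 2) (.ev (nat_lit 992) (nat_lit
 549755813952) (.nd (nat_lit 1280) (.br (nat_lit 5) (.br (nat_lit 1) (.ch (nat_lit 0) (.ev (nat_lit 1296)
 (nat_lit 2097152) (.ev (nat_lit 1332) (nat_lit 16) (.ev (nat_lit 1348) (nat_lit 68719476736) (.ev (nat_lit
 1462) (nat_lit 67108864) (.nd (nat_lit 1536) (.br (nat_lit 7) (.br (nat_lit 4) (.ch (nat_lit 1) (.ev (nat_lit
 1552) (nat_lit 1073745920) .dd)) (.ch (nat_lit 4) (.ev (nat_lit 1552) (nat_lit 1073745920) .dd))) (.br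
 (nat_lit 8) (.ch (nat_lit 7) (.fin (nat_lit 576478894231077436))) (.ch (nat_lit 8) (.ev (nat_lit 1552)
 (nat_lit 1073745920) .dd)))))))))) (.br (nat_lit 2) (.ch (nat_lit 1) (.ev (nat_lit 1296) (nat_lit 1073741824)
 (.ev (nat_lit 1332) (nat_lit 67108864) (.ev (nat_lit 1348) (nat_lit 4096) (.ev (nat_lit 1478) (nat_lit 16)
 (.nd (nat_lit 1536) (.br (nat_lit 5) (.br (nat_lit 4) (.ch (nat_lit 2) (.ev (nat_lit 1552) (nat_lit
 68721573888) .dd)) (.ch (nat_lit 4) (.ev (nat_lit 1552) (nat_lit 68721573888) .dd))) (.br (nat_lit 9) (.ch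
 (nat_lit 5) (.ev (nat_lit 1552) (nat_lit 68721573888) .dd)) (.br (nat_lit 10) (.ch (nat_lit 9) (.ev (nat_lit
 1552) (nat_lit 68721573888) .dd)) (.ch (nat_lit 10) (.fin (nat_lit 576474496195052124)))))))))))) (.ch
 (nat_lit 2) (.ev (nat_lit 1296) (nat_lit 69862428672) (.ev (nat_lit 1309) (nat_lit 16) .dd))))) (.br (nat_lit
 7) (.ch (nat_lit 5) (.ev (nat_lit 1296) (nat_lit 1142951952) (.ev (nat_lit 1309) (nat_lit 68719476736) .dd)))
 (.br (nat_lit 10) (.ch (nat_lit 7) (.ev (nat_lit 1296) (nat_lit 69862424592) (.ev (nat_lit 1309) (nat_lit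
 4096) .dd))) (.ch (nat_lit 10) (.ev (nat_lit 1296) (nat_lit 69795319824) (.ev (nat_lit 1309) (nat_lit
 67108864) .dd))))))))))))) (.ch (nat_lit 33) (.ev (nat_lit 52) (nat_lit 652875014144) (.ev (nat_lit 116)
 (nat_lit 262144) (.ev (nat_lit 148) (nat_lit 16) (.ev (nat_lit 276) (nat_lit 512) (.ev (nat_lit 532) (nat_lit
 128) (.ev (nat_lit 720) (nat_lit 64) (.ev (nat_lit 1040) (nat_lit 67108864) (.nd (nat_lit 1280) (.br (nat_lit
 5) (.br (nat_lit 1) (.ch (nat_lit 0) (.ev (nat_lit 1296) (nat_lit 2) (.ev (nat_lit 1332) (nat_lit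
 274877906944) (.nd (nat_lit 1536) (.br (nat_lit 7) (.ch (nat_lit 2) (.ev (nat_lit 1552) (nat_lit 1073745920)
 .dd)) (.ch (nat_lit 7) (.fin (nat_lit 576443709890445892)))))))) (.ch (nat_lit 1) (.ev (nat_lit 1296) (nat_lit
 275951648770) (.ev (nat_lit 1309) (nat_lit 4096) .dd)))) (.br (nat_lit 7) (.ch (nat_lit 5) (.ev (nat_lit 1296)
 (nat_lit 4098) (.nd (nat_lit 1536) (.br (nat_lit 2) (.ch (nat_lit 1) (.ev (nat_lit 1552) (nat_lit 1073741824)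
 (.ev (nat_lit 1565) (nat_lit 274877906944) .dd))) (.br (nat_lit 5) (.ch (nat_lit 2) (.ev (nat_lit 1552)
 (nat_lit 274877906944) (.ev (nat_lit 1565) (nat_lit 1073741824) .dd))) (.ch (nat_lit 5) (.fin (nat_lit
 576470098152735306)))))))) (.br (nat_lit 10) (.ch (nat_lit 7) (.ev (nat_lit 1296) (nat_lit 275951648770) (.ev
 (nat_lit 1309) (nat_lit 4096) .dd))) (.ch (nat_lit 10) (.ev (nat_lit 1296) (nat_lit 4096) (.ev (nat_lit 1332)
 (nat_lit 1073741824) (.nd (nat_lit 1536) (.br (nat_lit 10) (.ch (nat_lit 5) (.fin (nat_lit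
 576462401572389418))) (.ch (nat_lit 10) (.ev (nat_lit 1552) (nat_lit 274877906946) .dd))))))))))))))))))))
 (.br (nat_lit 36) (.ch (nat_lit 35) (.ev (nat_lit 52) (nat_lit 928820240384) (.ev (nat_lit 84) (nat_lit 16)
 (.ev (nat_lit 148) (nat_lit 262144) (.ev (nat_lit 244) (nat_lit 2097152) (.ev (nat_lit 340) (nat_lit 67108864)
 (.ev (nat_lit 640) (nat_lit 4325376) (.ev (nat_lit 832) (nat_lit 4096) (.ev (nat_lit 1232) (nat_lit 64) (.nd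
 (nat_lit 1280) (.br (nat_lit 7) (.ch (nat_lit 2) (.ev (nat_lit 1296) (nat_lit 512) (.nd (nat_lit 1536) (.br
 (nat_lit 9) (.ch (nat_lit 6) (.ev (nat_lit 1552) (nat_lit 2) (.ev (nat_lit 1565) (nat_lit 128) .dd))) (.ch
 (nat_lit 9) (.fin (nat_lit 576421719930520040))))))) (.br (nat_lit 10) (.ch (nat_lit 7) (.ev (nat_lit 1296)
 (nat_lit 514) (.ev (nat_lit 1309) (nat_lit 128) .dd))) (.ch (nat_lit 10) (.ev (nat_lit 1296) (nat_lit 128)
 (.nd (nat_lit 1536) (.br (nat_lit 9) (.ch (nat_lit 2) (.fin (nat_lit 576471197667508802))) (.ch (nat_lit 9)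
 (.ev (nat_lit 1552) (nat_lit 514) .dd)))))))))))))))))) (.ch (nat_lit 36) (.ev (nat_lit 52) (nat_lit 4202512)
 (.ev (nat_lit 84) (nat_lit 262144) (.ev (nat_lit 212) (nat_lit 67108864) (.nd (nat_lit 1280) (.br (nat_lit 7)
 (.br (nat_lit 1) (.ch (nat_lit 0) (.ev (nat_lit 1296) (nat_lit 379066520258) (.ev (nat_lit 1398) (nat_lit
 131072) (.ev (nat_lit 1405) (nat_lit 549755813888) .dd)))) (.br (nat_lit 2) (.ch (nat_lit 1) (.ev (nat_lit
 1296) (nat_lit 585222984386) (.ev (nat_lit 1348) (nat_lit 274877906944) (.nd (nat_lit 1536) (.br (nat_lit 10)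
 (.ch (nat_lit 9) (.ev (nat_lit 1552) (nat_lit 68721573888) .dd)) (.ch (nat_lit 10) (.fin (nat_lit
 576448107926471204)))))))) (.ch (nat_lit 2) (.ev (nat_lit 1296) (nat_lit 69793349632) (.ev (nat_lit 1332)
 (nat_lit 274880004096) (.nd (nat_lit 1536) (.br (nat_lit 6) (.br (nat_lit 2) (.ch (nat_lit 1) (.ev (nat_lit
 1552) (nat_lit 584149111490) .dd)) (.ch (nat_lit 2) (.ev (nat_lit 1552) (nat_lit 584149106882) (.nd (nat_lit
 1617) (.br (nat_lit 22) (.ch (nat_lit 3) (.ev (nat_lit 1633) (nat_lit 4608) .dd)) (.br (nat_lit 30) (.ch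
 (nat_lit 22) (.ev (nat_lit 1633) (nat_lit 4608) .dd)) (.ch (nat_lit 30) (.nd (nat_lit 1648) (.br (nat_lit 10)
 (.ch (nat_lit 2) (.ev (nat_lit 1664) (nat_lit 512) (.ev (nat_lit 1677) (nat_lit 4096) .dd))) (.ch (nat_lit 10)
 (.fin (nat_lit 576355749002166540)))))))))))) (.br (nat_lit 9) (.ch (nat_lit 6) (.ev (nat_lit 1552) (nat_lit
 549755818496) (.ev (nat_lit 1568) (nat_lit 128) (.nd (nat_lit 1617) (.br (nat_lit 7) (.br (nat_lit 3) (.ch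
 (nat_lit 2) (.ev (nat_lit 1633) (nat_lit 33554434) (.nd (nat_lit 1648) (.ch (nat_lit 9) (.fin (nat_lit
 576462401572389440)))))) (.ch (nat_lit 3) (.ev (nat_lit 1633) (nat_lit 34393292866) .dd))) (.br (nat_lit 22)
 (.ch (nat_lit 7) (.ev (nat_lit 1633) (nat_lit 34393292866) .dd)) (.br (nat_lit 31) (.ch (nat_lit 22) (.ev
 (nat_lit 1633) (nat_lit 34359738434) (.ev (nat_lit 1645) (nat_lit 33554432) .dd))) (.ch (nat_lit 31) (.ev
 (nat_lit 1633) (nat_lit 34359738432) (.nd (nat_lit 1648) (.ch (nat_lit 0) (.fin (nat_lit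
 576465700406116960))))))))))))) (.ch (nat_lit 9) (.ev (nat_lit 1552) (nat_lit 34393297602) (.ev (nat_lit 1565)
 (nat_lit 549755813888) .dd))))))))))) (.br (nat_lit 9) (.ch (nat_lit 7) (.ev (nat_lit 1296) (nat_lit
 928822334018) (.nd (nat_lit 1536) (.br (nat_lit 5) (.ch (nat_lit 0) (.ev (nat_lit 1552) (nat_lit 128) (.ev
 (nat_lit 1565) (nat_lit 131072) .dd))) (.ch (nat_lit 5) (.fin (nat_lit 576473396683424348))))))) (.br (nat_lit
 10) (.ch (nat_lit 9) (.ev (nat_lit 1296) (nat_lit 928820363906) (.ev (nat_lit 1312) (nat_lit 64) (.ev (nat_lit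
 1332) (nat_lit 2097152) (.ev (nat_lit 1341) (nat_lit 4096) .dd))))) (.ch (nat_lit 10) (.ev (nat_lit 1296)
 (nat_lit 618511078080) (.ev (nat_lit 1312) (nat_lit 34359738368) (.nd (nat_lit 1536) (.br (nat_lit 10) (.ch
 (nat_lit 5) (.ev (nat_lit 1552) (nat_lit 2) (.fin (nat_lit 576421719353803240)))) (.ch (nat_lit 10) (.ev
 (nat_lit 1552) (nat_lit 274877906944) (.fin (nat_lit 576487690345071140))))))))))))))))))))))))

/-- Subtrie. -/
noncomputable def T4 : Tr := (.ev (nat_lit 20) (nat_lit 4865160254592) (.nd (nat_lit 33) (.br (nat_lit 19) (.br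
 (nat_lit 11) (.br (nat_lit 7) (.br (nat_lit 4) (.ch (nat_lit 1) (.ev (nat_lit 52) (nat_lit 549755814176) (.ev
 (nat_lit 84) (nat_lit 8589934592) (.ev (nat_lit 468) (nat_lit 67108864) (.ev (nat_lit 752) (nat_lit
 68719476736) (.ev (nat_lit 880) (nat_lit 64) (.nd (nat_lit 1280) (.br (nat_lit 4) (.br (nat_lit 2) (.ch
 (nat_lit 0) (.ev (nat_lit 1296) (nat_lit 8706) (.nd (nat_lit 1536) (.br (nat_lit 10) (.ch (nat_lit 2) (.fin
 (nat_lit 576464600585159234))) (.ch (nat_lit 10) (.ev (nat_lit 1552) (nat_lit 4194304) (.ev (nat_lit 1565)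
 (nat_lit 16) .dd))))))) (.ch (nat_lit 2) (.ev (nat_lit 1296) (nat_lit 4194832) (.nd (nat_lit 1536) (.br
 (nat_lit 7) (.ch (nat_lit 1) (.fin (nat_lit 576440411324105273))) (.br (nat_lit 10) (.ch (nat_lit 7) (.ev
 (nat_lit 1552) (nat_lit 8194) .dd)) (.ch (nat_lit 10) (.ev (nat_lit 1552) (nat_lit 8194) .dd)))))))) (.br
 (nat_lit 5) (.ch (nat_lit 4) (.ev (nat_lit 1296) (nat_lit 4203026) .dd)) (.br (nat_lit 8) (.ch (nat_lit 5)
 (.ev (nat_lit 1296) (nat_lit 4203010) (.ev (nat_lit 1309) (nat_lit 16) .dd))) (.ch (nat_lit 8) (.ev (nat_lit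
 1296) (nat_lit 8210) (.nd (nat_lit 1616) (.ch (nat_lit 8) (.nd (nat_lit 1649) (.ch (nat_lit 13) (.nd (nat_lit
 1680) (.br (nat_lit 6) (.ch (nat_lit 4) (.ev (nat_lit 1696) (nat_lit 4194816) .dd)) (.ch (nat_lit 6) (.fin
 (nat_lit 576434913724023068))))))))))))))))))))) (.br (nat_lit 5) (.ch (nat_lit 4) (.ev (nat_lit 52) (nat_lit
 9072) (.ev (nat_lit 180) (nat_lit 2) (.ev (nat_lit 448) (nat_lit 627136528384) .dd)))) (.ch (nat_lit 5) (.ev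
 (nat_lit 52) (nat_lit 618542400000) (.ev (nat_lit 84) (nat_lit 32) (.ev (nat_lit 288) (nat_lit 8594137426)
 .dd)))))) (.br (nat_lit 8) (.ch (nat_lit 7) (.ev (nat_lit 52) (nat_lit 549755814466) (.ev (nat_lit 148)
 (nat_lit 8192) (.ev (nat_lit 372) (nat_lit 67109120) (.ev (nat_lit 624) (nat_lit 4194336) (.nd (nat_lit 1280)
 (.br (nat_lit 5) (.ch (nat_lit 4) (.ev (nat_lit 1296) (nat_lit 16) (.nd (nat_lit 1536) (.br (nat_lit 2) (.ch
 (nat_lit 0) (.ev (nat_lit 1552) (nat_lit 77309411328) .dd)) (.br (nat_lit 10) (.ch (nat_lit 2) (.ev (nat_lit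
 1552) (nat_lit 8589934592) (.ev (nat_lit 1565) (nat_lit 68719476736) .dd))) (.ch (nat_lit 10) (.fin (nat_lit
 576456904023687746)))))))) (.br (nat_lit 6) (.ch (nat_lit 5) (.ev (nat_lit 1296) (nat_lit 68719476736) (.nd
 (nat_lit 1536) (.br (nat_lit 4) (.ch (nat_lit 0) (.ev (nat_lit 1552) (nat_lit 8589934592) (.ev (nat_lit 1565)
 (nat_lit 16) .dd))) (.br (nat_lit 5) (.ch (nat_lit 4) (.fin (nat_lit 576462401598603833))) (.ch (nat_lit 5)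
 (.ev (nat_lit 1552) (nat_lit 16) (.ev (nat_lit 1565) (nat_lit 8589934592) .dd)))))))) (.ch (nat_lit 6) (.ev
 (nat_lit 1296) (nat_lit 8589934592) (.ev (nat_lit 1412) (nat_lit 16) (.ev (nat_lit 1421) (nat_lit 68719476736)
 .dd)))))))))))) (.br (nat_lit 10) (.ch (nat_lit 8) (.ev (nat_lit 52) (nat_lit 8594128912) (.ev (nat_lit 256)
 (nat_lit 618542408546) .dd))) (.ch (nat_lit 10) (.ev (nat_lit 52) (nat_lit 549755814402) (.ev (nat_lit 116)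
 (nat_lit 4202496) (.ev (nat_lit 212) (nat_lit 8589934592) (.ev (nat_lit 800) (nat_lit 16) (.ev (nat_lit 976)
 (nat_lit 64) (.nd (nat_lit 1280) (.br (nat_lit 6) (.br (nat_lit 2) (.ch (nat_lit 0) (.ev (nat_lit 1296)
 (nat_lit 68719476992) (.nd (nat_lit 1536) (.br (nat_lit 5) (.ch (nat_lit 1) (.fin (nat_lit
 576465699808428580))) (.br (nat_lit 10) (.ch (nat_lit 5) (.ev (nat_lit 1552) (nat_lit 67108896) .dd)) (.ch
 (nat_lit 10) (.ev (nat_lit 1552) (nat_lit 32) (.ev (nat_lit 1565) (nat_lit 67108864) .dd)))))))) (.ch (nat_lit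
 2) (.ev (nat_lit 1296) (nat_lit 67109120) (.nd (nat_lit 1536) (.br (nat_lit 5) (.br (nat_lit 1) (.ch (nat_lit
 0) (.ev (nat_lit 1552) (nat_lit 32) (.ev (nat_lit 1565) (nat_lit 68719476736) .dd))) (.ch (nat_lit 1) (.ev
 (nat_lit 1552) (nat_lit 68719476768) .dd))) (.br (nat_lit 7) (.ch (nat_lit 5) (.ev (nat_lit 1552) (nat_lit
 68719476768) .dd)) (.ch (nat_lit 7) (.fin (nat_lit 576434913786937868))))))))) (.br (nat_lit 7) (.ch (nat_lit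
 6) (.ev (nat_lit 1296) (nat_lit 68786585632) (.ev (nat_lit 1309) (nat_lit 256) .dd))) (.ch (nat_lit 7) (.ev
 (nat_lit 1296) (nat_lit 68719477024) (.ev (nat_lit 1309) (nat_lit 67108864) .dd))))))))))))))) (.br (nat_lit
 15) (.br (nat_lit 12) (.ch (nat_lit 11) (.ev (nat_lit 52) (nat_lit 67108864) (.ev (nat_lit 84) (nat_lit 8192)
 (.ev (nat_lit 148) (nat_lit 68719476738) (.ev (nat_lit 372) (nat_lit 64) (.ev (nat_lit 532) (nat_lit 32) (.ev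
 (nat_lit 1088) (nat_lit 549755813888) (.nd (nat_lit 1280) (.br (nat_lit 5) (.br (nat_lit 2) (.ch (nat_lit 0)
 (.ev (nat_lit 1332) (nat_lit 16) (.ev (nat_lit 1380) (nat_lit 256) (.nd (nat_lit 1536) (.br (nat_lit 3) (.br
 (nat_lit 1) (.ch (nat_lit 0) (.ev (nat_lit 1552) (nat_lit 8594129408) .dd)) (.ch (nat_lit 1) (.ev (nat_lit
 1552) (nat_lit 8594129408) .dd))) (.br (nat_lit 5) (.ch (nat_lit 3) (.ev (nat_lit 1552) (nat_lit 8594129408)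
 .dd)) (.br (nat_lit 10) (.ch (nat_lit 5) (.ev (nat_lit 1552) (nat_lit 8589934592) (.nd (nat_lit 1617) (.ch
 (nat_lit 19) (.nd (nat_lit 1648) (.br (nat_lit 9) (.ch (nat_lit 8) (.ev (nat_lit 1664) (nat_lit 512) (.ev
 (nat_lit 1677) (nat_lit 4194304) .dd))) (.ch (nat_lit 9) (.fin (nat_lit 576421719668376120))))))))) (.ch
 (nat_lit 10) (.ev (nat_lit 1552) (nat_lit 4194304) (.nd (nat_lit 1617) (.ch (nat_lit 5) (.nd (nat_lit 1648)
 (.ch (nat_lit 10) (.fin (nat_lit 576434913839366428))))))))))))))) (.br (nat_lit 4) (.ch (nat_lit 2) (.ev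
 (nat_lit 1296) (nat_lit 4195088) (.ev (nat_lit 1309) (nat_lit 8589934592) .dd))) (.ch (nat_lit 4) (.ev
 (nat_lit 1296) (nat_lit 8594129680) .dd)))) (.br (nat_lit 6) (.ch (nat_lit 5) (.ev (nat_lit 1296) (nat_lit
 512) (.ev (nat_lit 1332) (nat_lit 8589934592) (.ev (nat_lit 1494) (nat_lit 256) (.nd (nat_lit 1536) (.br
 (nat_lit 6) (.br (nat_lit 4) (.ch (nat_lit 3) (.ev (nat_lit 1552) (nat_lit 16) (.ev (nat_lit 1565) (nat_lit
 4194304) .dd))) (.ch (nat_lit 4) (.ev (nat_lit 1552) (nat_lit 4194320) .dd))) (.br (nat_lit 9) (.ch (nat_lit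
 6) (.ev (nat_lit 1552) (nat_lit 4194304) (.ev (nat_lit 1565) (nat_lit 16) .dd))) (.ch (nat_lit 9) (.ev
 (nat_lit 1552) (nat_lit 4194320) .dd))))))))) (.br (nat_lit 7) (.ch (nat_lit 6) (.ev (nat_lit 1296) (nat_lit
 8594129680) .dd)) (.ch (nat_lit 7) (.ev (nat_lit 1296) (nat_lit 8594129680) .dd))))))))))))) (.br (nat_lit 13)
 (.ch (nat_lit 12) (.ev (nat_lit 52) (nat_lit 549822930946) (.ev (nat_lit 212) (nat_lit 512) (.ev (nat_lit 308)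
 (nat_lit 64) (.ev (nat_lit 848) (nat_lit 256) (.ev (nat_lit 1168) (nat_lit 32) (.nd (nat_lit 1280) (.br
 (nat_lit 4) (.br (nat_lit 2) (.ch (nat_lit 0) (.ev (nat_lit 1296) (nat_lit 68719476752) (.fin (nat_lit
 576482192781689410)))) (.ch (nat_lit 2) (.ev (nat_lit 1296) (nat_lit 8594128912) (.ev (nat_lit 1309) (nat_lit
 68719476736) .dd)))) (.br (nat_lit 6) (.ch (nat_lit 4) (.ev (nat_lit 1296) (nat_lit 4194320) (.nd (nat_lit
 1536) (.br (nat_lit 9) (.ch (nat_lit 0) (.ev (nat_lit 1552) (nat_lit 68719476736) (.ev (nat_lit 1565) (nat_lit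
 8589934592) .dd))) (.br (nat_lit 10) (.ch (nat_lit 9) (.ev (nat_lit 1552) (nat_lit 8589934592) (.ev (nat_lit
 1565) (nat_lit 68719476736) .dd))) (.ch (nat_lit 10) (.fin (nat_lit 576456904023687746)))))))) (.br (nat_lit
 8) (.ch (nat_lit 6) (.ev (nat_lit 1296) (nat_lit 8594128896) (.fin (nat_lit 576478894262534740)))) (.ch
 (nat_lit 8) (.ev (nat_lit 1296) (nat_lit 68723671056) (.ev (nat_lit 1309) (nat_lit 8589934592)
 .dd))))))))))))) (.ch (nat_lit 13) (.ev (nat_lit 52) (nat_lit 549822923378) (.ev (nat_lit 436) (nat_lit 256)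
 (.ev (nat_lit 480) (nat_lit 77313613824) .dd)))))) (.br (nat_lit 17) (.br (nat_lit 16) (.ch (nat_lit 15) (.ev
 (nat_lit 52) (nat_lit 77313613904) (.ev (nat_lit 116) (nat_lit 512) (.ev (nat_lit 276) (nat_lit 67108864) (.ev
 (nat_lit 308) (nat_lit 256) (.ev (nat_lit 372) (nat_lit 549755813888) (.nd (nat_lit 1280) (.br (nat_lit 5)
 (.br (nat_lit 4) (.ch (nat_lit 2) (.nd (nat_lit 1536) (.br (nat_lit 4) (.ch (nat_lit 0) (.ev (nat_lit 1552)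
 (nat_lit 2) (.ev (nat_lit 1565) (nat_lit 32) .dd))) (.br (nat_lit 7) (.ch (nat_lit 4) (.fin (nat_lit
 576461302042935892))) (.ch (nat_lit 7) (.ev (nat_lit 1552) (nat_lit 34) .dd)))))) (.ch (nat_lit 4) (.ev
 (nat_lit 1296) (nat_lit 34) .dd))) (.br (nat_lit 7) (.ch (nat_lit 5) (.ev (nat_lit 1296) (nat_lit 2) (.ev
 (nat_lit 1309) (nat_lit 32) .dd))) (.br (nat_lit 8) (.ch (nat_lit 7) (.ev (nat_lit 1296) (nat_lit 34) .dd))
 (.ch (nat_lit 8) (.ev (nat_lit 1296) (nat_lit 2) (.ev (nat_lit 1309) (nat_lit 32) .dd))))))))))))) (.ch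
 (nat_lit 16) (.ev (nat_lit 52) (nat_lit 68719485266) (.ev (nat_lit 84) (nat_lit 4194304) (.ev (nat_lit 436)
 (nat_lit 549755813888) (.nd (nat_lit 1280) (.br (nat_lit 5) (.br (nat_lit 2) (.ch (nat_lit 0) (.nd (nat_lit
 1536) (.br (nat_lit 10) (.ch (nat_lit 1) (.ev (nat_lit 1552) (nat_lit 8589935104) (.fin (nat_lit
 576465699808428580)))) (.ch (nat_lit 10) (.ev (nat_lit 1552) (nat_lit 67108896) (.fin (nat_lit
 576487690282156900))))))) (.ch (nat_lit 2) (.ev (nat_lit 1296) (nat_lit 67109408) (.ev (nat_lit 1309) (nat_lit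
 8589934592) .dd)))) (.br (nat_lit 6) (.ch (nat_lit 5) (.ev (nat_lit 1296) (nat_lit 544) (.ev (nat_lit 1332)
 (nat_lit 67108864) (.ev (nat_lit 1341) (nat_lit 8589934592) .dd)))) (.br (nat_lit 7) (.ch (nat_lit 6) (.ev
 (nat_lit 1296) (nat_lit 8657044000) .dd)) (.ch (nat_lit 7) (.ev (nat_lit 1296) (nat_lit 8589935136) (.ev
 (nat_lit 1309) (nat_lit 67108864) .dd)))))))))))) (.br (nat_lit 18) (.ch (nat_lit 17) (.ev (nat_lit 52)
 (nat_lit 627136536624) (.nd (nat_lit 1280) (.br (nat_lit 4) (.ch (nat_lit 2) (.ev (nat_lit 1296) (nat_lit 832)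
 (.ev (nat_lit 1309) (nat_lit 2) .dd))) (.br (nat_lit 6) (.ch (nat_lit 4) (.ev (nat_lit 1296) (nat_lit 320)
 (.nd (nat_lit 1536) (.br (nat_lit 4) (.ch (nat_lit 3) (.ev (nat_lit 1552) (nat_lit 512) (.ev (nat_lit 1565)
 (nat_lit 2) .dd))) (.ch (nat_lit 4) (.fin (nat_lit 576451406454014526))))))) (.ch (nat_lit 6) (.ev (nat_lit
 1296) (nat_lit 514) (.nd (nat_lit 1536) (.br (nat_lit 6) (.ch (nat_lit 4) (.fin (nat_lit 576461302059713084)))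
 (.ch (nat_lit 6) (.ev (nat_lit 1552) (nat_lit 320) .dd))))))))))) (.ch (nat_lit 18) (.ev (nat_lit 52) (nat_lit
 68786585890) (.ev (nat_lit 84) (nat_lit 16) (.ev (nat_lit 244) (nat_lit 549755813888) (.ev (nat_lit 276)
 (nat_lit 64) (.nd (nat_lit 1280) (.br (nat_lit 4) (.br (nat_lit 2) (.ch (nat_lit 0) (.ev (nat_lit 1296)
 (nat_lit 8192) (.ev (nat_lit 1332) (nat_lit 512) (.nd (nat_lit 1536) (.br (nat_lit 5) (.ch (nat_lit 3) (.ev
 (nat_lit 1552) (nat_lit 4194304) (.ev (nat_lit 1565) (nat_lit 8589934592) .dd))) (.br (nat_lit 10) (.ch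
 (nat_lit 5) (.ev (nat_lit 1552) (nat_lit 8594128896) .dd)) (.ch (nat_lit 10) (.fin (nat_lit
 576440411339833918))))))))) (.ch (nat_lit 2) (.ev (nat_lit 1296) (nat_lit 8594137600) .dd))) (.br (nat_lit 6)
 (.ch (nat_lit 4) (.ev (nat_lit 1296) (nat_lit 4202496) (.ev (nat_lit 1332) (nat_lit 512) (.ev (nat_lit 1341)
 (nat_lit 8589934592) .dd)))) (.br (nat_lit 8) (.ch (nat_lit 6) (.ev (nat_lit 1296) (nat_lit 8594137600) .dd))
 (.ch (nat_lit 8) (.ev (nat_lit 1296) (nat_lit 4194304) (.ev (nat_lit 1332) (nat_lit 8589934592) (.nd (nat_lit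
 1536) (.br (nat_lit 4) (.ch (nat_lit 2) (.ev (nat_lit 1552) (nat_lit 8704) .dd)) (.br (nat_lit 8) (.ch
 (nat_lit 4) (.ev (nat_lit 1552) (nat_lit 8192) (.ev (nat_lit 1565) (nat_lit 512) .dd))) (.ch (nat_lit 8) (.fin
 (nat_lit 576451406477083198)))))))))))))))))))))) (.br (nat_lit 26) (.br (nat_lit 22) (.br (nat_lit 20) (.ch
 (nat_lit 19) (.ev (nat_lit 52) (nat_lit 514) (.ev (nat_lit 116) (nat_lit 68719476736) (.ev (nat_lit 148)
 (nat_lit 8589934592) (.ev (nat_lit 212) (nat_lit 8192) (.ev (nat_lit 276) (nat_lit 549755813888) (.ev (nat_lit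
 340) (nat_lit 32) (.ev (nat_lit 404) (nat_lit 67108864) (.nd (nat_lit 1280) (.br (nat_lit 5) (.ch (nat_lit 0)
 (.ev (nat_lit 1296) (nat_lit 320) (.nd (nat_lit 1536) (.br (nat_lit 10) (.ch (nat_lit 2) (.fin (nat_lit
 576458003536364094))) (.ch (nat_lit 10) (.ev (nat_lit 1552) (nat_lit 16) (.ev (nat_lit 1565) (nat_lit 4194304)
 .dd))))))) (.br (nat_lit 6) (.ch (nat_lit 5) (.ev (nat_lit 1296) (nat_lit 336) (.ev (nat_lit 1309) (nat_lit
 4194304) .dd))) (.ch (nat_lit 6) (.ev (nat_lit 1296) (nat_lit 4194320) (.nd (nat_lit 1536) (.br (nat_lit 10)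
 (.ch (nat_lit 4) (.fin (nat_lit 576461302059713084))) (.ch (nat_lit 10) (.ev (nat_lit 1552) (nat_lit 320)
 .dd))))))))))))))))) (.br (nat_lit 21) (.ch (nat_lit 20) (.ev (nat_lit 52) (nat_lit 67109490) (.ev (nat_lit
 116) (nat_lit 8589934592) (.ev (nat_lit 276) (nat_lit 256) (.nd (nat_lit 1280) (.br (nat_lit 4) (.br (nat_lit
 2) (.ch (nat_lit 0) (.ev (nat_lit 1296) (nat_lit 618479493120) .dd)) (.ch (nat_lit 2) (.ev (nat_lit 1296)
 (nat_lit 4202496) (.nd (nat_lit 1536) (.br (nat_lit 10) (.ch (nat_lit 9) (.fin (nat_lit 576237001568109148)))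
 (.ch (nat_lit 10) (.ev (nat_lit 1552) (nat_lit 68719476736) (.ev (nat_lit 1565) (nat_lit 549755813888)
 .dd)))))))) (.br (nat_lit 5) (.ch (nat_lit 4) (.ev (nat_lit 1296) (nat_lit 68723679232) (.ev (nat_lit 1309)
 (nat_lit 549755813888) .dd))) (.br (nat_lit 8) (.ch (nat_lit 5) (.ev (nat_lit 1296) (nat_lit 618475298816)
 (.ev (nat_lit 1309) (nat_lit 4194304) .dd))) (.ch (nat_lit 8) (.ev (nat_lit 1296) (nat_lit 618475290624) (.nd
 (nat_lit 1536) (.br (nat_lit 3) (.ch (nat_lit 0) (.fin (nat_lit 576346952741372188))) (.br (nat_lit 4) (.ch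
 (nat_lit 3) (.ev (nat_lit 1552) (nat_lit 4202496) .dd)) (.ch (nat_lit 4) (.ev (nat_lit 1552) (nat_lit 8192)
 (.ev (nat_lit 1565) (nat_lit 4194304) .dd)))))))))))))))) (.ch (nat_lit 21) (.ev (nat_lit 52) (nat_lit
 558417051712) (.ev (nat_lit 84) (nat_lit 2) (.ev (nat_lit 180) (nat_lit 544) (.ev (nat_lit 340) (nat_lit 8192)
 (.ev (nat_lit 564) (nat_lit 256) (.nd (nat_lit 1280) (.br (nat_lit 5) (.br (nat_lit 2) (.ch (nat_lit 0) (.ev
 (nat_lit 1296) (nat_lit 68719476736) (.ev (nat_lit 1309) (nat_lit 16) .dd))) (.ch (nat_lit 2) (.ev (nat_lit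
 1296) (nat_lit 68719476752) .dd))) (.br (nat_lit 6) (.ch (nat_lit 5) (.ev (nat_lit 1296) (nat_lit 68719476736)
 (.ev (nat_lit 1309) (nat_lit 16) .dd))) (.br (nat_lit 7) (.ch (nat_lit 6) (.nd (nat_lit 1536) (.br (nat_lit 5)
 (.ch (nat_lit 2) (.ev (nat_lit 1552) (nat_lit 68719476752) .dd)) (.br (nat_lit 8) (.ch (nat_lit 5) (.ev
 (nat_lit 1552) (nat_lit 68719476736) (.ev (nat_lit 1565) (nat_lit 16) .dd))) (.ch (nat_lit 8) (.fin (nat_lit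
 576443709858988588))))))) (.ch (nat_lit 7) (.ev (nat_lit 1296) (nat_lit 68719476752) .dd)))))))))))))) (.br
 (nat_lit 24) (.ch (nat_lit 22) (.ev (nat_lit 52) (nat_lit 77380722978) (.ev (nat_lit 116) (nat_lit 16) (.ev
 (nat_lit 544) (nat_lit 549755814464) .dd)))) (.br (nat_lit 25) (.ch (nat_lit 24) (.ev (nat_lit 52) (nat_lit
 8661238032) (.ev (nat_lit 404) (nat_lit 549755813888) (.ev (nat_lit 768) (nat_lit 68719476736) (.ev (nat_lit
 1056) (nat_lit 64) (.nd (nat_lit 1280) (.br (nat_lit 5) (.br (nat_lit 4) (.ch (nat_lit 2) (.ev (nat_lit 1296)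
 (nat_lit 512) (.ev (nat_lit 1332) (nat_lit 8192) (.nd (nat_lit 1536) (.br (nat_lit 4) (.ch (nat_lit 1) (.ev
 (nat_lit 1552) (nat_lit 34) .dd)) (.ch (nat_lit 4) (.fin (nat_lit 576461302078587436)))))))) (.ch (nat_lit 4)
 (.ev (nat_lit 1296) (nat_lit 8736) (.ev (nat_lit 1309) (nat_lit 2) .dd)))) (.br (nat_lit 7) (.ch (nat_lit 5)
 (.ev (nat_lit 1296) (nat_lit 514) (.nd (nat_lit 1536) (.br (nat_lit 7) (.ch (nat_lit 3) (.ev (nat_lit 1552)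
 (nat_lit 8192) (.ev (nat_lit 1565) (nat_lit 32) .dd))) (.br (nat_lit 9) (.ch (nat_lit 7) (.fin (nat_lit
 576452505968788034))) (.ch (nat_lit 9) (.ev (nat_lit 1552) (nat_lit 32) (.ev (nat_lit 1565) (nat_lit 8192)
 .dd)))))))) (.br (nat_lit 8) (.ch (nat_lit 7) (.ev (nat_lit 1296) (nat_lit 8736) (.ev (nat_lit 1309) (nat_lit
 2) .dd))) (.ch (nat_lit 8) (.ev (nat_lit 1296) (nat_lit 2) (.ev (nat_lit 1332) (nat_lit 32) (.nd (nat_lit
 1536) (.br (nat_lit 8) (.ch (nat_lit 0) (.ev (nat_lit 1552) (nat_lit 8704) .dd)) (.ch (nat_lit 8) (.fin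
 (nat_lit 576471197644440130))))))))))))))))) (.ch (nat_lit 25) (.ev (nat_lit 52) (nat_lit 77309411632) (.ev
 (nat_lit 468) (nat_lit 549755813888) (.ev (nat_lit 784) (nat_lit 2) (.ev (nat_lit 960) (nat_lit 67108864) (.nd
 (nat_lit 1280) (.br (nat_lit 6) (.br (nat_lit 2) (.ch (nat_lit 0) (.ev (nat_lit 1296) (nat_lit 8256) (.nd
 (nat_lit 1536) (.br (nat_lit 5) (.br (nat_lit 2) (.ch (nat_lit 0) (.ev (nat_lit 1552) (nat_lit 4194816) .dd))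
 (.ch (nat_lit 2) (.ev (nat_lit 1552) (nat_lit 4194816) .dd))) (.br (nat_lit 7) (.ch (nat_lit 5) (.fin (nat_lit
 576421719668376120))) (.ch (nat_lit 7) (.ev (nat_lit 1552) (nat_lit 4194816) .dd))))))) (.ch (nat_lit 2) (.ev
 (nat_lit 1296) (nat_lit 4194880) (.ev (nat_lit 1309) (nat_lit 8192) .dd)))) (.br (nat_lit 8) (.ch (nat_lit 6)
 (.ev (nat_lit 1296) (nat_lit 4203008) (.ev (nat_lit 1309) (nat_lit 64) .dd))) (.ch (nat_lit 8) (.ev (nat_lit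
 1296) (nat_lit 576) (.nd (nat_lit 1536) (.br (nat_lit 6) (.ch (nat_lit 0) (.fin (nat_lit 576575651380151140)))
 (.br (nat_lit 8) (.ch (nat_lit 6) (.ev (nat_lit 1552) (nat_lit 4202496) .dd)) (.ch (nat_lit 8) (.ev (nat_lit
 1552) (nat_lit 4194304) (.ev (nat_lit 1565) (nat_lit 8192) .dd))))))))))))))))))) (.br (nat_lit 30) (.br
 (nat_lit 27) (.ch (nat_lit 26) (.ev (nat_lit 52) (nat_lit 8589943312) (.ev (nat_lit 212) (nat_lit 4194304)
 (.ev (nat_lit 244) (nat_lit 67108864) (.ev (nat_lit 1008) (nat_lit 256) (.nd (nat_lit 1280) (.br (nat_lit 5)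
 (.br (nat_lit 2) (.ch (nat_lit 0) (.ev (nat_lit 1296) (nat_lit 618475290722) .dd)) (.br (nat_lit 4) (.ch
 (nat_lit 2) (.ev (nat_lit 1332) (nat_lit 2) (.ev (nat_lit 1510) (nat_lit 64) (.nd (nat_lit 1536) (.br (nat_lit
 7) (.br (nat_lit 5) (.ch (nat_lit 1) (.ev (nat_lit 1552) (nat_lit 618475290656) .dd)) (.ch (nat_lit 5) (.ev
 (nat_lit 1552) (nat_lit 618475290656) .dd))) (.br (nat_lit 9) (.ch (nat_lit 7) (.ev (nat_lit 1552) (nat_lit
 549755813888) (.nd (nat_lit 1617) (.br (nat_lit 27) (.ch (nat_lit 26) (.ev (nat_lit 1633) (nat_lit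
 68719476736) (.ev (nat_lit 1645) (nat_lit 32) .dd))) (.ch (nat_lit 27) (.nd (nat_lit 1648) (.br (nat_lit 8)
 (.ch (nat_lit 1) (.ev (nat_lit 1664) (nat_lit 68719476736) (.ev (nat_lit 1677) (nat_lit 32) .dd))) (.ch
 (nat_lit 8) (.fin (nat_lit 576434913786937868)))))))))) (.ch (nat_lit 9) (.ev (nat_lit 1552) (nat_lit 32) (.nd
 (nat_lit 1617) (.br (nat_lit 26) (.ch (nat_lit 7) (.ev (nat_lit 1633) (nat_lit 68719476736) (.ev (nat_lit
 1645) (nat_lit 549755813888) .dd))) (.br (nat_lit 28) (.ch (nat_lit 26) (.ev (nat_lit 1633) (nat_lit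
 68719476736) (.ev (nat_lit 1645) (nat_lit 549755813888) .dd))) (.ch (nat_lit 28) (.nd (nat_lit 1648) (.ch
 (nat_lit 2) (.fin (nat_lit 576237001568109148)))))))))))))))) (.ch (nat_lit 4) (.ev (nat_lit 1296) (nat_lit
 68719476736) (.ev (nat_lit 1332) (nat_lit 549755813888) (.ev (nat_lit 1366) (nat_lit 96) (.ev (nat_lit 1373)
 (nat_lit 2) .dd))))))) (.br (nat_lit 7) (.ch (nat_lit 5) (.ev (nat_lit 1296) (nat_lit 68719476834) (.ev
 (nat_lit 1309) (nat_lit 549755813888) .dd))) (.br (nat_lit 8) (.ch (nat_lit 7) (.ev (nat_lit 1296) (nat_lit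
 618475290722) .dd)) (.ch (nat_lit 8) (.ev (nat_lit 1296) (nat_lit 618475290722) .dd))))))))))) (.br (nat_lit
 29) (.ch (nat_lit 27) (.ev (nat_lit 52) (nat_lit 68723671618) (.ev (nat_lit 244) (nat_lit 256) (.ev (nat_lit
 384) (nat_lit 558412865584) .dd)))) (.ch (nat_lit 29) (.ev (nat_lit 52) (nat_lit 558417051968) (.ev (nat_lit
 212) (nat_lit 16) (.nd (nat_lit 1280) (.br (nat_lit 5) (.br (nat_lit 2) (.ch (nat_lit 0) (.ev (nat_lit 1296)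
 (nat_lit 68719484962) (.ev (nat_lit 1309) (nat_lit 512) .dd))) (.br (nat_lit 4) (.ch (nat_lit 2) (.ev (nat_lit
 1296) (nat_lit 544) (.ev (nat_lit 1526) (nat_lit 68719476736) (.nd (nat_lit 1536) (.br (nat_lit 5) (.br
 (nat_lit 4) (.ch (nat_lit 1) (.fin (nat_lit 576440411324105273))) (.ch (nat_lit 4) (.ev (nat_lit 1552)
 (nat_lit 8194) .dd))) (.br (nat_lit 9) (.ch (nat_lit 5) (.ev (nat_lit 1552) (nat_lit 8194) .dd)) (.br (nat_lit
 10) (.ch (nat_lit 9) (.ev (nat_lit 1552) (nat_lit 2) (.ev (nat_lit 1565) (nat_lit 8192) .dd))) (.ch (nat_lit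
 10) (.ev (nat_lit 1552) (nat_lit 8192) (.ev (nat_lit 1565) (nat_lit 2) .dd)))))))))) (.ch (nat_lit 4) (.ev
 (nat_lit 1296) (nat_lit 8192) (.ev (nat_lit 1348) (nat_lit 68719476736) (.nd (nat_lit 1536) (.br (nat_lit 4)
 (.br (nat_lit 3) (.ch (nat_lit 2) (.ev (nat_lit 1552) (nat_lit 34) (.ev (nat_lit 1565) (nat_lit 512) .dd)))
 (.ch (nat_lit 3) (.ev (nat_lit 1552) (nat_lit 514) (.ev (nat_lit 1565) (nat_lit 32) .dd)))) (.br (nat_lit 9)
 (.ch (nat_lit 4) (.ev (nat_lit 1552) (nat_lit 512) (.ev (nat_lit 1568) (nat_lit 2) (.ev (nat_lit 1581)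
 (nat_lit 32) .dd)))) (.ch (nat_lit 9) (.ev (nat_lit 1552) (nat_lit 546) .dd)))))))))) (.br (nat_lit 6) (.ch
 (nat_lit 5) (.ev (nat_lit 1296) (nat_lit 68719477250) (.nd (nat_lit 1536) (.br (nat_lit 4) (.ch (nat_lit 0)
 (.ev (nat_lit 1552) (nat_lit 8192) (.ev (nat_lit 1565) (nat_lit 32) .dd))) (.br (nat_lit 7) (.ch (nat_lit 4)
 (.ev (nat_lit 1552) (nat_lit 32) (.ev (nat_lit 1565) (nat_lit 8192) .dd))) (.ch (nat_lit 7) (.fin (nat_lit
 576452505968788034)))))))) (.br (nat_lit 8) (.ch (nat_lit 6) (.ev (nat_lit 1296) (nat_lit 68719485474) .dd))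
 (.ch (nat_lit 8) (.ev (nat_lit 1296) (nat_lit 68719485474) .dd))))))))))) (.br (nat_lit 35) (.br (nat_lit 33)
 (.ch (nat_lit 30) (.ev (nat_lit 52) (nat_lit 544) (.ev (nat_lit 224) (nat_lit 627136536914) .dd))) (.ch
 (nat_lit 33) (.ev (nat_lit 52) (nat_lit 627069427968) (.ev (nat_lit 416) (nat_lit 67109490) .dd)))) (.br
 (nat_lit 36) (.ch (nat_lit 35) (.ev (nat_lit 52) (nat_lit 618475298816) (.ev (nat_lit 244) (nat_lit 64) (.ev
 (nat_lit 564) (nat_lit 67108864) (.ev (nat_lit 1136) (nat_lit 256) (.nd (nat_lit 1280) (.br (nat_lit 7) (.br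
 (nat_lit 5) (.ch (nat_lit 4) (.ev (nat_lit 1296) (nat_lit 8594128912) (.nd (nat_lit 1536) (.br (nat_lit 3)
 (.ch (nat_lit 0) (.ev (nat_lit 1552) (nat_lit 544) (.ev (nat_lit 1565) (nat_lit 2) .dd))) (.br (nat_lit 4)
 (.ch (nat_lit 3) (.ev (nat_lit 1552) (nat_lit 514) (.ev (nat_lit 1565) (nat_lit 32) .dd))) (.ch (nat_lit 4)
 (.ev (nat_lit 1552) (nat_lit 32) (.fin (nat_lit 576451406454014526))))))))) (.ch (nat_lit 5) (.ev (nat_lit
 1296) (nat_lit 514) (.ev (nat_lit 1348) (nat_lit 4194304) (.nd (nat_lit 1536) (.br (nat_lit 6) (.br (nat_lit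
 4) (.ch (nat_lit 0) (.ev (nat_lit 1552) (nat_lit 8589934608) (.ev (nat_lit 1565) (nat_lit 32) .dd))) (.ch
 (nat_lit 4) (.ev (nat_lit 1552) (nat_lit 32) (.fin (nat_lit 576460202522919495))))) (.br (nat_lit 9) (.ch
 (nat_lit 6) (.ev (nat_lit 1552) (nat_lit 8589934640) .dd)) (.ch (nat_lit 9) (.ev (nat_lit 1552) (nat_lit
 8589934640) .dd))))))))) (.br (nat_lit 8) (.ch (nat_lit 7) (.ev (nat_lit 1296) (nat_lit 8594129456) (.ev
 (nat_lit 1309) (nat_lit 2) .dd))) (.ch (nat_lit 8) (.ev (nat_lit 1296) (nat_lit 8589934642) (.nd (nat_lit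
 1536) (.br (nat_lit 8) (.ch (nat_lit 3) (.ev (nat_lit 1552) (nat_lit 4194816) .dd)) (.ch (nat_lit 8) (.nd
 (nat_lit 1617) (.ch (nat_lit 2) (.nd (nat_lit 1648) (.ch (nat_lit 6) (.fin (nat_lit
 576487690397500260))))))))))))))))))) (.ch (nat_lit 36) (.ev (nat_lit 52) (nat_lit 4202544) (.ev (nat_lit 84)
 (nat_lit 512) (.ev (nat_lit 180) (nat_lit 68719476736) (.ev (nat_lit 352) (nat_lit 558412857666)
 .dd))))))))))))

/-- The trie. -/
noncomputable def T : Tr := .nd (nat_lit 1000000) (.br (nat_lit 4) (.br (nat_lit 1) (.ch (nat_lit 0) (.ev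
 (nat_lit 0) (nat_lit 8796093022207) .dd)) (.ch (nat_lit 1) T1)) (.br (nat_lit 5) (.ch (nat_lit 4) T4) (.br
 (nat_lit 10) (.ch (nat_lit 5) (.ev (nat_lit 0) (nat_lit 8796093022207) .dd)) (.ch (nat_lit 10) (.ev (nat_lit
 0) (nat_lit 8796093022207) .dd)))))

/-- The possible values. -/
noncomputable def oks : List ℕ := [3, 34, 223, 234, 1015, 1365, 1378, 4690, 164290]

/-- The parameters. -/
noncomputable def S : Pr := ⟨fun i l e => lget mz (lget [] (lget [] tabs i) l) e, oks, [(nat_lit 0), (nat_lit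
 1), (nat_lit 0), (nat_lit 0), (nat_lit 1), (nat_lit 0)], T, (nat_lit 8796093022207), (nat_lit 3303796230157),
 (nat_lit 43), [(nat_lit 1057), (nat_lit 23899161165)], [(nat_lit 19487171), (nat_lit 1874161)]⟩

/-- Nothing known. -/
noncomputable def cs0 : Cs := (.cons (nat_lit 11) (nat_lit 0) (nat_lit 1) (.cons (nat_lit 37) (nat_lit 0) (nat_lit 1) .nil))

theorem part_1 : part S cs0 (nat_lit 1) = true := by decide +kernel

theorem part_4 : part S cs0 (nat_lit 4) = true := by decide +kernel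

/-- Data of a prime. -/
noncomputable def D0 : PD := ⟨(nat_lit 11), (nat_lit 7), (6190614, 3, 3), (12381250, 14211882, 1830652), (13368790, 19487156, 19487136)⟩

theorem D0_ok : D0.Ok := pdb_sound (s := 1) (C := ⟨⟨9, -6, -17, -1, -14, 8, -4, -1, -1⟩, (9, 10, 7)⟩) (by show Nat.Prime 11; norm_num) (by decide +kernel)

/-- Lines of the first type. -/
noncomputable def Cl0 : List C1 := [⟨⟨-9, 6, -8, 1, 14, 7, 4, 1, -5⟩, (4, 2, 8)⟩,
  ⟨⟨0, 0, 0, 0, 0, 0, 0, 0, 0⟩, (0, 0, 0)⟩,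
  ⟨⟨0, 0, 0, 0, 0, 0, 0, 0, 0⟩, (0, 0, 0)⟩,
  ⟨⟨0, 0, 0, 0, 0, 0, 0, 0, 0⟩, (0, 0, 0)⟩,
  ⟨⟨0, 0, 0, 0, 0, 0, 0, 0, 0⟩, (0, 0, 0)⟩,
  ⟨⟨9, 6, -17, -1, 14, 8, -4, 1, -1⟩, (8, 4, 5)⟩,
  ⟨⟨0, 0, 0, 0, 0, 0, 0, 0, 0⟩, (0, 0, 0)⟩,
  ⟨⟨0, 0, 0, 0, 0, 0, 0, 0, 0⟩, (0, 0, 0)⟩,
  ⟨⟨0, 0, 0, 0, 0, 0, 0, 0, 0⟩, (0, 0, 0)⟩,
  ⟨⟨0, 0, 0, 0, 0, 0, 0, 0, 0⟩, (0, 0, 0)⟩,
  ⟨⟨-9, -6, -8, 1, -14, 7, 4, -1, -5⟩, (7, 9, 3)⟩]

/-- Data of a prime. -/
noncomputable def D1 : PD := ⟨(nat_lit 37), (nat_lit 4), (1164206, 16, 5), (290098, 1020852, 1005947), (112988, 1391410, 1055966)⟩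

theorem D1_ok : D1.Ok := pdb_sound (s := 2) (C := ⟨⟨43, 22, -44, 23, -2, 41, 6, -15, -7⟩, (6, 23, 6)⟩) (by show Nat.Prime 37; norm_num) (by decide +kernel)

/-- Lines of the first type. -/
noncomputable def Cl1 : List C1 := [⟨⟨23, -2, -64, 43, 22, 1, -6, 15, -1⟩, (31, 29, 8)⟩,
  ⟨⟨0, 0, 0, 0, 0, 0, 0, 0, 0⟩, (0, 0, 0)⟩,
  ⟨⟨-7, 22, -49, 27, 42, 4, 14, -7, -13⟩, (1, 12, 35)⟩,
  ⟨⟨-13, 38, -31, -47, -22, 16, 6, -9, -17⟩, (20, 4, 5)⟩,
  ⟨⟨0, 0, 0, 0, 0, 0, 0, 0, 0⟩, (0, 0, 0)⟩,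
  ⟨⟨0, 0, 0, 0, 0, 0, 0, 0, 0⟩, (0, 0, 0)⟩,
  ⟨⟨7, 22, -56, -27, 42, 31, 14, 7, -1⟩, (18, 31, 36)⟩,
  ⟨⟨0, 0, 0, 0, 0, 0, 0, 0, 0⟩, (0, 0, 0)⟩,
  ⟨⟨0, 0, 0, 0, 0, 0, 0, 0, 0⟩, (0, 0, 0)⟩,
  ⟨⟨13, -38, -44, -47, -22, 31, -6, 9, -11⟩, (18, 26, 23)⟩,
  ⟨⟨0, 0, 0, 0, 0, 0, 0, 0, 0⟩, (0, 0, 0)⟩,
  ⟨⟨0, 0, 0, 0, 0, 0, 0, 0, 0⟩, (0, 0, 0)⟩,
  ⟨⟨0, 0, 0, 0, 0, 0, 0, 0, 0⟩, (0, 0, 0)⟩,
  ⟨⟨0, 0, 0, 0, 0, 0, 0, 0, 0⟩, (0, 0, 0)⟩,
  ⟨⟨13, 38, -44, -47, 22, 31, -6, -9, -11⟩, (4, 14, 1)⟩,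
  ⟨⟨0, 0, 0, 0, 0, 0, 0, 0, 0⟩, (0, 0, 0)⟩,
  ⟨⟨0, 0, 0, 0, 0, 0, 0, 0, 0⟩, (0, 0, 0)⟩,
  ⟨⟨0, 0, 0, 0, 0, 0, 0, 0, 0⟩, (0, 0, 0)⟩,
  ⟨⟨0, 0, 0, 0, 0, 0, 0, 0, 0⟩, (0, 0, 0)⟩,
  ⟨⟨0, 0, 0, 0, 0, 0, 0, 0, 0⟩, (0, 0, 0)⟩,
  ⟨⟨0, 0, 0, 0, 0, 0, 0, 0, 0⟩, (0, 0, 0)⟩,
  ⟨⟨0, 0, 0, 0, 0, 0, 0, 0, 0⟩, (0, 0, 0)⟩,
  ⟨⟨0, 0, 0, 0, 0, 0, 0, 0, 0⟩, (0, 0, 0)⟩,
  ⟨⟨-7, -22, -49, 27, -42, 4, 14, 7, -13⟩, (13, 8, 11)⟩,
  ⟨⟨0, 0, 0, 0, 0, 0, 0, 0, 0⟩, (0, 0, 0)⟩,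
  ⟨⟨0, 0, 0, 0, 0, 0, 0, 0, 0⟩, (0, 0, 0)⟩,
  ⟨⟨0, 0, 0, 0, 0, 0, 0, 0, 0⟩, (0, 0, 0)⟩,
  ⟨⟨0, 0, 0, 0, 0, 0, 0, 0, 0⟩, (0, 0, 0)⟩,
  ⟨⟨23, 2, -64, 43, -22, 1, -6, -15, -1⟩, (3, 4, 33)⟩,
  ⟨⟨0, 0, 0, 0, 0, 0, 0, 0, 0⟩, (0, 0, 0)⟩,
  ⟨⟨0, 0, 0, 0, 0, 0, 0, 0, 0⟩, (0, 0, 0)⟩,
  ⟨⟨-13, -38, -31, -47, 22, 16, 6, 9, -17⟩, (34, 29, 27)⟩,
  ⟨⟨7, -22, -56, -27, -42, 31, 14, -7, -1⟩, (30, 27, 23)⟩,
  ⟨⟨0, 0, 0, 0, 0, 0, 0, 0, 0⟩, (0, 0, 0)⟩,
  ⟨⟨43, -22, -44, 23, 2, 41, 6, 15, -7⟩, (12, 9, 12)⟩,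
  ⟨⟨0, 0, 0, 0, 0, 0, 0, 0, 0⟩, (0, 0, 0)⟩,
  ⟨⟨0, 0, 0, 0, 0, 0, 0, 0, 0⟩, (0, 0, 0)⟩]

/-- Data of a prime. -/
noncomputable def Dm : PD := ⟨(nat_lit 43), (nat_lit 2), (989, 1, 17), (1652, 774, 636), (172, 5, 130)⟩

theorem Dm_ok : Dm.Ok := pdb_sound (s := 1) (C := ⟨⟨43, -38, -44, 43, 38, 1, 0, 9, -19⟩, (5, 38, 9)⟩) (by show Nat.Prime 43; norm_num) (by decide +kernel)

/-- Lines of the first type. -/
noncomputable def Clm : List C1 := [⟨⟨43, 38, -44, 43, -38, 1, 0, -9, -19⟩, (42, 1, 24)⟩,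
  ⟨⟨0, 0, 0, 0, 0, 0, 0, 0, 0⟩, (0, 0, 0)⟩,
  ⟨⟨57, -18, -16, -17, -58, 1, 4, 1, -23⟩, (41, 27, 24)⟩,
  ⟨⟨7, -38, -56, -33, -42, 49, -16, 7, -1⟩, (28, 40, 22)⟩,
  ⟨⟨0, 0, 0, 0, 0, 0, 0, 0, 0⟩, (0, 0, 0)⟩,
  ⟨⟨0, 0, 0, 0, 0, 0, 0, 0, 0⟩, (0, 0, 0)⟩,
  ⟨⟨0, 0, 0, 0, 0, 0, 0, 0, 0⟩, (0, 0, 0)⟩,
  ⟨⟨0, 0, 0, 0, 0, 0, 0, 0, 0⟩, (0, 0, 0)⟩,
  ⟨⟨0, 0, 0, 0, 0, 0, 0, 0, 0⟩, (0, 0, 0)⟩,
  ⟨⟨0, 0, 0, 0, 0, 0, 0, 0, 0⟩, (0, 0, 0)⟩,
  ⟨⟨0, 0, 0, 0, 0, 0, 0, 0, 0⟩, (0, 0, 0)⟩,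
  ⟨⟨27, -18, -71, -53, -22, 4, -4, 17, -7⟩, (6, 36, 23)⟩,
  ⟨⟨0, 0, 0, 0, 0, 0, 0, 0, 0⟩, (0, 0, 0)⟩,
  ⟨⟨0, 0, 0, 0, 0, 0, 0, 0, 0⟩, (0, 0, 0)⟩,
  ⟨⟨-7, -2, -64, -47, -38, 31, 12, -15, -7⟩, (37, 15, 41)⟩,
  ⟨⟨-7, 2, -64, -47, 38, 31, 12, 15, -7⟩, (3, 14, 1)⟩,
  ⟨⟨-7, 38, -49, 33, 42, 16, 16, -7, -17⟩, (27, 14, 12)⟩,
  ⟨⟨0, 0, 0, 0, 0, 0, 0, 0, 0⟩, (0, 0, 0)⟩,
  ⟨⟨0, 0, 0, 0, 0, 0, 0, 0, 0⟩, (0, 0, 0)⟩,
  ⟨⟨57, 18, -16, -17, 58, 1, 4, -1, -23⟩, (36, 30, 41)⟩,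
  ⟨⟨53, 22, -49, 27, -18, 44, 4, -17, -11⟩, (6, 42, 11)⟩,
  ⟨⟨0, 0, 0, 0, 0, 0, 0, 0, 0⟩, (0, 0, 0)⟩,
  ⟨⟨0, 0, 0, 0, 0, 0, 0, 0, 0⟩, (0, 0, 0)⟩,
  ⟨⟨27, 18, -71, -53, 22, 4, -4, -17, -7⟩, (1, 6, 11)⟩,
  ⟨⟨57, -18, -41, -17, -58, 16, -4, -1, -19⟩, (7, 13, 41)⟩,
  ⟨⟨0, 0, 0, 0, 0, 0, 0, 0, 0⟩, (0, 0, 0)⟩,
  ⟨⟨0, 0, 0, 0, 0, 0, 0, 0, 0⟩, (0, 0, 0)⟩,
  ⟨⟨7, 38, -56, -33, 42, 49, -16, -7, -1⟩, (27, 14, 12)⟩,
  ⟨⟨7, 2, -71, -47, -38, 16, 12, -15, -5⟩, (3, 29, 42)⟩,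
  ⟨⟨7, -2, -71, -47, 38, 16, 12, 15, -5⟩, (37, 28, 2)⟩,
  ⟨⟨0, 0, 0, 0, 0, 0, 0, 0, 0⟩, (0, 0, 0)⟩,
  ⟨⟨0, 0, 0, 0, 0, 0, 0, 0, 0⟩, (0, 0, 0)⟩,
  ⟨⟨53, -22, -49, 27, 18, 44, 4, 17, -11⟩, (36, 37, 23)⟩,
  ⟨⟨0, 0, 0, 0, 0, 0, 0, 0, 0⟩, (0, 0, 0)⟩,
  ⟨⟨0, 0, 0, 0, 0, 0, 0, 0, 0⟩, (0, 0, 0)⟩,
  ⟨⟨0, 0, 0, 0, 0, 0, 0, 0, 0⟩, (0, 0, 0)⟩,
  ⟨⟨0, 0, 0, 0, 0, 0, 0, 0, 0⟩, (0, 0, 0)⟩,
  ⟨⟨0, 0, 0, 0, 0, 0, 0, 0, 0⟩, (0, 0, 0)⟩,
  ⟨⟨0, 0, 0, 0, 0, 0, 0, 0, 0⟩, (0, 0, 0)⟩,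
  ⟨⟨0, 0, 0, 0, 0, 0, 0, 0, 0⟩, (0, 0, 0)⟩,
  ⟨⟨-7, -38, -49, 33, -42, 16, 16, 7, -17⟩, (28, 40, 22)⟩,
  ⟨⟨57, 18, -41, -17, 58, 16, -4, 1, -19⟩, (2, 16, 24)⟩,
  ⟨⟨0, 0, 0, 0, 0, 0, 0, 0, 0⟩, (0, 0, 0)⟩]

/-- Unit moves. -/
noncomputable def U : List Mv := [mz,
  mz,
  ⟨⟨-1, 0, 1, 0, 1, 0, 0, 0, 1⟩, .nil, (nat_lit 10), (nat_lit 5), (nat_lit 1), (nat_lit 1), (0, 0, 0), [], 6⟩,
  ⟨⟨1, 0, 0, 0, -1, 0, 0, 0, 1⟩, .nil, (nat_lit 10), (nat_lit 10), (nat_lit 2), (nat_lit 1), (0, 0, 0), [], 10⟩,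
  mz,
  mz,
  ⟨⟨-1, 0, 1, 0, -1, 0, 0, 0, 1⟩, .nil, (nat_lit 0), (nat_lit 6), (nat_lit 1), (nat_lit 0), (0, 0, 0), [], 5⟩,
  ⟨⟨-1, 0, 1, 0, -1, 0, 0, 0, 1⟩, .nil, (nat_lit 0), (nat_lit 6), (nat_lit 1), (nat_lit 0), (0, 0, 0), [], 5⟩,
  ⟨⟨1, 0, 0, 0, -1, 0, 0, 0, 1⟩, .nil, (nat_lit 10), (nat_lit 10), (nat_lit 2), (nat_lit 1), (0, 0, 0), [], 10⟩,
  ⟨⟨-1, 0, 1, 0, 1, 0, 0, 0, 1⟩, .nil, (nat_lit 10), (nat_lit 5), (nat_lit 1), (nat_lit 1), (0, 0, 0), [], 6⟩,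
  mz]

theorem v_ty : tyb Dm S.ty1 Clm = true := by decide +kernel

theorem v_ty0 : tyb D0 (S.tys.getD 0 0) Cl0 = true := by decide +kernel

theorem v_ty1 : tyb D1 (S.tys.getD 1 0) Cl1 = true := by decide +kernel

theorem v_msc : mscb S D0 [D1] Dm (nat_lit 18) = true := by decide +kernel

theorem v_mv0 : mvsn (nat_lit 67529355297893819) S D0 [D1] Dm (nat_lit 18) 0 D0 = true := by decide +kernel

theorem v_mv1 : mvsn (nat_lit 67529355297893819) S D0 [D1] Dm (nat_lit 18) 1 D1 = true := by decide +kernel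

theorem v_mm : mmsn (nat_lit 67529355297893819) S D0 [D1] Dm (nat_lit 18) = true := by decide +kernel

theorem v_un : unb S D0 (nat_lit 18) U = true := by decide +kernel

theorem v_ok : okb S.oks [(0, 0, 0), (0, 0, 0), (0, 0, 0), (0, 0, 0), (5, 30, 3), (10, 35, 2), (0, 0, 0), (0, 0, 0), (0, 0, 0)] = true := by decide +kernel

theorem v_part : ∀ d < D0.p, (nat_lit 18).testBit d = true → part S (zc (D0 :: [D1])) d = true := by
  intro d hd h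
  have h1 : ∀ d < 11, (nat_lit 18).testBit d = true → d = 1 ∨ d = 4 := by decide
  rcases h1 d hd h with rfl | rfl
  · exact part_1
  · exact part_4

theorem main (n : ℕ) (ho : Odd n) (hr : ¬ Rep n) (h0 : Split 11 n) (h1 : Split 37 n) (hm : Split 43 n) :
    n ∈ EE := by
  refine concln (W := nat_lit 67529355297893819) (S := S) (P0 := D0) (Pl := [D1]) (Pm := Dm) (cn := nat_lit 18) ?_ Dm_ok v_ty ?_ ?_ v_msc ?_ v_mm v_un v_part v_ok
    n ho hr ?_ hm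
  · simp only [List.forall_mem_cons]
    exact ⟨D0_ok, D1_ok, fun _ h => absurd h (by simp)⟩
  · exact all2 (φ := fun j P => ∃ L, tyb P (S.tys.getD j 0) L = true) ⟨_, v_ty0⟩ ⟨_, v_ty1⟩
  · exact all2 (φ := fun j P => Nat.ble (S.pks.getD j 0) (Nat.pow P.p P.K) = true) (by decide +kernel) (by decide +kernel)
  · exact all2 (φ := fun i P => mvsn (nat_lit 67529355297893819) S D0 [D1] Dm (nat_lit 18) i P = true) v_mv0 v_mv1
  · simp only [List.forall_mem_cons]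
    exact ⟨h0, h1, fun _ h => absurd h (by simp)⟩

end Pool.Agent.Work.MP_9954fe_nt.P11_37_43

namespace Pool.Agent.Work.MP_9954fe_nt.P11_71_37

/-- Dummy move. -/
noncomputable def mz : Mv := ⟨⟨0, 0, 0, 0, 0, 0, 0, 0, 0⟩, .nil, (nat_lit 0), (nat_lit 0), (nat_lit 0), (nat_lit 0), (0, 0, 0), [], 0⟩

/-- Moves. -/
noncomputable def t0_1 : List Mv := [
  ⟨⟨3, 8, -11, -10, -1, 0, 4, -4, -11⟩, (.cons (nat_lit 15242817) (nat_lit 6282365) (nat_lit 2311098) (nat_lit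
 1) (.cons (nat_lit 9129016) (nat_lit 21551949) (nat_lit 20936510) (nat_lit 1) .nil)), (nat_lit 7), (nat_lit
 20), (nat_lit 33), (nat_lit 1), (4, 5, 9), [14831522, 14715103], 5⟩,
  ⟨⟨3, 8, -11, 10, 1, 0, 4, -4, -11⟩, (.cons (nat_lit 6190604) (nat_lit 17063049) (nat_lit 6190617) (nat_lit 1)
 (.cons (nat_lit 1460098) (nat_lit 19580922) (nat_lit 20340034) (nat_lit 1) .nil)), (nat_lit 7), (nat_lit 30),
 (nat_lit 3), (nat_lit 1), (4, 6, 9), [1, 1630165], 12⟩,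
  ⟨⟨1, -12, 0, 10, 1, 0, 4, -4, -11⟩, (.cons (nat_lit 13486901) (nat_lit 18743973) (nat_lit 18743974) (nat_lit
 1) (.cons (nat_lit 24804789) (nat_lit 22454967) (nat_lit 8195739) (nat_lit 1) .nil)), (nat_lit 2), (nat_lit
 18), (nat_lit 17), (nat_lit 1), (5, 6, 9), [4149452, 10216213], 14⟩,
  ⟨⟨1, -12, 0, -10, -1, 0, 4, -4, -11⟩, (.cons (nat_lit 10749318) (nat_lit 19050803) (nat_lit 10749329)
 (nat_lit 1) (.cons (nat_lit 25411680) (nat_lit 21288302) (nat_lit 18553849) (nat_lit 1) .nil)), (nat_lit 36),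
 (nat_lit 12), (nat_lit 36), (nat_lit 1), (5, 5, 9), [14450835, 14164648], 10⟩,
  ⟨⟨1, -12, 0, -10, -1, 0, 4, -4, -11⟩, (.cons (nat_lit 10749318) (nat_lit 19050803) (nat_lit 10749329)
 (nat_lit 1) (.cons (nat_lit 25411680) (nat_lit 21288302) (nat_lit 18553849) (nat_lit 1) .nil)), (nat_lit 36),
 (nat_lit 12), (nat_lit 36), (nat_lit 1), (5, 5, 9), [14450835, 14164648], 10⟩,
  ⟨⟨1, -12, 0, 10, 1, 0, 4, -4, -11⟩, (.cons (nat_lit 13486901) (nat_lit 18743973) (nat_lit 18743974) (nat_lit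
 1) (.cons (nat_lit 24804789) (nat_lit 22454967) (nat_lit 8195739) (nat_lit 1) .nil)), (nat_lit 2), (nat_lit
 18), (nat_lit 17), (nat_lit 1), (5, 6, 9), [4149452, 10216213], 14⟩,
  ⟨⟨1, -12, 0, -10, -1, 0, 4, -4, -11⟩, (.cons (nat_lit 10749318) (nat_lit 19050803) (nat_lit 10749329)
 (nat_lit 1) (.cons (nat_lit 25411680) (nat_lit 21288302) (nat_lit 18553849) (nat_lit 1) .nil)), (nat_lit 36),
 (nat_lit 12), (nat_lit 36), (nat_lit 1), (5, 5, 9), [14450835, 14164648], 10⟩,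
  ⟨⟨3, 8, -11, 10, 1, 0, 4, -4, -11⟩, (.cons (nat_lit 6190604) (nat_lit 17063049) (nat_lit 6190617) (nat_lit 1)
 (.cons (nat_lit 1460098) (nat_lit 19580922) (nat_lit 20340034) (nat_lit 1) .nil)), (nat_lit 7), (nat_lit 30),
 (nat_lit 3), (nat_lit 1), (4, 6, 9), [1, 1630165], 12⟩,
  ⟨⟨1, -12, 0, -10, -1, 0, 4, -4, -11⟩, (.cons (nat_lit 10749318) (nat_lit 19050803) (nat_lit 10749329)
 (nat_lit 1) (.cons (nat_lit 25411680) (nat_lit 21288302) (nat_lit 18553849) (nat_lit 1) .nil)), (nat_lit 36),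
 (nat_lit 12), (nat_lit 36), (nat_lit 1), (5, 5, 9), [14450835, 14164648], 10⟩,
  ⟨⟨3, 8, -11, -10, -1, 0, 4, -4, -11⟩, (.cons (nat_lit 15242817) (nat_lit 6282365) (nat_lit 2311098) (nat_lit
 1) (.cons (nat_lit 9129016) (nat_lit 21551949) (nat_lit 20936510) (nat_lit 1) .nil)), (nat_lit 7), (nat_lit
 20), (nat_lit 33), (nat_lit 1), (4, 5, 9), [14831522, 14715103], 5⟩,
  ⟨⟨1, -12, 0, -10, -1, 0, 4, -4, -11⟩, (.cons (nat_lit 10749318) (nat_lit 19050803) (nat_lit 10749329)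
 (nat_lit 1) (.cons (nat_lit 25411680) (nat_lit 21288302) (nat_lit 18553849) (nat_lit 1) .nil)), (nat_lit 36),
 (nat_lit 12), (nat_lit 36), (nat_lit 1), (5, 5, 9), [14450835, 14164648], 10⟩]

/-- Moves. -/
noncomputable def t0_4 : List Mv := [
  ⟨⟨-11, 0, 0, -4, 5, 12, -2, 8, -5⟩, (.cons (nat_lit 4611151) (nat_lit 18672974) (nat_lit 10896376) (nat_lit
 1) (.cons (nat_lit 25411680) (nat_lit 11861390) (nat_lit 10511518) (nat_lit 1) .nil)), (nat_lit 36), (nat_lit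
 36), (nat_lit 0), (nat_lit 1), (0, 5, 8), [13330250, 18450511], 26⟩,
  ⟨⟨9, 8, -5, 4, -5, -12, -2, 8, -5⟩, (.cons (nat_lit 6586237) (nat_lit 5980849) (nat_lit 18545247) (nat_lit 1)
 (.cons (nat_lit 11358916) (nat_lit 14313341) (nat_lit 11752068) (nat_lit 1) .nil)), (nat_lit 0), (nat_lit 10),
 (nat_lit 1), (nat_lit 1), (8, 6, 8), [4509665, 19743596], 1⟩,
  ⟨⟨9, 8, -5, 4, -5, -12, -2, 8, -5⟩, (.cons (nat_lit 6586237) (nat_lit 5980849) (nat_lit 18545247) (nat_lit 1)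
 (.cons (nat_lit 11358916) (nat_lit 14313341) (nat_lit 11752068) (nat_lit 1) .nil)), (nat_lit 0), (nat_lit 10),
 (nat_lit 1), (nat_lit 1), (8, 6, 8), [4509665, 19743596], 1⟩,
  ⟨⟨9, 8, -5, 4, -5, -12, -2, 8, -5⟩, (.cons (nat_lit 6586237) (nat_lit 5980849) (nat_lit 18545247) (nat_lit 1)
 (.cons (nat_lit 11358916) (nat_lit 14313341) (nat_lit 11752068) (nat_lit 1) .nil)), (nat_lit 0), (nat_lit 10),
 (nat_lit 1), (nat_lit 1), (8, 6, 8), [4509665, 19743596], 1⟩,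
  ⟨⟨9, 8, -5, -4, 5, 12, -2, 8, -5⟩, (.cons (nat_lit 19404713) (nat_lit 11515759) (nat_lit 5642825) (nat_lit 1)
 (.cons (nat_lit 18234851) (nat_lit 14860224) (nat_lit 24491044) (nat_lit 1) .nil)), (nat_lit 15), (nat_lit 7),
 (nat_lit 23), (nat_lit 1), (8, 5, 8), [18598650, 11470103], 15⟩,
  ⟨⟨-11, 0, 0, 4, -5, -12, -2, 8, -5⟩, (.cons (nat_lit 14857472) (nat_lit 1937884) (nat_lit 16472565) (nat_lit
 1) (.cons (nat_lit 24112090) (nat_lit 15740476) (nat_lit 1556137) (nat_lit 1) .nil)), (nat_lit 20), (nat_lit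
 25), (nat_lit 18), (nat_lit 1), (0, 6, 8), [9454230, 6640485], 31⟩,
  ⟨⟨9, 8, -5, 4, -5, -12, -2, 8, -5⟩, (.cons (nat_lit 6586237) (nat_lit 5980849) (nat_lit 18545247) (nat_lit 1)
 (.cons (nat_lit 11358916) (nat_lit 14313341) (nat_lit 11752068) (nat_lit 1) .nil)), (nat_lit 0), (nat_lit 10),
 (nat_lit 1), (nat_lit 1), (8, 6, 8), [4509665, 19743596], 1⟩,
  ⟨⟨9, 8, -5, -4, 5, 12, -2, 8, -5⟩, (.cons (nat_lit 19404713) (nat_lit 11515759) (nat_lit 5642825) (nat_lit 1)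
 (.cons (nat_lit 18234851) (nat_lit 14860224) (nat_lit 24491044) (nat_lit 1) .nil)), (nat_lit 15), (nat_lit 7),
 (nat_lit 23), (nat_lit 1), (8, 5, 8), [18598650, 11470103], 15⟩,
  ⟨⟨-11, 0, 0, 4, -5, -12, -2, 8, -5⟩, (.cons (nat_lit 14857472) (nat_lit 1937884) (nat_lit 16472565) (nat_lit
 1) (.cons (nat_lit 24112090) (nat_lit 15740476) (nat_lit 1556137) (nat_lit 1) .nil)), (nat_lit 20), (nat_lit
 25), (nat_lit 18), (nat_lit 1), (0, 6, 8), [9454230, 6640485], 31⟩,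
  ⟨⟨9, 8, -5, 4, -5, -12, -2, 8, -5⟩, (.cons (nat_lit 6586237) (nat_lit 5980849) (nat_lit 18545247) (nat_lit 1)
 (.cons (nat_lit 11358916) (nat_lit 14313341) (nat_lit 11752068) (nat_lit 1) .nil)), (nat_lit 0), (nat_lit 10),
 (nat_lit 1), (nat_lit 1), (8, 6, 8), [4509665, 19743596], 1⟩,
  ⟨⟨9, 8, -5, 4, -5, -12, -2, 8, -5⟩, (.cons (nat_lit 6586237) (nat_lit 5980849) (nat_lit 18545247) (nat_lit 1)
 (.cons (nat_lit 11358916) (nat_lit 14313341) (nat_lit 11752068) (nat_lit 1) .nil)), (nat_lit 0), (nat_lit 10),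
 (nat_lit 1), (nat_lit 1), (8, 6, 8), [4509665, 19743596], 1⟩]

/-- Moves. -/
noncomputable def t1_1 : List Mv := [
  mz,
  ⟨⟨63, 40, -56, 10, 21, 70, -12, 60, -13⟩, (.cons (nat_lit 19487170) (nat_lit 14822675) (nat_lit 16775829)
 (nat_lit 1) (.cons (nat_lit 13358189) (nat_lit 609709) (nat_lit 13358260) (nat_lit 1) .nil)), (nat_lit 36),
 (nat_lit 34), (nat_lit 1), (nat_lit 1), (31, 50, 11), [2277997, 16345884], 6⟩,
  mz,
  ⟨⟨65, -24, -72, -4, 55, -48, -10, -40, -49⟩, (.cons (nat_lit 19487170) (nat_lit 10705288) (nat_lit 12880933)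
 (nat_lit 1) (.cons (nat_lit 19071543) (nat_lit 14234576) (nat_lit 14827765) (nat_lit 1) .nil)), (nat_lit 36),
 (nat_lit 34), (nat_lit 26), (nat_lit 1), (37, 1, 38), [11313659, 22101516], 9⟩,
  ⟨⟨27, 68, 16, 64, -15, -62, -6, 48, -43⟩, (.cons (nat_lit 6723569) (nat_lit 6780974) (nat_lit 2213114)
 (nat_lit 1) (.cons (nat_lit 2338641) (nat_lit 3232467) (nat_lit 10640152) (nat_lit 1) .nil)), (nat_lit 5),
 (nat_lit 30), (nat_lit 10), (nat_lit 1), (60, 16, 34), [7749642, 10006727], 34⟩,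
  ⟨⟨-33, 20, -59, -64, -15, 62, -6, -48, -43⟩, (.cons (nat_lit 1008733) (nat_lit 11261895) (nat_lit 8257783)
 (nat_lit 1) (.cons (nat_lit 12114351) (nat_lit 15049681) (nat_lit 922430) (nat_lit 1) .nil)), (nat_lit 10),
 (nat_lit 27), (nat_lit 12), (nat_lit 1), (23, 36, 30), [11881629, 16270265], 20⟩,
  mz,
  ⟨⟨-29, 72, 20, 56, 25, -68, -38, 16, -35⟩, (.cons (nat_lit 17356408) (nat_lit 8440319) (nat_lit 17236426)
 (nat_lit 1) (.cons (nat_lit 10822884) (nat_lit 1507447) (nat_lit 12237693) (nat_lit 1) .nil)), (nat_lit 17),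
 (nat_lit 20), (nat_lit 10), (nat_lit 1), (33, 44, 31), [3995009, 23280106], 31⟩,
  ⟨⟨3, 40, -76, -64, -25, 12, 26, -32, -67⟩, (.cons (nat_lit 11065391) (nat_lit 7800664) (nat_lit 19422456)
 (nat_lit 1) (.cons (nat_lit 8567285) (nat_lit 23733055) (nat_lit 15919663) (nat_lit 1) .nil)), (nat_lit 11),
 (nat_lit 11), (nat_lit 11), (nat_lit 1), (14, 9, 3), [3386802, 9066087], 3⟩,
  mz,
  mz,
  ⟨⟨33, -20, -92, 64, 15, -2, 6, 48, -49⟩, (.cons (nat_lit 4010012) (nat_lit 2532343) (nat_lit 14647010)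
 (nat_lit 1) (.cons (nat_lit 18710210) (nat_lit 6171651) (nat_lit 15890191) (nat_lit 1) .nil)), (nat_lit 34),
 (nat_lit 7), (nat_lit 4), (nat_lit 1), (67, 3, 38), [3619091, 11384974], 18⟩,
  ⟨⟨-51, -52, -5, 44, -15, -82, -42, 24, -25⟩, (.cons (nat_lit 7268776) (nat_lit 15334113) (nat_lit 1) (nat_lit
 11260348) (.cons (nat_lit 4317327) (nat_lit 11372607) (nat_lit 1670991) (nat_lit 1) .nil)), (nat_lit 26),
 (nat_lit 1), (nat_lit 21), (nat_lit 1), (61, 49, 21), [5521707, 3870704], 15⟩,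
  mz,
  mz,
  ⟨⟨51, -52, -56, -44, -15, -38, 42, 24, -67⟩, (.cons (nat_lit 14263008) (nat_lit 220795) (nat_lit 10063616)
 (nat_lit 1) (.cons (nat_lit 22459808) (nat_lit 20579095) (nat_lit 7179908) (nat_lit 1) .nil)), (nat_lit 16),
 (nat_lit 9), (nat_lit 1), (nat_lit 1), (24, 67, 49), [1752297, 4105919], 16⟩,
  ⟨⟨17, 24, -89, -36, -55, -12, 54, -24, -53⟩, (.cons (nat_lit 17134297) (nat_lit 9271370) (nat_lit 6047713)
 (nat_lit 1) (.cons (nat_lit 4333107) (nat_lit 13499443) (nat_lit 3248065) (nat_lit 1) .nil)), (nat_lit 28),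
 (nat_lit 28), (nat_lit 3), (nat_lit 1), (7, 52, 64), [17912898, 21602980], 17⟩,
  mz,
  ⟨⟨9, 56, -64, -56, -25, -12, 38, -16, -73⟩, (.cons (nat_lit 7761583) (nat_lit 11572196) (nat_lit 1857687)
 (nat_lit 1) (.cons (nat_lit 13624382) (nat_lit 3901849) (nat_lit 14862921) (nat_lit 1) .nil)), (nat_lit 5),
 (nat_lit 4), (nat_lit 22), (nat_lit 1), (56, 46, 55), [14646834, 24020974], 10⟩,
  ⟨⟨-61, -48, 25, 44, -55, -32, -22, -8, -55⟩, (.cons (nat_lit 19107901) (nat_lit 2088257) (nat_lit 15053945)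
 (nat_lit 1) (.cons (nat_lit 5844668) (nat_lit 16145889) (nat_lit 4332903) (nat_lit 1) .nil)), (nat_lit 3),
 (nat_lit 17), (nat_lit 26), (nat_lit 1), (9, 68, 37), [2611676, 3954651], 15⟩,
  mz,
  mz,
  ⟨⟨37, 48, -73, -36, 55, 48, 54, 24, -1⟩, (.cons (nat_lit 13269006) (nat_lit 3288137) (nat_lit 16761830)
 (nat_lit 1) (.cons (nat_lit 1983276) (nat_lit 1040204) (nat_lit 20575771) (nat_lit 1) .nil)), (nat_lit 4),
 (nat_lit 36), (nat_lit 25), (nat_lit 1), (15, 66, 43), [17441232, 16419923], 24⟩,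
  ⟨⟨-61, 48, 25, 44, 55, -32, -22, 8, -55⟩, (.cons (nat_lit 3070413) (nat_lit 15006454) (nat_lit 2447553)
 (nat_lit 1) (.cons (nat_lit 3652723) (nat_lit 12157983) (nat_lit 4018629) (nat_lit 1) .nil)), (nat_lit 2),
 (nat_lit 11), (nat_lit 27), (nat_lit 1), (13, 43, 14), [12939324, 9765772], 34⟩,
  ⟨⟨-39, 40, -41, 44, 55, -12, 22, -8, -77⟩, (.cons (nat_lit 11056219) (nat_lit 8979269) (nat_lit 2642504)
 (nat_lit 1) (.cons (nat_lit 14495468) (nat_lit 9396165) (nat_lit 2244716) (nat_lit 1) .nil)), (nat_lit 19),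
 (nat_lit 13), (nat_lit 5), (nat_lit 1), (2, 56, 28), [5194340, 13223009], 27⟩,
  mz,
  ⟨⟨51, -4, 40, 10, -69, -20, 60, 12, -49⟩, (.cons (nat_lit 5643181) (nat_lit 6232848) (nat_lit 3167590)
 (nat_lit 1) (.cons (nat_lit 19362272) (nat_lit 17138793) (nat_lit 21029141) (nat_lit 1) .nil)), (nat_lit 17),
 (nat_lit 10), (nat_lit 26), (nat_lit 1), (60, 41, 33), [10859304, 25123588], 26⟩,
  mz,
  mz,
  ⟨⟨9, 28, -85, 70, -11, -30, -4, -44, -49⟩, (.cons (nat_lit 5410276) (nat_lit 7213865) (nat_lit 8490252)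
 (nat_lit 1) (.cons (nat_lit 14168495) (nat_lit 2607794) (nat_lit 8262250) (nat_lit 1) .nil)), (nat_lit 13),
 (nat_lit 24), (nat_lit 3), (nat_lit 1), (40, 35, 69), [18438891, 2160042], 29⟩,
  mz,
  ⟨⟨-11, 72, -25, 50, -11, -80, -44, 4, -29⟩, (.cons (nat_lit 4310101) (nat_lit 15605462) (nat_lit 4016701)
 (nat_lit 1) (.cons (nat_lit 12407002) (nat_lit 24376873) (nat_lit 14098317) (nat_lit 1) .nil)), (nat_lit 20),
 (nat_lit 1), (nat_lit 14), (nat_lit 1), (44, 13, 34), [16470312, 14269590], 19⟩,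
  mz,
  ⟨⟨-29, -72, 20, 56, -25, -68, -38, -16, -35⟩, (.cons (nat_lit 2327718) (nat_lit 10189628) (nat_lit 2438540)
 (nat_lit 1) (.cons (nat_lit 16218424) (nat_lit 14318191) (nat_lit 18958389) (nat_lit 1) .nil)), (nat_lit 27),
 (nat_lit 36), (nat_lit 36), (nat_lit 1), (27, 36, 6), [17890178, 5865947], 4⟩,
  ⟨⟨75, 20, -32, 10, -21, -80, 12, 60, -25⟩, (.cons (nat_lit 10075189) (nat_lit 5602147) (nat_lit 698786)
 (nat_lit 1) (.cons (nat_lit 10392680) (nat_lit 18212453) (nat_lit 8524758) (nat_lit 1) .nil)), (nat_lit 1),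
 (nat_lit 30), (nat_lit 1), (nat_lit 0), (30, 4, 19), [3947904, 12331447], 16⟩,
  mz,
  ⟨⟨3, -40, -76, -64, 25, 12, 26, 32, -67⟩, (.cons (nat_lit 5641225) (nat_lit 11904547) (nat_lit 10084871)
 (nat_lit 1) (.cons (nat_lit 11498147) (nat_lit 9235268) (nat_lit 8778192) (nat_lit 1) .nil)), (nat_lit 26),
 (nat_lit 16), (nat_lit 21), (nat_lit 1), (58, 17, 53), [459773, 10429235], 5⟩,
  mz,
  ⟨⟨17, -24, -89, 36, -55, 12, 54, 24, -53⟩, (.cons (nat_lit 15832887) (nat_lit 6428185) (nat_lit 14872389)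
 (nat_lit 1) (.cons (nat_lit 12534630) (nat_lit 900075) (nat_lit 21681832) (nat_lit 1) .nil)), (nat_lit 28),
 (nat_lit 30), (nat_lit 25), (nat_lit 1), (5, 44, 66), [3676940, 6215286], 17⟩,
  ⟨⟨-23, -72, 32, 64, -25, -52, -26, -32, -41⟩, (.cons (nat_lit 12166031) (nat_lit 2383509) (nat_lit 17141886)
 (nat_lit 1) (.cons (nat_lit 11744953) (nat_lit 12433497) (nat_lit 9872230) (nat_lit 1) .nil)), (nat_lit 15),
 (nat_lit 14), (nat_lit 3), (nat_lit 1), (21, 28, 33), [6198010, 8080566], 30⟩,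
  mz,
  mz,
  ⟨⟨75, 16, -52, 4, -55, -52, 10, 40, -59⟩, (.cons (nat_lit 8679468) (nat_lit 15449898) (nat_lit 16061671)
 (nat_lit 1) (.cons (nat_lit 14668271) (nat_lit 20528607) (nat_lit 9658954) (nat_lit 1) .nil)), (nat_lit 0),
 (nat_lit 11), (nat_lit 6), (nat_lit 1), (5, 5, 48), [5680671, 469455], 13⟩,
  ⟨⟨11, -72, -36, -50, 11, -30, 44, -4, -73⟩, (.cons (nat_lit 16857223) (nat_lit 5581058) (nat_lit 6460723)
 (nat_lit 1) (.cons (nat_lit 11361759) (nat_lit 10080610) (nat_lit 23614597) (nat_lit 1) .nil)), (nat_lit 14),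
 (nat_lit 12), (nat_lit 14), (nat_lit 1), (69, 22, 63), [19451689, 6446590], 18⟩,
  ⟨⟨-39, -40, -41, 44, -55, -12, 22, 8, -77⟩, (.cons (nat_lit 2319382) (nat_lit 5097260) (nat_lit 16142290)
 (nat_lit 1) (.cons (nat_lit 15706360) (nat_lit 10952460) (nat_lit 6076996) (nat_lit 1) .nil)), (nat_lit 25),
 (nat_lit 12), (nat_lit 13), (nat_lit 1), (46, 10, 5), [1924572, 19145410], 14⟩,
  mz,
  ⟨⟨51, 52, -56, -44, 15, -38, 42, -24, -67⟩, (.cons (nat_lit 7507418) (nat_lit 10555763) (nat_lit 16634926)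
 (nat_lit 1) (.cons (nat_lit 8736094) (nat_lit 17176897) (nat_lit 20721628) (nat_lit 1) .nil)), (nat_lit 34),
 (nat_lit 3), (nat_lit 34), (nat_lit 1), (52, 15, 47), [3234157, 2474823], 18⟩,
  ⟨⟨9, -16, 80, -10, -69, -10, 60, -12, -11⟩, (.cons (nat_lit 19487170) (nat_lit 6187135) (nat_lit 2222357)
 (nat_lit 1) (.cons (nat_lit 13312123) (nat_lit 11384614) (nat_lit 7312001) (nat_lit 1) .nil)), (nat_lit 36),
 (nat_lit 11), (nat_lit 5), (nat_lit 1), (33, 58, 7), [14045879, 506377], 20⟩,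
  ⟨⟨9, -16, -89, -10, -69, 20, 60, -12, -49⟩, (.cons (nat_lit 5483453) (nat_lit 16528987) (nat_lit 7830203)
 (nat_lit 1) (.cons (nat_lit 9344702) (nat_lit 5722734) (nat_lit 3081715) (nat_lit 1) .nil)), (nat_lit 2),
 (nat_lit 22), (nat_lit 17), (nat_lit 1), (19, 42, 32), [2372554, 17603384], 31⟩,
  ⟨⟨9, -56, -64, -56, 25, -12, 38, 16, -73⟩, (.cons (nat_lit 13108190) (nat_lit 6585274) (nat_lit 18010486)
 (nat_lit 1) (.cons (nat_lit 23653989) (nat_lit 24861180) (nat_lit 21281576) (nat_lit 1) .nil)), (nat_lit 26),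
 (nat_lit 25), (nat_lit 9), (nat_lit 1), (4, 54, 9), [287733, 5232135], 5⟩,
  ⟨⟨-75, 16, 23, 4, 55, 48, -10, 40, -49⟩, (.cons (nat_lit 15944639) (nat_lit 1007359) (nat_lit 6358078)
 (nat_lit 1) (.cons (nat_lit 4039374) (nat_lit 13313178) (nat_lit 1) (nat_lit 25319097) .nil)), (nat_lit 14),
 (nat_lit 6), (nat_lit 0), (nat_lit 1), (26, 45, 65), [6097407, 14405364], 32⟩,
  ⟨⟨9, -76, -20, 44, 15, -82, -42, -24, -25⟩, (.cons (nat_lit 17356333) (nat_lit 7302584) (nat_lit 6970149)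
 (nat_lit 1) (.cons (nat_lit 23868292) (nat_lit 390859) (nat_lit 12737451) (nat_lit 1) .nil)), (nat_lit 25),
 (nat_lit 5), (nat_lit 2), (nat_lit 1), (1, 68, 19), [4383625, 19420683], 8⟩,
  mz,
  ⟨⟨13, -72, 23, -70, -11, 40, 4, -44, -53⟩, (.cons (nat_lit 12728032) (nat_lit 6648139) (nat_lit 8704962)
 (nat_lit 1) (.cons (nat_lit 8154356) (nat_lit 17891731) (nat_lit 3508630) (nat_lit 1) .nil)), (nat_lit 21),
 (nat_lit 10), (nat_lit 36), (nat_lit 1), (14, 12, 48), [12985735, 10645685], 18⟩,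
  ⟨⟨9, 16, 80, -10, 69, -10, 60, 12, -11⟩, (.cons (nat_lit 16131597) (nat_lit 3532576) (nat_lit 15146668)
 (nat_lit 1) (.cons (nat_lit 7016208) (nat_lit 2447189) (nat_lit 7473851) (nat_lit 1) .nil)), (nat_lit 24),
 (nat_lit 13), (nat_lit 13), (nat_lit 1), (58, 46, 8), [17094255, 14008967], 9⟩,
  ⟨⟨75, -20, -32, 10, 21, -80, 12, -60, -25⟩, (.cons (nat_lit 19487170) (nat_lit 18937752) (nat_lit 15983343)
 (nat_lit 1) (.cons (nat_lit 21219829) (nat_lit 22655989) (nat_lit 5006122) (nat_lit 1) .nil)), (nat_lit 36),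
 (nat_lit 10), (nat_lit 33), (nat_lit 1), (52, 59, 14), [8570261, 14756622], 6⟩,
  mz,
  ⟨⟨-11, -72, -25, 50, 11, -80, -44, -4, -29⟩, (.cons (nat_lit 2794190) (nat_lit 12074546) (nat_lit 5569915)
 (nat_lit 1) (.cons (nat_lit 4036949) (nat_lit 1612015) (nat_lit 21865543) (nat_lit 1) .nil)), (nat_lit 34),
 (nat_lit 26), (nat_lit 23), (nat_lit 1), (38, 8, 10), [1084134, 2190974], 10⟩,
  ⟨⟨-75, -20, 43, 10, -21, 70, -12, -60, -13⟩, (.cons (nat_lit 15441847) (nat_lit 5918786) (nat_lit 15412629)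
 (nat_lit 1) (.cons (nat_lit 11799607) (nat_lit 13948617) (nat_lit 23252280) (nat_lit 1) .nil)), (nat_lit 30),
 (nat_lit 11), (nat_lit 27), (nat_lit 1), (2, 66, 6), [15270375, 24896405], 13⟩,
  mz,
  mz,
  mz,
  ⟨⟨11, 72, -36, 50, 11, 30, 44, 4, -73⟩, (.cons (nat_lit 47975) (nat_lit 14708071) (nat_lit 5627860) (nat_lit
 1) (.cons (nat_lit 19620) (nat_lit 22872879) (nat_lit 9533623) (nat_lit 1) .nil)), (nat_lit 1), (nat_lit 21),
 (nat_lit 11), (nat_lit 1), (4, 44, 16), [13438745, 15710472], 24⟩,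
  mz,
  ⟨⟨-13, 72, 36, 70, 11, -30, -4, 44, -49⟩, (.cons (nat_lit 3115104) (nat_lit 13343582) (nat_lit 10859487)
 (nat_lit 1) (.cons (nat_lit 10591511) (nat_lit 23391675) (nat_lit 21523246) (nat_lit 1) .nil)), (nat_lit 1),
 (nat_lit 16), (nat_lit 26), (nat_lit 1), (35, 30, 49), [9569272, 22922958], 24⟩,
  ⟨⟨75, -16, -52, 4, 55, -52, 10, -40, -59⟩, (.cons (nat_lit 19487170) (nat_lit 98668) (nat_lit 15858388)
 (nat_lit 1) (.cons (nat_lit 11266956) (nat_lit 24683539) (nat_lit 24803122) (nat_lit 1) .nil)), (nat_lit 36),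
 (nat_lit 34), (nat_lit 15), (nat_lit 1), (51, 51, 21), [11919986, 2618825], 21⟩,
  mz,
  ⟨⟨-27, -68, 43, 64, -15, -2, 6, -48, -49⟩, (.cons (nat_lit 8734636) (nat_lit 6527203) (nat_lit 15957762)
 (nat_lit 1) (.cons (nat_lit 10253048) (nat_lit 24260685) (nat_lit 19286469) (nat_lit 1) .nil)), (nat_lit 33),
 (nat_lit 13), (nat_lit 22), (nat_lit 1), (60, 55, 34), [884852, 19951550], 18⟩,
  ⟨⟨-9, -28, -76, -70, 11, 40, 4, 44, -53⟩, (.cons (nat_lit 6528168) (nat_lit 17808057) (nat_lit 8622308)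
 (nat_lit 1) (.cons (nat_lit 12600248) (nat_lit 17153099) (nat_lit 4564270) (nat_lit 1) .nil)), (nat_lit 14),
 (nat_lit 29), (nat_lit 16), (nat_lit 1), (8, 7, 28), [15547954, 19065719], 18⟩,
  ⟨⟨-23, 72, 32, 64, 25, -52, -26, 32, -41⟩, (.cons (nat_lit 19389494) (nat_lit 8425000) (nat_lit 4840061)
 (nat_lit 1) (.cons (nat_lit 9047709) (nat_lit 17368815) (nat_lit 11049736) (nat_lit 1) .nil)), (nat_lit 17),
 (nat_lit 26), (nat_lit 2), (nat_lit 1), (27, 36, 12), [4477711, 20008534], 31⟩,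
  ⟨⟨17, 24, 72, 36, 55, -48, 54, -24, -1⟩, (.cons (nat_lit 19487170) (nat_lit 4051132) (nat_lit 5181124)
 (nat_lit 1) (.cons (nat_lit 18432159) (nat_lit 4681861) (nat_lit 11154038) (nat_lit 1) .nil)), (nat_lit 0),
 (nat_lit 21), (nat_lit 1), (nat_lit 0), (30, 51, 41), [18181992, 22737215], 11⟩]

/-- Moves. -/
noncomputable def t1_4 : List Mv := [
  mz,
  ⟨⟨63, 40, -56, 10, 21, 70, -12, 60, -13⟩, (.cons (nat_lit 19487170) (nat_lit 14822675) (nat_lit 16775829)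
 (nat_lit 1) (.cons (nat_lit 13358189) (nat_lit 609709) (nat_lit 13358260) (nat_lit 1) .nil)), (nat_lit 36),
 (nat_lit 34), (nat_lit 1), (nat_lit 1), (31, 50, 11), [2277997, 16345884], 6⟩,
  mz,
  ⟨⟨65, -24, -72, -4, 55, -48, -10, -40, -49⟩, (.cons (nat_lit 19487170) (nat_lit 10705288) (nat_lit 12880933)
 (nat_lit 1) (.cons (nat_lit 19071543) (nat_lit 14234576) (nat_lit 14827765) (nat_lit 1) .nil)), (nat_lit 36),
 (nat_lit 34), (nat_lit 26), (nat_lit 1), (37, 1, 38), [11313659, 22101516], 9⟩,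
  ⟨⟨-33, -20, -59, 64, -15, -62, -6, 48, -43⟩, (.cons (nat_lit 8399462) (nat_lit 18588351) (nat_lit 19386751)
 (nat_lit 1) (.cons (nat_lit 13395830) (nat_lit 9405980) (nat_lit 22751369) (nat_lit 1) .nil)), (nat_lit 9),
 (nat_lit 18), (nat_lit 29), (nat_lit 1), (45, 16, 34), [17908036, 2007429], 15⟩,
  ⟨⟨27, -68, 16, 64, 15, -62, -6, -48, -43⟩, (.cons (nat_lit 8914787) (nat_lit 761259) (nat_lit 3618450)
 (nat_lit 1) (.cons (nat_lit 14436313) (nat_lit 12335421) (nat_lit 13733103) (nat_lit 1) .nil)), (nat_lit 12),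
 (nat_lit 1), (nat_lit 36), (nat_lit 1), (7, 35, 30), [265255, 1072123], 2⟩,
  mz,
  ⟨⟨-29, 72, 20, 56, 25, -68, -38, 16, -35⟩, (.cons (nat_lit 17356408) (nat_lit 8440319) (nat_lit 17236426)
 (nat_lit 1) (.cons (nat_lit 10822884) (nat_lit 1507447) (nat_lit 12237693) (nat_lit 1) .nil)), (nat_lit 17),
 (nat_lit 20), (nat_lit 10), (nat_lit 1), (33, 44, 31), [3995009, 23280106], 31⟩,
  ⟨⟨3, 40, -76, 64, 25, -12, 26, -32, -67⟩, (.cons (nat_lit 146513) (nat_lit 439671) (nat_lit 1494523) (nat_lit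
 1) (.cons (nat_lit 17133532) (nat_lit 17207597) (nat_lit 20508952) (nat_lit 1) .nil)), (nat_lit 24), (nat_lit
 1), (nat_lit 19), (nat_lit 1), (14, 62, 3), [5203057, 13037207], 22⟩,
  mz,
  mz,
  ⟨⟨33, -20, -92, 64, 15, -2, 6, 48, -49⟩, (.cons (nat_lit 4010012) (nat_lit 2532343) (nat_lit 14647010)
 (nat_lit 1) (.cons (nat_lit 18710210) (nat_lit 6171651) (nat_lit 15890191) (nat_lit 1) .nil)), (nat_lit 34),
 (nat_lit 7), (nat_lit 4), (nat_lit 1), (67, 3, 38), [3619091, 11384974], 18⟩,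
  ⟨⟨9, 76, -20, -44, 15, 82, -42, 24, -25⟩, (.cons (nat_lit 1426306) (nat_lit 12155550) (nat_lit 5989635)
 (nat_lit 1) (.cons (nat_lit 21817829) (nat_lit 13562732) (nat_lit 23698931) (nat_lit 1) .nil)), (nat_lit 12),
 (nat_lit 27), (nat_lit 26), (nat_lit 1), (31, 22, 21), [1606276, 14313382], 2⟩,
  mz,
  mz,
  ⟨⟨-9, 76, -11, -44, -15, -38, 42, 24, -67⟩, (.cons (nat_lit 9162268) (nat_lit 1033786) (nat_lit 9325963)
 (nat_lit 1) (.cons (nat_lit 4715657) (nat_lit 1928413) (nat_lit 21356184) (nat_lit 1) .nil)), (nat_lit 9),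
 (nat_lit 31), (nat_lit 24), (nat_lit 1), (25, 67, 49), [7885144, 21092642], 15⟩,
  ⟨⟨17, 24, -89, -36, -55, -12, 54, -24, -53⟩, (.cons (nat_lit 17134297) (nat_lit 9271370) (nat_lit 6047713)
 (nat_lit 1) (.cons (nat_lit 4333107) (nat_lit 13499443) (nat_lit 3248065) (nat_lit 1) .nil)), (nat_lit 28),
 (nat_lit 28), (nat_lit 3), (nat_lit 1), (7, 52, 64), [17912898, 21602980], 17⟩,
  mz,
  ⟨⟨9, 56, -64, -56, -25, -12, 38, -16, -73⟩, (.cons (nat_lit 7761583) (nat_lit 11572196) (nat_lit 1857687)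
 (nat_lit 1) (.cons (nat_lit 13624382) (nat_lit 3901849) (nat_lit 14862921) (nat_lit 1) .nil)), (nat_lit 5),
 (nat_lit 4), (nat_lit 22), (nat_lit 1), (56, 46, 55), [14646834, 24020974], 10⟩,
  ⟨⟨39, 40, -80, 44, -55, -32, -22, -8, -55⟩, (.cons (nat_lit 19487170) (nat_lit 16424345) (nat_lit 17047381)
 (nat_lit 1) (.cons (nat_lit 13611479) (nat_lit 25316420) (nat_lit 18103337) (nat_lit 1) .nil)), (nat_lit 36),
 (nat_lit 13), (nat_lit 2), (nat_lit 1), (28, 68, 37), [12243890, 17278052], 7⟩,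
  mz,
  mz,
  ⟨⟨17, -24, 72, 36, -55, -48, 54, 24, -1⟩, (.cons (nat_lit 8052195) (nat_lit 3658887) (nat_lit 1141355)
 (nat_lit 1) (.cons (nat_lit 8656205) (nat_lit 4264002) (nat_lit 8449541) (nat_lit 1) .nil)), (nat_lit 28),
 (nat_lit 10), (nat_lit 33), (nat_lit 1), (28, 5, 43), [4541998, 8136690], 18⟩,
  ⟨⟨-61, 48, 25, -44, -55, 32, -22, 8, -55⟩, (.cons (nat_lit 1516195) (nat_lit 15995532) (nat_lit 14056558)
 (nat_lit 1) (.cons (nat_lit 21199684) (nat_lit 13118092) (nat_lit 19975571) (nat_lit 1) .nil)), (nat_lit 3),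
 (nat_lit 1), (nat_lit 35), (nat_lit 1), (13, 28, 14), [15633135, 15857722], 15⟩,
  ⟨⟨61, -48, -36, -44, -55, 12, 22, -8, -77⟩, (.cons (nat_lit 19487170) (nat_lit 4730454) (nat_lit 15401814)
 (nat_lit 1) (.cons (nat_lit 21447423) (nat_lit 8988375) (nat_lit 11481846) (nat_lit 1) .nil)), (nat_lit 36),
 (nat_lit 22), (nat_lit 10), (nat_lit 1), (26, 15, 28), [7326483, 22545061], 34⟩,
  mz,
  ⟨⟨51, -4, 40, 10, -69, -20, 60, 12, -49⟩, (.cons (nat_lit 5643181) (nat_lit 6232848) (nat_lit 3167590)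
 (nat_lit 1) (.cons (nat_lit 19362272) (nat_lit 17138793) (nat_lit 21029141) (nat_lit 1) .nil)), (nat_lit 17),
 (nat_lit 10), (nat_lit 26), (nat_lit 1), (60, 41, 33), [10859304, 25123588], 26⟩,
  mz,
  mz,
  ⟨⟨-13, -72, 36, 70, -11, -30, -4, -44, -49⟩, (.cons (nat_lit 3337527) (nat_lit 15156698) (nat_lit 1) (nat_lit
 9653919) (.cons (nat_lit 15855782) (nat_lit 18995683) (nat_lit 1) (nat_lit 2553941) .nil)), (nat_lit 31),
 (nat_lit 33), (nat_lit 27), (nat_lit 1), (29, 35, 69), [5533332, 20693009], 10⟩,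
  mz,
  ⟨⟨-33, -68, -4, -50, 11, 80, -44, 4, -29⟩, (.cons (nat_lit 321139) (nat_lit 18969276) (nat_lit 11732920)
 (nat_lit 1) (.cons (nat_lit 48353) (nat_lit 1158126) (nat_lit 17032497) (nat_lit 1) .nil)), (nat_lit 8),
 (nat_lit 27), (nat_lit 20), (nat_lit 1), (61, 58, 34), [10975570, 14392300], 5⟩,
  mz,
  ⟨⟨-29, -72, 20, -56, 25, 68, -38, -16, -35⟩, (.cons (nat_lit 16587854) (nat_lit 1808671) (nat_lit 4513722)
 (nat_lit 1) (.cons (nat_lit 23585245) (nat_lit 22731201) (nat_lit 2745648) (nat_lit 1) .nil)), (nat_lit 10),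
 (nat_lit 25), (nat_lit 12), (nat_lit 1), (27, 35, 6), [18290095, 23320108], 19⟩,
  ⟨⟨-63, 40, 7, 10, -21, -80, 12, 60, -25⟩, (.cons (nat_lit 9059142) (nat_lit 3549427) (nat_lit 15254433)
 (nat_lit 1) (.cons (nat_lit 19164372) (nat_lit 22624164) (nat_lit 24685702) (nat_lit 1) .nil)), (nat_lit 21),
 (nat_lit 28), (nat_lit 25), (nat_lit 1), (60, 4, 19), [16219429, 423336], 35⟩,
  mz,
  ⟨⟨3, -40, -76, 64, -25, -12, 26, 32, -67⟩, (.cons (nat_lit 13154014) (nat_lit 10135094) (nat_lit 12820867)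
 (nat_lit 1) (.cons (nat_lit 3786345) (nat_lit 16639266) (nat_lit 21351260) (nat_lit 1) .nil)), (nat_lit 5),
 (nat_lit 35), (nat_lit 30), (nat_lit 1), (58, 54, 53), [16442683, 13984265], 10⟩,
  mz,
  ⟨⟨37, 48, 36, 36, -55, 12, 54, 24, -53⟩, (.cons (nat_lit 19487170) (nat_lit 9298663) (nat_lit 15667811)
 (nat_lit 1) (.cons (nat_lit 8980415) (nat_lit 20497029) (nat_lit 20298182) (nat_lit 1) .nil)), (nat_lit 36),
 (nat_lit 18), (nat_lit 34), (nat_lit 1), (61, 44, 66), [18640298, 699784], 26⟩,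
  ⟨⟨-23, -72, 32, 64, -25, -52, -26, -32, -41⟩, (.cons (nat_lit 12166031) (nat_lit 2383509) (nat_lit 17141886)
 (nat_lit 1) (.cons (nat_lit 11744953) (nat_lit 12433497) (nat_lit 9872230) (nat_lit 1) .nil)), (nat_lit 15),
 (nat_lit 14), (nat_lit 3), (nat_lit 1), (21, 28, 33), [6198010, 8080566], 30⟩,
  mz,
  mz,
  ⟨⟨-65, 24, -7, -4, 55, 52, 10, 40, -59⟩, (.cons (nat_lit 13358771) (nat_lit 2097142) (nat_lit 12954648)
 (nat_lit 1) (.cons (nat_lit 17346011) (nat_lit 5792644) (nat_lit 4291906) (nat_lit 1) .nil)), (nat_lit 8),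
 (nat_lit 26), (nat_lit 0), (nat_lit 1), (43, 66, 48), [14639763, 1089535], 13⟩,
  ⟨⟨33, 68, -37, -50, 11, -30, 44, -4, -73⟩, (.cons (nat_lit 16268448) (nat_lit 6751593) (nat_lit 1) (nat_lit
 18025997) (.cons (nat_lit 20879688) (nat_lit 1409577) (nat_lit 1706311) (nat_lit 1) .nil)), (nat_lit 13),
 (nat_lit 20), (nat_lit 19), (nat_lit 1), (65, 22, 63), [5084100, 16489152], 9⟩,
  ⟨⟨-39, -40, -41, 44, -55, -12, 22, 8, -77⟩, (.cons (nat_lit 2319382) (nat_lit 5097260) (nat_lit 16142290)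
 (nat_lit 1) (.cons (nat_lit 15706360) (nat_lit 10952460) (nat_lit 6076996) (nat_lit 1) .nil)), (nat_lit 25),
 (nat_lit 12), (nat_lit 13), (nat_lit 1), (46, 10, 5), [1924572, 19145410], 14⟩,
  mz,
  ⟨⟨51, 52, -56, -44, 15, -38, 42, -24, -67⟩, (.cons (nat_lit 7507418) (nat_lit 10555763) (nat_lit 16634926)
 (nat_lit 1) (.cons (nat_lit 8736094) (nat_lit 17176897) (nat_lit 20721628) (nat_lit 1) .nil)), (nat_lit 34),
 (nat_lit 3), (nat_lit 34), (nat_lit 1), (52, 15, 47), [3234157, 2474823], 18⟩,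
  ⟨⟨51, 4, -91, 10, 69, 10, 60, -12, -11⟩, (.cons (nat_lit 2615081) (nat_lit 10039521) (nat_lit 17016082)
 (nat_lit 1) (.cons (nat_lit 15125037) (nat_lit 16599492) (nat_lit 7459298) (nat_lit 1) .nil)), (nat_lit 19),
 (nat_lit 26), (nat_lit 10), (nat_lit 1), (45, 13, 7), [17842939, 7902125], 20⟩,
  ⟨⟨9, -16, -89, 10, 69, -20, 60, -12, -49⟩, (.cons (nat_lit 141028) (nat_lit 1445714) (nat_lit 10250403)
 (nat_lit 1) (.cons (nat_lit 1983414) (nat_lit 2812742) (nat_lit 15931137) (nat_lit 1) .nil)), (nat_lit 11),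
 (nat_lit 17), (nat_lit 11), (nat_lit 1), (19, 29, 32), [15901007, 19760730], 10⟩,
  ⟨⟨9, -56, -64, 56, -25, 12, 38, 16, -73⟩, (.cons (nat_lit 17010924) (nat_lit 19208960) (nat_lit 3170700)
 (nat_lit 1) (.cons (nat_lit 119131) (nat_lit 18170114) (nat_lit 19640130) (nat_lit 1) .nil)), (nat_lit 11),
 (nat_lit 36), (nat_lit 27), (nat_lit 1), (4, 17, 9), [16807748, 23990328], 3⟩,
  ⟨⟨-75, 16, 23, -4, -55, -48, -10, 40, -49⟩, (.cons (nat_lit 12880495) (nat_lit 5004618) (nat_lit 5647449)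
 (nat_lit 1) (.cons (nat_lit 2722914) (nat_lit 3946354) (nat_lit 616861) (nat_lit 1) .nil)), (nat_lit 20),
 (nat_lit 32), (nat_lit 18), (nat_lit 1), (26, 26, 65), [18480587, 11758804], 34⟩,
  ⟨⟨-51, 52, -5, -44, -15, 82, -42, -24, -25⟩, (.cons (nat_lit 11814295) (nat_lit 14384922) (nat_lit 12533420)
 (nat_lit 1) (.cons (nat_lit 13564630) (nat_lit 19448600) (nat_lit 22963976) (nat_lit 1) .nil)), (nat_lit 33),
 (nat_lit 35), (nat_lit 5), (nat_lit 1), (18, 3, 19), [17255734, 15340100], 18⟩,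
  mz,
  ⟨⟨13, -72, 23, 70, 11, -40, 4, -44, -53⟩, (.cons (nat_lit 11530321) (nat_lit 6825567) (nat_lit 15135709)
 (nat_lit 1) (.cons (nat_lit 24463773) (nat_lit 4140411) (nat_lit 17011242) (nat_lit 1) .nil)), (nat_lit 20),
 (nat_lit 7), (nat_lit 27), (nat_lit 1), (14, 59, 48), [2844025, 3632351], 11⟩,
  ⟨⟨51, -4, -91, 10, -69, 10, 60, 12, -11⟩, (.cons (nat_lit 174797) (nat_lit 3163470) (nat_lit 8244404)
 (nat_lit 1) (.cons (nat_lit 22709261) (nat_lit 12429508) (nat_lit 1915127) (nat_lit 1) .nil)), (nat_lit 27),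
 (nat_lit 22), (nat_lit 36), (nat_lit 1), (21, 25, 8), [18557963, 1833358], 36⟩,
  ⟨⟨75, -20, -32, -10, -21, 80, 12, -60, -25⟩, (.cons (nat_lit 434108) (nat_lit 3649411) (nat_lit 8198069)
 (nat_lit 1) (.cons (nat_lit 22990953) (nat_lit 15417494) (nat_lit 17216542) (nat_lit 1) .nil)), (nat_lit 0),
 (nat_lit 7), (nat_lit 36), (nat_lit 1), (52, 12, 14), [4507765, 25073035], 16⟩,
  mz,
  ⟨⟨-33, 68, -4, -50, -11, 80, -44, -4, -29⟩, (.cons (nat_lit 10519364) (nat_lit 5288967) (nat_lit 1) (nat_lit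
 8347185) (.cons (nat_lit 16678252) (nat_lit 2456643) (nat_lit 16898285) (nat_lit 1) .nil)), (nat_lit 31),
 (nat_lit 11), (nat_lit 7), (nat_lit 1), (43, 63, 10), [11752542, 6563783], 10⟩,
  ⟨⟨-75, -20, 43, -10, 21, -70, -12, -60, -13⟩, (.cons (nat_lit 9412063) (nat_lit 5361891) (nat_lit 1) (nat_lit
 936892) (.cons (nat_lit 10341591) (nat_lit 3383064) (nat_lit 24842300) (nat_lit 1) .nil)), (nat_lit 34),
 (nat_lit 1), (nat_lit 0), (nat_lit 1), (2, 5, 6), [10868339, 6461813], 9⟩,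
  mz,
  mz,
  mz,
  ⟨⟨33, -68, -37, -50, -11, -30, 44, 4, -73⟩, (.cons (nat_lit 8573141) (nat_lit 1629558) (nat_lit 2409969)
 (nat_lit 1) (.cons (nat_lit 12563849) (nat_lit 13948659) (nat_lit 21859588) (nat_lit 1) .nil)), (nat_lit 30),
 (nat_lit 33), (nat_lit 30), (nat_lit 1), (12, 27, 16), [3506900, 13293766], 31⟩,
  mz,
  ⟨⟨-13, 72, 36, 70, 11, -30, -4, 44, -49⟩, (.cons (nat_lit 3115104) (nat_lit 13343582) (nat_lit 10859487)
 (nat_lit 1) (.cons (nat_lit 10591511) (nat_lit 23391675) (nat_lit 21523246) (nat_lit 1) .nil)), (nat_lit 1),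
 (nat_lit 16), (nat_lit 26), (nat_lit 1), (35, 30, 49), [9569272, 22922958], 24⟩,
  ⟨⟨-65, -24, -7, -4, -55, 52, 10, -40, -59⟩, (.cons (nat_lit 12162877) (nat_lit 2887376) (nat_lit 10225551)
 (nat_lit 1) (.cons (nat_lit 8475646) (nat_lit 4782618) (nat_lit 12926756) (nat_lit 1) .nil)), (nat_lit 13),
 (nat_lit 28), (nat_lit 25), (nat_lit 1), (41, 20, 21), [10363192, 4510196], 11⟩,
  mz,
  ⟨⟨33, 20, -92, 64, -15, -2, 6, -48, -49⟩, (.cons (nat_lit 2018425) (nat_lit 9037910) (nat_lit 12264546)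
 (nat_lit 1) (.cons (nat_lit 2157815) (nat_lit 4824277) (nat_lit 22079549) (nat_lit 1) .nil)), (nat_lit 15),
 (nat_lit 17), (nat_lit 29), (nat_lit 1), (45, 55, 34), [16261835, 5465951], 28⟩,
  ⟨⟨-9, -28, -76, 70, -11, -40, 4, 44, -53⟩, (.cons (nat_lit 2247817) (nat_lit 10106185) (nat_lit 6933812)
 (nat_lit 1) (.cons (nat_lit 19253510) (nat_lit 22769853) (nat_lit 8846457) (nat_lit 1) .nil)), (nat_lit 6),
 (nat_lit 8), (nat_lit 32), (nat_lit 1), (8, 64, 28), [4312184, 6430303], 27⟩,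
  ⟨⟨-23, 72, 32, -64, -25, 52, -26, 32, -41⟩, (.cons (nat_lit 825415) (nat_lit 2709501) (nat_lit 3211971)
 (nat_lit 1) (.cons (nat_lit 1127756) (nat_lit 5350195) (nat_lit 21410883) (nat_lit 1) .nil)), (nat_lit 27),
 (nat_lit 27), (nat_lit 11), (nat_lit 1), (27, 35, 12), [6005140, 21496726], 4⟩,
  ⟨⟨37, -48, -73, 36, 55, -48, 54, -24, -1⟩, (.cons (nat_lit 4171269) (nat_lit 15402592) (nat_lit 11123045)
 (nat_lit 1) (.cons (nat_lit 16139595) (nat_lit 3496366) (nat_lit 19922976) (nat_lit 1) .nil)), (nat_lit 4),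
 (nat_lit 28), (nat_lit 11), (nat_lit 1), (11, 51, 41), [14589779, 17369640], 24⟩]

/-- Moves. -/
noncomputable def t4_1 : List Mv := [
  mz,
  ⟨⟨3, -16, -43, 10, 33, -20, 30, -12, -23⟩, (.cons (nat_lit 17080258) (nat_lit 3772299) (nat_lit 2291204)
 (nat_lit 1) (.cons (nat_lit 20247273) (nat_lit 23215815) (nat_lit 24945744) (nat_lit 1) .nil)), (nat_lit 26),
 (nat_lit 0), (nat_lit 0), (nat_lit 0), (25, 34, 28), [6455049, 19092827], 0⟩,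
  mz,
  mz,
  ⟨⟨11, -12, -47, 8, 35, -14, 32, -8, -19⟩, (.cons (nat_lit 11597263) (nat_lit 18391292) (nat_lit 1265860)
 (nat_lit 1) (.cons (nat_lit 22833846) (nat_lit 3421444) (nat_lit 1808365) (nat_lit 1) .nil)), (nat_lit 35),
 (nat_lit 0), (nat_lit 0), (nat_lit 0), (12, 2, 8), [13789968, 7286825], 0⟩,
  ⟨⟨11, 12, -47, 8, -35, -14, 32, 8, -19⟩, (.cons (nat_lit 3265794) (nat_lit 14048111) (nat_lit 5911939)
 (nat_lit 1) (.cons (nat_lit 21251659) (nat_lit 2152976) (nat_lit 17701949) (nat_lit 1) .nil)), (nat_lit 35),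
 (nat_lit 0), (nat_lit 0), (nat_lit 0), (29, 11, 7), [2983228, 7808603], 0⟩,
  mz,
  ⟨⟨-1, -24, -36, -30, -17, 30, -18, 12, -19⟩, (.cons (nat_lit 8337923) (nat_lit 6495732) (nat_lit 1) (nat_lit
 11149248) (.cons (nat_lit 25411680) (nat_lit 5839634) (nat_lit 14926946) (nat_lit 1) .nil)), (nat_lit 7),
 (nat_lit 0), (nat_lit 0), (nat_lit 0), (13, 20, 12), [4145192, 7786152], 0⟩,
  ⟨⟨35, -12, -36, 12, 35, -6, 0, 0, -37⟩, (.cons (nat_lit 18776891) (nat_lit 15131345) (nat_lit 8758295)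
 (nat_lit 1) (.cons (nat_lit 4216407) (nat_lit 11632474) (nat_lit 3640775) (nat_lit 1) .nil)), (nat_lit 29),
 (nat_lit 0), (nat_lit 0), (nat_lit 0), (34, 18, 0), [7990131, 8939093], 0⟩,
  mz,
  ⟨⟨-1, 24, -36, -30, 17, 30, -18, -12, -19⟩, (.cons (nat_lit 16218684) (nat_lit 7403857) (nat_lit 4011360)
 (nat_lit 1) (.cons (nat_lit 14034608) (nat_lit 731535) (nat_lit 9396890) (nat_lit 1) .nil)), (nat_lit 7),
 (nat_lit 0), (nat_lit 0), (nat_lit 0), (10, 4, 32), [9316289, 24144387], 0⟩,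
  ⟨⟨27, -4, 20, -10, 33, 20, 30, 12, -23⟩, (.cons (nat_lit 19487170) (nat_lit 393710) (nat_lit 17342860)
 (nat_lit 1) (.cons (nat_lit 25411680) (nat_lit 3709576) (nat_lit 23615607) (nat_lit 1) .nil)), (nat_lit 11),
 (nat_lit 0), (nat_lit 0), (nat_lit 0), (22, 22, 8), [8581807, 19503397], 0⟩,
  ⟨⟨39, -4, -8, 10, 17, -40, 14, -28, -19⟩, (.cons (nat_lit 19487170) (nat_lit 14519482) (nat_lit 2338009)
 (nat_lit 1) (.cons (nat_lit 25411680) (nat_lit 16422772) (nat_lit 25290557) (nat_lit 1) .nil)), (nat_lit 12),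
 (nat_lit 0), (nat_lit 0), (nat_lit 0), (11, 18, 3), [11912651, 7875211], 0⟩,
  ⟨⟨39, 8, -28, -8, 5, -36, 8, 32, -1⟩, (.cons (nat_lit 12299237) (nat_lit 200383) (nat_lit 13521307) (nat_lit
 1) (.cons (nat_lit 5446818) (nat_lit 8325357) (nat_lit 17308733) (nat_lit 1) .nil)), (nat_lit 22), (nat_lit
 0), (nat_lit 0), (nat_lit 0), (21, 27, 10), [964122, 22347553], 0⟩,
  mz,
  ⟨⟨-3, 40, 8, 32, 5, -36, -16, 16, -19⟩, (.cons (nat_lit 1643990) (nat_lit 8627991) (nat_lit 2867000) (nat_lit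
 1) (.cons (nat_lit 24929961) (nat_lit 11587023) (nat_lit 11389343) (nat_lit 1) .nil)), (nat_lit 24), (nat_lit
 0), (nat_lit 0), (nat_lit 0), (27, 8, 33), [4923605, 1140516], 0⟩,
  ⟨⟨11, -12, 36, -8, -35, -6, 32, -8, -13⟩, (.cons (nat_lit 19487170) (nat_lit 3707271) (nat_lit 1323977)
 (nat_lit 1) (.cons (nat_lit 25411680) (nat_lit 23268483) (nat_lit 7405783) (nat_lit 1) .nil)), (nat_lit 16),
 (nat_lit 0), (nat_lit 0), (nat_lit 0), (3, 18, 2), [7121129, 10481293], 0⟩,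
  ⟨⟨39, -8, -11, -8, -5, 44, 8, -32, -7⟩, (.cons (nat_lit 1508092) (nat_lit 13254333) (nat_lit 9115112)
 (nat_lit 1) (.cons (nat_lit 8501339) (nat_lit 8258076) (nat_lit 18084588) (nat_lit 1) .nil)), (nat_lit 22),
 (nat_lit 0), (nat_lit 0), (nat_lit 0), (5, 17, 20), [2446459, 24770839], 0⟩,
  ⟨⟨39, 4, -8, 10, -17, -40, 14, 28, -19⟩, (.cons (nat_lit 14076893) (nat_lit 2640253) (nat_lit 6336314)
 (nat_lit 1) (.cons (nat_lit 7086058) (nat_lit 7463271) (nat_lit 1) (nat_lit 2171677) .nil)), (nat_lit 12),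
 (nat_lit 0), (nat_lit 0), (nat_lit 0), (29, 34, 18), [9092899, 25374744], 0⟩,
  ⟨⟨39, -8, -28, -8, -5, -36, 8, -32, -1⟩, (.cons (nat_lit 1351113) (nat_lit 17885038) (nat_lit 3466137)
 (nat_lit 1) (.cons (nat_lit 4054997) (nat_lit 14241417) (nat_lit 13474158) (nat_lit 1) .nil)), (nat_lit 22),
 (nat_lit 0), (nat_lit 0), (nat_lit 0), (22, 23, 14), [149126, 16413140], 0⟩,
  ⟨⟨25, -24, -36, -10, 17, -30, -14, -28, -5⟩, (.cons (nat_lit 19487170) (nat_lit 12509367) (nat_lit 16311374)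
 (nat_lit 1) (.cons (nat_lit 25411680) (nat_lit 14108775) (nat_lit 10196809) (nat_lit 1) .nil)), (nat_lit 20),
 (nat_lit 0), (nat_lit 0), (nat_lit 0), (21, 36, 6), [8409234, 17901510], 0⟩,
  ⟨⟨13, -24, -40, -32, 5, -4, 16, 16, -35⟩, (.cons (nat_lit 16618245) (nat_lit 13415022) (nat_lit 5645806)
 (nat_lit 1) (.cons (nat_lit 10170207) (nat_lit 19624694) (nat_lit 4517136) (nat_lit 1) .nil)), (nat_lit 33),
 (nat_lit 0), (nat_lit 0), (nat_lit 0), (27, 36, 19), [14904179, 12933255], 0⟩,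
  ⟨⟨39, 8, -11, 8, -5, -44, 8, 32, -7⟩, (.cons (nat_lit 16584858) (nat_lit 1777441) (nat_lit 1627151) (nat_lit
 1) (.cons (nat_lit 11822145) (nat_lit 25108683) (nat_lit 15324140) (nat_lit 1) .nil)), (nat_lit 17), (nat_lit
 0), (nat_lit 0), (nat_lit 0), (4, 16, 16), [5199588, 992724], 0⟩,
  mz,
  ⟨⟨13, 24, -40, 32, 5, 4, 16, -16, -35⟩, (.cons (nat_lit 4954430) (nat_lit 8035076) (nat_lit 4029268) (nat_lit
 1) (.cons (nat_lit 6847259) (nat_lit 11842684) (nat_lit 24813339) (nat_lit 1) .nil)), (nat_lit 15), (nat_lit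
 0), (nat_lit 0), (nat_lit 0), (24, 5, 21), [3802514, 2832164], 0⟩,
  ⟨⟨17, -36, 0, 30, 17, 0, 18, -12, -37⟩, (.cons (nat_lit 871693) (nat_lit 10334384) (nat_lit 10907778)
 (nat_lit 1) (.cons (nat_lit 6821363) (nat_lit 2589513) (nat_lit 11741014) (nat_lit 1) .nil)), (nat_lit 36),
 (nat_lit 0), (nat_lit 0), (nat_lit 0), (21, 24, 7), [4027148, 3172336], 0⟩,
  ⟨⟨27, -4, -47, 10, -33, 10, 30, 12, -7⟩, (.cons (nat_lit 7824637) (nat_lit 16301330) (nat_lit 6957974)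
 (nat_lit 1) (.cons (nat_lit 18856187) (nat_lit 19371628) (nat_lit 11436641) (nat_lit 1) .nil)), (nat_lit 1),
 (nat_lit 0), (nat_lit 0), (nat_lit 0), (15, 22, 29), [2125517, 18503327], 0⟩,
  ⟨⟨27, 4, -47, -10, -33, -10, 30, -12, -7⟩, (.cons (nat_lit 6755569) (nat_lit 9722058) (nat_lit 15529996)
 (nat_lit 1) (.cons (nat_lit 17682131) (nat_lit 22244670) (nat_lit 3787796) (nat_lit 1) .nil)), (nat_lit 11),
 (nat_lit 0), (nat_lit 0), (nat_lit 0), (33, 33, 12), [298252, 20480251], 0⟩,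
  mz,
  ⟨⟨-35, -12, -1, 12, -35, -6, 0, 0, -37⟩, (.cons (nat_lit 4572910) (nat_lit 12709997) (nat_lit 4146005)
 (nat_lit 1) (.cons (nat_lit 9803965) (nat_lit 23292851) (nat_lit 24040816) (nat_lit 1) .nil)), (nat_lit 8),
 (nat_lit 0), (nat_lit 0), (nat_lit 0), (23, 27, 0), [10596896, 14292331], 0⟩,
  ⟨⟨25, 24, -36, 10, 17, 30, -14, 28, -5⟩, (.cons (nat_lit 19487170) (nat_lit 10580937) (nat_lit 16009930)
 (nat_lit 1) (.cons (nat_lit 25411680) (nat_lit 8763207) (nat_lit 13769663) (nat_lit 1) .nil)), (nat_lit 30),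
 (nat_lit 0), (nat_lit 0), (nat_lit 0), (18, 22, 21), [11754647, 4077492], 0⟩,
  mz,
  mz,
  ⟨⟨-3, -40, 8, 32, -5, -36, -16, -16, -19⟩, (.cons (nat_lit 11991364) (nat_lit 12685269) (nat_lit 13229488)
 (nat_lit 1) (.cons (nat_lit 13789181) (nat_lit 10760674) (nat_lit 14233477) (nat_lit 1) .nil)), (nat_lit 24),
 (nat_lit 0), (nat_lit 0), (nat_lit 0), (32, 4, 35), [6791639, 5087389], 0⟩,
  mz,
  ⟨⟨21, -4, -49, 8, -35, 6, 32, 8, -13⟩, (.cons (nat_lit 14991611) (nat_lit 877612) (nat_lit 8470325) (nat_lit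
 1) (.cons (nat_lit 6150119) (nat_lit 7170300) (nat_lit 16361025) (nat_lit 1) .nil)), (nat_lit 4), (nat_lit 0),
 (nat_lit 0), (nat_lit 0), (18, 28, 1), [7679385, 9380377], 0⟩,
  ⟨⟨17, 36, 0, -30, 17, 0, 18, 12, -37⟩, (.cons (nat_lit 8754498) (nat_lit 4229970) (nat_lit 5930332) (nat_lit
 1) (.cons (nat_lit 20963361) (nat_lit 19940946) (nat_lit 23434334) (nat_lit 1) .nil)), (nat_lit 25), (nat_lit
 0), (nat_lit 0), (nat_lit 0), (35, 34, 24), [12302027, 522586], 0⟩]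

/-- Moves. -/
noncomputable def t4_4 : List Mv := [
  mz,
  ⟨⟨3, -16, -43, 10, 33, -20, 30, -12, -23⟩, (.cons (nat_lit 17080258) (nat_lit 3772299) (nat_lit 2291204)
 (nat_lit 1) (.cons (nat_lit 20247273) (nat_lit 23215815) (nat_lit 24945744) (nat_lit 1) .nil)), (nat_lit 26),
 (nat_lit 0), (nat_lit 0), (nat_lit 0), (25, 34, 28), [6455049, 19092827], 0⟩,
  mz,
  mz,
  ⟨⟨21, 4, 28, 8, 35, -14, 32, -8, -19⟩, (.cons (nat_lit 19487170) (nat_lit 6742898) (nat_lit 4109168) (nat_lit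
 1) (.cons (nat_lit 25411680) (nat_lit 10154267) (nat_lit 13119203) (nat_lit 1) .nil)), (nat_lit 4), (nat_lit
 0), (nat_lit 0), (nat_lit 0), (33, 2, 8), [14034489, 21584153], 0⟩,
  ⟨⟨21, -4, 28, 8, -35, -14, 32, 8, -19⟩, (.cons (nat_lit 1121347) (nat_lit 7905375) (nat_lit 4397540) (nat_lit
 1) (.cons (nat_lit 11198320) (nat_lit 15061216) (nat_lit 10605432) (nat_lit 1) .nil)), (nat_lit 4), (nat_lit
 0), (nat_lit 0), (nat_lit 0), (15, 11, 7), [9284509, 24089387], 0⟩,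
  mz,
  ⟨⟨-1, -24, -36, 30, 17, -30, -18, 12, -19⟩, (.cons (nat_lit 17782077) (nat_lit 15081654) (nat_lit 2180063)
 (nat_lit 1) (.cons (nat_lit 23056654) (nat_lit 25174731) (nat_lit 14797094) (nat_lit 1) .nil)), (nat_lit 10),
 (nat_lit 0), (nat_lit 0), (nat_lit 0), (13, 17, 12), [15275888, 2326483], 0⟩,
  ⟨⟨-35, 12, -1, 12, 35, -6, 0, 0, -37⟩, (.cons (nat_lit 19487170) (nat_lit 14655612) (nat_lit 4381831)
 (nat_lit 1) (.cons (nat_lit 25411680) (nat_lit 19069916) (nat_lit 3545005) (nat_lit 1) .nil)), (nat_lit 8),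
 (nat_lit 0), (nat_lit 0), (nat_lit 0), (3, 18, 0), [6584823, 5103211], 0⟩,
  mz,
  ⟨⟨-17, -36, 17, 30, -17, -30, -18, -12, -19⟩, (.cons (nat_lit 16753016) (nat_lit 7089076) (nat_lit 19002260)
 (nat_lit 1) (.cons (nat_lit 7379698) (nat_lit 2451384) (nat_lit 8444916) (nat_lit 1) .nil)), (nat_lit 25),
 (nat_lit 0), (nat_lit 0), (nat_lit 0), (22, 33, 32), [13584063, 16453269], 0⟩,
  ⟨⟨3, 16, -43, 10, -33, -20, 30, 12, -23⟩, (.cons (nat_lit 4958427) (nat_lit 14874296) (nat_lit 4463179)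
 (nat_lit 1) (.cons (nat_lit 9691045) (nat_lit 18334934) (nat_lit 3219586) (nat_lit 1) .nil)), (nat_lit 26),
 (nat_lit 0), (nat_lit 0), (nat_lit 0), (23, 15, 8), [3357718, 23869016], 0⟩,
  ⟨⟨39, -4, -8, -10, -17, 40, 14, -28, -19⟩, (.cons (nat_lit 2018425) (nat_lit 3991845) (nat_lit 16767508)
 (nat_lit 1) (.cons (nat_lit 7420778) (nat_lit 24687496) (nat_lit 2815262) (nat_lit 1) .nil)), (nat_lit 18),
 (nat_lit 0), (nat_lit 0), (nat_lit 0), (11, 19, 3), [18676974, 5151228], 0⟩,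
  ⟨⟨39, 8, -28, -8, 5, -36, 8, 32, -1⟩, (.cons (nat_lit 12299237) (nat_lit 200383) (nat_lit 13521307) (nat_lit
 1) (.cons (nat_lit 5446818) (nat_lit 8325357) (nat_lit 17308733) (nat_lit 1) .nil)), (nat_lit 22), (nat_lit
 0), (nat_lit 0), (nat_lit 0), (21, 27, 10), [964122, 22347553], 0⟩,
  mz,
  ⟨⟨-3, 40, 8, -32, -5, 36, -16, 16, -19⟩, (.cons (nat_lit 19194142) (nat_lit 622816) (nat_lit 13428574)
 (nat_lit 1) (.cons (nat_lit 10239962) (nat_lit 8685296) (nat_lit 19677547) (nat_lit 1) .nil)), (nat_lit 21),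
 (nat_lit 0), (nat_lit 0), (nat_lit 0), (27, 29, 33), [4696700, 24585835], 0⟩,
  ⟨⟨11, -12, 36, -8, -35, -6, 32, -8, -13⟩, (.cons (nat_lit 19487170) (nat_lit 3707271) (nat_lit 1323977)
 (nat_lit 1) (.cons (nat_lit 25411680) (nat_lit 23268483) (nat_lit 7405783) (nat_lit 1) .nil)), (nat_lit 16),
 (nat_lit 0), (nat_lit 0), (nat_lit 0), (3, 18, 2), [7121129, 10481293], 0⟩,
  ⟨⟨-31, -24, 4, -8, -5, 44, 8, -32, -7⟩, (.cons (nat_lit 14804846) (nat_lit 1143096) (nat_lit 261133) (nat_lit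
 1) (.cons (nat_lit 2498813) (nat_lit 15581577) (nat_lit 15439535) (nat_lit 1) .nil)), (nat_lit 19), (nat_lit
 0), (nat_lit 0), (nat_lit 0), (15, 17, 20), [10534455, 886035], 0⟩,
  ⟨⟨39, 4, -8, -10, 17, 40, 14, 28, -19⟩, (.cons (nat_lit 19487170) (nat_lit 6319532) (nat_lit 1357759)
 (nat_lit 1) (.cons (nat_lit 25411680) (nat_lit 21081920) (nat_lit 8018643) (nat_lit 1) .nil)), (nat_lit 18),
 (nat_lit 0), (nat_lit 0), (nat_lit 0), (29, 3, 18), [16489284, 12263400], 0⟩,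
  ⟨⟨39, -8, -28, 8, 5, 36, 8, -32, -1⟩, (.cons (nat_lit 2311937) (nat_lit 6245384) (nat_lit 9000130) (nat_lit
 1) (.cons (nat_lit 7444756) (nat_lit 6797939) (nat_lit 18548238) (nat_lit 1) .nil)), (nat_lit 17), (nat_lit
 0), (nat_lit 0), (nat_lit 0), (22, 14, 14), [8999961, 4106322], 0⟩,
  ⟨⟨25, -24, -36, -10, 17, -30, -14, -28, -5⟩, (.cons (nat_lit 19487170) (nat_lit 12509367) (nat_lit 16311374)
 (nat_lit 1) (.cons (nat_lit 25411680) (nat_lit 14108775) (nat_lit 10196809) (nat_lit 1) .nil)), (nat_lit 20),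
 (nat_lit 0), (nat_lit 0), (nat_lit 0), (21, 36, 6), [8409234, 17901510], 0⟩,
  ⟨⟨13, -24, -40, 32, -5, 4, 16, 16, -35⟩, (.cons (nat_lit 10144257) (nat_lit 8090882) (nat_lit 1) (nat_lit
 11579887) (.cons (nat_lit 13658117) (nat_lit 12773769) (nat_lit 19042771) (nat_lit 1) .nil)), (nat_lit 15),
 (nat_lit 0), (nat_lit 0), (nat_lit 0), (27, 1, 19), [11990373, 370216], 0⟩,
  ⟨⟨39, 8, -11, 8, -5, -44, 8, 32, -7⟩, (.cons (nat_lit 16584858) (nat_lit 1777441) (nat_lit 1627151) (nat_lit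
 1) (.cons (nat_lit 11822145) (nat_lit 25108683) (nat_lit 15324140) (nat_lit 1) .nil)), (nat_lit 17), (nat_lit
 0), (nat_lit 0), (nat_lit 0), (4, 16, 16), [5199588, 992724], 0⟩,
  mz,
  ⟨⟨13, 24, -40, -32, -5, -4, 16, -16, -35⟩, (.cons (nat_lit 7302211) (nat_lit 2673351) (nat_lit 1) (nat_lit
 10806114) (.cons (nat_lit 16296974) (nat_lit 18179101) (nat_lit 22377111) (nat_lit 1) .nil)), (nat_lit 33),
 (nat_lit 0), (nat_lit 0), (nat_lit 0), (24, 32, 21), [4791519, 13176841], 0⟩,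
  ⟨⟨1, 24, -37, -30, -17, 0, 18, -12, -37⟩, (.cons (nat_lit 14543747) (nat_lit 2673307) (nat_lit 15716617)
 (nat_lit 1) (.cons (nat_lit 18834645) (nat_lit 18632159) (nat_lit 2093828) (nat_lit 1) .nil)), (nat_lit 10),
 (nat_lit 0), (nat_lit 0), (nat_lit 0), (23, 13, 7), [880410, 22052005], 0⟩,
  ⟨⟨27, -4, -47, -10, 33, -10, 30, 12, -7⟩, (.cons (nat_lit 18106232) (nat_lit 3877052) (nat_lit 14475543)
 (nat_lit 1) (.cons (nat_lit 17394738) (nat_lit 12971050) (nat_lit 8585235) (nat_lit 1) .nil)), (nat_lit 11),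
 (nat_lit 0), (nat_lit 0), (nat_lit 0), (15, 15, 29), [13461942, 22834538], 0⟩,
  ⟨⟨27, 4, -47, -10, -33, -10, 30, -12, -7⟩, (.cons (nat_lit 6755569) (nat_lit 9722058) (nat_lit 15529996)
 (nat_lit 1) (.cons (nat_lit 17682131) (nat_lit 22244670) (nat_lit 3787796) (nat_lit 1) .nil)), (nat_lit 11),
 (nat_lit 0), (nat_lit 0), (nat_lit 0), (33, 33, 12), [298252, 20480251], 0⟩,
  mz,
  ⟨⟨35, 12, -36, -12, 35, 6, 0, 0, -37⟩, (.cons (nat_lit 11579349) (nat_lit 17558037) (nat_lit 14714297)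
 (nat_lit 1) (.cons (nat_lit 5331249) (nat_lit 16576252) (nat_lit 21280083) (nat_lit 1) .nil)), (nat_lit 8),
 (nat_lit 0), (nat_lit 0), (nat_lit 0), (14, 10, 0), [2926413, 2768412], 0⟩,
  ⟨⟨-39, 4, 31, -10, -17, -30, -14, 28, -5⟩, (.cons (nat_lit 10493090) (nat_lit 5438330) (nat_lit 6948455)
 (nat_lit 1) (.cons (nat_lit 1940220) (nat_lit 10807797) (nat_lit 16308680) (nat_lit 1) .nil)), (nat_lit 12),
 (nat_lit 0), (nat_lit 0), (nat_lit 0), (3, 15, 21), [13952337, 1978319], 0⟩,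
  mz,
  mz,
  ⟨⟨-3, -40, 8, 32, -5, -36, -16, -16, -19⟩, (.cons (nat_lit 11991364) (nat_lit 12685269) (nat_lit 13229488)
 (nat_lit 1) (.cons (nat_lit 13789181) (nat_lit 10760674) (nat_lit 14233477) (nat_lit 1) .nil)), (nat_lit 24),
 (nat_lit 0), (nat_lit 0), (nat_lit 0), (32, 4, 35), [6791639, 5087389], 0⟩,
  mz,
  ⟨⟨21, -4, -49, -8, 35, -6, 32, 8, -13⟩, (.cons (nat_lit 1108088) (nat_lit 3844742) (nat_lit 14638096)
 (nat_lit 1) (.cons (nat_lit 8497273) (nat_lit 3374434) (nat_lit 2767621) (nat_lit 1) .nil)), (nat_lit 5),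
 (nat_lit 0), (nat_lit 0), (nat_lit 0), (18, 9, 1), [1392689, 20956298], 0⟩,
  ⟨⟨1, -24, -37, -30, 17, 0, 18, 12, -37⟩, (.cons (nat_lit 6286797) (nat_lit 11355626) (nat_lit 18175836)
 (nat_lit 1) (.cons (nat_lit 14729428) (nat_lit 19132461) (nat_lit 25389406) (nat_lit 1) .nil)), (nat_lit 10),
 (nat_lit 0), (nat_lit 0), (nat_lit 0), (26, 34, 24), [8759582, 270728], 0⟩]

/-- All the moves. -/
noncomputable def tabs : List (List (List Mv)) := [[[], t0_1, [], [], t0_4], [[], t1_1, [], [], t1_4], [], [], [[], t4_1, [], [], t4_4]]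

/-- Subtrie. -/
noncomputable def T1 : Tr := (.ev (nat_lit 20) (nat_lit 673722370) (.nd (nat_lit 33) (.br (nat_lit 39) (.br
 (nat_lit 19) (.br (nat_lit 8) (.br (nat_lit 4) (.br (nat_lit 3) (.ch (nat_lit 1) (.ev (nat_lit 52) (nat_lit
 68786978832) (.ev (nat_lit 148) (nat_lit 1048576) (.ev (nat_lit 244) (nat_lit 16777216) (.ev (nat_lit 468)
 (nat_lit 2048) (.ev (nat_lit 596) (nat_lit 32768) (.ev (nat_lit 884) (nat_lit 128) (.ev (nat_lit 1264)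
 (nat_lit 34359738368) (.ev (nat_lit 1648) (nat_lit 1073741824) (.nd (nat_lit 1680) (.br (nat_lit 7) (.br
 (nat_lit 5) (.ch (nat_lit 1) (.ev (nat_lit 1696) (nat_lit 8627683584) (.ev (nat_lit 1728) (nat_lit 32) (.ev
 (nat_lit 2724) (nat_lit 65536) (.ev (nat_lit 2733) (nat_lit 1024) .dd))))) (.ch (nat_lit 5) (.ev (nat_lit
 1696) (nat_lit 37815328) (.fin (nat_lit 576470098152735306))))) (.br (nat_lit 9) (.ch (nat_lit 7) (.ev
 (nat_lit 1696) (nat_lit 4195616) (.ev (nat_lit 1892) (nat_lit 8589934592) (.fin (nat_lit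
 576482192807903800))))) (.ch (nat_lit 9) (.ev (nat_lit 1696) (nat_lit 8623490336) (.ev (nat_lit 2150) (nat_lit
 65536) (.ev (nat_lit 2157) (nat_lit 4194304) .dd)))))))))))))))) (.ch (nat_lit 3) (.ev (nat_lit 52) (nat_lit
 77376520208) (.ev (nat_lit 64) (nat_lit 35489549728) .dd)))) (.br (nat_lit 5) (.ch (nat_lit 4) (.ev (nat_lit
 52) (nat_lit 43016784016) (.ev (nat_lit 116) (nat_lit 1090519040) (.ev (nat_lit 288) (nat_lit 68758766880)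
 .dd)))) (.br (nat_lit 7) (.ch (nat_lit 5) (.ev (nat_lit 52) (nat_lit 67470624) (.ev (nat_lit 244) (nat_lit
 34359738368) (.ev (nat_lit 372) (nat_lit 128) (.ev (nat_lit 724) (nat_lit 16) (.ev (nat_lit 1012) (nat_lit
 1073741824) (.ev (nat_lit 1184) (nat_lit 17825792) (.ev (nat_lit 1488) (nat_lit 8589934592) (.nd (nat_lit
 1680) (.br (nat_lit 5) (.br (nat_lit 1) (.ch (nat_lit 0) (.ev (nat_lit 1696) (nat_lit 37750784) (.ev (nat_lit
 2640) (nat_lit 68719476736) (.ev (nat_lit 2653) (nat_lit 131072) .dd)))) (.ch (nat_lit 1) (.ev (nat_lit 1696)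
 (nat_lit 33685504) (.ev (nat_lit 3088) (nat_lit 4194304) (.ev (nat_lit 3232) (nat_lit 68719476736) (.ev
 (nat_lit 3245) (nat_lit 2048) .dd)))))) (.br (nat_lit 7) (.ch (nat_lit 5) (.ev (nat_lit 1696) (nat_lit
 68757225472) (.ev (nat_lit 2628) (nat_lit 131072) (.ev (nat_lit 2637) (nat_lit 2048) .dd)))) (.ch (nat_lit 7)
 (.ev (nat_lit 1696) (nat_lit 68723802112) (.ev (nat_lit 1712) (nat_lit 33554432) (.ev (nat_lit 1725) (nat_lit
 2048) .dd))))))))))))))) (.ch (nat_lit 7) (.ev (nat_lit 52) (nat_lit 35534211200) (.ev (nat_lit 224) (nat_lit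
 77331858736) .dd)))))) (.br (nat_lit 15) (.br (nat_lit 11) (.ch (nat_lit 8) (.ev (nat_lit 52) (nat_lit
 103080330496) (.ev (nat_lit 84) (nat_lit 2048) (.ev (nat_lit 308) (nat_lit 131072) (.ev (nat_lit 628) (nat_lit
 33554432) (.ev (nat_lit 788) (nat_lit 32) (.ev (nat_lit 1392) (nat_lit 67108864) (.ev (nat_lit 1632) (nat_lit
 1073741824) (.nd (nat_lit 1680) (.br (nat_lit 9) (.ch (nat_lit 7) (.ev (nat_lit 1696) (nat_lit 16) (.ev
 (nat_lit 2340) (nat_lit 4194304) (.ev (nat_lit 2432) (nat_lit 8589934592) (.ev (nat_lit 2836) (nat_lit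
 17039360) (.ev (nat_lit 2884) (nat_lit 32768) (.ev (nat_lit 2893) (nat_lit 128) .dd))))))) (.br (nat_lit 10)
 (.ch (nat_lit 9) (.ev (nat_lit 1696) (nat_lit 8594161664) (.ev (nat_lit 1712) (nat_lit 128) (.ev (nat_lit
 1892) (nat_lit 262144) (.ev (nat_lit 2400) (nat_lit 16) (.ev (nat_lit 2413) (nat_lit 16777216) .dd)))))) (.ch
 (nat_lit 10) (.ev (nat_lit 1696) (nat_lit 21233808) (.fin (nat_lit 576462401572389418))))))))))))))) (.br
 (nat_lit 12) (.ch (nat_lit 11) (.ev (nat_lit 52) (nat_lit 103097174288) (.ev (nat_lit 148) (nat_lit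
 8657305600) (.ev (nat_lit 692) (nat_lit 65536) (.ev (nat_lit 800) (nat_lit 1111524512) .dd))))) (.ch (nat_lit
 12) (.ev (nat_lit 52) (nat_lit 9747726480) (.ev (nat_lit 148) (nat_lit 65536) (.ev (nat_lit 212) (nat_lit
 33554432) (.ev (nat_lit 628) (nat_lit 68719476736) (.ev (nat_lit 1216) (nat_lit 1049600) (.ev (nat_lit 1504)
 (nat_lit 32) (.nd (nat_lit 1680) (.br (nat_lit 5) (.br (nat_lit 2) (.ch (nat_lit 0) (.ev (nat_lit 1696)
 (nat_lit 34360002560) (.ev (nat_lit 2208) (nat_lit 256) (.ev (nat_lit 2221) (nat_lit 4194304) .dd)))) (.ch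
 (nat_lit 2) (.ev (nat_lit 1696) (nat_lit 34363934720) (.ev (nat_lit 2884) (nat_lit 256) (.ev (nat_lit 2893)
 (nat_lit 262144) .dd))))) (.br (nat_lit 7) (.ch (nat_lit 5) (.ev (nat_lit 1696) (nat_lit 34363932928) (.ev
 (nat_lit 1712) (nat_lit 2048) (.ev (nat_lit 1725) (nat_lit 262144) .dd)))) (.ch (nat_lit 7) (.ev (nat_lit
 1696) (nat_lit 2304) (.ev (nat_lit 2292) (nat_lit 34359738368) (.ev (nat_lit 3296) (nat_lit 4194304) (.ev
 (nat_lit 3309) (nat_lit 262144) .dd))))))))))))))))) (.br (nat_lit 16) (.ch (nat_lit 15) (.ev (nat_lit 52)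
 (nat_lit 111687239680) (.ev (nat_lit 84) (nat_lit 1073741824) (.ev (nat_lit 116) (nat_lit 33554432) (.ev
 (nat_lit 244) (nat_lit 32768) (.ev (nat_lit 372) (nat_lit 131072) (.ev (nat_lit 532) (nat_lit 65536) (.ev
 (nat_lit 864) (nat_lit 71304624) .dd)))))))) (.br (nat_lit 18) (.ch (nat_lit 16) (.ev (nat_lit 52) (nat_lit
 68771119104) (.ev (nat_lit 116) (nat_lit 32768) (.ev (nat_lit 148) (nat_lit 32) (.ev (nat_lit 468) (nat_lit
 1077936128) (.ev (nat_lit 820) (nat_lit 128) (.ev (nat_lit 884) (nat_lit 34359738368) (.nd (nat_lit 1680) (.br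
 (nat_lit 9) (.br (nat_lit 5) (.ch (nat_lit 1) (.ev (nat_lit 1696) (nat_lit 67239952) (.ev (nat_lit 1856)
 (nat_lit 2048) (.ev (nat_lit 2628) (nat_lit 1024) (.ev (nat_lit 3350) (nat_lit 8589934848) (.ev (nat_lit 3357)
 (nat_lit 65536) .dd)))))) (.ch (nat_lit 5) (.ev (nat_lit 1696) (nat_lit 67177728) (.ev (nat_lit 2320) (nat_lit
 8589934592) (.ev (nat_lit 3152) (nat_lit 131088) .dd))))) (.br (nat_lit 10) (.ch (nat_lit 9) (.ev (nat_lit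
 1696) (nat_lit 8590068992) (.ev (nat_lit 1856) (nat_lit 16) (.ev (nat_lit 2340) (nat_lit 65536) (.ev (nat_lit
 2349) (nat_lit 67108864) .dd))))) (.ch (nat_lit 10) (.ev (nat_lit 1696) (nat_lit 67243024) (.ev (nat_lit 1892)
 (nat_lit 65536) (.ev (nat_lit 2884) (nat_lit 8589934592) (.ev (nat_lit 2893) (nat_lit 256) .dd)))))))))))))))
 (.ch (nat_lit 18) (.ev (nat_lit 52) (nat_lit 100796592) (.ev (nat_lit 192) (nat_lit 112765273344) .dd)))))))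
 (.br (nat_lit 29) (.br (nat_lit 23) (.br (nat_lit 22) (.ch (nat_lit 19) (.ev (nat_lit 52) (nat_lit
 103079608608) (.ev (nat_lit 160) (nat_lit 9786461328) .dd))) (.ch (nat_lit 22) (.ev (nat_lit 52) (nat_lit
 9736160640) (.ev (nat_lit 436) (nat_lit 16777216) (.ev (nat_lit 1108) (nat_lit 32) (.nd (nat_lit 1680) (.br
 (nat_lit 7) (.br (nat_lit 5) (.ch (nat_lit 0) (.ev (nat_lit 1696) (nat_lit 103079282704) (.ev (nat_lit 1856)
 (nat_lit 33554432) (.ev (nat_lit 2948) (nat_lit 262144) (.ev (nat_lit 2957) (nat_lit 32768) .dd))))) (.ch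
 (nat_lit 5) (.ev (nat_lit 1696) (nat_lit 103079575552) (.ev (nat_lit 2192) (nat_lit 33554448) (.ev (nat_lit
 2205) (nat_lit 2048) .dd))))) (.br (nat_lit 10) (.ch (nat_lit 7) (.ev (nat_lit 1696) (nat_lit 103113031696)
 (.ev (nat_lit 1892) (nat_lit 32768) (.ev (nat_lit 2500) (nat_lit 2048) (.ev (nat_lit 2509) (nat_lit 65536)
 .dd))))) (.ch (nat_lit 10) (.ev (nat_lit 1696) (nat_lit 33816592) (.ev (nat_lit 1856) (nat_lit 68719476736)
 (.ev (nat_lit 2800) (nat_lit 34359738368) (.ev (nat_lit 2918) (nat_lit 34816) (.ev (nat_lit 2925) (nat_lit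
 65536) .dd)))))))))))))) (.br (nat_lit 24) (.ch (nat_lit 23) (.ev (nat_lit 52) (nat_lit 105185552) (.ev
 (nat_lit 180) (nat_lit 32768) (.ev (nat_lit 276) (nat_lit 34359738368) (.ev (nat_lit 448) (nat_lit
 78401113248) .dd))))) (.br (nat_lit 26) (.ch (nat_lit 24) (.ev (nat_lit 52) (nat_lit 1079183760) (.ev (nat_lit
 372) (nat_lit 33554432) (.ev (nat_lit 564) (nat_lit 262144) (.ev (nat_lit 736) (nat_lit 111753069600) .dd)))))
 (.ch (nat_lit 26) (.ev (nat_lit 52) (nat_lit 8661729696) (.ev (nat_lit 180) (nat_lit 68736253952) (.ev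
 (nat_lit 340) (nat_lit 1048576) (.ev (nat_lit 436) (nat_lit 16) (.ev (nat_lit 992) (nat_lit 35467037696)
 .dd))))))))) (.br (nat_lit 34) (.br (nat_lit 31) (.ch (nat_lit 29) (.ev (nat_lit 52) (nat_lit 84150576) (.ev
 (nat_lit 308) (nat_lit 68719476736) (.ev (nat_lit 724) (nat_lit 32768) (.nd (nat_lit 1680) (.br (nat_lit 7)
 (.br (nat_lit 5) (.ch (nat_lit 0) (.ev (nat_lit 1696) (nat_lit 34359804928) (.ev (nat_lit 1972) (nat_lit
 8589934592) (.ev (nat_lit 2292) (nat_lit 1073741824) (.ev (nat_lit 2900) (nat_lit 128) (.ev (nat_lit 3284)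
 (nat_lit 1048576) (.ev (nat_lit 3540) (nat_lit 33554432) (.nd (nat_lit 3664) (.br (nat_lit 3) (.ch (nat_lit 1)
 (.fin (nat_lit 576459103037506101))) (.ch (nat_lit 3) (.ev (nat_lit 3680) (nat_lit 4325376) .dd)))))))))))
 (.ch (nat_lit 5) (.ev (nat_lit 1696) (nat_lit 35471425664) (.ev (nat_lit 1892) (nat_lit 8589934592) (.ev
 (nat_lit 2532) (nat_lit 1048576) (.ev (nat_lit 2541) (nat_lit 1024) .dd)))))) (.br (nat_lit 9) (.ch (nat_lit
 7) (.ev (nat_lit 1696) (nat_lit 35472409728) (.ev (nat_lit 3232) (nat_lit 8590000128) .dd))) (.br (nat_lit 10)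
 (.ch (nat_lit 9) (.ev (nat_lit 1696) (nat_lit 44028788736) (.ev (nat_lit 1904) (nat_lit 128) (.ev (nat_lit
 3056) (nat_lit 65536) (.fin (nat_lit 576478894220591688)))))) (.ch (nat_lit 10) (.ev (nat_lit 1696) (nat_lit
 38995072) (.ev (nat_lit 2132) (nat_lit 8589934592) (.ev (nat_lit 2452) (nat_lit 34359738368) (.ev (nat_lit
 2461) (nat_lit 1073741824) .dd))))))))))))) (.br (nat_lit 33) (.ch (nat_lit 31) (.ev (nat_lit 52) (nat_lit
 54527008) (.ev (nat_lit 180) (nat_lit 2048) (.ev (nat_lit 564) (nat_lit 67108864) (.ev (nat_lit 628) (nat_lit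
 32768) (.ev (nat_lit 852) (nat_lit 8589934592) (.nd (nat_lit 1680) (.br (nat_lit 2) (.br (nat_lit 1) (.ch
 (nat_lit 0) (.ev (nat_lit 1696) (nat_lit 35434856464) (.ev (nat_lit 1904) (nat_lit 131072) (.ev (nat_lit 3328)
 (nat_lit 128) (.fin (nat_lit 576465700112515620)))))) (.ch (nat_lit 1) (.ev (nat_lit 1696) (nat_lit
 103079608720) (.ev (nat_lit 2004) (nat_lit 65536) (.ev (nat_lit 2836) (nat_lit 1048576) (.ev (nat_lit 2845)
 (nat_lit 1073741824) .dd)))))) (.br (nat_lit 7) (.ch (nat_lit 2) (.ev (nat_lit 1696) (nat_lit 69793218688)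
 (.ev (nat_lit 2036) (nat_lit 262144) (.ev (nat_lit 2100) (nat_lit 65536) (.ev (nat_lit 2836) (nat_lit 131072)
 (.ev (nat_lit 3284) (nat_lit 1048576) (.ev (nat_lit 3508) (nat_lit 256) (.nd (nat_lit 3664) (.br (nat_lit 9)
 (.ch (nat_lit 7) (.fin (nat_lit 576463501073531457))) (.ch (nat_lit 9) (.ev (nat_lit 3680) (nat_lit
 34359738384) .dd))))))))))) (.br (nat_lit 9) (.ch (nat_lit 7) (.ev (nat_lit 1696) (nat_lit 35434660240) (.ev
 (nat_lit 1892) (nat_lit 65536) (.ev (nat_lit 3076) (nat_lit 262144) (.ev (nat_lit 3085) (nat_lit 68719476736)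
 .dd))))) (.ch (nat_lit 9) (.ev (nat_lit 1696) (nat_lit 104154398992) (.ev (nat_lit 3024) (nat_lit 65664)
 .dd))))))))))))) (.ch (nat_lit 33) (.ev (nat_lit 52) (nat_lit 103147441152) (.ev (nat_lit 404) (nat_lit 256)
 (.ev (nat_lit 724) (nat_lit 131072) (.ev (nat_lit 756) (nat_lit 33554432) (.ev (nat_lit 1424) (nat_lit 16)
 (.ev (nat_lit 1664) (nat_lit 8589934592) (.nd (nat_lit 1680) (.br (nat_lit 2) (.ch (nat_lit 0) (.ev (nat_lit
 1696) (nat_lit 17039392) (.ev (nat_lit 1712) (nat_lit 4194304) (.ev (nat_lit 1892) (nat_lit 128) (.ev (nat_lit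
 2752) (nat_lit 1073741824) (.ev (nat_lit 2765) (nat_lit 32768) .dd)))))) (.br (nat_lit 7) (.ch (nat_lit 2)
 (.ev (nat_lit 1696) (nat_lit 1077969056) (.fin (nat_lit 576471197644440130)))) (.ch (nat_lit 7) (.ev (nat_lit
 1696) (nat_lit 1073741824) (.ev (nat_lit 2452) (nat_lit 32768) (.ev (nat_lit 2628) (nat_lit 262144) (.ev
 (nat_lit 2692) (nat_lit 160) (.ev (nat_lit 2784) (nat_lit 16777216) (.ev (nat_lit 2797) (nat_lit 4194304)
 .dd))))))))))))))))))) (.br (nat_lit 36) (.ch (nat_lit 34) (.ev (nat_lit 52) (nat_lit 35433515392) (.ev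
 (nat_lit 148) (nat_lit 1024) (.ev (nat_lit 212) (nat_lit 16) (.ev (nat_lit 500) (nat_lit 4194304) (.ev
 (nat_lit 692) (nat_lit 67108864) (.ev (nat_lit 820) (nat_lit 16777216) (.ev (nat_lit 948) (nat_lit
 68719476736) (.ev (nat_lit 1280) (nat_lit 32) (.nd (nat_lit 1680) (.br (nat_lit 1) (.ch (nat_lit 0) (.ev
 (nat_lit 1696) (nat_lit 8591048704) (.ev (nat_lit 2416) (nat_lit 131072) (.ev (nat_lit 2628) (nat_lit
 33554432) (.ev (nat_lit 2637) (nat_lit 262144) .dd))))) (.br (nat_lit 5) (.ch (nat_lit 1) (.ev (nat_lit 1696)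
 (nat_lit 8623882240) (.ev (nat_lit 1824) (nat_lit 65536) (.ev (nat_lit 1837) (nat_lit 1048576) .dd)))) (.ch
 (nat_lit 5) (.ev (nat_lit 1696) (nat_lit 34668544) (.ev (nat_lit 3540) (nat_lit 131072) (.fin (nat_lit
 576464600599839300))))))))))))))))) (.br (nat_lit 38) (.ch (nat_lit 36) (.ev (nat_lit 52) (nat_lit
 35550986624) (.ev (nat_lit 404) (nat_lit 1056) (.ev (nat_lit 596) (nat_lit 2048) (.ev (nat_lit 884) (nat_lit
 131072) (.ev (nat_lit 980) (nat_lit 1048576) (.nd (nat_lit 1680) (.br (nat_lit 2) (.br (nat_lit 1) (.ch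
 (nat_lit 0) (.ev (nat_lit 1696) (nat_lit 68719738896) (.ev (nat_lit 2692) (nat_lit 4194304) (.ev (nat_lit
 2836) (nat_lit 32768) (.ev (nat_lit 2845) (nat_lit 8589934592) .dd))))) (.ch (nat_lit 1) (.ev (nat_lit 1696)
 (nat_lit 294928) (.ev (nat_lit 1892) (nat_lit 8589934592) (.ev (nat_lit 2566) (nat_lit 68719476736) (.ev
 (nat_lit 2573) (nat_lit 4194304) .dd)))))) (.br (nat_lit 5) (.ch (nat_lit 2) (.ev (nat_lit 1696) (nat_lit
 77313900544) (.ev (nat_lit 1709) (nat_lit 16) .dd))) (.br (nat_lit 10) (.ch (nat_lit 5) (.ev (nat_lit 1696)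
 (nat_lit 68723703808) (.ev (nat_lit 1808) (nat_lit 262144) (.ev (nat_lit 2980) (nat_lit 16) (.ev (nat_lit
 2989) (nat_lit 8589934592) .dd))))) (.ch (nat_lit 10) (.ev (nat_lit 1696) (nat_lit 68723933200) (.nd (nat_lit
 3664) (.br (nat_lit 6) (.ch (nat_lit 5) (.fin (nat_lit 576460202549133910))) (.ch (nat_lit 6) (.ev (nat_lit
 3680) (nat_lit 8589967360) .dd)))))))))))))))) (.ch (nat_lit 38) (.ev (nat_lit 52) (nat_lit 69827037440) (.ev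
 (nat_lit 84) (nat_lit 16) (.ev (nat_lit 180) (nat_lit 131072) (.ev (nat_lit 308) (nat_lit 20971520) (.ev
 (nat_lit 340) (nat_lit 32) (.ev (nat_lit 948) (nat_lit 34359738368) (.ev (nat_lit 1200) (nat_lit 1049600) (.nd
 (nat_lit 1680) (.br (nat_lit 9) (.ch (nat_lit 7) (.ev (nat_lit 1696) (nat_lit 65536) (.ev (nat_lit 3184)
 (nat_lit 8589934592) (.ev (nat_lit 3216) (nat_lit 128) (.fin (nat_lit 576462401588118073)))))) (.br (nat_lit
 10) (.ch (nat_lit 9) (.ev (nat_lit 1696) (nat_lit 8589967360) (.ev (nat_lit 3076) (nat_lit 67108992) (.ev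
 (nat_lit 3085) (nat_lit 65536) .dd)))) (.ch (nat_lit 10) (.ev (nat_lit 1696) (nat_lit 67174528) (.ev (nat_lit
 2292) (nat_lit 8589934592) (.ev (nat_lit 2301) (nat_lit 32768) .dd)))))))))))))))))))) (.br (nat_lit 54) (.br
 (nat_lit 47) (.br (nat_lit 43) (.br (nat_lit 42) (.ch (nat_lit 39) (.ev (nat_lit 52) (nat_lit 37783984) (.ev
 (nat_lit 244) (nat_lit 131072) (.ev (nat_lit 500) (nat_lit 16777216) (.ev (nat_lit 820) (nat_lit 1073741824)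
 (.ev (nat_lit 980) (nat_lit 1024) (.nd (nat_lit 1680) (.br (nat_lit 5) (.br (nat_lit 1) (.ch (nat_lit 0) (.ev
 (nat_lit 1696) (nat_lit 42950000640) (.ev (nat_lit 1744) (nat_lit 1048576) (.ev (nat_lit 2736) (nat_lit
 68719476736) (.ev (nat_lit 2749) (nat_lit 67108864) .dd))))) (.ch (nat_lit 1) (.ev (nat_lit 1696) (nat_lit
 111670460416) (.ev (nat_lit 1924) (nat_lit 65536) (.ev (nat_lit 1933) (nat_lit 67108864) .dd))))) (.br
 (nat_lit 9) (.ch (nat_lit 5) (.ev (nat_lit 1696) (nat_lit 103147438080) (.fin (nat_lit 576464600599839300))))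
 (.br (nat_lit 10) (.ch (nat_lit 9) (.ev (nat_lit 1696) (nat_lit 111670460416) (.ev (nat_lit 3572) (nat_lit
 67108864) (.ev (nat_lit 3581) (nat_lit 65536) .dd)))) (.ch (nat_lit 10) (.ev (nat_lit 1696) (nat_lit
 77377896448) (.ev (nat_lit 1709) (nat_lit 34359738368) .dd))))))))))))) (.ch (nat_lit 42) (.ev (nat_lit 52)
 (nat_lit 8590134272) (.ev (nat_lit 96) (nat_lit 104275935664) .dd)))) (.br (nat_lit 44) (.ch (nat_lit 43) (.ev
 (nat_lit 52) (nat_lit 111669313664) (.ev (nat_lit 148) (nat_lit 256) (.ev (nat_lit 212) (nat_lit 1073741824)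
 (.ev (nat_lit 276) (nat_lit 16) (.ev (nat_lit 340) (nat_lit 1024) (.ev (nat_lit 404) (nat_lit 1048576) (.ev
 (nat_lit 576) (nat_lit 121964576) .dd)))))))) (.br (nat_lit 46) (.ch (nat_lit 44) (.ev (nat_lit 52) (nat_lit
 35438855456) (.ev (nat_lit 244) (nat_lit 33554432) (.ev (nat_lit 276) (nat_lit 68719476864) (.ev (nat_lit 340)
 (nat_lit 8589934592) (.ev (nat_lit 372) (nat_lit 16777216) (.ev (nat_lit 756) (nat_lit 32768) (.ev (nat_lit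
 916) (nat_lit 2048) (.ev (nat_lit 1012) (nat_lit 16) (.ev (nat_lit 1120) (nat_lit 67436544) .dd)))))))))) (.ch
 (nat_lit 46) (.ev (nat_lit 52) (nat_lit 1124173824) (.ev (nat_lit 276) (nat_lit 4194304) (.ev (nat_lit 532)
 (nat_lit 32) (.ev (nat_lit 916) (nat_lit 34359738368) (.ev (nat_lit 1076) (nat_lit 8589934592) (.nd (nat_lit
 1680) (.br (nat_lit 7) (.br (nat_lit 2) (.ch (nat_lit 0) (.ev (nat_lit 1696) (nat_lit 68720919568) (.ev
 (nat_lit 1840) (nat_lit 67108864) (.ev (nat_lit 2640) (nat_lit 256) (.ev (nat_lit 2653) (nat_lit 128) .dd)))))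
 (.ch (nat_lit 2) (.ev (nat_lit 1696) (nat_lit 68786849152) (.ev (nat_lit 1892) (nat_lit 16) (.ev (nat_lit
 2320) (nat_lit 1048576) (.ev (nat_lit 2333) (nat_lit 131072) .dd)))))) (.br (nat_lit 9) (.ch (nat_lit 7) (.ev
 (nat_lit 1696) (nat_lit 68787766544) (.ev (nat_lit 1840) (nat_lit 262144) (.ev (nat_lit 1853) (nat_lit 128)
 .dd)))) (.br (nat_lit 10) (.ch (nat_lit 9) (.ev (nat_lit 1696) (nat_lit 68288896) (.ev (nat_lit 3076) (nat_lit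
 16) (.ev (nat_lit 3168) (nat_lit 68719476736) (.fin (nat_lit 576465700116709950)))))) (.ch (nat_lit 10) (.ev
 (nat_lit 1696) (nat_lit 67503504) (.nd (nat_lit 3664) (.br (nat_lit 9) (.ch (nat_lit 2) (.ev (nat_lit 3680)
 (nat_lit 68720525312) .dd)) (.ch (nat_lit 9) (.fin (nat_lit 576427217205543460)))))))))))))))))))) (.br
 (nat_lit 50) (.br (nat_lit 48) (.ch (nat_lit 47) (.ev (nat_lit 52) (nat_lit 69814257696) (.ev (nat_lit 256)
 (nat_lit 43051812240) .dd))) (.br (nat_lit 49) (.ch (nat_lit 48) (.ev (nat_lit 52) (nat_lit 43021141008) (.ev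
 (nat_lit 468) (nat_lit 33554560) (.ev (nat_lit 820) (nat_lit 68719476736) (.ev (nat_lit 1012) (nat_lit 2048)
 (.nd (nat_lit 1680) (.br (nat_lit 9) (.br (nat_lit 2) (.ch (nat_lit 1) (.ev (nat_lit 1696) (nat_lit 17039360)
 (.ev (nat_lit 1872) (nat_lit 256) (.ev (nat_lit 2068) (nat_lit 65536) (.ev (nat_lit 2208) (nat_lit 1074790400)
 (.ev (nat_lit 2221) (nat_lit 32) .dd)))))) (.ch (nat_lit 2) (.ev (nat_lit 1696) (nat_lit 1376544) (.ev
 (nat_lit 2500) (nat_lit 1073741824) (.ev (nat_lit 2509) (nat_lit 16777216) .dd))))) (.br (nat_lit 10) (.ch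
 (nat_lit 9) (.ev (nat_lit 1696) (nat_lit 1074856192) (.ev (nat_lit 3088) (nat_lit 262144) (.fin (nat_lit
 576471197660168785))))) (.ch (nat_lit 10) (.ev (nat_lit 1696) (nat_lit 1075118080) (.ev (nat_lit 1712)
 (nat_lit 256) (.ev (nat_lit 1728) (nat_lit 16777248) .dd)))))))))))) (.ch (nat_lit 49) (.ev (nat_lit 52)
 (nat_lit 68791045168) (.ev (nat_lit 180) (nat_lit 128) (.ev (nat_lit 480) (nat_lit 44075024640) .dd)))))) (.br
 (nat_lit 51) (.ch (nat_lit 50) (.ev (nat_lit 52) (nat_lit 117473312) (.ev (nat_lit 116) (nat_lit 131072) (.ev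
 (nat_lit 788) (nat_lit 262144) (.ev (nat_lit 852) (nat_lit 65536) (.ev (nat_lit 948) (nat_lit 128) (.ev
 (nat_lit 1108) (nat_lit 1048576) (.ev (nat_lit 1296) (nat_lit 1024) (.nd (nat_lit 1680) (.br (nat_lit 2) (.br
 (nat_lit 1) (.ch (nat_lit 0) (.ev (nat_lit 1696) (nat_lit 35433482256) (.ev (nat_lit 2464) (nat_lit
 8594128896) (.nd (nat_lit 3664) (.br (nat_lit 3) (.ch (nat_lit 2) (.ev (nat_lit 3680) (nat_lit 68719476992)
 .dd)) (.ch (nat_lit 3) (.fin (nat_lit 576465700112515620)))))))) (.ch (nat_lit 1) (.ev (nat_lit 1696) (nat_lit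
 42949673232) (.ev (nat_lit 1892) (nat_lit 1073741824) (.ev (nat_lit 2692) (nat_lit 2048) (.ev (nat_lit 3526)
 (nat_lit 68719476736) (.ev (nat_lit 3533) (nat_lit 4194304) .dd))))))) (.br (nat_lit 5) (.ch (nat_lit 2) (.ev
 (nat_lit 1696) (nat_lit 78387349776) (.ev (nat_lit 1709) (nat_lit 34359738368) .dd))) (.br (nat_lit 10) (.ch
 (nat_lit 5) (.ev (nat_lit 1696) (nat_lit 111673344000) (.ev (nat_lit 2304) (nat_lit 1073741824) (.ev (nat_lit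
 2340) (nat_lit 16) (.ev (nat_lit 3284) (nat_lit 2048) (.ev (nat_lit 3293) (nat_lit 256) .dd)))))) (.ch
 (nat_lit 10) (.ev (nat_lit 1696) (nat_lit 69797413136) (.ev (nat_lit 1808) (nat_lit 2048) (.ev (nat_lit 3024)
 (nat_lit 42949672960) .dd)))))))))))))))) (.br (nat_lit 53) (.ch (nat_lit 51) (.ev (nat_lit 52) (nat_lit
 8662582304) (.ev (nat_lit 116) (nat_lit 34359738368) (.ev (nat_lit 212) (nat_lit 16777216) (.ev (nat_lit 500)
 (nat_lit 68719476736) (.ev (nat_lit 596) (nat_lit 131072) (.ev (nat_lit 628) (nat_lit 1073741824) (.ev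
 (nat_lit 928) (nat_lit 33622416) .dd)))))))) (.ch (nat_lit 53) (.ev (nat_lit 52) (nat_lit 44091637760) (.ev
 (nat_lit 276) (nat_lit 16777216) (.ev (nat_lit 468) (nat_lit 32768) (.ev (nat_lit 724) (nat_lit 68719476736)
 (.ev (nat_lit 852) (nat_lit 32) (.nd (nat_lit 1680) (.br (nat_lit 9) (.br (nat_lit 7) (.ch (nat_lit 1) (.ev
 (nat_lit 1696) (nat_lit 262288) (.ev (nat_lit 2292) (nat_lit 133120) (.ev (nat_lit 3284) (nat_lit 33554432)
 (.ev (nat_lit 3328) (nat_lit 1024) (.ev (nat_lit 3446) (nat_lit 4194560) .dd)))))) (.ch (nat_lit 7) (.ev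
 (nat_lit 1696) (nat_lit 33949072) (.ev (nat_lit 2948) (nat_lit 2048) (.ev (nat_lit 2957) (nat_lit 4194304)
 .dd))))) (.br (nat_lit 10) (.ch (nat_lit 9) (.ev (nat_lit 1696) (nat_lit 4327424) (.ev (nat_lit 1892) (nat_lit
 144) (.ev (nat_lit 1940) (nat_lit 256) (.ev (nat_lit 3312) (nat_lit 262144) (.fin (nat_lit
 576443709900931640))))))) (.ch (nat_lit 10) (.ev (nat_lit 1696) (nat_lit 38143120) (.ev (nat_lit 2452)
 (nat_lit 256) (.ev (nat_lit 2461) (nat_lit 2048) .dd))))))))))))))))) (.br (nat_lit 64) (.br (nat_lit 57) (.br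
 (nat_lit 55) (.ch (nat_lit 54) (.ev (nat_lit 52) (nat_lit 34411251984) (.ev (nat_lit 352) (nat_lit
 78454817952) .dd))) (.ch (nat_lit 55) (.ev (nat_lit 52) (nat_lit 8591051776) (.ev (nat_lit 84) (nat_lit
 4194432) (.ev (nat_lit 116) (nat_lit 16) (.ev (nat_lit 180) (nat_lit 34359738368) (.ev (nat_lit 212) (nat_lit
 163840) (.ev (nat_lit 608) (nat_lit 69910921504) .dd)))))))) (.br (nat_lit 58) (.ch (nat_lit 57) (.ev (nat_lit
 52) (nat_lit 68736387472) (.ev (nat_lit 244) (nat_lit 4194304) (.ev (nat_lit 372) (nat_lit 1073741824) (.ev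
 (nat_lit 416) (nat_lit 43051746336) .dd))))) (.br (nat_lit 62) (.ch (nat_lit 58) (.ev (nat_lit 52) (nat_lit
 121635104) (.ev (nat_lit 116) (nat_lit 68719476736) (.ev (nat_lit 660) (nat_lit 1048576) (.ev (nat_lit 724)
 (nat_lit 2176) (.ev (nat_lit 756) (nat_lit 16) (.ev (nat_lit 1584) (nat_lit 32768) (.nd (nat_lit 1680) (.br
 (nat_lit 7) (.br (nat_lit 5) (.ch (nat_lit 0) (.ev (nat_lit 1696) (nat_lit 42950132736) (.ev (nat_lit 1709)
 (nat_lit 1073741824) .dd))) (.ch (nat_lit 5) (.ev (nat_lit 1696) (nat_lit 44023481344) (.ev (nat_lit 1892)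
 (nat_lit 131072) (.ev (nat_lit 1901) (nat_lit 262144) .dd))))) (.br (nat_lit 9) (.ch (nat_lit 7) (.ev (nat_lit
 1696) (nat_lit 459776) (.ev (nat_lit 2192) (nat_lit 1073741824) (.ev (nat_lit 2304) (nat_lit 8589934592) (.ev
 (nat_lit 2317) (nat_lit 34359738368) .dd))))) (.ch (nat_lit 9) (.ev (nat_lit 1696) (nat_lit 44023545856) (.ev
 (nat_lit 2800) (nat_lit 65536) (.nd (nat_lit 3664) (.br (nat_lit 5) (.ch (nat_lit 3) (.fin (nat_lit
 576456904004813378))) (.ch (nat_lit 5) (.ev (nat_lit 3680) (nat_lit 263168) .dd))))))))))))))))) (.ch (nat_lit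
 62) (.ev (nat_lit 52) (nat_lit 8694891776) (.ev (nat_lit 948) (nat_lit 2048) (.nd (nat_lit 1680) (.br (nat_lit
 2) (.br (nat_lit 1) (.ch (nat_lit 0) (.ev (nat_lit 1696) (nat_lit 104170782768) (.ev (nat_lit 2292) (nat_lit
 131072) (.ev (nat_lit 3606) (nat_lit 262272) .dd)))) (.ch (nat_lit 1) (.ev (nat_lit 1696) (nat_lit
 34376908944) (.ev (nat_lit 1904) (nat_lit 68720525312) (.ev (nat_lit 2836) (nat_lit 32) (.ev (nat_lit 2845)
 (nat_lit 1073741824) .dd)))))) (.br (nat_lit 7) (.ch (nat_lit 2) (.ev (nat_lit 1696) (nat_lit 68719738912)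
 (.ev (nat_lit 1892) (nat_lit 128) (.ev (nat_lit 2340) (nat_lit 16777216) (.ev (nat_lit 2464) (nat_lit 1048576)
 (.ev (nat_lit 2548) (nat_lit 1073741824) (.ev (nat_lit 3248) (nat_lit 131072) (.nd (nat_lit 3664) (.br
 (nat_lit 8) (.ch (nat_lit 7) (.fin (nat_lit 576459103047991871))) (.ch (nat_lit 8) (.ev (nat_lit 3680)
 (nat_lit 34359738384) .dd))))))))))) (.br (nat_lit 9) (.ch (nat_lit 7) (.ev (nat_lit 1696) (nat_lit
 104171175952) (.ev (nat_lit 1808) (nat_lit 32) (.ev (nat_lit 1821) (nat_lit 128) .dd)))) (.ch (nat_lit 9) (.ev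
 (nat_lit 1696) (nat_lit 35434659856) (.ev (nat_lit 2292) (nat_lit 68719476736) (.ev (nat_lit 3396) (nat_lit
 128) (.ev (nat_lit 3428) (nat_lit 262144) (.nd (nat_lit 3664) (.br (nat_lit 4) (.ch (nat_lit 2) (.fin (nat_lit
 576471197660168785))) (.ch (nat_lit 4) (.ev (nat_lit 3680) (nat_lit 16777248) .dd))))))))))))))))))) (.br
 (nat_lit 68) (.br (nat_lit 65) (.ch (nat_lit 64) (.ev (nat_lit 52) (nat_lit 264240) (.ev (nat_lit 84) (nat_lit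
 68719476736) (.ev (nat_lit 564) (nat_lit 1024) (.ev (nat_lit 756) (nat_lit 16777216) (.ev (nat_lit 1044)
 (nat_lit 1048576) (.ev (nat_lit 1076) (nat_lit 256) (.nd (nat_lit 1680) (.br (nat_lit 7) (.br (nat_lit 5) (.ch
 (nat_lit 0) (.ev (nat_lit 1696) (nat_lit 34359836672) (.ev (nat_lit 1892) (nat_lit 128) (.ev (nat_lit 2848)
 (nat_lit 8589934592) (.ev (nat_lit 2884) (nat_lit 1073741824) (.ev (nat_lit 3040) (nat_lit 67108864) (.ev
 (nat_lit 3284) (nat_lit 33554432) (.nd (nat_lit 3664) (.br (nat_lit 2) (.ch (nat_lit 1) (.fin (nat_lit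
 576463501084017227))) (.ch (nat_lit 2) (.ev (nat_lit 3680) (nat_lit 4325376) .dd))))))))))) (.ch (nat_lit 5)
 (.ev (nat_lit 1696) (nat_lit 44128468992) (.ev (nat_lit 1808) (nat_lit 32768) (.ev (nat_lit 1821) (nat_lit
 128) .dd))))) (.br (nat_lit 9) (.ch (nat_lit 7) (.ev (nat_lit 1696) (nat_lit 9701556224) (.ev (nat_lit 3284)
 (nat_lit 34359738368) (.ev (nat_lit 3620) (nat_lit 128) (.ev (nat_lit 3652) (nat_lit 65536) (.nd (nat_lit
 3664) (.br (nat_lit 2) (.ch (nat_lit 0) (.fin (nat_lit 576462401588118073))) (.ch (nat_lit 2) (.ev (nat_lit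
 3680) (nat_lit 67141632) .dd))))))))) (.br (nat_lit 10) (.ch (nat_lit 9) (.ev (nat_lit 1696) (nat_lit
 44094881792) (.ev (nat_lit 2608) (nat_lit 33554432) (.ev (nat_lit 3382) (nat_lit 65664) .dd)))) (.ch (nat_lit
 10) (.ev (nat_lit 1696) (nat_lit 105054336) (.ev (nat_lit 1904) (nat_lit 42949672960) (.ev (nat_lit 2532)
 (nat_lit 32768) (.ev (nat_lit 2541) (nat_lit 1073741824) .dd)))))))))))))))) (.br (nat_lit 67) (.ch (nat_lit
 65) (.ev (nat_lit 52) (nat_lit 34380744832) (.ev (nat_lit 84) (nat_lit 131072) (.ev (nat_lit 500) (nat_lit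
 1073741824) (.ev (nat_lit 916) (nat_lit 16) (.nd (nat_lit 1680) (.br (nat_lit 7) (.br (nat_lit 5) (.ch
 (nat_lit 1) (.ev (nat_lit 1696) (nat_lit 77343293440) (.ev (nat_lit 2352) (nat_lit 1048576) (.ev (nat_lit
 3040) (nat_lit 67108864) (.ev (nat_lit 3284) (nat_lit 288) (.ev (nat_lit 3293) (nat_lit 1024) .dd)))))) (.ch
 (nat_lit 5) (.ev (nat_lit 1696) (nat_lit 68787699744) (.ev (nat_lit 2256) (nat_lit 262144) (.ev (nat_lit 3076)
 (nat_lit 1024) (.ev (nat_lit 3296) (nat_lit 33554432) (.ev (nat_lit 3312) (nat_lit 8589934592) (.ev (nat_lit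
 3325) (nat_lit 256) .dd)))))))) (.br (nat_lit 10) (.ch (nat_lit 7) (.ev (nat_lit 1696) (nat_lit 68787897600)
 (.ev (nat_lit 1892) (nat_lit 32) (.ev (nat_lit 3284) (nat_lit 8589934592) (.nd (nat_lit 3664) (.br (nat_lit
 10) (.ch (nat_lit 2) (.ev (nat_lit 3680) (nat_lit 33619968) .dd)) (.ch (nat_lit 10) (.nd (nat_lit 3697) (.br
 (nat_lit 61) (.ch (nat_lit 23) (.ev (nat_lit 3713) (nat_lit 33619968) .dd)) (.ch (nat_lit 61) (.nd (nat_lit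
 3728) (.ch (nat_lit 1) (.fin (nat_lit 576482192807903800)))))))))))))) (.ch (nat_lit 10) (.ev (nat_lit 1696)
 (nat_lit 100992256) (.ev (nat_lit 1892) (nat_lit 8589934592) (.ev (nat_lit 2340) (nat_lit 32) (.nd (nat_lit
 3664) (.br (nat_lit 9) (.ch (nat_lit 6) (.ev (nat_lit 3680) (nat_lit 68720525312) .dd)) (.ch (nat_lit 9) (.nd
 (nat_lit 3697) (.br (nat_lit 52) (.ch (nat_lit 42) (.nd (nat_lit 3728) (.ch (nat_lit 4) (.fin (nat_lit
 576427217205543460))))) (.ch (nat_lit 52) (.ev (nat_lit 3713) (nat_lit 68720525312) .dd)))))))))))))))))))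
 (.ch (nat_lit 67) (.ev (nat_lit 52) (nat_lit 1178667040) (.ev (nat_lit 84) (nat_lit 32768) (.ev (nat_lit 500)
 (nat_lit 16) (.ev (nat_lit 532) (nat_lit 1024) (.ev (nat_lit 1012) (nat_lit 68719476736) (.ev (nat_lit 1520)
 (nat_lit 1048576) (.nd (nat_lit 1680) (.br (nat_lit 5) (.br (nat_lit 2) (.ch (nat_lit 1) (.ev (nat_lit 1696)
 (nat_lit 34376909184) (.ev (nat_lit 1709) (nat_lit 8589934592) .dd))) (.ch (nat_lit 2) (.ev (nat_lit 1696)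
 (nat_lit 8590197120) (.ev (nat_lit 1892) (nat_lit 34359738368) (.ev (nat_lit 2948) (nat_lit 16777216) (.ev
 (nat_lit 2957) (nat_lit 131072) .dd)))))) (.br (nat_lit 7) (.ch (nat_lit 5) (.ev (nat_lit 1696) (nat_lit
 34376515712) (.ev (nat_lit 3120) (nat_lit 262144) (.ev (nat_lit 3460) (nat_lit 131072) (.nd (nat_lit 3664)
 (.br (nat_lit 5) (.ch (nat_lit 1) (.ev (nat_lit 3680) (nat_lit 8589934848) .dd)) (.ch (nat_lit 5) (.fin
 (nat_lit 576452505968788022))))))))) (.br (nat_lit 9) (.ch (nat_lit 7) (.ev (nat_lit 1696) (nat_lit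
 8590066048) (.ev (nat_lit 1892) (nat_lit 262144) (.ev (nat_lit 2964) (nat_lit 16777216) (.ev (nat_lit 2973)
 (nat_lit 34359738368) .dd))))) (.ch (nat_lit 9) (.ev (nat_lit 1696) (nat_lit 42950066432) (.ev (nat_lit 1840)
 (nat_lit 16777216) (.ev (nat_lit 1853) (nat_lit 128) .dd))))))))))))))))) (.br (nat_lit 69) (.ch (nat_lit 68)
 (.ev (nat_lit 52) (nat_lit 35501738240) (.ev (nat_lit 116) (nat_lit 128) (.ev (nat_lit 436) (nat_lit
 68719476736) (.ev (nat_lit 692) (nat_lit 32) (.ev (nat_lit 788) (nat_lit 1024) (.ev (nat_lit 820) (nat_lit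
 131072) (.nd (nat_lit 1680) (.br (nat_lit 2) (.ch (nat_lit 1) (.ev (nat_lit 1696) (nat_lit 50593808) (.ev
 (nat_lit 1760) (nat_lit 8589934592) (.ev (nat_lit 1773) (nat_lit 4194304) .dd)))) (.br (nat_lit 9) (.ch
 (nat_lit 2) (.ev (nat_lit 1696) (nat_lit 8627683344) (.fin (nat_lit 576451406477083198)))) (.ch (nat_lit 9)
 (.ev (nat_lit 1696) (nat_lit 8594128896) (.ev (nat_lit 2784) (nat_lit 262144) (.ev (nat_lit 2836) (nat_lit
 33554432) (.ev (nat_lit 2848) (nat_lit 16) (.ev (nat_lit 2861) (nat_lit 16777216) .dd)))))))))))))))) (.br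
 (nat_lit 70) (.ch (nat_lit 69) (.ev (nat_lit 52) (nat_lit 77309805872) (.ev (nat_lit 180) (nat_lit 1073741824)
 (.ev (nat_lit 340) (nat_lit 65536) (.ev (nat_lit 500) (nat_lit 32768) (.ev (nat_lit 704) (nat_lit 34482423936)
 .dd)))))) (.ch (nat_lit 70) (.ev (nat_lit 52) (nat_lit 1079411840) (.ev (nat_lit 84) (nat_lit 16777216) (.ev
 (nat_lit 308) (nat_lit 33554432) (.ev (nat_lit 404) (nat_lit 65536) (.ev (nat_lit 596) (nat_lit 68719476736)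
 (.ev (nat_lit 788) (nat_lit 8589934592) (.ev (nat_lit 896) (nat_lit 34426849584) .dd))))))))))))))))

/-- Subtrie. -/
noncomputable def T4 : Tr := (.ev (nat_lit 20) (nat_lit 78521573680) (.nd (nat_lit 33) (.br (nat_lit 39) (.br
 (nat_lit 19) (.br (nat_lit 8) (.br (nat_lit 4) (.br (nat_lit 3) (.ch (nat_lit 1) (.ev (nat_lit 52) (nat_lit
 606470144) (.ev (nat_lit 84) (nat_lit 1048576) (.ev (nat_lit 244) (nat_lit 34359738368) (.ev (nat_lit 564)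
 (nat_lit 1024) (.ev (nat_lit 1408) (nat_lit 2) (.ev (nat_lit 1616) (nat_lit 16777216) (.nd (nat_lit 1680) (.br
 (nat_lit 6) (.br (nat_lit 4) (.ch (nat_lit 0) (.ev (nat_lit 1696) (nat_lit 102528) (.ev (nat_lit 1728)
 (nat_lit 2048) (.ev (nat_lit 2372) (nat_lit 33554432) (.ev (nat_lit 2381) (nat_lit 524288) .dd))))) (.ch
 (nat_lit 4) (.ev (nat_lit 1696) (nat_lit 34179072) (.fin (nat_lit 576465700097835582))))) (.br (nat_lit 8)
 (.ch (nat_lit 6) (.ev (nat_lit 1696) (nat_lit 559232) (.ev (nat_lit 1892) (nat_lit 4096) (.fin (nat_lit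
 576482192807903800))))) (.ch (nat_lit 8) (.ev (nat_lit 1696) (nat_lit 596096) (.ev (nat_lit 3104) (nat_lit
 33554432) (.ev (nat_lit 3117) (nat_lit 32768) .dd)))))))))))))) (.ch (nat_lit 3) (.ev (nat_lit 52) (nat_lit
 69730304) (.ev (nat_lit 128) (nat_lit 34948488322) .dd)))) (.br (nat_lit 5) (.ch (nat_lit 4) (.ev (nat_lit 52)
 (nat_lit 34963724416) (.ev (nat_lit 212) (nat_lit 65536) (.ev (nat_lit 532) (nat_lit 32768) (.ev (nat_lit 564)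
 (nat_lit 262144) (.ev (nat_lit 980) (nat_lit 2097152) (.ev (nat_lit 1044) (nat_lit 1024) (.nd (nat_lit 1680)
 (.br (nat_lit 6) (.br (nat_lit 5) (.ch (nat_lit 4) (.ev (nat_lit 1696) (nat_lit 35258368) (.ev (nat_lit 3088)
 (nat_lit 2) (.ev (nat_lit 3101) (nat_lit 16777216) .dd)))) (.ch (nat_lit 5) (.ev (nat_lit 1696) (nat_lit
 33685506) (.ev (nat_lit 2292) (nat_lit 1048576) (.ev (nat_lit 3312) (nat_lit 17301504) .dd))))) (.br (nat_lit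
 8) (.ch (nat_lit 6) (.ev (nat_lit 1696) (nat_lit 17825794) (.ev (nat_lit 1856) (nat_lit 524288) (.ev (nat_lit
 2176) (nat_lit 131072) (.ev (nat_lit 2189) (nat_lit 33554432) .dd))))) (.ch (nat_lit 8) (.ev (nat_lit 1696)
 (nat_lit 35258370) (.ev (nat_lit 1709) (nat_lit 16777216) .dd))))))))))))) (.br (nat_lit 7) (.ch (nat_lit 5)
 (.ev (nat_lit 52) (nat_lit 67994626) (.ev (nat_lit 276) (nat_lit 128) (.nd (nat_lit 1680) (.br (nat_lit 5)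
 (.br (nat_lit 4) (.ch (nat_lit 0) (.ev (nat_lit 1696) (nat_lit 34949173248) (.nd (nat_lit 3664) (.br (nat_lit
 7) (.ch (nat_lit 5) (.fin (nat_lit 576473396725367368))) (.ch (nat_lit 7) (.ev (nat_lit 3680) (nat_lit
 1050624) .dd)))))) (.ch (nat_lit 4) (.ev (nat_lit 1696) (nat_lit 34933442560) (.ev (nat_lit 1840) (nat_lit
 16777216) (.ev (nat_lit 1853) (nat_lit 4096) .dd))))) (.br (nat_lit 6) (.ch (nat_lit 5) (.ev (nat_lit 1696)
 (nat_lit 34393430016) (.ev (nat_lit 2292) (nat_lit 2097152) (.ev (nat_lit 2320) (nat_lit 1048576) (.fin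
 (nat_lit 576470098152735294)))))) (.br (nat_lit 7) (.ch (nat_lit 6) (.ev (nat_lit 1696) (nat_lit 34916534272)
 (.ev (nat_lit 1840) (nat_lit 33554432) (.ev (nat_lit 2784) (nat_lit 131072) (.ev (nat_lit 2797) (nat_lit 4096)
 .dd))))) (.ch (nat_lit 7) (.ev (nat_lit 1696) (nat_lit 588386304) (.ev (nat_lit 1892) (nat_lit 2097152) (.ev
 (nat_lit 2672) (nat_lit 34359738368) (.ev (nat_lit 2685) (nat_lit 2048) .dd)))))))))))) (.ch (nat_lit 7) (.ev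
 (nat_lit 52) (nat_lit 34460993666) (.ev (nat_lit 148) (nat_lit 262144) (.ev (nat_lit 436) (nat_lit 1052672)
 (.ev (nat_lit 660) (nat_lit 2097152) (.ev (nat_lit 980) (nat_lit 32768) (.ev (nat_lit 1056) (nat_lit
 553780224) .dd)))))))))) (.br (nat_lit 15) (.br (nat_lit 11) (.ch (nat_lit 8) (.ev (nat_lit 52) (nat_lit
 34900345856) (.ev (nat_lit 244) (nat_lit 16777216) (.ev (nat_lit 544) (nat_lit 101095554) .dd)))) (.br
 (nat_lit 12) (.ch (nat_lit 11) (.ev (nat_lit 52) (nat_lit 34377697282) (.ev (nat_lit 276) (nat_lit 4096) (.ev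
 (nat_lit 340) (nat_lit 1024) (.ev (nat_lit 564) (nat_lit 524288) (.ev (nat_lit 628) (nat_lit 536870912) (.ev
 (nat_lit 852) (nat_lit 2097152) (.ev (nat_lit 1456) (nat_lit 128) (.nd (nat_lit 1680) (.br (nat_lit 7) (.br
 (nat_lit 2) (.ch (nat_lit 0) (.ev (nat_lit 1696) (nat_lit 67207168) (.ev (nat_lit 1728) (nat_lit 33554432)
 (.ev (nat_lit 1741) (nat_lit 262144) .dd)))) (.ch (nat_lit 2) (.ev (nat_lit 1696) (nat_lit 32768) (.ev
 (nat_lit 1856) (nat_lit 33554432) (.ev (nat_lit 3588) (nat_lit 65536) (.nd (nat_lit 3664) (.br (nat_lit 10)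
 (.ch (nat_lit 7) (.fin (nat_lit 576473396651967043))) (.ch (nat_lit 10) (.ev (nat_lit 3680) (nat_lit 67371008)
 .dd))))))))) (.br (nat_lit 8) (.ch (nat_lit 7) (.ev (nat_lit 1696) (nat_lit 100925440) (.ev (nat_lit 1892)
 (nat_lit 32768) (.ev (nat_lit 1901) (nat_lit 65536) .dd)))) (.ch (nat_lit 8) (.ev (nat_lit 1696) (nat_lit
 100761600) (.ev (nat_lit 1709) (nat_lit 262144) .dd)))))))))))))) (.ch (nat_lit 12) (.ev (nat_lit 52) (nat_lit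
 84054144) (.ev (nat_lit 84) (nat_lit 65536) (.ev (nat_lit 436) (nat_lit 2) (.ev (nat_lit 660) (nat_lit 524288)
 (.ev (nat_lit 916) (nat_lit 34359738368) (.ev (nat_lit 1076) (nat_lit 33554432) (.ev (nat_lit 1312) (nat_lit
 2048) (.nd (nat_lit 1680) (.br (nat_lit 6) (.br (nat_lit 5) (.ch (nat_lit 2) (.ev (nat_lit 1696) (nat_lit
 3407872) (.ev (nat_lit 1728) (nat_lit 536870912) (.ev (nat_lit 1741) (nat_lit 1024) .dd)))) (.ch (nat_lit 5)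
 (.ev (nat_lit 1696) (nat_lit 537134080) (.ev (nat_lit 1892) (nat_lit 1048576) (.ev (nat_lit 1901) (nat_lit
 2097152) .dd))))) (.br (nat_lit 7) (.ch (nat_lit 6) (.ev (nat_lit 1696) (nat_lit 1048576) (.ev (nat_lit 1856)
 (nat_lit 536870912) (.ev (nat_lit 3476) (nat_lit 2097152) (.nd (nat_lit 3664) (.br (nat_lit 10) (.ch (nat_lit
 5) (.ev (nat_lit 3680) (nat_lit 263168) .dd)) (.ch (nat_lit 10) (.fin (nat_lit 576427217195057725)))))))))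
 (.ch (nat_lit 7) (.ev (nat_lit 1696) (nat_lit 540278784) (.ev (nat_lit 1709) (nat_lit 1024)
 .dd)))))))))))))))) (.br (nat_lit 16) (.ch (nat_lit 15) (.ev (nat_lit 52) (nat_lit 34379925506) (.ev (nat_lit
 148) (nat_lit 33554432) (.ev (nat_lit 212) (nat_lit 536870912) (.ev (nat_lit 1552) (nat_lit 1024) (.nd
 (nat_lit 1680) (.br (nat_lit 4) (.br (nat_lit 2) (.ch (nat_lit 0) (.ev (nat_lit 1696) (nat_lit 67276928) (.ev
 (nat_lit 1840) (nat_lit 65536) (.ev (nat_lit 1853) (nat_lit 524288) .dd)))) (.ch (nat_lit 2) (.ev (nat_lit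
 1696) (nat_lit 67637376) (.ev (nat_lit 1892) (nat_lit 131072) (.ev (nat_lit 2292) (nat_lit 32768) (.ev
 (nat_lit 2301) (nat_lit 65536) .dd)))))) (.br (nat_lit 7) (.ch (nat_lit 4) (.ev (nat_lit 1696) (nat_lit
 622592) (.ev (nat_lit 2160) (nat_lit 131072) (.ev (nat_lit 3572) (nat_lit 67108864) (.nd (nat_lit 3664) (.br
 (nat_lit 10) (.ch (nat_lit 3) (.ev (nat_lit 3680) (nat_lit 4224) .dd)) (.ch (nat_lit 10) (.fin (nat_lit
 576456904023687746))))))))) (.br (nat_lit 8) (.ch (nat_lit 7) (.ev (nat_lit 1696) (nat_lit 659584) (.ev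
 (nat_lit 1892) (nat_lit 32768) (.ev (nat_lit 3364) (nat_lit 65536) (.ev (nat_lit 3373) (nat_lit 67108864)
 .dd))))) (.ch (nat_lit 8) (.ev (nat_lit 1696) (nat_lit 67862656) (.ev (nat_lit 1709) (nat_lit 4096)
 .dd)))))))))))) (.br (nat_lit 18) (.ch (nat_lit 16) (.ev (nat_lit 52) (nat_lit 589041666) (.ev (nat_lit 512)
 (nat_lit 34429176960) .dd))) (.ch (nat_lit 18) (.ev (nat_lit 52) (nat_lit 100800642) (.ev (nat_lit 116)
 (nat_lit 1048576) (.ev (nat_lit 308) (nat_lit 65536) (.ev (nat_lit 628) (nat_lit 34359738368) (.nd (nat_lit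
 1680) (.br (nat_lit 5) (.br (nat_lit 4) (.ch (nat_lit 2) (.ev (nat_lit 1696) (nat_lit 19661824) (.ev (nat_lit
 3460) (nat_lit 536870912) (.ev (nat_lit 3469) (nat_lit 32768) .dd)))) (.ch (nat_lit 4) (.ev (nat_lit 1696)
 (nat_lit 556303360) (.ev (nat_lit 1709) (nat_lit 262144) .dd)))) (.br (nat_lit 6) (.ch (nat_lit 5) (.ev
 (nat_lit 1696) (nat_lit 537691136) (.fin (nat_lit 576466799618900548)))) (.br (nat_lit 8) (.ch (nat_lit 6)
 (.ev (nat_lit 1696) (nat_lit 19169280) (.ev (nat_lit 1744) (nat_lit 1024) (.ev (nat_lit 2384) (nat_lit 524288)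
 (.ev (nat_lit 2397) (nat_lit 536870912) .dd))))) (.ch (nat_lit 8) (.ev (nat_lit 1696) (nat_lit 19661824) (.ev
 (nat_lit 1924) (nat_lit 32768) (.ev (nat_lit 1933) (nat_lit 536870912) .dd))))))))))))))))) (.br (nat_lit 29)
 (.br (nat_lit 23) (.br (nat_lit 22) (.ch (nat_lit 19) (.ev (nat_lit 52) (nat_lit 34897530880) (.ev (nat_lit
 180) (nat_lit 16777216) (.ev (nat_lit 212) (nat_lit 128) (.ev (nat_lit 628) (nat_lit 2) (.ev (nat_lit 1152)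
 (nat_lit 68157440) (.nd (nat_lit 1680) (.br (nat_lit 7) (.ch (nat_lit 6) (.ev (nat_lit 1696) (nat_lit 2198528)
 (.ev (nat_lit 1709) (nat_lit 33554432) .dd))) (.br (nat_lit 8) (.ch (nat_lit 7) (.ev (nat_lit 1696) (nat_lit
 33587200) (.ev (nat_lit 1892) (nat_lit 2099200) (.ev (nat_lit 2054) (nat_lit 65536) (.ev (nat_lit 2061)
 (nat_lit 1024) .dd))))) (.ch (nat_lit 8) (.ev (nat_lit 1696) (nat_lit 35720192) (.ev (nat_lit 1709) (nat_lit
 32768) .dd)))))))))))) (.ch (nat_lit 22) (.ev (nat_lit 52) (nat_lit 68293760) (.ev (nat_lit 84) (nat_lit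
 536870912) (.ev (nat_lit 148) (nat_lit 2097152) (.ev (nat_lit 180) (nat_lit 2) (.ev (nat_lit 340) (nat_lit
 2048) (.ev (nat_lit 832) (nat_lit 34410954752) .dd)))))))) (.br (nat_lit 24) (.ch (nat_lit 23) (.ev (nat_lit
 52) (nat_lit 638390272) (.ev (nat_lit 372) (nat_lit 34359738368) (.ev (nat_lit 596) (nat_lit 2) (.ev (nat_lit
 852) (nat_lit 131072) (.ev (nat_lit 1012) (nat_lit 128) (.nd (nat_lit 1680) (.br (nat_lit 7) (.ch (nat_lit 6)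
 (.ev (nat_lit 1696) (nat_lit 19957760) (.ev (nat_lit 1709) (nat_lit 1024) .dd))) (.br (nat_lit 8) (.ch
 (nat_lit 7) (.ev (nat_lit 1696) (nat_lit 1049600) (.ev (nat_lit 1712) (nat_lit 16779264) (.fin (nat_lit
 576470098148540996))))) (.ch (nat_lit 8) (.ev (nat_lit 1696) (nat_lit 18910208) (.ev (nat_lit 1709) (nat_lit
 1048576) .dd)))))))))))) (.br (nat_lit 26) (.ch (nat_lit 24) (.ev (nat_lit 52) (nat_lit 538118272) (.ev
 (nat_lit 404) (nat_lit 32768) (.ev (nat_lit 660) (nat_lit 262144) (.ev (nat_lit 756) (nat_lit 16777216) (.ev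
 (nat_lit 1044) (nat_lit 33554432) (.ev (nat_lit 1328) (nat_lit 524288) (.nd (nat_lit 1680) (.br (nat_lit 5)
 (.br (nat_lit 2) (.ch (nat_lit 0) (.ev (nat_lit 1696) (nat_lit 34426851330) (.ev (nat_lit 2100) (nat_lit
 2097152) (.ev (nat_lit 2109) (nat_lit 1024) .dd)))) (.ch (nat_lit 2) (.ev (nat_lit 1696) (nat_lit 34361835522)
 (.ev (nat_lit 1872) (nat_lit 67108864) (.ev (nat_lit 2928) (nat_lit 1024) (.ev (nat_lit 2941) (nat_lit 4096)
 .dd)))))) (.br (nat_lit 7) (.ch (nat_lit 5) (.ev (nat_lit 1696) (nat_lit 67113984) (.ev (nat_lit 1872)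
 (nat_lit 34359738368) (.ev (nat_lit 2372) (nat_lit 2) (.ev (nat_lit 2381) (nat_lit 2097152) .dd))))) (.ch
 (nat_lit 7) (.ev (nat_lit 1696) (nat_lit 34426851330) (.ev (nat_lit 1972) (nat_lit 1024) (.ev (nat_lit 1981)
 (nat_lit 2097152) .dd)))))))))))))) (.ch (nat_lit 26) (.ev (nat_lit 52) (nat_lit 68124800) (.ev (nat_lit 340)
 (nat_lit 2097152) (.ev (nat_lit 372) (nat_lit 2) (.ev (nat_lit 468) (nat_lit 16777216) (.ev (nat_lit 596)
 (nat_lit 4096) (.ev (nat_lit 756) (nat_lit 34359738368) (.ev (nat_lit 948) (nat_lit 536870912) (.ev (nat_lit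
 1024) (nat_lit 34606080) .dd)))))))))))) (.br (nat_lit 34) (.br (nat_lit 31) (.ch (nat_lit 29) (.ev (nat_lit
 52) (nat_lit 84154370) (.ev (nat_lit 384) (nat_lit 34934064256) .dd))) (.br (nat_lit 33) (.ch (nat_lit 31)
 (.ev (nat_lit 52) (nat_lit 589825026) (.ev (nat_lit 276) (nat_lit 1048576) (.ev (nat_lit 372) (nat_lit 65536)
 (.ev (nat_lit 436) (nat_lit 34359738368) (.ev (nat_lit 660) (nat_lit 67108864) (.nd (nat_lit 1680) (.br
 (nat_lit 6) (.ch (nat_lit 0) (.ev (nat_lit 1696) (nat_lit 166016) (.fin (nat_lit 576440411339833918)))) (.br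
 (nat_lit 7) (.ch (nat_lit 6) (.ev (nat_lit 1696) (nat_lit 34816) (.ev (nat_lit 2432) (nat_lit 262144) (.ev
 (nat_lit 2452) (nat_lit 131072) (.ev (nat_lit 2592) (nat_lit 128) (.ev (nat_lit 2605) (nat_lit 4096) .dd))))))
 (.ch (nat_lit 7) (.ev (nat_lit 1696) (nat_lit 397440) (.ev (nat_lit 1760) (nat_lit 2048) (.ev (nat_lit 1773)
 (nat_lit 32768) .dd))))))))))))) (.ch (nat_lit 33) (.ev (nat_lit 52) (nat_lit 34427964418) (.ev (nat_lit 84)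
 (nat_lit 4096) (.ev (nat_lit 660) (nat_lit 163840) (.ev (nat_lit 884) (nat_lit 128) (.nd (nat_lit 1680) (.br
 (nat_lit 6) (.br (nat_lit 4) (.ch (nat_lit 0) (.ev (nat_lit 1696) (nat_lit 52428800) (.ev (nat_lit 1892)
 (nat_lit 262144) (.ev (nat_lit 2836) (nat_lit 524288) (.ev (nat_lit 2845) (nat_lit 536870912) .dd))))) (.ch
 (nat_lit 4) (.ev (nat_lit 1696) (nat_lit 36175872) (.ev (nat_lit 2292) (nat_lit 536870912) (.ev (nat_lit 2480)
 (nat_lit 16777216) (.ev (nat_lit 2493) (nat_lit 262144) .dd)))))) (.br (nat_lit 7) (.ch (nat_lit 6) (.ev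
 (nat_lit 1696) (nat_lit 554172416) (.ev (nat_lit 1808) (nat_lit 33554432) (.ev (nat_lit 2240) (nat_lit
 2097152) (.ev (nat_lit 2253) (nat_lit 262144) .dd))))) (.br (nat_lit 8) (.ch (nat_lit 7) (.ev (nat_lit 1696)
 (nat_lit 587988992) (.ev (nat_lit 1709) (nat_lit 2097152) .dd))) (.ch (nat_lit 8) (.ev (nat_lit 1696) (nat_lit
 573046784) (.nd (nat_lit 3664) (.br (nat_lit 8) (.ch (nat_lit 4) (.ev (nat_lit 3680) (nat_lit 17039360) .dd))
 (.ch (nat_lit 8) (.fin (nat_lit 576451406477083198)))))))))))))))))) (.br (nat_lit 36) (.ch (nat_lit 34) (.ev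
 (nat_lit 52) (nat_lit 34359773314) (.ev (nat_lit 116) (nat_lit 4096) (.ev (nat_lit 692) (nat_lit 33816576)
 (.ev (nat_lit 1140) (nat_lit 65536) (.ev (nat_lit 1600) (nat_lit 1048576) (.nd (nat_lit 1680) (.br (nat_lit 6)
 (.br (nat_lit 5) (.ch (nat_lit 4) (.ev (nat_lit 1696) (nat_lit 623379456) (.ev (nat_lit 1709) (nat_lit 131072)
 .dd))) (.ch (nat_lit 5) (.ev (nat_lit 1696) (nat_lit 2753536) (.ev (nat_lit 2656) (nat_lit 67108864) (.nd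
 (nat_lit 3664) (.br (nat_lit 7) (.ch (nat_lit 6) (.ev (nat_lit 3680) (nat_lit 553648128) .dd)) (.ch (nat_lit
 7) (.fin (nat_lit 576452505968788034))))))))) (.br (nat_lit 7) (.ch (nat_lit 6) (.ev (nat_lit 1696) (nat_lit
 622854144) (.ev (nat_lit 3076) (nat_lit 524288) (.ev (nat_lit 3152) (nat_lit 131072) (.ev (nat_lit 3165)
 (nat_lit 1024) .dd))))) (.ch (nat_lit 7) (.ev (nat_lit 1696) (nat_lit 604636160) (.ev (nat_lit 1892) (nat_lit
 2097152) (.ev (nat_lit 1901) (nat_lit 16777216) .dd))))))))))))) (.br (nat_lit 38) (.ch (nat_lit 36) (.ev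
 (nat_lit 52) (nat_lit 35014115456) (.ev (nat_lit 116) (nat_lit 2) (.ev (nat_lit 308) (nat_lit 4096) (.ev
 (nat_lit 640) (nat_lit 4099072) .dd))))) (.ch (nat_lit 38) (.ev (nat_lit 52) (nat_lit 36444160) (.ev (nat_lit
 116) (nat_lit 536870912) (.ev (nat_lit 180) (nat_lit 1048576) (.ev (nat_lit 436) (nat_lit 128) (.ev (nat_lit
 948) (nat_lit 65536) (.ev (nat_lit 1168) (nat_lit 34376646656) (.nd (nat_lit 1680) (.br (nat_lit 7) (.ch
 (nat_lit 6) (.ev (nat_lit 1696) (nat_lit 67141634) (.ev (nat_lit 1709) (nat_lit 1024) .dd))) (.br (nat_lit 8)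
 (.ch (nat_lit 7) (.ev (nat_lit 1696) (nat_lit 1026) (.ev (nat_lit 1712) (nat_lit 67141632) .dd))) (.ch
 (nat_lit 8) (.ev (nat_lit 1696) (nat_lit 67142656) (.ev (nat_lit 1709) (nat_lit 2) .dd)))))))))))))))))) (.br
 (nat_lit 54) (.br (nat_lit 47) (.br (nat_lit 43) (.br (nat_lit 42) (.ch (nat_lit 39) (.ev (nat_lit 52)
 (nat_lit 570464384) (.ev (nat_lit 212) (nat_lit 16777216) (.ev (nat_lit 404) (nat_lit 2097152) (.ev (nat_lit
 468) (nat_lit 1048576) (.ev (nat_lit 672) (nat_lit 34427831298) .dd)))))) (.ch (nat_lit 42) (.ev (nat_lit 52)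
 (nat_lit 2296834) (.ev (nat_lit 212) (nat_lit 1048576) (.ev (nat_lit 564) (nat_lit 67108864) (.ev (nat_lit
 1248) (nat_lit 34359738368) (.nd (nat_lit 1680) (.br (nat_lit 6) (.br (nat_lit 4) (.ch (nat_lit 0) (.ev
 (nat_lit 1696) (nat_lit 50364544) (.ev (nat_lit 1892) (nat_lit 524288) (.ev (nat_lit 2900) (nat_lit 4096) (.ev
 (nat_lit 3494) (nat_lit 537133056) .dd))))) (.ch (nat_lit 4) (.ev (nat_lit 1696) (nat_lit 34115584) (.ev
 (nat_lit 2836) (nat_lit 262144) (.ev (nat_lit 3296) (nat_lit 16777216) (.nd (nat_lit 3664) (.br (nat_lit 4)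
 (.ch (nat_lit 0) (.fin (nat_lit 576465700112515680))) (.ch (nat_lit 4) (.ev (nat_lit 3680) (nat_lit 536871040)
 .dd))))))))) (.br (nat_lit 7) (.ch (nat_lit 6) (.ev (nat_lit 1696) (nat_lit 553943040) (.ev (nat_lit 3284)
 (nat_lit 34078720) (.ev (nat_lit 3296) (nat_lit 128) (.ev (nat_lit 3309) (nat_lit 4096) .dd))))) (.br (nat_lit
 8) (.ch (nat_lit 7) (.ev (nat_lit 1696) (nat_lit 587993216) (.ev (nat_lit 1709) (nat_lit 32768) .dd))) (.ch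
 (nat_lit 8) (.ev (nat_lit 1696) (nat_lit 571211904) (.ev (nat_lit 1808) (nat_lit 4096) (.ev (nat_lit 2240)
 (nat_lit 32768) (.ev (nat_lit 2253) (nat_lit 16777216) .dd))))))))))))))) (.br (nat_lit 44) (.ch (nat_lit 43)
 (.ev (nat_lit 52) (nat_lit 34896773248) (.ev (nat_lit 212) (nat_lit 4096) (.ev (nat_lit 436) (nat_lit 65536)
 (.ev (nat_lit 532) (nat_lit 33554432) (.ev (nat_lit 692) (nat_lit 2048) (.ev (nat_lit 884) (nat_lit 2) (.ev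
 (nat_lit 1076) (nat_lit 524288) (.ev (nat_lit 1344) (nat_lit 1024) (.nd (nat_lit 1680) (.br (nat_lit 7) (.ch
 (nat_lit 4) (.ev (nat_lit 1696) (nat_lit 69206016) (.ev (nat_lit 2224) (nat_lit 16777216) (.ev (nat_lit 2512)
 (nat_lit 262144) (.ev (nat_lit 2525) (nat_lit 1048576) .dd))))) (.br (nat_lit 8) (.ch (nat_lit 7) (.ev
 (nat_lit 1696) (nat_lit 18087936) (.ev (nat_lit 1792) (nat_lit 2097152) (.ev (nat_lit 1805) (nat_lit 67108864)
 .dd)))) (.ch (nat_lit 8) (.ev (nat_lit 1696) (nat_lit 85983232) (.ev (nat_lit 3216) (nat_lit 262144) (.ev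
 (nat_lit 3229) (nat_lit 1048576) .dd)))))))))))))))) (.br (nat_lit 46) (.ch (nat_lit 44) (.ev (nat_lit 52)
 (nat_lit 34898314242) (.ev (nat_lit 276) (nat_lit 16777216) (.ev (nat_lit 372) (nat_lit 128) (.ev (nat_lit
 532) (nat_lit 2048) (.ev (nat_lit 852) (nat_lit 262144) (.nd (nat_lit 1680) (.br (nat_lit 7) (.ch (nat_lit 6)
 (.ev (nat_lit 1696) (nat_lit 69308416) (.ev (nat_lit 1709) (nat_lit 33554432) .dd))) (.br (nat_lit 8) (.ch
 (nat_lit 7) (.ev (nat_lit 1696) (nat_lit 33558528) (.ev (nat_lit 1712) (nat_lit 67174400) (.fin (nat_lit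
 576470098148540996))))) (.ch (nat_lit 8) (.ev (nat_lit 1696) (nat_lit 102858752) (.ev (nat_lit 1709) (nat_lit
 4096) .dd)))))))))))) (.ch (nat_lit 46) (.ev (nat_lit 52) (nat_lit 53057538) (.ev (nat_lit 244) (nat_lit 128)
 (.ev (nat_lit 276) (nat_lit 536870912) (.ev (nat_lit 532) (nat_lit 67108864) (.ev (nat_lit 692) (nat_lit
 131072) (.ev (nat_lit 980) (nat_lit 262144) (.ev (nat_lit 1088) (nat_lit 34360787968) .dd))))))))))) (.br
 (nat_lit 50) (.br (nat_lit 48) (.ch (nat_lit 47) (.ev (nat_lit 52) (nat_lit 556337154) (.ev (nat_lit 756)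
 (nat_lit 128) (.ev (nat_lit 788) (nat_lit 262144) (.ev (nat_lit 1044) (nat_lit 67108864) (.nd (nat_lit 1680)
 (.br (nat_lit 5) (.br (nat_lit 4) (.ch (nat_lit 2) (.ev (nat_lit 1696) (nat_lit 34359742464) (.ev (nat_lit
 1872) (nat_lit 1024) (.ev (nat_lit 2068) (nat_lit 33554432) (.ev (nat_lit 3168) (nat_lit 1179648) (.ev
 (nat_lit 3181) (nat_lit 32768) .dd)))))) (.ch (nat_lit 4) (.ev (nat_lit 1696) (nat_lit 34735104) (.ev (nat_lit
 3200) (nat_lit 4096) (.fin (nat_lit 576451406450868808)))))) (.br (nat_lit 7) (.ch (nat_lit 5) (.ev (nat_lit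
 1696) (nat_lit 33723392) (.ev (nat_lit 2816) (nat_lit 1048576) (.ev (nat_lit 2829) (nat_lit 34359738368)
 .dd)))) (.ch (nat_lit 7) (.ev (nat_lit 1696) (nat_lit 34738176) (.ev (nat_lit 1712) (nat_lit 1024) (.ev
 (nat_lit 1728) (nat_lit 34359771136) .dd)))))))))))) (.br (nat_lit 49) (.ch (nat_lit 48) (.ev (nat_lit 52)
 (nat_lit 34963887104) (.ev (nat_lit 180) (nat_lit 65664) (.ev (nat_lit 276) (nat_lit 2) (.ev (nat_lit 308)
 (nat_lit 1048576) (.nd (nat_lit 1680) (.br (nat_lit 4) (.br (nat_lit 2) (.ch (nat_lit 0) (.ev (nat_lit 1696)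
 (nat_lit 18874368) (.ev (nat_lit 2304) (nat_lit 524288) (.ev (nat_lit 2948) (nat_lit 33554432) (.ev (nat_lit
 3284) (nat_lit 2048) (.ev (nat_lit 3293) (nat_lit 262144) .dd)))))) (.ch (nat_lit 2) (.ev (nat_lit 1696)
 (nat_lit 2883584) (.ev (nat_lit 1958) (nat_lit 50331648) (.ev (nat_lit 1965) (nat_lit 2048) .dd))))) (.br
 (nat_lit 5) (.ch (nat_lit 4) (.ev (nat_lit 1696) (nat_lit 36175872) (.ev (nat_lit 2464) (nat_lit 262144) (.ev
 (nat_lit 3284) (nat_lit 16777216) (.ev (nat_lit 3293) (nat_lit 2048) .dd))))) (.br (nat_lit 8) (.ch (nat_lit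
 5) (.ev (nat_lit 1696) (nat_lit 33818624) (.ev (nat_lit 1776) (nat_lit 2621440) (.ev (nat_lit 1789) (nat_lit
 16777216) .dd)))) (.ch (nat_lit 8) (.ev (nat_lit 1696) (nat_lit 2885632) (.ev (nat_lit 2116) (nat_lit
 33554432) (.ev (nat_lit 2125) (nat_lit 16777216) .dd))))))))))))) (.ch (nat_lit 49) (.ev (nat_lit 52) (nat_lit
 67374082) (.ev (nat_lit 468) (nat_lit 128) (.ev (nat_lit 692) (nat_lit 524288) (.ev (nat_lit 820) (nat_lit
 34359738368) (.ev (nat_lit 1536) (nat_lit 33554432) (.nd (nat_lit 1680) (.br (nat_lit 4) (.ch (nat_lit 2) (.ev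
 (nat_lit 1696) (nat_lit 553779200) (.ev (nat_lit 2416) (nat_lit 1048576) (.ev (nat_lit 2836) (nat_lit 2097152)
 (.ev (nat_lit 2848) (nat_lit 65536) (.ev (nat_lit 3620) (nat_lit 4096) (.ev (nat_lit 3629) (nat_lit 32768)
 .dd))))))) (.br (nat_lit 5) (.ch (nat_lit 4) (.ev (nat_lit 1696) (nat_lit 19988480) (.ev (nat_lit 2452)
 (nat_lit 131072) (.ev (nat_lit 2576) (nat_lit 536870912) (.ev (nat_lit 3412) (nat_lit 32768) (.ev (nat_lit
 3421) (nat_lit 4096) .dd)))))) (.ch (nat_lit 5) (.ev (nat_lit 1696) (nat_lit 537104384) (.ev (nat_lit 1712)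
 (nat_lit 1048576) (.fin (nat_lit 576466799618900548)))))))))))))))) (.br (nat_lit 51) (.ch (nat_lit 50) (.ev
 (nat_lit 52) (nat_lit 117473280) (.ev (nat_lit 244) (nat_lit 4096) (.ev (nat_lit 724) (nat_lit 2) (.ev
 (nat_lit 788) (nat_lit 2097152) (.ev (nat_lit 884) (nat_lit 34359738368) (.ev (nat_lit 916) (nat_lit
 536870912) (.ev (nat_lit 1360) (nat_lit 128) (.nd (nat_lit 1680) (.br (nat_lit 6) (.br (nat_lit 2) (.ch
 (nat_lit 0) (.ev (nat_lit 1696) (nat_lit 655360) (.ev (nat_lit 1892) (nat_lit 262144) (.ev (nat_lit 2948)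
 (nat_lit 65536) (.ev (nat_lit 3056) (nat_lit 1024) (.nd (nat_lit 3664) (.br (nat_lit 5) (.ch (nat_lit 2) (.ev
 (nat_lit 3680) (nat_lit 1050624) .dd)) (.ch (nat_lit 5) (.fin (nat_lit 576473396725367368)))))))))) (.ch
 (nat_lit 2) (.ev (nat_lit 1696) (nat_lit 985088) (.ev (nat_lit 2340) (nat_lit 1048576) (.ev (nat_lit 2349)
 (nat_lit 1024) .dd))))) (.br (nat_lit 8) (.ch (nat_lit 6) (.ev (nat_lit 1696) (nat_lit 1050624) (.ev (nat_lit
 2532) (nat_lit 65536) (.nd (nat_lit 3664) (.br (nat_lit 10) (.ch (nat_lit 4) (.ev (nat_lit 3680) (nat_lit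
 263168) (.nd (nat_lit 3697) (.br (nat_lit 70) (.ch (nat_lit 69) (.ev (nat_lit 3713) (nat_lit 655360) .dd))
 (.ch (nat_lit 70) (.nd (nat_lit 3728) (.br (nat_lit 8) (.ch (nat_lit 2) (.ev (nat_lit 3744) (nat_lit 655360)
 .dd)) (.ch (nat_lit 8) (.fin (nat_lit 576461302059713084)))))))))) (.ch (nat_lit 10) (.ev (nat_lit 3680)
 (nat_lit 655360) (.fin (nat_lit 576427217195057725))))))))) (.ch (nat_lit 8) (.ev (nat_lit 1696) (nat_lit
 1772544) (.ev (nat_lit 1709) (nat_lit 262144) .dd)))))))))))))) (.br (nat_lit 53) (.ch (nat_lit 51) (.ev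
 (nat_lit 52) (nat_lit 70550528) (.ev (nat_lit 84) (nat_lit 128) (.ev (nat_lit 244) (nat_lit 536870912) (.ev
 (nat_lit 500) (nat_lit 16777216) (.ev (nat_lit 916) (nat_lit 2) (.ev (nat_lit 980) (nat_lit 33554432) (.nd
 (nat_lit 1680) (.br (nat_lit 7) (.br (nat_lit 5) (.ch (nat_lit 2) (.ev (nat_lit 1696) (nat_lit 34360266752)
 (.ev (nat_lit 1856) (nat_lit 2048) (.ev (nat_lit 3136) (nat_lit 65536) (.ev (nat_lit 3149) (nat_lit 131072)
 .dd))))) (.ch (nat_lit 5) (.ev (nat_lit 1696) (nat_lit 200704) (.ev (nat_lit 3104) (nat_lit 524288) (.ev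
 (nat_lit 3248) (nat_lit 34359740416) .dd))))) (.br (nat_lit 8) (.ch (nat_lit 7) (.ev (nat_lit 1696) (nat_lit
 727040) (.ev (nat_lit 1709) (nat_lit 34359738368) .dd))) (.ch (nat_lit 8) (.ev (nat_lit 1696) (nat_lit 722944)
 (.ev (nat_lit 2304) (nat_lit 4096) (.ev (nat_lit 2317) (nat_lit 34359738368) .dd)))))))))))))) (.ch (nat_lit
 53) (.ev (nat_lit 52) (nat_lit 34964832258) (.ev (nat_lit 148) (nat_lit 1024) (.ev (nat_lit 372) (nat_lit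
 16777216) (.ev (nat_lit 404) (nat_lit 524288) (.ev (nat_lit 564) (nat_lit 2097152) (.ev (nat_lit 820) (nat_lit
 128) (.ev (nat_lit 1472) (nat_lit 33554432) (.nd (nat_lit 1680) (.br (nat_lit 6) (.ch (nat_lit 0) (.ev
 (nat_lit 1696) (nat_lit 165888) (.ev (nat_lit 2022) (nat_lit 4096) (.ev (nat_lit 2029) (nat_lit 262144)
 .dd)))) (.br (nat_lit 7) (.ch (nat_lit 6) (.ev (nat_lit 1696) (nat_lit 34816) (.ev (nat_lit 3014) (nat_lit
 266240) (.ev (nat_lit 3021) (nat_lit 131072) .dd)))) (.ch (nat_lit 7) (.ev (nat_lit 1696) (nat_lit 397312)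
 (.ev (nat_lit 1792) (nat_lit 2048) (.ev (nat_lit 1805) (nat_lit 32768) .dd))))))))))))))))))) (.br (nat_lit
 64) (.br (nat_lit 57) (.br (nat_lit 55) (.ch (nat_lit 54) (.ev (nat_lit 52) (nat_lit 34413873154) (.ev
 (nat_lit 308) (nat_lit 128) (.ev (nat_lit 884) (nat_lit 536870912) (.nd (nat_lit 1680) (.br (nat_lit 6) (.br
 (nat_lit 5) (.ch (nat_lit 2) (.ev (nat_lit 1696) (nat_lit 37888) (.ev (nat_lit 3076) (nat_lit 327680) (.ev
 (nat_lit 3085) (nat_lit 67108864) .dd)))) (.ch (nat_lit 5) (.ev (nat_lit 1696) (nat_lit 267264) (.ev (nat_lit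
 1972) (nat_lit 67108864) (.ev (nat_lit 2086) (nat_lit 32768) (.ev (nat_lit 2093) (nat_lit 65536) .dd))))))
 (.br (nat_lit 7) (.ch (nat_lit 6) (.ev (nat_lit 1696) (nat_lit 67403776) (.ev (nat_lit 1776) (nat_lit 5120)
 (.ev (nat_lit 1789) (nat_lit 65536) .dd)))) (.br (nat_lit 8) (.ch (nat_lit 7) (.ev (nat_lit 1696) (nat_lit
 67376128) (.ev (nat_lit 1988) (nat_lit 32768) (.ev (nat_lit 1997) (nat_lit 65536) .dd)))) (.ch (nat_lit 8)
 (.ev (nat_lit 1696) (nat_lit 66560) (.ev (nat_lit 2036) (nat_lit 262144) (.ev (nat_lit 2452) (nat_lit 32768)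
 (.ev (nat_lit 3296) (nat_lit 4096) (.ev (nat_lit 3309) (nat_lit 67108864) .dd)))))))))))))) (.ch (nat_lit 55)
 (.ev (nat_lit 52) (nat_lit 538512386) (.ev (nat_lit 436) (nat_lit 16777216) (.ev (nat_lit 468) (nat_lit
 34359738368) (.ev (nat_lit 1108) (nat_lit 33554432) (.ev (nat_lit 1376) (nat_lit 128) (.nd (nat_lit 1680) (.br
 (nat_lit 7) (.ch (nat_lit 4) (.ev (nat_lit 1696) (nat_lit 69210112) (.ev (nat_lit 2768) (nat_lit 294912) (.ev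
 (nat_lit 2781) (nat_lit 131072) .dd)))) (.br (nat_lit 8) (.ch (nat_lit 7) (.ev (nat_lit 1696) (nat_lit 430080)
 (.ev (nat_lit 1824) (nat_lit 67108864) (.ev (nat_lit 1837) (nat_lit 2097152) .dd)))) (.ch (nat_lit 8) (.ev
 (nat_lit 1696) (nat_lit 69337088) (.ev (nat_lit 3508) (nat_lit 262144) (.fin (nat_lit
 576458003530072636))))))))))))))) (.br (nat_lit 58) (.ch (nat_lit 57) (.ev (nat_lit 52) (nat_lit 19007616)
 (.ev (nat_lit 244) (nat_lit 1048576) (.ev (nat_lit 404) (nat_lit 33554432) (.ev (nat_lit 596) (nat_lit 65536)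
 (.ev (nat_lit 852) (nat_lit 1024) (.ev (nat_lit 1140) (nat_lit 2) (.nd (nat_lit 1680) (.br (nat_lit 4) (.br
 (nat_lit 2) (.ch (nat_lit 0) (.ev (nat_lit 1696) (nat_lit 34964275200) (.fin (nat_lit 576482192781689410))))
 (.ch (nat_lit 2) (.ev (nat_lit 1696) (nat_lit 34427375616) (.ev (nat_lit 2292) (nat_lit 262144) (.ev (nat_lit
 3248) (nat_lit 32768) (.ev (nat_lit 3261) (nat_lit 536870912) .dd)))))) (.br (nat_lit 5) (.ch (nat_lit 4) (.ev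
 (nat_lit 1696) (nat_lit 537395200) (.ev (nat_lit 2500) (nat_lit 262144) (.ev (nat_lit 2864) (nat_lit 4096)
 (.ev (nat_lit 3284) (nat_lit 67108864) (.nd (nat_lit 3664) (.br (nat_lit 3) (.ch (nat_lit 0) (.ev (nat_lit
 3680) (nat_lit 34359771136) .dd)) (.ch (nat_lit 3) (.fin (nat_lit 576451406450868808)))))))))) (.br (nat_lit
 8) (.ch (nat_lit 5) (.ev (nat_lit 1696) (nat_lit 299008) (.ev (nat_lit 1904) (nat_lit 67108864) (.ev (nat_lit
 2292) (nat_lit 34359738368) (.ev (nat_lit 3284) (nat_lit 524288) (.ev (nat_lit 3293) (nat_lit 536870912)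
 .dd)))))) (.ch (nat_lit 8) (.ev (nat_lit 1696) (nat_lit 604540928) (.ev (nat_lit 1808) (nat_lit 34359738368)
 (.ev (nat_lit 1821) (nat_lit 262144) .dd))))))))))))))) (.br (nat_lit 62) (.ch (nat_lit 58) (.ev (nat_lit 52)
 (nat_lit 117444608) (.ev (nat_lit 84) (nat_lit 34359738368) (.ev (nat_lit 148) (nat_lit 524288) (.ev (nat_lit
 308) (nat_lit 536870912) (.ev (nat_lit 340) (nat_lit 131072) (.ev (nat_lit 500) (nat_lit 65536) (.ev (nat_lit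
 564) (nat_lit 2048) (.ev (nat_lit 756) (nat_lit 2) (.ev (nat_lit 960) (nat_lit 3441792) .dd)))))))))) (.ch
 (nat_lit 62) (.ev (nat_lit 52) (nat_lit 101286912) (.ev (nat_lit 500) (nat_lit 1048576) (.ev (nat_lit 596)
 (nat_lit 34359738368) (.nd (nat_lit 1680) (.br (nat_lit 7) (.br (nat_lit 5) (.ch (nat_lit 4) (.ev (nat_lit
 1696) (nat_lit 18876416) (.ev (nat_lit 1892) (nat_lit 393216) (.ev (nat_lit 1940) (nat_lit 2) (.ev (nat_lit
 3040) (nat_lit 4096) (.fin (nat_lit 576456904009007648))))))) (.ch (nat_lit 5) (.ev (nat_lit 1696) (nat_lit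
 397312) (.ev (nat_lit 2272) (nat_lit 16777216) (.ev (nat_lit 2548) (nat_lit 128) (.ev (nat_lit 3284) (nat_lit
 2097152) (.ev (nat_lit 3296) (nat_lit 536870912) (.ev (nat_lit 3558) (nat_lit 2050) .dd)))))))) (.br (nat_lit
 8) (.ch (nat_lit 7) (.ev (nat_lit 1696) (nat_lit 539365506) (.ev (nat_lit 3364) (nat_lit 16777216) (.ev
 (nat_lit 3373) (nat_lit 2048) .dd)))) (.ch (nat_lit 8) (.ev (nat_lit 1696) (nat_lit 539367552) (.ev (nat_lit
 2836) (nat_lit 2) (.ev (nat_lit 2845) (nat_lit 16777216) .dd)))))))))))))) (.br (nat_lit 68) (.br (nat_lit 65)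
 (.ch (nat_lit 64) (.ev (nat_lit 52) (nat_lit 539236354) (.ev (nat_lit 320) (nat_lit 34478982272) .dd))) (.br
 (nat_lit 67) (.ch (nat_lit 65) (.ev (nat_lit 52) (nat_lit 34376550530) (.ev (nat_lit 404) (nat_lit 1024) (.ev
 (nat_lit 532) (nat_lit 2097152) (.ev (nat_lit 628) (nat_lit 4096) (.ev (nat_lit 1440) (nat_lit 1048576) (.nd
 (nat_lit 1680) (.br (nat_lit 6) (.br (nat_lit 2) (.ch (nat_lit 0) (.ev (nat_lit 1696) (nat_lit 604962816) (.ev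
 (nat_lit 1709) (nat_lit 33554432) .dd))) (.ch (nat_lit 2) (.ev (nat_lit 1696) (nat_lit 655360) (.ev (nat_lit
 1892) (nat_lit 33554432) (.ev (nat_lit 2272) (nat_lit 65536) (.ev (nat_lit 3364) (nat_lit 536870912) (.nd
 (nat_lit 3664) (.br (nat_lit 7) (.ch (nat_lit 5) (.ev (nat_lit 3680) (nat_lit 67371008) .dd)) (.ch (nat_lit 7)
 (.fin (nat_lit 576473396651967043))))))))))) (.br (nat_lit 7) (.ch (nat_lit 6) (.ev (nat_lit 1696) (nat_lit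
 67371008) (.ev (nat_lit 2900) (nat_lit 536870912) (.nd (nat_lit 3664) (.br (nat_lit 8) (.ch (nat_lit 4) (.ev
 (nat_lit 3680) (nat_lit 33619968) (.nd (nat_lit 3697) (.br (nat_lit 62) (.ch (nat_lit 20) (.ev (nat_lit 3713)
 (nat_lit 655360) .dd)) (.ch (nat_lit 62) (.nd (nat_lit 3728) (.br (nat_lit 8) (.ch (nat_lit 4) (.ev (nat_lit
 3744) (nat_lit 655360) .dd)) (.ch (nat_lit 8) (.fin (nat_lit 576461302059713084)))))))))) (.ch (nat_lit 8)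
 (.ev (nat_lit 3680) (nat_lit 655360) (.fin (nat_lit 576482192807903800))))))))) (.ch (nat_lit 7) (.ev (nat_lit
 1696) (nat_lit 571342848) (.ev (nat_lit 2692) (nat_lit 67108864) (.ev (nat_lit 2701) (nat_lit 65536)
 .dd))))))))))))) (.ch (nat_lit 67) (.ev (nat_lit 52) (nat_lit 639698946) (.ev (nat_lit 404) (nat_lit 131072)
 (.ev (nat_lit 532) (nat_lit 524288) (.ev (nat_lit 724) (nat_lit 1048576) (.ev (nat_lit 768) (nat_lit
 34376815744) .dd)))))))) (.br (nat_lit 69) (.ch (nat_lit 68) (.ev (nat_lit 52) (nat_lit 34427996160) (.ev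
 (nat_lit 340) (nat_lit 524288) (.ev (nat_lit 372) (nat_lit 4096) (.ev (nat_lit 500) (nat_lit 536870912) (.ev
 (nat_lit 660) (nat_lit 33554432) (.nd (nat_lit 1680) (.br (nat_lit 6) (.br (nat_lit 5) (.ch (nat_lit 2) (.ev
 (nat_lit 1696) (nat_lit 1152) (.ev (nat_lit 2480) (nat_lit 262144) (.ev (nat_lit 2848) (nat_lit 16777216) (.ev
 (nat_lit 3264) (nat_lit 131072) (.nd (nat_lit 3664) (.br (nat_lit 10) (.ch (nat_lit 9) (.ev (nat_lit 3680)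
 (nat_lit 2097154) .dd)) (.ch (nat_lit 10) (.fin (nat_lit 576460202533405240)))))))))) (.ch (nat_lit 5) (.ev
 (nat_lit 1696) (nat_lit 2491392) (.ev (nat_lit 2996) (nat_lit 16777216) (.ev (nat_lit 3040) (nat_lit 2) (.ev
 (nat_lit 3053) (nat_lit 128) .dd)))))) (.br (nat_lit 7) (.ch (nat_lit 6) (.ev (nat_lit 1696) (nat_lit
 17039362) (.ev (nat_lit 1904) (nat_lit 131072) (.ev (nat_lit 2292) (nat_lit 1024) (.ev (nat_lit 3284) (nat_lit
 2097152) (.ev (nat_lit 3293) (nat_lit 128) .dd)))))) (.br (nat_lit 8) (.ch (nat_lit 7) (.ev (nat_lit 1696)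
 (nat_lit 394370) (.ev (nat_lit 1808) (nat_lit 2097152) (.ev (nat_lit 1821) (nat_lit 16777216) .dd)))) (.ch
 (nat_lit 8) (.ev (nat_lit 1696) (nat_lit 2229378) (.fin (nat_lit 576471197644440130)))))))))))))) (.br
 (nat_lit 70) (.ch (nat_lit 69) (.ev (nat_lit 52) (nat_lit 537265154) (.ev (nat_lit 148) (nat_lit 67108864)
 (.ev (nat_lit 308) (nat_lit 34359738368) (.ev (nat_lit 340) (nat_lit 33554432) (.ev (nat_lit 1568) (nat_lit
 1048576) (.nd (nat_lit 1680) (.br (nat_lit 6) (.ch (nat_lit 2) (.ev (nat_lit 1696) (nat_lit 557184) (.ev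
 (nat_lit 2692) (nat_lit 4096) (.ev (nat_lit 2704) (nat_lit 2048) (.ev (nat_lit 2768) (nat_lit 16777216) (.ev
 (nat_lit 3396) (nat_lit 65536) (.ev (nat_lit 3405) (nat_lit 2097152) .dd))))))) (.br (nat_lit 8) (.ch (nat_lit
 6) (.ev (nat_lit 1696) (nat_lit 16816128) (.ev (nat_lit 2836) (nat_lit 524416) (.ev (nat_lit 3636) (nat_lit
 2097152) (.ev (nat_lit 3645) (nat_lit 65536) .dd))))) (.ch (nat_lit 8) (.ev (nat_lit 1696) (nat_lit 2689152)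
 (.ev (nat_lit 1712) (nat_lit 16777216) (.fin (nat_lit 576458003530072636)))))))))))))) (.ch (nat_lit 70) (.ev
 (nat_lit 52) (nat_lit 538346624) (.ev (nat_lit 116) (nat_lit 34359738368) (.ev (nat_lit 788) (nat_lit
 33554432) (.ev (nat_lit 1140) (nat_lit 4096) (.ev (nat_lit 1232) (nat_lit 67110912) (.nd (nat_lit 1680) (.br
 (nat_lit 6) (.ch (nat_lit 2) (.ev (nat_lit 1696) (nat_lit 524288) (.ev (nat_lit 2512) (nat_lit 16777216) (.ev
 (nat_lit 3104) (nat_lit 65536) (.fin (nat_lit 576460202533405240)))))) (.br (nat_lit 8) (.ch (nat_lit 6) (.ev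
 (nat_lit 1696) (nat_lit 16777218) (.ev (nat_lit 2292) (nat_lit 524288) (.ev (nat_lit 3284) (nat_lit 65536)
 (.ev (nat_lit 3293) (nat_lit 2097152) .dd))))) (.ch (nat_lit 8) (.ev (nat_lit 1696) (nat_lit 2686976) (.ev
 (nat_lit 3076) (nat_lit 16777216) (.ev (nat_lit 3085) (nat_lit 2) .dd)))))))))))))))))))))

/-- The trie. -/
noncomputable def T : Tr := .nd (nat_lit 1000000) (.br (nat_lit 4) (.br (nat_lit 1) (.ch (nat_lit 0) (.ev
 (nat_lit 0) (nat_lit 137438953471) .dd)) (.ch (nat_lit 1) T1)) (.br (nat_lit 5) (.ch (nat_lit 4) T4) (.br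
 (nat_lit 10) (.ch (nat_lit 5) (.ev (nat_lit 0) (nat_lit 137438953471) .dd)) (.ch (nat_lit 10) (.ev (nat_lit 0)
 (nat_lit 137438953471) .dd)))))

/-- The possible values. -/
noncomputable def oks : List ℕ := [34, 67, 210, 234, 565, 1015, 1890, 2765]

/-- The parameters. -/
noncomputable def S : Pr := ⟨fun i l e => lget mz (lget [] (lget [] tabs i) l) e, oks, [(nat_lit 0), (nat_lit
 1), (nat_lit 0), (nat_lit 0), (nat_lit 1), (nat_lit 0)], T, (nat_lit 137438953471), (nat_lit 23899161165),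
 (nat_lit 37), [(nat_lit 1057), (nat_lit 87122173451996128837)], [(nat_lit 19487171), (nat_lit 25411681)]⟩

/-- Nothing known. -/
noncomputable def cs0 : Cs := (.cons (nat_lit 11) (nat_lit 0) (nat_lit 1) (.cons (nat_lit 71) (nat_lit 0) (nat_lit 1) .nil))

theorem part_1 : part S cs0 (nat_lit 1) = true := by decide +kernel

theorem part_4 : part S cs0 (nat_lit 4) = true := by decide +kernel

/-- Data of a prime. -/
noncomputable def D0 : PD := ⟨(nat_lit 11), (nat_lit 7), (6190614, 3, 3), (12381250, 14211882, 1830652), (13368790, 19487156, 19487136)⟩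

theorem D0_ok : D0.Ok := pdb_sound (s := 1) (C := ⟨⟨9, -6, -17, -1, -14, 8, -4, -1, -1⟩, (9, 10, 7)⟩) (by show Nat.Prime 11; norm_num) (by decide +kernel)

/-- Lines of the first type. -/
noncomputable def Cl0 : List C1 := [⟨⟨-9, 6, -8, 1, 14, 7, 4, 1, -5⟩, (4, 2, 8)⟩,
  ⟨⟨0, 0, 0, 0, 0, 0, 0, 0, 0⟩, (0, 0, 0)⟩,
  ⟨⟨0, 0, 0, 0, 0, 0, 0, 0, 0⟩, (0, 0, 0)⟩,
  ⟨⟨0, 0, 0, 0, 0, 0, 0, 0, 0⟩, (0, 0, 0)⟩,
  ⟨⟨0, 0, 0, 0, 0, 0, 0, 0, 0⟩, (0, 0, 0)⟩,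
  ⟨⟨9, 6, -17, -1, 14, 8, -4, 1, -1⟩, (8, 4, 5)⟩,
  ⟨⟨0, 0, 0, 0, 0, 0, 0, 0, 0⟩, (0, 0, 0)⟩,
  ⟨⟨0, 0, 0, 0, 0, 0, 0, 0, 0⟩, (0, 0, 0)⟩,
  ⟨⟨0, 0, 0, 0, 0, 0, 0, 0, 0⟩, (0, 0, 0)⟩,
  ⟨⟨0, 0, 0, 0, 0, 0, 0, 0, 0⟩, (0, 0, 0)⟩,
  ⟨⟨-9, -6, -8, 1, -14, 7, 4, -1, -5⟩, (7, 9, 3)⟩]

/-- Data of a prime. -/
noncomputable def D1 : PD := ⟨(nat_lit 71), (nat_lit 4), (11251584, 9, 33), (23923522, 720358, 4464657), (17637591, 10151933, 2206443)⟩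

theorem D1_ok : D1.Ok := pdb_sound (s := 11) (C := ⟨⟨59, 34, -112, -29, 94, 37, -24, -3, -11⟩, (59, 42, 47)⟩) (by show Nat.Prime 71; norm_num) (by decide +kernel)

/-- Lines of the first type. -/
noncomputable def Cl1 : List C1 := [⟨⟨-59, -34, -53, 29, -94, 8, 24, 3, -35⟩, (17, 47, 34)⟩,
  ⟨⟨0, 0, 0, 0, 0, 0, 0, 0, 0⟩, (0, 0, 0)⟩,
  ⟨⟨49, -74, -77, 79, 14, 28, 12, 21, -29⟩, (59, 56, 13)⟩,
  ⟨⟨0, 0, 0, 0, 0, 0, 0, 0, 0⟩, (0, 0, 0)⟩,
  ⟨⟨0, 0, 0, 0, 0, 0, 0, 0, 0⟩, (0, 0, 0)⟩,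
  ⟨⟨0, 0, 0, 0, 0, 0, 0, 0, 0⟩, (0, 0, 0)⟩,
  ⟨⟨79, -14, -107, 49, 74, 28, -12, 21, -17⟩, (44, 21, 5)⟩,
  ⟨⟨0, 0, 0, 0, 0, 0, 0, 0, 0⟩, (0, 0, 0)⟩,
  ⟨⟨0, 0, 0, 0, 0, 0, 0, 0, 0⟩, (0, 0, 0)⟩,
  ⟨⟨39, 66, -92, -89, 46, 37, -8, -19, -23⟩, (13, 65, 21)⟩,
  ⟨⟨19, 46, -107, -91, -26, 8, 12, -27, -19⟩, (7, 30, 53)⟩,
  ⟨⟨0, 0, 0, 0, 0, 0, 0, 0, 0⟩, (0, 0, 0)⟩,
  ⟨⟨0, 0, 0, 0, 0, 0, 0, 0, 0⟩, (0, 0, 0)⟩,
  ⟨⟨99, 6, -67, 11, -94, 32, -4, -11, -31⟩, (13, 33, 59)⟩,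
  ⟨⟨-39, -66, -53, -89, 46, 52, 8, 19, -31⟩, (17, 57, 22)⟩,
  ⟨⟨0, 0, 0, 0, 0, 0, 0, 0, 0⟩, (0, 0, 0)⟩,
  ⟨⟨0, 0, 0, 0, 0, 0, 0, 0, 0⟩, (0, 0, 0)⟩,
  ⟨⟨19, -46, -107, -91, 26, 8, 12, 27, -19⟩, (15, 44, 2)⟩,
  ⟨⟨0, 0, 0, 0, 0, 0, 0, 0, 0⟩, (0, 0, 0)⟩,
  ⟨⟨0, 0, 0, 0, 0, 0, 0, 0, 0⟩, (0, 0, 0)⟩,
  ⟨⟨51, 66, -88, -59, 74, 67, -20, -5, -17⟩, (59, 64, 59)⟩,
  ⟨⟨49, 74, -77, 79, -14, 28, 12, -21, -29⟩, (6, 43, 29)⟩,
  ⟨⟨0, 0, 0, 0, 0, 0, 0, 0, 0⟩, (0, 0, 0)⟩,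
  ⟨⟨0, 0, 0, 0, 0, 0, 0, 0, 0⟩, (0, 0, 0)⟩,
  ⟨⟨0, 0, 0, 0, 0, 0, 0, 0, 0⟩, (0, 0, 0)⟩,
  ⟨⟨31, 74, -83, -81, 54, 68, -16, -13, -19⟩, (8, 2, 60)⟩,
  ⟨⟨0, 0, 0, 0, 0, 0, 0, 0, 0⟩, (0, 0, 0)⟩,
  ⟨⟨11, 94, -43, -99, 6, 32, 4, -11, -35⟩, (69, 18, 38)⟩,
  ⟨⟨-51, 66, -37, 59, 74, 8, 20, -5, -37⟩, (25, 56, 25)⟩,
  ⟨⟨0, 0, 0, 0, 0, 0, 0, 0, 0⟩, (0, 0, 0)⟩,
  ⟨⟨39, -66, -92, -89, -46, 37, -8, 19, -23⟩, (43, 2, 64)⟩,
  ⟨⟨0, 0, 0, 0, 0, 0, 0, 0, 0⟩, (0, 0, 0)⟩,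
  ⟨⟨59, -34, -112, -29, -94, 37, -24, 3, -11⟩, (9, 4, 18)⟩,
  ⟨⟨0, 0, 0, 0, 0, 0, 0, 0, 0⟩, (0, 0, 0)⟩,
  ⟨⟨0, 0, 0, 0, 0, 0, 0, 0, 0⟩, (0, 0, 0)⟩,
  ⟨⟨-59, 34, -53, 29, 94, 8, 24, -3, -35⟩, (8, 43, 16)⟩,
  ⟨⟨0, 0, 0, 0, 0, 0, 0, 0, 0⟩, (0, 0, 0)⟩,
  ⟨⟨11, -94, -43, -99, -6, 32, 4, 11, -35⟩, (2, 53, 33)⟩,
  ⟨⟨0, 0, 0, 0, 0, 0, 0, 0, 0⟩, (0, 0, 0)⟩,
  ⟨⟨0, 0, 0, 0, 0, 0, 0, 0, 0⟩, (0, 0, 0)⟩,
  ⟨⟨51, -66, -88, -59, -74, 67, -20, 5, -17⟩, (18, 46, 18)⟩,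
  ⟨⟨-19, -46, -88, -91, -26, 83, -12, 27, -7⟩, (26, 61, 65)⟩,
  ⟨⟨0, 0, 0, 0, 0, 0, 0, 0, 0⟩, (0, 0, 0)⟩,
  ⟨⟨0, 0, 0, 0, 0, 0, 0, 0, 0⟩, (0, 0, 0)⟩,
  ⟨⟨0, 0, 0, 0, 0, 0, 0, 0, 0⟩, (0, 0, 0)⟩,
  ⟨⟨-19, 46, -88, -91, 26, 83, -12, -27, -7⟩, (18, 4, 45)⟩,
  ⟨⟨0, 0, 0, 0, 0, 0, 0, 0, 0⟩, (0, 0, 0)⟩,
  ⟨⟨0, 0, 0, 0, 0, 0, 0, 0, 0⟩, (0, 0, 0)⟩,
  ⟨⟨0, 0, 0, 0, 0, 0, 0, 0, 0⟩, (0, 0, 0)⟩,
  ⟨⟨0, 0, 0, 0, 0, 0, 0, 0, 0⟩, (0, 0, 0)⟩,
  ⟨⟨0, 0, 0, 0, 0, 0, 0, 0, 0⟩, (0, 0, 0)⟩,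
  ⟨⟨0, 0, 0, 0, 0, 0, 0, 0, 0⟩, (0, 0, 0)⟩,
  ⟨⟨99, -6, -67, 11, 94, 32, -4, 11, -31⟩, (48, 29, 54)⟩,
  ⟨⟨0, 0, 0, 0, 0, 0, 0, 0, 0⟩, (0, 0, 0)⟩,
  ⟨⟨0, 0, 0, 0, 0, 0, 0, 0, 0⟩, (0, 0, 0)⟩,
  ⟨⟨0, 0, 0, 0, 0, 0, 0, 0, 0⟩, (0, 0, 0)⟩,
  ⟨⟨-51, -66, -37, 59, -74, 8, 20, 5, -37⟩, (55, 38, 55)⟩,
  ⟨⟨0, 0, 0, 0, 0, 0, 0, 0, 0⟩, (0, 0, 0)⟩,
  ⟨⟨0, 0, 0, 0, 0, 0, 0, 0, 0⟩, (0, 0, 0)⟩,
  ⟨⟨-31, -74, -52, -81, 54, 13, 16, 13, -35⟩, (64, 55, 54)⟩,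
  ⟨⟨-31, 74, -52, -81, -54, 13, 16, -13, -35⟩, (11, 15, 47)⟩,
  ⟨⟨-39, 66, -53, -89, -46, 52, 8, -19, -31⟩, (58, 65, 50)⟩,
  ⟨⟨0, 0, 0, 0, 0, 0, 0, 0, 0⟩, (0, 0, 0)⟩,
  ⟨⟨79, 14, -107, 49, -74, 28, -12, -21, -17⟩, (57, 3, 21)⟩,
  ⟨⟨0, 0, 0, 0, 0, 0, 0, 0, 0⟩, (0, 0, 0)⟩,
  ⟨⟨0, 0, 0, 0, 0, 0, 0, 0, 0⟩, (0, 0, 0)⟩,
  ⟨⟨31, -74, -83, -81, -54, 68, -16, 13, -19⟩, (61, 33, 67)⟩,
  ⟨⟨0, 0, 0, 0, 0, 0, 0, 0, 0⟩, (0, 0, 0)⟩,
  ⟨⟨0, 0, 0, 0, 0, 0, 0, 0, 0⟩, (0, 0, 0)⟩,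
  ⟨⟨0, 0, 0, 0, 0, 0, 0, 0, 0⟩, (0, 0, 0)⟩,
  ⟨⟨0, 0, 0, 0, 0, 0, 0, 0, 0⟩, (0, 0, 0)⟩]

/-- Data of a prime. -/
noncomputable def Dm : PD := ⟨(nat_lit 37), (nat_lit 2), (556, 16, 5), (1239, 947, 1101), (730, 506, 467)⟩

theorem Dm_ok : Dm.Ok := pdb_sound (s := 2) (C := ⟨⟨43, 22, -44, 23, -2, 41, 6, -15, -7⟩, (6, 23, 6)⟩) (by show Nat.Prime 37; norm_num) (by decide +kernel)

/-- Lines of the first type. -/
noncomputable def Clm : List C1 := [⟨⟨23, -2, -64, 43, 22, 1, -6, 15, -1⟩, (31, 29, 8)⟩,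
  ⟨⟨0, 0, 0, 0, 0, 0, 0, 0, 0⟩, (0, 0, 0)⟩,
  ⟨⟨-7, 22, -49, 27, 42, 4, 14, -7, -13⟩, (1, 12, 35)⟩,
  ⟨⟨-13, 38, -31, -47, -22, 16, 6, -9, -17⟩, (20, 4, 5)⟩,
  ⟨⟨0, 0, 0, 0, 0, 0, 0, 0, 0⟩, (0, 0, 0)⟩,
  ⟨⟨0, 0, 0, 0, 0, 0, 0, 0, 0⟩, (0, 0, 0)⟩,
  ⟨⟨7, 22, -56, -27, 42, 31, 14, 7, -1⟩, (18, 31, 36)⟩,
  ⟨⟨0, 0, 0, 0, 0, 0, 0, 0, 0⟩, (0, 0, 0)⟩,
  ⟨⟨0, 0, 0, 0, 0, 0, 0, 0, 0⟩, (0, 0, 0)⟩,
  ⟨⟨13, -38, -44, -47, -22, 31, -6, 9, -11⟩, (18, 26, 23)⟩,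
  ⟨⟨0, 0, 0, 0, 0, 0, 0, 0, 0⟩, (0, 0, 0)⟩,
  ⟨⟨0, 0, 0, 0, 0, 0, 0, 0, 0⟩, (0, 0, 0)⟩,
  ⟨⟨0, 0, 0, 0, 0, 0, 0, 0, 0⟩, (0, 0, 0)⟩,
  ⟨⟨0, 0, 0, 0, 0, 0, 0, 0, 0⟩, (0, 0, 0)⟩,
  ⟨⟨13, 38, -44, -47, 22, 31, -6, -9, -11⟩, (4, 14, 1)⟩,
  ⟨⟨0, 0, 0, 0, 0, 0, 0, 0, 0⟩, (0, 0, 0)⟩,
  ⟨⟨0, 0, 0, 0, 0, 0, 0, 0, 0⟩, (0, 0, 0)⟩,
  ⟨⟨0, 0, 0, 0, 0, 0, 0, 0, 0⟩, (0, 0, 0)⟩,
  ⟨⟨0, 0, 0, 0, 0, 0, 0, 0, 0⟩, (0, 0, 0)⟩,
  ⟨⟨0, 0, 0, 0, 0, 0, 0, 0, 0⟩, (0, 0, 0)⟩,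
  ⟨⟨0, 0, 0, 0, 0, 0, 0, 0, 0⟩, (0, 0, 0)⟩,
  ⟨⟨0, 0, 0, 0, 0, 0, 0, 0, 0⟩, (0, 0, 0)⟩,
  ⟨⟨0, 0, 0, 0, 0, 0, 0, 0, 0⟩, (0, 0, 0)⟩,
  ⟨⟨-7, -22, -49, 27, -42, 4, 14, 7, -13⟩, (13, 8, 11)⟩,
  ⟨⟨0, 0, 0, 0, 0, 0, 0, 0, 0⟩, (0, 0, 0)⟩,
  ⟨⟨0, 0, 0, 0, 0, 0, 0, 0, 0⟩, (0, 0, 0)⟩,
  ⟨⟨0, 0, 0, 0, 0, 0, 0, 0, 0⟩, (0, 0, 0)⟩,
  ⟨⟨0, 0, 0, 0, 0, 0, 0, 0, 0⟩, (0, 0, 0)⟩,
  ⟨⟨23, 2, -64, 43, -22, 1, -6, -15, -1⟩, (3, 4, 33)⟩,
  ⟨⟨0, 0, 0, 0, 0, 0, 0, 0, 0⟩, (0, 0, 0)⟩,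
  ⟨⟨0, 0, 0, 0, 0, 0, 0, 0, 0⟩, (0, 0, 0)⟩,
  ⟨⟨-13, -38, -31, -47, 22, 16, 6, 9, -17⟩, (34, 29, 27)⟩,
  ⟨⟨7, -22, -56, -27, -42, 31, 14, -7, -1⟩, (30, 27, 23)⟩,
  ⟨⟨0, 0, 0, 0, 0, 0, 0, 0, 0⟩, (0, 0, 0)⟩,
  ⟨⟨43, -22, -44, 23, 2, 41, 6, 15, -7⟩, (12, 9, 12)⟩,
  ⟨⟨0, 0, 0, 0, 0, 0, 0, 0, 0⟩, (0, 0, 0)⟩,
  ⟨⟨0, 0, 0, 0, 0, 0, 0, 0, 0⟩, (0, 0, 0)⟩]

/-- Unit moves. -/
noncomputable def U : List Mv := [mz,
  mz,
  ⟨⟨-1, 0, 1, 0, 1, 0, 0, 0, 1⟩, .nil, (nat_lit 10), (nat_lit 5), (nat_lit 1), (nat_lit 1), (0, 0, 0), [], 6⟩,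
  ⟨⟨1, 0, 0, 0, -1, 0, 0, 0, 1⟩, .nil, (nat_lit 10), (nat_lit 10), (nat_lit 2), (nat_lit 1), (0, 0, 0), [], 10⟩,
  mz,
  mz,
  ⟨⟨-1, 0, 1, 0, -1, 0, 0, 0, 1⟩, .nil, (nat_lit 0), (nat_lit 6), (nat_lit 1), (nat_lit 0), (0, 0, 0), [], 5⟩,
  ⟨⟨-1, 0, 1, 0, -1, 0, 0, 0, 1⟩, .nil, (nat_lit 0), (nat_lit 6), (nat_lit 1), (nat_lit 0), (0, 0, 0), [], 5⟩,
  ⟨⟨1, 0, 0, 0, -1, 0, 0, 0, 1⟩, .nil, (nat_lit 10), (nat_lit 10), (nat_lit 2), (nat_lit 1), (0, 0, 0), [], 10⟩,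
  ⟨⟨-1, 0, 1, 0, 1, 0, 0, 0, 1⟩, .nil, (nat_lit 10), (nat_lit 5), (nat_lit 1), (nat_lit 1), (0, 0, 0), [], 6⟩,
  mz]

theorem v_ty : tyb Dm S.ty1 Clm = true := by decide +kernel

theorem v_ty0 : tyb D0 (S.tys.getD 0 0) Cl0 = true := by decide +kernel

theorem v_ty1 : tyb D1 (S.tys.getD 1 0) Cl1 = true := by decide +kernel

theorem v_msc : mscb S D0 [D1] Dm (nat_lit 18) = true := by decide +kernel

theorem v_mv0 : mvsn (nat_lit 677931227297853419) S D0 [D1] Dm (nat_lit 18) 0 D0 = true := by decide +kernel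

theorem v_mv1 : mvsn (nat_lit 677931227297853419) S D0 [D1] Dm (nat_lit 18) 1 D1 = true := by decide +kernel

theorem v_mm : mmsn (nat_lit 677931227297853419) S D0 [D1] Dm (nat_lit 18) = true := by decide +kernel

theorem v_un : unb S D0 (nat_lit 18) U = true := by decide +kernel

theorem v_ok : okb S.oks [(0, 0, 0), (0, 0, 0), (0, 0, 0), (0, 0, 0), (6, 23, 0), (5, 30, 3), (0, 0, 0), (15, 50, 2)] = true := by decide +kernel

theorem v_part : ∀ d < D0.p, (nat_lit 18).testBit d = true → part S (zc (D0 :: [D1])) d = true := by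
  intro d hd h
  have h1 : ∀ d < 11, (nat_lit 18).testBit d = true → d = 1 ∨ d = 4 := by decide
  rcases h1 d hd h with rfl | rfl
  · exact part_1
  · exact part_4

theorem main (n : ℕ) (ho : Odd n) (hr : ¬ Rep n) (h0 : Split 11 n) (h1 : Split 71 n) (hm : Split 37 n) :
    n ∈ EE := by
  refine concln (W := nat_lit 677931227297853419) (S := S) (P0 := D0) (Pl := [D1]) (Pm := Dm) (cn := nat_lit 18) ?_ Dm_ok v_ty ?_ ?_ v_msc ?_ v_mm v_un v_part v_ok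
    n ho hr ?_ hm
  · simp only [List.forall_mem_cons]
    exact ⟨D0_ok, D1_ok, fun _ h => absurd h (by simp)⟩
  · exact all2 (φ := fun j P => ∃ L, tyb P (S.tys.getD j 0) L = true) ⟨_, v_ty0⟩ ⟨_, v_ty1⟩
  · exact all2 (φ := fun j P => Nat.ble (S.pks.getD j 0) (Nat.pow P.p P.K) = true) (by decide +kernel) (by decide +kernel)
  · exact all2 (φ := fun i P => mvsn (nat_lit 677931227297853419) S D0 [D1] Dm (nat_lit 18) i P = true) v_mv0 v_mv1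
  · simp only [List.forall_mem_cons]
    exact ⟨h0, h1, fun _ h => absurd h (by simp)⟩

end Pool.Agent.Work.MP_9954fe_nt.P11_71_37

namespace Pool.Agent.Work.MP_9954fe_nt.P17_43

/-- Dummy move. -/
noncomputable def mz : Mv := ⟨⟨0, 0, 0, 0, 0, 0, 0, 0, 0⟩, .nil, (nat_lit 0), (nat_lit 0), (nat_lit 0), (nat_lit 0), (0, 0, 0), [], 0⟩

/-- Moves. -/
noncomputable def t0_3 : List Mv := [
  ⟨⟨13, -12, 0, -10, -13, 0, 10, -4, -17⟩, (.cons (nat_lit 1288035) (nat_lit 377555) (nat_lit 1375922) (nat_lit 1) .nil), (nat_lit 42), (nat_lit 4), (nat_lit 16), (nat_lit 1), (15, 12, 5), [977629], 13⟩,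
  ⟨⟨-3, 8, -17, -10, -13, 0, 10, -4, -17⟩, (.cons (nat_lit 611803) (nat_lit 312230) (nat_lit 1193404) (nat_lit 1) .nil), (nat_lit 1), (nat_lit 39), (nat_lit 16), (nat_lit 1), (7, 12, 5), [6893], 13⟩,
  ⟨⟨13, -12, 0, -10, -13, 0, 10, -4, -17⟩, (.cons (nat_lit 1288035) (nat_lit 377555) (nat_lit 1375922) (nat_lit 1) .nil), (nat_lit 42), (nat_lit 4), (nat_lit 16), (nat_lit 1), (15, 12, 5), [977629], 13⟩,
  ⟨⟨13, -12, 0, -10, -13, 0, 10, -4, -17⟩, (.cons (nat_lit 1288035) (nat_lit 377555) (nat_lit 1375922) (nat_lit 1) .nil), (nat_lit 42), (nat_lit 4), (nat_lit 16), (nat_lit 1), (15, 12, 5), [977629], 13⟩,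
  ⟨⟨13, -12, 0, -10, -13, 0, 10, -4, -17⟩, (.cons (nat_lit 1288035) (nat_lit 377555) (nat_lit 1375922) (nat_lit 1) .nil), (nat_lit 42), (nat_lit 4), (nat_lit 16), (nat_lit 1), (15, 12, 5), [977629], 13⟩,
  ⟨⟨13, -12, 0, -10, -13, 0, 10, -4, -17⟩, (.cons (nat_lit 1288035) (nat_lit 377555) (nat_lit 1375922) (nat_lit 1) .nil), (nat_lit 42), (nat_lit 4), (nat_lit 16), (nat_lit 1), (15, 12, 5), [977629], 13⟩,
  ⟨⟨13, -12, 0, -10, -13, 0, 10, -4, -17⟩, (.cons (nat_lit 1288035) (nat_lit 377555) (nat_lit 1375922) (nat_lit 1) .nil), (nat_lit 42), (nat_lit 4), (nat_lit 16), (nat_lit 1), (15, 12, 5), [977629], 13⟩,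
  ⟨⟨-3, 8, -17, -10, -13, 0, 10, -4, -17⟩, (.cons (nat_lit 611803) (nat_lit 312230) (nat_lit 1193404) (nat_lit 1) .nil), (nat_lit 1), (nat_lit 39), (nat_lit 16), (nat_lit 1), (7, 12, 5), [6893], 13⟩,
  ⟨⟨13, -12, 0, -10, -13, 0, 10, -4, -17⟩, (.cons (nat_lit 1288035) (nat_lit 377555) (nat_lit 1375922) (nat_lit 1) .nil), (nat_lit 42), (nat_lit 4), (nat_lit 16), (nat_lit 1), (15, 12, 5), [977629], 13⟩,
  ⟨⟨13, -12, 0, -10, -13, 0, 10, -4, -17⟩, (.cons (nat_lit 1288035) (nat_lit 377555) (nat_lit 1375922) (nat_lit 1) .nil), (nat_lit 42), (nat_lit 4), (nat_lit 16), (nat_lit 1), (15, 12, 5), [977629], 13⟩,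
  ⟨⟨13, -12, 0, -10, -13, 0, 10, -4, -17⟩, (.cons (nat_lit 1288035) (nat_lit 377555) (nat_lit 1375922) (nat_lit 1) .nil), (nat_lit 42), (nat_lit 4), (nat_lit 16), (nat_lit 1), (15, 12, 5), [977629], 13⟩,
  ⟨⟨13, -12, 0, -10, -13, 0, 10, -4, -17⟩, (.cons (nat_lit 1288035) (nat_lit 377555) (nat_lit 1375922) (nat_lit 1) .nil), (nat_lit 42), (nat_lit 4), (nat_lit 16), (nat_lit 1), (15, 12, 5), [977629], 13⟩,
  ⟨⟨13, -12, 0, 10, 13, 0, 10, -4, -17⟩, (.cons (nat_lit 111434) (nat_lit 285315) (nat_lit 1184750) (nat_lit 1) .nil), (nat_lit 23), (nat_lit 31), (nat_lit 32), (nat_lit 1), (15, 5, 5), [58969], 4⟩,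
  ⟨⟨13, -12, 0, 10, 13, 0, 10, -4, -17⟩, (.cons (nat_lit 111434) (nat_lit 285315) (nat_lit 1184750) (nat_lit 1) .nil), (nat_lit 23), (nat_lit 31), (nat_lit 32), (nat_lit 1), (15, 5, 5), [58969], 4⟩,
  ⟨⟨-3, 8, -17, 10, 13, 0, 10, -4, -17⟩, (.cons (nat_lit 387318) (nat_lit 766308) (nat_lit 89877) (nat_lit 1) .nil), (nat_lit 20), (nat_lit 12), (nat_lit 32), (nat_lit 1), (7, 5, 5), [1346558], 4⟩,
  ⟨⟨13, -12, 0, 10, 13, 0, 10, -4, -17⟩, (.cons (nat_lit 111434) (nat_lit 285315) (nat_lit 1184750) (nat_lit 1) .nil), (nat_lit 23), (nat_lit 31), (nat_lit 32), (nat_lit 1), (15, 5, 5), [58969], 4⟩,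
  ⟨⟨-3, 8, -17, 10, 13, 0, 10, -4, -17⟩, (.cons (nat_lit 387318) (nat_lit 766308) (nat_lit 89877) (nat_lit 1) .nil), (nat_lit 20), (nat_lit 12), (nat_lit 32), (nat_lit 1), (7, 5, 5), [1346558], 4⟩]

/-- Moves. -/
noncomputable def t0_7 : List Mv := [
  ⟨⟨15, -8, -16, 8, 15, -4, 0, 0, -17⟩, (.cons (nat_lit 407727) (nat_lit 45563) (nat_lit 454466) (nat_lit 1) .nil), (nat_lit 1), (nat_lit 7), (nat_lit 10), (nat_lit 1), (7, 6, 0), [652000], 12⟩,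
  ⟨⟨-15, 8, -1, 8, 15, -4, 0, 0, -17⟩, (.cons (nat_lit 1264255) (nat_lit 692909) (nat_lit 383447) (nat_lit 1) .nil), (nat_lit 42), (nat_lit 36), (nat_lit 10), (nat_lit 1), (10, 6, 0), [967771], 12⟩,
  ⟨⟨-15, 8, -1, 8, 15, -4, 0, 0, -17⟩, (.cons (nat_lit 1264255) (nat_lit 692909) (nat_lit 383447) (nat_lit 1) .nil), (nat_lit 42), (nat_lit 36), (nat_lit 10), (nat_lit 1), (10, 6, 0), [967771], 12⟩,
  ⟨⟨15, -8, -16, 8, 15, -4, 0, 0, -17⟩, (.cons (nat_lit 407727) (nat_lit 45563) (nat_lit 454466) (nat_lit 1) .nil), (nat_lit 1), (nat_lit 7), (nat_lit 10), (nat_lit 1), (7, 6, 0), [652000], 12⟩,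
  ⟨⟨15, -8, -16, 8, 15, -4, 0, 0, -17⟩, (.cons (nat_lit 407727) (nat_lit 45563) (nat_lit 454466) (nat_lit 1) .nil), (nat_lit 1), (nat_lit 7), (nat_lit 10), (nat_lit 1), (7, 6, 0), [652000], 12⟩,
  ⟨⟨-15, 8, -1, -8, -15, 4, 0, 0, -17⟩, (.cons (nat_lit 489149) (nat_lit 701204) (nat_lit 187759) (nat_lit 1) .nil), (nat_lit 1), (nat_lit 13), (nat_lit 37), (nat_lit 1), (10, 11, 0), [632362], 33⟩,
  ⟨⟨15, -8, -16, 8, 15, -4, 0, 0, -17⟩, (.cons (nat_lit 407727) (nat_lit 45563) (nat_lit 454466) (nat_lit 1) .nil), (nat_lit 1), (nat_lit 7), (nat_lit 10), (nat_lit 1), (7, 6, 0), [652000], 12⟩,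
  ⟨⟨15, -8, -16, 8, 15, -4, 0, 0, -17⟩, (.cons (nat_lit 407727) (nat_lit 45563) (nat_lit 454466) (nat_lit 1) .nil), (nat_lit 1), (nat_lit 7), (nat_lit 10), (nat_lit 1), (7, 6, 0), [652000], 12⟩,
  ⟨⟨15, -8, -16, 8, 15, -4, 0, 0, -17⟩, (.cons (nat_lit 407727) (nat_lit 45563) (nat_lit 454466) (nat_lit 1) .nil), (nat_lit 1), (nat_lit 7), (nat_lit 10), (nat_lit 1), (7, 6, 0), [652000], 12⟩,
  ⟨⟨15, -8, -16, 8, 15, -4, 0, 0, -17⟩, (.cons (nat_lit 407727) (nat_lit 45563) (nat_lit 454466) (nat_lit 1) .nil), (nat_lit 1), (nat_lit 7), (nat_lit 10), (nat_lit 1), (7, 6, 0), [652000], 12⟩,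
  ⟨⟨15, -8, -16, 8, 15, -4, 0, 0, -17⟩, (.cons (nat_lit 407727) (nat_lit 45563) (nat_lit 454466) (nat_lit 1) .nil), (nat_lit 1), (nat_lit 7), (nat_lit 10), (nat_lit 1), (7, 6, 0), [652000], 12⟩,
  ⟨⟨15, -8, -16, -8, -15, 4, 0, 0, -17⟩, (.cons (nat_lit 684059) (nat_lit 921632) (nat_lit 909072) (nat_lit 1) .nil), (nat_lit 42), (nat_lit 30), (nat_lit 37), (nat_lit 1), (7, 11, 0), [57115], 33⟩,
  ⟨⟨15, -8, -16, -8, -15, 4, 0, 0, -17⟩, (.cons (nat_lit 684059) (nat_lit 921632) (nat_lit 909072) (nat_lit 1) .nil), (nat_lit 42), (nat_lit 30), (nat_lit 37), (nat_lit 1), (7, 11, 0), [57115], 33⟩,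
  ⟨⟨-15, 8, -1, -8, -15, 4, 0, 0, -17⟩, (.cons (nat_lit 489149) (nat_lit 701204) (nat_lit 187759) (nat_lit 1) .nil), (nat_lit 1), (nat_lit 13), (nat_lit 37), (nat_lit 1), (10, 11, 0), [632362], 33⟩,
  ⟨⟨15, -8, -16, 8, 15, -4, 0, 0, -17⟩, (.cons (nat_lit 407727) (nat_lit 45563) (nat_lit 454466) (nat_lit 1) .nil), (nat_lit 1), (nat_lit 7), (nat_lit 10), (nat_lit 1), (7, 6, 0), [652000], 12⟩,
  ⟨⟨15, -8, -16, 8, 15, -4, 0, 0, -17⟩, (.cons (nat_lit 407727) (nat_lit 45563) (nat_lit 454466) (nat_lit 1) .nil), (nat_lit 1), (nat_lit 7), (nat_lit 10), (nat_lit 1), (7, 6, 0), [652000], 12⟩,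
  ⟨⟨15, -8, -16, 8, 15, -4, 0, 0, -17⟩, (.cons (nat_lit 407727) (nat_lit 45563) (nat_lit 454466) (nat_lit 1) .nil), (nat_lit 1), (nat_lit 7), (nat_lit 10), (nat_lit 1), (7, 6, 0), [652000], 12⟩]

/-- Moves. -/
noncomputable def t0_9 : List Mv := [
  ⟨⟨9, -16, -1, 10, 3, -20, -6, -12, -5⟩, (.cons (nat_lit 1229658) (nat_lit 130512) (nat_lit 355573) (nat_lit 1) .nil), (nat_lit 1), (nat_lit 22), (nat_lit 40), (nat_lit 1), (2, 6, 10), [127387], 22⟩,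
  ⟨⟨9, -16, -1, 10, 3, -20, -6, -12, -5⟩, (.cons (nat_lit 1229658) (nat_lit 130512) (nat_lit 355573) (nat_lit 1) .nil), (nat_lit 1), (nat_lit 22), (nat_lit 40), (nat_lit 1), (2, 6, 10), [127387], 22⟩,
  ⟨⟨9, -16, -1, 10, 3, -20, -6, -12, -5⟩, (.cons (nat_lit 1229658) (nat_lit 130512) (nat_lit 355573) (nat_lit 1) .nil), (nat_lit 1), (nat_lit 22), (nat_lit 40), (nat_lit 1), (2, 6, 10), [127387], 22⟩,
  ⟨⟨9, -16, -1, 10, 3, -20, -6, -12, -5⟩, (.cons (nat_lit 1229658) (nat_lit 130512) (nat_lit 355573) (nat_lit 1) .nil), (nat_lit 1), (nat_lit 22), (nat_lit 40), (nat_lit 1), (2, 6, 10), [127387], 22⟩,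
  ⟨⟨-15, 4, -4, -10, -3, 20, -6, -12, -5⟩, (.cons (nat_lit 685139) (nat_lit 1151398) (nat_lit 1170194) (nat_lit 1) .nil), (nat_lit 13), (nat_lit 10), (nat_lit 2), (nat_lit 1), (8, 11, 10), [664350], 33⟩,
  ⟨⟨9, -16, -1, 10, 3, -20, -6, -12, -5⟩, (.cons (nat_lit 1229658) (nat_lit 130512) (nat_lit 355573) (nat_lit 1) .nil), (nat_lit 1), (nat_lit 22), (nat_lit 40), (nat_lit 1), (2, 6, 10), [127387], 22⟩,
  ⟨⟨9, -16, -1, -10, -3, 20, -6, -12, -5⟩, (.cons (nat_lit 1003042) (nat_lit 1107544) (nat_lit 1347758) (nat_lit 1) .nil), (nat_lit 30), (nat_lit 33), (nat_lit 2), (nat_lit 1), (2, 11, 10), [1060218], 33⟩,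
  ⟨⟨9, -16, -1, 10, 3, -20, -6, -12, -5⟩, (.cons (nat_lit 1229658) (nat_lit 130512) (nat_lit 355573) (nat_lit 1) .nil), (nat_lit 1), (nat_lit 22), (nat_lit 40), (nat_lit 1), (2, 6, 10), [127387], 22⟩,
  ⟨⟨9, -16, -1, 10, 3, -20, -6, -12, -5⟩, (.cons (nat_lit 1229658) (nat_lit 130512) (nat_lit 355573) (nat_lit 1) .nil), (nat_lit 1), (nat_lit 22), (nat_lit 40), (nat_lit 1), (2, 6, 10), [127387], 22⟩,
  ⟨⟨9, -16, -1, 10, 3, -20, -6, -12, -5⟩, (.cons (nat_lit 1229658) (nat_lit 130512) (nat_lit 355573) (nat_lit 1) .nil), (nat_lit 1), (nat_lit 22), (nat_lit 40), (nat_lit 1), (2, 6, 10), [127387], 22⟩,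
  ⟨⟨-15, 4, -4, -10, -3, 20, -6, -12, -5⟩, (.cons (nat_lit 685139) (nat_lit 1151398) (nat_lit 1170194) (nat_lit 1) .nil), (nat_lit 13), (nat_lit 10), (nat_lit 2), (nat_lit 1), (8, 11, 10), [664350], 33⟩,
  ⟨⟨-15, 4, -4, 10, 3, -20, -6, -12, -5⟩, (.cons (nat_lit 662699) (nat_lit 1145857) (nat_lit 231397) (nat_lit 1) .nil), (nat_lit 42), (nat_lit 21), (nat_lit 40), (nat_lit 1), (8, 6, 10), [1146221], 22⟩,
  ⟨⟨9, -16, -1, 10, 3, -20, -6, -12, -5⟩, (.cons (nat_lit 1229658) (nat_lit 130512) (nat_lit 355573) (nat_lit 1) .nil), (nat_lit 1), (nat_lit 22), (nat_lit 40), (nat_lit 1), (2, 6, 10), [127387], 22⟩,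
  ⟨⟨9, -16, -1, -10, -3, 20, -6, -12, -5⟩, (.cons (nat_lit 1003042) (nat_lit 1107544) (nat_lit 1347758) (nat_lit 1) .nil), (nat_lit 30), (nat_lit 33), (nat_lit 2), (nat_lit 1), (2, 11, 10), [1060218], 33⟩,
  ⟨⟨9, -16, -1, -10, -3, 20, -6, -12, -5⟩, (.cons (nat_lit 1003042) (nat_lit 1107544) (nat_lit 1347758) (nat_lit 1) .nil), (nat_lit 30), (nat_lit 33), (nat_lit 2), (nat_lit 1), (2, 11, 10), [1060218], 33⟩,
  ⟨⟨9, -16, -1, 10, 3, -20, -6, -12, -5⟩, (.cons (nat_lit 1229658) (nat_lit 130512) (nat_lit 355573) (nat_lit 1) .nil), (nat_lit 1), (nat_lit 22), (nat_lit 40), (nat_lit 1), (2, 6, 10), [127387], 22⟩,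
  ⟨⟨9, -16, -1, 10, 3, -20, -6, -12, -5⟩, (.cons (nat_lit 1229658) (nat_lit 130512) (nat_lit 355573) (nat_lit 1) .nil), (nat_lit 1), (nat_lit 22), (nat_lit 40), (nat_lit 1), (2, 6, 10), [127387], 22⟩]

/-- Moves. -/
noncomputable def t4_3 : List Mv := [
  mz,
  ⟨⟨3, 44, -20, -2, -15, -44, 36, 12, -25⟩, (.cons (nat_lit 659568) (nat_lit 967796) (nat_lit 341357) (nat_lit 1) .nil), (nat_lit 33), (nat_lit 0), (nat_lit 0), (nat_lit 0), (36, 19, 2), [13110], 0⟩,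
  mz,
  mz,
  ⟨⟨19, 36, -36, -20, -13, -30, 34, -8, -35⟩, (.cons (nat_lit 766647) (nat_lit 448562) (nat_lit 529068) (nat_lit 1) .nil), (nat_lit 18), (nat_lit 0), (nat_lit 0), (nat_lit 0), (14, 26, 16), [305202], 0⟩,
  ⟨⟨33, -32, -28, -2, -15, 46, 36, 12, -11⟩, (.cons (nat_lit 100852) (nat_lit 1177618) (nat_lit 1252363) (nat_lit 1) .nil), (nat_lit 10), (nat_lit 0), (nat_lit 0), (nat_lit 0), (19, 21, 9), [335453], 0⟩,
  ⟨⟨-37, -24, 0, 20, -37, 0, 2, -8, -43⟩, (.cons (nat_lit 1206443) (nat_lit 941850) (nat_lit 191895) (nat_lit 1) .nil), (nat_lit 35), (nat_lit 0), (nat_lit 0), (nat_lit 0), (12, 40, 4), [682846], 0⟩,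
  ⟨⟨33, 8, -53, -20, -27, -20, 30, -24, -13⟩, (.cons (nat_lit 1327057) (nat_lit 1326695) (nat_lit 13688) (nat_lit 1) .nil), (nat_lit 36), (nat_lit 0), (nat_lit 0), (nat_lit 0), (32, 21, 33), [945561], 0⟩,
  ⟨⟨-39, -16, -4, 20, -37, -20, -2, 8, -41⟩, (.cons (nat_lit 226555) (nat_lit 169856) (nat_lit 1294735) (nat_lit 1) .nil), (nat_lit 37), (nat_lit 0), (nat_lit 0), (nat_lit 0), (6, 30, 40), [1372896], 0⟩,
  ⟨⟨-29, 0, -27, 0, -43, 0, 18, 0, -47⟩, (.cons (nat_lit 1003319) (nat_lit 252343) (nat_lit 813983) (nat_lit 1) .nil), (nat_lit 34), (nat_lit 0), (nat_lit 0), (nat_lit 0), (33, 0, 24), [558199], 0⟩,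
  ⟨⟨21, -20, 31, 38, 15, -34, 12, -36, -13⟩, (.cons (nat_lit 1129011) (nat_lit 921343) (nat_lit 1188770) (nat_lit 1) .nil), (nat_lit 38), (nat_lit 0), (nat_lit 0), (nat_lit 0), (8, 37, 23), [29654], 0⟩,
  mz,
  ⟨⟨-15, 44, 16, 20, 13, -50, -34, 8, -1⟩, (.cons (nat_lit 471370) (nat_lit 388317) (nat_lit 845285) (nat_lit 1) .nil), (nat_lit 25), (nat_lit 0), (nat_lit 0), (nat_lit 0), (28, 20, 9), [842560], 0⟩,
  ⟨⟨33, 8, 20, 20, 27, -40, 30, -24, -17⟩, (.cons (nat_lit 57647) (nat_lit 235711) (nat_lit 1) (nat_lit 1362210) .nil), (nat_lit 13), (nat_lit 0), (nat_lit 0), (nat_lit 0), (4, 35, 31), [962424], 0⟩,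
  mz,
  mz,
  mz,
  ⟨⟨9, -4, -56, 40, -13, -10, 14, 32, -25⟩, (.cons (nat_lit 1351481) (nat_lit 823519) (nat_lit 449242) (nat_lit 1) .nil), (nat_lit 12), (nat_lit 0), (nat_lit 0), (nat_lit 0), (19, 8, 20), [1341471], 0⟩,
  ⟨⟨-9, 4, -47, 40, -13, -30, -14, -32, -11⟩, (.cons (nat_lit 530763) (nat_lit 185216) (nat_lit 1412276) (nat_lit 1) .nil), (nat_lit 39), (nat_lit 0), (nat_lit 0), (nat_lit 0), (37, 41, 5), [793214], 0⟩,
  mz,
  mz,
  ⟨⟨21, 20, 31, 38, -15, -34, 12, 36, -13⟩, (.cons (nat_lit 708420) (nat_lit 785762) (nat_lit 202779) (nat_lit 1) .nil), (nat_lit 38), (nat_lit 0), (nat_lit 0), (nat_lit 0), (12, 34, 13), [203999], 0⟩,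
  ⟨⟨-21, 20, 52, 38, 15, -4, -12, 36, -1⟩, (.cons (nat_lit 323586) (nat_lit 159321) (nat_lit 358306) (nat_lit 1) .nil), (nat_lit 1), (nat_lit 0), (nat_lit 0), (nat_lit 0), (12, 9, 13), [173935], 0⟩,
  mz,
  mz,
  ⟨⟨9, 4, -56, 40, 13, -10, 14, -32, -25⟩, (.cons (nat_lit 991454) (nat_lit 42203) (nat_lit 880718) (nat_lit 1) .nil), (nat_lit 12), (nat_lit 0), (nat_lit 0), (nat_lit 0), (37, 2, 5), [413154], 0⟩,
  ⟨⟨-5, 36, 36, -40, -13, 30, -14, 32, -11⟩, (.cons (nat_lit 16604) (nat_lit 779116) (nat_lit 681509) (nat_lit 1) .nil), (nat_lit 31), (nat_lit 0), (nat_lit 0), (nat_lit 0), (1, 8, 20), [206838], 0⟩,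
  mz,
  mz,
  mz,
  ⟨⟨33, -8, -53, -20, 27, -20, 30, 24, -13⟩, (.cons (nat_lit 791612) (nat_lit 217656) (nat_lit 1351545) (nat_lit 1) .nil), (nat_lit 36), (nat_lit 0), (nat_lit 0), (nat_lit 0), (39, 35, 12), [190971], 0⟩,
  ⟨⟨19, -36, -36, -20, 13, -30, 34, 8, -35⟩, (.cons (nat_lit 55836) (nat_lit 204934) (nat_lit 295514) (nat_lit 1) .nil), (nat_lit 18), (nat_lit 0), (nat_lit 0), (nat_lit 0), (24, 20, 9), [867813], 0⟩,
  mz,
  ⟨⟨-21, -20, 52, 38, -15, -4, -12, -36, -1⟩, (.cons (nat_lit 921460) (nat_lit 1322114) (nat_lit 1199275) (nat_lit 1) .nil), (nat_lit 1), (nat_lit 0), (nat_lit 0), (nat_lit 0), (8, 6, 23), [821241], 0⟩,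
  ⟨⟨-47, 0, 27, 0, 43, 0, -18, 0, -29⟩, (.cons (nat_lit 1241029) (nat_lit 851099) (nat_lit 1344068) (nat_lit 1) .nil), (nat_lit 9), (nat_lit 0), (nat_lit 0), (nat_lit 0), (34, 0, 24), [988666], 0⟩,
  ⟨⟨-37, 24, 0, -20, -37, 0, 2, 8, -43⟩, (.cons (nat_lit 146893) (nat_lit 1113887) (nat_lit 388786) (nat_lit 1) .nil), (nat_lit 6), (nat_lit 0), (nat_lit 0), (nat_lit 0), (34, 30, 40), [300315], 0⟩,
  ⟨⟨33, -8, 20, 20, -27, -40, 30, 24, -17⟩, (.cons (nat_lit 760379) (nat_lit 115886) (nat_lit 478236) (nat_lit 1) .nil), (nat_lit 13), (nat_lit 0), (nat_lit 0), (nat_lit 0), (11, 21, 10), [1112257], 0⟩,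
  ⟨⟨37, -24, -37, -20, -37, 20, -2, -8, -41⟩, (.cons (nat_lit 1302554) (nat_lit 1320579) (nat_lit 1) (nat_lit 414817) .nil), (nat_lit 35), (nat_lit 0), (nat_lit 0), (nat_lit 0), (12, 40, 4), [582028], 0⟩,
  ⟨⟨3, -44, -20, -2, 15, -44, 36, -12, -25⟩, (.cons (nat_lit 930691) (nat_lit 627703) (nat_lit 1358378) (nat_lit 1) .nil), (nat_lit 33), (nat_lit 0), (nat_lit 0), (nat_lit 0), (10, 22, 34), [56223], 0⟩,
  ⟨⟨-19, 36, -17, -20, 13, 50, -34, -8, -1⟩, (.cons (nat_lit 917546) (nat_lit 679622) (nat_lit 274608) (nat_lit 1) .nil), (nat_lit 26), (nat_lit 0), (nat_lit 0), (nat_lit 0), (14, 17, 16), [383376], 0⟩,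
  mz,
  mz,
  ⟨⟨33, 32, -28, 2, -15, -46, 36, -12, -11⟩, (.cons (nat_lit 481442) (nat_lit 62350) (nat_lit 498479) (nat_lit 1) .nil), (nat_lit 21), (nat_lit 0), (nat_lit 0), (nat_lit 0), (34, 19, 41), [218264], 0⟩]

/-- Moves. -/
noncomputable def t4_7 : List Mv := [
  mz,
  ⟨⟨3, 44, -20, -2, -15, -44, 36, 12, -25⟩, (.cons (nat_lit 659568) (nat_lit 967796) (nat_lit 341357) (nat_lit 1) .nil), (nat_lit 33), (nat_lit 0), (nat_lit 0), (nat_lit 0), (36, 19, 2), [13110], 0⟩,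
  mz,
  mz,
  ⟨⟨19, 36, -36, -20, -13, -30, 34, -8, -35⟩, (.cons (nat_lit 766647) (nat_lit 448562) (nat_lit 529068) (nat_lit 1) .nil), (nat_lit 18), (nat_lit 0), (nat_lit 0), (nat_lit 0), (14, 26, 16), [305202], 0⟩,
  ⟨⟨33, -32, -28, 2, 15, -46, 36, 12, -11⟩, (.cons (nat_lit 873537) (nat_lit 582134) (nat_lit 1116487) (nat_lit 1) .nil), (nat_lit 21), (nat_lit 0), (nat_lit 0), (nat_lit 0), (19, 22, 9), [1197084], 0⟩,
  ⟨⟨-37, -24, 0, -20, 37, 0, 2, -8, -43⟩, (.cons (nat_lit 1419856) (nat_lit 408739) (nat_lit 618789) (nat_lit 1) .nil), (nat_lit 6), (nat_lit 0), (nat_lit 0), (nat_lit 0), (12, 3, 4), [1066802], 0⟩,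
  ⟨⟨-3, -32, 40, -20, -27, -20, 30, -24, -13⟩, (.cons (nat_lit 1028126) (nat_lit 842056) (nat_lit 1) (nat_lit 391731) .nil), (nat_lit 7), (nat_lit 0), (nat_lit 0), (nat_lit 0), (1, 21, 33), [1361881], 0⟩,
  ⟨⟨-39, -16, -4, 20, -37, -20, -2, 8, -41⟩, (.cons (nat_lit 226555) (nat_lit 169856) (nat_lit 1294735) (nat_lit 1) .nil), (nat_lit 37), (nat_lit 0), (nat_lit 0), (nat_lit 0), (6, 30, 40), [1372896], 0⟩,
  ⟨⟨-29, 0, -27, 0, -43, 0, 18, 0, -47⟩, (.cons (nat_lit 1003319) (nat_lit 252343) (nat_lit 813983) (nat_lit 1) .nil), (nat_lit 34), (nat_lit 0), (nat_lit 0), (nat_lit 0), (33, 0, 24), [558199], 0⟩,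
  ⟨⟨-9, -16, -44, 38, 15, -34, 12, -36, -13⟩, (.cons (nat_lit 1128866) (nat_lit 851773) (nat_lit 184685) (nat_lit 1) .nil), (nat_lit 5), (nat_lit 0), (nat_lit 0), (nat_lit 0), (15, 37, 23), [1332373], 0⟩,
  mz,
  ⟨⟨-15, 44, 16, 20, 13, -50, -34, 8, -1⟩, (.cons (nat_lit 471370) (nat_lit 388317) (nat_lit 845285) (nat_lit 1) .nil), (nat_lit 25), (nat_lit 0), (nat_lit 0), (nat_lit 0), (28, 20, 9), [842560], 0⟩,
  ⟨⟨-3, -32, -37, -20, -27, 40, 30, -24, -17⟩, (.cons (nat_lit 709795) (nat_lit 1188334) (nat_lit 1233520) (nat_lit 1) .nil), (nat_lit 7), (nat_lit 0), (nat_lit 0), (nat_lit 0), (27, 8, 31), [842251], 0⟩,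
  mz,
  mz,
  mz,
  ⟨⟨9, -4, -56, 40, -13, -10, 14, 32, -25⟩, (.cons (nat_lit 1351481) (nat_lit 823519) (nat_lit 449242) (nat_lit 1) .nil), (nat_lit 12), (nat_lit 0), (nat_lit 0), (nat_lit 0), (19, 8, 20), [1341471], 0⟩,
  ⟨⟨-5, -36, 36, 40, -13, -30, -14, -32, -11⟩, (.cons (nat_lit 396091) (nat_lit 1014696) (nat_lit 461156) (nat_lit 1) .nil), (nat_lit 4), (nat_lit 0), (nat_lit 0), (nat_lit 0), (11, 41, 5), [1021458], 0⟩,
  mz,
  mz,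
  ⟨⟨21, 20, 31, 38, -15, -34, 12, 36, -13⟩, (.cons (nat_lit 708420) (nat_lit 785762) (nat_lit 202779) (nat_lit 1) .nil), (nat_lit 38), (nat_lit 0), (nat_lit 0), (nat_lit 0), (12, 34, 13), [203999], 0⟩,
  ⟨⟨9, 16, -53, -38, -15, 4, -12, 36, -1⟩, (.cons (nat_lit 66162) (nat_lit 1158341) (nat_lit 1273031) (nat_lit 1) .nil), (nat_lit 5), (nat_lit 0), (nat_lit 0), (nat_lit 0), (1, 34, 13), [423842], 0⟩,
  mz,
  mz,
  ⟨⟨9, 4, -56, 40, 13, -10, 14, -32, -25⟩, (.cons (nat_lit 991454) (nat_lit 42203) (nat_lit 880718) (nat_lit 1) .nil), (nat_lit 12), (nat_lit 0), (nat_lit 0), (nat_lit 0), (37, 2, 5), [413154], 0⟩,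
  ⟨⟨-5, 36, 36, 40, 13, -30, -14, 32, -11⟩, (.cons (nat_lit 1222566) (nat_lit 758936) (nat_lit 114318) (nat_lit 1) .nil), (nat_lit 4), (nat_lit 0), (nat_lit 0), (nat_lit 0), (1, 35, 20), [859407], 0⟩,
  mz,
  mz,
  mz,
  ⟨⟨33, -8, -53, -20, 27, -20, 30, 24, -13⟩, (.cons (nat_lit 791612) (nat_lit 217656) (nat_lit 1351545) (nat_lit 1) .nil), (nat_lit 36), (nat_lit 0), (nat_lit 0), (nat_lit 0), (39, 35, 12), [190971], 0⟩,
  ⟨⟨19, -36, -36, 20, -13, 30, 34, 8, -35⟩, (.cons (nat_lit 1231643) (nat_lit 547578) (nat_lit 1073403) (nat_lit 1) .nil), (nat_lit 26), (nat_lit 0), (nat_lit 0), (nat_lit 0), (24, 23, 9), [1229153], 0⟩,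
  mz,
  ⟨⟨-21, -20, 52, -38, 15, 4, -12, -36, -1⟩, (.cons (nat_lit 162845) (nat_lit 50109) (nat_lit 136048) (nat_lit 1) .nil), (nat_lit 38), (nat_lit 0), (nat_lit 0), (nat_lit 0), (8, 37, 23), [1302437], 0⟩,
  ⟨⟨-47, 0, 27, 0, -43, 0, -18, 0, -29⟩, (.cons (nat_lit 988945) (nat_lit 718185) (nat_lit 668501) (nat_lit 1) .nil), (nat_lit 9), (nat_lit 0), (nat_lit 0), (nat_lit 0), (34, 0, 24), [740091], 0⟩,
  ⟨⟨-37, 24, 0, 20, 37, 0, 2, 8, -43⟩, (.cons (nat_lit 1419856) (nat_lit 880342) (nat_lit 403240) (nat_lit 1) .nil), (nat_lit 35), (nat_lit 0), (nat_lit 0), (nat_lit 0), (34, 13, 40), [254838], 0⟩,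
  ⟨⟨33, -8, 20, 20, -27, -40, 30, 24, -17⟩, (.cons (nat_lit 760379) (nat_lit 115886) (nat_lit 478236) (nat_lit 1) .nil), (nat_lit 13), (nat_lit 0), (nat_lit 0), (nat_lit 0), (11, 21, 10), [1112257], 0⟩,
  ⟨⟨-39, 16, -4, 20, 37, -20, -2, -8, -41⟩, (.cons (nat_lit 1419856) (nat_lit 756806) (nat_lit 300380) (nat_lit 1) .nil), (nat_lit 37), (nat_lit 0), (nat_lit 0), (nat_lit 0), (35, 3, 4), [930401], 0⟩,
  ⟨⟨3, -44, -20, -2, 15, -44, 36, -12, -25⟩, (.cons (nat_lit 930691) (nat_lit 627703) (nat_lit 1358378) (nat_lit 1) .nil), (nat_lit 33), (nat_lit 0), (nat_lit 0), (nat_lit 0), (10, 22, 34), [56223], 0⟩,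
  ⟨⟨-19, 36, -17, -20, 13, 50, -34, -8, -1⟩, (.cons (nat_lit 917546) (nat_lit 679622) (nat_lit 274608) (nat_lit 1) .nil), (nat_lit 26), (nat_lit 0), (nat_lit 0), (nat_lit 0), (14, 17, 16), [383376], 0⟩,
  mz,
  mz,
  ⟨⟨33, 32, -28, 2, -15, -46, 36, -12, -11⟩, (.cons (nat_lit 481442) (nat_lit 62350) (nat_lit 498479) (nat_lit 1) .nil), (nat_lit 21), (nat_lit 0), (nat_lit 0), (nat_lit 0), (34, 19, 41), [218264], 0⟩]

/-- Moves. -/
noncomputable def t4_9 : List Mv := [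
  mz,
  ⟨⟨3, 44, -20, -2, -15, -44, 36, 12, -25⟩, (.cons (nat_lit 659568) (nat_lit 967796) (nat_lit 341357) (nat_lit 1) .nil), (nat_lit 33), (nat_lit 0), (nat_lit 0), (nat_lit 0), (36, 19, 2), [13110], 0⟩,
  mz,
  mz,
  ⟨⟨19, 36, -36, -20, -13, -30, 34, -8, -35⟩, (.cons (nat_lit 766647) (nat_lit 448562) (nat_lit 529068) (nat_lit 1) .nil), (nat_lit 18), (nat_lit 0), (nat_lit 0), (nat_lit 0), (14, 26, 16), [305202], 0⟩,
  ⟨⟨33, -32, -28, -2, -15, 46, 36, 12, -11⟩, (.cons (nat_lit 100852) (nat_lit 1177618) (nat_lit 1252363) (nat_lit 1) .nil), (nat_lit 10), (nat_lit 0), (nat_lit 0), (nat_lit 0), (19, 21, 9), [335453], 0⟩,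
  ⟨⟨-37, -24, 0, -20, 37, 0, 2, -8, -43⟩, (.cons (nat_lit 1419856) (nat_lit 408739) (nat_lit 618789) (nat_lit 1) .nil), (nat_lit 6), (nat_lit 0), (nat_lit 0), (nat_lit 0), (12, 3, 4), [1066802], 0⟩,
  ⟨⟨33, 8, -53, 20, 27, 20, 30, -24, -13⟩, (.cons (nat_lit 260573) (nat_lit 338606) (nat_lit 961129) (nat_lit 1) .nil), (nat_lit 13), (nat_lit 0), (nat_lit 0), (nat_lit 0), (32, 22, 33), [833874], 0⟩,
  ⟨⟨-39, -16, -4, 20, -37, -20, -2, 8, -41⟩, (.cons (nat_lit 226555) (nat_lit 169856) (nat_lit 1294735) (nat_lit 1) .nil), (nat_lit 37), (nat_lit 0), (nat_lit 0), (nat_lit 0), (6, 30, 40), [1372896], 0⟩,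
  ⟨⟨-29, 0, -27, 0, 43, 0, 18, 0, -47⟩, (.cons (nat_lit 880372) (nat_lit 367498) (nat_lit 593364) (nat_lit 1) .nil), (nat_lit 34), (nat_lit 0), (nat_lit 0), (nat_lit 0), (33, 0, 24), [1062319], 0⟩,
  ⟨⟨-9, -16, -44, 38, 15, -34, 12, -36, -13⟩, (.cons (nat_lit 1128866) (nat_lit 851773) (nat_lit 184685) (nat_lit 1) .nil), (nat_lit 5), (nat_lit 0), (nat_lit 0), (nat_lit 0), (15, 37, 23), [1332373], 0⟩,
  mz,
  ⟨⟨-15, 44, 16, 20, 13, -50, -34, 8, -1⟩, (.cons (nat_lit 471370) (nat_lit 388317) (nat_lit 845285) (nat_lit 1) .nil), (nat_lit 25), (nat_lit 0), (nat_lit 0), (nat_lit 0), (28, 20, 9), [842560], 0⟩,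
  ⟨⟨33, 8, 20, -20, -27, 40, 30, -24, -17⟩, (.cons (nat_lit 1221473) (nat_lit 1023537) (nat_lit 945741) (nat_lit 1) .nil), (nat_lit 36), (nat_lit 0), (nat_lit 0), (nat_lit 0), (4, 8, 31), [415391], 0⟩,
  mz,
  mz,
  mz,
  ⟨⟨9, -4, -56, 40, -13, -10, 14, 32, -25⟩, (.cons (nat_lit 1351481) (nat_lit 823519) (nat_lit 449242) (nat_lit 1) .nil), (nat_lit 12), (nat_lit 0), (nat_lit 0), (nat_lit 0), (19, 8, 20), [1341471], 0⟩,
  ⟨⟨-5, -36, 36, 40, -13, -30, -14, -32, -11⟩, (.cons (nat_lit 396091) (nat_lit 1014696) (nat_lit 461156) (nat_lit 1) .nil), (nat_lit 4), (nat_lit 0), (nat_lit 0), (nat_lit 0), (11, 41, 5), [1021458], 0⟩,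
  mz,
  mz,
  ⟨⟨21, 20, 31, 38, -15, -34, 12, 36, -13⟩, (.cons (nat_lit 708420) (nat_lit 785762) (nat_lit 202779) (nat_lit 1) .nil), (nat_lit 38), (nat_lit 0), (nat_lit 0), (nat_lit 0), (12, 34, 13), [203999], 0⟩,
  ⟨⟨-21, 20, 52, 38, 15, -4, -12, 36, -1⟩, (.cons (nat_lit 323586) (nat_lit 159321) (nat_lit 358306) (nat_lit 1) .nil), (nat_lit 1), (nat_lit 0), (nat_lit 0), (nat_lit 0), (12, 9, 13), [173935], 0⟩,
  mz,
  mz,
  ⟨⟨9, 4, -56, 40, 13, -10, 14, -32, -25⟩, (.cons (nat_lit 991454) (nat_lit 42203) (nat_lit 880718) (nat_lit 1) .nil), (nat_lit 12), (nat_lit 0), (nat_lit 0), (nat_lit 0), (37, 2, 5), [413154], 0⟩,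
  ⟨⟨-9, -4, -47, 40, 13, -30, -14, 32, -11⟩, (.cons (nat_lit 786648) (nat_lit 1148582) (nat_lit 49710) (nat_lit 1) .nil), (nat_lit 39), (nat_lit 0), (nat_lit 0), (nat_lit 0), (19, 35, 20), [39898], 0⟩,
  mz,
  mz,
  mz,
  ⟨⟨33, -8, -53, -20, 27, -20, 30, 24, -13⟩, (.cons (nat_lit 791612) (nat_lit 217656) (nat_lit 1351545) (nat_lit 1) .nil), (nat_lit 36), (nat_lit 0), (nat_lit 0), (nat_lit 0), (39, 35, 12), [190971], 0⟩,
  ⟨⟨19, -36, -36, -20, 13, -30, 34, 8, -35⟩, (.cons (nat_lit 55836) (nat_lit 204934) (nat_lit 295514) (nat_lit 1) .nil), (nat_lit 18), (nat_lit 0), (nat_lit 0), (nat_lit 0), (24, 20, 9), [867813], 0⟩,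
  mz,
  ⟨⟨-21, -20, 52, 38, -15, -4, -12, -36, -1⟩, (.cons (nat_lit 921460) (nat_lit 1322114) (nat_lit 1199275) (nat_lit 1) .nil), (nat_lit 1), (nat_lit 0), (nat_lit 0), (nat_lit 0), (8, 6, 23), [821241], 0⟩,
  ⟨⟨-47, 0, 27, 0, -43, 0, -18, 0, -29⟩, (.cons (nat_lit 988945) (nat_lit 718185) (nat_lit 668501) (nat_lit 1) .nil), (nat_lit 9), (nat_lit 0), (nat_lit 0), (nat_lit 0), (34, 0, 24), [740091], 0⟩,
  ⟨⟨39, -16, -43, -20, -37, 0, 2, 8, -43⟩, (.cons (nat_lit 835754) (nat_lit 40064) (nat_lit 1160307) (nat_lit 1) .nil), (nat_lit 37), (nat_lit 0), (nat_lit 0), (nat_lit 0), (6, 30, 40), [776014], 0⟩,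
  ⟨⟨33, -8, 20, 20, -27, -40, 30, 24, -17⟩, (.cons (nat_lit 760379) (nat_lit 115886) (nat_lit 478236) (nat_lit 1) .nil), (nat_lit 13), (nat_lit 0), (nat_lit 0), (nat_lit 0), (11, 21, 10), [1112257], 0⟩,
  ⟨⟨-39, 16, -4, 20, 37, -20, -2, -8, -41⟩, (.cons (nat_lit 1419856) (nat_lit 756806) (nat_lit 300380) (nat_lit 1) .nil), (nat_lit 37), (nat_lit 0), (nat_lit 0), (nat_lit 0), (35, 3, 4), [930401], 0⟩,
  ⟨⟨3, -44, -20, -2, 15, -44, 36, -12, -25⟩, (.cons (nat_lit 930691) (nat_lit 627703) (nat_lit 1358378) (nat_lit 1) .nil), (nat_lit 33), (nat_lit 0), (nat_lit 0), (nat_lit 0), (10, 22, 34), [56223], 0⟩,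
  ⟨⟨-19, 36, -17, 20, -13, -50, -34, -8, -1⟩, (.cons (nat_lit 1174516) (nat_lit 1395085) (nat_lit 82549) (nat_lit 1) .nil), (nat_lit 18), (nat_lit 0), (nat_lit 0), (nat_lit 0), (14, 26, 16), [1349644], 0⟩,
  mz,
  mz,
  ⟨⟨33, 32, -28, 2, -15, -46, 36, -12, -11⟩, (.cons (nat_lit 481442) (nat_lit 62350) (nat_lit 498479) (nat_lit 1) .nil), (nat_lit 21), (nat_lit 0), (nat_lit 0), (nat_lit 0), (34, 19, 41), [218264], 0⟩]

/-- All the moves. -/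
noncomputable def tabs : List (List (List Mv)) := [[[], [], [], t0_3, [], [], [], t0_7, [], t0_9], [], [], [], [[], [], [], t4_3, [], [], [], t4_7, [], t4_9]]

/-- Subtrie. -/
noncomputable def T3 : Tr := (.ev (nat_lit 20) (nat_lit 4753495046034) (.nd (nat_lit 32) (.br (nat_lit 12) (.br
 (nat_lit 3) (.br (nat_lit 2) (.ch (nat_lit 1) (.ev (nat_lit 48) (nat_lit 704441745504) (.nd (nat_lit 496) (.br
 (nat_lit 8) (.br (nat_lit 5) (.br (nat_lit 4) (.ch (nat_lit 0) (.ev (nat_lit 512) (nat_lit 34360000512) .dd))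
 (.ch (nat_lit 4) (.fin (nat_lit 576465700116709959)))) (.br (nat_lit 6) (.ch (nat_lit 5) (.ev (nat_lit 512)
 (nat_lit 34360000512) .dd)) (.ch (nat_lit 6) (.ev (nat_lit 512) (nat_lit 34360000512) .dd)))) (.br (nat_lit
 10) (.br (nat_lit 9) (.ch (nat_lit 8) (.ev (nat_lit 512) (nat_lit 34359738368) (.ev (nat_lit 525) (nat_lit
 262144) .dd))) (.ch (nat_lit 9) (.ev (nat_lit 512) (nat_lit 262144) (.ev (nat_lit 525) (nat_lit 34359738368)
 .dd)))) (.br (nat_lit 12) (.ch (nat_lit 10) (.ev (nat_lit 512) (nat_lit 34360000512) .dd)) (.ch (nat_lit 12)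
 (.ev (nat_lit 660) (nat_lit 34359738368) (.ev (nat_lit 669) (nat_lit 262144) .dd))))))))) (.ch (nat_lit 2)
 (.ev (nat_lit 48) (nat_lit 721621614624) (.ev (nat_lit 68) (nat_lit 64) (.nd (nat_lit 912) (.br (nat_lit 13)
 (.br (nat_lit 11) (.ch (nat_lit 0) (.ev (nat_lit 1092) (nat_lit 17179869184) (.ev (nat_lit 1101) (nat_lit
 262144) .dd))) (.br (nat_lit 12) (.ch (nat_lit 11) (.ev (nat_lit 928) (nat_lit 17180131328) .dd)) (.ch
 (nat_lit 12) (.ev (nat_lit 928) (nat_lit 17180131328) .dd)))) (.br (nat_lit 15) (.br (nat_lit 14) (.ch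
 (nat_lit 13) (.ev (nat_lit 928) (nat_lit 262144) (.ev (nat_lit 941) (nat_lit 17179869184) .dd))) (.ch (nat_lit
 14) (.ev (nat_lit 928) (nat_lit 262144) (.ev (nat_lit 941) (nat_lit 17179869184) .dd)))) (.br (nat_lit 16)
 (.ch (nat_lit 15) (.ev (nat_lit 928) (nat_lit 17180131328) .dd)) (.ch (nat_lit 16) (.ev (nat_lit 928) (nat_lit
 17179869184) (.ev (nat_lit 941) (nat_lit 262144) .dd))))))))))) (.br (nat_lit 7) (.ch (nat_lit 3) (.ev
 (nat_lit 48) (nat_lit 584115814400) (.nd (nat_lit 240) (.br (nat_lit 6) (.br (nat_lit 4) (.br (nat_lit 3) (.ch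
 (nat_lit 2) (.ev (nat_lit 256) (nat_lit 17179869216) (.ev (nat_lit 1220) (nat_lit 67108864) (.nd (nat_lit
 1664) (.br (nat_lit 13) (.ch (nat_lit 9) (.ev (nat_lit 1680) (nat_lit 137438953536) .dd)) (.ch (nat_lit 13)
 (.fin (nat_lit 576459103025971775)))))))) (.ch (nat_lit 3) (.ev (nat_lit 256) (nat_lit 137438953504) (.ev
 (nat_lit 532) (nat_lit 64) (.ev (nat_lit 644) (nat_lit 17179869184) (.ev (nat_lit 653) (nat_lit 67108864)
 .dd)))))) (.br (nat_lit 5) (.ch (nat_lit 4) (.ev (nat_lit 256) (nat_lit 137506062400) (.ev (nat_lit 832)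
 (nat_lit 32) (.ev (nat_lit 845) (nat_lit 17179869184) .dd)))) (.ch (nat_lit 5) (.ev (nat_lit 256) (nat_lit
 17246978112) (.ev (nat_lit 1028) (nat_lit 32) (.ev (nat_lit 1037) (nat_lit 137438953472) .dd)))))) (.br
 (nat_lit 12) (.br (nat_lit 7) (.ch (nat_lit 6) (.ev (nat_lit 256) (nat_lit 17246978144) (.ev (nat_lit 269)
 (nat_lit 137438953472) .dd))) (.ch (nat_lit 7) (.ev (nat_lit 256) (nat_lit 137506062368) (.ev (nat_lit 644)
 (nat_lit 17179869184) (.ev (nat_lit 653) (nat_lit 64) .dd))))) (.br (nat_lit 14) (.ch (nat_lit 12) (.ev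
 (nat_lit 256) (nat_lit 137506062432) (.ev (nat_lit 269) (nat_lit 17179869184) .dd))) (.br (nat_lit 15) (.ch
 (nat_lit 14) (.ev (nat_lit 256) (nat_lit 154685931584) (.ev (nat_lit 269) (nat_lit 32) .dd))) (.ch (nat_lit
 15) (.ev (nat_lit 256) (nat_lit 154618822752) (.ev (nat_lit 269) (nat_lit 67108864) .dd)))))))))) (.ch
 (nat_lit 7) (.ev (nat_lit 48) (nat_lit 171798954080) (.nd (nat_lit 752) (.br (nat_lit 8) (.br (nat_lit 5) (.br
 (nat_lit 3) (.ch (nat_lit 2) (.ev (nat_lit 768) (nat_lit 567002791936) .dd)) (.ch (nat_lit 3) (.ev (nat_lit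
 768) (nat_lit 566935683072) (.ev (nat_lit 781) (nat_lit 67108864) .dd)))) (.br (nat_lit 6) (.ch (nat_lit 5)
 (.ev (nat_lit 768) (nat_lit 67108864) (.ev (nat_lit 948) (nat_lit 549755813888) (.ev (nat_lit 957) (nat_lit
 17179869184) .dd)))) (.ch (nat_lit 6) (.ev (nat_lit 768) (nat_lit 67108864) (.nd (nat_lit 1632) (.br (nat_lit
 7) (.br (nat_lit 6) (.ch (nat_lit 0) (.ev (nat_lit 1648) (nat_lit 566935683072) .dd)) (.ch (nat_lit 6) (.ev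
 (nat_lit 1648) (nat_lit 566935683072) .dd))) (.br (nat_lit 11) (.ch (nat_lit 7) (.fin (nat_lit
 576460202559619652))) (.ch (nat_lit 11) (.ev (nat_lit 1648) (nat_lit 566935683072) .dd))))))))) (.br (nat_lit
 12) (.br (nat_lit 10) (.ch (nat_lit 8) (.ev (nat_lit 768) (nat_lit 566935683072) (.ev (nat_lit 781) (nat_lit
 67108864) .dd))) (.ch (nat_lit 10) (.ev (nat_lit 768) (nat_lit 566935683072) (.ev (nat_lit 781) (nat_lit
 67108864) .dd)))) (.br (nat_lit 13) (.ch (nat_lit 12) (.ev (nat_lit 768) (nat_lit 67108864) (.ev (nat_lit 864)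
 (nat_lit 549755813888) (.ev (nat_lit 877) (nat_lit 17179869184) .dd)))) (.br (nat_lit 16) (.ch (nat_lit 13)
 (.ev (nat_lit 768) (nat_lit 567002791936) .dd)) (.ch (nat_lit 16) (.ev (nat_lit 768) (nat_lit 567002791936)
 .dd))))))))))) (.br (nat_lit 14) (.br (nat_lit 13) (.ch (nat_lit 12) (.ev (nat_lit 48) (nat_lit 17247240192)
 (.nd (nat_lit 192) (.br (nat_lit 9) (.br (nat_lit 7) (.br (nat_lit 3) (.ch (nat_lit 1) (.ev (nat_lit 208)
 (nat_lit 171798691904) (.ev (nat_lit 228) (nat_lit 549755813888) (.ev (nat_lit 237) (nat_lit 32) .dd)))) (.ch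
 (nat_lit 3) (.ev (nat_lit 208) (nat_lit 687194767424) (.ev (nat_lit 820) (nat_lit 32) (.ev (nat_lit 829)
 (nat_lit 34359738368) .dd))))) (.br (nat_lit 8) (.ch (nat_lit 7) (.ev (nat_lit 208) (nat_lit 721554505728)
 (.ev (nat_lit 228) (nat_lit 64) (.ev (nat_lit 237) (nat_lit 32) .dd)))) (.ch (nat_lit 8) (.ev (nat_lit 208)
 (nat_lit 34359738464) (.ev (nat_lit 548) (nat_lit 137438953472) (.ev (nat_lit 557) (nat_lit 549755813888)
 .dd)))))) (.br (nat_lit 15) (.br (nat_lit 11) (.ch (nat_lit 9) (.ev (nat_lit 208) (nat_lit 687194767456) (.ev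
 (nat_lit 221) (nat_lit 34359738368) .dd))) (.ch (nat_lit 11) (.ev (nat_lit 208) (nat_lit 584115552320) (.ev
 (nat_lit 1120) (nat_lit 137438953504) .dd)))) (.br (nat_lit 16) (.ch (nat_lit 15) (.ev (nat_lit 208) (nat_lit
 687194767392) (.fin (nat_lit 576462401572389440)))) (.ch (nat_lit 16) (.ev (nat_lit 208) (nat_lit 34359738400)
 (.ev (nat_lit 228) (nat_lit 549755813888) (.ev (nat_lit 852) (nat_lit 64) (.ev (nat_lit 861) (nat_lit
 137438953472) .dd))))))))))) (.ch (nat_lit 13) (.ev (nat_lit 48) (nat_lit 704442007648) (.ev (nat_lit 61)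
 (nat_lit 34359738368) .dd)))) (.br (nat_lit 15) (.ch (nat_lit 14) (.ev (nat_lit 48) (nat_lit 188978561120)
 (.nd (nat_lit 752) (.br (nat_lit 8) (.br (nat_lit 4) (.br (nat_lit 3) (.ch (nat_lit 0) (.ev (nat_lit 768)
 (nat_lit 549756076032) (.ev (nat_lit 781) (nat_lit 67108864) .dd))) (.ch (nat_lit 3) (.ev (nat_lit 768)
 (nat_lit 67371008) (.ev (nat_lit 781) (nat_lit 549755813888) .dd)))) (.br (nat_lit 7) (.ch (nat_lit 4) (.ev
 (nat_lit 768) (nat_lit 67371008) (.ev (nat_lit 781) (nat_lit 549755813888) .dd))) (.ch (nat_lit 7) (.ev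
 (nat_lit 768) (nat_lit 67108864) (.ev (nat_lit 800) (nat_lit 262144) (.ev (nat_lit 813) (nat_lit 549755813888)
 .dd)))))) (.br (nat_lit 13) (.br (nat_lit 9) (.ch (nat_lit 8) (.ev (nat_lit 768) (nat_lit 549823184896) .dd))
 (.ch (nat_lit 9) (.ev (nat_lit 768) (nat_lit 549755813888) (.ev (nat_lit 1104) (nat_lit 262144) (.ev (nat_lit
 1117) (nat_lit 67108864) .dd))))) (.br (nat_lit 15) (.ch (nat_lit 13) (.ev (nat_lit 768) (nat_lit
 549823184896) .dd)) (.br (nat_lit 16) (.ch (nat_lit 15) (.ev (nat_lit 768) (nat_lit 549822922752) (.ev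
 (nat_lit 781) (nat_lit 262144) .dd))) (.ch (nat_lit 16) (.ev (nat_lit 768) (nat_lit 549823184896) .dd)))))))))
 (.br (nat_lit 16) (.ch (nat_lit 15) (.ev (nat_lit 48) (nat_lit 567003054144) (.nd (nat_lit 704) (.br (nat_lit
 6) (.br (nat_lit 3) (.br (nat_lit 2) (.ch (nat_lit 0) (.ev (nat_lit 720) (nat_lit 171798691872) .dd)) (.ch
 (nat_lit 2) (.ev (nat_lit 720) (nat_lit 137438953504) (.ev (nat_lit 733) (nat_lit 34359738368) .dd)))) (.br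
 (nat_lit 5) (.ch (nat_lit 3) (.ev (nat_lit 720) (nat_lit 171798691840) (.ev (nat_lit 733) (nat_lit 32) .dd)))
 (.ch (nat_lit 5) (.ev (nat_lit 720) (nat_lit 171798691872) .dd)))) (.br (nat_lit 9) (.br (nat_lit 8) (.ch
 (nat_lit 6) (.ev (nat_lit 720) (nat_lit 171798691872) .dd)) (.ch (nat_lit 8) (.ev (nat_lit 720) (nat_lit
 34359738400) (.ev (nat_lit 733) (nat_lit 137438953472) .dd)))) (.br (nat_lit 13) (.ch (nat_lit 9) (.ev
 (nat_lit 720) (nat_lit 137438953504) (.ev (nat_lit 733) (nat_lit 34359738368) .dd))) (.br (nat_lit 14) (.ch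
 (nat_lit 13) (.ev (nat_lit 720) (nat_lit 137438953472) (.ev (nat_lit 740) (nat_lit 32) (.ev (nat_lit 749)
 (nat_lit 34359738368) .dd)))) (.ch (nat_lit 14) (.ev (nat_lit 720) (nat_lit 34359738368) (.ev (nat_lit 820)
 (nat_lit 137438953472) (.ev (nat_lit 829) (nat_lit 32) .dd))))))))))) (.ch (nat_lit 16) (.ev (nat_lit 48)
 (nat_lit 738801483808) (.ev (nat_lit 852) (nat_lit 64) (.ev (nat_lit 861) (nat_lit 262144) .dd))))))))))

/-- Subtrie. -/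
noncomputable def T7 : Tr := (.ev (nat_lit 20) (nat_lit 4759998567282) (.nd (nat_lit 32) (.br (nat_lit 8) (.br
 (nat_lit 2) (.br (nat_lit 1) (.ch (nat_lit 0) (.ev (nat_lit 48) (nat_lit 697938486400) (.ev (nat_lit 61)
 (nat_lit 34359738368) .dd))) (.ch (nat_lit 1) (.ev (nat_lit 48) (nat_lit 560499531904) (.ev (nat_lit 68)
 (nat_lit 137438953472) (.nd (nat_lit 992) (.br (nat_lit 8) (.br (nat_lit 6) (.ch (nat_lit 0) (.ev (nat_lit
 1008) (nat_lit 34359739392) .dd)) (.br (nat_lit 7) (.ch (nat_lit 6) (.ev (nat_lit 1008) (nat_lit 34359739392)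
 .dd)) (.ch (nat_lit 7) (.ev (nat_lit 1008) (nat_lit 34359739392) .dd)))) (.br (nat_lit 9) (.ch (nat_lit 8)
 (.ev (nat_lit 1008) (nat_lit 34359738368) (.ev (nat_lit 1021) (nat_lit 1024) .dd))) (.br (nat_lit 14) (.ch
 (nat_lit 9) (.ev (nat_lit 1008) (nat_lit 1024) (.ev (nat_lit 1021) (nat_lit 34359738368) .dd))) (.ch (nat_lit
 14) (.ev (nat_lit 1008) (nat_lit 1024) (.ev (nat_lit 1021) (nat_lit 34359738368) .dd))))))))))) (.br (nat_lit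
 5) (.ch (nat_lit 2) (.ev (nat_lit 48) (nat_lit 36511416448) (.nd (nat_lit 336) (.br (nat_lit 5) (.br (nat_lit
 3) (.br (nat_lit 2) (.ch (nat_lit 1) (.ev (nat_lit 352) (nat_lit 8592039936) (.ev (nat_lit 372) (nat_lit 1024)
 (.ev (nat_lit 660) (nat_lit 549755813888) (.ev (nat_lit 669) (nat_lit 137438953472) .dd))))) (.ch (nat_lit 2)
 (.ev (nat_lit 352) (nat_lit 137441059840) (.ev (nat_lit 1204) (nat_lit 8589934592) (.ev (nat_lit 1213)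
 (nat_lit 549755813888) .dd))))) (.br (nat_lit 4) (.ch (nat_lit 3) (.ev (nat_lit 352) (nat_lit 695784711168)
 (.ev (nat_lit 365) (nat_lit 2097152) .dd))) (.ch (nat_lit 4) (.ev (nat_lit 352) (nat_lit 695786799104) (.ev
 (nat_lit 1152) (nat_lit 9216) .dd))))) (.br (nat_lit 10) (.br (nat_lit 6) (.ch (nat_lit 5) (.ev (nat_lit 352)
 (nat_lit 558347853824) (.ev (nat_lit 800) (nat_lit 137438953472) (.ev (nat_lit 813) (nat_lit 1024) .dd))))
 (.ch (nat_lit 6) (.ev (nat_lit 352) (nat_lit 9216) (.ev (nat_lit 372) (nat_lit 549755813888) (.ev (nat_lit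
 1072) (nat_lit 2097152) (.ev (nat_lit 1284) (nat_lit 137438953472) (.ev (nat_lit 1293) (nat_lit 8589934592)
 .dd))))))) (.br (nat_lit 11) (.ch (nat_lit 10) (.ev (nat_lit 352) (nat_lit 695786800128) (.ev (nat_lit 365)
 (nat_lit 8192) .dd))) (.br (nat_lit 13) (.ch (nat_lit 11) (.ev (nat_lit 352) (nat_lit 687194768384) (.nd
 (nat_lit 1440) (.br (nat_lit 13) (.br (nat_lit 11) (.ch (nat_lit 4) (.ev (nat_lit 1456) (nat_lit 8592039936)
 .dd)) (.ch (nat_lit 11) (.ev (nat_lit 1456) (nat_lit 2105344) (.ev (nat_lit 1469) (nat_lit 8589934592) .dd))))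
 (.br (nat_lit 15) (.ch (nat_lit 13) (.ev (nat_lit 1456) (nat_lit 2097152) (.fin (nat_lit
 576346952772830008)))) (.ch (nat_lit 15) (.ev (nat_lit 1456) (nat_lit 8589934592) (.nd (nat_lit 1728) (.br
 (nat_lit 11) (.ch (nat_lit 7) (.ev (nat_lit 1744) (nat_lit 8192) (.ev (nat_lit 1757) (nat_lit 2097152) .dd)))
 (.ch (nat_lit 11) (.fin (nat_lit 576473396657209918)))))))))))) (.ch (nat_lit 13) (.ev (nat_lit 352) (nat_lit
 695786807296) (.ev (nat_lit 365) (nat_lit 1024) .dd)))))))))) (.ch (nat_lit 5) (.ev (nat_lit 48) (nat_lit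
 721556612096) (.ev (nat_lit 852) (nat_lit 4194304) (.ev (nat_lit 1188) (nat_lit 2147483648) (.ev (nat_lit
 1328) (nat_lit 128) (.ev (nat_lit 1341) (nat_lit 8589934592) .dd)))))))) (.br (nat_lit 12) (.br (nat_lit 11)
 (.ch (nat_lit 8) (.ev (nat_lit 48) (nat_lit 182540304512) (.nd (nat_lit 608) (.br (nat_lit 10) (.br (nat_lit
 5) (.br (nat_lit 4) (.ch (nat_lit 1) (.ev (nat_lit 624) (nat_lit 8192) (.ev (nat_lit 852) (nat_lit 1024) (.ev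
 (nat_lit 1188) (nat_lit 549755813888) (.ev (nat_lit 1197) (nat_lit 2097152) .dd))))) (.ch (nat_lit 4) (.ev
 (nat_lit 624) (nat_lit 549757920256) .dd))) (.br (nat_lit 9) (.ch (nat_lit 5) (.ev (nat_lit 624) (nat_lit
 549757912064) (.ev (nat_lit 637) (nat_lit 8192) .dd))) (.ch (nat_lit 9) (.ev (nat_lit 624) (nat_lit
 549755814912) (.ev (nat_lit 1092) (nat_lit 2097152) (.ev (nat_lit 1101) (nat_lit 8192) .dd)))))) (.br (nat_lit
 13) (.br (nat_lit 12) (.ch (nat_lit 10) (.ev (nat_lit 624) (nat_lit 2106368) (.ev (nat_lit 637) (nat_lit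
 549755813888) .dd))) (.ch (nat_lit 12) (.ev (nat_lit 624) (nat_lit 549755823104) (.ev (nat_lit 637) (nat_lit
 2097152) .dd)))) (.br (nat_lit 15) (.ch (nat_lit 13) (.ev (nat_lit 624) (nat_lit 549757919232) (.ev (nat_lit
 637) (nat_lit 1024) .dd))) (.br (nat_lit 16) (.ch (nat_lit 15) (.ev (nat_lit 624) (nat_lit 549757912064) (.ev
 (nat_lit 637) (nat_lit 8192) .dd))) (.ch (nat_lit 16) (.ev (nat_lit 624) (nat_lit 549757919232) (.ev (nat_lit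
 637) (nat_lit 1024) .dd)))))))))) (.ch (nat_lit 11) (.ev (nat_lit 48) (nat_lit 687194776576) (.nd (nat_lit
 496) (.br (nat_lit 8) (.br (nat_lit 2) (.br (nat_lit 1) (.ch (nat_lit 0) (.ev (nat_lit 512) (nat_lit
 45099253760) (.ev (nat_lit 1152) (nat_lit 4194432) .dd))) (.ch (nat_lit 1) (.ev (nat_lit 512) (nat_lit
 36513513600) (.ev (nat_lit 525) (nat_lit 8589934592) .dd)))) (.br (nat_lit 3) (.ch (nat_lit 2) (.ev (nat_lit
 512) (nat_lit 42953867392) (.ev (nat_lit 1204) (nat_lit 2097152) (.ev (nat_lit 1213) (nat_lit 2147483648)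
 .dd)))) (.ch (nat_lit 3) (.ev (nat_lit 512) (nat_lit 8592031872) (.ev (nat_lit 532) (nat_lit 4194304) (.ev
 (nat_lit 660) (nat_lit 2147483648) (.ev (nat_lit 669) (nat_lit 34359738368) .dd))))))) (.br (nat_lit 11) (.br
 (nat_lit 10) (.ch (nat_lit 8) (.ev (nat_lit 512) (nat_lit 45099253888) (.ev (nat_lit 525) (nat_lit 4194304)
 .dd))) (.ch (nat_lit 10) (.ev (nat_lit 512) (nat_lit 36511416320) (.nd (nat_lit 1552) (.br (nat_lit 8) (.br
 (nat_lit 6) (.ch (nat_lit 4) (.ev (nat_lit 1568) (nat_lit 2097152) (.nd (nat_lit 1792) (.br (nat_lit 16) (.ch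
 (nat_lit 3) (.ev (nat_lit 1808) (nat_lit 128) (.ev (nat_lit 1821) (nat_lit 8589934592) .dd))) (.ch (nat_lit
 16) (.fin (nat_lit 576449207401398835))))))) (.ch (nat_lit 6) (.ev (nat_lit 1568) (nat_lit 8589934592) (.fin
 (nat_lit 576346952930115808))))) (.br (nat_lit 15) (.ch (nat_lit 8) (.ev (nat_lit 1568) (nat_lit 8589934720)
 (.ev (nat_lit 1581) (nat_lit 2097152) .dd))) (.ch (nat_lit 15) (.ev (nat_lit 1568) (nat_lit 8592031872)
 .dd)))))))) (.br (nat_lit 15) (.ch (nat_lit 11) (.ev (nat_lit 512) (nat_lit 45103448192) .dd)) (.br (nat_lit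
 16) (.ch (nat_lit 15) (.ev (nat_lit 512) (nat_lit 4194432) (.ev (nat_lit 532) (nat_lit 2147483648) (.ev
 (nat_lit 1028) (nat_lit 34359738368) (.ev (nat_lit 1072) (nat_lit 8589934592) (.ev (nat_lit 1085) (nat_lit
 2097152) .dd)))))) (.ch (nat_lit 16) (.ev (nat_lit 512) (nat_lit 10739515520) (.ev (nat_lit 800) (nat_lit
 34359738368) (.ev (nat_lit 813) (nat_lit 4194304) .dd)))))))))))) (.br (nat_lit 13) (.ch (nat_lit 12) (.ev
 (nat_lit 48) (nat_lit 560495338624) (.ev (nat_lit 68) (nat_lit 34359738368) (.nd (nat_lit 1232) (.br (nat_lit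
 11) (.br (nat_lit 6) (.ch (nat_lit 3) (.ev (nat_lit 1248) (nat_lit 137443147776) .dd)) (.ch (nat_lit 6) (.ev
 (nat_lit 1248) (nat_lit 4194304) (.ev (nat_lit 1261) (nat_lit 137438953472) .dd)))) (.br (nat_lit 12) (.ch
 (nat_lit 11) (.ev (nat_lit 1248) (nat_lit 137443147776) .dd)) (.ch (nat_lit 12) (.ev (nat_lit 1248) (nat_lit
 137438953472) (.ev (nat_lit 1261) (nat_lit 4194304) .dd))))))))) (.br (nat_lit 15) (.ch (nat_lit 13) (.ev
 (nat_lit 48) (nat_lit 594859271296) (.ev (nat_lit 61) (nat_lit 137438953472) .dd))) (.ch (nat_lit 15) (.ev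
 (nat_lit 48) (nat_lit 180394918912) (.ev (nat_lit 1168) (nat_lit 8192) (.ev (nat_lit 1264) (nat_lit 128) (.nd
 (nat_lit 1360) (.br (nat_lit 4) (.ch (nat_lit 3) (.ev (nat_lit 1396) (nat_lit 2147483648) (.ev (nat_lit 1405)
 (nat_lit 549755813888) .dd))) (.br (nat_lit 5) (.ch (nat_lit 4) (.ev (nat_lit 1376) (nat_lit 551903297536)
 .dd)) (.ch (nat_lit 5) (.ev (nat_lit 1396) (nat_lit 2147483648) (.ev (nat_lit 1405) (nat_lit 549755813888)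
 .dd))))))))))))))))

/-- Subtrie. -/
noncomputable def T9 : Tr := (.ev (nat_lit 20) (nat_lit 4555926540608) (.nd (nat_lit 32) (.br (nat_lit 8) (.br
 (nat_lit 4) (.br (nat_lit 3) (.ch (nat_lit 0) (.ev (nat_lit 48) (nat_lit 936302880306) (.nd (nat_lit 912) (.br
 (nat_lit 9) (.br (nat_lit 5) (.ch (nat_lit 4) (.ev (nat_lit 928) (nat_lit 67371008) (.ev (nat_lit 941)
 (nat_lit 128) .dd))) (.br (nat_lit 7) (.ch (nat_lit 5) (.ev (nat_lit 928) (nat_lit 67371136) .dd)) (.ch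
 (nat_lit 7) (.ev (nat_lit 928) (nat_lit 262272) (.ev (nat_lit 941) (nat_lit 67108864) .dd))))) (.br (nat_lit
 10) (.ch (nat_lit 9) (.ev (nat_lit 928) (nat_lit 128) (.fin (nat_lit 576455804502622791)))) (.br (nat_lit 11)
 (.ch (nat_lit 10) (.ev (nat_lit 928) (nat_lit 67371136) .dd)) (.ch (nat_lit 11) (.ev (nat_lit 928) (nat_lit
 67371008) (.ev (nat_lit 941) (nat_lit 128) .dd))))))))) (.ch (nat_lit 3) (.ev (nat_lit 48) (nat_lit
 936369980080) (.nd (nat_lit 448) (.br (nat_lit 10) (.br (nat_lit 6) (.ch (nat_lit 2) (.ev (nat_lit 464)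
 (nat_lit 1026) (.ev (nat_lit 484) (nat_lit 8192) (.ev (nat_lit 493) (nat_lit 262144) .dd)))) (.br (nat_lit 7)
 (.ch (nat_lit 6) (.ev (nat_lit 464) (nat_lit 262146) (.ev (nat_lit 1092) (nat_lit 8192) (.ev (nat_lit 1101)
 (nat_lit 1024) .dd)))) (.ch (nat_lit 7) (.ev (nat_lit 464) (nat_lit 262146) (.ev (nat_lit 1316) (nat_lit 1024)
 (.ev (nat_lit 1325) (nat_lit 8192) .dd)))))) (.br (nat_lit 14) (.br (nat_lit 11) (.ch (nat_lit 10) (.ev
 (nat_lit 464) (nat_lit 271362) .dd)) (.ch (nat_lit 11) (.ev (nat_lit 464) (nat_lit 271360) (.ev (nat_lit 477)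
 (nat_lit 2) .dd)))) (.br (nat_lit 15) (.ch (nat_lit 14) (.ev (nat_lit 464) (nat_lit 8192) (.ev (nat_lit 900)
 (nat_lit 262144) (.ev (nat_lit 1092) (nat_lit 1024) (.ev (nat_lit 1101) (nat_lit 2) .dd))))) (.ch (nat_lit 15)
 (.ev (nat_lit 464) (nat_lit 9216) (.ev (nat_lit 852) (nat_lit 2) (.ev (nat_lit 861) (nat_lit 262144)
 .dd))))))))))) (.br (nat_lit 6) (.ch (nat_lit 4) (.ev (nat_lit 48) (nat_lit 386614437026) (.nd (nat_lit 608)
 (.br (nat_lit 9) (.br (nat_lit 7) (.br (nat_lit 4) (.ch (nat_lit 2) (.ev (nat_lit 624) (nat_lit 549755813888)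
 (.ev (nat_lit 852) (nat_lit 512) (.ev (nat_lit 861) (nat_lit 16) .dd)))) (.ch (nat_lit 4) (.ev (nat_lit 624)
 (nat_lit 512) (.ev (nat_lit 884) (nat_lit 549755813888) (.ev (nat_lit 893) (nat_lit 16) .dd))))) (.br (nat_lit
 8) (.ch (nat_lit 7) (.ev (nat_lit 624) (nat_lit 528) (.ev (nat_lit 637) (nat_lit 549755813888) .dd))) (.ch
 (nat_lit 8) (.ev (nat_lit 624) (nat_lit 549755814416) .dd)))) (.br (nat_lit 14) (.br (nat_lit 11) (.ch
 (nat_lit 9) (.ev (nat_lit 624) (nat_lit 549755813904) (.ev (nat_lit 637) (nat_lit 512) .dd))) (.ch (nat_lit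
 11) (.ev (nat_lit 624) (nat_lit 549755814400) (.ev (nat_lit 637) (nat_lit 16) .dd)))) (.br (nat_lit 15) (.ch
 (nat_lit 14) (.ev (nat_lit 624) (nat_lit 16) (.ev (nat_lit 644) (nat_lit 512) (.ev (nat_lit 653) (nat_lit
 549755813888) .dd)))) (.ch (nat_lit 15) (.ev (nat_lit 624) (nat_lit 549755813904) (.ev (nat_lit 637) (nat_lit
 512) .dd))))))))) (.ch (nat_lit 6) (.ev (nat_lit 48) (nat_lit 8657314480) (.nd (nat_lit 112) (.br (nat_lit 7)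
 (.br (nat_lit 2) (.ch (nat_lit 0) (.ev (nat_lit 128) (nat_lit 824633720834) (.ev (nat_lit 548) (nat_lit 1024)
 (.ev (nat_lit 1092) (nat_lit 68719476736) (.ev (nat_lit 1101) (nat_lit 34359738368) .dd))))) (.br (nat_lit 5)
 (.ch (nat_lit 2) (.ev (nat_lit 128) (nat_lit 927712936962) .dd)) (.ch (nat_lit 5) (.ev (nat_lit 128) (nat_lit
 377957122050) (.ev (nat_lit 1092) (nat_lit 1024) (.ev (nat_lit 1101) (nat_lit 549755813888) .dd)))))) (.br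
 (nat_lit 12) (.br (nat_lit 10) (.ch (nat_lit 7) (.ev (nat_lit 128) (nat_lit 652835030016) (.ev (nat_lit 1092)
 (nat_lit 274877906944) (.ev (nat_lit 1101) (nat_lit 2) .dd)))) (.ch (nat_lit 10) (.ev (nat_lit 128) (nat_lit
 103079216128) (.ev (nat_lit 948) (nat_lit 549755813888) (.nd (nat_lit 1472) (.ch (nat_lit 1) (.nd (nat_lit
 1696) (.br (nat_lit 6) (.ch (nat_lit 5) (.fin (nat_lit 576429416223556153))) (.ch (nat_lit 6) (.ev (nat_lit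
 1712) (nat_lit 2) (.ev (nat_lit 1725) (nat_lit 274877906944) .dd))))))))))) (.br (nat_lit 14) (.ch (nat_lit
 12) (.ev (nat_lit 128) (nat_lit 549755814914) (.ev (nat_lit 148) (nat_lit 68719476736) (.ev (nat_lit 532)
 (nat_lit 274877906944) (.ev (nat_lit 541) (nat_lit 34359738368) .dd))))) (.ch (nat_lit 14) (.ev (nat_lit 128)
 (nat_lit 824633720832) (.ev (nat_lit 692) (nat_lit 1024) (.ev (nat_lit 884) (nat_lit 34359738368) (.nd
 (nat_lit 1584) (.ch (nat_lit 14) (.nd (nat_lit 1824) (.br (nat_lit 7) (.ch (nat_lit 6) (.fin (nat_lit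
 576456904281637228))) (.ch (nat_lit 7) (.ev (nat_lit 1840) (nat_lit 2) (.ev (nat_lit 1853) (nat_lit
 68719476736) .dd))))))))))))))))))) (.br (nat_lit 11) (.br (nat_lit 10) (.ch (nat_lit 8) (.ev (nat_lit 48)
 (nat_lit 627132334608) (.nd (nat_lit 80) (.br (nat_lit 11) (.br (nat_lit 8) (.br (nat_lit 1) (.ch (nat_lit 0)
 (.ev (nat_lit 96) (nat_lit 34360008706) (.ev (nat_lit 432) (nat_lit 1024) (.ev (nat_lit 644) (nat_lit 128)
 (.ev (nat_lit 1188) (nat_lit 32) (.ev (nat_lit 1197) (nat_lit 274877906944) .dd)))))) (.ch (nat_lit 1) (.ev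
 (nat_lit 96) (nat_lit 34359747712) (.ev (nat_lit 324) (nat_lit 262144) (.ev (nat_lit 420) (nat_lit 2) (.ev
 (nat_lit 1300) (nat_lit 274877906944) (.ev (nat_lit 1309) (nat_lit 32) .dd))))))) (.br (nat_lit 10) (.ch
 (nat_lit 8) (.ev (nat_lit 96) (nat_lit 309237908480) (.ev (nat_lit 420) (nat_lit 2) (.ev (nat_lit 644)
 (nat_lit 128) (.ev (nat_lit 1072) (nat_lit 8192) (.ev (nat_lit 1085) (nat_lit 32) .dd)))))) (.ch (nat_lit 10)
 (.ev (nat_lit 96) (nat_lit 274877916194) (.ev (nat_lit 1056) (nat_lit 128) (.fin (nat_lit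
 576465700116709959))))))) (.br (nat_lit 14) (.br (nat_lit 12) (.ch (nat_lit 11) (.ev (nat_lit 96) (nat_lit
 274877916322) (.ev (nat_lit 276) (nat_lit 34359738368) (.ev (nat_lit 285) (nat_lit 262144) .dd)))) (.ch
 (nat_lit 12) (.ev (nat_lit 96) (nat_lit 309237653666) (.ev (nat_lit 964) (nat_lit 262144) (.ev (nat_lit 973)
 (nat_lit 1024) .dd))))) (.br (nat_lit 15) (.ch (nat_lit 14) (.ev (nat_lit 96) (nat_lit 309237908642) (.ev
 (nat_lit 109) (nat_lit 8192) .dd))) (.br (nat_lit 16) (.ch (nat_lit 15) (.ev (nat_lit 96) (nat_lit 262306)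
 (.ev (nat_lit 420) (nat_lit 1024) (.ev (nat_lit 1092) (nat_lit 34359738368) (.nd (nat_lit 1520) (.br (nat_lit
 5) (.br (nat_lit 4) (.ch (nat_lit 0) (.nd (nat_lit 1760) (.br (nat_lit 14) (.ch (nat_lit 5) (.fin (nat_lit
 576465700374659860))) (.ch (nat_lit 14) (.ev (nat_lit 1776) (nat_lit 274877906944) (.ev (nat_lit 1789)
 (nat_lit 8192) .dd)))))) (.ch (nat_lit 4) (.ev (nat_lit 1536) (nat_lit 274877915136) .dd))) (.br (nat_lit 8)
 (.ch (nat_lit 5) (.ev (nat_lit 1536) (nat_lit 274877915136) .dd)) (.ch (nat_lit 8) (.ev (nat_lit 1536)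
 (nat_lit 8192) (.ev (nat_lit 1549) (nat_lit 274877906944) .dd)))))))))) (.ch (nat_lit 16) (.ev (nat_lit 96)
 (nat_lit 309237916832) (.ev (nat_lit 109) (nat_lit 2) .dd)))))))))) (.ch (nat_lit 10) (.ev (nat_lit 48)
 (nat_lit 858993722402) (.nd (nat_lit 160) (.br (nat_lit 8) (.br (nat_lit 5) (.br (nat_lit 1) (.ch (nat_lit 0)
 (.ev (nat_lit 176) (nat_lit 77376528512) (.fin (nat_lit 576460202559619643)))) (.ch (nat_lit 1) (.ev (nat_lit
 176) (nat_lit 67117584) (.nd (nat_lit 1408) (.br (nat_lit 5) (.ch (nat_lit 0) (.ev (nat_lit 1424) (nat_lit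
 8589934592) (.fin (nat_lit 576742776864457408)))) (.ch (nat_lit 5) (.ev (nat_lit 1424) (nat_lit 68719476736)
 (.fin (nat_lit 576473396720124493))))))))) (.br (nat_lit 7) (.ch (nat_lit 5) (.ev (nat_lit 176) (nat_lit
 67117712) (.ev (nat_lit 1188) (nat_lit 8589934592) (.ev (nat_lit 1197) (nat_lit 68719476736) .dd)))) (.ch
 (nat_lit 7) (.ev (nat_lit 176) (nat_lit 68786585616) (.ev (nat_lit 372) (nat_lit 128) (.ev (nat_lit 964)
 (nat_lit 512) (.nd (nat_lit 1488) (.br (nat_lit 4) (.ch (nat_lit 2) (.fin (nat_lit 576575651348693320))) (.ch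
 (nat_lit 4) (.ev (nat_lit 1504) (nat_lit 8589942784) .dd)))))))))) (.br (nat_lit 12) (.br (nat_lit 9) (.ch
 (nat_lit 8) (.ev (nat_lit 176) (nat_lit 77376529024) (.ev (nat_lit 189) (nat_lit 16) .dd))) (.ch (nat_lit 9)
 (.ev (nat_lit 176) (nat_lit 77376520208) (.ev (nat_lit 884) (nat_lit 512) (.ev (nat_lit 1104) (nat_lit 128)
 (.ev (nat_lit 1117) (nat_lit 8192) .dd)))))) (.br (nat_lit 13) (.ch (nat_lit 12) (.ev (nat_lit 176) (nat_lit
 77309420176) (.ev (nat_lit 189) (nat_lit 67108864) .dd))) (.br (nat_lit 16) (.ch (nat_lit 13) (.ev (nat_lit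
 176) (nat_lit 8589935232) (.ev (nat_lit 580) (nat_lit 67108864) (.ev (nat_lit 592) (nat_lit 16) (.nd (nat_lit
 1600) (.br (nat_lit 3) (.br (nat_lit 2) (.ch (nat_lit 1) (.ev (nat_lit 1616) (nat_lit 8192) (.ev (nat_lit
 1629) (nat_lit 68719476736) .dd))) (.ch (nat_lit 2) (.ev (nat_lit 1616) (nat_lit 68719476736) (.ev (nat_lit
 1629) (nat_lit 8192) .dd)))) (.br (nat_lit 15) (.ch (nat_lit 3) (.fin (nat_lit 576462401572389442))) (.ch
 (nat_lit 15) (.ev (nat_lit 1616) (nat_lit 68719484928) .dd))))))))) (.ch (nat_lit 16) (.ev (nat_lit 176)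
 (nat_lit 77309420176) (.ev (nat_lit 189) (nat_lit 67108864) .dd))))))))))) (.br (nat_lit 13) (.ch (nat_lit 11)
 (.ev (nat_lit 48) (nat_lit 352254698626) (.nd (nat_lit 288) (.br (nat_lit 10) (.br (nat_lit 7) (.br (nat_lit
 6) (.ch (nat_lit 4) (.ev (nat_lit 304) (nat_lit 528) (.ev (nat_lit 560) (nat_lit 34359738368) (.ev (nat_lit
 676) (nat_lit 549755813888) (.ev (nat_lit 685) (nat_lit 32) .dd))))) (.ch (nat_lit 6) (.ev (nat_lit 304)
 (nat_lit 549755813920) (.ev (nat_lit 740) (nat_lit 34359738368) (.ev (nat_lit 948) (nat_lit 512) (.ev (nat_lit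
 957) (nat_lit 16) .dd)))))) (.br (nat_lit 8) (.ch (nat_lit 7) (.ev (nat_lit 304) (nat_lit 34359738896) (.ev
 (nat_lit 532) (nat_lit 549755813888) (.ev (nat_lit 541) (nat_lit 32) .dd)))) (.ch (nat_lit 8) (.ev (nat_lit
 304) (nat_lit 584115552800) (.ev (nat_lit 317) (nat_lit 16) .dd))))) (.br (nat_lit 12) (.br (nat_lit 11) (.ch
 (nat_lit 10) (.ev (nat_lit 304) (nat_lit 34359738912) (.fin (nat_lit 576450306945532475)))) (.ch (nat_lit 11)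
 (.ev (nat_lit 304) (nat_lit 584115552800) (.ev (nat_lit 317) (nat_lit 16) .dd)))) (.br (nat_lit 16) (.ch
 (nat_lit 12) (.ev (nat_lit 304) (nat_lit 584115552272) (.ev (nat_lit 1040) (nat_lit 32) (.ev (nat_lit 1053)
 (nat_lit 512) .dd)))) (.ch (nat_lit 16) (.ev (nat_lit 304) (nat_lit 549755813936) (.ev (nat_lit 784) (nat_lit
 512) (.ev (nat_lit 797) (nat_lit 34359738368) .dd)))))))))) (.br (nat_lit 14) (.ch (nat_lit 13) (.ev (nat_lit
 48) (nat_lit 584182933138) (.nd (nat_lit 384) (.br (nat_lit 7) (.br (nat_lit 4) (.br (nat_lit 3) (.ch (nat_lit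
 1) (.ev (nat_lit 420) (nat_lit 8589934592) (.ev (nat_lit 432) (nat_lit 32) (.ev (nat_lit 1072) (nat_lit
 68719476736) (.ev (nat_lit 1085) (nat_lit 274877906944) .dd))))) (.ch (nat_lit 3) (.ev (nat_lit 400) (nat_lit
 8589934624) (.ev (nat_lit 1348) (nat_lit 68719476736) (.ev (nat_lit 1357) (nat_lit 274877906944) .dd))))) (.br
 (nat_lit 6) (.ch (nat_lit 4) (.ev (nat_lit 400) (nat_lit 343597383712) (.ev (nat_lit 413) (nat_lit 8589934592)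
 .dd))) (.ch (nat_lit 6) (.ev (nat_lit 400) (nat_lit 343597383712) (.ev (nat_lit 413) (nat_lit 8589934592)
 .dd))))) (.br (nat_lit 13) (.br (nat_lit 10) (.ch (nat_lit 7) (.ev (nat_lit 400) (nat_lit 352187318304) .dd))
 (.ch (nat_lit 10) (.ev (nat_lit 400) (nat_lit 283467841568) (.ev (nat_lit 413) (nat_lit 68719476736) .dd))))
 (.br (nat_lit 14) (.ch (nat_lit 13) (.ev (nat_lit 400) (nat_lit 77309411328) (.ev (nat_lit 980) (nat_lit 32)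
 (.ev (nat_lit 989) (nat_lit 274877906944) .dd)))) (.br (nat_lit 16) (.ch (nat_lit 14) (.ev (nat_lit 400)
 (nat_lit 352187318304) .dd)) (.ch (nat_lit 16) (.ev (nat_lit 400) (nat_lit 352187318272) (.ev (nat_lit 413)
 (nat_lit 32) .dd)))))))))) (.ch (nat_lit 14) (.ev (nat_lit 48) (nat_lit 377957394098) (.nd (nat_lit 704) (.br
 (nat_lit 8) (.br (nat_lit 6) (.br (nat_lit 5) (.ch (nat_lit 4) (.ev (nat_lit 720) (nat_lit 67108864) (.ev
 (nat_lit 1136) (nat_lit 558345748480) .dd))) (.ch (nat_lit 5) (.ev (nat_lit 720) (nat_lit 558412857344) .dd)))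
 (.br (nat_lit 7) (.ch (nat_lit 6) (.ev (nat_lit 720) (nat_lit 558412857344) .dd)) (.ch (nat_lit 7) (.ev
 (nat_lit 720) (nat_lit 558412857344) .dd)))) (.br (nat_lit 14) (.br (nat_lit 10) (.ch (nat_lit 8) (.ev
 (nat_lit 740) (nat_lit 8589934592) (.ev (nat_lit 820) (nat_lit 67108864) (.ev (nat_lit 829) (nat_lit
 549755813888) .dd)))) (.ch (nat_lit 10) (.ev (nat_lit 720) (nat_lit 558345748480) (.ev (nat_lit 733) (nat_lit
 67108864) .dd)))) (.br (nat_lit 16) (.ch (nat_lit 14) (.ev (nat_lit 720) (nat_lit 67108864) (.ev (nat_lit 820)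
 (nat_lit 549755813888) (.ev (nat_lit 829) (nat_lit 8589934592) .dd)))) (.ch (nat_lit 16) (.ev (nat_lit 720)
 (nat_lit 558345748480) (.ev (nat_lit 733) (nat_lit 67108864) .dd)))))))))))))))

/-- The trie. -/
noncomputable def T : Tr := .nd (nat_lit 1000000) (.br (nat_lit 7) (.br (nat_lit 2) (.br (nat_lit 1) (.ch
 (nat_lit 0) (.ev (nat_lit 0) (nat_lit 8796093022207) .dd)) (.ch (nat_lit 1) (.ev (nat_lit 0) (nat_lit
 8796093022207) .dd))) (.br (nat_lit 3) (.ch (nat_lit 2) (.ev (nat_lit 0) (nat_lit 8796093022207) .dd)) (.br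
 (nat_lit 4) (.ch (nat_lit 3) T3) (.ch (nat_lit 4) (.ev (nat_lit 0) (nat_lit 8796093022207) .dd))))) (.br
 (nat_lit 9) (.br (nat_lit 8) (.ch (nat_lit 7) T7) (.ch (nat_lit 8) (.ev (nat_lit 0) (nat_lit 8796093022207)
 .dd))) (.br (nat_lit 15) (.ch (nat_lit 9) T9) (.br (nat_lit 16) (.ch (nat_lit 15) (.ev (nat_lit 0) (nat_lit
 8796093022207) .dd)) (.ch (nat_lit 16) (.ev (nat_lit 0) (nat_lit 8796093022207) .dd))))))

/-- The possible values. -/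
noncomputable def oks : List ℕ := [3, 7, 243, 252, 2215, 218290]

/-- The parameters. -/
noncomputable def S : Pr := ⟨fun i l e => lget mz (lget [] (lget [] tabs i) l) e, oks, [(nat_lit 0), (nat_lit
 0), (nat_lit 0), (nat_lit 0), (nat_lit 0)], T, (nat_lit 8796093022207), (nat_lit 3303796230157), (nat_lit 43),
 [(nat_lit 98583)], [(nat_lit 1419857)]⟩

/-- Nothing known. -/
noncomputable def cs0 : Cs := (.cons (nat_lit 17) (nat_lit 0) (nat_lit 1) .nil)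

theorem part_3 : part S cs0 (nat_lit 3) = true := by decide +kernel

theorem part_7 : part S cs0 (nat_lit 7) = true := by decide +kernel

theorem part_9 : part S cs0 (nat_lit 9) = true := by decide +kernel

/-- Data of a prime. -/
noncomputable def D0 : PD := ⟨(nat_lit 17), (nat_lit 5), (1099799, 6, 5), (853795, 530711, 278509), (927807, 420466, 1244140)⟩

theorem D0_ok : D0.Ok := pdb_sound (s := 3) (C := ⟨⟨3, 18, -19, -23, -2, 4, 2, -5, -7⟩, (3, 11, 2)⟩) (by show Nat.Prime 17; norm_num) (by decide +kernel)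

/-- Lines of the first type. -/
noncomputable def Cl0 : List C1 := [⟨⟨23, 2, -19, 3, 18, 16, -2, 5, -5⟩, (14, 7, 1)⟩,
  ⟨⟨3, -18, -19, -23, 2, 4, 2, 5, -7⟩, (1, 15, 12)⟩,
  ⟨⟨-13, 2, -16, -7, 22, 11, 6, 3, -7⟩, (14, 1, 4)⟩,
  ⟨⟨0, 0, 0, 0, 0, 0, 0, 0, 0⟩, (0, 0, 0)⟩,
  ⟨⟨-13, -2, -16, -7, -22, 11, 6, -3, -7⟩, (16, 6, 7)⟩,
  ⟨⟨0, 0, 0, 0, 0, 0, 0, 0, 0⟩, (0, 0, 0)⟩,
  ⟨⟨0, 0, 0, 0, 0, 0, 0, 0, 0⟩, (0, 0, 0)⟩,
  ⟨⟨0, 0, 0, 0, 0, 0, 0, 0, 0⟩, (0, 0, 0)⟩,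
  ⟨⟨13, 2, -29, 7, 22, 4, -6, 3, -1⟩, (9, 14, 5)⟩,
  ⟨⟨0, 0, 0, 0, 0, 0, 0, 0, 0⟩, (0, 0, 0)⟩,
  ⟨⟨0, 0, 0, 0, 0, 0, 0, 0, 0⟩, (0, 0, 0)⟩,
  ⟨⟨0, 0, 0, 0, 0, 0, 0, 0, 0⟩, (0, 0, 0)⟩,
  ⟨⟨0, 0, 0, 0, 0, 0, 0, 0, 0⟩, (0, 0, 0)⟩,
  ⟨⟨0, 0, 0, 0, 0, 0, 0, 0, 0⟩, (0, 0, 0)⟩,
  ⟨⟨0, 0, 0, 0, 0, 0, 0, 0, 0⟩, (0, 0, 0)⟩,
  ⟨⟨23, -2, -19, 3, -18, 16, -2, -5, -5⟩, (16, 8, 6)⟩,
  ⟨⟨13, -2, -29, 7, -22, 4, -6, -3, -1⟩, (11, 2, 8)⟩]

/-- Data of a prime. -/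
noncomputable def Dm : PD := ⟨(nat_lit 43), (nat_lit 2), (989, 1, 17), (1652, 774, 636), (172, 5, 130)⟩

theorem Dm_ok : Dm.Ok := pdb_sound (s := 1) (C := ⟨⟨43, -38, -44, 43, 38, 1, 0, 9, -19⟩, (5, 38, 9)⟩) (by show Nat.Prime 43; norm_num) (by decide +kernel)

/-- Lines of the first type. -/
noncomputable def Clm : List C1 := [⟨⟨43, 38, -44, 43, -38, 1, 0, -9, -19⟩, (42, 1, 24)⟩,
  ⟨⟨0, 0, 0, 0, 0, 0, 0, 0, 0⟩, (0, 0, 0)⟩,
  ⟨⟨57, -18, -16, -17, -58, 1, 4, 1, -23⟩, (41, 27, 24)⟩,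
  ⟨⟨7, -38, -56, -33, -42, 49, -16, 7, -1⟩, (28, 40, 22)⟩,
  ⟨⟨0, 0, 0, 0, 0, 0, 0, 0, 0⟩, (0, 0, 0)⟩,
  ⟨⟨0, 0, 0, 0, 0, 0, 0, 0, 0⟩, (0, 0, 0)⟩,
  ⟨⟨0, 0, 0, 0, 0, 0, 0, 0, 0⟩, (0, 0, 0)⟩,
  ⟨⟨0, 0, 0, 0, 0, 0, 0, 0, 0⟩, (0, 0, 0)⟩,
  ⟨⟨0, 0, 0, 0, 0, 0, 0, 0, 0⟩, (0, 0, 0)⟩,
  ⟨⟨0, 0, 0, 0, 0, 0, 0, 0, 0⟩, (0, 0, 0)⟩,
  ⟨⟨0, 0, 0, 0, 0, 0, 0, 0, 0⟩, (0, 0, 0)⟩,
  ⟨⟨27, -18, -71, -53, -22, 4, -4, 17, -7⟩, (6, 36, 23)⟩,
  ⟨⟨0, 0, 0, 0, 0, 0, 0, 0, 0⟩, (0, 0, 0)⟩,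
  ⟨⟨0, 0, 0, 0, 0, 0, 0, 0, 0⟩, (0, 0, 0)⟩,
  ⟨⟨-7, -2, -64, -47, -38, 31, 12, -15, -7⟩, (37, 15, 41)⟩,
  ⟨⟨-7, 2, -64, -47, 38, 31, 12, 15, -7⟩, (3, 14, 1)⟩,
  ⟨⟨-7, 38, -49, 33, 42, 16, 16, -7, -17⟩, (27, 14, 12)⟩,
  ⟨⟨0, 0, 0, 0, 0, 0, 0, 0, 0⟩, (0, 0, 0)⟩,
  ⟨⟨0, 0, 0, 0, 0, 0, 0, 0, 0⟩, (0, 0, 0)⟩,
  ⟨⟨57, 18, -16, -17, 58, 1, 4, -1, -23⟩, (36, 30, 41)⟩,
  ⟨⟨53, 22, -49, 27, -18, 44, 4, -17, -11⟩, (6, 42, 11)⟩,
  ⟨⟨0, 0, 0, 0, 0, 0, 0, 0, 0⟩, (0, 0, 0)⟩,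
  ⟨⟨0, 0, 0, 0, 0, 0, 0, 0, 0⟩, (0, 0, 0)⟩,
  ⟨⟨27, 18, -71, -53, 22, 4, -4, -17, -7⟩, (1, 6, 11)⟩,
  ⟨⟨57, -18, -41, -17, -58, 16, -4, -1, -19⟩, (7, 13, 41)⟩,
  ⟨⟨0, 0, 0, 0, 0, 0, 0, 0, 0⟩, (0, 0, 0)⟩,
  ⟨⟨0, 0, 0, 0, 0, 0, 0, 0, 0⟩, (0, 0, 0)⟩,
  ⟨⟨7, 38, -56, -33, 42, 49, -16, -7, -1⟩, (27, 14, 12)⟩,
  ⟨⟨7, 2, -71, -47, -38, 16, 12, -15, -5⟩, (3, 29, 42)⟩,
  ⟨⟨7, -2, -71, -47, 38, 16, 12, 15, -5⟩, (37, 28, 2)⟩,
  ⟨⟨0, 0, 0, 0, 0, 0, 0, 0, 0⟩, (0, 0, 0)⟩,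
  ⟨⟨0, 0, 0, 0, 0, 0, 0, 0, 0⟩, (0, 0, 0)⟩,
  ⟨⟨53, -22, -49, 27, 18, 44, 4, 17, -11⟩, (36, 37, 23)⟩,
  ⟨⟨0, 0, 0, 0, 0, 0, 0, 0, 0⟩, (0, 0, 0)⟩,
  ⟨⟨0, 0, 0, 0, 0, 0, 0, 0, 0⟩, (0, 0, 0)⟩,
  ⟨⟨0, 0, 0, 0, 0, 0, 0, 0, 0⟩, (0, 0, 0)⟩,
  ⟨⟨0, 0, 0, 0, 0, 0, 0, 0, 0⟩, (0, 0, 0)⟩,
  ⟨⟨0, 0, 0, 0, 0, 0, 0, 0, 0⟩, (0, 0, 0)⟩,
  ⟨⟨0, 0, 0, 0, 0, 0, 0, 0, 0⟩, (0, 0, 0)⟩,
  ⟨⟨0, 0, 0, 0, 0, 0, 0, 0, 0⟩, (0, 0, 0)⟩,
  ⟨⟨-7, -38, -49, 33, -42, 16, 16, 7, -17⟩, (28, 40, 22)⟩,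
  ⟨⟨57, 18, -41, -17, 58, 16, -4, 1, -19⟩, (2, 16, 24)⟩,
  ⟨⟨0, 0, 0, 0, 0, 0, 0, 0, 0⟩, (0, 0, 0)⟩]

/-- Unit moves. -/
noncomputable def U : List Mv := [mz,
  mz,
  mz,
  mz,
  mz,
  ⟨⟨-1, 0, 1, 0, -1, 0, 0, 0, 1⟩, .nil, (nat_lit 0), (nat_lit 15), (nat_lit 1), (nat_lit 0), (0, 0, 0), [], 2⟩,
  ⟨⟨-1, 0, 1, 0, 1, 0, 0, 0, 1⟩, .nil, (nat_lit 16), (nat_lit 1), (nat_lit 9), (nat_lit 1), (0, 0, 0), [], 10⟩,
  mz,
  mz,
  mz,
  ⟨⟨1, 0, 0, 0, -1, 0, 0, 0, 1⟩, .nil, (nat_lit 16), (nat_lit 15), (nat_lit 16), (nat_lit 1), (0, 0, 0), [], 3⟩,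
  ⟨⟨1, 0, 0, 0, -1, 0, 0, 0, 1⟩, .nil, (nat_lit 16), (nat_lit 15), (nat_lit 16), (nat_lit 1), (0, 0, 0), [], 3⟩,
  ⟨⟨1, 0, 0, 0, -1, 0, 0, 0, 1⟩, .nil, (nat_lit 16), (nat_lit 15), (nat_lit 16), (nat_lit 1), (0, 0, 0), [], 3⟩,
  ⟨⟨-1, 0, 1, 0, -1, 0, 0, 0, 1⟩, .nil, (nat_lit 0), (nat_lit 15), (nat_lit 1), (nat_lit 0), (0, 0, 0), [], 2⟩,
  ⟨⟨-1, 0, 1, 0, 1, 0, 0, 0, 1⟩, .nil, (nat_lit 16), (nat_lit 1), (nat_lit 9), (nat_lit 1), (0, 0, 0), [], 10⟩,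
  mz,
  mz]

theorem v_ty : tyb Dm S.ty1 Clm = true := by decide +kernel

theorem v_ty0 : tyb D0 (S.tys.getD 0 0) Cl0 = true := by decide +kernel

theorem v_msc : mscb S D0 [] Dm (nat_lit 648) = true := by decide +kernel

theorem v_mv0 : mvsn (nat_lit 2625315593) S D0 [] Dm (nat_lit 648) 0 D0 = true := by decide +kernel

theorem v_mm : mmsn (nat_lit 2625315593) S D0 [] Dm (nat_lit 648) = true := by decide +kernel

theorem v_un : unb S D0 (nat_lit 648) U = true := by decide +kernel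

theorem v_ok : okb S.oks [(0, 0, 0), (0, 0, 0), (8, 13, 1), (0, 0, 0), (21, 42, 1), (0, 0, 0)] = true := by decide +kernel

theorem v_part : ∀ d < D0.p, (nat_lit 648).testBit d = true → part S (zc (D0 :: [])) d = true := by
  intro d hd h
  have h1 : ∀ d < 17, (nat_lit 648).testBit d = true → d = 3 ∨ d = 7 ∨ d = 9 := by decide
  rcases h1 d hd h with rfl | rfl | rfl
  · exact part_3
  · exact part_7
  · exact part_9

theorem main (n : ℕ) (ho : Odd n) (hr : ¬ Rep n) (h0 : Split 17 n) (hm : Split 43 n) :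
    n ∈ EE := by
  refine concln (W := nat_lit 2625315593) (S := S) (P0 := D0) (Pl := []) (Pm := Dm) (cn := nat_lit 648) ?_ Dm_ok v_ty ?_ ?_ v_msc ?_ v_mm v_un v_part v_ok
    n ho hr ?_ hm
  · simp only [List.forall_mem_cons]
    exact ⟨D0_ok, fun _ h => absurd h (by simp)⟩
  · exact all1 (φ := fun j P => ∃ L, tyb P (S.tys.getD j 0) L = true) ⟨_, v_ty0⟩
  · exact all1 (φ := fun j P => Nat.ble (S.pks.getD j 0) (Nat.pow P.p P.K) = true) (by decide +kernel)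
  · exact all1 (φ := fun i P => mvsn (nat_lit 2625315593) S D0 [] Dm (nat_lit 648) i P = true) v_mv0
  · simp only [List.forall_mem_cons]
    exact ⟨h0, fun _ h => absurd h (by simp)⟩

end Pool.Agent.Work.MP_9954fe_nt.P17_43

namespace Pool.Agent.Work.MP_9954fe_nt.P43_47_53

/-- Dummy move. -/
noncomputable def mz : Mv := ⟨⟨0, 0, 0, 0, 0, 0, 0, 0, 0⟩, .nil, (nat_lit 0), (nat_lit 0), (nat_lit 0), (nat_lit 0), (0, 0, 0), [], 0⟩

/-- Moves. -/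
noncomputable def t0_1 : List Mv := [
  ⟨⟨3, 44, -20, -2, -15, -44, 36, 12, -25⟩, (.cons (nat_lit 189) (nat_lit 471) (nat_lit 983) (nat_lit 1) (.cons
 (nat_lit 366) (nat_lit 1620) (nat_lit 2108) (nat_lit 1) .nil)), (nat_lit 49), (nat_lit 6), (nat_lit 47),
 (nat_lit 1), (36, 19, 2), [554, 1939], 2⟩,
  ⟨⟨3, 44, -20, -2, -15, -44, 36, 12, -25⟩, (.cons (nat_lit 189) (nat_lit 471) (nat_lit 983) (nat_lit 1) (.cons
 (nat_lit 366) (nat_lit 1620) (nat_lit 2108) (nat_lit 1) .nil)), (nat_lit 49), (nat_lit 6), (nat_lit 47),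
 (nat_lit 1), (36, 19, 2), [554, 1939], 2⟩,
  ⟨⟨3, 44, -20, -2, -15, -44, 36, 12, -25⟩, (.cons (nat_lit 189) (nat_lit 471) (nat_lit 983) (nat_lit 1) (.cons
 (nat_lit 366) (nat_lit 1620) (nat_lit 2108) (nat_lit 1) .nil)), (nat_lit 49), (nat_lit 6), (nat_lit 47),
 (nat_lit 1), (36, 19, 2), [554, 1939], 2⟩,
  ⟨⟨3, 44, -20, 2, 15, 44, 36, 12, -25⟩, (.cons (nat_lit 1146) (nat_lit 1615) (nat_lit 185) (nat_lit 1) (.cons
 (nat_lit 2076) (nat_lit 1100) (nat_lit 2200) (nat_lit 1) .nil)), (nat_lit 10), (nat_lit 39), (nat_lit 40),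
 (nat_lit 1), (36, 24, 2), [60, 271], 24⟩,
  ⟨⟨33, -32, -5, -2, -15, -44, 36, 12, -25⟩, (.cons (nat_lit 1531) (nat_lit 1593) (nat_lit 1327) (nat_lit 1)
 (.cons (nat_lit 1702) (nat_lit 1435) (nat_lit 463) (nat_lit 1) .nil)), (nat_lit 33), (nat_lit 26), (nat_lit
 22), (nat_lit 1), (9, 19, 2), [1027, 2080], 37⟩,
  ⟨⟨3, 44, -20, -2, -15, -44, 36, 12, -25⟩, (.cons (nat_lit 189) (nat_lit 471) (nat_lit 983) (nat_lit 1) (.cons
 (nat_lit 366) (nat_lit 1620) (nat_lit 2108) (nat_lit 1) .nil)), (nat_lit 49), (nat_lit 6), (nat_lit 47),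
 (nat_lit 1), (36, 19, 2), [554, 1939], 2⟩,
  ⟨⟨33, -32, -5, -2, -15, -44, 36, 12, -25⟩, (.cons (nat_lit 1531) (nat_lit 1593) (nat_lit 1327) (nat_lit 1)
 (.cons (nat_lit 1702) (nat_lit 1435) (nat_lit 463) (nat_lit 1) .nil)), (nat_lit 33), (nat_lit 26), (nat_lit
 22), (nat_lit 1), (9, 19, 2), [1027, 2080], 37⟩,
  ⟨⟨33, -32, -5, -2, -15, -44, 36, 12, -25⟩, (.cons (nat_lit 1531) (nat_lit 1593) (nat_lit 1327) (nat_lit 1)
 (.cons (nat_lit 1702) (nat_lit 1435) (nat_lit 463) (nat_lit 1) .nil)), (nat_lit 33), (nat_lit 26), (nat_lit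
 22), (nat_lit 1), (9, 19, 2), [1027, 2080], 37⟩,
  ⟨⟨3, 44, -20, 2, 15, 44, 36, 12, -25⟩, (.cons (nat_lit 1146) (nat_lit 1615) (nat_lit 185) (nat_lit 1) (.cons
 (nat_lit 2076) (nat_lit 1100) (nat_lit 2200) (nat_lit 1) .nil)), (nat_lit 10), (nat_lit 39), (nat_lit 40),
 (nat_lit 1), (36, 24, 2), [60, 271], 24⟩,
  ⟨⟨3, 44, -20, -2, -15, -44, 36, 12, -25⟩, (.cons (nat_lit 189) (nat_lit 471) (nat_lit 983) (nat_lit 1) (.cons
 (nat_lit 366) (nat_lit 1620) (nat_lit 2108) (nat_lit 1) .nil)), (nat_lit 49), (nat_lit 6), (nat_lit 47),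
 (nat_lit 1), (36, 19, 2), [554, 1939], 2⟩,
  ⟨⟨3, 44, -20, -2, -15, -44, 36, 12, -25⟩, (.cons (nat_lit 189) (nat_lit 471) (nat_lit 983) (nat_lit 1) (.cons
 (nat_lit 366) (nat_lit 1620) (nat_lit 2108) (nat_lit 1) .nil)), (nat_lit 49), (nat_lit 6), (nat_lit 47),
 (nat_lit 1), (36, 19, 2), [554, 1939], 2⟩,
  ⟨⟨3, 44, -20, -2, -15, -44, 36, 12, -25⟩, (.cons (nat_lit 189) (nat_lit 471) (nat_lit 983) (nat_lit 1) (.cons
 (nat_lit 366) (nat_lit 1620) (nat_lit 2108) (nat_lit 1) .nil)), (nat_lit 49), (nat_lit 6), (nat_lit 47),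
 (nat_lit 1), (36, 19, 2), [554, 1939], 2⟩,
  ⟨⟨3, 44, -20, -2, -15, -44, 36, 12, -25⟩, (.cons (nat_lit 189) (nat_lit 471) (nat_lit 983) (nat_lit 1) (.cons
 (nat_lit 366) (nat_lit 1620) (nat_lit 2108) (nat_lit 1) .nil)), (nat_lit 49), (nat_lit 6), (nat_lit 47),
 (nat_lit 1), (36, 19, 2), [554, 1939], 2⟩,
  ⟨⟨3, 44, -20, -2, -15, -44, 36, 12, -25⟩, (.cons (nat_lit 189) (nat_lit 471) (nat_lit 983) (nat_lit 1) (.cons
 (nat_lit 366) (nat_lit 1620) (nat_lit 2108) (nat_lit 1) .nil)), (nat_lit 49), (nat_lit 6), (nat_lit 47),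
 (nat_lit 1), (36, 19, 2), [554, 1939], 2⟩,
  ⟨⟨3, 44, -20, -2, -15, -44, 36, 12, -25⟩, (.cons (nat_lit 189) (nat_lit 471) (nat_lit 983) (nat_lit 1) (.cons
 (nat_lit 366) (nat_lit 1620) (nat_lit 2108) (nat_lit 1) .nil)), (nat_lit 49), (nat_lit 6), (nat_lit 47),
 (nat_lit 1), (36, 19, 2), [554, 1939], 2⟩,
  ⟨⟨3, 44, -20, -2, -15, -44, 36, 12, -25⟩, (.cons (nat_lit 189) (nat_lit 471) (nat_lit 983) (nat_lit 1) (.cons
 (nat_lit 366) (nat_lit 1620) (nat_lit 2108) (nat_lit 1) .nil)), (nat_lit 49), (nat_lit 6), (nat_lit 47),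
 (nat_lit 1), (36, 19, 2), [554, 1939], 2⟩,
  ⟨⟨33, -32, -5, 2, 15, 44, 36, 12, -25⟩, (.cons (nat_lit 1778) (nat_lit 234) (nat_lit 615) (nat_lit 1) (.cons
 (nat_lit 603) (nat_lit 921) (nat_lit 508) (nat_lit 1) .nil)), (nat_lit 46), (nat_lit 10), (nat_lit 17),
 (nat_lit 1), (9, 24, 2), [1608, 1540], 32⟩,
  ⟨⟨3, 44, -20, 2, 15, 44, 36, 12, -25⟩, (.cons (nat_lit 1146) (nat_lit 1615) (nat_lit 185) (nat_lit 1) (.cons
 (nat_lit 2076) (nat_lit 1100) (nat_lit 2200) (nat_lit 1) .nil)), (nat_lit 10), (nat_lit 39), (nat_lit 40),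
 (nat_lit 1), (36, 24, 2), [60, 271], 24⟩,
  ⟨⟨3, 44, -20, -2, -15, -44, 36, 12, -25⟩, (.cons (nat_lit 189) (nat_lit 471) (nat_lit 983) (nat_lit 1) (.cons
 (nat_lit 366) (nat_lit 1620) (nat_lit 2108) (nat_lit 1) .nil)), (nat_lit 49), (nat_lit 6), (nat_lit 47),
 (nat_lit 1), (36, 19, 2), [554, 1939], 2⟩,
  ⟨⟨33, -32, -5, 2, 15, 44, 36, 12, -25⟩, (.cons (nat_lit 1778) (nat_lit 234) (nat_lit 615) (nat_lit 1) (.cons
 (nat_lit 603) (nat_lit 921) (nat_lit 508) (nat_lit 1) .nil)), (nat_lit 46), (nat_lit 10), (nat_lit 17),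
 (nat_lit 1), (9, 24, 2), [1608, 1540], 32⟩,
  ⟨⟨33, -32, -5, 2, 15, 44, 36, 12, -25⟩, (.cons (nat_lit 1778) (nat_lit 234) (nat_lit 615) (nat_lit 1) (.cons
 (nat_lit 603) (nat_lit 921) (nat_lit 508) (nat_lit 1) .nil)), (nat_lit 46), (nat_lit 10), (nat_lit 17),
 (nat_lit 1), (9, 24, 2), [1608, 1540], 32⟩,
  ⟨⟨3, 44, -20, 2, 15, 44, 36, 12, -25⟩, (.cons (nat_lit 1146) (nat_lit 1615) (nat_lit 185) (nat_lit 1) (.cons
 (nat_lit 2076) (nat_lit 1100) (nat_lit 2200) (nat_lit 1) .nil)), (nat_lit 10), (nat_lit 39), (nat_lit 40),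
 (nat_lit 1), (36, 24, 2), [60, 271], 24⟩,
  ⟨⟨3, 44, -20, -2, -15, -44, 36, 12, -25⟩, (.cons (nat_lit 189) (nat_lit 471) (nat_lit 983) (nat_lit 1) (.cons
 (nat_lit 366) (nat_lit 1620) (nat_lit 2108) (nat_lit 1) .nil)), (nat_lit 49), (nat_lit 6), (nat_lit 47),
 (nat_lit 1), (36, 19, 2), [554, 1939], 2⟩,
  ⟨⟨3, 44, -20, -2, -15, -44, 36, 12, -25⟩, (.cons (nat_lit 189) (nat_lit 471) (nat_lit 983) (nat_lit 1) (.cons
 (nat_lit 366) (nat_lit 1620) (nat_lit 2108) (nat_lit 1) .nil)), (nat_lit 49), (nat_lit 6), (nat_lit 47),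
 (nat_lit 1), (36, 19, 2), [554, 1939], 2⟩,
  ⟨⟨3, 44, -20, -2, -15, -44, 36, 12, -25⟩, (.cons (nat_lit 189) (nat_lit 471) (nat_lit 983) (nat_lit 1) (.cons
 (nat_lit 366) (nat_lit 1620) (nat_lit 2108) (nat_lit 1) .nil)), (nat_lit 49), (nat_lit 6), (nat_lit 47),
 (nat_lit 1), (36, 19, 2), [554, 1939], 2⟩,
  ⟨⟨3, 44, -20, -2, -15, -44, 36, 12, -25⟩, (.cons (nat_lit 189) (nat_lit 471) (nat_lit 983) (nat_lit 1) (.cons
 (nat_lit 366) (nat_lit 1620) (nat_lit 2108) (nat_lit 1) .nil)), (nat_lit 49), (nat_lit 6), (nat_lit 47),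
 (nat_lit 1), (36, 19, 2), [554, 1939], 2⟩,
  ⟨⟨33, -32, -5, -2, -15, -44, 36, 12, -25⟩, (.cons (nat_lit 1531) (nat_lit 1593) (nat_lit 1327) (nat_lit 1)
 (.cons (nat_lit 1702) (nat_lit 1435) (nat_lit 463) (nat_lit 1) .nil)), (nat_lit 33), (nat_lit 26), (nat_lit
 22), (nat_lit 1), (9, 19, 2), [1027, 2080], 37⟩,
  ⟨⟨33, -32, -5, 2, 15, 44, 36, 12, -25⟩, (.cons (nat_lit 1778) (nat_lit 234) (nat_lit 615) (nat_lit 1) (.cons
 (nat_lit 603) (nat_lit 921) (nat_lit 508) (nat_lit 1) .nil)), (nat_lit 46), (nat_lit 10), (nat_lit 17),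
 (nat_lit 1), (9, 24, 2), [1608, 1540], 32⟩,
  ⟨⟨33, -32, -5, -2, -15, -44, 36, 12, -25⟩, (.cons (nat_lit 1531) (nat_lit 1593) (nat_lit 1327) (nat_lit 1)
 (.cons (nat_lit 1702) (nat_lit 1435) (nat_lit 463) (nat_lit 1) .nil)), (nat_lit 33), (nat_lit 26), (nat_lit
 22), (nat_lit 1), (9, 19, 2), [1027, 2080], 37⟩,
  ⟨⟨3, 44, -20, 2, 15, 44, 36, 12, -25⟩, (.cons (nat_lit 1146) (nat_lit 1615) (nat_lit 185) (nat_lit 1) (.cons
 (nat_lit 2076) (nat_lit 1100) (nat_lit 2200) (nat_lit 1) .nil)), (nat_lit 10), (nat_lit 39), (nat_lit 40),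
 (nat_lit 1), (36, 24, 2), [60, 271], 24⟩,
  ⟨⟨3, 44, -20, 2, 15, 44, 36, 12, -25⟩, (.cons (nat_lit 1146) (nat_lit 1615) (nat_lit 185) (nat_lit 1) (.cons
 (nat_lit 2076) (nat_lit 1100) (nat_lit 2200) (nat_lit 1) .nil)), (nat_lit 10), (nat_lit 39), (nat_lit 40),
 (nat_lit 1), (36, 24, 2), [60, 271], 24⟩,
  ⟨⟨33, -32, -5, -2, -15, -44, 36, 12, -25⟩, (.cons (nat_lit 1531) (nat_lit 1593) (nat_lit 1327) (nat_lit 1)
 (.cons (nat_lit 1702) (nat_lit 1435) (nat_lit 463) (nat_lit 1) .nil)), (nat_lit 33), (nat_lit 26), (nat_lit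
 22), (nat_lit 1), (9, 19, 2), [1027, 2080], 37⟩,
  ⟨⟨3, 44, -20, -2, -15, -44, 36, 12, -25⟩, (.cons (nat_lit 189) (nat_lit 471) (nat_lit 983) (nat_lit 1) (.cons
 (nat_lit 366) (nat_lit 1620) (nat_lit 2108) (nat_lit 1) .nil)), (nat_lit 49), (nat_lit 6), (nat_lit 47),
 (nat_lit 1), (36, 19, 2), [554, 1939], 2⟩,
  ⟨⟨3, 44, -20, -2, -15, -44, 36, 12, -25⟩, (.cons (nat_lit 189) (nat_lit 471) (nat_lit 983) (nat_lit 1) (.cons
 (nat_lit 366) (nat_lit 1620) (nat_lit 2108) (nat_lit 1) .nil)), (nat_lit 49), (nat_lit 6), (nat_lit 47),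
 (nat_lit 1), (36, 19, 2), [554, 1939], 2⟩,
  ⟨⟨33, -32, -5, 2, 15, 44, 36, 12, -25⟩, (.cons (nat_lit 1778) (nat_lit 234) (nat_lit 615) (nat_lit 1) (.cons
 (nat_lit 603) (nat_lit 921) (nat_lit 508) (nat_lit 1) .nil)), (nat_lit 46), (nat_lit 10), (nat_lit 17),
 (nat_lit 1), (9, 24, 2), [1608, 1540], 32⟩,
  ⟨⟨3, 44, -20, -2, -15, -44, 36, 12, -25⟩, (.cons (nat_lit 189) (nat_lit 471) (nat_lit 983) (nat_lit 1) (.cons
 (nat_lit 366) (nat_lit 1620) (nat_lit 2108) (nat_lit 1) .nil)), (nat_lit 49), (nat_lit 6), (nat_lit 47),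
 (nat_lit 1), (36, 19, 2), [554, 1939], 2⟩,
  ⟨⟨3, 44, -20, -2, -15, -44, 36, 12, -25⟩, (.cons (nat_lit 189) (nat_lit 471) (nat_lit 983) (nat_lit 1) (.cons
 (nat_lit 366) (nat_lit 1620) (nat_lit 2108) (nat_lit 1) .nil)), (nat_lit 49), (nat_lit 6), (nat_lit 47),
 (nat_lit 1), (36, 19, 2), [554, 1939], 2⟩,
  ⟨⟨3, 44, -20, -2, -15, -44, 36, 12, -25⟩, (.cons (nat_lit 189) (nat_lit 471) (nat_lit 983) (nat_lit 1) (.cons
 (nat_lit 366) (nat_lit 1620) (nat_lit 2108) (nat_lit 1) .nil)), (nat_lit 49), (nat_lit 6), (nat_lit 47),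
 (nat_lit 1), (36, 19, 2), [554, 1939], 2⟩,
  ⟨⟨33, -32, -5, 2, 15, 44, 36, 12, -25⟩, (.cons (nat_lit 1778) (nat_lit 234) (nat_lit 615) (nat_lit 1) (.cons
 (nat_lit 603) (nat_lit 921) (nat_lit 508) (nat_lit 1) .nil)), (nat_lit 46), (nat_lit 10), (nat_lit 17),
 (nat_lit 1), (9, 24, 2), [1608, 1540], 32⟩,
  ⟨⟨3, 44, -20, -2, -15, -44, 36, 12, -25⟩, (.cons (nat_lit 189) (nat_lit 471) (nat_lit 983) (nat_lit 1) (.cons
 (nat_lit 366) (nat_lit 1620) (nat_lit 2108) (nat_lit 1) .nil)), (nat_lit 49), (nat_lit 6), (nat_lit 47),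
 (nat_lit 1), (36, 19, 2), [554, 1939], 2⟩,
  ⟨⟨3, 44, -20, -2, -15, -44, 36, 12, -25⟩, (.cons (nat_lit 189) (nat_lit 471) (nat_lit 983) (nat_lit 1) (.cons
 (nat_lit 366) (nat_lit 1620) (nat_lit 2108) (nat_lit 1) .nil)), (nat_lit 49), (nat_lit 6), (nat_lit 47),
 (nat_lit 1), (36, 19, 2), [554, 1939], 2⟩,
  ⟨⟨3, 44, -20, -2, -15, -44, 36, 12, -25⟩, (.cons (nat_lit 189) (nat_lit 471) (nat_lit 983) (nat_lit 1) (.cons
 (nat_lit 366) (nat_lit 1620) (nat_lit 2108) (nat_lit 1) .nil)), (nat_lit 49), (nat_lit 6), (nat_lit 47),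
 (nat_lit 1), (36, 19, 2), [554, 1939], 2⟩,
  ⟨⟨3, 44, -20, -2, -15, -44, 36, 12, -25⟩, (.cons (nat_lit 189) (nat_lit 471) (nat_lit 983) (nat_lit 1) (.cons
 (nat_lit 366) (nat_lit 1620) (nat_lit 2108) (nat_lit 1) .nil)), (nat_lit 49), (nat_lit 6), (nat_lit 47),
 (nat_lit 1), (36, 19, 2), [554, 1939], 2⟩]

/-- Moves. -/
noncomputable def t0_4 : List Mv := [
  ⟨⟨19, 36, -36, -20, -13, -30, 34, -8, -35⟩, (.cons (nat_lit 749) (nat_lit 1193) (nat_lit 216) (nat_lit 1)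
 (.cons (nat_lit 1314) (nat_lit 1871) (nat_lit 1490) (nat_lit 1) .nil)), (nat_lit 28), (nat_lit 34), (nat_lit
 25), (nat_lit 1), (14, 26, 16), [1777, 99], 48⟩,
  ⟨⟨19, 36, -36, 20, 13, 30, 34, -8, -35⟩, (.cons (nat_lit 1439) (nat_lit 321) (nat_lit 745) (nat_lit 1) (.cons
 (nat_lit 504) (nat_lit 1374) (nat_lit 418) (nat_lit 1) .nil)), (nat_lit 21), (nat_lit 27), (nat_lit 19),
 (nat_lit 1), (14, 17, 16), [815, 2135], 44⟩,
  ⟨⟨15, -44, 1, -20, -13, -30, 34, -8, -35⟩, (.cons (nat_lit 1100) (nat_lit 785) (nat_lit 732) (nat_lit 1)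
 (.cons (nat_lit 566) (nat_lit 526) (nat_lit 1725) (nat_lit 1) .nil)), (nat_lit 1), (nat_lit 14), (nat_lit 42),
 (nat_lit 1), (2, 26, 16), [1519, 1556], 40⟩,
  ⟨⟨19, 36, -36, -20, -13, -30, 34, -8, -35⟩, (.cons (nat_lit 749) (nat_lit 1193) (nat_lit 216) (nat_lit 1)
 (.cons (nat_lit 1314) (nat_lit 1871) (nat_lit 1490) (nat_lit 1) .nil)), (nat_lit 28), (nat_lit 34), (nat_lit
 25), (nat_lit 1), (14, 26, 16), [1777, 99], 48⟩,
  ⟨⟨19, 36, -36, 20, 13, 30, 34, -8, -35⟩, (.cons (nat_lit 1439) (nat_lit 321) (nat_lit 745) (nat_lit 1) (.cons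
 (nat_lit 504) (nat_lit 1374) (nat_lit 418) (nat_lit 1) .nil)), (nat_lit 21), (nat_lit 27), (nat_lit 19),
 (nat_lit 1), (14, 17, 16), [815, 2135], 44⟩,
  ⟨⟨19, 36, -36, -20, -13, -30, 34, -8, -35⟩, (.cons (nat_lit 749) (nat_lit 1193) (nat_lit 216) (nat_lit 1)
 (.cons (nat_lit 1314) (nat_lit 1871) (nat_lit 1490) (nat_lit 1) .nil)), (nat_lit 28), (nat_lit 34), (nat_lit
 25), (nat_lit 1), (14, 26, 16), [1777, 99], 48⟩,
  ⟨⟨19, 36, -36, -20, -13, -30, 34, -8, -35⟩, (.cons (nat_lit 749) (nat_lit 1193) (nat_lit 216) (nat_lit 1)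
 (.cons (nat_lit 1314) (nat_lit 1871) (nat_lit 1490) (nat_lit 1) .nil)), (nat_lit 28), (nat_lit 34), (nat_lit
 25), (nat_lit 1), (14, 26, 16), [1777, 99], 48⟩,
  ⟨⟨19, 36, -36, -20, -13, -30, 34, -8, -35⟩, (.cons (nat_lit 749) (nat_lit 1193) (nat_lit 216) (nat_lit 1)
 (.cons (nat_lit 1314) (nat_lit 1871) (nat_lit 1490) (nat_lit 1) .nil)), (nat_lit 28), (nat_lit 34), (nat_lit
 25), (nat_lit 1), (14, 26, 16), [1777, 99], 48⟩,
  ⟨⟨19, 36, -36, -20, -13, -30, 34, -8, -35⟩, (.cons (nat_lit 749) (nat_lit 1193) (nat_lit 216) (nat_lit 1)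
 (.cons (nat_lit 1314) (nat_lit 1871) (nat_lit 1490) (nat_lit 1) .nil)), (nat_lit 28), (nat_lit 34), (nat_lit
 25), (nat_lit 1), (14, 26, 16), [1777, 99], 48⟩,
  ⟨⟨19, 36, -36, -20, -13, -30, 34, -8, -35⟩, (.cons (nat_lit 749) (nat_lit 1193) (nat_lit 216) (nat_lit 1)
 (.cons (nat_lit 1314) (nat_lit 1871) (nat_lit 1490) (nat_lit 1) .nil)), (nat_lit 28), (nat_lit 34), (nat_lit
 25), (nat_lit 1), (14, 26, 16), [1777, 99], 48⟩,
  ⟨⟨19, 36, -36, 20, 13, 30, 34, -8, -35⟩, (.cons (nat_lit 1439) (nat_lit 321) (nat_lit 745) (nat_lit 1) (.cons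
 (nat_lit 504) (nat_lit 1374) (nat_lit 418) (nat_lit 1) .nil)), (nat_lit 21), (nat_lit 27), (nat_lit 19),
 (nat_lit 1), (14, 17, 16), [815, 2135], 44⟩,
  ⟨⟨15, -44, 1, 20, 13, 30, 34, -8, -35⟩, (.cons (nat_lit 1571) (nat_lit 883) (nat_lit 1347) (nat_lit 1) (.cons
 (nat_lit 1423) (nat_lit 1916) (nat_lit 1687) (nat_lit 1) .nil)), (nat_lit 41), (nat_lit 8), (nat_lit 32),
 (nat_lit 1), (2, 17, 16), [772, 1148], 23⟩,
  ⟨⟨19, 36, -36, -20, -13, -30, 34, -8, -35⟩, (.cons (nat_lit 749) (nat_lit 1193) (nat_lit 216) (nat_lit 1)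
 (.cons (nat_lit 1314) (nat_lit 1871) (nat_lit 1490) (nat_lit 1) .nil)), (nat_lit 28), (nat_lit 34), (nat_lit
 25), (nat_lit 1), (14, 26, 16), [1777, 99], 48⟩,
  ⟨⟨19, 36, -36, -20, -13, -30, 34, -8, -35⟩, (.cons (nat_lit 749) (nat_lit 1193) (nat_lit 216) (nat_lit 1)
 (.cons (nat_lit 1314) (nat_lit 1871) (nat_lit 1490) (nat_lit 1) .nil)), (nat_lit 28), (nat_lit 34), (nat_lit
 25), (nat_lit 1), (14, 26, 16), [1777, 99], 48⟩,
  ⟨⟨15, -44, 1, -20, -13, -30, 34, -8, -35⟩, (.cons (nat_lit 1100) (nat_lit 785) (nat_lit 732) (nat_lit 1)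
 (.cons (nat_lit 566) (nat_lit 526) (nat_lit 1725) (nat_lit 1) .nil)), (nat_lit 1), (nat_lit 14), (nat_lit 42),
 (nat_lit 1), (2, 26, 16), [1519, 1556], 40⟩,
  ⟨⟨19, 36, -36, 20, 13, 30, 34, -8, -35⟩, (.cons (nat_lit 1439) (nat_lit 321) (nat_lit 745) (nat_lit 1) (.cons
 (nat_lit 504) (nat_lit 1374) (nat_lit 418) (nat_lit 1) .nil)), (nat_lit 21), (nat_lit 27), (nat_lit 19),
 (nat_lit 1), (14, 17, 16), [815, 2135], 44⟩,
  ⟨⟨15, -44, 1, -20, -13, -30, 34, -8, -35⟩, (.cons (nat_lit 1100) (nat_lit 785) (nat_lit 732) (nat_lit 1)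
 (.cons (nat_lit 566) (nat_lit 526) (nat_lit 1725) (nat_lit 1) .nil)), (nat_lit 1), (nat_lit 14), (nat_lit 42),
 (nat_lit 1), (2, 26, 16), [1519, 1556], 40⟩,
  ⟨⟨19, 36, -36, -20, -13, -30, 34, -8, -35⟩, (.cons (nat_lit 749) (nat_lit 1193) (nat_lit 216) (nat_lit 1)
 (.cons (nat_lit 1314) (nat_lit 1871) (nat_lit 1490) (nat_lit 1) .nil)), (nat_lit 28), (nat_lit 34), (nat_lit
 25), (nat_lit 1), (14, 26, 16), [1777, 99], 48⟩,
  ⟨⟨19, 36, -36, 20, 13, 30, 34, -8, -35⟩, (.cons (nat_lit 1439) (nat_lit 321) (nat_lit 745) (nat_lit 1) (.cons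
 (nat_lit 504) (nat_lit 1374) (nat_lit 418) (nat_lit 1) .nil)), (nat_lit 21), (nat_lit 27), (nat_lit 19),
 (nat_lit 1), (14, 17, 16), [815, 2135], 44⟩,
  ⟨⟨19, 36, -36, -20, -13, -30, 34, -8, -35⟩, (.cons (nat_lit 749) (nat_lit 1193) (nat_lit 216) (nat_lit 1)
 (.cons (nat_lit 1314) (nat_lit 1871) (nat_lit 1490) (nat_lit 1) .nil)), (nat_lit 28), (nat_lit 34), (nat_lit
 25), (nat_lit 1), (14, 26, 16), [1777, 99], 48⟩,
  ⟨⟨15, -44, 1, -20, -13, -30, 34, -8, -35⟩, (.cons (nat_lit 1100) (nat_lit 785) (nat_lit 732) (nat_lit 1)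
 (.cons (nat_lit 566) (nat_lit 526) (nat_lit 1725) (nat_lit 1) .nil)), (nat_lit 1), (nat_lit 14), (nat_lit 42),
 (nat_lit 1), (2, 26, 16), [1519, 1556], 40⟩,
  ⟨⟨19, 36, -36, -20, -13, -30, 34, -8, -35⟩, (.cons (nat_lit 749) (nat_lit 1193) (nat_lit 216) (nat_lit 1)
 (.cons (nat_lit 1314) (nat_lit 1871) (nat_lit 1490) (nat_lit 1) .nil)), (nat_lit 28), (nat_lit 34), (nat_lit
 25), (nat_lit 1), (14, 26, 16), [1777, 99], 48⟩,
  ⟨⟨15, -44, 1, 20, 13, 30, 34, -8, -35⟩, (.cons (nat_lit 1571) (nat_lit 883) (nat_lit 1347) (nat_lit 1) (.cons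
 (nat_lit 1423) (nat_lit 1916) (nat_lit 1687) (nat_lit 1) .nil)), (nat_lit 41), (nat_lit 8), (nat_lit 32),
 (nat_lit 1), (2, 17, 16), [772, 1148], 23⟩,
  ⟨⟨19, 36, -36, -20, -13, -30, 34, -8, -35⟩, (.cons (nat_lit 749) (nat_lit 1193) (nat_lit 216) (nat_lit 1)
 (.cons (nat_lit 1314) (nat_lit 1871) (nat_lit 1490) (nat_lit 1) .nil)), (nat_lit 28), (nat_lit 34), (nat_lit
 25), (nat_lit 1), (14, 26, 16), [1777, 99], 48⟩,
  ⟨⟨15, -44, 1, 20, 13, 30, 34, -8, -35⟩, (.cons (nat_lit 1571) (nat_lit 883) (nat_lit 1347) (nat_lit 1) (.cons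
 (nat_lit 1423) (nat_lit 1916) (nat_lit 1687) (nat_lit 1) .nil)), (nat_lit 41), (nat_lit 8), (nat_lit 32),
 (nat_lit 1), (2, 17, 16), [772, 1148], 23⟩,
  ⟨⟨19, 36, -36, -20, -13, -30, 34, -8, -35⟩, (.cons (nat_lit 749) (nat_lit 1193) (nat_lit 216) (nat_lit 1)
 (.cons (nat_lit 1314) (nat_lit 1871) (nat_lit 1490) (nat_lit 1) .nil)), (nat_lit 28), (nat_lit 34), (nat_lit
 25), (nat_lit 1), (14, 26, 16), [1777, 99], 48⟩,
  ⟨⟨19, 36, -36, -20, -13, -30, 34, -8, -35⟩, (.cons (nat_lit 749) (nat_lit 1193) (nat_lit 216) (nat_lit 1)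
 (.cons (nat_lit 1314) (nat_lit 1871) (nat_lit 1490) (nat_lit 1) .nil)), (nat_lit 28), (nat_lit 34), (nat_lit
 25), (nat_lit 1), (14, 26, 16), [1777, 99], 48⟩,
  ⟨⟨19, 36, -36, -20, -13, -30, 34, -8, -35⟩, (.cons (nat_lit 749) (nat_lit 1193) (nat_lit 216) (nat_lit 1)
 (.cons (nat_lit 1314) (nat_lit 1871) (nat_lit 1490) (nat_lit 1) .nil)), (nat_lit 28), (nat_lit 34), (nat_lit
 25), (nat_lit 1), (14, 26, 16), [1777, 99], 48⟩,
  ⟨⟨19, 36, -36, -20, -13, -30, 34, -8, -35⟩, (.cons (nat_lit 749) (nat_lit 1193) (nat_lit 216) (nat_lit 1)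
 (.cons (nat_lit 1314) (nat_lit 1871) (nat_lit 1490) (nat_lit 1) .nil)), (nat_lit 28), (nat_lit 34), (nat_lit
 25), (nat_lit 1), (14, 26, 16), [1777, 99], 48⟩,
  ⟨⟨19, 36, -36, -20, -13, -30, 34, -8, -35⟩, (.cons (nat_lit 749) (nat_lit 1193) (nat_lit 216) (nat_lit 1)
 (.cons (nat_lit 1314) (nat_lit 1871) (nat_lit 1490) (nat_lit 1) .nil)), (nat_lit 28), (nat_lit 34), (nat_lit
 25), (nat_lit 1), (14, 26, 16), [1777, 99], 48⟩,
  ⟨⟨19, 36, -36, -20, -13, -30, 34, -8, -35⟩, (.cons (nat_lit 749) (nat_lit 1193) (nat_lit 216) (nat_lit 1)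
 (.cons (nat_lit 1314) (nat_lit 1871) (nat_lit 1490) (nat_lit 1) .nil)), (nat_lit 28), (nat_lit 34), (nat_lit
 25), (nat_lit 1), (14, 26, 16), [1777, 99], 48⟩,
  ⟨⟨15, -44, 1, 20, 13, 30, 34, -8, -35⟩, (.cons (nat_lit 1571) (nat_lit 883) (nat_lit 1347) (nat_lit 1) (.cons
 (nat_lit 1423) (nat_lit 1916) (nat_lit 1687) (nat_lit 1) .nil)), (nat_lit 41), (nat_lit 8), (nat_lit 32),
 (nat_lit 1), (2, 17, 16), [772, 1148], 23⟩,
  ⟨⟨15, -44, 1, 20, 13, 30, 34, -8, -35⟩, (.cons (nat_lit 1571) (nat_lit 883) (nat_lit 1347) (nat_lit 1) (.cons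
 (nat_lit 1423) (nat_lit 1916) (nat_lit 1687) (nat_lit 1) .nil)), (nat_lit 41), (nat_lit 8), (nat_lit 32),
 (nat_lit 1), (2, 17, 16), [772, 1148], 23⟩,
  ⟨⟨15, -44, 1, -20, -13, -30, 34, -8, -35⟩, (.cons (nat_lit 1100) (nat_lit 785) (nat_lit 732) (nat_lit 1)
 (.cons (nat_lit 566) (nat_lit 526) (nat_lit 1725) (nat_lit 1) .nil)), (nat_lit 1), (nat_lit 14), (nat_lit 42),
 (nat_lit 1), (2, 26, 16), [1519, 1556], 40⟩,
  ⟨⟨19, 36, -36, -20, -13, -30, 34, -8, -35⟩, (.cons (nat_lit 749) (nat_lit 1193) (nat_lit 216) (nat_lit 1)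
 (.cons (nat_lit 1314) (nat_lit 1871) (nat_lit 1490) (nat_lit 1) .nil)), (nat_lit 28), (nat_lit 34), (nat_lit
 25), (nat_lit 1), (14, 26, 16), [1777, 99], 48⟩,
  ⟨⟨19, 36, -36, -20, -13, -30, 34, -8, -35⟩, (.cons (nat_lit 749) (nat_lit 1193) (nat_lit 216) (nat_lit 1)
 (.cons (nat_lit 1314) (nat_lit 1871) (nat_lit 1490) (nat_lit 1) .nil)), (nat_lit 28), (nat_lit 34), (nat_lit
 25), (nat_lit 1), (14, 26, 16), [1777, 99], 48⟩,
  ⟨⟨19, 36, -36, 20, 13, 30, 34, -8, -35⟩, (.cons (nat_lit 1439) (nat_lit 321) (nat_lit 745) (nat_lit 1) (.cons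
 (nat_lit 504) (nat_lit 1374) (nat_lit 418) (nat_lit 1) .nil)), (nat_lit 21), (nat_lit 27), (nat_lit 19),
 (nat_lit 1), (14, 17, 16), [815, 2135], 44⟩,
  ⟨⟨19, 36, -36, -20, -13, -30, 34, -8, -35⟩, (.cons (nat_lit 749) (nat_lit 1193) (nat_lit 216) (nat_lit 1)
 (.cons (nat_lit 1314) (nat_lit 1871) (nat_lit 1490) (nat_lit 1) .nil)), (nat_lit 28), (nat_lit 34), (nat_lit
 25), (nat_lit 1), (14, 26, 16), [1777, 99], 48⟩,
  ⟨⟨15, -44, 1, -20, -13, -30, 34, -8, -35⟩, (.cons (nat_lit 1100) (nat_lit 785) (nat_lit 732) (nat_lit 1)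
 (.cons (nat_lit 566) (nat_lit 526) (nat_lit 1725) (nat_lit 1) .nil)), (nat_lit 1), (nat_lit 14), (nat_lit 42),
 (nat_lit 1), (2, 26, 16), [1519, 1556], 40⟩,
  ⟨⟨15, -44, 1, -20, -13, -30, 34, -8, -35⟩, (.cons (nat_lit 1100) (nat_lit 785) (nat_lit 732) (nat_lit 1)
 (.cons (nat_lit 566) (nat_lit 526) (nat_lit 1725) (nat_lit 1) .nil)), (nat_lit 1), (nat_lit 14), (nat_lit 42),
 (nat_lit 1), (2, 26, 16), [1519, 1556], 40⟩,
  ⟨⟨19, 36, -36, -20, -13, -30, 34, -8, -35⟩, (.cons (nat_lit 749) (nat_lit 1193) (nat_lit 216) (nat_lit 1)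
 (.cons (nat_lit 1314) (nat_lit 1871) (nat_lit 1490) (nat_lit 1) .nil)), (nat_lit 28), (nat_lit 34), (nat_lit
 25), (nat_lit 1), (14, 26, 16), [1777, 99], 48⟩,
  ⟨⟨19, 36, -36, -20, -13, -30, 34, -8, -35⟩, (.cons (nat_lit 749) (nat_lit 1193) (nat_lit 216) (nat_lit 1)
 (.cons (nat_lit 1314) (nat_lit 1871) (nat_lit 1490) (nat_lit 1) .nil)), (nat_lit 28), (nat_lit 34), (nat_lit
 25), (nat_lit 1), (14, 26, 16), [1777, 99], 48⟩,
  ⟨⟨19, 36, -36, -20, -13, -30, 34, -8, -35⟩, (.cons (nat_lit 749) (nat_lit 1193) (nat_lit 216) (nat_lit 1)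
 (.cons (nat_lit 1314) (nat_lit 1871) (nat_lit 1490) (nat_lit 1) .nil)), (nat_lit 28), (nat_lit 34), (nat_lit
 25), (nat_lit 1), (14, 26, 16), [1777, 99], 48⟩]

/-- Moves. -/
noncomputable def t0_6 : List Mv := [
  ⟨⟨-37, -24, 0, 20, -37, 0, 2, -8, -43⟩, (.cons (nat_lit 1242) (nat_lit 735) (nat_lit 952) (nat_lit 1) (.cons
 (nat_lit 146) (nat_lit 1917) (nat_lit 1502) (nat_lit 1) .nil)), (nat_lit 9), (nat_lit 11), (nat_lit 5),
 (nat_lit 1), (12, 40, 4), [1405, 1679], 17⟩,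
  ⟨⟨-37, -24, 0, 20, -37, 0, 2, -8, -43⟩, (.cons (nat_lit 1242) (nat_lit 735) (nat_lit 952) (nat_lit 1) (.cons
 (nat_lit 146) (nat_lit 1917) (nat_lit 1502) (nat_lit 1) .nil)), (nat_lit 9), (nat_lit 11), (nat_lit 5),
 (nat_lit 1), (12, 40, 4), [1405, 1679], 17⟩,
  ⟨⟨39, 16, -43, 20, -37, 0, 2, -8, -43⟩, (.cons (nat_lit 349) (nat_lit 1415) (nat_lit 436) (nat_lit 1) (.cons
 (nat_lit 653) (nat_lit 1843) (nat_lit 891) (nat_lit 1) .nil)), (nat_lit 31), (nat_lit 47), (nat_lit 16),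
 (nat_lit 1), (35, 40, 4), [975, 1397], 2⟩,
  ⟨⟨39, 16, -43, -20, 37, 0, 2, -8, -43⟩, (.cons (nat_lit 717) (nat_lit 872) (nat_lit 848) (nat_lit 1) (.cons
 (nat_lit 800) (nat_lit 1668) (nat_lit 1057) (nat_lit 1) .nil)), (nat_lit 8), (nat_lit 44), (nat_lit 49),
 (nat_lit 1), (35, 3, 4), [988, 332], 38⟩,
  ⟨⟨-37, -24, 0, -20, 37, 0, 2, -8, -43⟩, (.cons (nat_lit 1390) (nat_lit 1579) (nat_lit 547) (nat_lit 1) (.cons
 (nat_lit 2208) (nat_lit 1011) (nat_lit 1198) (nat_lit 1) .nil)), (nat_lit 52), (nat_lit 43), (nat_lit 39),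
 (nat_lit 1), (12, 3, 4), [1160, 896], 32⟩,
  ⟨⟨39, 16, -43, -20, 37, 0, 2, -8, -43⟩, (.cons (nat_lit 717) (nat_lit 872) (nat_lit 848) (nat_lit 1) (.cons
 (nat_lit 800) (nat_lit 1668) (nat_lit 1057) (nat_lit 1) .nil)), (nat_lit 8), (nat_lit 44), (nat_lit 49),
 (nat_lit 1), (35, 3, 4), [988, 332], 38⟩,
  ⟨⟨39, 16, -43, 20, -37, 0, 2, -8, -43⟩, (.cons (nat_lit 349) (nat_lit 1415) (nat_lit 436) (nat_lit 1) (.cons
 (nat_lit 653) (nat_lit 1843) (nat_lit 891) (nat_lit 1) .nil)), (nat_lit 31), (nat_lit 47), (nat_lit 16),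
 (nat_lit 1), (35, 40, 4), [975, 1397], 2⟩,
  ⟨⟨-37, -24, 0, -20, 37, 0, 2, -8, -43⟩, (.cons (nat_lit 1390) (nat_lit 1579) (nat_lit 547) (nat_lit 1) (.cons
 (nat_lit 2208) (nat_lit 1011) (nat_lit 1198) (nat_lit 1) .nil)), (nat_lit 52), (nat_lit 43), (nat_lit 39),
 (nat_lit 1), (12, 3, 4), [1160, 896], 32⟩,
  ⟨⟨39, 16, -43, 20, -37, 0, 2, -8, -43⟩, (.cons (nat_lit 349) (nat_lit 1415) (nat_lit 436) (nat_lit 1) (.cons
 (nat_lit 653) (nat_lit 1843) (nat_lit 891) (nat_lit 1) .nil)), (nat_lit 31), (nat_lit 47), (nat_lit 16),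
 (nat_lit 1), (35, 40, 4), [975, 1397], 2⟩,
  ⟨⟨39, 16, -43, 20, -37, 0, 2, -8, -43⟩, (.cons (nat_lit 349) (nat_lit 1415) (nat_lit 436) (nat_lit 1) (.cons
 (nat_lit 653) (nat_lit 1843) (nat_lit 891) (nat_lit 1) .nil)), (nat_lit 31), (nat_lit 47), (nat_lit 16),
 (nat_lit 1), (35, 40, 4), [975, 1397], 2⟩,
  ⟨⟨-37, -24, 0, 20, -37, 0, 2, -8, -43⟩, (.cons (nat_lit 1242) (nat_lit 735) (nat_lit 952) (nat_lit 1) (.cons
 (nat_lit 146) (nat_lit 1917) (nat_lit 1502) (nat_lit 1) .nil)), (nat_lit 9), (nat_lit 11), (nat_lit 5),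
 (nat_lit 1), (12, 40, 4), [1405, 1679], 17⟩,
  ⟨⟨-37, -24, 0, -20, 37, 0, 2, -8, -43⟩, (.cons (nat_lit 1390) (nat_lit 1579) (nat_lit 547) (nat_lit 1) (.cons
 (nat_lit 2208) (nat_lit 1011) (nat_lit 1198) (nat_lit 1) .nil)), (nat_lit 52), (nat_lit 43), (nat_lit 39),
 (nat_lit 1), (12, 3, 4), [1160, 896], 32⟩,
  ⟨⟨-37, -24, 0, 20, -37, 0, 2, -8, -43⟩, (.cons (nat_lit 1242) (nat_lit 735) (nat_lit 952) (nat_lit 1) (.cons
 (nat_lit 146) (nat_lit 1917) (nat_lit 1502) (nat_lit 1) .nil)), (nat_lit 9), (nat_lit 11), (nat_lit 5),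
 (nat_lit 1), (12, 40, 4), [1405, 1679], 17⟩,
  ⟨⟨-37, -24, 0, -20, 37, 0, 2, -8, -43⟩, (.cons (nat_lit 1390) (nat_lit 1579) (nat_lit 547) (nat_lit 1) (.cons
 (nat_lit 2208) (nat_lit 1011) (nat_lit 1198) (nat_lit 1) .nil)), (nat_lit 52), (nat_lit 43), (nat_lit 39),
 (nat_lit 1), (12, 3, 4), [1160, 896], 32⟩,
  ⟨⟨-37, -24, 0, -20, 37, 0, 2, -8, -43⟩, (.cons (nat_lit 1390) (nat_lit 1579) (nat_lit 547) (nat_lit 1) (.cons
 (nat_lit 2208) (nat_lit 1011) (nat_lit 1198) (nat_lit 1) .nil)), (nat_lit 52), (nat_lit 43), (nat_lit 39),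
 (nat_lit 1), (12, 3, 4), [1160, 896], 32⟩,
  ⟨⟨-37, -24, 0, -20, 37, 0, 2, -8, -43⟩, (.cons (nat_lit 1390) (nat_lit 1579) (nat_lit 547) (nat_lit 1) (.cons
 (nat_lit 2208) (nat_lit 1011) (nat_lit 1198) (nat_lit 1) .nil)), (nat_lit 52), (nat_lit 43), (nat_lit 39),
 (nat_lit 1), (12, 3, 4), [1160, 896], 32⟩,
  ⟨⟨-37, -24, 0, -20, 37, 0, 2, -8, -43⟩, (.cons (nat_lit 1390) (nat_lit 1579) (nat_lit 547) (nat_lit 1) (.cons
 (nat_lit 2208) (nat_lit 1011) (nat_lit 1198) (nat_lit 1) .nil)), (nat_lit 52), (nat_lit 43), (nat_lit 39),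
 (nat_lit 1), (12, 3, 4), [1160, 896], 32⟩,
  ⟨⟨39, 16, -43, -20, 37, 0, 2, -8, -43⟩, (.cons (nat_lit 717) (nat_lit 872) (nat_lit 848) (nat_lit 1) (.cons
 (nat_lit 800) (nat_lit 1668) (nat_lit 1057) (nat_lit 1) .nil)), (nat_lit 8), (nat_lit 44), (nat_lit 49),
 (nat_lit 1), (35, 3, 4), [988, 332], 38⟩,
  ⟨⟨-37, -24, 0, -20, 37, 0, 2, -8, -43⟩, (.cons (nat_lit 1390) (nat_lit 1579) (nat_lit 547) (nat_lit 1) (.cons
 (nat_lit 2208) (nat_lit 1011) (nat_lit 1198) (nat_lit 1) .nil)), (nat_lit 52), (nat_lit 43), (nat_lit 39),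
 (nat_lit 1), (12, 3, 4), [1160, 896], 32⟩,
  ⟨⟨-37, -24, 0, -20, 37, 0, 2, -8, -43⟩, (.cons (nat_lit 1390) (nat_lit 1579) (nat_lit 547) (nat_lit 1) (.cons
 (nat_lit 2208) (nat_lit 1011) (nat_lit 1198) (nat_lit 1) .nil)), (nat_lit 52), (nat_lit 43), (nat_lit 39),
 (nat_lit 1), (12, 3, 4), [1160, 896], 32⟩,
  ⟨⟨39, 16, -43, -20, 37, 0, 2, -8, -43⟩, (.cons (nat_lit 717) (nat_lit 872) (nat_lit 848) (nat_lit 1) (.cons
 (nat_lit 800) (nat_lit 1668) (nat_lit 1057) (nat_lit 1) .nil)), (nat_lit 8), (nat_lit 44), (nat_lit 49),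
 (nat_lit 1), (35, 3, 4), [988, 332], 38⟩,
  ⟨⟨-37, -24, 0, -20, 37, 0, 2, -8, -43⟩, (.cons (nat_lit 1390) (nat_lit 1579) (nat_lit 547) (nat_lit 1) (.cons
 (nat_lit 2208) (nat_lit 1011) (nat_lit 1198) (nat_lit 1) .nil)), (nat_lit 52), (nat_lit 43), (nat_lit 39),
 (nat_lit 1), (12, 3, 4), [1160, 896], 32⟩,
  ⟨⟨-37, -24, 0, -20, 37, 0, 2, -8, -43⟩, (.cons (nat_lit 1390) (nat_lit 1579) (nat_lit 547) (nat_lit 1) (.cons
 (nat_lit 2208) (nat_lit 1011) (nat_lit 1198) (nat_lit 1) .nil)), (nat_lit 52), (nat_lit 43), (nat_lit 39),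
 (nat_lit 1), (12, 3, 4), [1160, 896], 32⟩,
  ⟨⟨-37, -24, 0, -20, 37, 0, 2, -8, -43⟩, (.cons (nat_lit 1390) (nat_lit 1579) (nat_lit 547) (nat_lit 1) (.cons
 (nat_lit 2208) (nat_lit 1011) (nat_lit 1198) (nat_lit 1) .nil)), (nat_lit 52), (nat_lit 43), (nat_lit 39),
 (nat_lit 1), (12, 3, 4), [1160, 896], 32⟩,
  ⟨⟨-37, -24, 0, -20, 37, 0, 2, -8, -43⟩, (.cons (nat_lit 1390) (nat_lit 1579) (nat_lit 547) (nat_lit 1) (.cons
 (nat_lit 2208) (nat_lit 1011) (nat_lit 1198) (nat_lit 1) .nil)), (nat_lit 52), (nat_lit 43), (nat_lit 39),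
 (nat_lit 1), (12, 3, 4), [1160, 896], 32⟩,
  ⟨⟨-37, -24, 0, -20, 37, 0, 2, -8, -43⟩, (.cons (nat_lit 1390) (nat_lit 1579) (nat_lit 547) (nat_lit 1) (.cons
 (nat_lit 2208) (nat_lit 1011) (nat_lit 1198) (nat_lit 1) .nil)), (nat_lit 52), (nat_lit 43), (nat_lit 39),
 (nat_lit 1), (12, 3, 4), [1160, 896], 32⟩,
  ⟨⟨-37, -24, 0, 20, -37, 0, 2, -8, -43⟩, (.cons (nat_lit 1242) (nat_lit 735) (nat_lit 952) (nat_lit 1) (.cons
 (nat_lit 146) (nat_lit 1917) (nat_lit 1502) (nat_lit 1) .nil)), (nat_lit 9), (nat_lit 11), (nat_lit 5),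
 (nat_lit 1), (12, 40, 4), [1405, 1679], 17⟩,
  ⟨⟨39, 16, -43, -20, 37, 0, 2, -8, -43⟩, (.cons (nat_lit 717) (nat_lit 872) (nat_lit 848) (nat_lit 1) (.cons
 (nat_lit 800) (nat_lit 1668) (nat_lit 1057) (nat_lit 1) .nil)), (nat_lit 8), (nat_lit 44), (nat_lit 49),
 (nat_lit 1), (35, 3, 4), [988, 332], 38⟩,
  ⟨⟨-37, -24, 0, -20, 37, 0, 2, -8, -43⟩, (.cons (nat_lit 1390) (nat_lit 1579) (nat_lit 547) (nat_lit 1) (.cons
 (nat_lit 2208) (nat_lit 1011) (nat_lit 1198) (nat_lit 1) .nil)), (nat_lit 52), (nat_lit 43), (nat_lit 39),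
 (nat_lit 1), (12, 3, 4), [1160, 896], 32⟩,
  ⟨⟨39, 16, -43, 20, -37, 0, 2, -8, -43⟩, (.cons (nat_lit 349) (nat_lit 1415) (nat_lit 436) (nat_lit 1) (.cons
 (nat_lit 653) (nat_lit 1843) (nat_lit 891) (nat_lit 1) .nil)), (nat_lit 31), (nat_lit 47), (nat_lit 16),
 (nat_lit 1), (35, 40, 4), [975, 1397], 2⟩,
  ⟨⟨39, 16, -43, -20, 37, 0, 2, -8, -43⟩, (.cons (nat_lit 717) (nat_lit 872) (nat_lit 848) (nat_lit 1) (.cons
 (nat_lit 800) (nat_lit 1668) (nat_lit 1057) (nat_lit 1) .nil)), (nat_lit 8), (nat_lit 44), (nat_lit 49),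
 (nat_lit 1), (35, 3, 4), [988, 332], 38⟩,
  ⟨⟨-37, -24, 0, 20, -37, 0, 2, -8, -43⟩, (.cons (nat_lit 1242) (nat_lit 735) (nat_lit 952) (nat_lit 1) (.cons
 (nat_lit 146) (nat_lit 1917) (nat_lit 1502) (nat_lit 1) .nil)), (nat_lit 9), (nat_lit 11), (nat_lit 5),
 (nat_lit 1), (12, 40, 4), [1405, 1679], 17⟩,
  ⟨⟨-37, -24, 0, -20, 37, 0, 2, -8, -43⟩, (.cons (nat_lit 1390) (nat_lit 1579) (nat_lit 547) (nat_lit 1) (.cons
 (nat_lit 2208) (nat_lit 1011) (nat_lit 1198) (nat_lit 1) .nil)), (nat_lit 52), (nat_lit 43), (nat_lit 39),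
 (nat_lit 1), (12, 3, 4), [1160, 896], 32⟩,
  ⟨⟨-37, -24, 0, -20, 37, 0, 2, -8, -43⟩, (.cons (nat_lit 1390) (nat_lit 1579) (nat_lit 547) (nat_lit 1) (.cons
 (nat_lit 2208) (nat_lit 1011) (nat_lit 1198) (nat_lit 1) .nil)), (nat_lit 52), (nat_lit 43), (nat_lit 39),
 (nat_lit 1), (12, 3, 4), [1160, 896], 32⟩,
  ⟨⟨39, 16, -43, -20, 37, 0, 2, -8, -43⟩, (.cons (nat_lit 717) (nat_lit 872) (nat_lit 848) (nat_lit 1) (.cons
 (nat_lit 800) (nat_lit 1668) (nat_lit 1057) (nat_lit 1) .nil)), (nat_lit 8), (nat_lit 44), (nat_lit 49),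
 (nat_lit 1), (35, 3, 4), [988, 332], 38⟩,
  ⟨⟨-37, -24, 0, -20, 37, 0, 2, -8, -43⟩, (.cons (nat_lit 1390) (nat_lit 1579) (nat_lit 547) (nat_lit 1) (.cons
 (nat_lit 2208) (nat_lit 1011) (nat_lit 1198) (nat_lit 1) .nil)), (nat_lit 52), (nat_lit 43), (nat_lit 39),
 (nat_lit 1), (12, 3, 4), [1160, 896], 32⟩,
  ⟨⟨-37, -24, 0, -20, 37, 0, 2, -8, -43⟩, (.cons (nat_lit 1390) (nat_lit 1579) (nat_lit 547) (nat_lit 1) (.cons
 (nat_lit 2208) (nat_lit 1011) (nat_lit 1198) (nat_lit 1) .nil)), (nat_lit 52), (nat_lit 43), (nat_lit 39),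
 (nat_lit 1), (12, 3, 4), [1160, 896], 32⟩,
  ⟨⟨-37, -24, 0, -20, 37, 0, 2, -8, -43⟩, (.cons (nat_lit 1390) (nat_lit 1579) (nat_lit 547) (nat_lit 1) (.cons
 (nat_lit 2208) (nat_lit 1011) (nat_lit 1198) (nat_lit 1) .nil)), (nat_lit 52), (nat_lit 43), (nat_lit 39),
 (nat_lit 1), (12, 3, 4), [1160, 896], 32⟩,
  ⟨⟨39, 16, -43, 20, -37, 0, 2, -8, -43⟩, (.cons (nat_lit 349) (nat_lit 1415) (nat_lit 436) (nat_lit 1) (.cons
 (nat_lit 653) (nat_lit 1843) (nat_lit 891) (nat_lit 1) .nil)), (nat_lit 31), (nat_lit 47), (nat_lit 16),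
 (nat_lit 1), (35, 40, 4), [975, 1397], 2⟩,
  ⟨⟨-37, -24, 0, -20, 37, 0, 2, -8, -43⟩, (.cons (nat_lit 1390) (nat_lit 1579) (nat_lit 547) (nat_lit 1) (.cons
 (nat_lit 2208) (nat_lit 1011) (nat_lit 1198) (nat_lit 1) .nil)), (nat_lit 52), (nat_lit 43), (nat_lit 39),
 (nat_lit 1), (12, 3, 4), [1160, 896], 32⟩,
  ⟨⟨-37, -24, 0, -20, 37, 0, 2, -8, -43⟩, (.cons (nat_lit 1390) (nat_lit 1579) (nat_lit 547) (nat_lit 1) (.cons
 (nat_lit 2208) (nat_lit 1011) (nat_lit 1198) (nat_lit 1) .nil)), (nat_lit 52), (nat_lit 43), (nat_lit 39),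
 (nat_lit 1), (12, 3, 4), [1160, 896], 32⟩,
  ⟨⟨-37, -24, 0, -20, 37, 0, 2, -8, -43⟩, (.cons (nat_lit 1390) (nat_lit 1579) (nat_lit 547) (nat_lit 1) (.cons
 (nat_lit 2208) (nat_lit 1011) (nat_lit 1198) (nat_lit 1) .nil)), (nat_lit 52), (nat_lit 43), (nat_lit 39),
 (nat_lit 1), (12, 3, 4), [1160, 896], 32⟩,
  ⟨⟨-37, -24, 0, -20, 37, 0, 2, -8, -43⟩, (.cons (nat_lit 1390) (nat_lit 1579) (nat_lit 547) (nat_lit 1) (.cons
 (nat_lit 2208) (nat_lit 1011) (nat_lit 1198) (nat_lit 1) .nil)), (nat_lit 52), (nat_lit 43), (nat_lit 39),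
 (nat_lit 1), (12, 3, 4), [1160, 896], 32⟩]

/-- Moves. -/
noncomputable def t0_7 : List Mv := [
  ⟨⟨33, 8, -53, 20, 27, 20, 30, -24, -13⟩, (.cons (nat_lit 347) (nat_lit 818) (nat_lit 460) (nat_lit 1) (.cons
 (nat_lit 90) (nat_lit 1718) (nat_lit 117) (nat_lit 1) .nil)), (nat_lit 34), (nat_lit 26), (nat_lit 19),
 (nat_lit 1), (32, 22, 33), [1263, 11], 42⟩,
  ⟨⟨33, 8, -53, -20, -27, -20, 30, -24, -13⟩, (.cons (nat_lit 1484) (nat_lit 81) (nat_lit 949) (nat_lit 1)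
 (.cons (nat_lit 1599) (nat_lit 656) (nat_lit 1822) (nat_lit 1) .nil)), (nat_lit 24), (nat_lit 10), (nat_lit
 52), (nat_lit 1), (32, 21, 33), [1425, 104], 22⟩,
  ⟨⟨33, 8, -53, -20, -27, -20, 30, -24, -13⟩, (.cons (nat_lit 1484) (nat_lit 81) (nat_lit 949) (nat_lit 1)
 (.cons (nat_lit 1599) (nat_lit 656) (nat_lit 1822) (nat_lit 1) .nil)), (nat_lit 24), (nat_lit 10), (nat_lit
 52), (nat_lit 1), (32, 21, 33), [1425, 104], 22⟩,
  ⟨⟨33, 8, -53, -20, -27, -20, 30, -24, -13⟩, (.cons (nat_lit 1484) (nat_lit 81) (nat_lit 949) (nat_lit 1)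
 (.cons (nat_lit 1599) (nat_lit 656) (nat_lit 1822) (nat_lit 1) .nil)), (nat_lit 24), (nat_lit 10), (nat_lit
 52), (nat_lit 1), (32, 21, 33), [1425, 104], 22⟩,
  ⟨⟨-3, -32, 40, 20, 27, 20, 30, -24, -13⟩, (.cons (nat_lit 642) (nat_lit 300) (nat_lit 1191) (nat_lit 1)
 (.cons (nat_lit 1132) (nat_lit 2089) (nat_lit 1809) (nat_lit 1) .nil)), (nat_lit 47), (nat_lit 6), (nat_lit
 13), (nat_lit 1), (1, 22, 33), [1650, 716], 8⟩,
  ⟨⟨33, 8, -53, -20, -27, -20, 30, -24, -13⟩, (.cons (nat_lit 1484) (nat_lit 81) (nat_lit 949) (nat_lit 1)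
 (.cons (nat_lit 1599) (nat_lit 656) (nat_lit 1822) (nat_lit 1) .nil)), (nat_lit 24), (nat_lit 10), (nat_lit
 52), (nat_lit 1), (32, 21, 33), [1425, 104], 22⟩,
  ⟨⟨-3, -32, 40, 20, 27, 20, 30, -24, -13⟩, (.cons (nat_lit 642) (nat_lit 300) (nat_lit 1191) (nat_lit 1)
 (.cons (nat_lit 1132) (nat_lit 2089) (nat_lit 1809) (nat_lit 1) .nil)), (nat_lit 47), (nat_lit 6), (nat_lit
 13), (nat_lit 1), (1, 22, 33), [1650, 716], 8⟩,
  ⟨⟨33, 8, -53, -20, -27, -20, 30, -24, -13⟩, (.cons (nat_lit 1484) (nat_lit 81) (nat_lit 949) (nat_lit 1)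
 (.cons (nat_lit 1599) (nat_lit 656) (nat_lit 1822) (nat_lit 1) .nil)), (nat_lit 24), (nat_lit 10), (nat_lit
 52), (nat_lit 1), (32, 21, 33), [1425, 104], 22⟩,
  ⟨⟨-3, -32, 40, 20, 27, 20, 30, -24, -13⟩, (.cons (nat_lit 642) (nat_lit 300) (nat_lit 1191) (nat_lit 1)
 (.cons (nat_lit 1132) (nat_lit 2089) (nat_lit 1809) (nat_lit 1) .nil)), (nat_lit 47), (nat_lit 6), (nat_lit
 13), (nat_lit 1), (1, 22, 33), [1650, 716], 8⟩,
  ⟨⟨-3, -32, 40, -20, -27, -20, 30, -24, -13⟩, (.cons (nat_lit 752) (nat_lit 1209) (nat_lit 906) (nat_lit 1)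
 (.cons (nat_lit 2208) (nat_lit 519) (nat_lit 83) (nat_lit 1) .nil)), (nat_lit 52), (nat_lit 39), (nat_lit 38),
 (nat_lit 1), (1, 21, 33), [6, 997], 43⟩,
  ⟨⟨33, 8, -53, -20, -27, -20, 30, -24, -13⟩, (.cons (nat_lit 1484) (nat_lit 81) (nat_lit 949) (nat_lit 1)
 (.cons (nat_lit 1599) (nat_lit 656) (nat_lit 1822) (nat_lit 1) .nil)), (nat_lit 24), (nat_lit 10), (nat_lit
 52), (nat_lit 1), (32, 21, 33), [1425, 104], 22⟩,
  ⟨⟨33, 8, -53, 20, 27, 20, 30, -24, -13⟩, (.cons (nat_lit 347) (nat_lit 818) (nat_lit 460) (nat_lit 1) (.cons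
 (nat_lit 90) (nat_lit 1718) (nat_lit 117) (nat_lit 1) .nil)), (nat_lit 34), (nat_lit 26), (nat_lit 19),
 (nat_lit 1), (32, 22, 33), [1263, 11], 42⟩,
  ⟨⟨33, 8, -53, -20, -27, -20, 30, -24, -13⟩, (.cons (nat_lit 1484) (nat_lit 81) (nat_lit 949) (nat_lit 1)
 (.cons (nat_lit 1599) (nat_lit 656) (nat_lit 1822) (nat_lit 1) .nil)), (nat_lit 24), (nat_lit 10), (nat_lit
 52), (nat_lit 1), (32, 21, 33), [1425, 104], 22⟩,
  ⟨⟨33, 8, -53, 20, 27, 20, 30, -24, -13⟩, (.cons (nat_lit 347) (nat_lit 818) (nat_lit 460) (nat_lit 1) (.cons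
 (nat_lit 90) (nat_lit 1718) (nat_lit 117) (nat_lit 1) .nil)), (nat_lit 34), (nat_lit 26), (nat_lit 19),
 (nat_lit 1), (32, 22, 33), [1263, 11], 42⟩,
  ⟨⟨33, 8, -53, -20, -27, -20, 30, -24, -13⟩, (.cons (nat_lit 1484) (nat_lit 81) (nat_lit 949) (nat_lit 1)
 (.cons (nat_lit 1599) (nat_lit 656) (nat_lit 1822) (nat_lit 1) .nil)), (nat_lit 24), (nat_lit 10), (nat_lit
 52), (nat_lit 1), (32, 21, 33), [1425, 104], 22⟩,
  ⟨⟨-3, -32, 40, 20, 27, 20, 30, -24, -13⟩, (.cons (nat_lit 642) (nat_lit 300) (nat_lit 1191) (nat_lit 1)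
 (.cons (nat_lit 1132) (nat_lit 2089) (nat_lit 1809) (nat_lit 1) .nil)), (nat_lit 47), (nat_lit 6), (nat_lit
 13), (nat_lit 1), (1, 22, 33), [1650, 716], 8⟩,
  ⟨⟨-3, -32, 40, 20, 27, 20, 30, -24, -13⟩, (.cons (nat_lit 642) (nat_lit 300) (nat_lit 1191) (nat_lit 1)
 (.cons (nat_lit 1132) (nat_lit 2089) (nat_lit 1809) (nat_lit 1) .nil)), (nat_lit 47), (nat_lit 6), (nat_lit
 13), (nat_lit 1), (1, 22, 33), [1650, 716], 8⟩,
  ⟨⟨33, 8, -53, -20, -27, -20, 30, -24, -13⟩, (.cons (nat_lit 1484) (nat_lit 81) (nat_lit 949) (nat_lit 1)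
 (.cons (nat_lit 1599) (nat_lit 656) (nat_lit 1822) (nat_lit 1) .nil)), (nat_lit 24), (nat_lit 10), (nat_lit
 52), (nat_lit 1), (32, 21, 33), [1425, 104], 22⟩,
  ⟨⟨33, 8, -53, -20, -27, -20, 30, -24, -13⟩, (.cons (nat_lit 1484) (nat_lit 81) (nat_lit 949) (nat_lit 1)
 (.cons (nat_lit 1599) (nat_lit 656) (nat_lit 1822) (nat_lit 1) .nil)), (nat_lit 24), (nat_lit 10), (nat_lit
 52), (nat_lit 1), (32, 21, 33), [1425, 104], 22⟩,
  ⟨⟨-3, -32, 40, -20, -27, -20, 30, -24, -13⟩, (.cons (nat_lit 752) (nat_lit 1209) (nat_lit 906) (nat_lit 1)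
 (.cons (nat_lit 2208) (nat_lit 519) (nat_lit 83) (nat_lit 1) .nil)), (nat_lit 52), (nat_lit 39), (nat_lit 38),
 (nat_lit 1), (1, 21, 33), [6, 997], 43⟩,
  ⟨⟨33, 8, -53, -20, -27, -20, 30, -24, -13⟩, (.cons (nat_lit 1484) (nat_lit 81) (nat_lit 949) (nat_lit 1)
 (.cons (nat_lit 1599) (nat_lit 656) (nat_lit 1822) (nat_lit 1) .nil)), (nat_lit 24), (nat_lit 10), (nat_lit
 52), (nat_lit 1), (32, 21, 33), [1425, 104], 22⟩,
  ⟨⟨33, 8, -53, -20, -27, -20, 30, -24, -13⟩, (.cons (nat_lit 1484) (nat_lit 81) (nat_lit 949) (nat_lit 1)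
 (.cons (nat_lit 1599) (nat_lit 656) (nat_lit 1822) (nat_lit 1) .nil)), (nat_lit 24), (nat_lit 10), (nat_lit
 52), (nat_lit 1), (32, 21, 33), [1425, 104], 22⟩,
  ⟨⟨33, 8, -53, -20, -27, -20, 30, -24, -13⟩, (.cons (nat_lit 1484) (nat_lit 81) (nat_lit 949) (nat_lit 1)
 (.cons (nat_lit 1599) (nat_lit 656) (nat_lit 1822) (nat_lit 1) .nil)), (nat_lit 24), (nat_lit 10), (nat_lit
 52), (nat_lit 1), (32, 21, 33), [1425, 104], 22⟩,
  ⟨⟨33, 8, -53, -20, -27, -20, 30, -24, -13⟩, (.cons (nat_lit 1484) (nat_lit 81) (nat_lit 949) (nat_lit 1)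
 (.cons (nat_lit 1599) (nat_lit 656) (nat_lit 1822) (nat_lit 1) .nil)), (nat_lit 24), (nat_lit 10), (nat_lit
 52), (nat_lit 1), (32, 21, 33), [1425, 104], 22⟩,
  ⟨⟨33, 8, -53, -20, -27, -20, 30, -24, -13⟩, (.cons (nat_lit 1484) (nat_lit 81) (nat_lit 949) (nat_lit 1)
 (.cons (nat_lit 1599) (nat_lit 656) (nat_lit 1822) (nat_lit 1) .nil)), (nat_lit 24), (nat_lit 10), (nat_lit
 52), (nat_lit 1), (32, 21, 33), [1425, 104], 22⟩,
  ⟨⟨33, 8, -53, -20, -27, -20, 30, -24, -13⟩, (.cons (nat_lit 1484) (nat_lit 81) (nat_lit 949) (nat_lit 1)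
 (.cons (nat_lit 1599) (nat_lit 656) (nat_lit 1822) (nat_lit 1) .nil)), (nat_lit 24), (nat_lit 10), (nat_lit
 52), (nat_lit 1), (32, 21, 33), [1425, 104], 22⟩,
  ⟨⟨-3, -32, 40, 20, 27, 20, 30, -24, -13⟩, (.cons (nat_lit 642) (nat_lit 300) (nat_lit 1191) (nat_lit 1)
 (.cons (nat_lit 1132) (nat_lit 2089) (nat_lit 1809) (nat_lit 1) .nil)), (nat_lit 47), (nat_lit 6), (nat_lit
 13), (nat_lit 1), (1, 22, 33), [1650, 716], 8⟩,
  ⟨⟨33, 8, -53, -20, -27, -20, 30, -24, -13⟩, (.cons (nat_lit 1484) (nat_lit 81) (nat_lit 949) (nat_lit 1)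
 (.cons (nat_lit 1599) (nat_lit 656) (nat_lit 1822) (nat_lit 1) .nil)), (nat_lit 24), (nat_lit 10), (nat_lit
 52), (nat_lit 1), (32, 21, 33), [1425, 104], 22⟩,
  ⟨⟨-3, -32, 40, -20, -27, -20, 30, -24, -13⟩, (.cons (nat_lit 752) (nat_lit 1209) (nat_lit 906) (nat_lit 1)
 (.cons (nat_lit 2208) (nat_lit 519) (nat_lit 83) (nat_lit 1) .nil)), (nat_lit 52), (nat_lit 39), (nat_lit 38),
 (nat_lit 1), (1, 21, 33), [6, 997], 43⟩,
  ⟨⟨-3, -32, 40, -20, -27, -20, 30, -24, -13⟩, (.cons (nat_lit 752) (nat_lit 1209) (nat_lit 906) (nat_lit 1)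
 (.cons (nat_lit 2208) (nat_lit 519) (nat_lit 83) (nat_lit 1) .nil)), (nat_lit 52), (nat_lit 39), (nat_lit 38),
 (nat_lit 1), (1, 21, 33), [6, 997], 43⟩,
  ⟨⟨33, 8, -53, -20, -27, -20, 30, -24, -13⟩, (.cons (nat_lit 1484) (nat_lit 81) (nat_lit 949) (nat_lit 1)
 (.cons (nat_lit 1599) (nat_lit 656) (nat_lit 1822) (nat_lit 1) .nil)), (nat_lit 24), (nat_lit 10), (nat_lit
 52), (nat_lit 1), (32, 21, 33), [1425, 104], 22⟩,
  ⟨⟨33, 8, -53, -20, -27, -20, 30, -24, -13⟩, (.cons (nat_lit 1484) (nat_lit 81) (nat_lit 949) (nat_lit 1)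
 (.cons (nat_lit 1599) (nat_lit 656) (nat_lit 1822) (nat_lit 1) .nil)), (nat_lit 24), (nat_lit 10), (nat_lit
 52), (nat_lit 1), (32, 21, 33), [1425, 104], 22⟩,
  ⟨⟨33, 8, -53, -20, -27, -20, 30, -24, -13⟩, (.cons (nat_lit 1484) (nat_lit 81) (nat_lit 949) (nat_lit 1)
 (.cons (nat_lit 1599) (nat_lit 656) (nat_lit 1822) (nat_lit 1) .nil)), (nat_lit 24), (nat_lit 10), (nat_lit
 52), (nat_lit 1), (32, 21, 33), [1425, 104], 22⟩,
  ⟨⟨33, 8, -53, 20, 27, 20, 30, -24, -13⟩, (.cons (nat_lit 347) (nat_lit 818) (nat_lit 460) (nat_lit 1) (.cons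
 (nat_lit 90) (nat_lit 1718) (nat_lit 117) (nat_lit 1) .nil)), (nat_lit 34), (nat_lit 26), (nat_lit 19),
 (nat_lit 1), (32, 22, 33), [1263, 11], 42⟩,
  ⟨⟨-3, -32, 40, -20, -27, -20, 30, -24, -13⟩, (.cons (nat_lit 752) (nat_lit 1209) (nat_lit 906) (nat_lit 1)
 (.cons (nat_lit 2208) (nat_lit 519) (nat_lit 83) (nat_lit 1) .nil)), (nat_lit 52), (nat_lit 39), (nat_lit 38),
 (nat_lit 1), (1, 21, 33), [6, 997], 43⟩,
  ⟨⟨33, 8, -53, -20, -27, -20, 30, -24, -13⟩, (.cons (nat_lit 1484) (nat_lit 81) (nat_lit 949) (nat_lit 1)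
 (.cons (nat_lit 1599) (nat_lit 656) (nat_lit 1822) (nat_lit 1) .nil)), (nat_lit 24), (nat_lit 10), (nat_lit
 52), (nat_lit 1), (32, 21, 33), [1425, 104], 22⟩,
  ⟨⟨33, 8, -53, -20, -27, -20, 30, -24, -13⟩, (.cons (nat_lit 1484) (nat_lit 81) (nat_lit 949) (nat_lit 1)
 (.cons (nat_lit 1599) (nat_lit 656) (nat_lit 1822) (nat_lit 1) .nil)), (nat_lit 24), (nat_lit 10), (nat_lit
 52), (nat_lit 1), (32, 21, 33), [1425, 104], 22⟩,
  ⟨⟨33, 8, -53, -20, -27, -20, 30, -24, -13⟩, (.cons (nat_lit 1484) (nat_lit 81) (nat_lit 949) (nat_lit 1)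
 (.cons (nat_lit 1599) (nat_lit 656) (nat_lit 1822) (nat_lit 1) .nil)), (nat_lit 24), (nat_lit 10), (nat_lit
 52), (nat_lit 1), (32, 21, 33), [1425, 104], 22⟩,
  ⟨⟨-3, -32, 40, -20, -27, -20, 30, -24, -13⟩, (.cons (nat_lit 752) (nat_lit 1209) (nat_lit 906) (nat_lit 1)
 (.cons (nat_lit 2208) (nat_lit 519) (nat_lit 83) (nat_lit 1) .nil)), (nat_lit 52), (nat_lit 39), (nat_lit 38),
 (nat_lit 1), (1, 21, 33), [6, 997], 43⟩,
  ⟨⟨33, 8, -53, -20, -27, -20, 30, -24, -13⟩, (.cons (nat_lit 1484) (nat_lit 81) (nat_lit 949) (nat_lit 1)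
 (.cons (nat_lit 1599) (nat_lit 656) (nat_lit 1822) (nat_lit 1) .nil)), (nat_lit 24), (nat_lit 10), (nat_lit
 52), (nat_lit 1), (32, 21, 33), [1425, 104], 22⟩,
  ⟨⟨33, 8, -53, 20, 27, 20, 30, -24, -13⟩, (.cons (nat_lit 347) (nat_lit 818) (nat_lit 460) (nat_lit 1) (.cons
 (nat_lit 90) (nat_lit 1718) (nat_lit 117) (nat_lit 1) .nil)), (nat_lit 34), (nat_lit 26), (nat_lit 19),
 (nat_lit 1), (32, 22, 33), [1263, 11], 42⟩,
  ⟨⟨33, 8, -53, -20, -27, -20, 30, -24, -13⟩, (.cons (nat_lit 1484) (nat_lit 81) (nat_lit 949) (nat_lit 1)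
 (.cons (nat_lit 1599) (nat_lit 656) (nat_lit 1822) (nat_lit 1) .nil)), (nat_lit 24), (nat_lit 10), (nat_lit
 52), (nat_lit 1), (32, 21, 33), [1425, 104], 22⟩,
  ⟨⟨33, 8, -53, 20, 27, 20, 30, -24, -13⟩, (.cons (nat_lit 347) (nat_lit 818) (nat_lit 460) (nat_lit 1) (.cons
 (nat_lit 90) (nat_lit 1718) (nat_lit 117) (nat_lit 1) .nil)), (nat_lit 34), (nat_lit 26), (nat_lit 19),
 (nat_lit 1), (32, 22, 33), [1263, 11], 42⟩]

/-- Moves. -/
noncomputable def t0_9 : List Mv := [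
  ⟨⟨-29, 0, -27, 0, -43, 0, 18, 0, -47⟩, (.cons (nat_lit 988) (nat_lit 244) (nat_lit 1529) (nat_lit 1) (.cons
 (nat_lit 2022) (nat_lit 1421) (nat_lit 1483) (nat_lit 1) .nil)), (nat_lit 44), (nat_lit 47), (nat_lit 16),
 (nat_lit 1), (33, 0, 24), [439, 1774], 22⟩,
  ⟨⟨47, 0, -20, 0, 43, 0, 18, 0, -47⟩, (.cons (nat_lit 59) (nat_lit 15) (nat_lit 1244) (nat_lit 1) (.cons
 (nat_lit 2208) (nat_lit 1090) (nat_lit 1205) (nat_lit 1) .nil)), (nat_lit 52), (nat_lit 43), (nat_lit 28),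
 (nat_lit 1), (34, 0, 24), [111, 890], 34⟩,
  ⟨⟨47, 0, -20, 0, -43, 0, 18, 0, -47⟩, (.cons (nat_lit 1119) (nat_lit 1347) (nat_lit 540) (nat_lit 1) (.cons
 (nat_lit 2208) (nat_lit 1869) (nat_lit 919) (nat_lit 1) .nil)), (nat_lit 52), (nat_lit 11), (nat_lit 31),
 (nat_lit 1), (34, 0, 24), [396, 599], 28⟩,
  ⟨⟨-29, 0, -27, 0, -43, 0, 18, 0, -47⟩, (.cons (nat_lit 988) (nat_lit 244) (nat_lit 1529) (nat_lit 1) (.cons
 (nat_lit 2022) (nat_lit 1421) (nat_lit 1483) (nat_lit 1) .nil)), (nat_lit 44), (nat_lit 47), (nat_lit 16),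
 (nat_lit 1), (33, 0, 24), [439, 1774], 22⟩,
  ⟨⟨-29, 0, -27, 0, -43, 0, 18, 0, -47⟩, (.cons (nat_lit 988) (nat_lit 244) (nat_lit 1529) (nat_lit 1) (.cons
 (nat_lit 2022) (nat_lit 1421) (nat_lit 1483) (nat_lit 1) .nil)), (nat_lit 44), (nat_lit 47), (nat_lit 16),
 (nat_lit 1), (33, 0, 24), [439, 1774], 22⟩,
  ⟨⟨-29, 0, -27, 0, -43, 0, 18, 0, -47⟩, (.cons (nat_lit 988) (nat_lit 244) (nat_lit 1529) (nat_lit 1) (.cons
 (nat_lit 2022) (nat_lit 1421) (nat_lit 1483) (nat_lit 1) .nil)), (nat_lit 44), (nat_lit 47), (nat_lit 16),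
 (nat_lit 1), (33, 0, 24), [439, 1774], 22⟩,
  ⟨⟨-29, 0, -27, 0, 43, 0, 18, 0, -47⟩, (.cons (nat_lit 1102) (nat_lit 243) (nat_lit 1373) (nat_lit 1) (.cons
 (nat_lit 2163) (nat_lit 1307) (nat_lit 1064) (nat_lit 1) .nil)), (nat_lit 39), (nat_lit 44), (nat_lit 24),
 (nat_lit 1), (33, 0, 24), [283, 2206], 47⟩,
  ⟨⟨-29, 0, -27, 0, -43, 0, 18, 0, -47⟩, (.cons (nat_lit 988) (nat_lit 244) (nat_lit 1529) (nat_lit 1) (.cons
 (nat_lit 2022) (nat_lit 1421) (nat_lit 1483) (nat_lit 1) .nil)), (nat_lit 44), (nat_lit 47), (nat_lit 16),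
 (nat_lit 1), (33, 0, 24), [439, 1774], 22⟩,
  ⟨⟨-29, 0, -27, 0, -43, 0, 18, 0, -47⟩, (.cons (nat_lit 988) (nat_lit 244) (nat_lit 1529) (nat_lit 1) (.cons
 (nat_lit 2022) (nat_lit 1421) (nat_lit 1483) (nat_lit 1) .nil)), (nat_lit 44), (nat_lit 47), (nat_lit 16),
 (nat_lit 1), (33, 0, 24), [439, 1774], 22⟩,
  ⟨⟨-29, 0, -27, 0, -43, 0, 18, 0, -47⟩, (.cons (nat_lit 988) (nat_lit 244) (nat_lit 1529) (nat_lit 1) (.cons
 (nat_lit 2022) (nat_lit 1421) (nat_lit 1483) (nat_lit 1) .nil)), (nat_lit 44), (nat_lit 47), (nat_lit 16),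
 (nat_lit 1), (33, 0, 24), [439, 1774], 22⟩,
  ⟨⟨-29, 0, -27, 0, -43, 0, 18, 0, -47⟩, (.cons (nat_lit 988) (nat_lit 244) (nat_lit 1529) (nat_lit 1) (.cons
 (nat_lit 2022) (nat_lit 1421) (nat_lit 1483) (nat_lit 1) .nil)), (nat_lit 44), (nat_lit 47), (nat_lit 16),
 (nat_lit 1), (33, 0, 24), [439, 1774], 22⟩,
  ⟨⟨-29, 0, -27, 0, 43, 0, 18, 0, -47⟩, (.cons (nat_lit 1102) (nat_lit 243) (nat_lit 1373) (nat_lit 1) (.cons
 (nat_lit 2163) (nat_lit 1307) (nat_lit 1064) (nat_lit 1) .nil)), (nat_lit 39), (nat_lit 44), (nat_lit 24),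
 (nat_lit 1), (33, 0, 24), [283, 2206], 47⟩,
  ⟨⟨-29, 0, -27, 0, 43, 0, 18, 0, -47⟩, (.cons (nat_lit 1102) (nat_lit 243) (nat_lit 1373) (nat_lit 1) (.cons
 (nat_lit 2163) (nat_lit 1307) (nat_lit 1064) (nat_lit 1) .nil)), (nat_lit 39), (nat_lit 44), (nat_lit 24),
 (nat_lit 1), (33, 0, 24), [283, 2206], 47⟩,
  ⟨⟨-29, 0, -27, 0, 43, 0, 18, 0, -47⟩, (.cons (nat_lit 1102) (nat_lit 243) (nat_lit 1373) (nat_lit 1) (.cons
 (nat_lit 2163) (nat_lit 1307) (nat_lit 1064) (nat_lit 1) .nil)), (nat_lit 39), (nat_lit 44), (nat_lit 24),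
 (nat_lit 1), (33, 0, 24), [283, 2206], 47⟩,
  ⟨⟨-29, 0, -27, 0, -43, 0, 18, 0, -47⟩, (.cons (nat_lit 988) (nat_lit 244) (nat_lit 1529) (nat_lit 1) (.cons
 (nat_lit 2022) (nat_lit 1421) (nat_lit 1483) (nat_lit 1) .nil)), (nat_lit 44), (nat_lit 47), (nat_lit 16),
 (nat_lit 1), (33, 0, 24), [439, 1774], 22⟩,
  ⟨⟨-29, 0, -27, 0, -43, 0, 18, 0, -47⟩, (.cons (nat_lit 988) (nat_lit 244) (nat_lit 1529) (nat_lit 1) (.cons
 (nat_lit 2022) (nat_lit 1421) (nat_lit 1483) (nat_lit 1) .nil)), (nat_lit 44), (nat_lit 47), (nat_lit 16),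
 (nat_lit 1), (33, 0, 24), [439, 1774], 22⟩,
  ⟨⟨-29, 0, -27, 0, -43, 0, 18, 0, -47⟩, (.cons (nat_lit 988) (nat_lit 244) (nat_lit 1529) (nat_lit 1) (.cons
 (nat_lit 2022) (nat_lit 1421) (nat_lit 1483) (nat_lit 1) .nil)), (nat_lit 44), (nat_lit 47), (nat_lit 16),
 (nat_lit 1), (33, 0, 24), [439, 1774], 22⟩,
  ⟨⟨-29, 0, -27, 0, -43, 0, 18, 0, -47⟩, (.cons (nat_lit 988) (nat_lit 244) (nat_lit 1529) (nat_lit 1) (.cons
 (nat_lit 2022) (nat_lit 1421) (nat_lit 1483) (nat_lit 1) .nil)), (nat_lit 44), (nat_lit 47), (nat_lit 16),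
 (nat_lit 1), (33, 0, 24), [439, 1774], 22⟩,
  ⟨⟨47, 0, -20, 0, 43, 0, 18, 0, -47⟩, (.cons (nat_lit 59) (nat_lit 15) (nat_lit 1244) (nat_lit 1) (.cons
 (nat_lit 2208) (nat_lit 1090) (nat_lit 1205) (nat_lit 1) .nil)), (nat_lit 52), (nat_lit 43), (nat_lit 28),
 (nat_lit 1), (34, 0, 24), [111, 890], 34⟩,
  ⟨⟨47, 0, -20, 0, -43, 0, 18, 0, -47⟩, (.cons (nat_lit 1119) (nat_lit 1347) (nat_lit 540) (nat_lit 1) (.cons
 (nat_lit 2208) (nat_lit 1869) (nat_lit 919) (nat_lit 1) .nil)), (nat_lit 52), (nat_lit 11), (nat_lit 31),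
 (nat_lit 1), (34, 0, 24), [396, 599], 28⟩,
  ⟨⟨-29, 0, -27, 0, -43, 0, 18, 0, -47⟩, (.cons (nat_lit 988) (nat_lit 244) (nat_lit 1529) (nat_lit 1) (.cons
 (nat_lit 2022) (nat_lit 1421) (nat_lit 1483) (nat_lit 1) .nil)), (nat_lit 44), (nat_lit 47), (nat_lit 16),
 (nat_lit 1), (33, 0, 24), [439, 1774], 22⟩,
  ⟨⟨-29, 0, -27, 0, -43, 0, 18, 0, -47⟩, (.cons (nat_lit 988) (nat_lit 244) (nat_lit 1529) (nat_lit 1) (.cons
 (nat_lit 2022) (nat_lit 1421) (nat_lit 1483) (nat_lit 1) .nil)), (nat_lit 44), (nat_lit 47), (nat_lit 16),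
 (nat_lit 1), (33, 0, 24), [439, 1774], 22⟩,
  ⟨⟨-29, 0, -27, 0, -43, 0, 18, 0, -47⟩, (.cons (nat_lit 988) (nat_lit 244) (nat_lit 1529) (nat_lit 1) (.cons
 (nat_lit 2022) (nat_lit 1421) (nat_lit 1483) (nat_lit 1) .nil)), (nat_lit 44), (nat_lit 47), (nat_lit 16),
 (nat_lit 1), (33, 0, 24), [439, 1774], 22⟩,
  ⟨⟨47, 0, -20, 0, -43, 0, 18, 0, -47⟩, (.cons (nat_lit 1119) (nat_lit 1347) (nat_lit 540) (nat_lit 1) (.cons
 (nat_lit 2208) (nat_lit 1869) (nat_lit 919) (nat_lit 1) .nil)), (nat_lit 52), (nat_lit 11), (nat_lit 31),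
 (nat_lit 1), (34, 0, 24), [396, 599], 28⟩,
  ⟨⟨-29, 0, -27, 0, -43, 0, 18, 0, -47⟩, (.cons (nat_lit 988) (nat_lit 244) (nat_lit 1529) (nat_lit 1) (.cons
 (nat_lit 2022) (nat_lit 1421) (nat_lit 1483) (nat_lit 1) .nil)), (nat_lit 44), (nat_lit 47), (nat_lit 16),
 (nat_lit 1), (33, 0, 24), [439, 1774], 22⟩,
  ⟨⟨47, 0, -20, 0, -43, 0, 18, 0, -47⟩, (.cons (nat_lit 1119) (nat_lit 1347) (nat_lit 540) (nat_lit 1) (.cons
 (nat_lit 2208) (nat_lit 1869) (nat_lit 919) (nat_lit 1) .nil)), (nat_lit 52), (nat_lit 11), (nat_lit 31),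
 (nat_lit 1), (34, 0, 24), [396, 599], 28⟩,
  ⟨⟨-29, 0, -27, 0, -43, 0, 18, 0, -47⟩, (.cons (nat_lit 988) (nat_lit 244) (nat_lit 1529) (nat_lit 1) (.cons
 (nat_lit 2022) (nat_lit 1421) (nat_lit 1483) (nat_lit 1) .nil)), (nat_lit 44), (nat_lit 47), (nat_lit 16),
 (nat_lit 1), (33, 0, 24), [439, 1774], 22⟩,
  ⟨⟨47, 0, -20, 0, 43, 0, 18, 0, -47⟩, (.cons (nat_lit 59) (nat_lit 15) (nat_lit 1244) (nat_lit 1) (.cons
 (nat_lit 2208) (nat_lit 1090) (nat_lit 1205) (nat_lit 1) .nil)), (nat_lit 52), (nat_lit 43), (nat_lit 28),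
 (nat_lit 1), (34, 0, 24), [111, 890], 34⟩,
  ⟨⟨-29, 0, -27, 0, -43, 0, 18, 0, -47⟩, (.cons (nat_lit 988) (nat_lit 244) (nat_lit 1529) (nat_lit 1) (.cons
 (nat_lit 2022) (nat_lit 1421) (nat_lit 1483) (nat_lit 1) .nil)), (nat_lit 44), (nat_lit 47), (nat_lit 16),
 (nat_lit 1), (33, 0, 24), [439, 1774], 22⟩,
  ⟨⟨-29, 0, -27, 0, -43, 0, 18, 0, -47⟩, (.cons (nat_lit 988) (nat_lit 244) (nat_lit 1529) (nat_lit 1) (.cons
 (nat_lit 2022) (nat_lit 1421) (nat_lit 1483) (nat_lit 1) .nil)), (nat_lit 44), (nat_lit 47), (nat_lit 16),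
 (nat_lit 1), (33, 0, 24), [439, 1774], 22⟩,
  ⟨⟨47, 0, -20, 0, 43, 0, 18, 0, -47⟩, (.cons (nat_lit 59) (nat_lit 15) (nat_lit 1244) (nat_lit 1) (.cons
 (nat_lit 2208) (nat_lit 1090) (nat_lit 1205) (nat_lit 1) .nil)), (nat_lit 52), (nat_lit 43), (nat_lit 28),
 (nat_lit 1), (34, 0, 24), [111, 890], 34⟩,
  ⟨⟨-29, 0, -27, 0, -43, 0, 18, 0, -47⟩, (.cons (nat_lit 988) (nat_lit 244) (nat_lit 1529) (nat_lit 1) (.cons
 (nat_lit 2022) (nat_lit 1421) (nat_lit 1483) (nat_lit 1) .nil)), (nat_lit 44), (nat_lit 47), (nat_lit 16),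
 (nat_lit 1), (33, 0, 24), [439, 1774], 22⟩,
  ⟨⟨-29, 0, -27, 0, 43, 0, 18, 0, -47⟩, (.cons (nat_lit 1102) (nat_lit 243) (nat_lit 1373) (nat_lit 1) (.cons
 (nat_lit 2163) (nat_lit 1307) (nat_lit 1064) (nat_lit 1) .nil)), (nat_lit 39), (nat_lit 44), (nat_lit 24),
 (nat_lit 1), (33, 0, 24), [283, 2206], 47⟩,
  ⟨⟨47, 0, -20, 0, -43, 0, 18, 0, -47⟩, (.cons (nat_lit 1119) (nat_lit 1347) (nat_lit 540) (nat_lit 1) (.cons
 (nat_lit 2208) (nat_lit 1869) (nat_lit 919) (nat_lit 1) .nil)), (nat_lit 52), (nat_lit 11), (nat_lit 31),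
 (nat_lit 1), (34, 0, 24), [396, 599], 28⟩,
  ⟨⟨-29, 0, -27, 0, -43, 0, 18, 0, -47⟩, (.cons (nat_lit 988) (nat_lit 244) (nat_lit 1529) (nat_lit 1) (.cons
 (nat_lit 2022) (nat_lit 1421) (nat_lit 1483) (nat_lit 1) .nil)), (nat_lit 44), (nat_lit 47), (nat_lit 16),
 (nat_lit 1), (33, 0, 24), [439, 1774], 22⟩,
  ⟨⟨-29, 0, -27, 0, -43, 0, 18, 0, -47⟩, (.cons (nat_lit 988) (nat_lit 244) (nat_lit 1529) (nat_lit 1) (.cons
 (nat_lit 2022) (nat_lit 1421) (nat_lit 1483) (nat_lit 1) .nil)), (nat_lit 44), (nat_lit 47), (nat_lit 16),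
 (nat_lit 1), (33, 0, 24), [439, 1774], 22⟩,
  ⟨⟨47, 0, -20, 0, -43, 0, 18, 0, -47⟩, (.cons (nat_lit 1119) (nat_lit 1347) (nat_lit 540) (nat_lit 1) (.cons
 (nat_lit 2208) (nat_lit 1869) (nat_lit 919) (nat_lit 1) .nil)), (nat_lit 52), (nat_lit 11), (nat_lit 31),
 (nat_lit 1), (34, 0, 24), [396, 599], 28⟩,
  ⟨⟨-29, 0, -27, 0, -43, 0, 18, 0, -47⟩, (.cons (nat_lit 988) (nat_lit 244) (nat_lit 1529) (nat_lit 1) (.cons
 (nat_lit 2022) (nat_lit 1421) (nat_lit 1483) (nat_lit 1) .nil)), (nat_lit 44), (nat_lit 47), (nat_lit 16),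
 (nat_lit 1), (33, 0, 24), [439, 1774], 22⟩,
  ⟨⟨47, 0, -20, 0, 43, 0, 18, 0, -47⟩, (.cons (nat_lit 59) (nat_lit 15) (nat_lit 1244) (nat_lit 1) (.cons
 (nat_lit 2208) (nat_lit 1090) (nat_lit 1205) (nat_lit 1) .nil)), (nat_lit 52), (nat_lit 43), (nat_lit 28),
 (nat_lit 1), (34, 0, 24), [111, 890], 34⟩,
  ⟨⟨-29, 0, -27, 0, 43, 0, 18, 0, -47⟩, (.cons (nat_lit 1102) (nat_lit 243) (nat_lit 1373) (nat_lit 1) (.cons
 (nat_lit 2163) (nat_lit 1307) (nat_lit 1064) (nat_lit 1) .nil)), (nat_lit 39), (nat_lit 44), (nat_lit 24),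
 (nat_lit 1), (33, 0, 24), [283, 2206], 47⟩,
  ⟨⟨47, 0, -20, 0, 43, 0, 18, 0, -47⟩, (.cons (nat_lit 59) (nat_lit 15) (nat_lit 1244) (nat_lit 1) (.cons
 (nat_lit 2208) (nat_lit 1090) (nat_lit 1205) (nat_lit 1) .nil)), (nat_lit 52), (nat_lit 43), (nat_lit 28),
 (nat_lit 1), (34, 0, 24), [111, 890], 34⟩,
  ⟨⟨-29, 0, -27, 0, -43, 0, 18, 0, -47⟩, (.cons (nat_lit 988) (nat_lit 244) (nat_lit 1529) (nat_lit 1) (.cons
 (nat_lit 2022) (nat_lit 1421) (nat_lit 1483) (nat_lit 1) .nil)), (nat_lit 44), (nat_lit 47), (nat_lit 16),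
 (nat_lit 1), (33, 0, 24), [439, 1774], 22⟩,
  ⟨⟨-29, 0, -27, 0, -43, 0, 18, 0, -47⟩, (.cons (nat_lit 988) (nat_lit 244) (nat_lit 1529) (nat_lit 1) (.cons
 (nat_lit 2022) (nat_lit 1421) (nat_lit 1483) (nat_lit 1) .nil)), (nat_lit 44), (nat_lit 47), (nat_lit 16),
 (nat_lit 1), (33, 0, 24), [439, 1774], 22⟩]

/-- Moves. -/
noncomputable def t0_10 : List Mv := [
  ⟨⟨21, -20, 31, 38, 15, -34, 12, -36, -13⟩, (.cons (nat_lit 1841) (nat_lit 1697) (nat_lit 681) (nat_lit 1)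
 (.cons (nat_lit 2060) (nat_lit 2164) (nat_lit 1472) (nat_lit 1) .nil)), (nat_lit 28), (nat_lit 33), (nat_lit
 16), (nat_lit 1), (8, 37, 23), [40, 1070], 35⟩,
  ⟨⟨21, -20, 31, 38, 15, -34, 12, -36, -13⟩, (.cons (nat_lit 1841) (nat_lit 1697) (nat_lit 681) (nat_lit 1)
 (.cons (nat_lit 2060) (nat_lit 2164) (nat_lit 1472) (nat_lit 1) .nil)), (nat_lit 28), (nat_lit 33), (nat_lit
 16), (nat_lit 1), (8, 37, 23), [40, 1070], 35⟩,
  ⟨⟨21, -20, 31, 38, 15, -34, 12, -36, -13⟩, (.cons (nat_lit 1841) (nat_lit 1697) (nat_lit 681) (nat_lit 1)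
 (.cons (nat_lit 2060) (nat_lit 2164) (nat_lit 1472) (nat_lit 1) .nil)), (nat_lit 28), (nat_lit 33), (nat_lit
 16), (nat_lit 1), (8, 37, 23), [40, 1070], 35⟩,
  ⟨⟨-9, -16, -44, 38, 15, -34, 12, -36, -13⟩, (.cons (nat_lit 1255) (nat_lit 1356) (nat_lit 1627) (nat_lit 1)
 (.cons (nat_lit 1277) (nat_lit 1220) (nat_lit 955) (nat_lit 1) .nil)), (nat_lit 10), (nat_lit 38), (nat_lit
 2), (nat_lit 1), (15, 37, 23), [900, 506], 24⟩,
  ⟨⟨21, -20, 31, 38, 15, -34, 12, -36, -13⟩, (.cons (nat_lit 1841) (nat_lit 1697) (nat_lit 681) (nat_lit 1)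
 (.cons (nat_lit 2060) (nat_lit 2164) (nat_lit 1472) (nat_lit 1) .nil)), (nat_lit 28), (nat_lit 33), (nat_lit
 16), (nat_lit 1), (8, 37, 23), [40, 1070], 35⟩,
  ⟨⟨-9, -16, -44, 38, 15, -34, 12, -36, -13⟩, (.cons (nat_lit 1255) (nat_lit 1356) (nat_lit 1627) (nat_lit 1)
 (.cons (nat_lit 1277) (nat_lit 1220) (nat_lit 955) (nat_lit 1) .nil)), (nat_lit 10), (nat_lit 38), (nat_lit
 2), (nat_lit 1), (15, 37, 23), [900, 506], 24⟩,
  ⟨⟨21, -20, 31, 38, 15, -34, 12, -36, -13⟩, (.cons (nat_lit 1841) (nat_lit 1697) (nat_lit 681) (nat_lit 1)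
 (.cons (nat_lit 2060) (nat_lit 2164) (nat_lit 1472) (nat_lit 1) .nil)), (nat_lit 28), (nat_lit 33), (nat_lit
 16), (nat_lit 1), (8, 37, 23), [40, 1070], 35⟩,
  ⟨⟨-9, -16, -44, 38, 15, -34, 12, -36, -13⟩, (.cons (nat_lit 1255) (nat_lit 1356) (nat_lit 1627) (nat_lit 1)
 (.cons (nat_lit 1277) (nat_lit 1220) (nat_lit 955) (nat_lit 1) .nil)), (nat_lit 10), (nat_lit 38), (nat_lit
 2), (nat_lit 1), (15, 37, 23), [900, 506], 24⟩,
  ⟨⟨-9, -16, -44, -38, -15, 34, 12, -36, -13⟩, (.cons (nat_lit 1170) (nat_lit 398) (nat_lit 851) (nat_lit 1)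
 (.cons (nat_lit 531) (nat_lit 214) (nat_lit 1641) (nat_lit 1) .nil)), (nat_lit 5), (nat_lit 50), (nat_lit 41),
 (nat_lit 1), (15, 6, 23), [1010, 1224], 8⟩,
  ⟨⟨-9, -16, -44, -38, -15, 34, 12, -36, -13⟩, (.cons (nat_lit 1170) (nat_lit 398) (nat_lit 851) (nat_lit 1)
 (.cons (nat_lit 531) (nat_lit 214) (nat_lit 1641) (nat_lit 1) .nil)), (nat_lit 5), (nat_lit 50), (nat_lit 41),
 (nat_lit 1), (15, 6, 23), [1010, 1224], 8⟩,
  ⟨⟨-9, -16, -44, 38, 15, -34, 12, -36, -13⟩, (.cons (nat_lit 1255) (nat_lit 1356) (nat_lit 1627) (nat_lit 1)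
 (.cons (nat_lit 1277) (nat_lit 1220) (nat_lit 955) (nat_lit 1) .nil)), (nat_lit 10), (nat_lit 38), (nat_lit
 2), (nat_lit 1), (15, 37, 23), [900, 506], 24⟩,
  ⟨⟨21, -20, 31, 38, 15, -34, 12, -36, -13⟩, (.cons (nat_lit 1841) (nat_lit 1697) (nat_lit 681) (nat_lit 1)
 (.cons (nat_lit 2060) (nat_lit 2164) (nat_lit 1472) (nat_lit 1) .nil)), (nat_lit 28), (nat_lit 33), (nat_lit
 16), (nat_lit 1), (8, 37, 23), [40, 1070], 35⟩,
  ⟨⟨21, -20, 31, 38, 15, -34, 12, -36, -13⟩, (.cons (nat_lit 1841) (nat_lit 1697) (nat_lit 681) (nat_lit 1)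
 (.cons (nat_lit 2060) (nat_lit 2164) (nat_lit 1472) (nat_lit 1) .nil)), (nat_lit 28), (nat_lit 33), (nat_lit
 16), (nat_lit 1), (8, 37, 23), [40, 1070], 35⟩,
  ⟨⟨21, -20, 31, -38, -15, 34, 12, -36, -13⟩, (.cons (nat_lit 636) (nat_lit 1580) (nat_lit 1625) (nat_lit 1)
 (.cons (nat_lit 2148) (nat_lit 1384) (nat_lit 1735) (nat_lit 1) .nil)), (nat_lit 45), (nat_lit 49), (nat_lit
 17), (nat_lit 1), (8, 6, 23), [1397, 1553], 36⟩,
  ⟨⟨21, -20, 31, 38, 15, -34, 12, -36, -13⟩, (.cons (nat_lit 1841) (nat_lit 1697) (nat_lit 681) (nat_lit 1)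
 (.cons (nat_lit 2060) (nat_lit 2164) (nat_lit 1472) (nat_lit 1) .nil)), (nat_lit 28), (nat_lit 33), (nat_lit
 16), (nat_lit 1), (8, 37, 23), [40, 1070], 35⟩,
  ⟨⟨-9, -16, -44, 38, 15, -34, 12, -36, -13⟩, (.cons (nat_lit 1255) (nat_lit 1356) (nat_lit 1627) (nat_lit 1)
 (.cons (nat_lit 1277) (nat_lit 1220) (nat_lit 955) (nat_lit 1) .nil)), (nat_lit 10), (nat_lit 38), (nat_lit
 2), (nat_lit 1), (15, 37, 23), [900, 506], 24⟩,
  ⟨⟨-9, -16, -44, 38, 15, -34, 12, -36, -13⟩, (.cons (nat_lit 1255) (nat_lit 1356) (nat_lit 1627) (nat_lit 1)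
 (.cons (nat_lit 1277) (nat_lit 1220) (nat_lit 955) (nat_lit 1) .nil)), (nat_lit 10), (nat_lit 38), (nat_lit
 2), (nat_lit 1), (15, 37, 23), [900, 506], 24⟩,
  ⟨⟨21, -20, 31, 38, 15, -34, 12, -36, -13⟩, (.cons (nat_lit 1841) (nat_lit 1697) (nat_lit 681) (nat_lit 1)
 (.cons (nat_lit 2060) (nat_lit 2164) (nat_lit 1472) (nat_lit 1) .nil)), (nat_lit 28), (nat_lit 33), (nat_lit
 16), (nat_lit 1), (8, 37, 23), [40, 1070], 35⟩,
  ⟨⟨-9, -16, -44, -38, -15, 34, 12, -36, -13⟩, (.cons (nat_lit 1170) (nat_lit 398) (nat_lit 851) (nat_lit 1)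
 (.cons (nat_lit 531) (nat_lit 214) (nat_lit 1641) (nat_lit 1) .nil)), (nat_lit 5), (nat_lit 50), (nat_lit 41),
 (nat_lit 1), (15, 6, 23), [1010, 1224], 8⟩,
  ⟨⟨21, -20, 31, 38, 15, -34, 12, -36, -13⟩, (.cons (nat_lit 1841) (nat_lit 1697) (nat_lit 681) (nat_lit 1)
 (.cons (nat_lit 2060) (nat_lit 2164) (nat_lit 1472) (nat_lit 1) .nil)), (nat_lit 28), (nat_lit 33), (nat_lit
 16), (nat_lit 1), (8, 37, 23), [40, 1070], 35⟩,
  ⟨⟨21, -20, 31, 38, 15, -34, 12, -36, -13⟩, (.cons (nat_lit 1841) (nat_lit 1697) (nat_lit 681) (nat_lit 1)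
 (.cons (nat_lit 2060) (nat_lit 2164) (nat_lit 1472) (nat_lit 1) .nil)), (nat_lit 28), (nat_lit 33), (nat_lit
 16), (nat_lit 1), (8, 37, 23), [40, 1070], 35⟩,
  ⟨⟨-9, -16, -44, 38, 15, -34, 12, -36, -13⟩, (.cons (nat_lit 1255) (nat_lit 1356) (nat_lit 1627) (nat_lit 1)
 (.cons (nat_lit 1277) (nat_lit 1220) (nat_lit 955) (nat_lit 1) .nil)), (nat_lit 10), (nat_lit 38), (nat_lit
 2), (nat_lit 1), (15, 37, 23), [900, 506], 24⟩,
  ⟨⟨21, -20, 31, 38, 15, -34, 12, -36, -13⟩, (.cons (nat_lit 1841) (nat_lit 1697) (nat_lit 681) (nat_lit 1)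
 (.cons (nat_lit 2060) (nat_lit 2164) (nat_lit 1472) (nat_lit 1) .nil)), (nat_lit 28), (nat_lit 33), (nat_lit
 16), (nat_lit 1), (8, 37, 23), [40, 1070], 35⟩,
  ⟨⟨21, -20, 31, 38, 15, -34, 12, -36, -13⟩, (.cons (nat_lit 1841) (nat_lit 1697) (nat_lit 681) (nat_lit 1)
 (.cons (nat_lit 2060) (nat_lit 2164) (nat_lit 1472) (nat_lit 1) .nil)), (nat_lit 28), (nat_lit 33), (nat_lit
 16), (nat_lit 1), (8, 37, 23), [40, 1070], 35⟩,
  ⟨⟨21, -20, 31, 38, 15, -34, 12, -36, -13⟩, (.cons (nat_lit 1841) (nat_lit 1697) (nat_lit 681) (nat_lit 1)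
 (.cons (nat_lit 2060) (nat_lit 2164) (nat_lit 1472) (nat_lit 1) .nil)), (nat_lit 28), (nat_lit 33), (nat_lit
 16), (nat_lit 1), (8, 37, 23), [40, 1070], 35⟩,
  ⟨⟨21, -20, 31, 38, 15, -34, 12, -36, -13⟩, (.cons (nat_lit 1841) (nat_lit 1697) (nat_lit 681) (nat_lit 1)
 (.cons (nat_lit 2060) (nat_lit 2164) (nat_lit 1472) (nat_lit 1) .nil)), (nat_lit 28), (nat_lit 33), (nat_lit
 16), (nat_lit 1), (8, 37, 23), [40, 1070], 35⟩,
  ⟨⟨21, -20, 31, 38, 15, -34, 12, -36, -13⟩, (.cons (nat_lit 1841) (nat_lit 1697) (nat_lit 681) (nat_lit 1)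
 (.cons (nat_lit 2060) (nat_lit 2164) (nat_lit 1472) (nat_lit 1) .nil)), (nat_lit 28), (nat_lit 33), (nat_lit
 16), (nat_lit 1), (8, 37, 23), [40, 1070], 35⟩,
  ⟨⟨21, -20, 31, 38, 15, -34, 12, -36, -13⟩, (.cons (nat_lit 1841) (nat_lit 1697) (nat_lit 681) (nat_lit 1)
 (.cons (nat_lit 2060) (nat_lit 2164) (nat_lit 1472) (nat_lit 1) .nil)), (nat_lit 28), (nat_lit 33), (nat_lit
 16), (nat_lit 1), (8, 37, 23), [40, 1070], 35⟩,
  ⟨⟨21, -20, 31, 38, 15, -34, 12, -36, -13⟩, (.cons (nat_lit 1841) (nat_lit 1697) (nat_lit 681) (nat_lit 1)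
 (.cons (nat_lit 2060) (nat_lit 2164) (nat_lit 1472) (nat_lit 1) .nil)), (nat_lit 28), (nat_lit 33), (nat_lit
 16), (nat_lit 1), (8, 37, 23), [40, 1070], 35⟩,
  ⟨⟨21, -20, 31, -38, -15, 34, 12, -36, -13⟩, (.cons (nat_lit 636) (nat_lit 1580) (nat_lit 1625) (nat_lit 1)
 (.cons (nat_lit 2148) (nat_lit 1384) (nat_lit 1735) (nat_lit 1) .nil)), (nat_lit 45), (nat_lit 49), (nat_lit
 17), (nat_lit 1), (8, 6, 23), [1397, 1553], 36⟩,
  ⟨⟨21, -20, 31, -38, -15, 34, 12, -36, -13⟩, (.cons (nat_lit 636) (nat_lit 1580) (nat_lit 1625) (nat_lit 1)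
 (.cons (nat_lit 2148) (nat_lit 1384) (nat_lit 1735) (nat_lit 1) .nil)), (nat_lit 45), (nat_lit 49), (nat_lit
 17), (nat_lit 1), (8, 6, 23), [1397, 1553], 36⟩,
  ⟨⟨-9, -16, -44, -38, -15, 34, 12, -36, -13⟩, (.cons (nat_lit 1170) (nat_lit 398) (nat_lit 851) (nat_lit 1)
 (.cons (nat_lit 531) (nat_lit 214) (nat_lit 1641) (nat_lit 1) .nil)), (nat_lit 5), (nat_lit 50), (nat_lit 41),
 (nat_lit 1), (15, 6, 23), [1010, 1224], 8⟩,
  ⟨⟨-9, -16, -44, -38, -15, 34, 12, -36, -13⟩, (.cons (nat_lit 1170) (nat_lit 398) (nat_lit 851) (nat_lit 1)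
 (.cons (nat_lit 531) (nat_lit 214) (nat_lit 1641) (nat_lit 1) .nil)), (nat_lit 5), (nat_lit 50), (nat_lit 41),
 (nat_lit 1), (15, 6, 23), [1010, 1224], 8⟩,
  ⟨⟨-9, -16, -44, -38, -15, 34, 12, -36, -13⟩, (.cons (nat_lit 1170) (nat_lit 398) (nat_lit 851) (nat_lit 1)
 (.cons (nat_lit 531) (nat_lit 214) (nat_lit 1641) (nat_lit 1) .nil)), (nat_lit 5), (nat_lit 50), (nat_lit 41),
 (nat_lit 1), (15, 6, 23), [1010, 1224], 8⟩,
  ⟨⟨21, -20, 31, -38, -15, 34, 12, -36, -13⟩, (.cons (nat_lit 636) (nat_lit 1580) (nat_lit 1625) (nat_lit 1)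
 (.cons (nat_lit 2148) (nat_lit 1384) (nat_lit 1735) (nat_lit 1) .nil)), (nat_lit 45), (nat_lit 49), (nat_lit
 17), (nat_lit 1), (8, 6, 23), [1397, 1553], 36⟩,
  ⟨⟨21, -20, 31, 38, 15, -34, 12, -36, -13⟩, (.cons (nat_lit 1841) (nat_lit 1697) (nat_lit 681) (nat_lit 1)
 (.cons (nat_lit 2060) (nat_lit 2164) (nat_lit 1472) (nat_lit 1) .nil)), (nat_lit 28), (nat_lit 33), (nat_lit
 16), (nat_lit 1), (8, 37, 23), [40, 1070], 35⟩,
  ⟨⟨21, -20, 31, 38, 15, -34, 12, -36, -13⟩, (.cons (nat_lit 1841) (nat_lit 1697) (nat_lit 681) (nat_lit 1)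
 (.cons (nat_lit 2060) (nat_lit 2164) (nat_lit 1472) (nat_lit 1) .nil)), (nat_lit 28), (nat_lit 33), (nat_lit
 16), (nat_lit 1), (8, 37, 23), [40, 1070], 35⟩,
  ⟨⟨21, -20, 31, 38, 15, -34, 12, -36, -13⟩, (.cons (nat_lit 1841) (nat_lit 1697) (nat_lit 681) (nat_lit 1)
 (.cons (nat_lit 2060) (nat_lit 2164) (nat_lit 1472) (nat_lit 1) .nil)), (nat_lit 28), (nat_lit 33), (nat_lit
 16), (nat_lit 1), (8, 37, 23), [40, 1070], 35⟩,
  ⟨⟨21, -20, 31, 38, 15, -34, 12, -36, -13⟩, (.cons (nat_lit 1841) (nat_lit 1697) (nat_lit 681) (nat_lit 1)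
 (.cons (nat_lit 2060) (nat_lit 2164) (nat_lit 1472) (nat_lit 1) .nil)), (nat_lit 28), (nat_lit 33), (nat_lit
 16), (nat_lit 1), (8, 37, 23), [40, 1070], 35⟩,
  ⟨⟨21, -20, 31, 38, 15, -34, 12, -36, -13⟩, (.cons (nat_lit 1841) (nat_lit 1697) (nat_lit 681) (nat_lit 1)
 (.cons (nat_lit 2060) (nat_lit 2164) (nat_lit 1472) (nat_lit 1) .nil)), (nat_lit 28), (nat_lit 33), (nat_lit
 16), (nat_lit 1), (8, 37, 23), [40, 1070], 35⟩,
  ⟨⟨21, -20, 31, 38, 15, -34, 12, -36, -13⟩, (.cons (nat_lit 1841) (nat_lit 1697) (nat_lit 681) (nat_lit 1)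
 (.cons (nat_lit 2060) (nat_lit 2164) (nat_lit 1472) (nat_lit 1) .nil)), (nat_lit 28), (nat_lit 33), (nat_lit
 16), (nat_lit 1), (8, 37, 23), [40, 1070], 35⟩,
  ⟨⟨21, -20, 31, 38, 15, -34, 12, -36, -13⟩, (.cons (nat_lit 1841) (nat_lit 1697) (nat_lit 681) (nat_lit 1)
 (.cons (nat_lit 2060) (nat_lit 2164) (nat_lit 1472) (nat_lit 1) .nil)), (nat_lit 28), (nat_lit 33), (nat_lit
 16), (nat_lit 1), (8, 37, 23), [40, 1070], 35⟩,
  ⟨⟨21, -20, 31, -38, -15, 34, 12, -36, -13⟩, (.cons (nat_lit 636) (nat_lit 1580) (nat_lit 1625) (nat_lit 1)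
 (.cons (nat_lit 2148) (nat_lit 1384) (nat_lit 1735) (nat_lit 1) .nil)), (nat_lit 45), (nat_lit 49), (nat_lit
 17), (nat_lit 1), (8, 6, 23), [1397, 1553], 36⟩]

/-- Moves. -/
noncomputable def t0_17 : List Mv := [
  ⟨⟨9, -4, -56, 40, -13, -10, 14, 32, -25⟩, (.cons (nat_lit 658) (nat_lit 1296) (nat_lit 148) (nat_lit 1)
 (.cons (nat_lit 45) (nat_lit 587) (nat_lit 2098) (nat_lit 1) .nil)), (nat_lit 28), (nat_lit 37), (nat_lit 33),
 (nat_lit 1), (19, 8, 20), [703, 1744], 48⟩,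
  ⟨⟨9, -4, -56, 40, -13, -10, 14, 32, -25⟩, (.cons (nat_lit 658) (nat_lit 1296) (nat_lit 148) (nat_lit 1)
 (.cons (nat_lit 45) (nat_lit 587) (nat_lit 2098) (nat_lit 1) .nil)), (nat_lit 28), (nat_lit 37), (nat_lit 33),
 (nat_lit 1), (19, 8, 20), [703, 1744], 48⟩,
  ⟨⟨9, -4, -56, -40, 13, 10, 14, 32, -25⟩, (.cons (nat_lit 536) (nat_lit 1540) (nat_lit 1500) (nat_lit 1)
 (.cons (nat_lit 1804) (nat_lit 104) (nat_lit 4) (nat_lit 1) .nil)), (nat_lit 44), (nat_lit 28), (nat_lit 40),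
 (nat_lit 1), (19, 35, 20), [1786, 41], 1⟩,
  ⟨⟨9, -4, -56, 40, -13, -10, 14, 32, -25⟩, (.cons (nat_lit 658) (nat_lit 1296) (nat_lit 148) (nat_lit 1)
 (.cons (nat_lit 45) (nat_lit 587) (nat_lit 2098) (nat_lit 1) .nil)), (nat_lit 28), (nat_lit 37), (nat_lit 33),
 (nat_lit 1), (19, 8, 20), [703, 1744], 48⟩,
  ⟨⟨9, -4, -56, 40, -13, -10, 14, 32, -25⟩, (.cons (nat_lit 658) (nat_lit 1296) (nat_lit 148) (nat_lit 1)
 (.cons (nat_lit 45) (nat_lit 587) (nat_lit 2098) (nat_lit 1) .nil)), (nat_lit 28), (nat_lit 37), (nat_lit 33),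
 (nat_lit 1), (19, 8, 20), [703, 1744], 48⟩,
  ⟨⟨9, -4, -56, 40, -13, -10, 14, 32, -25⟩, (.cons (nat_lit 658) (nat_lit 1296) (nat_lit 148) (nat_lit 1)
 (.cons (nat_lit 45) (nat_lit 587) (nat_lit 2098) (nat_lit 1) .nil)), (nat_lit 28), (nat_lit 37), (nat_lit 33),
 (nat_lit 1), (19, 8, 20), [703, 1744], 48⟩,
  ⟨⟨5, 36, 31, 40, -13, -10, 14, 32, -25⟩, (.cons (nat_lit 976) (nat_lit 381) (nat_lit 965) (nat_lit 1) (.cons
 (nat_lit 1788) (nat_lit 2092) (nat_lit 124) (nat_lit 1) .nil)), (nat_lit 10), (nat_lit 40), (nat_lit 47),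
 (nat_lit 1), (1, 8, 20), [1262, 475], 44⟩,
  ⟨⟨9, -4, -56, 40, -13, -10, 14, 32, -25⟩, (.cons (nat_lit 658) (nat_lit 1296) (nat_lit 148) (nat_lit 1)
 (.cons (nat_lit 45) (nat_lit 587) (nat_lit 2098) (nat_lit 1) .nil)), (nat_lit 28), (nat_lit 37), (nat_lit 33),
 (nat_lit 1), (19, 8, 20), [703, 1744], 48⟩,
  ⟨⟨9, -4, -56, 40, -13, -10, 14, 32, -25⟩, (.cons (nat_lit 658) (nat_lit 1296) (nat_lit 148) (nat_lit 1)
 (.cons (nat_lit 45) (nat_lit 587) (nat_lit 2098) (nat_lit 1) .nil)), (nat_lit 28), (nat_lit 37), (nat_lit 33),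
 (nat_lit 1), (19, 8, 20), [703, 1744], 48⟩,
  ⟨⟨9, -4, -56, 40, -13, -10, 14, 32, -25⟩, (.cons (nat_lit 658) (nat_lit 1296) (nat_lit 148) (nat_lit 1)
 (.cons (nat_lit 45) (nat_lit 587) (nat_lit 2098) (nat_lit 1) .nil)), (nat_lit 28), (nat_lit 37), (nat_lit 33),
 (nat_lit 1), (19, 8, 20), [703, 1744], 48⟩,
  ⟨⟨9, -4, -56, 40, -13, -10, 14, 32, -25⟩, (.cons (nat_lit 658) (nat_lit 1296) (nat_lit 148) (nat_lit 1)
 (.cons (nat_lit 45) (nat_lit 587) (nat_lit 2098) (nat_lit 1) .nil)), (nat_lit 28), (nat_lit 37), (nat_lit 33),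
 (nat_lit 1), (19, 8, 20), [703, 1744], 48⟩,
  ⟨⟨5, 36, 31, 40, -13, -10, 14, 32, -25⟩, (.cons (nat_lit 976) (nat_lit 381) (nat_lit 965) (nat_lit 1) (.cons
 (nat_lit 1788) (nat_lit 2092) (nat_lit 124) (nat_lit 1) .nil)), (nat_lit 10), (nat_lit 40), (nat_lit 47),
 (nat_lit 1), (1, 8, 20), [1262, 475], 44⟩,
  ⟨⟨9, -4, -56, -40, 13, 10, 14, 32, -25⟩, (.cons (nat_lit 536) (nat_lit 1540) (nat_lit 1500) (nat_lit 1)
 (.cons (nat_lit 1804) (nat_lit 104) (nat_lit 4) (nat_lit 1) .nil)), (nat_lit 44), (nat_lit 28), (nat_lit 40),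
 (nat_lit 1), (19, 35, 20), [1786, 41], 1⟩,
  ⟨⟨9, -4, -56, 40, -13, -10, 14, 32, -25⟩, (.cons (nat_lit 658) (nat_lit 1296) (nat_lit 148) (nat_lit 1)
 (.cons (nat_lit 45) (nat_lit 587) (nat_lit 2098) (nat_lit 1) .nil)), (nat_lit 28), (nat_lit 37), (nat_lit 33),
 (nat_lit 1), (19, 8, 20), [703, 1744], 48⟩,
  ⟨⟨9, -4, -56, 40, -13, -10, 14, 32, -25⟩, (.cons (nat_lit 658) (nat_lit 1296) (nat_lit 148) (nat_lit 1)
 (.cons (nat_lit 45) (nat_lit 587) (nat_lit 2098) (nat_lit 1) .nil)), (nat_lit 28), (nat_lit 37), (nat_lit 33),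
 (nat_lit 1), (19, 8, 20), [703, 1744], 48⟩,
  ⟨⟨9, -4, -56, -40, 13, 10, 14, 32, -25⟩, (.cons (nat_lit 536) (nat_lit 1540) (nat_lit 1500) (nat_lit 1)
 (.cons (nat_lit 1804) (nat_lit 104) (nat_lit 4) (nat_lit 1) .nil)), (nat_lit 44), (nat_lit 28), (nat_lit 40),
 (nat_lit 1), (19, 35, 20), [1786, 41], 1⟩,
  ⟨⟨9, -4, -56, 40, -13, -10, 14, 32, -25⟩, (.cons (nat_lit 658) (nat_lit 1296) (nat_lit 148) (nat_lit 1)
 (.cons (nat_lit 45) (nat_lit 587) (nat_lit 2098) (nat_lit 1) .nil)), (nat_lit 28), (nat_lit 37), (nat_lit 33),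
 (nat_lit 1), (19, 8, 20), [703, 1744], 48⟩,
  ⟨⟨5, 36, 31, -40, 13, 10, 14, 32, -25⟩, (.cons (nat_lit 1700) (nat_lit 954) (nat_lit 124) (nat_lit 1) (.cons
 (nat_lit 593) (nat_lit 1447) (nat_lit 286) (nat_lit 1) .nil)), (nat_lit 22), (nat_lit 36), (nat_lit 38),
 (nat_lit 1), (1, 35, 20), [109, 511], 2⟩,
  ⟨⟨5, 36, 31, -40, 13, 10, 14, 32, -25⟩, (.cons (nat_lit 1700) (nat_lit 954) (nat_lit 124) (nat_lit 1) (.cons
 (nat_lit 593) (nat_lit 1447) (nat_lit 286) (nat_lit 1) .nil)), (nat_lit 22), (nat_lit 36), (nat_lit 38),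
 (nat_lit 1), (1, 35, 20), [109, 511], 2⟩,
  ⟨⟨5, 36, 31, 40, -13, -10, 14, 32, -25⟩, (.cons (nat_lit 976) (nat_lit 381) (nat_lit 965) (nat_lit 1) (.cons
 (nat_lit 1788) (nat_lit 2092) (nat_lit 124) (nat_lit 1) .nil)), (nat_lit 10), (nat_lit 40), (nat_lit 47),
 (nat_lit 1), (1, 8, 20), [1262, 475], 44⟩,
  ⟨⟨5, 36, 31, -40, 13, 10, 14, 32, -25⟩, (.cons (nat_lit 1700) (nat_lit 954) (nat_lit 124) (nat_lit 1) (.cons
 (nat_lit 593) (nat_lit 1447) (nat_lit 286) (nat_lit 1) .nil)), (nat_lit 22), (nat_lit 36), (nat_lit 38),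
 (nat_lit 1), (1, 35, 20), [109, 511], 2⟩,
  ⟨⟨9, -4, -56, -40, 13, 10, 14, 32, -25⟩, (.cons (nat_lit 536) (nat_lit 1540) (nat_lit 1500) (nat_lit 1)
 (.cons (nat_lit 1804) (nat_lit 104) (nat_lit 4) (nat_lit 1) .nil)), (nat_lit 44), (nat_lit 28), (nat_lit 40),
 (nat_lit 1), (19, 35, 20), [1786, 41], 1⟩,
  ⟨⟨5, 36, 31, 40, -13, -10, 14, 32, -25⟩, (.cons (nat_lit 976) (nat_lit 381) (nat_lit 965) (nat_lit 1) (.cons
 (nat_lit 1788) (nat_lit 2092) (nat_lit 124) (nat_lit 1) .nil)), (nat_lit 10), (nat_lit 40), (nat_lit 47),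
 (nat_lit 1), (1, 8, 20), [1262, 475], 44⟩,
  ⟨⟨5, 36, 31, -40, 13, 10, 14, 32, -25⟩, (.cons (nat_lit 1700) (nat_lit 954) (nat_lit 124) (nat_lit 1) (.cons
 (nat_lit 593) (nat_lit 1447) (nat_lit 286) (nat_lit 1) .nil)), (nat_lit 22), (nat_lit 36), (nat_lit 38),
 (nat_lit 1), (1, 35, 20), [109, 511], 2⟩,
  ⟨⟨9, -4, -56, 40, -13, -10, 14, 32, -25⟩, (.cons (nat_lit 658) (nat_lit 1296) (nat_lit 148) (nat_lit 1)
 (.cons (nat_lit 45) (nat_lit 587) (nat_lit 2098) (nat_lit 1) .nil)), (nat_lit 28), (nat_lit 37), (nat_lit 33),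
 (nat_lit 1), (19, 8, 20), [703, 1744], 48⟩,
  ⟨⟨9, -4, -56, 40, -13, -10, 14, 32, -25⟩, (.cons (nat_lit 658) (nat_lit 1296) (nat_lit 148) (nat_lit 1)
 (.cons (nat_lit 45) (nat_lit 587) (nat_lit 2098) (nat_lit 1) .nil)), (nat_lit 28), (nat_lit 37), (nat_lit 33),
 (nat_lit 1), (19, 8, 20), [703, 1744], 48⟩,
  ⟨⟨9, -4, -56, 40, -13, -10, 14, 32, -25⟩, (.cons (nat_lit 658) (nat_lit 1296) (nat_lit 148) (nat_lit 1)
 (.cons (nat_lit 45) (nat_lit 587) (nat_lit 2098) (nat_lit 1) .nil)), (nat_lit 28), (nat_lit 37), (nat_lit 33),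
 (nat_lit 1), (19, 8, 20), [703, 1744], 48⟩,
  ⟨⟨9, -4, -56, 40, -13, -10, 14, 32, -25⟩, (.cons (nat_lit 658) (nat_lit 1296) (nat_lit 148) (nat_lit 1)
 (.cons (nat_lit 45) (nat_lit 587) (nat_lit 2098) (nat_lit 1) .nil)), (nat_lit 28), (nat_lit 37), (nat_lit 33),
 (nat_lit 1), (19, 8, 20), [703, 1744], 48⟩,
  ⟨⟨5, 36, 31, 40, -13, -10, 14, 32, -25⟩, (.cons (nat_lit 976) (nat_lit 381) (nat_lit 965) (nat_lit 1) (.cons
 (nat_lit 1788) (nat_lit 2092) (nat_lit 124) (nat_lit 1) .nil)), (nat_lit 10), (nat_lit 40), (nat_lit 47),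
 (nat_lit 1), (1, 8, 20), [1262, 475], 44⟩,
  ⟨⟨9, -4, -56, 40, -13, -10, 14, 32, -25⟩, (.cons (nat_lit 658) (nat_lit 1296) (nat_lit 148) (nat_lit 1)
 (.cons (nat_lit 45) (nat_lit 587) (nat_lit 2098) (nat_lit 1) .nil)), (nat_lit 28), (nat_lit 37), (nat_lit 33),
 (nat_lit 1), (19, 8, 20), [703, 1744], 48⟩,
  ⟨⟨5, 36, 31, 40, -13, -10, 14, 32, -25⟩, (.cons (nat_lit 976) (nat_lit 381) (nat_lit 965) (nat_lit 1) (.cons
 (nat_lit 1788) (nat_lit 2092) (nat_lit 124) (nat_lit 1) .nil)), (nat_lit 10), (nat_lit 40), (nat_lit 47),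
 (nat_lit 1), (1, 8, 20), [1262, 475], 44⟩,
  ⟨⟨5, 36, 31, 40, -13, -10, 14, 32, -25⟩, (.cons (nat_lit 976) (nat_lit 381) (nat_lit 965) (nat_lit 1) (.cons
 (nat_lit 1788) (nat_lit 2092) (nat_lit 124) (nat_lit 1) .nil)), (nat_lit 10), (nat_lit 40), (nat_lit 47),
 (nat_lit 1), (1, 8, 20), [1262, 475], 44⟩,
  ⟨⟨5, 36, 31, -40, 13, 10, 14, 32, -25⟩, (.cons (nat_lit 1700) (nat_lit 954) (nat_lit 124) (nat_lit 1) (.cons
 (nat_lit 593) (nat_lit 1447) (nat_lit 286) (nat_lit 1) .nil)), (nat_lit 22), (nat_lit 36), (nat_lit 38),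
 (nat_lit 1), (1, 35, 20), [109, 511], 2⟩,
  ⟨⟨9, -4, -56, -40, 13, 10, 14, 32, -25⟩, (.cons (nat_lit 536) (nat_lit 1540) (nat_lit 1500) (nat_lit 1)
 (.cons (nat_lit 1804) (nat_lit 104) (nat_lit 4) (nat_lit 1) .nil)), (nat_lit 44), (nat_lit 28), (nat_lit 40),
 (nat_lit 1), (19, 35, 20), [1786, 41], 1⟩,
  ⟨⟨9, -4, -56, 40, -13, -10, 14, 32, -25⟩, (.cons (nat_lit 658) (nat_lit 1296) (nat_lit 148) (nat_lit 1)
 (.cons (nat_lit 45) (nat_lit 587) (nat_lit 2098) (nat_lit 1) .nil)), (nat_lit 28), (nat_lit 37), (nat_lit 33),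
 (nat_lit 1), (19, 8, 20), [703, 1744], 48⟩,
  ⟨⟨9, -4, -56, 40, -13, -10, 14, 32, -25⟩, (.cons (nat_lit 658) (nat_lit 1296) (nat_lit 148) (nat_lit 1)
 (.cons (nat_lit 45) (nat_lit 587) (nat_lit 2098) (nat_lit 1) .nil)), (nat_lit 28), (nat_lit 37), (nat_lit 33),
 (nat_lit 1), (19, 8, 20), [703, 1744], 48⟩,
  ⟨⟨9, -4, -56, 40, -13, -10, 14, 32, -25⟩, (.cons (nat_lit 658) (nat_lit 1296) (nat_lit 148) (nat_lit 1)
 (.cons (nat_lit 45) (nat_lit 587) (nat_lit 2098) (nat_lit 1) .nil)), (nat_lit 28), (nat_lit 37), (nat_lit 33),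
 (nat_lit 1), (19, 8, 20), [703, 1744], 48⟩,
  ⟨⟨9, -4, -56, 40, -13, -10, 14, 32, -25⟩, (.cons (nat_lit 658) (nat_lit 1296) (nat_lit 148) (nat_lit 1)
 (.cons (nat_lit 45) (nat_lit 587) (nat_lit 2098) (nat_lit 1) .nil)), (nat_lit 28), (nat_lit 37), (nat_lit 33),
 (nat_lit 1), (19, 8, 20), [703, 1744], 48⟩,
  ⟨⟨9, -4, -56, 40, -13, -10, 14, 32, -25⟩, (.cons (nat_lit 658) (nat_lit 1296) (nat_lit 148) (nat_lit 1)
 (.cons (nat_lit 45) (nat_lit 587) (nat_lit 2098) (nat_lit 1) .nil)), (nat_lit 28), (nat_lit 37), (nat_lit 33),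
 (nat_lit 1), (19, 8, 20), [703, 1744], 48⟩,
  ⟨⟨9, -4, -56, -40, 13, 10, 14, 32, -25⟩, (.cons (nat_lit 536) (nat_lit 1540) (nat_lit 1500) (nat_lit 1)
 (.cons (nat_lit 1804) (nat_lit 104) (nat_lit 4) (nat_lit 1) .nil)), (nat_lit 44), (nat_lit 28), (nat_lit 40),
 (nat_lit 1), (19, 35, 20), [1786, 41], 1⟩,
  ⟨⟨9, -4, -56, 40, -13, -10, 14, 32, -25⟩, (.cons (nat_lit 658) (nat_lit 1296) (nat_lit 148) (nat_lit 1)
 (.cons (nat_lit 45) (nat_lit 587) (nat_lit 2098) (nat_lit 1) .nil)), (nat_lit 28), (nat_lit 37), (nat_lit 33),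
 (nat_lit 1), (19, 8, 20), [703, 1744], 48⟩,
  ⟨⟨9, -4, -56, 40, -13, -10, 14, 32, -25⟩, (.cons (nat_lit 658) (nat_lit 1296) (nat_lit 148) (nat_lit 1)
 (.cons (nat_lit 45) (nat_lit 587) (nat_lit 2098) (nat_lit 1) .nil)), (nat_lit 28), (nat_lit 37), (nat_lit 33),
 (nat_lit 1), (19, 8, 20), [703, 1744], 48⟩,
  ⟨⟨9, -4, -56, 40, -13, -10, 14, 32, -25⟩, (.cons (nat_lit 658) (nat_lit 1296) (nat_lit 148) (nat_lit 1)
 (.cons (nat_lit 45) (nat_lit 587) (nat_lit 2098) (nat_lit 1) .nil)), (nat_lit 28), (nat_lit 37), (nat_lit 33),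
 (nat_lit 1), (19, 8, 20), [703, 1744], 48⟩]

/-- Moves. -/
noncomputable def t1_1 : List Mv := [
  mz,
  ⟨⟨-25, 12, -36, 22, -35, -36, 20, 28, -37⟩, (.cons (nat_lit 834) (nat_lit 1628) (nat_lit 1475) (nat_lit 1)
 (.cons (nat_lit 206) (nat_lit 375) (nat_lit 1748) (nat_lit 1) .nil)), (nat_lit 26), (nat_lit 38), (nat_lit
 17), (nat_lit 1), (2, 2, 36), [1469, 1430], 43⟩,
  ⟨⟨21, -32, -49, 2, 35, -36, -28, -20, -13⟩, (.cons (nat_lit 369) (nat_lit 781) (nat_lit 1627) (nat_lit 1)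
 (.cons (nat_lit 578) (nat_lit 370) (nat_lit 1159) (nat_lit 1) .nil)), (nat_lit 38), (nat_lit 51), (nat_lit
 46), (nat_lit 1), (33, 30, 3), [736, 1915], 38⟩,
  ⟨⟨-51, 4, 19, 2, 45, 14, -12, 12, -37⟩, (.cons (nat_lit 689) (nat_lit 1701) (nat_lit 489) (nat_lit 1) (.cons
 (nat_lit 1698) (nat_lit 1801) (nat_lit 985) (nat_lit 1) .nil)), (nat_lit 22), (nat_lit 13), (nat_lit 24),
 (nat_lit 1), (7, 20, 21), [274, 1540], 44⟩,
  mz,
  ⟨⟨-45, -16, 44, -22, 35, -14, -20, -28, -17⟩, (.cons (nat_lit 700) (nat_lit 1550) (nat_lit 1206) (nat_lit 1)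
 (.cons (nat_lit 823) (nat_lit 911) (nat_lit 1116) (nat_lit 1) .nil)), (nat_lit 25), (nat_lit 34), (nat_lit
 12), (nat_lit 1), (12, 9, 21), [1451, 287], 19⟩,
  mz,
  mz,
  mz,
  ⟨⟨27, 32, -47, -40, 17, 0, 10, -16, -47⟩, (.cons (nat_lit 130) (nat_lit 282) (nat_lit 400) (nat_lit 1) (.cons
 (nat_lit 1211) (nat_lit 1316) (nat_lit 278) (nat_lit 1) .nil)), (nat_lit 8), (nat_lit 18), (nat_lit 15),
 (nat_lit 1), (43, 39, 2), [1803, 152], 18⟩,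
  mz,
  ⟨⟨17, 48, -17, -40, 17, 40, -10, 16, -37⟩, (.cons (nat_lit 560) (nat_lit 1183) (nat_lit 1828) (nat_lit 1)
 (.cons (nat_lit 1779) (nat_lit 466) (nat_lit 398) (nat_lit 1) .nil)), (nat_lit 20), (nat_lit 33), (nat_lit 6),
 (nat_lit 1), (25, 2, 24), [513, 342], 45⟩,
  ⟨⟨17, -36, -45, -20, 23, -30, 38, 8, -37⟩, (.cons (nat_lit 28) (nat_lit 13) (nat_lit 149) (nat_lit 1) (.cons
 (nat_lit 570) (nat_lit 1135) (nat_lit 2077) (nat_lit 1) .nil)), (nat_lit 26), (nat_lit 34), (nat_lit 14),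
 (nat_lit 1), (19, 44, 1), [878, 178], 50⟩,
  mz,
  ⟨⟨-51, -4, 19, -2, 45, -14, -12, -12, -37⟩, (.cons (nat_lit 259) (nat_lit 1812) (nat_lit 322) (nat_lit 1)
 (.cons (nat_lit 414) (nat_lit 95) (nat_lit 51) (nat_lit 1) .nil)), (nat_lit 22), (nat_lit 44), (nat_lit 36),
 (nat_lit 1), (25, 36, 28), [790, 2196], 44⟩,
  ⟨⟨9, 4, -61, 40, 23, -10, 22, -32, -29⟩, (.cons (nat_lit 1181) (nat_lit 475) (nat_lit 443) (nat_lit 1) (.cons
 (nat_lit 892) (nat_lit 661) (nat_lit 1320) (nat_lit 1) .nil)), (nat_lit 13), (nat_lit 23), (nat_lit 25),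
 (nat_lit 1), (18, 33, 44), [363, 927], 33⟩,
  ⟨⟨-9, -4, -52, 40, 23, -30, -22, 32, -7⟩, (.cons (nat_lit 1391) (nat_lit 1147) (nat_lit 1456) (nat_lit 1)
 (.cons (nat_lit 523) (nat_lit 394) (nat_lit 146) (nat_lit 1) .nil)), (nat_lit 15), (nat_lit 21), (nat_lit 51),
 (nat_lit 1), (36, 28, 41), [792, 1776], 24⟩,
  mz,
  ⟨⟨19, 0, -63, 0, -47, 0, 42, 0, -23⟩, (.cons (nat_lit 861) (nat_lit 1716) (nat_lit 1136) (nat_lit 1) (.cons
 (nat_lit 1748) (nat_lit 1366) (nat_lit 963) (nat_lit 1) .nil)), (nat_lit 49), (nat_lit 50), (nat_lit 8),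
 (nat_lit 1), (16, 0, 23), [1084, 1564], 14⟩,
  ⟨⟨45, -8, -49, -20, -33, -20, 6, 24, -41⟩, (.cons (nat_lit 249) (nat_lit 107) (nat_lit 1002) (nat_lit 1)
 (.cons (nat_lit 2079) (nat_lit 1295) (nat_lit 493) (nat_lit 1) .nil)), (nat_lit 9), (nat_lit 2), (nat_lit 30),
 (nat_lit 1), (29, 8, 7), [76, 2045], 41⟩,
  ⟨⟨21, 44, -29, -20, 23, 50, 38, 8, -1⟩, (.cons (nat_lit 254) (nat_lit 1538) (nat_lit 40) (nat_lit 1) (.cons
 (nat_lit 597) (nat_lit 534) (nat_lit 726) (nat_lit 1) .nil)), (nat_lit 17), (nat_lit 48), (nat_lit 5),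
 (nat_lit 1), (8, 17, 10), [1240, 1697], 13⟩,
  ⟨⟨21, 32, -49, 2, -35, -36, -28, 20, -13⟩, (.cons (nat_lit 456) (nat_lit 838) (nat_lit 360) (nat_lit 1)
 (.cons (nat_lit 333) (nat_lit 1589) (nat_lit 1486) (nat_lit 1) .nil)), (nat_lit 37), (nat_lit 22), (nat_lit
 18), (nat_lit 1), (30, 23, 7), [265, 500], 34⟩,
  ⟨⟨-39, -32, 8, -20, 33, -20, 6, -24, -41⟩, (.cons (nat_lit 1848) (nat_lit 1122) (nat_lit 1073) (nat_lit 1)
 (.cons (nat_lit 1868) (nat_lit 2069) (nat_lit 1794) (nat_lit 1) .nil)), (nat_lit 52), (nat_lit 41), (nat_lit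
 16), (nat_lit 1), (28, 24, 21), [1318, 1202], 20⟩,
  mz,
  mz,
  ⟨⟨-45, 8, -4, 20, 33, -40, -6, -24, -35⟩, (.cons (nat_lit 1848) (nat_lit 340) (nat_lit 862) (nat_lit 1)
 (.cons (nat_lit 1084) (nat_lit 431) (nat_lit 1459) (nat_lit 1) .nil)), (nat_lit 52), (nat_lit 48), (nat_lit
 26), (nat_lit 1), (40, 24, 21), [243, 1820], 21⟩,
  ⟨⟨-21, 32, -28, -2, -35, -34, 28, 20, -41⟩, (.cons (nat_lit 1092) (nat_lit 1010) (nat_lit 199) (nat_lit 1)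
 (.cons (nat_lit 1274) (nat_lit 140) (nat_lit 1035) (nat_lit 1) .nil)), (nat_lit 26), (nat_lit 40), (nat_lit
 40), (nat_lit 1), (30, 23, 7), [437, 41], 43⟩,
  ⟨⟨17, 36, -45, -20, -23, -30, 38, -8, -37⟩, (.cons (nat_lit 211) (nat_lit 1386) (nat_lit 347) (nat_lit 1)
 (.cons (nat_lit 404) (nat_lit 600) (nat_lit 653) (nat_lit 1) .nil)), (nat_lit 33), (nat_lit 28), (nat_lit 51),
 (nat_lit 1), (45, 30, 37), [1426, 403], 4⟩,
  ⟨⟨-45, -8, -4, 20, -33, -40, -6, 24, -35⟩, (.cons (nat_lit 1213) (nat_lit 1182) (nat_lit 1836) (nat_lit 1)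
 (.cons (nat_lit 1239) (nat_lit 596) (nat_lit 450) (nat_lit 1) .nil)), (nat_lit 37), (nat_lit 44), (nat_lit
 52), (nat_lit 1), (29, 8, 7), [1065, 1881], 9⟩,
  ⟨⟨23, 0, -63, 0, -47, 0, 42, 0, -19⟩, (.cons (nat_lit 732) (nat_lit 547) (nat_lit 1000) (nat_lit 1) (.cons
 (nat_lit 207) (nat_lit 2146) (nat_lit 1351) (nat_lit 1) .nil)), (nat_lit 11), (nat_lit 6), (nat_lit 37),
 (nat_lit 1), (40, 0, 24), [1231, 831], 6⟩,
  mz,
  ⟨⟨9, -4, -61, 40, -23, -10, 22, 32, -29⟩, (.cons (nat_lit 1415) (nat_lit 372) (nat_lit 729) (nat_lit 1)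
 (.cons (nat_lit 1469) (nat_lit 1394) (nat_lit 1785) (nat_lit 1) .nil)), (nat_lit 33), (nat_lit 14), (nat_lit
 49), (nat_lit 1), (36, 19, 41), [738, 1696], 4⟩,
  ⟨⟨-13, -36, 45, 40, -23, -30, -22, -32, -7⟩, (.cons (nat_lit 333) (nat_lit 712) (nat_lit 936) (nat_lit 1)
 (.cons (nat_lit 2007) (nat_lit 1130) (nat_lit 43) (nat_lit 1) .nil)), (nat_lit 45), (nat_lit 12), (nat_lit
 37), (nat_lit 1), (26, 14, 44), [1234, 194], 44⟩,
  ⟨⟨51, -4, -32, 2, 45, -16, 12, -12, -49⟩, (.cons (nat_lit 1848) (nat_lit 92) (nat_lit 194) (nat_lit 1) (.cons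
 (nat_lit 1770) (nat_lit 69) (nat_lit 122) (nat_lit 1) .nil)), (nat_lit 52), (nat_lit 19), (nat_lit 3),
 (nat_lit 1), (25, 36, 28), [1306, 21], 23⟩,
  mz,
  ⟨⟨21, -44, -29, -20, -23, 50, 38, -8, -1⟩, (.cons (nat_lit 501) (nat_lit 546) (nat_lit 1786) (nat_lit 1)
 (.cons (nat_lit 1483) (nat_lit 45) (nat_lit 1136) (nat_lit 1) .nil)), (nat_lit 49), (nat_lit 39), (nat_lit
 47), (nat_lit 1), (18, 3, 46), [1659, 1039], 2⟩,
  ⟨⟨27, -32, -47, 40, 17, 0, 10, 16, -47⟩, (.cons (nat_lit 1291) (nat_lit 21) (nat_lit 1225) (nat_lit 1) (.cons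
 (nat_lit 316) (nat_lit 2207) (nat_lit 738) (nat_lit 1) .nil)), (nat_lit 8), (nat_lit 1), (nat_lit 5), (nat_lit
 1), (46, 2, 24), [169, 417], 18⟩,
  mz,
  ⟨⟨17, -48, -17, 40, 17, -40, -10, -16, -37⟩, (.cons (nat_lit 1721) (nat_lit 965) (nat_lit 1277) (nat_lit 1)
 (.cons (nat_lit 894) (nat_lit 1313) (nat_lit 256) (nat_lit 1) .nil)), (nat_lit 20), (nat_lit 11), (nat_lit
 18), (nat_lit 1), (6, 39, 2), [728, 1675], 45⟩,
  mz,
  mz,
  mz,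
  ⟨⟨45, -16, -1, 22, 35, -36, 20, -28, -37⟩, (.cons (nat_lit 1321) (nat_lit 1808) (nat_lit 471) (nat_lit 1)
 (.cons (nat_lit 630) (nat_lit 554) (nat_lit 296) (nat_lit 1) .nil)), (nat_lit 2), (nat_lit 23), (nat_lit 41),
 (nat_lit 1), (12, 9, 21), [1021, 2097], 25⟩,
  mz,
  ⟨⟨51, 4, -32, 2, -45, -16, 12, 12, -49⟩, (.cons (nat_lit 1623) (nat_lit 643) (nat_lit 1797) (nat_lit 1)
 (.cons (nat_lit 1664) (nat_lit 1547) (nat_lit 331) (nat_lit 1) .nil)), (nat_lit 17), (nat_lit 33), (nat_lit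
 4), (nat_lit 1), (7, 27, 21), [314, 2095], 1⟩,
  ⟨⟨-21, -32, -28, 2, -35, 34, 28, -20, -41⟩, (.cons (nat_lit 1457) (nat_lit 1578) (nat_lit 537) (nat_lit 1)
 (.cons (nat_lit 2082) (nat_lit 411) (nat_lit 2054) (nat_lit 1) .nil)), (nat_lit 24), (nat_lit 4), (nat_lit
 23), (nat_lit 1), (33, 17, 3), [1465, 483], 16⟩,
  ⟨⟨-45, 16, 44, -22, -35, -14, -20, 28, -17⟩, (.cons (nat_lit 533) (nat_lit 221) (nat_lit 374) (nat_lit 1)
 (.cons (nat_lit 1571) (nat_lit 299) (nat_lit 225) (nat_lit 1) .nil)), (nat_lit 42), (nat_lit 44), (nat_lit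
 41), (nat_lit 1), (34, 2, 36), [824, 1643], 28⟩]

/-- Moves. -/
noncomputable def t1_4 : List Mv := [
  mz,
  ⟨⟨45, 16, -1, 22, -35, -36, 20, 28, -37⟩, (.cons (nat_lit 241) (nat_lit 49) (nat_lit 615) (nat_lit 1) (.cons
 (nat_lit 217) (nat_lit 236) (nat_lit 197) (nat_lit 1) .nil)), (nat_lit 37), (nat_lit 33), (nat_lit 12),
 (nat_lit 1), (34, 2, 36), [222, 114], 34⟩,
  ⟨⟨21, -32, -49, 2, 35, -36, -28, -20, -13⟩, (.cons (nat_lit 369) (nat_lit 781) (nat_lit 1627) (nat_lit 1)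
 (.cons (nat_lit 578) (nat_lit 370) (nat_lit 1159) (nat_lit 1) .nil)), (nat_lit 38), (nat_lit 51), (nat_lit
 46), (nat_lit 1), (33, 30, 3), [736, 1915], 38⟩,
  ⟨⟨39, 8, -56, -2, -45, -14, -12, 12, -37⟩, (.cons (nat_lit 118) (nat_lit 45) (nat_lit 568) (nat_lit 1) (.cons
 (nat_lit 1190) (nat_lit 1050) (nat_lit 1824) (nat_lit 1) .nil)), (nat_lit 17), (nat_lit 25), (nat_lit 18),
 (nat_lit 1), (14, 27, 21), [529, 1193], 1⟩,
  mz,
  ⟨⟨25, -12, -61, -22, 35, -14, -20, -28, -17⟩, (.cons (nat_lit 461) (nat_lit 514) (nat_lit 647) (nat_lit 1)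
 (.cons (nat_lit 211) (nat_lit 781) (nat_lit 2056) (nat_lit 1) .nil)), (nat_lit 7), (nat_lit 14), (nat_lit 49),
 (nat_lit 1), (9, 9, 21), [1150, 1791], 7⟩,
  mz,
  mz,
  mz,
  ⟨⟨27, 32, -47, -40, 17, 0, 10, -16, -47⟩, (.cons (nat_lit 130) (nat_lit 282) (nat_lit 400) (nat_lit 1) (.cons
 (nat_lit 1211) (nat_lit 1316) (nat_lit 278) (nat_lit 1) .nil)), (nat_lit 8), (nat_lit 18), (nat_lit 15),
 (nat_lit 1), (43, 39, 2), [1803, 152], 18⟩,
  mz,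
  ⟨⟨17, 48, -17, 40, -17, -40, -10, 16, -37⟩, (.cons (nat_lit 339) (nat_lit 1409) (nat_lit 776) (nat_lit 1)
 (.cons (nat_lit 1602) (nat_lit 1282) (nat_lit 178) (nat_lit 1) .nil)), (nat_lit 43), (nat_lit 49), (nat_lit
 46), (nat_lit 1), (25, 45, 24), [1350, 933], 16⟩,
  ⟨⟨21, 44, 8, 20, -23, 30, 38, 8, -37⟩, (.cons (nat_lit 355) (nat_lit 1641) (nat_lit 280) (nat_lit 1) (.cons
 (nat_lit 463) (nat_lit 276) (nat_lit 1337) (nat_lit 1) .nil)), (nat_lit 6), (nat_lit 8), (nat_lit 7), (nat_lit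
 1), (29, 3, 1), [804, 354], 35⟩,
  mz,
  ⟨⟨39, -8, -56, -2, 45, -14, -12, -12, -37⟩, (.cons (nat_lit 1848) (nat_lit 1714) (nat_lit 967) (nat_lit 1)
 (.cons (nat_lit 1795) (nat_lit 516) (nat_lit 2025) (nat_lit 1) .nil)), (nat_lit 52), (nat_lit 43), (nat_lit
 46), (nat_lit 1), (3, 36, 28), [1263, 457], 51⟩,
  ⟨⟨13, -36, 32, 40, 23, -10, 22, -32, -29⟩, (.cons (nat_lit 1528) (nat_lit 1589) (nat_lit 400) (nat_lit 1)
 (.cons (nat_lit 236) (nat_lit 1454) (nat_lit 1085) (nat_lit 1) .nil)), (nat_lit 46), (nat_lit 45), (nat_lit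
 32), (nat_lit 1), (26, 33, 44), [1051, 128], 10⟩,
  ⟨⟨-13, 36, 45, 40, 23, -30, -22, 32, -7⟩, (.cons (nat_lit 1533) (nat_lit 444) (nat_lit 37) (nat_lit 1) (.cons
 (nat_lit 2015) (nat_lit 1298) (nat_lit 2026) (nat_lit 1) .nil)), (nat_lit 49), (nat_lit 42), (nat_lit 2),
 (nat_lit 1), (5, 28, 41), [706, 977], 51⟩,
  mz,
  ⟨⟨19, 0, -63, 0, -47, 0, 42, 0, -23⟩, (.cons (nat_lit 861) (nat_lit 1716) (nat_lit 1136) (nat_lit 1) (.cons
 (nat_lit 1748) (nat_lit 1366) (nat_lit 963) (nat_lit 1) .nil)), (nat_lit 49), (nat_lit 50), (nat_lit 8),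
 (nat_lit 1), (16, 0, 23), [1084, 1564], 14⟩,
  ⟨⟨-39, 32, 8, -20, -33, -20, 6, 24, -41⟩, (.cons (nat_lit 1127) (nat_lit 1699) (nat_lit 830) (nat_lit 1)
 (.cons (nat_lit 1775) (nat_lit 303) (nat_lit 587) (nat_lit 1) .nil)), (nat_lit 37), (nat_lit 7), (nat_lit 24),
 (nat_lit 1), (25, 8, 7), [1237, 1575], 9⟩,
  ⟨⟨17, -36, 28, 20, -23, -50, 38, 8, -1⟩, (.cons (nat_lit 109) (nat_lit 709) (nat_lit 310) (nat_lit 1) (.cons
 (nat_lit 1665) (nat_lit 1449) (nat_lit 1658) (nat_lit 1) .nil)), (nat_lit 46), (nat_lit 41), (nat_lit 39),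
 (nat_lit 1), (2, 30, 10), [1658, 406], 43⟩,
  ⟨⟨21, 32, -49, -2, 35, 36, -28, 20, -13⟩, (.cons (nat_lit 1708) (nat_lit 96) (nat_lit 1625) (nat_lit 1)
 (.cons (nat_lit 1823) (nat_lit 293) (nat_lit 1561) (nat_lit 1) .nil)), (nat_lit 2), (nat_lit 31), (nat_lit
 27), (nat_lit 1), (30, 24, 7), [1795, 496], 25⟩,
  ⟨⟨-39, -32, 8, -20, 33, -20, 6, -24, -41⟩, (.cons (nat_lit 1848) (nat_lit 1122) (nat_lit 1073) (nat_lit 1)
 (.cons (nat_lit 1868) (nat_lit 2069) (nat_lit 1794) (nat_lit 1) .nil)), (nat_lit 52), (nat_lit 41), (nat_lit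
 16), (nat_lit 1), (28, 24, 21), [1318, 1202], 20⟩,
  mz,
  mz,
  ⟨⟨-45, 8, -4, 20, 33, -40, -6, -24, -35⟩, (.cons (nat_lit 1848) (nat_lit 340) (nat_lit 862) (nat_lit 1)
 (.cons (nat_lit 1084) (nat_lit 431) (nat_lit 1459) (nat_lit 1) .nil)), (nat_lit 52), (nat_lit 48), (nat_lit
 26), (nat_lit 1), (40, 24, 21), [243, 1820], 21⟩,
  ⟨⟨-21, 32, -28, -2, -35, -34, 28, 20, -41⟩, (.cons (nat_lit 1092) (nat_lit 1010) (nat_lit 199) (nat_lit 1)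
 (.cons (nat_lit 1274) (nat_lit 140) (nat_lit 1035) (nat_lit 1) .nil)), (nat_lit 26), (nat_lit 40), (nat_lit
 40), (nat_lit 1), (30, 23, 7), [437, 41], 43⟩,
  ⟨⟨21, -44, 8, -20, -23, -30, 38, -8, -37⟩, (.cons (nat_lit 1294) (nat_lit 1366) (nat_lit 1336) (nat_lit 1)
 (.cons (nat_lit 1429) (nat_lit 481) (nat_lit 2204) (nat_lit 1) .nil)), (nat_lit 18), (nat_lit 36), (nat_lit
 29), (nat_lit 1), (39, 30, 37), [1039, 1625], 8⟩,
  ⟨⟨-45, -8, -4, 20, -33, -40, -6, 24, -35⟩, (.cons (nat_lit 1213) (nat_lit 1182) (nat_lit 1836) (nat_lit 1)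
 (.cons (nat_lit 1239) (nat_lit 596) (nat_lit 450) (nat_lit 1) .nil)), (nat_lit 37), (nat_lit 44), (nat_lit
 52), (nat_lit 1), (29, 8, 7), [1065, 1881], 9⟩,
  ⟨⟨19, 0, 44, 0, -47, 0, 42, 0, -19⟩, (.cons (nat_lit 1848) (nat_lit 55) (nat_lit 1645) (nat_lit 1) (.cons
 (nat_lit 1626) (nat_lit 16) (nat_lit 1962) (nat_lit 1) .nil)), (nat_lit 52), (nat_lit 26), (nat_lit 18),
 (nat_lit 1), (31, 0, 24), [328, 1160], 5⟩,
  mz,
  ⟨⟨9, -4, -61, 40, -23, -10, 22, 32, -29⟩, (.cons (nat_lit 1415) (nat_lit 372) (nat_lit 729) (nat_lit 1)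
 (.cons (nat_lit 1469) (nat_lit 1394) (nat_lit 1785) (nat_lit 1) .nil)), (nat_lit 33), (nat_lit 14), (nat_lit
 49), (nat_lit 1), (36, 19, 41), [738, 1696], 4⟩,
  ⟨⟨-13, -36, 45, -40, 23, 30, -22, -32, -7⟩, (.cons (nat_lit 1783) (nat_lit 858) (nat_lit 589) (nat_lit 1)
 (.cons (nat_lit 292) (nat_lit 1196) (nat_lit 369) (nat_lit 1) .nil)), (nat_lit 51), (nat_lit 15), (nat_lit
 28), (nat_lit 1), (26, 33, 44), [836, 768], 41⟩,
  ⟨⟨51, -4, -32, 2, 45, -16, 12, -12, -49⟩, (.cons (nat_lit 1848) (nat_lit 92) (nat_lit 194) (nat_lit 1) (.cons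
 (nat_lit 1770) (nat_lit 69) (nat_lit 122) (nat_lit 1) .nil)), (nat_lit 52), (nat_lit 19), (nat_lit 3),
 (nat_lit 1), (25, 36, 28), [1306, 21], 23⟩,
  mz,
  ⟨⟨17, 36, 28, 20, 23, -50, 38, -8, -1⟩, (.cons (nat_lit 484) (nat_lit 1197) (nat_lit 1569) (nat_lit 1) (.cons
 (nat_lit 168) (nat_lit 1196) (nat_lit 34) (nat_lit 1) .nil)), (nat_lit 3), (nat_lit 26), (nat_lit 23),
 (nat_lit 1), (28, 44, 46), [400, 734], 34⟩,
  ⟨⟨-17, 48, 0, -40, -17, 0, 10, 16, -47⟩, (.cons (nat_lit 1424) (nat_lit 506) (nat_lit 901) (nat_lit 1) (.cons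
 (nat_lit 599) (nat_lit 1807) (nat_lit 312) (nat_lit 1) .nil)), (nat_lit 35), (nat_lit 7), (nat_lit 8),
 (nat_lit 1), (25, 45, 24), [1006, 2099], 33⟩,
  mz,
  ⟨⟨17, -48, -17, 40, 17, -40, -10, -16, -37⟩, (.cons (nat_lit 1721) (nat_lit 965) (nat_lit 1277) (nat_lit 1)
 (.cons (nat_lit 894) (nat_lit 1313) (nat_lit 256) (nat_lit 1) .nil)), (nat_lit 20), (nat_lit 11), (nat_lit
 18), (nat_lit 1), (6, 39, 2), [728, 1675], 45⟩,
  mz,
  mz,
  mz,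
  ⟨⟨45, -16, -1, -22, -35, 36, 20, -28, -37⟩, (.cons (nat_lit 1209) (nat_lit 965) (nat_lit 381) (nat_lit 1)
 (.cons (nat_lit 994) (nat_lit 1716) (nat_lit 689) (nat_lit 1) .nil)), (nat_lit 31), (nat_lit 19), (nat_lit
 39), (nat_lit 1), (12, 38, 21), [3, 485], 20⟩,
  mz,
  ⟨⟨-39, 8, -17, -2, 45, 16, 12, 12, -49⟩, (.cons (nat_lit 1162) (nat_lit 19) (nat_lit 1274) (nat_lit 1) (.cons
 (nat_lit 914) (nat_lit 1444) (nat_lit 618) (nat_lit 1) .nil)), (nat_lit 41), (nat_lit 50), (nat_lit 23),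
 (nat_lit 1), (14, 20, 21), [446, 958], 29⟩,
  ⟨⟨49, 12, -13, 2, -35, 34, 28, -20, -41⟩, (.cons (nat_lit 1381) (nat_lit 744) (nat_lit 1225) (nat_lit 1)
 (.cons (nat_lit 174) (nat_lit 576) (nat_lit 1819) (nat_lit 1) .nil)), (nat_lit 43), (nat_lit 12), (nat_lit
 14), (nat_lit 1), (17, 17, 3), [175, 1705], 8⟩,
  ⟨⟨-45, 16, 44, -22, -35, -14, -20, 28, -17⟩, (.cons (nat_lit 533) (nat_lit 221) (nat_lit 374) (nat_lit 1)
 (.cons (nat_lit 1571) (nat_lit 299) (nat_lit 225) (nat_lit 1) .nil)), (nat_lit 42), (nat_lit 44), (nat_lit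
 41), (nat_lit 1), (34, 2, 36), [824, 1643], 28⟩]

/-- Moves. -/
noncomputable def t1_6 : List Mv := [
  mz,
  ⟨⟨-25, 12, -36, 22, -35, -36, 20, 28, -37⟩, (.cons (nat_lit 834) (nat_lit 1628) (nat_lit 1475) (nat_lit 1)
 (.cons (nat_lit 206) (nat_lit 375) (nat_lit 1748) (nat_lit 1) .nil)), (nat_lit 26), (nat_lit 38), (nat_lit
 17), (nat_lit 1), (2, 2, 36), [1469, 1430], 43⟩,
  ⟨⟨21, -32, -49, 2, 35, -36, -28, -20, -13⟩, (.cons (nat_lit 369) (nat_lit 781) (nat_lit 1627) (nat_lit 1)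
 (.cons (nat_lit 578) (nat_lit 370) (nat_lit 1159) (nat_lit 1) .nil)), (nat_lit 38), (nat_lit 51), (nat_lit
 46), (nat_lit 1), (33, 30, 3), [736, 1915], 38⟩,
  ⟨⟨39, 8, -56, -2, -45, -14, -12, 12, -37⟩, (.cons (nat_lit 118) (nat_lit 45) (nat_lit 568) (nat_lit 1) (.cons
 (nat_lit 1190) (nat_lit 1050) (nat_lit 1824) (nat_lit 1) .nil)), (nat_lit 17), (nat_lit 25), (nat_lit 18),
 (nat_lit 1), (14, 27, 21), [529, 1193], 1⟩,
  mz,
  ⟨⟨-45, -16, 44, -22, 35, -14, -20, -28, -17⟩, (.cons (nat_lit 700) (nat_lit 1550) (nat_lit 1206) (nat_lit 1)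
 (.cons (nat_lit 823) (nat_lit 911) (nat_lit 1116) (nat_lit 1) .nil)), (nat_lit 25), (nat_lit 34), (nat_lit
 12), (nat_lit 1), (12, 9, 21), [1451, 287], 19⟩,
  mz,
  mz,
  mz,
  ⟨⟨-17, -48, 0, 40, -17, 0, 10, -16, -47⟩, (.cons (nat_lit 757) (nat_lit 1550) (nat_lit 224) (nat_lit 1)
 (.cons (nat_lit 1728) (nat_lit 1589) (nat_lit 1) (nat_lit 846) .nil)), (nat_lit 50), (nat_lit 21), (nat_lit
 24), (nat_lit 1), (6, 8, 2), [527, 2059], 32⟩,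
  mz,
  ⟨⟨17, 48, -17, -40, 17, 40, -10, 16, -37⟩, (.cons (nat_lit 560) (nat_lit 1183) (nat_lit 1828) (nat_lit 1)
 (.cons (nat_lit 1779) (nat_lit 466) (nat_lit 398) (nat_lit 1) .nil)), (nat_lit 20), (nat_lit 33), (nat_lit 6),
 (nat_lit 1), (25, 2, 24), [513, 342], 45⟩,
  ⟨⟨17, -36, -45, -20, 23, -30, 38, 8, -37⟩, (.cons (nat_lit 28) (nat_lit 13) (nat_lit 149) (nat_lit 1) (.cons
 (nat_lit 570) (nat_lit 1135) (nat_lit 2077) (nat_lit 1) .nil)), (nat_lit 26), (nat_lit 34), (nat_lit 14),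
 (nat_lit 1), (19, 44, 1), [878, 178], 50⟩,
  mz,
  ⟨⟨39, -8, -56, -2, 45, -14, -12, -12, -37⟩, (.cons (nat_lit 1848) (nat_lit 1714) (nat_lit 967) (nat_lit 1)
 (.cons (nat_lit 1795) (nat_lit 516) (nat_lit 2025) (nat_lit 1) .nil)), (nat_lit 52), (nat_lit 43), (nat_lit
 46), (nat_lit 1), (3, 36, 28), [1263, 457], 51⟩,
  ⟨⟨9, 4, -61, 40, 23, -10, 22, -32, -29⟩, (.cons (nat_lit 1181) (nat_lit 475) (nat_lit 443) (nat_lit 1) (.cons
 (nat_lit 892) (nat_lit 661) (nat_lit 1320) (nat_lit 1) .nil)), (nat_lit 13), (nat_lit 23), (nat_lit 25),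
 (nat_lit 1), (18, 33, 44), [363, 927], 33⟩,
  ⟨⟨-9, -4, -52, -40, -23, 30, -22, 32, -7⟩, (.cons (nat_lit 1509) (nat_lit 200) (nat_lit 948) (nat_lit 1)
 (.cons (nat_lit 137) (nat_lit 1193) (nat_lit 580) (nat_lit 1) .nil)), (nat_lit 18), (nat_lit 9), (nat_lit 10),
 (nat_lit 1), (36, 19, 41), [1641, 1823], 8⟩,
  mz,
  ⟨⟨19, 0, -63, 0, 47, 0, 42, 0, -23⟩, (.cons (nat_lit 1119) (nat_lit 1775) (nat_lit 1494) (nat_lit 1) (.cons
 (nat_lit 1403) (nat_lit 1377) (nat_lit 943) (nat_lit 1) .nil)), (nat_lit 29), (nat_lit 38), (nat_lit 40),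
 (nat_lit 1), (16, 0, 23), [1263, 1784], 42⟩,
  ⟨⟨45, -8, -49, -20, -33, -20, 6, 24, -41⟩, (.cons (nat_lit 249) (nat_lit 107) (nat_lit 1002) (nat_lit 1)
 (.cons (nat_lit 2079) (nat_lit 1295) (nat_lit 493) (nat_lit 1) .nil)), (nat_lit 9), (nat_lit 2), (nat_lit 30),
 (nat_lit 1), (29, 8, 7), [76, 2045], 41⟩,
  ⟨⟨17, -36, 28, 20, -23, -50, 38, 8, -1⟩, (.cons (nat_lit 109) (nat_lit 709) (nat_lit 310) (nat_lit 1) (.cons
 (nat_lit 1665) (nat_lit 1449) (nat_lit 1658) (nat_lit 1) .nil)), (nat_lit 46), (nat_lit 41), (nat_lit 39),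
 (nat_lit 1), (2, 30, 10), [1658, 406], 43⟩,
  ⟨⟨21, 32, -49, 2, -35, -36, -28, 20, -13⟩, (.cons (nat_lit 456) (nat_lit 838) (nat_lit 360) (nat_lit 1)
 (.cons (nat_lit 333) (nat_lit 1589) (nat_lit 1486) (nat_lit 1) .nil)), (nat_lit 37), (nat_lit 22), (nat_lit
 18), (nat_lit 1), (30, 23, 7), [265, 500], 34⟩,
  ⟨⟨45, 8, -49, 20, -33, 20, 6, -24, -41⟩, (.cons (nat_lit 922) (nat_lit 1560) (nat_lit 1322) (nat_lit 1)
 (.cons (nat_lit 557) (nat_lit 381) (nat_lit 2009) (nat_lit 1) .nil)), (nat_lit 26), (nat_lit 48), (nat_lit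
 31), (nat_lit 1), (40, 23, 21), [45, 1651], 27⟩,
  mz,
  mz,
  ⟨⟨-45, 8, -4, 20, 33, -40, -6, -24, -35⟩, (.cons (nat_lit 1848) (nat_lit 340) (nat_lit 862) (nat_lit 1)
 (.cons (nat_lit 1084) (nat_lit 431) (nat_lit 1459) (nat_lit 1) .nil)), (nat_lit 52), (nat_lit 48), (nat_lit
 26), (nat_lit 1), (40, 24, 21), [243, 1820], 21⟩,
  ⟨⟨-21, 32, -28, -2, -35, -34, 28, 20, -41⟩, (.cons (nat_lit 1092) (nat_lit 1010) (nat_lit 199) (nat_lit 1)
 (.cons (nat_lit 1274) (nat_lit 140) (nat_lit 1035) (nat_lit 1) .nil)), (nat_lit 26), (nat_lit 40), (nat_lit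
 40), (nat_lit 1), (30, 23, 7), [437, 41], 43⟩,
  ⟨⟨17, 36, -45, -20, -23, -30, 38, -8, -37⟩, (.cons (nat_lit 211) (nat_lit 1386) (nat_lit 347) (nat_lit 1)
 (.cons (nat_lit 404) (nat_lit 600) (nat_lit 653) (nat_lit 1) .nil)), (nat_lit 33), (nat_lit 28), (nat_lit 51),
 (nat_lit 1), (45, 30, 37), [1426, 403], 4⟩,
  ⟨⟨39, 32, -31, 20, -33, -40, -6, 24, -35⟩, (.cons (nat_lit 1109) (nat_lit 624) (nat_lit 159) (nat_lit 1)
 (.cons (nat_lit 2004) (nat_lit 156) (nat_lit 262) (nat_lit 1) .nil)), (nat_lit 51), (nat_lit 43), (nat_lit 9),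
 (nat_lit 1), (25, 8, 7), [377, 894], 2⟩,
  ⟨⟨19, 0, 44, 0, -47, 0, 42, 0, -19⟩, (.cons (nat_lit 1848) (nat_lit 55) (nat_lit 1645) (nat_lit 1) (.cons
 (nat_lit 1626) (nat_lit 16) (nat_lit 1962) (nat_lit 1) .nil)), (nat_lit 52), (nat_lit 26), (nat_lit 18),
 (nat_lit 1), (31, 0, 24), [328, 1160], 5⟩,
  mz,
  ⟨⟨9, -4, -61, 40, -23, -10, 22, 32, -29⟩, (.cons (nat_lit 1415) (nat_lit 372) (nat_lit 729) (nat_lit 1)
 (.cons (nat_lit 1469) (nat_lit 1394) (nat_lit 1785) (nat_lit 1) .nil)), (nat_lit 33), (nat_lit 14), (nat_lit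
 49), (nat_lit 1), (36, 19, 41), [738, 1696], 4⟩,
  ⟨⟨-9, 4, -52, -40, 23, 30, -22, -32, -7⟩, (.cons (nat_lit 1055) (nat_lit 1206) (nat_lit 546) (nat_lit 1)
 (.cons (nat_lit 883) (nat_lit 402) (nat_lit 1168) (nat_lit 1) .nil)), (nat_lit 26), (nat_lit 5), (nat_lit 17),
 (nat_lit 1), (18, 33, 44), [148, 345], 17⟩,
  ⟨⟨51, -4, -32, 2, 45, -16, 12, -12, -49⟩, (.cons (nat_lit 1848) (nat_lit 92) (nat_lit 194) (nat_lit 1) (.cons
 (nat_lit 1770) (nat_lit 69) (nat_lit 122) (nat_lit 1) .nil)), (nat_lit 52), (nat_lit 19), (nat_lit 3),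
 (nat_lit 1), (25, 36, 28), [1306, 21], 23⟩,
  mz,
  ⟨⟨17, 36, 28, -20, -23, 50, 38, -8, -1⟩, (.cons (nat_lit 1176) (nat_lit 1776) (nat_lit 1356) (nat_lit 1)
 (.cons (nat_lit 961) (nat_lit 1130) (nat_lit 196) (nat_lit 1) .nil)), (nat_lit 51), (nat_lit 10), (nat_lit
 34), (nat_lit 1), (28, 3, 46), [154, 381], 38⟩,
  ⟨⟨-17, 48, 0, -40, -17, 0, 10, 16, -47⟩, (.cons (nat_lit 1424) (nat_lit 506) (nat_lit 901) (nat_lit 1) (.cons
 (nat_lit 599) (nat_lit 1807) (nat_lit 312) (nat_lit 1) .nil)), (nat_lit 35), (nat_lit 7), (nat_lit 8),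
 (nat_lit 1), (25, 45, 24), [1006, 2099], 33⟩,
  mz,
  ⟨⟨17, -48, -17, 40, 17, -40, -10, -16, -37⟩, (.cons (nat_lit 1721) (nat_lit 965) (nat_lit 1277) (nat_lit 1)
 (.cons (nat_lit 894) (nat_lit 1313) (nat_lit 256) (nat_lit 1) .nil)), (nat_lit 20), (nat_lit 11), (nat_lit
 18), (nat_lit 1), (6, 39, 2), [728, 1675], 45⟩,
  mz,
  mz,
  mz,
  ⟨⟨-25, -12, -36, -22, -35, 36, 20, -28, -37⟩, (.cons (nat_lit 511) (nat_lit 884) (nat_lit 1542) (nat_lit 1)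
 (.cons (nat_lit 1732) (nat_lit 963) (nat_lit 1300) (nat_lit 1) .nil)), (nat_lit 24), (nat_lit 51), (nat_lit
 7), (nat_lit 1), (9, 38, 21), [1035, 2083], 16⟩,
  mz,
  ⟨⟨51, 4, -32, 2, -45, -16, 12, 12, -49⟩, (.cons (nat_lit 1623) (nat_lit 643) (nat_lit 1797) (nat_lit 1)
 (.cons (nat_lit 1664) (nat_lit 1547) (nat_lit 331) (nat_lit 1) .nil)), (nat_lit 17), (nat_lit 33), (nat_lit
 4), (nat_lit 1), (7, 27, 21), [314, 2095], 1⟩,
  ⟨⟨-21, -32, -28, -2, 35, -34, 28, -20, -41⟩, (.cons (nat_lit 663) (nat_lit 394) (nat_lit 1039) (nat_lit 1)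
 (.cons (nat_lit 1271) (nat_lit 1430) (nat_lit 1918) (nat_lit 1) .nil)), (nat_lit 17), (nat_lit 5), (nat_lit
 8), (nat_lit 1), (33, 30, 3), [220, 2109], 32⟩,
  ⟨⟨25, 12, -61, 22, 35, 14, -20, 28, -17⟩, (.cons (nat_lit 1272) (nat_lit 1771) (nat_lit 182) (nat_lit 1)
 (.cons (nat_lit 409) (nat_lit 39) (nat_lit 391) (nat_lit 1) .nil)), (nat_lit 27), (nat_lit 11), (nat_lit 13),
 (nat_lit 1), (2, 45, 36), [1510, 1586], 46⟩]

/-- Moves. -/
noncomputable def t1_7 : List Mv := [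
  mz,
  ⟨⟨45, 16, -1, 22, -35, -36, 20, 28, -37⟩, (.cons (nat_lit 241) (nat_lit 49) (nat_lit 615) (nat_lit 1) (.cons
 (nat_lit 217) (nat_lit 236) (nat_lit 197) (nat_lit 1) .nil)), (nat_lit 37), (nat_lit 33), (nat_lit 12),
 (nat_lit 1), (34, 2, 36), [222, 114], 34⟩,
  ⟨⟨21, -32, -49, 2, 35, -36, -28, -20, -13⟩, (.cons (nat_lit 369) (nat_lit 781) (nat_lit 1627) (nat_lit 1)
 (.cons (nat_lit 578) (nat_lit 370) (nat_lit 1159) (nat_lit 1) .nil)), (nat_lit 38), (nat_lit 51), (nat_lit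
 46), (nat_lit 1), (33, 30, 3), [736, 1915], 38⟩,
  ⟨⟨39, 8, -56, 2, 45, 14, -12, 12, -37⟩, (.cons (nat_lit 1848) (nat_lit 148) (nat_lit 1134) (nat_lit 1) (.cons
 (nat_lit 1122) (nat_lit 1160) (nat_lit 1126) (nat_lit 1) .nil)), (nat_lit 52), (nat_lit 32), (nat_lit 20),
 (nat_lit 1), (14, 20, 21), [317, 1728], 23⟩,
  mz,
  ⟨⟨-45, -16, 44, -22, 35, -14, -20, -28, -17⟩, (.cons (nat_lit 700) (nat_lit 1550) (nat_lit 1206) (nat_lit 1)
 (.cons (nat_lit 823) (nat_lit 911) (nat_lit 1116) (nat_lit 1) .nil)), (nat_lit 25), (nat_lit 34), (nat_lit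
 12), (nat_lit 1), (12, 9, 21), [1451, 287], 19⟩,
  mz,
  mz,
  mz,
  ⟨⟨27, 32, -47, -40, 17, 0, 10, -16, -47⟩, (.cons (nat_lit 130) (nat_lit 282) (nat_lit 400) (nat_lit 1) (.cons
 (nat_lit 1211) (nat_lit 1316) (nat_lit 278) (nat_lit 1) .nil)), (nat_lit 8), (nat_lit 18), (nat_lit 15),
 (nat_lit 1), (43, 39, 2), [1803, 152], 18⟩,
  mz,
  ⟨⟨17, 48, -17, 40, -17, -40, -10, 16, -37⟩, (.cons (nat_lit 339) (nat_lit 1409) (nat_lit 776) (nat_lit 1)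
 (.cons (nat_lit 1602) (nat_lit 1282) (nat_lit 178) (nat_lit 1) .nil)), (nat_lit 43), (nat_lit 49), (nat_lit
 46), (nat_lit 1), (25, 45, 24), [1350, 933], 16⟩,
  ⟨⟨17, -36, -45, 20, -23, 30, 38, 8, -37⟩, (.cons (nat_lit 290) (nat_lit 1670) (nat_lit 796) (nat_lit 1)
 (.cons (nat_lit 853) (nat_lit 288) (nat_lit 1619) (nat_lit 1) .nil)), (nat_lit 25), (nat_lit 27), (nat_lit
 20), (nat_lit 1), (19, 3, 1), [1492, 1529], 37⟩,
  mz,
  ⟨⟨39, -8, -56, 2, -45, 14, -12, -12, -37⟩, (.cons (nat_lit 1802) (nat_lit 266) (nat_lit 810) (nat_lit 1)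
 (.cons (nat_lit 349) (nat_lit 1415) (nat_lit 132) (nat_lit 1) .nil)), (nat_lit 25), (nat_lit 11), (nat_lit
 27), (nat_lit 1), (3, 11, 28), [1842, 1334], 42⟩,
  ⟨⟨9, 4, -61, -40, -23, 10, 22, -32, -29⟩, (.cons (nat_lit 677) (nat_lit 1610) (nat_lit 655) (nat_lit 1)
 (.cons (nat_lit 291) (nat_lit 249) (nat_lit 1112) (nat_lit 1) .nil)), (nat_lit 25), (nat_lit 19), (nat_lit
 34), (nat_lit 1), (18, 14, 44), [1019, 472], 37⟩,
  ⟨⟨-13, 36, 45, 40, 23, -30, -22, 32, -7⟩, (.cons (nat_lit 1533) (nat_lit 444) (nat_lit 37) (nat_lit 1) (.cons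
 (nat_lit 2015) (nat_lit 1298) (nat_lit 2026) (nat_lit 1) .nil)), (nat_lit 49), (nat_lit 42), (nat_lit 2),
 (nat_lit 1), (5, 28, 41), [706, 977], 51⟩,
  mz,
  ⟨⟨19, 0, -63, 0, -47, 0, 42, 0, -23⟩, (.cons (nat_lit 861) (nat_lit 1716) (nat_lit 1136) (nat_lit 1) (.cons
 (nat_lit 1748) (nat_lit 1366) (nat_lit 963) (nat_lit 1) .nil)), (nat_lit 49), (nat_lit 50), (nat_lit 8),
 (nat_lit 1), (16, 0, 23), [1084, 1564], 14⟩,
  ⟨⟨-39, 32, 8, -20, -33, -20, 6, 24, -41⟩, (.cons (nat_lit 1127) (nat_lit 1699) (nat_lit 830) (nat_lit 1)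
 (.cons (nat_lit 1775) (nat_lit 303) (nat_lit 587) (nat_lit 1) .nil)), (nat_lit 37), (nat_lit 7), (nat_lit 24),
 (nat_lit 1), (25, 8, 7), [1237, 1575], 9⟩,
  ⟨⟨17, -36, 28, 20, -23, -50, 38, 8, -1⟩, (.cons (nat_lit 109) (nat_lit 709) (nat_lit 310) (nat_lit 1) (.cons
 (nat_lit 1665) (nat_lit 1449) (nat_lit 1658) (nat_lit 1) .nil)), (nat_lit 46), (nat_lit 41), (nat_lit 39),
 (nat_lit 1), (2, 30, 10), [1658, 406], 43⟩,
  ⟨⟨-49, -12, 36, 2, -35, -36, -28, 20, -13⟩, (.cons (nat_lit 275) (nat_lit 968) (nat_lit 1220) (nat_lit 1)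
 (.cons (nat_lit 748) (nat_lit 808) (nat_lit 499) (nat_lit 1) .nil)), (nat_lit 42), (nat_lit 31), (nat_lit 24),
 (nat_lit 1), (24, 23, 7), [7, 406], 28⟩,
  ⟨⟨-39, -32, 8, 20, -33, 20, 6, -24, -41⟩, (.cons (nat_lit 1744) (nat_lit 891) (nat_lit 247) (nat_lit 1)
 (.cons (nat_lit 1041) (nat_lit 324) (nat_lit 928) (nat_lit 1) .nil)), (nat_lit 43), (nat_lit 17), (nat_lit
 28), (nat_lit 1), (28, 23, 21), [1550, 1416], 52⟩,
  mz,
  mz,
  ⟨⟨39, -32, -31, -20, -33, 40, -6, -24, -35⟩, (.cons (nat_lit 750) (nat_lit 1106) (nat_lit 1043) (nat_lit 1)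
 (.cons (nat_lit 483) (nat_lit 547) (nat_lit 1099) (nat_lit 1) .nil)), (nat_lit 6), (nat_lit 41), (nat_lit 32),
 (nat_lit 1), (28, 23, 21), [1120, 178], 45⟩,
  ⟨⟨-21, 32, -28, -2, -35, -34, 28, 20, -41⟩, (.cons (nat_lit 1092) (nat_lit 1010) (nat_lit 199) (nat_lit 1)
 (.cons (nat_lit 1274) (nat_lit 140) (nat_lit 1035) (nat_lit 1) .nil)), (nat_lit 26), (nat_lit 40), (nat_lit
 40), (nat_lit 1), (30, 23, 7), [437, 41], 43⟩,
  ⟨⟨17, 36, -45, -20, -23, -30, 38, -8, -37⟩, (.cons (nat_lit 211) (nat_lit 1386) (nat_lit 347) (nat_lit 1)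
 (.cons (nat_lit 404) (nat_lit 600) (nat_lit 653) (nat_lit 1) .nil)), (nat_lit 33), (nat_lit 28), (nat_lit 51),
 (nat_lit 1), (45, 30, 37), [1426, 403], 4⟩,
  ⟨⟨39, 32, -31, -20, 33, 40, -6, 24, -35⟩, (.cons (nat_lit 1506) (nat_lit 1323) (nat_lit 799) (nat_lit 1)
 (.cons (nat_lit 1918) (nat_lit 830) (nat_lit 472) (nat_lit 1) .nil)), (nat_lit 42), (nat_lit 11), (nat_lit
 43), (nat_lit 1), (25, 39, 7), [1318, 1058], 11⟩,
  ⟨⟨23, 0, -63, 0, -47, 0, 42, 0, -19⟩, (.cons (nat_lit 732) (nat_lit 547) (nat_lit 1000) (nat_lit 1) (.cons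
 (nat_lit 207) (nat_lit 2146) (nat_lit 1351) (nat_lit 1) .nil)), (nat_lit 11), (nat_lit 6), (nat_lit 37),
 (nat_lit 1), (40, 0, 24), [1231, 831], 6⟩,
  mz,
  ⟨⟨9, -4, -61, 40, -23, -10, 22, 32, -29⟩, (.cons (nat_lit 1415) (nat_lit 372) (nat_lit 729) (nat_lit 1)
 (.cons (nat_lit 1469) (nat_lit 1394) (nat_lit 1785) (nat_lit 1) .nil)), (nat_lit 33), (nat_lit 14), (nat_lit
 49), (nat_lit 1), (36, 19, 41), [738, 1696], 4⟩,
  ⟨⟨-13, -36, 45, 40, -23, -30, -22, -32, -7⟩, (.cons (nat_lit 333) (nat_lit 712) (nat_lit 936) (nat_lit 1)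
 (.cons (nat_lit 2007) (nat_lit 1130) (nat_lit 43) (nat_lit 1) .nil)), (nat_lit 45), (nat_lit 12), (nat_lit
 37), (nat_lit 1), (26, 14, 44), [1234, 194], 44⟩,
  ⟨⟨51, -4, -32, -2, -45, 16, 12, -12, -49⟩, (.cons (nat_lit 1759) (nat_lit 551) (nat_lit 867) (nat_lit 1)
 (.cons (nat_lit 203) (nat_lit 1335) (nat_lit 1734) (nat_lit 1) .nil)), (nat_lit 25), (nat_lit 23), (nat_lit
 6), (nat_lit 1), (25, 11, 28), [1025, 345], 42⟩,
  mz,
  ⟨⟨17, 36, 28, 20, 23, -50, 38, -8, -1⟩, (.cons (nat_lit 484) (nat_lit 1197) (nat_lit 1569) (nat_lit 1) (.cons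
 (nat_lit 168) (nat_lit 1196) (nat_lit 34) (nat_lit 1) .nil)), (nat_lit 3), (nat_lit 26), (nat_lit 23),
 (nat_lit 1), (28, 44, 46), [400, 734], 34⟩,
  ⟨⟨27, -32, -47, 40, 17, 0, 10, 16, -47⟩, (.cons (nat_lit 1291) (nat_lit 21) (nat_lit 1225) (nat_lit 1) (.cons
 (nat_lit 316) (nat_lit 2207) (nat_lit 738) (nat_lit 1) .nil)), (nat_lit 8), (nat_lit 1), (nat_lit 5), (nat_lit
 1), (46, 2, 24), [169, 417], 18⟩,
  mz,
  ⟨⟨17, -48, -17, 40, 17, -40, -10, -16, -37⟩, (.cons (nat_lit 1721) (nat_lit 965) (nat_lit 1277) (nat_lit 1)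
 (.cons (nat_lit 894) (nat_lit 1313) (nat_lit 256) (nat_lit 1) .nil)), (nat_lit 20), (nat_lit 11), (nat_lit
 18), (nat_lit 1), (6, 39, 2), [728, 1675], 45⟩,
  mz,
  mz,
  mz,
  ⟨⟨45, -16, -1, 22, 35, -36, 20, -28, -37⟩, (.cons (nat_lit 1321) (nat_lit 1808) (nat_lit 471) (nat_lit 1)
 (.cons (nat_lit 630) (nat_lit 554) (nat_lit 296) (nat_lit 1) .nil)), (nat_lit 2), (nat_lit 23), (nat_lit 41),
 (nat_lit 1), (12, 9, 21), [1021, 2097], 25⟩,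
  mz,
  ⟨⟨51, 4, -32, 2, -45, -16, 12, 12, -49⟩, (.cons (nat_lit 1623) (nat_lit 643) (nat_lit 1797) (nat_lit 1)
 (.cons (nat_lit 1664) (nat_lit 1547) (nat_lit 331) (nat_lit 1) .nil)), (nat_lit 17), (nat_lit 33), (nat_lit
 4), (nat_lit 1), (7, 27, 21), [314, 2095], 1⟩,
  ⟨⟨-21, -32, -28, -2, 35, -34, 28, -20, -41⟩, (.cons (nat_lit 663) (nat_lit 394) (nat_lit 1039) (nat_lit 1)
 (.cons (nat_lit 1271) (nat_lit 1430) (nat_lit 1918) (nat_lit 1) .nil)), (nat_lit 17), (nat_lit 5), (nat_lit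
 8), (nat_lit 1), (33, 30, 3), [220, 2109], 32⟩,
  ⟨⟨-45, 16, 44, -22, -35, -14, -20, 28, -17⟩, (.cons (nat_lit 533) (nat_lit 221) (nat_lit 374) (nat_lit 1)
 (.cons (nat_lit 1571) (nat_lit 299) (nat_lit 225) (nat_lit 1) .nil)), (nat_lit 42), (nat_lit 44), (nat_lit
 41), (nat_lit 1), (34, 2, 36), [824, 1643], 28⟩]

/-- Moves. -/
noncomputable def t1_9 : List Mv := [
  mz,
  ⟨⟨45, 16, -1, 22, -35, -36, 20, 28, -37⟩, (.cons (nat_lit 241) (nat_lit 49) (nat_lit 615) (nat_lit 1) (.cons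
 (nat_lit 217) (nat_lit 236) (nat_lit 197) (nat_lit 1) .nil)), (nat_lit 37), (nat_lit 33), (nat_lit 12),
 (nat_lit 1), (34, 2, 36), [222, 114], 34⟩,
  ⟨⟨21, -32, -49, 2, 35, -36, -28, -20, -13⟩, (.cons (nat_lit 369) (nat_lit 781) (nat_lit 1627) (nat_lit 1)
 (.cons (nat_lit 578) (nat_lit 370) (nat_lit 1159) (nat_lit 1) .nil)), (nat_lit 38), (nat_lit 51), (nat_lit
 46), (nat_lit 1), (33, 30, 3), [736, 1915], 38⟩,
  ⟨⟨39, 8, -56, 2, 45, 14, -12, 12, -37⟩, (.cons (nat_lit 1848) (nat_lit 148) (nat_lit 1134) (nat_lit 1) (.cons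
 (nat_lit 1122) (nat_lit 1160) (nat_lit 1126) (nat_lit 1) .nil)), (nat_lit 52), (nat_lit 32), (nat_lit 20),
 (nat_lit 1), (14, 20, 21), [317, 1728], 23⟩,
  mz,
  ⟨⟨25, -12, -61, -22, 35, -14, -20, -28, -17⟩, (.cons (nat_lit 461) (nat_lit 514) (nat_lit 647) (nat_lit 1)
 (.cons (nat_lit 211) (nat_lit 781) (nat_lit 2056) (nat_lit 1) .nil)), (nat_lit 7), (nat_lit 14), (nat_lit 49),
 (nat_lit 1), (9, 9, 21), [1150, 1791], 7⟩,
  mz,
  mz,
  mz,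
  ⟨⟨27, 32, -47, -40, 17, 0, 10, -16, -47⟩, (.cons (nat_lit 130) (nat_lit 282) (nat_lit 400) (nat_lit 1) (.cons
 (nat_lit 1211) (nat_lit 1316) (nat_lit 278) (nat_lit 1) .nil)), (nat_lit 8), (nat_lit 18), (nat_lit 15),
 (nat_lit 1), (43, 39, 2), [1803, 152], 18⟩,
  mz,
  ⟨⟨-27, -32, -20, -40, 17, 40, -10, 16, -37⟩, (.cons (nat_lit 1848) (nat_lit 623) (nat_lit 1140) (nat_lit 1)
 (.cons (nat_lit 1746) (nat_lit 756) (nat_lit 163) (nat_lit 1) .nil)), (nat_lit 52), (nat_lit 38), (nat_lit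
 29), (nat_lit 1), (46, 2, 24), [1459, 13], 46⟩,
  ⟨⟨21, 44, 8, -20, 23, -30, 38, 8, -37⟩, (.cons (nat_lit 144) (nat_lit 460) (nat_lit 1568) (nat_lit 1) (.cons
 (nat_lit 88) (nat_lit 1873) (nat_lit 197) (nat_lit 1) .nil)), (nat_lit 15), (nat_lit 14), (nat_lit 50),
 (nat_lit 1), (29, 44, 1), [1222, 2199], 24⟩,
  mz,
  ⟨⟨39, -8, -56, 2, -45, 14, -12, -12, -37⟩, (.cons (nat_lit 1802) (nat_lit 266) (nat_lit 810) (nat_lit 1)
 (.cons (nat_lit 349) (nat_lit 1415) (nat_lit 132) (nat_lit 1) .nil)), (nat_lit 25), (nat_lit 11), (nat_lit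
 27), (nat_lit 1), (3, 11, 28), [1842, 1334], 42⟩,
  ⟨⟨9, 4, -61, 40, 23, -10, 22, -32, -29⟩, (.cons (nat_lit 1181) (nat_lit 475) (nat_lit 443) (nat_lit 1) (.cons
 (nat_lit 892) (nat_lit 661) (nat_lit 1320) (nat_lit 1) .nil)), (nat_lit 13), (nat_lit 23), (nat_lit 25),
 (nat_lit 1), (18, 33, 44), [363, 927], 33⟩,
  ⟨⟨-13, 36, 45, -40, -23, 30, -22, 32, -7⟩, (.cons (nat_lit 899) (nat_lit 58) (nat_lit 1808) (nat_lit 1)
 (.cons (nat_lit 1931) (nat_lit 499) (nat_lit 909) (nat_lit 1) .nil)), (nat_lit 17), (nat_lit 18), (nat_lit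
 31), (nat_lit 1), (5, 19, 41), [1297, 1024], 40⟩,
  mz,
  ⟨⟨19, 0, -63, 0, -47, 0, 42, 0, -23⟩, (.cons (nat_lit 861) (nat_lit 1716) (nat_lit 1136) (nat_lit 1) (.cons
 (nat_lit 1748) (nat_lit 1366) (nat_lit 963) (nat_lit 1) .nil)), (nat_lit 49), (nat_lit 50), (nat_lit 8),
 (nat_lit 1), (16, 0, 23), [1084, 1564], 14⟩,
  ⟨⟨45, -8, -49, 20, 33, 20, 6, 24, -41⟩, (.cons (nat_lit 345) (nat_lit 268) (nat_lit 1695) (nat_lit 1) (.cons
 (nat_lit 2116) (nat_lit 1643) (nat_lit 1452) (nat_lit 1) .nil)), (nat_lit 24), (nat_lit 1), (nat_lit 28),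
 (nat_lit 1), (29, 39, 7), [243, 9], 29⟩,
  ⟨⟨17, -36, 28, 20, -23, -50, 38, 8, -1⟩, (.cons (nat_lit 109) (nat_lit 709) (nat_lit 310) (nat_lit 1) (.cons
 (nat_lit 1665) (nat_lit 1449) (nat_lit 1658) (nat_lit 1) .nil)), (nat_lit 46), (nat_lit 41), (nat_lit 39),
 (nat_lit 1), (2, 30, 10), [1658, 406], 43⟩,
  ⟨⟨21, 32, -49, 2, -35, -36, -28, 20, -13⟩, (.cons (nat_lit 456) (nat_lit 838) (nat_lit 360) (nat_lit 1)
 (.cons (nat_lit 333) (nat_lit 1589) (nat_lit 1486) (nat_lit 1) .nil)), (nat_lit 37), (nat_lit 22), (nat_lit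
 18), (nat_lit 1), (30, 23, 7), [265, 500], 34⟩,
  ⟨⟨45, 8, -49, 20, -33, 20, 6, -24, -41⟩, (.cons (nat_lit 922) (nat_lit 1560) (nat_lit 1322) (nat_lit 1)
 (.cons (nat_lit 557) (nat_lit 381) (nat_lit 2009) (nat_lit 1) .nil)), (nat_lit 26), (nat_lit 48), (nat_lit
 31), (nat_lit 1), (40, 23, 21), [45, 1651], 27⟩,
  mz,
  mz,
  ⟨⟨-45, 8, -4, -20, -33, 40, -6, -24, -35⟩, (.cons (nat_lit 282) (nat_lit 1345) (nat_lit 1817) (nat_lit 1)
 (.cons (nat_lit 927) (nat_lit 1192) (nat_lit 1428) (nat_lit 1) .nil)), (nat_lit 43), (nat_lit 16), (nat_lit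
 43), (nat_lit 1), (40, 23, 21), [1464, 319], 52⟩,
  ⟨⟨-21, 32, -28, -2, -35, -34, 28, 20, -41⟩, (.cons (nat_lit 1092) (nat_lit 1010) (nat_lit 199) (nat_lit 1)
 (.cons (nat_lit 1274) (nat_lit 140) (nat_lit 1035) (nat_lit 1) .nil)), (nat_lit 26), (nat_lit 40), (nat_lit
 40), (nat_lit 1), (30, 23, 7), [437, 41], 43⟩,
  ⟨⟨21, -44, 8, -20, -23, -30, 38, -8, -37⟩, (.cons (nat_lit 1294) (nat_lit 1366) (nat_lit 1336) (nat_lit 1)
 (.cons (nat_lit 1429) (nat_lit 481) (nat_lit 2204) (nat_lit 1) .nil)), (nat_lit 18), (nat_lit 36), (nat_lit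
 29), (nat_lit 1), (39, 30, 37), [1039, 1625], 8⟩,
  ⟨⟨-45, -8, -4, -20, 33, 40, -6, 24, -35⟩, (.cons (nat_lit 1848) (nat_lit 1429) (nat_lit 1057) (nat_lit 1)
 (.cons (nat_lit 1701) (nat_lit 1332) (nat_lit 378) (nat_lit 1) .nil)), (nat_lit 52), (nat_lit 47), (nat_lit
 32), (nat_lit 1), (29, 39, 7), [1017, 1857], 20⟩,
  ⟨⟨23, 0, -63, 0, -47, 0, 42, 0, -19⟩, (.cons (nat_lit 732) (nat_lit 547) (nat_lit 1000) (nat_lit 1) (.cons
 (nat_lit 207) (nat_lit 2146) (nat_lit 1351) (nat_lit 1) .nil)), (nat_lit 11), (nat_lit 6), (nat_lit 37),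
 (nat_lit 1), (40, 0, 24), [1231, 831], 6⟩,
  mz,
  ⟨⟨9, -4, -61, 40, -23, -10, 22, 32, -29⟩, (.cons (nat_lit 1415) (nat_lit 372) (nat_lit 729) (nat_lit 1)
 (.cons (nat_lit 1469) (nat_lit 1394) (nat_lit 1785) (nat_lit 1) .nil)), (nat_lit 33), (nat_lit 14), (nat_lit
 49), (nat_lit 1), (36, 19, 41), [738, 1696], 4⟩,
  ⟨⟨-13, -36, 45, -40, 23, 30, -22, -32, -7⟩, (.cons (nat_lit 1783) (nat_lit 858) (nat_lit 589) (nat_lit 1)
 (.cons (nat_lit 292) (nat_lit 1196) (nat_lit 369) (nat_lit 1) .nil)), (nat_lit 51), (nat_lit 15), (nat_lit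
 28), (nat_lit 1), (26, 33, 44), [836, 768], 41⟩,
  ⟨⟨51, -4, -32, 2, 45, -16, 12, -12, -49⟩, (.cons (nat_lit 1848) (nat_lit 92) (nat_lit 194) (nat_lit 1) (.cons
 (nat_lit 1770) (nat_lit 69) (nat_lit 122) (nat_lit 1) .nil)), (nat_lit 52), (nat_lit 19), (nat_lit 3),
 (nat_lit 1), (25, 36, 28), [1306, 21], 23⟩,
  mz,
  ⟨⟨17, 36, 28, 20, 23, -50, 38, -8, -1⟩, (.cons (nat_lit 484) (nat_lit 1197) (nat_lit 1569) (nat_lit 1) (.cons
 (nat_lit 168) (nat_lit 1196) (nat_lit 34) (nat_lit 1) .nil)), (nat_lit 3), (nat_lit 26), (nat_lit 23),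
 (nat_lit 1), (28, 44, 46), [400, 734], 34⟩,
  ⟨⟨27, -32, -47, -40, -17, 0, 10, 16, -47⟩, (.cons (nat_lit 1543) (nat_lit 397) (nat_lit 1718) (nat_lit 1)
 (.cons (nat_lit 59) (nat_lit 2000) (nat_lit 1111) (nat_lit 1) .nil)), (nat_lit 32), (nat_lit 2), (nat_lit 30),
 (nat_lit 1), (46, 45, 24), [361, 313], 9⟩,
  mz,
  ⟨⟨-27, 32, -20, -40, -17, 40, -10, -16, -37⟩, (.cons (nat_lit 1316) (nat_lit 256) (nat_lit 335) (nat_lit 1)
 (.cons (nat_lit 1516) (nat_lit 1800) (nat_lit 2193) (nat_lit 1) .nil)), (nat_lit 50), (nat_lit 44), (nat_lit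
 50), (nat_lit 1), (43, 8, 2), [914, 610], 32⟩,
  mz,
  mz,
  mz,
  ⟨⟨45, -16, -1, 22, 35, -36, 20, -28, -37⟩, (.cons (nat_lit 1321) (nat_lit 1808) (nat_lit 471) (nat_lit 1)
 (.cons (nat_lit 630) (nat_lit 554) (nat_lit 296) (nat_lit 1) .nil)), (nat_lit 2), (nat_lit 23), (nat_lit 41),
 (nat_lit 1), (12, 9, 21), [1021, 2097], 25⟩,
  mz,
  ⟨⟨51, 4, -32, 2, -45, -16, 12, 12, -49⟩, (.cons (nat_lit 1623) (nat_lit 643) (nat_lit 1797) (nat_lit 1)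
 (.cons (nat_lit 1664) (nat_lit 1547) (nat_lit 331) (nat_lit 1) .nil)), (nat_lit 17), (nat_lit 33), (nat_lit
 4), (nat_lit 1), (7, 27, 21), [314, 2095], 1⟩,
  ⟨⟨-21, -32, -28, -2, 35, -34, 28, -20, -41⟩, (.cons (nat_lit 663) (nat_lit 394) (nat_lit 1039) (nat_lit 1)
 (.cons (nat_lit 1271) (nat_lit 1430) (nat_lit 1918) (nat_lit 1) .nil)), (nat_lit 17), (nat_lit 5), (nat_lit
 8), (nat_lit 1), (33, 30, 3), [220, 2109], 32⟩,
  ⟨⟨25, 12, -61, -22, -35, -14, -20, 28, -17⟩, (.cons (nat_lit 241) (nat_lit 1456) (nat_lit 1363) (nat_lit 1)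
 (.cons (nat_lit 685) (nat_lit 1440) (nat_lit 601) (nat_lit 1) .nil)), (nat_lit 12), (nat_lit 43), (nat_lit
 25), (nat_lit 1), (2, 2, 36), [222, 1173], 18⟩]

/-- Moves. -/
noncomputable def t1_10 : List Mv := [
  mz,
  ⟨⟨45, 16, -1, 22, -35, -36, 20, 28, -37⟩, (.cons (nat_lit 241) (nat_lit 49) (nat_lit 615) (nat_lit 1) (.cons
 (nat_lit 217) (nat_lit 236) (nat_lit 197) (nat_lit 1) .nil)), (nat_lit 37), (nat_lit 33), (nat_lit 12),
 (nat_lit 1), (34, 2, 36), [222, 114], 34⟩,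
  ⟨⟨-49, 12, 36, -2, -35, 36, -28, -20, -13⟩, (.cons (nat_lit 1328) (nat_lit 1346) (nat_lit 1140) (nat_lit 1)
 (.cons (nat_lit 1674) (nat_lit 1981) (nat_lit 1580) (nat_lit 1) .nil)), (nat_lit 51), (nat_lit 23), (nat_lit
 34), (nat_lit 1), (17, 17, 3), [734, 362], 13⟩,
  ⟨⟨39, 8, -56, 2, 45, 14, -12, 12, -37⟩, (.cons (nat_lit 1848) (nat_lit 148) (nat_lit 1134) (nat_lit 1) (.cons
 (nat_lit 1122) (nat_lit 1160) (nat_lit 1126) (nat_lit 1) .nil)), (nat_lit 52), (nat_lit 32), (nat_lit 20),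
 (nat_lit 1), (14, 20, 21), [317, 1728], 23⟩,
  mz,
  ⟨⟨-45, -16, 44, -22, 35, -14, -20, -28, -17⟩, (.cons (nat_lit 700) (nat_lit 1550) (nat_lit 1206) (nat_lit 1)
 (.cons (nat_lit 823) (nat_lit 911) (nat_lit 1116) (nat_lit 1) .nil)), (nat_lit 25), (nat_lit 34), (nat_lit
 12), (nat_lit 1), (12, 9, 21), [1451, 287], 19⟩,
  mz,
  mz,
  mz,
  ⟨⟨27, 32, -47, -40, 17, 0, 10, -16, -47⟩, (.cons (nat_lit 130) (nat_lit 282) (nat_lit 400) (nat_lit 1) (.cons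
 (nat_lit 1211) (nat_lit 1316) (nat_lit 278) (nat_lit 1) .nil)), (nat_lit 8), (nat_lit 18), (nat_lit 15),
 (nat_lit 1), (43, 39, 2), [1803, 152], 18⟩,
  mz,
  ⟨⟨-27, -32, -20, 40, -17, -40, -10, 16, -37⟩, (.cons (nat_lit 392) (nat_lit 1343) (nat_lit 1808) (nat_lit 1)
 (.cons (nat_lit 1735) (nat_lit 2196) (nat_lit 1071) (nat_lit 1) .nil)), (nat_lit 35), (nat_lit 50), (nat_lit
 52), (nat_lit 1), (46, 45, 24), [705, 2014], 33⟩,
  ⟨⟨17, -36, -45, -20, 23, -30, 38, 8, -37⟩, (.cons (nat_lit 28) (nat_lit 13) (nat_lit 149) (nat_lit 1) (.cons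
 (nat_lit 570) (nat_lit 1135) (nat_lit 2077) (nat_lit 1) .nil)), (nat_lit 26), (nat_lit 34), (nat_lit 14),
 (nat_lit 1), (19, 44, 1), [878, 178], 50⟩,
  mz,
  ⟨⟨39, -8, -56, -2, 45, -14, -12, -12, -37⟩, (.cons (nat_lit 1848) (nat_lit 1714) (nat_lit 967) (nat_lit 1)
 (.cons (nat_lit 1795) (nat_lit 516) (nat_lit 2025) (nat_lit 1) .nil)), (nat_lit 52), (nat_lit 43), (nat_lit
 46), (nat_lit 1), (3, 36, 28), [1263, 457], 51⟩,
  ⟨⟨9, 4, -61, 40, 23, -10, 22, -32, -29⟩, (.cons (nat_lit 1181) (nat_lit 475) (nat_lit 443) (nat_lit 1) (.cons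
 (nat_lit 892) (nat_lit 661) (nat_lit 1320) (nat_lit 1) .nil)), (nat_lit 13), (nat_lit 23), (nat_lit 25),
 (nat_lit 1), (18, 33, 44), [363, 927], 33⟩,
  ⟨⟨-13, 36, 45, -40, -23, 30, -22, 32, -7⟩, (.cons (nat_lit 899) (nat_lit 58) (nat_lit 1808) (nat_lit 1)
 (.cons (nat_lit 1931) (nat_lit 499) (nat_lit 909) (nat_lit 1) .nil)), (nat_lit 17), (nat_lit 18), (nat_lit
 31), (nat_lit 1), (5, 19, 41), [1297, 1024], 40⟩,
  mz,
  ⟨⟨19, 0, -63, 0, -47, 0, 42, 0, -23⟩, (.cons (nat_lit 861) (nat_lit 1716) (nat_lit 1136) (nat_lit 1) (.cons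
 (nat_lit 1748) (nat_lit 1366) (nat_lit 963) (nat_lit 1) .nil)), (nat_lit 49), (nat_lit 50), (nat_lit 8),
 (nat_lit 1), (16, 0, 23), [1084, 1564], 14⟩,
  ⟨⟨45, -8, -49, 20, 33, 20, 6, 24, -41⟩, (.cons (nat_lit 345) (nat_lit 268) (nat_lit 1695) (nat_lit 1) (.cons
 (nat_lit 2116) (nat_lit 1643) (nat_lit 1452) (nat_lit 1) .nil)), (nat_lit 24), (nat_lit 1), (nat_lit 28),
 (nat_lit 1), (29, 39, 7), [243, 9], 29⟩,
  ⟨⟨21, 44, -29, 20, -23, -50, 38, 8, -1⟩, (.cons (nat_lit 407) (nat_lit 1097) (nat_lit 353) (nat_lit 1) (.cons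
 (nat_lit 262) (nat_lit 2170) (nat_lit 671) (nat_lit 1) .nil)), (nat_lit 51), (nat_lit 16), (nat_lit 13),
 (nat_lit 1), (8, 30, 10), [1830, 77], 12⟩,
  ⟨⟨-49, -12, 36, 2, -35, -36, -28, 20, -13⟩, (.cons (nat_lit 275) (nat_lit 968) (nat_lit 1220) (nat_lit 1)
 (.cons (nat_lit 748) (nat_lit 808) (nat_lit 499) (nat_lit 1) .nil)), (nat_lit 42), (nat_lit 31), (nat_lit 24),
 (nat_lit 1), (24, 23, 7), [7, 406], 28⟩,
  ⟨⟨-39, -32, 8, -20, 33, -20, 6, -24, -41⟩, (.cons (nat_lit 1848) (nat_lit 1122) (nat_lit 1073) (nat_lit 1)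
 (.cons (nat_lit 1868) (nat_lit 2069) (nat_lit 1794) (nat_lit 1) .nil)), (nat_lit 52), (nat_lit 41), (nat_lit
 16), (nat_lit 1), (28, 24, 21), [1318, 1202], 20⟩,
  mz,
  mz,
  ⟨⟨-45, 8, -4, 20, 33, -40, -6, -24, -35⟩, (.cons (nat_lit 1848) (nat_lit 340) (nat_lit 862) (nat_lit 1)
 (.cons (nat_lit 1084) (nat_lit 431) (nat_lit 1459) (nat_lit 1) .nil)), (nat_lit 52), (nat_lit 48), (nat_lit
 26), (nat_lit 1), (40, 24, 21), [243, 1820], 21⟩,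
  ⟨⟨49, -12, -13, 2, 35, 34, 28, 20, -41⟩, (.cons (nat_lit 74) (nat_lit 1065) (nat_lit 1514) (nat_lit 1) (.cons
 (nat_lit 747) (nat_lit 1170) (nat_lit 2110) (nat_lit 1) .nil)), (nat_lit 7), (nat_lit 28), (nat_lit 51),
 (nat_lit 1), (24, 24, 7), [376, 500], 7⟩,
  ⟨⟨17, 36, -45, -20, -23, -30, 38, -8, -37⟩, (.cons (nat_lit 211) (nat_lit 1386) (nat_lit 347) (nat_lit 1)
 (.cons (nat_lit 404) (nat_lit 600) (nat_lit 653) (nat_lit 1) .nil)), (nat_lit 33), (nat_lit 28), (nat_lit 51),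
 (nat_lit 1), (45, 30, 37), [1426, 403], 4⟩,
  ⟨⟨-45, -8, -4, 20, -33, -40, -6, 24, -35⟩, (.cons (nat_lit 1213) (nat_lit 1182) (nat_lit 1836) (nat_lit 1)
 (.cons (nat_lit 1239) (nat_lit 596) (nat_lit 450) (nat_lit 1) .nil)), (nat_lit 37), (nat_lit 44), (nat_lit
 52), (nat_lit 1), (29, 8, 7), [1065, 1881], 9⟩,
  ⟨⟨19, 0, 44, 0, -47, 0, 42, 0, -19⟩, (.cons (nat_lit 1848) (nat_lit 55) (nat_lit 1645) (nat_lit 1) (.cons
 (nat_lit 1626) (nat_lit 16) (nat_lit 1962) (nat_lit 1) .nil)), (nat_lit 52), (nat_lit 26), (nat_lit 18),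
 (nat_lit 1), (31, 0, 24), [328, 1160], 5⟩,
  mz,
  ⟨⟨9, -4, -61, -40, 23, 10, 22, 32, -29⟩, (.cons (nat_lit 845) (nat_lit 1233) (nat_lit 1253) (nat_lit 1)
 (.cons (nat_lit 361) (nat_lit 1237) (nat_lit 105) (nat_lit 1) .nil)), (nat_lit 26), (nat_lit 8), (nat_lit 33),
 (nat_lit 1), (36, 28, 41), [362, 807], 50⟩,
  ⟨⟨-13, -36, 45, 40, -23, -30, -22, -32, -7⟩, (.cons (nat_lit 333) (nat_lit 712) (nat_lit 936) (nat_lit 1)
 (.cons (nat_lit 2007) (nat_lit 1130) (nat_lit 43) (nat_lit 1) .nil)), (nat_lit 45), (nat_lit 12), (nat_lit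
 37), (nat_lit 1), (26, 14, 44), [1234, 194], 44⟩,
  ⟨⟨51, -4, -32, 2, 45, -16, 12, -12, -49⟩, (.cons (nat_lit 1848) (nat_lit 92) (nat_lit 194) (nat_lit 1) (.cons
 (nat_lit 1770) (nat_lit 69) (nat_lit 122) (nat_lit 1) .nil)), (nat_lit 52), (nat_lit 19), (nat_lit 3),
 (nat_lit 1), (25, 36, 28), [1306, 21], 23⟩,
  mz,
  ⟨⟨17, 36, 28, 20, 23, -50, 38, -8, -1⟩, (.cons (nat_lit 484) (nat_lit 1197) (nat_lit 1569) (nat_lit 1) (.cons
 (nat_lit 168) (nat_lit 1196) (nat_lit 34) (nat_lit 1) .nil)), (nat_lit 3), (nat_lit 26), (nat_lit 23),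
 (nat_lit 1), (28, 44, 46), [400, 734], 34⟩,
  ⟨⟨27, -32, -47, -40, -17, 0, 10, 16, -47⟩, (.cons (nat_lit 1543) (nat_lit 397) (nat_lit 1718) (nat_lit 1)
 (.cons (nat_lit 59) (nat_lit 2000) (nat_lit 1111) (nat_lit 1) .nil)), (nat_lit 32), (nat_lit 2), (nat_lit 30),
 (nat_lit 1), (46, 45, 24), [361, 313], 9⟩,
  mz,
  ⟨⟨17, -48, -17, 40, 17, -40, -10, -16, -37⟩, (.cons (nat_lit 1721) (nat_lit 965) (nat_lit 1277) (nat_lit 1)
 (.cons (nat_lit 894) (nat_lit 1313) (nat_lit 256) (nat_lit 1) .nil)), (nat_lit 20), (nat_lit 11), (nat_lit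
 18), (nat_lit 1), (6, 39, 2), [728, 1675], 45⟩,
  mz,
  mz,
  mz,
  ⟨⟨-25, -12, -36, -22, -35, 36, 20, -28, -37⟩, (.cons (nat_lit 511) (nat_lit 884) (nat_lit 1542) (nat_lit 1)
 (.cons (nat_lit 1732) (nat_lit 963) (nat_lit 1300) (nat_lit 1) .nil)), (nat_lit 24), (nat_lit 51), (nat_lit
 7), (nat_lit 1), (9, 38, 21), [1035, 2083], 16⟩,
  mz,
  ⟨⟨51, 4, -32, 2, -45, -16, 12, 12, -49⟩, (.cons (nat_lit 1623) (nat_lit 643) (nat_lit 1797) (nat_lit 1)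
 (.cons (nat_lit 1664) (nat_lit 1547) (nat_lit 331) (nat_lit 1) .nil)), (nat_lit 17), (nat_lit 33), (nat_lit
 4), (nat_lit 1), (7, 27, 21), [314, 2095], 1⟩,
  ⟨⟨49, 12, -13, -2, 35, -34, 28, -20, -41⟩, (.cons (nat_lit 928) (nat_lit 1068) (nat_lit 1125) (nat_lit 1)
 (.cons (nat_lit 233) (nat_lit 1296) (nat_lit 790) (nat_lit 1) .nil)), (nat_lit 27), (nat_lit 15), (nat_lit 6),
 (nat_lit 1), (17, 30, 3), [951, 840], 46⟩,
  ⟨⟨-45, 16, 44, -22, -35, -14, -20, 28, -17⟩, (.cons (nat_lit 533) (nat_lit 221) (nat_lit 374) (nat_lit 1)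
 (.cons (nat_lit 1571) (nat_lit 299) (nat_lit 225) (nat_lit 1) .nil)), (nat_lit 42), (nat_lit 44), (nat_lit
 41), (nat_lit 1), (34, 2, 36), [824, 1643], 28⟩]

/-- Moves. -/
noncomputable def t1_17 : List Mv := [
  mz,
  ⟨⟨45, 16, -1, -22, 35, 36, 20, 28, -37⟩, (.cons (nat_lit 25) (nat_lit 1110) (nat_lit 979) (nat_lit 1) (.cons
 (nat_lit 472) (nat_lit 2204) (nat_lit 1486) (nat_lit 1) .nil)), (nat_lit 38), (nat_lit 49), (nat_lit 23),
 (nat_lit 1), (34, 45, 36), [177, 934], 38⟩,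
  ⟨⟨-49, 12, 36, -2, -35, 36, -28, -20, -13⟩, (.cons (nat_lit 1328) (nat_lit 1346) (nat_lit 1140) (nat_lit 1)
 (.cons (nat_lit 1674) (nat_lit 1981) (nat_lit 1580) (nat_lit 1) .nil)), (nat_lit 51), (nat_lit 23), (nat_lit
 34), (nat_lit 1), (17, 17, 3), [734, 362], 13⟩,
  ⟨⟨-51, 4, 19, -2, -45, -14, -12, 12, -37⟩, (.cons (nat_lit 785) (nat_lit 170) (nat_lit 52) (nat_lit 1) (.cons
 (nat_lit 361) (nat_lit 1112) (nat_lit 790) (nat_lit 1) .nil)), (nat_lit 11), (nat_lit 35), (nat_lit 48),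
 (nat_lit 1), (7, 27, 21), [1389, 1146], 3⟩,
  mz,
  ⟨⟨-45, -16, 44, -22, 35, -14, -20, -28, -17⟩, (.cons (nat_lit 700) (nat_lit 1550) (nat_lit 1206) (nat_lit 1)
 (.cons (nat_lit 823) (nat_lit 911) (nat_lit 1116) (nat_lit 1) .nil)), (nat_lit 25), (nat_lit 34), (nat_lit
 12), (nat_lit 1), (12, 9, 21), [1451, 287], 19⟩,
  mz,
  mz,
  mz,
  ⟨⟨-17, -48, 0, 40, -17, 0, 10, -16, -47⟩, (.cons (nat_lit 757) (nat_lit 1550) (nat_lit 224) (nat_lit 1)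
 (.cons (nat_lit 1728) (nat_lit 1589) (nat_lit 1) (nat_lit 846) .nil)), (nat_lit 50), (nat_lit 21), (nat_lit
 24), (nat_lit 1), (6, 8, 2), [527, 2059], 32⟩,
  mz,
  ⟨⟨17, 48, -17, 40, -17, -40, -10, 16, -37⟩, (.cons (nat_lit 339) (nat_lit 1409) (nat_lit 776) (nat_lit 1)
 (.cons (nat_lit 1602) (nat_lit 1282) (nat_lit 178) (nat_lit 1) .nil)), (nat_lit 43), (nat_lit 49), (nat_lit
 46), (nat_lit 1), (25, 45, 24), [1350, 933], 16⟩,
  ⟨⟨17, -36, -45, -20, 23, -30, 38, 8, -37⟩, (.cons (nat_lit 28) (nat_lit 13) (nat_lit 149) (nat_lit 1) (.cons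
 (nat_lit 570) (nat_lit 1135) (nat_lit 2077) (nat_lit 1) .nil)), (nat_lit 26), (nat_lit 34), (nat_lit 14),
 (nat_lit 1), (19, 44, 1), [878, 178], 50⟩,
  mz,
  ⟨⟨-51, -4, 19, -2, 45, -14, -12, -12, -37⟩, (.cons (nat_lit 259) (nat_lit 1812) (nat_lit 322) (nat_lit 1)
 (.cons (nat_lit 414) (nat_lit 95) (nat_lit 51) (nat_lit 1) .nil)), (nat_lit 22), (nat_lit 44), (nat_lit 36),
 (nat_lit 1), (25, 36, 28), [790, 2196], 44⟩,
  ⟨⟨13, -36, 32, -40, -23, 10, 22, -32, -29⟩, (.cons (nat_lit 613) (nat_lit 239) (nat_lit 139) (nat_lit 1)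
 (.cons (nat_lit 1166) (nat_lit 1678) (nat_lit 736) (nat_lit 1) .nil)), (nat_lit 3), (nat_lit 51), (nat_lit
 19), (nat_lit 1), (26, 14, 44), [245, 989], 19⟩,
  ⟨⟨-9, -4, -52, 40, 23, -30, -22, 32, -7⟩, (.cons (nat_lit 1391) (nat_lit 1147) (nat_lit 1456) (nat_lit 1)
 (.cons (nat_lit 523) (nat_lit 394) (nat_lit 146) (nat_lit 1) .nil)), (nat_lit 15), (nat_lit 21), (nat_lit 51),
 (nat_lit 1), (36, 28, 41), [792, 1776], 24⟩,
  mz,
  ⟨⟨19, 0, -63, 0, 47, 0, 42, 0, -23⟩, (.cons (nat_lit 1119) (nat_lit 1775) (nat_lit 1494) (nat_lit 1) (.cons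
 (nat_lit 1403) (nat_lit 1377) (nat_lit 943) (nat_lit 1) .nil)), (nat_lit 29), (nat_lit 38), (nat_lit 40),
 (nat_lit 1), (16, 0, 23), [1263, 1784], 42⟩,
  ⟨⟨-39, 32, 8, 20, 33, 20, 6, 24, -41⟩, (.cons (nat_lit 1848) (nat_lit 635) (nat_lit 104) (nat_lit 1) (.cons
 (nat_lit 2020) (nat_lit 1741) (nat_lit 1969) (nat_lit 1) .nil)), (nat_lit 52), (nat_lit 30), (nat_lit 31),
 (nat_lit 1), (25, 39, 7), [544, 150], 21⟩,
  ⟨⟨17, -36, 28, 20, -23, -50, 38, 8, -1⟩, (.cons (nat_lit 109) (nat_lit 709) (nat_lit 310) (nat_lit 1) (.cons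
 (nat_lit 1665) (nat_lit 1449) (nat_lit 1658) (nat_lit 1) .nil)), (nat_lit 46), (nat_lit 41), (nat_lit 39),
 (nat_lit 1), (2, 30, 10), [1658, 406], 43⟩,
  ⟨⟨21, 32, -49, 2, -35, -36, -28, 20, -13⟩, (.cons (nat_lit 456) (nat_lit 838) (nat_lit 360) (nat_lit 1)
 (.cons (nat_lit 333) (nat_lit 1589) (nat_lit 1486) (nat_lit 1) .nil)), (nat_lit 37), (nat_lit 22), (nat_lit
 18), (nat_lit 1), (30, 23, 7), [265, 500], 34⟩,
  ⟨⟨-39, -32, 8, -20, 33, -20, 6, -24, -41⟩, (.cons (nat_lit 1848) (nat_lit 1122) (nat_lit 1073) (nat_lit 1)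
 (.cons (nat_lit 1868) (nat_lit 2069) (nat_lit 1794) (nat_lit 1) .nil)), (nat_lit 52), (nat_lit 41), (nat_lit
 16), (nat_lit 1), (28, 24, 21), [1318, 1202], 20⟩,
  mz,
  mz,
  ⟨⟨39, -32, -31, -20, -33, 40, -6, -24, -35⟩, (.cons (nat_lit 750) (nat_lit 1106) (nat_lit 1043) (nat_lit 1)
 (.cons (nat_lit 483) (nat_lit 547) (nat_lit 1099) (nat_lit 1) .nil)), (nat_lit 6), (nat_lit 41), (nat_lit 32),
 (nat_lit 1), (28, 23, 21), [1120, 178], 45⟩,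
  ⟨⟨49, -12, -13, -2, -35, -34, 28, 20, -41⟩, (.cons (nat_lit 26) (nat_lit 796) (nat_lit 1188) (nat_lit 1)
 (.cons (nat_lit 418) (nat_lit 471) (nat_lit 2163) (nat_lit 1) .nil)), (nat_lit 12), (nat_lit 37), (nat_lit 9),
 (nat_lit 1), (24, 23, 7), [179, 2203], 18⟩,
  ⟨⟨17, 36, -45, -20, -23, -30, 38, -8, -37⟩, (.cons (nat_lit 211) (nat_lit 1386) (nat_lit 347) (nat_lit 1)
 (.cons (nat_lit 404) (nat_lit 600) (nat_lit 653) (nat_lit 1) .nil)), (nat_lit 33), (nat_lit 28), (nat_lit 51),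
 (nat_lit 1), (45, 30, 37), [1426, 403], 4⟩,
  ⟨⟨39, 32, -31, 20, -33, -40, -6, 24, -35⟩, (.cons (nat_lit 1109) (nat_lit 624) (nat_lit 159) (nat_lit 1)
 (.cons (nat_lit 2004) (nat_lit 156) (nat_lit 262) (nat_lit 1) .nil)), (nat_lit 51), (nat_lit 43), (nat_lit 9),
 (nat_lit 1), (25, 8, 7), [377, 894], 2⟩,
  ⟨⟨19, 0, 44, 0, -47, 0, 42, 0, -19⟩, (.cons (nat_lit 1848) (nat_lit 55) (nat_lit 1645) (nat_lit 1) (.cons
 (nat_lit 1626) (nat_lit 16) (nat_lit 1962) (nat_lit 1) .nil)), (nat_lit 52), (nat_lit 26), (nat_lit 18),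
 (nat_lit 1), (31, 0, 24), [328, 1160], 5⟩,
  mz,
  ⟨⟨13, 36, 32, 40, -23, -10, 22, 32, -29⟩, (.cons (nat_lit 1724) (nat_lit 1735) (nat_lit 1718) (nat_lit 1)
 (.cons (nat_lit 1774) (nat_lit 768) (nat_lit 1033) (nat_lit 1) .nil)), (nat_lit 9), (nat_lit 34), (nat_lit
 43), (nat_lit 1), (5, 19, 41), [394, 1461], 26⟩,
  ⟨⟨-13, -36, 45, 40, -23, -30, -22, -32, -7⟩, (.cons (nat_lit 333) (nat_lit 712) (nat_lit 936) (nat_lit 1)
 (.cons (nat_lit 2007) (nat_lit 1130) (nat_lit 43) (nat_lit 1) .nil)), (nat_lit 45), (nat_lit 12), (nat_lit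
 37), (nat_lit 1), (26, 14, 44), [1234, 194], 44⟩,
  ⟨⟨-39, -8, -17, 2, 45, -16, 12, -12, -49⟩, (.cons (nat_lit 1592) (nat_lit 1585) (nat_lit 1398) (nat_lit 1)
 (.cons (nat_lit 1332) (nat_lit 777) (nat_lit 592) (nat_lit 1) .nil)), (nat_lit 41), (nat_lit 51), (nat_lit 8),
 (nat_lit 1), (3, 36, 28), [1779, 820], 29⟩,
  mz,
  ⟨⟨17, 36, 28, 20, 23, -50, 38, -8, -1⟩, (.cons (nat_lit 484) (nat_lit 1197) (nat_lit 1569) (nat_lit 1) (.cons
 (nat_lit 168) (nat_lit 1196) (nat_lit 34) (nat_lit 1) .nil)), (nat_lit 3), (nat_lit 26), (nat_lit 23),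
 (nat_lit 1), (28, 44, 46), [400, 734], 34⟩,
  ⟨⟨27, -32, -47, -40, -17, 0, 10, 16, -47⟩, (.cons (nat_lit 1543) (nat_lit 397) (nat_lit 1718) (nat_lit 1)
 (.cons (nat_lit 59) (nat_lit 2000) (nat_lit 1111) (nat_lit 1) .nil)), (nat_lit 32), (nat_lit 2), (nat_lit 30),
 (nat_lit 1), (46, 45, 24), [361, 313], 9⟩,
  mz,
  ⟨⟨17, -48, -17, 40, 17, -40, -10, -16, -37⟩, (.cons (nat_lit 1721) (nat_lit 965) (nat_lit 1277) (nat_lit 1)
 (.cons (nat_lit 894) (nat_lit 1313) (nat_lit 256) (nat_lit 1) .nil)), (nat_lit 20), (nat_lit 11), (nat_lit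
 18), (nat_lit 1), (6, 39, 2), [728, 1675], 45⟩,
  mz,
  mz,
  mz,
  ⟨⟨45, -16, -1, 22, 35, -36, 20, -28, -37⟩, (.cons (nat_lit 1321) (nat_lit 1808) (nat_lit 471) (nat_lit 1)
 (.cons (nat_lit 630) (nat_lit 554) (nat_lit 296) (nat_lit 1) .nil)), (nat_lit 2), (nat_lit 23), (nat_lit 41),
 (nat_lit 1), (12, 9, 21), [1021, 2097], 25⟩,
  mz,
  ⟨⟨51, 4, -32, 2, -45, -16, 12, 12, -49⟩, (.cons (nat_lit 1623) (nat_lit 643) (nat_lit 1797) (nat_lit 1)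
 (.cons (nat_lit 1664) (nat_lit 1547) (nat_lit 331) (nat_lit 1) .nil)), (nat_lit 17), (nat_lit 33), (nat_lit
 4), (nat_lit 1), (7, 27, 21), [314, 2095], 1⟩,
  ⟨⟨49, 12, -13, 2, -35, 34, 28, -20, -41⟩, (.cons (nat_lit 1381) (nat_lit 744) (nat_lit 1225) (nat_lit 1)
 (.cons (nat_lit 174) (nat_lit 576) (nat_lit 1819) (nat_lit 1) .nil)), (nat_lit 43), (nat_lit 12), (nat_lit
 14), (nat_lit 1), (17, 17, 3), [175, 1705], 8⟩,
  ⟨⟨-45, 16, 44, -22, -35, -14, -20, 28, -17⟩, (.cons (nat_lit 533) (nat_lit 221) (nat_lit 374) (nat_lit 1)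
 (.cons (nat_lit 1571) (nat_lit 299) (nat_lit 225) (nat_lit 1) .nil)), (nat_lit 42), (nat_lit 44), (nat_lit
 41), (nat_lit 1), (34, 2, 36), [824, 1643], 28⟩]

/-- Moves. -/
noncomputable def t4_1 : List Mv := [
  mz,
  mz,
  mz,
  mz,
  ⟨⟨51, 20, -47, 10, -47, -30, -2, 20, -47⟩, (.cons (nat_lit 1385) (nat_lit 564) (nat_lit 1805) (nat_lit 1)
 (.cons (nat_lit 121) (nat_lit 1189) (nat_lit 1520) (nat_lit 1) .nil)), (nat_lit 15), (nat_lit 0), (nat_lit 0),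
 (nat_lit 0), (24, 39, 24), [54, 604], 0⟩,
  ⟨⟨-53, 0, 0, -10, -47, 30, -2, -20, -47⟩, (.cons (nat_lit 19) (nat_lit 998) (nat_lit 1395) (nat_lit 1) (.cons
 (nat_lit 463) (nat_lit 701) (nat_lit 112) (nat_lit 1) .nil)), (nat_lit 4), (nat_lit 0), (nat_lit 0), (nat_lit
 0), (0, 7, 12), [1778, 1349], 0⟩,
  ⟨⟨15, 56, -11, -28, 5, -36, 40, 8, -47⟩, (.cons (nat_lit 870) (nat_lit 614) (nat_lit 1101) (nat_lit 1) (.cons
 (nat_lit 1494) (nat_lit 899) (nat_lit 1554) (nat_lit 1) .nil)), (nat_lit 28), (nat_lit 0), (nat_lit 0),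
 (nat_lit 0), (1, 37, 38), [784, 309], 0⟩,
  mz,
  mz,
  ⟨⟨-33, -20, -32, 8, 45, -34, 24, -24, -49⟩, (.cons (nat_lit 904) (nat_lit 109) (nat_lit 85) (nat_lit 1)
 (.cons (nat_lit 283) (nat_lit 1972) (nat_lit 1704) (nat_lit 1) .nil)), (nat_lit 18), (nat_lit 0), (nat_lit 0),
 (nat_lit 0), (35, 14, 42), [627, 479], 0⟩,
  ⟨⟨-15, -56, 4, -28, 5, 64, -40, -8, -7⟩, (.cons (nat_lit 632) (nat_lit 374) (nat_lit 1476) (nat_lit 1) (.cons
 (nat_lit 597) (nat_lit 1012) (nat_lit 1831) (nat_lit 1) .nil)), (nat_lit 37), (nat_lit 0), (nat_lit 0),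
 (nat_lit 0), (10, 1, 9), [1518, 921], 0⟩,
  ⟨⟨15, -32, 44, -50, -17, 30, 14, -44, -19⟩, (.cons (nat_lit 27) (nat_lit 415) (nat_lit 1015) (nat_lit 1)
 (.cons (nat_lit 905) (nat_lit 280) (nat_lit 1906) (nat_lit 1) .nil)), (nat_lit 17), (nat_lit 0), (nat_lit 0),
 (nat_lit 0), (29, 27, 20), [1332, 572], 0⟩,
  ⟨⟨-51, 20, 4, -10, -47, -20, 2, 20, -49⟩, (.cons (nat_lit 980) (nat_lit 91) (nat_lit 1162) (nat_lit 1) (.cons
 (nat_lit 1900) (nat_lit 1800) (nat_lit 924) (nat_lit 1) .nil)), (nat_lit 15), (nat_lit 0), (nat_lit 0),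
 (nat_lit 0), (48, 25, 48), [1688, 369], 0⟩,
  mz,
  mz,
  ⟨⟨-51, -20, 4, -10, 47, -20, 2, -20, -49⟩, (.cons (nat_lit 1848) (nat_lit 1840) (nat_lit 146) (nat_lit 1)
 (.cons (nat_lit 2208) (nat_lit 1538) (nat_lit 386) (nat_lit 1) .nil)), (nat_lit 15), (nat_lit 0), (nat_lit 0),
 (nat_lit 0), (36, 32, 36), [1176, 539], 0⟩,
  ⟨⟨15, 52, 16, 10, 17, -60, 46, 4, -11⟩, (.cons (nat_lit 1833) (nat_lit 601) (nat_lit 519) (nat_lit 1) (.cons
 (nat_lit 1187) (nat_lit 1139) (nat_lit 1495) (nat_lit 1) .nil)), (nat_lit 44), (nat_lit 0), (nat_lit 0),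
 (nat_lit 0), (24, 16, 10), [646, 1120], 0⟩,
  ⟨⟨31, -48, -4, -10, -17, -50, 46, 4, -35⟩, (.cons (nat_lit 137) (nat_lit 464) (nat_lit 1469) (nat_lit 1)
 (.cons (nat_lit 991) (nat_lit 854) (nat_lit 2058) (nat_lit 1) .nil)), (nat_lit 11), (nat_lit 0), (nat_lit 0),
 (nat_lit 0), (18, 13, 25), [1828, 1632], 0⟩,
  ⟨⟨-57, -4, 40, -8, 45, -26, -24, -24, -25⟩, (.cons (nat_lit 947) (nat_lit 321) (nat_lit 861) (nat_lit 1)
 (.cons (nat_lit 1928) (nat_lit 1882) (nat_lit 1680) (nat_lit 1) .nil)), (nat_lit 9), (nat_lit 0), (nat_lit 0),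
 (nat_lit 0), (12, 24, 19), [1702, 2030], 0⟩,
  mz,
  mz,
  ⟨⟨-33, 20, -32, 8, -45, -34, 24, 24, -49⟩, (.cons (nat_lit 1759) (nat_lit 128) (nat_lit 671) (nat_lit 1)
 (.cons (nat_lit 1045) (nat_lit 1179) (nat_lit 1052) (nat_lit 1) .nil)), (nat_lit 18), (nat_lit 0), (nat_lit
 0), (nat_lit 0), (47, 40, 14), [898, 742], 0⟩,
  ⟨⟨-45, -28, -4, 28, -45, -14, 0, 0, -53⟩, (.cons (nat_lit 732) (nat_lit 409) (nat_lit 1561) (nat_lit 1)
 (.cons (nat_lit 330) (nat_lit 831) (nat_lit 608) (nat_lit 1) .nil)), (nat_lit 31), (nat_lit 0), (nat_lit 0),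
 (nat_lit 0), (29, 22, 0), [1130, 828], 0⟩,
  mz,
  ⟨⟨-13, 48, -27, 30, -17, -60, 30, 36, -7⟩, (.cons (nat_lit 1267) (nat_lit 211) (nat_lit 491) (nat_lit 1)
 (.cons (nat_lit 217) (nat_lit 1623) (nat_lit 277) (nat_lit 1) .nil)), (nat_lit 29), (nat_lit 0), (nat_lit 0),
 (nat_lit 0), (11, 48, 48), [585, 533], 0⟩,
  mz,
  ⟨⟨-25, -48, -11, 28, 5, -64, -40, 8, -7⟩, (.cons (nat_lit 870) (nat_lit 1407) (nat_lit 1608) (nat_lit 1)
 (.cons (nat_lit 977) (nat_lit 464) (nat_lit 1078) (nat_lit 1) .nil)), (nat_lit 36), (nat_lit 0), (nat_lit 0),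
 (nat_lit 0), (2, 2, 35), [784, 1202], 0⟩,
  mz,
  ⟨⟨-1, -48, 37, 52, 5, -16, 8, -40, -31⟩, (.cons (nat_lit 916) (nat_lit 1521) (nat_lit 1038) (nat_lit 1)
 (.cons (nat_lit 1001) (nat_lit 1373) (nat_lit 1791) (nat_lit 1) .nil)), (nat_lit 6), (nat_lit 0), (nat_lit 0),
 (nat_lit 0), (29, 29, 33), [1174, 451], 0⟩,
  ⟨⟨43, -12, -63, -30, 17, -30, 30, 36, -23⟩, (.cons (nat_lit 1490) (nat_lit 1789) (nat_lit 614) (nat_lit 1)
 (.cons (nat_lit 906) (nat_lit 756) (nat_lit 864) (nat_lit 1) .nil)), (nat_lit 24), (nat_lit 0), (nat_lit 0),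
 (nat_lit 0), (16, 48, 5), [1288, 116], 0⟩,
  mz,
  ⟨⟨45, -28, -49, 28, 45, -14, 0, 0, -53⟩, (.cons (nat_lit 173) (nat_lit 1796) (nat_lit 729) (nat_lit 1) (.cons
 (nat_lit 1270) (nat_lit 580) (nat_lit 116) (nat_lit 1) .nil)), (nat_lit 22), (nat_lit 0), (nat_lit 0),
 (nat_lit 0), (39, 49, 0), [1007, 1683], 0⟩,
  mz,
  ⟨⟨-39, 28, -17, 10, -33, -50, 18, 36, -37⟩, (.cons (nat_lit 745) (nat_lit 126) (nat_lit 1196) (nat_lit 1)
 (.cons (nat_lit 1283) (nat_lit 1657) (nat_lit 1652) (nat_lit 1) .nil)), (nat_lit 50), (nat_lit 0), (nat_lit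
 0), (nat_lit 0), (43, 8, 25), [401, 279], 0⟩,
  mz,
  mz,
  ⟨⟨-9, 8, -59, 52, -5, -36, -8, -40, -23⟩, (.cons (nat_lit 154) (nat_lit 949) (nat_lit 706) (nat_lit 1) (.cons
 (nat_lit 1055) (nat_lit 1575) (nat_lit 337) (nat_lit 1) .nil)), (nat_lit 10), (nat_lit 0), (nat_lit 0),
 (nat_lit 0), (2, 12, 43), [1129, 1230], 0⟩,
  ⟨⟨9, -8, -68, -52, 5, 16, 8, 40, -31⟩, (.cons (nat_lit 1495) (nat_lit 1117) (nat_lit 1086) (nat_lit 1) (.cons
 (nat_lit 2172) (nat_lit 2100) (nat_lit 1477) (nat_lit 1) .nil)), (nat_lit 10), (nat_lit 0), (nat_lit 0),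
 (nat_lit 0), (31, 27, 4), [870, 1719], 0⟩,
  ⟨⟨-57, 8, 37, 10, 33, 40, -18, 36, -19⟩, (.cons (nat_lit 345) (nat_lit 758) (nat_lit 1008) (nat_lit 1) (.cons
 (nat_lit 2163) (nat_lit 1853) (nat_lit 1777) (nat_lit 1) .nil)), (nat_lit 33), (nat_lit 0), (nat_lit 0),
 (nat_lit 0), (40, 6, 21), [1201, 5], 0⟩,
  ⟨⟨15, -56, -11, -28, -5, -36, 40, -8, -47⟩, (.cons (nat_lit 1794) (nat_lit 867) (nat_lit 386) (nat_lit 1)
 (.cons (nat_lit 56) (nat_lit 686) (nat_lit 1106) (nat_lit 1) .nil)), (nat_lit 28), (nat_lit 0), (nat_lit 0),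
 (nat_lit 0), (31, 34, 12), [1154, 1447], 0⟩,
  ⟨⟨1, 48, 36, -52, -5, 36, -8, 40, -23⟩, (.cons (nat_lit 786) (nat_lit 1844) (nat_lit 678) (nat_lit 1) (.cons
 (nat_lit 1683) (nat_lit 877) (nat_lit 314) (nat_lit 1) .nil)), (nat_lit 6), (nat_lit 0), (nat_lit 0), (nat_lit
 0), (38, 38, 14), [552, 1541], 0⟩,
  ⟨⟨31, 48, -4, -10, 17, -50, 46, -4, -35⟩, (.cons (nat_lit 1176) (nat_lit 210) (nat_lit 1446) (nat_lit 1)
 (.cons (nat_lit 269) (nat_lit 56) (nat_lit 627) (nat_lit 1) .nil)), (nat_lit 11), (nat_lit 0), (nat_lit 0),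
 (nat_lit 0), (15, 2, 12), [822, 2164], 0⟩,
  ⟨⟨-57, 4, 40, -8, -45, -26, -24, 24, -25⟩, (.cons (nat_lit 555) (nat_lit 1205) (nat_lit 1565) (nat_lit 1)
 (.cons (nat_lit 58) (nat_lit 1547) (nat_lit 1862) (nat_lit 1) .nil)), (nat_lit 9), (nat_lit 0), (nat_lit 0),
 (nat_lit 0), (25, 50, 44), [1199, 178], 0⟩,
  ⟨⟨15, 32, 44, 50, -17, -30, 14, 44, -19⟩, (.cons (nat_lit 94) (nat_lit 1669) (nat_lit 669) (nat_lit 1) (.cons
 (nat_lit 1461) (nat_lit 843) (nat_lit 387) (nat_lit 1) .nil)), (nat_lit 41), (nat_lit 0), (nat_lit 0),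
 (nat_lit 0), (27, 37, 4), [796, 1397], 0⟩,
  ⟨⟨-15, 32, 59, 50, 17, -20, -14, 44, -5⟩, (.cons (nat_lit 200) (nat_lit 221) (nat_lit 1162) (nat_lit 1)
 (.cons (nat_lit 765) (nat_lit 1443) (nat_lit 534) (nat_lit 1) .nil)), (nat_lit 17), (nat_lit 0), (nat_lit 0),
 (nat_lit 0), (6, 33, 48), [1338, 989], 0⟩,
  mz,
  ⟨⟨-13, -48, -27, 30, 17, -60, 30, -36, -7⟩, (.cons (nat_lit 904) (nat_lit 627) (nat_lit 1408) (nat_lit 1)
 (.cons (nat_lit 518) (nat_lit 107) (nat_lit 2100) (nat_lit 1) .nil)), (nat_lit 29), (nat_lit 0), (nat_lit 0),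
 (nat_lit 0), (14, 37, 37), [1384, 565], 0⟩,
  ⟨⟨1, -12, -64, -50, 17, 20, -14, -44, -5⟩, (.cons (nat_lit 1528) (nat_lit 315) (nat_lit 707) (nat_lit 1)
 (.cons (nat_lit 770) (nat_lit 1854) (nat_lit 288) (nat_lit 1) .nil)), (nat_lit 16), (nat_lit 0), (nat_lit 0),
 (nat_lit 0), (3, 9, 11), [1570, 1118], 0⟩,
  ⟨⟨31, 48, -27, -10, 17, 60, 46, -4, -11⟩, (.cons (nat_lit 680) (nat_lit 1367) (nat_lit 1197) (nat_lit 1)
 (.cons (nat_lit 1265) (nat_lit 1042) (nat_lit 668) (nat_lit 1) .nil)), (nat_lit 11), (nat_lit 0), (nat_lit 0),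
 (nat_lit 0), (36, 26, 50), [709, 107], 0⟩,
  ⟨⟨-39, -28, -17, 10, 33, -50, 18, -36, -37⟩, (.cons (nat_lit 517) (nat_lit 267) (nat_lit 616) (nat_lit 1)
 (.cons (nat_lit 2069) (nat_lit 2164) (nat_lit 1508) (nat_lit 1) .nil)), (nat_lit 50), (nat_lit 0), (nat_lit
 0), (nat_lit 0), (5, 49, 14), [685, 1744], 0⟩,
  ⟨⟨39, -28, -56, -10, 33, -40, -18, -36, -19⟩, (.cons (nat_lit 1848) (nat_lit 396) (nat_lit 1706) (nat_lit 1)
 (.cons (nat_lit 2208) (nat_lit 1412) (nat_lit 1030) (nat_lit 1) .nil)), (nat_lit 50), (nat_lit 0), (nat_lit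
 0), (nat_lit 0), (49, 35, 10), [1545, 287], 0⟩,
  mz,
  ⟨⟨-13, -48, 40, -30, -17, -30, 30, -36, -23⟩, (.cons (nat_lit 1848) (nat_lit 614) (nat_lit 1467) (nat_lit 1)
 (.cons (nat_lit 2208) (nat_lit 1532) (nat_lit 388) (nat_lit 1) .nil)), (nat_lit 52), (nat_lit 0), (nat_lit 0),
 (nat_lit 0), (45, 6, 47), [164, 657], 0⟩]

/-- Moves. -/
noncomputable def t4_4 : List Mv := [
  mz,
  mz,
  mz,
  mz,
  ⟨⟨51, 20, -47, 10, -47, -30, -2, 20, -47⟩, (.cons (nat_lit 1385) (nat_lit 564) (nat_lit 1805) (nat_lit 1)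
 (.cons (nat_lit 121) (nat_lit 1189) (nat_lit 1520) (nat_lit 1) .nil)), (nat_lit 15), (nat_lit 0), (nat_lit 0),
 (nat_lit 0), (24, 39, 24), [54, 604], 0⟩,
  ⟨⟨51, -20, -47, 10, 47, -30, -2, -20, -47⟩, (.cons (nat_lit 775) (nat_lit 1195) (nat_lit 1015) (nat_lit 1)
 (.cons (nat_lit 2163) (nat_lit 880) (nat_lit 131) (nat_lit 1) .nil)), (nat_lit 15), (nat_lit 0), (nat_lit 0),
 (nat_lit 0), (12, 46, 12), [445, 2184], 0⟩,
  ⟨⟨25, -48, -36, 28, -5, 36, 40, 8, -47⟩, (.cons (nat_lit 534) (nat_lit 821) (nat_lit 352) (nat_lit 1) (.cons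
 (nat_lit 2188) (nat_lit 745) (nat_lit 2176) (nat_lit 1) .nil)), (nat_lit 40), (nat_lit 0), (nat_lit 0),
 (nat_lit 0), (37, 16, 38), [742, 1418], 0⟩,
  mz,
  mz,
  ⟨⟨57, -4, -17, 8, 45, -34, 24, -24, -49⟩, (.cons (nat_lit 1848) (nat_lit 1095) (nat_lit 257) (nat_lit 1)
 (.cons (nat_lit 2208) (nat_lit 1412) (nat_lit 1986) (nat_lit 1) .nil)), (nat_lit 9), (nat_lit 0), (nat_lit 0),
 (nat_lit 0), (7, 14, 42), [1014, 620], 0⟩,
  ⟨⟨-25, 48, -11, 28, -5, -64, -40, -8, -7⟩, (.cons (nat_lit 1837) (nat_lit 294) (nat_lit 1076) (nat_lit 1)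
 (.cons (nat_lit 714) (nat_lit 2040) (nat_lit 163) (nat_lit 1) .nil)), (nat_lit 36), (nat_lit 0), (nat_lit 0),
 (nat_lit 0), (52, 52, 9), [1713, 131], 0⟩,
  ⟨⟨15, -32, 44, 50, 17, -30, 14, -44, -19⟩, (.cons (nat_lit 1055) (nat_lit 330) (nat_lit 1744) (nat_lit 1)
 (.cons (nat_lit 1240) (nat_lit 1248) (nat_lit 88) (nat_lit 1) .nil)), (nat_lit 41), (nat_lit 0), (nat_lit 0),
 (nat_lit 0), (29, 26, 20), [1011, 507], 0⟩,
  ⟨⟨-51, 20, 4, -10, -47, -20, 2, 20, -49⟩, (.cons (nat_lit 980) (nat_lit 91) (nat_lit 1162) (nat_lit 1) (.cons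
 (nat_lit 1900) (nat_lit 1800) (nat_lit 924) (nat_lit 1) .nil)), (nat_lit 15), (nat_lit 0), (nat_lit 0),
 (nat_lit 0), (48, 25, 48), [1688, 369], 0⟩,
  mz,
  mz,
  ⟨⟨-51, -20, 4, 10, -47, 20, 2, -20, -49⟩, (.cons (nat_lit 1266) (nat_lit 1281) (nat_lit 712) (nat_lit 1)
 (.cons (nat_lit 1873) (nat_lit 1743) (nat_lit 1204) (nat_lit 1) .nil)), (nat_lit 12), (nat_lit 0), (nat_lit
 0), (nat_lit 0), (36, 21, 36), [875, 1302], 0⟩,
  ⟨⟨15, 52, 16, -10, -17, 60, 46, 4, -11⟩, (.cons (nat_lit 144) (nat_lit 865) (nat_lit 1736) (nat_lit 1) (.cons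
 (nat_lit 175) (nat_lit 273) (nat_lit 407) (nat_lit 1) .nil)), (nat_lit 47), (nat_lit 0), (nat_lit 0), (nat_lit
 0), (24, 37, 10), [1672, 750], 0⟩,
  ⟨⟨15, 52, -31, -10, -17, -50, 46, 4, -35⟩, (.cons (nat_lit 35) (nat_lit 611) (nat_lit 437) (nat_lit 1) (.cons
 (nat_lit 795) (nat_lit 556) (nat_lit 178) (nat_lit 1) .nil)), (nat_lit 47), (nat_lit 0), (nat_lit 0), (nat_lit
 0), (7, 13, 25), [968, 974], 0⟩,
  ⟨⟨33, -20, -65, 8, -45, 26, -24, -24, -25⟩, (.cons (nat_lit 1688) (nat_lit 785) (nat_lit 1232) (nat_lit 1)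
 (.cons (nat_lit 2085) (nat_lit 1671) (nat_lit 1716) (nat_lit 1) .nil)), (nat_lit 42), (nat_lit 0), (nat_lit
 0), (nat_lit 0), (7, 29, 19), [1330, 729], 0⟩,
  mz,
  mz,
  ⟨⟨-33, 20, -32, 8, -45, -34, 24, 24, -49⟩, (.cons (nat_lit 1759) (nat_lit 128) (nat_lit 671) (nat_lit 1)
 (.cons (nat_lit 1045) (nat_lit 1179) (nat_lit 1052) (nat_lit 1) .nil)), (nat_lit 18), (nat_lit 0), (nat_lit
 0), (nat_lit 0), (47, 40, 14), [898, 742], 0⟩,
  ⟨⟨45, 28, -49, 28, -45, -14, 0, 0, -53⟩, (.cons (nat_lit 1848) (nat_lit 1397) (nat_lit 443) (nat_lit 1)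
 (.cons (nat_lit 2208) (nat_lit 2130) (nat_lit 1172) (nat_lit 1) .nil)), (nat_lit 22), (nat_lit 0), (nat_lit
 0), (nat_lit 0), (24, 22, 0), [1044, 922], 0⟩,
  mz,
  ⟨⟨-13, 48, -27, 30, -17, -60, 30, 36, -7⟩, (.cons (nat_lit 1267) (nat_lit 211) (nat_lit 491) (nat_lit 1)
 (.cons (nat_lit 217) (nat_lit 1623) (nat_lit 277) (nat_lit 1) .nil)), (nat_lit 29), (nat_lit 0), (nat_lit 0),
 (nat_lit 0), (11, 48, 48), [585, 533], 0⟩,
  mz,
  ⟨⟨-25, -48, -11, 28, 5, -64, -40, 8, -7⟩, (.cons (nat_lit 870) (nat_lit 1407) (nat_lit 1608) (nat_lit 1)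
 (.cons (nat_lit 977) (nat_lit 464) (nat_lit 1078) (nat_lit 1) .nil)), (nat_lit 36), (nat_lit 0), (nat_lit 0),
 (nat_lit 0), (2, 2, 35), [784, 1202], 0⟩,
  mz,
  ⟨⟨-1, -48, 37, 52, 5, -16, 8, -40, -31⟩, (.cons (nat_lit 916) (nat_lit 1521) (nat_lit 1038) (nat_lit 1)
 (.cons (nat_lit 1001) (nat_lit 1373) (nat_lit 1791) (nat_lit 1) .nil)), (nat_lit 6), (nat_lit 0), (nat_lit 0),
 (nat_lit 0), (29, 29, 33), [1174, 451], 0⟩,
  ⟨⟨43, -12, -63, -30, 17, -30, 30, 36, -23⟩, (.cons (nat_lit 1490) (nat_lit 1789) (nat_lit 614) (nat_lit 1)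
 (.cons (nat_lit 906) (nat_lit 756) (nat_lit 864) (nat_lit 1) .nil)), (nat_lit 24), (nat_lit 0), (nat_lit 0),
 (nat_lit 0), (16, 48, 5), [1288, 116], 0⟩,
  mz,
  ⟨⟨45, -28, -49, 28, 45, -14, 0, 0, -53⟩, (.cons (nat_lit 173) (nat_lit 1796) (nat_lit 729) (nat_lit 1) (.cons
 (nat_lit 1270) (nat_lit 580) (nat_lit 116) (nat_lit 1) .nil)), (nat_lit 22), (nat_lit 0), (nat_lit 0),
 (nat_lit 0), (39, 49, 0), [1007, 1683], 0⟩,
  mz,
  ⟨⟨57, 8, -20, -10, 33, 50, 18, 36, -37⟩, (.cons (nat_lit 1848) (nat_lit 887) (nat_lit 626) (nat_lit 1) (.cons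
 (nat_lit 2208) (nat_lit 1101) (nat_lit 1748) (nat_lit 1) .nil)), (nat_lit 33), (nat_lit 0), (nat_lit 0),
 (nat_lit 0), (35, 45, 25), [255, 522], 0⟩,
  mz,
  mz,
  ⟨⟨-9, 8, -59, 52, -5, -36, -8, -40, -23⟩, (.cons (nat_lit 154) (nat_lit 949) (nat_lit 706) (nat_lit 1) (.cons
 (nat_lit 1055) (nat_lit 1575) (nat_lit 337) (nat_lit 1) .nil)), (nat_lit 10), (nat_lit 0), (nat_lit 0),
 (nat_lit 0), (2, 12, 43), [1129, 1230], 0⟩,
  ⟨⟨9, -8, -68, -52, 5, 16, 8, 40, -31⟩, (.cons (nat_lit 1495) (nat_lit 1117) (nat_lit 1086) (nat_lit 1) (.cons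
 (nat_lit 2172) (nat_lit 2100) (nat_lit 1477) (nat_lit 1) .nil)), (nat_lit 10), (nat_lit 0), (nat_lit 0),
 (nat_lit 0), (31, 27, 4), [870, 1719], 0⟩,
  ⟨⟨-57, 8, 37, -10, -33, -40, -18, 36, -19⟩, (.cons (nat_lit 315) (nat_lit 1680) (nat_lit 1255) (nat_lit 1)
 (.cons (nat_lit 343) (nat_lit 223) (nat_lit 1497) (nat_lit 1) .nil)), (nat_lit 49), (nat_lit 0), (nat_lit 0),
 (nat_lit 0), (40, 47, 21), [831, 655], 0⟩,
  ⟨⟨15, -56, -11, -28, -5, -36, 40, -8, -47⟩, (.cons (nat_lit 1794) (nat_lit 867) (nat_lit 386) (nat_lit 1)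
 (.cons (nat_lit 56) (nat_lit 686) (nat_lit 1106) (nat_lit 1) .nil)), (nat_lit 28), (nat_lit 0), (nat_lit 0),
 (nat_lit 0), (31, 34, 12), [1154, 1447], 0⟩,
  ⟨⟨-9, -8, -59, 52, 5, -36, -8, 40, -23⟩, (.cons (nat_lit 1730) (nat_lit 687) (nat_lit 204) (nat_lit 1) (.cons
 (nat_lit 84) (nat_lit 690) (nat_lit 27) (nat_lit 1) .nil)), (nat_lit 10), (nat_lit 0), (nat_lit 0), (nat_lit
 0), (29, 15, 14), [1171, 2142], 0⟩,
  ⟨⟨15, -52, -31, 10, -17, 50, 46, -4, -35⟩, (.cons (nat_lit 618) (nat_lit 644) (nat_lit 857) (nat_lit 1)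
 (.cons (nat_lit 1586) (nat_lit 1703) (nat_lit 2030) (nat_lit 1) .nil)), (nat_lit 44), (nat_lit 0), (nat_lit
 0), (nat_lit 0), (50, 51, 12), [472, 149], 0⟩,
  ⟨⟨-57, 4, 40, -8, -45, -26, -24, 24, -25⟩, (.cons (nat_lit 555) (nat_lit 1205) (nat_lit 1565) (nat_lit 1)
 (.cons (nat_lit 58) (nat_lit 1547) (nat_lit 1862) (nat_lit 1) .nil)), (nat_lit 9), (nat_lit 0), (nat_lit 0),
 (nat_lit 0), (25, 50, 44), [1199, 178], 0⟩,
  ⟨⟨15, 32, 44, 50, -17, -30, 14, 44, -19⟩, (.cons (nat_lit 94) (nat_lit 1669) (nat_lit 669) (nat_lit 1) (.cons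
 (nat_lit 1461) (nat_lit 843) (nat_lit 387) (nat_lit 1) .nil)), (nat_lit 41), (nat_lit 0), (nat_lit 0),
 (nat_lit 0), (27, 37, 4), [796, 1397], 0⟩,
  ⟨⟨-15, 32, 59, 50, 17, -20, -14, 44, -5⟩, (.cons (nat_lit 200) (nat_lit 221) (nat_lit 1162) (nat_lit 1)
 (.cons (nat_lit 765) (nat_lit 1443) (nat_lit 534) (nat_lit 1) .nil)), (nat_lit 17), (nat_lit 0), (nat_lit 0),
 (nat_lit 0), (6, 33, 48), [1338, 989], 0⟩,
  mz,
  ⟨⟨-13, -48, -27, 30, 17, -60, 30, -36, -7⟩, (.cons (nat_lit 904) (nat_lit 627) (nat_lit 1408) (nat_lit 1)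
 (.cons (nat_lit 518) (nat_lit 107) (nat_lit 2100) (nat_lit 1) .nil)), (nat_lit 29), (nat_lit 0), (nat_lit 0),
 (nat_lit 0), (14, 37, 37), [1384, 565], 0⟩,
  ⟨⟨-15, -32, 59, -50, 17, 20, -14, -44, -5⟩, (.cons (nat_lit 622) (nat_lit 1276) (nat_lit 1739) (nat_lit 1)
 (.cons (nat_lit 2144) (nat_lit 1953) (nat_lit 2074) (nat_lit 1) .nil)), (nat_lit 41), (nat_lit 0), (nat_lit
 0), (nat_lit 0), (8, 9, 11), [237, 554], 0⟩,
  ⟨⟨15, -52, 16, 10, -17, -60, 46, -4, -11⟩, (.cons (nat_lit 1485) (nat_lit 1170) (nat_lit 235) (nat_lit 1)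
 (.cons (nat_lit 112) (nat_lit 1017) (nat_lit 916) (nat_lit 1) .nil)), (nat_lit 44), (nat_lit 0), (nat_lit 0),
 (nat_lit 0), (14, 27, 50), [666, 1561], 0⟩,
  ⟨⟨-39, -28, -17, 10, 33, -50, 18, -36, -37⟩, (.cons (nat_lit 517) (nat_lit 267) (nat_lit 616) (nat_lit 1)
 (.cons (nat_lit 2069) (nat_lit 2164) (nat_lit 1508) (nat_lit 1) .nil)), (nat_lit 50), (nat_lit 0), (nat_lit
 0), (nat_lit 0), (5, 49, 14), [685, 1744], 0⟩,
  ⟨⟨-57, -8, 37, -10, 33, -40, -18, -36, -19⟩, (.cons (nat_lit 1334) (nat_lit 679) (nat_lit 1061) (nat_lit 1)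
 (.cons (nat_lit 142) (nat_lit 1972) (nat_lit 137) (nat_lit 1) .nil)), (nat_lit 49), (nat_lit 0), (nat_lit 0),
 (nat_lit 0), (14, 35, 10), [83, 945], 0⟩,
  mz,
  ⟨⟨43, 12, -63, -30, -17, -30, 30, -36, -23⟩, (.cons (nat_lit 1463) (nat_lit 1837) (nat_lit 1338) (nat_lit 1)
 (.cons (nat_lit 2022) (nat_lit 489) (nat_lit 1093) (nat_lit 1) .nil)), (nat_lit 24), (nat_lit 0), (nat_lit 0),
 (nat_lit 0), (2, 6, 47), [1540, 140], 0⟩]

/-- Moves. -/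
noncomputable def t4_6 : List Mv := [
  mz,
  mz,
  mz,
  mz,
  ⟨⟨51, 20, -47, 10, -47, -30, -2, 20, -47⟩, (.cons (nat_lit 1385) (nat_lit 564) (nat_lit 1805) (nat_lit 1)
 (.cons (nat_lit 121) (nat_lit 1189) (nat_lit 1520) (nat_lit 1) .nil)), (nat_lit 15), (nat_lit 0), (nat_lit 0),
 (nat_lit 0), (24, 39, 24), [54, 604], 0⟩,
  ⟨⟨-53, 0, 0, 10, 47, -30, -2, -20, -47⟩, (.cons (nat_lit 1848) (nat_lit 1729) (nat_lit 542) (nat_lit 1)
 (.cons (nat_lit 2208) (nat_lit 389) (nat_lit 178) (nat_lit 1) .nil)), (nat_lit 5), (nat_lit 0), (nat_lit 0),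
 (nat_lit 0), (0, 46, 12), [531, 1479], 0⟩,
  ⟨⟨15, 56, -11, 28, -5, 36, 40, 8, -47⟩, (.cons (nat_lit 240) (nat_lit 1329) (nat_lit 868) (nat_lit 1) (.cons
 (nat_lit 444) (nat_lit 54) (nat_lit 1189) (nat_lit 1) .nil)), (nat_lit 37), (nat_lit 0), (nat_lit 0), (nat_lit
 0), (1, 16, 38), [1344, 384], 0⟩,
  mz,
  mz,
  ⟨⟨-33, -20, -32, 8, 45, -34, 24, -24, -49⟩, (.cons (nat_lit 904) (nat_lit 109) (nat_lit 85) (nat_lit 1)
 (.cons (nat_lit 283) (nat_lit 1972) (nat_lit 1704) (nat_lit 1) .nil)), (nat_lit 18), (nat_lit 0), (nat_lit 0),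
 (nat_lit 0), (35, 14, 42), [627, 479], 0⟩,
  ⟨⟨-25, 48, -11, 28, -5, -64, -40, -8, -7⟩, (.cons (nat_lit 1837) (nat_lit 294) (nat_lit 1076) (nat_lit 1)
 (.cons (nat_lit 714) (nat_lit 2040) (nat_lit 163) (nat_lit 1) .nil)), (nat_lit 36), (nat_lit 0), (nat_lit 0),
 (nat_lit 0), (52, 52, 9), [1713, 131], 0⟩,
  ⟨⟨15, -32, 44, 50, 17, -30, 14, -44, -19⟩, (.cons (nat_lit 1055) (nat_lit 330) (nat_lit 1744) (nat_lit 1)
 (.cons (nat_lit 1240) (nat_lit 1248) (nat_lit 88) (nat_lit 1) .nil)), (nat_lit 41), (nat_lit 0), (nat_lit 0),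
 (nat_lit 0), (29, 26, 20), [1011, 507], 0⟩,
  ⟨⟨53, 0, -53, -10, -47, -20, 2, 20, -49⟩, (.cons (nat_lit 1041) (nat_lit 1199) (nat_lit 1678) (nat_lit 1)
 (.cons (nat_lit 2001) (nat_lit 127) (nat_lit 407) (nat_lit 1) .nil)), (nat_lit 5), (nat_lit 0), (nat_lit 0),
 (nat_lit 0), (0, 25, 48), [1516, 1873], 0⟩,
  mz,
  mz,
  ⟨⟨-51, -20, 4, -10, 47, -20, 2, -20, -49⟩, (.cons (nat_lit 1848) (nat_lit 1840) (nat_lit 146) (nat_lit 1)
 (.cons (nat_lit 2208) (nat_lit 1538) (nat_lit 386) (nat_lit 1) .nil)), (nat_lit 15), (nat_lit 0), (nat_lit 0),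
 (nat_lit 0), (36, 32, 36), [1176, 539], 0⟩,
  ⟨⟨31, -48, -27, -10, -17, 60, 46, 4, -11⟩, (.cons (nat_lit 1834) (nat_lit 425) (nat_lit 962) (nat_lit 1)
 (.cons (nat_lit 1799) (nat_lit 2124) (nat_lit 1817) (nat_lit 1) .nil)), (nat_lit 11), (nat_lit 0), (nat_lit
 0), (nat_lit 0), (39, 37, 10), [1414, 609], 0⟩,
  ⟨⟨31, -48, -4, -10, -17, -50, 46, 4, -35⟩, (.cons (nat_lit 137) (nat_lit 464) (nat_lit 1469) (nat_lit 1)
 (.cons (nat_lit 991) (nat_lit 854) (nat_lit 2058) (nat_lit 1) .nil)), (nat_lit 11), (nat_lit 0), (nat_lit 0),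
 (nat_lit 0), (18, 13, 25), [1828, 1632], 0⟩,
  ⟨⟨-57, -4, 40, -8, 45, -26, -24, -24, -25⟩, (.cons (nat_lit 947) (nat_lit 321) (nat_lit 861) (nat_lit 1)
 (.cons (nat_lit 1928) (nat_lit 1882) (nat_lit 1680) (nat_lit 1) .nil)), (nat_lit 9), (nat_lit 0), (nat_lit 0),
 (nat_lit 0), (12, 24, 19), [1702, 2030], 0⟩,
  mz,
  mz,
  ⟨⟨-33, 20, -32, 8, -45, -34, 24, 24, -49⟩, (.cons (nat_lit 1759) (nat_lit 128) (nat_lit 671) (nat_lit 1)
 (.cons (nat_lit 1045) (nat_lit 1179) (nat_lit 1052) (nat_lit 1) .nil)), (nat_lit 18), (nat_lit 0), (nat_lit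
 0), (nat_lit 0), (47, 40, 14), [898, 742], 0⟩,
  ⟨⟨45, 28, -49, 28, -45, -14, 0, 0, -53⟩, (.cons (nat_lit 1848) (nat_lit 1397) (nat_lit 443) (nat_lit 1)
 (.cons (nat_lit 2208) (nat_lit 2130) (nat_lit 1172) (nat_lit 1) .nil)), (nat_lit 22), (nat_lit 0), (nat_lit
 0), (nat_lit 0), (24, 22, 0), [1044, 922], 0⟩,
  mz,
  ⟨⟨-13, 48, -27, 30, -17, -60, 30, 36, -7⟩, (.cons (nat_lit 1267) (nat_lit 211) (nat_lit 491) (nat_lit 1)
 (.cons (nat_lit 217) (nat_lit 1623) (nat_lit 277) (nat_lit 1) .nil)), (nat_lit 29), (nat_lit 0), (nat_lit 0),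
 (nat_lit 0), (11, 48, 48), [585, 533], 0⟩,
  mz,
  ⟨⟨-15, 56, 4, -28, -5, 64, -40, 8, -7⟩, (.cons (nat_lit 18) (nat_lit 856) (nat_lit 895) (nat_lit 1) (.cons
 (nat_lit 1530) (nat_lit 618) (nat_lit 174) (nat_lit 1) .nil)), (nat_lit 37), (nat_lit 0), (nat_lit 0),
 (nat_lit 0), (33, 51, 35), [1215, 619], 0⟩,
  mz,
  ⟨⟨9, 8, -68, -52, -5, 16, 8, -40, -31⟩, (.cons (nat_lit 1437) (nat_lit 476) (nat_lit 197) (nat_lit 1) (.cons
 (nat_lit 1624) (nat_lit 2139) (nat_lit 415) (nat_lit 1) .nil)), (nat_lit 10), (nat_lit 0), (nat_lit 0),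
 (nat_lit 0), (4, 24, 33), [1301, 102], 0⟩,
  ⟨⟨43, -12, -63, 30, -17, 30, 30, 36, -23⟩, (.cons (nat_lit 947) (nat_lit 1609) (nat_lit 1602) (nat_lit 1)
 (.cons (nat_lit 1693) (nat_lit 2196) (nat_lit 1190) (nat_lit 1) .nil)), (nat_lit 46), (nat_lit 0), (nat_lit
 0), (nat_lit 0), (16, 5, 5), [121, 469], 0⟩,
  mz,
  ⟨⟨45, -28, -49, 28, 45, -14, 0, 0, -53⟩, (.cons (nat_lit 173) (nat_lit 1796) (nat_lit 729) (nat_lit 1) (.cons
 (nat_lit 1270) (nat_lit 580) (nat_lit 116) (nat_lit 1) .nil)), (nat_lit 22), (nat_lit 0), (nat_lit 0),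
 (nat_lit 0), (39, 49, 0), [1007, 1683], 0⟩,
  mz,
  ⟨⟨57, 8, -20, -10, 33, 50, 18, 36, -37⟩, (.cons (nat_lit 1848) (nat_lit 887) (nat_lit 626) (nat_lit 1) (.cons
 (nat_lit 2208) (nat_lit 1101) (nat_lit 1748) (nat_lit 1) .nil)), (nat_lit 33), (nat_lit 0), (nat_lit 0),
 (nat_lit 0), (35, 45, 25), [255, 522], 0⟩,
  mz,
  mz,
  ⟨⟨-9, 8, -59, 52, -5, -36, -8, -40, -23⟩, (.cons (nat_lit 154) (nat_lit 949) (nat_lit 706) (nat_lit 1) (.cons
 (nat_lit 1055) (nat_lit 1575) (nat_lit 337) (nat_lit 1) .nil)), (nat_lit 10), (nat_lit 0), (nat_lit 0),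
 (nat_lit 0), (2, 12, 43), [1129, 1230], 0⟩,
  ⟨⟨9, -8, -68, -52, 5, 16, 8, 40, -31⟩, (.cons (nat_lit 1495) (nat_lit 1117) (nat_lit 1086) (nat_lit 1) (.cons
 (nat_lit 2172) (nat_lit 2100) (nat_lit 1477) (nat_lit 1) .nil)), (nat_lit 10), (nat_lit 0), (nat_lit 0),
 (nat_lit 0), (31, 27, 4), [870, 1719], 0⟩,
  ⟨⟨39, 28, -56, -10, -33, -40, -18, 36, -19⟩, (.cons (nat_lit 244) (nat_lit 728) (nat_lit 567) (nat_lit 1)
 (.cons (nat_lit 456) (nat_lit 764) (nat_lit 1591) (nat_lit 1) .nil)), (nat_lit 50), (nat_lit 0), (nat_lit 0),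
 (nat_lit 0), (34, 47, 21), [229, 373], 0⟩,
  ⟨⟨25, 48, -36, 28, 5, 36, 40, -8, -47⟩, (.cons (nat_lit 1234) (nat_lit 658) (nat_lit 1792) (nat_lit 1) (.cons
 (nat_lit 2101) (nat_lit 69) (nat_lit 2117) (nat_lit 1) .nil)), (nat_lit 40), (nat_lit 0), (nat_lit 0),
 (nat_lit 0), (34, 19, 12), [830, 1579], 0⟩,
  ⟨⟨-9, -8, -59, 52, 5, -36, -8, 40, -23⟩, (.cons (nat_lit 1730) (nat_lit 687) (nat_lit 204) (nat_lit 1) (.cons
 (nat_lit 84) (nat_lit 690) (nat_lit 27) (nat_lit 1) .nil)), (nat_lit 10), (nat_lit 0), (nat_lit 0), (nat_lit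
 0), (29, 15, 14), [1171, 2142], 0⟩,
  ⟨⟨31, 48, -4, -10, 17, -50, 46, -4, -35⟩, (.cons (nat_lit 1176) (nat_lit 210) (nat_lit 1446) (nat_lit 1)
 (.cons (nat_lit 269) (nat_lit 56) (nat_lit 627) (nat_lit 1) .nil)), (nat_lit 11), (nat_lit 0), (nat_lit 0),
 (nat_lit 0), (15, 2, 12), [822, 2164], 0⟩,
  ⟨⟨-57, 4, 40, -8, -45, -26, -24, 24, -25⟩, (.cons (nat_lit 555) (nat_lit 1205) (nat_lit 1565) (nat_lit 1)
 (.cons (nat_lit 58) (nat_lit 1547) (nat_lit 1862) (nat_lit 1) .nil)), (nat_lit 9), (nat_lit 0), (nat_lit 0),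
 (nat_lit 0), (25, 50, 44), [1199, 178], 0⟩,
  ⟨⟨15, 32, 44, 50, -17, -30, 14, 44, -19⟩, (.cons (nat_lit 94) (nat_lit 1669) (nat_lit 669) (nat_lit 1) (.cons
 (nat_lit 1461) (nat_lit 843) (nat_lit 387) (nat_lit 1) .nil)), (nat_lit 41), (nat_lit 0), (nat_lit 0),
 (nat_lit 0), (27, 37, 4), [796, 1397], 0⟩,
  ⟨⟨-15, 32, 59, -50, -17, 20, -14, 44, -5⟩, (.cons (nat_lit 1110) (nat_lit 723) (nat_lit 965) (nat_lit 1)
 (.cons (nat_lit 1124) (nat_lit 1031) (nat_lit 177) (nat_lit 1) .nil)), (nat_lit 41), (nat_lit 0), (nat_lit 0),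
 (nat_lit 0), (6, 20, 48), [22, 880], 0⟩,
  mz,
  ⟨⟨-13, -48, -27, 30, 17, -60, 30, -36, -7⟩, (.cons (nat_lit 904) (nat_lit 627) (nat_lit 1408) (nat_lit 1)
 (.cons (nat_lit 518) (nat_lit 107) (nat_lit 2100) (nat_lit 1) .nil)), (nat_lit 29), (nat_lit 0), (nat_lit 0),
 (nat_lit 0), (14, 37, 37), [1384, 565], 0⟩,
  ⟨⟨-15, -32, 59, -50, 17, 20, -14, -44, -5⟩, (.cons (nat_lit 622) (nat_lit 1276) (nat_lit 1739) (nat_lit 1)
 (.cons (nat_lit 2144) (nat_lit 1953) (nat_lit 2074) (nat_lit 1) .nil)), (nat_lit 41), (nat_lit 0), (nat_lit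
 0), (nat_lit 0), (8, 9, 11), [237, 554], 0⟩,
  ⟨⟨15, -52, 16, -10, 17, 60, 46, -4, -11⟩, (.cons (nat_lit 997) (nat_lit 1557) (nat_lit 380) (nat_lit 1)
 (.cons (nat_lit 1367) (nat_lit 368) (nat_lit 339) (nat_lit 1) .nil)), (nat_lit 47), (nat_lit 0), (nat_lit 0),
 (nat_lit 0), (14, 26, 50), [1569, 765], 0⟩,
  ⟨⟨-39, -28, -17, 10, 33, -50, 18, -36, -37⟩, (.cons (nat_lit 517) (nat_lit 267) (nat_lit 616) (nat_lit 1)
 (.cons (nat_lit 2069) (nat_lit 2164) (nat_lit 1508) (nat_lit 1) .nil)), (nat_lit 50), (nat_lit 0), (nat_lit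
 0), (nat_lit 0), (5, 49, 14), [685, 1744], 0⟩,
  ⟨⟨39, -28, -56, -10, 33, -40, -18, -36, -19⟩, (.cons (nat_lit 1848) (nat_lit 396) (nat_lit 1706) (nat_lit 1)
 (.cons (nat_lit 2208) (nat_lit 1412) (nat_lit 1030) (nat_lit 1) .nil)), (nat_lit 50), (nat_lit 0), (nat_lit
 0), (nat_lit 0), (49, 35, 10), [1545, 287], 0⟩,
  mz,
  ⟨⟨-13, -48, 40, 30, 17, 30, 30, -36, -23⟩, (.cons (nat_lit 453) (nat_lit 1329) (nat_lit 412) (nat_lit 1)
 (.cons (nat_lit 582) (nat_lit 495) (nat_lit 1650) (nat_lit 1) .nil)), (nat_lit 29), (nat_lit 0), (nat_lit 0),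
 (nat_lit 0), (45, 47, 47), [17, 266], 0⟩]

/-- Moves. -/
noncomputable def t4_7 : List Mv := [
  mz,
  mz,
  mz,
  mz,
  ⟨⟨51, 20, -47, 10, -47, -30, -2, 20, -47⟩, (.cons (nat_lit 1385) (nat_lit 564) (nat_lit 1805) (nat_lit 1)
 (.cons (nat_lit 121) (nat_lit 1189) (nat_lit 1520) (nat_lit 1) .nil)), (nat_lit 15), (nat_lit 0), (nat_lit 0),
 (nat_lit 0), (24, 39, 24), [54, 604], 0⟩,
  ⟨⟨51, -20, -47, -10, -47, 30, -2, -20, -47⟩, (.cons (nat_lit 1357) (nat_lit 77) (nat_lit 922) (nat_lit 1)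
 (.cons (nat_lit 1370) (nat_lit 521) (nat_lit 1287) (nat_lit 1) .nil)), (nat_lit 12), (nat_lit 0), (nat_lit 0),
 (nat_lit 0), (12, 7, 12), [1692, 174], 0⟩,
  ⟨⟨15, 56, -11, -28, 5, -36, 40, 8, -47⟩, (.cons (nat_lit 870) (nat_lit 614) (nat_lit 1101) (nat_lit 1) (.cons
 (nat_lit 1494) (nat_lit 899) (nat_lit 1554) (nat_lit 1) .nil)), (nat_lit 28), (nat_lit 0), (nat_lit 0),
 (nat_lit 0), (1, 37, 38), [784, 309], 0⟩,
  mz,
  mz,
  ⟨⟨-33, -20, -32, -8, -45, 34, 24, -24, -49⟩, (.cons (nat_lit 1236) (nat_lit 914) (nat_lit 1563) (nat_lit 1)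
 (.cons (nat_lit 876) (nat_lit 1154) (nat_lit 1339) (nat_lit 1) .nil)), (nat_lit 42), (nat_lit 0), (nat_lit 0),
 (nat_lit 0), (35, 39, 42), [1201, 1622], 0⟩,
  ⟨⟨-15, -56, 4, 28, -5, -64, -40, -8, -7⟩, (.cons (nat_lit 184) (nat_lit 1168) (nat_lit 732) (nat_lit 1)
 (.cons (nat_lit 978) (nat_lit 2190) (nat_lit 586) (nat_lit 1) .nil)), (nat_lit 28), (nat_lit 0), (nat_lit 0),
 (nat_lit 0), (10, 52, 9), [1627, 883], 0⟩,
  ⟨⟨-1, -12, -63, 50, 17, -30, 14, -44, -19⟩, (.cons (nat_lit 493) (nat_lit 1261) (nat_lit 927) (nat_lit 1)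
 (.cons (nat_lit 264) (nat_lit 350) (nat_lit 1874) (nat_lit 1) .nil)), (nat_lit 16), (nat_lit 0), (nat_lit 0),
 (nat_lit 0), (44, 26, 20), [495, 1071], 0⟩,
  ⟨⟨-51, 20, 4, 10, 47, 20, 2, 20, -49⟩, (.cons (nat_lit 1848) (nat_lit 816) (nat_lit 1701) (nat_lit 1) (.cons
 (nat_lit 2208) (nat_lit 802) (nat_lit 646) (nat_lit 1) .nil)), (nat_lit 12), (nat_lit 0), (nat_lit 0),
 (nat_lit 0), (48, 28, 48), [1262, 1150], 0⟩,
  mz,
  mz,
  ⟨⟨-51, -20, 4, -10, 47, -20, 2, -20, -49⟩, (.cons (nat_lit 1848) (nat_lit 1840) (nat_lit 146) (nat_lit 1)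
 (.cons (nat_lit 2208) (nat_lit 1538) (nat_lit 386) (nat_lit 1) .nil)), (nat_lit 15), (nat_lit 0), (nat_lit 0),
 (nat_lit 0), (36, 32, 36), [1176, 539], 0⟩,
  ⟨⟨15, 52, 16, 10, 17, -60, 46, 4, -11⟩, (.cons (nat_lit 1833) (nat_lit 601) (nat_lit 519) (nat_lit 1) (.cons
 (nat_lit 1187) (nat_lit 1139) (nat_lit 1495) (nat_lit 1) .nil)), (nat_lit 44), (nat_lit 0), (nat_lit 0),
 (nat_lit 0), (24, 16, 10), [646, 1120], 0⟩,
  ⟨⟨31, -48, -4, -10, -17, -50, 46, 4, -35⟩, (.cons (nat_lit 137) (nat_lit 464) (nat_lit 1469) (nat_lit 1)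
 (.cons (nat_lit 991) (nat_lit 854) (nat_lit 2058) (nat_lit 1) .nil)), (nat_lit 11), (nat_lit 0), (nat_lit 0),
 (nat_lit 0), (18, 13, 25), [1828, 1632], 0⟩,
  ⟨⟨-57, -4, 40, -8, 45, -26, -24, -24, -25⟩, (.cons (nat_lit 947) (nat_lit 321) (nat_lit 861) (nat_lit 1)
 (.cons (nat_lit 1928) (nat_lit 1882) (nat_lit 1680) (nat_lit 1) .nil)), (nat_lit 9), (nat_lit 0), (nat_lit 0),
 (nat_lit 0), (12, 24, 19), [1702, 2030], 0⟩,
  mz,
  mz,
  ⟨⟨57, 4, -17, -8, 45, 34, 24, 24, -49⟩, (.cons (nat_lit 1848) (nat_lit 941) (nat_lit 1509) (nat_lit 1) (.cons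
 (nat_lit 2208) (nat_lit 1564) (nat_lit 790) (nat_lit 1) .nil)), (nat_lit 21), (nat_lit 0), (nat_lit 0),
 (nat_lit 0), (20, 13, 14), [412, 1137], 0⟩,
  ⟨⟨45, 28, -49, -28, 45, 14, 0, 0, -53⟩, (.cons (nat_lit 1678) (nat_lit 182) (nat_lit 776) (nat_lit 1) (.cons
 (nat_lit 941) (nat_lit 2052) (nat_lit 1294) (nat_lit 1) .nil)), (nat_lit 31), (nat_lit 0), (nat_lit 0),
 (nat_lit 0), (24, 31, 0), [362, 226], 0⟩,
  mz,
  ⟨⟨43, -12, 20, -30, 17, 60, 30, 36, -7⟩, (.cons (nat_lit 1848) (nat_lit 1493) (nat_lit 554) (nat_lit 1)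
 (.cons (nat_lit 2208) (nat_lit 1664) (nat_lit 364) (nat_lit 1) .nil)), (nat_lit 24), (nat_lit 0), (nat_lit 0),
 (nat_lit 0), (37, 5, 48), [1427, 753], 0⟩,
  mz,
  ⟨⟨-25, -48, -11, 28, 5, -64, -40, 8, -7⟩, (.cons (nat_lit 870) (nat_lit 1407) (nat_lit 1608) (nat_lit 1)
 (.cons (nat_lit 977) (nat_lit 464) (nat_lit 1078) (nat_lit 1) .nil)), (nat_lit 36), (nat_lit 0), (nat_lit 0),
 (nat_lit 0), (2, 2, 35), [784, 1202], 0⟩,
  mz,
  ⟨⟨-1, -48, 37, 52, 5, -16, 8, -40, -31⟩, (.cons (nat_lit 916) (nat_lit 1521) (nat_lit 1038) (nat_lit 1)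
 (.cons (nat_lit 1001) (nat_lit 1373) (nat_lit 1791) (nat_lit 1) .nil)), (nat_lit 6), (nat_lit 0), (nat_lit 0),
 (nat_lit 0), (29, 29, 33), [1174, 451], 0⟩,
  ⟨⟨-13, 48, 40, -30, 17, -30, 30, 36, -23⟩, (.cons (nat_lit 1649) (nat_lit 1393) (nat_lit 1044) (nat_lit 1)
 (.cons (nat_lit 1021) (nat_lit 466) (nat_lit 817) (nat_lit 1) .nil)), (nat_lit 52), (nat_lit 0), (nat_lit 0),
 (nat_lit 0), (42, 48, 5), [1417, 163], 0⟩,
  mz,
  ⟨⟨45, -28, -49, -28, -45, 14, 0, 0, -53⟩, (.cons (nat_lit 1848) (nat_lit 925) (nat_lit 1277) (nat_lit 1)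
 (.cons (nat_lit 2208) (nat_lit 2100) (nat_lit 1178) (nat_lit 1) .nil)), (nat_lit 31), (nat_lit 0), (nat_lit
 0), (nat_lit 0), (39, 4, 0), [313, 1533], 0⟩,
  mz,
  ⟨⟨-39, 28, -17, 10, -33, -50, 18, 36, -37⟩, (.cons (nat_lit 745) (nat_lit 126) (nat_lit 1196) (nat_lit 1)
 (.cons (nat_lit 1283) (nat_lit 1657) (nat_lit 1652) (nat_lit 1) .nil)), (nat_lit 50), (nat_lit 0), (nat_lit
 0), (nat_lit 0), (43, 8, 25), [401, 279], 0⟩,
  mz,
  mz,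
  ⟨⟨-9, 8, -59, 52, -5, -36, -8, -40, -23⟩, (.cons (nat_lit 154) (nat_lit 949) (nat_lit 706) (nat_lit 1) (.cons
 (nat_lit 1055) (nat_lit 1575) (nat_lit 337) (nat_lit 1) .nil)), (nat_lit 10), (nat_lit 0), (nat_lit 0),
 (nat_lit 0), (2, 12, 43), [1129, 1230], 0⟩,
  ⟨⟨9, -8, -68, 52, -5, -16, 8, 40, -31⟩, (.cons (nat_lit 1130) (nat_lit 1596) (nat_lit 53) (nat_lit 1) (.cons
 (nat_lit 1965) (nat_lit 580) (nat_lit 485) (nat_lit 1) .nil)), (nat_lit 26), (nat_lit 0), (nat_lit 0),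
 (nat_lit 0), (31, 26, 4), [466, 37], 0⟩,
  ⟨⟨39, 28, -56, -10, -33, -40, -18, 36, -19⟩, (.cons (nat_lit 244) (nat_lit 728) (nat_lit 567) (nat_lit 1)
 (.cons (nat_lit 456) (nat_lit 764) (nat_lit 1591) (nat_lit 1) .nil)), (nat_lit 50), (nat_lit 0), (nat_lit 0),
 (nat_lit 0), (34, 47, 21), [229, 373], 0⟩,
  ⟨⟨15, -56, -11, -28, -5, -36, 40, -8, -47⟩, (.cons (nat_lit 1794) (nat_lit 867) (nat_lit 386) (nat_lit 1)
 (.cons (nat_lit 56) (nat_lit 686) (nat_lit 1106) (nat_lit 1) .nil)), (nat_lit 28), (nat_lit 0), (nat_lit 0),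
 (nat_lit 0), (31, 34, 12), [1154, 1447], 0⟩,
  ⟨⟨1, 48, 36, 52, 5, -36, -8, 40, -23⟩, (.cons (nat_lit 463) (nat_lit 431) (nat_lit 505) (nat_lit 1) (.cons
 (nat_lit 1984) (nat_lit 62) (nat_lit 1390) (nat_lit 1) .nil)), (nat_lit 39), (nat_lit 0), (nat_lit 0),
 (nat_lit 0), (38, 15, 14), [698, 2001], 0⟩,
  ⟨⟨15, -52, -31, -10, 17, -50, 46, -4, -35⟩, (.cons (nat_lit 544) (nat_lit 1080) (nat_lit 672) (nat_lit 1)
 (.cons (nat_lit 2175) (nat_lit 132) (nat_lit 2037) (nat_lit 1) .nil)), (nat_lit 47), (nat_lit 0), (nat_lit 0),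
 (nat_lit 0), (50, 2, 12), [564, 2023], 0⟩,
  ⟨⟨-57, 4, 40, -8, -45, -26, -24, 24, -25⟩, (.cons (nat_lit 555) (nat_lit 1205) (nat_lit 1565) (nat_lit 1)
 (.cons (nat_lit 58) (nat_lit 1547) (nat_lit 1862) (nat_lit 1) .nil)), (nat_lit 9), (nat_lit 0), (nat_lit 0),
 (nat_lit 0), (25, 50, 44), [1199, 178], 0⟩,
  ⟨⟨15, 32, 44, 50, -17, -30, 14, 44, -19⟩, (.cons (nat_lit 94) (nat_lit 1669) (nat_lit 669) (nat_lit 1) (.cons
 (nat_lit 1461) (nat_lit 843) (nat_lit 387) (nat_lit 1) .nil)), (nat_lit 41), (nat_lit 0), (nat_lit 0),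
 (nat_lit 0), (27, 37, 4), [796, 1397], 0⟩,
  ⟨⟨1, 12, -64, 50, 17, -20, -14, 44, -5⟩, (.cons (nat_lit 574) (nat_lit 1456) (nat_lit 87) (nat_lit 1) (.cons
 (nat_lit 927) (nat_lit 484) (nat_lit 1333) (nat_lit 1) .nil)), (nat_lit 48), (nat_lit 0), (nat_lit 0),
 (nat_lit 0), (42, 33, 48), [908, 472], 0⟩,
  mz,
  ⟨⟨-13, -48, -27, 30, 17, -60, 30, -36, -7⟩, (.cons (nat_lit 904) (nat_lit 627) (nat_lit 1408) (nat_lit 1)
 (.cons (nat_lit 518) (nat_lit 107) (nat_lit 2100) (nat_lit 1) .nil)), (nat_lit 29), (nat_lit 0), (nat_lit 0),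
 (nat_lit 0), (14, 37, 37), [1384, 565], 0⟩,
  ⟨⟨1, -12, -64, 50, -17, -20, -14, -44, -5⟩, (.cons (nat_lit 1747) (nat_lit 1649) (nat_lit 1780) (nat_lit 1)
 (.cons (nat_lit 1986) (nat_lit 331) (nat_lit 491) (nat_lit 1) .nil)), (nat_lit 48), (nat_lit 0), (nat_lit 0),
 (nat_lit 0), (3, 44, 11), [945, 713], 0⟩,
  ⟨⟨15, -52, 16, 10, -17, -60, 46, -4, -11⟩, (.cons (nat_lit 1485) (nat_lit 1170) (nat_lit 235) (nat_lit 1)
 (.cons (nat_lit 112) (nat_lit 1017) (nat_lit 916) (nat_lit 1) .nil)), (nat_lit 44), (nat_lit 0), (nat_lit 0),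
 (nat_lit 0), (14, 27, 50), [666, 1561], 0⟩,
  ⟨⟨-39, -28, -17, -10, -33, 50, 18, -36, -37⟩, (.cons (nat_lit 857) (nat_lit 611) (nat_lit 583) (nat_lit 1)
 (.cons (nat_lit 1024) (nat_lit 1384) (nat_lit 118) (nat_lit 1) .nil)), (nat_lit 38), (nat_lit 0), (nat_lit 0),
 (nat_lit 0), (5, 4, 14), [1803, 1627], 0⟩,
  ⟨⟨39, -28, -56, 10, -33, 40, -18, -36, -19⟩, (.cons (nat_lit 1508) (nat_lit 482) (nat_lit 1051) (nat_lit 1)
 (.cons (nat_lit 809) (nat_lit 444) (nat_lit 728) (nat_lit 1) .nil)), (nat_lit 38), (nat_lit 0), (nat_lit 0),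
 (nat_lit 0), (49, 18, 10), [900, 405], 0⟩,
  mz,
  ⟨⟨-13, -48, 40, 30, 17, 30, 30, -36, -23⟩, (.cons (nat_lit 453) (nat_lit 1329) (nat_lit 412) (nat_lit 1)
 (.cons (nat_lit 582) (nat_lit 495) (nat_lit 1650) (nat_lit 1) .nil)), (nat_lit 29), (nat_lit 0), (nat_lit 0),
 (nat_lit 0), (45, 47, 47), [17, 266], 0⟩]

/-- Moves. -/
noncomputable def t4_9 : List Mv := [
  mz,
  mz,
  mz,
  mz,
  ⟨⟨51, 20, -47, 10, -47, -30, -2, 20, -47⟩, (.cons (nat_lit 1385) (nat_lit 564) (nat_lit 1805) (nat_lit 1)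
 (.cons (nat_lit 121) (nat_lit 1189) (nat_lit 1520) (nat_lit 1) .nil)), (nat_lit 15), (nat_lit 0), (nat_lit 0),
 (nat_lit 0), (24, 39, 24), [54, 604], 0⟩,
  ⟨⟨51, -20, -47, 10, 47, -30, -2, -20, -47⟩, (.cons (nat_lit 775) (nat_lit 1195) (nat_lit 1015) (nat_lit 1)
 (.cons (nat_lit 2163) (nat_lit 880) (nat_lit 131) (nat_lit 1) .nil)), (nat_lit 15), (nat_lit 0), (nat_lit 0),
 (nat_lit 0), (12, 46, 12), [445, 2184], 0⟩,
  ⟨⟨25, -48, -36, 28, -5, 36, 40, 8, -47⟩, (.cons (nat_lit 534) (nat_lit 821) (nat_lit 352) (nat_lit 1) (.cons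
 (nat_lit 2188) (nat_lit 745) (nat_lit 2176) (nat_lit 1) .nil)), (nat_lit 40), (nat_lit 0), (nat_lit 0),
 (nat_lit 0), (37, 16, 38), [742, 1418], 0⟩,
  mz,
  mz,
  ⟨⟨57, -4, -17, 8, 45, -34, 24, -24, -49⟩, (.cons (nat_lit 1848) (nat_lit 1095) (nat_lit 257) (nat_lit 1)
 (.cons (nat_lit 2208) (nat_lit 1412) (nat_lit 1986) (nat_lit 1) .nil)), (nat_lit 9), (nat_lit 0), (nat_lit 0),
 (nat_lit 0), (7, 14, 42), [1014, 620], 0⟩,
  ⟨⟨-25, 48, -11, 28, -5, -64, -40, -8, -7⟩, (.cons (nat_lit 1837) (nat_lit 294) (nat_lit 1076) (nat_lit 1)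
 (.cons (nat_lit 714) (nat_lit 2040) (nat_lit 163) (nat_lit 1) .nil)), (nat_lit 36), (nat_lit 0), (nat_lit 0),
 (nat_lit 0), (52, 52, 9), [1713, 131], 0⟩,
  ⟨⟨15, -32, 44, 50, 17, -30, 14, -44, -19⟩, (.cons (nat_lit 1055) (nat_lit 330) (nat_lit 1744) (nat_lit 1)
 (.cons (nat_lit 1240) (nat_lit 1248) (nat_lit 88) (nat_lit 1) .nil)), (nat_lit 41), (nat_lit 0), (nat_lit 0),
 (nat_lit 0), (29, 26, 20), [1011, 507], 0⟩,
  ⟨⟨-51, 20, 4, -10, -47, -20, 2, 20, -49⟩, (.cons (nat_lit 980) (nat_lit 91) (nat_lit 1162) (nat_lit 1) (.cons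
 (nat_lit 1900) (nat_lit 1800) (nat_lit 924) (nat_lit 1) .nil)), (nat_lit 15), (nat_lit 0), (nat_lit 0),
 (nat_lit 0), (48, 25, 48), [1688, 369], 0⟩,
  mz,
  mz,
  ⟨⟨-51, -20, 4, -10, 47, -20, 2, -20, -49⟩, (.cons (nat_lit 1848) (nat_lit 1840) (nat_lit 146) (nat_lit 1)
 (.cons (nat_lit 2208) (nat_lit 1538) (nat_lit 386) (nat_lit 1) .nil)), (nat_lit 15), (nat_lit 0), (nat_lit 0),
 (nat_lit 0), (36, 32, 36), [1176, 539], 0⟩,
  ⟨⟨15, 52, 16, 10, 17, -60, 46, 4, -11⟩, (.cons (nat_lit 1833) (nat_lit 601) (nat_lit 519) (nat_lit 1) (.cons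
 (nat_lit 1187) (nat_lit 1139) (nat_lit 1495) (nat_lit 1) .nil)), (nat_lit 44), (nat_lit 0), (nat_lit 0),
 (nat_lit 0), (24, 16, 10), [646, 1120], 0⟩,
  ⟨⟨31, -48, -4, -10, -17, -50, 46, 4, -35⟩, (.cons (nat_lit 137) (nat_lit 464) (nat_lit 1469) (nat_lit 1)
 (.cons (nat_lit 991) (nat_lit 854) (nat_lit 2058) (nat_lit 1) .nil)), (nat_lit 11), (nat_lit 0), (nat_lit 0),
 (nat_lit 0), (18, 13, 25), [1828, 1632], 0⟩,
  ⟨⟨33, -20, -65, -8, 45, -26, -24, -24, -25⟩, (.cons (nat_lit 1848) (nat_lit 883) (nat_lit 1033) (nat_lit 1)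
 (.cons (nat_lit 2208) (nat_lit 1502) (nat_lit 1962) (nat_lit 1) .nil)), (nat_lit 18), (nat_lit 0), (nat_lit
 0), (nat_lit 0), (7, 24, 19), [1315, 1889], 0⟩,
  mz,
  mz,
  ⟨⟨57, 4, -17, 8, -45, -34, 24, 24, -49⟩, (.cons (nat_lit 649) (nat_lit 990) (nat_lit 1445) (nat_lit 1) (.cons
 (nat_lit 1587) (nat_lit 43) (nat_lit 629) (nat_lit 1) .nil)), (nat_lit 9), (nat_lit 0), (nat_lit 0), (nat_lit
 0), (20, 40, 14), [210, 319], 0⟩,
  ⟨⟨45, 28, -49, -28, 45, 14, 0, 0, -53⟩, (.cons (nat_lit 1678) (nat_lit 182) (nat_lit 776) (nat_lit 1) (.cons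
 (nat_lit 941) (nat_lit 2052) (nat_lit 1294) (nat_lit 1) .nil)), (nat_lit 31), (nat_lit 0), (nat_lit 0),
 (nat_lit 0), (24, 31, 0), [362, 226], 0⟩,
  mz,
  ⟨⟨43, -12, 20, 30, -17, -60, 30, 36, -7⟩, (.cons (nat_lit 281) (nat_lit 90) (nat_lit 534) (nat_lit 1) (.cons
 (nat_lit 1428) (nat_lit 1432) (nat_lit 512) (nat_lit 1) .nil)), (nat_lit 46), (nat_lit 0), (nat_lit 0),
 (nat_lit 0), (37, 48, 48), [843, 345], 0⟩,
  mz,
  ⟨⟨-25, -48, -11, 28, 5, -64, -40, 8, -7⟩, (.cons (nat_lit 870) (nat_lit 1407) (nat_lit 1608) (nat_lit 1)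
 (.cons (nat_lit 977) (nat_lit 464) (nat_lit 1078) (nat_lit 1) .nil)), (nat_lit 36), (nat_lit 0), (nat_lit 0),
 (nat_lit 0), (2, 2, 35), [784, 1202], 0⟩,
  mz,
  ⟨⟨-1, -48, 37, 52, 5, -16, 8, -40, -31⟩, (.cons (nat_lit 916) (nat_lit 1521) (nat_lit 1038) (nat_lit 1)
 (.cons (nat_lit 1001) (nat_lit 1373) (nat_lit 1791) (nat_lit 1) .nil)), (nat_lit 6), (nat_lit 0), (nat_lit 0),
 (nat_lit 0), (29, 29, 33), [1174, 451], 0⟩,
  ⟨⟨-13, 48, 40, -30, 17, -30, 30, 36, -23⟩, (.cons (nat_lit 1649) (nat_lit 1393) (nat_lit 1044) (nat_lit 1)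
 (.cons (nat_lit 1021) (nat_lit 466) (nat_lit 817) (nat_lit 1) .nil)), (nat_lit 52), (nat_lit 0), (nat_lit 0),
 (nat_lit 0), (42, 48, 5), [1417, 163], 0⟩,
  mz,
  ⟨⟨45, -28, -49, -28, -45, 14, 0, 0, -53⟩, (.cons (nat_lit 1848) (nat_lit 925) (nat_lit 1277) (nat_lit 1)
 (.cons (nat_lit 2208) (nat_lit 2100) (nat_lit 1178) (nat_lit 1) .nil)), (nat_lit 31), (nat_lit 0), (nat_lit
 0), (nat_lit 0), (39, 4, 0), [313, 1533], 0⟩,
  mz,
  ⟨⟨57, 8, -20, 10, -33, -50, 18, 36, -37⟩, (.cons (nat_lit 545) (nat_lit 433) (nat_lit 508) (nat_lit 1) (.cons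
 (nat_lit 127) (nat_lit 1539) (nat_lit 1746) (nat_lit 1) .nil)), (nat_lit 49), (nat_lit 0), (nat_lit 0),
 (nat_lit 0), (35, 8, 25), [1003, 561], 0⟩,
  mz,
  mz,
  ⟨⟨-9, 8, -59, 52, -5, -36, -8, -40, -23⟩, (.cons (nat_lit 154) (nat_lit 949) (nat_lit 706) (nat_lit 1) (.cons
 (nat_lit 1055) (nat_lit 1575) (nat_lit 337) (nat_lit 1) .nil)), (nat_lit 10), (nat_lit 0), (nat_lit 0),
 (nat_lit 0), (2, 12, 43), [1129, 1230], 0⟩,
  ⟨⟨-1, 48, 37, 52, -5, -16, 8, 40, -31⟩, (.cons (nat_lit 547) (nat_lit 1543) (nat_lit 397) (nat_lit 1) (.cons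
 (nat_lit 1607) (nat_lit 1582) (nat_lit 62) (nat_lit 1) .nil)), (nat_lit 6), (nat_lit 0), (nat_lit 0), (nat_lit
 0), (26, 26, 4), [1584, 554], 0⟩,
  ⟨⟨39, 28, -56, -10, -33, -40, -18, 36, -19⟩, (.cons (nat_lit 244) (nat_lit 728) (nat_lit 567) (nat_lit 1)
 (.cons (nat_lit 456) (nat_lit 764) (nat_lit 1591) (nat_lit 1) .nil)), (nat_lit 50), (nat_lit 0), (nat_lit 0),
 (nat_lit 0), (34, 47, 21), [229, 373], 0⟩,
  ⟨⟨25, 48, -36, 28, 5, 36, 40, -8, -47⟩, (.cons (nat_lit 1234) (nat_lit 658) (nat_lit 1792) (nat_lit 1) (.cons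
 (nat_lit 2101) (nat_lit 69) (nat_lit 2117) (nat_lit 1) .nil)), (nat_lit 40), (nat_lit 0), (nat_lit 0),
 (nat_lit 0), (34, 19, 12), [830, 1579], 0⟩,
  ⟨⟨-9, -8, -59, 52, 5, -36, -8, 40, -23⟩, (.cons (nat_lit 1730) (nat_lit 687) (nat_lit 204) (nat_lit 1) (.cons
 (nat_lit 84) (nat_lit 690) (nat_lit 27) (nat_lit 1) .nil)), (nat_lit 10), (nat_lit 0), (nat_lit 0), (nat_lit
 0), (29, 15, 14), [1171, 2142], 0⟩,
  ⟨⟨31, 48, -4, -10, 17, -50, 46, -4, -35⟩, (.cons (nat_lit 1176) (nat_lit 210) (nat_lit 1446) (nat_lit 1)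
 (.cons (nat_lit 269) (nat_lit 56) (nat_lit 627) (nat_lit 1) .nil)), (nat_lit 11), (nat_lit 0), (nat_lit 0),
 (nat_lit 0), (15, 2, 12), [822, 2164], 0⟩,
  ⟨⟨33, 20, -65, -8, -45, -26, -24, 24, -25⟩, (.cons (nat_lit 735) (nat_lit 1762) (nat_lit 490) (nat_lit 1)
 (.cons (nat_lit 1728) (nat_lit 1884) (nat_lit 1439) (nat_lit 1) .nil)), (nat_lit 18), (nat_lit 0), (nat_lit
 0), (nat_lit 0), (19, 50, 44), [38, 601], 0⟩,
  ⟨⟨15, 32, 44, 50, -17, -30, 14, 44, -19⟩, (.cons (nat_lit 94) (nat_lit 1669) (nat_lit 669) (nat_lit 1) (.cons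
 (nat_lit 1461) (nat_lit 843) (nat_lit 387) (nat_lit 1) .nil)), (nat_lit 41), (nat_lit 0), (nat_lit 0),
 (nat_lit 0), (27, 37, 4), [796, 1397], 0⟩,
  ⟨⟨-15, 32, 59, 50, 17, -20, -14, 44, -5⟩, (.cons (nat_lit 200) (nat_lit 221) (nat_lit 1162) (nat_lit 1)
 (.cons (nat_lit 765) (nat_lit 1443) (nat_lit 534) (nat_lit 1) .nil)), (nat_lit 17), (nat_lit 0), (nat_lit 0),
 (nat_lit 0), (6, 33, 48), [1338, 989], 0⟩,
  mz,
  ⟨⟨43, 12, 20, 30, 17, -60, 30, -36, -7⟩, (.cons (nat_lit 1848) (nat_lit 1265) (nat_lit 1537) (nat_lit 1)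
 (.cons (nat_lit 2208) (nat_lit 1162) (nat_lit 1395) (nat_lit 1) .nil)), (nat_lit 46), (nat_lit 0), (nat_lit
 0), (nat_lit 0), (23, 37, 37), [1599, 95], 0⟩,
  ⟨⟨-15, -32, 59, 50, -17, -20, -14, -44, -5⟩, (.cons (nat_lit 317) (nat_lit 458) (nat_lit 146) (nat_lit 1)
 (.cons (nat_lit 364) (nat_lit 844) (nat_lit 1478) (nat_lit 1) .nil)), (nat_lit 17), (nat_lit 0), (nat_lit 0),
 (nat_lit 0), (8, 44, 11), [1160, 1324], 0⟩,
  ⟨⟨15, -52, 16, 10, -17, -60, 46, -4, -11⟩, (.cons (nat_lit 1485) (nat_lit 1170) (nat_lit 235) (nat_lit 1)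
 (.cons (nat_lit 112) (nat_lit 1017) (nat_lit 916) (nat_lit 1) .nil)), (nat_lit 44), (nat_lit 0), (nat_lit 0),
 (nat_lit 0), (14, 27, 50), [666, 1561], 0⟩,
  ⟨⟨57, -8, -20, 10, 33, -50, 18, -36, -37⟩, (.cons (nat_lit 1848) (nat_lit 808) (nat_lit 1261) (nat_lit 1)
 (.cons (nat_lit 2208) (nat_lit 1220) (nat_lit 192) (nat_lit 1) .nil)), (nat_lit 49), (nat_lit 0), (nat_lit 0),
 (nat_lit 0), (9, 49, 14), [1072, 193], 0⟩,
  ⟨⟨39, -28, -56, -10, 33, -40, -18, -36, -19⟩, (.cons (nat_lit 1848) (nat_lit 396) (nat_lit 1706) (nat_lit 1)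
 (.cons (nat_lit 2208) (nat_lit 1412) (nat_lit 1030) (nat_lit 1) .nil)), (nat_lit 50), (nat_lit 0), (nat_lit
 0), (nat_lit 0), (49, 35, 10), [1545, 287], 0⟩,
  mz,
  ⟨⟨-13, -48, 40, -30, -17, -30, 30, -36, -23⟩, (.cons (nat_lit 1848) (nat_lit 614) (nat_lit 1467) (nat_lit 1)
 (.cons (nat_lit 2208) (nat_lit 1532) (nat_lit 388) (nat_lit 1) .nil)), (nat_lit 52), (nat_lit 0), (nat_lit 0),
 (nat_lit 0), (45, 6, 47), [164, 657], 0⟩]

/-- Moves. -/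
noncomputable def t4_10 : List Mv := [
  mz,
  mz,
  mz,
  mz,
  ⟨⟨-53, 0, 0, 10, -47, -30, -2, 20, -47⟩, (.cons (nat_lit 292) (nat_lit 726) (nat_lit 1289) (nat_lit 1) (.cons
 (nat_lit 396) (nat_lit 738) (nat_lit 2037) (nat_lit 1) .nil)), (nat_lit 5), (nat_lit 0), (nat_lit 0), (nat_lit
 0), (0, 39, 24), [1731, 2108], 0⟩,
  ⟨⟨51, -20, -47, 10, 47, -30, -2, -20, -47⟩, (.cons (nat_lit 775) (nat_lit 1195) (nat_lit 1015) (nat_lit 1)
 (.cons (nat_lit 2163) (nat_lit 880) (nat_lit 131) (nat_lit 1) .nil)), (nat_lit 15), (nat_lit 0), (nat_lit 0),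
 (nat_lit 0), (12, 46, 12), [445, 2184], 0⟩,
  ⟨⟨15, 56, -11, -28, 5, -36, 40, 8, -47⟩, (.cons (nat_lit 870) (nat_lit 614) (nat_lit 1101) (nat_lit 1) (.cons
 (nat_lit 1494) (nat_lit 899) (nat_lit 1554) (nat_lit 1) .nil)), (nat_lit 28), (nat_lit 0), (nat_lit 0),
 (nat_lit 0), (1, 37, 38), [784, 309], 0⟩,
  mz,
  mz,
  ⟨⟨-33, -20, -32, -8, -45, 34, 24, -24, -49⟩, (.cons (nat_lit 1236) (nat_lit 914) (nat_lit 1563) (nat_lit 1)
 (.cons (nat_lit 876) (nat_lit 1154) (nat_lit 1339) (nat_lit 1) .nil)), (nat_lit 42), (nat_lit 0), (nat_lit 0),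
 (nat_lit 0), (35, 39, 42), [1201, 1622], 0⟩,
  ⟨⟨-15, -56, 4, -28, 5, 64, -40, -8, -7⟩, (.cons (nat_lit 632) (nat_lit 374) (nat_lit 1476) (nat_lit 1) (.cons
 (nat_lit 597) (nat_lit 1012) (nat_lit 1831) (nat_lit 1) .nil)), (nat_lit 37), (nat_lit 0), (nat_lit 0),
 (nat_lit 0), (10, 1, 9), [1518, 921], 0⟩,
  ⟨⟨-1, -12, -63, -50, -17, 30, 14, -44, -19⟩, (.cons (nat_lit 1607) (nat_lit 1692) (nat_lit 1230) (nat_lit 1)
 (.cons (nat_lit 1163) (nat_lit 895) (nat_lit 684) (nat_lit 1) .nil)), (nat_lit 48), (nat_lit 0), (nat_lit 0),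
 (nat_lit 0), (44, 27, 20), [1117, 2170], 0⟩,
  ⟨⟨-51, 20, 4, -10, -47, -20, 2, 20, -49⟩, (.cons (nat_lit 980) (nat_lit 91) (nat_lit 1162) (nat_lit 1) (.cons
 (nat_lit 1900) (nat_lit 1800) (nat_lit 924) (nat_lit 1) .nil)), (nat_lit 15), (nat_lit 0), (nat_lit 0),
 (nat_lit 0), (48, 25, 48), [1688, 369], 0⟩,
  mz,
  mz,
  ⟨⟨-51, -20, 4, -10, 47, -20, 2, -20, -49⟩, (.cons (nat_lit 1848) (nat_lit 1840) (nat_lit 146) (nat_lit 1)
 (.cons (nat_lit 2208) (nat_lit 1538) (nat_lit 386) (nat_lit 1) .nil)), (nat_lit 15), (nat_lit 0), (nat_lit 0),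
 (nat_lit 0), (36, 32, 36), [1176, 539], 0⟩,
  ⟨⟨15, 52, 16, 10, 17, -60, 46, 4, -11⟩, (.cons (nat_lit 1833) (nat_lit 601) (nat_lit 519) (nat_lit 1) (.cons
 (nat_lit 1187) (nat_lit 1139) (nat_lit 1495) (nat_lit 1) .nil)), (nat_lit 44), (nat_lit 0), (nat_lit 0),
 (nat_lit 0), (24, 16, 10), [646, 1120], 0⟩,
  ⟨⟨31, -48, -4, -10, -17, -50, 46, 4, -35⟩, (.cons (nat_lit 137) (nat_lit 464) (nat_lit 1469) (nat_lit 1)
 (.cons (nat_lit 991) (nat_lit 854) (nat_lit 2058) (nat_lit 1) .nil)), (nat_lit 11), (nat_lit 0), (nat_lit 0),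
 (nat_lit 0), (18, 13, 25), [1828, 1632], 0⟩,
  ⟨⟨33, -20, -65, -8, 45, -26, -24, -24, -25⟩, (.cons (nat_lit 1848) (nat_lit 883) (nat_lit 1033) (nat_lit 1)
 (.cons (nat_lit 2208) (nat_lit 1502) (nat_lit 1962) (nat_lit 1) .nil)), (nat_lit 18), (nat_lit 0), (nat_lit
 0), (nat_lit 0), (7, 24, 19), [1315, 1889], 0⟩,
  mz,
  mz,
  ⟨⟨-33, 20, -32, 8, -45, -34, 24, 24, -49⟩, (.cons (nat_lit 1759) (nat_lit 128) (nat_lit 671) (nat_lit 1)
 (.cons (nat_lit 1045) (nat_lit 1179) (nat_lit 1052) (nat_lit 1) .nil)), (nat_lit 18), (nat_lit 0), (nat_lit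
 0), (nat_lit 0), (47, 40, 14), [898, 742], 0⟩,
  ⟨⟨45, 28, -49, 28, -45, -14, 0, 0, -53⟩, (.cons (nat_lit 1848) (nat_lit 1397) (nat_lit 443) (nat_lit 1)
 (.cons (nat_lit 2208) (nat_lit 2130) (nat_lit 1172) (nat_lit 1) .nil)), (nat_lit 22), (nat_lit 0), (nat_lit
 0), (nat_lit 0), (24, 22, 0), [1044, 922], 0⟩,
  mz,
  ⟨⟨-13, 48, -27, 30, -17, -60, 30, 36, -7⟩, (.cons (nat_lit 1267) (nat_lit 211) (nat_lit 491) (nat_lit 1)
 (.cons (nat_lit 217) (nat_lit 1623) (nat_lit 277) (nat_lit 1) .nil)), (nat_lit 29), (nat_lit 0), (nat_lit 0),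
 (nat_lit 0), (11, 48, 48), [585, 533], 0⟩,
  mz,
  ⟨⟨-25, -48, -11, 28, 5, -64, -40, 8, -7⟩, (.cons (nat_lit 870) (nat_lit 1407) (nat_lit 1608) (nat_lit 1)
 (.cons (nat_lit 977) (nat_lit 464) (nat_lit 1078) (nat_lit 1) .nil)), (nat_lit 36), (nat_lit 0), (nat_lit 0),
 (nat_lit 0), (2, 2, 35), [784, 1202], 0⟩,
  mz,
  ⟨⟨-1, -48, 37, 52, 5, -16, 8, -40, -31⟩, (.cons (nat_lit 916) (nat_lit 1521) (nat_lit 1038) (nat_lit 1)
 (.cons (nat_lit 1001) (nat_lit 1373) (nat_lit 1791) (nat_lit 1) .nil)), (nat_lit 6), (nat_lit 0), (nat_lit 0),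
 (nat_lit 0), (29, 29, 33), [1174, 451], 0⟩,
  ⟨⟨-13, 48, 40, -30, 17, -30, 30, 36, -23⟩, (.cons (nat_lit 1649) (nat_lit 1393) (nat_lit 1044) (nat_lit 1)
 (.cons (nat_lit 1021) (nat_lit 466) (nat_lit 817) (nat_lit 1) .nil)), (nat_lit 52), (nat_lit 0), (nat_lit 0),
 (nat_lit 0), (42, 48, 5), [1417, 163], 0⟩,
  mz,
  ⟨⟨45, -28, -49, 28, 45, -14, 0, 0, -53⟩, (.cons (nat_lit 173) (nat_lit 1796) (nat_lit 729) (nat_lit 1) (.cons
 (nat_lit 1270) (nat_lit 580) (nat_lit 116) (nat_lit 1) .nil)), (nat_lit 22), (nat_lit 0), (nat_lit 0),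
 (nat_lit 0), (39, 49, 0), [1007, 1683], 0⟩,
  mz,
  ⟨⟨-39, 28, -17, -10, 33, 50, 18, 36, -37⟩, (.cons (nat_lit 1506) (nat_lit 1134) (nat_lit 1830) (nat_lit 1)
 (.cons (nat_lit 48) (nat_lit 1625) (nat_lit 855) (nat_lit 1) .nil)), (nat_lit 38), (nat_lit 0), (nat_lit 0),
 (nat_lit 0), (43, 45, 25), [1416, 475], 0⟩,
  mz,
  mz,
  ⟨⟨-9, 8, -59, 52, -5, -36, -8, -40, -23⟩, (.cons (nat_lit 154) (nat_lit 949) (nat_lit 706) (nat_lit 1) (.cons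
 (nat_lit 1055) (nat_lit 1575) (nat_lit 337) (nat_lit 1) .nil)), (nat_lit 10), (nat_lit 0), (nat_lit 0),
 (nat_lit 0), (2, 12, 43), [1129, 1230], 0⟩,
  ⟨⟨-1, 48, 37, 52, -5, -16, 8, 40, -31⟩, (.cons (nat_lit 547) (nat_lit 1543) (nat_lit 397) (nat_lit 1) (.cons
 (nat_lit 1607) (nat_lit 1582) (nat_lit 62) (nat_lit 1) .nil)), (nat_lit 6), (nat_lit 0), (nat_lit 0), (nat_lit
 0), (26, 26, 4), [1584, 554], 0⟩,
  ⟨⟨39, 28, -56, -10, -33, -40, -18, 36, -19⟩, (.cons (nat_lit 244) (nat_lit 728) (nat_lit 567) (nat_lit 1)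
 (.cons (nat_lit 456) (nat_lit 764) (nat_lit 1591) (nat_lit 1) .nil)), (nat_lit 50), (nat_lit 0), (nat_lit 0),
 (nat_lit 0), (34, 47, 21), [229, 373], 0⟩,
  ⟨⟨15, -56, -11, -28, -5, -36, 40, -8, -47⟩, (.cons (nat_lit 1794) (nat_lit 867) (nat_lit 386) (nat_lit 1)
 (.cons (nat_lit 56) (nat_lit 686) (nat_lit 1106) (nat_lit 1) .nil)), (nat_lit 28), (nat_lit 0), (nat_lit 0),
 (nat_lit 0), (31, 34, 12), [1154, 1447], 0⟩,
  ⟨⟨-9, -8, -59, 52, 5, -36, -8, 40, -23⟩, (.cons (nat_lit 1730) (nat_lit 687) (nat_lit 204) (nat_lit 1) (.cons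
 (nat_lit 84) (nat_lit 690) (nat_lit 27) (nat_lit 1) .nil)), (nat_lit 10), (nat_lit 0), (nat_lit 0), (nat_lit
 0), (29, 15, 14), [1171, 2142], 0⟩,
  ⟨⟨31, 48, -4, 10, -17, 50, 46, -4, -35⟩, (.cons (nat_lit 1790) (nat_lit 474) (nat_lit 642) (nat_lit 1) (.cons
 (nat_lit 1704) (nat_lit 1587) (nat_lit 1043) (nat_lit 1) .nil)), (nat_lit 43), (nat_lit 0), (nat_lit 0),
 (nat_lit 0), (15, 51, 12), [1074, 196], 0⟩,
  ⟨⟨33, 20, -65, -8, -45, -26, -24, 24, -25⟩, (.cons (nat_lit 735) (nat_lit 1762) (nat_lit 490) (nat_lit 1)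
 (.cons (nat_lit 1728) (nat_lit 1884) (nat_lit 1439) (nat_lit 1) .nil)), (nat_lit 18), (nat_lit 0), (nat_lit
 0), (nat_lit 0), (19, 50, 44), [38, 601], 0⟩,
  ⟨⟨15, 32, 44, 50, -17, -30, 14, 44, -19⟩, (.cons (nat_lit 94) (nat_lit 1669) (nat_lit 669) (nat_lit 1) (.cons
 (nat_lit 1461) (nat_lit 843) (nat_lit 387) (nat_lit 1) .nil)), (nat_lit 41), (nat_lit 0), (nat_lit 0),
 (nat_lit 0), (27, 37, 4), [796, 1397], 0⟩,
  ⟨⟨1, 12, -64, 50, 17, -20, -14, 44, -5⟩, (.cons (nat_lit 574) (nat_lit 1456) (nat_lit 87) (nat_lit 1) (.cons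
 (nat_lit 927) (nat_lit 484) (nat_lit 1333) (nat_lit 1) .nil)), (nat_lit 48), (nat_lit 0), (nat_lit 0),
 (nat_lit 0), (42, 33, 48), [908, 472], 0⟩,
  mz,
  ⟨⟨43, 12, 20, 30, 17, -60, 30, -36, -7⟩, (.cons (nat_lit 1848) (nat_lit 1265) (nat_lit 1537) (nat_lit 1)
 (.cons (nat_lit 2208) (nat_lit 1162) (nat_lit 1395) (nat_lit 1) .nil)), (nat_lit 46), (nat_lit 0), (nat_lit
 0), (nat_lit 0), (23, 37, 37), [1599, 95], 0⟩,
  ⟨⟨-15, -32, 59, 50, -17, -20, -14, -44, -5⟩, (.cons (nat_lit 317) (nat_lit 458) (nat_lit 146) (nat_lit 1)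
 (.cons (nat_lit 364) (nat_lit 844) (nat_lit 1478) (nat_lit 1) .nil)), (nat_lit 17), (nat_lit 0), (nat_lit 0),
 (nat_lit 0), (8, 44, 11), [1160, 1324], 0⟩,
  ⟨⟨15, -52, 16, 10, -17, -60, 46, -4, -11⟩, (.cons (nat_lit 1485) (nat_lit 1170) (nat_lit 235) (nat_lit 1)
 (.cons (nat_lit 112) (nat_lit 1017) (nat_lit 916) (nat_lit 1) .nil)), (nat_lit 44), (nat_lit 0), (nat_lit 0),
 (nat_lit 0), (14, 27, 50), [666, 1561], 0⟩,
  ⟨⟨-39, -28, -17, 10, 33, -50, 18, -36, -37⟩, (.cons (nat_lit 517) (nat_lit 267) (nat_lit 616) (nat_lit 1)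
 (.cons (nat_lit 2069) (nat_lit 2164) (nat_lit 1508) (nat_lit 1) .nil)), (nat_lit 50), (nat_lit 0), (nat_lit
 0), (nat_lit 0), (5, 49, 14), [685, 1744], 0⟩,
  ⟨⟨-57, -8, 37, 10, -33, 40, -18, -36, -19⟩, (.cons (nat_lit 685) (nat_lit 593) (nat_lit 1696) (nat_lit 1)
 (.cons (nat_lit 2011) (nat_lit 1154) (nat_lit 164) (nat_lit 1) .nil)), (nat_lit 33), (nat_lit 0), (nat_lit 0),
 (nat_lit 0), (14, 18, 10), [1287, 1157], 0⟩,
  mz,
  ⟨⟨43, 12, -63, -30, -17, -30, 30, -36, -23⟩, (.cons (nat_lit 1463) (nat_lit 1837) (nat_lit 1338) (nat_lit 1)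
 (.cons (nat_lit 2022) (nat_lit 489) (nat_lit 1093) (nat_lit 1) .nil)), (nat_lit 24), (nat_lit 0), (nat_lit 0),
 (nat_lit 0), (2, 6, 47), [1540, 140], 0⟩]

/-- Moves. -/
noncomputable def t4_17 : List Mv := [
  mz,
  mz,
  mz,
  mz,
  ⟨⟨51, 20, -47, 10, -47, -30, -2, 20, -47⟩, (.cons (nat_lit 1385) (nat_lit 564) (nat_lit 1805) (nat_lit 1)
 (.cons (nat_lit 121) (nat_lit 1189) (nat_lit 1520) (nat_lit 1) .nil)), (nat_lit 15), (nat_lit 0), (nat_lit 0),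
 (nat_lit 0), (24, 39, 24), [54, 604], 0⟩,
  ⟨⟨-53, 0, 0, 10, 47, -30, -2, -20, -47⟩, (.cons (nat_lit 1848) (nat_lit 1729) (nat_lit 542) (nat_lit 1)
 (.cons (nat_lit 2208) (nat_lit 389) (nat_lit 178) (nat_lit 1) .nil)), (nat_lit 5), (nat_lit 0), (nat_lit 0),
 (nat_lit 0), (0, 46, 12), [531, 1479], 0⟩,
  ⟨⟨15, 56, -11, -28, 5, -36, 40, 8, -47⟩, (.cons (nat_lit 870) (nat_lit 614) (nat_lit 1101) (nat_lit 1) (.cons
 (nat_lit 1494) (nat_lit 899) (nat_lit 1554) (nat_lit 1) .nil)), (nat_lit 28), (nat_lit 0), (nat_lit 0),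
 (nat_lit 0), (1, 37, 38), [784, 309], 0⟩,
  mz,
  mz,
  ⟨⟨-33, -20, -32, 8, 45, -34, 24, -24, -49⟩, (.cons (nat_lit 904) (nat_lit 109) (nat_lit 85) (nat_lit 1)
 (.cons (nat_lit 283) (nat_lit 1972) (nat_lit 1704) (nat_lit 1) .nil)), (nat_lit 18), (nat_lit 0), (nat_lit 0),
 (nat_lit 0), (35, 14, 42), [627, 479], 0⟩,
  ⟨⟨-15, -56, 4, -28, 5, 64, -40, -8, -7⟩, (.cons (nat_lit 632) (nat_lit 374) (nat_lit 1476) (nat_lit 1) (.cons
 (nat_lit 597) (nat_lit 1012) (nat_lit 1831) (nat_lit 1) .nil)), (nat_lit 37), (nat_lit 0), (nat_lit 0),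
 (nat_lit 0), (10, 1, 9), [1518, 921], 0⟩,
  ⟨⟨15, -32, 44, 50, 17, -30, 14, -44, -19⟩, (.cons (nat_lit 1055) (nat_lit 330) (nat_lit 1744) (nat_lit 1)
 (.cons (nat_lit 1240) (nat_lit 1248) (nat_lit 88) (nat_lit 1) .nil)), (nat_lit 41), (nat_lit 0), (nat_lit 0),
 (nat_lit 0), (29, 26, 20), [1011, 507], 0⟩,
  ⟨⟨-51, 20, 4, 10, 47, 20, 2, 20, -49⟩, (.cons (nat_lit 1848) (nat_lit 816) (nat_lit 1701) (nat_lit 1) (.cons
 (nat_lit 2208) (nat_lit 802) (nat_lit 646) (nat_lit 1) .nil)), (nat_lit 12), (nat_lit 0), (nat_lit 0),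
 (nat_lit 0), (48, 28, 48), [1262, 1150], 0⟩,
  mz,
  mz,
  ⟨⟨53, 0, -53, 10, -47, 20, 2, -20, -49⟩, (.cons (nat_lit 1056) (nat_lit 1643) (nat_lit 239) (nat_lit 1)
 (.cons (nat_lit 712) (nat_lit 1688) (nat_lit 170) (nat_lit 1) .nil)), (nat_lit 4), (nat_lit 0), (nat_lit 0),
 (nat_lit 0), (0, 21, 36), [961, 268], 0⟩,
  ⟨⟨15, 52, 16, 10, 17, -60, 46, 4, -11⟩, (.cons (nat_lit 1833) (nat_lit 601) (nat_lit 519) (nat_lit 1) (.cons
 (nat_lit 1187) (nat_lit 1139) (nat_lit 1495) (nat_lit 1) .nil)), (nat_lit 44), (nat_lit 0), (nat_lit 0),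
 (nat_lit 0), (24, 16, 10), [646, 1120], 0⟩,
  ⟨⟨15, 52, -31, 10, 17, 50, 46, 4, -35⟩, (.cons (nat_lit 1396) (nat_lit 267) (nat_lit 1270) (nat_lit 1) (.cons
 (nat_lit 1721) (nat_lit 1722) (nat_lit 2139) (nat_lit 1) .nil)), (nat_lit 44), (nat_lit 0), (nat_lit 0),
 (nat_lit 0), (7, 40, 25), [538, 836], 0⟩,
  ⟨⟨-57, -4, 40, -8, 45, -26, -24, -24, -25⟩, (.cons (nat_lit 947) (nat_lit 321) (nat_lit 861) (nat_lit 1)
 (.cons (nat_lit 1928) (nat_lit 1882) (nat_lit 1680) (nat_lit 1) .nil)), (nat_lit 9), (nat_lit 0), (nat_lit 0),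
 (nat_lit 0), (12, 24, 19), [1702, 2030], 0⟩,
  mz,
  mz,
  ⟨⟨-33, 20, -32, 8, -45, -34, 24, 24, -49⟩, (.cons (nat_lit 1759) (nat_lit 128) (nat_lit 671) (nat_lit 1)
 (.cons (nat_lit 1045) (nat_lit 1179) (nat_lit 1052) (nat_lit 1) .nil)), (nat_lit 18), (nat_lit 0), (nat_lit
 0), (nat_lit 0), (47, 40, 14), [898, 742], 0⟩,
  ⟨⟨45, 28, -49, 28, -45, -14, 0, 0, -53⟩, (.cons (nat_lit 1848) (nat_lit 1397) (nat_lit 443) (nat_lit 1)
 (.cons (nat_lit 2208) (nat_lit 2130) (nat_lit 1172) (nat_lit 1) .nil)), (nat_lit 22), (nat_lit 0), (nat_lit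
 0), (nat_lit 0), (24, 22, 0), [1044, 922], 0⟩,
  mz,
  ⟨⟨43, -12, 20, -30, 17, 60, 30, 36, -7⟩, (.cons (nat_lit 1848) (nat_lit 1493) (nat_lit 554) (nat_lit 1)
 (.cons (nat_lit 2208) (nat_lit 1664) (nat_lit 364) (nat_lit 1) .nil)), (nat_lit 24), (nat_lit 0), (nat_lit 0),
 (nat_lit 0), (37, 5, 48), [1427, 753], 0⟩,
  mz,
  ⟨⟨-15, 56, 4, -28, -5, 64, -40, 8, -7⟩, (.cons (nat_lit 18) (nat_lit 856) (nat_lit 895) (nat_lit 1) (.cons
 (nat_lit 1530) (nat_lit 618) (nat_lit 174) (nat_lit 1) .nil)), (nat_lit 37), (nat_lit 0), (nat_lit 0),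
 (nat_lit 0), (33, 51, 35), [1215, 619], 0⟩,
  mz,
  ⟨⟨-1, -48, 37, 52, 5, -16, 8, -40, -31⟩, (.cons (nat_lit 916) (nat_lit 1521) (nat_lit 1038) (nat_lit 1)
 (.cons (nat_lit 1001) (nat_lit 1373) (nat_lit 1791) (nat_lit 1) .nil)), (nat_lit 6), (nat_lit 0), (nat_lit 0),
 (nat_lit 0), (29, 29, 33), [1174, 451], 0⟩,
  ⟨⟨43, -12, -63, -30, 17, -30, 30, 36, -23⟩, (.cons (nat_lit 1490) (nat_lit 1789) (nat_lit 614) (nat_lit 1)
 (.cons (nat_lit 906) (nat_lit 756) (nat_lit 864) (nat_lit 1) .nil)), (nat_lit 24), (nat_lit 0), (nat_lit 0),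
 (nat_lit 0), (16, 48, 5), [1288, 116], 0⟩,
  mz,
  ⟨⟨-45, 28, -4, -28, -45, 14, 0, 0, -53⟩, (.cons (nat_lit 1119) (nat_lit 881) (nat_lit 546) (nat_lit 1) (.cons
 (nat_lit 1881) (nat_lit 861) (nat_lit 614) (nat_lit 1) .nil)), (nat_lit 22), (nat_lit 0), (nat_lit 0),
 (nat_lit 0), (14, 4, 0), [227, 1627], 0⟩,
  mz,
  ⟨⟨-39, 28, -17, 10, -33, -50, 18, 36, -37⟩, (.cons (nat_lit 745) (nat_lit 126) (nat_lit 1196) (nat_lit 1)
 (.cons (nat_lit 1283) (nat_lit 1657) (nat_lit 1652) (nat_lit 1) .nil)), (nat_lit 50), (nat_lit 0), (nat_lit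
 0), (nat_lit 0), (43, 8, 25), [401, 279], 0⟩,
  mz,
  mz,
  ⟨⟨-9, 8, -59, 52, -5, -36, -8, -40, -23⟩, (.cons (nat_lit 154) (nat_lit 949) (nat_lit 706) (nat_lit 1) (.cons
 (nat_lit 1055) (nat_lit 1575) (nat_lit 337) (nat_lit 1) .nil)), (nat_lit 10), (nat_lit 0), (nat_lit 0),
 (nat_lit 0), (2, 12, 43), [1129, 1230], 0⟩,
  ⟨⟨9, -8, -68, 52, -5, -16, 8, 40, -31⟩, (.cons (nat_lit 1130) (nat_lit 1596) (nat_lit 53) (nat_lit 1) (.cons
 (nat_lit 1965) (nat_lit 580) (nat_lit 485) (nat_lit 1) .nil)), (nat_lit 26), (nat_lit 0), (nat_lit 0),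
 (nat_lit 0), (31, 26, 4), [466, 37], 0⟩,
  ⟨⟨39, 28, -56, -10, -33, -40, -18, 36, -19⟩, (.cons (nat_lit 244) (nat_lit 728) (nat_lit 567) (nat_lit 1)
 (.cons (nat_lit 456) (nat_lit 764) (nat_lit 1591) (nat_lit 1) .nil)), (nat_lit 50), (nat_lit 0), (nat_lit 0),
 (nat_lit 0), (34, 47, 21), [229, 373], 0⟩,
  ⟨⟨15, -56, -11, -28, -5, -36, 40, -8, -47⟩, (.cons (nat_lit 1794) (nat_lit 867) (nat_lit 386) (nat_lit 1)
 (.cons (nat_lit 56) (nat_lit 686) (nat_lit 1106) (nat_lit 1) .nil)), (nat_lit 28), (nat_lit 0), (nat_lit 0),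
 (nat_lit 0), (31, 34, 12), [1154, 1447], 0⟩,
  ⟨⟨1, 48, 36, 52, 5, -36, -8, 40, -23⟩, (.cons (nat_lit 463) (nat_lit 431) (nat_lit 505) (nat_lit 1) (.cons
 (nat_lit 1984) (nat_lit 62) (nat_lit 1390) (nat_lit 1) .nil)), (nat_lit 39), (nat_lit 0), (nat_lit 0),
 (nat_lit 0), (38, 15, 14), [698, 2001], 0⟩,
  ⟨⟨15, -52, -31, -10, 17, -50, 46, -4, -35⟩, (.cons (nat_lit 544) (nat_lit 1080) (nat_lit 672) (nat_lit 1)
 (.cons (nat_lit 2175) (nat_lit 132) (nat_lit 2037) (nat_lit 1) .nil)), (nat_lit 47), (nat_lit 0), (nat_lit 0),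
 (nat_lit 0), (50, 2, 12), [564, 2023], 0⟩,
  ⟨⟨-57, 4, 40, -8, -45, -26, -24, 24, -25⟩, (.cons (nat_lit 555) (nat_lit 1205) (nat_lit 1565) (nat_lit 1)
 (.cons (nat_lit 58) (nat_lit 1547) (nat_lit 1862) (nat_lit 1) .nil)), (nat_lit 9), (nat_lit 0), (nat_lit 0),
 (nat_lit 0), (25, 50, 44), [1199, 178], 0⟩,
  ⟨⟨15, 32, 44, 50, -17, -30, 14, 44, -19⟩, (.cons (nat_lit 94) (nat_lit 1669) (nat_lit 669) (nat_lit 1) (.cons
 (nat_lit 1461) (nat_lit 843) (nat_lit 387) (nat_lit 1) .nil)), (nat_lit 41), (nat_lit 0), (nat_lit 0),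
 (nat_lit 0), (27, 37, 4), [796, 1397], 0⟩,
  ⟨⟨1, 12, -64, -50, -17, 20, -14, 44, -5⟩, (.cons (nat_lit 1040) (nat_lit 1771) (nat_lit 148) (nat_lit 1)
 (.cons (nat_lit 897) (nat_lit 1084) (nat_lit 2057) (nat_lit 1) .nil)), (nat_lit 16), (nat_lit 0), (nat_lit 0),
 (nat_lit 0), (42, 20, 48), [1312, 1679], 0⟩,
  mz,
  ⟨⟨-13, -48, -27, 30, 17, -60, 30, -36, -7⟩, (.cons (nat_lit 904) (nat_lit 627) (nat_lit 1408) (nat_lit 1)
 (.cons (nat_lit 518) (nat_lit 107) (nat_lit 2100) (nat_lit 1) .nil)), (nat_lit 29), (nat_lit 0), (nat_lit 0),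
 (nat_lit 0), (14, 37, 37), [1384, 565], 0⟩,
  ⟨⟨-15, -32, 59, 50, -17, -20, -14, -44, -5⟩, (.cons (nat_lit 317) (nat_lit 458) (nat_lit 146) (nat_lit 1)
 (.cons (nat_lit 364) (nat_lit 844) (nat_lit 1478) (nat_lit 1) .nil)), (nat_lit 17), (nat_lit 0), (nat_lit 0),
 (nat_lit 0), (8, 44, 11), [1160, 1324], 0⟩,
  ⟨⟨15, -52, 16, 10, -17, -60, 46, -4, -11⟩, (.cons (nat_lit 1485) (nat_lit 1170) (nat_lit 235) (nat_lit 1)
 (.cons (nat_lit 112) (nat_lit 1017) (nat_lit 916) (nat_lit 1) .nil)), (nat_lit 44), (nat_lit 0), (nat_lit 0),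
 (nat_lit 0), (14, 27, 50), [666, 1561], 0⟩,
  ⟨⟨-39, -28, -17, 10, 33, -50, 18, -36, -37⟩, (.cons (nat_lit 517) (nat_lit 267) (nat_lit 616) (nat_lit 1)
 (.cons (nat_lit 2069) (nat_lit 2164) (nat_lit 1508) (nat_lit 1) .nil)), (nat_lit 50), (nat_lit 0), (nat_lit
 0), (nat_lit 0), (5, 49, 14), [685, 1744], 0⟩,
  ⟨⟨39, -28, -56, -10, 33, -40, -18, -36, -19⟩, (.cons (nat_lit 1848) (nat_lit 396) (nat_lit 1706) (nat_lit 1)
 (.cons (nat_lit 2208) (nat_lit 1412) (nat_lit 1030) (nat_lit 1) .nil)), (nat_lit 50), (nat_lit 0), (nat_lit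
 0), (nat_lit 0), (49, 35, 10), [1545, 287], 0⟩,
  mz,
  ⟨⟨43, 12, -63, -30, -17, -30, 30, -36, -23⟩, (.cons (nat_lit 1463) (nat_lit 1837) (nat_lit 1338) (nat_lit 1)
 (.cons (nat_lit 2022) (nat_lit 489) (nat_lit 1093) (nat_lit 1) .nil)), (nat_lit 24), (nat_lit 0), (nat_lit 0),
 (nat_lit 0), (2, 6, 47), [1540, 140], 0⟩]

/-- All the moves. -/
noncomputable def tabs : List (List (List Mv)) := [[[], t0_1, [], [], t0_4, [], t0_6, t0_7, [], t0_9, t0_10,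
 [], [], [], [], [], [], t0_17], [[], t1_1, [], [], t1_4, [], t1_6, t1_7, [], t1_9, t1_10, [], [], [], [], [],
 [], t1_17], [], [], [[], t4_1, [], [], t4_4, [], t4_6, t4_7, [], t4_9, t4_10, [], [], [], [], [], [], t4_17]]

/-- Subtrie. -/
noncomputable def T1 : Tr := (.ev (nat_lit 20) (nat_lit 574504307200528) (.nd (nat_lit 33) (.br (nat_lit 25)
 (.br (nat_lit 14) (.br (nat_lit 5) (.br (nat_lit 2) (.ch (nat_lit 1) (.ev (nat_lit 52) (nat_lit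
 21992384235552) (.ev (nat_lit 116) (nat_lit 1266912273104896) (.ev (nat_lit 148) (nat_lit 4503599627370496)
 (.ev (nat_lit 244) (nat_lit 64) (.nd (nat_lit 576) (.br (nat_lit 17) (.br (nat_lit 11) (.br (nat_lit 4) (.ch
 (nat_lit 2) (.ev (nat_lit 592) (nat_lit 71605694792704) (.ev (nat_lit 660) (nat_lit 68719476736) (.ev (nat_lit
 669) (nat_lit 281474976710656) .dd)))) (.br (nat_lit 5) (.ch (nat_lit 4) (.ev (nat_lit 592) (nat_lit
 353149390980096) .dd)) (.ch (nat_lit 5) (.ev (nat_lit 592) (nat_lit 353149390980096) .dd)))) (.br (nat_lit 13)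
 (.ch (nat_lit 11) (.ev (nat_lit 592) (nat_lit 71674414268416) (.ev (nat_lit 672) (nat_lit 281474976710656)
 (.ev (nat_lit 685) (nat_lit 1024) .dd)))) (.br (nat_lit 16) (.ch (nat_lit 13) (.ev (nat_lit 592) (nat_lit
 353149390980096) .dd)) (.ch (nat_lit 16) (.ev (nat_lit 592) (nat_lit 351981159875584) (.ev (nat_lit 660)
 (nat_lit 1099511627776) (.ev (nat_lit 669) (nat_lit 68719476736) .dd))))))) (.br (nat_lit 28) (.br (nat_lit
 19) (.ch (nat_lit 17) (.ev (nat_lit 592) (nat_lit 70506183163904) (.ev (nat_lit 660) (nat_lit 68719476736)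
 (.ev (nat_lit 804) (nat_lit 1024) (.fin (nat_lit 576474496213926468)))))) (.br (nat_lit 27) (.ch (nat_lit 19)
 (.ev (nat_lit 592) (nat_lit 71536975315968) (.ev (nat_lit 608) (nat_lit 281474976710656) (.ev (nat_lit 621)
 (nat_lit 137438953472) .dd)))) (.ch (nat_lit 27) (.ev (nat_lit 592) (nat_lit 353149390980096) .dd)))) (.br
 (nat_lit 31) (.br (nat_lit 29) (.ch (nat_lit 28) (.ev (nat_lit 592) (nat_lit 281681135174656) (.ev (nat_lit
 608) (nat_lit 1099511627776) (.ev (nat_lit 621) (nat_lit 70368744177664) .dd)))) (.ch (nat_lit 29) (.ev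
 (nat_lit 592) (nat_lit 353149390980096) .dd))) (.br (nat_lit 40) (.ch (nat_lit 31) (.ev (nat_lit 592) (nat_lit
 353149390979072) (.ev (nat_lit 605) (nat_lit 1024) .dd))) (.ch (nat_lit 40) (.ev (nat_lit 592) (nat_lit
 353149390946304) (.ev (nat_lit 720) (nat_lit 32768) (.ev (nat_lit 733) (nat_lit 1024) .dd)))))))))))))) (.br
 (nat_lit 3) (.ch (nat_lit 2) (.ev (nat_lit 52) (nat_lit 1618893432979488) (.ev (nat_lit 116) (nat_lit
 1168231106560) (.ev (nat_lit 148) (nat_lit 4521191813415936) (.nd (nat_lit 576) (.br (nat_lit 17) (.br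
 (nat_lit 6) (.br (nat_lit 4) (.ch (nat_lit 2) (.ev (nat_lit 592) (nat_lit 4400198189056) (.ev (nat_lit 605)
 (nat_lit 64) .dd))) (.ch (nat_lit 4) (.ev (nat_lit 592) (nat_lit 4398050705472) (.ev (nat_lit 605) (nat_lit
 2147483648) .dd)))) (.br (nat_lit 7) (.ch (nat_lit 6) (.ev (nat_lit 592) (nat_lit 4400198189120) .dd)) (.br
 (nat_lit 14) (.ch (nat_lit 7) (.ev (nat_lit 592) (nat_lit 4400198189120) .dd)) (.ch (nat_lit 14) (.ev (nat_lit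
 592) (nat_lit 2151678016) (.ev (nat_lit 605) (nat_lit 4398046511104) .dd)))))) (.br (nat_lit 29) (.br (nat_lit
 18) (.ch (nat_lit 17) (.ev (nat_lit 592) (nat_lit 2151677952) (.ev (nat_lit 804) (nat_lit 64) (.ev (nat_lit
 813) (nat_lit 4398046511104) .dd)))) (.br (nat_lit 21) (.ch (nat_lit 18) (.ev (nat_lit 592) (nat_lit
 4400193994816) (.ev (nat_lit 605) (nat_lit 4194304) .dd))) (.ch (nat_lit 21) (.ev (nat_lit 688) (nat_lit
 2147483648) (.ev (nat_lit 804) (nat_lit 4194368) (.ev (nat_lit 813) (nat_lit 4398046511104) .dd)))))) (.br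
 (nat_lit 38) (.ch (nat_lit 29) (.ev (nat_lit 592) (nat_lit 4400193994816) (.ev (nat_lit 605) (nat_lit 4194304)
 .dd))) (.br (nat_lit 40) (.ch (nat_lit 38) (.ev (nat_lit 592) (nat_lit 4400193994816) (.ev (nat_lit 605)
 (nat_lit 4194304) .dd))) (.ch (nat_lit 40) (.ev (nat_lit 592) (nat_lit 4400198189120) .dd))))))))))) (.ch
 (nat_lit 3) (.ev (nat_lit 52) (nat_lit 1127001565957184) (.ev (nat_lit 116) (nat_lit 70368744177664) (.ev
 (nat_lit 148) (nat_lit 281474976710688) (.ev (nat_lit 244) (nat_lit 158329674432512) (.ev (nat_lit 276)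
 (nat_lit 4503599627370496) (.nd (nat_lit 576) (.br (nat_lit 19) (.br (nat_lit 11) (.br (nat_lit 7) (.ch
 (nat_lit 5) (.ev (nat_lit 592) (nat_lit 481040531456) (.ev (nat_lit 605) (nat_lit 4398046511104) .dd))) (.ch
 (nat_lit 7) (.ev (nat_lit 592) (nat_lit 4194304) (.ev (nat_lit 660) (nat_lit 68719476736) (.ev (nat_lit 816)
 (nat_lit 274877906944) (.fin (nat_lit 576471197680091710))))))) (.br (nat_lit 16) (.ch (nat_lit 11) (.ev
 (nat_lit 592) (nat_lit 4879087042560) .dd)) (.br (nat_lit 17) (.ch (nat_lit 16) (.ev (nat_lit 592) (nat_lit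
 4604209135616) (.ev (nat_lit 605) (nat_lit 274877906944) .dd))) (.ch (nat_lit 17) (.ev (nat_lit 592) (nat_lit
 4535489658880) (.ev (nat_lit 608) (nat_lit 274877906944) (.ev (nat_lit 621) (nat_lit 68719476736) .dd)))))))
 (.br (nat_lit 28) (.br (nat_lit 20) (.ch (nat_lit 19) (.ev (nat_lit 592) (nat_lit 481040531456) (.ev (nat_lit
 605) (nat_lit 4398046511104) .dd))) (.br (nat_lit 21) (.ch (nat_lit 20) (.ev (nat_lit 592) (nat_lit
 481040531456) (.ev (nat_lit 605) (nat_lit 4398046511104) .dd))) (.ch (nat_lit 21) (.ev (nat_lit 592) (nat_lit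
 4879082848256) (.ev (nat_lit 605) (nat_lit 4194304) .dd))))) (.br (nat_lit 30) (.ch (nat_lit 28) (.ev (nat_lit
 592) (nat_lit 4741648089088) (.ev (nat_lit 605) (nat_lit 137438953472) .dd))) (.br (nat_lit 34) (.ch (nat_lit
 30) (.ev (nat_lit 592) (nat_lit 4741643894784) (.ev (nat_lit 672) (nat_lit 137443147776) .dd))) (.ch (nat_lit
 34) (.ev (nat_lit 592) (nat_lit 4810367565824) (.ev (nat_lit 605) (nat_lit 68719476736) .dd))))))))))))))))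
 (.br (nat_lit 11) (.br (nat_lit 9) (.ch (nat_lit 5) (.ev (nat_lit 52) (nat_lit 159706215614496) (.ev (nat_lit
 96) (nat_lit 5985947460076608) .dd))) (.ch (nat_lit 9) (.ev (nat_lit 52) (nat_lit 217084831239168) (.ev
 (nat_lit 84) (nat_lit 281474976710688) (.ev (nat_lit 224) (nat_lit 5647093867741248) .dd))))) (.br (nat_lit
 12) (.ch (nat_lit 11) (.ev (nat_lit 52) (nat_lit 4526070900457536) (.ev (nat_lit 84) (nat_lit 140737488355328)
 (.ev (nat_lit 180) (nat_lit 1125899906842624) (.ev (nat_lit 212) (nat_lit 1024) (.ev (nat_lit 276) (nat_lit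
 2147483648) (.nd (nat_lit 576) (.br (nat_lit 16) (.br (nat_lit 8) (.br (nat_lit 3) (.ch (nat_lit 2) (.ev
 (nat_lit 592) (nat_lit 352943232550912) (.ev (nat_lit 605) (nat_lit 32) .dd))) (.br (nat_lit 5) (.ch (nat_lit
 3) (.ev (nat_lit 592) (nat_lit 71468255807520) (.ev (nat_lit 640) (nat_lit 281474976710656) (.ev (nat_lit 653)
 (nat_lit 32768) .dd)))) (.ch (nat_lit 5) (.ev (nat_lit 592) (nat_lit 282574488371232) (.ev (nat_lit 688)
 (nat_lit 2048) (.ev (nat_lit 701) (nat_lit 70368744177664) .dd)))))) (.br (nat_lit 11) (.ch (nat_lit 8) (.ev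
 (nat_lit 592) (nat_lit 282574488371232) (.ev (nat_lit 660) (nat_lit 70368744177664) (.ev (nat_lit 669)
 (nat_lit 2048) .dd)))) (.br (nat_lit 13) (.ch (nat_lit 11) (.ev (nat_lit 592) (nat_lit 352943232550944) .dd))
 (.ch (nat_lit 13) (.ev (nat_lit 592) (nat_lit 352943232548896) (.ev (nat_lit 605) (nat_lit 2048) .dd))))))
 (.br (nat_lit 20) (.br (nat_lit 18) (.ch (nat_lit 16) (.ev (nat_lit 592) (nat_lit 352943232550944) .dd)) (.br
 (nat_lit 19) (.ch (nat_lit 18) (.ev (nat_lit 592) (nat_lit 1099511660576) (.ev (nat_lit 660) (nat_lit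
 70368744179712) (.ev (nat_lit 669) (nat_lit 281474976710656) .dd)))) (.ch (nat_lit 19) (.ev (nat_lit 592)
 (nat_lit 351843720923136) (.ev (nat_lit 660) (nat_lit 1099511627776) (.ev (nat_lit 669) (nat_lit 32) .dd))))))
 (.br (nat_lit 28) (.br (nat_lit 21) (.ch (nat_lit 20) (.ev (nat_lit 592) (nat_lit 352943232548896) (.ev
 (nat_lit 605) (nat_lit 2048) .dd))) (.ch (nat_lit 21) (.ev (nat_lit 592) (nat_lit 352943232550944) .dd))) (.br
 (nat_lit 38) (.ch (nat_lit 28) (.ev (nat_lit 592) (nat_lit 352943232550944) .dd)) (.ch (nat_lit 38) (.ev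
 (nat_lit 592) (nat_lit 281474976712736) (.ev (nat_lit 672) (nat_lit 70368744177664) (.ev (nat_lit 932)
 (nat_lit 32768) (.ev (nat_lit 941) (nat_lit 1099511627776) .dd)))))))))))))))) (.ch (nat_lit 12) (.ev (nat_lit
 52) (nat_lit 5700005717378048) (.ev (nat_lit 84) (nat_lit 4398046511104) (.ev (nat_lit 116) (nat_lit 2048)
 (.ev (nat_lit 148) (nat_lit 274877906944) (.ev (nat_lit 180) (nat_lit 68723671040) (.ev (nat_lit 244) (nat_lit
 17592186044416) (.nd (nat_lit 576) (.br (nat_lit 27) (.br (nat_lit 14) (.br (nat_lit 8) (.ch (nat_lit 6) (.ev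
 (nat_lit 592) (nat_lit 423311976693856) (.ev (nat_lit 605) (nat_lit 2147483648) .dd))) (.br (nat_lit 13) (.ch
 (nat_lit 8) (.ev (nat_lit 592) (nat_lit 423314124177472) (.ev (nat_lit 605) (nat_lit 32) .dd))) (.ch (nat_lit
 13) (.ev (nat_lit 592) (nat_lit 282576635822176) (.ev (nat_lit 605) (nat_lit 140737488355328) .dd))))) (.br
 (nat_lit 17) (.ch (nat_lit 14) (.ev (nat_lit 592) (nat_lit 141836999983136) (.ev (nat_lit 660) (nat_lit
 281477124194304) (.ev (nat_lit 669) (nat_lit 64) .dd)))) (.br (nat_lit 19) (.ch (nat_lit 17) (.ev (nat_lit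
 592) (nat_lit 140739635838976) (.ev (nat_lit 660) (nat_lit 64) (.ev (nat_lit 816) (nat_lit 32) (.fin (nat_lit
 576474496213926468)))))) (.ch (nat_lit 19) (.ev (nat_lit 592) (nat_lit 423314124177472) (.ev (nat_lit 605)
 (nat_lit 32) .dd)))))) (.br (nat_lit 30) (.br (nat_lit 28) (.ch (nat_lit 27) (.ev (nat_lit 592) (nat_lit
 423314124177504) .dd)) (.br (nat_lit 29) (.ch (nat_lit 28) (.ev (nat_lit 592) (nat_lit 423314124177504) .dd))
 (.ch (nat_lit 29) (.ev (nat_lit 592) (nat_lit 141839147466848) (.ev (nat_lit 605) (nat_lit 281474976710656)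
 .dd))))) (.br (nat_lit 38) (.br (nat_lit 34) (.ch (nat_lit 30) (.ev (nat_lit 592) (nat_lit 282576635822176)
 (.ev (nat_lit 605) (nat_lit 140737488355328) .dd))) (.ch (nat_lit 34) (.ev (nat_lit 592) (nat_lit
 422214612549664) (.ev (nat_lit 660) (nat_lit 64) (.ev (nat_lit 669) (nat_lit 1099511627776) .dd))))) (.br
 (nat_lit 40) (.ch (nat_lit 38) (.ev (nat_lit 592) (nat_lit 422212465066048) (.ev (nat_lit 672) (nat_lit
 1099511627776) (.ev (nat_lit 704) (nat_lit 32) (.ev (nat_lit 717) (nat_lit 2147483648) .dd))))) (.ch (nat_lit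
 40) (.ev (nat_lit 592) (nat_lit 281477124194400) (.ev (nat_lit 608) (nat_lit 1099511627776) (.ev (nat_lit 621)
 (nat_lit 140737488355328) .dd))))))))))))))))))) (.br (nat_lit 19) (.br (nat_lit 16) (.br (nat_lit 15) (.ch
 (nat_lit 14) (.ev (nat_lit 52) (nat_lit 4855786949869664) (.ev (nat_lit 84) (nat_lit 4398046511104) (.ev
 (nat_lit 148) (nat_lit 158329674399744) (.ev (nat_lit 192) (nat_lit 1127139004910592) .dd))))) (.ch (nat_lit
 15) (.ev (nat_lit 52) (nat_lit 352052030997504) (.ev (nat_lit 84) (nat_lit 4672924418048) (.ev (nat_lit 116)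
 (nat_lit 2048) (.ev (nat_lit 160) (nat_lit 5788928720273504) .dd)))))) (.br (nat_lit 18) (.ch (nat_lit 16)
 (.ev (nat_lit 52) (nat_lit 4504907449106528) (.ev (nat_lit 84) (nat_lit 274877906944) (.ev (nat_lit 148)
 (nat_lit 32768) (.ev (nat_lit 372) (nat_lit 140737488355328) (.nd (nat_lit 576) (.br (nat_lit 20) (.br
 (nat_lit 11) (.br (nat_lit 7) (.ch (nat_lit 6) (.ev (nat_lit 592) (nat_lit 1499733860289536) .dd)) (.br
 (nat_lit 8) (.ch (nat_lit 7) (.ev (nat_lit 592) (nat_lit 373833953445888) (.ev (nat_lit 624) (nat_lit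
 1125899906843648) .dd))) (.ch (nat_lit 8) (.ev (nat_lit 592) (nat_lit 1495335813776384) (.ev (nat_lit 688)
 (nat_lit 4398046511104) (.ev (nat_lit 701) (nat_lit 2048) .dd)))))) (.br (nat_lit 16) (.br (nat_lit 14) (.ch
 (nat_lit 11) (.ev (nat_lit 592) (nat_lit 1218258883577856) (.ev (nat_lit 672) (nat_lit 281474976710656) (.ev
 (nat_lit 685) (nat_lit 1024) .dd)))) (.ch (nat_lit 14) (.ev (nat_lit 592) (nat_lit 1495335813775360) (.ev
 (nat_lit 660) (nat_lit 4398046511104) (.ev (nat_lit 816) (nat_lit 3072) .dd))))) (.br (nat_lit 19) (.ch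
 (nat_lit 16) (.ev (nat_lit 592) (nat_lit 1499733860287488) (.ev (nat_lit 605) (nat_lit 2048) .dd))) (.ch
 (nat_lit 19) (.ev (nat_lit 592) (nat_lit 1213860837067776) (.ev (nat_lit 688) (nat_lit 4398046511104) (.ev
 (nat_lit 701) (nat_lit 281474976710656) .dd))))))) (.br (nat_lit 28) (.br (nat_lit 26) (.ch (nat_lit 20) (.ev
 (nat_lit 592) (nat_lit 1495335813778432) (.ev (nat_lit 605) (nat_lit 4398046511104) .dd))) (.br (nat_lit 27)
 (.ch (nat_lit 26) (.ev (nat_lit 592) (nat_lit 1424967069600768) (.ev (nat_lit 660) (nat_lit 4398046511104)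
 (.ev (nat_lit 669) (nat_lit 70368744177664) .dd)))) (.ch (nat_lit 27) (.ev (nat_lit 592) (nat_lit
 1482141674245120) (.ev (nat_lit 605) (nat_lit 17592186044416) .dd))))) (.br (nat_lit 31) (.br (nat_lit 30)
 (.ch (nat_lit 28) (.ev (nat_lit 592) (nat_lit 356241767402496) (.ev (nat_lit 912) (nat_lit 1143492092887040)
 .dd))) (.ch (nat_lit 30) (.ev (nat_lit 592) (nat_lit 92358976736256) (.ev (nat_lit 688) (nat_lit
 281474976710656) (.ev (nat_lit 701) (nat_lit 1125899906842624) .dd))))) (.br (nat_lit 34) (.ch (nat_lit 31)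
 (.ev (nat_lit 592) (nat_lit 373833953445888) (.ev (nat_lit 816) (nat_lit 1125899906843648) .dd))) (.ch
 (nat_lit 34) (.ev (nat_lit 592) (nat_lit 1495335813778432) (.ev (nat_lit 605) (nat_lit 4398046511104)
 .dd))))))))))))) (.ch (nat_lit 18) (.ev (nat_lit 52) (nat_lit 229868801359936) (.ev (nat_lit 96) (nat_lit
 5915784874331168) .dd))))) (.br (nat_lit 21) (.br (nat_lit 20) (.ch (nat_lit 19) (.ev (nat_lit 52) (nat_lit
 423655578274848) (.ev (nat_lit 116) (nat_lit 74766790688768) (.ev (nat_lit 148) (nat_lit 64) (.ev (nat_lit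
 180) (nat_lit 137438953472) (.nd (nat_lit 576) (.br (nat_lit 20) (.br (nat_lit 6) (.br (nat_lit 3) (.ch
 (nat_lit 2) (.ev (nat_lit 592) (nat_lit 4521193960931328) (.ev (nat_lit 605) (nat_lit 1125899906842624) .dd)))
 (.br (nat_lit 4) (.ch (nat_lit 3) (.ev (nat_lit 592) (nat_lit 5647091720257536) (.ev (nat_lit 660) (nat_lit
 2147483648) (.ev (nat_lit 669) (nat_lit 32768) .dd)))) (.ch (nat_lit 4) (.ev (nat_lit 592) (nat_lit
 4503601774854144) (.ev (nat_lit 660) (nat_lit 32768) (.fin (nat_lit 576444809390539327))))))) (.br (nat_lit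
 16) (.br (nat_lit 7) (.ch (nat_lit 6) (.ev (nat_lit 592) (nat_lit 5647091720290304) (.ev (nat_lit 605)
 (nat_lit 2147483648) .dd))) (.ch (nat_lit 7) (.ev (nat_lit 592) (nat_lit 5647093867773952) .dd))) (.br
 (nat_lit 19) (.ch (nat_lit 16) (.ev (nat_lit 592) (nat_lit 5647091720257536) (.ev (nat_lit 804) (nat_lit
 2147483648) (.ev (nat_lit 813) (nat_lit 32768) .dd)))) (.ch (nat_lit 19) (.ev (nat_lit 592) (nat_lit
 4521193960931328) (.ev (nat_lit 605) (nat_lit 1125899906842624) .dd)))))) (.br (nat_lit 29) (.br (nat_lit 26)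
 (.ch (nat_lit 20) (.ev (nat_lit 592) (nat_lit 5647093867773952) .dd)) (.br (nat_lit 27) (.ch (nat_lit 26) (.ev
 (nat_lit 592) (nat_lit 5647093867773952) .dd)) (.ch (nat_lit 27) (.ev (nat_lit 592) (nat_lit 1143494240403456)
 (.ev (nat_lit 605) (nat_lit 4503599627370496) .dd))))) (.br (nat_lit 38) (.br (nat_lit 31) (.ch (nat_lit 29)
 (.ev (nat_lit 592) (nat_lit 5647093867773952) .dd)) (.ch (nat_lit 31) (.ev (nat_lit 592) (nat_lit
 5647093867773952) .dd))) (.br (nat_lit 40) (.ch (nat_lit 38) (.ev (nat_lit 592) (nat_lit 1143494240403456)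
 (.ev (nat_lit 605) (nat_lit 4503599627370496) .dd))) (.ch (nat_lit 40) (.ev (nat_lit 592) (nat_lit
 5647093867773952) .dd)))))))))))) (.ch (nat_lit 20) (.ev (nat_lit 52) (nat_lit 4575411480592448) (.ev (nat_lit
 180) (nat_lit 281474976710656) (.ev (nat_lit 212) (nat_lit 17592190240768) (.ev (nat_lit 276) (nat_lit
 1125899906842624) (.ev (nat_lit 340) (nat_lit 2147483648) (.nd (nat_lit 576) (.br (nat_lit 20) (.br (nat_lit
 7) (.br (nat_lit 4) (.ch (nat_lit 3) (.ev (nat_lit 592) (nat_lit 140737488356384) (.ev (nat_lit 660) (nat_lit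
 137438953472) (.ev (nat_lit 669) (nat_lit 4398046511104) .dd)))) (.br (nat_lit 5) (.ch (nat_lit 4) (.ev
 (nat_lit 592) (nat_lit 140874927309856) (.ev (nat_lit 605) (nat_lit 4398046511104) .dd))) (.ch (nat_lit 5)
 (.ev (nat_lit 592) (nat_lit 145272973820960) .dd)))) (.br (nat_lit 16) (.ch (nat_lit 7) (.ev (nat_lit 592)
 (nat_lit 140874927309856) (.ev (nat_lit 605) (nat_lit 4398046511104) .dd))) (.br (nat_lit 18) (.ch (nat_lit
 16) (.ev (nat_lit 592) (nat_lit 4535485465600) (.ev (nat_lit 752) (nat_lit 140737488355360) .dd))) (.ch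
 (nat_lit 18) (.ev (nat_lit 592) (nat_lit 145272973820928) (.ev (nat_lit 605) (nat_lit 32) .dd)))))) (.br
 (nat_lit 31) (.br (nat_lit 21) (.ch (nat_lit 20) (.ev (nat_lit 592) (nat_lit 145272973819936) (.ev (nat_lit
 605) (nat_lit 1024) .dd))) (.br (nat_lit 27) (.ch (nat_lit 21) (.ev (nat_lit 592) (nat_lit 140874927309856)
 (.ev (nat_lit 605) (nat_lit 4398046511104) .dd))) (.ch (nat_lit 27) (.ev (nat_lit 592) (nat_lit
 145272973820960) .dd)))) (.br (nat_lit 38) (.br (nat_lit 34) (.ch (nat_lit 31) (.ev (nat_lit 592) (nat_lit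
 4535485465632) (.ev (nat_lit 605) (nat_lit 140737488355328) .dd))) (.ch (nat_lit 34) (.ev (nat_lit 592)
 (nat_lit 145135534866464) (.ev (nat_lit 660) (nat_lit 1024) (.ev (nat_lit 669) (nat_lit 137438953472) .dd)))))
 (.br (nat_lit 40) (.ch (nat_lit 38) (.ev (nat_lit 592) (nat_lit 145135534866432) (.ev (nat_lit 660) (nat_lit
 1056) (.ev (nat_lit 669) (nat_lit 137438953472) .dd)))) (.ch (nat_lit 40) (.ev (nat_lit 592) (nat_lit
 145272973820960) .dd)))))))))))))) (.br (nat_lit 22) (.ch (nat_lit 21) (.ev (nat_lit 52) (nat_lit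
 1218533761485824) (.ev (nat_lit 84) (nat_lit 32) (.ev (nat_lit 96) (nat_lit 4927119914205248) .dd)))) (.ch
 (nat_lit 22) (.ev (nat_lit 52) (nat_lit 1215031215652928) (.ev (nat_lit 84) (nat_lit 281474976710656) (.ev
 (nat_lit 96) (nat_lit 4649147483327520) .dd)))))))) (.br (nat_lit 33) (.br (nat_lit 28) (.br (nat_lit 26) (.ch
 (nat_lit 25) (.ev (nat_lit 52) (nat_lit 299479483809856) (.ev (nat_lit 64) (nat_lit 5846174191881248) .dd)))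
 (.br (nat_lit 27) (.ch (nat_lit 26) (.ev (nat_lit 52) (nat_lit 5774978666463232) (.ev (nat_lit 64) (nat_lit
 370675009227872) .dd))) (.ch (nat_lit 27) (.ev (nat_lit 52) (nat_lit 286285340083232) (.ev (nat_lit 64)
 (nat_lit 5859368335607872) .dd))))) (.br (nat_lit 31) (.br (nat_lit 29) (.ch (nat_lit 28) (.ev (nat_lit 52)
 (nat_lit 6051851585752064) (.ev (nat_lit 116) (nat_lit 17867063951360) (.ev (nat_lit 160) (nat_lit
 75935025987680) .dd)))) (.ch (nat_lit 29) (.ev (nat_lit 52) (nat_lit 5629914002754560) (.ev (nat_lit 116)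
 (nat_lit 299067162755136) (.ev (nat_lit 212) (nat_lit 32) (.ev (nat_lit 308) (nat_lit 1099511627776) (.ev
 (nat_lit 448) (nat_lit 140737488355328) (.nd (nat_lit 576) (.br (nat_lit 19) (.br (nat_lit 8) (.br (nat_lit 5)
 (.ch (nat_lit 4) (.ev (nat_lit 592) (nat_lit 4466765987840) (.ev (nat_lit 672) (nat_lit 32768) (.ev (nat_lit
 685) (nat_lit 70368744177664) .dd)))) (.br (nat_lit 7) (.ch (nat_lit 5) (.ev (nat_lit 592) (nat_lit
 70368744210432) (.ev (nat_lit 660) (nat_lit 4398046511104) (.ev (nat_lit 669) (nat_lit 68719476736) .dd))))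
 (.ch (nat_lit 7) (.ev (nat_lit 592) (nat_lit 74766790721536) (.ev (nat_lit 605) (nat_lit 68719476736) .dd)))))
 (.br (nat_lit 14) (.ch (nat_lit 8) (.ev (nat_lit 592) (nat_lit 68719509504) (.ev (nat_lit 832) (nat_lit
 74766790688768) .dd))) (.br (nat_lit 18) (.ch (nat_lit 14) (.ev (nat_lit 592) (nat_lit 70437463687168) (.ev
 (nat_lit 605) (nat_lit 4398046511104) .dd))) (.ch (nat_lit 18) (.ev (nat_lit 592) (nat_lit 74835510198272)
 .dd))))) (.br (nat_lit 26) (.br (nat_lit 20) (.ch (nat_lit 19) (.ev (nat_lit 592) (nat_lit 74835510198272)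
 .dd)) (.br (nat_lit 21) (.ch (nat_lit 20) (.ev (nat_lit 592) (nat_lit 74835510198272) .dd)) (.ch (nat_lit 21)
 (.ev (nat_lit 592) (nat_lit 70437463687168) (.ev (nat_lit 605) (nat_lit 4398046511104) .dd))))) (.br (nat_lit
 28) (.br (nat_lit 27) (.ch (nat_lit 26) (.ev (nat_lit 592) (nat_lit 68719509504) (.ev (nat_lit 660) (nat_lit
 4398046511104) (.ev (nat_lit 669) (nat_lit 70368744177664) .dd)))) (.ch (nat_lit 27) (.ev (nat_lit 592)
 (nat_lit 74835510198272) .dd))) (.br (nat_lit 34) (.ch (nat_lit 28) (.ev (nat_lit 592) (nat_lit 4466766020608)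
 (.ev (nat_lit 605) (nat_lit 70368744177664) .dd))) (.ch (nat_lit 34) (.ev (nat_lit 592) (nat_lit
 74835510198272) .dd)))))))))))))) (.br (nat_lit 32) (.ch (nat_lit 31) (.ev (nat_lit 52) (nat_lit
 353082823180352) (.ev (nat_lit 96) (nat_lit 5792570852510752) .dd))) (.ch (nat_lit 32) (.ev (nat_lit 52)
 (nat_lit 4509168056665088) (.ev (nat_lit 84) (nat_lit 17867063951360) (.ev (nat_lit 116) (nat_lit
 422212465066016) (.ev (nat_lit 180) (nat_lit 32768) (.ev (nat_lit 224) (nat_lit 1196406089975872) .dd)))))))))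
 (.br (nat_lit 42) (.br (nat_lit 36) (.br (nat_lit 35) (.ch (nat_lit 33) (.ev (nat_lit 52) (nat_lit
 17869211468896) (.ev (nat_lit 84) (nat_lit 137438955520) (.ev (nat_lit 116) (nat_lit 281474976710656) (.ev
 (nat_lit 128) (nat_lit 5846172048556032) .dd))))) (.ch (nat_lit 35) (.ev (nat_lit 52) (nat_lit
 1408543114657888) (.ev (nat_lit 84) (nat_lit 74766790690816) (.ev (nat_lit 116) (nat_lit 274877907968) (.ev
 (nat_lit 180) (nat_lit 139586437120) (.ev (nat_lit 212) (nat_lit 17592186044416) (.nd (nat_lit 576) (.br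
 (nat_lit 26) (.br (nat_lit 13) (.br (nat_lit 8) (.ch (nat_lit 5) (.ev (nat_lit 592) (nat_lit 4644337119952896)
 .dd)) (.br (nat_lit 11) (.ch (nat_lit 8) (.ev (nat_lit 592) (nat_lit 4644337119952896) .dd)) (.ch (nat_lit 11)
 (.ev (nat_lit 592) (nat_lit 4644337119952896) .dd)))) (.br (nat_lit 17) (.ch (nat_lit 13) (.ev (nat_lit 592)
 (nat_lit 140737492582400) (.ev (nat_lit 605) (nat_lit 4503599627370496) .dd))) (.br (nat_lit 19) (.ch (nat_lit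
 17) (.ev (nat_lit 592) (nat_lit 4503599631564800) (.ev (nat_lit 660) (nat_lit 32768) (.ev (nat_lit 669)
 (nat_lit 140737488355328) .dd)))) (.ch (nat_lit 19) (.ev (nat_lit 592) (nat_lit 4644337115758592) (.ev
 (nat_lit 605) (nat_lit 4194304) .dd)))))) (.br (nat_lit 30) (.br (nat_lit 27) (.ch (nat_lit 26) (.ev (nat_lit
 592) (nat_lit 4503599631597568) (.ev (nat_lit 605) (nat_lit 140737488355328) .dd))) (.br (nat_lit 29) (.ch
 (nat_lit 27) (.ev (nat_lit 592) (nat_lit 4644337119952896) .dd)) (.ch (nat_lit 29) (.ev (nat_lit 592) (nat_lit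
 4644337119920128) (.ev (nat_lit 605) (nat_lit 32768) .dd))))) (.br (nat_lit 34) (.br (nat_lit 31) (.ch
 (nat_lit 30) (.ev (nat_lit 592) (nat_lit 4503599627370496) (.ev (nat_lit 804) (nat_lit 4227072) (.ev (nat_lit
 813) (nat_lit 140737488355328) .dd)))) (.ch (nat_lit 31) (.ev (nat_lit 592) (nat_lit 4227072) (.ev (nat_lit
 804) (nat_lit 140737488355328) (.ev (nat_lit 813) (nat_lit 4503599627370496) .dd))))) (.br (nat_lit 38) (.ch
 (nat_lit 34) (.ev (nat_lit 592) (nat_lit 140737492582400) (.ev (nat_lit 605) (nat_lit 4503599627370496) .dd)))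
 (.ch (nat_lit 38) (.ev (nat_lit 592) (nat_lit 4644337115725824) (.ev (nat_lit 660) (nat_lit 32768) (.ev
 (nat_lit 669) (nat_lit 4194304) .dd)))))))))))))))) (.br (nat_lit 38) (.ch (nat_lit 36) (.ev (nat_lit 52)
 (nat_lit 1219429262163968) (.ev (nat_lit 84) (nat_lit 274877910048) (.ev (nat_lit 148) (nat_lit 32768) (.nd
 (nat_lit 576) (.br (nat_lit 20) (.br (nat_lit 8) (.br (nat_lit 4) (.ch (nat_lit 3) (.ev (nat_lit 592) (nat_lit
 4925812096630848) (.ev (nat_lit 605) (nat_lit 137438953472) .dd))) (.br (nat_lit 5) (.ch (nat_lit 4) (.ev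
 (nat_lit 592) (nat_lit 4925949535584320) .dd)) (.ch (nat_lit 5) (.ev (nat_lit 592) (nat_lit 4785212047228928)
 (.ev (nat_lit 660) (nat_lit 140737488355328) (.ev (nat_lit 669) (nat_lit 64) .dd)))))) (.br (nat_lit 14) (.ch
 (nat_lit 8) (.ev (nat_lit 592) (nat_lit 4925949535584320) .dd)) (.br (nat_lit 19) (.ch (nat_lit 14) (.ev
 (nat_lit 592) (nat_lit 140874931503168) (.ev (nat_lit 640) (nat_lit 281474976710656) (.ev (nat_lit 653)
 (nat_lit 4503599627370496) .dd)))) (.ch (nat_lit 19) (.ev (nat_lit 592) (nat_lit 4644337115725888) (.ev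
 (nat_lit 660) (nat_lit 137443147776) (.ev (nat_lit 669) (nat_lit 281474976710656) .dd))))))) (.br (nat_lit 30)
 (.br (nat_lit 28) (.ch (nat_lit 20) (.ev (nat_lit 592) (nat_lit 4925949535584320) .dd)) (.br (nat_lit 29) (.ch
 (nat_lit 28) (.ev (nat_lit 592) (nat_lit 4925949535584256) (.ev (nat_lit 605) (nat_lit 64) .dd))) (.ch
 (nat_lit 29) (.ev (nat_lit 592) (nat_lit 4925812092436544) (.ev (nat_lit 688) (nat_lit 137438953472) (.ev
 (nat_lit 701) (nat_lit 4194304) .dd)))))) (.br (nat_lit 34) (.br (nat_lit 31) (.ch (nat_lit 30) (.ev (nat_lit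
 592) (nat_lit 4925812092436544) (.ev (nat_lit 660) (nat_lit 4194304) (.ev (nat_lit 669) (nat_lit 137438953472)
 .dd)))) (.ch (nat_lit 31) (.ev (nat_lit 592) (nat_lit 4925949535584320) .dd))) (.br (nat_lit 40) (.ch (nat_lit
 34) (.ev (nat_lit 592) (nat_lit 4925812096630848) (.ev (nat_lit 605) (nat_lit 137438953472) .dd))) (.ch
 (nat_lit 40) (.ev (nat_lit 592) (nat_lit 281612415664192) (.ev (nat_lit 672) (nat_lit 4194304) (.ev (nat_lit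
 932) (nat_lit 140737488355328) (.ev (nat_lit 941) (nat_lit 4503599627370496) .dd)))))))))))))) (.ch (nat_lit
 38) (.ev (nat_lit 52) (nat_lit 6057349143857184) (.ev (nat_lit 84) (nat_lit 17592186044480) (.ev (nat_lit 192)
 (nat_lit 70712345789440) .dd)))))) (.br (nat_lit 45) (.br (nat_lit 44) (.ch (nat_lit 42) (.ev (nat_lit 52)
 (nat_lit 215643869711424) (.ev (nat_lit 84) (nat_lit 32) (.ev (nat_lit 116) (nat_lit 281818574094336) (.ev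
 (nat_lit 148) (nat_lit 1099511627776) (.ev (nat_lit 276) (nat_lit 4503599627370496) (.nd (nat_lit 576) (.br
 (nat_lit 13) (.br (nat_lit 6) (.br (nat_lit 3) (.ch (nat_lit 2) (.ev (nat_lit 592) (nat_lit 1143492092887040)
 .dd)) (.br (nat_lit 4) (.ch (nat_lit 3) (.ev (nat_lit 592) (nat_lit 1125899906842624) (.ev (nat_lit 605)
 (nat_lit 17592186044416) .dd))) (.ch (nat_lit 4) (.fin (nat_lit 576477794730984001))))) (.br (nat_lit 8) (.ch
 (nat_lit 6) (.ev (nat_lit 592) (nat_lit 1143492092887040) .dd)) (.br (nat_lit 11) (.ch (nat_lit 8) (.ev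
 (nat_lit 592) (nat_lit 1125899906842624) (.ev (nat_lit 605) (nat_lit 17592186044416) .dd))) (.ch (nat_lit 11)
 (.ev (nat_lit 592) (nat_lit 17592186044416) (.ev (nat_lit 605) (nat_lit 1125899906842624) .dd)))))) (.br
 (nat_lit 28) (.br (nat_lit 17) (.ch (nat_lit 13) (.ev (nat_lit 592) (nat_lit 1143492092887040) .dd)) (.br
 (nat_lit 27) (.ch (nat_lit 17) (.ev (nat_lit 660) (nat_lit 1125899906842624) (.ev (nat_lit 669) (nat_lit
 17592186044416) .dd))) (.ch (nat_lit 27) (.ev (nat_lit 592) (nat_lit 1143492092887040) .dd)))) (.br (nat_lit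
 38) (.br (nat_lit 31) (.ch (nat_lit 28) (.ev (nat_lit 592) (nat_lit 17592186044416) (.ev (nat_lit 605)
 (nat_lit 1125899906842624) .dd))) (.ch (nat_lit 31) (.ev (nat_lit 592) (nat_lit 1143492092887040) .dd))) (.br
 (nat_lit 40) (.ch (nat_lit 38) (.ev (nat_lit 592) (nat_lit 1143492092887040) .dd)) (.ch (nat_lit 40) (.ev
 (nat_lit 592) (nat_lit 1143492092887040) .dd))))))))))))) (.ch (nat_lit 44) (.ev (nat_lit 52) (nat_lit
 5845141256406016) (.ev (nat_lit 84) (nat_lit 32) (.ev (nat_lit 116) (nat_lit 64) (.ev (nat_lit 148) (nat_lit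
 281474976710656) (.ev (nat_lit 212) (nat_lit 32768) (.nd (nat_lit 576) (.br (nat_lit 16) (.br (nat_lit 6) (.br
 (nat_lit 4) (.ch (nat_lit 3) (.ev (nat_lit 592) (nat_lit 2147485696) (.ev (nat_lit 608) (nat_lit 68719476736)
 (.ev (nat_lit 660) (nat_lit 17867063951360) (.ev (nat_lit 669) (nat_lit 1099511627776) .dd))))) (.br (nat_lit
 5) (.ch (nat_lit 4) (.ev (nat_lit 592) (nat_lit 17937930913792) (.ev (nat_lit 605) (nat_lit 1099511627776)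
 .dd))) (.ch (nat_lit 5) (.ev (nat_lit 592) (nat_lit 19037442541568) .dd)))) (.br (nat_lit 11) (.br (nat_lit 7)
 (.ch (nat_lit 6) (.ev (nat_lit 592) (nat_lit 1374389536768) (.ev (nat_lit 660) (nat_lit 68719476736) (.ev
 (nat_lit 672) (nat_lit 2147483648) (.ev (nat_lit 685) (nat_lit 17592186044416) .dd))))) (.ch (nat_lit 7) (.ev
 (nat_lit 592) (nat_lit 18762564634624) (.ev (nat_lit 605) (nat_lit 274877906944) .dd)))) (.br (nat_lit 14)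
 (.ch (nat_lit 11) (.ev (nat_lit 592) (nat_lit 19037442539520) (.ev (nat_lit 605) (nat_lit 2048) .dd))) (.ch
 (nat_lit 14) (.ev (nat_lit 592) (nat_lit 19035295055872) (.ev (nat_lit 660) (nat_lit 2048) (.ev (nat_lit 669)
 (nat_lit 2147483648) .dd))))))) (.br (nat_lit 26) (.br (nat_lit 18) (.ch (nat_lit 16) (.ev (nat_lit 592)
 (nat_lit 17594333530112) (.ev (nat_lit 720) (nat_lit 274877906944) (.ev (nat_lit 804) (nat_lit 68719476736)
 (.ev (nat_lit 813) (nat_lit 1099511627776) .dd))))) (.br (nat_lit 20) (.ch (nat_lit 18) (.ev (nat_lit 592)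
 (nat_lit 18760417150976) (.ev (nat_lit 660) (nat_lit 2147483648) (.ev (nat_lit 669) (nat_lit 274877906944)
 .dd)))) (.ch (nat_lit 20) (.ev (nat_lit 592) (nat_lit 19037442539520) (.ev (nat_lit 605) (nat_lit 2048)
 .dd))))) (.br (nat_lit 29) (.br (nat_lit 28) (.ch (nat_lit 26) (.ev (nat_lit 592) (nat_lit 18693845157888)
 (.ev (nat_lit 660) (nat_lit 274877906944) (.ev (nat_lit 669) (nat_lit 68719476736) .dd)))) (.ch (nat_lit 28)
 (.ev (nat_lit 592) (nat_lit 1445256497152) (.ev (nat_lit 605) (nat_lit 17592186044416) .dd)))) (.br (nat_lit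
 40) (.ch (nat_lit 29) (.ev (nat_lit 592) (nat_lit 18968723064832) (.ev (nat_lit 605) (nat_lit 68719476736)
 .dd))) (.ch (nat_lit 40) (.ev (nat_lit 592) (nat_lit 17663053006848) (.ev (nat_lit 660) (nat_lit
 1099511627776) (.ev (nat_lit 669) (nat_lit 274877906944) .dd)))))))))))))))) (.br (nat_lit 46) (.ch (nat_lit
 45) (.ev (nat_lit 52) (nat_lit 5648466109827168) (.ev (nat_lit 84) (nat_lit 68723671040) (.nd (nat_lit 576)
 (.br (nat_lit 13) (.br (nat_lit 7) (.br (nat_lit 4) (.ch (nat_lit 3) (.ev (nat_lit 592) (nat_lit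
 492718648198144) (.ev (nat_lit 660) (nat_lit 2147483648) (.ev (nat_lit 669) (nat_lit 4398046511104) .dd))))
 (.br (nat_lit 6) (.ch (nat_lit 4) (.ev (nat_lit 592) (nat_lit 140874927309824) (.ev (nat_lit 660) (nat_lit
 281474976710656) (.ev (nat_lit 672) (nat_lit 2147483648) (.ev (nat_lit 832) (nat_lit 70368744177664) (.ev
 (nat_lit 845) (nat_lit 4398046511104) .dd)))))) (.ch (nat_lit 6) (.ev (nat_lit 592) (nat_lit 496979255755776)
 (.ev (nat_lit 688) (nat_lit 139586437120) .dd))))) (.br (nat_lit 8) (.ch (nat_lit 7) (.ev (nat_lit 592)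
 (nat_lit 422214612549632) (.ev (nat_lit 660) (nat_lit 70368744177664) (.ev (nat_lit 804) (nat_lit 1024) (.fin
 (nat_lit 576451406441431618)))))) (.br (nat_lit 11) (.ch (nat_lit 8) (.ev (nat_lit 592) (nat_lit
 492720795681792) (.ev (nat_lit 605) (nat_lit 4398046511104) .dd))) (.ch (nat_lit 11) (.ev (nat_lit 592)
 (nat_lit 497118842191872) (.ev (nat_lit 605) (nat_lit 1024) .dd)))))) (.br (nat_lit 20) (.br (nat_lit 16) (.ch
 (nat_lit 13) (.ev (nat_lit 592) (nat_lit 496981403239424) (.ev (nat_lit 605) (nat_lit 137438953472) .dd)))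
 (.br (nat_lit 19) (.ch (nat_lit 16) (.ev (nat_lit 592) (nat_lit 356381353837568) (.ev (nat_lit 605) (nat_lit
 140737488355328) .dd))) (.ch (nat_lit 19) (.ev (nat_lit 592) (nat_lit 496981403239424) (.ev (nat_lit 605)
 (nat_lit 137438953472) .dd))))) (.br (nat_lit 28) (.br (nat_lit 21) (.ch (nat_lit 20) (.ev (nat_lit 592)
 (nat_lit 426750098014208) (.ev (nat_lit 660) (nat_lit 70368744177664) (.ev (nat_lit 669) (nat_lit 1024)
 .dd)))) (.ch (nat_lit 21) (.ev (nat_lit 592) (nat_lit 145137682351104) (.ev (nat_lit 804) (nat_lit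
 281612415664128) (.ev (nat_lit 813) (nat_lit 70368744177664) .dd))))) (.br (nat_lit 29) (.ch (nat_lit 28) (.ev
 (nat_lit 592) (nat_lit 497118842192896) .dd)) (.ch (nat_lit 29) (.ev (nat_lit 592) (nat_lit 356381353836544)
 (.ev (nat_lit 660) (nat_lit 1024) (.ev (nat_lit 669) (nat_lit 140737488355328) .dd)))))))))))) (.ch (nat_lit
 46) (.ev (nat_lit 52) (nat_lit 6069375056512064) (.ev (nat_lit 84) (nat_lit 2048) (.ev (nat_lit 116) (nat_lit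
 32) (.ev (nat_lit 148) (nat_lit 1099511627776) (.ev (nat_lit 288) (nat_lit 75179107549184) .dd)))))))))))))

/-- Subtrie. -/
noncomputable def T4 : Tr := (.ev (nat_lit 20) (nat_lit 4879152190594096) (.nd (nat_lit 33) (.br (nat_lit 25)
 (.br (nat_lit 14) (.br (nat_lit 5) (.br (nat_lit 2) (.ch (nat_lit 1) (.ev (nat_lit 52) (nat_lit
 571748466950144) (.ev (nat_lit 84) (nat_lit 274877906944) (.ev (nat_lit 116) (nat_lit 1125899906842624) (.ev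
 (nat_lit 128) (nat_lit 143082540597824) .dd))))) (.br (nat_lit 3) (.ch (nat_lit 2) (.ev (nat_lit 52) (nat_lit
 1838804348731904) (.ev (nat_lit 116) (nat_lit 64) (.ev (nat_lit 212) (nat_lit 2199023255552) (.ev (nat_lit
 436) (nat_lit 2147483648) (.nd (nat_lit 576) (.br (nat_lit 24) (.br (nat_lit 14) (.br (nat_lit 2) (.ch
 (nat_lit 1) (.ev (nat_lit 592) (nat_lit 272826368) .dd)) (.br (nat_lit 11) (.ch (nat_lit 2) (.ev (nat_lit 592)
 (nat_lit 4390912) (.ev (nat_lit 605) (nat_lit 268435456) .dd))) (.ch (nat_lit 11) (.ev (nat_lit 592) (nat_lit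
 268500992) (.ev (nat_lit 704) (nat_lit 131072) (.ev (nat_lit 717) (nat_lit 4194304) .dd)))))) (.br (nat_lit
 20) (.br (nat_lit 16) (.ch (nat_lit 14) (.ev (nat_lit 592) (nat_lit 272826368) .dd)) (.ch (nat_lit 16) (.ev
 (nat_lit 592) (nat_lit 272826368) .dd))) (.br (nat_lit 22) (.ch (nat_lit 20) (.ev (nat_lit 592) (nat_lit
 272760832) (.ev (nat_lit 605) (nat_lit 65536) .dd))) (.ch (nat_lit 22) (.ev (nat_lit 592) (nat_lit 4259840)
 (.ev (nat_lit 660) (nat_lit 131072) (.ev (nat_lit 669) (nat_lit 268435456) .dd))))))) (.br (nat_lit 36) (.br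
 (nat_lit 26) (.ch (nat_lit 24) (.ev (nat_lit 592) (nat_lit 268566528) (.ev (nat_lit 816) (nat_lit 4259840)
 .dd))) (.br (nat_lit 32) (.ch (nat_lit 26) (.ev (nat_lit 592) (nat_lit 268632064) (.ev (nat_lit 605) (nat_lit
 4194304) .dd))) (.ch (nat_lit 32) (.ev (nat_lit 592) (nat_lit 196608) (.ev (nat_lit 624) (nat_lit 4194304)
 (.ev (nat_lit 637) (nat_lit 268435456) .dd)))))) (.br (nat_lit 39) (.br (nat_lit 38) (.ch (nat_lit 36) (.ev
 (nat_lit 592) (nat_lit 272695296) (.ev (nat_lit 605) (nat_lit 131072) .dd))) (.ch (nat_lit 38) (.ev (nat_lit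
 592) (nat_lit 272826368) .dd))) (.br (nat_lit 41) (.ch (nat_lit 39) (.ev (nat_lit 592) (nat_lit 272826368)
 .dd)) (.ch (nat_lit 41) (.ev (nat_lit 592) (nat_lit 272826368) .dd)))))))))))) (.ch (nat_lit 3) (.ev (nat_lit
 52) (nat_lit 1688852007813184) (.ev (nat_lit 116) (nat_lit 2199023255552) (.ev (nat_lit 148) (nat_lit 262656)
 (.ev (nat_lit 180) (nat_lit 268435456) (.ev (nat_lit 212) (nat_lit 137438953472) (.nd (nat_lit 576) (.br
 (nat_lit 18) (.br (nat_lit 10) (.br (nat_lit 4) (.ch (nat_lit 1) (.ev (nat_lit 592) (nat_lit 149817049382912)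
 (.ev (nat_lit 605) (nat_lit 4194304) .dd))) (.br (nat_lit 8) (.ch (nat_lit 4) (.ev (nat_lit 592) (nat_lit
 141020960555008) (.ev (nat_lit 605) (nat_lit 8796093022208) .dd))) (.ch (nat_lit 8) (.ev (nat_lit 592)
 (nat_lit 149817049382912) (.ev (nat_lit 605) (nat_lit 4194304) .dd))))) (.br (nat_lit 11) (.ch (nat_lit 10)
 (.ev (nat_lit 592) (nat_lit 141012370620416) (.ev (nat_lit 804) (nat_lit 8589934592) (.ev (nat_lit 813)
 (nat_lit 8796093022208) .dd)))) (.br (nat_lit 16) (.ch (nat_lit 11) (.ev (nat_lit 592) (nat_lit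
 141012370620416) (.ev (nat_lit 660) (nat_lit 8796093022208) (.ev (nat_lit 669) (nat_lit 8589934592) .dd))))
 (.ch (nat_lit 16) (.ev (nat_lit 592) (nat_lit 283472199680) (.ev (nat_lit 704) (nat_lit 149533581377536)
 .dd)))))) (.br (nat_lit 29) (.br (nat_lit 20) (.ch (nat_lit 18) (.ev (nat_lit 592) (nat_lit 149808463511552)
 (.ev (nat_lit 804) (nat_lit 131072) (.ev (nat_lit 813) (nat_lit 8589934592) .dd)))) (.br (nat_lit 24) (.ch
 (nat_lit 20) (.ev (nat_lit 592) (nat_lit 9070975156224) (.ev (nat_lit 804) (nat_lit 140737488486400) (.ev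
 (nat_lit 813) (nat_lit 8589934592) .dd)))) (.ch (nat_lit 24) (.ev (nat_lit 592) (nat_lit 149817049382912) (.ev
 (nat_lit 605) (nat_lit 4194304) .dd))))) (.br (nat_lit 33) (.br (nat_lit 31) (.ch (nat_lit 29) (.ev (nat_lit
 592) (nat_lit 8804687314944) (.ev (nat_lit 672) (nat_lit 140737488355328) (.ev (nat_lit 685) (nat_lit
 274877906944) .dd)))) (.ch (nat_lit 31) (.ev (nat_lit 592) (nat_lit 141020956196864) (.ev (nat_lit 660)
 (nat_lit 8796093022208) (.ev (nat_lit 672) (nat_lit 131072) (.ev (nat_lit 804) (nat_lit 32768) (.ev (nat_lit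
 813) (nat_lit 4194304) .dd))))))) (.br (nat_lit 41) (.ch (nat_lit 33) (.ev (nat_lit 592) (nat_lit
 149542175670272) (.ev (nat_lit 605) (nat_lit 274877906944) .dd))) (.ch (nat_lit 41) (.ev (nat_lit 592)
 (nat_lit 149817053446144) (.ev (nat_lit 605) (nat_lit 131072) .dd)))))))))))))))) (.br (nat_lit 11) (.br
 (nat_lit 9) (.ch (nat_lit 5) (.ev (nat_lit 52) (nat_lit 141014518006272) (.ev (nat_lit 84) (nat_lit
 8796093284352) (.ev (nat_lit 116) (nat_lit 563087392374784) (.ev (nat_lit 148) (nat_lit 32768) (.ev (nat_lit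
 244) (nat_lit 268435456) (.ev (nat_lit 308) (nat_lit 2199023255552) (.nd (nat_lit 576) (.br (nat_lit 18) (.br
 (nat_lit 8) (.br (nat_lit 5) (.ch (nat_lit 1) (.ev (nat_lit 592) (nat_lit 1125908496908352) .dd)) (.br
 (nat_lit 7) (.ch (nat_lit 5) (.ev (nat_lit 592) (nat_lit 1125908496908352) .dd)) (.ch (nat_lit 7) (.ev
 (nat_lit 592) (nat_lit 8590065728) (.ev (nat_lit 605) (nat_lit 1125899906842624) .dd))))) (.br (nat_lit 14)
 (.br (nat_lit 10) (.ch (nat_lit 8) (.ev (nat_lit 592) (nat_lit 1125908496908352) .dd)) (.ch (nat_lit 10) (.ev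
 (nat_lit 592) (nat_lit 1125899906973696) (.ev (nat_lit 816) (nat_lit 8589934656) .dd)))) (.br (nat_lit 15)
 (.ch (nat_lit 14) (.ev (nat_lit 592) (nat_lit 1125908496908352) .dd)) (.ch (nat_lit 15) (.ev (nat_lit 592)
 (nat_lit 131136) (.ev (nat_lit 624) (nat_lit 8589934592) (.ev (nat_lit 637) (nat_lit 1125899906842624)
 .dd))))))) (.br (nat_lit 29) (.br (nat_lit 22) (.ch (nat_lit 18) (.ev (nat_lit 592) (nat_lit 1125899906842688)
 (.ev (nat_lit 704) (nat_lit 131072) (.ev (nat_lit 717) (nat_lit 8589934592) .dd)))) (.br (nat_lit 26) (.ch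
 (nat_lit 22) (.ev (nat_lit 592) (nat_lit 1125899906973760) (.ev (nat_lit 605) (nat_lit 8589934592) .dd))) (.ch
 (nat_lit 26) (.ev (nat_lit 592) (nat_lit 1125908496908352) .dd)))) (.br (nat_lit 39) (.br (nat_lit 36) (.ch
 (nat_lit 29) (.ev (nat_lit 592) (nat_lit 1125908496908288) (.ev (nat_lit 605) (nat_lit 64) .dd))) (.ch
 (nat_lit 36) (.ev (nat_lit 592) (nat_lit 1125908496908352) .dd))) (.br (nat_lit 41) (.ch (nat_lit 39) (.ev
 (nat_lit 592) (nat_lit 1125908496777280) (.ev (nat_lit 605) (nat_lit 131072) .dd))) (.ch (nat_lit 41) (.ev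
 (nat_lit 592) (nat_lit 8589934656) (.ev (nat_lit 660) (nat_lit 131072) (.ev (nat_lit 669) (nat_lit
 1125899906842624) .dd)))))))))))))))) (.ch (nat_lit 9) (.ev (nat_lit 52) (nat_lit 704099763257856) (.ev
 (nat_lit 84) (nat_lit 10995116277760) (.ev (nat_lit 116) (nat_lit 268435456) (.ev (nat_lit 148) (nat_lit
 2147483648) (.ev (nat_lit 212) (nat_lit 64) (.ev (nat_lit 352) (nat_lit 1125908496842752) .dd)))))))) (.br
 (nat_lit 12) (.ch (nat_lit 11) (.ev (nat_lit 52) (nat_lit 572158636261952) (.ev (nat_lit 84) (nat_lit 32768)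
 (.ev (nat_lit 192) (nat_lit 1268847156002816) .dd)))) (.ch (nat_lit 12) (.ev (nat_lit 52) (nat_lit
 1688987568144384) (.ev (nat_lit 84) (nat_lit 140737492549696) (.ev (nat_lit 116) (nat_lit 2147483648) (.ev
 (nat_lit 148) (nat_lit 8796093022208) (.ev (nat_lit 276) (nat_lit 512) (.nd (nat_lit 576) (.br (nat_lit 15)
 (.br (nat_lit 5) (.br (nat_lit 2) (.ch (nat_lit 1) (.ev (nat_lit 592) (nat_lit 8589934592) (.ev (nat_lit 1078)
 (nat_lit 2473901162496) .dd))) (.br (nat_lit 4) (.ch (nat_lit 2) (.ev (nat_lit 592) (nat_lit 2482491097088)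
 .dd)) (.ch (nat_lit 4) (.ev (nat_lit 592) (nat_lit 2482491097088) .dd)))) (.br (nat_lit 7) (.ch (nat_lit 5)
 (.ev (nat_lit 950) (nat_lit 2482491097088) .dd)) (.br (nat_lit 14) (.ch (nat_lit 7) (.ev (nat_lit 592)
 (nat_lit 2482491097088) .dd)) (.ch (nat_lit 14) (.ev (nat_lit 592) (nat_lit 2482491097088) .dd))))) (.br
 (nat_lit 29) (.br (nat_lit 18) (.ch (nat_lit 15) (.ev (nat_lit 592) (nat_lit 2473901162496) (.ev (nat_lit 605)
 (nat_lit 8589934592) .dd))) (.br (nat_lit 24) (.ch (nat_lit 18) (.ev (nat_lit 592) (nat_lit 2473901162496)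
 (.ev (nat_lit 605) (nat_lit 8589934592) .dd))) (.ch (nat_lit 24) (.ev (nat_lit 592) (nat_lit 2482491097088)
 .dd)))) (.br (nat_lit 38) (.br (nat_lit 33) (.ch (nat_lit 29) (.ev (nat_lit 592) (nat_lit 8589934592) (.ev
 (nat_lit 1060) (nat_lit 274877906944) (.ev (nat_lit 1069) (nat_lit 2199023255552) .dd)))) (.ch (nat_lit 33)
 (.ev (nat_lit 932) (nat_lit 8589934592) (.ev (nat_lit 1110) (nat_lit 2473901162496) .dd)))) (.br (nat_lit 41)
 (.ch (nat_lit 38) (.ev (nat_lit 592) (nat_lit 2482491097088) .dd)) (.ch (nat_lit 41) (.ev (nat_lit 592)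
 (nat_lit 2482491097088) .dd)))))))))))))))) (.br (nat_lit 19) (.br (nat_lit 16) (.br (nat_lit 15) (.ch
 (nat_lit 14) (.ev (nat_lit 52) (nat_lit 9079565091392) (.ev (nat_lit 116) (nat_lit 262144) (.ev (nat_lit 212)
 (nat_lit 1688849860263936) (.nd (nat_lit 576) (.br (nat_lit 26) (.br (nat_lit 11) (.br (nat_lit 7) (.ch
 (nat_lit 2) (.ev (nat_lit 592) (nat_lit 142938927595520) (.ev (nat_lit 804) (nat_lit 137438953472) (.ev
 (nat_lit 813) (nat_lit 131072) .dd)))) (.br (nat_lit 10) (.ch (nat_lit 7) (.ev (nat_lit 592) (nat_lit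
 2336730775552) (.ev (nat_lit 688) (nat_lit 140737488355328) (.ev (nat_lit 752) (nat_lit 2147483648) (.ev
 (nat_lit 765) (nat_lit 65536) .dd))))) (.ch (nat_lit 10) (.ev (nat_lit 592) (nat_lit 143076366680064) .dd))))
 (.br (nat_lit 14) (.ch (nat_lit 11) (.ev (nat_lit 592) (nat_lit 143076366548992) (.ev (nat_lit 605) (nat_lit
 131072) .dd))) (.br (nat_lit 24) (.ch (nat_lit 14) (.ev (nat_lit 592) (nat_lit 142938927661056) (.ev (nat_lit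
 804) (nat_lit 65536) (.ev (nat_lit 813) (nat_lit 137438953472) .dd)))) (.ch (nat_lit 24) (.ev (nat_lit 592)
 (nat_lit 2338878324736) (.ev (nat_lit 605) (nat_lit 140737488355328) .dd)))))) (.br (nat_lit 31) (.br (nat_lit
 28) (.ch (nat_lit 26) (.ev (nat_lit 592) (nat_lit 143076366680064) .dd)) (.br (nat_lit 29) (.ch (nat_lit 28)
 (.ev (nat_lit 592) (nat_lit 140877343424512) (.ev (nat_lit 605) (nat_lit 2199023255552) .dd))) (.ch (nat_lit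
 29) (.ev (nat_lit 592) (nat_lit 140739635970048) (.ev (nat_lit 660) (nat_lit 137707388928) (.ev (nat_lit 672)
 (nat_lit 2199023255552) (.ev (nat_lit 685) (nat_lit 65536) .dd))))))) (.br (nat_lit 39) (.br (nat_lit 36) (.ch
 (nat_lit 31) (.ev (nat_lit 592) (nat_lit 140877343227904) (.ev (nat_lit 660) (nat_lit 2199023321088) (.ev
 (nat_lit 669) (nat_lit 131072) .dd)))) (.ch (nat_lit 36) (.ev (nat_lit 592) (nat_lit 143076366548992) (.ev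
 (nat_lit 605) (nat_lit 131072) .dd)))) (.br (nat_lit 41) (.ch (nat_lit 39) (.ev (nat_lit 592) (nat_lit
 142938659291136) (.ev (nat_lit 804) (nat_lit 268435456) (.ev (nat_lit 813) (nat_lit 137438953472) .dd)))) (.ch
 (nat_lit 41) (.ev (nat_lit 592) (nat_lit 143076366680064) .dd))))))))))) (.ch (nat_lit 15) (.ev (nat_lit 52)
 (nat_lit 139859132416) (.ev (nat_lit 84) (nat_lit 562949953421312) (.ev (nat_lit 116) (nat_lit 32768) (.ev
 (nat_lit 148) (nat_lit 8796093284416) (.ev (nat_lit 180) (nat_lit 131072) (.nd (nat_lit 576) (.br (nat_lit 18)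
 (.br (nat_lit 7) (.br (nat_lit 4) (.ch (nat_lit 1) (.ev (nat_lit 592) (nat_lit 1266920863040000) (.ev (nat_lit
 605) (nat_lit 2199023255552) .dd))) (.br (nat_lit 5) (.ch (nat_lit 4) (.ev (nat_lit 592) (nat_lit
 1126183374684672) (.ev (nat_lit 608) (nat_lit 140737488355328) (.ev (nat_lit 621) (nat_lit 2199023255552)
 .dd)))) (.ch (nat_lit 5) (.ev (nat_lit 592) (nat_lit 1268836418454016) (.ev (nat_lit 660) (nat_lit 8589934592)
 (.ev (nat_lit 669) (nat_lit 274877906944) .dd)))))) (.br (nat_lit 15) (.br (nat_lit 11) (.ch (nat_lit 7) (.ev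
 (nat_lit 592) (nat_lit 1269119886295552) .dd)) (.ch (nat_lit 11) (.ev (nat_lit 592) (nat_lit 1269111296360960)
 (.ev (nat_lit 605) (nat_lit 8589934592) .dd)))) (.br (nat_lit 16) (.ch (nat_lit 15) (.ev (nat_lit 592)
 (nat_lit 2473901163008) (.ev (nat_lit 660) (nat_lit 1125899906842624) (.ev (nat_lit 816) (nat_lit
 140737488355328) (.ev (nat_lit 829) (nat_lit 8589934592) .dd))))) (.ch (nat_lit 16) (.ev (nat_lit 592)
 (nat_lit 1269119886295552) .dd))))) (.br (nat_lit 32) (.br (nat_lit 22) (.ch (nat_lit 18) (.ev (nat_lit 592)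
 (nat_lit 1268845008388608) (.ev (nat_lit 605) (nat_lit 274877906944) .dd))) (.br (nat_lit 29) (.ch (nat_lit
 22) (.ev (nat_lit 592) (nat_lit 1125908496777728) (.ev (nat_lit 660) (nat_lit 140737488355328) (.ev (nat_lit
 672) (nat_lit 274877906944) (.ev (nat_lit 685) (nat_lit 2199023255552) .dd))))) (.ch (nat_lit 29) (.ev
 (nat_lit 592) (nat_lit 1128382397940224) (.ev (nat_lit 605) (nat_lit 140737488355328) .dd))))) (.br (nat_lit
 36) (.br (nat_lit 33) (.ch (nat_lit 32) (.ev (nat_lit 592) (nat_lit 1269119886295552) .dd)) (.ch (nat_lit 33)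
 (.ev (nat_lit 592) (nat_lit 1269111296360960) (.ev (nat_lit 605) (nat_lit 8589934592) .dd)))) (.br (nat_lit
 38) (.ch (nat_lit 36) (.ev (nat_lit 592) (nat_lit 2482491097088) (.ev (nat_lit 660) (nat_lit 1125899906842624)
 (.ev (nat_lit 736) (nat_lit 512) (.ev (nat_lit 749) (nat_lit 140737488355328) .dd))))) (.ch (nat_lit 38) (.ev
 (nat_lit 592) (nat_lit 1269119886295552) .dd)))))))))))))) (.br (nat_lit 18) (.ch (nat_lit 16) (.ev (nat_lit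
 52) (nat_lit 2338614280256) (.ev (nat_lit 96) (nat_lit 1838667178017280) .dd))) (.ch (nat_lit 18) (.ev
 (nat_lit 52) (nat_lit 703698183389248) (.ev (nat_lit 64) (nat_lit 1137307608908288) .dd))))) (.br (nat_lit 21)
 (.br (nat_lit 20) (.ch (nat_lit 19) (.ev (nat_lit 52) (nat_lit 706161347264512) (.ev (nat_lit 84) (nat_lit
 32768) (.ev (nat_lit 96) (nat_lit 1134844445000256) .dd)))) (.ch (nat_lit 20) (.ev (nat_lit 52) (nat_lit
 283468070976) (.ev (nat_lit 84) (nat_lit 8796097478656) (.ev (nat_lit 116) (nat_lit 2199023255552) (.ev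
 (nat_lit 148) (nat_lit 2147484160) (.ev (nat_lit 180) (nat_lit 268435456) (.nd (nat_lit 576) (.br (nat_lit 24)
 (.br (nat_lit 14) (.br (nat_lit 2) (.ch (nat_lit 1) (.ev (nat_lit 592) (nat_lit 140874927308800) (.ev (nat_lit
 1060) (nat_lit 562949953421312) (.ev (nat_lit 1069) (nat_lit 1125899906842624) .dd)))) (.br (nat_lit 5) (.ch
 (nat_lit 2) (.ev (nat_lit 592) (nat_lit 140737488355328) (.ev (nat_lit 660) (nat_lit 137438953472) (.ev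
 (nat_lit 1040) (nat_lit 1125899906842624) (.ev (nat_lit 1053) (nat_lit 562949953421312) .dd))))) (.ch (nat_lit
 5) (.ev (nat_lit 592) (nat_lit 1829724787572736) .dd)))) (.br (nat_lit 16) (.ch (nat_lit 14) (.ev (nat_lit
 592) (nat_lit 1829724787572736) .dd)) (.br (nat_lit 18) (.ch (nat_lit 16) (.ev (nat_lit 592) (nat_lit
 1829724787572736) .dd)) (.ch (nat_lit 18) (.ev (nat_lit 592) (nat_lit 1829724787572736) .dd))))) (.br (nat_lit
 31) (.br (nat_lit 28) (.ch (nat_lit 24) (.ev (nat_lit 592) (nat_lit 1829724787572736) .dd)) (.br (nat_lit 29)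
 (.ch (nat_lit 28) (.ev (nat_lit 592) (nat_lit 140874927308800) (.fin (nat_lit 576465700097835586)))) (.ch
 (nat_lit 29) (.ev (nat_lit 592) (nat_lit 1688849860263936) (.ev (nat_lit 672) (nat_lit 140737488355328) (.ev
 (nat_lit 685) (nat_lit 137438953472) .dd)))))) (.br (nat_lit 38) (.br (nat_lit 32) (.ch (nat_lit 31) (.ev
 (nat_lit 592) (nat_lit 1829587348619264) (.ev (nat_lit 605) (nat_lit 137438953472) .dd))) (.ch (nat_lit 32)
 (.ev (nat_lit 592) (nat_lit 1829724787572736) .dd))) (.br (nat_lit 41) (.ch (nat_lit 38) (.ev (nat_lit 592)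
 (nat_lit 140737488355328) (.ev (nat_lit 804) (nat_lit 137438953472) (.ev (nat_lit 1060) (nat_lit
 1125899906842624) (.ev (nat_lit 1069) (nat_lit 562949953421312) .dd))))) (.ch (nat_lit 41) (.ev (nat_lit 592)
 (nat_lit 1829724787572736) .dd)))))))))))))) (.br (nat_lit 22) (.ch (nat_lit 21) (.ev (nat_lit 52) (nat_lit
 1689133596606464) (.ev (nat_lit 84) (nat_lit 131136) (.ev (nat_lit 148) (nat_lit 2147483648) (.ev (nat_lit
 180) (nat_lit 140737488355328) (.ev (nat_lit 276) (nat_lit 4194304) (.ev (nat_lit 340) (nat_lit 2199023255552)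
 (.nd (nat_lit 576) (.br (nat_lit 14) (.br (nat_lit 8) (.br (nat_lit 4) (.ch (nat_lit 1) (.ev (nat_lit 592)
 (nat_lit 8933532270592) (.ev (nat_lit 605) (nat_lit 512) .dd))) (.br (nat_lit 7) (.ch (nat_lit 4) (.ev
 (nat_lit 592) (nat_lit 8933532008448) (.ev (nat_lit 804) (nat_lit 262144) (.ev (nat_lit 813) (nat_lit 512)
 .dd)))) (.ch (nat_lit 7) (.ev (nat_lit 592) (nat_lit 8933532271104) .dd)))) (.br (nat_lit 10) (.ch (nat_lit 8)
 (.ev (nat_lit 592) (nat_lit 8796093317632) (.ev (nat_lit 605) (nat_lit 137438953472) .dd))) (.br (nat_lit 11)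
 (.ch (nat_lit 10) (.ev (nat_lit 592) (nat_lit 137439248896) (.ev (nat_lit 605) (nat_lit 8796093022208) .dd)))
 (.ch (nat_lit 11) (.ev (nat_lit 592) (nat_lit 8933532008960) (.ev (nat_lit 605) (nat_lit 262144) .dd))))))
 (.br (nat_lit 24) (.br (nat_lit 18) (.ch (nat_lit 14) (.ev (nat_lit 592) (nat_lit 8933532271104) .dd)) (.br
 (nat_lit 20) (.ch (nat_lit 18) (.ev (nat_lit 592) (nat_lit 8933532270592) (.ev (nat_lit 605) (nat_lit 512)
 .dd))) (.ch (nat_lit 20) (.ev (nat_lit 592) (nat_lit 8933532008448) (.ev (nat_lit 660) (nat_lit 512) (.ev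
 (nat_lit 669) (nat_lit 262144) .dd)))))) (.br (nat_lit 31) (.br (nat_lit 28) (.ch (nat_lit 24) (.ev (nat_lit
 592) (nat_lit 8796093284864) (.ev (nat_lit 624) (nat_lit 32768) (.ev (nat_lit 637) (nat_lit 137438953472)
 .dd)))) (.ch (nat_lit 28) (.ev (nat_lit 592) (nat_lit 8933532271104) .dd))) (.br (nat_lit 38) (.ch (nat_lit
 31) (.ev (nat_lit 592) (nat_lit 137439248896) (.ev (nat_lit 605) (nat_lit 8796093022208) .dd))) (.ch (nat_lit
 38) (.ev (nat_lit 592) (nat_lit 8796093317632) (.ev (nat_lit 605) (nat_lit 137438953472) .dd)))))))))))))))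
 (.ch (nat_lit 22) (.ev (nat_lit 52) (nat_lit 1136905760735296) (.ev (nat_lit 84) (nat_lit 140737756790784)
 (.ev (nat_lit 148) (nat_lit 512) (.ev (nat_lit 192) (nat_lit 563362274770944) .dd))))))))) (.br (nat_lit 33)
 (.br (nat_lit 28) (.br (nat_lit 26) (.ch (nat_lit 25) (.ev (nat_lit 52) (nat_lit 574357659254848) (.ev
 (nat_lit 128) (nat_lit 1266648133042688) .dd))) (.br (nat_lit 27) (.ch (nat_lit 26) (.ev (nat_lit 52) (nat_lit
 1840865932738560) (.ev (nat_lit 84) (nat_lit 137438953472) (.ev (nat_lit 128) (nat_lit 2420605504) .dd))))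
 (.ch (nat_lit 27) (.ev (nat_lit 52) (nat_lit 2620198486016) (.ev (nat_lit 84) (nat_lit 32768) (.ev (nat_lit
 116) (nat_lit 8796097216512) (.ev (nat_lit 180) (nat_lit 140737488355392) (.nd (nat_lit 576) (.br (nat_lit 20)
 (.br (nat_lit 10) (.br (nat_lit 7) (.ch (nat_lit 5) (.ev (nat_lit 592) (nat_lit 1688849860461056) (.ev
 (nat_lit 688) (nat_lit 2147483648) (.ev (nat_lit 701) (nat_lit 262144) .dd)))) (.br (nat_lit 8) (.ch (nat_lit
 7) (.ev (nat_lit 592) (nat_lit 1688849860723200) (.ev (nat_lit 605) (nat_lit 2147483648) .dd))) (.ch (nat_lit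
 8) (.ev (nat_lit 592) (nat_lit 1688852007879168) (.ev (nat_lit 660) (nat_lit 262144) (.ev (nat_lit 669)
 (nat_lit 65536) .dd)))))) (.br (nat_lit 11) (.ch (nat_lit 10) (.ev (nat_lit 592) (nat_lit 1688849860723200)
 (.ev (nat_lit 605) (nat_lit 2147483648) .dd))) (.br (nat_lit 15) (.ch (nat_lit 11) (.ev (nat_lit 592) (nat_lit
 1688852008075776) (.ev (nat_lit 605) (nat_lit 131072) .dd))) (.ch (nat_lit 15) (.ev (nat_lit 592) (nat_lit
 2147680768) (.ev (nat_lit 660) (nat_lit 262144) (.ev (nat_lit 1040) (nat_lit 562949953421312) (.ev (nat_lit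
 1053) (nat_lit 1125899906842624) .dd)))))))) (.br (nat_lit 28) (.br (nat_lit 22) (.ch (nat_lit 20) (.ev
 (nat_lit 592) (nat_lit 1688849860591616) (.ev (nat_lit 660) (nat_lit 2147483648) (.ev (nat_lit 932) (nat_lit
 512) (.ev (nat_lit 941) (nat_lit 131072) .dd))))) (.br (nat_lit 26) (.ch (nat_lit 22) (.ev (nat_lit 592)
 (nat_lit 1688852008206848) .dd)) (.ch (nat_lit 26) (.ev (nat_lit 592) (nat_lit 1688852008206848) .dd)))) (.br
 (nat_lit 33) (.br (nat_lit 32) (.ch (nat_lit 28) (.ev (nat_lit 592) (nat_lit 2147942912) (.fin (nat_lit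
 576465700097835586)))) (.ch (nat_lit 32) (.ev (nat_lit 592) (nat_lit 1688852008206848) .dd))) (.br (nat_lit
 36) (.ch (nat_lit 33) (.ev (nat_lit 592) (nat_lit 2147680768) (.ev (nat_lit 932) (nat_lit 262144) (.ev
 (nat_lit 1060) (nat_lit 1125899906842624) (.ev (nat_lit 1069) (nat_lit 562949953421312) .dd))))) (.ch (nat_lit
 36) (.ev (nat_lit 592) (nat_lit 2147876864) (.ev (nat_lit 660) (nat_lit 65536) (.ev (nat_lit 832) (nat_lit
 512) (.ev (nat_lit 1060) (nat_lit 562949953421312) (.ev (nat_lit 1069) (nat_lit 1125899906842624)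
 .dd)))))))))))))))))) (.br (nat_lit 31) (.br (nat_lit 29) (.ch (nat_lit 28) (.ev (nat_lit 52) (nat_lit
 1266785840234496) (.ev (nat_lit 84) (nat_lit 262144) (.ev (nat_lit 180) (nat_lit 4194304) (.ev (nat_lit 372)
 (nat_lit 562949953421312) (.nd (nat_lit 576) (.br (nat_lit 16) (.br (nat_lit 11) (.br (nat_lit 8) (.ch
 (nat_lit 4) (.ev (nat_lit 592) (nat_lit 274877907520) (.ev (nat_lit 660) (nat_lit 8796093022208) (.ev (nat_lit
 669) (nat_lit 2199023255552) .dd)))) (.br (nat_lit 10) (.ch (nat_lit 8) (.ev (nat_lit 592) (nat_lit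
 9070970929664) (.ev (nat_lit 660) (nat_lit 64) (.ev (nat_lit 669) (nat_lit 2199023255552) .dd)))) (.ch
 (nat_lit 10) (.ev (nat_lit 592) (nat_lit 9070970929664) (.ev (nat_lit 688) (nat_lit 64) (.ev (nat_lit 701)
 (nat_lit 2199023255552) .dd)))))) (.br (nat_lit 14) (.ch (nat_lit 11) (.ev (nat_lit 592) (nat_lit
 11269994185280) .dd)) (.br (nat_lit 15) (.ch (nat_lit 14) (.ev (nat_lit 592) (nat_lit 11269994185216) (.ev
 (nat_lit 605) (nat_lit 64) .dd))) (.ch (nat_lit 15) (.ev (nat_lit 592) (nat_lit 2473901163072) (.ev (nat_lit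
 605) (nat_lit 8796093022208) .dd)))))) (.br (nat_lit 28) (.br (nat_lit 22) (.ch (nat_lit 16) (.ev (nat_lit
 592) (nat_lit 2473901163072) (.ev (nat_lit 605) (nat_lit 8796093022208) .dd))) (.br (nat_lit 26) (.ch (nat_lit
 22) (.ev (nat_lit 592) (nat_lit 8796093022784) (.ev (nat_lit 672) (nat_lit 274877906944) (.ev (nat_lit 685)
 (nat_lit 2199023255552) .dd)))) (.ch (nat_lit 26) (.ev (nat_lit 592) (nat_lit 10995116278336) (.ev (nat_lit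
 605) (nat_lit 274877906944) .dd))))) (.br (nat_lit 38) (.br (nat_lit 31) (.ch (nat_lit 28) (.ev (nat_lit 592)
 (nat_lit 10995116278336) (.ev (nat_lit 605) (nat_lit 274877906944) .dd))) (.ch (nat_lit 31) (.ev (nat_lit 592)
 (nat_lit 274877906944) (.ev (nat_lit 660) (nat_lit 2199023255552) (.ev (nat_lit 720) (nat_lit 8796093022208)
 (.fin (nat_lit 576456904011104812))))))) (.br (nat_lit 41) (.ch (nat_lit 38) (.ev (nat_lit 592) (nat_lit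
 2473901163072) (.ev (nat_lit 605) (nat_lit 8796093022208) .dd))) (.ch (nat_lit 41) (.ev (nat_lit 592) (nat_lit
 11269994185280) .dd)))))))))))) (.ch (nat_lit 29) (.ev (nat_lit 52) (nat_lit 1135110736838656) (.ev (nat_lit
 84) (nat_lit 131072) (.ev (nat_lit 116) (nat_lit 8590196736) (.ev (nat_lit 148) (nat_lit 140737488388096) (.ev
 (nat_lit 180) (nat_lit 64) (.ev (nat_lit 244) (nat_lit 512) (.ev (nat_lit 276) (nat_lit 2199023255552) (.nd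
 (nat_lit 576) (.br (nat_lit 24) (.br (nat_lit 10) (.br (nat_lit 2) (.ch (nat_lit 1) (.ev (nat_lit 592)
 (nat_lit 65536) (.ev (nat_lit 605) (nat_lit 562949953421312) .dd))) (.br (nat_lit 7) (.ch (nat_lit 2) (.ev
 (nat_lit 592) (nat_lit 562949953486848) .dd)) (.ch (nat_lit 7) (.ev (nat_lit 592) (nat_lit 562949953486848)
 .dd)))) (.br (nat_lit 16) (.br (nat_lit 15) (.ch (nat_lit 10) (.ev (nat_lit 592) (nat_lit 562949953486848)
 .dd)) (.ch (nat_lit 15) (.ev (nat_lit 592) (nat_lit 562949953486848) .dd))) (.br (nat_lit 22) (.ch (nat_lit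
 16) (.ev (nat_lit 592) (nat_lit 562949953421312) (.ev (nat_lit 605) (nat_lit 65536) .dd))) (.ch (nat_lit 22)
 (.ev (nat_lit 592) (nat_lit 562949953486848) .dd))))) (.br (nat_lit 31) (.br (nat_lit 28) (.ch (nat_lit 24)
 (.ev (nat_lit 592) (nat_lit 562949953421312) (.ev (nat_lit 605) (nat_lit 65536) .dd))) (.br (nat_lit 29) (.ch
 (nat_lit 28) (.ev (nat_lit 592) (nat_lit 562949953486848) .dd)) (.ch (nat_lit 29) (.ev (nat_lit 592) (nat_lit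
 562949953421312) (.ev (nat_lit 605) (nat_lit 65536) .dd))))) (.br (nat_lit 36) (.br (nat_lit 32) (.ch (nat_lit
 31) (.ev (nat_lit 592) (nat_lit 65536) (.ev (nat_lit 605) (nat_lit 562949953421312) .dd))) (.ch (nat_lit 32)
 (.ev (nat_lit 592) (nat_lit 562949953486848) .dd))) (.br (nat_lit 38) (.ch (nat_lit 36) (.ev (nat_lit 592)
 (nat_lit 65536) (.ev (nat_lit 605) (nat_lit 562949953421312) .dd))) (.ch (nat_lit 38) (.ev (nat_lit 592)
 (nat_lit 562949953486848) .dd)))))))))))))))) (.br (nat_lit 32) (.ch (nat_lit 31) (.ev (nat_lit 52) (nat_lit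
 139859165760) (.ev (nat_lit 84) (nat_lit 274877906944) (.ev (nat_lit 116) (nat_lit 262144) (.ev (nat_lit 160)
 (nat_lit 1840591054962688) .dd))))) (.ch (nat_lit 32) (.ev (nat_lit 52) (nat_lit 2201443500032) (.ev (nat_lit
 84) (nat_lit 140737488617472) (.ev (nat_lit 116) (nat_lit 8933532041216) (.ev (nat_lit 180) (nat_lit
 274877906944) (.nd (nat_lit 576) (.br (nat_lit 22) (.br (nat_lit 14) (.br (nat_lit 5) (.ch (nat_lit 2) (.ev
 (nat_lit 592) (nat_lit 562958543389248) (.ev (nat_lit 605) (nat_lit 1125899906842624) .dd))) (.br (nat_lit 7)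
 (.ch (nat_lit 5) (.ev (nat_lit 592) (nat_lit 1688849860297280) (.ev (nat_lit 605) (nat_lit 8589934592) .dd)))
 (.ch (nat_lit 7) (.ev (nat_lit 592) (nat_lit 562958543389248) (.ev (nat_lit 605) (nat_lit 1125899906842624)
 .dd))))) (.br (nat_lit 15) (.ch (nat_lit 14) (.ev (nat_lit 592) (nat_lit 1688858450231872) .dd)) (.br (nat_lit
 20) (.ch (nat_lit 15) (.ev (nat_lit 592) (nat_lit 562958543388736) (.ev (nat_lit 608) (nat_lit 512) (.ev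
 (nat_lit 621) (nat_lit 1125899906842624) .dd)))) (.ch (nat_lit 20) (.ev (nat_lit 592) (nat_lit
 1125899906875904) (.ev (nat_lit 660) (nat_lit 8589934656) (.ev (nat_lit 669) (nat_lit 562949953421312)
 .dd))))))) (.br (nat_lit 32) (.br (nat_lit 24) (.ch (nat_lit 22) (.ev (nat_lit 592) (nat_lit 1688849860264000)
 (.ev (nat_lit 672) (nat_lit 512) (.ev (nat_lit 704) (nat_lit 32768) (.ev (nat_lit 717) (nat_lit 8589934592)
 .dd))))) (.br (nat_lit 31) (.ch (nat_lit 24) (.ev (nat_lit 592) (nat_lit 1688858450199104) (.ev (nat_lit 605)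
 (nat_lit 32768) .dd))) (.ch (nat_lit 31) (.ev (nat_lit 592) (nat_lit 1125908496777216) (.ev (nat_lit 660)
 (nat_lit 562949953421312) (.ev (nat_lit 816) (nat_lit 32768) (.fin (nat_lit 576456904011104812)))))))) (.br
 (nat_lit 39) (.br (nat_lit 36) (.ch (nat_lit 32) (.ev (nat_lit 592) (nat_lit 1688858450231808) (.ev (nat_lit
 605) (nat_lit 64) .dd))) (.ch (nat_lit 36) (.ev (nat_lit 592) (nat_lit 1125908496810048) (.ev (nat_lit 660)
 (nat_lit 512) (.ev (nat_lit 669) (nat_lit 562949953421312) .dd))))) (.br (nat_lit 41) (.ch (nat_lit 39) (.ev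
 (nat_lit 592) (nat_lit 1688858450231872) .dd)) (.ch (nat_lit 41) (.ev (nat_lit 592) (nat_lit 1688858450199104)
 (.ev (nat_lit 605) (nat_lit 32768) .dd)))))))))))))))) (.br (nat_lit 42) (.br (nat_lit 36) (.br (nat_lit 35)
 (.ch (nat_lit 33) (.ev (nat_lit 52) (nat_lit 285884186688) (.ev (nat_lit 84) (nat_lit 2199023321088) (.ev
 (nat_lit 148) (nat_lit 562949953421312) (.ev (nat_lit 192) (nat_lit 1275570931368448) .dd))))) (.ch (nat_lit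
 35) (.ev (nat_lit 52) (nat_lit 1691048883520064) (.ev (nat_lit 84) (nat_lit 285615325184) (.ev (nat_lit 116)
 (nat_lit 137707388928) (.ev (nat_lit 308) (nat_lit 4194304) (.nd (nat_lit 576) (.br (nat_lit 22) (.br (nat_lit
 8) (.br (nat_lit 5) (.ch (nat_lit 2) (.ev (nat_lit 592) (nat_lit 149533581705216) (.ev (nat_lit 672) (nat_lit
 163840) .dd))) (.br (nat_lit 7) (.ch (nat_lit 5) (.ev (nat_lit 592) (nat_lit 149533581574144) (.fin (nat_lit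
 576464600578867769)))) (.ch (nat_lit 7) (.ev (nat_lit 592) (nat_lit 8796093415424) (.ev (nat_lit 660) (nat_lit
 65536) (.ev (nat_lit 672) (nat_lit 140737488355328) (.ev (nat_lit 685) (nat_lit 32768) .dd))))))) (.br
 (nat_lit 15) (.br (nat_lit 14) (.ch (nat_lit 8) (.ev (nat_lit 592) (nat_lit 8796093513728) (.ev (nat_lit 605)
 (nat_lit 140737488355328) .dd))) (.ch (nat_lit 14) (.ev (nat_lit 592) (nat_lit 149533581606912) (.ev (nat_lit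
 605) (nat_lit 262144) .dd)))) (.br (nat_lit 16) (.ch (nat_lit 15) (.ev (nat_lit 592) (nat_lit 140737488584704)
 (.ev (nat_lit 660) (nat_lit 262144) (.ev (nat_lit 669) (nat_lit 8796093022208) .dd)))) (.ch (nat_lit 16) (.ev
 (nat_lit 592) (nat_lit 140737488814080) (.ev (nat_lit 688) (nat_lit 8796093022208) (.ev (nat_lit 701) (nat_lit
 32768) .dd))))))) (.br (nat_lit 29) (.br (nat_lit 26) (.ch (nat_lit 22) (.ev (nat_lit 592) (nat_lit
 8796093513728) (.ev (nat_lit 605) (nat_lit 140737488355328) .dd))) (.br (nat_lit 28) (.ch (nat_lit 26) (.ev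
 (nat_lit 592) (nat_lit 140737488846848) (.ev (nat_lit 605) (nat_lit 8796093022208) .dd))) (.ch (nat_lit 28)
 (.ev (nat_lit 592) (nat_lit 149533581869056) .dd)))) (.br (nat_lit 36) (.br (nat_lit 33) (.ch (nat_lit 29)
 (.ev (nat_lit 592) (nat_lit 491520) (.ev (nat_lit 720) (nat_lit 8796093022208) (.ev (nat_lit 733) (nat_lit
 140737488355328) .dd)))) (.ch (nat_lit 33) (.ev (nat_lit 592) (nat_lit 149533581606912) (.ev (nat_lit 605)
 (nat_lit 262144) .dd)))) (.br (nat_lit 38) (.ch (nat_lit 36) (.ev (nat_lit 592) (nat_lit 425984) (.ev (nat_lit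
 688) (nat_lit 8796093022208) (.ev (nat_lit 804) (nat_lit 65536) (.ev (nat_lit 813) (nat_lit 140737488355328)
 .dd))))) (.ch (nat_lit 38) (.ev (nat_lit 592) (nat_lit 140737488846848) (.ev (nat_lit 605) (nat_lit
 8796093022208) .dd)))))))))))))) (.br (nat_lit 38) (.ch (nat_lit 36) (.ev (nat_lit 52) (nat_lit
 1136906029236736) (.ev (nat_lit 116) (nat_lit 98304) (.ev (nat_lit 148) (nat_lit 140737488355328) (.ev
 (nat_lit 180) (nat_lit 4194304) (.ev (nat_lit 212) (nat_lit 562949953552384) (.nd (nat_lit 576) (.br (nat_lit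
 14) (.br (nat_lit 5) (.br (nat_lit 2) (.ch (nat_lit 1) (.ev (nat_lit 592) (nat_lit 412316860416) (.ev (nat_lit
 605) (nat_lit 64) .dd))) (.ch (nat_lit 2) (.ev (nat_lit 592) (nat_lit 274877906944) (.ev (nat_lit 804)
 (nat_lit 64) (.ev (nat_lit 813) (nat_lit 137438953472) .dd))))) (.br (nat_lit 7) (.ch (nat_lit 5) (.ev
 (nat_lit 592) (nat_lit 412316860480) .dd)) (.br (nat_lit 8) (.ch (nat_lit 7) (.ev (nat_lit 592) (nat_lit
 412316860480) .dd)) (.ch (nat_lit 8) (.ev (nat_lit 592) (nat_lit 412316860416) (.ev (nat_lit 605) (nat_lit 64)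
 .dd)))))) (.br (nat_lit 32) (.br (nat_lit 24) (.ch (nat_lit 14) (.ev (nat_lit 592) (nat_lit 412316860480)
 .dd)) (.br (nat_lit 26) (.ch (nat_lit 24) (.ev (nat_lit 592) (nat_lit 137438953536) (.ev (nat_lit 605)
 (nat_lit 274877906944) .dd))) (.ch (nat_lit 26) (.ev (nat_lit 592) (nat_lit 64) (.ev (nat_lit 672) (nat_lit
 274877906944) (.ev (nat_lit 685) (nat_lit 137438953472) .dd)))))) (.br (nat_lit 38) (.ch (nat_lit 32) (.ev
 (nat_lit 660) (nat_lit 274877906944) (.ev (nat_lit 804) (nat_lit 137438953472) (.ev (nat_lit 813) (nat_lit 64)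
 .dd)))) (.br (nat_lit 39) (.ch (nat_lit 38) (.ev (nat_lit 592) (nat_lit 412316860480) .dd)) (.ch (nat_lit 39)
 (.ev (nat_lit 592) (nat_lit 274877907008) (.ev (nat_lit 605) (nat_lit 137438953472) .dd)))))))))))))) (.ch
 (nat_lit 38) (.ev (nat_lit 52) (nat_lit 1266785840267776) (.ev (nat_lit 84) (nat_lit 98304) (.ev (nat_lit 116)
 (nat_lit 562949957615616) (.ev (nat_lit 180) (nat_lit 131072) (.ev (nat_lit 288) (nat_lit 11269994184768)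
 .dd)))))))) (.br (nat_lit 45) (.br (nat_lit 44) (.ch (nat_lit 42) (.ev (nat_lit 52) (nat_lit 151880785494080)
 (.ev (nat_lit 84) (nat_lit 275146342400) (.ev (nat_lit 116) (nat_lit 196608) (.ev (nat_lit 180) (nat_lit
 1125899906842624) (.nd (nat_lit 576) (.br (nat_lit 24) (.br (nat_lit 16) (.br (nat_lit 10) (.ch (nat_lit 8)
 (.ev (nat_lit 592) (nat_lit 562949953421824) .dd)) (.br (nat_lit 14) (.ch (nat_lit 10) (.ev (nat_lit 592)
 (nat_lit 562949953421312) (.ev (nat_lit 605) (nat_lit 512) .dd))) (.ch (nat_lit 14) (.ev (nat_lit 592)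
 (nat_lit 562949953421824) .dd)))) (.br (nat_lit 18) (.ch (nat_lit 16) (.ev (nat_lit 592) (nat_lit
 562949953421824) .dd)) (.br (nat_lit 20) (.ch (nat_lit 18) (.ev (nat_lit 592) (nat_lit 562949953421824) .dd))
 (.ch (nat_lit 20) (.ev (nat_lit 592) (nat_lit 562949953421824) .dd))))) (.br (nat_lit 33) (.br (nat_lit 26)
 (.ch (nat_lit 24) (.ev (nat_lit 592) (nat_lit 562949953421824) .dd)) (.br (nat_lit 28) (.ch (nat_lit 26) (.ev
 (nat_lit 592) (nat_lit 562949953421824) .dd)) (.ch (nat_lit 28) (.ev (nat_lit 592) (nat_lit 562949953421824)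
 .dd)))) (.br (nat_lit 39) (.br (nat_lit 36) (.ch (nat_lit 33) (.ev (nat_lit 592) (nat_lit 512) (.ev (nat_lit
 605) (nat_lit 562949953421312) .dd))) (.ch (nat_lit 36) (.ev (nat_lit 592) (nat_lit 512) (.ev (nat_lit 605)
 (nat_lit 562949953421312) .dd)))) (.br (nat_lit 41) (.ch (nat_lit 39) (.ev (nat_lit 592) (nat_lit
 562949953421824) .dd)) (.ch (nat_lit 41) (.ev (nat_lit 592) (nat_lit 562949953421312) (.ev (nat_lit 605)
 (nat_lit 512) .dd))))))))))))) (.ch (nat_lit 44) (.ev (nat_lit 52) (nat_lit 1831923815022592) (.ev (nat_lit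
 84) (nat_lit 8796093022272) (.ev (nat_lit 180) (nat_lit 197120) (.ev (nat_lit 244) (nat_lit 268435456) (.nd
 (nat_lit 576) (.br (nat_lit 18) (.br (nat_lit 5) (.br (nat_lit 2) (.ch (nat_lit 1) (.ev (nat_lit 592) (nat_lit
 285615357952) (.ev (nat_lit 605) (nat_lit 262144) .dd))) (.ch (nat_lit 2) (.ev (nat_lit 592) (nat_lit
 283468136448) (.ev (nat_lit 605) (nat_lit 2147483648) .dd)))) (.br (nat_lit 15) (.ch (nat_lit 5) (.ev (nat_lit
 592) (nat_lit 8589934592) (.ev (nat_lit 660) (nat_lit 274877906944) (.ev (nat_lit 816) (nat_lit 2147483648)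
 (.fin (nat_lit 576464600578867769)))))) (.br (nat_lit 16) (.ch (nat_lit 15) (.ev (nat_lit 592) (nat_lit
 285615357952) (.ev (nat_lit 605) (nat_lit 262144) .dd))) (.ch (nat_lit 16) (.ev (nat_lit 592) (nat_lit
 8590229504) (.ev (nat_lit 608) (nat_lit 2147483648) (.ev (nat_lit 621) (nat_lit 274877906944) .dd))))))) (.br
 (nat_lit 29) (.br (nat_lit 20) (.ch (nat_lit 18) (.ev (nat_lit 592) (nat_lit 285615620096) .dd)) (.br (nat_lit
 26) (.ch (nat_lit 20) (.ev (nat_lit 592) (nat_lit 285615357952) (.ev (nat_lit 605) (nat_lit 262144) .dd)))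
 (.ch (nat_lit 26) (.ev (nat_lit 592) (nat_lit 277025652736) (.ev (nat_lit 672) (nat_lit 8589967360) .dd)))))
 (.br (nat_lit 39) (.ch (nat_lit 29) (.ev (nat_lit 592) (nat_lit 277025685504) (.ev (nat_lit 605) (nat_lit
 8589934592) .dd))) (.br (nat_lit 41) (.ch (nat_lit 39) (.ev (nat_lit 592) (nat_lit 10737713152) (.ev (nat_lit
 605) (nat_lit 274877906944) .dd))) (.ch (nat_lit 41) (.ev (nat_lit 592) (nat_lit 285615587328) (.ev (nat_lit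
 605) (nat_lit 32768) .dd)))))))))))))) (.br (nat_lit 46) (.ch (nat_lit 45) (.ev (nat_lit 52) (nat_lit
 1689133328532032) (.ev (nat_lit 84) (nat_lit 149671020331008) (.ev (nat_lit 528) (nat_lit 65536) (.nd (nat_lit
 576) (.br (nat_lit 26) (.br (nat_lit 7) (.br (nat_lit 4) (.ch (nat_lit 2) (.ev (nat_lit 592) (nat_lit
 2201170739200) (.ev (nat_lit 704) (nat_lit 272629760) .dd))) (.ch (nat_lit 4) (.ev (nat_lit 592) (nat_lit
 2151677952) (.ev (nat_lit 688) (nat_lit 2199023255552) (.ev (nat_lit 701) (nat_lit 268435456) .dd))))) (.br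
 (nat_lit 10) (.ch (nat_lit 7) (.ev (nat_lit 592) (nat_lit 272629760) (.ev (nat_lit 880) (nat_lit 2147483648)
 (.ev (nat_lit 893) (nat_lit 2199023255552) .dd)))) (.br (nat_lit 16) (.ch (nat_lit 10) (.ev (nat_lit 592)
 (nat_lit 2201443368960) .dd)) (.ch (nat_lit 16) (.ev (nat_lit 592) (nat_lit 2199027449856) (.ev (nat_lit 660)
 (nat_lit 268435456) (.ev (nat_lit 669) (nat_lit 2147483648) .dd))))))) (.br (nat_lit 33) (.br (nat_lit 29)
 (.ch (nat_lit 26) (.ev (nat_lit 592) (nat_lit 2201439174656) (.ev (nat_lit 605) (nat_lit 4194304) .dd))) (.br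
 (nat_lit 32) (.ch (nat_lit 29) (.ev (nat_lit 592) (nat_lit 2420113408) (.ev (nat_lit 605) (nat_lit
 2199023255552) .dd))) (.ch (nat_lit 32) (.ev (nat_lit 592) (nat_lit 2201443368960) .dd)))) (.br (nat_lit 36)
 (.ch (nat_lit 33) (.ev (nat_lit 592) (nat_lit 2201443368960) .dd)) (.br (nat_lit 41) (.ch (nat_lit 36) (.ev
 (nat_lit 592) (nat_lit 2201439174656) (.ev (nat_lit 605) (nat_lit 4194304) .dd))) (.ch (nat_lit 41) (.ev
 (nat_lit 592) (nat_lit 2201443368960) .dd))))))))))) (.ch (nat_lit 46) (.ev (nat_lit 52) (nat_lit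
 1275435639931456) (.ev (nat_lit 84) (nat_lit 262144) (.ev (nat_lit 116) (nat_lit 137439084544) (.ev (nat_lit
 180) (nat_lit 562949953421312) (.ev (nat_lit 224) (nat_lit 2482759598080) .dd)))))))))))))

/-- Subtrie. -/
noncomputable def T6 : Tr := (.ev (nat_lit 20) (nat_lit 649882258278928) (.nd (nat_lit 33) (.br (nat_lit 25)
 (.br (nat_lit 14) (.br (nat_lit 5) (.br (nat_lit 2) (.ch (nat_lit 1) (.ev (nat_lit 52) (nat_lit
 18142281601056) (.ev (nat_lit 84) (nat_lit 274877907008) (.ev (nat_lit 116) (nat_lit 5629508124147712) (.ev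
 (nat_lit 212) (nat_lit 1024) (.nd (nat_lit 576) (.br (nat_lit 27) (.br (nat_lit 6) (.br (nat_lit 1) (.ch
 (nat_lit 0) (.ev (nat_lit 592) (nat_lit 140875464245248) (.ev (nat_lit 605) (nat_lit 281474976710656) .dd)))
 (.br (nat_lit 3) (.ch (nat_lit 1) (.ev (nat_lit 592) (nat_lit 422350440955904) .dd)) (.ch (nat_lit 3) (.ev
 (nat_lit 592) (nat_lit 422349904084992) (.ev (nat_lit 605) (nat_lit 536870912) .dd))))) (.br (nat_lit 8) (.ch
 (nat_lit 6) (.ev (nat_lit 592) (nat_lit 281612952600576) (.ev (nat_lit 605) (nat_lit 140737488355328) .dd)))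
 (.br (nat_lit 17) (.ch (nat_lit 8) (.ev (nat_lit 592) (nat_lit 281612952535040) (.ev (nat_lit 804) (nat_lit
 65536) (.ev (nat_lit 813) (nat_lit 140737488355328) .dd)))) (.ch (nat_lit 17) (.ev (nat_lit 592) (nat_lit
 422349904019456) (.ev (nat_lit 660) (nat_lit 65536) (.ev (nat_lit 669) (nat_lit 536870912) .dd))))))) (.br
 (nat_lit 34) (.br (nat_lit 29) (.ch (nat_lit 27) (.ev (nat_lit 592) (nat_lit 422212465131520) (.ev (nat_lit
 624) (nat_lit 137438953472) (.ev (nat_lit 637) (nat_lit 536870912) .dd)))) (.br (nat_lit 30) (.ch (nat_lit 29)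
 (.ev (nat_lit 592) (nat_lit 140875464245248) (.ev (nat_lit 605) (nat_lit 281474976710656) .dd))) (.ch (nat_lit
 30) (.ev (nat_lit 592) (nat_lit 422350440955904) .dd)))) (.br (nat_lit 40) (.br (nat_lit 38) (.ch (nat_lit 34)
 (.ev (nat_lit 592) (nat_lit 422350440955904) .dd)) (.ch (nat_lit 38) (.ev (nat_lit 592) (nat_lit
 281612952600576) (.ev (nat_lit 605) (nat_lit 140737488355328) .dd)))) (.br (nat_lit 41) (.ch (nat_lit 40) (.ev
 (nat_lit 592) (nat_lit 422350440890368) (.ev (nat_lit 605) (nat_lit 65536) .dd))) (.ch (nat_lit 41) (.ev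
 (nat_lit 592) (nat_lit 281612415729664) (.ev (nat_lit 660) (nat_lit 140737488355328) (.ev (nat_lit 669)
 (nat_lit 536870912) .dd)))))))))))))) (.br (nat_lit 3) (.ch (nat_lit 2) (.ev (nat_lit 52) (nat_lit
 1548533345812512) (.ev (nat_lit 84) (nat_lit 268500992) (.ev (nat_lit 116) (nat_lit 4503599627375616) (.ev
 (nat_lit 148) (nat_lit 536870912) (.ev (nat_lit 288) (nat_lit 18141946052672) .dd)))))) (.ch (nat_lit 3) (.ev
 (nat_lit 52) (nat_lit 1126450199598144) (.ev (nat_lit 84) (nat_lit 268435488) (.ev (nat_lit 148) (nat_lit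
 281612415664128) (.ev (nat_lit 180) (nat_lit 67108864) (.ev (nat_lit 212) (nat_lit 4194304) (.ev (nat_lit 244)
 (nat_lit 17592186044416) (.ev (nat_lit 372) (nat_lit 8589934592) (.nd (nat_lit 576) (.br (nat_lit 20) (.br
 (nat_lit 8) (.br (nat_lit 2) (.ch (nat_lit 1) (.ev (nat_lit 592) (nat_lit 4644611993632768) .dd)) (.br
 (nat_lit 6) (.ch (nat_lit 2) (.ev (nat_lit 592) (nat_lit 4644337115725824) (.ev (nat_lit 605) (nat_lit
 274877906944) .dd))) (.ch (nat_lit 6) (.ev (nat_lit 592) (nat_lit 4503874505277440) (.ev (nat_lit 605)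
 (nat_lit 140737488355328) .dd))))) (.br (nat_lit 9) (.ch (nat_lit 8) (.ev (nat_lit 592) (nat_lit
 4644611993632768) .dd)) (.br (nat_lit 10) (.ch (nat_lit 9) (.ev (nat_lit 592) (nat_lit 4503599627370496) (.ev
 (nat_lit 720) (nat_lit 140737488355328) (.ev (nat_lit 733) (nat_lit 274877906944) .dd)))) (.ch (nat_lit 10)
 (.ev (nat_lit 592) (nat_lit 4503874505277440) (.ev (nat_lit 605) (nat_lit 140737488355328) .dd)))))) (.br
 (nat_lit 30) (.br (nat_lit 27) (.ch (nat_lit 20) (.ev (nat_lit 592) (nat_lit 4644611993632768) .dd)) (.br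
 (nat_lit 28) (.ch (nat_lit 27) (.ev (nat_lit 592) (nat_lit 4644611993632768) .dd)) (.ch (nat_lit 28) (.ev
 (nat_lit 592) (nat_lit 4503874505277440) (.ev (nat_lit 605) (nat_lit 140737488355328) .dd))))) (.br (nat_lit
 38) (.br (nat_lit 34) (.ch (nat_lit 30) (.ev (nat_lit 592) (nat_lit 4644337115725824) (.ev (nat_lit 605)
 (nat_lit 274877906944) .dd))) (.ch (nat_lit 34) (.ev (nat_lit 592) (nat_lit 4644611993632768) .dd))) (.br
 (nat_lit 40) (.ch (nat_lit 38) (.ev (nat_lit 592) (nat_lit 4644611993632768) .dd)) (.ch (nat_lit 40) (.ev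
 (nat_lit 592) (nat_lit 274877906944) (.ev (nat_lit 804) (nat_lit 4503599627370496) (.ev (nat_lit 813) (nat_lit
 140737488355328) .dd))))))))))))))))))) (.br (nat_lit 11) (.br (nat_lit 9) (.ch (nat_lit 5) (.ev (nat_lit 52)
 (nat_lit 159154916364320) (.ev (nat_lit 84) (nat_lit 4503737334759424) (.ev (nat_lit 180) (nat_lit
 1125899906842624) (.ev (nat_lit 212) (nat_lit 64) (.nd (nat_lit 576) (.br (nat_lit 22) (.br (nat_lit 9) (.br
 (nat_lit 1) (.ch (nat_lit 0) (.ev (nat_lit 592) (nat_lit 281483566646272) .dd)) (.br (nat_lit 2) (.ch (nat_lit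
 1) (.ev (nat_lit 592) (nat_lit 281483566645248) (.ev (nat_lit 605) (nat_lit 1024) .dd))) (.ch (nat_lit 2) (.ev
 (nat_lit 592) (nat_lit 281483566646272) .dd)))) (.br (nat_lit 13) (.br (nat_lit 10) (.ch (nat_lit 9) (.ev
 (nat_lit 592) (nat_lit 8589935616) (.ev (nat_lit 605) (nat_lit 281474976710656) .dd))) (.ch (nat_lit 10) (.ev
 (nat_lit 592) (nat_lit 8589934592) (.ev (nat_lit 660) (nat_lit 281474976710656) (.ev (nat_lit 669) (nat_lit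
 1024) .dd))))) (.br (nat_lit 20) (.ch (nat_lit 13) (.ev (nat_lit 592) (nat_lit 281483566646272) .dd)) (.ch
 (nat_lit 20) (.ev (nat_lit 592) (nat_lit 8589935616) (.ev (nat_lit 605) (nat_lit 281474976710656) .dd))))))
 (.br (nat_lit 28) (.br (nat_lit 26) (.ch (nat_lit 22) (.ev (nat_lit 592) (nat_lit 8589935616) (.ev (nat_lit
 605) (nat_lit 281474976710656) .dd))) (.br (nat_lit 27) (.ch (nat_lit 26) (.ev (nat_lit 592) (nat_lit
 281483566645248) (.ev (nat_lit 605) (nat_lit 1024) .dd))) (.ch (nat_lit 27) (.ev (nat_lit 592) (nat_lit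
 281474976711680) (.ev (nat_lit 605) (nat_lit 8589934592) .dd))))) (.br (nat_lit 40) (.br (nat_lit 31) (.ch
 (nat_lit 28) (.ev (nat_lit 592) (nat_lit 1024) (.ev (nat_lit 688) (nat_lit 281474976710656) (.ev (nat_lit 701)
 (nat_lit 8589934592) .dd)))) (.ch (nat_lit 31) (.ev (nat_lit 592) (nat_lit 8589935616) (.ev (nat_lit 605)
 (nat_lit 281474976710656) .dd)))) (.br (nat_lit 41) (.ch (nat_lit 40) (.ev (nat_lit 592) (nat_lit
 281483566646272) .dd)) (.ch (nat_lit 41) (.ev (nat_lit 592) (nat_lit 281474976711680) (.ev (nat_lit 605)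
 (nat_lit 8589934592) .dd))))))))))))) (.ch (nat_lit 9) (.ev (nat_lit 52) (nat_lit 141149809411072) (.ev
 (nat_lit 84) (nat_lit 549755879456) (.ev (nat_lit 116) (nat_lit 64) (.nd (nat_lit 576) (.br (nat_lit 27) (.br
 (nat_lit 5) (.br (nat_lit 2) (.ch (nat_lit 1) (.ev (nat_lit 592) (nat_lit 1143492428431360) (.ev (nat_lit 660)
 (nat_lit 4503599627370496) (.ev (nat_lit 804) (nat_lit 9126809600) (.ev (nat_lit 813) (nat_lit
 281474976710656) .dd))))) (.ch (nat_lit 2) (.ev (nat_lit 592) (nat_lit 4785083797995520) (.ev (nat_lit 660)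
 (nat_lit 17592186044416) (.ev (nat_lit 804) (nat_lit 268435456) (.fin (nat_lit 576458003511198259))))))) (.br
 (nat_lit 22) (.ch (nat_lit 5) (.ev (nat_lit 592) (nat_lit 5629508661022720) (.ev (nat_lit 608) (nat_lit
 268435456) (.ev (nat_lit 672) (nat_lit 67108864) (.ev (nat_lit 688) (nat_lit 299067162755072) .dd))))) (.br
 (nat_lit 26) (.ch (nat_lit 22) (.ev (nat_lit 592) (nat_lit 4802667058565120) (.ev (nat_lit 660) (nat_lit
 1125900510822400) (.ev (nat_lit 669) (nat_lit 8589934592) .dd)))) (.ch (nat_lit 26) (.ev (nat_lit 592)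
 (nat_lit 5928567569383424) (.ev (nat_lit 688) (nat_lit 4096) (.ev (nat_lit 701) (nat_lit 8589934592)
 .dd))))))) (.br (nat_lit 31) (.br (nat_lit 28) (.ch (nat_lit 27) (.ev (nat_lit 592) (nat_lit 5910974846472192)
 (.ev (nat_lit 704) (nat_lit 8589934592) (.ev (nat_lit 932) (nat_lit 536870912) (.ev (nat_lit 941) (nat_lit
 17592186044416) .dd))))) (.br (nat_lit 30) (.ch (nat_lit 28) (.ev (nat_lit 592) (nat_lit 4521200738897920)
 (.ev (nat_lit 660) (nat_lit 1125899906842624) (.ev (nat_lit 688) (nat_lit 281474976710656) (.ev (nat_lit 701)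
 (nat_lit 536870912) .dd))))) (.ch (nat_lit 30) (.ev (nat_lit 592) (nat_lit 5928576159318016) (.ev (nat_lit
 605) (nat_lit 4096) .dd))))) (.br (nat_lit 34) (.ch (nat_lit 31) (.ev (nat_lit 592) (nat_lit 5647101182611456)
 (.ev (nat_lit 605) (nat_lit 281474976710656) .dd))) (.br (nat_lit 41) (.ch (nat_lit 34) (.ev (nat_lit 592)
 (nat_lit 1424976263516160) (.ev (nat_lit 672) (nat_lit 4503599895805952) .dd))) (.ch (nat_lit 41) (.ev
 (nat_lit 592) (nat_lit 1424976531951616) (.ev (nat_lit 605) (nat_lit 4503599627370496) .dd))))))))))))) (.br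
 (nat_lit 12) (.ch (nat_lit 11) (.ev (nat_lit 52) (nat_lit 4521604939841600) (.ev (nat_lit 84) (nat_lit
 140737488355328) (.ev (nat_lit 116) (nat_lit 67108896) (.ev (nat_lit 148) (nat_lit 1125908496777216) (.ev
 (nat_lit 560) (nat_lit 4096) (.nd (nat_lit 576) (.br (nat_lit 24) (.br (nat_lit 5) (.br (nat_lit 3) (.ch
 (nat_lit 1) (.ev (nat_lit 592) (nat_lit 282024732525568) .dd)) (.ch (nat_lit 3) (.ev (nat_lit 592) (nat_lit
 282024732525568) .dd))) (.br (nat_lit 9) (.ch (nat_lit 5) (.ev (nat_lit 592) (nat_lit 282024732525568) .dd))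
 (.br (nat_lit 20) (.ch (nat_lit 9) (.ev (nat_lit 592) (nat_lit 281474976711680) (.ev (nat_lit 605) (nat_lit
 549755813888) .dd))) (.ch (nat_lit 20) (.ev (nat_lit 592) (nat_lit 282024732525568) .dd))))) (.br (nat_lit 29)
 (.br (nat_lit 26) (.ch (nat_lit 24) (.ev (nat_lit 592) (nat_lit 282024732525568) .dd)) (.br (nat_lit 27) (.ch
 (nat_lit 26) (.ev (nat_lit 592) (nat_lit 281474976710656) (.ev (nat_lit 660) (nat_lit 1024) (.ev (nat_lit 669)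
 (nat_lit 549755813888) .dd)))) (.ch (nat_lit 27) (.ev (nat_lit 592) (nat_lit 281474976711680) (.ev (nat_lit
 605) (nat_lit 549755813888) .dd))))) (.br (nat_lit 38) (.ch (nat_lit 29) (.ev (nat_lit 592) (nat_lit
 549755814912) (.ev (nat_lit 605) (nat_lit 281474976710656) .dd))) (.br (nat_lit 40) (.ch (nat_lit 38) (.ev
 (nat_lit 592) (nat_lit 282024732524544) (.ev (nat_lit 605) (nat_lit 1024) .dd))) (.ch (nat_lit 40) (.ev
 (nat_lit 592) (nat_lit 282024732524544) (.ev (nat_lit 605) (nat_lit 1024) .dd)))))))))))))) (.ch (nat_lit 12)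
 (.ev (nat_lit 52) (nat_lit 5629637308777472) (.ev (nat_lit 64) (nat_lit 440638415835232) .dd)))))) (.br
 (nat_lit 19) (.br (nat_lit 16) (.br (nat_lit 15) (.ch (nat_lit 14) (.ev (nat_lit 52) (nat_lit
 4785907899039840) (.ev (nat_lit 84) (nat_lit 1125899906842624) (.ev (nat_lit 148) (nat_lit 158329674399744)
 (.ev (nat_lit 180) (nat_lit 1024) (.ev (nat_lit 436) (nat_lit 268435456) (.nd (nat_lit 576) (.br (nat_lit 24)
 (.br (nat_lit 10) (.br (nat_lit 1) (.ch (nat_lit 0) (.ev (nat_lit 592) (nat_lit 137975828480) (.ev (nat_lit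
 605) (nat_lit 65536) .dd))) (.br (nat_lit 3) (.ch (nat_lit 1) (.ev (nat_lit 592) (nat_lit 536940544) (.ev
 (nat_lit 605) (nat_lit 137438953472) .dd))) (.ch (nat_lit 3) (.ev (nat_lit 592) (nat_lit 137975889920) (.ev
 (nat_lit 605) (nat_lit 4096) .dd))))) (.br (nat_lit 13) (.br (nat_lit 12) (.ch (nat_lit 10) (.ev (nat_lit 592)
 (nat_lit 137975894016) .dd)) (.ch (nat_lit 12) (.ev (nat_lit 592) (nat_lit 137975894016) .dd))) (.br (nat_lit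
 17) (.ch (nat_lit 13) (.ev (nat_lit 592) (nat_lit 137439019008) (.ev (nat_lit 816) (nat_lit 536875008) .dd)))
 (.ch (nat_lit 17) (.ev (nat_lit 592) (nat_lit 137975824384) (.ev (nat_lit 608) (nat_lit 65536) (.ev (nat_lit
 621) (nat_lit 4096) .dd))))))) (.br (nat_lit 31) (.br (nat_lit 28) (.ch (nat_lit 24) (.ev (nat_lit 592)
 (nat_lit 69632) (.ev (nat_lit 608) (nat_lit 137438953472) (.ev (nat_lit 621) (nat_lit 536870912) .dd)))) (.br
 (nat_lit 29) (.ch (nat_lit 28) (.ev (nat_lit 592) (nat_lit 137439019008) (.ev (nat_lit 816) (nat_lit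
 536875008) .dd))) (.ch (nat_lit 29) (.ev (nat_lit 592) (nat_lit 137975894016) .dd)))) (.br (nat_lit 40) (.br
 (nat_lit 38) (.ch (nat_lit 31) (.ev (nat_lit 592) (nat_lit 137975894016) .dd)) (.ch (nat_lit 38) (.ev (nat_lit
 592) (nat_lit 137439023104) (.ev (nat_lit 605) (nat_lit 536870912) .dd)))) (.br (nat_lit 41) (.ch (nat_lit 40)
 (.ev (nat_lit 592) (nat_lit 137975828480) (.ev (nat_lit 605) (nat_lit 65536) .dd))) (.ch (nat_lit 41) (.ev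
 (nat_lit 592) (nat_lit 536940544) (.ev (nat_lit 605) (nat_lit 137438953472) .dd)))))))))))))) (.ch (nat_lit
 15) (.ev (nat_lit 52) (nat_lit 282162444178432) (.ev (nat_lit 84) (nat_lit 4503599627370496) (.ev (nat_lit
 116) (nat_lit 1266637932068864) (.ev (nat_lit 148) (nat_lit 67108864) (.ev (nat_lit 244) (nat_lit 8589934592)
 (.nd (nat_lit 576) (.br (nat_lit 13) (.br (nat_lit 9) (.br (nat_lit 5) (.ch (nat_lit 1) (.ev (nat_lit 592)
 (nat_lit 17592186044480) (.ev (nat_lit 660) (nat_lit 32) (.ev (nat_lit 669) (nat_lit 274877906944) .dd))))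
 (.br (nat_lit 8) (.ch (nat_lit 5) (.ev (nat_lit 592) (nat_lit 274877907040) (.ev (nat_lit 605) (nat_lit
 17592186044416) .dd))) (.ch (nat_lit 8) (.ev (nat_lit 592) (nat_lit 274877906976) (.ev (nat_lit 804) (nat_lit
 64) (.ev (nat_lit 813) (nat_lit 17592186044416) .dd)))))) (.br (nat_lit 10) (.ch (nat_lit 9) (.ev (nat_lit
 592) (nat_lit 17592186044416) (.ev (nat_lit 804) (nat_lit 96) (.ev (nat_lit 813) (nat_lit 274877906944)
 .dd)))) (.br (nat_lit 12) (.ch (nat_lit 10) (.ev (nat_lit 592) (nat_lit 17867063951424) (.ev (nat_lit 605)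
 (nat_lit 32) .dd))) (.ch (nat_lit 12) (.ev (nat_lit 592) (nat_lit 17867063951456) .dd))))) (.br (nat_lit 26)
 (.br (nat_lit 20) (.ch (nat_lit 13) (.ev (nat_lit 592) (nat_lit 17867063951392) (.ev (nat_lit 605) (nat_lit
 64) .dd))) (.br (nat_lit 22) (.ch (nat_lit 20) (.ev (nat_lit 592) (nat_lit 17592186044512) (.ev (nat_lit 605)
 (nat_lit 274877906944) .dd))) (.ch (nat_lit 22) (.ev (nat_lit 592) (nat_lit 17867063951360) (.ev (nat_lit 660)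
 (nat_lit 32) (.ev (nat_lit 669) (nat_lit 64) .dd)))))) (.br (nat_lit 31) (.br (nat_lit 28) (.ch (nat_lit 26)
 (.ev (nat_lit 592) (nat_lit 274877907040) (.ev (nat_lit 605) (nat_lit 17592186044416) .dd))) (.ch (nat_lit 28)
 (.ev (nat_lit 592) (nat_lit 17867063951456) .dd))) (.br (nat_lit 34) (.ch (nat_lit 31) (.ev (nat_lit 592)
 (nat_lit 17867063951456) .dd)) (.ch (nat_lit 34) (.ev (nat_lit 592) (nat_lit 17867063951456) .dd))))))))))))))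
 (.br (nat_lit 18) (.ch (nat_lit 16) (.ev (nat_lit 52) (nat_lit 4503737674498144) (.ev (nat_lit 84) (nat_lit
 281750123053056) (.ev (nat_lit 148) (nat_lit 8589934592) (.ev (nat_lit 180) (nat_lit 17592186044416) (.nd
 (nat_lit 576) (.br (nat_lit 17) (.br (nat_lit 5) (.br (nat_lit 2) (.ch (nat_lit 1) (.ev (nat_lit 592) (nat_lit
 1266637395264512) (.ev (nat_lit 672) (nat_lit 549755817984) .dd))) (.br (nat_lit 3) (.ch (nat_lit 2) (.ev
 (nat_lit 592) (nat_lit 141287244235776) (.fin (nat_lit 576464600610325069)))) (.ch (nat_lit 3) (.ev (nat_lit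
 592) (nat_lit 1267187151081472) (.ev (nat_lit 605) (nat_lit 1024) .dd))))) (.br (nat_lit 10) (.br (nat_lit 9)
 (.ch (nat_lit 5) (.ev (nat_lit 592) (nat_lit 141287244239872) (.ev (nat_lit 605) (nat_lit 1125899906842624)
 .dd))) (.ch (nat_lit 9) (.ev (nat_lit 592) (nat_lit 1126449662727168) (.ev (nat_lit 605) (nat_lit
 140737488355328) .dd)))) (.br (nat_lit 13) (.ch (nat_lit 10) (.ev (nat_lit 592) (nat_lit 1126449662726144)
 (.ev (nat_lit 720) (nat_lit 140737488355328) (.ev (nat_lit 733) (nat_lit 1024) .dd)))) (.ch (nat_lit 13) (.ev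
 (nat_lit 592) (nat_lit 1126449662727168) (.ev (nat_lit 605) (nat_lit 140737488355328) .dd)))))) (.br (nat_lit
 24) (.br (nat_lit 20) (.ch (nat_lit 17) (.ev (nat_lit 592) (nat_lit 1267187151011840) (.ev (nat_lit 660)
 (nat_lit 65536) (.ev (nat_lit 672) (nat_lit 1024) (.ev (nat_lit 685) (nat_lit 4096) .dd))))) (.br (nat_lit 22)
 (.ch (nat_lit 20) (.ev (nat_lit 592) (nat_lit 1126449662723072) (.ev (nat_lit 688) (nat_lit 140737488355328)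
 (.ev (nat_lit 701) (nat_lit 4096) .dd)))) (.ch (nat_lit 22) (.ev (nat_lit 592) (nat_lit 1267187151081472) (.ev
 (nat_lit 605) (nat_lit 1024) .dd))))) (.br (nat_lit 40) (.br (nat_lit 34) (.ch (nat_lit 24) (.ev (nat_lit 592)
 (nat_lit 1267187151082496) .dd)) (.ch (nat_lit 34) (.ev (nat_lit 592) (nat_lit 549755884544) (.ev (nat_lit
 660) (nat_lit 1125899906842624) (.ev (nat_lit 669) (nat_lit 140737488355328) .dd))))) (.br (nat_lit 41) (.ch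
 (nat_lit 40) (.ev (nat_lit 592) (nat_lit 141287244239872) (.ev (nat_lit 605) (nat_lit 1125899906842624) .dd)))
 (.ch (nat_lit 41) (.ev (nat_lit 592) (nat_lit 1126449662660608) (.ev (nat_lit 688) (nat_lit 140737488355328)
 (.ev (nat_lit 804) (nat_lit 1024) (.ev (nat_lit 813) (nat_lit 65536) .dd))))))))))))))) (.ch (nat_lit 18) (.ev
 (nat_lit 52) (nat_lit 158888024342592) (.ev (nat_lit 84) (nat_lit 281474976710656) (.ev (nat_lit 116) (nat_lit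
 1024) (.ev (nat_lit 180) (nat_lit 67112960) (.ev (nat_lit 212) (nat_lit 137975824384) (.ev (nat_lit 244)
 (nat_lit 1125899906842656) (.ev (nat_lit 464) (nat_lit 65536) (.nd (nat_lit 576) (.br (nat_lit 20) (.br
 (nat_lit 6) (.br (nat_lit 3) (.ch (nat_lit 2) (.ev (nat_lit 592) (nat_lit 4503874773712896) .dd)) (.ch
 (nat_lit 3) (.ev (nat_lit 592) (nat_lit 4503874505277440) (.ev (nat_lit 605) (nat_lit 268435456) .dd)))) (.br
 (nat_lit 8) (.ch (nat_lit 6) (.ev (nat_lit 592) (nat_lit 4503599895805952) (.ev (nat_lit 605) (nat_lit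
 274877906944) .dd))) (.br (nat_lit 13) (.ch (nat_lit 8) (.ev (nat_lit 592) (nat_lit 4503874505277440) (.ev
 (nat_lit 605) (nat_lit 268435456) .dd))) (.ch (nat_lit 13) (.ev (nat_lit 592) (nat_lit 4503874773712896)
 .dd))))) (.br (nat_lit 27) (.br (nat_lit 22) (.ch (nat_lit 20) (.ev (nat_lit 592) (nat_lit 4503874773712896)
 .dd)) (.br (nat_lit 26) (.ch (nat_lit 22) (.ev (nat_lit 592) (nat_lit 4503599895805952) (.ev (nat_lit 605)
 (nat_lit 274877906944) .dd))) (.ch (nat_lit 26) (.ev (nat_lit 592) (nat_lit 275146342400) (.ev (nat_lit 605)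
 (nat_lit 4503599627370496) .dd))))) (.br (nat_lit 34) (.ch (nat_lit 27) (.ev (nat_lit 592) (nat_lit
 4503874773712896) .dd)) (.br (nat_lit 40) (.ch (nat_lit 34) (.ev (nat_lit 592) (nat_lit 274877906944) (.ev
 (nat_lit 688) (nat_lit 268435456) (.ev (nat_lit 701) (nat_lit 4503599627370496) .dd)))) (.ch (nat_lit 40) (.ev
 (nat_lit 592) (nat_lit 275146342400) (.ev (nat_lit 605) (nat_lit 4503599627370496) .dd)))))))))))))))))) (.br
 (nat_lit 21) (.br (nat_lit 20) (.ch (nat_lit 19) (.ev (nat_lit 52) (nat_lit 423037102982176) (.ev (nat_lit 84)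
 (nat_lit 536870912) (.ev (nat_lit 116) (nat_lit 137438953472) (.ev (nat_lit 180) (nat_lit 67108864) (.ev
 (nat_lit 212) (nat_lit 17592186044416) (.ev (nat_lit 244) (nat_lit 1125899906842624) (.nd (nat_lit 576) (.br
 (nat_lit 13) (.br (nat_lit 8) (.br (nat_lit 1) (.ch (nat_lit 0) (.ev (nat_lit 592) (nat_lit 4503608217309248)
 (.ev (nat_lit 660) (nat_lit 65536) (.ev (nat_lit 669) (nat_lit 268435456) .dd)))) (.br (nat_lit 2) (.ch
 (nat_lit 1) (.ev (nat_lit 592) (nat_lit 8858435648) (.ev (nat_lit 660) (nat_lit 4096) (.ev (nat_lit 669)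
 (nat_lit 4503599627370496) .dd)))) (.ch (nat_lit 2) (.ev (nat_lit 592) (nat_lit 4503608217370688) (.ev
 (nat_lit 672) (nat_lit 268435456) (.ev (nat_lit 685) (nat_lit 4096) .dd)))))) (.br (nat_lit 9) (.ch (nat_lit
 8) (.ev (nat_lit 592) (nat_lit 8858374208) (.ev (nat_lit 804) (nat_lit 65536) (.ev (nat_lit 813) (nat_lit
 4503599627370496) .dd)))) (.br (nat_lit 10) (.ch (nat_lit 9) (.ev (nat_lit 592) (nat_lit 4503608485810176)
 (.ev (nat_lit 605) (nat_lit 64) .dd))) (.ch (nat_lit 10) (.ev (nat_lit 592) (nat_lit 4503599895875648) (.ev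
 (nat_lit 605) (nat_lit 8589934592) .dd)))))) (.br (nat_lit 24) (.br (nat_lit 17) (.ch (nat_lit 13) (.ev
 (nat_lit 592) (nat_lit 8858370048) (.ev (nat_lit 660) (nat_lit 4503599627370496) (.ev (nat_lit 688) (nat_lit
 4096) (.fin (nat_lit 576455804508914221)))))) (.br (nat_lit 22) (.ch (nat_lit 17) (.ev (nat_lit 592) (nat_lit
 4503608485806144) (.ev (nat_lit 605) (nat_lit 4096) .dd))) (.ch (nat_lit 22) (.ev (nat_lit 592) (nat_lit
 8858439680) (.ev (nat_lit 804) (nat_lit 64) (.ev (nat_lit 813) (nat_lit 4503599627370496) .dd)))))) (.br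
 (nat_lit 30) (.br (nat_lit 29) (.ch (nat_lit 24) (.ev (nat_lit 592) (nat_lit 4503608485810240) .dd)) (.ch
 (nat_lit 29) (.ev (nat_lit 592) (nat_lit 4503608485810176) (.ev (nat_lit 605) (nat_lit 64) .dd)))) (.br
 (nat_lit 40) (.ch (nat_lit 30) (.ev (nat_lit 592) (nat_lit 4503599627374656) (.ev (nat_lit 660) (nat_lit
 268500992) (.ev (nat_lit 669) (nat_lit 8589934592) .dd)))) (.ch (nat_lit 40) (.ev (nat_lit 592) (nat_lit
 4503608217309248) (.ev (nat_lit 688) (nat_lit 65536) (.ev (nat_lit 701) (nat_lit 268435456)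
 .dd)))))))))))))))) (.ch (nat_lit 20) (.ev (nat_lit 52) (nat_lit 4504432851091520) (.ev (nat_lit 64) (nat_lit
 1565842873521184) .dd)))) (.br (nat_lit 22) (.ch (nat_lit 21) (.ev (nat_lit 52) (nat_lit 1143775829234688)
 (.ev (nat_lit 96) (nat_lit 4926499895378016) .dd))) (.ch (nat_lit 22) (.ev (nat_lit 52) (nat_lit
 1143500749996096) (.ev (nat_lit 84) (nat_lit 140737488360448) (.ev (nat_lit 148) (nat_lit 4504149651619840)
 (.ev (nat_lit 180) (nat_lit 275414777856) (.nd (nat_lit 576) (.br (nat_lit 26) (.br (nat_lit 9) (.br (nat_lit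
 5) (.ch (nat_lit 3) (.ev (nat_lit 592) (nat_lit 137443147808) (.ev (nat_lit 605) (nat_lit 281474976710656)
 .dd))) (.br (nat_lit 8) (.ch (nat_lit 5) (.ev (nat_lit 592) (nat_lit 281474976710688) (.ev (nat_lit 660)
 (nat_lit 4194304) (.ev (nat_lit 669) (nat_lit 137438953472) .dd)))) (.ch (nat_lit 8) (.ev (nat_lit 592)
 (nat_lit 281612419858464) .dd)))) (.br (nat_lit 17) (.br (nat_lit 10) (.ch (nat_lit 9) (.ev (nat_lit 592)
 (nat_lit 137443147808) (.ev (nat_lit 605) (nat_lit 281474976710656) .dd))) (.ch (nat_lit 10) (.ev (nat_lit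
 592) (nat_lit 137443147808) (.ev (nat_lit 605) (nat_lit 281474976710656) .dd)))) (.br (nat_lit 24) (.ch
 (nat_lit 17) (.ev (nat_lit 592) (nat_lit 281612419858464) .dd)) (.ch (nat_lit 24) (.ev (nat_lit 592) (nat_lit
 281612419858464) .dd))))) (.br (nat_lit 30) (.br (nat_lit 27) (.ch (nat_lit 26) (.ev (nat_lit 592) (nat_lit
 281612415664128) (.ev (nat_lit 704) (nat_lit 32) (.ev (nat_lit 717) (nat_lit 4194304) .dd)))) (.br (nat_lit
 28) (.ch (nat_lit 27) (.ev (nat_lit 592) (nat_lit 281612419858464) .dd)) (.ch (nat_lit 28) (.ev (nat_lit 592)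
 (nat_lit 137443147808) (.ev (nat_lit 605) (nat_lit 281474976710656) .dd))))) (.br (nat_lit 40) (.br (nat_lit
 34) (.ch (nat_lit 30) (.ev (nat_lit 592) (nat_lit 4194336) (.ev (nat_lit 660) (nat_lit 137438953472) (.ev
 (nat_lit 669) (nat_lit 281474976710656) .dd)))) (.ch (nat_lit 34) (.ev (nat_lit 592) (nat_lit 137438953504)
 (.ev (nat_lit 660) (nat_lit 4194304) (.ev (nat_lit 669) (nat_lit 281474976710656) .dd))))) (.br (nat_lit 41)
 (.ch (nat_lit 40) (.ev (nat_lit 592) (nat_lit 281612415664160) (.ev (nat_lit 605) (nat_lit 4194304) .dd)))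
 (.ch (nat_lit 41) (.ev (nat_lit 592) (nat_lit 281474980904992) (.ev (nat_lit 605) (nat_lit 137438953472)
 .dd))))))))))))))))) (.br (nat_lit 33) (.br (nat_lit 28) (.br (nat_lit 26) (.ch (nat_lit 25) (.ev (nat_lit 52)
 (nat_lit 299480356294720) (.ev (nat_lit 116) (nat_lit 1056) (.ev (nat_lit 212) (nat_lit 1125908496777216) (.ev
 (nat_lit 384) (nat_lit 4644886871539712) .dd))))) (.br (nat_lit 27) (.ch (nat_lit 26) (.ev (nat_lit 52)
 (nat_lit 5771070783098880) (.ev (nat_lit 96) (nat_lit 299204941513824) .dd))) (.ch (nat_lit 27) (.ev (nat_lit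
 52) (nat_lit 281896755926048) (.ev (nat_lit 84) (nat_lit 17592186044416) (.ev (nat_lit 116) (nat_lit
 549755813888) (.ev (nat_lit 148) (nat_lit 4259840) (.ev (nat_lit 256) (nat_lit 5770237022568512) .dd))))))))
 (.br (nat_lit 31) (.br (nat_lit 29) (.ch (nat_lit 28) (.ev (nat_lit 52) (nat_lit 6052408052483072) (.ev
 (nat_lit 84) (nat_lit 4096) (.ev (nat_lit 116) (nat_lit 64) (.ev (nat_lit 148) (nat_lit 32) (.ev (nat_lit 212)
 (nat_lit 4194304) (.nd (nat_lit 576) (.br (nat_lit 12) (.br (nat_lit 5) (.br (nat_lit 2) (.ch (nat_lit 1) (.ev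
 (nat_lit 592) (nat_lit 17592253153280) (.ev (nat_lit 704) (nat_lit 536870912) (.ev (nat_lit 717) (nat_lit
 274877906944) .dd)))) (.br (nat_lit 3) (.ch (nat_lit 2) (.ev (nat_lit 592) (nat_lit 603979776) (.ev (nat_lit
 660) (nat_lit 274877906944) (.ev (nat_lit 669) (nat_lit 17592186044416) .dd)))) (.ch (nat_lit 3) (.ev (nat_lit
 592) (nat_lit 17867667931136) .dd)))) (.br (nat_lit 9) (.br (nat_lit 8) (.ch (nat_lit 5) (.ev (nat_lit 592)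
 (nat_lit 17867600822272) (.ev (nat_lit 605) (nat_lit 67108864) .dd))) (.ch (nat_lit 8) (.ev (nat_lit 592)
 (nat_lit 17867667931136) .dd))) (.br (nat_lit 10) (.ch (nat_lit 9) (.ev (nat_lit 592) (nat_lit 275414777856)
 (.ev (nat_lit 660) (nat_lit 17592186044416) (.ev (nat_lit 669) (nat_lit 67108864) .dd)))) (.ch (nat_lit 10)
 (.ev (nat_lit 592) (nat_lit 17867600822272) (.ev (nat_lit 605) (nat_lit 67108864) .dd)))))) (.br (nat_lit 29)
 (.br (nat_lit 17) (.ch (nat_lit 12) (.ev (nat_lit 592) (nat_lit 17867600822272) (.ev (nat_lit 605) (nat_lit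
 67108864) .dd))) (.br (nat_lit 26) (.ch (nat_lit 17) (.ev (nat_lit 592) (nat_lit 17592722915328) (.ev (nat_lit
 660) (nat_lit 274877906944) (.ev (nat_lit 669) (nat_lit 67108864) .dd)))) (.ch (nat_lit 26) (.ev (nat_lit 592)
 (nat_lit 17867667931136) .dd)))) (.br (nat_lit 40) (.br (nat_lit 31) (.ch (nat_lit 29) (.ev (nat_lit 592)
 (nat_lit 17592790024192) (.ev (nat_lit 605) (nat_lit 274877906944) .dd))) (.ch (nat_lit 31) (.ev (nat_lit 592)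
 (nat_lit 275481886720) (.ev (nat_lit 605) (nat_lit 17592186044416) .dd)))) (.br (nat_lit 41) (.ch (nat_lit 40)
 (.ev (nat_lit 592) (nat_lit 17867667931136) .dd)) (.ch (nat_lit 41) (.ev (nat_lit 592) (nat_lit
 17867600822272) (.ev (nat_lit 605) (nat_lit 67108864) .dd)))))))))))))) (.ch (nat_lit 29) (.ev (nat_lit 52)
 (nat_lit 5629912727684096) (.ev (nat_lit 116) (nat_lit 64) (.ev (nat_lit 148) (nat_lit 65536) (.ev (nat_lit
 180) (nat_lit 8589934592) (.ev (nat_lit 192) (nat_lit 440354406928416) .dd))))))) (.br (nat_lit 32) (.ch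
 (nat_lit 31) (.ev (nat_lit 52) (nat_lit 281612755468352) (.ev (nat_lit 84) (nat_lit 4096) (.ev (nat_lit 96)
 (nat_lit 5788662969140256) .dd)))) (.ch (nat_lit 32) (.ev (nat_lit 52) (nat_lit 4504150192686080) (.ev
 (nat_lit 84) (nat_lit 412316926016) (.ev (nat_lit 116) (nat_lit 1125899906842624) (.ev (nat_lit 308) (nat_lit
 17592186044416) (.nd (nat_lit 576) (.br (nat_lit 20) (.br (nat_lit 9) (.br (nat_lit 3) (.ch (nat_lit 0) (.ev
 (nat_lit 592) (nat_lit 8657047552) (.ev (nat_lit 660) (nat_lit 32) (.ev (nat_lit 1142) (nat_lit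
 422212465065984) .dd)))) (.br (nat_lit 5) (.ch (nat_lit 3) (.ev (nat_lit 592) (nat_lit 422212532174880) (.ev
 (nat_lit 660) (nat_lit 8589934592) (.ev (nat_lit 669) (nat_lit 4096) .dd)))) (.ch (nat_lit 5) (.ev (nat_lit
 592) (nat_lit 422221055004704) (.ev (nat_lit 605) (nat_lit 67108864) .dd))))) (.br (nat_lit 12) (.ch (nat_lit
 9) (.ev (nat_lit 592) (nat_lit 8589938688) (.ev (nat_lit 932) (nat_lit 67108864) (.ev (nat_lit 980) (nat_lit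
 281474976710656) (.ev (nat_lit 1024) (nat_lit 140737488355328) (.ev (nat_lit 1037) (nat_lit 32) .dd)))))) (.br
 (nat_lit 17) (.ch (nat_lit 12) (.ev (nat_lit 592) (nat_lit 422221122113536) (.ev (nat_lit 605) (nat_lit 32)
 .dd))) (.ch (nat_lit 17) (.ev (nat_lit 592) (nat_lit 422221055004704) (.ev (nat_lit 605) (nat_lit 67108864)
 .dd)))))) (.br (nat_lit 27) (.br (nat_lit 22) (.ch (nat_lit 20) (.ev (nat_lit 592) (nat_lit 8657043488) (.ev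
 (nat_lit 960) (nat_lit 281474976710656) (.ev (nat_lit 1060) (nat_lit 140737488355328) (.ev (nat_lit 1069)
 (nat_lit 4096) .dd))))) (.br (nat_lit 26) (.ch (nat_lit 22) (.ev (nat_lit 592) (nat_lit 422212465070112) (.ev
 (nat_lit 804) (nat_lit 67108864) (.ev (nat_lit 813) (nat_lit 8589934592) .dd)))) (.ch (nat_lit 26) (.ev
 (nat_lit 592) (nat_lit 422212532178944) (.ev (nat_lit 804) (nat_lit 8589934592) (.ev (nat_lit 813) (nat_lit
 32) .dd)))))) (.br (nat_lit 29) (.br (nat_lit 28) (.ch (nat_lit 27) (.ev (nat_lit 592) (nat_lit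
 422221055004704) (.ev (nat_lit 605) (nat_lit 67108864) .dd))) (.ch (nat_lit 28) (.ev (nat_lit 592) (nat_lit
 422212532174880) (.ev (nat_lit 660) (nat_lit 4096) (.ev (nat_lit 669) (nat_lit 8589934592) .dd))))) (.br
 (nat_lit 31) (.ch (nat_lit 29) (.ev (nat_lit 592) (nat_lit 8657043488) (.ev (nat_lit 660) (nat_lit 4096) (.ev
 (nat_lit 1174) (nat_lit 422212465065984) .dd)))) (.ch (nat_lit 31) (.ev (nat_lit 592) (nat_lit
 422221122113568) .dd))))))))))))))) (.br (nat_lit 42) (.br (nat_lit 36) (.br (nat_lit 35) (.ch (nat_lit 33)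
 (.ev (nat_lit 52) (nat_lit 17876526302304) (.ev (nat_lit 84) (nat_lit 4096) (.ev (nat_lit 116) (nat_lit
 140737488355328) (.ev (nat_lit 160) (nat_lit 5911661709950976) .dd))))) (.ch (nat_lit 35) (.ev (nat_lit 52)
 (nat_lit 1407925176242272) (.ev (nat_lit 84) (nat_lit 1024) (.ev (nat_lit 116) (nat_lit 67108864) (.ev
 (nat_lit 148) (nat_lit 4503737334759424) (.nd (nat_lit 576) (.br (nat_lit 20) (.br (nat_lit 6) (.br (nat_lit
 2) (.ch (nat_lit 1) (.ev (nat_lit 592) (nat_lit 158338264399872) (.ev (nat_lit 660) (nat_lit 4194304) (.ev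
 (nat_lit 669) (nat_lit 274877906944) .dd)))) (.br (nat_lit 3) (.ch (nat_lit 2) (.ev (nat_lit 592) (nat_lit
 140746082484224) (.ev (nat_lit 1060) (nat_lit 274877972480) (.ev (nat_lit 1069) (nat_lit 17592186044416)
 .dd)))) (.ch (nat_lit 3) (.ev (nat_lit 592) (nat_lit 158604556566528) (.ev (nat_lit 605) (nat_lit 8589934592)
 .dd))))) (.br (nat_lit 12) (.ch (nat_lit 6) (.ev (nat_lit 592) (nat_lit 158613146501120) .dd)) (.br (nat_lit
 17) (.ch (nat_lit 12) (.ev (nat_lit 592) (nat_lit 158604552372224) (.ev (nat_lit 804) (nat_lit 4194304) (.ev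
 (nat_lit 813) (nat_lit 8589934592) .dd)))) (.ch (nat_lit 17) (.ev (nat_lit 592) (nat_lit 140746082484224) (.ev
 (nat_lit 660) (nat_lit 274877906944) (.ev (nat_lit 1124) (nat_lit 17592186044416) (.ev (nat_lit 1133) (nat_lit
 65536) .dd)))))))) (.br (nat_lit 31) (.br (nat_lit 26) (.ch (nat_lit 20) (.ev (nat_lit 592) (nat_lit
 17875658145792) (.ev (nat_lit 605) (nat_lit 140737488355328) .dd))) (.br (nat_lit 28) (.ch (nat_lit 26) (.ev
 (nat_lit 592) (nat_lit 141012370456576) (.ev (nat_lit 660) (nat_lit 8589934592) (.ev (nat_lit 1092) (nat_lit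
 17592186044416) (.ev (nat_lit 1101) (nat_lit 65536) .dd))))) (.ch (nat_lit 28) (.ev (nat_lit 592) (nat_lit
 17875658145792) (.ev (nat_lit 605) (nat_lit 140737488355328) .dd))))) (.br (nat_lit 40) (.br (nat_lit 34) (.ch
 (nat_lit 31) (.ev (nat_lit 592) (nat_lit 158338264399872) (.ev (nat_lit 660) (nat_lit 4194304) (.ev (nat_lit
 669) (nat_lit 274877906944) .dd)))) (.ch (nat_lit 34) (.ev (nat_lit 592) (nat_lit 17875653951488) (.ev
 (nat_lit 804) (nat_lit 140737488355328) (.ev (nat_lit 813) (nat_lit 4194304) .dd))))) (.br (nat_lit 41) (.ch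
 (nat_lit 40) (.ev (nat_lit 592) (nat_lit 17875658145792) (.ev (nat_lit 605) (nat_lit 140737488355328) .dd)))
 (.ch (nat_lit 41) (.ev (nat_lit 592) (nat_lit 274882101248) (.ev (nat_lit 932) (nat_lit 140737488355328) (.ev
 (nat_lit 980) (nat_lit 17600775979008) (.ev (nat_lit 989) (nat_lit 65536) .dd)))))))))))))))) (.br (nat_lit
 38) (.ch (nat_lit 36) (.ev (nat_lit 52) (nat_lit 1143501018370048) (.ev (nat_lit 84) (nat_lit
 4785074604081152) (.ev (nat_lit 308) (nat_lit 536870912) (.nd (nat_lit 576) (.br (nat_lit 10) (.br (nat_lit 5)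
 (.br (nat_lit 1) (.ch (nat_lit 0) (.ev (nat_lit 592) (nat_lit 141149809476640) (.ev (nat_lit 688) (nat_lit 64)
 (.ev (nat_lit 701) (nat_lit 549755813888) .dd)))) (.ch (nat_lit 1) (.ev (nat_lit 592) (nat_lit
 140874927375360) (.ev (nat_lit 660) (nat_lit 4194304) (.ev (nat_lit 804) (nat_lit 549755813984) (.ev (nat_lit
 813) (nat_lit 274877906944) .dd)))))) (.br (nat_lit 6) (.ch (nat_lit 5) (.ev (nat_lit 592) (nat_lit
 141699565290528) (.ev (nat_lit 605) (nat_lit 64) .dd))) (.br (nat_lit 8) (.ch (nat_lit 6) (.ev (nat_lit 592)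
 (nat_lit 549760073824) (.ev (nat_lit 608) (nat_lit 140737488355328) (.ev (nat_lit 672) (nat_lit 1024) (.ev
 (nat_lit 688) (nat_lit 412316860416) .dd))))) (.ch (nat_lit 8) (.ev (nat_lit 592) (nat_lit 141699561096288)
 (.ev (nat_lit 605) (nat_lit 4194304) .dd)))))) (.br (nat_lit 17) (.br (nat_lit 12) (.ch (nat_lit 10) (.ev
 (nat_lit 592) (nat_lit 962072740960) (.ev (nat_lit 672) (nat_lit 140737492549632) .dd))) (.br (nat_lit 13)
 (.ch (nat_lit 12) (.ev (nat_lit 592) (nat_lit 141012370523200) (.ev (nat_lit 704) (nat_lit 549755813888) (.ev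
 (nat_lit 932) (nat_lit 32) (.ev (nat_lit 941) (nat_lit 137438953472) .dd))))) (.ch (nat_lit 13) (.ev (nat_lit
 592) (nat_lit 824637916192) (.ev (nat_lit 660) (nat_lit 137438953472) (.ev (nat_lit 804) (nat_lit
 140737488355328) (.fin (nat_lit 576455804508914221)))))))) (.br (nat_lit 24) (.ch (nat_lit 17) (.ev (nat_lit
 592) (nat_lit 141424687383648) (.ev (nat_lit 605) (nat_lit 274877906944) .dd))) (.br (nat_lit 38) (.ch
 (nat_lit 24) (.ev (nat_lit 592) (nat_lit 141424687318080) (.ev (nat_lit 660) (nat_lit 65536) (.ev (nat_lit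
 688) (nat_lit 274877906944) (.ev (nat_lit 701) (nat_lit 32) .dd))))) (.ch (nat_lit 38) (.ev (nat_lit 592)
 (nat_lit 141149809410112) (.ev (nat_lit 660) (nat_lit 66592) (.ev (nat_lit 669) (nat_lit 549755813888)
 .dd))))))))))))) (.ch (nat_lit 38) (.ev (nat_lit 52) (nat_lit 6052408589287456) (.ev (nat_lit 84) (nat_lit
 69696) (.ev (nat_lit 148) (nat_lit 1024) (.ev (nat_lit 256) (nat_lit 17867135254528) .dd))))))) (.br (nat_lit
 45) (.br (nat_lit 44) (.ch (nat_lit 42) (.ev (nat_lit 52) (nat_lit 140883521438784) (.ev (nat_lit 84) (nat_lit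
 824633724928) (.ev (nat_lit 116) (nat_lit 65536) (.ev (nat_lit 148) (nat_lit 268435456) (.ev (nat_lit 212)
 (nat_lit 4503599627370496) (.ev (nat_lit 244) (nat_lit 603979776) (.nd (nat_lit 576) (.br (nat_lit 24) (.br
 (nat_lit 6) (.br (nat_lit 3) (.ch (nat_lit 2) (.ev (nat_lit 592) (nat_lit 1424967069597728) .dd)) (.br
 (nat_lit 5) (.ch (nat_lit 3) (.ev (nat_lit 592) (nat_lit 1143492092887072) (.ev (nat_lit 605) (nat_lit
 281474976710656) .dd))) (.ch (nat_lit 5) (.ev (nat_lit 592) (nat_lit 1125899906842656) (.ev (nat_lit 660)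
 (nat_lit 281474976710656) (.ev (nat_lit 669) (nat_lit 17592186044416) .dd)))))) (.br (nat_lit 8) (.ch (nat_lit
 6) (.ev (nat_lit 592) (nat_lit 281474976710656) (.ev (nat_lit 660) (nat_lit 1125899906842624) (.ev (nat_lit
 804) (nat_lit 32) (.ev (nat_lit 813) (nat_lit 17592186044416) .dd))))) (.br (nat_lit 20) (.ch (nat_lit 8) (.ev
 (nat_lit 592) (nat_lit 281474976710688) (.ev (nat_lit 804) (nat_lit 17592186044416) (.ev (nat_lit 813)
 (nat_lit 1125899906842624) .dd)))) (.ch (nat_lit 20) (.ev (nat_lit 592) (nat_lit 1125899906842656) (.ev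
 (nat_lit 720) (nat_lit 281474976710656) (.ev (nat_lit 733) (nat_lit 17592186044416) .dd))))))) (.br (nat_lit
 31) (.br (nat_lit 26) (.ch (nat_lit 24) (.ev (nat_lit 592) (nat_lit 1424967069597728) .dd)) (.br (nat_lit 28)
 (.ch (nat_lit 26) (.ev (nat_lit 592) (nat_lit 1424967069597728) .dd)) (.ch (nat_lit 28) (.ev (nat_lit 592)
 (nat_lit 1143492092887072) (.ev (nat_lit 605) (nat_lit 281474976710656) .dd))))) (.br (nat_lit 38) (.br
 (nat_lit 34) (.ch (nat_lit 31) (.ev (nat_lit 592) (nat_lit 1407374883553312) (.ev (nat_lit 605) (nat_lit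
 17592186044416) .dd))) (.ch (nat_lit 34) (.ev (nat_lit 592) (nat_lit 17592186044448) (.ev (nat_lit 816)
 (nat_lit 281474976710656) (.ev (nat_lit 829) (nat_lit 1125899906842624) .dd))))) (.br (nat_lit 41) (.ch
 (nat_lit 38) (.ev (nat_lit 592) (nat_lit 299067162755072) (.ev (nat_lit 804) (nat_lit 32) (.ev (nat_lit 813)
 (nat_lit 1125899906842624) .dd)))) (.ch (nat_lit 41) (.ev (nat_lit 592) (nat_lit 1424967069597728)
 .dd)))))))))))))) (.ch (nat_lit 44) (.ev (nat_lit 52) (nat_lit 5770924288644096) (.ev (nat_lit 84) (nat_lit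
 275683213312) (.ev (nat_lit 116) (nat_lit 8589934592) (.ev (nat_lit 148) (nat_lit 96) (.ev (nat_lit 320)
 (nat_lit 299067162820608) .dd))))))) (.br (nat_lit 46) (.ch (nat_lit 45) (.ev (nat_lit 52) (nat_lit
 5647375724970080) (.ev (nat_lit 84) (nat_lit 137439019008) (.ev (nat_lit 116) (nat_lit 268435456) (.ev
 (nat_lit 160) (nat_lit 422762292188160) .dd))))) (.ch (nat_lit 46) (.ev (nat_lit 52) (nat_lit
 6069304189518912) (.ev (nat_lit 84) (nat_lit 549755879424) (.ev (nat_lit 180) (nat_lit 268435456) (.ev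
 (nat_lit 212) (nat_lit 32) (.ev (nat_lit 244) (nat_lit 67108864) (.nd (nat_lit 576) (.br (nat_lit 13) (.br
 (nat_lit 5) (.br (nat_lit 1) (.ch (nat_lit 0) (.ev (nat_lit 592) (nat_lit 421443670016) .dd)) (.br (nat_lit 3)
 (.ch (nat_lit 1) (.ev (nat_lit 592) (nat_lit 412853731328) (.ev (nat_lit 660) (nat_lit 8589934592) (.ev
 (nat_lit 669) (nat_lit 4096) .dd)))) (.ch (nat_lit 3) (.ev (nat_lit 592) (nat_lit 412853731328) (.ev (nat_lit
 804) (nat_lit 4096) (.ev (nat_lit 813) (nat_lit 8589934592) .dd)))))) (.br (nat_lit 8) (.ch (nat_lit 5) (.ev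
 (nat_lit 592) (nat_lit 284004716544) (.ev (nat_lit 605) (nat_lit 137438953472) .dd))) (.br (nat_lit 12) (.ch
 (nat_lit 8) (.ev (nat_lit 592) (nat_lit 421443670016) .dd)) (.ch (nat_lit 12) (.ev (nat_lit 592) (nat_lit
 412853735424) (.ev (nat_lit 605) (nat_lit 8589934592) .dd)))))) (.br (nat_lit 29) (.br (nat_lit 22) (.ch
 (nat_lit 13) (.ev (nat_lit 592) (nat_lit 284004716544) (.ev (nat_lit 605) (nat_lit 137438953472) .dd))) (.br
 (nat_lit 24) (.ch (nat_lit 22) (.ev (nat_lit 592) (nat_lit 146028892160) (.ev (nat_lit 624) (nat_lit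
 536870912) (.ev (nat_lit 637) (nat_lit 274877906944) .dd)))) (.ch (nat_lit 24) (.ev (nat_lit 592) (nat_lit
 146565763072) (.ev (nat_lit 605) (nat_lit 274877906944) .dd))))) (.br (nat_lit 34) (.br (nat_lit 31) (.ch
 (nat_lit 29) (.ev (nat_lit 592) (nat_lit 421443665920) (.ev (nat_lit 605) (nat_lit 4096) .dd))) (.ch (nat_lit
 31) (.ev (nat_lit 592) (nat_lit 146565763072) (.ev (nat_lit 605) (nat_lit 274877906944) .dd)))) (.br (nat_lit
 41) (.ch (nat_lit 34) (.ev (nat_lit 592) (nat_lit 421443670016) .dd)) (.ch (nat_lit 41) (.ev (nat_lit 592)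
 (nat_lit 412853735424) (.ev (nat_lit 605) (nat_lit 8589934592) .dd)))))))))))))))))))))

/-- Subtrie. -/
noncomputable def T7 : Tr := (.ev (nat_lit 20) (nat_lit 84456572944464) (.nd (nat_lit 33) (.br (nat_lit 25)
 (.br (nat_lit 14) (.br (nat_lit 5) (.br (nat_lit 2) (.ch (nat_lit 1) (.ev (nat_lit 52) (nat_lit
 580544307927072) (.ev (nat_lit 116) (nat_lit 146028888576) (.ev (nat_lit 148) (nat_lit 281474976710656) (.ev
 (nat_lit 180) (nat_lit 536870912) (.nd (nat_lit 576) (.br (nat_lit 16) (.br (nat_lit 9) (.br (nat_lit 4) (.ch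
 (nat_lit 0) (.ev (nat_lit 592) (nat_lit 5773535557452800) (.ev (nat_lit 605) (nat_lit 2097152) .dd))) (.br
 (nat_lit 8) (.ch (nat_lit 4) (.ev (nat_lit 592) (nat_lit 5773535559549952) .dd)) (.ch (nat_lit 8) (.ev
 (nat_lit 592) (nat_lit 5632798069097472) (.ev (nat_lit 660) (nat_lit 2097152) (.ev (nat_lit 669) (nat_lit
 140737488355328) .dd)))))) (.br (nat_lit 12) (.br (nat_lit 11) (.ch (nat_lit 9) (.ev (nat_lit 592) (nat_lit
 5631698559566848) (.ev (nat_lit 660) (nat_lit 140737488355328) (.ev (nat_lit 669) (nat_lit 1099511627776)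
 .dd)))) (.ch (nat_lit 11) (.ev (nat_lit 592) (nat_lit 5632798069097472) (.ev (nat_lit 688) (nat_lit
 140737488355328) (.ev (nat_lit 701) (nat_lit 2097152) .dd))))) (.br (nat_lit 15) (.ch (nat_lit 12) (.ev
 (nat_lit 592) (nat_lit 4504699141095424) (.ev (nat_lit 660) (nat_lit 140737488355328) (.ev (nat_lit 672)
 (nat_lit 2199023255552) (.ev (nat_lit 688) (nat_lit 1125899906842624) (.ev (nat_lit 701) (nat_lit 1024)
 .dd)))))) (.ch (nat_lit 15) (.ev (nat_lit 592) (nat_lit 1129198443824128) (.ev (nat_lit 660) (nat_lit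
 140737488355328) (.ev (nat_lit 669) (nat_lit 4503599627370496) .dd))))))) (.br (nat_lit 26) (.br (nat_lit 19)
 (.ch (nat_lit 16) (.ev (nat_lit 592) (nat_lit 5771336536293376) (.ev (nat_lit 672) (nat_lit 1024) (.ev
 (nat_lit 685) (nat_lit 2199023255552) .dd)))) (.br (nat_lit 20) (.ch (nat_lit 19) (.ev (nat_lit 592) (nat_lit
 4647635650610176) (.ev (nat_lit 704) (nat_lit 1125899906842624) (.ev (nat_lit 717) (nat_lit 2097152) .dd))))
 (.ch (nat_lit 20) (.ev (nat_lit 592) (nat_lit 5773535559549952) .dd)))) (.br (nat_lit 29) (.br (nat_lit 28)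
 (.ch (nat_lit 26) (.ev (nat_lit 592) (nat_lit 5632798069096448) (.ev (nat_lit 672) (nat_lit 1024) (.ev
 (nat_lit 688) (nat_lit 2097152) (.ev (nat_lit 701) (nat_lit 140737488355328) .dd))))) (.ch (nat_lit 28) (.ev
 (nat_lit 592) (nat_lit 5771336534197248) (.ev (nat_lit 736) (nat_lit 2097152) (.ev (nat_lit 749) (nat_lit
 2199023255552) .dd))))) (.br (nat_lit 34) (.ch (nat_lit 29) (.ev (nat_lit 592) (nat_lit 1269935932179456) (.ev
 (nat_lit 605) (nat_lit 4503599627370496) .dd))) (.ch (nat_lit 34) (.ev (nat_lit 592) (nat_lit 144036025336832)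
 (.ev (nat_lit 608) (nat_lit 4503599627370496) (.ev (nat_lit 621) (nat_lit 1125899906842624) .dd))))))))))))))
 (.br (nat_lit 3) (.ch (nat_lit 2) (.ev (nat_lit 52) (nat_lit 2111208370995744) (.ev (nat_lit 84) (nat_lit
 4503601774854144) (.ev (nat_lit 128) (nat_lit 20891264097280) .dd)))) (.ch (nat_lit 3) (.ev (nat_lit 52)
 (nat_lit 1689952075127808) (.ev (nat_lit 84) (nat_lit 299204601708544) (.ev (nat_lit 116) (nat_lit 4194304)
 (.ev (nat_lit 148) (nat_lit 4503599627370496) (.nd (nat_lit 576) (.br (nat_lit 23) (.br (nat_lit 8) (.br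
 (nat_lit 4) (.ch (nat_lit 0) (.ev (nat_lit 592) (nat_lit 142945101545472) (.fin (nat_lit
 576458003542655542)))) (.br (nat_lit 6) (.ch (nat_lit 4) (.ev (nat_lit 592) (nat_lit 142945101545504) (.ev
 (nat_lit 605) (nat_lit 512) .dd))) (.ch (nat_lit 6) (.ev (nat_lit 592) (nat_lit 142945101546016) .dd)))) (.br
 (nat_lit 13) (.br (nat_lit 12) (.ch (nat_lit 8) (.ev (nat_lit 592) (nat_lit 2207613190656) (.ev (nat_lit 660)
 (nat_lit 32) (.ev (nat_lit 669) (nat_lit 140737488355328) .dd)))) (.ch (nat_lit 12) (.ev (nat_lit 592)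
 (nat_lit 8589935104) (.ev (nat_lit 660) (nat_lit 2199023255552) (.ev (nat_lit 720) (nat_lit 140737488355328)
 (.ev (nat_lit 733) (nat_lit 32) .dd)))))) (.br (nat_lit 15) (.ch (nat_lit 13) (.ev (nat_lit 592) (nat_lit 512)
 (.ev (nat_lit 660) (nat_lit 140746078289920) (.ev (nat_lit 804) (nat_lit 32) (.ev (nat_lit 813) (nat_lit
 2199023255552) .dd))))) (.ch (nat_lit 15) (.ev (nat_lit 592) (nat_lit 2207613190688) (.ev (nat_lit 605)
 (nat_lit 140737488355328) .dd)))))) (.br (nat_lit 34) (.br (nat_lit 28) (.ch (nat_lit 23) (.ev (nat_lit 592)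
 (nat_lit 140737488355872) (.ev (nat_lit 660) (nat_lit 8589934592) (.ev (nat_lit 669) (nat_lit 2199023255552)
 .dd)))) (.br (nat_lit 33) (.ch (nat_lit 28) (.ev (nat_lit 592) (nat_lit 142945101545504) (.ev (nat_lit 605)
 (nat_lit 512) .dd))) (.ch (nat_lit 33) (.ev (nat_lit 592) (nat_lit 8589934624) (.ev (nat_lit 660) (nat_lit
 140737488355840) (.ev (nat_lit 669) (nat_lit 2199023255552) .dd)))))) (.br (nat_lit 40) (.br (nat_lit 35) (.ch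
 (nat_lit 34) (.ev (nat_lit 592) (nat_lit 140746078290464) (.ev (nat_lit 605) (nat_lit 2199023255552) .dd)))
 (.ch (nat_lit 35) (.ev (nat_lit 592) (nat_lit 142945101546016) .dd))) (.br (nat_lit 42) (.ch (nat_lit 40) (.ev
 (nat_lit 592) (nat_lit 142936511611424) (.ev (nat_lit 605) (nat_lit 8589934592) .dd))) (.ch (nat_lit 42) (.ev
 (nat_lit 592) (nat_lit 2207613190688) (.ev (nat_lit 605) (nat_lit 140737488355328) .dd))))))))))))))) (.br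
 (nat_lit 11) (.br (nat_lit 9) (.ch (nat_lit 5) (.ev (nat_lit 52) (nat_lit 159431876680224) (.ev (nat_lit 116)
 (nat_lit 1125899906842624) (.ev (nat_lit 148) (nat_lit 137438953472) (.ev (nat_lit 160) (nat_lit
 5350232187470848) .dd))))) (.ch (nat_lit 9) (.ev (nat_lit 52) (nat_lit 704924415430144) (.ev (nat_lit 84)
 (nat_lit 536870912) (.ev (nat_lit 116) (nat_lit 10737418240) (.ev (nat_lit 160) (nat_lit 5930765720227872)
 .dd)))))) (.br (nat_lit 12) (.ch (nat_lit 11) (.ev (nat_lit 52) (nat_lit 5084279748952576) (.ev (nat_lit 64)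
 (nat_lit 1551421660994592) .dd))) (.ch (nat_lit 12) (.ev (nat_lit 52) (nat_lit 6192586926588928) (.ev (nat_lit
 84) (nat_lit 17592188141568) (.ev (nat_lit 116) (nat_lit 281474976710656) (.ev (nat_lit 148) (nat_lit
 2684354560) (.ev (nat_lit 180) (nat_lit 8589934592) (.ev (nat_lit 212) (nat_lit 140737488355328) (.ev (nat_lit
 404) (nat_lit 1099511627776) (.nd (nat_lit 576) (.br (nat_lit 20) (.br (nat_lit 12) (.br (nat_lit 8) (.ch
 (nat_lit 0) (.ev (nat_lit 592) (nat_lit 2199044233216) (.fin (nat_lit 576464600578867786)))) (.br (nat_lit 11)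
 (.ch (nat_lit 8) (.ev (nat_lit 592) (nat_lit 2199027452448) (.ev (nat_lit 660) (nat_lit 4096) (.ev (nat_lit
 669) (nat_lit 16777216) .dd)))) (.ch (nat_lit 11) (.ev (nat_lit 592) (nat_lit 2199044233760) .dd)))) (.br
 (nat_lit 13) (.ch (nat_lit 12) (.ev (nat_lit 592) (nat_lit 16779776) (.ev (nat_lit 660) (nat_lit 4096) (.ev
 (nat_lit 672) (nat_lit 2199027449856) (.ev (nat_lit 685) (nat_lit 32) .dd))))) (.br (nat_lit 15) (.ch (nat_lit
 13) (.ev (nat_lit 592) (nat_lit 2199044231200) (.ev (nat_lit 660) (nat_lit 2048) (.ev (nat_lit 669) (nat_lit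
 512) .dd)))) (.ch (nat_lit 15) (.ev (nat_lit 592) (nat_lit 2199044229664) (.ev (nat_lit 605) (nat_lit 4096)
 .dd)))))) (.br (nat_lit 29) (.br (nat_lit 25) (.ch (nat_lit 20) (.ev (nat_lit 592) (nat_lit 2199040037408)
 (.ev (nat_lit 660) (nat_lit 2048) (.ev (nat_lit 669) (nat_lit 4194304) .dd)))) (.br (nat_lit 28) (.ch (nat_lit
 25) (.ev (nat_lit 592) (nat_lit 2199044229664) (.ev (nat_lit 605) (nat_lit 4096) .dd))) (.ch (nat_lit 28) (.ev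
 (nat_lit 592) (nat_lit 2199044229664) (.ev (nat_lit 605) (nat_lit 4096) .dd))))) (.br (nat_lit 35) (.br
 (nat_lit 32) (.ch (nat_lit 29) (.ev (nat_lit 592) (nat_lit 2199040038944) (.ev (nat_lit 608) (nat_lit 4194304)
 (.ev (nat_lit 621) (nat_lit 512) .dd)))) (.ch (nat_lit 32) (.ev (nat_lit 592) (nat_lit 2199040037408) (.ev
 (nat_lit 660) (nat_lit 2048) (.ev (nat_lit 669) (nat_lit 4194304) .dd))))) (.br (nat_lit 42) (.ch (nat_lit 35)
 (.ev (nat_lit 592) (nat_lit 2199027456512) (.ev (nat_lit 804) (nat_lit 32) (.ev (nat_lit 813) (nat_lit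
 16777216) .dd)))) (.ch (nat_lit 42) (.ev (nat_lit 592) (nat_lit 2199027456000) (.ev (nat_lit 804) (nat_lit
 16777248) (.ev (nat_lit 813) (nat_lit 512) .dd)))))))))))))))))))) (.br (nat_lit 19) (.br (nat_lit 16) (.br
 (nat_lit 15) (.ch (nat_lit 14) (.ev (nat_lit 52) (nat_lit 4785083198210592) (.ev (nat_lit 84) (nat_lit
 2097152) (.ev (nat_lit 116) (nat_lit 2048) (.ev (nat_lit 148) (nat_lit 2199023259648) (.ev (nat_lit 180)
 (nat_lit 17729624997888) (.ev (nat_lit 308) (nat_lit 562949953421312) (.nd (nat_lit 576) (.br (nat_lit 23)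
 (.br (nat_lit 12) (.br (nat_lit 9) (.ch (nat_lit 8) (.ev (nat_lit 592) (nat_lit 1267737460474880) (.ev
 (nat_lit 605) (nat_lit 2147483648) .dd))) (.br (nat_lit 11) (.ch (nat_lit 9) (.ev (nat_lit 592) (nat_lit
 1125902607975424) (.ev (nat_lit 660) (nat_lit 140737488355328) (.ev (nat_lit 669) (nat_lit 1099511627776)
 .dd)))) (.ch (nat_lit 11) (.ev (nat_lit 592) (nat_lit 1125902607975424) (.ev (nat_lit 804) (nat_lit
 1099511627776) (.ev (nat_lit 813) (nat_lit 140737488355328) .dd)))))) (.br (nat_lit 15) (.ch (nat_lit 12) (.ev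
 (nat_lit 592) (nat_lit 1101675888640) (.ev (nat_lit 660) (nat_lit 140737488355328) (.ev (nat_lit 672) (nat_lit
 1024) (.ev (nat_lit 804) (nat_lit 536870912) (.ev (nat_lit 813) (nat_lit 1125899906842624) .dd)))))) (.br
 (nat_lit 16) (.ch (nat_lit 15) (.ev (nat_lit 592) (nat_lit 141839701115904) (.ev (nat_lit 605) (nat_lit
 1125899906842624) .dd))) (.ch (nat_lit 16) (.ev (nat_lit 592) (nat_lit 1267737443697664) (.ev (nat_lit 672)
 (nat_lit 16777216) (.ev (nat_lit 685) (nat_lit 2147483648) .dd))))))) (.br (nat_lit 34) (.br (nat_lit 26) (.ch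
 (nat_lit 23) (.ev (nat_lit 592) (nat_lit 1127002119603200) (.ev (nat_lit 605) (nat_lit 140737488355328) .dd)))
 (.br (nat_lit 29) (.ch (nat_lit 26) (.ev (nat_lit 592) (nat_lit 141839701115904) (.ev (nat_lit 605) (nat_lit
 1125899906842624) .dd))) (.ch (nat_lit 29) (.ev (nat_lit 592) (nat_lit 141839701115904) (.ev (nat_lit 605)
 (nat_lit 1125899906842624) .dd))))) (.br (nat_lit 38) (.br (nat_lit 35) (.ch (nat_lit 34) (.ev (nat_lit 592)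
 (nat_lit 1266640079552512) (.ev (nat_lit 804) (nat_lit 16778240) (.ev (nat_lit 813) (nat_lit 1099511627776)
 .dd)))) (.ch (nat_lit 35) (.ev (nat_lit 592) (nat_lit 1267739607957504) (.ev (nat_lit 605) (nat_lit 1024)
 .dd)))) (.br (nat_lit 42) (.ch (nat_lit 38) (.ev (nat_lit 592) (nat_lit 1266640096329728) (.ev (nat_lit 804)
 (nat_lit 1024) (.ev (nat_lit 813) (nat_lit 1099511627776) .dd)))) (.ch (nat_lit 42) (.ev (nat_lit 592)
 (nat_lit 1127002102825984) (.ev (nat_lit 704) (nat_lit 140737505132544) .dd))))))))))))))) (.ch (nat_lit 15)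
 (.ev (nat_lit 52) (nat_lit 281614586221568) (.ev (nat_lit 84) (nat_lit 580542139465760) (.ev (nat_lit 180)
 (nat_lit 142936511611392) (.ev (nat_lit 212) (nat_lit 1099511627776) (.nd (nat_lit 576) (.br (nat_lit 16) (.br
 (nat_lit 9) (.br (nat_lit 6) (.ch (nat_lit 0) (.ev (nat_lit 592) (nat_lit 5629499534215168) (.ev (nat_lit 660)
 (nat_lit 536870912) (.ev (nat_lit 669) (nat_lit 8589934592) .dd)))) (.br (nat_lit 8) (.ch (nat_lit 6) (.ev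
 (nat_lit 592) (nat_lit 4503608754178048) (.ev (nat_lit 605) (nat_lit 1125899906842624) .dd))) (.ch (nat_lit 8)
 (.ev (nat_lit 592) (nat_lit 5629508661020672) .dd)))) (.br (nat_lit 11) (.ch (nat_lit 9) (.ev (nat_lit 592)
 (nat_lit 5629500071086080) (.ev (nat_lit 605) (nat_lit 8589934592) .dd))) (.br (nat_lit 13) (.ch (nat_lit 11)
 (.ev (nat_lit 592) (nat_lit 5629508661020672) .dd)) (.ch (nat_lit 13) (.ev (nat_lit 592) (nat_lit
 5629500071086080) (.ev (nat_lit 605) (nat_lit 8589934592) .dd)))))) (.br (nat_lit 23) (.br (nat_lit 19) (.ch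
 (nat_lit 16) (.ev (nat_lit 592) (nat_lit 4503608217307136) (.ev (nat_lit 660) (nat_lit 1125899906842624) (.ev
 (nat_lit 669) (nat_lit 536870912) .dd)))) (.br (nat_lit 20) (.ch (nat_lit 19) (.ev (nat_lit 592) (nat_lit
 5629500071086080) (.ev (nat_lit 605) (nat_lit 8589934592) .dd))) (.ch (nat_lit 20) (.ev (nat_lit 592) (nat_lit
 5629508661018624) (.ev (nat_lit 605) (nat_lit 2048) .dd))))) (.br (nat_lit 26) (.br (nat_lit 25) (.ch (nat_lit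
 23) (.ev (nat_lit 592) (nat_lit 1125909033650176) (.ev (nat_lit 605) (nat_lit 4503599627370496) .dd))) (.ch
 (nat_lit 25) (.ev (nat_lit 592) (nat_lit 8589936640) (.ev (nat_lit 660) (nat_lit 1125900443713536) (.ev
 (nat_lit 669) (nat_lit 4503599627370496) .dd))))) (.br (nat_lit 40) (.ch (nat_lit 26) (.ev (nat_lit 592)
 (nat_lit 5629508661020672) .dd)) (.ch (nat_lit 40) (.ev (nat_lit 592) (nat_lit 1125909033648128) (.ev (nat_lit
 752) (nat_lit 4503599627372544) .dd)))))))))))))) (.br (nat_lit 18) (.ch (nat_lit 16) (.ev (nat_lit 52)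
 (nat_lit 4507038289756192) (.ev (nat_lit 64) (nat_lit 2128663120190976) .dd))) (.ch (nat_lit 18) (.ev (nat_lit
 52) (nat_lit 722389897838592) (.ev (nat_lit 64) (nat_lit 5913311512108576) .dd))))) (.br (nat_lit 21) (.br
 (nat_lit 20) (.ch (nat_lit 19) (.ev (nat_lit 52) (nat_lit 988460974345248) (.ev (nat_lit 84) (nat_lit 2097152)
 (.ev (nat_lit 180) (nat_lit 17592186044416) (.ev (nat_lit 308) (nat_lit 512) (.nd (nat_lit 576) (.br (nat_lit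
 23) (.br (nat_lit 12) (.br (nat_lit 6) (.ch (nat_lit 4) (.ev (nat_lit 592) (nat_lit 1125910644260864) (.ev
 (nat_lit 688) (nat_lit 4096) (.ev (nat_lit 720) (nat_lit 137438953472) (.fin (nat_lit 576462401572389439))))))
 (.br (nat_lit 11) (.ch (nat_lit 6) (.ev (nat_lit 592) (nat_lit 5629648247459840) .dd)) (.ch (nat_lit 11) (.ev
 (nat_lit 592) (nat_lit 4503748340613120) (.ev (nat_lit 660) (nat_lit 4096) (.ev (nat_lit 669) (nat_lit
 1125899906842624) .dd)))))) (.br (nat_lit 16) (.br (nat_lit 15) (.ch (nat_lit 12) (.ev (nat_lit 592) (nat_lit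
 4503747803742208) (.ev (nat_lit 608) (nat_lit 536870912) (.ev (nat_lit 804) (nat_lit 4096) (.ev (nat_lit 813)
 (nat_lit 1125899906842624) .dd))))) (.ch (nat_lit 15) (.ev (nat_lit 592) (nat_lit 1126048620085248) (.ev
 (nat_lit 672) (nat_lit 4096) (.ev (nat_lit 685) (nat_lit 4503599627370496) .dd))))) (.br (nat_lit 20) (.ch
 (nat_lit 16) (.ev (nat_lit 592) (nat_lit 4503747803742208) (.ev (nat_lit 804) (nat_lit 536875008) (.ev
 (nat_lit 813) (nat_lit 1125899906842624) .dd)))) (.ch (nat_lit 20) (.ev (nat_lit 592) (nat_lit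
 5629508124151808) (.ev (nat_lit 672) (nat_lit 137438953472) (.ev (nat_lit 704) (nat_lit 2147483648) (.ev
 (nat_lit 717) (nat_lit 536870912) .dd)))))))) (.br (nat_lit 29) (.br (nat_lit 26) (.ch (nat_lit 23) (.ev
 (nat_lit 592) (nat_lit 5629510808506368) (.ev (nat_lit 605) (nat_lit 137438953472) .dd))) (.br (nat_lit 28)
 (.ch (nat_lit 26) (.ev (nat_lit 592) (nat_lit 11274293248) (.ev (nat_lit 608) (nat_lit 4503599627370496) (.ev
 (nat_lit 660) (nat_lit 137438953472) (.ev (nat_lit 669) (nat_lit 1125899906842624) .dd))))) (.ch (nat_lit 28)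
 (.ev (nat_lit 592) (nat_lit 5629636973170688) (.ev (nat_lit 660) (nat_lit 2147483648) (.ev (nat_lit 672)
 (nat_lit 536870912) (.ev (nat_lit 685) (nat_lit 8589934592) .dd))))))) (.br (nat_lit 40) (.br (nat_lit 33)
 (.ch (nat_lit 29) (.ev (nat_lit 592) (nat_lit 5629510808506368) (.ev (nat_lit 605) (nat_lit 137438953472)
 .dd))) (.ch (nat_lit 33) (.ev (nat_lit 592) (nat_lit 1125911181135872) (.ev (nat_lit 660) (nat_lit
 137438953472) (.ev (nat_lit 669) (nat_lit 4503599627370496) .dd))))) (.br (nat_lit 42) (.ch (nat_lit 40) (.ev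
 (nat_lit 592) (nat_lit 1126048620089344) (.ev (nat_lit 605) (nat_lit 4503599627370496) .dd))) (.ch (nat_lit
 42) (.ev (nat_lit 592) (nat_lit 5629648247455744) (.ev (nat_lit 605) (nat_lit 4096) .dd))))))))))))) (.ch
 (nat_lit 20) (.ev (nat_lit 52) (nat_lit 4504707731030016) (.ev (nat_lit 64) (nat_lit 2130993678917152) .dd))))
 (.br (nat_lit 22) (.ch (nat_lit 21) (.ev (nat_lit 52) (nat_lit 1706450655124480) (.ev (nat_lit 84) (nat_lit
 2147483648) (.ev (nat_lit 116) (nat_lit 1099511627776) (.ev (nat_lit 180) (nat_lit 281612415664128) (.ev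
 (nat_lit 212) (nat_lit 2199027449856) (.nd (nat_lit 576) (.br (nat_lit 23) (.br (nat_lit 13) (.br (nat_lit 6)
 (.ch (nat_lit 0) (.ev (nat_lit 592) (nat_lit 4644337115725824) (.ev (nat_lit 660) (nat_lit 536871424) (.ev
 (nat_lit 669) (nat_lit 32) .dd)))) (.br (nat_lit 12) (.ch (nat_lit 6) (.ev (nat_lit 592) (nat_lit
 4644337652597280) .dd)) (.ch (nat_lit 12) (.ev (nat_lit 592) (nat_lit 4644337652597248) (.ev (nat_lit 605)
 (nat_lit 32) .dd))))) (.br (nat_lit 16) (.ch (nat_lit 13) (.ev (nat_lit 592) (nat_lit 4644337115725856) (.ev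
 (nat_lit 660) (nat_lit 536870912) (.ev (nat_lit 669) (nat_lit 512) .dd)))) (.br (nat_lit 19) (.ch (nat_lit 16)
 (.ev (nat_lit 592) (nat_lit 4644337652597280) .dd)) (.ch (nat_lit 19) (.ev (nat_lit 592) (nat_lit
 4503600164241440) (.ev (nat_lit 660) (nat_lit 512) (.ev (nat_lit 669) (nat_lit 140737488355328) .dd)))))))
 (.br (nat_lit 34) (.br (nat_lit 29) (.ch (nat_lit 23) (.ev (nat_lit 592) (nat_lit 4644337115726368) (.ev
 (nat_lit 605) (nat_lit 536870912) .dd))) (.br (nat_lit 31) (.ch (nat_lit 29) (.ev (nat_lit 592) (nat_lit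
 4644337652597280) .dd)) (.ch (nat_lit 31) (.ev (nat_lit 592) (nat_lit 4503600164241952) (.ev (nat_lit 605)
 (nat_lit 140737488355328) .dd))))) (.br (nat_lit 40) (.br (nat_lit 35) (.ch (nat_lit 34) (.ev (nat_lit 592)
 (nat_lit 4644337652597280) .dd)) (.ch (nat_lit 35) (.ev (nat_lit 592) (nat_lit 4644337652597248) (.ev (nat_lit
 605) (nat_lit 32) .dd)))) (.br (nat_lit 42) (.ch (nat_lit 40) (.ev (nat_lit 592) (nat_lit 140738025226752)
 (.ev (nat_lit 688) (nat_lit 32) (.ev (nat_lit 701) (nat_lit 4503599627370496) .dd)))) (.ch (nat_lit 42) (.ev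
 (nat_lit 592) (nat_lit 4644337652596768) (.ev (nat_lit 605) (nat_lit 512) .dd)))))))))))))) (.ch (nat_lit 22)
 (.ev (nat_lit 52) (nat_lit 1146801365188608) (.ev (nat_lit 84) (nat_lit 281474976711712) (.ev (nat_lit 116)
 (nat_lit 137438953472) (.ev (nat_lit 148) (nat_lit 4096) (.ev (nat_lit 180) (nat_lit 16779264) (.nd (nat_lit
 576) (.br (nat_lit 29) (.br (nat_lit 15) (.br (nat_lit 9) (.ch (nat_lit 4) (.ev (nat_lit 592) (nat_lit
 703687445970944) (.ev (nat_lit 688) (nat_lit 2097152) (.ev (nat_lit 720) (nat_lit 512) (.fin (nat_lit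
 576462401572389439)))))) (.br (nat_lit 12) (.ch (nat_lit 9) (.ev (nat_lit 592) (nat_lit 703687984939008) (.ev
 (nat_lit 660) (nat_lit 512) (.ev (nat_lit 669) (nat_lit 4503599627370496) .dd)))) (.ch (nat_lit 12) (.ev
 (nat_lit 592) (nat_lit 5066549584986624) (.ev (nat_lit 804) (nat_lit 538968064) (.ev (nat_lit 813) (nat_lit
 140737488355328) .dd)))))) (.br (nat_lit 23) (.br (nat_lit 20) (.ch (nat_lit 15) (.ev (nat_lit 592) (nat_lit
 5207287610212864) (.ev (nat_lit 605) (nat_lit 2097152) .dd))) (.ch (nat_lit 20) (.ev (nat_lit 592) (nat_lit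
 4644337117823488) (.ev (nat_lit 660) (nat_lit 562949953421312) (.ev (nat_lit 672) (nat_lit 536870912) (.ev
 (nat_lit 685) (nat_lit 4194304) .dd)))))) (.br (nat_lit 28) (.ch (nat_lit 23) (.ev (nat_lit 592) (nat_lit
 5066550121857536) (.ev (nat_lit 660) (nat_lit 2097152) (.ev (nat_lit 669) (nat_lit 140737488355328) .dd))))
 (.ch (nat_lit 28) (.ev (nat_lit 592) (nat_lit 703687984939520) (.ev (nat_lit 605) (nat_lit 4503599627370496)
 .dd)))))) (.br (nat_lit 34) (.br (nat_lit 31) (.ch (nat_lit 29) (.ev (nat_lit 592) (nat_lit 4644337122017280)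
 (.ev (nat_lit 672) (nat_lit 512) (.ev (nat_lit 704) (nat_lit 562949953421312) (.ev (nat_lit 717) (nat_lit
 536870912) .dd))))) (.br (nat_lit 33) (.ch (nat_lit 31) (.ev (nat_lit 592) (nat_lit 5207287612309504) (.ev
 (nat_lit 605) (nat_lit 512) .dd))) (.ch (nat_lit 33) (.ev (nat_lit 592) (nat_lit 562950496583680) (.ev
 (nat_lit 608) (nat_lit 4503599627370496) (.ev (nat_lit 660) (nat_lit 512) (.ev (nat_lit 669) (nat_lit
 140737488355328) .dd))))))) (.br (nat_lit 38) (.br (nat_lit 35) (.ch (nat_lit 34) (.ev (nat_lit 592) (nat_lit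
 5207287612310016) .dd)) (.ch (nat_lit 35) (.ev (nat_lit 592) (nat_lit 5207287612309504) (.ev (nat_lit 605)
 (nat_lit 512) .dd)))) (.br (nat_lit 40) (.ch (nat_lit 38) (.ev (nat_lit 592) (nat_lit 5066549584986624) (.ev
 (nat_lit 608) (nat_lit 536870912) (.ev (nat_lit 804) (nat_lit 2097152) (.ev (nat_lit 813) (nat_lit
 140737488355328) .dd))))) (.ch (nat_lit 40) (.ev (nat_lit 592) (nat_lit 703687982842368) (.ev (nat_lit 672)
 (nat_lit 2097152) (.ev (nat_lit 685) (nat_lit 4503599627370496) .dd))))))))))))))))))) (.br (nat_lit 33) (.br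
 (nat_lit 28) (.br (nat_lit 26) (.ch (nat_lit 25) (.ev (nat_lit 52) (nat_lit 864354119454720) (.ev (nat_lit 84)
 (nat_lit 4503601776951296) (.ev (nat_lit 116) (nat_lit 1024) (.ev (nat_lit 180) (nat_lit 1099511627808) (.ev
 (nat_lit 340) (nat_lit 140737488355328) (.nd (nat_lit 576) (.br (nat_lit 28) (.br (nat_lit 9) (.br (nat_lit 6)
 (.ch (nat_lit 4) (.ev (nat_lit 592) (nat_lit 1125908513556992) .dd)) (.br (nat_lit 8) (.ch (nat_lit 6) (.ev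
 (nat_lit 592) (nat_lit 1125908513556992) .dd)) (.ch (nat_lit 8) (.ev (nat_lit 592) (nat_lit 1125908496779776)
 (.ev (nat_lit 605) (nat_lit 16777216) .dd))))) (.br (nat_lit 16) (.br (nat_lit 15) (.ch (nat_lit 9) (.ev
 (nat_lit 592) (nat_lit 1125908513556992) .dd)) (.ch (nat_lit 15) (.ev (nat_lit 592) (nat_lit 1125908513556992)
 .dd))) (.br (nat_lit 19) (.ch (nat_lit 16) (.ev (nat_lit 592) (nat_lit 1125908513554944) (.ev (nat_lit 605)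
 (nat_lit 2048) .dd))) (.ch (nat_lit 19) (.ev (nat_lit 592) (nat_lit 8606713856) (.ev (nat_lit 804) (nat_lit
 1125899906842624) (.ev (nat_lit 813) (nat_lit 512) .dd))))))) (.br (nat_lit 32) (.br (nat_lit 29) (.ch
 (nat_lit 28) (.ev (nat_lit 592) (nat_lit 1125908513556992) .dd)) (.br (nat_lit 31) (.ch (nat_lit 29) (.ev
 (nat_lit 592) (nat_lit 8606714368) (.ev (nat_lit 605) (nat_lit 1125899906842624) .dd))) (.ch (nat_lit 31) (.ev
 (nat_lit 592) (nat_lit 1125899923619840) (.ev (nat_lit 660) (nat_lit 512) (.fin (nat_lit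
 576477794739372622))))))) (.br (nat_lit 38) (.br (nat_lit 33) (.ch (nat_lit 32) (.ev (nat_lit 592) (nat_lit
 8606713856) (.ev (nat_lit 660) (nat_lit 1125899906842624) (.ev (nat_lit 669) (nat_lit 512) .dd)))) (.ch
 (nat_lit 33) (.ev (nat_lit 592) (nat_lit 1125908513554944) (.ev (nat_lit 605) (nat_lit 2048) .dd)))) (.br
 (nat_lit 40) (.ch (nat_lit 38) (.ev (nat_lit 592) (nat_lit 1125908513556992) .dd)) (.ch (nat_lit 40) (.ev
 (nat_lit 592) (nat_lit 1125908496779776) (.ev (nat_lit 605) (nat_lit 16777216) .dd)))))))))))))) (.br (nat_lit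
 27) (.ch (nat_lit 26) (.ev (nat_lit 52) (nat_lit 6335395128152064) (.ev (nat_lit 96) (nat_lit 300306281795104)
 .dd))) (.ch (nat_lit 27) (.ev (nat_lit 52) (nat_lit 283820582507552) (.ev (nat_lit 84) (nat_lit
 4503599627370496) (.ev (nat_lit 148) (nat_lit 2097152) (.ev (nat_lit 308) (nat_lit 1099511627776) (.nd
 (nat_lit 576) (.br (nat_lit 20) (.br (nat_lit 15) (.br (nat_lit 12) (.ch (nat_lit 6) (.ev (nat_lit 592)
 (nat_lit 158331826078208) (.ev (nat_lit 688) (nat_lit 1125899906842624) (.ev (nat_lit 1092) (nat_lit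
 562949953421312) (.ev (nat_lit 1101) (nat_lit 2048) .dd))))) (.br (nat_lit 13) (.ch (nat_lit 12) (.ev (nat_lit
 592) (nat_lit 721281779501568) (.ev (nat_lit 605) (nat_lit 1125899906842624) .dd))) (.ch (nat_lit 13) (.ev
 (nat_lit 592) (nat_lit 1829589496105472) (.ev (nat_lit 660) (nat_lit 17592186044416) (.ev (nat_lit 669)
 (nat_lit 4194304) .dd)))))) (.br (nat_lit 16) (.ch (nat_lit 15) (.ev (nat_lit 592) (nat_lit 1829589500299776)
 (.ev (nat_lit 605) (nat_lit 17592186044416) .dd))) (.br (nat_lit 19) (.ch (nat_lit 16) (.ev (nat_lit 592)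
 (nat_lit 1847179538860544) (.ev (nat_lit 605) (nat_lit 2147483648) .dd))) (.ch (nat_lit 19) (.ev (nat_lit 592)
 (nat_lit 1706444197988352) (.ev (nat_lit 624) (nat_lit 140737488355328) (.ev (nat_lit 637) (nat_lit 512)
 .dd))))))) (.br (nat_lit 29) (.br (nat_lit 26) (.ch (nat_lit 20) (.ev (nat_lit 592) (nat_lit 1284229581242880)
 (.ev (nat_lit 660) (nat_lit 2147483648) (.ev (nat_lit 932) (nat_lit 4194304) (.ev (nat_lit 1124) (nat_lit
 562949953421312) (.ev (nat_lit 1133) (nat_lit 2048) .dd)))))) (.br (nat_lit 28) (.ch (nat_lit 26) (.ev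
 (nat_lit 592) (nat_lit 721281779501568) (.ev (nat_lit 605) (nat_lit 1125899906842624) .dd))) (.ch (nat_lit 28)
 (.ev (nat_lit 592) (nat_lit 1847181686343680) (.ev (nat_lit 605) (nat_lit 512) .dd))))) (.br (nat_lit 35) (.br
 (nat_lit 31) (.ch (nat_lit 29) (.ev (nat_lit 592) (nat_lit 158331826077696) (.ev (nat_lit 816) (nat_lit 512)
 (.ev (nat_lit 1014) (nat_lit 1688849860265984) .dd)))) (.ch (nat_lit 31) (.ev (nat_lit 592) (nat_lit
 1847181686343680) (.ev (nat_lit 605) (nat_lit 512) .dd)))) (.br (nat_lit 40) (.ch (nat_lit 35) (.ev (nat_lit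
 592) (nat_lit 1847181686343680) (.ev (nat_lit 605) (nat_lit 512) .dd))) (.ch (nat_lit 40) (.ev (nat_lit 592)
 (nat_lit 1284231732920832) (.ev (nat_lit 980) (nat_lit 562949953421312) (.ev (nat_lit 989) (nat_lit 2048)
 .dd)))))))))))))))) (.br (nat_lit 31) (.br (nat_lit 29) (.ch (nat_lit 28) (.ev (nat_lit 52) (nat_lit
 6051860175653888) (.ev (nat_lit 84) (nat_lit 18691697672192) (.ev (nat_lit 116) (nat_lit 512) (.ev (nat_lit
 148) (nat_lit 2199025352704) (.nd (nat_lit 576) (.br (nat_lit 25) (.br (nat_lit 12) (.br (nat_lit 8) (.ch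
 (nat_lit 0) (.ev (nat_lit 592) (nat_lit 562950507069472) (.ev (nat_lit 660) (nat_lit 4194304) (.ev (nat_lit
 669) (nat_lit 4096) .dd)))) (.br (nat_lit 11) (.ch (nat_lit 8) (.ev (nat_lit 592) (nat_lit 557842464) (.ev
 (nat_lit 660) (nat_lit 562949953421312) (.ev (nat_lit 669) (nat_lit 4096) .dd)))) (.ch (nat_lit 11) (.ev
 (nat_lit 592) (nat_lit 562950511263776) (.ev (nat_lit 605) (nat_lit 4096) .dd))))) (.br (nat_lit 20) (.br
 (nat_lit 13) (.ch (nat_lit 12) (.ev (nat_lit 592) (nat_lit 562949970198528) (.ev (nat_lit 660) (nat_lit 4096)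
 (.ev (nat_lit 804) (nat_lit 536870944) (.ev (nat_lit 813) (nat_lit 4194304) .dd))))) (.ch (nat_lit 13) (.ev
 (nat_lit 592) (nat_lit 562949970202656) (.ev (nat_lit 660) (nat_lit 4194304) (.ev (nat_lit 669) (nat_lit
 536870912) .dd))))) (.br (nat_lit 23) (.ch (nat_lit 20) (.ev (nat_lit 592) (nat_lit 562950511267840) (.ev
 (nat_lit 605) (nat_lit 32) .dd))) (.ch (nat_lit 23) (.ev (nat_lit 592) (nat_lit 562949974396960) (.ev (nat_lit
 605) (nat_lit 536870912) .dd)))))) (.br (nat_lit 33) (.br (nat_lit 26) (.ch (nat_lit 25) (.ev (nat_lit 592)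
 (nat_lit 541065248) (.ev (nat_lit 660) (nat_lit 4096) (.ev (nat_lit 804) (nat_lit 562949953421312) (.ev
 (nat_lit 813) (nat_lit 16777216) .dd))))) (.br (nat_lit 31) (.ch (nat_lit 26) (.ev (nat_lit 592) (nat_lit
 562950511267872) .dd)) (.ch (nat_lit 31) (.ev (nat_lit 592) (nat_lit 562950494490624) (.ev (nat_lit 704)
 (nat_lit 32) (.ev (nat_lit 717) (nat_lit 16777216) .dd)))))) (.br (nat_lit 35) (.br (nat_lit 34) (.ch (nat_lit
 33) (.ev (nat_lit 592) (nat_lit 557846560) (.ev (nat_lit 605) (nat_lit 562949953421312) .dd))) (.ch (nat_lit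
 34) (.ev (nat_lit 592) (nat_lit 562950494490656) (.ev (nat_lit 605) (nat_lit 16777216) .dd)))) (.br (nat_lit
 42) (.ch (nat_lit 35) (.ev (nat_lit 592) (nat_lit 562950494490656) (.ev (nat_lit 605) (nat_lit 16777216)
 .dd))) (.ch (nat_lit 42) (.ev (nat_lit 592) (nat_lit 562950511263776) (.ev (nat_lit 605) (nat_lit 4096)
 .dd))))))))))))) (.ch (nat_lit 29) (.ev (nat_lit 52) (nat_lit 5629639661718528) (.ev (nat_lit 84) (nat_lit
 18874368) (.ev (nat_lit 116) (nat_lit 721288217756160) (.ev (nat_lit 212) (nat_lit 2199023255552) (.ev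
 (nat_lit 544) (nat_lit 32) (.nd (nat_lit 576) (.br (nat_lit 25) (.br (nat_lit 16) (.br (nat_lit 15) (.ch
 (nat_lit 6) (.ev (nat_lit 592) (nat_lit 282574488342528) .dd)) (.ch (nat_lit 15) (.ev (nat_lit 592) (nat_lit
 281474976710656) (.ev (nat_lit 688) (nat_lit 1099511627776) (.ev (nat_lit 701) (nat_lit 4096) .dd))))) (.br
 (nat_lit 19) (.ch (nat_lit 16) (.ev (nat_lit 592) (nat_lit 282574488338432) (.ev (nat_lit 605) (nat_lit 4096)
 .dd))) (.br (nat_lit 23) (.ch (nat_lit 19) (.ev (nat_lit 592) (nat_lit 282574488342528) .dd)) (.ch (nat_lit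
 23) (.ev (nat_lit 592) (nat_lit 282574488342528) .dd))))) (.br (nat_lit 35) (.br (nat_lit 29) (.ch (nat_lit
 25) (.ev (nat_lit 592) (nat_lit 282574488338432) (.ev (nat_lit 605) (nat_lit 4096) .dd))) (.br (nat_lit 32)
 (.ch (nat_lit 29) (.ev (nat_lit 592) (nat_lit 281474976714752) (.ev (nat_lit 605) (nat_lit 1099511627776)
 .dd))) (.ch (nat_lit 32) (.ev (nat_lit 592) (nat_lit 282574488342528) .dd)))) (.br (nat_lit 38) (.ch (nat_lit
 35) (.ev (nat_lit 592) (nat_lit 281474976714752) (.ev (nat_lit 605) (nat_lit 1099511627776) .dd))) (.br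
 (nat_lit 40) (.ch (nat_lit 38) (.ev (nat_lit 592) (nat_lit 1099511631872) (.ev (nat_lit 605) (nat_lit
 281474976710656) .dd))) (.ch (nat_lit 40) (.ev (nat_lit 592) (nat_lit 1099511631872) (.ev (nat_lit 605)
 (nat_lit 281474976710656) .dd))))))))))))))) (.br (nat_lit 32) (.ch (nat_lit 31) (.ev (nat_lit 52) (nat_lit
 282714095747584) (.ev (nat_lit 64) (nat_lit 6352987314199584) .dd))) (.ch (nat_lit 32) (.ev (nat_lit 52)
 (nat_lit 4506900850803712) (.ev (nat_lit 84) (nat_lit 281474976710656) (.ev (nat_lit 116) (nat_lit 512) (.ev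
 (nat_lit 180) (nat_lit 16777216) (.ev (nat_lit 244) (nat_lit 562949953421312) (.ev (nat_lit 340) (nat_lit
 2048) (.nd (nat_lit 576) (.br (nat_lit 20) (.br (nat_lit 8) (.br (nat_lit 4) (.ch (nat_lit 0) (.ev (nat_lit
 592) (nat_lit 1284238173278240) (.ev (nat_lit 605) (nat_lit 137438953472) .dd))) (.br (nat_lit 6) (.ch
 (nat_lit 4) (.ev (nat_lit 592) (nat_lit 1284375610134560) (.ev (nat_lit 605) (nat_lit 2097152) .dd))) (.ch
 (nat_lit 6) (.ev (nat_lit 592) (nat_lit 1284238173278240) (.ev (nat_lit 605) (nat_lit 137438953472) .dd)))))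
 (.br (nat_lit 11) (.ch (nat_lit 8) (.ev (nat_lit 592) (nat_lit 1143638123872288) (.ev (nat_lit 960) (nat_lit
 4096) (.ev (nat_lit 973) (nat_lit 140737488355328) .dd)))) (.br (nat_lit 19) (.ch (nat_lit 11) (.ev (nat_lit
 592) (nat_lit 158475705389088) (.ev (nat_lit 605) (nat_lit 1125899906842624) .dd))) (.ch (nat_lit 19) (.ev
 (nat_lit 592) (nat_lit 1143629531840544) (.ev (nat_lit 660) (nat_lit 2097152) (.ev (nat_lit 932) (nat_lit
 8589934592) (.ev (nat_lit 1188) (nat_lit 140737488355328) (.ev (nat_lit 1197) (nat_lit 4096) .dd))))))))) (.br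
 (nat_lit 28) (.br (nat_lit 25) (.ch (nat_lit 20) (.ev (nat_lit 592) (nat_lit 1284375612231680) (.ev (nat_lit
 605) (nat_lit 32) .dd))) (.br (nat_lit 26) (.ch (nat_lit 25) (.ev (nat_lit 592) (nat_lit 158467115454496) (.ev
 (nat_lit 660) (nat_lit 1125899906842624) (.ev (nat_lit 669) (nat_lit 8589934592) .dd)))) (.ch (nat_lit 26)
 (.ev (nat_lit 592) (nat_lit 1266645987233824) (.ev (nat_lit 624) (nat_lit 17592186044416) (.ev (nat_lit 637)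
 (nat_lit 137438953472) .dd)))))) (.br (nat_lit 32) (.br (nat_lit 31) (.ch (nat_lit 28) (.ev (nat_lit 592)
 (nat_lit 1284238173278240) (.ev (nat_lit 605) (nat_lit 137438953472) .dd))) (.ch (nat_lit 31) (.ev (nat_lit
 592) (nat_lit 1143638123872256) (.ev (nat_lit 688) (nat_lit 32) (.ev (nat_lit 1156) (nat_lit 140737488355328)
 (.ev (nat_lit 1165) (nat_lit 4096) .dd)))))) (.br (nat_lit 42) (.ch (nat_lit 32) (.ev (nat_lit 592) (nat_lit
 1284375612231680) (.ev (nat_lit 605) (nat_lit 32) .dd))) (.ch (nat_lit 42) (.ev (nat_lit 592) (nat_lit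
 1143500684918784) (.ev (nat_lit 816) (nat_lit 137438953472) (.ev (nat_lit 992) (nat_lit 140737488355328) (.ev
 (nat_lit 1060) (nat_lit 4096) (.ev (nat_lit 1069) (nat_lit 32) .dd))))))))))))))))))))) (.br (nat_lit 42) (.br
 (nat_lit 36) (.br (nat_lit 35) (.ch (nat_lit 33) (.ev (nat_lit 52) (nat_lit 17603477111840) (.ev (nat_lit 84)
 (nat_lit 281474976710656) (.ev (nat_lit 116) (nat_lit 1099511627776) (.ev (nat_lit 148) (nat_lit 6291968) (.ev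
 (nat_lit 180) (nat_lit 140737488355328) (.ev (nat_lit 276) (nat_lit 1125899906842624) (.nd (nat_lit 576) (.br
 (nat_lit 28) (.br (nat_lit 19) (.br (nat_lit 6) (.ch (nat_lit 4) (.ev (nat_lit 592) (nat_lit 5068886043002880)
 (.ev (nat_lit 605) (nat_lit 4096) .dd))) (.br (nat_lit 12) (.ch (nat_lit 6) (.ev (nat_lit 592) (nat_lit
 5068748604053504) (.ev (nat_lit 605) (nat_lit 137438953472) .dd))) (.ch (nat_lit 12) (.ev (nat_lit 592)
 (nat_lit 5066549580793856) (.ev (nat_lit 720) (nat_lit 137438953472) (.ev (nat_lit 804) (nat_lit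
 2199023255552) (.ev (nat_lit 813) (nat_lit 4096) .dd))))))) (.br (nat_lit 23) (.br (nat_lit 20) (.ch (nat_lit
 19) (.ev (nat_lit 592) (nat_lit 5068886043006976) .dd)) (.ch (nat_lit 20) (.ev (nat_lit 592) (nat_lit
 5068886043004928) (.ev (nat_lit 605) (nat_lit 2048) .dd)))) (.br (nat_lit 25) (.ch (nat_lit 23) (.ev (nat_lit
 592) (nat_lit 565286415636480) (.ev (nat_lit 605) (nat_lit 4503599627370496) .dd))) (.ch (nat_lit 25) (.ev
 (nat_lit 592) (nat_lit 2336462215168) (.ev (nat_lit 660) (nat_lit 562949953421312) (.ev (nat_lit 669) (nat_lit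
 4503599627370496) .dd))))))) (.br (nat_lit 33) (.br (nat_lit 29) (.ch (nat_lit 28) (.ev (nat_lit 592) (nat_lit
 5068748604049408) (.ev (nat_lit 660) (nat_lit 4096) (.ev (nat_lit 669) (nat_lit 137438953472) .dd)))) (.br
 (nat_lit 32) (.ch (nat_lit 29) (.ev (nat_lit 592) (nat_lit 565286415636480) (.ev (nat_lit 605) (nat_lit
 4503599627370496) .dd))) (.ch (nat_lit 32) (.ev (nat_lit 592) (nat_lit 5066549580791808) (.ev (nat_lit 608)
 (nat_lit 2199023255552) (.ev (nat_lit 660) (nat_lit 137438955520) (.ev (nat_lit 669) (nat_lit 4096) .dd)))))))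
 (.br (nat_lit 35) (.br (nat_lit 34) (.ch (nat_lit 33) (.ev (nat_lit 592) (nat_lit 5066549580797952) (.ev
 (nat_lit 660) (nat_lit 137438953472) (.ev (nat_lit 669) (nat_lit 2199023255552) .dd)))) (.ch (nat_lit 34) (.ev
 (nat_lit 592) (nat_lit 4503737066328064) (.ev (nat_lit 660) (nat_lit 2199023255552) (.ev (nat_lit 672)
 (nat_lit 562949953421312) (.ev (nat_lit 685) (nat_lit 2048) .dd)))))) (.br (nat_lit 42) (.ch (nat_lit 35) (.ev
 (nat_lit 592) (nat_lit 5066687019751424) (.ev (nat_lit 605) (nat_lit 2199023255552) .dd))) (.ch (nat_lit 42)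
 (.ev (nat_lit 592) (nat_lit 4505798650632192) (.ev (nat_lit 660) (nat_lit 562949953421312) (.ev (nat_lit 669)
 (nat_lit 137438953472) .dd)))))))))))))))) (.ch (nat_lit 35) (.ev (nat_lit 52) (nat_lit 1973623925510688) (.ev
 (nat_lit 84) (nat_lit 17592186044416) (.ev (nat_lit 128) (nat_lit 4644485298392064) .dd))))) (.br (nat_lit 38)
 (.ch (nat_lit 36) (.ev (nat_lit 52) (nat_lit 1146801384067584) (.ev (nat_lit 84) (nat_lit 4503600164241408)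
 (.ev (nat_lit 116) (nat_lit 140737488355328) (.ev (nat_lit 148) (nat_lit 137443147776) (.ev (nat_lit 212)
 (nat_lit 32) (.ev (nat_lit 512) (nat_lit 2048) (.nd (nat_lit 576) (.br (nat_lit 26) (.br (nat_lit 19) (.br
 (nat_lit 8) (.ch (nat_lit 4) (.ev (nat_lit 592) (nat_lit 844424930132992) .dd)) (.ch (nat_lit 8) (.ev (nat_lit
 592) (nat_lit 562949953422336) (.ev (nat_lit 605) (nat_lit 281474976710656) .dd)))) (.br (nat_lit 20) (.ch
 (nat_lit 19) (.ev (nat_lit 592) (nat_lit 844424930132992) .dd)) (.br (nat_lit 23) (.ch (nat_lit 20) (.ev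
 (nat_lit 592) (nat_lit 844424930131968) (.ev (nat_lit 605) (nat_lit 1024) .dd))) (.ch (nat_lit 23) (.ev
 (nat_lit 592) (nat_lit 844424930132992) .dd))))) (.br (nat_lit 38) (.br (nat_lit 28) (.ch (nat_lit 26) (.ev
 (nat_lit 592) (nat_lit 281474976710656) (.ev (nat_lit 660) (nat_lit 562949953421312) (.ev (nat_lit 669)
 (nat_lit 1024) .dd)))) (.br (nat_lit 35) (.ch (nat_lit 28) (.ev (nat_lit 592) (nat_lit 281474976711680) (.ev
 (nat_lit 605) (nat_lit 562949953421312) .dd))) (.ch (nat_lit 35) (.ev (nat_lit 592) (nat_lit 844424930132992)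
 .dd)))) (.br (nat_lit 40) (.ch (nat_lit 38) (.ev (nat_lit 592) (nat_lit 844424930132992) .dd)) (.br (nat_lit
 42) (.ch (nat_lit 40) (.ev (nat_lit 592) (nat_lit 281474976711680) (.ev (nat_lit 605) (nat_lit
 562949953421312) .dd))) (.ch (nat_lit 42) (.ev (nat_lit 592) (nat_lit 844424930131968) (.ev (nat_lit 605)
 (nat_lit 1024) .dd))))))))))))))) (.ch (nat_lit 38) (.ev (nat_lit 52) (nat_lit 6052960226249248) (.ev (nat_lit
 84) (nat_lit 17592186048512) (.ev (nat_lit 116) (nat_lit 2199023255552) (.ev (nat_lit 212) (nat_lit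
 562949953421312) (.ev (nat_lit 244) (nat_lit 16777216) (.ev (nat_lit 416) (nat_lit 4195328) .dd))))))))) (.br
 (nat_lit 45) (.br (nat_lit 44) (.ch (nat_lit 42) (.ev (nat_lit 52) (nat_lit 143084692179968) (.ev (nat_lit 64)
 (nat_lit 6492616717767200) .dd))) (.ch (nat_lit 44) (.ev (nat_lit 52) (nat_lit 6335523442398208) (.ev (nat_lit
 64) (nat_lit 300177967548960) .dd)))) (.br (nat_lit 46) (.ch (nat_lit 45) (.ev (nat_lit 52) (nat_lit
 6211150312114720) (.ev (nat_lit 84) (nat_lit 422212465065984) (.ev (nat_lit 128) (nat_lit 2338632766464)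
 .dd)))) (.ch (nat_lit 46) (.ev (nat_lit 52) (nat_lit 6069306339100160) (.ev (nat_lit 180) (nat_lit
 1100048502784) (.nd (nat_lit 576) (.br (nat_lit 28) (.br (nat_lit 11) (.br (nat_lit 4) (.ch (nat_lit 0) (.ev
 (nat_lit 592) (nat_lit 2336478988320) (.ev (nat_lit 660) (nat_lit 562949953421312) (.ev (nat_lit 669) (nat_lit
 8589934592) .dd)))) (.br (nat_lit 8) (.ch (nat_lit 4) (.ev (nat_lit 592) (nat_lit 565157583390752) (.ev
 (nat_lit 605) (nat_lit 137438953472) .dd))) (.ch (nat_lit 8) (.ev (nat_lit 592) (nat_lit 565157566613536) (.ev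
 (nat_lit 660) (nat_lit 16777216) (.ev (nat_lit 669) (nat_lit 137438953472) .dd)))))) (.br (nat_lit 13) (.ch
 (nat_lit 11) (.ev (nat_lit 592) (nat_lit 565295022344224) .dd)) (.br (nat_lit 19) (.ch (nat_lit 13) (.ev
 (nat_lit 592) (nat_lit 565295022342176) (.ev (nat_lit 605) (nat_lit 2048) .dd))) (.ch (nat_lit 19) (.ev
 (nat_lit 592) (nat_lit 565295005567008) (.ev (nat_lit 605) (nat_lit 16777216) .dd)))))) (.br (nat_lit 34) (.br
 (nat_lit 31) (.ch (nat_lit 28) (.ev (nat_lit 592) (nat_lit 565286432409632) (.ev (nat_lit 605) (nat_lit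
 8589934592) .dd))) (.br (nat_lit 32) (.ch (nat_lit 31) (.ev (nat_lit 592) (nat_lit 565286415630336) (.ev
 (nat_lit 660) (nat_lit 32) (.ev (nat_lit 804) (nat_lit 16777216) (.fin (nat_lit 576477794739372622)))))) (.ch
 (nat_lit 32) (.ev (nat_lit 592) (nat_lit 563095999086592) (.ev (nat_lit 804) (nat_lit 2199023257600) (.ev
 (nat_lit 813) (nat_lit 32) .dd)))))) (.br (nat_lit 38) (.br (nat_lit 35) (.ch (nat_lit 34) (.ev (nat_lit 592)
 (nat_lit 2345068920864) (.ev (nat_lit 688) (nat_lit 562949953423360) .dd))) (.ch (nat_lit 35) (.ev (nat_lit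
 592) (nat_lit 565295005566976) (.ev (nat_lit 660) (nat_lit 32) (.ev (nat_lit 669) (nat_lit 16777216) .dd)))))
 (.br (nat_lit 40) (.ch (nat_lit 38) (.ev (nat_lit 592) (nat_lit 565295022342176) (.ev (nat_lit 605) (nat_lit
 2048) .dd))) (.ch (nat_lit 40) (.ev (nat_lit 592) (nat_lit 137455732736) (.ev (nat_lit 660) (nat_lit
 2199023255552) (.ev (nat_lit 672) (nat_lit 562949953421312) (.ev (nat_lit 832) (nat_lit 32) (.ev (nat_lit 845)
 (nat_lit 8589934592) .dd)))))))))))))))))))))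

/-- Subtrie. -/
noncomputable def T9 : Tr := (.ev (nat_lit 20) (nat_lit 1578280490829872) (.nd (nat_lit 33) (.br (nat_lit 25)
 (.br (nat_lit 14) (.br (nat_lit 5) (.br (nat_lit 2) (.ch (nat_lit 1) (.ev (nat_lit 52) (nat_lit
 567899991576576) (.ev (nat_lit 116) (nat_lit 4503599629467648) (.ev (nat_lit 148) (nat_lit 1088) (.ev (nat_lit
 224) (nat_lit 70377871016448) .dd))))) (.br (nat_lit 3) (.ch (nat_lit 2) (.ev (nat_lit 52) (nat_lit
 633327371715072) (.ev (nat_lit 84) (nat_lit 1024) (.ev (nat_lit 116) (nat_lit 4160) (.ev (nat_lit 148)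
 (nat_lit 4507997673881600) (.ev (nat_lit 212) (nat_lit 549755813888) (.ev (nat_lit 320) (nat_lit 2690646016)
 .dd))))))) (.ch (nat_lit 3) (.ev (nat_lit 52) (nat_lit 563502412469312) (.ev (nat_lit 84) (nat_lit 67108864)
 (.ev (nat_lit 116) (nat_lit 4507997673881600) (.ev (nat_lit 180) (nat_lit 262144) (.ev (nat_lit 212) (nat_lit
 8589935104) (.nd (nat_lit 576) (.br (nat_lit 14) (.br (nat_lit 9) (.br (nat_lit 6) (.ch (nat_lit 2) (.ev
 (nat_lit 592) (nat_lit 70368748404736) .dd)) (.br (nat_lit 7) (.ch (nat_lit 6) (.ev (nat_lit 592) (nat_lit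
 4227072) (.ev (nat_lit 605) (nat_lit 70368744177664) .dd))) (.ch (nat_lit 7) (.ev (nat_lit 592) (nat_lit
 70368744210432) (.ev (nat_lit 605) (nat_lit 4194304) .dd))))) (.br (nat_lit 11) (.ch (nat_lit 9) (.ev (nat_lit
 592) (nat_lit 70368748404736) .dd)) (.br (nat_lit 12) (.ch (nat_lit 11) (.ev (nat_lit 592) (nat_lit
 70368748404736) .dd)) (.ch (nat_lit 12) (.ev (nat_lit 592) (nat_lit 4194304) (.ev (nat_lit 804) (nat_lit
 32768) (.ev (nat_lit 813) (nat_lit 70368744177664) .dd))))))) (.br (nat_lit 36) (.br (nat_lit 18) (.ch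
 (nat_lit 14) (.ev (nat_lit 592) (nat_lit 70368748404736) .dd)) (.br (nat_lit 27) (.ch (nat_lit 18) (.ev
 (nat_lit 592) (nat_lit 32768) (.ev (nat_lit 720) (nat_lit 70368744177664) (.ev (nat_lit 733) (nat_lit 4194304)
 .dd)))) (.ch (nat_lit 27) (.ev (nat_lit 592) (nat_lit 70368748404736) .dd)))) (.br (nat_lit 39) (.br (nat_lit
 38) (.ch (nat_lit 36) (.ev (nat_lit 592) (nat_lit 70368744210432) (.ev (nat_lit 605) (nat_lit 4194304) .dd)))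
 (.ch (nat_lit 38) (.ev (nat_lit 592) (nat_lit 4227072) (.ev (nat_lit 605) (nat_lit 70368744177664) .dd))))
 (.br (nat_lit 40) (.ch (nat_lit 39) (.ev (nat_lit 592) (nat_lit 70368748404736) .dd)) (.ch (nat_lit 40) (.ev
 (nat_lit 592) (nat_lit 4227072) (.ev (nat_lit 605) (nat_lit 70368744177664) .dd)))))))))))))))) (.br (nat_lit
 11) (.br (nat_lit 9) (.ch (nat_lit 5) (.ev (nat_lit 52) (nat_lit 552513573376) (.ev (nat_lit 84) (nat_lit
 4398046773312) (.ev (nat_lit 116) (nat_lit 4573968371548160) (.ev (nat_lit 148) (nat_lit 562949953421312) (.nd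
 (nat_lit 576) (.br (nat_lit 19) (.br (nat_lit 11) (.br (nat_lit 8) (.ch (nat_lit 7) (.ev (nat_lit 592)
 (nat_lit 8606745600) .dd)) (.ch (nat_lit 8) (.ev (nat_lit 592) (nat_lit 8589968384) (.ev (nat_lit 605)
 (nat_lit 16777216) .dd)))) (.br (nat_lit 14) (.ch (nat_lit 11) (.ev (nat_lit 592) (nat_lit 16811008) (.ev
 (nat_lit 605) (nat_lit 8589934592) .dd))) (.br (nat_lit 18) (.ch (nat_lit 14) (.ev (nat_lit 592) (nat_lit
 16811008) (.ev (nat_lit 605) (nat_lit 8589934592) .dd))) (.ch (nat_lit 18) (.ev (nat_lit 592) (nat_lit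
 8606711808) (.ev (nat_lit 804) (nat_lit 1024) (.ev (nat_lit 813) (nat_lit 32768) .dd))))))) (.br (nat_lit 32)
 (.br (nat_lit 23) (.ch (nat_lit 19) (.ev (nat_lit 592) (nat_lit 8606712832) (.ev (nat_lit 605) (nat_lit 32768)
 .dd))) (.br (nat_lit 31) (.ch (nat_lit 23) (.ev (nat_lit 592) (nat_lit 8606744576) (.ev (nat_lit 605) (nat_lit
 1024) .dd))) (.ch (nat_lit 31) (.ev (nat_lit 688) (nat_lit 16777216) (.ev (nat_lit 804) (nat_lit 8589935616)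
 (.ev (nat_lit 813) (nat_lit 32768) .dd)))))) (.br (nat_lit 36) (.ch (nat_lit 32) (.ev (nat_lit 592) (nat_lit
 16811008) (.ev (nat_lit 605) (nat_lit 8589934592) .dd))) (.br (nat_lit 39) (.ch (nat_lit 36) (.ev (nat_lit
 592) (nat_lit 8606745600) .dd)) (.ch (nat_lit 39) (.ev (nat_lit 592) (nat_lit 8606745600) .dd)))))))))))) (.ch
 (nat_lit 9) (.ev (nat_lit 52) (nat_lit 637716767475200) (.ev (nat_lit 84) (nat_lit 2214592512) (.ev (nat_lit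
 116) (nat_lit 536870912) (.ev (nat_lit 212) (nat_lit 549755813888) (.ev (nat_lit 256) (nat_lit
 4503608217309248) .dd))))))) (.br (nat_lit 12) (.ch (nat_lit 11) (.ev (nat_lit 52) (nat_lit 5070948170728000)
 (.ev (nat_lit 84) (nat_lit 70918516768768) (.ev (nat_lit 116) (nat_lit 67112960) (.nd (nat_lit 576) (.br
 (nat_lit 14) (.br (nat_lit 11) (.br (nat_lit 8) (.ch (nat_lit 1) (.ev (nat_lit 592) (nat_lit 10737451008) (.ev
 (nat_lit 605) (nat_lit 1024) .dd))) (.br (nat_lit 9) (.ch (nat_lit 8) (.ev (nat_lit 592) (nat_lit 10737452032)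
 .dd)) (.ch (nat_lit 9) (.ev (nat_lit 592) (nat_lit 10737452032) .dd)))) (.br (nat_lit 12) (.ch (nat_lit 11)
 (.ev (nat_lit 592) (nat_lit 33792) (.ev (nat_lit 660) (nat_lit 8589934592) (.ev (nat_lit 669) (nat_lit
 2147483648) .dd)))) (.br (nat_lit 13) (.ch (nat_lit 12) (.ev (nat_lit 592) (nat_lit 10737452032) .dd)) (.ch
 (nat_lit 13) (.ev (nat_lit 592) (nat_lit 2147517440) (.ev (nat_lit 605) (nat_lit 8589934592) .dd)))))) (.br
 (nat_lit 30) (.br (nat_lit 19) (.ch (nat_lit 14) (.ev (nat_lit 592) (nat_lit 10737452032) .dd)) (.br (nat_lit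
 25) (.ch (nat_lit 19) (.ev (nat_lit 592) (nat_lit 2147484672) (.ev (nat_lit 672) (nat_lit 32768) (.ev (nat_lit
 685) (nat_lit 8589934592) .dd)))) (.ch (nat_lit 25) (.ev (nat_lit 592) (nat_lit 2147517440) (.ev (nat_lit 605)
 (nat_lit 8589934592) .dd))))) (.br (nat_lit 32) (.br (nat_lit 31) (.ch (nat_lit 30) (.ev (nat_lit 592)
 (nat_lit 2147517440) (.ev (nat_lit 605) (nat_lit 8589934592) .dd))) (.ch (nat_lit 31) (.ev (nat_lit 592)
 (nat_lit 10737451008) (.ev (nat_lit 605) (nat_lit 1024) .dd)))) (.br (nat_lit 39) (.ch (nat_lit 32) (.ev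
 (nat_lit 592) (nat_lit 8589968384) (.ev (nat_lit 605) (nat_lit 2147483648) .dd))) (.ch (nat_lit 39) (.ev
 (nat_lit 592) (nat_lit 10737451008) (.ev (nat_lit 605) (nat_lit 1024) .dd)))))))))))) (.ch (nat_lit 12) (.ev
 (nat_lit 52) (nat_lit 5136918392374272) (.ev (nat_lit 84) (nat_lit 6295552) (.ev (nat_lit 116) (nat_lit
 16777216) (.ev (nat_lit 180) (nat_lit 8589934592) (.nd (nat_lit 576) (.br (nat_lit 24) (.br (nat_lit 10) (.br
 (nat_lit 6) (.ch (nat_lit 1) (.ev (nat_lit 592) (nat_lit 4950486679616) (.ev (nat_lit 605) (nat_lit 512)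
 .dd))) (.br (nat_lit 7) (.ch (nat_lit 6) (.ev (nat_lit 592) (nat_lit 4950486680128) .dd)) (.ch (nat_lit 7)
 (.ev (nat_lit 592) (nat_lit 551903298112) (.ev (nat_lit 608) (nat_lit 4398046511104) (.ev (nat_lit 621)
 (nat_lit 536870912) .dd)))))) (.br (nat_lit 18) (.br (nat_lit 13) (.ch (nat_lit 10) (.ev (nat_lit 592)
 (nat_lit 4950486679616) (.ev (nat_lit 605) (nat_lit 512) .dd))) (.ch (nat_lit 13) (.ev (nat_lit 592) (nat_lit
 4948339196480) (.ev (nat_lit 605) (nat_lit 2147483648) .dd)))) (.br (nat_lit 19) (.ch (nat_lit 18) (.ev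
 (nat_lit 592) (nat_lit 4949949809216) (.ev (nat_lit 605) (nat_lit 536870912) .dd))) (.ch (nat_lit 19) (.ev
 (nat_lit 592) (nat_lit 4950486680128) .dd))))) (.br (nat_lit 32) (.br (nat_lit 27) (.ch (nat_lit 24) (.ev
 (nat_lit 592) (nat_lit 552440168448) (.ev (nat_lit 660) (nat_lit 64) (.ev (nat_lit 816) (nat_lit
 4398046511104) (.ev (nat_lit 829) (nat_lit 512) .dd))))) (.br (nat_lit 30) (.ch (nat_lit 27) (.ev (nat_lit
 592) (nat_lit 549755814464) (.ev (nat_lit 660) (nat_lit 4398046511104) (.ev (nat_lit 672) (nat_lit 2147483648)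
 (.ev (nat_lit 685) (nat_lit 536870912) .dd))))) (.ch (nat_lit 30) (.ev (nat_lit 592) (nat_lit 552440169024)
 (.ev (nat_lit 605) (nat_lit 4398046511104) .dd))))) (.br (nat_lit 39) (.br (nat_lit 33) (.ch (nat_lit 32) (.ev
 (nat_lit 592) (nat_lit 4948339195968) (.ev (nat_lit 660) (nat_lit 512) (.ev (nat_lit 669) (nat_lit 2147483648)
 .dd)))) (.ch (nat_lit 33) (.ev (nat_lit 592) (nat_lit 2684355072) (.ev (nat_lit 660) (nat_lit 64) (.ev
 (nat_lit 736) (nat_lit 549755813888) (.ev (nat_lit 749) (nat_lit 4398046511104) .dd)))))) (.br (nat_lit 40)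
 (.ch (nat_lit 39) (.ev (nat_lit 592) (nat_lit 4950486680128) .dd)) (.ch (nat_lit 40) (.ev (nat_lit 592)
 (nat_lit 4950486680128) .dd))))))))))))))) (.br (nat_lit 19) (.br (nat_lit 16) (.br (nat_lit 15) (.ch (nat_lit
 14) (.ev (nat_lit 52) (nat_lit 4574526788633152) (.ev (nat_lit 84) (nat_lit 1024) (.ev (nat_lit 116) (nat_lit
 537133056) (.ev (nat_lit 180) (nat_lit 4398046511104) (.ev (nat_lit 212) (nat_lit 562949955518464) (.nd
 (nat_lit 576) (.br (nat_lit 14) (.br (nat_lit 9) (.br (nat_lit 6) (.ch (nat_lit 2) (.ev (nat_lit 592) (nat_lit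
 4096) (.ev (nat_lit 720) (nat_lit 16777216) (.ev (nat_lit 733) (nat_lit 2147483648) .dd)))) (.br (nat_lit 8)
 (.ch (nat_lit 6) (.ev (nat_lit 592) (nat_lit 2164264960) .dd)) (.ch (nat_lit 8) (.ev (nat_lit 592) (nat_lit
 2147483648) (.ev (nat_lit 804) (nat_lit 4096) (.ev (nat_lit 813) (nat_lit 16777216) .dd)))))) (.br (nat_lit
 11) (.ch (nat_lit 9) (.ev (nat_lit 592) (nat_lit 2164264960) .dd)) (.br (nat_lit 13) (.ch (nat_lit 11) (.ev
 (nat_lit 592) (nat_lit 2164264960) .dd)) (.ch (nat_lit 13) (.ev (nat_lit 592) (nat_lit 16781312) (.ev (nat_lit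
 605) (nat_lit 2147483648) .dd)))))) (.br (nat_lit 24) (.br (nat_lit 18) (.ch (nat_lit 14) (.ev (nat_lit 592)
 (nat_lit 2147487744) (.ev (nat_lit 605) (nat_lit 16777216) .dd))) (.br (nat_lit 23) (.ch (nat_lit 18) (.ev
 (nat_lit 592) (nat_lit 2164264960) .dd)) (.ch (nat_lit 23) (.ev (nat_lit 592) (nat_lit 2147487744) (.ev
 (nat_lit 605) (nat_lit 16777216) .dd))))) (.br (nat_lit 27) (.br (nat_lit 25) (.ch (nat_lit 24) (.ev (nat_lit
 592) (nat_lit 2164264960) .dd)) (.ch (nat_lit 25) (.ev (nat_lit 592) (nat_lit 2147487744) (.ev (nat_lit 605)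
 (nat_lit 16777216) .dd)))) (.br (nat_lit 36) (.ch (nat_lit 27) (.ev (nat_lit 592) (nat_lit 16781312) (.ev
 (nat_lit 605) (nat_lit 2147483648) .dd))) (.ch (nat_lit 36) (.ev (nat_lit 592) (nat_lit 2164264960)
 .dd))))))))))))) (.ch (nat_lit 15) (.ev (nat_lit 52) (nat_lit 70920670548992) (.ev (nat_lit 84) (nat_lit
 4503599627370496) (.ev (nat_lit 128) (nat_lit 567357194142272) .dd))))) (.br (nat_lit 18) (.ch (nat_lit 16)
 (.ev (nat_lit 52) (nat_lit 4503602383290432) (.ev (nat_lit 84) (nat_lit 4398063288320) (.ev (nat_lit 116)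
 (nat_lit 1536) (.ev (nat_lit 180) (nat_lit 32768) (.ev (nat_lit 244) (nat_lit 8589934592) (.nd (nat_lit 576)
 (.br (nat_lit 19) (.br (nat_lit 9) (.br (nat_lit 7) (.ch (nat_lit 2) (.ev (nat_lit 592) (nat_lit
 633868455514112) .dd)) (.br (nat_lit 8) (.ch (nat_lit 7) (.ev (nat_lit 592) (nat_lit 549757915136) (.ev
 (nat_lit 660) (nat_lit 70368744177664) (.ev (nat_lit 669) (nat_lit 562949953421312) .dd)))) (.ch (nat_lit 8)
 (.ev (nat_lit 592) (nat_lit 549757915136) (.ev (nat_lit 660) (nat_lit 70368744177664) (.ev (nat_lit 669)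
 (nat_lit 562949953421312) .dd)))))) (.br (nat_lit 13) (.br (nat_lit 10) (.ch (nat_lit 9) (.ev (nat_lit 592)
 (nat_lit 633868455514112) .dd)) (.ch (nat_lit 10) (.ev (nat_lit 592) (nat_lit 633868455510016) (.ev (nat_lit
 605) (nat_lit 4096) .dd)))) (.br (nat_lit 18) (.ch (nat_lit 13) (.ev (nat_lit 592) (nat_lit 563499711336448)
 (.ev (nat_lit 605) (nat_lit 70368744177664) .dd))) (.ch (nat_lit 18) (.ev (nat_lit 592) (nat_lit
 563499711332352) (.ev (nat_lit 672) (nat_lit 70368744177664) (.ev (nat_lit 685) (nat_lit 4096) .dd))))))) (.br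
 (nat_lit 30) (.br (nat_lit 24) (.ch (nat_lit 19) (.ev (nat_lit 592) (nat_lit 633868455510016) (.ev (nat_lit
 605) (nat_lit 4096) .dd))) (.br (nat_lit 25) (.ch (nat_lit 24) (.ev (nat_lit 592) (nat_lit 633868455514112)
 .dd)) (.ch (nat_lit 25) (.ev (nat_lit 592) (nat_lit 633318697603072) (.fin (nat_lit 576456904017396268))))))
 (.br (nat_lit 32) (.br (nat_lit 31) (.ch (nat_lit 30) (.ev (nat_lit 592) (nat_lit 70918502092800) (.ev
 (nat_lit 605) (nat_lit 562949953421312) .dd))) (.ch (nat_lit 31) (.ev (nat_lit 592) (nat_lit 633868455510016)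
 (.ev (nat_lit 605) (nat_lit 4096) .dd)))) (.br (nat_lit 33) (.ch (nat_lit 32) (.ev (nat_lit 592) (nat_lit
 563499711336448) (.ev (nat_lit 605) (nat_lit 70368744177664) .dd))) (.ch (nat_lit 33) (.ev (nat_lit 592)
 (nat_lit 549757915136) (.ev (nat_lit 660) (nat_lit 562949953421312) (.ev (nat_lit 669) (nat_lit
 70368744177664) .dd))))))))))))))) (.ch (nat_lit 18) (.ev (nat_lit 52) (nat_lit 633879211802688) (.ev (nat_lit
 84) (nat_lit 4398046773248) (.ev (nat_lit 212) (nat_lit 36864) (.nd (nat_lit 576) (.br (nat_lit 31) (.br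
 (nat_lit 24) (.br (nat_lit 23) (.ch (nat_lit 10) (.ev (nat_lit 592) (nat_lit 67109888) (.ev (nat_lit 864)
 (nat_lit 2097664) (.ev (nat_lit 880) (nat_lit 4503600164241408) .dd)))) (.ch (nat_lit 23) (.ev (nat_lit 592)
 (nat_lit 606077440) (.ev (nat_lit 660) (nat_lit 1024) (.ev (nat_lit 669) (nat_lit 4503599627370496) .dd)))))
 (.br (nat_lit 25) (.ch (nat_lit 24) (.ev (nat_lit 592) (nat_lit 4503600231350784) (.ev (nat_lit 848) (nat_lit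
 2098176) .dd))) (.br (nat_lit 30) (.ch (nat_lit 25) (.ev (nat_lit 592) (nat_lit 4503600233448960) .dd)) (.ch
 (nat_lit 30) (.ev (nat_lit 592) (nat_lit 4503600233447936) (.ev (nat_lit 605) (nat_lit 1024) .dd)))))) (.br
 (nat_lit 38) (.br (nat_lit 32) (.ch (nat_lit 31) (.ev (nat_lit 592) (nat_lit 4503600233448960) .dd)) (.br
 (nat_lit 33) (.ch (nat_lit 32) (.ev (nat_lit 592) (nat_lit 4503600233448960) .dd)) (.ch (nat_lit 33) (.ev
 (nat_lit 592) (nat_lit 4503600166340096) (.ev (nat_lit 605) (nat_lit 67108864) .dd))))) (.br (nat_lit 39) (.ch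
 (nat_lit 38) (.ev (nat_lit 592) (nat_lit 4503600233448960) .dd)) (.br (nat_lit 40) (.ch (nat_lit 39) (.ev
 (nat_lit 592) (nat_lit 4503600166339584) (.ev (nat_lit 848) (nat_lit 67109376) .dd))) (.ch (nat_lit 40) (.ev
 (nat_lit 592) (nat_lit 4503599629469184) (.ev (nat_lit 660) (nat_lit 67108864) (.ev (nat_lit 669) (nat_lit
 536870912) .dd))))))))))))))) (.br (nat_lit 21) (.br (nat_lit 20) (.ch (nat_lit 19) (.ev (nat_lit 52) (nat_lit
 563499730207744) (.ev (nat_lit 84) (nat_lit 4096) (.ev (nat_lit 116) (nat_lit 4503599627665408) (.ev (nat_lit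
 148) (nat_lit 8589934592) (.ev (nat_lit 180) (nat_lit 67108864) (.ev (nat_lit 212) (nat_lit 2147483648) (.nd
 (nat_lit 576) (.br (nat_lit 24) (.br (nat_lit 12) (.br (nat_lit 8) (.ch (nat_lit 6) (.ev (nat_lit 592)
 (nat_lit 74767329657344) (.ev (nat_lit 605) (nat_lit 64) .dd))) (.br (nat_lit 9) (.ch (nat_lit 8) (.ev
 (nat_lit 592) (nat_lit 74767329656832) (.ev (nat_lit 660) (nat_lit 64) (.ev (nat_lit 669) (nat_lit 512)
 .dd)))) (.ch (nat_lit 9) (.ev (nat_lit 592) (nat_lit 70368746275392) (.ev (nat_lit 660) (nat_lit 536870912)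
 (.ev (nat_lit 669) (nat_lit 4398046511104) .dd)))))) (.br (nat_lit 14) (.ch (nat_lit 12) (.ev (nat_lit 592)
 (nat_lit 4398585479744) (.ev (nat_lit 605) (nat_lit 70368744177664) .dd))) (.br (nat_lit 18) (.ch (nat_lit 14)
 (.ev (nat_lit 592) (nat_lit 74767329657408) .dd)) (.ch (nat_lit 18) (.ev (nat_lit 592) (nat_lit 4398585479744)
 (.ev (nat_lit 605) (nat_lit 70368744177664) .dd)))))) (.br (nat_lit 32) (.br (nat_lit 25) (.ch (nat_lit 24)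
 (.ev (nat_lit 592) (nat_lit 70369281049088) (.ev (nat_lit 704) (nat_lit 4398048608256) (.ev (nat_lit 717)
 (nat_lit 64) .dd)))) (.br (nat_lit 30) (.ch (nat_lit 25) (.ev (nat_lit 592) (nat_lit 74766792786496) (.ev
 (nat_lit 605) (nat_lit 536870912) .dd))) (.ch (nat_lit 30) (.ev (nat_lit 592) (nat_lit 74767329657344) (.ev
 (nat_lit 605) (nat_lit 64) .dd))))) (.br (nat_lit 38) (.br (nat_lit 33) (.ch (nat_lit 32) (.ev (nat_lit 592)
 (nat_lit 4398585479744) (.ev (nat_lit 605) (nat_lit 70368744177664) .dd))) (.ch (nat_lit 33) (.ev (nat_lit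
 592) (nat_lit 4398585479744) (.ev (nat_lit 605) (nat_lit 70368744177664) .dd)))) (.br (nat_lit 40) (.ch
 (nat_lit 38) (.ev (nat_lit 592) (nat_lit 74767329657408) .dd)) (.ch (nat_lit 40) (.ev (nat_lit 592) (nat_lit
 4398585479232) (.ev (nat_lit 660) (nat_lit 512) (.ev (nat_lit 669) (nat_lit 70368744177664)
 .dd)))))))))))))))) (.ch (nat_lit 20) (.ev (nat_lit 52) (nat_lit 4574526719426624) (.ev (nat_lit 84) (nat_lit
 604241920) (.ev (nat_lit 116) (nat_lit 2147483648) (.ev (nat_lit 160) (nat_lit 567348020909568) .dd)))))) (.br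
 (nat_lit 22) (.ch (nat_lit 21) (.ev (nat_lit 52) (nat_lit 637725352924160) (.ev (nat_lit 84) (nat_lit
 67108864) (.ev (nat_lit 116) (nat_lit 549755846656) (.ev (nat_lit 148) (nat_lit 537133056) (.ev (nat_lit 212)
 (nat_lit 64) (.ev (nat_lit 256) (nat_lit 4503601779048960) .dd))))))) (.ch (nat_lit 22) (.ev (nat_lit 52)
 (nat_lit 70379548704832) (.ev (nat_lit 84) (nat_lit 32768) (.ev (nat_lit 116) (nat_lit 4398583386112) (.ev
 (nat_lit 148) (nat_lit 562949953421312) (.ev (nat_lit 180) (nat_lit 1024) (.ev (nat_lit 212) (nat_lit 4194304)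
 (.nd (nat_lit 576) (.br (nat_lit 23) (.br (nat_lit 11) (.br (nat_lit 6) (.ch (nat_lit 2) (.ev (nat_lit 592)
 (nat_lit 4504149385544192) (.ev (nat_lit 605) (nat_lit 16777216) .dd))) (.br (nat_lit 8) (.ch (nat_lit 6) (.ev
 (nat_lit 592) (nat_lit 4504149402321408) .dd)) (.ch (nat_lit 8) (.ev (nat_lit 592) (nat_lit 4504149385544192)
 (.ev (nat_lit 605) (nat_lit 16777216) .dd))))) (.br (nat_lit 12) (.ch (nat_lit 11) (.ev (nat_lit 592) (nat_lit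
 549774688768) (.ev (nat_lit 660) (nat_lit 4503599627370496) (.ev (nat_lit 669) (nat_lit 262144) .dd)))) (.br
 (nat_lit 14) (.ch (nat_lit 12) (.ev (nat_lit 592) (nat_lit 4503599644410368) (.ev (nat_lit 660) (nat_lit
 2097152) (.ev (nat_lit 669) (nat_lit 549755813888) .dd)))) (.ch (nat_lit 14) (.ev (nat_lit 592) (nat_lit
 4503599646507520) (.ev (nat_lit 605) (nat_lit 549755813888) .dd)))))) (.br (nat_lit 31) (.br (nat_lit 25) (.ch
 (nat_lit 23) (.ev (nat_lit 592) (nat_lit 4504149383447040) (.ev (nat_lit 660) (nat_lit 2097152) (.ev (nat_lit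
 669) (nat_lit 16777216) .dd)))) (.br (nat_lit 30) (.ch (nat_lit 25) (.ev (nat_lit 592) (nat_lit
 4504149402321408) .dd)) (.ch (nat_lit 30) (.ev (nat_lit 592) (nat_lit 4504149385544192) (.ev (nat_lit 605)
 (nat_lit 16777216) .dd))))) (.br (nat_lit 38) (.br (nat_lit 33) (.ch (nat_lit 31) (.ev (nat_lit 592) (nat_lit
 4504149385544192) (.ev (nat_lit 605) (nat_lit 16777216) .dd))) (.ch (nat_lit 33) (.ev (nat_lit 592) (nat_lit
 4503599646507520) (.ev (nat_lit 605) (nat_lit 549755813888) .dd)))) (.br (nat_lit 39) (.ch (nat_lit 38) (.ev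
 (nat_lit 592) (nat_lit 549774950912) (.ev (nat_lit 605) (nat_lit 4503599627370496) .dd))) (.ch (nat_lit 39)
 (.ev (nat_lit 592) (nat_lit 4503599646244864) (.ev (nat_lit 704) (nat_lit 262656) (.ev (nat_lit 717) (nat_lit
 549755813888) .dd)))))))))))))))))))) (.br (nat_lit 33) (.br (nat_lit 28) (.br (nat_lit 26) (.ch (nat_lit 25)
 (.ev (nat_lit 52) (nat_lit 562950561599552) (.ev (nat_lit 84) (nat_lit 74766807498752) (.ev (nat_lit 116)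
 (nat_lit 262144) (.ev (nat_lit 148) (nat_lit 512) (.ev (nat_lit 180) (nat_lit 4503599627370496) (.nd (nat_lit
 576) (.br (nat_lit 24) (.br (nat_lit 14) (.br (nat_lit 7) (.ch (nat_lit 1) (.ev (nat_lit 592) (nat_lit
 560493232128) (.ev (nat_lit 688) (nat_lit 2097152) (.ev (nat_lit 701) (nat_lit 1024) .dd)))) (.br (nat_lit 11)
 (.ch (nat_lit 7) (.ev (nat_lit 592) (nat_lit 558347846656) (.ev (nat_lit 605) (nat_lit 2147483648) .dd))) (.ch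
 (nat_lit 11) (.ev (nat_lit 592) (nat_lit 560493232128) (.ev (nat_lit 660) (nat_lit 2097152) (.ev (nat_lit 669)
 (nat_lit 1024) .dd)))))) (.br (nat_lit 18) (.ch (nat_lit 14) (.ev (nat_lit 592) (nat_lit 551905395712) (.ev
 (nat_lit 605) (nat_lit 8589934592) .dd))) (.br (nat_lit 19) (.ch (nat_lit 18) (.ev (nat_lit 592) (nat_lit
 560495330304) .dd)) (.ch (nat_lit 19) (.ev (nat_lit 592) (nat_lit 551905395712) (.ev (nat_lit 605) (nat_lit
 8589934592) .dd)))))) (.br (nat_lit 31) (.br (nat_lit 25) (.ch (nat_lit 24) (.ev (nat_lit 592) (nat_lit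
 560493233152) (.ev (nat_lit 605) (nat_lit 2097152) .dd))) (.br (nat_lit 27) (.ch (nat_lit 25) (.ev (nat_lit
 592) (nat_lit 2147483648) (.ev (nat_lit 660) (nat_lit 1024) (.ev (nat_lit 720) (nat_lit 8589934592) (.fin
 (nat_lit 576456904017396268)))))) (.ch (nat_lit 27) (.ev (nat_lit 592) (nat_lit 558347845632) (.ev (nat_lit
 672) (nat_lit 2147483648) (.ev (nat_lit 685) (nat_lit 1024) .dd)))))) (.br (nat_lit 39) (.br (nat_lit 33) (.ch
 (nat_lit 31) (.ev (nat_lit 592) (nat_lit 551905394688) (.ev (nat_lit 660) (nat_lit 8589934592) (.ev (nat_lit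
 669) (nat_lit 1024) .dd)))) (.ch (nat_lit 33) (.ev (nat_lit 592) (nat_lit 551905395712) (.ev (nat_lit 605)
 (nat_lit 8589934592) .dd)))) (.br (nat_lit 40) (.ch (nat_lit 39) (.ev (nat_lit 592) (nat_lit 560495330304)
 .dd)) (.ch (nat_lit 40) (.ev (nat_lit 592) (nat_lit 558347846656) (.ev (nat_lit 605) (nat_lit 2147483648)
 .dd)))))))))))))) (.br (nat_lit 27) (.ch (nat_lit 26) (.ev (nat_lit 52) (nat_lit 5071506512023552) (.ev
 (nat_lit 116) (nat_lit 17072128) (.ev (nat_lit 148) (nat_lit 67109440) (.ev (nat_lit 244) (nat_lit 2147483648)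
 (.nd (nat_lit 576) (.br (nat_lit 25) (.br (nat_lit 14) (.br (nat_lit 8) (.ch (nat_lit 1) (.ev (nat_lit 592)
 (nat_lit 70368748371968) (.ev (nat_lit 605) (nat_lit 1024) .dd))) (.br (nat_lit 13) (.ch (nat_lit 8) (.ev
 (nat_lit 592) (nat_lit 4195328) (.ev (nat_lit 605) (nat_lit 70368744177664) .dd))) (.ch (nat_lit 13) (.ev
 (nat_lit 592) (nat_lit 70368744178688) (.ev (nat_lit 605) (nat_lit 4194304) .dd))))) (.br (nat_lit 19) (.br
 (nat_lit 18) (.ch (nat_lit 14) (.ev (nat_lit 592) (nat_lit 4195328) (.ev (nat_lit 605) (nat_lit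
 70368744177664) .dd))) (.ch (nat_lit 18) (.ev (nat_lit 592) (nat_lit 70368748372992) .dd))) (.br (nat_lit 23)
 (.ch (nat_lit 19) (.ev (nat_lit 592) (nat_lit 70368748372992) .dd)) (.ch (nat_lit 23) (.ev (nat_lit 592)
 (nat_lit 4195328) (.ev (nat_lit 605) (nat_lit 70368744177664) .dd)))))) (.br (nat_lit 33) (.br (nat_lit 27)
 (.ch (nat_lit 25) (.ev (nat_lit 592) (nat_lit 4194304) (.ev (nat_lit 660) (nat_lit 70368744177664) (.ev
 (nat_lit 669) (nat_lit 1024) .dd)))) (.br (nat_lit 30) (.ch (nat_lit 27) (.ev (nat_lit 592) (nat_lit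
 70368748372992) .dd)) (.ch (nat_lit 30) (.ev (nat_lit 592) (nat_lit 1024) (.ev (nat_lit 688) (nat_lit
 70368744177664) (.ev (nat_lit 701) (nat_lit 4194304) .dd)))))) (.br (nat_lit 38) (.br (nat_lit 36) (.ch
 (nat_lit 33) (.ev (nat_lit 592) (nat_lit 70368748372992) .dd)) (.ch (nat_lit 36) (.ev (nat_lit 592) (nat_lit
 70368744178688) (.ev (nat_lit 605) (nat_lit 4194304) .dd)))) (.br (nat_lit 39) (.ch (nat_lit 38) (.ev (nat_lit
 592) (nat_lit 4195328) (.ev (nat_lit 605) (nat_lit 70368744177664) .dd))) (.ch (nat_lit 39) (.ev (nat_lit 592)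
 (nat_lit 70368748371968) (.ev (nat_lit 605) (nat_lit 1024) .dd))))))))))))) (.ch (nat_lit 27) (.ev (nat_lit
 52) (nat_lit 4407257207808) (.ev (nat_lit 84) (nat_lit 2147516928) (.ev (nat_lit 116) (nat_lit 70368744177664)
 (.ev (nat_lit 180) (nat_lit 562949953421312) (.nd (nat_lit 576) (.br (nat_lit 23) (.br (nat_lit 10) (.br
 (nat_lit 2) (.ch (nat_lit 1) (.ev (nat_lit 592) (nat_lit 4504149389738048) .dd)) (.br (nat_lit 7) (.ch
 (nat_lit 2) (.ev (nat_lit 592) (nat_lit 549762367552) (.ev (nat_lit 605) (nat_lit 4503599627370496) .dd)))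
 (.ch (nat_lit 7) (.ev (nat_lit 592) (nat_lit 4504149385543744) (.ev (nat_lit 605) (nat_lit 4194304) .dd)))))
 (.br (nat_lit 14) (.br (nat_lit 13) (.ch (nat_lit 10) (.ev (nat_lit 592) (nat_lit 4504149387640896) (.ev
 (nat_lit 605) (nat_lit 2097152) .dd))) (.ch (nat_lit 13) (.ev (nat_lit 592) (nat_lit 549762105408) (.ev
 (nat_lit 608) (nat_lit 262144) (.ev (nat_lit 621) (nat_lit 4503599627370496) .dd))))) (.br (nat_lit 19) (.ch
 (nat_lit 14) (.ev (nat_lit 592) (nat_lit 4504149389738048) .dd)) (.ch (nat_lit 19) (.ev (nat_lit 592) (nat_lit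
 4504149387640896) (.ev (nat_lit 605) (nat_lit 2097152) .dd)))))) (.br (nat_lit 31) (.br (nat_lit 24) (.ch
 (nat_lit 23) (.ev (nat_lit 592) (nat_lit 4504149389738048) .dd)) (.br (nat_lit 30) (.ch (nat_lit 24) (.ev
 (nat_lit 592) (nat_lit 4504149389738048) .dd)) (.ch (nat_lit 30) (.ev (nat_lit 592) (nat_lit 4503599633661952)
 (.ev (nat_lit 660) (nat_lit 549755813888) (.ev (nat_lit 736) (nat_lit 64) (.ev (nat_lit 749) (nat_lit 262144)
 .dd))))))) (.br (nat_lit 36) (.br (nat_lit 33) (.ch (nat_lit 31) (.ev (nat_lit 592) (nat_lit 4504149383446592)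
 (.ev (nat_lit 660) (nat_lit 2097152) (.ev (nat_lit 669) (nat_lit 4194304) .dd)))) (.ch (nat_lit 33) (.ev
 (nat_lit 592) (nat_lit 4504149389475904) (.ev (nat_lit 605) (nat_lit 262144) .dd)))) (.br (nat_lit 39) (.ch
 (nat_lit 36) (.ev (nat_lit 592) (nat_lit 549757911104) (.ev (nat_lit 660) (nat_lit 262144) (.ev (nat_lit 672)
 (nat_lit 4194304) (.ev (nat_lit 685) (nat_lit 4503599627370496) .dd))))) (.ch (nat_lit 39) (.ev (nat_lit 592)
 (nat_lit 4503599631564864) (.ev (nat_lit 660) (nat_lit 549755813888) (.ev (nat_lit 816) (nat_lit 262144) (.ev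
 (nat_lit 829) (nat_lit 2097152) .dd))))))))))))))))) (.br (nat_lit 31) (.br (nat_lit 29) (.ch (nat_lit 28)
 (.ev (nat_lit 52) (nat_lit 4504160120636416) (.ev (nat_lit 84) (nat_lit 70368761221120) (.ev (nat_lit 116)
 (nat_lit 4398046511104) (.ev (nat_lit 148) (nat_lit 2097152) (.ev (nat_lit 180) (nat_lit 536870912) (.nd
 (nat_lit 576) (.br (nat_lit 23) (.br (nat_lit 9) (.br (nat_lit 2) (.ch (nat_lit 1) (.ev (nat_lit 592) (nat_lit
 71303744) (.ev (nat_lit 605) (nat_lit 562949953421312) .dd))) (.br (nat_lit 6) (.ch (nat_lit 2) (.ev (nat_lit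
 592) (nat_lit 562950024725056) .dd)) (.ch (nat_lit 6) (.ev (nat_lit 592) (nat_lit 71303744) (.ev (nat_lit 605)
 (nat_lit 562949953421312) .dd))))) (.br (nat_lit 13) (.ch (nat_lit 9) (.ev (nat_lit 592) (nat_lit
 562949957615680) (.ev (nat_lit 660) (nat_lit 512) (.ev (nat_lit 669) (nat_lit 67108864) .dd)))) (.br (nat_lit
 19) (.ch (nat_lit 13) (.ev (nat_lit 592) (nat_lit 562950020530752) (.ev (nat_lit 605) (nat_lit 4194304) .dd)))
 (.ch (nat_lit 19) (.ev (nat_lit 592) (nat_lit 562949957615680) (.ev (nat_lit 688) (nat_lit 512) (.ev (nat_lit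
 701) (nat_lit 67108864) .dd))))))) (.br (nat_lit 32) (.br (nat_lit 24) (.ch (nat_lit 23) (.ev (nat_lit 592)
 (nat_lit 562950020530752) (.ev (nat_lit 605) (nat_lit 4194304) .dd))) (.br (nat_lit 30) (.ch (nat_lit 24) (.ev
 (nat_lit 592) (nat_lit 562950024725056) .dd)) (.ch (nat_lit 30) (.ev (nat_lit 592) (nat_lit 71303744) (.ev
 (nat_lit 605) (nat_lit 562949953421312) .dd))))) (.br (nat_lit 38) (.br (nat_lit 36) (.ch (nat_lit 32) (.ev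
 (nat_lit 592) (nat_lit 4194880) (.ev (nat_lit 660) (nat_lit 562949953421312) (.ev (nat_lit 669) (nat_lit
 67108864) .dd)))) (.ch (nat_lit 36) (.ev (nat_lit 592) (nat_lit 562949953421888) (.ev (nat_lit 672) (nat_lit
 4194304) (.ev (nat_lit 685) (nat_lit 67108864) .dd))))) (.br (nat_lit 39) (.ch (nat_lit 38) (.ev (nat_lit 592)
 (nat_lit 4194304) (.ev (nat_lit 660) (nat_lit 67108864) (.ev (nat_lit 720) (nat_lit 562949953421312) (.fin
 (nat_lit 576456904011104812)))))) (.ch (nat_lit 39) (.ev (nat_lit 592) (nat_lit 562950024724544) (.ev (nat_lit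
 605) (nat_lit 512) .dd)))))))))))))) (.ch (nat_lit 29) (.ev (nat_lit 52) (nat_lit 4503602383029248) (.ev
 (nat_lit 148) (nat_lit 633327306408448) (.nd (nat_lit 576) (.br (nat_lit 10) (.br (nat_lit 6) (.br (nat_lit 2)
 (.ch (nat_lit 1) (.ev (nat_lit 592) (nat_lit 4947802361920) (.ev (nat_lit 605) (nat_lit 262144) .dd))) (.ch
 (nat_lit 2) (.ev (nat_lit 592) (nat_lit 4947802357824) (.ev (nat_lit 660) (nat_lit 4096) (.ev (nat_lit 669)
 (nat_lit 262144) .dd))))) (.br (nat_lit 7) (.ch (nat_lit 6) (.ev (nat_lit 592) (nat_lit 4947802624064) .dd))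
 (.br (nat_lit 8) (.ch (nat_lit 7) (.ev (nat_lit 592) (nat_lit 4947802624064) .dd)) (.ch (nat_lit 8) (.ev
 (nat_lit 592) (nat_lit 4947802361856) (.ev (nat_lit 848) (nat_lit 262208) .dd)))))) (.br (nat_lit 14) (.br
 (nat_lit 12) (.ch (nat_lit 10) (.ev (nat_lit 592) (nat_lit 4398046773248) (.ev (nat_lit 864) (nat_lit
 549755813952) (.ev (nat_lit 880) (nat_lit 36864) .dd)))) (.br (nat_lit 13) (.ch (nat_lit 12) (.ev (nat_lit
 592) (nat_lit 299072) (.ev (nat_lit 848) (nat_lit 4947802324992) .dd))) (.ch (nat_lit 13) (.ev (nat_lit 592)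
 (nat_lit 4947802624064) .dd)))) (.br (nat_lit 18) (.ch (nat_lit 14) (.ev (nat_lit 592) (nat_lit 4947802624064)
 .dd)) (.br (nat_lit 19) (.ch (nat_lit 18) (.ev (nat_lit 592) (nat_lit 549756080192) (.ev (nat_lit 660)
 (nat_lit 32768) (.ev (nat_lit 669) (nat_lit 4398046511104) .dd)))) (.ch (nat_lit 19) (.ev (nat_lit 592)
 (nat_lit 549756112960) (.ev (nat_lit 605) (nat_lit 4398046511104) .dd)))))))))))) (.br (nat_lit 32) (.ch
 (nat_lit 31) (.ev (nat_lit 52) (nat_lit 70370979775040) (.ev (nat_lit 84) (nat_lit 536870912) (.ev (nat_lit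
 128) (nat_lit 5071505975415808) .dd)))) (.ch (nat_lit 32) (.ev (nat_lit 52) (nat_lit 4508550118245376) (.ev
 (nat_lit 84) (nat_lit 70368744439808) (.ev (nat_lit 116) (nat_lit 69206016) (.ev (nat_lit 180) (nat_lit 4096)
 (.ev (nat_lit 244) (nat_lit 562949953421312) (.nd (nat_lit 576) (.br (nat_lit 18) (.br (nat_lit 10) (.br
 (nat_lit 2) (.ch (nat_lit 1) (.ev (nat_lit 592) (nat_lit 8606712384) (.ev (nat_lit 605) (nat_lit 32768) .dd)))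
 (.br (nat_lit 7) (.ch (nat_lit 2) (.ev (nat_lit 592) (nat_lit 8589935168) (.ev (nat_lit 672) (nat_lit
 16777216) (.ev (nat_lit 685) (nat_lit 32768) .dd)))) (.ch (nat_lit 7) (.ev (nat_lit 592) (nat_lit 8589967936)
 (.ev (nat_lit 605) (nat_lit 16777216) .dd))))) (.br (nat_lit 12) (.br (nat_lit 11) (.ch (nat_lit 10) (.ev
 (nat_lit 592) (nat_lit 8606712384) (.ev (nat_lit 605) (nat_lit 32768) .dd))) (.ch (nat_lit 11) (.ev (nat_lit
 592) (nat_lit 8606745152) .dd))) (.br (nat_lit 13) (.ch (nat_lit 12) (.ev (nat_lit 592) (nat_lit 33344) (.ev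
 (nat_lit 660) (nat_lit 16777216) (.ev (nat_lit 669) (nat_lit 8589934592) .dd)))) (.ch (nat_lit 13) (.ev
 (nat_lit 592) (nat_lit 33344) (.ev (nat_lit 660) (nat_lit 16777216) (.ev (nat_lit 669) (nat_lit 8589934592)
 .dd))))))) (.br (nat_lit 32) (.br (nat_lit 30) (.ch (nat_lit 18) (.ev (nat_lit 592) (nat_lit 8606745152) .dd))
 (.br (nat_lit 31) (.ch (nat_lit 30) (.ev (nat_lit 592) (nat_lit 33344) (.ev (nat_lit 660) (nat_lit 8589934592)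
 (.ev (nat_lit 669) (nat_lit 16777216) .dd)))) (.ch (nat_lit 31) (.ev (nat_lit 592) (nat_lit 8589967936) (.ev
 (nat_lit 605) (nat_lit 16777216) .dd))))) (.br (nat_lit 38) (.br (nat_lit 33) (.ch (nat_lit 32) (.ev (nat_lit
 592) (nat_lit 8606712384) (.ev (nat_lit 605) (nat_lit 32768) .dd))) (.ch (nat_lit 33) (.ev (nat_lit 592)
 (nat_lit 16810560) (.ev (nat_lit 605) (nat_lit 8589934592) .dd)))) (.br (nat_lit 39) (.ch (nat_lit 38) (.ev
 (nat_lit 592) (nat_lit 8606744576) (.fin (nat_lit 576456904011104812)))) (.ch (nat_lit 39) (.ev (nat_lit 592)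
 (nat_lit 8606745152) .dd)))))))))))))))) (.br (nat_lit 42) (.br (nat_lit 36) (.br (nat_lit 35) (.ch (nat_lit
 33) (.ev (nat_lit 52) (nat_lit 11358471232) (.ev (nat_lit 84) (nat_lit 4194304) (.ev (nat_lit 128) (nat_lit
 5141866129396224) .dd)))) (.ch (nat_lit 35) (.ev (nat_lit 52) (nat_lit 563500262888000) (.ev (nat_lit 84)
 (nat_lit 4507997673882624) (.ev (nat_lit 116) (nat_lit 4194304) (.ev (nat_lit 160) (nat_lit 70379551096832)
 .dd)))))) (.br (nat_lit 38) (.ch (nat_lit 36) (.ev (nat_lit 52) (nat_lit 74777614356992) (.ev (nat_lit 84)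
 (nat_lit 4195328) (.ev (nat_lit 116) (nat_lit 4503599627370496) (.ev (nat_lit 192) (nat_lit 563500246138944)
 .dd))))) (.ch (nat_lit 38) (.ev (nat_lit 52) (nat_lit 4508558706344448) (.ev (nat_lit 84) (nat_lit
 70368760954944) (.ev (nat_lit 116) (nat_lit 33792) (.nd (nat_lit 576) (.br (nat_lit 12) (.br (nat_lit 8) (.br
 (nat_lit 6) (.ch (nat_lit 1) (.ev (nat_lit 592) (nat_lit 71303168) (.ev (nat_lit 672) (nat_lit 4096) (.ev
 (nat_lit 685) (nat_lit 562949953421312) .dd)))) (.br (nat_lit 7) (.ch (nat_lit 6) (.ev (nat_lit 592) (nat_lit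
 562950024728576) .dd)) (.ch (nat_lit 7) (.ev (nat_lit 592) (nat_lit 71307264) (.ev (nat_lit 605) (nat_lit
 562949953421312) .dd))))) (.br (nat_lit 9) (.ch (nat_lit 8) (.ev (nat_lit 592) (nat_lit 562950024728576) .dd))
 (.br (nat_lit 11) (.ch (nat_lit 9) (.ev (nat_lit 592) (nat_lit 67112960) (.ev (nat_lit 660) (nat_lit
 562949953421312) (.ev (nat_lit 669) (nat_lit 4194304) .dd)))) (.ch (nat_lit 11) (.ev (nat_lit 592) (nat_lit
 562950024728576) .dd))))) (.br (nat_lit 31) (.br (nat_lit 19) (.ch (nat_lit 12) (.ev (nat_lit 592) (nat_lit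
 562950024728576) .dd)) (.br (nat_lit 24) (.ch (nat_lit 19) (.ev (nat_lit 592) (nat_lit 562949957619712) (.ev
 (nat_lit 605) (nat_lit 67108864) .dd))) (.ch (nat_lit 24) (.ev (nat_lit 592) (nat_lit 562949957619712) (.ev
 (nat_lit 605) (nat_lit 67108864) .dd))))) (.br (nat_lit 33) (.br (nat_lit 32) (.ch (nat_lit 31) (.ev (nat_lit
 592) (nat_lit 562950020534272) (.ev (nat_lit 605) (nat_lit 4194304) .dd))) (.ch (nat_lit 32) (.ev (nat_lit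
 592) (nat_lit 562949957619712) (.ev (nat_lit 605) (nat_lit 67108864) .dd)))) (.br (nat_lit 38) (.ch (nat_lit
 33) (.ev (nat_lit 592) (nat_lit 71307264) (.ev (nat_lit 605) (nat_lit 562949953421312) .dd))) (.ch (nat_lit
 38) (.ev (nat_lit 592) (nat_lit 71307264) (.ev (nat_lit 605) (nat_lit 562949953421312) .dd)))))))))))))) (.br
 (nat_lit 45) (.br (nat_lit 44) (.ch (nat_lit 42) (.ev (nat_lit 52) (nat_lit 74777532597312) (.ev (nat_lit 116)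
 (nat_lit 536871424) (.ev (nat_lit 148) (nat_lit 549822922752) (.ev (nat_lit 224) (nat_lit 5066549599670272)
 .dd))))) (.ch (nat_lit 44) (.ev (nat_lit 52) (nat_lit 5141866198602752) (.ev (nat_lit 84) (nat_lit 2147483648)
 (.ev (nat_lit 128) (nat_lit 9145975360) .dd))))) (.br (nat_lit 46) (.ch (nat_lit 45) (.ev (nat_lit 52)
 (nat_lit 5066558707892800) (.ev (nat_lit 116) (nat_lit 74766790692864) (.ev (nat_lit 148) (nat_lit
 549757912064) (.ev (nat_lit 244) (nat_lit 4194304) (.nd (nat_lit 576) (.br (nat_lit 25) (.br (nat_lit 7) (.br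
 (nat_lit 2) (.ch (nat_lit 1) (.ev (nat_lit 592) (nat_lit 2231369728) .dd)) (.br (nat_lit 6) (.ch (nat_lit 2)
 (.ev (nat_lit 592) (nat_lit 2231369728) .dd)) (.ch (nat_lit 6) (.ev (nat_lit 592) (nat_lit 2214592512) (.ev
 (nat_lit 605) (nat_lit 16777216) .dd))))) (.br (nat_lit 19) (.br (nat_lit 12) (.ch (nat_lit 7) (.ev (nat_lit
 592) (nat_lit 83886080) (.ev (nat_lit 605) (nat_lit 2147483648) .dd))) (.ch (nat_lit 12) (.ev (nat_lit 592)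
 (nat_lit 2214592512) (.ev (nat_lit 605) (nat_lit 16777216) .dd)))) (.br (nat_lit 24) (.ch (nat_lit 19) (.ev
 (nat_lit 592) (nat_lit 2164260864) (.ev (nat_lit 605) (nat_lit 67108864) .dd))) (.ch (nat_lit 24) (.ev
 (nat_lit 592) (nat_lit 2164260864) (.ev (nat_lit 605) (nat_lit 67108864) .dd)))))) (.br (nat_lit 33) (.br
 (nat_lit 27) (.ch (nat_lit 25) (.ev (nat_lit 592) (nat_lit 2214592512) (.ev (nat_lit 605) (nat_lit 16777216)
 .dd))) (.br (nat_lit 30) (.ch (nat_lit 27) (.ev (nat_lit 592) (nat_lit 83886080) (.ev (nat_lit 605) (nat_lit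
 2147483648) .dd))) (.ch (nat_lit 30) (.ev (nat_lit 592) (nat_lit 2231369728) .dd)))) (.br (nat_lit 38) (.br
 (nat_lit 36) (.ch (nat_lit 33) (.ev (nat_lit 592) (nat_lit 67108864) (.ev (nat_lit 688) (nat_lit 16777216)
 (.ev (nat_lit 701) (nat_lit 2147483648) .dd)))) (.ch (nat_lit 36) (.ev (nat_lit 592) (nat_lit 2231369728)
 .dd))) (.br (nat_lit 40) (.ch (nat_lit 38) (.ev (nat_lit 592) (nat_lit 2147483648) (.ev (nat_lit 660) (nat_lit
 16777216) (.ev (nat_lit 669) (nat_lit 67108864) .dd)))) (.ch (nat_lit 40) (.ev (nat_lit 592) (nat_lit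
 2214592512) (.ev (nat_lit 605) (nat_lit 16777216) .dd))))))))))))) (.ch (nat_lit 46) (.ev (nat_lit 52)
 (nat_lit 4503601781179968) (.ev (nat_lit 84) (nat_lit 4947802587136) (.ev (nat_lit 116) (nat_lit 553648128)
 (.ev (nat_lit 148) (nat_lit 8589934592) (.nd (nat_lit 576) (.br (nat_lit 13) (.br (nat_lit 6) (.br (nat_lit 2)
 (.ch (nat_lit 1) (.ev (nat_lit 592) (nat_lit 633318764707840) (.ev (nat_lit 605) (nat_lit 4096) .dd))) (.ch
 (nat_lit 2) (.ev (nat_lit 592) (nat_lit 633318697598976) (.ev (nat_lit 804) (nat_lit 4096) (.ev (nat_lit 813)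
 (nat_lit 67108864) .dd))))) (.br (nat_lit 9) (.ch (nat_lit 6) (.ev (nat_lit 592) (nat_lit 70368811290624) (.ev
 (nat_lit 605) (nat_lit 562949953421312) .dd))) (.br (nat_lit 12) (.ch (nat_lit 9) (.ev (nat_lit 592) (nat_lit
 70368811290624) (.ev (nat_lit 605) (nat_lit 562949953421312) .dd))) (.ch (nat_lit 12) (.ev (nat_lit 592)
 (nat_lit 562950020534272) (.ev (nat_lit 605) (nat_lit 70368744177664) .dd)))))) (.br (nat_lit 31) (.br
 (nat_lit 24) (.ch (nat_lit 13) (.ev (nat_lit 592) (nat_lit 633318764711936) .dd)) (.br (nat_lit 27) (.ch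
 (nat_lit 24) (.ev (nat_lit 592) (nat_lit 633318764711936) .dd)) (.ch (nat_lit 27) (.ev (nat_lit 592) (nat_lit
 633318764711936) .dd)))) (.br (nat_lit 32) (.ch (nat_lit 31) (.ev (nat_lit 592) (nat_lit 70368811290624) (.ev
 (nat_lit 605) (nat_lit 562949953421312) .dd))) (.br (nat_lit 40) (.ch (nat_lit 32) (.ev (nat_lit 688) (nat_lit
 70368744177664) (.ev (nat_lit 804) (nat_lit 562950020530176) (.ev (nat_lit 813) (nat_lit 4096) .dd)))) (.ch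
 (nat_lit 40) (.ev (nat_lit 592) (nat_lit 633318697603072) (.ev (nat_lit 605) (nat_lit 67108864)
 .dd))))))))))))))))))))

/-- Subtrie. -/
noncomputable def T10 : Tr := (.ev (nat_lit 20) (nat_lit 5499484773580896) (.nd (nat_lit 33) (.br (nat_lit 25)
 (.br (nat_lit 14) (.br (nat_lit 5) (.br (nat_lit 2) (.ch (nat_lit 1) (.ev (nat_lit 52) (nat_lit
 21990249732096) (.ev (nat_lit 116) (nat_lit 146028953600) (.ev (nat_lit 180) (nat_lit 16) (.ev (nat_lit 212)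
 (nat_lit 2199023255552) (.ev (nat_lit 244) (nat_lit 70368744177664) (.ev (nat_lit 480) (nat_lit 512) (.nd
 (nat_lit 576) (.br (nat_lit 21) (.br (nat_lit 16) (.br (nat_lit 8) (.ch (nat_lit 3) (.ev (nat_lit 592)
 (nat_lit 1125968626320384) (.ev (nat_lit 605) (nat_lit 536870912) .dd))) (.ch (nat_lit 8) (.ev (nat_lit 592)
 (nat_lit 1125900443713536) (.ev (nat_lit 688) (nat_lit 1024) (.ev (nat_lit 701) (nat_lit 68719476736) .dd)))))
 (.br (nat_lit 17) (.ch (nat_lit 16) (.ev (nat_lit 592) (nat_lit 1125969163190272) (.ev (nat_lit 605) (nat_lit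
 1024) .dd))) (.br (nat_lit 19) (.ch (nat_lit 17) (.ev (nat_lit 592) (nat_lit 536871936) (.ev (nat_lit 660)
 (nat_lit 68719476736) (.ev (nat_lit 669) (nat_lit 1125899906842624) .dd)))) (.ch (nat_lit 19) (.ev (nat_lit
 592) (nat_lit 1125969163191296) .dd))))) (.br (nat_lit 29) (.br (nat_lit 25) (.ch (nat_lit 21) (.ev (nat_lit
 592) (nat_lit 69256347648) (.ev (nat_lit 880) (nat_lit 1125899906842624) (.ev (nat_lit 893) (nat_lit 1024)
 .dd)))) (.br (nat_lit 28) (.ch (nat_lit 25) (.ev (nat_lit 592) (nat_lit 1125969163191296) .dd)) (.ch (nat_lit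
 28) (.ev (nat_lit 592) (nat_lit 1125899906843648) (.ev (nat_lit 704) (nat_lit 69256347648) .dd))))) (.br
 (nat_lit 32) (.ch (nat_lit 29) (.ev (nat_lit 592) (nat_lit 1125969163191296) .dd)) (.br (nat_lit 34) (.ch
 (nat_lit 32) (.ev (nat_lit 592) (nat_lit 1125968626320384) (.ev (nat_lit 605) (nat_lit 536870912) .dd))) (.ch
 (nat_lit 34) (.ev (nat_lit 592) (nat_lit 1125969163191296) .dd)))))))))))))) (.br (nat_lit 3) (.ch (nat_lit 2)
 (.ev (nat_lit 52) (nat_lit 1196414696948224) (.ev (nat_lit 84) (nat_lit 2199023255568) (.ev (nat_lit 212)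
 (nat_lit 4398046642176) (.nd (nat_lit 576) (.br (nat_lit 25) (.br (nat_lit 16) (.br (nat_lit 13) (.ch (nat_lit
 4) (.ev (nat_lit 592) (nat_lit 17592722985984) (.ev (nat_lit 660) (nat_lit 2048) (.ev (nat_lit 669) (nat_lit
 68719476736) .dd)))) (.br (nat_lit 15) (.ch (nat_lit 13) (.ev (nat_lit 592) (nat_lit 17660905528320) (.ev
 (nat_lit 720) (nat_lit 536870912) (.ev (nat_lit 733) (nat_lit 65536) .dd)))) (.ch (nat_lit 15) (.ev (nat_lit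
 592) (nat_lit 17661442399232) (.ev (nat_lit 605) (nat_lit 65536) .dd))))) (.br (nat_lit 19) (.ch (nat_lit 16)
 (.ev (nat_lit 592) (nat_lit 17661442464768) .dd)) (.br (nat_lit 21) (.ch (nat_lit 19) (.ev (nat_lit 592)
 (nat_lit 17661442464768) .dd)) (.ch (nat_lit 21) (.ev (nat_lit 592) (nat_lit 17661442464768) .dd))))) (.br
 (nat_lit 31) (.br (nat_lit 29) (.ch (nat_lit 25) (.ev (nat_lit 592) (nat_lit 17661442464768) .dd)) (.br
 (nat_lit 30) (.ch (nat_lit 29) (.ev (nat_lit 592) (nat_lit 69256354816) (.ev (nat_lit 672) (nat_lit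
 17592186044416) (.ev (nat_lit 685) (nat_lit 65536) .dd)))) (.ch (nat_lit 30) (.ev (nat_lit 592) (nat_lit
 17661442458624) (.ev (nat_lit 608) (nat_lit 2048) (.ev (nat_lit 621) (nat_lit 4096) .dd)))))) (.br (nat_lit
 35) (.br (nat_lit 32) (.ch (nat_lit 31) (.ev (nat_lit 592) (nat_lit 536943616) (.ev (nat_lit 660) (nat_lit
 68719476736) (.ev (nat_lit 669) (nat_lit 17592186044416) .dd)))) (.ch (nat_lit 32) (.ev (nat_lit 592) (nat_lit
 69256419328) (.ev (nat_lit 608) (nat_lit 17592186044416) (.ev (nat_lit 621) (nat_lit 1024) .dd))))) (.br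
 (nat_lit 42) (.ch (nat_lit 35) (.ev (nat_lit 592) (nat_lit 17661442464768) .dd)) (.ch (nat_lit 42) (.ev
 (nat_lit 592) (nat_lit 536876032) (.ev (nat_lit 660) (nat_lit 68719476736) (.ev (nat_lit 804) (nat_lit 65536)
 (.fin (nat_lit 576461302078587464))))))))))))))) (.ch (nat_lit 3) (.ev (nat_lit 52) (nat_lit 1125900460563472)
 (.ev (nat_lit 116) (nat_lit 2199023387136) (.ev (nat_lit 148) (nat_lit 17592186044416) (.ev (nat_lit 212)
 (nat_lit 8589934592) (.nd (nat_lit 576) (.br (nat_lit 28) (.br (nat_lit 13) (.br (nat_lit 5) (.ch (nat_lit 3)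
 (.ev (nat_lit 592) (nat_lit 4604205203456) (.ev (nat_lit 605) (nat_lit 70368744177664) .dd))) (.br (nat_lit 8)
 (.ch (nat_lit 5) (.ev (nat_lit 592) (nat_lit 70437463916544) (.fin (nat_lit 576451406441431618)))) (.ch
 (nat_lit 8) (.ev (nat_lit 592) (nat_lit 74904229642240) (.ev (nat_lit 660) (nat_lit 262144) (.ev (nat_lit 669)
 (nat_lit 68719476736) .dd)))))) (.br (nat_lit 18) (.br (nat_lit 17) (.ch (nat_lit 13) (.ev (nat_lit 592)
 (nat_lit 70574902870016) (.ev (nat_lit 605) (nat_lit 4398046511104) .dd))) (.ch (nat_lit 17) (.ev (nat_lit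
 592) (nat_lit 74972949381120) .dd))) (.br (nat_lit 21) (.ch (nat_lit 18) (.ev (nat_lit 592) (nat_lit
 70574902870016) (.ev (nat_lit 605) (nat_lit 4398046511104) .dd))) (.ch (nat_lit 21) (.ev (nat_lit 592)
 (nat_lit 4466766249984) (.ev (nat_lit 660) (nat_lit 137438953472) (.ev (nat_lit 669) (nat_lit 70368744177664)
 .dd))))))) (.br (nat_lit 31) (.br (nat_lit 29) (.ch (nat_lit 28) (.ev (nat_lit 592) (nat_lit 206158430208)
 (.ev (nat_lit 660) (nat_lit 74766790688768) (.ev (nat_lit 669) (nat_lit 262144) .dd)))) (.br (nat_lit 30) (.ch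
 (nat_lit 29) (.ev (nat_lit 592) (nat_lit 4466765987840) (.ev (nat_lit 660) (nat_lit 262144) (.ev (nat_lit 720)
 (nat_lit 70368744177664) (.ev (nat_lit 733) (nat_lit 137438953472) .dd))))) (.ch (nat_lit 30) (.ev (nat_lit
 592) (nat_lit 74972949118976) (.ev (nat_lit 605) (nat_lit 262144) .dd))))) (.br (nat_lit 35) (.br (nat_lit 32)
 (.ch (nat_lit 31) (.ev (nat_lit 592) (nat_lit 4398046511104) (.ev (nat_lit 660) (nat_lit 70437463654400) (.ev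
 (nat_lit 804) (nat_lit 137438953472) (.ev (nat_lit 813) (nat_lit 262144) .dd))))) (.ch (nat_lit 32) (.ev
 (nat_lit 592) (nat_lit 74972949381120) .dd))) (.br (nat_lit 42) (.ch (nat_lit 35) (.ev (nat_lit 592) (nat_lit
 4604205203456) (.ev (nat_lit 605) (nat_lit 70368744177664) .dd))) (.ch (nat_lit 42) (.ev (nat_lit 592)
 (nat_lit 74904229904384) (.ev (nat_lit 605) (nat_lit 68719476736) .dd))))))))))))))) (.br (nat_lit 11) (.br
 (nat_lit 9) (.ch (nat_lit 5) (.ev (nat_lit 52) (nat_lit 17592722987520) (.ev (nat_lit 64) (nat_lit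
 1203080486323216) .dd))) (.ch (nat_lit 9) (.ev (nat_lit 52) (nat_lit 74972966292992) (.ev (nat_lit 116)
 (nat_lit 17592186044432) (.ev (nat_lit 180) (nat_lit 65536) (.nd (nat_lit 576) (.br (nat_lit 25) (.br (nat_lit
 9) (.br (nat_lit 4) (.ch (nat_lit 3) (.ev (nat_lit 592) (nat_lit 1128108056907776) .dd)) (.br (nat_lit 5) (.ch
 (nat_lit 4) (.ev (nat_lit 592) (nat_lit 1128099466973184) (.ev (nat_lit 605) (nat_lit 8589934592) .dd))) (.ch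
 (nat_lit 5) (.ev (nat_lit 592) (nat_lit 1128098930102272) (.ev (nat_lit 660) (nat_lit 536870912) (.ev (nat_lit
 669) (nat_lit 8589934592) .dd)))))) (.br (nat_lit 17) (.br (nat_lit 13) (.ch (nat_lit 9) (.ev (nat_lit 592)
 (nat_lit 1125909033648128) (.ev (nat_lit 660) (nat_lit 4096) (.ev (nat_lit 669) (nat_lit 2199023255552)
 .dd)))) (.ch (nat_lit 13) (.ev (nat_lit 592) (nat_lit 2207613190144) (.ev (nat_lit 660) (nat_lit 536870912)
 (.fin (nat_lit 576464600610325069)))))) (.br (nat_lit 18) (.ch (nat_lit 17) (.ev (nat_lit 592) (nat_lit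
 1125909033652224) (.ev (nat_lit 605) (nat_lit 2199023255552) .dd))) (.ch (nat_lit 18) (.ev (nat_lit 592)
 (nat_lit 1125900443717632) (.ev (nat_lit 660) (nat_lit 8589934592) (.ev (nat_lit 669) (nat_lit 2199023255552)
 .dd))))))) (.br (nat_lit 30) (.br (nat_lit 28) (.ch (nat_lit 25) (.ev (nat_lit 592) (nat_lit 1125909033648128)
 (.ev (nat_lit 768) (nat_lit 2199023255552) (.ev (nat_lit 781) (nat_lit 4096) .dd)))) (.br (nat_lit 29) (.ch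
 (nat_lit 28) (.ev (nat_lit 592) (nat_lit 1125899906846720) (.ev (nat_lit 688) (nat_lit 2199023255552) (.ev
 (nat_lit 804) (nat_lit 536870912) (.ev (nat_lit 813) (nat_lit 8589934592) .dd))))) (.ch (nat_lit 29) (.ev
 (nat_lit 592) (nat_lit 1128108056907776) .dd)))) (.br (nat_lit 35) (.br (nat_lit 34) (.ch (nat_lit 30) (.ev
 (nat_lit 592) (nat_lit 1128099466973184) (.ev (nat_lit 605) (nat_lit 8589934592) .dd))) (.ch (nat_lit 34) (.ev
 (nat_lit 592) (nat_lit 1125900443717632) (.ev (nat_lit 688) (nat_lit 8589934592) (.ev (nat_lit 701) (nat_lit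
 2199023255552) .dd))))) (.br (nat_lit 36) (.ch (nat_lit 35) (.ev (nat_lit 592) (nat_lit 1128108056907776)
 .dd)) (.ch (nat_lit 36) (.ev (nat_lit 592) (nat_lit 1128108056907776) .dd)))))))))))) (.br (nat_lit 12) (.ch
 (nat_lit 11) (.ev (nat_lit 52) (nat_lit 22196928184848) (.ev (nat_lit 84) (nat_lit 4096) (.ev (nat_lit 116)
 (nat_lit 8590067712) (.ev (nat_lit 180) (nat_lit 1024) (.nd (nat_lit 576) (.br (nat_lit 18) (.br (nat_lit 8)
 (.br (nat_lit 4) (.ch (nat_lit 3) (.ev (nat_lit 592) (nat_lit 1198467691053056) .dd)) (.br (nat_lit 7) (.ch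
 (nat_lit 4) (.ev (nat_lit 592) (nat_lit 72567784210432) (.ev (nat_lit 605) (nat_lit 1125899906842624) .dd)))
 (.ch (nat_lit 7) (.ev (nat_lit 592) (nat_lit 72567784210432) (.ev (nat_lit 605) (nat_lit 1125899906842624)
 .dd))))) (.br (nat_lit 9) (.ch (nat_lit 8) (.ev (nat_lit 592) (nat_lit 1196268667797504) (.ev (nat_lit 605)
 (nat_lit 2199023255552) .dd))) (.br (nat_lit 13) (.ch (nat_lit 9) (.ev (nat_lit 592) (nat_lit
 1196268667797504) (.ev (nat_lit 605) (nat_lit 2199023255552) .dd))) (.ch (nat_lit 13) (.ev (nat_lit 592)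
 (nat_lit 1198467691053056) .dd))))) (.br (nat_lit 28) (.br (nat_lit 21) (.ch (nat_lit 18) (.ev (nat_lit 592)
 (nat_lit 1125899923619840) (.ev (nat_lit 660) (nat_lit 2199023255552) (.ev (nat_lit 669) (nat_lit
 70368744177664) .dd)))) (.br (nat_lit 25) (.ch (nat_lit 21) (.ev (nat_lit 592) (nat_lit 1196268651020288) (.ev
 (nat_lit 672) (nat_lit 16777216) (.ev (nat_lit 685) (nat_lit 2199023255552) .dd)))) (.ch (nat_lit 25) (.ev
 (nat_lit 592) (nat_lit 72567784210432) (.ev (nat_lit 605) (nat_lit 1125899906842624) .dd))))) (.br (nat_lit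
 34) (.br (nat_lit 33) (.ch (nat_lit 28) (.ev (nat_lit 592) (nat_lit 1198467691053056) .dd)) (.ch (nat_lit 33)
 (.ev (nat_lit 592) (nat_lit 1198467691053056) .dd))) (.br (nat_lit 42) (.ch (nat_lit 34) (.ev (nat_lit 592)
 (nat_lit 1196268667797504) (.ev (nat_lit 605) (nat_lit 2199023255552) .dd))) (.ch (nat_lit 42) (.ev (nat_lit
 592) (nat_lit 1128098946875392) (.ev (nat_lit 605) (nat_lit 70368744177664) .dd))))))))))))) (.ch (nat_lit 12)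
 (.ev (nat_lit 52) (nat_lit 1196406090433552) (.ev (nat_lit 84) (nat_lit 17592186044416) (.ev (nat_lit 128)
 (nat_lit 6674932832768) .dd))))))) (.br (nat_lit 19) (.br (nat_lit 16) (.br (nat_lit 15) (.ch (nat_lit 14)
 (.ev (nat_lit 52) (nat_lit 70446053589504) (.ev (nat_lit 116) (nat_lit 2199576903680) (.ev (nat_lit 148)
 (nat_lit 266240) (.ev (nat_lit 244) (nat_lit 17592186175488) (.nd (nat_lit 576) (.br (nat_lit 17) (.br
 (nat_lit 13) (.br (nat_lit 5) (.ch (nat_lit 3) (.ev (nat_lit 592) (nat_lit 1130435392375824) .dd)) (.br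
 (nat_lit 8) (.ch (nat_lit 5) (.ev (nat_lit 592) (nat_lit 1125899906910224) (.ev (nat_lit 660) (nat_lit
 137438954496) (.ev (nat_lit 669) (nat_lit 4398046511104) .dd)))) (.ch (nat_lit 8) (.ev (nat_lit 592) (nat_lit
 1130435392375824) .dd)))) (.br (nat_lit 15) (.ch (nat_lit 13) (.ev (nat_lit 592) (nat_lit 1130297953355776)
 (.ev (nat_lit 660) (nat_lit 65552) (.ev (nat_lit 672) (nat_lit 1024) (.ev (nat_lit 685) (nat_lit 137438953472)
 .dd))))) (.br (nat_lit 16) (.ch (nat_lit 15) (.ev (nat_lit 592) (nat_lit 4398046577680) (.ev (nat_lit 688)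
 (nat_lit 2048) (.ev (nat_lit 752) (nat_lit 1125899906842624) (.ev (nat_lit 765) (nat_lit 137438953472)
 .dd))))) (.ch (nat_lit 16) (.ev (nat_lit 592) (nat_lit 1130435392310272) (.ev (nat_lit 804) (nat_lit 16) (.ev
 (nat_lit 813) (nat_lit 65536) .dd))))))) (.br (nat_lit 30) (.br (nat_lit 25) (.ch (nat_lit 17) (.ev (nat_lit
 592) (nat_lit 1130435392374800) (.ev (nat_lit 605) (nat_lit 1024) .dd))) (.br (nat_lit 28) (.ch (nat_lit 25)
 (.ev (nat_lit 592) (nat_lit 1130435392375824) .dd)) (.ch (nat_lit 28) (.ev (nat_lit 592) (nat_lit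
 1126037345864720) (.ev (nat_lit 605) (nat_lit 4398046511104) .dd))))) (.br (nat_lit 35) (.br (nat_lit 33) (.ch
 (nat_lit 30) (.ev (nat_lit 592) (nat_lit 1130297953356816) (.ev (nat_lit 804) (nat_lit 137438953472) (.ev
 (nat_lit 813) (nat_lit 65536) .dd)))) (.ch (nat_lit 33) (.ev (nat_lit 592) (nat_lit 1130435392373776) (.ev
 (nat_lit 605) (nat_lit 2048) .dd)))) (.br (nat_lit 42) (.ch (nat_lit 35) (.ev (nat_lit 592) (nat_lit
 1126037345799184) (.ev (nat_lit 804) (nat_lit 65536) (.ev (nat_lit 813) (nat_lit 4398046511104) .dd)))) (.ch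
 (nat_lit 42) (.ev (nat_lit 592) (nat_lit 1126037345864720) (.ev (nat_lit 605) (nat_lit 4398046511104)
 .dd))))))))))))) (.ch (nat_lit 15) (.ev (nat_lit 52) (nat_lit 70574919455744) (.ev (nat_lit 96) (nat_lit
 1150098289854992) .dd)))) (.br (nat_lit 18) (.ch (nat_lit 16) (.ev (nat_lit 52) (nat_lit 2405718949888) (.ev
 (nat_lit 116) (nat_lit 16) (.ev (nat_lit 148) (nat_lit 4398063288320) (.ev (nat_lit 180) (nat_lit
 17592186044416) (.ev (nat_lit 308) (nat_lit 8589934592) (.nd (nat_lit 576) (.br (nat_lit 15) (.br (nat_lit 8)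
 (.br (nat_lit 5) (.ch (nat_lit 4) (.ev (nat_lit 592) (nat_lit 1196268651091968) (.ev (nat_lit 660) (nat_lit
 512) (.ev (nat_lit 669) (nat_lit 1024) .dd)))) (.br (nat_lit 7) (.ch (nat_lit 5) (.ev (nat_lit 592) (nat_lit
 70368744249856) (.ev (nat_lit 660) (nat_lit 1024) (.ev (nat_lit 669) (nat_lit 1125899906842624) .dd)))) (.ch
 (nat_lit 7) (.ev (nat_lit 592) (nat_lit 70368744244736) (.ev (nat_lit 804) (nat_lit 6144) (.ev (nat_lit 813)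
 (nat_lit 1125899906842624) .dd)))))) (.br (nat_lit 9) (.ch (nat_lit 8) (.ev (nat_lit 592) (nat_lit
 1196268651087360) (.ev (nat_lit 804) (nat_lit 2048) (.ev (nat_lit 813) (nat_lit 4096) .dd)))) (.br (nat_lit
 13) (.ch (nat_lit 9) (.ev (nat_lit 592) (nat_lit 1125899906915840) (.ev (nat_lit 605) (nat_lit 70368744177664)
 .dd))) (.ch (nat_lit 13) (.ev (nat_lit 592) (nat_lit 70368744246784) (.fin (nat_lit 576464600610325069)))))))
 (.br (nat_lit 33) (.br (nat_lit 17) (.ch (nat_lit 15) (.ev (nat_lit 592) (nat_lit 70368744250368) (.ev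
 (nat_lit 608) (nat_lit 512) (.ev (nat_lit 621) (nat_lit 1125899906842624) .dd)))) (.br (nat_lit 18) (.ch
 (nat_lit 17) (.ev (nat_lit 592) (nat_lit 1125899906915840) (.ev (nat_lit 605) (nat_lit 70368744177664) .dd)))
 (.ch (nat_lit 18) (.ev (nat_lit 592) (nat_lit 1125899906913792) (.ev (nat_lit 660) (nat_lit 70368744177664)
 (.ev (nat_lit 669) (nat_lit 2048) .dd)))))) (.br (nat_lit 36) (.br (nat_lit 34) (.ch (nat_lit 33) (.ev
 (nat_lit 592) (nat_lit 1196268651091968) (.ev (nat_lit 660) (nat_lit 512) (.ev (nat_lit 669) (nat_lit 1024)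
 .dd)))) (.ch (nat_lit 34) (.ev (nat_lit 592) (nat_lit 1125899906915840) (.ev (nat_lit 605) (nat_lit
 70368744177664) .dd)))) (.br (nat_lit 42) (.ch (nat_lit 36) (.ev (nat_lit 592) (nat_lit 1196268651093504)
 .dd)) (.ch (nat_lit 42) (.ev (nat_lit 592) (nat_lit 1125899906845696) (.ev (nat_lit 660) (nat_lit
 70368744177664) (.ev (nat_lit 672) (nat_lit 66048) (.ev (nat_lit 685) (nat_lit 4096) .dd)))))))))))))))) (.ch
 (nat_lit 18) (.ev (nat_lit 52) (nat_lit 88038256410624) (.ev (nat_lit 64) (nat_lit 1132634952900112) .dd)))))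
 (.br (nat_lit 21) (.br (nat_lit 20) (.ch (nat_lit 19) (.ev (nat_lit 52) (nat_lit 2267759643648) (.ev (nat_lit
 84) (nat_lit 1125899906842624) (.ev (nat_lit 148) (nat_lit 332288) (.ev (nat_lit 276) (nat_lit 137438953472)
 (.nd (nat_lit 576) (.br (nat_lit 21) (.br (nat_lit 9) (.br (nat_lit 5) (.ch (nat_lit 3) (.ev (nat_lit 592)
 (nat_lit 92367566667792) (.ev (nat_lit 605) (nat_lit 536870912) .dd))) (.br (nat_lit 7) (.ch (nat_lit 5) (.ev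
 (nat_lit 592) (nat_lit 21999359361040) (.ev (nat_lit 605) (nat_lit 70368744177664) .dd))) (.ch (nat_lit 7)
 (.ev (nat_lit 592) (nat_lit 87969520156688) (.ev (nat_lit 704) (nat_lit 4398046511104) (.ev (nat_lit 717)
 (nat_lit 536870912) .dd)))))) (.br (nat_lit 16) (.br (nat_lit 15) (.ch (nat_lit 9) (.ev (nat_lit 592) (nat_lit
 4407173316624) (.ev (nat_lit 660) (nat_lit 17592186044416) (.ev (nat_lit 669) (nat_lit 70368744177664) .dd))))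
 (.ch (nat_lit 15) (.ev (nat_lit 592) (nat_lit 4406636445712) (.ev (nat_lit 660) (nat_lit 70368744177664) (.ev
 (nat_lit 804) (nat_lit 17592186044416) (.ev (nat_lit 813) (nat_lit 536870912) .dd)))))) (.br (nat_lit 18) (.ch
 (nat_lit 16) (.ev (nat_lit 592) (nat_lit 92367566667792) (.ev (nat_lit 605) (nat_lit 536870912) .dd))) (.ch
 (nat_lit 18) (.ev (nat_lit 592) (nat_lit 17592722915328) (.ev (nat_lit 660) (nat_lit 70368744177664) (.ev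
 (nat_lit 804) (nat_lit 4398046511120) (.ev (nat_lit 813) (nat_lit 8589934592) .dd)))))))) (.br (nat_lit 32)
 (.br (nat_lit 28) (.ch (nat_lit 21) (.ev (nat_lit 592) (nat_lit 21999359361040) (.ev (nat_lit 605) (nat_lit
 70368744177664) .dd))) (.br (nat_lit 31) (.ch (nat_lit 28) (.ev (nat_lit 592) (nat_lit 92368103538704) .dd))
 (.ch (nat_lit 31) (.ev (nat_lit 592) (nat_lit 92359513604096) (.ev (nat_lit 660) (nat_lit 16) (.ev (nat_lit
 669) (nat_lit 8589934592) .dd)))))) (.br (nat_lit 34) (.br (nat_lit 33) (.ch (nat_lit 32) (.ev (nat_lit 592)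
 (nat_lit 92368103538688) (.ev (nat_lit 605) (nat_lit 16) .dd))) (.ch (nat_lit 33) (.ev (nat_lit 592) (nat_lit
 74775917494288) (.ev (nat_lit 605) (nat_lit 17592186044416) .dd)))) (.br (nat_lit 36) (.ch (nat_lit 34) (.ev
 (nat_lit 592) (nat_lit 21990769426448) (.ev (nat_lit 660) (nat_lit 8589934592) (.ev (nat_lit 669) (nat_lit
 70368744177664) .dd)))) (.ch (nat_lit 36) (.ev (nat_lit 592) (nat_lit 87970057027600) (.ev (nat_lit 605)
 (nat_lit 4398046511104) .dd))))))))))))) (.ch (nat_lit 20) (.ev (nat_lit 52) (nat_lit 70446053785616) (.ev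
 (nat_lit 116) (nat_lit 17729624998912) (.ev (nat_lit 148) (nat_lit 1130297953353728) (.ev (nat_lit 276)
 (nat_lit 536870912) (.nd (nat_lit 576) (.br (nat_lit 30) (.br (nat_lit 9) (.br (nat_lit 4) (.ch (nat_lit 3)
 (.ev (nat_lit 592) (nat_lit 2199023522304) (.ev (nat_lit 784) (nat_lit 2048) (.ev (nat_lit 797) (nat_lit
 16777216) .dd)))) (.ch (nat_lit 4) (.ev (nat_lit 592) (nat_lit 2199040039424) (.ev (nat_lit 605) (nat_lit
 262144) .dd)))) (.br (nat_lit 21) (.ch (nat_lit 9) (.ev (nat_lit 592) (nat_lit 2199040296960) (.ev (nat_lit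
 660) (nat_lit 512) (.ev (nat_lit 669) (nat_lit 4096) .dd)))) (.br (nat_lit 29) (.ch (nat_lit 21) (.ev (nat_lit
 592) (nat_lit 17046016) (.ev (nat_lit 605) (nat_lit 2199023255552) .dd))) (.ch (nat_lit 29) (.ev (nat_lit 592)
 (nat_lit 2199040299520) (.ev (nat_lit 605) (nat_lit 2048) .dd)))))) (.br (nat_lit 34) (.br (nat_lit 32) (.ch
 (nat_lit 30) (.ev (nat_lit 592) (nat_lit 264192) (.ev (nat_lit 660) (nat_lit 2199040036864) (.ev (nat_lit 669)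
 (nat_lit 512) .dd)))) (.br (nat_lit 33) (.ch (nat_lit 32) (.ev (nat_lit 592) (nat_lit 2199040301568) .dd))
 (.ch (nat_lit 33) (.ev (nat_lit 592) (nat_lit 2199040039424) (.ev (nat_lit 605) (nat_lit 262144) .dd))))) (.br
 (nat_lit 35) (.ch (nat_lit 34) (.ev (nat_lit 592) (nat_lit 2199023520256) (.ev (nat_lit 816) (nat_lit
 16781312) .dd))) (.br (nat_lit 36) (.ch (nat_lit 35) (.ev (nat_lit 592) (nat_lit 2199040034816) (.ev (nat_lit
 804) (nat_lit 4096) (.ev (nat_lit 932) (nat_lit 512) (.ev (nat_lit 941) (nat_lit 262144) .dd))))) (.ch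
 (nat_lit 36) (.ev (nat_lit 592) (nat_lit 2199040301056) (.ev (nat_lit 605) (nat_lit 512) .dd))))))))))))))
 (.br (nat_lit 22) (.ch (nat_lit 21) (.ev (nat_lit 52) (nat_lit 1218267490360336) (.ev (nat_lit 84) (nat_lit
 137438953472) (.ev (nat_lit 116) (nat_lit 131072) (.ev (nat_lit 180) (nat_lit 536870912) (.nd (nat_lit 576)
 (.br (nat_lit 19) (.br (nat_lit 9) (.br (nat_lit 5) (.ch (nat_lit 4) (.ev (nat_lit 592) (nat_lit
 2199023518208) (.ev (nat_lit 605) (nat_lit 68719476736) .dd))) (.br (nat_lit 8) (.ch (nat_lit 5) (.ev (nat_lit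
 592) (nat_lit 68719739392) (.ev (nat_lit 605) (nat_lit 2199023255552) .dd))) (.ch (nat_lit 8) (.ev (nat_lit
 592) (nat_lit 262656) (.ev (nat_lit 660) (nat_lit 2199023255552) (.ev (nat_lit 669) (nat_lit 68719476736)
 .dd)))))) (.br (nat_lit 15) (.ch (nat_lit 9) (.ev (nat_lit 592) (nat_lit 262656) (.ev (nat_lit 720) (nat_lit
 2199023255552) (.ev (nat_lit 733) (nat_lit 68719476736) .dd)))) (.br (nat_lit 18) (.ch (nat_lit 15) (.ev
 (nat_lit 592) (nat_lit 2267742994944) .dd)) (.ch (nat_lit 18) (.ev (nat_lit 592) (nat_lit 2267742994944)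
 .dd))))) (.br (nat_lit 30) (.br (nat_lit 21) (.ch (nat_lit 19) (.ev (nat_lit 592) (nat_lit 2267742994944)
 .dd)) (.br (nat_lit 25) (.ch (nat_lit 21) (.ev (nat_lit 592) (nat_lit 68719739392) (.ev (nat_lit 605) (nat_lit
 2199023255552) .dd))) (.ch (nat_lit 25) (.ev (nat_lit 592) (nat_lit 2267742994944) .dd)))) (.br (nat_lit 34)
 (.br (nat_lit 31) (.ch (nat_lit 30) (.ev (nat_lit 592) (nat_lit 68719738880) (.ev (nat_lit 816) (nat_lit
 2199023255552) (.ev (nat_lit 829) (nat_lit 512) .dd)))) (.ch (nat_lit 31) (.ev (nat_lit 592) (nat_lit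
 2199023255552) (.ev (nat_lit 660) (nat_lit 512) (.ev (nat_lit 804) (nat_lit 262144) (.ev (nat_lit 813)
 (nat_lit 68719476736) .dd)))))) (.br (nat_lit 36) (.ch (nat_lit 34) (.ev (nat_lit 592) (nat_lit 2199023517696)
 (.ev (nat_lit 804) (nat_lit 512) (.ev (nat_lit 813) (nat_lit 68719476736) .dd)))) (.ch (nat_lit 36) (.ev
 (nat_lit 592) (nat_lit 2267742732288) (.ev (nat_lit 804) (nat_lit 262144) (.ev (nat_lit 813) (nat_lit 512)
 .dd)))))))))))))) (.ch (nat_lit 22) (.ev (nat_lit 52) (nat_lit 1216137169928208) (.ev (nat_lit 128) (nat_lit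
 4536039382528) .dd))))))) (.br (nat_lit 33) (.br (nat_lit 28) (.br (nat_lit 26) (.ch (nat_lit 25) (.ev
 (nat_lit 52) (nat_lit 19929185193984) (.ev (nat_lit 64) (nat_lit 1200744024116752) .dd))) (.br (nat_lit 27)
 (.ch (nat_lit 26) (.ev (nat_lit 52) (nat_lit 1132574822895632) (.ev (nat_lit 116) (nat_lit 1024) (.ev (nat_lit
 180) (nat_lit 262144) (.ev (nat_lit 212) (nat_lit 65536) (.ev (nat_lit 308) (nat_lit 137438953472) (.nd
 (nat_lit 576) (.br (nat_lit 18) (.br (nat_lit 10) (.br (nat_lit 7) (.ch (nat_lit 3) (.ev (nat_lit 592)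
 (nat_lit 87960947132928) .dd)) (.br (nat_lit 9) (.ch (nat_lit 7) (.ev (nat_lit 592) (nat_lit 87960946999808)
 (.ev (nat_lit 660) (nat_lit 2048) (.ev (nat_lit 669) (nat_lit 131072) .dd)))) (.ch (nat_lit 9) (.ev (nat_lit
 592) (nat_lit 17592202824192) (.ev (nat_lit 804) (nat_lit 131072) (.ev (nat_lit 813) (nat_lit 70368744177664)
 .dd)))))) (.br (nat_lit 15) (.ch (nat_lit 10) (.ev (nat_lit 592) (nat_lit 87960930355712) (.ev (nat_lit 605)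
 (nat_lit 16777216) .dd))) (.br (nat_lit 17) (.ch (nat_lit 15) (.ev (nat_lit 592) (nat_lit 87960947132928)
 .dd)) (.ch (nat_lit 17) (.ev (nat_lit 592) (nat_lit 17592186178048) (.ev (nat_lit 660) (nat_lit 16777216) (.ev
 (nat_lit 669) (nat_lit 70368744177664) .dd))))))) (.br (nat_lit 29) (.br (nat_lit 25) (.ch (nat_lit 18) (.ev
 (nat_lit 592) (nat_lit 87960946999808) (.ev (nat_lit 660) (nat_lit 131072) (.ev (nat_lit 669) (nat_lit 2048)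
 .dd)))) (.br (nat_lit 28) (.ch (nat_lit 25) (.ev (nat_lit 592) (nat_lit 87960947130880) (.ev (nat_lit 605)
 (nat_lit 2048) .dd))) (.ch (nat_lit 28) (.ev (nat_lit 592) (nat_lit 17592202954752) (.ev (nat_lit 660)
 (nat_lit 512) (.ev (nat_lit 669) (nat_lit 70368744177664) .dd)))))) (.br (nat_lit 34) (.br (nat_lit 32) (.ch
 (nat_lit 29) (.ev (nat_lit 592) (nat_lit 87960947001856) (.ev (nat_lit 605) (nat_lit 131072) .dd))) (.ch
 (nat_lit 32) (.ev (nat_lit 592) (nat_lit 17592202955264) (.ev (nat_lit 605) (nat_lit 70368744177664) .dd))))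
 (.br (nat_lit 42) (.ch (nat_lit 34) (.ev (nat_lit 592) (nat_lit 87960947132928) .dd)) (.ch (nat_lit 42) (.ev
 (nat_lit 592) (nat_lit 16777728) (.ev (nat_lit 660) (nat_lit 131072) (.ev (nat_lit 672) (nat_lit
 70368744177664) (.fin (nat_lit 576461302078587464))))))))))))))))) (.ch (nat_lit 27) (.ev (nat_lit 52)
 (nat_lit 6743652307968) (.ev (nat_lit 84) (nat_lit 17592186176000) (.ev (nat_lit 160) (nat_lit
 1196337370826768) .dd)))))) (.br (nat_lit 31) (.br (nat_lit 29) (.ch (nat_lit 28) (.ev (nat_lit 52) (nat_lit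
 1126045935930368) (.ev (nat_lit 64) (nat_lit 94627273380368) .dd))) (.ch (nat_lit 29) (.ev (nat_lit 52)
 (nat_lit 1126037882670080) (.ev (nat_lit 64) (nat_lit 94635326640656) .dd)))) (.br (nat_lit 32) (.ch (nat_lit
 31) (.ev (nat_lit 52) (nat_lit 70506199974400) (.ev (nat_lit 116) (nat_lit 4406636449792) (.ev (nat_lit 148)
 (nat_lit 262144) (.ev (nat_lit 180) (nat_lit 1128098930098176) (.ev (nat_lit 404) (nat_lit 536870912) (.nd
 (nat_lit 576) (.br (nat_lit 17) (.br (nat_lit 9) (.br (nat_lit 7) (.ch (nat_lit 3) (.ev (nat_lit 592) (nat_lit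
 17660905524224) (.ev (nat_lit 816) (nat_lit 131088) .dd))) (.ch (nat_lit 7) (.ev (nat_lit 592) (nat_lit
 17660905522192) (.ev (nat_lit 784) (nat_lit 2048) (.ev (nat_lit 797) (nat_lit 131072) .dd))))) (.br (nat_lit
 13) (.ch (nat_lit 9) (.ev (nat_lit 592) (nat_lit 68719610880) (.ev (nat_lit 660) (nat_lit 16) (.ev (nat_lit
 669) (nat_lit 17592186044416) .dd)))) (.br (nat_lit 16) (.ch (nat_lit 13) (.ev (nat_lit 592) (nat_lit
 17660905654288) (.ev (nat_lit 605) (nat_lit 1024) .dd))) (.ch (nat_lit 16) (.ev (nat_lit 592) (nat_lit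
 68719478784) (.ev (nat_lit 660) (nat_lit 132112) (.ev (nat_lit 669) (nat_lit 17592186044416) .dd))))))) (.br
 (nat_lit 31) (.br (nat_lit 18) (.ch (nat_lit 17) (.ev (nat_lit 592) (nat_lit 17592186178576) (.ev (nat_lit
 605) (nat_lit 68719476736) .dd))) (.br (nat_lit 30) (.ch (nat_lit 18) (.ev (nat_lit 592) (nat_lit 68719610896)
 (.ev (nat_lit 605) (nat_lit 17592186044416) .dd))) (.ch (nat_lit 30) (.ev (nat_lit 592) (nat_lit
 17660905653264) (.ev (nat_lit 605) (nat_lit 2048) .dd))))) (.br (nat_lit 32) (.ch (nat_lit 31) (.ev (nat_lit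
 592) (nat_lit 17660905655312) .dd)) (.br (nat_lit 36) (.ch (nat_lit 32) (.ev (nat_lit 592) (nat_lit 134144)
 (.ev (nat_lit 804) (nat_lit 16) (.ev (nat_lit 932) (nat_lit 68719476736) (.ev (nat_lit 941) (nat_lit
 17592186044416) .dd))))) (.ch (nat_lit 36) (.ev (nat_lit 592) (nat_lit 17592186178576) (.ev (nat_lit 605)
 (nat_lit 68719476736) .dd)))))))))))))) (.ch (nat_lit 32) (.ev (nat_lit 52) (nat_lit 6666326246416) (.ev
 (nat_lit 96) (nat_lit 1214006883064320) .dd)))))) (.br (nat_lit 42) (.br (nat_lit 36) (.br (nat_lit 35) (.ch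
 (nat_lit 33) (.ev (nat_lit 52) (nat_lit 17601330021376) (.ev (nat_lit 96) (nat_lit 1203071879289360) .dd)))
 (.ch (nat_lit 35) (.ev (nat_lit 52) (nat_lit 1128168203227648) (.ev (nat_lit 96) (nat_lit 92505006083088)
 .dd)))) (.br (nat_lit 38) (.ch (nat_lit 36) (.ev (nat_lit 52) (nat_lit 1220535233286656) (.ev (nat_lit 116)
 (nat_lit 2048) (.ev (nat_lit 192) (nat_lit 137976022032) .dd)))) (.ch (nat_lit 38) (.ev (nat_lit 52) (nat_lit
 1130444519377408) (.ev (nat_lit 84) (nat_lit 131072) (.ev (nat_lit 128) (nat_lit 90228689802256) .dd))))))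
 (.br (nat_lit 45) (.br (nat_lit 44) (.ch (nat_lit 42) (.ev (nat_lit 52) (nat_lit 77111843097616) (.ev (nat_lit
 116) (nat_lit 536870912) (.ev (nat_lit 148) (nat_lit 68736253952) (.ev (nat_lit 180) (nat_lit 17592186044416)
 (.nd (nat_lit 576) (.br (nat_lit 19) (.br (nat_lit 13) (.br (nat_lit 5) (.ch (nat_lit 3) (.ev (nat_lit 592)
 (nat_lit 1125899906912768) (.ev (nat_lit 605) (nat_lit 131072) .dd))) (.br (nat_lit 10) (.ch (nat_lit 5) (.ev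
 (nat_lit 592) (nat_lit 70144) (.ev (nat_lit 660) (nat_lit 131072) (.ev (nat_lit 669) (nat_lit
 1125899906842624) .dd)))) (.ch (nat_lit 10) (.ev (nat_lit 592) (nat_lit 1125899906978304) (.ev (nat_lit 605)
 (nat_lit 65536) .dd))))) (.br (nat_lit 15) (.ch (nat_lit 13) (.ev (nat_lit 592) (nat_lit 1125899907043840)
 .dd)) (.br (nat_lit 18) (.ch (nat_lit 15) (.ev (nat_lit 592) (nat_lit 1125899907043840) .dd)) (.ch (nat_lit
 18) (.ev (nat_lit 592) (nat_lit 1125899907043840) .dd))))) (.br (nat_lit 31) (.br (nat_lit 21) (.ch (nat_lit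
 19) (.ev (nat_lit 592) (nat_lit 1125899907043840) .dd)) (.br (nat_lit 25) (.ch (nat_lit 21) (.ev (nat_lit 592)
 (nat_lit 135680) (.ev (nat_lit 660) (nat_lit 65536) (.ev (nat_lit 669) (nat_lit 1125899906842624) .dd)))) (.ch
 (nat_lit 25) (.ev (nat_lit 592) (nat_lit 201216) (.ev (nat_lit 605) (nat_lit 1125899906842624) .dd))))) (.br
 (nat_lit 35) (.br (nat_lit 34) (.ch (nat_lit 31) (.ev (nat_lit 592) (nat_lit 1125899907043328) (.ev (nat_lit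
 605) (nat_lit 512) .dd))) (.ch (nat_lit 34) (.ev (nat_lit 592) (nat_lit 1125899907039232) (.ev (nat_lit 688)
 (nat_lit 512) (.ev (nat_lit 701) (nat_lit 4096) .dd))))) (.br (nat_lit 42) (.ch (nat_lit 35) (.ev (nat_lit
 592) (nat_lit 1125899907043328) (.ev (nat_lit 605) (nat_lit 512) .dd))) (.ch (nat_lit 42) (.ev (nat_lit 592)
 (nat_lit 69632) (.ev (nat_lit 660) (nat_lit 1125899906973696) (.ev (nat_lit 669) (nat_lit 512)
 .dd)))))))))))))) (.ch (nat_lit 44) (.ev (nat_lit 52) (nat_lit 1203003159745552) (.ev (nat_lit 96) (nat_lit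
 17670049565184) .dd)))) (.br (nat_lit 46) (.ch (nat_lit 45) (.ev (nat_lit 52) (nat_lit 1143501220088320) (.ev
 (nat_lit 84) (nat_lit 66576) (.ev (nat_lit 148) (nat_lit 70368744177664) (.ev (nat_lit 180) (nat_lit
 68719476736) (.ev (nat_lit 212) (nat_lit 16781312) (.ev (nat_lit 308) (nat_lit 2199023255552) (.nd (nat_lit
 576) (.br (nat_lit 21) (.br (nat_lit 16) (.br (nat_lit 5) (.ch (nat_lit 4) (.ev (nat_lit 592) (nat_lit
 4535485464576) .dd)) (.br (nat_lit 13) (.ch (nat_lit 5) (.fin (nat_lit 576451406441431618))) (.ch (nat_lit 13)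
 (.ev (nat_lit 592) (nat_lit 4398046511104) (.ev (nat_lit 605) (nat_lit 137438953472) .dd))))) (.br (nat_lit
 18) (.ch (nat_lit 16) (.ev (nat_lit 592) (nat_lit 4398046511104) (.ev (nat_lit 605) (nat_lit 137438953472)
 .dd))) (.br (nat_lit 19) (.ch (nat_lit 18) (.ev (nat_lit 592) (nat_lit 4535485464576) .dd)) (.ch (nat_lit 19)
 (.ev (nat_lit 592) (nat_lit 4535485464576) .dd))))) (.br (nat_lit 32) (.br (nat_lit 28) (.ch (nat_lit 21) (.ev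
 (nat_lit 592) (nat_lit 4535485464576) .dd)) (.br (nat_lit 30) (.ch (nat_lit 28) (.ev (nat_lit 592) (nat_lit
 137438953472) (.ev (nat_lit 605) (nat_lit 4398046511104) .dd))) (.ch (nat_lit 30) (.ev (nat_lit 660) (nat_lit
 4398046511104) (.ev (nat_lit 669) (nat_lit 137438953472) .dd))))) (.br (nat_lit 35) (.br (nat_lit 34) (.ch
 (nat_lit 32) (.ev (nat_lit 592) (nat_lit 4535485464576) .dd)) (.ch (nat_lit 34) (.ev (nat_lit 592) (nat_lit
 4535485464576) .dd))) (.br (nat_lit 36) (.ch (nat_lit 35) (.ev (nat_lit 592) (nat_lit 137438953472) (.ev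
 (nat_lit 605) (nat_lit 4398046511104) .dd))) (.ch (nat_lit 36) (.ev (nat_lit 592) (nat_lit 4535485464576)
 .dd)))))))))))))) (.ch (nat_lit 46) (.ev (nat_lit 52) (nat_lit 1143560812365328) (.ev (nat_lit 64) (nat_lit
 77112396945408) .dd))))))))))

/-- Subtrie. -/
noncomputable def T17 : Tr := (.ev (nat_lit 20) (nat_lit 6272516543023680) (.nd (nat_lit 33) (.br (nat_lit 25)
 (.br (nat_lit 14) (.br (nat_lit 5) (.br (nat_lit 2) (.ch (nat_lit 1) (.ev (nat_lit 52) (nat_lit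
 21992464060448) (.ev (nat_lit 116) (nat_lit 137438953472) (.ev (nat_lit 148) (nat_lit 140738025226240) (.nd
 (nat_lit 576) (.br (nat_lit 25) (.br (nat_lit 17) (.br (nat_lit 6) (.ch (nat_lit 2) (.ev (nat_lit 592)
 (nat_lit 282574488371216) (.ev (nat_lit 804) (nat_lit 1024) (.ev (nat_lit 813) (nat_lit 2199023255552) .dd))))
 (.br (nat_lit 12) (.ch (nat_lit 6) (.ev (nat_lit 592) (nat_lit 3298534916112) (.ev (nat_lit 660) (nat_lit
 1024) (.ev (nat_lit 669) (nat_lit 281474976710656) .dd)))) (.ch (nat_lit 12) (.ev (nat_lit 592) (nat_lit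
 284773511595024) (.ev (nat_lit 605) (nat_lit 32768) .dd))))) (.br (nat_lit 19) (.ch (nat_lit 17) (.ev (nat_lit
 592) (nat_lit 282574488372240) (.ev (nat_lit 605) (nat_lit 2199023255552) .dd))) (.br (nat_lit 20) (.ch
 (nat_lit 19) (.ev (nat_lit 592) (nat_lit 284773511627792) .dd)) (.ch (nat_lit 20) (.ev (nat_lit 592) (nat_lit
 282574488372224) (.ev (nat_lit 660) (nat_lit 16) (.ev (nat_lit 669) (nat_lit 2199023255552) .dd))))))) (.br
 (nat_lit 31) (.br (nat_lit 28) (.ch (nat_lit 25) (.ev (nat_lit 592) (nat_lit 3298534916112) (.ev (nat_lit 660)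
 (nat_lit 281474976710656) (.ev (nat_lit 669) (nat_lit 1024) .dd)))) (.br (nat_lit 30) (.ch (nat_lit 28) (.ev
 (nat_lit 592) (nat_lit 284773511627792) .dd)) (.ch (nat_lit 30) (.ev (nat_lit 592) (nat_lit 284773511626768)
 (.ev (nat_lit 605) (nat_lit 1024) .dd))))) (.br (nat_lit 37) (.br (nat_lit 33) (.ch (nat_lit 31) (.ev (nat_lit
 592) (nat_lit 32784) (.ev (nat_lit 660) (nat_lit 1024) (.ev (nat_lit 672) (nat_lit 2199023255552) (.fin
 (nat_lit 576448107907596860)))))) (.ch (nat_lit 33) (.ev (nat_lit 592) (nat_lit 3298534917136) (.ev (nat_lit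
 605) (nat_lit 281474976710656) .dd)))) (.br (nat_lit 39) (.ch (nat_lit 37) (.ev (nat_lit 592) (nat_lit
 284773511627792) .dd)) (.ch (nat_lit 39) (.ev (nat_lit 592) (nat_lit 282574488339472) (.ev (nat_lit 660)
 (nat_lit 32768) (.ev (nat_lit 669) (nat_lit 2199023255552) .dd))))))))))))) (.br (nat_lit 3) (.ch (nat_lit 2)
 (.ev (nat_lit 52) (nat_lit 422349987938336) (.ev (nat_lit 84) (nat_lit 4398046511104) (.ev (nat_lit 116)
 (nat_lit 536870912) (.ev (nat_lit 148) (nat_lit 4096) (.ev (nat_lit 180) (nat_lit 16) (.ev (nat_lit 212)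
 (nat_lit 2199023255552) (.nd (nat_lit 576) (.br (nat_lit 23) (.br (nat_lit 15) (.br (nat_lit 11) (.ch (nat_lit
 8) (.ev (nat_lit 592) (nat_lit 17592186176512) (.ev (nat_lit 660) (nat_lit 1099511627776) (.ev (nat_lit 669)
 (nat_lit 2147483648) .dd)))) (.br (nat_lit 13) (.ch (nat_lit 11) (.ev (nat_lit 592) (nat_lit 1101659243520)
 (.ev (nat_lit 605) (nat_lit 17592186044416) .dd))) (.ch (nat_lit 13) (.ev (nat_lit 592) (nat_lit
 18693845287936) .dd)))) (.br (nat_lit 19) (.ch (nat_lit 15) (.ev (nat_lit 592) (nat_lit 18691697673216) (.ev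
 (nat_lit 660) (nat_lit 131072) (.ev (nat_lit 669) (nat_lit 2147483648) .dd)))) (.br (nat_lit 20) (.ch (nat_lit
 19) (.ev (nat_lit 592) (nat_lit 18693845287936) .dd)) (.ch (nat_lit 20) (.ev (nat_lit 592) (nat_lit
 17594333660160) (.ev (nat_lit 605) (nat_lit 1099511627776) .dd)))))) (.br (nat_lit 30) (.br (nat_lit 25) (.ch
 (nat_lit 23) (.ev (nat_lit 592) (nat_lit 17594333529088) (.ev (nat_lit 804) (nat_lit 131072) (.ev (nat_lit
 813) (nat_lit 1099511627776) .dd)))) (.br (nat_lit 28) (.ch (nat_lit 25) (.ev (nat_lit 592) (nat_lit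
 17594333660160) (.ev (nat_lit 605) (nat_lit 1099511627776) .dd))) (.ch (nat_lit 28) (.ev (nat_lit 592)
 (nat_lit 18693845156864) (.ev (nat_lit 605) (nat_lit 131072) .dd))))) (.br (nat_lit 34) (.br (nat_lit 33) (.ch
 (nat_lit 30) (.ev (nat_lit 592) (nat_lit 18691697803264) (.ev (nat_lit 624) (nat_lit 1024) (.ev (nat_lit 637)
 (nat_lit 2147483648) .dd)))) (.ch (nat_lit 33) (.ev (nat_lit 592) (nat_lit 1101659243520) (.ev (nat_lit 605)
 (nat_lit 17592186044416) .dd)))) (.br (nat_lit 37) (.ch (nat_lit 34) (.ev (nat_lit 592) (nat_lit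
 18693845287936) .dd)) (.ch (nat_lit 37) (.ev (nat_lit 592) (nat_lit 18691697804288) (.ev (nat_lit 605)
 (nat_lit 2147483648) .dd))))))))))))))) (.ch (nat_lit 3) (.ev (nat_lit 52) (nat_lit 1102212764688) (.ev
 (nat_lit 96) (nat_lit 446539227103264) .dd))))) (.br (nat_lit 11) (.br (nat_lit 9) (.ch (nat_lit 5) (.ev
 (nat_lit 52) (nat_lit 159431937495072) (.ev (nat_lit 84) (nat_lit 4398046511104) (.ev (nat_lit 116) (nat_lit
 2199023256592) (.ev (nat_lit 224) (nat_lit 281612432605184) .dd))))) (.ch (nat_lit 9) (.ev (nat_lit 52)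
 (nat_lit 146372502389760) (.ev (nat_lit 84) (nat_lit 603979792) (.ev (nat_lit 116) (nat_lit 2147483648) (.ev
 (nat_lit 212) (nat_lit 32) (.ev (nat_lit 276) (nat_lit 2199023255552) (.nd (nat_lit 576) (.br (nat_lit 20)
 (.br (nat_lit 15) (.br (nat_lit 6) (.ch (nat_lit 2) (.ev (nat_lit 592) (nat_lit 299067162759168) .dd)) (.ch
 (nat_lit 6) (.ev (nat_lit 592) (nat_lit 281474976710656) (.ev (nat_lit 804) (nat_lit 4096) (.ev (nat_lit 813)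
 (nat_lit 17592186044416) .dd))))) (.br (nat_lit 17) (.ch (nat_lit 15) (.ev (nat_lit 592) (nat_lit
 299067162759168) .dd)) (.br (nat_lit 19) (.ch (nat_lit 17) (.ev (nat_lit 660) (nat_lit 281474976710656) (.ev
 (nat_lit 804) (nat_lit 17592186044416) (.ev (nat_lit 813) (nat_lit 4096) .dd)))) (.ch (nat_lit 19) (.ev
 (nat_lit 592) (nat_lit 299067162759168) .dd))))) (.br (nat_lit 32) (.br (nat_lit 21) (.ch (nat_lit 20) (.ev
 (nat_lit 592) (nat_lit 299067162759168) .dd)) (.br (nat_lit 30) (.ch (nat_lit 21) (.ev (nat_lit 592) (nat_lit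
 281474976714752) (.ev (nat_lit 605) (nat_lit 17592186044416) .dd))) (.ch (nat_lit 30) (.ev (nat_lit 592)
 (nat_lit 299067162755072) (.ev (nat_lit 605) (nat_lit 4096) .dd))))) (.br (nat_lit 34) (.ch (nat_lit 32) (.ev
 (nat_lit 592) (nat_lit 4096) (.ev (nat_lit 672) (nat_lit 281474976710656) (.ev (nat_lit 685) (nat_lit
 17592186044416) .dd)))) (.br (nat_lit 37) (.ch (nat_lit 34) (.ev (nat_lit 592) (nat_lit 299067162755072) (.ev
 (nat_lit 605) (nat_lit 4096) .dd))) (.ch (nat_lit 37) (.ev (nat_lit 592) (nat_lit 17592186048512) (.ev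
 (nat_lit 605) (nat_lit 281474976710656) .dd))))))))))))))) (.br (nat_lit 12) (.ch (nat_lit 11) (.ev (nat_lit
 52) (nat_lit 22128208379920) (.ev (nat_lit 64) (nat_lit 425513231488032) .dd))) (.ch (nat_lit 12) (.ev
 (nat_lit 52) (nat_lit 137506227216) (.ev (nat_lit 84) (nat_lit 142936528388096) (.ev (nat_lit 116) (nat_lit
 4398046511104) (.ev (nat_lit 148) (nat_lit 17592722915328) (.nd (nat_lit 576) (.br (nat_lit 20) (.br (nat_lit
 15) (.br (nat_lit 2) (.ch (nat_lit 0) (.ev (nat_lit 592) (nat_lit 282576635826176) (.ev (nat_lit 605) (nat_lit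
 32) .dd))) (.br (nat_lit 12) (.ch (nat_lit 2) (.ev (nat_lit 592) (nat_lit 282576635822080) (.ev (nat_lit 672)
 (nat_lit 4096) (.ev (nat_lit 685) (nat_lit 32) .dd)))) (.ch (nat_lit 12) (.ev (nat_lit 592) (nat_lit
 282576635822112) (.ev (nat_lit 605) (nat_lit 4096) .dd))))) (.br (nat_lit 18) (.br (nat_lit 17) (.ch (nat_lit
 15) (.ev (nat_lit 592) (nat_lit 282574488338464) (.ev (nat_lit 660) (nat_lit 2147483648) (.ev (nat_lit 669)
 (nat_lit 4096) .dd)))) (.ch (nat_lit 17) (.ev (nat_lit 592) (nat_lit 282576635822112) (.ev (nat_lit 605)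
 (nat_lit 4096) .dd)))) (.br (nat_lit 19) (.ch (nat_lit 18) (.ev (nat_lit 592) (nat_lit 282576635826176) (.ev
 (nat_lit 605) (nat_lit 32) .dd))) (.ch (nat_lit 19) (.ev (nat_lit 592) (nat_lit 282576635826176) (.ev (nat_lit
 605) (nat_lit 32) .dd)))))) (.br (nat_lit 24) (.br (nat_lit 21) (.ch (nat_lit 20) (.ev (nat_lit 592) (nat_lit
 282576635826208) .dd)) (.br (nat_lit 22) (.ch (nat_lit 21) (.ev (nat_lit 592) (nat_lit 282574488342560) (.ev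
 (nat_lit 605) (nat_lit 2147483648) .dd))) (.ch (nat_lit 22) (.ev (nat_lit 592) (nat_lit 282574488338464) (.ev
 (nat_lit 660) (nat_lit 4096) (.ev (nat_lit 669) (nat_lit 2147483648) .dd)))))) (.br (nat_lit 33) (.br (nat_lit
 31) (.ch (nat_lit 24) (.ev (nat_lit 592) (nat_lit 282574488338464) (.ev (nat_lit 660) (nat_lit 4096) (.ev
 (nat_lit 669) (nat_lit 2147483648) .dd)))) (.ch (nat_lit 31) (.ev (nat_lit 592) (nat_lit 2147487776) (.fin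
 (nat_lit 576448107907596860))))) (.br (nat_lit 34) (.ch (nat_lit 33) (.ev (nat_lit 592) (nat_lit
 282576635826208) .dd)) (.ch (nat_lit 34) (.ev (nat_lit 592) (nat_lit 282576635826208) .dd))))))))))))))) (.br
 (nat_lit 19) (.br (nat_lit 16) (.br (nat_lit 15) (.ch (nat_lit 14) (.ev (nat_lit 52) (nat_lit 281475043852320)
 (.ev (nat_lit 84) (nat_lit 17592186048512) (.ev (nat_lit 116) (nat_lit 132096) (.ev (nat_lit 148) (nat_lit
 16777216) (.ev (nat_lit 180) (nat_lit 2147483648) (.ev (nat_lit 212) (nat_lit 1099511627776) (.ev (nat_lit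
 244) (nat_lit 16) (.ev (nat_lit 404) (nat_lit 2199023255552) (.nd (nat_lit 576) (.br (nat_lit 25) (.br
 (nat_lit 21) (.br (nat_lit 15) (.ch (nat_lit 11) (.ev (nat_lit 592) (nat_lit 145272973819904) (.ev (nat_lit
 605) (nat_lit 536870912) .dd))) (.br (nat_lit 18) (.ch (nat_lit 15) (.ev (nat_lit 592) (nat_lit
 145273510690816) .dd)) (.ch (nat_lit 18) (.ev (nat_lit 592) (nat_lit 4536022335488) (.ev (nat_lit 605)
 (nat_lit 140737488355328) .dd))))) (.br (nat_lit 22) (.ch (nat_lit 21) (.ev (nat_lit 592) (nat_lit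
 4398583382016) (.ev (nat_lit 660) (nat_lit 137438953472) (.ev (nat_lit 669) (nat_lit 140737488355328) .dd))))
 (.br (nat_lit 23) (.ch (nat_lit 22) (.ev (nat_lit 592) (nat_lit 145273510690816) .dd)) (.ch (nat_lit 23) (.ev
 (nat_lit 592) (nat_lit 140875464179712) (.ev (nat_lit 605) (nat_lit 4398046511104) .dd)))))) (.br (nat_lit 33)
 (.br (nat_lit 30) (.ch (nat_lit 25) (.ev (nat_lit 592) (nat_lit 140875464179712) (.ev (nat_lit 605) (nat_lit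
 4398046511104) .dd))) (.br (nat_lit 32) (.ch (nat_lit 30) (.ev (nat_lit 592) (nat_lit 4536022335488) (.ev
 (nat_lit 605) (nat_lit 140737488355328) .dd))) (.ch (nat_lit 32) (.ev (nat_lit 592) (nat_lit 145136071737344)
 (.ev (nat_lit 605) (nat_lit 137438953472) .dd))))) (.br (nat_lit 37) (.br (nat_lit 34) (.ch (nat_lit 33) (.ev
 (nat_lit 592) (nat_lit 140738025226240) (.ev (nat_lit 704) (nat_lit 4398046511104) (.ev (nat_lit 717) (nat_lit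
 137438953472) .dd)))) (.ch (nat_lit 34) (.ev (nat_lit 592) (nat_lit 145136071737344) (.ev (nat_lit 605)
 (nat_lit 137438953472) .dd)))) (.br (nat_lit 39) (.ch (nat_lit 37) (.ev (nat_lit 592) (nat_lit
 145272973819904) (.ev (nat_lit 605) (nat_lit 536870912) .dd))) (.ch (nat_lit 39) (.ev (nat_lit 592) (nat_lit
 140738025226240) (.ev (nat_lit 896) (nat_lit 4535485464576) .dd))))))))))))))))) (.ch (nat_lit 15) (.ev
 (nat_lit 52) (nat_lit 281614579930112) (.ev (nat_lit 84) (nat_lit 536870944) (.ev (nat_lit 116) (nat_lit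
 19791209299968) (.nd (nat_lit 576) (.br (nat_lit 20) (.br (nat_lit 13) (.br (nat_lit 8) (.ch (nat_lit 0) (.ev
 (nat_lit 592) (nat_lit 5497625378816) (.ev (nat_lit 660) (nat_lit 140737488355328) (.ev (nat_lit 980) (nat_lit
 16) (.ev (nat_lit 989) (nat_lit 32768) .dd))))) (.br (nat_lit 11) (.ch (nat_lit 8) (.ev (nat_lit 592) (nat_lit
 146235113766928) .dd)) (.ch (nat_lit 11) (.ev (nat_lit 592) (nat_lit 5497625378816) (.ev (nat_lit 932)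
 (nat_lit 140737488355328) (.ev (nat_lit 960) (nat_lit 32768) (.ev (nat_lit 973) (nat_lit 16) .dd))))))) (.br
 (nat_lit 15) (.ch (nat_lit 13) (.ev (nat_lit 592) (nat_lit 1099578900496) (.ev (nat_lit 688) (nat_lit
 4398046511104) (.ev (nat_lit 701) (nat_lit 140737488355328) .dd)))) (.br (nat_lit 19) (.ch (nat_lit 15) (.ev
 (nat_lit 592) (nat_lit 140737555496976) (.ev (nat_lit 660) (nat_lit 4398046511104) (.ev (nat_lit 932) (nat_lit
 131072) (.ev (nat_lit 941) (nat_lit 1099511627776) .dd))))) (.ch (nat_lit 19) (.ev (nat_lit 592) (nat_lit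
 141837067255824) (.ev (nat_lit 605) (nat_lit 4398046511104) .dd)))))) (.br (nat_lit 28) (.br (nat_lit 21) (.ch
 (nat_lit 20) (.ev (nat_lit 592) (nat_lit 145135534997504) (.ev (nat_lit 660) (nat_lit 67108864) (.ev (nat_lit
 832) (nat_lit 1099511627776) (.ev (nat_lit 980) (nat_lit 32768) (.ev (nat_lit 989) (nat_lit 16) .dd)))))) (.br
 (nat_lit 22) (.ch (nat_lit 21) (.ev (nat_lit 592) (nat_lit 146235113766928) .dd)) (.ch (nat_lit 22) (.ev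
 (nat_lit 592) (nat_lit 5497558302736) (.ev (nat_lit 660) (nat_lit 140737488355328) (.ev (nat_lit 669) (nat_lit
 67108864) .dd)))))) (.br (nat_lit 33) (.br (nat_lit 31) (.ch (nat_lit 28) (.ev (nat_lit 592) (nat_lit
 141837067255824) (.ev (nat_lit 605) (nat_lit 4398046511104) .dd))) (.ch (nat_lit 31) (.ev (nat_lit 592)
 (nat_lit 146235113635856) (.ev (nat_lit 605) (nat_lit 131072) .dd)))) (.br (nat_lit 39) (.ch (nat_lit 33) (.ev
 (nat_lit 592) (nat_lit 146235113766928) .dd)) (.ch (nat_lit 39) (.ev (nat_lit 592) (nat_lit 146235113734144)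
 (.fin (nat_lit 576461302059713078)))))))))))))) (.br (nat_lit 18) (.ch (nat_lit 16) (.ev (nat_lit 52) (nat_lit
 3438725431328) (.ev (nat_lit 84) (nat_lit 4096) (.ev (nat_lit 116) (nat_lit 281474976710656) (.ev (nat_lit
 148) (nat_lit 4398046511104) (.ev (nat_lit 212) (nat_lit 140737488356352) (.nd (nat_lit 576) (.br (nat_lit 23)
 (.br (nat_lit 12) (.br (nat_lit 8) (.ch (nat_lit 6) (.ev (nat_lit 592) (nat_lit 17592186044416) (.ev (nat_lit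
 660) (nat_lit 16777216) (.ev (nat_lit 980) (nat_lit 32768) (.ev (nat_lit 989) (nat_lit 16) .dd))))) (.br
 (nat_lit 11) (.ch (nat_lit 8) (.ev (nat_lit 592) (nat_lit 17592202854416) .dd)) (.ch (nat_lit 11) (.ev
 (nat_lit 592) (nat_lit 17592202854416) .dd)))) (.br (nat_lit 13) (.ch (nat_lit 12) (.ev (nat_lit 592) (nat_lit
 17592186044416) (.ev (nat_lit 804) (nat_lit 16777216) (.ev (nat_lit 980) (nat_lit 16) (.ev (nat_lit 989)
 (nat_lit 32768) .dd))))) (.br (nat_lit 18) (.ch (nat_lit 13) (.ev (nat_lit 592) (nat_lit 17592202821632) (.ev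
 (nat_lit 960) (nat_lit 16) (.ev (nat_lit 973) (nat_lit 32768) .dd)))) (.ch (nat_lit 18) (.ev (nat_lit 592)
 (nat_lit 17592186077200) (.ev (nat_lit 605) (nat_lit 16777216) .dd)))))) (.br (nat_lit 32) (.br (nat_lit 24)
 (.ch (nat_lit 23) (.ev (nat_lit 592) (nat_lit 17592202854416) .dd)) (.br (nat_lit 28) (.ch (nat_lit 24) (.ev
 (nat_lit 592) (nat_lit 17592202854416) .dd)) (.ch (nat_lit 28) (.ev (nat_lit 592) (nat_lit 17592202854416)
 .dd)))) (.br (nat_lit 37) (.br (nat_lit 34) (.ch (nat_lit 32) (.ev (nat_lit 592) (nat_lit 32784) (.ev (nat_lit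
 672) (nat_lit 17592186044416) (.ev (nat_lit 685) (nat_lit 16777216) .dd)))) (.ch (nat_lit 34) (.ev (nat_lit
 592) (nat_lit 17592202854416) .dd))) (.br (nat_lit 39) (.ch (nat_lit 37) (.ev (nat_lit 592) (nat_lit
 17592202854416) .dd)) (.ch (nat_lit 39) (.ev (nat_lit 592) (nat_lit 17592202821632) (.fin (nat_lit
 576461302059713078))))))))))))))) (.ch (nat_lit 18) (.ev (nat_lit 52) (nat_lit 159431350288384) (.ev (nat_lit
 84) (nat_lit 2199023390736) (.ev (nat_lit 148) (nat_lit 281474976710656) (.ev (nat_lit 244) (nat_lit 33792)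
 (.ev (nat_lit 496) (nat_lit 4398046511104) (.nd (nat_lit 576) (.br (nat_lit 24) (.br (nat_lit 19) (.br
 (nat_lit 15) (.ch (nat_lit 13) (.ev (nat_lit 592) (nat_lit 138042933280) .dd)) (.br (nat_lit 18) (.ch (nat_lit
 15) (.ev (nat_lit 592) (nat_lit 137506062336) (.ev (nat_lit 672) (nat_lit 536870912) (.ev (nat_lit 685)
 (nat_lit 32) .dd)))) (.ch (nat_lit 18) (.ev (nat_lit 592) (nat_lit 137975824384) (.ev (nat_lit 660) (nat_lit
 67108864) (.ev (nat_lit 669) (nat_lit 32) .dd)))))) (.br (nat_lit 21) (.ch (nat_lit 19) (.ev (nat_lit 592)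
 (nat_lit 138042933280) .dd)) (.br (nat_lit 23) (.ch (nat_lit 21) (.ev (nat_lit 592) (nat_lit 536870944) (.ev
 (nat_lit 660) (nat_lit 67108864) (.ev (nat_lit 669) (nat_lit 137438953472) .dd)))) (.ch (nat_lit 23) (.ev
 (nat_lit 592) (nat_lit 138042933280) .dd))))) (.br (nat_lit 31) (.br (nat_lit 25) (.ch (nat_lit 24) (.ev
 (nat_lit 592) (nat_lit 138042933280) .dd)) (.br (nat_lit 30) (.ch (nat_lit 25) (.ev (nat_lit 592) (nat_lit
 138042933280) .dd)) (.ch (nat_lit 30) (.ev (nat_lit 592) (nat_lit 138042933248) (.ev (nat_lit 605) (nat_lit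
 32) .dd))))) (.br (nat_lit 33) (.br (nat_lit 32) (.ch (nat_lit 31) (.ev (nat_lit 592) (nat_lit 137975824416)
 (.ev (nat_lit 605) (nat_lit 67108864) .dd))) (.ch (nat_lit 32) (.ev (nat_lit 592) (nat_lit 137975824416) (.ev
 (nat_lit 605) (nat_lit 67108864) .dd)))) (.br (nat_lit 39) (.ch (nat_lit 33) (.ev (nat_lit 592) (nat_lit
 603979808) (.ev (nat_lit 605) (nat_lit 137438953472) .dd))) (.ch (nat_lit 39) (.ev (nat_lit 592) (nat_lit
 137975824384) (.ev (nat_lit 832) (nat_lit 67108896) .dd)))))))))))))))) (.br (nat_lit 21) (.br (nat_lit 20)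
 (.ch (nat_lit 19) (.ev (nat_lit 52) (nat_lit 425511016858656) (.ev (nat_lit 84) (nat_lit 137975824384) (.ev
 (nat_lit 148) (nat_lit 2214596608) (.ev (nat_lit 212) (nat_lit 17592186044432) (.nd (nat_lit 576) (.br
 (nat_lit 28) (.br (nat_lit 11) (.br (nat_lit 2) (.ch (nat_lit 0) (.ev (nat_lit 592) (nat_lit 4398046511104)
 (.ev (nat_lit 605) (nat_lit 32768) .dd))) (.ch (nat_lit 2) (.ev (nat_lit 592) (nat_lit 4398046543872) .dd)))
 (.br (nat_lit 20) (.ch (nat_lit 11) (.ev (nat_lit 592) (nat_lit 4398046543872) .dd)) (.br (nat_lit 22) (.ch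
 (nat_lit 20) (.ev (nat_lit 592) (nat_lit 4398046543872) .dd)) (.ch (nat_lit 22) (.ev (nat_lit 592) (nat_lit
 32768) (.ev (nat_lit 605) (nat_lit 4398046511104) .dd)))))) (.br (nat_lit 33) (.br (nat_lit 31) (.ch (nat_lit
 28) (.ev (nat_lit 592) (nat_lit 4398046543872) .dd)) (.br (nat_lit 32) (.ch (nat_lit 31) (.ev (nat_lit 592)
 (nat_lit 4398046543872) .dd)) (.ch (nat_lit 32) (.ev (nat_lit 592) (nat_lit 4398046543872) .dd)))) (.br
 (nat_lit 34) (.ch (nat_lit 33) (.ev (nat_lit 592) (nat_lit 4398046543872) .dd)) (.br (nat_lit 37) (.ch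
 (nat_lit 34) (.ev (nat_lit 592) (nat_lit 4398046543872) .dd)) (.ch (nat_lit 37) (.ev (nat_lit 592) (nat_lit
 4398046543872) .dd)))))))))))) (.ch (nat_lit 20) (.ev (nat_lit 52) (nat_lit 1099511791632) (.ev (nat_lit 84)
 (nat_lit 2147487744) (.ev (nat_lit 116) (nat_lit 281612415665152) (.ev (nat_lit 180) (nat_lit 2199023255552)
 (.nd (nat_lit 576) (.br (nat_lit 20) (.br (nat_lit 12) (.br (nat_lit 8) (.ch (nat_lit 6) (.ev (nat_lit 592)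
 (nat_lit 162728341667872) .dd)) (.br (nat_lit 11) (.ch (nat_lit 8) (.ev (nat_lit 592) (nat_lit
 145135551643680) (.ev (nat_lit 660) (nat_lit 67108864) (.ev (nat_lit 816) (nat_lit 17592722915328) .dd))))
 (.ch (nat_lit 11) (.ev (nat_lit 592) (nat_lit 162728274558976) (.ev (nat_lit 660) (nat_lit 67108864) (.ev
 (nat_lit 669) (nat_lit 32) .dd)))))) (.br (nat_lit 17) (.br (nat_lit 13) (.ch (nat_lit 12) (.ev (nat_lit 592)
 (nat_lit 158330278379552) (.ev (nat_lit 688) (nat_lit 16777216) (.ev (nat_lit 701) (nat_lit 4398046511104)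
 .dd)))) (.ch (nat_lit 13) (.ev (nat_lit 592) (nat_lit 162728274559008) (.ev (nat_lit 605) (nat_lit 67108864)
 .dd)))) (.br (nat_lit 18) (.ch (nat_lit 17) (.ev (nat_lit 592) (nat_lit 140738109112352) (.ev (nat_lit 624)
 (nat_lit 21990232555520) .dd))) (.ch (nat_lit 18) (.ev (nat_lit 592) (nat_lit 145136138846240) (.ev (nat_lit
 672) (nat_lit 16777216) (.ev (nat_lit 685) (nat_lit 17592186044416) .dd))))))) (.br (nat_lit 28) (.br (nat_lit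
 22) (.ch (nat_lit 20) (.ev (nat_lit 592) (nat_lit 162728257781792) (.ev (nat_lit 688) (nat_lit 67108864) (.ev
 (nat_lit 701) (nat_lit 16777216) .dd)))) (.br (nat_lit 23) (.ch (nat_lit 22) (.ev (nat_lit 592) (nat_lit
 21990853312544) (.ev (nat_lit 605) (nat_lit 140737488355328) .dd))) (.ch (nat_lit 23) (.ev (nat_lit 592)
 (nat_lit 140738109112352) (.ev (nat_lit 816) (nat_lit 21990232555520) .dd))))) (.br (nat_lit 31) (.br (nat_lit
 30) (.ch (nat_lit 28) (.ev (nat_lit 592) (nat_lit 162727737688096) (.ev (nat_lit 688) (nat_lit 67108864) (.ev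
 (nat_lit 701) (nat_lit 536870912) .dd)))) (.ch (nat_lit 30) (.ev (nat_lit 592) (nat_lit 162727804796960) (.ev
 (nat_lit 605) (nat_lit 536870912) .dd)))) (.br (nat_lit 33) (.ch (nat_lit 31) (.ev (nat_lit 592) (nat_lit
 162728274559008) (.ev (nat_lit 605) (nat_lit 67108864) .dd))) (.ch (nat_lit 33) (.ev (nat_lit 592) (nat_lit
 17592806801440) (.ev (nat_lit 912) (nat_lit 145135534866432) .dd)))))))))))))) (.br (nat_lit 22) (.ch (nat_lit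
 21) (.ev (nat_lit 52) (nat_lit 21990249337872) (.ev (nat_lit 84) (nat_lit 2147483648) (.ev (nat_lit 96)
 (nat_lit 425649043046432) .dd)))) (.ch (nat_lit 22) (.ev (nat_lit 52) (nat_lit 20892935651344) (.ev (nat_lit
 84) (nat_lit 536870944) (.ev (nat_lit 116) (nat_lit 4398046511104) (.ev (nat_lit 160) (nat_lit
 422349920834560) .dd))))))))) (.br (nat_lit 33) (.br (nat_lit 28) (.br (nat_lit 26) (.ch (nat_lit 25) (.ev
 (nat_lit 52) (nat_lit 301404228947968) (.ev (nat_lit 116) (nat_lit 32) (.ev (nat_lit 148) (nat_lit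
 1099511627776) (.ev (nat_lit 180) (nat_lit 32768) (.ev (nat_lit 244) (nat_lit 16) (.nd (nat_lit 576) (.br
 (nat_lit 24) (.br (nat_lit 17) (.br (nat_lit 12) (.ch (nat_lit 11) (.ev (nat_lit 592) (nat_lit
 145137699259392) .dd)) (.br (nat_lit 13) (.ch (nat_lit 12) (.ev (nat_lit 592) (nat_lit 140739635838976) (.ev
 (nat_lit 660) (nat_lit 16777216) (.ev (nat_lit 688) (nat_lit 4398046511104) (.fin (nat_lit
 576455804496331342)))))) (.ch (nat_lit 13) (.ev (nat_lit 592) (nat_lit 2164392960) (.ev (nat_lit 672) (nat_lit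
 140737488355328) (.ev (nat_lit 685) (nat_lit 4398046511104) .dd)))))) (.br (nat_lit 19) (.ch (nat_lit 17) (.ev
 (nat_lit 592) (nat_lit 140739635971072) (.ev (nat_lit 660) (nat_lit 16777216) (.ev (nat_lit 669) (nat_lit
 4398046511104) .dd)))) (.br (nat_lit 21) (.ch (nat_lit 19) (.ev (nat_lit 592) (nat_lit 145137682351104) (.ev
 (nat_lit 804) (nat_lit 131072) (.ev (nat_lit 813) (nat_lit 16777216) .dd)))) (.ch (nat_lit 21) (.ev (nat_lit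
 592) (nat_lit 4400210903040) (.ev (nat_lit 660) (nat_lit 1024) (.ev (nat_lit 669) (nat_lit 140737488355328)
 .dd))))))) (.br (nat_lit 32) (.br (nat_lit 28) (.ch (nat_lit 24) (.ev (nat_lit 592) (nat_lit 145135551775744)
 (.ev (nat_lit 605) (nat_lit 2147483648) .dd))) (.br (nat_lit 30) (.ch (nat_lit 28) (.ev (nat_lit 592) (nat_lit
 145137699128320) (.ev (nat_lit 605) (nat_lit 131072) .dd))) (.ch (nat_lit 30) (.ev (nat_lit 592) (nat_lit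
 4398063419392) (.ev (nat_lit 660) (nat_lit 140737488356352) (.ev (nat_lit 669) (nat_lit 2147483648) .dd))))))
 (.br (nat_lit 34) (.br (nat_lit 33) (.ch (nat_lit 32) (.ev (nat_lit 592) (nat_lit 145137682481152) (.ev
 (nat_lit 804) (nat_lit 1024) (.ev (nat_lit 813) (nat_lit 16777216) .dd)))) (.ch (nat_lit 33) (.ev (nat_lit
 592) (nat_lit 4400210903040) (.ev (nat_lit 688) (nat_lit 1024) (.ev (nat_lit 701) (nat_lit 140737488355328)
 .dd))))) (.br (nat_lit 39) (.ch (nat_lit 34) (.ev (nat_lit 592) (nat_lit 145137699128320) (.ev (nat_lit 605)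
 (nat_lit 131072) .dd))) (.ch (nat_lit 39) (.ev (nat_lit 592) (nat_lit 140739652748288) (.ev (nat_lit 605)
 (nat_lit 4398046511104) .dd)))))))))))))) (.br (nat_lit 27) (.ch (nat_lit 26) (.ev (nat_lit 52) (nat_lit
 147335094997008) (.ev (nat_lit 84) (nat_lit 281475060597760) (.ev (nat_lit 116) (nat_lit 32) (.ev (nat_lit
 180) (nat_lit 17729624997888) (.ev (nat_lit 212) (nat_lit 2147483648) (.ev (nat_lit 244) (nat_lit 131072) (.nd
 (nat_lit 576) (.br (nat_lit 23) (.br (nat_lit 17) (.br (nat_lit 2) (.ch (nat_lit 0) (.ev (nat_lit 592)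
 (nat_lit 1099511627776) (.ev (nat_lit 605) (nat_lit 32768) .dd))) (.br (nat_lit 6) (.ch (nat_lit 2) (.ev
 (nat_lit 592) (nat_lit 1099511660544) .dd)) (.ch (nat_lit 6) (.ev (nat_lit 592) (nat_lit 1099511660544)
 .dd)))) (.br (nat_lit 19) (.ch (nat_lit 17) (.ev (nat_lit 592) (nat_lit 1099511660544) .dd)) (.br (nat_lit 22)
 (.ch (nat_lit 19) (.ev (nat_lit 592) (nat_lit 1099511660544) .dd)) (.ch (nat_lit 22) (.ev (nat_lit 592)
 (nat_lit 32768) (.ev (nat_lit 605) (nat_lit 1099511627776) .dd)))))) (.br (nat_lit 30) (.br (nat_lit 24) (.ch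
 (nat_lit 23) (.ev (nat_lit 592) (nat_lit 32768) (.ev (nat_lit 605) (nat_lit 1099511627776) .dd))) (.br
 (nat_lit 28) (.ch (nat_lit 24) (.ev (nat_lit 592) (nat_lit 1099511660544) .dd)) (.ch (nat_lit 28) (.ev
 (nat_lit 592) (nat_lit 1099511660544) .dd)))) (.br (nat_lit 34) (.br (nat_lit 32) (.ch (nat_lit 30) (.ev
 (nat_lit 592) (nat_lit 1099511660544) .dd)) (.ch (nat_lit 32) (.ev (nat_lit 592) (nat_lit 1099511660544)
 .dd))) (.br (nat_lit 39) (.ch (nat_lit 34) (.ev (nat_lit 592) (nat_lit 1099511660544) .dd)) (.ch (nat_lit 39)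
 (.ev (nat_lit 592) (nat_lit 1099511627776) (.ev (nat_lit 605) (nat_lit 32768) .dd))))))))))))))) (.ch (nat_lit
 27) (.ev (nat_lit 52) (nat_lit 288210106192928) (.ev (nat_lit 84) (nat_lit 17592186044416) (.ev (nat_lit 180)
 (nat_lit 16) (.ev (nat_lit 192) (nat_lit 141839147630592) .dd))))))) (.br (nat_lit 31) (.br (nat_lit 29) (.ch
 (nat_lit 28) (.ev (nat_lit 52) (nat_lit 422352051667968) (.ev (nat_lit 116) (nat_lit 21990769426432) (.ev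
 (nat_lit 148) (nat_lit 67108864) (.nd (nat_lit 576) (.br (nat_lit 19) (.br (nat_lit 12) (.br (nat_lit 2) (.ch
 (nat_lit 0) (.ev (nat_lit 592) (nat_lit 1099528409136) (.ev (nat_lit 605) (nat_lit 2199023255552) .dd))) (.br
 (nat_lit 8) (.ch (nat_lit 2) (.ev (nat_lit 592) (nat_lit 3298551660592) (.ev (nat_lit 605) (nat_lit 4096)
 .dd))) (.ch (nat_lit 8) (.ev (nat_lit 592) (nat_lit 16781328) (.ev (nat_lit 704) (nat_lit 1099511627808) (.ev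
 (nat_lit 717) (nat_lit 2199023255552) .dd)))))) (.br (nat_lit 17) (.ch (nat_lit 12) (.ev (nat_lit 592)
 (nat_lit 3298551660592) (.ev (nat_lit 605) (nat_lit 4096) .dd))) (.br (nat_lit 18) (.ch (nat_lit 17) (.ev
 (nat_lit 592) (nat_lit 3298551660592) (.ev (nat_lit 605) (nat_lit 4096) .dd))) (.ch (nat_lit 18) (.ev (nat_lit
 592) (nat_lit 3298534887472) (.ev (nat_lit 605) (nat_lit 16777216) .dd)))))) (.br (nat_lit 30) (.br (nat_lit
 20) (.ch (nat_lit 19) (.ev (nat_lit 592) (nat_lit 3298551664688) .dd)) (.br (nat_lit 25) (.ch (nat_lit 20)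
 (.ev (nat_lit 592) (nat_lit 1099528409120) (.ev (nat_lit 660) (nat_lit 16) (.ev (nat_lit 669) (nat_lit
 2199023255552) .dd)))) (.ch (nat_lit 25) (.ev (nat_lit 592) (nat_lit 1099528409136) (.ev (nat_lit 605)
 (nat_lit 2199023255552) .dd))))) (.br (nat_lit 37) (.br (nat_lit 34) (.ch (nat_lit 30) (.ev (nat_lit 592)
 (nat_lit 3298534887440) (.ev (nat_lit 660) (nat_lit 16777216) (.ev (nat_lit 669) (nat_lit 32) .dd)))) (.ch
 (nat_lit 34) (.ev (nat_lit 592) (nat_lit 3298551660592) (.ev (nat_lit 605) (nat_lit 4096) .dd)))) (.br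
 (nat_lit 39) (.ch (nat_lit 37) (.ev (nat_lit 592) (nat_lit 3298551664688) .dd)) (.ch (nat_lit 39) (.ev
 (nat_lit 592) (nat_lit 3298551660576) (.ev (nat_lit 660) (nat_lit 16) (.ev (nat_lit 669) (nat_lit 4096)
 .dd))))))))))))) (.ch (nat_lit 29) (.ev (nat_lit 52) (nat_lit 140190417920) (.ev (nat_lit 64) (nat_lit
 447501249450032) .dd)))) (.br (nat_lit 32) (.ch (nat_lit 31) (.ev (nat_lit 52) (nat_lit 282714158694400) (.ev
 (nat_lit 84) (nat_lit 4398046511104) (.ev (nat_lit 116) (nat_lit 17592186044416) (.ev (nat_lit 148) (nat_lit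
 536870912) (.ev (nat_lit 180) (nat_lit 140737488486416) (.ev (nat_lit 308) (nat_lit 1024) (.nd (nat_lit 576)
 (.br (nat_lit 21) (.br (nat_lit 13) (.br (nat_lit 8) (.ch (nat_lit 2) (.ev (nat_lit 980) (nat_lit 4096) (.ev
 (nat_lit 1060) (nat_lit 32) (.ev (nat_lit 1069) (nat_lit 2199023255552) .dd)))) (.br (nat_lit 11) (.ch
 (nat_lit 8) (.ev (nat_lit 592) (nat_lit 2199023259680) .dd)) (.ch (nat_lit 11) (.ev (nat_lit 932) (nat_lit 32)
 (.ev (nat_lit 1188) (nat_lit 2199023255552) (.ev (nat_lit 1197) (nat_lit 4096) .dd)))))) (.br (nat_lit 18)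
 (.ch (nat_lit 13) (.ev (nat_lit 592) (nat_lit 32) (.ev (nat_lit 1156) (nat_lit 2199023255552) (.ev (nat_lit
 1165) (nat_lit 4096) .dd)))) (.br (nat_lit 20) (.ch (nat_lit 18) (.ev (nat_lit 592) (nat_lit 2199023259680)
 .dd)) (.ch (nat_lit 20) (.ev (nat_lit 592) (nat_lit 2199023259648) (.ev (nat_lit 605) (nat_lit 32) .dd))))))
 (.br (nat_lit 31) (.br (nat_lit 22) (.ch (nat_lit 21) (.ev (nat_lit 592) (nat_lit 2199023259680) .dd)) (.br
 (nat_lit 25) (.ch (nat_lit 22) (.ev (nat_lit 592) (nat_lit 32) (.ev (nat_lit 1024) (nat_lit 4096) (.ev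
 (nat_lit 1037) (nat_lit 2199023255552) .dd)))) (.ch (nat_lit 25) (.ev (nat_lit 592) (nat_lit 2199023259680)
 .dd)))) (.br (nat_lit 37) (.br (nat_lit 32) (.ch (nat_lit 31) (.ev (nat_lit 592) (nat_lit 2199023259680) .dd))
 (.ch (nat_lit 32) (.ev (nat_lit 592) (nat_lit 2199023259680) .dd))) (.br (nat_lit 39) (.ch (nat_lit 37) (.ev
 (nat_lit 592) (nat_lit 2199023259680) .dd)) (.ch (nat_lit 39) (.ev (nat_lit 592) (nat_lit 2199023259648) (.ev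
 (nat_lit 605) (nat_lit 32) .dd))))))))))))))) (.ch (nat_lit 32) (.ev (nat_lit 52) (nat_lit 7699265881104) (.ev
 (nat_lit 84) (nat_lit 4096) (.ev (nat_lit 116) (nat_lit 32) (.ev (nat_lit 160) (nat_lit 439942173982720)
 .dd)))))))) (.br (nat_lit 42) (.br (nat_lit 36) (.br (nat_lit 35) (.ch (nat_lit 33) (.ev (nat_lit 52) (nat_lit
 17594954449952) (.ev (nat_lit 116) (nat_lit 4398046511104) (.ev (nat_lit 148) (nat_lit 1099511627776) (.ev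
 (nat_lit 180) (nat_lit 4096) (.ev (nat_lit 276) (nat_lit 137438953472) (.nd (nat_lit 576) (.br (nat_lit 21)
 (.br (nat_lit 8) (.br (nat_lit 2) (.ch (nat_lit 0) (.ev (nat_lit 592) (nat_lit 283673999966224) (.ev (nat_lit
 605) (nat_lit 140737488355328) .dd))) (.br (nat_lit 6) (.ch (nat_lit 2) (.ev (nat_lit 592) (nat_lit
 283673999966224) (.ev (nat_lit 605) (nat_lit 140737488355328) .dd))) (.ch (nat_lit 6) (.ev (nat_lit 592)
 (nat_lit 424411488321536) (.ev (nat_lit 605) (nat_lit 16) .dd))))) (.br (nat_lit 15) (.ch (nat_lit 8) (.ev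
 (nat_lit 592) (nat_lit 142936511610896) (.ev (nat_lit 605) (nat_lit 281474976710656) .dd))) (.br (nat_lit 17)
 (.ch (nat_lit 15) (.ev (nat_lit 592) (nat_lit 424411488321552) .dd)) (.ch (nat_lit 17) (.ev (nat_lit 592)
 (nat_lit 422212465066000) (.ev (nat_lit 605) (nat_lit 2199023255552) .dd)))))) (.br (nat_lit 25) (.br (nat_lit
 22) (.ch (nat_lit 21) (.ev (nat_lit 592) (nat_lit 424411488321552) .dd)) (.br (nat_lit 24) (.ch (nat_lit 22)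
 (.ev (nat_lit 592) (nat_lit 281474976710672) (.ev (nat_lit 660) (nat_lit 2199023255552) (.ev (nat_lit 669)
 (nat_lit 140737488355328) .dd)))) (.ch (nat_lit 24) (.ev (nat_lit 592) (nat_lit 140737488355344) (.ev (nat_lit
 704) (nat_lit 281474976710656) (.ev (nat_lit 717) (nat_lit 2199023255552) .dd)))))) (.br (nat_lit 37) (.br
 (nat_lit 31) (.ch (nat_lit 25) (.ev (nat_lit 592) (nat_lit 140737488355344) (.ev (nat_lit 896) (nat_lit
 283673999966208) .dd))) (.ch (nat_lit 31) (.ev (nat_lit 592) (nat_lit 422212465066000) (.ev (nat_lit 605)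
 (nat_lit 2199023255552) .dd)))) (.br (nat_lit 39) (.ch (nat_lit 37) (.ev (nat_lit 592) (nat_lit
 142936511610896) (.ev (nat_lit 605) (nat_lit 281474976710656) .dd))) (.ch (nat_lit 39) (.ev (nat_lit 592)
 (nat_lit 424411488321536) (.ev (nat_lit 605) (nat_lit 16) .dd)))))))))))))) (.ch (nat_lit 35) (.ev (nat_lit
 52) (nat_lit 284774065246240) (.ev (nat_lit 84) (nat_lit 4398046642176) (.ev (nat_lit 116) (nat_lit
 17592186044416) (.ev (nat_lit 160) (nat_lit 140877141935120) .dd)))))) (.br (nat_lit 38) (.ch (nat_lit 36)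
 (.ev (nat_lit 52) (nat_lit 25290998812672) (.ev (nat_lit 84) (nat_lit 536870912) (.ev (nat_lit 116) (nat_lit
 281474976711680) (.ev (nat_lit 148) (nat_lit 140737488355328) (.ev (nat_lit 224) (nat_lit 137439117360)
 .dd)))))) (.ch (nat_lit 38) (.ev (nat_lit 52) (nat_lit 427850146512928) (.ev (nat_lit 84) (nat_lit
 17592186077184) (.ev (nat_lit 180) (nat_lit 16777216) (.ev (nat_lit 212) (nat_lit 16) (.nd (nat_lit 576) (.br
 (nat_lit 22) (.br (nat_lit 13) (.br (nat_lit 2) (.ch (nat_lit 0) (.ev (nat_lit 592) (nat_lit 2199090500608)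
 .dd)) (.br (nat_lit 12) (.ch (nat_lit 2) (.ev (nat_lit 592) (nat_lit 67245056) (.ev (nat_lit 605) (nat_lit
 2199023255552) .dd))) (.ch (nat_lit 12) (.ev (nat_lit 592) (nat_lit 2199090364416) (.ev (nat_lit 660) (nat_lit
 4096) (.fin (nat_lit 576466799625191986))))))) (.br (nat_lit 19) (.br (nat_lit 15) (.ch (nat_lit 13) (.ev
 (nat_lit 592) (nat_lit 2199023391744) (.ev (nat_lit 605) (nat_lit 67108864) .dd))) (.ch (nat_lit 15) (.ev
 (nat_lit 592) (nat_lit 2199090500608) .dd))) (.br (nat_lit 21) (.ch (nat_lit 19) (.ev (nat_lit 592) (nat_lit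
 2199090500608) .dd)) (.ch (nat_lit 21) (.ev (nat_lit 592) (nat_lit 136192) (.ev (nat_lit 660) (nat_lit
 67108864) (.ev (nat_lit 669) (nat_lit 2199023255552) .dd))))))) (.br (nat_lit 32) (.br (nat_lit 24) (.ch
 (nat_lit 22) (.ev (nat_lit 592) (nat_lit 67244032) (.ev (nat_lit 660) (nat_lit 1024) (.ev (nat_lit 669)
 (nat_lit 2199023255552) .dd)))) (.br (nat_lit 25) (.ch (nat_lit 24) (.ev (nat_lit 592) (nat_lit 136192) (.ev
 (nat_lit 688) (nat_lit 67108864) (.ev (nat_lit 701) (nat_lit 2199023255552) .dd)))) (.ch (nat_lit 25) (.ev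
 (nat_lit 592) (nat_lit 67244032) (.ev (nat_lit 768) (nat_lit 2199023255552) (.ev (nat_lit 781) (nat_lit 1024)
 .dd)))))) (.br (nat_lit 37) (.br (nat_lit 34) (.ch (nat_lit 32) (.ev (nat_lit 592) (nat_lit 2199023387648)
 (.ev (nat_lit 660) (nat_lit 4096) (.ev (nat_lit 669) (nat_lit 67108864) .dd)))) (.ch (nat_lit 34) (.ev
 (nat_lit 592) (nat_lit 2199023391744) (.ev (nat_lit 605) (nat_lit 67108864) .dd)))) (.br (nat_lit 39) (.ch
 (nat_lit 37) (.ev (nat_lit 592) (nat_lit 2199090500608) .dd)) (.ch (nat_lit 39) (.ev (nat_lit 592) (nat_lit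
 132096) (.ev (nat_lit 688) (nat_lit 2199023255552) (.ev (nat_lit 804) (nat_lit 4096) (.ev (nat_lit 813)
 (nat_lit 67108864) .dd))))))))))))))))) (.br (nat_lit 45) (.br (nat_lit 44) (.ch (nat_lit 42) (.ev (nat_lit
 52) (nat_lit 147474144592912) (.ev (nat_lit 84) (nat_lit 16777216) (.ev (nat_lit 128) (nat_lit
 300167278497824) .dd)))) (.ch (nat_lit 44) (.ev (nat_lit 52) (nat_lit 147472064189456) (.ev (nat_lit 84)
 (nat_lit 281474976710656) (.ev (nat_lit 116) (nat_lit 2164260864) (.ev (nat_lit 192) (nat_lit 18692234706976)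
 .dd)))))) (.br (nat_lit 46) (.ch (nat_lit 45) (.ev (nat_lit 52) (nat_lit 18692234706976) (.ev (nat_lit 116)
 (nat_lit 281475043819536) (.ev (nat_lit 148) (nat_lit 4398046511104) (.nd (nat_lit 576) (.br (nat_lit 23) (.br
 (nat_lit 19) (.br (nat_lit 11) (.ch (nat_lit 6) (.ev (nat_lit 592) (nat_lit 143076114829312) (.ev (nat_lit
 605) (nat_lit 1024) .dd))) (.br (nat_lit 17) (.ch (nat_lit 11) (.ev (nat_lit 592) (nat_lit 2201187521536) (.ev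
 (nat_lit 660) (nat_lit 137438953472) (.ev (nat_lit 669) (nat_lit 140737488355328) .dd)))) (.ch (nat_lit 17)
 (.ev (nat_lit 592) (nat_lit 143076098049024) (.ev (nat_lit 736) (nat_lit 4096) (.ev (nat_lit 749) (nat_lit
 16777216) .dd)))))) (.br (nat_lit 21) (.br (nat_lit 20) (.ch (nat_lit 19) (.ev (nat_lit 592) (nat_lit
 143076114830336) .dd)) (.ch (nat_lit 20) (.ev (nat_lit 592) (nat_lit 140877074797568) (.ev (nat_lit 672)
 (nat_lit 2199023255552) (.ev (nat_lit 685) (nat_lit 16777216) .dd))))) (.br (nat_lit 22) (.ch (nat_lit 21)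
 (.ev (nat_lit 592) (nat_lit 140737488360448) (.ev (nat_lit 660) (nat_lit 137438953472) (.ev (nat_lit 672)
 (nat_lit 16777216) (.ev (nat_lit 688) (nat_lit 2147483648) (.ev (nat_lit 701) (nat_lit 2199023255552)
 .dd)))))) (.ch (nat_lit 22) (.ev (nat_lit 592) (nat_lit 142938675872768) (.ev (nat_lit 660) (nat_lit 4096)
 (.ev (nat_lit 669) (nat_lit 137438953472) .dd))))))) (.br (nat_lit 31) (.br (nat_lit 24) (.ch (nat_lit 23)
 (.ev (nat_lit 592) (nat_lit 143076114830336) .dd)) (.br (nat_lit 30) (.ch (nat_lit 24) (.ev (nat_lit 592)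
 (nat_lit 143076114826240) (.ev (nat_lit 605) (nat_lit 4096) .dd))) (.ch (nat_lit 30) (.ev (nat_lit 592)
 (nat_lit 143073967342592) (.ev (nat_lit 704) (nat_lit 2147483648) (.ev (nat_lit 717) (nat_lit 4096) .dd))))))
 (.br (nat_lit 37) (.br (nat_lit 32) (.ch (nat_lit 31) (.ev (nat_lit 592) (nat_lit 142938675875840) (.ev
 (nat_lit 660) (nat_lit 137438953472) (.ev (nat_lit 669) (nat_lit 1024) .dd)))) (.ch (nat_lit 32) (.ev (nat_lit
 592) (nat_lit 142938675872768) (.ev (nat_lit 688) (nat_lit 137438953472) (.ev (nat_lit 701) (nat_lit 4096)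
 .dd))))) (.br (nat_lit 39) (.ch (nat_lit 37) (.ev (nat_lit 592) (nat_lit 143073967345664) (.ev (nat_lit 608)
 (nat_lit 1024) (.ev (nat_lit 621) (nat_lit 2147483648) .dd)))) (.ch (nat_lit 39) (.ev (nat_lit 592) (nat_lit
 140739652617216) (.ev (nat_lit 672) (nat_lit 2199023255552) (.ev (nat_lit 688) (nat_lit 4096) (.ev (nat_lit
 701) (nat_lit 137438953472) .dd)))))))))))))) (.ch (nat_lit 46) (.ev (nat_lit 52) (nat_lit 439806798627856)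
 (.ev (nat_lit 84) (nat_lit 16777216) (.ev (nat_lit 128) (nat_lit 7834624462880) .dd)))))))))))

/-- The trie. -/
noncomputable def T : Tr := .nd (nat_lit 1000000) (.br (nat_lit 16) (.br (nat_lit 7) (.br (nat_lit 3) (.br
 (nat_lit 1) (.ch (nat_lit 0) (.ev (nat_lit 0) (nat_lit 9007199254740991) .dd)) (.br (nat_lit 2) (.ch (nat_lit
 1) T1) (.ch (nat_lit 2) (.ev (nat_lit 0) (nat_lit 9007199254740991) .dd)))) (.br (nat_lit 4) (.ch (nat_lit 3)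
 (.ev (nat_lit 0) (nat_lit 9007199254740991) .dd)) (.br (nat_lit 6) (.ch (nat_lit 4) T4) (.ch (nat_lit 6)
 T6)))) (.br (nat_lit 11) (.br (nat_lit 9) (.ch (nat_lit 7) T7) (.br (nat_lit 10) (.ch (nat_lit 9) T9) (.ch
 (nat_lit 10) T10))) (.br (nat_lit 14) (.ch (nat_lit 11) (.ev (nat_lit 0) (nat_lit 9007199254740991) .dd)) (.br
 (nat_lit 15) (.ch (nat_lit 14) (.ev (nat_lit 0) (nat_lit 9007199254740991) .dd)) (.ch (nat_lit 15) (.ev
 (nat_lit 0) (nat_lit 9007199254740991) .dd)))))) (.br (nat_lit 27) (.br (nat_lit 20) (.br (nat_lit 17) (.ch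
 (nat_lit 16) (.ev (nat_lit 0) (nat_lit 9007199254740991) .dd)) (.br (nat_lit 19) (.ch (nat_lit 17) T17) (.ch
 (nat_lit 19) (.ev (nat_lit 0) (nat_lit 9007199254740991) .dd)))) (.br (nat_lit 23) (.ch (nat_lit 20) (.ev
 (nat_lit 0) (nat_lit 9007199254740991) .dd)) (.br (nat_lit 24) (.ch (nat_lit 23) (.ev (nat_lit 0) (nat_lit
 9007199254740991) .dd)) (.ch (nat_lit 24) (.ev (nat_lit 0) (nat_lit 9007199254740991) .dd))))) (.br (nat_lit
 32) (.br (nat_lit 28) (.ch (nat_lit 27) (.ev (nat_lit 0) (nat_lit 9007199254740991) .dd)) (.br (nat_lit 29)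
 (.ch (nat_lit 28) (.ev (nat_lit 0) (nat_lit 9007199254740991) .dd)) (.ch (nat_lit 29) (.ev (nat_lit 0)
 (nat_lit 9007199254740991) .dd)))) (.br (nat_lit 40) (.ch (nat_lit 32) (.ev (nat_lit 0) (nat_lit
 9007199254740991) .dd)) (.br (nat_lit 41) (.ch (nat_lit 40) (.ev (nat_lit 0) (nat_lit 9007199254740991) .dd))
 (.ch (nat_lit 41) (.ev (nat_lit 0) (nat_lit 9007199254740991) .dd)))))))

/-- The possible values. -/
noncomputable def oks : List ℕ := [7, 202, 679, 706]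

/-- The parameters. -/
noncomputable def S : Pr := ⟨fun i l e => lget mz (lget [] (lget [] tabs i) l) e, oks, [(nat_lit 0), (nat_lit
 1), (nat_lit 0)], T, (nat_lit 9007199254740991), (nat_lit 2287041271849359), (nat_lit 53), [(nat_lit
 3303796230157), (nat_lit 12800101590481)], [(nat_lit 1849), (nat_lit 2209)]⟩

/-- Nothing known. -/
noncomputable def cs0 : Cs := (.cons (nat_lit 43) (nat_lit 0) (nat_lit 1) (.cons (nat_lit 47) (nat_lit 0) (nat_lit 1) .nil))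

theorem part_1 : part S cs0 (nat_lit 1) = true := by decide +kernel

theorem part_4 : part S cs0 (nat_lit 4) = true := by decide +kernel

theorem part_6 : part S cs0 (nat_lit 6) = true := by decide +kernel

theorem part_7 : part S cs0 (nat_lit 7) = true := by decide +kernel

theorem part_9 : part S cs0 (nat_lit 9) = true := by decide +kernel

theorem part_10 : part S cs0 (nat_lit 10) = true := by decide +kernel

theorem part_17 : part S cs0 (nat_lit 17) = true := by decide +kernel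

/-- Data of a prime. -/
noncomputable def D0 : PD := ⟨(nat_lit 43), (nat_lit 2), (989, 1, 17), (1652, 774, 636), (172, 5, 130)⟩

theorem D0_ok : D0.Ok := pdb_sound (s := 1) (C := ⟨⟨43, -38, -44, 43, 38, 1, 0, 9, -19⟩, (5, 38, 9)⟩) (by show Nat.Prime 43; norm_num) (by decide +kernel)

/-- Lines of the first type. -/
noncomputable def Cl0 : List C1 := [⟨⟨43, 38, -44, 43, -38, 1, 0, -9, -19⟩, (42, 1, 24)⟩,
  ⟨⟨0, 0, 0, 0, 0, 0, 0, 0, 0⟩, (0, 0, 0)⟩,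
  ⟨⟨57, -18, -16, -17, -58, 1, 4, 1, -23⟩, (41, 27, 24)⟩,
  ⟨⟨7, -38, -56, -33, -42, 49, -16, 7, -1⟩, (28, 40, 22)⟩,
  ⟨⟨0, 0, 0, 0, 0, 0, 0, 0, 0⟩, (0, 0, 0)⟩,
  ⟨⟨0, 0, 0, 0, 0, 0, 0, 0, 0⟩, (0, 0, 0)⟩,
  ⟨⟨0, 0, 0, 0, 0, 0, 0, 0, 0⟩, (0, 0, 0)⟩,
  ⟨⟨0, 0, 0, 0, 0, 0, 0, 0, 0⟩, (0, 0, 0)⟩,
  ⟨⟨0, 0, 0, 0, 0, 0, 0, 0, 0⟩, (0, 0, 0)⟩,
  ⟨⟨0, 0, 0, 0, 0, 0, 0, 0, 0⟩, (0, 0, 0)⟩,
  ⟨⟨0, 0, 0, 0, 0, 0, 0, 0, 0⟩, (0, 0, 0)⟩,
  ⟨⟨27, -18, -71, -53, -22, 4, -4, 17, -7⟩, (6, 36, 23)⟩,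
  ⟨⟨0, 0, 0, 0, 0, 0, 0, 0, 0⟩, (0, 0, 0)⟩,
  ⟨⟨0, 0, 0, 0, 0, 0, 0, 0, 0⟩, (0, 0, 0)⟩,
  ⟨⟨-7, -2, -64, -47, -38, 31, 12, -15, -7⟩, (37, 15, 41)⟩,
  ⟨⟨-7, 2, -64, -47, 38, 31, 12, 15, -7⟩, (3, 14, 1)⟩,
  ⟨⟨-7, 38, -49, 33, 42, 16, 16, -7, -17⟩, (27, 14, 12)⟩,
  ⟨⟨0, 0, 0, 0, 0, 0, 0, 0, 0⟩, (0, 0, 0)⟩,
  ⟨⟨0, 0, 0, 0, 0, 0, 0, 0, 0⟩, (0, 0, 0)⟩,
  ⟨⟨57, 18, -16, -17, 58, 1, 4, -1, -23⟩, (36, 30, 41)⟩,
  ⟨⟨53, 22, -49, 27, -18, 44, 4, -17, -11⟩, (6, 42, 11)⟩,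
  ⟨⟨0, 0, 0, 0, 0, 0, 0, 0, 0⟩, (0, 0, 0)⟩,
  ⟨⟨0, 0, 0, 0, 0, 0, 0, 0, 0⟩, (0, 0, 0)⟩,
  ⟨⟨27, 18, -71, -53, 22, 4, -4, -17, -7⟩, (1, 6, 11)⟩,
  ⟨⟨57, -18, -41, -17, -58, 16, -4, -1, -19⟩, (7, 13, 41)⟩,
  ⟨⟨0, 0, 0, 0, 0, 0, 0, 0, 0⟩, (0, 0, 0)⟩,
  ⟨⟨0, 0, 0, 0, 0, 0, 0, 0, 0⟩, (0, 0, 0)⟩,
  ⟨⟨7, 38, -56, -33, 42, 49, -16, -7, -1⟩, (27, 14, 12)⟩,
  ⟨⟨7, 2, -71, -47, -38, 16, 12, -15, -5⟩, (3, 29, 42)⟩,
  ⟨⟨7, -2, -71, -47, 38, 16, 12, 15, -5⟩, (37, 28, 2)⟩,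
  ⟨⟨0, 0, 0, 0, 0, 0, 0, 0, 0⟩, (0, 0, 0)⟩,
  ⟨⟨0, 0, 0, 0, 0, 0, 0, 0, 0⟩, (0, 0, 0)⟩,
  ⟨⟨53, -22, -49, 27, 18, 44, 4, 17, -11⟩, (36, 37, 23)⟩,
  ⟨⟨0, 0, 0, 0, 0, 0, 0, 0, 0⟩, (0, 0, 0)⟩,
  ⟨⟨0, 0, 0, 0, 0, 0, 0, 0, 0⟩, (0, 0, 0)⟩,
  ⟨⟨0, 0, 0, 0, 0, 0, 0, 0, 0⟩, (0, 0, 0)⟩,
  ⟨⟨0, 0, 0, 0, 0, 0, 0, 0, 0⟩, (0, 0, 0)⟩,
  ⟨⟨0, 0, 0, 0, 0, 0, 0, 0, 0⟩, (0, 0, 0)⟩,
  ⟨⟨0, 0, 0, 0, 0, 0, 0, 0, 0⟩, (0, 0, 0)⟩,
  ⟨⟨0, 0, 0, 0, 0, 0, 0, 0, 0⟩, (0, 0, 0)⟩,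
  ⟨⟨-7, -38, -49, 33, -42, 16, 16, 7, -17⟩, (28, 40, 22)⟩,
  ⟨⟨57, 18, -41, -17, 58, 16, -4, 1, -19⟩, (2, 16, 24)⟩,
  ⟨⟨0, 0, 0, 0, 0, 0, 0, 0, 0⟩, (0, 0, 0)⟩]

/-- Data of a prime. -/
noncomputable def D1 : PD := ⟨(nat_lit 47), (nat_lit 2), (1034, 1, 9), (105, 517, 2039), (987, 5, 190)⟩

theorem D1_ok : D1.Ok := pdb_sound (s := 1) (C := ⟨⟨47, 2, -76, 47, -2, 29, 0, -21, -1⟩, (2, 45, 26)⟩) (by show Nat.Prime 47; norm_num) (by decide +kernel)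

/-- Lines of the first type. -/
noncomputable def Cl1 : List C1 := [⟨⟨47, -2, -76, 47, 2, 29, 0, 21, -1⟩, (9, 38, 23)⟩,
  ⟨⟨0, 0, 0, 0, 0, 0, 0, 0, 0⟩, (0, 0, 0)⟩,
  ⟨⟨0, 0, 0, 0, 0, 0, 0, 0, 0⟩, (0, 0, 0)⟩,
  ⟨⟨0, 0, 0, 0, 0, 0, 0, 0, 0⟩, (0, 0, 0)⟩,
  ⟨⟨17, 22, -76, -63, 18, 19, -4, -19, -7⟩, (10, 21, 17)⟩,
  ⟨⟨0, 0, 0, 0, 0, 0, 0, 0, 0⟩, (0, 0, 0)⟩,
  ⟨⟨57, -18, -61, -23, -62, 4, -8, 5, -17⟩, (3, 26, 7)⟩,
  ⟨⟨57, 18, -61, -23, 62, 4, -8, -5, -17⟩, (16, 29, 6)⟩,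
  ⟨⟨53, -22, -64, -13, -62, 29, -12, -3, -13⟩, (46, 10, 2)⟩,
  ⟨⟨0, 0, 0, 0, 0, 0, 0, 0, 0⟩, (0, 0, 0)⟩,
  ⟨⟨43, -38, -59, 3, -42, 56, -16, -11, -1⟩, (35, 9, 46)⟩,
  ⟨⟨0, 0, 0, 0, 0, 0, 0, 0, 0⟩, (0, 0, 0)⟩,
  ⟨⟨0, 0, 0, 0, 0, 0, 0, 0, 0⟩, (0, 0, 0)⟩,
  ⟨⟨-17, -22, -59, -63, 18, 44, 4, 19, -11⟩, (15, 39, 2)⟩,
  ⟨⟨0, 0, 0, 0, 0, 0, 0, 0, 0⟩, (0, 0, 0)⟩,
  ⟨⟨0, 0, 0, 0, 0, 0, 0, 0, 0⟩, (0, 0, 0)⟩,
  ⟨⟨0, 0, 0, 0, 0, 0, 0, 0, 0⟩, (0, 0, 0)⟩,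
  ⟨⟨53, 22, -64, -13, 62, 29, -12, 3, -13⟩, (41, 13, 12)⟩,
  ⟨⟨0, 0, 0, 0, 0, 0, 0, 0, 0⟩, (0, 0, 0)⟩,
  ⟨⟨0, 0, 0, 0, 0, 0, 0, 0, 0⟩, (0, 0, 0)⟩,
  ⟨⟨0, 0, 0, 0, 0, 0, 0, 0, 0⟩, (0, 0, 0)⟩,
  ⟨⟨0, 0, 0, 0, 0, 0, 0, 0, 0⟩, (0, 0, 0)⟩,
  ⟨⟨0, 0, 0, 0, 0, 0, 0, 0, 0⟩, (0, 0, 0)⟩,
  ⟨⟨43, 38, -59, 3, 42, 56, -16, 11, -1⟩, (5, 8, 20)⟩,
  ⟨⟨3, -42, -59, 43, -38, 16, 16, 11, -17⟩, (39, 42, 20)⟩,
  ⟨⟨0, 0, 0, 0, 0, 0, 0, 0, 0⟩, (0, 0, 0)⟩,
  ⟨⟨0, 0, 0, 0, 0, 0, 0, 0, 0⟩, (0, 0, 0)⟩,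
  ⟨⟨0, 0, 0, 0, 0, 0, 0, 0, 0⟩, (0, 0, 0)⟩,
  ⟨⟨0, 0, 0, 0, 0, 0, 0, 0, 0⟩, (0, 0, 0)⟩,
  ⟨⟨0, 0, 0, 0, 0, 0, 0, 0, 0⟩, (0, 0, 0)⟩,
  ⟨⟨-13, -62, -16, 53, -22, 11, 12, 3, -25⟩, (34, 6, 12)⟩,
  ⟨⟨0, 0, 0, 0, 0, 0, 0, 0, 0⟩, (0, 0, 0)⟩,
  ⟨⟨0, 0, 0, 0, 0, 0, 0, 0, 0⟩, (0, 0, 0)⟩,
  ⟨⟨0, 0, 0, 0, 0, 0, 0, 0, 0⟩, (0, 0, 0)⟩,
  ⟨⟨17, -22, -76, -63, -18, 19, -4, 19, -7⟩, (15, 8, 2)⟩,
  ⟨⟨0, 0, 0, 0, 0, 0, 0, 0, 0⟩, (0, 0, 0)⟩,
  ⟨⟨0, 0, 0, 0, 0, 0, 0, 0, 0⟩, (0, 0, 0)⟩,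
  ⟨⟨3, 42, -59, 43, 38, 16, 16, -11, -17⟩, (38, 12, 46)⟩,
  ⟨⟨0, 0, 0, 0, 0, 0, 0, 0, 0⟩, (0, 0, 0)⟩,
  ⟨⟨-13, 62, -16, 53, 22, 11, 12, -3, -25⟩, (37, 1, 2)⟩,
  ⟨⟨23, 62, -19, 57, -18, 4, 8, -5, -25⟩, (29, 31, 6)⟩,
  ⟨⟨23, -62, -19, 57, 18, 4, 8, 5, -25⟩, (26, 44, 7)⟩,
  ⟨⟨0, 0, 0, 0, 0, 0, 0, 0, 0⟩, (0, 0, 0)⟩,
  ⟨⟨-17, 22, -59, -63, -18, 44, 4, -19, -11⟩, (10, 26, 17)⟩,
  ⟨⟨0, 0, 0, 0, 0, 0, 0, 0, 0⟩, (0, 0, 0)⟩,
  ⟨⟨0, 0, 0, 0, 0, 0, 0, 0, 0⟩, (0, 0, 0)⟩,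
  ⟨⟨0, 0, 0, 0, 0, 0, 0, 0, 0⟩, (0, 0, 0)⟩]

/-- Data of a prime. -/
noncomputable def Dm : PD := ⟨(nat_lit 53), (nat_lit 2), (2545, 8, 14), (2610, 800, 1557), (1968, 957, 2439)⟩

theorem Dm_ok : Dm.Ok := pdb_sound (s := 12) (C := ⟨⟨-13, 2, -76, -47, -58, 31, 18, -15, -13⟩, (40, 6, 18)⟩) (by show Nat.Prime 53; norm_num) (by decide +kernel)

/-- Lines of the first type. -/
noncomputable def Clm : List C1 := [⟨⟨13, -2, -89, -47, -58, 16, 18, -15, -5⟩, (17, 16, 48)⟩,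
  ⟨⟨-23, 38, -56, 43, 58, 1, 18, -9, -23⟩, (9, 50, 16)⟩,
  ⟨⟨-23, -38, -56, 43, -58, 1, 18, 9, -23⟩, (18, 47, 32)⟩,
  ⟨⟨-13, -2, -76, -47, 58, 31, 18, 15, -13⟩, (20, 3, 9)⟩,
  ⟨⟨0, 0, 0, 0, 0, 0, 0, 0, 0⟩, (0, 0, 0)⟩,
  ⟨⟨0, 0, 0, 0, 0, 0, 0, 0, 0⟩, (0, 0, 0)⟩,
  ⟨⟨0, 0, 0, 0, 0, 0, 0, 0, 0⟩, (0, 0, 0)⟩,
  ⟨⟨23, -38, -79, -43, -58, 44, -18, 9, -5⟩, (29, 8, 28)⟩,
  ⟨⟨33, -18, -89, 67, 2, 4, 2, 23, -7⟩, (12, 34, 20)⟩,
  ⟨⟨0, 0, 0, 0, 0, 0, 0, 0, 0⟩, (0, 0, 0)⟩,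
  ⟨⟨0, 0, 0, 0, 0, 0, 0, 0, 0⟩, (0, 0, 0)⟩,
  ⟨⟨0, 0, 0, 0, 0, 0, 0, 0, 0⟩, (0, 0, 0)⟩,
  ⟨⟨0, 0, 0, 0, 0, 0, 0, 0, 0⟩, (0, 0, 0)⟩,
  ⟨⟨27, 42, -76, 7, 58, 49, 22, -7, -5⟩, (1, 14, 44)⟩,
  ⟨⟨33, 18, -89, 67, -2, 4, 2, -23, -7⟩, (44, 1, 38)⟩,
  ⟨⟨0, 0, 0, 0, 0, 0, 0, 0, 0⟩, (0, 0, 0)⟩,
  ⟨⟨0, 0, 0, 0, 0, 0, 0, 0, 0⟩, (0, 0, 0)⟩,
  ⟨⟨0, 0, 0, 0, 0, 0, 0, 0, 0⟩, (0, 0, 0)⟩,
  ⟨⟨0, 0, 0, 0, 0, 0, 0, 0, 0⟩, (0, 0, 0)⟩,
  ⟨⟨57, 42, -56, -37, 62, 41, -10, 1, -19⟩, (20, 27, 3)⟩,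
  ⟨⟨13, 2, -89, -47, 58, 16, 18, 15, -5⟩, (50, 19, 4)⟩,
  ⟨⟨0, 0, 0, 0, 0, 0, 0, 0, 0⟩, (0, 0, 0)⟩,
  ⟨⟨0, 0, 0, 0, 0, 0, 0, 0, 0⟩, (0, 0, 0)⟩,
  ⟨⟨57, -42, -56, -37, -62, 41, -10, -1, -19⟩, (16, 11, 13)⟩,
  ⟨⟨0, 0, 0, 0, 0, 0, 0, 0, 0⟩, (0, 0, 0)⟩,
  ⟨⟨7, 58, -56, 27, 42, 49, 22, -7, -17⟩, (20, 9, 25)⟩,
  ⟨⟨0, 0, 0, 0, 0, 0, 0, 0, 0⟩, (0, 0, 0)⟩,
  ⟨⟨67, -2, -71, 33, 18, 56, -2, 23, -5⟩, (28, 13, 49)⟩,
  ⟨⟨0, 0, 0, 0, 0, 0, 0, 0, 0⟩, (0, 0, 0)⟩,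
  ⟨⟨0, 0, 0, 0, 0, 0, 0, 0, 0⟩, (0, 0, 0)⟩,
  ⟨⟨23, 38, -79, -43, 58, 44, -18, -9, -5⟩, (20, 11, 12)⟩,
  ⟨⟨0, 0, 0, 0, 0, 0, 0, 0, 0⟩, (0, 0, 0)⟩,
  ⟨⟨7, -58, -56, 27, -42, 49, 22, 7, -17⟩, (17, 5, 8)⟩,
  ⟨⟨0, 0, 0, 0, 0, 0, 0, 0, 0⟩, (0, 0, 0)⟩,
  ⟨⟨67, 2, -71, 33, -18, 56, -2, -23, -5⟩, (8, 34, 14)⟩,
  ⟨⟨27, -42, -76, 7, -58, 49, 22, 7, -5⟩, (50, 11, 27)⟩,
  ⟨⟨0, 0, 0, 0, 0, 0, 0, 0, 0⟩, (0, 0, 0)⟩,
  ⟨⟨0, 0, 0, 0, 0, 0, 0, 0, 0⟩, (0, 0, 0)⟩,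
  ⟨⟨0, 0, 0, 0, 0, 0, 0, 0, 0⟩, (0, 0, 0)⟩,
  ⟨⟨0, 0, 0, 0, 0, 0, 0, 0, 0⟩, (0, 0, 0)⟩,
  ⟨⟨0, 0, 0, 0, 0, 0, 0, 0, 0⟩, (0, 0, 0)⟩,
  ⟨⟨0, 0, 0, 0, 0, 0, 0, 0, 0⟩, (0, 0, 0)⟩,
  ⟨⟨0, 0, 0, 0, 0, 0, 0, 0, 0⟩, (0, 0, 0)⟩,
  ⟨⟨0, 0, 0, 0, 0, 0, 0, 0, 0⟩, (0, 0, 0)⟩,
  ⟨⟨0, 0, 0, 0, 0, 0, 0, 0, 0⟩, (0, 0, 0)⟩,
  ⟨⟨-37, 62, -4, -57, -42, 1, 10, -1, -29⟩, (22, 21, 27)⟩,
  ⟨⟨0, 0, 0, 0, 0, 0, 0, 0, 0⟩, (0, 0, 0)⟩,
  ⟨⟨0, 0, 0, 0, 0, 0, 0, 0, 0⟩, (0, 0, 0)⟩,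
  ⟨⟨0, 0, 0, 0, 0, 0, 0, 0, 0⟩, (0, 0, 0)⟩,
  ⟨⟨0, 0, 0, 0, 0, 0, 0, 0, 0⟩, (0, 0, 0)⟩,
  ⟨⟨0, 0, 0, 0, 0, 0, 0, 0, 0⟩, (0, 0, 0)⟩,
  ⟨⟨-37, -62, -4, -57, 42, 1, 10, 1, -29⟩, (6, 25, 17)⟩,
  ⟨⟨0, 0, 0, 0, 0, 0, 0, 0, 0⟩, (0, 0, 0)⟩]

/-- Unit moves. -/
noncomputable def U : List Mv := [mz,
  mz,
  mz,
  mz,
  mz,
  ⟨⟨-1, 0, 1, 0, -1, 0, 0, 0, 1⟩, .nil, (nat_lit 0), (nat_lit 5), (nat_lit 1), (nat_lit 0), (0, 0, 0), [], 38⟩,
  mz,
  mz,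
  ⟨⟨-1, 0, 1, 0, -1, 0, 0, 0, 1⟩, .nil, (nat_lit 0), (nat_lit 5), (nat_lit 1), (nat_lit 0), (0, 0, 0), [], 38⟩,
  mz,
  mz,
  mz,
  ⟨⟨-1, 0, 1, 0, -1, 0, 0, 0, 1⟩, .nil, (nat_lit 0), (nat_lit 5), (nat_lit 1), (nat_lit 0), (0, 0, 0), [], 38⟩,
  ⟨⟨-1, 0, 1, 0, -1, 0, 0, 0, 1⟩, .nil, (nat_lit 0), (nat_lit 5), (nat_lit 1), (nat_lit 0), (0, 0, 0), [], 38⟩,
  mz,
  mz,
  mz,
  mz,
  ⟨⟨-1, 0, 1, 0, -1, 0, 0, 0, 1⟩, .nil, (nat_lit 0), (nat_lit 5), (nat_lit 1), (nat_lit 0), (0, 0, 0), [], 38⟩,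
  mz,
  mz,
  ⟨⟨1, 0, 0, 0, -1, 0, 0, 0, 1⟩, .nil, (nat_lit 0), (nat_lit 38), (nat_lit 1), (nat_lit 0), (0, 0, 0), [], 38⟩,
  ⟨⟨-1, 0, 1, 0, -1, 0, 0, 0, 1⟩, .nil, (nat_lit 0), (nat_lit 5), (nat_lit 1), (nat_lit 0), (0, 0, 0), [], 38⟩,
  mz,
  mz,
  ⟨⟨1, 0, 0, 0, -1, 0, 0, 0, 1⟩, .nil, (nat_lit 0), (nat_lit 38), (nat_lit 1), (nat_lit 0), (0, 0, 0), [], 38⟩,
  ⟨⟨-1, 0, 1, 0, 1, 0, 0, 0, 1⟩, .nil, (nat_lit 42), (nat_lit 0), (nat_lit 0), (nat_lit 1), (0, 0, 0), [], 1⟩,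
  mz,
  mz,
  mz,
  ⟨⟨1, 0, 0, 0, -1, 0, 0, 0, 1⟩, .nil, (nat_lit 0), (nat_lit 38), (nat_lit 1), (nat_lit 0), (0, 0, 0), [], 38⟩,
  ⟨⟨1, 0, 0, 0, -1, 0, 0, 0, 1⟩, .nil, (nat_lit 0), (nat_lit 38), (nat_lit 1), (nat_lit 0), (0, 0, 0), [], 38⟩,
  mz,
  ⟨⟨-1, 0, 1, 0, 1, 0, 0, 0, 1⟩, .nil, (nat_lit 42), (nat_lit 0), (nat_lit 0), (nat_lit 1), (0, 0, 0), [], 1⟩,
  ⟨⟨-1, 0, 1, 0, 1, 0, 0, 0, 1⟩, .nil, (nat_lit 42), (nat_lit 0), (nat_lit 0), (nat_lit 1), (0, 0, 0), [], 1⟩,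
  ⟨⟨1, 0, 0, 0, -1, 0, 0, 0, 1⟩, .nil, (nat_lit 0), (nat_lit 38), (nat_lit 1), (nat_lit 0), (0, 0, 0), [], 38⟩,
  ⟨⟨-1, 0, 1, 0, 1, 0, 0, 0, 1⟩, .nil, (nat_lit 42), (nat_lit 0), (nat_lit 0), (nat_lit 1), (0, 0, 0), [], 1⟩,
  ⟨⟨-1, 0, 1, 0, 1, 0, 0, 0, 1⟩, .nil, (nat_lit 42), (nat_lit 0), (nat_lit 0), (nat_lit 1), (0, 0, 0), [], 1⟩,
  ⟨⟨1, 0, 0, 0, -1, 0, 0, 0, 1⟩, .nil, (nat_lit 0), (nat_lit 38), (nat_lit 1), (nat_lit 0), (0, 0, 0), [], 38⟩,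
  ⟨⟨-1, 0, 1, 0, 1, 0, 0, 0, 1⟩, .nil, (nat_lit 42), (nat_lit 0), (nat_lit 0), (nat_lit 1), (0, 0, 0), [], 1⟩,
  mz,
  mz,
  ⟨⟨-1, 0, 1, 0, 1, 0, 0, 0, 1⟩, .nil, (nat_lit 42), (nat_lit 0), (nat_lit 0), (nat_lit 1), (0, 0, 0), [], 1⟩]

theorem v_ty : tyb Dm S.ty1 Clm = true := by decide +kernel

theorem v_ty0 : tyb D0 (S.tys.getD 0 0) Cl0 = true := by decide +kernel

theorem v_ty1 : tyb D1 (S.tys.getD 1 0) Cl1 = true := by decide +kernel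

theorem v_msc : mscb S D0 [D1] Dm (nat_lit 132818) = true := by decide +kernel

theorem v_mv0 : mvsn (nat_lit 11473194769) S D0 [D1] Dm (nat_lit 132818) 0 D0 = true := by decide +kernel

theorem v_mv1 : mvsn (nat_lit 11473194769) S D0 [D1] Dm (nat_lit 132818) 1 D1 = true := by decide +kernel

theorem v_mm : mmsn (nat_lit 11473194769) S D0 [D1] Dm (nat_lit 132818) = true := by decide +kernel

theorem v_un : unb S D0 (nat_lit 132818) U = true := by decide +kernel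

theorem v_ok : okb S.oks [(0, 0, 0), (0, 0, 0), (0, 0, 0), (0, 0, 0)] = true := by decide +kernel

theorem v_part : ∀ d < D0.p, (nat_lit 132818).testBit d = true → part S (zc (D0 :: [D1])) d = true := by
  intro d hd h
  have h1 : ∀ d < 43, (nat_lit 132818).testBit d = true → d = 1 ∨ d = 4 ∨ d = 6 ∨ d = 7 ∨ d = 9 ∨ d = 10 ∨ d = 17 := by decide
  rcases h1 d hd h with rfl | rfl | rfl | rfl | rfl | rfl | rfl
  · exact part_1
  · exact part_4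
  · exact part_6
  · exact part_7
  · exact part_9
  · exact part_10
  · exact part_17

theorem main (n : ℕ) (ho : Odd n) (hr : ¬ Rep n) (h0 : Split 43 n) (h1 : Split 47 n) (hm : Split 53 n) :
    n ∈ EE := by
  refine concln (W := nat_lit 11473194769) (S := S) (P0 := D0) (Pl := [D1]) (Pm := Dm) (cn := nat_lit 132818) ?_ Dm_ok v_ty ?_ ?_ v_msc ?_ v_mm v_un v_part v_ok
    n ho hr ?_ hm
  · simp only [List.forall_mem_cons]
    exact ⟨D0_ok, D1_ok, fun _ h => absurd h (by simp)⟩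
  · exact all2 (φ := fun j P => ∃ L, tyb P (S.tys.getD j 0) L = true) ⟨_, v_ty0⟩ ⟨_, v_ty1⟩
  · exact all2 (φ := fun j P => Nat.ble (S.pks.getD j 0) (Nat.pow P.p P.K) = true) (by decide +kernel) (by decide +kernel)
  · exact all2 (φ := fun i P => mvsn (nat_lit 11473194769) S D0 [D1] Dm (nat_lit 132818) i P = true) v_mv0 v_mv1
  · simp only [List.forall_mem_cons]
    exact ⟨h0, h1, fun _ h => absurd h (by simp)⟩

end Pool.Agent.Work.MP_9954fe_nt.P43_47_53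

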