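import Pool.Agent.Work.MP_9954fe_nt.Fast

/-!
Certificates for the sets {7, 13}, {7, 47, 71}, {7, 53, 71}, {11, 31, 43}, {13, 37, 53} of split primes.
-/

set_option autoImplicit false
set_option linter.all false
set_option maxRecDepth 100000

namespace Pool.Agent.Work.MP_9954fe_nt.P7_13

/-- Dummy move. -/
noncomputable def mz : Mv := ⟨⟨0, 0, 0, 0, 0, 0, 0, 0, 0⟩, .nil, (nat_lit 0), (nat_lit 0), (nat_lit 0), (nat_lit 0), (0, 0, 0), [], 0⟩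

/-- Moves. -/
noncomputable def t0_1 : List Mv := [
  ⟨⟨-3, 4, -5, 2, -5, -6, 4, 4, -5⟩, (.cons (nat_lit 340792) (nat_lit 5724573) (nat_lit 5422478) (nat_lit 1) .nil), (nat_lit 0), (nat_lit 9), (nat_lit 10), (nat_lit 1), (3, 5, 3), [4284064], 6⟩,
  ⟨⟨-3, 4, -5, -2, 5, 6, 4, 4, -5⟩, (.cons (nat_lit 2716850) (nat_lit 1271972) (nat_lit 2989557) (nat_lit 1) .nil), (nat_lit 6), (nat_lit 4), (nat_lit 2), (nat_lit 1), (3, 2, 3), [5604076], 12⟩,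
  ⟨⟨7, 0, 0, 2, -5, -6, 4, 4, -5⟩, (.cons (nat_lit 637815) (nat_lit 5280008) (nat_lit 2733022) (nat_lit 1) .nil), (nat_lit 8), (nat_lit 4), (nat_lit 8), (nat_lit 1), (0, 5, 3), [3299227], 1⟩,
  ⟨⟨-3, 4, -5, 2, -5, -6, 4, 4, -5⟩, (.cons (nat_lit 340792) (nat_lit 5724573) (nat_lit 5422478) (nat_lit 1) .nil), (nat_lit 0), (nat_lit 9), (nat_lit 10), (nat_lit 1), (3, 5, 3), [4284064], 6⟩,
  ⟨⟨-3, 4, -5, 2, -5, -6, 4, 4, -5⟩, (.cons (nat_lit 340792) (nat_lit 5724573) (nat_lit 5422478) (nat_lit 1) .nil), (nat_lit 0), (nat_lit 9), (nat_lit 10), (nat_lit 1), (3, 5, 3), [4284064], 6⟩,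
  ⟨⟨-3, 4, -5, 2, -5, -6, 4, 4, -5⟩, (.cons (nat_lit 340792) (nat_lit 5724573) (nat_lit 5422478) (nat_lit 1) .nil), (nat_lit 0), (nat_lit 9), (nat_lit 10), (nat_lit 1), (3, 5, 3), [4284064], 6⟩,
  ⟨⟨7, 0, 0, 2, -5, -6, 4, 4, -5⟩, (.cons (nat_lit 637815) (nat_lit 5280008) (nat_lit 2733022) (nat_lit 1) .nil), (nat_lit 8), (nat_lit 4), (nat_lit 8), (nat_lit 1), (0, 5, 3), [3299227], 1⟩]

/-- Moves. -/
noncomputable def t0_3 : List Mv := [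
  ⟨⟨1, 0, -9, 0, -7, 0, 6, 0, -5⟩, (.cons (nat_lit 1945299) (nat_lit 1801759) (nat_lit 4086990) (nat_lit 1) .nil), (nat_lit 2), (nat_lit 10), (nat_lit 1), (nat_lit 0), (2, 0, 5), [2511144], 5⟩,
  ⟨⟨1, 0, -9, 0, -7, 0, 6, 0, -5⟩, (.cons (nat_lit 1945299) (nat_lit 1801759) (nat_lit 4086990) (nat_lit 1) .nil), (nat_lit 2), (nat_lit 10), (nat_lit 1), (nat_lit 0), (2, 0, 5), [2511144], 5⟩,
  ⟨⟨5, 0, 4, 0, 7, 0, 6, 0, -5⟩, (.cons (nat_lit 648470) (nat_lit 2401705) (nat_lit 216159) (nat_lit 1) .nil), (nat_lit 12), (nat_lit 0), (nat_lit 8), (nat_lit 1), (3, 0, 5), [348570], 7⟩,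
  ⟨⟨5, 0, 4, 0, -7, 0, 6, 0, -5⟩, (.cons (nat_lit 3538501) (nat_lit 4797624) (nat_lit 3101103) (nat_lit 1) .nil), (nat_lit 12), (nat_lit 3), (nat_lit 9), (nat_lit 1), (3, 0, 5), [2605651], 12⟩,
  ⟨⟨1, 0, -9, 0, -7, 0, 6, 0, -5⟩, (.cons (nat_lit 1945299) (nat_lit 1801759) (nat_lit 4086990) (nat_lit 1) .nil), (nat_lit 2), (nat_lit 10), (nat_lit 1), (nat_lit 0), (2, 0, 5), [2511144], 5⟩,
  ⟨⟨1, 0, -9, 0, 7, 0, 6, 0, -5⟩, (.cons (nat_lit 5514295) (nat_lit 5186477) (nat_lit 1746023) (nat_lit 1) .nil), (nat_lit 9), (nat_lit 1), (nat_lit 4), (nat_lit 1), (2, 0, 5), [4211786], 9⟩,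
  ⟨⟨1, 0, -9, 0, -7, 0, 6, 0, -5⟩, (.cons (nat_lit 1945299) (nat_lit 1801759) (nat_lit 4086990) (nat_lit 1) .nil), (nat_lit 2), (nat_lit 10), (nat_lit 1), (nat_lit 0), (2, 0, 5), [2511144], 5⟩]

/-- Moves. -/
noncomputable def t4_1 : List Mv := [
  mz,
  mz,
  ⟨⟨-1, -12, 9, -8, -5, -6, 8, -8, -7⟩, (.cons (nat_lit 5764800) (nat_lit 1538899) (nat_lit 4899333) (nat_lit 1) .nil), (nat_lit 2), (nat_lit 0), (nat_lit 0), (nat_lit 0), (8, 12, 1), [1882655], 0⟩,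
  mz,
  ⟨⟨-5, -12, -4, 12, -5, -6, 0, 0, -13⟩, (.cons (nat_lit 1576513) (nat_lit 4181924) (nat_lit 1106267) (nat_lit 1) .nil), (nat_lit 9), (nat_lit 0), (nat_lit 0), (nat_lit 0), (1, 8, 0), [964477], 0⟩,
  ⟨⟨-7, -12, 0, -10, 7, 0, 2, -4, -13⟩, (.cons (nat_lit 5764800) (nat_lit 5557027) (nat_lit 771765) (nat_lit 1) .nil), (nat_lit 5), (nat_lit 0), (nat_lit 0), (nat_lit 0), (10, 5, 12), [4248812], 0⟩,
  ⟨⟨-9, 8, -4, 10, 7, -10, -2, -4, -11⟩, (.cons (nat_lit 5764800) (nat_lit 2754199) (nat_lit 1864197) (nat_lit 1) .nil), (nat_lit 6), (nat_lit 0), (nat_lit 0), (nat_lit 0), (10, 12, 8), [5044285], 0⟩,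
  ⟨⟨9, -8, -13, -10, -7, 0, 2, 4, -13⟩, (.cons (nat_lit 241381) (nat_lit 1318605) (nat_lit 1340812) (nat_lit 1) .nil), (nat_lit 6), (nat_lit 0), (nat_lit 0), (nat_lit 0), (10, 12, 8), [4308931], 0⟩,
  ⟨⟨-1, -12, -8, 8, 5, -14, 8, -8, -1⟩, (.cons (nat_lit 4459393) (nat_lit 741360) (nat_lit 366372) (nat_lit 1) .nil), (nat_lit 12), (nat_lit 0), (nat_lit 0), (nat_lit 0), (2, 10, 10), [5193246], 0⟩,
  ⟨⟨5, -12, -9, 12, 5, -6, 0, 0, -13⟩, (.cons (nat_lit 2059366) (nat_lit 2341345) (nat_lit 4458290) (nat_lit 1) .nil), (nat_lit 4), (nat_lit 0), (nat_lit 0), (nat_lit 0), (11, 3, 0), [4760040], 0⟩,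
  ⟨⟨-1, 12, -8, 8, -5, -14, 8, 8, -1⟩, (.cons (nat_lit 479820) (nat_lit 1300382) (nat_lit 5267825) (nat_lit 1) .nil), (nat_lit 12), (nat_lit 0), (nat_lit 0), (nat_lit 0), (3, 2, 2), [4470481], 0⟩,
  ⟨⟨-9, -8, -4, -10, 7, 10, -2, 4, -11⟩, (.cons (nat_lit 5764800) (nat_lit 3989113) (nat_lit 2690002) (nat_lit 1) .nil), (nat_lit 11), (nat_lit 0), (nat_lit 0), (nat_lit 0), (5, 7, 4), [1786723], 0⟩,
  ⟨⟨9, -4, -16, -8, 5, -6, 8, 8, -7⟩, (.cons (nat_lit 5564387) (nat_lit 5399341) (nat_lit 3283614) (nat_lit 1) .nil), (nat_lit 10), (nat_lit 0), (nat_lit 0), (nat_lit 0), (10, 7, 6), [198994], 0⟩]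

/-- Moves. -/
noncomputable def t4_3 : List Mv := [
  mz,
  mz,
  ⟨⟨-1, -12, 9, -8, -5, -6, 8, -8, -7⟩, (.cons (nat_lit 5764800) (nat_lit 1538899) (nat_lit 4899333) (nat_lit 1) .nil), (nat_lit 2), (nat_lit 0), (nat_lit 0), (nat_lit 0), (8, 12, 1), [1882655], 0⟩,
  mz,
  ⟨⟨-5, -12, -4, -12, 5, 6, 0, 0, -13⟩, (.cons (nat_lit 5764800) (nat_lit 5524245) (nat_lit 1489561) (nat_lit 1) .nil), (nat_lit 4), (nat_lit 0), (nat_lit 0), (nat_lit 0), (1, 5, 0), [1302054], 0⟩,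
  ⟨⟨-7, -12, 0, -10, 7, 0, 2, -4, -13⟩, (.cons (nat_lit 5764800) (nat_lit 5557027) (nat_lit 771765) (nat_lit 1) .nil), (nat_lit 5), (nat_lit 0), (nat_lit 0), (nat_lit 0), (10, 5, 12), [4248812], 0⟩,
  ⟨⟨7, -12, -7, -10, -7, 10, -2, -4, -11⟩, (.cons (nat_lit 1072657) (nat_lit 336268) (nat_lit 1) (nat_lit 4512004) .nil), (nat_lit 7), (nat_lit 0), (nat_lit 0), (nat_lit 0), (11, 1, 8), [4036545], 0⟩,
  ⟨⟨-7, 12, 0, -10, -7, 0, 2, 4, -13⟩, (.cons (nat_lit 2252950) (nat_lit 2749977) (nat_lit 3065101) (nat_lit 1) .nil), (nat_lit 5), (nat_lit 0), (nat_lit 0), (nat_lit 0), (11, 12, 8), [5721412], 0⟩,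
  ⟨⟨-1, -12, -8, 8, 5, -14, 8, -8, -1⟩, (.cons (nat_lit 4459393) (nat_lit 741360) (nat_lit 366372) (nat_lit 1) .nil), (nat_lit 12), (nat_lit 0), (nat_lit 0), (nat_lit 0), (2, 10, 10), [5193246], 0⟩,
  ⟨⟨-5, 12, -4, -12, -5, 6, 0, 0, -13⟩, (.cons (nat_lit 2073205) (nat_lit 4011933) (nat_lit 2037314) (nat_lit 1) .nil), (nat_lit 4), (nat_lit 0), (nat_lit 0), (nat_lit 0), (2, 10, 0), [2448722], 0⟩,
  ⟨⟨-1, 12, -8, 8, -5, -14, 8, 8, -1⟩, (.cons (nat_lit 479820) (nat_lit 1300382) (nat_lit 5267825) (nat_lit 1) .nil), (nat_lit 12), (nat_lit 0), (nat_lit 0), (nat_lit 0), (3, 2, 2), [4470481], 0⟩,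
  ⟨⟨7, 12, -7, -10, 7, 10, -2, 4, -11⟩, (.cons (nat_lit 4399676) (nat_lit 1492020) (nat_lit 3921820) (nat_lit 1) .nil), (nat_lit 7), (nat_lit 0), (nat_lit 0), (nat_lit 0), (12, 7, 4), [4792460], 0⟩,
  ⟨⟨-1, 12, 9, -8, 5, -6, 8, 8, -7⟩, (.cons (nat_lit 4087185) (nat_lit 3735050) (nat_lit 1070809) (nat_lit 1) .nil), (nat_lit 2), (nat_lit 0), (nat_lit 0), (nat_lit 0), (9, 7, 6), [1769066], 0⟩]

/-- All the moves. -/
noncomputable def tabs : List (List (List Mv)) := [[[], t0_1, [], t0_3], [], [], [], [[], t4_1, [], t4_3]]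

/-- Subtrie. -/
noncomputable def T1 : Tr := (.ev (nat_lit 20) (nat_lit 832) (.nd (nat_lit 32) (.br (nat_lit 2) (.br (nat_lit
 1) (.ch (nat_lit 0) (.ev (nat_lit 48) (nat_lit 132) (.nd (nat_lit 256) (.br (nat_lit 4) (.br (nat_lit 1) (.ch
 (nat_lit 0) (.nd (nat_lit 544) (.br (nat_lit 4) (.br (nat_lit 1) (.ch (nat_lit 0) (.ev (nat_lit 560) (nat_lit
 4096) (.ev (nat_lit 628) (nat_lit 32) (.nd (nat_lit 1232) (.br (nat_lit 5) (.br (nat_lit 4) (.ch (nat_lit 0)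
 (.ev (nat_lit 1428) (nat_lit 2048) (.ev (nat_lit 1492) (nat_lit 16) (.ev (nat_lit 1501) (nat_lit 1024) .dd))))
 (.ch (nat_lit 4) (.ev (nat_lit 1444) (nat_lit 1024) (.ev (nat_lit 1620) (nat_lit 2048) (.ev (nat_lit 1629)
 (nat_lit 16) .dd))))) (.br (nat_lit 6) (.ch (nat_lit 5) (.ev (nat_lit 1248) (nat_lit 3072) (.ev (nat_lit 1261)
 (nat_lit 16) .dd))) (.ch (nat_lit 6) (.ev (nat_lit 1268) (nat_lit 16) (.fin (nat_lit
 576425018226328150)))))))))) (.ch (nat_lit 1) (.ev (nat_lit 560) (nat_lit 1024) (.nd (nat_lit 1232) (.br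
 (nat_lit 4) (.br (nat_lit 3) (.ch (nat_lit 1) (.ev (nat_lit 1248) (nat_lit 2048) (.nd (nat_lit 2976) (.br
 (nat_lit 3) (.ch (nat_lit 0) (.ev (nat_lit 2992) (nat_lit 16) (.fin (nat_lit 576477794727838310)))) (.ch
 (nat_lit 3) (.ev (nat_lit 2992) (nat_lit 4096) (.nd (nat_lit 3760) (.br (nat_lit 6) (.ch (nat_lit 4) (.fin
 (nat_lit 576462401437123450))) (.ch (nat_lit 6) (.ev (nat_lit 3956) (nat_lit 32) (.ev (nat_lit 3965) (nat_lit
 16) .dd))))))))))) (.ch (nat_lit 3) (.ev (nat_lit 1428) (nat_lit 32) (.ev (nat_lit 1444) (nat_lit 4112) (.ev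
 (nat_lit 1453) (nat_lit 2048) .dd))))) (.br (nat_lit 6) (.ch (nat_lit 4) (.ev (nat_lit 1444) (nat_lit 16) (.ev
 (nat_lit 1652) (nat_lit 4096) (.nd (nat_lit 3024) (.br (nat_lit 4) (.ch (nat_lit 2) (.nd (nat_lit 3888) (.ch
 (nat_lit 2) (.fin (nat_lit 576375539995460287))))) (.br (nat_lit 5) (.ch (nat_lit 4) (.ev (nat_lit 3076)
 (nat_lit 2048) (.ev (nat_lit 3085) (nat_lit 32) .dd))) (.ch (nat_lit 5) (.ev (nat_lit 3188) (nat_lit 2048)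
 (.ev (nat_lit 3197) (nat_lit 32) .dd))))))))) (.ch (nat_lit 6) (.ev (nat_lit 1248) (nat_lit 4128) (.nd
 (nat_lit 3120) (.br (nat_lit 6) (.ch (nat_lit 5) (.ev (nat_lit 3252) (nat_lit 16) (.ev (nat_lit 3261) (nat_lit
 2048) .dd))) (.ch (nat_lit 6) (.fin (nat_lit 576431614920704694))))))))))))) (.br (nat_lit 5) (.ch (nat_lit 4)
 (.ev (nat_lit 560) (nat_lit 4144) (.nd (nat_lit 1232) (.br (nat_lit 1) (.ch (nat_lit 0) (.ev (nat_lit 1620)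
 (nat_lit 2048) (.ev (nat_lit 1629) (nat_lit 1024) .dd))) (.br (nat_lit 5) (.ch (nat_lit 1) (.fin (nat_lit
 576473396654064202))) (.ch (nat_lit 5) (.ev (nat_lit 1428) (nat_lit 2048) (.ev (nat_lit 1437) (nat_lit 1024)
 .dd)))))))) (.br (nat_lit 6) (.ch (nat_lit 5) (.ev (nat_lit 644) (nat_lit 16) (.ev (nat_lit 660) (nat_lit 32)
 (.nd (nat_lit 1232) (.br (nat_lit 2) (.br (nat_lit 1) (.ch (nat_lit 0) (.ev (nat_lit 1248) (nat_lit 1024) (.ev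
 (nat_lit 1268) (nat_lit 4096) (.ev (nat_lit 1277) (nat_lit 2048) .dd)))) (.ch (nat_lit 1) (.ev (nat_lit 1248)
 (nat_lit 2048) (.fin (nat_lit 576461302061810239))))) (.br (nat_lit 5) (.ch (nat_lit 2) (.ev (nat_lit 1248)
 (nat_lit 6144) (.ev (nat_lit 1261) (nat_lit 1024) .dd))) (.br (nat_lit 6) (.ch (nat_lit 5) (.ev (nat_lit 1248)
 (nat_lit 1024) (.ev (nat_lit 1268) (nat_lit 4096) (.ev (nat_lit 1277) (nat_lit 2048) .dd)))) (.ch (nat_lit 6)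
 (.ev (nat_lit 1248) (nat_lit 6144) (.ev (nat_lit 1261) (nat_lit 1024) .dd)))))))))) (.ch (nat_lit 6) (.ev
 (nat_lit 560) (nat_lit 3088) (.nd (nat_lit 1232) (.br (nat_lit 3) (.ch (nat_lit 1) (.ev (nat_lit 1508)
 (nat_lit 4096) (.ev (nat_lit 1517) (nat_lit 32) .dd))) (.br (nat_lit 4) (.ch (nat_lit 3) (.ev (nat_lit 1428)
 (nat_lit 32) (.ev (nat_lit 1437) (nat_lit 4096) .dd))) (.ch (nat_lit 4) (.fin (nat_lit
 576510780116517502))))))))))))) (.ch (nat_lit 1) (.ev (nat_lit 272) (nat_lit 6160) (.nd (nat_lit 544) (.br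
 (nat_lit 3) (.br (nat_lit 2) (.ch (nat_lit 0) (.nd (nat_lit 816) (.br (nat_lit 3) (.br (nat_lit 2) (.ch
 (nat_lit 0) (.ev (nat_lit 1140) (nat_lit 32) (.ev (nat_lit 1149) (nat_lit 1024) .dd))) (.ch (nat_lit 2) (.ev
 (nat_lit 832) (nat_lit 32) (.ev (nat_lit 845) (nat_lit 1024) .dd)))) (.br (nat_lit 4) (.ch (nat_lit 3) (.ev
 (nat_lit 832) (nat_lit 32) (.ev (nat_lit 845) (nat_lit 1024) .dd))) (.br (nat_lit 6) (.ch (nat_lit 4) (.ev
 (nat_lit 832) (nat_lit 1024) (.ev (nat_lit 845) (nat_lit 32) .dd))) (.ch (nat_lit 6) (.nd (nat_lit 2848) (.br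
 (nat_lit 3) (.ch (nat_lit 2) (.ev (nat_lit 2864) (nat_lit 1024) (.ev (nat_lit 2877) (nat_lit 32) .dd))) (.br
 (nat_lit 6) (.ch (nat_lit 3) (.fin (nat_lit 576355749253824820))) (.ch (nat_lit 6) (.ev (nat_lit 2864)
 (nat_lit 32) (.ev (nat_lit 2877) (nat_lit 1024) .dd)))))))))))) (.ch (nat_lit 2) (.ev (nat_lit 560) (nat_lit
 1056) .dd))) (.br (nat_lit 4) (.ch (nat_lit 3) (.ev (nat_lit 560) (nat_lit 32) (.ev (nat_lit 573) (nat_lit
 1024) .dd))) (.br (nat_lit 5) (.ch (nat_lit 4) (.nd (nat_lit 1232) (.br (nat_lit 6) (.ch (nat_lit 1) (.ev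
 (nat_lit 1268) (nat_lit 1024) (.ev (nat_lit 1277) (nat_lit 32) .dd))) (.ch (nat_lit 6) (.fin (nat_lit
 576438212334404129)))))) (.ch (nat_lit 5) (.nd (nat_lit 1008) (.br (nat_lit 3) (.br (nat_lit 2) (.ch (nat_lit
 0) (.nd (nat_lit 2304) (.br (nat_lit 5) (.br (nat_lit 2) (.ch (nat_lit 1) (.ev (nat_lit 2452) (nat_lit 1024)
 (.ev (nat_lit 2461) (nat_lit 32) .dd))) (.ch (nat_lit 2) (.fin (nat_lit 576496486456967712)))) (.br (nat_lit
 6) (.ch (nat_lit 5) (.ev (nat_lit 2320) (nat_lit 32) (.ev (nat_lit 2333) (nat_lit 1024) .dd))) (.ch (nat_lit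
 6) (.ev (nat_lit 2320) (nat_lit 1024) (.ev (nat_lit 2333) (nat_lit 32) .dd))))))) (.ch (nat_lit 2) (.nd
 (nat_lit 2928) (.br (nat_lit 4) (.ch (nat_lit 0) (.ev (nat_lit 2944) (nat_lit 1024) (.ev (nat_lit 2957)
 (nat_lit 32) .dd))) (.ch (nat_lit 4) (.ev (nat_lit 2944) (nat_lit 32) (.ev (nat_lit 2957) (nat_lit 1024)
 .dd))))))) (.br (nat_lit 4) (.ch (nat_lit 3) (.ev (nat_lit 1444) (nat_lit 32) (.ev (nat_lit 1453) (nat_lit
 1024) .dd))) (.ch (nat_lit 4) (.ev (nat_lit 1024) (nat_lit 1024) (.ev (nat_lit 1037) (nat_lit 32)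
 .dd)))))))))))))) (.br (nat_lit 5) (.ch (nat_lit 4) (.ev (nat_lit 272) (nat_lit 1024) (.nd (nat_lit 448) (.br
 (nat_lit 4) (.br (nat_lit 3) (.ch (nat_lit 1) (.ev (nat_lit 464) (nat_lit 32) (.nd (nat_lit 1008) (.br
 (nat_lit 4) (.br (nat_lit 3) (.ch (nat_lit 0) (.ev (nat_lit 1024) (nat_lit 4096) (.nd (nat_lit 2976) (.br
 (nat_lit 5) (.ch (nat_lit 3) (.fin (nat_lit 576593243643789859))) (.ch (nat_lit 5) (.fin (nat_lit
 576576750971470191))))))) (.ch (nat_lit 3) (.ev (nat_lit 1024) (nat_lit 2048) (.fin (nat_lit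
 576468998645301793))))) (.br (nat_lit 6) (.ch (nat_lit 4) (.ev (nat_lit 1172) (nat_lit 16) (.ev (nat_lit 1188)
 (nat_lit 2048) (.ev (nat_lit 1197) (nat_lit 4096) .dd)))) (.ch (nat_lit 6) (.ev (nat_lit 1024) (nat_lit 4096)
 (.ev (nat_lit 1188) (nat_lit 2048) (.ev (nat_lit 1197) (nat_lit 16) .dd))))))))) (.ch (nat_lit 3) (.ev
 (nat_lit 464) (nat_lit 4112) (.nd (nat_lit 1008) (.br (nat_lit 2) (.br (nat_lit 1) (.ch (nat_lit 0) (.ev
 (nat_lit 1024) (nat_lit 2048) (.ev (nat_lit 1037) (nat_lit 32) .dd))) (.ch (nat_lit 1) (.nd (nat_lit 3840)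
 (.ch (nat_lit 2) (.fin (nat_lit 576361246795186543)))))) (.br (nat_lit 4) (.ch (nat_lit 2) (.nd (nat_lit 2976)
 (.br (nat_lit 3) (.ch (nat_lit 0) (.ev (nat_lit 3108) (nat_lit 2048) (.ev (nat_lit 3117) (nat_lit 32) .dd)))
 (.ch (nat_lit 3) (.fin (nat_lit 576432714669310605)))))) (.ch (nat_lit 4) (.nd (nat_lit 2304) (.br (nat_lit 6)
 (.ch (nat_lit 4) (.ev (nat_lit 2320) (nat_lit 2048) (.ev (nat_lit 2333) (nat_lit 32) .dd))) (.ch (nat_lit 6)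
 (.ev (nat_lit 2320) (nat_lit 32) (.ev (nat_lit 2333) (nat_lit 2048) .dd)))))))))))) (.br (nat_lit 5) (.ch
 (nat_lit 4) (.ev (nat_lit 464) (nat_lit 2096) (.ev (nat_lit 477) (nat_lit 4096) .dd))) (.br (nat_lit 6) (.ch
 (nat_lit 5) (.nd (nat_lit 720) (.br (nat_lit 3) (.br (nat_lit 1) (.ch (nat_lit 0) (.nd (nat_lit 1664) (.br
 (nat_lit 3) (.br (nat_lit 2) (.ch (nat_lit 0) (.ev (nat_lit 1680) (nat_lit 2064) (.fin (nat_lit
 576452505901679172)))) (.ch (nat_lit 2) (.ev (nat_lit 1680) (nat_lit 48) (.ev (nat_lit 1856) (nat_lit 6144)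
 .dd)))) (.br (nat_lit 5) (.ch (nat_lit 3) (.ev (nat_lit 1680) (nat_lit 48) (.ev (nat_lit 2436) (nat_lit 2048)
 (.ev (nat_lit 2445) (nat_lit 4096) .dd)))) (.ch (nat_lit 5) (.ev (nat_lit 1680) (nat_lit 32) (.ev (nat_lit
 2340) (nat_lit 4096) (.nd (nat_lit 3664) (.br (nat_lit 6) (.ch (nat_lit 3) (.ev (nat_lit 3680) (nat_lit 16)
 (.ev (nat_lit 3693) (nat_lit 2048) .dd))) (.ch (nat_lit 6) (.fin (nat_lit 576465700116709948)))))))))))) (.ch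
 (nat_lit 1) (.ev (nat_lit 736) (nat_lit 2048) (.nd (nat_lit 2304) (.br (nat_lit 2) (.ch (nat_lit 1) (.ev
 (nat_lit 2320) (nat_lit 4096) (.fin (nat_lit 576464600571527685)))) (.ch (nat_lit 2) (.ev (nat_lit 2320)
 (nat_lit 16) (.ev (nat_lit 2564) (nat_lit 32) (.ev (nat_lit 2573) (nat_lit 4096) .dd))))))))) (.br (nat_lit 5)
 (.ch (nat_lit 3) (.ev (nat_lit 736) (nat_lit 6144) (.nd (nat_lit 3120) (.ch (nat_lit 1) (.nd (nat_lit 3760)
 (.br (nat_lit 6) (.ch (nat_lit 1) (.ev (nat_lit 4116) (nat_lit 16) (.ev (nat_lit 4125) (nat_lit 32) .dd)))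
 (.ch (nat_lit 6) (.fin (nat_lit 576507481770377707))))))))) (.ch (nat_lit 5) (.ev (nat_lit 736) (nat_lit 32)
 (.ev (nat_lit 1380) (nat_lit 16) (.ev (nat_lit 1460) (nat_lit 4096) (.ev (nat_lit 1469) (nat_lit 2048)
 .dd))))))))) (.ch (nat_lit 6) (.nd (nat_lit 672) (.br (nat_lit 3) (.br (nat_lit 2) (.ch (nat_lit 0) (.ev
 (nat_lit 688) (nat_lit 2064) (.nd (nat_lit 2496) (.br (nat_lit 5) (.ch (nat_lit 0) (.fin (nat_lit
 576487690156327840))) (.ch (nat_lit 5) (.ev (nat_lit 2884) (nat_lit 4096) (.ev (nat_lit 2893) (nat_lit 32)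
 .dd))))))) (.ch (nat_lit 2) (.ev (nat_lit 688) (nat_lit 32) (.ev (nat_lit 852) (nat_lit 4096) (.ev (nat_lit
 1332) (nat_lit 16) (.ev (nat_lit 1341) (nat_lit 2048) .dd)))))) (.br (nat_lit 4) (.ch (nat_lit 3) (.ev
 (nat_lit 688) (nat_lit 6176) (.ev (nat_lit 701) (nat_lit 16) .dd))) (.br (nat_lit 5) (.ch (nat_lit 4) (.ev
 (nat_lit 756) (nat_lit 16) (.ev (nat_lit 1172) (nat_lit 4096) (.nd (nat_lit 2368) (.br (nat_lit 4) (.br
 (nat_lit 2) (.ch (nat_lit 1) (.ev (nat_lit 2384) (nat_lit 32) (.ev (nat_lit 2397) (nat_lit 2048) .dd))) (.ch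
 (nat_lit 2) (.ev (nat_lit 2404) (nat_lit 32) (.ev (nat_lit 2413) (nat_lit 2048) .dd)))) (.br (nat_lit 5) (.ch
 (nat_lit 4) (.fin (nat_lit 576504182964961866))) (.ch (nat_lit 5) (.ev (nat_lit 2384) (nat_lit 32) (.ev
 (nat_lit 2397) (nat_lit 2048) .dd))))))))) (.ch (nat_lit 5) (.ev (nat_lit 852) (nat_lit 4096) (.ev (nat_lit
 964) (nat_lit 32) (.nd (nat_lit 1712) (.br (nat_lit 3) (.ch (nat_lit 0) (.ev (nat_lit 1728) (nat_lit 2048)
 (.ev (nat_lit 1741) (nat_lit 16) .dd))) (.br (nat_lit 5) (.ch (nat_lit 3) (.ev (nat_lit 1780) (nat_lit 2048)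
 (.ev (nat_lit 1789) (nat_lit 16) .dd))) (.ch (nat_lit 5) (.ev (nat_lit 1728) (nat_lit 16) (.ev (nat_lit 1741)
 (nat_lit 2048) .dd)))))))))))))))))))) (.br (nat_lit 6) (.ch (nat_lit 5) (.ev (nat_lit 272) (nat_lit 4096)
 (.nd (nat_lit 496) (.br (nat_lit 2) (.br (nat_lit 1) (.ch (nat_lit 0) (.ev (nat_lit 512) (nat_lit 2096) (.ev
 (nat_lit 525) (nat_lit 1024) .dd))) (.ch (nat_lit 1) (.ev (nat_lit 628) (nat_lit 16) (.nd (nat_lit 912) (.br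
 (nat_lit 5) (.br (nat_lit 4) (.ch (nat_lit 0) (.ev (nat_lit 2192) (nat_lit 32) (.nd (nat_lit 3632) (.ch
 (nat_lit 5) (.nd (nat_lit 4336) (.ch (nat_lit 5) (.nd (nat_lit 5120) (.br (nat_lit 5) (.ch (nat_lit 4) (.fin
 (nat_lit 576531670862610935))) (.ch (nat_lit 5) (.ev (nat_lit 5136) (nat_lit 1024) (.ev (nat_lit 5149)
 (nat_lit 2048) .dd))))))))))) (.ch (nat_lit 4) (.ev (nat_lit 928) (nat_lit 1024) (.ev (nat_lit 1060) (nat_lit
 32) (.ev (nat_lit 1069) (nat_lit 2048) .dd))))) (.br (nat_lit 6) (.ch (nat_lit 5) (.ev (nat_lit 928) (nat_lit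
 2080) (.ev (nat_lit 941) (nat_lit 1024) .dd))) (.ch (nat_lit 6) (.ev (nat_lit 948) (nat_lit 1024) (.ev
 (nat_lit 1044) (nat_lit 32) (.ev (nat_lit 1053) (nat_lit 2048) .dd)))))))))) (.br (nat_lit 3) (.ch (nat_lit 2)
 (.ev (nat_lit 512) (nat_lit 16) (.nd (nat_lit 1104) (.br (nat_lit 2) (.br (nat_lit 1) (.ch (nat_lit 0) (.ev
 (nat_lit 1120) (nat_lit 1024) (.ev (nat_lit 1300) (nat_lit 32) (.ev (nat_lit 1309) (nat_lit 2048) .dd)))) (.ch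
 (nat_lit 1) (.ev (nat_lit 1120) (nat_lit 3104) .dd))) (.br (nat_lit 3) (.ch (nat_lit 2) (.ev (nat_lit 1120)
 (nat_lit 2048) (.fin (nat_lit 576530571294360169)))) (.br (nat_lit 5) (.ch (nat_lit 3) (.ev (nat_lit 1140)
 (nat_lit 3072) (.ev (nat_lit 1149) (nat_lit 32) .dd))) (.ch (nat_lit 5) (.ev (nat_lit 1120) (nat_lit 2080)
 (.ev (nat_lit 1133) (nat_lit 1024) .dd))))))))) (.br (nat_lit 4) (.ch (nat_lit 3) (.ev (nat_lit 512) (nat_lit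
 1056) (.nd (nat_lit 1008) (.br (nat_lit 2) (.br (nat_lit 1) (.ch (nat_lit 0) (.ev (nat_lit 1428) (nat_lit 16)
 (.ev (nat_lit 1437) (nat_lit 2048) .dd))) (.ch (nat_lit 1) (.ev (nat_lit 1024) (nat_lit 2064) .dd))) (.br
 (nat_lit 5) (.ch (nat_lit 2) (.nd (nat_lit 2576) (.br (nat_lit 6) (.ch (nat_lit 4) (.ev (nat_lit 2592)
 (nat_lit 16) (.ev (nat_lit 2605) (nat_lit 2048) .dd))) (.ch (nat_lit 6) (.ev (nat_lit 2692) (nat_lit 16) (.ev
 (nat_lit 2701) (nat_lit 2048) .dd)))))) (.br (nat_lit 6) (.ch (nat_lit 5) (.ev (nat_lit 1024) (nat_lit 2048)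
 (.ev (nat_lit 1037) (nat_lit 16) .dd))) (.ch (nat_lit 6) (.nd (nat_lit 2576) (.br (nat_lit 4) (.ch (nat_lit 0)
 (.fin (nat_lit 576487690328293993))) (.ch (nat_lit 4) (.ev (nat_lit 2612) (nat_lit 2048) (.ev (nat_lit 2621)
 (nat_lit 16) .dd)))))))))))) (.ch (nat_lit 4) (.nd (nat_lit 912) (.br (nat_lit 2) (.br (nat_lit 1) (.ch
 (nat_lit 0) (.ev (nat_lit 928) (nat_lit 3072) (.ev (nat_lit 1140) (nat_lit 32) (.ev (nat_lit 1149) (nat_lit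
 16) .dd)))) (.ch (nat_lit 1) (.ev (nat_lit 928) (nat_lit 16) (.ev (nat_lit 1300) (nat_lit 2048) (.nd (nat_lit
 1712) (.br (nat_lit 2) (.ch (nat_lit 1) (.ev (nat_lit 2100) (nat_lit 32) (.ev (nat_lit 2109) (nat_lit 1024)
 .dd))) (.br (nat_lit 4) (.ch (nat_lit 2) (.ev (nat_lit 2100) (nat_lit 32) (.ev (nat_lit 2109) (nat_lit 1024)
 .dd))) (.ch (nat_lit 4) (.ev (nat_lit 2100) (nat_lit 32) (.ev (nat_lit 2109) (nat_lit 1024) .dd)))))))))) (.br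
 (nat_lit 4) (.ch (nat_lit 2) (.ev (nat_lit 1188) (nat_lit 1024) (.ev (nat_lit 1268) (nat_lit 16) (.ev (nat_lit
 2004) (nat_lit 2048) (.ev (nat_lit 2013) (nat_lit 32) .dd))))) (.br (nat_lit 6) (.ch (nat_lit 4) (.ev (nat_lit
 928) (nat_lit 1072) (.ev (nat_lit 941) (nat_lit 2048) .dd))) (.ch (nat_lit 6) (.nd (nat_lit 1664) (.br
 (nat_lit 2) (.br (nat_lit 1) (.ch (nat_lit 0) (.ev (nat_lit 1680) (nat_lit 3072) (.ev (nat_lit 2292) (nat_lit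
 16) (.ev (nat_lit 2301) (nat_lit 32) .dd)))) (.ch (nat_lit 1) (.ev (nat_lit 1680) (nat_lit 3104) (.ev (nat_lit
 1693) (nat_lit 16) .dd)))) (.br (nat_lit 4) (.ch (nat_lit 2) (.ev (nat_lit 1680) (nat_lit 48) (.nd (nat_lit
 3984) (.ch (nat_lit 1) (.nd (nat_lit 5024) (.br (nat_lit 2) (.ch (nat_lit 1) (.fin (nat_lit
 576426117707547191))) (.br (nat_lit 4) (.ch (nat_lit 2) (.ev (nat_lit 5040) (nat_lit 2048) (.ev (nat_lit 5053)
 (nat_lit 1024) .dd))) (.ch (nat_lit 4) (.ev (nat_lit 5040) (nat_lit 2048) (.ev (nat_lit 5053) (nat_lit 1024)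
 .dd)))))))))) (.br (nat_lit 6) (.ch (nat_lit 4) (.ev (nat_lit 1680) (nat_lit 2064) (.ev (nat_lit 1936)
 (nat_lit 1056) .dd))) (.ch (nat_lit 6) (.ev (nat_lit 1792) (nat_lit 1024) (.ev (nat_lit 2292) (nat_lit 16)
 (.ev (nat_lit 2340) (nat_lit 32) (.ev (nat_lit 2349) (nat_lit 2048) .dd))))))))))))))))))))) (.ch (nat_lit 6)
 (.ev (nat_lit 272) (nat_lit 3104) (.nd (nat_lit 496) (.br (nat_lit 2) (.br (nat_lit 1) (.ch (nat_lit 0) (.ev
 (nat_lit 512) (nat_lit 4112) .dd)) (.ch (nat_lit 1) (.ev (nat_lit 512) (nat_lit 16) (.ev (nat_lit 525)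
 (nat_lit 4096) .dd)))) (.br (nat_lit 3) (.ch (nat_lit 2) (.nd (nat_lit 1008) (.br (nat_lit 5) (.br (nat_lit 2)
 (.ch (nat_lit 1) (.nd (nat_lit 2496) (.br (nat_lit 2) (.ch (nat_lit 1) (.ev (nat_lit 2512) (nat_lit 4096) (.ev
 (nat_lit 2525) (nat_lit 16) .dd))) (.ch (nat_lit 2) (.fin (nat_lit 576484391759856151)))))) (.ch (nat_lit 2)
 (.ev (nat_lit 1024) (nat_lit 4096) (.ev (nat_lit 1037) (nat_lit 16) .dd)))) (.br (nat_lit 6) (.ch (nat_lit 5)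
 (.ev (nat_lit 1024) (nat_lit 16) (.ev (nat_lit 1037) (nat_lit 4096) .dd))) (.ch (nat_lit 6) (.ev (nat_lit
 1140) (nat_lit 4096) (.ev (nat_lit 1149) (nat_lit 16) .dd))))))) (.br (nat_lit 5) (.ch (nat_lit 3) (.nd
 (nat_lit 1008) (.br (nat_lit 4) (.br (nat_lit 2) (.ch (nat_lit 0) (.ev (nat_lit 1024) (nat_lit 4112) .dd))
 (.ch (nat_lit 2) (.ev (nat_lit 1172) (nat_lit 16) (.ev (nat_lit 1181) (nat_lit 4096) .dd)))) (.br (nat_lit 5)
 (.ch (nat_lit 4) (.nd (nat_lit 2304) (.br (nat_lit 4) (.ch (nat_lit 1) (.ev (nat_lit 2320) (nat_lit 4096) (.ev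
 (nat_lit 2333) (nat_lit 16) .dd))) (.ch (nat_lit 4) (.nd (nat_lit 4032) (.ch (nat_lit 5) (.nd (nat_lit 5056)
 (.br (nat_lit 4) (.ch (nat_lit 0) (.fin (nat_lit 576470098176852581))) (.br (nat_lit 5) (.ch (nat_lit 4) (.ev
 (nat_lit 5072) (nat_lit 16) (.ev (nat_lit 5085) (nat_lit 4096) .dd))) (.ch (nat_lit 5) (.ev (nat_lit 5072)
 (nat_lit 16) (.ev (nat_lit 5085) (nat_lit 4096) .dd)))))))))))) (.br (nat_lit 6) (.ch (nat_lit 5) (.nd
 (nat_lit 1664) (.br (nat_lit 2) (.ch (nat_lit 1) (.ev (nat_lit 2084) (nat_lit 16) (.ev (nat_lit 2093) (nat_lit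
 4096) .dd))) (.br (nat_lit 4) (.ch (nat_lit 2) (.ev (nat_lit 2084) (nat_lit 16) (.ev (nat_lit 2093) (nat_lit
 4096) .dd))) (.ch (nat_lit 4) (.ev (nat_lit 2084) (nat_lit 16) (.ev (nat_lit 2093) (nat_lit 4096) .dd)))))))
 (.ch (nat_lit 6) (.ev (nat_lit 1024) (nat_lit 4096) (.ev (nat_lit 1037) (nat_lit 16) .dd)))))))) (.ch (nat_lit
 5) (.nd (nat_lit 816) (.br (nat_lit 5) (.br (nat_lit 3) (.ch (nat_lit 2) (.ev (nat_lit 832) (nat_lit 16) (.ev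
 (nat_lit 845) (nat_lit 4096) .dd))) (.ch (nat_lit 3) (.ev (nat_lit 832) (nat_lit 4096) (.ev (nat_lit 845)
 (nat_lit 16) .dd)))) (.br (nat_lit 6) (.ch (nat_lit 5) (.ev (nat_lit 948) (nat_lit 4096) (.ev (nat_lit 957)
 (nat_lit 16) .dd))) (.ch (nat_lit 6) (.fin (nat_lit 576443709733159505))))))))))))))))))) (.ch (nat_lit 1)
 (.ev (nat_lit 48) (nat_lit 1072) (.nd (nat_lit 96) (.br (nat_lit 3) (.br (nat_lit 1) (.ch (nat_lit 0) (.ev
 (nat_lit 112) (nat_lit 2176) (.nd (nat_lit 496) (.br (nat_lit 3) (.br (nat_lit 1) (.ch (nat_lit 0) (.ev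
 (nat_lit 512) (nat_lit 4096) (.ev (nat_lit 525) (nat_lit 4) .dd))) (.ch (nat_lit 1) (.ev (nat_lit 512)
 (nat_lit 4) (.ev (nat_lit 525) (nat_lit 4096) .dd)))) (.br (nat_lit 4) (.ch (nat_lit 3) (.ev (nat_lit 512)
 (nat_lit 4) (.ev (nat_lit 525) (nat_lit 4096) .dd))) (.br (nat_lit 6) (.ch (nat_lit 4) (.nd (nat_lit 1232)
 (.br (nat_lit 3) (.br (nat_lit 2) (.ch (nat_lit 0) (.ev (nat_lit 1248) (nat_lit 4096) (.ev (nat_lit 1261)
 (nat_lit 4) .dd))) (.ch (nat_lit 2) (.nd (nat_lit 2928) (.br (nat_lit 5) (.br (nat_lit 1) (.ch (nat_lit 0)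
 (.fin (nat_lit 576472297136144959))) (.ch (nat_lit 1) (.ev (nat_lit 2944) (nat_lit 4100) .dd))) (.br (nat_lit
 6) (.ch (nat_lit 5) (.ev (nat_lit 2944) (nat_lit 4) (.ev (nat_lit 2957) (nat_lit 4096) .dd))) (.ch (nat_lit 6)
 (.ev (nat_lit 2944) (nat_lit 4100) .dd))))))) (.br (nat_lit 4) (.ch (nat_lit 3) (.ev (nat_lit 1248) (nat_lit
 4) (.ev (nat_lit 1261) (nat_lit 4096) .dd))) (.br (nat_lit 6) (.ch (nat_lit 4) (.ev (nat_lit 1268) (nat_lit 4)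
 (.ev (nat_lit 1277) (nat_lit 4096) .dd))) (.ch (nat_lit 6) (.ev (nat_lit 1268) (nat_lit 4096) (.ev (nat_lit
 1277) (nat_lit 4) .dd)))))))) (.ch (nat_lit 6) (.ev (nat_lit 512) (nat_lit 4096) (.ev (nat_lit 525) (nat_lit
 4) .dd))))))))) (.ch (nat_lit 1) (.ev (nat_lit 112) (nat_lit 6144) (.nd (nat_lit 352) (.br (nat_lit 2) (.br
 (nat_lit 1) (.ch (nat_lit 0) (.ev (nat_lit 368) (nat_lit 128) (.ev (nat_lit 381) (nat_lit 4) .dd))) (.ch
 (nat_lit 1) (.ev (nat_lit 368) (nat_lit 4) (.ev (nat_lit 381) (nat_lit 128) .dd)))) (.br (nat_lit 4) (.ch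
 (nat_lit 2) (.nd (nat_lit 816) (.br (nat_lit 4) (.br (nat_lit 2) (.ch (nat_lit 0) (.ev (nat_lit 1312) (nat_lit
 4) (.ev (nat_lit 1325) (nat_lit 128) .dd))) (.ch (nat_lit 2) (.ev (nat_lit 832) (nat_lit 128) (.ev (nat_lit
 845) (nat_lit 4) .dd)))) (.br (nat_lit 5) (.ch (nat_lit 4) (.nd (nat_lit 1712) (.br (nat_lit 4) (.ch (nat_lit
 2) (.ev (nat_lit 1728) (nat_lit 4) (.ev (nat_lit 1741) (nat_lit 128) .dd))) (.br (nat_lit 5) (.ch (nat_lit 4)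
 (.ev (nat_lit 1728) (nat_lit 128) (.ev (nat_lit 1741) (nat_lit 4) .dd))) (.ch (nat_lit 5) (.fin (nat_lit
 576483292284928553))))))) (.ch (nat_lit 5) (.fin (nat_lit 576531670862611145))))))) (.br (nat_lit 6) (.ch
 (nat_lit 4) (.ev (nat_lit 368) (nat_lit 132) .dd)) (.ch (nat_lit 6) (.nd (nat_lit 672) (.br (nat_lit 4) (.br
 (nat_lit 3) (.ch (nat_lit 1) (.ev (nat_lit 688) (nat_lit 132) .dd)) (.ch (nat_lit 3) (.fin (nat_lit
 576482192803709449)))) (.br (nat_lit 5) (.ch (nat_lit 4) (.ev (nat_lit 852) (nat_lit 4) (.ev (nat_lit 861)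
 (nat_lit 128) .dd))) (.br (nat_lit 6) (.ch (nat_lit 5) (.ev (nat_lit 688) (nat_lit 128) (.ev (nat_lit 701)
 (nat_lit 4) .dd))) (.ch (nat_lit 6) (.ev (nat_lit 868) (nat_lit 4) (.ev (nat_lit 877) (nat_lit 128)
 .dd))))))))))))))) (.br (nat_lit 5) (.ch (nat_lit 3) (.ev (nat_lit 112) (nat_lit 128) (.nd (nat_lit 544) (.br
 (nat_lit 4) (.br (nat_lit 2) (.ch (nat_lit 1) (.ev (nat_lit 560) (nat_lit 4) (.nd (nat_lit 1104) (.br (nat_lit
 4) (.ch (nat_lit 3) (.nd (nat_lit 1712) (.br (nat_lit 5) (.ch (nat_lit 0) (.fin (nat_lit 576399729530192375)))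
 (.ch (nat_lit 5) (.ev (nat_lit 2212) (nat_lit 4096) (.ev (nat_lit 2221) (nat_lit 2048) .dd)))))) (.ch (nat_lit
 4) (.ev (nat_lit 1172) (nat_lit 2048) (.ev (nat_lit 1181) (nat_lit 4096) .dd))))))) (.ch (nat_lit 2) (.nd
 (nat_lit 1008) (.br (nat_lit 3) (.br (nat_lit 1) (.ch (nat_lit 0) (.ev (nat_lit 1024) (nat_lit 4096) (.nd
 (nat_lit 1664) (.br (nat_lit 1) (.ch (nat_lit 0) (.ev (nat_lit 2004) (nat_lit 4) (.ev (nat_lit 2013) (nat_lit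
 2048) .dd))) (.br (nat_lit 6) (.ch (nat_lit 1) (.ev (nat_lit 1680) (nat_lit 4) (.ev (nat_lit 1693) (nat_lit
 2048) .dd))) (.ch (nat_lit 6) (.ev (nat_lit 1680) (nat_lit 2048) (.ev (nat_lit 1693) (nat_lit 4) .dd))))))))
 (.ch (nat_lit 1) (.ev (nat_lit 1024) (nat_lit 4096) (.ev (nat_lit 1140) (nat_lit 2048) (.ev (nat_lit 1149)
 (nat_lit 4) .dd))))) (.br (nat_lit 4) (.ch (nat_lit 3) (.ev (nat_lit 1024) (nat_lit 2048) (.nd (nat_lit 1664)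
 (.br (nat_lit 4) (.br (nat_lit 1) (.ch (nat_lit 0) (.ev (nat_lit 2116) (nat_lit 4096) (.ev (nat_lit 2125)
 (nat_lit 4) .dd))) (.ch (nat_lit 1) (.ev (nat_lit 2116) (nat_lit 4096) (.ev (nat_lit 2125) (nat_lit 4) .dd))))
 (.br (nat_lit 6) (.ch (nat_lit 4) (.ev (nat_lit 1680) (nat_lit 4096) (.ev (nat_lit 1693) (nat_lit 4) .dd)))
 (.ch (nat_lit 6) (.ev (nat_lit 1680) (nat_lit 4) (.ev (nat_lit 1693) (nat_lit 4096) .dd)))))))) (.br (nat_lit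
 6) (.ch (nat_lit 4) (.ev (nat_lit 1024) (nat_lit 4) (.fin (nat_lit 576462401566097986)))) (.ch (nat_lit 6)
 (.nd (nat_lit 1712) (.br (nat_lit 5) (.ch (nat_lit 0) (.ev (nat_lit 1728) (nat_lit 4) (.ev (nat_lit 2084)
 (nat_lit 4096) (.ev (nat_lit 2093) (nat_lit 2048) .dd)))) (.ch (nat_lit 5) (.ev (nat_lit 2084) (nat_lit 4100)
 (.ev (nat_lit 2093) (nat_lit 2048) .dd)))))))))))) (.br (nat_lit 5) (.ch (nat_lit 4) (.ev (nat_lit 560)
 (nat_lit 4096) (.nd (nat_lit 1008) (.br (nat_lit 4) (.br (nat_lit 3) (.ch (nat_lit 2) (.ev (nat_lit 1024)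
 (nat_lit 2048) (.ev (nat_lit 1037) (nat_lit 4) .dd))) (.ch (nat_lit 3) (.nd (nat_lit 1664) (.br (nat_lit 4)
 (.ch (nat_lit 2) (.fin (nat_lit 576525073703715351))) (.br (nat_lit 6) (.ch (nat_lit 4) (.ev (nat_lit 2212)
 (nat_lit 2048) (.ev (nat_lit 2221) (nat_lit 4) .dd))) (.ch (nat_lit 6) (.ev (nat_lit 1840) (nat_lit 2052)
 .dd))))))) (.br (nat_lit 5) (.ch (nat_lit 4) (.ev (nat_lit 1024) (nat_lit 4) (.ev (nat_lit 1037) (nat_lit
 2048) .dd))) (.ch (nat_lit 5) (.ev (nat_lit 1044) (nat_lit 2048) (.ev (nat_lit 1053) (nat_lit 4) .dd))))))))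
 (.br (nat_lit 6) (.ch (nat_lit 5) (.ev (nat_lit 560) (nat_lit 2048) (.nd (nat_lit 1232) (.br (nat_lit 5) (.br
 (nat_lit 1) (.ch (nat_lit 0) (.ev (nat_lit 1248) (nat_lit 4) (.ev (nat_lit 1261) (nat_lit 4096) .dd))) (.ch
 (nat_lit 1) (.ev (nat_lit 1428) (nat_lit 4) (.ev (nat_lit 1437) (nat_lit 4096) .dd)))) (.br (nat_lit 6) (.ch
 (nat_lit 5) (.nd (nat_lit 1712) (.ch (nat_lit 3) (.fin (nat_lit 576459103037506211))))) (.ch (nat_lit 6) (.ev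
 (nat_lit 1248) (nat_lit 4096) (.ev (nat_lit 1261) (nat_lit 4) .dd)))))))) (.ch (nat_lit 6) (.ev (nat_lit 560)
 (nat_lit 2052) (.ev (nat_lit 573) (nat_lit 4096) .dd))))))))) (.br (nat_lit 6) (.ch (nat_lit 5) (.nd (nat_lit
 320) (.br (nat_lit 4) (.br (nat_lit 2) (.ch (nat_lit 0) (.ev (nat_lit 336) (nat_lit 128) (.nd (nat_lit 720)
 (.br (nat_lit 3) (.br (nat_lit 1) (.ch (nat_lit 0) (.nd (nat_lit 2368) (.ch (nat_lit 6) (.nd (nat_lit 3696)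
 (.br (nat_lit 3) (.ch (nat_lit 1) (.ev (nat_lit 3712) (nat_lit 4) (.fin (nat_lit 576492088373756471)))) (.br
 (nat_lit 4) (.ch (nat_lit 3) (.ev (nat_lit 3712) (nat_lit 2048) (.fin (nat_lit 576258991921250433)))) (.ch
 (nat_lit 4) (.ev (nat_lit 3712) (nat_lit 2048) (.fin (nat_lit 576477794721546769)))))))))) (.ch (nat_lit 1)
 (.ev (nat_lit 736) (nat_lit 4) (.ev (nat_lit 852) (nat_lit 2048) (.ev (nat_lit 861) (nat_lit 4096) .dd)))))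
 (.br (nat_lit 5) (.ch (nat_lit 3) (.ev (nat_lit 736) (nat_lit 4096) (.nd (nat_lit 2368) (.br (nat_lit 1) (.ch
 (nat_lit 0) (.ev (nat_lit 2384) (nat_lit 2048) (.ev (nat_lit 2397) (nat_lit 4) .dd))) (.br (nat_lit 3) (.ch
 (nat_lit 1) (.nd (nat_lit 3840) (.br (nat_lit 4) (.ch (nat_lit 1) (.fin (nat_lit 576448107915985476))) (.ch
 (nat_lit 4) (.ev (nat_lit 3856) (nat_lit 4) (.ev (nat_lit 3869) (nat_lit 2048) .dd)))))) (.ch (nat_lit 3) (.ev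
 (nat_lit 2384) (nat_lit 4) (.ev (nat_lit 2397) (nat_lit 2048) .dd)))))))) (.br (nat_lit 6) (.ch (nat_lit 5)
 (.ev (nat_lit 1332) (nat_lit 4) (.ev (nat_lit 1840) (nat_lit 4096) (.ev (nat_lit 1853) (nat_lit 2048) .dd))))
 (.ch (nat_lit 6) (.ev (nat_lit 736) (nat_lit 2048) (.nd (nat_lit 1712) (.br (nat_lit 5) (.ch (nat_lit 2) (.ev
 (nat_lit 1728) (nat_lit 4) (.ev (nat_lit 1741) (nat_lit 4096) .dd))) (.br (nat_lit 6) (.ch (nat_lit 5) (.ev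
 (nat_lit 1728) (nat_lit 4096) (.ev (nat_lit 1741) (nat_lit 4) .dd))) (.ch (nat_lit 6) (.ev (nat_lit 1888)
 (nat_lit 4100) .dd))))))))))))) (.ch (nat_lit 2) (.ev (nat_lit 336) (nat_lit 4) (.nd (nat_lit 720) (.br
 (nat_lit 3) (.br (nat_lit 1) (.ch (nat_lit 0) (.nd (nat_lit 1712) (.br (nat_lit 5) (.ch (nat_lit 3) (.ev
 (nat_lit 1728) (nat_lit 2048) (.fin (nat_lit 576421719259431360)))) (.ch (nat_lit 5) (.ev (nat_lit 1728)
 (nat_lit 128) (.ev (nat_lit 2644) (nat_lit 4096) (.ev (nat_lit 2653) (nat_lit 2048) .dd))))))) (.ch (nat_lit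
 1) (.ev (nat_lit 736) (nat_lit 128) (.ev (nat_lit 1060) (nat_lit 4096) (.ev (nat_lit 1069) (nat_lit 2048)
 .dd))))) (.br (nat_lit 4) (.ch (nat_lit 3) (.ev (nat_lit 736) (nat_lit 128) (.nd (nat_lit 1712) (.br (nat_lit
 3) (.ch (nat_lit 2) (.ev (nat_lit 1728) (nat_lit 4096) (.ev (nat_lit 1741) (nat_lit 2048) .dd))) (.br (nat_lit
 4) (.ch (nat_lit 3) (.ev (nat_lit 1728) (nat_lit 6144) .dd)) (.ch (nat_lit 4) (.ev (nat_lit 1840) (nat_lit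
 6144) .dd))))))) (.br (nat_lit 6) (.ch (nat_lit 4) (.ev (nat_lit 736) (nat_lit 2048) (.nd (nat_lit 1712) (.br
 (nat_lit 4) (.ch (nat_lit 3) (.ev (nat_lit 1728) (nat_lit 4096) (.ev (nat_lit 1741) (nat_lit 128) .dd))) (.br
 (nat_lit 5) (.ch (nat_lit 4) (.ev (nat_lit 1728) (nat_lit 128) (.ev (nat_lit 1741) (nat_lit 4096) .dd))) (.ch
 (nat_lit 5) (.fin (nat_lit 576398629890638362)))))))) (.ch (nat_lit 6) (.ev (nat_lit 736) (nat_lit 6144) (.ev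
 (nat_lit 749) (nat_lit 128) .dd)))))))))) (.br (nat_lit 5) (.ch (nat_lit 4) (.ev (nat_lit 336) (nat_lit 6144)
 (.nd (nat_lit 1008) (.br (nat_lit 3) (.br (nat_lit 2) (.ch (nat_lit 0) (.fin (nat_lit 576458003521684027)))
 (.ch (nat_lit 2) (.ev (nat_lit 1024) (nat_lit 128) (.ev (nat_lit 1037) (nat_lit 4) .dd)))) (.br (nat_lit 5)
 (.ch (nat_lit 3) (.ev (nat_lit 1300) (nat_lit 128) (.ev (nat_lit 1309) (nat_lit 4) .dd))) (.ch (nat_lit 5)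
 (.ev (nat_lit 1024) (nat_lit 4) (.ev (nat_lit 1037) (nat_lit 128) .dd)))))))) (.br (nat_lit 6) (.ch (nat_lit
 5) (.ev (nat_lit 336) (nat_lit 4096) (.nd (nat_lit 912) (.br (nat_lit 2) (.br (nat_lit 1) (.ch (nat_lit 0)
 (.ev (nat_lit 928) (nat_lit 2052) (.ev (nat_lit 941) (nat_lit 128) .dd))) (.ch (nat_lit 1) (.ev (nat_lit 928)
 (nat_lit 132) (.ev (nat_lit 941) (nat_lit 2048) .dd)))) (.br (nat_lit 4) (.ch (nat_lit 2) (.ev (nat_lit 928)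
 (nat_lit 128) (.ev (nat_lit 948) (nat_lit 2048) (.ev (nat_lit 957) (nat_lit 4) .dd)))) (.br (nat_lit 5) (.ch
 (nat_lit 4) (.nd (nat_lit 2304) (.br (nat_lit 2) (.ch (nat_lit 0) (.ev (nat_lit 2320) (nat_lit 128) (.nd
 (nat_lit 3728) (.ch (nat_lit 6) (.nd (nat_lit 4960) (.br (nat_lit 4) (.ch (nat_lit 3) (.ev (nat_lit 4976)
 (nat_lit 4) (.ev (nat_lit 4989) (nat_lit 2048) .dd))) (.ch (nat_lit 4) (.fin (nat_lit
 576410724903371495))))))))) (.br (nat_lit 3) (.ch (nat_lit 2) (.ev (nat_lit 2320) (nat_lit 2176) (.ev (nat_lit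
 2333) (nat_lit 4) .dd))) (.ch (nat_lit 3) (.ev (nat_lit 2320) (nat_lit 4) (.nd (nat_lit 3664) (.ch (nat_lit 4)
 (.nd (nat_lit 4432) (.br (nat_lit 1) (.ch (nat_lit 0) (.ev (nat_lit 4448) (nat_lit 2048) (.ev (nat_lit 4461)
 (nat_lit 128) .dd))) (.br (nat_lit 5) (.ch (nat_lit 1) (.ev (nat_lit 4500) (nat_lit 2048) (.ev (nat_lit 4509)
 (nat_lit 128) .dd))) (.ch (nat_lit 5) (.fin (nat_lit 576508581032444482)))))))))))))) (.ch (nat_lit 5) (.ev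
 (nat_lit 928) (nat_lit 2048) (.nd (nat_lit 2304) (.br (nat_lit 3) (.ch (nat_lit 1) (.fin (nat_lit
 576487690523329440))) (.ch (nat_lit 3) (.ev (nat_lit 2320) (nat_lit 4) (.ev (nat_lit 2333) (nat_lit 128)
 .dd))))))))))))) (.ch (nat_lit 6) (.ev (nat_lit 336) (nat_lit 4) (.nd (nat_lit 720) (.br (nat_lit 4) (.ch
 (nat_lit 0) (.nd (nat_lit 1664) (.br (nat_lit 2) (.ch (nat_lit 1) (.ev (nat_lit 2788) (nat_lit 4096) (.fin
 (nat_lit 576467899163034205)))) (.ch (nat_lit 2) (.ev (nat_lit 1680) (nat_lit 128) (.ev (nat_lit 1952)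
 (nat_lit 6144) .dd)))))) (.br (nat_lit 6) (.ch (nat_lit 4) (.ev (nat_lit 736) (nat_lit 128) (.nd (nat_lit
 2368) (.br (nat_lit 4) (.ch (nat_lit 3) (.ev (nat_lit 3056) (nat_lit 6144) .dd)) (.br (nat_lit 6) (.ch
 (nat_lit 4) (.fin (nat_lit 576478894377878073))) (.ch (nat_lit 6) (.ev (nat_lit 2740) (nat_lit 4096) (.ev
 (nat_lit 2749) (nat_lit 2048) .dd)))))))) (.ch (nat_lit 6) (.ev (nat_lit 736) (nat_lit 128) (.ev (nat_lit
 2548) (nat_lit 4096) (.ev (nat_lit 2557) (nat_lit 2048) .dd)))))))))))))) (.ch (nat_lit 6) (.ev (nat_lit 112)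
 (nat_lit 4) (.nd (nat_lit 320) (.br (nat_lit 3) (.br (nat_lit 1) (.ch (nat_lit 0) (.ev (nat_lit 336) (nat_lit
 128) (.nd (nat_lit 720) (.br (nat_lit 5) (.ch (nat_lit 0) (.nd (nat_lit 2576) (.br (nat_lit 5) (.ch (nat_lit
 1) (.ev (nat_lit 2612) (nat_lit 4096) (.ev (nat_lit 2621) (nat_lit 2048) .dd))) (.ch (nat_lit 5) (.fin
 (nat_lit 576223807858491900)))))) (.ch (nat_lit 5) (.ev (nat_lit 852) (nat_lit 4096) (.ev (nat_lit 861)
 (nat_lit 2048) .dd))))))) (.ch (nat_lit 1) (.ev (nat_lit 336) (nat_lit 2048) (.nd (nat_lit 720) (.br (nat_lit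
 3) (.br (nat_lit 1) (.ch (nat_lit 0) (.nd (nat_lit 2496) (.br (nat_lit 5) (.br (nat_lit 1) (.ch (nat_lit 0)
 (.fin (nat_lit 576455804468019829))) (.ch (nat_lit 1) (.ev (nat_lit 2512) (nat_lit 4096) (.ev (nat_lit 2525)
 (nat_lit 128) .dd)))) (.br (nat_lit 6) (.ch (nat_lit 5) (.ev (nat_lit 2512) (nat_lit 128) (.ev (nat_lit 2525)
 (nat_lit 4096) .dd))) (.ch (nat_lit 6) (.ev (nat_lit 2512) (nat_lit 4096) (.ev (nat_lit 2525) (nat_lit 128)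
 .dd))))))) (.ch (nat_lit 1) (.ev (nat_lit 736) (nat_lit 4096) (.ev (nat_lit 749) (nat_lit 128) .dd)))) (.br
 (nat_lit 6) (.ch (nat_lit 3) (.nd (nat_lit 2304) (.br (nat_lit 4) (.ch (nat_lit 1) (.ev (nat_lit 2320)
 (nat_lit 4096) (.ev (nat_lit 2333) (nat_lit 128) .dd))) (.br (nat_lit 5) (.ch (nat_lit 4) (.fin (nat_lit
 576448107884528184))) (.ch (nat_lit 5) (.ev (nat_lit 2320) (nat_lit 128) (.ev (nat_lit 2333) (nat_lit 4096)
 .dd))))))) (.ch (nat_lit 6) (.ev (nat_lit 736) (nat_lit 128) (.ev (nat_lit 749) (nat_lit 4096) .dd)))))))))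
 (.br (nat_lit 4) (.ch (nat_lit 3) (.ev (nat_lit 336) (nat_lit 6144) (.ev (nat_lit 349) (nat_lit 128) .dd)))
 (.br (nat_lit 5) (.ch (nat_lit 4) (.ev (nat_lit 336) (nat_lit 4096) (.nd (nat_lit 720) (.br (nat_lit 4) (.br
 (nat_lit 3) (.ch (nat_lit 0) (.ev (nat_lit 1828) (nat_lit 2048) (.ev (nat_lit 1837) (nat_lit 128) .dd))) (.ch
 (nat_lit 3) (.ev (nat_lit 736) (nat_lit 128) (.ev (nat_lit 749) (nat_lit 2048) .dd)))) (.br (nat_lit 5) (.ch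
 (nat_lit 4) (.ev (nat_lit 736) (nat_lit 2048) (.ev (nat_lit 749) (nat_lit 128) .dd))) (.br (nat_lit 6) (.ch
 (nat_lit 5) (.fin (nat_lit 576371142149227031))) (.ch (nat_lit 6) (.nd (nat_lit 1664) (.br (nat_lit 2) (.br
 (nat_lit 1) (.ch (nat_lit 0) (.ev (nat_lit 1680) (nat_lit 2048) (.ev (nat_lit 1693) (nat_lit 128) .dd))) (.ch
 (nat_lit 1) (.nd (nat_lit 4656) (.ch (nat_lit 4) (.fin (nat_lit 576742776806785923)))))) (.br (nat_lit 3) (.ch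
 (nat_lit 2) (.ev (nat_lit 1680) (nat_lit 128) (.ev (nat_lit 1693) (nat_lit 2048) .dd))) (.br (nat_lit 4) (.ch
 (nat_lit 3) (.ev (nat_lit 1680) (nat_lit 2048) (.ev (nat_lit 1693) (nat_lit 128) .dd))) (.ch (nat_lit 4) (.ev
 (nat_lit 1680) (nat_lit 128) (.ev (nat_lit 1693) (nat_lit 2048) .dd)))))))))))))) (.ch (nat_lit 5) (.nd
 (nat_lit 720) (.br (nat_lit 4) (.br (nat_lit 1) (.ch (nat_lit 0) (.ev (nat_lit 1632) (nat_lit 128) (.fin
 (nat_lit 576530571292262998)))) (.ch (nat_lit 1) (.ev (nat_lit 736) (nat_lit 4096) (.fin (nat_lit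
 576490988864225863))))) (.br (nat_lit 6) (.ch (nat_lit 4) (.ev (nat_lit 736) (nat_lit 128) (.ev (nat_lit 884)
 (nat_lit 2048) (.ev (nat_lit 893) (nat_lit 4096) .dd)))) (.ch (nat_lit 6) (.ev (nat_lit 736) (nat_lit 128)
 (.ev (nat_lit 756) (nat_lit 4096) (.ev (nat_lit 765) (nat_lit 2048) .dd))))))))))))))))))))) (.br (nat_lit 3)
 (.ch (nat_lit 2) (.ev (nat_lit 48) (nat_lit 4096) (.nd (nat_lit 64) (.br (nat_lit 4) (.br (nat_lit 1) (.ch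
 (nat_lit 0) (.ev (nat_lit 80) (nat_lit 132) (.nd (nat_lit 544) (.br (nat_lit 2) (.br (nat_lit 1) (.ch (nat_lit
 0) (.ev (nat_lit 560) (nat_lit 48) (.nd (nat_lit 1104) (.br (nat_lit 2) (.br (nat_lit 1) (.ch (nat_lit 0) (.ev
 (nat_lit 1120) (nat_lit 3072) .dd)) (.ch (nat_lit 1) (.ev (nat_lit 1120) (nat_lit 1024) (.ev (nat_lit 1133)
 (nat_lit 2048) .dd)))) (.br (nat_lit 3) (.ch (nat_lit 2) (.ev (nat_lit 2036) (nat_lit 2048) (.ev (nat_lit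
 2045) (nat_lit 1024) .dd))) (.br (nat_lit 5) (.ch (nat_lit 3) (.ev (nat_lit 2100) (nat_lit 2048) (.ev (nat_lit
 2109) (nat_lit 1024) .dd))) (.ch (nat_lit 5) (.fin (nat_lit 576458003521684034))))))))) (.ch (nat_lit 1) (.ev
 (nat_lit 580) (nat_lit 1024) (.nd (nat_lit 1008) (.br (nat_lit 5) (.br (nat_lit 1) (.ch (nat_lit 0) (.ev
 (nat_lit 1024) (nat_lit 2048) (.ev (nat_lit 1300) (nat_lit 16) (.ev (nat_lit 1309) (nat_lit 32) .dd)))) (.ch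
 (nat_lit 1) (.ev (nat_lit 1024) (nat_lit 2048) (.ev (nat_lit 1300) (nat_lit 32) (.ev (nat_lit 1309) (nat_lit
 16) .dd))))) (.br (nat_lit 6) (.ch (nat_lit 5) (.ev (nat_lit 1140) (nat_lit 32) (.ev (nat_lit 1152) (nat_lit
 16) (.ev (nat_lit 1165) (nat_lit 2048) .dd)))) (.ch (nat_lit 6) (.ev (nat_lit 1024) (nat_lit 32) (.nd (nat_lit
 1712) (.br (nat_lit 4) (.ch (nat_lit 2) (.fin (nat_lit 576357947889107523))) (.ch (nat_lit 4) (.ev (nat_lit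
 2228) (nat_lit 2048) (.ev (nat_lit 2237) (nat_lit 16) .dd))))))))))))) (.br (nat_lit 5) (.ch (nat_lit 2) (.ev
 (nat_lit 560) (nat_lit 3104) (.ev (nat_lit 573) (nat_lit 16) .dd))) (.br (nat_lit 6) (.ch (nat_lit 5) (.nd
 (nat_lit 912) (.br (nat_lit 3) (.br (nat_lit 2) (.ch (nat_lit 0) (.ev (nat_lit 928) (nat_lit 2064) (.ev
 (nat_lit 1188) (nat_lit 1024) (.ev (nat_lit 1197) (nat_lit 32) .dd)))) (.ch (nat_lit 2) (.ev (nat_lit 928)
 (nat_lit 3072) (.ev (nat_lit 1188) (nat_lit 32) (.ev (nat_lit 1197) (nat_lit 16) .dd))))) (.br (nat_lit 4)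
 (.ch (nat_lit 3) (.ev (nat_lit 928) (nat_lit 1072) (.ev (nat_lit 941) (nat_lit 2048) .dd))) (.br (nat_lit 5)
 (.ch (nat_lit 4) (.ev (nat_lit 928) (nat_lit 1024) (.ev (nat_lit 1044) (nat_lit 2048) (.ev (nat_lit 1364)
 (nat_lit 32) (.ev (nat_lit 1373) (nat_lit 16) .dd))))) (.ch (nat_lit 5) (.nd (nat_lit 1536) (.br (nat_lit 3)
 (.br (nat_lit 2) (.ch (nat_lit 0) (.ev (nat_lit 1552) (nat_lit 16) (.nd (nat_lit 3600) (.br (nat_lit 5) (.ch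
 (nat_lit 4) (.ev (nat_lit 3616) (nat_lit 1024) (.fin (nat_lit 576518476602491427)))) (.ch (nat_lit 5) (.ev
 (nat_lit 3616) (nat_lit 2048) (.fin (nat_lit 576399729289019985)))))))) (.ch (nat_lit 2) (.ev (nat_lit 1552)
 (nat_lit 3072) (.ev (nat_lit 1780) (nat_lit 16) (.ev (nat_lit 1789) (nat_lit 32) .dd))))) (.br (nat_lit 5)
 (.ch (nat_lit 3) (.ev (nat_lit 1700) (nat_lit 32) (.ev (nat_lit 1876) (nat_lit 2048) (.ev (nat_lit 2180)
 (nat_lit 16) (.ev (nat_lit 2189) (nat_lit 1024) .dd))))) (.ch (nat_lit 5) (.ev (nat_lit 1552) (nat_lit 1056)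
 (.ev (nat_lit 2180) (nat_lit 16) (.ev (nat_lit 2189) (nat_lit 2048) .dd))))))))))))) (.ch (nat_lit 6) (.ev
 (nat_lit 560) (nat_lit 2048) (.nd (nat_lit 1104) (.br (nat_lit 3) (.br (nat_lit 2) (.ch (nat_lit 1) (.ev
 (nat_lit 1120) (nat_lit 1072) .dd)) (.ch (nat_lit 2) (.ev (nat_lit 1268) (nat_lit 1024) (.nd (nat_lit 3296)
 (.br (nat_lit 2) (.ch (nat_lit 1) (.fin (nat_lit 576462401573438018))) (.ch (nat_lit 2) (.ev (nat_lit 3312)
 (nat_lit 16) (.ev (nat_lit 3325) (nat_lit 32) .dd)))))))) (.br (nat_lit 4) (.ch (nat_lit 3) (.ev (nat_lit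
 1120) (nat_lit 1056) (.ev (nat_lit 1133) (nat_lit 16) .dd))) (.br (nat_lit 5) (.ch (nat_lit 4) (.ev (nat_lit
 1120) (nat_lit 16) (.ev (nat_lit 1444) (nat_lit 1024) (.ev (nat_lit 1453) (nat_lit 32) .dd)))) (.ch (nat_lit
 5) (.ev (nat_lit 1300) (nat_lit 32) (.nd (nat_lit 4256) (.ch (nat_lit 1) (.nd (nat_lit 4288) (.ch (nat_lit 4)
 (.nd (nat_lit 4896) (.br (nat_lit 4) (.ch (nat_lit 0) (.fin (nat_lit 576529471718769287))) (.ch (nat_lit 4)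
 (.ev (nat_lit 4912) (nat_lit 1024) (.ev (nat_lit 4925) (nat_lit 16) .dd))))))))))))))))))))))) (.ch (nat_lit
 1) (.ev (nat_lit 80) (nat_lit 2096) (.nd (nat_lit 544) (.br (nat_lit 3) (.br (nat_lit 1) (.ch (nat_lit 0) (.ev
 (nat_lit 560) (nat_lit 1024) (.nd (nat_lit 1392) (.br (nat_lit 2) (.ch (nat_lit 0) (.ev (nat_lit 2740)
 (nat_lit 4) (.ev (nat_lit 2749) (nat_lit 128) .dd))) (.br (nat_lit 6) (.ch (nat_lit 2) (.nd (nat_lit 3024)
 (.br (nat_lit 5) (.ch (nat_lit 1) (.ev (nat_lit 3040) (nat_lit 4) (.ev (nat_lit 3053) (nat_lit 128) .dd)))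
 (.ch (nat_lit 5) (.ev (nat_lit 3040) (nat_lit 128) (.ev (nat_lit 3053) (nat_lit 4) .dd)))))) (.ch (nat_lit 6)
 (.nd (nat_lit 3024) (.br (nat_lit 5) (.ch (nat_lit 3) (.fin (nat_lit 576470098169512521))) (.ch (nat_lit 5)
 (.ev (nat_lit 3088) (nat_lit 132) .dd)))))))))) (.ch (nat_lit 1) (.ev (nat_lit 560) (nat_lit 1024) (.nd
 (nat_lit 1104) (.br (nat_lit 2) (.br (nat_lit 1) (.ch (nat_lit 0) (.nd (nat_lit 3216) (.br (nat_lit 4) (.ch
 (nat_lit 3) (.ev (nat_lit 3232) (nat_lit 132) .dd)) (.ch (nat_lit 4) (.nd (nat_lit 3760) (.br (nat_lit 2) (.ch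
 (nat_lit 1) (.ev (nat_lit 3776) (nat_lit 4) (.ev (nat_lit 3789) (nat_lit 128) .dd))) (.br (nat_lit 5) (.ch
 (nat_lit 2) (.fin (nat_lit 576451406184530273))) (.ch (nat_lit 5) (.ev (nat_lit 3776) (nat_lit 128) (.ev
 (nat_lit 3789) (nat_lit 4) .dd)))))))))) (.ch (nat_lit 1) (.ev (nat_lit 1364) (nat_lit 128) (.ev (nat_lit
 1373) (nat_lit 4) .dd)))) (.br (nat_lit 3) (.ch (nat_lit 2) (.ev (nat_lit 1120) (nat_lit 4) (.ev (nat_lit
 1133) (nat_lit 128) .dd))) (.ch (nat_lit 3) (.ev (nat_lit 1120) (nat_lit 4) (.ev (nat_lit 1133) (nat_lit 128)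
 .dd))))))))) (.br (nat_lit 5) (.ch (nat_lit 3) (.ev (nat_lit 560) (nat_lit 132) (.ev (nat_lit 573) (nat_lit
 1024) .dd))) (.br (nat_lit 6) (.ch (nat_lit 5) (.nd (nat_lit 1104) (.br (nat_lit 4) (.br (nat_lit 3) (.ch
 (nat_lit 1) (.ev (nat_lit 1300) (nat_lit 1024) (.nd (nat_lit 1664) (.br (nat_lit 2) (.ch (nat_lit 1) (.ev
 (nat_lit 1936) (nat_lit 132) .dd)) (.ch (nat_lit 2) (.ev (nat_lit 1936) (nat_lit 4) (.ev (nat_lit 1949)
 (nat_lit 128) .dd))))))) (.ch (nat_lit 3) (.ev (nat_lit 1120) (nat_lit 1024) (.ev (nat_lit 1460) (nat_lit 128)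
 (.ev (nat_lit 1469) (nat_lit 4) .dd))))) (.br (nat_lit 5) (.ch (nat_lit 4) (.nd (nat_lit 2576) (.br (nat_lit
 3) (.br (nat_lit 2) (.ch (nat_lit 0) (.ev (nat_lit 2592) (nat_lit 1152) (.ev (nat_lit 2605) (nat_lit 4) .dd)))
 (.ch (nat_lit 2) (.ev (nat_lit 2592) (nat_lit 128) (.ev (nat_lit 2788) (nat_lit 4) (.ev (nat_lit 2797)
 (nat_lit 1024) .dd))))) (.br (nat_lit 5) (.ch (nat_lit 3) (.ev (nat_lit 2592) (nat_lit 1152) (.ev (nat_lit
 2605) (nat_lit 4) .dd))) (.br (nat_lit 6) (.ch (nat_lit 5) (.ev (nat_lit 2592) (nat_lit 1152) (.ev (nat_lit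
 2605) (nat_lit 4) .dd))) (.ch (nat_lit 6) (.ev (nat_lit 2592) (nat_lit 4) (.fin (nat_lit
 576494287429517889))))))))) (.br (nat_lit 6) (.ch (nat_lit 5) (.ev (nat_lit 1120) (nat_lit 132) (.ev (nat_lit
 1133) (nat_lit 1024) .dd))) (.ch (nat_lit 6) (.ev (nat_lit 1120) (nat_lit 4) (.ev (nat_lit 1268) (nat_lit
 1024) (.ev (nat_lit 1277) (nat_lit 128) .dd))))))))) (.ch (nat_lit 6) (.ev (nat_lit 560) (nat_lit 128) (.ev
 (nat_lit 580) (nat_lit 1024) (.ev (nat_lit 589) (nat_lit 4) .dd))))))))))) (.br (nat_lit 5) (.ch (nat_lit 4)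
 (.ev (nat_lit 80) (nat_lit 4) (.nd (nat_lit 288) (.br (nat_lit 3) (.br (nat_lit 2) (.ch (nat_lit 1) (.ev
 (nat_lit 304) (nat_lit 128) (.nd (nat_lit 672) (.br (nat_lit 3) (.br (nat_lit 2) (.ch (nat_lit 1) (.ev
 (nat_lit 688) (nat_lit 2064) (.ev (nat_lit 1828) (nat_lit 32) (.ev (nat_lit 1837) (nat_lit 1024) .dd)))) (.ch
 (nat_lit 2) (.ev (nat_lit 688) (nat_lit 48) (.nd (nat_lit 2368) (.br (nat_lit 4) (.ch (nat_lit 0) (.fin
 (nat_lit 576773563410235900))) (.ch (nat_lit 4) (.ev (nat_lit 2628) (nat_lit 2048) (.ev (nat_lit 2637)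
 (nat_lit 1024) .dd)))))))) (.br (nat_lit 4) (.ch (nat_lit 3) (.ev (nat_lit 688) (nat_lit 2048) (.nd (nat_lit
 2496) (.br (nat_lit 1) (.ch (nat_lit 0) (.ev (nat_lit 2900) (nat_lit 32) (.nd (nat_lit 3792) (.br (nat_lit 2)
 (.ch (nat_lit 0) (.fin (nat_lit 576464600644928110))) (.ch (nat_lit 2) (.ev (nat_lit 3808) (nat_lit 1024) (.ev
 (nat_lit 3821) (nat_lit 16) .dd))))))) (.br (nat_lit 5) (.ch (nat_lit 1) (.ev (nat_lit 2512) (nat_lit 1024)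
 (.ev (nat_lit 2628) (nat_lit 16) (.ev (nat_lit 2637) (nat_lit 32) .dd)))) (.ch (nat_lit 5) (.ev (nat_lit 2512)
 (nat_lit 16) (.ev (nat_lit 2548) (nat_lit 1024) (.ev (nat_lit 2557) (nat_lit 32) .dd))))))))) (.ch (nat_lit 4)
 (.ev (nat_lit 868) (nat_lit 2048) (.ev (nat_lit 964) (nat_lit 16) (.ev (nat_lit 1044) (nat_lit 32) (.ev
 (nat_lit 1053) (nat_lit 1024) .dd)))))))))) (.ch (nat_lit 2) (.ev (nat_lit 304) (nat_lit 2176) (.nd (nat_lit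
 672) (.br (nat_lit 5) (.ch (nat_lit 3) (.ev (nat_lit 1300) (nat_lit 32) (.nd (nat_lit 2496) (.br (nat_lit 4)
 (.ch (nat_lit 0) (.ev (nat_lit 2512) (nat_lit 1024) (.ev (nat_lit 2525) (nat_lit 16) .dd))) (.ch (nat_lit 4)
 (.ev (nat_lit 2512) (nat_lit 16) (.ev (nat_lit 2525) (nat_lit 1024) .dd))))))) (.br (nat_lit 6) (.ch (nat_lit
 5) (.ev (nat_lit 1268) (nat_lit 32) (.ev (nat_lit 2752) (nat_lit 1040) .dd))) (.ch (nat_lit 6) (.ev (nat_lit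
 688) (nat_lit 32) (.nd (nat_lit 2496) (.br (nat_lit 2) (.ch (nat_lit 1) (.ev (nat_lit 2720) (nat_lit 1040)
 .dd)) (.br (nat_lit 4) (.ch (nat_lit 2) (.ev (nat_lit 3076) (nat_lit 1024) (.ev (nat_lit 3085) (nat_lit 16)
 .dd))) (.ch (nat_lit 4) (.fin (nat_lit 576390933269398143)))))))))))))) (.br (nat_lit 4) (.ch (nat_lit 3) (.ev
 (nat_lit 304) (nat_lit 1056) (.nd (nat_lit 720) (.br (nat_lit 2) (.br (nat_lit 1) (.ch (nat_lit 0) (.ev
 (nat_lit 736) (nat_lit 16) (.fin (nat_lit 576431615257297465)))) (.ch (nat_lit 1) (.ev (nat_lit 1600) (nat_lit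
 128) (.fin (nat_lit 576523974191039074))))) (.br (nat_lit 4) (.ch (nat_lit 2) (.ev (nat_lit 736) (nat_lit 128)
 (.ev (nat_lit 772) (nat_lit 2048) (.ev (nat_lit 781) (nat_lit 16) .dd)))) (.ch (nat_lit 4) (.ev (nat_lit 736)
 (nat_lit 128) (.ev (nat_lit 868) (nat_lit 16) (.ev (nat_lit 877) (nat_lit 2048) .dd))))))))) (.br (nat_lit 6)
 (.ch (nat_lit 4) (.nd (nat_lit 672) (.br (nat_lit 2) (.br (nat_lit 1) (.ch (nat_lit 0) (.ev (nat_lit 688)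
 (nat_lit 2064) (.nd (nat_lit 1664) (.br (nat_lit 3) (.ch (nat_lit 1) (.ev (nat_lit 1680) (nat_lit 1024) (.ev
 (nat_lit 2064) (nat_lit 160) .dd))) (.ch (nat_lit 3) (.nd (nat_lit 3632) (.br (nat_lit 5) (.ch (nat_lit 3)
 (.ev (nat_lit 3648) (nat_lit 32) (.fin (nat_lit 576654815729762963)))) (.br (nat_lit 6) (.ch (nat_lit 5) (.ev
 (nat_lit 3648) (nat_lit 32) (.fin (nat_lit 576510780066185839)))) (.ch (nat_lit 6) (.ev (nat_lit 3648)
 (nat_lit 128) (.fin (nat_lit 576492088398922341)))))))))))) (.ch (nat_lit 1) (.ev (nat_lit 688) (nat_lit 1072)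
 (.ev (nat_lit 1792) (nat_lit 2176) .dd)))) (.br (nat_lit 3) (.ch (nat_lit 2) (.ev (nat_lit 868) (nat_lit 1024)
 (.ev (nat_lit 1364) (nat_lit 32) (.nd (nat_lit 1712) (.br (nat_lit 3) (.br (nat_lit 2) (.ch (nat_lit 0) (.ev
 (nat_lit 1728) (nat_lit 128) (.ev (nat_lit 1780) (nat_lit 2048) (.ev (nat_lit 1789) (nat_lit 16) .dd)))) (.ch
 (nat_lit 2) (.ev (nat_lit 1728) (nat_lit 128) (.ev (nat_lit 1780) (nat_lit 2048) (.ev (nat_lit 1789) (nat_lit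
 16) .dd))))) (.br (nat_lit 5) (.ch (nat_lit 3) (.nd (nat_lit 3600) (.br (nat_lit 5) (.ch (nat_lit 1) (.ev
 (nat_lit 3616) (nat_lit 2048) (.fin (nat_lit 576470098150638150)))) (.ch (nat_lit 5) (.ev (nat_lit 3616)
 (nat_lit 16) (.fin (nat_lit 576828539122696935))))))) (.br (nat_lit 6) (.ch (nat_lit 5) (.ev (nat_lit 1728)
 (nat_lit 2176) (.ev (nat_lit 1741) (nat_lit 16) .dd))) (.ch (nat_lit 6) (.ev (nat_lit 1728) (nat_lit 2064)
 (.ev (nat_lit 1741) (nat_lit 128) .dd)))))))))) (.br (nat_lit 5) (.ch (nat_lit 3) (.ev (nat_lit 688) (nat_lit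
 128) (.nd (nat_lit 1664) (.br (nat_lit 5) (.ch (nat_lit 3) (.ev (nat_lit 1680) (nat_lit 1056) (.fin (nat_lit
 576558059073520221)))) (.br (nat_lit 6) (.ch (nat_lit 5) (.ev (nat_lit 1680) (nat_lit 2080) (.ev (nat_lit
 1780) (nat_lit 16) (.ev (nat_lit 1789) (nat_lit 1024) .dd)))) (.ch (nat_lit 6) (.ev (nat_lit 1680) (nat_lit
 3072) (.fin (nat_lit 576443709953360325))))))))) (.ch (nat_lit 5) (.ev (nat_lit 688) (nat_lit 32) (.ev
 (nat_lit 756) (nat_lit 2048) (.ev (nat_lit 1364) (nat_lit 128) (.ev (nat_lit 1924) (nat_lit 1024) (.ev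
 (nat_lit 1933) (nat_lit 16) .dd))))))))))) (.ch (nat_lit 6) (.ev (nat_lit 304) (nat_lit 3088) (.nd (nat_lit
 720) (.br (nat_lit 3) (.ch (nat_lit 1) (.ev (nat_lit 1924) (nat_lit 128) (.ev (nat_lit 1933) (nat_lit 32)
 .dd))) (.ch (nat_lit 3) (.nd (nat_lit 1664) (.br (nat_lit 2) (.ch (nat_lit 1) (.fin (nat_lit
 576452505926844979))) (.ch (nat_lit 2) (.ev (nat_lit 2672) (nat_lit 160) .dd))))))))))))))) (.br (nat_lit 6)
 (.ch (nat_lit 5) (.ev (nat_lit 80) (nat_lit 1040) (.nd (nat_lit 320) (.br (nat_lit 2) (.br (nat_lit 1) (.ch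
 (nat_lit 0) (.ev (nat_lit 336) (nat_lit 2080) (.nd (nat_lit 912) (.br (nat_lit 5) (.br (nat_lit 4) (.ch
 (nat_lit 0) (.ev (nat_lit 928) (nat_lit 128) (.ev (nat_lit 941) (nat_lit 4) .dd))) (.ch (nat_lit 4) (.ev
 (nat_lit 928) (nat_lit 128) (.ev (nat_lit 941) (nat_lit 4) .dd)))) (.br (nat_lit 6) (.ch (nat_lit 5) (.fin
 (nat_lit 576481093281596011))) (.ch (nat_lit 6) (.ev (nat_lit 928) (nat_lit 128) (.ev (nat_lit 941) (nat_lit
 4) .dd)))))))) (.ch (nat_lit 1) (.ev (nat_lit 336) (nat_lit 4) (.nd (nat_lit 816) (.br (nat_lit 2) (.br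
 (nat_lit 1) (.ch (nat_lit 0) (.ev (nat_lit 832) (nat_lit 2048) (.nd (nat_lit 1664) (.br (nat_lit 3) (.ch
 (nat_lit 0) (.ev (nat_lit 1680) (nat_lit 128) (.ev (nat_lit 1693) (nat_lit 32) .dd))) (.br (nat_lit 6) (.ch
 (nat_lit 3) (.fin (nat_lit 576762568383087545))) (.ch (nat_lit 6) (.ev (nat_lit 1680) (nat_lit 32) (.ev
 (nat_lit 1693) (nat_lit 128) .dd)))))))) (.ch (nat_lit 1) (.ev (nat_lit 832) (nat_lit 160) (.ev (nat_lit 845)
 (nat_lit 2048) .dd)))) (.br (nat_lit 4) (.ch (nat_lit 2) (.ev (nat_lit 832) (nat_lit 128) (.fin (nat_lit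
 576489889340015163)))) (.br (nat_lit 6) (.ch (nat_lit 4) (.ev (nat_lit 832) (nat_lit 32) (.ev (nat_lit 1876)
 (nat_lit 2048) (.ev (nat_lit 1885) (nat_lit 128) .dd)))) (.ch (nat_lit 6) (.nd (nat_lit 2368) (.br (nat_lit 2)
 (.ch (nat_lit 0) (.ev (nat_lit 2384) (nat_lit 32) (.nd (nat_lit 3792) (.br (nat_lit 6) (.ch (nat_lit 2) (.fin
 (nat_lit 576470098138055236))) (.ch (nat_lit 6) (.ev (nat_lit 3808) (nat_lit 128) (.ev (nat_lit 3821) (nat_lit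
 2048) .dd))))))) (.br (nat_lit 5) (.ch (nat_lit 2) (.ev (nat_lit 2384) (nat_lit 2176) (.ev (nat_lit 2397)
 (nat_lit 32) .dd))) (.ch (nat_lit 5) (.ev (nat_lit 2404) (nat_lit 2048) (.nd (nat_lit 3728) (.ch (nat_lit 0)
 (.nd (nat_lit 4464) (.br (nat_lit 5) (.ch (nat_lit 2) (.ev (nat_lit 4480) (nat_lit 32) (.ev (nat_lit 4493)
 (nat_lit 128) .dd))) (.ch (nat_lit 5) (.fin (nat_lit 576517377140146778)))))))))))))))))))) (.br (nat_lit 3)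
 (.ch (nat_lit 2) (.nd (nat_lit 672) (.br (nat_lit 2) (.br (nat_lit 1) (.ch (nat_lit 0) (.ev (nat_lit 688)
 (nat_lit 2048) (.ev (nat_lit 1364) (nat_lit 128) (.ev (nat_lit 1828) (nat_lit 4) (.ev (nat_lit 1837) (nat_lit
 32) .dd))))) (.ch (nat_lit 1) (.ev (nat_lit 688) (nat_lit 4) (.nd (nat_lit 1664) (.br (nat_lit 2) (.br
 (nat_lit 1) (.ch (nat_lit 0) (.ev (nat_lit 1680) (nat_lit 32) (.ev (nat_lit 1972) (nat_lit 2048) (.ev (nat_lit
 1981) (nat_lit 128) .dd)))) (.ch (nat_lit 1) (.ev (nat_lit 1680) (nat_lit 128) (.fin (nat_lit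
 576461302059713047))))) (.br (nat_lit 4) (.ch (nat_lit 2) (.ev (nat_lit 1680) (nat_lit 2080) (.ev (nat_lit
 1693) (nat_lit 128) .dd))) (.ch (nat_lit 4) (.ev (nat_lit 1680) (nat_lit 2048) (.ev (nat_lit 2036) (nat_lit
 32) (.ev (nat_lit 2045) (nat_lit 128) .dd)))))))))) (.br (nat_lit 3) (.ch (nat_lit 2) (.ev (nat_lit 688)
 (nat_lit 128) (.ev (nat_lit 1344) (nat_lit 4) (.ev (nat_lit 2564) (nat_lit 32) (.ev (nat_lit 2573) (nat_lit
 2048) .dd))))) (.br (nat_lit 4) (.ch (nat_lit 3) (.ev (nat_lit 688) (nat_lit 2080) (.ev (nat_lit 1060)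
 (nat_lit 128) (.ev (nat_lit 1069) (nat_lit 4) .dd)))) (.ch (nat_lit 4) (.ev (nat_lit 688) (nat_lit 132) (.nd
 (nat_lit 2496) (.br (nat_lit 4) (.ch (nat_lit 2) (.ev (nat_lit 2788) (nat_lit 32) (.ev (nat_lit 2797) (nat_lit
 2048) .dd))) (.br (nat_lit 5) (.ch (nat_lit 4) (.fin (nat_lit 576432714669310605))) (.ch (nat_lit 5) (.ev
 (nat_lit 3076) (nat_lit 2048) (.ev (nat_lit 3085) (nat_lit 32) .dd))))))))))))) (.br (nat_lit 6) (.ch (nat_lit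
 3) (.ev (nat_lit 336) (nat_lit 32) (.nd (nat_lit 912) (.br (nat_lit 4) (.br (nat_lit 2) (.ch (nat_lit 0) (.ev
 (nat_lit 928) (nat_lit 128) (.ev (nat_lit 948) (nat_lit 2048) (.ev (nat_lit 957) (nat_lit 4) .dd)))) (.ch
 (nat_lit 2) (.ev (nat_lit 928) (nat_lit 2052) (.ev (nat_lit 941) (nat_lit 128) .dd)))) (.br (nat_lit 5) (.ch
 (nat_lit 4) (.nd (nat_lit 2304) (.br (nat_lit 3) (.br (nat_lit 1) (.ch (nat_lit 0) (.ev (nat_lit 2320)
 (nat_lit 2048) (.fin (nat_lit 576426117707547177)))) (.ch (nat_lit 1) (.ev (nat_lit 2320) (nat_lit 128) (.nd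
 (nat_lit 3760) (.ch (nat_lit 5) (.nd (nat_lit 4992) (.br (nat_lit 6) (.ch (nat_lit 0) (.ev (nat_lit 5008)
 (nat_lit 4) (.ev (nat_lit 5021) (nat_lit 2048) .dd))) (.ch (nat_lit 6) (.fin (nat_lit
 576324962587460483)))))))))) (.br (nat_lit 5) (.ch (nat_lit 3) (.ev (nat_lit 2320) (nat_lit 2052) (.ev
 (nat_lit 2333) (nat_lit 128) .dd))) (.ch (nat_lit 5) (.ev (nat_lit 2320) (nat_lit 128) (.nd (nat_lit 3696)
 (.ch (nat_lit 6) (.nd (nat_lit 4464) (.br (nat_lit 5) (.ch (nat_lit 2) (.ev (nat_lit 4480) (nat_lit 4) (.ev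
 (nat_lit 4493) (nat_lit 2048) .dd))) (.ch (nat_lit 5) (.fin (nat_lit 576411824055337538))))))))))))) (.br
 (nat_lit 6) (.ch (nat_lit 5) (.ev (nat_lit 928) (nat_lit 2176) (.ev (nat_lit 941) (nat_lit 4) .dd))) (.ch
 (nat_lit 6) (.ev (nat_lit 928) (nat_lit 132) (.ev (nat_lit 941) (nat_lit 2048) .dd))))))))) (.ch (nat_lit 6)
 (.ev (nat_lit 336) (nat_lit 128) (.nd (nat_lit 720) (.br (nat_lit 3) (.br (nat_lit 1) (.ch (nat_lit 0) (.ev
 (nat_lit 736) (nat_lit 4) (.ev (nat_lit 1076) (nat_lit 2048) (.ev (nat_lit 1085) (nat_lit 32) .dd)))) (.ch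
 (nat_lit 1) (.ev (nat_lit 736) (nat_lit 4) (.fin (nat_lit 576575650841182980))))) (.br (nat_lit 5) (.ch
 (nat_lit 3) (.ev (nat_lit 736) (nat_lit 2048) (.nd (nat_lit 2304) (.br (nat_lit 5) (.ch (nat_lit 3) (.ev
 (nat_lit 2548) (nat_lit 4) (.ev (nat_lit 2557) (nat_lit 32) .dd))) (.ch (nat_lit 5) (.fin (nat_lit
 576448107957928504))))))) (.ch (nat_lit 5) (.ev (nat_lit 736) (nat_lit 32) (.nd (nat_lit 1664) (.br (nat_lit
 6) (.ch (nat_lit 4) (.ev (nat_lit 1876) (nat_lit 2048) (.ev (nat_lit 1885) (nat_lit 4) .dd))) (.ch (nat_lit 6)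
 (.ev (nat_lit 1780) (nat_lit 2048) (.ev (nat_lit 1789) (nat_lit 4) .dd)))))))))))))))))) (.ch (nat_lit 6) (.ev
 (nat_lit 80) (nat_lit 2048) (.nd (nat_lit 320) (.br (nat_lit 4) (.br (nat_lit 3) (.ch (nat_lit 1) (.ev
 (nat_lit 336) (nat_lit 32) (.ev (nat_lit 436) (nat_lit 16) (.nd (nat_lit 816) (.br (nat_lit 5) (.br (nat_lit
 3) (.ch (nat_lit 1) (.ev (nat_lit 832) (nat_lit 132) (.ev (nat_lit 845) (nat_lit 1024) .dd))) (.ch (nat_lit 3)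
 (.ev (nat_lit 832) (nat_lit 1024) (.ev (nat_lit 1060) (nat_lit 4) (.ev (nat_lit 1069) (nat_lit 128) .dd)))))
 (.br (nat_lit 6) (.ch (nat_lit 5) (.ev (nat_lit 832) (nat_lit 128) (.nd (nat_lit 2576) (.br (nat_lit 6) (.ch
 (nat_lit 5) (.ev (nat_lit 2592) (nat_lit 4) (.ev (nat_lit 2605) (nat_lit 1024) .dd))) (.ch (nat_lit 6) (.fin
 (nat_lit 576179826816664000))))))) (.ch (nat_lit 6) (.ev (nat_lit 832) (nat_lit 1024) (.nd (nat_lit 2576) (.br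
 (nat_lit 5) (.ch (nat_lit 4) (.ev (nat_lit 2900) (nat_lit 4) (.ev (nat_lit 2909) (nat_lit 128) .dd))) (.ch
 (nat_lit 5) (.fin (nat_lit 576452506033799748))))))))))))) (.ch (nat_lit 3) (.ev (nat_lit 336) (nat_lit 128)
 (.nd (nat_lit 672) (.br (nat_lit 2) (.br (nat_lit 1) (.ch (nat_lit 0) (.ev (nat_lit 688) (nat_lit 4) (.ev
 (nat_lit 756) (nat_lit 1056) (.ev (nat_lit 765) (nat_lit 16) .dd)))) (.ch (nat_lit 1) (.ev (nat_lit 688)
 (nat_lit 4) (.nd (nat_lit 1664) (.br (nat_lit 4) (.ch (nat_lit 0) (.ev (nat_lit 1680) (nat_lit 32) (.ev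
 (nat_lit 2004) (nat_lit 16) (.ev (nat_lit 2013) (nat_lit 1024) .dd)))) (.br (nat_lit 6) (.ch (nat_lit 4) (.ev
 (nat_lit 2004) (nat_lit 16) (.fin (nat_lit 576483292296462892)))) (.ch (nat_lit 6) (.ev (nat_lit 1680)
 (nat_lit 32) (.ev (nat_lit 2004) (nat_lit 16) (.ev (nat_lit 2013) (nat_lit 1024) .dd)))))))))) (.br (nat_lit
 3) (.ch (nat_lit 2) (.ev (nat_lit 688) (nat_lit 48) (.nd (nat_lit 2304) (.br (nat_lit 3) (.br (nat_lit 1) (.ch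
 (nat_lit 0) (.ev (nat_lit 2320) (nat_lit 4) (.ev (nat_lit 2333) (nat_lit 1024) .dd))) (.ch (nat_lit 1) (.ev
 (nat_lit 2320) (nat_lit 1024) (.ev (nat_lit 2333) (nat_lit 4) .dd)))) (.br (nat_lit 4) (.ch (nat_lit 3) (.ev
 (nat_lit 2320) (nat_lit 1024) (.ev (nat_lit 2333) (nat_lit 4) .dd))) (.ch (nat_lit 4) (.fin (nat_lit
 576477794690089589)))))))) (.br (nat_lit 5) (.ch (nat_lit 3) (.ev (nat_lit 688) (nat_lit 1056) (.ev (nat_lit
 1332) (nat_lit 16) (.ev (nat_lit 1341) (nat_lit 4) .dd)))) (.ch (nat_lit 5) (.ev (nat_lit 688) (nat_lit 1040)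
 (.nd (nat_lit 2304) (.br (nat_lit 2) (.ch (nat_lit 0) (.ev (nat_lit 2320) (nat_lit 4) (.ev (nat_lit 2333)
 (nat_lit 32) .dd))) (.br (nat_lit 4) (.ch (nat_lit 2) (.fin (nat_lit 576523974216204902))) (.ch (nat_lit 4)
 (.ev (nat_lit 2404) (nat_lit 32) (.ev (nat_lit 2413) (nat_lit 4) .dd))))))))))))))) (.br (nat_lit 5) (.ch
 (nat_lit 4) (.ev (nat_lit 336) (nat_lit 132) (.ev (nat_lit 388) (nat_lit 32) (.nd (nat_lit 720) (.br (nat_lit
 5) (.ch (nat_lit 3) (.ev (nat_lit 736) (nat_lit 16) (.ev (nat_lit 749) (nat_lit 1024) .dd))) (.br (nat_lit 6)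
 (.ch (nat_lit 5) (.fin (nat_lit 576438212271489538))) (.ch (nat_lit 6) (.ev (nat_lit 900) (nat_lit 1024) (.ev
 (nat_lit 909) (nat_lit 16) .dd))))))))) (.br (nat_lit 6) (.ch (nat_lit 5) (.ev (nat_lit 336) (nat_lit 1072)
 (.nd (nat_lit 912) (.br (nat_lit 4) (.ch (nat_lit 0) (.ev (nat_lit 928) (nat_lit 4) (.ev (nat_lit 941)
 (nat_lit 128) .dd))) (.br (nat_lit 5) (.ch (nat_lit 4) (.nd (nat_lit 2976) (.br (nat_lit 2) (.ch (nat_lit 0)
 (.nd (nat_lit 3888) (.br (nat_lit 5) (.ch (nat_lit 0) (.fin (nat_lit 576556959898485262))) (.ch (nat_lit 5)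
 (.ev (nat_lit 3904) (nat_lit 128) (.ev (nat_lit 3917) (nat_lit 4) .dd)))))) (.ch (nat_lit 2) (.fin (nat_lit
 576505282768093831)))))) (.ch (nat_lit 5) (.ev (nat_lit 1044) (nat_lit 4) (.ev (nat_lit 1053) (nat_lit 128)
 .dd)))))))) (.ch (nat_lit 6) (.ev (nat_lit 336) (nat_lit 1024) (.nd (nat_lit 672) (.br (nat_lit 2) (.br
 (nat_lit 1) (.ch (nat_lit 0) (.ev (nat_lit 688) (nat_lit 128) (.ev (nat_lit 708) (nat_lit 32) (.ev (nat_lit
 1268) (nat_lit 16) (.ev (nat_lit 1277) (nat_lit 4) .dd))))) (.ch (nat_lit 1) (.ev (nat_lit 688) (nat_lit 4)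
 (.nd (nat_lit 2496) (.br (nat_lit 3) (.br (nat_lit 2) (.ch (nat_lit 0) (.ev (nat_lit 2512) (nat_lit 128) (.ev
 (nat_lit 2612) (nat_lit 32) (.ev (nat_lit 2621) (nat_lit 16) .dd)))) (.ch (nat_lit 2) (.ev (nat_lit 2512)
 (nat_lit 128) (.ev (nat_lit 2612) (nat_lit 32) (.ev (nat_lit 2621) (nat_lit 16) .dd))))) (.br (nat_lit 6) (.ch
 (nat_lit 3) (.ev (nat_lit 2512) (nat_lit 16) (.fin (nat_lit 576443709874717235)))) (.ch (nat_lit 6) (.ev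
 (nat_lit 2512) (nat_lit 32) (.ev (nat_lit 2612) (nat_lit 128) (.ev (nat_lit 2621) (nat_lit 16) .dd))))))))))
 (.br (nat_lit 3) (.ch (nat_lit 2) (.ev (nat_lit 688) (nat_lit 16) (.ev (nat_lit 804) (nat_lit 32) (.nd
 (nat_lit 1664) (.br (nat_lit 4) (.ch (nat_lit 3) (.ev (nat_lit 1700) (nat_lit 4) (.ev (nat_lit 1709) (nat_lit
 128) .dd))) (.br (nat_lit 6) (.ch (nat_lit 4) (.ev (nat_lit 1828) (nat_lit 4) (.ev (nat_lit 1837) (nat_lit
 128) .dd))) (.ch (nat_lit 6) (.ev (nat_lit 1780) (nat_lit 128) (.ev (nat_lit 1789) (nat_lit 4) .dd)))))))))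
 (.br (nat_lit 5) (.ch (nat_lit 3) (.ev (nat_lit 688) (nat_lit 48) (.ev (nat_lit 772) (nat_lit 4) (.ev (nat_lit
 781) (nat_lit 128) .dd)))) (.ch (nat_lit 5) (.ev (nat_lit 688) (nat_lit 132) (.ev (nat_lit 1828) (nat_lit 16)
 (.ev (nat_lit 1837) (nat_lit 32) .dd)))))))))))))))))))))) (.br (nat_lit 6) (.ch (nat_lit 3) (.ev (nat_lit 48)
 (nat_lit 1152) (.nd (nat_lit 192) (.br (nat_lit 3) (.br (nat_lit 1) (.ch (nat_lit 0) (.ev (nat_lit 208)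
 (nat_lit 2096) (.nd (nat_lit 592) (.br (nat_lit 2) (.br (nat_lit 1) (.ch (nat_lit 0) (.nd (nat_lit 1536) (.br
 (nat_lit 5) (.br (nat_lit 4) (.ch (nat_lit 2) (.ev (nat_lit 1552) (nat_lit 4096) (.ev (nat_lit 1565) (nat_lit
 4) .dd))) (.ch (nat_lit 4) (.ev (nat_lit 1600) (nat_lit 4096) (.ev (nat_lit 1613) (nat_lit 4) .dd)))) (.br
 (nat_lit 6) (.ch (nat_lit 5) (.ev (nat_lit 1552) (nat_lit 4096) (.ev (nat_lit 1565) (nat_lit 4) .dd))) (.ch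
 (nat_lit 6) (.fin (nat_lit 576462401572389436))))))) (.ch (nat_lit 1) (.ev (nat_lit 608) (nat_lit 4) (.ev
 (nat_lit 621) (nat_lit 4096) .dd)))) (.br (nat_lit 4) (.ch (nat_lit 2) (.ev (nat_lit 608) (nat_lit 4100) .dd))
 (.br (nat_lit 5) (.ch (nat_lit 4) (.ev (nat_lit 608) (nat_lit 4096) (.ev (nat_lit 621) (nat_lit 4) .dd))) (.ch
 (nat_lit 5) (.nd (nat_lit 1392) (.br (nat_lit 3) (.br (nat_lit 2) (.ch (nat_lit 0) (.ev (nat_lit 1620)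
 (nat_lit 4) (.ev (nat_lit 1629) (nat_lit 4096) .dd))) (.ch (nat_lit 2) (.ev (nat_lit 1408) (nat_lit 4) (.ev
 (nat_lit 1421) (nat_lit 4096) .dd)))) (.br (nat_lit 5) (.ch (nat_lit 3) (.ev (nat_lit 1408) (nat_lit 4096)
 (.ev (nat_lit 1421) (nat_lit 4) .dd))) (.br (nat_lit 6) (.ch (nat_lit 5) (.ev (nat_lit 1588) (nat_lit 4) (.ev
 (nat_lit 1597) (nat_lit 4096) .dd))) (.ch (nat_lit 6) (.ev (nat_lit 1408) (nat_lit 4096) (.ev (nat_lit 1421)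
 (nat_lit 4) .dd)))))))))))))) (.ch (nat_lit 1) (.ev (nat_lit 208) (nat_lit 6144) (.nd (nat_lit 592) (.br
 (nat_lit 4) (.br (nat_lit 2) (.ch (nat_lit 0) (.ev (nat_lit 608) (nat_lit 48) (.ev (nat_lit 621) (nat_lit 4)
 .dd))) (.ch (nat_lit 2) (.nd (nat_lit 1104) (.br (nat_lit 3) (.br (nat_lit 2) (.ch (nat_lit 0) (.ev (nat_lit
 1428) (nat_lit 32) (.ev (nat_lit 1444) (nat_lit 4) (.ev (nat_lit 1453) (nat_lit 16) .dd)))) (.ch (nat_lit 2)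
 (.ev (nat_lit 1120) (nat_lit 16) (.nd (nat_lit 2496) (.br (nat_lit 5) (.ch (nat_lit 4) (.ev (nat_lit 2512)
 (nat_lit 32) (.ev (nat_lit 2525) (nat_lit 4) .dd))) (.br (nat_lit 6) (.ch (nat_lit 5) (.ev (nat_lit 2512)
 (nat_lit 4) (.ev (nat_lit 2525) (nat_lit 32) .dd))) (.ch (nat_lit 6) (.ev (nat_lit 2692) (nat_lit 4) (.ev
 (nat_lit 2701) (nat_lit 32) .dd))))))))) (.br (nat_lit 4) (.ch (nat_lit 3) (.ev (nat_lit 1120) (nat_lit 32)
 (.ev (nat_lit 1428) (nat_lit 4) (.ev (nat_lit 1437) (nat_lit 16) .dd)))) (.br (nat_lit 6) (.ch (nat_lit 4)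
 (.ev (nat_lit 1120) (nat_lit 32) (.fin (nat_lit 576487690372334157)))) (.ch (nat_lit 6) (.ev (nat_lit 1120)
 (nat_lit 4) (.ev (nat_lit 2004) (nat_lit 32) (.ev (nat_lit 2013) (nat_lit 16) .dd)))))))))) (.br (nat_lit 5)
 (.ch (nat_lit 4) (.ev (nat_lit 608) (nat_lit 4) (.nd (nat_lit 1392) (.br (nat_lit 3) (.br (nat_lit 1) (.ch
 (nat_lit 0) (.fin (nat_lit 576463501099745847))) (.ch (nat_lit 1) (.ev (nat_lit 2740) (nat_lit 32) (.ev
 (nat_lit 2749) (nat_lit 16) .dd)))) (.br (nat_lit 5) (.ch (nat_lit 3) (.ev (nat_lit 3108) (nat_lit 16) (.ev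
 (nat_lit 3117) (nat_lit 32) .dd))) (.br (nat_lit 6) (.ch (nat_lit 5) (.ev (nat_lit 1408) (nat_lit 48) .dd))
 (.ch (nat_lit 6) (.ev (nat_lit 1408) (nat_lit 16) (.ev (nat_lit 1421) (nat_lit 32) .dd))))))))) (.br (nat_lit
 6) (.ch (nat_lit 5) (.ev (nat_lit 608) (nat_lit 4) (.nd (nat_lit 1232) (.br (nat_lit 4) (.br (nat_lit 2) (.ch
 (nat_lit 1) (.ev (nat_lit 1248) (nat_lit 16) (.ev (nat_lit 1261) (nat_lit 32) .dd))) (.ch (nat_lit 2) (.nd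
 (nat_lit 3600) (.ch (nat_lit 0) (.nd (nat_lit 3792) (.br (nat_lit 3) (.ch (nat_lit 2) (.ev (nat_lit 3972)
 (nat_lit 16) (.ev (nat_lit 3981) (nat_lit 32) .dd))) (.ch (nat_lit 3) (.fin (nat_lit
 576576750591886202))))))))) (.br (nat_lit 5) (.ch (nat_lit 4) (.ev (nat_lit 1268) (nat_lit 16) (.ev (nat_lit
 1277) (nat_lit 32) .dd))) (.ch (nat_lit 5) (.ev (nat_lit 1248) (nat_lit 32) (.ev (nat_lit 1261) (nat_lit 16)
 .dd)))))))) (.ch (nat_lit 6) (.ev (nat_lit 608) (nat_lit 32) (.nd (nat_lit 1104) (.br (nat_lit 3) (.br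
 (nat_lit 1) (.ch (nat_lit 0) (.ev (nat_lit 1120) (nat_lit 20) .dd)) (.ch (nat_lit 1) (.ev (nat_lit 1220)
 (nat_lit 16) (.ev (nat_lit 1229) (nat_lit 4) .dd)))) (.br (nat_lit 4) (.ch (nat_lit 3) (.ev (nat_lit 1120)
 (nat_lit 4) (.ev (nat_lit 1133) (nat_lit 16) .dd))) (.br (nat_lit 6) (.ch (nat_lit 4) (.nd (nat_lit 1712) (.br
 (nat_lit 3) (.br (nat_lit 2) (.ch (nat_lit 0) (.ev (nat_lit 1728) (nat_lit 16) (.ev (nat_lit 1741) (nat_lit 4)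
 .dd))) (.ch (nat_lit 2) (.ev (nat_lit 1728) (nat_lit 4) (.ev (nat_lit 1741) (nat_lit 16) .dd)))) (.br (nat_lit
 6) (.ch (nat_lit 3) (.ev (nat_lit 2260) (nat_lit 16) (.ev (nat_lit 2269) (nat_lit 4) .dd))) (.ch (nat_lit 6)
 (.ev (nat_lit 1760) (nat_lit 16) (.ev (nat_lit 1773) (nat_lit 4) .dd))))))) (.ch (nat_lit 6) (.ev (nat_lit
 1120) (nat_lit 16) (.ev (nat_lit 1133) (nat_lit 4) .dd)))))))))))))))) (.br (nat_lit 5) (.ch (nat_lit 3) (.ev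
 (nat_lit 208) (nat_lit 20) (.nd (nat_lit 592) (.br (nat_lit 4) (.br (nat_lit 2) (.ch (nat_lit 1) (.ev (nat_lit
 608) (nat_lit 4096) (.nd (nat_lit 1392) (.br (nat_lit 3) (.br (nat_lit 1) (.ch (nat_lit 0) (.ev (nat_lit 1460)
 (nat_lit 2048) (.ev (nat_lit 1469) (nat_lit 32) .dd))) (.ch (nat_lit 1) (.ev (nat_lit 1408) (nat_lit 2048)
 (.ev (nat_lit 1421) (nat_lit 32) .dd)))) (.br (nat_lit 4) (.ch (nat_lit 3) (.ev (nat_lit 1408) (nat_lit 2080)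
 .dd)) (.br (nat_lit 6) (.ch (nat_lit 4) (.nd (nat_lit 3120) (.br (nat_lit 5) (.ch (nat_lit 4) (.fin (nat_lit
 576361246210081462))) (.ch (nat_lit 5) (.ev (nat_lit 3268) (nat_lit 2048) (.ev (nat_lit 3277) (nat_lit 32)
 .dd)))))) (.ch (nat_lit 6) (.nd (nat_lit 2976) (.br (nat_lit 5) (.br (nat_lit 1) (.ch (nat_lit 0) (.ev
 (nat_lit 2992) (nat_lit 2048) (.ev (nat_lit 3005) (nat_lit 32) .dd))) (.ch (nat_lit 1) (.fin (nat_lit
 576461301810152029)))) (.br (nat_lit 6) (.ch (nat_lit 5) (.ev (nat_lit 3172) (nat_lit 32) (.ev (nat_lit 3181)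
 (nat_lit 2048) .dd))) (.ch (nat_lit 6) (.ev (nat_lit 2992) (nat_lit 32) (.ev (nat_lit 3005) (nat_lit 2048)
 .dd))))))))))))) (.ch (nat_lit 2) (.ev (nat_lit 628) (nat_lit 4096) (.nd (nat_lit 1392) (.br (nat_lit 3) (.br
 (nat_lit 1) (.ch (nat_lit 0) (.ev (nat_lit 1408) (nat_lit 2048) (.ev (nat_lit 1421) (nat_lit 32) .dd))) (.ch
 (nat_lit 1) (.ev (nat_lit 1408) (nat_lit 2080) .dd))) (.br (nat_lit 4) (.ch (nat_lit 3) (.ev (nat_lit 1408)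
 (nat_lit 32) (.ev (nat_lit 1421) (nat_lit 2048) .dd))) (.br (nat_lit 6) (.ch (nat_lit 4) (.fin (nat_lit
 576504182996419102))) (.ch (nat_lit 6) (.ev (nat_lit 1588) (nat_lit 32) (.ev (nat_lit 1597) (nat_lit 2048)
 .dd)))))))))) (.br (nat_lit 5) (.ch (nat_lit 4) (.nd (nat_lit 1232) (.br (nat_lit 4) (.ch (nat_lit 2) (.ev
 (nat_lit 1248) (nat_lit 32) (.ev (nat_lit 1300) (nat_lit 2048) (.ev (nat_lit 1309) (nat_lit 4096) .dd)))) (.br
 (nat_lit 5) (.ch (nat_lit 4) (.ev (nat_lit 1300) (nat_lit 2048) (.ev (nat_lit 1444) (nat_lit 32) (.ev (nat_lit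
 1453) (nat_lit 4096) .dd)))) (.ch (nat_lit 5) (.ev (nat_lit 1248) (nat_lit 2048) (.fin (nat_lit
 576463501076677183)))))))) (.br (nat_lit 6) (.ch (nat_lit 5) (.ev (nat_lit 608) (nat_lit 32) (.nd (nat_lit
 1392) (.br (nat_lit 4) (.br (nat_lit 2) (.ch (nat_lit 1) (.fin (nat_lit 576438212298752586))) (.ch (nat_lit 2)
 (.ev (nat_lit 1588) (nat_lit 4096) (.ev (nat_lit 1597) (nat_lit 2048) .dd)))) (.br (nat_lit 5) (.ch (nat_lit
 4) (.ev (nat_lit 1408) (nat_lit 4096) (.ev (nat_lit 1421) (nat_lit 2048) .dd))) (.ch (nat_lit 5) (.ev (nat_lit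
 1408) (nat_lit 6144) .dd))))))) (.ch (nat_lit 6) (.ev (nat_lit 608) (nat_lit 6176) .dd)))))))) (.br (nat_lit
 6) (.ch (nat_lit 5) (.nd (nat_lit 352) (.br (nat_lit 4) (.br (nat_lit 2) (.ch (nat_lit 0) (.ev (nat_lit 368)
 (nat_lit 16) (.nd (nat_lit 672) (.br (nat_lit 3) (.br (nat_lit 2) (.ch (nat_lit 1) (.ev (nat_lit 688) (nat_lit
 2048) (.ev (nat_lit 996) (nat_lit 4096) (.nd (nat_lit 1712) (.br (nat_lit 4) (.br (nat_lit 1) (.ch (nat_lit 0)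
 (.ev (nat_lit 1728) (nat_lit 36) .dd)) (.ch (nat_lit 1) (.ev (nat_lit 1728) (nat_lit 32) (.ev (nat_lit 1741)
 (nat_lit 4) .dd)))) (.br (nat_lit 6) (.ch (nat_lit 4) (.ev (nat_lit 1728) (nat_lit 4) (.ev (nat_lit 1741)
 (nat_lit 32) .dd))) (.ch (nat_lit 6) (.ev (nat_lit 1728) (nat_lit 32) (.ev (nat_lit 1741) (nat_lit 4)
 .dd))))))))) (.ch (nat_lit 2) (.ev (nat_lit 688) (nat_lit 6176) (.ev (nat_lit 701) (nat_lit 4) .dd)))) (.br
 (nat_lit 4) (.ch (nat_lit 3) (.ev (nat_lit 688) (nat_lit 4) (.ev (nat_lit 756) (nat_lit 4096) (.nd (nat_lit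
 1712) (.ch (nat_lit 2) (.nd (nat_lit 4336) (.ch (nat_lit 0) (.nd (nat_lit 5088) (.br (nat_lit 6) (.ch (nat_lit
 0) (.fin (nat_lit 576489889221526083))) (.ch (nat_lit 6) (.ev (nat_lit 5104) (nat_lit 32) (.ev (nat_lit 5117)
 (nat_lit 2048) .dd)))))))))))) (.br (nat_lit 6) (.ch (nat_lit 4) (.ev (nat_lit 688) (nat_lit 4) (.ev (nat_lit
 1060) (nat_lit 2048) (.nd (nat_lit 1664) (.br (nat_lit 3) (.ch (nat_lit 1) (.ev (nat_lit 1680) (nat_lit 4096)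
 (.ev (nat_lit 1693) (nat_lit 32) .dd))) (.ch (nat_lit 3) (.fin (nat_lit 576503083513102841)))))))) (.ch
 (nat_lit 6) (.ev (nat_lit 688) (nat_lit 4128) (.ev (nat_lit 1076) (nat_lit 2048) (.ev (nat_lit 1085) (nat_lit
 4) .dd)))))))))) (.ch (nat_lit 2) (.ev (nat_lit 368) (nat_lit 2080) (.nd (nat_lit 816) (.br (nat_lit 2) (.br
 (nat_lit 1) (.ch (nat_lit 0) (.ev (nat_lit 832) (nat_lit 4096) (.ev (nat_lit 1268) (nat_lit 4) (.ev (nat_lit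
 1277) (nat_lit 16) .dd)))) (.ch (nat_lit 1) (.ev (nat_lit 1972) (nat_lit 16) (.ev (nat_lit 2084) (nat_lit 4)
 (.ev (nat_lit 2093) (nat_lit 4096) .dd))))) (.br (nat_lit 4) (.ch (nat_lit 2) (.ev (nat_lit 832) (nat_lit 4)
 (.nd (nat_lit 2368) (.br (nat_lit 3) (.ch (nat_lit 2) (.ev (nat_lit 2384) (nat_lit 4096) (.ev (nat_lit 2397)
 (nat_lit 16) .dd))) (.br (nat_lit 4) (.ch (nat_lit 3) (.ev (nat_lit 2384) (nat_lit 16) (.ev (nat_lit 2397)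
 (nat_lit 4096) .dd))) (.ch (nat_lit 4) (.fin (nat_lit 576553661252452660)))))))) (.br (nat_lit 5) (.ch
 (nat_lit 4) (.nd (nat_lit 1712) (.br (nat_lit 5) (.br (nat_lit 3) (.ch (nat_lit 2) (.ev (nat_lit 1728)
 (nat_lit 4) (.ev (nat_lit 1924) (nat_lit 4096) (.ev (nat_lit 1933) (nat_lit 16) .dd)))) (.ch (nat_lit 3) (.ev
 (nat_lit 1728) (nat_lit 16) (.nd (nat_lit 3728) (.ch (nat_lit 5) (.nd (nat_lit 4704) (.br (nat_lit 1) (.ch
 (nat_lit 0) (.fin (nat_lit 576149040622158483))) (.ch (nat_lit 1) (.ev (nat_lit 4720) (nat_lit 4) (.ev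
 (nat_lit 4733) (nat_lit 4096) .dd)))))))))) (.br (nat_lit 6) (.ch (nat_lit 5) (.ev (nat_lit 1728) (nat_lit
 4112) (.ev (nat_lit 1741) (nat_lit 4) .dd))) (.ch (nat_lit 6) (.ev (nat_lit 1780) (nat_lit 4096) (.nd (nat_lit
 3664) (.br (nat_lit 4) (.ch (nat_lit 3) (.fin (nat_lit 576493187869655590))) (.ch (nat_lit 4) (.ev (nat_lit
 3680) (nat_lit 16) (.ev (nat_lit 3693) (nat_lit 4) .dd))))))))))) (.ch (nat_lit 5) (.ev (nat_lit 832) (nat_lit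
 4112) (.ev (nat_lit 845) (nat_lit 4) .dd)))))))))) (.br (nat_lit 5) (.ch (nat_lit 4) (.ev (nat_lit 368)
 (nat_lit 4) (.nd (nat_lit 816) (.br (nat_lit 3) (.br (nat_lit 1) (.ch (nat_lit 0) (.ev (nat_lit 832) (nat_lit
 4112) (.nd (nat_lit 1536) (.br (nat_lit 6) (.ch (nat_lit 1) (.ev (nat_lit 1972) (nat_lit 32) (.ev (nat_lit
 1981) (nat_lit 2048) .dd))) (.ch (nat_lit 6) (.ev (nat_lit 1808) (nat_lit 2080) .dd)))))) (.ch (nat_lit 1)
 (.ev (nat_lit 832) (nat_lit 4096) (.ev (nat_lit 1204) (nat_lit 32) (.ev (nat_lit 1280) (nat_lit 2048) (.ev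
 (nat_lit 1293) (nat_lit 16) .dd)))))) (.br (nat_lit 5) (.ch (nat_lit 3) (.ev (nat_lit 832) (nat_lit 4128) (.nd
 (nat_lit 1712) (.br (nat_lit 4) (.ch (nat_lit 0) (.ev (nat_lit 2356) (nat_lit 2048) (.ev (nat_lit 2365)
 (nat_lit 16) .dd))) (.ch (nat_lit 4) (.fin (nat_lit 576423918673805883))))))) (.ch (nat_lit 5) (.ev (nat_lit
 832) (nat_lit 16) (.ev (nat_lit 948) (nat_lit 2048) (.ev (nat_lit 1876) (nat_lit 4096) (.ev (nat_lit 1885)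
 (nat_lit 32) .dd)))))))))) (.br (nat_lit 6) (.ch (nat_lit 5) (.nd (nat_lit 720) (.br (nat_lit 3) (.br (nat_lit
 2) (.ch (nat_lit 0) (.ev (nat_lit 736) (nat_lit 4100) (.nd (nat_lit 1536) (.br (nat_lit 3) (.ch (nat_lit 1)
 (.ev (nat_lit 2740) (nat_lit 2048) (.fin (nat_lit 576515178127377019)))) (.ch (nat_lit 3) (.ev (nat_lit 1552)
 (nat_lit 32) (.ev (nat_lit 2612) (nat_lit 2048) (.ev (nat_lit 2621) (nat_lit 16) .dd)))))))) (.ch (nat_lit 2)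
 (.ev (nat_lit 1444) (nat_lit 2048) (.nd (nat_lit 1712) (.br (nat_lit 5) (.br (nat_lit 3) (.ch (nat_lit 2) (.ev
 (nat_lit 1728) (nat_lit 4128) (.nd (nat_lit 3696) (.ch (nat_lit 4) (.nd (nat_lit 4672) (.br (nat_lit 5) (.ch
 (nat_lit 4) (.fin (nat_lit 576564656384459705))) (.ch (nat_lit 5) (.ev (nat_lit 4688) (nat_lit 16) (.ev
 (nat_lit 4701) (nat_lit 4) .dd))))))))) (.ch (nat_lit 3) (.ev (nat_lit 1728) (nat_lit 4112) (.nd (nat_lit
 3760) (.ch (nat_lit 3) (.nd (nat_lit 4560) (.br (nat_lit 5) (.ch (nat_lit 0) (.ev (nat_lit 4576) (nat_lit 32)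
 (.ev (nat_lit 4589) (nat_lit 4) .dd))) (.ch (nat_lit 5) (.fin (nat_lit 576456904017396294)))))))))) (.br
 (nat_lit 6) (.ch (nat_lit 5) (.ev (nat_lit 1728) (nat_lit 4) (.ev (nat_lit 1888) (nat_lit 16) (.ev (nat_lit
 1984) (nat_lit 32) (.ev (nat_lit 1997) (nat_lit 4096) .dd))))) (.ch (nat_lit 6) (.ev (nat_lit 1760) (nat_lit
 4) (.ev (nat_lit 2340) (nat_lit 32) (.ev (nat_lit 2420) (nat_lit 16) (.ev (nat_lit 2429) (nat_lit 4096)
 .dd))))))))))) (.br (nat_lit 5) (.ch (nat_lit 3) (.ev (nat_lit 736) (nat_lit 4112) (.nd (nat_lit 1664) (.br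
 (nat_lit 5) (.br (nat_lit 2) (.ch (nat_lit 0) (.ev (nat_lit 1680) (nat_lit 4) (.ev (nat_lit 2548) (nat_lit 32)
 (.ev (nat_lit 2557) (nat_lit 2048) .dd)))) (.ch (nat_lit 2) (.ev (nat_lit 1680) (nat_lit 4) (.ev (nat_lit
 2564) (nat_lit 32) (.ev (nat_lit 2573) (nat_lit 2048) .dd))))) (.br (nat_lit 6) (.ch (nat_lit 5) (.ev (nat_lit
 1680) (nat_lit 32) (.ev (nat_lit 1888) (nat_lit 2052) .dd))) (.ch (nat_lit 6) (.ev (nat_lit 2704) (nat_lit 32)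
 (.fin (nat_lit 576428316692005411))))))))) (.br (nat_lit 6) (.ch (nat_lit 5) (.ev (nat_lit 736) (nat_lit 6176)
 (.ev (nat_lit 1060) (nat_lit 16) (.ev (nat_lit 1069) (nat_lit 4) .dd)))) (.ch (nat_lit 6) (.ev (nat_lit 736)
 (nat_lit 2068) (.fin (nat_lit 576482192759669257))))))))) (.ch (nat_lit 6) (.ev (nat_lit 368) (nat_lit 4144)
 (.nd (nat_lit 912) (.br (nat_lit 5) (.br (nat_lit 3) (.ch (nat_lit 2) (.ev (nat_lit 1332) (nat_lit 2048) (.ev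
 (nat_lit 1341) (nat_lit 4) .dd))) (.ch (nat_lit 3) (.ev (nat_lit 928) (nat_lit 2048) (.ev (nat_lit 941)
 (nat_lit 4) .dd)))) (.br (nat_lit 6) (.ch (nat_lit 5) (.ev (nat_lit 928) (nat_lit 2048) (.ev (nat_lit 941)
 (nat_lit 4) .dd))) (.ch (nat_lit 6) (.ev (nat_lit 928) (nat_lit 4) (.ev (nat_lit 941) (nat_lit 2048)
 .dd))))))))))))) (.ch (nat_lit 6) (.ev (nat_lit 208) (nat_lit 4) (.nd (nat_lit 400) (.br (nat_lit 3) (.br
 (nat_lit 2) (.ch (nat_lit 0) (.ev (nat_lit 416) (nat_lit 4128) (.nd (nat_lit 1008) (.br (nat_lit 4) (.br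
 (nat_lit 3) (.ch (nat_lit 2) (.ev (nat_lit 1024) (nat_lit 2048) (.ev (nat_lit 1037) (nat_lit 16) .dd))) (.ch
 (nat_lit 3) (.nd (nat_lit 3024) (.br (nat_lit 2) (.ch (nat_lit 0) (.fin (nat_lit 576460202904601153))) (.ch
 (nat_lit 2) (.fin (nat_lit 576507481327878847))))))) (.br (nat_lit 6) (.ch (nat_lit 4) (.ev (nat_lit 1172)
 (nat_lit 16) (.ev (nat_lit 1181) (nat_lit 2048) .dd))) (.ch (nat_lit 6) (.ev (nat_lit 1172) (nat_lit 16) (.ev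
 (nat_lit 1181) (nat_lit 2048) .dd)))))))) (.ch (nat_lit 2) (.ev (nat_lit 628) (nat_lit 32) (.nd (nat_lit 816)
 (.br (nat_lit 3) (.br (nat_lit 1) (.ch (nat_lit 0) (.ev (nat_lit 852) (nat_lit 16) (.ev (nat_lit 1364)
 (nat_lit 2048) (.ev (nat_lit 1373) (nat_lit 4096) .dd)))) (.ch (nat_lit 1) (.ev (nat_lit 832) (nat_lit 2064)
 (.ev (nat_lit 845) (nat_lit 4096) .dd)))) (.br (nat_lit 4) (.ch (nat_lit 3) (.ev (nat_lit 832) (nat_lit 6144)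
 (.ev (nat_lit 845) (nat_lit 16) .dd))) (.br (nat_lit 5) (.ch (nat_lit 4) (.nd (nat_lit 1664) (.br (nat_lit 6)
 (.ch (nat_lit 1) (.ev (nat_lit 1680) (nat_lit 16) (.ev (nat_lit 1700) (nat_lit 4096) (.ev (nat_lit 1709)
 (nat_lit 2048) .dd)))) (.ch (nat_lit 6) (.ev (nat_lit 1780) (nat_lit 2048) (.fin (nat_lit
 576487690313613908))))))) (.ch (nat_lit 5) (.nd (nat_lit 1712) (.br (nat_lit 2) (.br (nat_lit 1) (.ch (nat_lit
 0) (.ev (nat_lit 1728) (nat_lit 4096) (.fin (nat_lit 576515178133668406)))) (.ch (nat_lit 1) (.ev (nat_lit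
 1728) (nat_lit 2064) (.ev (nat_lit 1741) (nat_lit 4096) .dd)))) (.br (nat_lit 3) (.ch (nat_lit 2) (.ev
 (nat_lit 1728) (nat_lit 4096) (.ev (nat_lit 2404) (nat_lit 16) (.ev (nat_lit 2413) (nat_lit 2048) .dd)))) (.br
 (nat_lit 6) (.ch (nat_lit 3) (.ev (nat_lit 1728) (nat_lit 4096) (.ev (nat_lit 2404) (nat_lit 2048) (.ev
 (nat_lit 2413) (nat_lit 16) .dd)))) (.ch (nat_lit 6) (.ev (nat_lit 1728) (nat_lit 4112) (.ev (nat_lit 1741)
 (nat_lit 2048) .dd))))))))))))))) (.br (nat_lit 5) (.ch (nat_lit 3) (.nd (nat_lit 816) (.br (nat_lit 4) (.br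
 (nat_lit 2) (.ch (nat_lit 0) (.ev (nat_lit 832) (nat_lit 2080) (.nd (nat_lit 2576) (.br (nat_lit 2) (.ch
 (nat_lit 1) (.ev (nat_lit 2612) (nat_lit 4096) (.ev (nat_lit 2621) (nat_lit 16) .dd))) (.ch (nat_lit 2) (.fin
 (nat_lit 576430515790758432))))))) (.ch (nat_lit 2) (.ev (nat_lit 832) (nat_lit 16) (.nd (nat_lit 1712) (.br
 (nat_lit 2) (.ch (nat_lit 0) (.ev (nat_lit 2404) (nat_lit 4096) (.nd (nat_lit 3696) (.br (nat_lit 5) (.ch
 (nat_lit 1) (.ev (nat_lit 3712) (nat_lit 32) (.ev (nat_lit 3725) (nat_lit 2048) .dd))) (.ch (nat_lit 5) (.fin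
 (nat_lit 576461302049227332))))))) (.br (nat_lit 3) (.ch (nat_lit 2) (.ev (nat_lit 1728) (nat_lit 4096) (.ev
 (nat_lit 2420) (nat_lit 32) (.ev (nat_lit 2429) (nat_lit 2048) .dd)))) (.ch (nat_lit 3) (.ev (nat_lit 1808)
 (nat_lit 2048) (.fin (nat_lit 576405226943627794)))))))))) (.br (nat_lit 5) (.ch (nat_lit 4) (.ev (nat_lit
 1092) (nat_lit 16) (.ev (nat_lit 1476) (nat_lit 2048) (.nd (nat_lit 2496) (.br (nat_lit 6) (.ch (nat_lit 4)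
 (.nd (nat_lit 3632) (.br (nat_lit 5) (.ch (nat_lit 4) (.ev (nat_lit 3648) (nat_lit 32) (.ev (nat_lit 3661)
 (nat_lit 4096) .dd))) (.br (nat_lit 6) (.ch (nat_lit 5) (.ev (nat_lit 3648) (nat_lit 4096) (.ev (nat_lit 3661)
 (nat_lit 32) .dd))) (.ch (nat_lit 6) (.fin (nat_lit 576505282283651719))))))) (.ch (nat_lit 6) (.ev (nat_lit
 2512) (nat_lit 4096) (.ev (nat_lit 2525) (nat_lit 32) .dd)))))))) (.ch (nat_lit 5) (.ev (nat_lit 832) (nat_lit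
 2064) (.ev (nat_lit 1840) (nat_lit 4128) .dd))))))) (.br (nat_lit 6) (.ch (nat_lit 5) (.ev (nat_lit 416)
 (nat_lit 16) (.nd (nat_lit 912) (.br (nat_lit 1) (.ch (nat_lit 0) (.ev (nat_lit 928) (nat_lit 32) (.nd
 (nat_lit 3024) (.br (nat_lit 5) (.ch (nat_lit 2) (.fin (nat_lit 576478894377878073))) (.ch (nat_lit 5) (.ev
 (nat_lit 3076) (nat_lit 4096) (.ev (nat_lit 3085) (nat_lit 2048) .dd))))))) (.br (nat_lit 5) (.ch (nat_lit 1)
 (.nd (nat_lit 2928) (.br (nat_lit 4) (.ch (nat_lit 3) (.ev (nat_lit 2944) (nat_lit 4096) (.fin (nat_lit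
 576675707080884801)))) (.ch (nat_lit 4) (.ev (nat_lit 2944) (nat_lit 2048) (.fin (nat_lit
 576451406727692641))))))) (.ch (nat_lit 5) (.ev (nat_lit 1460) (nat_lit 32) (.ev (nat_lit 2340) (nat_lit 2048)
 (.ev (nat_lit 2349) (nat_lit 4096) .dd))))))))) (.ch (nat_lit 6) (.ev (nat_lit 416) (nat_lit 6160) (.ev
 (nat_lit 429) (nat_lit 32) .dd))))))))))))))) (.ch (nat_lit 6) (.ev (nat_lit 48) (nat_lit 6176) (.nd (nat_lit
 224) (.br (nat_lit 3) (.br (nat_lit 1) (.ch (nat_lit 0) (.ev (nat_lit 240) (nat_lit 16) (.nd (nat_lit 592)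
 (.br (nat_lit 3) (.br (nat_lit 1) (.ch (nat_lit 0) (.ev (nat_lit 608) (nat_lit 128) (.ev (nat_lit 628)
 (nat_lit 1024) (.ev (nat_lit 637) (nat_lit 4) .dd)))) (.ch (nat_lit 1) (.nd (nat_lit 1392) (.br (nat_lit 3)
 (.br (nat_lit 1) (.ch (nat_lit 0) (.ev (nat_lit 1588) (nat_lit 132) (.ev (nat_lit 1597) (nat_lit 1024) .dd)))
 (.ch (nat_lit 1) (.ev (nat_lit 1408) (nat_lit 1024) (.ev (nat_lit 1572) (nat_lit 4) (.ev (nat_lit 1581)
 (nat_lit 128) .dd))))) (.br (nat_lit 4) (.ch (nat_lit 3) (.ev (nat_lit 1620) (nat_lit 1024) (.nd (nat_lit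
 3344) (.br (nat_lit 5) (.br (nat_lit 4) (.ch (nat_lit 0) (.ev (nat_lit 3360) (nat_lit 128) (.ev (nat_lit 3373)
 (nat_lit 4) .dd))) (.ch (nat_lit 4) (.ev (nat_lit 3360) (nat_lit 128) (.ev (nat_lit 3373) (nat_lit 4) .dd))))
 (.br (nat_lit 6) (.ch (nat_lit 5) (.fin (nat_lit 576425018226328073))) (.ch (nat_lit 6) (.ev (nat_lit 3360)
 (nat_lit 132) .dd))))))) (.ch (nat_lit 4) (.ev (nat_lit 1408) (nat_lit 4) (.ev (nat_lit 1428) (nat_lit 1024)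
 (.ev (nat_lit 1437) (nat_lit 128) .dd))))))))) (.br (nat_lit 4) (.ch (nat_lit 3) (.ev (nat_lit 608) (nat_lit
 1024) (.nd (nat_lit 1392) (.br (nat_lit 4) (.br (nat_lit 1) (.ch (nat_lit 0) (.nd (nat_lit 2976) (.br (nat_lit
 1) (.ch (nat_lit 0) (.ev (nat_lit 2992) (nat_lit 4) (.ev (nat_lit 3005) (nat_lit 128) .dd))) (.br (nat_lit 4)
 (.ch (nat_lit 1) (.fin (nat_lit 576619631922856583))) (.ch (nat_lit 4) (.ev (nat_lit 3444) (nat_lit 4) (.ev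
 (nat_lit 3453) (nat_lit 128) .dd))))))) (.ch (nat_lit 1) (.ev (nat_lit 1408) (nat_lit 132) .dd))) (.br
 (nat_lit 5) (.ch (nat_lit 4) (.nd (nat_lit 3024) (.br (nat_lit 4) (.ch (nat_lit 2) (.ev (nat_lit 3040)
 (nat_lit 4) (.ev (nat_lit 3053) (nat_lit 128) .dd))) (.ch (nat_lit 4) (.nd (nat_lit 3792) (.br (nat_lit 4)
 (.ch (nat_lit 2) (.ev (nat_lit 3808) (nat_lit 128) (.ev (nat_lit 3821) (nat_lit 4) .dd))) (.ch (nat_lit 4)
 (.fin (nat_lit 576165533297623393))))))))) (.ch (nat_lit 5) (.ev (nat_lit 1408) (nat_lit 4) (.ev (nat_lit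
 1421) (nat_lit 128) .dd)))))))) (.br (nat_lit 5) (.ch (nat_lit 4) (.ev (nat_lit 608) (nat_lit 1024) (.nd
 (nat_lit 1392) (.br (nat_lit 5) (.br (nat_lit 1) (.ch (nat_lit 0) (.ev (nat_lit 1408) (nat_lit 4) (.ev
 (nat_lit 1421) (nat_lit 128) .dd))) (.ch (nat_lit 1) (.ev (nat_lit 1408) (nat_lit 128) (.ev (nat_lit 1421)
 (nat_lit 4) .dd)))) (.br (nat_lit 6) (.ch (nat_lit 5) (.fin (nat_lit 576459103030166081))) (.ch (nat_lit 6)
 (.ev (nat_lit 1408) (nat_lit 128) (.ev (nat_lit 1421) (nat_lit 4) .dd)))))))) (.ch (nat_lit 5) (.ev (nat_lit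
 608) (nat_lit 4) (.nd (nat_lit 1392) (.br (nat_lit 3) (.ch (nat_lit 0) (.fin (nat_lit 576458003527975484)))
 (.ch (nat_lit 3) (.ev (nat_lit 1620) (nat_lit 1024) (.ev (nat_lit 1629) (nat_lit 128) .dd))))))))))))) (.ch
 (nat_lit 1) (.ev (nat_lit 240) (nat_lit 1040) (.nd (nat_lit 496) (.br (nat_lit 3) (.br (nat_lit 1) (.ch
 (nat_lit 0) (.ev (nat_lit 512) (nat_lit 128) (.ev (nat_lit 525) (nat_lit 4) .dd))) (.ch (nat_lit 1) (.ev
 (nat_lit 512) (nat_lit 128) (.ev (nat_lit 525) (nat_lit 4) .dd)))) (.br (nat_lit 5) (.ch (nat_lit 3) (.ev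
 (nat_lit 512) (nat_lit 4) (.ev (nat_lit 525) (nat_lit 128) .dd))) (.br (nat_lit 6) (.ch (nat_lit 5) (.nd
 (nat_lit 1104) (.br (nat_lit 4) (.br (nat_lit 2) (.ch (nat_lit 0) (.ev (nat_lit 1120) (nat_lit 4) (.ev
 (nat_lit 1133) (nat_lit 128) .dd))) (.ch (nat_lit 2) (.ev (nat_lit 1428) (nat_lit 4) (.ev (nat_lit 1437)
 (nat_lit 128) .dd)))) (.br (nat_lit 5) (.ch (nat_lit 4) (.ev (nat_lit 1120) (nat_lit 132) .dd)) (.br (nat_lit
 6) (.ch (nat_lit 5) (.ev (nat_lit 1120) (nat_lit 132) .dd)) (.ch (nat_lit 6) (.nd (nat_lit 3120) (.br (nat_lit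
 1) (.ch (nat_lit 0) (.ev (nat_lit 3136) (nat_lit 128) (.ev (nat_lit 3149) (nat_lit 4) .dd))) (.br (nat_lit 4)
 (.ch (nat_lit 1) (.nd (nat_lit 4256) (.br (nat_lit 6) (.ch (nat_lit 0) (.fin (nat_lit 576477794742518374)))
 (.ch (nat_lit 6) (.ev (nat_lit 4272) (nat_lit 128) (.ev (nat_lit 4285) (nat_lit 4) .dd)))))) (.ch (nat_lit 4)
 (.ev (nat_lit 3136) (nat_lit 132) .dd))))))))))) (.ch (nat_lit 6) (.nd (nat_lit 912) (.br (nat_lit 5) (.br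
 (nat_lit 2) (.ch (nat_lit 1) (.nd (nat_lit 2848) (.br (nat_lit 3) (.ch (nat_lit 2) (.fin (nat_lit
 576773563410236320))) (.ch (nat_lit 3) (.ev (nat_lit 2864) (nat_lit 128) (.ev (nat_lit 2877) (nat_lit 4)
 .dd)))))) (.ch (nat_lit 2) (.ev (nat_lit 928) (nat_lit 128) (.ev (nat_lit 941) (nat_lit 4) .dd)))) (.br
 (nat_lit 6) (.ch (nat_lit 5) (.ev (nat_lit 928) (nat_lit 4) (.ev (nat_lit 941) (nat_lit 128) .dd))) (.ch
 (nat_lit 6) (.nd (nat_lit 2848) (.br (nat_lit 4) (.ch (nat_lit 0) (.ev (nat_lit 2864) (nat_lit 128) (.ev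
 (nat_lit 2877) (nat_lit 4) .dd))) (.br (nat_lit 5) (.ch (nat_lit 4) (.ev (nat_lit 2864) (nat_lit 128) (.ev
 (nat_lit 2877) (nat_lit 4) .dd))) (.ch (nat_lit 5) (.nd (nat_lit 4176) (.br (nat_lit 3) (.ch (nat_lit 0) (.fin
 (nat_lit 576509680611181124))) (.ch (nat_lit 3) (.ev (nat_lit 4192) (nat_lit 132) .dd)))))))))))))))))))) (.br
 (nat_lit 5) (.ch (nat_lit 3) (.ev (nat_lit 240) (nat_lit 4) (.nd (nat_lit 400) (.br (nat_lit 3) (.br (nat_lit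
 2) (.ch (nat_lit 1) (.ev (nat_lit 416) (nat_lit 1024) (.nd (nat_lit 912) (.br (nat_lit 5) (.br (nat_lit 1)
 (.ch (nat_lit 0) (.nd (nat_lit 1712) (.br (nat_lit 3) (.ch (nat_lit 2) (.fin (nat_lit 576487690357654072)))
 (.ch (nat_lit 3) (.ev (nat_lit 2548) (nat_lit 128) (.ev (nat_lit 2557) (nat_lit 16) .dd)))))) (.ch (nat_lit 1)
 (.ev (nat_lit 1172) (nat_lit 16) (.ev (nat_lit 1181) (nat_lit 128) .dd)))) (.br (nat_lit 6) (.ch (nat_lit 5)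
 (.ev (nat_lit 928) (nat_lit 16) (.ev (nat_lit 941) (nat_lit 128) .dd))) (.ch (nat_lit 6) (.ev (nat_lit 928)
 (nat_lit 128) (.ev (nat_lit 941) (nat_lit 16) .dd)))))))) (.ch (nat_lit 2) (.ev (nat_lit 416) (nat_lit 16)
 (.nd (nat_lit 720) (.br (nat_lit 5) (.br (nat_lit 1) (.ch (nat_lit 0) (.fin (nat_lit 576525073703715491)))
 (.ch (nat_lit 1) (.ev (nat_lit 980) (nat_lit 128) (.ev (nat_lit 989) (nat_lit 1024) .dd)))) (.br (nat_lit 6)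
 (.ch (nat_lit 5) (.ev (nat_lit 736) (nat_lit 128) (.ev (nat_lit 749) (nat_lit 1024) .dd))) (.ch (nat_lit 6)
 (.ev (nat_lit 736) (nat_lit 1024) (.ev (nat_lit 749) (nat_lit 128) .dd))))))))) (.br (nat_lit 5) (.ch (nat_lit
 3) (.ev (nat_lit 416) (nat_lit 16) (.ev (nat_lit 1828) (nat_lit 128) (.ev (nat_lit 1837) (nat_lit 1024)
 .dd)))) (.br (nat_lit 6) (.ch (nat_lit 5) (.ev (nat_lit 416) (nat_lit 128) (.nd (nat_lit 1008) (.br (nat_lit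
 1) (.ch (nat_lit 0) (.nd (nat_lit 2368) (.br (nat_lit 5) (.ch (nat_lit 0) (.ev (nat_lit 2436) (nat_lit 1024)
 (.ev (nat_lit 2445) (nat_lit 16) .dd))) (.ch (nat_lit 5) (.ev (nat_lit 2404) (nat_lit 1024) (.ev (nat_lit
 2413) (nat_lit 16) .dd)))))) (.ch (nat_lit 1) (.fin (nat_lit 576523974205719159))))))) (.ch (nat_lit 6) (.nd
 (nat_lit 816) (.br (nat_lit 2) (.br (nat_lit 1) (.ch (nat_lit 0) (.ev (nat_lit 832) (nat_lit 128) (.nd
 (nat_lit 2368) (.br (nat_lit 2) (.ch (nat_lit 0) (.ev (nat_lit 2404) (nat_lit 1024) (.ev (nat_lit 2413)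
 (nat_lit 16) .dd))) (.ch (nat_lit 2) (.fin (nat_lit 576553660822537120))))))) (.ch (nat_lit 1) (.ev (nat_lit
 832) (nat_lit 1024) (.nd (nat_lit 1664) (.br (nat_lit 5) (.ch (nat_lit 4) (.ev (nat_lit 1680) (nat_lit 16)
 (.ev (nat_lit 1693) (nat_lit 128) .dd))) (.br (nat_lit 6) (.ch (nat_lit 5) (.ev (nat_lit 2340) (nat_lit 16)
 (.ev (nat_lit 2349) (nat_lit 128) .dd))) (.ch (nat_lit 6) (.fin (nat_lit 576486590793597466))))))))) (.br
 (nat_lit 4) (.ch (nat_lit 2) (.ev (nat_lit 832) (nat_lit 1024) (.nd (nat_lit 1712) (.br (nat_lit 4) (.ch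
 (nat_lit 0) (.ev (nat_lit 1728) (nat_lit 16) (.ev (nat_lit 1741) (nat_lit 128) .dd))) (.br (nat_lit 6) (.ch
 (nat_lit 4) (.ev (nat_lit 1728) (nat_lit 16) (.ev (nat_lit 1741) (nat_lit 128) .dd))) (.ch (nat_lit 6) (.ev
 (nat_lit 2800) (nat_lit 128) (.ev (nat_lit 2813) (nat_lit 16) .dd)))))))) (.br (nat_lit 5) (.ch (nat_lit 4)
 (.ev (nat_lit 832) (nat_lit 16) (.nd (nat_lit 1664) (.br (nat_lit 3) (.br (nat_lit 2) (.ch (nat_lit 0) (.ev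
 (nat_lit 1680) (nat_lit 1024) (.ev (nat_lit 1693) (nat_lit 128) .dd))) (.ch (nat_lit 2) (.ev (nat_lit 1904)
 (nat_lit 1152) .dd))) (.br (nat_lit 4) (.ch (nat_lit 3) (.ev (nat_lit 1680) (nat_lit 128) (.ev (nat_lit 1693)
 (nat_lit 1024) .dd))) (.ch (nat_lit 4) (.nd (nat_lit 3728) (.ch (nat_lit 6) (.nd (nat_lit 4624) (.br (nat_lit
 4) (.ch (nat_lit 2) (.fin (nat_lit 576324962587459713))) (.br (nat_lit 5) (.ch (nat_lit 4) (.ev (nat_lit 4740)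
 (nat_lit 1024) (.ev (nat_lit 4749) (nat_lit 128) .dd))) (.ch (nat_lit 5) (.ev (nat_lit 4640) (nat_lit 1024)
 (.ev (nat_lit 4653) (nat_lit 128) .dd)))))))))))))) (.ch (nat_lit 5) (.ev (nat_lit 832) (nat_lit 128) (.ev
 (nat_lit 2100) (nat_lit 16) (.ev (nat_lit 2109) (nat_lit 1024) .dd))))))))))))))) (.br (nat_lit 6) (.ch
 (nat_lit 5) (.ev (nat_lit 240) (nat_lit 128) (.nd (nat_lit 496) (.br (nat_lit 3) (.br (nat_lit 1) (.ch
 (nat_lit 0) (.ev (nat_lit 512) (nat_lit 4) (.nd (nat_lit 1008) (.br (nat_lit 2) (.ch (nat_lit 0) (.nd (nat_lit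
 2976) (.br (nat_lit 1) (.ch (nat_lit 0) (.ev (nat_lit 3056) (nat_lit 1040) .dd)) (.ch (nat_lit 1) (.fin
 (nat_lit 576390933269398143)))))) (.br (nat_lit 3) (.ch (nat_lit 2) (.fin (nat_lit 576490989127418209))) (.ch
 (nat_lit 3) (.ev (nat_lit 2356) (nat_lit 16) (.ev (nat_lit 2365) (nat_lit 1024) .dd)))))))) (.ch (nat_lit 1)
 (.nd (nat_lit 816) (.br (nat_lit 2) (.br (nat_lit 1) (.ch (nat_lit 0) (.ev (nat_lit 1380) (nat_lit 1024) (.ev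
 (nat_lit 2048) (nat_lit 16) (.ev (nat_lit 2061) (nat_lit 4) .dd)))) (.ch (nat_lit 1) (.ev (nat_lit 832)
 (nat_lit 16) (.nd (nat_lit 1664) (.br (nat_lit 3) (.ch (nat_lit 2) (.ev (nat_lit 1680) (nat_lit 1024) (.ev
 (nat_lit 1693) (nat_lit 4) .dd))) (.br (nat_lit 6) (.ch (nat_lit 3) (.ev (nat_lit 1680) (nat_lit 4) (.ev
 (nat_lit 1693) (nat_lit 1024) .dd))) (.ch (nat_lit 6) (.fin (nat_lit 576443709840114232))))))))) (.br (nat_lit
 3) (.ch (nat_lit 2) (.ev (nat_lit 832) (nat_lit 4) (.ev (nat_lit 852) (nat_lit 1024) (.ev (nat_lit 861)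
 (nat_lit 16) .dd)))) (.br (nat_lit 5) (.ch (nat_lit 3) (.ev (nat_lit 832) (nat_lit 4) (.ev (nat_lit 2836)
 (nat_lit 16) (.ev (nat_lit 2845) (nat_lit 1024) .dd)))) (.ch (nat_lit 5) (.ev (nat_lit 832) (nat_lit 1024)
 (.nd (nat_lit 2304) (.br (nat_lit 4) (.ch (nat_lit 3) (.ev (nat_lit 2320) (nat_lit 16) (.ev (nat_lit 2333)
 (nat_lit 4) .dd))) (.br (nat_lit 6) (.ch (nat_lit 4) (.ev (nat_lit 3268) (nat_lit 16) (.ev (nat_lit 3277)
 (nat_lit 4) .dd))) (.ch (nat_lit 6) (.ev (nat_lit 3268) (nat_lit 16) (.ev (nat_lit 3277) (nat_lit 4)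
 .dd)))))))))))))) (.br (nat_lit 5) (.ch (nat_lit 3) (.nd (nat_lit 816) (.br (nat_lit 3) (.br (nat_lit 2) (.ch
 (nat_lit 1) (.ev (nat_lit 832) (nat_lit 1044) .dd)) (.ch (nat_lit 2) (.ev (nat_lit 832) (nat_lit 4) (.nd
 (nat_lit 2576) (.br (nat_lit 2) (.ch (nat_lit 0) (.ev (nat_lit 2592) (nat_lit 16) (.ev (nat_lit 2605) (nat_lit
 1024) .dd))) (.ch (nat_lit 2) (.fin (nat_lit 576430515679609412)))))))) (.br (nat_lit 5) (.ch (nat_lit 3) (.ev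
 (nat_lit 832) (nat_lit 4) (.nd (nat_lit 3024) (.ch (nat_lit 1) (.nd (nat_lit 3792) (.br (nat_lit 6) (.ch
 (nat_lit 2) (.ev (nat_lit 3828) (nat_lit 1024) (.ev (nat_lit 3837) (nat_lit 16) .dd))) (.ch (nat_lit 6) (.fin
 (nat_lit 576329360507093639))))))))) (.br (nat_lit 6) (.ch (nat_lit 5) (.ev (nat_lit 1840) (nat_lit 1024)
 (.fin (nat_lit 576465700096786995)))) (.ch (nat_lit 6) (.ev (nat_lit 832) (nat_lit 16) (.nd (nat_lit 2368)
 (.br (nat_lit 1) (.ch (nat_lit 0) (.ev (nat_lit 2384) (nat_lit 1024) (.ev (nat_lit 2397) (nat_lit 4) .dd)))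
 (.br (nat_lit 2) (.ch (nat_lit 1) (.fin (nat_lit 576477794690089498))) (.ch (nat_lit 2) (.ev (nat_lit 2384)
 (nat_lit 4) (.ev (nat_lit 2397) (nat_lit 1024) .dd))))))))))))) (.br (nat_lit 6) (.ch (nat_lit 5) (.ev
 (nat_lit 512) (nat_lit 1040) (.ev (nat_lit 525) (nat_lit 4) .dd))) (.ch (nat_lit 6) (.ev (nat_lit 512)
 (nat_lit 1024) (.nd (nat_lit 1104) (.br (nat_lit 3) (.br (nat_lit 2) (.ch (nat_lit 0) (.ev (nat_lit 1120)
 (nat_lit 16) (.ev (nat_lit 1133) (nat_lit 4) .dd))) (.ch (nat_lit 2) (.ev (nat_lit 1120) (nat_lit 16) (.ev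
 (nat_lit 1133) (nat_lit 4) .dd)))) (.br (nat_lit 4) (.ch (nat_lit 3) (.ev (nat_lit 1300) (nat_lit 4) (.ev
 (nat_lit 1309) (nat_lit 16) .dd))) (.br (nat_lit 6) (.ch (nat_lit 4) (.ev (nat_lit 1120) (nat_lit 4) (.ev
 (nat_lit 1133) (nat_lit 16) .dd))) (.ch (nat_lit 6) (.nd (nat_lit 2368) (.br (nat_lit 3) (.ch (nat_lit 1) (.ev
 (nat_lit 2384) (nat_lit 4) (.ev (nat_lit 2397) (nat_lit 16) .dd))) (.br (nat_lit 4) (.ch (nat_lit 3) (.ev
 (nat_lit 2384) (nat_lit 16) (.ev (nat_lit 2397) (nat_lit 4) .dd))) (.ch (nat_lit 4) (.ev (nat_lit 2468)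
 (nat_lit 4) (.ev (nat_lit 2477) (nat_lit 16) .dd))))))))))))))))))) (.ch (nat_lit 6) (.ev (nat_lit 240)
 (nat_lit 132) (.nd (nat_lit 592) (.br (nat_lit 3) (.br (nat_lit 1) (.ch (nat_lit 0) (.nd (nat_lit 1536) (.br
 (nat_lit 5) (.ch (nat_lit 3) (.fin (nat_lit 576468998639010406))) (.ch (nat_lit 5) (.ev (nat_lit 1572)
 (nat_lit 16) (.ev (nat_lit 1581) (nat_lit 1024) .dd)))))) (.ch (nat_lit 1) (.ev (nat_lit 608) (nat_lit 16)
 (.ev (nat_lit 621) (nat_lit 1024) .dd)))) (.br (nat_lit 4) (.ch (nat_lit 3) (.ev (nat_lit 608) (nat_lit 1040)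
 .dd)) (.br (nat_lit 5) (.ch (nat_lit 4) (.ev (nat_lit 608) (nat_lit 1024) (.ev (nat_lit 621) (nat_lit 16)
 .dd))) (.ch (nat_lit 5) (.nd (nat_lit 1392) (.br (nat_lit 3) (.br (nat_lit 2) (.ch (nat_lit 1) (.fin (nat_lit
 576467899133674049))) (.ch (nat_lit 2) (.ev (nat_lit 1428) (nat_lit 1024) (.ev (nat_lit 1437) (nat_lit 16)
 .dd)))) (.br (nat_lit 6) (.ch (nat_lit 3) (.ev (nat_lit 1408) (nat_lit 1024) (.ev (nat_lit 1421) (nat_lit 16)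
 .dd))) (.ch (nat_lit 6) (.ev (nat_lit 1460) (nat_lit 1024) (.ev (nat_lit 1469) (nat_lit 16)
 .dd))))))))))))))))))))))))

/-- Subtrie. -/
noncomputable def T3 : Tr := (.ev (nat_lit 20) (nat_lit 1280) (.nd (nat_lit 32) (.br (nat_lit 3) (.br (nat_lit
 2) (.ch (nat_lit 0) (.ev (nat_lit 48) (nat_lit 704) (.nd (nat_lit 288) (.br (nat_lit 4) (.br (nat_lit 3) (.ch
 (nat_lit 2) (.ev (nat_lit 304) (nat_lit 4112) (.nd (nat_lit 672) (.br (nat_lit 4) (.br (nat_lit 3) (.ch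
 (nat_lit 1) (.nd (nat_lit 1536) (.br (nat_lit 3) (.br (nat_lit 1) (.ch (nat_lit 0) (.ev (nat_lit 1552)
 (nat_lit 32) (.ev (nat_lit 1572) (nat_lit 4) (.ev (nat_lit 1581) (nat_lit 2048) .dd)))) (.ch (nat_lit 1) (.ev
 (nat_lit 1552) (nat_lit 32) (.ev (nat_lit 1588) (nat_lit 2048) (.ev (nat_lit 1597) (nat_lit 4) .dd))))) (.br
 (nat_lit 4) (.ch (nat_lit 3) (.ev (nat_lit 1552) (nat_lit 4) (.fin (nat_lit 576418421125104226)))) (.br
 (nat_lit 6) (.ch (nat_lit 4) (.ev (nat_lit 1572) (nat_lit 2080) (.ev (nat_lit 1581) (nat_lit 4) .dd))) (.ch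
 (nat_lit 6) (.ev (nat_lit 1552) (nat_lit 2048) (.ev (nat_lit 1572) (nat_lit 4) (.ev (nat_lit 1581) (nat_lit
 32) .dd))))))))) (.ch (nat_lit 3) (.ev (nat_lit 688) (nat_lit 4) (.nd (nat_lit 1536) (.br (nat_lit 2) (.br
 (nat_lit 1) (.ch (nat_lit 0) (.ev (nat_lit 1552) (nat_lit 2048) (.ev (nat_lit 1565) (nat_lit 32) .dd))) (.ch
 (nat_lit 1) (.nd (nat_lit 3296) (.br (nat_lit 5) (.ch (nat_lit 0) (.fin (nat_lit 576675706575471362))) (.ch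
 (nat_lit 5) (.ev (nat_lit 3332) (nat_lit 32) (.ev (nat_lit 3341) (nat_lit 2048) .dd))))))) (.br (nat_lit 4)
 (.ch (nat_lit 2) (.ev (nat_lit 1572) (nat_lit 32) (.ev (nat_lit 1581) (nat_lit 2048) .dd))) (.ch (nat_lit 4)
 (.nd (nat_lit 3120) (.br (nat_lit 4) (.br (nat_lit 2) (.ch (nat_lit 1) (.ev (nat_lit 3156) (nat_lit 2048) (.ev
 (nat_lit 3165) (nat_lit 32) .dd))) (.ch (nat_lit 2) (.fin (nat_lit 576375540312129907)))) (.br (nat_lit 5)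
 (.ch (nat_lit 4) (.ev (nat_lit 3136) (nat_lit 2048) (.ev (nat_lit 3149) (nat_lit 32) .dd))) (.ch (nat_lit 5)
 (.ev (nat_lit 3136) (nat_lit 32) (.ev (nat_lit 3149) (nat_lit 2048) .dd))))))))))))) (.br (nat_lit 5) (.ch
 (nat_lit 4) (.ev (nat_lit 688) (nat_lit 4) (.nd (nat_lit 1392) (.br (nat_lit 6) (.ch (nat_lit 4) (.fin
 (nat_lit 576461302057615943))) (.ch (nat_lit 6) (.ev (nat_lit 1428) (nat_lit 2048) (.ev (nat_lit 1437)
 (nat_lit 32) .dd))))))) (.br (nat_lit 6) (.ch (nat_lit 5) (.ev (nat_lit 688) (nat_lit 32) (.nd (nat_lit 1536)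
 (.br (nat_lit 4) (.br (nat_lit 1) (.ch (nat_lit 0) (.ev (nat_lit 1552) (nat_lit 2048) (.ev (nat_lit 1565)
 (nat_lit 4) .dd))) (.ch (nat_lit 1) (.fin (nat_lit 576464600593547839)))) (.br (nat_lit 6) (.ch (nat_lit 4)
 (.ev (nat_lit 1620) (nat_lit 4) (.ev (nat_lit 1629) (nat_lit 2048) .dd))) (.ch (nat_lit 6) (.ev (nat_lit 1552)
 (nat_lit 2048) (.ev (nat_lit 1565) (nat_lit 4) .dd)))))))) (.ch (nat_lit 6) (.ev (nat_lit 688) (nat_lit 2080)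
 (.ev (nat_lit 701) (nat_lit 4) .dd))))))))) (.ch (nat_lit 3) (.ev (nat_lit 304) (nat_lit 4) (.nd (nat_lit 592)
 (.br (nat_lit 4) (.br (nat_lit 1) (.ch (nat_lit 0) (.nd (nat_lit 1392) (.br (nat_lit 3) (.br (nat_lit 2) (.ch
 (nat_lit 1) (.ev (nat_lit 1408) (nat_lit 4128) (.fin (nat_lit 576453605513970247)))) (.ch (nat_lit 2) (.ev
 (nat_lit 1408) (nat_lit 4144) (.ev (nat_lit 1421) (nat_lit 2048) .dd)))) (.br (nat_lit 4) (.ch (nat_lit 3)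
 (.ev (nat_lit 1408) (nat_lit 2096) (.ev (nat_lit 1421) (nat_lit 4096) .dd))) (.br (nat_lit 5) (.ch (nat_lit 4)
 (.ev (nat_lit 1408) (nat_lit 4096) (.ev (nat_lit 1428) (nat_lit 16) (.ev (nat_lit 1444) (nat_lit 2048) (.ev
 (nat_lit 1453) (nat_lit 32) .dd))))) (.ch (nat_lit 5) (.ev (nat_lit 1408) (nat_lit 2048) (.nd (nat_lit 3120)
 (.br (nat_lit 3) (.ch (nat_lit 0) (.ev (nat_lit 3136) (nat_lit 16) (.nd (nat_lit 3888) (.br (nat_lit 3) (.ch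
 (nat_lit 0) (.ev (nat_lit 3904) (nat_lit 32) (.ev (nat_lit 3917) (nat_lit 4096) .dd))) (.ch (nat_lit 3) (.fin
 (nat_lit 576165533568156001))))))) (.br (nat_lit 5) (.ch (nat_lit 3) (.ev (nat_lit 3136) (nat_lit 32) (.fin
 (nat_lit 576329360823763329)))) (.ch (nat_lit 5) (.ev (nat_lit 3136) (nat_lit 4096) (.fin (nat_lit
 576345853665952201)))))))))))))) (.ch (nat_lit 1) (.ev (nat_lit 608) (nat_lit 48) (.nd (nat_lit 1536) (.br
 (nat_lit 3) (.ch (nat_lit 2) (.ev (nat_lit 1572) (nat_lit 2048) (.ev (nat_lit 1581) (nat_lit 4096) .dd))) (.br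
 (nat_lit 5) (.ch (nat_lit 3) (.fin (nat_lit 576496486408733312))) (.ch (nat_lit 5) (.fin (nat_lit
 576698796263031428))))))))) (.br (nat_lit 5) (.ch (nat_lit 4) (.ev (nat_lit 608) (nat_lit 2048) (.nd (nat_lit
 1392) (.br (nat_lit 4) (.br (nat_lit 2) (.ch (nat_lit 0) (.ev (nat_lit 1792) (nat_lit 32) (.nd (nat_lit 3216)
 (.br (nat_lit 5) (.ch (nat_lit 2) (.fin (nat_lit 576458003575161451))) (.ch (nat_lit 5) (.ev (nat_lit 3232)
 (nat_lit 16) (.ev (nat_lit 3245) (nat_lit 4096) .dd))))))) (.ch (nat_lit 2) (.ev (nat_lit 1408) (nat_lit 4096)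
 (.nd (nat_lit 2928) (.br (nat_lit 6) (.ch (nat_lit 2) (.ev (nat_lit 2944) (nat_lit 16) (.ev (nat_lit 2957)
 (nat_lit 32) .dd))) (.ch (nat_lit 6) (.nd (nat_lit 3840) (.br (nat_lit 3) (.ch (nat_lit 1) (.fin (nat_lit
 576415122760090001))) (.ch (nat_lit 3) (.ev (nat_lit 3876) (nat_lit 32) (.ev (nat_lit 3885) (nat_lit 16)
 .dd))))))))))) (.br (nat_lit 6) (.ch (nat_lit 4) (.ev (nat_lit 1408) (nat_lit 32) (.ev (nat_lit 1428) (nat_lit
 4096) (.ev (nat_lit 1437) (nat_lit 16) .dd)))) (.ch (nat_lit 6) (.nd (nat_lit 2368) (.br (nat_lit 4) (.ch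
 (nat_lit 3) (.ev (nat_lit 2404) (nat_lit 4096) (.nd (nat_lit 4064) (.br (nat_lit 6) (.ch (nat_lit 1) (.ev
 (nat_lit 4080) (nat_lit 48) .dd)) (.ch (nat_lit 6) (.fin (nat_lit 576456904023687736))))))) (.br (nat_lit 6)
 (.ch (nat_lit 4) (.ev (nat_lit 2384) (nat_lit 16) (.fin (nat_lit 576517377177895534)))) (.ch (nat_lit 6) (.ev
 (nat_lit 2384) (nat_lit 16) (.ev (nat_lit 2404) (nat_lit 4096) (.ev (nat_lit 2413) (nat_lit 32)
 .dd))))))))))))) (.br (nat_lit 6) (.ch (nat_lit 5) (.ev (nat_lit 628) (nat_lit 2080) (.nd (nat_lit 1536) (.br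
 (nat_lit 5) (.br (nat_lit 4) (.ch (nat_lit 3) (.ev (nat_lit 1572) (nat_lit 16) (.ev (nat_lit 1581) (nat_lit
 4096) .dd))) (.ch (nat_lit 4) (.ev (nat_lit 1552) (nat_lit 16) (.ev (nat_lit 1565) (nat_lit 4096) .dd)))) (.br
 (nat_lit 6) (.ch (nat_lit 5) (.ev (nat_lit 1552) (nat_lit 4096) (.ev (nat_lit 1565) (nat_lit 16) .dd))) (.ch
 (nat_lit 6) (.ev (nat_lit 1828) (nat_lit 16) (.ev (nat_lit 1837) (nat_lit 4096) .dd)))))))) (.ch (nat_lit 6)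
 (.ev (nat_lit 608) (nat_lit 6160) (.ev (nat_lit 621) (nat_lit 32) .dd)))))))))) (.br (nat_lit 5) (.ch (nat_lit
 4) (.ev (nat_lit 304) (nat_lit 6176) (.nd (nat_lit 672) (.br (nat_lit 4) (.br (nat_lit 2) (.ch (nat_lit 0)
 (.ev (nat_lit 688) (nat_lit 16) (.ev (nat_lit 701) (nat_lit 4) .dd))) (.ch (nat_lit 2) (.ev (nat_lit 688)
 (nat_lit 4) (.ev (nat_lit 701) (nat_lit 16) .dd)))) (.br (nat_lit 5) (.ch (nat_lit 4) (.nd (nat_lit 1392) (.br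
 (nat_lit 3) (.br (nat_lit 2) (.ch (nat_lit 1) (.ev (nat_lit 1408) (nat_lit 16) (.ev (nat_lit 1421) (nat_lit 4)
 .dd))) (.ch (nat_lit 2) (.ev (nat_lit 1428) (nat_lit 16) (.ev (nat_lit 1437) (nat_lit 4) .dd)))) (.br (nat_lit
 4) (.ch (nat_lit 3) (.nd (nat_lit 3504) (.br (nat_lit 5) (.ch (nat_lit 1) (.fin (nat_lit 576434913749189171)))
 (.ch (nat_lit 5) (.ev (nat_lit 3520) (nat_lit 4) (.ev (nat_lit 3533) (nat_lit 16) .dd)))))) (.br (nat_lit 6)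
 (.ch (nat_lit 4) (.ev (nat_lit 1408) (nat_lit 4) (.ev (nat_lit 1421) (nat_lit 16) .dd))) (.ch (nat_lit 6) (.ev
 (nat_lit 2656) (nat_lit 16) (.ev (nat_lit 2669) (nat_lit 4) .dd)))))))) (.br (nat_lit 6) (.ch (nat_lit 5) (.nd
 (nat_lit 1536) (.br (nat_lit 5) (.br (nat_lit 2) (.ch (nat_lit 1) (.ev (nat_lit 1552) (nat_lit 4) (.ev
 (nat_lit 1565) (nat_lit 16) .dd))) (.ch (nat_lit 2) (.ev (nat_lit 1552) (nat_lit 16) (.ev (nat_lit 1565)
 (nat_lit 4) .dd)))) (.br (nat_lit 6) (.ch (nat_lit 5) (.ev (nat_lit 2276) (nat_lit 4) (.ev (nat_lit 2285)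
 (nat_lit 16) .dd))) (.ch (nat_lit 6) (.ev (nat_lit 1572) (nat_lit 4) (.ev (nat_lit 1581) (nat_lit 16)
 .dd))))))) (.ch (nat_lit 6) (.ev (nat_lit 688) (nat_lit 20) .dd)))))))) (.br (nat_lit 6) (.ch (nat_lit 5) (.nd
 (nat_lit 496) (.br (nat_lit 2) (.br (nat_lit 1) (.ch (nat_lit 0) (.ev (nat_lit 512) (nat_lit 16) (.nd (nat_lit
 1104) (.br (nat_lit 3) (.br (nat_lit 2) (.ch (nat_lit 1) (.ev (nat_lit 1120) (nat_lit 4) (.ev (nat_lit 1924)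
 (nat_lit 32) (.nd (nat_lit 3392) (.br (nat_lit 2) (.ch (nat_lit 1) (.fin (nat_lit 576439311831351832))) (.br
 (nat_lit 5) (.ch (nat_lit 2) (.ev (nat_lit 3408) (nat_lit 4096) (.ev (nat_lit 3421) (nat_lit 2048) .dd))) (.ch
 (nat_lit 5) (.ev (nat_lit 3408) (nat_lit 2048) (.ev (nat_lit 3421) (nat_lit 4096) .dd))))))))) (.ch (nat_lit
 2) (.ev (nat_lit 1120) (nat_lit 4100) (.ev (nat_lit 1188) (nat_lit 2048) (.ev (nat_lit 1197) (nat_lit 32)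
 .dd))))) (.br (nat_lit 4) (.ch (nat_lit 3) (.ev (nat_lit 1120) (nat_lit 6176) (.ev (nat_lit 1133) (nat_lit 4)
 .dd))) (.br (nat_lit 6) (.ch (nat_lit 4) (.ev (nat_lit 1120) (nat_lit 2048) (.ev (nat_lit 1364) (nat_lit 4)
 (.ev (nat_lit 1924) (nat_lit 4096) (.ev (nat_lit 1933) (nat_lit 32) .dd))))) (.ch (nat_lit 6) (.ev (nat_lit
 1120) (nat_lit 4128) (.ev (nat_lit 1140) (nat_lit 4) (.ev (nat_lit 1149) (nat_lit 2048) .dd)))))))))) (.ch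
 (nat_lit 1) (.ev (nat_lit 512) (nat_lit 4) (.nd (nat_lit 1008) (.br (nat_lit 4) (.br (nat_lit 3) (.ch (nat_lit
 2) (.ev (nat_lit 1044) (nat_lit 2064) (.ev (nat_lit 1780) (nat_lit 32) (.ev (nat_lit 1789) (nat_lit 4096)
 .dd)))) (.ch (nat_lit 3) (.ev (nat_lit 1024) (nat_lit 16) (.ev (nat_lit 1076) (nat_lit 4096) (.nd (nat_lit
 3344) (.br (nat_lit 3) (.ch (nat_lit 0) (.ev (nat_lit 3360) (nat_lit 2048) (.ev (nat_lit 3373) (nat_lit 32)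
 .dd))) (.ch (nat_lit 3) (.fin (nat_lit 576404127519031901))))))))) (.br (nat_lit 5) (.ch (nat_lit 4) (.ev
 (nat_lit 1024) (nat_lit 4128) (.ev (nat_lit 1044) (nat_lit 16) (.ev (nat_lit 1053) (nat_lit 2048) .dd)))) (.ch
 (nat_lit 5) (.ev (nat_lit 1024) (nat_lit 2048) (.ev (nat_lit 1312) (nat_lit 4096) (.fin (nat_lit
 576443709953360325))))))))))) (.br (nat_lit 5) (.ch (nat_lit 2) (.ev (nat_lit 512) (nat_lit 4144) (.nd
 (nat_lit 1104) (.br (nat_lit 4) (.ch (nat_lit 2) (.ev (nat_lit 1780) (nat_lit 4) (.ev (nat_lit 1789) (nat_lit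
 2048) .dd))) (.br (nat_lit 5) (.ch (nat_lit 4) (.ev (nat_lit 1120) (nat_lit 2048) (.ev (nat_lit 1133) (nat_lit
 4) .dd))) (.ch (nat_lit 5) (.ev (nat_lit 1120) (nat_lit 2048) (.ev (nat_lit 1133) (nat_lit 4) .dd)))))))) (.br
 (nat_lit 6) (.ch (nat_lit 5) (.nd (nat_lit 912) (.br (nat_lit 3) (.br (nat_lit 1) (.ch (nat_lit 0) (.ev
 (nat_lit 928) (nat_lit 6144) (.ev (nat_lit 1076) (nat_lit 4) (.nd (nat_lit 3296) (.br (nat_lit 6) (.ch
 (nat_lit 0) (.fin (nat_lit 576438212349084273))) (.ch (nat_lit 6) (.ev (nat_lit 3312) (nat_lit 32) (.ev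
 (nat_lit 3325) (nat_lit 16) .dd)))))))) (.ch (nat_lit 1) (.ev (nat_lit 948) (nat_lit 4096) (.ev (nat_lit 1044)
 (nat_lit 16) (.nd (nat_lit 2304) (.br (nat_lit 2) (.ch (nat_lit 1) (.ev (nat_lit 2320) (nat_lit 2048) (.nd
 (nat_lit 4032) (.ch (nat_lit 0) (.nd (nat_lit 4592) (.br (nat_lit 6) (.ch (nat_lit 3) (.ev (nat_lit 4608)
 (nat_lit 32) (.ev (nat_lit 4621) (nat_lit 4) .dd))) (.ch (nat_lit 6) (.fin (nat_lit
 576456904017396294))))))))) (.br (nat_lit 6) (.ch (nat_lit 2) (.ev (nat_lit 2320) (nat_lit 2052) (.ev (nat_lit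
 2333) (nat_lit 32) .dd))) (.ch (nat_lit 6) (.ev (nat_lit 2320) (nat_lit 32) (.nd (nat_lit 4176) (.ch (nat_lit
 6) (.nd (nat_lit 4848) (.br (nat_lit 1) (.ch (nat_lit 0) (.ev (nat_lit 4884) (nat_lit 4) (.ev (nat_lit 4893)
 (nat_lit 2048) .dd))) (.br (nat_lit 5) (.ch (nat_lit 1) (.ev (nat_lit 4864) (nat_lit 4) (.ev (nat_lit 4877)
 (nat_lit 2048) .dd))) (.ch (nat_lit 5) (.fin (nat_lit 576410724903371495))))))))))))))))) (.br (nat_lit 5)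
 (.ch (nat_lit 3) (.ev (nat_lit 928) (nat_lit 2096) (.fin (nat_lit 576472297217933887)))) (.br (nat_lit 6) (.ch
 (nat_lit 5) (.ev (nat_lit 928) (nat_lit 4) (.ev (nat_lit 948) (nat_lit 4096) (.ev (nat_lit 1172) (nat_lit 16)
 (.nd (nat_lit 2848) (.br (nat_lit 1) (.ch (nat_lit 0) (.ev (nat_lit 2864) (nat_lit 32) (.ev (nat_lit 2877)
 (nat_lit 2048) .dd))) (.ch (nat_lit 1) (.fin (nat_lit 576418421057995299))))))))) (.ch (nat_lit 6) (.ev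
 (nat_lit 928) (nat_lit 20) (.ev (nat_lit 948) (nat_lit 4096) (.nd (nat_lit 2496) (.br (nat_lit 3) (.ch
 (nat_lit 1) (.ev (nat_lit 2528) (nat_lit 2080) .dd)) (.br (nat_lit 4) (.ch (nat_lit 3) (.ev (nat_lit 2768)
 (nat_lit 2080) .dd)) (.ch (nat_lit 4) (.ev (nat_lit 2548) (nat_lit 2048) (.ev (nat_lit 2557) (nat_lit 32)
 .dd)))))))))))))) (.ch (nat_lit 6) (.ev (nat_lit 512) (nat_lit 2080) (.nd (nat_lit 1232) (.br (nat_lit 4) (.br
 (nat_lit 3) (.ch (nat_lit 0) (.ev (nat_lit 1248) (nat_lit 4096) (.ev (nat_lit 1268) (nat_lit 4) (.ev (nat_lit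
 1277) (nat_lit 16) .dd)))) (.ch (nat_lit 3) (.ev (nat_lit 1248) (nat_lit 4) (.ev (nat_lit 1268) (nat_lit 16)
 (.ev (nat_lit 1277) (nat_lit 4096) .dd))))) (.br (nat_lit 5) (.ch (nat_lit 4) (.ev (nat_lit 1248) (nat_lit
 4112) (.ev (nat_lit 1261) (nat_lit 4) .dd))) (.br (nat_lit 6) (.ch (nat_lit 5) (.nd (nat_lit 2928) (.br
 (nat_lit 4) (.ch (nat_lit 3) (.ev (nat_lit 2964) (nat_lit 16) (.nd (nat_lit 4064) (.br (nat_lit 4) (.ch
 (nat_lit 2) (.fin (nat_lit 576444809399976559))) (.ch (nat_lit 4) (.ev (nat_lit 4080) (nat_lit 4096) (.ev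
 (nat_lit 4093) (nat_lit 4) .dd))))))) (.br (nat_lit 6) (.ch (nat_lit 4) (.ev (nat_lit 2944) (nat_lit 16) (.fin
 (nat_lit 576149040622158483)))) (.ch (nat_lit 6) (.ev (nat_lit 2944) (nat_lit 4) (.fin (nat_lit
 576470098176852581)))))))) (.ch (nat_lit 6) (.ev (nat_lit 1268) (nat_lit 4096) (.ev (nat_lit 2048) (nat_lit 4)
 (.ev (nat_lit 2061) (nat_lit 16) .dd))))))))))))))) (.ch (nat_lit 6) (.ev (nat_lit 304) (nat_lit 2052) (.nd
 (nat_lit 672) (.br (nat_lit 4) (.br (nat_lit 2) (.ch (nat_lit 0) (.ev (nat_lit 688) (nat_lit 16) (.nd (nat_lit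
 1536) (.br (nat_lit 5) (.br (nat_lit 3) (.ch (nat_lit 0) (.ev (nat_lit 1552) (nat_lit 4096) (.ev (nat_lit
 1565) (nat_lit 32) .dd))) (.ch (nat_lit 3) (.ev (nat_lit 2704) (nat_lit 4096) (.ev (nat_lit 2717) (nat_lit 32)
 .dd)))) (.br (nat_lit 6) (.ch (nat_lit 5) (.fin (nat_lit 576470098138055241))) (.ch (nat_lit 6) (.ev (nat_lit
 3076) (nat_lit 4096) (.ev (nat_lit 3085) (nat_lit 32) .dd)))))))) (.ch (nat_lit 2) (.ev (nat_lit 688) (nat_lit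
 32) (.ev (nat_lit 708) (nat_lit 4096) (.ev (nat_lit 717) (nat_lit 16) .dd))))) (.br (nat_lit 5) (.ch (nat_lit
 4) (.nd (nat_lit 1392) (.br (nat_lit 4) (.br (nat_lit 3) (.ch (nat_lit 1) (.ev (nat_lit 1408) (nat_lit 4112)
 (.ev (nat_lit 1421) (nat_lit 32) .dd))) (.ch (nat_lit 3) (.ev (nat_lit 1652) (nat_lit 16) (.ev (nat_lit 1972)
 (nat_lit 4096) (.ev (nat_lit 1981) (nat_lit 32) .dd))))) (.br (nat_lit 6) (.ch (nat_lit 4) (.ev (nat_lit 1428)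
 (nat_lit 16) (.ev (nat_lit 2740) (nat_lit 32) (.ev (nat_lit 2749) (nat_lit 4096) .dd)))) (.ch (nat_lit 6) (.ev
 (nat_lit 1408) (nat_lit 32) (.ev (nat_lit 1476) (nat_lit 4096) (.ev (nat_lit 1485) (nat_lit 16) .dd))))))))
 (.br (nat_lit 6) (.ch (nat_lit 5) (.nd (nat_lit 1536) (.br (nat_lit 4) (.br (nat_lit 2) (.ch (nat_lit 0) (.ev
 (nat_lit 1552) (nat_lit 32) (.nd (nat_lit 3344) (.br (nat_lit 3) (.ch (nat_lit 2) (.ev (nat_lit 3360) (nat_lit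
 4096) (.ev (nat_lit 3373) (nat_lit 16) .dd))) (.ch (nat_lit 3) (.nd (nat_lit 4352) (.br (nat_lit 1) (.ch
 (nat_lit 0) (.fin (nat_lit 576490988622005050))) (.ch (nat_lit 1) (.ev (nat_lit 4368) (nat_lit 16) (.ev
 (nat_lit 4381) (nat_lit 4096) .dd)))))))))) (.ch (nat_lit 2) (.ev (nat_lit 1552) (nat_lit 4096) (.nd (nat_lit
 3296) (.ch (nat_lit 3) (.nd (nat_lit 3984) (.br (nat_lit 6) (.ch (nat_lit 1) (.ev (nat_lit 4020) (nat_lit 16)
 (.ev (nat_lit 4029) (nat_lit 32) .dd))) (.ch (nat_lit 6) (.fin (nat_lit 576460202193666622)))))))))) (.br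
 (nat_lit 5) (.ch (nat_lit 4) (.ev (nat_lit 1552) (nat_lit 4096) (.ev (nat_lit 1572) (nat_lit 16) (.ev (nat_lit
 1581) (nat_lit 32) .dd)))) (.ch (nat_lit 5) (.ev (nat_lit 1572) (nat_lit 4128) (.ev (nat_lit 1581) (nat_lit
 16) .dd))))))) (.ch (nat_lit 6) (.ev (nat_lit 688) (nat_lit 4144) .dd)))))))))))))) (.ch (nat_lit 2) (.ev
 (nat_lit 48) (nat_lit 132) (.nd (nat_lit 128) (.br (nat_lit 3) (.br (nat_lit 2) (.ch (nat_lit 0) (.ev (nat_lit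
 144) (nat_lit 2048) (.nd (nat_lit 544) (.br (nat_lit 3) (.br (nat_lit 1) (.ch (nat_lit 0) (.ev (nat_lit 560)
 (nat_lit 4096) (.ev (nat_lit 580) (nat_lit 16) (.nd (nat_lit 1104) (.br (nat_lit 4) (.br (nat_lit 1) (.ch
 (nat_lit 0) (.ev (nat_lit 1120) (nat_lit 512) (.ev (nat_lit 1332) (nat_lit 32) (.ev (nat_lit 1341) (nat_lit
 64) .dd)))) (.ch (nat_lit 1) (.ev (nat_lit 1120) (nat_lit 32) (.nd (nat_lit 3296) (.ch (nat_lit 4) (.nd
 (nat_lit 3920) (.br (nat_lit 4) (.ch (nat_lit 3) (.fin (nat_lit 576345853665952334))) (.ch (nat_lit 4) (.ev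
 (nat_lit 3956) (nat_lit 64) (.ev (nat_lit 3965) (nat_lit 512) .dd)))))))))) (.br (nat_lit 5) (.ch (nat_lit 4)
 (.ev (nat_lit 1120) (nat_lit 576) (.ev (nat_lit 1133) (nat_lit 32) .dd))) (.br (nat_lit 6) (.ch (nat_lit 5)
 (.ev (nat_lit 1140) (nat_lit 64) (.ev (nat_lit 1268) (nat_lit 512) (.ev (nat_lit 1277) (nat_lit 32) .dd))))
 (.ch (nat_lit 6) (.ev (nat_lit 1120) (nat_lit 32) (.ev (nat_lit 1140) (nat_lit 64) (.ev (nat_lit 1149)
 (nat_lit 512) .dd))))))))))) (.ch (nat_lit 1) (.ev (nat_lit 560) (nat_lit 4144) (.nd (nat_lit 1232) (.br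
 (nat_lit 5) (.ch (nat_lit 3) (.ev (nat_lit 3076) (nat_lit 64) (.ev (nat_lit 3085) (nat_lit 512) .dd))) (.br
 (nat_lit 6) (.ch (nat_lit 5) (.ev (nat_lit 2788) (nat_lit 64) (.ev (nat_lit 2797) (nat_lit 512) .dd))) (.ch
 (nat_lit 6) (.fin (nat_lit 576463501099745867))))))))) (.br (nat_lit 4) (.ch (nat_lit 3) (.ev (nat_lit 560)
 (nat_lit 32) (.nd (nat_lit 1008) (.br (nat_lit 4) (.br (nat_lit 2) (.ch (nat_lit 1) (.ev (nat_lit 1024)
 (nat_lit 4112) (.fin (nat_lit 576434913770160663)))) (.ch (nat_lit 2) (.ev (nat_lit 1172) (nat_lit 4096) (.ev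
 (nat_lit 1204) (nat_lit 16) (.ev (nat_lit 1444) (nat_lit 512) (.ev (nat_lit 1453) (nat_lit 64) .dd)))))) (.br
 (nat_lit 5) (.ch (nat_lit 4) (.ev (nat_lit 1024) (nat_lit 512) (.ev (nat_lit 1380) (nat_lit 16) (.ev (nat_lit
 1972) (nat_lit 64) (.ev (nat_lit 1981) (nat_lit 4096) .dd))))) (.br (nat_lit 6) (.ch (nat_lit 5) (.ev (nat_lit
 1024) (nat_lit 64) (.ev (nat_lit 1460) (nat_lit 512) (.ev (nat_lit 2148) (nat_lit 4096) (.ev (nat_lit 2157)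
 (nat_lit 16) .dd))))) (.ch (nat_lit 6) (.ev (nat_lit 1024) (nat_lit 16) (.ev (nat_lit 1300) (nat_lit 64) (.ev
 (nat_lit 2036) (nat_lit 512) (.ev (nat_lit 2045) (nat_lit 4096) .dd))))))))))) (.br (nat_lit 6) (.ch (nat_lit
 4) (.ev (nat_lit 560) (nat_lit 576) (.nd (nat_lit 1104) (.br (nat_lit 4) (.br (nat_lit 2) (.ch (nat_lit 1)
 (.ev (nat_lit 1120) (nat_lit 4096) (.nd (nat_lit 3216) (.br (nat_lit 6) (.ch (nat_lit 4) (.ev (nat_lit 3232)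
 (nat_lit 16) (.ev (nat_lit 3245) (nat_lit 32) .dd))) (.ch (nat_lit 6) (.fin (nat_lit 576462401573438018)))))))
 (.ch (nat_lit 2) (.ev (nat_lit 1140) (nat_lit 16) (.ev (nat_lit 1268) (nat_lit 4096) (.ev (nat_lit 1277)
 (nat_lit 32) .dd))))) (.br (nat_lit 5) (.ch (nat_lit 4) (.ev (nat_lit 1460) (nat_lit 32) (.nd (nat_lit 3632)
 (.ch (nat_lit 3) (.nd (nat_lit 4432) (.ch (nat_lit 6) (.nd (nat_lit 5184) (.br (nat_lit 4) (.ch (nat_lit 1)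
 (.ev (nat_lit 5200) (nat_lit 4096) (.ev (nat_lit 5213) (nat_lit 16) .dd))) (.ch (nat_lit 4) (.fin (nat_lit
 576393132276925001))))))))))) (.ch (nat_lit 5) (.ev (nat_lit 1120) (nat_lit 48) (.ev (nat_lit 1133) (nat_lit
 4096) .dd)))))))) (.ch (nat_lit 6) (.ev (nat_lit 560) (nat_lit 64) (.nd (nat_lit 912) (.br (nat_lit 3) (.br
 (nat_lit 2) (.ch (nat_lit 1) (.ev (nat_lit 928) (nat_lit 4608) (.ev (nat_lit 1172) (nat_lit 16) (.ev (nat_lit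
 1181) (nat_lit 32) .dd)))) (.ch (nat_lit 2) (.nd (nat_lit 1664) (.br (nat_lit 4) (.br (nat_lit 1) (.ch
 (nat_lit 0) (.ev (nat_lit 1680) (nat_lit 4128) (.ev (nat_lit 2244) (nat_lit 16) (.ev (nat_lit 2253) (nat_lit
 512) .dd)))) (.ch (nat_lit 1) (.ev (nat_lit 1680) (nat_lit 16) (.ev (nat_lit 1780) (nat_lit 512) (.ev (nat_lit
 1828) (nat_lit 32) (.ev (nat_lit 1837) (nat_lit 4096) .dd)))))) (.br (nat_lit 5) (.ch (nat_lit 4) (.ev
 (nat_lit 1680) (nat_lit 48) (.ev (nat_lit 1780) (nat_lit 512) (.ev (nat_lit 1789) (nat_lit 4096) .dd)))) (.br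
 (nat_lit 6) (.ch (nat_lit 5) (.ev (nat_lit 1680) (nat_lit 512) (.nd (nat_lit 3984) (.br (nat_lit 5) (.ch
 (nat_lit 0) (.ev (nat_lit 4000) (nat_lit 16) (.fin (nat_lit 576419520608420487)))) (.ch (nat_lit 5) (.ev
 (nat_lit 4000) (nat_lit 4096) (.fin (nat_lit 576357948046393823)))))))) (.ch (nat_lit 6) (.ev (nat_lit 1680)
 (nat_lit 4624) (.ev (nat_lit 1693) (nat_lit 32) .dd))))))))) (.br (nat_lit 4) (.ch (nat_lit 3) (.ev (nat_lit
 928) (nat_lit 4128) (.ev (nat_lit 1140) (nat_lit 512) (.ev (nat_lit 1149) (nat_lit 16) .dd)))) (.br (nat_lit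
 5) (.ch (nat_lit 4) (.ev (nat_lit 928) (nat_lit 512) (.ev (nat_lit 1044) (nat_lit 4096) (.ev (nat_lit 1332)
 (nat_lit 16) (.ev (nat_lit 1341) (nat_lit 32) .dd))))) (.ch (nat_lit 5) (.ev (nat_lit 928) (nat_lit 16) (.ev
 (nat_lit 1060) (nat_lit 4096) (.ev (nat_lit 1204) (nat_lit 32) (.ev (nat_lit 1213) (nat_lit 512)
 .dd))))))))))))))))) (.ch (nat_lit 2) (.ev (nat_lit 144) (nat_lit 6160) (.nd (nat_lit 352) (.br (nat_lit 2)
 (.br (nat_lit 1) (.ch (nat_lit 0) (.ev (nat_lit 368) (nat_lit 32) (.nd (nat_lit 816) (.br (nat_lit 4) (.ch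
 (nat_lit 0) (.ev (nat_lit 1076) (nat_lit 64) (.ev (nat_lit 1085) (nat_lit 512) .dd))) (.ch (nat_lit 4) (.nd
 (nat_lit 2848) (.br (nat_lit 5) (.ch (nat_lit 4) (.fin (nat_lit 576430515773981276))) (.ch (nat_lit 5) (.ev
 (nat_lit 2884) (nat_lit 512) (.ev (nat_lit 2893) (nat_lit 64) .dd)))))))))) (.ch (nat_lit 1) (.ev (nat_lit
 368) (nat_lit 64) (.nd (nat_lit 720) (.br (nat_lit 3) (.br (nat_lit 2) (.ch (nat_lit 0) (.ev (nat_lit 736)
 (nat_lit 32) (.ev (nat_lit 749) (nat_lit 512) .dd))) (.ch (nat_lit 2) (.nd (nat_lit 2368) (.br (nat_lit 5)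
 (.br (nat_lit 4) (.ch (nat_lit 1) (.fin (nat_lit 576407425956397618))) (.ch (nat_lit 4) (.ev (nat_lit 2384)
 (nat_lit 512) (.ev (nat_lit 2397) (nat_lit 32) .dd)))) (.br (nat_lit 6) (.ch (nat_lit 5) (.ev (nat_lit 2404)
 (nat_lit 32) (.ev (nat_lit 2413) (nat_lit 512) .dd))) (.ch (nat_lit 6) (.ev (nat_lit 2384) (nat_lit 32) (.ev
 (nat_lit 2397) (nat_lit 512) .dd)))))))) (.br (nat_lit 4) (.ch (nat_lit 3) (.nd (nat_lit 2304) (.ch (nat_lit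
 5) (.fin (nat_lit 576487690322002488))))) (.br (nat_lit 5) (.ch (nat_lit 4) (.ev (nat_lit 736) (nat_lit 32)
 (.ev (nat_lit 749) (nat_lit 512) .dd))) (.ch (nat_lit 5) (.ev (nat_lit 736) (nat_lit 512) (.ev (nat_lit 749)
 (nat_lit 32) .dd)))))))))) (.br (nat_lit 3) (.ch (nat_lit 2) (.ev (nat_lit 368) (nat_lit 512) (.nd (nat_lit
 672) (.br (nat_lit 2) (.br (nat_lit 1) (.ch (nat_lit 0) (.ev (nat_lit 788) (nat_lit 64) (.ev (nat_lit 797)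
 (nat_lit 32) .dd))) (.ch (nat_lit 1) (.nd (nat_lit 1712) (.br (nat_lit 2) (.br (nat_lit 1) (.ch (nat_lit 0)
 (.ev (nat_lit 1728) (nat_lit 32) (.ev (nat_lit 1741) (nat_lit 64) .dd))) (.ch (nat_lit 1) (.ev (nat_lit 1728)
 (nat_lit 64) (.ev (nat_lit 1741) (nat_lit 32) .dd)))) (.br (nat_lit 3) (.ch (nat_lit 2) (.ev (nat_lit 1876)
 (nat_lit 32) (.ev (nat_lit 1885) (nat_lit 64) .dd))) (.ch (nat_lit 3) (.ev (nat_lit 1780) (nat_lit 64) (.ev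
 (nat_lit 1789) (nat_lit 32) .dd)))))))) (.br (nat_lit 4) (.ch (nat_lit 2) (.nd (nat_lit 2576) (.br (nat_lit 4)
 (.br (nat_lit 2) (.ch (nat_lit 0) (.fin (nat_lit 576445908887487033))) (.ch (nat_lit 2) (.ev (nat_lit 2592)
 (nat_lit 64) (.ev (nat_lit 2605) (nat_lit 32) .dd)))) (.br (nat_lit 6) (.ch (nat_lit 4) (.ev (nat_lit 2592)
 (nat_lit 32) (.ev (nat_lit 2605) (nat_lit 64) .dd))) (.ch (nat_lit 6) (.ev (nat_lit 2592) (nat_lit 64) (.ev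
 (nat_lit 2605) (nat_lit 32) .dd))))))) (.ch (nat_lit 4) (.ev (nat_lit 688) (nat_lit 64) (.ev (nat_lit 701)
 (nat_lit 32) .dd)))))))) (.br (nat_lit 6) (.ch (nat_lit 3) (.ev (nat_lit 368) (nat_lit 32) (.nd (nat_lit 1104)
 (.br (nat_lit 3) (.br (nat_lit 2) (.ch (nat_lit 0) (.ev (nat_lit 1140) (nat_lit 64) (.ev (nat_lit 1149)
 (nat_lit 512) .dd))) (.ch (nat_lit 2) (.ev (nat_lit 1140) (nat_lit 64) (.ev (nat_lit 1149) (nat_lit 512)
 .dd)))) (.br (nat_lit 4) (.ch (nat_lit 3) (.nd (nat_lit 3024) (.br (nat_lit 5) (.ch (nat_lit 0) (.fin (nat_lit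
 576462401437122823))) (.ch (nat_lit 5) (.fin (nat_lit 576415122760090309)))))) (.ch (nat_lit 4) (.ev (nat_lit
 1120) (nat_lit 64) (.ev (nat_lit 1133) (nat_lit 512) .dd)))))))) (.ch (nat_lit 6) (.ev (nat_lit 368) (nat_lit
 576) (.ev (nat_lit 381) (nat_lit 32) .dd)))))))))) (.br (nat_lit 4) (.ch (nat_lit 3) (.ev (nat_lit 144)
 (nat_lit 48) (.nd (nat_lit 448) (.br (nat_lit 3) (.br (nat_lit 2) (.ch (nat_lit 1) (.ev (nat_lit 464) (nat_lit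
 64) (.nd (nat_lit 1008) (.br (nat_lit 3) (.br (nat_lit 1) (.ch (nat_lit 0) (.ev (nat_lit 1044) (nat_lit 6144)
 (.ev (nat_lit 1053) (nat_lit 512) .dd))) (.ch (nat_lit 1) (.ev (nat_lit 1024) (nat_lit 512) (.fin (nat_lit
 576566855486357908))))) (.br (nat_lit 5) (.ch (nat_lit 3) (.ev (nat_lit 1024) (nat_lit 2048) (.nd (nat_lit
 2368) (.br (nat_lit 5) (.ch (nat_lit 2) (.fin (nat_lit 576564655923086265))) (.ch (nat_lit 5) (.ev (nat_lit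
 2404) (nat_lit 4096) (.ev (nat_lit 2413) (nat_lit 512) .dd))))))) (.ch (nat_lit 5) (.ev (nat_lit 1024)
 (nat_lit 4096) (.nd (nat_lit 2848) (.br (nat_lit 2) (.ch (nat_lit 0) (.ev (nat_lit 2884) (nat_lit 512) (.ev
 (nat_lit 2893) (nat_lit 2048) .dd))) (.ch (nat_lit 2) (.fin (nat_lit 576515178095919715)))))))))))) (.ch
 (nat_lit 2) (.ev (nat_lit 464) (nat_lit 6144) (.nd (nat_lit 1232) (.br (nat_lit 5) (.ch (nat_lit 0) (.ev
 (nat_lit 1268) (nat_lit 64) (.ev (nat_lit 1277) (nat_lit 512) .dd))) (.ch (nat_lit 5) (.nd (nat_lit 2496) (.br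
 (nat_lit 5) (.ch (nat_lit 1) (.fin (nat_lit 576423918657028667))) (.ch (nat_lit 5) (.ev (nat_lit 2548)
 (nat_lit 64) (.ev (nat_lit 2557) (nat_lit 512) .dd))))))))))) (.br (nat_lit 4) (.ch (nat_lit 3) (.ev (nat_lit
 464) (nat_lit 512) (.nd (nat_lit 912) (.br (nat_lit 5) (.br (nat_lit 3) (.ch (nat_lit 1) (.ev (nat_lit 928)
 (nat_lit 64) (.ev (nat_lit 1044) (nat_lit 4096) (.ev (nat_lit 1053) (nat_lit 2048) .dd)))) (.ch (nat_lit 3)
 (.ev (nat_lit 928) (nat_lit 4096) (.ev (nat_lit 1044) (nat_lit 2048) (.ev (nat_lit 1053) (nat_lit 64) .dd)))))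
 (.br (nat_lit 6) (.ch (nat_lit 5) (.ev (nat_lit 2128) (nat_lit 64) (.fin (nat_lit 576462401566097986)))) (.ch
 (nat_lit 6) (.ev (nat_lit 928) (nat_lit 2048) (.ev (nat_lit 1332) (nat_lit 4096) (.ev (nat_lit 1341) (nat_lit
 64) .dd))))))))) (.br (nat_lit 5) (.ch (nat_lit 4) (.nd (nat_lit 912) (.br (nat_lit 4) (.br (nat_lit 3) (.ch
 (nat_lit 0) (.ev (nat_lit 928) (nat_lit 64) (.ev (nat_lit 948) (nat_lit 2048) (.ev (nat_lit 1300) (nat_lit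
 512) (.ev (nat_lit 1309) (nat_lit 4096) .dd))))) (.ch (nat_lit 3) (.ev (nat_lit 928) (nat_lit 2048) (.nd
 (nat_lit 2304) (.br (nat_lit 5) (.ch (nat_lit 2) (.ev (nat_lit 2320) (nat_lit 4096) (.ev (nat_lit 2340)
 (nat_lit 64) (.ev (nat_lit 2349) (nat_lit 512) .dd)))) (.ch (nat_lit 5) (.nd (nat_lit 3696) (.br (nat_lit 6)
 (.ch (nat_lit 1) (.ev (nat_lit 3712) (nat_lit 512) (.fin (nat_lit 576654816484737693)))) (.ch (nat_lit 6) (.ev
 (nat_lit 3712) (nat_lit 64) (.fin (nat_lit 576429416195244634)))))))))))) (.br (nat_lit 5) (.ch (nat_lit 4)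
 (.ev (nat_lit 928) (nat_lit 512) (.nd (nat_lit 2496) (.br (nat_lit 6) (.ch (nat_lit 4) (.ev (nat_lit 2512)
 (nat_lit 2048) (.fin (nat_lit 576474496195052092)))) (.ch (nat_lit 6) (.ev (nat_lit 2548) (nat_lit 4096) (.nd
 (nat_lit 3840) (.ch (nat_lit 2) (.nd (nat_lit 4800) (.br (nat_lit 4) (.ch (nat_lit 2) (.fin (nat_lit
 576405226954113575))) (.br (nat_lit 5) (.ch (nat_lit 4) (.ev (nat_lit 4816) (nat_lit 64) (.ev (nat_lit 4829)
 (nat_lit 2048) .dd))) (.ch (nat_lit 5) (.ev (nat_lit 4836) (nat_lit 64) (.ev (nat_lit 4845) (nat_lit 2048)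
 .dd)))))))))))))) (.br (nat_lit 6) (.ch (nat_lit 5) (.ev (nat_lit 928) (nat_lit 64) (.ev (nat_lit 1924)
 (nat_lit 4096) (.nd (nat_lit 3296) (.br (nat_lit 6) (.ch (nat_lit 1) (.ev (nat_lit 3332) (nat_lit 512) (.ev
 (nat_lit 3341) (nat_lit 2048) .dd))) (.ch (nat_lit 6) (.fin (nat_lit 576553661420225200)))))))) (.ch (nat_lit
 6) (.ev (nat_lit 928) (nat_lit 6144) (.ev (nat_lit 1924) (nat_lit 64) (.ev (nat_lit 1933) (nat_lit 512)
 .dd))))))))) (.ch (nat_lit 5) (.ev (nat_lit 464) (nat_lit 4608) (.fin (nat_lit 576452505926844997))))))))))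
 (.br (nat_lit 6) (.ch (nat_lit 4) (.ev (nat_lit 144) (nat_lit 512) (.nd (nat_lit 400) (.br (nat_lit 4) (.br
 (nat_lit 3) (.ch (nat_lit 2) (.ev (nat_lit 416) (nat_lit 64) (.ev (nat_lit 436) (nat_lit 4096) (.nd (nat_lit
 1104) (.br (nat_lit 5) (.br (nat_lit 4) (.ch (nat_lit 3) (.nd (nat_lit 2928) (.br (nat_lit 2) (.ch (nat_lit 1)
 (.ev (nat_lit 2944) (nat_lit 16) (.ev (nat_lit 2964) (nat_lit 2048) (.ev (nat_lit 2973) (nat_lit 32) .dd))))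
 (.br (nat_lit 3) (.ch (nat_lit 2) (.ev (nat_lit 2944) (nat_lit 32) (.nd (nat_lit 4352) (.br (nat_lit 5) (.ch
 (nat_lit 3) (.fin (nat_lit 576458003501761026))) (.ch (nat_lit 5) (.ev (nat_lit 4368) (nat_lit 2048) (.ev
 (nat_lit 4381) (nat_lit 16) .dd))))))) (.ch (nat_lit 3) (.ev (nat_lit 2944) (nat_lit 32) (.ev (nat_lit 2964)
 (nat_lit 16) (.ev (nat_lit 2973) (nat_lit 2048) .dd)))))))) (.ch (nat_lit 4) (.ev (nat_lit 1120) (nat_lit 32)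
 (.ev (nat_lit 1140) (nat_lit 16) (.ev (nat_lit 1149) (nat_lit 2048) .dd))))) (.br (nat_lit 6) (.ch (nat_lit 5)
 (.ev (nat_lit 1120) (nat_lit 2064) (.ev (nat_lit 1133) (nat_lit 32) .dd))) (.ch (nat_lit 6) (.ev (nat_lit
 1120) (nat_lit 16) (.nd (nat_lit 2848) (.br (nat_lit 5) (.ch (nat_lit 2) (.ev (nat_lit 2864) (nat_lit 2048)
 (.ev (nat_lit 2877) (nat_lit 32) .dd))) (.ch (nat_lit 5) (.fin (nat_lit 576461302034547292))))))))))))) (.ch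
 (nat_lit 3) (.ev (nat_lit 416) (nat_lit 6144) (.nd (nat_lit 816) (.br (nat_lit 5) (.br (nat_lit 4) (.ch
 (nat_lit 2) (.ev (nat_lit 832) (nat_lit 64) (.ev (nat_lit 2548) (nat_lit 16) (.ev (nat_lit 2557) (nat_lit 32)
 .dd)))) (.ch (nat_lit 4) (.nd (nat_lit 1712) (.br (nat_lit 1) (.ch (nat_lit 0) (.ev (nat_lit 1728) (nat_lit
 32) (.ev (nat_lit 2692) (nat_lit 64) (.ev (nat_lit 2701) (nat_lit 16) .dd)))) (.br (nat_lit 2) (.ch (nat_lit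
 1) (.ev (nat_lit 1728) (nat_lit 16) (.fin (nat_lit 576454705023500887)))) (.ch (nat_lit 2) (.ev (nat_lit 1728)
 (nat_lit 64) (.ev (nat_lit 2016) (nat_lit 48) .dd)))))))) (.br (nat_lit 6) (.ch (nat_lit 5) (.ev (nat_lit 832)
 (nat_lit 64) (.nd (nat_lit 2576) (.br (nat_lit 5) (.ch (nat_lit 1) (.fin (nat_lit 576390933426684443))) (.br
 (nat_lit 6) (.ch (nat_lit 5) (.ev (nat_lit 2740) (nat_lit 16) (.ev (nat_lit 2749) (nat_lit 32) .dd))) (.ch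
 (nat_lit 6) (.ev (nat_lit 3108) (nat_lit 16) (.ev (nat_lit 3117) (nat_lit 32) .dd)))))))) (.ch (nat_lit 6)
 (.ev (nat_lit 832) (nat_lit 16) (.ev (nat_lit 1876) (nat_lit 32) (.ev (nat_lit 1885) (nat_lit 64)
 .dd)))))))))) (.br (nat_lit 5) (.ch (nat_lit 4) (.ev (nat_lit 416) (nat_lit 96) (.ev (nat_lit 436) (nat_lit
 2048) (.nd (nat_lit 1392) (.br (nat_lit 4) (.br (nat_lit 2) (.ch (nat_lit 0) (.ev (nat_lit 1408) (nat_lit
 4096) (.ev (nat_lit 1421) (nat_lit 16) .dd))) (.ch (nat_lit 2) (.ev (nat_lit 1428) (nat_lit 16) (.ev (nat_lit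
 1437) (nat_lit 4096) .dd)))) (.br (nat_lit 6) (.ch (nat_lit 4) (.ev (nat_lit 1408) (nat_lit 16) (.ev (nat_lit
 1421) (nat_lit 4096) .dd))) (.ch (nat_lit 6) (.fin (nat_lit 576398629880152638))))))))) (.br (nat_lit 6) (.ch
 (nat_lit 5) (.nd (nat_lit 816) (.br (nat_lit 2) (.br (nat_lit 1) (.ch (nat_lit 0) (.ev (nat_lit 832) (nat_lit
 32) (.ev (nat_lit 1744) (nat_lit 64) (.nd (nat_lit 2496) (.br (nat_lit 6) (.ch (nat_lit 2) (.ev (nat_lit 2512)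
 (nat_lit 2048) (.fin (nat_lit 576443709733159505)))) (.ch (nat_lit 6) (.ev (nat_lit 2512) (nat_lit 4096) (.fin
 (nat_lit 576364545048003107))))))))) (.ch (nat_lit 1) (.ev (nat_lit 832) (nat_lit 4112) (.nd (nat_lit 2368)
 (.br (nat_lit 1) (.ch (nat_lit 0) (.ev (nat_lit 2384) (nat_lit 64) (.ev (nat_lit 2404) (nat_lit 32) (.ev
 (nat_lit 2413) (nat_lit 2048) .dd)))) (.ch (nat_lit 1) (.nd (nat_lit 3664) (.br (nat_lit 2) (.ch (nat_lit 0)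
 (.ev (nat_lit 3680) (nat_lit 2048) (.fin (nat_lit 576508581089067586)))) (.ch (nat_lit 2) (.ev (nat_lit 3680)
 (nat_lit 32) (.fin (nat_lit 576762568110457305)))))))))))) (.br (nat_lit 3) (.ch (nat_lit 2) (.ev (nat_lit
 832) (nat_lit 64) (.ev (nat_lit 1876) (nat_lit 2048) (.ev (nat_lit 1972) (nat_lit 16) (.fin (nat_lit
 576483292301705769)))))) (.br (nat_lit 6) (.ch (nat_lit 3) (.ev (nat_lit 832) (nat_lit 2096) (.ev (nat_lit
 1332) (nat_lit 4096) (.ev (nat_lit 1341) (nat_lit 64) .dd)))) (.ch (nat_lit 6) (.ev (nat_lit 852) (nat_lit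
 6144) (.nd (nat_lit 1664) (.br (nat_lit 5) (.br (nat_lit 3) (.ch (nat_lit 1) (.ev (nat_lit 1680) (nat_lit 96)
 (.ev (nat_lit 1693) (nat_lit 16) .dd))) (.ch (nat_lit 3) (.ev (nat_lit 1680) (nat_lit 32) (.ev (nat_lit 1780)
 (nat_lit 64) (.ev (nat_lit 1789) (nat_lit 16) .dd))))) (.br (nat_lit 6) (.ch (nat_lit 5) (.ev (nat_lit 1680)
 (nat_lit 64) (.ev (nat_lit 1700) (nat_lit 32) (.ev (nat_lit 1709) (nat_lit 16) .dd)))) (.ch (nat_lit 6) (.nd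
 (nat_lit 3664) (.br (nat_lit 3) (.ch (nat_lit 0) (.ev (nat_lit 3680) (nat_lit 32) (.fin (nat_lit
 576470098156929602)))) (.ch (nat_lit 3) (.ev (nat_lit 3680) (nat_lit 16) (.fin (nat_lit
 576742777268159363))))))))))))))))) (.ch (nat_lit 6) (.ev (nat_lit 416) (nat_lit 4144) (.nd (nat_lit 1232)
 (.br (nat_lit 5) (.ch (nat_lit 4) (.ev (nat_lit 1632) (nat_lit 2112) .dd)) (.ch (nat_lit 5) (.fin (nat_lit
 576429416223556144))))))))))))) (.ch (nat_lit 6) (.ev (nat_lit 144) (nat_lit 576) (.nd (nat_lit 448) (.br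
 (nat_lit 3) (.br (nat_lit 2) (.ch (nat_lit 0) (.ev (nat_lit 464) (nat_lit 6176) (.ev (nat_lit 477) (nat_lit
 16) .dd))) (.ch (nat_lit 2) (.ev (nat_lit 464) (nat_lit 2048) (.nd (nat_lit 1104) (.br (nat_lit 5) (.br
 (nat_lit 2) (.ch (nat_lit 1) (.ev (nat_lit 1120) (nat_lit 32) (.ev (nat_lit 1300) (nat_lit 4096) (.ev (nat_lit
 1309) (nat_lit 16) .dd)))) (.ch (nat_lit 2) (.ev (nat_lit 1120) (nat_lit 16) (.fin (nat_lit
 576481093258527339))))) (.br (nat_lit 6) (.ch (nat_lit 5) (.ev (nat_lit 1120) (nat_lit 32) (.ev (nat_lit 1140)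
 (nat_lit 16) (.ev (nat_lit 1149) (nat_lit 4096) .dd)))) (.ch (nat_lit 6) (.ev (nat_lit 1268) (nat_lit 4096)
 (.ev (nat_lit 1972) (nat_lit 32) (.ev (nat_lit 1981) (nat_lit 16) .dd)))))))))) (.br (nat_lit 5) (.ch (nat_lit
 3) (.ev (nat_lit 532) (nat_lit 4096) (.nd (nat_lit 1232) (.br (nat_lit 3) (.br (nat_lit 2) (.ch (nat_lit 1)
 (.ev (nat_lit 1248) (nat_lit 2096) .dd)) (.ch (nat_lit 2) (.ev (nat_lit 1248) (nat_lit 32) (.fin (nat_lit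
 576484391837450886))))) (.br (nat_lit 5) (.ch (nat_lit 3) (.ev (nat_lit 1268) (nat_lit 2064) (.ev (nat_lit
 1277) (nat_lit 32) .dd))) (.br (nat_lit 6) (.ch (nat_lit 5) (.ev (nat_lit 1248) (nat_lit 48) (.ev (nat_lit
 1261) (nat_lit 2048) .dd))) (.ch (nat_lit 6) (.ev (nat_lit 1248) (nat_lit 2064) (.ev (nat_lit 1261) (nat_lit
 32) .dd))))))))) (.br (nat_lit 6) (.ch (nat_lit 5) (.ev (nat_lit 484) (nat_lit 2048) (.ev (nat_lit 532)
 (nat_lit 4096) (.nd (nat_lit 1008) (.br (nat_lit 2) (.br (nat_lit 1) (.ch (nat_lit 0) (.ev (nat_lit 1792)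
 (nat_lit 32) (.ev (nat_lit 1805) (nat_lit 16) .dd))) (.ch (nat_lit 1) (.ev (nat_lit 1024) (nat_lit 16) (.ev
 (nat_lit 1037) (nat_lit 32) .dd)))) (.br (nat_lit 3) (.ch (nat_lit 2) (.ev (nat_lit 1024) (nat_lit 32) (.ev
 (nat_lit 1037) (nat_lit 16) .dd))) (.ch (nat_lit 3) (.nd (nat_lit 2848) (.br (nat_lit 2) (.ch (nat_lit 1) (.ev
 (nat_lit 2884) (nat_lit 16) (.ev (nat_lit 2893) (nat_lit 32) .dd))) (.br (nat_lit 4) (.ch (nat_lit 2) (.ev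
 (nat_lit 2884) (nat_lit 16) (.ev (nat_lit 2893) (nat_lit 32) .dd))) (.ch (nat_lit 4) (.ev (nat_lit 2884)
 (nat_lit 16) (.ev (nat_lit 2893) (nat_lit 32) .dd))))))))))))) (.ch (nat_lit 6) (.ev (nat_lit 464) (nat_lit
 4112) (.nd (nat_lit 912) (.br (nat_lit 2) (.ch (nat_lit 1) (.fin (nat_lit 576489889386152543))) (.br (nat_lit
 4) (.ch (nat_lit 2) (.fin (nat_lit 576489889221526083))) (.ch (nat_lit 4) (.ev (nat_lit 1332) (nat_lit 2048)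
 (.ev (nat_lit 1341) (nat_lit 32) .dd))))))))))))))))))))) (.br (nat_lit 5) (.ch (nat_lit 3) (.ev (nat_lit 48)
 (nat_lit 4128) (.nd (nat_lit 160) (.br (nat_lit 4) (.br (nat_lit 2) (.ch (nat_lit 1) (.ev (nat_lit 176)
 (nat_lit 64) (.nd (nat_lit 592) (.br (nat_lit 3) (.br (nat_lit 1) (.ch (nat_lit 0) (.ev (nat_lit 608) (nat_lit
 2064) (.nd (nat_lit 1392) (.br (nat_lit 4) (.br (nat_lit 2) (.ch (nat_lit 1) (.ev (nat_lit 1408) (nat_lit 640)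
 (.ev (nat_lit 1421) (nat_lit 4) .dd))) (.ch (nat_lit 2) (.ev (nat_lit 1460) (nat_lit 128) (.nd (nat_lit 3632)
 (.ch (nat_lit 3) (.nd (nat_lit 4288) (.ch (nat_lit 4) (.nd (nat_lit 4928) (.br (nat_lit 4) (.ch (nat_lit 0)
 (.ev (nat_lit 4944) (nat_lit 4) (.ev (nat_lit 4957) (nat_lit 512) .dd))) (.ch (nat_lit 4) (.fin (nat_lit
 576393132402754121)))))))))))) (.br (nat_lit 5) (.ch (nat_lit 4) (.ev (nat_lit 1408) (nat_lit 512) (.ev
 (nat_lit 1428) (nat_lit 4) (.ev (nat_lit 1437) (nat_lit 128) .dd)))) (.ch (nat_lit 5) (.ev (nat_lit 1408)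
 (nat_lit 4) (.nd (nat_lit 3344) (.br (nat_lit 3) (.ch (nat_lit 1) (.fin (nat_lit 576462401571340866))) (.ch
 (nat_lit 3) (.ev (nat_lit 3360) (nat_lit 512) (.ev (nat_lit 3373) (nat_lit 128) .dd)))))))))))) (.ch (nat_lit
 1) (.ev (nat_lit 608) (nat_lit 128) (.nd (nat_lit 1232) (.br (nat_lit 3) (.br (nat_lit 2) (.ch (nat_lit 0)
 (.ev (nat_lit 1248) (nat_lit 16) (.ev (nat_lit 1380) (nat_lit 512) (.ev (nat_lit 1972) (nat_lit 2048) (.ev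
 (nat_lit 1981) (nat_lit 4) .dd))))) (.ch (nat_lit 2) (.ev (nat_lit 1268) (nat_lit 516) (.ev (nat_lit 1444)
 (nat_lit 16) (.ev (nat_lit 1453) (nat_lit 2048) .dd))))) (.br (nat_lit 5) (.ch (nat_lit 3) (.ev (nat_lit 1248)
 (nat_lit 516) (.fin (nat_lit 576487690328293993)))) (.br (nat_lit 6) (.ch (nat_lit 5) (.ev (nat_lit 1248)
 (nat_lit 512) (.ev (nat_lit 1300) (nat_lit 2048) (.ev (nat_lit 2036) (nat_lit 16) (.ev (nat_lit 2045) (nat_lit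
 4) .dd))))) (.ch (nat_lit 6) (.ev (nat_lit 1248) (nat_lit 2048) (.ev (nat_lit 1460) (nat_lit 16) (.nd (nat_lit
 1712) (.br (nat_lit 3) (.br (nat_lit 2) (.ch (nat_lit 1) (.ev (nat_lit 2148) (nat_lit 4) (.ev (nat_lit 2157)
 (nat_lit 512) .dd))) (.ch (nat_lit 2) (.ev (nat_lit 1728) (nat_lit 512) (.ev (nat_lit 1741) (nat_lit 4)
 .dd)))) (.br (nat_lit 4) (.ch (nat_lit 3) (.ev (nat_lit 2148) (nat_lit 4) (.ev (nat_lit 2157) (nat_lit 512)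
 .dd))) (.ch (nat_lit 4) (.ev (nat_lit 1728) (nat_lit 4) (.ev (nat_lit 1741) (nat_lit 512) .dd))))))))))))))))
 (.br (nat_lit 4) (.ch (nat_lit 3) (.ev (nat_lit 608) (nat_lit 644) (.nd (nat_lit 1536) (.br (nat_lit 2) (.ch
 (nat_lit 1) (.fin (nat_lit 576463501068288587))) (.br (nat_lit 4) (.ch (nat_lit 2) (.ev (nat_lit 2788)
 (nat_lit 16) (.ev (nat_lit 2797) (nat_lit 2048) .dd))) (.ch (nat_lit 4) (.ev (nat_lit 3076) (nat_lit 2048)
 (.ev (nat_lit 3085) (nat_lit 16) .dd)))))))) (.br (nat_lit 5) (.ch (nat_lit 4) (.ev (nat_lit 608) (nat_lit 4)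
 (.ev (nat_lit 628) (nat_lit 512) (.nd (nat_lit 1536) (.br (nat_lit 4) (.br (nat_lit 1) (.ch (nat_lit 0) (.ev
 (nat_lit 1572) (nat_lit 144) (.ev (nat_lit 1581) (nat_lit 2048) .dd))) (.ch (nat_lit 1) (.ev (nat_lit 1552)
 (nat_lit 2064) (.ev (nat_lit 1565) (nat_lit 128) .dd)))) (.br (nat_lit 5) (.ch (nat_lit 4) (.ev (nat_lit 1552)
 (nat_lit 128) (.nd (nat_lit 3552) (.ch (nat_lit 4) (.nd (nat_lit 4384) (.br (nat_lit 2) (.ch (nat_lit 1) (.ev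
 (nat_lit 4420) (nat_lit 16) (.ev (nat_lit 4429) (nat_lit 2048) .dd))) (.ch (nat_lit 2) (.fin (nat_lit
 576345853013738062))))))))) (.br (nat_lit 6) (.ch (nat_lit 5) (.ev (nat_lit 1552) (nat_lit 16) (.ev (nat_lit
 1572) (nat_lit 128) (.ev (nat_lit 1581) (nat_lit 2048) .dd)))) (.ch (nat_lit 6) (.ev (nat_lit 1552) (nat_lit
 128) (.ev (nat_lit 1572) (nat_lit 16) (.ev (nat_lit 1581) (nat_lit 2048) .dd))))))))))) (.ch (nat_lit 5) (.ev
 (nat_lit 608) (nat_lit 2048) (.nd (nat_lit 1232) (.br (nat_lit 4) (.br (nat_lit 1) (.ch (nat_lit 0) (.ev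
 (nat_lit 2276) (nat_lit 16) (.nd (nat_lit 3456) (.br (nat_lit 2) (.ch (nat_lit 1) (.ev (nat_lit 3472) (nat_lit
 512) (.ev (nat_lit 3492) (nat_lit 4) (.ev (nat_lit 3501) (nat_lit 128) .dd)))) (.br (nat_lit 4) (.ch (nat_lit
 2) (.ev (nat_lit 3472) (nat_lit 132) (.ev (nat_lit 3485) (nat_lit 512) .dd))) (.ch (nat_lit 4) (.nd (nat_lit
 4224) (.br (nat_lit 6) (.ch (nat_lit 1) (.ev (nat_lit 4240) (nat_lit 4) (.fin (nat_lit 576357947889107423))))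
 (.ch (nat_lit 6) (.ev (nat_lit 4240) (nat_lit 512) (.fin (nat_lit 576419520629392007)))))))))))) (.ch (nat_lit
 1) (.ev (nat_lit 1248) (nat_lit 20) (.ev (nat_lit 1268) (nat_lit 128) (.ev (nat_lit 1277) (nat_lit 512)
 .dd))))) (.br (nat_lit 5) (.ch (nat_lit 4) (.ev (nat_lit 1248) (nat_lit 512) (.ev (nat_lit 1268) (nat_lit 20)
 (.ev (nat_lit 1277) (nat_lit 128) .dd)))) (.br (nat_lit 6) (.ch (nat_lit 5) (.ev (nat_lit 1248) (nat_lit 16)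
 (.ev (nat_lit 1268) (nat_lit 4) (.ev (nat_lit 1332) (nat_lit 512) (.ev (nat_lit 1341) (nat_lit 128) .dd)))))
 (.ch (nat_lit 6) (.ev (nat_lit 1248) (nat_lit 132) (.ev (nat_lit 1268) (nat_lit 16) (.ev (nat_lit 1277)
 (nat_lit 512) .dd)))))))))))))))) (.ch (nat_lit 2) (.ev (nat_lit 176) (nat_lit 2064) (.nd (nat_lit 400) (.br
 (nat_lit 3) (.br (nat_lit 2) (.ch (nat_lit 1) (.ev (nat_lit 416) (nat_lit 196) (.ev (nat_lit 429) (nat_lit
 512) .dd))) (.ch (nat_lit 2) (.ev (nat_lit 416) (nat_lit 516) (.nd (nat_lit 1232) (.br (nat_lit 4) (.ch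
 (nat_lit 2) (.ev (nat_lit 1332) (nat_lit 64) (.ev (nat_lit 1341) (nat_lit 128) .dd))) (.br (nat_lit 5) (.ch
 (nat_lit 4) (.fin (nat_lit 576489889504641603))) (.ch (nat_lit 5) (.fin (nat_lit 576489889340015199)))))))))
 (.br (nat_lit 5) (.ch (nat_lit 3) (.ev (nat_lit 436) (nat_lit 64) (.ev (nat_lit 532) (nat_lit 4) (.nd (nat_lit
 1232) (.br (nat_lit 3) (.br (nat_lit 2) (.ch (nat_lit 1) (.nd (nat_lit 2976) (.br (nat_lit 2) (.ch (nat_lit 0)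
 (.ev (nat_lit 3012) (nat_lit 512) (.ev (nat_lit 3021) (nat_lit 128) .dd))) (.br (nat_lit 3) (.ch (nat_lit 2)
 (.ev (nat_lit 3012) (nat_lit 128) (.ev (nat_lit 3021) (nat_lit 512) .dd))) (.ch (nat_lit 3) (.ev (nat_lit
 3012) (nat_lit 128) (.ev (nat_lit 3021) (nat_lit 512) .dd))))))) (.ch (nat_lit 2) (.ev (nat_lit 1248) (nat_lit
 128) (.ev (nat_lit 1261) (nat_lit 512) .dd)))) (.br (nat_lit 4) (.ch (nat_lit 3) (.ev (nat_lit 1248) (nat_lit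
 512) (.ev (nat_lit 1261) (nat_lit 128) .dd))) (.ch (nat_lit 4) (.ev (nat_lit 1792) (nat_lit 128) (.ev (nat_lit
 1805) (nat_lit 512) .dd))))))))) (.br (nat_lit 6) (.ch (nat_lit 5) (.ev (nat_lit 532) (nat_lit 4) (.nd
 (nat_lit 1104) (.br (nat_lit 4) (.br (nat_lit 2) (.ch (nat_lit 1) (.ev (nat_lit 1120) (nat_lit 576) (.ev
 (nat_lit 1133) (nat_lit 128) .dd))) (.ch (nat_lit 2) (.ev (nat_lit 1120) (nat_lit 640) (.ev (nat_lit 1133)
 (nat_lit 64) .dd)))) (.br (nat_lit 5) (.ch (nat_lit 4) (.ev (nat_lit 1140) (nat_lit 576) (.ev (nat_lit 1149)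
 (nat_lit 128) .dd))) (.br (nat_lit 6) (.ch (nat_lit 5) (.ev (nat_lit 1120) (nat_lit 128) (.fin (nat_lit
 576484391772439174)))) (.ch (nat_lit 6) (.ev (nat_lit 1120) (nat_lit 704) .dd)))))))) (.ch (nat_lit 6) (.ev
 (nat_lit 416) (nat_lit 64) (.nd (nat_lit 1104) (.br (nat_lit 4) (.br (nat_lit 3) (.ch (nat_lit 0) (.ev
 (nat_lit 1120) (nat_lit 128) (.ev (nat_lit 1140) (nat_lit 512) (.ev (nat_lit 1149) (nat_lit 4) .dd)))) (.ch
 (nat_lit 3) (.ev (nat_lit 1120) (nat_lit 512) (.fin (nat_lit 576481093281596011))))) (.br (nat_lit 6) (.ch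
 (nat_lit 4) (.ev (nat_lit 1120) (nat_lit 128) (.ev (nat_lit 1300) (nat_lit 4) (.ev (nat_lit 1309) (nat_lit
 512) .dd)))) (.ch (nat_lit 6) (.ev (nat_lit 1268) (nat_lit 4) (.ev (nat_lit 1972) (nat_lit 128) (.ev (nat_lit
 1981) (nat_lit 512) .dd)))))))))))))))) (.br (nat_lit 5) (.ch (nat_lit 4) (.ev (nat_lit 176) (nat_lit 16) (.nd
 (nat_lit 352) (.br (nat_lit 2) (.br (nat_lit 1) (.ch (nat_lit 0) (.ev (nat_lit 368) (nat_lit 2176) (.ev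
 (nat_lit 388) (nat_lit 64) (.nd (nat_lit 816) (.br (nat_lit 4) (.br (nat_lit 2) (.ch (nat_lit 1) (.ev (nat_lit
 852) (nat_lit 512) (.ev (nat_lit 861) (nat_lit 4) .dd))) (.ch (nat_lit 2) (.fin (nat_lit
 576398629915804222)))) (.br (nat_lit 6) (.ch (nat_lit 4) (.ev (nat_lit 832) (nat_lit 512) (.ev (nat_lit 845)
 (nat_lit 4) .dd))) (.ch (nat_lit 6) (.ev (nat_lit 852) (nat_lit 4) (.ev (nat_lit 861) (nat_lit 512)
 .dd))))))))) (.ch (nat_lit 1) (.ev (nat_lit 368) (nat_lit 68) (.nd (nat_lit 1104) (.br (nat_lit 2) (.br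
 (nat_lit 1) (.ch (nat_lit 0) (.ev (nat_lit 1120) (nat_lit 512) (.ev (nat_lit 1876) (nat_lit 128) (.ev (nat_lit
 1885) (nat_lit 2048) .dd)))) (.ch (nat_lit 1) (.ev (nat_lit 1120) (nat_lit 2048) (.fin (nat_lit
 576390933206483483))))) (.br (nat_lit 4) (.ch (nat_lit 2) (.ev (nat_lit 2704) (nat_lit 512) (.fin (nat_lit
 576454704958489175)))) (.ch (nat_lit 4) (.ev (nat_lit 1120) (nat_lit 2048) (.ev (nat_lit 2548) (nat_lit 512)
 (.ev (nat_lit 2557) (nat_lit 128) .dd)))))))))) (.br (nat_lit 5) (.ch (nat_lit 2) (.ev (nat_lit 368) (nat_lit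
 2048) (.ev (nat_lit 388) (nat_lit 4) (.nd (nat_lit 912) (.br (nat_lit 5) (.br (nat_lit 1) (.ch (nat_lit 0)
 (.ev (nat_lit 928) (nat_lit 128) (.ev (nat_lit 948) (nat_lit 64) (.ev (nat_lit 957) (nat_lit 512) .dd)))) (.ch
 (nat_lit 1) (.nd (nat_lit 2576) (.br (nat_lit 1) (.ch (nat_lit 0) (.ev (nat_lit 2592) (nat_lit 128) (.ev
 (nat_lit 2612) (nat_lit 64) (.ev (nat_lit 2621) (nat_lit 512) .dd)))) (.br (nat_lit 2) (.ch (nat_lit 1) (.ev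
 (nat_lit 2592) (nat_lit 128) (.nd (nat_lit 3840) (.br (nat_lit 5) (.ch (nat_lit 0) (.fin (nat_lit
 576458003549995522))) (.ch (nat_lit 5) (.ev (nat_lit 3856) (nat_lit 64) (.ev (nat_lit 3869) (nat_lit 512)
 .dd))))))) (.ch (nat_lit 2) (.ev (nat_lit 2592) (nat_lit 512) (.ev (nat_lit 2612) (nat_lit 64) (.ev (nat_lit
 2621) (nat_lit 128) .dd))))))))) (.br (nat_lit 6) (.ch (nat_lit 5) (.ev (nat_lit 928) (nat_lit 512) (.nd
 (nat_lit 3216) (.br (nat_lit 6) (.ch (nat_lit 3) (.fin (nat_lit 576461302086976092))) (.ch (nat_lit 6) (.ev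
 (nat_lit 3232) (nat_lit 64) (.ev (nat_lit 3245) (nat_lit 128) .dd))))))) (.ch (nat_lit 6) (.ev (nat_lit 928)
 (nat_lit 576) (.ev (nat_lit 941) (nat_lit 128) .dd))))))))) (.br (nat_lit 6) (.ch (nat_lit 5) (.ev (nat_lit
 368) (nat_lit 644) (.nd (nat_lit 1232) (.br (nat_lit 6) (.ch (nat_lit 0) (.ev (nat_lit 1632) (nat_lit 2112)
 .dd)) (.ch (nat_lit 6) (.fin (nat_lit 576429416223556144))))))) (.ch (nat_lit 6) (.nd (nat_lit 720) (.br
 (nat_lit 2) (.br (nat_lit 1) (.ch (nat_lit 0) (.ev (nat_lit 736) (nat_lit 2048) (.nd (nat_lit 1664) (.br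
 (nat_lit 5) (.ch (nat_lit 4) (.ev (nat_lit 1680) (nat_lit 192) (.ev (nat_lit 1780) (nat_lit 4) (.ev (nat_lit
 1789) (nat_lit 512) .dd)))) (.br (nat_lit 6) (.ch (nat_lit 5) (.ev (nat_lit 1680) (nat_lit 132) (.ev (nat_lit
 1876) (nat_lit 64) (.ev (nat_lit 1885) (nat_lit 512) .dd)))) (.ch (nat_lit 6) (.ev (nat_lit 1680) (nat_lit
 576) (.fin (nat_lit 576483292284928553))))))))) (.ch (nat_lit 1) (.ev (nat_lit 736) (nat_lit 516) (.nd
 (nat_lit 2304) (.br (nat_lit 3) (.ch (nat_lit 2) (.nd (nat_lit 4224) (.br (nat_lit 3) (.ch (nat_lit 1) (.ev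
 (nat_lit 4240) (nat_lit 128) (.fin (nat_lit 576762568383087065)))) (.ch (nat_lit 3) (.ev (nat_lit 4240)
 (nat_lit 64) (.fin (nat_lit 576414023089078846))))))) (.ch (nat_lit 3) (.ev (nat_lit 2320) (nat_lit 2048) (.ev
 (nat_lit 2340) (nat_lit 64) (.ev (nat_lit 2349) (nat_lit 128) .dd))))))))) (.br (nat_lit 3) (.ch (nat_lit 2)
 (.ev (nat_lit 736) (nat_lit 128) (.nd (nat_lit 1664) (.br (nat_lit 2) (.ch (nat_lit 0) (.ev (nat_lit 1680)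
 (nat_lit 68) (.ev (nat_lit 1744) (nat_lit 2560) .dd))) (.br (nat_lit 6) (.ch (nat_lit 2) (.ev (nat_lit 1680)
 (nat_lit 2052) (.fin (nat_lit 576364545027031587)))) (.ch (nat_lit 6) (.ev (nat_lit 1680) (nat_lit 2112) (.fin
 (nat_lit 576443710016275025))))))))) (.br (nat_lit 6) (.ch (nat_lit 3) (.ev (nat_lit 756) (nat_lit 64) (.ev
 (nat_lit 852) (nat_lit 4) (.nd (nat_lit 1712) (.br (nat_lit 4) (.br (nat_lit 2) (.ch (nat_lit 0) (.ev (nat_lit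
 1728) (nat_lit 2048) (.ev (nat_lit 1780) (nat_lit 128) (.ev (nat_lit 1789) (nat_lit 512) .dd)))) (.ch (nat_lit
 2) (.ev (nat_lit 1728) (nat_lit 128) (.ev (nat_lit 1780) (nat_lit 2048) (.ev (nat_lit 1789) (nat_lit 512)
 .dd))))) (.br (nat_lit 6) (.ch (nat_lit 4) (.ev (nat_lit 1728) (nat_lit 2176) (.ev (nat_lit 1741) (nat_lit
 512) .dd))) (.ch (nat_lit 6) (.nd (nat_lit 4032) (.br (nat_lit 4) (.ch (nat_lit 1) (.ev (nat_lit 4048)
 (nat_lit 512) (.fin (nat_lit 576742776806785923)))) (.ch (nat_lit 4) (.ev (nat_lit 4048) (nat_lit 128) (.fin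
 (nat_lit 576470098150638146))))))))))))) (.ch (nat_lit 6) (.ev (nat_lit 736) (nat_lit 704) (.ev (nat_lit 1332)
 (nat_lit 4) (.ev (nat_lit 1341) (nat_lit 2048) .dd))))))))))))))) (.br (nat_lit 6) (.ch (nat_lit 5) (.ev
 (nat_lit 176) (nat_lit 640) (.nd (nat_lit 592) (.br (nat_lit 4) (.br (nat_lit 1) (.ch (nat_lit 0) (.ev
 (nat_lit 608) (nat_lit 68) (.nd (nat_lit 1536) (.br (nat_lit 3) (.ch (nat_lit 1) (.ev (nat_lit 1572) (nat_lit
 16) (.ev (nat_lit 1581) (nat_lit 2048) .dd))) (.ch (nat_lit 3) (.nd (nat_lit 3552) (.br (nat_lit 6) (.ch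
 (nat_lit 3) (.fin (nat_lit 576423918673805883))) (.ch (nat_lit 6) (.ev (nat_lit 3588) (nat_lit 16) (.ev
 (nat_lit 3597) (nat_lit 2048) .dd)))))))))) (.ch (nat_lit 1) (.ev (nat_lit 608) (nat_lit 2048) (.nd (nat_lit
 1104) (.br (nat_lit 5) (.br (nat_lit 3) (.ch (nat_lit 1) (.ev (nat_lit 1120) (nat_lit 4) (.nd (nat_lit 2928)
 (.br (nat_lit 6) (.ch (nat_lit 4) (.fin (nat_lit 576515178165125731))) (.ch (nat_lit 6) (.ev (nat_lit 2964)
 (nat_lit 16) (.ev (nat_lit 2973) (nat_lit 64) .dd))))))) (.ch (nat_lit 3) (.ev (nat_lit 1120) (nat_lit 64)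
 (.nd (nat_lit 3344) (.br (nat_lit 4) (.ch (nat_lit 0) (.fin (nat_lit 576564656384459705))) (.ch (nat_lit 4)
 (.ev (nat_lit 3380) (nat_lit 4) (.ev (nat_lit 3389) (nat_lit 16) .dd)))))))) (.br (nat_lit 6) (.ch (nat_lit 5)
 (.ev (nat_lit 1120) (nat_lit 16) (.fin (nat_lit 576566854867698068)))) (.ch (nat_lit 6) (.ev (nat_lit 1140)
 (nat_lit 20) (.ev (nat_lit 1149) (nat_lit 64) .dd))))))))) (.br (nat_lit 5) (.ch (nat_lit 4) (.ev (nat_lit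
 608) (nat_lit 20) (.fin (nat_lit 576470098112889403)))) (.br (nat_lit 6) (.ch (nat_lit 5) (.nd (nat_lit 1008)
 (.br (nat_lit 4) (.br (nat_lit 1) (.ch (nat_lit 0) (.ev (nat_lit 1024) (nat_lit 16) (.nd (nat_lit 2976) (.br
 (nat_lit 2) (.ch (nat_lit 0) (.ev (nat_lit 3012) (nat_lit 4) (.nd (nat_lit 4224) (.ch (nat_lit 0) (.nd
 (nat_lit 4512) (.br (nat_lit 3) (.ch (nat_lit 2) (.ev (nat_lit 4548) (nat_lit 64) (.ev (nat_lit 4557) (nat_lit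
 2048) .dd))) (.br (nat_lit 5) (.ch (nat_lit 3) (.ev (nat_lit 4528) (nat_lit 2048) (.ev (nat_lit 4541) (nat_lit
 64) .dd))) (.ch (nat_lit 5) (.fin (nat_lit 576405226981376551)))))))))) (.ch (nat_lit 2) (.ev (nat_lit 2992)
 (nat_lit 64) (.fin (nat_lit 576474496205537852)))))))) (.ch (nat_lit 1) (.ev (nat_lit 1024) (nat_lit 64) (.nd
 (nat_lit 3120) (.br (nat_lit 6) (.ch (nat_lit 2) (.ev (nat_lit 3136) (nat_lit 4) (.ev (nat_lit 3156) (nat_lit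
 16) (.ev (nat_lit 3165) (nat_lit 2048) .dd)))) (.ch (nat_lit 6) (.nd (nat_lit 3920) (.br (nat_lit 2) (.ch
 (nat_lit 0) (.ev (nat_lit 3936) (nat_lit 16) (.fin (nat_lit 576654815729762973)))) (.ch (nat_lit 2) (.ev
 (nat_lit 3936) (nat_lit 2048) (.fin (nat_lit 576429416251867738)))))))))))) (.br (nat_lit 5) (.ch (nat_lit 4)
 (.ev (nat_lit 1024) (nat_lit 2048) (.ev (nat_lit 1044) (nat_lit 64) (.ev (nat_lit 1300) (nat_lit 16) (.ev
 (nat_lit 1309) (nat_lit 4) .dd))))) (.br (nat_lit 6) (.ch (nat_lit 5) (.ev (nat_lit 1024) (nat_lit 68) (.ev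
 (nat_lit 1924) (nat_lit 2048) (.ev (nat_lit 1933) (nat_lit 16) .dd)))) (.ch (nat_lit 6) (.ev (nat_lit 1024)
 (nat_lit 2048) (.ev (nat_lit 1924) (nat_lit 4) (.nd (nat_lit 3216) (.br (nat_lit 6) (.ch (nat_lit 1) (.fin
 (nat_lit 576368943466758608))) (.ch (nat_lit 6) (.ev (nat_lit 3252) (nat_lit 16) (.ev (nat_lit 3261) (nat_lit
 64) .dd))))))))))))) (.ch (nat_lit 6) (.ev (nat_lit 608) (nat_lit 16) (.nd (nat_lit 1232) (.br (nat_lit 4)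
 (.br (nat_lit 3) (.ch (nat_lit 1) (.ev (nat_lit 1248) (nat_lit 2048) (.ev (nat_lit 1268) (nat_lit 4) (.ev
 (nat_lit 1277) (nat_lit 64) .dd)))) (.ch (nat_lit 3) (.ev (nat_lit 1248) (nat_lit 64) (.ev (nat_lit 1332)
 (nat_lit 4) (.ev (nat_lit 1341) (nat_lit 2048) .dd))))) (.br (nat_lit 6) (.ch (nat_lit 4) (.ev (nat_lit 2128)
 (nat_lit 2048) (.fin (nat_lit 576462401578680898)))) (.ch (nat_lit 6) (.ev (nat_lit 1248) (nat_lit 4) (.ev
 (nat_lit 1268) (nat_lit 64) (.ev (nat_lit 1277) (nat_lit 2048) .dd))))))))))))))) (.ch (nat_lit 6) (.ev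
 (nat_lit 176) (nat_lit 580) (.nd (nat_lit 672) (.br (nat_lit 4) (.br (nat_lit 1) (.ch (nat_lit 0) (.ev
 (nat_lit 688) (nat_lit 128) (.nd (nat_lit 1536) (.br (nat_lit 4) (.ch (nat_lit 0) (.nd (nat_lit 3552) (.br
 (nat_lit 4) (.ch (nat_lit 3) (.ev (nat_lit 3588) (nat_lit 16) (.ev (nat_lit 3597) (nat_lit 2048) .dd))) (.ch
 (nat_lit 4) (.fin (nat_lit 576430515696386652)))))) (.ch (nat_lit 4) (.ev (nat_lit 1572) (nat_lit 2048) (.ev
 (nat_lit 1581) (nat_lit 16) .dd))))))) (.ch (nat_lit 1) (.ev (nat_lit 688) (nat_lit 2064) (.ev (nat_lit 701)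
 (nat_lit 128) .dd)))) (.br (nat_lit 5) (.ch (nat_lit 4) (.ev (nat_lit 688) (nat_lit 128) (.nd (nat_lit 1536)
 (.br (nat_lit 5) (.br (nat_lit 2) (.ch (nat_lit 0) (.ev (nat_lit 1572) (nat_lit 16) (.ev (nat_lit 1581)
 (nat_lit 2048) .dd))) (.ch (nat_lit 2) (.ev (nat_lit 1572) (nat_lit 16) (.ev (nat_lit 1581) (nat_lit 2048)
 .dd)))) (.br (nat_lit 6) (.ch (nat_lit 5) (.ev (nat_lit 1552) (nat_lit 2048) (.ev (nat_lit 1565) (nat_lit 16)
 .dd))) (.ch (nat_lit 6) (.nd (nat_lit 3552) (.br (nat_lit 5) (.ch (nat_lit 0) (.fin (nat_lit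
 576415122384700101))) (.ch (nat_lit 5) (.fin (nat_lit 576462401707655431))))))))))) (.br (nat_lit 6) (.ch
 (nat_lit 5) (.ev (nat_lit 688) (nat_lit 16) (.nd (nat_lit 1536) (.br (nat_lit 5) (.br (nat_lit 3) (.ch
 (nat_lit 0) (.ev (nat_lit 1572) (nat_lit 2048) (.ev (nat_lit 1581) (nat_lit 128) .dd))) (.ch (nat_lit 3) (.ev
 (nat_lit 1552) (nat_lit 2048) (.ev (nat_lit 1565) (nat_lit 128) .dd)))) (.br (nat_lit 6) (.ch (nat_lit 5) (.nd
 (nat_lit 3600) (.br (nat_lit 4) (.br (nat_lit 2) (.ch (nat_lit 1) (.fin (nat_lit 576445908908458553))) (.ch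
 (nat_lit 2) (.ev (nat_lit 3616) (nat_lit 2048) (.ev (nat_lit 3629) (nat_lit 128) .dd)))) (.br (nat_lit 6) (.ch
 (nat_lit 4) (.ev (nat_lit 3616) (nat_lit 128) (.ev (nat_lit 3629) (nat_lit 2048) .dd))) (.ch (nat_lit 6) (.ev
 (nat_lit 3616) (nat_lit 2048) (.ev (nat_lit 3629) (nat_lit 128) .dd))))))) (.ch (nat_lit 6) (.ev (nat_lit
 1876) (nat_lit 128) (.ev (nat_lit 1885) (nat_lit 2048) .dd)))))))) (.ch (nat_lit 6) (.ev (nat_lit 688)
 (nat_lit 2048) (.nd (nat_lit 1536) (.br (nat_lit 2) (.br (nat_lit 1) (.ch (nat_lit 0) (.ev (nat_lit 1552)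
 (nat_lit 16) (.ev (nat_lit 1565) (nat_lit 128) .dd))) (.ch (nat_lit 1) (.ev (nat_lit 1552) (nat_lit 128) (.ev
 (nat_lit 1565) (nat_lit 16) .dd)))) (.br (nat_lit 3) (.ch (nat_lit 2) (.fin (nat_lit 576434913763869256)))
 (.br (nat_lit 5) (.ch (nat_lit 3) (.nd (nat_lit 3504) (.br (nat_lit 2) (.ch (nat_lit 0) (.ev (nat_lit 3520)
 (nat_lit 128) (.ev (nat_lit 3533) (nat_lit 16) .dd))) (.br (nat_lit 5) (.ch (nat_lit 2) (.ev (nat_lit 3520)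
 (nat_lit 16) (.ev (nat_lit 3533) (nat_lit 128) .dd))) (.ch (nat_lit 5) (.fin (nat_lit
 576515178095919694))))))) (.ch (nat_lit 5) (.ev (nat_lit 1552) (nat_lit 128) (.ev (nat_lit 1565) (nat_lit 16)
 .dd))))))))))))))))))))) (.br (nat_lit 6) (.ch (nat_lit 5) (.ev (nat_lit 48) (nat_lit 2096) (.nd (nat_lit 256)
 (.br (nat_lit 4) (.br (nat_lit 1) (.ch (nat_lit 0) (.ev (nat_lit 272) (nat_lit 4096) (.nd (nat_lit 448) (.br
 (nat_lit 2) (.br (nat_lit 1) (.ch (nat_lit 0) (.nd (nat_lit 1008) (.br (nat_lit 2) (.br (nat_lit 1) (.ch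
 (nat_lit 0) (.ev (nat_lit 1024) (nat_lit 64) (.nd (nat_lit 3024) (.br (nat_lit 3) (.ch (nat_lit 1) (.ev
 (nat_lit 3040) (nat_lit 4) (.fin (nat_lit 576345853013737929)))) (.br (nat_lit 6) (.ch (nat_lit 3) (.ev
 (nat_lit 3040) (nat_lit 128) (.fin (nat_lit 576329360507093377)))) (.ch (nat_lit 6) (.ev (nat_lit 3040)
 (nat_lit 512) (.nd (nat_lit 4128) (.br (nat_lit 5) (.ch (nat_lit 1) (.ev (nat_lit 4144) (nat_lit 128) (.ev
 (nat_lit 4157) (nat_lit 4) .dd))) (.ch (nat_lit 5) (.fin (nat_lit 576165533297623393)))))))))))) (.ch (nat_lit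
 1) (.ev (nat_lit 1024) (nat_lit 4) (.ev (nat_lit 1204) (nat_lit 512) (.ev (nat_lit 1444) (nat_lit 64) (.ev
 (nat_lit 1453) (nat_lit 128) .dd)))))) (.br (nat_lit 3) (.ch (nat_lit 2) (.ev (nat_lit 1024) (nat_lit 704)
 (.ev (nat_lit 1037) (nat_lit 4) .dd))) (.br (nat_lit 4) (.ch (nat_lit 3) (.ev (nat_lit 1024) (nat_lit 132)
 (.ev (nat_lit 1140) (nat_lit 64) (.ev (nat_lit 1149) (nat_lit 512) .dd)))) (.ch (nat_lit 4) (.ev (nat_lit
 1024) (nat_lit 132) (.fin (nat_lit 576453605444764231))))))))) (.ch (nat_lit 1) (.ev (nat_lit 464) (nat_lit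
 580) (.ev (nat_lit 477) (nat_lit 128) .dd)))) (.br (nat_lit 3) (.ch (nat_lit 2) (.ev (nat_lit 484) (nat_lit
 128) (.ev (nat_lit 532) (nat_lit 64) (.nd (nat_lit 720) (.br (nat_lit 2) (.br (nat_lit 1) (.ch (nat_lit 0)
 (.ev (nat_lit 736) (nat_lit 4) (.ev (nat_lit 749) (nat_lit 512) .dd))) (.ch (nat_lit 1) (.ev (nat_lit 756)
 (nat_lit 512) (.ev (nat_lit 765) (nat_lit 4) .dd)))) (.br (nat_lit 6) (.ch (nat_lit 2) (.ev (nat_lit 1300)
 (nat_lit 4) (.ev (nat_lit 1309) (nat_lit 512) .dd))) (.ch (nat_lit 6) (.nd (nat_lit 1664) (.br (nat_lit 1)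
 (.ch (nat_lit 0) (.ev (nat_lit 1828) (nat_lit 4) (.ev (nat_lit 1837) (nat_lit 512) .dd))) (.br (nat_lit 3)
 (.ch (nat_lit 1) (.ev (nat_lit 1680) (nat_lit 512) (.ev (nat_lit 1693) (nat_lit 4) .dd))) (.ch (nat_lit 3)
 (.ev (nat_lit 1780) (nat_lit 512) (.ev (nat_lit 1789) (nat_lit 4) .dd))))))))))))) (.br (nat_lit 6) (.ch
 (nat_lit 3) (.ev (nat_lit 464) (nat_lit 64) (.nd (nat_lit 816) (.br (nat_lit 3) (.br (nat_lit 2) (.ch (nat_lit
 0) (.ev (nat_lit 832) (nat_lit 4) (.nd (nat_lit 2928) (.br (nat_lit 5) (.ch (nat_lit 1) (.nd (nat_lit 4064)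
 (.br (nat_lit 6) (.ch (nat_lit 1) (.fin (nat_lit 576507481736823535))) (.ch (nat_lit 6) (.ev (nat_lit 4100)
 (nat_lit 128) (.ev (nat_lit 4109) (nat_lit 512) .dd)))))) (.ch (nat_lit 5) (.ev (nat_lit 2944) (nat_lit 512)
 (.ev (nat_lit 2957) (nat_lit 128) .dd))))))) (.ch (nat_lit 2) (.ev (nat_lit 1792) (nat_lit 128) (.nd (nat_lit
 2576) (.br (nat_lit 6) (.ch (nat_lit 3) (.ev (nat_lit 2592) (nat_lit 512) (.ev (nat_lit 2605) (nat_lit 4)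
 .dd))) (.ch (nat_lit 6) (.fin (nat_lit 576458003476595307)))))))) (.br (nat_lit 5) (.ch (nat_lit 3) (.nd
 (nat_lit 2368) (.br (nat_lit 1) (.ch (nat_lit 0) (.ev (nat_lit 2384) (nat_lit 512) (.fin (nat_lit
 576517377129661038)))) (.br (nat_lit 5) (.ch (nat_lit 1) (.ev (nat_lit 2404) (nat_lit 4) (.nd (nat_lit 4032)
 (.br (nat_lit 4) (.ch (nat_lit 2) (.ev (nat_lit 4048) (nat_lit 640) .dd)) (.ch (nat_lit 4) (.fin (nat_lit
 576465700116709960))))))) (.ch (nat_lit 5) (.ev (nat_lit 2384) (nat_lit 512) (.ev (nat_lit 2404) (nat_lit 4)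
 (.ev (nat_lit 2413) (nat_lit 128) .dd)))))))) (.ch (nat_lit 5) (.ev (nat_lit 832) (nat_lit 128) (.ev (nat_lit
 1364) (nat_lit 4) (.ev (nat_lit 1373) (nat_lit 512) .dd))))))))) (.ch (nat_lit 6) (.ev (nat_lit 464) (nat_lit
 640) (.nd (nat_lit 1008) (.br (nat_lit 4) (.ch (nat_lit 2) (.fin (nat_lit 576698796881691268))) (.br (nat_lit
 5) (.ch (nat_lit 4) (.nd (nat_lit 2848) (.br (nat_lit 6) (.ch (nat_lit 1) (.fin (nat_lit 576496486456967808)))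
 (.ch (nat_lit 6) (.ev (nat_lit 2884) (nat_lit 64) (.ev (nat_lit 2893) (nat_lit 4) .dd)))))) (.ch (nat_lit 5)
 (.ev (nat_lit 1044) (nat_lit 64) (.ev (nat_lit 1053) (nat_lit 4) .dd)))))))))))))) (.ch (nat_lit 1) (.ev
 (nat_lit 272) (nat_lit 516) (.nd (nat_lit 672) (.br (nat_lit 3) (.br (nat_lit 1) (.ch (nat_lit 0) (.ev
 (nat_lit 688) (nat_lit 4096) (.nd (nat_lit 1536) (.br (nat_lit 6) (.ch (nat_lit 1) (.fin (nat_lit
 576461302063907399))) (.ch (nat_lit 6) (.ev (nat_lit 1572) (nat_lit 64) (.ev (nat_lit 1581) (nat_lit 128)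
 .dd))))))) (.ch (nat_lit 1) (.ev (nat_lit 688) (nat_lit 4096) (.nd (nat_lit 1536) (.br (nat_lit 2) (.br
 (nat_lit 1) (.ch (nat_lit 0) (.ev (nat_lit 1572) (nat_lit 64) (.ev (nat_lit 1581) (nat_lit 128) .dd))) (.ch
 (nat_lit 1) (.nd (nat_lit 3456) (.br (nat_lit 5) (.ch (nat_lit 0) (.ev (nat_lit 3492) (nat_lit 64) (.ev
 (nat_lit 3501) (nat_lit 128) .dd))) (.ch (nat_lit 5) (.fin (nat_lit 576675707080884994))))))) (.br (nat_lit 5)
 (.ch (nat_lit 2) (.ev (nat_lit 1552) (nat_lit 64) (.ev (nat_lit 1565) (nat_lit 128) .dd))) (.ch (nat_lit 5)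
 (.nd (nat_lit 3456) (.br (nat_lit 4) (.br (nat_lit 2) (.ch (nat_lit 1) (.ev (nat_lit 3472) (nat_lit 128) (.ev
 (nat_lit 3485) (nat_lit 64) .dd))) (.ch (nat_lit 2) (.ev (nat_lit 3472) (nat_lit 64) (.ev (nat_lit 3485)
 (nat_lit 128) .dd)))) (.br (nat_lit 5) (.ch (nat_lit 4) (.fin (nat_lit 576375539995459955))) (.ch (nat_lit 5)
 (.ev (nat_lit 3492) (nat_lit 64) (.ev (nat_lit 3501) (nat_lit 128) .dd))))))))))))) (.br (nat_lit 5) (.ch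
 (nat_lit 3) (.nd (nat_lit 1536) (.br (nat_lit 3) (.br (nat_lit 2) (.ch (nat_lit 0) (.ev (nat_lit 1552)
 (nat_lit 4096) (.fin (nat_lit 576418421089452642)))) (.ch (nat_lit 2) (.ev (nat_lit 1552) (nat_lit 128) (.ev
 (nat_lit 1588) (nat_lit 64) (.ev (nat_lit 1597) (nat_lit 4096) .dd))))) (.br (nat_lit 4) (.ch (nat_lit 3) (.ev
 (nat_lit 1552) (nat_lit 128) (.ev (nat_lit 1572) (nat_lit 4096) (.ev (nat_lit 1581) (nat_lit 64) .dd)))) (.br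
 (nat_lit 6) (.ch (nat_lit 4) (.ev (nat_lit 1552) (nat_lit 64) (.ev (nat_lit 1572) (nat_lit 4096) (.ev (nat_lit
 1581) (nat_lit 128) .dd)))) (.ch (nat_lit 6) (.ev (nat_lit 1572) (nat_lit 192) (.ev (nat_lit 1581) (nat_lit
 4096) .dd)))))))) (.br (nat_lit 6) (.ch (nat_lit 5) (.ev (nat_lit 688) (nat_lit 192) (.ev (nat_lit 701)
 (nat_lit 4096) .dd))) (.ch (nat_lit 6) (.ev (nat_lit 688) (nat_lit 128) (.nd (nat_lit 1536) (.br (nat_lit 3)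
 (.br (nat_lit 1) (.ch (nat_lit 0) (.ev (nat_lit 1552) (nat_lit 64) (.ev (nat_lit 1565) (nat_lit 4096) .dd)))
 (.ch (nat_lit 1) (.ev (nat_lit 1552) (nat_lit 64) (.ev (nat_lit 1565) (nat_lit 4096) .dd)))) (.br (nat_lit 6)
 (.ch (nat_lit 3) (.ev (nat_lit 1620) (nat_lit 4096) (.ev (nat_lit 1629) (nat_lit 64) .dd))) (.ch (nat_lit 6)
 (.fin (nat_lit 576464600597742143))))))))))))))) (.br (nat_lit 5) (.ch (nat_lit 4) (.ev (nat_lit 272) (nat_lit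
 4160) (.nd (nat_lit 592) (.br (nat_lit 3) (.br (nat_lit 2) (.ch (nat_lit 1) (.ev (nat_lit 608) (nat_lit 512)
 (.nd (nat_lit 1392) (.br (nat_lit 3) (.br (nat_lit 2) (.ch (nat_lit 1) (.ev (nat_lit 1408) (nat_lit 4) (.ev
 (nat_lit 1421) (nat_lit 128) .dd))) (.ch (nat_lit 2) (.ev (nat_lit 3076) (nat_lit 4) (.ev (nat_lit 3085)
 (nat_lit 128) .dd)))) (.br (nat_lit 5) (.ch (nat_lit 3) (.fin (nat_lit 576470098169512521))) (.ch (nat_lit 5)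
 (.ev (nat_lit 2704) (nat_lit 4) (.ev (nat_lit 2717) (nat_lit 128) .dd)))))))) (.ch (nat_lit 2) (.ev (nat_lit
 608) (nat_lit 644) .dd))) (.br (nat_lit 4) (.ch (nat_lit 3) (.nd (nat_lit 1392) (.br (nat_lit 4) (.br (nat_lit
 3) (.ch (nat_lit 1) (.ev (nat_lit 1408) (nat_lit 128) (.nd (nat_lit 3216) (.br (nat_lit 1) (.ch (nat_lit 0)
 (.nd (nat_lit 3920) (.br (nat_lit 1) (.ch (nat_lit 0) (.ev (nat_lit 3936) (nat_lit 512) (.ev (nat_lit 3949)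
 (nat_lit 4) .dd))) (.ch (nat_lit 1) (.fin (nat_lit 576490989127418682)))))) (.ch (nat_lit 1) (.ev (nat_lit
 3232) (nat_lit 4) (.ev (nat_lit 3245) (nat_lit 512) .dd))))))) (.ch (nat_lit 3) (.ev (nat_lit 1428) (nat_lit
 132) (.ev (nat_lit 1437) (nat_lit 512) .dd)))) (.br (nat_lit 6) (.ch (nat_lit 4) (.ev (nat_lit 1408) (nat_lit
 4) (.ev (nat_lit 1428) (nat_lit 128) (.ev (nat_lit 1437) (nat_lit 512) .dd)))) (.ch (nat_lit 6) (.ev (nat_lit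
 1408) (nat_lit 4) (.nd (nat_lit 3344) (.ch (nat_lit 5) (.nd (nat_lit 3984) (.br (nat_lit 3) (.ch (nat_lit 1)
 (.ev (nat_lit 4020) (nat_lit 128) (.ev (nat_lit 4029) (nat_lit 512) .dd))) (.ch (nat_lit 3) (.fin (nat_lit
 576460202904601150))))))))))))) (.br (nat_lit 6) (.ch (nat_lit 4) (.nd (nat_lit 1232) (.br (nat_lit 2) (.br
 (nat_lit 1) (.ch (nat_lit 0) (.ev (nat_lit 1248) (nat_lit 132) (.ev (nat_lit 1261) (nat_lit 512) .dd))) (.ch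
 (nat_lit 1) (.ev (nat_lit 1268) (nat_lit 512) (.ev (nat_lit 2740) (nat_lit 128) (.ev (nat_lit 2749) (nat_lit
 4) .dd))))) (.br (nat_lit 4) (.ch (nat_lit 2) (.ev (nat_lit 1652) (nat_lit 512) (.ev (nat_lit 1972) (nat_lit
 4) (.ev (nat_lit 1981) (nat_lit 128) .dd)))) (.br (nat_lit 6) (.ch (nat_lit 4) (.ev (nat_lit 1248) (nat_lit
 516) (.ev (nat_lit 1261) (nat_lit 128) .dd))) (.ch (nat_lit 6) (.ev (nat_lit 1248) (nat_lit 128) (.ev (nat_lit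
 1476) (nat_lit 4) (.ev (nat_lit 1485) (nat_lit 512) .dd))))))))) (.ch (nat_lit 6) (.ev (nat_lit 608) (nat_lit
 128) (.ev (nat_lit 628) (nat_lit 4) (.ev (nat_lit 637) (nat_lit 512) .dd)))))))))) (.br (nat_lit 6) (.ch
 (nat_lit 5) (.nd (nat_lit 448) (.br (nat_lit 4) (.br (nat_lit 3) (.ch (nat_lit 0) (.nd (nat_lit 1008) (.br
 (nat_lit 3) (.br (nat_lit 2) (.ch (nat_lit 1) (.ev (nat_lit 1044) (nat_lit 516) (.nd (nat_lit 2928) (.br
 (nat_lit 3) (.ch (nat_lit 2) (.ev (nat_lit 2944) (nat_lit 4160) (.ev (nat_lit 2957) (nat_lit 128) .dd))) (.br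
 (nat_lit 5) (.ch (nat_lit 3) (.ev (nat_lit 2944) (nat_lit 64) (.nd (nat_lit 4128) (.ch (nat_lit 4) (.nd
 (nat_lit 5152) (.br (nat_lit 4) (.ch (nat_lit 0) (.ev (nat_lit 5168) (nat_lit 128) (.ev (nat_lit 5181)
 (nat_lit 4096) .dd))) (.ch (nat_lit 4) (.fin (nat_lit 576456904011104838))))))))) (.ch (nat_lit 5) (.ev
 (nat_lit 2944) (nat_lit 128) (.nd (nat_lit 3888) (.ch (nat_lit 5) (.nd (nat_lit 4752) (.br (nat_lit 5) (.ch
 (nat_lit 1) (.fin (nat_lit 576410724148396775))) (.br (nat_lit 6) (.ch (nat_lit 5) (.ev (nat_lit 4768)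
 (nat_lit 4096) (.ev (nat_lit 4781) (nat_lit 64) .dd))) (.ch (nat_lit 6) (.ev (nat_lit 4788) (nat_lit 64) (.ev
 (nat_lit 4797) (nat_lit 4096) .dd))))))))))))))) (.ch (nat_lit 2) (.ev (nat_lit 1024) (nat_lit 68) (.ev
 (nat_lit 1076) (nat_lit 4096) (.nd (nat_lit 3344) (.br (nat_lit 2) (.ch (nat_lit 1) (.fin (nat_lit
 576438212284072561))) (.ch (nat_lit 2) (.ev (nat_lit 3360) (nat_lit 128) (.ev (nat_lit 3373) (nat_lit 512)
 .dd))))))))) (.br (nat_lit 4) (.ch (nat_lit 3) (.ev (nat_lit 1024) (nat_lit 4608) (.ev (nat_lit 1044) (nat_lit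
 4) (.ev (nat_lit 2820) (nat_lit 64) (.ev (nat_lit 2829) (nat_lit 128) .dd))))) (.br (nat_lit 6) (.ch (nat_lit
 4) (.ev (nat_lit 1024) (nat_lit 4096) (.ev (nat_lit 1044) (nat_lit 4) (.ev (nat_lit 1172) (nat_lit 512) (.nd
 (nat_lit 2848) (.br (nat_lit 1) (.ch (nat_lit 0) (.fin (nat_lit 576418421156561443))) (.ch (nat_lit 1) (.ev
 (nat_lit 2864) (nat_lit 128) (.ev (nat_lit 2877) (nat_lit 64) .dd))))))))) (.ch (nat_lit 6) (.ev (nat_lit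
 1024) (nat_lit 704) (.fin (nat_lit 576472297136144959))))))))) (.ch (nat_lit 3) (.ev (nat_lit 464) (nat_lit
 644) (.nd (nat_lit 1392) (.br (nat_lit 3) (.ch (nat_lit 2) (.ev (nat_lit 1408) (nat_lit 64) (.ev (nat_lit
 1421) (nat_lit 4096) .dd))) (.br (nat_lit 5) (.ch (nat_lit 3) (.ev (nat_lit 1408) (nat_lit 64) (.ev (nat_lit
 1421) (nat_lit 4096) .dd))) (.ch (nat_lit 5) (.ev (nat_lit 1780) (nat_lit 4096) (.ev (nat_lit 1789) (nat_lit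
 64) .dd))))))))) (.br (nat_lit 5) (.ch (nat_lit 4) (.ev (nat_lit 464) (nat_lit 4096) (.nd (nat_lit 720) (.br
 (nat_lit 2) (.br (nat_lit 1) (.ch (nat_lit 0) (.ev (nat_lit 736) (nat_lit 132) (.ev (nat_lit 964) (nat_lit
 512) (.ev (nat_lit 973) (nat_lit 64) .dd)))) (.ch (nat_lit 1) (.ev (nat_lit 736) (nat_lit 512) (.ev (nat_lit
 1076) (nat_lit 4) (.nd (nat_lit 3216) (.br (nat_lit 4) (.ch (nat_lit 1) (.fin (nat_lit 576404127393202781)))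
 (.ch (nat_lit 4) (.ev (nat_lit 3232) (nat_lit 64) (.ev (nat_lit 3245) (nat_lit 128) .dd))))))))) (.br (nat_lit
 6) (.ch (nat_lit 2) (.ev (nat_lit 756) (nat_lit 64) (.ev (nat_lit 852) (nat_lit 512) (.ev (nat_lit 1780)
 (nat_lit 128) (.ev (nat_lit 1789) (nat_lit 4) .dd))))) (.ch (nat_lit 6) (.ev (nat_lit 736) (nat_lit 64) (.ev
 (nat_lit 1312) (nat_lit 4) (.fin (nat_lit 576443709796073925)))))))))) (.br (nat_lit 6) (.ch (nat_lit 5) (.ev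
 (nat_lit 464) (nat_lit 512) (.nd (nat_lit 1104) (.br (nat_lit 4) (.br (nat_lit 2) (.ch (nat_lit 0) (.ev
 (nat_lit 1120) (nat_lit 4096) (.ev (nat_lit 1924) (nat_lit 128) (.nd (nat_lit 2496) (.br (nat_lit 3) (.ch
 (nat_lit 2) (.ev (nat_lit 2512) (nat_lit 4) (.ev (nat_lit 2525) (nat_lit 64) .dd))) (.br (nat_lit 6) (.ch
 (nat_lit 3) (.fin (nat_lit 576483292296462952))) (.ch (nat_lit 6) (.ev (nat_lit 2512) (nat_lit 64) (.ev
 (nat_lit 2525) (nat_lit 4) .dd))))))))) (.ch (nat_lit 2) (.ev (nat_lit 1120) (nat_lit 132) (.ev (nat_lit 1140)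
 (nat_lit 64) (.ev (nat_lit 1149) (nat_lit 4096) .dd))))) (.br (nat_lit 5) (.ch (nat_lit 4) (.ev (nat_lit 1120)
 (nat_lit 64) (.ev (nat_lit 1364) (nat_lit 4096) (.ev (nat_lit 1924) (nat_lit 4) (.ev (nat_lit 1933) (nat_lit
 128) .dd))))) (.br (nat_lit 6) (.ch (nat_lit 5) (.ev (nat_lit 1120) (nat_lit 196) (.ev (nat_lit 1133) (nat_lit
 4096) .dd))) (.ch (nat_lit 6) (.ev (nat_lit 1120) (nat_lit 4100) (.ev (nat_lit 1188) (nat_lit 64) (.ev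
 (nat_lit 1197) (nat_lit 128) .dd)))))))))) (.ch (nat_lit 6) (.ev (nat_lit 464) (nat_lit 192) (.nd (nat_lit
 1104) (.br (nat_lit 4) (.br (nat_lit 1) (.ch (nat_lit 0) (.ev (nat_lit 1120) (nat_lit 516) (.ev (nat_lit 1133)
 (nat_lit 4096) .dd))) (.ch (nat_lit 1) (.ev (nat_lit 1120) (nat_lit 4096) (.ev (nat_lit 1140) (nat_lit 4) (.ev
 (nat_lit 1149) (nat_lit 512) .dd))))) (.br (nat_lit 5) (.ch (nat_lit 4) (.ev (nat_lit 1120) (nat_lit 4) (.ev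
 (nat_lit 1140) (nat_lit 512) (.ev (nat_lit 1149) (nat_lit 4096) .dd)))) (.br (nat_lit 6) (.ch (nat_lit 5) (.ev
 (nat_lit 1140) (nat_lit 4) (.ev (nat_lit 2048) (nat_lit 4096) (.ev (nat_lit 2061) (nat_lit 512) .dd)))) (.ch
 (nat_lit 6) (.nd (nat_lit 2368) (.br (nat_lit 5) (.ch (nat_lit 3) (.ev (nat_lit 2384) (nat_lit 4096) (.fin
 (nat_lit 576470098130715237)))) (.br (nat_lit 6) (.ch (nat_lit 5) (.ev (nat_lit 2384) (nat_lit 512) (.fin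
 (nat_lit 576149040894788243)))) (.ch (nat_lit 6) (.ev (nat_lit 2404) (nat_lit 512) (.nd (nat_lit 3728) (.br
 (nat_lit 5) (.ch (nat_lit 0) (.fin (nat_lit 576444809372713583))) (.ch (nat_lit 5) (.ev (nat_lit 3744)
 (nat_lit 4) (.ev (nat_lit 3757) (nat_lit 4096) .dd)))))))))))))))))))))) (.ch (nat_lit 6) (.ev (nat_lit 272)
 (nat_lit 196) (.nd (nat_lit 592) (.br (nat_lit 3) (.br (nat_lit 2) (.ch (nat_lit 0) (.ev (nat_lit 608)
 (nat_lit 4096) (.ev (nat_lit 621) (nat_lit 512) .dd))) (.ch (nat_lit 2) (.ev (nat_lit 608) (nat_lit 512) (.ev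
 (nat_lit 621) (nat_lit 4096) .dd)))) (.br (nat_lit 4) (.ch (nat_lit 3) (.ev (nat_lit 608) (nat_lit 4608) .dd))
 (.br (nat_lit 5) (.ch (nat_lit 4) (.nd (nat_lit 1232) (.br (nat_lit 4) (.br (nat_lit 3) (.ch (nat_lit 0) (.ev
 (nat_lit 2276) (nat_lit 4096) (.ev (nat_lit 2285) (nat_lit 512) .dd))) (.ch (nat_lit 3) (.ev (nat_lit 1248)
 (nat_lit 512) (.ev (nat_lit 1261) (nat_lit 4096) .dd)))) (.br (nat_lit 6) (.ch (nat_lit 4) (.ev (nat_lit 1248)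
 (nat_lit 4096) (.ev (nat_lit 1261) (nat_lit 512) .dd))) (.ch (nat_lit 6) (.ev (nat_lit 1268) (nat_lit 512)
 (.ev (nat_lit 1277) (nat_lit 4096) .dd))))))) (.ch (nat_lit 5) (.nd (nat_lit 1392) (.br (nat_lit 3) (.br
 (nat_lit 1) (.ch (nat_lit 0) (.ev (nat_lit 1428) (nat_lit 512) (.ev (nat_lit 1437) (nat_lit 4096) .dd))) (.ch
 (nat_lit 1) (.ev (nat_lit 1408) (nat_lit 512) (.ev (nat_lit 1421) (nat_lit 4096) .dd)))) (.br (nat_lit 5) (.ch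
 (nat_lit 3) (.ev (nat_lit 2656) (nat_lit 512) (.ev (nat_lit 2669) (nat_lit 4096) .dd))) (.br (nat_lit 6) (.ch
 (nat_lit 5) (.ev (nat_lit 1408) (nat_lit 4096) (.ev (nat_lit 1421) (nat_lit 512) .dd))) (.ch (nat_lit 6) (.nd
 (nat_lit 2848) (.br (nat_lit 5) (.ch (nat_lit 1) (.ev (nat_lit 2864) (nat_lit 4096) (.ev (nat_lit 2877)
 (nat_lit 512) .dd))) (.ch (nat_lit 5) (.fin (nat_lit 576434913814200883))))))))))))))))))))))) (.ch (nat_lit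
 6) (.ev (nat_lit 48) (nat_lit 2112) (.nd (nat_lit 288) (.br (nat_lit 2) (.br (nat_lit 1) (.ch (nat_lit 0) (.ev
 (nat_lit 304) (nat_lit 4144) (.nd (nat_lit 672) (.br (nat_lit 2) (.br (nat_lit 1) (.ch (nat_lit 0) (.nd
 (nat_lit 1536) (.br (nat_lit 5) (.br (nat_lit 1) (.ch (nat_lit 0) (.ev (nat_lit 1552) (nat_lit 512) (.nd
 (nat_lit 3392) (.br (nat_lit 3) (.ch (nat_lit 1) (.ev (nat_lit 3408) (nat_lit 4) (.ev (nat_lit 3421) (nat_lit
 128) .dd))) (.br (nat_lit 4) (.ch (nat_lit 3) (.ev (nat_lit 3428) (nat_lit 128) (.ev (nat_lit 3437) (nat_lit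
 4) .dd))) (.ch (nat_lit 4) (.fin (nat_lit 576302972198666745)))))))) (.ch (nat_lit 1) (.nd (nat_lit 3456) (.br
 (nat_lit 1) (.ch (nat_lit 0) (.ev (nat_lit 3472) (nat_lit 512) (.nd (nat_lit 4304) (.br (nat_lit 3) (.ch
 (nat_lit 0) (.fin (nat_lit 576556959898485262))) (.br (nat_lit 4) (.ch (nat_lit 3) (.ev (nat_lit 4320)
 (nat_lit 128) (.ev (nat_lit 4333) (nat_lit 4) .dd))) (.ch (nat_lit 4) (.ev (nat_lit 4320) (nat_lit 4) (.ev
 (nat_lit 4333) (nat_lit 128) .dd)))))))) (.ch (nat_lit 1) (.ev (nat_lit 3472) (nat_lit 4) (.fin (nat_lit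
 576453605513970226)))))))) (.br (nat_lit 6) (.ch (nat_lit 5) (.ev (nat_lit 1552) (nat_lit 516) (.ev (nat_lit
 1565) (nat_lit 128) .dd))) (.ch (nat_lit 6) (.ev (nat_lit 1552) (nat_lit 132) (.ev (nat_lit 1565) (nat_lit
 512) .dd))))))) (.ch (nat_lit 1) (.ev (nat_lit 688) (nat_lit 512) (.ev (nat_lit 708) (nat_lit 4) (.ev (nat_lit
 717) (nat_lit 128) .dd))))) (.br (nat_lit 3) (.ch (nat_lit 2) (.ev (nat_lit 688) (nat_lit 128) (.nd (nat_lit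
 1536) (.br (nat_lit 2) (.br (nat_lit 1) (.ch (nat_lit 0) (.ev (nat_lit 1552) (nat_lit 4) (.ev (nat_lit 1565)
 (nat_lit 512) .dd))) (.ch (nat_lit 1) (.ev (nat_lit 1572) (nat_lit 4) (.ev (nat_lit 1581) (nat_lit 512)
 .dd)))) (.br (nat_lit 4) (.ch (nat_lit 2) (.fin (nat_lit 576454704987849275))) (.ch (nat_lit 4) (.ev (nat_lit
 1572) (nat_lit 4) (.ev (nat_lit 1581) (nat_lit 512) .dd)))))))) (.br (nat_lit 5) (.ch (nat_lit 3) (.ev
 (nat_lit 708) (nat_lit 512) (.nd (nat_lit 1536) (.br (nat_lit 3) (.br (nat_lit 1) (.ch (nat_lit 0) (.nd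
 (nat_lit 3392) (.br (nat_lit 5) (.br (nat_lit 2) (.ch (nat_lit 1) (.fin (nat_lit 576411824070017538))) (.ch
 (nat_lit 2) (.ev (nat_lit 3408) (nat_lit 132) .dd))) (.br (nat_lit 6) (.ch (nat_lit 5) (.ev (nat_lit 3408)
 (nat_lit 128) (.ev (nat_lit 3421) (nat_lit 4) .dd))) (.ch (nat_lit 6) (.ev (nat_lit 3408) (nat_lit 128) (.ev
 (nat_lit 3421) (nat_lit 4) .dd))))))) (.ch (nat_lit 1) (.ev (nat_lit 1572) (nat_lit 128) (.ev (nat_lit 1581)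
 (nat_lit 4) .dd)))) (.br (nat_lit 5) (.ch (nat_lit 3) (.ev (nat_lit 1552) (nat_lit 128) (.ev (nat_lit 1565)
 (nat_lit 4) .dd))) (.br (nat_lit 6) (.ch (nat_lit 5) (.ev (nat_lit 1552) (nat_lit 4) (.ev (nat_lit 1565)
 (nat_lit 128) .dd))) (.ch (nat_lit 6) (.ev (nat_lit 1552) (nat_lit 132) .dd)))))))) (.ch (nat_lit 5) (.ev
 (nat_lit 688) (nat_lit 516) (.ev (nat_lit 701) (nat_lit 128) .dd))))))))) (.ch (nat_lit 1) (.ev (nat_lit 304)
 (nat_lit 4) (.nd (nat_lit 544) (.br (nat_lit 4) (.br (nat_lit 1) (.ch (nat_lit 0) (.ev (nat_lit 560) (nat_lit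
 16) (.ev (nat_lit 580) (nat_lit 4096) (.nd (nat_lit 1008) (.br (nat_lit 4) (.br (nat_lit 3) (.ch (nat_lit 2)
 (.ev (nat_lit 1024) (nat_lit 512) (.ev (nat_lit 1044) (nat_lit 128) (.ev (nat_lit 1053) (nat_lit 32) .dd))))
 (.ch (nat_lit 3) (.ev (nat_lit 2160) (nat_lit 32) (.ev (nat_lit 2340) (nat_lit 128) (.ev (nat_lit 2349)
 (nat_lit 512) .dd))))) (.br (nat_lit 5) (.ch (nat_lit 4) (.ev (nat_lit 1024) (nat_lit 32) (.fin (nat_lit
 576431614920704431)))) (.br (nat_lit 6) (.ch (nat_lit 5) (.ev (nat_lit 1024) (nat_lit 640) (.ev (nat_lit 1037)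
 (nat_lit 32) .dd))) (.ch (nat_lit 6) (.ev (nat_lit 1024) (nat_lit 32) (.fin (nat_lit
 576390933206483483))))))))))) (.ch (nat_lit 1) (.ev (nat_lit 560) (nat_lit 128) (.nd (nat_lit 1104) (.br
 (nat_lit 2) (.br (nat_lit 1) (.ch (nat_lit 0) (.ev (nat_lit 1120) (nat_lit 512) (.ev (nat_lit 2036) (nat_lit
 32) (.nd (nat_lit 3552) (.br (nat_lit 6) (.ch (nat_lit 0) (.ev (nat_lit 3568) (nat_lit 4096) (.ev (nat_lit
 3581) (nat_lit 16) .dd))) (.ch (nat_lit 6) (.fin (nat_lit 576434913807909420)))))))) (.ch (nat_lit 1) (.ev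
 (nat_lit 1120) (nat_lit 4128) (.ev (nat_lit 1140) (nat_lit 512) (.ev (nat_lit 1149) (nat_lit 16) .dd))))) (.br
 (nat_lit 4) (.ch (nat_lit 2) (.ev (nat_lit 1120) (nat_lit 16) (.ev (nat_lit 1332) (nat_lit 512) (.ev (nat_lit
 2084) (nat_lit 4096) (.ev (nat_lit 2093) (nat_lit 32) .dd))))) (.br (nat_lit 6) (.ch (nat_lit 4) (.ev (nat_lit
 1120) (nat_lit 4624) (.ev (nat_lit 1133) (nat_lit 32) .dd))) (.ch (nat_lit 6) (.ev (nat_lit 1140) (nat_lit 16)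
 (.nd (nat_lit 2304) (.br (nat_lit 3) (.br (nat_lit 1) (.ch (nat_lit 0) (.ev (nat_lit 2320) (nat_lit 544) (.ev
 (nat_lit 2333) (nat_lit 4096) .dd))) (.ch (nat_lit 1) (.ev (nat_lit 2340) (nat_lit 32) (.ev (nat_lit 2404)
 (nat_lit 512) (.ev (nat_lit 2413) (nat_lit 4096) .dd))))) (.br (nat_lit 5) (.ch (nat_lit 3) (.ev (nat_lit
 2320) (nat_lit 4608) (.ev (nat_lit 2333) (nat_lit 32) .dd))) (.ch (nat_lit 5) (.ev (nat_lit 2320) (nat_lit 32)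
 (.ev (nat_lit 2484) (nat_lit 512) (.ev (nat_lit 2493) (nat_lit 4096) .dd)))))))))))))))) (.br (nat_lit 5) (.ch
 (nat_lit 4) (.ev (nat_lit 560) (nat_lit 48) (.nd (nat_lit 1232) (.br (nat_lit 3) (.br (nat_lit 2) (.ch
 (nat_lit 0) (.ev (nat_lit 1248) (nat_lit 128) (.fin (nat_lit 576465700117758515)))) (.ch (nat_lit 2) (.ev
 (nat_lit 1248) (nat_lit 4096) (.nd (nat_lit 3120) (.ch (nat_lit 6) (.nd (nat_lit 4176) (.br (nat_lit 4) (.ch
 (nat_lit 0) (.fin (nat_lit 576329360477733291))) (.ch (nat_lit 4) (.ev (nat_lit 4212) (nat_lit 128) (.ev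
 (nat_lit 4221) (nat_lit 512) .dd)))))))))) (.br (nat_lit 5) (.ch (nat_lit 3) (.ev (nat_lit 1248) (nat_lit
 4096) (.fin (nat_lit 576430515696386568)))) (.ch (nat_lit 5) (.ev (nat_lit 1248) (nat_lit 512) (.nd (nat_lit
 3392) (.br (nat_lit 6) (.ch (nat_lit 4) (.fin (nat_lit 576466799653503499))) (.ch (nat_lit 6) (.ev (nat_lit
 3428) (nat_lit 128) (.ev (nat_lit 3437) (nat_lit 4096) .dd)))))))))))) (.br (nat_lit 6) (.ch (nat_lit 5) (.ev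
 (nat_lit 560) (nat_lit 640) (.nd (nat_lit 1232) (.br (nat_lit 5) (.br (nat_lit 1) (.ch (nat_lit 0) (.ev
 (nat_lit 1248) (nat_lit 32) (.ev (nat_lit 2452) (nat_lit 16) (.ev (nat_lit 2461) (nat_lit 4096) .dd)))) (.ch
 (nat_lit 1) (.ev (nat_lit 1268) (nat_lit 4096) (.fin (nat_lit 576398629865472553))))) (.br (nat_lit 6) (.ch
 (nat_lit 5) (.ev (nat_lit 1248) (nat_lit 16) (.ev (nat_lit 1268) (nat_lit 4096) (.ev (nat_lit 1277) (nat_lit
 32) .dd)))) (.ch (nat_lit 6) (.ev (nat_lit 1248) (nat_lit 16) (.ev (nat_lit 1268) (nat_lit 32) (.ev (nat_lit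
 1277) (nat_lit 4096) .dd))))))))) (.ch (nat_lit 6) (.ev (nat_lit 560) (nat_lit 4128) (.nd (nat_lit 1232) (.br
 (nat_lit 2) (.br (nat_lit 1) (.ch (nat_lit 0) (.nd (nat_lit 3216) (.br (nat_lit 3) (.ch (nat_lit 1) (.ev
 (nat_lit 3232) (nat_lit 128) (.ev (nat_lit 3252) (nat_lit 16) (.ev (nat_lit 3261) (nat_lit 512) .dd)))) (.br
 (nat_lit 6) (.ch (nat_lit 3) (.ev (nat_lit 3232) (nat_lit 512) (.fin (nat_lit 576368942701298268)))) (.ch
 (nat_lit 6) (.ev (nat_lit 3232) (nat_lit 16) (.ev (nat_lit 3252) (nat_lit 128) (.ev (nat_lit 3261) (nat_lit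
 512) .dd)))))))) (.ch (nat_lit 1) (.ev (nat_lit 1248) (nat_lit 512) (.nd (nat_lit 3504) (.br (nat_lit 3) (.ch
 (nat_lit 0) (.fin (nat_lit 576436013327925862))) (.br (nat_lit 6) (.ch (nat_lit 3) (.ev (nat_lit 3520)
 (nat_lit 16) (.ev (nat_lit 3533) (nat_lit 128) .dd))) (.ch (nat_lit 6) (.ev (nat_lit 3520) (nat_lit 128) (.ev
 (nat_lit 3533) (nat_lit 16) .dd))))))))) (.br (nat_lit 3) (.ch (nat_lit 2) (.ev (nat_lit 1248) (nat_lit 128)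
 (.ev (nat_lit 2820) (nat_lit 16) (.ev (nat_lit 2829) (nat_lit 512) .dd)))) (.br (nat_lit 5) (.ch (nat_lit 3)
 (.ev (nat_lit 1248) (nat_lit 16) (.ev (nat_lit 1268) (nat_lit 512) (.ev (nat_lit 1277) (nat_lit 128) .dd))))
 (.ch (nat_lit 5) (.ev (nat_lit 1248) (nat_lit 128) (.ev (nat_lit 2084) (nat_lit 512) (.ev (nat_lit 2093)
 (nat_lit 16) .dd))))))))))))))))) (.br (nat_lit 3) (.ch (nat_lit 2) (.ev (nat_lit 304) (nat_lit 528) (.nd
 (nat_lit 592) (.br (nat_lit 3) (.br (nat_lit 2) (.ch (nat_lit 0) (.ev (nat_lit 608) (nat_lit 160) (.ev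
 (nat_lit 628) (nat_lit 4) (.ev (nat_lit 637) (nat_lit 4096) .dd)))) (.ch (nat_lit 2) (.ev (nat_lit 628)
 (nat_lit 4) (.nd (nat_lit 1392) (.br (nat_lit 2) (.br (nat_lit 1) (.ch (nat_lit 0) (.ev (nat_lit 1408)
 (nat_lit 4096) (.ev (nat_lit 1428) (nat_lit 32) (.ev (nat_lit 1437) (nat_lit 128) .dd)))) (.ch (nat_lit 1)
 (.ev (nat_lit 1408) (nat_lit 128) (.nd (nat_lit 2928) (.br (nat_lit 5) (.br (nat_lit 3) (.ch (nat_lit 2) (.ev
 (nat_lit 2944) (nat_lit 4096) (.ev (nat_lit 2957) (nat_lit 32) .dd))) (.ch (nat_lit 3) (.fin (nat_lit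
 576509680533586500)))) (.br (nat_lit 6) (.ch (nat_lit 5) (.ev (nat_lit 2964) (nat_lit 32) (.ev (nat_lit 2973)
 (nat_lit 4096) .dd))) (.ch (nat_lit 6) (.ev (nat_lit 2944) (nat_lit 32) (.ev (nat_lit 2957) (nat_lit 4096)
 .dd))))))))) (.br (nat_lit 4) (.ch (nat_lit 2) (.ev (nat_lit 1408) (nat_lit 128) (.ev (nat_lit 1428) (nat_lit
 4096) (.ev (nat_lit 1437) (nat_lit 32) .dd)))) (.br (nat_lit 6) (.ch (nat_lit 4) (.ev (nat_lit 2912) (nat_lit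
 32) (.nd (nat_lit 3504) (.br (nat_lit 5) (.ch (nat_lit 3) (.ev (nat_lit 3540) (nat_lit 128) (.ev (nat_lit
 3549) (nat_lit 4096) .dd))) (.ch (nat_lit 5) (.fin (nat_lit 576500884862091968))))))) (.ch (nat_lit 6) (.ev
 (nat_lit 1408) (nat_lit 4128) (.ev (nat_lit 1421) (nat_lit 128) .dd)))))))))) (.br (nat_lit 4) (.ch (nat_lit
 3) (.ev (nat_lit 608) (nat_lit 4128) (.nd (nat_lit 1392) (.br (nat_lit 4) (.ch (nat_lit 0) (.nd (nat_lit 3456)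
 (.br (nat_lit 4) (.ch (nat_lit 2) (.ev (nat_lit 3472) (nat_lit 128) (.ev (nat_lit 3485) (nat_lit 4) .dd)))
 (.ch (nat_lit 4) (.nd (nat_lit 4304) (.br (nat_lit 3) (.ch (nat_lit 1) (.ev (nat_lit 4320) (nat_lit 128) (.ev
 (nat_lit 4333) (nat_lit 4) .dd))) (.ch (nat_lit 3) (.fin (nat_lit 576473396654064193))))))))) (.br (nat_lit 6)
 (.ch (nat_lit 4) (.ev (nat_lit 1408) (nat_lit 4) (.ev (nat_lit 1421) (nat_lit 128) .dd))) (.ch (nat_lit 6)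
 (.ev (nat_lit 1408) (nat_lit 128) (.ev (nat_lit 1421) (nat_lit 4) .dd)))))))) (.br (nat_lit 5) (.ch (nat_lit
 4) (.ev (nat_lit 608) (nat_lit 132) (.nd (nat_lit 1392) (.br (nat_lit 1) (.ch (nat_lit 0) (.nd (nat_lit 3456)
 (.br (nat_lit 6) (.ch (nat_lit 4) (.nd (nat_lit 4384) (.br (nat_lit 6) (.ch (nat_lit 1) (.ev (nat_lit 4400)
 (nat_lit 32) (.ev (nat_lit 4413) (nat_lit 4096) .dd))) (.ch (nat_lit 6) (.fin (nat_lit
 576473396723270209)))))) (.ch (nat_lit 6) (.ev (nat_lit 3472) (nat_lit 32) (.ev (nat_lit 3485) (nat_lit 4096)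
 .dd)))))) (.br (nat_lit 3) (.ch (nat_lit 1) (.ev (nat_lit 1408) (nat_lit 32) (.ev (nat_lit 1421) (nat_lit
 4096) .dd))) (.ch (nat_lit 3) (.ev (nat_lit 1408) (nat_lit 4096) (.ev (nat_lit 1421) (nat_lit 32) .dd))))))))
 (.ch (nat_lit 5) (.ev (nat_lit 628) (nat_lit 4096) (.nd (nat_lit 1104) (.br (nat_lit 3) (.br (nat_lit 1) (.ch
 (nat_lit 0) (.ev (nat_lit 1120) (nat_lit 4) (.ev (nat_lit 1140) (nat_lit 32) (.ev (nat_lit 1149) (nat_lit 128)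
 .dd)))) (.ch (nat_lit 1) (.ev (nat_lit 1120) (nat_lit 132) (.ev (nat_lit 1133) (nat_lit 32) .dd)))) (.br
 (nat_lit 5) (.ch (nat_lit 3) (.ev (nat_lit 2964) (nat_lit 128) (.nd (nat_lit 3392) (.br (nat_lit 4) (.ch
 (nat_lit 2) (.fin (nat_lit 576421720024891840))) (.ch (nat_lit 4) (.ev (nat_lit 3428) (nat_lit 4) (.ev
 (nat_lit 3437) (nat_lit 32) .dd))))))) (.br (nat_lit 6) (.ch (nat_lit 5) (.ev (nat_lit 1120) (nat_lit 32) (.ev
 (nat_lit 1140) (nat_lit 4) (.ev (nat_lit 1149) (nat_lit 128) .dd)))) (.ch (nat_lit 6) (.ev (nat_lit 1120)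
 (nat_lit 32) (.nd (nat_lit 3392) (.br (nat_lit 4) (.br (nat_lit 2) (.ch (nat_lit 1) (.ev (nat_lit 3408)
 (nat_lit 128) (.ev (nat_lit 3421) (nat_lit 4) .dd))) (.ch (nat_lit 2) (.ev (nat_lit 3428) (nat_lit 4) (.ev
 (nat_lit 3437) (nat_lit 128) .dd)))) (.br (nat_lit 5) (.ch (nat_lit 4) (.fin (nat_lit 576509680611181124)))
 (.ch (nat_lit 5) (.ev (nat_lit 3408) (nat_lit 4) (.ev (nat_lit 3421) (nat_lit 128) .dd))))))))))))))))))))
 (.br (nat_lit 4) (.ch (nat_lit 3) (.ev (nat_lit 304) (nat_lit 4096) (.nd (nat_lit 544) (.br (nat_lit 2) (.br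
 (nat_lit 1) (.ch (nat_lit 0) (.ev (nat_lit 560) (nat_lit 512) (.ev (nat_lit 580) (nat_lit 4) (.nd (nat_lit
 1232) (.br (nat_lit 2) (.br (nat_lit 1) (.ch (nat_lit 0) (.ev (nat_lit 1248) (nat_lit 128) (.fin (nat_lit
 576390933426684443)))) (.ch (nat_lit 1) (.ev (nat_lit 1248) (nat_lit 48) (.ev (nat_lit 1261) (nat_lit 128)
 .dd)))) (.br (nat_lit 3) (.ch (nat_lit 2) (.ev (nat_lit 1248) (nat_lit 128) (.fin (nat_lit
 576431615572918703)))) (.br (nat_lit 4) (.ch (nat_lit 3) (.ev (nat_lit 2160) (nat_lit 128) (.ev (nat_lit 2340)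
 (nat_lit 32) (.ev (nat_lit 2349) (nat_lit 16) .dd)))) (.ch (nat_lit 4) (.ev (nat_lit 1248) (nat_lit 16) (.ev
 (nat_lit 1268) (nat_lit 32) (.ev (nat_lit 1277) (nat_lit 128) .dd))))))))))) (.ch (nat_lit 1) (.ev (nat_lit
 560) (nat_lit 132) (.nd (nat_lit 912) (.br (nat_lit 3) (.br (nat_lit 2) (.ch (nat_lit 0) (.ev (nat_lit 928)
 (nat_lit 32) (.ev (nat_lit 2084) (nat_lit 16) (.ev (nat_lit 2093) (nat_lit 512) .dd)))) (.ch (nat_lit 2) (.ev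
 (nat_lit 928) (nat_lit 512) (.ev (nat_lit 948) (nat_lit 16) (.ev (nat_lit 957) (nat_lit 32) .dd))))) (.br
 (nat_lit 4) (.ch (nat_lit 3) (.ev (nat_lit 928) (nat_lit 32) (.ev (nat_lit 2820) (nat_lit 512) (.ev (nat_lit
 2829) (nat_lit 16) .dd)))) (.br (nat_lit 5) (.ch (nat_lit 4) (.ev (nat_lit 928) (nat_lit 16) (.nd (nat_lit
 2304) (.br (nat_lit 1) (.ch (nat_lit 0) (.fin (nat_lit 576436013258719846))) (.br (nat_lit 4) (.ch (nat_lit 1)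
 (.ev (nat_lit 2320) (nat_lit 32) (.ev (nat_lit 2333) (nat_lit 512) .dd))) (.ch (nat_lit 4) (.ev (nat_lit 2320)
 (nat_lit 512) (.ev (nat_lit 2333) (nat_lit 32) .dd)))))))) (.ch (nat_lit 5) (.nd (nat_lit 2576) (.br (nat_lit
 4) (.ch (nat_lit 1) (.ev (nat_lit 2592) (nat_lit 512) (.ev (nat_lit 2900) (nat_lit 32) (.ev (nat_lit 2909)
 (nat_lit 16) .dd)))) (.br (nat_lit 6) (.ch (nat_lit 4) (.ev (nat_lit 2592) (nat_lit 16) (.fin (nat_lit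
 576553660654764580)))) (.ch (nat_lit 6) (.ev (nat_lit 2592) (nat_lit 32) (.ev (nat_lit 2612) (nat_lit 512)
 (.ev (nat_lit 2621) (nat_lit 16) .dd))))))))))))))) (.br (nat_lit 3) (.ch (nat_lit 2) (.ev (nat_lit 560)
 (nat_lit 48) (.nd (nat_lit 1232) (.br (nat_lit 5) (.br (nat_lit 4) (.ch (nat_lit 0) (.ev (nat_lit 1248)
 (nat_lit 512) (.ev (nat_lit 1268) (nat_lit 4) (.ev (nat_lit 1277) (nat_lit 128) .dd)))) (.ch (nat_lit 4) (.ev
 (nat_lit 1248) (nat_lit 4) (.fin (nat_lit 576398629930484265))))) (.br (nat_lit 6) (.ch (nat_lit 5) (.ev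
 (nat_lit 1248) (nat_lit 128) (.ev (nat_lit 2452) (nat_lit 512) (.ev (nat_lit 2461) (nat_lit 4) .dd)))) (.ch
 (nat_lit 6) (.ev (nat_lit 1248) (nat_lit 512) (.ev (nat_lit 1268) (nat_lit 128) (.ev (nat_lit 1277) (nat_lit
 4) .dd))))))))) (.br (nat_lit 6) (.ch (nat_lit 3) (.ev (nat_lit 560) (nat_lit 640) (.nd (nat_lit 912) (.br
 (nat_lit 3) (.br (nat_lit 2) (.ch (nat_lit 0) (.ev (nat_lit 928) (nat_lit 16) (.nd (nat_lit 2496) (.br
 (nat_lit 2) (.ch (nat_lit 0) (.ev (nat_lit 2548) (nat_lit 4) (.ev (nat_lit 2557) (nat_lit 32) .dd))) (.ch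
 (nat_lit 2) (.fin (nat_lit 576455804537225845))))))) (.ch (nat_lit 2) (.ev (nat_lit 928) (nat_lit 4) (.fin
 (nat_lit 576430515773981192))))) (.br (nat_lit 5) (.ch (nat_lit 3) (.ev (nat_lit 928) (nat_lit 4) (.nd
 (nat_lit 3600) (.ch (nat_lit 0) (.nd (nat_lit 4128) (.br (nat_lit 3) (.ch (nat_lit 0) (.fin (nat_lit
 576329360853123499))) (.ch (nat_lit 3) (.ev (nat_lit 4164) (nat_lit 16) (.ev (nat_lit 4173) (nat_lit 32)
 .dd))))))))) (.ch (nat_lit 5) (.ev (nat_lit 928) (nat_lit 32) (.fin (nat_lit 576465700096786995))))))))) (.ch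
 (nat_lit 6) (.ev (nat_lit 560) (nat_lit 32) (.nd (nat_lit 1104) (.br (nat_lit 4) (.br (nat_lit 3) (.ch
 (nat_lit 1) (.ev (nat_lit 1120) (nat_lit 532) (.ev (nat_lit 1133) (nat_lit 128) .dd))) (.ch (nat_lit 3) (.ev
 (nat_lit 1120) (nat_lit 512) (.ev (nat_lit 1332) (nat_lit 16) (.ev (nat_lit 2084) (nat_lit 4) (.ev (nat_lit
 2093) (nat_lit 128) .dd)))))) (.br (nat_lit 5) (.ch (nat_lit 4) (.ev (nat_lit 1120) (nat_lit 132) (.ev
 (nat_lit 1140) (nat_lit 16) (.ev (nat_lit 1149) (nat_lit 512) .dd)))) (.br (nat_lit 6) (.ch (nat_lit 5) (.ev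
 (nat_lit 1120) (nat_lit 16) (.ev (nat_lit 2036) (nat_lit 128) (.nd (nat_lit 2576) (.br (nat_lit 2) (.ch
 (nat_lit 1) (.ev (nat_lit 2612) (nat_lit 4) (.ev (nat_lit 2621) (nat_lit 512) .dd))) (.ch (nat_lit 2) (.fin
 (nat_lit 576434913755480620)))))))) (.ch (nat_lit 6) (.ev (nat_lit 1140) (nat_lit 512) (.ev (nat_lit 2484)
 (nat_lit 16) (.ev (nat_lit 3284) (nat_lit 4) (.ev (nat_lit 3293) (nat_lit 128) .dd))))))))))))))))) (.ch
 (nat_lit 4) (.ev (nat_lit 304) (nat_lit 644) (.nd (nat_lit 592) (.br (nat_lit 4) (.br (nat_lit 2) (.ch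
 (nat_lit 0) (.nd (nat_lit 1392) (.br (nat_lit 2) (.br (nat_lit 1) (.ch (nat_lit 0) (.ev (nat_lit 1408)
 (nat_lit 16) (.nd (nat_lit 3120) (.br (nat_lit 5) (.ch (nat_lit 1) (.ev (nat_lit 3136) (nat_lit 4096) (.ev
 (nat_lit 3149) (nat_lit 32) .dd))) (.br (nat_lit 6) (.ch (nat_lit 5) (.fin (nat_lit 576619631547466375))) (.ch
 (nat_lit 6) (.ev (nat_lit 3204) (nat_lit 32) (.ev (nat_lit 3213) (nat_lit 4096) .dd)))))))) (.ch (nat_lit 1)
 (.ev (nat_lit 1408) (nat_lit 4128) (.ev (nat_lit 1421) (nat_lit 16) .dd)))) (.br (nat_lit 6) (.ch (nat_lit 2)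
 (.ev (nat_lit 1408) (nat_lit 4112) (.ev (nat_lit 1421) (nat_lit 32) .dd))) (.ch (nat_lit 6) (.nd (nat_lit
 3296) (.br (nat_lit 1) (.ch (nat_lit 0) (.ev (nat_lit 3312) (nat_lit 4096) (.fin (nat_lit
 576453605444764210)))) (.ch (nat_lit 1) (.ev (nat_lit 3312) (nat_lit 16) (.nd (nat_lit 3920) (.br (nat_lit 4)
 (.ch (nat_lit 1) (.fin (nat_lit 576556959246270990))) (.br (nat_lit 5) (.ch (nat_lit 4) (.ev (nat_lit 3936)
 (nat_lit 4096) (.ev (nat_lit 3949) (nat_lit 32) .dd))) (.ch (nat_lit 5) (.ev (nat_lit 3936) (nat_lit 32) (.ev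
 (nat_lit 3949) (nat_lit 4096) .dd))))))))))))))) (.ch (nat_lit 2) (.ev (nat_lit 608) (nat_lit 4112) (.ev
 (nat_lit 621) (nat_lit 32) .dd)))) (.br (nat_lit 5) (.ch (nat_lit 4) (.ev (nat_lit 628) (nat_lit 16) (.nd
 (nat_lit 1392) (.br (nat_lit 3) (.br (nat_lit 1) (.ch (nat_lit 0) (.ev (nat_lit 1408) (nat_lit 4128) .dd))
 (.ch (nat_lit 1) (.ev (nat_lit 1408) (nat_lit 4096) (.ev (nat_lit 1421) (nat_lit 32) .dd)))) (.br (nat_lit 5)
 (.ch (nat_lit 3) (.ev (nat_lit 1408) (nat_lit 32) (.ev (nat_lit 1421) (nat_lit 4096) .dd))) (.br (nat_lit 6)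
 (.ch (nat_lit 5) (.ev (nat_lit 1524) (nat_lit 32) (.ev (nat_lit 1533) (nat_lit 4096) .dd))) (.ch (nat_lit 6)
 (.nd (nat_lit 3504) (.br (nat_lit 5) (.br (nat_lit 3) (.ch (nat_lit 2) (.ev (nat_lit 3520) (nat_lit 4128)
 .dd)) (.ch (nat_lit 3) (.fin (nat_lit 576411824005005826)))) (.br (nat_lit 6) (.ch (nat_lit 5) (.ev (nat_lit
 3520) (nat_lit 32) (.ev (nat_lit 3533) (nat_lit 4096) .dd))) (.ch (nat_lit 6) (.ev (nat_lit 3520) (nat_lit 32)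
 (.ev (nat_lit 3533) (nat_lit 4096) .dd))))))))))))) (.br (nat_lit 6) (.ch (nat_lit 5) (.ev (nat_lit 608)
 (nat_lit 32) (.nd (nat_lit 1536) (.br (nat_lit 5) (.br (nat_lit 4) (.ch (nat_lit 2) (.ev (nat_lit 1572)
 (nat_lit 16) (.ev (nat_lit 1581) (nat_lit 4096) .dd))) (.ch (nat_lit 4) (.fin (nat_lit 576454704994140731))))
 (.br (nat_lit 6) (.ch (nat_lit 5) (.ev (nat_lit 1572) (nat_lit 16) (.ev (nat_lit 1581) (nat_lit 4096) .dd)))
 (.ch (nat_lit 6) (.ev (nat_lit 1552) (nat_lit 4096) (.ev (nat_lit 1565) (nat_lit 16) .dd)))))))) (.ch (nat_lit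
 6) (.ev (nat_lit 608) (nat_lit 16) (.ev (nat_lit 644) (nat_lit 4096) (.ev (nat_lit 653) (nat_lit 32)
 .dd)))))))))))))))))))))

/-- The trie. -/
noncomputable def T : Tr := .nd (nat_lit 1000000) (.br (nat_lit 1) (.ch (nat_lit 0) (.ev (nat_lit 0) (nat_lit 8191) .dd)) (.br (nat_lit 3) (.ch (nat_lit 1) T1) (.ch (nat_lit 3) T3)))

/-- The possible values. -/
noncomputable def oks : List ℕ := [4, 9, 43, 79, 116, 186, 274, 610, 660, 690, 2107, 2521, 2818, 3306, 3364, 6841, 8226, 8401, 10105, 20010, 32340, 38340, 115924, 229849, 293890, 336690, 403074]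

/-- The parameters. -/
noncomputable def S : Pr := ⟨fun i l e => lget mz (lget [] (lget [] tabs i) l) e, oks, [(nat_lit 0), (nat_lit
 0), (nat_lit 0), (nat_lit 0), (nat_lit 0), (nat_lit 0), (nat_lit 0), (nat_lit 0)], T, (nat_lit 8191), (nat_lit
 11), (nat_lit 13), [(nat_lit 1)], [(nat_lit 5764801)]⟩

/-- Nothing known. -/
noncomputable def cs0 : Cs := (.cons (nat_lit 7) (nat_lit 0) (nat_lit 1) .nil)

theorem part_1 : part S cs0 (nat_lit 1) = true := by decide +kernel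

theorem part_3 : part S cs0 (nat_lit 3) = true := by decide +kernel

/-- Data of a prime. -/
noncomputable def D0 : PD := ⟨(nat_lit 7), (nat_lit 8), (1562932, 1, 2), (1675540, 3089345, 738196), (234598, 3178145, 4361123)⟩

theorem D0_ok : D0.Ok := pdb_sound (s := 1) (C := ⟨⟨7, -2, -11, 7, 2, 4, 0, 3, -1⟩, (5, 2, 3)⟩) (by show Nat.Prime 7; norm_num) (by decide +kernel)

/-- Lines of the first type. -/
noncomputable def Cl0 : List C1 := [⟨⟨7, 2, -11, 7, -2, 4, 0, -3, -1⟩, (6, 1, 5)⟩,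
  ⟨⟨0, 0, 0, 0, 0, 0, 0, 0, 0⟩, (0, 0, 0)⟩,
  ⟨⟨0, 0, 0, 0, 0, 0, 0, 0, 0⟩, (0, 0, 0)⟩,
  ⟨⟨0, 0, 0, 0, 0, 0, 0, 0, 0⟩, (0, 0, 0)⟩,
  ⟨⟨0, 0, 0, 0, 0, 0, 0, 0, 0⟩, (0, 0, 0)⟩,
  ⟨⟨0, 0, 0, 0, 0, 0, 0, 0, 0⟩, (0, 0, 0)⟩,
  ⟨⟨0, 0, 0, 0, 0, 0, 0, 0, 0⟩, (0, 0, 0)⟩]

/-- Data of a prime. -/
noncomputable def Dm : PD := ⟨(nat_lit 13), (nat_lit 2), (118, 6, 3), (20, 53, 120), (3, 96, 144)⟩

theorem Dm_ok : Dm.Ok := pdb_sound (s := 2) (C := ⟨⟨3, 18, -4, -17, 2, 1, 2, -1, -7⟩, (3, 9, 2)⟩) (by show Nat.Prime 13; norm_num) (by decide +kernel)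

/-- Lines of the first type. -/
noncomputable def Clm : List C1 := [⟨⟨17, -2, -16, 3, 18, 1, -2, 1, -5⟩, (10, 1, 8)⟩,
  ⟨⟨3, -18, -4, -17, -2, 1, 2, 1, -7⟩, (5, 2, 12)⟩,
  ⟨⟨0, 0, 0, 0, 0, 0, 0, 0, 0⟩, (0, 0, 0)⟩,
  ⟨⟨17, 2, -16, 3, -18, 1, -2, -1, -5⟩, (8, 6, 9)⟩,
  ⟨⟨0, 0, 0, 0, 0, 0, 0, 0, 0⟩, (0, 0, 0)⟩,
  ⟨⟨0, 0, 0, 0, 0, 0, 0, 0, 0⟩, (0, 0, 0)⟩,
  ⟨⟨0, 0, 0, 0, 0, 0, 0, 0, 0⟩, (0, 0, 0)⟩,
  ⟨⟨0, 0, 0, 0, 0, 0, 0, 0, 0⟩, (0, 0, 0)⟩,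
  ⟨⟨0, 0, 0, 0, 0, 0, 0, 0, 0⟩, (0, 0, 0)⟩,
  ⟨⟨0, 0, 0, 0, 0, 0, 0, 0, 0⟩, (0, 0, 0)⟩,
  ⟨⟨0, 0, 0, 0, 0, 0, 0, 0, 0⟩, (0, 0, 0)⟩,
  ⟨⟨0, 0, 0, 0, 0, 0, 0, 0, 0⟩, (0, 0, 0)⟩,
  ⟨⟨0, 0, 0, 0, 0, 0, 0, 0, 0⟩, (0, 0, 0)⟩]

/-- Unit moves. -/
noncomputable def U : List Mv := [mz,
  mz,
  ⟨⟨1, 0, 0, 0, -1, 0, 0, 0, 1⟩, .nil, (nat_lit 0), (nat_lit 2), (nat_lit 1), (nat_lit 0), (0, 0, 0), [], 2⟩,
  mz,
  ⟨⟨-1, 0, 1, 0, 1, 0, 0, 0, 1⟩, .nil, (nat_lit 6), (nat_lit 0), (nat_lit 0), (nat_lit 1), (0, 0, 0), [], 1⟩,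
  ⟨⟨-1, 0, 1, 0, -1, 0, 0, 0, 1⟩, .nil, (nat_lit 0), (nat_lit 5), (nat_lit 1), (nat_lit 0), (0, 0, 0), [], 2⟩,
  ⟨⟨-1, 0, 1, 0, 1, 0, 0, 0, 1⟩, .nil, (nat_lit 6), (nat_lit 0), (nat_lit 0), (nat_lit 1), (0, 0, 0), [], 1⟩]

theorem v_ty : tyb Dm S.ty1 Clm = true := by decide +kernel

theorem v_ty0 : tyb D0 (S.tys.getD 0 0) Cl0 = true := by decide +kernel

theorem v_msc : mscb S D0 [] Dm (nat_lit 10) = true := by decide +kernel

theorem v_mv0 : mvsn (nat_lit 974251369) S D0 [] Dm (nat_lit 10) 0 D0 = true := by decide +kernel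

theorem v_mm : mmsn (nat_lit 974251369) S D0 [] Dm (nat_lit 10) = true := by decide +kernel

theorem v_un : unb S D0 (nat_lit 10) U = true := by decide +kernel

theorem v_ok : okb S.oks [(0, 0, 0), (0, 3, 0), (0, 0, 0), (0, 0, 0), (0, 0, 0), (0, 0, 0), (0, 0, 0), (0, 0,
 0), (0, 0, 0), (0, 0, 0), (24, 39, 1), (35, 36, 0), (0, 0, 0), (0, 0, 0), (0, 0, 0), (21, 80, 0), (0, 0, 0),
 (60, 69, 2), (12, 99, 4), (0, 0, 0), (0, 0, 0), (0, 0, 0), (0, 0, 0), (320, 357, 0), (0, 0, 0), (0, 0, 0), (0,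
 0, 0)] = true := by decide +kernel

theorem v_part : ∀ d < D0.p, (nat_lit 10).testBit d = true → part S (zc (D0 :: [])) d = true := by
  intro d hd h
  have h1 : ∀ d < 7, (nat_lit 10).testBit d = true → d = 1 ∨ d = 3 := by decide
  rcases h1 d hd h with rfl | rfl
  · exact part_1
  · exact part_3

theorem main (n : ℕ) (ho : Odd n) (hr : ¬ Rep n) (h0 : Split 7 n) (hm : Split 13 n) :
    n ∈ EE := by
  refine concln (W := nat_lit 974251369) (S := S) (P0 := D0) (Pl := []) (Pm := Dm) (cn := nat_lit 10) ?_ Dm_ok v_ty ?_ ?_ v_msc ?_ v_mm v_un v_part v_ok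
    n ho hr ?_ hm
  · simp only [List.forall_mem_cons]
    exact ⟨D0_ok, fun _ h => absurd h (by simp)⟩
  · exact all1 (φ := fun j P => ∃ L, tyb P (S.tys.getD j 0) L = true) ⟨_, v_ty0⟩
  · exact all1 (φ := fun j P => Nat.ble (S.pks.getD j 0) (Nat.pow P.p P.K) = true) (by decide +kernel)
  · exact all1 (φ := fun i P => mvsn (nat_lit 974251369) S D0 [] Dm (nat_lit 10) i P = true) v_mv0
  · simp only [List.forall_mem_cons]
    exact ⟨h0, fun _ h => absurd h (by simp)⟩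

end Pool.Agent.Work.MP_9954fe_nt.P7_13

namespace Pool.Agent.Work.MP_9954fe_nt.P7_71_47

/-- Dummy move. -/
noncomputable def mz : Mv := ⟨⟨0, 0, 0, 0, 0, 0, 0, 0, 0⟩, .nil, (nat_lit 0), (nat_lit 0), (nat_lit 0), (nat_lit 0), (0, 0, 0), [], 0⟩

/-- Moves. -/
noncomputable def t0_1 : List Mv := [
  ⟨⟨-3, 4, -5, 2, -5, -6, 4, 4, -5⟩, (.cons (nat_lit 193) (nat_lit 246) (nat_lit 334) (nat_lit 1) (.cons (nat_lit 968) (nat_lit 4586) (nat_lit 118) (nat_lit 1) .nil)), (nat_lit 38), (nat_lit 43), (nat_lit 29), (nat_lit 1), (3, 5, 3), [337, 510], 3⟩,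
  ⟨⟨-3, 4, -5, -2, 5, 6, 4, 4, -5⟩, (.cons (nat_lit 290) (nat_lit 128) (nat_lit 312) (nat_lit 1) (.cons (nat_lit 4394) (nat_lit 4680) (nat_lit 2332) (nat_lit 1) .nil)), (nat_lit 1), (nat_lit 13), (nat_lit 14), (nat_lit 1), (3, 2, 3), [142, 547], 2⟩,
  ⟨⟨7, 0, 0, 2, -5, -6, 4, 4, -5⟩, (.cons (nat_lit 178) (nat_lit 209) (nat_lit 341) (nat_lit 1) (.cons (nat_lit 2432) (nat_lit 1754) (nat_lit 1090) (nat_lit 1) .nil)), (nat_lit 9), (nat_lit 4), (nat_lit 29), (nat_lit 1), (0, 5, 3), [253, 2736], 3⟩,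
  ⟨⟨-3, 4, -5, 2, -5, -6, 4, 4, -5⟩, (.cons (nat_lit 193) (nat_lit 246) (nat_lit 334) (nat_lit 1) (.cons (nat_lit 968) (nat_lit 4586) (nat_lit 118) (nat_lit 1) .nil)), (nat_lit 38), (nat_lit 43), (nat_lit 29), (nat_lit 1), (3, 5, 3), [337, 510], 3⟩,
  ⟨⟨-3, 4, -5, 2, -5, -6, 4, 4, -5⟩, (.cons (nat_lit 193) (nat_lit 246) (nat_lit 334) (nat_lit 1) (.cons (nat_lit 968) (nat_lit 4586) (nat_lit 118) (nat_lit 1) .nil)), (nat_lit 38), (nat_lit 43), (nat_lit 29), (nat_lit 1), (3, 5, 3), [337, 510], 3⟩,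
  ⟨⟨-3, 4, -5, 2, -5, -6, 4, 4, -5⟩, (.cons (nat_lit 193) (nat_lit 246) (nat_lit 334) (nat_lit 1) (.cons (nat_lit 968) (nat_lit 4586) (nat_lit 118) (nat_lit 1) .nil)), (nat_lit 38), (nat_lit 43), (nat_lit 29), (nat_lit 1), (3, 5, 3), [337, 510], 3⟩,
  ⟨⟨7, 0, 0, 2, -5, -6, 4, 4, -5⟩, (.cons (nat_lit 178) (nat_lit 209) (nat_lit 341) (nat_lit 1) (.cons (nat_lit 2432) (nat_lit 1754) (nat_lit 1090) (nat_lit 1) .nil)), (nat_lit 9), (nat_lit 4), (nat_lit 29), (nat_lit 1), (0, 5, 3), [253, 2736], 3⟩]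

/-- Moves. -/
noncomputable def t0_3 : List Mv := [
  ⟨⟨1, 0, -9, 0, -7, 0, 6, 0, -5⟩, (.cons (nat_lit 146) (nat_lit 323) (nat_lit 145) (nat_lit 1) (.cons (nat_lit 4587) (nat_lit 4164) (nat_lit 491) (nat_lit 1) .nil)), (nat_lit 1), (nat_lit 33), (nat_lit 31), (nat_lit 1), (2, 0, 5), [41, 3447], 10⟩,
  ⟨⟨1, 0, -9, 0, -7, 0, 6, 0, -5⟩, (.cons (nat_lit 146) (nat_lit 323) (nat_lit 145) (nat_lit 1) (.cons (nat_lit 4587) (nat_lit 4164) (nat_lit 491) (nat_lit 1) .nil)), (nat_lit 1), (nat_lit 33), (nat_lit 31), (nat_lit 1), (2, 0, 5), [41, 3447], 10⟩,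
  ⟨⟨5, 0, 4, 0, 7, 0, 6, 0, -5⟩, (.cons (nat_lit 200) (nat_lit 19) (nat_lit 69) (nat_lit 1) (.cons (nat_lit 5040) (nat_lit 3349) (nat_lit 1157) (nat_lit 1) .nil)), (nat_lit 46), (nat_lit 3), (nat_lit 10), (nat_lit 1), (3, 0, 5), [82, 2978], 29⟩,
  ⟨⟨5, 0, 4, 0, -7, 0, 6, 0, -5⟩, (.cons (nat_lit 113) (nat_lit 83) (nat_lit 40) (nat_lit 1) (.cons (nat_lit 5040) (nat_lit 4098) (nat_lit 4709) (nat_lit 1) .nil)), (nat_lit 46), (nat_lit 14), (nat_lit 31), (nat_lit 1), (3, 0, 5), [223, 1296], 10⟩,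
  ⟨⟨1, 0, -9, 0, -7, 0, 6, 0, -5⟩, (.cons (nat_lit 146) (nat_lit 323) (nat_lit 145) (nat_lit 1) (.cons (nat_lit 4587) (nat_lit 4164) (nat_lit 491) (nat_lit 1) .nil)), (nat_lit 1), (nat_lit 33), (nat_lit 31), (nat_lit 1), (2, 0, 5), [41, 3447], 10⟩,
  ⟨⟨1, 0, -9, 0, 7, 0, 6, 0, -5⟩, (.cons (nat_lit 227) (nat_lit 317) (nat_lit 153) (nat_lit 1) (.cons (nat_lit 2972) (nat_lit 2713) (nat_lit 4505) (nat_lit 1) .nil)), (nat_lit 1), (nat_lit 44), (nat_lit 10), (nat_lit 1), (2, 0, 5), [89, 2037], 29⟩,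
  ⟨⟨1, 0, -9, 0, -7, 0, 6, 0, -5⟩, (.cons (nat_lit 146) (nat_lit 323) (nat_lit 145) (nat_lit 1) (.cons (nat_lit 4587) (nat_lit 4164) (nat_lit 491) (nat_lit 1) .nil)), (nat_lit 1), (nat_lit 33), (nat_lit 31), (nat_lit 1), (2, 0, 5), [41, 3447], 10⟩]

/-- Moves. -/
noncomputable def t1_1 : List Mv := [
  mz,
  ⟨⟨-75, 20, 43, -10, -21, -70, -12, 60, -13⟩, (.cons (nat_lit 28) (nat_lit 120) (nat_lit 53) (nat_lit 1)
 (.cons (nat_lit 2183) (nat_lit 3088) (nat_lit 4696) (nat_lit 1) .nil)), (nat_lit 8), (nat_lit 22), (nat_lit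
 5), (nat_lit 1), (51, 21, 11), [242, 1149], 4⟩,
  mz,
  ⟨⟨65, -24, -72, -4, 55, -48, -10, -40, -49⟩, (.cons (nat_lit 342) (nat_lit 218) (nat_lit 295) (nat_lit 1)
 (.cons (nat_lit 1440) (nat_lit 3833) (nat_lit 2184) (nat_lit 1) .nil)), (nat_lit 46), (nat_lit 44), (nat_lit
 0), (nat_lit 1), (37, 1, 38), [65, 1772], 24⟩,
  ⟨⟨-33, -20, -59, -64, 15, 62, -6, 48, -43⟩, (.cons (nat_lit 58) (nat_lit 289) (nat_lit 52) (nat_lit 1) (.cons
 (nat_lit 2146) (nat_lit 3402) (nat_lit 1800) (nat_lit 1) .nil)), (nat_lit 2), (nat_lit 17), (nat_lit 37),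
 (nat_lit 1), (45, 55, 34), [87, 3361], 39⟩,
  ⟨⟨27, -68, 16, 64, 15, -62, -6, -48, -43⟩, (.cons (nat_lit 199) (nat_lit 235) (nat_lit 200) (nat_lit 1)
 (.cons (nat_lit 3930) (nat_lit 94) (nat_lit 1419) (nat_lit 1) .nil)), (nat_lit 23), (nat_lit 22), (nat_lit 3),
 (nat_lit 1), (7, 35, 30), [230, 3431], 45⟩,
  mz,
  ⟨⟨-29, 72, 20, 56, 25, -68, -38, 16, -35⟩, (.cons (nat_lit 199) (nat_lit 299) (nat_lit 165) (nat_lit 1)
 (.cons (nat_lit 4898) (nat_lit 188) (nat_lit 3186) (nat_lit 1) .nil)), (nat_lit 4), (nat_lit 12), (nat_lit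
 35), (nat_lit 1), (33, 44, 31), [340, 768], 27⟩,
  ⟨⟨23, -72, 9, 64, 25, -12, 26, -32, -67⟩, (.cons (nat_lit 79) (nat_lit 25) (nat_lit 225) (nat_lit 1) (.cons
 (nat_lit 3301) (nat_lit 620) (nat_lit 2506) (nat_lit 1) .nil)), (nat_lit 35), (nat_lit 3), (nat_lit 3),
 (nat_lit 1), (60, 62, 3), [2, 2832], 34⟩,
  mz,
  mz,
  ⟨⟨33, -20, -92, 64, 15, -2, 6, 48, -49⟩, (.cons (nat_lit 5) (nat_lit 254) (nat_lit 326) (nat_lit 1) (.cons
 (nat_lit 3059) (nat_lit 1467) (nat_lit 959) (nat_lit 1) .nil)), (nat_lit 45), (nat_lit 17), (nat_lit 10),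
 (nat_lit 1), (67, 3, 38), [52, 2396], 39⟩,
  ⟨⟨-51, -52, -5, -44, 15, 82, -42, 24, -25⟩, (.cons (nat_lit 207) (nat_lit 202) (nat_lit 212) (nat_lit 1)
 (.cons (nat_lit 2262) (nat_lit 1156) (nat_lit 1950) (nat_lit 1) .nil)), (nat_lit 24), (nat_lit 15), (nat_lit
 5), (nat_lit 1), (61, 22, 21), [139, 1389], 45⟩,
  mz,
  mz,
  ⟨⟨-9, 76, -11, -44, -15, -38, 42, 24, -67⟩, (.cons (nat_lit 87) (nat_lit 121) (nat_lit 263) (nat_lit 1)
 (.cons (nat_lit 2322) (nat_lit 2751) (nat_lit 2508) (nat_lit 1) .nil)), (nat_lit 14), (nat_lit 16), (nat_lit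
 36), (nat_lit 1), (25, 67, 49), [89, 1098], 46⟩,
  ⟨⟨17, 24, -89, -36, -55, -12, 54, -24, -53⟩, (.cons (nat_lit 302) (nat_lit 17) (nat_lit 118) (nat_lit 1)
 (.cons (nat_lit 2888) (nat_lit 4686) (nat_lit 1661) (nat_lit 1) .nil)), (nat_lit 1), (nat_lit 25), (nat_lit
 20), (nat_lit 1), (7, 52, 64), [248, 2295], 38⟩,
  mz,
  ⟨⟨9, 56, -64, -56, -25, -12, 38, -16, -73⟩, (.cons (nat_lit 75) (nat_lit 64) (nat_lit 265) (nat_lit 1) (.cons
 (nat_lit 3600) (nat_lit 115) (nat_lit 2053) (nat_lit 1) .nil)), (nat_lit 19), (nat_lit 16), (nat_lit 18),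
 (nat_lit 1), (56, 46, 55), [50, 609], 17⟩,
  ⟨⟨-61, -48, 25, -44, 55, 32, -22, -8, -55⟩, (.cons (nat_lit 252) (nat_lit 30) (nat_lit 218) (nat_lit 1)
 (.cons (nat_lit 885) (nat_lit 3698) (nat_lit 1119) (nat_lit 1) .nil)), (nat_lit 22), (nat_lit 9), (nat_lit
 17), (nat_lit 1), (9, 3, 37), [138, 1484], 5⟩,
  mz,
  mz,
  ⟨⟨17, -24, 72, -36, 55, 48, 54, 24, -1⟩, (.cons (nat_lit 342) (nat_lit 297) (nat_lit 337) (nat_lit 1) (.cons
 (nat_lit 4330) (nat_lit 4166) (nat_lit 1804) (nat_lit 1) .nil)), (nat_lit 46), (nat_lit 25), (nat_lit 27),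
 (nat_lit 1), (28, 66, 43), [116, 44], 9⟩,
  ⟨⟨-61, 48, 25, 44, 55, -32, -22, 8, -55⟩, (.cons (nat_lit 78) (nat_lit 247) (nat_lit 1) (nat_lit 196) (.cons
 (nat_lit 3039) (nat_lit 4132) (nat_lit 952) (nat_lit 1) .nil)), (nat_lit 15), (nat_lit 41), (nat_lit 20),
 (nat_lit 1), (13, 43, 14), [152, 1355], 44⟩,
  ⟨⟨-39, 40, -41, 44, 55, -12, 22, -8, -77⟩, (.cons (nat_lit 196) (nat_lit 54) (nat_lit 321) (nat_lit 1) (.cons
 (nat_lit 2593) (nat_lit 4782) (nat_lit 1471) (nat_lit 1) .nil)), (nat_lit 22), (nat_lit 38), (nat_lit 30),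
 (nat_lit 1), (2, 56, 28), [166, 466], 5⟩,
  mz,
  ⟨⟨51, -4, 40, -10, 69, 20, 60, 12, -49⟩, (.cons (nat_lit 342) (nat_lit 215) (nat_lit 178) (nat_lit 1) (.cons
 (nat_lit 26) (nat_lit 2129) (nat_lit 1) (nat_lit 994) .nil)), (nat_lit 46), (nat_lit 37), (nat_lit 22),
 (nat_lit 1), (60, 30, 33), [338, 1490], 8⟩,
  mz,
  mz,
  ⟨⟨-13, -72, 36, 70, -11, -30, -4, -44, -49⟩, (.cons (nat_lit 38) (nat_lit 250) (nat_lit 249) (nat_lit 1)
 (.cons (nat_lit 1837) (nat_lit 1195) (nat_lit 1) (nat_lit 3195) .nil)), (nat_lit 23), (nat_lit 29), (nat_lit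
 38), (nat_lit 1), (29, 35, 69), [241, 4745], 46⟩,
  mz,
  ⟨⟨-11, 72, -25, 50, -11, -80, -44, 4, -29⟩, (.cons (nat_lit 44) (nat_lit 87) (nat_lit 321) (nat_lit 1) (.cons
 (nat_lit 1101) (nat_lit 3638) (nat_lit 3681) (nat_lit 1) .nil)), (nat_lit 2), (nat_lit 11), (nat_lit 18),
 (nat_lit 1), (44, 13, 34), [103, 3560], 43⟩,
  mz,
  ⟨⟨-29, -72, 20, -56, 25, 68, -38, -16, -35⟩, (.cons (nat_lit 250) (nat_lit 96) (nat_lit 16) (nat_lit 1)
 (.cons (nat_lit 3447) (nat_lit 1332) (nat_lit 3344) (nat_lit 1) .nil)), (nat_lit 12), (nat_lit 15), (nat_lit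
 37), (nat_lit 1), (27, 35, 6), [275, 442], 34⟩,
  ⟨⟨75, 20, -32, -10, 21, 80, 12, 60, -25⟩, (.cons (nat_lit 342) (nat_lit 254) (nat_lit 322) (nat_lit 1) (.cons
 (nat_lit 4579) (nat_lit 1145) (nat_lit 2509) (nat_lit 1) .nil)), (nat_lit 46), (nat_lit 19), (nat_lit 21),
 (nat_lit 1), (30, 67, 19), [29, 4938], 12⟩,
  mz,
  ⟨⟨3, -40, -76, -64, 25, 12, 26, 32, -67⟩, (.cons (nat_lit 59) (nat_lit 167) (nat_lit 85) (nat_lit 1) (.cons
 (nat_lit 4667) (nat_lit 156) (nat_lit 1811) (nat_lit 1) .nil)), (nat_lit 4), (nat_lit 34), (nat_lit 40),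
 (nat_lit 1), (58, 17, 53), [305, 4447], 27⟩,
  mz,
  ⟨⟨17, -24, -89, 36, -55, 12, 54, 24, -53⟩, (.cons (nat_lit 22) (nat_lit 131) (nat_lit 110) (nat_lit 1) (.cons
 (nat_lit 2704) (nat_lit 2777) (nat_lit 491) (nat_lit 1) .nil)), (nat_lit 1), (nat_lit 41), (nat_lit 42),
 (nat_lit 1), (5, 44, 66), [94, 4774], 38⟩,
  ⟨⟨-23, -72, 32, 64, -25, -52, -26, -32, -41⟩, (.cons (nat_lit 311) (nat_lit 333) (nat_lit 248) (nat_lit 1)
 (.cons (nat_lit 4464) (nat_lit 2391) (nat_lit 1952) (nat_lit 1) .nil)), (nat_lit 5), (nat_lit 14), (nat_lit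
 4), (nat_lit 1), (21, 28, 33), [93, 4884], 2⟩,
  mz,
  mz,
  ⟨⟨75, 16, -52, 4, -55, -52, 10, 40, -59⟩, (.cons (nat_lit 102) (nat_lit 169) (nat_lit 178) (nat_lit 1) (.cons
 (nat_lit 4002) (nat_lit 1655) (nat_lit 398) (nat_lit 1) .nil)), (nat_lit 3), (nat_lit 5), (nat_lit 1),
 (nat_lit 0), (5, 5, 48), [78, 642], 21⟩,
  ⟨⟨11, -72, -36, 50, -11, 30, 44, -4, -73⟩, (.cons (nat_lit 241) (nat_lit 293) (nat_lit 183) (nat_lit 1)
 (.cons (nat_lit 1061) (nat_lit 4269) (nat_lit 1309) (nat_lit 1) .nil)), (nat_lit 23), (nat_lit 2), (nat_lit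
 34), (nat_lit 1), (69, 49, 63), [31, 1632], 46⟩,
  ⟨⟨-39, -40, -41, -44, 55, 12, 22, 8, -77⟩, (.cons (nat_lit 118) (nat_lit 233) (nat_lit 1) (nat_lit 238)
 (.cons (nat_lit 2834) (nat_lit 3656) (nat_lit 762) (nat_lit 1) .nil)), (nat_lit 15), (nat_lit 6), (nat_lit
 27), (nat_lit 1), (46, 61, 5), [26, 4635], 44⟩,
  mz,
  ⟨⟨51, 52, -56, -44, 15, -38, 42, -24, -67⟩, (.cons (nat_lit 131) (nat_lit 85) (nat_lit 211) (nat_lit 1)
 (.cons (nat_lit 41) (nat_lit 2210) (nat_lit 3118) (nat_lit 1) .nil)), (nat_lit 45), (nat_lit 44), (nat_lit 6),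
 (nat_lit 1), (52, 15, 47), [129, 4733], 39⟩,
  ⟨⟨9, -16, 80, -10, -69, -10, 60, -12, -11⟩, (.cons (nat_lit 342) (nat_lit 114) (nat_lit 186) (nat_lit 1)
 (.cons (nat_lit 3883) (nat_lit 2036) (nat_lit 2551) (nat_lit 1) .nil)), (nat_lit 46), (nat_lit 10), (nat_lit
 25), (nat_lit 1), (33, 58, 7), [215, 2277], 39⟩,
  ⟨⟨51, 4, 40, 10, 69, -20, 60, -12, -49⟩, (.cons (nat_lit 342) (nat_lit 204) (nat_lit 211) (nat_lit 1) (.cons
 (nat_lit 3825) (nat_lit 712) (nat_lit 4282) (nat_lit 1) .nil)), (nat_lit 46), (nat_lit 16), (nat_lit 45),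
 (nat_lit 1), (13, 29, 32), [65, 195], 8⟩,
  ⟨⟨9, -56, -64, -56, 25, -12, 38, 16, -73⟩, (.cons (nat_lit 3) (nat_lit 247) (nat_lit 45) (nat_lit 1) (.cons
 (nat_lit 1617) (nat_lit 4009) (nat_lit 3515) (nat_lit 1) .nil)), (nat_lit 4), (nat_lit 35), (nat_lit 12),
 (nat_lit 1), (4, 54, 9), [291, 4618], 27⟩,
  ⟨⟨65, 24, -72, 4, 55, 48, -10, 40, -49⟩, (.cons (nat_lit 342) (nat_lit 96) (nat_lit 171) (nat_lit 1) (.cons
 (nat_lit 2088) (nat_lit 3159) (nat_lit 144) (nat_lit 1) .nil)), (nat_lit 46), (nat_lit 0), (nat_lit 37),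
 (nat_lit 1), (39, 45, 65), [93, 4159], 24⟩,
  ⟨⟨9, -76, -20, 44, 15, -82, -42, -24, -25⟩, (.cons (nat_lit 292) (nat_lit 139) (nat_lit 27) (nat_lit 1)
 (.cons (nat_lit 4198) (nat_lit 2702) (nat_lit 3885) (nat_lit 1) .nil)), (nat_lit 45), (nat_lit 3), (nat_lit
 41), (nat_lit 1), (1, 68, 19), [143, 2751], 39⟩,
  mz,
  ⟨⟨-9, 28, -76, 70, 11, -40, 4, -44, -53⟩, (.cons (nat_lit 108) (nat_lit 211) (nat_lit 145) (nat_lit 1) (.cons
 (nat_lit 818) (nat_lit 2110) (nat_lit 43) (nat_lit 1) .nil)), (nat_lit 21), (nat_lit 18), (nat_lit 30),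
 (nat_lit 1), (34, 59, 48), [96, 826], 46⟩,
  ⟨⟨9, 16, 80, -10, 69, -10, 60, 12, -11⟩, (.cons (nat_lit 338) (nat_lit 187) (nat_lit 92) (nat_lit 1) (.cons
 (nat_lit 4177) (nat_lit 2304) (nat_lit 3089) (nat_lit 1) .nil)), (nat_lit 30), (nat_lit 15), (nat_lit 3),
 (nat_lit 1), (58, 46, 8), [73, 28], 31⟩,
  ⟨⟨75, -20, -32, 10, 21, -80, 12, -60, -25⟩, (.cons (nat_lit 342) (nat_lit 49) (nat_lit 293) (nat_lit 1)
 (.cons (nat_lit 2260) (nat_lit 1735) (nat_lit 409) (nat_lit 1) .nil)), (nat_lit 46), (nat_lit 11), (nat_lit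
 32), (nat_lit 1), (52, 59, 14), [22, 1615], 12⟩,
  mz,
  ⟨⟨-11, -72, -25, 50, 11, -80, -44, -4, -29⟩, (.cons (nat_lit 282) (nat_lit 68) (nat_lit 17) (nat_lit 1)
 (.cons (nat_lit 4149) (nat_lit 3936) (nat_lit 2726) (nat_lit 1) .nil)), (nat_lit 38), (nat_lit 21), (nat_lit
 12), (nat_lit 1), (38, 8, 10), [314, 3180], 13⟩,
  ⟨⟨63, -40, -56, -10, 21, -70, -12, -60, -13⟩, (.cons (nat_lit 342) (nat_lit 91) (nat_lit 57) (nat_lit 1)
 (.cons (nat_lit 2418) (nat_lit 4797) (nat_lit 4997) (nat_lit 1) .nil)), (nat_lit 46), (nat_lit 36), (nat_lit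
 15), (nat_lit 1), (4, 5, 6), [309, 3277], 12⟩,
  mz,
  mz,
  mz,
  ⟨⟨33, -68, -37, -50, -11, -30, 44, 4, -73⟩, (.cons (nat_lit 121) (nat_lit 207) (nat_lit 316) (nat_lit 1)
 (.cons (nat_lit 1677) (nat_lit 212) (nat_lit 1812) (nat_lit 1) .nil)), (nat_lit 2), (nat_lit 36), (nat_lit
 29), (nat_lit 1), (12, 27, 16), [327, 649], 43⟩,
  mz,
  ⟨⟨-13, 72, 36, -70, -11, 30, -4, 44, -49⟩, (.cons (nat_lit 306) (nat_lit 208) (nat_lit 254) (nat_lit 1)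
 (.cons (nat_lit 3831) (nat_lit 2815) (nat_lit 170) (nat_lit 1) .nil)), (nat_lit 45), (nat_lit 4), (nat_lit
 21), (nat_lit 1), (35, 41, 49), [250, 865], 43⟩,
  ⟨⟨75, -16, -52, 4, 55, -52, 10, -40, -59⟩, (.cons (nat_lit 342) (nat_lit 132) (nat_lit 97) (nat_lit 1) (.cons
 (nat_lit 321) (nat_lit 2803) (nat_lit 1402) (nat_lit 1) .nil)), (nat_lit 46), (nat_lit 3), (nat_lit 0),
 (nat_lit 1), (51, 51, 21), [205, 2546], 24⟩,
  mz,
  ⟨⟨-27, -68, 43, 64, -15, -2, 6, -48, -49⟩, (.cons (nat_lit 138) (nat_lit 109) (nat_lit 64) (nat_lit 1) (.cons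
 (nat_lit 4695) (nat_lit 3393) (nat_lit 4644) (nat_lit 1) .nil)), (nat_lit 37), (nat_lit 19), (nat_lit 31),
 (nat_lit 1), (60, 55, 34), [153, 4313], 41⟩,
  ⟨⟨13, 72, 23, 70, -11, -40, 4, 44, -53⟩, (.cons (nat_lit 16) (nat_lit 201) (nat_lit 264) (nat_lit 1) (.cons
 (nat_lit 5039) (nat_lit 856) (nat_lit 4397) (nat_lit 1) .nil)), (nat_lit 2), (nat_lit 4), (nat_lit 26),
 (nat_lit 1), (20, 64, 28), [75, 1793], 43⟩,
  ⟨⟨-23, 72, 32, 64, 25, -52, -26, 32, -41⟩, (.cons (nat_lit 339) (nat_lit 57) (nat_lit 251) (nat_lit 1) (.cons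
 (nat_lit 4155) (nat_lit 2570) (nat_lit 4905) (nat_lit 1) .nil)), (nat_lit 4), (nat_lit 13), (nat_lit 7),
 (nat_lit 1), (27, 36, 12), [228, 805], 27⟩,
  ⟨⟨37, -48, -73, 36, 55, -48, 54, -24, -1⟩, (.cons (nat_lit 78) (nat_lit 72) (nat_lit 338) (nat_lit 1) (.cons
 (nat_lit 3354) (nat_lit 2953) (nat_lit 944) (nat_lit 1) .nil)), (nat_lit 1), (nat_lit 6), (nat_lit 5),
 (nat_lit 1), (11, 51, 41), [228, 3395], 9⟩]

/-- Moves. -/
noncomputable def t1_3 : List Mv := [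
  mz,
  ⟨⟨63, 40, -56, -10, -21, -70, -12, 60, -13⟩, (.cons (nat_lit 105) (nat_lit 41) (nat_lit 326) (nat_lit 1)
 (.cons (nat_lit 129) (nat_lit 1046) (nat_lit 1) (nat_lit 0) .nil)), (nat_lit 39), (nat_lit 25), (nat_lit 5),
 (nat_lit 1), (31, 21, 11), [4, 3995], 4⟩,
  mz,
  ⟨⟨65, -24, -72, -4, 55, -48, -10, -40, -49⟩, (.cons (nat_lit 342) (nat_lit 218) (nat_lit 295) (nat_lit 1)
 (.cons (nat_lit 1440) (nat_lit 3833) (nat_lit 2184) (nat_lit 1) .nil)), (nat_lit 46), (nat_lit 44), (nat_lit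
 0), (nat_lit 1), (37, 1, 38), [65, 1772], 24⟩,
  ⟨⟨27, 68, 16, 64, -15, -62, -6, 48, -43⟩, (.cons (nat_lit 123) (nat_lit 314) (nat_lit 64) (nat_lit 1) (.cons
 (nat_lit 4658) (nat_lit 1186) (nat_lit 3642) (nat_lit 1) .nil)), (nat_lit 33), (nat_lit 39), (nat_lit 25),
 (nat_lit 1), (60, 16, 34), [222, 342], 46⟩,
  ⟨⟨27, -68, 16, 64, 15, -62, -6, -48, -43⟩, (.cons (nat_lit 199) (nat_lit 235) (nat_lit 200) (nat_lit 1)
 (.cons (nat_lit 3930) (nat_lit 94) (nat_lit 1419) (nat_lit 1) .nil)), (nat_lit 23), (nat_lit 22), (nat_lit 3),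
 (nat_lit 1), (7, 35, 30), [230, 3431], 45⟩,
  mz,
  ⟨⟨-29, 72, 20, 56, 25, -68, -38, 16, -35⟩, (.cons (nat_lit 199) (nat_lit 299) (nat_lit 165) (nat_lit 1)
 (.cons (nat_lit 4898) (nat_lit 188) (nat_lit 3186) (nat_lit 1) .nil)), (nat_lit 4), (nat_lit 12), (nat_lit
 35), (nat_lit 1), (33, 44, 31), [340, 768], 27⟩,
  ⟨⟨3, 40, -76, 64, 25, -12, 26, -32, -67⟩, (.cons (nat_lit 131) (nat_lit 276) (nat_lit 337) (nat_lit 1) (.cons
 (nat_lit 4214) (nat_lit 2664) (nat_lit 2164) (nat_lit 1) .nil)), (nat_lit 12), (nat_lit 44), (nat_lit 3),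
 (nat_lit 1), (14, 62, 3), [310, 1181], 34⟩,
  mz,
  mz,
  ⟨⟨-27, 68, 43, 64, 15, -2, 6, 48, -49⟩, (.cons (nat_lit 205) (nat_lit 131) (nat_lit 200) (nat_lit 1) (.cons
 (nat_lit 1095) (nat_lit 3789) (nat_lit 3694) (nat_lit 1) .nil)), (nat_lit 2), (nat_lit 30), (nat_lit 10),
 (nat_lit 1), (42, 3, 38), [38, 3386], 39⟩,
  ⟨⟨9, 76, -20, 44, -15, -82, -42, 24, -25⟩, (.cons (nat_lit 298) (nat_lit 16) (nat_lit 164) (nat_lit 1) (.cons
 (nat_lit 2203) (nat_lit 4103) (nat_lit 2733) (nat_lit 1) .nil)), (nat_lit 33), (nat_lit 16), (nat_lit 11),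
 (nat_lit 1), (31, 49, 21), [180, 4929], 46⟩,
  mz,
  mz,
  ⟨⟨-9, 76, -11, -44, -15, -38, 42, 24, -67⟩, (.cons (nat_lit 87) (nat_lit 121) (nat_lit 263) (nat_lit 1)
 (.cons (nat_lit 2322) (nat_lit 2751) (nat_lit 2508) (nat_lit 1) .nil)), (nat_lit 14), (nat_lit 16), (nat_lit
 36), (nat_lit 1), (25, 67, 49), [89, 1098], 46⟩,
  ⟨⟨37, -48, 36, -36, -55, -12, 54, -24, -53⟩, (.cons (nat_lit 342) (nat_lit 186) (nat_lit 139) (nat_lit 1)
 (.cons (nat_lit 848) (nat_lit 3440) (nat_lit 2893) (nat_lit 1) .nil)), (nat_lit 46), (nat_lit 22), (nat_lit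
 20), (nat_lit 1), (57, 52, 64), [31, 4903], 38⟩,
  mz,
  ⟨⟨29, -72, -9, -56, -25, -12, 38, -16, -73⟩, (.cons (nat_lit 310) (nat_lit 195) (nat_lit 174) (nat_lit 1)
 (.cons (nat_lit 3647) (nat_lit 3360) (nat_lit 4210) (nat_lit 1) .nil)), (nat_lit 28), (nat_lit 31), (nat_lit
 18), (nat_lit 1), (70, 46, 55), [260, 3093], 17⟩,
  ⟨⟨39, 40, -80, 44, -55, -32, -22, -8, -55⟩, (.cons (nat_lit 342) (nat_lit 160) (nat_lit 252) (nat_lit 1)
 (.cons (nat_lit 779) (nat_lit 518) (nat_lit 1106) (nat_lit 1) .nil)), (nat_lit 46), (nat_lit 11), (nat_lit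
 39), (nat_lit 1), (28, 68, 37), [230, 2545], 20⟩,
  mz,
  mz,
  ⟨⟨17, -24, 72, 36, -55, -48, 54, 24, -1⟩, (.cons (nat_lit 45) (nat_lit 234) (nat_lit 58) (nat_lit 1) (.cons
 (nat_lit 808) (nat_lit 4357) (nat_lit 825) (nat_lit 1) .nil)), (nat_lit 4), (nat_lit 28), (nat_lit 15),
 (nat_lit 1), (28, 5, 43), [326, 516], 27⟩,
  ⟨⟨39, -40, -80, 44, 55, -32, -22, 8, -55⟩, (.cons (nat_lit 328) (nat_lit 278) (nat_lit 1) (nat_lit 84) (.cons
 (nat_lit 2564) (nat_lit 1734) (nat_lit 3102) (nat_lit 1) .nil)), (nat_lit 32), (nat_lit 6), (nat_lit 20),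
 (nat_lit 1), (1, 43, 14), [124, 2598], 44⟩,
  ⟨⟨-39, 40, -41, 44, 55, -12, 22, -8, -77⟩, (.cons (nat_lit 196) (nat_lit 54) (nat_lit 321) (nat_lit 1) (.cons
 (nat_lit 2593) (nat_lit 4782) (nat_lit 1471) (nat_lit 1) .nil)), (nat_lit 22), (nat_lit 38), (nat_lit 30),
 (nat_lit 1), (2, 56, 28), [166, 466], 5⟩,
  mz,
  ⟨⟨51, -4, 40, 10, -69, -20, 60, 12, -49⟩, (.cons (nat_lit 4) (nat_lit 328) (nat_lit 298) (nat_lit 1) (.cons
 (nat_lit 4832) (nat_lit 4434) (nat_lit 3130) (nat_lit 1) .nil)), (nat_lit 11), (nat_lit 24), (nat_lit 33),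
 (nat_lit 1), (60, 41, 33), [36, 4285], 9⟩,
  mz,
  mz,
  ⟨⟨-13, -72, 36, 70, -11, -30, -4, -44, -49⟩, (.cons (nat_lit 38) (nat_lit 250) (nat_lit 249) (nat_lit 1)
 (.cons (nat_lit 1837) (nat_lit 1195) (nat_lit 1) (nat_lit 3195) .nil)), (nat_lit 23), (nat_lit 29), (nat_lit
 38), (nat_lit 1), (29, 35, 69), [241, 4745], 46⟩,
  mz,
  ⟨⟨-33, -68, -4, 50, -11, -80, -44, 4, -29⟩, (.cons (nat_lit 187) (nat_lit 263) (nat_lit 286) (nat_lit 1)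
 (.cons (nat_lit 4113) (nat_lit 4514) (nat_lit 2221) (nat_lit 1) .nil)), (nat_lit 45), (nat_lit 36), (nat_lit
 18), (nat_lit 1), (61, 13, 34), [68, 5014], 43⟩,
  mz,
  ⟨⟨-29, -72, 20, 56, -25, -68, -38, -16, -35⟩, (.cons (nat_lit 145) (nat_lit 167) (nat_lit 330) (nat_lit 1)
 (.cons (nat_lit 1527) (nat_lit 1751) (nat_lit 4229) (nat_lit 1) .nil)), (nat_lit 19), (nat_lit 31), (nat_lit
 29), (nat_lit 1), (27, 36, 6), [204, 3264], 17⟩,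
  ⟨⟨-63, 40, 7, -10, 21, 80, 12, 60, -25⟩, (.cons (nat_lit 162) (nat_lit 131) (nat_lit 133) (nat_lit 1) (.cons
 (nat_lit 1978) (nat_lit 3966) (nat_lit 4818) (nat_lit 1) .nil)), (nat_lit 1), (nat_lit 28), (nat_lit 21),
 (nat_lit 1), (60, 67, 19), [8, 4221], 12⟩,
  mz,
  ⟨⟨3, -40, -76, 64, -25, -12, 26, 32, -67⟩, (.cons (nat_lit 12) (nat_lit 96) (nat_lit 235) (nat_lit 1) (.cons
 (nat_lit 554) (nat_lit 3966) (nat_lit 2625) (nat_lit 1) .nil)), (nat_lit 19), (nat_lit 4), (nat_lit 25),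
 (nat_lit 1), (58, 54, 53), [127, 531], 17⟩,
  mz,
  ⟨⟨37, 48, 36, -36, 55, -12, 54, 24, -53⟩, (.cons (nat_lit 103) (nat_lit 85) (nat_lit 304) (nat_lit 1) (.cons
 (nat_lit 3278) (nat_lit 1347) (nat_lit 835) (nat_lit 1) .nil)), (nat_lit 12), (nat_lit 7), (nat_lit 39),
 (nat_lit 1), (61, 27, 66), [166, 2365], 13⟩,
  ⟨⟨-23, -72, 32, -64, 25, 52, -26, -32, -41⟩, (.cons (nat_lit 229) (nat_lit 32) (nat_lit 328) (nat_lit 1)
 (.cons (nat_lit 1508) (nat_lit 1801) (nat_lit 2694) (nat_lit 1) .nil)), (nat_lit 12), (nat_lit 3), (nat_lit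
 44), (nat_lit 1), (21, 43, 33), [261, 4097], 34⟩,
  mz,
  mz,
  ⟨⟨75, 16, -52, -4, 55, 52, 10, 40, -59⟩, (.cons (nat_lit 342) (nat_lit 331) (nat_lit 340) (nat_lit 1) (.cons
 (nat_lit 1552) (nat_lit 283) (nat_lit 1839) (nat_lit 1) .nil)), (nat_lit 46), (nat_lit 0), (nat_lit 10),
 (nat_lit 1), (5, 66, 48), [226, 4703], 24⟩,
  ⟨⟨11, -72, -36, -50, 11, -30, 44, -4, -73⟩, (.cons (nat_lit 201) (nat_lit 285) (nat_lit 67) (nat_lit 1)
 (.cons (nat_lit 4386) (nat_lit 3651) (nat_lit 2553) (nat_lit 1) .nil)), (nat_lit 9), (nat_lit 21), (nat_lit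
 35), (nat_lit 1), (69, 22, 63), [342, 4192], 13⟩,
  ⟨⟨-39, -40, -41, 44, -55, -12, 22, 8, -77⟩, (.cons (nat_lit 211) (nat_lit 70) (nat_lit 17) (nat_lit 1) (.cons
 (nat_lit 3645) (nat_lit 3408) (nat_lit 2591) (nat_lit 1) .nil)), (nat_lit 1), (nat_lit 7), (nat_lit 26),
 (nat_lit 1), (46, 10, 5), [223, 4733], 20⟩,
  mz,
  ⟨⟨-9, -76, -11, -44, 15, -38, 42, -24, -67⟩, (.cons (nat_lit 2) (nat_lit 223) (nat_lit 134) (nat_lit 1)
 (.cons (nat_lit 4528) (nat_lit 5031) (nat_lit 3554) (nat_lit 1) .nil)), (nat_lit 2), (nat_lit 3), (nat_lit 6),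
 (nat_lit 1), (66, 15, 47), [318, 4781], 39⟩,
  ⟨⟨9, -16, 80, -10, -69, -10, 60, -12, -11⟩, (.cons (nat_lit 342) (nat_lit 114) (nat_lit 186) (nat_lit 1)
 (.cons (nat_lit 3883) (nat_lit 2036) (nat_lit 2551) (nat_lit 1) .nil)), (nat_lit 46), (nat_lit 10), (nat_lit
 25), (nat_lit 1), (33, 58, 7), [215, 2277], 39⟩,
  ⟨⟨51, 4, 40, 10, 69, -20, 60, -12, -49⟩, (.cons (nat_lit 342) (nat_lit 204) (nat_lit 211) (nat_lit 1) (.cons
 (nat_lit 3825) (nat_lit 712) (nat_lit 4282) (nat_lit 1) .nil)), (nat_lit 46), (nat_lit 16), (nat_lit 45),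
 (nat_lit 1), (13, 29, 32), [65, 195], 8⟩,
  ⟨⟨29, 72, -9, -56, 25, -12, 38, 16, -73⟩, (.cons (nat_lit 165) (nat_lit 334) (nat_lit 262) (nat_lit 1) (.cons
 (nat_lit 2193) (nat_lit 3852) (nat_lit 1774) (nat_lit 1) .nil)), (nat_lit 43), (nat_lit 12), (nat_lit 12),
 (nat_lit 1), (5, 54, 9), [256, 700], 27⟩,
  ⟨⟨65, 24, -72, -4, -55, -48, -10, 40, -49⟩, (.cons (nat_lit 67) (nat_lit 167) (nat_lit 207) (nat_lit 1)
 (.cons (nat_lit 533) (nat_lit 4828) (nat_lit 4201) (nat_lit 1) .nil)), (nat_lit 44), (nat_lit 5), (nat_lit 1),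
 (nat_lit 0), (39, 26, 65), [64, 3089], 21⟩,
  ⟨⟨9, -76, -20, 44, 15, -82, -42, -24, -25⟩, (.cons (nat_lit 292) (nat_lit 139) (nat_lit 27) (nat_lit 1)
 (.cons (nat_lit 4198) (nat_lit 2702) (nat_lit 3885) (nat_lit 1) .nil)), (nat_lit 45), (nat_lit 3), (nat_lit
 41), (nat_lit 1), (1, 68, 19), [143, 2751], 39⟩,
  mz,
  ⟨⟨13, -72, 23, -70, -11, 40, 4, -44, -53⟩, (.cons (nat_lit 326) (nat_lit 89) (nat_lit 227) (nat_lit 1) (.cons
 (nat_lit 3059) (nat_lit 1222) (nat_lit 94) (nat_lit 1) .nil)), (nat_lit 24), (nat_lit 29), (nat_lit 9),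
 (nat_lit 1), (14, 12, 48), [178, 4134], 46⟩,
  ⟨⟨9, 16, 80, -10, 69, -10, 60, 12, -11⟩, (.cons (nat_lit 338) (nat_lit 187) (nat_lit 92) (nat_lit 1) (.cons
 (nat_lit 4177) (nat_lit 2304) (nat_lit 3089) (nat_lit 1) .nil)), (nat_lit 30), (nat_lit 15), (nat_lit 3),
 (nat_lit 1), (58, 46, 8), [73, 28], 31⟩,
  ⟨⟨-63, -40, 7, -10, -21, 80, 12, -60, -25⟩, (.cons (nat_lit 110) (nat_lit 177) (nat_lit 1) (nat_lit 336)
 (.cons (nat_lit 618) (nat_lit 4729) (nat_lit 973) (nat_lit 1) .nil)), (nat_lit 6), (nat_lit 9), (nat_lit 17),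
 (nat_lit 1), (33, 12, 14), [9, 3307], 3⟩,
  mz,
  ⟨⟨-33, 68, -4, 50, 11, -80, -44, -4, -29⟩, (.cons (nat_lit 54) (nat_lit 268) (nat_lit 59) (nat_lit 1) (.cons
 (nat_lit 4498) (nat_lit 4322) (nat_lit 1462) (nat_lit 1) .nil)), (nat_lit 9), (nat_lit 26), (nat_lit 12),
 (nat_lit 1), (43, 8, 10), [48, 2107], 13⟩,
  ⟨⟨63, -40, -56, -10, 21, -70, -12, -60, -13⟩, (.cons (nat_lit 342) (nat_lit 91) (nat_lit 57) (nat_lit 1)
 (.cons (nat_lit 2418) (nat_lit 4797) (nat_lit 4997) (nat_lit 1) .nil)), (nat_lit 46), (nat_lit 36), (nat_lit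
 15), (nat_lit 1), (4, 5, 6), [309, 3277], 12⟩,
  mz,
  mz,
  mz,
  ⟨⟨11, 72, -36, -50, -11, -30, 44, 4, -73⟩, (.cons (nat_lit 334) (nat_lit 192) (nat_lit 183) (nat_lit 1)
 (.cons (nat_lit 3262) (nat_lit 109) (nat_lit 4632) (nat_lit 1) .nil)), (nat_lit 45), (nat_lit 11), (nat_lit
 29), (nat_lit 1), (4, 27, 16), [313, 2567], 43⟩,
  mz,
  ⟨⟨-13, 72, 36, 70, 11, -30, -4, 44, -49⟩, (.cons (nat_lit 236) (nat_lit 111) (nat_lit 309) (nat_lit 1) (.cons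
 (nat_lit 370) (nat_lit 1435) (nat_lit 3217) (nat_lit 1) .nil)), (nat_lit 9), (nat_lit 34), (nat_lit 23),
 (nat_lit 1), (35, 30, 49), [20, 1531], 13⟩,
  ⟨⟨75, -16, -52, -4, -55, 52, 10, -40, -59⟩, (.cons (nat_lit 37) (nat_lit 264) (nat_lit 274) (nat_lit 1)
 (.cons (nat_lit 2223) (nat_lit 907) (nat_lit 58) (nat_lit 1) .nil)), (nat_lit 0), (nat_lit 14), (nat_lit 31),
 (nat_lit 1), (51, 20, 21), [109, 27], 18⟩,
  mz,
  ⟨⟨-27, -68, 43, 64, -15, -2, 6, -48, -49⟩, (.cons (nat_lit 138) (nat_lit 109) (nat_lit 64) (nat_lit 1) (.cons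
 (nat_lit 4695) (nat_lit 3393) (nat_lit 4644) (nat_lit 1) .nil)), (nat_lit 37), (nat_lit 19), (nat_lit 31),
 (nat_lit 1), (60, 55, 34), [153, 4313], 41⟩,
  ⟨⟨13, 72, 23, -70, 11, 40, 4, 44, -53⟩, (.cons (nat_lit 317) (nat_lit 41) (nat_lit 342) (nat_lit 1) (.cons
 (nat_lit 137) (nat_lit 1283) (nat_lit 2738) (nat_lit 1) .nil)), (nat_lit 38), (nat_lit 34), (nat_lit 24),
 (nat_lit 1), (20, 7, 28), [307, 4181], 13⟩,
  ⟨⟨-23, 72, 32, -64, -25, 52, -26, 32, -41⟩, (.cons (nat_lit 257) (nat_lit 212) (nat_lit 136) (nat_lit 1)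
 (.cons (nat_lit 3613) (nat_lit 1694) (nat_lit 1756) (nat_lit 1) .nil)), (nat_lit 19), (nat_lit 43), (nat_lit
 22), (nat_lit 1), (27, 35, 12), [323, 1902], 17⟩,
  ⟨⟨17, 24, 72, 36, 55, -48, 54, -24, -1⟩, (.cons (nat_lit 342) (nat_lit 264) (nat_lit 310) (nat_lit 1) (.cons
 (nat_lit 2263) (nat_lit 3813) (nat_lit 3346) (nat_lit 1) .nil)), (nat_lit 46), (nat_lit 41), (nat_lit 5),
 (nat_lit 1), (30, 51, 41), [291, 2305], 9⟩]

/-- Moves. -/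
noncomputable def t4_1 : List Mv := [
  mz,
  ⟨⟨-25, 12, -36, -22, 35, 36, 20, 28, -37⟩, (.cons (nat_lit 46) (nat_lit 310) (nat_lit 145) (nat_lit 1) (.cons
 (nat_lit 1894) (nat_lit 4745) (nat_lit 118) (nat_lit 1) .nil)), (nat_lit 21), (nat_lit 0), (nat_lit 0),
 (nat_lit 0), (2, 45, 36), [334, 1571], 0⟩,
  ⟨⟨21, -32, -49, 2, 35, -36, -28, -20, -13⟩, (.cons (nat_lit 122) (nat_lit 332) (nat_lit 83) (nat_lit 1)
 (.cons (nat_lit 3462) (nat_lit 4284) (nat_lit 3066) (nat_lit 1) .nil)), (nat_lit 5), (nat_lit 0), (nat_lit 0),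
 (nat_lit 0), (33, 30, 3), [61, 624], 0⟩,
  ⟨⟨-51, 4, 19, -2, -45, -14, -12, 12, -37⟩, (.cons (nat_lit 178) (nat_lit 88) (nat_lit 44) (nat_lit 1) (.cons
 (nat_lit 2703) (nat_lit 2830) (nat_lit 3860) (nat_lit 1) .nil)), (nat_lit 33), (nat_lit 0), (nat_lit 0),
 (nat_lit 0), (7, 27, 21), [60, 1816], 0⟩,
  mz,
  ⟨⟨25, -12, -61, -22, 35, -14, -20, -28, -17⟩, (.cons (nat_lit 194) (nat_lit 76) (nat_lit 19) (nat_lit 1)
 (.cons (nat_lit 3930) (nat_lit 820) (nat_lit 3651) (nat_lit 1) .nil)), (nat_lit 2), (nat_lit 0), (nat_lit 0),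
 (nat_lit 0), (9, 9, 21), [97, 1914], 0⟩,
  mz,
  mz,
  mz,
  ⟨⟨27, 32, -47, -40, 17, 0, 10, -16, -47⟩, (.cons (nat_lit 288) (nat_lit 101) (nat_lit 31) (nat_lit 1) (.cons
 (nat_lit 2747) (nat_lit 3083) (nat_lit 3381) (nat_lit 1) .nil)), (nat_lit 38), (nat_lit 0), (nat_lit 0),
 (nat_lit 0), (43, 39, 2), [194, 2653], 0⟩,
  mz,
  ⟨⟨17, 48, -17, 40, -17, -40, -10, 16, -37⟩, (.cons (nat_lit 305) (nat_lit 219) (nat_lit 323) (nat_lit 1)
 (.cons (nat_lit 1789) (nat_lit 4205) (nat_lit 1) (nat_lit 1065) .nil)), (nat_lit 9), (nat_lit 0), (nat_lit 0),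
 (nat_lit 0), (25, 45, 24), [332, 4076], 0⟩,
  ⟨⟨21, 44, 8, 20, -23, 30, 38, 8, -37⟩, (.cons (nat_lit 252) (nat_lit 90) (nat_lit 40) (nat_lit 1) (.cons
 (nat_lit 4697) (nat_lit 2465) (nat_lit 1799) (nat_lit 1) .nil)), (nat_lit 31), (nat_lit 0), (nat_lit 0),
 (nat_lit 0), (29, 3, 1), [81, 996], 0⟩,
  mz,
  ⟨⟨-51, -4, 19, 2, -45, 14, -12, -12, -37⟩, (.cons (nat_lit 341) (nat_lit 195) (nat_lit 192) (nat_lit 1)
 (.cons (nat_lit 1575) (nat_lit 2064) (nat_lit 484) (nat_lit 1) .nil)), (nat_lit 44), (nat_lit 0), (nat_lit 0),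
 (nat_lit 0), (25, 11, 28), [184, 1588], 0⟩,
  ⟨⟨9, 4, -61, 40, 23, -10, 22, -32, -29⟩, (.cons (nat_lit 82) (nat_lit 248) (nat_lit 112) (nat_lit 1) (.cons
 (nat_lit 4368) (nat_lit 2575) (nat_lit 529) (nat_lit 1) .nil)), (nat_lit 35), (nat_lit 0), (nat_lit 0),
 (nat_lit 0), (18, 33, 44), [67, 2131], 0⟩,
  ⟨⟨-13, 36, 45, 40, 23, -30, -22, 32, -7⟩, (.cons (nat_lit 80) (nat_lit 224) (nat_lit 27) (nat_lit 1) (.cons
 (nat_lit 4024) (nat_lit 2404) (nat_lit 3706) (nat_lit 1) .nil)), (nat_lit 27), (nat_lit 0), (nat_lit 0),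
 (nat_lit 0), (5, 28, 41), [78, 4789], 0⟩,
  mz,
  ⟨⟨19, 0, -63, 0, 47, 0, 42, 0, -23⟩, (.cons (nat_lit 50) (nat_lit 112) (nat_lit 252) (nat_lit 1) (.cons
 (nat_lit 1637) (nat_lit 2965) (nat_lit 1237) (nat_lit 1) .nil)), (nat_lit 29), (nat_lit 0), (nat_lit 0),
 (nat_lit 0), (16, 0, 23), [145, 1225], 0⟩,
  ⟨⟨-39, 32, 8, -20, -33, -20, 6, 24, -41⟩, (.cons (nat_lit 270) (nat_lit 134) (nat_lit 220) (nat_lit 1) (.cons
 (nat_lit 4837) (nat_lit 3072) (nat_lit 1638) (nat_lit 1) .nil)), (nat_lit 22), (nat_lit 0), (nat_lit 0),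
 (nat_lit 0), (25, 8, 7), [184, 1983], 0⟩,
  ⟨⟨17, -36, 28, 20, -23, -50, 38, 8, -1⟩, (.cons (nat_lit 163) (nat_lit 161) (nat_lit 149) (nat_lit 1) (.cons
 (nat_lit 4329) (nat_lit 515) (nat_lit 3516) (nat_lit 1) .nil)), (nat_lit 16), (nat_lit 0), (nat_lit 0),
 (nat_lit 0), (2, 30, 10), [73, 4246], 0⟩,
  ⟨⟨-49, -12, 36, -2, 35, 36, -28, 20, -13⟩, (.cons (nat_lit 261) (nat_lit 38) (nat_lit 228) (nat_lit 1) (.cons
 (nat_lit 3303) (nat_lit 4775) (nat_lit 3444) (nat_lit 1) .nil)), (nat_lit 1), (nat_lit 0), (nat_lit 0),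
 (nat_lit 0), (24, 24, 7), [195, 677], 0⟩,
  ⟨⟨-39, -32, 8, -20, 33, -20, 6, -24, -41⟩, (.cons (nat_lit 342) (nat_lit 55) (nat_lit 160) (nat_lit 1) (.cons
 (nat_lit 5040) (nat_lit 4984) (nat_lit 987) (nat_lit 1) .nil)), (nat_lit 22), (nat_lit 0), (nat_lit 0),
 (nat_lit 0), (28, 24, 21), [11, 2642], 0⟩,
  mz,
  mz,
  ⟨⟨-45, 8, -4, 20, 33, -40, -6, -24, -35⟩, (.cons (nat_lit 342) (nat_lit 197) (nat_lit 232) (nat_lit 1) (.cons
 (nat_lit 5040) (nat_lit 4353) (nat_lit 4754) (nat_lit 1) .nil)), (nat_lit 25), (nat_lit 0), (nat_lit 0),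
 (nat_lit 0), (40, 24, 21), [74, 2], 0⟩,
  ⟨⟨49, -12, -13, -2, -35, -34, 28, 20, -41⟩, (.cons (nat_lit 226) (nat_lit 66) (nat_lit 123) (nat_lit 1)
 (.cons (nat_lit 93) (nat_lit 899) (nat_lit 614) (nat_lit 1) .nil)), (nat_lit 42), (nat_lit 0), (nat_lit 0),
 (nat_lit 0), (24, 23, 7), [202, 2015], 0⟩,
  ⟨⟨17, 36, -45, -20, -23, -30, 38, -8, -37⟩, (.cons (nat_lit 23) (nat_lit 258) (nat_lit 1) (nat_lit 231)
 (.cons (nat_lit 4586) (nat_lit 3880) (nat_lit 3170) (nat_lit 1) .nil)), (nat_lit 32), (nat_lit 0), (nat_lit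
 0), (nat_lit 0), (45, 30, 37), [114, 705], 0⟩,
  ⟨⟨-45, -8, -4, -20, 33, 40, -6, 24, -35⟩, (.cons (nat_lit 342) (nat_lit 320) (nat_lit 206) (nat_lit 1) (.cons
 (nat_lit 5040) (nat_lit 2870) (nat_lit 1625) (nat_lit 1) .nil)), (nat_lit 28), (nat_lit 0), (nat_lit 0),
 (nat_lit 0), (29, 39, 7), [32, 1506], 0⟩,
  ⟨⟨23, 0, -63, 0, -47, 0, 42, 0, -19⟩, (.cons (nat_lit 295) (nat_lit 231) (nat_lit 91) (nat_lit 1) (.cons
 (nat_lit 3994) (nat_lit 4140) (nat_lit 4643) (nat_lit 1) .nil)), (nat_lit 18), (nat_lit 0), (nat_lit 0),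
 (nat_lit 0), (40, 0, 24), [2, 842], 0⟩,
  mz,
  ⟨⟨13, 36, 32, 40, -23, -10, 22, 32, -29⟩, (.cons (nat_lit 60) (nat_lit 88) (nat_lit 1) (nat_lit 28) (.cons
 (nat_lit 2711) (nat_lit 1751) (nat_lit 2599) (nat_lit 1) .nil)), (nat_lit 12), (nat_lit 0), (nat_lit 0),
 (nat_lit 0), (5, 19, 41), [50, 1119], 0⟩,
  ⟨⟨-13, -36, 45, 40, -23, -30, -22, -32, -7⟩, (.cons (nat_lit 189) (nat_lit 123) (nat_lit 164) (nat_lit 1)
 (.cons (nat_lit 3501) (nat_lit 1615) (nat_lit 2112) (nat_lit 1) .nil)), (nat_lit 27), (nat_lit 0), (nat_lit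
 0), (nat_lit 0), (26, 14, 44), [67, 4325], 0⟩,
  ⟨⟨51, -4, -32, 2, 45, -16, 12, -12, -49⟩, (.cons (nat_lit 342) (nat_lit 194) (nat_lit 96) (nat_lit 1) (.cons
 (nat_lit 5040) (nat_lit 844) (nat_lit 1910) (nat_lit 1) .nil)), (nat_lit 33), (nat_lit 0), (nat_lit 0),
 (nat_lit 0), (25, 36, 28), [39, 4738], 0⟩,
  mz,
  ⟨⟨21, -44, -29, -20, -23, 50, 38, -8, -1⟩, (.cons (nat_lit 297) (nat_lit 89) (nat_lit 7) (nat_lit 1) (.cons
 (nat_lit 3101) (nat_lit 4910) (nat_lit 2937) (nat_lit 1) .nil)), (nat_lit 15), (nat_lit 0), (nat_lit 0),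
 (nat_lit 0), (18, 3, 46), [230, 4441], 0⟩,
  ⟨⟨27, -32, -47, -40, -17, 0, 10, 16, -47⟩, (.cons (nat_lit 123) (nat_lit 222) (nat_lit 48) (nat_lit 1) (.cons
 (nat_lit 4061) (nat_lit 3876) (nat_lit 3739) (nat_lit 1) .nil)), (nat_lit 38), (nat_lit 0), (nat_lit 0),
 (nat_lit 0), (46, 45, 24), [241, 3162], 0⟩,
  mz,
  ⟨⟨17, -48, -17, 40, 17, -40, -10, -16, -37⟩, (.cons (nat_lit 106) (nat_lit 270) (nat_lit 144) (nat_lit 1)
 (.cons (nat_lit 3650) (nat_lit 3603) (nat_lit 4759) (nat_lit 1) .nil)), (nat_lit 9), (nat_lit 0), (nat_lit 0),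
 (nat_lit 0), (6, 39, 2), [19, 4116], 0⟩,
  mz,
  mz,
  mz,
  ⟨⟨45, -16, -1, -22, -35, 36, 20, -28, -37⟩, (.cons (nat_lit 214) (nat_lit 282) (nat_lit 89) (nat_lit 1)
 (.cons (nat_lit 2385) (nat_lit 3351) (nat_lit 2541) (nat_lit 1) .nil)), (nat_lit 26), (nat_lit 0), (nat_lit
 0), (nat_lit 0), (12, 38, 21), [82, 1265], 0⟩,
  mz,
  ⟨⟨-39, 8, -17, 2, -45, -16, 12, 12, -49⟩, (.cons (nat_lit 171) (nat_lit 269) (nat_lit 96) (nat_lit 1) (.cons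
 (nat_lit 1005) (nat_lit 2572) (nat_lit 2557) (nat_lit 1) .nil)), (nat_lit 14), (nat_lit 0), (nat_lit 0),
 (nat_lit 0), (14, 27, 21), [46, 4566], 0⟩,
  ⟨⟨-21, -32, -28, -2, 35, -34, 28, -20, -41⟩, (.cons (nat_lit 235) (nat_lit 17) (nat_lit 127) (nat_lit 1)
 (.cons (nat_lit 1681) (nat_lit 113) (nat_lit 2715) (nat_lit 1) .nil)), (nat_lit 5), (nat_lit 0), (nat_lit 0),
 (nat_lit 0), (33, 30, 3), [124, 1287], 0⟩,
  ⟨⟨-45, 16, 44, -22, -35, -14, -20, 28, -17⟩, (.cons (nat_lit 131) (nat_lit 41) (nat_lit 82) (nat_lit 1)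
 (.cons (nat_lit 919) (nat_lit 4662) (nat_lit 2528) (nat_lit 1) .nil)), (nat_lit 45), (nat_lit 0), (nat_lit 0),
 (nat_lit 0), (34, 2, 36), [251, 2165], 0⟩]

/-- Moves. -/
noncomputable def t4_3 : List Mv := [
  mz,
  ⟨⟨45, 16, -1, 22, -35, -36, 20, 28, -37⟩, (.cons (nat_lit 205) (nat_lit 6) (nat_lit 289) (nat_lit 1) (.cons
 (nat_lit 1956) (nat_lit 238) (nat_lit 1274) (nat_lit 1) .nil)), (nat_lit 45), (nat_lit 0), (nat_lit 0),
 (nat_lit 0), (34, 2, 36), [167, 1137], 0⟩,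
  ⟨⟨21, -32, -49, 2, 35, -36, -28, -20, -13⟩, (.cons (nat_lit 122) (nat_lit 332) (nat_lit 83) (nat_lit 1)
 (.cons (nat_lit 3462) (nat_lit 4284) (nat_lit 3066) (nat_lit 1) .nil)), (nat_lit 5), (nat_lit 0), (nat_lit 0),
 (nat_lit 0), (33, 30, 3), [61, 624], 0⟩,
  ⟨⟨-51, 4, 19, -2, -45, -14, -12, 12, -37⟩, (.cons (nat_lit 178) (nat_lit 88) (nat_lit 44) (nat_lit 1) (.cons
 (nat_lit 2703) (nat_lit 2830) (nat_lit 3860) (nat_lit 1) .nil)), (nat_lit 33), (nat_lit 0), (nat_lit 0),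
 (nat_lit 0), (7, 27, 21), [60, 1816], 0⟩,
  mz,
  ⟨⟨-45, -16, 44, -22, 35, -14, -20, -28, -17⟩, (.cons (nat_lit 289) (nat_lit 232) (nat_lit 341) (nat_lit 1)
 (.cons (nat_lit 2522) (nat_lit 2351) (nat_lit 3489) (nat_lit 1) .nil)), (nat_lit 45), (nat_lit 0), (nat_lit
 0), (nat_lit 0), (12, 9, 21), [62, 4156], 0⟩,
  mz,
  mz,
  mz,
  ⟨⟨27, 32, -47, 40, -17, 0, 10, -16, -47⟩, (.cons (nat_lit 9) (nat_lit 87) (nat_lit 180) (nat_lit 1) (.cons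
 (nat_lit 4757) (nat_lit 719) (nat_lit 4407) (nat_lit 1) .nil)), (nat_lit 11), (nat_lit 0), (nat_lit 0),
 (nat_lit 0), (43, 8, 2), [138, 2287], 0⟩,
  mz,
  ⟨⟨17, 48, -17, 40, -17, -40, -10, 16, -37⟩, (.cons (nat_lit 305) (nat_lit 219) (nat_lit 323) (nat_lit 1)
 (.cons (nat_lit 1789) (nat_lit 4205) (nat_lit 1) (nat_lit 1065) .nil)), (nat_lit 9), (nat_lit 0), (nat_lit 0),
 (nat_lit 0), (25, 45, 24), [332, 4076], 0⟩,
  ⟨⟨21, 44, 8, -20, 23, -30, 38, 8, -37⟩, (.cons (nat_lit 207) (nat_lit 103) (nat_lit 329) (nat_lit 1) (.cons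
 (nat_lit 2946) (nat_lit 2426) (nat_lit 2703) (nat_lit 1) .nil)), (nat_lit 15), (nat_lit 0), (nat_lit 0),
 (nat_lit 0), (29, 44, 1), [15, 2453], 0⟩,
  mz,
  ⟨⟨-51, -4, 19, -2, 45, -14, -12, -12, -37⟩, (.cons (nat_lit 8) (nat_lit 138) (nat_lit 128) (nat_lit 1) (.cons
 (nat_lit 2735) (nat_lit 1353) (nat_lit 4252) (nat_lit 1) .nil)), (nat_lit 33), (nat_lit 0), (nat_lit 0),
 (nat_lit 0), (25, 36, 28), [228, 2746], 0⟩,
  ⟨⟨13, -36, 32, 40, 23, -10, 22, -32, -29⟩, (.cons (nat_lit 58) (nat_lit 200) (nat_lit 126) (nat_lit 1) (.cons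
 (nat_lit 3335) (nat_lit 95) (nat_lit 3844) (nat_lit 1) .nil)), (nat_lit 12), (nat_lit 0), (nat_lit 0),
 (nat_lit 0), (26, 33, 44), [39, 3422], 0⟩,
  ⟨⟨-9, -4, -52, 40, 23, -30, -22, 32, -7⟩, (.cons (nat_lit 242) (nat_lit 140) (nat_lit 300) (nat_lit 1) (.cons
 (nat_lit 177) (nat_lit 4624) (nat_lit 2752) (nat_lit 1) .nil)), (nat_lit 20), (nat_lit 0), (nat_lit 0),
 (nat_lit 0), (36, 28, 41), [323, 4015], 0⟩,
  mz,
  ⟨⟨19, 0, -63, 0, -47, 0, 42, 0, -23⟩, (.cons (nat_lit 140) (nat_lit 93) (nat_lit 1) (nat_lit 84) (.cons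
 (nat_lit 4804) (nat_lit 1325) (nat_lit 2661) (nat_lit 1) .nil)), (nat_lit 29), (nat_lit 0), (nat_lit 0),
 (nat_lit 0), (16, 0, 23), [108, 2039], 0⟩,
  ⟨⟨-39, 32, 8, 20, 33, 20, 6, 24, -41⟩, (.cons (nat_lit 342) (nat_lit 156) (nat_lit 158) (nat_lit 1) (.cons
 (nat_lit 5040) (nat_lit 1940) (nat_lit 4146) (nat_lit 1) .nil)), (nat_lit 19), (nat_lit 0), (nat_lit 0),
 (nat_lit 0), (25, 39, 7), [151, 2345], 0⟩,
  ⟨⟨17, -36, 28, 20, -23, -50, 38, 8, -1⟩, (.cons (nat_lit 163) (nat_lit 161) (nat_lit 149) (nat_lit 1) (.cons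
 (nat_lit 4329) (nat_lit 515) (nat_lit 3516) (nat_lit 1) .nil)), (nat_lit 16), (nat_lit 0), (nat_lit 0),
 (nat_lit 0), (2, 30, 10), [73, 4246], 0⟩,
  ⟨⟨21, 32, -49, 2, -35, -36, -28, 20, -13⟩, (.cons (nat_lit 331) (nat_lit 298) (nat_lit 87) (nat_lit 1) (.cons
 (nat_lit 3660) (nat_lit 1711) (nat_lit 4976) (nat_lit 1) .nil)), (nat_lit 5), (nat_lit 0), (nat_lit 0),
 (nat_lit 0), (30, 23, 7), [279, 214], 0⟩,
  ⟨⟨-39, -32, 8, 20, -33, 20, 6, -24, -41⟩, (.cons (nat_lit 296) (nat_lit 124) (nat_lit 50) (nat_lit 1) (.cons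
 (nat_lit 2990) (nat_lit 4463) (nat_lit 2232) (nat_lit 1) .nil)), (nat_lit 19), (nat_lit 0), (nat_lit 0),
 (nat_lit 0), (28, 23, 21), [1, 4295], 0⟩,
  mz,
  mz,
  ⟨⟨-45, 8, -4, 20, 33, -40, -6, -24, -35⟩, (.cons (nat_lit 342) (nat_lit 197) (nat_lit 232) (nat_lit 1) (.cons
 (nat_lit 5040) (nat_lit 4353) (nat_lit 4754) (nat_lit 1) .nil)), (nat_lit 25), (nat_lit 0), (nat_lit 0),
 (nat_lit 0), (40, 24, 21), [74, 2], 0⟩,
  ⟨⟨-21, 32, -28, 2, 35, 34, 28, 20, -41⟩, (.cons (nat_lit 219) (nat_lit 228) (nat_lit 325) (nat_lit 1) (.cons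
 (nat_lit 646) (nat_lit 4876) (nat_lit 4762) (nat_lit 1) .nil)), (nat_lit 46), (nat_lit 0), (nat_lit 0),
 (nat_lit 0), (30, 24, 7), [125, 4101], 0⟩,
  ⟨⟨21, -44, 8, -20, -23, -30, 38, -8, -37⟩, (.cons (nat_lit 313) (nat_lit 295) (nat_lit 1) (nat_lit 42) (.cons
 (nat_lit 4893) (nat_lit 2678) (nat_lit 4182) (nat_lit 1) .nil)), (nat_lit 15), (nat_lit 0), (nat_lit 0),
 (nat_lit 0), (39, 30, 37), [317, 2652], 0⟩,
  ⟨⟨-45, -8, -4, 20, -33, -40, -6, 24, -35⟩, (.cons (nat_lit 284) (nat_lit 300) (nat_lit 214) (nat_lit 1)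
 (.cons (nat_lit 1713) (nat_lit 648) (nat_lit 1896) (nat_lit 1) .nil)), (nat_lit 25), (nat_lit 0), (nat_lit 0),
 (nat_lit 0), (29, 8, 7), [58, 66], 0⟩,
  ⟨⟨23, 0, -63, 0, -47, 0, 42, 0, -19⟩, (.cons (nat_lit 295) (nat_lit 231) (nat_lit 91) (nat_lit 1) (.cons
 (nat_lit 3994) (nat_lit 4140) (nat_lit 4643) (nat_lit 1) .nil)), (nat_lit 18), (nat_lit 0), (nat_lit 0),
 (nat_lit 0), (40, 0, 24), [2, 842], 0⟩,
  mz,
  ⟨⟨13, 36, 32, 40, -23, -10, 22, 32, -29⟩, (.cons (nat_lit 60) (nat_lit 88) (nat_lit 1) (nat_lit 28) (.cons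
 (nat_lit 2711) (nat_lit 1751) (nat_lit 2599) (nat_lit 1) .nil)), (nat_lit 12), (nat_lit 0), (nat_lit 0),
 (nat_lit 0), (5, 19, 41), [50, 1119], 0⟩,
  ⟨⟨-9, 4, -52, 40, -23, -30, -22, -32, -7⟩, (.cons (nat_lit 70) (nat_lit 178) (nat_lit 52) (nat_lit 1) (.cons
 (nat_lit 1289) (nat_lit 4715) (nat_lit 2608) (nat_lit 1) .nil)), (nat_lit 20), (nat_lit 0), (nat_lit 0),
 (nat_lit 0), (18, 14, 44), [95, 4901], 0⟩,
  ⟨⟨51, -4, -32, 2, 45, -16, 12, -12, -49⟩, (.cons (nat_lit 342) (nat_lit 194) (nat_lit 96) (nat_lit 1) (.cons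
 (nat_lit 5040) (nat_lit 844) (nat_lit 1910) (nat_lit 1) .nil)), (nat_lit 33), (nat_lit 0), (nat_lit 0),
 (nat_lit 0), (25, 36, 28), [39, 4738], 0⟩,
  mz,
  ⟨⟨17, 36, 28, 20, 23, -50, 38, -8, -1⟩, (.cons (nat_lit 336) (nat_lit 211) (nat_lit 268) (nat_lit 1) (.cons
 (nat_lit 1621) (nat_lit 2561) (nat_lit 4316) (nat_lit 1) .nil)), (nat_lit 16), (nat_lit 0), (nat_lit 0),
 (nat_lit 0), (28, 44, 46), [178, 3145], 0⟩,
  ⟨⟨27, -32, -47, 40, 17, 0, 10, 16, -47⟩, (.cons (nat_lit 260) (nat_lit 6) (nat_lit 243) (nat_lit 1) (.cons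
 (nat_lit 1966) (nat_lit 1982) (nat_lit 4253) (nat_lit 1) .nil)), (nat_lit 11), (nat_lit 0), (nat_lit 0),
 (nat_lit 0), (46, 2, 24), [54, 26], 0⟩,
  mz,
  ⟨⟨17, -48, -17, 40, 17, -40, -10, -16, -37⟩, (.cons (nat_lit 106) (nat_lit 270) (nat_lit 144) (nat_lit 1)
 (.cons (nat_lit 3650) (nat_lit 3603) (nat_lit 4759) (nat_lit 1) .nil)), (nat_lit 9), (nat_lit 0), (nat_lit 0),
 (nat_lit 0), (6, 39, 2), [19, 4116], 0⟩,
  mz,
  mz,
  mz,
  ⟨⟨45, -16, -1, 22, 35, -36, 20, -28, -37⟩, (.cons (nat_lit 306) (nat_lit 22) (nat_lit 226) (nat_lit 1) (.cons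
 (nat_lit 4743) (nat_lit 1552) (nat_lit 468) (nat_lit 1) .nil)), (nat_lit 45), (nat_lit 0), (nat_lit 0),
 (nat_lit 0), (12, 9, 21), [125, 4064], 0⟩,
  mz,
  ⟨⟨51, 4, -32, 2, -45, -16, 12, 12, -49⟩, (.cons (nat_lit 67) (nat_lit 326) (nat_lit 327) (nat_lit 1) (.cons
 (nat_lit 4067) (nat_lit 4069) (nat_lit 3626) (nat_lit 1) .nil)), (nat_lit 33), (nat_lit 0), (nat_lit 0),
 (nat_lit 0), (7, 27, 21), [312, 2515], 0⟩,
  ⟨⟨-21, -32, -28, 2, -35, 34, 28, -20, -41⟩, (.cons (nat_lit 199) (nat_lit 73) (nat_lit 146) (nat_lit 1)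
 (.cons (nat_lit 4668) (nat_lit 4822) (nat_lit 277) (nat_lit 1) .nil)), (nat_lit 46), (nat_lit 0), (nat_lit 0),
 (nat_lit 0), (33, 17, 3), [54, 4453], 0⟩,
  ⟨⟨-45, 16, 44, -22, -35, -14, -20, 28, -17⟩, (.cons (nat_lit 131) (nat_lit 41) (nat_lit 82) (nat_lit 1)
 (.cons (nat_lit 919) (nat_lit 4662) (nat_lit 2528) (nat_lit 1) .nil)), (nat_lit 45), (nat_lit 0), (nat_lit 0),
 (nat_lit 0), (34, 2, 36), [251, 2165], 0⟩]

/-- All the moves. -/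
noncomputable def tabs : List (List (List Mv)) := [[[], t0_1, [], t0_3], [[], t1_1, [], t1_3], [], [], [[], t4_1, [], t4_3]]

/-- Subtrie. -/
noncomputable def T1 : Tr := (.ev (nat_lit 20) (nat_lit 35253129379852) (.nd (nat_lit 33) (.br (nat_lit 39)
 (.br (nat_lit 19) (.br (nat_lit 8) (.br (nat_lit 4) (.br (nat_lit 3) (.ch (nat_lit 1) (.ev (nat_lit 52)
 (nat_lit 9062615584) (.ev (nat_lit 436) (nat_lit 274877906944) (.ev (nat_lit 532) (nat_lit 2) (.ev (nat_lit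
 564) (nat_lit 34359738368) (.ev (nat_lit 692) (nat_lit 70368744177664) (.ev (nat_lit 724) (nat_lit 4096) (.nd
 (nat_lit 1840) (.br (nat_lit 3) (.br (nat_lit 2) (.ch (nat_lit 1) (.ev (nat_lit 1856) (nat_lit 21990770491392)
 (.ev (nat_lit 2256) (nat_lit 4294967296) (.ev (nat_lit 2269) (nat_lit 2147483648) .dd)))) (.ch (nat_lit 2)
 (.ev (nat_lit 1856) (nat_lit 17592722915328) (.ev (nat_lit 2304) (nat_lit 4398046511104) (.ev (nat_lit 2368)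
 (nat_lit 4294967296) (.ev (nat_lit 2528) (nat_lit 1048576) (.ev (nat_lit 2676) (nat_lit 2147483648) (.ev
 (nat_lit 2685) (nat_lit 16384) .dd)))))))) (.br (nat_lit 6) (.ch (nat_lit 3) (.ev (nat_lit 1856) (nat_lit
 6443515904) (.ev (nat_lit 2240) (nat_lit 4398046511104) (.ev (nat_lit 2848) (nat_lit 17592722915328) .dd))))
 (.ch (nat_lit 6) (.ev (nat_lit 1856) (nat_lit 21995064393728) (.ev (nat_lit 2212) (nat_lit 2147483648) (.ev
 (nat_lit 2560) (nat_lit 1048576) (.ev (nat_lit 2573) (nat_lit 16384) .dd))))))))))))))) (.ch (nat_lit 3) (.ev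
 (nat_lit 52) (nat_lit 17869348814882) (.ev (nat_lit 96) (nat_lit 74814908570112) .dd)))) (.br (nat_lit 5) (.ch
 (nat_lit 4) (.ev (nat_lit 52) (nat_lit 4411737281058) (.ev (nat_lit 116) (nat_lit 274877906944) (.ev (nat_lit
 500) (nat_lit 67108864) (.ev (nat_lit 532) (nat_lit 34359738368) (.ev (nat_lit 1328) (nat_lit 2048) (.ev
 (nat_lit 1552) (nat_lit 2147483648) (.nd (nat_lit 1840) (.br (nat_lit 3) (.br (nat_lit 2) (.ch (nat_lit 0)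
 (.ev (nat_lit 1856) (nat_lit 70368745242624) (.ev (nat_lit 2016) (nat_lit 17592186044416) (.ev (nat_lit 2464)
 (nat_lit 2097152) (.nd (nat_lit 2992) (.br (nat_lit 6) (.ch (nat_lit 4) (.ev (nat_lit 3008) (nat_lit 262144)
 (.ev (nat_lit 3021) (nat_lit 134217728) .dd))) (.ch (nat_lit 6) (.fin (nat_lit 576453605453152836)))))))))
 (.ch (nat_lit 2) (.ev (nat_lit 1856) (nat_lit 17592188141568) (.ev (nat_lit 2368) (nat_lit 70368744177664)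
 (.ev (nat_lit 2528) (nat_lit 16384) (.ev (nat_lit 2980) (nat_lit 134217728) (.nd (nat_lit 2992) (.br (nat_lit
 6) (.ch (nat_lit 4) (.ev (nat_lit 3008) (nat_lit 1310720) .dd)) (.ch (nat_lit 6) (.fin (nat_lit
 576500884505576013))))))))))) (.br (nat_lit 6) (.ch (nat_lit 3) (.ev (nat_lit 1856) (nat_lit 17592189468672)
 (.ev (nat_lit 2496) (nat_lit 70368878395392) .dd))) (.ch (nat_lit 6) (.ev (nat_lit 1856) (nat_lit
 87961066536960) (.ev (nat_lit 2212) (nat_lit 16384) (.ev (nat_lit 2240) (nat_lit 1048576) (.ev (nat_lit 2253)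
 (nat_lit 262144) .dd))))))))))))))) (.br (nat_lit 7) (.ch (nat_lit 5) (.ev (nat_lit 52) (nat_lit
 92361862431234) (.ev (nat_lit 116) (nat_lit 34628173824) (.ev (nat_lit 148) (nat_lit 262144) (.ev (nat_lit
 500) (nat_lit 274877906944) (.ev (nat_lit 608) (nat_lit 12888610848) .dd)))))) (.ch (nat_lit 7) (.ev (nat_lit
 52) (nat_lit 17592256598050) (.ev (nat_lit 84) (nat_lit 2147483648) (.ev (nat_lit 212) (nat_lit 134217728)
 (.ev (nat_lit 276) (nat_lit 268435456) (.ev (nat_lit 404) (nat_lit 524288) (.ev (nat_lit 436) (nat_lit 16384)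
 (.ev (nat_lit 628) (nat_lit 34359738368) (.nd (nat_lit 1840) (.br (nat_lit 3) (.br (nat_lit 2) (.ch (nat_lit
 0) (.ev (nat_lit 1856) (nat_lit 75055090369024) (.ev (nat_lit 1869) (nat_lit 2048) .dd))) (.ch (nat_lit 2)
 (.ev (nat_lit 1856) (nat_lit 70652212021248) (.ev (nat_lit 2096) (nat_lit 536870912) (.ev (nat_lit 2212)
 (nat_lit 512) (.ev (nat_lit 2512) (nat_lit 4398046511104) (.ev (nat_lit 2525) (nat_lit 4294967296) .dd)))))))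
 (.br (nat_lit 6) (.ch (nat_lit 3) (.ev (nat_lit 1856) (nat_lit 4673461291008) (.ev (nat_lit 2384) (nat_lit
 70368744177664) (.ev (nat_lit 2676) (nat_lit 4294967296) (.ev (nat_lit 2752) (nat_lit 8589935104) .dd)))))
 (.ch (nat_lit 6) (.ev (nat_lit 1856) (nat_lit 74775917496320) (.ev (nat_lit 2576) (nat_lit 274877906944) (.ev
 (nat_lit 2676) (nat_lit 512) (.ev (nat_lit 2685) (nat_lit 4294967296) .dd))))))))))))))))))) (.br (nat_lit 15)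
 (.br (nat_lit 11) (.ch (nat_lit 8) (.ev (nat_lit 52) (nat_lit 37381755424) (.ev (nat_lit 84) (nat_lit
 4294967296) (.ev (nat_lit 244) (nat_lit 8589934592) (.ev (nat_lit 404) (nat_lit 1048576) (.ev (nat_lit 436)
 (nat_lit 17592186044416) (.ev (nat_lit 596) (nat_lit 262144) (.ev (nat_lit 864) (nat_lit 4398046545920) (.nd
 (nat_lit 1840) (.br (nat_lit 3) (.ch (nat_lit 2) (.ev (nat_lit 1856) (nat_lit 274878431232) (.ev (nat_lit
 2432) (nat_lit 70368744177666) (.ev (nat_lit 2445) (nat_lit 134217728) .dd)))) (.br (nat_lit 6) (.ch (nat_lit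
 3) (.ev (nat_lit 1856) (nat_lit 524290) (.ev (nat_lit 2432) (nat_lit 274877906944) (.ev (nat_lit 2656)
 (nat_lit 70368878395392) .dd)))) (.ch (nat_lit 6) (.ev (nat_lit 1856) (nat_lit 70643622084610) (.ev (nat_lit
 2352) (nat_lit 524288) (.ev (nat_lit 2365) (nat_lit 134217728) .dd))))))))))))))) (.br (nat_lit 12) (.ch
 (nat_lit 11) (.ev (nat_lit 52) (nat_lit 92672778618912) (.ev (nat_lit 84) (nat_lit 2) (.ev (nat_lit 180)
 (nat_lit 134218240) (.ev (nat_lit 704) (nat_lit 11344547840) .dd))))) (.ch (nat_lit 12) (.ev (nat_lit 52)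
 (nat_lit 17594605928994) (.ev (nat_lit 84) (nat_lit 67108864) (.ev (nat_lit 180) (nat_lit 4096) (.ev (nat_lit
 468) (nat_lit 4398046511104) (.ev (nat_lit 1344) (nat_lit 34359738368) (.ev (nat_lit 1568) (nat_lit 2048) (.nd
 (nat_lit 1840) (.br (nat_lit 2) (.br (nat_lit 1) (.ch (nat_lit 0) (.ev (nat_lit 1856) (nat_lit 70369415266304)
 (.ev (nat_lit 2016) (nat_lit 16384) (.ev (nat_lit 2464) (nat_lit 8589934592) (.nd (nat_lit 2992) (.br (nat_lit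
 4) (.ch (nat_lit 0) (.fin (nat_lit 576447008393871947))) (.ch (nat_lit 4) (.ev (nat_lit 3008) (nat_lit
 4294967296) (.ev (nat_lit 3021) (nat_lit 274877906944) .dd))))))))) (.ch (nat_lit 1) (.ev (nat_lit 1856)
 (nat_lit 70382165966848) (.ev (nat_lit 2496) (nat_lit 275012124672) .dd)))) (.br (nat_lit 3) (.ch (nat_lit 2)
 (.ev (nat_lit 1856) (nat_lit 283602075648) (.ev (nat_lit 2212) (nat_lit 70368744177664) (.ev (nat_lit 2240)
 (nat_lit 536870912) (.ev (nat_lit 2253) (nat_lit 4294967296) .dd))))) (.ch (nat_lit 3) (.ev (nat_lit 1856)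
 (nat_lit 8589950976) (.ev (nat_lit 2368) (nat_lit 134217728) (.ev (nat_lit 2528) (nat_lit 70368744177664) (.ev
 (nat_lit 2980) (nat_lit 274877906944) (.nd (nat_lit 2992) (.br (nat_lit 6) (.ch (nat_lit 3) (.ev (nat_lit
 3008) (nat_lit 4831838208) .dd)) (.ch (nat_lit 6) (.fin (nat_lit 576467899104313963)))))))))))))))))))))) (.br
 (nat_lit 16) (.ch (nat_lit 15) (.ev (nat_lit 52) (nat_lit 75046970720256) (.ev (nat_lit 180) (nat_lit
 2147483648) (.ev (nat_lit 500) (nat_lit 16384) (.ev (nat_lit 596) (nat_lit 17592186044416) (.ev (nat_lit 1504)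
 (nat_lit 32) (.nd (nat_lit 1840) (.br (nat_lit 3) (.ch (nat_lit 1) (.ev (nat_lit 1856) (nat_lit 8590200832)
 (.ev (nat_lit 1952) (nat_lit 34359738368) (.ev (nat_lit 2176) (nat_lit 2048) (.ev (nat_lit 2224) (nat_lit
 1048576) (.ev (nat_lit 2464) (nat_lit 2097152) (.ev (nat_lit 2528) (nat_lit 2) (.fin (nat_lit
 576475595727651416))))))))) (.br (nat_lit 6) (.ch (nat_lit 3) (.ev (nat_lit 1856) (nat_lit 34363181570) (.ev
 (nat_lit 1984) (nat_lit 8589938688) .dd))) (.ch (nat_lit 6) (.ev (nat_lit 1856) (nat_lit 8591020546) (.ev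
 (nat_lit 2304) (nat_lit 2048) (.ev (nat_lit 2624) (nat_lit 34361835520) (.ev (nat_lit 2637) (nat_lit 262144)
 .dd)))))))))))))) (.br (nat_lit 18) (.ch (nat_lit 16) (.ev (nat_lit 52) (nat_lit 22265785499648) (.ev (nat_lit
 192) (nat_lit 70418471885346) .dd))) (.ch (nat_lit 18) (.ev (nat_lit 52) (nat_lit 275754045474) (.ev (nat_lit
 480) (nat_lit 92408503339520) .dd))))))) (.br (nat_lit 29) (.br (nat_lit 23) (.br (nat_lit 22) (.ch (nat_lit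
 19) (.ev (nat_lit 52) (nat_lit 75080326482432) (.ev (nat_lit 340) (nat_lit 67108864) (.ev (nat_lit 500)
 (nat_lit 536870912) (.ev (nat_lit 532) (nat_lit 2415919104) (.ev (nat_lit 1376) (nat_lit 2) (.nd (nat_lit
 1840) (.br (nat_lit 2) (.ch (nat_lit 0) (.ev (nat_lit 1856) (nat_lit 4096) (.ev (nat_lit 2000) (nat_lit 16416)
 (.ev (nat_lit 2240) (nat_lit 524288) (.ev (nat_lit 2544) (nat_lit 17592186044416) (.ev (nat_lit 2640) (nat_lit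
 8589934592) (.fin (nat_lit 576468998668370492)))))))) (.br (nat_lit 3) (.ch (nat_lit 2) (.ev (nat_lit 1856)
 (nat_lit 17600776765472) (.ev (nat_lit 1920) (nat_lit 16384) (.ev (nat_lit 2448) (nat_lit 134221824) .dd))))
 (.ch (nat_lit 3) (.ev (nat_lit 1856) (nat_lit 17592186847232) (.ev (nat_lit 1952) (nat_lit 32) (.ev (nat_lit
 2416) (nat_lit 4096) (.fin (nat_lit 576465700060086835))))))))))))))) (.ch (nat_lit 22) (.ev (nat_lit 52)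
 (nat_lit 9597878816) (.ev (nat_lit 372) (nat_lit 524288) (.ev (nat_lit 500) (nat_lit 32768) (.ev (nat_lit 564)
 (nat_lit 17592186044416) (.ev (nat_lit 596) (nat_lit 274877906944) (.ev (nat_lit 628) (nat_lit 2147483648)
 (.ev (nat_lit 912) (nat_lit 34359754752) (.ev (nat_lit 1296) (nat_lit 2097154) (.nd (nat_lit 1840) (.br
 (nat_lit 2) (.ch (nat_lit 1) (.ev (nat_lit 1856) (nat_lit 4398046515200) (.ev (nat_lit 2288) (nat_lit
 70368744177664) (.ev (nat_lit 2608) (nat_lit 2048) (.ev (nat_lit 2621) (nat_lit 4294967296) .dd))))) (.br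
 (nat_lit 3) (.ch (nat_lit 2) (.ev (nat_lit 1856) (nat_lit 4398046513152) (.ev (nat_lit 2256) (nat_lit
 70368744177664) (.ev (nat_lit 2950) (nat_lit 4294967296) (.ev (nat_lit 2957) (nat_lit 4096) .dd))))) (.ch
 (nat_lit 3) (.ev (nat_lit 1856) (nat_lit 4294969344) (.ev (nat_lit 2288) (nat_lit 70368744177664) (.ev
 (nat_lit 2608) (nat_lit 4398046511104) (.ev (nat_lit 2621) (nat_lit 4096) .dd)))))))))))))))))) (.br (nat_lit
 24) (.ch (nat_lit 23) (.ev (nat_lit 52) (nat_lit 311388801058) (.ev (nat_lit 276) (nat_lit 134217728) (.ev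
 (nat_lit 308) (nat_lit 70368744177664) (.ev (nat_lit 340) (nat_lit 32768) (.ev (nat_lit 660) (nat_lit
 4398314947072) (.ev (nat_lit 724) (nat_lit 262144) (.nd (nat_lit 1840) (.br (nat_lit 3) (.br (nat_lit 2) (.ch
 (nat_lit 1) (.ev (nat_lit 1856) (nat_lit 13421793280) (.ev (nat_lit 2224) (nat_lit 67108864) (.ev (nat_lit
 2237) (nat_lit 17592186044416) .dd)))) (.ch (nat_lit 2) (.ev (nat_lit 1856) (nat_lit 17600843087872) (.ev
 (nat_lit 2224) (nat_lit 4096) (.ev (nat_lit 2480) (nat_lit 536870912) (.ev (nat_lit 2720) (nat_lit 4294983680)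
 .dd)))))) (.br (nat_lit 6) (.ch (nat_lit 3) (.ev (nat_lit 1856) (nat_lit 17601379975168) (.ev (nat_lit 2212)
 (nat_lit 4096) (.ev (nat_lit 2221) (nat_lit 4294967296) .dd)))) (.ch (nat_lit 6) (.ev (nat_lit 1856) (nat_lit
 17592790040576) (.ev (nat_lit 2212) (nat_lit 4294967296) (.ev (nat_lit 2480) (nat_lit 8589934592) (.ev
 (nat_lit 2493) (nat_lit 4096) .dd))))))))))))))) (.br (nat_lit 26) (.ch (nat_lit 24) (.ev (nat_lit 52)
 (nat_lit 279374238242) (.ev (nat_lit 128) (nat_lit 92404883146752) .dd))) (.ch (nat_lit 26) (.ev (nat_lit 52)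
 (nat_lit 70418874765856) (.ev (nat_lit 148) (nat_lit 2) (.ev (nat_lit 340) (nat_lit 17592454479872) (.ev
 (nat_lit 436) (nat_lit 4398046511104) (.ev (nat_lit 1060) (nat_lit 524288) (.nd (nat_lit 1840) (.br (nat_lit
 2) (.br (nat_lit 1) (.ch (nat_lit 0) (.ev (nat_lit 1856) (nat_lit 274879006720) (.ev (nat_lit 1869) (nat_lit
 2097152) .dd))) (.ch (nat_lit 1) (.ev (nat_lit 1856) (nat_lit 274880053248) (.ev (nat_lit 2320) (nat_lit 2048)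
 (.ev (nat_lit 2333) (nat_lit 1048576) .dd))))) (.br (nat_lit 3) (.ch (nat_lit 2) (.ev (nat_lit 1856) (nat_lit
 274881054720) (.ev (nat_lit 2320) (nat_lit 32768) (.ev (nat_lit 2333) (nat_lit 16384) .dd)))) (.ch (nat_lit 3)
 (.ev (nat_lit 1856) (nat_lit 3196928) (.ev (nat_lit 1869) (nat_lit 274877906944) .dd))))))))))))))) (.br
 (nat_lit 34) (.br (nat_lit 31) (.ch (nat_lit 29) (.ev (nat_lit 52) (nat_lit 75042275756546) (.ev (nat_lit 180)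
 (nat_lit 262144) (.ev (nat_lit 244) (nat_lit 524288) (.ev (nat_lit 308) (nat_lit 32) (.ev (nat_lit 340)
 (nat_lit 4096) (.ev (nat_lit 468) (nat_lit 4294967296) (.ev (nat_lit 1424) (nat_lit 268435456) (.nd (nat_lit
 1840) (.br (nat_lit 1) (.ch (nat_lit 0) (.ev (nat_lit 1856) (nat_lit 17626680000512) (.ev (nat_lit 1888)
 (nat_lit 8589934592) (.ev (nat_lit 2416) (nat_lit 2147483648) (.ev (nat_lit 2429) (nat_lit 16384) .dd)))))
 (.br (nat_lit 2) (.ch (nat_lit 1) (.ev (nat_lit 1856) (nat_lit 10737434624) (.ev (nat_lit 2112) (nat_lit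
 134217728) (.ev (nat_lit 2768) (nat_lit 17626545782784) .dd)))) (.ch (nat_lit 2) (.ev (nat_lit 1856) (nat_lit
 17635135733760) (.ev (nat_lit 2368) (nat_lit 134217728) (.ev (nat_lit 2381) (nat_lit 2147483648)
 .dd))))))))))))))) (.br (nat_lit 33) (.ch (nat_lit 31) (.ev (nat_lit 52) (nat_lit 17607354007584) (.ev
 (nat_lit 84) (nat_lit 536870912) (.ev (nat_lit 180) (nat_lit 2) (.ev (nat_lit 276) (nat_lit 4096) (.ev
 (nat_lit 340) (nat_lit 512) (.ev (nat_lit 640) (nat_lit 75076366501888) .dd))))))) (.ch (nat_lit 33) (.ev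
 (nat_lit 52) (nat_lit 74816655458816) (.ev (nat_lit 84) (nat_lit 17592186044416) (.ev (nat_lit 148) (nat_lit
 536870912) (.nd (nat_lit 1840) (.br (nat_lit 3) (.ch (nat_lit 2) (.ev (nat_lit 1856) (nat_lit 274877909026)
 (.ev (nat_lit 1872) (nat_lit 4096) (.ev (nat_lit 2400) (nat_lit 1048576) (.ev (nat_lit 2528) (nat_lit 16384)
 (.ev (nat_lit 2541) (nat_lit 32768) .dd)))))) (.br (nat_lit 6) (.ch (nat_lit 3) (.ev (nat_lit 1856) (nat_lit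
 1103904) (.ev (nat_lit 2064) (nat_lit 274877906944) (.ev (nat_lit 2077) (nat_lit 2) .dd)))) (.ch (nat_lit 6)
 (.ev (nat_lit 1856) (nat_lit 274879008770) (.ev (nat_lit 2448) (nat_lit 32) (.ev (nat_lit 2461) (nat_lit 2048)
 .dd))))))))))))) (.br (nat_lit 36) (.ch (nat_lit 34) (.ev (nat_lit 52) (nat_lit 4678095489024) (.ev (nat_lit
 276) (nat_lit 32768) (.ev (nat_lit 436) (nat_lit 2147483648) (.ev (nat_lit 468) (nat_lit 262144) (.ev (nat_lit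
 500) (nat_lit 134217728) (.ev (nat_lit 596) (nat_lit 4096) (.ev (nat_lit 1092) (nat_lit 70368744177664) (.nd
 (nat_lit 1840) (.br (nat_lit 3) (.ch (nat_lit 1) (.ev (nat_lit 1856) (nat_lit 32) (.ev (nat_lit 2212) (nat_lit
 512) (.ev (nat_lit 2496) (nat_lit 2) (.ev (nat_lit 2592) (nat_lit 34359738368) (.ev (nat_lit 2676) (nat_lit
 8589934592) (.ev (nat_lit 2685) (nat_lit 17592186044416) .dd))))))) (.ch (nat_lit 3) (.ev (nat_lit 1856)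
 (nat_lit 512) (.ev (nat_lit 2212) (nat_lit 32) (.ev (nat_lit 2496) (nat_lit 34359738368) (.ev (nat_lit 2592)
 (nat_lit 2) (.ev (nat_lit 2676) (nat_lit 17592186044416) (.ev (nat_lit 2685) (nat_lit 8589934592)
 .dd))))))))))))))))) (.br (nat_lit 38) (.ch (nat_lit 36) (.ev (nat_lit 52) (nat_lit 70374047399936) (.ev
 (nat_lit 212) (nat_lit 274877906944) (.ev (nat_lit 468) (nat_lit 2) (.ev (nat_lit 500) (nat_lit 4096) (.ev
 (nat_lit 564) (nat_lit 262144) (.ev (nat_lit 724) (nat_lit 4398046511104) (.nd (nat_lit 1840) (.br (nat_lit 3)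
 (.ch (nat_lit 0) (.ev (nat_lit 1856) (nat_lit 42951772704) (.ev (nat_lit 2064) (nat_lit 2147483648) (.ev
 (nat_lit 2077) (nat_lit 17592186044416) .dd)))) (.br (nat_lit 6) (.ch (nat_lit 3) (.ev (nat_lit 1856) (nat_lit
 17628695365664) (.ev (nat_lit 2448) (nat_lit 8589934592) (.ev (nat_lit 2461) (nat_lit 512) .dd)))) (.ch
 (nat_lit 6) (.ev (nat_lit 1856) (nat_lit 17602923463168) (.ev (nat_lit 1872) (nat_lit 34359738368) (.ev
 (nat_lit 2400) (nat_lit 2048) (.ev (nat_lit 2528) (nat_lit 2097152) (.ev (nat_lit 2541) (nat_lit 32)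
 .dd)))))))))))))))) (.ch (nat_lit 38) (.ev (nat_lit 52) (nat_lit 43487336450) (.ev (nat_lit 244) (nat_lit
 1048608) (.ev (nat_lit 468) (nat_lit 136314880) (.ev (nat_lit 1680) (nat_lit 268435456) (.nd (nat_lit 1840)
 (.br (nat_lit 2) (.ch (nat_lit 0) (.ev (nat_lit 1856) (nat_lit 74766790722048) (.ev (nat_lit 2032) (nat_lit
 17592186044416) (.ev (nat_lit 2212) (nat_lit 16384) (.ev (nat_lit 2512) (nat_lit 67108864) (.ev (nat_lit 2676)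
 (nat_lit 2147483648) (.nd (nat_lit 2992) (.br (nat_lit 5) (.ch (nat_lit 0) (.fin (nat_lit
 576475595727651381))) (.ch (nat_lit 5) (.ev (nat_lit 3008) (nat_lit 274877906944) (.ev (nat_lit 3021) (nat_lit
 4294967296) .dd))))))))))) (.br (nat_lit 3) (.ch (nat_lit 2) (.ev (nat_lit 1856) (nat_lit 92633921765376) (.ev
 (nat_lit 1940) (nat_lit 512) (.ev (nat_lit 1952) (nat_lit 32768) (.ev (nat_lit 2964) (nat_lit 2147483648) (.ev
 (nat_lit 2973) (nat_lit 4294967296) .dd)))))) (.ch (nat_lit 3) (.ev (nat_lit 1856) (nat_lit 277092549120) (.ev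
 (nat_lit 1920) (nat_lit 17592186044416) (.ev (nat_lit 2160) (nat_lit 4398046511104) (.ev (nat_lit 2448)
 (nat_lit 70373039144960) .dd)))))))))))))))))) (.br (nat_lit 54) (.br (nat_lit 47) (.br (nat_lit 43) (.br
 (nat_lit 42) (.ch (nat_lit 39) (.ev (nat_lit 52) (nat_lit 22310277615616) (.ev (nat_lit 148) (nat_lit
 268435456) (.ev (nat_lit 436) (nat_lit 512) (.ev (nat_lit 544) (nat_lit 70373711333410) .dd))))) (.ch (nat_lit
 42) (.ev (nat_lit 52) (nat_lit 17914308612130) (.ev (nat_lit 116) (nat_lit 2214592512) (.ev (nat_lit 180)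
 (nat_lit 2097152) (.ev (nat_lit 436) (nat_lit 134217728) (.ev (nat_lit 468) (nat_lit 512) (.ev (nat_lit 1104)
 (nat_lit 70368744704000) (.nd (nat_lit 1840) (.br (nat_lit 2) (.ch (nat_lit 1) (.ev (nat_lit 1856) (nat_lit
 268435456) (.ev (nat_lit 1872) (nat_lit 4398046543872) (.ev (nat_lit 2336) (nat_lit 538181632) .dd)))) (.ch
 (nat_lit 2) (.ev (nat_lit 1856) (nat_lit 536870912) (.ev (nat_lit 2272) (nat_lit 268435456) (.ev (nat_lit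
 2496) (nat_lit 32768) (.ev (nat_lit 2592) (nat_lit 4398046511104) (.fin (nat_lit
 576421719615947315))))))))))))))))) (.br (nat_lit 44) (.ch (nat_lit 43) (.ev (nat_lit 52) (nat_lit
 17916993490946) (.ev (nat_lit 372) (nat_lit 1048576) (.ev (nat_lit 404) (nat_lit 70368744177664) (.ev (nat_lit
 436) (nat_lit 2097152) (.ev (nat_lit 832) (nat_lit 4398382088192) (.nd (nat_lit 1840) (.br (nat_lit 3) (.ch
 (nat_lit 2) (.ev (nat_lit 1856) (nat_lit 2080) (.ev (nat_lit 1904) (nat_lit 512) (.ev (nat_lit 2896) (nat_lit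
 134479872) .dd)))) (.br (nat_lit 6) (.ch (nat_lit 3) (.ev (nat_lit 1856) (nat_lit 264192) (.ev (nat_lit 2048)
 (nat_lit 512) (.ev (nat_lit 2336) (nat_lit 32) (.ev (nat_lit 2349) (nat_lit 134217728) .dd))))) (.ch (nat_lit
 6) (.ev (nat_lit 1856) (nat_lit 262688) (.ev (nat_lit 2128) (nat_lit 134219776) .dd)))))))))))) (.br (nat_lit
 46) (.ch (nat_lit 44) (.ev (nat_lit 52) (nat_lit 74769407941120) (.ev (nat_lit 212) (nat_lit 2097152) (.ev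
 (nat_lit 276) (nat_lit 16386) (.ev (nat_lit 372) (nat_lit 8589934592) (.ev (nat_lit 660) (nat_lit 32768) (.ev
 (nat_lit 1360) (nat_lit 1048576) (.nd (nat_lit 1840) (.br (nat_lit 1) (.ch (nat_lit 0) (.ev (nat_lit 1856)
 (nat_lit 313533399040) (.ev (nat_lit 1920) (nat_lit 17592186044416) (.ev (nat_lit 2448) (nat_lit 536870944)
 .dd)))) (.br (nat_lit 3) (.ch (nat_lit 1) (.ev (nat_lit 1856) (nat_lit 32) (.ev (nat_lit 2000) (nat_lit
 17867063951360) (.ev (nat_lit 2240) (nat_lit 262144) (.ev (nat_lit 2544) (nat_lit 524288) (.ev (nat_lit 2640)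
 (nat_lit 4294967296) (.fin (nat_lit 576453605505581621)))))))) (.ch (nat_lit 3) (.ev (nat_lit 1856) (nat_lit
 17626546569216) (.ev (nat_lit 1952) (nat_lit 274877906944) (.ev (nat_lit 2416) (nat_lit 32) (.fin (nat_lit
 576454705017209365)))))))))))))))) (.ch (nat_lit 46) (.ev (nat_lit 52) (nat_lit 5167929378) (.ev (nat_lit 84)
 (nat_lit 34359738368) (.ev (nat_lit 116) (nat_lit 294912) (.ev (nat_lit 340) (nat_lit 2097152) (.ev (nat_lit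
 564) (nat_lit 134217728) (.ev (nat_lit 596) (nat_lit 4398046511104) (.ev (nat_lit 1616) (nat_lit
 70368744177664) (.nd (nat_lit 1840) (.br (nat_lit 1) (.ch (nat_lit 0) (.ev (nat_lit 1856) (nat_lit
 17600777028096) (.ev (nat_lit 2144) (nat_lit 274877906944) (.ev (nat_lit 2157) (nat_lit 2147483648) .dd))))
 (.br (nat_lit 2) (.ch (nat_lit 1) (.ev (nat_lit 1856) (nat_lit 274877907456) (.ev (nat_lit 1904) (nat_lit
 17592186044416) (.ev (nat_lit 2384) (nat_lit 8589934592) (.ev (nat_lit 2432) (nat_lit 1048576) (.ev (nat_lit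
 2445) (nat_lit 2147483648) .dd)))))) (.ch (nat_lit 2) (.ev (nat_lit 1856) (nat_lit 17875653885952) (.ev
 (nat_lit 2128) (nat_lit 2147483648) (.ev (nat_lit 2432) (nat_lit 1049088) .dd)))))))))))))))))) (.br (nat_lit
 50) (.br (nat_lit 48) (.ch (nat_lit 47) (.ev (nat_lit 52) (nat_lit 4707824490498) (.ev (nat_lit 532) (nat_lit
 17592186044416) (.ev (nat_lit 724) (nat_lit 2147483648) (.ev (nat_lit 976) (nat_lit 524320) (.ev (nat_lit
 1488) (nat_lit 70368744177664) (.nd (nat_lit 1840) (.br (nat_lit 2) (.ch (nat_lit 1) (.ev (nat_lit 1856)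
 (nat_lit 12884902400) (.ev (nat_lit 2192) (nat_lit 268435456) (.ev (nat_lit 2480) (nat_lit 201326592) .dd))))
 (.br (nat_lit 3) (.ch (nat_lit 2) (.ev (nat_lit 1856) (nat_lit 13086228992) (.ev (nat_lit 1869) (nat_lit
 268435456) .dd))) (.ch (nat_lit 3) (.ev (nat_lit 1856) (nat_lit 67108864) (.ev (nat_lit 2212) (nat_lit
 4294967296) (.ev (nat_lit 2256) (nat_lit 268435456) (.ev (nat_lit 2576) (nat_lit 512) (.nd (nat_lit 2992) (.br
 (nat_lit 6) (.ch (nat_lit 5) (.ev (nat_lit 3008) (nat_lit 8724152320) .dd)) (.ch (nat_lit 6) (.fin (nat_lit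
 576456904061436493))))))))))))))))))) (.br (nat_lit 49) (.ch (nat_lit 48) (.ev (nat_lit 52) (nat_lit
 87961604756000) (.ev (nat_lit 320) (nat_lit 4722652628994) .dd))) (.ch (nat_lit 49) (.ev (nat_lit 52) (nat_lit
 74808333174784) (.ev (nat_lit 308) (nat_lit 524288) (.ev (nat_lit 404) (nat_lit 32) (.ev (nat_lit 596)
 (nat_lit 33280) (.ev (nat_lit 724) (nat_lit 2) (.ev (nat_lit 756) (nat_lit 8589934592) (.ev (nat_lit 1440)
 (nat_lit 4096) (.ev (nat_lit 1744) (nat_lit 268435456) (.nd (nat_lit 1840) (.br (nat_lit 3) (.ch (nat_lit 1)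
 (.ev (nat_lit 1856) (nat_lit 16384) (.ev (nat_lit 2048) (nat_lit 1048576) (.ev (nat_lit 2480) (nat_lit 262144)
 (.ev (nat_lit 2656) (nat_lit 17867063951360) .dd))))) (.br (nat_lit 6) (.ch (nat_lit 3) (.ev (nat_lit 1856)
 (nat_lit 1327104) (.ev (nat_lit 2128) (nat_lit 274877906944) (.ev (nat_lit 2141) (nat_lit 17592186044416)
 .dd)))) (.ch (nat_lit 6) (.ev (nat_lit 1856) (nat_lit 17592187355136) (.ev (nat_lit 2800) (nat_lit
 274877923328) .dd))))))))))))))))) (.br (nat_lit 51) (.ch (nat_lit 50) (.ev (nat_lit 52) (nat_lit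
 74809740417536) (.ev (nat_lit 116) (nat_lit 134217728) (.ev (nat_lit 180) (nat_lit 268435456) (.ev (nat_lit
 276) (nat_lit 262144) (.ev (nat_lit 436) (nat_lit 4294967296) (.ev (nat_lit 756) (nat_lit 1048576) (.ev
 (nat_lit 960) (nat_lit 2097154) (.nd (nat_lit 1840) (.br (nat_lit 3) (.ch (nat_lit 0) (.ev (nat_lit 1856)
 (nat_lit 277025390592) (.ev (nat_lit 1952) (nat_lit 32) (.ev (nat_lit 2048) (nat_lit 17592186044416) (.ev
 (nat_lit 2176) (nat_lit 524288) (.ev (nat_lit 2464) (nat_lit 67108864) (.ev (nat_lit 2477) (nat_lit 536870912)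
 .dd))))))) (.br (nat_lit 6) (.ch (nat_lit 3) (.ev (nat_lit 1856) (nat_lit 2751987744) (.ev (nat_lit 1984)
 (nat_lit 17867063951360) .dd))) (.ch (nat_lit 6) (.ev (nat_lit 1856) (nat_lit 17592722915328) (.ev (nat_lit
 1952) (nat_lit 67108864) (.ev (nat_lit 2048) (nat_lit 274877906944) (.ev (nat_lit 2176) (nat_lit 524288) (.ev
 (nat_lit 2464) (nat_lit 32) (.ev (nat_lit 2477) (nat_lit 2147483648) .dd)))))))))))))))))) (.br (nat_lit 53)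
 (.ch (nat_lit 51) (.ev (nat_lit 52) (nat_lit 74812159197184) (.ev (nat_lit 180) (nat_lit 536870912) (.ev
 (nat_lit 244) (nat_lit 2048) (.ev (nat_lit 416) (nat_lit 17871561314850) .dd))))) (.ch (nat_lit 53) (.ev
 (nat_lit 52) (nat_lit 70650268224034) (.ev (nat_lit 116) (nat_lit 536870912) (.ev (nat_lit 180) (nat_lit
 17592186044416) (.ev (nat_lit 212) (nat_lit 268435456) (.ev (nat_lit 276) (nat_lit 4398046511104) (.ev
 (nat_lit 1632) (nat_lit 524288) (.nd (nat_lit 1840) (.br (nat_lit 2) (.ch (nat_lit 0) (.ev (nat_lit 1856)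
 (nat_lit 42950754304) (.ev (nat_lit 2032) (nat_lit 16384) (.ev (nat_lit 2045) (nat_lit 4096) .dd)))) (.br
 (nat_lit 6) (.ch (nat_lit 2) (.ev (nat_lit 1856) (nat_lit 42949689344) (.ev (nat_lit 2416) (nat_lit 32768)
 (.ev (nat_lit 2464) (nat_lit 1048576) (.ev (nat_lit 2477) (nat_lit 4096) .dd))))) (.ch (nat_lit 6) (.ev
 (nat_lit 1856) (nat_lit 1081344) (.ev (nat_lit 2000) (nat_lit 16384) (.ev (nat_lit 2320) (nat_lit 34359738368)
 (.ev (nat_lit 2640) (nat_lit 8589934592) (.ev (nat_lit 2653) (nat_lit 4096) .dd)))))))))))))))))))) (.br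
 (nat_lit 64) (.br (nat_lit 57) (.br (nat_lit 55) (.ch (nat_lit 54) (.ev (nat_lit 52) (nat_lit 4714466117634)
 (.ev (nat_lit 148) (nat_lit 17592186044416) (.ev (nat_lit 512) (nat_lit 70377605222944) .dd)))) (.ch (nat_lit
 55) (.ev (nat_lit 52) (nat_lit 309775043074) (.ev (nat_lit 64) (nat_lit 92374482341920) .dd)))) (.br (nat_lit
 58) (.ch (nat_lit 57) (.ev (nat_lit 52) (nat_lit 88006296130048) (.ev (nat_lit 116) (nat_lit 4398046511104)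
 (.ev (nat_lit 448) (nat_lit 279914743842) .dd)))) (.br (nat_lit 62) (.ch (nat_lit 58) (.ev (nat_lit 52)
 (nat_lit 88238224314880) (.ev (nat_lit 84) (nat_lit 16384) (.ev (nat_lit 340) (nat_lit 4398046511104) (.ev
 (nat_lit 564) (nat_lit 2097152) (.ev (nat_lit 628) (nat_lit 134217730) (.ev (nat_lit 692) (nat_lit 2048) (.ev
 (nat_lit 820) (nat_lit 8589934592) (.nd (nat_lit 1840) (.br (nat_lit 3) (.ch (nat_lit 1) (.ev (nat_lit 1856)
 (nat_lit 34964242464) (.ev (nat_lit 2496) (nat_lit 4294967296) (.ev (nat_lit 2816) (nat_lit 1081344) .dd))))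
 (.br (nat_lit 6) (.ch (nat_lit 3) (.ev (nat_lit 1856) (nat_lit 34428452896) (.ev (nat_lit 2212) (nat_lit
 536870912) (.ev (nat_lit 2221) (nat_lit 4294967296) .dd)))) (.ch (nat_lit 6) (.ev (nat_lit 1856) (nat_lit
 4832919552) (.ev (nat_lit 2080) (nat_lit 67108896) (.ev (nat_lit 2464) (nat_lit 34360262656)
 .dd))))))))))))))) (.ch (nat_lit 62) (.ev (nat_lit 52) (nat_lit 22003789645824) (.ev (nat_lit 84) (nat_lit
 268435456) (.ev (nat_lit 148) (nat_lit 4096) (.ev (nat_lit 212) (nat_lit 2147483648) (.ev (nat_lit 532)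
 (nat_lit 274877906944) (.ev (nat_lit 660) (nat_lit 2) (.ev (nat_lit 992) (nat_lit 69206016) (.ev (nat_lit
 1824) (nat_lit 32) (.nd (nat_lit 1840) (.br (nat_lit 3) (.ch (nat_lit 2) (.ev (nat_lit 1856) (nat_lit
 34360262656) (.ev (nat_lit 1872) (nat_lit 512) (.ev (nat_lit 2112) (nat_lit 70368744177664) (.ev (nat_lit
 2125) (nat_lit 262144) .dd))))) (.br (nat_lit 6) (.ch (nat_lit 3) (.ev (nat_lit 1856) (nat_lit 34360525312)
 (.ev (nat_lit 1869) (nat_lit 70368744177664) .dd))) (.ch (nat_lit 6) (.ev (nat_lit 1856) (nat_lit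
 70368744439808) (.ev (nat_lit 2080) (nat_lit 512) (.ev (nat_lit 2416) (nat_lit 34359738368) (.ev (nat_lit
 2429) (nat_lit 524288) .dd)))))))))))))))))))) (.br (nat_lit 68) (.br (nat_lit 65) (.ch (nat_lit 64) (.ev
 (nat_lit 52) (nat_lit 4714263480866) (.ev (nat_lit 84) (nat_lit 4096) (.ev (nat_lit 148) (nat_lit 67141632)
 (.ev (nat_lit 276) (nat_lit 2097152) (.ev (nat_lit 848) (nat_lit 87961199181824) (.nd (nat_lit 1840) (.br
 (nat_lit 3) (.ch (nat_lit 0) (.ev (nat_lit 1856) (nat_lit 135266304) (.ev (nat_lit 2048) (nat_lit 16384) (.ev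
 (nat_lit 2336) (nat_lit 262144) (.ev (nat_lit 2349) (nat_lit 8589934592) .dd))))) (.br (nat_lit 6) (.ch
 (nat_lit 3) (.ev (nat_lit 1856) (nat_lit 1327104) (.ev (nat_lit 2128) (nat_lit 8724152320) .dd))) (.ch
 (nat_lit 6) (.ev (nat_lit 1856) (nat_lit 134479872) (.ev (nat_lit 1904) (nat_lit 16384) (.ev (nat_lit 2784)
 (nat_lit 8590983168) .dd))))))))))))) (.br (nat_lit 67) (.ch (nat_lit 65) (.ev (nat_lit 52) (nat_lit
 92367769045504) (.ev (nat_lit 160) (nat_lit 316488339490) .dd))) (.ch (nat_lit 67) (.ev (nat_lit 52) (nat_lit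
 70654362912802) (.ev (nat_lit 340) (nat_lit 134217728) (.ev (nat_lit 500) (nat_lit 4294967296) (.ev (nat_lit
 1520) (nat_lit 268435456) (.nd (nat_lit 1840) (.br (nat_lit 1) (.ch (nat_lit 0) (.ev (nat_lit 1856) (nat_lit
 22025129181696) (.ev (nat_lit 2304) (nat_lit 67108864) (.ev (nat_lit 2624) (nat_lit 557056) (.ev (nat_lit
 2637) (nat_lit 4096) .dd))))) (.br (nat_lit 2) (.ch (nat_lit 1) (.ev (nat_lit 1856) (nat_lit 20992) (.ev
 (nat_lit 1952) (nat_lit 524288) (.ev (nat_lit 2176) (nat_lit 67108864) (.ev (nat_lit 2224) (nat_lit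
 4398046511104) (.ev (nat_lit 2464) (nat_lit 32768) (.ev (nat_lit 2528) (nat_lit 17592186044416) (.fin (nat_lit
 576468998615941707))))))))) (.ch (nat_lit 2) (.ev (nat_lit 1856) (nat_lit 22025196834816) (.ev (nat_lit 1984)
 (nat_lit 16896) .dd))))))))))))) (.br (nat_lit 69) (.ch (nat_lit 68) (.ev (nat_lit 52) (nat_lit
 75041668897312) (.ev (nat_lit 84) (nat_lit 134217728) (.ev (nat_lit 148) (nat_lit 16384) (.ev (nat_lit 256)
 (nat_lit 17642454253570) .dd))))) (.br (nat_lit 70) (.ch (nat_lit 69) (.ev (nat_lit 52) (nat_lit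
 17605477566466) (.ev (nat_lit 84) (nat_lit 4398046511104) (.ev (nat_lit 212) (nat_lit 4096) (.ev (nat_lit 576)
 (nat_lit 70680733303328) .dd))))) (.ch (nat_lit 70) (.ev (nat_lit 52) (nat_lit 87996095549440) (.ev (nat_lit
 212) (nat_lit 4398046511104) (.ev (nat_lit 564) (nat_lit 4294967296) (.ev (nat_lit 660) (nat_lit 67108864)
 (.ev (nat_lit 788) (nat_lit 524288) (.ev (nat_lit 1696) (nat_lit 2048) (.nd (nat_lit 1840) (.br (nat_lit 2)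
 (.ch (nat_lit 1) (.ev (nat_lit 1856) (nat_lit 277025390626) (.ev (nat_lit 2032) (nat_lit 1048576) (.ev
 (nat_lit 2212) (nat_lit 2097152) (.ev (nat_lit 2512) (nat_lit 8589934592) (.ev (nat_lit 2676) (nat_lit
 134217728) (.nd (nat_lit 2992) (.br (nat_lit 1) (.ch (nat_lit 0) (.ev (nat_lit 3008) (nat_lit 32768) (.ev
 (nat_lit 3021) (nat_lit 512) .dd))) (.ch (nat_lit 1) (.fin (nat_lit 576447008393871912))))))))))) (.br
 (nat_lit 6) (.ch (nat_lit 2) (.ev (nat_lit 1856) (nat_lit 283471020064) (.ev (nat_lit 1940) (nat_lit 2) (.ev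
 (nat_lit 1952) (nat_lit 2147483648) (.ev (nat_lit 2964) (nat_lit 134217728) (.ev (nat_lit 2973) (nat_lit 512)
 .dd)))))) (.ch (nat_lit 6) (.ev (nat_lit 1856) (nat_lit 10873765890) (.ev (nat_lit 1920) (nat_lit 1048576)
 (.ev (nat_lit 2160) (nat_lit 32) (.ev (nat_lit 2448) (nat_lit 274877907456) .dd)))))))))))))))))))))))

/-- Subtrie. -/
noncomputable def T3 : Tr := (.ev (nat_lit 20) (nat_lit 75076029401130) (.nd (nat_lit 33) (.br (nat_lit 39)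
 (.br (nat_lit 19) (.br (nat_lit 8) (.br (nat_lit 4) (.br (nat_lit 3) (.ch (nat_lit 1) (.ev (nat_lit 52)
 (nat_lit 77815644672) (.ev (nat_lit 660) (nat_lit 4194304) (.nd (nat_lit 1840) (.br (nat_lit 3) (.ch (nat_lit
 2) (.ev (nat_lit 1856) (nat_lit 52779242487808) (.ev (nat_lit 2080) (nat_lit 69632) (.ev (nat_lit 2464)
 (nat_lit 4294967300) .dd)))) (.br (nat_lit 6) (.ch (nat_lit 3) (.ev (nat_lit 1856) (nat_lit 17597017952260)
 (.ev (nat_lit 2212) (nat_lit 2147483648) (.ev (nat_lit 2221) (nat_lit 35184372088832) .dd)))) (.ch (nat_lit 6)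
 (.ev (nat_lit 1856) (nat_lit 6442520580) (.ev (nat_lit 2496) (nat_lit 35184372088832) (.ev (nat_lit 2928)
 (nat_lit 17592722915328) .dd)))))))))) (.ch (nat_lit 3) (.ev (nat_lit 52) (nat_lit 17663189319680) (.ev
 (nat_lit 116) (nat_lit 35184372088832) (.ev (nat_lit 180) (nat_lit 4) (.ev (nat_lit 276) (nat_lit 8589934592)
 (.ev (nat_lit 628) (nat_lit 512) (.ev (nat_lit 1008) (nat_lit 34078720) (.nd (nat_lit 1840) (.br (nat_lit 3)
 (.br (nat_lit 2) (.ch (nat_lit 0) (.ev (nat_lit 1856) (nat_lit 4366336000) (.ev (nat_lit 2212) (nat_lit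
 262144) (.ev (nat_lit 2560) (nat_lit 268435456) (.ev (nat_lit 2676) (nat_lit 32768) (.nd (nat_lit 2992) (.br
 (nat_lit 6) (.ch (nat_lit 4) (.ev (nat_lit 3008) (nat_lit 4096) (.ev (nat_lit 3021) (nat_lit 536870912) .dd)))
 (.ch (nat_lit 6) (.fin (nat_lit 576500884453147223)))))))))) (.ch (nat_lit 2) (.ev (nat_lit 1856) (nat_lit
 272896000) (.ev (nat_lit 2212) (nat_lit 67108864) (.ev (nat_lit 2560) (nat_lit 65536) (.ev (nat_lit 2676)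
 (nat_lit 536870912) (.nd (nat_lit 2992) (.br (nat_lit 6) (.ch (nat_lit 4) (.fin (nat_lit 576445908850786873)))
 (.ch (nat_lit 6) (.ev (nat_lit 3008) (nat_lit 4294967296) (.ev (nat_lit 3021) (nat_lit 32768) .dd)))))))))))
 (.br (nat_lit 6) (.ch (nat_lit 3) (.ev (nat_lit 1856) (nat_lit 872419328) (.ev (nat_lit 1940) (nat_lit 262144)
 (.ev (nat_lit 2240) (nat_lit 4299161600) (.ev (nat_lit 2496) (nat_lit 98304) .dd))))) (.ch (nat_lit 6) (.ev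
 (nat_lit 1856) (nat_lit 4295327744) (.ev (nat_lit 1940) (nat_lit 67108864) (.ev (nat_lit 2240) (nat_lit
 4198400) (.ev (nat_lit 2496) (nat_lit 805306368) .dd)))))))))))))))) (.br (nat_lit 5) (.ch (nat_lit 4) (.ev
 (nat_lit 52) (nat_lit 35266782335488) (.ev (nat_lit 84) (nat_lit 65536) (.ev (nat_lit 244) (nat_lit 134217728)
 (.ev (nat_lit 596) (nat_lit 2097152) (.ev (nat_lit 1584) (nat_lit 4194304) (.nd (nat_lit 1840) (.br (nat_lit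
 5) (.ch (nat_lit 0) (.ev (nat_lit 1856) (nat_lit 17594434191360) (.ev (nat_lit 2144) (nat_lit 4) (.ev (nat_lit
 2157) (nat_lit 262144) .dd)))) (.br (nat_lit 6) (.ch (nat_lit 5) (.ev (nat_lit 1856) (nat_lit 17592253153284)
 (.ev (nat_lit 2128) (nat_lit 262144) (.ev (nat_lit 2432) (nat_lit 2181038080) .dd)))) (.ch (nat_lit 6) (.ev
 (nat_lit 1856) (nat_lit 2147483652) (.ev (nat_lit 1904) (nat_lit 17592186044416) (.ev (nat_lit 2384) (nat_lit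
 67108864) (.ev (nat_lit 2432) (nat_lit 33554432) (.ev (nat_lit 2445) (nat_lit 262144) .dd))))))))))))))) (.br
 (nat_lit 7) (.ch (nat_lit 5) (.ev (nat_lit 52) (nat_lit 17663829017088) (.ev (nat_lit 84) (nat_lit 4294967296)
 (.ev (nat_lit 244) (nat_lit 4096) (.ev (nat_lit 596) (nat_lit 4) (.ev (nat_lit 1600) (nat_lit 524288) (.nd
 (nat_lit 1840) (.br (nat_lit 5) (.ch (nat_lit 0) (.ev (nat_lit 1856) (nat_lit 35192964120576) (.ev (nat_lit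
 2128) (nat_lit 262144) (.ev (nat_lit 2432) (nat_lit 268468224) .dd)))) (.br (nat_lit 6) (.ch (nat_lit 5) (.ev
 (nat_lit 1856) (nat_lit 35193230491648) (.ev (nat_lit 2144) (nat_lit 2097152) (.ev (nat_lit 2157) (nat_lit
 262144) .dd)))) (.ch (nat_lit 6) (.ev (nat_lit 1856) (nat_lit 2129920) (.ev (nat_lit 1904) (nat_lit
 8589934592) (.ev (nat_lit 2384) (nat_lit 35184372088832) (.ev (nat_lit 2432) (nat_lit 268435456) (.ev (nat_lit
 2445) (nat_lit 262144) .dd))))))))))))))) (.ch (nat_lit 7) (.ev (nat_lit 52) (nat_lit 52845384929284) (.ev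
 (nat_lit 404) (nat_lit 134217728) (.ev (nat_lit 500) (nat_lit 512) (.ev (nat_lit 564) (nat_lit 4294967296)
 (.ev (nat_lit 800) (nat_lit 11543248896) .dd))))))))) (.br (nat_lit 15) (.br (nat_lit 11) (.ch (nat_lit 8)
 (.ev (nat_lit 52) (nat_lit 35187431903744) (.ev (nat_lit 436) (nat_lit 4) (.nd (nat_lit 1840) (.br (nat_lit 3)
 (.br (nat_lit 2) (.ch (nat_lit 0) (.ev (nat_lit 1856) (nat_lit 17673925427200) (.ev (nat_lit 1869) (nat_lit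
 32768) .dd))) (.ch (nat_lit 2) (.ev (nat_lit 1856) (nat_lit 17665200521216) (.ev (nat_lit 2096) (nat_lit
 524288) (.ev (nat_lit 2212) (nat_lit 262144) (.ev (nat_lit 2512) (nat_lit 8589934592) (.ev (nat_lit 2525)
 (nat_lit 134217728) .dd))))))) (.br (nat_lit 6) (.ch (nat_lit 3) (.ev (nat_lit 1856) (nat_lit 77309968384)
 (.ev (nat_lit 2384) (nat_lit 17592186044416) (.ev (nat_lit 2676) (nat_lit 134217728) (.ev (nat_lit 2864)
 (nat_lit 4295229440) .dd))))) (.ch (nat_lit 6) (.ev (nat_lit 1856) (nat_lit 17605071503360) (.ev (nat_lit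
 2576) (nat_lit 68719476736) (.ev (nat_lit 2676) (nat_lit 262144) (.ev (nat_lit 2685) (nat_lit 134217728)
 .dd))))))))))) (.br (nat_lit 12) (.ch (nat_lit 11) (.ev (nat_lit 52) (nat_lit 17596750266372) (.ev (nat_lit
 84) (nat_lit 35184372088832) (.ev (nat_lit 180) (nat_lit 4194304) (.ev (nat_lit 372) (nat_lit 33554432) (.ev
 (nat_lit 500) (nat_lit 8589934592) (.ev (nat_lit 564) (nat_lit 67108864) (.ev (nat_lit 1168) (nat_lit 4608)
 (.nd (nat_lit 1840) (.br (nat_lit 3) (.ch (nat_lit 2) (.ev (nat_lit 1856) (nat_lit 2162688) (.ev (nat_lit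
 1940) (nat_lit 68719476736) (.ev (nat_lit 2000) (nat_lit 2147483648) (.ev (nat_lit 2640) (nat_lit 536870912)
 (.ev (nat_lit 2653) (nat_lit 134217728) .dd)))))) (.br (nat_lit 5) (.ch (nat_lit 3) (.ev (nat_lit 1856)
 (nat_lit 71403831296) (.ev (nat_lit 2400) (nat_lit 65536) (.ev (nat_lit 2448) (nat_lit 136314880) .dd)))) (.ch
 (nat_lit 5) (.ev (nat_lit 1856) (nat_lit 70869123072) (.nd (nat_lit 2992) (.br (nat_lit 4) (.ch (nat_lit 0)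
 (.ev (nat_lit 3008) (nat_lit 536870912) (.ev (nat_lit 3021) (nat_lit 134217728) .dd))) (.ch (nat_lit 4) (.fin
 (nat_lit 576421719615947305)))))))))))))))))) (.ch (nat_lit 12) (.ev (nat_lit 52) (nat_lit 17594642629124)
 (.ev (nat_lit 148) (nat_lit 4294967296) (.ev (nat_lit 532) (nat_lit 35184372088832) (.ev (nat_lit 736)
 (nat_lit 78047678464) .dd))))))) (.br (nat_lit 16) (.ch (nat_lit 15) (.ev (nat_lit 52) (nat_lit
 35189712027648) (.ev (nat_lit 212) (nat_lit 512) (.ev (nat_lit 628) (nat_lit 8589934592) (.ev (nat_lit 1184)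
 (nat_lit 2147483652) (.nd (nat_lit 1840) (.br (nat_lit 5) (.ch (nat_lit 3) (.ev (nat_lit 1856) (nat_lit
 17660905521152) (.ev (nat_lit 1940) (nat_lit 4096) (.ev (nat_lit 2000) (nat_lit 2097152) (.ev (nat_lit 2640)
 (nat_lit 32768) (.ev (nat_lit 2653) (nat_lit 262144) .dd)))))) (.br (nat_lit 6) (.ch (nat_lit 5) (.ev (nat_lit
 1856) (nat_lit 17660907622400) (.nd (nat_lit 2992) (.br (nat_lit 5) (.ch (nat_lit 0) (.ev (nat_lit 3008)
 (nat_lit 32768) (.ev (nat_lit 3021) (nat_lit 262144) .dd))) (.ch (nat_lit 5) (.fin (nat_lit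
 576454705017209445))))))) (.ch (nat_lit 6) (.ev (nat_lit 1856) (nat_lit 2134016) (.ev (nat_lit 2400) (nat_lit
 68719476736) (.ev (nat_lit 2448) (nat_lit 17592186306560) .dd)))))))))))) (.br (nat_lit 18) (.ch (nat_lit 16)
 (.ev (nat_lit 52) (nat_lit 17592864210944) (.ev (nat_lit 212) (nat_lit 67108864) (.ev (nat_lit 340) (nat_lit
 68719476736) (.ev (nat_lit 404) (nat_lit 32768) (.ev (nat_lit 500) (nat_lit 35184372088832) (.ev (nat_lit 724)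
 (nat_lit 65536) (.ev (nat_lit 1200) (nat_lit 33554944) (.ev (nat_lit 1712) (nat_lit 268435460) (.nd (nat_lit
 1840) (.br (nat_lit 3) (.ch (nat_lit 0) (.ev (nat_lit 1856) (nat_lit 4294971392) (.ev (nat_lit 1968) (nat_lit
 8589934592) (.ev (nat_lit 1981) (nat_lit 2147483648) .dd)))) (.br (nat_lit 5) (.ch (nat_lit 3) (.ev (nat_lit
 1856) (nat_lit 10737418240) (.ev (nat_lit 1968) (nat_lit 4096) (.ev (nat_lit 1981) (nat_lit 4294967296)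
 .dd)))) (.ch (nat_lit 5) (.ev (nat_lit 1856) (nat_lit 15032389632) .dd)))))))))))))) (.ch (nat_lit 18) (.ev
 (nat_lit 52) (nat_lit 35185247227908) (.ev (nat_lit 564) (nat_lit 68719476736) (.ev (nat_lit 724) (nat_lit
 8589934592) (.ev (nat_lit 896) (nat_lit 37749248) (.nd (nat_lit 1840) (.br (nat_lit 2) (.ch (nat_lit 0) (.ev
 (nat_lit 1856) (nat_lit 17596615229440) (.ev (nat_lit 2352) (nat_lit 262144) (.ev (nat_lit 2365) (nat_lit
 2147483648) .dd)))) (.br (nat_lit 5) (.ch (nat_lit 2) (.ev (nat_lit 1856) (nat_lit 17592186306560) (.ev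
 (nat_lit 2432) (nat_lit 134217728) (.ev (nat_lit 2656) (nat_lit 6442450944) .dd)))) (.ch (nat_lit 5) (.ev
 (nat_lit 1856) (nat_lit 134479872) (.ev (nat_lit 2432) (nat_lit 17596481011712) (.ev (nat_lit 2445) (nat_lit
 2147483648) .dd)))))))))))))))) (.br (nat_lit 29) (.br (nat_lit 23) (.br (nat_lit 22) (.ch (nat_lit 19) (.ev
 (nat_lit 52) (nat_lit 4301292036) (.ev (nat_lit 372) (nat_lit 4096) (.ev (nat_lit 468) (nat_lit 68719542272)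
 (.ev (nat_lit 1312) (nat_lit 335544320) (.nd (nat_lit 1840) (.br (nat_lit 3) (.ch (nat_lit 0) (.ev (nat_lit
 1856) (nat_lit 8758231040) (.ev (nat_lit 2288) (nat_lit 35184372088832) (.ev (nat_lit 2352) (nat_lit
 536870912) (.ev (nat_lit 2512) (nat_lit 17592186044416) (.fin (nat_lit 576467899156742683))))))) (.br (nat_lit
 6) (.ch (nat_lit 3) (.ev (nat_lit 1856) (nat_lit 17603494412288) (.ev (nat_lit 2192) (nat_lit 35184372088832)
 (.ev (nat_lit 2480) (nat_lit 134479872) .dd)))) (.ch (nat_lit 6) (.ev (nat_lit 1856) (nat_lit 17594870661120)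
 (.ev (nat_lit 2288) (nat_lit 35184372088832) (.ev (nat_lit 2352) (nat_lit 524288) (.ev (nat_lit 2512) (nat_lit
 33554432) (.fin (nat_lit 576456904061436493))))))))))))))) (.ch (nat_lit 22) (.ev (nat_lit 52) (nat_lit
 9630384640) (.ev (nat_lit 384) (nat_lit 52851726979076) .dd)))) (.br (nat_lit 24) (.ch (nat_lit 23) (.ev
 (nat_lit 52) (nat_lit 70869647364) (.ev (nat_lit 372) (nat_lit 134217728) (.ev (nat_lit 468) (nat_lit
 4294967808) (.ev (nat_lit 1280) (nat_lit 35184405643264) (.nd (nat_lit 1840) (.br (nat_lit 5) (.ch (nat_lit 2)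
 (.ev (nat_lit 1856) (nat_lit 17601585512448) (.ev (nat_lit 2192) (nat_lit 67108864) (.ev (nat_lit 2480)
 (nat_lit 266240) .dd)))) (.br (nat_lit 6) (.ch (nat_lit 5) (.ev (nat_lit 1856) (nat_lit 17592458678272) (.ev
 (nat_lit 2288) (nat_lit 67108864) (.ev (nat_lit 2352) (nat_lit 536870912) (.ev (nat_lit 2512) (nat_lit
 8589934592) (.fin (nat_lit 576467899104313883))))))) (.ch (nat_lit 6) (.ev (nat_lit 1856) (nat_lit 9127100416)
 (.ev (nat_lit 2288) (nat_lit 67108864) (.ev (nat_lit 2352) (nat_lit 4194304) (.ev (nat_lit 2512) (nat_lit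
 268435456) (.fin (nat_lit 576456903967064653))))))))))))))) (.br (nat_lit 26) (.ch (nat_lit 24) (.ev (nat_lit
 52) (nat_lit 35257621451264) (.ev (nat_lit 148) (nat_lit 8589934592) (.ev (nat_lit 340) (nat_lit 524288) (.ev
 (nat_lit 532) (nat_lit 2097152) (.ev (nat_lit 820) (nat_lit 262144) (.nd (nat_lit 1840) (.br (nat_lit 5) (.br
 (nat_lit 2) (.ch (nat_lit 0) (.ev (nat_lit 1856) (nat_lit 4259844) (.ev (nat_lit 2224) (nat_lit 536870912)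
 (.ev (nat_lit 2480) (nat_lit 268435456) (.ev (nat_lit 2832) (nat_lit 17594333528064) .dd))))) (.ch (nat_lit 2)
 (.ev (nat_lit 1856) (nat_lit 17595143028736) (.ev (nat_lit 2224) (nat_lit 4) (.ev (nat_lit 2237) (nat_lit
 65536) .dd))))) (.br (nat_lit 6) (.ch (nat_lit 5) (.ev (nat_lit 1856) (nat_lit 2420178948) (.ev (nat_lit 2212)
 (nat_lit 536870912) (.ev (nat_lit 2221) (nat_lit 17592186044416) .dd)))) (.ch (nat_lit 6) (.ev (nat_lit 1856)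
 (nat_lit 2415984644) (.ev (nat_lit 2212) (nat_lit 17592186044416) (.ev (nat_lit 2480) (nat_lit 4194304) (.ev
 (nat_lit 2493) (nat_lit 536870912) .dd)))))))))))))) (.ch (nat_lit 26) (.ev (nat_lit 52) (nat_lit 84490326532)
 (.ev (nat_lit 148) (nat_lit 4194304) (.ev (nat_lit 212) (nat_lit 2097152) (.ev (nat_lit 308) (nat_lit 32768)
 (.ev (nat_lit 532) (nat_lit 17592186044416) (.ev (nat_lit 628) (nat_lit 65536) (.ev (nat_lit 1060) (nat_lit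
 33554432) (.ev (nat_lit 1072) (nat_lit 268959744) (.ev (nat_lit 1085) (nat_lit 35184372088832)
 .dd))))))))))))) (.br (nat_lit 34) (.br (nat_lit 31) (.ch (nat_lit 29) (.ev (nat_lit 52) (nat_lit 69325652480)
 (.ev (nat_lit 212) (nat_lit 8589934592) (.ev (nat_lit 288) (nat_lit 52783441776644) .dd)))) (.br (nat_lit 33)
 (.ch (nat_lit 31) (.ev (nat_lit 52) (nat_lit 17676105973760) (.ev (nat_lit 148) (nat_lit 67108864) (.ev
 (nat_lit 276) (nat_lit 4194304) (.ev (nat_lit 468) (nat_lit 2097152) (.ev (nat_lit 564) (nat_lit 4) (.ev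
 (nat_lit 1648) (nat_lit 35184372088832) (.nd (nat_lit 1840) (.br (nat_lit 2) (.ch (nat_lit 0) (.ev (nat_lit
 1856) (nat_lit 528384) (.ev (nat_lit 2000) (nat_lit 65536) (.ev (nat_lit 2320) (nat_lit 512) (.ev (nat_lit
 2640) (nat_lit 268435456) (.ev (nat_lit 2653) (nat_lit 536870912) .dd)))))) (.br (nat_lit 6) (.ch (nat_lit 2)
 (.ev (nat_lit 1856) (nat_lit 268964352) (.ev (nat_lit 2032) (nat_lit 65536) (.ev (nat_lit 2045) (nat_lit
 536870912) .dd)))) (.ch (nat_lit 6) (.ev (nat_lit 1856) (nat_lit 268501504) (.ev (nat_lit 2416) (nat_lit 4096)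
 (.ev (nat_lit 2464) (nat_lit 524288) (.ev (nat_lit 2477) (nat_lit 536870912) .dd))))))))))))))) (.ch (nat_lit
 33) (.ev (nat_lit 52) (nat_lit 35199877120516) (.ev (nat_lit 404) (nat_lit 4096) (.ev (nat_lit 500) (nat_lit
 68719476736) (.ev (nat_lit 564) (nat_lit 65536) (.ev (nat_lit 768) (nat_lit 17592760696832) .dd)))))))) (.br
 (nat_lit 36) (.ch (nat_lit 34) (.ev (nat_lit 52) (nat_lit 73893675008) (.ev (nat_lit 84) (nat_lit 8589934592)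
 (.ev (nat_lit 372) (nat_lit 32768) (.ev (nat_lit 628) (nat_lit 4) (.ev (nat_lit 692) (nat_lit 2147483648) (.ev
 (nat_lit 788) (nat_lit 134217728) (.nd (nat_lit 1840) (.br (nat_lit 5) (.br (nat_lit 3) (.ch (nat_lit 0) (.ev
 (nat_lit 1856) (nat_lit 52776591949824) (.ev (nat_lit 2240) (nat_lit 512) (.ev (nat_lit 2736) (nat_lit 69632)
 .dd)))) (.ch (nat_lit 3) (.ev (nat_lit 1856) (nat_lit 33624576) (.ev (nat_lit 2212) (nat_lit 262144) (.ev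
 (nat_lit 2560) (nat_lit 35184372088832) (.ev (nat_lit 2573) (nat_lit 17592186044416) .dd)))))) (.br (nat_lit
 6) (.ch (nat_lit 5) (.ev (nat_lit 1856) (nat_lit 52776558203392) (.ev (nat_lit 2256) (nat_lit 33554432) (.ev
 (nat_lit 2269) (nat_lit 262144) .dd)))) (.ch (nat_lit 6) (.ev (nat_lit 1856) (nat_lit 69632) (.ev (nat_lit
 2304) (nat_lit 512) (.ev (nat_lit 2368) (nat_lit 33554432) (.ev (nat_lit 2528) (nat_lit 35184372088832) (.ev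
 (nat_lit 2676) (nat_lit 262144) (.ev (nat_lit 2685) (nat_lit 17592186044416) .dd))))))))))))))))) (.br
 (nat_lit 38) (.ch (nat_lit 36) (.ev (nat_lit 52) (nat_lit 35258427277316) (.ev (nat_lit 436) (nat_lit 2097152)
 (.nd (nat_lit 1840) (.br (nat_lit 5) (.br (nat_lit 3) (.ch (nat_lit 2) (.ev (nat_lit 1856) (nat_lit
 17594337722880) (.ev (nat_lit 2384) (nat_lit 8589934592) (.ev (nat_lit 2676) (nat_lit 4096) (.ev (nat_lit
 2864) (nat_lit 327680) .dd))))) (.ch (nat_lit 3) (.ev (nat_lit 1856) (nat_lit 10737484288) (.ev (nat_lit 2096)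
 (nat_lit 4194304) (.ev (nat_lit 2212) (nat_lit 262144) (.ev (nat_lit 2512) (nat_lit 17592186044416) (.ev
 (nat_lit 2525) (nat_lit 4096) .dd))))))) (.br (nat_lit 6) (.ch (nat_lit 5) (.ev (nat_lit 1856) (nat_lit
 17600780505600) (.ev (nat_lit 1869) (nat_lit 2147483648) .dd))) (.ch (nat_lit 6) (.ev (nat_lit 1856) (nat_lit
 17602927722496) (.ev (nat_lit 2576) (nat_lit 512) (.ev (nat_lit 2676) (nat_lit 4096) (.ev (nat_lit 2685)
 (nat_lit 262144) .dd))))))))))) (.ch (nat_lit 38) (.ev (nat_lit 52) (nat_lit 9131790340) (.ev (nat_lit 212)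
 (nat_lit 35184372088832) (.ev (nat_lit 340) (nat_lit 512) (.ev (nat_lit 404) (nat_lit 2147483648) (.ev
 (nat_lit 500) (nat_lit 67108864) (.ev (nat_lit 724) (nat_lit 4294967296) (.ev (nat_lit 928) (nat_lit
 68987912192) (.ev (nat_lit 1728) (nat_lit 35651584) (.nd (nat_lit 1840) (.br (nat_lit 2) (.ch (nat_lit 0) (.ev
 (nat_lit 1856) (nat_lit 17592320360448) .dd)) (.br (nat_lit 5) (.ch (nat_lit 2) (.ev (nat_lit 1856) (nat_lit
 17592186077184) (.ev (nat_lit 1968) (nat_lit 134217728) (.ev (nat_lit 1981) (nat_lit 65536) .dd)))) (.ch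
 (nat_lit 5) (.ev (nat_lit 1856) (nat_lit 134283264) (.ev (nat_lit 1968) (nat_lit 17592186044416) (.ev (nat_lit
 1981) (nat_lit 32768) .dd))))))))))))))))))))) (.br (nat_lit 54) (.br (nat_lit 47) (.br (nat_lit 43) (.br
 (nat_lit 42) (.ch (nat_lit 39) (.ev (nat_lit 52) (nat_lit 17603031273476) (.ev (nat_lit 436) (nat_lit
 4294967296) (.ev (nat_lit 1456) (nat_lit 512) (.ev (nat_lit 1760) (nat_lit 68719476736) (.nd (nat_lit 1840)
 (.br (nat_lit 3) (.ch (nat_lit 2) (.ev (nat_lit 1856) (nat_lit 35184774742016) (.ev (nat_lit 2912) (nat_lit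
 536903680) .dd))) (.br (nat_lit 6) (.ch (nat_lit 3) (.ev (nat_lit 1856) (nat_lit 402685952) (.ev (nat_lit
 2128) (nat_lit 536870912) (.ev (nat_lit 2141) (nat_lit 35184372088832) .dd)))) (.ch (nat_lit 6) (.ev (nat_lit
 1856) (nat_lit 32768) (.ev (nat_lit 2048) (nat_lit 134217728) (.ev (nat_lit 2480) (nat_lit 268435456) (.ev
 (nat_lit 2656) (nat_lit 35184908959744) .dd))))))))))))) (.ch (nat_lit 42) (.ev (nat_lit 52) (nat_lit
 52858162515968) (.ev (nat_lit 116) (nat_lit 524288) (.ev (nat_lit 372) (nat_lit 536870912) (.ev (nat_lit 660)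
 (nat_lit 512) (.ev (nat_lit 692) (nat_lit 262144) (.ev (nat_lit 756) (nat_lit 32768) (.ev (nat_lit 1136)
 (nat_lit 234881024) (.nd (nat_lit 1840) (.br (nat_lit 3) (.ch (nat_lit 0) (.ev (nat_lit 1856) (nat_lit
 268435456) (.ev (nat_lit 1872) (nat_lit 6291456) (.ev (nat_lit 2336) (nat_lit 2147549188) .dd)))) (.ch
 (nat_lit 3) (.ev (nat_lit 1856) (nat_lit 4) (.ev (nat_lit 2272) (nat_lit 268435456) (.ev (nat_lit 2496)
 (nat_lit 4194304) (.ev (nat_lit 2592) (nat_lit 2097152) (.fin (nat_lit 576476695176364615))))))))))))))))))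
 (.br (nat_lit 44) (.ch (nat_lit 43) (.ev (nat_lit 52) (nat_lit 17607755894784) (.ev (nat_lit 116) (nat_lit
 512) (.ev (nat_lit 148) (nat_lit 68719476736) (.ev (nat_lit 308) (nat_lit 268435456) (.ev (nat_lit 596)
 (nat_lit 67108864) (.ev (nat_lit 660) (nat_lit 35184372088832) (.ev (nat_lit 1392) (nat_lit 2097152) (.nd
 (nat_lit 1840) (.br (nat_lit 5) (.ch (nat_lit 0) (.ev (nat_lit 1856) (nat_lit 168034304) (.ev (nat_lit 1888)
 (nat_lit 32768) (.ev (nat_lit 2416) (nat_lit 4) (.ev (nat_lit 2429) (nat_lit 4194304) .dd))))) (.br (nat_lit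
 6) (.ch (nat_lit 5) (.ev (nat_lit 1856) (nat_lit 138706944) (.ev (nat_lit 2368) (nat_lit 33554432) (.ev
 (nat_lit 2381) (nat_lit 4) .dd)))) (.ch (nat_lit 6) (.ev (nat_lit 1856) (nat_lit 4227076) (.ev (nat_lit 2112)
 (nat_lit 33554432) (.ev (nat_lit 2880) (nat_lit 134479872) .dd))))))))))))))) (.br (nat_lit 46) (.ch (nat_lit
 44) (.ev (nat_lit 52) (nat_lit 35255708881408) (.ev (nat_lit 148) (nat_lit 17592186044416) (.ev (nat_lit 340)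
 (nat_lit 4194304) (.ev (nat_lit 532) (nat_lit 4) (.ev (nat_lit 788) (nat_lit 262144) (.nd (nat_lit 1840) (.br
 (nat_lit 5) (.br (nat_lit 3) (.ch (nat_lit 0) (.ev (nat_lit 1856) (nat_lit 4331175936) (.ev (nat_lit 2212)
 (nat_lit 536870912) (.ev (nat_lit 2221) (nat_lit 8589934592) .dd)))) (.ch (nat_lit 3) (.ev (nat_lit 1856)
 (nat_lit 9160916992) (.ev (nat_lit 2224) (nat_lit 2097152) (.ev (nat_lit 2237) (nat_lit 4294967296) .dd)))))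
 (.br (nat_lit 6) (.ch (nat_lit 5) (.ev (nat_lit 1856) (nat_lit 4297588736) (.ev (nat_lit 2224) (nat_lit
 536870912) (.ev (nat_lit 2480) (nat_lit 33554432) (.ev (nat_lit 2832) (nat_lit 8589967360) .dd))))) (.ch
 (nat_lit 6) (.ev (nat_lit 1856) (nat_lit 4330651648) (.ev (nat_lit 2212) (nat_lit 8589934592) (.ev (nat_lit
 2480) (nat_lit 524288) (.ev (nat_lit 2493) (nat_lit 536870912) .dd)))))))))))))) (.ch (nat_lit 46) (.ev
 (nat_lit 52) (nat_lit 35189577814016) (.ev (nat_lit 212) (nat_lit 68719476736) (.ev (nat_lit 628) (nat_lit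
 17592186044416) (.ev (nat_lit 1216) (nat_lit 2129920) (.nd (nat_lit 1840) (.br (nat_lit 2) (.ch (nat_lit 0)
 (.ev (nat_lit 1856) (nat_lit 8724152836) (.nd (nat_lit 2992) (.br (nat_lit 5) (.ch (nat_lit 3) (.ev (nat_lit
 3008) (nat_lit 2147483648) (.ev (nat_lit 3021) (nat_lit 262144) .dd))) (.ch (nat_lit 5) (.fin (nat_lit
 576454704964780645))))))) (.br (nat_lit 6) (.ch (nat_lit 2) (.ev (nat_lit 1856) (nat_lit 8589935104) (.ev
 (nat_lit 1940) (nat_lit 134217728) (.ev (nat_lit 2000) (nat_lit 4) (.ev (nat_lit 2640) (nat_lit 2147483648)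
 (.ev (nat_lit 2653) (nat_lit 262144) .dd)))))) (.ch (nat_lit 6) (.ev (nat_lit 1856) (nat_lit 2281701380) (.ev
 (nat_lit 2400) (nat_lit 512) (.ev (nat_lit 2448) (nat_lit 8590196736) .dd))))))))))))))) (.br (nat_lit 50)
 (.br (nat_lit 48) (.ch (nat_lit 47) (.ev (nat_lit 52) (nat_lit 35184911421440) (.ev (nat_lit 84) (nat_lit 4)
 (.ev (nat_lit 276) (nat_lit 4294967296) (.ev (nat_lit 340) (nat_lit 17592186044416) (.ev (nat_lit 532)
 (nat_lit 524288) (.ev (nat_lit 1152) (nat_lit 2151677952) (.ev (nat_lit 1536) (nat_lit 33554432) (.nd (nat_lit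
 1840) (.br (nat_lit 3) (.ch (nat_lit 0) (.ev (nat_lit 1856) (nat_lit 68920803328) (.ev (nat_lit 2192) (nat_lit
 268435456) (.ev (nat_lit 2480) (nat_lit 8589935104) .dd)))) (.br (nat_lit 6) (.ch (nat_lit 3) (.ev (nat_lit
 1856) (nat_lit 77510738432) (.ev (nat_lit 1869) (nat_lit 268435456) .dd))) (.ch (nat_lit 6) (.ev (nat_lit
 1856) (nat_lit 512) (.ev (nat_lit 2212) (nat_lit 68719476736) (.ev (nat_lit 2256) (nat_lit 268435456) (.ev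
 (nat_lit 2576) (nat_lit 67108864) (.nd (nat_lit 2992) (.br (nat_lit 3) (.ch (nat_lit 0) (.ev (nat_lit 3008)
 (nat_lit 8724152320) .dd)) (.ch (nat_lit 3) (.fin (nat_lit 576465700060086835))))))))))))))))))))) (.br
 (nat_lit 49) (.ch (nat_lit 48) (.ev (nat_lit 52) (nat_lit 52845951160832) (.ev (nat_lit 148) (nat_lit 524288)
 (.ev (nat_lit 212) (nat_lit 4) (.ev (nat_lit 308) (nat_lit 2147483648) (.ev (nat_lit 532) (nat_lit 8589934592)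
 (.ev (nat_lit 628) (nat_lit 4294967296) (.ev (nat_lit 1040) (nat_lit 306184192) (.ev (nat_lit 1053) (nat_lit
 67108864) .dd))))))))) (.ch (nat_lit 49) (.ev (nat_lit 52) (nat_lit 35191592583172) (.ev (nat_lit 564)
 (nat_lit 512) (.ev (nat_lit 724) (nat_lit 17592186044416) (.ev (nat_lit 880) (nat_lit 68988436480) (.nd
 (nat_lit 1840) (.br (nat_lit 3) (.ch (nat_lit 0) (.ev (nat_lit 1856) (nat_lit 266240) (.ev (nat_lit 2432)
 (nat_lit 8590000128) (.ev (nat_lit 2445) (nat_lit 32768) .dd)))) (.br (nat_lit 5) (.ch (nat_lit 3) (.ev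
 (nat_lit 1856) (nat_lit 8590196736) (.ev (nat_lit 2432) (nat_lit 4096) (.ev (nat_lit 2656) (nat_lit 98304)
 .dd)))) (.ch (nat_lit 5) (.ev (nat_lit 1856) (nat_lit 8590004224) (.ev (nat_lit 2352) (nat_lit 262144) (.ev
 (nat_lit 2365) (nat_lit 32768) .dd)))))))))))))) (.br (nat_lit 51) (.ch (nat_lit 50) (.ev (nat_lit 52)
 (nat_lit 8589971972) (.ev (nat_lit 116) (nat_lit 67108864) (.ev (nat_lit 180) (nat_lit 2097152) (.ev (nat_lit
 276) (nat_lit 17592186044416) (.ev (nat_lit 628) (nat_lit 68719476736) (.ev (nat_lit 1232) (nat_lit 272629760)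
 (.nd (nat_lit 1840) (.br (nat_lit 5) (.br (nat_lit 3) (.ch (nat_lit 2) (.ev (nat_lit 1856) (nat_lit
 35185076731904) (.ev (nat_lit 1940) (nat_lit 262144) (.ev (nat_lit 2240) (nat_lit 589824) (.ev (nat_lit 2496)
 (nat_lit 6442450944) .dd))))) (.ch (nat_lit 3) (.ev (nat_lit 1856) (nat_lit 168558592) (.ev (nat_lit 2212)
 (nat_lit 35184372088832) (.ev (nat_lit 2560) (nat_lit 4294967296) (.ev (nat_lit 2676) (nat_lit 536870912) (.nd
 (nat_lit 2992) (.br (nat_lit 4) (.ch (nat_lit 2) (.ev (nat_lit 3008) (nat_lit 65536) (.ev (nat_lit 3021)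
 (nat_lit 2147483648) .dd))) (.ch (nat_lit 4) (.fin (nat_lit 576445908945158713))))))))))) (.br (nat_lit 6)
 (.ch (nat_lit 5) (.ev (nat_lit 1856) (nat_lit 35188667645952) (.ev (nat_lit 2212) (nat_lit 262144) (.ev
 (nat_lit 2560) (nat_lit 33554432) (.ev (nat_lit 2676) (nat_lit 2147483648) (.nd (nat_lit 2992) (.br (nat_lit
 6) (.ch (nat_lit 4) (.fin (nat_lit 576500884505576023))) (.ch (nat_lit 6) (.ev (nat_lit 3008) (nat_lit
 134217728) (.ev (nat_lit 3021) (nat_lit 536870912) .dd)))))))))) (.ch (nat_lit 6) (.ev (nat_lit 1856) (nat_lit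
 6442778624) (.ev (nat_lit 1940) (nat_lit 35184372088832) (.ev (nat_lit 2240) (nat_lit 134742016) (.ev (nat_lit
 2496) (nat_lit 570425344) .dd))))))))))))))) (.br (nat_lit 53) (.ch (nat_lit 51) (.ev (nat_lit 52) (nat_lit
 79765995524) (.ev (nat_lit 148) (nat_lit 65536) (.ev (nat_lit 532) (nat_lit 67108864) (.ev (nat_lit 672)
 (nat_lit 52781524193792) .dd))))) (.ch (nat_lit 53) (.ev (nat_lit 52) (nat_lit 75365614080) (.ev (nat_lit 116)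
 (nat_lit 17592186044416) (.ev (nat_lit 468) (nat_lit 4194304) (.ev (nat_lit 628) (nat_lit 524288) (.ev
 (nat_lit 788) (nat_lit 33554432) (.ev (nat_lit 1248) (nat_lit 35184372154368) (.ev (nat_lit 1792) (nat_lit
 268435456) (.nd (nat_lit 1840) (.br (nat_lit 3) (.ch (nat_lit 0) (.ev (nat_lit 1856) (nat_lit 8589967360) (.ev
 (nat_lit 1872) (nat_lit 4) (.ev (nat_lit 2112) (nat_lit 536870912) (.ev (nat_lit 2125) (nat_lit 4096) .dd)))))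
 (.br (nat_lit 5) (.ch (nat_lit 3) (.ev (nat_lit 1856) (nat_lit 8589971460) (.ev (nat_lit 1869) (nat_lit
 536870912) .dd))) (.ch (nat_lit 5) (.ev (nat_lit 1856) (nat_lit 536875008) (.ev (nat_lit 2080) (nat_lit 4)
 (.ev (nat_lit 2416) (nat_lit 32768) (.ev (nat_lit 2429) (nat_lit 8589934592) .dd)))))))))))))))))))) (.br
 (nat_lit 64) (.br (nat_lit 57) (.br (nat_lit 55) (.ch (nat_lit 54) (.ev (nat_lit 52) (nat_lit 7180910596) (.ev
 (nat_lit 84) (nat_lit 2097152) (.ev (nat_lit 276) (nat_lit 65536) (.ev (nat_lit 340) (nat_lit 8589934592) (.ev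
 (nat_lit 532) (nat_lit 4194304) (.ev (nat_lit 1024) (nat_lit 268992512) (.nd (nat_lit 1840) (.br (nat_lit 5)
 (.ch (nat_lit 2) (.ev (nat_lit 1856) (nat_lit 52845277614592) (.ev (nat_lit 1869) (nat_lit 33554432) .dd)))
 (.br (nat_lit 6) (.ch (nat_lit 5) (.ev (nat_lit 1856) (nat_lit 35184372093440) (.ev (nat_lit 2192) (nat_lit
 33554432) (.ev (nat_lit 2480) (nat_lit 17660905521152) .dd)))) (.ch (nat_lit 6) (.ev (nat_lit 1856) (nat_lit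
 68719476736) (.ev (nat_lit 2212) (nat_lit 512) (.ev (nat_lit 2256) (nat_lit 33554432) (.ev (nat_lit 2576)
 (nat_lit 35184372088832) (.nd (nat_lit 2992) (.br (nat_lit 4) (.ch (nat_lit 1) (.fin (nat_lit
 576465700154458675))) (.ch (nat_lit 4) (.ev (nat_lit 3008) (nat_lit 17592186048512) .dd)))))))))))))))))))
 (.ch (nat_lit 55) (.ev (nat_lit 52) (nat_lit 35184947298820) (.ev (nat_lit 84) (nat_lit 17592186044416) (.ev
 (nat_lit 372) (nat_lit 2147483648) (.ev (nat_lit 628) (nat_lit 2097152) (.ev (nat_lit 692) (nat_lit 32768)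
 (.ev (nat_lit 788) (nat_lit 4096) (.nd (nat_lit 1840) (.br (nat_lit 5) (.br (nat_lit 2) (.ch (nat_lit 0) (.ev
 (nat_lit 1856) (nat_lit 81805705216) (.ev (nat_lit 2256) (nat_lit 268435456) (.ev (nat_lit 2269) (nat_lit
 262144) .dd)))) (.ch (nat_lit 2) (.ev (nat_lit 1856) (nat_lit 73417097216) (.ev (nat_lit 2212) (nat_lit
 262144) (.ev (nat_lit 2560) (nat_lit 67108864) (.ev (nat_lit 2573) (nat_lit 8589934592) .dd)))))) (.br
 (nat_lit 6) (.ch (nat_lit 5) (.ev (nat_lit 1856) (nat_lit 8925741056) (.ev (nat_lit 2240) (nat_lit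
 68719476736) (.ev (nat_lit 2736) (nat_lit 4429185024) .dd)))) (.ch (nat_lit 6) (.ev (nat_lit 1856) (nat_lit
 4429185024) (.ev (nat_lit 2304) (nat_lit 68719476736) (.ev (nat_lit 2368) (nat_lit 268435456) (.ev (nat_lit
 2528) (nat_lit 67108864) (.ev (nat_lit 2676) (nat_lit 262144) (.ev (nat_lit 2685) (nat_lit 8589934592)
 .dd)))))))))))))))))) (.br (nat_lit 58) (.ch (nat_lit 57) (.ev (nat_lit 52) (nat_lit 17603192263168) (.ev
 (nat_lit 148) (nat_lit 35184372088832) (.ev (nat_lit 276) (nat_lit 524288) (.ev (nat_lit 468) (nat_lit 4) (.ev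
 (nat_lit 564) (nat_lit 2097152) (.ev (nat_lit 1664) (nat_lit 67108864) (.nd (nat_lit 1840) (.br (nat_lit 5)
 (.ch (nat_lit 3) (.ev (nat_lit 1856) (nat_lit 68891443200) (.ev (nat_lit 2032) (nat_lit 4294967296) (.ev
 (nat_lit 2045) (nat_lit 536870912) .dd)))) (.br (nat_lit 6) (.ch (nat_lit 5) (.ev (nat_lit 1856) (nat_lit
 138412032) (.ev (nat_lit 2000) (nat_lit 4294967296) (.ev (nat_lit 2320) (nat_lit 68719476736) (.ev (nat_lit
 2640) (nat_lit 33554432) (.ev (nat_lit 2653) (nat_lit 536870912) .dd)))))) (.ch (nat_lit 6) (.ev (nat_lit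
 1856) (nat_lit 73047998464) (.ev (nat_lit 2416) (nat_lit 134217728) (.ev (nat_lit 2464) (nat_lit 4194304) (.ev
 (nat_lit 2477) (nat_lit 536870912) .dd))))))))))))))) (.br (nat_lit 62) (.ch (nat_lit 58) (.ev (nat_lit 52)
 (nat_lit 52847731544580) (.ev (nat_lit 660) (nat_lit 524288) (.nd (nat_lit 1840) (.br (nat_lit 3) (.ch
 (nat_lit 2) (.ev (nat_lit 1856) (nat_lit 13558153216) (.ev (nat_lit 2212) (nat_lit 32768) (.ev (nat_lit 2221)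
 (nat_lit 67108864) .dd)))) (.br (nat_lit 6) (.ch (nat_lit 3) (.ev (nat_lit 1856) (nat_lit 9193947136) (.ev
 (nat_lit 2080) (nat_lit 4429185024) (.ev (nat_lit 2464) (nat_lit 2162688) .dd)))) (.ch (nat_lit 6) (.ev
 (nat_lit 1856) (nat_lit 4431380480) (.ev (nat_lit 2496) (nat_lit 67108864) (.ev (nat_lit 2704) (nat_lit
 9126805504) .dd)))))))))) (.ch (nat_lit 62) (.ev (nat_lit 52) (nat_lit 17605746327552) (.ev (nat_lit 116)
 (nat_lit 68719476736) (.ev (nat_lit 148) (nat_lit 512) (.ev (nat_lit 308) (nat_lit 33554432) (.ev (nat_lit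
 596) (nat_lit 35184372088832) (.ev (nat_lit 660) (nat_lit 67108864) (.ev (nat_lit 1408) (nat_lit 4) (.nd
 (nat_lit 1840) (.br (nat_lit 5) (.ch (nat_lit 0) (.ev (nat_lit 1856) (nat_lit 2148274176) (.ev (nat_lit 2368)
 (nat_lit 268435456) (.ev (nat_lit 2381) (nat_lit 2097152) .dd)))) (.br (nat_lit 6) (.ch (nat_lit 5) (.ev
 (nat_lit 1856) (nat_lit 268701696) (.ev (nat_lit 1888) (nat_lit 2147483648) (.ev (nat_lit 2416) (nat_lit
 2097152) (.ev (nat_lit 2429) (nat_lit 524288) .dd))))) (.ch (nat_lit 6) (.ev (nat_lit 1856) (nat_lit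
 2150105088) (.ev (nat_lit 2112) (nat_lit 268435456) (.ev (nat_lit 2880) (nat_lit 266240) .dd))))))))))))))))))
 (.br (nat_lit 68) (.br (nat_lit 65) (.ch (nat_lit 64) (.ev (nat_lit 52) (nat_lit 35260070887940) (.ev (nat_lit
 212) (nat_lit 17592186044416) (.ev (nat_lit 352) (nat_lit 9100431360) .dd)))) (.br (nat_lit 67) (.ch (nat_lit
 65) (.ev (nat_lit 52) (nat_lit 17600977371648) (.ev (nat_lit 116) (nat_lit 4194304) (.ev (nat_lit 308)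
 (nat_lit 536870912) (.ev (nat_lit 660) (nat_lit 68719476736) (.ev (nat_lit 756) (nat_lit 2147745792) (.ev
 (nat_lit 1120) (nat_lit 35184640528384) (.nd (nat_lit 1840) (.br (nat_lit 5) (.ch (nat_lit 2) (.ev (nat_lit
 1856) (nat_lit 2097152) (.ev (nat_lit 2272) (nat_lit 33554432) (.ev (nat_lit 2496) (nat_lit 524288) (.ev
 (nat_lit 2592) (nat_lit 4) (.fin (nat_lit 576476695270736455))))))) (.ch (nat_lit 5) (.ev (nat_lit 1856)
 (nat_lit 33554432) (.ev (nat_lit 1872) (nat_lit 524292) (.ev (nat_lit 2336) (nat_lit 4297097216)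
 .dd))))))))))))) (.ch (nat_lit 67) (.ev (nat_lit 52) (nat_lit 10777591808) (.ev (nat_lit 84) (nat_lit
 67108864) (.ev (nat_lit 180) (nat_lit 524288) (.ev (nat_lit 372) (nat_lit 268435456) (.ev (nat_lit 500)
 (nat_lit 17592186044416) (.ev (nat_lit 564) (nat_lit 35184372088832) (.ev (nat_lit 1264) (nat_lit 68853694464)
 (.nd (nat_lit 1840) (.br (nat_lit 2) (.ch (nat_lit 0) (.ev (nat_lit 1856) (nat_lit 4295000580) (.nd (nat_lit
 2992) (.br (nat_lit 6) (.ch (nat_lit 3) (.ev (nat_lit 3008) (nat_lit 536870912) (.ev (nat_lit 3021) (nat_lit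
 4096) .dd))) (.ch (nat_lit 6) (.fin (nat_lit 576421719668376105))))))) (.br (nat_lit 3) (.ch (nat_lit 2) (.ev
 (nat_lit 1856) (nat_lit 536904192) (.ev (nat_lit 2400) (nat_lit 4294967296) (.ev (nat_lit 2448) (nat_lit 4100)
 .dd)))) (.ch (nat_lit 3) (.ev (nat_lit 1856) (nat_lit 4294967300) (.ev (nat_lit 1940) (nat_lit 512) (.ev
 (nat_lit 2000) (nat_lit 32768) (.ev (nat_lit 2640) (nat_lit 536870912) (.ev (nat_lit 2653) (nat_lit 4096)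
 .dd))))))))))))))))))) (.br (nat_lit 69) (.ch (nat_lit 68) (.ev (nat_lit 52) (nat_lit 35253091930628) (.ev
 (nat_lit 116) (nat_lit 8589934592) (.ev (nat_lit 468) (nat_lit 524288) (.ev (nat_lit 628) (nat_lit 4194304)
 (.ev (nat_lit 788) (nat_lit 268435456) (.ev (nat_lit 944) (nat_lit 4362076160) (.ev (nat_lit 1808) (nat_lit
 33554432) (.nd (nat_lit 1840) (.br (nat_lit 2) (.ch (nat_lit 0) (.ev (nat_lit 1856) (nat_lit 671088640) (.ev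
 (nat_lit 2080) (nat_lit 2097152) (.ev (nat_lit 2416) (nat_lit 2147483648) (.ev (nat_lit 2429) (nat_lit
 17592186044416) .dd))))) (.br (nat_lit 5) (.ch (nat_lit 2) (.ev (nat_lit 1856) (nat_lit 17594469842944) (.ev
 (nat_lit 1869) (nat_lit 536870912) .dd))) (.ch (nat_lit 5) (.ev (nat_lit 1856) (nat_lit 17594333528064) (.ev
 (nat_lit 1872) (nat_lit 2097152) (.ev (nat_lit 2112) (nat_lit 536870912) (.ev (nat_lit 2125) (nat_lit
 134217728) .dd)))))))))))))))) (.br (nat_lit 70) (.ch (nat_lit 69) (.ev (nat_lit 52) (nat_lit 52789852798980)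
 (.ev (nat_lit 436) (nat_lit 65536) (.ev (nat_lit 1472) (nat_lit 68719476736) (.ev (nat_lit 1776) (nat_lit 512)
 (.nd (nat_lit 1840) (.br (nat_lit 3) (.ch (nat_lit 2) (.ev (nat_lit 1856) (nat_lit 2181042176) (.ev (nat_lit
 2128) (nat_lit 536870912) (.ev (nat_lit 2141) (nat_lit 67108864) .dd)))) (.br (nat_lit 6) (.ch (nat_lit 3)
 (.ev (nat_lit 1856) (nat_lit 100667392) (.ev (nat_lit 2694) (nat_lit 2684354560) .dd))) (.ch (nat_lit 6) (.ev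
 (nat_lit 1856) (nat_lit 2147483648) (.ev (nat_lit 2048) (nat_lit 4096) (.ev (nat_lit 2480) (nat_lit 33554432)
 (.ev (nat_lit 2656) (nat_lit 603979776) .dd))))))))))))) (.ch (nat_lit 70) (.ev (nat_lit 52) (nat_lit
 52846116737024) (.ev (nat_lit 224) (nat_lit 15240626692) .dd)))))))))))

/-- The trie. -/
noncomputable def T : Tr := .nd (nat_lit 1000000) (.br (nat_lit 1) (.ch (nat_lit 0) (.ev (nat_lit 0) (nat_lit 140737488355327) .dd)) (.br (nat_lit 3) (.ch (nat_lit 1) T1) (.ch (nat_lit 3) T3)))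

/-- The possible values. -/
noncomputable def oks : List ℕ := [1485, 4540]

/-- The parameters. -/
noncomputable def S : Pr := ⟨fun i l e => lget mz (lget [] (lget [] tabs i) l) e, oks, [(nat_lit 0), (nat_lit
 1), (nat_lit 0), (nat_lit 0)], T, (nat_lit 140737488355327), (nat_lit 12800101590481), (nat_lit 47), [(nat_lit
 1), (nat_lit 87122173451996128837)], [(nat_lit 343), (nat_lit 5041)]⟩

/-- Nothing known. -/
noncomputable def cs0 : Cs := (.cons (nat_lit 7) (nat_lit 0) (nat_lit 1) (.cons (nat_lit 71) (nat_lit 0) (nat_lit 1) .nil))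

theorem part_1 : part S cs0 (nat_lit 1) = true := by decide +kernel

theorem part_3 : part S cs0 (nat_lit 3) = true := by decide +kernel

/-- Data of a prime. -/
noncomputable def D0 : PD := ⟨(nat_lit 7), (nat_lit 3), (224, 1, 2), (328, 287, 60), (329, 250, 221)⟩

theorem D0_ok : D0.Ok := pdb_sound (s := 1) (C := ⟨⟨7, -2, -11, 7, 2, 4, 0, 3, -1⟩, (5, 2, 3)⟩) (by show Nat.Prime 7; norm_num) (by decide +kernel)

/-- Lines of the first type. -/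
noncomputable def Cl0 : List C1 := [⟨⟨7, 2, -11, 7, -2, 4, 0, -3, -1⟩, (6, 1, 5)⟩,
  ⟨⟨0, 0, 0, 0, 0, 0, 0, 0, 0⟩, (0, 0, 0)⟩,
  ⟨⟨0, 0, 0, 0, 0, 0, 0, 0, 0⟩, (0, 0, 0)⟩,
  ⟨⟨0, 0, 0, 0, 0, 0, 0, 0, 0⟩, (0, 0, 0)⟩,
  ⟨⟨0, 0, 0, 0, 0, 0, 0, 0, 0⟩, (0, 0, 0)⟩,
  ⟨⟨0, 0, 0, 0, 0, 0, 0, 0, 0⟩, (0, 0, 0)⟩,
  ⟨⟨0, 0, 0, 0, 0, 0, 0, 0, 0⟩, (0, 0, 0)⟩]

/-- Data of a prime. -/
noncomputable def D1 : PD := ⟨(nat_lit 71), (nat_lit 2), (72, 9, 33), (3977, 4536, 3372), (4173, 4400, 3526)⟩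

theorem D1_ok : D1.Ok := pdb_sound (s := 11) (C := ⟨⟨59, 34, -112, -29, 94, 37, -24, -3, -11⟩, (59, 42, 47)⟩) (by show Nat.Prime 71; norm_num) (by decide +kernel)

/-- Lines of the first type. -/
noncomputable def Cl1 : List C1 := [⟨⟨-59, -34, -53, 29, -94, 8, 24, 3, -35⟩, (17, 47, 34)⟩,
  ⟨⟨0, 0, 0, 0, 0, 0, 0, 0, 0⟩, (0, 0, 0)⟩,
  ⟨⟨49, -74, -77, 79, 14, 28, 12, 21, -29⟩, (59, 56, 13)⟩,
  ⟨⟨0, 0, 0, 0, 0, 0, 0, 0, 0⟩, (0, 0, 0)⟩,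
  ⟨⟨0, 0, 0, 0, 0, 0, 0, 0, 0⟩, (0, 0, 0)⟩,
  ⟨⟨0, 0, 0, 0, 0, 0, 0, 0, 0⟩, (0, 0, 0)⟩,
  ⟨⟨79, -14, -107, 49, 74, 28, -12, 21, -17⟩, (44, 21, 5)⟩,
  ⟨⟨0, 0, 0, 0, 0, 0, 0, 0, 0⟩, (0, 0, 0)⟩,
  ⟨⟨0, 0, 0, 0, 0, 0, 0, 0, 0⟩, (0, 0, 0)⟩,
  ⟨⟨39, 66, -92, -89, 46, 37, -8, -19, -23⟩, (13, 65, 21)⟩,
  ⟨⟨19, 46, -107, -91, -26, 8, 12, -27, -19⟩, (7, 30, 53)⟩,
  ⟨⟨0, 0, 0, 0, 0, 0, 0, 0, 0⟩, (0, 0, 0)⟩,
  ⟨⟨0, 0, 0, 0, 0, 0, 0, 0, 0⟩, (0, 0, 0)⟩,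
  ⟨⟨99, 6, -67, 11, -94, 32, -4, -11, -31⟩, (13, 33, 59)⟩,
  ⟨⟨-39, -66, -53, -89, 46, 52, 8, 19, -31⟩, (17, 57, 22)⟩,
  ⟨⟨0, 0, 0, 0, 0, 0, 0, 0, 0⟩, (0, 0, 0)⟩,
  ⟨⟨0, 0, 0, 0, 0, 0, 0, 0, 0⟩, (0, 0, 0)⟩,
  ⟨⟨19, -46, -107, -91, 26, 8, 12, 27, -19⟩, (15, 44, 2)⟩,
  ⟨⟨0, 0, 0, 0, 0, 0, 0, 0, 0⟩, (0, 0, 0)⟩,
  ⟨⟨0, 0, 0, 0, 0, 0, 0, 0, 0⟩, (0, 0, 0)⟩,
  ⟨⟨51, 66, -88, -59, 74, 67, -20, -5, -17⟩, (59, 64, 59)⟩,
  ⟨⟨49, 74, -77, 79, -14, 28, 12, -21, -29⟩, (6, 43, 29)⟩,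
  ⟨⟨0, 0, 0, 0, 0, 0, 0, 0, 0⟩, (0, 0, 0)⟩,
  ⟨⟨0, 0, 0, 0, 0, 0, 0, 0, 0⟩, (0, 0, 0)⟩,
  ⟨⟨0, 0, 0, 0, 0, 0, 0, 0, 0⟩, (0, 0, 0)⟩,
  ⟨⟨31, 74, -83, -81, 54, 68, -16, -13, -19⟩, (8, 2, 60)⟩,
  ⟨⟨0, 0, 0, 0, 0, 0, 0, 0, 0⟩, (0, 0, 0)⟩,
  ⟨⟨11, 94, -43, -99, 6, 32, 4, -11, -35⟩, (69, 18, 38)⟩,
  ⟨⟨-51, 66, -37, 59, 74, 8, 20, -5, -37⟩, (25, 56, 25)⟩,
  ⟨⟨0, 0, 0, 0, 0, 0, 0, 0, 0⟩, (0, 0, 0)⟩,
  ⟨⟨39, -66, -92, -89, -46, 37, -8, 19, -23⟩, (43, 2, 64)⟩,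
  ⟨⟨0, 0, 0, 0, 0, 0, 0, 0, 0⟩, (0, 0, 0)⟩,
  ⟨⟨59, -34, -112, -29, -94, 37, -24, 3, -11⟩, (9, 4, 18)⟩,
  ⟨⟨0, 0, 0, 0, 0, 0, 0, 0, 0⟩, (0, 0, 0)⟩,
  ⟨⟨0, 0, 0, 0, 0, 0, 0, 0, 0⟩, (0, 0, 0)⟩,
  ⟨⟨-59, 34, -53, 29, 94, 8, 24, -3, -35⟩, (8, 43, 16)⟩,
  ⟨⟨0, 0, 0, 0, 0, 0, 0, 0, 0⟩, (0, 0, 0)⟩,
  ⟨⟨11, -94, -43, -99, -6, 32, 4, 11, -35⟩, (2, 53, 33)⟩,
  ⟨⟨0, 0, 0, 0, 0, 0, 0, 0, 0⟩, (0, 0, 0)⟩,
  ⟨⟨0, 0, 0, 0, 0, 0, 0, 0, 0⟩, (0, 0, 0)⟩,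
  ⟨⟨51, -66, -88, -59, -74, 67, -20, 5, -17⟩, (18, 46, 18)⟩,
  ⟨⟨-19, -46, -88, -91, -26, 83, -12, 27, -7⟩, (26, 61, 65)⟩,
  ⟨⟨0, 0, 0, 0, 0, 0, 0, 0, 0⟩, (0, 0, 0)⟩,
  ⟨⟨0, 0, 0, 0, 0, 0, 0, 0, 0⟩, (0, 0, 0)⟩,
  ⟨⟨0, 0, 0, 0, 0, 0, 0, 0, 0⟩, (0, 0, 0)⟩,
  ⟨⟨-19, 46, -88, -91, 26, 83, -12, -27, -7⟩, (18, 4, 45)⟩,
  ⟨⟨0, 0, 0, 0, 0, 0, 0, 0, 0⟩, (0, 0, 0)⟩,
  ⟨⟨0, 0, 0, 0, 0, 0, 0, 0, 0⟩, (0, 0, 0)⟩,
  ⟨⟨0, 0, 0, 0, 0, 0, 0, 0, 0⟩, (0, 0, 0)⟩,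
  ⟨⟨0, 0, 0, 0, 0, 0, 0, 0, 0⟩, (0, 0, 0)⟩,
  ⟨⟨0, 0, 0, 0, 0, 0, 0, 0, 0⟩, (0, 0, 0)⟩,
  ⟨⟨0, 0, 0, 0, 0, 0, 0, 0, 0⟩, (0, 0, 0)⟩,
  ⟨⟨99, -6, -67, 11, 94, 32, -4, 11, -31⟩, (48, 29, 54)⟩,
  ⟨⟨0, 0, 0, 0, 0, 0, 0, 0, 0⟩, (0, 0, 0)⟩,
  ⟨⟨0, 0, 0, 0, 0, 0, 0, 0, 0⟩, (0, 0, 0)⟩,
  ⟨⟨0, 0, 0, 0, 0, 0, 0, 0, 0⟩, (0, 0, 0)⟩,
  ⟨⟨-51, -66, -37, 59, -74, 8, 20, 5, -37⟩, (55, 38, 55)⟩,
  ⟨⟨0, 0, 0, 0, 0, 0, 0, 0, 0⟩, (0, 0, 0)⟩,
  ⟨⟨0, 0, 0, 0, 0, 0, 0, 0, 0⟩, (0, 0, 0)⟩,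
  ⟨⟨-31, -74, -52, -81, 54, 13, 16, 13, -35⟩, (64, 55, 54)⟩,
  ⟨⟨-31, 74, -52, -81, -54, 13, 16, -13, -35⟩, (11, 15, 47)⟩,
  ⟨⟨-39, 66, -53, -89, -46, 52, 8, -19, -31⟩, (58, 65, 50)⟩,
  ⟨⟨0, 0, 0, 0, 0, 0, 0, 0, 0⟩, (0, 0, 0)⟩,
  ⟨⟨79, 14, -107, 49, -74, 28, -12, -21, -17⟩, (57, 3, 21)⟩,
  ⟨⟨0, 0, 0, 0, 0, 0, 0, 0, 0⟩, (0, 0, 0)⟩,
  ⟨⟨0, 0, 0, 0, 0, 0, 0, 0, 0⟩, (0, 0, 0)⟩,
  ⟨⟨31, -74, -83, -81, -54, 68, -16, 13, -19⟩, (61, 33, 67)⟩,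
  ⟨⟨0, 0, 0, 0, 0, 0, 0, 0, 0⟩, (0, 0, 0)⟩,
  ⟨⟨0, 0, 0, 0, 0, 0, 0, 0, 0⟩, (0, 0, 0)⟩,
  ⟨⟨0, 0, 0, 0, 0, 0, 0, 0, 0⟩, (0, 0, 0)⟩,
  ⟨⟨0, 0, 0, 0, 0, 0, 0, 0, 0⟩, (0, 0, 0)⟩]

/-- Data of a prime. -/
noncomputable def Dm : PD := ⟨(nat_lit 47), (nat_lit 2), (1034, 1, 9), (105, 517, 2039), (987, 5, 190)⟩

theorem Dm_ok : Dm.Ok := pdb_sound (s := 1) (C := ⟨⟨47, 2, -76, 47, -2, 29, 0, -21, -1⟩, (2, 45, 26)⟩) (by show Nat.Prime 47; norm_num) (by decide +kernel)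

/-- Lines of the first type. -/
noncomputable def Clm : List C1 := [⟨⟨47, -2, -76, 47, 2, 29, 0, 21, -1⟩, (9, 38, 23)⟩,
  ⟨⟨0, 0, 0, 0, 0, 0, 0, 0, 0⟩, (0, 0, 0)⟩,
  ⟨⟨0, 0, 0, 0, 0, 0, 0, 0, 0⟩, (0, 0, 0)⟩,
  ⟨⟨0, 0, 0, 0, 0, 0, 0, 0, 0⟩, (0, 0, 0)⟩,
  ⟨⟨17, 22, -76, -63, 18, 19, -4, -19, -7⟩, (10, 21, 17)⟩,
  ⟨⟨0, 0, 0, 0, 0, 0, 0, 0, 0⟩, (0, 0, 0)⟩,
  ⟨⟨57, -18, -61, -23, -62, 4, -8, 5, -17⟩, (3, 26, 7)⟩,
  ⟨⟨57, 18, -61, -23, 62, 4, -8, -5, -17⟩, (16, 29, 6)⟩,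
  ⟨⟨53, -22, -64, -13, -62, 29, -12, -3, -13⟩, (46, 10, 2)⟩,
  ⟨⟨0, 0, 0, 0, 0, 0, 0, 0, 0⟩, (0, 0, 0)⟩,
  ⟨⟨43, -38, -59, 3, -42, 56, -16, -11, -1⟩, (35, 9, 46)⟩,
  ⟨⟨0, 0, 0, 0, 0, 0, 0, 0, 0⟩, (0, 0, 0)⟩,
  ⟨⟨0, 0, 0, 0, 0, 0, 0, 0, 0⟩, (0, 0, 0)⟩,
  ⟨⟨-17, -22, -59, -63, 18, 44, 4, 19, -11⟩, (15, 39, 2)⟩,
  ⟨⟨0, 0, 0, 0, 0, 0, 0, 0, 0⟩, (0, 0, 0)⟩,
  ⟨⟨0, 0, 0, 0, 0, 0, 0, 0, 0⟩, (0, 0, 0)⟩,
  ⟨⟨0, 0, 0, 0, 0, 0, 0, 0, 0⟩, (0, 0, 0)⟩,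
  ⟨⟨53, 22, -64, -13, 62, 29, -12, 3, -13⟩, (41, 13, 12)⟩,
  ⟨⟨0, 0, 0, 0, 0, 0, 0, 0, 0⟩, (0, 0, 0)⟩,
  ⟨⟨0, 0, 0, 0, 0, 0, 0, 0, 0⟩, (0, 0, 0)⟩,
  ⟨⟨0, 0, 0, 0, 0, 0, 0, 0, 0⟩, (0, 0, 0)⟩,
  ⟨⟨0, 0, 0, 0, 0, 0, 0, 0, 0⟩, (0, 0, 0)⟩,
  ⟨⟨0, 0, 0, 0, 0, 0, 0, 0, 0⟩, (0, 0, 0)⟩,
  ⟨⟨43, 38, -59, 3, 42, 56, -16, 11, -1⟩, (5, 8, 20)⟩,
  ⟨⟨3, -42, -59, 43, -38, 16, 16, 11, -17⟩, (39, 42, 20)⟩,
  ⟨⟨0, 0, 0, 0, 0, 0, 0, 0, 0⟩, (0, 0, 0)⟩,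
  ⟨⟨0, 0, 0, 0, 0, 0, 0, 0, 0⟩, (0, 0, 0)⟩,
  ⟨⟨0, 0, 0, 0, 0, 0, 0, 0, 0⟩, (0, 0, 0)⟩,
  ⟨⟨0, 0, 0, 0, 0, 0, 0, 0, 0⟩, (0, 0, 0)⟩,
  ⟨⟨0, 0, 0, 0, 0, 0, 0, 0, 0⟩, (0, 0, 0)⟩,
  ⟨⟨-13, -62, -16, 53, -22, 11, 12, 3, -25⟩, (34, 6, 12)⟩,
  ⟨⟨0, 0, 0, 0, 0, 0, 0, 0, 0⟩, (0, 0, 0)⟩,
  ⟨⟨0, 0, 0, 0, 0, 0, 0, 0, 0⟩, (0, 0, 0)⟩,
  ⟨⟨0, 0, 0, 0, 0, 0, 0, 0, 0⟩, (0, 0, 0)⟩,
  ⟨⟨17, -22, -76, -63, -18, 19, -4, 19, -7⟩, (15, 8, 2)⟩,
  ⟨⟨0, 0, 0, 0, 0, 0, 0, 0, 0⟩, (0, 0, 0)⟩,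
  ⟨⟨0, 0, 0, 0, 0, 0, 0, 0, 0⟩, (0, 0, 0)⟩,
  ⟨⟨3, 42, -59, 43, 38, 16, 16, -11, -17⟩, (38, 12, 46)⟩,
  ⟨⟨0, 0, 0, 0, 0, 0, 0, 0, 0⟩, (0, 0, 0)⟩,
  ⟨⟨-13, 62, -16, 53, 22, 11, 12, -3, -25⟩, (37, 1, 2)⟩,
  ⟨⟨23, 62, -19, 57, -18, 4, 8, -5, -25⟩, (29, 31, 6)⟩,
  ⟨⟨23, -62, -19, 57, 18, 4, 8, 5, -25⟩, (26, 44, 7)⟩,
  ⟨⟨0, 0, 0, 0, 0, 0, 0, 0, 0⟩, (0, 0, 0)⟩,
  ⟨⟨-17, 22, -59, -63, -18, 44, 4, -19, -11⟩, (10, 26, 17)⟩,
  ⟨⟨0, 0, 0, 0, 0, 0, 0, 0, 0⟩, (0, 0, 0)⟩,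
  ⟨⟨0, 0, 0, 0, 0, 0, 0, 0, 0⟩, (0, 0, 0)⟩,
  ⟨⟨0, 0, 0, 0, 0, 0, 0, 0, 0⟩, (0, 0, 0)⟩]

/-- Unit moves. -/
noncomputable def U : List Mv := [mz,
  mz,
  ⟨⟨1, 0, 0, 0, -1, 0, 0, 0, 1⟩, .nil, (nat_lit 0), (nat_lit 2), (nat_lit 1), (nat_lit 0), (0, 0, 0), [], 2⟩,
  mz,
  ⟨⟨-1, 0, 1, 0, 1, 0, 0, 0, 1⟩, .nil, (nat_lit 6), (nat_lit 0), (nat_lit 0), (nat_lit 1), (0, 0, 0), [], 1⟩,
  ⟨⟨-1, 0, 1, 0, -1, 0, 0, 0, 1⟩, .nil, (nat_lit 0), (nat_lit 5), (nat_lit 1), (nat_lit 0), (0, 0, 0), [], 2⟩,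
  ⟨⟨-1, 0, 1, 0, 1, 0, 0, 0, 1⟩, .nil, (nat_lit 6), (nat_lit 0), (nat_lit 0), (nat_lit 1), (0, 0, 0), [], 1⟩]

theorem v_ty : tyb Dm S.ty1 Clm = true := by decide +kernel

theorem v_ty0 : tyb D0 (S.tys.getD 0 0) Cl0 = true := by decide +kernel

theorem v_ty1 : tyb D1 (S.tys.getD 1 0) Cl1 = true := by decide +kernel

theorem v_msc : mscb S D0 [D1] Dm (nat_lit 10) = true := by decide +kernel

theorem v_mv0 : mvsn (nat_lit 3819500167) S D0 [D1] Dm (nat_lit 10) 0 D0 = true := by decide +kernel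

theorem v_mv1 : mvsn (nat_lit 3819500167) S D0 [D1] Dm (nat_lit 10) 1 D1 = true := by decide +kernel

theorem v_mm : mmsn (nat_lit 3819500167) S D0 [D1] Dm (nat_lit 10) = true := by decide +kernel

theorem v_un : unb S D0 (nat_lit 10) U = true := by decide +kernel

theorem v_ok : okb S.oks [(1, 38, 2), (0, 0, 0)] = true := by decide +kernel

theorem v_part : ∀ d < D0.p, (nat_lit 10).testBit d = true → part S (zc (D0 :: [D1])) d = true := by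
  intro d hd h
  have h1 : ∀ d < 7, (nat_lit 10).testBit d = true → d = 1 ∨ d = 3 := by decide
  rcases h1 d hd h with rfl | rfl
  · exact part_1
  · exact part_3

theorem main (n : ℕ) (ho : Odd n) (hr : ¬ Rep n) (h0 : Split 7 n) (h1 : Split 71 n) (hm : Split 47 n) :
    n ∈ EE := by
  refine concln (W := nat_lit 3819500167) (S := S) (P0 := D0) (Pl := [D1]) (Pm := Dm) (cn := nat_lit 10) ?_ Dm_ok v_ty ?_ ?_ v_msc ?_ v_mm v_un v_part v_ok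
    n ho hr ?_ hm
  · simp only [List.forall_mem_cons]
    exact ⟨D0_ok, D1_ok, fun _ h => absurd h (by simp)⟩
  · exact all2 (φ := fun j P => ∃ L, tyb P (S.tys.getD j 0) L = true) ⟨_, v_ty0⟩ ⟨_, v_ty1⟩
  · exact all2 (φ := fun j P => Nat.ble (S.pks.getD j 0) (Nat.pow P.p P.K) = true) (by decide +kernel) (by decide +kernel)
  · exact all2 (φ := fun i P => mvsn (nat_lit 3819500167) S D0 [D1] Dm (nat_lit 10) i P = true) v_mv0 v_mv1
  · simp only [List.forall_mem_cons]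
    exact ⟨h0, h1, fun _ h => absurd h (by simp)⟩

end Pool.Agent.Work.MP_9954fe_nt.P7_71_47

namespace Pool.Agent.Work.MP_9954fe_nt.P7_71_53

/-- Dummy move. -/
noncomputable def mz : Mv := ⟨⟨0, 0, 0, 0, 0, 0, 0, 0, 0⟩, .nil, (nat_lit 0), (nat_lit 0), (nat_lit 0), (nat_lit 0), (0, 0, 0), [], 0⟩

/-- Moves. -/
noncomputable def t0_1 : List Mv := [
  ⟨⟨-3, 4, -5, 2, -5, -6, 4, 4, -5⟩, (.cons (nat_lit 46) (nat_lit 1) (nat_lit 40) (nat_lit 1) (.cons (nat_lit 968) (nat_lit 4586) (nat_lit 118) (nat_lit 1) .nil)), (nat_lit 34), (nat_lit 43), (nat_lit 9), (nat_lit 1), (3, 5, 3), [43, 510], 33⟩,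
  ⟨⟨-3, 4, -5, -2, 5, 6, 4, 4, -5⟩, (.cons (nat_lit 45) (nat_lit 30) (nat_lit 18) (nat_lit 1) (.cons (nat_lit 4394) (nat_lit 4680) (nat_lit 2332) (nat_lit 1) .nil)), (nat_lit 50), (nat_lit 11), (nat_lit 28), (nat_lit 1), (3, 2, 3), [44, 547], 49⟩,
  ⟨⟨7, 0, 0, 2, -5, -6, 4, 4, -5⟩, (.cons (nat_lit 31) (nat_lit 13) (nat_lit 47) (nat_lit 1) (.cons (nat_lit 2432) (nat_lit 1754) (nat_lit 1090) (nat_lit 1) .nil)), (nat_lit 13), (nat_lit 44), (nat_lit 19), (nat_lit 1), (0, 5, 3), [8, 2736], 16⟩,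
  ⟨⟨-3, 4, -5, 2, -5, -6, 4, 4, -5⟩, (.cons (nat_lit 46) (nat_lit 1) (nat_lit 40) (nat_lit 1) (.cons (nat_lit 968) (nat_lit 4586) (nat_lit 118) (nat_lit 1) .nil)), (nat_lit 34), (nat_lit 43), (nat_lit 9), (nat_lit 1), (3, 5, 3), [43, 510], 33⟩,
  ⟨⟨-3, 4, -5, 2, -5, -6, 4, 4, -5⟩, (.cons (nat_lit 46) (nat_lit 1) (nat_lit 40) (nat_lit 1) (.cons (nat_lit 968) (nat_lit 4586) (nat_lit 118) (nat_lit 1) .nil)), (nat_lit 34), (nat_lit 43), (nat_lit 9), (nat_lit 1), (3, 5, 3), [43, 510], 33⟩,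
  ⟨⟨-3, 4, -5, 2, -5, -6, 4, 4, -5⟩, (.cons (nat_lit 46) (nat_lit 1) (nat_lit 40) (nat_lit 1) (.cons (nat_lit 968) (nat_lit 4586) (nat_lit 118) (nat_lit 1) .nil)), (nat_lit 34), (nat_lit 43), (nat_lit 9), (nat_lit 1), (3, 5, 3), [43, 510], 33⟩,
  ⟨⟨7, 0, 0, 2, -5, -6, 4, 4, -5⟩, (.cons (nat_lit 31) (nat_lit 13) (nat_lit 47) (nat_lit 1) (.cons (nat_lit 2432) (nat_lit 1754) (nat_lit 1090) (nat_lit 1) .nil)), (nat_lit 13), (nat_lit 44), (nat_lit 19), (nat_lit 1), (0, 5, 3), [8, 2736], 16⟩]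

/-- Moves. -/
noncomputable def t0_3 : List Mv := [
  ⟨⟨1, 0, -9, 0, -7, 0, 6, 0, -5⟩, (.cons (nat_lit 48) (nat_lit 29) (nat_lit 47) (nat_lit 1) (.cons (nat_lit 4587) (nat_lit 4164) (nat_lit 491) (nat_lit 1) .nil)), (nat_lit 32), (nat_lit 8), (nat_lit 14), (nat_lit 1), (2, 0, 5), [41, 3447], 30⟩,
  ⟨⟨1, 0, -9, 0, -7, 0, 6, 0, -5⟩, (.cons (nat_lit 48) (nat_lit 29) (nat_lit 47) (nat_lit 1) (.cons (nat_lit 4587) (nat_lit 4164) (nat_lit 491) (nat_lit 1) .nil)), (nat_lit 32), (nat_lit 8), (nat_lit 14), (nat_lit 1), (2, 0, 5), [41, 3447], 30⟩,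
  ⟨⟨5, 0, 4, 0, 7, 0, 6, 0, -5⟩, (.cons (nat_lit 4) (nat_lit 19) (nat_lit 20) (nat_lit 1) (.cons (nat_lit 5040) (nat_lit 3349) (nat_lit 1157) (nat_lit 1) .nil)), (nat_lit 52), (nat_lit 34), (nat_lit 4), (nat_lit 1), (3, 0, 5), [33, 2978], 5⟩,
  ⟨⟨5, 0, 4, 0, -7, 0, 6, 0, -5⟩, (.cons (nat_lit 15) (nat_lit 34) (nat_lit 40) (nat_lit 1) (.cons (nat_lit 5040) (nat_lit 4098) (nat_lit 4709) (nat_lit 1) .nil)), (nat_lit 52), (nat_lit 27), (nat_lit 3), (nat_lit 1), (3, 0, 5), [27, 1296], 9⟩,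
  ⟨⟨1, 0, -9, 0, -7, 0, 6, 0, -5⟩, (.cons (nat_lit 48) (nat_lit 29) (nat_lit 47) (nat_lit 1) (.cons (nat_lit 4587) (nat_lit 4164) (nat_lit 491) (nat_lit 1) .nil)), (nat_lit 32), (nat_lit 8), (nat_lit 14), (nat_lit 1), (2, 0, 5), [41, 3447], 30⟩,
  ⟨⟨1, 0, -9, 0, 7, 0, 6, 0, -5⟩, (.cons (nat_lit 31) (nat_lit 23) (nat_lit 6) (nat_lit 1) (.cons (nat_lit 2972) (nat_lit 2713) (nat_lit 4505) (nat_lit 1) .nil)), (nat_lit 42), (nat_lit 14), (nat_lit 51), (nat_lit 1), (2, 0, 5), [40, 2037], 13⟩,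
  ⟨⟨1, 0, -9, 0, -7, 0, 6, 0, -5⟩, (.cons (nat_lit 48) (nat_lit 29) (nat_lit 47) (nat_lit 1) (.cons (nat_lit 4587) (nat_lit 4164) (nat_lit 491) (nat_lit 1) .nil)), (nat_lit 32), (nat_lit 8), (nat_lit 14), (nat_lit 1), (2, 0, 5), [41, 3447], 30⟩]

/-- Moves. -/
noncomputable def t1_1 : List Mv := [
  mz,
  ⟨⟨-75, 20, 43, -10, -21, -70, -12, 60, -13⟩, (.cons (nat_lit 28) (nat_lit 22) (nat_lit 4) (nat_lit 1) (.cons
 (nat_lit 2183) (nat_lit 3088) (nat_lit 4696) (nat_lit 1) .nil)), (nat_lit 13), (nat_lit 5), (nat_lit 22),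
 (nat_lit 1), (51, 21, 11), [46, 1149], 50⟩,
  mz,
  ⟨⟨65, -24, -72, -4, 55, -48, -10, -40, -49⟩, (.cons (nat_lit 48) (nat_lit 22) (nat_lit 1) (nat_lit 1) (.cons
 (nat_lit 1440) (nat_lit 3833) (nat_lit 2184) (nat_lit 1) .nil)), (nat_lit 52), (nat_lit 17), (nat_lit 14),
 (nat_lit 1), (37, 1, 38), [16, 1772], 9⟩,
  ⟨⟨-33, -20, -59, -64, 15, 62, -6, 48, -43⟩, (.cons (nat_lit 9) (nat_lit 44) (nat_lit 3) (nat_lit 1) (.cons
 (nat_lit 2146) (nat_lit 3402) (nat_lit 1800) (nat_lit 1) .nil)), (nat_lit 31), (nat_lit 31), (nat_lit 26),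
 (nat_lit 1), (45, 55, 34), [38, 3361], 42⟩,
  ⟨⟨27, -68, 16, 64, 15, -62, -6, -48, -43⟩, (.cons (nat_lit 3) (nat_lit 39) (nat_lit 4) (nat_lit 1) (.cons
 (nat_lit 3930) (nat_lit 94) (nat_lit 1419) (nat_lit 1) .nil)), (nat_lit 36), (nat_lit 17), (nat_lit 42),
 (nat_lit 1), (7, 35, 30), [34, 3431], 14⟩,
  mz,
  ⟨⟨-29, 72, 20, 56, 25, -68, -38, 16, -35⟩, (.cons (nat_lit 3) (nat_lit 5) (nat_lit 18) (nat_lit 1) (.cons
 (nat_lit 4898) (nat_lit 188) (nat_lit 3186) (nat_lit 1) .nil)), (nat_lit 40), (nat_lit 12), (nat_lit 1),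
 (nat_lit 1), (33, 44, 31), [46, 768], 27⟩,
  ⟨⟨23, -72, 9, 64, 25, -12, 26, -32, -67⟩, (.cons (nat_lit 30) (nat_lit 25) (nat_lit 29) (nat_lit 1) (.cons
 (nat_lit 3301) (nat_lit 620) (nat_lit 2506) (nat_lit 1) .nil)), (nat_lit 14), (nat_lit 15), (nat_lit 5),
 (nat_lit 1), (60, 62, 3), [2, 2832], 38⟩,
  mz,
  mz,
  ⟨⟨33, -20, -92, 64, 15, -2, 6, 48, -49⟩, (.cons (nat_lit 5) (nat_lit 9) (nat_lit 32) (nat_lit 1) (.cons
 (nat_lit 3059) (nat_lit 1467) (nat_lit 959) (nat_lit 1) .nil)), (nat_lit 28), (nat_lit 17), (nat_lit 15),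
 (nat_lit 1), (67, 3, 38), [3, 2396], 5⟩,
  ⟨⟨-51, -52, -5, -44, 15, 82, -42, 24, -25⟩, (.cons (nat_lit 11) (nat_lit 6) (nat_lit 16) (nat_lit 1) (.cons
 (nat_lit 2262) (nat_lit 1156) (nat_lit 1950) (nat_lit 1) .nil)), (nat_lit 12), (nat_lit 52), (nat_lit 6),
 (nat_lit 1), (61, 22, 21), [41, 1389], 6⟩,
  mz,
  mz,
  ⟨⟨-9, 76, -11, -44, -15, -38, 42, 24, -67⟩, (.cons (nat_lit 38) (nat_lit 23) (nat_lit 18) (nat_lit 1) (.cons
 (nat_lit 2322) (nat_lit 2751) (nat_lit 2508) (nat_lit 1) .nil)), (nat_lit 29), (nat_lit 25), (nat_lit 12),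
 (nat_lit 1), (25, 67, 49), [40, 1098], 2⟩,
  ⟨⟨17, 24, -89, -36, -55, -12, 54, -24, -53⟩, (.cons (nat_lit 8) (nat_lit 17) (nat_lit 20) (nat_lit 1) (.cons
 (nat_lit 2888) (nat_lit 4686) (nat_lit 1661) (nat_lit 1) .nil)), (nat_lit 32), (nat_lit 25), (nat_lit 24),
 (nat_lit 1), (7, 52, 64), [3, 2295], 48⟩,
  mz,
  ⟨⟨9, 56, -64, -56, -25, -12, 38, -16, -73⟩, (.cons (nat_lit 26) (nat_lit 15) (nat_lit 20) (nat_lit 1) (.cons
 (nat_lit 3600) (nat_lit 115) (nat_lit 2053) (nat_lit 1) .nil)), (nat_lit 24), (nat_lit 37), (nat_lit 6),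
 (nat_lit 1), (56, 46, 55), [1, 609], 13⟩,
  ⟨⟨-61, -48, 25, -44, 55, 32, -22, -8, -55⟩, (.cons (nat_lit 7) (nat_lit 30) (nat_lit 22) (nat_lit 1) (.cons
 (nat_lit 885) (nat_lit 3698) (nat_lit 1119) (nat_lit 1) .nil)), (nat_lit 16), (nat_lit 25), (nat_lit 4),
 (nat_lit 1), (9, 3, 37), [40, 1484], 25⟩,
  mz,
  mz,
  ⟨⟨17, -24, 72, -36, 55, 48, 54, 24, -1⟩, (.cons (nat_lit 48) (nat_lit 3) (nat_lit 43) (nat_lit 1) (.cons
 (nat_lit 4330) (nat_lit 4166) (nat_lit 1804) (nat_lit 1) .nil)), (nat_lit 52), (nat_lit 14), (nat_lit 9),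
 (nat_lit 1), (28, 66, 43), [18, 44], 7⟩,
  ⟨⟨-61, 48, 25, 44, 55, -32, -22, 8, -55⟩, (.cons (nat_lit 29) (nat_lit 2) (nat_lit 1) (nat_lit 0) (.cons
 (nat_lit 3039) (nat_lit 4132) (nat_lit 952) (nat_lit 1) .nil)), (nat_lit 46), (nat_lit 42), (nat_lit 47),
 (nat_lit 1), (13, 43, 14), [5, 1355], 11⟩,
  ⟨⟨-39, 40, -41, 44, 55, -12, 22, -8, -77⟩, (.cons (nat_lit 0) (nat_lit 5) (nat_lit 27) (nat_lit 1) (.cons
 (nat_lit 2593) (nat_lit 4782) (nat_lit 1471) (nat_lit 1) .nil)), (nat_lit 15), (nat_lit 6), (nat_lit 37),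
 (nat_lit 1), (2, 56, 28), [19, 466], 37⟩,
  mz,
  ⟨⟨51, -4, 40, -10, 69, 20, 60, 12, -49⟩, (.cons (nat_lit 48) (nat_lit 19) (nat_lit 31) (nat_lit 1) (.cons
 (nat_lit 26) (nat_lit 2129) (nat_lit 1) (nat_lit 994) .nil)), (nat_lit 52), (nat_lit 33), (nat_lit 10),
 (nat_lit 1), (60, 30, 33), [44, 1490], 22⟩,
  mz,
  mz,
  ⟨⟨-13, -72, 36, 70, -11, -30, -4, -44, -49⟩, (.cons (nat_lit 38) (nat_lit 5) (nat_lit 4) (nat_lit 1) (.cons
 (nat_lit 1837) (nat_lit 1195) (nat_lit 1) (nat_lit 3195) .nil)), (nat_lit 51), (nat_lit 35), (nat_lit 13),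
 (nat_lit 1), (29, 35, 69), [45, 4745], 11⟩,
  mz,
  ⟨⟨-11, 72, -25, 50, -11, -80, -44, 4, -29⟩, (.cons (nat_lit 44) (nat_lit 38) (nat_lit 27) (nat_lit 1) (.cons
 (nat_lit 1101) (nat_lit 3638) (nat_lit 3681) (nat_lit 1) .nil)), (nat_lit 10), (nat_lit 15), (nat_lit 51),
 (nat_lit 1), (44, 13, 34), [5, 3560], 31⟩,
  mz,
  ⟨⟨-29, -72, 20, -56, 25, 68, -38, -16, -35⟩, (.cons (nat_lit 5) (nat_lit 47) (nat_lit 16) (nat_lit 1) (.cons
 (nat_lit 3447) (nat_lit 1332) (nat_lit 3344) (nat_lit 1) .nil)), (nat_lit 38), (nat_lit 9), (nat_lit 17),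
 (nat_lit 1), (27, 35, 6), [30, 442], 50⟩,
  ⟨⟨75, 20, -32, -10, 21, 80, 12, 60, -25⟩, (.cons (nat_lit 48) (nat_lit 9) (nat_lit 28) (nat_lit 1) (.cons
 (nat_lit 4579) (nat_lit 1145) (nat_lit 2509) (nat_lit 1) .nil)), (nat_lit 52), (nat_lit 17), (nat_lit 45),
 (nat_lit 1), (30, 67, 19), [29, 4938], 8⟩,
  mz,
  ⟨⟨3, -40, -76, -64, 25, 12, 26, 32, -67⟩, (.cons (nat_lit 10) (nat_lit 20) (nat_lit 36) (nat_lit 1) (.cons
 (nat_lit 4667) (nat_lit 156) (nat_lit 1811) (nat_lit 1) .nil)), (nat_lit 7), (nat_lit 43), (nat_lit 40),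
 (nat_lit 1), (58, 17, 53), [11, 4447], 12⟩,
  mz,
  ⟨⟨17, -24, -89, 36, -55, 12, 54, 24, -53⟩, (.cons (nat_lit 22) (nat_lit 33) (nat_lit 12) (nat_lit 1) (.cons
 (nat_lit 2704) (nat_lit 2777) (nat_lit 491) (nat_lit 1) .nil)), (nat_lit 32), (nat_lit 44), (nat_lit 4),
 (nat_lit 1), (5, 44, 66), [45, 4774], 48⟩,
  ⟨⟨-23, -72, 32, 64, -25, -52, -26, -32, -41⟩, (.cons (nat_lit 17) (nat_lit 39) (nat_lit 3) (nat_lit 1) (.cons
 (nat_lit 4464) (nat_lit 2391) (nat_lit 1952) (nat_lit 1) .nil)), (nat_lit 42), (nat_lit 36), (nat_lit 13),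
 (nat_lit 1), (21, 28, 33), [44, 4884], 36⟩,
  mz,
  mz,
  ⟨⟨75, 16, -52, 4, -55, -52, 10, 40, -59⟩, (.cons (nat_lit 4) (nat_lit 22) (nat_lit 31) (nat_lit 1) (.cons
 (nat_lit 4002) (nat_lit 1655) (nat_lit 398) (nat_lit 1) .nil)), (nat_lit 24), (nat_lit 14), (nat_lit 27),
 (nat_lit 1), (5, 5, 48), [29, 642], 41⟩,
  ⟨⟨11, -72, -36, 50, -11, 30, 44, -4, -73⟩, (.cons (nat_lit 45) (nat_lit 48) (nat_lit 36) (nat_lit 1) (.cons
 (nat_lit 1061) (nat_lit 4269) (nat_lit 1309) (nat_lit 1) .nil)), (nat_lit 24), (nat_lit 16), (nat_lit 2),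
 (nat_lit 1), (69, 49, 63), [31, 1632], 38⟩,
  ⟨⟨-39, -40, -41, -44, 55, 12, 22, 8, -77⟩, (.cons (nat_lit 20) (nat_lit 37) (nat_lit 1) (nat_lit 42) (.cons
 (nat_lit 2834) (nat_lit 3656) (nat_lit 762) (nat_lit 1) .nil)), (nat_lit 10), (nat_lit 15), (nat_lit 13),
 (nat_lit 1), (46, 61, 5), [26, 4635], 9⟩,
  mz,
  ⟨⟨51, 52, -56, -44, 15, -38, 42, -24, -67⟩, (.cons (nat_lit 33) (nat_lit 36) (nat_lit 15) (nat_lit 1) (.cons
 (nat_lit 41) (nat_lit 2210) (nat_lit 3118) (nat_lit 1) .nil)), (nat_lit 28), (nat_lit 1), (nat_lit 43),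
 (nat_lit 1), (52, 15, 47), [31, 4733], 5⟩,
  ⟨⟨9, -16, 80, -10, -69, -10, 60, -12, -11⟩, (.cons (nat_lit 48) (nat_lit 16) (nat_lit 39) (nat_lit 1) (.cons
 (nat_lit 3883) (nat_lit 2036) (nat_lit 2551) (nat_lit 1) .nil)), (nat_lit 52), (nat_lit 21), (nat_lit 24),
 (nat_lit 1), (33, 58, 7), [19, 2277], 26⟩,
  ⟨⟨51, 4, 40, 10, 69, -20, 60, -12, -49⟩, (.cons (nat_lit 48) (nat_lit 8) (nat_lit 15) (nat_lit 1) (.cons
 (nat_lit 3825) (nat_lit 712) (nat_lit 4282) (nat_lit 1) .nil)), (nat_lit 52), (nat_lit 44), (nat_lit 50),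
 (nat_lit 1), (13, 29, 32), [16, 195], 27⟩,
  ⟨⟨9, -56, -64, -56, 25, -12, 38, 16, -73⟩, (.cons (nat_lit 3) (nat_lit 2) (nat_lit 45) (nat_lit 1) (.cons
 (nat_lit 1617) (nat_lit 4009) (nat_lit 3515) (nat_lit 1) .nil)), (nat_lit 7), (nat_lit 38), (nat_lit 9),
 (nat_lit 1), (4, 54, 9), [46, 4618], 12⟩,
  ⟨⟨65, 24, -72, 4, 55, 48, -10, 40, -49⟩, (.cons (nat_lit 48) (nat_lit 47) (nat_lit 24) (nat_lit 1) (.cons
 (nat_lit 2088) (nat_lit 3159) (nat_lit 144) (nat_lit 1) .nil)), (nat_lit 52), (nat_lit 19), (nat_lit 28),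
 (nat_lit 1), (39, 45, 65), [44, 4159], 1⟩,
  ⟨⟨9, -76, -20, 44, 15, -82, -42, -24, -25⟩, (.cons (nat_lit 47) (nat_lit 41) (nat_lit 27) (nat_lit 1) (.cons
 (nat_lit 4198) (nat_lit 2702) (nat_lit 3885) (nat_lit 1) .nil)), (nat_lit 35), (nat_lit 51), (nat_lit 12),
 (nat_lit 1), (1, 68, 19), [45, 2751], 51⟩,
  mz,
  ⟨⟨-9, 28, -76, 70, 11, -40, 4, -44, -53⟩, (.cons (nat_lit 10) (nat_lit 15) (nat_lit 47) (nat_lit 1) (.cons
 (nat_lit 818) (nat_lit 2110) (nat_lit 43) (nat_lit 1) .nil)), (nat_lit 26), (nat_lit 6), (nat_lit 16),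
 (nat_lit 1), (34, 59, 48), [47, 826], 12⟩,
  ⟨⟨9, 16, 80, -10, 69, -10, 60, 12, -11⟩, (.cons (nat_lit 44) (nat_lit 40) (nat_lit 43) (nat_lit 1) (.cons
 (nat_lit 4177) (nat_lit 2304) (nat_lit 3089) (nat_lit 1) .nil)), (nat_lit 25), (nat_lit 40), (nat_lit 16),
 (nat_lit 1), (58, 46, 8), [24, 28], 46⟩,
  ⟨⟨75, -20, -32, 10, 21, -80, 12, -60, -25⟩, (.cons (nat_lit 48) (nat_lit 0) (nat_lit 48) (nat_lit 1) (.cons
 (nat_lit 2260) (nat_lit 1735) (nat_lit 409) (nat_lit 1) .nil)), (nat_lit 52), (nat_lit 3), (nat_lit 21),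
 (nat_lit 1), (52, 59, 14), [22, 1615], 39⟩,
  mz,
  ⟨⟨-11, -72, -25, 50, 11, -80, -44, -4, -29⟩, (.cons (nat_lit 37) (nat_lit 19) (nat_lit 17) (nat_lit 1) (.cons
 (nat_lit 4149) (nat_lit 3936) (nat_lit 2726) (nat_lit 1) .nil)), (nat_lit 33), (nat_lit 4), (nat_lit 14),
 (nat_lit 1), (38, 8, 10), [20, 3180], 43⟩,
  ⟨⟨63, -40, -56, -10, 21, -70, -12, -60, -13⟩, (.cons (nat_lit 48) (nat_lit 42) (nat_lit 8) (nat_lit 1) (.cons
 (nat_lit 2418) (nat_lit 4797) (nat_lit 4997) (nat_lit 1) .nil)), (nat_lit 52), (nat_lit 3), (nat_lit 43),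
 (nat_lit 1), (4, 5, 6), [15, 3277], 8⟩,
  mz,
  mz,
  mz,
  ⟨⟨33, -68, -37, -50, -11, -30, 44, 4, -73⟩, (.cons (nat_lit 23) (nat_lit 11) (nat_lit 22) (nat_lit 1) (.cons
 (nat_lit 1677) (nat_lit 212) (nat_lit 1812) (nat_lit 1) .nil)), (nat_lit 1), (nat_lit 43), (nat_lit 31),
 (nat_lit 1), (12, 27, 16), [33, 649], 33⟩,
  mz,
  ⟨⟨-13, 72, 36, -70, -11, 30, -4, 44, -49⟩, (.cons (nat_lit 12) (nat_lit 12) (nat_lit 9) (nat_lit 1) (.cons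
 (nat_lit 3831) (nat_lit 2815) (nat_lit 170) (nat_lit 1) .nil)), (nat_lit 42), (nat_lit 17), (nat_lit 22),
 (nat_lit 1), (35, 41, 49), [5, 865], 40⟩,
  ⟨⟨75, -16, -52, 4, 55, -52, 10, -40, -59⟩, (.cons (nat_lit 48) (nat_lit 34) (nat_lit 48) (nat_lit 1) (.cons
 (nat_lit 321) (nat_lit 2803) (nat_lit 1402) (nat_lit 1) .nil)), (nat_lit 52), (nat_lit 16), (nat_lit 20),
 (nat_lit 1), (51, 51, 21), [9, 2546], 1⟩,
  mz,
  ⟨⟨-27, -68, 43, 64, -15, -2, 6, -48, -49⟩, (.cons (nat_lit 40) (nat_lit 11) (nat_lit 15) (nat_lit 1) (.cons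
 (nat_lit 4695) (nat_lit 3393) (nat_lit 4644) (nat_lit 1) .nil)), (nat_lit 11), (nat_lit 43), (nat_lit 27),
 (nat_lit 1), (60, 55, 34), [6, 4313], 30⟩,
  ⟨⟨13, 72, 23, 70, -11, -40, 4, 44, -53⟩, (.cons (nat_lit 16) (nat_lit 5) (nat_lit 19) (nat_lit 1) (.cons
 (nat_lit 5039) (nat_lit 856) (nat_lit 4397) (nat_lit 1) .nil)), (nat_lit 10), (nat_lit 14), (nat_lit 13),
 (nat_lit 1), (20, 64, 28), [26, 1793], 31⟩,
  ⟨⟨-23, 72, 32, 64, 25, -52, -26, 32, -41⟩, (.cons (nat_lit 45) (nat_lit 8) (nat_lit 6) (nat_lit 1) (.cons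
 (nat_lit 4155) (nat_lit 2570) (nat_lit 4905) (nat_lit 1) .nil)), (nat_lit 40), (nat_lit 46), (nat_lit 21),
 (nat_lit 1), (27, 36, 12), [32, 805], 27⟩,
  ⟨⟨37, -48, -73, 36, 55, -48, 54, -24, -1⟩, (.cons (nat_lit 29) (nat_lit 23) (nat_lit 44) (nat_lit 1) (.cons
 (nat_lit 3354) (nat_lit 2953) (nat_lit 944) (nat_lit 1) .nil)), (nat_lit 5), (nat_lit 45), (nat_lit 33),
 (nat_lit 1), (11, 51, 41), [32, 3395], 19⟩]

/-- Moves. -/
noncomputable def t1_3 : List Mv := [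
  mz,
  ⟨⟨63, 40, -56, -10, -21, -70, -12, 60, -13⟩, (.cons (nat_lit 7) (nat_lit 41) (nat_lit 32) (nat_lit 1) (.cons
 (nat_lit 129) (nat_lit 1046) (nat_lit 1) (nat_lit 0) .nil)), (nat_lit 0), (nat_lit 15), (nat_lit 32), (nat_lit
 1), (31, 21, 11), [4, 3995], 52⟩,
  mz,
  ⟨⟨65, -24, -72, -4, 55, -48, -10, -40, -49⟩, (.cons (nat_lit 48) (nat_lit 22) (nat_lit 1) (nat_lit 1) (.cons
 (nat_lit 1440) (nat_lit 3833) (nat_lit 2184) (nat_lit 1) .nil)), (nat_lit 52), (nat_lit 17), (nat_lit 14),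
 (nat_lit 1), (37, 1, 38), [16, 1772], 9⟩,
  ⟨⟨27, 68, 16, 64, -15, -62, -6, 48, -43⟩, (.cons (nat_lit 25) (nat_lit 20) (nat_lit 15) (nat_lit 1) (.cons
 (nat_lit 4658) (nat_lit 1186) (nat_lit 3642) (nat_lit 1) .nil)), (nat_lit 11), (nat_lit 31), (nat_lit 1),
 (nat_lit 1), (60, 16, 34), [26, 342], 11⟩,
  ⟨⟨27, -68, 16, 64, 15, -62, -6, -48, -43⟩, (.cons (nat_lit 3) (nat_lit 39) (nat_lit 4) (nat_lit 1) (.cons
 (nat_lit 3930) (nat_lit 94) (nat_lit 1419) (nat_lit 1) .nil)), (nat_lit 36), (nat_lit 17), (nat_lit 42),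
 (nat_lit 1), (7, 35, 30), [34, 3431], 14⟩,
  mz,
  ⟨⟨-29, 72, 20, 56, 25, -68, -38, 16, -35⟩, (.cons (nat_lit 3) (nat_lit 5) (nat_lit 18) (nat_lit 1) (.cons
 (nat_lit 4898) (nat_lit 188) (nat_lit 3186) (nat_lit 1) .nil)), (nat_lit 40), (nat_lit 12), (nat_lit 1),
 (nat_lit 1), (33, 44, 31), [46, 768], 27⟩,
  ⟨⟨3, 40, -76, 64, 25, -12, 26, -32, -67⟩, (.cons (nat_lit 33) (nat_lit 31) (nat_lit 43) (nat_lit 1) (.cons
 (nat_lit 4214) (nat_lit 2664) (nat_lit 2164) (nat_lit 1) .nil)), (nat_lit 4), (nat_lit 5), (nat_lit 49),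
 (nat_lit 1), (14, 62, 3), [16, 1181], 8⟩,
  mz,
  mz,
  ⟨⟨-27, 68, 43, 64, 15, -2, 6, 48, -49⟩, (.cons (nat_lit 9) (nat_lit 33) (nat_lit 4) (nat_lit 1) (.cons
 (nat_lit 1095) (nat_lit 3789) (nat_lit 3694) (nat_lit 1) .nil)), (nat_lit 25), (nat_lit 48), (nat_lit 20),
 (nat_lit 1), (42, 3, 38), [38, 3386], 24⟩,
  ⟨⟨9, 76, -20, 44, -15, -82, -42, 24, -25⟩, (.cons (nat_lit 4) (nat_lit 16) (nat_lit 17) (nat_lit 1) (.cons
 (nat_lit 2203) (nat_lit 4103) (nat_lit 2733) (nat_lit 1) .nil)), (nat_lit 11), (nat_lit 46), (nat_lit 41),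
 (nat_lit 1), (31, 49, 21), [33, 4929], 11⟩,
  mz,
  mz,
  ⟨⟨-9, 76, -11, -44, -15, -38, 42, 24, -67⟩, (.cons (nat_lit 38) (nat_lit 23) (nat_lit 18) (nat_lit 1) (.cons
 (nat_lit 2322) (nat_lit 2751) (nat_lit 2508) (nat_lit 1) .nil)), (nat_lit 29), (nat_lit 25), (nat_lit 12),
 (nat_lit 1), (25, 67, 49), [40, 1098], 2⟩,
  ⟨⟨37, -48, 36, -36, -55, -12, 54, -24, -53⟩, (.cons (nat_lit 48) (nat_lit 39) (nat_lit 41) (nat_lit 1) (.cons
 (nat_lit 848) (nat_lit 3440) (nat_lit 2893) (nat_lit 1) .nil)), (nat_lit 52), (nat_lit 35), (nat_lit 27),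
 (nat_lit 1), (57, 52, 64), [31, 4903], 38⟩,
  mz,
  ⟨⟨29, -72, -9, -56, -25, -12, 38, -16, -73⟩, (.cons (nat_lit 16) (nat_lit 48) (nat_lit 27) (nat_lit 1) (.cons
 (nat_lit 3647) (nat_lit 3360) (nat_lit 4210) (nat_lit 1) .nil)), (nat_lit 32), (nat_lit 40), (nat_lit 38),
 (nat_lit 1), (70, 46, 55), [15, 3093], 34⟩,
  ⟨⟨39, 40, -80, 44, -55, -32, -22, -8, -55⟩, (.cons (nat_lit 48) (nat_lit 13) (nat_lit 7) (nat_lit 1) (.cons
 (nat_lit 779) (nat_lit 518) (nat_lit 1106) (nat_lit 1) .nil)), (nat_lit 52), (nat_lit 13), (nat_lit 7),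
 (nat_lit 1), (28, 68, 37), [34, 2545], 40⟩,
  mz,
  mz,
  ⟨⟨17, -24, 72, 36, -55, -48, 54, 24, -1⟩, (.cons (nat_lit 45) (nat_lit 38) (nat_lit 9) (nat_lit 1) (.cons
 (nat_lit 808) (nat_lit 4357) (nat_lit 825) (nat_lit 1) .nil)), (nat_lit 47), (nat_lit 8), (nat_lit 36),
 (nat_lit 1), (28, 5, 43), [32, 516], 8⟩,
  ⟨⟨39, -40, -80, 44, 55, -32, -22, 8, -55⟩, (.cons (nat_lit 34) (nat_lit 33) (nat_lit 1) (nat_lit 35) (.cons
 (nat_lit 2564) (nat_lit 1734) (nat_lit 3102) (nat_lit 1) .nil)), (nat_lit 10), (nat_lit 21), (nat_lit 22),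
 (nat_lit 1), (1, 43, 14), [26, 2598], 27⟩,
  ⟨⟨-39, 40, -41, 44, 55, -12, 22, -8, -77⟩, (.cons (nat_lit 0) (nat_lit 5) (nat_lit 27) (nat_lit 1) (.cons
 (nat_lit 2593) (nat_lit 4782) (nat_lit 1471) (nat_lit 1) .nil)), (nat_lit 15), (nat_lit 6), (nat_lit 37),
 (nat_lit 1), (2, 56, 28), [19, 466], 37⟩,
  mz,
  ⟨⟨51, -4, 40, 10, -69, -20, 60, 12, -49⟩, (.cons (nat_lit 4) (nat_lit 34) (nat_lit 4) (nat_lit 1) (.cons
 (nat_lit 4832) (nat_lit 4434) (nat_lit 3130) (nat_lit 1) .nil)), (nat_lit 17), (nat_lit 49), (nat_lit 29),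
 (nat_lit 1), (60, 41, 33), [36, 4285], 9⟩,
  mz,
  mz,
  ⟨⟨-13, -72, 36, 70, -11, -30, -4, -44, -49⟩, (.cons (nat_lit 38) (nat_lit 5) (nat_lit 4) (nat_lit 1) (.cons
 (nat_lit 1837) (nat_lit 1195) (nat_lit 1) (nat_lit 3195) .nil)), (nat_lit 51), (nat_lit 35), (nat_lit 13),
 (nat_lit 1), (29, 35, 69), [45, 4745], 11⟩,
  mz,
  ⟨⟨-33, -68, -4, 50, -11, -80, -44, 4, -29⟩, (.cons (nat_lit 40) (nat_lit 18) (nat_lit 41) (nat_lit 1) (.cons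
 (nat_lit 4113) (nat_lit 4514) (nat_lit 2221) (nat_lit 1) .nil)), (nat_lit 42), (nat_lit 5), (nat_lit 43),
 (nat_lit 1), (61, 13, 34), [19, 5014], 40⟩,
  mz,
  ⟨⟨-29, -72, 20, 56, -25, -68, -38, -16, -35⟩, (.cons (nat_lit 47) (nat_lit 20) (nat_lit 36) (nat_lit 1)
 (.cons (nat_lit 1527) (nat_lit 1751) (nat_lit 4229) (nat_lit 1) .nil)), (nat_lit 8), (nat_lit 21), (nat_lit
 42), (nat_lit 1), (27, 36, 6), [8, 3264], 44⟩,
  ⟨⟨-63, 40, 7, -10, 21, 80, 12, 60, -25⟩, (.cons (nat_lit 15) (nat_lit 33) (nat_lit 35) (nat_lit 1) (.cons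
 (nat_lit 1978) (nat_lit 3966) (nat_lit 4818) (nat_lit 1) .nil)), (nat_lit 41), (nat_lit 48), (nat_lit 0),
 (nat_lit 1), (60, 67, 19), [8, 4221], 49⟩,
  mz,
  ⟨⟨3, -40, -76, 64, -25, -12, 26, 32, -67⟩, (.cons (nat_lit 12) (nat_lit 47) (nat_lit 39) (nat_lit 1) (.cons
 (nat_lit 554) (nat_lit 3966) (nat_lit 2625) (nat_lit 1) .nil)), (nat_lit 24), (nat_lit 11), (nat_lit 25),
 (nat_lit 1), (58, 54, 53), [29, 531], 13⟩,
  mz,
  ⟨⟨37, 48, 36, -36, 55, -12, 54, 24, -53⟩, (.cons (nat_lit 5) (nat_lit 36) (nat_lit 10) (nat_lit 1) (.cons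
 (nat_lit 3278) (nat_lit 1347) (nat_lit 835) (nat_lit 1) .nil)), (nat_lit 44), (nat_lit 11), (nat_lit 20),
 (nat_lit 1), (61, 27, 66), [19, 2365], 41⟩,
  ⟨⟨-23, -72, 32, -64, 25, 52, -26, -32, -41⟩, (.cons (nat_lit 33) (nat_lit 32) (nat_lit 34) (nat_lit 1) (.cons
 (nat_lit 1508) (nat_lit 1801) (nat_lit 2694) (nat_lit 1) .nil)), (nat_lit 38), (nat_lit 40), (nat_lit 29),
 (nat_lit 1), (21, 43, 33), [16, 4097], 50⟩,
  mz,
  mz,
  ⟨⟨75, 16, -52, -4, 55, 52, 10, 40, -59⟩, (.cons (nat_lit 48) (nat_lit 37) (nat_lit 46) (nat_lit 1) (.cons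
 (nat_lit 1552) (nat_lit 283) (nat_lit 1839) (nat_lit 1) .nil)), (nat_lit 52), (nat_lit 8), (nat_lit 43),
 (nat_lit 1), (5, 66, 48), [30, 4703], 9⟩,
  ⟨⟨11, -72, -36, -50, 11, -30, 44, -4, -73⟩, (.cons (nat_lit 5) (nat_lit 40) (nat_lit 18) (nat_lit 1) (.cons
 (nat_lit 4386) (nat_lit 3651) (nat_lit 2553) (nat_lit 1) .nil)), (nat_lit 33), (nat_lit 48), (nat_lit 34),
 (nat_lit 1), (69, 22, 63), [48, 4192], 50⟩,
  ⟨⟨-39, -40, -41, 44, -55, -12, 22, 8, -77⟩, (.cons (nat_lit 15) (nat_lit 21) (nat_lit 17) (nat_lit 1) (.cons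
 (nat_lit 3645) (nat_lit 3408) (nat_lit 2591) (nat_lit 1) .nil)), (nat_lit 17), (nat_lit 12), (nat_lit 2),
 (nat_lit 1), (46, 10, 5), [27, 4733], 20⟩,
  mz,
  ⟨⟨-9, -76, -11, -44, 15, -38, 42, -24, -67⟩, (.cons (nat_lit 2) (nat_lit 27) (nat_lit 36) (nat_lit 1) (.cons
 (nat_lit 4528) (nat_lit 5031) (nat_lit 3554) (nat_lit 1) .nil)), (nat_lit 31), (nat_lit 30), (nat_lit 41),
 (nat_lit 1), (66, 15, 47), [24, 4781], 42⟩,
  ⟨⟨9, -16, 80, -10, -69, -10, 60, -12, -11⟩, (.cons (nat_lit 48) (nat_lit 16) (nat_lit 39) (nat_lit 1) (.cons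
 (nat_lit 3883) (nat_lit 2036) (nat_lit 2551) (nat_lit 1) .nil)), (nat_lit 52), (nat_lit 21), (nat_lit 24),
 (nat_lit 1), (33, 58, 7), [19, 2277], 26⟩,
  ⟨⟨51, 4, 40, 10, 69, -20, 60, -12, -49⟩, (.cons (nat_lit 48) (nat_lit 8) (nat_lit 15) (nat_lit 1) (.cons
 (nat_lit 3825) (nat_lit 712) (nat_lit 4282) (nat_lit 1) .nil)), (nat_lit 52), (nat_lit 44), (nat_lit 50),
 (nat_lit 1), (13, 29, 32), [16, 195], 27⟩,
  ⟨⟨29, 72, -9, -56, 25, -12, 38, 16, -73⟩, (.cons (nat_lit 18) (nat_lit 40) (nat_lit 17) (nat_lit 1) (.cons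
 (nat_lit 2193) (nat_lit 3852) (nat_lit 1774) (nat_lit 1) .nil)), (nat_lit 19), (nat_lit 33), (nat_lit 11),
 (nat_lit 1), (5, 54, 9), [11, 700], 44⟩,
  ⟨⟨65, 24, -72, -4, -55, -48, -10, 40, -49⟩, (.cons (nat_lit 18) (nat_lit 20) (nat_lit 11) (nat_lit 1) (.cons
 (nat_lit 533) (nat_lit 4828) (nat_lit 4201) (nat_lit 1) .nil)), (nat_lit 24), (nat_lit 23), (nat_lit 51),
 (nat_lit 1), (39, 26, 65), [15, 3089], 41⟩,
  ⟨⟨9, -76, -20, 44, 15, -82, -42, -24, -25⟩, (.cons (nat_lit 47) (nat_lit 41) (nat_lit 27) (nat_lit 1) (.cons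
 (nat_lit 4198) (nat_lit 2702) (nat_lit 3885) (nat_lit 1) .nil)), (nat_lit 35), (nat_lit 51), (nat_lit 12),
 (nat_lit 1), (1, 68, 19), [45, 2751], 51⟩,
  mz,
  ⟨⟨13, -72, 23, -70, -11, 40, 4, -44, -53⟩, (.cons (nat_lit 32) (nat_lit 40) (nat_lit 31) (nat_lit 1) (.cons
 (nat_lit 3059) (nat_lit 1222) (nat_lit 94) (nat_lit 1) .nil)), (nat_lit 1), (nat_lit 10), (nat_lit 22),
 (nat_lit 1), (14, 12, 48), [31, 4134], 33⟩,
  ⟨⟨9, 16, 80, -10, 69, -10, 60, 12, -11⟩, (.cons (nat_lit 44) (nat_lit 40) (nat_lit 43) (nat_lit 1) (.cons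
 (nat_lit 4177) (nat_lit 2304) (nat_lit 3089) (nat_lit 1) .nil)), (nat_lit 25), (nat_lit 40), (nat_lit 16),
 (nat_lit 1), (58, 46, 8), [24, 28], 46⟩,
  ⟨⟨-63, -40, 7, -10, -21, 80, 12, -60, -25⟩, (.cons (nat_lit 12) (nat_lit 30) (nat_lit 1) (nat_lit 42) (.cons
 (nat_lit 618) (nat_lit 4729) (nat_lit 973) (nat_lit 1) .nil)), (nat_lit 49), (nat_lit 20), (nat_lit 35),
 (nat_lit 1), (33, 12, 14), [9, 3307], 5⟩,
  mz,
  ⟨⟨-33, 68, -4, 50, 11, -80, -44, -4, -29⟩, (.cons (nat_lit 5) (nat_lit 23) (nat_lit 10) (nat_lit 1) (.cons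
 (nat_lit 4498) (nat_lit 4322) (nat_lit 1462) (nat_lit 1) .nil)), (nat_lit 51), (nat_lit 12), (nat_lit 32),
 (nat_lit 1), (43, 8, 10), [48, 2107], 48⟩,
  ⟨⟨63, -40, -56, -10, 21, -70, -12, -60, -13⟩, (.cons (nat_lit 48) (nat_lit 42) (nat_lit 8) (nat_lit 1) (.cons
 (nat_lit 2418) (nat_lit 4797) (nat_lit 4997) (nat_lit 1) .nil)), (nat_lit 52), (nat_lit 3), (nat_lit 43),
 (nat_lit 1), (4, 5, 6), [15, 3277], 8⟩,
  mz,
  mz,
  mz,
  ⟨⟨11, 72, -36, -50, -11, -30, 44, 4, -73⟩, (.cons (nat_lit 40) (nat_lit 45) (nat_lit 36) (nat_lit 1) (.cons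
 (nat_lit 3262) (nat_lit 109) (nat_lit 4632) (nat_lit 1) .nil)), (nat_lit 26), (nat_lit 44), (nat_lit 33),
 (nat_lit 1), (4, 27, 16), [19, 2567], 16⟩,
  mz,
  ⟨⟨-13, 72, 36, 70, 11, -30, -4, 44, -49⟩, (.cons (nat_lit 40) (nat_lit 13) (nat_lit 15) (nat_lit 1) (.cons
 (nat_lit 370) (nat_lit 1435) (nat_lit 3217) (nat_lit 1) .nil)), (nat_lit 51), (nat_lit 41), (nat_lit 21),
 (nat_lit 1), (35, 30, 49), [20, 1531], 48⟩,
  ⟨⟨75, -16, -52, -4, -55, 52, 10, -40, -59⟩, (.cons (nat_lit 37) (nat_lit 19) (nat_lit 29) (nat_lit 1) (.cons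
 (nat_lit 2223) (nat_lit 907) (nat_lit 58) (nat_lit 1) .nil)), (nat_lit 42), (nat_lit 48), (nat_lit 32),
 (nat_lit 1), (51, 20, 21), [11, 27], 32⟩,
  mz,
  ⟨⟨-27, -68, 43, 64, -15, -2, 6, -48, -49⟩, (.cons (nat_lit 40) (nat_lit 11) (nat_lit 15) (nat_lit 1) (.cons
 (nat_lit 4695) (nat_lit 3393) (nat_lit 4644) (nat_lit 1) .nil)), (nat_lit 11), (nat_lit 43), (nat_lit 27),
 (nat_lit 1), (60, 55, 34), [6, 4313], 30⟩,
  ⟨⟨13, 72, 23, -70, 11, 40, 4, 44, -53⟩, (.cons (nat_lit 23) (nat_lit 41) (nat_lit 48) (nat_lit 1) (.cons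
 (nat_lit 137) (nat_lit 1283) (nat_lit 2738) (nat_lit 1) .nil)), (nat_lit 33), (nat_lit 8), (nat_lit 7),
 (nat_lit 1), (20, 7, 28), [13, 4181], 43⟩,
  ⟨⟨-23, 72, 32, -64, -25, 52, -26, 32, -41⟩, (.cons (nat_lit 12) (nat_lit 16) (nat_lit 38) (nat_lit 1) (.cons
 (nat_lit 3613) (nat_lit 1694) (nat_lit 1756) (nat_lit 1) .nil)), (nat_lit 8), (nat_lit 24), (nat_lit 50),
 (nat_lit 1), (27, 35, 12), [29, 1902], 44⟩,
  ⟨⟨17, 24, 72, 36, 55, -48, 54, -24, -1⟩, (.cons (nat_lit 48) (nat_lit 19) (nat_lit 16) (nat_lit 1) (.cons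
 (nat_lit 2263) (nat_lit 3813) (nat_lit 3346) (nat_lit 1) .nil)), (nat_lit 52), (nat_lit 23), (nat_lit 48),
 (nat_lit 1), (30, 51, 41), [46, 2305], 15⟩]

/-- Moves. -/
noncomputable def t4_1 : List Mv := [
  mz,
  mz,
  mz,
  mz,
  ⟨⟨-53, 0, 0, 10, -47, -30, -2, 20, -47⟩, (.cons (nat_lit 42) (nat_lit 45) (nat_lit 23) (nat_lit 1) (.cons
 (nat_lit 4527) (nat_lit 2123) (nat_lit 3653) (nat_lit 1) .nil)), (nat_lit 5), (nat_lit 0), (nat_lit 0),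
 (nat_lit 0), (0, 39, 24), [3, 886], 0⟩,
  ⟨⟨-53, 0, 0, -10, -47, 30, -2, -20, -47⟩, (.cons (nat_lit 17) (nat_lit 19) (nat_lit 1) (nat_lit 28) (.cons
 (nat_lit 3717) (nat_lit 3015) (nat_lit 2253) (nat_lit 1) .nil)), (nat_lit 4), (nat_lit 0), (nat_lit 0),
 (nat_lit 0), (0, 7, 12), [34, 4636], 0⟩,
  ⟨⟨15, 56, -11, -28, 5, -36, 40, 8, -47⟩, (.cons (nat_lit 17) (nat_lit 43) (nat_lit 26) (nat_lit 1) (.cons
 (nat_lit 1709) (nat_lit 3407) (nat_lit 3260) (nat_lit 1) .nil)), (nat_lit 28), (nat_lit 0), (nat_lit 0),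
 (nat_lit 0), (1, 37, 38), [43, 3887], 0⟩,
  mz,
  mz,
  ⟨⟨-33, -20, -32, 8, 45, -34, 24, -24, -49⟩, (.cons (nat_lit 8) (nat_lit 6) (nat_lit 0) (nat_lit 1) (.cons
 (nat_lit 756) (nat_lit 1401) (nat_lit 2441) (nat_lit 1) .nil)), (nat_lit 18), (nat_lit 0), (nat_lit 0),
 (nat_lit 0), (35, 14, 42), [32, 2363], 0⟩,
  ⟨⟨-25, 48, -11, 28, -5, -64, -40, -8, -7⟩, (.cons (nat_lit 26) (nat_lit 12) (nat_lit 37) (nat_lit 1) (.cons
 (nat_lit 2723) (nat_lit 1140) (nat_lit 507) (nat_lit 1) .nil)), (nat_lit 36), (nat_lit 0), (nat_lit 0),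
 (nat_lit 0), (52, 52, 9), [43, 4388], 0⟩,
  ⟨⟨-1, -12, -63, 50, 17, -30, 14, -44, -19⟩, (.cons (nat_lit 40) (nat_lit 43) (nat_lit 36) (nat_lit 1) (.cons
 (nat_lit 3516) (nat_lit 2506) (nat_lit 4354) (nat_lit 1) .nil)), (nat_lit 16), (nat_lit 0), (nat_lit 0),
 (nat_lit 0), (44, 26, 20), [44, 3697], 0⟩,
  ⟨⟨-51, 20, 4, -10, -47, -20, 2, 20, -49⟩, (.cons (nat_lit 21) (nat_lit 39) (nat_lit 12) (nat_lit 1) (.cons
 (nat_lit 5024) (nat_lit 3352) (nat_lit 3554) (nat_lit 1) .nil)), (nat_lit 15), (nat_lit 0), (nat_lit 0),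
 (nat_lit 0), (48, 25, 48), [24, 34], 0⟩,
  mz,
  mz,
  ⟨⟨-51, -20, 4, -10, 47, -20, 2, -20, -49⟩, (.cons (nat_lit 48) (nat_lit 42) (nat_lit 19) (nat_lit 1) (.cons
 (nat_lit 5040) (nat_lit 3207) (nat_lit 4071) (nat_lit 1) .nil)), (nat_lit 15), (nat_lit 0), (nat_lit 0),
 (nat_lit 0), (36, 32, 36), [38, 871], 0⟩,
  ⟨⟨15, 52, 16, 10, 17, -60, 46, 4, -11⟩, (.cons (nat_lit 5) (nat_lit 17) (nat_lit 13) (nat_lit 1) (.cons
 (nat_lit 4895) (nat_lit 3399) (nat_lit 4500) (nat_lit 1) .nil)), (nat_lit 44), (nat_lit 0), (nat_lit 0),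
 (nat_lit 0), (24, 16, 10), [31, 823], 0⟩,
  ⟨⟨31, -48, -4, -10, -17, -50, 46, 4, -35⟩, (.cons (nat_lit 24) (nat_lit 48) (nat_lit 48) (nat_lit 1) (.cons
 (nat_lit 2680) (nat_lit 4865) (nat_lit 1472) (nat_lit 1) .nil)), (nat_lit 11), (nat_lit 0), (nat_lit 0),
 (nat_lit 0), (18, 13, 25), [43, 24], 0⟩,
  ⟨⟨-57, -4, 40, 8, -45, 26, -24, -24, -25⟩, (.cons (nat_lit 28) (nat_lit 9) (nat_lit 36) (nat_lit 1) (.cons
 (nat_lit 1331) (nat_lit 495) (nat_lit 204) (nat_lit 1) .nil)), (nat_lit 21), (nat_lit 0), (nat_lit 0),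
 (nat_lit 0), (12, 29, 19), [8, 3470], 0⟩,
  mz,
  mz,
  ⟨⟨-33, 20, -32, 8, -45, -34, 24, 24, -49⟩, (.cons (nat_lit 34) (nat_lit 37) (nat_lit 1) (nat_lit 21) (.cons
 (nat_lit 3901) (nat_lit 4749) (nat_lit 674) (nat_lit 1) .nil)), (nat_lit 18), (nat_lit 0), (nat_lit 0),
 (nat_lit 0), (47, 40, 14), [36, 3974], 0⟩,
  ⟨⟨45, 28, -49, -28, 45, 14, 0, 0, -53⟩, (.cons (nat_lit 1) (nat_lit 35) (nat_lit 7) (nat_lit 1) (.cons
 (nat_lit 1279) (nat_lit 2854) (nat_lit 2209) (nat_lit 1) .nil)), (nat_lit 31), (nat_lit 0), (nat_lit 0),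
 (nat_lit 0), (24, 31, 0), [45, 2901], 0⟩,
  mz,
  ⟨⟨-13, 48, -27, 30, -17, -60, 30, 36, -7⟩, (.cons (nat_lit 26) (nat_lit 5) (nat_lit 34) (nat_lit 1) (.cons
 (nat_lit 3124) (nat_lit 1604) (nat_lit 4236) (nat_lit 1) .nil)), (nat_lit 29), (nat_lit 0), (nat_lit 0),
 (nat_lit 0), (11, 48, 48), [37, 2737], 0⟩,
  mz,
  ⟨⟨-25, -48, -11, 28, 5, -64, -40, 8, -7⟩, (.cons (nat_lit 17) (nat_lit 13) (nat_lit 37) (nat_lit 1) (.cons
 (nat_lit 1464) (nat_lit 3490) (nat_lit 3948) (nat_lit 1) .nil)), (nat_lit 36), (nat_lit 0), (nat_lit 0),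
 (nat_lit 0), (2, 2, 35), [43, 159], 0⟩,
  mz,
  ⟨⟨-1, -48, 37, 52, 5, -16, 8, -40, -31⟩, (.cons (nat_lit 26) (nat_lit 9) (nat_lit 10) (nat_lit 1) (.cons
 (nat_lit 2755) (nat_lit 57) (nat_lit 1762) (nat_lit 1) .nil)), (nat_lit 6), (nat_lit 0), (nat_lit 0), (nat_lit
 0), (29, 29, 33), [11, 4921], 0⟩,
  ⟨⟨-13, 48, 40, -30, 17, -30, 30, 36, -23⟩, (.cons (nat_lit 18) (nat_lit 1) (nat_lit 17) (nat_lit 1) (.cons
 (nat_lit 4343) (nat_lit 319) (nat_lit 495) (nat_lit 1) .nil)), (nat_lit 52), (nat_lit 0), (nat_lit 0),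
 (nat_lit 0), (42, 48, 5), [45, 2612], 0⟩,
  mz,
  ⟨⟨45, -28, -49, 28, 45, -14, 0, 0, -53⟩, (.cons (nat_lit 1) (nat_lit 14) (nat_lit 42) (nat_lit 1) (.cons
 (nat_lit 3764) (nat_lit 4956) (nat_lit 2974) (nat_lit 1) .nil)), (nat_lit 22), (nat_lit 0), (nat_lit 0),
 (nat_lit 0), (39, 49, 0), [45, 3256], 0⟩,
  mz,
  ⟨⟨-39, 28, -17, 10, -33, -50, 18, 36, -37⟩, (.cons (nat_lit 31) (nat_lit 26) (nat_lit 27) (nat_lit 1) (.cons
 (nat_lit 2490) (nat_lit 3254) (nat_lit 1437) (nat_lit 1) .nil)), (nat_lit 50), (nat_lit 0), (nat_lit 0),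
 (nat_lit 0), (43, 8, 25), [38, 1348], 0⟩,
  mz,
  mz,
  ⟨⟨-9, 8, -59, 52, -5, -36, -8, -40, -23⟩, (.cons (nat_lit 17) (nat_lit 41) (nat_lit 8) (nat_lit 1) (.cons
 (nat_lit 4456) (nat_lit 1488) (nat_lit 4217) (nat_lit 1) .nil)), (nat_lit 10), (nat_lit 0), (nat_lit 0),
 (nat_lit 0), (2, 12, 43), [30, 4687], 0⟩,
  ⟨⟨-1, 48, 37, 52, -5, -16, 8, 40, -31⟩, (.cons (nat_lit 5) (nat_lit 25) (nat_lit 41) (nat_lit 1) (.cons
 (nat_lit 4214) (nat_lit 2716) (nat_lit 1154) (nat_lit 1) .nil)), (nat_lit 6), (nat_lit 0), (nat_lit 0),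
 (nat_lit 0), (26, 26, 4), [36, 1619], 0⟩,
  ⟨⟨39, 28, -56, -10, -33, -40, -18, 36, -19⟩, (.cons (nat_lit 18) (nat_lit 47) (nat_lit 36) (nat_lit 1) (.cons
 (nat_lit 3329) (nat_lit 719) (nat_lit 936) (nat_lit 1) .nil)), (nat_lit 50), (nat_lit 0), (nat_lit 0),
 (nat_lit 0), (34, 47, 21), [17, 1966], 0⟩,
  ⟨⟨15, -56, -11, -28, -5, -36, 40, -8, -47⟩, (.cons (nat_lit 33) (nat_lit 37) (nat_lit 5) (nat_lit 1) (.cons
 (nat_lit 1264) (nat_lit 860) (nat_lit 1026) (nat_lit 1) .nil)), (nat_lit 28), (nat_lit 0), (nat_lit 0),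
 (nat_lit 0), (31, 34, 12), [29, 1736], 0⟩,
  ⟨⟨1, 48, 36, 52, 5, -36, -8, 40, -23⟩, (.cons (nat_lit 25) (nat_lit 4) (nat_lit 46) (nat_lit 1) (.cons (nat_lit 4747) (nat_lit 548) (nat_lit 89) (nat_lit 1) .nil)), (nat_lit 39), (nat_lit 0), (nat_lit 0), (nat_lit 0), (38, 15, 14), [1, 658], 0⟩,
  ⟨⟨31, 48, -4, 10, -17, 50, 46, -4, -35⟩, (.cons (nat_lit 12) (nat_lit 18) (nat_lit 8) (nat_lit 1) (.cons
 (nat_lit 2457) (nat_lit 2543) (nat_lit 2813) (nat_lit 1) .nil)), (nat_lit 43), (nat_lit 0), (nat_lit 0),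
 (nat_lit 0), (15, 51, 12), [11, 4479], 0⟩,
  ⟨⟨-57, 4, 40, -8, -45, -26, -24, 24, -25⟩, (.cons (nat_lit 15) (nat_lit 2) (nat_lit 1) (nat_lit 21) (.cons
 (nat_lit 348) (nat_lit 2647) (nat_lit 1936) (nat_lit 1) .nil)), (nat_lit 9), (nat_lit 0), (nat_lit 0),
 (nat_lit 0), (25, 50, 44), [22, 1057], 0⟩,
  ⟨⟨15, 32, 44, 50, -17, -30, 14, 44, -19⟩, (.cons (nat_lit 45) (nat_lit 23) (nat_lit 32) (nat_lit 1) (.cons
 (nat_lit 1032) (nat_lit 1985) (nat_lit 600) (nat_lit 1) .nil)), (nat_lit 41), (nat_lit 0), (nat_lit 0),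
 (nat_lit 0), (27, 37, 4), [29, 4688], 0⟩,
  ⟨⟨1, 12, -64, 50, 17, -20, -14, 44, -5⟩, (.cons (nat_lit 25) (nat_lit 6) (nat_lit 37) (nat_lit 1) (.cons
 (nat_lit 3914) (nat_lit 3065) (nat_lit 2099) (nat_lit 1) .nil)), (nat_lit 48), (nat_lit 0), (nat_lit 0),
 (nat_lit 0), (42, 33, 48), [4, 3095], 0⟩,
  mz,
  ⟨⟨43, 12, 20, 30, 17, -60, 30, -36, -7⟩, (.cons (nat_lit 48) (nat_lit 5) (nat_lit 24) (nat_lit 1) (.cons
 (nat_lit 5040) (nat_lit 2270) (nat_lit 580) (nat_lit 1) .nil)), (nat_lit 46), (nat_lit 0), (nat_lit 0),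
 (nat_lit 0), (23, 37, 37), [43, 2331], 0⟩,
  ⟨⟨-15, -32, 59, 50, -17, -20, -14, -44, -5⟩, (.cons (nat_lit 2) (nat_lit 19) (nat_lit 30) (nat_lit 1) (.cons
 (nat_lit 4092) (nat_lit 1139) (nat_lit 317) (nat_lit 1) .nil)), (nat_lit 17), (nat_lit 0), (nat_lit 0),
 (nat_lit 0), (8, 44, 11), [18, 590], 0⟩,
  ⟨⟨15, -52, 16, 10, -17, -60, 46, -4, -11⟩, (.cons (nat_lit 2) (nat_lit 37) (nat_lit 24) (nat_lit 1) (.cons
 (nat_lit 1570) (nat_lit 2105) (nat_lit 1384) (nat_lit 1) .nil)), (nat_lit 44), (nat_lit 0), (nat_lit 0),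
 (nat_lit 0), (14, 27, 50), [33, 2424], 0⟩,
  ⟨⟨-39, -28, -17, 10, 33, -50, 18, -36, -37⟩, (.cons (nat_lit 36) (nat_lit 46) (nat_lit 17) (nat_lit 1) (.cons
 (nat_lit 4844) (nat_lit 1261) (nat_lit 4175) (nat_lit 1) .nil)), (nat_lit 50), (nat_lit 0), (nat_lit 0),
 (nat_lit 0), (5, 49, 14), [5, 1298], 0⟩,
  ⟨⟨39, -28, -56, 10, -33, 40, -18, -36, -19⟩, (.cons (nat_lit 30) (nat_lit 11) (nat_lit 47) (nat_lit 1) (.cons
 (nat_lit 2547) (nat_lit 3631) (nat_lit 401) (nat_lit 1) .nil)), (nat_lit 38), (nat_lit 0), (nat_lit 0),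
 (nat_lit 0), (49, 18, 10), [12, 1910], 0⟩,
  mz,
  ⟨⟨43, 12, -63, -30, -17, -30, 30, -36, -23⟩, (.cons (nat_lit 22) (nat_lit 29) (nat_lit 41) (nat_lit 1) (.cons
 (nat_lit 3841) (nat_lit 3024) (nat_lit 2274) (nat_lit 1) .nil)), (nat_lit 24), (nat_lit 0), (nat_lit 0),
 (nat_lit 0), (2, 6, 47), [13, 2377], 0⟩]

/-- Moves. -/
noncomputable def t4_3 : List Mv := [
  mz,
  mz,
  mz,
  mz,
  ⟨⟨51, 20, -47, 10, -47, -30, -2, 20, -47⟩, (.cons (nat_lit 0) (nat_lit 11) (nat_lit 16) (nat_lit 1) (.cons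
 (nat_lit 4169) (nat_lit 3973) (nat_lit 4779) (nat_lit 1) .nil)), (nat_lit 15), (nat_lit 0), (nat_lit 0),
 (nat_lit 0), (24, 39, 24), [31, 4568], 0⟩,
  ⟨⟨51, -20, -47, 10, 47, -30, -2, -20, -47⟩, (.cons (nat_lit 43) (nat_lit 21) (nat_lit 9) (nat_lit 1) (.cons
 (nat_lit 4465) (nat_lit 1185) (nat_lit 3043) (nat_lit 1) .nil)), (nat_lit 15), (nat_lit 0), (nat_lit 0),
 (nat_lit 0), (12, 46, 12), [45, 1505], 0⟩,
  ⟨⟨25, -48, -36, 28, -5, 36, 40, 8, -47⟩, (.cons (nat_lit 11) (nat_lit 47) (nat_lit 3) (nat_lit 1) (.cons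
 (nat_lit 2247) (nat_lit 2572) (nat_lit 705) (nat_lit 1) .nil)), (nat_lit 40), (nat_lit 0), (nat_lit 0),
 (nat_lit 0), (37, 16, 38), [30, 3049], 0⟩,
  mz,
  mz,
  ⟨⟨-33, -20, -32, -8, -45, 34, 24, -24, -49⟩, (.cons (nat_lit 21) (nat_lit 26) (nat_lit 13) (nat_lit 1) (.cons
 (nat_lit 507) (nat_lit 3918) (nat_lit 1443) (nat_lit 1) .nil)), (nat_lit 42), (nat_lit 0), (nat_lit 0),
 (nat_lit 0), (35, 39, 42), [43, 975], 0⟩,
  ⟨⟨-25, 48, -11, 28, -5, -64, -40, -8, -7⟩, (.cons (nat_lit 26) (nat_lit 12) (nat_lit 37) (nat_lit 1) (.cons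
 (nat_lit 2723) (nat_lit 1140) (nat_lit 507) (nat_lit 1) .nil)), (nat_lit 36), (nat_lit 0), (nat_lit 0),
 (nat_lit 0), (52, 52, 9), [43, 4388], 0⟩,
  ⟨⟨15, -32, 44, 50, 17, -30, 14, -44, -19⟩, (.cons (nat_lit 44) (nat_lit 20) (nat_lit 8) (nat_lit 1) (.cons
 (nat_lit 1712) (nat_lit 3542) (nat_lit 1130) (nat_lit 1) .nil)), (nat_lit 41), (nat_lit 0), (nat_lit 0),
 (nat_lit 0), (29, 26, 20), [23, 61], 0⟩,
  ⟨⟨-51, 20, 4, 10, 47, 20, 2, 20, -49⟩, (.cons (nat_lit 48) (nat_lit 32) (nat_lit 7) (nat_lit 1) (.cons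
 (nat_lit 5040) (nat_lit 2318) (nat_lit 138) (nat_lit 1) .nil)), (nat_lit 12), (nat_lit 0), (nat_lit 0),
 (nat_lit 0), (48, 28, 48), [31, 4019], 0⟩,
  mz,
  mz,
  ⟨⟨-51, -20, 4, 10, -47, 20, 2, -20, -49⟩, (.cons (nat_lit 4) (nat_lit 40) (nat_lit 1) (nat_lit 35) (.cons
 (nat_lit 593) (nat_lit 3459) (nat_lit 4657) (nat_lit 1) .nil)), (nat_lit 12), (nat_lit 0), (nat_lit 0),
 (nat_lit 0), (36, 21, 36), [41, 3855], 0⟩,
  ⟨⟨31, -48, -27, -10, -17, 60, 46, 4, -11⟩, (.cons (nat_lit 38) (nat_lit 32) (nat_lit 4) (nat_lit 1) (.cons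
 (nat_lit 119) (nat_lit 4246) (nat_lit 1097) (nat_lit 1) .nil)), (nat_lit 11), (nat_lit 0), (nat_lit 0),
 (nat_lit 0), (39, 37, 10), [17, 2609], 0⟩,
  ⟨⟨31, -48, -4, -10, -17, -50, 46, 4, -35⟩, (.cons (nat_lit 24) (nat_lit 48) (nat_lit 48) (nat_lit 1) (.cons
 (nat_lit 2680) (nat_lit 4865) (nat_lit 1472) (nat_lit 1) .nil)), (nat_lit 11), (nat_lit 0), (nat_lit 0),
 (nat_lit 0), (18, 13, 25), [43, 24], 0⟩,
  ⟨⟨33, -20, -65, -8, 45, -26, -24, -24, -25⟩, (.cons (nat_lit 48) (nat_lit 27) (nat_lit 42) (nat_lit 1) (.cons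
 (nat_lit 5040) (nat_lit 4410) (nat_lit 222) (nat_lit 1) .nil)), (nat_lit 18), (nat_lit 0), (nat_lit 0),
 (nat_lit 0), (7, 24, 19), [32, 1100], 0⟩,
  mz,
  mz,
  ⟨⟨-33, 20, -32, -8, 45, 34, 24, 24, -49⟩, (.cons (nat_lit 15) (nat_lit 0) (nat_lit 24) (nat_lit 1) (.cons
 (nat_lit 2176) (nat_lit 77) (nat_lit 4352) (nat_lit 1) .nil)), (nat_lit 42), (nat_lit 0), (nat_lit 0),
 (nat_lit 0), (47, 13, 14), [11, 3357], 0⟩,
  ⟨⟨45, 28, -49, 28, -45, -14, 0, 0, -53⟩, (.cons (nat_lit 42) (nat_lit 44) (nat_lit 1) (nat_lit 7) (.cons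
 (nat_lit 5040) (nat_lit 4392) (nat_lit 1801) (nat_lit 1) .nil)), (nat_lit 22), (nat_lit 0), (nat_lit 0),
 (nat_lit 0), (24, 22, 0), [20, 95], 0⟩,
  mz,
  ⟨⟨43, -12, 20, 30, -17, -60, 30, 36, -7⟩, (.cons (nat_lit 23) (nat_lit 37) (nat_lit 13) (nat_lit 1) (.cons
 (nat_lit 2349) (nat_lit 3103) (nat_lit 1611) (nat_lit 1) .nil)), (nat_lit 46), (nat_lit 0), (nat_lit 0),
 (nat_lit 0), (37, 48, 48), [30, 4942], 0⟩,
  mz,
  ⟨⟨-25, -48, -11, 28, 5, -64, -40, 8, -7⟩, (.cons (nat_lit 17) (nat_lit 13) (nat_lit 37) (nat_lit 1) (.cons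
 (nat_lit 1464) (nat_lit 3490) (nat_lit 3948) (nat_lit 1) .nil)), (nat_lit 36), (nat_lit 0), (nat_lit 0),
 (nat_lit 0), (2, 2, 35), [43, 159], 0⟩,
  mz,
  ⟨⟨-1, -48, 37, 52, 5, -16, 8, -40, -31⟩, (.cons (nat_lit 26) (nat_lit 9) (nat_lit 10) (nat_lit 1) (.cons
 (nat_lit 2755) (nat_lit 57) (nat_lit 1762) (nat_lit 1) .nil)), (nat_lit 6), (nat_lit 0), (nat_lit 0), (nat_lit
 0), (29, 29, 33), [11, 4921], 0⟩,
  ⟨⟨-13, 48, 40, 30, -17, 30, 30, 36, -23⟩, (.cons (nat_lit 48) (nat_lit 30) (nat_lit 46) (nat_lit 1) (.cons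
 (nat_lit 5040) (nat_lit 1420) (nat_lit 1824) (nat_lit 1) .nil)), (nat_lit 29), (nat_lit 0), (nat_lit 0),
 (nat_lit 0), (42, 5, 5), [13, 2219], 0⟩,
  mz,
  ⟨⟨45, -28, -49, 28, 45, -14, 0, 0, -53⟩, (.cons (nat_lit 1) (nat_lit 14) (nat_lit 42) (nat_lit 1) (.cons
 (nat_lit 3764) (nat_lit 4956) (nat_lit 2974) (nat_lit 1) .nil)), (nat_lit 22), (nat_lit 0), (nat_lit 0),
 (nat_lit 0), (39, 49, 0), [45, 3256], 0⟩,
  mz,
  ⟨⟨-39, 28, -17, 10, -33, -50, 18, 36, -37⟩, (.cons (nat_lit 31) (nat_lit 26) (nat_lit 27) (nat_lit 1) (.cons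
 (nat_lit 2490) (nat_lit 3254) (nat_lit 1437) (nat_lit 1) .nil)), (nat_lit 50), (nat_lit 0), (nat_lit 0),
 (nat_lit 0), (43, 8, 25), [38, 1348], 0⟩,
  mz,
  mz,
  ⟨⟨-9, 8, -59, -52, 5, 36, -8, -40, -23⟩, (.cons (nat_lit 26) (nat_lit 5) (nat_lit 18) (nat_lit 1) (.cons
 (nat_lit 4707) (nat_lit 1189) (nat_lit 2931) (nat_lit 1) .nil)), (nat_lit 26), (nat_lit 0), (nat_lit 0),
 (nat_lit 0), (2, 41, 43), [11, 3166], 0⟩,
  ⟨⟨-1, 48, 37, 52, -5, -16, 8, 40, -31⟩, (.cons (nat_lit 5) (nat_lit 25) (nat_lit 41) (nat_lit 1) (.cons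
 (nat_lit 4214) (nat_lit 2716) (nat_lit 1154) (nat_lit 1) .nil)), (nat_lit 6), (nat_lit 0), (nat_lit 0),
 (nat_lit 0), (26, 26, 4), [36, 1619], 0⟩,
  ⟨⟨-57, 8, 37, -10, -33, -40, -18, 36, -19⟩, (.cons (nat_lit 10) (nat_lit 44) (nat_lit 43) (nat_lit 1) (.cons
 (nat_lit 1248) (nat_lit 3540) (nat_lit 1091) (nat_lit 1) .nil)), (nat_lit 49), (nat_lit 0), (nat_lit 0),
 (nat_lit 0), (40, 47, 21), [31, 3004], 0⟩,
  ⟨⟨25, 48, -36, 28, 5, 36, 40, -8, -47⟩, (.cons (nat_lit 2) (nat_lit 41) (nat_lit 6) (nat_lit 1) (.cons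
 (nat_lit 4338) (nat_lit 2128) (nat_lit 2075) (nat_lit 1) .nil)), (nat_lit 40), (nat_lit 0), (nat_lit 0),
 (nat_lit 0), (34, 19, 12), [4, 4694], 0⟩,
  ⟨⟨-9, -8, -59, -52, -5, 36, -8, 40, -23⟩, (.cons (nat_lit 5) (nat_lit 38) (nat_lit 36) (nat_lit 1) (.cons
 (nat_lit 4672) (nat_lit 2571) (nat_lit 4935) (nat_lit 1) .nil)), (nat_lit 26), (nat_lit 0), (nat_lit 0),
 (nat_lit 0), (29, 38, 14), [36, 2020], 0⟩,
  ⟨⟨31, 48, -4, -10, 17, -50, 46, -4, -35⟩, (.cons (nat_lit 39) (nat_lit 4) (nat_lit 31) (nat_lit 1) (.cons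
 (nat_lit 2494) (nat_lit 3125) (nat_lit 4740) (nat_lit 1) .nil)), (nat_lit 11), (nat_lit 0), (nat_lit 0),
 (nat_lit 0), (15, 2, 12), [46, 1249], 0⟩,
  ⟨⟨33, 20, -65, -8, -45, -26, -24, 24, -25⟩, (.cons (nat_lit 48) (nat_lit 33) (nat_lit 1) (nat_lit 7) (.cons
 (nat_lit 1506) (nat_lit 738) (nat_lit 3325) (nat_lit 1) .nil)), (nat_lit 18), (nat_lit 0), (nat_lit 0),
 (nat_lit 0), (19, 50, 44), [36, 2912], 0⟩,
  ⟨⟨15, 32, 44, 50, -17, -30, 14, 44, -19⟩, (.cons (nat_lit 45) (nat_lit 23) (nat_lit 32) (nat_lit 1) (.cons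
 (nat_lit 1032) (nat_lit 1985) (nat_lit 600) (nat_lit 1) .nil)), (nat_lit 41), (nat_lit 0), (nat_lit 0),
 (nat_lit 0), (27, 37, 4), [29, 4688], 0⟩,
  ⟨⟨-15, 32, 59, 50, 17, -20, -14, 44, -5⟩, (.cons (nat_lit 45) (nat_lit 8) (nat_lit 44) (nat_lit 1) (.cons
 (nat_lit 1965) (nat_lit 4275) (nat_lit 2635) (nat_lit 1) .nil)), (nat_lit 17), (nat_lit 0), (nat_lit 0),
 (nat_lit 0), (6, 33, 48), [46, 3994], 0⟩,
  mz,
  ⟨⟨43, 12, 20, 30, 17, -60, 30, -36, -7⟩, (.cons (nat_lit 48) (nat_lit 5) (nat_lit 24) (nat_lit 1) (.cons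
 (nat_lit 5040) (nat_lit 2270) (nat_lit 580) (nat_lit 1) .nil)), (nat_lit 46), (nat_lit 0), (nat_lit 0),
 (nat_lit 0), (23, 37, 37), [43, 2331], 0⟩,
  ⟨⟨-15, -32, 59, 50, -17, -20, -14, -44, -5⟩, (.cons (nat_lit 2) (nat_lit 19) (nat_lit 30) (nat_lit 1) (.cons
 (nat_lit 4092) (nat_lit 1139) (nat_lit 317) (nat_lit 1) .nil)), (nat_lit 17), (nat_lit 0), (nat_lit 0),
 (nat_lit 0), (8, 44, 11), [18, 590], 0⟩,
  ⟨⟨31, 48, -27, -10, 17, 60, 46, -4, -11⟩, (.cons (nat_lit 18) (nat_lit 41) (nat_lit 15) (nat_lit 1) (.cons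
 (nat_lit 136) (nat_lit 4982) (nat_lit 3615) (nat_lit 1) .nil)), (nat_lit 11), (nat_lit 0), (nat_lit 0),
 (nat_lit 0), (36, 26, 50), [13, 4350], 0⟩,
  ⟨⟨-39, -28, -17, 10, 33, -50, 18, -36, -37⟩, (.cons (nat_lit 36) (nat_lit 46) (nat_lit 17) (nat_lit 1) (.cons
 (nat_lit 4844) (nat_lit 1261) (nat_lit 4175) (nat_lit 1) .nil)), (nat_lit 50), (nat_lit 0), (nat_lit 0),
 (nat_lit 0), (5, 49, 14), [5, 1298], 0⟩,
  ⟨⟨-57, -8, 37, -10, 33, -40, -18, -36, -19⟩, (.cons (nat_lit 15) (nat_lit 45) (nat_lit 39) (nat_lit 1) (.cons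
 (nat_lit 2738) (nat_lit 467) (nat_lit 1838) (nat_lit 1) .nil)), (nat_lit 49), (nat_lit 0), (nat_lit 0),
 (nat_lit 0), (14, 35, 10), [47, 1612], 0⟩,
  mz,
  ⟨⟨-13, -48, 40, 30, 17, 30, 30, -36, -23⟩, (.cons (nat_lit 30) (nat_lit 19) (nat_lit 29) (nat_lit 1) (.cons
 (nat_lit 4976) (nat_lit 571) (nat_lit 1929) (nat_lit 1) .nil)), (nat_lit 29), (nat_lit 0), (nat_lit 0),
 (nat_lit 0), (45, 47, 47), [26, 951], 0⟩]

/-- All the moves. -/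
noncomputable def tabs : List (List (List Mv)) := [[[], t0_1, [], t0_3], [[], t1_1, [], t1_3], [], [], [[], t4_1, [], t4_3]]

/-- Subtrie. -/
noncomputable def T1 : Tr := (.ev (nat_lit 20) (nat_lit 4645033185837568) (.nd (nat_lit 33) (.br (nat_lit 39)
 (.br (nat_lit 19) (.br (nat_lit 8) (.br (nat_lit 4) (.br (nat_lit 3) (.ch (nat_lit 1) (.ev (nat_lit 52)
 (nat_lit 286216620611680) (.ev (nat_lit 340) (nat_lit 2199023255552) (.ev (nat_lit 468) (nat_lit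
 1125899906842624) (.ev (nat_lit 756) (nat_lit 8796093022208) (.ev (nat_lit 1744) (nat_lit 4194304) (.nd
 (nat_lit 2336) (.br (nat_lit 3) (.br (nat_lit 2) (.ch (nat_lit 1) (.ev (nat_lit 2352) (nat_lit
 581644404655104) (.ev (nat_lit 2432) (nat_lit 32768) (.ev (nat_lit 2464) (nat_lit 262144) (.ev (nat_lit 3168)
 (nat_lit 16) (.ev (nat_lit 3181) (nat_lit 70368744177664) .dd)))))) (.ch (nat_lit 2) (.ev (nat_lit 2352)
 (nat_lit 634420424081424) (.ev (nat_lit 2480) (nat_lit 536903680) (.ev (nat_lit 2560) (nat_lit 17592186044416)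
 (.ev (nat_lit 2692) (nat_lit 1024) (.ev (nat_lit 2701) (nat_lit 2097152) .dd))))))) (.br (nat_lit 6) (.ch
 (nat_lit 3) (.ev (nat_lit 2352) (nat_lit 87963077705744) (.ev (nat_lit 2532) (nat_lit 67108864) (.ev (nat_lit
 2544) (nat_lit 536870912) (.ev (nat_lit 2656) (nat_lit 1099511660544) (.ev (nat_lit 2800) (nat_lit 262144)
 (.ev (nat_lit 3024) (nat_lit 1024) (.ev (nat_lit 3156) (nat_lit 2097152) (.ev (nat_lit 3165) (nat_lit
 562949953421312) .dd))))))))) (.ch (nat_lit 6) (.ev (nat_lit 2352) (nat_lit 1099581129744) (.ev (nat_lit 2432)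
 (nat_lit 536870912) (.ev (nat_lit 2452) (nat_lit 562949953421312) (.ev (nat_lit 2464) (nat_lit 17592186044416)
 (.ev (nat_lit 2772) (nat_lit 2147483648) (.ev (nat_lit 2781) (nat_lit 70368744177664) .dd)))))))))))))))) (.ch
 (nat_lit 3) (.ev (nat_lit 52) (nat_lit 301266729212992) (.ev (nat_lit 480) (nat_lit 1773858067841072) .dd))))
 (.br (nat_lit 5) (.ch (nat_lit 4) (.ev (nat_lit 52) (nat_lit 1147134292263968) (.ev (nat_lit 308) (nat_lit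
 8796093284352) (.ev (nat_lit 404) (nat_lit 70368744177664) (.ev (nat_lit 436) (nat_lit 64) (.ev (nat_lit 724)
 (nat_lit 2097152) (.ev (nat_lit 1728) (nat_lit 2048) (.nd (nat_lit 2336) (.br (nat_lit 3) (.br (nat_lit 2)
 (.ch (nat_lit 0) (.ev (nat_lit 2352) (nat_lit 844427618717696) (.fin (nat_lit 576465700116709948)))) (.ch
 (nat_lit 2) (.ev (nat_lit 2352) (nat_lit 567350684319760) (.ev (nat_lit 2480) (nat_lit 4194304) (.ev (nat_lit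
 2560) (nat_lit 281474976710656) (.ev (nat_lit 2573) (nat_lit 4096) .dd)))))) (.br (nat_lit 6) (.ch (nat_lit 3)
 (.ev (nat_lit 2352) (nat_lit 848823513513984) (.ev (nat_lit 2532) (nat_lit 4194304) (.ev (nat_lit 2628)
 (nat_lit 2147483648) (.ev (nat_lit 2832) (nat_lit 16) (.ev (nat_lit 3056) (nat_lit 32768) (.ev (nat_lit 3069)
 (nat_lit 4096) .dd))))))) (.ch (nat_lit 6) (.ev (nat_lit 2352) (nat_lit 32784) (.ev (nat_lit 2452) (nat_lit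
 4096) (.ev (nat_lit 2496) (nat_lit 536870912) (.ev (nat_lit 2532) (nat_lit 281474976710656) (.ev (nat_lit
 2628) (nat_lit 4194304) (.ev (nat_lit 2692) (nat_lit 2147483648) (.ev (nat_lit 3264) (nat_lit 567347999932416)
 .dd)))))))))))))))))) (.br (nat_lit 7) (.ch (nat_lit 5) (.ev (nat_lit 52) (nat_lit 1426410784687120) (.ev
 (nat_lit 468) (nat_lit 4194304) (.ev (nat_lit 544) (nat_lit 648714008172640) .dd)))) (.ch (nat_lit 7) (.ev
 (nat_lit 52) (nat_lit 1760387372715056) (.ev (nat_lit 276) (nat_lit 290271069732864) (.ev (nat_lit 500)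
 (nat_lit 2199023255552) (.ev (nat_lit 756) (nat_lit 2097152) (.ev (nat_lit 1376) (nat_lit 67108928) (.ev
 (nat_lit 2272) (nat_lit 17592186044416) (.nd (nat_lit 2336) (.br (nat_lit 3) (.br (nat_lit 2) (.ch (nat_lit 0)
 (.ev (nat_lit 2352) (nat_lit 4398050709504) (.ev (nat_lit 2464) (nat_lit 274877906944) (.ev (nat_lit 2477)
 (nat_lit 2147483648) .dd)))) (.ch (nat_lit 2) (.ev (nat_lit 2352) (nat_lit 4675076100096) .dd))) (.br (nat_lit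
 6) (.ch (nat_lit 3) (.ev (nat_lit 2352) (nat_lit 4672928612352) (.ev (nat_lit 2560) (nat_lit 2147483648) (.ev
 (nat_lit 2573) (nat_lit 4096) .dd)))) (.ch (nat_lit 6) (.ev (nat_lit 2352) (nat_lit 274877906944) (.ev
 (nat_lit 2532) (nat_lit 4194304) (.ev (nat_lit 2544) (nat_lit 2147483648) (.ev (nat_lit 2672) (nat_lit
 4398046511104) (.ev (nat_lit 2685) (nat_lit 4096) .dd))))))))))))))))))) (.br (nat_lit 15) (.br (nat_lit 11)
 (.ch (nat_lit 8) (.ev (nat_lit 52) (nat_lit 27764889785344) (.ev (nat_lit 244) (nat_lit 4398046511104) (.ev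
 (nat_lit 276) (nat_lit 70368744177664) (.ev (nat_lit 532) (nat_lit 562949953421312) (.ev (nat_lit 692)
 (nat_lit 68719476736) (.ev (nat_lit 2112) (nat_lit 1125899906842624) (.nd (nat_lit 2336) (.br (nat_lit 3) (.ch
 (nat_lit 2) (.ev (nat_lit 2352) (nat_lit 281475513581616) (.ev (nat_lit 2452) (nat_lit 64) (.ev (nat_lit 2560)
 (nat_lit 2199023257600) .dd)))) (.br (nat_lit 6) (.ch (nat_lit 3) (.ev (nat_lit 2352) (nat_lit
 283673999968336) (.ev (nat_lit 2452) (nat_lit 536870912) (.ev (nat_lit 2461) (nat_lit 32) .dd)))) (.ch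
 (nat_lit 6) (.ev (nat_lit 2352) (nat_lit 2199023257696) (.ev (nat_lit 2592) (nat_lit 536870912) (.ev (nat_lit
 2628) (nat_lit 281474976710656) (.ev (nat_lit 2637) (nat_lit 16) .dd))))))))))))))) (.br (nat_lit 12) (.ch
 (nat_lit 11) (.ev (nat_lit 52) (nat_lit 575113301100608) (.ev (nat_lit 192) (nat_lit 1500011495953456) .dd)))
 (.ch (nat_lit 12) (.ev (nat_lit 52) (nat_lit 299069914515552) (.ev (nat_lit 276) (nat_lit 1125899906842624)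
 (.ev (nat_lit 372) (nat_lit 274877906944) (.ev (nat_lit 436) (nat_lit 562949953421312) (.ev (nat_lit 468)
 (nat_lit 2097152) (.ev (nat_lit 1712) (nat_lit 2199023255552) (.nd (nat_lit 2336) (.br (nat_lit 2) (.br
 (nat_lit 1) (.ch (nat_lit 0) (.ev (nat_lit 2352) (nat_lit 80333072503808) (.fin (nat_lit
 576465700116709948)))) (.ch (nat_lit 1) (.ev (nat_lit 2352) (nat_lit 13194143728640) (.ev (nat_lit 2532)
 (nat_lit 1099511627776) (.ev (nat_lit 2628) (nat_lit 4096) (.ev (nat_lit 2912) (nat_lit 70368744177664) (.ev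
 (nat_lit 3156) (nat_lit 68719476736) (.ev (nat_lit 3165) (nat_lit 16) .dd)))))))) (.br (nat_lit 3) (.ch
 (nat_lit 2) (.ev (nat_lit 2352) (nat_lit 70368744177680) (.ev (nat_lit 2452) (nat_lit 68719476736) (.ev
 (nat_lit 2496) (nat_lit 8796093022208) (.ev (nat_lit 2532) (nat_lit 1024) (.ev (nat_lit 2628) (nat_lit
 1099511627776) (.ev (nat_lit 2692) (nat_lit 4096) (.ev (nat_lit 2740) (nat_lit 4398046511104) (.ev (nat_lit
 2749) (nat_lit 4194304) .dd))))))))) (.ch (nat_lit 3) (.ev (nat_lit 2352) (nat_lit 83562887909392) (.ev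
 (nat_lit 2480) (nat_lit 1099511627776) (.ev (nat_lit 2560) (nat_lit 1024) (.ev (nat_lit 2573) (nat_lit
 68719476736) .dd))))))))))))))))) (.br (nat_lit 16) (.ch (nat_lit 15) (.ev (nat_lit 52) (nat_lit
 362907628240992) (.ev (nat_lit 148) (nat_lit 2048) (.ev (nat_lit 308) (nat_lit 274877906944) (.ev (nat_lit
 436) (nat_lit 4398046511104) (.ev (nat_lit 564) (nat_lit 2097152) (.ev (nat_lit 820) (nat_lit 17592186044416)
 (.ev (nat_lit 976) (nat_lit 1688849860263952) (.nd (nat_lit 2336) (.br (nat_lit 3) (.ch (nat_lit 1) (.ev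
 (nat_lit 2352) (nat_lit 2684355584) (.ev (nat_lit 3184) (nat_lit 4096) (.ev (nat_lit 3197) (nat_lit
 1099511627776) .dd)))) (.br (nat_lit 6) (.ch (nat_lit 3) (.ev (nat_lit 2352) (nat_lit 2684354560) (.ev
 (nat_lit 2464) (nat_lit 1099511631872) (.ev (nat_lit 2477) (nat_lit 1024) .dd)))) (.ch (nat_lit 6) (.ev
 (nat_lit 2352) (nat_lit 1099511631872) (.ev (nat_lit 2544) (nat_lit 1024) (.ev (nat_lit 3156) (nat_lit
 2147483648) (.ev (nat_lit 3165) (nat_lit 536870912) .dd)))))))))))))))) (.br (nat_lit 18) (.ch (nat_lit 16)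
 (.ev (nat_lit 52) (nat_lit 1698745471470624) (.ev (nat_lit 256) (nat_lit 376379325583440) .dd))) (.ch (nat_lit
 18) (.ev (nat_lit 52) (nat_lit 1223000596713552) (.ev (nat_lit 308) (nat_lit 281474976710656) (.ev (nat_lit
 672) (nat_lit 570649223629856) .dd)))))))) (.br (nat_lit 29) (.br (nat_lit 23) (.br (nat_lit 22) (.ch (nat_lit
 19) (.ev (nat_lit 52) (nat_lit 591812672915456) (.ev (nat_lit 212) (nat_lit 16) (.ev (nat_lit 500) (nat_lit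
 4194304) (.ev (nat_lit 788) (nat_lit 281477124194304) (.ev (nat_lit 880) (nat_lit 5497558138880) (.ev (nat_lit
 1872) (nat_lit 64) (.nd (nat_lit 2336) (.br (nat_lit 2) (.ch (nat_lit 0) (.ev (nat_lit 2352) (nat_lit
 1125968626324480) (.ev (nat_lit 3156) (nat_lit 67108864) (.ev (nat_lit 3168) (nat_lit 70368744177664) (.ev
 (nat_lit 3181) (nat_lit 32) .dd))))) (.br (nat_lit 3) (.ch (nat_lit 2) (.ev (nat_lit 2352) (nat_lit
 70437530767392) (.ev (nat_lit 2452) (nat_lit 1024) (.ev (nat_lit 2461) (nat_lit 1125899906842624) .dd)))) (.ch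
 (nat_lit 3) (.ev (nat_lit 2352) (nat_lit 1196268651021312) (.ev (nat_lit 2416) (nat_lit 68719476736) (.ev
 (nat_lit 2720) (nat_lit 67108864) (.fin (nat_lit 576461302049227332)))))))))))))))) (.ch (nat_lit 22) (.ev
 (nat_lit 52) (nat_lit 1995615751929856) (.ev (nat_lit 276) (nat_lit 1024) (.ev (nat_lit 404) (nat_lit
 274877906944) (.ev (nat_lit 564) (nat_lit 70368744177664) (.ev (nat_lit 660) (nat_lit 262144) (.ev (nat_lit
 692) (nat_lit 8796093022208) (.ev (nat_lit 896) (nat_lit 80) (.nd (nat_lit 2336) (.br (nat_lit 2) (.ch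
 (nat_lit 1) (.ev (nat_lit 2352) (nat_lit 69329747968) (.ev (nat_lit 2608) (nat_lit 32) (.ev (nat_lit 3156)
 (nat_lit 2048) (.ev (nat_lit 3165) (nat_lit 4096) .dd))))) (.br (nat_lit 3) (.ch (nat_lit 2) (.ev (nat_lit
 2352) (nat_lit 603981856) (.ev (nat_lit 2532) (nat_lit 6291456) (.ev (nat_lit 2672) (nat_lit 68719480832)
 .dd)))) (.ch (nat_lit 3) (.ev (nat_lit 2352) (nat_lit 6297632) (.ev (nat_lit 2608) (nat_lit 536870912) (.ev
 (nat_lit 3156) (nat_lit 67108864) (.ev (nat_lit 3165) (nat_lit 68719476736) .dd))))))))))))))))) (.br (nat_lit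
 24) (.ch (nat_lit 23) (.ev (nat_lit 52) (nat_lit 1422768046348352) (.ev (nat_lit 372) (nat_lit 16) (.ev
 (nat_lit 468) (nat_lit 17592186044416) (.ev (nat_lit 756) (nat_lit 4194304) (.nd (nat_lit 2336) (.br (nat_lit
 3) (.br (nat_lit 2) (.ch (nat_lit 1) (.ev (nat_lit 2352) (nat_lit 70371430662176) (.ev (nat_lit 2464) (nat_lit
 68719476736) (.ev (nat_lit 2532) (nat_lit 274877906944) (.ev (nat_lit 2640) (nat_lit 564049465049088) (.ev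
 (nat_lit 2870) (nat_lit 67372032) .dd)))))) (.ch (nat_lit 2) (.ev (nat_lit 2352) (nat_lit 633596329329696)
 (.ev (nat_lit 2368) (nat_lit 32768) (.ev (nat_lit 2480) (nat_lit 1099511627776) (.ev (nat_lit 2493) (nat_lit
 68719476736) .dd)))))) (.br (nat_lit 6) (.ch (nat_lit 3) (.ev (nat_lit 2352) (nat_lit 70712878432256) (.ev
 (nat_lit 2452) (nat_lit 262144) (.ev (nat_lit 2544) (nat_lit 1099511627776) (.ev (nat_lit 2560) (nat_lit
 562949953421312) (.ev (nat_lit 2896) (nat_lit 32) (.ev (nat_lit 3156) (nat_lit 2147483648) (.ev (nat_lit 3254)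
 (nat_lit 69238784) (.ev (nat_lit 3261) (nat_lit 1024) .dd))))))))) (.ch (nat_lit 6) (.ev (nat_lit 2352)
 (nat_lit 1445323899936) (.ev (nat_lit 2368) (nat_lit 2097152) (.ev (nat_lit 2452) (nat_lit 562949953421312)
 (.ev (nat_lit 2532) (nat_lit 536870912) (.ev (nat_lit 2541) (nat_lit 70368744177664) .dd)))))))))))))) (.br
 (nat_lit 26) (.ch (nat_lit 24) (.ev (nat_lit 52) (nat_lit 1510797696042016) (.ev (nat_lit 244) (nat_lit
 562949953421312) (.ev (nat_lit 308) (nat_lit 2147483648) (.ev (nat_lit 500) (nat_lit 2097152) (.ev (nat_lit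
 564) (nat_lit 16) (.ev (nat_lit 704) (nat_lit 1374998009920) .dd))))))) (.ch (nat_lit 26) (.ev (nat_lit 52)
 (nat_lit 568450200371216) (.ev (nat_lit 212) (nat_lit 32) (.ev (nat_lit 308) (nat_lit 1125899906842624) (.ev
 (nat_lit 340) (nat_lit 70368744177664) (.ev (nat_lit 2016) (nat_lit 26388279066624) (.ev (nat_lit 2224)
 (nat_lit 274945015808) (.nd (nat_lit 2336) (.br (nat_lit 2) (.br (nat_lit 1) (.ch (nat_lit 0) (.ev (nat_lit
 2352) (nat_lit 283742721577984) (.ev (nat_lit 2480) (nat_lit 2048) (.ev (nat_lit 2493) (nat_lit 64) .dd))))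
 (.ch (nat_lit 1) (.ev (nat_lit 2352) (nat_lit 2098240) (.ev (nat_lit 2544) (nat_lit 2048) (.ev (nat_lit 2560)
 (nat_lit 32768) (.ev (nat_lit 2576) (nat_lit 2199023255552) (.ev (nat_lit 2784) (nat_lit 68719476736) (.ev
 (nat_lit 3156) (nat_lit 4096) (.ev (nat_lit 3165) (nat_lit 281474976710656) .dd))))))))) (.br (nat_lit 3) (.ch
 (nat_lit 2) (.ev (nat_lit 2352) (nat_lit 2199023256640) (.ev (nat_lit 2544) (nat_lit 32768) (.ev (nat_lit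
 2560) (nat_lit 2048) (.ev (nat_lit 2576) (nat_lit 2097152) (.ev (nat_lit 3156) (nat_lit 4096) (.ev (nat_lit
 3220) (nat_lit 281474976710656) (.ev (nat_lit 3229) (nat_lit 68719476736) .dd)))))))) (.ch (nat_lit 3) (.ev
 (nat_lit 2352) (nat_lit 283742721546304) (.ev (nat_lit 2480) (nat_lit 32768) (.ev (nat_lit 2493) (nat_lit
 1024) .dd))))))))))))))))) (.br (nat_lit 34) (.br (nat_lit 31) (.ch (nat_lit 29) (.ev (nat_lit 52) (nat_lit
 369505234878544) (.ev (nat_lit 148) (nat_lit 4398046511104) (.ev (nat_lit 212) (nat_lit 2147483648) (.ev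
 (nat_lit 532) (nat_lit 1099511627776) (.ev (nat_lit 1392) (nat_lit 563224831330304) (.ev (nat_lit 2320)
 (nat_lit 2199023255552) (.nd (nat_lit 2336) (.br (nat_lit 1) (.ch (nat_lit 0) (.ev (nat_lit 2352) (nat_lit
 8796093027360) (.ev (nat_lit 2464) (nat_lit 1125899908939776) .dd))) (.br (nat_lit 2) (.ch (nat_lit 1) (.ev
 (nat_lit 2352) (nat_lit 1134696001966080) (.ev (nat_lit 2544) (nat_lit 1024) (.ev (nat_lit 2557) (nat_lit 32)
 .dd)))) (.ch (nat_lit 2) (.ev (nat_lit 2352) (nat_lit 1125899908939808) (.ev (nat_lit 2464) (nat_lit 4096)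
 (.ev (nat_lit 2532) (nat_lit 1024) (.ev (nat_lit 2541) (nat_lit 8796093022208) .dd))))))))))))))) (.br
 (nat_lit 33) (.ch (nat_lit 31) (.ev (nat_lit 52) (nat_lit 1487916260130928) (.ev (nat_lit 180) (nat_lit
 567347999932416) (.ev (nat_lit 596) (nat_lit 4096) (.ev (nat_lit 768) (nat_lit 19860536986624) .dd))))) (.ch
 (nat_lit 33) (.ev (nat_lit 52) (nat_lit 595179991994480) (.ev (nat_lit 84) (nat_lit 2048) (.ev (nat_lit 212)
 (nat_lit 70368744177664) (.ev (nat_lit 276) (nat_lit 32768) (.ev (nat_lit 372) (nat_lit 281474976710656) (.ev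
 (nat_lit 564) (nat_lit 4194304) (.ev (nat_lit 660) (nat_lit 2147483648) (.ev (nat_lit 820) (nat_lit 1024) (.nd
 (nat_lit 2336) (.br (nat_lit 3) (.ch (nat_lit 2) (.ev (nat_lit 2352) (nat_lit 1125899907104768) (.ev (nat_lit
 2452) (nat_lit 2097152) (.ev (nat_lit 2461) (nat_lit 2199023255552) .dd)))) (.br (nat_lit 6) (.ch (nat_lit 3)
 (.ev (nat_lit 2352) (nat_lit 2199025352704) (.ev (nat_lit 2560) (nat_lit 262144) (.ev (nat_lit 2573) (nat_lit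
 1125899906842624) .dd)))) (.ch (nat_lit 6) (.ev (nat_lit 2352) (nat_lit 1125899909201920) (.ev (nat_lit 2365)
 (nat_lit 2199023255552) .dd))))))))))))))))) (.br (nat_lit 36) (.ch (nat_lit 34) (.ev (nat_lit 52) (nat_lit
 282574557578256) (.ev (nat_lit 84) (nat_lit 536870912) (.ev (nat_lit 116) (nat_lit 68719476768) (.ev (nat_lit
 532) (nat_lit 4096) (.ev (nat_lit 1104) (nat_lit 580542139465728) (.ev (nat_lit 1280) (nat_lit 2473901162496)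
 (.nd (nat_lit 2336) (.br (nat_lit 2) (.ch (nat_lit 1) (.ev (nat_lit 2352) (nat_lit 1209464942231616) (.ev
 (nat_lit 2452) (nat_lit 262144) (.ev (nat_lit 2461) (nat_lit 2048) .dd)))) (.br (nat_lit 3) (.ch (nat_lit 2)
 (.ev (nat_lit 2352) (nat_lit 2147485696) (.ev (nat_lit 2532) (nat_lit 8796093284352) (.ev (nat_lit 2628)
 (nat_lit 70368744177728) (.ev (nat_lit 2992) (nat_lit 1125899906842624) (.ev (nat_lit 3136) (nat_lit
 4398050705408) .dd)))))) (.ch (nat_lit 3) (.ev (nat_lit 2352) (nat_lit 1200666701989952) (.ev (nat_lit 2452)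
 (nat_lit 8796093022208) (.ev (nat_lit 2461) (nat_lit 2147483648) .dd)))))))))))))) (.br (nat_lit 38) (.ch
 (nat_lit 36) (.ev (nat_lit 52) (nat_lit 1763688126127168) (.ev (nat_lit 180) (nat_lit 1099511627776) (.ev
 (nat_lit 276) (nat_lit 17592186044416) (.ev (nat_lit 340) (nat_lit 274877906944) (.ev (nat_lit 468) (nat_lit
 16) (.ev (nat_lit 500) (nat_lit 32) (.ev (nat_lit 564) (nat_lit 2199023255552) (.nd (nat_lit 2336) (.br
 (nat_lit 3) (.ch (nat_lit 0) (.ev (nat_lit 2352) (nat_lit 281474978807808) (.ev (nat_lit 2560) (nat_lit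
 8796093022208) (.ev (nat_lit 2573) (nat_lit 262144) .dd)))) (.br (nat_lit 6) (.ch (nat_lit 3) (.ev (nat_lit
 2352) (nat_lit 290271069995008) (.ev (nat_lit 2365) (nat_lit 2097152) .dd))) (.ch (nat_lit 6) (.ev (nat_lit
 2352) (nat_lit 8796093284352) (.ev (nat_lit 2452) (nat_lit 281474976710656) (.ev (nat_lit 2461) (nat_lit
 2097152) .dd))))))))))))))) (.ch (nat_lit 38) (.ev (nat_lit 52) (nat_lit 297214488348688) (.ev (nat_lit 84)
 (nat_lit 64) (.ev (nat_lit 180) (nat_lit 4096) (.ev (nat_lit 276) (nat_lit 4194304) (.ev (nat_lit 372)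
 (nat_lit 1125899906842624) (.ev (nat_lit 788) (nat_lit 32768) (.ev (nat_lit 1648) (nat_lit 1099511627776) (.nd
 (nat_lit 2336) (.br (nat_lit 2) (.ch (nat_lit 0) (.ev (nat_lit 2352) (nat_lit 562949955780608) (.ev (nat_lit
 2692) (nat_lit 1024) (.ev (nat_lit 3072) (nat_lit 32) (.ev (nat_lit 3204) (nat_lit 70368744177664) (.ev
 (nat_lit 3213) (nat_lit 17592186044416) .dd)))))) (.br (nat_lit 3) (.ch (nat_lit 2) (.ev (nat_lit 2352)
 (nat_lit 562949953684512) (.ev (nat_lit 2852) (nat_lit 70368744177664) (.ev (nat_lit 3168) (nat_lit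
 17592188141568) .dd)))) (.ch (nat_lit 3) (.ev (nat_lit 2352) (nat_lit 87960930222112) (.ev (nat_lit 2368)
 (nat_lit 2097152) (.ev (nat_lit 2452) (nat_lit 1024) (.ev (nat_lit 2496) (nat_lit 562949953683456)
 .dd))))))))))))))))))))) (.br (nat_lit 54) (.br (nat_lit 47) (.br (nat_lit 43) (.br (nat_lit 42) (.ch (nat_lit
 39) (.ev (nat_lit 52) (nat_lit 31132074640496) (.ev (nat_lit 384) (nat_lit 2043992722413568) .dd))) (.ch
 (nat_lit 42) (.ev (nat_lit 52) (nat_lit 384829611052144) (.ev (nat_lit 340) (nat_lit 1125899906842624) (.ev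
 (nat_lit 788) (nat_lit 68719476736) (.ev (nat_lit 820) (nat_lit 32768) (.ev (nat_lit 1264) (nat_lit
 1101659111424) (.ev (nat_lit 2128) (nat_lit 274877906944) (.nd (nat_lit 2336) (.br (nat_lit 2) (.ch (nat_lit
 1) (.ev (nat_lit 2352) (nat_lit 69206016) (.ev (nat_lit 2452) (nat_lit 4096) (.ev (nat_lit 2461) (nat_lit
 562949953421312) .dd)))) (.br (nat_lit 3) (.ch (nat_lit 2) (.ev (nat_lit 2352) (nat_lit 562950020534272) (.ev
 (nat_lit 2365) (nat_lit 2097152) .dd))) (.ch (nat_lit 3) (.ev (nat_lit 2352) (nat_lit 562949953421312) (.ev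
 (nat_lit 2592) (nat_lit 4096) (.ev (nat_lit 3156) (nat_lit 2097152) (.ev (nat_lit 3165) (nat_lit 67108864)
 .dd)))))))))))))))) (.br (nat_lit 44) (.ch (nat_lit 43) (.ev (nat_lit 52) (nat_lit 569549240177664) (.ev
 (nat_lit 372) (nat_lit 70368744177664) (.ev (nat_lit 564) (nat_lit 8796093022208) (.ev (nat_lit 928) (nat_lit
 2080) (.ev (nat_lit 1344) (nat_lit 1125899906842624) (.ev (nat_lit 1600) (nat_lit 281475513581568) (.nd
 (nat_lit 2336) (.br (nat_lit 3) (.ch (nat_lit 2) (.ev (nat_lit 2352) (nat_lit 18966579773456) (.ev (nat_lit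
 2480) (nat_lit 68719476736) (.ev (nat_lit 2493) (nat_lit 64) .dd)))) (.br (nat_lit 6) (.ch (nat_lit 3) (.ev
 (nat_lit 2352) (nat_lit 17592186044480) (.ev (nat_lit 2532) (nat_lit 1099515822080) (.ev (nat_lit 2576)
 (nat_lit 68719476736) (.ev (nat_lit 2628) (nat_lit 274877906944) (.ev (nat_lit 2637) (nat_lit 16) .dd))))))
 (.ch (nat_lit 6) (.ev (nat_lit 2352) (nat_lit 1443113205824) (.ev (nat_lit 2368) (nat_lit 16) (.ev (nat_lit
 2381) (nat_lit 17592186044416) .dd)))))))))))))) (.br (nat_lit 46) (.ch (nat_lit 44) (.ev (nat_lit 52)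
 (nat_lit 863391575181328) (.ev (nat_lit 500) (nat_lit 1196268651020288) (.ev (nat_lit 596) (nat_lit 64) (.ev
 (nat_lit 788) (nat_lit 1024) (.ev (nat_lit 1120) (nat_lit 2199027449856) (.ev (nat_lit 1824) (nat_lit
 8796093022208) (.nd (nat_lit 2336) (.br (nat_lit 1) (.ch (nat_lit 0) (.ev (nat_lit 2352) (nat_lit 69256384544)
 (.ev (nat_lit 2452) (nat_lit 4398046511104) (.ev (nat_lit 2461) (nat_lit 2147483648) .dd)))) (.br (nat_lit 3)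
 (.ch (nat_lit 1) (.ev (nat_lit 2352) (nat_lit 4400730869760) (.ev (nat_lit 3156) (nat_lit 32800) (.ev (nat_lit
 3165) (nat_lit 68719476736) .dd)))) (.ch (nat_lit 3) (.ev (nat_lit 2352) (nat_lit 4400194027520) (.ev (nat_lit
 2416) (nat_lit 536870912) (.ev (nat_lit 3344) (nat_lit 68719476736) (.fin (nat_lit
 576461302049227332)))))))))))))))) (.ch (nat_lit 46) (.ev (nat_lit 52) (nat_lit 95659661204496) (.ev (nat_lit
 596) (nat_lit 562949953421312) (.ev (nat_lit 660) (nat_lit 4194304) (.ev (nat_lit 724) (nat_lit 32768) (.ev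
 (nat_lit 1424) (nat_lit 1416171513446400) (.nd (nat_lit 2336) (.br (nat_lit 1) (.ch (nat_lit 0) (.ev (nat_lit
 2352) (nat_lit 343597383712) (.ev (nat_lit 2384) (nat_lit 262144) (.ev (nat_lit 2452) (nat_lit 67108864) (.ev
 (nat_lit 2461) (nat_lit 64) .dd))))) (.br (nat_lit 2) (.ch (nat_lit 1) (.ev (nat_lit 2352) (nat_lit
 68719738944) (.ev (nat_lit 2452) (nat_lit 32) (.ev (nat_lit 2480) (nat_lit 67108864) (.ev (nat_lit 2493)
 (nat_lit 274877906944) .dd))))) (.ch (nat_lit 2) (.ev (nat_lit 2352) (nat_lit 274945278048) (.ev (nat_lit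
 2365) (nat_lit 68719476736) .dd))))))))))))))) (.br (nat_lit 50) (.br (nat_lit 48) (.ch (nat_lit 47) (.ev
 (nat_lit 52) (nat_lit 1481319194302464) (.ev (nat_lit 116) (nat_lit 16) (.ev (nat_lit 148) (nat_lit 64) (.ev
 (nat_lit 308) (nat_lit 68719476736) (.ev (nat_lit 564) (nat_lit 32768) (.ev (nat_lit 660) (nat_lit 32) (.ev
 (nat_lit 788) (nat_lit 8796093022208) (.ev (nat_lit 1136) (nat_lit 17592722915328) (.nd (nat_lit 2336) (.br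
 (nat_lit 2) (.ch (nat_lit 1) (.ev (nat_lit 2352) (nat_lit 67108864) (.ev (nat_lit 2628) (nat_lit
 4398046511104) (.ev (nat_lit 2960) (nat_lit 1024) (.ev (nat_lit 3104) (nat_lit 562949953683456) .dd))))) (.br
 (nat_lit 3) (.ch (nat_lit 2) (.ev (nat_lit 2352) (nat_lit 567348067303424) (.ev (nat_lit 2365) (nat_lit 1024)
 .dd))) (.ch (nat_lit 3) (.ev (nat_lit 2352) (nat_lit 567347999932416) (.ev (nat_lit 2628) (nat_lit 1024) (.ev
 (nat_lit 2672) (nat_lit 67371008) .dd)))))))))))))))) (.br (nat_lit 49) (.ch (nat_lit 48) (.ev (nat_lit 52)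
 (nat_lit 868685594230816) (.ev (nat_lit 320) (nat_lit 1206439202823248) .dd))) (.ch (nat_lit 49) (.ev (nat_lit
 52) (nat_lit 1760593530887200) (.ev (nat_lit 116) (nat_lit 2097152) (.ev (nat_lit 212) (nat_lit 4194304) (.ev
 (nat_lit 340) (nat_lit 68719476736) (.ev (nat_lit 1088) (nat_lit 10997263761408) (.ev (nat_lit 1808) (nat_lit
 64) (.ev (nat_lit 2032) (nat_lit 67108864) (.nd (nat_lit 2336) (.br (nat_lit 3) (.ch (nat_lit 1) (.ev (nat_lit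
 2352) (nat_lit 17592186306576) (.ev (nat_lit 2544) (nat_lit 4398046511104) (.ev (nat_lit 2557) (nat_lit
 281474976710656) .dd)))) (.br (nat_lit 6) (.ch (nat_lit 3) (.ev (nat_lit 2352) (nat_lit 303465209266176) (.ev
 (nat_lit 2592) (nat_lit 262160) .dd))) (.ch (nat_lit 6) (.ev (nat_lit 2352) (nat_lit 4398046773264) (.ev
 (nat_lit 2532) (nat_lit 17592186044416) (.ev (nat_lit 2541) (nat_lit 281474976710656) .dd)))))))))))))))))
 (.br (nat_lit 51) (.ch (nat_lit 50) (.ev (nat_lit 52) (nat_lit 98958800097280) (.ev (nat_lit 212) (nat_lit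
 281474976710656) (.ev (nat_lit 308) (nat_lit 1024) (.ev (nat_lit 468) (nat_lit 274877906944) (.ev (nat_lit
 724) (nat_lit 1125899906842624) (.nd (nat_lit 2336) (.br (nat_lit 3) (.ch (nat_lit 0) (.ev (nat_lit 2352)
 (nat_lit 564118188720176) (.ev (nat_lit 2512) (nat_lit 262144) (.ev (nat_lit 2692) (nat_lit 2048) (.ev
 (nat_lit 3088) (nat_lit 4398046511104) (.ev (nat_lit 3101) (nat_lit 64) .dd)))))) (.br (nat_lit 6) (.ch
 (nat_lit 3) (.ev (nat_lit 2352) (nat_lit 567348004128864) (.ev (nat_lit 2532) (nat_lit 68719738880) (.ev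
 (nat_lit 2628) (nat_lit 16) (.ev (nat_lit 2637) (nat_lit 1099511627776) .dd))))) (.ch (nat_lit 6) (.ev
 (nat_lit 2352) (nat_lit 5497558403152) (.ev (nat_lit 2512) (nat_lit 68719476736) (.ev (nat_lit 2692) (nat_lit
 32) (.ev (nat_lit 2944) (nat_lit 4194304) (.ev (nat_lit 2957) (nat_lit 562949953421312) .dd)))))))))))))))
 (.br (nat_lit 53) (.ch (nat_lit 51) (.ev (nat_lit 52) (nat_lit 296868682667024) (.ev (nat_lit 212) (nat_lit
 262144) (.ev (nat_lit 352) (nat_lit 1778256114124896) .dd)))) (.ch (nat_lit 53) (.ev (nat_lit 52) (nat_lit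
 79236308145248) (.ev (nat_lit 308) (nat_lit 32768) (.ev (nat_lit 404) (nat_lit 262144) (.ev (nat_lit 500)
 (nat_lit 274877906944) (.ev (nat_lit 596) (nat_lit 4398046511104) (.ev (nat_lit 1072) (nat_lit
 300166674382848) (.ev (nat_lit 1920) (nat_lit 1125899906842624) (.nd (nat_lit 2336) (.br (nat_lit 2) (.ch
 (nat_lit 0) (.ev (nat_lit 2352) (nat_lit 565148982968320) (.ev (nat_lit 2532) (nat_lit 16) (.ev (nat_lit 2541)
 (nat_lit 2048) .dd)))) (.br (nat_lit 6) (.ch (nat_lit 2) (.ev (nat_lit 2352) (nat_lit 562949953423376) (.ev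
 (nat_lit 2592) (nat_lit 2199023255552) (.ev (nat_lit 2628) (nat_lit 2097152) (.ev (nat_lit 2637) (nat_lit
 4194304) .dd))))) (.ch (nat_lit 6) (.ev (nat_lit 2352) (nat_lit 2199025354768) (.ev (nat_lit 2560) (nat_lit
 562949953421312) (.ev (nat_lit 2573) (nat_lit 4194304) .dd))))))))))))))))))) (.br (nat_lit 64) (.br (nat_lit
 57) (.br (nat_lit 55) (.ch (nat_lit 54) (.ev (nat_lit 52) (nat_lit 1205410495234048) (.ev (nat_lit 96)
 (nat_lit 869714301820016) .dd))) (.ch (nat_lit 55) (.ev (nat_lit 52) (nat_lit 653179230360608) (.ev (nat_lit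
 116) (nat_lit 281474976710656) (.ev (nat_lit 212) (nat_lit 274877906944) (.ev (nat_lit 340) (nat_lit 262144)
 (.ev (nat_lit 640) (nat_lit 1140195711813712) .dd))))))) (.br (nat_lit 58) (.ch (nat_lit 57) (.ev (nat_lit 52)
 (nat_lit 1412116533741680) (.ev (nat_lit 212) (nat_lit 17592186044416) (.ev (nat_lit 372) (nat_lit 32768) (.ev
 (nat_lit 404) (nat_lit 8796093022208) (.ev (nat_lit 500) (nat_lit 1024) (.ev (nat_lit 736) (nat_lit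
 636619984211968) .dd))))))) (.br (nat_lit 62) (.ch (nat_lit 58) (.ev (nat_lit 52) (nat_lit 1208363816091728)
 (.ev (nat_lit 84) (nat_lit 67108864) (.ev (nat_lit 276) (nat_lit 32) (.ev (nat_lit 372) (nat_lit 4194304) (.ev
 (nat_lit 404) (nat_lit 2097152) (.ev (nat_lit 468) (nat_lit 281474976710656) (.ev (nat_lit 692) (nat_lit
 2147483648) (.ev (nat_lit 1488) (nat_lit 274877906944) (.ev (nat_lit 2000) (nat_lit 562949953421312) (.ev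
 (nat_lit 2176) (nat_lit 2048) (.nd (nat_lit 2336) (.br (nat_lit 3) (.ch (nat_lit 1) (.ev (nat_lit 2352)
 (nat_lit 17660905526272) (.ev (nat_lit 2365) (nat_lit 4398046511104) .dd))) (.br (nat_lit 6) (.ch (nat_lit 3)
 (.ev (nat_lit 2352) (nat_lit 21990232555520) (.ev (nat_lit 2464) (nat_lit 1024) (.ev (nat_lit 2532) (nat_lit
 68719476736) (.ev (nat_lit 2541) (nat_lit 4096) .dd))))) (.ch (nat_lit 6) (.ev (nat_lit 2352) (nat_lit
 4466765988864) (.ev (nat_lit 2576) (nat_lit 17592186048512) .dd))))))))))))))))) (.ch (nat_lit 62) (.ev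
 (nat_lit 52) (nat_lit 587139817706496) (.ev (nat_lit 212) (nat_lit 68719476736) (.ev (nat_lit 660) (nat_lit
 274877906944) (.ev (nat_lit 692) (nat_lit 2097152) (.ev (nat_lit 724) (nat_lit 2147483648) (.ev (nat_lit 756)
 (nat_lit 70368744177664) (.ev (nat_lit 864) (nat_lit 290271069732896) (.ev (nat_lit 1328) (nat_lit
 1099511627776) (.nd (nat_lit 2336) (.br (nat_lit 3) (.ch (nat_lit 2) (.ev (nat_lit 2352) (nat_lit 16) (.ev
 (nat_lit 2532) (nat_lit 1125899906842624) (.ev (nat_lit 2576) (nat_lit 2048) (.ev (nat_lit 2589) (nat_lit 64)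
 .dd))))) (.br (nat_lit 6) (.ch (nat_lit 3) (.ev (nat_lit 2352) (nat_lit 1125899906844736) (.ev (nat_lit 2365)
 (nat_lit 16) .dd))) (.ch (nat_lit 6) (.ev (nat_lit 2352) (nat_lit 1125899906844688) (.ev (nat_lit 2365)
 (nat_lit 64) .dd)))))))))))))))))) (.br (nat_lit 68) (.br (nat_lit 65) (.ch (nat_lit 64) (.ev (nat_lit 52)
 (nat_lit 75868986676320) (.ev (nat_lit 244) (nat_lit 2048) (.ev (nat_lit 404) (nat_lit 32768) (.ev (nat_lit
 500) (nat_lit 16) (.ev (nat_lit 912) (nat_lit 71303168) (.ev (nat_lit 1408) (nat_lit 292470092988416) (.nd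
 (nat_lit 2336) (.br (nat_lit 3) (.ch (nat_lit 0) (.ev (nat_lit 2352) (nat_lit 562949953683456) (.ev (nat_lit
 2532) (nat_lit 1126174784749568) (.ev (nat_lit 2576) (nat_lit 17592186044416) (.ev (nat_lit 2628) (nat_lit
 2097152) (.ev (nat_lit 2637) (nat_lit 68719476736) .dd)))))) (.br (nat_lit 6) (.ch (nat_lit 3) (.ev (nat_lit
 2352) (nat_lit 1706716926312448) (.ev (nat_lit 2368) (nat_lit 68719476736) (.ev (nat_lit 2381) (nat_lit
 262144) .dd)))) (.ch (nat_lit 6) (.ev (nat_lit 2352) (nat_lit 1126243506585600) (.ev (nat_lit 2480) (nat_lit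
 17592186044416) (.ev (nat_lit 2493) (nat_lit 562949953421312) .dd)))))))))))))) (.br (nat_lit 67) (.ch
 (nat_lit 65) (.ev (nat_lit 52) (nat_lit 365040075278384) (.ev (nat_lit 288) (nat_lit 1710084721775680) .dd)))
 (.ch (nat_lit 67) (.ev (nat_lit 52) (nat_lit 929156044953664) (.ev (nat_lit 212) (nat_lit 1125899906842624)
 (.ev (nat_lit 340) (nat_lit 32) (.ev (nat_lit 404) (nat_lit 17592186044416) (.ev (nat_lit 468) (nat_lit
 2199023256576) (.ev (nat_lit 692) (nat_lit 4194304) (.ev (nat_lit 992) (nat_lit 2751463424) (.nd (nat_lit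
 2336) (.br (nat_lit 1) (.ch (nat_lit 0) (.ev (nat_lit 2352) (nat_lit 294912) (.ev (nat_lit 2544) (nat_lit
 2097152) (.ev (nat_lit 3156) (nat_lit 274877906944) (.ev (nat_lit 3165) (nat_lit 16) .dd))))) (.br (nat_lit 2)
 (.ch (nat_lit 1) (.ev (nat_lit 2352) (nat_lit 274880004112) (.ev (nat_lit 3312) (nat_lit 294912) .dd))) (.ch
 (nat_lit 2) (.ev (nat_lit 2352) (nat_lit 274877906960) (.ev (nat_lit 2464) (nat_lit 294912) (.ev (nat_lit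
 2477) (nat_lit 2097152) .dd))))))))))))))))) (.br (nat_lit 69) (.ch (nat_lit 68) (.ev (nat_lit 52) (nat_lit
 73667889368080) (.ev (nat_lit 448) (nat_lit 2001456907685984) .dd))) (.br (nat_lit 70) (.ch (nat_lit 69) (.ev
 (nat_lit 52) (nat_lit 1760320874088560) (.ev (nat_lit 116) (nat_lit 17592186044416) (.ev (nat_lit 372)
 (nat_lit 1024) (.ev (nat_lit 436) (nat_lit 4096) (.ev (nat_lit 660) (nat_lit 2199023255552) (.ev (nat_lit 800)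
 (nat_lit 295012713660416) .dd))))))) (.ch (nat_lit 70) (.ev (nat_lit 52) (nat_lit 88304534163520) (.ev
 (nat_lit 116) (nat_lit 8796093022208) (.ev (nat_lit 180) (nat_lit 2048) (.ev (nat_lit 628) (nat_lit
 562949953421312) (.ev (nat_lit 660) (nat_lit 32768) (.ev (nat_lit 692) (nat_lit 16) (.ev (nat_lit 820)
 (nat_lit 1128098930098176) (.ev (nat_lit 1664) (nat_lit 67108864) (.nd (nat_lit 2336) (.br (nat_lit 2) (.ch
 (nat_lit 1) (.ev (nat_lit 2352) (nat_lit 281477661065216) (.ev (nat_lit 2692) (nat_lit 32) (.ev (nat_lit 2752)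
 (nat_lit 1024) (.ev (nat_lit 2928) (nat_lit 1099511627776) (.ev (nat_lit 2941) (nat_lit 4398046511104)
 .dd)))))) (.br (nat_lit 6) (.ch (nat_lit 2) (.ev (nat_lit 2352) (nat_lit 282576635822112) (.ev (nat_lit 3236)
 (nat_lit 1024) (.ev (nat_lit 3296) (nat_lit 536870912) (.ev (nat_lit 3309) (nat_lit 4398046511104) .dd)))))
 (.ch (nat_lit 6) (.ev (nat_lit 2352) (nat_lit 5497558139904) (.ev (nat_lit 2368) (nat_lit 536870912) (.ev
 (nat_lit 2452) (nat_lit 32) (.ev (nat_lit 2496) (nat_lit 281477124194304) .dd)))))))))))))))))))))))))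

/-- Subtrie. -/
noncomputable def T3 : Tr := (.ev (nat_lit 20) (nat_lit 721288284865584) (.nd (nat_lit 33) (.br (nat_lit 39)
 (.br (nat_lit 19) (.br (nat_lit 8) (.br (nat_lit 4) (.br (nat_lit 3) (.ch (nat_lit 1) (.ev (nat_lit 52)
 (nat_lit 4790503459657792) (.ev (nat_lit 84) (nat_lit 262144) (.ev (nat_lit 116) (nat_lit 2097152) (.ev
 (nat_lit 340) (nat_lit 1099511660544) (.ev (nat_lit 628) (nat_lit 2147483648) (.ev (nat_lit 820) (nat_lit 512)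
 (.ev (nat_lit 1360) (nat_lit 8796093022208) (.ev (nat_lit 1968) (nat_lit 65536) (.ev (nat_lit 2192) (nat_lit
 1125899906842624) (.nd (nat_lit 2336) (.br (nat_lit 3) (.ch (nat_lit 2) (.ev (nat_lit 2352) (nat_lit
 70369549484032) (.ev (nat_lit 2576) (nat_lit 2199027449856) .dd))) (.br (nat_lit 6) (.ch (nat_lit 3) (.ev
 (nat_lit 2352) (nat_lit 70368748371968) (.ev (nat_lit 2464) (nat_lit 536870912) (.ev (nat_lit 2532) (nat_lit
 268435456) (.ev (nat_lit 2541) (nat_lit 2199023255552) .dd))))) (.ch (nat_lit 6) (.ev (nat_lit 2352) (nat_lit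
 2199832756224) (.ev (nat_lit 2365) (nat_lit 70368744177664) .dd)))))))))))))))) (.ch (nat_lit 3) (.ev (nat_lit
 52) (nat_lit 4787274187446848) (.ev (nat_lit 116) (nat_lit 549755813888) (.ev (nat_lit 148) (nat_lit
 8796093022208) (.ev (nat_lit 308) (nat_lit 268435456) (.ev (nat_lit 564) (nat_lit 65536) (.ev (nat_lit 788)
 (nat_lit 68719476736) (.nd (nat_lit 2336) (.br (nat_lit 3) (.br (nat_lit 2) (.ch (nat_lit 0) (.ev (nat_lit
 2352) (nat_lit 1127413883076608) (.ev (nat_lit 2432) (nat_lit 70368744177664) (.ev (nat_lit 2445) (nat_lit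
 4398046511104) .dd)))) (.ch (nat_lit 2) (.ev (nat_lit 2352) (nat_lit 1200806284230656) (.ev (nat_lit 2432)
 (nat_lit 274877906944) (.ev (nat_lit 2445) (nat_lit 1099511627776) .dd))))) (.br (nat_lit 6) (.ch (nat_lit 3)
 (.ev (nat_lit 2352) (nat_lit 4535485464576) (.ev (nat_lit 2496) (nat_lit 1125899906842624) (.ev (nat_lit 2532)
 (nat_lit 1101659111424) (.ev (nat_lit 2544) (nat_lit 70368744177664) (.ev (nat_lit 2656) (nat_lit
 274877906944) (.ev (nat_lit 2669) (nat_lit 262144) .dd))))))) (.ch (nat_lit 6) (.ev (nat_lit 2352) (nat_lit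
 1126999418470400) (.ev (nat_lit 2496) (nat_lit 137438953472) (.ev (nat_lit 2532) (nat_lit 4398046773248) (.ev
 (nat_lit 2544) (nat_lit 274877906944) (.ev (nat_lit 2656) (nat_lit 70368744177664) (.ev (nat_lit 2669)
 (nat_lit 2147483648) .dd)))))))))))))))))) (.br (nat_lit 5) (.ch (nat_lit 4) (.ev (nat_lit 52) (nat_lit
 5633279373935104) (.ev (nat_lit 84) (nat_lit 16777216) (.ev (nat_lit 116) (nat_lit 4096) (.ev (nat_lit 180)
 (nat_lit 4194304) (.ev (nat_lit 596) (nat_lit 4398046511104) (.ev (nat_lit 692) (nat_lit 536870912) (.ev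
 (nat_lit 724) (nat_lit 32768) (.ev (nat_lit 1536) (nat_lit 2112) (.ev (nat_lit 1616) (nat_lit 79164837199872)
 (.nd (nat_lit 2336) (.br (nat_lit 5) (.ch (nat_lit 0) (.ev (nat_lit 2352) (nat_lit 551905394688) (.ev (nat_lit
 2384) (nat_lit 131072) (.ev (nat_lit 2452) (nat_lit 262144) (.ev (nat_lit 2461) (nat_lit 281474976710656)
 .dd))))) (.br (nat_lit 6) (.ch (nat_lit 5) (.ev (nat_lit 2352) (nat_lit 282026880401408) (.ev (nat_lit 2365)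
 (nat_lit 2097152) .dd))) (.ch (nat_lit 6) (.ev (nat_lit 2352) (nat_lit 281474978938880) (.ev (nat_lit 2452)
 (nat_lit 2147483648) (.ev (nat_lit 2480) (nat_lit 262144) (.ev (nat_lit 2493) (nat_lit 549755813888)
 .dd)))))))))))))))))) (.br (nat_lit 7) (.ch (nat_lit 5) (.ev (nat_lit 52) (nat_lit 1408956239052800) (.ev
 (nat_lit 84) (nat_lit 70368744177664) (.ev (nat_lit 116) (nat_lit 32768) (.ev (nat_lit 180) (nat_lit
 2147483648) (.ev (nat_lit 596) (nat_lit 262144) (.ev (nat_lit 692) (nat_lit 4503599627370496) (.ev (nat_lit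
 724) (nat_lit 4096) (.ev (nat_lit 1584) (nat_lit 9345848836096) (.ev (nat_lit 1632) (nat_lit 16779264) (.nd
 (nat_lit 2336) (.br (nat_lit 5) (.ch (nat_lit 0) (.ev (nat_lit 2352) (nat_lit 6597074026560) (.ev (nat_lit
 2365) (nat_lit 512) .dd))) (.br (nat_lit 6) (.ch (nat_lit 5) (.ev (nat_lit 2352) (nat_lit 4194880) (.ev
 (nat_lit 2384) (nat_lit 2199023255552) (.ev (nat_lit 2452) (nat_lit 4398046511104) (.ev (nat_lit 2461)
 (nat_lit 65536) .dd))))) (.ch (nat_lit 6) (.ev (nat_lit 2352) (nat_lit 2199023321600) (.ev (nat_lit 2452)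
 (nat_lit 4194304) (.ev (nat_lit 2480) (nat_lit 4398046511104) (.ev (nat_lit 2493) (nat_lit 64)
 .dd)))))))))))))))))) (.ch (nat_lit 7) (.ev (nat_lit 52) (nat_lit 5701724241430528) (.ev (nat_lit 128)
 (nat_lit 297145456595520) .dd)))))) (.br (nat_lit 15) (.br (nat_lit 11) (.ch (nat_lit 8) (.ev (nat_lit 52)
 (nat_lit 4514322305028096) (.ev (nat_lit 116) (nat_lit 1125899906842624) (.ev (nat_lit 212) (nat_lit
 536870912) (.ev (nat_lit 596) (nat_lit 2199023255552) (.ev (nat_lit 660) (nat_lit 512) (.ev (nat_lit 788)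
 (nat_lit 65536) (.ev (nat_lit 1552) (nat_lit 206158430208) (.ev (nat_lit 2240) (nat_lit 131072) (.nd (nat_lit
 2336) (.br (nat_lit 3) (.br (nat_lit 2) (.ch (nat_lit 0) (.ev (nat_lit 2352) (nat_lit 351843720890368) (.ev
 (nat_lit 2464) (nat_lit 4398046511104) (.ev (nat_lit 2477) (nat_lit 64) .dd)))) (.ch (nat_lit 2) (.ev (nat_lit
 2352) (nat_lit 356241767401536) .dd))) (.br (nat_lit 6) (.ch (nat_lit 3) (.ev (nat_lit 2352) (nat_lit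
 285873023223808) (.ev (nat_lit 2560) (nat_lit 64) (.ev (nat_lit 2573) (nat_lit 70368744177664) .dd)))) (.ch
 (nat_lit 6) (.ev (nat_lit 2352) (nat_lit 4398046511104) (.ev (nat_lit 2532) (nat_lit 281474976710656) (.ev
 (nat_lit 2544) (nat_lit 64) (.ev (nat_lit 2672) (nat_lit 2048) (.ev (nat_lit 2685) (nat_lit 70368744177664)
 .dd)))))))))))))))))) (.br (nat_lit 12) (.ch (nat_lit 11) (.ev (nat_lit 52) (nat_lit 12850827724864) (.ev
 (nat_lit 180) (nat_lit 70368744177664) (.ev (nat_lit 276) (nat_lit 4503599627370496) (.ev (nat_lit 436)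
 (nat_lit 4194304) (.ev (nat_lit 500) (nat_lit 512) (.ev (nat_lit 564) (nat_lit 274877906944) (.ev (nat_lit
 1840) (nat_lit 131072) (.nd (nat_lit 2336) (.br (nat_lit 3) (.ch (nat_lit 2) (.ev (nat_lit 2352) (nat_lit
 281477661069312) (.ev (nat_lit 2772) (nat_lit 2097152) (.ev (nat_lit 3156) (nat_lit 4398046511104) (.ev
 (nat_lit 3165) (nat_lit 1125899906842624) .dd))))) (.br (nat_lit 5) (.ch (nat_lit 3) (.ev (nat_lit 2352)
 (nat_lit 285873025323008) (.ev (nat_lit 2368) (nat_lit 1125899906842624) (.ev (nat_lit 2400) (nat_lit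
 2147483648) (.ev (nat_lit 2413) (nat_lit 536870912) .dd))))) (.ch (nat_lit 5) (.ev (nat_lit 2352) (nat_lit
 1125902054326272) (.ev (nat_lit 2576) (nat_lit 536870912) (.ev (nat_lit 2628) (nat_lit 281474976710656) (.ev
 (nat_lit 2752) (nat_lit 4398046511104) (.fin (nat_lit 576465700116709960)))))))))))))))))) (.ch (nat_lit 12)
 (.ev (nat_lit 52) (nat_lit 4785077557365312) (.ev (nat_lit 116) (nat_lit 68719476736) (.ev (nat_lit 404)
 (nat_lit 1099511627776) (.ev (nat_lit 500) (nat_lit 549755813888) (.ev (nat_lit 608) (nat_lit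
 1212074153742336) .dd)))))))) (.br (nat_lit 16) (.ch (nat_lit 15) (.ev (nat_lit 52) (nat_lit 362907578040896)
 (.ev (nat_lit 340) (nat_lit 268435456) (.ev (nat_lit 468) (nat_lit 1125899906842624) (.ev (nat_lit 500)
 (nat_lit 274877906944) (.ev (nat_lit 692) (nat_lit 65536) (.ev (nat_lit 724) (nat_lit 536870912) (.ev (nat_lit
 756) (nat_lit 4503599627370496) (.ev (nat_lit 1904) (nat_lit 549755813888) (.nd (nat_lit 2336) (.br (nat_lit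
 5) (.ch (nat_lit 3) (.ev (nat_lit 2352) (nat_lit 4535485470720) (.ev (nat_lit 3156) (nat_lit 1099511627776)
 (.ev (nat_lit 3328) (nat_lit 2149580800) .dd)))) (.br (nat_lit 6) (.ch (nat_lit 5) (.ev (nat_lit 2352)
 (nat_lit 139586437120) (.ev (nat_lit 2576) (nat_lit 2048) (.ev (nat_lit 2628) (nat_lit 4398046511104) (.ev
 (nat_lit 3280) (nat_lit 1099511627776) (.fin (nat_lit 576465700116709960))))))) (.ch (nat_lit 6) (.ev (nat_lit
 2352) (nat_lit 5497560240128) (.ev (nat_lit 2368) (nat_lit 2147483648) (.ev (nat_lit 2400) (nat_lit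
 137438953472) (.ev (nat_lit 2413) (nat_lit 2048) .dd))))))))))))))))) (.br (nat_lit 18) (.ch (nat_lit 16) (.ev
 (nat_lit 52) (nat_lit 5639532584568832) (.ev (nat_lit 180) (nat_lit 2199023255552) (.ev (nat_lit 340) (nat_lit
 64) (.ev (nat_lit 404) (nat_lit 281474976710656) (.ev (nat_lit 660) (nat_lit 268435456) (.ev (nat_lit 756)
 (nat_lit 4096) (.ev (nat_lit 960) (nat_lit 618475290624) (.ev (nat_lit 1680) (nat_lit 275414777856) (.nd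
 (nat_lit 2336) (.br (nat_lit 3) (.ch (nat_lit 0) (.ev (nat_lit 2352) (nat_lit 2164261376) (.ev (nat_lit 2512)
 (nat_lit 4398046511104) (.ev (nat_lit 2628) (nat_lit 32768) (.ev (nat_lit 2637) (nat_lit 70368744177664)
 .dd))))) (.br (nat_lit 5) (.ch (nat_lit 3) (.ev (nat_lit 2352) (nat_lit 4398063288832) (.ev (nat_lit 2512)
 (nat_lit 2147483648) (.ev (nat_lit 2628) (nat_lit 70368744177664) (.ev (nat_lit 2637) (nat_lit 32768) .dd)))))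
 (.ch (nat_lit 5) (.ev (nat_lit 2352) (nat_lit 70368744210432) (.ev (nat_lit 2452) (nat_lit 16777728) (.ev
 (nat_lit 2544) (nat_lit 4400193994752) .dd)))))))))))))))) (.ch (nat_lit 18) (.ev (nat_lit 52) (nat_lit
 5709145695096896) (.ev (nat_lit 404) (nat_lit 549755813888) (.ev (nat_lit 436) (nat_lit 4398046511104) (.ev
 (nat_lit 532) (nat_lit 2199023255552) (.ev (nat_lit 628) (nat_lit 2048) (.ev (nat_lit 660) (nat_lit 65536)
 (.ev (nat_lit 2048) (nat_lit 1099511627776) (.nd (nat_lit 2336) (.br (nat_lit 2) (.ch (nat_lit 0) (.ev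
 (nat_lit 2352) (nat_lit 2684617216) (.ev (nat_lit 2592) (nat_lit 131072) (.ev (nat_lit 2628) (nat_lit 4194304)
 (.ev (nat_lit 2637) (nat_lit 281474976710656) .dd))))) (.br (nat_lit 5) (.ch (nat_lit 2) (.ev (nat_lit 2352)
 (nat_lit 281477665260032) (.ev (nat_lit 2452) (nat_lit 131072) (.ev (nat_lit 2461) (nat_lit 262144) .dd))))
 (.ch (nat_lit 5) (.ev (nat_lit 2352) (nat_lit 281474981298176) (.ev (nat_lit 2452) (nat_lit 2147483648) (.ev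
 (nat_lit 2560) (nat_lit 536871424) .dd))))))))))))))))))) (.br (nat_lit 29) (.br (nat_lit 23) (.br (nat_lit
 22) (.ch (nat_lit 19) (.ev (nat_lit 52) (nat_lit 11820557895680) (.ev (nat_lit 212) (nat_lit 4608) (.ev
 (nat_lit 308) (nat_lit 4503599627370496) (.ev (nat_lit 628) (nat_lit 70368744177664) (.ev (nat_lit 724)
 (nat_lit 137438953472) (.ev (nat_lit 756) (nat_lit 64) (.ev (nat_lit 944) (nat_lit 282574488338432) (.nd
 (nat_lit 2336) (.br (nat_lit 3) (.ch (nat_lit 0) (.ev (nat_lit 2352) (nat_lit 1130300117614592) (.ev (nat_lit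
 2464) (nat_lit 68719476736) (.ev (nat_lit 2477) (nat_lit 4194304) .dd)))) (.br (nat_lit 6) (.ch (nat_lit 3)
 (.ev (nat_lit 2352) (nat_lit 68736253952) (.ev (nat_lit 2544) (nat_lit 1125902054326272) (.ev (nat_lit 2692)
 (nat_lit 4194304) (.ev (nat_lit 2701) (nat_lit 4398046511104) .dd))))) (.ch (nat_lit 6) (.ev (nat_lit 2352)
 (nat_lit 1125970777997312) (.ev (nat_lit 2464) (nat_lit 16777216) (.ev (nat_lit 2477) (nat_lit 4398046511104)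
 .dd))))))))))))))) (.ch (nat_lit 22) (.ev (nat_lit 52) (nat_lit 1415760824009216) (.ev (nat_lit 64) (nat_lit
 4583108874016832) .dd)))) (.br (nat_lit 24) (.ch (nat_lit 23) (.ev (nat_lit 52) (nat_lit 5926505112803904)
 (.ev (nat_lit 212) (nat_lit 2129920) (.ev (nat_lit 308) (nat_lit 536870912) (.ev (nat_lit 628) (nat_lit
 16777216) (.ev (nat_lit 724) (nat_lit 268435456) (.ev (nat_lit 756) (nat_lit 549755813888) (.ev (nat_lit 1152)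
 (nat_lit 68719542272) (.nd (nat_lit 2336) (.br (nat_lit 5) (.ch (nat_lit 2) (.ev (nat_lit 2352) (nat_lit
 71468255805440) (.ev (nat_lit 2544) (nat_lit 274882101248) (.ev (nat_lit 2692) (nat_lit 262144) (.ev (nat_lit
 2701) (nat_lit 2147483648) .dd))))) (.br (nat_lit 6) (.ch (nat_lit 5) (.ev (nat_lit 2352) (nat_lit
 70643626541056) (.ev (nat_lit 2464) (nat_lit 1099511627776) (.ev (nat_lit 2477) (nat_lit 2147483648) .dd))))
 (.ch (nat_lit 6) (.ev (nat_lit 2352) (nat_lit 1376541212672) (.ev (nat_lit 2464) (nat_lit 70368744177664) (.ev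
 (nat_lit 2477) (nat_lit 262144) .dd))))))))))))))) (.br (nat_lit 26) (.ch (nat_lit 24) (.ev (nat_lit 52)
 (nat_lit 1493205510062592) (.ev (nat_lit 244) (nat_lit 2048) (.ev (nat_lit 468) (nat_lit 137438953472) (.ev
 (nat_lit 564) (nat_lit 4096) (.ev (nat_lit 724) (nat_lit 64) (.nd (nat_lit 2336) (.br (nat_lit 5) (.br
 (nat_lit 2) (.ch (nat_lit 0) (.ev (nat_lit 2352) (nat_lit 1927121469440) (.ev (nat_lit 2368) (nat_lit 32768)
 (.ev (nat_lit 2480) (nat_lit 4503599627370496) (.ev (nat_lit 2493) (nat_lit 131072) .dd))))) (.ch (nat_lit 2)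
 (.ev (nat_lit 2352) (nat_lit 825441157120) (.ev (nat_lit 2464) (nat_lit 131072) (.ev (nat_lit 2532) (nat_lit
 4194304) (.ev (nat_lit 2640) (nat_lit 4503599644147712) (.ev (nat_lit 2740) (nat_lit 262144) (.ev (nat_lit
 3008) (nat_lit 1099511627776) (.ev (nat_lit 3021) (nat_lit 2147483648) .dd))))))))) (.br (nat_lit 6) (.ch
 (nat_lit 5) (.ev (nat_lit 2352) (nat_lit 275150667776) (.ev (nat_lit 2452) (nat_lit 2147483648) (.ev (nat_lit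
 2544) (nat_lit 4503599627370496) (.ev (nat_lit 2560) (nat_lit 16777216) (.ev (nat_lit 2784) (nat_lit 262144)
 (.ev (nat_lit 2816) (nat_lit 32768) (.ev (nat_lit 3040) (nat_lit 536870912) (.ev (nat_lit 3156) (nat_lit
 2097152) (.ev (nat_lit 3168) (nat_lit 1099511627776) (.ev (nat_lit 3181) (nat_lit 549755813888) .dd)))))))))))
 (.ch (nat_lit 6) (.ev (nat_lit 2352) (nat_lit 4504701830070272) (.ev (nat_lit 2368) (nat_lit 549755813888)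
 (.ev (nat_lit 2452) (nat_lit 16777216) (.ev (nat_lit 2532) (nat_lit 274877906944) (.ev (nat_lit 2541) (nat_lit
 268435456) .dd))))))))))))))) (.ch (nat_lit 26) (.ev (nat_lit 52) (nat_lit 4509237313470464) (.ev (nat_lit
 372) (nat_lit 549755813888) (.ev (nat_lit 404) (nat_lit 274877906944) (.ev (nat_lit 436) (nat_lit
 8796093022208) (.ev (nat_lit 660) (nat_lit 64) (.ev (nat_lit 1200) (nat_lit 70368760954880) (.nd (nat_lit
 2336) (.br (nat_lit 3) (.ch (nat_lit 0) (.ev (nat_lit 2352) (nat_lit 1409574177344000) (.ev (nat_lit 2628)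
 (nat_lit 32768) (.ev (nat_lit 3120) (nat_lit 68719480832) .dd)))) (.br (nat_lit 6) (.ch (nat_lit 3) (.ev
 (nat_lit 2352) (nat_lit 281543696191488) (.ev (nat_lit 2576) (nat_lit 2199025352704) (.ev (nat_lit 2592)
 (nat_lit 34816) (.ev (nat_lit 3156) (nat_lit 268435968) (.ev (nat_lit 3165) (nat_lit 1125899906842624)
 .dd)))))) (.ch (nat_lit 6) (.ev (nat_lit 2352) (nat_lit 1128167920140800) (.ev (nat_lit 2628) (nat_lit 2048)
 (.ev (nat_lit 2976) (nat_lit 281474976714752) .dd))))))))))))))))) (.br (nat_lit 34) (.br (nat_lit 31) (.ch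
 (nat_lit 29) (.ev (nat_lit 52) (nat_lit 4856062650122304) (.ev (nat_lit 224) (nat_lit 1142807047903744) .dd)))
 (.br (nat_lit 33) (.ch (nat_lit 31) (.ev (nat_lit 52) (nat_lit 1488466016010816) (.ev (nat_lit 276) (nat_lit
 32768) (.ev (nat_lit 564) (nat_lit 268435456) (.ev (nat_lit 724) (nat_lit 68719476736) (.ev (nat_lit 1040)
 (nat_lit 4505799187496960) (.ev (nat_lit 1936) (nat_lit 131072) (.nd (nat_lit 2336) (.br (nat_lit 2) (.ch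
 (nat_lit 0) (.ev (nat_lit 2352) (nat_lit 4535502243840) (.ev (nat_lit 2560) (nat_lit 4194304) (.ev (nat_lit
 2573) (nat_lit 4096) .dd)))) (.br (nat_lit 6) (.ch (nat_lit 2) (.ev (nat_lit 2352) (nat_lit 20977664) (.ev
 (nat_lit 2532) (nat_lit 137438953472) (.ev (nat_lit 2541) (nat_lit 4398046511104) .dd)))) (.ch (nat_lit 6)
 (.ev (nat_lit 2352) (nat_lit 4535489658880) (.ev (nat_lit 2592) (nat_lit 16777216) (.ev (nat_lit 2628)
 (nat_lit 2048) (.ev (nat_lit 2637) (nat_lit 4096) .dd))))))))))))))) (.ch (nat_lit 33) (.ev (nat_lit 52)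
 (nat_lit 4518237698003008) (.ev (nat_lit 160) (nat_lit 1480632000023040) .dd))))) (.br (nat_lit 36) (.ch
 (nat_lit 34) (.ev (nat_lit 52) (nat_lit 4786174403182592) (.ev (nat_lit 116) (nat_lit 137438953472) (.ev
 (nat_lit 148) (nat_lit 2147483648) (.ev (nat_lit 180) (nat_lit 8796093022208) (.ev (nat_lit 244) (nat_lit
 2199023255552) (.ev (nat_lit 756) (nat_lit 274877906944) (.ev (nat_lit 1760) (nat_lit 2048) (.nd (nat_lit
 2336) (.br (nat_lit 5) (.br (nat_lit 3) (.ch (nat_lit 0) (.ev (nat_lit 2352) (nat_lit 1126449662919168) (.ev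
 (nat_lit 2532) (nat_lit 70368744177664) (.ev (nat_lit 2544) (nat_lit 64) (.ev (nat_lit 2656) (nat_lit
 68719542272) (.ev (nat_lit 2880) (nat_lit 4096) (.ev (nat_lit 3156) (nat_lit 4398046511104) (.ev (nat_lit
 3264) (nat_lit 541065216) .dd)))))))) (.ch (nat_lit 3) (.ev (nat_lit 2352) (nat_lit 75385802919936) (.ev
 (nat_lit 2432) (nat_lit 64) (.ev (nat_lit 2452) (nat_lit 4194304) (.ev (nat_lit 2464) (nat_lit 262144) (.ev
 (nat_lit 3360) (nat_lit 1125899906842624) (.ev (nat_lit 3373) (nat_lit 512) .dd)))))))) (.br (nat_lit 6) (.ch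
 (nat_lit 5) (.ev (nat_lit 2352) (nat_lit 1200735421468736) (.ev (nat_lit 2432) (nat_lit 65536) (.ev (nat_lit
 2464) (nat_lit 536870912) (.ev (nat_lit 3156) (nat_lit 512) (.ev (nat_lit 3165) (nat_lit 549755813888)
 .dd)))))) (.ch (nat_lit 6) (.ev (nat_lit 2352) (nat_lit 1196887667376640) (.ev (nat_lit 2480) (nat_lit 65600)
 (.ev (nat_lit 2560) (nat_lit 262144) (.ev (nat_lit 2692) (nat_lit 4096) (.ev (nat_lit 2701) (nat_lit
 4398046511104) .dd))))))))))))))))) (.br (nat_lit 38) (.ch (nat_lit 36) (.ev (nat_lit 52) (nat_lit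
 1200875544549952) (.ev (nat_lit 116) (nat_lit 274877906944) (.ev (nat_lit 212) (nat_lit 4503599627370496) (.ev
 (nat_lit 596) (nat_lit 131072) (.ev (nat_lit 660) (nat_lit 2097152) (.ev (nat_lit 788) (nat_lit
 281474976710656) (.ev (nat_lit 1504) (nat_lit 1099780063232) (.ev (nat_lit 2256) (nat_lit 2199023255552) (.nd
 (nat_lit 2336) (.br (nat_lit 5) (.br (nat_lit 3) (.ch (nat_lit 2) (.ev (nat_lit 2352) (nat_lit 8796093349888)
 (.ev (nat_lit 2560) (nat_lit 549755813888) (.ev (nat_lit 2573) (nat_lit 16777216) .dd)))) (.ch (nat_lit 3)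
 (.ev (nat_lit 2352) (nat_lit 9345865940992) .dd))) (.br (nat_lit 6) (.ch (nat_lit 5) (.ev (nat_lit 2352)
 (nat_lit 8796109864960) (.ev (nat_lit 2464) (nat_lit 262144) (.ev (nat_lit 2477) (nat_lit 549755813888)
 .dd)))) (.ch (nat_lit 6) (.ev (nat_lit 2352) (nat_lit 262144) (.ev (nat_lit 2532) (nat_lit 65536) (.ev
 (nat_lit 2544) (nat_lit 549755813888) (.ev (nat_lit 2672) (nat_lit 8796093022208) (.ev (nat_lit 2685) (nat_lit
 16777216) .dd)))))))))))))))))) (.ch (nat_lit 38) (.ev (nat_lit 52) (nat_lit 297214689675776) (.ev (nat_lit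
 180) (nat_lit 131072) (.ev (nat_lit 340) (nat_lit 549755813888) (.ev (nat_lit 404) (nat_lit 65536) (.ev
 (nat_lit 660) (nat_lit 137438953472) (.ev (nat_lit 756) (nat_lit 32768) (.ev (nat_lit 1168) (nat_lit
 1099511627840) (.ev (nat_lit 1696) (nat_lit 5629499534213120) (.nd (nat_lit 2336) (.br (nat_lit 2) (.ch
 (nat_lit 0) (.ev (nat_lit 2352) (nat_lit 16781312) (.ev (nat_lit 2452) (nat_lit 70368746274816) (.ev (nat_lit
 2544) (nat_lit 4456448) .dd)))) (.br (nat_lit 5) (.ch (nat_lit 2) (.ev (nat_lit 2352) (nat_lit 70368746536960)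
 (.ev (nat_lit 2512) (nat_lit 4194304) (.ev (nat_lit 2628) (nat_lit 16777216) (.ev (nat_lit 2637) (nat_lit
 4096) .dd))))) (.ch (nat_lit 5) (.ev (nat_lit 2352) (nat_lit 70368750469120) (.ev (nat_lit 2512) (nat_lit
 262144) (.ev (nat_lit 2628) (nat_lit 4096) (.ev (nat_lit 2637) (nat_lit 16777216) .dd))))))))))))))))))))))
 (.br (nat_lit 54) (.br (nat_lit 47) (.br (nat_lit 43) (.br (nat_lit 42) (.ch (nat_lit 39) (.ev (nat_lit 52)
 (nat_lit 4517826727510592) (.ev (nat_lit 308) (nat_lit 4096) (.ev (nat_lit 372) (nat_lit 65536) (.ev (nat_lit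
 468) (nat_lit 2097152) (.ev (nat_lit 532) (nat_lit 2048) (.ev (nat_lit 1056) (nat_lit 351843721019392) (.ev
 (nat_lit 1776) (nat_lit 1099511627776) (.ev (nat_lit 2080) (nat_lit 268435456) (.nd (nat_lit 2336) (.br
 (nat_lit 3) (.ch (nat_lit 2) (.ev (nat_lit 2352) (nat_lit 2199560159232) (.ev (nat_lit 2532) (nat_lit
 1125899906842624) (.ev (nat_lit 2541) (nat_lit 262144) .dd)))) (.br (nat_lit 6) (.ch (nat_lit 3) (.ev (nat_lit
 2352) (nat_lit 1125899907137536) (.ev (nat_lit 2592) (nat_lit 2199560126464) .dd))) (.ch (nat_lit 6) (.ev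
 (nat_lit 2352) (nat_lit 1128099466969088) (.ev (nat_lit 2544) (nat_lit 32768) (.ev (nat_lit 2557) (nat_lit
 262144) .dd)))))))))))))))) (.ch (nat_lit 42) (.ev (nat_lit 52) (nat_lit 367237441849408) (.ev (nat_lit 372)
 (nat_lit 275146342400) (.ev (nat_lit 404) (nat_lit 32768) (.ev (nat_lit 468) (nat_lit 4096) (.ev (nat_lit 500)
 (nat_lit 1099511627776) (.ev (nat_lit 564) (nat_lit 512) (.ev (nat_lit 756) (nat_lit 68719476736) (.ev
 (nat_lit 1216) (nat_lit 549757911040) (.ev (nat_lit 2144) (nat_lit 131072) (.nd (nat_lit 2336) (.br (nat_lit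
 3) (.ch (nat_lit 0) (.ev (nat_lit 2352) (nat_lit 1125902054326272) (.ev (nat_lit 2452) (nat_lit 137438953472)
 (.ev (nat_lit 2461) (nat_lit 4503599627370496) .dd)))) (.br (nat_lit 6) (.ch (nat_lit 3) (.ev (nat_lit 2352)
 (nat_lit 5629636973166592) (.ev (nat_lit 2365) (nat_lit 2147483648) .dd))) (.ch (nat_lit 6) (.ev (nat_lit
 2352) (nat_lit 4503599627370496) (.ev (nat_lit 2592) (nat_lit 137438953472) (.ev (nat_lit 3156) (nat_lit
 2147483648) (.ev (nat_lit 3165) (nat_lit 1125899906842624) .dd))))))))))))))))))) (.br (nat_lit 44) (.ch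
 (nat_lit 43) (.ev (nat_lit 52) (nat_lit 4510199115583488) (.ev (nat_lit 116) (nat_lit 281474976710656) (.ev
 (nat_lit 308) (nat_lit 64) (.ev (nat_lit 372) (nat_lit 68719476736) (.ev (nat_lit 596) (nat_lit
 70368744177664) (.ev (nat_lit 692) (nat_lit 274877906944) (.ev (nat_lit 788) (nat_lit 536870912) (.ev (nat_lit
 1520) (nat_lit 1126999418535936) (.ev (nat_lit 2304) (nat_lit 137438953472) (.nd (nat_lit 2336) (.br (nat_lit
 5) (.ch (nat_lit 0) (.ev (nat_lit 2352) (nat_lit 549772593664) (.ev (nat_lit 2464) (nat_lit 8796097216512)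
 .dd))) (.br (nat_lit 6) (.ch (nat_lit 5) (.ev (nat_lit 2352) (nat_lit 9345853030400) (.ev (nat_lit 2464)
 (nat_lit 512) (.ev (nat_lit 2532) (nat_lit 2048) (.ev (nat_lit 2541) (nat_lit 16777216) .dd))))) (.ch (nat_lit
 6) (.ev (nat_lit 2352) (nat_lit 8796113994240) (.ev (nat_lit 2544) (nat_lit 2048) (.ev (nat_lit 2557) (nat_lit
 549755813888) .dd))))))))))))))))) (.br (nat_lit 46) (.ch (nat_lit 44) (.ev (nat_lit 52) (nat_lit
 282849385580544) (.ev (nat_lit 244) (nat_lit 8796093022208) (.ev (nat_lit 468) (nat_lit 268435456) (.ev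
 (nat_lit 564) (nat_lit 32768) (.ev (nat_lit 724) (nat_lit 549755813888) (.nd (nat_lit 2336) (.br (nat_lit 5)
 (.br (nat_lit 3) (.ch (nat_lit 0) (.ev (nat_lit 2352) (nat_lit 1128238516535296) (.ev (nat_lit 2452) (nat_lit
 4194304) (.ev (nat_lit 2544) (nat_lit 536870912) (.ev (nat_lit 2560) (nat_lit 70368744177664) (.ev (nat_lit
 2784) (nat_lit 4398046511104) (.ev (nat_lit 2816) (nat_lit 4096) (.ev (nat_lit 3040) (nat_lit
 4503599627370496) (.ev (nat_lit 3156) (nat_lit 512) (.ev (nat_lit 3168) (nat_lit 68719476736) (.ev (nat_lit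
 3181) (nat_lit 64) .dd))))))))))) (.ch (nat_lit 3) (.ev (nat_lit 2352) (nat_lit 5629636973171264) (.ev
 (nat_lit 2464) (nat_lit 2199023255552) (.ev (nat_lit 2532) (nat_lit 2147483648) (.ev (nat_lit 2640) (nat_lit
 70369281048576) (.ev (nat_lit 2740) (nat_lit 4398046511104) (.ev (nat_lit 3008) (nat_lit 68719476736) (.ev
 (nat_lit 3021) (nat_lit 4194304) .dd))))))))) (.br (nat_lit 6) (.ch (nat_lit 5) (.ev (nat_lit 2352) (nat_lit
 5704474635010624) (.ev (nat_lit 2368) (nat_lit 4096) (.ev (nat_lit 2480) (nat_lit 536870912) (.ev (nat_lit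
 2493) (nat_lit 2199023255552) .dd))))) (.ch (nat_lit 6) (.ev (nat_lit 2352) (nat_lit 4510268105167360) (.ev
 (nat_lit 2368) (nat_lit 64) (.ev (nat_lit 2452) (nat_lit 70368744177664) (.ev (nat_lit 2532) (nat_lit
 1125899906842624) (.ev (nat_lit 2541) (nat_lit 137438953472) .dd))))))))))))))) (.ch (nat_lit 46) (.ev
 (nat_lit 52) (nat_lit 78617247946752) (.ev (nat_lit 340) (nat_lit 137438953472) (.ev (nat_lit 468) (nat_lit
 274877906944) (.ev (nat_lit 500) (nat_lit 1125899906842624) (.ev (nat_lit 692) (nat_lit 281474976710656) (.ev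
 (nat_lit 724) (nat_lit 4503599627370496) (.ev (nat_lit 756) (nat_lit 536870912) (.ev (nat_lit 1888) (nat_lit
 64) (.nd (nat_lit 2336) (.br (nat_lit 2) (.ch (nat_lit 0) (.ev (nat_lit 2352) (nat_lit 272629760) (.ev
 (nat_lit 2576) (nat_lit 8796093022208) (.ev (nat_lit 2628) (nat_lit 262144) (.ev (nat_lit 3280) (nat_lit
 68719476736) (.fin (nat_lit 576456904023687736))))))) (.br (nat_lit 6) (.ch (nat_lit 2) (.ev (nat_lit 2352)
 (nat_lit 8796361752576) (.ev (nat_lit 3156) (nat_lit 68719476736) (.ev (nat_lit 3328) (nat_lit 4194816)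
 .dd)))) (.ch (nat_lit 6) (.ev (nat_lit 2352) (nat_lit 68719772160) (.ev (nat_lit 2368) (nat_lit 4194304) (.ev
 (nat_lit 2400) (nat_lit 268435456) (.ev (nat_lit 2413) (nat_lit 8796093022208) .dd)))))))))))))))))))) (.br
 (nat_lit 50) (.br (nat_lit 48) (.ch (nat_lit 47) (.ev (nat_lit 52) (nat_lit 1481456650033664) (.ev (nat_lit
 84) (nat_lit 131072) (.ev (nat_lit 116) (nat_lit 536870912) (.ev (nat_lit 180) (nat_lit 4398046511104) (.ev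
 (nat_lit 276) (nat_lit 268435456) (.ev (nat_lit 692) (nat_lit 64) (.ev (nat_lit 1184) (nat_lit
 4512395720392704) (.nd (nat_lit 2336) (.br (nat_lit 3) (.ch (nat_lit 0) (.ev (nat_lit 2352) (nat_lit
 549755813888) (.ev (nat_lit 2628) (nat_lit 65536) (.ev (nat_lit 2960) (nat_lit 68719738880) (.ev (nat_lit
 2973) (nat_lit 32768) .dd))))) (.br (nat_lit 6) (.ch (nat_lit 3) (.ev (nat_lit 2352) (nat_lit 618475618304)
 (.ev (nat_lit 2365) (nat_lit 32768) .dd))) (.ch (nat_lit 6) (.ev (nat_lit 2352) (nat_lit 68719542272) (.ev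
 (nat_lit 2628) (nat_lit 32768) (.ev (nat_lit 2672) (nat_lit 549756076032) .dd))))))))))))))) (.br (nat_lit 49)
 (.ch (nat_lit 48) (.ev (nat_lit 52) (nat_lit 4791743350571008) (.ev (nat_lit 372) (nat_lit 64) (.ev (nat_lit
 404) (nat_lit 1125899906842624) (.ev (nat_lit 436) (nat_lit 2048) (.ev (nat_lit 660) (nat_lit 549755813888)
 (.ev (nat_lit 1248) (nat_lit 70368760954880) (.nd (nat_lit 2336) (.br (nat_lit 5) (.ch (nat_lit 2) (.ev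
 (nat_lit 2352) (nat_lit 1099511726080) (.ev (nat_lit 2576) (nat_lit 131584) (.ev (nat_lit 2592) (nat_lit
 8796093026304) (.ev (nat_lit 3156) (nat_lit 137441050624) (.ev (nat_lit 3165) (nat_lit 274877906944) .dd))))))
 (.br (nat_lit 6) (.ch (nat_lit 5) (.ev (nat_lit 2352) (nat_lit 9208412176896) (.ev (nat_lit 2628) (nat_lit
 4096) (.ev (nat_lit 3120) (nat_lit 1099511660544) .dd)))) (.ch (nat_lit 6) (.ev (nat_lit 2352) (nat_lit
 1511830721024) (.ev (nat_lit 2628) (nat_lit 8796093022208) (.ev (nat_lit 2976) (nat_lit 98304)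
 .dd)))))))))))))) (.ch (nat_lit 49) (.ev (nat_lit 52) (nat_lit 1198331057445376) (.ev (nat_lit 404) (nat_lit
 64) (.ev (nat_lit 436) (nat_lit 262144) (.ev (nat_lit 532) (nat_lit 131072) (.ev (nat_lit 628) (nat_lit
 8796093022208) (.ev (nat_lit 660) (nat_lit 281474976710656) (.ev (nat_lit 2064) (nat_lit 68719476736) (.nd
 (nat_lit 2336) (.br (nat_lit 3) (.ch (nat_lit 0) (.ev (nat_lit 2352) (nat_lit 6599217315840) (.ev (nat_lit
 2452) (nat_lit 4194304) (.ev (nat_lit 2560) (nat_lit 4503599629467648) .dd)))) (.br (nat_lit 5) (.ch (nat_lit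
 3) (.ev (nat_lit 2352) (nat_lit 4503601781211136) (.ev (nat_lit 2452) (nat_lit 2199023255552) (.ev (nat_lit
 2461) (nat_lit 4398046511104) .dd)))) (.ch (nat_lit 5) (.ev (nat_lit 2352) (nat_lit 4507997680173056) (.ev
 (nat_lit 2592) (nat_lit 2199023255552) (.ev (nat_lit 2628) (nat_lit 2147483648) (.ev (nat_lit 2637) (nat_lit
 65536) .dd)))))))))))))))))) (.br (nat_lit 51) (.ch (nat_lit 50) (.ev (nat_lit 52) (nat_lit 4585515930325504)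
 (.ev (nat_lit 116) (nat_lit 64) (.ev (nat_lit 148) (nat_lit 2048) (.ev (nat_lit 308) (nat_lit 137438953472)
 (.ev (nat_lit 564) (nat_lit 281474976710656) (.ev (nat_lit 788) (nat_lit 1099511627776) (.nd (nat_lit 2336)
 (.br (nat_lit 5) (.br (nat_lit 3) (.ch (nat_lit 2) (.ev (nat_lit 2352) (nat_lit 268697600) (.ev (nat_lit 2496)
 (nat_lit 274877906944) (.ev (nat_lit 2532) (nat_lit 68723671040) (.ev (nat_lit 2544) (nat_lit 16777216) (.ev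
 (nat_lit 2656) (nat_lit 1125899906842624) (.ev (nat_lit 2669) (nat_lit 4398046511104) .dd))))))) (.ch (nat_lit
 3) (.ev (nat_lit 2352) (nat_lit 4673214087168) (.ev (nat_lit 2432) (nat_lit 1125899906842624) (.ev (nat_lit
 2445) (nat_lit 68719476736) .dd))))) (.br (nat_lit 6) (.ch (nat_lit 5) (.ev (nat_lit 2352) (nat_lit
 1130641823367168) (.ev (nat_lit 2432) (nat_lit 16777216) (.ev (nat_lit 2445) (nat_lit 262144) .dd)))) (.ch
 (nat_lit 6) (.ev (nat_lit 2352) (nat_lit 343597383680) (.ev (nat_lit 2496) (nat_lit 268435456) (.ev (nat_lit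
 2532) (nat_lit 4398046773248) (.ev (nat_lit 2544) (nat_lit 1125899906842624) (.ev (nat_lit 2656) (nat_lit
 16777216) (.ev (nat_lit 2669) (nat_lit 4194304) .dd))))))))))))))))) (.br (nat_lit 53) (.ch (nat_lit 51) (.ev
 (nat_lit 52) (nat_lit 4801155504869376) (.ev (nat_lit 116) (nat_lit 1099511627776) (.ev (nat_lit 404) (nat_lit
 68719476736) (.ev (nat_lit 500) (nat_lit 64) (.ev (nat_lit 576) (nat_lit 1196545962052096) .dd)))))) (.ch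
 (nat_lit 53) (.ev (nat_lit 52) (nat_lit 4582836153750080) (.ev (nat_lit 212) (nat_lit 1099511627776) (.ev
 (nat_lit 308) (nat_lit 274877906944) (.ev (nat_lit 340) (nat_lit 281474976710656) (.ev (nat_lit 436) (nat_lit
 2199023255552) (.ev (nat_lit 692) (nat_lit 2097152) (.ev (nat_lit 724) (nat_lit 65536) (.ev (nat_lit 848)
 (nat_lit 1126587101609984) (.ev (nat_lit 1456) (nat_lit 2048) (.nd (nat_lit 2336) (.br (nat_lit 3) (.ch
 (nat_lit 0) (.ev (nat_lit 2352) (nat_lit 4194304) (.ev (nat_lit 2532) (nat_lit 262144) (.ev (nat_lit 2576)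
 (nat_lit 4398046511104) (.ev (nat_lit 2589) (nat_lit 32768) .dd))))) (.br (nat_lit 5) (.ch (nat_lit 3) (.ev
 (nat_lit 2352) (nat_lit 4398046806016) (.ev (nat_lit 2365) (nat_lit 4194304) .dd))) (.ch (nat_lit 5) (.ev
 (nat_lit 2352) (nat_lit 4398050967552) (.ev (nat_lit 2365) (nat_lit 32768) .dd)))))))))))))))))))) (.br
 (nat_lit 64) (.br (nat_lit 57) (.br (nat_lit 55) (.ch (nat_lit 54) (.ev (nat_lit 52) (nat_lit
 1205410780643840) (.ev (nat_lit 84) (nat_lit 2199023255552) (.ev (nat_lit 116) (nat_lit 4503599627370496) (.ev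
 (nat_lit 180) (nat_lit 262144) (.ev (nat_lit 276) (nat_lit 137438953472) (.ev (nat_lit 692) (nat_lit
 549755813888) (.ev (nat_lit 1232) (nat_lit 536872960) (.nd (nat_lit 2336) (.br (nat_lit 5) (.ch (nat_lit 2)
 (.ev (nat_lit 2352) (nat_lit 286972534849600) (.ev (nat_lit 2365) (nat_lit 4096) .dd))) (.br (nat_lit 6) (.ch
 (nat_lit 5) (.ev (nat_lit 2352) (nat_lit 64) (.ev (nat_lit 2628) (nat_lit 281474976710656) (.ev (nat_lit 2960)
 (nat_lit 5497558138880) (.ev (nat_lit 2973) (nat_lit 4096) .dd))))) (.ch (nat_lit 6) (.ev (nat_lit 2352)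
 (nat_lit 282574488338432) (.ev (nat_lit 2628) (nat_lit 4096) (.ev (nat_lit 2672) (nat_lit 4398046511168)
 .dd))))))))))))))) (.ch (nat_lit 55) (.ev (nat_lit 52) (nat_lit 72774462804480) (.ev (nat_lit 116) (nat_lit
 268435456) (.ev (nat_lit 148) (nat_lit 4194304) (.ev (nat_lit 180) (nat_lit 2048) (.ev (nat_lit 244) (nat_lit
 131072) (.ev (nat_lit 756) (nat_lit 1125899906842624) (.ev (nat_lit 1472) (nat_lit 8796093022208) (.nd
 (nat_lit 2336) (.br (nat_lit 5) (.br (nat_lit 2) (.ch (nat_lit 0) (.ev (nat_lit 2352) (nat_lit 6324356415488)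
 (.ev (nat_lit 2432) (nat_lit 281474976710656) (.ev (nat_lit 2464) (nat_lit 4503599627370496) (.ev (nat_lit
 3156) (nat_lit 64) (.ev (nat_lit 3165) (nat_lit 2097152) .dd)))))) (.ch (nat_lit 2) (.ev (nat_lit 2352)
 (nat_lit 4786174132781120) (.ev (nat_lit 2432) (nat_lit 549755813888) (.ev (nat_lit 2452) (nat_lit 2147483648)
 (.ev (nat_lit 2464) (nat_lit 4398046511104) (.ev (nat_lit 3360) (nat_lit 274877906944) (.ev (nat_lit 3373)
 (nat_lit 2097152) .dd)))))))) (.br (nat_lit 6) (.ch (nat_lit 5) (.ev (nat_lit 2352) (nat_lit 4672926515264)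
 (.ev (nat_lit 2532) (nat_lit 16777216) (.ev (nat_lit 2544) (nat_lit 549755813888) (.ev (nat_lit 2656) (nat_lit
 282574488338432) (.ev (nat_lit 2880) (nat_lit 32768) (.ev (nat_lit 3156) (nat_lit 262144) (.ev (nat_lit 3264)
 (nat_lit 4503601774854144) .dd)))))))) (.ch (nat_lit 6) (.ev (nat_lit 2352) (nat_lit 4504976183263296) (.ev
 (nat_lit 2480) (nat_lit 282024732524544) (.ev (nat_lit 2560) (nat_lit 4398046511104) (.ev (nat_lit 2692)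
 (nat_lit 32768) (.ev (nat_lit 2701) (nat_lit 262144) .dd)))))))))))))))))) (.br (nat_lit 58) (.ch (nat_lit 57)
 (.ev (nat_lit 52) (nat_lit 1412666306398784) (.ev (nat_lit 276) (nat_lit 4096) (.ev (nat_lit 564) (nat_lit
 137438953472) (.ev (nat_lit 724) (nat_lit 1099511627776) (.ev (nat_lit 1008) (nat_lit 4503600164372480) (.ev
 (nat_lit 1952) (nat_lit 2199023255552) (.nd (nat_lit 2336) (.br (nat_lit 5) (.ch (nat_lit 3) (.ev (nat_lit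
 2352) (nat_lit 79166984716288) (.ev (nat_lit 2532) (nat_lit 262144) (.ev (nat_lit 2541) (nat_lit 268435456)
 .dd)))) (.br (nat_lit 6) (.ch (nat_lit 5) (.ev (nat_lit 2352) (nat_lit 79165105897472) (.ev (nat_lit 2560)
 (nat_lit 2147483648) (.ev (nat_lit 2573) (nat_lit 32768) .dd)))) (.ch (nat_lit 6) (.ev (nat_lit 2352) (nat_lit
 2416181248) (.ev (nat_lit 2592) (nat_lit 70368744177664) (.ev (nat_lit 2628) (nat_lit 8796093022208) (.ev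
 (nat_lit 2637) (nat_lit 32768) .dd))))))))))))))) (.br (nat_lit 62) (.ch (nat_lit 58) (.ev (nat_lit 52)
 (nat_lit 1208913840406592) (.ev (nat_lit 84) (nat_lit 4398046511104) (.ev (nat_lit 116) (nat_lit 512) (.ev
 (nat_lit 340) (nat_lit 68719480832) (.ev (nat_lit 628) (nat_lit 4194304) (.ev (nat_lit 820) (nat_lit 2097152)
 (.ev (nat_lit 1312) (nat_lit 2048) (.ev (nat_lit 1984) (nat_lit 281474976710656) (.ev (nat_lit 2208) (nat_lit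
 274877906944) (.nd (nat_lit 2336) (.br (nat_lit 3) (.ch (nat_lit 2) (.ev (nat_lit 2352) (nat_lit 2164260864)
 (.ev (nat_lit 2464) (nat_lit 4503599627370496) (.ev (nat_lit 2532) (nat_lit 137438953472) (.ev (nat_lit 2541)
 (nat_lit 131072) .dd))))) (.br (nat_lit 6) (.ch (nat_lit 3) (.ev (nat_lit 2352) (nat_lit 4503737083101184)
 (.ev (nat_lit 2576) (nat_lit 2147614720) .dd))) (.ch (nat_lit 6) (.ev (nat_lit 2352) (nat_lit
 4503739213938688) (.ev (nat_lit 2365) (nat_lit 16777216) .dd)))))))))))))))) (.ch (nat_lit 62) (.ev (nat_lit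
 52) (nat_lit 6735050215936) (.ev (nat_lit 116) (nat_lit 65536) (.ev (nat_lit 308) (nat_lit 549755813888) (.ev
 (nat_lit 372) (nat_lit 1099511627776) (.ev (nat_lit 596) (nat_lit 16777216) (.ev (nat_lit 692) (nat_lit
 1125899906842624) (.ev (nat_lit 788) (nat_lit 4503599627370496) (.ev (nat_lit 1568) (nat_lit 281818574094336)
 (.ev (nat_lit 2288) (nat_lit 268435456) (.nd (nat_lit 2336) (.br (nat_lit 5) (.ch (nat_lit 0) (.ev (nat_lit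
 2352) (nat_lit 2147485760) (.ev (nat_lit 2464) (nat_lit 2097152) (.ev (nat_lit 2532) (nat_lit 8796093022208)
 (.ev (nat_lit 2541) (nat_lit 70368744177664) .dd))))) (.br (nat_lit 6) (.ch (nat_lit 5) (.ev (nat_lit 2352)
 (nat_lit 79164839297088) (.ev (nat_lit 2464) (nat_lit 2147485696) .dd))) (.ch (nat_lit 6) (.ev (nat_lit 2352)
 (nat_lit 70370893760512) (.ev (nat_lit 2544) (nat_lit 8796093022208) (.ev (nat_lit 2557) (nat_lit 64)
 .dd)))))))))))))))))))) (.br (nat_lit 68) (.br (nat_lit 65) (.ch (nat_lit 64) (.ev (nat_lit 52) (nat_lit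
 4580155825655872) (.ev (nat_lit 276) (nat_lit 68719476736) (.ev (nat_lit 416) (nat_lit 1418645152893440)
 .dd)))) (.br (nat_lit 67) (.ch (nat_lit 65) (.ev (nat_lit 52) (nat_lit 4869189408327680) (.ev (nat_lit 372)
 (nat_lit 1126037345796096) (.ev (nat_lit 404) (nat_lit 4096) (.ev (nat_lit 468) (nat_lit 32768) (.ev (nat_lit
 500) (nat_lit 68719476736) (.ev (nat_lit 564) (nat_lit 2097152) (.ev (nat_lit 756) (nat_lit 1099511627776)
 (.ev (nat_lit 1296) (nat_lit 576) (.ev (nat_lit 2160) (nat_lit 2199023255552) (.nd (nat_lit 2336) (.br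
 (nat_lit 5) (.ch (nat_lit 2) (.ev (nat_lit 2352) (nat_lit 275683213312) (.ev (nat_lit 2365) (nat_lit 4194304)
 .dd))) (.br (nat_lit 6) (.ch (nat_lit 5) (.ev (nat_lit 2352) (nat_lit 274882101248) (.ev (nat_lit 2452)
 (nat_lit 268435456) (.ev (nat_lit 2461) (nat_lit 536870912) .dd)))) (.ch (nat_lit 6) (.ev (nat_lit 2352)
 (nat_lit 536870912) (.ev (nat_lit 2592) (nat_lit 268435456) (.ev (nat_lit 3156) (nat_lit 4194304) (.ev
 (nat_lit 3165) (nat_lit 274877906944) .dd)))))))))))))))))) (.ch (nat_lit 67) (.ev (nat_lit 52) (nat_lit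
 366893554866240) (.ev (nat_lit 180) (nat_lit 16777216) (.ev (nat_lit 276) (nat_lit 536870912) (.ev (nat_lit
 436) (nat_lit 2147483648) (.ev (nat_lit 500) (nat_lit 2097152) (.ev (nat_lit 564) (nat_lit 1125899906842624)
 (.ev (nat_lit 1856) (nat_lit 2199023255552) (.nd (nat_lit 2336) (.br (nat_lit 2) (.ch (nat_lit 0) (.ev
 (nat_lit 2352) (nat_lit 274882101248) (.ev (nat_lit 2576) (nat_lit 4503599627370496) (.ev (nat_lit 2628)
 (nat_lit 65536) (.ev (nat_lit 2752) (nat_lit 262144) (.fin (nat_lit 576456904023687736))))))) (.br (nat_lit 3)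
 (.ch (nat_lit 2) (.ev (nat_lit 2352) (nat_lit 360960) (.ev (nat_lit 2368) (nat_lit 274877906944) (.ev (nat_lit
 2400) (nat_lit 4194304) (.ev (nat_lit 2413) (nat_lit 4503599627370496) .dd))))) (.ch (nat_lit 3) (.ev (nat_lit
 2352) (nat_lit 4503599631663104) (.ev (nat_lit 2710) (nat_lit 274878169600) .dd)))))))))))))))) (.br (nat_lit
 69) (.ch (nat_lit 68) (.ev (nat_lit 52) (nat_lit 4577954661173248) (.ev (nat_lit 212) (nat_lit 68719476736)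
 (.ev (nat_lit 308) (nat_lit 1125899906842624) (.ev (nat_lit 340) (nat_lit 65536) (.ev (nat_lit 436) (nat_lit
 131072) (.ev (nat_lit 692) (nat_lit 512) (.ev (nat_lit 724) (nat_lit 281474976710656) (.ev (nat_lit 832)
 (nat_lit 275146342464) (.ev (nat_lit 1440) (nat_lit 8796093022208) (.nd (nat_lit 2336) (.br (nat_lit 2) (.ch
 (nat_lit 0) (.ev (nat_lit 2352) (nat_lit 4400194256896) (.ev (nat_lit 2365) (nat_lit 4096) .dd))) (.br
 (nat_lit 5) (.ch (nat_lit 2) (.ev (nat_lit 2352) (nat_lit 4398046777344) (.ev (nat_lit 2365) (nat_lit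
 2147483648) .dd))) (.ch (nat_lit 5) (.ev (nat_lit 2352) (nat_lit 2147483648) (.ev (nat_lit 2532) (nat_lit
 4398046511104) (.ev (nat_lit 2576) (nat_lit 262144) (.ev (nat_lit 2589) (nat_lit 4096) .dd))))))))))))))))))
 (.br (nat_lit 70) (.ch (nat_lit 69) (.ev (nat_lit 52) (nat_lit 1197920877807680) (.ev (nat_lit 308) (nat_lit
 32768) (.ev (nat_lit 372) (nat_lit 281474976710656) (.ev (nat_lit 468) (nat_lit 512) (.ev (nat_lit 532)
 (nat_lit 8796093022208) (.ev (nat_lit 1024) (nat_lit 2199040098304) (.ev (nat_lit 1792) (nat_lit 68719476736)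
 (.ev (nat_lit 2096) (nat_lit 137438953472) (.nd (nat_lit 2336) (.br (nat_lit 3) (.ch (nat_lit 2) (.ev (nat_lit
 2352) (nat_lit 4672924422144) (.ev (nat_lit 2592) (nat_lit 4503599627501568) .dd))) (.br (nat_lit 6) (.ch
 (nat_lit 3) (.ev (nat_lit 2352) (nat_lit 4503599627505664) (.ev (nat_lit 2532) (nat_lit 274877906944) (.ev
 (nat_lit 2541) (nat_lit 4398046511104) .dd)))) (.ch (nat_lit 6) (.ev (nat_lit 2352) (nat_lit 4503874505408512)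
 (.ev (nat_lit 2544) (nat_lit 4096) (.ev (nat_lit 2557) (nat_lit 4398046511104) .dd)))))))))))))))) (.ch
 (nat_lit 70) (.ev (nat_lit 52) (nat_lit 70712616751168) (.ev (nat_lit 84) (nat_lit 2147483648) (.ev (nat_lit
 276) (nat_lit 512) (.ev (nat_lit 404) (nat_lit 4503599627370496) (.ev (nat_lit 512) (nat_lit 1424555306420224)
 .dd))))))))))))))

/-- The trie. -/
noncomputable def T : Tr := .nd (nat_lit 1000000) (.br (nat_lit 1) (.ch (nat_lit 0) (.ev (nat_lit 0) (nat_lit 9007199254740991) .dd)) (.br (nat_lit 3) (.ch (nat_lit 1) T1) (.ch (nat_lit 3) T3)))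

/-- The possible values. -/
noncomputable def oks : List ℕ := [274]

/-- The parameters. -/
noncomputable def S : Pr := ⟨fun i l e => lget mz (lget [] (lget [] tabs i) l) e, oks, [(nat_lit 0), (nat_lit
 1), (nat_lit 0)], T, (nat_lit 9007199254740991), (nat_lit 2287041271849359), (nat_lit 53), [(nat_lit 1),
 (nat_lit 87122173451996128837)], [(nat_lit 49), (nat_lit 5041)]⟩

/-- Nothing known. -/
noncomputable def cs0 : Cs := (.cons (nat_lit 7) (nat_lit 0) (nat_lit 1) (.cons (nat_lit 71) (nat_lit 0) (nat_lit 1) .nil))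

theorem part_1 : part S cs0 (nat_lit 1) = true := by decide +kernel

theorem part_3 : part S cs0 (nat_lit 3) = true := by decide +kernel

/-- Data of a prime. -/
noncomputable def D0 : PD := ⟨(nat_lit 7), (nat_lit 2), (28, 1, 2), (34, 42, 11), (35, 5, 25)⟩

theorem D0_ok : D0.Ok := pdb_sound (s := 1) (C := ⟨⟨7, -2, -11, 7, 2, 4, 0, 3, -1⟩, (5, 2, 3)⟩) (by show Nat.Prime 7; norm_num) (by decide +kernel)

/-- Lines of the first type. -/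
noncomputable def Cl0 : List C1 := [⟨⟨7, 2, -11, 7, -2, 4, 0, -3, -1⟩, (6, 1, 5)⟩,
  ⟨⟨0, 0, 0, 0, 0, 0, 0, 0, 0⟩, (0, 0, 0)⟩,
  ⟨⟨0, 0, 0, 0, 0, 0, 0, 0, 0⟩, (0, 0, 0)⟩,
  ⟨⟨0, 0, 0, 0, 0, 0, 0, 0, 0⟩, (0, 0, 0)⟩,
  ⟨⟨0, 0, 0, 0, 0, 0, 0, 0, 0⟩, (0, 0, 0)⟩,
  ⟨⟨0, 0, 0, 0, 0, 0, 0, 0, 0⟩, (0, 0, 0)⟩,
  ⟨⟨0, 0, 0, 0, 0, 0, 0, 0, 0⟩, (0, 0, 0)⟩]

/-- Data of a prime. -/
noncomputable def D1 : PD := ⟨(nat_lit 71), (nat_lit 2), (72, 9, 33), (3977, 4536, 3372), (4173, 4400, 3526)⟩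

theorem D1_ok : D1.Ok := pdb_sound (s := 11) (C := ⟨⟨59, 34, -112, -29, 94, 37, -24, -3, -11⟩, (59, 42, 47)⟩) (by show Nat.Prime 71; norm_num) (by decide +kernel)

/-- Lines of the first type. -/
noncomputable def Cl1 : List C1 := [⟨⟨-59, -34, -53, 29, -94, 8, 24, 3, -35⟩, (17, 47, 34)⟩,
  ⟨⟨0, 0, 0, 0, 0, 0, 0, 0, 0⟩, (0, 0, 0)⟩,
  ⟨⟨49, -74, -77, 79, 14, 28, 12, 21, -29⟩, (59, 56, 13)⟩,
  ⟨⟨0, 0, 0, 0, 0, 0, 0, 0, 0⟩, (0, 0, 0)⟩,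
  ⟨⟨0, 0, 0, 0, 0, 0, 0, 0, 0⟩, (0, 0, 0)⟩,
  ⟨⟨0, 0, 0, 0, 0, 0, 0, 0, 0⟩, (0, 0, 0)⟩,
  ⟨⟨79, -14, -107, 49, 74, 28, -12, 21, -17⟩, (44, 21, 5)⟩,
  ⟨⟨0, 0, 0, 0, 0, 0, 0, 0, 0⟩, (0, 0, 0)⟩,
  ⟨⟨0, 0, 0, 0, 0, 0, 0, 0, 0⟩, (0, 0, 0)⟩,
  ⟨⟨39, 66, -92, -89, 46, 37, -8, -19, -23⟩, (13, 65, 21)⟩,
  ⟨⟨19, 46, -107, -91, -26, 8, 12, -27, -19⟩, (7, 30, 53)⟩,
  ⟨⟨0, 0, 0, 0, 0, 0, 0, 0, 0⟩, (0, 0, 0)⟩,
  ⟨⟨0, 0, 0, 0, 0, 0, 0, 0, 0⟩, (0, 0, 0)⟩,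
  ⟨⟨99, 6, -67, 11, -94, 32, -4, -11, -31⟩, (13, 33, 59)⟩,
  ⟨⟨-39, -66, -53, -89, 46, 52, 8, 19, -31⟩, (17, 57, 22)⟩,
  ⟨⟨0, 0, 0, 0, 0, 0, 0, 0, 0⟩, (0, 0, 0)⟩,
  ⟨⟨0, 0, 0, 0, 0, 0, 0, 0, 0⟩, (0, 0, 0)⟩,
  ⟨⟨19, -46, -107, -91, 26, 8, 12, 27, -19⟩, (15, 44, 2)⟩,
  ⟨⟨0, 0, 0, 0, 0, 0, 0, 0, 0⟩, (0, 0, 0)⟩,
  ⟨⟨0, 0, 0, 0, 0, 0, 0, 0, 0⟩, (0, 0, 0)⟩,
  ⟨⟨51, 66, -88, -59, 74, 67, -20, -5, -17⟩, (59, 64, 59)⟩,
  ⟨⟨49, 74, -77, 79, -14, 28, 12, -21, -29⟩, (6, 43, 29)⟩,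
  ⟨⟨0, 0, 0, 0, 0, 0, 0, 0, 0⟩, (0, 0, 0)⟩,
  ⟨⟨0, 0, 0, 0, 0, 0, 0, 0, 0⟩, (0, 0, 0)⟩,
  ⟨⟨0, 0, 0, 0, 0, 0, 0, 0, 0⟩, (0, 0, 0)⟩,
  ⟨⟨31, 74, -83, -81, 54, 68, -16, -13, -19⟩, (8, 2, 60)⟩,
  ⟨⟨0, 0, 0, 0, 0, 0, 0, 0, 0⟩, (0, 0, 0)⟩,
  ⟨⟨11, 94, -43, -99, 6, 32, 4, -11, -35⟩, (69, 18, 38)⟩,
  ⟨⟨-51, 66, -37, 59, 74, 8, 20, -5, -37⟩, (25, 56, 25)⟩,
  ⟨⟨0, 0, 0, 0, 0, 0, 0, 0, 0⟩, (0, 0, 0)⟩,
  ⟨⟨39, -66, -92, -89, -46, 37, -8, 19, -23⟩, (43, 2, 64)⟩,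
  ⟨⟨0, 0, 0, 0, 0, 0, 0, 0, 0⟩, (0, 0, 0)⟩,
  ⟨⟨59, -34, -112, -29, -94, 37, -24, 3, -11⟩, (9, 4, 18)⟩,
  ⟨⟨0, 0, 0, 0, 0, 0, 0, 0, 0⟩, (0, 0, 0)⟩,
  ⟨⟨0, 0, 0, 0, 0, 0, 0, 0, 0⟩, (0, 0, 0)⟩,
  ⟨⟨-59, 34, -53, 29, 94, 8, 24, -3, -35⟩, (8, 43, 16)⟩,
  ⟨⟨0, 0, 0, 0, 0, 0, 0, 0, 0⟩, (0, 0, 0)⟩,
  ⟨⟨11, -94, -43, -99, -6, 32, 4, 11, -35⟩, (2, 53, 33)⟩,
  ⟨⟨0, 0, 0, 0, 0, 0, 0, 0, 0⟩, (0, 0, 0)⟩,
  ⟨⟨0, 0, 0, 0, 0, 0, 0, 0, 0⟩, (0, 0, 0)⟩,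
  ⟨⟨51, -66, -88, -59, -74, 67, -20, 5, -17⟩, (18, 46, 18)⟩,
  ⟨⟨-19, -46, -88, -91, -26, 83, -12, 27, -7⟩, (26, 61, 65)⟩,
  ⟨⟨0, 0, 0, 0, 0, 0, 0, 0, 0⟩, (0, 0, 0)⟩,
  ⟨⟨0, 0, 0, 0, 0, 0, 0, 0, 0⟩, (0, 0, 0)⟩,
  ⟨⟨0, 0, 0, 0, 0, 0, 0, 0, 0⟩, (0, 0, 0)⟩,
  ⟨⟨-19, 46, -88, -91, 26, 83, -12, -27, -7⟩, (18, 4, 45)⟩,
  ⟨⟨0, 0, 0, 0, 0, 0, 0, 0, 0⟩, (0, 0, 0)⟩,
  ⟨⟨0, 0, 0, 0, 0, 0, 0, 0, 0⟩, (0, 0, 0)⟩,
  ⟨⟨0, 0, 0, 0, 0, 0, 0, 0, 0⟩, (0, 0, 0)⟩,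
  ⟨⟨0, 0, 0, 0, 0, 0, 0, 0, 0⟩, (0, 0, 0)⟩,
  ⟨⟨0, 0, 0, 0, 0, 0, 0, 0, 0⟩, (0, 0, 0)⟩,
  ⟨⟨0, 0, 0, 0, 0, 0, 0, 0, 0⟩, (0, 0, 0)⟩,
  ⟨⟨99, -6, -67, 11, 94, 32, -4, 11, -31⟩, (48, 29, 54)⟩,
  ⟨⟨0, 0, 0, 0, 0, 0, 0, 0, 0⟩, (0, 0, 0)⟩,
  ⟨⟨0, 0, 0, 0, 0, 0, 0, 0, 0⟩, (0, 0, 0)⟩,
  ⟨⟨0, 0, 0, 0, 0, 0, 0, 0, 0⟩, (0, 0, 0)⟩,
  ⟨⟨-51, -66, -37, 59, -74, 8, 20, 5, -37⟩, (55, 38, 55)⟩,
  ⟨⟨0, 0, 0, 0, 0, 0, 0, 0, 0⟩, (0, 0, 0)⟩,
  ⟨⟨0, 0, 0, 0, 0, 0, 0, 0, 0⟩, (0, 0, 0)⟩,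
  ⟨⟨-31, -74, -52, -81, 54, 13, 16, 13, -35⟩, (64, 55, 54)⟩,
  ⟨⟨-31, 74, -52, -81, -54, 13, 16, -13, -35⟩, (11, 15, 47)⟩,
  ⟨⟨-39, 66, -53, -89, -46, 52, 8, -19, -31⟩, (58, 65, 50)⟩,
  ⟨⟨0, 0, 0, 0, 0, 0, 0, 0, 0⟩, (0, 0, 0)⟩,
  ⟨⟨79, 14, -107, 49, -74, 28, -12, -21, -17⟩, (57, 3, 21)⟩,
  ⟨⟨0, 0, 0, 0, 0, 0, 0, 0, 0⟩, (0, 0, 0)⟩,
  ⟨⟨0, 0, 0, 0, 0, 0, 0, 0, 0⟩, (0, 0, 0)⟩,
  ⟨⟨31, -74, -83, -81, -54, 68, -16, 13, -19⟩, (61, 33, 67)⟩,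
  ⟨⟨0, 0, 0, 0, 0, 0, 0, 0, 0⟩, (0, 0, 0)⟩,
  ⟨⟨0, 0, 0, 0, 0, 0, 0, 0, 0⟩, (0, 0, 0)⟩,
  ⟨⟨0, 0, 0, 0, 0, 0, 0, 0, 0⟩, (0, 0, 0)⟩,
  ⟨⟨0, 0, 0, 0, 0, 0, 0, 0, 0⟩, (0, 0, 0)⟩]

/-- Data of a prime. -/
noncomputable def Dm : PD := ⟨(nat_lit 53), (nat_lit 2), (2545, 8, 14), (2610, 800, 1557), (1968, 957, 2439)⟩

theorem Dm_ok : Dm.Ok := pdb_sound (s := 12) (C := ⟨⟨-13, 2, -76, -47, -58, 31, 18, -15, -13⟩, (40, 6, 18)⟩) (by show Nat.Prime 53; norm_num) (by decide +kernel)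

/-- Lines of the first type. -/
noncomputable def Clm : List C1 := [⟨⟨13, -2, -89, -47, -58, 16, 18, -15, -5⟩, (17, 16, 48)⟩,
  ⟨⟨-23, 38, -56, 43, 58, 1, 18, -9, -23⟩, (9, 50, 16)⟩,
  ⟨⟨-23, -38, -56, 43, -58, 1, 18, 9, -23⟩, (18, 47, 32)⟩,
  ⟨⟨-13, -2, -76, -47, 58, 31, 18, 15, -13⟩, (20, 3, 9)⟩,
  ⟨⟨0, 0, 0, 0, 0, 0, 0, 0, 0⟩, (0, 0, 0)⟩,
  ⟨⟨0, 0, 0, 0, 0, 0, 0, 0, 0⟩, (0, 0, 0)⟩,
  ⟨⟨0, 0, 0, 0, 0, 0, 0, 0, 0⟩, (0, 0, 0)⟩,
  ⟨⟨23, -38, -79, -43, -58, 44, -18, 9, -5⟩, (29, 8, 28)⟩,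
  ⟨⟨33, -18, -89, 67, 2, 4, 2, 23, -7⟩, (12, 34, 20)⟩,
  ⟨⟨0, 0, 0, 0, 0, 0, 0, 0, 0⟩, (0, 0, 0)⟩,
  ⟨⟨0, 0, 0, 0, 0, 0, 0, 0, 0⟩, (0, 0, 0)⟩,
  ⟨⟨0, 0, 0, 0, 0, 0, 0, 0, 0⟩, (0, 0, 0)⟩,
  ⟨⟨0, 0, 0, 0, 0, 0, 0, 0, 0⟩, (0, 0, 0)⟩,
  ⟨⟨27, 42, -76, 7, 58, 49, 22, -7, -5⟩, (1, 14, 44)⟩,
  ⟨⟨33, 18, -89, 67, -2, 4, 2, -23, -7⟩, (44, 1, 38)⟩,
  ⟨⟨0, 0, 0, 0, 0, 0, 0, 0, 0⟩, (0, 0, 0)⟩,
  ⟨⟨0, 0, 0, 0, 0, 0, 0, 0, 0⟩, (0, 0, 0)⟩,
  ⟨⟨0, 0, 0, 0, 0, 0, 0, 0, 0⟩, (0, 0, 0)⟩,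
  ⟨⟨0, 0, 0, 0, 0, 0, 0, 0, 0⟩, (0, 0, 0)⟩,
  ⟨⟨57, 42, -56, -37, 62, 41, -10, 1, -19⟩, (20, 27, 3)⟩,
  ⟨⟨13, 2, -89, -47, 58, 16, 18, 15, -5⟩, (50, 19, 4)⟩,
  ⟨⟨0, 0, 0, 0, 0, 0, 0, 0, 0⟩, (0, 0, 0)⟩,
  ⟨⟨0, 0, 0, 0, 0, 0, 0, 0, 0⟩, (0, 0, 0)⟩,
  ⟨⟨57, -42, -56, -37, -62, 41, -10, -1, -19⟩, (16, 11, 13)⟩,
  ⟨⟨0, 0, 0, 0, 0, 0, 0, 0, 0⟩, (0, 0, 0)⟩,
  ⟨⟨7, 58, -56, 27, 42, 49, 22, -7, -17⟩, (20, 9, 25)⟩,
  ⟨⟨0, 0, 0, 0, 0, 0, 0, 0, 0⟩, (0, 0, 0)⟩,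
  ⟨⟨67, -2, -71, 33, 18, 56, -2, 23, -5⟩, (28, 13, 49)⟩,
  ⟨⟨0, 0, 0, 0, 0, 0, 0, 0, 0⟩, (0, 0, 0)⟩,
  ⟨⟨0, 0, 0, 0, 0, 0, 0, 0, 0⟩, (0, 0, 0)⟩,
  ⟨⟨23, 38, -79, -43, 58, 44, -18, -9, -5⟩, (20, 11, 12)⟩,
  ⟨⟨0, 0, 0, 0, 0, 0, 0, 0, 0⟩, (0, 0, 0)⟩,
  ⟨⟨7, -58, -56, 27, -42, 49, 22, 7, -17⟩, (17, 5, 8)⟩,
  ⟨⟨0, 0, 0, 0, 0, 0, 0, 0, 0⟩, (0, 0, 0)⟩,
  ⟨⟨67, 2, -71, 33, -18, 56, -2, -23, -5⟩, (8, 34, 14)⟩,
  ⟨⟨27, -42, -76, 7, -58, 49, 22, 7, -5⟩, (50, 11, 27)⟩,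
  ⟨⟨0, 0, 0, 0, 0, 0, 0, 0, 0⟩, (0, 0, 0)⟩,
  ⟨⟨0, 0, 0, 0, 0, 0, 0, 0, 0⟩, (0, 0, 0)⟩,
  ⟨⟨0, 0, 0, 0, 0, 0, 0, 0, 0⟩, (0, 0, 0)⟩,
  ⟨⟨0, 0, 0, 0, 0, 0, 0, 0, 0⟩, (0, 0, 0)⟩,
  ⟨⟨0, 0, 0, 0, 0, 0, 0, 0, 0⟩, (0, 0, 0)⟩,
  ⟨⟨0, 0, 0, 0, 0, 0, 0, 0, 0⟩, (0, 0, 0)⟩,
  ⟨⟨0, 0, 0, 0, 0, 0, 0, 0, 0⟩, (0, 0, 0)⟩,
  ⟨⟨0, 0, 0, 0, 0, 0, 0, 0, 0⟩, (0, 0, 0)⟩,
  ⟨⟨0, 0, 0, 0, 0, 0, 0, 0, 0⟩, (0, 0, 0)⟩,
  ⟨⟨-37, 62, -4, -57, -42, 1, 10, -1, -29⟩, (22, 21, 27)⟩,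
  ⟨⟨0, 0, 0, 0, 0, 0, 0, 0, 0⟩, (0, 0, 0)⟩,
  ⟨⟨0, 0, 0, 0, 0, 0, 0, 0, 0⟩, (0, 0, 0)⟩,
  ⟨⟨0, 0, 0, 0, 0, 0, 0, 0, 0⟩, (0, 0, 0)⟩,
  ⟨⟨0, 0, 0, 0, 0, 0, 0, 0, 0⟩, (0, 0, 0)⟩,
  ⟨⟨0, 0, 0, 0, 0, 0, 0, 0, 0⟩, (0, 0, 0)⟩,
  ⟨⟨-37, -62, -4, -57, 42, 1, 10, 1, -29⟩, (6, 25, 17)⟩,
  ⟨⟨0, 0, 0, 0, 0, 0, 0, 0, 0⟩, (0, 0, 0)⟩]

/-- Unit moves. -/
noncomputable def U : List Mv := [mz,
  mz,
  ⟨⟨1, 0, 0, 0, -1, 0, 0, 0, 1⟩, .nil, (nat_lit 0), (nat_lit 2), (nat_lit 1), (nat_lit 0), (0, 0, 0), [], 2⟩,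
  mz,
  ⟨⟨-1, 0, 1, 0, 1, 0, 0, 0, 1⟩, .nil, (nat_lit 6), (nat_lit 0), (nat_lit 0), (nat_lit 1), (0, 0, 0), [], 1⟩,
  ⟨⟨-1, 0, 1, 0, -1, 0, 0, 0, 1⟩, .nil, (nat_lit 0), (nat_lit 5), (nat_lit 1), (nat_lit 0), (0, 0, 0), [], 2⟩,
  ⟨⟨-1, 0, 1, 0, 1, 0, 0, 0, 1⟩, .nil, (nat_lit 6), (nat_lit 0), (nat_lit 0), (nat_lit 1), (0, 0, 0), [], 1⟩]

theorem v_ty : tyb Dm S.ty1 Clm = true := by decide +kernel

theorem v_ty0 : tyb D0 (S.tys.getD 0 0) Cl0 = true := by decide +kernel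

theorem v_ty1 : tyb D1 (S.tys.getD 1 0) Cl1 = true := by decide +kernel

theorem v_msc : mscb S D0 [D1] Dm (nat_lit 10) = true := by decide +kernel

theorem v_mv0 : mvsn (nat_lit 693848281) S D0 [D1] Dm (nat_lit 10) 0 D0 = true := by decide +kernel

theorem v_mv1 : mvsn (nat_lit 693848281) S D0 [D1] Dm (nat_lit 10) 1 D1 = true := by decide +kernel

theorem v_mm : mmsn (nat_lit 693848281) S D0 [D1] Dm (nat_lit 10) = true := by decide +kernel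

theorem v_un : unb S D0 (nat_lit 10) U = true := by decide +kernel

theorem v_ok : okb S.oks [(0, 0, 0)] = true := by decide +kernel

theorem v_part : ∀ d < D0.p, (nat_lit 10).testBit d = true → part S (zc (D0 :: [D1])) d = true := by
  intro d hd h
  have h1 : ∀ d < 7, (nat_lit 10).testBit d = true → d = 1 ∨ d = 3 := by decide
  rcases h1 d hd h with rfl | rfl
  · exact part_1
  · exact part_3

theorem main (n : ℕ) (ho : Odd n) (hr : ¬ Rep n) (h0 : Split 7 n) (h1 : Split 71 n) (hm : Split 53 n) :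
    n ∈ EE := by
  refine concln (W := nat_lit 693848281) (S := S) (P0 := D0) (Pl := [D1]) (Pm := Dm) (cn := nat_lit 10) ?_ Dm_ok v_ty ?_ ?_ v_msc ?_ v_mm v_un v_part v_ok
    n ho hr ?_ hm
  · simp only [List.forall_mem_cons]
    exact ⟨D0_ok, D1_ok, fun _ h => absurd h (by simp)⟩
  · exact all2 (φ := fun j P => ∃ L, tyb P (S.tys.getD j 0) L = true) ⟨_, v_ty0⟩ ⟨_, v_ty1⟩
  · exact all2 (φ := fun j P => Nat.ble (S.pks.getD j 0) (Nat.pow P.p P.K) = true) (by decide +kernel) (by decide +kernel)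
  · exact all2 (φ := fun i P => mvsn (nat_lit 693848281) S D0 [D1] Dm (nat_lit 10) i P = true) v_mv0 v_mv1
  · simp only [List.forall_mem_cons]
    exact ⟨h0, h1, fun _ h => absurd h (by simp)⟩

end Pool.Agent.Work.MP_9954fe_nt.P7_71_53

namespace Pool.Agent.Work.MP_9954fe_nt.P11_31_43

/-- Dummy move. -/
noncomputable def mz : Mv := ⟨⟨0, 0, 0, 0, 0, 0, 0, 0, 0⟩, .nil, (nat_lit 0), (nat_lit 0), (nat_lit 0), (nat_lit 0), (0, 0, 0), [], 0⟩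

/-- Moves. -/
noncomputable def t0_1 : List Mv := [
  ⟨⟨3, 8, -11, -10, -1, 0, 4, -4, -11⟩, (.cons (nat_lit 15242817) (nat_lit 6282365) (nat_lit 2311098) (nat_lit
 1) (.cons (nat_lit 303192) (nat_lit 751983) (nat_lit 284322) (nat_lit 1) .nil)), (nat_lit 1), (nat_lit 10),
 (nat_lit 36), (nat_lit 1), (4, 5, 9), [14831522, 802217], 36⟩,
  ⟨⟨3, 8, -11, 10, 1, 0, 4, -4, -11⟩, (.cons (nat_lit 6190604) (nat_lit 17063049) (nat_lit 6190617) (nat_lit 1)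
 (.cons (nat_lit 814536) (nat_lit 321734) (nat_lit 1) (nat_lit 12648) .nil)), (nat_lit 25), (nat_lit 21),
 (nat_lit 13), (nat_lit 1), (4, 6, 9), [1, 581229], 24⟩,
  ⟨⟨1, -12, 0, 10, 1, 0, 4, -4, -11⟩, (.cons (nat_lit 13486901) (nat_lit 18743973) (nat_lit 18743974) (nat_lit
 1) (.cons (nat_lit 880937) (nat_lit 723911) (nat_lit 217086) (nat_lit 1) .nil)), (nat_lit 18), (nat_lit 22),
 (nat_lit 13), (nat_lit 1), (5, 6, 9), [4149452, 384615], 24⟩,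
  ⟨⟨1, -12, 0, -10, -1, 0, 4, -4, -11⟩, (.cons (nat_lit 10749318) (nat_lit 19050803) (nat_lit 10749329)
 (nat_lit 1) (.cons (nat_lit 923520) (nat_lit 713372) (nat_lit 542429) (nat_lit 1) .nil)), (nat_lit 42),
 (nat_lit 33), (nat_lit 36), (nat_lit 1), (5, 5, 9), [14450835, 475622], 36⟩,
  ⟨⟨1, -12, 0, -10, -1, 0, 4, -4, -11⟩, (.cons (nat_lit 10749318) (nat_lit 19050803) (nat_lit 10749329)
 (nat_lit 1) (.cons (nat_lit 923520) (nat_lit 713372) (nat_lit 542429) (nat_lit 1) .nil)), (nat_lit 42),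
 (nat_lit 33), (nat_lit 36), (nat_lit 1), (5, 5, 9), [14450835, 475622], 36⟩,
  ⟨⟨1, -12, 0, 10, 1, 0, 4, -4, -11⟩, (.cons (nat_lit 13486901) (nat_lit 18743973) (nat_lit 18743974) (nat_lit
 1) (.cons (nat_lit 880937) (nat_lit 723911) (nat_lit 217086) (nat_lit 1) .nil)), (nat_lit 18), (nat_lit 22),
 (nat_lit 13), (nat_lit 1), (5, 6, 9), [4149452, 384615], 24⟩,
  ⟨⟨1, -12, 0, -10, -1, 0, 4, -4, -11⟩, (.cons (nat_lit 10749318) (nat_lit 19050803) (nat_lit 10749329)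
 (nat_lit 1) (.cons (nat_lit 923520) (nat_lit 713372) (nat_lit 542429) (nat_lit 1) .nil)), (nat_lit 42),
 (nat_lit 33), (nat_lit 36), (nat_lit 1), (5, 5, 9), [14450835, 475622], 36⟩,
  ⟨⟨3, 8, -11, 10, 1, 0, 4, -4, -11⟩, (.cons (nat_lit 6190604) (nat_lit 17063049) (nat_lit 6190617) (nat_lit 1)
 (.cons (nat_lit 814536) (nat_lit 321734) (nat_lit 1) (nat_lit 12648) .nil)), (nat_lit 25), (nat_lit 21),
 (nat_lit 13), (nat_lit 1), (4, 6, 9), [1, 581229], 24⟩,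
  ⟨⟨1, -12, 0, -10, -1, 0, 4, -4, -11⟩, (.cons (nat_lit 10749318) (nat_lit 19050803) (nat_lit 10749329)
 (nat_lit 1) (.cons (nat_lit 923520) (nat_lit 713372) (nat_lit 542429) (nat_lit 1) .nil)), (nat_lit 42),
 (nat_lit 33), (nat_lit 36), (nat_lit 1), (5, 5, 9), [14450835, 475622], 36⟩,
  ⟨⟨3, 8, -11, -10, -1, 0, 4, -4, -11⟩, (.cons (nat_lit 15242817) (nat_lit 6282365) (nat_lit 2311098) (nat_lit
 1) (.cons (nat_lit 303192) (nat_lit 751983) (nat_lit 284322) (nat_lit 1) .nil)), (nat_lit 1), (nat_lit 10),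
 (nat_lit 36), (nat_lit 1), (4, 5, 9), [14831522, 802217], 36⟩,
  ⟨⟨1, -12, 0, -10, -1, 0, 4, -4, -11⟩, (.cons (nat_lit 10749318) (nat_lit 19050803) (nat_lit 10749329)
 (nat_lit 1) (.cons (nat_lit 923520) (nat_lit 713372) (nat_lit 542429) (nat_lit 1) .nil)), (nat_lit 42),
 (nat_lit 33), (nat_lit 36), (nat_lit 1), (5, 5, 9), [14450835, 475622], 36⟩]

/-- Moves. -/
noncomputable def t0_4 : List Mv := [
  ⟨⟨-11, 0, 0, -4, 5, 12, -2, 8, -5⟩, (.cons (nat_lit 4611151) (nat_lit 18672974) (nat_lit 10896376) (nat_lit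
 1) (.cons (nat_lit 923520) (nat_lit 391508) (nat_lit 589509) (nat_lit 1) .nil)), (nat_lit 42), (nat_lit 12),
 (nat_lit 34), (nat_lit 1), (0, 5, 8), [13330250, 696512], 16⟩,
  ⟨⟨9, 8, -5, 4, -5, -12, -2, 8, -5⟩, (.cons (nat_lit 6586237) (nat_lit 5980849) (nat_lit 18545247) (nat_lit 1)
 (.cons (nat_lit 408364) (nat_lit 132661) (nat_lit 694486) (nat_lit 1) .nil)), (nat_lit 7), (nat_lit 4),
 (nat_lit 25), (nat_lit 1), (8, 6, 8), [4509665, 834463], 9⟩,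
  ⟨⟨9, 8, -5, 4, -5, -12, -2, 8, -5⟩, (.cons (nat_lit 6586237) (nat_lit 5980849) (nat_lit 18545247) (nat_lit 1)
 (.cons (nat_lit 408364) (nat_lit 132661) (nat_lit 694486) (nat_lit 1) .nil)), (nat_lit 7), (nat_lit 4),
 (nat_lit 25), (nat_lit 1), (8, 6, 8), [4509665, 834463], 9⟩,
  ⟨⟨9, 8, -5, 4, -5, -12, -2, 8, -5⟩, (.cons (nat_lit 6586237) (nat_lit 5980849) (nat_lit 18545247) (nat_lit 1)
 (.cons (nat_lit 408364) (nat_lit 132661) (nat_lit 694486) (nat_lit 1) .nil)), (nat_lit 7), (nat_lit 4),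
 (nat_lit 25), (nat_lit 1), (8, 6, 8), [4509665, 834463], 9⟩,
  ⟨⟨9, 8, -5, -4, 5, 12, -2, 8, -5⟩, (.cons (nat_lit 19404713) (nat_lit 11515759) (nat_lit 5642825) (nat_lit 1)
 (.cons (nat_lit 208251) (nat_lit 871544) (nat_lit 427919) (nat_lit 1) .nil)), (nat_lit 1), (nat_lit 31),
 (nat_lit 34), (nat_lit 1), (8, 5, 8), [18598650, 105671], 16⟩,
  ⟨⟨-11, 0, 0, 4, -5, -12, -2, 8, -5⟩, (.cons (nat_lit 14857472) (nat_lit 1937884) (nat_lit 16472565) (nat_lit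
 1) (.cons (nat_lit 808891) (nat_lit 169866) (nat_lit 31455) (nat_lit 1) .nil)), (nat_lit 36), (nat_lit 39),
 (nat_lit 25), (nat_lit 1), (0, 6, 8), [9454230, 99257], 9⟩,
  ⟨⟨9, 8, -5, 4, -5, -12, -2, 8, -5⟩, (.cons (nat_lit 6586237) (nat_lit 5980849) (nat_lit 18545247) (nat_lit 1)
 (.cons (nat_lit 408364) (nat_lit 132661) (nat_lit 694486) (nat_lit 1) .nil)), (nat_lit 7), (nat_lit 4),
 (nat_lit 25), (nat_lit 1), (8, 6, 8), [4509665, 834463], 9⟩,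
  ⟨⟨9, 8, -5, -4, 5, 12, -2, 8, -5⟩, (.cons (nat_lit 19404713) (nat_lit 11515759) (nat_lit 5642825) (nat_lit 1)
 (.cons (nat_lit 208251) (nat_lit 871544) (nat_lit 427919) (nat_lit 1) .nil)), (nat_lit 1), (nat_lit 31),
 (nat_lit 34), (nat_lit 1), (8, 5, 8), [18598650, 105671], 16⟩,
  ⟨⟨-11, 0, 0, 4, -5, -12, -2, 8, -5⟩, (.cons (nat_lit 14857472) (nat_lit 1937884) (nat_lit 16472565) (nat_lit
 1) (.cons (nat_lit 808891) (nat_lit 169866) (nat_lit 31455) (nat_lit 1) .nil)), (nat_lit 36), (nat_lit 39),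
 (nat_lit 25), (nat_lit 1), (0, 6, 8), [9454230, 99257], 9⟩,
  ⟨⟨9, 8, -5, 4, -5, -12, -2, 8, -5⟩, (.cons (nat_lit 6586237) (nat_lit 5980849) (nat_lit 18545247) (nat_lit 1)
 (.cons (nat_lit 408364) (nat_lit 132661) (nat_lit 694486) (nat_lit 1) .nil)), (nat_lit 7), (nat_lit 4),
 (nat_lit 25), (nat_lit 1), (8, 6, 8), [4509665, 834463], 9⟩,
  ⟨⟨9, 8, -5, 4, -5, -12, -2, 8, -5⟩, (.cons (nat_lit 6586237) (nat_lit 5980849) (nat_lit 18545247) (nat_lit 1)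
 (.cons (nat_lit 408364) (nat_lit 132661) (nat_lit 694486) (nat_lit 1) .nil)), (nat_lit 7), (nat_lit 4),
 (nat_lit 25), (nat_lit 1), (8, 6, 8), [4509665, 834463], 9⟩]

/-- Moves. -/
noncomputable def t1_1 : List Mv := [
  mz,
  ⟨⟨3, 20, 29, 4, -25, 18, 26, 8, -7⟩, (.cons (nat_lit 15954176) (nat_lit 8044654) (nat_lit 18186957) (nat_lit
 1) (.cons (nat_lit 446117) (nat_lit 138005) (nat_lit 349873) (nat_lit 1) .nil)), (nat_lit 24), (nat_lit 15),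
 (nat_lit 28), (nat_lit 1), (26, 14, 29), [8440175, 671195], 22⟩,
  ⟨⟨3, -20, 29, 4, 25, 18, 26, -8, -7⟩, (.cons (nat_lit 894995) (nat_lit 13093043) (nat_lit 7707770) (nat_lit
 1) (.cons (nat_lit 888630) (nat_lit 150741) (nat_lit 1950) (nat_lit 1) .nil)), (nat_lit 26), (nat_lit 7),
 (nat_lit 39), (nat_lit 1), (19, 15, 20), [10920374, 300163], 3⟩,
  mz,
  ⟨⟨-33, 8, 17, 4, 15, 28, -6, 24, -11⟩, (.cons (nat_lit 7715260) (nat_lit 15512935) (nat_lit 1) (nat_lit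
 13807794) (.cons (nat_lit 784049) (nat_lit 406848) (nat_lit 368240) (nat_lit 1) .nil)), (nat_lit 1), (nat_lit
 8), (nat_lit 30), (nat_lit 1), (23, 16, 7), [5874997, 347233], 30⟩,
  mz,
  ⟨⟨21, -4, -40, 16, 25, 2, 22, -16, -5⟩, (.cons (nat_lit 5909579) (nat_lit 6425244) (nat_lit 5431036) (nat_lit
 1) (.cons (nat_lit 677072) (nat_lit 527740) (nat_lit 226916) (nat_lit 1) .nil)), (nat_lit 17), (nat_lit 20),
 (nat_lit 10), (nat_lit 1), (21, 16, 22), [17940683, 71781], 3⟩,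
  mz,
  ⟨⟨27, -20, -19, 10, 19, -30, -4, -20, -19⟩, (.cons (nat_lit 11438070) (nat_lit 5116016) (nat_lit 6748124)
 (nat_lit 1) (.cons (nat_lit 830371) (nat_lit 566503) (nat_lit 715629) (nat_lit 1) .nil)), (nat_lit 1),
 (nat_lit 36), (nat_lit 35), (nat_lit 1), (29, 5, 29), [11480552, 666999], 28⟩,
  mz,
  mz,
  mz,
  mz,
  ⟨⟨-31, 0, 0, 10, -19, -30, -4, 20, -19⟩, (.cons (nat_lit 16703287) (nat_lit 492091) (nat_lit 9412893)
 (nat_lit 1) (.cons (nat_lit 246939) (nat_lit 726531) (nat_lit 744623) (nat_lit 1) .nil)), (nat_lit 12),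
 (nat_lit 27), (nat_lit 14), (nat_lit 1), (0, 3, 5), [7158533, 232242], 37⟩,
  ⟨⟨27, -16, -28, -4, 15, -28, -6, -24, -11⟩, (.cons (nat_lit 19487170) (nat_lit 9088287) (nat_lit 8310805)
 (nat_lit 1) (.cons (nat_lit 176727) (nat_lit 684845) (nat_lit 804215) (nat_lit 1) .nil)), (nat_lit 42),
 (nat_lit 21), (nat_lit 7), (nat_lit 1), (28, 28, 11), [17681205, 379136], 30⟩,
  ⟨⟨3, 20, -32, 4, -25, -22, 26, 8, -19⟩, (.cons (nat_lit 10424893) (nat_lit 16506528) (nat_lit 9346835)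
 (nat_lit 1) (.cons (nat_lit 895430) (nat_lit 254775) (nat_lit 314062) (nat_lit 1) .nil)), (nat_lit 17),
 (nat_lit 7), (nat_lit 4), (nat_lit 1), (10, 3, 4), [3694222, 391180], 40⟩,
  mz,
  mz,
  ⟨⟨1, -12, -36, 16, 25, -18, 22, -16, -17⟩, (.cons (nat_lit 16086754) (nat_lit 12991449) (nat_lit 1) (nat_lit
 9896139) (.cons (nat_lit 393799) (nat_lit 401775) (nat_lit 48428) (nat_lit 1) .nil)), (nat_lit 34), (nat_lit
 37), (nat_lit 37), (nat_lit 1), (21, 26, 28), [11096928, 898048], 24⟩,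
  ⟨⟨29, -12, 0, 10, 29, 0, 20, -4, -31⟩, (.cons (nat_lit 7137570) (nat_lit 3518238) (nat_lit 17561629) (nat_lit
 1) (.cons (nat_lit 884659) (nat_lit 910208) (nat_lit 489940) (nat_lit 1) .nil)), (nat_lit 31), (nat_lit 11),
 (nat_lit 28), (nat_lit 1), (28, 15, 30), [14518778, 296465], 30⟩,
  ⟨⟨9, 8, -40, 10, -29, -10, -20, -4, -11⟩, (.cons (nat_lit 19487170) (nat_lit 16363367) (nat_lit 12249458)
 (nat_lit 1) (.cons (nat_lit 187224) (nat_lit 918287) (nat_lit 240243) (nat_lit 1) .nil)), (nat_lit 42),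
 (nat_lit 20), (nat_lit 5), (nat_lit 1), (27, 30, 2), [497605, 707005], 8⟩,
  ⟨⟨-27, 16, -1, -4, 15, 32, 6, 24, -17⟩, (.cons (nat_lit 7135491) (nat_lit 580489) (nat_lit 10862364) (nat_lit
 1) (.cons (nat_lit 894912) (nat_lit 858137) (nat_lit 1) (nat_lit 270227) .nil)), (nat_lit 1), (nat_lit 35),
 (nat_lit 13), (nat_lit 1), (2, 29, 3), [5695164, 858953], 30⟩,
  ⟨⟨-29, 12, 29, -10, -29, 10, -20, 4, -11⟩, (.cons (nat_lit 8974630) (nat_lit 9273088) (nat_lit 7471698)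
 (nat_lit 1) (.cons (nat_lit 409912) (nat_lit 747668) (nat_lit 808396) (nat_lit 1) .nil)), (nat_lit 1),
 (nat_lit 18), (nat_lit 4), (nat_lit 1), (4, 11, 22), [14508878, 162872], 8⟩,
  ⟨⟨3, -20, -32, 4, 25, -22, 26, -8, -19⟩, (.cons (nat_lit 10880395) (nat_lit 5757879) (nat_lit 6816387)
 (nat_lit 1) (.cons (nat_lit 568989) (nat_lit 547551) (nat_lit 25634) (nat_lit 1) .nil)), (nat_lit 19),
 (nat_lit 15), (nat_lit 15), (nat_lit 1), (3, 4, 26), [14063279, 318813], 21⟩,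
  ⟨⟨29, 12, 0, -10, 29, 0, 20, 4, -31⟩, (.cons (nat_lit 9438477) (nat_lit 12991459) (nat_lit 1) (nat_lit
 16544418) (.cons (nat_lit 170034) (nat_lit 722230) (nat_lit 518271) (nat_lit 1) .nil)), (nat_lit 25), (nat_lit
 26), (nat_lit 31), (nat_lit 1), (26, 6, 19), [18945834, 244828], 2⟩,
  ⟨⟨31, 0, -31, -10, 19, -20, 4, -20, -23⟩, (.cons (nat_lit 1552795) (nat_lit 16065140) (nat_lit 12999001)
 (nat_lit 1) (.cons (nat_lit 406746) (nat_lit 119749) (nat_lit 770485) (nat_lit 1) .nil)), (nat_lit 1),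
 (nat_lit 7), (nat_lit 8), (nat_lit 1), (0, 22, 16), [7469981, 36014], 28⟩,
  ⟨⟨1, 12, 35, 16, -25, 2, 22, 16, -5⟩, (.cons (nat_lit 19041613) (nat_lit 6636218) (nat_lit 13357247) (nat_lit
 1) (.cons (nat_lit 138637) (nat_lit 621120) (nat_lit 120812) (nat_lit 1) .nil)), (nat_lit 9), (nat_lit 37),
 (nat_lit 6), (nat_lit 1), (30, 15, 9), [18307308, 241010], 19⟩,
  ⟨⟨33, -8, -16, 4, 15, -32, 6, -24, -17⟩, (.cons (nat_lit 19487170) (nat_lit 7828723) (nat_lit 6118422)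
 (nat_lit 1) (.cons (nat_lit 447658) (nat_lit 403458) (nat_lit 153399) (nat_lit 1) .nil)), (nat_lit 42),
 (nat_lit 22), (nat_lit 36), (nat_lit 1), (23, 15, 7), [16999064, 769790], 30⟩,
  ⟨⟨1, 12, -36, 16, -25, -18, 22, 16, -17⟩, (.cons (nat_lit 2910562) (nat_lit 6042821) (nat_lit 6763659)
 (nat_lit 1) (.cons (nat_lit 129982) (nat_lit 353539) (nat_lit 467479) (nat_lit 1) .nil)), (nat_lit 17),
 (nat_lit 23), (nat_lit 33), (nat_lit 1), (19, 25, 15), [18419174, 457081], 40⟩,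
  ⟨⟨31, 0, -31, -10, -19, -20, 4, 20, -23⟩, (.cons (nat_lit 16957254) (nat_lit 14149065) (nat_lit 18644205)
 (nat_lit 1) (.cons (nat_lit 631852) (nat_lit 333647) (nat_lit 847766) (nat_lit 1) .nil)), (nat_lit 31),
 (nat_lit 27), (nat_lit 29), (nat_lit 1), (0, 20, 23), [15392136, 214088], 37⟩]

/-- Moves. -/
noncomputable def t1_4 : List Mv := [
  mz,
  ⟨⟨3, 20, 29, -4, 25, -18, 26, 8, -7⟩, (.cons (nat_lit 7415031) (nat_lit 11386128) (nat_lit 10761795) (nat_lit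
 1) (.cons (nat_lit 874268) (nat_lit 408568) (nat_lit 660332) (nat_lit 1) .nil)), (nat_lit 5), (nat_lit 14),
 (nat_lit 36), (nat_lit 1), (26, 17, 29), [4883059, 537057], 32⟩,
  ⟨⟨3, -20, 29, -4, -25, -18, 26, -8, -7⟩, (.cons (nat_lit 13093029) (nat_lit 8799877) (nat_lit 13125730)
 (nat_lit 1) (.cons (nat_lit 270570) (nat_lit 619249) (nat_lit 839408) (nat_lit 1) .nil)), (nat_lit 9),
 (nat_lit 30), (nat_lit 16), (nat_lit 1), (19, 16, 20), [12363434, 577307], 19⟩,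
  mz,
  ⟨⟨-33, 8, 17, -4, -15, -28, -6, 24, -11⟩, (.cons (nat_lit 2715516) (nat_lit 524947) (nat_lit 6565098)
 (nat_lit 1) (.cons (nat_lit 834846) (nat_lit 358312) (nat_lit 388240) (nat_lit 1) .nil)), (nat_lit 35),
 (nat_lit 37), (nat_lit 27), (nat_lit 1), (23, 15, 7), [3278839, 247804], 42⟩,
  mz,
  ⟨⟨1, -12, 35, -16, -25, -2, 22, -16, -5⟩, (.cons (nat_lit 1189840) (nat_lit 11328620) (nat_lit 6922646)
 (nat_lit 1) (.cons (nat_lit 376541) (nat_lit 474676) (nat_lit 547793) (nat_lit 1) .nil)), (nat_lit 24),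
 (nat_lit 11), (nat_lit 3), (nat_lit 1), (1, 15, 22), [12221648, 912191], 22⟩,
  mz,
  ⟨⟨-31, 0, 0, -10, -19, 30, -4, -20, -19⟩, (.cons (nat_lit 9170433) (nat_lit 15104580) (nat_lit 9607418)
 (nat_lit 1) (.cons (nat_lit 405997) (nat_lit 648594) (nat_lit 94709) (nat_lit 1) .nil)), (nat_lit 18),
 (nat_lit 30), (nat_lit 6), (nat_lit 1), (0, 26, 29), [2494894, 207355], 34⟩,
  mz,
  mz,
  mz,
  mz,
  ⟨⟨-31, 0, 0, 10, -19, -30, -4, 20, -19⟩, (.cons (nat_lit 16703287) (nat_lit 492091) (nat_lit 9412893)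
 (nat_lit 1) (.cons (nat_lit 246939) (nat_lit 726531) (nat_lit 744623) (nat_lit 1) .nil)), (nat_lit 12),
 (nat_lit 27), (nat_lit 14), (nat_lit 1), (0, 3, 5), [7158533, 232242], 37⟩,
  ⟨⟨27, -16, -28, -4, 15, -28, -6, -24, -11⟩, (.cons (nat_lit 19487170) (nat_lit 9088287) (nat_lit 8310805)
 (nat_lit 1) (.cons (nat_lit 176727) (nat_lit 684845) (nat_lit 804215) (nat_lit 1) .nil)), (nat_lit 42),
 (nat_lit 21), (nat_lit 7), (nat_lit 1), (28, 28, 11), [17681205, 379136], 30⟩,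
  ⟨⟨23, -12, 13, 4, -25, -22, 26, 8, -19⟩, (.cons (nat_lit 619714) (nat_lit 5411637) (nat_lit 11388692)
 (nat_lit 1) (.cons (nat_lit 264240) (nat_lit 675967) (nat_lit 592768) (nat_lit 1) .nil)), (nat_lit 26),
 (nat_lit 36), (nat_lit 4), (nat_lit 1), (25, 3, 4), [6242211, 407938], 40⟩,
  mz,
  mz,
  ⟨⟨21, -4, 19, -16, -25, 18, 22, -16, -17⟩, (.cons (nat_lit 4098817) (nat_lit 1631663) (nat_lit 9138337)
 (nat_lit 1) (.cons (nat_lit 744874) (nat_lit 794655) (nat_lit 910954) (nat_lit 1) .nil)), (nat_lit 5),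
 (nat_lit 35), (nat_lit 23), (nat_lit 1), (7, 5, 28), [5375123, 218165], 11⟩,
  ⟨⟨-9, 8, -31, -10, -29, 0, 20, -4, -31⟩, (.cons (nat_lit 14603950) (nat_lit 235738) (nat_lit 4314552)
 (nat_lit 1) (.cons (nat_lit 528090) (nat_lit 14735) (nat_lit 903999) (nat_lit 1) .nil)), (nat_lit 1), (nat_lit
 20), (nat_lit 38), (nat_lit 1), (2, 16, 30), [11419481, 877313], 8⟩,
  ⟨⟨9, 8, -40, 10, -29, -10, -20, -4, -11⟩, (.cons (nat_lit 19487170) (nat_lit 16363367) (nat_lit 12249458)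
 (nat_lit 1) (.cons (nat_lit 187224) (nat_lit 918287) (nat_lit 240243) (nat_lit 1) .nil)), (nat_lit 42),
 (nat_lit 20), (nat_lit 5), (nat_lit 1), (27, 30, 2), [497605, 707005], 8⟩,
  ⟨⟨33, 8, -16, -4, 15, 32, 6, 24, -17⟩, (.cons (nat_lit 19487170) (nat_lit 2616764) (nat_lit 4268871) (nat_lit
 1) (.cons (nat_lit 864042) (nat_lit 502168) (nat_lit 656827) (nat_lit 1) .nil)), (nat_lit 42), (nat_lit 8),
 (nat_lit 13), (nat_lit 1), (1, 29, 3), [1990420, 188223], 30⟩,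
  ⟨⟨9, -8, -40, 10, 29, -10, -20, 4, -11⟩, (.cons (nat_lit 14888563) (nat_lit 16001721) (nat_lit 1) (nat_lit
 249634) (.cons (nat_lit 907802) (nat_lit 142896) (nat_lit 623847) (nat_lit 1) .nil)), (nat_lit 25), (nat_lit
 17), (nat_lit 12), (nat_lit 1), (18, 20, 22), [2105270, 545064], 2⟩,
  ⟨⟨3, -20, -32, -4, -25, 22, 26, -8, -19⟩, (.cons (nat_lit 17239352) (nat_lit 5166383) (nat_lit 13791482)
 (nat_lit 1) (.cons (nat_lit 237098) (nat_lit 310366) (nat_lit 8909) (nat_lit 1) .nil)), (nat_lit 38), (nat_lit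
 14), (nat_lit 7), (nat_lit 1), (3, 27, 26), [16368707, 715243], 11⟩,
  ⟨⟨-9, -8, -31, 10, -29, 0, 20, 4, -31⟩, (.cons (nat_lit 18287817) (nat_lit 16439203) (nat_lit 15811571)
 (nat_lit 1) (.cons (nat_lit 743127) (nat_lit 734578) (nat_lit 333781) (nat_lit 1) .nil)), (nat_lit 1),
 (nat_lit 25), (nat_lit 39), (nat_lit 1), (24, 25, 19), [169803, 922480], 8⟩,
  ⟨⟨31, 0, -31, -10, 19, -20, 4, -20, -23⟩, (.cons (nat_lit 1552795) (nat_lit 16065140) (nat_lit 12999001)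
 (nat_lit 1) (.cons (nat_lit 406746) (nat_lit 119749) (nat_lit 770485) (nat_lit 1) .nil)), (nat_lit 1),
 (nat_lit 7), (nat_lit 8), (nat_lit 1), (0, 22, 16), [7469981, 36014], 28⟩,
  ⟨⟨1, 12, 35, -16, 25, -2, 22, 16, -5⟩, (.cons (nat_lit 5803595) (nat_lit 16221306) (nat_lit 6110179) (nat_lit
 1) (.cons (nat_lit 919023) (nat_lit 560928) (nat_lit 363179) (nat_lit 1) .nil)), (nat_lit 5), (nat_lit 8),
 (nat_lit 20), (nat_lit 1), (30, 16, 9), [11554959, 547783], 32⟩,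
  ⟨⟨-27, -16, -1, -4, -15, 32, 6, -24, -17⟩, (.cons (nat_lit 6533363) (nat_lit 14327726) (nat_lit 10903463)
 (nat_lit 1) (.cons (nat_lit 245523) (nat_lit 769843) (nat_lit 95690) (nat_lit 1) .nil)), (nat_lit 16),
 (nat_lit 10), (nat_lit 41), (nat_lit 1), (15, 16, 7), [1307914, 455061], 2⟩,
  ⟨⟨1, 12, -36, 16, -25, -18, 22, 16, -17⟩, (.cons (nat_lit 2910562) (nat_lit 6042821) (nat_lit 6763659)
 (nat_lit 1) (.cons (nat_lit 129982) (nat_lit 353539) (nat_lit 467479) (nat_lit 1) .nil)), (nat_lit 17),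
 (nat_lit 23), (nat_lit 33), (nat_lit 1), (19, 25, 15), [18419174, 457081], 40⟩,
  ⟨⟨31, 0, -31, -10, -19, -20, 4, 20, -23⟩, (.cons (nat_lit 16957254) (nat_lit 14149065) (nat_lit 18644205)
 (nat_lit 1) (.cons (nat_lit 631852) (nat_lit 333647) (nat_lit 847766) (nat_lit 1) .nil)), (nat_lit 31),
 (nat_lit 27), (nat_lit 29), (nat_lit 1), (0, 20, 23), [15392136, 214088], 37⟩]

/-- Moves. -/
noncomputable def t4_1 : List Mv := [
  mz,
  ⟨⟨3, 44, -20, 2, 15, 44, 36, 12, -25⟩, (.cons (nat_lit 4236291) (nat_lit 6182597) (nat_lit 13123339) (nat_lit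
 1) (.cons (nat_lit 53638) (nat_lit 67822) (nat_lit 90208) (nat_lit 1) .nil)), (nat_lit 22), (nat_lit 0),
 (nat_lit 0), (nat_lit 0), (36, 24, 2), [17342491, 605568], 0⟩,
  mz,
  mz,
  ⟨⟨19, 36, -36, 20, 13, 30, 34, -8, -35⟩, (.cons (nat_lit 17782077) (nat_lit 1075336) (nat_lit 4640308)
 (nat_lit 1) (.cons (nat_lit 31182) (nat_lit 118424) (nat_lit 817001) (nat_lit 1) .nil)), (nat_lit 26),
 (nat_lit 0), (nat_lit 0), (nat_lit 0), (14, 17, 16), [13274890, 451721], 0⟩,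
  ⟨⟨33, -32, -28, 2, 15, -46, 36, 12, -11⟩, (.cons (nat_lit 12086274) (nat_lit 6305611) (nat_lit 9400252)
 (nat_lit 1) (.cons (nat_lit 830617) (nat_lit 737628) (nat_lit 770238) (nat_lit 1) .nil)), (nat_lit 21),
 (nat_lit 0), (nat_lit 0), (nat_lit 0), (19, 22, 9), [13276761, 377894], 0⟩,
  ⟨⟨-37, -24, 0, 20, -37, 0, 2, -8, -43⟩, (.cons (nat_lit 7422495) (nat_lit 6497803) (nat_lit 6681494) (nat_lit
 1) (.cons (nat_lit 513195) (nat_lit 589480) (nat_lit 585013) (nat_lit 1) .nil)), (nat_lit 35), (nat_lit 0),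
 (nat_lit 0), (nat_lit 0), (12, 40, 4), [8191921, 299260], 0⟩,
  ⟨⟨33, 8, -53, -20, -27, -20, 30, -24, -13⟩, (.cons (nat_lit 381333) (nat_lit 1227761) (nat_lit 5680006)
 (nat_lit 1) (.cons (nat_lit 587054) (nat_lit 187200) (nat_lit 315827) (nat_lit 1) .nil)), (nat_lit 36),
 (nat_lit 0), (nat_lit 0), (nat_lit 0), (32, 21, 33), [1195506, 96372], 0⟩,
  ⟨⟨-39, -16, -4, 20, -37, -20, -2, 8, -41⟩, (.cons (nat_lit 14534678) (nat_lit 9025765) (nat_lit 6341400)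
 (nat_lit 1) (.cons (nat_lit 241493) (nat_lit 188183) (nat_lit 34847) (nat_lit 1) .nil)), (nat_lit 37),
 (nat_lit 0), (nat_lit 0), (nat_lit 0), (6, 30, 40), [974451, 313687], 0⟩,
  ⟨⟨47, 0, -20, 0, -43, 0, 18, 0, -47⟩, (.cons (nat_lit 19487170) (nat_lit 12239860) (nat_lit 12194306)
 (nat_lit 1) (.cons (nat_lit 923520) (nat_lit 563703) (nat_lit 163219) (nat_lit 1) .nil)), (nat_lit 9),
 (nat_lit 0), (nat_lit 0), (nat_lit 0), (34, 0, 24), [2629558, 293420], 0⟩,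
  ⟨⟨21, -20, 31, 38, 15, -34, 12, -36, -13⟩, (.cons (nat_lit 6744479) (nat_lit 16083729) (nat_lit 9245059)
 (nat_lit 1) (.cons (nat_lit 188282) (nat_lit 380110) (nat_lit 1) (nat_lit 297104) .nil)), (nat_lit 38),
 (nat_lit 0), (nat_lit 0), (nat_lit 0), (8, 37, 23), [10719320, 16596], 0⟩,
  mz,
  ⟨⟨-19, -36, -17, 20, 13, -50, -34, 8, -1⟩, (.cons (nat_lit 17139113) (nat_lit 4764643) (nat_lit 14508598)
 (nat_lit 1) (.cons (nat_lit 815783) (nat_lit 546284) (nat_lit 901871) (nat_lit 1) .nil)), (nat_lit 18),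
 (nat_lit 0), (nat_lit 0), (nat_lit 0), (24, 20, 9), [15144496, 546088], 0⟩,
  ⟨⟨33, 8, 20, 20, 27, -40, 30, -24, -17⟩, (.cons (nat_lit 19487170) (nat_lit 8689765) (nat_lit 13750578)
 (nat_lit 1) (.cons (nat_lit 923520) (nat_lit 612083) (nat_lit 382216) (nat_lit 1) .nil)), (nat_lit 13),
 (nat_lit 0), (nat_lit 0), (nat_lit 0), (4, 35, 31), [14549954, 359954], 0⟩,
  mz,
  mz,
  mz,
  ⟨⟨5, 36, 31, -40, 13, 10, 14, 32, -25⟩, (.cons (nat_lit 172394) (nat_lit 325273) (nat_lit 4640100) (nat_lit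
 1) (.cons (nat_lit 706322) (nat_lit 110230) (nat_lit 591422) (nat_lit 1) .nil)), (nat_lit 4), (nat_lit 0),
 (nat_lit 0), (nat_lit 0), (1, 35, 20), [281439, 290586], 0⟩,
  ⟨⟨-9, 4, -47, -40, 13, 30, -14, -32, -11⟩, (.cons (nat_lit 10938747) (nat_lit 13491190) (nat_lit 15212156)
 (nat_lit 1) (.cons (nat_lit 686979) (nat_lit 51608) (nat_lit 713166) (nat_lit 1) .nil)), (nat_lit 12),
 (nat_lit 0), (nat_lit 0), (nat_lit 0), (37, 2, 5), [4410297, 442241], 0⟩,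
  mz,
  mz,
  ⟨⟨21, 20, 31, -38, 15, 34, 12, 36, -13⟩, (.cons (nat_lit 6793375) (nat_lit 9693197) (nat_lit 3759368)
 (nat_lit 1) (.cons (nat_lit 746794) (nat_lit 97835) (nat_lit 466716) (nat_lit 1) .nil)), (nat_lit 1), (nat_lit
 0), (nat_lit 0), (nat_lit 0), (12, 9, 13), [18963777, 427527], 0⟩,
  ⟨⟨9, 16, -53, -38, -15, 4, -12, 36, -1⟩, (.cons (nat_lit 9795628) (nat_lit 1824705) (nat_lit 18413930)
 (nat_lit 1) (.cons (nat_lit 217098) (nat_lit 249880) (nat_lit 519865) (nat_lit 1) .nil)), (nat_lit 5),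
 (nat_lit 0), (nat_lit 0), (nat_lit 0), (1, 34, 13), [8736236, 751770], 0⟩,
  mz,
  mz,
  ⟨⟨9, 4, -56, -40, -13, 10, 14, -32, -25⟩, (.cons (nat_lit 17196463) (nat_lit 14811236) (nat_lit 18773345)
 (nat_lit 1) (.cons (nat_lit 896079) (nat_lit 672260) (nat_lit 514380) (nat_lit 1) .nil)), (nat_lit 39),
 (nat_lit 0), (nat_lit 0), (nat_lit 0), (37, 41, 5), [4854518, 45529], 0⟩,
  ⟨⟨-5, 36, 36, 40, 13, -30, -14, 32, -11⟩, (.cons (nat_lit 16218684) (nat_lit 15575072) (nat_lit 18620551)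
 (nat_lit 1) (.cons (nat_lit 846013) (nat_lit 855694) (nat_lit 125580) (nat_lit 1) .nil)), (nat_lit 4),
 (nat_lit 0), (nat_lit 0), (nat_lit 0), (1, 35, 20), [15302812, 127667], 0⟩,
  mz,
  mz,
  mz,
  ⟨⟨33, -8, -53, -20, 27, -20, 30, 24, -13⟩, (.cons (nat_lit 592893) (nat_lit 3049783) (nat_lit 5995253)
 (nat_lit 1) (.cons (nat_lit 524324) (nat_lit 227036) (nat_lit 890335) (nat_lit 1) .nil)), (nat_lit 36),
 (nat_lit 0), (nat_lit 0), (nat_lit 0), (39, 35, 12), [6137545, 820867], 0⟩,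
  ⟨⟨19, -36, -36, -20, 13, -30, 34, 8, -35⟩, (.cons (nat_lit 6758725) (nat_lit 7431180) (nat_lit 9371416)
 (nat_lit 1) (.cons (nat_lit 389016) (nat_lit 170411) (nat_lit 429304) (nat_lit 1) .nil)), (nat_lit 18),
 (nat_lit 0), (nat_lit 0), (nat_lit 0), (24, 20, 9), [9598574, 515749], 0⟩,
  mz,
  ⟨⟨-21, -20, 52, 38, -15, -4, -12, -36, -1⟩, (.cons (nat_lit 7626467) (nat_lit 18075979) (nat_lit 7472996)
 (nat_lit 1) (.cons (nat_lit 127134) (nat_lit 645395) (nat_lit 197498) (nat_lit 1) .nil)), (nat_lit 1),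
 (nat_lit 0), (nat_lit 0), (nat_lit 0), (8, 6, 23), [15302812, 230481], 0⟩,
  ⟨⟨-47, 0, 27, 0, -43, 0, -18, 0, -29⟩, (.cons (nat_lit 10348082) (nat_lit 1120183) (nat_lit 8018905) (nat_lit
 1) (.cons (nat_lit 621054) (nat_lit 56466) (nat_lit 810866) (nat_lit 1) .nil)), (nat_lit 9), (nat_lit 0),
 (nat_lit 0), (nat_lit 0), (34, 0, 24), [8819387, 676240], 0⟩,
  ⟨⟨-37, 24, 0, -20, -37, 0, 2, 8, -43⟩, (.cons (nat_lit 6333155) (nat_lit 11083023) (nat_lit 12642276)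
 (nat_lit 1) (.cons (nat_lit 338089) (nat_lit 51601) (nat_lit 338329) (nat_lit 1) .nil)), (nat_lit 6), (nat_lit
 0), (nat_lit 0), (nat_lit 0), (34, 30, 40), [19278924, 350670], 0⟩,
  ⟨⟨-3, 32, -37, -20, 27, 40, 30, 24, -17⟩, (.cons (nat_lit 12231447) (nat_lit 7551708) (nat_lit 14829139)
 (nat_lit 1) (.cons (nat_lit 251667) (nat_lit 437894) (nat_lit 524777) (nat_lit 1) .nil)), (nat_lit 7),
 (nat_lit 0), (nat_lit 0), (nat_lit 0), (42, 22, 10), [584042, 770545], 0⟩,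
  ⟨⟨-39, 16, -4, 20, 37, -20, -2, -8, -41⟩, (.cons (nat_lit 19487170) (nat_lit 14539485) (nat_lit 9140534)
 (nat_lit 1) (.cons (nat_lit 923520) (nat_lit 623746) (nat_lit 589824) (nat_lit 1) .nil)), (nat_lit 37),
 (nat_lit 0), (nat_lit 0), (nat_lit 0), (35, 3, 4), [12562084, 662670], 0⟩,
  ⟨⟨3, -44, -20, -2, 15, -44, 36, -12, -25⟩, (.cons (nat_lit 2806336) (nat_lit 13420405) (nat_lit 2712025)
 (nat_lit 1) (.cons (nat_lit 83344) (nat_lit 191443) (nat_lit 1) (nat_lit 242110) .nil)), (nat_lit 33),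
 (nat_lit 0), (nat_lit 0), (nat_lit 0), (10, 22, 34), [4175535, 893235], 0⟩,
  ⟨⟨-15, -44, 16, 20, -13, -50, -34, -8, -1⟩, (.cons (nat_lit 13959995) (nat_lit 8418993) (nat_lit 8653968)
 (nat_lit 1) (.cons (nat_lit 375742) (nat_lit 529395) (nat_lit 304920) (nat_lit 1) .nil)), (nat_lit 25),
 (nat_lit 0), (nat_lit 0), (nat_lit 0), (2, 26, 16), [7656060, 777941], 0⟩,
  mz,
  mz,
  ⟨⟨33, 32, -28, 2, -15, -46, 36, -12, -11⟩, (.cons (nat_lit 5333997) (nat_lit 4652442) (nat_lit 14780598)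
 (nat_lit 1) (.cons (nat_lit 841836) (nat_lit 561781) (nat_lit 342757) (nat_lit 1) .nil)), (nat_lit 21),
 (nat_lit 0), (nat_lit 0), (nat_lit 0), (34, 19, 41), [4136711, 53471], 0⟩]

/-- Moves. -/
noncomputable def t4_4 : List Mv := [
  mz,
  ⟨⟨33, -32, -5, 2, 15, 44, 36, 12, -25⟩, (.cons (nat_lit 7626467) (nat_lit 8963895) (nat_lit 18699775)
 (nat_lit 1) (.cons (nat_lit 594433) (nat_lit 535378) (nat_lit 781019) (nat_lit 1) .nil)), (nat_lit 21),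
 (nat_lit 0), (nat_lit 0), (nat_lit 0), (9, 24, 2), [2749735, 262148], 0⟩,
  mz,
  mz,
  ⟨⟨15, -44, 1, 20, 13, 30, 34, -8, -35⟩, (.cons (nat_lit 6861102) (nat_lit 17540758) (nat_lit 11359671)
 (nat_lit 1) (.cons (nat_lit 810049) (nat_lit 773657) (nat_lit 336677) (nat_lit 1) .nil)), (nat_lit 17),
 (nat_lit 0), (nat_lit 0), (nat_lit 0), (2, 17, 16), [3531991, 831415], 0⟩,
  ⟨⟨3, 44, 17, 2, 15, -46, 36, 12, -11⟩, (.cons (nat_lit 9639770) (nat_lit 7616222) (nat_lit 18336328) (nat_lit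
 1) (.cons (nat_lit 915145) (nat_lit 296294) (nat_lit 911246) (nat_lit 1) .nil)), (nat_lit 22), (nat_lit 0),
 (nat_lit 0), (nat_lit 0), (33, 22, 9), [12240014, 796321], 0⟩,
  ⟨⟨39, 16, -43, 20, -37, 0, 2, -8, -43⟩, (.cons (nat_lit 16054534) (nat_lit 12264954) (nat_lit 821077)
 (nat_lit 1) (.cons (nat_lit 816200) (nat_lit 669013) (nat_lit 43652) (nat_lit 1) .nil)), (nat_lit 8), (nat_lit
 0), (nat_lit 0), (nat_lit 0), (35, 40, 4), [911583, 814689], 0⟩,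
  ⟨⟨33, 8, -53, -20, -27, -20, 30, -24, -13⟩, (.cons (nat_lit 381333) (nat_lit 1227761) (nat_lit 5680006)
 (nat_lit 1) (.cons (nat_lit 587054) (nat_lit 187200) (nat_lit 315827) (nat_lit 1) .nil)), (nat_lit 36),
 (nat_lit 0), (nat_lit 0), (nat_lit 0), (32, 21, 33), [1195506, 96372], 0⟩,
  ⟨⟨37, 24, -37, 20, -37, -20, -2, 8, -41⟩, (.cons (nat_lit 15217434) (nat_lit 19422746) (nat_lit 1809507)
 (nat_lit 1) (.cons (nat_lit 650288) (nat_lit 223415) (nat_lit 816722) (nat_lit 1) .nil)), (nat_lit 6),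
 (nat_lit 0), (nat_lit 0), (nat_lit 0), (34, 30, 40), [2383746, 341102], 0⟩,
  ⟨⟨47, 0, -20, 0, -43, 0, 18, 0, -47⟩, (.cons (nat_lit 19487170) (nat_lit 12239860) (nat_lit 12194306)
 (nat_lit 1) (.cons (nat_lit 923520) (nat_lit 563703) (nat_lit 163219) (nat_lit 1) .nil)), (nat_lit 9),
 (nat_lit 0), (nat_lit 0), (nat_lit 0), (34, 0, 24), [2629558, 293420], 0⟩,
  ⟨⟨21, -20, 31, 38, 15, -34, 12, -36, -13⟩, (.cons (nat_lit 6744479) (nat_lit 16083729) (nat_lit 9245059)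
 (nat_lit 1) (.cons (nat_lit 188282) (nat_lit 380110) (nat_lit 1) (nat_lit 297104) .nil)), (nat_lit 38),
 (nat_lit 0), (nat_lit 0), (nat_lit 0), (8, 37, 23), [10719320, 16596], 0⟩,
  mz,
  ⟨⟨-15, 44, 16, 20, 13, -50, -34, 8, -1⟩, (.cons (nat_lit 3918121) (nat_lit 2133536) (nat_lit 5568120)
 (nat_lit 1) (.cons (nat_lit 47267) (nat_lit 854189) (nat_lit 335949) (nat_lit 1) .nil)), (nat_lit 25),
 (nat_lit 0), (nat_lit 0), (nat_lit 0), (28, 20, 9), [17791749, 198905], 0⟩,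
  ⟨⟨33, 8, 20, 20, 27, -40, 30, -24, -17⟩, (.cons (nat_lit 19487170) (nat_lit 8689765) (nat_lit 13750578)
 (nat_lit 1) (.cons (nat_lit 923520) (nat_lit 612083) (nat_lit 382216) (nat_lit 1) .nil)), (nat_lit 13),
 (nat_lit 0), (nat_lit 0), (nat_lit 0), (4, 35, 31), [14549954, 359954], 0⟩,
  mz,
  mz,
  mz,
  ⟨⟨9, -4, -56, 40, -13, -10, 14, 32, -25⟩, (.cons (nat_lit 13919406) (nat_lit 9225702) (nat_lit 3668255)
 (nat_lit 1) (.cons (nat_lit 55449) (nat_lit 548403) (nat_lit 449311) (nat_lit 1) .nil)), (nat_lit 12),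
 (nat_lit 0), (nat_lit 0), (nat_lit 0), (19, 8, 20), [10141264, 412758], 0⟩,
  ⟨⟨-5, -36, 36, 40, -13, -30, -14, -32, -11⟩, (.cons (nat_lit 17697242) (nat_lit 8420343) (nat_lit 1789928)
 (nat_lit 1) (.cons (nat_lit 392401) (nat_lit 752328) (nat_lit 66975) (nat_lit 1) .nil)), (nat_lit 4), (nat_lit
 0), (nat_lit 0), (nat_lit 0), (11, 41, 5), [298027, 282502], 0⟩,
  mz,
  mz,
  ⟨⟨21, 20, 31, 38, -15, -34, 12, 36, -13⟩, (.cons (nat_lit 1782522) (nat_lit 18540658) (nat_lit 5840325)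
 (nat_lit 1) (.cons (nat_lit 511526) (nat_lit 490575) (nat_lit 757021) (nat_lit 1) .nil)), (nat_lit 38),
 (nat_lit 0), (nat_lit 0), (nat_lit 0), (12, 34, 13), [1483758, 199363], 0⟩,
  ⟨⟨-21, 20, 52, 38, 15, -4, -12, 36, -1⟩, (.cons (nat_lit 8636741) (nat_lit 9798879) (nat_lit 1920023)
 (nat_lit 1) (.cons (nat_lit 609247) (nat_lit 750069) (nat_lit 704855) (nat_lit 1) .nil)), (nat_lit 1),
 (nat_lit 0), (nat_lit 0), (nat_lit 0), (12, 9, 13), [8987559, 658943], 0⟩,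
  mz,
  mz,
  ⟨⟨9, 4, -56, 40, 13, -10, 14, -32, -25⟩, (.cons (nat_lit 14098309) (nat_lit 17109058) (nat_lit 10527257)
 (nat_lit 1) (.cons (nat_lit 636209) (nat_lit 432386) (nat_lit 381773) (nat_lit 1) .nil)), (nat_lit 12),
 (nat_lit 0), (nat_lit 0), (nat_lit 0), (37, 2, 5), [18652867, 588431], 0⟩,
  ⟨⟨-9, -4, -47, 40, 13, -30, -14, 32, -11⟩, (.cons (nat_lit 14750373) (nat_lit 6892135) (nat_lit 14311003)
 (nat_lit 1) (.cons (nat_lit 853085) (nat_lit 256765) (nat_lit 891850) (nat_lit 1) .nil)), (nat_lit 39),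
 (nat_lit 0), (nat_lit 0), (nat_lit 0), (19, 35, 20), [4113448, 522954], 0⟩,
  mz,
  mz,
  mz,
  ⟨⟨33, -8, -53, -20, 27, -20, 30, 24, -13⟩, (.cons (nat_lit 592893) (nat_lit 3049783) (nat_lit 5995253)
 (nat_lit 1) (.cons (nat_lit 524324) (nat_lit 227036) (nat_lit 890335) (nat_lit 1) .nil)), (nat_lit 36),
 (nat_lit 0), (nat_lit 0), (nat_lit 0), (39, 35, 12), [6137545, 820867], 0⟩,
  ⟨⟨19, -36, -36, -20, 13, -30, 34, 8, -35⟩, (.cons (nat_lit 6758725) (nat_lit 7431180) (nat_lit 9371416)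
 (nat_lit 1) (.cons (nat_lit 389016) (nat_lit 170411) (nat_lit 429304) (nat_lit 1) .nil)), (nat_lit 18),
 (nat_lit 0), (nat_lit 0), (nat_lit 0), (24, 20, 9), [9598574, 515749], 0⟩,
  mz,
  ⟨⟨-21, -20, 52, -38, 15, 4, -12, -36, -1⟩, (.cons (nat_lit 3542581) (nat_lit 18297737) (nat_lit 16297066)
 (nat_lit 1) (.cons (nat_lit 1798) (nat_lit 41163) (nat_lit 433316) (nat_lit 1) .nil)), (nat_lit 38), (nat_lit
 0), (nat_lit 0), (nat_lit 0), (8, 37, 23), [6119095, 889239], 0⟩,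
  ⟨⟨-47, 0, 27, 0, -43, 0, -18, 0, -29⟩, (.cons (nat_lit 10348082) (nat_lit 1120183) (nat_lit 8018905) (nat_lit
 1) (.cons (nat_lit 621054) (nat_lit 56466) (nat_lit 810866) (nat_lit 1) .nil)), (nat_lit 9), (nat_lit 0),
 (nat_lit 0), (nat_lit 0), (34, 0, 24), [8819387, 676240], 0⟩,
  ⟨⟨-37, 24, 0, -20, -37, 0, 2, 8, -43⟩, (.cons (nat_lit 6333155) (nat_lit 11083023) (nat_lit 12642276)
 (nat_lit 1) (.cons (nat_lit 338089) (nat_lit 51601) (nat_lit 338329) (nat_lit 1) .nil)), (nat_lit 6), (nat_lit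
 0), (nat_lit 0), (nat_lit 0), (34, 30, 40), [19278924, 350670], 0⟩,
  ⟨⟨-3, 32, -37, 20, -27, -40, 30, 24, -17⟩, (.cons (nat_lit 4647921) (nat_lit 12605967) (nat_lit 3493556)
 (nat_lit 1) (.cons (nat_lit 806840) (nat_lit 511152) (nat_lit 147887) (nat_lit 1) .nil)), (nat_lit 30),
 (nat_lit 0), (nat_lit 0), (nat_lit 0), (42, 21, 10), [4764433, 729082], 0⟩,
  ⟨⟨-39, 16, -4, 20, 37, -20, -2, -8, -41⟩, (.cons (nat_lit 19487170) (nat_lit 14539485) (nat_lit 9140534)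
 (nat_lit 1) (.cons (nat_lit 923520) (nat_lit 623746) (nat_lit 589824) (nat_lit 1) .nil)), (nat_lit 37),
 (nat_lit 0), (nat_lit 0), (nat_lit 0), (35, 3, 4), [12562084, 662670], 0⟩,
  ⟨⟨3, -44, -20, -2, 15, -44, 36, -12, -25⟩, (.cons (nat_lit 2806336) (nat_lit 13420405) (nat_lit 2712025)
 (nat_lit 1) (.cons (nat_lit 83344) (nat_lit 191443) (nat_lit 1) (nat_lit 242110) .nil)), (nat_lit 33),
 (nat_lit 0), (nat_lit 0), (nat_lit 0), (10, 22, 34), [4175535, 893235], 0⟩,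
  ⟨⟨-19, 36, -17, -20, 13, 50, -34, -8, -1⟩, (.cons (nat_lit 11191165) (nat_lit 1804736) (nat_lit 1) (nat_lit
 717816) (.cons (nat_lit 360212) (nat_lit 793970) (nat_lit 19339) (nat_lit 1) .nil)), (nat_lit 26), (nat_lit
 0), (nat_lit 0), (nat_lit 0), (14, 17, 16), [4473976, 74027], 0⟩,
  mz,
  mz,
  ⟨⟨33, 32, -28, 2, -15, -46, 36, -12, -11⟩, (.cons (nat_lit 5333997) (nat_lit 4652442) (nat_lit 14780598)
 (nat_lit 1) (.cons (nat_lit 841836) (nat_lit 561781) (nat_lit 342757) (nat_lit 1) .nil)), (nat_lit 21),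
 (nat_lit 0), (nat_lit 0), (nat_lit 0), (34, 19, 41), [4136711, 53471], 0⟩]

/-- All the moves. -/
noncomputable def tabs : List (List (List Mv)) := [[[], t0_1, [], [], t0_4], [[], t1_1, [], [], t1_4], [], [], [[], t4_1, [], [], t4_4]]

/-- Subtrie. -/
noncomputable def T1 : Tr := (.ev (nat_lit 20) (nat_lit 4563402753312) (.nd (nat_lit 33) (.br (nat_lit 20) (.br
 (nat_lit 13) (.br (nat_lit 4) (.br (nat_lit 2) (.ch (nat_lit 1) (.ev (nat_lit 52) (nat_lit 343668687504) (.ev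
 (nat_lit 116) (nat_lit 64) (.ev (nat_lit 324) (nat_lit 2) (.ev (nat_lit 500) (nat_lit 8192) (.ev (nat_lit 640)
 (nat_lit 2097152) (.nd (nat_lit 832) (.br (nat_lit 7) (.br (nat_lit 2) (.ch (nat_lit 0) (.ev (nat_lit 848)
 (nat_lit 34393423872) (.ev (nat_lit 980) (nat_lit 549755813888) (.ev (nat_lit 1108) (nat_lit 1073741824) (.nd
 (nat_lit 1264) (.br (nat_lit 5) (.ch (nat_lit 1) (.ev (nat_lit 1280) (nat_lit 266240) .dd)) (.br (nat_lit 8)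
 (.ch (nat_lit 5) (.fin (nat_lit 576474496205537872))) (.ch (nat_lit 8) (.ev (nat_lit 1280) (nat_lit 266240)
 .dd))))))))) (.ch (nat_lit 2) (.ev (nat_lit 848) (nat_lit 585222979584) (.ev (nat_lit 886) (nat_lit 266240)
 .dd)))) (.br (nat_lit 9) (.ch (nat_lit 7) (.ev (nat_lit 848) (nat_lit 1107689472) (.ev (nat_lit 900) (nat_lit
 4096) (.nd (nat_lit 1264) (.br (nat_lit 5) (.br (nat_lit 2) (.ch (nat_lit 0) (.ev (nat_lit 1280) (nat_lit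
 584115552256) .dd)) (.ch (nat_lit 2) (.fin (nat_lit 576434913761772000)))) (.br (nat_lit 10) (.ch (nat_lit 5)
 (.ev (nat_lit 1280) (nat_lit 584115552256) .dd)) (.ch (nat_lit 10) (.ev (nat_lit 1280) (nat_lit 549755813888)
 (.ev (nat_lit 1293) (nat_lit 34359738368) .dd))))))))) (.br (nat_lit 10) (.ch (nat_lit 9) (.ev (nat_lit 848)
 (nat_lit 585189560320) (.nd (nat_lit 1264) (.br (nat_lit 10) (.ch (nat_lit 5) (.fin (nat_lit
 576460202549133877))) (.ch (nat_lit 10) (.ev (nat_lit 1280) (nat_lit 33685504) .dd)))))) (.ch (nat_lit 10)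
 (.ev (nat_lit 848) (nat_lit 549755949056) (.ev (nat_lit 900) (nat_lit 262144) (.ev (nat_lit 1236) (nat_lit
 1073741824) (.nd (nat_lit 1264) (.br (nat_lit 6) (.br (nat_lit 2) (.ch (nat_lit 0) (.ev (nat_lit 1280)
 (nat_lit 34393292800) .dd)) (.ch (nat_lit 2) (.ev (nat_lit 1280) (nat_lit 34393292800) .dd))) (.br (nat_lit 9)
 (.ch (nat_lit 6) (.fin (nat_lit 576373341142073876))) (.ch (nat_lit 9) (.ev (nat_lit 1280) (nat_lit 33554432)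
 (.ev (nat_lit 1293) (nat_lit 34359738368) .dd)))))))))))))))))))) (.ch (nat_lit 2) (.ev (nat_lit 52) (nat_lit
 1080304146) (.ev (nat_lit 180) (nat_lit 549755813888) (.ev (nat_lit 212) (nat_lit 4096) (.ev (nat_lit 388)
 (nat_lit 68786585600) (.ev (nat_lit 532) (nat_lit 274877906944) (.ev (nat_lit 656) (nat_lit 34359738368) (.nd
 (nat_lit 832) (.br (nat_lit 2) (.br (nat_lit 1) (.ch (nat_lit 0) (.ev (nat_lit 848) (nat_lit 33685696) .dd))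
 (.ch (nat_lit 1) (.ev (nat_lit 848) (nat_lit 33685696) .dd))) (.br (nat_lit 5) (.ch (nat_lit 2) (.ev (nat_lit
 848) (nat_lit 33685504) (.ev (nat_lit 950) (nat_lit 128) (.ev (nat_lit 957) (nat_lit 64) .dd)))) (.br (nat_lit
 9) (.ch (nat_lit 5) (.ev (nat_lit 848) (nat_lit 33685504) (.ev (nat_lit 998) (nat_lit 128) (.ev (nat_lit 1005)
 (nat_lit 64) .dd)))) (.ch (nat_lit 9) (.ev (nat_lit 848) (nat_lit 128) (.nd (nat_lit 1264) (.br (nat_lit 5)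
 (.ch (nat_lit 3) (.ev (nat_lit 1280) (nat_lit 33554432) (.fin (nat_lit 576549263002518124)))) (.ch (nat_lit 5)
 (.nd (nat_lit 1297) (.br (nat_lit 13) (.ch (nat_lit 4) (.ev (nat_lit 1313) (nat_lit 64) (.nd (nat_lit 1328)
 (.br (nat_lit 2) (.ch (nat_lit 0) (.ev (nat_lit 1344) (nat_lit 131072) (.ev (nat_lit 1357) (nat_lit 33554432)
 .dd))) (.ch (nat_lit 2) (.fin (nat_lit 576462401572389451))))))) (.br (nat_lit 24) (.ch (nat_lit 13) (.ev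
 (nat_lit 1313) (nat_lit 131072) (.nd (nat_lit 1328) (.br (nat_lit 2) (.ch (nat_lit 0) (.fin (nat_lit
 576456904107573836))) (.ch (nat_lit 2) (.ev (nat_lit 1344) (nat_lit 64) (.ev (nat_lit 1357) (nat_lit 33554432)
 .dd))))))) (.ch (nat_lit 24) (.ev (nat_lit 1313) (nat_lit 33685568) .dd)))))))))))))))))))))) (.br (nat_lit 6)
 (.ch (nat_lit 4) (.ev (nat_lit 52) (nat_lit 310378770960) (.ev (nat_lit 420) (nat_lit 2) (.ev (nat_lit 784)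
 (nat_lit 131072) (.nd (nat_lit 832) (.br (nat_lit 5) (.ch (nat_lit 2) (.ev (nat_lit 848) (nat_lit 68753031296)
 (.ev (nat_lit 1008) (nat_lit 4194304) (.nd (nat_lit 1296) (.ch (nat_lit 8) (.nd (nat_lit 1329) (.br (nat_lit
 28) (.ch (nat_lit 6) (.ev (nat_lit 1345) (nat_lit 64) (.nd (nat_lit 1360) (.br (nat_lit 6) (.ch (nat_lit 5)
 (.fin (nat_lit 576464600585159233))) (.ch (nat_lit 6) (.ev (nat_lit 1376) (nat_lit 2097152) (.ev (nat_lit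
 1389) (nat_lit 549755813888) .dd))))))) (.ch (nat_lit 28) (.ev (nat_lit 1345) (nat_lit 2097152) (.nd (nat_lit
 1360) (.ch (nat_lit 6) (.fin (nat_lit 576395331322200656))))))))))))) (.br (nat_lit 9) (.ch (nat_lit 5) (.ev
 (nat_lit 848) (nat_lit 549795659840) (.fin (nat_lit 576470098169512516)))) (.ch (nat_lit 9) (.ev (nat_lit 848)
 (nat_lit 618479485056) (.ev (nat_lit 868) (nat_lit 2097152) (.nd (nat_lit 1296) (.ch (nat_lit 5) (.nd (nat_lit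
 1329) (.br (nat_lit 25) (.ch (nat_lit 2) (.nd (nat_lit 1360) (.br (nat_lit 1) (.ch (nat_lit 0) (.fin (nat_lit
 576465700013949492))) (.ch (nat_lit 1) (.ev (nat_lit 1376) (nat_lit 33554432) (.ev (nat_lit 1389) (nat_lit 64)
 .dd)))))) (.br (nat_lit 26) (.ch (nat_lit 25) (.ev (nat_lit 1345) (nat_lit 33554432) (.ev (nat_lit 1357)
 (nat_lit 64) .dd))) (.ch (nat_lit 26) (.ev (nat_lit 1345) (nat_lit 33554432) (.ev (nat_lit 1357) (nat_lit 64)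
 .dd)))))))))))))))))) (.br (nat_lit 8) (.ch (nat_lit 6) (.ev (nat_lit 52) (nat_lit 1076105410) (.ev (nat_lit
 148) (nat_lit 16) (.ev (nat_lit 212) (nat_lit 67108864) (.ev (nat_lit 244) (nat_lit 549755813888) (.ev
 (nat_lit 292) (nat_lit 274877906944) (.ev (nat_lit 420) (nat_lit 131072) (.ev (nat_lit 532) (nat_lit 4194304)
 (.ev (nat_lit 576) (nat_lit 68719484928) (.nd (nat_lit 832) (.br (nat_lit 2) (.br (nat_lit 1) (.ch (nat_lit 0)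
 (.ev (nat_lit 848) (nat_lit 34393293312) .dd)) (.ch (nat_lit 1) (.ev (nat_lit 848) (nat_lit 34393293312)
 .dd))) (.br (nat_lit 7) (.ch (nat_lit 2) (.ev (nat_lit 848) (nat_lit 512) (.ev (nat_lit 964) (nat_lit
 34359738368) (.ev (nat_lit 973) (nat_lit 33554432) .dd)))) (.br (nat_lit 10) (.ch (nat_lit 7) (.ev (nat_lit
 848) (nat_lit 33554432) (.ev (nat_lit 1044) (nat_lit 34359738368) (.ev (nat_lit 1053) (nat_lit 512) .dd))))
 (.ch (nat_lit 10) (.nd (nat_lit 1264) (.br (nat_lit 6) (.ch (nat_lit 2) (.ev (nat_lit 1280) (nat_lit 33554432)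
 (.fin (nat_lit 576474496274743932)))) (.ch (nat_lit 6) (.ev (nat_lit 1280) (nat_lit 512) (.fin (nat_lit
 576549262979449452)))))))))))))))))))) (.ch (nat_lit 8) (.ev (nat_lit 52) (nat_lit 549858706128) (.ev (nat_lit
 212) (nat_lit 68719476736) (.ev (nat_lit 244) (nat_lit 262144) (.ev (nat_lit 292) (nat_lit 1073741824) (.ev
 (nat_lit 560) (nat_lit 309237645314) (.ev (nat_lit 752) (nat_lit 4096) (.nd (nat_lit 832) (.br (nat_lit 7)
 (.ch (nat_lit 0) (.ev (nat_lit 848) (nat_lit 8192) (.ev (nat_lit 861) (nat_lit 4194304) .dd))) (.br (nat_lit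
 9) (.ch (nat_lit 7) (.ev (nat_lit 848) (nat_lit 8192) (.ev (nat_lit 861) (nat_lit 4194304) .dd))) (.ch
 (nat_lit 9) (.fin (nat_lit 576465700116709950)))))))))))))))) (.br (nat_lit 15) (.br (nat_lit 14) (.ch
 (nat_lit 13) (.ev (nat_lit 52) (nat_lit 35467432448) (.ev (nat_lit 116) (nat_lit 68719476736) (.ev (nat_lit
 128) (nat_lit 824707129554) .dd)))) (.ch (nat_lit 14) (.ev (nat_lit 52) (nat_lit 618544759490) (.ev (nat_lit
 84) (nat_lit 34359738368) (.ev (nat_lit 116) (nat_lit 33554432) (.ev (nat_lit 212) (nat_lit 16) (.ev (nat_lit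
 292) (nat_lit 131072) (.ev (nat_lit 388) (nat_lit 4096) (.nd (nat_lit 832) (.br (nat_lit 5) (.br (nat_lit 2)
 (.ch (nat_lit 1) (.ev (nat_lit 848) (nat_lit 1073750016) (.ev (nat_lit 1126) (nat_lit 274882101248) .dd)))
 (.ch (nat_lit 2) (.ev (nat_lit 848) (nat_lit 1073750016) (.ev (nat_lit 918) (nat_lit 274882101248) .dd))))
 (.br (nat_lit 7) (.ch (nat_lit 5) (.ev (nat_lit 848) (nat_lit 4202496) (.nd (nat_lit 1264) (.br (nat_lit 5)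
 (.br (nat_lit 3) (.ch (nat_lit 1) (.ev (nat_lit 1280) (nat_lit 275951648768) .dd)) (.ch (nat_lit 3) (.ev
 (nat_lit 1280) (nat_lit 275951648768) .dd))) (.br (nat_lit 9) (.ch (nat_lit 5) (.fin (nat_lit
 576452505968788022))) (.ch (nat_lit 9) (.ev (nat_lit 1280) (nat_lit 275951648768) .dd))))))) (.br (nat_lit 9)
 (.ch (nat_lit 7) (.ev (nat_lit 848) (nat_lit 275955851264) .dd)) (.ch (nat_lit 9) (.ev (nat_lit 848) (nat_lit
 275951648768) (.nd (nat_lit 1264) (.br (nat_lit 7) (.br (nat_lit 5) (.ch (nat_lit 3) (.fin (nat_lit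
 576456904004813378))) (.ch (nat_lit 5) (.ev (nat_lit 1280) (nat_lit 4202496) .dd))) (.br (nat_lit 10) (.ch
 (nat_lit 7) (.ev (nat_lit 1280) (nat_lit 4202496) .dd)) (.ch (nat_lit 10) (.ev (nat_lit 1280) (nat_lit
 4202496) .dd))))))))))))))))))) (.br (nat_lit 18) (.ch (nat_lit 15) (.ev (nat_lit 52) (nat_lit 860107059712)
 (.ev (nat_lit 84) (nat_lit 64) (.ev (nat_lit 244) (nat_lit 68719476736) (.ev (nat_lit 368) (nat_lit 67502226)
 .dd))))) (.br (nat_lit 19) (.ch (nat_lit 18) (.ev (nat_lit 52) (nat_lit 927717269586) (.ev (nat_lit 180)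
 (nat_lit 67108864) (.ev (nat_lit 224) (nat_lit 1109660288) .dd)))) (.ch (nat_lit 19) (.ev (nat_lit 52)
 (nat_lit 825781269122) (.ev (nat_lit 84) (nat_lit 16) (.ev (nat_lit 148) (nat_lit 68753031168) (.nd (nat_lit
 832) (.br (nat_lit 2) (.br (nat_lit 1) (.ch (nat_lit 0) (.ev (nat_lit 848) (nat_lit 34359738432) .dd)) (.ch
 (nat_lit 1) (.ev (nat_lit 848) (nat_lit 34359738432) .dd))) (.br (nat_lit 7) (.ch (nat_lit 2) (.fin (nat_lit
 576462401572389440))) (.br (nat_lit 10) (.ch (nat_lit 7) (.ev (nat_lit 848) (nat_lit 34359738432) .dd)) (.ch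
 (nat_lit 10) (.ev (nat_lit 848) (nat_lit 34359738432) .dd)))))))))))))) (.br (nat_lit 25) (.br (nat_lit 22)
 (.br (nat_lit 21) (.ch (nat_lit 20) (.ev (nat_lit 52) (nat_lit 69900312592) (.ev (nat_lit 116) (nat_lit 128)
 (.ev (nat_lit 148) (nat_lit 34359738368) (.ev (nat_lit 180) (nat_lit 4096) (.ev (nat_lit 532) (nat_lit 512)
 (.ev (nat_lit 816) (nat_lit 262144) (.nd (nat_lit 832) (.br (nat_lit 5) (.ch (nat_lit 2) (.ev (nat_lit 868)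
 (nat_lit 2) (.ev (nat_lit 1056) (nat_lit 274877906944) (.nd (nat_lit 1264) (.br (nat_lit 8) (.br (nat_lit 7)
 (.ch (nat_lit 2) (.ev (nat_lit 1280) (nat_lit 549755813952) .dd)) (.ch (nat_lit 7) (.ev (nat_lit 1280)
 (nat_lit 549755813952) .dd))) (.br (nat_lit 10) (.ch (nat_lit 8) (.fin (nat_lit 576395331322200656))) (.ch
 (nat_lit 10) (.ev (nat_lit 1280) (nat_lit 549755813888) (.ev (nat_lit 1293) (nat_lit 64) .dd))))))))) (.br
 (nat_lit 10) (.ch (nat_lit 5) (.ev (nat_lit 848) (nat_lit 549755813888) (.ev (nat_lit 1216) (nat_lit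
 274877906944) (.nd (nat_lit 1296) (.ch (nat_lit 5) (.nd (nat_lit 1329) (.ch (nat_lit 18) (.nd (nat_lit 1360)
 (.br (nat_lit 9) (.ch (nat_lit 0) (.ev (nat_lit 1376) (nat_lit 2) (.ev (nat_lit 1389) (nat_lit 64) .dd))) (.ch
 (nat_lit 9) (.fin (nat_lit 576478894310769288)))))))))))) (.ch (nat_lit 10) (.ev (nat_lit 848) (nat_lit
 824633720898) .dd)))))))))))) (.ch (nat_lit 21) (.ev (nat_lit 52) (nat_lit 550863249408) (.ev (nat_lit 148)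
 (nat_lit 67108864) (.ev (nat_lit 180) (nat_lit 80) (.ev (nat_lit 244) (nat_lit 4096) (.ev (nat_lit 420)
 (nat_lit 4194304) (.ev (nat_lit 736) (nat_lit 274877906944) (.nd (nat_lit 832) (.br (nat_lit 5) (.ch (nat_lit
 2) (.ev (nat_lit 848) (nat_lit 68719739520) (.ev (nat_lit 868) (nat_lit 2) (.nd (nat_lit 1296) (.ch (nat_lit
 2) (.nd (nat_lit 1329) (.br (nat_lit 18) (.ch (nat_lit 12) (.ev (nat_lit 1345) (nat_lit 34359738368) (.ev
 (nat_lit 1357) (nat_lit 2097152) .dd))) (.br (nat_lit 22) (.ch (nat_lit 18) (.nd (nat_lit 1360) (.br (nat_lit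
 6) (.ch (nat_lit 4) (.fin (nat_lit 576386535227081272))) (.ch (nat_lit 6) (.ev (nat_lit 1376) (nat_lit
 2097152) (.ev (nat_lit 1389) (nat_lit 34359738368) .dd)))))) (.ch (nat_lit 22) (.ev (nat_lit 1345) (nat_lit
 34361835520) .dd)))))))))) (.br (nat_lit 10) (.ch (nat_lit 5) (.ev (nat_lit 848) (nat_lit 34362098178) (.fin
 (nat_lit 576470098169512516)))) (.ch (nat_lit 10) (.ev (nat_lit 848) (nat_lit 68721574016) (.ev (nat_lit 1216)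
 (nat_lit 262144) (.nd (nat_lit 1296) (.ch (nat_lit 2) (.nd (nat_lit 1329) (.br (nat_lit 23) (.br (nat_lit 21)
 (.ch (nat_lit 10) (.ev (nat_lit 1345) (nat_lit 514) (.ev (nat_lit 1357) (nat_lit 34359738368) .dd))) (.ch
 (nat_lit 21) (.ev (nat_lit 1345) (nat_lit 2) (.nd (nat_lit 1360) (.ch (nat_lit 7) (.fin (nat_lit
 576474496274743932))))))) (.br (nat_lit 29) (.ch (nat_lit 23) (.ev (nat_lit 1345) (nat_lit 514) (.ev (nat_lit
 1357) (nat_lit 34359738368) .dd))) (.ch (nat_lit 29) (.ev (nat_lit 1345) (nat_lit 34359738368) (.nd (nat_lit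
 1360) (.br (nat_lit 7) (.ch (nat_lit 5) (.fin (nat_lit 576471197667508802))) (.ch (nat_lit 7) (.ev (nat_lit
 1376) (nat_lit 2) (.ev (nat_lit 1389) (nat_lit 512) .dd)))))))))))))))))))))))))) (.br (nat_lit 23) (.ch
 (nat_lit 22) (.ev (nat_lit 52) (nat_lit 68753432720) (.ev (nat_lit 116) (nat_lit 67108864) (.ev (nat_lit 292)
 (nat_lit 4194304) (.ev (nat_lit 324) (nat_lit 1073742336) (.ev (nat_lit 356) (nat_lit 2) (.ev (nat_lit 420)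
 (nat_lit 274877906944) (.ev (nat_lit 688) (nat_lit 64) (.nd (nat_lit 832) (.br (nat_lit 7) (.ch (nat_lit 2)
 (.ev (nat_lit 1248) (nat_lit 4096) (.nd (nat_lit 1264) (.br (nat_lit 8) (.br (nat_lit 7) (.ch (nat_lit 2) (.ev
 (nat_lit 1280) (nat_lit 549755813888) (.fin (nat_lit 576536068894442056)))) (.ch (nat_lit 7) (.ev (nat_lit
 1280) (nat_lit 584117649408) .dd))) (.br (nat_lit 9) (.ch (nat_lit 8) (.ev (nat_lit 1280) (nat_lit
 34359738368) (.fin (nat_lit 576464600585159233)))) (.ch (nat_lit 9) (.ev (nat_lit 1280) (nat_lit 549757911040)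
 (.ev (nat_lit 1293) (nat_lit 34359738368) .dd)))))))) (.br (nat_lit 10) (.ch (nat_lit 7) (.ev (nat_lit 848)
 (nat_lit 2101248) (.nd (nat_lit 1296) (.ch (nat_lit 2) (.nd (nat_lit 1329) (.br (nat_lit 3) (.ch (nat_lit 1)
 (.nd (nat_lit 1360) (.br (nat_lit 8) (.ch (nat_lit 4) (.ev (nat_lit 1376) (nat_lit 549755813888) (.ev (nat_lit
 1389) (nat_lit 34359738368) .dd))) (.ch (nat_lit 8) (.fin (nat_lit 576434913761772000)))))) (.ch (nat_lit 3)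
 (.ev (nat_lit 1345) (nat_lit 584115552256) .dd)))))))) (.ch (nat_lit 10) (.ev (nat_lit 848) (nat_lit
 584117653504) .dd))))))))))))) (.br (nat_lit 24) (.ch (nat_lit 23) (.ev (nat_lit 52) (nat_lit 618477523650)
 (.ev (nat_lit 160) (nat_lit 310416515088) .dd))) (.ch (nat_lit 24) (.ev (nat_lit 52) (nat_lit 894527869570)
 (.ev (nat_lit 324) (nat_lit 131072) (.ev (nat_lit 356) (nat_lit 2097152) (.ev (nat_lit 388) (nat_lit 16) (.ev
 (nat_lit 468) (nat_lit 4194304) (.ev (nat_lit 532) (nat_lit 8192) (.nd (nat_lit 832) (.br (nat_lit 2) (.br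
 (nat_lit 1) (.ch (nat_lit 0) (.ev (nat_lit 848) (nat_lit 34359738432) .dd)) (.ch (nat_lit 1) (.ev (nat_lit
 848) (nat_lit 34359738432) .dd))) (.br (nat_lit 5) (.ch (nat_lit 2) (.fin (nat_lit 576462401572389440))) (.br
 (nat_lit 9) (.ch (nat_lit 5) (.ev (nat_lit 848) (nat_lit 34359738432) .dd)) (.ch (nat_lit 9) (.ev (nat_lit
 848) (nat_lit 34359738432) .dd)))))))))))))))) (.br (nat_lit 27) (.br (nat_lit 26) (.ch (nat_lit 25) (.ev
 (nat_lit 52) (nat_lit 652906725394) (.ev (nat_lit 84) (nat_lit 4096) (.ev (nat_lit 212) (nat_lit 33554432)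
 (.ev (nat_lit 324) (nat_lit 2097152) (.ev (nat_lit 544) (nat_lit 8384) (.ev (nat_lit 768) (nat_lit 512) (.nd
 (nat_lit 832) (.br (nat_lit 5) (.ch (nat_lit 0) (.ev (nat_lit 848) (nat_lit 1073741824) (.ev (nat_lit 861)
 (nat_lit 274877906944) .dd))) (.br (nat_lit 10) (.ch (nat_lit 5) (.fin (nat_lit 576470098152735306))) (.ch
 (nat_lit 10) (.ev (nat_lit 848) (nat_lit 1073741824) (.ev (nat_lit 861) (nat_lit 274877906944)
 .dd))))))))))))) (.ch (nat_lit 26) (.ev (nat_lit 52) (nat_lit 860136407184) (.ev (nat_lit 84) (nat_lit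
 33554432) (.ev (nat_lit 500) (nat_lit 4194304) (.ev (nat_lit 672) (nat_lit 8192) (.nd (nat_lit 832) (.br
 (nat_lit 5) (.br (nat_lit 1) (.ch (nat_lit 0) (.ev (nat_lit 848) (nat_lit 578) (.ev (nat_lit 964) (nat_lit
 68719476736) (.ev (nat_lit 1024) (nat_lit 131072) (.nd (nat_lit 1264) (.br (nat_lit 3) (.ch (nat_lit 1) (.ev
 (nat_lit 1280) (nat_lit 266240) .dd)) (.br (nat_lit 5) (.ch (nat_lit 3) (.ev (nat_lit 1280) (nat_lit 266240)
 .dd)) (.ch (nat_lit 5) (.fin (nat_lit 576474496205537872)))))))))) (.ch (nat_lit 1) (.ev (nat_lit 848)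
 (nat_lit 68719608386) (.ev (nat_lit 1158) (nat_lit 262144) (.ev (nat_lit 1165) (nat_lit 4096) .dd))))) (.br
 (nat_lit 9) (.ch (nat_lit 5) (.ev (nat_lit 848) (nat_lit 135680) (.ev (nat_lit 1044) (nat_lit 68719476736)
 (.ev (nat_lit 1172) (nat_lit 262144) (.nd (nat_lit 1264) (.br (nat_lit 3) (.br (nat_lit 2) (.ch (nat_lit 1)
 (.ev (nat_lit 1280) (nat_lit 2) (.ev (nat_lit 1293) (nat_lit 64) .dd))) (.ch (nat_lit 2) (.ev (nat_lit 1280)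
 (nat_lit 66) .dd))) (.br (nat_lit 5) (.ch (nat_lit 3) (.ev (nat_lit 1280) (nat_lit 66) .dd)) (.ch (nat_lit 5)
 (.fin (nat_lit 576443709810754040)))))))))) (.br (nat_lit 10) (.ch (nat_lit 9) (.ev (nat_lit 848) (nat_lit
 68719739394) (.ev (nat_lit 1172) (nat_lit 4096) (.nd (nat_lit 1264) (.br (nat_lit 7) (.br (nat_lit 3) (.ch
 (nat_lit 2) (.ev (nat_lit 1280) (nat_lit 131136) .dd)) (.ch (nat_lit 3) (.fin (nat_lit 576549263002518124))))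
 (.br (nat_lit 10) (.ch (nat_lit 7) (.ev (nat_lit 1280) (nat_lit 131072) (.ev (nat_lit 1293) (nat_lit 64)
 .dd))) (.ch (nat_lit 10) (.ev (nat_lit 1280) (nat_lit 131136) .dd)))))))) (.ch (nat_lit 10) (.ev (nat_lit 848)
 (nat_lit 68719874112) (.nd (nat_lit 1264) (.br (nat_lit 10) (.ch (nat_lit 2) (.fin (nat_lit
 576471197667508802))) (.ch (nat_lit 10) (.ev (nat_lit 1280) (nat_lit 514) .dd)))))))))))))))) (.br (nat_lit
 28) (.ch (nat_lit 27) (.ev (nat_lit 52) (nat_lit 68757360784) (.ev (nat_lit 64) (nat_lit 860136677954) .dd)))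
 (.br (nat_lit 29) (.ch (nat_lit 28) (.ev (nat_lit 52) (nat_lit 377994883138) (.ev (nat_lit 192) (nat_lit
 550899155600) .dd))) (.ch (nat_lit 29) (.ev (nat_lit 52) (nat_lit 274978844736) (.ev (nat_lit 96) (nat_lit
 653915194002) .dd))))))))))

/-- Subtrie. -/
noncomputable def T4 : Tr := (.ev (nat_lit 20) (nat_lit 4865160254592) (.nd (nat_lit 33) (.br (nat_lit 20) (.br
 (nat_lit 13) (.br (nat_lit 4) (.br (nat_lit 2) (.ch (nat_lit 1) (.ev (nat_lit 52) (nat_lit 77380715024) (.ev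
 (nat_lit 148) (nat_lit 2) (.ev (nat_lit 260) (nat_lit 549755813888) (.ev (nat_lit 480) (nat_lit 8544) .dd)))))
 (.ch (nat_lit 2) (.ev (nat_lit 52) (nat_lit 8594137906) (.ev (nat_lit 180) (nat_lit 68719476736) (.ev (nat_lit
 468) (nat_lit 64) (.nd (nat_lit 832) (.br (nat_lit 5) (.ch (nat_lit 0) (.ev (nat_lit 848) (nat_lit
 549822922752) .dd)) (.br (nat_lit 8) (.ch (nat_lit 5) (.nd (nat_lit 1264) (.br (nat_lit 6) (.br (nat_lit 5)
 (.ch (nat_lit 0) (.ev (nat_lit 1280) (nat_lit 549822922752) .dd)) (.ch (nat_lit 5) (.fin (nat_lit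
 576448107926471216)))) (.br (nat_lit 7) (.ch (nat_lit 6) (.ev (nat_lit 1280) (nat_lit 549822922752) .dd)) (.ch
 (nat_lit 7) (.ev (nat_lit 1280) (nat_lit 549822922752) .dd)))))) (.ch (nat_lit 8) (.ev (nat_lit 848) (nat_lit
 549822922752) .dd)))))))))) (.br (nat_lit 6) (.ch (nat_lit 4) (.ev (nat_lit 52) (nat_lit 67117584) (.ev
 (nat_lit 84) (nat_lit 2) (.ev (nat_lit 148) (nat_lit 32) (.nd (nat_lit 832) (.br (nat_lit 5) (.br (nat_lit 4)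
 (.ch (nat_lit 2) (.ev (nat_lit 848) (nat_lit 68723671296) (.ev (nat_lit 932) (nat_lit 8589934592) (.nd
 (nat_lit 1264) (.br (nat_lit 9) (.ch (nat_lit 0) (.ev (nat_lit 1280) (nat_lit 549755813952) .dd)) (.br
 (nat_lit 10) (.ch (nat_lit 9) (.ev (nat_lit 1280) (nat_lit 549755813888) (.ev (nat_lit 1293) (nat_lit 64)
 .dd))) (.ch (nat_lit 10) (.fin (nat_lit 576527272799322672))))))))) (.ch (nat_lit 4) (.ev (nat_lit 848)
 (nat_lit 549760008512) (.nd (nat_lit 1264) (.br (nat_lit 10) (.ch (nat_lit 7) (.ev (nat_lit 1280) (nat_lit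
 77309411328) .dd)) (.ch (nat_lit 10) (.fin (nat_lit 576465700097835582)))))))) (.br (nat_lit 6) (.ch (nat_lit
 5) (.ev (nat_lit 848) (nat_lit 68719476800) (.ev (nat_lit 1140) (nat_lit 8589934592) (.ev (nat_lit 1204)
 (nat_lit 549755813888) (.nd (nat_lit 1264) (.br (nat_lit 3) (.ch (nat_lit 0) (.ev (nat_lit 1280) (nat_lit
 4194560) .dd)) (.br (nat_lit 6) (.ch (nat_lit 3) (.ev (nat_lit 1280) (nat_lit 4194304) (.ev (nat_lit 1293)
 (nat_lit 256) .dd))) (.ch (nat_lit 6) (.nd (nat_lit 1361) (.ch (nat_lit 13) (.nd (nat_lit 1392) (.ch (nat_lit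
 4) (.fin (nat_lit 576386535227081220)))))))))))))) (.br (nat_lit 8) (.ch (nat_lit 6) (.ev (nat_lit 848)
 (nat_lit 627069419520) (.nd (nat_lit 1264) (.br (nat_lit 6) (.br (nat_lit 5) (.ch (nat_lit 4) (.fin (nat_lit
 576461302059713084))) (.ch (nat_lit 5) (.ev (nat_lit 1280) (nat_lit 64) (.ev (nat_lit 1293) (nat_lit 256)
 .dd)))) (.br (nat_lit 8) (.ch (nat_lit 6) (.ev (nat_lit 1280) (nat_lit 320) .dd)) (.ch (nat_lit 8) (.ev
 (nat_lit 1280) (nat_lit 256) (.ev (nat_lit 1293) (nat_lit 64) .dd)))))))) (.ch (nat_lit 8) (.ev (nat_lit 848)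
 (nat_lit 627065225536) (.ev (nat_lit 861) (nat_lit 4194304) .dd))))))))))) (.br (nat_lit 8) (.ch (nat_lit 6)
 (.ev (nat_lit 52) (nat_lit 354) (.ev (nat_lit 84) (nat_lit 512) (.ev (nat_lit 116) (nat_lit 68719476752) (.ev
 (nat_lit 148) (nat_lit 4194304) (.ev (nat_lit 180) (nat_lit 8589942784) (.nd (nat_lit 832) (.br (nat_lit 5)
 (.ch (nat_lit 0) (.ev (nat_lit 848) (nat_lit 549822922752) .dd)) (.br (nat_lit 6) (.ch (nat_lit 5) (.nd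
 (nat_lit 1264) (.br (nat_lit 7) (.br (nat_lit 6) (.ch (nat_lit 5) (.fin (nat_lit 576448107926471216))) (.ch
 (nat_lit 6) (.ev (nat_lit 1280) (nat_lit 549822922752) .dd))) (.br (nat_lit 9) (.ch (nat_lit 7) (.ev (nat_lit
 1280) (nat_lit 549822922752) .dd)) (.ch (nat_lit 9) (.ev (nat_lit 1280) (nat_lit 549822922752) .dd)))))) (.ch
 (nat_lit 6) (.ev (nat_lit 848) (nat_lit 549822922752) .dd))))))))))) (.ch (nat_lit 8) (.ev (nat_lit 52)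
 (nat_lit 549822923600) (.ev (nat_lit 116) (nat_lit 4194304) (.ev (nat_lit 244) (nat_lit 68719476736) (.ev
 (nat_lit 608) (nat_lit 8589934594) (.nd (nat_lit 832) (.br (nat_lit 5) (.ch (nat_lit 2) (.ev (nat_lit 848)
 (nat_lit 8192) (.ev (nat_lit 861) (nat_lit 32) .dd))) (.br (nat_lit 8) (.ch (nat_lit 5) (.fin (nat_lit
 576452505968788034))) (.ch (nat_lit 8) (.ev (nat_lit 848) (nat_lit 8192) (.ev (nat_lit 861) (nat_lit 32)
 .dd)))))))))))))) (.br (nat_lit 15) (.br (nat_lit 14) (.ch (nat_lit 13) (.ev (nat_lit 52) (nat_lit 544) (.ev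
 (nat_lit 84) (nat_lit 4194304) (.ev (nat_lit 212) (nat_lit 2) (.ev (nat_lit 292) (nat_lit 64) (.ev (nat_lit
 356) (nat_lit 549755813888) (.ev (nat_lit 468) (nat_lit 67108864) (.ev (nat_lit 500) (nat_lit 256) (.ev
 (nat_lit 592) (nat_lit 8208) (.nd (nat_lit 832) (.br (nat_lit 4) (.ch (nat_lit 0) (.ev (nat_lit 848) (nat_lit
 68719476736) (.ev (nat_lit 861) (nat_lit 8589934592) .dd))) (.br (nat_lit 8) (.ch (nat_lit 4) (.fin (nat_lit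
 576456904023687746))) (.ch (nat_lit 8) (.ev (nat_lit 848) (nat_lit 68719476736) (.ev (nat_lit 861) (nat_lit
 8589934592) .dd))))))))))))))) (.ch (nat_lit 14) (.ev (nat_lit 52) (nat_lit 618542400066) (.ev (nat_lit 84)
 (nat_lit 8192) (.ev (nat_lit 400) (nat_lit 8594129200) .dd))))) (.br (nat_lit 18) (.ch (nat_lit 15) (.ev
 (nat_lit 52) (nat_lit 549760016896) (.ev (nat_lit 116) (nat_lit 32) (.ev (nat_lit 148) (nat_lit 8589934592)
 (.ev (nat_lit 212) (nat_lit 68719476736) (.ev (nat_lit 244) (nat_lit 2) (.ev (nat_lit 356) (nat_lit 67108864)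
 (.ev (nat_lit 388) (nat_lit 16) (.ev (nat_lit 420) (nat_lit 64) (.ev (nat_lit 429) (nat_lit 256) .dd))))))))))
 (.br (nat_lit 19) (.ch (nat_lit 18) (.ev (nat_lit 52) (nat_lit 627069428082) (.ev (nat_lit 244) (nat_lit 512)
 (.ev (nat_lit 253) (nat_lit 67108864) .dd)))) (.ch (nat_lit 19) (.ev (nat_lit 52) (nat_lit 549827125762) (.ev
 (nat_lit 272) (nat_lit 77309411696) .dd))))))) (.br (nat_lit 25) (.br (nat_lit 22) (.br (nat_lit 21) (.ch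
 (nat_lit 20) (.ev (nat_lit 52) (nat_lit 68790788144) (.ev (nat_lit 292) (nat_lit 256) (.ev (nat_lit 800)
 (nat_lit 512) (.nd (nat_lit 832) (.br (nat_lit 4) (.ch (nat_lit 2) (.ev (nat_lit 848) (nat_lit 2) (.ev
 (nat_lit 1008) (nat_lit 8589934592) (.nd (nat_lit 1296) (.ch (nat_lit 10) (.nd (nat_lit 1329) (.br (nat_lit
 16) (.br (nat_lit 5) (.ch (nat_lit 2) (.ev (nat_lit 1345) (nat_lit 549755813952) .dd)) (.ch (nat_lit 5) (.ev
 (nat_lit 1345) (nat_lit 549755813952) .dd))) (.br (nat_lit 18) (.ch (nat_lit 16) (.nd (nat_lit 1360) (.br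
 (nat_lit 8) (.ch (nat_lit 2) (.fin (nat_lit 576395331322200656))) (.ch (nat_lit 8) (.ev (nat_lit 1376)
 (nat_lit 549755813888) (.ev (nat_lit 1389) (nat_lit 64) .dd)))))) (.br (nat_lit 20) (.ch (nat_lit 18) (.ev
 (nat_lit 1345) (nat_lit 549755813952) .dd)) (.ch (nat_lit 20) (.ev (nat_lit 1345) (nat_lit 549755813952)
 .dd))))))))))) (.br (nat_lit 6) (.ch (nat_lit 4) (.ev (nat_lit 868) (nat_lit 549755813888) (.ev (nat_lit 1248)
 (nat_lit 8589934592) (.nd (nat_lit 1264) (.br (nat_lit 7) (.br (nat_lit 3) (.ch (nat_lit 0) (.ev (nat_lit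
 1280) (nat_lit 66) .dd)) (.ch (nat_lit 3) (.fin (nat_lit 576443709810754040)))) (.br (nat_lit 9) (.ch (nat_lit
 7) (.ev (nat_lit 1280) (nat_lit 66) .dd)) (.ch (nat_lit 9) (.ev (nat_lit 1280) (nat_lit 2) (.ev (nat_lit 1293)
 (nat_lit 64) .dd))))))))) (.ch (nat_lit 6) (.ev (nat_lit 848) (nat_lit 558345748546) .dd))))))))) (.ch
 (nat_lit 21) (.ev (nat_lit 52) (nat_lit 558345756960) (.ev (nat_lit 84) (nat_lit 68719476736) (.ev (nat_lit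
 324) (nat_lit 67108864) (.ev (nat_lit 500) (nat_lit 64) (.nd (nat_lit 832) (.br (nat_lit 4) (.br (nat_lit 2)
 (.ch (nat_lit 0) (.ev (nat_lit 848) (nat_lit 514) (.nd (nat_lit 1264) (.br (nat_lit 7) (.ch (nat_lit 2) (.nd
 (nat_lit 1361) (.br (nat_lit 15) (.ch (nat_lit 6) (.ev (nat_lit 1377) (nat_lit 4194320) .dd)) (.br (nat_lit
 24) (.ch (nat_lit 15) (.ev (nat_lit 1377) (nat_lit 4194304) (.ev (nat_lit 1389) (nat_lit 16) .dd))) (.ch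
 (nat_lit 24) (.nd (nat_lit 1392) (.ch (nat_lit 3) (.fin (nat_lit 576458003536364094))))))))) (.br (nat_lit 10)
 (.ch (nat_lit 7) (.ev (nat_lit 1280) (nat_lit 4194320) .dd)) (.ch (nat_lit 10) (.ev (nat_lit 1280) (nat_lit
 4194320) .dd))))))) (.ch (nat_lit 2) (.ev (nat_lit 848) (nat_lit 4194834) .dd))) (.br (nat_lit 7) (.ch
 (nat_lit 4) (.ev (nat_lit 848) (nat_lit 4194320) (.nd (nat_lit 1264) (.br (nat_lit 7) (.ch (nat_lit 4) (.nd
 (nat_lit 1361) (.ch (nat_lit 29) (.nd (nat_lit 1392) (.ch (nat_lit 10) (.fin (nat_lit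
 576451406454014526))))))) (.br (nat_lit 10) (.ch (nat_lit 7) (.ev (nat_lit 1280) (nat_lit 514) .dd)) (.ch
 (nat_lit 10) (.ev (nat_lit 1280) (nat_lit 514) .dd))))))) (.br (nat_lit 8) (.ch (nat_lit 7) (.ev (nat_lit 848)
 (nat_lit 4194832) (.ev (nat_lit 861) (nat_lit 2) .dd))) (.ch (nat_lit 8) (.ev (nat_lit 848) (nat_lit 530) (.ev
 (nat_lit 861) (nat_lit 4194304) .dd))))))))))))) (.br (nat_lit 23) (.ch (nat_lit 22) (.ev (nat_lit 52)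
 (nat_lit 77309419568) (.ev (nat_lit 116) (nat_lit 512) (.ev (nat_lit 336) (nat_lit 549827117378) .dd)))) (.br
 (nat_lit 24) (.ch (nat_lit 23) (.ev (nat_lit 52) (nat_lit 627065225826) (.ev (nat_lit 624) (nat_lit 4202496)
 (.nd (nat_lit 832) (.br (nat_lit 4) (.br (nat_lit 2) (.ch (nat_lit 0) (.nd (nat_lit 1264) (.br (nat_lit 10)
 (.ch (nat_lit 7) (.ev (nat_lit 1280) (nat_lit 67108864) (.fin (nat_lit 576487690359751160)))) (.ch (nat_lit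
 10) (.ev (nat_lit 1280) (nat_lit 16) (.fin (nat_lit 576456903920927280))))))) (.ch (nat_lit 2) (.ev (nat_lit
 848) (nat_lit 67109136) .dd))) (.br (nat_lit 5) (.ch (nat_lit 4) (.ev (nat_lit 848) (nat_lit 67109136) .dd))
 (.br (nat_lit 6) (.ch (nat_lit 5) (.ev (nat_lit 848) (nat_lit 16) (.ev (nat_lit 1190) (nat_lit 67108864) (.ev
 (nat_lit 1197) (nat_lit 256) .dd)))) (.ch (nat_lit 6) (.ev (nat_lit 848) (nat_lit 67108864) (.ev (nat_lit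
 1072) (nat_lit 16) (.ev (nat_lit 1085) (nat_lit 256) .dd))))))))))) (.ch (nat_lit 24) (.ev (nat_lit 52)
 (nat_lit 627132334594) (.ev (nat_lit 356) (nat_lit 64) (.ev (nat_lit 704) (nat_lit 8192) (.nd (nat_lit 832)
 (.br (nat_lit 5) (.ch (nat_lit 0) (.ev (nat_lit 1056) (nat_lit 32) (.nd (nat_lit 1264) (.br (nat_lit 3) (.br
 (nat_lit 2) (.ch (nat_lit 1) (.ev (nat_lit 1280) (nat_lit 4194576) .dd)) (.ch (nat_lit 2) (.ev (nat_lit 1280)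
 (nat_lit 256) (.fin (nat_lit 576464600585159234))))) (.br (nat_lit 7) (.ch (nat_lit 3) (.ev (nat_lit 1280)
 (nat_lit 4194320) (.ev (nat_lit 1293) (nat_lit 256) .dd))) (.ch (nat_lit 7) (.ev (nat_lit 1280) (nat_lit
 4194304) (.fin (nat_lit 576434913761772168))))))))) (.br (nat_lit 8) (.ch (nat_lit 5) (.ev (nat_lit 848)
 (nat_lit 48) (.nd (nat_lit 1296) (.ch (nat_lit 6) (.nd (nat_lit 1329) (.ch (nat_lit 7) (.nd (nat_lit 1360)
 (.br (nat_lit 4) (.ch (nat_lit 0) (.ev (nat_lit 1376) (nat_lit 4194304) (.ev (nat_lit 1389) (nat_lit 256)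
 .dd))) (.ch (nat_lit 4) (.fin (nat_lit 576386535227081220))))))))))) (.ch (nat_lit 8) (.ev (nat_lit 848)
 (nat_lit 4194608) .dd)))))))))))) (.br (nat_lit 27) (.br (nat_lit 26) (.ch (nat_lit 25) (.ev (nat_lit 52)
 (nat_lit 618546593810) (.ev (nat_lit 356) (nat_lit 256) (.ev (nat_lit 436) (nat_lit 64) (.ev (nat_lit 512)
 (nat_lit 8589943328) .dd))))) (.ch (nat_lit 26) (.ev (nat_lit 52) (nat_lit 549822923056) (.ev (nat_lit 148)
 (nat_lit 8192) (.ev (nat_lit 388) (nat_lit 4194304) (.ev (nat_lit 720) (nat_lit 8589934592) (.nd (nat_lit 832)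
 (.br (nat_lit 4) (.br (nat_lit 2) (.ch (nat_lit 0) (.ev (nat_lit 848) (nat_lit 68719477314) .dd)) (.ch
 (nat_lit 2) (.ev (nat_lit 848) (nat_lit 514) (.ev (nat_lit 1204) (nat_lit 64) (.ev (nat_lit 1213) (nat_lit
 68719476736) .dd))))) (.br (nat_lit 5) (.ch (nat_lit 4) (.ev (nat_lit 848) (nat_lit 68719476736) (.nd (nat_lit
 1264) (.br (nat_lit 4) (.ch (nat_lit 3) (.ev (nat_lit 1280) (nat_lit 512) (.fin (nat_lit
 576443709810754040)))) (.ch (nat_lit 4) (.nd (nat_lit 1297) (.br (nat_lit 19) (.ch (nat_lit 7) (.ev (nat_lit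
 1313) (nat_lit 2) (.nd (nat_lit 1328) (.br (nat_lit 10) (.ch (nat_lit 9) (.fin (nat_lit 576448107995677188)))
 (.ch (nat_lit 10) (.ev (nat_lit 1344) (nat_lit 64) (.ev (nat_lit 1357) (nat_lit 512) .dd))))))) (.br (nat_lit
 20) (.ch (nat_lit 19) (.ev (nat_lit 1313) (nat_lit 64) (.nd (nat_lit 1328) (.br (nat_lit 10) (.ch (nat_lit 9)
 (.ev (nat_lit 1344) (nat_lit 2) (.ev (nat_lit 1357) (nat_lit 512) .dd))) (.ch (nat_lit 10) (.fin (nat_lit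
 576451406454014526))))))) (.ch (nat_lit 20) (.ev (nat_lit 1313) (nat_lit 578) .dd)))))))))) (.br (nat_lit 6)
 (.ch (nat_lit 5) (.ev (nat_lit 848) (nat_lit 68719477314) .dd)) (.ch (nat_lit 6) (.ev (nat_lit 848) (nat_lit
 514) (.ev (nat_lit 1092) (nat_lit 64) (.ev (nat_lit 1101) (nat_lit 68719476736) .dd)))))))))))))) (.br
 (nat_lit 28) (.ch (nat_lit 27) (.ev (nat_lit 52) (nat_lit 68723671056) (.ev (nat_lit 84) (nat_lit 8589934592)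
 (.ev (nat_lit 116) (nat_lit 2) (.ev (nat_lit 468) (nat_lit 549755813888) (.nd (nat_lit 832) (.br (nat_lit 5)
 (.br (nat_lit 4) (.ch (nat_lit 0) (.ev (nat_lit 848) (nat_lit 8256) (.ev (nat_lit 932) (nat_lit 32) (.ev
 (nat_lit 1024) (nat_lit 512) (.nd (nat_lit 1264) (.br (nat_lit 7) (.ch (nat_lit 3) (.ev (nat_lit 1280)
 (nat_lit 67108864) (.ev (nat_lit 1293) (nat_lit 256) .dd))) (.br (nat_lit 10) (.ch (nat_lit 7) (.ev (nat_lit
 1280) (nat_lit 67109120) .dd)) (.ch (nat_lit 10) (.nd (nat_lit 1361) (.br (nat_lit 8) (.ch (nat_lit 4) (.ev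
 (nat_lit 1377) (nat_lit 67109120) .dd)) (.ch (nat_lit 8) (.nd (nat_lit 1392) (.ch (nat_lit 8) (.fin (nat_lit
 576456903920927280))))))))))))))) (.ch (nat_lit 4) (.ev (nat_lit 848) (nat_lit 67117312) (.ev (nat_lit 1140)
 (nat_lit 32) (.nd (nat_lit 1264) (.br (nat_lit 9) (.ch (nat_lit 4) (.fin (nat_lit 576474496125846140))) (.br
 (nat_lit 10) (.ch (nat_lit 9) (.ev (nat_lit 1280) (nat_lit 512) (.ev (nat_lit 1293) (nat_lit 64) .dd))) (.ch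
 (nat_lit 10) (.ev (nat_lit 1280) (nat_lit 576) .dd))))))))) (.br (nat_lit 6) (.ch (nat_lit 5) (.ev (nat_lit
 848) (nat_lit 67109696) (.nd (nat_lit 1264) (.br (nat_lit 7) (.ch (nat_lit 0) (.ev (nat_lit 1280) (nat_lit
 8224) .dd)) (.ch (nat_lit 7) (.fin (nat_lit 576470098152735294))))))) (.br (nat_lit 7) (.ch (nat_lit 6) (.ev
 (nat_lit 848) (nat_lit 67117600) (.nd (nat_lit 1264) (.br (nat_lit 6) (.br (nat_lit 5) (.ch (nat_lit 4) (.fin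
 (nat_lit 576461302059713084))) (.ch (nat_lit 5) (.ev (nat_lit 1280) (nat_lit 320) .dd))) (.br (nat_lit 10)
 (.ch (nat_lit 6) (.ev (nat_lit 1280) (nat_lit 256) (.ev (nat_lit 1293) (nat_lit 64) .dd))) (.ch (nat_lit 10)
 (.ev (nat_lit 1280) (nat_lit 64) (.ev (nat_lit 1293) (nat_lit 256) .dd)))))))) (.ch (nat_lit 7) (.ev (nat_lit
 848) (nat_lit 9056) (.ev (nat_lit 861) (nat_lit 67108864) .dd)))))))))))) (.br (nat_lit 29) (.ch (nat_lit 28)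
 (.ev (nat_lit 52) (nat_lit 77313613890) (.ev (nat_lit 212) (nat_lit 528) (.ev (nat_lit 448) (nat_lit
 549822923040) .dd)))) (.ch (nat_lit 29) (.ev (nat_lit 52) (nat_lit 8657051968) (.ev (nat_lit 180) (nat_lit 32)
 (.ev (nat_lit 304) (nat_lit 618479485458) .dd)))))))))))

/-- The trie. -/
noncomputable def T : Tr := .nd (nat_lit 1000000) (.br (nat_lit 4) (.br (nat_lit 1) (.ch (nat_lit 0) (.ev
 (nat_lit 0) (nat_lit 8796093022207) .dd)) (.ch (nat_lit 1) T1)) (.br (nat_lit 5) (.ch (nat_lit 4) T4) (.br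
 (nat_lit 10) (.ch (nat_lit 5) (.ev (nat_lit 0) (nat_lit 8796093022207) .dd)) (.ch (nat_lit 10) (.ev (nat_lit
 0) (nat_lit 8796093022207) .dd)))))

/-- The possible values. -/
noncomputable def oks : List ℕ := [3, 34, 223, 234, 610, 16274]

/-- The parameters. -/
noncomputable def S : Pr := ⟨fun i l e => lget mz (lget [] (lget [] tabs i) l) e, oks, [(nat_lit 0), (nat_lit
 1), (nat_lit 0), (nat_lit 0), (nat_lit 1), (nat_lit 0)], T, (nat_lit 8796093022207), (nat_lit 3303796230157),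
 (nat_lit 43), [(nat_lit 1057), (nat_lit 1073946281)], [(nat_lit 19487171), (nat_lit 923521)]⟩

/-- Nothing known. -/
noncomputable def cs0 : Cs := (.cons (nat_lit 11) (nat_lit 0) (nat_lit 1) (.cons (nat_lit 31) (nat_lit 0) (nat_lit 1) .nil))

theorem part_1 : part S cs0 (nat_lit 1) = true := by decide +kernel

theorem part_4 : part S cs0 (nat_lit 4) = true := by decide +kernel

/-- Data of a prime. -/
noncomputable def D0 : PD := ⟨(nat_lit 11), (nat_lit 7), (6190614, 3, 3), (12381250, 14211882, 1830652), (13368790, 19487156, 19487136)⟩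

theorem D0_ok : D0.Ok := pdb_sound (s := 1) (C := ⟨⟨9, -6, -17, -1, -14, 8, -4, -1, -1⟩, (9, 10, 7)⟩) (by show Nat.Prime 11; norm_num) (by decide +kernel)

/-- Lines of the first type. -/
noncomputable def Cl0 : List C1 := [⟨⟨-9, 6, -8, 1, 14, 7, 4, 1, -5⟩, (4, 2, 8)⟩,
  ⟨⟨0, 0, 0, 0, 0, 0, 0, 0, 0⟩, (0, 0, 0)⟩,
  ⟨⟨0, 0, 0, 0, 0, 0, 0, 0, 0⟩, (0, 0, 0)⟩,
  ⟨⟨0, 0, 0, 0, 0, 0, 0, 0, 0⟩, (0, 0, 0)⟩,
  ⟨⟨0, 0, 0, 0, 0, 0, 0, 0, 0⟩, (0, 0, 0)⟩,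
  ⟨⟨9, 6, -17, -1, 14, 8, -4, 1, -1⟩, (8, 4, 5)⟩,
  ⟨⟨0, 0, 0, 0, 0, 0, 0, 0, 0⟩, (0, 0, 0)⟩,
  ⟨⟨0, 0, 0, 0, 0, 0, 0, 0, 0⟩, (0, 0, 0)⟩,
  ⟨⟨0, 0, 0, 0, 0, 0, 0, 0, 0⟩, (0, 0, 0)⟩,
  ⟨⟨0, 0, 0, 0, 0, 0, 0, 0, 0⟩, (0, 0, 0)⟩,
  ⟨⟨-9, -6, -8, 1, -14, 7, 4, -1, -5⟩, (7, 9, 3)⟩]

/-- Data of a prime. -/
noncomputable def D1 : PD := ⟨(nat_lit 31), (nat_lit 4), (701965, 8, 13), (856532, 861885, 201127), (191905, 134505, 170383)⟩

theorem D1_ok : D1.Ok := pdb_sound (s := 3) (C := ⟨⟨11, 26, -43, -19, 34, 32, -12, -3, -1⟩, (11, 12, 19)⟩) (by show Nat.Prime 31; norm_num) (by decide +kernel)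

/-- Lines of the first type. -/
noncomputable def Cl1 : List C1 := [⟨⟨-11, -26, -32, 19, -34, 13, 12, 3, -13⟩, (22, 24, 7)⟩,
  ⟨⟨0, 0, 0, 0, 0, 0, 0, 0, 0⟩, (0, 0, 0)⟩,
  ⟨⟨0, 0, 0, 0, 0, 0, 0, 0, 0⟩, (0, 0, 0)⟩,
  ⟨⟨29, 26, -37, 21, 6, 32, 8, -11, -7⟩, (2, 10, 23)⟩,
  ⟨⟨0, 0, 0, 0, 0, 0, 0, 0, 0⟩, (0, 0, 0)⟩,
  ⟨⟨21, 6, -53, 29, 26, 8, 8, -11, -1⟩, (6, 26, 20)⟩,
  ⟨⟨0, 0, 0, 0, 0, 0, 0, 0, 0⟩, (0, 0, 0)⟩,
  ⟨⟨29, -26, -37, 21, -6, 32, 8, 11, -7⟩, (27, 11, 16)⟩,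
  ⟨⟨0, 0, 0, 0, 0, 0, 0, 0, 0⟩, (0, 0, 0)⟩,
  ⟨⟨-9, -6, -43, -41, 14, 28, 4, 13, -5⟩, (4, 1, 12)⟩,
  ⟨⟨9, -6, -52, -41, -14, 13, -4, 13, -1⟩, (29, 16, 25)⟩,
  ⟨⟨21, -6, -53, 29, -26, 8, 8, 11, -1⟩, (7, 20, 13)⟩,
  ⟨⟨9, 6, -52, -41, 14, 13, -4, -13, -1⟩, (28, 24, 22)⟩,
  ⟨⟨0, 0, 0, 0, 0, 0, 0, 0, 0⟩, (0, 0, 0)⟩,
  ⟨⟨0, 0, 0, 0, 0, 0, 0, 0, 0⟩, (0, 0, 0)⟩,
  ⟨⟨0, 0, 0, 0, 0, 0, 0, 0, 0⟩, (0, 0, 0)⟩,
  ⟨⟨11, -26, -43, -19, -34, 32, -12, 3, -1⟩, (25, 16, 15)⟩,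
  ⟨⟨-9, 6, -43, -41, -14, 28, 4, -13, -5⟩, (3, 24, 9)⟩,
  ⟨⟨0, 0, 0, 0, 0, 0, 0, 0, 0⟩, (0, 0, 0)⟩,
  ⟨⟨0, 0, 0, 0, 0, 0, 0, 0, 0⟩, (0, 0, 0)⟩,
  ⟨⟨0, 0, 0, 0, 0, 0, 0, 0, 0⟩, (0, 0, 0)⟩,
  ⟨⟨0, 0, 0, 0, 0, 0, 0, 0, 0⟩, (0, 0, 0)⟩,
  ⟨⟨0, 0, 0, 0, 0, 0, 0, 0, 0⟩, (0, 0, 0)⟩,
  ⟨⟨0, 0, 0, 0, 0, 0, 0, 0, 0⟩, (0, 0, 0)⟩,
  ⟨⟨0, 0, 0, 0, 0, 0, 0, 0, 0⟩, (0, 0, 0)⟩,
  ⟨⟨0, 0, 0, 0, 0, 0, 0, 0, 0⟩, (0, 0, 0)⟩,
  ⟨⟨0, 0, 0, 0, 0, 0, 0, 0, 0⟩, (0, 0, 0)⟩,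
  ⟨⟨0, 0, 0, 0, 0, 0, 0, 0, 0⟩, (0, 0, 0)⟩,
  ⟨⟨0, 0, 0, 0, 0, 0, 0, 0, 0⟩, (0, 0, 0)⟩,
  ⟨⟨0, 0, 0, 0, 0, 0, 0, 0, 0⟩, (0, 0, 0)⟩,
  ⟨⟨-11, 26, -32, 19, 34, 13, 12, -3, -13⟩, (28, 8, 23)⟩]

/-- Data of a prime. -/
noncomputable def Dm : PD := ⟨(nat_lit 43), (nat_lit 2), (989, 1, 17), (1652, 774, 636), (172, 5, 130)⟩

theorem Dm_ok : Dm.Ok := pdb_sound (s := 1) (C := ⟨⟨43, -38, -44, 43, 38, 1, 0, 9, -19⟩, (5, 38, 9)⟩) (by show Nat.Prime 43; norm_num) (by decide +kernel)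

/-- Lines of the first type. -/
noncomputable def Clm : List C1 := [⟨⟨43, 38, -44, 43, -38, 1, 0, -9, -19⟩, (42, 1, 24)⟩,
  ⟨⟨0, 0, 0, 0, 0, 0, 0, 0, 0⟩, (0, 0, 0)⟩,
  ⟨⟨57, -18, -16, -17, -58, 1, 4, 1, -23⟩, (41, 27, 24)⟩,
  ⟨⟨7, -38, -56, -33, -42, 49, -16, 7, -1⟩, (28, 40, 22)⟩,
  ⟨⟨0, 0, 0, 0, 0, 0, 0, 0, 0⟩, (0, 0, 0)⟩,
  ⟨⟨0, 0, 0, 0, 0, 0, 0, 0, 0⟩, (0, 0, 0)⟩,
  ⟨⟨0, 0, 0, 0, 0, 0, 0, 0, 0⟩, (0, 0, 0)⟩,
  ⟨⟨0, 0, 0, 0, 0, 0, 0, 0, 0⟩, (0, 0, 0)⟩,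
  ⟨⟨0, 0, 0, 0, 0, 0, 0, 0, 0⟩, (0, 0, 0)⟩,
  ⟨⟨0, 0, 0, 0, 0, 0, 0, 0, 0⟩, (0, 0, 0)⟩,
  ⟨⟨0, 0, 0, 0, 0, 0, 0, 0, 0⟩, (0, 0, 0)⟩,
  ⟨⟨27, -18, -71, -53, -22, 4, -4, 17, -7⟩, (6, 36, 23)⟩,
  ⟨⟨0, 0, 0, 0, 0, 0, 0, 0, 0⟩, (0, 0, 0)⟩,
  ⟨⟨0, 0, 0, 0, 0, 0, 0, 0, 0⟩, (0, 0, 0)⟩,
  ⟨⟨-7, -2, -64, -47, -38, 31, 12, -15, -7⟩, (37, 15, 41)⟩,
  ⟨⟨-7, 2, -64, -47, 38, 31, 12, 15, -7⟩, (3, 14, 1)⟩,
  ⟨⟨-7, 38, -49, 33, 42, 16, 16, -7, -17⟩, (27, 14, 12)⟩,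
  ⟨⟨0, 0, 0, 0, 0, 0, 0, 0, 0⟩, (0, 0, 0)⟩,
  ⟨⟨0, 0, 0, 0, 0, 0, 0, 0, 0⟩, (0, 0, 0)⟩,
  ⟨⟨57, 18, -16, -17, 58, 1, 4, -1, -23⟩, (36, 30, 41)⟩,
  ⟨⟨53, 22, -49, 27, -18, 44, 4, -17, -11⟩, (6, 42, 11)⟩,
  ⟨⟨0, 0, 0, 0, 0, 0, 0, 0, 0⟩, (0, 0, 0)⟩,
  ⟨⟨0, 0, 0, 0, 0, 0, 0, 0, 0⟩, (0, 0, 0)⟩,
  ⟨⟨27, 18, -71, -53, 22, 4, -4, -17, -7⟩, (1, 6, 11)⟩,
  ⟨⟨57, -18, -41, -17, -58, 16, -4, -1, -19⟩, (7, 13, 41)⟩,
  ⟨⟨0, 0, 0, 0, 0, 0, 0, 0, 0⟩, (0, 0, 0)⟩,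
  ⟨⟨0, 0, 0, 0, 0, 0, 0, 0, 0⟩, (0, 0, 0)⟩,
  ⟨⟨7, 38, -56, -33, 42, 49, -16, -7, -1⟩, (27, 14, 12)⟩,
  ⟨⟨7, 2, -71, -47, -38, 16, 12, -15, -5⟩, (3, 29, 42)⟩,
  ⟨⟨7, -2, -71, -47, 38, 16, 12, 15, -5⟩, (37, 28, 2)⟩,
  ⟨⟨0, 0, 0, 0, 0, 0, 0, 0, 0⟩, (0, 0, 0)⟩,
  ⟨⟨0, 0, 0, 0, 0, 0, 0, 0, 0⟩, (0, 0, 0)⟩,
  ⟨⟨53, -22, -49, 27, 18, 44, 4, 17, -11⟩, (36, 37, 23)⟩,
  ⟨⟨0, 0, 0, 0, 0, 0, 0, 0, 0⟩, (0, 0, 0)⟩,
  ⟨⟨0, 0, 0, 0, 0, 0, 0, 0, 0⟩, (0, 0, 0)⟩,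
  ⟨⟨0, 0, 0, 0, 0, 0, 0, 0, 0⟩, (0, 0, 0)⟩,
  ⟨⟨0, 0, 0, 0, 0, 0, 0, 0, 0⟩, (0, 0, 0)⟩,
  ⟨⟨0, 0, 0, 0, 0, 0, 0, 0, 0⟩, (0, 0, 0)⟩,
  ⟨⟨0, 0, 0, 0, 0, 0, 0, 0, 0⟩, (0, 0, 0)⟩,
  ⟨⟨0, 0, 0, 0, 0, 0, 0, 0, 0⟩, (0, 0, 0)⟩,
  ⟨⟨-7, -38, -49, 33, -42, 16, 16, 7, -17⟩, (28, 40, 22)⟩,
  ⟨⟨57, 18, -41, -17, 58, 16, -4, 1, -19⟩, (2, 16, 24)⟩,
  ⟨⟨0, 0, 0, 0, 0, 0, 0, 0, 0⟩, (0, 0, 0)⟩]

/-- Unit moves. -/
noncomputable def U : List Mv := [mz,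
  mz,
  ⟨⟨-1, 0, 1, 0, 1, 0, 0, 0, 1⟩, .nil, (nat_lit 10), (nat_lit 5), (nat_lit 1), (nat_lit 1), (0, 0, 0), [], 6⟩,
  ⟨⟨1, 0, 0, 0, -1, 0, 0, 0, 1⟩, .nil, (nat_lit 10), (nat_lit 10), (nat_lit 2), (nat_lit 1), (0, 0, 0), [], 10⟩,
  mz,
  mz,
  ⟨⟨-1, 0, 1, 0, -1, 0, 0, 0, 1⟩, .nil, (nat_lit 0), (nat_lit 6), (nat_lit 1), (nat_lit 0), (0, 0, 0), [], 5⟩,
  ⟨⟨-1, 0, 1, 0, -1, 0, 0, 0, 1⟩, .nil, (nat_lit 0), (nat_lit 6), (nat_lit 1), (nat_lit 0), (0, 0, 0), [], 5⟩,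
  ⟨⟨1, 0, 0, 0, -1, 0, 0, 0, 1⟩, .nil, (nat_lit 10), (nat_lit 10), (nat_lit 2), (nat_lit 1), (0, 0, 0), [], 10⟩,
  ⟨⟨-1, 0, 1, 0, 1, 0, 0, 0, 1⟩, .nil, (nat_lit 10), (nat_lit 5), (nat_lit 1), (nat_lit 1), (0, 0, 0), [], 6⟩,
  mz]

theorem v_ty : tyb Dm S.ty1 Clm = true := by decide +kernel

theorem v_ty0 : tyb D0 (S.tys.getD 0 0) Cl0 = true := by decide +kernel

theorem v_ty1 : tyb D1 (S.tys.getD 1 0) Cl1 = true := by decide +kernel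

theorem v_msc : mscb S D0 [D1] Dm (nat_lit 18) = true := by decide +kernel

theorem v_mv0 : mvsn (nat_lit 33276104739169259) S D0 [D1] Dm (nat_lit 18) 0 D0 = true := by decide +kernel

theorem v_mv1 : mvsn (nat_lit 33276104739169259) S D0 [D1] Dm (nat_lit 18) 1 D1 = true := by decide +kernel

theorem v_mm : mmsn (nat_lit 33276104739169259) S D0 [D1] Dm (nat_lit 18) = true := by decide +kernel

theorem v_un : unb S D0 (nat_lit 18) U = true := by decide +kernel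

theorem v_ok : okb S.oks [(0, 0, 0), (0, 0, 0), (0, 0, 0), (0, 0, 0), (0, 0, 0), (0, 0, 0)] = true := by decide +kernel

theorem v_part : ∀ d < D0.p, (nat_lit 18).testBit d = true → part S (zc (D0 :: [D1])) d = true := by
  intro d hd h
  have h1 : ∀ d < 11, (nat_lit 18).testBit d = true → d = 1 ∨ d = 4 := by decide
  rcases h1 d hd h with rfl | rfl
  · exact part_1
  · exact part_4

theorem main (n : ℕ) (ho : Odd n) (hr : ¬ Rep n) (h0 : Split 11 n) (h1 : Split 31 n) (hm : Split 43 n) :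
    n ∈ EE := by
  refine concln (W := nat_lit 33276104739169259) (S := S) (P0 := D0) (Pl := [D1]) (Pm := Dm) (cn := nat_lit 18) ?_ Dm_ok v_ty ?_ ?_ v_msc ?_ v_mm v_un v_part v_ok
    n ho hr ?_ hm
  · simp only [List.forall_mem_cons]
    exact ⟨D0_ok, D1_ok, fun _ h => absurd h (by simp)⟩
  · exact all2 (φ := fun j P => ∃ L, tyb P (S.tys.getD j 0) L = true) ⟨_, v_ty0⟩ ⟨_, v_ty1⟩
  · exact all2 (φ := fun j P => Nat.ble (S.pks.getD j 0) (Nat.pow P.p P.K) = true) (by decide +kernel) (by decide +kernel)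
  · exact all2 (φ := fun i P => mvsn (nat_lit 33276104739169259) S D0 [D1] Dm (nat_lit 18) i P = true) v_mv0 v_mv1
  · simp only [List.forall_mem_cons]
    exact ⟨h0, h1, fun _ h => absurd h (by simp)⟩

end Pool.Agent.Work.MP_9954fe_nt.P11_31_43

namespace Pool.Agent.Work.MP_9954fe_nt.P13_53_37

/-- Dummy move. -/
noncomputable def mz : Mv := ⟨⟨0, 0, 0, 0, 0, 0, 0, 0, 0⟩, .nil, (nat_lit 0), (nat_lit 0), (nat_lit 0), (nat_lit 0), (0, 0, 0), [], 0⟩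

/-- Moves. -/
noncomputable def t0_2 : List Mv := [
  ⟨⟨-1, -12, 9, 8, 5, 6, 8, -8, -7⟩, (.cons (nat_lit 1798270) (nat_lit 3794392) (nat_lit 2144058) (nat_lit 1)
 (.cons (nat_lit 5383186) (nat_lit 7184225) (nat_lit 6101254) (nat_lit 1) .nil)), (nat_lit 11), (nat_lit 7),
 (nat_lit 6), (nat_lit 1), (8, 1, 1), [1227326, 4535151], 33⟩,
  ⟨⟨9, 4, -16, -8, -5, -6, 8, -8, -7⟩, (.cons (nat_lit 2919685) (nat_lit 4270751) (nat_lit 1481163) (nat_lit 1)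
 (.cons (nat_lit 7101311) (nat_lit 1697029) (nat_lit 4021928) (nat_lit 1) .nil)), (nat_lit 2), (nat_lit 25),
 (nat_lit 28), (nat_lit 1), (6, 12, 1), [2271767, 679042], 9⟩,
  ⟨⟨9, 4, -16, -8, -5, -6, 8, -8, -7⟩, (.cons (nat_lit 2919685) (nat_lit 4270751) (nat_lit 1481163) (nat_lit 1)
 (.cons (nat_lit 7101311) (nat_lit 1697029) (nat_lit 4021928) (nat_lit 1) .nil)), (nat_lit 2), (nat_lit 25),
 (nat_lit 28), (nat_lit 1), (6, 12, 1), [2271767, 679042], 9⟩,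
  ⟨⟨-1, -12, 9, -8, -5, -6, 8, -8, -7⟩, (.cons (nat_lit 495919) (nat_lit 4756839) (nat_lit 247966) (nat_lit 1)
 (.cons (nat_lit 7890480) (nat_lit 6631126) (nat_lit 7239358) (nat_lit 1) .nil)), (nat_lit 36), (nat_lit 10),
 (nat_lit 14), (nat_lit 1), (8, 12, 1), [3125393, 2181089], 17⟩,
  ⟨⟨-1, -12, 9, 8, 5, 6, 8, -8, -7⟩, (.cons (nat_lit 1798270) (nat_lit 3794392) (nat_lit 2144058) (nat_lit 1)
 (.cons (nat_lit 5383186) (nat_lit 7184225) (nat_lit 6101254) (nat_lit 1) .nil)), (nat_lit 11), (nat_lit 7),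
 (nat_lit 6), (nat_lit 1), (8, 1, 1), [1227326, 4535151], 33⟩,
  ⟨⟨9, 4, -16, 8, 5, 6, 8, -8, -7⟩, (.cons (nat_lit 2843227) (nat_lit 1868486) (nat_lit 1840382) (nat_lit 1)
 (.cons (nat_lit 3112556) (nat_lit 2092100) (nat_lit 1150936) (nat_lit 1) .nil)), (nat_lit 23), (nat_lit 36),
 (nat_lit 11), (nat_lit 1), (6, 1, 1), [4589782, 184566], 35⟩,
  ⟨⟨9, 4, -16, 8, 5, 6, 8, -8, -7⟩, (.cons (nat_lit 2843227) (nat_lit 1868486) (nat_lit 1840382) (nat_lit 1)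
 (.cons (nat_lit 3112556) (nat_lit 2092100) (nat_lit 1150936) (nat_lit 1) .nil)), (nat_lit 23), (nat_lit 36),
 (nat_lit 11), (nat_lit 1), (6, 1, 1), [4589782, 184566], 35⟩,
  ⟨⟨-1, -12, 9, -8, -5, -6, 8, -8, -7⟩, (.cons (nat_lit 495919) (nat_lit 4756839) (nat_lit 247966) (nat_lit 1)
 (.cons (nat_lit 7890480) (nat_lit 6631126) (nat_lit 7239358) (nat_lit 1) .nil)), (nat_lit 36), (nat_lit 10),
 (nat_lit 14), (nat_lit 1), (8, 12, 1), [3125393, 2181089], 17⟩,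
  ⟨⟨-1, -12, 9, -8, -5, -6, 8, -8, -7⟩, (.cons (nat_lit 495919) (nat_lit 4756839) (nat_lit 247966) (nat_lit 1)
 (.cons (nat_lit 7890480) (nat_lit 6631126) (nat_lit 7239358) (nat_lit 1) .nil)), (nat_lit 36), (nat_lit 10),
 (nat_lit 14), (nat_lit 1), (8, 12, 1), [3125393, 2181089], 17⟩,
  ⟨⟨-1, -12, 9, -8, -5, -6, 8, -8, -7⟩, (.cons (nat_lit 495919) (nat_lit 4756839) (nat_lit 247966) (nat_lit 1)
 (.cons (nat_lit 7890480) (nat_lit 6631126) (nat_lit 7239358) (nat_lit 1) .nil)), (nat_lit 36), (nat_lit 10),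
 (nat_lit 14), (nat_lit 1), (8, 12, 1), [3125393, 2181089], 17⟩,
  ⟨⟨-1, -12, 9, 8, 5, 6, 8, -8, -7⟩, (.cons (nat_lit 1798270) (nat_lit 3794392) (nat_lit 2144058) (nat_lit 1)
 (.cons (nat_lit 5383186) (nat_lit 7184225) (nat_lit 6101254) (nat_lit 1) .nil)), (nat_lit 11), (nat_lit 7),
 (nat_lit 6), (nat_lit 1), (8, 1, 1), [1227326, 4535151], 33⟩,
  ⟨⟨-1, -12, 9, -8, -5, -6, 8, -8, -7⟩, (.cons (nat_lit 495919) (nat_lit 4756839) (nat_lit 247966) (nat_lit 1)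
 (.cons (nat_lit 7890480) (nat_lit 6631126) (nat_lit 7239358) (nat_lit 1) .nil)), (nat_lit 36), (nat_lit 10),
 (nat_lit 14), (nat_lit 1), (8, 12, 1), [3125393, 2181089], 17⟩,
  ⟨⟨-1, -12, 9, -8, -5, -6, 8, -8, -7⟩, (.cons (nat_lit 495919) (nat_lit 4756839) (nat_lit 247966) (nat_lit 1)
 (.cons (nat_lit 7890480) (nat_lit 6631126) (nat_lit 7239358) (nat_lit 1) .nil)), (nat_lit 36), (nat_lit 10),
 (nat_lit 14), (nat_lit 1), (8, 12, 1), [3125393, 2181089], 17⟩]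

/-- Moves. -/
noncomputable def t0_4 : List Mv := [
  ⟨⟨5, 12, -9, -12, 5, 6, 0, 0, -13⟩, (.cons (nat_lit 2595001) (nat_lit 3104467) (nat_lit 3422489) (nat_lit 1)
 (.cons (nat_lit 2152119) (nat_lit 5644377) (nat_lit 4664944) (nat_lit 1) .nil)), (nat_lit 1), (nat_lit 2),
 (nat_lit 22), (nat_lit 1), (12, 5, 0), [2732539, 3609165], 4⟩,
  ⟨⟨-5, -12, -4, -12, 5, 6, 0, 0, -13⟩, (.cons (nat_lit 273335) (nat_lit 1209881) (nat_lit 68337) (nat_lit 1)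
 (.cons (nat_lit 7890480) (nat_lit 4064174) (nat_lit 7224903) (nat_lit 1) .nil)), (nat_lit 36), (nat_lit 6),
 (nat_lit 8), (nat_lit 1), (1, 5, 0), [3873608, 5132267], 29⟩,
  ⟨⟨-5, -12, -4, -12, 5, 6, 0, 0, -13⟩, (.cons (nat_lit 273335) (nat_lit 1209881) (nat_lit 68337) (nat_lit 1)
 (.cons (nat_lit 7890480) (nat_lit 4064174) (nat_lit 7224903) (nat_lit 1) .nil)), (nat_lit 36), (nat_lit 6),
 (nat_lit 8), (nat_lit 1), (1, 5, 0), [3873608, 5132267], 29⟩,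
  ⟨⟨-5, -12, -4, 12, -5, -6, 0, 0, -13⟩, (.cons (nat_lit 3834156) (nat_lit 4555975) (nat_lit 1642618) (nat_lit
 1) (.cons (nat_lit 5798837) (nat_lit 758785) (nat_lit 5198109) (nat_lit 1) .nil)), (nat_lit 1), (nat_lit 32),
 (nat_lit 19), (nat_lit 1), (1, 8, 0), [1521153, 6525671], 10⟩,
  ⟨⟨5, 12, -9, 12, -5, -6, 0, 0, -13⟩, (.cons (nat_lit 2272170) (nat_lit 4691530) (nat_lit 1774748) (nat_lit 1)
 (.cons (nat_lit 7890480) (nat_lit 7044906) (nat_lit 1075599) (nat_lit 1) .nil)), (nat_lit 36), (nat_lit 23),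
 (nat_lit 6), (nat_lit 1), (12, 8, 0), [2927202, 3863062], 6⟩,
  ⟨⟨5, 12, -9, 12, -5, -6, 0, 0, -13⟩, (.cons (nat_lit 2272170) (nat_lit 4691530) (nat_lit 1774748) (nat_lit 1)
 (.cons (nat_lit 7890480) (nat_lit 7044906) (nat_lit 1075599) (nat_lit 1) .nil)), (nat_lit 36), (nat_lit 23),
 (nat_lit 6), (nat_lit 1), (12, 8, 0), [2927202, 3863062], 6⟩,
  ⟨⟨5, 12, -9, -12, 5, 6, 0, 0, -13⟩, (.cons (nat_lit 2595001) (nat_lit 3104467) (nat_lit 3422489) (nat_lit 1)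
 (.cons (nat_lit 2152119) (nat_lit 5644377) (nat_lit 4664944) (nat_lit 1) .nil)), (nat_lit 1), (nat_lit 2),
 (nat_lit 22), (nat_lit 1), (12, 5, 0), [2732539, 3609165], 4⟩,
  ⟨⟨5, 12, -9, 12, -5, -6, 0, 0, -13⟩, (.cons (nat_lit 2272170) (nat_lit 4691530) (nat_lit 1774748) (nat_lit 1)
 (.cons (nat_lit 7890480) (nat_lit 7044906) (nat_lit 1075599) (nat_lit 1) .nil)), (nat_lit 36), (nat_lit 23),
 (nat_lit 6), (nat_lit 1), (12, 8, 0), [2927202, 3863062], 6⟩,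
  ⟨⟨5, 12, -9, 12, -5, -6, 0, 0, -13⟩, (.cons (nat_lit 2272170) (nat_lit 4691530) (nat_lit 1774748) (nat_lit 1)
 (.cons (nat_lit 7890480) (nat_lit 7044906) (nat_lit 1075599) (nat_lit 1) .nil)), (nat_lit 36), (nat_lit 23),
 (nat_lit 6), (nat_lit 1), (12, 8, 0), [2927202, 3863062], 6⟩,
  ⟨⟨-5, -12, -4, 12, -5, -6, 0, 0, -13⟩, (.cons (nat_lit 3834156) (nat_lit 4555975) (nat_lit 1642618) (nat_lit
 1) (.cons (nat_lit 5798837) (nat_lit 758785) (nat_lit 5198109) (nat_lit 1) .nil)), (nat_lit 1), (nat_lit 32),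
 (nat_lit 19), (nat_lit 1), (1, 8, 0), [1521153, 6525671], 10⟩,
  ⟨⟨5, 12, -9, 12, -5, -6, 0, 0, -13⟩, (.cons (nat_lit 2272170) (nat_lit 4691530) (nat_lit 1774748) (nat_lit 1)
 (.cons (nat_lit 7890480) (nat_lit 7044906) (nat_lit 1075599) (nat_lit 1) .nil)), (nat_lit 36), (nat_lit 23),
 (nat_lit 6), (nat_lit 1), (12, 8, 0), [2927202, 3863062], 6⟩,
  ⟨⟨5, 12, -9, -12, 5, 6, 0, 0, -13⟩, (.cons (nat_lit 2595001) (nat_lit 3104467) (nat_lit 3422489) (nat_lit 1)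
 (.cons (nat_lit 2152119) (nat_lit 5644377) (nat_lit 4664944) (nat_lit 1) .nil)), (nat_lit 1), (nat_lit 2),
 (nat_lit 22), (nat_lit 1), (12, 5, 0), [2732539, 3609165], 4⟩,
  ⟨⟨5, 12, -9, 12, -5, -6, 0, 0, -13⟩, (.cons (nat_lit 2272170) (nat_lit 4691530) (nat_lit 1774748) (nat_lit 1)
 (.cons (nat_lit 7890480) (nat_lit 7044906) (nat_lit 1075599) (nat_lit 1) .nil)), (nat_lit 36), (nat_lit 23),
 (nat_lit 6), (nat_lit 1), (12, 8, 0), [2927202, 3863062], 6⟩]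

/-- Moves. -/
noncomputable def t0_5 : List Mv := [
  ⟨⟨9, 8, -13, 10, -7, 0, 2, -4, -13⟩, (.cons (nat_lit 2315812) (nat_lit 843964) (nat_lit 1453495) (nat_lit 1)
 (.cons (nat_lit 4031627) (nat_lit 3342958) (nat_lit 1427724) (nat_lit 1) .nil)), (nat_lit 29), (nat_lit 19),
 (nat_lit 13), (nat_lit 1), (2, 8, 12), [4581319, 6275854], 15⟩,
  ⟨⟨9, 8, -13, -10, 7, 0, 2, -4, -13⟩, (.cons (nat_lit 4177513) (nat_lit 3253428) (nat_lit 1218083) (nat_lit 1)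
 (.cons (nat_lit 2461752) (nat_lit 2215228) (nat_lit 4551802) (nat_lit 1) .nil)), (nat_lit 7), (nat_lit 13),
 (nat_lit 30), (nat_lit 1), (2, 5, 12), [648168, 2005121], 21⟩,
  ⟨⟨9, 8, -13, -10, 7, 0, 2, -4, -13⟩, (.cons (nat_lit 4177513) (nat_lit 3253428) (nat_lit 1218083) (nat_lit 1)
 (.cons (nat_lit 2461752) (nat_lit 2215228) (nat_lit 4551802) (nat_lit 1) .nil)), (nat_lit 7), (nat_lit 13),
 (nat_lit 30), (nat_lit 1), (2, 5, 12), [648168, 2005121], 21⟩,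
  ⟨⟨9, 8, -13, -10, 7, 0, 2, -4, -13⟩, (.cons (nat_lit 4177513) (nat_lit 3253428) (nat_lit 1218083) (nat_lit 1)
 (.cons (nat_lit 2461752) (nat_lit 2215228) (nat_lit 4551802) (nat_lit 1) .nil)), (nat_lit 7), (nat_lit 13),
 (nat_lit 30), (nat_lit 1), (2, 5, 12), [648168, 2005121], 21⟩,
  ⟨⟨-7, -12, 0, 10, -7, 0, 2, -4, -13⟩, (.cons (nat_lit 3289575) (nat_lit 183543) (nat_lit 32948) (nat_lit 1)
 (.cons (nat_lit 5640768) (nat_lit 3292123) (nat_lit 995372) (nat_lit 1) .nil)), (nat_lit 31), (nat_lit 22),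
 (nat_lit 29), (nat_lit 1), (10, 8, 12), [920321, 6049323], 10⟩,
  ⟨⟨9, 8, -13, 10, -7, 0, 2, -4, -13⟩, (.cons (nat_lit 2315812) (nat_lit 843964) (nat_lit 1453495) (nat_lit 1)
 (.cons (nat_lit 4031627) (nat_lit 3342958) (nat_lit 1427724) (nat_lit 1) .nil)), (nat_lit 29), (nat_lit 19),
 (nat_lit 13), (nat_lit 1), (2, 8, 12), [4581319, 6275854], 15⟩,
  ⟨⟨9, 8, -13, 10, -7, 0, 2, -4, -13⟩, (.cons (nat_lit 2315812) (nat_lit 843964) (nat_lit 1453495) (nat_lit 1)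
 (.cons (nat_lit 4031627) (nat_lit 3342958) (nat_lit 1427724) (nat_lit 1) .nil)), (nat_lit 29), (nat_lit 19),
 (nat_lit 13), (nat_lit 1), (2, 8, 12), [4581319, 6275854], 15⟩,
  ⟨⟨9, 8, -13, -10, 7, 0, 2, -4, -13⟩, (.cons (nat_lit 4177513) (nat_lit 3253428) (nat_lit 1218083) (nat_lit 1)
 (.cons (nat_lit 2461752) (nat_lit 2215228) (nat_lit 4551802) (nat_lit 1) .nil)), (nat_lit 7), (nat_lit 13),
 (nat_lit 30), (nat_lit 1), (2, 5, 12), [648168, 2005121], 21⟩,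
  ⟨⟨-7, -12, 0, 10, -7, 0, 2, -4, -13⟩, (.cons (nat_lit 3289575) (nat_lit 183543) (nat_lit 32948) (nat_lit 1)
 (.cons (nat_lit 5640768) (nat_lit 3292123) (nat_lit 995372) (nat_lit 1) .nil)), (nat_lit 31), (nat_lit 22),
 (nat_lit 29), (nat_lit 1), (10, 8, 12), [920321, 6049323], 10⟩,
  ⟨⟨-7, -12, 0, -10, 7, 0, 2, -4, -13⟩, (.cons (nat_lit 4676545) (nat_lit 3073074) (nat_lit 3831397) (nat_lit
 1) (.cons (nat_lit 7890480) (nat_lit 7519359) (nat_lit 7516733) (nat_lit 1) .nil)), (nat_lit 36), (nat_lit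
 17), (nat_lit 21), (nat_lit 1), (10, 5, 12), [3689710, 692665], 8⟩,
  ⟨⟨9, 8, -13, -10, 7, 0, 2, -4, -13⟩, (.cons (nat_lit 4177513) (nat_lit 3253428) (nat_lit 1218083) (nat_lit 1)
 (.cons (nat_lit 2461752) (nat_lit 2215228) (nat_lit 4551802) (nat_lit 1) .nil)), (nat_lit 7), (nat_lit 13),
 (nat_lit 30), (nat_lit 1), (2, 5, 12), [648168, 2005121], 21⟩,
  ⟨⟨9, 8, -13, -10, 7, 0, 2, -4, -13⟩, (.cons (nat_lit 4177513) (nat_lit 3253428) (nat_lit 1218083) (nat_lit 1)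
 (.cons (nat_lit 2461752) (nat_lit 2215228) (nat_lit 4551802) (nat_lit 1) .nil)), (nat_lit 7), (nat_lit 13),
 (nat_lit 30), (nat_lit 1), (2, 5, 12), [648168, 2005121], 21⟩,
  ⟨⟨9, 8, -13, -10, 7, 0, 2, -4, -13⟩, (.cons (nat_lit 4177513) (nat_lit 3253428) (nat_lit 1218083) (nat_lit 1)
 (.cons (nat_lit 2461752) (nat_lit 2215228) (nat_lit 4551802) (nat_lit 1) .nil)), (nat_lit 7), (nat_lit 13),
 (nat_lit 30), (nat_lit 1), (2, 5, 12), [648168, 2005121], 21⟩]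

/-- Moves. -/
noncomputable def t1_2 : List Mv := [
  mz,
  mz,
  mz,
  mz,
  ⟨⟨51, 20, -47, 10, -47, -30, -2, 20, -47⟩, (.cons (nat_lit 821039) (nat_lit 430401) (nat_lit 1) (nat_lit
 163150) (.cons (nat_lit 2854593) (nat_lit 775833) (nat_lit 7029246) (nat_lit 1) .nil)), (nat_lit 15), (nat_lit
 10), (nat_lit 1), (nat_lit 0), (24, 39, 24), [1447046, 3566787], 25⟩,
  ⟨⟨51, -20, -47, 10, 47, -30, -2, -20, -47⟩, (.cons (nat_lit 1636992) (nat_lit 769766) (nat_lit 2048245)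
 (nat_lit 1) (.cons (nat_lit 2317390) (nat_lit 1858612) (nat_lit 2066768) (nat_lit 1) .nil)), (nat_lit 15),
 (nat_lit 18), (nat_lit 33), (nat_lit 1), (12, 46, 12), [1871020, 2513877], 14⟩,
  ⟨⟨15, 56, -11, -28, 5, -36, 40, 8, -47⟩, (.cons (nat_lit 4571745) (nat_lit 4110893) (nat_lit 502069) (nat_lit
 1) (.cons (nat_lit 3836980) (nat_lit 7095884) (nat_lit 3223543) (nat_lit 1) .nil)), (nat_lit 14), (nat_lit
 17), (nat_lit 33), (nat_lit 1), (1, 37, 38), [660038, 2289031], 20⟩,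
  mz,
  mz,
  ⟨⟨-33, -20, -32, -8, -45, 34, 24, -24, -49⟩, (.cons (nat_lit 779484) (nat_lit 4049347) (nat_lit 3775693)
 (nat_lit 1) (.cons (nat_lit 3228686) (nat_lit 4341650) (nat_lit 1924880) (nat_lit 1) .nil)), (nat_lit 21),
 (nat_lit 26), (nat_lit 10), (nat_lit 1), (35, 39, 42), [3824138, 4305531], 13⟩,
  ⟨⟨-15, -56, 4, 28, -5, -64, -40, -8, -7⟩, (.cons (nat_lit 1276672) (nat_lit 3985190) (nat_lit 1939744)
 (nat_lit 1) (.cons (nat_lit 6209136) (nat_lit 6278616) (nat_lit 4208059) (nat_lit 1) .nil)), (nat_lit 18),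
 (nat_lit 15), (nat_lit 25), (nat_lit 1), (10, 52, 9), [1453849, 1829011], 14⟩,
  ⟨⟨15, -32, 44, 50, 17, -30, 14, -44, -19⟩, (.cons (nat_lit 3463273) (nat_lit 712203) (nat_lit 438078)
 (nat_lit 1) (.cons (nat_lit 6892726) (nat_lit 5526891) (nat_lit 446713) (nat_lit 1) .nil)), (nat_lit 15),
 (nat_lit 7), (nat_lit 15), (nat_lit 1), (29, 26, 20), [4405645, 3552138], 34⟩,
  ⟨⟨-51, 20, 4, 10, 47, 20, 2, 20, -49⟩, (.cons (nat_lit 4826808) (nat_lit 3086678) (nat_lit 2813910) (nat_lit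
 1) (.cons (nat_lit 833274) (nat_lit 5718228) (nat_lit 726984) (nat_lit 1) .nil)), (nat_lit 36), (nat_lit 21),
 (nat_lit 3), (nat_lit 1), (48, 28, 48), [3120088, 1031367], 12⟩,
  mz,
  mz,
  ⟨⟨-51, -20, 4, 10, -47, 20, 2, -20, -49⟩, (.cons (nat_lit 3860411) (nat_lit 3179793) (nat_lit 1755763)
 (nat_lit 1) (.cons (nat_lit 333195) (nat_lit 7121621) (nat_lit 3271353) (nat_lit 1) .nil)), (nat_lit 31),
 (nat_lit 33), (nat_lit 2), (nat_lit 1), (36, 21, 36), [4232897, 4265671], 5⟩,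
  ⟨⟨15, 52, 16, 10, 17, -60, 46, 4, -11⟩, (.cons (nat_lit 4771790) (nat_lit 656335) (nat_lit 3605808) (nat_lit
 1) (.cons (nat_lit 1251332) (nat_lit 4266202) (nat_lit 7253833) (nat_lit 1) .nil)), (nat_lit 29), (nat_lit
 23), (nat_lit 1), (nat_lit 1), (24, 16, 10), [4322235, 6928554], 15⟩,
  ⟨⟨31, -48, -4, 10, 17, 50, 46, 4, -35⟩, (.cons (nat_lit 4780088) (nat_lit 1899637) (nat_lit 1061206) (nat_lit
 1) (.cons (nat_lit 5298735) (nat_lit 6124146) (nat_lit 1616335) (nat_lit 1) .nil)), (nat_lit 16), (nat_lit 8),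
 (nat_lit 19), (nat_lit 1), (18, 40, 25), [764773, 2578308], 30⟩,
  ⟨⟨-57, -4, 40, -8, 45, -26, -24, -24, -25⟩, (.cons (nat_lit 2648910) (nat_lit 1117701) (nat_lit 3868660)
 (nat_lit 1) (.cons (nat_lit 2169052) (nat_lit 6191318) (nat_lit 2945743) (nat_lit 1) .nil)), (nat_lit 27),
 (nat_lit 11), (nat_lit 1), (nat_lit 0), (12, 24, 19), [4320385, 4621735], 9⟩,
  mz,
  mz,
  ⟨⟨57, 4, -17, -8, 45, 34, 24, 24, -49⟩, (.cons (nat_lit 4826808) (nat_lit 2815041) (nat_lit 515259) (nat_lit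
 1) (.cons (nat_lit 6006157) (nat_lit 2974286) (nat_lit 286010) (nat_lit 1) .nil)), (nat_lit 36), (nat_lit 26),
 (nat_lit 25), (nat_lit 1), (20, 13, 14), [3821279, 4666574], 19⟩,
  ⟨⟨45, 28, -49, -28, 45, 14, 0, 0, -53⟩, (.cons (nat_lit 2068470) (nat_lit 4238658) (nat_lit 1292610) (nat_lit
 1) (.cons (nat_lit 7123905) (nat_lit 6710926) (nat_lit 2613675) (nat_lit 1) .nil)), (nat_lit 1), (nat_lit 17),
 (nat_lit 2), (nat_lit 1), (24, 31, 0), [4413685, 3978752], 10⟩,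
  mz,
  ⟨⟨-13, 48, -27, -30, 17, 60, 30, 36, -7⟩, (.cons (nat_lit 4716435) (nat_lit 2851112) (nat_lit 2816065)
 (nat_lit 1) (.cons (nat_lit 5774011) (nat_lit 4529408) (nat_lit 409075) (nat_lit 1) .nil)), (nat_lit 11),
 (nat_lit 28), (nat_lit 21), (nat_lit 1), (11, 5, 48), [4726217, 4616274], 18⟩,
  mz,
  ⟨⟨-25, -48, -11, 28, 5, -64, -40, 8, -7⟩, (.cons (nat_lit 2886708) (nat_lit 1561516) (nat_lit 72376) (nat_lit
 1) (.cons (nat_lit 6047124) (nat_lit 1824961) (nat_lit 1) (nat_lit 4001235) .nil)), (nat_lit 4), (nat_lit 30),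
 (nat_lit 16), (nat_lit 1), (2, 2, 35), [1992999, 351296], 31⟩,
  mz,
  ⟨⟨-1, -48, 37, 52, 5, -16, 8, -40, -31⟩, (.cons (nat_lit 3620542) (nat_lit 2686663) (nat_lit 4714384)
 (nat_lit 1) (.cons (nat_lit 597646) (nat_lit 6142929) (nat_lit 2271106) (nat_lit 1) .nil)), (nat_lit 8),
 (nat_lit 12), (nat_lit 32), (nat_lit 1), (29, 29, 33), [3819678, 3950918], 22⟩,
  ⟨⟨-13, 48, 40, 30, -17, 30, 30, 36, -23⟩, (.cons (nat_lit 4826808) (nat_lit 1946651) (nat_lit 2321472)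
 (nat_lit 1) (.cons (nat_lit 7515267) (nat_lit 2016470) (nat_lit 5700860) (nat_lit 1) .nil)), (nat_lit 0),
 (nat_lit 36), (nat_lit 1), (nat_lit 0), (42, 5, 5), [2000376, 4558043], 16⟩,
  mz,
  ⟨⟨45, -28, -49, 28, 45, -14, 0, 0, -53⟩, (.cons (nat_lit 1048568) (nat_lit 4585456) (nat_lit 2618765)
 (nat_lit 1) (.cons (nat_lit 684971) (nat_lit 5174550) (nat_lit 2796875) (nat_lit 1) .nil)), (nat_lit 1),
 (nat_lit 20), (nat_lit 35), (nat_lit 1), (39, 49, 0), [1747411, 6405699], 10⟩,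
  mz,
  ⟨⟨-39, 28, -17, 10, -33, -50, 18, 36, -37⟩, (.cons (nat_lit 560808) (nat_lit 1558591) (nat_lit 2000433)
 (nat_lit 1) (.cons (nat_lit 5420005) (nat_lit 7422346) (nat_lit 1619287) (nat_lit 1) .nil)), (nat_lit 9),
 (nat_lit 6), (nat_lit 8), (nat_lit 1), (43, 8, 25), [3876764, 3950882], 32⟩,
  mz,
  mz,
  ⟨⟨1, -48, 36, 52, -5, -36, -8, -40, -23⟩, (.cons (nat_lit 151603) (nat_lit 2780155) (nat_lit 3682193)
 (nat_lit 1) (.cons (nat_lit 6074418) (nat_lit 5373754) (nat_lit 1017465) (nat_lit 1) .nil)), (nat_lit 7),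
 (nat_lit 26), (nat_lit 16), (nat_lit 1), (41, 12, 43), [1573115, 2196976], 32⟩,
  ⟨⟨-1, 48, 37, 52, -5, -16, 8, 40, -31⟩, (.cons (nat_lit 1951473) (nat_lit 390318) (nat_lit 1529567) (nat_lit
 1) (.cons (nat_lit 5119050) (nat_lit 6142234) (nat_lit 3161272) (nat_lit 1) .nil)), (nat_lit 16), (nat_lit
 18), (nat_lit 28), (nat_lit 1), (26, 26, 4), [2045957, 7145290], 36⟩,
  ⟨⟨39, 28, -56, -10, -33, -40, -18, 36, -19⟩, (.cons (nat_lit 374579) (nat_lit 4278851) (nat_lit 2427395)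
 (nat_lit 1) (.cons (nat_lit 367081) (nat_lit 2473977) (nat_lit 2424219) (nat_lit 1) .nil)), (nat_lit 32),
 (nat_lit 17), (nat_lit 15), (nat_lit 1), (34, 47, 21), [3183405, 6130927], 21⟩,
  ⟨⟨25, 48, -36, -28, -5, -36, 40, -8, -47⟩, (.cons (nat_lit 4197808) (nat_lit 1162118) (nat_lit 2221824)
 (nat_lit 1) (.cons (nat_lit 3941322) (nat_lit 1353906) (nat_lit 1233991) (nat_lit 1) .nil)), (nat_lit 16),
 (nat_lit 28), (nat_lit 3), (nat_lit 1), (34, 34, 12), [2661029, 4992508], 15⟩,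
  ⟨⟨1, 48, 36, 52, 5, -36, -8, 40, -23⟩, (.cons (nat_lit 376998) (nat_lit 3281156) (nat_lit 1807906) (nat_lit
 1) (.cons (nat_lit 5098725) (nat_lit 4445558) (nat_lit 3273820) (nat_lit 1) .nil)), (nat_lit 25), (nat_lit 0),
 (nat_lit 24), (nat_lit 1), (38, 15, 14), [3417340, 1159260], 30⟩,
  ⟨⟨31, 48, -4, -10, 17, -50, 46, -4, -35⟩, (.cons (nat_lit 2164141) (nat_lit 3417684) (nat_lit 4782355)
 (nat_lit 1) (.cons (nat_lit 6883105) (nat_lit 570559) (nat_lit 2830267) (nat_lit 1) .nil)), (nat_lit 5),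
 (nat_lit 2), (nat_lit 36), (nat_lit 1), (15, 2, 12), [1589695, 1037093], 36⟩,
  ⟨⟨-57, 4, 40, -8, -45, -26, -24, 24, -25⟩, (.cons (nat_lit 3466525) (nat_lit 4039928) (nat_lit 392272)
 (nat_lit 1) (.cons (nat_lit 3048247) (nat_lit 509608) (nat_lit 406381) (nat_lit 1) .nil)), (nat_lit 30),
 (nat_lit 34), (nat_lit 33), (nat_lit 1), (25, 50, 44), [2159874, 6286556], 8⟩,
  ⟨⟨15, 32, 44, -50, 17, 30, 14, 44, -19⟩, (.cons (nat_lit 1977379) (nat_lit 2508130) (nat_lit 485586) (nat_lit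
 1) (.cons (nat_lit 1154981) (nat_lit 6197288) (nat_lit 7210033) (nat_lit 1) .nil)), (nat_lit 7), (nat_lit 18),
 (nat_lit 15), (nat_lit 1), (27, 16, 4), [409587, 52268], 27⟩,
  ⟨⟨-15, 32, 59, 50, 17, -20, -14, 44, -5⟩, (.cons (nat_lit 2814167) (nat_lit 210118) (nat_lit 129210) (nat_lit
 1) (.cons (nat_lit 7281819) (nat_lit 7138151) (nat_lit 4780138) (nat_lit 1) .nil)), (nat_lit 6), (nat_lit 11),
 (nat_lit 8), (nat_lit 1), (6, 33, 48), [4171422, 3977989], 20⟩,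
  mz,
  ⟨⟨43, 12, 20, 30, 17, -60, 30, -36, -7⟩, (.cons (nat_lit 4826808) (nat_lit 4195224) (nat_lit 2961790)
 (nat_lit 1) (.cons (nat_lit 3895227) (nat_lit 4908199) (nat_lit 84680) (nat_lit 1) .nil)), (nat_lit 36),
 (nat_lit 10), (nat_lit 20), (nat_lit 1), (23, 37, 37), [2160497, 7090380], 34⟩,
  ⟨⟨-15, -32, 59, 50, -17, -20, -14, -44, -5⟩, (.cons (nat_lit 4619118) (nat_lit 3902565) (nat_lit 4631039)
 (nat_lit 1) (.cons (nat_lit 6142849) (nat_lit 705668) (nat_lit 5444970) (nat_lit 1) .nil)), (nat_lit 28),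
 (nat_lit 35), (nat_lit 18), (nat_lit 1), (8, 44, 11), [2867479, 2100313], 12⟩,
  ⟨⟨31, 48, -27, -10, 17, 60, 46, -4, -11⟩, (.cons (nat_lit 374324) (nat_lit 196849) (nat_lit 2733518) (nat_lit
 1) (.cons (nat_lit 7467758) (nat_lit 5654516) (nat_lit 2963587) (nat_lit 1) .nil)), (nat_lit 15), (nat_lit
 32), (nat_lit 26), (nat_lit 1), (36, 26, 50), [1309416, 3097046], 26⟩,
  ⟨⟨-39, -28, -17, -10, -33, 50, 18, -36, -37⟩, (.cons (nat_lit 1609483) (nat_lit 1358210) (nat_lit 2954338)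
 (nat_lit 1) (.cons (nat_lit 2299278) (nat_lit 1622573) (nat_lit 5438872) (nat_lit 1) .nil)), (nat_lit 10),
 (nat_lit 18), (nat_lit 24), (nat_lit 1), (5, 4, 14), [3284197, 6003067], 18⟩,
  ⟨⟨39, -28, -56, 10, -33, 40, -18, -36, -19⟩, (.cons (nat_lit 3846600) (nat_lit 4288680) (nat_lit 3063050)
 (nat_lit 1) (.cons (nat_lit 4653340) (nat_lit 4814268) (nat_lit 7475230) (nat_lit 1) .nil)), (nat_lit 22),
 (nat_lit 33), (nat_lit 3), (nat_lit 1), (49, 18, 10), [1775851, 1988448], 26⟩,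
  mz,
  ⟨⟨43, 12, -63, -30, -17, -30, 30, -36, -23⟩, (.cons (nat_lit 1298079) (nat_lit 1667329) (nat_lit 2767217)
 (nat_lit 1) (.cons (nat_lit 5288912) (nat_lit 3162638) (nat_lit 4737897) (nat_lit 1) .nil)), (nat_lit 27),
 (nat_lit 21), (nat_lit 25), (nat_lit 1), (2, 6, 47), [783128, 3450906], 13⟩]

/-- Moves. -/
noncomputable def t1_4 : List Mv := [
  mz,
  mz,
  mz,
  mz,
  ⟨⟨51, 20, -47, -10, 47, 30, -2, 20, -47⟩, (.cons (nat_lit 1694673) (nat_lit 3800863) (nat_lit 4432845)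
 (nat_lit 1) (.cons (nat_lit 6012031) (nat_lit 1786706) (nat_lit 385838) (nat_lit 1) .nil)), (nat_lit 15),
 (nat_lit 34), (nat_lit 24), (nat_lit 1), (24, 14, 24), [2216261, 5404070], 14⟩,
  ⟨⟨51, -20, -47, 10, 47, -30, -2, -20, -47⟩, (.cons (nat_lit 1636992) (nat_lit 769766) (nat_lit 2048245)
 (nat_lit 1) (.cons (nat_lit 2317390) (nat_lit 1858612) (nat_lit 2066768) (nat_lit 1) .nil)), (nat_lit 15),
 (nat_lit 18), (nat_lit 33), (nat_lit 1), (12, 46, 12), [1871020, 2513877], 14⟩,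
  ⟨⟨25, -48, -36, 28, -5, 36, 40, 8, -47⟩, (.cons (nat_lit 2168545) (nat_lit 4721970) (nat_lit 1195966)
 (nat_lit 1) (.cons (nat_lit 4416162) (nat_lit 1396055) (nat_lit 5956047) (nat_lit 1) .nil)), (nat_lit 35),
 (nat_lit 19), (nat_lit 3), (nat_lit 1), (37, 16, 38), [3203631, 7462547], 19⟩,
  mz,
  mz,
  ⟨⟨57, -4, -17, 8, 45, -34, 24, -24, -49⟩, (.cons (nat_lit 4826808) (nat_lit 656982) (nat_lit 4339202)
 (nat_lit 1) (.cons (nat_lit 6667805) (nat_lit 6061860) (nat_lit 7754634) (nat_lit 1) .nil)), (nat_lit 36),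
 (nat_lit 11), (nat_lit 25), (nat_lit 1), (7, 14, 42), [386800, 5776821], 13⟩,
  ⟨⟨-25, 48, -11, -28, 5, 64, -40, -8, -7⟩, (.cons (nat_lit 4183611) (nat_lit 4373554) (nat_lit 3960015)
 (nat_lit 1) (.cons (nat_lit 3797972) (nat_lit 751728) (nat_lit 3657816) (nat_lit 1) .nil)), (nat_lit 8),
 (nat_lit 24), (nat_lit 16), (nat_lit 1), (52, 1, 9), [2924472, 4089196], 22⟩,
  ⟨⟨15, -32, 44, 50, 17, -30, 14, -44, -19⟩, (.cons (nat_lit 3463273) (nat_lit 712203) (nat_lit 438078)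
 (nat_lit 1) (.cons (nat_lit 6892726) (nat_lit 5526891) (nat_lit 446713) (nat_lit 1) .nil)), (nat_lit 15),
 (nat_lit 7), (nat_lit 15), (nat_lit 1), (29, 26, 20), [4405645, 3552138], 34⟩,
  ⟨⟨-51, 20, 4, -10, -47, -20, 2, 20, -49⟩, (.cons (nat_lit 443459) (nat_lit 984082) (nat_lit 3655573) (nat_lit
 1) (.cons (nat_lit 2248305) (nat_lit 5550217) (nat_lit 4668296) (nat_lit 1) .nil)), (nat_lit 6), (nat_lit 24),
 (nat_lit 25), (nat_lit 1), (48, 25, 48), [556948, 2207417], 32⟩,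
  mz,
  mz,
  ⟨⟨-51, -20, 4, 10, -47, 20, 2, -20, -49⟩, (.cons (nat_lit 3860411) (nat_lit 3179793) (nat_lit 1755763)
 (nat_lit 1) (.cons (nat_lit 333195) (nat_lit 7121621) (nat_lit 3271353) (nat_lit 1) .nil)), (nat_lit 31),
 (nat_lit 33), (nat_lit 2), (nat_lit 1), (36, 21, 36), [4232897, 4265671], 5⟩,
  ⟨⟨15, 52, 16, 10, 17, -60, 46, 4, -11⟩, (.cons (nat_lit 4771790) (nat_lit 656335) (nat_lit 3605808) (nat_lit
 1) (.cons (nat_lit 1251332) (nat_lit 4266202) (nat_lit 7253833) (nat_lit 1) .nil)), (nat_lit 29), (nat_lit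
 23), (nat_lit 1), (nat_lit 1), (24, 16, 10), [4322235, 6928554], 15⟩,
  ⟨⟨31, -48, -4, -10, -17, -50, 46, 4, -35⟩, (.cons (nat_lit 3583441) (nat_lit 4211157) (nat_lit 190126)
 (nat_lit 1) (.cons (nat_lit 2354198) (nat_lit 117428) (nat_lit 7130783) (nat_lit 1) .nil)), (nat_lit 23),
 (nat_lit 29), (nat_lit 10), (nat_lit 1), (18, 13, 25), [4798302, 2392756], 20⟩,
  ⟨⟨-57, -4, 40, -8, 45, -26, -24, -24, -25⟩, (.cons (nat_lit 2648910) (nat_lit 1117701) (nat_lit 3868660)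
 (nat_lit 1) (.cons (nat_lit 2169052) (nat_lit 6191318) (nat_lit 2945743) (nat_lit 1) .nil)), (nat_lit 27),
 (nat_lit 11), (nat_lit 1), (nat_lit 0), (12, 24, 19), [4320385, 4621735], 9⟩,
  mz,
  mz,
  ⟨⟨-33, 20, -32, 8, -45, -34, 24, 24, -49⟩, (.cons (nat_lit 4180288) (nat_lit 346868) (nat_lit 3446984)
 (nat_lit 1) (.cons (nat_lit 1323067) (nat_lit 1259898) (nat_lit 7815040) (nat_lit 1) .nil)), (nat_lit 16),
 (nat_lit 11), (nat_lit 27), (nat_lit 1), (47, 40, 14), [2814261, 7336522], 19⟩,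
  ⟨⟨45, 28, -49, -28, 45, 14, 0, 0, -53⟩, (.cons (nat_lit 2068470) (nat_lit 4238658) (nat_lit 1292610) (nat_lit
 1) (.cons (nat_lit 7123905) (nat_lit 6710926) (nat_lit 2613675) (nat_lit 1) .nil)), (nat_lit 1), (nat_lit 17),
 (nat_lit 2), (nat_lit 1), (24, 31, 0), [4413685, 3978752], 10⟩,
  mz,
  ⟨⟨-13, 48, -27, -30, 17, 60, 30, 36, -7⟩, (.cons (nat_lit 4716435) (nat_lit 2851112) (nat_lit 2816065)
 (nat_lit 1) (.cons (nat_lit 5774011) (nat_lit 4529408) (nat_lit 409075) (nat_lit 1) .nil)), (nat_lit 11),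
 (nat_lit 28), (nat_lit 21), (nat_lit 1), (11, 5, 48), [4726217, 4616274], 18⟩,
  mz,
  ⟨⟨-25, -48, -11, 28, 5, -64, -40, 8, -7⟩, (.cons (nat_lit 2886708) (nat_lit 1561516) (nat_lit 72376) (nat_lit
 1) (.cons (nat_lit 6047124) (nat_lit 1824961) (nat_lit 1) (nat_lit 4001235) .nil)), (nat_lit 4), (nat_lit 30),
 (nat_lit 16), (nat_lit 1), (2, 2, 35), [1992999, 351296], 31⟩,
  mz,
  ⟨⟨-1, -48, 37, 52, 5, -16, 8, -40, -31⟩, (.cons (nat_lit 3620542) (nat_lit 2686663) (nat_lit 4714384)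
 (nat_lit 1) (.cons (nat_lit 597646) (nat_lit 6142929) (nat_lit 2271106) (nat_lit 1) .nil)), (nat_lit 8),
 (nat_lit 12), (nat_lit 32), (nat_lit 1), (29, 29, 33), [3819678, 3950918], 22⟩,
  ⟨⟨-13, 48, 40, -30, 17, -30, 30, 36, -23⟩, (.cons (nat_lit 158134) (nat_lit 2840546) (nat_lit 755177)
 (nat_lit 1) (.cons (nat_lit 6321929) (nat_lit 1558013) (nat_lit 7284761) (nat_lit 1) .nil)), (nat_lit 27),
 (nat_lit 34), (nat_lit 34), (nat_lit 1), (42, 48, 5), [3025732, 7133235], 8⟩,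
  mz,
  ⟨⟨45, -28, -49, 28, 45, -14, 0, 0, -53⟩, (.cons (nat_lit 1048568) (nat_lit 4585456) (nat_lit 2618765)
 (nat_lit 1) (.cons (nat_lit 684971) (nat_lit 5174550) (nat_lit 2796875) (nat_lit 1) .nil)), (nat_lit 1),
 (nat_lit 20), (nat_lit 35), (nat_lit 1), (39, 49, 0), [1747411, 6405699], 10⟩,
  mz,
  ⟨⟨-39, 28, -17, 10, -33, -50, 18, 36, -37⟩, (.cons (nat_lit 560808) (nat_lit 1558591) (nat_lit 2000433)
 (nat_lit 1) (.cons (nat_lit 5420005) (nat_lit 7422346) (nat_lit 1619287) (nat_lit 1) .nil)), (nat_lit 9),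
 (nat_lit 6), (nat_lit 8), (nat_lit 1), (43, 8, 25), [3876764, 3950882], 32⟩,
  mz,
  mz,
  ⟨⟨-9, 8, -59, -52, 5, 36, -8, -40, -23⟩, (.cons (nat_lit 4121323) (nat_lit 231897) (nat_lit 2269134) (nat_lit
 1) (.cons (nat_lit 2550627) (nat_lit 133167) (nat_lit 5224418) (nat_lit 1) .nil)), (nat_lit 28), (nat_lit 11),
 (nat_lit 33), (nat_lit 1), (2, 41, 43), [768163, 5920928], 32⟩,
  ⟨⟨-1, 48, 37, -52, 5, 16, 8, 40, -31⟩, (.cons (nat_lit 4677471) (nat_lit 2100538) (nat_lit 748858) (nat_lit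
 1) (.cons (nat_lit 5047356) (nat_lit 5491479) (nat_lit 6681948) (nat_lit 1) .nil)), (nat_lit 4), (nat_lit 12),
 (nat_lit 3), (nat_lit 1), (26, 27, 4), [3025992, 5479032], 31⟩,
  ⟨⟨-57, 8, 37, -10, -33, -40, -18, 36, -19⟩, (.cons (nat_lit 4158708) (nat_lit 674446) (nat_lit 2955431)
 (nat_lit 1) (.cons (nat_lit 130959) (nat_lit 4780167) (nat_lit 5329946) (nat_lit 1) .nil)), (nat_lit 26),
 (nat_lit 13), (nat_lit 5), (nat_lit 1), (40, 47, 21), [3049793, 101225], 32⟩,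
  ⟨⟨15, -56, -11, 28, 5, 36, 40, -8, -47⟩, (.cons (nat_lit 3021822) (nat_lit 4620742) (nat_lit 3496531)
 (nat_lit 1) (.cons (nat_lit 2409554) (nat_lit 5028499) (nat_lit 3667450) (nat_lit 1) .nil)), (nat_lit 28),
 (nat_lit 34), (nat_lit 27), (nat_lit 1), (31, 19, 12), [3059309, 7807100], 32⟩,
  ⟨⟨-9, -8, -59, 52, 5, -36, -8, 40, -23⟩, (.cons (nat_lit 923828) (nat_lit 3979390) (nat_lit 954332) (nat_lit
 1) (.cons (nat_lit 7273294) (nat_lit 2172787) (nat_lit 2018632) (nat_lit 1) .nil)), (nat_lit 14), (nat_lit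
 34), (nat_lit 35), (nat_lit 1), (29, 15, 14), [830572, 7873025], 20⟩,
  ⟨⟨31, 48, -4, 10, -17, 50, 46, -4, -35⟩, (.cons (nat_lit 2333630) (nat_lit 4456200) (nat_lit 3872502)
 (nat_lit 1) (.cons (nat_lit 5459221) (nat_lit 4971832) (nat_lit 2718332) (nat_lit 1) .nil)), (nat_lit 32),
 (nat_lit 23), (nat_lit 30), (nat_lit 1), (15, 51, 12), [3695547, 7458632], 17⟩,
  ⟨⟨-57, 4, 40, -8, -45, -26, -24, 24, -25⟩, (.cons (nat_lit 3466525) (nat_lit 4039928) (nat_lit 392272)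
 (nat_lit 1) (.cons (nat_lit 3048247) (nat_lit 509608) (nat_lit 406381) (nat_lit 1) .nil)), (nat_lit 30),
 (nat_lit 34), (nat_lit 33), (nat_lit 1), (25, 50, 44), [2159874, 6286556], 8⟩,
  ⟨⟨15, 32, 44, 50, -17, -30, 14, 44, -19⟩, (.cons (nat_lit 4496982) (nat_lit 2083282) (nat_lit 1) (nat_lit
 3261557) (.cons (nat_lit 5743835) (nat_lit 6837522) (nat_lit 6724131) (nat_lit 1) .nil)), (nat_lit 22),
 (nat_lit 12), (nat_lit 6), (nat_lit 1), (27, 37, 4), [343649, 929430], 14⟩,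
  ⟨⟨-15, 32, 59, 50, 17, -20, -14, 44, -5⟩, (.cons (nat_lit 2814167) (nat_lit 210118) (nat_lit 129210) (nat_lit
 1) (.cons (nat_lit 7281819) (nat_lit 7138151) (nat_lit 4780138) (nat_lit 1) .nil)), (nat_lit 6), (nat_lit 11),
 (nat_lit 8), (nat_lit 1), (6, 33, 48), [4171422, 3977989], 20⟩,
  mz,
  ⟨⟨-13, -48, -27, 30, 17, -60, 30, -36, -7⟩, (.cons (nat_lit 2745011) (nat_lit 1363) (nat_lit 3234832)
 (nat_lit 1) (.cons (nat_lit 295719) (nat_lit 5096781) (nat_lit 4168007) (nat_lit 1) .nil)), (nat_lit 11),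
 (nat_lit 25), (nat_lit 25), (nat_lit 1), (14, 37, 37), [4783391, 5049337], 18⟩,
  ⟨⟨-15, -32, 59, -50, 17, 20, -14, -44, -5⟩, (.cons (nat_lit 2253500) (nat_lit 3897383) (nat_lit 2151630)
 (nat_lit 1) (.cons (nat_lit 6703577) (nat_lit 4314316) (nat_lit 255559) (nat_lit 1) .nil)), (nat_lit 22),
 (nat_lit 16), (nat_lit 8), (nat_lit 1), (8, 9, 11), [4490176, 5002506], 6⟩,
  ⟨⟨15, -52, 16, -10, 17, 60, 46, -4, -11⟩, (.cons (nat_lit 2180388) (nat_lit 1942390) (nat_lit 1) (nat_lit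
 2345252) (.cons (nat_lit 2170015) (nat_lit 3086532) (nat_lit 6768730) (nat_lit 1) .nil)), (nat_lit 22),
 (nat_lit 23), (nat_lit 16), (nat_lit 1), (14, 26, 50), [2787897, 4754291], 23⟩,
  ⟨⟨57, -8, -20, 10, 33, -50, 18, -36, -37⟩, (.cons (nat_lit 4826808) (nat_lit 4042203) (nat_lit 3143597)
 (nat_lit 1) (.cons (nat_lit 131123) (nat_lit 493885) (nat_lit 3545342) (nat_lit 1) .nil)), (nat_lit 36),
 (nat_lit 20), (nat_lit 17), (nat_lit 1), (9, 49, 14), [1745594, 6573356], 17⟩,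
  ⟨⟨39, -28, -56, -10, 33, -40, -18, -36, -19⟩, (.cons (nat_lit 4826808) (nat_lit 4801080) (nat_lit 290246)
 (nat_lit 1) (.cons (nat_lit 7091676) (nat_lit 4555332) (nat_lit 6612029) (nat_lit 1) .nil)), (nat_lit 36),
 (nat_lit 15), (nat_lit 6), (nat_lit 1), (49, 35, 10), [3326542, 2147297], 13⟩,
  mz,
  ⟨⟨43, 12, -63, -30, -17, -30, 30, -36, -23⟩, (.cons (nat_lit 1298079) (nat_lit 1667329) (nat_lit 2767217)
 (nat_lit 1) (.cons (nat_lit 5288912) (nat_lit 3162638) (nat_lit 4737897) (nat_lit 1) .nil)), (nat_lit 27),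
 (nat_lit 21), (nat_lit 25), (nat_lit 1), (2, 6, 47), [783128, 3450906], 13⟩]

/-- Moves. -/
noncomputable def t1_5 : List Mv := [
  mz,
  mz,
  mz,
  mz,
  ⟨⟨51, 20, -47, 10, -47, -30, -2, 20, -47⟩, (.cons (nat_lit 821039) (nat_lit 430401) (nat_lit 1) (nat_lit
 163150) (.cons (nat_lit 2854593) (nat_lit 775833) (nat_lit 7029246) (nat_lit 1) .nil)), (nat_lit 15), (nat_lit
 10), (nat_lit 1), (nat_lit 0), (24, 39, 24), [1447046, 3566787], 25⟩,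
  ⟨⟨51, -20, -47, 10, 47, -30, -2, -20, -47⟩, (.cons (nat_lit 1636992) (nat_lit 769766) (nat_lit 2048245)
 (nat_lit 1) (.cons (nat_lit 2317390) (nat_lit 1858612) (nat_lit 2066768) (nat_lit 1) .nil)), (nat_lit 15),
 (nat_lit 18), (nat_lit 33), (nat_lit 1), (12, 46, 12), [1871020, 2513877], 14⟩,
  ⟨⟨15, 56, -11, -28, 5, -36, 40, 8, -47⟩, (.cons (nat_lit 4571745) (nat_lit 4110893) (nat_lit 502069) (nat_lit
 1) (.cons (nat_lit 3836980) (nat_lit 7095884) (nat_lit 3223543) (nat_lit 1) .nil)), (nat_lit 14), (nat_lit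
 17), (nat_lit 33), (nat_lit 1), (1, 37, 38), [660038, 2289031], 20⟩,
  mz,
  mz,
  ⟨⟨-33, -20, -32, -8, -45, 34, 24, -24, -49⟩, (.cons (nat_lit 779484) (nat_lit 4049347) (nat_lit 3775693)
 (nat_lit 1) (.cons (nat_lit 3228686) (nat_lit 4341650) (nat_lit 1924880) (nat_lit 1) .nil)), (nat_lit 21),
 (nat_lit 26), (nat_lit 10), (nat_lit 1), (35, 39, 42), [3824138, 4305531], 13⟩,
  ⟨⟨-25, 48, -11, 28, -5, -64, -40, -8, -7⟩, (.cons (nat_lit 2474086) (nat_lit 1626716) (nat_lit 44497)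
 (nat_lit 1) (.cons (nat_lit 4802036) (nat_lit 4587043) (nat_lit 1307970) (nat_lit 1) .nil)), (nat_lit 16),
 (nat_lit 21), (nat_lit 24), (nat_lit 1), (52, 52, 9), [2384568, 6769220], 36⟩,
  ⟨⟨-1, -12, -63, -50, -17, 30, 14, -44, -19⟩, (.cons (nat_lit 3754212) (nat_lit 540766) (nat_lit 134949)
 (nat_lit 1) (.cons (nat_lit 1700006) (nat_lit 2752419) (nat_lit 7499727) (nat_lit 1) .nil)), (nat_lit 5),
 (nat_lit 25), (nat_lit 18), (nat_lit 1), (44, 27, 20), [740544, 7359735], 16⟩,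
  ⟨⟨-51, 20, 4, -10, -47, -20, 2, 20, -49⟩, (.cons (nat_lit 443459) (nat_lit 984082) (nat_lit 3655573) (nat_lit
 1) (.cons (nat_lit 2248305) (nat_lit 5550217) (nat_lit 4668296) (nat_lit 1) .nil)), (nat_lit 6), (nat_lit 24),
 (nat_lit 25), (nat_lit 1), (48, 25, 48), [556948, 2207417], 32⟩,
  mz,
  mz,
  ⟨⟨53, 0, -53, -10, 47, -20, 2, -20, -49⟩, (.cons (nat_lit 3829642) (nat_lit 1951697) (nat_lit 2227610)
 (nat_lit 1) (.cons (nat_lit 4425724) (nat_lit 6163149) (nat_lit 1966631) (nat_lit 1) .nil)), (nat_lit 5),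
 (nat_lit 21), (nat_lit 20), (nat_lit 1), (0, 32, 36), [2395711, 4467347], 17⟩,
  ⟨⟨15, 52, 16, -10, -17, 60, 46, 4, -11⟩, (.cons (nat_lit 1358579) (nat_lit 1855564) (nat_lit 2798761)
 (nat_lit 1) (.cons (nat_lit 1989485) (nat_lit 1826592) (nat_lit 459400) (nat_lit 1) .nil)), (nat_lit 7),
 (nat_lit 2), (nat_lit 24), (nat_lit 1), (24, 37, 10), [1549942, 2498073], 10⟩,
  ⟨⟨15, 52, -31, 10, 17, 50, 46, 4, -35⟩, (.cons (nat_lit 1027190) (nat_lit 4482824) (nat_lit 4373982) (nat_lit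
 1) (.cons (nat_lit 6062022) (nat_lit 1902273) (nat_lit 4866373) (nat_lit 1) .nil)), (nat_lit 31), (nat_lit
 29), (nat_lit 11), (nat_lit 1), (7, 40, 25), [520876, 3638760], 17⟩,
  ⟨⟨33, -20, -65, 8, -45, 26, -24, -24, -25⟩, (.cons (nat_lit 1106078) (nat_lit 342086) (nat_lit 1) (nat_lit
 1236833) (.cons (nat_lit 1848264) (nat_lit 2039880) (nat_lit 3805704) (nat_lit 1) .nil)), (nat_lit 26),
 (nat_lit 0), (nat_lit 26), (nat_lit 1), (7, 29, 19), [315025, 6242771], 9⟩,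
  mz,
  mz,
  ⟨⟨57, 4, -17, -8, 45, 34, 24, 24, -49⟩, (.cons (nat_lit 4826808) (nat_lit 2815041) (nat_lit 515259) (nat_lit
 1) (.cons (nat_lit 6006157) (nat_lit 2974286) (nat_lit 286010) (nat_lit 1) .nil)), (nat_lit 36), (nat_lit 26),
 (nat_lit 25), (nat_lit 1), (20, 13, 14), [3821279, 4666574], 19⟩,
  ⟨⟨45, 28, -49, 28, -45, -14, 0, 0, -53⟩, (.cons (nat_lit 4826808) (nat_lit 4008365) (nat_lit 834445) (nat_lit
 1) (.cons (nat_lit 3517226) (nat_lit 6386058) (nat_lit 1235851) (nat_lit 1) .nil)), (nat_lit 36), (nat_lit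
 22), (nat_lit 17), (nat_lit 1), (24, 22, 0), [1227631, 4257688], 31⟩,
  mz,
  ⟨⟨-13, 48, -27, 30, -17, -60, 30, 36, -7⟩, (.cons (nat_lit 3952674) (nat_lit 748627) (nat_lit 1116814)
 (nat_lit 1) (.cons (nat_lit 6610459) (nat_lit 6365867) (nat_lit 5197395) (nat_lit 1) .nil)), (nat_lit 26),
 (nat_lit 0), (nat_lit 0), (nat_lit 1), (11, 48, 48), [4338218, 3534223], 28⟩,
  mz,
  ⟨⟨-25, -48, -11, 28, 5, -64, -40, 8, -7⟩, (.cons (nat_lit 2886708) (nat_lit 1561516) (nat_lit 72376) (nat_lit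
 1) (.cons (nat_lit 6047124) (nat_lit 1824961) (nat_lit 1) (nat_lit 4001235) .nil)), (nat_lit 4), (nat_lit 30),
 (nat_lit 16), (nat_lit 1), (2, 2, 35), [1992999, 351296], 31⟩,
  mz,
  ⟨⟨9, 8, -68, -52, -5, 16, 8, -40, -31⟩, (.cons (nat_lit 3379313) (nat_lit 3014295) (nat_lit 2405297) (nat_lit
 1) (.cons (nat_lit 4749060) (nat_lit 5128561) (nat_lit 5583205) (nat_lit 1) .nil)), (nat_lit 35), (nat_lit
 30), (nat_lit 13), (nat_lit 1), (4, 24, 33), [2456664, 4606121], 19⟩,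
  ⟨⟨43, -12, -63, -30, 17, -30, 30, 36, -23⟩, (.cons (nat_lit 4348090) (nat_lit 1054181) (nat_lit 3409190)
 (nat_lit 1) (.cons (nat_lit 615641) (nat_lit 5686034) (nat_lit 5103288) (nat_lit 1) .nil)), (nat_lit 10),
 (nat_lit 0), (nat_lit 0), (nat_lit 1), (16, 48, 5), [1233170, 4237298], 12⟩,
  mz,
  ⟨⟨45, -28, -49, 28, 45, -14, 0, 0, -53⟩, (.cons (nat_lit 1048568) (nat_lit 4585456) (nat_lit 2618765)
 (nat_lit 1) (.cons (nat_lit 684971) (nat_lit 5174550) (nat_lit 2796875) (nat_lit 1) .nil)), (nat_lit 1),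
 (nat_lit 20), (nat_lit 35), (nat_lit 1), (39, 49, 0), [1747411, 6405699], 10⟩,
  mz,
  ⟨⟨-39, 28, -17, 10, -33, -50, 18, 36, -37⟩, (.cons (nat_lit 560808) (nat_lit 1558591) (nat_lit 2000433)
 (nat_lit 1) (.cons (nat_lit 5420005) (nat_lit 7422346) (nat_lit 1619287) (nat_lit 1) .nil)), (nat_lit 9),
 (nat_lit 6), (nat_lit 8), (nat_lit 1), (43, 8, 25), [3876764, 3950882], 32⟩,
  mz,
  mz,
  ⟨⟨-9, 8, -59, 52, -5, -36, -8, -40, -23⟩, (.cons (nat_lit 3315764) (nat_lit 3075397) (nat_lit 4346804)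
 (nat_lit 1) (.cons (nat_lit 3221663) (nat_lit 503522) (nat_lit 3478152) (nat_lit 1) .nil)), (nat_lit 7),
 (nat_lit 1), (nat_lit 17), (nat_lit 1), (2, 12, 43), [1461795, 990193], 25⟩,
  ⟨⟨-1, 48, 37, 52, -5, -16, 8, 40, -31⟩, (.cons (nat_lit 1951473) (nat_lit 390318) (nat_lit 1529567) (nat_lit
 1) (.cons (nat_lit 5119050) (nat_lit 6142234) (nat_lit 3161272) (nat_lit 1) .nil)), (nat_lit 16), (nat_lit
 18), (nat_lit 28), (nat_lit 1), (26, 26, 4), [2045957, 7145290], 36⟩,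
  ⟨⟨-57, 8, 37, -10, -33, -40, -18, 36, -19⟩, (.cons (nat_lit 4158708) (nat_lit 674446) (nat_lit 2955431)
 (nat_lit 1) (.cons (nat_lit 130959) (nat_lit 4780167) (nat_lit 5329946) (nat_lit 1) .nil)), (nat_lit 26),
 (nat_lit 13), (nat_lit 5), (nat_lit 1), (40, 47, 21), [3049793, 101225], 32⟩,
  ⟨⟨25, 48, -36, 28, 5, 36, 40, -8, -47⟩, (.cons (nat_lit 1355854) (nat_lit 5087) (nat_lit 4581263) (nat_lit 1)
 (.cons (nat_lit 2010304) (nat_lit 2857557) (nat_lit 5963828) (nat_lit 1) .nil)), (nat_lit 3), (nat_lit 0),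
 (nat_lit 2), (nat_lit 1), (34, 19, 12), [1675298, 2783123], 11⟩,
  ⟨⟨-9, -8, -59, 52, 5, -36, -8, 40, -23⟩, (.cons (nat_lit 923828) (nat_lit 3979390) (nat_lit 954332) (nat_lit
 1) (.cons (nat_lit 7273294) (nat_lit 2172787) (nat_lit 2018632) (nat_lit 1) .nil)), (nat_lit 14), (nat_lit
 34), (nat_lit 35), (nat_lit 1), (29, 15, 14), [830572, 7873025], 20⟩,
  ⟨⟨31, 48, -4, 10, -17, 50, 46, -4, -35⟩, (.cons (nat_lit 2333630) (nat_lit 4456200) (nat_lit 3872502)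
 (nat_lit 1) (.cons (nat_lit 5459221) (nat_lit 4971832) (nat_lit 2718332) (nat_lit 1) .nil)), (nat_lit 32),
 (nat_lit 23), (nat_lit 30), (nat_lit 1), (15, 51, 12), [3695547, 7458632], 17⟩,
  ⟨⟨33, 20, -65, -8, -45, -26, -24, 24, -25⟩, (.cons (nat_lit 3348475) (nat_lit 2121045) (nat_lit 3921113)
 (nat_lit 1) (.cons (nat_lit 7597119) (nat_lit 572061) (nat_lit 7322141) (nat_lit 1) .nil)), (nat_lit 10),
 (nat_lit 0), (nat_lit 36), (nat_lit 1), (19, 50, 44), [2919354, 5476254], 12⟩,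
  ⟨⟨15, 32, 44, 50, -17, -30, 14, 44, -19⟩, (.cons (nat_lit 4496982) (nat_lit 2083282) (nat_lit 1) (nat_lit
 3261557) (.cons (nat_lit 5743835) (nat_lit 6837522) (nat_lit 6724131) (nat_lit 1) .nil)), (nat_lit 22),
 (nat_lit 12), (nat_lit 6), (nat_lit 1), (27, 37, 4), [343649, 929430], 14⟩,
  ⟨⟨1, 12, -64, -50, -17, 20, -14, 44, -5⟩, (.cons (nat_lit 4342277) (nat_lit 999255) (nat_lit 3095789)
 (nat_lit 1) (.cons (nat_lit 3843899) (nat_lit 6855138) (nat_lit 3261353) (nat_lit 1) .nil)), (nat_lit 23),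
 (nat_lit 26), (nat_lit 14), (nat_lit 1), (42, 20, 48), [295115, 1965762], 20⟩,
  mz,
  ⟨⟨43, 12, 20, 30, 17, -60, 30, -36, -7⟩, (.cons (nat_lit 4826808) (nat_lit 4195224) (nat_lit 2961790)
 (nat_lit 1) (.cons (nat_lit 3895227) (nat_lit 4908199) (nat_lit 84680) (nat_lit 1) .nil)), (nat_lit 36),
 (nat_lit 10), (nat_lit 20), (nat_lit 1), (23, 37, 37), [2160497, 7090380], 34⟩,
  ⟨⟨1, -12, -64, -50, 17, 20, -14, -44, -5⟩, (.cons (nat_lit 2620359) (nat_lit 3604202) (nat_lit 3310030)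
 (nat_lit 1) (.cons (nat_lit 6107086) (nat_lit 7673008) (nat_lit 7446838) (nat_lit 1) .nil)), (nat_lit 16),
 (nat_lit 5), (nat_lit 23), (nat_lit 1), (3, 9, 11), [2794944, 5246347], 30⟩,
  ⟨⟨15, -52, 16, 10, -17, -60, 46, -4, -11⟩, (.cons (nat_lit 2370038) (nat_lit 405107) (nat_lit 1272666)
 (nat_lit 1) (.cons (nat_lit 5321351) (nat_lit 6038442) (nat_lit 6456084) (nat_lit 1) .nil)), (nat_lit 15),
 (nat_lit 2), (nat_lit 34), (nat_lit 1), (14, 27, 50), [2471095, 5388467], 3⟩,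
  ⟨⟨-39, -28, -17, -10, -33, 50, 18, -36, -37⟩, (.cons (nat_lit 1609483) (nat_lit 1358210) (nat_lit 2954338)
 (nat_lit 1) (.cons (nat_lit 2299278) (nat_lit 1622573) (nat_lit 5438872) (nat_lit 1) .nil)), (nat_lit 10),
 (nat_lit 18), (nat_lit 24), (nat_lit 1), (5, 4, 14), [3284197, 6003067], 18⟩,
  ⟨⟨39, -28, -56, -10, 33, -40, -18, -36, -19⟩, (.cons (nat_lit 4826808) (nat_lit 4801080) (nat_lit 290246)
 (nat_lit 1) (.cons (nat_lit 7091676) (nat_lit 4555332) (nat_lit 6612029) (nat_lit 1) .nil)), (nat_lit 36),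
 (nat_lit 15), (nat_lit 6), (nat_lit 1), (49, 35, 10), [3326542, 2147297], 13⟩,
  mz,
  ⟨⟨43, 12, -63, -30, -17, -30, 30, -36, -23⟩, (.cons (nat_lit 1298079) (nat_lit 1667329) (nat_lit 2767217)
 (nat_lit 1) (.cons (nat_lit 5288912) (nat_lit 3162638) (nat_lit 4737897) (nat_lit 1) .nil)), (nat_lit 27),
 (nat_lit 21), (nat_lit 25), (nat_lit 1), (2, 6, 47), [783128, 3450906], 13⟩]

/-- Moves. -/
noncomputable def t4_2 : List Mv := [
  mz,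
  ⟨⟨27, 4, 20, -10, -33, 20, 30, -12, -23⟩, (.cons (nat_lit 3990903) (nat_lit 4807734) (nat_lit 1) (nat_lit
 2967393) (.cons (nat_lit 5931687) (nat_lit 1717563) (nat_lit 40444) (nat_lit 1) .nil)), (nat_lit 11), (nat_lit
 0), (nat_lit 0), (nat_lit 0), (3, 3, 28), [2499281, 2893003], 0⟩,
  mz,
  mz,
  ⟨⟨21, 4, 28, 8, 35, -14, 32, -8, -19⟩, (.cons (nat_lit 4826808) (nat_lit 3870509) (nat_lit 1547033) (nat_lit
 1) (.cons (nat_lit 7890480) (nat_lit 7223973) (nat_lit 6290520) (nat_lit 1) .nil)), (nat_lit 4), (nat_lit 0),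
 (nat_lit 0), (nat_lit 0), (33, 2, 8), [4747384, 1040898], 0⟩,
  ⟨⟨21, -4, 28, 8, -35, -14, 32, 8, -19⟩, (.cons (nat_lit 2597736) (nat_lit 3145515) (nat_lit 2120523) (nat_lit
 1) (.cons (nat_lit 2234508) (nat_lit 7165335) (nat_lit 3293000) (nat_lit 1) .nil)), (nat_lit 4), (nat_lit 0),
 (nat_lit 0), (nat_lit 0), (15, 11, 7), [1685490, 680231], 0⟩,
  mz,
  ⟨⟨-1, -24, -36, 30, 17, -30, -18, 12, -19⟩, (.cons (nat_lit 1738888) (nat_lit 1305455) (nat_lit 93072)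
 (nat_lit 1) (.cons (nat_lit 4750234) (nat_lit 1954989) (nat_lit 4331294) (nat_lit 1) .nil)), (nat_lit 10),
 (nat_lit 0), (nat_lit 0), (nat_lit 0), (13, 17, 12), [1698451, 4749853], 0⟩,
  ⟨⟨-35, 12, -1, 12, 35, -6, 0, 0, -37⟩, (.cons (nat_lit 3463655) (nat_lit 3255587) (nat_lit 1) (nat_lit
 1363154) (.cons (nat_lit 7890480) (nat_lit 7395731) (nat_lit 3668629) (nat_lit 1) .nil)), (nat_lit 8),
 (nat_lit 0), (nat_lit 0), (nat_lit 0), (3, 18, 0), [3755070, 1077411], 0⟩,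
  mz,
  ⟨⟨-1, 24, -36, 30, -17, -30, -18, -12, -19⟩, (.cons (nat_lit 4826808) (nat_lit 68122) (nat_lit 2990635)
 (nat_lit 1) (.cons (nat_lit 7890480) (nat_lit 66706) (nat_lit 426310) (nat_lit 1) .nil)), (nat_lit 10),
 (nat_lit 0), (nat_lit 0), (nat_lit 0), (10, 33, 32), [3346311, 2661012], 0⟩,
  ⟨⟨3, 16, -43, 10, -33, -20, 30, 12, -23⟩, (.cons (nat_lit 60303) (nat_lit 3114643) (nat_lit 387409) (nat_lit
 1) (.cons (nat_lit 637941) (nat_lit 3345858) (nat_lit 613366) (nat_lit 1) .nil)), (nat_lit 26), (nat_lit 0),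
 (nat_lit 0), (nat_lit 0), (23, 15, 8), [4608965, 4562451], 0⟩,
  ⟨⟨39, -4, -8, 10, 17, -40, 14, -28, -19⟩, (.cons (nat_lit 4826808) (nat_lit 1223186) (nat_lit 4033354)
 (nat_lit 1) (.cons (nat_lit 7890480) (nat_lit 3483143) (nat_lit 4900774) (nat_lit 1) .nil)), (nat_lit 12),
 (nat_lit 0), (nat_lit 0), (nat_lit 0), (11, 18, 3), [210780, 832828], 0⟩,
  ⟨⟨-31, 24, 27, 8, -5, 36, 8, 32, -1⟩, (.cons (nat_lit 4826808) (nat_lit 1995273) (nat_lit 2886299) (nat_lit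
 1) (.cons (nat_lit 7890480) (nat_lit 2349340) (nat_lit 2520337) (nat_lit 1) .nil)), (nat_lit 13), (nat_lit 0),
 (nat_lit 0), (nat_lit 0), (26, 10, 10), [2301184, 5960347], 0⟩,
  mz,
  ⟨⟨-3, 40, 8, 32, 5, -36, -16, 16, -19⟩, (.cons (nat_lit 2004831) (nat_lit 2109832) (nat_lit 1) (nat_lit
 3436849) (.cons (nat_lit 6208583) (nat_lit 1845497) (nat_lit 975172) (nat_lit 1) .nil)), (nat_lit 24),
 (nat_lit 0), (nat_lit 0), (nat_lit 0), (27, 8, 33), [3994894, 5092030], 0⟩,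
  ⟨⟨11, -12, 36, 8, 35, 6, 32, -8, -13⟩, (.cons (nat_lit 3177120) (nat_lit 1286175) (nat_lit 4570667) (nat_lit
 1) (.cons (nat_lit 4352706) (nat_lit 347175) (nat_lit 6302495) (nat_lit 1) .nil)), (nat_lit 35), (nat_lit 0),
 (nat_lit 0), (nat_lit 0), (3, 19, 2), [2195530, 2215424], 0⟩,
  ⟨⟨39, -8, -11, 8, 5, -44, 8, -32, -7⟩, (.cons (nat_lit 4826808) (nat_lit 1126416) (nat_lit 4401238) (nat_lit
 1) (.cons (nat_lit 7890480) (nat_lit 4430854) (nat_lit 7500646) (nat_lit 1) .nil)), (nat_lit 17), (nat_lit 0),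
 (nat_lit 0), (nat_lit 0), (5, 20, 20), [4323594, 1027762], 0⟩,
  ⟨⟨39, 4, -8, 10, -17, -40, 14, 28, -19⟩, (.cons (nat_lit 4114537) (nat_lit 353353) (nat_lit 794364) (nat_lit
 1) (.cons (nat_lit 4884378) (nat_lit 6179852) (nat_lit 5220433) (nat_lit 1) .nil)), (nat_lit 12), (nat_lit 0),
 (nat_lit 0), (nat_lit 0), (29, 34, 18), [4184964, 3415215], 0⟩,
  ⟨⟨39, -8, -28, -8, -5, -36, 8, -32, -1⟩, (.cons (nat_lit 2990997) (nat_lit 72102) (nat_lit 2906935) (nat_lit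
 1) (.cons (nat_lit 1179207) (nat_lit 6503114) (nat_lit 4533307) (nat_lit 1) .nil)), (nat_lit 22), (nat_lit 0),
 (nat_lit 0), (nat_lit 0), (22, 23, 14), [187659, 5822309], 0⟩,
  ⟨⟨25, -24, -36, -10, 17, -30, -14, -28, -5⟩, (.cons (nat_lit 4826808) (nat_lit 1095338) (nat_lit 1573909)
 (nat_lit 1) (.cons (nat_lit 7890480) (nat_lit 5271964) (nat_lit 1583227) (nat_lit 1) .nil)), (nat_lit 20),
 (nat_lit 0), (nat_lit 0), (nat_lit 0), (21, 36, 6), [2109788, 3661260], 0⟩,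
  ⟨⟨13, -24, -40, 32, -5, 4, 16, 16, -35⟩, (.cons (nat_lit 2895224) (nat_lit 3898719) (nat_lit 2380620)
 (nat_lit 1) (.cons (nat_lit 7712843) (nat_lit 3887152) (nat_lit 4940311) (nat_lit 1) .nil)), (nat_lit 15),
 (nat_lit 0), (nat_lit 0), (nat_lit 0), (27, 1, 19), [1553353, 4316519], 0⟩,
  ⟨⟨-31, 24, 4, -8, 5, 44, 8, 32, -7⟩, (.cons (nat_lit 738559) (nat_lit 2602679) (nat_lit 2329299) (nat_lit 1)
 (.cons (nat_lit 4537187) (nat_lit 1832145) (nat_lit 2416455) (nat_lit 1) .nil)), (nat_lit 19), (nat_lit 0),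
 (nat_lit 0), (nat_lit 0), (12, 21, 16), [2529699, 4232155], 0⟩,
  mz,
  ⟨⟨13, 24, -40, 32, 5, 4, 16, -16, -35⟩, (.cons (nat_lit 698737) (nat_lit 4259267) (nat_lit 834427) (nat_lit
 1) (.cons (nat_lit 1719943) (nat_lit 1488085) (nat_lit 7729050) (nat_lit 1) .nil)), (nat_lit 15), (nat_lit 0),
 (nat_lit 0), (nat_lit 0), (24, 5, 21), [3509280, 5247126], 0⟩,
  ⟨⟨17, -36, 0, -30, -17, 0, 18, -12, -37⟩, (.cons (nat_lit 4826808) (nat_lit 3471372) (nat_lit 4313700)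
 (nat_lit 1) (.cons (nat_lit 7890480) (nat_lit 7209756) (nat_lit 433764) (nat_lit 1) .nil)), (nat_lit 25),
 (nat_lit 0), (nat_lit 0), (nat_lit 0), (21, 13, 7), [1016163, 1638106], 0⟩,
  ⟨⟨27, -4, -47, -10, 33, -10, 30, 12, -7⟩, (.cons (nat_lit 281830) (nat_lit 3648050) (nat_lit 3767919)
 (nat_lit 1) (.cons (nat_lit 1205636) (nat_lit 3198347) (nat_lit 7639025) (nat_lit 1) .nil)), (nat_lit 11),
 (nat_lit 0), (nat_lit 0), (nat_lit 0), (15, 15, 29), [1966693, 332056], 0⟩,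
  ⟨⟨27, 4, -47, -10, -33, -10, 30, -12, -7⟩, (.cons (nat_lit 3559078) (nat_lit 3697792) (nat_lit 3987724)
 (nat_lit 1) (.cons (nat_lit 5459236) (nat_lit 2780747) (nat_lit 4296230) (nat_lit 1) .nil)), (nat_lit 11),
 (nat_lit 0), (nat_lit 0), (nat_lit 0), (33, 33, 12), [3269064, 5324890], 0⟩,
  mz,
  ⟨⟨-35, -12, -1, 12, -35, -6, 0, 0, -37⟩, (.cons (nat_lit 3525120) (nat_lit 3701762) (nat_lit 2321570)
 (nat_lit 1) (.cons (nat_lit 5438490) (nat_lit 6637239) (nat_lit 1873292) (nat_lit 1) .nil)), (nat_lit 8),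
 (nat_lit 0), (nat_lit 0), (nat_lit 0), (23, 27, 0), [3091020, 6906735], 0⟩,
  ⟨⟨25, 24, -36, 10, 17, 30, -14, 28, -5⟩, (.cons (nat_lit 4826808) (nat_lit 2649231) (nat_lit 4031871)
 (nat_lit 1) (.cons (nat_lit 7890480) (nat_lit 1177870) (nat_lit 1091439) (nat_lit 1) .nil)), (nat_lit 30),
 (nat_lit 0), (nat_lit 0), (nat_lit 0), (18, 22, 21), [2786652, 148704], 0⟩,
  mz,
  mz,
  ⟨⟨-3, -40, 8, 32, -5, -36, -16, -16, -19⟩, (.cons (nat_lit 4312999) (nat_lit 4133762) (nat_lit 852063)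
 (nat_lit 1) (.cons (nat_lit 656408) (nat_lit 7845204) (nat_lit 1847417) (nat_lit 1) .nil)), (nat_lit 24),
 (nat_lit 0), (nat_lit 0), (nat_lit 0), (32, 4, 35), [2101746, 7155625], 0⟩,
  mz,
  ⟨⟨11, 12, 36, -8, 35, -6, 32, 8, -13⟩, (.cons (nat_lit 3753847) (nat_lit 3246396) (nat_lit 3045047) (nat_lit
 1) (.cons (nat_lit 7601084) (nat_lit 1908902) (nat_lit 6900441) (nat_lit 1) .nil)), (nat_lit 16), (nat_lit 0),
 (nat_lit 0), (nat_lit 0), (20, 9, 1), [2135643, 5542627], 0⟩,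
  ⟨⟨1, -24, -37, -30, 17, 0, 18, 12, -37⟩, (.cons (nat_lit 3225005) (nat_lit 4459384) (nat_lit 3975974)
 (nat_lit 1) (.cons (nat_lit 553549) (nat_lit 1386203) (nat_lit 3515946) (nat_lit 1) .nil)), (nat_lit 10),
 (nat_lit 0), (nat_lit 0), (nat_lit 0), (26, 34, 24), [4187814, 5299891], 0⟩]

/-- Moves. -/
noncomputable def t4_4 : List Mv := [
  mz,
  ⟨⟨3, -16, -43, -10, -33, 20, 30, -12, -23⟩, (.cons (nat_lit 2846833) (nat_lit 717161) (nat_lit 1264353)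
 (nat_lit 1) (.cons (nat_lit 4240926) (nat_lit 3866744) (nat_lit 6003072) (nat_lit 1) .nil)), (nat_lit 27),
 (nat_lit 0), (nat_lit 0), (nat_lit 0), (25, 3, 28), [1659577, 1777465], 0⟩,
  mz,
  mz,
  ⟨⟨21, 4, 28, 8, 35, -14, 32, -8, -19⟩, (.cons (nat_lit 4826808) (nat_lit 3870509) (nat_lit 1547033) (nat_lit
 1) (.cons (nat_lit 7890480) (nat_lit 7223973) (nat_lit 6290520) (nat_lit 1) .nil)), (nat_lit 4), (nat_lit 0),
 (nat_lit 0), (nat_lit 0), (33, 2, 8), [4747384, 1040898], 0⟩,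
  ⟨⟨21, -4, 28, 8, -35, -14, 32, 8, -19⟩, (.cons (nat_lit 2597736) (nat_lit 3145515) (nat_lit 2120523) (nat_lit
 1) (.cons (nat_lit 2234508) (nat_lit 7165335) (nat_lit 3293000) (nat_lit 1) .nil)), (nat_lit 4), (nat_lit 0),
 (nat_lit 0), (nat_lit 0), (15, 11, 7), [1685490, 680231], 0⟩,
  mz,
  ⟨⟨-1, -24, -36, 30, 17, -30, -18, 12, -19⟩, (.cons (nat_lit 1738888) (nat_lit 1305455) (nat_lit 93072)
 (nat_lit 1) (.cons (nat_lit 4750234) (nat_lit 1954989) (nat_lit 4331294) (nat_lit 1) .nil)), (nat_lit 10),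
 (nat_lit 0), (nat_lit 0), (nat_lit 0), (13, 17, 12), [1698451, 4749853], 0⟩,
  ⟨⟨-35, 12, -1, -12, -35, 6, 0, 0, -37⟩, (.cons (nat_lit 1150605) (nat_lit 2104961) (nat_lit 3972458) (nat_lit
 1) (.cons (nat_lit 1926710) (nat_lit 4679162) (nat_lit 4951624) (nat_lit 1) .nil)), (nat_lit 29), (nat_lit 0),
 (nat_lit 0), (nat_lit 0), (3, 19, 0), [4302945, 1466974], 0⟩,
  mz,
  ⟨⟨-1, 24, -36, 30, -17, -30, -18, -12, -19⟩, (.cons (nat_lit 4826808) (nat_lit 68122) (nat_lit 2990635)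
 (nat_lit 1) (.cons (nat_lit 7890480) (nat_lit 66706) (nat_lit 426310) (nat_lit 1) .nil)), (nat_lit 10),
 (nat_lit 0), (nat_lit 0), (nat_lit 0), (10, 33, 32), [3346311, 2661012], 0⟩,
  ⟨⟨3, 16, -43, 10, -33, -20, 30, 12, -23⟩, (.cons (nat_lit 60303) (nat_lit 3114643) (nat_lit 387409) (nat_lit
 1) (.cons (nat_lit 637941) (nat_lit 3345858) (nat_lit 613366) (nat_lit 1) .nil)), (nat_lit 26), (nat_lit 0),
 (nat_lit 0), (nat_lit 0), (23, 15, 8), [4608965, 4562451], 0⟩,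
  ⟨⟨39, -4, -8, -10, -17, 40, 14, -28, -19⟩, (.cons (nat_lit 3437063) (nat_lit 1024296) (nat_lit 571109)
 (nat_lit 1) (.cons (nat_lit 5195100) (nat_lit 5667701) (nat_lit 605078) (nat_lit 1) .nil)), (nat_lit 18),
 (nat_lit 0), (nat_lit 0), (nat_lit 0), (11, 19, 3), [3936037, 1810119], 0⟩,
  ⟨⟨39, 8, -28, -8, 5, -36, 8, 32, -1⟩, (.cons (nat_lit 3927768) (nat_lit 1960263) (nat_lit 1739437) (nat_lit
 1) (.cons (nat_lit 1682495) (nat_lit 1641399) (nat_lit 7486986) (nat_lit 1) .nil)), (nat_lit 22), (nat_lit 0),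
 (nat_lit 0), (nat_lit 0), (21, 27, 10), [1651132, 7879717], 0⟩,
  mz,
  ⟨⟨-13, -24, -27, 32, 5, -36, -16, 16, -19⟩, (.cons (nat_lit 2526554) (nat_lit 3057564) (nat_lit 3975506)
 (nat_lit 1) (.cons (nat_lit 1389935) (nat_lit 1752856) (nat_lit 2736551) (nat_lit 1) .nil)), (nat_lit 33),
 (nat_lit 0), (nat_lit 0), (nat_lit 0), (6, 8, 33), [1741034, 463690], 0⟩,
  ⟨⟨21, 4, -49, 8, 35, 6, 32, -8, -13⟩, (.cons (nat_lit 3843909) (nat_lit 2974177) (nat_lit 2549487) (nat_lit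
 1) (.cons (nat_lit 3433717) (nat_lit 5770781) (nat_lit 2245976) (nat_lit 1) .nil)), (nat_lit 4), (nat_lit 0),
 (nat_lit 0), (nat_lit 0), (36, 19, 2), [3629312, 2370338], 0⟩,
  ⟨⟨39, -8, -11, -8, -5, 44, 8, -32, -7⟩, (.cons (nat_lit 3469351) (nat_lit 1659860) (nat_lit 3767641) (nat_lit
 1) (.cons (nat_lit 4478352) (nat_lit 2594246) (nat_lit 6261046) (nat_lit 1) .nil)), (nat_lit 22), (nat_lit 0),
 (nat_lit 0), (nat_lit 0), (5, 17, 20), [2779988, 16900], 0⟩,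
  ⟨⟨39, 4, -8, -10, 17, 40, 14, 28, -19⟩, (.cons (nat_lit 4826808) (nat_lit 2268763) (nat_lit 3937883) (nat_lit
 1) (.cons (nat_lit 7890480) (nat_lit 1120396) (nat_lit 2039614) (nat_lit 1) .nil)), (nat_lit 18), (nat_lit 0),
 (nat_lit 0), (nat_lit 0), (29, 3, 18), [3534328, 5775854], 0⟩,
  ⟨⟨39, -8, -28, -8, -5, -36, 8, -32, -1⟩, (.cons (nat_lit 2990997) (nat_lit 72102) (nat_lit 2906935) (nat_lit
 1) (.cons (nat_lit 1179207) (nat_lit 6503114) (nat_lit 4533307) (nat_lit 1) .nil)), (nat_lit 22), (nat_lit 0),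
 (nat_lit 0), (nat_lit 0), (22, 23, 14), [187659, 5822309], 0⟩,
  ⟨⟨-39, -4, 31, 10, -17, 30, -14, -28, -5⟩, (.cons (nat_lit 1118456) (nat_lit 1718638) (nat_lit 4341112)
 (nat_lit 1) (.cons (nat_lit 442150) (nat_lit 4694747) (nat_lit 6922223) (nat_lit 1) .nil)), (nat_lit 18),
 (nat_lit 0), (nat_lit 0), (nat_lit 0), (22, 1, 6), [4634091, 261945], 0⟩,
  ⟨⟨13, -24, -40, -32, 5, -4, 16, 16, -35⟩, (.cons (nat_lit 1733791) (nat_lit 323919) (nat_lit 4404522)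
 (nat_lit 1) (.cons (nat_lit 3946666) (nat_lit 6581762) (nat_lit 6105962) (nat_lit 1) .nil)), (nat_lit 33),
 (nat_lit 0), (nat_lit 0), (nat_lit 0), (27, 36, 19), [401133, 5052251], 0⟩,
  ⟨⟨39, 8, -11, 8, -5, -44, 8, 32, -7⟩, (.cons (nat_lit 3957064) (nat_lit 4631890) (nat_lit 79108) (nat_lit 1)
 (.cons (nat_lit 2249190) (nat_lit 3305393) (nat_lit 1416618) (nat_lit 1) .nil)), (nat_lit 17), (nat_lit 0),
 (nat_lit 0), (nat_lit 0), (4, 16, 16), [4743431, 6326818], 0⟩,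
  mz,
  ⟨⟨13, 24, -40, -32, -5, -4, 16, -16, -35⟩, (.cons (nat_lit 3174932) (nat_lit 3813019) (nat_lit 941042)
 (nat_lit 1) (.cons (nat_lit 5934269) (nat_lit 7128982) (nat_lit 4320632) (nat_lit 1) .nil)), (nat_lit 33),
 (nat_lit 0), (nat_lit 0), (nat_lit 0), (24, 32, 21), [1722340, 2810365], 0⟩,
  ⟨⟨1, 24, -37, -30, -17, 0, 18, -12, -37⟩, (.cons (nat_lit 4449046) (nat_lit 1841748) (nat_lit 4430173)
 (nat_lit 1) (.cons (nat_lit 7086161) (nat_lit 2332267) (nat_lit 6859992) (nat_lit 1) .nil)), (nat_lit 10),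
 (nat_lit 0), (nat_lit 0), (nat_lit 0), (23, 13, 7), [1876078, 5381061], 0⟩,
  ⟨⟨3, 16, 40, 10, -33, 10, 30, 12, -7⟩, (.cons (nat_lit 4826808) (nat_lit 2366898) (nat_lit 4522467) (nat_lit
 1) (.cons (nat_lit 7890480) (nat_lit 5338573) (nat_lit 16594) (nat_lit 1) .nil)), (nat_lit 26), (nat_lit 0),
 (nat_lit 0), (nat_lit 0), (14, 22, 29), [690785, 2557817], 0⟩,
  ⟨⟨3, -16, 40, -10, -33, -10, 30, -12, -7⟩, (.cons (nat_lit 4826808) (nat_lit 1428698) (nat_lit 1737974)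
 (nat_lit 1) (.cons (nat_lit 7890480) (nat_lit 3351558) (nat_lit 5663232) (nat_lit 1) .nil)), (nat_lit 27),
 (nat_lit 0), (nat_lit 0), (nat_lit 0), (16, 33, 12), [4175976, 2013813], 0⟩,
  mz,
  ⟨⟨-35, -12, -1, 12, -35, -6, 0, 0, -37⟩, (.cons (nat_lit 3525120) (nat_lit 3701762) (nat_lit 2321570)
 (nat_lit 1) (.cons (nat_lit 5438490) (nat_lit 6637239) (nat_lit 1873292) (nat_lit 1) .nil)), (nat_lit 8),
 (nat_lit 0), (nat_lit 0), (nat_lit 0), (23, 27, 0), [3091020, 6906735], 0⟩,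
  ⟨⟨-39, 4, 31, 10, 17, 30, -14, 28, -5⟩, (.cons (nat_lit 4678349) (nat_lit 3864368) (nat_lit 2956117) (nat_lit
 1) (.cons (nat_lit 402038) (nat_lit 7339406) (nat_lit 6988500) (nat_lit 1) .nil)), (nat_lit 18), (nat_lit 0),
 (nat_lit 0), (nat_lit 0), (3, 22, 21), [3993967, 5688817], 0⟩,
  mz,
  mz,
  ⟨⟨-3, -40, 8, 32, -5, -36, -16, -16, -19⟩, (.cons (nat_lit 4312999) (nat_lit 4133762) (nat_lit 852063)
 (nat_lit 1) (.cons (nat_lit 656408) (nat_lit 7845204) (nat_lit 1847417) (nat_lit 1) .nil)), (nat_lit 24),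
 (nat_lit 0), (nat_lit 0), (nat_lit 0), (32, 4, 35), [2101746, 7155625], 0⟩,
  mz,
  ⟨⟨21, -4, -49, -8, 35, -6, 32, 8, -13⟩, (.cons (nat_lit 3469823) (nat_lit 1220923) (nat_lit 4305166) (nat_lit
 1) (.cons (nat_lit 5009020) (nat_lit 2340510) (nat_lit 3227673) (nat_lit 1) .nil)), (nat_lit 5), (nat_lit 0),
 (nat_lit 0), (nat_lit 0), (18, 9, 1), [1736352, 2243622], 0⟩,
  ⟨⟨1, -24, -37, -30, 17, 0, 18, 12, -37⟩, (.cons (nat_lit 3225005) (nat_lit 4459384) (nat_lit 3975974)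
 (nat_lit 1) (.cons (nat_lit 553549) (nat_lit 1386203) (nat_lit 3515946) (nat_lit 1) .nil)), (nat_lit 10),
 (nat_lit 0), (nat_lit 0), (nat_lit 0), (26, 34, 24), [4187814, 5299891], 0⟩]

/-- Moves. -/
noncomputable def t4_5 : List Mv := [
  mz,
  ⟨⟨3, -16, -43, 10, 33, -20, 30, -12, -23⟩, (.cons (nat_lit 2767332) (nat_lit 2611102) (nat_lit 3010223)
 (nat_lit 1) (.cons (nat_lit 7616778) (nat_lit 186526) (nat_lit 7469637) (nat_lit 1) .nil)), (nat_lit 26),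
 (nat_lit 0), (nat_lit 0), (nat_lit 0), (25, 34, 28), [4435322, 5814665], 0⟩,
  mz,
  mz,
  ⟨⟨21, 4, 28, 8, 35, -14, 32, -8, -19⟩, (.cons (nat_lit 4826808) (nat_lit 3870509) (nat_lit 1547033) (nat_lit
 1) (.cons (nat_lit 7890480) (nat_lit 7223973) (nat_lit 6290520) (nat_lit 1) .nil)), (nat_lit 4), (nat_lit 0),
 (nat_lit 0), (nat_lit 0), (33, 2, 8), [4747384, 1040898], 0⟩,
  ⟨⟨21, -4, 28, -8, 35, 14, 32, 8, -19⟩, (.cons (nat_lit 4826808) (nat_lit 3496432) (nat_lit 1648458) (nat_lit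
 1) (.cons (nat_lit 7890480) (nat_lit 7577960) (nat_lit 1417038) (nat_lit 1) .nil)), (nat_lit 5), (nat_lit 0),
 (nat_lit 0), (nat_lit 0), (15, 26, 7), [3902238, 6645541], 0⟩,
  mz,
  ⟨⟨-1, -24, -36, 30, 17, -30, -18, 12, -19⟩, (.cons (nat_lit 1738888) (nat_lit 1305455) (nat_lit 93072)
 (nat_lit 1) (.cons (nat_lit 4750234) (nat_lit 1954989) (nat_lit 4331294) (nat_lit 1) .nil)), (nat_lit 10),
 (nat_lit 0), (nat_lit 0), (nat_lit 0), (13, 17, 12), [1698451, 4749853], 0⟩,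
  ⟨⟨-35, 12, -1, 12, 35, -6, 0, 0, -37⟩, (.cons (nat_lit 3463655) (nat_lit 3255587) (nat_lit 1) (nat_lit
 1363154) (.cons (nat_lit 7890480) (nat_lit 7395731) (nat_lit 3668629) (nat_lit 1) .nil)), (nat_lit 8),
 (nat_lit 0), (nat_lit 0), (nat_lit 0), (3, 18, 0), [3755070, 1077411], 0⟩,
  mz,
  ⟨⟨-1, 24, -36, -30, 17, 30, -18, -12, -19⟩, (.cons (nat_lit 280220) (nat_lit 4427201) (nat_lit 3439996)
 (nat_lit 1) (.cons (nat_lit 3714099) (nat_lit 3078795) (nat_lit 5453302) (nat_lit 1) .nil)), (nat_lit 7),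
 (nat_lit 0), (nat_lit 0), (nat_lit 0), (10, 4, 32), [3131725, 2524030], 0⟩,
  ⟨⟨27, -4, 20, 10, -33, -20, 30, 12, -23⟩, (.cons (nat_lit 3290443) (nat_lit 1341998) (nat_lit 4111131)
 (nat_lit 1) (.cons (nat_lit 5758389) (nat_lit 6428253) (nat_lit 3152480) (nat_lit 1) .nil)), (nat_lit 1),
 (nat_lit 0), (nat_lit 0), (nat_lit 0), (22, 15, 8), [699654, 5484047], 0⟩,
  ⟨⟨-25, -24, -11, -10, -17, 40, 14, -28, -19⟩, (.cons (nat_lit 4507204) (nat_lit 3436122) (nat_lit 1880168)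
 (nat_lit 1) (.cons (nat_lit 2042729) (nat_lit 2760171) (nat_lit 6661860) (nat_lit 1) .nil)), (nat_lit 30),
 (nat_lit 0), (nat_lit 0), (nat_lit 0), (29, 19, 3), [3240827, 537985], 0⟩,
  ⟨⟨-31, 24, 27, 8, -5, 36, 8, 32, -1⟩, (.cons (nat_lit 4826808) (nat_lit 1995273) (nat_lit 2886299) (nat_lit
 1) (.cons (nat_lit 7890480) (nat_lit 2349340) (nat_lit 2520337) (nat_lit 1) .nil)), (nat_lit 13), (nat_lit 0),
 (nat_lit 0), (nat_lit 0), (26, 10, 10), [2301184, 5960347], 0⟩,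
  mz,
  ⟨⟨-3, 40, 8, -32, -5, 36, -16, 16, -19⟩, (.cons (nat_lit 2471120) (nat_lit 2078922) (nat_lit 1271384)
 (nat_lit 1) (.cons (nat_lit 6025732) (nat_lit 3996122) (nat_lit 3591161) (nat_lit 1) .nil)), (nat_lit 21),
 (nat_lit 0), (nat_lit 0), (nat_lit 0), (27, 29, 33), [362125, 124433], 0⟩,
  ⟨⟨21, 4, -49, -8, -35, -6, 32, -8, -13⟩, (.cons (nat_lit 4461738) (nat_lit 1033493) (nat_lit 3029009)
 (nat_lit 1) (.cons (nat_lit 3368097) (nat_lit 5342625) (nat_lit 3300839) (nat_lit 1) .nil)), (nat_lit 5),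
 (nat_lit 0), (nat_lit 0), (nat_lit 0), (36, 18, 2), [4146778, 5761838], 0⟩,
  ⟨⟨39, -8, -11, 8, 5, -44, 8, -32, -7⟩, (.cons (nat_lit 4826808) (nat_lit 1126416) (nat_lit 4401238) (nat_lit
 1) (.cons (nat_lit 7890480) (nat_lit 4430854) (nat_lit 7500646) (nat_lit 1) .nil)), (nat_lit 17), (nat_lit 0),
 (nat_lit 0), (nat_lit 0), (5, 20, 20), [4323594, 1027762], 0⟩,
  ⟨⟨39, 4, -8, -10, 17, 40, 14, 28, -19⟩, (.cons (nat_lit 4826808) (nat_lit 2268763) (nat_lit 3937883) (nat_lit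
 1) (.cons (nat_lit 7890480) (nat_lit 1120396) (nat_lit 2039614) (nat_lit 1) .nil)), (nat_lit 18), (nat_lit 0),
 (nat_lit 0), (nat_lit 0), (29, 3, 18), [3534328, 5775854], 0⟩,
  ⟨⟨39, -8, -28, -8, -5, -36, 8, -32, -1⟩, (.cons (nat_lit 2990997) (nat_lit 72102) (nat_lit 2906935) (nat_lit
 1) (.cons (nat_lit 1179207) (nat_lit 6503114) (nat_lit 4533307) (nat_lit 1) .nil)), (nat_lit 22), (nat_lit 0),
 (nat_lit 0), (nat_lit 0), (22, 23, 14), [187659, 5822309], 0⟩,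
  ⟨⟨25, -24, -36, -10, 17, -30, -14, -28, -5⟩, (.cons (nat_lit 4826808) (nat_lit 1095338) (nat_lit 1573909)
 (nat_lit 1) (.cons (nat_lit 7890480) (nat_lit 5271964) (nat_lit 1583227) (nat_lit 1) .nil)), (nat_lit 20),
 (nat_lit 0), (nat_lit 0), (nat_lit 0), (21, 36, 6), [2109788, 3661260], 0⟩,
  ⟨⟨13, -24, -40, -32, 5, -4, 16, 16, -35⟩, (.cons (nat_lit 1733791) (nat_lit 323919) (nat_lit 4404522)
 (nat_lit 1) (.cons (nat_lit 3946666) (nat_lit 6581762) (nat_lit 6105962) (nat_lit 1) .nil)), (nat_lit 33),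
 (nat_lit 0), (nat_lit 0), (nat_lit 0), (27, 36, 19), [401133, 5052251], 0⟩,
  ⟨⟨39, 8, -11, 8, -5, -44, 8, 32, -7⟩, (.cons (nat_lit 3957064) (nat_lit 4631890) (nat_lit 79108) (nat_lit 1)
 (.cons (nat_lit 2249190) (nat_lit 3305393) (nat_lit 1416618) (nat_lit 1) .nil)), (nat_lit 17), (nat_lit 0),
 (nat_lit 0), (nat_lit 0), (4, 16, 16), [4743431, 6326818], 0⟩,
  mz,
  ⟨⟨3, -40, 5, -32, -5, -4, 16, -16, -35⟩, (.cons (nat_lit 4826808) (nat_lit 3702007) (nat_lit 3350191)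
 (nat_lit 1) (.cons (nat_lit 7890480) (nat_lit 196910) (nat_lit 2189705) (nat_lit 1) .nil)), (nat_lit 24),
 (nat_lit 0), (nat_lit 0), (nat_lit 0), (34, 32, 21), [369787, 3558716], 0⟩,
  ⟨⟨17, -36, 0, 30, 17, 0, 18, -12, -37⟩, (.cons (nat_lit 3748126) (nat_lit 81780) (nat_lit 1938205) (nat_lit
 1) (.cons (nat_lit 710589) (nat_lit 6839256) (nat_lit 7558493) (nat_lit 1) .nil)), (nat_lit 36), (nat_lit 0),
 (nat_lit 0), (nat_lit 0), (21, 24, 7), [1231593, 6379250], 0⟩,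
  ⟨⟨27, -4, -47, -10, 33, -10, 30, 12, -7⟩, (.cons (nat_lit 281830) (nat_lit 3648050) (nat_lit 3767919)
 (nat_lit 1) (.cons (nat_lit 1205636) (nat_lit 3198347) (nat_lit 7639025) (nat_lit 1) .nil)), (nat_lit 11),
 (nat_lit 0), (nat_lit 0), (nat_lit 0), (15, 15, 29), [1966693, 332056], 0⟩,
  ⟨⟨27, 4, -47, 10, 33, 10, 30, -12, -7⟩, (.cons (nat_lit 4303579) (nat_lit 4018370) (nat_lit 4285886) (nat_lit
 1) (.cons (nat_lit 124514) (nat_lit 5497723) (nat_lit 6648603) (nat_lit 1) .nil)), (nat_lit 1), (nat_lit 0),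
 (nat_lit 0), (nat_lit 0), (33, 4, 12), [1304450, 6091035], 0⟩,
  mz,
  ⟨⟨-35, -12, -1, -12, 35, 6, 0, 0, -37⟩, (.cons (nat_lit 4826808) (nat_lit 2831480) (nat_lit 1497530) (nat_lit
 1) (.cons (nat_lit 7890480) (nat_lit 3243368) (nat_lit 5069468) (nat_lit 1) .nil)), (nat_lit 29), (nat_lit 0),
 (nat_lit 0), (nat_lit 0), (23, 10, 0), [3534214, 4137796], 0⟩,
  ⟨⟨-39, 4, 31, -10, -17, -30, -14, 28, -5⟩, (.cons (nat_lit 4411969) (nat_lit 2097027) (nat_lit 1) (nat_lit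
 2148588) (.cons (nat_lit 1461864) (nat_lit 102631) (nat_lit 6071919) (nat_lit 1) .nil)), (nat_lit 12),
 (nat_lit 0), (nat_lit 0), (nat_lit 0), (3, 15, 21), [363798, 7598661], 0⟩,
  mz,
  mz,
  ⟨⟨-3, -40, 8, 32, -5, -36, -16, -16, -19⟩, (.cons (nat_lit 4312999) (nat_lit 4133762) (nat_lit 852063)
 (nat_lit 1) (.cons (nat_lit 656408) (nat_lit 7845204) (nat_lit 1847417) (nat_lit 1) .nil)), (nat_lit 24),
 (nat_lit 0), (nat_lit 0), (nat_lit 0), (32, 4, 35), [2101746, 7155625], 0⟩,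
  mz,
  ⟨⟨21, -4, -49, -8, 35, -6, 32, 8, -13⟩, (.cons (nat_lit 3469823) (nat_lit 1220923) (nat_lit 4305166) (nat_lit
 1) (.cons (nat_lit 5009020) (nat_lit 2340510) (nat_lit 3227673) (nat_lit 1) .nil)), (nat_lit 5), (nat_lit 0),
 (nat_lit 0), (nat_lit 0), (18, 9, 1), [1736352, 2243622], 0⟩,
  ⟨⟨17, 36, 0, -30, 17, 0, 18, 12, -37⟩, (.cons (nat_lit 372042) (nat_lit 2609176) (nat_lit 2639136) (nat_lit
 1) (.cons (nat_lit 5278909) (nat_lit 1059592) (nat_lit 3377625) (nat_lit 1) .nil)), (nat_lit 25), (nat_lit 0),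
 (nat_lit 0), (nat_lit 0), (35, 34, 24), [4696836, 1277293], 0⟩]

/-- All the moves. -/
noncomputable def tabs : List (List (List Mv)) := [[[], [], t0_2, [], t0_4, t0_5], [[], [], t1_2, [], t1_4, t1_5], [], [], [[], [], t4_2, [], t4_4, t4_5]]

/-- Subtrie. -/
noncomputable def T2 : Tr := (.ev (nat_lit 20) (nat_lit 77980505248) (.nd (nat_lit 33) (.br (nat_lit 31) (.br
 (nat_lit 16) (.br (nat_lit 10) (.br (nat_lit 6) (.br (nat_lit 5) (.ch (nat_lit 4) (.ev (nat_lit 52) (nat_lit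
 1096056832) (.ev (nat_lit 384) (nat_lit 34463230226) .dd))) (.ch (nat_lit 5) (.ev (nat_lit 52) (nat_lit
 1144160512) (.ev (nat_lit 276) (nat_lit 16777216) (.ev (nat_lit 576) (nat_lit 34398349330) .dd))))) (.br
 (nat_lit 9) (.ch (nat_lit 6) (.ev (nat_lit 52) (nat_lit 103088386) (.ev (nat_lit 340) (nat_lit 4194304) (.ev
 (nat_lit 372) (nat_lit 8192) (.ev (nat_lit 436) (nat_lit 16777216) (.ev (nat_lit 596) (nat_lit 34359738368)
 (.ev (nat_lit 692) (nat_lit 131072) (.ev (nat_lit 756) (nat_lit 2048) (.ev (nat_lit 1044) (nat_lit 16) (.nd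
 (nat_lit 1168) (.br (nat_lit 5) (.br (nat_lit 1) (.ch (nat_lit 0) (.ev (nat_lit 1184) (nat_lit 1074823168)
 (.ev (nat_lit 1197) (nat_lit 524288) .dd))) (.br (nat_lit 2) (.ch (nat_lit 1) (.ev (nat_lit 1184) (nat_lit
 1572864) (.nd (nat_lit 1472) (.br (nat_lit 6) (.br (nat_lit 2) (.ch (nat_lit 1) (.fin (nat_lit
 576440411330396738))) (.br (nat_lit 3) (.ch (nat_lit 2) (.ev (nat_lit 1488) (nat_lit 1073774592) .dd)) (.ch
 (nat_lit 3) (.ev (nat_lit 1488) (nat_lit 32768) (.ev (nat_lit 1501) (nat_lit 1073741824) .dd))))) (.br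
 (nat_lit 9) (.br (nat_lit 8) (.ch (nat_lit 6) (.ev (nat_lit 1488) (nat_lit 1073741824) (.ev (nat_lit 1501)
 (nat_lit 32768) .dd))) (.ch (nat_lit 8) (.ev (nat_lit 1488) (nat_lit 1073741824) (.ev (nat_lit 1501) (nat_lit
 32768) .dd)))) (.br (nat_lit 12) (.ch (nat_lit 9) (.ev (nat_lit 1488) (nat_lit 1073774592) .dd)) (.ch (nat_lit
 12) (.ev (nat_lit 1488) (nat_lit 32768) (.ev (nat_lit 1501) (nat_lit 1073741824) .dd))))))))) (.ch (nat_lit 2)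
 (.ev (nat_lit 1184) (nat_lit 1073774592) (.nd (nat_lit 1472) (.br (nat_lit 5) (.br (nat_lit 1) (.ch (nat_lit
 0) (.ev (nat_lit 1488) (nat_lit 1572864) .dd)) (.br (nat_lit 4) (.ch (nat_lit 1) (.ev (nat_lit 1488) (nat_lit
 1048576) (.ev (nat_lit 1501) (nat_lit 524288) .dd))) (.ch (nat_lit 4) (.ev (nat_lit 1488) (nat_lit 1572864)
 .dd)))) (.br (nat_lit 6) (.ch (nat_lit 5) (.ev (nat_lit 1488) (nat_lit 524288) (.ev (nat_lit 1501) (nat_lit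
 1048576) .dd))) (.br (nat_lit 10) (.ch (nat_lit 6) (.ev (nat_lit 1780) (nat_lit 524288) (.ev (nat_lit 1789)
 (nat_lit 1048576) .dd))) (.ch (nat_lit 10) (.ev (nat_lit 1488) (nat_lit 524288) (.ev (nat_lit 1501) (nat_lit
 1048576) .dd))))))))))) (.br (nat_lit 6) (.ch (nat_lit 5) (.ev (nat_lit 1184) (nat_lit 1073741824) (.nd
 (nat_lit 1472) (.br (nat_lit 4) (.br (nat_lit 2) (.ch (nat_lit 0) (.ev (nat_lit 1488) (nat_lit 557056) (.ev
 (nat_lit 1501) (nat_lit 1048576) .dd))) (.ch (nat_lit 2) (.ev (nat_lit 1488) (nat_lit 1081344) (.ev (nat_lit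
 1501) (nat_lit 524288) .dd)))) (.br (nat_lit 8) (.ch (nat_lit 4) (.ev (nat_lit 1488) (nat_lit 32768) (.ev
 (nat_lit 1648) (nat_lit 1572864) .dd))) (.br (nat_lit 10) (.ch (nat_lit 8) (.ev (nat_lit 1488) (nat_lit
 524288) (.ev (nat_lit 1540) (nat_lit 32768) (.ev (nat_lit 1549) (nat_lit 1048576) .dd)))) (.ch (nat_lit 10)
 (.ev (nat_lit 1488) (nat_lit 1048576) (.ev (nat_lit 1600) (nat_lit 557056) .dd))))))))) (.br (nat_lit 9) (.ch
 (nat_lit 6) (.ev (nat_lit 1184) (nat_lit 1073741824) (.nd (nat_lit 1472) (.br (nat_lit 7) (.br (nat_lit 3)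
 (.ch (nat_lit 1) (.ev (nat_lit 1488) (nat_lit 1048576) (.ev (nat_lit 1636) (nat_lit 32768) (.ev (nat_lit 1645)
 (nat_lit 524288) .dd)))) (.br (nat_lit 6) (.ch (nat_lit 3) (.ev (nat_lit 1488) (nat_lit 557056) (.ev (nat_lit
 1501) (nat_lit 1048576) .dd))) (.ch (nat_lit 6) (.ev (nat_lit 1540) (nat_lit 32768) (.ev (nat_lit 1680)
 (nat_lit 1048576) (.ev (nat_lit 1693) (nat_lit 524288) .dd)))))) (.br (nat_lit 9) (.ch (nat_lit 7) (.ev
 (nat_lit 1488) (nat_lit 32768) (.nd (nat_lit 3168) (.br (nat_lit 12) (.ch (nat_lit 11) (.ev (nat_lit 3184)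
 (nat_lit 1048576) (.ev (nat_lit 3197) (nat_lit 524288) .dd))) (.ch (nat_lit 12) (.fin (nat_lit
 576452505965642295))))))) (.br (nat_lit 10) (.ch (nat_lit 9) (.ev (nat_lit 1488) (nat_lit 1081344) (.ev
 (nat_lit 1501) (nat_lit 524288) .dd))) (.ch (nat_lit 10) (.ev (nat_lit 1552) (nat_lit 1048576) (.ev (nat_lit
 1940) (nat_lit 32768) (.ev (nat_lit 1949) (nat_lit 524288) .dd)))))))))) (.ch (nat_lit 9) (.ev (nat_lit 1184)
 (nat_lit 32768) (.nd (nat_lit 1472) (.br (nat_lit 10) (.br (nat_lit 3) (.ch (nat_lit 0) (.ev (nat_lit 1488)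
 (nat_lit 1074266112) (.ev (nat_lit 1501) (nat_lit 1048576) .dd))) (.br (nat_lit 9) (.ch (nat_lit 3) (.ev
 (nat_lit 1488) (nat_lit 1074266112) (.ev (nat_lit 1501) (nat_lit 1048576) .dd))) (.ch (nat_lit 9) (.ev
 (nat_lit 1488) (nat_lit 524288) (.ev (nat_lit 1648) (nat_lit 1073741824) (.ev (nat_lit 1661) (nat_lit 1048576)
 .dd)))))) (.br (nat_lit 11) (.ch (nat_lit 10) (.ev (nat_lit 1488) (nat_lit 1074790400) (.ev (nat_lit 1501)
 (nat_lit 524288) .dd))) (.br (nat_lit 12) (.ch (nat_lit 11) (.ev (nat_lit 1488) (nat_lit 1074790400) (.ev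
 (nat_lit 1501) (nat_lit 524288) .dd))) (.ch (nat_lit 12) (.ev (nat_lit 1488) (nat_lit 1074790400) (.ev
 (nat_lit 1501) (nat_lit 524288) .dd)))))))))))))))))))))) (.ch (nat_lit 9) (.ev (nat_lit 52) (nat_lit
 34361321488) (.ev (nat_lit 308) (nat_lit 67108864) (.ev (nat_lit 340) (nat_lit 131072) (.ev (nat_lit 564)
 (nat_lit 262144) (.ev (nat_lit 756) (nat_lit 256) (.nd (nat_lit 1168) (.br (nat_lit 5) (.br (nat_lit 2) (.ch
 (nat_lit 1) (.ev (nat_lit 1184) (nat_lit 20971520) (.nd (nat_lit 1472) (.br (nat_lit 8) (.br (nat_lit 2) (.ch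
 (nat_lit 1) (.ev (nat_lit 1488) (nat_lit 2129922) (.ev (nat_lit 1540) (nat_lit 65536) (.ev (nat_lit 1728)
 (nat_lit 1073741824) (.ev (nat_lit 1741) (nat_lit 33554432) .dd))))) (.br (nat_lit 3) (.ch (nat_lit 2) (.ev
 (nat_lit 1488) (nat_lit 35717122) (.ev (nat_lit 1540) (nat_lit 1073741824) (.ev (nat_lit 1549) (nat_lit 32768)
 .dd)))) (.ch (nat_lit 3) (.ev (nat_lit 1488) (nat_lit 1109426178) (.ev (nat_lit 1501) (nat_lit 65536) .dd)))))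
 (.br (nat_lit 9) (.ch (nat_lit 8) (.ev (nat_lit 1488) (nat_lit 1107296258) (.ev (nat_lit 1540) (nat_lit 65536)
 (.ev (nat_lit 1568) (nat_lit 2097152) (.ev (nat_lit 1581) (nat_lit 32768) .dd))))) (.br (nat_lit 10) (.ch
 (nat_lit 9) (.ev (nat_lit 1488) (nat_lit 1107329024) (.ev (nat_lit 1860) (nat_lit 65536) (.ev (nat_lit 1940)
 (nat_lit 2097152) (.ev (nat_lit 1949) (nat_lit 2) .dd))))) (.ch (nat_lit 10) (.ev (nat_lit 1488) (nat_lit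
 1107296258) (.ev (nat_lit 1780) (nat_lit 65536) (.ev (nat_lit 1940) (nat_lit 2097152) (.ev (nat_lit 1949)
 (nat_lit 32768) .dd))))))))))) (.br (nat_lit 4) (.ch (nat_lit 2) (.ev (nat_lit 1184) (nat_lit 1109426178) (.nd
 (nat_lit 1472) (.br (nat_lit 4) (.br (nat_lit 1) (.ch (nat_lit 0) (.ev (nat_lit 1488) (nat_lit 4259840) (.ev
 (nat_lit 1501) (nat_lit 16777216) .dd))) (.br (nat_lit 3) (.ch (nat_lit 1) (.ev (nat_lit 1488) (nat_lit
 4259840) (.ev (nat_lit 1501) (nat_lit 16777216) .dd))) (.ch (nat_lit 3) (.ev (nat_lit 1488) (nat_lit 4194304)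
 (.ev (nat_lit 1860) (nat_lit 65536) (.ev (nat_lit 1869) (nat_lit 16777216) .dd)))))) (.br (nat_lit 7) (.ch
 (nat_lit 4) (.ev (nat_lit 1488) (nat_lit 21037056) .dd)) (.br (nat_lit 10) (.ch (nat_lit 7) (.ev (nat_lit
 1488) (nat_lit 21037056) .dd)) (.ch (nat_lit 10) (.ev (nat_lit 1488) (nat_lit 65536) (.ev (nat_lit 2196)
 (nat_lit 4194304) (.ev (nat_lit 2205) (nat_lit 16777216) .dd)))))))))) (.ch (nat_lit 4) (.ev (nat_lit 1184)
 (nat_lit 6389760) (.nd (nat_lit 1472) (.br (nat_lit 6) (.br (nat_lit 4) (.ch (nat_lit 3) (.ev (nat_lit 1488)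
 (nat_lit 1107296258) (.ev (nat_lit 1501) (nat_lit 16777216) .dd))) (.br (nat_lit 5) (.ch (nat_lit 4) (.ev
 (nat_lit 1488) (nat_lit 33554434) (.ev (nat_lit 1552) (nat_lit 1073741824) (.ev (nat_lit 1565) (nat_lit
 16777216) .dd)))) (.ch (nat_lit 5) (.ev (nat_lit 1488) (nat_lit 2) (.ev (nat_lit 1540) (nat_lit 1107296256)
 (.ev (nat_lit 1549) (nat_lit 16777216) .dd)))))) (.br (nat_lit 8) (.ch (nat_lit 6) (.ev (nat_lit 1488)
 (nat_lit 1090519042) (.ev (nat_lit 1501) (nat_lit 33554432) .dd))) (.br (nat_lit 12) (.ch (nat_lit 8) (.ev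
 (nat_lit 1488) (nat_lit 16777216) (.ev (nat_lit 1540) (nat_lit 1073741826) (.ev (nat_lit 1549) (nat_lit
 33554432) .dd)))) (.ch (nat_lit 12) (.ev (nat_lit 1488) (nat_lit 1124073472) (.ev (nat_lit 1501) (nat_lit 2)
 .dd))))))))))) (.br (nat_lit 9) (.br (nat_lit 6) (.ch (nat_lit 5) (.ev (nat_lit 1184) (nat_lit 1111490562)
 (.nd (nat_lit 1472) (.br (nat_lit 9) (.br (nat_lit 3) (.ch (nat_lit 2) (.ev (nat_lit 1488) (nat_lit 2129920)
 (.ev (nat_lit 1552) (nat_lit 16777216) (.ev (nat_lit 1565) (nat_lit 65536) .dd)))) (.br (nat_lit 8) (.ch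
 (nat_lit 3) (.ev (nat_lit 1488) (nat_lit 16842752) (.ev (nat_lit 1940) (nat_lit 32768) (.ev (nat_lit 1949)
 (nat_lit 2097152) .dd)))) (.ch (nat_lit 8) (.ev (nat_lit 1488) (nat_lit 2162688) (.ev (nat_lit 2212) (nat_lit
 32768) (.ev (nat_lit 2221) (nat_lit 16777216) .dd)))))) (.br (nat_lit 10) (.ch (nat_lit 9) (.ev (nat_lit 1540)
 (nat_lit 16875520) (.ev (nat_lit 1549) (nat_lit 2097152) .dd))) (.br (nat_lit 12) (.ch (nat_lit 10) (.ev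
 (nat_lit 1488) (nat_lit 16875520) (.ev (nat_lit 1501) (nat_lit 2097152) .dd))) (.ch (nat_lit 12) (.ev (nat_lit
 1488) (nat_lit 18939904) (.ev (nat_lit 1501) (nat_lit 32768) .dd))))))))) (.ch (nat_lit 6) (.ev (nat_lit 1184)
 (nat_lit 1113653250) (.nd (nat_lit 1472) (.br (nat_lit 7) (.br (nat_lit 3) (.ch (nat_lit 1) (.ev (nat_lit
 1488) (nat_lit 16777216) (.ev (nat_lit 1501) (nat_lit 32768) .dd))) (.br (nat_lit 4) (.ch (nat_lit 3) (.ev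
 (nat_lit 1488) (nat_lit 32768) (.ev (nat_lit 1501) (nat_lit 16777216) .dd))) (.ch (nat_lit 4) (.ev (nat_lit
 1488) (nat_lit 16777216) (.ev (nat_lit 1501) (nat_lit 32768) .dd))))) (.br (nat_lit 10) (.br (nat_lit 9) (.ch
 (nat_lit 7) (.ev (nat_lit 1488) (nat_lit 32768) (.ev (nat_lit 1501) (nat_lit 16777216) .dd))) (.ch (nat_lit 9)
 (.ev (nat_lit 1540) (nat_lit 32768) (.ev (nat_lit 1549) (nat_lit 16777216) .dd)))) (.br (nat_lit 11) (.ch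
 (nat_lit 10) (.ev (nat_lit 1540) (nat_lit 32768) (.ev (nat_lit 1549) (nat_lit 16777216) .dd))) (.ch (nat_lit
 11) (.fin (nat_lit 576461302059713087)))))))))) (.br (nat_lit 12) (.ch (nat_lit 9) (.ev (nat_lit 1184)
 (nat_lit 54591488) (.nd (nat_lit 1472) (.br (nat_lit 6) (.br (nat_lit 3) (.ch (nat_lit 0) (.ev (nat_lit 1488)
 (nat_lit 1073741826) (.ev (nat_lit 1552) (nat_lit 2097152) (.ev (nat_lit 1565) (nat_lit 32768) .dd)))) (.br
 (nat_lit 5) (.ch (nat_lit 3) (.ev (nat_lit 1488) (nat_lit 1073774592) (.nd (nat_lit 3168) (.br (nat_lit 8)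
 (.ch (nat_lit 5) (.fin (nat_lit 576470098163221046))) (.ch (nat_lit 8) (.ev (nat_lit 3184) (nat_lit 2097152)
 (.ev (nat_lit 3197) (nat_lit 2) .dd))))))) (.ch (nat_lit 5) (.ev (nat_lit 1488) (nat_lit 1075838978) (.ev
 (nat_lit 1501) (nat_lit 32768) .dd))))) (.br (nat_lit 8) (.ch (nat_lit 6) (.ev (nat_lit 1488) (nat_lit
 1073774592) (.ev (nat_lit 1716) (nat_lit 2097152) (.ev (nat_lit 1725) (nat_lit 2) .dd)))) (.br (nat_lit 12)
 (.ch (nat_lit 8) (.ev (nat_lit 1488) (nat_lit 2097152) (.ev (nat_lit 2084) (nat_lit 1073741824) (.ev (nat_lit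
 2228) (nat_lit 32768) (.ev (nat_lit 2237) (nat_lit 2) .dd))))) (.ch (nat_lit 12) (.ev (nat_lit 1488) (nat_lit
 1075871746) .dd)))))))) (.ch (nat_lit 12) (.ev (nat_lit 1184) (nat_lit 1075904514) (.nd (nat_lit 1472) (.br
 (nat_lit 7) (.br (nat_lit 1) (.ch (nat_lit 0) (.ev (nat_lit 1488) (nat_lit 54558720) .dd)) (.br (nat_lit 4)
 (.ch (nat_lit 1) (.ev (nat_lit 1488) (nat_lit 33554432) (.ev (nat_lit 1540) (nat_lit 4194304) (.ev (nat_lit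
 1636) (nat_lit 32768) (.ev (nat_lit 1645) (nat_lit 16777216) .dd))))) (.ch (nat_lit 4) (.ev (nat_lit 1488)
 (nat_lit 16777216) (.ev (nat_lit 1552) (nat_lit 32768) (.fin (nat_lit 576452505946767935))))))) (.br (nat_lit
 10) (.ch (nat_lit 7) (.ev (nat_lit 1488) (nat_lit 33554432) (.ev (nat_lit 1540) (nat_lit 32768) (.ev (nat_lit
 2004) (nat_lit 16777216) (.ev (nat_lit 2013) (nat_lit 4194304) .dd))))) (.br (nat_lit 12) (.ch (nat_lit 10)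
 (.ev (nat_lit 1488) (nat_lit 21004288) (.ev (nat_lit 1501) (nat_lit 33554432) .dd))) (.ch (nat_lit 12) (.ev
 (nat_lit 1488) (nat_lit 33587200) (.ev (nat_lit 1636) (nat_lit 16777216) (.ev (nat_lit 1645) (nat_lit 4194304)
 .dd)))))))))))))))))))))) (.br (nat_lit 12) (.br (nat_lit 11) (.ch (nat_lit 10) (.ev (nat_lit 52) (nat_lit
 1074792722) (.nd (nat_lit 1168) (.br (nat_lit 4) (.br (nat_lit 1) (.ch (nat_lit 0) (.ev (nat_lit 1184)
 (nat_lit 34382970880) (.nd (nat_lit 1472) (.br (nat_lit 8) (.br (nat_lit 4) (.ch (nat_lit 0) (.ev (nat_lit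
 1488) (nat_lit 100728832) (.ev (nat_lit 1520) (nat_lit 8192) (.fin (nat_lit 576459103028068901))))) (.br
 (nat_lit 5) (.ch (nat_lit 4) (.ev (nat_lit 1488) (nat_lit 101187584) (.ev (nat_lit 2116) (nat_lit 8192) (.ev
 (nat_lit 2336) (nat_lit 262144) (.ev (nat_lit 2349) (nat_lit 65536) .dd))))) (.ch (nat_lit 5) (.ev (nat_lit
 1488) (nat_lit 67379200) (.ev (nat_lit 1540) (nat_lit 34078720) (.ev (nat_lit 1549) (nat_lit 65536) .dd))))))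
 (.br (nat_lit 10) (.ch (nat_lit 8) (.ev (nat_lit 1488) (nat_lit 532480) (.ev (nat_lit 1920) (nat_lit 65536)
 (.ev (nat_lit 2368) (nat_lit 33554432) (.nd (nat_lit 3168) (.br (nat_lit 9) (.ch (nat_lit 5) (.fin (nat_lit
 576474496220217930))) (.ch (nat_lit 9) (.ev (nat_lit 3184) (nat_lit 262144) (.ev (nat_lit 3197) (nat_lit
 67108864) .dd))))))))) (.br (nat_lit 12) (.ch (nat_lit 10) (.ev (nat_lit 1488) (nat_lit 8192) (.ev (nat_lit
 1540) (nat_lit 786432) (.ev (nat_lit 2016) (nat_lit 67108864) (.ev (nat_lit 2736) (nat_lit 33619968) .dd)))))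
 (.ch (nat_lit 12) (.ev (nat_lit 1488) (nat_lit 33562624) (.ev (nat_lit 1680) (nat_lit 262144) (.ev (nat_lit
 1888) (nat_lit 65536) (.ev (nat_lit 2052) (nat_lit 67108864) (.ev (nat_lit 2061) (nat_lit 524288)
 .dd)))))))))))) (.br (nat_lit 2) (.ch (nat_lit 1) (.ev (nat_lit 1184) (nat_lit 84705280) (.nd (nat_lit 1472)
 (.br (nat_lit 3) (.br (nat_lit 1) (.ch (nat_lit 0) (.ev (nat_lit 1488) (nat_lit 35848192) (.ev (nat_lit 1636)
 (nat_lit 4194304) (.ev (nat_lit 1760) (nat_lit 8192) (.ev (nat_lit 1773) (nat_lit 34359738368) .dd))))) (.br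
 (nat_lit 2) (.ch (nat_lit 1) (.ev (nat_lit 1488) (nat_lit 33693696) (.ev (nat_lit 1540) (nat_lit 34359738368)
 (.ev (nat_lit 1888) (nat_lit 65536) (.fin (nat_lit 576483292235645538)))))) (.ch (nat_lit 2) (.ev (nat_lit
 1488) (nat_lit 34399584256) (.ev (nat_lit 2404) (nat_lit 65536) (.ev (nat_lit 2982) (nat_lit 139264) .dd))))))
 (.br (nat_lit 6) (.ch (nat_lit 3) (.ev (nat_lit 1488) (nat_lit 34366029824) (.ev (nat_lit 1920) (nat_lit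
 65536) (.ev (nat_lit 2004) (nat_lit 33554432) (.nd (nat_lit 3168) (.br (nat_lit 11) (.ch (nat_lit 2) (.fin
 (nat_lit 576472297183330885))) (.ch (nat_lit 11) (.ev (nat_lit 3184) (nat_lit 139264) .dd)))))))) (.br
 (nat_lit 12) (.ch (nat_lit 6) (.ev (nat_lit 1488) (nat_lit 34361843712) (.ev (nat_lit 1728) (nat_lit 131072)
 (.ev (nat_lit 1860) (nat_lit 65536) (.ev (nat_lit 1984) (nat_lit 4194304) (.ev (nat_lit 1997) (nat_lit
 33554432) .dd)))))) (.ch (nat_lit 12) (.ev (nat_lit 1488) (nat_lit 34361843712) (.ev (nat_lit 2096) (nat_lit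
 4325376) (.ev (nat_lit 2548) (nat_lit 65536) (.ev (nat_lit 2557) (nat_lit 33554432) .dd))))))))))) (.ch
 (nat_lit 2) (.ev (nat_lit 1184) (nat_lit 34413060096) (.nd (nat_lit 1472) (.br (nat_lit 4) (.br (nat_lit 3)
 (.ch (nat_lit 0) (.ev (nat_lit 1488) (nat_lit 67108864) (.ev (nat_lit 1540) (nat_lit 131072) (.ev (nat_lit
 1549) (nat_lit 4194304) .dd)))) (.ch (nat_lit 3) (.ev (nat_lit 1488) (nat_lit 67108864) (.ev (nat_lit 1552)
 (nat_lit 131072) (.ev (nat_lit 1565) (nat_lit 4194304) .dd))))) (.br (nat_lit 5) (.ch (nat_lit 4) (.ev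
 (nat_lit 1488) (nat_lit 4325376) (.ev (nat_lit 1501) (nat_lit 67108864) .dd))) (.br (nat_lit 7) (.ch (nat_lit
 5) (.ev (nat_lit 1716) (nat_lit 4194304) (.ev (nat_lit 1780) (nat_lit 131072) (.ev (nat_lit 1789) (nat_lit
 67108864) .dd)))) (.ch (nat_lit 7) (.ev (nat_lit 1488) (nat_lit 71434240) .dd)))))))))) (.br (nat_lit 5) (.ch
 (nat_lit 4) (.ev (nat_lit 1184) (nat_lit 34366914560) (.nd (nat_lit 1472) (.br (nat_lit 9) (.br (nat_lit 5)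
 (.ch (nat_lit 3) (.ev (nat_lit 1488) (nat_lit 50462720) (.ev (nat_lit 2436) (nat_lit 67108864) (.ev (nat_lit
 2445) (nat_lit 8192) .dd)))) (.br (nat_lit 8) (.ch (nat_lit 5) (.ev (nat_lit 1488) (nat_lit 16777216) (.ev
 (nat_lit 1940) (nat_lit 139264) (.ev (nat_lit 2468) (nat_lit 67108864) (.ev (nat_lit 2477) (nat_lit 33554432)
 .dd))))) (.ch (nat_lit 8) (.ev (nat_lit 1488) (nat_lit 16916480) (.ev (nat_lit 1680) (nat_lit 100663296)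
 .dd))))) (.br (nat_lit 11) (.ch (nat_lit 9) (.ev (nat_lit 1488) (nat_lit 16908288) (.ev (nat_lit 2004)
 (nat_lit 33554432) (.nd (nat_lit 3168) (.br (nat_lit 11) (.ch (nat_lit 9) (.ev (nat_lit 3184) (nat_lit 8192)
 (.ev (nat_lit 3197) (nat_lit 67108864) .dd))) (.ch (nat_lit 11) (.fin (nat_lit 576453605455250015)))))))) (.br
 (nat_lit 12) (.ch (nat_lit 11) (.ev (nat_lit 1488) (nat_lit 131072) (.ev (nat_lit 1540) (nat_lit 8192) (.ev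
 (nat_lit 1636) (nat_lit 16777216) (.ev (nat_lit 1920) (nat_lit 67108864) (.ev (nat_lit 1933) (nat_lit
 33554432) .dd)))))) (.ch (nat_lit 12) (.ev (nat_lit 1488) (nat_lit 83894272) (.ev (nat_lit 1504) (nat_lit
 131072) (.ev (nat_lit 1517) (nat_lit 33554432) .dd)))))))))) (.br (nat_lit 9) (.ch (nat_lit 5) (.ev (nat_lit
 1184) (nat_lit 34380873728) (.ev (nat_lit 1204) (nat_lit 67108864) (.nd (nat_lit 1472) (.br (nat_lit 8) (.br
 (nat_lit 2) (.ch (nat_lit 0) (.ev (nat_lit 1488) (nat_lit 786432) (.ev (nat_lit 1540) (nat_lit 8192) (.ev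
 (nat_lit 2052) (nat_lit 33554432) (.fin (nat_lit 576487690313613910)))))) (.br (nat_lit 3) (.ch (nat_lit 2)
 (.ev (nat_lit 1488) (nat_lit 2433024) (.ev (nat_lit 1636) (nat_lit 524288) (.ev (nat_lit 1645) (nat_lit
 33554432) .dd)))) (.ch (nat_lit 3) (.ev (nat_lit 1488) (nat_lit 589824) (.ev (nat_lit 1780) (nat_lit 33562624)
 (.ev (nat_lit 2016) (nat_lit 2097152) (.ev (nat_lit 2029) (nat_lit 262144) .dd))))))) (.br (nat_lit 10) (.ch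
 (nat_lit 8) (.ev (nat_lit 1488) (nat_lit 2433024) (.ev (nat_lit 1552) (nat_lit 524288) (.ev (nat_lit 1565)
 (nat_lit 33554432) .dd)))) (.br (nat_lit 11) (.ch (nat_lit 10) (.ev (nat_lit 1488) (nat_lit 598016) (.ev
 (nat_lit 1540) (nat_lit 33554432) (.ev (nat_lit 1716) (nat_lit 262144) (.ev (nat_lit 1725) (nat_lit 2097152)
 .dd))))) (.ch (nat_lit 11) (.ev (nat_lit 1488) (nat_lit 35725312) (.ev (nat_lit 1540) (nat_lit 524288) (.ev
 (nat_lit 1549) (nat_lit 262144) .dd))))))))))) (.ch (nat_lit 9) (.ev (nat_lit 1184) (nat_lit 34380914688) (.nd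
 (nat_lit 1472) (.br (nat_lit 6) (.br (nat_lit 3) (.ch (nat_lit 0) (.ev (nat_lit 1488) (nat_lit 2129920) (.ev
 (nat_lit 1540) (nat_lit 67108864) (.ev (nat_lit 1636) (nat_lit 524288) (.ev (nat_lit 1952) (nat_lit 33554432)
 (.ev (nat_lit 1965) (nat_lit 262144) .dd)))))) (.br (nat_lit 5) (.ch (nat_lit 3) (.ev (nat_lit 1488) (nat_lit
 34111488) (.ev (nat_lit 1636) (nat_lit 67371008) (.ev (nat_lit 1645) (nat_lit 2097152) .dd)))) (.ch (nat_lit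
 5) (.ev (nat_lit 1488) (nat_lit 103579648) .dd)))) (.br (nat_lit 10) (.br (nat_lit 9) (.ch (nat_lit 6) (.ev
 (nat_lit 1488) (nat_lit 100925440) (.ev (nat_lit 1540) (nat_lit 524288) (.fin (nat_lit 576668010220569246)))))
 (.ch (nat_lit 9) (.ev (nat_lit 1488) (nat_lit 69730304) (.ev (nat_lit 1860) (nat_lit 262144) (.fin (nat_lit
 576486590829249101)))))) (.br (nat_lit 12) (.ch (nat_lit 10) (.ev (nat_lit 1488) (nat_lit 67928064) (.ev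
 (nat_lit 1648) (nat_lit 35651584) .dd))) (.ch (nat_lit 12) (.ev (nat_lit 1488) (nat_lit 35913728) (.ev
 (nat_lit 1540) (nat_lit 67108864) (.ev (nat_lit 1636) (nat_lit 524288) (.ev (nat_lit 1645) (nat_lit 32768)
 .dd))))))))))))))))) (.ch (nat_lit 11) (.ev (nat_lit 52) (nat_lit 1107296514) (.ev (nat_lit 84) (nat_lit
 262144) (.ev (nat_lit 320) (nat_lit 34451728400) .dd))))) (.br (nat_lit 15) (.ch (nat_lit 12) (.ev (nat_lit
 52) (nat_lit 1093404928) (.ev (nat_lit 84) (nat_lit 67108864) (.ev (nat_lit 500) (nat_lit 2) (.ev (nat_lit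
 884) (nat_lit 16) (.nd (nat_lit 1168) (.br (nat_lit 6) (.br (nat_lit 2) (.ch (nat_lit 1) (.ev (nat_lit 1184)
 (nat_lit 34643968) (.nd (nat_lit 1472) (.br (nat_lit 8) (.br (nat_lit 6) (.ch (nat_lit 0) (.ev (nat_lit 1488)
 (nat_lit 196608) (.ev (nat_lit 1636) (nat_lit 4194304) (.ev (nat_lit 1645) (nat_lit 34359738368) .dd)))) (.ch
 (nat_lit 6) (.ev (nat_lit 1488) (nat_lit 34359738368) (.ev (nat_lit 1540) (nat_lit 131072) (.ev (nat_lit 1860)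
 (nat_lit 65536) (.ev (nat_lit 1869) (nat_lit 4194304) .dd)))))) (.br (nat_lit 10) (.ch (nat_lit 8) (.ev
 (nat_lit 1488) (nat_lit 34363932672) (.ev (nat_lit 1716) (nat_lit 131072) (.ev (nat_lit 1725) (nat_lit 65536)
 .dd)))) (.ch (nat_lit 10) (.ev (nat_lit 1488) (nat_lit 4390912) (.ev (nat_lit 1501) (nat_lit 34359738368)
 .dd)))))))) (.br (nat_lit 4) (.ch (nat_lit 2) (.ev (nat_lit 1184) (nat_lit 34359910400) (.nd (nat_lit 1472)
 (.br (nat_lit 5) (.br (nat_lit 3) (.ch (nat_lit 1) (.ev (nat_lit 1488) (nat_lit 5308416) (.ev (nat_lit 1501)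
 (nat_lit 33554432) .dd))) (.ch (nat_lit 3) (.ev (nat_lit 1488) (nat_lit 33619968) (.ev (nat_lit 1728) (nat_lit
 5242880) .dd)))) (.br (nat_lit 11) (.ch (nat_lit 5) (.ev (nat_lit 1488) (nat_lit 33554432) (.ev (nat_lit 1540)
 (nat_lit 1048576) (.ev (nat_lit 1940) (nat_lit 65536) (.ev (nat_lit 1949) (nat_lit 4194304) .dd))))) (.ch
 (nat_lit 11) (.ev (nat_lit 1488) (nat_lit 5242880) (.ev (nat_lit 1636) (nat_lit 65536) (.ev (nat_lit 1645)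
 (nat_lit 33554432) .dd))))))))) (.ch (nat_lit 4) (.ev (nat_lit 1184) (nat_lit 34365210624) (.nd (nat_lit 1472)
 (.br (nat_lit 9) (.br (nat_lit 5) (.ch (nat_lit 0) (.ev (nat_lit 1488) (nat_lit 33554432) (.ev (nat_lit 1501)
 (nat_lit 8192) .dd))) (.br (nat_lit 8) (.ch (nat_lit 5) (.ev (nat_lit 1488) (nat_lit 33554432) (.ev (nat_lit
 1501) (nat_lit 8192) .dd))) (.ch (nat_lit 8) (.ev (nat_lit 1488) (nat_lit 8192) (.ev (nat_lit 1501) (nat_lit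
 33554432) .dd))))) (.br (nat_lit 11) (.ch (nat_lit 9) (.ev (nat_lit 1488) (nat_lit 8192) (.ev (nat_lit 1501)
 (nat_lit 33554432) .dd))) (.br (nat_lit 12) (.ch (nat_lit 11) (.ev (nat_lit 1716) (nat_lit 8192) (.ev (nat_lit
 1725) (nat_lit 33554432) .dd))) (.ch (nat_lit 12) (.ev (nat_lit 1488) (nat_lit 8192) (.ev (nat_lit 1501)
 (nat_lit 33554432) .dd))))))))))) (.br (nat_lit 10) (.ch (nat_lit 6) (.ev (nat_lit 1184) (nat_lit 33619968)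
 (.nd (nat_lit 1472) (.br (nat_lit 9) (.br (nat_lit 4) (.ch (nat_lit 3) (.ev (nat_lit 1488) (nat_lit 40960)
 (.ev (nat_lit 1716) (nat_lit 4194304) (.ev (nat_lit 1780) (nat_lit 131072) (.ev (nat_lit 1824) (nat_lit
 34359738368) (.ev (nat_lit 1837) (nat_lit 1048576) .dd)))))) (.br (nat_lit 6) (.ch (nat_lit 4) (.ev (nat_lit
 1488) (nat_lit 34365112320) (.ev (nat_lit 1540) (nat_lit 32768) (.ev (nat_lit 1549) (nat_lit 8192) .dd))))
 (.ch (nat_lit 6) (.ev (nat_lit 1488) (nat_lit 34363973632) (.ev (nat_lit 1540) (nat_lit 131072) (.ev (nat_lit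
 1549) (nat_lit 1048576) .dd)))))) (.br (nat_lit 11) (.ch (nat_lit 9) (.ev (nat_lit 1488) (nat_lit 34365022208)
 (.ev (nat_lit 1501) (nat_lit 131072) .dd))) (.br (nat_lit 12) (.ch (nat_lit 11) (.ev (nat_lit 1488) (nat_lit
 34364071936) (.ev (nat_lit 1568) (nat_lit 32768) (.ev (nat_lit 1581) (nat_lit 1048576) .dd)))) (.ch (nat_lit
 12) (.ev (nat_lit 1488) (nat_lit 34365145088) (.ev (nat_lit 1501) (nat_lit 8192) .dd))))))))) (.br (nat_lit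
 12) (.ch (nat_lit 10) (.ev (nat_lit 1184) (nat_lit 34363932672) (.nd (nat_lit 1472) (.br (nat_lit 7) (.br
 (nat_lit 2) (.ch (nat_lit 0) (.ev (nat_lit 1488) (nat_lit 34701312) (.ev (nat_lit 1568) (nat_lit 8192) (.ev
 (nat_lit 1581) (nat_lit 131072) .dd)))) (.br (nat_lit 5) (.ch (nat_lit 2) (.ev (nat_lit 1488) (nat_lit
 33792000) (.ev (nat_lit 1501) (nat_lit 1048576) .dd))) (.ch (nat_lit 5) (.ev (nat_lit 1488) (nat_lit 33660928)
 (.ev (nat_lit 1540) (nat_lit 131072) (.ev (nat_lit 1549) (nat_lit 1048576) .dd)))))) (.br (nat_lit 8) (.ch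
 (nat_lit 7) (.ev (nat_lit 1488) (nat_lit 34799616) (.ev (nat_lit 1540) (nat_lit 8192) (.ev (nat_lit 1549)
 (nat_lit 32768) .dd)))) (.br (nat_lit 12) (.ch (nat_lit 8) (.ev (nat_lit 1488) (nat_lit 40960) (.ev (nat_lit
 1540) (nat_lit 33554432) (.ev (nat_lit 1780) (nat_lit 65536) (.ev (nat_lit 1860) (nat_lit 131072) (.ev
 (nat_lit 1869) (nat_lit 1048576) .dd)))))) (.ch (nat_lit 12) (.ev (nat_lit 1488) (nat_lit 34807808) (.ev
 (nat_lit 1501) (nat_lit 32768) .dd))))))))) (.ch (nat_lit 12) (.ev (nat_lit 1184) (nat_lit 39002112) (.nd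
 (nat_lit 1472) (.br (nat_lit 9) (.br (nat_lit 1) (.ch (nat_lit 0) (.ev (nat_lit 1488) (nat_lit 32768) (.ev
 (nat_lit 1501) (nat_lit 34359738368) .dd))) (.br (nat_lit 4) (.ch (nat_lit 1) (.ev (nat_lit 1488) (nat_lit
 32768) (.ev (nat_lit 1501) (nat_lit 34359738368) .dd))) (.ch (nat_lit 4) (.ev (nat_lit 1824) (nat_lit
 34359771136) .dd)))) (.br (nat_lit 10) (.ch (nat_lit 9) (.ev (nat_lit 1488) (nat_lit 34359738368) (.ev
 (nat_lit 1501) (nat_lit 32768) .dd))) (.br (nat_lit 11) (.ch (nat_lit 10) (.ev (nat_lit 1488) (nat_lit 32768)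
 (.ev (nat_lit 1501) (nat_lit 34359738368) .dd))) (.ch (nat_lit 11) (.ev (nat_lit 1716) (nat_lit 32768) (.ev
 (nat_lit 1725) (nat_lit 34359738368) .dd)))))))))))))))))) (.ch (nat_lit 15) (.ev (nat_lit 52) (nat_lit
 20226050) (.ev (nat_lit 340) (nat_lit 34359738368) (.ev (nat_lit 500) (nat_lit 2048) (.ev (nat_lit 1152)
 (nat_lit 1073741824) (.nd (nat_lit 1168) (.br (nat_lit 6) (.br (nat_lit 5) (.ch (nat_lit 2) (.ev (nat_lit
 1184) (nat_lit 256) (.nd (nat_lit 1472) (.br (nat_lit 6) (.br (nat_lit 3) (.ch (nat_lit 1) (.ev (nat_lit 1488)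
 (nat_lit 71499792) (.fin (nat_lit 576437112816484923)))) (.br (nat_lit 4) (.ch (nat_lit 3) (.ev (nat_lit 1488)
 (nat_lit 67239936) (.ev (nat_lit 1540) (nat_lit 4194304) (.ev (nat_lit 1680) (nat_lit 524288) (.ev (nat_lit
 1728) (nat_lit 16) (.ev (nat_lit 1968) (nat_lit 33619968) .dd)))))) (.ch (nat_lit 4) (.ev (nat_lit 1488)
 (nat_lit 37814288) (.ev (nat_lit 1716) (nat_lit 67108864) (.ev (nat_lit 1792) (nat_lit 131072) (.ev (nat_lit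
 1805) (nat_lit 524288) .dd))))))) (.br (nat_lit 7) (.ch (nat_lit 6) (.ev (nat_lit 1488) (nat_lit 71499792)
 (.ev (nat_lit 1568) (nat_lit 34078720) .dd))) (.br (nat_lit 11) (.ch (nat_lit 7) (.ev (nat_lit 1488) (nat_lit
 104923152) (.ev (nat_lit 1780) (nat_lit 131072) (.ev (nat_lit 1789) (nat_lit 524288) .dd)))) (.ch (nat_lit 11)
 (.ev (nat_lit 1488) (nat_lit 4718608) (.ev (nat_lit 1540) (nat_lit 65536) (.ev (nat_lit 1716) (nat_lit 131072)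
 (.fin (nat_lit 576445908887487021)))))))))))) (.ch (nat_lit 5) (.ev (nat_lit 1184) (nat_lit 71958544) (.nd
 (nat_lit 1472) (.br (nat_lit 4) (.br (nat_lit 3) (.ch (nat_lit 0) (.ev (nat_lit 1488) (nat_lit 65536) (.ev
 (nat_lit 1716) (nat_lit 33554432) (.ev (nat_lit 1725) (nat_lit 256) .dd)))) (.ch (nat_lit 3) (.ev (nat_lit
 1488) (nat_lit 33620224) .dd))) (.br (nat_lit 10) (.ch (nat_lit 4) (.ev (nat_lit 1488) (nat_lit 33554688) (.ev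
 (nat_lit 1501) (nat_lit 65536) .dd))) (.br (nat_lit 12) (.ch (nat_lit 10) (.ev (nat_lit 1488) (nat_lit 65536)
 (.ev (nat_lit 1540) (nat_lit 33554432) (.ev (nat_lit 1549) (nat_lit 256) .dd)))) (.ch (nat_lit 12) (.ev
 (nat_lit 1488) (nat_lit 65792) (.ev (nat_lit 1501) (nat_lit 33554432) .dd)))))))))) (.br (nat_lit 9) (.ch
 (nat_lit 6) (.ev (nat_lit 1184) (nat_lit 34144512) (.nd (nat_lit 1472) (.br (nat_lit 7) (.br (nat_lit 3) (.ch
 (nat_lit 1) (.ev (nat_lit 1488) (nat_lit 67239936) (.ev (nat_lit 1648) (nat_lit 4194304) (.ev (nat_lit 1661)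
 (nat_lit 16) .dd)))) (.br (nat_lit 4) (.ch (nat_lit 3) (.ev (nat_lit 1488) (nat_lit 4194320) (.ev (nat_lit
 1792) (nat_lit 67108864) (.ev (nat_lit 1805) (nat_lit 131072) .dd)))) (.ch (nat_lit 4) (.ev (nat_lit 1488)
 (nat_lit 4194320) (.ev (nat_lit 1716) (nat_lit 67108864) (.ev (nat_lit 1725) (nat_lit 131072) .dd)))))) (.br
 (nat_lit 9) (.ch (nat_lit 7) (.ev (nat_lit 1488) (nat_lit 71434256) .dd)) (.br (nat_lit 10) (.ch (nat_lit 9)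
 (.ev (nat_lit 1488) (nat_lit 4325392) (.ev (nat_lit 1501) (nat_lit 67108864) .dd))) (.ch (nat_lit 10) (.ev
 (nat_lit 1488) (nat_lit 71434256) .dd)))))))) (.br (nat_lit 12) (.ch (nat_lit 9) (.ev (nat_lit 1184) (nat_lit
 71500048) (.nd (nat_lit 1472) (.br (nat_lit 8) (.br (nat_lit 5) (.ch (nat_lit 3) (.ev (nat_lit 1488) (nat_lit
 34078720) .dd)) (.ch (nat_lit 5) (.ev (nat_lit 1488) (nat_lit 524288) (.ev (nat_lit 1501) (nat_lit 33554432)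
 .dd)))) (.br (nat_lit 9) (.ch (nat_lit 8) (.ev (nat_lit 1488) (nat_lit 34078720) .dd)) (.br (nat_lit 11) (.ch
 (nat_lit 9) (.ev (nat_lit 1488) (nat_lit 524288) (.ev (nat_lit 1501) (nat_lit 33554432) .dd))) (.ch (nat_lit
 11) (.ev (nat_lit 1540) (nat_lit 33554432) (.ev (nat_lit 1549) (nat_lit 524288) .dd))))))))) (.ch (nat_lit 12)
 (.ev (nat_lit 1184) (nat_lit 34144512) (.nd (nat_lit 1472) (.br (nat_lit 9) (.br (nat_lit 7) (.ch (nat_lit 4)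
 (.ev (nat_lit 1488) (nat_lit 67108880) (.ev (nat_lit 1540) (nat_lit 4194304) (.ev (nat_lit 1549) (nat_lit
 131072) .dd)))) (.ch (nat_lit 7) (.ev (nat_lit 1488) (nat_lit 71434256) .dd))) (.br (nat_lit 11) (.ch (nat_lit
 9) (.ev (nat_lit 1488) (nat_lit 71434256) .dd)) (.br (nat_lit 12) (.ch (nat_lit 11) (.ev (nat_lit 1488)
 (nat_lit 4325376) (.ev (nat_lit 1540) (nat_lit 16) (.ev (nat_lit 1549) (nat_lit 67108864) .dd)))) (.ch
 (nat_lit 12) (.ev (nat_lit 1488) (nat_lit 67239936) (.fin (nat_lit 576483292277588566))))))))))))))))))))))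
 (.br (nat_lit 22) (.br (nat_lit 18) (.br (nat_lit 17) (.ch (nat_lit 16) (.ev (nat_lit 52) (nat_lit 105906176)
 (.ev (nat_lit 468) (nat_lit 262144) (.ev (nat_lit 532) (nat_lit 256) (.ev (nat_lit 660) (nat_lit 34359738368)
 (.nd (nat_lit 1168) (.br (nat_lit 4) (.br (nat_lit 1) (.ch (nat_lit 0) (.ev (nat_lit 1184) (nat_lit 17006608)
 (.nd (nat_lit 1472) (.br (nat_lit 5) (.br (nat_lit 2) (.ch (nat_lit 0) (.ev (nat_lit 1488) (nat_lit
 1074276354) (.ev (nat_lit 1501) (nat_lit 2097152) .dd))) (.br (nat_lit 4) (.ch (nat_lit 2) (.ev (nat_lit 1488)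
 (nat_lit 1074276352) (.ev (nat_lit 1520) (nat_lit 2) (.ev (nat_lit 1533) (nat_lit 2097152) .dd)))) (.ch
 (nat_lit 4) (.ev (nat_lit 1488) (nat_lit 2) (.ev (nat_lit 1648) (nat_lit 8192) (.ev (nat_lit 1860) (nat_lit
 1073741824) (.ev (nat_lit 2064) (nat_lit 524288) (.nd (nat_lit 3200) (.ch (nat_lit 1) (.nd (nat_lit 3233) (.ch
 (nat_lit 16) (.nd (nat_lit 3264) (.br (nat_lit 5) (.ch (nat_lit 2) (.ev (nat_lit 3280) (nat_lit 2099200) .dd))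
 (.ch (nat_lit 5) (.fin (nat_lit 576439311831351890)))))))))))))))) (.br (nat_lit 6) (.ch (nat_lit 5) (.ev
 (nat_lit 1488) (nat_lit 1075847168) (.ev (nat_lit 2004) (nat_lit 524288) (.fin (nat_lit
 576465700107272739))))) (.br (nat_lit 8) (.ch (nat_lit 6) (.ev (nat_lit 1488) (nat_lit 1075841026) (.ev
 (nat_lit 1540) (nat_lit 8192) (.ev (nat_lit 1549) (nat_lit 524288) .dd)))) (.ch (nat_lit 8) (.ev (nat_lit
 1488) (nat_lit 1075847168) (.ev (nat_lit 1860) (nat_lit 2) (.nd (nat_lit 3168) (.br (nat_lit 11) (.ch (nat_lit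
 10) (.ev (nat_lit 3184) (nat_lit 526336) .dd)) (.ch (nat_lit 11) (.fin (nat_lit
 576412923558576642)))))))))))))) (.br (nat_lit 2) (.ch (nat_lit 1) (.ev (nat_lit 1184) (nat_lit 19408912) (.nd
 (nat_lit 1472) (.br (nat_lit 3) (.br (nat_lit 1) (.ch (nat_lit 0) (.ev (nat_lit 1488) (nat_lit 229376) (.ev
 (nat_lit 1540) (nat_lit 1073741824) (.ev (nat_lit 1549) (nat_lit 2) .dd)))) (.br (nat_lit 2) (.ch (nat_lit 1)
 (.ev (nat_lit 1488) (nat_lit 196610) (.fin (nat_lit 576440411330396738)))) (.ch (nat_lit 2) (.ev (nat_lit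
 1488) (nat_lit 1073741826) (.ev (nat_lit 1636) (nat_lit 65536) (.ev (nat_lit 1648) (nat_lit 32768) (.ev
 (nat_lit 1661) (nat_lit 131072) .dd))))))) (.br (nat_lit 6) (.ch (nat_lit 3) (.ev (nat_lit 1488) (nat_lit
 163842) (.ev (nat_lit 1552) (nat_lit 65536) (.ev (nat_lit 1565) (nat_lit 1073741824) .dd)))) (.br (nat_lit 9)
 (.ch (nat_lit 6) (.ev (nat_lit 1488) (nat_lit 1073774592) (.ev (nat_lit 1540) (nat_lit 65536) (.ev (nat_lit
 1716) (nat_lit 2) (.ev (nat_lit 1725) (nat_lit 131072) .dd))))) (.ch (nat_lit 9) (.ev (nat_lit 1488) (nat_lit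
 1073840128) (.ev (nat_lit 1860) (nat_lit 131072) (.ev (nat_lit 1869) (nat_lit 2) .dd)))))))))) (.ch (nat_lit
 2) (.ev (nat_lit 1184) (nat_lit 1092853762) (.nd (nat_lit 1472) (.br (nat_lit 5) (.br (nat_lit 3) (.ch
 (nat_lit 0) (.ev (nat_lit 1636) (nat_lit 524288) (.ev (nat_lit 1716) (nat_lit 2048) (.ev (nat_lit 1725)
 (nat_lit 16) .dd)))) (.br (nat_lit 4) (.ch (nat_lit 3) (.ev (nat_lit 1488) (nat_lit 524304) (.ev (nat_lit
 1501) (nat_lit 2048) .dd))) (.ch (nat_lit 4) (.ev (nat_lit 1488) (nat_lit 16) (.ev (nat_lit 1636) (nat_lit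
 2048) (.ev (nat_lit 1645) (nat_lit 524288) .dd)))))) (.br (nat_lit 10) (.br (nat_lit 7) (.ch (nat_lit 5) (.ev
 (nat_lit 1488) (nat_lit 524304) (.ev (nat_lit 1501) (nat_lit 2048) .dd))) (.ch (nat_lit 7) (.ev (nat_lit 1488)
 (nat_lit 2048) (.ev (nat_lit 1552) (nat_lit 524288) (.ev (nat_lit 1565) (nat_lit 16) .dd))))) (.br (nat_lit
 11) (.ch (nat_lit 10) (.ev (nat_lit 1488) (nat_lit 524288) (.ev (nat_lit 1636) (nat_lit 2048) (.ev (nat_lit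
 1645) (nat_lit 16) .dd)))) (.ch (nat_lit 11) (.ev (nat_lit 1488) (nat_lit 526352) .dd)))))))))) (.br (nat_lit
 9) (.br (nat_lit 5) (.ch (nat_lit 4) (.ev (nat_lit 1184) (nat_lit 2727938) (.nd (nat_lit 1472) (.br (nat_lit
 8) (.br (nat_lit 4) (.ch (nat_lit 0) (.ev (nat_lit 1488) (nat_lit 16908288) (.ev (nat_lit 1540) (nat_lit 16)
 (.ev (nat_lit 1636) (nat_lit 2048) (.ev (nat_lit 1645) (nat_lit 1073741824) .dd))))) (.br (nat_lit 5) (.ch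
 (nat_lit 4) (.ev (nat_lit 1488) (nat_lit 133136) (.ev (nat_lit 1540) (nat_lit 16777216) (.ev (nat_lit 1549)
 (nat_lit 1073741824) .dd)))) (.ch (nat_lit 5) (.ev (nat_lit 1488) (nat_lit 1073872912) (.ev (nat_lit 1636)
 (nat_lit 2048) (.ev (nat_lit 1645) (nat_lit 16777216) .dd)))))) (.br (nat_lit 9) (.ch (nat_lit 8) (.ev
 (nat_lit 1488) (nat_lit 16910352) (.ev (nat_lit 1501) (nat_lit 1073741824) .dd))) (.br (nat_lit 11) (.ch
 (nat_lit 9) (.ev (nat_lit 1488) (nat_lit 1090519040) (.ev (nat_lit 1552) (nat_lit 2048) (.ev (nat_lit 1636)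
 (nat_lit 131072) (.ev (nat_lit 1645) (nat_lit 16) .dd))))) (.ch (nat_lit 11) (.ev (nat_lit 1488) (nat_lit
 1073874960) (.ev (nat_lit 1501) (nat_lit 16777216) .dd))))))))) (.ch (nat_lit 5) (.ev (nat_lit 1184) (nat_lit
 1074405394) (.nd (nat_lit 1472) (.br (nat_lit 8) (.br (nat_lit 3) (.ch (nat_lit 0) (.ev (nat_lit 1488)
 (nat_lit 67584) (.ev (nat_lit 1716) (nat_lit 2097152) (.nd (nat_lit 3168) (.br (nat_lit 10) (.ch (nat_lit 0)
 (.ev (nat_lit 3184) (nat_lit 16777216) (.ev (nat_lit 3197) (nat_lit 32768) .dd))) (.ch (nat_lit 10) (.fin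
 (nat_lit 576298574229750342)))))))) (.br (nat_lit 4) (.ch (nat_lit 3) (.ev (nat_lit 1488) (nat_lit 16875520)
 (.ev (nat_lit 1540) (nat_lit 2048) (.ev (nat_lit 1549) (nat_lit 2097152) .dd)))) (.ch (nat_lit 4) (.ev
 (nat_lit 1488) (nat_lit 18974720) .dd)))) (.br (nat_lit 10) (.ch (nat_lit 8) (.ev (nat_lit 1488) (nat_lit
 2097152) (.ev (nat_lit 1540) (nat_lit 16777216) (.ev (nat_lit 1940) (nat_lit 2048) (.ev (nat_lit 2116)
 (nat_lit 65536) (.ev (nat_lit 2125) (nat_lit 32768) .dd)))))) (.br (nat_lit 11) (.ch (nat_lit 10) (.ev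
 (nat_lit 1488) (nat_lit 16844800) (.ev (nat_lit 1860) (nat_lit 2097152) (.ev (nat_lit 1869) (nat_lit 32768)
 .dd)))) (.ch (nat_lit 11) (.ev (nat_lit 1488) (nat_lit 2195456) (.ev (nat_lit 1860) (nat_lit 16777216) (.ev
 (nat_lit 1869) (nat_lit 2048) .dd))))))))))) (.br (nat_lit 10) (.ch (nat_lit 9) (.ev (nat_lit 1184) (nat_lit
 1076594688) (.nd (nat_lit 1472) (.br (nat_lit 9) (.br (nat_lit 3) (.ch (nat_lit 0) (.ev (nat_lit 1488)
 (nat_lit 16785410) (.ev (nat_lit 1501) (nat_lit 16) .dd))) (.br (nat_lit 6) (.ch (nat_lit 3) (.ev (nat_lit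
 1488) (nat_lit 8192) (.ev (nat_lit 1636) (nat_lit 16) (.ev (nat_lit 1940) (nat_lit 2) (.ev (nat_lit 1949)
 (nat_lit 16777216) .dd))))) (.ch (nat_lit 6) (.ev (nat_lit 1488) (nat_lit 16785424) (.ev (nat_lit 1501)
 (nat_lit 2) .dd))))) (.br (nat_lit 10) (.ch (nat_lit 9) (.ev (nat_lit 1488) (nat_lit 8192) (.ev (nat_lit 1716)
 (nat_lit 16) (.nd (nat_lit 3168) (.br (nat_lit 5) (.ch (nat_lit 1) (.ev (nat_lit 3184) (nat_lit 2) (.ev
 (nat_lit 3197) (nat_lit 16777216) .dd))) (.ch (nat_lit 5) (.fin (nat_lit 576448107934859836)))))))) (.br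
 (nat_lit 12) (.ch (nat_lit 10) (.ev (nat_lit 1488) (nat_lit 8194) (.ev (nat_lit 2436) (nat_lit 16777216) (.ev
 (nat_lit 2445) (nat_lit 16) .dd)))) (.ch (nat_lit 12) (.ev (nat_lit 1488) (nat_lit 16777218) (.ev (nat_lit
 1636) (nat_lit 16) (.ev (nat_lit 1645) (nat_lit 8192) .dd)))))))))) (.ch (nat_lit 10) (.ev (nat_lit 1184)
 (nat_lit 1091043346) (.nd (nat_lit 1472) (.br (nat_lit 7) (.br (nat_lit 5) (.ch (nat_lit 0) (.ev (nat_lit
 1488) (nat_lit 229376) (.ev (nat_lit 1540) (nat_lit 8192) (.ev (nat_lit 1552) (nat_lit 2097152) (.ev (nat_lit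
 1565) (nat_lit 2048) .dd))))) (.br (nat_lit 6) (.ch (nat_lit 5) (.ev (nat_lit 1488) (nat_lit 2334720) (.ev
 (nat_lit 1501) (nat_lit 2048) .dd))) (.ch (nat_lit 6) (.ev (nat_lit 1488) (nat_lit 198656) (.ev (nat_lit 1540)
 (nat_lit 8192) (.ev (nat_lit 1940) (nat_lit 2097152) (.ev (nat_lit 1949) (nat_lit 32768) .dd))))))) (.br
 (nat_lit 9) (.br (nat_lit 8) (.ch (nat_lit 7) (.ev (nat_lit 1488) (nat_lit 2203648) (.ev (nat_lit 1716)
 (nat_lit 2048) (.ev (nat_lit 1725) (nat_lit 131072) .dd)))) (.ch (nat_lit 8) (.ev (nat_lit 1488) (nat_lit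
 2138112) (.ev (nat_lit 1860) (nat_lit 196608) (.ev (nat_lit 1869) (nat_lit 2048) .dd))))) (.br (nat_lit 12)
 (.ch (nat_lit 9) (.ev (nat_lit 1488) (nat_lit 2236416) (.ev (nat_lit 1540) (nat_lit 2048) (.ev (nat_lit 1568)
 (nat_lit 65536) (.ev (nat_lit 1581) (nat_lit 32768) .dd))))) (.ch (nat_lit 12) (.ev (nat_lit 1488) (nat_lit
 133120) (.ev (nat_lit 1540) (nat_lit 73728) (.ev (nat_lit 1636) (nat_lit 32768) (.ev (nat_lit 1645) (nat_lit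
 2097152) .dd)))))))))))))))))))) (.ch (nat_lit 17) (.ev (nat_lit 52) (nat_lit 34362107904) (.ev (nat_lit 340)
 (nat_lit 16777216) (.ev (nat_lit 660) (nat_lit 1073741824) (.ev (nat_lit 724) (nat_lit 256) (.ev (nat_lit 884)
 (nat_lit 163840) (.nd (nat_lit 1168) (.br (nat_lit 2) (.br (nat_lit 1) (.ch (nat_lit 0) (.ev (nat_lit 1184)
 (nat_lit 71303186) (.nd (nat_lit 1472) (.br (nat_lit 6) (.br (nat_lit 5) (.ch (nat_lit 4) (.ev (nat_lit 1488)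
 (nat_lit 35192832) .dd)) (.ch (nat_lit 5) (.ev (nat_lit 1488) (nat_lit 34603008) (.ev (nat_lit 1780) (nat_lit
 65536) (.ev (nat_lit 1789) (nat_lit 524288) .dd))))) (.br (nat_lit 7) (.ch (nat_lit 6) (.ev (nat_lit 1488)
 (nat_lit 33619968) (.ev (nat_lit 1540) (nat_lit 1048576) (.ev (nat_lit 1549) (nat_lit 524288) .dd)))) (.br
 (nat_lit 10) (.ch (nat_lit 7) (.ev (nat_lit 1488) (nat_lit 35192832) .dd)) (.ch (nat_lit 10) (.ev (nat_lit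
 1488) (nat_lit 1572864) (.ev (nat_lit 1780) (nat_lit 65536) (.ev (nat_lit 1789) (nat_lit 33554432)
 .dd)))))))))) (.ch (nat_lit 1) (.ev (nat_lit 1184) (nat_lit 35192850) (.nd (nat_lit 1472) (.br (nat_lit 8)
 (.br (nat_lit 6) (.ch (nat_lit 0) (.ev (nat_lit 1488) (nat_lit 4194304) (.ev (nat_lit 1501) (nat_lit 67108864)
 .dd))) (.ch (nat_lit 6) (.ev (nat_lit 1488) (nat_lit 71303168) .dd))) (.br (nat_lit 9) (.ch (nat_lit 8) (.ev
 (nat_lit 1488) (nat_lit 4194304) (.ev (nat_lit 1501) (nat_lit 67108864) .dd))) (.br (nat_lit 12) (.ch (nat_lit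
 9) (.ev (nat_lit 1488) (nat_lit 71303168) .dd)) (.ch (nat_lit 12) (.ev (nat_lit 1648) (nat_lit 4194304) (.ev
 (nat_lit 1661) (nat_lit 67108864) .dd)))))))))) (.br (nat_lit 4) (.ch (nat_lit 2) (.ev (nat_lit 1184) (nat_lit
 2) (.nd (nat_lit 1472) (.br (nat_lit 5) (.br (nat_lit 4) (.ch (nat_lit 0) (.ev (nat_lit 1488) (nat_lit
 100728832) (.ev (nat_lit 1568) (nat_lit 4194304) (.ev (nat_lit 1728) (nat_lit 1048576) (.ev (nat_lit 1780)
 (nat_lit 16) (.ev (nat_lit 1789) (nat_lit 524288) .dd)))))) (.ch (nat_lit 4) (.ev (nat_lit 1488) (nat_lit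
 38797328) (.ev (nat_lit 1636) (nat_lit 67108864) (.ev (nat_lit 1860) (nat_lit 65536) (.ev (nat_lit 1869)
 (nat_lit 524288) .dd)))))) (.br (nat_lit 10) (.ch (nat_lit 5) (.ev (nat_lit 1488) (nat_lit 68747264) (.ev
 (nat_lit 1540) (nat_lit 33554432) (.ev (nat_lit 1568) (nat_lit 4194320) .dd)))) (.br (nat_lit 11) (.ch
 (nat_lit 10) (.ev (nat_lit 1488) (nat_lit 35192832) (.ev (nat_lit 2004) (nat_lit 16) (.fin (nat_lit
 576472297155019319))))) (.ch (nat_lit 11) (.ev (nat_lit 1488) (nat_lit 5767184) (.ev (nat_lit 1780) (nat_lit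
 65536) (.fin (nat_lit 576476695234036307))))))))))) (.br (nat_lit 10) (.ch (nat_lit 4) (.ev (nat_lit 1184)
 (nat_lit 39387136) (.nd (nat_lit 1472) (.br (nat_lit 8) (.br (nat_lit 6) (.ch (nat_lit 4) (.ev (nat_lit 1488)
 (nat_lit 67108880) (.ev (nat_lit 1501) (nat_lit 2) .dd))) (.ch (nat_lit 6) (.ev (nat_lit 1488) (nat_lit 18)
 (.ev (nat_lit 1501) (nat_lit 67108864) .dd)))) (.br (nat_lit 11) (.ch (nat_lit 8) (.ev (nat_lit 1488) (nat_lit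
 18) (.ev (nat_lit 1501) (nat_lit 67108864) .dd))) (.br (nat_lit 12) (.ch (nat_lit 11) (.ev (nat_lit 1488)
 (nat_lit 18) (.ev (nat_lit 1501) (nat_lit 67108864) .dd))) (.ch (nat_lit 12) (.ev (nat_lit 1488) (nat_lit
 67108864) (.ev (nat_lit 1552) (nat_lit 2) (.ev (nat_lit 1565) (nat_lit 16) .dd)))))))))) (.ch (nat_lit 10)
 (.ev (nat_lit 1184) (nat_lit 71303186) (.nd (nat_lit 1472) (.br (nat_lit 8) (.br (nat_lit 6) (.ch (nat_lit 0)
 (.ev (nat_lit 1488) (nat_lit 35192832) .dd)) (.br (nat_lit 7) (.ch (nat_lit 6) (.ev (nat_lit 1488) (nat_lit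
 589824) (.ev (nat_lit 1636) (nat_lit 33554432) (.ev (nat_lit 1645) (nat_lit 1048576) .dd)))) (.ch (nat_lit 7)
 (.ev (nat_lit 1488) (nat_lit 35192832) .dd)))) (.br (nat_lit 9) (.ch (nat_lit 8) (.ev (nat_lit 1488) (nat_lit
 589824) (.ev (nat_lit 1540) (nat_lit 33554432) (.ev (nat_lit 1549) (nat_lit 1048576) .dd)))) (.br (nat_lit 12)
 (.ch (nat_lit 9) (.ev (nat_lit 1488) (nat_lit 1638400) (.ev (nat_lit 1501) (nat_lit 33554432) .dd))) (.ch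
 (nat_lit 12) (.ev (nat_lit 1488) (nat_lit 34603008) (.ev (nat_lit 1648) (nat_lit 524288) (.ev (nat_lit 1661)
 (nat_lit 65536) .dd))))))))))))))))))))) (.br (nat_lit 21) (.ch (nat_lit 18) (.ev (nat_lit 52) (nat_lit
 34397620240) (.ev (nat_lit 416) (nat_lit 1161666818) .dd))) (.ch (nat_lit 21) (.ev (nat_lit 52) (nat_lit
 1141448706) (.ev (nat_lit 788) (nat_lit 262144) (.nd (nat_lit 1168) (.br (nat_lit 6) (.br (nat_lit 1) (.ch
 (nat_lit 0) (.ev (nat_lit 1184) (nat_lit 34380873744) (.nd (nat_lit 1472) (.br (nat_lit 7) (.br (nat_lit 4)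
 (.ch (nat_lit 2) (.ev (nat_lit 1488) (nat_lit 36700160) (.ev (nat_lit 2836) (nat_lit 2048) (.ev (nat_lit 2845)
 (nat_lit 256) .dd)))) (.br (nat_lit 5) (.ch (nat_lit 4) (.ev (nat_lit 1488) (nat_lit 33554432) (.ev (nat_lit
 1636) (nat_lit 1048832) (.fin (nat_lit 576483292290171438))))) (.ch (nat_lit 5) (.ev (nat_lit 1488) (nat_lit
 3145984) (.ev (nat_lit 2004) (nat_lit 33554432) (.ev (nat_lit 2013) (nat_lit 2048) .dd)))))) (.br (nat_lit 8)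
 (.ch (nat_lit 7) (.ev (nat_lit 1488) (nat_lit 36702208) (.ev (nat_lit 1501) (nat_lit 256) .dd))) (.br (nat_lit
 12) (.ch (nat_lit 8) (.ev (nat_lit 1540) (nat_lit 256) (.ev (nat_lit 1648) (nat_lit 2097152) (.ev (nat_lit
 1904) (nat_lit 2048) (.ev (nat_lit 1952) (nat_lit 1048576) (.ev (nat_lit 1965) (nat_lit 33554432) .dd))))))
 (.ch (nat_lit 12) (.ev (nat_lit 1488) (nat_lit 2048) (.ev (nat_lit 2468) (nat_lit 1048576) (.ev (nat_lit 2580)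
 (nat_lit 33554432) (.ev (nat_lit 2804) (nat_lit 256) (.ev (nat_lit 2813) (nat_lit 2097152) .dd))))))))))))
 (.br (nat_lit 5) (.ch (nat_lit 1) (.ev (nat_lit 1184) (nat_lit 17959184) (.nd (nat_lit 1472) (.br (nat_lit 6)
 (.br (nat_lit 2) (.ch (nat_lit 1) (.ev (nat_lit 1488) (nat_lit 32768) (.ev (nat_lit 1540) (nat_lit
 34359738368) (.ev (nat_lit 2672) (nat_lit 33554432) (.nd (nat_lit 3168) (.br (nat_lit 7) (.ch (nat_lit 5) (.ev
 (nat_lit 3184) (nat_lit 6291456) .dd)) (.ch (nat_lit 7) (.fin (nat_lit 576483292235645538))))))))) (.br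
 (nat_lit 3) (.ch (nat_lit 2) (.ev (nat_lit 1488) (nat_lit 34395389952) (.ev (nat_lit 2004) (nat_lit 4194304)
 (.ev (nat_lit 2013) (nat_lit 32768) .dd)))) (.ch (nat_lit 3) (.ev (nat_lit 1488) (nat_lit 34361868288) (.ev
 (nat_lit 2416) (nat_lit 37748736) .dd))))) (.br (nat_lit 8) (.ch (nat_lit 6) (.ev (nat_lit 1488) (nat_lit
 34366062592) (.ev (nat_lit 1501) (nat_lit 33554432) .dd))) (.br (nat_lit 9) (.ch (nat_lit 8) (.ev (nat_lit
 1488) (nat_lit 34399617024) .dd)) (.ch (nat_lit 9) (.ev (nat_lit 1488) (nat_lit 34397519872) (.ev (nat_lit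
 1501) (nat_lit 2097152) .dd))))))))) (.ch (nat_lit 5) (.ev (nat_lit 1184) (nat_lit 34366160912) (.ev (nat_lit
 1238) (nat_lit 1048576) (.nd (nat_lit 1472) (.br (nat_lit 10) (.br (nat_lit 4) (.ch (nat_lit 0) (.ev (nat_lit
 1488) (nat_lit 33554432) (.ev (nat_lit 1636) (nat_lit 256) (.ev (nat_lit 2932) (nat_lit 2048) (.nd (nat_lit
 3168) (.br (nat_lit 12) (.ch (nat_lit 10) (.fin (nat_lit 576624029891772986))) (.ch (nat_lit 12) (.ev (nat_lit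
 3184) (nat_lit 16809984) .dd)))))))) (.br (nat_lit 8) (.ch (nat_lit 4) (.ev (nat_lit 1488) (nat_lit 50333696)
 (.ev (nat_lit 2052) (nat_lit 32768) (.ev (nat_lit 2061) (nat_lit 256) .dd)))) (.ch (nat_lit 8) (.ev (nat_lit
 1488) (nat_lit 16779264) (.ev (nat_lit 1904) (nat_lit 33554432) (.ev (nat_lit 2148) (nat_lit 256) (.ev
 (nat_lit 2157) (nat_lit 32768) .dd))))))) (.br (nat_lit 11) (.ch (nat_lit 10) (.ev (nat_lit 1488) (nat_lit
 50366464) (.ev (nat_lit 1501) (nat_lit 256) .dd))) (.br (nat_lit 12) (.ch (nat_lit 11) (.ev (nat_lit 1488)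
 (nat_lit 35072) (.ev (nat_lit 1716) (nat_lit 16777216) (.ev (nat_lit 1725) (nat_lit 33554432) .dd)))) (.ch
 (nat_lit 12) (.ev (nat_lit 1488) (nat_lit 32768) (.ev (nat_lit 1552) (nat_lit 2048) (.ev (nat_lit 1648)
 (nat_lit 256) (.fin (nat_lit 576442610351555141))))))))))))))) (.br (nat_lit 9) (.ch (nat_lit 6) (.ev (nat_lit
 1184) (nat_lit 54561024) (.nd (nat_lit 1472) (.br (nat_lit 6) (.br (nat_lit 3) (.ch (nat_lit 1) (.ev (nat_lit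
 1488) (nat_lit 34359869456) (.ev (nat_lit 1636) (nat_lit 1048576) (.ev (nat_lit 1645) (nat_lit 2097152)
 .dd)))) (.ch (nat_lit 3) (.ev (nat_lit 1780) (nat_lit 131072) (.ev (nat_lit 1860) (nat_lit 16) (.ev (nat_lit
 2004) (nat_lit 34359738368) (.ev (nat_lit 2932) (nat_lit 2097152) (.ev (nat_lit 2941) (nat_lit 1048576)
 .dd))))))) (.br (nat_lit 7) (.ch (nat_lit 6) (.ev (nat_lit 1488) (nat_lit 34362884096) (.ev (nat_lit 1664)
 (nat_lit 131088) .dd))) (.br (nat_lit 12) (.ch (nat_lit 7) (.ev (nat_lit 1488) (nat_lit 1179664) (.ev (nat_lit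
 1504) (nat_lit 2097152) (.ev (nat_lit 1517) (nat_lit 34359738368) .dd)))) (.ch (nat_lit 12) (.ev (nat_lit
 1488) (nat_lit 34362884096) (.ev (nat_lit 1716) (nat_lit 131072) (.ev (nat_lit 1725) (nat_lit 16)
 .dd)))))))))) (.br (nat_lit 10) (.ch (nat_lit 9) (.ev (nat_lit 1184) (nat_lit 34382973200) (.nd (nat_lit 1472)
 (.br (nat_lit 8) (.br (nat_lit 5) (.ch (nat_lit 0) (.ev (nat_lit 1636) (nat_lit 33554432) (.ev (nat_lit 1645)
 (nat_lit 1048576) .dd))) (.br (nat_lit 6) (.ch (nat_lit 5) (.ev (nat_lit 1716) (nat_lit 1048576) (.ev (nat_lit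
 1725) (nat_lit 33554432) .dd))) (.ch (nat_lit 6) (.ev (nat_lit 1716) (nat_lit 33554432) (.ev (nat_lit 1725)
 (nat_lit 1048576) .dd))))) (.br (nat_lit 9) (.ch (nat_lit 8) (.ev (nat_lit 2004) (nat_lit 1048576) (.ev
 (nat_lit 2013) (nat_lit 33554432) .dd))) (.br (nat_lit 11) (.ch (nat_lit 9) (.ev (nat_lit 1488) (nat_lit
 33554432) (.ev (nat_lit 1501) (nat_lit 1048576) .dd))) (.ch (nat_lit 11) (.ev (nat_lit 1488) (nat_lit 1048576)
 (.ev (nat_lit 1501) (nat_lit 33554432) .dd))))))))) (.ch (nat_lit 10) (.ev (nat_lit 1184) (nat_lit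
 34380840976) (.nd (nat_lit 1472) (.br (nat_lit 5) (.br (nat_lit 2) (.ch (nat_lit 0) (.ev (nat_lit 1488)
 (nat_lit 34635776) (.ev (nat_lit 1540) (nat_lit 2048) (.ev (nat_lit 1780) (nat_lit 256) (.ev (nat_lit 1789)
 (nat_lit 2097152) .dd))))) (.br (nat_lit 3) (.ch (nat_lit 2) (.ev (nat_lit 1488) (nat_lit 2099200) (.ev
 (nat_lit 1540) (nat_lit 33554432) (.ev (nat_lit 1716) (nat_lit 1048576) (.fin (nat_lit
 576456904017396268)))))) (.ch (nat_lit 3) (.ev (nat_lit 1488) (nat_lit 1050624) (.ev (nat_lit 1940) (nat_lit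
 33587200) (.nd (nat_lit 3168) (.br (nat_lit 12) (.ch (nat_lit 10) (.ev (nat_lit 3184) (nat_lit 2097408) .dd))
 (.ch (nat_lit 12) (.fin (nat_lit 576439311844983365)))))))))) (.br (nat_lit 6) (.ch (nat_lit 5) (.ev (nat_lit
 1488) (nat_lit 2130176) (.ev (nat_lit 1540) (nat_lit 2048) (.ev (nat_lit 1940) (nat_lit 1048576) (.ev (nat_lit
 1949) (nat_lit 33554432) .dd))))) (.br (nat_lit 9) (.ch (nat_lit 6) (.ev (nat_lit 1488) (nat_lit 33024) (.ev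
 (nat_lit 1552) (nat_lit 2099200) (.ev (nat_lit 1664) (nat_lit 34603008) .dd)))) (.ch (nat_lit 9) (.ev (nat_lit
 1488) (nat_lit 2099456) (.ev (nat_lit 1940) (nat_lit 1048576) (.ev (nat_lit 2500) (nat_lit 33554432) (.ev
 (nat_lit 2509) (nat_lit 32768) .dd)))))))))))))))))))) (.br (nat_lit 26) (.br (nat_lit 24) (.ch (nat_lit 22)
 (.ev (nat_lit 52) (nat_lit 34400903170) (.ev (nat_lit 340) (nat_lit 32768) (.ev (nat_lit 596) (nat_lit 65536)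
 (.ev (nat_lit 980) (nat_lit 2048) (.ev (nat_lit 1088) (nat_lit 1073741824) (.nd (nat_lit 1168) (.br (nat_lit
 6) (.br (nat_lit 2) (.ch (nat_lit 0) (.ev (nat_lit 1184) (nat_lit 84541456) (.ev (nat_lit 1197) (nat_lit 256)
 .dd))) (.br (nat_lit 5) (.ch (nat_lit 2) (.ev (nat_lit 1184) (nat_lit 16777472) (.nd (nat_lit 1472) (.br
 (nat_lit 5) (.br (nat_lit 1) (.ch (nat_lit 0) (.ev (nat_lit 1488) (nat_lit 67239952) (.ev (nat_lit 1501)
 (nat_lit 524288) .dd))) (.br (nat_lit 4) (.ch (nat_lit 1) (.ev (nat_lit 1488) (nat_lit 67764240) .dd)) (.ch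
 (nat_lit 4) (.ev (nat_lit 1488) (nat_lit 655376) (.ev (nat_lit 1501) (nat_lit 67108864) .dd))))) (.br (nat_lit
 7) (.ch (nat_lit 5) (.ev (nat_lit 1488) (nat_lit 524288) (.ev (nat_lit 1648) (nat_lit 131072) (.ev (nat_lit
 1680) (nat_lit 67108864) (.ev (nat_lit 1693) (nat_lit 16) .dd))))) (.br (nat_lit 11) (.ch (nat_lit 7) (.ev
 (nat_lit 1488) (nat_lit 67633168) (.ev (nat_lit 1501) (nat_lit 131072) .dd))) (.ch (nat_lit 11) (.ev (nat_lit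
 1488) (nat_lit 655376) (.ev (nat_lit 1501) (nat_lit 67108864) .dd))))))))) (.ch (nat_lit 5) (.ev (nat_lit
 1184) (nat_lit 655376) (.nd (nat_lit 1472) (.br (nat_lit 9) (.br (nat_lit 4) (.ch (nat_lit 2) (.ev (nat_lit
 1780) (nat_lit 16777216) (.ev (nat_lit 1792) (nat_lit 256) (.ev (nat_lit 1805) (nat_lit 67108864) .dd)))) (.br
 (nat_lit 8) (.ch (nat_lit 4) (.ev (nat_lit 1488) (nat_lit 16777216) (.ev (nat_lit 1860) (nat_lit 256) (.ev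
 (nat_lit 1869) (nat_lit 67108864) .dd)))) (.ch (nat_lit 8) (.ev (nat_lit 1488) (nat_lit 83886336) .dd)))) (.br
 (nat_lit 10) (.ch (nat_lit 9) (.ev (nat_lit 1488) (nat_lit 67109120) (.ev (nat_lit 1501) (nat_lit 16777216)
 .dd))) (.br (nat_lit 12) (.ch (nat_lit 10) (.ev (nat_lit 1488) (nat_lit 16777216) (.ev (nat_lit 1792) (nat_lit
 256) (.ev (nat_lit 1805) (nat_lit 67108864) .dd)))) (.ch (nat_lit 12) (.ev (nat_lit 1780) (nat_lit 16777216)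
 (.ev (nat_lit 1860) (nat_lit 256) (.ev (nat_lit 1869) (nat_lit 67108864) .dd)))))))))))) (.br (nat_lit 9) (.ch
 (nat_lit 6) (.ev (nat_lit 1184) (nat_lit 524544) (.nd (nat_lit 1472) (.br (nat_lit 7) (.br (nat_lit 3) (.ch
 (nat_lit 1) (.ev (nat_lit 1488) (nat_lit 84017168) .dd)) (.br (nat_lit 6) (.ch (nat_lit 3) (.ev (nat_lit 1648)
 (nat_lit 16777216) (.ev (nat_lit 1716) (nat_lit 67108864) (.ev (nat_lit 1792) (nat_lit 16) (.ev (nat_lit 1805)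
 (nat_lit 131072) .dd))))) (.ch (nat_lit 6) (.ev (nat_lit 1488) (nat_lit 83886096) (.ev (nat_lit 1501) (nat_lit
 131072) .dd))))) (.br (nat_lit 10) (.ch (nat_lit 7) (.ev (nat_lit 1488) (nat_lit 84017168) .dd)) (.br (nat_lit
 11) (.ch (nat_lit 10) (.ev (nat_lit 1488) (nat_lit 67239952) (.ev (nat_lit 1501) (nat_lit 16777216) .dd)))
 (.ch (nat_lit 11) (.ev (nat_lit 1488) (nat_lit 67108880) (.ev (nat_lit 1636) (nat_lit 131072) (.ev (nat_lit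
 1645) (nat_lit 16777216) .dd)))))))))) (.br (nat_lit 10) (.ch (nat_lit 9) (.ev (nat_lit 1184) (nat_lit
 84017408) (.nd (nat_lit 1472) (.br (nat_lit 9) (.br (nat_lit 8) (.ch (nat_lit 5) (.ev (nat_lit 1488) (nat_lit
 16) (.ev (nat_lit 1501) (nat_lit 524288) .dd))) (.ch (nat_lit 8) (.fin (nat_lit 576474496182469210)))) (.br
 (nat_lit 10) (.ch (nat_lit 9) (.ev (nat_lit 1488) (nat_lit 524288) (.ev (nat_lit 1501) (nat_lit 16) .dd)))
 (.ch (nat_lit 10) (.ev (nat_lit 1488) (nat_lit 524304) .dd))))))) (.ch (nat_lit 10) (.ev (nat_lit 1184)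
 (nat_lit 83886096) (.ev (nat_lit 1204) (nat_lit 256) (.nd (nat_lit 1472) (.br (nat_lit 6) (.br (nat_lit 3)
 (.ch (nat_lit 2) (.ev (nat_lit 1488) (nat_lit 524288) (.ev (nat_lit 1501) (nat_lit 131072) .dd))) (.br
 (nat_lit 5) (.ch (nat_lit 3) (.ev (nat_lit 1488) (nat_lit 655360) .dd)) (.ch (nat_lit 5) (.ev (nat_lit 1488)
 (nat_lit 524288) (.ev (nat_lit 1501) (nat_lit 131072) .dd))))) (.br (nat_lit 8) (.ch (nat_lit 6) (.ev (nat_lit
 1488) (nat_lit 655360) .dd)) (.br (nat_lit 9) (.ch (nat_lit 8) (.ev (nat_lit 1716) (nat_lit 524288) (.ev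
 (nat_lit 1725) (nat_lit 131072) .dd))) (.ch (nat_lit 9) (.ev (nat_lit 1488) (nat_lit 655360)
 .dd))))))))))))))))))) (.ch (nat_lit 24) (.ev (nat_lit 52) (nat_lit 1093730560) (.ev (nat_lit 212) (nat_lit 2)
 (.ev (nat_lit 852) (nat_lit 67108864) (.nd (nat_lit 1168) (.br (nat_lit 6) (.br (nat_lit 2) (.ch (nat_lit 0)
 (.ev (nat_lit 1184) (nat_lit 34398183440) (.nd (nat_lit 1472) (.br (nat_lit 6) (.br (nat_lit 4) (.ch (nat_lit
 2) (.ev (nat_lit 1860) (nat_lit 2048) (.ev (nat_lit 1869) (nat_lit 262144) .dd))) (.br (nat_lit 5) (.ch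
 (nat_lit 4) (.ev (nat_lit 1488) (nat_lit 2048) (.ev (nat_lit 1501) (nat_lit 262144) .dd))) (.ch (nat_lit 5)
 (.ev (nat_lit 1488) (nat_lit 262144) (.ev (nat_lit 1501) (nat_lit 2048) .dd))))) (.br (nat_lit 10) (.ch
 (nat_lit 6) (.ev (nat_lit 1488) (nat_lit 262144) (.ev (nat_lit 1501) (nat_lit 2048) .dd))) (.br (nat_lit 12)
 (.ch (nat_lit 10) (.ev (nat_lit 1488) (nat_lit 2048) (.ev (nat_lit 1501) (nat_lit 262144) .dd))) (.ch (nat_lit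
 12) (.ev (nat_lit 1488) (nat_lit 2048) (.ev (nat_lit 1501) (nat_lit 262144) .dd))))))))) (.br (nat_lit 5) (.ch
 (nat_lit 2) (.ev (nat_lit 1184) (nat_lit 34360041472) (.nd (nat_lit 1472) (.br (nat_lit 4) (.br (nat_lit 1)
 (.ch (nat_lit 0) (.ev (nat_lit 1488) (nat_lit 33556480) (.ev (nat_lit 1540) (nat_lit 131072) (.ev (nat_lit
 1716) (nat_lit 16) (.ev (nat_lit 1780) (nat_lit 4194304) (.ev (nat_lit 1789) (nat_lit 524288) .dd)))))) (.br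
 (nat_lit 3) (.ch (nat_lit 1) (.ev (nat_lit 1488) (nat_lit 4851728) (.ev (nat_lit 1501) (nat_lit 33554432)
 .dd))) (.ch (nat_lit 3) (.ev (nat_lit 1488) (nat_lit 34078720) (.ev (nat_lit 1568) (nat_lit 2048) (.ev
 (nat_lit 1716) (nat_lit 131072) (.ev (nat_lit 1808) (nat_lit 4194320) .dd))))))) (.br (nat_lit 6) (.ch
 (nat_lit 4) (.ev (nat_lit 1488) (nat_lit 4718608) (.ev (nat_lit 1540) (nat_lit 2048) (.ev (nat_lit 1636)
 (nat_lit 33554432) (.ev (nat_lit 1645) (nat_lit 131072) .dd))))) (.br (nat_lit 7) (.ch (nat_lit 6) (.ev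
 (nat_lit 1488) (nat_lit 33687568) (.fin (nat_lit 576465700112515650)))) (.ch (nat_lit 7) (.ev (nat_lit 1488)
 (nat_lit 37881856) (.ev (nat_lit 1744) (nat_lit 524304) .dd))))))))) (.ch (nat_lit 5) (.ev (nat_lit 1184)
 (nat_lit 37922832) (.ev (nat_lit 1204) (nat_lit 262144) (.nd (nat_lit 1472) (.br (nat_lit 8) (.br (nat_lit 3)
 (.ch (nat_lit 2) (.ev (nat_lit 1488) (nat_lit 34360262656) .dd)) (.ch (nat_lit 3) (.ev (nat_lit 1728) (nat_lit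
 524288) (.ev (nat_lit 1741) (nat_lit 34359738368) .dd)))) (.br (nat_lit 12) (.ch (nat_lit 8) (.ev (nat_lit
 1488) (nat_lit 34360262656) .dd)) (.ch (nat_lit 12) (.ev (nat_lit 1728) (nat_lit 34360262656) .dd))))))))))
 (.br (nat_lit 9) (.ch (nat_lit 6) (.ev (nat_lit 1184) (nat_lit 34474000) (.nd (nat_lit 1472) (.br (nat_lit 11)
 (.br (nat_lit 10) (.ch (nat_lit 7) (.ev (nat_lit 1488) (nat_lit 4227072) (.ev (nat_lit 1716) (nat_lit 8192)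
 (.ev (nat_lit 1725) (nat_lit 34359738368) .dd)))) (.ch (nat_lit 10) (.ev (nat_lit 1488) (nat_lit 8192) (.ev
 (nat_lit 1552) (nat_lit 32768) (.ev (nat_lit 1792) (nat_lit 4194304) (.ev (nat_lit 1805) (nat_lit 34359738368)
 .dd)))))) (.br (nat_lit 12) (.ch (nat_lit 11) (.ev (nat_lit 1488) (nat_lit 34359779328) (.ev (nat_lit 1501)
 (nat_lit 4194304) .dd))) (.ch (nat_lit 12) (.ev (nat_lit 1488) (nat_lit 34363965440) (.ev (nat_lit 1501)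
 (nat_lit 8192) .dd)))))))) (.br (nat_lit 10) (.ch (nat_lit 9) (.ev (nat_lit 1184) (nat_lit 34364590096) (.nd
 (nat_lit 1472) (.br (nat_lit 9) (.br (nat_lit 3) (.ch (nat_lit 0) (.ev (nat_lit 1488) (nat_lit 8192) (.ev
 (nat_lit 1540) (nat_lit 294912) (.ev (nat_lit 1549) (nat_lit 33554432) .dd)))) (.br (nat_lit 5) (.ch (nat_lit
 3) (.ev (nat_lit 1488) (nat_lit 33587200) (.ev (nat_lit 1540) (nat_lit 8192) (.ev (nat_lit 1549) (nat_lit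
 262144) .dd)))) (.ch (nat_lit 5) (.ev (nat_lit 1488) (nat_lit 33816576) (.ev (nat_lit 1540) (nat_lit 32768)
 (.ev (nat_lit 1549) (nat_lit 8192) .dd)))))) (.br (nat_lit 10) (.ch (nat_lit 9) (.ev (nat_lit 1488) (nat_lit
 262144) (.ev (nat_lit 2448) (nat_lit 8192) (.fin (nat_lit 576486590829249101))))) (.br (nat_lit 11) (.ch
 (nat_lit 10) (.ev (nat_lit 1488) (nat_lit 303104) (.ev (nat_lit 1501) (nat_lit 33554432) .dd))) (.ch (nat_lit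
 11) (.ev (nat_lit 1488) (nat_lit 33587200) (.ev (nat_lit 1636) (nat_lit 262144) (.ev (nat_lit 1645) (nat_lit
 8192) .dd)))))))))) (.ch (nat_lit 10) (.ev (nat_lit 1184) (nat_lit 426000) (.nd (nat_lit 1472) (.br (nat_lit
 6) (.br (nat_lit 2) (.ch (nat_lit 0) (.ev (nat_lit 1488) (nat_lit 34397487104) (.ev (nat_lit 1636) (nat_lit
 2048) (.ev (nat_lit 1860) (nat_lit 524288) (.ev (nat_lit 1869) (nat_lit 8192) .dd))))) (.br (nat_lit 3) (.ch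
 (nat_lit 2) (.ev (nat_lit 1488) (nat_lit 34363942912) (.ev (nat_lit 1540) (nat_lit 524288) (.ev (nat_lit 1549)
 (nat_lit 33554432) .dd)))) (.ch (nat_lit 3) (.ev (nat_lit 1488) (nat_lit 34364467200) (.ev (nat_lit 1501)
 (nat_lit 33554432) .dd))))) (.br (nat_lit 7) (.ch (nat_lit 6) (.ev (nat_lit 1488) (nat_lit 34398011392) (.ev
 (nat_lit 1568) (nat_lit 10240) .dd))) (.br (nat_lit 9) (.ch (nat_lit 7) (.ev (nat_lit 1488) (nat_lit 34078720)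
 (.ev (nat_lit 1648) (nat_lit 4194304) (.ev (nat_lit 1680) (nat_lit 8192) (.ev (nat_lit 1716) (nat_lit
 34359738368) (.ev (nat_lit 1725) (nat_lit 2048) .dd)))))) (.ch (nat_lit 9) (.ev (nat_lit 1488) (nat_lit
 34360272896) (.ev (nat_lit 1780) (nat_lit 4194304) (.ev (nat_lit 1789) (nat_lit 33554432)
 .dd))))))))))))))))))) (.br (nat_lit 28) (.ch (nat_lit 26) (.ev (nat_lit 52) (nat_lit 1175488514) (.ev
 (nat_lit 244) (nat_lit 262144) (.ev (nat_lit 340) (nat_lit 65536) (.ev (nat_lit 660) (nat_lit 524288) (.ev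
 (nat_lit 864) (nat_lit 34382946576) .dd)))))) (.br (nat_lit 29) (.ch (nat_lit 28) (.ev (nat_lit 52) (nat_lit
 34363899922) (.ev (nat_lit 372) (nat_lit 2048) (.ev (nat_lit 436) (nat_lit 1073741824) (.ev (nat_lit 980)
 (nat_lit 256) (.ev (nat_lit 1012) (nat_lit 67108864) (.nd (nat_lit 1168) (.br (nat_lit 6) (.br (nat_lit 4)
 (.ch (nat_lit 0) (.ev (nat_lit 1184) (nat_lit 54525952) (.ev (nat_lit 1197) (nat_lit 8192) .dd))) (.br
 (nat_lit 5) (.ch (nat_lit 4) (.ev (nat_lit 1184) (nat_lit 16777216) (.nd (nat_lit 1472) (.br (nat_lit 9) (.br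
 (nat_lit 3) (.ch (nat_lit 0) (.ev (nat_lit 1488) (nat_lit 37748736) (.ev (nat_lit 1501) (nat_lit 8192) .dd)))
 (.br (nat_lit 5) (.ch (nat_lit 3) (.ev (nat_lit 1488) (nat_lit 33554432) (.nd (nat_lit 3168) (.br (nat_lit 12)
 (.ch (nat_lit 7) (.ev (nat_lit 3184) (nat_lit 4194304) (.ev (nat_lit 3197) (nat_lit 8192) .dd))) (.ch (nat_lit
 12) (.fin (nat_lit 576461302071247421))))))) (.ch (nat_lit 5) (.ev (nat_lit 1552) (nat_lit 4194304) (.ev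
 (nat_lit 1860) (nat_lit 33554432) (.ev (nat_lit 1869) (nat_lit 8192) .dd)))))) (.br (nat_lit 11) (.ch (nat_lit
 9) (.ev (nat_lit 1488) (nat_lit 33562624) (.ev (nat_lit 1501) (nat_lit 4194304) .dd))) (.br (nat_lit 12) (.ch
 (nat_lit 11) (.ev (nat_lit 1540) (nat_lit 33554432) (.ev (nat_lit 1716) (nat_lit 4194304) (.ev (nat_lit 1725)
 (nat_lit 8192) .dd)))) (.ch (nat_lit 12) (.ev (nat_lit 1488) (nat_lit 4194304) (.ev (nat_lit 1636) (nat_lit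
 33554432) (.ev (nat_lit 1645) (nat_lit 8192) .dd)))))))))) (.ch (nat_lit 5) (.ev (nat_lit 1184) (nat_lit
 4202496) (.nd (nat_lit 1472) (.br (nat_lit 8) (.br (nat_lit 2) (.ch (nat_lit 0) (.ev (nat_lit 1488) (nat_lit
 50331648) .dd)) (.br (nat_lit 4) (.ch (nat_lit 2) (.ev (nat_lit 1488) (nat_lit 33554432) (.ev (nat_lit 1501)
 (nat_lit 16777216) .dd))) (.ch (nat_lit 4) (.ev (nat_lit 1488) (nat_lit 50331648) .dd)))) (.br (nat_lit 11)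
 (.br (nat_lit 9) (.ch (nat_lit 8) (.ev (nat_lit 1488) (nat_lit 16777216) (.ev (nat_lit 1501) (nat_lit
 33554432) .dd))) (.ch (nat_lit 9) (.ev (nat_lit 1488) (nat_lit 33554432) (.ev (nat_lit 1501) (nat_lit
 16777216) .dd)))) (.br (nat_lit 12) (.ch (nat_lit 11) (.ev (nat_lit 1488) (nat_lit 16777216) (.ev (nat_lit
 1501) (nat_lit 33554432) .dd))) (.ch (nat_lit 12) (.fin (nat_lit 576442610351555141))))))))))) (.br (nat_lit
 10) (.ch (nat_lit 6) (.ev (nat_lit 1184) (nat_lit 33554432) (.nd (nat_lit 1472) (.br (nat_lit 7) (.br (nat_lit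
 3) (.ch (nat_lit 1) (.ev (nat_lit 1488) (nat_lit 16785408) (.ev (nat_lit 1501) (nat_lit 4194304) .dd))) (.br
 (nat_lit 4) (.ch (nat_lit 3) (.ev (nat_lit 1488) (nat_lit 16785408) (.ev (nat_lit 1501) (nat_lit 4194304)
 .dd))) (.ch (nat_lit 4) (.ev (nat_lit 1488) (nat_lit 20971520) (.ev (nat_lit 1501) (nat_lit 8192) .dd)))))
 (.br (nat_lit 9) (.ch (nat_lit 7) (.ev (nat_lit 1488) (nat_lit 8192) (.ev (nat_lit 1648) (nat_lit 16777216)
 (.ev (nat_lit 1661) (nat_lit 4194304) .dd)))) (.br (nat_lit 12) (.ch (nat_lit 9) (.ev (nat_lit 1488) (nat_lit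
 20971520) (.ev (nat_lit 1501) (nat_lit 8192) .dd))) (.ch (nat_lit 12) (.ev (nat_lit 1488) (nat_lit 20971520)
 (.ev (nat_lit 1501) (nat_lit 8192) .dd))))))))) (.br (nat_lit 12) (.ch (nat_lit 10) (.ev (nat_lit 1184)
 (nat_lit 50331648) (.nd (nat_lit 1472) (.br (nat_lit 7) (.br (nat_lit 2) (.ch (nat_lit 0) (.ev (nat_lit 1488)
 (nat_lit 4194304) (.ev (nat_lit 1501) (nat_lit 8192) .dd))) (.br (nat_lit 6) (.ch (nat_lit 2) (.ev (nat_lit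
 1488) (nat_lit 4202496) .dd)) (.ch (nat_lit 6) (.ev (nat_lit 1488) (nat_lit 8192) (.ev (nat_lit 1501) (nat_lit
 4194304) .dd))))) (.br (nat_lit 8) (.ch (nat_lit 7) (.ev (nat_lit 1488) (nat_lit 8192) (.ev (nat_lit 1501)
 (nat_lit 4194304) .dd))) (.br (nat_lit 12) (.ch (nat_lit 8) (.ev (nat_lit 1488) (nat_lit 4202496) .dd)) (.ch
 (nat_lit 12) (.ev (nat_lit 1860) (nat_lit 8192) (.ev (nat_lit 1869) (nat_lit 4194304) .dd))))))))) (.ch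
 (nat_lit 12) (.ev (nat_lit 1184) (nat_lit 16777216) (.nd (nat_lit 1472) (.br (nat_lit 7) (.br (nat_lit 1) (.ch
 (nat_lit 0) (.ev (nat_lit 1488) (nat_lit 33562624) (.ev (nat_lit 1501) (nat_lit 4194304) .dd))) (.ch (nat_lit
 1) (.ev (nat_lit 1488) (nat_lit 8192) (.ev (nat_lit 1540) (nat_lit 4194304) (.ev (nat_lit 1549) (nat_lit
 33554432) .dd))))) (.br (nat_lit 10) (.ch (nat_lit 7) (.ev (nat_lit 1488) (nat_lit 33554432) (.ev (nat_lit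
 1648) (nat_lit 4202496) .dd))) (.br (nat_lit 11) (.ch (nat_lit 10) (.ev (nat_lit 1488) (nat_lit 37748736) (.ev
 (nat_lit 1501) (nat_lit 8192) .dd))) (.ch (nat_lit 11) (.ev (nat_lit 1488) (nat_lit 4194304) (.ev (nat_lit
 1600) (nat_lit 33562624) .dd))))))))))))))))))) (.ch (nat_lit 29) (.ev (nat_lit 52) (nat_lit 33849616) (.ev
 (nat_lit 244) (nat_lit 67108864) (.ev (nat_lit 532) (nat_lit 2050) (.ev (nat_lit 628) (nat_lit 2097152) (.ev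
 (nat_lit 660) (nat_lit 4194304) (.nd (nat_lit 1168) (.br (nat_lit 9) (.br (nat_lit 4) (.ch (nat_lit 0) (.ev
 (nat_lit 1184) (nat_lit 35450920960) (.nd (nat_lit 1472) (.br (nat_lit 5) (.br (nat_lit 2) (.ch (nat_lit 0)
 (.ev (nat_lit 1488) (nat_lit 65536) (.ev (nat_lit 1501) (nat_lit 1048576) .dd))) (.br (nat_lit 4) (.ch
 (nat_lit 2) (.ev (nat_lit 1488) (nat_lit 65536) (.ev (nat_lit 1501) (nat_lit 1048576) .dd))) (.ch (nat_lit 4)
 (.ev (nat_lit 1552) (nat_lit 65536) (.ev (nat_lit 1565) (nat_lit 1048576) .dd))))) (.br (nat_lit 8) (.br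
 (nat_lit 7) (.ch (nat_lit 5) (.ev (nat_lit 1488) (nat_lit 1048576) (.ev (nat_lit 1501) (nat_lit 65536) .dd)))
 (.ch (nat_lit 7) (.ev (nat_lit 1488) (nat_lit 1114112) .dd))) (.br (nat_lit 10) (.ch (nat_lit 8) (.ev (nat_lit
 1488) (nat_lit 1048576) (.ev (nat_lit 1501) (nat_lit 65536) .dd))) (.ch (nat_lit 10) (.ev (nat_lit 1488)
 (nat_lit 1114112) .dd)))))))) (.br (nat_lit 5) (.ch (nat_lit 4) (.ev (nat_lit 1184) (nat_lit 34361384960) (.nd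
 (nat_lit 1472) (.br (nat_lit 6) (.br (nat_lit 4) (.ch (nat_lit 3) (.ev (nat_lit 1488) (nat_lit 1073872896)
 (.ev (nat_lit 1501) (nat_lit 16777216) .dd))) (.br (nat_lit 5) (.ch (nat_lit 4) (.ev (nat_lit 1488) (nat_lit
 1090519040) (.ev (nat_lit 1501) (nat_lit 131072) .dd))) (.ch (nat_lit 5) (.ev (nat_lit 1860) (nat_lit 131072)
 (.ev (nat_lit 2052) (nat_lit 16777216) (.ev (nat_lit 2061) (nat_lit 1073741824) .dd)))))) (.br (nat_lit 11)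
 (.ch (nat_lit 6) (.ev (nat_lit 1488) (nat_lit 1073872896) (.ev (nat_lit 1501) (nat_lit 16777216) .dd))) (.br
 (nat_lit 12) (.ch (nat_lit 11) (.ev (nat_lit 1488) (nat_lit 1073872896) (.ev (nat_lit 1501) (nat_lit 16777216)
 .dd))) (.ch (nat_lit 12) (.ev (nat_lit 1488) (nat_lit 1090650112) .dd)))))))) (.ch (nat_lit 5) (.ev (nat_lit
 1184) (nat_lit 35450912768) (.nd (nat_lit 1472) (.br (nat_lit 9) (.br (nat_lit 3) (.ch (nat_lit 2) (.ev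
 (nat_lit 1488) (nat_lit 1122304) .dd)) (.br (nat_lit 8) (.ch (nat_lit 3) (.ev (nat_lit 1488) (nat_lit 73728)
 (.ev (nat_lit 1501) (nat_lit 1048576) .dd))) (.ch (nat_lit 8) (.ev (nat_lit 1488) (nat_lit 73728) (.ev
 (nat_lit 1501) (nat_lit 1048576) .dd))))) (.br (nat_lit 10) (.ch (nat_lit 9) (.ev (nat_lit 1780) (nat_lit
 8192) (.ev (nat_lit 2004) (nat_lit 1048576) (.ev (nat_lit 2013) (nat_lit 65536) .dd)))) (.br (nat_lit 11) (.ch
 (nat_lit 10) (.ev (nat_lit 1488) (nat_lit 1114112) (.ev (nat_lit 1501) (nat_lit 8192) .dd))) (.ch (nat_lit 11)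
 (.ev (nat_lit 1488) (nat_lit 73728) (.ev (nat_lit 1501) (nat_lit 1048576) .dd))))))))))) (.br (nat_lit 10)
 (.ch (nat_lit 9) (.ev (nat_lit 1184) (nat_lit 34361516032) (.nd (nat_lit 1472) (.br (nat_lit 6) (.br (nat_lit
 3) (.ch (nat_lit 0) (.ev (nat_lit 1488) (nat_lit 1073741824) (.ev (nat_lit 1501) (nat_lit 16777216) .dd)))
 (.br (nat_lit 5) (.ch (nat_lit 3) (.ev (nat_lit 1488) (nat_lit 1090519040) .dd)) (.ch (nat_lit 5) (.ev
 (nat_lit 1488) (nat_lit 16777216) (.ev (nat_lit 1501) (nat_lit 1073741824) .dd))))) (.br (nat_lit 9) (.br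
 (nat_lit 8) (.ch (nat_lit 6) (.ev (nat_lit 1488) (nat_lit 1090519040) .dd)) (.ch (nat_lit 8) (.ev (nat_lit
 1488) (nat_lit 16777216) (.ev (nat_lit 1501) (nat_lit 1073741824) .dd)))) (.br (nat_lit 11) (.ch (nat_lit 9)
 (.ev (nat_lit 1552) (nat_lit 1073741824) (.ev (nat_lit 1565) (nat_lit 16777216) .dd))) (.ch (nat_lit 11) (.ev
 (nat_lit 1488) (nat_lit 1073741824) (.ev (nat_lit 1501) (nat_lit 16777216) .dd))))))))) (.br (nat_lit 12) (.ch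
 (nat_lit 10) (.ev (nat_lit 1184) (nat_lit 35450265600) (.nd (nat_lit 1472) (.br (nat_lit 7) (.br (nat_lit 6)
 (.ch (nat_lit 5) (.ev (nat_lit 1488) (nat_lit 1114112) (.ev (nat_lit 1664) (nat_lit 131072) (.ev (nat_lit
 1677) (nat_lit 524288) .dd)))) (.ch (nat_lit 6) (.ev (nat_lit 1488) (nat_lit 720896) (.ev (nat_lit 1501)
 (nat_lit 1048576) .dd)))) (.br (nat_lit 8) (.ch (nat_lit 7) (.ev (nat_lit 1488) (nat_lit 1114112) (.ev
 (nat_lit 1540) (nat_lit 131072) (.ev (nat_lit 1549) (nat_lit 524288) .dd)))) (.br (nat_lit 9) (.ch (nat_lit 8)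
 (.ev (nat_lit 1540) (nat_lit 131072) (.ev (nat_lit 1716) (nat_lit 524288) (.ev (nat_lit 1860) (nat_lit 65536)
 (.ev (nat_lit 1869) (nat_lit 1048576) .dd))))) (.ch (nat_lit 9) (.ev (nat_lit 1488) (nat_lit 1703936) (.ev
 (nat_lit 1501) (nat_lit 65536) .dd))))))))) (.ch (nat_lit 12) (.ev (nat_lit 1184) (nat_lit 1769472) (.nd
 (nat_lit 1472) (.br (nat_lit 10) (.br (nat_lit 9) (.ch (nat_lit 0) (.ev (nat_lit 1488) (nat_lit 1090519040)
 (.ev (nat_lit 1636) (nat_lit 34359738368) (.ev (nat_lit 1645) (nat_lit 8192) .dd)))) (.ch (nat_lit 9) (.ev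
 (nat_lit 1488) (nat_lit 34376523776) (.ev (nat_lit 1501) (nat_lit 1073741824) .dd)))) (.br (nat_lit 11) (.ch
 (nat_lit 10) (.ev (nat_lit 1540) (nat_lit 8192) (.ev (nat_lit 1664) (nat_lit 1073741824) (.ev (nat_lit 2004)
 (nat_lit 34359738368) (.ev (nat_lit 2013) (nat_lit 16777216) .dd))))) (.br (nat_lit 12) (.ch (nat_lit 11) (.ev
 (nat_lit 1488) (nat_lit 1090519040) (.ev (nat_lit 1540) (nat_lit 8192) (.ev (nat_lit 1549) (nat_lit
 34359738368) .dd)))) (.ch (nat_lit 12) (.ev (nat_lit 1488) (nat_lit 35433488384) (.ev (nat_lit 1501) (nat_lit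
 16777216) .dd)))))))))))))))))))))))) (.br (nat_lit 42) (.br (nat_lit 38) (.br (nat_lit 36) (.br (nat_lit 33)
 (.ch (nat_lit 31) (.ev (nat_lit 52) (nat_lit 1158383632) (.ev (nat_lit 276) (nat_lit 33554432) (.ev (nat_lit
 404) (nat_lit 34359738368) (.ev (nat_lit 500) (nat_lit 256) (.ev (nat_lit 596) (nat_lit 4194304) (.ev (nat_lit
 980) (nat_lit 8192) (.ev (nat_lit 1056) (nat_lit 3407874) .dd)))))))) (.ch (nat_lit 33) (.ev (nat_lit 52)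
 (nat_lit 35450814466) (.ev (nat_lit 340) (nat_lit 16) (.ev (nat_lit 436) (nat_lit 4194304) (.ev (nat_lit 672)
 (nat_lit 104278272) .dd)))))) (.br (nat_lit 37) (.ch (nat_lit 36) (.ev (nat_lit 52) (nat_lit 35506921488) (.ev
 (nat_lit 308) (nat_lit 262144) (.ev (nat_lit 884) (nat_lit 65536) (.nd (nat_lit 1168) (.br (nat_lit 9) (.br
 (nat_lit 1) (.ch (nat_lit 0) (.ev (nat_lit 1184) (nat_lit 16908546) (.nd (nat_lit 1472) (.br (nat_lit 8) (.br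
 (nat_lit 4) (.ch (nat_lit 2) (.ev (nat_lit 1488) (nat_lit 1572864) (.ev (nat_lit 1540) (nat_lit 2048) (.ev
 (nat_lit 1549) (nat_lit 33554432) .dd)))) (.ch (nat_lit 4) (.ev (nat_lit 1488) (nat_lit 33556480) (.ev
 (nat_lit 1648) (nat_lit 1572864) .dd)))) (.br (nat_lit 10) (.ch (nat_lit 8) (.ev (nat_lit 1488) (nat_lit
 524288) (.ev (nat_lit 1540) (nat_lit 33554432) (.ev (nat_lit 1568) (nat_lit 2048) (.ev (nat_lit 1581) (nat_lit
 1048576) .dd))))) (.br (nat_lit 12) (.ch (nat_lit 10) (.ev (nat_lit 1488) (nat_lit 1574912) (.ev (nat_lit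
 1501) (nat_lit 33554432) .dd))) (.ch (nat_lit 12) (.ev (nat_lit 1488) (nat_lit 34080768) (.ev (nat_lit 1501)
 (nat_lit 1048576) .dd))))))))) (.br (nat_lit 2) (.ch (nat_lit 1) (.ev (nat_lit 1184) (nat_lit 51904512) (.nd
 (nat_lit 1472) (.br (nat_lit 3) (.br (nat_lit 1) (.ch (nat_lit 0) (.ev (nat_lit 1488) (nat_lit 2306) (.ev
 (nat_lit 1501) (nat_lit 131072) .dd))) (.br (nat_lit 2) (.ch (nat_lit 1) (.ev (nat_lit 1488) (nat_lit 131074)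
 (.fin (nat_lit 576478894247854658)))) (.ch (nat_lit 2) (.ev (nat_lit 1488) (nat_lit 133376) (.ev (nat_lit
 1501) (nat_lit 2) .dd))))) (.br (nat_lit 10) (.br (nat_lit 8) (.ch (nat_lit 3) (.ev (nat_lit 1488) (nat_lit
 133122) (.ev (nat_lit 1501) (nat_lit 256) .dd))) (.ch (nat_lit 8) (.ev (nat_lit 1488) (nat_lit 2304) (.ev
 (nat_lit 1744) (nat_lit 131072) (.ev (nat_lit 1757) (nat_lit 2) .dd))))) (.br (nat_lit 12) (.ch (nat_lit 10)
 (.ev (nat_lit 1488) (nat_lit 258) (.ev (nat_lit 1552) (nat_lit 131072) (.ev (nat_lit 1565) (nat_lit 2048)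
 .dd)))) (.ch (nat_lit 12) (.ev (nat_lit 1488) (nat_lit 131072) (.ev (nat_lit 2004) (nat_lit 2048) (.fin
 (nat_lit 576562457314017962))))))))))) (.ch (nat_lit 2) (.ev (nat_lit 1184) (nat_lit 2) (.nd (nat_lit 1472)
 (.br (nat_lit 7) (.br (nat_lit 4) (.ch (nat_lit 1) (.ev (nat_lit 1488) (nat_lit 17827840) (.ev (nat_lit 2128)
 (nat_lit 131072) (.ev (nat_lit 2788) (nat_lit 256) (.nd (nat_lit 3168) (.br (nat_lit 10) (.ch (nat_lit 4) (.ev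
 (nat_lit 3184) (nat_lit 524288) (.ev (nat_lit 3197) (nat_lit 33554432) .dd))) (.ch (nat_lit 10) (.fin (nat_lit
 576485491305038405))))))))) (.br (nat_lit 6) (.ch (nat_lit 4) (.ev (nat_lit 1488) (nat_lit 1179648) (.ev
 (nat_lit 1636) (nat_lit 524544) (.ev (nat_lit 1968) (nat_lit 33554432) (.nd (nat_lit 3168) (.br (nat_lit 11)
 (.ch (nat_lit 10) (.fin (nat_lit 576430515593626322))) (.ch (nat_lit 11) (.ev (nat_lit 3184) (nat_lit
 16777216) (.ev (nat_lit 3197) (nat_lit 2048) .dd))))))))) (.ch (nat_lit 6) (.ev (nat_lit 1488) (nat_lit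
 50989056) (.ev (nat_lit 1780) (nat_lit 256) (.ev (nat_lit 1789) (nat_lit 1048576) .dd)))))) (.br (nat_lit 10)
 (.ch (nat_lit 7) (.ev (nat_lit 1488) (nat_lit 1050880) (.ev (nat_lit 1648) (nat_lit 524288) (.ev (nat_lit
 1792) (nat_lit 131072) (.ev (nat_lit 2032) (nat_lit 33554432) (.ev (nat_lit 2045) (nat_lit 16777216) .dd))))))
 (.br (nat_lit 11) (.ch (nat_lit 10) (.ev (nat_lit 1488) (nat_lit 34081024) (.ev (nat_lit 2180) (nat_lit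
 16777216) (.nd (nat_lit 3168) (.br (nat_lit 12) (.ch (nat_lit 4) (.fin (nat_lit 576454704980509249))) (.ch
 (nat_lit 12) (.ev (nat_lit 3184) (nat_lit 1179648) .dd))))))) (.ch (nat_lit 11) (.ev (nat_lit 1488) (nat_lit
 50857984) (.ev (nat_lit 1940) (nat_lit 1048576) (.ev (nat_lit 2996) (nat_lit 131072) (.ev (nat_lit 3005)
 (nat_lit 256) .dd))))))))))))) (.br (nat_lit 10) (.ch (nat_lit 9) (.ev (nat_lit 1184) (nat_lit 657664) (.nd
 (nat_lit 1472) (.br (nat_lit 9) (.br (nat_lit 5) (.ch (nat_lit 0) (.ev (nat_lit 1488) (nat_lit 1048578) (.ev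
 (nat_lit 1904) (nat_lit 16777216) (.ev (nat_lit 1917) (nat_lit 33554432) .dd)))) (.br (nat_lit 6) (.ch
 (nat_lit 5) (.ev (nat_lit 1488) (nat_lit 50331650) (.ev (nat_lit 1501) (nat_lit 1048576) .dd))) (.ch (nat_lit
 6) (.ev (nat_lit 1488) (nat_lit 16777218) (.ev (nat_lit 1540) (nat_lit 33554432) (.ev (nat_lit 1549) (nat_lit
 1048576) .dd)))))) (.br (nat_lit 10) (.ch (nat_lit 9) (.ev (nat_lit 1716) (nat_lit 1048576) (.ev (nat_lit
 1940) (nat_lit 33554432) (.nd (nat_lit 3168) (.br (nat_lit 10) (.ch (nat_lit 5) (.fin (nat_lit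
 576474496186663492))) (.ch (nat_lit 10) (.ev (nat_lit 3184) (nat_lit 16777216) (.ev (nat_lit 3197) (nat_lit 2)
 .dd)))))))) (.br (nat_lit 11) (.ch (nat_lit 10) (.ev (nat_lit 1488) (nat_lit 16777216) (.ev (nat_lit 1540)
 (nat_lit 1048576) (.ev (nat_lit 1940) (nat_lit 2) (.ev (nat_lit 1949) (nat_lit 33554432) .dd))))) (.ch
 (nat_lit 11) (.ev (nat_lit 1488) (nat_lit 1048576) (.ev (nat_lit 1540) (nat_lit 33554432) (.ev (nat_lit 2500)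
 (nat_lit 2) (.ev (nat_lit 2509) (nat_lit 16777216) .dd))))))))))) (.br (nat_lit 12) (.ch (nat_lit 10) (.ev
 (nat_lit 1184) (nat_lit 17434882) (.nd (nat_lit 1472) (.br (nat_lit 8) (.br (nat_lit 6) (.ch (nat_lit 5) (.ev
 (nat_lit 1540) (nat_lit 33554432) (.ev (nat_lit 1549) (nat_lit 1048576) .dd))) (.ch (nat_lit 6) (.ev (nat_lit
 1504) (nat_lit 1048576) (.ev (nat_lit 1517) (nat_lit 33554432) .dd)))) (.br (nat_lit 9) (.ch (nat_lit 8) (.ev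
 (nat_lit 1540) (nat_lit 1048576) (.ev (nat_lit 1549) (nat_lit 33554432) .dd))) (.br (nat_lit 12) (.ch (nat_lit
 9) (.ev (nat_lit 1636) (nat_lit 33554432) (.ev (nat_lit 1645) (nat_lit 1048576) .dd))) (.ch (nat_lit 12) (.ev
 (nat_lit 1488) (nat_lit 34603008) .dd)))))))) (.ch (nat_lit 12) (.ev (nat_lit 1184) (nat_lit 1574912) (.nd
 (nat_lit 1472) (.br (nat_lit 8) (.br (nat_lit 7) (.ch (nat_lit 1) (.ev (nat_lit 1488) (nat_lit 2) (.ev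
 (nat_lit 1540) (nat_lit 131072) (.ev (nat_lit 2052) (nat_lit 16777216) (.ev (nat_lit 2148) (nat_lit 256) (.ev
 (nat_lit 2157) (nat_lit 33554432) .dd)))))) (.ch (nat_lit 7) (.ev (nat_lit 1488) (nat_lit 50462976) (.ev
 (nat_lit 1501) (nat_lit 2) .dd)))) (.br (nat_lit 9) (.ch (nat_lit 8) (.ev (nat_lit 1488) (nat_lit 50331648)
 (.ev (nat_lit 1540) (nat_lit 2) (.ev (nat_lit 1860) (nat_lit 256) (.ev (nat_lit 1869) (nat_lit 131072)
 .dd))))) (.br (nat_lit 11) (.ch (nat_lit 9) (.ev (nat_lit 1488) (nat_lit 16908544) (.ev (nat_lit 1716)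
 (nat_lit 2) (.ev (nat_lit 1725) (nat_lit 33554432) .dd)))) (.ch (nat_lit 11) (.ev (nat_lit 1488) (nat_lit
 16908290) (.ev (nat_lit 1540) (nat_lit 256) (.ev (nat_lit 1549) (nat_lit 33554432) .dd)))))))))))))))))) (.ch
 (nat_lit 37) (.ev (nat_lit 52) (nat_lit 35454527488) (.ev (nat_lit 212) (nat_lit 2097152) (.ev (nat_lit 276)
 (nat_lit 131072) (.ev (nat_lit 436) (nat_lit 32768) (.ev (nat_lit 884) (nat_lit 524288) (.ev (nat_lit 1024)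
 (nat_lit 101974290) .dd))))))))) (.br (nat_lit 40) (.br (nat_lit 39) (.ch (nat_lit 38) (.ev (nat_lit 52)
 (nat_lit 90442000) (.ev (nat_lit 820) (nat_lit 2) (.ev (nat_lit 948) (nat_lit 8192) (.nd (nat_lit 1168) (.br
 (nat_lit 5) (.br (nat_lit 2) (.ch (nat_lit 1) (.ev (nat_lit 1184) (nat_lit 34361311232) (.ev (nat_lit 1254)
 (nat_lit 1073741824) (.nd (nat_lit 1472) (.br (nat_lit 3) (.br (nat_lit 1) (.ch (nat_lit 0) (.ev (nat_lit
 1488) (nat_lit 33652736) (.ev (nat_lit 1501) (nat_lit 131072) .dd))) (.br (nat_lit 2) (.ch (nat_lit 1) (.ev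
 (nat_lit 1488) (nat_lit 131072) (.ev (nat_lit 1540) (nat_lit 33554432) (.ev (nat_lit 1568) (nat_lit 32768)
 (.ev (nat_lit 1581) (nat_lit 65536) .dd))))) (.ch (nat_lit 2) (.ev (nat_lit 1488) (nat_lit 33751040) (.ev
 (nat_lit 1501) (nat_lit 32768) .dd))))) (.br (nat_lit 9) (.br (nat_lit 8) (.ch (nat_lit 3) (.ev (nat_lit 1488)
 (nat_lit 229376) (.ev (nat_lit 1501) (nat_lit 33554432) .dd))) (.ch (nat_lit 8) (.ev (nat_lit 1488) (nat_lit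
 33685504) (.ev (nat_lit 1952) (nat_lit 98304) .dd)))) (.br (nat_lit 10) (.ch (nat_lit 9) (.ev (nat_lit 1488)
 (nat_lit 98304) (.ev (nat_lit 1636) (nat_lit 33554432) (.ev (nat_lit 1645) (nat_lit 131072) .dd)))) (.ch
 (nat_lit 10) (.ev (nat_lit 1488) (nat_lit 33587200) (.ev (nat_lit 1636) (nat_lit 65536) (.ev (nat_lit 1645)
 (nat_lit 131072) .dd))))))))))) (.br (nat_lit 4) (.ch (nat_lit 2) (.ev (nat_lit 1184) (nat_lit 35433709568)
 (.nd (nat_lit 1472) (.br (nat_lit 5) (.br (nat_lit 3) (.ch (nat_lit 1) (.ev (nat_lit 1488) (nat_lit 1048576)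
 (.ev (nat_lit 2180) (nat_lit 33554432) (.ev (nat_lit 2189) (nat_lit 524288) .dd)))) (.br (nat_lit 4) (.ch
 (nat_lit 3) (.ev (nat_lit 1488) (nat_lit 34078720) (.ev (nat_lit 1501) (nat_lit 1048576) .dd))) (.ch (nat_lit
 4) (.ev (nat_lit 1488) (nat_lit 1572864) (.ev (nat_lit 1501) (nat_lit 33554432) .dd))))) (.br (nat_lit 6) (.ch
 (nat_lit 5) (.ev (nat_lit 1488) (nat_lit 34078720) (.ev (nat_lit 1501) (nat_lit 1048576) .dd))) (.br (nat_lit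
 10) (.ch (nat_lit 6) (.ev (nat_lit 1488) (nat_lit 524288) (.ev (nat_lit 1780) (nat_lit 33554432) (.ev (nat_lit
 1789) (nat_lit 1048576) .dd)))) (.ch (nat_lit 10) (.ev (nat_lit 1488) (nat_lit 34078720) (.ev (nat_lit 1501)
 (nat_lit 1048576) .dd))))))))) (.ch (nat_lit 4) (.ev (nat_lit 1184) (nat_lit 34361540608) (.nd (nat_lit 1472)
 (.br (nat_lit 6) (.br (nat_lit 4) (.ch (nat_lit 3) (.ev (nat_lit 1488) (nat_lit 33554432) (.ev (nat_lit 1501)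
 (nat_lit 1073741824) .dd))) (.br (nat_lit 5) (.ch (nat_lit 4) (.ev (nat_lit 1488) (nat_lit 33554432) (.ev
 (nat_lit 1501) (nat_lit 1073741824) .dd))) (.ch (nat_lit 5) (.ev (nat_lit 1552) (nat_lit 1073741824) (.ev
 (nat_lit 1565) (nat_lit 33554432) .dd))))) (.br (nat_lit 8) (.ch (nat_lit 6) (.ev (nat_lit 1488) (nat_lit
 1073741824) (.ev (nat_lit 1501) (nat_lit 33554432) .dd))) (.br (nat_lit 9) (.ch (nat_lit 8) (.ev (nat_lit
 1488) (nat_lit 1073741824) (.ev (nat_lit 1501) (nat_lit 33554432) .dd))) (.ch (nat_lit 9) (.ev (nat_lit 1488)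
 (nat_lit 1073741824) (.ev (nat_lit 1501) (nat_lit 33554432) .dd))))))))))) (.br (nat_lit 9) (.ch (nat_lit 5)
 (.ev (nat_lit 1184) (nat_lit 1074495488) (.nd (nat_lit 1472) (.br (nat_lit 10) (.br (nat_lit 4) (.ch (nat_lit
 2) (.ev (nat_lit 1488) (nat_lit 34360786944) (.ev (nat_lit 1501) (nat_lit 33554432) .dd))) (.br (nat_lit 8)
 (.ch (nat_lit 4) (.ev (nat_lit 1488) (nat_lit 33554432) (.ev (nat_lit 1504) (nat_lit 1048576) (.ev (nat_lit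
 1517) (nat_lit 34359738368) .dd)))) (.ch (nat_lit 8) (.ev (nat_lit 1488) (nat_lit 34359738368) (.ev (nat_lit
 1940) (nat_lit 33554432) (.ev (nat_lit 1949) (nat_lit 1048576) .dd)))))) (.br (nat_lit 11) (.ch (nat_lit 10)
 (.ev (nat_lit 1488) (nat_lit 34360786944) (.ev (nat_lit 1501) (nat_lit 33554432) .dd))) (.br (nat_lit 12) (.ch
 (nat_lit 11) (.ev (nat_lit 1488) (nat_lit 1048576) (.ev (nat_lit 2004) (nat_lit 33554432) (.ev (nat_lit 2013)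
 (nat_lit 34359738368) .dd)))) (.ch (nat_lit 12) (.ev (nat_lit 1488) (nat_lit 1048576) (.ev (nat_lit 1920)
 (nat_lit 33554432) (.ev (nat_lit 1933) (nat_lit 34359738368) .dd)))))))))) (.br (nat_lit 12) (.ch (nat_lit 9)
 (.ev (nat_lit 1184) (nat_lit 34393489408) (.nd (nat_lit 1472) (.br (nat_lit 8) (.br (nat_lit 5) (.ch (nat_lit
 0) (.ev (nat_lit 1488) (nat_lit 524288) (.ev (nat_lit 1636) (nat_lit 1073741824) (.ev (nat_lit 1860) (nat_lit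
 32768) (.ev (nat_lit 1869) (nat_lit 1048576) .dd))))) (.br (nat_lit 6) (.ch (nat_lit 5) (.ev (nat_lit 1488)
 (nat_lit 1081344) (.fin (nat_lit 576478894259389005)))) (.ch (nat_lit 6) (.ev (nat_lit 1488) (nat_lit
 1074298880) (.ev (nat_lit 1501) (nat_lit 1048576) .dd))))) (.br (nat_lit 11) (.ch (nat_lit 8) (.ev (nat_lit
 1488) (nat_lit 1073774592) (.ev (nat_lit 1636) (nat_lit 1048576) (.ev (nat_lit 1645) (nat_lit 524288) .dd))))
 (.br (nat_lit 12) (.ch (nat_lit 11) (.ev (nat_lit 1488) (nat_lit 1073774592) (.ev (nat_lit 2052) (nat_lit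
 524288) (.ev (nat_lit 2061) (nat_lit 1048576) .dd)))) (.ch (nat_lit 12) (.ev (nat_lit 1488) (nat_lit
 1074823168) (.ev (nat_lit 1501) (nat_lit 524288) .dd))))))))) (.ch (nat_lit 12) (.ev (nat_lit 1184) (nat_lit
 1802240) (.nd (nat_lit 1472) (.br (nat_lit 8) (.br (nat_lit 1) (.ch (nat_lit 0) (.ev (nat_lit 1488) (nat_lit
 35467034624) .dd)) (.br (nat_lit 7) (.ch (nat_lit 1) (.ev (nat_lit 2724) (nat_lit 34359738368) (.nd (nat_lit
 3168) (.br (nat_lit 11) (.ch (nat_lit 4) (.ev (nat_lit 3184) (nat_lit 1073741824) (.ev (nat_lit 3197) (nat_lit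
 33554432) .dd))) (.ch (nat_lit 11) (.fin (nat_lit 576443709875765837))))))) (.ch (nat_lit 7) (.ev (nat_lit
 1488) (nat_lit 1107296256) (.ev (nat_lit 1501) (nat_lit 34359738368) .dd))))) (.br (nat_lit 11) (.ch (nat_lit
 8) (.ev (nat_lit 1488) (nat_lit 34359738368) (.ev (nat_lit 2052) (nat_lit 33554432) (.ev (nat_lit 2061)
 (nat_lit 1073741824) .dd)))) (.br (nat_lit 12) (.ch (nat_lit 11) (.ev (nat_lit 1540) (nat_lit 1073741824) (.ev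
 (nat_lit 2016) (nat_lit 33554432) (.ev (nat_lit 2029) (nat_lit 34359738368) .dd)))) (.ch (nat_lit 12) (.ev
 (nat_lit 1488) (nat_lit 1107296256) (.ev (nat_lit 1501) (nat_lit 34359738368) .dd))))))))))))))))) (.ch
 (nat_lit 39) (.ev (nat_lit 52) (nat_lit 34443888640) (.ev (nat_lit 276) (nat_lit 524288) (.ev (nat_lit 404)
 (nat_lit 33619968) (.ev (nat_lit 660) (nat_lit 16) (.ev (nat_lit 820) (nat_lit 1048576) (.nd (nat_lit 1168)
 (.br (nat_lit 9) (.br (nat_lit 2) (.ch (nat_lit 1) (.ev (nat_lit 1184) (nat_lit 32768) (.nd (nat_lit 1472)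
 (.br (nat_lit 9) (.br (nat_lit 3) (.ch (nat_lit 1) (.ev (nat_lit 1488) (nat_lit 2228226) (.ev (nat_lit 1648)
 (nat_lit 1073741824) (.ev (nat_lit 1792) (nat_lit 8192) (.ev (nat_lit 1968) (nat_lit 4194304) (.ev (nat_lit
 1981) (nat_lit 256) .dd)))))) (.br (nat_lit 8) (.ch (nat_lit 3) (.ev (nat_lit 1488) (nat_lit 1080033282) (.ev
 (nat_lit 2180) (nat_lit 256) (.nd (nat_lit 3168) (.br (nat_lit 3) (.ch (nat_lit 2) (.fin (nat_lit
 576472297183330885))) (.ch (nat_lit 3) (.ev (nat_lit 3184) (nat_lit 139264) .dd))))))) (.ch (nat_lit 8) (.ev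
 (nat_lit 1488) (nat_lit 1077936386) (.ev (nat_lit 2004) (nat_lit 131072) (.ev (nat_lit 3060) (nat_lit 2097152)
 (.ev (nat_lit 3069) (nat_lit 8192) .dd))))))) (.br (nat_lit 10) (.ch (nat_lit 9) (.ev (nat_lit 1488) (nat_lit
 1077944578) (.ev (nat_lit 1716) (nat_lit 2097152) (.ev (nat_lit 1725) (nat_lit 131072) .dd)))) (.br (nat_lit
 12) (.ch (nat_lit 10) (.ev (nat_lit 1488) (nat_lit 131330) (.ev (nat_lit 2128) (nat_lit 8192) (.ev (nat_lit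
 2788) (nat_lit 2097152) (.nd (nat_lit 3168) (.br (nat_lit 12) (.ch (nat_lit 8) (.ev (nat_lit 3184) (nat_lit
 1073741824) (.ev (nat_lit 3197) (nat_lit 4194304) .dd))) (.ch (nat_lit 12) (.fin (nat_lit
 576459103028068953))))))))) (.ch (nat_lit 12) (.ev (nat_lit 1488) (nat_lit 2236416) (.ev (nat_lit 1792)
 (nat_lit 1073741824) (.ev (nat_lit 1888) (nat_lit 4194304) (.nd (nat_lit 3168) (.br (nat_lit 6) (.ch (nat_lit
 1) (.fin (nat_lit 576360146807505366))) (.ch (nat_lit 6) (.ev (nat_lit 3184) (nat_lit 256) (.ev (nat_lit 3197)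
 (nat_lit 2) .dd))))))))))))))) (.br (nat_lit 4) (.ch (nat_lit 2) (.ev (nat_lit 1184) (nat_lit 1075880194) (.nd
 (nat_lit 1472) (.br (nat_lit 5) (.br (nat_lit 3) (.ch (nat_lit 0) (.ev (nat_lit 1540) (nat_lit 131072) (.ev
 (nat_lit 1549) (nat_lit 4194304) .dd))) (.ch (nat_lit 3) (.ev (nat_lit 1504) (nat_lit 131072) (.ev (nat_lit
 1517) (nat_lit 4194304) .dd)))) (.br (nat_lit 7) (.ch (nat_lit 5) (.ev (nat_lit 1636) (nat_lit 4194304) (.ev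
 (nat_lit 1645) (nat_lit 131072) .dd))) (.br (nat_lit 11) (.ch (nat_lit 7) (.ev (nat_lit 1488) (nat_lit
 4325376) .dd)) (.ch (nat_lit 11) (.ev (nat_lit 1540) (nat_lit 4194304) (.ev (nat_lit 1549) (nat_lit 131072)
 .dd))))))))) (.ch (nat_lit 4) (.ev (nat_lit 1184) (nat_lit 2138368) (.nd (nat_lit 1472) (.br (nat_lit 8) (.br
 (nat_lit 6) (.ch (nat_lit 5) (.ev (nat_lit 1488) (nat_lit 4194306) (.ev (nat_lit 1648) (nat_lit 1073872896)
 .dd))) (.ch (nat_lit 6) (.ev (nat_lit 1488) (nat_lit 1077936130) (.ev (nat_lit 1501) (nat_lit 131072) .dd))))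
 (.br (nat_lit 9) (.ch (nat_lit 8) (.ev (nat_lit 1488) (nat_lit 1073872896) (.ev (nat_lit 1540) (nat_lit 2)
 (.ev (nat_lit 1549) (nat_lit 4194304) .dd)))) (.br (nat_lit 12) (.ch (nat_lit 9) (.ev (nat_lit 1488) (nat_lit
 1073872898) (.ev (nat_lit 1501) (nat_lit 4194304) .dd))) (.ch (nat_lit 12) (.ev (nat_lit 1488) (nat_lit
 1073741824) (.ev (nat_lit 1568) (nat_lit 2) (.ev (nat_lit 1648) (nat_lit 4325376) .dd)))))))))))) (.br
 (nat_lit 10) (.ch (nat_lit 9) (.ev (nat_lit 1184) (nat_lit 1078067456) (.nd (nat_lit 1472) (.br (nat_lit 8)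
 (.br (nat_lit 3) (.ch (nat_lit 0) (.ev (nat_lit 1488) (nat_lit 40962) (.ev (nat_lit 1501) (nat_lit 2097152)
 .dd))) (.br (nat_lit 6) (.ch (nat_lit 3) (.ev (nat_lit 1488) (nat_lit 40960) (.fin (nat_lit
 576470098163221046)))) (.ch (nat_lit 6) (.ev (nat_lit 1488) (nat_lit 8192) (.ev (nat_lit 1636) (nat_lit 2)
 (.fin (nat_lit 576668010220569246))))))) (.br (nat_lit 11) (.br (nat_lit 9) (.ch (nat_lit 8) (.ev (nat_lit
 1488) (nat_lit 2105346) (.ev (nat_lit 1501) (nat_lit 32768) .dd))) (.ch (nat_lit 9) (.ev (nat_lit 1488)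
 (nat_lit 2129920) (.ev (nat_lit 1504) (nat_lit 8192) (.ev (nat_lit 1517) (nat_lit 2) .dd))))) (.br (nat_lit
 12) (.ch (nat_lit 11) (.ev (nat_lit 1488) (nat_lit 2129922) (.ev (nat_lit 1501) (nat_lit 8192) .dd))) (.ch
 (nat_lit 12) (.ev (nat_lit 1488) (nat_lit 2097154) (.ev (nat_lit 1780) (nat_lit 8192) (.ev (nat_lit 1789)
 (nat_lit 32768) .dd)))))))))) (.br (nat_lit 12) (.ch (nat_lit 10) (.ev (nat_lit 1184) (nat_lit 1075847170)
 (.nd (nat_lit 1472) (.br (nat_lit 8) (.br (nat_lit 2) (.ch (nat_lit 0) (.ev (nat_lit 1488) (nat_lit 33024)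
 (.ev (nat_lit 1540) (nat_lit 4194304) (.ev (nat_lit 1549) (nat_lit 131072) .dd)))) (.br (nat_lit 7) (.ch
 (nat_lit 2) (.ev (nat_lit 1680) (nat_lit 131072) (.ev (nat_lit 1860) (nat_lit 4194304) (.nd (nat_lit 3168)
 (.br (nat_lit 9) (.ch (nat_lit 8) (.ev (nat_lit 3184) (nat_lit 256) (.ev (nat_lit 3197) (nat_lit 32768) .dd)))
 (.ch (nat_lit 9) (.fin (nat_lit 576465700104127060)))))))) (.ch (nat_lit 7) (.ev (nat_lit 1488) (nat_lit 256)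
 (.ev (nat_lit 1540) (nat_lit 131072) (.ev (nat_lit 2004) (nat_lit 32768) (.ev (nat_lit 2013) (nat_lit 4194304)
 .dd))))))) (.br (nat_lit 9) (.ch (nat_lit 8) (.ev (nat_lit 1488) (nat_lit 4227328) (.ev (nat_lit 1501)
 (nat_lit 131072) .dd))) (.br (nat_lit 12) (.ch (nat_lit 9) (.ev (nat_lit 1488) (nat_lit 163840) (.ev (nat_lit
 1984) (nat_lit 256) (.ev (nat_lit 1997) (nat_lit 4194304) .dd)))) (.ch (nat_lit 12) (.ev (nat_lit 1488)
 (nat_lit 131072) (.ev (nat_lit 1540) (nat_lit 4194304) (.ev (nat_lit 2404) (nat_lit 256) (.ev (nat_lit 2413)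
 (nat_lit 32768) .dd))))))))))) (.ch (nat_lit 12) (.ev (nat_lit 1184) (nat_lit 1073872898) (.nd (nat_lit 1472)
 (.br (nat_lit 4) (.br (nat_lit 1) (.ch (nat_lit 0) (.ev (nat_lit 1488) (nat_lit 32768) (.ev (nat_lit 1540)
 (nat_lit 8192) (.ev (nat_lit 2004) (nat_lit 256) (.ev (nat_lit 2116) (nat_lit 2097152) (.ev (nat_lit 2125)
 (nat_lit 4194304) .dd)))))) (.ch (nat_lit 1) (.ev (nat_lit 1488) (nat_lit 2105600) (.ev (nat_lit 1716)
 (nat_lit 32768) (.ev (nat_lit 1725) (nat_lit 4194304) .dd))))) (.br (nat_lit 9) (.ch (nat_lit 4) (.ev (nat_lit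
 1488) (nat_lit 4202752) (.ev (nat_lit 1504) (nat_lit 32768) (.ev (nat_lit 1517) (nat_lit 2097152) .dd)))) (.br
 (nat_lit 11) (.ch (nat_lit 9) (.ev (nat_lit 1488) (nat_lit 4194560) (.ev (nat_lit 1540) (nat_lit 32768) (.ev
 (nat_lit 1940) (nat_lit 2097152) (.ev (nat_lit 1949) (nat_lit 8192) .dd))))) (.ch (nat_lit 11) (.ev (nat_lit
 1488) (nat_lit 41216) (.ev (nat_lit 1540) (nat_lit 2097152) (.ev (nat_lit 1549) (nat_lit 4194304)
 .dd))))))))))))))))))))) (.br (nat_lit 41) (.ch (nat_lit 40) (.ev (nat_lit 52) (nat_lit 18808848) (.ev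
 (nat_lit 276) (nat_lit 1073741824) (.ev (nat_lit 596) (nat_lit 33554432) (.ev (nat_lit 628) (nat_lit 2) (.nd
 (nat_lit 1168) (.br (nat_lit 5) (.br (nat_lit 2) (.ch (nat_lit 1) (.ev (nat_lit 1184) (nat_lit 256) (.ev
 (nat_lit 1204) (nat_lit 4194304) (.nd (nat_lit 1472) (.br (nat_lit 9) (.br (nat_lit 2) (.ch (nat_lit 1) (.ev
 (nat_lit 1488) (nat_lit 34359746560) (.ev (nat_lit 2004) (nat_lit 2048) (.ev (nat_lit 2052) (nat_lit 32768)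
 (.ev (nat_lit 2868) (nat_lit 2097152) (.ev (nat_lit 2877) (nat_lit 67108864) .dd)))))) (.br (nat_lit 8) (.ch
 (nat_lit 2) (.ev (nat_lit 1488) (nat_lit 34361870336) (.ev (nat_lit 1540) (nat_lit 8192) (.ev (nat_lit 1549)
 (nat_lit 67108864) .dd)))) (.ch (nat_lit 8) (.ev (nat_lit 1488) (nat_lit 34426849280) (.ev (nat_lit 1540)
 (nat_lit 40960) (.ev (nat_lit 1549) (nat_lit 2097152) .dd)))))) (.br (nat_lit 10) (.ch (nat_lit 9) (.ev
 (nat_lit 1488) (nat_lit 34426890240) (.ev (nat_lit 1501) (nat_lit 2097152) .dd))) (.br (nat_lit 12) (.ch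
 (nat_lit 10) (.ev (nat_lit 1488) (nat_lit 34359771136) (.ev (nat_lit 1780) (nat_lit 8192) (.ev (nat_lit 2436)
 (nat_lit 67110912) (.ev (nat_lit 2445) (nat_lit 2097152) .dd))))) (.ch (nat_lit 12) (.ev (nat_lit 1488)
 (nat_lit 67149824) (.ev (nat_lit 1540) (nat_lit 2097152) (.fin (nat_lit 576478894231077478)))))))))))) (.br
 (nat_lit 4) (.ch (nat_lit 2) (.ev (nat_lit 1184) (nat_lit 34428987392) (.nd (nat_lit 1472) (.br (nat_lit 6)
 (.br (nat_lit 1) (.ch (nat_lit 0) (.ev (nat_lit 1488) (nat_lit 4194560) .dd)) (.ch (nat_lit 1) (.ev (nat_lit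
 1488) (nat_lit 4194560) .dd))) (.br (nat_lit 10) (.ch (nat_lit 6) (.ev (nat_lit 1716) (nat_lit 256) (.ev
 (nat_lit 1725) (nat_lit 4194304) .dd))) (.br (nat_lit 11) (.ch (nat_lit 10) (.ev (nat_lit 1540) (nat_lit
 4194304) (.ev (nat_lit 1549) (nat_lit 256) .dd))) (.ch (nat_lit 11) (.ev (nat_lit 1488) (nat_lit 4194304) (.ev
 (nat_lit 1501) (nat_lit 256) .dd))))))))) (.ch (nat_lit 4) (.ev (nat_lit 1184) (nat_lit 34361870592) (.nd
 (nat_lit 1472) (.br (nat_lit 9) (.br (nat_lit 3) (.ch (nat_lit 0) (.ev (nat_lit 1488) (nat_lit 67108864) (.ev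
 (nat_lit 1716) (nat_lit 8192) (.ev (nat_lit 1725) (nat_lit 4194304) .dd)))) (.br (nat_lit 4) (.ch (nat_lit 3)
 (.ev (nat_lit 2788) (nat_lit 67108864) (.nd (nat_lit 3168) (.br (nat_lit 12) (.ch (nat_lit 5) (.ev (nat_lit
 3184) (nat_lit 8192) (.ev (nat_lit 3197) (nat_lit 4194304) .dd))) (.ch (nat_lit 12) (.fin (nat_lit
 576461302050275907))))))) (.ch (nat_lit 4) (.ev (nat_lit 1540) (nat_lit 4194304) (.ev (nat_lit 1716) (nat_lit
 8192) (.ev (nat_lit 1725) (nat_lit 67108864) .dd)))))) (.br (nat_lit 11) (.ch (nat_lit 9) (.ev (nat_lit 1716)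
 (nat_lit 4194304) (.fin (nat_lit 576468998666273313)))) (.br (nat_lit 12) (.ch (nat_lit 11) (.ev (nat_lit
 1488) (nat_lit 8192) (.ev (nat_lit 2004) (nat_lit 4194304) (.ev (nat_lit 2013) (nat_lit 67108864) .dd)))) (.ch
 (nat_lit 12) (.ev (nat_lit 1488) (nat_lit 71303168) (.ev (nat_lit 1501) (nat_lit 8192) .dd))))))))))) (.br
 (nat_lit 10) (.ch (nat_lit 5) (.ev (nat_lit 1184) (nat_lit 6324224) (.nd (nat_lit 1472) (.br (nat_lit 10) (.br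
 (nat_lit 3) (.ch (nat_lit 0) (.ev (nat_lit 1488) (nat_lit 2048) (.ev (nat_lit 1840) (nat_lit 34359738368) (.ev
 (nat_lit 2436) (nat_lit 8192) (.ev (nat_lit 3110) (nat_lit 67109120) .dd))))) (.br (nat_lit 9) (.ch (nat_lit
 3) (.ev (nat_lit 1488) (nat_lit 67111168) (.ev (nat_lit 1636) (nat_lit 34359738368) (.ev (nat_lit 1645)
 (nat_lit 8192) .dd)))) (.ch (nat_lit 9) (.ev (nat_lit 1488) (nat_lit 67111168) (.ev (nat_lit 2352) (nat_lit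
 34359738368) (.ev (nat_lit 2365) (nat_lit 8192) .dd)))))) (.br (nat_lit 11) (.ch (nat_lit 10) (.ev (nat_lit
 1488) (nat_lit 34359748608) (.ev (nat_lit 1780) (nat_lit 256) (.ev (nat_lit 1789) (nat_lit 67108864) .dd))))
 (.br (nat_lit 12) (.ch (nat_lit 11) (.ev (nat_lit 1488) (nat_lit 67117312) (.ev (nat_lit 1968) (nat_lit
 34359738368) (.ev (nat_lit 1981) (nat_lit 2048) .dd)))) (.ch (nat_lit 12) (.ev (nat_lit 1488) (nat_lit 10496)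
 (.ev (nat_lit 2752) (nat_lit 34359738368) (.ev (nat_lit 2765) (nat_lit 67108864) .dd)))))))))) (.br (nat_lit
 12) (.ch (nat_lit 10) (.ev (nat_lit 1184) (nat_lit 34426847232) (.nd (nat_lit 1472) (.br (nat_lit 6) (.br
 (nat_lit 2) (.ch (nat_lit 0) (.ev (nat_lit 1488) (nat_lit 6324224) (.ev (nat_lit 1540) (nat_lit 256) (.ev
 (nat_lit 1648) (nat_lit 10240) .dd)))) (.br (nat_lit 3) (.ch (nat_lit 2) (.ev (nat_lit 1488) (nat_lit 2107392)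
 (.ev (nat_lit 1540) (nat_lit 4194304) (.ev (nat_lit 1636) (nat_lit 32768) (.ev (nat_lit 1645) (nat_lit 256)
 .dd))))) (.ch (nat_lit 3) (.ev (nat_lit 1488) (nat_lit 2048) (.ev (nat_lit 1540) (nat_lit 32768) (.ev (nat_lit
 1664) (nat_lit 4194304) (.ev (nat_lit 1872) (nat_lit 8192) (.nd (nat_lit 3168) (.br (nat_lit 3) (.ch (nat_lit
 0) (.ev (nat_lit 3184) (nat_lit 2097152) (.ev (nat_lit 3197) (nat_lit 256) .dd))) (.br (nat_lit 12) (.ch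
 (nat_lit 3) (.ev (nat_lit 3184) (nat_lit 2097152) (.ev (nat_lit 3197) (nat_lit 256) .dd))) (.ch (nat_lit 12)
 (.fin (nat_lit 576439311844983365))))))))))))) (.br (nat_lit 9) (.br (nat_lit 8) (.ch (nat_lit 6) (.ev
 (nat_lit 1488) (nat_lit 41216) (.ev (nat_lit 1636) (nat_lit 4194304) (.fin (nat_lit 576474496213926468)))))
 (.ch (nat_lit 8) (.ev (nat_lit 1488) (nat_lit 6334464) (.ev (nat_lit 1501) (nat_lit 256) .dd)))) (.br (nat_lit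
 12) (.ch (nat_lit 9) (.ev (nat_lit 1488) (nat_lit 6299648) (.ev (nat_lit 1540) (nat_lit 33024) (.ev (nat_lit
 1549) (nat_lit 2048) .dd)))) (.ch (nat_lit 12) (.ev (nat_lit 1488) (nat_lit 4229376) (.ev (nat_lit 1716)
 (nat_lit 8192) (.ev (nat_lit 1725) (nat_lit 2097152) .dd)))))))))) (.ch (nat_lit 12) (.ev (nat_lit 1184)
 (nat_lit 2048) (.nd (nat_lit 1472) (.br (nat_lit 9) (.br (nat_lit 1) (.ch (nat_lit 0) (.ev (nat_lit 1488)
 (nat_lit 67141632) (.ev (nat_lit 1540) (nat_lit 4194560) (.ev (nat_lit 1840) (nat_lit 34359738368) (.ev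
 (nat_lit 2116) (nat_lit 8192) (.ev (nat_lit 2125) (nat_lit 2097152) .dd)))))) (.br (nat_lit 7) (.ch (nat_lit
 1) (.ev (nat_lit 1488) (nat_lit 67117056) (.ev (nat_lit 1540) (nat_lit 4194304) (.ev (nat_lit 1728) (nat_lit
 2097152) (.ev (nat_lit 1968) (nat_lit 34359738368) (.ev (nat_lit 2004) (nat_lit 256) (.ev (nat_lit 2013)
 (nat_lit 32768) .dd))))))) (.ch (nat_lit 7) (.ev (nat_lit 1488) (nat_lit 67108864) (.ev (nat_lit 1540)
 (nat_lit 6324480) (.ev (nat_lit 2324) (nat_lit 8192) (.ev (nat_lit 2333) (nat_lit 34359738368) .dd))))))) (.br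
 (nat_lit 11) (.ch (nat_lit 9) (.ev (nat_lit 1488) (nat_lit 73400576) (.ev (nat_lit 1540) (nat_lit 32768) (.ev
 (nat_lit 1780) (nat_lit 8192) (.ev (nat_lit 1789) (nat_lit 34359738368) .dd))))) (.br (nat_lit 12) (.ch
 (nat_lit 11) (.ev (nat_lit 1488) (nat_lit 34363941120) (.ev (nat_lit 1520) (nat_lit 67108864) (.ev (nat_lit
 1540) (nat_lit 32768) (.ev (nat_lit 1549) (nat_lit 2097152) .dd))))) (.ch (nat_lit 12) (.ev (nat_lit 1488)
 (nat_lit 4235520) (.ev (nat_lit 2052) (nat_lit 2097152) (.ev (nat_lit 2532) (nat_lit 67108864) (.ev (nat_lit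
 2541) (nat_lit 34359738368) .dd)))))))))))))))))))) (.ch (nat_lit 41) (.ev (nat_lit 52) (nat_lit 17367298)
 (.ev (nat_lit 256) (nat_lit 35541919760) .dd)))))) (.br (nat_lit 47) (.br (nat_lit 44) (.br (nat_lit 43) (.ch
 (nat_lit 42) (.ev (nat_lit 52) (nat_lit 71761922) (.ev (nat_lit 404) (nat_lit 16) (.ev (nat_lit 724) (nat_lit
 8192) (.ev (nat_lit 756) (nat_lit 3145728) (.nd (nat_lit 1168) (.br (nat_lit 6) (.br (nat_lit 4) (.ch (nat_lit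
 1) (.ev (nat_lit 1184) (nat_lit 1124597760) (.nd (nat_lit 1472) (.br (nat_lit 9) (.br (nat_lit 2) (.ch
 (nat_lit 1) (.ev (nat_lit 1488) (nat_lit 34359771136) (.nd (nat_lit 3168) (.br (nat_lit 11) (.ch (nat_lit 6)
 (.ev (nat_lit 3184) (nat_lit 256) (.ev (nat_lit 3197) (nat_lit 2048) .dd))) (.ch (nat_lit 11) (.fin (nat_lit
 576478894247854658))))))) (.br (nat_lit 6) (.ch (nat_lit 2) (.ev (nat_lit 1488) (nat_lit 34359740672) (.ev
 (nat_lit 1501) (nat_lit 32768) .dd))) (.ch (nat_lit 6) (.ev (nat_lit 1488) (nat_lit 34359740416) (.ev (nat_lit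
 1552) (nat_lit 256) (.ev (nat_lit 1565) (nat_lit 32768) .dd)))))) (.br (nat_lit 10) (.ch (nat_lit 9) (.ev
 (nat_lit 1488) (nat_lit 34359771136) (.ev (nat_lit 1636) (nat_lit 256) (.ev (nat_lit 1645) (nat_lit 2048)
 .dd)))) (.br (nat_lit 12) (.ch (nat_lit 10) (.ev (nat_lit 1488) (nat_lit 256) (.ev (nat_lit 2052) (nat_lit
 34359738368) (.ev (nat_lit 2212) (nat_lit 32768) (.ev (nat_lit 2221) (nat_lit 2048) .dd))))) (.ch (nat_lit 12)
 (.ev (nat_lit 1488) (nat_lit 34359773440) .dd)))))))) (.br (nat_lit 5) (.ch (nat_lit 4) (.ev (nat_lit 1184)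
 (nat_lit 34360297728) (.nd (nat_lit 1472) (.br (nat_lit 6) (.br (nat_lit 3) (.ch (nat_lit 0) (.ev (nat_lit
 1488) (nat_lit 1124073472) .dd)) (.br (nat_lit 5) (.ch (nat_lit 3) (.ev (nat_lit 1488) (nat_lit 33554432) (.ev
 (nat_lit 2180) (nat_lit 1073741824) (.ev (nat_lit 2189) (nat_lit 16777216) .dd)))) (.ch (nat_lit 5) (.ev
 (nat_lit 1488) (nat_lit 1107296256) (.ev (nat_lit 1501) (nat_lit 16777216) .dd))))) (.br (nat_lit 8) (.ch
 (nat_lit 6) (.ev (nat_lit 1488) (nat_lit 1090519040) (.ev (nat_lit 1501) (nat_lit 33554432) .dd))) (.br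
 (nat_lit 11) (.ch (nat_lit 8) (.ev (nat_lit 1488) (nat_lit 1124073472) .dd)) (.ch (nat_lit 11) (.ev (nat_lit
 1488) (nat_lit 1107296256) (.ev (nat_lit 1501) (nat_lit 16777216) .dd))))))))) (.ch (nat_lit 5) (.ev (nat_lit
 1184) (nat_lit 1107329280) (.nd (nat_lit 1472) (.br (nat_lit 9) (.br (nat_lit 2) (.ch (nat_lit 0) (.ev
 (nat_lit 1488) (nat_lit 34377039872) (.ev (nat_lit 1501) (nat_lit 2048) .dd))) (.br (nat_lit 3) (.ch (nat_lit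
 2) (.ev (nat_lit 1488) (nat_lit 34360264704) (.ev (nat_lit 1501) (nat_lit 16777216) .dd))) (.ch (nat_lit 3)
 (.ev (nat_lit 1488) (nat_lit 2048) (.ev (nat_lit 1540) (nat_lit 34360262656) (.ev (nat_lit 1549) (nat_lit
 16777216) .dd)))))) (.br (nat_lit 10) (.ch (nat_lit 9) (.ev (nat_lit 1488) (nat_lit 526336) (.ev (nat_lit
 1552) (nat_lit 34359738368) (.ev (nat_lit 1565) (nat_lit 16777216) .dd)))) (.br (nat_lit 11) (.ch (nat_lit 10)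
 (.ev (nat_lit 1488) (nat_lit 34376517632) (.ev (nat_lit 1501) (nat_lit 524288) .dd))) (.ch (nat_lit 11) (.ev
 (nat_lit 1488) (nat_lit 16777216) (.ev (nat_lit 1540) (nat_lit 34359740416) (.ev (nat_lit 1549) (nat_lit
 524288) .dd)))))))))))) (.br (nat_lit 10) (.br (nat_lit 9) (.ch (nat_lit 6) (.ev (nat_lit 1184) (nat_lit
 35467561216) (.nd (nat_lit 1472) (.br (nat_lit 7) (.br (nat_lit 4) (.ch (nat_lit 1) (.ev (nat_lit 1488)
 (nat_lit 16777216) (.ev (nat_lit 1501) (nat_lit 32768) .dd))) (.br (nat_lit 6) (.ch (nat_lit 4) (.ev (nat_lit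
 1540) (nat_lit 32768) (.ev (nat_lit 1549) (nat_lit 16777216) .dd))) (.ch (nat_lit 6) (.ev (nat_lit 1488)
 (nat_lit 16777216) (.ev (nat_lit 1501) (nat_lit 32768) .dd))))) (.br (nat_lit 10) (.br (nat_lit 9) (.ch
 (nat_lit 7) (.ev (nat_lit 1488) (nat_lit 32768) (.ev (nat_lit 1501) (nat_lit 16777216) .dd))) (.ch (nat_lit 9)
 (.ev (nat_lit 1488) (nat_lit 32768) (.ev (nat_lit 1501) (nat_lit 16777216) .dd)))) (.br (nat_lit 11) (.ch
 (nat_lit 10) (.ev (nat_lit 1540) (nat_lit 32768) (.ev (nat_lit 1549) (nat_lit 16777216) .dd))) (.ch (nat_lit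
 11) (.fin (nat_lit 576461302059713087))))))))) (.ch (nat_lit 9) (.ev (nat_lit 1184) (nat_lit 34393295104) (.nd
 (nat_lit 1472) (.br (nat_lit 8) (.br (nat_lit 3) (.ch (nat_lit 0) (.ev (nat_lit 1488) (nat_lit 524288) (.ev
 (nat_lit 1540) (nat_lit 32768) (.ev (nat_lit 2064) (nat_lit 1073741824) (.ev (nat_lit 2077) (nat_lit 16777216)
 .dd))))) (.br (nat_lit 5) (.ch (nat_lit 3) (.ev (nat_lit 1488) (nat_lit 1091076096) .dd)) (.ch (nat_lit 5)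
 (.ev (nat_lit 1488) (nat_lit 16777216) (.ev (nat_lit 1552) (nat_lit 32768) (.fin (nat_lit
 576443709862134323))))))) (.br (nat_lit 9) (.ch (nat_lit 8) (.ev (nat_lit 1488) (nat_lit 1074298880) (.ev
 (nat_lit 1501) (nat_lit 16777216) .dd))) (.br (nat_lit 10) (.ch (nat_lit 9) (.ev (nat_lit 1488) (nat_lit
 557056) (.ev (nat_lit 1636) (nat_lit 16777216) (.ev (nat_lit 1645) (nat_lit 1073741824) .dd)))) (.ch (nat_lit
 10) (.ev (nat_lit 1488) (nat_lit 524288) (.ev (nat_lit 1540) (nat_lit 1073741824) (.ev (nat_lit 1636) (nat_lit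
 32768) (.ev (nat_lit 1645) (nat_lit 16777216) .dd)))))))))))) (.br (nat_lit 12) (.ch (nat_lit 10) (.ev
 (nat_lit 1184) (nat_lit 1090519040) (.nd (nat_lit 1472) (.br (nat_lit 6) (.br (nat_lit 3) (.ch (nat_lit 2)
 (.ev (nat_lit 1488) (nat_lit 34360264704) (.ev (nat_lit 1540) (nat_lit 33554432) (.ev (nat_lit 1568) (nat_lit
 256) (.ev (nat_lit 1581) (nat_lit 32768) .dd))))) (.br (nat_lit 5) (.ch (nat_lit 3) (.ev (nat_lit 1488)
 (nat_lit 34360264704) (.ev (nat_lit 1780) (nat_lit 33554432) (.ev (nat_lit 2084) (nat_lit 256) (.ev (nat_lit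
 2093) (nat_lit 32768) .dd))))) (.ch (nat_lit 5) (.ev (nat_lit 1488) (nat_lit 2304) (.ev (nat_lit 1540)
 (nat_lit 33587200) (.ev (nat_lit 1780) (nat_lit 524288) (.ev (nat_lit 1789) (nat_lit 34359738368) .dd)))))))
 (.br (nat_lit 9) (.ch (nat_lit 6) (.ev (nat_lit 1488) (nat_lit 34360297728) (.ev (nat_lit 1501) (nat_lit
 33554432) .dd))) (.br (nat_lit 12) (.ch (nat_lit 9) (.ev (nat_lit 1488) (nat_lit 34393849856) (.ev (nat_lit
 2004) (nat_lit 256) (.ev (nat_lit 2013) (nat_lit 2048) .dd)))) (.ch (nat_lit 12) (.ev (nat_lit 1488) (nat_lit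
 34081024) (.ev (nat_lit 1540) (nat_lit 34359738368) (.ev (nat_lit 1549) (nat_lit 32768) .dd)))))))))) (.ch
 (nat_lit 12) (.ev (nat_lit 1184) (nat_lit 35434006528) (.nd (nat_lit 1472) (.br (nat_lit 8) (.br (nat_lit 4)
 (.ch (nat_lit 1) (.ev (nat_lit 1540) (nat_lit 50364416) (.ev (nat_lit 1549) (nat_lit 256) .dd))) (.br (nat_lit
 7) (.ch (nat_lit 4) (.ev (nat_lit 1488) (nat_lit 33024) (.ev (nat_lit 1552) (nat_lit 16777216) (.ev (nat_lit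
 1565) (nat_lit 33554432) .dd)))) (.ch (nat_lit 7) (.ev (nat_lit 1488) (nat_lit 33554688) (.ev (nat_lit 2196)
 (nat_lit 32768) (.ev (nat_lit 2205) (nat_lit 16777216) .dd)))))) (.br (nat_lit 9) (.ch (nat_lit 8) (.ev
 (nat_lit 1488) (nat_lit 50364416) (.ev (nat_lit 1501) (nat_lit 256) .dd))) (.br (nat_lit 11) (.ch (nat_lit 9)
 (.ev (nat_lit 1488) (nat_lit 50331904) (.ev (nat_lit 1501) (nat_lit 32768) .dd))) (.ch (nat_lit 11) (.ev
 (nat_lit 1488) (nat_lit 50364416) (.ev (nat_lit 1501) (nat_lit 256) .dd)))))))))))))))))) (.ch (nat_lit 43)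
 (.ev (nat_lit 52) (nat_lit 68192512) (.ev (nat_lit 116) (nat_lit 262144) (.ev (nat_lit 276) (nat_lit 16) (.ev
 (nat_lit 372) (nat_lit 2) (.ev (nat_lit 500) (nat_lit 2097152) (.ev (nat_lit 596) (nat_lit 524288) (.nd
 (nat_lit 1168) (.br (nat_lit 9) (.br (nat_lit 6) (.ch (nat_lit 5) (.ev (nat_lit 1184) (nat_lit 35437813760)
 (.nd (nat_lit 1472) (.br (nat_lit 4) (.br (nat_lit 3) (.ch (nat_lit 2) (.ev (nat_lit 1488) (nat_lit 33554432)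
 (.ev (nat_lit 1780) (nat_lit 65536) (.ev (nat_lit 1789) (nat_lit 16777216) .dd)))) (.ch (nat_lit 3) (.ev
 (nat_lit 1488) (nat_lit 16842752) (.ev (nat_lit 1501) (nat_lit 33554432) .dd)))) (.br (nat_lit 10) (.ch
 (nat_lit 4) (.ev (nat_lit 1488) (nat_lit 50331648) (.ev (nat_lit 1501) (nat_lit 65536) .dd))) (.br (nat_lit
 12) (.ch (nat_lit 10) (.ev (nat_lit 1488) (nat_lit 16842752) (.ev (nat_lit 1501) (nat_lit 33554432) .dd)))
 (.ch (nat_lit 12) (.ev (nat_lit 1488) (nat_lit 16842752) (.ev (nat_lit 1501) (nat_lit 33554432) .dd)))))))))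
 (.ch (nat_lit 6) (.ev (nat_lit 1184) (nat_lit 1124139008) (.nd (nat_lit 1472) (.br (nat_lit 6) (.br (nat_lit
 4) (.ch (nat_lit 1) (.ev (nat_lit 1488) (nat_lit 34364071936) .dd)) (.ch (nat_lit 4) (.ev (nat_lit 1488)
 (nat_lit 4202496) (.ev (nat_lit 1860) (nat_lit 131072) (.ev (nat_lit 1869) (nat_lit 34359738368) .dd))))) (.br
 (nat_lit 7) (.ch (nat_lit 6) (.ev (nat_lit 1488) (nat_lit 34359746560) (.ev (nat_lit 1728) (nat_lit 4194304)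
 (.ev (nat_lit 1741) (nat_lit 131072) .dd)))) (.br (nat_lit 10) (.ch (nat_lit 7) (.ev (nat_lit 1488) (nat_lit
 4325376) (.ev (nat_lit 1540) (nat_lit 8192) (.ev (nat_lit 1549) (nat_lit 34359738368) .dd)))) (.ch (nat_lit
 10) (.ev (nat_lit 1488) (nat_lit 34364063744) (.ev (nat_lit 1501) (nat_lit 8192) .dd)))))))))) (.br (nat_lit
 10) (.ch (nat_lit 9) (.ev (nat_lit 1184) (nat_lit 34380914688) (.nd (nat_lit 1472) (.br (nat_lit 9) (.br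
 (nat_lit 8) (.ch (nat_lit 3) (.ev (nat_lit 1488) (nat_lit 1107296256) .dd)) (.ch (nat_lit 8) (.ev (nat_lit
 1648) (nat_lit 1073741824) (.ev (nat_lit 1661) (nat_lit 33554432) .dd)))) (.br (nat_lit 11) (.ch (nat_lit 9)
 (.ev (nat_lit 1488) (nat_lit 1073741824) (.ev (nat_lit 1501) (nat_lit 33554432) .dd))) (.br (nat_lit 12) (.ch
 (nat_lit 11) (.ev (nat_lit 1488) (nat_lit 1073741824) (.ev (nat_lit 1501) (nat_lit 33554432) .dd))) (.ch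
 (nat_lit 12) (.ev (nat_lit 1488) (nat_lit 1107296256) .dd)))))))) (.br (nat_lit 12) (.ch (nat_lit 10) (.ev
 (nat_lit 1184) (nat_lit 1124139008) (.nd (nat_lit 1472) (.br (nat_lit 6) (.br (nat_lit 3) (.ch (nat_lit 0)
 (.ev (nat_lit 1488) (nat_lit 34359869440) (.ev (nat_lit 1636) (nat_lit 4194304) (.ev (nat_lit 1645) (nat_lit
 8192) .dd)))) (.br (nat_lit 5) (.ch (nat_lit 3) (.ev (nat_lit 1488) (nat_lit 34364071936) .dd)) (.ch (nat_lit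
 5) (.ev (nat_lit 1488) (nat_lit 4202496) (.ev (nat_lit 1728) (nat_lit 34359869440) .dd))))) (.br (nat_lit 8)
 (.ch (nat_lit 6) (.ev (nat_lit 1488) (nat_lit 34359869440) (.ev (nat_lit 1540) (nat_lit 8192) (.ev (nat_lit
 1549) (nat_lit 4194304) .dd)))) (.br (nat_lit 9) (.ch (nat_lit 8) (.ev (nat_lit 1488) (nat_lit 34364071936)
 .dd)) (.ch (nat_lit 9) (.ev (nat_lit 1488) (nat_lit 34359877632) (.ev (nat_lit 1501) (nat_lit 4194304)
 .dd))))))))) (.ch (nat_lit 12) (.ev (nat_lit 1184) (nat_lit 65536) (.nd (nat_lit 1472) (.br (nat_lit 9) (.br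
 (nat_lit 4) (.ch (nat_lit 1) (.ev (nat_lit 1488) (nat_lit 34364071936) (.ev (nat_lit 1540) (nat_lit 16777216)
 (.fin (nat_lit 576478894245757491))))) (.ch (nat_lit 4) (.ev (nat_lit 1488) (nat_lit 35450265600) (.ev
 (nat_lit 1728) (nat_lit 131072) (.fin (nat_lit 576470098174755393)))))) (.br (nat_lit 10) (.ch (nat_lit 9)
 (.ev (nat_lit 1488) (nat_lit 1094721536) (.ev (nat_lit 1636) (nat_lit 33554432) (.ev (nat_lit 1780) (nat_lit
 131072) (.ev (nat_lit 1789) (nat_lit 34359738368) .dd))))) (.br (nat_lit 12) (.ch (nat_lit 10) (.ev (nat_lit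
 1488) (nat_lit 37879808) (.ev (nat_lit 1568) (nat_lit 1073741824) (.ev (nat_lit 1636) (nat_lit 16777216) (.ev
 (nat_lit 1780) (nat_lit 8192) (.ev (nat_lit 1789) (nat_lit 34359738368) .dd)))))) (.ch (nat_lit 12) (.ev
 (nat_lit 1488) (nat_lit 34364071936) (.ev (nat_lit 1728) (nat_lit 1073741824) (.ev (nat_lit 1968) (nat_lit
 50331648) .dd)))))))))))))))))))))) (.br (nat_lit 46) (.ch (nat_lit 44) (.ev (nat_lit 52) (nat_lit 2097410)
 (.ev (nat_lit 212) (nat_lit 8192) (.ev (nat_lit 596) (nat_lit 16) (.ev (nat_lit 1044) (nat_lit 33554432) (.nd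
 (nat_lit 1168) (.br (nat_lit 6) (.br (nat_lit 1) (.ch (nat_lit 0) (.ev (nat_lit 1184) (nat_lit 34380873728)
 (.nd (nat_lit 1472) (.br (nat_lit 8) (.br (nat_lit 7) (.ch (nat_lit 4) (.ev (nat_lit 1488) (nat_lit
 1142753280) .dd)) (.ch (nat_lit 7) (.ev (nat_lit 1488) (nat_lit 1837056) (.ev (nat_lit 1540) (nat_lit 65536)
 (.ev (nat_lit 1808) (nat_lit 67108864) (.ev (nat_lit 1821) (nat_lit 1073741824) .dd)))))) (.br (nat_lit 10)
 (.ch (nat_lit 8) (.ev (nat_lit 1488) (nat_lit 1073741824) (.ev (nat_lit 1540) (nat_lit 1048576) (.ev (nat_lit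
 2052) (nat_lit 65536) (.nd (nat_lit 3168) (.br (nat_lit 5) (.ch (nat_lit 3) (.ev (nat_lit 3184) (nat_lit
 788480) (.ev (nat_lit 3197) (nat_lit 67108864) .dd))) (.br (nat_lit 11) (.ch (nat_lit 5) (.ev (nat_lit 3184)
 (nat_lit 526336) (.fin (nat_lit 576448107901305398)))) (.ch (nat_lit 11) (.ev (nat_lit 3184) (nat_lit
 67371008) (.fin (nat_lit 576412923558576642))))))))))) (.br (nat_lit 12) (.ch (nat_lit 10) (.ev (nat_lit 1488)
 (nat_lit 1074792448) (.ev (nat_lit 1780) (nat_lit 67371008) (.ev (nat_lit 1940) (nat_lit 65536) (.ev (nat_lit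
 1949) (nat_lit 524288) .dd))))) (.ch (nat_lit 12) (.ev (nat_lit 1488) (nat_lit 1140918272) (.ev (nat_lit 2436)
 (nat_lit 524288) (.nd (nat_lit 3168) (.br (nat_lit 11) (.ch (nat_lit 0) (.ev (nat_lit 3184) (nat_lit 1310720)
 .dd)) (.ch (nat_lit 11) (.fin (nat_lit 576501983983649358)))))))))))))) (.br (nat_lit 2) (.ch (nat_lit 1) (.ev
 (nat_lit 1184) (nat_lit 1096581120) (.nd (nat_lit 1472) (.br (nat_lit 8) (.br (nat_lit 2) (.ch (nat_lit 0)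
 (.ev (nat_lit 1488) (nat_lit 34426914816) (.ev (nat_lit 1501) (nat_lit 131072) .dd))) (.br (nat_lit 3) (.ch
 (nat_lit 2) (.ev (nat_lit 1488) (nat_lit 34359740416) (.ev (nat_lit 1540) (nat_lit 65536) (.ev (nat_lit 1636)
 (nat_lit 131072) (.ev (nat_lit 1645) (nat_lit 67108864) .dd))))) (.ch (nat_lit 3) (.ev (nat_lit 1488) (nat_lit
 131072) (.ev (nat_lit 1904) (nat_lit 2048) (.ev (nat_lit 2640) (nat_lit 34426847232) (.ev (nat_lit 2653)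
 (nat_lit 65536) .dd))))))) (.br (nat_lit 10) (.ch (nat_lit 8) (.ev (nat_lit 1488) (nat_lit 34359803904) (.ev
 (nat_lit 1716) (nat_lit 131072) (.ev (nat_lit 1780) (nat_lit 2048) (.ev (nat_lit 1789) (nat_lit 67108864)
 .dd))))) (.br (nat_lit 12) (.ch (nat_lit 10) (.ev (nat_lit 1488) (nat_lit 2048) (.ev (nat_lit 1540) (nat_lit
 131072) (.ev (nat_lit 2052) (nat_lit 65536) (.ev (nat_lit 2736) (nat_lit 34426847232) .dd))))) (.ch (nat_lit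
 12) (.ev (nat_lit 1488) (nat_lit 131072) (.ev (nat_lit 1540) (nat_lit 65536) (.ev (nat_lit 1716) (nat_lit
 67108864) (.fin (nat_lit 576478894231077478)))))))))))) (.ch (nat_lit 2) (.ev (nat_lit 1184) (nat_lit
 35434102784) (.nd (nat_lit 1472) (.br (nat_lit 6) (.br (nat_lit 4) (.ch (nat_lit 0) (.ev (nat_lit 1488)
 (nat_lit 84279296) (.ev (nat_lit 1540) (nat_lit 1048576) (.ev (nat_lit 1716) (nat_lit 2048) (.ev (nat_lit
 1725) (nat_lit 4194304) .dd))))) (.br (nat_lit 5) (.ch (nat_lit 4) (.ev (nat_lit 1488) (nat_lit 72351744) (.ev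
 (nat_lit 1636) (nat_lit 262144) (.ev (nat_lit 1780) (nat_lit 131072) (.nd (nat_lit 3168) (.br (nat_lit 10)
 (.ch (nat_lit 9) (.ev (nat_lit 3184) (nat_lit 2048) (.ev (nat_lit 3197) (nat_lit 16777216) .dd))) (.ch
 (nat_lit 10) (.fin (nat_lit 576430515593626322))))))))) (.ch (nat_lit 5) (.ev (nat_lit 1488) (nat_lit
 68419584) (.ev (nat_lit 1716) (nat_lit 2048) (.ev (nat_lit 1860) (nat_lit 4194304) (.ev (nat_lit 1940)
 (nat_lit 16777216) (.ev (nat_lit 1949) (nat_lit 131072) .dd)))))))) (.br (nat_lit 10) (.ch (nat_lit 6) (.ev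
 (nat_lit 1488) (nat_lit 84281344) (.ev (nat_lit 1636) (nat_lit 4194304) (.ev (nat_lit 1645) (nat_lit 1048576)
 .dd)))) (.br (nat_lit 11) (.ch (nat_lit 10) (.ev (nat_lit 1488) (nat_lit 2048) (.ev (nat_lit 1860) (nat_lit
 262144) (.ev (nat_lit 2148) (nat_lit 16777216) (.nd (nat_lit 3168) (.br (nat_lit 4) (.ch (nat_lit 2) (.ev
 (nat_lit 3184) (nat_lit 1179648) (.fin (nat_lit 576450306966504009)))) (.br (nat_lit 7) (.ch (nat_lit 4) (.ev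
 (nat_lit 3184) (nat_lit 71303168) (.fin (nat_lit 576454704980509249)))) (.ch (nat_lit 7) (.ev (nat_lit 3184)
 (nat_lit 72482816) .dd))))))))) (.ch (nat_lit 11) (.ev (nat_lit 1488) (nat_lit 16910336) (.ev (nat_lit 1584)
 (nat_lit 262144) (.ev (nat_lit 1636) (nat_lit 67108864) (.ev (nat_lit 1664) (nat_lit 5242880) .dd)))))))))))))
 (.br (nat_lit 9) (.ch (nat_lit 6) (.ev (nat_lit 1184) (nat_lit 35456354304) (.nd (nat_lit 1472) (.br (nat_lit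
 4) (.br (nat_lit 3) (.ch (nat_lit 1) (.ev (nat_lit 1488) (nat_lit 67239936) (.ev (nat_lit 1501) (nat_lit
 32768) .dd))) (.ch (nat_lit 3) (.ev (nat_lit 1488) (nat_lit 32768) (.ev (nat_lit 1540) (nat_lit 131072) (.ev
 (nat_lit 1549) (nat_lit 67108864) .dd))))) (.br (nat_lit 9) (.ch (nat_lit 4) (.ev (nat_lit 1488) (nat_lit
 32768) (.ev (nat_lit 1504) (nat_lit 131072) (.ev (nat_lit 1517) (nat_lit 67108864) .dd)))) (.br (nat_lit 11)
 (.ch (nat_lit 9) (.ev (nat_lit 1616) (nat_lit 32768) (.ev (nat_lit 1636) (nat_lit 67108864) (.ev (nat_lit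
 1645) (nat_lit 131072) .dd)))) (.ch (nat_lit 11) (.ev (nat_lit 1636) (nat_lit 131072) (.ev (nat_lit 1716)
 (nat_lit 32768) (.ev (nat_lit 1725) (nat_lit 67108864) .dd)))))))))) (.br (nat_lit 12) (.ch (nat_lit 9) (.ev
 (nat_lit 1184) (nat_lit 34431764480) (.nd (nat_lit 1472) (.br (nat_lit 9) (.br (nat_lit 5) (.ch (nat_lit 0)
 (.ev (nat_lit 1488) (nat_lit 17825792) (.ev (nat_lit 1636) (nat_lit 262144) (.ev (nat_lit 1716) (nat_lit
 1073741824) (.ev (nat_lit 1725) (nat_lit 32768) .dd))))) (.br (nat_lit 6) (.ch (nat_lit 5) (.ev (nat_lit 1488)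
 (nat_lit 17039360) (.ev (nat_lit 1540) (nat_lit 1073774592) (.ev (nat_lit 1549) (nat_lit 1048576) .dd)))) (.ch
 (nat_lit 6) (.ev (nat_lit 1488) (nat_lit 1091862528) .dd)))) (.br (nat_lit 11) (.br (nat_lit 10) (.ch (nat_lit
 9) (.ev (nat_lit 1488) (nat_lit 17039360) (.ev (nat_lit 1636) (nat_lit 1073741824) (.ev (nat_lit 1744)
 (nat_lit 1048576) (.ev (nat_lit 1757) (nat_lit 32768) .dd))))) (.ch (nat_lit 10) (.ev (nat_lit 1488) (nat_lit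
 1074036736) (.ev (nat_lit 1552) (nat_lit 1048576) (.ev (nat_lit 1565) (nat_lit 16777216) .dd))))) (.br
 (nat_lit 12) (.ch (nat_lit 11) (.ev (nat_lit 1488) (nat_lit 1074823168) (.ev (nat_lit 1636) (nat_lit 16777216)
 (.ev (nat_lit 1645) (nat_lit 262144) .dd)))) (.ch (nat_lit 12) (.ev (nat_lit 1488) (nat_lit 1074823168) (.ev
 (nat_lit 2004) (nat_lit 16777216) (.ev (nat_lit 2013) (nat_lit 262144) .dd)))))))))) (.ch (nat_lit 12) (.ev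
 (nat_lit 1184) (nat_lit 34361673728) (.nd (nat_lit 1472) (.br (nat_lit 8) (.br (nat_lit 7) (.ch (nat_lit 1)
 (.ev (nat_lit 1488) (nat_lit 1077936128) (.ev (nat_lit 1568) (nat_lit 16777216) (.ev (nat_lit 1648) (nat_lit
 67239936) .dd)))) (.ch (nat_lit 7) (.ev (nat_lit 1488) (nat_lit 1157627904) (.ev (nat_lit 1540) (nat_lit
 131072) (.ev (nat_lit 1549) (nat_lit 4194304) .dd))))) (.br (nat_lit 10) (.ch (nat_lit 8) (.ev (nat_lit 1488)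
 (nat_lit 88080384) (.ev (nat_lit 1636) (nat_lit 1073741824) (.ev (nat_lit 1645) (nat_lit 131072) .dd)))) (.br
 (nat_lit 11) (.ch (nat_lit 10) (.ev (nat_lit 1488) (nat_lit 4325376) (.ev (nat_lit 1600) (nat_lit 67108864)
 (.fin (nat_lit 576466799638823474))))) (.ch (nat_lit 11) (.ev (nat_lit 1488) (nat_lit 21102592) (.ev (nat_lit
 1504) (nat_lit 1140850688) .dd)))))))))))))))))) (.ch (nat_lit 46) (.ev (nat_lit 52) (nat_lit 35453403392)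
 (.ev (nat_lit 276) (nat_lit 65536) (.ev (nat_lit 340) (nat_lit 524288) (.ev (nat_lit 788) (nat_lit 67108864)
 (.ev (nat_lit 820) (nat_lit 10240) (.nd (nat_lit 1168) (.br (nat_lit 4) (.br (nat_lit 1) (.ch (nat_lit 0) (.ev
 (nat_lit 1184) (nat_lit 4358160) (.nd (nat_lit 1472) (.br (nat_lit 6) (.br (nat_lit 4) (.ch (nat_lit 2) (.ev
 (nat_lit 1540) (nat_lit 33554432) (.ev (nat_lit 1636) (nat_lit 262144) (.ev (nat_lit 1645) (nat_lit 2) .dd))))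
 (.ch (nat_lit 4) (.ev (nat_lit 1488) (nat_lit 33816578) .dd))) (.br (nat_lit 8) (.ch (nat_lit 6) (.ev (nat_lit
 1488) (nat_lit 33816576) (.ev (nat_lit 1501) (nat_lit 2) .dd))) (.br (nat_lit 10) (.ch (nat_lit 8) (.ev
 (nat_lit 1488) (nat_lit 262146) (.ev (nat_lit 1501) (nat_lit 33554432) .dd))) (.ch (nat_lit 10) (.ev (nat_lit
 1488) (nat_lit 33554432) (.ev (nat_lit 1716) (nat_lit 262144) (.ev (nat_lit 1725) (nat_lit 2) .dd))))))))))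
 (.ch (nat_lit 1) (.ev (nat_lit 1184) (nat_lit 4620306) (.ev (nat_lit 1197) (nat_lit 33554432) .dd)))) (.br
 (nat_lit 6) (.ch (nat_lit 4) (.ev (nat_lit 1184) (nat_lit 4358146) (.nd (nat_lit 1472) (.br (nat_lit 8) (.br
 (nat_lit 6) (.ch (nat_lit 5) (.ev (nat_lit 1488) (nat_lit 33816576) (.ev (nat_lit 1501) (nat_lit 16) .dd)))
 (.ch (nat_lit 6) (.ev (nat_lit 1636) (nat_lit 262144) (.ev (nat_lit 1696) (nat_lit 33554432) (.ev (nat_lit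
 1709) (nat_lit 16) .dd))))) (.br (nat_lit 9) (.ch (nat_lit 8) (.ev (nat_lit 1488) (nat_lit 33554448) (.ev
 (nat_lit 1501) (nat_lit 262144) .dd))) (.br (nat_lit 12) (.ch (nat_lit 9) (.ev (nat_lit 1728) (nat_lit 262144)
 (.ev (nat_lit 1840) (nat_lit 33554448) .dd))) (.ch (nat_lit 12) (.ev (nat_lit 1488) (nat_lit 262160) (.ev
 (nat_lit 1501) (nat_lit 33554432) .dd))))))))) (.br (nat_lit 12) (.ch (nat_lit 6) (.ev (nat_lit 1184) (nat_lit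
 33849360) (.ev (nat_lit 1270) (nat_lit 2) (.nd (nat_lit 1472) (.br (nat_lit 6) (.br (nat_lit 4) (.ch (nat_lit
 3) (.ev (nat_lit 1504) (nat_lit 131072) (.ev (nat_lit 1517) (nat_lit 4194304) .dd))) (.ch (nat_lit 4) (.ev
 (nat_lit 1488) (nat_lit 4194304) (.ev (nat_lit 1501) (nat_lit 131072) .dd)))) (.br (nat_lit 9) (.ch (nat_lit
 6) (.ev (nat_lit 1716) (nat_lit 131072) (.ev (nat_lit 1725) (nat_lit 4194304) .dd))) (.br (nat_lit 11) (.ch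
 (nat_lit 9) (.ev (nat_lit 1488) (nat_lit 4325376) .dd)) (.ch (nat_lit 11) (.ev (nat_lit 1488) (nat_lit 131072)
 (.ev (nat_lit 1501) (nat_lit 4194304) .dd)))))))))) (.ch (nat_lit 12) (.ev (nat_lit 1184) (nat_lit 33816576)
 (.nd (nat_lit 1472) (.br (nat_lit 8) (.br (nat_lit 4) (.ch (nat_lit 0) (.ev (nat_lit 1488) (nat_lit 163856)
 (.ev (nat_lit 1780) (nat_lit 2) (.ev (nat_lit 1789) (nat_lit 4194304) .dd)))) (.ch (nat_lit 4) (.ev (nat_lit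
 1488) (nat_lit 4358160) (.ev (nat_lit 1501) (nat_lit 2) .dd)))) (.br (nat_lit 9) (.ch (nat_lit 8) (.ev
 (nat_lit 1488) (nat_lit 4227088) (.ev (nat_lit 1780) (nat_lit 2) (.ev (nat_lit 1789) (nat_lit 131072) .dd))))
 (.br (nat_lit 12) (.ch (nat_lit 9) (.ev (nat_lit 1488) (nat_lit 4194306) (.ev (nat_lit 1540) (nat_lit 131088)
 (.ev (nat_lit 1549) (nat_lit 32768) .dd)))) (.ch (nat_lit 12) (.ev (nat_lit 1488) (nat_lit 163842) (.fin
 (nat_lit 576439311843934762)))))))))))))))))))))) (.br (nat_lit 49) (.br (nat_lit 48) (.ch (nat_lit 47) (.ev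
 (nat_lit 52) (nat_lit 117704960) (.ev (nat_lit 372) (nat_lit 1048576) (.ev (nat_lit 404) (nat_lit 131072) (.ev
 (nat_lit 640) (nat_lit 35440402450) .dd))))) (.ch (nat_lit 48) (.ev (nat_lit 52) (nat_lit 1107460368) (.ev
 (nat_lit 404) (nat_lit 4194304) (.ev (nat_lit 468) (nat_lit 67108864) (.ev (nat_lit 628) (nat_lit 8192) (.ev
 (nat_lit 692) (nat_lit 34359738368) (.nd (nat_lit 1168) (.br (nat_lit 6) (.br (nat_lit 4) (.ch (nat_lit 0)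
 (.ev (nat_lit 1184) (nat_lit 17367040) (.nd (nat_lit 1472) (.br (nat_lit 5) (.br (nat_lit 4) (.ch (nat_lit 2)
 (.ev (nat_lit 1488) (nat_lit 2099200) (.ev (nat_lit 1540) (nat_lit 2) (.ev (nat_lit 1860) (nat_lit 1048576)
 (.ev (nat_lit 1869) (nat_lit 262144) .dd))))) (.ch (nat_lit 4) (.ev (nat_lit 1488) (nat_lit 2097152) (.ev
 (nat_lit 1540) (nat_lit 2) (.ev (nat_lit 1760) (nat_lit 262144) (.ev (nat_lit 1888) (nat_lit 1048576) (.ev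
 (nat_lit 1901) (nat_lit 2048) .dd))))))) (.br (nat_lit 6) (.ch (nat_lit 5) (.ev (nat_lit 1488) (nat_lit
 3407872) (.nd (nat_lit 3168) (.br (nat_lit 4) (.ch (nat_lit 1) (.ev (nat_lit 3184) (nat_lit 2050) .dd)) (.ch
 (nat_lit 4) (.fin (nat_lit 576465700107272739))))))) (.br (nat_lit 12) (.ch (nat_lit 6) (.ev (nat_lit 1488)
 (nat_lit 3407874) (.ev (nat_lit 1501) (nat_lit 2048) .dd))) (.ch (nat_lit 12) (.ev (nat_lit 1488) (nat_lit
 2050) (.ev (nat_lit 1940) (nat_lit 2097152) (.nd (nat_lit 3168) (.br (nat_lit 10) (.ch (nat_lit 1) (.ev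
 (nat_lit 3184) (nat_lit 262144) (.ev (nat_lit 3197) (nat_lit 1048576) .dd))) (.br (nat_lit 11) (.ch (nat_lit
 10) (.ev (nat_lit 3184) (nat_lit 1310720) .dd)) (.ch (nat_lit 11) (.fin (nat_lit
 576420620137873970))))))))))))))) (.br (nat_lit 5) (.ch (nat_lit 4) (.ev (nat_lit 1184) (nat_lit 3997696) (.nd
 (nat_lit 1472) (.br (nat_lit 6) (.br (nat_lit 3) (.ch (nat_lit 0) (.ev (nat_lit 1488) (nat_lit 16779266) .dd))
 (.br (nat_lit 4) (.ch (nat_lit 3) (.ev (nat_lit 1488) (nat_lit 16777216) (.ev (nat_lit 1792) (nat_lit 2) (.ev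
 (nat_lit 1805) (nat_lit 2048) .dd)))) (.ch (nat_lit 4) (.ev (nat_lit 1636) (nat_lit 2) (.ev (nat_lit 1860)
 (nat_lit 16777216) (.ev (nat_lit 1869) (nat_lit 2048) .dd)))))) (.br (nat_lit 11) (.br (nat_lit 8) (.ch
 (nat_lit 6) (.ev (nat_lit 1488) (nat_lit 2) (.ev (nat_lit 1636) (nat_lit 2048) (.ev (nat_lit 1645) (nat_lit
 16777216) .dd)))) (.ch (nat_lit 8) (.ev (nat_lit 1488) (nat_lit 16779264) (.ev (nat_lit 1501) (nat_lit 2)
 .dd)))) (.br (nat_lit 12) (.ch (nat_lit 11) (.ev (nat_lit 1488) (nat_lit 2048) (.ev (nat_lit 1540) (nat_lit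
 16777216) (.ev (nat_lit 1549) (nat_lit 2) .dd)))) (.ch (nat_lit 12) (.ev (nat_lit 1488) (nat_lit 16779264)
 (.ev (nat_lit 1501) (nat_lit 2) .dd))))))))) (.ch (nat_lit 5) (.ev (nat_lit 1184) (nat_lit 16779266) (.nd
 (nat_lit 1472) (.br (nat_lit 9) (.br (nat_lit 4) (.ch (nat_lit 0) (.ev (nat_lit 1488) (nat_lit 786432) (.ev
 (nat_lit 1540) (nat_lit 1048576) (.fin (nat_lit 576487690313613910))))) (.br (nat_lit 8) (.ch (nat_lit 4) (.ev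
 (nat_lit 1488) (nat_lit 851968) (.ev (nat_lit 1888) (nat_lit 1048576) (.ev (nat_lit 1901) (nat_lit 2097152)
 .dd)))) (.ch (nat_lit 8) (.ev (nat_lit 1488) (nat_lit 2883584) (.ev (nat_lit 2724) (nat_lit 65536) (.ev
 (nat_lit 2733) (nat_lit 1048576) .dd)))))) (.br (nat_lit 10) (.ch (nat_lit 9) (.ev (nat_lit 1488) (nat_lit
 1048576) (.ev (nat_lit 1540) (nat_lit 262144) (.ev (nat_lit 1940) (nat_lit 524288) (.ev (nat_lit 2768)
 (nat_lit 65536) (.ev (nat_lit 2781) (nat_lit 2097152) .dd)))))) (.br (nat_lit 12) (.ch (nat_lit 10) (.ev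
 (nat_lit 1488) (nat_lit 3473408) (.ev (nat_lit 1501) (nat_lit 524288) .dd))) (.ch (nat_lit 12) (.ev (nat_lit
 1488) (nat_lit 3473408) (.ev (nat_lit 1501) (nat_lit 524288) .dd))))))))))) (.br (nat_lit 9) (.ch (nat_lit 6)
 (.ev (nat_lit 1184) (nat_lit 2426882) (.nd (nat_lit 1472) (.br (nat_lit 9) (.br (nat_lit 7) (.ch (nat_lit 6)
 (.ev (nat_lit 1488) (nat_lit 16777216) (.ev (nat_lit 1540) (nat_lit 524288) (.ev (nat_lit 1549) (nat_lit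
 1048576) .dd)))) (.ch (nat_lit 7) (.ev (nat_lit 1488) (nat_lit 16777216) (.fin (nat_lit
 576470098155881033))))) (.br (nat_lit 10) (.ch (nat_lit 9) (.ev (nat_lit 1488) (nat_lit 1572864) (.ev (nat_lit
 1501) (nat_lit 16777216) .dd))) (.br (nat_lit 11) (.ch (nat_lit 10) (.ev (nat_lit 1488) (nat_lit 16777216)
 (.ev (nat_lit 1664) (nat_lit 1572864) .dd))) (.ch (nat_lit 11) (.ev (nat_lit 1504) (nat_lit 524288) (.ev
 (nat_lit 1636) (nat_lit 1048576) (.ev (nat_lit 1645) (nat_lit 16777216) .dd)))))))))) (.br (nat_lit 10) (.ch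
 (nat_lit 9) (.ev (nat_lit 1184) (nat_lit 2426880) (.nd (nat_lit 1472) (.br (nat_lit 10) (.br (nat_lit 5) (.ch
 (nat_lit 3) (.ev (nat_lit 1488) (nat_lit 524290) (.ev (nat_lit 1540) (nat_lit 1048576) (.ev (nat_lit 1549)
 (nat_lit 16777216) .dd)))) (.ch (nat_lit 5) (.ev (nat_lit 1488) (nat_lit 17301506) (.ev (nat_lit 1501)
 (nat_lit 1048576) .dd)))) (.br (nat_lit 11) (.ch (nat_lit 10) (.ev (nat_lit 1488) (nat_lit 1048576) (.ev
 (nat_lit 1540) (nat_lit 17301504) (.ev (nat_lit 1549) (nat_lit 2) .dd)))) (.br (nat_lit 12) (.ch (nat_lit 11)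
 (.ev (nat_lit 1488) (nat_lit 16777218) (.ev (nat_lit 1648) (nat_lit 1572864) .dd))) (.ch (nat_lit 12) (.ev
 (nat_lit 1488) (nat_lit 17825794) (.ev (nat_lit 1501) (nat_lit 524288) .dd))))))))) (.ch (nat_lit 10) (.ev
 (nat_lit 1184) (nat_lit 17104898) (.nd (nat_lit 1472) (.br (nat_lit 7) (.br (nat_lit 3) (.ch (nat_lit 2) (.ev
 (nat_lit 1488) (nat_lit 3672064) .dd)) (.br (nat_lit 6) (.ch (nat_lit 3) (.ev (nat_lit 1488) (nat_lit 2623488)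
 (.ev (nat_lit 1501) (nat_lit 1048576) .dd))) (.ch (nat_lit 6) (.ev (nat_lit 1488) (nat_lit 1572864) (.fin
 (nat_lit 576448107907596860)))))) (.br (nat_lit 8) (.ch (nat_lit 7) (.ev (nat_lit 1488) (nat_lit 1048576) (.ev
 (nat_lit 1540) (nat_lit 2048) (.ev (nat_lit 1716) (nat_lit 524288) (.ev (nat_lit 1725) (nat_lit 2097152)
 .dd))))) (.br (nat_lit 12) (.ch (nat_lit 8) (.ev (nat_lit 1488) (nat_lit 2097152) (.ev (nat_lit 1540) (nat_lit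
 524288) (.ev (nat_lit 1780) (nat_lit 1048576) (.ev (nat_lit 1789) (nat_lit 2048) .dd))))) (.ch (nat_lit 12)
 (.ev (nat_lit 1488) (nat_lit 1050624) (.ev (nat_lit 1540) (nat_lit 524288) (.ev (nat_lit 1549) (nat_lit
 2097152) .dd))))))))))))))))))))) (.br (nat_lit 50) (.ch (nat_lit 49) (.ev (nat_lit 52) (nat_lit 70363392)
 (.ev (nat_lit 660) (nat_lit 16777216) (.nd (nat_lit 1168) (.br (nat_lit 9) (.br (nat_lit 1) (.ch (nat_lit 0)
 (.ev (nat_lit 1184) (nat_lit 35438329874) (.ev (nat_lit 1204) (nat_lit 33554432) (.ev (nat_lit 1213) (nat_lit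
 262144) .dd)))) (.br (nat_lit 4) (.ch (nat_lit 1) (.ev (nat_lit 1184) (nat_lit 917522) (.nd (nat_lit 1472)
 (.br (nat_lit 6) (.br (nat_lit 2) (.ch (nat_lit 0) (.ev (nat_lit 1488) (nat_lit 34397487104) (.ev (nat_lit
 1501) (nat_lit 1073741824) .dd))) (.br (nat_lit 3) (.ch (nat_lit 2) (.ev (nat_lit 1488) (nat_lit 35467034624)
 (.ev (nat_lit 1501) (nat_lit 4194304) .dd))) (.ch (nat_lit 3) (.ev (nat_lit 1540) (nat_lit 33554432) (.ev
 (nat_lit 2084) (nat_lit 1077936128) (.ev (nat_lit 2093) (nat_lit 34359738368) .dd)))))) (.br (nat_lit 9) (.ch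
 (nat_lit 6) (.ev (nat_lit 1488) (nat_lit 35467034624) (.ev (nat_lit 1501) (nat_lit 4194304) .dd))) (.br
 (nat_lit 10) (.ch (nat_lit 9) (.ev (nat_lit 1488) (nat_lit 35437674496) (.ev (nat_lit 1501) (nat_lit 33554432)
 .dd))) (.ch (nat_lit 10) (.ev (nat_lit 1488) (nat_lit 34393292800) (.fin (nat_lit 576463501093454375))))))))))
 (.ch (nat_lit 4) (.ev (nat_lit 1184) (nat_lit 34398142464) (.nd (nat_lit 1472) (.br (nat_lit 8) (.br (nat_lit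
 3) (.ch (nat_lit 0) (.ev (nat_lit 1488) (nat_lit 262146) (.ev (nat_lit 1540) (nat_lit 16) (.ev (nat_lit 1549)
 (nat_lit 1073741824) .dd)))) (.br (nat_lit 4) (.ch (nat_lit 3) (.ev (nat_lit 1488) (nat_lit 1074003984) (.ev
 (nat_lit 1501) (nat_lit 2) .dd))) (.ch (nat_lit 4) (.ev (nat_lit 1488) (nat_lit 1074003984) (.ev (nat_lit
 1501) (nat_lit 2) .dd))))) (.br (nat_lit 11) (.br (nat_lit 9) (.ch (nat_lit 8) (.ev (nat_lit 1488) (nat_lit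
 16) (.ev (nat_lit 1716) (nat_lit 2) (.fin (nat_lit 576459103014437439))))) (.ch (nat_lit 9) (.ev (nat_lit
 1488) (nat_lit 1073741824) (.ev (nat_lit 1636) (nat_lit 262144) (.ev (nat_lit 1860) (nat_lit 16) (.ev (nat_lit
 1869) (nat_lit 2) .dd)))))) (.br (nat_lit 12) (.ch (nat_lit 11) (.ev (nat_lit 1488) (nat_lit 1073741842) (.ev
 (nat_lit 1501) (nat_lit 262144) .dd))) (.ch (nat_lit 12) (.ev (nat_lit 1488) (nat_lit 1074003968) (.ev
 (nat_lit 1636) (nat_lit 2) (.ev (nat_lit 1645) (nat_lit 16) .dd)))))))))))) (.br (nat_lit 10) (.ch (nat_lit 9)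
 (.ev (nat_lit 1184) (nat_lit 34397880320) (.nd (nat_lit 1472) (.br (nat_lit 10) (.br (nat_lit 8) (.ch (nat_lit
 6) (.ev (nat_lit 1488) (nat_lit 1074266128) (.ev (nat_lit 1501) (nat_lit 2) .dd))) (.br (nat_lit 9) (.ch
 (nat_lit 8) (.ev (nat_lit 1636) (nat_lit 1073741824) (.ev (nat_lit 1680) (nat_lit 2) (.fin (nat_lit
 576474496182469210))))) (.ch (nat_lit 9) (.ev (nat_lit 1488) (nat_lit 524304) (.ev (nat_lit 1540) (nat_lit
 1073741824) (.ev (nat_lit 1549) (nat_lit 2) .dd)))))) (.br (nat_lit 11) (.ch (nat_lit 10) (.ev (nat_lit 1488)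
 (nat_lit 16) (.ev (nat_lit 1540) (nat_lit 1073741824) (.ev (nat_lit 1860) (nat_lit 524288) (.ev (nat_lit 1869)
 (nat_lit 2) .dd))))) (.br (nat_lit 12) (.ch (nat_lit 11) (.ev (nat_lit 1488) (nat_lit 1074266114) (.ev
 (nat_lit 1501) (nat_lit 16) .dd))) (.ch (nat_lit 12) (.ev (nat_lit 1488) (nat_lit 1074266130) .dd)))))))) (.br
 (nat_lit 12) (.ch (nat_lit 10) (.ev (nat_lit 1184) (nat_lit 1074003986) (.nd (nat_lit 1472) (.br (nat_lit 7)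
 (.br (nat_lit 2) (.ch (nat_lit 0) (.ev (nat_lit 1488) (nat_lit 34393948160) (.ev (nat_lit 1501) (nat_lit
 4194304) .dd))) (.br (nat_lit 5) (.ch (nat_lit 2) (.ev (nat_lit 1488) (nat_lit 34359869440) (.ev (nat_lit
 1540) (nat_lit 34078720) (.ev (nat_lit 1549) (nat_lit 4194304) .dd)))) (.ch (nat_lit 5) (.ev (nat_lit 1552)
 (nat_lit 4194304) (.ev (nat_lit 1716) (nat_lit 131072) (.ev (nat_lit 1780) (nat_lit 524288) (.ev (nat_lit
 1840) (nat_lit 34393292800) .dd))))))) (.br (nat_lit 8) (.ch (nat_lit 7) (.ev (nat_lit 1488) (nat_lit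
 38404096) (.ev (nat_lit 1501) (nat_lit 34359738368) .dd))) (.br (nat_lit 12) (.ch (nat_lit 8) (.ev (nat_lit
 1488) (nat_lit 34364456960) (.ev (nat_lit 1716) (nat_lit 33554432) (.ev (nat_lit 1725) (nat_lit 131072)
 .dd)))) (.ch (nat_lit 12) (.ev (nat_lit 1488) (nat_lit 37748736) (.ev (nat_lit 1540) (nat_lit 524288) (.ev
 (nat_lit 1636) (nat_lit 34359738368) (.ev (nat_lit 1645) (nat_lit 131072) .dd))))))))))) (.ch (nat_lit 12)
 (.ev (nat_lit 1184) (nat_lit 34209808) (.ev (nat_lit 1286) (nat_lit 1073741824) (.nd (nat_lit 1472) (.br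
 (nat_lit 9) (.br (nat_lit 7) (.ch (nat_lit 1) (.ev (nat_lit 1488) (nat_lit 2) (.ev (nat_lit 1540) (nat_lit
 262144) (.ev (nat_lit 1552) (nat_lit 34359738368) (.ev (nat_lit 1565) (nat_lit 4194304) .dd))))) (.br (nat_lit
 8) (.ch (nat_lit 7) (.ev (nat_lit 1488) (nat_lit 4194304) (.ev (nat_lit 1540) (nat_lit 262146) (.ev (nat_lit
 1549) (nat_lit 34359738368) .dd)))) (.ch (nat_lit 8) (.ev (nat_lit 1488) (nat_lit 34360000512) (.ev (nat_lit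
 1540) (nat_lit 2) (.ev (nat_lit 1549) (nat_lit 4194304) .dd)))))) (.br (nat_lit 11) (.br (nat_lit 10) (.ch
 (nat_lit 9) (.ev (nat_lit 1488) (nat_lit 4456450) (.ev (nat_lit 1501) (nat_lit 34359738368) .dd))) (.ch
 (nat_lit 10) (.ev (nat_lit 1488) (nat_lit 34363932674) (.ev (nat_lit 1501) (nat_lit 262144) .dd)))) (.br
 (nat_lit 12) (.ch (nat_lit 11) (.ev (nat_lit 1488) (nat_lit 34360000514) (.ev (nat_lit 1501) (nat_lit 4194304)
 .dd))) (.ch (nat_lit 12) (.ev (nat_lit 1488) (nat_lit 34364194816) (.ev (nat_lit 1501) (nat_lit 2)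
 .dd))))))))))))))))) (.br (nat_lit 52) (.ch (nat_lit 50) (.ev (nat_lit 52) (nat_lit 52592642) (.ev (nat_lit
 148) (nat_lit 67108864) (.ev (nat_lit 212) (nat_lit 2048) (.ev (nat_lit 532) (nat_lit 1048576) (.ev (nat_lit
 660) (nat_lit 65536) (.nd (nat_lit 1168) (.br (nat_lit 5) (.br (nat_lit 2) (.ch (nat_lit 0) (.ev (nat_lit
 1184) (nat_lit 35437682704) (.nd (nat_lit 1472) (.br (nat_lit 7) (.br (nat_lit 4) (.ch (nat_lit 0) (.ev
 (nat_lit 2324) (nat_lit 256) (.nd (nat_lit 3168) (.br (nat_lit 10) (.ch (nat_lit 5) (.fin (nat_lit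
 576463501093454427))) (.ch (nat_lit 10) (.ev (nat_lit 3184) (nat_lit 262144) (.ev (nat_lit 3197) (nat_lit
 524288) .dd))))))) (.br (nat_lit 5) (.ch (nat_lit 4) (.ev (nat_lit 1540) (nat_lit 262144) (.ev (nat_lit 1952)
 (nat_lit 524288) (.ev (nat_lit 1965) (nat_lit 256) .dd)))) (.ch (nat_lit 5) (.ev (nat_lit 1488) (nat_lit
 786432) (.ev (nat_lit 1501) (nat_lit 256) .dd))))) (.br (nat_lit 8) (.ch (nat_lit 7) (.ev (nat_lit 1488)
 (nat_lit 786432) (.ev (nat_lit 1501) (nat_lit 256) .dd))) (.br (nat_lit 10) (.ch (nat_lit 8) (.ev (nat_lit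
 1488) (nat_lit 256) (.ev (nat_lit 2004) (nat_lit 524288) (.ev (nat_lit 2013) (nat_lit 262144) .dd)))) (.ch
 (nat_lit 10) (.ev (nat_lit 1488) (nat_lit 786688) .dd)))))))) (.br (nat_lit 4) (.ch (nat_lit 2) (.ev (nat_lit
 1184) (nat_lit 35437682960) (.nd (nat_lit 1472) (.br (nat_lit 4) (.br (nat_lit 1) (.ch (nat_lit 0) (.ev
 (nat_lit 1488) (nat_lit 262144) (.ev (nat_lit 1501) (nat_lit 524288) .dd))) (.br (nat_lit 3) (.ch (nat_lit 1)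
 (.ev (nat_lit 1488) (nat_lit 524288) (.ev (nat_lit 1501) (nat_lit 262144) .dd))) (.ch (nat_lit 3) (.ev
 (nat_lit 1488) (nat_lit 262144) (.ev (nat_lit 1501) (nat_lit 524288) .dd))))) (.br (nat_lit 7) (.ch (nat_lit
 4) (.ev (nat_lit 1552) (nat_lit 262144) (.ev (nat_lit 1565) (nat_lit 524288) .dd))) (.br (nat_lit 11) (.ch
 (nat_lit 7) (.ev (nat_lit 1488) (nat_lit 262144) (.ev (nat_lit 1501) (nat_lit 524288) .dd))) (.ch (nat_lit 11)
 (.ev (nat_lit 1488) (nat_lit 524288) (.ev (nat_lit 1501) (nat_lit 262144) .dd))))))))) (.ch (nat_lit 4) (.ev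
 (nat_lit 1184) (nat_lit 34364457216) (.nd (nat_lit 1472) (.br (nat_lit 6) (.br (nat_lit 3) (.ch (nat_lit 0)
 (.ev (nat_lit 1488) (nat_lit 262160) (.ev (nat_lit 2084) (nat_lit 1073741824) (.ev (nat_lit 2093) (nat_lit
 8192) .dd)))) (.br (nat_lit 4) (.ch (nat_lit 3) (.ev (nat_lit 1488) (nat_lit 270352) (.ev (nat_lit 1501)
 (nat_lit 1073741824) .dd))) (.ch (nat_lit 4) (.ev (nat_lit 1488) (nat_lit 262160) (.ev (nat_lit 1636) (nat_lit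
 8192) (.ev (nat_lit 1645) (nat_lit 1073741824) .dd)))))) (.br (nat_lit 8) (.ch (nat_lit 6) (.ev (nat_lit 1488)
 (nat_lit 1073741824) (.ev (nat_lit 1636) (nat_lit 262160) (.ev (nat_lit 1645) (nat_lit 8192) .dd)))) (.br
 (nat_lit 11) (.ch (nat_lit 8) (.ev (nat_lit 1488) (nat_lit 8208) (.fin (nat_lit 576463501107085889)))) (.ch
 (nat_lit 11) (.ev (nat_lit 1488) (nat_lit 1074003984) (.ev (nat_lit 1501) (nat_lit 8192) .dd))))))))))) (.br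
 (nat_lit 6) (.ch (nat_lit 5) (.ev (nat_lit 1184) (nat_lit 35437936656) (.nd (nat_lit 1472) (.br (nat_lit 9)
 (.br (nat_lit 3) (.ch (nat_lit 2) (.ev (nat_lit 1488) (nat_lit 8192) (.ev (nat_lit 1840) (nat_lit 524288) (.ev
 (nat_lit 1853) (nat_lit 256) .dd)))) (.br (nat_lit 4) (.ch (nat_lit 3) (.ev (nat_lit 1488) (nat_lit 256) (.ev
 (nat_lit 2004) (nat_lit 524288) (.ev (nat_lit 2013) (nat_lit 8192) .dd)))) (.ch (nat_lit 4) (.ev (nat_lit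
 1488) (nat_lit 524288) (.ev (nat_lit 1504) (nat_lit 8192) (.ev (nat_lit 1517) (nat_lit 256) .dd)))))) (.br
 (nat_lit 11) (.ch (nat_lit 9) (.ev (nat_lit 1488) (nat_lit 8448) (.ev (nat_lit 1501) (nat_lit 524288) .dd)))
 (.br (nat_lit 12) (.ch (nat_lit 11) (.ev (nat_lit 1488) (nat_lit 8448) (.ev (nat_lit 1501) (nat_lit 524288)
 .dd))) (.ch (nat_lit 12) (.ev (nat_lit 1488) (nat_lit 8192) (.ev (nat_lit 2052) (nat_lit 524288) (.ev (nat_lit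
 2061) (nat_lit 256) .dd)))))))))) (.br (nat_lit 9) (.ch (nat_lit 6) (.ev (nat_lit 1184) (nat_lit 1073750272)
 (.nd (nat_lit 1472) (.br (nat_lit 6) (.br (nat_lit 3) (.ch (nat_lit 1) (.ev (nat_lit 1488) (nat_lit
 34360524800) (.ev (nat_lit 1636) (nat_lit 16) (.ev (nat_lit 1645) (nat_lit 4194304) .dd)))) (.br (nat_lit 4)
 (.ch (nat_lit 3) (.ev (nat_lit 1488) (nat_lit 4718608) (.ev (nat_lit 1716) (nat_lit 262144) (.ev (nat_lit
 1725) (nat_lit 34359738368) .dd)))) (.ch (nat_lit 4) (.ev (nat_lit 1488) (nat_lit 4456464) (.ev (nat_lit 1636)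
 (nat_lit 524288) (.ev (nat_lit 1645) (nat_lit 34359738368) .dd)))))) (.br (nat_lit 9) (.br (nat_lit 7) (.ch
 (nat_lit 6) (.ev (nat_lit 1488) (nat_lit 34359738368) (.ev (nat_lit 1540) (nat_lit 786432) (.ev (nat_lit 1716)
 (nat_lit 4194304) (.ev (nat_lit 1725) (nat_lit 16) .dd))))) (.ch (nat_lit 7) (.ev (nat_lit 1488) (nat_lit
 524304) (.ev (nat_lit 1636) (nat_lit 4456448) (.ev (nat_lit 1645) (nat_lit 34359738368) .dd))))) (.br (nat_lit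
 12) (.ch (nat_lit 9) (.ev (nat_lit 1488) (nat_lit 34364456960) (.ev (nat_lit 1952) (nat_lit 262144) (.ev
 (nat_lit 1965) (nat_lit 16) .dd)))) (.ch (nat_lit 12) (.ev (nat_lit 1488) (nat_lit 34363932688) (.ev (nat_lit
 1664) (nat_lit 524288) (.ev (nat_lit 1677) (nat_lit 262144) .dd)))))))))) (.ch (nat_lit 9) (.ev (nat_lit 1184)
 (nat_lit 34364195088) (.nd (nat_lit 1472) (.br (nat_lit 10) (.br (nat_lit 6) (.ch (nat_lit 3) (.ev (nat_lit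
 1488) (nat_lit 1074266112) (.ev (nat_lit 1501) (nat_lit 8192) .dd))) (.br (nat_lit 9) (.ch (nat_lit 6) (.ev
 (nat_lit 1488) (nat_lit 1073750016) (.ev (nat_lit 1501) (nat_lit 524288) .dd))) (.ch (nat_lit 9) (.ev (nat_lit
 1488) (nat_lit 1074266112) (.ev (nat_lit 1501) (nat_lit 8192) .dd))))) (.br (nat_lit 11) (.ch (nat_lit 10)
 (.ev (nat_lit 1488) (nat_lit 8192) (.ev (nat_lit 2148) (nat_lit 524288) (.ev (nat_lit 2157) (nat_lit
 1073741824) .dd)))) (.br (nat_lit 12) (.ch (nat_lit 11) (.ev (nat_lit 1488) (nat_lit 1074266112) (.ev (nat_lit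
 1501) (nat_lit 8192) .dd))) (.ch (nat_lit 12) (.ev (nat_lit 1488) (nat_lit 1073741824) (.ev (nat_lit 1780)
 (nat_lit 524288) (.ev (nat_lit 1789) (nat_lit 8192) .dd)))))))))))))))))))) (.ch (nat_lit 52) (.ev (nat_lit
 52) (nat_lit 295168) (.ev (nat_lit 436) (nat_lit 34359738368) (.ev (nat_lit 532) (nat_lit 8192) (.ev (nat_lit
 692) (nat_lit 33554432) (.ev (nat_lit 724) (nat_lit 2050) (.nd (nat_lit 1168) (.br (nat_lit 6) (.br (nat_lit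
 2) (.ch (nat_lit 1) (.ev (nat_lit 1184) (nat_lit 1096482832) (.nd (nat_lit 1472) (.br (nat_lit 9) (.br
 (nat_lit 3) (.ch (nat_lit 0) (.ev (nat_lit 1488) (nat_lit 67108864) (.ev (nat_lit 1501) (nat_lit 2097152)
 .dd))) (.br (nat_lit 8) (.ch (nat_lit 3) (.ev (nat_lit 1488) (nat_lit 2097152) (.ev (nat_lit 1501) (nat_lit
 67108864) .dd))) (.ch (nat_lit 8) (.ev (nat_lit 1780) (nat_lit 67108864) (.ev (nat_lit 1789) (nat_lit 2097152)
 .dd))))) (.br (nat_lit 10) (.ch (nat_lit 9) (.ev (nat_lit 1488) (nat_lit 67108864) (.ev (nat_lit 1501)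
 (nat_lit 2097152) .dd))) (.br (nat_lit 12) (.ch (nat_lit 10) (.ev (nat_lit 1488) (nat_lit 2097152) (.ev
 (nat_lit 1501) (nat_lit 67108864) .dd))) (.ch (nat_lit 12) (.ev (nat_lit 1488) (nat_lit 67108864) (.ev
 (nat_lit 1501) (nat_lit 2097152) .dd))))))))) (.br (nat_lit 4) (.ch (nat_lit 2) (.ev (nat_lit 1184) (nat_lit
 1075970064) (.nd (nat_lit 1472) (.br (nat_lit 6) (.br (nat_lit 3) (.ch (nat_lit 0) (.ev (nat_lit 1488)
 (nat_lit 88145920) (.ev (nat_lit 1780) (nat_lit 1048576) (.ev (nat_lit 1789) (nat_lit 524288) .dd)))) (.br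
 (nat_lit 5) (.ch (nat_lit 3) (.ev (nat_lit 1488) (nat_lit 83886080) (.ev (nat_lit 1728) (nat_lit 524288) (.ev
 (nat_lit 1744) (nat_lit 1048576) (.ev (nat_lit 1780) (nat_lit 65536) (.ev (nat_lit 1789) (nat_lit 4194304)
 .dd)))))) (.ch (nat_lit 5) (.ev (nat_lit 1488) (nat_lit 5767168) (.ev (nat_lit 1540) (nat_lit 67108864) (.ev
 (nat_lit 1636) (nat_lit 16777216) (.ev (nat_lit 1645) (nat_lit 65536) .dd))))))) (.br (nat_lit 10) (.ch
 (nat_lit 6) (.ev (nat_lit 1488) (nat_lit 85000192) (.fin (nat_lit 576465700112515650)))) (.br (nat_lit 11)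
 (.ch (nat_lit 10) (.ev (nat_lit 1488) (nat_lit 72941568) (.ev (nat_lit 1501) (nat_lit 16777216) .dd))) (.ch
 (nat_lit 11) (.ev (nat_lit 1488) (nat_lit 17301504) (.ev (nat_lit 1568) (nat_lit 67108864) (.ev (nat_lit 1716)
 (nat_lit 65536) (.ev (nat_lit 1744) (nat_lit 5242880) .dd))))))))))) (.ch (nat_lit 4) (.ev (nat_lit 1184)
 (nat_lit 87621632) (.nd (nat_lit 1472) (.br (nat_lit 9) (.br (nat_lit 5) (.ch (nat_lit 4) (.ev (nat_lit 1488)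
 (nat_lit 16) (.ev (nat_lit 1552) (nat_lit 1073741824) (.ev (nat_lit 1728) (nat_lit 4194304) (.ev (nat_lit
 1741) (nat_lit 131072) .dd))))) (.ch (nat_lit 5) (.ev (nat_lit 1488) (nat_lit 1078067200) (.ev (nat_lit 1501)
 (nat_lit 16) .dd)))) (.br (nat_lit 11) (.ch (nat_lit 9) (.ev (nat_lit 1488) (nat_lit 1077936128) (.ev (nat_lit
 1716) (nat_lit 16) (.ev (nat_lit 1725) (nat_lit 131072) .dd)))) (.ch (nat_lit 11) (.ev (nat_lit 1488) (nat_lit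
 1073872912) (.ev (nat_lit 1501) (nat_lit 4194304) .dd)))))))))) (.br (nat_lit 10) (.ch (nat_lit 6) (.ev
 (nat_lit 1184) (nat_lit 1076953088) (.nd (nat_lit 1472) (.br (nat_lit 9) (.br (nat_lit 6) (.ch (nat_lit 4)
 (.ev (nat_lit 1488) (nat_lit 71958544) (.ev (nat_lit 1501) (nat_lit 16777216) .dd))) (.br (nat_lit 7) (.ch
 (nat_lit 6) (.ev (nat_lit 1488) (nat_lit 17301504) (.ev (nat_lit 1680) (nat_lit 4194304) (.ev (nat_lit 1728)
 (nat_lit 131072) (.ev (nat_lit 1780) (nat_lit 16) (.ev (nat_lit 1789) (nat_lit 67108864) .dd)))))) (.ch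
 (nat_lit 7) (.ev (nat_lit 1488) (nat_lit 67764240) (.ev (nat_lit 1860) (nat_lit 4194304) (.ev (nat_lit 1869)
 (nat_lit 16777216) .dd)))))) (.br (nat_lit 10) (.ch (nat_lit 9) (.ev (nat_lit 1488) (nat_lit 21102592) (.ev
 (nat_lit 1636) (nat_lit 67108864) (.ev (nat_lit 1716) (nat_lit 16) (.ev (nat_lit 1725) (nat_lit 524288)
 .dd))))) (.br (nat_lit 12) (.ch (nat_lit 10) (.ev (nat_lit 1488) (nat_lit 71434256) (.ev (nat_lit 1540)
 (nat_lit 524288) (.ev (nat_lit 1549) (nat_lit 16777216) .dd)))) (.ch (nat_lit 12) (.ev (nat_lit 1488) (nat_lit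
 21626880) (.ev (nat_lit 1568) (nat_lit 67108880) .dd))))))))) (.br (nat_lit 12) (.ch (nat_lit 10) (.ev
 (nat_lit 1184) (nat_lit 1162936336) (.ev (nat_lit 1204) (nat_lit 2097152) (.nd (nat_lit 1472) (.br (nat_lit 5)
 (.br (nat_lit 3) (.ch (nat_lit 0) (.ev (nat_lit 1488) (nat_lit 655360) .dd)) (.ch (nat_lit 3) (.ev (nat_lit
 1488) (nat_lit 655360) .dd))) (.br (nat_lit 7) (.ch (nat_lit 5) (.ev (nat_lit 1728) (nat_lit 655360) .dd))
 (.ch (nat_lit 7) (.ev (nat_lit 1792) (nat_lit 524288) (.ev (nat_lit 1805) (nat_lit 131072) .dd))))))))) (.ch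
 (nat_lit 12) (.ev (nat_lit 1184) (nat_lit 73072640) (.nd (nat_lit 1472) (.br (nat_lit 10) (.br (nat_lit 7)
 (.ch (nat_lit 4) (.ev (nat_lit 1488) (nat_lit 1075838976) (.ev (nat_lit 1540) (nat_lit 16777216) (.ev (nat_lit
 1549) (nat_lit 16) .dd)))) (.br (nat_lit 8) (.ch (nat_lit 7) (.ev (nat_lit 1488) (nat_lit 1090519040) (.ev
 (nat_lit 1540) (nat_lit 16) (.ev (nat_lit 1549) (nat_lit 2097152) .dd)))) (.ch (nat_lit 8) (.ev (nat_lit 1488)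
 (nat_lit 18874368) (.ev (nat_lit 1540) (nat_lit 1073741824) (.ev (nat_lit 1549) (nat_lit 16) .dd)))))) (.br
 (nat_lit 11) (.ch (nat_lit 10) (.ev (nat_lit 1488) (nat_lit 2097152) (.ev (nat_lit 2468) (nat_lit 16) (.fin
 (nat_lit 576466799638823474))))) (.br (nat_lit 12) (.ch (nat_lit 11) (.ev (nat_lit 1488) (nat_lit 1090519040)
 (.ev (nat_lit 1636) (nat_lit 2097152) (.ev (nat_lit 1645) (nat_lit 16) .dd)))) (.ch (nat_lit 12) (.ev (nat_lit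
 1488) (nat_lit 16) (.ev (nat_lit 1540) (nat_lit 18874368) (.ev (nat_lit 1549) (nat_lit 1073741824)
 .dd))))))))))))))))))))))))))))

/-- Subtrie. -/
noncomputable def T4 : Tr := (.ev (nat_lit 20) (nat_lit 42955972640) (.nd (nat_lit 33) (.br (nat_lit 31) (.br
 (nat_lit 16) (.br (nat_lit 10) (.br (nat_lit 6) (.br (nat_lit 5) (.ch (nat_lit 4) (.ev (nat_lit 52) (nat_lit
 1762951168) (.ev (nat_lit 308) (nat_lit 1024) (.ev (nat_lit 372) (nat_lit 524288) (.ev (nat_lit 500) (nat_lit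
 65536) (.ev (nat_lit 1076) (nat_lit 4096) (.nd (nat_lit 1168) (.br (nat_lit 6) (.br (nat_lit 2) (.ch (nat_lit
 1) (.ev (nat_lit 1184) (nat_lit 68719479058) (.nd (nat_lit 1472) (.br (nat_lit 5) (.br (nat_lit 3) (.ch
 (nat_lit 1) (.ev (nat_lit 1488) (nat_lit 33554432) (.ev (nat_lit 1540) (nat_lit 67108864) (.ev (nat_lit 1552)
 (nat_lit 131072) (.ev (nat_lit 1565) (nat_lit 128) .dd))))) (.br (nat_lit 4) (.ch (nat_lit 3) (.ev (nat_lit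
 1488) (nat_lit 67239936) (.ev (nat_lit 1940) (nat_lit 33554432) (.ev (nat_lit 1949) (nat_lit 128) .dd)))) (.ch
 (nat_lit 4) (.ev (nat_lit 1488) (nat_lit 67239936) (.ev (nat_lit 1636) (nat_lit 33554432) (.ev (nat_lit 1645)
 (nat_lit 128) .dd)))))) (.br (nat_lit 10) (.br (nat_lit 8) (.ch (nat_lit 5) (.ev (nat_lit 1488) (nat_lit
 67239936) (.ev (nat_lit 1540) (nat_lit 128) (.ev (nat_lit 1549) (nat_lit 33554432) .dd)))) (.ch (nat_lit 8)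
 (.ev (nat_lit 1488) (nat_lit 128) (.ev (nat_lit 1540) (nat_lit 33554432) (.ev (nat_lit 1716) (nat_lit
 67108864) (.ev (nat_lit 1725) (nat_lit 131072) .dd)))))) (.br (nat_lit 11) (.ch (nat_lit 10) (.ev (nat_lit
 1488) (nat_lit 100794368) (.ev (nat_lit 1501) (nat_lit 128) .dd))) (.ch (nat_lit 11) (.ev (nat_lit 1488)
 (nat_lit 128) (.ev (nat_lit 1540) (nat_lit 67108864) (.ev (nat_lit 2004) (nat_lit 33554432) (.ev (nat_lit
 2013) (nat_lit 131072) .dd))))))))))) (.br (nat_lit 3) (.ch (nat_lit 2) (.ev (nat_lit 1184) (nat_lit 67242242)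
 (.nd (nat_lit 1472) (.br (nat_lit 6) (.br (nat_lit 2) (.ch (nat_lit 0) (.ev (nat_lit 1488) (nat_lit 33554576)
 (.ev (nat_lit 1501) (nat_lit 68719476736) .dd))) (.br (nat_lit 5) (.ch (nat_lit 2) (.ev (nat_lit 1488)
 (nat_lit 68719476880) (.ev (nat_lit 1501) (nat_lit 33554432) .dd))) (.ch (nat_lit 5) (.ev (nat_lit 1488)
 (nat_lit 68753031184) (.ev (nat_lit 1501) (nat_lit 128) .dd))))) (.br (nat_lit 11) (.ch (nat_lit 6) (.ev
 (nat_lit 1488) (nat_lit 144) (.ev (nat_lit 1680) (nat_lit 68719476736) (.ev (nat_lit 1693) (nat_lit 33554432)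
 .dd)))) (.br (nat_lit 12) (.ch (nat_lit 11) (.ev (nat_lit 1488) (nat_lit 68719476752) (.ev (nat_lit 1940)
 (nat_lit 33554432) (.ev (nat_lit 1949) (nat_lit 128) .dd)))) (.ch (nat_lit 12) (.ev (nat_lit 1716) (nat_lit
 33554432) (.ev (nat_lit 1860) (nat_lit 128) (.nd (nat_lit 3200) (.ch (nat_lit 7) (.nd (nat_lit 3233) (.br
 (nat_lit 33) (.ch (nat_lit 19) (.ev (nat_lit 3249) (nat_lit 68719476752) .dd)) (.ch (nat_lit 33) (.nd (nat_lit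
 3264) (.br (nat_lit 12) (.ch (nat_lit 3) (.fin (nat_lit 576448107878236714))) (.ch (nat_lit 12) (.ev (nat_lit
 3280) (nat_lit 68719476752) .dd)))))))))))))))))) (.ch (nat_lit 3) (.ev (nat_lit 1184) (nat_lit 68719607938)
 (.nd (nat_lit 1472) (.br (nat_lit 8) (.br (nat_lit 3) (.ch (nat_lit 1) (.ev (nat_lit 1488) (nat_lit 67110912)
 (.ev (nat_lit 1540) (nat_lit 33554432) (.ev (nat_lit 1780) (nat_lit 256) (.ev (nat_lit 1789) (nat_lit 16)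
 .dd))))) (.br (nat_lit 5) (.ch (nat_lit 3) (.ev (nat_lit 1488) (nat_lit 67110912) (.ev (nat_lit 1540) (nat_lit
 33554432) (.ev (nat_lit 1716) (nat_lit 256) (.ev (nat_lit 1725) (nat_lit 16) .dd))))) (.ch (nat_lit 5) (.ev
 (nat_lit 1488) (nat_lit 33554704) (.ev (nat_lit 1636) (nat_lit 2048) (.ev (nat_lit 1645) (nat_lit 67108864)
 .dd)))))) (.br (nat_lit 10) (.ch (nat_lit 8) (.ev (nat_lit 1488) (nat_lit 67111168) (.ev (nat_lit 1780)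
 (nat_lit 16) (.ev (nat_lit 1789) (nat_lit 33554432) .dd)))) (.br (nat_lit 12) (.ch (nat_lit 10) (.ev (nat_lit
 1488) (nat_lit 100665600) (.ev (nat_lit 1501) (nat_lit 16) .dd))) (.ch (nat_lit 12) (.ev (nat_lit 1488)
 (nat_lit 100665344) (.ev (nat_lit 2052) (nat_lit 16) (.ev (nat_lit 2061) (nat_lit 256) .dd)))))))))))) (.br
 (nat_lit 8) (.br (nat_lit 7) (.ch (nat_lit 6) (.ev (nat_lit 1184) (nat_lit 68820140290) (.nd (nat_lit 1472)
 (.br (nat_lit 3) (.br (nat_lit 1) (.ch (nat_lit 0) (.ev (nat_lit 1488) (nat_lit 133120) (.ev (nat_lit 1540)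
 (nat_lit 16) (.ev (nat_lit 1549) (nat_lit 128) .dd)))) (.br (nat_lit 2) (.ch (nat_lit 1) (.ev (nat_lit 1488)
 (nat_lit 133248) (.ev (nat_lit 1501) (nat_lit 16) .dd))) (.ch (nat_lit 2) (.ev (nat_lit 1488) (nat_lit 144)
 (.ev (nat_lit 1636) (nat_lit 131072) (.ev (nat_lit 1645) (nat_lit 2048) .dd)))))) (.br (nat_lit 6) (.ch
 (nat_lit 3) (.ev (nat_lit 1488) (nat_lit 2048) (.ev (nat_lit 1540) (nat_lit 16) (.ev (nat_lit 1552) (nat_lit
 131072) (.ev (nat_lit 1565) (nat_lit 128) .dd))))) (.br (nat_lit 9) (.ch (nat_lit 6) (.ev (nat_lit 1488)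
 (nat_lit 131088) (.ev (nat_lit 1540) (nat_lit 2048) (.ev (nat_lit 1549) (nat_lit 128) .dd)))) (.ch (nat_lit 9)
 (.ev (nat_lit 1488) (nat_lit 144) (.ev (nat_lit 1860) (nat_lit 2048) (.ev (nat_lit 1869) (nat_lit 131072)
 .dd)))))))))) (.ch (nat_lit 7) (.ev (nat_lit 1184) (nat_lit 67242130) (.nd (nat_lit 1472) (.br (nat_lit 9)
 (.br (nat_lit 2) (.ch (nat_lit 1) (.ev (nat_lit 1488) (nat_lit 68753031424) .dd)) (.br (nat_lit 3) (.ch
 (nat_lit 2) (.ev (nat_lit 1488) (nat_lit 68753031168) (.ev (nat_lit 1501) (nat_lit 256) .dd))) (.ch (nat_lit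
 3) (.ev (nat_lit 1488) (nat_lit 256) (.ev (nat_lit 1540) (nat_lit 33554432) (.ev (nat_lit 1549) (nat_lit
 68719476736) .dd)))))) (.br (nat_lit 10) (.ch (nat_lit 9) (.ev (nat_lit 1488) (nat_lit 68719476736) (.nd
 (nat_lit 3200) (.ch (nat_lit 5) (.nd (nat_lit 3233) (.ch (nat_lit 43) (.nd (nat_lit 3264) (.br (nat_lit 10)
 (.ch (nat_lit 7) (.ev (nat_lit 3280) (nat_lit 33554688) .dd)) (.ch (nat_lit 10) (.fin (nat_lit
 576492088376902202))))))))))) (.br (nat_lit 12) (.ch (nat_lit 10) (.ev (nat_lit 1540) (nat_lit 68719476736)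
 (.ev (nat_lit 1716) (nat_lit 33554432) (.ev (nat_lit 1725) (nat_lit 256) .dd)))) (.ch (nat_lit 12) (.ev
 (nat_lit 1488) (nat_lit 33554688) (.ev (nat_lit 1501) (nat_lit 68719476736) .dd)))))))))) (.br (nat_lit 9)
 (.ch (nat_lit 8) (.ev (nat_lit 1184) (nat_lit 68786716944) (.nd (nat_lit 1472) (.br (nat_lit 7) (.br (nat_lit
 5) (.ch (nat_lit 2) (.ev (nat_lit 1488) (nat_lit 33556482) (.ev (nat_lit 1501) (nat_lit 128) .dd))) (.br
 (nat_lit 6) (.ch (nat_lit 5) (.ev (nat_lit 1488) (nat_lit 2050) (.ev (nat_lit 1540) (nat_lit 128) (.ev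
 (nat_lit 1549) (nat_lit 33554432) .dd)))) (.ch (nat_lit 6) (.ev (nat_lit 1488) (nat_lit 2050) (.ev (nat_lit
 1716) (nat_lit 33554432) (.ev (nat_lit 1725) (nat_lit 128) .dd)))))) (.br (nat_lit 10) (.br (nat_lit 9) (.ch
 (nat_lit 7) (.ev (nat_lit 1488) (nat_lit 2176) (.ev (nat_lit 1552) (nat_lit 2) (.ev (nat_lit 1565) (nat_lit
 33554432) .dd)))) (.ch (nat_lit 9) (.ev (nat_lit 1488) (nat_lit 130) (.ev (nat_lit 1636) (nat_lit 33554432)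
 (.ev (nat_lit 1645) (nat_lit 2048) .dd))))) (.br (nat_lit 12) (.ch (nat_lit 10) (.ev (nat_lit 1488) (nat_lit
 33556480) (.ev (nat_lit 1636) (nat_lit 2) (.ev (nat_lit 1645) (nat_lit 128) .dd)))) (.ch (nat_lit 12) (.ev
 (nat_lit 1636) (nat_lit 128) (.ev (nat_lit 2052) (nat_lit 33554432) (.fin (nat_lit
 576478894246806075))))))))))) (.ch (nat_lit 9) (.ev (nat_lit 1184) (nat_lit 33556496) (.nd (nat_lit 1472) (.br
 (nat_lit 8) (.br (nat_lit 6) (.ch (nat_lit 5) (.ev (nat_lit 1488) (nat_lit 68719608066) (.ev (nat_lit 1860)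
 (nat_lit 67108864) (.ev (nat_lit 1869) (nat_lit 128) .dd)))) (.br (nat_lit 7) (.ch (nat_lit 6) (.ev (nat_lit
 1488) (nat_lit 2) (.ev (nat_lit 1540) (nat_lit 131072) (.ev (nat_lit 1940) (nat_lit 67108864) (.ev (nat_lit
 2512) (nat_lit 68719476736) (.nd (nat_lit 3168) (.br (nat_lit 9) (.ch (nat_lit 6) (.fin (nat_lit
 576483292272345683))) (.ch (nat_lit 9) (.ev (nat_lit 3184) (nat_lit 128) (.ev (nat_lit 3197) (nat_lit 256)
 .dd)))))))))) (.ch (nat_lit 7) (.ev (nat_lit 1488) (nat_lit 67240192) (.ev (nat_lit 2688) (nat_lit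
 68719476736) (.fin (nat_lit 576439311827157498))))))) (.br (nat_lit 9) (.ch (nat_lit 8) (.ev (nat_lit 1488)
 (nat_lit 67108994) (.ev (nat_lit 2004) (nat_lit 131072) (.ev (nat_lit 2160) (nat_lit 256) (.ev (nat_lit 2173)
 (nat_lit 68719476736) .dd))))) (.br (nat_lit 10) (.ch (nat_lit 9) (.ev (nat_lit 1488) (nat_lit 131458) (.ev
 (nat_lit 1860) (nat_lit 67108864) (.ev (nat_lit 1869) (nat_lit 68719476736) .dd)))) (.ch (nat_lit 10) (.ev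
 (nat_lit 1488) (nat_lit 2) (.ev (nat_lit 1940) (nat_lit 67108864) (.ev (nat_lit 2592) (nat_lit 68719476736)
 (.ev (nat_lit 2788) (nat_lit 256) (.fin (nat_lit 576439311856517694))))))))))))))))))))))) (.ch (nat_lit 5)
 (.ev (nat_lit 52) (nat_lit 1142067456) (.ev (nat_lit 468) (nat_lit 536870912) (.ev (nat_lit 756) (nat_lit
 33554432) (.ev (nat_lit 948) (nat_lit 65536) (.ev (nat_lit 1012) (nat_lit 1024) (.ev (nat_lit 1104) (nat_lit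
 524288) (.nd (nat_lit 1168) (.br (nat_lit 2) (.br (nat_lit 1) (.ch (nat_lit 0) (.ev (nat_lit 1184) (nat_lit
 68736256128) (.nd (nat_lit 1472) (.br (nat_lit 4) (.br (nat_lit 2) (.ch (nat_lit 1) (.ev (nat_lit 1488)
 (nat_lit 134479872) (.ev (nat_lit 1780) (nat_lit 2) (.ev (nat_lit 1789) (nat_lit 16) .dd)))) (.br (nat_lit 3)
 (.ch (nat_lit 2) (.ev (nat_lit 1488) (nat_lit 134479890) .dd)) (.ch (nat_lit 3) (.ev (nat_lit 1488) (nat_lit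
 134479872) (.ev (nat_lit 1792) (nat_lit 2) (.ev (nat_lit 1805) (nat_lit 16) .dd)))))) (.br (nat_lit 7) (.ch
 (nat_lit 4) (.ev (nat_lit 1488) (nat_lit 134479888) (.ev (nat_lit 1501) (nat_lit 2) .dd))) (.br (nat_lit 8)
 (.ch (nat_lit 7) (.ev (nat_lit 1488) (nat_lit 18) (.ev (nat_lit 1728) (nat_lit 134479872) .dd))) (.ch (nat_lit
 8) (.ev (nat_lit 1488) (nat_lit 134479890) .dd)))))))) (.ch (nat_lit 1) (.ev (nat_lit 1184) (nat_lit
 68736256128) (.nd (nat_lit 1472) (.br (nat_lit 4) (.br (nat_lit 1) (.ch (nat_lit 0) (.ev (nat_lit 1488)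
 (nat_lit 262160) (.ev (nat_lit 1540) (nat_lit 134217728) (.ev (nat_lit 1549) (nat_lit 2) .dd)))) (.ch (nat_lit
 1) (.ev (nat_lit 1488) (nat_lit 134217730) (.ev (nat_lit 1540) (nat_lit 262144) (.ev (nat_lit 1549) (nat_lit
 16) .dd))))) (.br (nat_lit 8) (.ch (nat_lit 4) (.ev (nat_lit 1488) (nat_lit 134479874) (.ev (nat_lit 1501)
 (nat_lit 16) .dd))) (.br (nat_lit 11) (.ch (nat_lit 8) (.ev (nat_lit 1488) (nat_lit 134479890) .dd)) (.ch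
 (nat_lit 11) (.ev (nat_lit 1488) (nat_lit 18) (.fin (nat_lit 576448107895013954))))))))))) (.br (nat_lit 7)
 (.ch (nat_lit 2) (.ev (nat_lit 1184) (nat_lit 151257106) (.nd (nat_lit 1472) (.br (nat_lit 5) (.br (nat_lit 2)
 (.ch (nat_lit 0) (.ev (nat_lit 1488) (nat_lit 128) (.ev (nat_lit 1716) (nat_lit 2048) (.ev (nat_lit 1725)
 (nat_lit 68719476736) .dd)))) (.ch (nat_lit 2) (.ev (nat_lit 1488) (nat_lit 68719476864) (.ev (nat_lit 1501)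
 (nat_lit 2048) .dd)))) (.br (nat_lit 6) (.ch (nat_lit 5) (.ev (nat_lit 1488) (nat_lit 68719478784) (.ev
 (nat_lit 1501) (nat_lit 128) .dd))) (.br (nat_lit 7) (.ch (nat_lit 6) (.ev (nat_lit 1488) (nat_lit 128) (.ev
 (nat_lit 1540) (nat_lit 2048) (.ev (nat_lit 1549) (nat_lit 68719476736) .dd)))) (.ch (nat_lit 7) (.ev (nat_lit
 1488) (nat_lit 68719478912) .dd)))))))) (.br (nat_lit 8) (.ch (nat_lit 7) (.ev (nat_lit 1184) (nat_lit
 68853956754) (.nd (nat_lit 1472) (.br (nat_lit 8) (.br (nat_lit 2) (.ch (nat_lit 0) (.ev (nat_lit 1488)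
 (nat_lit 16777216) (.ev (nat_lit 1501) (nat_lit 2048) .dd))) (.ch (nat_lit 2) (.ev (nat_lit 1488) (nat_lit
 16779264) .dd))) (.br (nat_lit 9) (.ch (nat_lit 8) (.ev (nat_lit 1488) (nat_lit 16777216) (.ev (nat_lit 1501)
 (nat_lit 2048) .dd))) (.br (nat_lit 12) (.ch (nat_lit 9) (.ev (nat_lit 1540) (nat_lit 2048) (.ev (nat_lit
 1549) (nat_lit 16777216) .dd))) (.ch (nat_lit 12) (.ev (nat_lit 1488) (nat_lit 16779264) .dd)))))))) (.ch
 (nat_lit 8) (.ev (nat_lit 1184) (nat_lit 68719476736) (.nd (nat_lit 1472) (.br (nat_lit 7) (.br (nat_lit 2)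
 (.ch (nat_lit 0) (.ev (nat_lit 1488) (nat_lit 134482048) (.ev (nat_lit 1780) (nat_lit 2) (.ev (nat_lit 1792)
 (nat_lit 16) (.ev (nat_lit 1805) (nat_lit 16777216) .dd))))) (.br (nat_lit 6) (.ch (nat_lit 2) (.ev (nat_lit
 1488) (nat_lit 2066) (.ev (nat_lit 1540) (nat_lit 262144) (.ev (nat_lit 1648) (nat_lit 150994944) (.ev
 (nat_lit 1661) (nat_lit 128) .dd))))) (.ch (nat_lit 6) (.ev (nat_lit 1488) (nat_lit 134480018) (.fin (nat_lit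
 576478894266729041)))))) (.br (nat_lit 9) (.ch (nat_lit 7) (.ev (nat_lit 1488) (nat_lit 134482050) (.ev
 (nat_lit 1780) (nat_lit 16777216) (.ev (nat_lit 1789) (nat_lit 16) .dd)))) (.br (nat_lit 12) (.ch (nat_lit 9)
 (.ev (nat_lit 1488) (nat_lit 134480018) (.ev (nat_lit 1568) (nat_lit 16779264) .dd))) (.ch (nat_lit 12) (.ev
 (nat_lit 1488) (nat_lit 151257088) (.ev (nat_lit 1540) (nat_lit 128) (.ev (nat_lit 2004) (nat_lit 16) (.fin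
 (nat_lit 576443709874717253)))))))))))))))))))))))) (.br (nat_lit 9) (.ch (nat_lit 6) (.ev (nat_lit 52)
 (nat_lit 235214082) (.ev (nat_lit 212) (nat_lit 32768) (.ev (nat_lit 308) (nat_lit 536870912) (.ev (nat_lit
 756) (nat_lit 16) (.ev (nat_lit 1044) (nat_lit 2048) (.nd (nat_lit 1168) (.br (nat_lit 6) (.br (nat_lit 1)
 (.ch (nat_lit 0) (.ev (nat_lit 1184) (nat_lit 68737958016) (.ev (nat_lit 1197) (nat_lit 1073741824) .dd)))
 (.br (nat_lit 3) (.ch (nat_lit 1) (.ev (nat_lit 1184) (nat_lit 69810651136) (.nd (nat_lit 1472) (.br (nat_lit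
 4) (.br (nat_lit 1) (.ch (nat_lit 0) (.ev (nat_lit 1488) (nat_lit 128) (.ev (nat_lit 1501) (nat_lit 1048576)
 .dd))) (.br (nat_lit 3) (.ch (nat_lit 1) (.ev (nat_lit 1488) (nat_lit 1048576) (.ev (nat_lit 1501) (nat_lit
 128) .dd))) (.ch (nat_lit 3) (.ev (nat_lit 1488) (nat_lit 128) (.ev (nat_lit 1501) (nat_lit 1048576) .dd)))))
 (.br (nat_lit 6) (.ch (nat_lit 4) (.ev (nat_lit 1488) (nat_lit 1048576) (.ev (nat_lit 1501) (nat_lit 128)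
 .dd))) (.br (nat_lit 11) (.ch (nat_lit 6) (.ev (nat_lit 1488) (nat_lit 128) (.ev (nat_lit 1501) (nat_lit
 1048576) .dd))) (.ch (nat_lit 11) (.ev (nat_lit 1488) (nat_lit 1048576) (.ev (nat_lit 1501) (nat_lit 128)
 .dd))))))))) (.ch (nat_lit 3) (.ev (nat_lit 1184) (nat_lit 17825920) (.nd (nat_lit 1472) (.br (nat_lit 9) (.br
 (nat_lit 3) (.ch (nat_lit 0) (.ev (nat_lit 1488) (nat_lit 68719607808) (.ev (nat_lit 1540) (nat_lit 524288)
 (.ev (nat_lit 1549) (nat_lit 1073741824) .dd)))) (.br (nat_lit 8) (.ch (nat_lit 3) (.ev (nat_lit 1488)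
 (nat_lit 655360) (.ev (nat_lit 1540) (nat_lit 1073741824) (.ev (nat_lit 1549) (nat_lit 68719476736) .dd))))
 (.ch (nat_lit 8) (.ev (nat_lit 1488) (nat_lit 69793742848) (.ev (nat_lit 1501) (nat_lit 131072) .dd))))) (.br
 (nat_lit 10) (.ch (nat_lit 9) (.ev (nat_lit 1488) (nat_lit 655360) (.ev (nat_lit 1780) (nat_lit 68719476736)
 (.ev (nat_lit 1789) (nat_lit 1073741824) .dd)))) (.br (nat_lit 12) (.ch (nat_lit 10) (.ev (nat_lit 1488)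
 (nat_lit 69793218560) (.ev (nat_lit 1636) (nat_lit 131072) (.ev (nat_lit 1645) (nat_lit 524288) .dd)))) (.ch
 (nat_lit 12) (.ev (nat_lit 1488) (nat_lit 68719476736) (.ev (nat_lit 1540) (nat_lit 1074266112) (.ev (nat_lit
 1549) (nat_lit 131072) .dd)))))))))))) (.br (nat_lit 8) (.ch (nat_lit 6) (.ev (nat_lit 1184) (nat_lit
 69793349760) (.nd (nat_lit 1472) (.br (nat_lit 6) (.br (nat_lit 5) (.ch (nat_lit 3) (.ev (nat_lit 1488)
 (nat_lit 1048576) (.ev (nat_lit 1552) (nat_lit 16777216) (.ev (nat_lit 1565) (nat_lit 524288) .dd)))) (.ch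
 (nat_lit 5) (.ev (nat_lit 1488) (nat_lit 17301504) (.ev (nat_lit 1501) (nat_lit 1048576) .dd)))) (.br (nat_lit
 11) (.ch (nat_lit 6) (.ev (nat_lit 1488) (nat_lit 16777216) (.ev (nat_lit 1636) (nat_lit 524288) (.ev (nat_lit
 1645) (nat_lit 1048576) .dd)))) (.ch (nat_lit 11) (.ev (nat_lit 1488) (nat_lit 18350080) .dd))))))) (.br
 (nat_lit 9) (.ch (nat_lit 8) (.ev (nat_lit 1184) (nat_lit 68720132096) (.nd (nat_lit 1472) (.br (nat_lit 7)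
 (.br (nat_lit 4) (.ch (nat_lit 0) (.ev (nat_lit 1488) (nat_lit 128) (.ev (nat_lit 1540) (nat_lit 16777216)
 (.ev (nat_lit 1584) (nat_lit 1073741824) (.ev (nat_lit 1597) (nat_lit 1048576) .dd))))) (.br (nat_lit 5) (.ch
 (nat_lit 4) (.ev (nat_lit 1488) (nat_lit 17825920) (.ev (nat_lit 1501) (nat_lit 1073741824) .dd))) (.ch
 (nat_lit 5) (.ev (nat_lit 1488) (nat_lit 1091567616) (.ev (nat_lit 1501) (nat_lit 128) .dd))))) (.br (nat_lit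
 10) (.ch (nat_lit 7) (.ev (nat_lit 1488) (nat_lit 1091567744) .dd)) (.br (nat_lit 12) (.ch (nat_lit 10) (.ev
 (nat_lit 1488) (nat_lit 1048704) (.ev (nat_lit 1540) (nat_lit 16777216) (.ev (nat_lit 1549) (nat_lit
 1073741824) .dd)))) (.ch (nat_lit 12) (.ev (nat_lit 1488) (nat_lit 1074790400) (.fin (nat_lit
 576436013294371382)))))))))) (.ch (nat_lit 9) (.ev (nat_lit 1184) (nat_lit 69811175424) (.nd (nat_lit 1472)
 (.br (nat_lit 6) (.br (nat_lit 4) (.ch (nat_lit 0) (.ev (nat_lit 1488) (nat_lit 524288) (.ev (nat_lit 1501)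
 (nat_lit 128) .dd))) (.br (nat_lit 5) (.ch (nat_lit 4) (.ev (nat_lit 1488) (nat_lit 128) (.ev (nat_lit 1501)
 (nat_lit 524288) .dd))) (.ch (nat_lit 5) (.ev (nat_lit 1488) (nat_lit 128) (.ev (nat_lit 1501) (nat_lit
 524288) .dd))))) (.br (nat_lit 7) (.ch (nat_lit 6) (.ev (nat_lit 1488) (nat_lit 524416) .dd)) (.br (nat_lit
 11) (.ch (nat_lit 7) (.ev (nat_lit 1716) (nat_lit 128) (.ev (nat_lit 1725) (nat_lit 524288) .dd))) (.ch
 (nat_lit 11) (.ev (nat_lit 1488) (nat_lit 524416) .dd)))))))))))))))))) (.ch (nat_lit 9) (.ev (nat_lit 52)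
 (nat_lit 135793680) (.ev (nat_lit 372) (nat_lit 33554432) (.ev (nat_lit 436) (nat_lit 67108864) (.ev (nat_lit
 468) (nat_lit 256) (.ev (nat_lit 980) (nat_lit 65664) (.nd (nat_lit 1168) (.br (nat_lit 7) (.br (nat_lit 3)
 (.ch (nat_lit 0) (.ev (nat_lit 1184) (nat_lit 70347034624) (.nd (nat_lit 1472) (.br (nat_lit 7) (.br (nat_lit
 5) (.ch (nat_lit 1) (.ev (nat_lit 1488) (nat_lit 262144) (.ev (nat_lit 1501) (nat_lit 2) .dd))) (.br (nat_lit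
 6) (.ch (nat_lit 5) (.ev (nat_lit 1488) (nat_lit 2) (.ev (nat_lit 1501) (nat_lit 262144) .dd))) (.ch (nat_lit
 6) (.ev (nat_lit 1488) (nat_lit 262144) (.ev (nat_lit 1501) (nat_lit 2) .dd))))) (.br (nat_lit 8) (.ch
 (nat_lit 7) (.ev (nat_lit 1552) (nat_lit 2) (.ev (nat_lit 1565) (nat_lit 262144) .dd))) (.br (nat_lit 12) (.ch
 (nat_lit 8) (.ev (nat_lit 1488) (nat_lit 262146) .dd)) (.ch (nat_lit 12) (.ev (nat_lit 1488) (nat_lit 2) (.ev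
 (nat_lit 1501) (nat_lit 262144) .dd))))))))) (.br (nat_lit 6) (.ch (nat_lit 3) (.ev (nat_lit 1184) (nat_lit
 536875008) (.nd (nat_lit 1472) (.br (nat_lit 10) (.br (nat_lit 8) (.ch (nat_lit 1) (.ev (nat_lit 1488)
 (nat_lit 69810388992) (.ev (nat_lit 1872) (nat_lit 32770) .dd))) (.br (nat_lit 9) (.ch (nat_lit 8) (.ev
 (nat_lit 1488) (nat_lit 1074167808) (.ev (nat_lit 1552) (nat_lit 68719476736) (.ev (nat_lit 2836) (nat_lit
 16777216) (.ev (nat_lit 2845) (nat_lit 2) .dd))))) (.ch (nat_lit 9) (.ev (nat_lit 1488) (nat_lit 425986) (.ev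
 (nat_lit 1552) (nat_lit 68719476736) (.ev (nat_lit 1600) (nat_lit 1090519040) .dd)))))) (.br (nat_lit 11) (.ch
 (nat_lit 10) (.ev (nat_lit 1488) (nat_lit 1073741824) (.ev (nat_lit 1540) (nat_lit 163840) (.nd (nat_lit 3168)
 (.br (nat_lit 10) (.ch (nat_lit 9) (.ev (nat_lit 3184) (nat_lit 68719738880) (.fin (nat_lit
 576483292296462894)))) (.ch (nat_lit 10) (.ev (nat_lit 3184) (nat_lit 16777218) (.fin (nat_lit
 576448107922276878))))))))) (.br (nat_lit 12) (.ch (nat_lit 11) (.ev (nat_lit 1488) (nat_lit 69810257920) (.ev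
 (nat_lit 2004) (nat_lit 2) (.ev (nat_lit 2052) (nat_lit 32768) (.ev (nat_lit 2061) (nat_lit 131072) .dd)))))
 (.ch (nat_lit 12) (.ev (nat_lit 1488) (nat_lit 68736516098) (.ev (nat_lit 1540) (nat_lit 32768) (.ev (nat_lit
 1636) (nat_lit 131072) (.ev (nat_lit 1645) (nat_lit 1073741824) .dd))))))))))) (.ch (nat_lit 6) (.ev (nat_lit
 1184) (nat_lit 69793480706) (.ev (nat_lit 1220) (nat_lit 4096) (.nd (nat_lit 1472) (.br (nat_lit 3) (.br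
 (nat_lit 1) (.ch (nat_lit 0) (.ev (nat_lit 1488) (nat_lit 16908288) (.fin (nat_lit 576492088370610750)))) (.br
 (nat_lit 2) (.ch (nat_lit 1) (.ev (nat_lit 1488) (nat_lit 16809984) (.ev (nat_lit 1636) (nat_lit 536870912)
 (.ev (nat_lit 1645) (nat_lit 131072) .dd)))) (.ch (nat_lit 2) (.ev (nat_lit 1488) (nat_lit 32768) (.ev
 (nat_lit 1540) (nat_lit 16777216) (.ev (nat_lit 1636) (nat_lit 131072) (.ev (nat_lit 1645) (nat_lit 536870912)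
 .dd))))))) (.br (nat_lit 5) (.br (nat_lit 4) (.ch (nat_lit 3) (.ev (nat_lit 1488) (nat_lit 16809984) (.ev
 (nat_lit 1860) (nat_lit 536870912) (.ev (nat_lit 1869) (nat_lit 131072) .dd)))) (.ch (nat_lit 4) (.ev (nat_lit
 1488) (nat_lit 536870912) (.ev (nat_lit 3060) (nat_lit 32768) (.nd (nat_lit 3168) (.br (nat_lit 5) (.ch
 (nat_lit 0) (.ev (nat_lit 3184) (nat_lit 16777216) (.ev (nat_lit 3197) (nat_lit 131072) .dd))) (.br (nat_lit
 7) (.ch (nat_lit 5) (.ev (nat_lit 3184) (nat_lit 16777216) (.ev (nat_lit 3197) (nat_lit 131072) .dd))) (.ch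
 (nat_lit 7) (.fin (nat_lit 576439311770534430)))))))))) (.br (nat_lit 11) (.ch (nat_lit 5) (.ev (nat_lit 1488)
 (nat_lit 16908288) (.ev (nat_lit 1540) (nat_lit 536870912) (.ev (nat_lit 1549) (nat_lit 32768) .dd)))) (.ch
 (nat_lit 11) (.ev (nat_lit 1488) (nat_lit 553680896) (.ev (nat_lit 1501) (nat_lit 131072) .dd)))))))))))) (.br
 (nat_lit 8) (.ch (nat_lit 7) (.ev (nat_lit 1184) (nat_lit 69793517570) (.nd (nat_lit 1472) (.br (nat_lit 8)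
 (.br (nat_lit 1) (.ch (nat_lit 0) (.ev (nat_lit 1488) (nat_lit 131072) (.fin (nat_lit 576439311811428933))))
 (.br (nat_lit 4) (.ch (nat_lit 1) (.ev (nat_lit 1488) (nat_lit 16908288) (.ev (nat_lit 1501) (nat_lit
 536870912) .dd))) (.ch (nat_lit 4) (.ev (nat_lit 1860) (nat_lit 16777216) (.ev (nat_lit 2004) (nat_lit 131072)
 (.ev (nat_lit 2013) (nat_lit 536870912) .dd)))))) (.br (nat_lit 9) (.ch (nat_lit 8) (.ev (nat_lit 1488)
 (nat_lit 553648128) (.ev (nat_lit 1501) (nat_lit 131072) .dd))) (.br (nat_lit 12) (.ch (nat_lit 9) (.ev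
 (nat_lit 1488) (nat_lit 131072) (.ev (nat_lit 1540) (nat_lit 536870912) (.ev (nat_lit 1549) (nat_lit 16777216)
 .dd)))) (.ch (nat_lit 12) (.ev (nat_lit 1488) (nat_lit 553648128) (.ev (nat_lit 1501) (nat_lit 131072)
 .dd))))))))) (.br (nat_lit 11) (.ch (nat_lit 8) (.ev (nat_lit 1184) (nat_lit 69793382400) (.ev (nat_lit 1302)
 (nat_lit 16777216) (.nd (nat_lit 1472) (.br (nat_lit 6) (.br (nat_lit 5) (.ch (nat_lit 0) (.ev (nat_lit 1488)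
 (nat_lit 536870912) (.ev (nat_lit 1540) (nat_lit 4096) (.ev (nat_lit 1860) (nat_lit 262144) (.ev (nat_lit
 1869) (nat_lit 2) .dd))))) (.ch (nat_lit 5) (.ev (nat_lit 1488) (nat_lit 537133058) (.ev (nat_lit 1501)
 (nat_lit 4096) .dd)))) (.br (nat_lit 7) (.ch (nat_lit 6) (.ev (nat_lit 1488) (nat_lit 537133058) (.ev (nat_lit
 1501) (nat_lit 4096) .dd))) (.br (nat_lit 12) (.ch (nat_lit 7) (.ev (nat_lit 1488) (nat_lit 4098) (.ev
 (nat_lit 1504) (nat_lit 262144) (.ev (nat_lit 1517) (nat_lit 536870912) .dd)))) (.ch (nat_lit 12) (.ev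
 (nat_lit 1488) (nat_lit 537137152) (.ev (nat_lit 1501) (nat_lit 2) .dd)))))))))) (.ch (nat_lit 11) (.ev
 (nat_lit 1184) (nat_lit 69273387010) (.nd (nat_lit 1472) (.br (nat_lit 4) (.br (nat_lit 2) (.ch (nat_lit 0)
 (.ev (nat_lit 1488) (nat_lit 163840) (.ev (nat_lit 1540) (nat_lit 4096) (.ev (nat_lit 1549) (nat_lit
 1073741824) .dd)))) (.ch (nat_lit 2) (.ev (nat_lit 1488) (nat_lit 1073778688) (.ev (nat_lit 1501) (nat_lit
 131072) .dd)))) (.br (nat_lit 6) (.ch (nat_lit 4) (.ev (nat_lit 1488) (nat_lit 163840) (.ev (nat_lit 1540)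
 (nat_lit 1073741824) (.ev (nat_lit 1549) (nat_lit 4096) .dd)))) (.br (nat_lit 8) (.ch (nat_lit 6) (.ev
 (nat_lit 1488) (nat_lit 32768) (.ev (nat_lit 1664) (nat_lit 1073741824) (.nd (nat_lit 3168) (.br (nat_lit 9)
 (.ch (nat_lit 7) (.fin (nat_lit 576478894234223171))) (.ch (nat_lit 9) (.ev (nat_lit 3184) (nat_lit 4096) (.ev
 (nat_lit 3197) (nat_lit 131072) .dd)))))))) (.ch (nat_lit 8) (.ev (nat_lit 1488) (nat_lit 1073745920) (.ev
 (nat_lit 1540) (nat_lit 131072) (.ev (nat_lit 1549) (nat_lit 32768) .dd)))))))))))))))))))))) (.br (nat_lit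
 12) (.br (nat_lit 11) (.ch (nat_lit 10) (.ev (nat_lit 52) (nat_lit 69928487314) (.ev (nat_lit 180) (nat_lit
 536870912) (.ev (nat_lit 212) (nat_lit 16777216) (.ev (nat_lit 756) (nat_lit 65536) (.ev (nat_lit 1044)
 (nat_lit 67108864) (.nd (nat_lit 1168) (.br (nat_lit 6) (.br (nat_lit 1) (.ch (nat_lit 0) (.ev (nat_lit 1184)
 (nat_lit 824320) (.nd (nat_lit 1472) (.br (nat_lit 7) (.br (nat_lit 5) (.ch (nat_lit 1) (.ev (nat_lit 1488)
 (nat_lit 33685504) .dd)) (.br (nat_lit 6) (.ch (nat_lit 5) (.ev (nat_lit 1716) (nat_lit 131072) (.ev (nat_lit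
 1725) (nat_lit 33554432) .dd))) (.ch (nat_lit 6) (.ev (nat_lit 1488) (nat_lit 33685504) .dd)))) (.br (nat_lit
 8) (.ch (nat_lit 7) (.ev (nat_lit 1488) (nat_lit 33554432) (.ev (nat_lit 1501) (nat_lit 131072) .dd))) (.br
 (nat_lit 12) (.ch (nat_lit 8) (.ev (nat_lit 1488) (nat_lit 33554432) (.ev (nat_lit 1501) (nat_lit 131072)
 .dd))) (.ch (nat_lit 12) (.ev (nat_lit 1488) (nat_lit 131072) (.ev (nat_lit 1501) (nat_lit 33554432)
 .dd))))))))) (.br (nat_lit 3) (.ch (nat_lit 1) (.ev (nat_lit 1184) (nat_lit 656384) (.nd (nat_lit 1472) (.br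
 (nat_lit 6) (.br (nat_lit 3) (.ch (nat_lit 0) (.ev (nat_lit 1488) (nat_lit 33816576) (.ev (nat_lit 1540)
 (nat_lit 32768) (.ev (nat_lit 1549) (nat_lit 4096) .dd)))) (.br (nat_lit 5) (.ch (nat_lit 3) (.ev (nat_lit
 1488) (nat_lit 33853440) .dd)) (.ch (nat_lit 5) (.ev (nat_lit 1488) (nat_lit 299008) (.ev (nat_lit 1501)
 (nat_lit 33554432) .dd))))) (.br (nat_lit 10) (.ch (nat_lit 6) (.ev (nat_lit 1488) (nat_lit 33849344) (.ev
 (nat_lit 1501) (nat_lit 4096) .dd))) (.br (nat_lit 11) (.ch (nat_lit 10) (.ev (nat_lit 1488) (nat_lit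
 33554432) (.ev (nat_lit 1540) (nat_lit 32768) (.ev (nat_lit 1584) (nat_lit 4096) (.ev (nat_lit 1597) (nat_lit
 262144) .dd))))) (.ch (nat_lit 11) (.ev (nat_lit 1488) (nat_lit 266240) (.fin (nat_lit
 576436013292274227)))))))))) (.ch (nat_lit 3) (.ev (nat_lit 1184) (nat_lit 34083840) (.nd (nat_lit 1472) (.br
 (nat_lit 9) (.br (nat_lit 8) (.ch (nat_lit 3) (.ev (nat_lit 1488) (nat_lit 425984) .dd)) (.ch (nat_lit 8) (.ev
 (nat_lit 1488) (nat_lit 32768) (.ev (nat_lit 1636) (nat_lit 131072) (.ev (nat_lit 1645) (nat_lit 262144)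
 .dd))))) (.br (nat_lit 11) (.ch (nat_lit 9) (.ev (nat_lit 1488) (nat_lit 163840) (.ev (nat_lit 1501) (nat_lit
 262144) .dd))) (.ch (nat_lit 11) (.ev (nat_lit 1488) (nat_lit 262144) (.ev (nat_lit 1552) (nat_lit 32768) (.ev
 (nat_lit 1565) (nat_lit 131072) .dd))))))))))) (.br (nat_lit 8) (.ch (nat_lit 6) (.ev (nat_lit 1184) (nat_lit
 33849344) (.nd (nat_lit 1472) (.br (nat_lit 5) (.br (nat_lit 2) (.ch (nat_lit 1) (.ev (nat_lit 1488) (nat_lit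
 525312) (.ev (nat_lit 1540) (nat_lit 4096) (.ev (nat_lit 1549) (nat_lit 131072) .dd)))) (.br (nat_lit 4) (.ch
 (nat_lit 2) (.ev (nat_lit 1488) (nat_lit 1024) (.ev (nat_lit 1540) (nat_lit 135168) (.ev (nat_lit 1549)
 (nat_lit 524288) .dd)))) (.ch (nat_lit 4) (.ev (nat_lit 1488) (nat_lit 5120) (.ev (nat_lit 1636) (nat_lit
 524288) (.ev (nat_lit 1645) (nat_lit 131072) .dd)))))) (.br (nat_lit 6) (.ch (nat_lit 5) (.ev (nat_lit 1488)
 (nat_lit 655360) (.ev (nat_lit 1780) (nat_lit 1024) (.ev (nat_lit 1789) (nat_lit 4096) .dd)))) (.br (nat_lit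
 11) (.ch (nat_lit 6) (.ev (nat_lit 1488) (nat_lit 136192) (.ev (nat_lit 1501) (nat_lit 524288) .dd))) (.ch
 (nat_lit 11) (.ev (nat_lit 1488) (nat_lit 655360) (.ev (nat_lit 1540) (nat_lit 4096) (.ev (nat_lit 1549)
 (nat_lit 1024) .dd)))))))))) (.br (nat_lit 9) (.ch (nat_lit 8) (.ev (nat_lit 1184) (nat_lit 693248) (.nd
 (nat_lit 1472) (.br (nat_lit 9) (.br (nat_lit 6) (.ch (nat_lit 4) (.ev (nat_lit 1488) (nat_lit 33554432) (.ev
 (nat_lit 1501) (nat_lit 262144) .dd))) (.br (nat_lit 7) (.ch (nat_lit 6) (.ev (nat_lit 1488) (nat_lit 262144)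
 (.ev (nat_lit 1501) (nat_lit 33554432) .dd))) (.ch (nat_lit 7) (.ev (nat_lit 1488) (nat_lit 33554432) (.ev
 (nat_lit 1501) (nat_lit 262144) .dd))))) (.br (nat_lit 10) (.ch (nat_lit 9) (.ev (nat_lit 1488) (nat_lit
 262144) (.ev (nat_lit 1501) (nat_lit 33554432) .dd))) (.br (nat_lit 12) (.ch (nat_lit 10) (.ev (nat_lit 1488)
 (nat_lit 33554432) (.ev (nat_lit 1501) (nat_lit 262144) .dd))) (.ch (nat_lit 12) (.ev (nat_lit 1488) (nat_lit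
 262144) (.ev (nat_lit 1501) (nat_lit 33554432) .dd))))))))) (.ch (nat_lit 9) (.ev (nat_lit 1184) (nat_lit
 34505728) (.ev (nat_lit 1197) (nat_lit 4096) .dd))))))))))))) (.ch (nat_lit 11) (.ev (nat_lit 52) (nat_lit
 1778386178) (.ev (nat_lit 276) (nat_lit 6144) (.ev (nat_lit 372) (nat_lit 294912) (.ev (nat_lit 532) (nat_lit
 16) (.ev (nat_lit 628) (nat_lit 524288) (.ev (nat_lit 896) (nat_lit 68804608128) .dd)))))))) (.br (nat_lit 15)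
 (.ch (nat_lit 12) (.ev (nat_lit 52) (nat_lit 1091311872) (.ev (nat_lit 564) (nat_lit 536870912) (.ev (nat_lit
 756) (nat_lit 128) (.ev (nat_lit 948) (nat_lit 16) (.ev (nat_lit 1012) (nat_lit 68719476736) (.ev (nat_lit
 1120) (nat_lit 131072) (.nd (nat_lit 1168) (.br (nat_lit 7) (.br (nat_lit 2) (.ch (nat_lit 1) (.ev (nat_lit
 1184) (nat_lit 1024) (.nd (nat_lit 1472) (.br (nat_lit 8) (.br (nat_lit 3) (.ch (nat_lit 1) (.ev (nat_lit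
 1488) (nat_lit 168886274) (.ev (nat_lit 1568) (nat_lit 67141632) .dd))) (.br (nat_lit 4) (.ch (nat_lit 3) (.ev
 (nat_lit 1488) (nat_lit 235929602) (.ev (nat_lit 1780) (nat_lit 32768) (.ev (nat_lit 1789) (nat_lit 65536)
 .dd)))) (.ch (nat_lit 4) (.ev (nat_lit 1488) (nat_lit 168886274) (.fin (nat_lit 576478894226883135)))))) (.br
 (nat_lit 10) (.ch (nat_lit 8) (.ev (nat_lit 1488) (nat_lit 201392128) (.ev (nat_lit 1540) (nat_lit 1048576)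
 (.ev (nat_lit 1648) (nat_lit 32770) (.ev (nat_lit 1661) (nat_lit 33554432) .dd))))) (.br (nat_lit 11) (.ch
 (nat_lit 10) (.ev (nat_lit 1488) (nat_lit 101711874) (.ev (nat_lit 1780) (nat_lit 134217728) (.ev (nat_lit
 1792) (nat_lit 65536) (.ev (nat_lit 1805) (nat_lit 32768) .dd))))) (.ch (nat_lit 11) (.ev (nat_lit 1488)
 (nat_lit 1081346) (.ev (nat_lit 1540) (nat_lit 33554432) (.ev (nat_lit 2004) (nat_lit 65536) (.fin (nat_lit
 576443709874717227)))))))))))) (.ch (nat_lit 2) (.ev (nat_lit 1184) (nat_lit 168887298) (.nd (nat_lit 1472)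
 (.br (nat_lit 3) (.br (nat_lit 2) (.ch (nat_lit 0) (.ev (nat_lit 1488) (nat_lit 67141632) .dd)) (.ch (nat_lit
 2) (.ev (nat_lit 1488) (nat_lit 32768) (.ev (nat_lit 1501) (nat_lit 67108864) .dd)))) (.br (nat_lit 6) (.ch
 (nat_lit 3) (.ev (nat_lit 1488) (nat_lit 67141632) .dd)) (.br (nat_lit 7) (.ch (nat_lit 6) (.ev (nat_lit 1540)
 (nat_lit 67108864) (.ev (nat_lit 1549) (nat_lit 32768) .dd))) (.ch (nat_lit 7) (.ev (nat_lit 1488) (nat_lit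
 32768) (.ev (nat_lit 1501) (nat_lit 67108864) .dd)))))))))) (.br (nat_lit 8) (.ch (nat_lit 7) (.ev (nat_lit
 1184) (nat_lit 135364610) (.nd (nat_lit 1472) (.br (nat_lit 8) (.br (nat_lit 2) (.ch (nat_lit 0) (.ev (nat_lit
 1488) (nat_lit 33555456) (.ev (nat_lit 1501) (nat_lit 67108864) .dd))) (.ch (nat_lit 2) (.ev (nat_lit 1488)
 (nat_lit 33554432) (.ev (nat_lit 1716) (nat_lit 67108864) (.ev (nat_lit 1725) (nat_lit 1024) .dd))))) (.br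
 (nat_lit 9) (.ch (nat_lit 8) (.ev (nat_lit 1488) (nat_lit 100664320) .dd)) (.br (nat_lit 10) (.ch (nat_lit 9)
 (.ev (nat_lit 1488) (nat_lit 33554432) (.ev (nat_lit 1540) (nat_lit 67108864) (.ev (nat_lit 1549) (nat_lit
 1024) .dd)))) (.ch (nat_lit 10) (.ev (nat_lit 1488) (nat_lit 67109888) (.ev (nat_lit 1501) (nat_lit 33554432)
 .dd))))))))) (.br (nat_lit 9) (.ch (nat_lit 8) (.ev (nat_lit 1184) (nat_lit 100697088) (.nd (nat_lit 1472)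
 (.br (nat_lit 9) (.br (nat_lit 6) (.ch (nat_lit 2) (.ev (nat_lit 1488) (nat_lit 135331842) .dd)) (.ch (nat_lit
 6) (.ev (nat_lit 1488) (nat_lit 135266306) (.ev (nat_lit 1501) (nat_lit 65536) .dd)))) (.br (nat_lit 10) (.ch
 (nat_lit 9) (.ev (nat_lit 1488) (nat_lit 134217730) (.ev (nat_lit 1540) (nat_lit 1048576) (.ev (nat_lit 1549)
 (nat_lit 65536) .dd)))) (.br (nat_lit 12) (.ch (nat_lit 10) (.ev (nat_lit 1488) (nat_lit 1114112) (.ev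
 (nat_lit 1540) (nat_lit 2) (.ev (nat_lit 1549) (nat_lit 134217728) .dd)))) (.ch (nat_lit 12) (.ev (nat_lit
 1488) (nat_lit 134283264) (.fin (nat_lit 576448107947442738)))))))))) (.ch (nat_lit 9) (.ev (nat_lit 1184)
 (nat_lit 100697088) (.nd (nat_lit 1472) (.br (nat_lit 9) (.br (nat_lit 5) (.ch (nat_lit 4) (.ev (nat_lit 1488)
 (nat_lit 135331842) .dd)) (.br (nat_lit 8) (.ch (nat_lit 5) (.ev (nat_lit 1488) (nat_lit 134283264) (.ev
 (nat_lit 1728) (nat_lit 1048578) .dd))) (.ch (nat_lit 8) (.ev (nat_lit 1488) (nat_lit 1114114) (.ev (nat_lit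
 1501) (nat_lit 134217728) .dd))))) (.br (nat_lit 10) (.ch (nat_lit 9) (.ev (nat_lit 1488) (nat_lit 1048578)
 (.ev (nat_lit 1792) (nat_lit 134217728) (.ev (nat_lit 1805) (nat_lit 65536) .dd)))) (.br (nat_lit 11) (.ch
 (nat_lit 10) (.ev (nat_lit 1488) (nat_lit 135331842) .dd)) (.ch (nat_lit 11) (.ev (nat_lit 1488) (nat_lit
 1048578) (.ev (nat_lit 1780) (nat_lit 65536) (.ev (nat_lit 1789) (nat_lit 134217728) .dd)))))))))))))))))))))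
 (.ch (nat_lit 15) (.ev (nat_lit 52) (nat_lit 554995714) (.ev (nat_lit 308) (nat_lit 68719476736) (.ev (nat_lit
 372) (nat_lit 131072) (.ev (nat_lit 500) (nat_lit 16) (.ev (nat_lit 1076) (nat_lit 1073741824) (.nd (nat_lit
 1168) (.br (nat_lit 3) (.br (nat_lit 1) (.ch (nat_lit 0) (.ev (nat_lit 1184) (nat_lit 67174528) (.nd (nat_lit
 1472) (.br (nat_lit 5) (.br (nat_lit 3) (.ch (nat_lit 2) (.ev (nat_lit 1488) (nat_lit 134217728) (.ev (nat_lit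
 1940) (nat_lit 2048) (.ev (nat_lit 2592) (nat_lit 1024) (.ev (nat_lit 2788) (nat_lit 256) (.fin (nat_lit
 576439311799894574))))))) (.br (nat_lit 4) (.ch (nat_lit 3) (.ev (nat_lit 1488) (nat_lit 168296704) (.ev
 (nat_lit 1860) (nat_lit 2048) (.ev (nat_lit 1869) (nat_lit 1024) .dd)))) (.ch (nat_lit 4) (.ev (nat_lit 1488)
 (nat_lit 167774208) (.ev (nat_lit 2004) (nat_lit 524288) (.ev (nat_lit 2160) (nat_lit 256) (.ev (nat_lit 2173)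
 (nat_lit 1024) .dd))))))) (.br (nat_lit 6) (.ch (nat_lit 5) (.ev (nat_lit 1488) (nat_lit 526592) (.ev (nat_lit
 2688) (nat_lit 1024) (.fin (nat_lit 576439311829254770))))) (.br (nat_lit 7) (.ch (nat_lit 6) (.ev (nat_lit
 1488) (nat_lit 134217728) (.ev (nat_lit 1540) (nat_lit 524288) (.ev (nat_lit 1940) (nat_lit 2048) (.ev
 (nat_lit 2512) (nat_lit 1024) (.nd (nat_lit 3168) (.br (nat_lit 3) (.ch (nat_lit 0) (.ev (nat_lit 3184)
 (nat_lit 33554432) (.ev (nat_lit 3197) (nat_lit 256) .dd))) (.ch (nat_lit 3) (.fin (nat_lit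
 576483292314288705)))))))))) (.ch (nat_lit 7) (.ev (nat_lit 1488) (nat_lit 134743296) (.ev (nat_lit 1860)
 (nat_lit 2048) (.ev (nat_lit 1869) (nat_lit 33554432) .dd)))))))))) (.br (nat_lit 2) (.ch (nat_lit 1) (.ev
 (nat_lit 1184) (nat_lit 593152) (.nd (nat_lit 1472) (.br (nat_lit 4) (.br (nat_lit 1) (.ch (nat_lit 0) (.ev
 (nat_lit 1488) (nat_lit 67108992) (.ev (nat_lit 1636) (nat_lit 134217728) (.ev (nat_lit 1645) (nat_lit
 33554432) .dd)))) (.br (nat_lit 3) (.ch (nat_lit 1) (.ev (nat_lit 1488) (nat_lit 167772160) (.ev (nat_lit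
 1636) (nat_lit 128) (.ev (nat_lit 1645) (nat_lit 67108864) .dd)))) (.ch (nat_lit 3) (.ev (nat_lit 1488)
 (nat_lit 100663296) (.ev (nat_lit 1552) (nat_lit 134217728) (.ev (nat_lit 1565) (nat_lit 128) .dd)))))) (.br
 (nat_lit 8) (.br (nat_lit 5) (.ch (nat_lit 4) (.ev (nat_lit 1488) (nat_lit 201326592) (.ev (nat_lit 1716)
 (nat_lit 128) (.ev (nat_lit 1725) (nat_lit 33554432) .dd)))) (.ch (nat_lit 5) (.ev (nat_lit 1488) (nat_lit
 201326592) (.ev (nat_lit 1540) (nat_lit 128) (.ev (nat_lit 1549) (nat_lit 33554432) .dd))))) (.br (nat_lit 11)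
 (.ch (nat_lit 8) (.ev (nat_lit 1488) (nat_lit 201326720) (.ev (nat_lit 1501) (nat_lit 33554432) .dd))) (.ch
 (nat_lit 11) (.ev (nat_lit 1636) (nat_lit 33554432) (.ev (nat_lit 2052) (nat_lit 128) (.fin (nat_lit
 576478894246806101))))))))))) (.ch (nat_lit 2) (.ev (nat_lit 1184) (nat_lit 235472896) (.nd (nat_lit 1472)
 (.br (nat_lit 5) (.br (nat_lit 1) (.ch (nat_lit 0) (.ev (nat_lit 1488) (nat_lit 1152) (.ev (nat_lit 1501)
 (nat_lit 256) .dd))) (.br (nat_lit 3) (.ch (nat_lit 1) (.ev (nat_lit 1488) (nat_lit 1408) .dd)) (.ch (nat_lit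
 3) (.ev (nat_lit 1488) (nat_lit 384) (.ev (nat_lit 1501) (nat_lit 1024) .dd))))) (.br (nat_lit 6) (.ch
 (nat_lit 5) (.ev (nat_lit 1540) (nat_lit 1024) (.ev (nat_lit 1716) (nat_lit 128) (.ev (nat_lit 1725) (nat_lit
 256) .dd)))) (.br (nat_lit 12) (.ch (nat_lit 6) (.ev (nat_lit 1488) (nat_lit 1024) (.nd (nat_lit 3200) (.ch
 (nat_lit 0) (.nd (nat_lit 3233) (.ch (nat_lit 7) (.nd (nat_lit 3264) (.br (nat_lit 10) (.ch (nat_lit 0) (.ev
 (nat_lit 3280) (nat_lit 384) .dd)) (.ch (nat_lit 10) (.fin (nat_lit 576492088395776610))))))))))) (.ch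
 (nat_lit 12) (.ev (nat_lit 1488) (nat_lit 256) (.ev (nat_lit 1540) (nat_lit 128) (.ev (nat_lit 1549) (nat_lit
 1024) .dd)))))))))))) (.br (nat_lit 7) (.br (nat_lit 6) (.ch (nat_lit 3) (.ev (nat_lit 1184) (nat_lit
 134221184) (.nd (nat_lit 1472) (.br (nat_lit 8) (.br (nat_lit 1) (.ch (nat_lit 0) (.ev (nat_lit 1488) (nat_lit
 101187584) (.ev (nat_lit 1501) (nat_lit 65536) .dd))) (.br (nat_lit 5) (.ch (nat_lit 1) (.ev (nat_lit 1488)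
 (nat_lit 67633152) (.ev (nat_lit 1540) (nat_lit 65536) (.ev (nat_lit 1549) (nat_lit 33554432) .dd)))) (.ch
 (nat_lit 5) (.ev (nat_lit 1488) (nat_lit 33619968) (.ev (nat_lit 1860) (nat_lit 67108864) (.ev (nat_lit 1869)
 (nat_lit 524288) .dd)))))) (.br (nat_lit 11) (.ch (nat_lit 8) (.ev (nat_lit 1488) (nat_lit 589824) (.ev
 (nat_lit 1540) (nat_lit 67108864) (.ev (nat_lit 1549) (nat_lit 33554432) .dd)))) (.br (nat_lit 12) (.ch
 (nat_lit 11) (.ev (nat_lit 1488) (nat_lit 67108864) (.ev (nat_lit 1540) (nat_lit 65536) (.ev (nat_lit 1552)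
 (nat_lit 524288) (.ev (nat_lit 1565) (nat_lit 33554432) .dd))))) (.ch (nat_lit 12) (.ev (nat_lit 1488)
 (nat_lit 33619968) (.ev (nat_lit 1636) (nat_lit 524288) (.ev (nat_lit 1645) (nat_lit 67108864) .dd))))))))))
 (.ch (nat_lit 6) (.ev (nat_lit 1184) (nat_lit 168297472) (.nd (nat_lit 1472) (.br (nat_lit 6) (.br (nat_lit 2)
 (.ch (nat_lit 0) (.ev (nat_lit 1488) (nat_lit 67110912) (.ev (nat_lit 1540) (nat_lit 128) (.ev (nat_lit 1780)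
 (nat_lit 256) (.ev (nat_lit 1789) (nat_lit 65536) .dd))))) (.br (nat_lit 4) (.ch (nat_lit 2) (.ev (nat_lit
 1488) (nat_lit 67111040) (.ev (nat_lit 2052) (nat_lit 65536) (.ev (nat_lit 2061) (nat_lit 256) .dd)))) (.ch
 (nat_lit 4) (.ev (nat_lit 1488) (nat_lit 67111296) (.ev (nat_lit 1501) (nat_lit 65536) .dd))))) (.br (nat_lit
 9) (.ch (nat_lit 6) (.ev (nat_lit 1488) (nat_lit 67111168) (.ev (nat_lit 1780) (nat_lit 65536) (.ev (nat_lit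
 1789) (nat_lit 128) .dd)))) (.br (nat_lit 11) (.ch (nat_lit 9) (.ev (nat_lit 1488) (nat_lit 65920) (.ev
 (nat_lit 1636) (nat_lit 67108864) (.ev (nat_lit 1645) (nat_lit 2048) .dd)))) (.ch (nat_lit 11) (.ev (nat_lit
 1488) (nat_lit 67110912) (.ev (nat_lit 1540) (nat_lit 128) (.ev (nat_lit 1716) (nat_lit 256) (.ev (nat_lit
 1725) (nat_lit 65536) .dd)))))))))))) (.br (nat_lit 8) (.ch (nat_lit 7) (.ev (nat_lit 1184) (nat_lit
 201853184) (.nd (nat_lit 1472) (.br (nat_lit 4) (.br (nat_lit 2) (.ch (nat_lit 0) (.ev (nat_lit 1488) (nat_lit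
 33620992) (.ev (nat_lit 1501) (nat_lit 128) .dd))) (.br (nat_lit 3) (.ch (nat_lit 2) (.ev (nat_lit 1488)
 (nat_lit 33620096) (.ev (nat_lit 1501) (nat_lit 1024) .dd))) (.ch (nat_lit 3) (.ev (nat_lit 1716) (nat_lit
 128) (.ev (nat_lit 1860) (nat_lit 33554432) (.nd (nat_lit 3200) (.ch (nat_lit 10) (.nd (nat_lit 3233) (.br
 (nat_lit 44) (.ch (nat_lit 18) (.nd (nat_lit 3264) (.br (nat_lit 11) (.ch (nat_lit 7) (.fin (nat_lit
 576448107964219978))) (.ch (nat_lit 11) (.ev (nat_lit 3280) (nat_lit 66560) .dd))))) (.ch (nat_lit 44) (.ev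
 (nat_lit 3249) (nat_lit 66560) .dd))))))))))) (.br (nat_lit 9) (.ch (nat_lit 4) (.ev (nat_lit 1488) (nat_lit
 66560) (.ev (nat_lit 1940) (nat_lit 128) (.ev (nat_lit 1949) (nat_lit 33554432) .dd)))) (.br (nat_lit 10) (.ch
 (nat_lit 9) (.ev (nat_lit 1488) (nat_lit 33619968) (.ev (nat_lit 1680) (nat_lit 1024) (.ev (nat_lit 1693)
 (nat_lit 128) .dd)))) (.ch (nat_lit 10) (.ev (nat_lit 1488) (nat_lit 66688) (.ev (nat_lit 1501) (nat_lit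
 33554432) .dd))))))))) (.ch (nat_lit 8) (.ev (nat_lit 1184) (nat_lit 201393408) (.nd (nat_lit 1472) (.br
 (nat_lit 6) (.br (nat_lit 2) (.ch (nat_lit 0) (.ev (nat_lit 1488) (nat_lit 526464) (.ev (nat_lit 1501)
 (nat_lit 33554432) .dd))) (.br (nat_lit 5) (.ch (nat_lit 2) (.ev (nat_lit 1488) (nat_lit 33554432) (.ev
 (nat_lit 1540) (nat_lit 128) (.ev (nat_lit 1716) (nat_lit 2048) (.ev (nat_lit 1725) (nat_lit 524288) .dd)))))
 (.ch (nat_lit 5) (.ev (nat_lit 1488) (nat_lit 526336) (.ev (nat_lit 1540) (nat_lit 128) (.ev (nat_lit 1549)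
 (nat_lit 33554432) .dd)))))) (.br (nat_lit 9) (.br (nat_lit 7) (.ch (nat_lit 6) (.ev (nat_lit 1488) (nat_lit
 526336) (.ev (nat_lit 1636) (nat_lit 128) (.ev (nat_lit 1645) (nat_lit 33554432) .dd)))) (.ch (nat_lit 7) (.ev
 (nat_lit 1488) (nat_lit 526336) (.ev (nat_lit 1940) (nat_lit 128) (.ev (nat_lit 1949) (nat_lit 33554432)
 .dd))))) (.br (nat_lit 12) (.ch (nat_lit 9) (.ev (nat_lit 1488) (nat_lit 128) (.ev (nat_lit 1540) (nat_lit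
 2048) (.ev (nat_lit 1552) (nat_lit 524288) (.ev (nat_lit 1565) (nat_lit 33554432) .dd))))) (.ch (nat_lit 12)
 (.ev (nat_lit 1488) (nat_lit 33554432) (.ev (nat_lit 1540) (nat_lit 2048) (.ev (nat_lit 2004) (nat_lit 128)
 (.ev (nat_lit 2013) (nat_lit 524288) .dd)))))))))))))))))))))))) (.br (nat_lit 22) (.br (nat_lit 18) (.br
 (nat_lit 17) (.ch (nat_lit 16) (.ev (nat_lit 52) (nat_lit 69358059520) (.ev (nat_lit 64) (nat_lit 1225760146)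
 .dd))) (.ch (nat_lit 17) (.ev (nat_lit 52) (nat_lit 537136256) (.ev (nat_lit 96) (nat_lit 70046683410) .dd))))
 (.br (nat_lit 21) (.ch (nat_lit 18) (.ev (nat_lit 52) (nat_lit 167909392) (.ev (nat_lit 160) (nat_lit
 70415910274) .dd))) (.ch (nat_lit 21) (.ev (nat_lit 52) (nat_lit 1141440642) (.ev (nat_lit 212) (nat_lit 16)
 (.ev (nat_lit 288) (nat_lit 69442379008) .dd)))))) (.br (nat_lit 26) (.br (nat_lit 24) (.ch (nat_lit 22) (.ev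
 (nat_lit 52) (nat_lit 169083010) (.ev (nat_lit 84) (nat_lit 68719477760) (.ev (nat_lit 404) (nat_lit 67110912)
 (.ev (nat_lit 596) (nat_lit 1073745920) (.nd (nat_lit 1168) (.br (nat_lit 7) (.br (nat_lit 2) (.ch (nat_lit 0)
 (.ev (nat_lit 1184) (nat_lit 554270736) (.nd (nat_lit 1472) (.br (nat_lit 6) (.br (nat_lit 4) (.ch (nat_lit 3)
 (.ev (nat_lit 1488) (nat_lit 131328) .dd)) (.ch (nat_lit 4) (.ev (nat_lit 1872) (nat_lit 131328) .dd))) (.br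
 (nat_lit 7) (.ch (nat_lit 6) (.ev (nat_lit 1488) (nat_lit 131328) .dd)) (.br (nat_lit 8) (.ch (nat_lit 7) (.ev
 (nat_lit 1488) (nat_lit 256) (.ev (nat_lit 1501) (nat_lit 131072) .dd))) (.ch (nat_lit 8) (.ev (nat_lit 1488)
 (nat_lit 256) (.ev (nat_lit 1501) (nat_lit 131072) .dd))))))))) (.ch (nat_lit 2) (.ev (nat_lit 1184) (nat_lit
 16908544) (.nd (nat_lit 1472) (.br (nat_lit 5) (.br (nat_lit 3) (.ch (nat_lit 0) (.ev (nat_lit 1488) (nat_lit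
 536969216) (.fin (nat_lit 576448107939054118)))) (.ch (nat_lit 3) (.ev (nat_lit 1488) (nat_lit 536903680) (.ev
 (nat_lit 1504) (nat_lit 16) (.ev (nat_lit 1540) (nat_lit 65536) (.ev (nat_lit 1549) (nat_lit 524288) .dd))))))
 (.br (nat_lit 7) (.ch (nat_lit 5) (.ev (nat_lit 1488) (nat_lit 536870928) (.ev (nat_lit 1664) (nat_lit 32768)
 (.ev (nat_lit 1716) (nat_lit 524288) (.ev (nat_lit 1725) (nat_lit 65536) .dd))))) (.br (nat_lit 11) (.ch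
 (nat_lit 7) (.ev (nat_lit 1488) (nat_lit 537427968) (.ev (nat_lit 1636) (nat_lit 65536) (.ev (nat_lit 1645)
 (nat_lit 16) .dd)))) (.ch (nat_lit 11) (.ev (nat_lit 1488) (nat_lit 589840) (.ev (nat_lit 1860) (nat_lit
 32768) (.ev (nat_lit 1869) (nat_lit 536870912) .dd))))))))))) (.br (nat_lit 9) (.ch (nat_lit 7) (.ev (nat_lit
 1184) (nat_lit 557312) (.nd (nat_lit 1472) (.br (nat_lit 8) (.br (nat_lit 4) (.ch (nat_lit 2) (.ev (nat_lit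
 1488) (nat_lit 553648144) (.fin (nat_lit 576448107903402574)))) (.ch (nat_lit 4) (.ev (nat_lit 1488) (nat_lit
 196624) (.ev (nat_lit 1860) (nat_lit 16777216) (.ev (nat_lit 1869) (nat_lit 536870912) .dd))))) (.br (nat_lit
 10) (.ch (nat_lit 8) (.ev (nat_lit 1488) (nat_lit 553779200) (.ev (nat_lit 1636) (nat_lit 16) (.ev (nat_lit
 1645) (nat_lit 65536) .dd)))) (.br (nat_lit 12) (.ch (nat_lit 10) (.ev (nat_lit 1488) (nat_lit 536936448) (.ev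
 (nat_lit 1664) (nat_lit 16777216) (.ev (nat_lit 1716) (nat_lit 131072) (.ev (nat_lit 1725) (nat_lit 16)
 .dd))))) (.ch (nat_lit 12) (.ev (nat_lit 1488) (nat_lit 553648128) (.ev (nat_lit 1504) (nat_lit 65536) (.ev
 (nat_lit 1540) (nat_lit 16) (.ev (nat_lit 1549) (nat_lit 131072) .dd))))))))))) (.br (nat_lit 11) (.ch
 (nat_lit 9) (.ev (nat_lit 1184) (nat_lit 553877520) (.nd (nat_lit 1472) (.br (nat_lit 6) (.br (nat_lit 5) (.ch
 (nat_lit 4) (.ev (nat_lit 1488) (nat_lit 256) (.ev (nat_lit 1501) (nat_lit 524288) .dd))) (.ch (nat_lit 5)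
 (.ev (nat_lit 1488) (nat_lit 256) (.ev (nat_lit 1501) (nat_lit 524288) .dd)))) (.br (nat_lit 8) (.ch (nat_lit
 6) (.ev (nat_lit 1488) (nat_lit 524544) .dd)) (.br (nat_lit 9) (.ch (nat_lit 8) (.ev (nat_lit 1872) (nat_lit
 524544) .dd)) (.ch (nat_lit 9) (.ev (nat_lit 1488) (nat_lit 524544) .dd)))))))) (.ch (nat_lit 11) (.ev
 (nat_lit 1184) (nat_lit 17530896) (.nd (nat_lit 1472) (.br (nat_lit 5) (.br (nat_lit 2) (.ch (nat_lit 0) (.ev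
 (nat_lit 1488) (nat_lit 536870912) (.ev (nat_lit 1501) (nat_lit 256) .dd))) (.ch (nat_lit 2) (.ev (nat_lit
 1488) (nat_lit 256) (.ev (nat_lit 1501) (nat_lit 536870912) .dd)))) (.br (nat_lit 8) (.ch (nat_lit 5) (.fin
 (nat_lit 576463501084017217))) (.br (nat_lit 10) (.ch (nat_lit 8) (.ev (nat_lit 1488) (nat_lit 256) (.ev
 (nat_lit 1501) (nat_lit 536870912) .dd))) (.ch (nat_lit 10) (.ev (nat_lit 1488) (nat_lit 536870912) (.ev
 (nat_lit 1501) (nat_lit 256) .dd)))))))))))))))))) (.ch (nat_lit 24) (.ev (nat_lit 52) (nat_lit 1628504448)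
 (.ev (nat_lit 212) (nat_lit 524288) (.ev (nat_lit 436) (nat_lit 4096) (.ev (nat_lit 692) (nat_lit 67108864)
 (.ev (nat_lit 724) (nat_lit 131072) (.ev (nat_lit 852) (nat_lit 68719476736) (.ev (nat_lit 948) (nat_lit
 262144) (.nd (nat_lit 1168) (.br (nat_lit 6) (.br (nat_lit 1) (.ch (nat_lit 0) (.ev (nat_lit 1184) (nat_lit
 35840) (.nd (nat_lit 1472) (.br (nat_lit 6) (.br (nat_lit 3) (.ch (nat_lit 1) (.ev (nat_lit 1488) (nat_lit
 33554434) (.ev (nat_lit 1540) (nat_lit 16) (.ev (nat_lit 1549) (nat_lit 134217728) .dd)))) (.br (nat_lit 5)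
 (.ch (nat_lit 3) (.ev (nat_lit 1488) (nat_lit 134217744) (.ev (nat_lit 1540) (nat_lit 2) (.ev (nat_lit 1549)
 (nat_lit 33554432) .dd)))) (.ch (nat_lit 5) (.ev (nat_lit 1780) (nat_lit 2) (.ev (nat_lit 1860) (nat_lit 16)
 (.ev (nat_lit 2116) (nat_lit 134217728) (.ev (nat_lit 2125) (nat_lit 33554432) .dd))))))) (.br (nat_lit 8)
 (.ch (nat_lit 6) (.ev (nat_lit 1488) (nat_lit 33554450) (.ev (nat_lit 1501) (nat_lit 134217728) .dd))) (.br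
 (nat_lit 12) (.ch (nat_lit 8) (.ev (nat_lit 1488) (nat_lit 33554450) (.ev (nat_lit 1501) (nat_lit 134217728)
 .dd))) (.ch (nat_lit 12) (.ev (nat_lit 1488) (nat_lit 16) (.ev (nat_lit 1540) (nat_lit 134217728) (.ev
 (nat_lit 1780) (nat_lit 33554432) (.ev (nat_lit 1789) (nat_lit 2) .dd))))))))))) (.br (nat_lit 2) (.ch
 (nat_lit 1) (.ev (nat_lit 1184) (nat_lit 3072) (.nd (nat_lit 1472) (.br (nat_lit 8) (.br (nat_lit 3) (.ch
 (nat_lit 1) (.ev (nat_lit 1488) (nat_lit 167772176) (.ev (nat_lit 1860) (nat_lit 2) (.ev (nat_lit 1869)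
 (nat_lit 32768) .dd)))) (.br (nat_lit 6) (.ch (nat_lit 3) (.ev (nat_lit 1488) (nat_lit 33554434) (.ev (nat_lit
 1540) (nat_lit 134250496) (.ev (nat_lit 1549) (nat_lit 16) .dd)))) (.ch (nat_lit 6) (.ev (nat_lit 1488)
 (nat_lit 33554434) (.ev (nat_lit 1636) (nat_lit 32768) (.ev (nat_lit 2804) (nat_lit 134217728) (.ev (nat_lit
 2813) (nat_lit 16) .dd))))))) (.br (nat_lit 10) (.ch (nat_lit 8) (.ev (nat_lit 1488) (nat_lit 167772176) (.ev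
 (nat_lit 1716) (nat_lit 32768) (.ev (nat_lit 1725) (nat_lit 2) .dd)))) (.br (nat_lit 11) (.ch (nat_lit 10)
 (.ev (nat_lit 1488) (nat_lit 167804944) (.ev (nat_lit 1501) (nat_lit 2) .dd))) (.ch (nat_lit 11) (.ev (nat_lit
 1488) (nat_lit 2) (.ev (nat_lit 1540) (nat_lit 134217728) (.ev (nat_lit 1968) (nat_lit 16) (.nd (nat_lit 3168)
 (.br (nat_lit 9) (.ch (nat_lit 2) (.fin (nat_lit 576436013292274227))) (.ch (nat_lit 9) (.ev (nat_lit 3184)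
 (nat_lit 32768) (.ev (nat_lit 3197) (nat_lit 33554432) .dd))))))))))))))) (.ch (nat_lit 2) (.ev (nat_lit 1184)
 (nat_lit 134217746) (.nd (nat_lit 1472) (.br (nat_lit 5) (.br (nat_lit 2) (.ch (nat_lit 1) (.ev (nat_lit 1488)
 (nat_lit 33587200) (.ev (nat_lit 1540) (nat_lit 1024) (.ev (nat_lit 1549) (nat_lit 2048) .dd)))) (.br (nat_lit
 3) (.ch (nat_lit 2) (.ev (nat_lit 1488) (nat_lit 33555456) (.ev (nat_lit 1744) (nat_lit 32768) (.ev (nat_lit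
 1757) (nat_lit 2048) .dd)))) (.ch (nat_lit 3) (.ev (nat_lit 1488) (nat_lit 34816) (.ev (nat_lit 1780) (nat_lit
 1024) (.ev (nat_lit 1789) (nat_lit 33554432) .dd)))))) (.br (nat_lit 11) (.br (nat_lit 7) (.ch (nat_lit 5)
 (.ev (nat_lit 1488) (nat_lit 33556480) (.ev (nat_lit 1552) (nat_lit 32768) (.ev (nat_lit 1565) (nat_lit 1024)
 .dd)))) (.ch (nat_lit 7) (.ev (nat_lit 1488) (nat_lit 34816) (.ev (nat_lit 1540) (nat_lit 1024) (.ev (nat_lit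
 1549) (nat_lit 33554432) .dd))))) (.br (nat_lit 12) (.ch (nat_lit 11) (.ev (nat_lit 1488) (nat_lit 32768) (.ev
 (nat_lit 1540) (nat_lit 2048) (.ev (nat_lit 1716) (nat_lit 1024) (.ev (nat_lit 1725) (nat_lit 33554432)
 .dd))))) (.ch (nat_lit 12) (.ev (nat_lit 1488) (nat_lit 33557504) (.ev (nat_lit 1501) (nat_lit 32768)
 .dd))))))))))) (.br (nat_lit 8) (.ch (nat_lit 6) (.ev (nat_lit 1184) (nat_lit 167804928) (.nd (nat_lit 1472)
 (.br (nat_lit 5) (.br (nat_lit 1) (.ch (nat_lit 0) (.ev (nat_lit 1488) (nat_lit 3072) (.ev (nat_lit 1780)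
 (nat_lit 16) (.ev (nat_lit 1789) (nat_lit 2) .dd)))) (.br (nat_lit 4) (.ch (nat_lit 1) (.ev (nat_lit 1488)
 (nat_lit 1026) (.ev (nat_lit 1716) (nat_lit 16) (.ev (nat_lit 1725) (nat_lit 2048) .dd)))) (.ch (nat_lit 4)
 (.ev (nat_lit 1488) (nat_lit 2050) (.ev (nat_lit 1940) (nat_lit 1024) (.ev (nat_lit 1949) (nat_lit 16)
 .dd)))))) (.br (nat_lit 6) (.ch (nat_lit 5) (.ev (nat_lit 1488) (nat_lit 2064) (.ev (nat_lit 1792) (nat_lit
 1026) .dd))) (.br (nat_lit 11) (.ch (nat_lit 6) (.ev (nat_lit 1540) (nat_lit 1040) (.ev (nat_lit 1552)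
 (nat_lit 2) (.ev (nat_lit 1565) (nat_lit 2048) .dd)))) (.ch (nat_lit 11) (.ev (nat_lit 1636) (nat_lit 3072)
 (.ev (nat_lit 1716) (nat_lit 2) (.ev (nat_lit 1725) (nat_lit 16) .dd)))))))))) (.br (nat_lit 11) (.ch (nat_lit
 8) (.ev (nat_lit 1184) (nat_lit 167805952) (.nd (nat_lit 1472) (.br (nat_lit 5) (.br (nat_lit 2) (.ch (nat_lit
 0) (.ev (nat_lit 1488) (nat_lit 2048) (.ev (nat_lit 1780) (nat_lit 2) (.ev (nat_lit 1789) (nat_lit 16) .dd))))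
 (.ch (nat_lit 2) (.ev (nat_lit 1488) (nat_lit 18) (.ev (nat_lit 1501) (nat_lit 2048) .dd)))) (.br (nat_lit 7)
 (.ch (nat_lit 5) (.ev (nat_lit 1488) (nat_lit 2048) (.ev (nat_lit 1860) (nat_lit 2) (.ev (nat_lit 1869)
 (nat_lit 16) .dd)))) (.br (nat_lit 12) (.ch (nat_lit 7) (.ev (nat_lit 1488) (nat_lit 2048) (.ev (nat_lit 1664)
 (nat_lit 18) .dd))) (.ch (nat_lit 12) (.ev (nat_lit 1504) (nat_lit 2) (.ev (nat_lit 1664) (nat_lit 2064)
 .dd))))))))) (.ch (nat_lit 11) (.ev (nat_lit 1184) (nat_lit 167774210) (.nd (nat_lit 1472) (.br (nat_lit 10)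
 (.br (nat_lit 8) (.ch (nat_lit 4) (.ev (nat_lit 1488) (nat_lit 32768) (.ev (nat_lit 1780) (nat_lit 16) (.ev
 (nat_lit 1789) (nat_lit 1024) .dd)))) (.ch (nat_lit 8) (.ev (nat_lit 1540) (nat_lit 1024) (.ev (nat_lit 1808)
 (nat_lit 16) (.ev (nat_lit 1821) (nat_lit 32768) .dd))))) (.br (nat_lit 11) (.ch (nat_lit 10) (.ev (nat_lit
 1488) (nat_lit 32784) (.ev (nat_lit 1501) (nat_lit 1024) .dd))) (.br (nat_lit 12) (.ch (nat_lit 11) (.ev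
 (nat_lit 1488) (nat_lit 33792) (.ev (nat_lit 1501) (nat_lit 16) .dd))) (.ch (nat_lit 12) (.ev (nat_lit 1488)
 (nat_lit 33808) .dd))))))))))))))))))))) (.br (nat_lit 28) (.ch (nat_lit 26) (.ev (nat_lit 52) (nat_lit
 1712360450) (.ev (nat_lit 212) (nat_lit 262144) (.nd (nat_lit 1168) (.br (nat_lit 3) (.br (nat_lit 1) (.ch
 (nat_lit 0) (.ev (nat_lit 1184) (nat_lit 68736979344) (.ev (nat_lit 1197) (nat_lit 134217728) .dd))) (.br
 (nat_lit 2) (.ch (nat_lit 1) (.ev (nat_lit 1184) (nat_lit 68736778512) (.nd (nat_lit 1472) (.br (nat_lit 8)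
 (.br (nat_lit 4) (.ch (nat_lit 0) (.ev (nat_lit 1488) (nat_lit 134353024) (.ev (nat_lit 1501) (nat_lit 65536)
 .dd))) (.br (nat_lit 6) (.ch (nat_lit 4) (.ev (nat_lit 1488) (nat_lit 134287360) (.ev (nat_lit 1716) (nat_lit
 131072) (.ev (nat_lit 1725) (nat_lit 128) .dd)))) (.ch (nat_lit 6) (.ev (nat_lit 1488) (nat_lit 131200) (.ev
 (nat_lit 1540) (nat_lit 134217728) (.ev (nat_lit 1584) (nat_lit 4096) (.ev (nat_lit 1597) (nat_lit 65536)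
 .dd))))))) (.br (nat_lit 10) (.ch (nat_lit 8) (.ev (nat_lit 1488) (nat_lit 134283392) (.ev (nat_lit 2052)
 (nat_lit 4096) (.ev (nat_lit 2061) (nat_lit 131072) .dd)))) (.br (nat_lit 11) (.ch (nat_lit 10) (.ev (nat_lit
 1488) (nat_lit 131072) (.ev (nat_lit 1716) (nat_lit 4096) (.ev (nat_lit 1780) (nat_lit 134217728) (.ev
 (nat_lit 2116) (nat_lit 128) (.ev (nat_lit 2125) (nat_lit 65536) .dd)))))) (.ch (nat_lit 11) (.ev (nat_lit
 1488) (nat_lit 134221824) (.ev (nat_lit 1540) (nat_lit 131072) (.ev (nat_lit 1716) (nat_lit 65536) (.ev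
 (nat_lit 1725) (nat_lit 128) .dd))))))))))) (.ch (nat_lit 2) (.ev (nat_lit 1184) (nat_lit 151650304) (.nd
 (nat_lit 1472) (.br (nat_lit 3) (.br (nat_lit 1) (.ch (nat_lit 0) (.ev (nat_lit 1488) (nat_lit 65680) (.ev
 (nat_lit 1552) (nat_lit 68719476736) (.ev (nat_lit 1568) (nat_lit 256) (.ev (nat_lit 1581) (nat_lit 4096)
 .dd))))) (.br (nat_lit 2) (.ch (nat_lit 1) (.ev (nat_lit 1488) (nat_lit 65552) (.ev (nat_lit 1540) (nat_lit
 128) (.ev (nat_lit 1552) (nat_lit 68719476736) (.ev (nat_lit 1792) (nat_lit 256) (.ev (nat_lit 1805) (nat_lit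
 4096) .dd)))))) (.ch (nat_lit 2) (.ev (nat_lit 1488) (nat_lit 68719480976) (.ev (nat_lit 1504) (nat_lit 65536)
 (.ev (nat_lit 1517) (nat_lit 256) .dd)))))) (.br (nat_lit 7) (.br (nat_lit 6) (.ch (nat_lit 3) (.ev (nat_lit
 1488) (nat_lit 68719481088) (.ev (nat_lit 1540) (nat_lit 16) (.ev (nat_lit 1780) (nat_lit 65536) (.ev (nat_lit
 1789) (nat_lit 128) .dd))))) (.ch (nat_lit 6) (.ev (nat_lit 1488) (nat_lit 68719546384) (.fin (nat_lit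
 576430515725746718))))) (.br (nat_lit 12) (.ch (nat_lit 7) (.ev (nat_lit 1488) (nat_lit 68719480960) (.ev
 (nat_lit 1540) (nat_lit 65552) (.ev (nat_lit 1549) (nat_lit 256) .dd)))) (.ch (nat_lit 12) (.ev (nat_lit 1488)
 (nat_lit 65920) (.ev (nat_lit 1664) (nat_lit 4096) (.fin (nat_lit 576474496243286614))))))))))))) (.br
 (nat_lit 6) (.ch (nat_lit 3) (.ev (nat_lit 1184) (nat_lit 68736979072) (.ev (nat_lit 1318) (nat_lit 134217728)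
 (.nd (nat_lit 1472) (.br (nat_lit 8) (.br (nat_lit 5) (.ch (nat_lit 0) (.ev (nat_lit 1488) (nat_lit 272) .dd))
 (.ch (nat_lit 5) (.ev (nat_lit 1488) (nat_lit 256) (.ev (nat_lit 1501) (nat_lit 16) .dd)))) (.br (nat_lit 9)
 (.ch (nat_lit 8) (.ev (nat_lit 1488) (nat_lit 16) (.ev (nat_lit 1501) (nat_lit 256) .dd))) (.br (nat_lit 12)
 (.ch (nat_lit 9) (.ev (nat_lit 1488) (nat_lit 256) (.ev (nat_lit 1501) (nat_lit 16) .dd))) (.ch (nat_lit 12)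
 (.ev (nat_lit 1488) (nat_lit 256) (.ev (nat_lit 1501) (nat_lit 16) .dd)))))))))) (.br (nat_lit 9) (.ch
 (nat_lit 6) (.ev (nat_lit 1184) (nat_lit 68719477120) (.nd (nat_lit 1472) (.br (nat_lit 6) (.br (nat_lit 2)
 (.ch (nat_lit 1) (.ev (nat_lit 1488) (nat_lit 17371136) (.ev (nat_lit 1888) (nat_lit 134217728) (.ev (nat_lit
 2180) (nat_lit 16) (.ev (nat_lit 2189) (nat_lit 131072) .dd))))) (.br (nat_lit 4) (.ch (nat_lit 2) (.ev
 (nat_lit 1488) (nat_lit 134938640) (.ev (nat_lit 1716) (nat_lit 16777216) (.ev (nat_lit 1725) (nat_lit 4096)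
 .dd)))) (.ch (nat_lit 4) (.ev (nat_lit 1488) (nat_lit 134221824) (.ev (nat_lit 1540) (nat_lit 524288) (.ev
 (nat_lit 2368) (nat_lit 16) (.ev (nat_lit 2724) (nat_lit 65536) (.nd (nat_lit 3168) (.br (nat_lit 7) (.ch
 (nat_lit 3) (.ev (nat_lit 3184) (nat_lit 16908288) .dd)) (.ch (nat_lit 7) (.fin (nat_lit
 576439311770534430)))))))))))) (.br (nat_lit 9) (.ch (nat_lit 6) (.ev (nat_lit 1488) (nat_lit 17432576) (.ev
 (nat_lit 2116) (nat_lit 65536) (.ev (nat_lit 2736) (nat_lit 16) (.nd (nat_lit 3168) (.br (nat_lit 4) (.ch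
 (nat_lit 1) (.fin (nat_lit 576474496180372042))) (.ch (nat_lit 4) (.ev (nat_lit 3184) (nat_lit 4096) (.ev
 (nat_lit 3197) (nat_lit 134217728) .dd))))))))) (.br (nat_lit 11) (.ch (nat_lit 9) (.ev (nat_lit 1488)
 (nat_lit 17305600) (.ev (nat_lit 1780) (nat_lit 65536) (.ev (nat_lit 1940) (nat_lit 16) (.ev (nat_lit 1968)
 (nat_lit 134217728) (.ev (nat_lit 1981) (nat_lit 131072) .dd)))))) (.ch (nat_lit 11) (.ev (nat_lit 1488)
 (nat_lit 151650304) (.ev (nat_lit 2416) (nat_lit 16) (.fin (nat_lit 576482192816292410))))))))))) (.ch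
 (nat_lit 9) (.ev (nat_lit 1184) (nat_lit 68736323600) (.nd (nat_lit 1472) (.br (nat_lit 7) (.br (nat_lit 4)
 (.ch (nat_lit 0) (.ev (nat_lit 1488) (nat_lit 131072) (.ev (nat_lit 1540) (nat_lit 256) (.ev (nat_lit 2128)
 (nat_lit 128) (.ev (nat_lit 2324) (nat_lit 134217728) (.ev (nat_lit 2333) (nat_lit 524288) .dd)))))) (.br
 (nat_lit 6) (.ch (nat_lit 4) (.ev (nat_lit 1488) (nat_lit 134873216) (.ev (nat_lit 1501) (nat_lit 256) .dd)))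
 (.ch (nat_lit 6) (.ev (nat_lit 1488) (nat_lit 524288) (.ev (nat_lit 1860) (nat_lit 134217728) (.ev (nat_lit
 1940) (nat_lit 131072) (.nd (nat_lit 3168) (.br (nat_lit 10) (.ch (nat_lit 6) (.fin (nat_lit
 576483292272345683))) (.ch (nat_lit 10) (.ev (nat_lit 3184) (nat_lit 256) (.ev (nat_lit 3197) (nat_lit 128)
 .dd))))))))))) (.br (nat_lit 8) (.ch (nat_lit 7) (.ev (nat_lit 1488) (nat_lit 256) (.ev (nat_lit 1780)
 (nat_lit 134742016) (.ev (nat_lit 2436) (nat_lit 131072) (.ev (nat_lit 2445) (nat_lit 128) .dd))))) (.br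
 (nat_lit 11) (.ch (nat_lit 8) (.ev (nat_lit 1488) (nat_lit 128) (.ev (nat_lit 1984) (nat_lit 131072) (.ev
 (nat_lit 2052) (nat_lit 256) (.ev (nat_lit 2436) (nat_lit 134217728) (.ev (nat_lit 2445) (nat_lit 524288)
 .dd)))))) (.ch (nat_lit 11) (.ev (nat_lit 1488) (nat_lit 131456) (.nd (nat_lit 3168) (.br (nat_lit 9) (.ch
 (nat_lit 4) (.fin (nat_lit 576453605503484511))) (.ch (nat_lit 9) (.ev (nat_lit 3184) (nat_lit 524288) (.ev
 (nat_lit 3197) (nat_lit 134217728) .dd)))))))))))))))))))) (.br (nat_lit 29) (.ch (nat_lit 28) (.ev (nat_lit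
 52) (nat_lit 2064402) (.ev (nat_lit 340) (nat_lit 67108864) (.ev (nat_lit 448) (nat_lit 70514646400) .dd))))
 (.ch (nat_lit 29) (.ev (nat_lit 52) (nat_lit 570724624) (.ev (nat_lit 212) (nat_lit 131072) (.ev (nat_lit 436)
 (nat_lit 1073741824) (.ev (nat_lit 692) (nat_lit 2048) (.ev (nat_lit 724) (nat_lit 524288) (.ev (nat_lit 852)
 (nat_lit 1024) (.ev (nat_lit 948) (nat_lit 1048576) (.nd (nat_lit 1168) (.br (nat_lit 8) (.br (nat_lit 3) (.ch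
 (nat_lit 1) (.ev (nat_lit 1184) (nat_lit 68736254082) (.nd (nat_lit 1472) (.br (nat_lit 8) (.br (nat_lit 5)
 (.ch (nat_lit 3) (.ev (nat_lit 1488) (nat_lit 67108864) (.ev (nat_lit 1664) (nat_lit 134283264) .dd))) (.ch
 (nat_lit 5) (.ev (nat_lit 1488) (nat_lit 67108864) (.ev (nat_lit 1860) (nat_lit 134217728) (.ev (nat_lit 1869)
 (nat_lit 65536) .dd))))) (.br (nat_lit 10) (.ch (nat_lit 8) (.ev (nat_lit 1488) (nat_lit 134283264) (.ev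
 (nat_lit 1501) (nat_lit 67108864) .dd))) (.br (nat_lit 11) (.ch (nat_lit 10) (.ev (nat_lit 1488) (nat_lit
 67108864) (.ev (nat_lit 1780) (nat_lit 134217728) (.ev (nat_lit 1789) (nat_lit 65536) .dd)))) (.ch (nat_lit
 11) (.ev (nat_lit 1504) (nat_lit 134217728) (.ev (nat_lit 1664) (nat_lit 67174400) .dd))))))))) (.br (nat_lit
 7) (.ch (nat_lit 3) (.ev (nat_lit 1184) (nat_lit 16777346) (.nd (nat_lit 1472) (.br (nat_lit 8) (.br (nat_lit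
 1) (.ch (nat_lit 0) (.ev (nat_lit 1488) (nat_lit 68853694464) (.ev (nat_lit 1716) (nat_lit 65536) (.ev
 (nat_lit 1725) (nat_lit 67108864) .dd)))) (.br (nat_lit 3) (.ch (nat_lit 1) (.ev (nat_lit 1488) (nat_lit
 68786585600) (.ev (nat_lit 1780) (nat_lit 65536) (.ev (nat_lit 1789) (nat_lit 134217728) .dd)))) (.ch (nat_lit
 3) (.ev (nat_lit 1636) (nat_lit 68786585600) (.ev (nat_lit 1716) (nat_lit 134217728) (.ev (nat_lit 1725)
 (nat_lit 65536) .dd)))))) (.br (nat_lit 9) (.ch (nat_lit 8) (.ev (nat_lit 1540) (nat_lit 68719542272) (.ev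
 (nat_lit 1552) (nat_lit 134217728) (.ev (nat_lit 1565) (nat_lit 67108864) .dd)))) (.br (nat_lit 10) (.ch
 (nat_lit 9) (.ev (nat_lit 1488) (nat_lit 67174400) (.ev (nat_lit 1792) (nat_lit 68853694464) .dd))) (.ch
 (nat_lit 10) (.ev (nat_lit 1488) (nat_lit 201326592) (.ev (nat_lit 1940) (nat_lit 68719476736) (.ev (nat_lit
 1949) (nat_lit 65536) .dd)))))))))) (.ch (nat_lit 7) (.ev (nat_lit 1184) (nat_lit 134283266) (.nd (nat_lit
 1472) (.br (nat_lit 4) (.br (nat_lit 1) (.ch (nat_lit 0) (.ev (nat_lit 1488) (nat_lit 68719476864) (.ev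
 (nat_lit 1744) (nat_lit 16777216) (.ev (nat_lit 1757) (nat_lit 67108864) .dd)))) (.br (nat_lit 3) (.ch
 (nat_lit 1) (.ev (nat_lit 1488) (nat_lit 16777344) (.ev (nat_lit 1540) (nat_lit 67108864) (.ev (nat_lit 1549)
 (nat_lit 68719476736) .dd)))) (.ch (nat_lit 3) (.ev (nat_lit 1488) (nat_lit 68786585728) (.ev (nat_lit 1501)
 (nat_lit 16777216) .dd))))) (.br (nat_lit 10) (.br (nat_lit 8) (.ch (nat_lit 4) (.ev (nat_lit 1488) (nat_lit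
 16777216) (.ev (nat_lit 1540) (nat_lit 67108864) (.ev (nat_lit 1716) (nat_lit 68719476736) (.ev (nat_lit 1725)
 (nat_lit 128) .dd))))) (.ch (nat_lit 8) (.ev (nat_lit 1488) (nat_lit 83886080) (.ev (nat_lit 1540) (nat_lit
 68719476736) (.ev (nat_lit 1549) (nat_lit 128) .dd))))) (.br (nat_lit 12) (.ch (nat_lit 10) (.ev (nat_lit
 1488) (nat_lit 67108992) (.ev (nat_lit 1552) (nat_lit 16777216) (.ev (nat_lit 1565) (nat_lit 68719476736)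
 .dd)))) (.ch (nat_lit 12) (.ev (nat_lit 1488) (nat_lit 83886080) (.ev (nat_lit 1780) (nat_lit 68719476736)
 (.ev (nat_lit 1789) (nat_lit 128) .dd)))))))))))) (.br (nat_lit 9) (.ch (nat_lit 8) (.ev (nat_lit 1184)
 (nat_lit 68786585600) (.nd (nat_lit 1472) (.br (nat_lit 7) (.br (nat_lit 2) (.ch (nat_lit 0) (.ev (nat_lit
 1488) (nat_lit 16842882) (.ev (nat_lit 1501) (nat_lit 134217728) .dd))) (.br (nat_lit 4) (.ch (nat_lit 2) (.ev
 (nat_lit 1488) (nat_lit 65666) (.ev (nat_lit 1716) (nat_lit 16777216) (.ev (nat_lit 1725) (nat_lit 134217728)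
 .dd)))) (.ch (nat_lit 4) (.ev (nat_lit 1488) (nat_lit 134217856) (.ev (nat_lit 1636) (nat_lit 16777216) (.ev
 (nat_lit 2804) (nat_lit 2) (.ev (nat_lit 2813) (nat_lit 65536) .dd))))))) (.br (nat_lit 9) (.ch (nat_lit 7)
 (.ev (nat_lit 1488) (nat_lit 134217856) (.ev (nat_lit 1540) (nat_lit 16777218) (.ev (nat_lit 1549) (nat_lit
 65536) .dd)))) (.br (nat_lit 12) (.ch (nat_lit 9) (.ev (nat_lit 1488) (nat_lit 65666) (.ev (nat_lit 1860)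
 (nat_lit 134217728) (.ev (nat_lit 1869) (nat_lit 16777216) .dd)))) (.ch (nat_lit 12) (.ev (nat_lit 1488)
 (nat_lit 134217728) (.ev (nat_lit 1540) (nat_lit 2) (.ev (nat_lit 1968) (nat_lit 65536) (.nd (nat_lit 3168)
 (.br (nat_lit 11) (.ch (nat_lit 4) (.ev (nat_lit 3184) (nat_lit 16777216) (.ev (nat_lit 3197) (nat_lit 128)
 .dd))) (.ch (nat_lit 11) (.fin (nat_lit 576436013294371382))))))))))))))) (.br (nat_lit 11) (.ch (nat_lit 9)
 (.ev (nat_lit 1184) (nat_lit 68803362816) (.nd (nat_lit 1472) (.br (nat_lit 7) (.br (nat_lit 4) (.ch (nat_lit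
 0) (.ev (nat_lit 1488) (nat_lit 65536) (.ev (nat_lit 1540) (nat_lit 2) (.ev (nat_lit 1780) (nat_lit 128) (.ev
 (nat_lit 1789) (nat_lit 134217728) .dd))))) (.br (nat_lit 6) (.ch (nat_lit 4) (.ev (nat_lit 1488) (nat_lit
 134283392) (.ev (nat_lit 1501) (nat_lit 2) .dd))) (.ch (nat_lit 6) (.ev (nat_lit 1488) (nat_lit 134283392)
 (.ev (nat_lit 1501) (nat_lit 2) .dd))))) (.br (nat_lit 9) (.ch (nat_lit 7) (.ev (nat_lit 1780) (nat_lit
 134217728) (.ev (nat_lit 1860) (nat_lit 65536) (.ev (nat_lit 2116) (nat_lit 2) (.ev (nat_lit 2125) (nat_lit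
 128) .dd))))) (.br (nat_lit 11) (.ch (nat_lit 9) (.ev (nat_lit 1488) (nat_lit 65538) (.ev (nat_lit 1540)
 (nat_lit 128) (.ev (nat_lit 1549) (nat_lit 134217728) .dd)))) (.ch (nat_lit 11) (.ev (nat_lit 1488) (nat_lit
 134217856) (.ev (nat_lit 1540) (nat_lit 65536) (.ev (nat_lit 1549) (nat_lit 2) .dd)))))))))) (.ch (nat_lit 11)
 (.ev (nat_lit 1184) (nat_lit 201326722) (.nd (nat_lit 1472) (.br (nat_lit 6) (.br (nat_lit 2) (.ch (nat_lit 0)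
 (.ev (nat_lit 1488) (nat_lit 16842752) (.ev (nat_lit 1501) (nat_lit 68719476736) .dd))) (.ch (nat_lit 2) (.ev
 (nat_lit 1540) (nat_lit 68719476736) (.ev (nat_lit 1808) (nat_lit 65536) (.ev (nat_lit 1821) (nat_lit
 16777216) .dd))))) (.br (nat_lit 11) (.ch (nat_lit 6) (.ev (nat_lit 1488) (nat_lit 16777216) (.ev (nat_lit
 1780) (nat_lit 65536) (.ev (nat_lit 1789) (nat_lit 68719476736) .dd)))) (.br (nat_lit 12) (.ch (nat_lit 11)
 (.ev (nat_lit 1488) (nat_lit 68736319488) .dd)) (.ch (nat_lit 12) (.ev (nat_lit 1488) (nat_lit 68736253952)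
 (.ev (nat_lit 1501) (nat_lit 65536) .dd)))))))))))))))))))))))))) (.br (nat_lit 42) (.br (nat_lit 38) (.br
 (nat_lit 36) (.br (nat_lit 33) (.ch (nat_lit 31) (.ev (nat_lit 52) (nat_lit 69877865488) (.nd (nat_lit 1168)
 (.br (nat_lit 6) (.br (nat_lit 3) (.ch (nat_lit 1) (.ev (nat_lit 1184) (nat_lit 34603264) (.nd (nat_lit 1472)
 (.br (nat_lit 5) (.br (nat_lit 3) (.ch (nat_lit 0) (.ev (nat_lit 1488) (nat_lit 537133184) (.ev (nat_lit 1636)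
 (nat_lit 2) (.ev (nat_lit 1645) (nat_lit 134217728) .dd)))) (.ch (nat_lit 3) (.ev (nat_lit 1488) (nat_lit
 134479874) (.ev (nat_lit 1780) (nat_lit 128) (.ev (nat_lit 1789) (nat_lit 536870912) .dd))))) (.br (nat_lit
 10) (.ch (nat_lit 5) (.ev (nat_lit 1488) (nat_lit 671088640) (.ev (nat_lit 1636) (nat_lit 2) (.ev (nat_lit
 1664) (nat_lit 128) (.ev (nat_lit 1677) (nat_lit 262144) .dd))))) (.br (nat_lit 11) (.ch (nat_lit 10) (.ev
 (nat_lit 1488) (nat_lit 536871040) (.ev (nat_lit 1504) (nat_lit 134217728) (.ev (nat_lit 1540) (nat_lit 2)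
 (.ev (nat_lit 1549) (nat_lit 262144) .dd))))) (.ch (nat_lit 11) (.ev (nat_lit 1488) (nat_lit 536871042) (.fin
 (nat_lit 576448107895013954)))))))))) (.ch (nat_lit 3) (.ev (nat_lit 1184) (nat_lit 705691778) (.nd (nat_lit
 1472) (.br (nat_lit 8) (.br (nat_lit 5) (.ch (nat_lit 0) (.ev (nat_lit 1488) (nat_lit 262400) .dd)) (.ch
 (nat_lit 5) (.ev (nat_lit 1488) (nat_lit 256) (.ev (nat_lit 1501) (nat_lit 262144) .dd)))) (.br (nat_lit 9)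
 (.ch (nat_lit 8) (.ev (nat_lit 1860) (nat_lit 256) (.ev (nat_lit 1869) (nat_lit 262144) .dd))) (.br (nat_lit
 12) (.ch (nat_lit 9) (.ev (nat_lit 1488) (nat_lit 256) (.ev (nat_lit 1501) (nat_lit 262144) .dd))) (.ch
 (nat_lit 12) (.ev (nat_lit 1488) (nat_lit 262400) .dd))))))))) (.br (nat_lit 8) (.ch (nat_lit 6) (.ev (nat_lit
 1184) (nat_lit 704905346) (.nd (nat_lit 1472) (.br (nat_lit 5) (.br (nat_lit 2) (.ch (nat_lit 1) (.ev (nat_lit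
 1488) (nat_lit 1048832) .dd)) (.ch (nat_lit 2) (.ev (nat_lit 1488) (nat_lit 1048832) .dd))) (.br (nat_lit 6)
 (.ch (nat_lit 5) (.ev (nat_lit 1488) (nat_lit 256) (.ev (nat_lit 1501) (nat_lit 1048576) .dd))) (.br (nat_lit
 9) (.ch (nat_lit 6) (.ev (nat_lit 1860) (nat_lit 256) (.ev (nat_lit 1869) (nat_lit 1048576) .dd))) (.ch
 (nat_lit 9) (.ev (nat_lit 1488) (nat_lit 256) (.ev (nat_lit 1501) (nat_lit 1048576) .dd))))))))) (.br (nat_lit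
 11) (.ch (nat_lit 8) (.ev (nat_lit 1184) (nat_lit 262528) (.nd (nat_lit 1472) (.br (nat_lit 7) (.br (nat_lit
 5) (.ch (nat_lit 0) (.ev (nat_lit 1488) (nat_lit 570425344) (.ev (nat_lit 1504) (nat_lit 2) (.ev (nat_lit
 1540) (nat_lit 134217728) (.ev (nat_lit 1549) (nat_lit 1048576) .dd))))) (.ch (nat_lit 5) (.ev (nat_lit 1488)
 (nat_lit 536870914) (.ev (nat_lit 1636) (nat_lit 134217728) (.ev (nat_lit 1664) (nat_lit 33554432) (.ev
 (nat_lit 1677) (nat_lit 1048576) .dd)))))) (.br (nat_lit 10) (.ch (nat_lit 7) (.ev (nat_lit 1488) (nat_lit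
 135266306) (.ev (nat_lit 1780) (nat_lit 33554432) (.ev (nat_lit 1789) (nat_lit 536870912) .dd)))) (.br
 (nat_lit 12) (.ch (nat_lit 10) (.ev (nat_lit 1488) (nat_lit 571473920) (.ev (nat_lit 1636) (nat_lit 134217728)
 (.ev (nat_lit 1645) (nat_lit 2) .dd)))) (.ch (nat_lit 12) (.ev (nat_lit 1488) (nat_lit 704643072) (.fin
 (nat_lit 576448107947442738)))))))))) (.ch (nat_lit 11) (.ev (nat_lit 1184) (nat_lit 169083010) (.nd (nat_lit
 1472) (.br (nat_lit 6) (.br (nat_lit 5) (.ch (nat_lit 4) (.ev (nat_lit 1488) (nat_lit 256) (.ev (nat_lit 1501)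
 (nat_lit 536870912) .dd))) (.ch (nat_lit 5) (.fin (nat_lit 576463501084017217)))) (.br (nat_lit 11) (.ch
 (nat_lit 6) (.ev (nat_lit 1488) (nat_lit 256) (.ev (nat_lit 1501) (nat_lit 536870912) .dd))) (.br (nat_lit 12)
 (.ch (nat_lit 11) (.ev (nat_lit 1488) (nat_lit 536870912) (.ev (nat_lit 1501) (nat_lit 256) .dd))) (.ch
 (nat_lit 12) (.ev (nat_lit 1488) (nat_lit 536870912) (.ev (nat_lit 1501) (nat_lit 256) .dd))))))))))))))) (.ch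
 (nat_lit 33) (.ev (nat_lit 52) (nat_lit 1762164866) (.ev (nat_lit 212) (nat_lit 33554432) (.ev (nat_lit 468)
 (nat_lit 1024) (.ev (nat_lit 532) (nat_lit 1048576) (.ev (nat_lit 724) (nat_lit 262144) (.ev (nat_lit 768)
 (nat_lit 68786788624) .dd)))))))) (.br (nat_lit 37) (.ch (nat_lit 36) (.ev (nat_lit 52) (nat_lit 1140887568)
 (.ev (nat_lit 148) (nat_lit 1024) (.ev (nat_lit 180) (nat_lit 256) (.ev (nat_lit 532) (nat_lit 33554432) (.ev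
 (nat_lit 628) (nat_lit 65536) (.ev (nat_lit 948) (nat_lit 131072) (.nd (nat_lit 1168) (.br (nat_lit 8) (.br
 (nat_lit 3) (.ch (nat_lit 0) (.ev (nat_lit 1184) (nat_lit 69409177730) (.ev (nat_lit 1197) (nat_lit 2048)
 .dd))) (.br (nat_lit 7) (.ch (nat_lit 3) (.ev (nat_lit 1184) (nat_lit 1050754) (.nd (nat_lit 1472) (.br
 (nat_lit 5) (.br (nat_lit 1) (.ch (nat_lit 0) (.ev (nat_lit 1488) (nat_lit 68853694464) (.ev (nat_lit 1540)
 (nat_lit 536870912) (.ev (nat_lit 1728) (nat_lit 262144) (.ev (nat_lit 1872) (nat_lit 16777216) (.ev (nat_lit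
 1885) (nat_lit 524288) .dd)))))) (.br (nat_lit 3) (.ch (nat_lit 1) (.ev (nat_lit 1488) (nat_lit 68854480896)
 (.fin (nat_lit 576430515719455266)))) (.ch (nat_lit 3) (.ev (nat_lit 1488) (nat_lit 17563648) (.ev (nat_lit
 1716) (nat_lit 68719476736) (.ev (nat_lit 1744) (nat_lit 134217728) (.ev (nat_lit 1757) (nat_lit 536870912)
 .dd))))))) (.br (nat_lit 9) (.br (nat_lit 8) (.ch (nat_lit 5) (.ev (nat_lit 1488) (nat_lit 69390565376) (.ev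
 (nat_lit 1780) (nat_lit 16777216) (.ev (nat_lit 1860) (nat_lit 262144) (.ev (nat_lit 1869) (nat_lit 524288)
 .dd))))) (.ch (nat_lit 8) (.ev (nat_lit 1488) (nat_lit 69257134080) (.ev (nat_lit 1540) (nat_lit 134217728)
 (.ev (nat_lit 1549) (nat_lit 16777216) .dd))))) (.br (nat_lit 10) (.ch (nat_lit 9) (.ev (nat_lit 1488)
 (nat_lit 537657344) (.ev (nat_lit 1540) (nat_lit 68853694464) (.ev (nat_lit 1549) (nat_lit 16777216) .dd))))
 (.ch (nat_lit 10) (.ev (nat_lit 1488) (nat_lit 687865856) (.ev (nat_lit 1648) (nat_lit 524288) (.fin (nat_lit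
 576448107922276878))))))))))) (.ch (nat_lit 7) (.ev (nat_lit 1184) (nat_lit 68854480898) (.nd (nat_lit 1472)
 (.br (nat_lit 4) (.br (nat_lit 1) (.ch (nat_lit 0) (.ev (nat_lit 1488) (nat_lit 1048576) (.ev (nat_lit 1860)
 (nat_lit 128) (.ev (nat_lit 1940) (nat_lit 2048) (.nd (nat_lit 3168) (.br (nat_lit 9) (.ch (nat_lit 3) (.fin
 (nat_lit 576439311811428933))) (.ch (nat_lit 9) (.ev (nat_lit 3184) (nat_lit 16777216) (.ev (nat_lit 3197)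
 (nat_lit 536870912) .dd))))))))) (.br (nat_lit 3) (.ch (nat_lit 1) (.ev (nat_lit 1488) (nat_lit 553648256)
 (.nd (nat_lit 3168) (.br (nat_lit 12) (.ch (nat_lit 0) (.ev (nat_lit 3184) (nat_lit 1048576) (.ev (nat_lit
 3197) (nat_lit 2048) .dd))) (.ch (nat_lit 12) (.fin (nat_lit 576440411368145438))))))) (.ch (nat_lit 3) (.ev
 (nat_lit 1488) (nat_lit 536870912) (.ev (nat_lit 1904) (nat_lit 128) (.ev (nat_lit 2004) (nat_lit 16777216)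
 (.ev (nat_lit 2436) (nat_lit 1048576) (.ev (nat_lit 2445) (nat_lit 2048) .dd)))))))) (.br (nat_lit 8) (.ch
 (nat_lit 4) (.ev (nat_lit 1488) (nat_lit 128) (.ev (nat_lit 1540) (nat_lit 16777216) (.ev (nat_lit 2128)
 (nat_lit 536870912) (.ev (nat_lit 2416) (nat_lit 1048576) (.ev (nat_lit 2429) (nat_lit 2048) .dd)))))) (.br
 (nat_lit 10) (.ch (nat_lit 8) (.ev (nat_lit 1488) (nat_lit 16777216) (.ev (nat_lit 1716) (nat_lit 2048) (.ev
 (nat_lit 1780) (nat_lit 1048576) (.ev (nat_lit 2724) (nat_lit 128) (.ev (nat_lit 2733) (nat_lit 536870912)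
 .dd)))))) (.ch (nat_lit 10) (.ev (nat_lit 1488) (nat_lit 537921664) (.ev (nat_lit 1501) (nat_lit 16777216)
 .dd))))))))))) (.br (nat_lit 9) (.ch (nat_lit 8) (.ev (nat_lit 1184) (nat_lit 68737564674) (.nd (nat_lit 1472)
 (.br (nat_lit 9) (.br (nat_lit 2) (.ch (nat_lit 0) (.ev (nat_lit 1488) (nat_lit 537397376) (.ev (nat_lit 1501)
 (nat_lit 134217728) .dd))) (.br (nat_lit 6) (.ch (nat_lit 2) (.ev (nat_lit 1488) (nat_lit 128) (.ev (nat_lit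
 1716) (nat_lit 524288) (.ev (nat_lit 1860) (nat_lit 2048) (.ev (nat_lit 2084) (nat_lit 536870912) (.ev
 (nat_lit 2093) (nat_lit 134217728) .dd)))))) (.ch (nat_lit 6) (.ev (nat_lit 1488) (nat_lit 134744064) (.ev
 (nat_lit 1716) (nat_lit 128) (.ev (nat_lit 1725) (nat_lit 536870912) .dd)))))) (.br (nat_lit 10) (.ch (nat_lit
 9) (.ev (nat_lit 1488) (nat_lit 536871040) (.ev (nat_lit 1540) (nat_lit 2048) (.ev (nat_lit 1584) (nat_lit
 524288) (.ev (nat_lit 1597) (nat_lit 134217728) .dd))))) (.br (nat_lit 12) (.ch (nat_lit 10) (.ev (nat_lit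
 1488) (nat_lit 526336) (.ev (nat_lit 1540) (nat_lit 128) (.ev (nat_lit 1696) (nat_lit 134217728) (.ev (nat_lit
 1709) (nat_lit 536870912) .dd))))) (.ch (nat_lit 12) (.ev (nat_lit 1488) (nat_lit 671090688) (.ev (nat_lit
 2052) (nat_lit 524288) (.ev (nat_lit 2061) (nat_lit 128) .dd)))))))))) (.br (nat_lit 11) (.ch (nat_lit 9) (.ev
 (nat_lit 1184) (nat_lit 553910272) (.nd (nat_lit 1472) (.br (nat_lit 9) (.br (nat_lit 7) (.ch (nat_lit 4) (.ev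
 (nat_lit 1488) (nat_lit 68854745216) (.ev (nat_lit 1716) (nat_lit 2) (.ev (nat_lit 1725) (nat_lit 524288)
 .dd)))) (.br (nat_lit 8) (.ch (nat_lit 7) (.ev (nat_lit 1488) (nat_lit 526336) (.ev (nat_lit 1540) (nat_lit
 1048576) (.ev (nat_lit 2324) (nat_lit 134217728) (.ev (nat_lit 2560) (nat_lit 68719476736) (.nd (nat_lit 3168)
 (.br (nat_lit 11) (.ch (nat_lit 5) (.ev (nat_lit 3184) (nat_lit 130) .dd)) (.ch (nat_lit 11) (.fin (nat_lit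
 576483292294365830)))))))))) (.ch (nat_lit 8) (.ev (nat_lit 1488) (nat_lit 1572866) (.ev (nat_lit 1780)
 (nat_lit 134217728) (.ev (nat_lit 1940) (nat_lit 68719476736) (.ev (nat_lit 2032) (nat_lit 2048) (.ev (nat_lit
 2045) (nat_lit 128) .dd)))))))) (.br (nat_lit 10) (.ch (nat_lit 9) (.ev (nat_lit 1488) (nat_lit 135266306)
 (.ev (nat_lit 1540) (nat_lit 524288) (.ev (nat_lit 1968) (nat_lit 2048) (.ev (nat_lit 2180) (nat_lit
 68719476736) (.ev (nat_lit 2189) (nat_lit 128) .dd)))))) (.br (nat_lit 11) (.ch (nat_lit 10) (.ev (nat_lit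
 1488) (nat_lit 1048706) (.ev (nat_lit 2116) (nat_lit 134217728) (.ev (nat_lit 2752) (nat_lit 68719476736) (.nd
 (nat_lit 3168) (.br (nat_lit 12) (.ch (nat_lit 10) (.ev (nat_lit 3184) (nat_lit 524288) (.ev (nat_lit 3197)
 (nat_lit 2048) .dd))) (.ch (nat_lit 12) (.fin (nat_lit 576448107909694026))))))))) (.ch (nat_lit 11) (.ev
 (nat_lit 1488) (nat_lit 1050754) (.ev (nat_lit 2480) (nat_lit 68719476736) (.fin (nat_lit
 576468998618038817))))))))))) (.ch (nat_lit 11) (.ev (nat_lit 1184) (nat_lit 672923778) (.nd (nat_lit 1472)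
 (.br (nat_lit 6) (.br (nat_lit 4) (.ch (nat_lit 0) (.ev (nat_lit 1488) (nat_lit 16779264) (.ev (nat_lit 1501)
 (nat_lit 68719476736) .dd))) (.ch (nat_lit 4) (.ev (nat_lit 1488) (nat_lit 16777216) (.ev (nat_lit 1540)
 (nat_lit 68719476736) (.ev (nat_lit 1549) (nat_lit 2048) .dd))))) (.br (nat_lit 11) (.ch (nat_lit 6) (.ev
 (nat_lit 1488) (nat_lit 16777216) (.ev (nat_lit 1504) (nat_lit 68719478784) .dd))) (.br (nat_lit 12) (.ch
 (nat_lit 11) (.ev (nat_lit 1488) (nat_lit 68719478784) (.ev (nat_lit 1501) (nat_lit 16777216) .dd))) (.ch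
 (nat_lit 12) (.ev (nat_lit 1488) (nat_lit 68736253952) (.ev (nat_lit 1501) (nat_lit 2048)
 .dd)))))))))))))))))))) (.ch (nat_lit 37) (.ev (nat_lit 52) (nat_lit 1090590720) (.ev (nat_lit 148) (nat_lit
 68719476736) (.ev (nat_lit 308) (nat_lit 256) (.ev (nat_lit 532) (nat_lit 128) (.ev (nat_lit 628) (nat_lit 16)
 (.ev (nat_lit 948) (nat_lit 524288) (.nd (nat_lit 1168) (.br (nat_lit 6) (.br (nat_lit 1) (.ch (nat_lit 0)
 (.ev (nat_lit 1184) (nat_lit 537952256) (.nd (nat_lit 1472) (.br (nat_lit 4) (.br (nat_lit 2) (.ch (nat_lit 1)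
 (.ev (nat_lit 1488) (nat_lit 235143168) (.ev (nat_lit 2480) (nat_lit 1024) (.fin (nat_lit
 576468998666273382))))) (.br (nat_lit 3) (.ch (nat_lit 2) (.ev (nat_lit 1488) (nat_lit 168034304) (.ev
 (nat_lit 2116) (nat_lit 2) (.ev (nat_lit 2752) (nat_lit 1024) (.nd (nat_lit 3168) (.br (nat_lit 8) (.ch
 (nat_lit 6) (.fin (nat_lit 576448107932762666))) (.ch (nat_lit 8) (.ev (nat_lit 3184) (nat_lit 131072) (.ev
 (nat_lit 3197) (nat_lit 67108864) .dd))))))))) (.ch (nat_lit 3) (.ev (nat_lit 1488) (nat_lit 134479874) (.ev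
 (nat_lit 1540) (nat_lit 131072) (.ev (nat_lit 1968) (nat_lit 67108864) (.ev (nat_lit 2180) (nat_lit 1024) (.ev
 (nat_lit 2189) (nat_lit 33554432) .dd)))))))) (.br (nat_lit 5) (.ch (nat_lit 4) (.ev (nat_lit 1488) (nat_lit
 134610944) (.ev (nat_lit 1780) (nat_lit 2) (.ev (nat_lit 1940) (nat_lit 1024) (.ev (nat_lit 2032) (nat_lit
 67108864) (.ev (nat_lit 2045) (nat_lit 33554432) .dd)))))) (.br (nat_lit 8) (.ch (nat_lit 5) (.ev (nat_lit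
 1488) (nat_lit 67239936) (.ev (nat_lit 1540) (nat_lit 262144) (.ev (nat_lit 2324) (nat_lit 2) (.ev (nat_lit
 2560) (nat_lit 1024) (.nd (nat_lit 3168) (.br (nat_lit 10) (.ch (nat_lit 3) (.ev (nat_lit 3184) (nat_lit
 167772160) .dd)) (.ch (nat_lit 10) (.fin (nat_lit 576439311829254770)))))))))) (.ch (nat_lit 8) (.ev (nat_lit
 1488) (nat_lit 100926466) (.ev (nat_lit 1716) (nat_lit 134217728) (.ev (nat_lit 1725) (nat_lit 131072)
 .dd)))))))))) (.br (nat_lit 2) (.ch (nat_lit 1) (.ev (nat_lit 1184) (nat_lit 135562240) (.nd (nat_lit 1472)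
 (.br (nat_lit 8) (.br (nat_lit 1) (.ch (nat_lit 0) (.ev (nat_lit 1488) (nat_lit 67239936) (.ev (nat_lit 1540)
 (nat_lit 33554432) (.ev (nat_lit 1696) (nat_lit 2) (.ev (nat_lit 1709) (nat_lit 536870912) .dd))))) (.br
 (nat_lit 4) (.ch (nat_lit 1) (.ev (nat_lit 1488) (nat_lit 570425344) (.ev (nat_lit 1540) (nat_lit 67108864)
 (.ev (nat_lit 1584) (nat_lit 131072) (.ev (nat_lit 1597) (nat_lit 2) .dd))))) (.ch (nat_lit 4) (.ev (nat_lit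
 1488) (nat_lit 67239938) (.ev (nat_lit 1716) (nat_lit 33554432) (.ev (nat_lit 1725) (nat_lit 536870912)
 .dd)))))) (.br (nat_lit 10) (.ch (nat_lit 8) (.ev (nat_lit 1488) (nat_lit 33554432) (.ev (nat_lit 1716)
 (nat_lit 131072) (.ev (nat_lit 1860) (nat_lit 67108864) (.ev (nat_lit 2084) (nat_lit 536870912) (.ev (nat_lit
 2093) (nat_lit 2) .dd)))))) (.br (nat_lit 11) (.ch (nat_lit 10) (.ev (nat_lit 1488) (nat_lit 637665280) (.ev
 (nat_lit 1501) (nat_lit 2) .dd))) (.ch (nat_lit 11) (.ev (nat_lit 1488) (nat_lit 603979778) (.ev (nat_lit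
 2052) (nat_lit 131072) (.ev (nat_lit 2061) (nat_lit 33554432) .dd)))))))))) (.ch (nat_lit 2) (.ev (nat_lit
 1184) (nat_lit 135398402) (.nd (nat_lit 1472) (.br (nat_lit 7) (.br (nat_lit 2) (.ch (nat_lit 1) (.ev (nat_lit
 1488) (nat_lit 570458112) (.nd (nat_lit 3168) (.br (nat_lit 10) (.ch (nat_lit 9) (.ev (nat_lit 3184) (nat_lit
 262144) (.ev (nat_lit 3197) (nat_lit 67108864) .dd))) (.ch (nat_lit 10) (.fin (nat_lit
 576440411311522383))))))) (.br (nat_lit 5) (.ch (nat_lit 2) (.ev (nat_lit 1488) (nat_lit 262144) (.ev (nat_lit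
 1860) (nat_lit 33554432) (.ev (nat_lit 1940) (nat_lit 67108864) (.nd (nat_lit 3168) (.br (nat_lit 8) (.ch
 (nat_lit 2) (.ev (nat_lit 3184) (nat_lit 32768) (.ev (nat_lit 3197) (nat_lit 536870912) .dd))) (.ch (nat_lit
 8) (.fin (nat_lit 576439311844983335))))))))) (.ch (nat_lit 5) (.ev (nat_lit 1488) (nat_lit 637796352) (.ev
 (nat_lit 1501) (nat_lit 32768) .dd))))) (.br (nat_lit 11) (.ch (nat_lit 7) (.ev (nat_lit 1488) (nat_lit 32768)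
 (.ev (nat_lit 1716) (nat_lit 67108864) (.ev (nat_lit 1780) (nat_lit 262144) (.ev (nat_lit 2724) (nat_lit
 33554432) (.ev (nat_lit 2733) (nat_lit 536870912) .dd)))))) (.br (nat_lit 12) (.ch (nat_lit 11) (.ev (nat_lit
 1488) (nat_lit 33554432) (.ev (nat_lit 1540) (nat_lit 32768) (.ev (nat_lit 2128) (nat_lit 536870912) (.ev
 (nat_lit 2416) (nat_lit 262144) (.ev (nat_lit 2429) (nat_lit 67108864) .dd)))))) (.ch (nat_lit 12) (.ev
 (nat_lit 1488) (nat_lit 536870912) (.ev (nat_lit 1904) (nat_lit 33554432) (.ev (nat_lit 2004) (nat_lit 32768)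
 (.ev (nat_lit 2436) (nat_lit 262144) (.ev (nat_lit 2445) (nat_lit 67108864) .dd)))))))))))))) (.br (nat_lit 9)
 (.ch (nat_lit 6) (.ev (nat_lit 1184) (nat_lit 235143168) (.nd (nat_lit 1472) (.br (nat_lit 5) (.br (nat_lit 1)
 (.ch (nat_lit 0) (.ev (nat_lit 1488) (nat_lit 1180674) (.fin (nat_lit 576492088370610750)))) (.br (nat_lit 4)
 (.ch (nat_lit 1) (.ev (nat_lit 1488) (nat_lit 1026) (.ev (nat_lit 1540) (nat_lit 536870912) (.ev (nat_lit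
 1728) (nat_lit 1048576) (.ev (nat_lit 1872) (nat_lit 32768) (.ev (nat_lit 1885) (nat_lit 131072) .dd))))))
 (.ch (nat_lit 4) (.ev (nat_lit 1488) (nat_lit 536903682) (.ev (nat_lit 1648) (nat_lit 131072) (.fin (nat_lit
 576448107920179814))))))) (.br (nat_lit 9) (.br (nat_lit 6) (.ch (nat_lit 5) (.ev (nat_lit 1488) (nat_lit
 538050560) (.ev (nat_lit 1540) (nat_lit 1026) (.ev (nat_lit 1549) (nat_lit 32768) .dd)))) (.ch (nat_lit 6)
 (.ev (nat_lit 1488) (nat_lit 538051584) (.ev (nat_lit 1540) (nat_lit 2) (.ev (nat_lit 1549) (nat_lit 32768)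
 .dd))))) (.br (nat_lit 11) (.ch (nat_lit 9) (.ev (nat_lit 1488) (nat_lit 536871938) (.ev (nat_lit 1780)
 (nat_lit 32768) (.ev (nat_lit 1860) (nat_lit 1048576) (.ev (nat_lit 1869) (nat_lit 131072) .dd))))) (.ch
 (nat_lit 11) (.ev (nat_lit 1488) (nat_lit 1212416) (.ev (nat_lit 1716) (nat_lit 1024) (.ev (nat_lit 1744)
 (nat_lit 2) (.ev (nat_lit 1757) (nat_lit 536870912) .dd))))))))))) (.br (nat_lit 11) (.ch (nat_lit 9) (.ev
 (nat_lit 1184) (nat_lit 706118658) (.ev (nat_lit 1197) (nat_lit 67108864) .dd))) (.ch (nat_lit 11) (.ev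
 (nat_lit 1184) (nat_lit 706084866) (.nd (nat_lit 1472) (.br (nat_lit 10) (.br (nat_lit 6) (.ch (nat_lit 4)
 (.ev (nat_lit 1488) (nat_lit 32768) (.ev (nat_lit 1504) (nat_lit 67109888) .dd))) (.ch (nat_lit 6) (.ev
 (nat_lit 1488) (nat_lit 32768) (.ev (nat_lit 1540) (nat_lit 1024) (.ev (nat_lit 1549) (nat_lit 67108864)
 .dd))))) (.br (nat_lit 11) (.ch (nat_lit 10) (.ev (nat_lit 1488) (nat_lit 67141632) (.ev (nat_lit 1501)
 (nat_lit 1024) .dd))) (.br (nat_lit 12) (.ch (nat_lit 11) (.ev (nat_lit 1488) (nat_lit 33792) (.ev (nat_lit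
 1501) (nat_lit 67108864) .dd))) (.ch (nat_lit 12) (.ev (nat_lit 1488) (nat_lit 67109888) (.ev (nat_lit 1501)
 (nat_lit 32768) .dd)))))))))))))))))))))) (.br (nat_lit 40) (.br (nat_lit 39) (.ch (nat_lit 38) (.ev (nat_lit
 52) (nat_lit 68803627280) (.ev (nat_lit 116) (nat_lit 536870912) (.ev (nat_lit 212) (nat_lit 134217728) (.ev
 (nat_lit 692) (nat_lit 4096) (.ev (nat_lit 820) (nat_lit 128) (.nd (nat_lit 1168) (.br (nat_lit 7) (.br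
 (nat_lit 2) (.ch (nat_lit 1) (.ev (nat_lit 1184) (nat_lit 1074398208) (.nd (nat_lit 1472) (.br (nat_lit 5)
 (.br (nat_lit 1) (.ch (nat_lit 0) (.ev (nat_lit 1552) (nat_lit 33587200) (.ev (nat_lit 1780) (nat_lit 1114112)
 (.ev (nat_lit 1789) (nat_lit 2) .dd)))) (.br (nat_lit 4) (.ch (nat_lit 1) (.ev (nat_lit 1488) (nat_lit
 34668546) (.ev (nat_lit 1501) (nat_lit 32768) .dd))) (.ch (nat_lit 4) (.ev (nat_lit 1488) (nat_lit 1146882)
 (.ev (nat_lit 1501) (nat_lit 33554432) .dd))))) (.br (nat_lit 8) (.ch (nat_lit 5) (.ev (nat_lit 1488) (nat_lit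
 1081344) (.ev (nat_lit 1540) (nat_lit 65538) (.ev (nat_lit 1549) (nat_lit 33554432) .dd)))) (.br (nat_lit 10)
 (.ch (nat_lit 8) (.ev (nat_lit 1488) (nat_lit 33652736) (.ev (nat_lit 1716) (nat_lit 2) (.ev (nat_lit 1725)
 (nat_lit 1048576) .dd)))) (.ch (nat_lit 10) (.ev (nat_lit 1488) (nat_lit 33554434) (.ev (nat_lit 1540)
 (nat_lit 65536) (.ev (nat_lit 1636) (nat_lit 32768) (.ev (nat_lit 1645) (nat_lit 1048576) .dd))))))))))) (.br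
 (nat_lit 3) (.ch (nat_lit 2) (.ev (nat_lit 1184) (nat_lit 1245186) (.ev (nat_lit 1334) (nat_lit 524288) (.nd
 (nat_lit 1472) (.br (nat_lit 5) (.br (nat_lit 1) (.ch (nat_lit 0) (.ev (nat_lit 1488) (nat_lit 33588224) (.ev
 (nat_lit 1501) (nat_lit 1073741824) .dd))) (.br (nat_lit 2) (.ch (nat_lit 1) (.ev (nat_lit 1488) (nat_lit
 1107329024) (.ev (nat_lit 1501) (nat_lit 1024) .dd))) (.ch (nat_lit 2) (.ev (nat_lit 1488) (nat_lit 1024) (.ev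
 (nat_lit 1552) (nat_lit 32768) (.ev (nat_lit 1568) (nat_lit 1073741824) (.ev (nat_lit 1581) (nat_lit 33554432)
 .dd))))))) (.br (nat_lit 7) (.br (nat_lit 6) (.ch (nat_lit 5) (.ev (nat_lit 1488) (nat_lit 1107296256) (.ev
 (nat_lit 1860) (nat_lit 1024) (.ev (nat_lit 1869) (nat_lit 32768) .dd)))) (.ch (nat_lit 6) (.ev (nat_lit 1488)
 (nat_lit 33555456) (.ev (nat_lit 1952) (nat_lit 1073741824) (.ev (nat_lit 1965) (nat_lit 32768) .dd))))) (.br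
 (nat_lit 12) (.ch (nat_lit 7) (.ev (nat_lit 1488) (nat_lit 33792) (.ev (nat_lit 1648) (nat_lit 1073741824)
 (.ev (nat_lit 1661) (nat_lit 33554432) .dd)))) (.ch (nat_lit 12) (.ev (nat_lit 1488) (nat_lit 32768) (.ev
 (nat_lit 1540) (nat_lit 1024) (.ev (nat_lit 1716) (nat_lit 1073741824) (.ev (nat_lit 1725) (nat_lit 33554432)
 .dd)))))))))))) (.ch (nat_lit 3) (.ev (nat_lit 1184) (nat_lit 1770496) (.nd (nat_lit 1472) (.br (nat_lit 5)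
 (.br (nat_lit 1) (.ch (nat_lit 0) (.ev (nat_lit 1488) (nat_lit 33587202) (.ev (nat_lit 1501) (nat_lit
 1073741824) .dd))) (.br (nat_lit 3) (.ch (nat_lit 1) (.ev (nat_lit 1488) (nat_lit 1073774594) (.ev (nat_lit
 1501) (nat_lit 33554432) .dd))) (.ch (nat_lit 3) (.ev (nat_lit 1488) (nat_lit 1073774594) (.ev (nat_lit 1501)
 (nat_lit 33554432) .dd))))) (.br (nat_lit 8) (.ch (nat_lit 5) (.ev (nat_lit 1488) (nat_lit 32770) (.fin
 (nat_lit 576443709875765837)))) (.br (nat_lit 11) (.ch (nat_lit 8) (.ev (nat_lit 1540) (nat_lit 2) (.ev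
 (nat_lit 2052) (nat_lit 1107296256) (.ev (nat_lit 2061) (nat_lit 32768) .dd)))) (.ch (nat_lit 11) (.ev
 (nat_lit 1488) (nat_lit 1107329024) (.ev (nat_lit 1501) (nat_lit 2) .dd))))))))))) (.br (nat_lit 9) (.ch
 (nat_lit 7) (.ev (nat_lit 1184) (nat_lit 35160066) (.nd (nat_lit 1472) (.br (nat_lit 4) (.br (nat_lit 2) (.ch
 (nat_lit 1) (.ev (nat_lit 1488) (nat_lit 1073938432) (.ev (nat_lit 1501) (nat_lit 1024) .dd))) (.br (nat_lit
 3) (.ch (nat_lit 2) (.ev (nat_lit 1636) (nat_lit 1073741824) (.ev (nat_lit 1728) (nat_lit 1024) (.fin (nat_lit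
 576474496218120754))))) (.ch (nat_lit 3) (.ev (nat_lit 1488) (nat_lit 131072) (.ev (nat_lit 1540) (nat_lit
 1073741824) (.ev (nat_lit 1860) (nat_lit 65536) (.ev (nat_lit 1869) (nat_lit 1024) .dd))))))) (.br (nat_lit 9)
 (.ch (nat_lit 4) (.ev (nat_lit 1488) (nat_lit 1073939456) .dd)) (.br (nat_lit 10) (.ch (nat_lit 9) (.ev
 (nat_lit 1488) (nat_lit 196608) (.ev (nat_lit 1540) (nat_lit 1073741824) (.ev (nat_lit 1549) (nat_lit 1024)
 .dd)))) (.ch (nat_lit 10) (.ev (nat_lit 1488) (nat_lit 1073808384) (.ev (nat_lit 1501) (nat_lit 131072)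
 .dd))))))))) (.br (nat_lit 11) (.ch (nat_lit 9) (.ev (nat_lit 1184) (nat_lit 1108575232) (.ev (nat_lit 1204)
 (nat_lit 2) (.ev (nat_lit 1213) (nat_lit 524288) .dd)))) (.ch (nat_lit 11) (.ev (nat_lit 1184) (nat_lit
 34701314) (.nd (nat_lit 1472) (.br (nat_lit 6) (.br (nat_lit 2) (.ch (nat_lit 0) (.ev (nat_lit 1488) (nat_lit
 525312) (.ev (nat_lit 1540) (nat_lit 131072) (.ev (nat_lit 1549) (nat_lit 1073741824) .dd)))) (.br (nat_lit 4)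
 (.ch (nat_lit 2) (.ev (nat_lit 1488) (nat_lit 1074397184) (.ev (nat_lit 1501) (nat_lit 1024) .dd))) (.ch
 (nat_lit 4) (.ev (nat_lit 1488) (nat_lit 131072) (.ev (nat_lit 1636) (nat_lit 1024) (.fin (nat_lit
 576443709862134323))))))) (.br (nat_lit 11) (.br (nat_lit 8) (.ch (nat_lit 6) (.ev (nat_lit 1488) (nat_lit
 1074266112) (.ev (nat_lit 1716) (nat_lit 131072) (.ev (nat_lit 1725) (nat_lit 1024) .dd)))) (.ch (nat_lit 8)
 (.ev (nat_lit 1488) (nat_lit 1074397184) (.ev (nat_lit 1501) (nat_lit 1024) .dd)))) (.br (nat_lit 12) (.ch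
 (nat_lit 11) (.ev (nat_lit 1488) (nat_lit 1073741824) (.ev (nat_lit 1636) (nat_lit 524288) (.ev (nat_lit 1648)
 (nat_lit 131072) (.ev (nat_lit 1661) (nat_lit 1024) .dd))))) (.ch (nat_lit 12) (.ev (nat_lit 1488) (nat_lit
 1073873920) (.ev (nat_lit 1501) (nat_lit 524288) .dd))))))))))))))))))) (.ch (nat_lit 39) (.ev (nat_lit 52)
 (nat_lit 69474719872) (.ev (nat_lit 212) (nat_lit 1048576) (.nd (nat_lit 1168) (.br (nat_lit 7) (.br (nat_lit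
 3) (.ch (nat_lit 0) (.ev (nat_lit 1184) (nat_lit 1073841168) (.nd (nat_lit 1472) (.br (nat_lit 6) (.br
 (nat_lit 4) (.ch (nat_lit 1) (.ev (nat_lit 1488) (nat_lit 34078976) (.nd (nat_lit 3168) (.br (nat_lit 8) (.ch
 (nat_lit 0) (.fin (nat_lit 576453605455249946))) (.ch (nat_lit 8) (.ev (nat_lit 3184) (nat_lit 131072) (.ev
 (nat_lit 3197) (nat_lit 2) .dd))))))) (.br (nat_lit 5) (.ch (nat_lit 4) (.ev (nat_lit 1488) (nat_lit 33554432)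
 (.ev (nat_lit 1984) (nat_lit 524288) (.ev (nat_lit 2052) (nat_lit 256) (.ev (nat_lit 2436) (nat_lit 2) (.ev
 (nat_lit 2445) (nat_lit 131072) .dd)))))) (.ch (nat_lit 5) (.ev (nat_lit 1488) (nat_lit 256) (.ev (nat_lit
 1780) (nat_lit 131074) (.ev (nat_lit 2436) (nat_lit 524288) (.ev (nat_lit 2445) (nat_lit 33554432) .dd)))))))
 (.br (nat_lit 8) (.ch (nat_lit 6) (.ev (nat_lit 1488) (nat_lit 131072) (.ev (nat_lit 1860) (nat_lit 2) (.ev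
 (nat_lit 1940) (nat_lit 524288) (.nd (nat_lit 3168) (.br (nat_lit 12) (.ch (nat_lit 3) (.fin (nat_lit
 576483292314288705))) (.ch (nat_lit 12) (.ev (nat_lit 3184) (nat_lit 256) (.ev (nat_lit 3197) (nat_lit
 33554432) .dd))))))))) (.br (nat_lit 12) (.ch (nat_lit 8) (.ev (nat_lit 1488) (nat_lit 34209794) (.ev (nat_lit
 1501) (nat_lit 256) .dd))) (.ch (nat_lit 12) (.ev (nat_lit 1488) (nat_lit 524288) (.ev (nat_lit 1540) (nat_lit
 256) (.ev (nat_lit 2128) (nat_lit 33554432) (.ev (nat_lit 2324) (nat_lit 2) (.ev (nat_lit 2333) (nat_lit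
 131072) .dd)))))))))))) (.br (nat_lit 6) (.ch (nat_lit 3) (.ev (nat_lit 1184) (nat_lit 33555712) (.nd (nat_lit
 1472) (.br (nat_lit 8) (.br (nat_lit 3) (.ch (nat_lit 0) (.ev (nat_lit 1488) (nat_lit 1073905680) (.ev
 (nat_lit 1888) (nat_lit 2) (.ev (nat_lit 2180) (nat_lit 65536) (.ev (nat_lit 2189) (nat_lit 524288) .dd)))))
 (.br (nat_lit 5) (.ch (nat_lit 3) (.ev (nat_lit 1488) (nat_lit 688130) (.ev (nat_lit 2416) (nat_lit 65536)
 (.fin (nat_lit 576482192747086425))))) (.ch (nat_lit 5) (.ev (nat_lit 1488) (nat_lit 1073905664) (.ev (nat_lit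
 1780) (nat_lit 16) (.ev (nat_lit 1940) (nat_lit 65536) (.ev (nat_lit 1968) (nat_lit 2) (.ev (nat_lit 1981)
 (nat_lit 524288) .dd)))))))) (.br (nat_lit 10) (.ch (nat_lit 8) (.ev (nat_lit 1488) (nat_lit 688128) (.ev
 (nat_lit 2116) (nat_lit 16) (.ev (nat_lit 2736) (nat_lit 65536) (.nd (nat_lit 3168) (.br (nat_lit 11) (.ch
 (nat_lit 1) (.fin (nat_lit 576474496220217922))) (.ch (nat_lit 11) (.ev (nat_lit 3184) (nat_lit 1073741824)
 (.ev (nat_lit 3197) (nat_lit 2) .dd))))))))) (.br (nat_lit 12) (.ch (nat_lit 10) (.ev (nat_lit 1488) (nat_lit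
 1073741826) (.ev (nat_lit 1540) (nat_lit 131072) (.ev (nat_lit 2368) (nat_lit 65536) (.ev (nat_lit 2724)
 (nat_lit 16) (.nd (nat_lit 3168) (.br (nat_lit 4) (.ch (nat_lit 0) (.fin (nat_lit 576439311885877838))) (.ch
 (nat_lit 4) (.ev (nat_lit 3184) (nat_lit 557056) .dd))))))))) (.ch (nat_lit 12) (.ev (nat_lit 1488) (nat_lit
 720914) (.ev (nat_lit 1716) (nat_lit 32768) (.ev (nat_lit 1725) (nat_lit 1073741824) .dd)))))))))) (.ch
 (nat_lit 6) (.ev (nat_lit 1184) (nat_lit 1107985424) (.ev (nat_lit 1350) (nat_lit 2) (.nd (nat_lit 1472) (.br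
 (nat_lit 5) (.br (nat_lit 2) (.ch (nat_lit 1) (.ev (nat_lit 1488) (nat_lit 65792) .dd)) (.ch (nat_lit 2) (.ev
 (nat_lit 1488) (nat_lit 256) (.ev (nat_lit 1501) (nat_lit 65536) .dd)))) (.br (nat_lit 6) (.ch (nat_lit 5)
 (.ev (nat_lit 1488) (nat_lit 256) (.ev (nat_lit 1501) (nat_lit 65536) .dd))) (.br (nat_lit 9) (.ch (nat_lit 6)
 (.ev (nat_lit 1488) (nat_lit 65536) (.ev (nat_lit 1501) (nat_lit 256) .dd))) (.ch (nat_lit 9) (.ev (nat_lit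
 1488) (nat_lit 256) (.ev (nat_lit 1501) (nat_lit 65536) .dd)))))))))))) (.br (nat_lit 8) (.ch (nat_lit 7) (.ev
 (nat_lit 1184) (nat_lit 688130) (.nd (nat_lit 1472) (.br (nat_lit 3) (.br (nat_lit 1) (.ch (nat_lit 0) (.ev
 (nat_lit 1488) (nat_lit 1107362816) (.ev (nat_lit 1504) (nat_lit 16) (.ev (nat_lit 1517) (nat_lit 256) .dd))))
 (.br (nat_lit 2) (.ch (nat_lit 1) (.ev (nat_lit 1488) (nat_lit 65552) (.ev (nat_lit 1540) (nat_lit 33554432)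
 (.ev (nat_lit 1552) (nat_lit 1024) (.ev (nat_lit 1792) (nat_lit 256) (.ev (nat_lit 1805) (nat_lit 1073741824)
 .dd)))))) (.ch (nat_lit 2) (.ev (nat_lit 1488) (nat_lit 33619984) (.ev (nat_lit 1552) (nat_lit 1024) (.ev
 (nat_lit 1568) (nat_lit 256) (.ev (nat_lit 1581) (nat_lit 1073741824) .dd))))))) (.br (nat_lit 9) (.br
 (nat_lit 8) (.ch (nat_lit 3) (.ev (nat_lit 1488) (nat_lit 33554704) (.ev (nat_lit 1664) (nat_lit 1073741824)
 (.fin (nat_lit 576474496157303350))))) (.ch (nat_lit 8) (.ev (nat_lit 1488) (nat_lit 1107297280) (.ev (nat_lit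
 1540) (nat_lit 65552) (.ev (nat_lit 1549) (nat_lit 256) .dd))))) (.br (nat_lit 12) (.ch (nat_lit 9) (.ev
 (nat_lit 1488) (nat_lit 1073808400) (.fin (nat_lit 576430515744621126)))) (.ch (nat_lit 12) (.ev (nat_lit
 1488) (nat_lit 1073743104) (.ev (nat_lit 1540) (nat_lit 65536) (.ev (nat_lit 1780) (nat_lit 16) (.ev (nat_lit
 1789) (nat_lit 33554432) .dd))))))))))) (.br (nat_lit 9) (.ch (nat_lit 8) (.ev (nat_lit 1184) (nat_lit 230656)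
 (.nd (nat_lit 1472) (.br (nat_lit 6) (.br (nat_lit 2) (.ch (nat_lit 0) (.ev (nat_lit 1488) (nat_lit 524288)
 (.ev (nat_lit 1716) (nat_lit 1073741824) (.ev (nat_lit 1780) (nat_lit 2) (.ev (nat_lit 2116) (nat_lit
 33554432) (.ev (nat_lit 2125) (nat_lit 16) .dd)))))) (.br (nat_lit 4) (.ch (nat_lit 2) (.ev (nat_lit 1488)
 (nat_lit 33554450) (.ev (nat_lit 2052) (nat_lit 1073741824) (.ev (nat_lit 2061) (nat_lit 524288) .dd)))) (.ch
 (nat_lit 4) (.ev (nat_lit 1488) (nat_lit 34078720) (.ev (nat_lit 1540) (nat_lit 2) (.ev (nat_lit 1584)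
 (nat_lit 1073741824) (.ev (nat_lit 1597) (nat_lit 16) .dd))))))) (.br (nat_lit 10) (.ch (nat_lit 6) (.ev
 (nat_lit 1488) (nat_lit 1073741842) (.ev (nat_lit 1716) (nat_lit 524288) (.ev (nat_lit 1725) (nat_lit
 33554432) .dd)))) (.br (nat_lit 12) (.ch (nat_lit 10) (.ev (nat_lit 1488) (nat_lit 1107820546) (.ev (nat_lit
 1501) (nat_lit 16) .dd))) (.ch (nat_lit 12) (.ev (nat_lit 1488) (nat_lit 1073741826) (.ev (nat_lit 1540)
 (nat_lit 524288) (.ev (nat_lit 1716) (nat_lit 16) (.ev (nat_lit 1725) (nat_lit 33554432) .dd))))))))))) (.ch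
 (nat_lit 9) (.ev (nat_lit 1184) (nat_lit 1108051216) (.ev (nat_lit 1197) (nat_lit 2) .dd))))))))))) (.br
 (nat_lit 41) (.ch (nat_lit 40) (.ev (nat_lit 52) (nat_lit 153026576) (.ev (nat_lit 340) (nat_lit 2048) (.ev
 (nat_lit 544) (nat_lit 70430791042) .dd)))) (.ch (nat_lit 41) (.ev (nat_lit 52) (nat_lit 17372546) (.ev
 (nat_lit 180) (nat_lit 68719476736) (.ev (nat_lit 500) (nat_lit 33554432) (.ev (nat_lit 852) (nat_lit
 536870912) (.ev (nat_lit 1044) (nat_lit 1073741824) (.nd (nat_lit 1168) (.br (nat_lit 3) (.br (nat_lit 1) (.ch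
 (nat_lit 0) (.ev (nat_lit 1184) (nat_lit 1081344) (.nd (nat_lit 1472) (.br (nat_lit 7) (.br (nat_lit 3) (.ch
 (nat_lit 2) (.ev (nat_lit 1488) (nat_lit 134479872) (.ev (nat_lit 1824) (nat_lit 16) (.ev (nat_lit 2788)
 (nat_lit 2048) (.nd (nat_lit 3168) (.br (nat_lit 6) (.ch (nat_lit 5) (.ev (nat_lit 3184) (nat_lit 131072) (.ev
 (nat_lit 3197) (nat_lit 67108864) .dd))) (.ch (nat_lit 6) (.nd (nat_lit 3201) (.ch (nat_lit 12) (.nd (nat_lit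
 3232) (.br (nat_lit 8) (.ch (nat_lit 0) (.ev (nat_lit 3248) (nat_lit 67239936) .dd)) (.ch (nat_lit 8) (.fin
 (nat_lit 576474496188760662)))))))))))))) (.br (nat_lit 5) (.ch (nat_lit 3) (.ev (nat_lit 1488) (nat_lit
 134610944) (.ev (nat_lit 1716) (nat_lit 16) (.ev (nat_lit 1760) (nat_lit 2048) (.ev (nat_lit 1773) (nat_lit
 67108864) .dd))))) (.ch (nat_lit 5) (.ev (nat_lit 1488) (nat_lit 201328656) (.ev (nat_lit 2724) (nat_lit
 262144) (.ev (nat_lit 2733) (nat_lit 131072) .dd)))))) (.br (nat_lit 8) (.ch (nat_lit 7) (.ev (nat_lit 1488)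
 (nat_lit 201590800) (.ev (nat_lit 1501) (nat_lit 131072) .dd))) (.br (nat_lit 12) (.ch (nat_lit 8) (.ev
 (nat_lit 1488) (nat_lit 262160) (.ev (nat_lit 1860) (nat_lit 67108864) (.ev (nat_lit 3124) (nat_lit 2048) (.nd
 (nat_lit 3168) (.br (nat_lit 9) (.ch (nat_lit 4) (.ev (nat_lit 3184) (nat_lit 134348800) .dd)) (.ch (nat_lit
 9) (.nd (nat_lit 3201) (.ch (nat_lit 11) (.nd (nat_lit 3232) (.br (nat_lit 8) (.ch (nat_lit 1) (.ev (nat_lit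
 3248) (nat_lit 134348800) .dd)) (.ch (nat_lit 8) (.fin (nat_lit 576472297199059511)))))))))))))) (.ch (nat_lit
 12) (.ev (nat_lit 1488) (nat_lit 67373056) (.ev (nat_lit 1552) (nat_lit 134217728) (.ev (nat_lit 1664)
 (nat_lit 131072) (.ev (nat_lit 1677) (nat_lit 16) .dd))))))))))) (.br (nat_lit 2) (.ch (nat_lit 1) (.ev
 (nat_lit 1184) (nat_lit 134613008) (.nd (nat_lit 1472) (.br (nat_lit 4) (.br (nat_lit 3) (.ch (nat_lit 0) (.ev
 (nat_lit 1488) (nat_lit 68190208) .dd)) (.ch (nat_lit 3) (.ev (nat_lit 1488) (nat_lit 67108864) (.ev (nat_lit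
 1504) (nat_lit 32768) (.ev (nat_lit 1517) (nat_lit 1048576) .dd))))) (.br (nat_lit 5) (.ch (nat_lit 4) (.ev
 (nat_lit 1488) (nat_lit 1048576) (.nd (nat_lit 3168) (.br (nat_lit 11) (.ch (nat_lit 5) (.fin (nat_lit
 576443709894640193))) (.ch (nat_lit 11) (.ev (nat_lit 3184) (nat_lit 67108864) (.ev (nat_lit 3197) (nat_lit
 32768) .dd))))))) (.br (nat_lit 11) (.ch (nat_lit 5) (.ev (nat_lit 1488) (nat_lit 68190208) .dd)) (.ch
 (nat_lit 11) (.ev (nat_lit 1488) (nat_lit 1048576) (.ev (nat_lit 1540) (nat_lit 32768) (.ev (nat_lit 1549)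
 (nat_lit 67108864) .dd)))))))))) (.ch (nat_lit 2) (.ev (nat_lit 1184) (nat_lit 202506240) (.nd (nat_lit 1472)
 (.br (nat_lit 6) (.br (nat_lit 3) (.ch (nat_lit 1) (.ev (nat_lit 1488) (nat_lit 32784) (.ev (nat_lit 2404)
 (nat_lit 262144) (.ev (nat_lit 2413) (nat_lit 2048) .dd)))) (.br (nat_lit 5) (.ch (nat_lit 3) (.ev (nat_lit
 1488) (nat_lit 34832) (.ev (nat_lit 1501) (nat_lit 262144) .dd))) (.ch (nat_lit 5) (.ev (nat_lit 1488)
 (nat_lit 262160) (.ev (nat_lit 1636) (nat_lit 2048) (.ev (nat_lit 1645) (nat_lit 32768) .dd)))))) (.br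
 (nat_lit 7) (.ch (nat_lit 6) (.ev (nat_lit 1488) (nat_lit 34816) (.fin (nat_lit 576460202548085310)))) (.br
 (nat_lit 12) (.ch (nat_lit 7) (.ev (nat_lit 1488) (nat_lit 34816) (.ev (nat_lit 1636) (nat_lit 16) (.ev
 (nat_lit 1645) (nat_lit 262144) .dd)))) (.ch (nat_lit 12) (.ev (nat_lit 1920) (nat_lit 262144) (.ev (nat_lit
 2288) (nat_lit 16) (.ev (nat_lit 2884) (nat_lit 2048) (.ev (nat_lit 2893) (nat_lit 32768) .dd)))))))))))))
 (.br (nat_lit 6) (.ch (nat_lit 3) (.ev (nat_lit 1184) (nat_lit 1048576) (.nd (nat_lit 1472) (.br (nat_lit 9)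
 (.br (nat_lit 5) (.ch (nat_lit 1) (.ev (nat_lit 1488) (nat_lit 67373072) (.ev (nat_lit 1540) (nat_lit
 134217728) (.ev (nat_lit 1888) (nat_lit 163840) .dd)))) (.br (nat_lit 8) (.ch (nat_lit 5) (.ev (nat_lit 1488)
 (nat_lit 134381568) (.ev (nat_lit 1552) (nat_lit 2048) (.ev (nat_lit 1636) (nat_lit 67108864) (.ev (nat_lit
 2324) (nat_lit 262144) (.ev (nat_lit 2333) (nat_lit 16) .dd)))))) (.ch (nat_lit 8) (.ev (nat_lit 1488)
 (nat_lit 395264) (.ev (nat_lit 1540) (nat_lit 32784) (.ev (nat_lit 1552) (nat_lit 134217728) (.ev (nat_lit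
 1565) (nat_lit 67108864) .dd))))))) (.br (nat_lit 11) (.ch (nat_lit 9) (.ev (nat_lit 1488) (nat_lit 428032)
 (.ev (nat_lit 1636) (nat_lit 134217728) (.ev (nat_lit 1780) (nat_lit 67108864) (.ev (nat_lit 1789) (nat_lit
 16) .dd))))) (.br (nat_lit 12) (.ch (nat_lit 11) (.ev (nat_lit 1488) (nat_lit 201588736) (.ev (nat_lit 1540)
 (nat_lit 32768) (.ev (nat_lit 1940) (nat_lit 131072) (.ev (nat_lit 2500) (nat_lit 16) (.ev (nat_lit 2509)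
 (nat_lit 2048) .dd)))))) (.ch (nat_lit 12) (.ev (nat_lit 1488) (nat_lit 134514688) (.ev (nat_lit 1540)
 (nat_lit 67108880) (.ev (nat_lit 1549) (nat_lit 131072) .dd)))))))))) (.br (nat_lit 7) (.ch (nat_lit 6) (.ev
 (nat_lit 1184) (nat_lit 1312768) (.nd (nat_lit 1472) (.br (nat_lit 5) (.br (nat_lit 2) (.ch (nat_lit 0) (.ev
 (nat_lit 1488) (nat_lit 67239952) (.ev (nat_lit 1636) (nat_lit 134217728) (.ev (nat_lit 1645) (nat_lit 32768)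
 .dd)))) (.br (nat_lit 4) (.ch (nat_lit 2) (.ev (nat_lit 1488) (nat_lit 134250512) (.ev (nat_lit 1648) (nat_lit
 67108864) (.ev (nat_lit 1661) (nat_lit 131072) .dd)))) (.ch (nat_lit 4) (.ev (nat_lit 1716) (nat_lit 67108864)
 (.ev (nat_lit 1952) (nat_lit 16) (.ev (nat_lit 2004) (nat_lit 131072) (.nd (nat_lit 3168) (.br (nat_lit 5)
 (.ch (nat_lit 0) (.ev (nat_lit 3184) (nat_lit 134217728) (.ev (nat_lit 3197) (nat_lit 32768) .dd))) (.br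
 (nat_lit 11) (.ch (nat_lit 5) (.ev (nat_lit 3184) (nat_lit 134217728) (.ev (nat_lit 3197) (nat_lit 32768)
 .dd))) (.ch (nat_lit 11) (.fin (nat_lit 576439311831351834)))))))))))) (.br (nat_lit 9) (.br (nat_lit 6) (.ch
 (nat_lit 5) (.ev (nat_lit 1488) (nat_lit 201457680) (.ev (nat_lit 1501) (nat_lit 32768) .dd))) (.ch (nat_lit
 6) (.ev (nat_lit 1488) (nat_lit 201457664) (.ev (nat_lit 1636) (nat_lit 32768) (.ev (nat_lit 1645) (nat_lit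
 16) .dd))))) (.br (nat_lit 11) (.ch (nat_lit 9) (.ev (nat_lit 1488) (nat_lit 131088) (.ev (nat_lit 1540)
 (nat_lit 67108864) (.ev (nat_lit 1636) (nat_lit 134217728) (.ev (nat_lit 1645) (nat_lit 32768) .dd))))) (.ch
 (nat_lit 11) (.ev (nat_lit 1488) (nat_lit 201359360) (.ev (nat_lit 1636) (nat_lit 131072) (.ev (nat_lit 1645)
 (nat_lit 16) .dd)))))))))) (.ch (nat_lit 7) (.ev (nat_lit 1184) (nat_lit 134643712) (.nd (nat_lit 1472) (.br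
 (nat_lit 4) (.br (nat_lit 1) (.ch (nat_lit 0) (.ev (nat_lit 1860) (nat_lit 68157440) (.ev (nat_lit 2052)
 (nat_lit 2048) (.ev (nat_lit 2061) (nat_lit 16) .dd)))) (.br (nat_lit 2) (.ch (nat_lit 1) (.ev (nat_lit 1488)
 (nat_lit 16) (.ev (nat_lit 2688) (nat_lit 67108864) (.fin (nat_lit 576482192753377890))))) (.ch (nat_lit 2)
 (.ev (nat_lit 1488) (nat_lit 1050624) (.ev (nat_lit 1636) (nat_lit 16) (.ev (nat_lit 1645) (nat_lit 67108864)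
 .dd)))))) (.br (nat_lit 8) (.ch (nat_lit 4) (.ev (nat_lit 1488) (nat_lit 1048576) (.ev (nat_lit 2724) (nat_lit
 67108880) (.ev (nat_lit 2733) (nat_lit 2048) .dd)))) (.br (nat_lit 10) (.ch (nat_lit 8) (.ev (nat_lit 1488)
 (nat_lit 67110912) (.ev (nat_lit 1760) (nat_lit 1048592) .dd))) (.ch (nat_lit 10) (.ev (nat_lit 1488) (nat_lit
 1048576) (.ev (nat_lit 1540) (nat_lit 16) (.ev (nat_lit 1716) (nat_lit 67108864) (.ev (nat_lit 1725) (nat_lit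
 2048) .dd)))))))))))))))))))))))) (.br (nat_lit 47) (.br (nat_lit 44) (.br (nat_lit 43) (.ch (nat_lit 42) (.ev
 (nat_lit 52) (nat_lit 68787044354) (.ev (nat_lit 372) (nat_lit 128) (.ev (nat_lit 436) (nat_lit 2048) (.ev
 (nat_lit 564) (nat_lit 256) (.ev (nat_lit 980) (nat_lit 33554448) (.nd (nat_lit 1168) (.br (nat_lit 6) (.br
 (nat_lit 2) (.ch (nat_lit 1) (.ev (nat_lit 1184) (nat_lit 17306624) (.ev (nat_lit 1366) (nat_lit 32768) (.nd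
 (nat_lit 1472) (.br (nat_lit 5) (.br (nat_lit 4) (.ch (nat_lit 3) (.ev (nat_lit 1488) (nat_lit 1207959552)
 (.ev (nat_lit 1504) (nat_lit 1048576) (.ev (nat_lit 1517) (nat_lit 536870912) .dd)))) (.ch (nat_lit 4) (.ev
 (nat_lit 1488) (nat_lit 672137216) (.ev (nat_lit 1501) (nat_lit 1073741824) .dd)))) (.br (nat_lit 10) (.ch
 (nat_lit 5) (.ev (nat_lit 1488) (nat_lit 672137216) (.ev (nat_lit 1501) (nat_lit 1073741824) .dd))) (.br
 (nat_lit 11) (.ch (nat_lit 10) (.ev (nat_lit 1488) (nat_lit 536870912) (.ev (nat_lit 1540) (nat_lit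
 1073741824) (.ev (nat_lit 1860) (nat_lit 1048576) (.ev (nat_lit 1869) (nat_lit 134217728) .dd))))) (.ch
 (nat_lit 11) (.ev (nat_lit 1488) (nat_lit 1611661312) (.ev (nat_lit 1501) (nat_lit 134217728) .dd))))))))))
 (.br (nat_lit 3) (.ch (nat_lit 2) (.ev (nat_lit 1184) (nat_lit 1225790464) (.nd (nat_lit 1472) (.br (nat_lit
 6) (.br (nat_lit 2) (.ch (nat_lit 1) (.ev (nat_lit 1488) (nat_lit 557056) (.ev (nat_lit 1501) (nat_lit
 536870912) .dd))) (.br (nat_lit 3) (.ch (nat_lit 2) (.ev (nat_lit 1488) (nat_lit 524288) (.fin (nat_lit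
 576439311844983335)))) (.ch (nat_lit 3) (.ev (nat_lit 1488) (nat_lit 536903680) (.ev (nat_lit 1501) (nat_lit
 524288) .dd))))) (.br (nat_lit 7) (.ch (nat_lit 6) (.ev (nat_lit 1488) (nat_lit 524288) (.ev (nat_lit 1540)
 (nat_lit 536870912) (.ev (nat_lit 1549) (nat_lit 32768) .dd)))) (.br (nat_lit 11) (.ch (nat_lit 7) (.ev
 (nat_lit 1488) (nat_lit 536903680) (.ev (nat_lit 1501) (nat_lit 524288) .dd))) (.ch (nat_lit 11) (.ev (nat_lit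
 1860) (nat_lit 32768) (.ev (nat_lit 2004) (nat_lit 524288) (.ev (nat_lit 2013) (nat_lit 536870912)
 .dd)))))))))) (.ch (nat_lit 3) (.ev (nat_lit 1184) (nat_lit 135271424) (.ev (nat_lit 1220) (nat_lit
 1073741824) (.nd (nat_lit 1472) (.br (nat_lit 9) (.br (nat_lit 1) (.ch (nat_lit 0) (.ev (nat_lit 1488)
 (nat_lit 16809984) (.ev (nat_lit 1636) (nat_lit 536870912) (.ev (nat_lit 1645) (nat_lit 524288) .dd)))) (.br
 (nat_lit 3) (.ch (nat_lit 1) (.ev (nat_lit 1488) (nat_lit 557056) (.fin (nat_lit 576492088402068062)))) (.ch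
 (nat_lit 3) (.ev (nat_lit 1488) (nat_lit 553680896) (.ev (nat_lit 1501) (nat_lit 524288) .dd))))) (.br
 (nat_lit 11) (.br (nat_lit 10) (.ch (nat_lit 9) (.ev (nat_lit 1488) (nat_lit 557056) (.ev (nat_lit 1540)
 (nat_lit 536870912) (.ev (nat_lit 1549) (nat_lit 16777216) .dd)))) (.ch (nat_lit 10) (.ev (nat_lit 1488)
 (nat_lit 536870912) (.ev (nat_lit 3060) (nat_lit 16777216) (.nd (nat_lit 3168) (.br (nat_lit 2) (.ch (nat_lit
 0) (.fin (nat_lit 576439311885877838))) (.br (nat_lit 7) (.ch (nat_lit 2) (.ev (nat_lit 3184) (nat_lit 32768)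
 (.ev (nat_lit 3197) (nat_lit 524288) .dd))) (.ch (nat_lit 7) (.ev (nat_lit 3184) (nat_lit 32768) (.ev (nat_lit
 3197) (nat_lit 524288) .dd)))))))))) (.br (nat_lit 12) (.ch (nat_lit 11) (.ev (nat_lit 1488) (nat_lit
 16809984) (.ev (nat_lit 1860) (nat_lit 536870912) (.ev (nat_lit 1869) (nat_lit 524288) .dd)))) (.ch (nat_lit
 12) (.ev (nat_lit 1488) (nat_lit 16777216) (.ev (nat_lit 1540) (nat_lit 32768) (.ev (nat_lit 1636) (nat_lit
 524288) (.ev (nat_lit 1645) (nat_lit 536870912) .dd)))))))))))))) (.br (nat_lit 9) (.ch (nat_lit 6) (.ev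
 (nat_lit 1184) (nat_lit 1610612736) (.nd (nat_lit 1472) (.br (nat_lit 4) (.br (nat_lit 2) (.ch (nat_lit 0)
 (.ev (nat_lit 1488) (nat_lit 1610752) (.ev (nat_lit 1872) (nat_lit 150994944) .dd))) (.br (nat_lit 3) (.ch
 (nat_lit 2) (.ev (nat_lit 1488) (nat_lit 135300096) (.ev (nat_lit 1540) (nat_lit 16777216) (.ev (nat_lit 1636)
 (nat_lit 524288) (.ev (nat_lit 1645) (nat_lit 4096) .dd))))) (.ch (nat_lit 3) (.ev (nat_lit 1488) (nat_lit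
 1086464) (.ev (nat_lit 2004) (nat_lit 134217728) (.ev (nat_lit 2052) (nat_lit 16777216) (.ev (nat_lit 2061)
 (nat_lit 524288) .dd))))))) (.br (nat_lit 5) (.ch (nat_lit 4) (.ev (nat_lit 1488) (nat_lit 4096) (.ev (nat_lit
 1540) (nat_lit 17301504) (.nd (nat_lit 3168) (.br (nat_lit 11) (.ch (nat_lit 10) (.ev (nat_lit 3184) (nat_lit
 134250496) (.fin (nat_lit 576448107920179814)))) (.ch (nat_lit 11) (.ev (nat_lit 3184) (nat_lit 1049600) (.fin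
 (nat_lit 576483292290171494))))))))) (.br (nat_lit 6) (.ch (nat_lit 5) (.ev (nat_lit 1488) (nat_lit 152567808)
 (.ev (nat_lit 1552) (nat_lit 1024) (.ev (nat_lit 1600) (nat_lit 36864) .dd)))) (.ch (nat_lit 6) (.ev (nat_lit
 1488) (nat_lit 18354176) (.ev (nat_lit 1552) (nat_lit 1024) (.ev (nat_lit 2836) (nat_lit 32768) (.ev (nat_lit
 2845) (nat_lit 134217728) .dd))))))))))) (.br (nat_lit 11) (.ch (nat_lit 9) (.ev (nat_lit 1184) (nat_lit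
 1627952128) (.nd (nat_lit 1472) (.br (nat_lit 6) (.br (nat_lit 4) (.ch (nat_lit 0) (.ev (nat_lit 1488)
 (nat_lit 134217728) (.ev (nat_lit 1501) (nat_lit 1048576) .dd))) (.br (nat_lit 5) (.ch (nat_lit 4) (.ev
 (nat_lit 1488) (nat_lit 135266304) .dd)) (.ch (nat_lit 5) (.ev (nat_lit 1552) (nat_lit 134217728) (.ev
 (nat_lit 1565) (nat_lit 1048576) .dd))))) (.br (nat_lit 7) (.ch (nat_lit 6) (.ev (nat_lit 1488) (nat_lit
 1048576) (.ev (nat_lit 1501) (nat_lit 134217728) .dd))) (.br (nat_lit 11) (.ch (nat_lit 7) (.ev (nat_lit 1488)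
 (nat_lit 134217728) (.ev (nat_lit 1501) (nat_lit 1048576) .dd))) (.ch (nat_lit 11) (.ev (nat_lit 1488)
 (nat_lit 1048576) (.ev (nat_lit 1501) (nat_lit 134217728) .dd))))))))) (.ch (nat_lit 11) (.ev (nat_lit 1184)
 (nat_lit 672171008) (.nd (nat_lit 1472) (.br (nat_lit 6) (.br (nat_lit 4) (.ch (nat_lit 2) (.ev (nat_lit 1488)
 (nat_lit 1073745920) (.ev (nat_lit 1540) (nat_lit 524288) (.ev (nat_lit 1549) (nat_lit 16777216) .dd)))) (.ch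
 (nat_lit 4) (.ev (nat_lit 1488) (nat_lit 16777216) (.ev (nat_lit 1664) (nat_lit 4096) (.nd (nat_lit 3168) (.br
 (nat_lit 7) (.ch (nat_lit 5) (.ev (nat_lit 3184) (nat_lit 1073741824) (.ev (nat_lit 3197) (nat_lit 524288)
 .dd))) (.ch (nat_lit 7) (.fin (nat_lit 576478894259389005))))))))) (.br (nat_lit 8) (.ch (nat_lit 6) (.ev
 (nat_lit 1488) (nat_lit 17301504) (.ev (nat_lit 1540) (nat_lit 4096) (.ev (nat_lit 1549) (nat_lit 1073741824)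
 .dd)))) (.br (nat_lit 10) (.ch (nat_lit 8) (.ev (nat_lit 1488) (nat_lit 1090523136) (.ev (nat_lit 1501)
 (nat_lit 524288) .dd))) (.ch (nat_lit 10) (.ev (nat_lit 1488) (nat_lit 17301504) (.ev (nat_lit 1540) (nat_lit
 1073741824) (.ev (nat_lit 1549) (nat_lit 4096) .dd)))))))))))))))))))) (.ch (nat_lit 43) (.ev (nat_lit 52)
 (nat_lit 69324540288) (.ev (nat_lit 564) (nat_lit 1024) (.ev (nat_lit 724) (nat_lit 16777216) (.ev (nat_lit
 756) (nat_lit 134217728) (.ev (nat_lit 820) (nat_lit 131072) (.nd (nat_lit 1168) (.br (nat_lit 6) (.br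
 (nat_lit 2) (.ch (nat_lit 0) (.ev (nat_lit 1184) (nat_lit 331776) (.nd (nat_lit 1472) (.br (nat_lit 4) (.br
 (nat_lit 2) (.ch (nat_lit 1) (.ev (nat_lit 1488) (nat_lit 1107296258) (.ev (nat_lit 1636) (nat_lit 524288)
 (.ev (nat_lit 1645) (nat_lit 16) .dd)))) (.br (nat_lit 3) (.ch (nat_lit 2) (.ev (nat_lit 1664) (nat_lit 2)
 (.ev (nat_lit 1872) (nat_lit 16) (.ev (nat_lit 2052) (nat_lit 1073741824) (.nd (nat_lit 3168) (.br (nat_lit 7)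
 (.ch (nat_lit 6) (.ev (nat_lit 3184) (nat_lit 33554432) (.ev (nat_lit 3197) (nat_lit 524288) .dd))) (.br
 (nat_lit 10) (.ch (nat_lit 7) (.fin (nat_lit 576483292321628754))) (.ch (nat_lit 10) (.ev (nat_lit 3184)
 (nat_lit 33554432) (.ev (nat_lit 3197) (nat_lit 524288) .dd)))))))))) (.ch (nat_lit 3) (.ev (nat_lit 1488)
 (nat_lit 34078736) (.ev (nat_lit 1648) (nat_lit 2) (.ev (nat_lit 1661) (nat_lit 1073741824) .dd)))))) (.br
 (nat_lit 6) (.br (nat_lit 5) (.ch (nat_lit 4) (.ev (nat_lit 1488) (nat_lit 1073741842) (.ev (nat_lit 1636)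
 (nat_lit 33554432) (.ev (nat_lit 1645) (nat_lit 524288) .dd)))) (.ch (nat_lit 5) (.ev (nat_lit 1488) (nat_lit
 34078722) (.ev (nat_lit 1636) (nat_lit 1073741824) (.ev (nat_lit 1645) (nat_lit 16) .dd))))) (.br (nat_lit 8)
 (.ch (nat_lit 6) (.ev (nat_lit 1488) (nat_lit 1073741840) (.ev (nat_lit 1540) (nat_lit 2) (.ev (nat_lit 1636)
 (nat_lit 33554432) (.ev (nat_lit 1645) (nat_lit 524288) .dd))))) (.ch (nat_lit 8) (.ev (nat_lit 1488) (nat_lit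
 1107296274) (.ev (nat_lit 1501) (nat_lit 524288) .dd))))))))) (.br (nat_lit 3) (.ch (nat_lit 2) (.ev (nat_lit
 1184) (nat_lit 1107300354) (.nd (nat_lit 1472) (.br (nat_lit 3) (.br (nat_lit 1) (.ch (nat_lit 0) (.ev
 (nat_lit 1488) (nat_lit 262160) (.ev (nat_lit 1636) (nat_lit 65536) (.ev (nat_lit 1645) (nat_lit 524288)
 .dd)))) (.br (nat_lit 2) (.ch (nat_lit 1) (.ev (nat_lit 1488) (nat_lit 589840) (.ev (nat_lit 1501) (nat_lit
 262144) .dd))) (.ch (nat_lit 2) (.ev (nat_lit 1488) (nat_lit 524304) (.ev (nat_lit 2752) (nat_lit 262144) (.ev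
 (nat_lit 2765) (nat_lit 65536) .dd)))))) (.br (nat_lit 6) (.ch (nat_lit 3) (.ev (nat_lit 1840) (nat_lit
 262144) (.ev (nat_lit 2672) (nat_lit 16) (.ev (nat_lit 2868) (nat_lit 65536) (.ev (nat_lit 2877) (nat_lit
 524288) .dd))))) (.br (nat_lit 12) (.ch (nat_lit 6) (.ev (nat_lit 1488) (nat_lit 589824) (.fin (nat_lit
 576460202548085310)))) (.ch (nat_lit 12) (.ev (nat_lit 1488) (nat_lit 589824) (.ev (nat_lit 1636) (nat_lit 16)
 (.ev (nat_lit 1645) (nat_lit 262144) .dd)))))))))) (.ch (nat_lit 3) (.ev (nat_lit 1184) (nat_lit 528384) (.nd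
 (nat_lit 1472) (.br (nat_lit 5) (.br (nat_lit 1) (.ch (nat_lit 0) (.ev (nat_lit 1488) (nat_lit 33619986) (.ev
 (nat_lit 2352) (nat_lit 1073741824) (.ev (nat_lit 2365) (nat_lit 262144) .dd)))) (.br (nat_lit 3) (.ch
 (nat_lit 1) (.ev (nat_lit 1488) (nat_lit 1107558400) (.ev (nat_lit 1716) (nat_lit 16) (.ev (nat_lit 1780)
 (nat_lit 65536) (.ev (nat_lit 1789) (nat_lit 2) .dd))))) (.ch (nat_lit 3) (.ev (nat_lit 1488) (nat_lit 327682)
 (.ev (nat_lit 1552) (nat_lit 33554432) (.ev (nat_lit 1648) (nat_lit 1073741824) (.ev (nat_lit 1661) (nat_lit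
 16) .dd))))))) (.br (nat_lit 8) (.ch (nat_lit 5) (.ev (nat_lit 1488) (nat_lit 262160) (.ev (nat_lit 1940)
 (nat_lit 2) (.ev (nat_lit 3156) (nat_lit 65536) (.nd (nat_lit 3168) (.br (nat_lit 11) (.ch (nat_lit 2) (.nd
 (nat_lit 3201) (.ch (nat_lit 37) (.nd (nat_lit 3232) (.br (nat_lit 9) (.ch (nat_lit 6) (.ev (nat_lit 3248)
 (nat_lit 1107296256) .dd)) (.ch (nat_lit 9) (.fin (nat_lit 576478894245757491)))))))) (.ch (nat_lit 11) (.ev
 (nat_lit 3184) (nat_lit 1107296256) .dd)))))))) (.br (nat_lit 12) (.ch (nat_lit 8) (.ev (nat_lit 1488)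
 (nat_lit 33816576) (.ev (nat_lit 1904) (nat_lit 16) (.ev (nat_lit 2436) (nat_lit 65536) (.nd (nat_lit 3168)
 (.br (nat_lit 8) (.ch (nat_lit 1) (.nd (nat_lit 3201) (.br (nat_lit 18) (.ch (nat_lit 10) (.nd (nat_lit 3232)
 (.br (nat_lit 11) (.ch (nat_lit 7) (.fin (nat_lit 576448107901305406))) (.ch (nat_lit 11) (.ev (nat_lit 3248)
 (nat_lit 1073741826) .dd))))) (.ch (nat_lit 18) (.ev (nat_lit 3217) (nat_lit 1073741826) .dd))))) (.ch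
 (nat_lit 8) (.ev (nat_lit 3184) (nat_lit 1073741824) (.ev (nat_lit 3197) (nat_lit 2) .dd))))))))) (.ch
 (nat_lit 12) (.ev (nat_lit 1488) (nat_lit 33882130) (.ev (nat_lit 1501) (nat_lit 1073741824) .dd)))))))))))
 (.br (nat_lit 8) (.ch (nat_lit 6) (.ev (nat_lit 1184) (nat_lit 1108082688) (.nd (nat_lit 1472) (.br (nat_lit
 4) (.br (nat_lit 1) (.ch (nat_lit 0) (.ev (nat_lit 1488) (nat_lit 4096) (.ev (nat_lit 1540) (nat_lit 16) (.ev
 (nat_lit 1716) (nat_lit 2) (.ev (nat_lit 1725) (nat_lit 65536) .dd))))) (.br (nat_lit 3) (.ch (nat_lit 1) (.ev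
 (nat_lit 1488) (nat_lit 65538) (.ev (nat_lit 1792) (nat_lit 4112) .dd))) (.ch (nat_lit 3) (.ev (nat_lit 1488)
 (nat_lit 4096) (.ev (nat_lit 2324) (nat_lit 2) (.ev (nat_lit 2416) (nat_lit 16) (.ev (nat_lit 2429) (nat_lit
 65536) .dd))))))) (.br (nat_lit 5) (.ch (nat_lit 4) (.ev (nat_lit 1488) (nat_lit 69632) (.ev (nat_lit 1636)
 (nat_lit 16) (.ev (nat_lit 1645) (nat_lit 2) .dd)))) (.br (nat_lit 11) (.ch (nat_lit 5) (.ev (nat_lit 1840)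
 (nat_lit 2) (.ev (nat_lit 1940) (nat_lit 4096) (.ev (nat_lit 2004) (nat_lit 65536) (.ev (nat_lit 2013)
 (nat_lit 16) .dd))))) (.ch (nat_lit 11) (.ev (nat_lit 1488) (nat_lit 16) (.ev (nat_lit 2304) (nat_lit 2) (.fin
 (nat_lit 576482192816292410))))))))))) (.br (nat_lit 9) (.ch (nat_lit 8) (.ev (nat_lit 1184) (nat_lit 4096)
 (.nd (nat_lit 1472) (.br (nat_lit 9) (.br (nat_lit 5) (.ch (nat_lit 4) (.ev (nat_lit 1488) (nat_lit 33816578)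
 (.ev (nat_lit 1540) (nat_lit 524288) (.ev (nat_lit 2004) (nat_lit 1073741824) (.ev (nat_lit 2404) (nat_lit 16)
 (.ev (nat_lit 2413) (nat_lit 65536) .dd)))))) (.br (nat_lit 7) (.ch (nat_lit 5) (.ev (nat_lit 1488) (nat_lit
 1074593792) (.ev (nat_lit 1636) (nat_lit 33554432) (.ev (nat_lit 1780) (nat_lit 2) (.ev (nat_lit 1789)
 (nat_lit 16) .dd))))) (.ch (nat_lit 7) (.ev (nat_lit 1488) (nat_lit 1107820544) (.ev (nat_lit 1552) (nat_lit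
 65536) (.ev (nat_lit 1636) (nat_lit 2) (.ev (nat_lit 2724) (nat_lit 262144) (.ev (nat_lit 2733) (nat_lit 16)
 .dd)))))))) (.br (nat_lit 10) (.ch (nat_lit 9) (.ev (nat_lit 1488) (nat_lit 327698) (.ev (nat_lit 1540)
 (nat_lit 33554432) (.ev (nat_lit 1808) (nat_lit 524288) (.ev (nat_lit 1821) (nat_lit 1073741824) .dd))))) (.br
 (nat_lit 12) (.ch (nat_lit 10) (.ev (nat_lit 1488) (nat_lit 34406400) (.ev (nat_lit 1540) (nat_lit 18) (.ev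
 (nat_lit 1549) (nat_lit 1073741824) .dd)))) (.ch (nat_lit 12) (.ev (nat_lit 1488) (nat_lit 1074069504) (.ev
 (nat_lit 1540) (nat_lit 524304) (.ev (nat_lit 1552) (nat_lit 33554432) (.ev (nat_lit 1565) (nat_lit 2)
 .dd))))))))))) (.ch (nat_lit 9) (.ev (nat_lit 1184) (nat_lit 1107623952) (.nd (nat_lit 1472) (.br (nat_lit 7)
 (.br (nat_lit 6) (.ch (nat_lit 4) (.ev (nat_lit 1488) (nat_lit 4096) (.nd (nat_lit 3168) (.br (nat_lit 12)
 (.ch (nat_lit 2) (.fin (nat_lit 576450306966503981))) (.ch (nat_lit 12) (.ev (nat_lit 3184) (nat_lit 2) (.ev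
 (nat_lit 3197) (nat_lit 524288) .dd))))))) (.ch (nat_lit 6) (.ev (nat_lit 1488) (nat_lit 528386) .dd))) (.br
 (nat_lit 10) (.ch (nat_lit 7) (.ev (nat_lit 1488) (nat_lit 4096) (.ev (nat_lit 1540) (nat_lit 524288) (.ev
 (nat_lit 1549) (nat_lit 2) .dd)))) (.br (nat_lit 11) (.ch (nat_lit 10) (.ev (nat_lit 1488) (nat_lit 528386)
 .dd)) (.ch (nat_lit 11) (.ev (nat_lit 1488) (nat_lit 2) (.ev (nat_lit 1504) (nat_lit 524288) (.ev (nat_lit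
 1517) (nat_lit 4096) .dd))))))))))))))))))))) (.br (nat_lit 46) (.ch (nat_lit 44) (.ev (nat_lit 52) (nat_lit
 69390569858) (.ev (nat_lit 276) (nat_lit 1140850688) (.ev (nat_lit 372) (nat_lit 17825792) (.ev (nat_lit 532)
 (nat_lit 65536) (.ev (nat_lit 628) (nat_lit 131072) (.ev (nat_lit 992) (nat_lit 34376720) .dd))))))) (.ch
 (nat_lit 46) (.ev (nat_lit 52) (nat_lit 1628439808) (.ev (nat_lit 224) (nat_lit 68955379858) .dd))))) (.br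
 (nat_lit 49) (.br (nat_lit 48) (.ch (nat_lit 47) (.ev (nat_lit 52) (nat_lit 654576896) (.ev (nat_lit 564)
 (nat_lit 68719476736) (.ev (nat_lit 724) (nat_lit 32768) (.ev (nat_lit 756) (nat_lit 2) (.ev (nat_lit 820)
 (nat_lit 524288) (.nd (nat_lit 1168) (.br (nat_lit 6) (.br (nat_lit 1) (.ch (nat_lit 0) (.ev (nat_lit 1184)
 (nat_lit 1118352) (.nd (nat_lit 1472) (.br (nat_lit 5) (.br (nat_lit 2) (.ch (nat_lit 1) (.ev (nat_lit 1488)
 (nat_lit 134217728) (.ev (nat_lit 1504) (nat_lit 131072) (.ev (nat_lit 1517) (nat_lit 1073741824) .dd)))) (.ch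
 (nat_lit 2) (.ev (nat_lit 1488) (nat_lit 1208090624) .dd))) (.br (nat_lit 6) (.ch (nat_lit 5) (.ev (nat_lit
 1488) (nat_lit 1073741824) (.ev (nat_lit 1540) (nat_lit 131072) (.ev (nat_lit 1549) (nat_lit 134217728)
 .dd)))) (.br (nat_lit 8) (.ch (nat_lit 6) (.ev (nat_lit 1488) (nat_lit 1208090624) .dd)) (.ch (nat_lit 8) (.ev
 (nat_lit 1488) (nat_lit 1073741824) (.nd (nat_lit 3168) (.br (nat_lit 12) (.ch (nat_lit 9) (.fin (nat_lit
 576450306922463817))) (.ch (nat_lit 12) (.ev (nat_lit 3184) (nat_lit 134217728) (.ev (nat_lit 3197) (nat_lit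
 131072) .dd))))))))))))) (.br (nat_lit 3) (.ch (nat_lit 1) (.ev (nat_lit 1184) (nat_lit 1073741824) (.nd
 (nat_lit 1472) (.br (nat_lit 5) (.br (nat_lit 1) (.ch (nat_lit 0) (.ev (nat_lit 1488) (nat_lit 1179792) (.ev
 (nat_lit 1540) (nat_lit 134283264) (.ev (nat_lit 1549) (nat_lit 4096) .dd)))) (.br (nat_lit 3) (.ch (nat_lit
 1) (.ev (nat_lit 1488) (nat_lit 135331856) (.ev (nat_lit 1540) (nat_lit 128) (.ev (nat_lit 1808) (nat_lit
 131072) (.ev (nat_lit 1821) (nat_lit 4096) .dd))))) (.ch (nat_lit 3) (.ev (nat_lit 1488) (nat_lit 135296) (.ev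
 (nat_lit 1552) (nat_lit 16) (.ev (nat_lit 1636) (nat_lit 134217728) (.ev (nat_lit 2724) (nat_lit 1048576) (.ev
 (nat_lit 2733) (nat_lit 65536) .dd)))))))) (.br (nat_lit 6) (.ch (nat_lit 5) (.ev (nat_lit 1488) (nat_lit
 1183760) (.ev (nat_lit 1636) (nat_lit 128) (.ev (nat_lit 1780) (nat_lit 134217728) (.ev (nat_lit 1789)
 (nat_lit 65536) .dd))))) (.br (nat_lit 11) (.ch (nat_lit 6) (.ev (nat_lit 1488) (nat_lit 135266432) (.ev
 (nat_lit 1540) (nat_lit 131072) (.ev (nat_lit 2004) (nat_lit 4096) (.ev (nat_lit 2404) (nat_lit 65536) (.ev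
 (nat_lit 2413) (nat_lit 16) .dd)))))) (.ch (nat_lit 11) (.ev (nat_lit 1488) (nat_lit 1052688) (.ev (nat_lit
 1540) (nat_lit 196608) (.ev (nat_lit 1552) (nat_lit 128) (.ev (nat_lit 1565) (nat_lit 134217728)
 .dd))))))))))) (.ch (nat_lit 3) (.ev (nat_lit 1184) (nat_lit 1183872) (.nd (nat_lit 1472) (.br (nat_lit 9)
 (.br (nat_lit 1) (.ch (nat_lit 0) (.ev (nat_lit 1488) (nat_lit 134217744) (.ev (nat_lit 1792) (nat_lit
 1073807360) .dd))) (.br (nat_lit 3) (.ch (nat_lit 1) (.ev (nat_lit 1488) (nat_lit 1073741824) (.ev (nat_lit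
 1540) (nat_lit 65536) (.ev (nat_lit 1716) (nat_lit 134217728) (.ev (nat_lit 1725) (nat_lit 16) .dd))))) (.ch
 (nat_lit 3) (.ev (nat_lit 1488) (nat_lit 65536) (.ev (nat_lit 2304) (nat_lit 134217728) (.fin (nat_lit
 576482192747086425))))))) (.br (nat_lit 10) (.ch (nat_lit 9) (.ev (nat_lit 1840) (nat_lit 134217728) (.ev
 (nat_lit 1940) (nat_lit 1073741824) (.ev (nat_lit 2004) (nat_lit 16) (.ev (nat_lit 2013) (nat_lit 65536)
 .dd))))) (.br (nat_lit 11) (.ch (nat_lit 10) (.ev (nat_lit 1488) (nat_lit 1073741840) (.ev (nat_lit 1636)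
 (nat_lit 65536) (.ev (nat_lit 1645) (nat_lit 134217728) .dd)))) (.ch (nat_lit 11) (.ev (nat_lit 1488) (nat_lit
 1073741824) (.ev (nat_lit 2324) (nat_lit 134217728) (.ev (nat_lit 2416) (nat_lit 65536) (.ev (nat_lit 2429)
 (nat_lit 16) .dd))))))))))))) (.br (nat_lit 7) (.ch (nat_lit 6) (.ev (nat_lit 1184) (nat_lit 1073872896) (.nd
 (nat_lit 1472) (.br (nat_lit 6) (.br (nat_lit 1) (.ch (nat_lit 0) (.ev (nat_lit 1488) (nat_lit 1052800) (.ev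
 (nat_lit 1716) (nat_lit 65536) (.ev (nat_lit 1780) (nat_lit 16) (.ev (nat_lit 1789) (nat_lit 134217728)
 .dd))))) (.br (nat_lit 2) (.ch (nat_lit 1) (.ev (nat_lit 1488) (nat_lit 134283408) (.ev (nat_lit 2352)
 (nat_lit 4096) (.ev (nat_lit 2365) (nat_lit 1048576) .dd)))) (.ch (nat_lit 2) (.ev (nat_lit 1488) (nat_lit
 135331984) (.ev (nat_lit 1501) (nat_lit 4096) .dd))))) (.br (nat_lit 9) (.ch (nat_lit 6) (.ev (nat_lit 1488)
 (nat_lit 1048704) (.ev (nat_lit 1904) (nat_lit 65536) (.ev (nat_lit 2436) (nat_lit 16) (.nd (nat_lit 3168)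
 (.br (nat_lit 7) (.ch (nat_lit 1) (.nd (nat_lit 3201) (.br (nat_lit 35) (.ch (nat_lit 9) (.ev (nat_lit 3217)
 (nat_lit 134221824) .dd)) (.ch (nat_lit 35) (.nd (nat_lit 3232) (.br (nat_lit 11) (.ch (nat_lit 2) (.fin
 (nat_lit 576448107941151286))) (.ch (nat_lit 11) (.ev (nat_lit 3248) (nat_lit 134221824) .dd)))))))) (.ch
 (nat_lit 7) (.ev (nat_lit 3184) (nat_lit 4096) (.ev (nat_lit 3197) (nat_lit 134217728) .dd))))))))) (.br
 (nat_lit 11) (.ch (nat_lit 9) (.ev (nat_lit 1488) (nat_lit 1114112) (.ev (nat_lit 1940) (nat_lit 134217728)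
 (.ev (nat_lit 3156) (nat_lit 16) (.nd (nat_lit 3168) (.br (nat_lit 12) (.ch (nat_lit 3) (.ev (nat_lit 3184)
 (nat_lit 4224) .dd)) (.ch (nat_lit 12) (.nd (nat_lit 3201) (.ch (nat_lit 40) (.nd (nat_lit 3232) (.br (nat_lit
 8) (.ch (nat_lit 5) (.fin (nat_lit 576478894247854685))) (.ch (nat_lit 8) (.ev (nat_lit 3248) (nat_lit 4224)
 .dd))))))))))))) (.ch (nat_lit 11) (.ev (nat_lit 1488) (nat_lit 135266320) (.ev (nat_lit 1552) (nat_lit 128)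
 (.ev (nat_lit 1648) (nat_lit 4096) (.ev (nat_lit 1661) (nat_lit 65536) .dd))))))))))) (.br (nat_lit 9) (.ch
 (nat_lit 7) (.ev (nat_lit 1184) (nat_lit 1207963776) (.nd (nat_lit 1472) (.br (nat_lit 3) (.br (nat_lit 1)
 (.ch (nat_lit 0) (.ev (nat_lit 1488) (nat_lit 196608) (.ev (nat_lit 2752) (nat_lit 1048576) (.ev (nat_lit
 2765) (nat_lit 16) .dd)))) (.br (nat_lit 2) (.ch (nat_lit 1) (.ev (nat_lit 1488) (nat_lit 196624) (.ev
 (nat_lit 1501) (nat_lit 1048576) .dd))) (.ch (nat_lit 2) (.ev (nat_lit 1488) (nat_lit 1114112) (.ev (nat_lit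
 1636) (nat_lit 16) (.ev (nat_lit 1645) (nat_lit 131072) .dd)))))) (.br (nat_lit 9) (.ch (nat_lit 3) (.ev
 (nat_lit 1488) (nat_lit 131088) (.ev (nat_lit 1636) (nat_lit 65536) (.ev (nat_lit 1645) (nat_lit 1048576)
 .dd)))) (.br (nat_lit 12) (.ch (nat_lit 9) (.ev (nat_lit 1488) (nat_lit 131088) (.fin (nat_lit
 576460202550182465)))) (.ch (nat_lit 12) (.ev (nat_lit 1840) (nat_lit 1048576) (.ev (nat_lit 2672) (nat_lit
 65536) (.ev (nat_lit 2868) (nat_lit 16) (.ev (nat_lit 2877) (nat_lit 131072) .dd))))))))))) (.ch (nat_lit 9)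
 (.ev (nat_lit 1184) (nat_lit 1074790416) (.nd (nat_lit 1472) (.br (nat_lit 8) (.br (nat_lit 6) (.ch (nat_lit
 4) (.ev (nat_lit 1488) (nat_lit 134287488) (.ev (nat_lit 1501) (nat_lit 131072) .dd))) (.br (nat_lit 7) (.ch
 (nat_lit 6) (.ev (nat_lit 1488) (nat_lit 69632) (.ev (nat_lit 1540) (nat_lit 134217728) (.ev (nat_lit 1636)
 (nat_lit 128) (.ev (nat_lit 1645) (nat_lit 131072) .dd))))) (.ch (nat_lit 7) (.ev (nat_lit 1488) (nat_lit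
 134348928) (.ev (nat_lit 1636) (nat_lit 4096) (.ev (nat_lit 1645) (nat_lit 65536) .dd)))))) (.br (nat_lit 10)
 (.br (nat_lit 9) (.ch (nat_lit 8) (.ev (nat_lit 1488) (nat_lit 134287360) (.ev (nat_lit 1636) (nat_lit 128)
 (.ev (nat_lit 1645) (nat_lit 131072) .dd)))) (.ch (nat_lit 9) (.ev (nat_lit 1488) (nat_lit 196736) (.ev
 (nat_lit 1648) (nat_lit 134217728) (.ev (nat_lit 1661) (nat_lit 4096) .dd))))) (.br (nat_lit 11) (.ch (nat_lit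
 10) (.ev (nat_lit 1664) (nat_lit 134217728) (.ev (nat_lit 1872) (nat_lit 65536) (.ev (nat_lit 2052) (nat_lit
 4096) (.nd (nat_lit 3168) (.br (nat_lit 11) (.ch (nat_lit 8) (.ev (nat_lit 3184) (nat_lit 128) (.ev (nat_lit
 3197) (nat_lit 131072) .dd))) (.br (nat_lit 12) (.ch (nat_lit 11) (.fin (nat_lit 576483292265005634))) (.ch
 (nat_lit 12) (.ev (nat_lit 3184) (nat_lit 128) (.ev (nat_lit 3197) (nat_lit 131072) .dd)))))))))) (.ch
 (nat_lit 11) (.ev (nat_lit 1488) (nat_lit 134221952) (.ev (nat_lit 1636) (nat_lit 131072) (.ev (nat_lit 1645)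
 (nat_lit 65536) .dd)))))))))))))))))))) (.ch (nat_lit 48) (.ev (nat_lit 52) (nat_lit 69961154832) (.ev
 (nat_lit 180) (nat_lit 1024) (.ev (nat_lit 500) (nat_lit 128) (.ev (nat_lit 788) (nat_lit 536870912) (.ev
 (nat_lit 1044) (nat_lit 4096) (.nd (nat_lit 1168) (.br (nat_lit 7) (.br (nat_lit 3) (.ch (nat_lit 2) (.ev
 (nat_lit 1184) (nat_lit 18350082) (.nd (nat_lit 1472) (.br (nat_lit 5) (.br (nat_lit 1) (.ch (nat_lit 0) (.ev
 (nat_lit 1488) (nat_lit 67371008) (.ev (nat_lit 1636) (nat_lit 65536) (.ev (nat_lit 1645) (nat_lit 2048)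
 .dd)))) (.br (nat_lit 2) (.ch (nat_lit 1) (.ev (nat_lit 1488) (nat_lit 65536) (.ev (nat_lit 2688) (nat_lit
 2048) (.fin (nat_lit 576482192810000945))))) (.ch (nat_lit 2) (.ev (nat_lit 1860) (nat_lit 264192) (.ev
 (nat_lit 2052) (nat_lit 67108864) (.ev (nat_lit 2061) (nat_lit 65536) .dd)))))) (.br (nat_lit 7) (.ch (nat_lit
 5) (.ev (nat_lit 1488) (nat_lit 262144) (.ev (nat_lit 1540) (nat_lit 65536) (.ev (nat_lit 1716) (nat_lit 2048)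
 (.ev (nat_lit 1725) (nat_lit 67108864) .dd))))) (.br (nat_lit 11) (.ch (nat_lit 7) (.ev (nat_lit 1488)
 (nat_lit 67110912) (.ev (nat_lit 1760) (nat_lit 327680) .dd))) (.ch (nat_lit 11) (.ev (nat_lit 1488) (nat_lit
 262144) (.ev (nat_lit 2724) (nat_lit 67584) (.ev (nat_lit 2733) (nat_lit 67108864) .dd)))))))))) (.br (nat_lit
 6) (.ch (nat_lit 3) (.ev (nat_lit 1184) (nat_lit 68419584) (.nd (nat_lit 1472) (.br (nat_lit 8) (.br (nat_lit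
 3) (.ch (nat_lit 1) (.ev (nat_lit 1488) (nat_lit 591872) (.ev (nat_lit 1636) (nat_lit 2) (.ev (nat_lit 1645)
 (nat_lit 16777216) .dd)))) (.br (nat_lit 5) (.ch (nat_lit 3) (.ev (nat_lit 1488) (nat_lit 16779266) (.ev
 (nat_lit 1636) (nat_lit 524288) (.ev (nat_lit 1645) (nat_lit 65536) .dd)))) (.ch (nat_lit 5) (.ev (nat_lit
 1488) (nat_lit 589824) (.ev (nat_lit 1540) (nat_lit 2048) (.ev (nat_lit 1636) (nat_lit 2) (.ev (nat_lit 1645)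
 (nat_lit 16777216) .dd))))))) (.br (nat_lit 10) (.br (nat_lit 9) (.ch (nat_lit 8) (.ev (nat_lit 1488) (nat_lit
 526338) (.ev (nat_lit 1636) (nat_lit 16777216) (.ev (nat_lit 1645) (nat_lit 65536) .dd)))) (.ch (nat_lit 9)
 (.ev (nat_lit 1488) (nat_lit 591874) (.ev (nat_lit 1501) (nat_lit 16777216) .dd)))) (.br (nat_lit 12) (.ch
 (nat_lit 10) (.ev (nat_lit 1716) (nat_lit 2048) (.ev (nat_lit 1952) (nat_lit 65536) (.ev (nat_lit 2004)
 (nat_lit 524288) (.nd (nat_lit 3168) (.br (nat_lit 7) (.ch (nat_lit 2) (.ev (nat_lit 3184) (nat_lit 2) (.ev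
 (nat_lit 3197) (nat_lit 16777216) .dd))) (.br (nat_lit 9) (.ch (nat_lit 7) (.ev (nat_lit 3184) (nat_lit 2)
 (.ev (nat_lit 3197) (nat_lit 16777216) .dd))) (.ch (nat_lit 9) (.fin (nat_lit 576439311825060434))))))))))
 (.ch (nat_lit 12) (.ev (nat_lit 1488) (nat_lit 16842754) (.ev (nat_lit 1648) (nat_lit 2048) (.ev (nat_lit
 1661) (nat_lit 524288) .dd)))))))))) (.ch (nat_lit 6) (.ev (nat_lit 1184) (nat_lit 262144) (.nd (nat_lit 1472)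
 (.br (nat_lit 5) (.br (nat_lit 2) (.ch (nat_lit 0) (.ev (nat_lit 1488) (nat_lit 68225024) (.ev (nat_lit 1540)
 (nat_lit 2) (.ev (nat_lit 1888) (nat_lit 17301504) .dd)))) (.br (nat_lit 3) (.ch (nat_lit 2) (.ev (nat_lit
 1488) (nat_lit 84934658) (.ev (nat_lit 1540) (nat_lit 67584) (.ev (nat_lit 1549) (nat_lit 524288) .dd)))) (.ch
 (nat_lit 3) (.ev (nat_lit 1488) (nat_lit 1050626) (.ev (nat_lit 1540) (nat_lit 16777216) (.ev (nat_lit 1940)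
 (nat_lit 524288) (.ev (nat_lit 2500) (nat_lit 65536) (.ev (nat_lit 2509) (nat_lit 67108864) .dd)))))))) (.br
 (nat_lit 6) (.ch (nat_lit 5) (.ev (nat_lit 1488) (nat_lit 85458944) (.ev (nat_lit 1636) (nat_lit 2) (.ev
 (nat_lit 1780) (nat_lit 2048) (.ev (nat_lit 1789) (nat_lit 65536) .dd))))) (.br (nat_lit 9) (.ch (nat_lit 6)
 (.ev (nat_lit 1488) (nat_lit 68681728) (.ev (nat_lit 1540) (nat_lit 16842752) (.ev (nat_lit 1552) (nat_lit 2)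
 (.ev (nat_lit 1565) (nat_lit 2048) .dd))))) (.ch (nat_lit 9) (.ev (nat_lit 1488) (nat_lit 17301506) (.ev
 (nat_lit 1552) (nat_lit 67108864) (.ev (nat_lit 1636) (nat_lit 2048) (.ev (nat_lit 2324) (nat_lit 1048576)
 (.ev (nat_lit 2333) (nat_lit 65536) .dd)))))))))))))) (.br (nat_lit 8) (.ch (nat_lit 7) (.ev (nat_lit 1184)
 (nat_lit 788482) (.nd (nat_lit 1472) (.br (nat_lit 9) (.br (nat_lit 3) (.ch (nat_lit 1) (.ev (nat_lit 1488)
 (nat_lit 16842752) (.ev (nat_lit 2404) (nat_lit 1048576) (.ev (nat_lit 2413) (nat_lit 67108864) .dd)))) (.br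
 (nat_lit 8) (.ch (nat_lit 3) (.ev (nat_lit 1920) (nat_lit 1048576) (.ev (nat_lit 2288) (nat_lit 65536) (.ev
 (nat_lit 2884) (nat_lit 67108864) (.ev (nat_lit 2893) (nat_lit 16777216) .dd))))) (.ch (nat_lit 8) (.ev
 (nat_lit 1488) (nat_lit 83886080) (.ev (nat_lit 1636) (nat_lit 65536) (.ev (nat_lit 1645) (nat_lit 1048576)
 .dd)))))) (.br (nat_lit 10) (.ch (nat_lit 9) (.ev (nat_lit 1488) (nat_lit 83886080) (.fin (nat_lit
 576460202550182465)))) (.br (nat_lit 12) (.ch (nat_lit 10) (.ev (nat_lit 1488) (nat_lit 1114112) (.ev (nat_lit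
 1636) (nat_lit 67108864) (.ev (nat_lit 1645) (nat_lit 16777216) .dd)))) (.ch (nat_lit 12) (.ev (nat_lit 1488)
 (nat_lit 83951616) (.ev (nat_lit 1501) (nat_lit 1048576) .dd))))))))) (.br (nat_lit 9) (.ch (nat_lit 8) (.ev
 (nat_lit 1184) (nat_lit 68747266) (.nd (nat_lit 1472) (.br (nat_lit 7) (.br (nat_lit 6) (.ch (nat_lit 5) (.ev
 (nat_lit 1488) (nat_lit 17041408) .dd)) (.ch (nat_lit 6) (.ev (nat_lit 1488) (nat_lit 262144) (.nd (nat_lit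
 3168) (.br (nat_lit 12) (.ch (nat_lit 5) (.fin (nat_lit 576443709854794287))) (.ch (nat_lit 12) (.ev (nat_lit
 3184) (nat_lit 2048) (.ev (nat_lit 3197) (nat_lit 16777216) .dd)))))))) (.br (nat_lit 10) (.ch (nat_lit 7)
 (.ev (nat_lit 1488) (nat_lit 2048) (.ev (nat_lit 1504) (nat_lit 16777216) (.ev (nat_lit 1517) (nat_lit 262144)
 .dd)))) (.br (nat_lit 12) (.ch (nat_lit 10) (.ev (nat_lit 1488) (nat_lit 17041408) .dd)) (.ch (nat_lit 12)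
 (.ev (nat_lit 1488) (nat_lit 262144) (.ev (nat_lit 1540) (nat_lit 16777216) (.ev (nat_lit 1549) (nat_lit 2048)
 .dd)))))))))) (.ch (nat_lit 9) (.ev (nat_lit 1184) (nat_lit 17039360) (.nd (nat_lit 1472) (.br (nat_lit 7)
 (.br (nat_lit 4) (.ch (nat_lit 0) (.ev (nat_lit 1488) (nat_lit 68159488) (.ev (nat_lit 1552) (nat_lit 2) (.ev
 (nat_lit 1664) (nat_lit 524288) (.ev (nat_lit 1677) (nat_lit 65536) .dd))))) (.br (nat_lit 5) (.ch (nat_lit 4)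
 (.ev (nat_lit 1488) (nat_lit 1114112) (.ev (nat_lit 1860) (nat_lit 2048) (.ev (nat_lit 3124) (nat_lit
 67108864) (.nd (nat_lit 3168) (.br (nat_lit 7) (.ch (nat_lit 2) (.nd (nat_lit 3201) (.ch (nat_lit 33) (.nd
 (nat_lit 3232) (.br (nat_lit 9) (.ch (nat_lit 3) (.ev (nat_lit 3248) (nat_lit 524290) .dd)) (.ch (nat_lit 9)
 (.fin (nat_lit 576472297155019347)))))))) (.ch (nat_lit 7) (.ev (nat_lit 3184) (nat_lit 524290) .dd))))))))
 (.ch (nat_lit 5) (.ev (nat_lit 1488) (nat_lit 68225026) (.ev (nat_lit 1501) (nat_lit 524288) .dd))))) (.br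
 (nat_lit 9) (.ch (nat_lit 7) (.ev (nat_lit 1488) (nat_lit 67176450) (.ev (nat_lit 2724) (nat_lit 1048576) (.ev
 (nat_lit 2733) (nat_lit 524288) .dd)))) (.br (nat_lit 10) (.ch (nat_lit 9) (.ev (nat_lit 1488) (nat_lit
 1572866) (.ev (nat_lit 1716) (nat_lit 65536) (.ev (nat_lit 1760) (nat_lit 67108864) (.ev (nat_lit 1773)
 (nat_lit 2048) .dd))))) (.ch (nat_lit 10) (.ev (nat_lit 1488) (nat_lit 1048578) (.ev (nat_lit 1824) (nat_lit
 65536) (.ev (nat_lit 2788) (nat_lit 67108864) (.nd (nat_lit 3168) (.br (nat_lit 12) (.ch (nat_lit 0) (.ev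
 (nat_lit 3184) (nat_lit 524288) (.ev (nat_lit 3197) (nat_lit 2048) .dd))) (.ch (nat_lit 12) (.nd (nat_lit
 3201) (.ch (nat_lit 37) (.nd (nat_lit 3232) (.br (nat_lit 7) (.ch (nat_lit 2) (.ev (nat_lit 3248) (nat_lit
 526336) .dd)) (.ch (nat_lit 7) (.fin (nat_lit 576474496211829302))))))))))))))))))))))))))))))) (.br (nat_lit
 50) (.ch (nat_lit 49) (.ev (nat_lit 52) (nat_lit 68259072) (.ev (nat_lit 84) (nat_lit 536870912) (.ev (nat_lit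
 212) (nat_lit 2) (.ev (nat_lit 692) (nat_lit 1073741824) (.ev (nat_lit 820) (nat_lit 33554432) (.nd (nat_lit
 1168) (.br (nat_lit 7) (.br (nat_lit 2) (.ch (nat_lit 0) (.ev (nat_lit 1184) (nat_lit 68737044624) (.ev
 (nat_lit 1204) (nat_lit 134217728) (.ev (nat_lit 1213) (nat_lit 131072) .dd)))) (.br (nat_lit 6) (.ch (nat_lit
 2) (.ev (nat_lit 1184) (nat_lit 151388288) (.nd (nat_lit 1472) (.br (nat_lit 6) (.br (nat_lit 1) (.ch (nat_lit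
 0) (.ev (nat_lit 1636) (nat_lit 4096) (.ev (nat_lit 1728) (nat_lit 68719476736) (.fin (nat_lit
 576474496182469210))))) (.br (nat_lit 5) (.ch (nat_lit 1) (.ev (nat_lit 1488) (nat_lit 528400) (.ev (nat_lit
 1501) (nat_lit 68719476736) .dd))) (.ch (nat_lit 5) (.ev (nat_lit 1488) (nat_lit 68719480848) (.ev (nat_lit
 1501) (nat_lit 524288) .dd))))) (.br (nat_lit 11) (.ch (nat_lit 6) (.ev (nat_lit 1488) (nat_lit 524304) (.ev
 (nat_lit 1540) (nat_lit 4096) (.ev (nat_lit 1549) (nat_lit 68719476736) .dd)))) (.br (nat_lit 12) (.ch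
 (nat_lit 11) (.ev (nat_lit 1488) (nat_lit 68720005136) .dd)) (.ch (nat_lit 12) (.ev (nat_lit 1488) (nat_lit
 524288) (.ev (nat_lit 1540) (nat_lit 4096) (.ev (nat_lit 1860) (nat_lit 16) (.ev (nat_lit 1869) (nat_lit
 68719476736) .dd))))))))))) (.ch (nat_lit 6) (.ev (nat_lit 1184) (nat_lit 68720394256) (.nd (nat_lit 1472)
 (.br (nat_lit 6) (.br (nat_lit 1) (.ch (nat_lit 0) (.ev (nat_lit 1488) (nat_lit 150999040) (.ev (nat_lit 1501)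
 (nat_lit 128) .dd))) (.br (nat_lit 3) (.ch (nat_lit 1) (.ev (nat_lit 1488) (nat_lit 150995072) (.ev (nat_lit
 1501) (nat_lit 4096) .dd))) (.ch (nat_lit 3) (.ev (nat_lit 1488) (nat_lit 16781440) (.ev (nat_lit 1501)
 (nat_lit 134217728) .dd))))) (.br (nat_lit 9) (.ch (nat_lit 6) (.ev (nat_lit 1540) (nat_lit 134217728) (.ev
 (nat_lit 2052) (nat_lit 4224) (.ev (nat_lit 2061) (nat_lit 16777216) .dd)))) (.br (nat_lit 11) (.ch (nat_lit
 9) (.ev (nat_lit 1488) (nat_lit 150994944) (.fin (nat_lit 576443709873668643)))) (.ch (nat_lit 11) (.ev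
 (nat_lit 1488) (nat_lit 150999040) (.ev (nat_lit 1501) (nat_lit 128) .dd))))))))))) (.br (nat_lit 8) (.ch
 (nat_lit 7) (.ev (nat_lit 1184) (nat_lit 135004176) (.ev (nat_lit 1382) (nat_lit 131072) (.nd (nat_lit 1472)
 (.br (nat_lit 3) (.br (nat_lit 1) (.ch (nat_lit 0) (.ev (nat_lit 1488) (nat_lit 68719476736) (.ev (nat_lit
 1552) (nat_lit 16777216) (.ev (nat_lit 1568) (nat_lit 4096) (.ev (nat_lit 1581) (nat_lit 128) .dd))))) (.br
 (nat_lit 2) (.ch (nat_lit 1) (.ev (nat_lit 1488) (nat_lit 16781440) (.ev (nat_lit 1501) (nat_lit 68719476736)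
 .dd))) (.ch (nat_lit 2) (.ev (nat_lit 1488) (nat_lit 68736254080) (.ev (nat_lit 1501) (nat_lit 4096) .dd)))))
 (.br (nat_lit 9) (.br (nat_lit 8) (.ch (nat_lit 3) (.ev (nat_lit 1488) (nat_lit 16777216) (.ev (nat_lit 1540)
 (nat_lit 68719476736) (.ev (nat_lit 1716) (nat_lit 4096) (.ev (nat_lit 1725) (nat_lit 128) .dd))))) (.ch
 (nat_lit 8) (.ev (nat_lit 1488) (nat_lit 68736253952) (.ev (nat_lit 1648) (nat_lit 4096) (.ev (nat_lit 1661)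
 (nat_lit 128) .dd))))) (.br (nat_lit 10) (.ch (nat_lit 9) (.ev (nat_lit 1488) (nat_lit 68719476864) (.ev
 (nat_lit 1952) (nat_lit 4096) (.ev (nat_lit 1965) (nat_lit 16777216) .dd)))) (.ch (nat_lit 10) (.ev (nat_lit
 1488) (nat_lit 4224) (.ev (nat_lit 1860) (nat_lit 68719476736) (.ev (nat_lit 1869) (nat_lit 16777216)
 .dd))))))))))) (.br (nat_lit 11) (.ch (nat_lit 8) (.ev (nat_lit 1184) (nat_lit 68720136192) (.nd (nat_lit
 1472) (.br (nat_lit 6) (.br (nat_lit 2) (.ch (nat_lit 0) (.ev (nat_lit 1488) (nat_lit 134217856) (.ev (nat_lit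
 1540) (nat_lit 16) (.ev (nat_lit 1636) (nat_lit 16777216) (.ev (nat_lit 1645) (nat_lit 262144) .dd))))) (.br
 (nat_lit 5) (.ch (nat_lit 2) (.ev (nat_lit 1488) (nat_lit 16777360) (.ev (nat_lit 1716) (nat_lit 134217728)
 (.ev (nat_lit 1725) (nat_lit 262144) .dd)))) (.ch (nat_lit 5) (.ev (nat_lit 1488) (nat_lit 17039360) (.ev
 (nat_lit 1540) (nat_lit 134217744) (.ev (nat_lit 1549) (nat_lit 128) .dd)))))) (.br (nat_lit 9) (.ch (nat_lit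
 6) (.ev (nat_lit 1488) (nat_lit 151257104) (.ev (nat_lit 1501) (nat_lit 128) .dd))) (.br (nat_lit 10) (.ch
 (nat_lit 9) (.ev (nat_lit 1488) (nat_lit 134480016) (.ev (nat_lit 1501) (nat_lit 16777216) .dd))) (.ch
 (nat_lit 10) (.ev (nat_lit 1552) (nat_lit 16777344) (.ev (nat_lit 1780) (nat_lit 262160) (.ev (nat_lit 1789)
 (nat_lit 134217728) .dd)))))))))) (.ch (nat_lit 11) (.ev (nat_lit 1184) (nat_lit 151257232) (.nd (nat_lit
 1472) (.br (nat_lit 8) (.br (nat_lit 4) (.ch (nat_lit 2) (.ev (nat_lit 1488) (nat_lit 659456) (.ev (nat_lit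
 1501) (nat_lit 68719476736) .dd))) (.br (nat_lit 6) (.ch (nat_lit 4) (.ev (nat_lit 1488) (nat_lit 135168) (.ev
 (nat_lit 1716) (nat_lit 524288) (.ev (nat_lit 1725) (nat_lit 68719476736) .dd)))) (.ch (nat_lit 6) (.ev
 (nat_lit 1488) (nat_lit 524288) (.ev (nat_lit 1636) (nat_lit 68719476736) (.fin (nat_lit
 576443709887300157))))))) (.br (nat_lit 11) (.br (nat_lit 10) (.ch (nat_lit 8) (.ev (nat_lit 1488) (nat_lit
 659456) (.ev (nat_lit 1501) (nat_lit 68719476736) .dd))) (.ch (nat_lit 10) (.ev (nat_lit 1488) (nat_lit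
 68719607808) (.ev (nat_lit 1540) (nat_lit 524288) (.ev (nat_lit 1549) (nat_lit 4096) .dd))))) (.br (nat_lit
 12) (.ch (nat_lit 11) (.ev (nat_lit 1488) (nat_lit 68720005120) (.ev (nat_lit 1501) (nat_lit 131072) .dd)))
 (.ch (nat_lit 12) (.ev (nat_lit 1488) (nat_lit 4096) (.ev (nat_lit 1636) (nat_lit 131072) (.ev (nat_lit 1648)
 (nat_lit 524288) (.ev (nat_lit 1661) (nat_lit 68719476736) .dd))))))))))))))))))))) (.br (nat_lit 52) (.ch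
 (nat_lit 50) (.ev (nat_lit 52) (nat_lit 721588226) (.ev (nat_lit 212) (nat_lit 128) (.ev (nat_lit 468)
 (nat_lit 68719476736) (.ev (nat_lit 532) (nat_lit 262144) (.ev (nat_lit 724) (nat_lit 1048576) (.ev (nat_lit
 832) (nat_lit 1141443856) .dd))))))) (.ch (nat_lit 52) (.ev (nat_lit 52) (nat_lit 69256646912) (.ev (nat_lit
 128) (nat_lit 1327172754) .dd)))))))))))

/-- Subtrie. -/
noncomputable def T5 : Tr := (.ev (nat_lit 20) (nat_lit 34362556546) (.nd (nat_lit 33) (.br (nat_lit 31) (.br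
 (nat_lit 16) (.br (nat_lit 10) (.br (nat_lit 6) (.br (nat_lit 5) (.ch (nat_lit 4) (.ev (nat_lit 52) (nat_lit
 10357080064) (.ev (nat_lit 500) (nat_lit 4096) (.ev (nat_lit 596) (nat_lit 2048) (.ev (nat_lit 628) (nat_lit
 33554432) (.ev (nat_lit 960) (nat_lit 68786595120) .dd)))))) (.ch (nat_lit 5) (.ev (nat_lit 52) (nat_lit
 9731870976) (.ev (nat_lit 276) (nat_lit 8192) (.ev (nat_lit 372) (nat_lit 16777216) (.ev (nat_lit 756)
 (nat_lit 536870912) (.ev (nat_lit 1012) (nat_lit 16) (.nd (nat_lit 1168) (.br (nat_lit 8) (.br (nat_lit 1)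
 (.ch (nat_lit 0) (.ev (nat_lit 1184) (nat_lit 168035360) (.nd (nat_lit 1472) (.br (nat_lit 8) (.br (nat_lit 4)
 (.ch (nat_lit 2) (.ev (nat_lit 1488) (nat_lit 4196352) (.ev (nat_lit 1501) (nat_lit 68719476736) .dd))) (.br
 (nat_lit 5) (.ch (nat_lit 4) (.ev (nat_lit 1488) (nat_lit 4196352) (.ev (nat_lit 1501) (nat_lit 68719476736)
 .dd))) (.ch (nat_lit 5) (.ev (nat_lit 1488) (nat_lit 2048) (.ev (nat_lit 1716) (nat_lit 4194304) (.ev (nat_lit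
 1725) (nat_lit 68719476736) .dd)))))) (.br (nat_lit 11) (.br (nat_lit 9) (.ch (nat_lit 8) (.ev (nat_lit 1488)
 (nat_lit 4196352) (.ev (nat_lit 1501) (nat_lit 68719476736) .dd))) (.ch (nat_lit 9) (.ev (nat_lit 1488)
 (nat_lit 68723671040) (.ev (nat_lit 1501) (nat_lit 2048) .dd)))) (.br (nat_lit 12) (.ch (nat_lit 11) (.ev
 (nat_lit 1488) (nat_lit 68723671040) (.ev (nat_lit 1501) (nat_lit 2048) .dd))) (.ch (nat_lit 12) (.ev (nat_lit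
 2884) (nat_lit 4194304) (.nd (nat_lit 3168) (.br (nat_lit 8) (.ch (nat_lit 2) (.ev (nat_lit 3184) (nat_lit
 2048) (.ev (nat_lit 3197) (nat_lit 68719476736) .dd))) (.br (nat_lit 10) (.ch (nat_lit 8) (.fin (nat_lit
 576432714768925229))) (.ch (nat_lit 10) (.ev (nat_lit 3184) (nat_lit 2048) (.ev (nat_lit 3197) (nat_lit
 68719476736) .dd)))))))))))))) (.br (nat_lit 4) (.ch (nat_lit 1) (.ev (nat_lit 1184) (nat_lit 168037408) (.nd
 (nat_lit 1472) (.br (nat_lit 6) (.br (nat_lit 1) (.ch (nat_lit 0) (.ev (nat_lit 1860) (nat_lit 4194304) (.ev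
 (nat_lit 1869) (nat_lit 68719476736) .dd))) (.br (nat_lit 3) (.ch (nat_lit 1) (.ev (nat_lit 1488) (nat_lit
 68723671040) .dd)) (.ch (nat_lit 3) (.ev (nat_lit 1488) (nat_lit 4194304) (.ev (nat_lit 1501) (nat_lit
 68719476736) .dd))))) (.br (nat_lit 7) (.ch (nat_lit 6) (.ev (nat_lit 1488) (nat_lit 4194304) (.ev (nat_lit
 1501) (nat_lit 68719476736) .dd))) (.br (nat_lit 10) (.ch (nat_lit 7) (.ev (nat_lit 1488) (nat_lit
 68719476736) (.ev (nat_lit 1501) (nat_lit 4194304) .dd))) (.ch (nat_lit 10) (.ev (nat_lit 1488) (nat_lit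
 68719476736) (.ev (nat_lit 1501) (nat_lit 4194304) .dd))))))))) (.ch (nat_lit 4) (.ev (nat_lit 1184) (nat_lit
 134217728) (.nd (nat_lit 1472) (.br (nat_lit 4) (.br (nat_lit 1) (.ch (nat_lit 0) (.ev (nat_lit 1488) (nat_lit
 68753031200) (.ev (nat_lit 1540) (nat_lit 4458496) (.ev (nat_lit 1549) (nat_lit 1024) .dd)))) (.br (nat_lit 3)
 (.ch (nat_lit 1) (.ev (nat_lit 1488) (nat_lit 68719740960) (.ev (nat_lit 1540) (nat_lit 33554432) (.ev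
 (nat_lit 1568) (nat_lit 4194304) (.ev (nat_lit 1581) (nat_lit 1024) .dd))))) (.ch (nat_lit 3) (.ev (nat_lit
 1488) (nat_lit 68723672096) (.ev (nat_lit 1540) (nat_lit 262144) (.ev (nat_lit 1636) (nat_lit 2048) (.ev
 (nat_lit 1645) (nat_lit 33554432) .dd))))))) (.br (nat_lit 9) (.br (nat_lit 8) (.ch (nat_lit 4) (.ev (nat_lit
 1488) (nat_lit 33817632) (.ev (nat_lit 1540) (nat_lit 2048) (.ev (nat_lit 1716) (nat_lit 4194304) (.ev
 (nat_lit 1725) (nat_lit 68719476736) .dd))))) (.ch (nat_lit 8) (.ev (nat_lit 1488) (nat_lit 68719739904) (.ev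
 (nat_lit 1716) (nat_lit 4194304) (.ev (nat_lit 1860) (nat_lit 2048) (.fin (nat_lit 576474496157303382)))))))
 (.br (nat_lit 12) (.ch (nat_lit 9) (.ev (nat_lit 1488) (nat_lit 68757488640) (.ev (nat_lit 1540) (nat_lit 32)
 (.ev (nat_lit 1549) (nat_lit 2048) .dd)))) (.ch (nat_lit 12) (.ev (nat_lit 1488) (nat_lit 33556480) (.ev
 (nat_lit 1940) (nat_lit 262144) (.ev (nat_lit 2656) (nat_lit 32) (.ev (nat_lit 3156) (nat_lit 68719476736)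
 (.nd (nat_lit 3168) (.br (nat_lit 8) (.ch (nat_lit 2) (.ev (nat_lit 3184) (nat_lit 1024) (.ev (nat_lit 3197)
 (nat_lit 4194304) .dd))) (.br (nat_lit 10) (.ch (nat_lit 8) (.fin (nat_lit 576439311799894590))) (.ch (nat_lit
 10) (.ev (nat_lit 3184) (nat_lit 1024) (.ev (nat_lit 3197) (nat_lit 4194304) .dd))))))))))))))))))) (.br
 (nat_lit 9) (.ch (nat_lit 8) (.ev (nat_lit 1184) (nat_lit 68723935264) (.nd (nat_lit 1472) (.br (nat_lit 6)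
 (.br (nat_lit 1) (.ch (nat_lit 0) (.ev (nat_lit 1488) (nat_lit 167772160) (.ev (nat_lit 1501) (nat_lit 1024)
 .dd))) (.br (nat_lit 5) (.ch (nat_lit 1) (.ev (nat_lit 1488) (nat_lit 134218752) (.ev (nat_lit 1501) (nat_lit
 33554432) .dd))) (.ch (nat_lit 5) (.ev (nat_lit 1488) (nat_lit 33555456) (.ev (nat_lit 1501) (nat_lit
 134217728) .dd))))) (.br (nat_lit 8) (.ch (nat_lit 6) (.ev (nat_lit 1488) (nat_lit 134218752) (.ev (nat_lit
 1501) (nat_lit 33554432) .dd))) (.br (nat_lit 11) (.ch (nat_lit 8) (.ev (nat_lit 1540) (nat_lit 33554432) (.ev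
 (nat_lit 1552) (nat_lit 1024) (.ev (nat_lit 1565) (nat_lit 134217728) .dd)))) (.ch (nat_lit 11) (.ev (nat_lit
 1488) (nat_lit 33554432) (.ev (nat_lit 1584) (nat_lit 1024) (.ev (nat_lit 1597) (nat_lit 134217728)
 .dd)))))))))) (.br (nat_lit 12) (.ch (nat_lit 9) (.ev (nat_lit 1184) (nat_lit 37749792) (.nd (nat_lit 1472)
 (.br (nat_lit 8) (.br (nat_lit 3) (.ch (nat_lit 1) (.ev (nat_lit 1488) (nat_lit 2048) (.ev (nat_lit 1552)
 (nat_lit 134217728) (.ev (nat_lit 1716) (nat_lit 262144) (.ev (nat_lit 1725) (nat_lit 68719476736) .dd)))))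
 (.ch (nat_lit 3) (.ev (nat_lit 1488) (nat_lit 134479872) (.ev (nat_lit 1636) (nat_lit 2048) (.ev (nat_lit
 1645) (nat_lit 68719476736) .dd))))) (.br (nat_lit 10) (.ch (nat_lit 8) (.ev (nat_lit 1488) (nat_lit
 68719478784) (.ev (nat_lit 1636) (nat_lit 262144) (.ev (nat_lit 1645) (nat_lit 134217728) .dd)))) (.br
 (nat_lit 12) (.ch (nat_lit 10) (.ev (nat_lit 1488) (nat_lit 134481920) (.ev (nat_lit 1501) (nat_lit
 68719476736) .dd))) (.ch (nat_lit 12) (.ev (nat_lit 1488) (nat_lit 68719478784) (.fin (nat_lit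
 576448107895013954)))))))))) (.ch (nat_lit 12) (.ev (nat_lit 1184) (nat_lit 68853958688) (.nd (nat_lit 1472)
 (.br (nat_lit 6) (.br (nat_lit 5) (.ch (nat_lit 0) (.ev (nat_lit 1488) (nat_lit 1024) (.ev (nat_lit 1504)
 (nat_lit 33554432) (.ev (nat_lit 1517) (nat_lit 4194304) .dd)))) (.ch (nat_lit 5) (.ev (nat_lit 1488) (nat_lit
 33554432) (.ev (nat_lit 1540) (nat_lit 4194304) (.ev (nat_lit 1549) (nat_lit 1024) .dd))))) (.br (nat_lit 11)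
 (.ch (nat_lit 6) (.ev (nat_lit 1540) (nat_lit 33554432) (.nd (nat_lit 3168) (.br (nat_lit 8) (.ch (nat_lit 2)
 (.fin (nat_lit 576437112816484911))) (.ch (nat_lit 8) (.ev (nat_lit 3184) (nat_lit 1024) (.ev (nat_lit 3197)
 (nat_lit 4194304) .dd))))))) (.br (nat_lit 12) (.ch (nat_lit 11) (.ev (nat_lit 1488) (nat_lit 37749760) .dd))
 (.ch (nat_lit 12) (.ev (nat_lit 1488) (nat_lit 37749760) .dd))))))))))))))))))) (.br (nat_lit 9) (.ch (nat_lit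
 6) (.ev (nat_lit 52) (nat_lit 235148544) (.ev (nat_lit 84) (nat_lit 8589934592) (.ev (nat_lit 340) (nat_lit
 1048576) (.ev (nat_lit 608) (nat_lit 70351104048) .dd))))) (.ch (nat_lit 9) (.ev (nat_lit 52) (nat_lit
 135277584) (.ev (nat_lit 212) (nat_lit 1073741824) (.ev (nat_lit 628) (nat_lit 536870912) (.ev (nat_lit 724)
 (nat_lit 4096) (.ev (nat_lit 1044) (nat_lit 256) (.nd (nat_lit 1168) (.br (nat_lit 8) (.br (nat_lit 4) (.ch
 (nat_lit 0) (.ev (nat_lit 1184) (nat_lit 50593824) (.ev (nat_lit 1398) (nat_lit 4194304) (.nd (nat_lit 1472)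
 (.br (nat_lit 5) (.br (nat_lit 2) (.ch (nat_lit 1) (.ev (nat_lit 1488) (nat_lit 77376552960) .dd)) (.ch
 (nat_lit 2) (.ev (nat_lit 1488) (nat_lit 67108864) (.ev (nat_lit 1504) (nat_lit 68719476736) (.ev (nat_lit
 1540) (nat_lit 8589934592) (.ev (nat_lit 1549) (nat_lit 32768) .dd)))))) (.br (nat_lit 8) (.ch (nat_lit 5)
 (.ev (nat_lit 1488) (nat_lit 8589934592) (.ev (nat_lit 1664) (nat_lit 68719476736) (.ev (nat_lit 2918)
 (nat_lit 67141632) .dd)))) (.br (nat_lit 11) (.ch (nat_lit 8) (.ev (nat_lit 1488) (nat_lit 77376552960) .dd))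
 (.ch (nat_lit 11) (.ev (nat_lit 1488) (nat_lit 77309411328) (.ev (nat_lit 1540) (nat_lit 32768) (.ev (nat_lit
 1549) (nat_lit 67108864) .dd))))))))))) (.br (nat_lit 6) (.ch (nat_lit 4) (.ev (nat_lit 1184) (nat_lit
 8594128896) (.nd (nat_lit 1472) (.br (nat_lit 7) (.br (nat_lit 1) (.ch (nat_lit 0) (.ev (nat_lit 1488)
 (nat_lit 68836917248) (.ev (nat_lit 1600) (nat_lit 32768) (.ev (nat_lit 1780) (nat_lit 32) (.ev (nat_lit 1789)
 (nat_lit 262144) .dd))))) (.br (nat_lit 6) (.ch (nat_lit 1) (.ev (nat_lit 1488) (nat_lit 68719771680) (.ev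
 (nat_lit 2052) (nat_lit 83886080) (.ev (nat_lit 2061) (nat_lit 33554432) .dd)))) (.ch (nat_lit 6) (.ev
 (nat_lit 1488) (nat_lit 68769808416) (.ev (nat_lit 1792) (nat_lit 262144) (.ev (nat_lit 2820) (nat_lit 32768)
 (.ev (nat_lit 2829) (nat_lit 67108864) .dd))))))) (.br (nat_lit 8) (.ch (nat_lit 7) (.ev (nat_lit 1488)
 (nat_lit 32) (.ev (nat_lit 1540) (nat_lit 50331648) (.nd (nat_lit 3168) (.br (nat_lit 11) (.ch (nat_lit 5)
 (.ev (nat_lit 3184) (nat_lit 67141632) (.fin (nat_lit 576474496199246450)))) (.ch (nat_lit 11) (.ev (nat_lit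
 3184) (nat_lit 68719738880) (.fin (nat_lit 576430515721552422))))))))) (.br (nat_lit 9) (.ch (nat_lit 8) (.ev
 (nat_lit 1488) (nat_lit 68786880512) (.ev (nat_lit 1540) (nat_lit 16777216) (.ev (nat_lit 1636) (nat_lit
 33554432) (.ev (nat_lit 1645) (nat_lit 32) .dd))))) (.ch (nat_lit 9) (.ev (nat_lit 1488) (nat_lit 68753326112)
 (.ev (nat_lit 1952) (nat_lit 83886080) .dd))))))))) (.ch (nat_lit 6) (.ev (nat_lit 1184) (nat_lit 68807819296)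
 (.nd (nat_lit 1472) (.br (nat_lit 7) (.br (nat_lit 3) (.ch (nat_lit 1) (.ev (nat_lit 1488) (nat_lit 33554432)
 (.fin (nat_lit 576492088386339405)))) (.br (nat_lit 5) (.ch (nat_lit 3) (.ev (nat_lit 1860) (nat_lit 32768)
 (.ev (nat_lit 1940) (nat_lit 33554432) (.ev (nat_lit 1949) (nat_lit 8589934592) .dd)))) (.ch (nat_lit 5) (.ev
 (nat_lit 1488) (nat_lit 8589967360) (.ev (nat_lit 1501) (nat_lit 33554432) .dd))))) (.br (nat_lit 8) (.ch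
 (nat_lit 7) (.ev (nat_lit 1488) (nat_lit 8589967360) (.ev (nat_lit 1501) (nat_lit 33554432) .dd))) (.br
 (nat_lit 12) (.ch (nat_lit 8) (.ev (nat_lit 1488) (nat_lit 33587200) (.ev (nat_lit 1501) (nat_lit 8589934592)
 .dd))) (.ch (nat_lit 12) (.ev (nat_lit 1488) (nat_lit 33554432) (.ev (nat_lit 1540) (nat_lit 8589934592) (.ev
 (nat_lit 1549) (nat_lit 32768) .dd)))))))))))) (.br (nat_lit 9) (.ch (nat_lit 8) (.ev (nat_lit 1184) (nat_lit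
 77376815104) (.nd (nat_lit 1472) (.br (nat_lit 2) (.br (nat_lit 1) (.ch (nat_lit 0) (.ev (nat_lit 1488)
 (nat_lit 50331648) (.ev (nat_lit 1540) (nat_lit 32) (.ev (nat_lit 1549) (nat_lit 4194304) .dd)))) (.ch
 (nat_lit 1) (.ev (nat_lit 1488) (nat_lit 16777216) (.ev (nat_lit 1744) (nat_lit 32) (.nd (nat_lit 3168) (.br
 (nat_lit 12) (.ch (nat_lit 0) (.ev (nat_lit 3184) (nat_lit 4194304) (.ev (nat_lit 3197) (nat_lit 33554432)
 .dd))) (.ch (nat_lit 12) (.fin (nat_lit 576470098174755393))))))))) (.br (nat_lit 11) (.ch (nat_lit 2) (.ev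
 (nat_lit 1488) (nat_lit 4194336) (.ev (nat_lit 1540) (nat_lit 33554432) (.ev (nat_lit 1549) (nat_lit 16777216)
 .dd)))) (.br (nat_lit 12) (.ch (nat_lit 11) (.ev (nat_lit 1488) (nat_lit 50331648) (.ev (nat_lit 1540)
 (nat_lit 4194304) (.ev (nat_lit 1549) (nat_lit 32) .dd)))) (.ch (nat_lit 12) (.ev (nat_lit 1488) (nat_lit
 20971552) (.ev (nat_lit 1501) (nat_lit 33554432) .dd))))))))) (.br (nat_lit 12) (.ch (nat_lit 9) (.ev (nat_lit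
 1184) (nat_lit 8644755488) (.nd (nat_lit 1472) (.br (nat_lit 9) (.br (nat_lit 2) (.ch (nat_lit 1) (.ev
 (nat_lit 1488) (nat_lit 67108864) (.ev (nat_lit 1501) (nat_lit 68719476736) .dd))) (.br (nat_lit 8) (.ch
 (nat_lit 2) (.ev (nat_lit 1540) (nat_lit 68719476736) (.ev (nat_lit 1549) (nat_lit 67108864) .dd))) (.ch
 (nat_lit 8) (.ev (nat_lit 1488) (nat_lit 68719476736) (.ev (nat_lit 1501) (nat_lit 67108864) .dd))))) (.br
 (nat_lit 11) (.ch (nat_lit 9) (.ev (nat_lit 1488) (nat_lit 68786585600) .dd)) (.br (nat_lit 12) (.ch (nat_lit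
 11) (.ev (nat_lit 1488) (nat_lit 67108864) (.ev (nat_lit 1501) (nat_lit 68719476736) .dd))) (.ch (nat_lit 12)
 (.ev (nat_lit 1488) (nat_lit 68719476736) (.ev (nat_lit 1501) (nat_lit 67108864) .dd))))))))) (.ch (nat_lit
 12) (.ev (nat_lit 1184) (nat_lit 68786847776) (.ev (nat_lit 1220) (nat_lit 4194304) (.nd (nat_lit 1472) (.br
 (nat_lit 5) (.br (nat_lit 1) (.ch (nat_lit 0) (.ev (nat_lit 1488) (nat_lit 16809984) (.ev (nat_lit 1940)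
 (nat_lit 8589934592) (.ev (nat_lit 1949) (nat_lit 33554432) .dd)))) (.br (nat_lit 4) (.ch (nat_lit 1) (.ev
 (nat_lit 1488) (nat_lit 33587200) (.ev (nat_lit 1636) (nat_lit 8589934592) (.ev (nat_lit 1645) (nat_lit
 16777216) .dd)))) (.ch (nat_lit 4) (.ev (nat_lit 1488) (nat_lit 8606744576) (.ev (nat_lit 1501) (nat_lit
 33554432) .dd))))) (.br (nat_lit 7) (.br (nat_lit 6) (.ch (nat_lit 5) (.ev (nat_lit 1488) (nat_lit 33587200)
 (.fin (nat_lit 576439311795700278)))) (.ch (nat_lit 6) (.ev (nat_lit 1488) (nat_lit 16777216) (.ev (nat_lit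
 1540) (nat_lit 32768) (.ev (nat_lit 1636) (nat_lit 33554432) (.ev (nat_lit 1645) (nat_lit 8589934592)
 .dd)))))) (.br (nat_lit 12) (.ch (nat_lit 7) (.ev (nat_lit 1488) (nat_lit 8589934592) (.ev (nat_lit 3028)
 (nat_lit 16777216) (.nd (nat_lit 3168) (.br (nat_lit 3) (.ch (nat_lit 0) (.fin (nat_lit 576430515776078426)))
 (.br (nat_lit 12) (.ch (nat_lit 3) (.ev (nat_lit 3184) (nat_lit 32768) (.ev (nat_lit 3197) (nat_lit 33554432)
 .dd))) (.ch (nat_lit 12) (.ev (nat_lit 3184) (nat_lit 32768) (.ev (nat_lit 3197) (nat_lit 33554432)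
 .dd))))))))) (.ch (nat_lit 12) (.ev (nat_lit 1488) (nat_lit 16809984) (.ev (nat_lit 1716) (nat_lit 33554432)
 (.ev (nat_lit 1725) (nat_lit 8589934592) .dd))))))))))))))))))))))) (.br (nat_lit 12) (.br (nat_lit 11) (.ch
 (nat_lit 10) (.ev (nat_lit 52) (nat_lit 78518421776) (.ev (nat_lit 116) (nat_lit 4194304) (.ev (nat_lit 1012)
 (nat_lit 262144) (.nd (nat_lit 1168) (.br (nat_lit 6) (.br (nat_lit 4) (.ch (nat_lit 1) (.ev (nat_lit 1184)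
 (nat_lit 117481504) (.nd (nat_lit 1472) (.br (nat_lit 7) (.br (nat_lit 3) (.ch (nat_lit 0) (.ev (nat_lit 1488)
 (nat_lit 536870912) (.ev (nat_lit 1636) (nat_lit 4096) (.ev (nat_lit 1645) (nat_lit 1024) .dd)))) (.br
 (nat_lit 6) (.ch (nat_lit 3) (.ev (nat_lit 1488) (nat_lit 536875008) (.ev (nat_lit 1501) (nat_lit 1024) .dd)))
 (.ch (nat_lit 6) (.ev (nat_lit 1488) (nat_lit 4096) (.nd (nat_lit 3168) (.br (nat_lit 10) (.ch (nat_lit 2)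
 (.fin (nat_lit 576492088376902242))) (.ch (nat_lit 10) (.ev (nat_lit 3184) (nat_lit 536871936) .dd))))))))
 (.br (nat_lit 8) (.ch (nat_lit 7) (.ev (nat_lit 1488) (nat_lit 536876032) .dd)) (.br (nat_lit 10) (.ch
 (nat_lit 8) (.ev (nat_lit 1488) (nat_lit 5120) (.ev (nat_lit 1501) (nat_lit 536870912) .dd))) (.ch (nat_lit
 10) (.ev (nat_lit 1488) (nat_lit 5120) (.ev (nat_lit 1501) (nat_lit 536870912) .dd))))))))) (.br (nat_lit 5)
 (.ch (nat_lit 4) (.ev (nat_lit 1184) (nat_lit 536916992) (.nd (nat_lit 1472) (.br (nat_lit 8) (.br (nat_lit 4)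
 (.ch (nat_lit 3) (.ev (nat_lit 1488) (nat_lit 117440544) .dd)) (.br (nat_lit 6) (.ch (nat_lit 4) (.ev (nat_lit
 1488) (nat_lit 100663328) (.ev (nat_lit 1501) (nat_lit 16777216) .dd))) (.ch (nat_lit 6) (.ev (nat_lit 1488)
 (nat_lit 50331680) (.ev (nat_lit 1501) (nat_lit 67108864) .dd))))) (.br (nat_lit 9) (.ch (nat_lit 8) (.ev
 (nat_lit 1488) (nat_lit 67108864) (.ev (nat_lit 2964) (nat_lit 16777216) (.nd (nat_lit 3200) (.ch (nat_lit 4)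
 (.nd (nat_lit 3233) (.br (nat_lit 30) (.ch (nat_lit 24) (.ev (nat_lit 3249) (nat_lit 33554464) .dd)) (.ch
 (nat_lit 30) (.nd (nat_lit 3264) (.br (nat_lit 4) (.ch (nat_lit 2) (.ev (nat_lit 3280) (nat_lit 33554464)
 .dd)) (.ch (nat_lit 4) (.fin (nat_lit 576474496157303382))))))))))))) (.br (nat_lit 12) (.ch (nat_lit 9) (.ev
 (nat_lit 1488) (nat_lit 33554432) (.ev (nat_lit 1636) (nat_lit 67108864) (.ev (nat_lit 1716) (nat_lit 32) (.ev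
 (nat_lit 1725) (nat_lit 16777216) .dd))))) (.ch (nat_lit 12) (.ev (nat_lit 1488) (nat_lit 117440512) (.ev
 (nat_lit 1501) (nat_lit 32) .dd))))))))) (.ch (nat_lit 5) (.ev (nat_lit 1184) (nat_lit 50343936) (.nd (nat_lit
 1472) (.br (nat_lit 8) (.br (nat_lit 3) (.ch (nat_lit 1) (.ev (nat_lit 1488) (nat_lit 67108896) (.ev (nat_lit
 1540) (nat_lit 33792) (.ev (nat_lit 1549) (nat_lit 536870912) .dd)))) (.br (nat_lit 6) (.ch (nat_lit 3) (.ev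
 (nat_lit 1488) (nat_lit 604012544) (.ev (nat_lit 1716) (nat_lit 1024) (.ev (nat_lit 1725) (nat_lit 32) .dd))))
 (.ch (nat_lit 6) (.ev (nat_lit 1488) (nat_lit 603979808) (.ev (nat_lit 1636) (nat_lit 32768) (.ev (nat_lit
 1645) (nat_lit 1024) .dd)))))) (.br (nat_lit 10) (.ch (nat_lit 8) (.ev (nat_lit 1488) (nat_lit 604013600)
 .dd)) (.br (nat_lit 12) (.ch (nat_lit 10) (.ev (nat_lit 1488) (nat_lit 1056) (.ev (nat_lit 2004) (nat_lit
 32768) (.nd (nat_lit 3168) (.br (nat_lit 10) (.ch (nat_lit 4) (.ev (nat_lit 3184) (nat_lit 536870912) (.ev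
 (nat_lit 3197) (nat_lit 67108864) .dd))) (.ch (nat_lit 10) (.fin (nat_lit 576360146807505486)))))))) (.ch
 (nat_lit 12) (.ev (nat_lit 1488) (nat_lit 67141632) (.ev (nat_lit 1540) (nat_lit 32) (.ev (nat_lit 1860)
 (nat_lit 536870912) (.ev (nat_lit 1869) (nat_lit 1024) .dd))))))))))))) (.br (nat_lit 11) (.br (nat_lit 8)
 (.ch (nat_lit 6) (.ev (nat_lit 1184) (nat_lit 67142688) (.nd (nat_lit 1472) (.br (nat_lit 7) (.br (nat_lit 3)
 (.ch (nat_lit 0) (.ev (nat_lit 1488) (nat_lit 553652224) (.ev (nat_lit 1728) (nat_lit 33554432) (.ev (nat_lit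
 1741) (nat_lit 8192) .dd)))) (.br (nat_lit 4) (.ch (nat_lit 3) (.ev (nat_lit 1488) (nat_lit 587210752) (.ev
 (nat_lit 1501) (nat_lit 4096) .dd))) (.ch (nat_lit 4) (.ev (nat_lit 1488) (nat_lit 50339840) (.ev (nat_lit
 1940) (nat_lit 4096) (.ev (nat_lit 1949) (nat_lit 536870912) .dd)))))) (.br (nat_lit 8) (.ch (nat_lit 7) (.ev
 (nat_lit 1488) (nat_lit 50339840) (.ev (nat_lit 1636) (nat_lit 536870912) (.ev (nat_lit 1645) (nat_lit 4096)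
 .dd)))) (.br (nat_lit 12) (.ch (nat_lit 8) (.ev (nat_lit 1488) (nat_lit 553656320) (.ev (nat_lit 1552)
 (nat_lit 33554432) (.ev (nat_lit 1565) (nat_lit 4096) .dd)))) (.ch (nat_lit 12) (.ev (nat_lit 1488) (nat_lit
 33562624) (.ev (nat_lit 2052) (nat_lit 536870912) (.nd (nat_lit 3168) (.br (nat_lit 8) (.ch (nat_lit 7) (.fin
 (nat_lit 576482192772252245))) (.ch (nat_lit 8) (.ev (nat_lit 3184) (nat_lit 4096) (.ev (nat_lit 3197)
 (nat_lit 16777216) .dd)))))))))))))) (.ch (nat_lit 8) (.ev (nat_lit 1184) (nat_lit 604016672) (.nd (nat_lit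
 1472) (.br (nat_lit 6) (.br (nat_lit 2) (.ch (nat_lit 0) (.ev (nat_lit 1488) (nat_lit 8192) (.ev (nat_lit
 1540) (nat_lit 33554432) (.ev (nat_lit 1552) (nat_lit 16777216) (.ev (nat_lit 1565) (nat_lit 1024) .dd)))))
 (.br (nat_lit 5) (.ch (nat_lit 2) (.ev (nat_lit 1488) (nat_lit 50340864) .dd)) (.ch (nat_lit 5) (.ev (nat_lit
 1488) (nat_lit 33562624) (.ev (nat_lit 1636) (nat_lit 16777216) (.ev (nat_lit 1645) (nat_lit 1024) .dd))))))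
 (.br (nat_lit 11) (.br (nat_lit 8) (.ch (nat_lit 6) (.ev (nat_lit 1488) (nat_lit 16778240) (.ev (nat_lit 1504)
 (nat_lit 33554432) (.ev (nat_lit 1517) (nat_lit 8192) .dd)))) (.ch (nat_lit 8) (.ev (nat_lit 1488) (nat_lit
 8192) (.ev (nat_lit 1540) (nat_lit 33554432) (.ev (nat_lit 2004) (nat_lit 16777216) (.ev (nat_lit 2013)
 (nat_lit 1024) .dd)))))) (.br (nat_lit 12) (.ch (nat_lit 11) (.ev (nat_lit 1488) (nat_lit 50339840) (.ev
 (nat_lit 1501) (nat_lit 1024) .dd))) (.ch (nat_lit 12) (.ev (nat_lit 1488) (nat_lit 50331648) (.ev (nat_lit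
 1636) (nat_lit 1024) (.ev (nat_lit 1645) (nat_lit 8192) .dd))))))))))) (.br (nat_lit 12) (.ch (nat_lit 11)
 (.ev (nat_lit 1184) (nat_lit 587214848) (.nd (nat_lit 1472) (.br (nat_lit 4) (.br (nat_lit 2) (.ch (nat_lit 0)
 (.ev (nat_lit 1488) (nat_lit 67141664) (.ev (nat_lit 1501) (nat_lit 1024) .dd))) (.br (nat_lit 3) (.ch
 (nat_lit 2) (.ev (nat_lit 1488) (nat_lit 1024) (.ev (nat_lit 1540) (nat_lit 32) (.ev (nat_lit 1636) (nat_lit
 67108864) (.ev (nat_lit 1645) (nat_lit 32768) .dd))))) (.ch (nat_lit 3) (.ev (nat_lit 1488) (nat_lit 32768)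
 (.ev (nat_lit 1540) (nat_lit 32) (.ev (nat_lit 1952) (nat_lit 67108864) (.ev (nat_lit 1965) (nat_lit 1024)
 .dd))))))) (.br (nat_lit 8) (.br (nat_lit 6) (.ch (nat_lit 4) (.ev (nat_lit 1488) (nat_lit 1056) (.fin
 (nat_lit 576452505958302254)))) (.ch (nat_lit 6) (.ev (nat_lit 1488) (nat_lit 67108896) (.ev (nat_lit 1552)
 (nat_lit 32768) (.ev (nat_lit 1565) (nat_lit 1024) .dd))))) (.br (nat_lit 12) (.ch (nat_lit 8) (.ev (nat_lit
 1488) (nat_lit 67141664) (.ev (nat_lit 1501) (nat_lit 1024) .dd))) (.ch (nat_lit 12) (.ev (nat_lit 1488)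
 (nat_lit 67141632) (.ev (nat_lit 1860) (nat_lit 32) (.ev (nat_lit 1869) (nat_lit 1024) .dd)))))))))) (.ch
 (nat_lit 12) (.ev (nat_lit 1184) (nat_lit 654311456) (.nd (nat_lit 1472) (.br (nat_lit 6) (.br (nat_lit 4)
 (.ch (nat_lit 1) (.ev (nat_lit 1488) (nat_lit 8192) (.ev (nat_lit 1540) (nat_lit 4096) (.ev (nat_lit 1860)
 (nat_lit 1024) (.ev (nat_lit 1869) (nat_lit 32768) .dd))))) (.br (nat_lit 5) (.ch (nat_lit 4) (.ev (nat_lit
 1488) (nat_lit 45056) (.ev (nat_lit 1501) (nat_lit 1024) .dd))) (.ch (nat_lit 5) (.ev (nat_lit 1488) (nat_lit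
 45056) (.ev (nat_lit 1501) (nat_lit 1024) .dd))))) (.br (nat_lit 9) (.ch (nat_lit 6) (.ev (nat_lit 1488)
 (nat_lit 1024) (.ev (nat_lit 1540) (nat_lit 8192) (.ev (nat_lit 1860) (nat_lit 4096) (.ev (nat_lit 1869)
 (nat_lit 32768) .dd))))) (.br (nat_lit 11) (.ch (nat_lit 9) (.ev (nat_lit 1488) (nat_lit 37888) (.ev (nat_lit
 1501) (nat_lit 8192) .dd))) (.ch (nat_lit 11) (.ev (nat_lit 1488) (nat_lit 9216) (.ev (nat_lit 1568) (nat_lit
 36864) .dd))))))))))))))))) (.ch (nat_lit 11) (.ev (nat_lit 52) (nat_lit 10368320768) (.ev (nat_lit 148)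
 (nat_lit 4194304) (.ev (nat_lit 276) (nat_lit 32768) (.ev (nat_lit 500) (nat_lit 16777216) (.ev (nat_lit 788)
 (nat_lit 16) (.nd (nat_lit 1168) (.br (nat_lit 9) (.br (nat_lit 1) (.ch (nat_lit 0) (.ev (nat_lit 1184)
 (nat_lit 1056800) (.nd (nat_lit 1472) (.br (nat_lit 8) (.br (nat_lit 4) (.ch (nat_lit 2) (.ev (nat_lit 1488)
 (nat_lit 67108864) (.ev (nat_lit 1540) (nat_lit 68719476736) (.ev (nat_lit 1780) (nat_lit 262144) (.ev
 (nat_lit 1808) (nat_lit 4096) (.ev (nat_lit 1821) (nat_lit 2048) .dd)))))) (.ch (nat_lit 4) (.ev (nat_lit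
 1488) (nat_lit 68719478784) (.ev (nat_lit 2004) (nat_lit 67108864) (.nd (nat_lit 3168) (.br (nat_lit 3) (.ch
 (nat_lit 0) (.fin (nat_lit 576455804463825489))) (.br (nat_lit 4) (.ch (nat_lit 3) (.ev (nat_lit 3184)
 (nat_lit 266240) .dd)) (.ch (nat_lit 4) (.ev (nat_lit 3184) (nat_lit 262144) (.ev (nat_lit 3197) (nat_lit
 4096) .dd)))))))))) (.br (nat_lit 9) (.ch (nat_lit 8) (.ev (nat_lit 1488) (nat_lit 67110912) (.ev (nat_lit
 1540) (nat_lit 68719476736) (.ev (nat_lit 1780) (nat_lit 4096) (.ev (nat_lit 1789) (nat_lit 262144) .dd)))))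
 (.br (nat_lit 12) (.ch (nat_lit 9) (.ev (nat_lit 1488) (nat_lit 68786851840) (.ev (nat_lit 1501) (nat_lit
 2048) .dd))) (.ch (nat_lit 12) (.ev (nat_lit 1488) (nat_lit 67375104) (.nd (nat_lit 3168) (.br (nat_lit 8)
 (.ch (nat_lit 4) (.ev (nat_lit 3184) (nat_lit 68719478784) .dd)) (.ch (nat_lit 8) (.fin (nat_lit
 576432714768925229))))))))))))) (.br (nat_lit 8) (.ch (nat_lit 1) (.ev (nat_lit 1184) (nat_lit 68423712) (.nd
 (nat_lit 1472) (.br (nat_lit 3) (.br (nat_lit 1) (.ch (nat_lit 0) (.ev (nat_lit 1488) (nat_lit 68719486976)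
 .dd)) (.br (nat_lit 2) (.ch (nat_lit 1) (.ev (nat_lit 1540) (nat_lit 8192) (.ev (nat_lit 1636) (nat_lit
 68719476736) (.ev (nat_lit 1645) (nat_lit 2048) .dd)))) (.ch (nat_lit 2) (.ev (nat_lit 1488) (nat_lit 10240)
 (.ev (nat_lit 1501) (nat_lit 68719476736) .dd))))) (.br (nat_lit 6) (.br (nat_lit 4) (.ch (nat_lit 3) (.ev
 (nat_lit 1488) (nat_lit 10240) (.ev (nat_lit 1501) (nat_lit 68719476736) .dd))) (.ch (nat_lit 4) (.ev (nat_lit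
 1488) (nat_lit 8192) (.ev (nat_lit 1872) (nat_lit 68719476736) (.ev (nat_lit 1885) (nat_lit 2048) .dd)))))
 (.br (nat_lit 8) (.ch (nat_lit 6) (.ev (nat_lit 1488) (nat_lit 2048) (.ev (nat_lit 1540) (nat_lit 8192) (.ev
 (nat_lit 1549) (nat_lit 68719476736) .dd)))) (.ch (nat_lit 8) (.ev (nat_lit 1488) (nat_lit 68719476736) (.ev
 (nat_lit 1636) (nat_lit 2048) (.ev (nat_lit 1645) (nat_lit 8192) .dd)))))))))) (.ch (nat_lit 8) (.ev (nat_lit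
 1184) (nat_lit 68786849824) (.nd (nat_lit 1472) (.br (nat_lit 5) (.br (nat_lit 2) (.ch (nat_lit 1) (.ev
 (nat_lit 1488) (nat_lit 8192) (.ev (nat_lit 1540) (nat_lit 1048576) (.ev (nat_lit 1549) (nat_lit 4096) .dd))))
 (.ch (nat_lit 2) (.ev (nat_lit 1488) (nat_lit 8192) (.ev (nat_lit 1664) (nat_lit 1052672) .dd)))) (.br
 (nat_lit 11) (.ch (nat_lit 5) (.ev (nat_lit 1488) (nat_lit 1052672) (.ev (nat_lit 1501) (nat_lit 8192) .dd)))
 (.br (nat_lit 12) (.ch (nat_lit 11) (.ev (nat_lit 1488) (nat_lit 8192) (.fin (nat_lit 576467899138916931))))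
 (.ch (nat_lit 12) (.ev (nat_lit 1504) (nat_lit 1048576) (.ev (nat_lit 1636) (nat_lit 4096) (.ev (nat_lit 1645)
 (nat_lit 8192) .dd)))))))))))) (.br (nat_lit 11) (.ch (nat_lit 9) (.ev (nat_lit 1184) (nat_lit 68719747104)
 (.nd (nat_lit 1472) (.br (nat_lit 10) (.br (nat_lit 2) (.ch (nat_lit 1) (.ev (nat_lit 1488) (nat_lit 68163584)
 .dd)) (.br (nat_lit 9) (.ch (nat_lit 2) (.ev (nat_lit 1488) (nat_lit 1052672) (.fin (nat_lit
 576461302042935864)))) (.ch (nat_lit 9) (.ev (nat_lit 1488) (nat_lit 67108864) (.ev (nat_lit 1540) (nat_lit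
 1048576) (.ev (nat_lit 1860) (nat_lit 4096) (.ev (nat_lit 1869) (nat_lit 2048) .dd))))))) (.br (nat_lit 11)
 (.ch (nat_lit 10) (.ev (nat_lit 1488) (nat_lit 6144) (.ev (nat_lit 1540) (nat_lit 1048576) (.ev (nat_lit 1549)
 (nat_lit 67108864) .dd)))) (.br (nat_lit 12) (.ch (nat_lit 11) (.ev (nat_lit 1488) (nat_lit 68159488) (.ev
 (nat_lit 1501) (nat_lit 4096) .dd))) (.ch (nat_lit 12) (.ev (nat_lit 1488) (nat_lit 4096) (.ev (nat_lit 1540)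
 (nat_lit 2048) (.ev (nat_lit 1716) (nat_lit 1048576) (.ev (nat_lit 1725) (nat_lit 67108864) .dd)))))))))))
 (.br (nat_lit 12) (.ch (nat_lit 11) (.ev (nat_lit 1184) (nat_lit 68719486976) (.nd (nat_lit 1472) (.br
 (nat_lit 5) (.br (nat_lit 3) (.ch (nat_lit 2) (.ev (nat_lit 1488) (nat_lit 4096) (.ev (nat_lit 1540) (nat_lit
 262144) (.ev (nat_lit 1860) (nat_lit 1048576) (.ev (nat_lit 2404) (nat_lit 32) (.ev (nat_lit 2413) (nat_lit
 67108864) .dd)))))) (.br (nat_lit 4) (.ch (nat_lit 3) (.ev (nat_lit 1488) (nat_lit 1310720) (.ev (nat_lit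
 1540) (nat_lit 4096) (.fin (nat_lit 576478894262534698))))) (.ch (nat_lit 4) (.ev (nat_lit 1488) (nat_lit
 1310752) (.ev (nat_lit 1968) (nat_lit 4096) (.ev (nat_lit 1981) (nat_lit 67108864) .dd)))))) (.br (nat_lit 6)
 (.ch (nat_lit 5) (.ev (nat_lit 1488) (nat_lit 68419584) (.ev (nat_lit 2324) (nat_lit 32) (.ev (nat_lit 2333)
 (nat_lit 4096) .dd)))) (.br (nat_lit 12) (.ch (nat_lit 6) (.ev (nat_lit 1488) (nat_lit 67375136) (.ev (nat_lit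
 1501) (nat_lit 1048576) .dd))) (.ch (nat_lit 12) (.ev (nat_lit 1488) (nat_lit 67375136) (.ev (nat_lit 1501)
 (nat_lit 1048576) .dd))))))))) (.ch (nat_lit 12) (.ev (nat_lit 1184) (nat_lit 67373088) (.nd (nat_lit 1472)
 (.br (nat_lit 6) (.br (nat_lit 4) (.ch (nat_lit 1) (.ev (nat_lit 1488) (nat_lit 68719484928) (.ev (nat_lit
 1648) (nat_lit 1052672) .dd))) (.ch (nat_lit 4) (.ev (nat_lit 1488) (nat_lit 4096) (.ev (nat_lit 1540)
 (nat_lit 1056768) (.ev (nat_lit 1549) (nat_lit 68719476736) .dd))))) (.br (nat_lit 11) (.ch (nat_lit 6) (.ev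
 (nat_lit 1488) (nat_lit 68720533504) (.ev (nat_lit 1501) (nat_lit 4096) .dd))) (.br (nat_lit 12) (.ch (nat_lit
 11) (.ev (nat_lit 1488) (nat_lit 68719489024) (.ev (nat_lit 1501) (nat_lit 1048576) .dd))) (.ch (nat_lit 12)
 (.ev (nat_lit 1488) (nat_lit 68720525312) (.ev (nat_lit 1540) (nat_lit 4096) (.ev (nat_lit 1549) (nat_lit
 8192) .dd))))))))))))))))))))) (.br (nat_lit 15) (.ch (nat_lit 12) (.ev (nat_lit 52) (nat_lit 9680722176) (.ev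
 (nat_lit 84) (nat_lit 4194304) (.ev (nat_lit 340) (nat_lit 8192) (.ev (nat_lit 1076) (nat_lit 1048576) (.nd
 (nat_lit 1168) (.br (nat_lit 5) (.br (nat_lit 1) (.ch (nat_lit 0) (.ev (nat_lit 1184) (nat_lit 68853728288)
 (.nd (nat_lit 1472) (.br (nat_lit 8) (.br (nat_lit 2) (.ch (nat_lit 0) (.ev (nat_lit 1488) (nat_lit 570425360)
 (.ev (nat_lit 1501) (nat_lit 67108864) .dd))) (.br (nat_lit 4) (.ch (nat_lit 2) (.ev (nat_lit 1488) (nat_lit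
 100663312) (.ev (nat_lit 1501) (nat_lit 536870912) .dd))) (.ch (nat_lit 4) (.ev (nat_lit 1716) (nat_lit
 536870912) (.ev (nat_lit 1940) (nat_lit 67108864) (.nd (nat_lit 3200) (.ch (nat_lit 3) (.nd (nat_lit 3233)
 (.ch (nat_lit 40) (.nd (nat_lit 3264) (.br (nat_lit 12) (.ch (nat_lit 6) (.ev (nat_lit 3280) (nat_lit
 33554448) .dd)) (.ch (nat_lit 12) (.fin (nat_lit 576465700148167258)))))))))))))) (.br (nat_lit 9) (.ch
 (nat_lit 8) (.ev (nat_lit 1488) (nat_lit 637534208) (.ev (nat_lit 1501) (nat_lit 16) .dd))) (.br (nat_lit 12)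
 (.ch (nat_lit 9) (.ev (nat_lit 1488) (nat_lit 33554448) (.ev (nat_lit 1860) (nat_lit 536870912) (.ev (nat_lit
 1869) (nat_lit 67108864) .dd)))) (.ch (nat_lit 12) (.ev (nat_lit 1488) (nat_lit 637534208) (.ev (nat_lit 1501)
 (nat_lit 16) .dd))))))))) (.br (nat_lit 4) (.ch (nat_lit 1) (.ev (nat_lit 1184) (nat_lit 68954390560) (.nd
 (nat_lit 1472) (.br (nat_lit 6) (.br (nat_lit 2) (.ch (nat_lit 1) (.ev (nat_lit 1540) (nat_lit 16) (.ev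
 (nat_lit 1860) (nat_lit 1024) (.ev (nat_lit 1869) (nat_lit 536870912) .dd)))) (.br (nat_lit 4) (.ch (nat_lit
 2) (.ev (nat_lit 1488) (nat_lit 536870928) (.ev (nat_lit 1501) (nat_lit 1024) .dd))) (.ch (nat_lit 4) (.ev
 (nat_lit 1488) (nat_lit 536871936) (.ev (nat_lit 1501) (nat_lit 16) .dd))))) (.br (nat_lit 7) (.ch (nat_lit 6)
 (.ev (nat_lit 1488) (nat_lit 16) (.nd (nat_lit 3200) (.ch (nat_lit 2) (.nd (nat_lit 3233) (.br (nat_lit 9)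
 (.ch (nat_lit 7) (.ev (nat_lit 3249) (nat_lit 536871936) .dd)) (.br (nat_lit 17) (.ch (nat_lit 9) (.ev
 (nat_lit 3249) (nat_lit 536871936) .dd)) (.ch (nat_lit 17) (.nd (nat_lit 3264) (.br (nat_lit 8) (.ch (nat_lit
 6) (.fin (nat_lit 576430515744621086))) (.ch (nat_lit 8) (.ev (nat_lit 3280) (nat_lit 536871936)
 .dd)))))))))))) (.br (nat_lit 10) (.ch (nat_lit 7) (.ev (nat_lit 1488) (nat_lit 536871952) .dd)) (.ch (nat_lit
 10) (.ev (nat_lit 1488) (nat_lit 1024) (.ev (nat_lit 1540) (nat_lit 16) (.ev (nat_lit 1549) (nat_lit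
 536870912) .dd)))))))))) (.ch (nat_lit 4) (.ev (nat_lit 1184) (nat_lit 704643072) (.nd (nat_lit 1472) (.br
 (nat_lit 7) (.br (nat_lit 4) (.ch (nat_lit 1) (.ev (nat_lit 1488) (nat_lit 68719476736) (.ev (nat_lit 1540)
 (nat_lit 32768) (.ev (nat_lit 1940) (nat_lit 32) (.ev (nat_lit 2352) (nat_lit 16) (.nd (nat_lit 3168) (.br
 (nat_lit 3) (.ch (nat_lit 1) (.ev (nat_lit 3184) (nat_lit 67108864) (.ev (nat_lit 3197) (nat_lit 1024) .dd)))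
 (.ch (nat_lit 3) (.fin (nat_lit 576432714747953721)))))))))) (.br (nat_lit 6) (.ch (nat_lit 4) (.ev (nat_lit
 1488) (nat_lit 68786585600) (.ev (nat_lit 1540) (nat_lit 32800) (.ev (nat_lit 2160) (nat_lit 1024) (.ev
 (nat_lit 2173) (nat_lit 16) .dd))))) (.ch (nat_lit 6) (.ev (nat_lit 1488) (nat_lit 68786619408) (.ev (nat_lit
 1501) (nat_lit 32) .dd))))) (.br (nat_lit 9) (.ch (nat_lit 7) (.ev (nat_lit 1488) (nat_lit 68719476736) (.ev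
 (nat_lit 1940) (nat_lit 32) (.ev (nat_lit 2384) (nat_lit 16) (.ev (nat_lit 2468) (nat_lit 1024) (.fin (nat_lit
 576492088399970906))))))) (.br (nat_lit 12) (.ch (nat_lit 9) (.ev (nat_lit 1488) (nat_lit 33824) (.ev (nat_lit
 2640) (nat_lit 16) (.fin (nat_lit 576483292294365710))))) (.ch (nat_lit 12) (.ev (nat_lit 1488) (nat_lit
 68786619392) (.ev (nat_lit 1860) (nat_lit 32) (.ev (nat_lit 1869) (nat_lit 16) .dd)))))))))))) (.br (nat_lit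
 8) (.br (nat_lit 6) (.ch (nat_lit 5) (.ev (nat_lit 1184) (nat_lit 68887249936) (.nd (nat_lit 1472) (.br
 (nat_lit 4) (.br (nat_lit 1) (.ch (nat_lit 0) (.ev (nat_lit 1488) (nat_lit 32800) (.ev (nat_lit 1540) (nat_lit
 536870912) (.ev (nat_lit 1549) (nat_lit 67108864) .dd)))) (.br (nat_lit 3) (.ch (nat_lit 1) (.ev (nat_lit
 1488) (nat_lit 67108864) (.ev (nat_lit 1540) (nat_lit 536870912) (.ev (nat_lit 1780) (nat_lit 32) (.ev
 (nat_lit 1789) (nat_lit 32768) .dd))))) (.ch (nat_lit 3) (.ev (nat_lit 1488) (nat_lit 32800) (.ev (nat_lit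
 1540) (nat_lit 67108864) (.ev (nat_lit 1549) (nat_lit 536870912) .dd)))))) (.br (nat_lit 10) (.br (nat_lit 8)
 (.ch (nat_lit 4) (.ev (nat_lit 1488) (nat_lit 536903712) (.ev (nat_lit 1501) (nat_lit 67108864) .dd))) (.ch
 (nat_lit 8) (.ev (nat_lit 1488) (nat_lit 32800) (.ev (nat_lit 1636) (nat_lit 536870912) (.ev (nat_lit 1645)
 (nat_lit 67108864) .dd))))) (.br (nat_lit 12) (.ch (nat_lit 10) (.ev (nat_lit 1488) (nat_lit 536870912) (.ev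
 (nat_lit 1540) (nat_lit 32) (.ev (nat_lit 1552) (nat_lit 32768) (.ev (nat_lit 1565) (nat_lit 67108864)
 .dd))))) (.ch (nat_lit 12) (.ev (nat_lit 1488) (nat_lit 67108864) (.ev (nat_lit 1540) (nat_lit 32) (.ev
 (nat_lit 1636) (nat_lit 536870912) (.ev (nat_lit 1645) (nat_lit 32768) .dd))))))))))) (.ch (nat_lit 6) (.ev
 (nat_lit 1184) (nat_lit 69256348720) (.nd (nat_lit 1472) (.br (nat_lit 5) (.br (nat_lit 1) (.ch (nat_lit 0)
 (.ev (nat_lit 1488) (nat_lit 201359360) (.ev (nat_lit 1501) (nat_lit 33554432) .dd))) (.br (nat_lit 3) (.ch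
 (nat_lit 1) (.ev (nat_lit 1488) (nat_lit 33587200) (.ev (nat_lit 1540) (nat_lit 134217728) (.ev (nat_lit 1549)
 (nat_lit 67108864) .dd)))) (.ch (nat_lit 3) (.ev (nat_lit 1488) (nat_lit 134217728) (.ev (nat_lit 1540)
 (nat_lit 33554432) (.ev (nat_lit 1552) (nat_lit 32768) (.ev (nat_lit 1565) (nat_lit 67108864) .dd))))))) (.br
 (nat_lit 8) (.ch (nat_lit 5) (.ev (nat_lit 1488) (nat_lit 134250496) (.ev (nat_lit 1540) (nat_lit 33554432)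
 (.ev (nat_lit 1549) (nat_lit 67108864) .dd)))) (.br (nat_lit 12) (.ch (nat_lit 8) (.ev (nat_lit 1488) (nat_lit
 100663296) (.ev (nat_lit 1716) (nat_lit 32768) (.ev (nat_lit 1725) (nat_lit 134217728) .dd)))) (.ch (nat_lit
 12) (.ev (nat_lit 1488) (nat_lit 100663296) (.ev (nat_lit 1860) (nat_lit 134217728) (.ev (nat_lit 1869)
 (nat_lit 32768) .dd))))))))))) (.br (nat_lit 9) (.ch (nat_lit 8) (.ev (nat_lit 1184) (nat_lit 68786618384)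
 (.nd (nat_lit 1472) (.br (nat_lit 9) (.br (nat_lit 5) (.ch (nat_lit 2) (.ev (nat_lit 1488) (nat_lit 671088672)
 (.ev (nat_lit 2084) (nat_lit 33554432) (.ev (nat_lit 2093) (nat_lit 1024) .dd)))) (.br (nat_lit 8) (.ch
 (nat_lit 5) (.ev (nat_lit 1488) (nat_lit 134217760) (.ev (nat_lit 1540) (nat_lit 536870912) (.ev (nat_lit
 1780) (nat_lit 1024) (.ev (nat_lit 1789) (nat_lit 33554432) .dd))))) (.ch (nat_lit 8) (.ev (nat_lit 1488)
 (nat_lit 134217760) (.ev (nat_lit 1540) (nat_lit 536870912) (.ev (nat_lit 1780) (nat_lit 1024) (.ev (nat_lit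
 1789) (nat_lit 33554432) .dd))))))) (.br (nat_lit 11) (.ch (nat_lit 9) (.ev (nat_lit 1488) (nat_lit 134218784)
 (.ev (nat_lit 2004) (nat_lit 33554432) (.ev (nat_lit 2013) (nat_lit 536870912) .dd)))) (.br (nat_lit 12) (.ch
 (nat_lit 11) (.ev (nat_lit 1488) (nat_lit 33555456) (.ev (nat_lit 1636) (nat_lit 134217728) (.ev (nat_lit
 1860) (nat_lit 32) (.ev (nat_lit 1869) (nat_lit 536870912) .dd))))) (.ch (nat_lit 12) (.ev (nat_lit 1488)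
 (nat_lit 671089696) (.ev (nat_lit 1501) (nat_lit 33554432) .dd))))))))) (.ch (nat_lit 9) (.ev (nat_lit 1184)
 (nat_lit 33588272) (.nd (nat_lit 1472) (.br (nat_lit 9) (.br (nat_lit 3) (.ch (nat_lit 1) (.ev (nat_lit 1488)
 (nat_lit 68786585600) (.ev (nat_lit 1716) (nat_lit 536870912) (.ev (nat_lit 1725) (nat_lit 134217728) .dd))))
 (.br (nat_lit 8) (.ch (nat_lit 3) (.ev (nat_lit 1488) (nat_lit 68853694464) (.ev (nat_lit 1940) (nat_lit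
 67108864) (.ev (nat_lit 1949) (nat_lit 536870912) .dd)))) (.ch (nat_lit 8) (.ev (nat_lit 1488) (nat_lit
 68853694464) (.ev (nat_lit 1540) (nat_lit 67108864) (.ev (nat_lit 1549) (nat_lit 536870912) .dd)))))) (.br
 (nat_lit 11) (.br (nat_lit 10) (.ch (nat_lit 9) (.ev (nat_lit 1488) (nat_lit 671088640) (.ev (nat_lit 1636)
 (nat_lit 68719476736) (.ev (nat_lit 1645) (nat_lit 67108864) .dd)))) (.ch (nat_lit 10) (.ev (nat_lit 1488)
 (nat_lit 69390565376) (.ev (nat_lit 1501) (nat_lit 67108864) .dd)))) (.br (nat_lit 12) (.ch (nat_lit 11) (.ev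
 (nat_lit 1488) (nat_lit 201326592) (.ev (nat_lit 1552) (nat_lit 68719476736) (.ev (nat_lit 1565) (nat_lit
 536870912) .dd)))) (.ch (nat_lit 12) (.ev (nat_lit 1636) (nat_lit 67108864) (.ev (nat_lit 1860) (nat_lit
 536870912) (.fin (nat_lit 576476695213064787)))))))))))))))))))) (.ch (nat_lit 15) (.ev (nat_lit 52) (nat_lit
 555003904) (.ev (nat_lit 404) (nat_lit 67108864) (.ev (nat_lit 468) (nat_lit 1024) (.ev (nat_lit 500) (nat_lit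
 1073741824) (.ev (nat_lit 1076) (nat_lit 2048) (.nd (nat_lit 1168) (.br (nat_lit 6) (.br (nat_lit 1) (.ch
 (nat_lit 0) (.ev (nat_lit 1184) (nat_lit 77443629088) (.nd (nat_lit 1472) (.br (nat_lit 8) (.br (nat_lit 5)
 (.ch (nat_lit 2) (.ev (nat_lit 1488) (nat_lit 37748752) (.ev (nat_lit 1501) (nat_lit 256) .dd))) (.ch (nat_lit
 5) (.ev (nat_lit 1488) (nat_lit 33554688) (.fin (nat_lit 576483292277588566))))) (.br (nat_lit 11) (.ch
 (nat_lit 8) (.ev (nat_lit 1488) (nat_lit 33554432) (.ev (nat_lit 1552) (nat_lit 16) (.ev (nat_lit 1664)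
 (nat_lit 4194304) (.ev (nat_lit 1677) (nat_lit 256) .dd))))) (.br (nat_lit 12) (.ch (nat_lit 11) (.ev (nat_lit
 1488) (nat_lit 4194320) (.ev (nat_lit 1636) (nat_lit 256) (.ev (nat_lit 1645) (nat_lit 33554432) .dd)))) (.ch
 (nat_lit 12) (.ev (nat_lit 1488) (nat_lit 33554688) (.ev (nat_lit 1636) (nat_lit 4194304) (.ev (nat_lit 1645)
 (nat_lit 16) .dd)))))))))) (.br (nat_lit 5) (.ch (nat_lit 1) (.ev (nat_lit 1184) (nat_lit 68891443248) (.nd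
 (nat_lit 1472) (.br (nat_lit 6) (.br (nat_lit 2) (.ch (nat_lit 1) (.ev (nat_lit 1488) (nat_lit 8589934848)
 .dd)) (.br (nat_lit 4) (.ch (nat_lit 2) (.ev (nat_lit 1488) (nat_lit 8589934592) (.ev (nat_lit 1501) (nat_lit
 256) .dd))) (.ch (nat_lit 4) (.ev (nat_lit 1488) (nat_lit 8589934592) (.ev (nat_lit 1501) (nat_lit 256)
 .dd))))) (.br (nat_lit 8) (.ch (nat_lit 6) (.ev (nat_lit 1940) (nat_lit 8589934592) (.ev (nat_lit 1949)
 (nat_lit 256) .dd))) (.br (nat_lit 10) (.ch (nat_lit 8) (.ev (nat_lit 1488) (nat_lit 256) (.ev (nat_lit 1501)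
 (nat_lit 8589934592) .dd))) (.ch (nat_lit 10) (.ev (nat_lit 1488) (nat_lit 256) (.ev (nat_lit 1501) (nat_lit
 8589934592) .dd))))))))) (.ch (nat_lit 5) (.ev (nat_lit 1184) (nat_lit 77347160320) (.nd (nat_lit 1472) (.br
 (nat_lit 4) (.br (nat_lit 1) (.ch (nat_lit 0) (.ev (nat_lit 1488) (nat_lit 134217744) (.ev (nat_lit 1501)
 (nat_lit 32) .dd))) (.br (nat_lit 3) (.ch (nat_lit 1) (.ev (nat_lit 1488) (nat_lit 32) (.ev (nat_lit 1584)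
 (nat_lit 134217728) (.ev (nat_lit 1597) (nat_lit 16) .dd)))) (.ch (nat_lit 3) (.ev (nat_lit 1552) (nat_lit
 134217728) (.ev (nat_lit 1780) (nat_lit 16) (.ev (nat_lit 1789) (nat_lit 32) .dd)))))) (.br (nat_lit 5) (.ch
 (nat_lit 4) (.ev (nat_lit 1488) (nat_lit 48) (.ev (nat_lit 1501) (nat_lit 134217728) .dd))) (.br (nat_lit 12)
 (.ch (nat_lit 5) (.ev (nat_lit 1488) (nat_lit 134217760) (.ev (nat_lit 1501) (nat_lit 16) .dd))) (.ch (nat_lit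
 12) (.ev (nat_lit 1488) (nat_lit 134217744) (.ev (nat_lit 1501) (nat_lit 32) .dd))))))))))) (.br (nat_lit 11)
 (.ch (nat_lit 6) (.ev (nat_lit 1184) (nat_lit 68857888816) (.nd (nat_lit 1472) (.br (nat_lit 5) (.br (nat_lit
 3) (.ch (nat_lit 1) (.ev (nat_lit 1488) (nat_lit 8623489024) (.ev (nat_lit 1501) (nat_lit 256) .dd))) (.br
 (nat_lit 4) (.ch (nat_lit 3) (.ev (nat_lit 2900) (nat_lit 8589934592) (.nd (nat_lit 3168) (.br (nat_lit 2)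
 (.ch (nat_lit 1) (.ev (nat_lit 3184) (nat_lit 33554432) (.ev (nat_lit 3197) (nat_lit 256) .dd))) (.br (nat_lit
 11) (.ch (nat_lit 2) (.ev (nat_lit 3184) (nat_lit 33554432) (.ev (nat_lit 3197) (nat_lit 256) .dd))) (.ch
 (nat_lit 11) (.fin (nat_lit 576483292314288705)))))))) (.ch (nat_lit 4) (.ev (nat_lit 1488) (nat_lit
 8623489024) (.ev (nat_lit 1501) (nat_lit 256) .dd))))) (.br (nat_lit 10) (.br (nat_lit 8) (.ch (nat_lit 5)
 (.ev (nat_lit 1488) (nat_lit 8589934848) (.ev (nat_lit 1501) (nat_lit 33554432) .dd))) (.ch (nat_lit 8) (.ev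
 (nat_lit 1488) (nat_lit 8589934848) (.ev (nat_lit 1501) (nat_lit 33554432) .dd)))) (.br (nat_lit 12) (.ch
 (nat_lit 10) (.ev (nat_lit 1488) (nat_lit 8623489024) (.ev (nat_lit 1501) (nat_lit 256) .dd))) (.ch (nat_lit
 12) (.ev (nat_lit 1488) (nat_lit 33554432) (.ev (nat_lit 1716) (nat_lit 256) (.ev (nat_lit 1725) (nat_lit
 8589934592) .dd)))))))))) (.br (nat_lit 12) (.ch (nat_lit 11) (.ev (nat_lit 1184) (nat_lit 68757225744) (.nd
 (nat_lit 1472) (.br (nat_lit 4) (.br (nat_lit 3) (.ch (nat_lit 0) (.ev (nat_lit 1488) (nat_lit 8724152352)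
 .dd)) (.ch (nat_lit 3) (.ev (nat_lit 1488) (nat_lit 134217728) (.ev (nat_lit 1504) (nat_lit 32) (.ev (nat_lit
 1517) (nat_lit 8589934592) .dd))))) (.br (nat_lit 8) (.ch (nat_lit 4) (.ev (nat_lit 1488) (nat_lit 32) (.ev
 (nat_lit 1540) (nat_lit 8589934592) (.ev (nat_lit 1549) (nat_lit 134217728) .dd)))) (.br (nat_lit 12) (.ch
 (nat_lit 8) (.ev (nat_lit 1488) (nat_lit 8724152352) .dd)) (.ch (nat_lit 12) (.ev (nat_lit 1780) (nat_lit 32)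
 (.nd (nat_lit 3168) (.br (nat_lit 9) (.ch (nat_lit 5) (.ev (nat_lit 3184) (nat_lit 134217728) (.ev (nat_lit
 3197) (nat_lit 8589934592) .dd))) (.ch (nat_lit 9) (.fin (nat_lit 576478894266729023))))))))))))) (.ch
 (nat_lit 12) (.ev (nat_lit 1184) (nat_lit 16) (.nd (nat_lit 1472) (.br (nat_lit 5) (.br (nat_lit 1) (.ch
 (nat_lit 0) (.ev (nat_lit 1488) (nat_lit 8728346912) (.ev (nat_lit 1552) (nat_lit 68719476736) (.ev (nat_lit
 1565) (nat_lit 33554432) .dd)))) (.br (nat_lit 4) (.ch (nat_lit 1) (.ev (nat_lit 1488) (nat_lit 68757225728)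
 (.ev (nat_lit 1540) (nat_lit 32) (.ev (nat_lit 1568) (nat_lit 8589934592) (.ev (nat_lit 1581) (nat_lit
 134217728) .dd))))) (.ch (nat_lit 4) (.ev (nat_lit 1488) (nat_lit 77443629312) (.ev (nat_lit 1540) (nat_lit
 4194304) (.ev (nat_lit 1636) (nat_lit 33554432) (.ev (nat_lit 1645) (nat_lit 32) .dd))))))) (.br (nat_lit 11)
 (.br (nat_lit 6) (.ch (nat_lit 5) (.ev (nat_lit 1488) (nat_lit 138412288) (.ev (nat_lit 1716) (nat_lit
 8589934592) (.ev (nat_lit 1940) (nat_lit 33554432) (.fin (nat_lit 576456904055144998)))))) (.ch (nat_lit 6)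
 (.ev (nat_lit 1488) (nat_lit 68719477024) (.ev (nat_lit 1540) (nat_lit 8627683328) (.ev (nat_lit 1549)
 (nat_lit 134217728) .dd))))) (.br (nat_lit 12) (.ch (nat_lit 11) (.ev (nat_lit 1488) (nat_lit 33554464) (.ev
 (nat_lit 1940) (nat_lit 4194304) (.ev (nat_lit 2704) (nat_lit 68719476736) (.ev (nat_lit 3124) (nat_lit 256)
 (.nd (nat_lit 3168) (.br (nat_lit 8) (.ch (nat_lit 5) (.fin (nat_lit 576492088372707930))) (.br (nat_lit 9)
 (.ch (nat_lit 8) (.ev (nat_lit 3184) (nat_lit 134217728) (.ev (nat_lit 3197) (nat_lit 8589934592) .dd))) (.ch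
 (nat_lit 9) (.ev (nat_lit 3184) (nat_lit 134217728) (.ev (nat_lit 3197) (nat_lit 8589934592) .dd)))))))))))
 (.ch (nat_lit 12) (.ev (nat_lit 1488) (nat_lit 68857888800) (.ev (nat_lit 1540) (nat_lit 33554432) (.ev
 (nat_lit 1716) (nat_lit 8589934592) (.ev (nat_lit 1725) (nat_lit 256) .dd)))))))))))))))))))))))) (.br
 (nat_lit 22) (.br (nat_lit 18) (.br (nat_lit 17) (.ch (nat_lit 16) (.ev (nat_lit 52) (nat_lit 77952188448)
 (.ev (nat_lit 148) (nat_lit 16) (.ev (nat_lit 404) (nat_lit 2048) (.ev (nat_lit 660) (nat_lit 32768) (.ev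
 (nat_lit 692) (nat_lit 256) (.ev (nat_lit 948) (nat_lit 16777216) (.nd (nat_lit 1168) (.br (nat_lit 5) (.br
 (nat_lit 1) (.ch (nat_lit 0) (.ev (nat_lit 1184) (nat_lit 134218752) (.nd (nat_lit 1472) (.br (nat_lit 5) (.br
 (nat_lit 2) (.ch (nat_lit 1) (.ev (nat_lit 1488) (nat_lit 274432) (.ev (nat_lit 1501) (nat_lit 1073741824)
 .dd))) (.br (nat_lit 4) (.ch (nat_lit 2) (.ev (nat_lit 1488) (nat_lit 1073745920) (.ev (nat_lit 1716) (nat_lit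
 8192) (.ev (nat_lit 1725) (nat_lit 262144) .dd)))) (.ch (nat_lit 4) (.ev (nat_lit 1488) (nat_lit 1073750016)
 (.fin (nat_lit 576455804463825489)))))) (.br (nat_lit 9) (.ch (nat_lit 5) (.ev (nat_lit 1488) (nat_lit 4096)
 (.ev (nat_lit 2004) (nat_lit 1073741824) (.ev (nat_lit 2416) (nat_lit 262144) (.ev (nat_lit 2429) (nat_lit
 8192) .dd))))) (.br (nat_lit 12) (.ch (nat_lit 9) (.ev (nat_lit 1488) (nat_lit 4096) (.ev (nat_lit 2368)
 (nat_lit 8192) (.ev (nat_lit 2404) (nat_lit 1073741824) (.ev (nat_lit 2413) (nat_lit 262144) .dd))))) (.ch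
 (nat_lit 12) (.ev (nat_lit 1488) (nat_lit 1074012160) (.ev (nat_lit 1501) (nat_lit 4096) .dd))))))))) (.br
 (nat_lit 4) (.ch (nat_lit 1) (.ev (nat_lit 1184) (nat_lit 134480896) (.nd (nat_lit 1472) (.br (nat_lit 6) (.br
 (nat_lit 2) (.ch (nat_lit 1) (.ev (nat_lit 1488) (nat_lit 1073754112) .dd)) (.br (nat_lit 3) (.ch (nat_lit 2)
 (.ev (nat_lit 1540) (nat_lit 4096) (.ev (nat_lit 1636) (nat_lit 1073741824) (.ev (nat_lit 1645) (nat_lit 8192)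
 .dd)))) (.ch (nat_lit 3) (.ev (nat_lit 1488) (nat_lit 4096) (.fin (nat_lit 576470098151686729)))))) (.br
 (nat_lit 7) (.ch (nat_lit 6) (.ev (nat_lit 1488) (nat_lit 4096) (.ev (nat_lit 1664) (nat_lit 1073750016)
 .dd))) (.br (nat_lit 10) (.ch (nat_lit 7) (.ev (nat_lit 1488) (nat_lit 4096) (.ev (nat_lit 1540) (nat_lit
 8192) (.ev (nat_lit 1549) (nat_lit 1073741824) .dd)))) (.ch (nat_lit 10) (.ev (nat_lit 1488) (nat_lit
 1073741824) (.nd (nat_lit 3168) (.br (nat_lit 8) (.ch (nat_lit 2) (.fin (nat_lit 576475595708777070))) (.ch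
 (nat_lit 8) (.ev (nat_lit 3184) (nat_lit 12288) .dd)))))))))))) (.ch (nat_lit 4) (.ev (nat_lit 1184) (nat_lit
 134484992) (.nd (nat_lit 1472) (.br (nat_lit 6) (.br (nat_lit 3) (.ch (nat_lit 1) (.ev (nat_lit 1488) (nat_lit
 1073741824) (.ev (nat_lit 1501) (nat_lit 8192) .dd))) (.br (nat_lit 4) (.ch (nat_lit 3) (.ev (nat_lit 1488)
 (nat_lit 1073750016) .dd)) (.ch (nat_lit 4) (.ev (nat_lit 1488) (nat_lit 8192) (.ev (nat_lit 1501) (nat_lit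
 1073741824) .dd))))) (.br (nat_lit 9) (.br (nat_lit 7) (.ch (nat_lit 6) (.ev (nat_lit 1488) (nat_lit 8192)
 (.ev (nat_lit 1501) (nat_lit 1073741824) .dd))) (.ch (nat_lit 7) (.ev (nat_lit 1488) (nat_lit 1073741824) (.ev
 (nat_lit 1501) (nat_lit 8192) .dd)))) (.br (nat_lit 12) (.ch (nat_lit 9) (.ev (nat_lit 1488) (nat_lit
 1073750016) .dd)) (.ch (nat_lit 12) (.ev (nat_lit 1716) (nat_lit 1073741824) (.ev (nat_lit 1725) (nat_lit
 8192) .dd))))))))))) (.br (nat_lit 6) (.ch (nat_lit 5) (.ev (nat_lit 1184) (nat_lit 13312) (.nd (nat_lit 1472)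
 (.br (nat_lit 3) (.br (nat_lit 1) (.ch (nat_lit 0) (.ev (nat_lit 1488) (nat_lit 262144) (.ev (nat_lit 1780)
 (nat_lit 134217728) (.ev (nat_lit 1789) (nat_lit 1073741824) .dd)))) (.ch (nat_lit 1) (.ev (nat_lit 1488)
 (nat_lit 1074003968) (.ev (nat_lit 1501) (nat_lit 134217728) .dd)))) (.br (nat_lit 8) (.ch (nat_lit 3) (.ev
 (nat_lit 1488) (nat_lit 1074003968) (.ev (nat_lit 1501) (nat_lit 134217728) .dd))) (.br (nat_lit 10) (.ch
 (nat_lit 8) (.ev (nat_lit 1488) (nat_lit 134479872) (.ev (nat_lit 1501) (nat_lit 1073741824) .dd))) (.ch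
 (nat_lit 10) (.ev (nat_lit 1488) (nat_lit 1207959552) (.ev (nat_lit 1501) (nat_lit 262144) .dd))))))))) (.br
 (nat_lit 8) (.ch (nat_lit 6) (.ev (nat_lit 1184) (nat_lit 1074004992) (.nd (nat_lit 1472) (.br (nat_lit 5)
 (.br (nat_lit 1) (.ch (nat_lit 0) (.ev (nat_lit 1488) (nat_lit 134230016) .dd)) (.br (nat_lit 3) (.ch (nat_lit
 1) (.ev (nat_lit 1488) (nat_lit 4096) (.ev (nat_lit 1728) (nat_lit 134217728) (.ev (nat_lit 1741) (nat_lit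
 8192) .dd)))) (.ch (nat_lit 3) (.ev (nat_lit 2180) (nat_lit 4096) (.ev (nat_lit 2288) (nat_lit 8192) (.ev
 (nat_lit 2301) (nat_lit 134217728) .dd)))))) (.br (nat_lit 8) (.ch (nat_lit 5) (.ev (nat_lit 1488) (nat_lit
 134225920) (.ev (nat_lit 1501) (nat_lit 4096) .dd))) (.br (nat_lit 10) (.ch (nat_lit 8) (.ev (nat_lit 1488)
 (nat_lit 8192) (.fin (nat_lit 576440411368145487)))) (.ch (nat_lit 10) (.ev (nat_lit 1488) (nat_lit 4096) (.ev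
 (nat_lit 2096) (nat_lit 134217728) (.ev (nat_lit 2109) (nat_lit 8192) .dd)))))))))) (.ch (nat_lit 8) (.ev
 (nat_lit 1184) (nat_lit 262144) (.nd (nat_lit 1472) (.br (nat_lit 9) (.br (nat_lit 1) (.ch (nat_lit 0) (.ev
 (nat_lit 1488) (nat_lit 1073746944) (.ev (nat_lit 1636) (nat_lit 134217728) (.ev (nat_lit 1645) (nat_lit 8192)
 .dd)))) (.br (nat_lit 5) (.ch (nat_lit 1) (.ev (nat_lit 1488) (nat_lit 9216) (.ev (nat_lit 1860) (nat_lit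
 1073741824) (.ev (nat_lit 2116) (nat_lit 134217728) (.ev (nat_lit 2125) (nat_lit 4096) .dd))))) (.ch (nat_lit
 5) (.ev (nat_lit 1488) (nat_lit 1073755136) (.ev (nat_lit 1501) (nat_lit 134217728) .dd))))) (.br (nat_lit 11)
 (.ch (nat_lit 9) (.ev (nat_lit 1488) (nat_lit 134218752) (.ev (nat_lit 1824) (nat_lit 8192) (.nd (nat_lit
 3168) (.br (nat_lit 3) (.ch (nat_lit 0) (.fin (nat_lit 576420620123193906))) (.ch (nat_lit 3) (.ev (nat_lit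
 3184) (nat_lit 4096) (.ev (nat_lit 3197) (nat_lit 1073741824) .dd)))))))) (.br (nat_lit 12) (.ch (nat_lit 11)
 (.ev (nat_lit 1488) (nat_lit 1073754112) (.ev (nat_lit 1648) (nat_lit 134217728) (.ev (nat_lit 1661) (nat_lit
 1024) .dd)))) (.ch (nat_lit 12) (.ev (nat_lit 1488) (nat_lit 134217728) (.ev (nat_lit 1540) (nat_lit 4096)
 (.ev (nat_lit 1716) (nat_lit 8192) (.ev (nat_lit 1760) (nat_lit 1024) (.ev (nat_lit 1773) (nat_lit 1073741824)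
 .dd))))))))))))))))))))))) (.ch (nat_lit 17) (.ev (nat_lit 52) (nat_lit 537144320) (.ev (nat_lit 596) (nat_lit
 67108864) (.ev (nat_lit 852) (nat_lit 16) (.nd (nat_lit 1168) (.br (nat_lit 9) (.br (nat_lit 5) (.ch (nat_lit
 1) (.ev (nat_lit 1184) (nat_lit 8758788384) (.nd (nat_lit 1472) (.br (nat_lit 4) (.br (nat_lit 1) (.ch
 (nat_lit 0) (.ev (nat_lit 1488) (nat_lit 1090519040) (.ev (nat_lit 1636) (nat_lit 4194304) (.ev (nat_lit 1716)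
 (nat_lit 4096) (.ev (nat_lit 1725) (nat_lit 68719476736) .dd))))) (.br (nat_lit 2) (.ch (nat_lit 1) (.ev
 (nat_lit 1488) (nat_lit 69793222656) (.ev (nat_lit 1636) (nat_lit 16777216) (.ev (nat_lit 1645) (nat_lit
 4194304) .dd)))) (.ch (nat_lit 2) (.ev (nat_lit 1488) (nat_lit 20971520) (.ev (nat_lit 1636) (nat_lit 4096)
 (.ev (nat_lit 1808) (nat_lit 1073741824) (.ev (nat_lit 1821) (nat_lit 68719476736) .dd))))))) (.br (nat_lit 8)
 (.br (nat_lit 7) (.ch (nat_lit 4) (.ev (nat_lit 1488) (nat_lit 20971520) (.ev (nat_lit 1540) (nat_lit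
 68719480832) (.ev (nat_lit 1549) (nat_lit 1073741824) .dd)))) (.ch (nat_lit 7) (.ev (nat_lit 1488) (nat_lit
 69793222656) (.ev (nat_lit 2004) (nat_lit 16777216) (.ev (nat_lit 2013) (nat_lit 4194304) .dd))))) (.br
 (nat_lit 10) (.ch (nat_lit 8) (.ev (nat_lit 1488) (nat_lit 68723675136) (.ev (nat_lit 1504) (nat_lit
 1073741824) (.ev (nat_lit 1517) (nat_lit 16777216) .dd)))) (.ch (nat_lit 10) (.ev (nat_lit 1488) (nat_lit
 69814194176) .dd)))))))) (.br (nat_lit 6) (.ch (nat_lit 5) (.ev (nat_lit 1184) (nat_lit 78437683200) (.nd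
 (nat_lit 1472) (.br (nat_lit 5) (.br (nat_lit 1) (.ch (nat_lit 0) (.ev (nat_lit 1488) (nat_lit 32768) (.ev
 (nat_lit 1540) (nat_lit 1048576) (.ev (nat_lit 2004) (nat_lit 256) (.ev (nat_lit 2336) (nat_lit 134217728)
 (.ev (nat_lit 2349) (nat_lit 32) .dd)))))) (.br (nat_lit 4) (.ch (nat_lit 1) (.ev (nat_lit 1488) (nat_lit 288)
 (.ev (nat_lit 1680) (nat_lit 1048576) (.ev (nat_lit 1780) (nat_lit 32768) (.ev (nat_lit 1789) (nat_lit
 134217728) .dd))))) (.ch (nat_lit 4) (.ev (nat_lit 1488) (nat_lit 32800) (.ev (nat_lit 1540) (nat_lit 256)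
 (.ev (nat_lit 1636) (nat_lit 1048576) (.ev (nat_lit 1645) (nat_lit 134217728) .dd))))))) (.br (nat_lit 10)
 (.ch (nat_lit 5) (.ev (nat_lit 1488) (nat_lit 134250784) (.ev (nat_lit 1501) (nat_lit 1048576) .dd))) (.br
 (nat_lit 12) (.ch (nat_lit 10) (.ev (nat_lit 1488) (nat_lit 1048576) (.ev (nat_lit 1984) (nat_lit 32768) (.ev
 (nat_lit 2262) (nat_lit 134218016) .dd)))) (.ch (nat_lit 12) (.ev (nat_lit 1488) (nat_lit 1048576) (.ev
 (nat_lit 1540) (nat_lit 256) (.ev (nat_lit 1716) (nat_lit 134217728) (.fin (nat_lit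
 576487690313613890)))))))))))) (.ch (nat_lit 6) (.ev (nat_lit 1184) (nat_lit 69831000352) (.nd (nat_lit 1472)
 (.br (nat_lit 7) (.br (nat_lit 5) (.ch (nat_lit 0) (.ev (nat_lit 1488) (nat_lit 8740929536) (.ev (nat_lit
 1636) (nat_lit 4096) (.ev (nat_lit 1645) (nat_lit 1048576) .dd)))) (.ch (nat_lit 5) (.ev (nat_lit 1488)
 (nat_lit 8607760384) (.ev (nat_lit 1504) (nat_lit 134221824) .dd)))) (.br (nat_lit 10) (.ch (nat_lit 7) (.ev
 (nat_lit 1488) (nat_lit 150999040) (.ev (nat_lit 1540) (nat_lit 1048576) (.ev (nat_lit 1549) (nat_lit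
 8589934592) .dd)))) (.br (nat_lit 12) (.ch (nat_lit 10) (.ev (nat_lit 1488) (nat_lit 8589938688) (.ev (nat_lit
 1568) (nat_lit 16777216) (.ev (nat_lit 1636) (nat_lit 1048576) (.ev (nat_lit 1645) (nat_lit 134217728)
 .dd))))) (.ch (nat_lit 12) (.ev (nat_lit 1488) (nat_lit 8590983168) (.ev (nat_lit 1600) (nat_lit 134217728)
 (.fin (nat_lit 576482192772252245))))))))))))) (.br (nat_lit 11) (.ch (nat_lit 9) (.ev (nat_lit 1184) (nat_lit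
 9718239520) (.nd (nat_lit 1472) (.br (nat_lit 8) (.br (nat_lit 3) (.ch (nat_lit 2) (.ev (nat_lit 1488)
 (nat_lit 68719476736) (.ev (nat_lit 1540) (nat_lit 1048576) (.ev (nat_lit 1549) (nat_lit 134217728) .dd))))
 (.ch (nat_lit 3) (.ev (nat_lit 1488) (nat_lit 135266304) (.ev (nat_lit 1501) (nat_lit 68719476736) .dd))))
 (.br (nat_lit 11) (.ch (nat_lit 8) (.ev (nat_lit 1488) (nat_lit 68719476736) (.ev (nat_lit 1504) (nat_lit
 1048576) (.ev (nat_lit 1517) (nat_lit 134217728) .dd)))) (.br (nat_lit 12) (.ch (nat_lit 11) (.ev (nat_lit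
 1636) (nat_lit 1048576) (.ev (nat_lit 1716) (nat_lit 68719476736) (.ev (nat_lit 1725) (nat_lit 134217728)
 .dd)))) (.ch (nat_lit 12) (.ev (nat_lit 1616) (nat_lit 68719476736) (.ev (nat_lit 1636) (nat_lit 134217728)
 (.ev (nat_lit 1645) (nat_lit 1048576) .dd)))))))))) (.br (nat_lit 12) (.ch (nat_lit 11) (.ev (nat_lit 1184)
 (nat_lit 68753035552) (.nd (nat_lit 1472) (.br (nat_lit 5) (.br (nat_lit 2) (.ch (nat_lit 1) (.ev (nat_lit
 1488) (nat_lit 156270592) (.ev (nat_lit 1636) (nat_lit 8589934592) (.ev (nat_lit 1645) (nat_lit 1073741824)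
 .dd)))) (.br (nat_lit 4) (.ch (nat_lit 2) (.ev (nat_lit 1488) (nat_lit 9797894144) (.ev (nat_lit 1760)
 (nat_lit 1048576) (.ev (nat_lit 1940) (nat_lit 4194304) (.nd (nat_lit 3168) (.br (nat_lit 11) (.ch (nat_lit 4)
 (.fin (nat_lit 576298574449951142))) (.ch (nat_lit 11) (.ev (nat_lit 3184) (nat_lit 32768) (.ev (nat_lit 3197)
 (nat_lit 16777216) .dd))))))))) (.ch (nat_lit 4) (.ev (nat_lit 1488) (nat_lit 156237824) (.ev (nat_lit 1540)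
 (nat_lit 1073741824) (.ev (nat_lit 1716) (nat_lit 32768) (.ev (nat_lit 1725) (nat_lit 8589934592) .dd)))))))
 (.br (nat_lit 8) (.ch (nat_lit 5) (.ev (nat_lit 1488) (nat_lit 17858560) (.ev (nat_lit 1552) (nat_lit
 8589934592) (.ev (nat_lit 1584) (nat_lit 4194304) (.ev (nat_lit 1636) (nat_lit 134217728) (.ev (nat_lit 1645)
 (nat_lit 1073741824) .dd)))))) (.br (nat_lit 12) (.ch (nat_lit 8) (.ev (nat_lit 1488) (nat_lit 1212153856)
 (.ev (nat_lit 1716) (nat_lit 32768) (.ev (nat_lit 1860) (nat_lit 8606711808) (.ev (nat_lit 1869) (nat_lit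
 1048576) .dd))))) (.ch (nat_lit 12) (.ev (nat_lit 1488) (nat_lit 32768) (.ev (nat_lit 1940) (nat_lit 4194304)
 (.ev (nat_lit 2116) (nat_lit 16777216) (.nd (nat_lit 3168) (.br (nat_lit 8) (.ch (nat_lit 0) (.ev (nat_lit
 3184) (nat_lit 9798942720) .dd)) (.br (nat_lit 9) (.ch (nat_lit 8) (.ev (nat_lit 3184) (nat_lit 8724152320)
 (.fin (nat_lit 576470098153783885)))) (.ch (nat_lit 9) (.ev (nat_lit 3184) (nat_lit 1074790400) (.fin (nat_lit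
 576443709854794305))))))))))))))))) (.ch (nat_lit 12) (.ev (nat_lit 1184) (nat_lit 77327237152) (.nd (nat_lit
 1472) (.br (nat_lit 6) (.br (nat_lit 5) (.ch (nat_lit 1) (.ev (nat_lit 1488) (nat_lit 1111523328) (.ev
 (nat_lit 1540) (nat_lit 256) (.ev (nat_lit 1888) (nat_lit 134217728) (.ev (nat_lit 1901) (nat_lit 4096)
 .dd))))) (.ch (nat_lit 5) (.ev (nat_lit 1488) (nat_lit 134254848) (.ev (nat_lit 2724) (nat_lit 33554432) (.nd
 (nat_lit 3168) (.br (nat_lit 1) (.ch (nat_lit 0) (.ev (nat_lit 3184) (nat_lit 1077936128) .dd)) (.ch (nat_lit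
 1) (.fin (nat_lit 576475595715068447))))))))) (.br (nat_lit 7) (.ch (nat_lit 6) (.ev (nat_lit 1488) (nat_lit
 1073778688) (.ev (nat_lit 1780) (nat_lit 4194304) (.ev (nat_lit 1860) (nat_lit 134217984) (.ev (nat_lit 1869)
 (nat_lit 33554432) .dd))))) (.br (nat_lit 9) (.ch (nat_lit 7) (.ev (nat_lit 1488) (nat_lit 4096) (.ev (nat_lit
 1540) (nat_lit 1073741824) (.ev (nat_lit 2084) (nat_lit 256) (.nd (nat_lit 3168) (.br (nat_lit 3) (.ch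
 (nat_lit 0) (.ev (nat_lit 3184) (nat_lit 138412032) (.fin (nat_lit 576430515776078426)))) (.br (nat_lit 4)
 (.ch (nat_lit 3) (.ev (nat_lit 3184) (nat_lit 33587200) (.fin (nat_lit 576474496211829334)))) (.ch (nat_lit 4)
 (.ev (nat_lit 3184) (nat_lit 37781504) (.ev (nat_lit 3197) (nat_lit 134217728) .dd)))))))))) (.ch (nat_lit 9)
 (.ev (nat_lit 1488) (nat_lit 1241551104) (.ev (nat_lit 1501) (nat_lit 4194304) .dd)))))))))))))))))) (.br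
 (nat_lit 21) (.ch (nat_lit 18) (.ev (nat_lit 52) (nat_lit 171972624) (.ev (nat_lit 84) (nat_lit 1024) (.ev
 (nat_lit 244) (nat_lit 262144) (.ev (nat_lit 660) (nat_lit 8192) (.ev (nat_lit 884) (nat_lit 256) (.nd
 (nat_lit 1168) (.br (nat_lit 9) (.br (nat_lit 1) (.ch (nat_lit 0) (.ev (nat_lit 1184) (nat_lit 554729504) (.nd
 (nat_lit 1472) (.br (nat_lit 8) (.br (nat_lit 5) (.ch (nat_lit 4) (.ev (nat_lit 1488) (nat_lit 78383153152)
 (.ev (nat_lit 1501) (nat_lit 67108864) .dd))) (.ch (nat_lit 5) (.ev (nat_lit 1488) (nat_lit 8589934592) (.ev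
 (nat_lit 1540) (nat_lit 1140850688) (.ev (nat_lit 1549) (nat_lit 68719476736) .dd))))) (.br (nat_lit 9) (.ch
 (nat_lit 8) (.ev (nat_lit 1488) (nat_lit 9730785280) (.ev (nat_lit 1501) (nat_lit 68719476736) .dd))) (.br
 (nat_lit 12) (.ch (nat_lit 9) (.ev (nat_lit 1488) (nat_lit 68786585600) (.ev (nat_lit 1636) (nat_lit
 8589934592) (.ev (nat_lit 1645) (nat_lit 1073741824) .dd)))) (.ch (nat_lit 12) (.ev (nat_lit 1488) (nat_lit
 9730785280) (.ev (nat_lit 1501) (nat_lit 68719476736) .dd))))))))) (.br (nat_lit 5) (.ch (nat_lit 1) (.ev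
 (nat_lit 1184) (nat_lit 69324537888) (.nd (nat_lit 1472) (.br (nat_lit 4) (.br (nat_lit 1) (.ch (nat_lit 0)
 (.ev (nat_lit 1488) (nat_lit 1090519040) (.ev (nat_lit 1501) (nat_lit 8589934592) .dd))) (.br (nat_lit 3) (.ch
 (nat_lit 1) (.ev (nat_lit 1488) (nat_lit 9680453632) .dd)) (.ch (nat_lit 3) (.ev (nat_lit 1488) (nat_lit
 1090519040) (.ev (nat_lit 1501) (nat_lit 8589934592) .dd))))) (.br (nat_lit 6) (.ch (nat_lit 4) (.ev (nat_lit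
 1488) (nat_lit 8589934592) (.ev (nat_lit 1540) (nat_lit 1073741824) (.ev (nat_lit 1549) (nat_lit 16777216)
 .dd)))) (.br (nat_lit 8) (.ch (nat_lit 6) (.ev (nat_lit 1540) (nat_lit 1073741824) (.ev (nat_lit 1940)
 (nat_lit 8589934592) (.ev (nat_lit 1949) (nat_lit 16777216) .dd)))) (.ch (nat_lit 8) (.ev (nat_lit 1540)
 (nat_lit 1073741824) (.ev (nat_lit 2004) (nat_lit 16777216) (.ev (nat_lit 2013) (nat_lit 8589934592)
 .dd)))))))))) (.ch (nat_lit 5) (.ev (nat_lit 1184) (nat_lit 77394378784) (.nd (nat_lit 1472) (.br (nat_lit 8)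
 (.br (nat_lit 5) (.ch (nat_lit 3) (.ev (nat_lit 1488) (nat_lit 1073741824) (.ev (nat_lit 1501) (nat_lit
 536870912) .dd))) (.ch (nat_lit 5) (.ev (nat_lit 1488) (nat_lit 1610612736) .dd))) (.br (nat_lit 10) (.ch
 (nat_lit 8) (.ev (nat_lit 1488) (nat_lit 536870912) (.ev (nat_lit 1501) (nat_lit 1073741824) .dd))) (.br
 (nat_lit 12) (.ch (nat_lit 10) (.ev (nat_lit 1488) (nat_lit 1073741824) (.ev (nat_lit 1501) (nat_lit
 536870912) .dd))) (.ch (nat_lit 12) (.fin (nat_lit 576475595733942851))))))))))) (.br (nat_lit 11) (.ch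
 (nat_lit 9) (.ev (nat_lit 1184) (nat_lit 9680453664) (.nd (nat_lit 1472) (.br (nat_lit 9) (.br (nat_lit 3)
 (.ch (nat_lit 1) (.ev (nat_lit 1488) (nat_lit 69324505088) (.ev (nat_lit 1501) (nat_lit 32768) .dd))) (.br
 (nat_lit 4) (.ch (nat_lit 3) (.ev (nat_lit 1488) (nat_lit 604012544) (.ev (nat_lit 1540) (nat_lit 68719476736)
 (.ev (nat_lit 1549) (nat_lit 1048576) .dd)))) (.ch (nat_lit 4) (.ev (nat_lit 1488) (nat_lit 603979776) (.ev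
 (nat_lit 1860) (nat_lit 68719476736) (.ev (nat_lit 2084) (nat_lit 1048576) (.ev (nat_lit 2093) (nat_lit 32768)
 .dd))))))) (.br (nat_lit 10) (.ch (nat_lit 9) (.ev (nat_lit 1488) (nat_lit 604012544) (.ev (nat_lit 1940)
 (nat_lit 1048576) (.ev (nat_lit 1949) (nat_lit 68719476736) .dd)))) (.br (nat_lit 11) (.ch (nat_lit 10) (.ev
 (nat_lit 1488) (nat_lit 537919488) (.ev (nat_lit 1540) (nat_lit 32768) (.ev (nat_lit 2052) (nat_lit 67108864)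
 (.ev (nat_lit 2061) (nat_lit 68719476736) .dd))))) (.ch (nat_lit 11) (.ev (nat_lit 1488) (nat_lit 67108864)
 (.ev (nat_lit 1540) (nat_lit 1048576) (.ev (nat_lit 1636) (nat_lit 536870912) (.ev (nat_lit 1860) (nat_lit
 68719476736) (.ev (nat_lit 1869) (nat_lit 32768) .dd)))))))))))) (.br (nat_lit 12) (.ch (nat_lit 11) (.ev
 (nat_lit 1184) (nat_lit 78920024096) (.nd (nat_lit 1472) (.br (nat_lit 6) (.br (nat_lit 2) (.ch (nat_lit 1)
 (.ev (nat_lit 1488) (nat_lit 67141632) (.ev (nat_lit 1540) (nat_lit 1048576) (.ev (nat_lit 1549) (nat_lit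
 16777216) .dd)))) (.br (nat_lit 4) (.ch (nat_lit 2) (.ev (nat_lit 1860) (nat_lit 1048576) (.ev (nat_lit 2228)
 (nat_lit 67108864) (.nd (nat_lit 3168) (.br (nat_lit 5) (.ch (nat_lit 4) (.fin (nat_lit 576624029671572186)))
 (.br (nat_lit 10) (.ch (nat_lit 5) (.ev (nat_lit 3184) (nat_lit 16809984) .dd)) (.ch (nat_lit 10) (.ev
 (nat_lit 3184) (nat_lit 16809984) .dd)))))))) (.ch (nat_lit 4) (.ev (nat_lit 1488) (nat_lit 17825792) (.nd
 (nat_lit 3168) (.br (nat_lit 9) (.ch (nat_lit 5) (.fin (nat_lit 576452505958302254))) (.ch (nat_lit 9) (.ev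
 (nat_lit 3184) (nat_lit 32768) (.ev (nat_lit 3197) (nat_lit 67108864) .dd))))))))) (.br (nat_lit 8) (.ch
 (nat_lit 6) (.ev (nat_lit 1488) (nat_lit 83886080) (.ev (nat_lit 1540) (nat_lit 32768) (.ev (nat_lit 1549)
 (nat_lit 1048576) .dd)))) (.br (nat_lit 12) (.ch (nat_lit 8) (.ev (nat_lit 1488) (nat_lit 1081344) (.ev
 (nat_lit 1716) (nat_lit 67108864) (.ev (nat_lit 1725) (nat_lit 16777216) .dd)))) (.ch (nat_lit 12) (.ev
 (nat_lit 1488) (nat_lit 83918848) (.ev (nat_lit 1501) (nat_lit 1048576) .dd))))))))) (.ch (nat_lit 12) (.ev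
 (nat_lit 1184) (nat_lit 1677721600) (.nd (nat_lit 1472) (.br (nat_lit 5) (.br (nat_lit 4) (.ch (nat_lit 1)
 (.ev (nat_lit 1488) (nat_lit 77326188544) (.ev (nat_lit 1540) (nat_lit 1048576) (.ev (nat_lit 2752) (nat_lit
 32) (.ev (nat_lit 2765) (nat_lit 32768) .dd))))) (.ch (nat_lit 4) (.ev (nat_lit 1488) (nat_lit 77310492672)
 (.ev (nat_lit 1504) (nat_lit 16777248) .dd)))) (.br (nat_lit 6) (.ch (nat_lit 5) (.ev (nat_lit 1488) (nat_lit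
 1081344) (.nd (nat_lit 3168) (.br (nat_lit 9) (.ch (nat_lit 3) (.ev (nat_lit 3184) (nat_lit 8606711808) (.fin
 (nat_lit 576465700066378330)))) (.ch (nat_lit 9) (.ev (nat_lit 3184) (nat_lit 68719476768) (.fin (nat_lit
 576483292325823050)))))))) (.br (nat_lit 11) (.ch (nat_lit 6) (.ev (nat_lit 1488) (nat_lit 68737302560) (.ev
 (nat_lit 1636) (nat_lit 8589934592) (.ev (nat_lit 1645) (nat_lit 32768) .dd)))) (.ch (nat_lit 11) (.ev
 (nat_lit 1488) (nat_lit 68719476768) (.ev (nat_lit 1540) (nat_lit 16777216) (.ev (nat_lit 2004) (nat_lit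
 1048576) (.ev (nat_lit 3046) (nat_lit 8589967360) .dd))))))))))))))))))))) (.ch (nat_lit 21) (.ev (nat_lit 52)
 (nat_lit 1140858912) (.ev (nat_lit 436) (nat_lit 2048) (.ev (nat_lit 628) (nat_lit 16777216) (.ev (nat_lit
 916) (nat_lit 4194304) (.ev (nat_lit 948) (nat_lit 33554432) (.nd (nat_lit 1168) (.br (nat_lit 9) (.br
 (nat_lit 4) (.ch (nat_lit 1) (.ev (nat_lit 1184) (nat_lit 672432144) (.nd (nat_lit 1472) (.br (nat_lit 3) (.br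
 (nat_lit 1) (.ch (nat_lit 0) (.ev (nat_lit 1488) (nat_lit 256) (.ev (nat_lit 1540) (nat_lit 1024) (.ev
 (nat_lit 2288) (nat_lit 4096) (.nd (nat_lit 3168) (.br (nat_lit 11) (.ch (nat_lit 7) (.ev (nat_lit 3184)
 (nat_lit 77309411328) .dd)) (.ch (nat_lit 11) (.fin (nat_lit 576430515694289498))))))))) (.br (nat_lit 2) (.ch
 (nat_lit 1) (.ev (nat_lit 1488) (nat_lit 77309416704) .dd)) (.ch (nat_lit 2) (.ev (nat_lit 1488) (nat_lit
 8589939712) (.ev (nat_lit 1940) (nat_lit 68719476736) (.ev (nat_lit 1949) (nat_lit 256) .dd)))))) (.br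
 (nat_lit 4) (.ch (nat_lit 3) (.ev (nat_lit 1488) (nat_lit 68719482112) (.ev (nat_lit 1501) (nat_lit
 8589934592) .dd))) (.br (nat_lit 10) (.ch (nat_lit 4) (.ev (nat_lit 1488) (nat_lit 8589935872) (.ev (nat_lit
 2624) (nat_lit 68719480832) .dd))) (.ch (nat_lit 10) (.ev (nat_lit 1488) (nat_lit 77309412608) (.ev (nat_lit
 1501) (nat_lit 4096) .dd))))))))) (.br (nat_lit 6) (.ch (nat_lit 4) (.ev (nat_lit 1184) (nat_lit 77981844736)
 (.nd (nat_lit 1472) (.br (nat_lit 4) (.br (nat_lit 1) (.ch (nat_lit 0) (.ev (nat_lit 1488) (nat_lit 16) (.ev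
 (nat_lit 1501) (nat_lit 4096) .dd))) (.br (nat_lit 3) (.ch (nat_lit 1) (.ev (nat_lit 1780) (nat_lit 16) (.ev
 (nat_lit 1789) (nat_lit 4096) .dd))) (.ch (nat_lit 3) (.ev (nat_lit 1716) (nat_lit 4096) (.ev (nat_lit 1725)
 (nat_lit 16) .dd))))) (.br (nat_lit 7) (.ch (nat_lit 4) (.ev (nat_lit 1636) (nat_lit 4096) (.ev (nat_lit 1645)
 (nat_lit 16) .dd))) (.br (nat_lit 9) (.ch (nat_lit 7) (.ev (nat_lit 2004) (nat_lit 16) (.ev (nat_lit 2013)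
 (nat_lit 4096) .dd))) (.ch (nat_lit 9) (.ev (nat_lit 1488) (nat_lit 4096) (.ev (nat_lit 1501) (nat_lit 16)
 .dd))))))))) (.ch (nat_lit 6) (.ev (nat_lit 1184) (nat_lit 69257659392) (.nd (nat_lit 1472) (.br (nat_lit 7)
 (.br (nat_lit 1) (.ch (nat_lit 0) (.ev (nat_lit 1488) (nat_lit 8724185088) (.ev (nat_lit 1860) (nat_lit 16)
 (.ev (nat_lit 2336) (nat_lit 4096) (.ev (nat_lit 2349) (nat_lit 256) .dd))))) (.br (nat_lit 5) (.ch (nat_lit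
 1) (.ev (nat_lit 1488) (nat_lit 134217744) (.ev (nat_lit 1860) (nat_lit 4096) (.ev (nat_lit 2004) (nat_lit
 256) (.nd (nat_lit 3168) (.br (nat_lit 11) (.ch (nat_lit 2) (.fin (nat_lit 576492088386339405))) (.ch (nat_lit
 11) (.ev (nat_lit 3184) (nat_lit 8589967360) .dd)))))))) (.ch (nat_lit 5) (.ev (nat_lit 1488) (nat_lit
 8589967616) (.ev (nat_lit 1540) (nat_lit 134217728) (.ev (nat_lit 1940) (nat_lit 16) (.ev (nat_lit 1949)
 (nat_lit 4096) .dd))))))) (.br (nat_lit 8) (.ch (nat_lit 7) (.ev (nat_lit 1488) (nat_lit 33024) (.ev (nat_lit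
 1552) (nat_lit 8724152320) (.ev (nat_lit 1664) (nat_lit 4112) .dd)))) (.br (nat_lit 12) (.ch (nat_lit 8) (.ev
 (nat_lit 1488) (nat_lit 4368) (.ev (nat_lit 1540) (nat_lit 134217728) (.ev (nat_lit 1780) (nat_lit 32768) (.ev
 (nat_lit 1789) (nat_lit 8589934592) .dd))))) (.ch (nat_lit 12) (.ev (nat_lit 1488) (nat_lit 8724152320) (.ev
 (nat_lit 1540) (nat_lit 4096) (.ev (nat_lit 1716) (nat_lit 16) (.fin (nat_lit 576456904017396268))))))))))))))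
 (.br (nat_lit 11) (.ch (nat_lit 9) (.ev (nat_lit 1184) (nat_lit 77310723072) (.nd (nat_lit 1472) (.br (nat_lit
 9) (.br (nat_lit 4) (.ch (nat_lit 1) (.ev (nat_lit 1488) (nat_lit 4096) (.ev (nat_lit 1636) (nat_lit 32768)
 (.ev (nat_lit 1860) (nat_lit 16) (.ev (nat_lit 1940) (nat_lit 134217728) (.nd (nat_lit 3168) (.br (nat_lit 11)
 (.ch (nat_lit 7) (.fin (nat_lit 576562456936530542))) (.ch (nat_lit 11) (.ev (nat_lit 3184) (nat_lit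
 536871168) .dd))))))))) (.br (nat_lit 8) (.ch (nat_lit 4) (.ev (nat_lit 1488) (nat_lit 671088640) (.ev
 (nat_lit 1540) (nat_lit 16) (.ev (nat_lit 1824) (nat_lit 4096) (.ev (nat_lit 2148) (nat_lit 32768) (.ev
 (nat_lit 2157) (nat_lit 256) .dd)))))) (.ch (nat_lit 8) (.ev (nat_lit 1488) (nat_lit 671093008) (.ev (nat_lit
 1501) (nat_lit 32768) .dd))))) (.br (nat_lit 10) (.ch (nat_lit 9) (.ev (nat_lit 1488) (nat_lit 671092752) (.ev
 (nat_lit 2004) (nat_lit 256) (.ev (nat_lit 2013) (nat_lit 32768) .dd)))) (.br (nat_lit 12) (.ch (nat_lit 10)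
 (.ev (nat_lit 1488) (nat_lit 134250752) (.ev (nat_lit 1716) (nat_lit 536875008) (.ev (nat_lit 1725) (nat_lit
 16) .dd)))) (.ch (nat_lit 12) (.ev (nat_lit 1488) (nat_lit 272) (.ev (nat_lit 1540) (nat_lit 134217728) (.ev
 (nat_lit 1664) (nat_lit 32768) (.fin (nat_lit 576447008431620662)))))))))))) (.br (nat_lit 12) (.ch (nat_lit
 11) (.ev (nat_lit 1184) (nat_lit 69390602496) (.ev (nat_lit 1414) (nat_lit 8589934592) (.nd (nat_lit 1472)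
 (.br (nat_lit 3) (.br (nat_lit 1) (.ch (nat_lit 0) (.ev (nat_lit 1488) (nat_lit 1040) (.ev (nat_lit 1716)
 (nat_lit 262144) (.ev (nat_lit 1725) (nat_lit 1048576) .dd)))) (.ch (nat_lit 1) (.ev (nat_lit 1488) (nat_lit
 1040) (.ev (nat_lit 1744) (nat_lit 1310720) .dd)))) (.br (nat_lit 4) (.ch (nat_lit 3) (.ev (nat_lit 1488)
 (nat_lit 1310736) (.ev (nat_lit 1501) (nat_lit 1024) .dd))) (.br (nat_lit 8) (.ch (nat_lit 4) (.ev (nat_lit
 1488) (nat_lit 1311744) (.ev (nat_lit 1501) (nat_lit 16) .dd))) (.ch (nat_lit 8) (.ev (nat_lit 1716) (nat_lit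
 1024) (.ev (nat_lit 1780) (nat_lit 1310720) (.ev (nat_lit 1789) (nat_lit 16) .dd))))))))))) (.ch (nat_lit 12)
 (.ev (nat_lit 1184) (nat_lit 69257659648) (.nd (nat_lit 1472) (.br (nat_lit 6) (.br (nat_lit 1) (.ch (nat_lit
 0) (.ev (nat_lit 1488) (nat_lit 8589967376) (.ev (nat_lit 1940) (nat_lit 4096) (.ev (nat_lit 1949) (nat_lit
 134217728) .dd)))) (.br (nat_lit 4) (.ch (nat_lit 1) (.ev (nat_lit 1488) (nat_lit 134217728) (.ev (nat_lit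
 2368) (nat_lit 4096) (.ev (nat_lit 2468) (nat_lit 32768) (.ev (nat_lit 2820) (nat_lit 16) (.ev (nat_lit 2829)
 (nat_lit 8589934592) .dd)))))) (.ch (nat_lit 4) (.ev (nat_lit 1488) (nat_lit 8724156432) (.ev (nat_lit 1501)
 (nat_lit 32768) .dd))))) (.br (nat_lit 7) (.ch (nat_lit 6) (.ev (nat_lit 1540) (nat_lit 32768) (.ev (nat_lit
 1636) (nat_lit 8589934592) (.ev (nat_lit 1824) (nat_lit 134217728) (.ev (nat_lit 2016) (nat_lit 16) (.ev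
 (nat_lit 2029) (nat_lit 4096) .dd)))))) (.br (nat_lit 11) (.ch (nat_lit 7) (.ev (nat_lit 1488) (nat_lit
 8589938704) (.ev (nat_lit 2852) (nat_lit 134217728) (.ev (nat_lit 2861) (nat_lit 32768) .dd)))) (.ch (nat_lit
 11) (.ev (nat_lit 1488) (nat_lit 4096) (.ev (nat_lit 1636) (nat_lit 32784) (.fin (nat_lit
 576430515748815398))))))))))))))))))))))) (.br (nat_lit 26) (.br (nat_lit 24) (.ch (nat_lit 22) (.ev (nat_lit
 52) (nat_lit 8763220000) (.ev (nat_lit 480) (nat_lit 70414015760) .dd))) (.ch (nat_lit 24) (.ev (nat_lit 52)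
 (nat_lit 1628438784) (.ev (nat_lit 192) (nat_lit 77548796976) .dd)))) (.br (nat_lit 28) (.ch (nat_lit 26) (.ev
 (nat_lit 52) (nat_lit 1712360480) (.ev (nat_lit 308) (nat_lit 8589934592) (.ev (nat_lit 436) (nat_lit 256)
 (.ev (nat_lit 564) (nat_lit 134217728) (.ev (nat_lit 928) (nat_lit 68740722704) .dd)))))) (.br (nat_lit 29)
 (.ch (nat_lit 28) (.ev (nat_lit 52) (nat_lit 1343504) (.ev (nat_lit 180) (nat_lit 8589934592) (.ev (nat_lit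
 404) (nat_lit 256) (.ev (nat_lit 820) (nat_lit 16777216) (.nd (nat_lit 1168) (.br (nat_lit 9) (.br (nat_lit 5)
 (.ch (nat_lit 4) (.ev (nat_lit 1184) (nat_lit 708838400) (.nd (nat_lit 1472) (.br (nat_lit 8) (.br (nat_lit 4)
 (.ch (nat_lit 1) (.ev (nat_lit 1488) (nat_lit 69860329472) (.ev (nat_lit 2752) (nat_lit 32) (.ev (nat_lit
 3076) (nat_lit 8192) (.ev (nat_lit 3085) (nat_lit 4096) .dd))))) (.br (nat_lit 6) (.ch (nat_lit 4) (.ev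
 (nat_lit 1488) (nat_lit 1140858912) (.ev (nat_lit 1552) (nat_lit 2048) (.ev (nat_lit 1636) (nat_lit
 68719476736) (.ev (nat_lit 1645) (nat_lit 4096) .dd))))) (.ch (nat_lit 6) (.ev (nat_lit 1488) (nat_lit
 68786587648) (.ev (nat_lit 1840) (nat_lit 32) (.ev (nat_lit 2052) (nat_lit 1073741824) (.nd (nat_lit 3168)
 (.br (nat_lit 12) (.ch (nat_lit 5) (.ev (nat_lit 3184) (nat_lit 12288) .dd)) (.ch (nat_lit 12) (.fin (nat_lit
 576454704980509241))))))))))) (.br (nat_lit 9) (.ch (nat_lit 8) (.ev (nat_lit 1488) (nat_lit 67115008) (.ev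
 (nat_lit 1728) (nat_lit 8192) (.ev (nat_lit 1860) (nat_lit 32) (.ev (nat_lit 1904) (nat_lit 68719476736) (.ev
 (nat_lit 1917) (nat_lit 1073741824) .dd)))))) (.br (nat_lit 12) (.ch (nat_lit 9) (.ev (nat_lit 1488) (nat_lit
 1073754112) (.ev (nat_lit 1540) (nat_lit 2048) (.ev (nat_lit 1968) (nat_lit 32) (.fin (nat_lit
 576483292294365710)))))) (.ch (nat_lit 12) (.ev (nat_lit 1488) (nat_lit 67115008) (.ev (nat_lit 2096) (nat_lit
 68719484928) (.ev (nat_lit 2352) (nat_lit 32) (.ev (nat_lit 2365) (nat_lit 1073741824) .dd))))))))))) (.br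
 (nat_lit 6) (.ch (nat_lit 5) (.ev (nat_lit 1184) (nat_lit 68753045536) (.ev (nat_lit 1430) (nat_lit 134217728)
 (.nd (nat_lit 1472) (.br (nat_lit 6) (.br (nat_lit 4) (.ch (nat_lit 1) (.ev (nat_lit 1488) (nat_lit
 1145044992) (.ev (nat_lit 1636) (nat_lit 1024) (.ev (nat_lit 1645) (nat_lit 536870912) .dd)))) (.br (nat_lit
 5) (.ch (nat_lit 4) (.ev (nat_lit 1488) (nat_lit 541066240) (.ev (nat_lit 1648) (nat_lit 1140850688) .dd)))
 (.ch (nat_lit 5) (.ev (nat_lit 1488) (nat_lit 1681916928) .dd)))) (.br (nat_lit 10) (.br (nat_lit 8) (.ch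
 (nat_lit 6) (.ev (nat_lit 1488) (nat_lit 603979776) (.ev (nat_lit 1780) (nat_lit 1024) (.ev (nat_lit 1872)
 (nat_lit 1073741824) (.ev (nat_lit 1885) (nat_lit 4194304) .dd))))) (.ch (nat_lit 8) (.ev (nat_lit 1488)
 (nat_lit 1610613760) (.ev (nat_lit 1636) (nat_lit 4194304) (.ev (nat_lit 1645) (nat_lit 67108864) .dd)))))
 (.br (nat_lit 12) (.ch (nat_lit 10) (.ev (nat_lit 1488) (nat_lit 1077936128) (.ev (nat_lit 1716) (nat_lit
 1024) (.fin (nat_lit 576562457314017842))))) (.ch (nat_lit 12) (.ev (nat_lit 1488) (nat_lit 67109888) (.ev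
 (nat_lit 1872) (nat_lit 4194304) (.fin (nat_lit 576475595733942851)))))))))))) (.ch (nat_lit 6) (.ev (nat_lit
 1184) (nat_lit 69327653920) (.nd (nat_lit 1472) (.br (nat_lit 5) (.br (nat_lit 3) (.ch (nat_lit 1) (.ev
 (nat_lit 1488) (nat_lit 33554432) (.ev (nat_lit 1940) (nat_lit 4096) (.ev (nat_lit 2004) (nat_lit 8192) (.ev
 (nat_lit 2404) (nat_lit 1073741824) (.ev (nat_lit 2413) (nat_lit 134217728) .dd)))))) (.br (nat_lit 4) (.ch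
 (nat_lit 3) (.ev (nat_lit 1488) (nat_lit 33566720) (.ev (nat_lit 1716) (nat_lit 1073741824) (.ev (nat_lit
 1725) (nat_lit 134217728) .dd)))) (.ch (nat_lit 4) (.ev (nat_lit 1488) (nat_lit 1107304448) (.ev (nat_lit
 2304) (nat_lit 134217728) (.ev (nat_lit 2317) (nat_lit 4096) .dd)))))) (.br (nat_lit 8) (.ch (nat_lit 5) (.ev
 (nat_lit 1488) (nat_lit 8192) (.ev (nat_lit 1540) (nat_lit 4096) (.ev (nat_lit 1636) (nat_lit 33554432) (.ev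
 (nat_lit 1840) (nat_lit 134217728) (.ev (nat_lit 1853) (nat_lit 1073741824) .dd)))))) (.br (nat_lit 10) (.ch
 (nat_lit 8) (.ev (nat_lit 1488) (nat_lit 33562624) (.ev (nat_lit 2004) (nat_lit 1073741824) (.nd (nat_lit
 3168) (.br (nat_lit 12) (.ch (nat_lit 2) (.ev (nat_lit 3184) (nat_lit 4096) (.ev (nat_lit 3197) (nat_lit
 134217728) .dd))) (.ch (nat_lit 12) (.fin (nat_lit 576440411368145487)))))))) (.ch (nat_lit 10) (.ev (nat_lit
 1488) (nat_lit 167776256) (.ev (nat_lit 1504) (nat_lit 8192) (.ev (nat_lit 1517) (nat_lit 1073741824)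
 .dd)))))))))))) (.br (nat_lit 11) (.ch (nat_lit 9) (.ev (nat_lit 1184) (nat_lit 1715477536) (.nd (nat_lit
 1472) (.br (nat_lit 4) (.br (nat_lit 2) (.ch (nat_lit 1) (.ev (nat_lit 1716) (nat_lit 68719476736) (.ev
 (nat_lit 1744) (nat_lit 8192) (.ev (nat_lit 1757) (nat_lit 134217728) .dd)))) (.ch (nat_lit 2) (.ev (nat_lit
 1488) (nat_lit 134217728) (.ev (nat_lit 1540) (nat_lit 8192) (.ev (nat_lit 1549) (nat_lit 68719476736)
 .dd))))) (.br (nat_lit 9) (.ch (nat_lit 4) (.ev (nat_lit 1488) (nat_lit 134217728) (.ev (nat_lit 1540)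
 (nat_lit 8192) (.ev (nat_lit 1549) (nat_lit 68719476736) .dd)))) (.br (nat_lit 11) (.ch (nat_lit 9) (.ev
 (nat_lit 1488) (nat_lit 68719484928) (.ev (nat_lit 1501) (nat_lit 134217728) .dd))) (.ch (nat_lit 11) (.ev
 (nat_lit 1488) (nat_lit 68853702656) .dd)))))))) (.br (nat_lit 12) (.ch (nat_lit 11) (.ev (nat_lit 1184)
 (nat_lit 69289912320) (.ev (nat_lit 1204) (nat_lit 134217728) (.nd (nat_lit 1472) (.br (nat_lit 4) (.br
 (nat_lit 1) (.ch (nat_lit 0) (.ev (nat_lit 1488) (nat_lit 71307296) (.ev (nat_lit 1636) (nat_lit 1024) (.ev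
 (nat_lit 1645) (nat_lit 1073741824) .dd)))) (.br (nat_lit 3) (.ch (nat_lit 1) (.ev (nat_lit 1488) (nat_lit
 5152) (.ev (nat_lit 1540) (nat_lit 1073741824) (.ev (nat_lit 1716) (nat_lit 4194304) (.ev (nat_lit 1725)
 (nat_lit 67108864) .dd))))) (.ch (nat_lit 3) (.ev (nat_lit 1488) (nat_lit 4195328) (.ev (nat_lit 1540)
 (nat_lit 4096) (.ev (nat_lit 2052) (nat_lit 1073741824) (.fin (nat_lit 576478894262534698)))))))) (.br
 (nat_lit 5) (.ch (nat_lit 4) (.ev (nat_lit 1488) (nat_lit 71307296) (.ev (nat_lit 1552) (nat_lit 1024) (.ev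
 (nat_lit 1565) (nat_lit 1073741824) .dd)))) (.br (nat_lit 6) (.ch (nat_lit 5) (.ev (nat_lit 1488) (nat_lit
 1056) (.ev (nat_lit 1780) (nat_lit 4096) (.ev (nat_lit 1860) (nat_lit 1073741824) (.ev (nat_lit 1952) (nat_lit
 67108864) (.ev (nat_lit 1965) (nat_lit 4194304) .dd)))))) (.ch (nat_lit 6) (.ev (nat_lit 1488) (nat_lit
 1140854816) (.ev (nat_lit 1540) (nat_lit 1024) (.ev (nat_lit 1549) (nat_lit 4194304) .dd))))))))))) (.ch
 (nat_lit 12) (.ev (nat_lit 1184) (nat_lit 69357021184) (.nd (nat_lit 1472) (.br (nat_lit 5) (.br (nat_lit 1)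
 (.ch (nat_lit 0) (.ev (nat_lit 1488) (nat_lit 1207960576) (.ev (nat_lit 2116) (nat_lit 4096) (.ev (nat_lit
 2724) (nat_lit 32) (.ev (nat_lit 2733) (nat_lit 4194304) .dd))))) (.br (nat_lit 4) (.ch (nat_lit 1) (.ev
 (nat_lit 1488) (nat_lit 1073745920) (.ev (nat_lit 1716) (nat_lit 4194304) (.ev (nat_lit 1968) (nat_lit 32)
 (.ev (nat_lit 2004) (nat_lit 134217728) (.ev (nat_lit 2013) (nat_lit 1024) .dd)))))) (.ch (nat_lit 4) (.ev
 (nat_lit 1488) (nat_lit 4096) (.ev (nat_lit 1540) (nat_lit 4195328) (.ev (nat_lit 1952) (nat_lit 134217728)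
 (.ev (nat_lit 2336) (nat_lit 1073741824) (.ev (nat_lit 2349) (nat_lit 32) .dd)))))))) (.br (nat_lit 6) (.ch
 (nat_lit 5) (.ev (nat_lit 1488) (nat_lit 138416128) (.ev (nat_lit 1540) (nat_lit 1073742848) (.ev (nat_lit
 1549) (nat_lit 32) .dd)))) (.br (nat_lit 7) (.ch (nat_lit 6) (.ev (nat_lit 1488) (nat_lit 1207959584) (.ev
 (nat_lit 1520) (nat_lit 4096) (.fin (nat_lit 576485491305038417))))) (.ch (nat_lit 7) (.ev (nat_lit 1488)
 (nat_lit 5120) (.ev (nat_lit 1840) (nat_lit 32) (.ev (nat_lit 2724) (nat_lit 1073741824) (.nd (nat_lit 3168)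
 (.br (nat_lit 10) (.ch (nat_lit 3) (.fin (nat_lit 576448107909693994))) (.ch (nat_lit 10) (.ev (nat_lit 3184)
 (nat_lit 4194304) (.ev (nat_lit 3197) (nat_lit 134217728) .dd)))))))))))))))))))))))) (.ch (nat_lit 29) (.ev
 (nat_lit 52) (nat_lit 9160659216) (.ev (nat_lit 244) (nat_lit 134217728) (.ev (nat_lit 372) (nat_lit 32) (.ev
 (nat_lit 532) (nat_lit 68719476736) (.ev (nat_lit 800) (nat_lit 1162882048) .dd))))))))))) (.br (nat_lit 42)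
 (.br (nat_lit 38) (.br (nat_lit 36) (.br (nat_lit 33) (.ch (nat_lit 31) (.ev (nat_lit 52) (nat_lit
 69877144592) (.ev (nat_lit 404) (nat_lit 8192) (.ev (nat_lit 500) (nat_lit 536870912) (.ev (nat_lit 916)
 (nat_lit 8589934592) (.ev (nat_lit 1136) (nat_lit 4194304) (.nd (nat_lit 1168) (.br (nat_lit 9) (.br (nat_lit
 6) (.ch (nat_lit 5) (.ev (nat_lit 1184) (nat_lit 167772192) (.ev (nat_lit 1204) (nat_lit 256) (.nd (nat_lit
 1472) (.br (nat_lit 4) (.br (nat_lit 1) (.ch (nat_lit 0) (.ev (nat_lit 1488) (nat_lit 1310720) .dd)) (.br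
 (nat_lit 3) (.ch (nat_lit 1) (.ev (nat_lit 1488) (nat_lit 1310720) .dd)) (.ch (nat_lit 3) (.ev (nat_lit 1488)
 (nat_lit 262144) (.ev (nat_lit 1501) (nat_lit 1048576) .dd))))) (.br (nat_lit 5) (.ch (nat_lit 4) (.ev
 (nat_lit 1488) (nat_lit 262144) (.ev (nat_lit 1501) (nat_lit 1048576) .dd))) (.br (nat_lit 12) (.ch (nat_lit
 5) (.ev (nat_lit 1780) (nat_lit 262144) (.ev (nat_lit 1789) (nat_lit 1048576) .dd))) (.ch (nat_lit 12) (.ev
 (nat_lit 1488) (nat_lit 1310720) .dd))))))))) (.br (nat_lit 8) (.ch (nat_lit 6) (.ev (nat_lit 1184) (nat_lit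
 169082912) (.ev (nat_lit 1197) (nat_lit 256) .dd))) (.ch (nat_lit 8) (.ev (nat_lit 1184) (nat_lit 262400) (.nd
 (nat_lit 1472) (.br (nat_lit 9) (.br (nat_lit 2) (.ch (nat_lit 1) (.ev (nat_lit 1648) (nat_lit 33554432) (.ev
 (nat_lit 1716) (nat_lit 134217728) (.ev (nat_lit 1824) (nat_lit 32) (.ev (nat_lit 1837) (nat_lit 1048576)
 .dd))))) (.br (nat_lit 8) (.ch (nat_lit 2) (.ev (nat_lit 1488) (nat_lit 167772192) (.ev (nat_lit 1501)
 (nat_lit 1048576) .dd))) (.ch (nat_lit 8) (.ev (nat_lit 1488) (nat_lit 134217760) (.ev (nat_lit 1636) (nat_lit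
 1048576) (.ev (nat_lit 1645) (nat_lit 33554432) .dd)))))) (.br (nat_lit 11) (.ch (nat_lit 9) (.ev (nat_lit
 1488) (nat_lit 168820768) .dd)) (.br (nat_lit 12) (.ch (nat_lit 11) (.ev (nat_lit 1488) (nat_lit 168820768)
 .dd)) (.ch (nat_lit 12) (.ev (nat_lit 1488) (nat_lit 135266336) (.ev (nat_lit 1501) (nat_lit 33554432)
 .dd))))))))))) (.br (nat_lit 11) (.ch (nat_lit 9) (.ev (nat_lit 1184) (nat_lit 34603296) (.nd (nat_lit 1472)
 (.br (nat_lit 11) (.br (nat_lit 8) (.ch (nat_lit 4) (.ev (nat_lit 1488) (nat_lit 134479872) .dd)) (.ch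
 (nat_lit 8) (.ev (nat_lit 1488) (nat_lit 262144) (.ev (nat_lit 1501) (nat_lit 134217728) .dd)))) (.br (nat_lit
 12) (.ch (nat_lit 11) (.ev (nat_lit 1488) (nat_lit 134217728) (.ev (nat_lit 1501) (nat_lit 262144) .dd))) (.ch
 (nat_lit 12) (.fin (nat_lit 576474496226509374)))))))) (.br (nat_lit 12) (.ch (nat_lit 11) (.ev (nat_lit 1184)
 (nat_lit 33554688) (.nd (nat_lit 1472) (.br (nat_lit 5) (.br (nat_lit 3) (.ch (nat_lit 1) (.ev (nat_lit 1488)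
 (nat_lit 262144) (.ev (nat_lit 1680) (nat_lit 1048576) (.ev (nat_lit 1728) (nat_lit 134217728) (.ev (nat_lit
 1741) (nat_lit 32) .dd))))) (.br (nat_lit 4) (.ch (nat_lit 3) (.ev (nat_lit 1488) (nat_lit 135528448) (.ev
 (nat_lit 1501) (nat_lit 32) .dd))) (.ch (nat_lit 4) (.ev (nat_lit 1488) (nat_lit 135528480) .dd)))) (.br
 (nat_lit 6) (.ch (nat_lit 5) (.ev (nat_lit 1488) (nat_lit 135528448) (.ev (nat_lit 1501) (nat_lit 32) .dd)))
 (.br (nat_lit 8) (.ch (nat_lit 6) (.ev (nat_lit 1488) (nat_lit 134479904) (.ev (nat_lit 1501) (nat_lit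
 1048576) .dd))) (.ch (nat_lit 8) (.ev (nat_lit 1488) (nat_lit 135266336) (.ev (nat_lit 1501) (nat_lit 262144)
 .dd))))))))) (.ch (nat_lit 12) (.ev (nat_lit 1184) (nat_lit 135528448) (.nd (nat_lit 1472) (.br (nat_lit 7)
 (.br (nat_lit 5) (.ch (nat_lit 1) (.ev (nat_lit 1488) (nat_lit 33554432) (.ev (nat_lit 1808) (nat_lit 256)
 (.ev (nat_lit 1821) (nat_lit 32) .dd)))) (.br (nat_lit 6) (.ch (nat_lit 5) (.ev (nat_lit 1488) (nat_lit 288)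
 (.ev (nat_lit 1501) (nat_lit 33554432) .dd))) (.ch (nat_lit 6) (.ev (nat_lit 1860) (nat_lit 33554688) (.ev
 (nat_lit 1869) (nat_lit 32) .dd))))) (.br (nat_lit 9) (.ch (nat_lit 7) (.ev (nat_lit 1540) (nat_lit 32) (.ev
 (nat_lit 1780) (nat_lit 33554432) (.ev (nat_lit 1789) (nat_lit 256) .dd)))) (.br (nat_lit 12) (.ch (nat_lit 9)
 (.ev (nat_lit 1488) (nat_lit 33554688) (.ev (nat_lit 1501) (nat_lit 32) .dd))) (.ch (nat_lit 12) (.ev (nat_lit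
 1488) (nat_lit 33554432) (.ev (nat_lit 1860) (nat_lit 256) (.ev (nat_lit 1869) (nat_lit 32)
 .dd)))))))))))))))))))) (.ch (nat_lit 33) (.ev (nat_lit 52) (nat_lit 10351575040) (.ev (nat_lit 212) (nat_lit
 32) (.ev (nat_lit 308) (nat_lit 4194304) (.ev (nat_lit 512) (nat_lit 68821466384) .dd)))))) (.br (nat_lit 37)
 (.ch (nat_lit 36) (.ev (nat_lit 52) (nat_lit 1145090096) (.ev (nat_lit 116) (nat_lit 134217728) (.ev (nat_lit
 724) (nat_lit 33554432) (.nd (nat_lit 1168) (.br (nat_lit 5) (.br (nat_lit 1) (.ch (nat_lit 0) (.ev (nat_lit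
 1184) (nat_lit 68720790784) (.nd (nat_lit 1472) (.br (nat_lit 5) (.br (nat_lit 1) (.ch (nat_lit 0) (.ev
 (nat_lit 1488) (nat_lit 8606711808) (.ev (nat_lit 1501) (nat_lit 536870912) .dd))) (.br (nat_lit 4) (.ch
 (nat_lit 1) (.ev (nat_lit 1488) (nat_lit 9143582720) .dd)) (.ch (nat_lit 4) (.ev (nat_lit 1488) (nat_lit
 8589934592) (.nd (nat_lit 3168) (.br (nat_lit 3) (.ch (nat_lit 1) (.fin (nat_lit 576492088402068062))) (.ch
 (nat_lit 3) (.ev (nat_lit 3184) (nat_lit 553648128) .dd)))))))) (.br (nat_lit 9) (.ch (nat_lit 5) (.ev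
 (nat_lit 1488) (nat_lit 9126805504) (.ev (nat_lit 1501) (nat_lit 16777216) .dd))) (.br (nat_lit 11) (.ch
 (nat_lit 9) (.ev (nat_lit 1488) (nat_lit 16777216) (.ev (nat_lit 1860) (nat_lit 8589934592) (.ev (nat_lit
 1869) (nat_lit 536870912) .dd)))) (.ch (nat_lit 11) (.ev (nat_lit 1488) (nat_lit 9126805504) (.ev (nat_lit
 1501) (nat_lit 16777216) .dd))))))))) (.br (nat_lit 4) (.ch (nat_lit 1) (.ev (nat_lit 1184) (nat_lit
 8591246336) (.nd (nat_lit 1472) (.br (nat_lit 6) (.br (nat_lit 1) (.ch (nat_lit 0) (.ev (nat_lit 1488)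
 (nat_lit 69273127168) .dd)) (.br (nat_lit 2) (.ch (nat_lit 1) (.ev (nat_lit 1488) (nat_lit 2304) (.ev (nat_lit
 1540) (nat_lit 68719476736) (.ev (nat_lit 1780) (nat_lit 16777216) (.ev (nat_lit 1789) (nat_lit 536870912)
 .dd))))) (.ch (nat_lit 2) (.ev (nat_lit 1488) (nat_lit 553650432) (.ev (nat_lit 1501) (nat_lit 68719476736)
 .dd))))) (.br (nat_lit 7) (.ch (nat_lit 6) (.ev (nat_lit 1488) (nat_lit 68736256000) (.ev (nat_lit 1636)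
 (nat_lit 256) (.ev (nat_lit 1645) (nat_lit 536870912) .dd)))) (.br (nat_lit 8) (.ch (nat_lit 7) (.ev (nat_lit
 1488) (nat_lit 69256347648) (.ev (nat_lit 1540) (nat_lit 256) (.nd (nat_lit 3168) (.br (nat_lit 9) (.ch
 (nat_lit 1) (.ev (nat_lit 3184) (nat_lit 16777216) (.ev (nat_lit 3197) (nat_lit 2048) .dd))) (.ch (nat_lit 9)
 (.fin (nat_lit 576430515593626322)))))))) (.ch (nat_lit 8) (.ev (nat_lit 1488) (nat_lit 68719478784) (.ev
 (nat_lit 1540) (nat_lit 536871168) (.ev (nat_lit 1549) (nat_lit 16777216) .dd)))))))))) (.ch (nat_lit 4) (.ev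
 (nat_lit 1184) (nat_lit 9144631552) (.nd (nat_lit 1472) (.br (nat_lit 7) (.br (nat_lit 4) (.ch (nat_lit 0)
 (.ev (nat_lit 1488) (nat_lit 68719739904) (.ev (nat_lit 1501) (nat_lit 2048) .dd))) (.br (nat_lit 6) (.ch
 (nat_lit 4) (.ev (nat_lit 1488) (nat_lit 262144) (.ev (nat_lit 1648) (nat_lit 2048) (.ev (nat_lit 1716)
 (nat_lit 68719476736) (.ev (nat_lit 1725) (nat_lit 1024) .dd))))) (.ch (nat_lit 6) (.ev (nat_lit 1488)
 (nat_lit 68719740928) (.ev (nat_lit 1501) (nat_lit 1024) .dd))))) (.br (nat_lit 8) (.ch (nat_lit 7) (.ev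
 (nat_lit 1488) (nat_lit 2048) (.ev (nat_lit 2148) (nat_lit 1024) (.nd (nat_lit 3200) (.ch (nat_lit 5) (.nd
 (nat_lit 3233) (.ch (nat_lit 25) (.nd (nat_lit 3264) (.br (nat_lit 11) (.ch (nat_lit 4) (.ev (nat_lit 3280)
 (nat_lit 68719738880) .dd)) (.ch (nat_lit 11) (.fin (nat_lit 576448107922276878)))))))))))) (.br (nat_lit 9)
 (.ch (nat_lit 8) (.ev (nat_lit 1488) (nat_lit 265216) (.ev (nat_lit 1501) (nat_lit 68719476736) .dd))) (.ch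
 (nat_lit 9) (.ev (nat_lit 1488) (nat_lit 68719741952) .dd)))))))))) (.br (nat_lit 9) (.br (nat_lit 6) (.ch
 (nat_lit 5) (.ev (nat_lit 1184) (nat_lit 77326190848) (.nd (nat_lit 1472) (.br (nat_lit 5) (.br (nat_lit 3)
 (.ch (nat_lit 0) (.ev (nat_lit 1488) (nat_lit 263168) (.ev (nat_lit 1636) (nat_lit 536870912) (.ev (nat_lit
 1645) (nat_lit 1048576) .dd)))) (.br (nat_lit 4) (.ch (nat_lit 3) (.ev (nat_lit 1488) (nat_lit 1311744) (.ev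
 (nat_lit 1501) (nat_lit 536870912) .dd))) (.ch (nat_lit 4) (.ev (nat_lit 1488) (nat_lit 538182656) .dd))))
 (.br (nat_lit 10) (.br (nat_lit 8) (.ch (nat_lit 5) (.ev (nat_lit 1488) (nat_lit 536871936) (.ev (nat_lit
 1636) (nat_lit 262144) (.ev (nat_lit 1645) (nat_lit 1048576) .dd)))) (.ch (nat_lit 8) (.ev (nat_lit 1488)
 (nat_lit 1310720) (.ev (nat_lit 1860) (nat_lit 1024) (.ev (nat_lit 1869) (nat_lit 536870912) .dd))))) (.br
 (nat_lit 12) (.ch (nat_lit 10) (.ev (nat_lit 1488) (nat_lit 1048576) (.ev (nat_lit 1540) (nat_lit 262144) (.ev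
 (nat_lit 1636) (nat_lit 1024) (.ev (nat_lit 1645) (nat_lit 536870912) .dd))))) (.ch (nat_lit 12) (.ev (nat_lit
 1488) (nat_lit 1048576) (.ev (nat_lit 1540) (nat_lit 262144) (.ev (nat_lit 1780) (nat_lit 1024) (.ev (nat_lit
 1789) (nat_lit 536870912) .dd))))))))))) (.ch (nat_lit 6) (.ev (nat_lit 1184) (nat_lit 68736519168) (.nd
 (nat_lit 1472) (.br (nat_lit 5) (.br (nat_lit 3) (.ch (nat_lit 1) (.ev (nat_lit 1488) (nat_lit 1048576) (.ev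
 (nat_lit 1680) (nat_lit 8589934592) (.ev (nat_lit 1940) (nat_lit 536870912) (.ev (nat_lit 1949) (nat_lit 256)
 .dd))))) (.br (nat_lit 4) (.ch (nat_lit 3) (.ev (nat_lit 1488) (nat_lit 1048576) (.ev (nat_lit 1540) (nat_lit
 8589934592) (.ev (nat_lit 2052) (nat_lit 536870912) (.ev (nat_lit 2061) (nat_lit 256) .dd))))) (.ch (nat_lit
 4) (.ev (nat_lit 1488) (nat_lit 8590983424) (.ev (nat_lit 1501) (nat_lit 536870912) .dd))))) (.br (nat_lit 7)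
 (.ch (nat_lit 5) (.ev (nat_lit 1488) (nat_lit 9126805760) (.ev (nat_lit 1501) (nat_lit 1048576) .dd))) (.br
 (nat_lit 12) (.ch (nat_lit 7) (.ev (nat_lit 1488) (nat_lit 8590983424) (.ev (nat_lit 1501) (nat_lit 536870912)
 .dd))) (.ch (nat_lit 12) (.ev (nat_lit 1488) (nat_lit 537919488) (.ev (nat_lit 1552) (nat_lit 8589934848)
 .dd)))))))))) (.br (nat_lit 11) (.ch (nat_lit 9) (.ev (nat_lit 1184) (nat_lit 8608023552) (.nd (nat_lit 1472)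
 (.br (nat_lit 9) (.br (nat_lit 3) (.ch (nat_lit 2) (.ev (nat_lit 1488) (nat_lit 536870912) (.ev (nat_lit 1540)
 (nat_lit 68719478784) (.ev (nat_lit 1549) (nat_lit 256) .dd)))) (.br (nat_lit 8) (.ch (nat_lit 3) (.ev
 (nat_lit 1488) (nat_lit 68719478784) (.ev (nat_lit 1552) (nat_lit 256) (.ev (nat_lit 1565) (nat_lit 536870912)
 .dd)))) (.ch (nat_lit 8) (.ev (nat_lit 1488) (nat_lit 68719479040) (.ev (nat_lit 1501) (nat_lit 536870912)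
 .dd))))) (.br (nat_lit 11) (.br (nat_lit 10) (.ch (nat_lit 9) (.ev (nat_lit 1488) (nat_lit 69256347648) (.fin
 (nat_lit 576443709873668670)))) (.ch (nat_lit 10) (.ev (nat_lit 1488) (nat_lit 68719479040) (.ev (nat_lit
 1501) (nat_lit 536870912) .dd)))) (.br (nat_lit 12) (.ch (nat_lit 11) (.ev (nat_lit 1488) (nat_lit 2304) (.ev
 (nat_lit 1504) (nat_lit 68719476736) (.ev (nat_lit 1517) (nat_lit 536870912) .dd)))) (.ch (nat_lit 12) (.ev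
 (nat_lit 1488) (nat_lit 256) (.ev (nat_lit 1540) (nat_lit 68719476736) (.ev (nat_lit 1552) (nat_lit 2048) (.ev
 (nat_lit 1565) (nat_lit 536870912) .dd))))))))))) (.ch (nat_lit 11) (.ev (nat_lit 1184) (nat_lit 69256349952)
 (.nd (nat_lit 1472) (.br (nat_lit 3) (.br (nat_lit 1) (.ch (nat_lit 0) (.ev (nat_lit 1488) (nat_lit
 8606712832) (.ev (nat_lit 1792) (nat_lit 1048576) (.ev (nat_lit 1805) (nat_lit 262144) .dd)))) (.br (nat_lit
 2) (.ch (nat_lit 1) (.ev (nat_lit 1488) (nat_lit 1311744) (.ev (nat_lit 1940) (nat_lit 8589934592) (.ev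
 (nat_lit 1949) (nat_lit 16777216) .dd)))) (.ch (nat_lit 2) (.ev (nat_lit 1488) (nat_lit 17826816) (.ev
 (nat_lit 1540) (nat_lit 262144) (.ev (nat_lit 1549) (nat_lit 8589934592) .dd)))))) (.br (nat_lit 4) (.ch
 (nat_lit 3) (.ev (nat_lit 1488) (nat_lit 1310720) (.ev (nat_lit 2004) (nat_lit 16777216) (.nd (nat_lit 3168)
 (.br (nat_lit 3) (.ch (nat_lit 0) (.ev (nat_lit 3184) (nat_lit 8589934592) (.ev (nat_lit 3197) (nat_lit 1024)
 .dd))) (.ch (nat_lit 3) (.fin (nat_lit 576479993769968214)))))))) (.br (nat_lit 5) (.ch (nat_lit 4) (.ev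
 (nat_lit 1488) (nat_lit 18088960) (.ev (nat_lit 1501) (nat_lit 8589934592) .dd))) (.ch (nat_lit 5) (.ev
 (nat_lit 1488) (nat_lit 1311744) (.ev (nat_lit 1636) (nat_lit 16777216) (.ev (nat_lit 1645) (nat_lit
 8589934592) .dd)))))))))))))))))) (.ch (nat_lit 37) (.ev (nat_lit 52) (nat_lit 9684662304) (.ev (nat_lit 84)
 (nat_lit 262144) (.ev (nat_lit 212) (nat_lit 68719476736) (.ev (nat_lit 736) (nat_lit 772834576) .dd)))))))
 (.br (nat_lit 40) (.br (nat_lit 39) (.ch (nat_lit 38) (.ev (nat_lit 52) (nat_lit 77397756176) (.ev (nat_lit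
 244) (nat_lit 1024) (.ev (nat_lit 340) (nat_lit 32768) (.ev (nat_lit 436) (nat_lit 1048576) (.ev (nat_lit 884)
 (nat_lit 8192) (.nd (nat_lit 1168) (.br (nat_lit 6) (.br (nat_lit 5) (.ch (nat_lit 0) (.ev (nat_lit 1184)
 (nat_lit 134221856) (.nd (nat_lit 1472) (.br (nat_lit 8) (.br (nat_lit 2) (.ch (nat_lit 0) (.ev (nat_lit 1488)
 (nat_lit 536870912) (.ev (nat_lit 1540) (nat_lit 1073741824) (.ev (nat_lit 1549) (nat_lit 33554432) .dd))))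
 (.ch (nat_lit 2) (.ev (nat_lit 1540) (nat_lit 33554432) (.ev (nat_lit 1716) (nat_lit 1073741824) (.ev (nat_lit
 1725) (nat_lit 536870912) .dd))))) (.br (nat_lit 9) (.ch (nat_lit 8) (.ev (nat_lit 1488) (nat_lit 1107296256)
 (.ev (nat_lit 1501) (nat_lit 536870912) .dd))) (.br (nat_lit 11) (.ch (nat_lit 9) (.ev (nat_lit 1488) (nat_lit
 33554432) (.ev (nat_lit 2064) (nat_lit 536870912) (.ev (nat_lit 2077) (nat_lit 1073741824) .dd)))) (.ch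
 (nat_lit 11) (.ev (nat_lit 1488) (nat_lit 536870912) (.ev (nat_lit 1636) (nat_lit 33554432) (.ev (nat_lit
 1645) (nat_lit 1073741824) .dd)))))))))) (.ch (nat_lit 5) (.ev (nat_lit 1184) (nat_lit 167776256) (.nd
 (nat_lit 1472) (.br (nat_lit 8) (.br (nat_lit 4) (.ch (nat_lit 0) (.ev (nat_lit 1488) (nat_lit 536870912) (.ev
 (nat_lit 2724) (nat_lit 32) (.ev (nat_lit 2733) (nat_lit 1073741824) .dd)))) (.br (nat_lit 5) (.ch (nat_lit 4)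
 (.ev (nat_lit 1488) (nat_lit 536870944) (.ev (nat_lit 1501) (nat_lit 1073741824) .dd))) (.ch (nat_lit 5) (.ev
 (nat_lit 1488) (nat_lit 1610612768) .dd)))) (.br (nat_lit 10) (.ch (nat_lit 8) (.ev (nat_lit 1488) (nat_lit
 32) (.ev (nat_lit 1540) (nat_lit 536870912) (.ev (nat_lit 1549) (nat_lit 1073741824) .dd)))) (.br (nat_lit 12)
 (.ch (nat_lit 10) (.ev (nat_lit 1488) (nat_lit 1610612736) (.ev (nat_lit 1501) (nat_lit 32) .dd))) (.ch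
 (nat_lit 12) (.ev (nat_lit 1488) (nat_lit 1073741856) (.ev (nat_lit 1501) (nat_lit 536870912) .dd))))))))))
 (.br (nat_lit 9) (.ch (nat_lit 6) (.ev (nat_lit 1184) (nat_lit 704643104) (.nd (nat_lit 1472) (.br (nat_lit 4)
 (.br (nat_lit 1) (.ch (nat_lit 0) (.ev (nat_lit 1488) (nat_lit 1073741824) (.ev (nat_lit 1501) (nat_lit 4096)
 .dd))) (.ch (nat_lit 1) (.ev (nat_lit 1488) (nat_lit 4096) (.ev (nat_lit 1501) (nat_lit 1073741824) .dd))))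
 (.br (nat_lit 10) (.ch (nat_lit 4) (.fin (nat_lit 576461302059713086))) (.br (nat_lit 12) (.ch (nat_lit 10)
 (.ev (nat_lit 1488) (nat_lit 4096) (.ev (nat_lit 1501) (nat_lit 1073741824) .dd))) (.ch (nat_lit 12) (.ev
 (nat_lit 1488) (nat_lit 1073741824) (.ev (nat_lit 1501) (nat_lit 4096) .dd))))))))) (.br (nat_lit 11) (.ch
 (nat_lit 9) (.ev (nat_lit 1184) (nat_lit 1644167200) (.nd (nat_lit 1472) (.br (nat_lit 10) (.br (nat_lit 9)
 (.ch (nat_lit 2) (.ev (nat_lit 1488) (nat_lit 4096) (.ev (nat_lit 1501) (nat_lit 134217728) .dd))) (.ch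
 (nat_lit 9) (.ev (nat_lit 2788) (nat_lit 4096) (.ev (nat_lit 2797) (nat_lit 134217728) .dd)))) (.br (nat_lit
 11) (.ch (nat_lit 10) (.ev (nat_lit 1488) (nat_lit 134217728) (.ev (nat_lit 1501) (nat_lit 4096) .dd))) (.br
 (nat_lit 12) (.ch (nat_lit 11) (.ev (nat_lit 1488) (nat_lit 134217728) (.ev (nat_lit 1501) (nat_lit 4096)
 .dd))) (.ch (nat_lit 12) (.ev (nat_lit 1488) (nat_lit 4096) (.ev (nat_lit 1501) (nat_lit 134217728)
 .dd))))))))) (.ch (nat_lit 11) (.ev (nat_lit 1184) (nat_lit 1644167200) (.nd (nat_lit 1472) (.br (nat_lit 5)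
 (.br (nat_lit 3) (.ch (nat_lit 0) (.ev (nat_lit 1636) (nat_lit 134217728) (.ev (nat_lit 1645) (nat_lit 4096)
 .dd))) (.br (nat_lit 4) (.ch (nat_lit 3) (.ev (nat_lit 1488) (nat_lit 4096) (.ev (nat_lit 1501) (nat_lit
 134217728) .dd))) (.ch (nat_lit 4) (.ev (nat_lit 1488) (nat_lit 4096) (.ev (nat_lit 1501) (nat_lit 134217728)
 .dd))))) (.br (nat_lit 6) (.ch (nat_lit 5) (.ev (nat_lit 2084) (nat_lit 4096) (.ev (nat_lit 2093) (nat_lit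
 134217728) .dd))) (.br (nat_lit 12) (.ch (nat_lit 6) (.ev (nat_lit 1488) (nat_lit 134217728) (.ev (nat_lit
 1501) (nat_lit 4096) .dd))) (.ch (nat_lit 12) (.ev (nat_lit 1540) (nat_lit 134217728) (.ev (nat_lit 1549)
 (nat_lit 4096) .dd))))))))))))))))))) (.ch (nat_lit 39) (.ev (nat_lit 52) (nat_lit 69474719744) (.ev (nat_lit
 148) (nat_lit 8589934592) (.ev (nat_lit 180) (nat_lit 1024) (.ev (nat_lit 788) (nat_lit 4194304) (.nd (nat_lit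
 1168) (.br (nat_lit 6) (.br (nat_lit 4) (.ch (nat_lit 1) (.ev (nat_lit 1184) (nat_lit 34636064) (.nd (nat_lit
 1472) (.br (nat_lit 6) (.br (nat_lit 3) (.ch (nat_lit 1) (.ev (nat_lit 1488) (nat_lit 1073741824) (.ev
 (nat_lit 1940) (nat_lit 8192) (.ev (nat_lit 1949) (nat_lit 16) .dd)))) (.br (nat_lit 4) (.ch (nat_lit 3) (.ev
 (nat_lit 2436) (nat_lit 16) (.nd (nat_lit 3168) (.br (nat_lit 8) (.ch (nat_lit 0) (.ev (nat_lit 3184) (nat_lit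
 1073741824) (.ev (nat_lit 3197) (nat_lit 8192) .dd))) (.ch (nat_lit 8) (.fin (nat_lit
 576452505969836599))))))) (.ch (nat_lit 4) (.ev (nat_lit 1488) (nat_lit 8208) (.ev (nat_lit 1501) (nat_lit
 1073741824) .dd))))) (.br (nat_lit 7) (.ch (nat_lit 6) (.ev (nat_lit 1540) (nat_lit 8192) (.ev (nat_lit 1716)
 (nat_lit 1073741824) (.ev (nat_lit 1725) (nat_lit 16) .dd)))) (.br (nat_lit 8) (.ch (nat_lit 7) (.ev (nat_lit
 1488) (nat_lit 16) (.ev (nat_lit 1680) (nat_lit 1073750016) .dd))) (.ch (nat_lit 8) (.ev (nat_lit 1780)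
 (nat_lit 8192) (.fin (nat_lit 576482192747086425)))))))))) (.br (nat_lit 5) (.ch (nat_lit 4) (.ev (nat_lit
 1184) (nat_lit 1057024) (.nd (nat_lit 1472) (.br (nat_lit 8) (.br (nat_lit 3) (.ch (nat_lit 0) (.ev (nat_lit
 1488) (nat_lit 33587216) (.ev (nat_lit 2624) (nat_lit 1073741856) .dd))) (.br (nat_lit 6) (.ch (nat_lit 3)
 (.ev (nat_lit 1488) (nat_lit 1073774624) (.ev (nat_lit 1760) (nat_lit 16) (.ev (nat_lit 1773) (nat_lit
 33554432) .dd)))) (.ch (nat_lit 6) (.ev (nat_lit 1488) (nat_lit 1107296272) (.ev (nat_lit 1888) (nat_lit 32)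
 (.ev (nat_lit 1901) (nat_lit 32768) .dd)))))) (.br (nat_lit 9) (.ch (nat_lit 8) (.ev (nat_lit 1488) (nat_lit
 33587216) (.ev (nat_lit 1636) (nat_lit 32) (.ev (nat_lit 1645) (nat_lit 1073741824) .dd)))) (.br (nat_lit 12)
 (.ch (nat_lit 9) (.ev (nat_lit 1488) (nat_lit 1107329024) (.ev (nat_lit 2404) (nat_lit 32) (.ev (nat_lit 2413)
 (nat_lit 16) .dd)))) (.ch (nat_lit 12) (.ev (nat_lit 1488) (nat_lit 32768) (.ev (nat_lit 1920) (nat_lit 32)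
 (.ev (nat_lit 2288) (nat_lit 1073741824) (.ev (nat_lit 3142) (nat_lit 33554448) .dd))))))))))) (.ch (nat_lit
 5) (.ev (nat_lit 1184) (nat_lit 33554432) (.ev (nat_lit 1204) (nat_lit 8192) (.nd (nat_lit 1472) (.br (nat_lit
 6) (.br (nat_lit 3) (.ch (nat_lit 0) (.ev (nat_lit 1488) (nat_lit 32816) (.ev (nat_lit 1540) (nat_lit
 1074790400) (.ev (nat_lit 1549) (nat_lit 256) .dd)))) (.br (nat_lit 5) (.ch (nat_lit 3) (.ev (nat_lit 1488)
 (nat_lit 1074823216) (.ev (nat_lit 1501) (nat_lit 256) .dd))) (.ch (nat_lit 5) (.ev (nat_lit 1488) (nat_lit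
 1073741856) (.ev (nat_lit 1940) (nat_lit 1081344) (.ev (nat_lit 2852) (nat_lit 256) (.ev (nat_lit 2861)
 (nat_lit 16) .dd))))))) (.br (nat_lit 8) (.ch (nat_lit 6) (.ev (nat_lit 1488) (nat_lit 1048608) (.ev (nat_lit
 1716) (nat_lit 1073741824) (.ev (nat_lit 2788) (nat_lit 32784) (.ev (nat_lit 2797) (nat_lit 256) .dd))))) (.br
 (nat_lit 12) (.ch (nat_lit 8) (.ev (nat_lit 1488) (nat_lit 1081632) (.ev (nat_lit 1540) (nat_lit 1073741824)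
 (.ev (nat_lit 1549) (nat_lit 16) .dd)))) (.ch (nat_lit 12) (.ev (nat_lit 1488) (nat_lit 1074790416) (.ev
 (nat_lit 1540) (nat_lit 256) (.fin (nat_lit 576487690313613890)))))))))))))) (.br (nat_lit 8) (.ch (nat_lit 6)
 (.ev (nat_lit 1184) (nat_lit 48) (.nd (nat_lit 1472) (.br (nat_lit 5) (.br (nat_lit 3) (.ch (nat_lit 0) (.ev
 (nat_lit 1488) (nat_lit 1073774848) (.ev (nat_lit 1540) (nat_lit 8192) (.ev (nat_lit 1636) (nat_lit 1048576)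
 (.ev (nat_lit 1645) (nat_lit 33554432) .dd))))) (.br (nat_lit 4) (.ch (nat_lit 3) (.ev (nat_lit 1488) (nat_lit
 32768) (.ev (nat_lit 1540) (nat_lit 1048576) (.ev (nat_lit 1716) (nat_lit 8192) (.ev (nat_lit 1952) (nat_lit
 1073741824) (.nd (nat_lit 3168) (.br (nat_lit 10) (.ch (nat_lit 1) (.ev (nat_lit 3184) (nat_lit 256) (.ev
 (nat_lit 3197) (nat_lit 33554432) .dd))) (.br (nat_lit 11) (.ch (nat_lit 10) (.ev (nat_lit 3184) (nat_lit 256)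
 (.ev (nat_lit 3197) (nat_lit 33554432) .dd))) (.ch (nat_lit 11) (.fin (nat_lit 576483292314288705)))))))))))
 (.ch (nat_lit 4) (.ev (nat_lit 1488) (nat_lit 34643968) (.ev (nat_lit 1716) (nat_lit 1073741824) (.ev (nat_lit
 1725) (nat_lit 256) .dd)))))) (.br (nat_lit 8) (.br (nat_lit 7) (.ch (nat_lit 5) (.ev (nat_lit 1488) (nat_lit
 1074831616) (.ev (nat_lit 1501) (nat_lit 33554432) .dd))) (.ch (nat_lit 7) (.ev (nat_lit 1488) (nat_lit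
 1057024) (.ev (nat_lit 1540) (nat_lit 33554432) (.ev (nat_lit 1648) (nat_lit 1073774592) .dd))))) (.br
 (nat_lit 12) (.ch (nat_lit 8) (.ev (nat_lit 1488) (nat_lit 1073750272) (.ev (nat_lit 1540) (nat_lit 34603008)
 (.ev (nat_lit 1549) (nat_lit 32768) .dd)))) (.ch (nat_lit 12) (.ev (nat_lit 1488) (nat_lit 1108344832) (.ev
 (nat_lit 1636) (nat_lit 8192) (.fin (nat_lit 576465700104127060))))))))))) (.br (nat_lit 12) (.ch (nat_lit 8)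
 (.ev (nat_lit 1184) (nat_lit 1074823472) (.nd (nat_lit 1472) (.br (nat_lit 8) (.br (nat_lit 2) (.ch (nat_lit
 0) (.ev (nat_lit 1780) (nat_lit 33554432) (.ev (nat_lit 1789) (nat_lit 8192) .dd))) (.ch (nat_lit 2) (.ev
 (nat_lit 1488) (nat_lit 8192) (.ev (nat_lit 1501) (nat_lit 33554432) .dd)))) (.br (nat_lit 11) (.ch (nat_lit
 8) (.ev (nat_lit 1488) (nat_lit 33562624) .dd)) (.br (nat_lit 12) (.ch (nat_lit 11) (.ev (nat_lit 1488)
 (nat_lit 33562624) .dd)) (.ch (nat_lit 12) (.ev (nat_lit 1540) (nat_lit 8192) (.ev (nat_lit 1549) (nat_lit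
 33554432) .dd))))))))) (.ch (nat_lit 12) (.ev (nat_lit 1184) (nat_lit 32768) (.nd (nat_lit 1472) (.br (nat_lit
 7) (.br (nat_lit 4) (.ch (nat_lit 1) (.ev (nat_lit 1488) (nat_lit 1108353024) (.ev (nat_lit 2084) (nat_lit
 256) (.ev (nat_lit 2404) (nat_lit 32) (.ev (nat_lit 2413) (nat_lit 16) .dd))))) (.br (nat_lit 5) (.ch (nat_lit
 4) (.ev (nat_lit 1488) (nat_lit 1048592) (.ev (nat_lit 1540) (nat_lit 33562624) (.ev (nat_lit 1920) (nat_lit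
 32) (.ev (nat_lit 2116) (nat_lit 1073741824) (.ev (nat_lit 2125) (nat_lit 256) .dd)))))) (.ch (nat_lit 5) (.ev
 (nat_lit 1488) (nat_lit 33562896) (.ev (nat_lit 1540) (nat_lit 1048576) (.ev (nat_lit 1780) (nat_lit
 1073741824) (.ev (nat_lit 1789) (nat_lit 32) .dd))))))) (.br (nat_lit 11) (.ch (nat_lit 7) (.ev (nat_lit 1488)
 (nat_lit 1073741840) (.ev (nat_lit 1540) (nat_lit 8192) (.ev (nat_lit 1680) (nat_lit 256) (.ev (nat_lit 1888)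
 (nat_lit 32) (.ev (nat_lit 1940) (nat_lit 33554432) (.ev (nat_lit 1949) (nat_lit 1048576) .dd))))))) (.br
 (nat_lit 12) (.ch (nat_lit 11) (.ev (nat_lit 1488) (nat_lit 1107304480) (.ev (nat_lit 1520) (nat_lit 16) (.ev
 (nat_lit 1540) (nat_lit 1048576) (.ev (nat_lit 1549) (nat_lit 256) .dd))))) (.ch (nat_lit 12) (.ev (nat_lit
 1488) (nat_lit 16) (.ev (nat_lit 1540) (nat_lit 34611456) (.ev (nat_lit 2724) (nat_lit 1073741824) (.ev
 (nat_lit 2733) (nat_lit 32) .dd))))))))))))))))))))) (.br (nat_lit 41) (.ch (nat_lit 40) (.ev (nat_lit 52)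
 (nat_lit 8742240304) (.ev (nat_lit 276) (nat_lit 67108864) (.ev (nat_lit 372) (nat_lit 1073741824) (.ev
 (nat_lit 660) (nat_lit 2048) (.ev (nat_lit 916) (nat_lit 1024) (.ev (nat_lit 980) (nat_lit 33554432) (.nd
 (nat_lit 1168) (.br (nat_lit 9) (.br (nat_lit 6) (.ch (nat_lit 5) (.ev (nat_lit 1184) (nat_lit 68719513856)
 (.nd (nat_lit 1472) (.br (nat_lit 4) (.br (nat_lit 3) (.ch (nat_lit 0) (.ev (nat_lit 1488) (nat_lit 8192) (.ev
 (nat_lit 1552) (nat_lit 536870912) (.ev (nat_lit 1565) (nat_lit 4194304) .dd)))) (.ch (nat_lit 3) (.ev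
 (nat_lit 1488) (nat_lit 541073408) .dd))) (.br (nat_lit 6) (.ch (nat_lit 4) (.ev (nat_lit 1488) (nat_lit
 541065216) (.ev (nat_lit 1501) (nat_lit 8192) .dd))) (.ch (nat_lit 6) (.ev (nat_lit 1488) (nat_lit 536870912)
 (.ev (nat_lit 1636) (nat_lit 4194304) (.ev (nat_lit 1645) (nat_lit 8192) .dd))))))))) (.br (nat_lit 8) (.ch
 (nat_lit 6) (.ev (nat_lit 1184) (nat_lit 69260554496) (.ev (nat_lit 1197) (nat_lit 32768) .dd))) (.ch (nat_lit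
 8) (.ev (nat_lit 1184) (nat_lit 69260574976) (.nd (nat_lit 1472) (.br (nat_lit 8) (.br (nat_lit 2) (.ch
 (nat_lit 0) (.ev (nat_lit 1488) (nat_lit 4096) (.ev (nat_lit 1501) (nat_lit 8192) .dd))) (.br (nat_lit 6) (.ch
 (nat_lit 2) (.ev (nat_lit 1488) (nat_lit 8192) (.ev (nat_lit 1501) (nat_lit 4096) .dd))) (.ch (nat_lit 6) (.ev
 (nat_lit 1488) (nat_lit 4096) (.ev (nat_lit 1501) (nat_lit 8192) .dd))))) (.br (nat_lit 9) (.ch (nat_lit 8)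
 (.ev (nat_lit 1488) (nat_lit 8192) (.ev (nat_lit 1501) (nat_lit 4096) .dd))) (.br (nat_lit 12) (.ch (nat_lit
 9) (.ev (nat_lit 1488) (nat_lit 8192) (.ev (nat_lit 1501) (nat_lit 4096) .dd))) (.ch (nat_lit 12) (.ev
 (nat_lit 1488) (nat_lit 4096) (.ev (nat_lit 1501) (nat_lit 8192) .dd))))))))))) (.br (nat_lit 11) (.ch
 (nat_lit 9) (.ev (nat_lit 1184) (nat_lit 68723671296) (.nd (nat_lit 1472) (.br (nat_lit 9) (.br (nat_lit 2)
 (.ch (nat_lit 1) (.ev (nat_lit 1488) (nat_lit 4096) (.ev (nat_lit 1540) (nat_lit 536870912) (.ev (nat_lit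
 1584) (nat_lit 32768) (.ev (nat_lit 1597) (nat_lit 8192) .dd))))) (.br (nat_lit 8) (.ch (nat_lit 2) (.ev
 (nat_lit 1488) (nat_lit 536915968) .dd)) (.ch (nat_lit 8) (.ev (nat_lit 1488) (nat_lit 12288) (.ev (nat_lit
 1540) (nat_lit 536870912) (.ev (nat_lit 1549) (nat_lit 32768) .dd)))))) (.br (nat_lit 11) (.ch (nat_lit 9)
 (.ev (nat_lit 1488) (nat_lit 536883200) (.ev (nat_lit 1501) (nat_lit 32768) .dd))) (.br (nat_lit 12) (.ch
 (nat_lit 11) (.ev (nat_lit 1488) (nat_lit 536911872) (.ev (nat_lit 1501) (nat_lit 4096) .dd))) (.ch (nat_lit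
 12) (.ev (nat_lit 1488) (nat_lit 40960) (.fin (nat_lit 576447008431620662)))))))))) (.br (nat_lit 12) (.ch
 (nat_lit 11) (.ev (nat_lit 1184) (nat_lit 69256388864) (.nd (nat_lit 1472) (.br (nat_lit 4) (.br (nat_lit 1)
 (.ch (nat_lit 0) (.ev (nat_lit 1488) (nat_lit 4198400) .dd)) (.br (nat_lit 3) (.ch (nat_lit 1) (.ev (nat_lit
 1488) (nat_lit 4096) (.ev (nat_lit 1501) (nat_lit 4194304) .dd))) (.ch (nat_lit 3) (.ev (nat_lit 1488)
 (nat_lit 4198400) .dd)))) (.br (nat_lit 5) (.ch (nat_lit 4) (.ev (nat_lit 1488) (nat_lit 4194304) (.ev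
 (nat_lit 1501) (nat_lit 4096) .dd))) (.br (nat_lit 12) (.ch (nat_lit 5) (.ev (nat_lit 1716) (nat_lit 4096)
 (.ev (nat_lit 1725) (nat_lit 4194304) .dd))) (.ch (nat_lit 12) (.ev (nat_lit 1488) (nat_lit 4096) (.ev
 (nat_lit 1501) (nat_lit 4194304) .dd))))))))) (.ch (nat_lit 12) (.ev (nat_lit 1184) (nat_lit 536883200) (.nd
 (nat_lit 1472) (.br (nat_lit 9) (.br (nat_lit 4) (.ch (nat_lit 0) (.ev (nat_lit 1488) (nat_lit 33024) (.ev
 (nat_lit 1636) (nat_lit 68719476736) (.ev (nat_lit 1645) (nat_lit 4194304) .dd)))) (.br (nat_lit 6) (.ch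
 (nat_lit 4) (.ev (nat_lit 1488) (nat_lit 256) (.ev (nat_lit 1540) (nat_lit 4227072) (.ev (nat_lit 1549)
 (nat_lit 68719476736) .dd)))) (.ch (nat_lit 6) (.ev (nat_lit 1488) (nat_lit 68719476992) (.ev (nat_lit 1540)
 (nat_lit 32768) (.ev (nat_lit 1549) (nat_lit 4194304) .dd)))))) (.br (nat_lit 11) (.ch (nat_lit 9) (.ev
 (nat_lit 1488) (nat_lit 4227328) (.ev (nat_lit 1501) (nat_lit 68719476736) .dd))) (.br (nat_lit 12) (.ch
 (nat_lit 11) (.ev (nat_lit 1488) (nat_lit 68723671040) (.ev (nat_lit 1780) (nat_lit 256) (.ev (nat_lit 1789)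
 (nat_lit 32768) .dd)))) (.ch (nat_lit 12) (.ev (nat_lit 1488) (nat_lit 68723671040) (.ev (nat_lit 1540)
 (nat_lit 32768) (.ev (nat_lit 1549) (nat_lit 256) .dd))))))))))))))))))))) (.ch (nat_lit 41) (.ev (nat_lit 52)
 (nat_lit 16782592) (.ev (nat_lit 340) (nat_lit 67108864) (.ev (nat_lit 404) (nat_lit 32768) (.ev (nat_lit 500)
 (nat_lit 33554432) (.ev (nat_lit 596) (nat_lit 8192) (.ev (nat_lit 1044) (nat_lit 2048) (.nd (nat_lit 1168)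
 (.br (nat_lit 6) (.br (nat_lit 1) (.ch (nat_lit 0) (.ev (nat_lit 1184) (nat_lit 9266266144) (.nd (nat_lit
 1472) (.br (nat_lit 9) (.br (nat_lit 4) (.ch (nat_lit 1) (.ev (nat_lit 1488) (nat_lit 68719738896) (.ev
 (nat_lit 1501) (nat_lit 1073741824) .dd))) (.br (nat_lit 8) (.ch (nat_lit 4) (.ev (nat_lit 1488) (nat_lit
 1073741824) (.ev (nat_lit 1540) (nat_lit 68719738880) (.ev (nat_lit 1549) (nat_lit 16) .dd)))) (.ch (nat_lit
 8) (.ev (nat_lit 1488) (nat_lit 1073741824) (.ev (nat_lit 1540) (nat_lit 68719476736) (.ev (nat_lit 2736)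
 (nat_lit 262160) .dd)))))) (.br (nat_lit 11) (.ch (nat_lit 9) (.ev (nat_lit 1488) (nat_lit 68719476752) (.ev
 (nat_lit 1716) (nat_lit 262144) (.ev (nat_lit 1725) (nat_lit 1073741824) .dd)))) (.br (nat_lit 12) (.ch
 (nat_lit 11) (.ev (nat_lit 1488) (nat_lit 69793218560) (.fin (nat_lit 576462401573438018)))) (.ch (nat_lit 12)
 (.ev (nat_lit 1488) (nat_lit 1073741840) (.ev (nat_lit 1888) (nat_lit 262144) (.ev (nat_lit 1901) (nat_lit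
 68719476736) .dd)))))))))) (.br (nat_lit 4) (.ch (nat_lit 1) (.ev (nat_lit 1184) (nat_lit 1209270304) (.nd
 (nat_lit 1472) (.br (nat_lit 3) (.br (nat_lit 1) (.ch (nat_lit 0) (.ev (nat_lit 1488) (nat_lit 541065216) (.ev
 (nat_lit 1952) (nat_lit 16) (.nd (nat_lit 3168) (.br (nat_lit 5) (.ch (nat_lit 0) (.ev (nat_lit 3184) (nat_lit
 8589934592) (.ev (nat_lit 3197) (nat_lit 68719476736) .dd))) (.br (nat_lit 11) (.ch (nat_lit 5) (.ev (nat_lit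
 3184) (nat_lit 8589934592) (.ev (nat_lit 3197) (nat_lit 68719476736) .dd))) (.ch (nat_lit 11) (.fin (nat_lit
 576430515694289498))))))))) (.br (nat_lit 2) (.ch (nat_lit 1) (.ev (nat_lit 1488) (nat_lit 8589934608) (.ev
 (nat_lit 2004) (nat_lit 68719476736) (.ev (nat_lit 2084) (nat_lit 4194304) (.ev (nat_lit 2093) (nat_lit
 536870912) .dd))))) (.ch (nat_lit 2) (.ev (nat_lit 1488) (nat_lit 8594128912) (.ev (nat_lit 1540) (nat_lit
 536870912) (.ev (nat_lit 1549) (nat_lit 68719476736) .dd)))))) (.br (nat_lit 7) (.br (nat_lit 6) (.ch (nat_lit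
 3) (.ev (nat_lit 1488) (nat_lit 541065232) (.ev (nat_lit 1648) (nat_lit 8589934592) (.ev (nat_lit 1661)
 (nat_lit 68719476736) .dd)))) (.ch (nat_lit 6) (.ev (nat_lit 1488) (nat_lit 9126805504) (.ev (nat_lit 1540)
 (nat_lit 68719476736) (.ev (nat_lit 1648) (nat_lit 4194320) .dd))))) (.br (nat_lit 8) (.ch (nat_lit 7) (.ev
 (nat_lit 1488) (nat_lit 77846282256) (.ev (nat_lit 1501) (nat_lit 4194304) .dd))) (.ch (nat_lit 8) (.ev
 (nat_lit 1488) (nat_lit 77313605632) (.ev (nat_lit 1716) (nat_lit 16) (.ev (nat_lit 1725) (nat_lit 536870912)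
 .dd)))))))))) (.ch (nat_lit 4) (.ev (nat_lit 1184) (nat_lit 9262071840) (.nd (nat_lit 1472) (.br (nat_lit 7)
 (.br (nat_lit 4) (.ch (nat_lit 3) (.ev (nat_lit 1488) (nat_lit 69797675008) (.ev (nat_lit 1501) (nat_lit 16)
 .dd))) (.br (nat_lit 6) (.ch (nat_lit 4) (.ev (nat_lit 1488) (nat_lit 69793480704) (.ev (nat_lit 1860)
 (nat_lit 16) (.ev (nat_lit 1869) (nat_lit 4194304) .dd)))) (.ch (nat_lit 6) (.ev (nat_lit 1488) (nat_lit
 68719476736) (.ev (nat_lit 1552) (nat_lit 1073741824) (.ev (nat_lit 2336) (nat_lit 16) (.ev (nat_lit 2404)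
 (nat_lit 262144) (.ev (nat_lit 2413) (nat_lit 4194304) .dd)))))))) (.br (nat_lit 8) (.ch (nat_lit 7) (.ev
 (nat_lit 1488) (nat_lit 1078198272) (.ev (nat_lit 1552) (nat_lit 68719476736) (.ev (nat_lit 1565) (nat_lit 16)
 .dd)))) (.br (nat_lit 9) (.ch (nat_lit 8) (.ev (nat_lit 1488) (nat_lit 262144) (.ev (nat_lit 2016) (nat_lit
 4194304) (.ev (nat_lit 2052) (nat_lit 16) (.ev (nat_lit 2084) (nat_lit 68719476736) (.ev (nat_lit 2093)
 (nat_lit 1073741824) .dd)))))) (.ch (nat_lit 9) (.ev (nat_lit 1488) (nat_lit 1078198288) (.ev (nat_lit 1501)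
 (nat_lit 68719476736) .dd))))))))))) (.br (nat_lit 9) (.ch (nat_lit 6) (.ev (nat_lit 1184) (nat_lit
 77984956448) (.nd (nat_lit 1472) (.br (nat_lit 8) (.br (nat_lit 5) (.ch (nat_lit 4) (.ev (nat_lit 1488)
 (nat_lit 1048576) (.ev (nat_lit 2324) (nat_lit 1073741824) (.ev (nat_lit 2333) (nat_lit 16) .dd)))) (.br
 (nat_lit 7) (.ch (nat_lit 5) (.ev (nat_lit 1488) (nat_lit 1048576) (.ev (nat_lit 1860) (nat_lit 16) (.ev
 (nat_lit 1869) (nat_lit 1073741824) .dd)))) (.ch (nat_lit 7) (.ev (nat_lit 2736) (nat_lit 16) (.fin (nat_lit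
 576466799657697878)))))) (.br (nat_lit 10) (.ch (nat_lit 8) (.ev (nat_lit 1488) (nat_lit 1048592) (.ev
 (nat_lit 1501) (nat_lit 1073741824) .dd))) (.br (nat_lit 12) (.ch (nat_lit 10) (.ev (nat_lit 1488) (nat_lit
 1073741824) (.ev (nat_lit 1504) (nat_lit 1048576) (.ev (nat_lit 1517) (nat_lit 16) .dd)))) (.ch (nat_lit 12)
 (.ev (nat_lit 1488) (nat_lit 1074790400) (.ev (nat_lit 1501) (nat_lit 16) .dd))))))))) (.br (nat_lit 11) (.ch
 (nat_lit 9) (.ev (nat_lit 1184) (nat_lit 9668132912) (.nd (nat_lit 1472) (.br (nat_lit 8) (.br (nat_lit 3)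
 (.ch (nat_lit 2) (.ev (nat_lit 1488) (nat_lit 69256347648) (.ev (nat_lit 1636) (nat_lit 1048576) (.ev (nat_lit
 1645) (nat_lit 134217728) .dd)))) (.ch (nat_lit 3) (.ev (nat_lit 1488) (nat_lit 135266304) (.ev (nat_lit 1504)
 (nat_lit 68719476736) (.ev (nat_lit 1517) (nat_lit 536870912) .dd))))) (.br (nat_lit 10) (.ch (nat_lit 8) (.ev
 (nat_lit 1488) (nat_lit 69256347648) (.ev (nat_lit 1552) (nat_lit 1048576) (.ev (nat_lit 1565) (nat_lit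
 134217728) .dd)))) (.br (nat_lit 12) (.ch (nat_lit 10) (.ev (nat_lit 1488) (nat_lit 672137216) (.ev (nat_lit
 1501) (nat_lit 68719476736) .dd))) (.ch (nat_lit 12) (.ev (nat_lit 1540) (nat_lit 536870912) (.ev (nat_lit
 1780) (nat_lit 1048576) (.nd (nat_lit 3168) (.br (nat_lit 4) (.ch (nat_lit 2) (.ev (nat_lit 3184) (nat_lit
 134217728) (.ev (nat_lit 3197) (nat_lit 68719476736) .dd))) (.ch (nat_lit 4) (.fin (nat_lit
 576445908908458541)))))))))))))) (.ch (nat_lit 11) (.ev (nat_lit 1184) (nat_lit 77846282240) (.nd (nat_lit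
 1472) (.br (nat_lit 5) (.br (nat_lit 2) (.ch (nat_lit 0) (.ev (nat_lit 1488) (nat_lit 1212416048) (.ev
 (nat_lit 1501) (nat_lit 1048576) .dd))) (.br (nat_lit 4) (.ch (nat_lit 2) (.ev (nat_lit 1488) (nat_lit
 1207959568) (.ev (nat_lit 1716) (nat_lit 1048576) (.ev (nat_lit 2004) (nat_lit 4194304) (.ev (nat_lit 2656)
 (nat_lit 32) (.ev (nat_lit 2669) (nat_lit 262144) .dd)))))) (.ch (nat_lit 4) (.ev (nat_lit 1488) (nat_lit
 139722784) (.ev (nat_lit 1716) (nat_lit 16) (.ev (nat_lit 1725) (nat_lit 1073741824) .dd)))))) (.br (nat_lit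
 8) (.ch (nat_lit 5) (.ev (nat_lit 1488) (nat_lit 1310720) (.ev (nat_lit 1540) (nat_lit 32) (.ev (nat_lit 1824)
 (nat_lit 16) (.ev (nat_lit 3092) (nat_lit 1073741824) (.nd (nat_lit 3168) (.br (nat_lit 10) (.ch (nat_lit 9)
 (.nd (nat_lit 3201) (.br (nat_lit 35) (.ch (nat_lit 25) (.ev (nat_lit 3217) (nat_lit 138412032) .dd)) (.br
 (nat_lit 40) (.ch (nat_lit 35) (.ev (nat_lit 3217) (nat_lit 138412032) .dd)) (.ch (nat_lit 40) (.nd (nat_lit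
 3232) (.br (nat_lit 12) (.ch (nat_lit 7) (.fin (nat_lit 576509680562946606))) (.ch (nat_lit 12) (.ev (nat_lit
 3248) (nat_lit 138412032) .dd))))))))) (.ch (nat_lit 10) (.ev (nat_lit 3184) (nat_lit 138412032) .dd)))))))))
 (.br (nat_lit 12) (.ch (nat_lit 8) (.ev (nat_lit 1488) (nat_lit 1212416032) (.ev (nat_lit 1664) (nat_lit
 1048576) (.ev (nat_lit 1677) (nat_lit 16) .dd)))) (.ch (nat_lit 12) (.ev (nat_lit 1488) (nat_lit 134479920)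
 (.ev (nat_lit 2196) (nat_lit 4194304) (.nd (nat_lit 3168) (.br (nat_lit 8) (.ch (nat_lit 0) (.ev (nat_lit
 3184) (nat_lit 1074790400) .dd)) (.ch (nat_lit 8) (.nd (nat_lit 3201) (.ch (nat_lit 26) (.nd (nat_lit 3232)
 (.br (nat_lit 9) (.ch (nat_lit 3) (.fin (nat_lit 576470098153783885))) (.ch (nat_lit 9) (.ev (nat_lit 3248)
 (nat_lit 1074790400) .dd)))))))))))))))))))))))))))))))) (.br (nat_lit 47) (.br (nat_lit 44) (.br (nat_lit 43)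
 (.ch (nat_lit 42) (.ev (nat_lit 52) (nat_lit 68791042080) (.ev (nat_lit 180) (nat_lit 134217728) (.ev (nat_lit
 436) (nat_lit 32768) (.ev (nat_lit 532) (nat_lit 1073741824) (.ev (nat_lit 820) (nat_lit 4096) (.ev (nat_lit
 1044) (nat_lit 1048576) (.nd (nat_lit 1168) (.br (nat_lit 8) (.br (nat_lit 1) (.ch (nat_lit 0) (.ev (nat_lit
 1184) (nat_lit 8589937664) (.nd (nat_lit 1472) (.br (nat_lit 2) (.br (nat_lit 1) (.ch (nat_lit 0) (.ev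
 (nat_lit 1488) (nat_lit 16785424) (.ev (nat_lit 1504) (nat_lit 536870912) (.ev (nat_lit 1552) (nat_lit
 33554688) .dd)))) (.ch (nat_lit 1) (.ev (nat_lit 1488) (nat_lit 553648144) (.ev (nat_lit 1540) (nat_lit 8192)
 (.ev (nat_lit 2768) (nat_lit 33554432) (.ev (nat_lit 2781) (nat_lit 256) .dd)))))) (.br (nat_lit 4) (.ch
 (nat_lit 2) (.ev (nat_lit 1488) (nat_lit 33554448) (.ev (nat_lit 1540) (nat_lit 536870912) (.ev (nat_lit 2052)
 (nat_lit 8192) (.ev (nat_lit 3012) (nat_lit 256) (.ev (nat_lit 3021) (nat_lit 16777216) .dd)))))) (.br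
 (nat_lit 8) (.ch (nat_lit 4) (.ev (nat_lit 1488) (nat_lit 8448) (.nd (nat_lit 3168) (.br (nat_lit 3) (.ch
 (nat_lit 1) (.ev (nat_lit 3184) (nat_lit 33554448) (.fin (nat_lit 576430515719455266)))) (.ch (nat_lit 3) (.ev
 (nat_lit 3184) (nat_lit 553648128) (.fin (nat_lit 576465700148167258)))))))) (.ch (nat_lit 8) (.ev (nat_lit
 1488) (nat_lit 570433552) (.ev (nat_lit 1716) (nat_lit 16777216) (.ev (nat_lit 1725) (nat_lit 256)
 .dd)))))))))) (.br (nat_lit 4) (.ch (nat_lit 1) (.ev (nat_lit 1184) (nat_lit 587203584) (.nd (nat_lit 1472)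
 (.br (nat_lit 6) (.br (nat_lit 2) (.ch (nat_lit 0) (.ev (nat_lit 1488) (nat_lit 8589936896) (.ev (nat_lit
 1716) (nat_lit 8192) (.ev (nat_lit 1725) (nat_lit 16) .dd)))) (.br (nat_lit 4) (.ch (nat_lit 2) (.ev (nat_lit
 1488) (nat_lit 8589936896) (.ev (nat_lit 1540) (nat_lit 16) (.ev (nat_lit 1549) (nat_lit 8192) .dd)))) (.ch
 (nat_lit 4) (.ev (nat_lit 1488) (nat_lit 8589943040) (.ev (nat_lit 2004) (nat_lit 2048) (.ev (nat_lit 2013)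
 (nat_lit 16) .dd)))))) (.br (nat_lit 7) (.ch (nat_lit 6) (.ev (nat_lit 1488) (nat_lit 8589936640) (.ev
 (nat_lit 1860) (nat_lit 16) (.ev (nat_lit 2116) (nat_lit 8192) (.ev (nat_lit 2125) (nat_lit 256) .dd))))) (.br
 (nat_lit 8) (.ch (nat_lit 7) (.ev (nat_lit 1488) (nat_lit 8589944848) (.ev (nat_lit 1501) (nat_lit 256) .dd)))
 (.ch (nat_lit 8) (.ev (nat_lit 1488) (nat_lit 2048) (.ev (nat_lit 1540) (nat_lit 8192) (.ev (nat_lit 1636)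
 (nat_lit 8589934592) (.ev (nat_lit 1780) (nat_lit 16) (.ev (nat_lit 1789) (nat_lit 256) .dd)))))))))))) (.ch
 (nat_lit 4) (.ev (nat_lit 1184) (nat_lit 9160368384) (.nd (nat_lit 1472) (.br (nat_lit 4) (.br (nat_lit 3)
 (.ch (nat_lit 0) (.ev (nat_lit 1488) (nat_lit 16778256) (.ev (nat_lit 1501) (nat_lit 2048) .dd))) (.ch
 (nat_lit 3) (.ev (nat_lit 1488) (nat_lit 16780288) (.ev (nat_lit 1501) (nat_lit 16) .dd)))) (.br (nat_lit 6)
 (.ch (nat_lit 4) (.ev (nat_lit 1488) (nat_lit 16777216) (.ev (nat_lit 1540) (nat_lit 1040) (.ev (nat_lit 1549)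
 (nat_lit 2048) .dd)))) (.br (nat_lit 7) (.ch (nat_lit 6) (.ev (nat_lit 1488) (nat_lit 16780288) (.ev (nat_lit
 1501) (nat_lit 16) .dd))) (.ch (nat_lit 7) (.ev (nat_lit 1488) (nat_lit 2064) (.ev (nat_lit 1636) (nat_lit
 16777216) (.ev (nat_lit 1645) (nat_lit 1024) .dd)))))))))))) (.br (nat_lit 9) (.ch (nat_lit 8) (.ev (nat_lit
 1184) (nat_lit 8623499536) (.nd (nat_lit 1472) (.br (nat_lit 5) (.br (nat_lit 1) (.ch (nat_lit 0) (.ev
 (nat_lit 1540) (nat_lit 1024) (.ev (nat_lit 2004) (nat_lit 16777216) (.ev (nat_lit 2013) (nat_lit 536870912)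
 .dd)))) (.br (nat_lit 2) (.ch (nat_lit 1) (.ev (nat_lit 1488) (nat_lit 536871936) (.ev (nat_lit 1501) (nat_lit
 16777216) .dd))) (.ch (nat_lit 2) (.ev (nat_lit 1488) (nat_lit 536871936) (.ev (nat_lit 1501) (nat_lit
 16777216) .dd))))) (.br (nat_lit 6) (.ch (nat_lit 5) (.ev (nat_lit 1488) (nat_lit 16777216) (.ev (nat_lit
 1540) (nat_lit 1024) (.ev (nat_lit 1549) (nat_lit 536870912) .dd)))) (.br (nat_lit 8) (.ch (nat_lit 6) (.ev
 (nat_lit 1488) (nat_lit 553649152) .dd)) (.ch (nat_lit 8) (.ev (nat_lit 1540) (nat_lit 1024) (.ev (nat_lit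
 2004) (nat_lit 536870912) (.ev (nat_lit 2013) (nat_lit 16777216) .dd)))))))))) (.br (nat_lit 11) (.ch (nat_lit
 9) (.ev (nat_lit 1184) (nat_lit 8640267280) (.nd (nat_lit 1472) (.br (nat_lit 9) (.br (nat_lit 2) (.ch
 (nat_lit 1) (.ev (nat_lit 1860) (nat_lit 8192) (.ev (nat_lit 2244) (nat_lit 2048) (.nd (nat_lit 3168) (.br
 (nat_lit 7) (.ch (nat_lit 5) (.ev (nat_lit 3184) (nat_lit 536871168) .dd)) (.br (nat_lit 11) (.ch (nat_lit 7)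
 (.fin (nat_lit 576562456936530542))) (.ch (nat_lit 11) (.ev (nat_lit 3184) (nat_lit 536871168) .dd))))))))
 (.br (nat_lit 4) (.ch (nat_lit 2) (.ev (nat_lit 1488) (nat_lit 536873216) (.ev (nat_lit 1501) (nat_lit 8192)
 .dd))) (.ch (nat_lit 4) (.ev (nat_lit 1488) (nat_lit 536872960) (.ev (nat_lit 1540) (nat_lit 256) (.ev
 (nat_lit 1549) (nat_lit 8192) .dd)))))) (.br (nat_lit 10) (.ch (nat_lit 9) (.ev (nat_lit 1488) (nat_lit
 536879104) (.nd (nat_lit 3168) (.br (nat_lit 6) (.ch (nat_lit 3) (.fin (nat_lit 576443709873668670))) (.ch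
 (nat_lit 6) (.ev (nat_lit 3184) (nat_lit 256) (.ev (nat_lit 3197) (nat_lit 2048) .dd))))))) (.br (nat_lit 12)
 (.ch (nat_lit 10) (.ev (nat_lit 1488) (nat_lit 2304) (.ev (nat_lit 1540) (nat_lit 8192) (.ev (nat_lit 1549)
 (nat_lit 536870912) .dd)))) (.ch (nat_lit 12) (.ev (nat_lit 1488) (nat_lit 8448) (.ev (nat_lit 1780) (nat_lit
 2048) (.ev (nat_lit 1789) (nat_lit 536870912) .dd)))))))))) (.ch (nat_lit 11) (.ev (nat_lit 1184) (nat_lit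
 587213072) (.nd (nat_lit 1472) (.br (nat_lit 3) (.br (nat_lit 1) (.ch (nat_lit 0) (.ev (nat_lit 1488) (nat_lit
 8589934592) (.ev (nat_lit 1501) (nat_lit 1024) .dd))) (.ch (nat_lit 1) (.ev (nat_lit 1488) (nat_lit
 8589935616) .dd))) (.br (nat_lit 6) (.ch (nat_lit 3) (.fin (nat_lit 576479993769968214))) (.br (nat_lit 8)
 (.ch (nat_lit 6) (.ev (nat_lit 1488) (nat_lit 1024) (.ev (nat_lit 1501) (nat_lit 8589934592) .dd))) (.ch
 (nat_lit 8) (.ev (nat_lit 1488) (nat_lit 1024) (.ev (nat_lit 1501) (nat_lit 8589934592)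
 .dd)))))))))))))))))))) (.ch (nat_lit 43) (.ev (nat_lit 52) (nat_lit 69324540160) (.ev (nat_lit 116) (nat_lit
 8589934592) (.ev (nat_lit 948) (nat_lit 1073741824) (.nd (nat_lit 1168) (.br (nat_lit 5) (.br (nat_lit 1) (.ch
 (nat_lit 0) (.ev (nat_lit 1184) (nat_lit 184554528) (.nd (nat_lit 1472) (.br (nat_lit 9) (.br (nat_lit 4) (.ch
 (nat_lit 2) (.ev (nat_lit 1488) (nat_lit 4194320) (.ev (nat_lit 1716) (nat_lit 262144) (.ev (nat_lit 1725)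
 (nat_lit 8192) .dd)))) (.br (nat_lit 5) (.ch (nat_lit 4) (.ev (nat_lit 1488) (nat_lit 8192) (.ev (nat_lit
 1540) (nat_lit 4194304) (.ev (nat_lit 2336) (nat_lit 16) (.ev (nat_lit 2349) (nat_lit 262144) .dd))))) (.ch
 (nat_lit 5) (.ev (nat_lit 1488) (nat_lit 4456464) (.ev (nat_lit 1501) (nat_lit 8192) .dd))))) (.br (nat_lit
 11) (.ch (nat_lit 9) (.ev (nat_lit 1488) (nat_lit 8208) (.ev (nat_lit 1968) (nat_lit 262144) (.ev (nat_lit
 1981) (nat_lit 4194304) .dd)))) (.br (nat_lit 12) (.ch (nat_lit 11) (.ev (nat_lit 1488) (nat_lit 4202496)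
 (.fin (nat_lit 576462401573438018)))) (.ch (nat_lit 12) (.ev (nat_lit 1488) (nat_lit 8192) (.ev (nat_lit 1540)
 (nat_lit 4456448) (.ev (nat_lit 1549) (nat_lit 16) .dd)))))))))) (.br (nat_lit 4) (.ch (nat_lit 1) (.ev
 (nat_lit 1184) (nat_lit 189006880) (.nd (nat_lit 1472) (.br (nat_lit 4) (.br (nat_lit 1) (.ch (nat_lit 0) (.ev
 (nat_lit 1488) (nat_lit 12288) (.ev (nat_lit 1501) (nat_lit 16) .dd))) (.br (nat_lit 3) (.ch (nat_lit 1) (.ev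
 (nat_lit 1488) (nat_lit 4096) (.ev (nat_lit 1860) (nat_lit 16) (.ev (nat_lit 1869) (nat_lit 8192) .dd)))) (.ch
 (nat_lit 3) (.ev (nat_lit 1488) (nat_lit 4096) (.ev (nat_lit 2468) (nat_lit 8192) (.ev (nat_lit 2477) (nat_lit
 16) .dd)))))) (.br (nat_lit 8) (.ch (nat_lit 4) (.ev (nat_lit 1488) (nat_lit 8192) (.ev (nat_lit 1504)
 (nat_lit 4096) (.ev (nat_lit 1517) (nat_lit 16) .dd)))) (.br (nat_lit 10) (.ch (nat_lit 8) (.ev (nat_lit 1488)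
 (nat_lit 4112) (.ev (nat_lit 1501) (nat_lit 8192) .dd))) (.ch (nat_lit 10) (.ev (nat_lit 2404) (nat_lit 16)
 (.fin (nat_lit 576475595708777070)))))))))) (.ch (nat_lit 4) (.ev (nat_lit 1184) (nat_lit 138412064) (.nd
 (nat_lit 1472) (.br (nat_lit 6) (.br (nat_lit 1) (.ch (nat_lit 0) (.ev (nat_lit 1488) (nat_lit 33562640) (.ev
 (nat_lit 1696) (nat_lit 4096) (.ev (nat_lit 2052) (nat_lit 1024) (.ev (nat_lit 2272) (nat_lit 16777216) (.ev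
 (nat_lit 2285) (nat_lit 262144) .dd)))))) (.br (nat_lit 4) (.ch (nat_lit 1) (.ev (nat_lit 1488) (nat_lit
 50603008) (.ev (nat_lit 1648) (nat_lit 4096) (.ev (nat_lit 1661) (nat_lit 16) .dd)))) (.ch (nat_lit 4) (.ev
 (nat_lit 1488) (nat_lit 50603024) (.ev (nat_lit 1501) (nat_lit 4096) .dd))))) (.br (nat_lit 7) (.ch (nat_lit
 6) (.ev (nat_lit 1488) (nat_lit 50593808) (.ev (nat_lit 2196) (nat_lit 1024) (.nd (nat_lit 3168) (.br (nat_lit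
 12) (.ch (nat_lit 2) (.ev (nat_lit 3184) (nat_lit 12288) .dd)) (.ch (nat_lit 12) (.nd (nat_lit 3201) (.ch
 (nat_lit 50) (.nd (nat_lit 3232) (.br (nat_lit 1) (.ch (nat_lit 0) (.fin (nat_lit 576454704980509241))) (.ch
 (nat_lit 1) (.ev (nat_lit 3248) (nat_lit 12288) .dd)))))))))))) (.br (nat_lit 9) (.ch (nat_lit 7) (.ev
 (nat_lit 1488) (nat_lit 266240) (.ev (nat_lit 1540) (nat_lit 16777216) (.ev (nat_lit 1904) (nat_lit 16) (.ev
 (nat_lit 2996) (nat_lit 8192) (.nd (nat_lit 3168) (.br (nat_lit 7) (.ch (nat_lit 5) (.ev (nat_lit 3184)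
 (nat_lit 33555456) .dd)) (.ch (nat_lit 7) (.nd (nat_lit 3201) (.ch (nat_lit 48) (.nd (nat_lit 3232) (.br
 (nat_lit 12) (.ch (nat_lit 9) (.fin (nat_lit 576509680529392214))) (.ch (nat_lit 12) (.ev (nat_lit 3248)
 (nat_lit 33555456) .dd)))))))))))))) (.ch (nat_lit 9) (.ev (nat_lit 1488) (nat_lit 50598912) (.ev (nat_lit
 1716) (nat_lit 16) (.ev (nat_lit 1725) (nat_lit 8192) .dd)))))))))))) (.br (nat_lit 8) (.ch (nat_lit 5) (.ev
 (nat_lit 1184) (nat_lit 184553504) (.nd (nat_lit 1472) (.br (nat_lit 6) (.br (nat_lit 3) (.ch (nat_lit 1) (.ev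
 (nat_lit 1488) (nat_lit 4464640) (.ev (nat_lit 1780) (nat_lit 16) (.ev (nat_lit 1789) (nat_lit 1024) .dd))))
 (.br (nat_lit 4) (.ch (nat_lit 3) (.ev (nat_lit 1488) (nat_lit 4465664) (.ev (nat_lit 1501) (nat_lit 16)
 .dd))) (.ch (nat_lit 4) (.ev (nat_lit 1488) (nat_lit 271376) (.ev (nat_lit 1501) (nat_lit 4194304) .dd)))))
 (.br (nat_lit 8) (.ch (nat_lit 6) (.ev (nat_lit 1488) (nat_lit 262144) (.ev (nat_lit 1952) (nat_lit 1024) (.ev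
 (nat_lit 2084) (nat_lit 4194320) (.ev (nat_lit 2093) (nat_lit 8192) .dd))))) (.br (nat_lit 10) (.ch (nat_lit
 8) (.ev (nat_lit 1488) (nat_lit 271360) (.ev (nat_lit 1552) (nat_lit 4194304) (.ev (nat_lit 1565) (nat_lit 16)
 .dd)))) (.ch (nat_lit 10) (.ev (nat_lit 1488) (nat_lit 4194304) (.ev (nat_lit 1552) (nat_lit 8192) (.ev
 (nat_lit 2614) (nat_lit 263184) .dd)))))))))) (.br (nat_lit 11) (.ch (nat_lit 8) (.ev (nat_lit 1184) (nat_lit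
 151266320) (.nd (nat_lit 1472) (.br (nat_lit 6) (.br (nat_lit 5) (.ch (nat_lit 1) (.ev (nat_lit 1744) (nat_lit
 4096) (.ev (nat_lit 1860) (nat_lit 32) (.nd (nat_lit 3168) (.br (nat_lit 12) (.ch (nat_lit 3) (.ev (nat_lit
 3184) (nat_lit 33554432) (.ev (nat_lit 3197) (nat_lit 4194304) .dd))) (.ch (nat_lit 12) (.fin (nat_lit
 576452505946767935)))))))) (.ch (nat_lit 5) (.ev (nat_lit 1488) (nat_lit 33558560) (.ev (nat_lit 1501)
 (nat_lit 4194304) .dd)))) (.br (nat_lit 8) (.ch (nat_lit 6) (.ev (nat_lit 1488) (nat_lit 33558528) (.ev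
 (nat_lit 1504) (nat_lit 4194304) (.ev (nat_lit 1517) (nat_lit 32) .dd)))) (.br (nat_lit 9) (.ch (nat_lit 8)
 (.ev (nat_lit 1488) (nat_lit 4194336) (.ev (nat_lit 1636) (nat_lit 4096) (.ev (nat_lit 1645) (nat_lit
 33554432) .dd)))) (.ch (nat_lit 9) (.ev (nat_lit 1488) (nat_lit 4194336) (.ev (nat_lit 1540) (nat_lit 4096)
 (.ev (nat_lit 1549) (nat_lit 33554432) .dd)))))))))) (.ch (nat_lit 11) (.ev (nat_lit 1184) (nat_lit 50606080)
 (.nd (nat_lit 1472) (.br (nat_lit 4) (.br (nat_lit 2) (.ch (nat_lit 1) (.ev (nat_lit 1488) (nat_lit 134218768)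
 (.ev (nat_lit 1540) (nat_lit 32) (.ev (nat_lit 1549) (nat_lit 4194304) .dd)))) (.br (nat_lit 3) (.ch (nat_lit
 2) (.ev (nat_lit 1488) (nat_lit 138413056) (.ev (nat_lit 1636) (nat_lit 32) (.ev (nat_lit 1645) (nat_lit 16)
 .dd)))) (.ch (nat_lit 3) (.ev (nat_lit 1488) (nat_lit 134217744) (.ev (nat_lit 1940) (nat_lit 4194304) (.ev
 (nat_lit 2084) (nat_lit 1024) (.ev (nat_lit 2093) (nat_lit 32) .dd))))))) (.br (nat_lit 6) (.br (nat_lit 5)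
 (.ch (nat_lit 4) (.ev (nat_lit 1488) (nat_lit 138412080) (.ev (nat_lit 1501) (nat_lit 1024) .dd))) (.ch
 (nat_lit 5) (.ev (nat_lit 1488) (nat_lit 1056) (.ev (nat_lit 1872) (nat_lit 16) (.nd (nat_lit 3168) (.br
 (nat_lit 8) (.ch (nat_lit 5) (.ev (nat_lit 3184) (nat_lit 134217728) (.ev (nat_lit 3197) (nat_lit 4194304)
 .dd))) (.br (nat_lit 9) (.ch (nat_lit 8) (.ev (nat_lit 3184) (nat_lit 134217728) (.ev (nat_lit 3197) (nat_lit
 4194304) .dd))) (.ch (nat_lit 9) (.fin (nat_lit 576509680562946606)))))))))) (.br (nat_lit 12) (.ch (nat_lit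
 6) (.ev (nat_lit 1488) (nat_lit 134217760) (.ev (nat_lit 1540) (nat_lit 4194304) (.ev (nat_lit 1648) (nat_lit
 1040) .dd)))) (.ch (nat_lit 12) (.ev (nat_lit 1488) (nat_lit 1072) (.ev (nat_lit 1648) (nat_lit 134217728)
 (.ev (nat_lit 1661) (nat_lit 4194304) .dd))))))))))))))))))) (.br (nat_lit 46) (.ch (nat_lit 44) (.ev (nat_lit
 52) (nat_lit 69390569728) (.ev (nat_lit 276) (nat_lit 1048576) (.ev (nat_lit 628) (nat_lit 32) (.ev (nat_lit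
 1076) (nat_lit 32768) (.nd (nat_lit 1168) (.br (nat_lit 8) (.br (nat_lit 4) (.ch (nat_lit 1) (.ev (nat_lit
 1184) (nat_lit 1174675472) (.nd (nat_lit 1472) (.br (nat_lit 3) (.br (nat_lit 1) (.ch (nat_lit 0) (.ev
 (nat_lit 1488) (nat_lit 8606713856) (.ev (nat_lit 1540) (nat_lit 1024) (.ev (nat_lit 1549) (nat_lit 4194304)
 .dd)))) (.br (nat_lit 2) (.ch (nat_lit 1) (.ev (nat_lit 1488) (nat_lit 8589937664) (.ev (nat_lit 1780)
 (nat_lit 4194304) (.ev (nat_lit 1789) (nat_lit 16777216) .dd)))) (.ch (nat_lit 2) (.ev (nat_lit 1488) (nat_lit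
 8610909184) .dd)))) (.br (nat_lit 7) (.ch (nat_lit 3) (.ev (nat_lit 1488) (nat_lit 8610906112) (.ev (nat_lit
 1780) (nat_lit 2048) (.ev (nat_lit 1789) (nat_lit 1024) .dd)))) (.br (nat_lit 10) (.ch (nat_lit 7) (.ev
 (nat_lit 1488) (nat_lit 8589935616) (.ev (nat_lit 2052) (nat_lit 4194304) (.nd (nat_lit 3168) (.br (nat_lit 9)
 (.ch (nat_lit 2) (.ev (nat_lit 3184) (nat_lit 2048) (.ev (nat_lit 3197) (nat_lit 16777216) .dd))) (.ch
 (nat_lit 9) (.fin (nat_lit 576430515593626322)))))))) (.ch (nat_lit 10) (.ev (nat_lit 1488) (nat_lit 4194304)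
 (.ev (nat_lit 1540) (nat_lit 2048) (.ev (nat_lit 2004) (nat_lit 1024) (.ev (nat_lit 2084) (nat_lit 8589934592)
 (.ev (nat_lit 2093) (nat_lit 16777216) .dd)))))))))))) (.br (nat_lit 6) (.ch (nat_lit 4) (.ev (nat_lit 1184)
 (nat_lit 8606722064) (.nd (nat_lit 1472) (.br (nat_lit 7) (.br (nat_lit 3) (.ch (nat_lit 1) (.ev (nat_lit
 1488) (nat_lit 1078198272) (.ev (nat_lit 1940) (nat_lit 33554432) (.fin (nat_lit 576432714747953721))))) (.br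
 (nat_lit 4) (.ch (nat_lit 3) (.ev (nat_lit 1488) (nat_lit 1145046016) (.ev (nat_lit 1540) (nat_lit 262144)
 (.ev (nat_lit 1549) (nat_lit 33554432) .dd)))) (.ch (nat_lit 4) (.ev (nat_lit 1488) (nat_lit 1174668288) (.ev
 (nat_lit 1501) (nat_lit 4194304) .dd))))) (.br (nat_lit 8) (.ch (nat_lit 7) (.ev (nat_lit 1488) (nat_lit
 1078198272) (.ev (nat_lit 1940) (nat_lit 67108864) (.nd (nat_lit 3168) (.br (nat_lit 7) (.ch (nat_lit 5) (.ev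
 (nat_lit 3184) (nat_lit 33555456) .dd)) (.ch (nat_lit 7) (.fin (nat_lit 576509680529392214)))))))) (.br
 (nat_lit 12) (.ch (nat_lit 8) (.ev (nat_lit 1488) (nat_lit 1107558400) (.ev (nat_lit 1540) (nat_lit 67108864)
 (.ev (nat_lit 1940) (nat_lit 1024) (.ev (nat_lit 1949) (nat_lit 4194304) .dd))))) (.ch (nat_lit 12) (.ev
 (nat_lit 1488) (nat_lit 67108864) (.ev (nat_lit 1716) (nat_lit 262144) (.ev (nat_lit 1940) (nat_lit
 1073741824) (.ev (nat_lit 2064) (nat_lit 33554432) (.nd (nat_lit 3200) (.ch (nat_lit 8) (.nd (nat_lit 3233)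
 (.ch (nat_lit 38) (.nd (nat_lit 3264) (.br (nat_lit 7) (.ch (nat_lit 1) (.ev (nat_lit 3280) (nat_lit 4195328)
 .dd)) (.ch (nat_lit 7) (.fin (nat_lit 576483292321628738)))))))))))))))))))) (.ch (nat_lit 6) (.ev (nat_lit
 1184) (nat_lit 38022144) (.nd (nat_lit 1472) (.br (nat_lit 8) (.br (nat_lit 1) (.ch (nat_lit 0) (.ev (nat_lit
 1488) (nat_lit 9680453632) (.ev (nat_lit 1860) (nat_lit 16) (.ev (nat_lit 1869) (nat_lit 67108864) .dd))))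
 (.br (nat_lit 7) (.ch (nat_lit 1) (.ev (nat_lit 1488) (nat_lit 83886096) (.ev (nat_lit 1552) (nat_lit
 8589934592) (.ev (nat_lit 1565) (nat_lit 1073741824) .dd)))) (.ch (nat_lit 7) (.ev (nat_lit 1488) (nat_lit
 1090519040) (.ev (nat_lit 1860) (nat_lit 16) (.ev (nat_lit 1940) (nat_lit 67108864) (.ev (nat_lit 1949)
 (nat_lit 8589934592) .dd))))))) (.br (nat_lit 10) (.ch (nat_lit 8) (.ev (nat_lit 1488) (nat_lit 8606711824)
 (.ev (nat_lit 1540) (nat_lit 1073741824) (.ev (nat_lit 1549) (nat_lit 67108864) .dd)))) (.br (nat_lit 12) (.ch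
 (nat_lit 10) (.ev (nat_lit 1488) (nat_lit 8657043472) (.fin (nat_lit 576455804482699854)))) (.ch (nat_lit 12)
 (.ev (nat_lit 1488) (nat_lit 1140850688) (.ev (nat_lit 1648) (nat_lit 16777216) (.ev (nat_lit 1940) (nat_lit
 8589934592) (.ev (nat_lit 1949) (nat_lit 16) .dd))))))))))))) (.br (nat_lit 11) (.br (nat_lit 9) (.ch (nat_lit
 8) (.ev (nat_lit 1184) (nat_lit 9752021008) (.nd (nat_lit 1472) (.br (nat_lit 5) (.br (nat_lit 1) (.ch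
 (nat_lit 0) (.ev (nat_lit 1488) (nat_lit 8192) (.ev (nat_lit 1636) (nat_lit 1024) (.ev (nat_lit 1645) (nat_lit
 33554432) .dd)))) (.br (nat_lit 2) (.ch (nat_lit 1) (.ev (nat_lit 1488) (nat_lit 33563648) .dd)) (.ch (nat_lit
 2) (.ev (nat_lit 1488) (nat_lit 33562624) (.ev (nat_lit 1501) (nat_lit 1024) .dd))))) (.br (nat_lit 11) (.br
 (nat_lit 6) (.ch (nat_lit 5) (.ev (nat_lit 1636) (nat_lit 33554432) (.ev (nat_lit 1716) (nat_lit 1024) (.ev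
 (nat_lit 1725) (nat_lit 8192) .dd)))) (.ch (nat_lit 6) (.ev (nat_lit 1488) (nat_lit 1024) (.ev (nat_lit 1552)
 (nat_lit 33554432) (.ev (nat_lit 1565) (nat_lit 8192) .dd))))) (.br (nat_lit 12) (.ch (nat_lit 11) (.ev
 (nat_lit 1488) (nat_lit 33562624) (.ev (nat_lit 1501) (nat_lit 1024) .dd))) (.ch (nat_lit 12) (.ev (nat_lit
 1488) (nat_lit 33554432) (.ev (nat_lit 1940) (nat_lit 8192) (.ev (nat_lit 1949) (nat_lit 1024) .dd))))))))))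
 (.ch (nat_lit 9) (.ev (nat_lit 1184) (nat_lit 9718203408) (.nd (nat_lit 1472) (.br (nat_lit 8) (.br (nat_lit
 3) (.ch (nat_lit 2) (.ev (nat_lit 1488) (nat_lit 262144) (.ev (nat_lit 1716) (nat_lit 8192) (.nd (nat_lit
 3168) (.br (nat_lit 11) (.ch (nat_lit 3) (.ev (nat_lit 3184) (nat_lit 67108864) (.ev (nat_lit 3197) (nat_lit
 2048) .dd))) (.ch (nat_lit 11) (.fin (nat_lit 576461302078587464)))))))) (.br (nat_lit 4) (.ch (nat_lit 3)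
 (.ev (nat_lit 1488) (nat_lit 270336) (.ev (nat_lit 1860) (nat_lit 67108864) (.ev (nat_lit 1869) (nat_lit 2048)
 .dd)))) (.ch (nat_lit 4) (.ev (nat_lit 1488) (nat_lit 67371008) (.ev (nat_lit 2480) (nat_lit 8192) (.ev
 (nat_lit 2493) (nat_lit 2048) .dd)))))) (.br (nat_lit 9) (.ch (nat_lit 8) (.ev (nat_lit 1488) (nat_lit
 67110912) (.ev (nat_lit 1636) (nat_lit 8192) (.ev (nat_lit 1645) (nat_lit 262144) .dd)))) (.br (nat_lit 10)
 (.ch (nat_lit 9) (.ev (nat_lit 1488) (nat_lit 272384) (.ev (nat_lit 1501) (nat_lit 67108864) .dd))) (.ch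
 (nat_lit 10) (.ev (nat_lit 1488) (nat_lit 67373056) (.ev (nat_lit 1501) (nat_lit 8192) .dd)))))))))) (.br
 (nat_lit 12) (.ch (nat_lit 11) (.ev (nat_lit 1184) (nat_lit 1174415360) (.nd (nat_lit 1472) (.br (nat_lit 3)
 (.br (nat_lit 1) (.ch (nat_lit 0) (.ev (nat_lit 1488) (nat_lit 8611168272) (.ev (nat_lit 1501) (nat_lit 1024)
 .dd))) (.br (nat_lit 2) (.ch (nat_lit 1) (.ev (nat_lit 1488) (nat_lit 1040) (.ev (nat_lit 1540) (nat_lit
 8606973952) (.ev (nat_lit 1549) (nat_lit 4194304) .dd)))) (.ch (nat_lit 2) (.ev (nat_lit 1488) (nat_lit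
 8589935632) (.ev (nat_lit 1540) (nat_lit 262144) (.ev (nat_lit 1940) (nat_lit 4194304) (.ev (nat_lit 1949)
 (nat_lit 16777216) .dd))))))) (.br (nat_lit 6) (.br (nat_lit 4) (.ch (nat_lit 3) (.ev (nat_lit 1488) (nat_lit
 8606711824) (.ev (nat_lit 1540) (nat_lit 262144) (.ev (nat_lit 1552) (nat_lit 4194304) (.ev (nat_lit 1565)
 (nat_lit 1024) .dd))))) (.ch (nat_lit 4) (.ev (nat_lit 1488) (nat_lit 8611168256) (.ev (nat_lit 1716) (nat_lit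
 1024) (.ev (nat_lit 1725) (nat_lit 16) .dd))))) (.br (nat_lit 8) (.ch (nat_lit 6) (.ev (nat_lit 1488) (nat_lit
 21233664) (.ev (nat_lit 1504) (nat_lit 8589934592) (.ev (nat_lit 1780) (nat_lit 1024) (.ev (nat_lit 1789)
 (nat_lit 16) .dd))))) (.ch (nat_lit 8) (.ev (nat_lit 1488) (nat_lit 4456464) (.ev (nat_lit 1540) (nat_lit
 1024) (.ev (nat_lit 1552) (nat_lit 16777216) (.ev (nat_lit 1565) (nat_lit 8589934592) .dd))))))))))) (.ch
 (nat_lit 12) (.ev (nat_lit 1184) (nat_lit 8711831552) (.nd (nat_lit 1472) (.br (nat_lit 7) (.br (nat_lit 1)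
 (.ch (nat_lit 0) (.ev (nat_lit 1488) (nat_lit 1073751056) (.ev (nat_lit 1501) (nat_lit 2048) .dd))) (.br
 (nat_lit 4) (.ch (nat_lit 1) (.ev (nat_lit 1488) (nat_lit 1073750032) (.ev (nat_lit 1636) (nat_lit 1024) (.ev
 (nat_lit 1645) (nat_lit 2048) .dd)))) (.ch (nat_lit 4) (.ev (nat_lit 1488) (nat_lit 2064) (.ev (nat_lit 1540)
 (nat_lit 8192) (.ev (nat_lit 1636) (nat_lit 1024) (.ev (nat_lit 1645) (nat_lit 1073741824) .dd))))))) (.br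
 (nat_lit 9) (.ch (nat_lit 7) (.ev (nat_lit 1488) (nat_lit 11280) (.ev (nat_lit 1501) (nat_lit 1073741824)
 .dd))) (.br (nat_lit 12) (.ch (nat_lit 9) (.ev (nat_lit 1488) (nat_lit 1073743872) (.ev (nat_lit 1552)
 (nat_lit 1024) (.ev (nat_lit 1636) (nat_lit 16) (.ev (nat_lit 1645) (nat_lit 8192) .dd))))) (.ch (nat_lit 12)
 (.ev (nat_lit 1488) (nat_lit 9216) (.ev (nat_lit 1520) (nat_lit 2048) (.ev (nat_lit 1540) (nat_lit 16) (.ev
 (nat_lit 1549) (nat_lit 1073741824) .dd)))))))))))))))))))) (.ch (nat_lit 46) (.ev (nat_lit 52) (nat_lit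
 1628439808) (.ev (nat_lit 180) (nat_lit 262144) (.ev (nat_lit 468) (nat_lit 8589934592) (.ev (nat_lit 532)
 (nat_lit 33554432) (.ev (nat_lit 628) (nat_lit 4096) (.ev (nat_lit 692) (nat_lit 67108864) (.ev (nat_lit 884)
 (nat_lit 32768) (.nd (nat_lit 1168) (.br (nat_lit 8) (.br (nat_lit 6) (.ch (nat_lit 0) (.ev (nat_lit 1184)
 (nat_lit 134217760) (.nd (nat_lit 1472) (.br (nat_lit 5) (.br (nat_lit 4) (.ch (nat_lit 0) (.ev (nat_lit 1488)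
 (nat_lit 68723679248) (.ev (nat_lit 1501) (nat_lit 2048) .dd))) (.ch (nat_lit 4) (.ev (nat_lit 1488) (nat_lit
 68723679232) (.ev (nat_lit 1780) (nat_lit 2048) (.ev (nat_lit 1789) (nat_lit 16) .dd))))) (.br (nat_lit 8)
 (.ch (nat_lit 5) (.ev (nat_lit 1488) (nat_lit 68719486976) (.fin (nat_lit 576483292277588566)))) (.br (nat_lit
 9) (.ch (nat_lit 8) (.ev (nat_lit 1488) (nat_lit 2064) (.ev (nat_lit 1540) (nat_lit 4202496) (.ev (nat_lit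
 1549) (nat_lit 68719476736) .dd)))) (.ch (nat_lit 9) (.ev (nat_lit 1488) (nat_lit 68723671056) (.ev (nat_lit
 1716) (nat_lit 2048) (.ev (nat_lit 1725) (nat_lit 8192) .dd)))))))))) (.ch (nat_lit 6) (.ev (nat_lit 1184)
 (nat_lit 68857888800) (.ev (nat_lit 1446) (nat_lit 2048) (.nd (nat_lit 1472) (.br (nat_lit 7) (.br (nat_lit 5)
 (.ch (nat_lit 0) (.ev (nat_lit 1504) (nat_lit 8192) (.ev (nat_lit 1517) (nat_lit 16) .dd))) (.ch (nat_lit 5)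
 (.ev (nat_lit 1488) (nat_lit 8192) (.ev (nat_lit 1501) (nat_lit 16) .dd)))) (.br (nat_lit 10) (.ch (nat_lit 7)
 (.ev (nat_lit 1488) (nat_lit 8208) .dd)) (.br (nat_lit 12) (.ch (nat_lit 10) (.ev (nat_lit 1716) (nat_lit
 8192) (.ev (nat_lit 1725) (nat_lit 16) .dd))) (.ch (nat_lit 12) (.ev (nat_lit 1488) (nat_lit 16) (.ev (nat_lit
 1501) (nat_lit 8192) .dd))))))))))) (.br (nat_lit 11) (.ch (nat_lit 8) (.ev (nat_lit 1184) (nat_lit
 68719486992) (.nd (nat_lit 1472) (.br (nat_lit 8) (.br (nat_lit 2) (.ch (nat_lit 1) (.ev (nat_lit 1636)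
 (nat_lit 32) (.ev (nat_lit 1664) (nat_lit 134217728) (.ev (nat_lit 1677) (nat_lit 4194304) .dd)))) (.ch
 (nat_lit 2) (.ev (nat_lit 1488) (nat_lit 134217760) (.ev (nat_lit 1501) (nat_lit 4194304) .dd)))) (.br
 (nat_lit 11) (.ch (nat_lit 8) (.ev (nat_lit 1488) (nat_lit 4194336) (.ev (nat_lit 1501) (nat_lit 134217728)
 .dd))) (.br (nat_lit 12) (.ch (nat_lit 11) (.ev (nat_lit 1716) (nat_lit 4194304) (.ev (nat_lit 1808) (nat_lit
 134217760) .dd))) (.ch (nat_lit 12) (.ev (nat_lit 1488) (nat_lit 138412032) (.ev (nat_lit 1501) (nat_lit 32)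
 .dd))))))))) (.br (nat_lit 12) (.ch (nat_lit 11) (.ev (nat_lit 1184) (nat_lit 68723681328) (.ev (nat_lit 1197)
 (nat_lit 134217728) .dd))) (.ch (nat_lit 12) (.ev (nat_lit 1184) (nat_lit 68723679248) (.nd (nat_lit 1472)
 (.br (nat_lit 7) (.br (nat_lit 5) (.ch (nat_lit 0) (.ev (nat_lit 1540) (nat_lit 134217728) (.ev (nat_lit 1728)
 (nat_lit 32) (.ev (nat_lit 1741) (nat_lit 2048) .dd)))) (.ch (nat_lit 5) (.ev (nat_lit 1488) (nat_lit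
 134217728) (.ev (nat_lit 1716) (nat_lit 32) (.ev (nat_lit 1725) (nat_lit 2048) .dd))))) (.br (nat_lit 9) (.ch
 (nat_lit 7) (.ev (nat_lit 1488) (nat_lit 2080) (.ev (nat_lit 1501) (nat_lit 134217728) .dd))) (.br (nat_lit
 11) (.ch (nat_lit 9) (.ev (nat_lit 1488) (nat_lit 134217760) (.ev (nat_lit 1501) (nat_lit 2048) .dd))) (.ch
 (nat_lit 11) (.ev (nat_lit 1488) (nat_lit 134219808) .dd)))))))))))))))))))))) (.br (nat_lit 49) (.br (nat_lit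
 48) (.ch (nat_lit 47) (.ev (nat_lit 52) (nat_lit 654576896) (.ev (nat_lit 84) (nat_lit 134217728) (.ev
 (nat_lit 436) (nat_lit 8192) (.ev (nat_lit 692) (nat_lit 32768) (.ev (nat_lit 756) (nat_lit 68719476736) (.ev
 (nat_lit 980) (nat_lit 32) (.nd (nat_lit 1168) (.br (nat_lit 8) (.br (nat_lit 5) (.ch (nat_lit 1) (.ev
 (nat_lit 1184) (nat_lit 8595177472) (.nd (nat_lit 1472) (.br (nat_lit 7) (.br (nat_lit 1) (.ch (nat_lit 0)
 (.ev (nat_lit 1488) (nat_lit 1073741824) (.ev (nat_lit 2096) (nat_lit 16) (.ev (nat_lit 2109) (nat_lit 4096)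
 .dd)))) (.br (nat_lit 2) (.ch (nat_lit 1) (.ev (nat_lit 1488) (nat_lit 1073745936) .dd)) (.ch (nat_lit 2) (.ev
 (nat_lit 2148) (nat_lit 1073741824) (.ev (nat_lit 2672) (nat_lit 4096) (.ev (nat_lit 2685) (nat_lit 16)
 .dd)))))) (.br (nat_lit 8) (.ch (nat_lit 7) (.ev (nat_lit 1488) (nat_lit 4112) (.ev (nat_lit 1501) (nat_lit
 1073741824) .dd))) (.br (nat_lit 10) (.ch (nat_lit 8) (.ev (nat_lit 1488) (nat_lit 4096) (.fin (nat_lit
 576440411374436903)))) (.ch (nat_lit 10) (.ev (nat_lit 1488) (nat_lit 1073741824) (.ev (nat_lit 1728) (nat_lit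
 16) (.ev (nat_lit 1741) (nat_lit 4096) .dd)))))))))) (.br (nat_lit 6) (.ch (nat_lit 5) (.ev (nat_lit 1184)
 (nat_lit 9663680512) (.nd (nat_lit 1472) (.br (nat_lit 5) (.br (nat_lit 4) (.ch (nat_lit 1) (.ev (nat_lit
 1488) (nat_lit 5242880) (.ev (nat_lit 1501) (nat_lit 16) .dd))) (.ch (nat_lit 4) (.ev (nat_lit 1488) (nat_lit
 1048592) (.ev (nat_lit 1501) (nat_lit 4194304) .dd)))) (.br (nat_lit 6) (.ch (nat_lit 5) (.ev (nat_lit 1488)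
 (nat_lit 4194304) (.ev (nat_lit 1744) (nat_lit 16) (.ev (nat_lit 1757) (nat_lit 1048576) .dd)))) (.br (nat_lit
 12) (.ch (nat_lit 6) (.ev (nat_lit 1488) (nat_lit 5242880) (.ev (nat_lit 1501) (nat_lit 16) .dd))) (.ch
 (nat_lit 12) (.ev (nat_lit 1488) (nat_lit 4194320) (.ev (nat_lit 1501) (nat_lit 1048576) .dd))))))))) (.ch
 (nat_lit 6) (.ev (nat_lit 1184) (nat_lit 4194304) (.nd (nat_lit 1472) (.br (nat_lit 8) (.br (nat_lit 4) (.ch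
 (nat_lit 0) (.ev (nat_lit 1488) (nat_lit 8589938688) (.ev (nat_lit 1940) (nat_lit 1048576) (.ev (nat_lit 2148)
 (nat_lit 16) (.ev (nat_lit 2157) (nat_lit 1073741824) .dd))))) (.br (nat_lit 7) (.ch (nat_lit 4) (.ev (nat_lit
 1488) (nat_lit 9664724992) (.ev (nat_lit 1636) (nat_lit 16) (.ev (nat_lit 1645) (nat_lit 4096) .dd)))) (.ch
 (nat_lit 7) (.ev (nat_lit 1488) (nat_lit 8589934608) (.ev (nat_lit 1904) (nat_lit 4096) (.nd (nat_lit 3168)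
 (.br (nat_lit 12) (.ch (nat_lit 11) (.fin (nat_lit 576455804463825450))) (.ch (nat_lit 12) (.ev (nat_lit 3184)
 (nat_lit 1073741824) (.ev (nat_lit 3197) (nat_lit 1048576) .dd)))))))))) (.br (nat_lit 10) (.ch (nat_lit 8)
 (.ev (nat_lit 1488) (nat_lit 16) (.ev (nat_lit 1540) (nat_lit 1073741824) (.ev (nat_lit 1716) (nat_lit 4096)
 (.ev (nat_lit 1824) (nat_lit 8589934592) (.ev (nat_lit 1837) (nat_lit 1048576) .dd)))))) (.br (nat_lit 12)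
 (.ch (nat_lit 10) (.ev (nat_lit 1488) (nat_lit 9664729088) (.ev (nat_lit 1501) (nat_lit 16) .dd))) (.ch
 (nat_lit 12) (.ev (nat_lit 1488) (nat_lit 1074794496) (.ev (nat_lit 1648) (nat_lit 16) (.ev (nat_lit 1661)
 (nat_lit 8589934592) .dd)))))))))))) (.br (nat_lit 9) (.ch (nat_lit 8) (.ev (nat_lit 1184) (nat_lit
 8594128912) (.nd (nat_lit 1472) (.br (nat_lit 9) (.br (nat_lit 6) (.ch (nat_lit 2) (.ev (nat_lit 1540)
 (nat_lit 1073741824) (.ev (nat_lit 1636) (nat_lit 1048576) (.ev (nat_lit 1645) (nat_lit 4096) .dd)))) (.br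
 (nat_lit 8) (.ch (nat_lit 6) (.ev (nat_lit 1488) (nat_lit 1074794496) .dd)) (.ch (nat_lit 8) (.ev (nat_lit
 1488) (nat_lit 1073741824) (.ev (nat_lit 1540) (nat_lit 4096) (.ev (nat_lit 1549) (nat_lit 1048576) .dd))))))
 (.br (nat_lit 11) (.ch (nat_lit 9) (.ev (nat_lit 1488) (nat_lit 1048576) (.nd (nat_lit 3168) (.br (nat_lit 2)
 (.ch (nat_lit 0) (.fin (nat_lit 576501983998329422))) (.ch (nat_lit 2) (.ev (nat_lit 3184) (nat_lit
 1073745920) .dd)))))) (.br (nat_lit 12) (.ch (nat_lit 11) (.ev (nat_lit 1488) (nat_lit 1073741824) (.fin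
 (nat_lit 576467899138916931)))) (.ch (nat_lit 12) (.ev (nat_lit 1488) (nat_lit 1073741824) (.ev (nat_lit 1664)
 (nat_lit 1052672) .dd))))))))) (.br (nat_lit 12) (.ch (nat_lit 9) (.ev (nat_lit 1184) (nat_lit 9667870736)
 (.nd (nat_lit 1472) (.br (nat_lit 4) (.br (nat_lit 2) (.ch (nat_lit 1) (.ev (nat_lit 1488) (nat_lit 1052672)
 .dd)) (.br (nat_lit 3) (.ch (nat_lit 2) (.ev (nat_lit 1488) (nat_lit 4096) (.ev (nat_lit 1501) (nat_lit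
 1048576) .dd))) (.ch (nat_lit 3) (.ev (nat_lit 1488) (nat_lit 1052672) .dd)))) (.br (nat_lit 10) (.br (nat_lit
 9) (.ch (nat_lit 4) (.ev (nat_lit 1664) (nat_lit 1048576) (.ev (nat_lit 1677) (nat_lit 4096) .dd))) (.ch
 (nat_lit 9) (.ev (nat_lit 1488) (nat_lit 1048576) (.ev (nat_lit 1501) (nat_lit 4096) .dd)))) (.br (nat_lit 11)
 (.ch (nat_lit 10) (.ev (nat_lit 1488) (nat_lit 4096) (.ev (nat_lit 1501) (nat_lit 1048576) .dd))) (.ch
 (nat_lit 11) (.ev (nat_lit 1488) (nat_lit 1048576) (.ev (nat_lit 1501) (nat_lit 4096) .dd))))))))) (.ch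
 (nat_lit 12) (.ev (nat_lit 1184) (nat_lit 8589934608) (.nd (nat_lit 1472) (.br (nat_lit 5) (.br (nat_lit 1)
 (.ch (nat_lit 0) (.ev (nat_lit 1488) (nat_lit 1074790400) (.ev (nat_lit 1716) (nat_lit 4096) (.ev (nat_lit
 1725) (nat_lit 4194304) .dd)))) (.br (nat_lit 4) (.ch (nat_lit 1) (.ev (nat_lit 1488) (nat_lit 1073741824)
 (.ev (nat_lit 1940) (nat_lit 1048576) (.ev (nat_lit 2336) (nat_lit 4096) (.ev (nat_lit 2349) (nat_lit 4194304)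
 .dd))))) (.ch (nat_lit 4) (.ev (nat_lit 1488) (nat_lit 1077940224) (.ev (nat_lit 1501) (nat_lit 1048576)
 .dd))))) (.br (nat_lit 11) (.ch (nat_lit 5) (.ev (nat_lit 1488) (nat_lit 1052672) (.fin (nat_lit
 576447008406454881)))) (.br (nat_lit 12) (.ch (nat_lit 11) (.ev (nat_lit 1488) (nat_lit 1073741824) (.ev
 (nat_lit 2468) (nat_lit 4194304) (.ev (nat_lit 2724) (nat_lit 4096) (.ev (nat_lit 2733) (nat_lit 1048576)
 .dd))))) (.ch (nat_lit 12) (.ev (nat_lit 1488) (nat_lit 5246976) (.ev (nat_lit 1501) (nat_lit 1073741824)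
 .dd)))))))))))))))))))) (.ch (nat_lit 48) (.ev (nat_lit 52) (nat_lit 69961023760) (.ev (nat_lit 352) (nat_lit
 9216212000) .dd)))) (.br (nat_lit 50) (.ch (nat_lit 49) (.ev (nat_lit 52) (nat_lit 8658136320) (.ev (nat_lit
 148) (nat_lit 134217728) (.ev (nat_lit 212) (nat_lit 33554432) (.ev (nat_lit 244) (nat_lit 16) (.ev (nat_lit
 308) (nat_lit 262144) (.ev (nat_lit 372) (nat_lit 536870912) (.nd (nat_lit 1168) (.br (nat_lit 6) (.br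
 (nat_lit 5) (.ch (nat_lit 0) (.ev (nat_lit 1184) (nat_lit 1094713376) (.nd (nat_lit 1472) (.br (nat_lit 4)
 (.br (nat_lit 2) (.ch (nat_lit 0) (.ev (nat_lit 1488) (nat_lit 68719476736) (.ev (nat_lit 1501) (nat_lit 4096)
 .dd))) (.ch (nat_lit 2) (.ev (nat_lit 1488) (nat_lit 68719476736) (.ev (nat_lit 1501) (nat_lit 4096) .dd))))
 (.br (nat_lit 5) (.ch (nat_lit 4) (.ev (nat_lit 2404) (nat_lit 4096) (.ev (nat_lit 2413) (nat_lit 68719476736)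
 .dd))) (.br (nat_lit 11) (.ch (nat_lit 5) (.ev (nat_lit 1488) (nat_lit 4096) (.ev (nat_lit 1501) (nat_lit
 68719476736) .dd))) (.ch (nat_lit 11) (.ev (nat_lit 1728) (nat_lit 68719476736) (.ev (nat_lit 1741) (nat_lit
 4096) .dd))))))))) (.ch (nat_lit 5) (.ev (nat_lit 1184) (nat_lit 68736258048) (.nd (nat_lit 1472) (.br
 (nat_lit 4) (.br (nat_lit 1) (.ch (nat_lit 0) (.ev (nat_lit 1488) (nat_lit 1073741824) (.ev (nat_lit 1540)
 (nat_lit 4194304) (.ev (nat_lit 1549) (nat_lit 32) .dd)))) (.ch (nat_lit 1) (.ev (nat_lit 1488) (nat_lit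
 1077936128) (.ev (nat_lit 1501) (nat_lit 32) .dd)))) (.br (nat_lit 8) (.ch (nat_lit 4) (.ev (nat_lit 1488)
 (nat_lit 32) (.ev (nat_lit 1540) (nat_lit 1073741824) (.ev (nat_lit 1549) (nat_lit 4194304) .dd)))) (.br
 (nat_lit 12) (.ch (nat_lit 8) (.ev (nat_lit 1488) (nat_lit 32) (.ev (nat_lit 1636) (nat_lit 4194304) (.ev
 (nat_lit 1645) (nat_lit 1073741824) .dd)))) (.ch (nat_lit 12) (.ev (nat_lit 1488) (nat_lit 4194304) (.ev
 (nat_lit 2096) (nat_lit 32) (.ev (nat_lit 2109) (nat_lit 1073741824) .dd))))))))))) (.br (nat_lit 8) (.ch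
 (nat_lit 6) (.ev (nat_lit 1184) (nat_lit 68740448288) (.nd (nat_lit 1472) (.br (nat_lit 5) (.br (nat_lit 4)
 (.ch (nat_lit 1) (.ev (nat_lit 1488) (nat_lit 1073741824) (.ev (nat_lit 1501) (nat_lit 4096) .dd))) (.ch
 (nat_lit 4) (.fin (nat_lit 576461302059713086)))) (.br (nat_lit 10) (.ch (nat_lit 5) (.ev (nat_lit 1488)
 (nat_lit 4096) (.ev (nat_lit 1501) (nat_lit 1073741824) .dd))) (.br (nat_lit 12) (.ch (nat_lit 10) (.ev
 (nat_lit 1488) (nat_lit 4096) (.ev (nat_lit 1501) (nat_lit 1073741824) .dd))) (.ch (nat_lit 12) (.ev (nat_lit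
 1488) (nat_lit 1073741824) (.ev (nat_lit 1501) (nat_lit 4096) .dd))))))))) (.br (nat_lit 9) (.ch (nat_lit 8)
 (.ev (nat_lit 1184) (nat_lit 68723675136) (.nd (nat_lit 1472) (.br (nat_lit 9) (.br (nat_lit 2) (.ch (nat_lit
 1) (.ev (nat_lit 1488) (nat_lit 16777248) (.ev (nat_lit 1501) (nat_lit 1073741824) .dd))) (.br (nat_lit 6)
 (.ch (nat_lit 2) (.ev (nat_lit 1488) (nat_lit 1073741856) (.ev (nat_lit 1501) (nat_lit 16777216) .dd))) (.ch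
 (nat_lit 6) (.ev (nat_lit 1488) (nat_lit 16777216) (.ev (nat_lit 1540) (nat_lit 32) (.ev (nat_lit 1549)
 (nat_lit 1073741824) .dd)))))) (.br (nat_lit 11) (.ch (nat_lit 9) (.ev (nat_lit 1488) (nat_lit 32) (.ev
 (nat_lit 2324) (nat_lit 16777216) (.ev (nat_lit 2333) (nat_lit 1073741824) .dd)))) (.br (nat_lit 12) (.ch
 (nat_lit 11) (.ev (nat_lit 1488) (nat_lit 16777216) (.ev (nat_lit 1780) (nat_lit 1073741824) (.ev (nat_lit
 1789) (nat_lit 32) .dd)))) (.ch (nat_lit 12) (.ev (nat_lit 1488) (nat_lit 1090519072) .dd)))))))) (.ch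
 (nat_lit 9) (.ev (nat_lit 1184) (nat_lit 1094713376) (.nd (nat_lit 1472) (.br (nat_lit 10) (.br (nat_lit 3)
 (.ch (nat_lit 1) (.ev (nat_lit 1488) (nat_lit 4096) (.ev (nat_lit 1501) (nat_lit 68719476736) .dd))) (.br
 (nat_lit 9) (.ch (nat_lit 3) (.ev (nat_lit 1488) (nat_lit 4096) (.ev (nat_lit 1501) (nat_lit 68719476736)
 .dd))) (.ch (nat_lit 9) (.ev (nat_lit 1488) (nat_lit 4096) (.ev (nat_lit 1501) (nat_lit 68719476736) .dd)))))
 (.br (nat_lit 11) (.ch (nat_lit 10) (.ev (nat_lit 1488) (nat_lit 68719476736) (.ev (nat_lit 1501) (nat_lit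
 4096) .dd))) (.br (nat_lit 12) (.ch (nat_lit 11) (.ev (nat_lit 1540) (nat_lit 68719476736) (.ev (nat_lit 1549)
 (nat_lit 4096) .dd))) (.ch (nat_lit 12) (.ev (nat_lit 2116) (nat_lit 4096) (.ev (nat_lit 2125) (nat_lit
 68719476736) .dd)))))))))))))))))))) (.br (nat_lit 52) (.ch (nat_lit 50) (.ev (nat_lit 52) (nat_lit 721457184)
 (.ev (nat_lit 116) (nat_lit 16) (.ev (nat_lit 148) (nat_lit 1024) (.ev (nat_lit 692) (nat_lit 1048576) (.ev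
 (nat_lit 704) (nat_lit 78454728960) .dd)))))) (.ch (nat_lit 52) (.ev (nat_lit 52) (nat_lit 77846581536) (.ev
 (nat_lit 84) (nat_lit 16) (.ev (nat_lit 244) (nat_lit 4194304) (.ev (nat_lit 564) (nat_lit 1024) (.ev (nat_lit
 692) (nat_lit 8192) (.nd (nat_lit 1168) (.br (nat_lit 8) (.br (nat_lit 5) (.ch (nat_lit 4) (.ev (nat_lit 1184)
 (nat_lit 168820736) (.nd (nat_lit 1472) (.br (nat_lit 6) (.br (nat_lit 1) (.ch (nat_lit 0) (.ev (nat_lit 1488)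
 (nat_lit 83886080) (.ev (nat_lit 1636) (nat_lit 1073741824) (.ev (nat_lit 1645) (nat_lit 2048) .dd)))) (.br
 (nat_lit 4) (.ch (nat_lit 1) (.ev (nat_lit 1488) (nat_lit 1073741824) (.ev (nat_lit 1540) (nat_lit 67108864)
 (.ev (nat_lit 1940) (nat_lit 2048) (.ev (nat_lit 1949) (nat_lit 16777216) .dd))))) (.ch (nat_lit 4) (.ev
 (nat_lit 1488) (nat_lit 1140850688) (.ev (nat_lit 1568) (nat_lit 2048) (.ev (nat_lit 1581) (nat_lit 16777216)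
 .dd)))))) (.br (nat_lit 9) (.br (nat_lit 8) (.ch (nat_lit 6) (.ev (nat_lit 1488) (nat_lit 16779264) (.ev
 (nat_lit 1808) (nat_lit 1073741824) (.ev (nat_lit 1821) (nat_lit 67108864) .dd)))) (.ch (nat_lit 8) (.ev
 (nat_lit 1488) (nat_lit 1090519040) (.ev (nat_lit 1540) (nat_lit 2048) (.ev (nat_lit 1549) (nat_lit 67108864)
 .dd))))) (.br (nat_lit 12) (.ch (nat_lit 9) (.ev (nat_lit 1488) (nat_lit 1140850688) (.ev (nat_lit 1540)
 (nat_lit 2048) (.ev (nat_lit 1549) (nat_lit 16777216) .dd)))) (.ch (nat_lit 12) (.ev (nat_lit 1488) (nat_lit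
 83888128) (.ev (nat_lit 1501) (nat_lit 1073741824) .dd))))))))) (.br (nat_lit 6) (.ch (nat_lit 5) (.ev
 (nat_lit 1184) (nat_lit 1124075520) (.nd (nat_lit 1472) (.br (nat_lit 3) (.br (nat_lit 1) (.ch (nat_lit 0)
 (.ev (nat_lit 1488) (nat_lit 67108864) (.ev (nat_lit 1664) (nat_lit 135266304) .dd))) (.ch (nat_lit 1) (.ev
 (nat_lit 1488) (nat_lit 67108864) (.ev (nat_lit 1860) (nat_lit 134217728) (.ev (nat_lit 1869) (nat_lit
 1048576) .dd))))) (.br (nat_lit 4) (.ch (nat_lit 3) (.ev (nat_lit 1504) (nat_lit 134217728) (.ev (nat_lit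
 1664) (nat_lit 68157440) .dd))) (.br (nat_lit 10) (.ch (nat_lit 4) (.ev (nat_lit 1488) (nat_lit 67108864) (.ev
 (nat_lit 1860) (nat_lit 134217728) (.ev (nat_lit 1869) (nat_lit 1048576) .dd)))) (.ch (nat_lit 10) (.ev
 (nat_lit 1488) (nat_lit 135266304) (.ev (nat_lit 1501) (nat_lit 67108864) .dd))))))))) (.ch (nat_lit 6) (.ev
 (nat_lit 1184) (nat_lit 67110912) (.nd (nat_lit 1472) (.br (nat_lit 7) (.br (nat_lit 3) (.ch (nat_lit 0) (.ev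
 (nat_lit 1488) (nat_lit 150994944) (.ev (nat_lit 1540) (nat_lit 1107296256) (.ev (nat_lit 1549) (nat_lit
 1048576) .dd)))) (.br (nat_lit 4) (.ch (nat_lit 3) (.ev (nat_lit 1488) (nat_lit 51380224) (.ev (nat_lit 1716)
 (nat_lit 1073741824) (.ev (nat_lit 1725) (nat_lit 134217728) .dd)))) (.ch (nat_lit 4) (.ev (nat_lit 1488)
 (nat_lit 51380224) (.ev (nat_lit 1860) (nat_lit 134217728) (.ev (nat_lit 1869) (nat_lit 1073741824) .dd))))))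
 (.br (nat_lit 10) (.ch (nat_lit 7) (.ev (nat_lit 1488) (nat_lit 150994944) (.ev (nat_lit 1636) (nat_lit
 1073741824) (.ev (nat_lit 2436) (nat_lit 33554432) (.ev (nat_lit 2445) (nat_lit 1048576) .dd))))) (.br
 (nat_lit 12) (.ch (nat_lit 10) (.ev (nat_lit 1488) (nat_lit 134217728) (.ev (nat_lit 1780) (nat_lit 33554432)
 (.ev (nat_lit 1888) (nat_lit 1048576) (.nd (nat_lit 3168) (.br (nat_lit 12) (.ch (nat_lit 0) (.fin (nat_lit
 576455804482699854))) (.ch (nat_lit 12) (.ev (nat_lit 3184) (nat_lit 1073741824) (.ev (nat_lit 3197) (nat_lit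
 16777216) .dd))))))))) (.ch (nat_lit 12) (.ev (nat_lit 1488) (nat_lit 1125122048) (.ev (nat_lit 1501) (nat_lit
 134217728) .dd))))))))))) (.br (nat_lit 9) (.ch (nat_lit 8) (.ev (nat_lit 1184) (nat_lit 1140852736) (.nd
 (nat_lit 1472) (.br (nat_lit 8) (.br (nat_lit 1) (.ch (nat_lit 0) (.ev (nat_lit 1488) (nat_lit 1048576) (.ev
 (nat_lit 1540) (nat_lit 33554432) (.ev (nat_lit 1780) (nat_lit 16777216) (.ev (nat_lit 1789) (nat_lit
 134217728) .dd))))) (.br (nat_lit 5) (.ch (nat_lit 1) (.ev (nat_lit 1780) (nat_lit 134217728) (.ev (nat_lit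
 2148) (nat_lit 33554432) (.ev (nat_lit 2948) (nat_lit 1048576) (.ev (nat_lit 2957) (nat_lit 16777216) .dd)))))
 (.ch (nat_lit 5) (.ev (nat_lit 1488) (nat_lit 34603008) (.ev (nat_lit 1540) (nat_lit 16777216) (.ev (nat_lit
 1549) (nat_lit 134217728) .dd)))))) (.br (nat_lit 9) (.ch (nat_lit 8) (.ev (nat_lit 1488) (nat_lit 152043520)
 (.ev (nat_lit 1501) (nat_lit 33554432) .dd))) (.br (nat_lit 12) (.ch (nat_lit 9) (.ev (nat_lit 1488) (nat_lit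
 150994944) (.ev (nat_lit 1540) (nat_lit 33554432) (.ev (nat_lit 1549) (nat_lit 1048576) .dd)))) (.ch (nat_lit
 12) (.ev (nat_lit 1488) (nat_lit 152043520) (.ev (nat_lit 1501) (nat_lit 33554432) .dd))))))))) (.br (nat_lit
 12) (.ch (nat_lit 9) (.ev (nat_lit 1184) (nat_lit 1124073472) (.nd (nat_lit 1472) (.br (nat_lit 9) (.br
 (nat_lit 2) (.ch (nat_lit 1) (.ev (nat_lit 1488) (nat_lit 68157440) (.ev (nat_lit 1728) (nat_lit 134219776)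
 .dd))) (.br (nat_lit 3) (.ch (nat_lit 2) (.ev (nat_lit 1636) (nat_lit 67110912) (.ev (nat_lit 1680) (nat_lit
 134217728) (.ev (nat_lit 1693) (nat_lit 1048576) .dd)))) (.ch (nat_lit 3) (.ev (nat_lit 1488) (nat_lit
 201326592) (.ev (nat_lit 1940) (nat_lit 2048) (.ev (nat_lit 1949) (nat_lit 1048576) .dd)))))) (.br (nat_lit
 11) (.ch (nat_lit 9) (.ev (nat_lit 1488) (nat_lit 134219776) (.ev (nat_lit 1716) (nat_lit 1048576) (.ev
 (nat_lit 1725) (nat_lit 67108864) .dd)))) (.br (nat_lit 12) (.ch (nat_lit 11) (.ev (nat_lit 1488) (nat_lit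
 67110912) (.ev (nat_lit 1780) (nat_lit 1048576) (.ev (nat_lit 1789) (nat_lit 134217728) .dd)))) (.ch (nat_lit
 12) (.ev (nat_lit 1540) (nat_lit 1050624) (.ev (nat_lit 1552) (nat_lit 134217728) (.ev (nat_lit 1565) (nat_lit
 67108864) .dd)))))))))) (.ch (nat_lit 12) (.ev (nat_lit 1184) (nat_lit 251658240) (.ev (nat_lit 1462) (nat_lit
 1048576) (.nd (nat_lit 1472) (.br (nat_lit 9) (.br (nat_lit 4) (.ch (nat_lit 0) (.ev (nat_lit 1488) (nat_lit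
 1073741824) (.ev (nat_lit 1501) (nat_lit 2048) .dd))) (.ch (nat_lit 4) (.ev (nat_lit 1540) (nat_lit 2048) (.ev
 (nat_lit 1549) (nat_lit 1073741824) .dd)))) (.br (nat_lit 11) (.ch (nat_lit 9) (.ev (nat_lit 1488) (nat_lit
 1073743872) .dd)) (.br (nat_lit 12) (.ch (nat_lit 11) (.ev (nat_lit 1488) (nat_lit 1073743872) .dd)) (.ch
 (nat_lit 12) (.ev (nat_lit 1488) (nat_lit 1073741824) (.ev (nat_lit 1501) (nat_lit 2048)
 .dd))))))))))))))))))))))))))))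

/-- The trie. -/
noncomputable def T : Tr := .nd (nat_lit 1000000) (.br (nat_lit 3) (.br (nat_lit 1) (.ch (nat_lit 0) (.ev
 (nat_lit 0) (nat_lit 137438953471) .dd)) (.br (nat_lit 2) (.ch (nat_lit 1) (.ev (nat_lit 0) (nat_lit
 137438953471) .dd)) (.ch (nat_lit 2) T2))) (.br (nat_lit 4) (.ch (nat_lit 3) (.ev (nat_lit 0) (nat_lit
 137438953471) .dd)) (.br (nat_lit 5) (.ch (nat_lit 4) T4) (.ch (nat_lit 5) T5))))

/-- The possible values. -/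
noncomputable def oks : List ℕ := [4, 9, 10, 90, 218, 322, 706, 714, 978, 1114, 1329, 1524, 1738, 1962, 2586, 2890, 2922, 3561, 4234, 8202, 89610]

/-- The parameters. -/
noncomputable def S : Pr := ⟨fun i l e => lget mz (lget [] (lget [] tabs i) l) e, oks, [(nat_lit 0), (nat_lit
 1), (nat_lit 0), (nat_lit 0), (nat_lit 0), (nat_lit 1), (nat_lit 0)], T, (nat_lit 137438953471), (nat_lit
 23899161165), (nat_lit 37), [(nat_lit 11), (nat_lit 2287041271849359)], [(nat_lit 4826809), (nat_lit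
 7890481)]⟩

/-- Nothing known. -/
noncomputable def cs0 : Cs := (.cons (nat_lit 13) (nat_lit 0) (nat_lit 1) (.cons (nat_lit 53) (nat_lit 0) (nat_lit 1) .nil))

theorem part_2 : part S cs0 (nat_lit 2) = true := by decide +kernel

theorem part_4 : part S cs0 (nat_lit 4) = true := by decide +kernel

theorem part_5 : part S cs0 (nat_lit 5) = true := by decide +kernel

/-- Data of a prime. -/
noncomputable def D0 : PD := ⟨(nat_lit 13), (nat_lit 6), (2731834, 6, 3), (3031204, 4036787, 560186), (3718172, 4072320, 1281671)⟩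

theorem D0_ok : D0.Ok := pdb_sound (s := 2) (C := ⟨⟨3, 18, -4, -17, 2, 1, 2, -1, -7⟩, (3, 9, 2)⟩) (by show Nat.Prime 13; norm_num) (by decide +kernel)

/-- Lines of the first type. -/
noncomputable def Cl0 : List C1 := [⟨⟨17, -2, -16, 3, 18, 1, -2, 1, -5⟩, (10, 1, 8)⟩,
  ⟨⟨3, -18, -4, -17, -2, 1, 2, 1, -7⟩, (5, 2, 12)⟩,
  ⟨⟨0, 0, 0, 0, 0, 0, 0, 0, 0⟩, (0, 0, 0)⟩,
  ⟨⟨17, 2, -16, 3, -18, 1, -2, -1, -5⟩, (8, 6, 9)⟩,
  ⟨⟨0, 0, 0, 0, 0, 0, 0, 0, 0⟩, (0, 0, 0)⟩,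
  ⟨⟨0, 0, 0, 0, 0, 0, 0, 0, 0⟩, (0, 0, 0)⟩,
  ⟨⟨0, 0, 0, 0, 0, 0, 0, 0, 0⟩, (0, 0, 0)⟩,
  ⟨⟨0, 0, 0, 0, 0, 0, 0, 0, 0⟩, (0, 0, 0)⟩,
  ⟨⟨0, 0, 0, 0, 0, 0, 0, 0, 0⟩, (0, 0, 0)⟩,
  ⟨⟨0, 0, 0, 0, 0, 0, 0, 0, 0⟩, (0, 0, 0)⟩,
  ⟨⟨0, 0, 0, 0, 0, 0, 0, 0, 0⟩, (0, 0, 0)⟩,
  ⟨⟨0, 0, 0, 0, 0, 0, 0, 0, 0⟩, (0, 0, 0)⟩,
  ⟨⟨0, 0, 0, 0, 0, 0, 0, 0, 0⟩, (0, 0, 0)⟩]

/-- Data of a prime. -/
noncomputable def D1 : PD := ⟨(nat_lit 53), (nat_lit 4), (4766609, 8, 14), (5741397, 394060, 6448212), (2544113, 2380180, 3415374)⟩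

theorem D1_ok : D1.Ok := pdb_sound (s := 12) (C := ⟨⟨-13, 2, -76, -47, -58, 31, 18, -15, -13⟩, (40, 6, 18)⟩) (by show Nat.Prime 53; norm_num) (by decide +kernel)

/-- Lines of the first type. -/
noncomputable def Cl1 : List C1 := [⟨⟨13, -2, -89, -47, -58, 16, 18, -15, -5⟩, (17, 16, 48)⟩,
  ⟨⟨-23, 38, -56, 43, 58, 1, 18, -9, -23⟩, (9, 50, 16)⟩,
  ⟨⟨-23, -38, -56, 43, -58, 1, 18, 9, -23⟩, (18, 47, 32)⟩,
  ⟨⟨-13, -2, -76, -47, 58, 31, 18, 15, -13⟩, (20, 3, 9)⟩,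
  ⟨⟨0, 0, 0, 0, 0, 0, 0, 0, 0⟩, (0, 0, 0)⟩,
  ⟨⟨0, 0, 0, 0, 0, 0, 0, 0, 0⟩, (0, 0, 0)⟩,
  ⟨⟨0, 0, 0, 0, 0, 0, 0, 0, 0⟩, (0, 0, 0)⟩,
  ⟨⟨23, -38, -79, -43, -58, 44, -18, 9, -5⟩, (29, 8, 28)⟩,
  ⟨⟨33, -18, -89, 67, 2, 4, 2, 23, -7⟩, (12, 34, 20)⟩,
  ⟨⟨0, 0, 0, 0, 0, 0, 0, 0, 0⟩, (0, 0, 0)⟩,
  ⟨⟨0, 0, 0, 0, 0, 0, 0, 0, 0⟩, (0, 0, 0)⟩,
  ⟨⟨0, 0, 0, 0, 0, 0, 0, 0, 0⟩, (0, 0, 0)⟩,
  ⟨⟨0, 0, 0, 0, 0, 0, 0, 0, 0⟩, (0, 0, 0)⟩,
  ⟨⟨27, 42, -76, 7, 58, 49, 22, -7, -5⟩, (1, 14, 44)⟩,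
  ⟨⟨33, 18, -89, 67, -2, 4, 2, -23, -7⟩, (44, 1, 38)⟩,
  ⟨⟨0, 0, 0, 0, 0, 0, 0, 0, 0⟩, (0, 0, 0)⟩,
  ⟨⟨0, 0, 0, 0, 0, 0, 0, 0, 0⟩, (0, 0, 0)⟩,
  ⟨⟨0, 0, 0, 0, 0, 0, 0, 0, 0⟩, (0, 0, 0)⟩,
  ⟨⟨0, 0, 0, 0, 0, 0, 0, 0, 0⟩, (0, 0, 0)⟩,
  ⟨⟨57, 42, -56, -37, 62, 41, -10, 1, -19⟩, (20, 27, 3)⟩,
  ⟨⟨13, 2, -89, -47, 58, 16, 18, 15, -5⟩, (50, 19, 4)⟩,
  ⟨⟨0, 0, 0, 0, 0, 0, 0, 0, 0⟩, (0, 0, 0)⟩,
  ⟨⟨0, 0, 0, 0, 0, 0, 0, 0, 0⟩, (0, 0, 0)⟩,
  ⟨⟨57, -42, -56, -37, -62, 41, -10, -1, -19⟩, (16, 11, 13)⟩,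
  ⟨⟨0, 0, 0, 0, 0, 0, 0, 0, 0⟩, (0, 0, 0)⟩,
  ⟨⟨7, 58, -56, 27, 42, 49, 22, -7, -17⟩, (20, 9, 25)⟩,
  ⟨⟨0, 0, 0, 0, 0, 0, 0, 0, 0⟩, (0, 0, 0)⟩,
  ⟨⟨67, -2, -71, 33, 18, 56, -2, 23, -5⟩, (28, 13, 49)⟩,
  ⟨⟨0, 0, 0, 0, 0, 0, 0, 0, 0⟩, (0, 0, 0)⟩,
  ⟨⟨0, 0, 0, 0, 0, 0, 0, 0, 0⟩, (0, 0, 0)⟩,
  ⟨⟨23, 38, -79, -43, 58, 44, -18, -9, -5⟩, (20, 11, 12)⟩,
  ⟨⟨0, 0, 0, 0, 0, 0, 0, 0, 0⟩, (0, 0, 0)⟩,
  ⟨⟨7, -58, -56, 27, -42, 49, 22, 7, -17⟩, (17, 5, 8)⟩,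
  ⟨⟨0, 0, 0, 0, 0, 0, 0, 0, 0⟩, (0, 0, 0)⟩,
  ⟨⟨67, 2, -71, 33, -18, 56, -2, -23, -5⟩, (8, 34, 14)⟩,
  ⟨⟨27, -42, -76, 7, -58, 49, 22, 7, -5⟩, (50, 11, 27)⟩,
  ⟨⟨0, 0, 0, 0, 0, 0, 0, 0, 0⟩, (0, 0, 0)⟩,
  ⟨⟨0, 0, 0, 0, 0, 0, 0, 0, 0⟩, (0, 0, 0)⟩,
  ⟨⟨0, 0, 0, 0, 0, 0, 0, 0, 0⟩, (0, 0, 0)⟩,
  ⟨⟨0, 0, 0, 0, 0, 0, 0, 0, 0⟩, (0, 0, 0)⟩,
  ⟨⟨0, 0, 0, 0, 0, 0, 0, 0, 0⟩, (0, 0, 0)⟩,
  ⟨⟨0, 0, 0, 0, 0, 0, 0, 0, 0⟩, (0, 0, 0)⟩,
  ⟨⟨0, 0, 0, 0, 0, 0, 0, 0, 0⟩, (0, 0, 0)⟩,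
  ⟨⟨0, 0, 0, 0, 0, 0, 0, 0, 0⟩, (0, 0, 0)⟩,
  ⟨⟨0, 0, 0, 0, 0, 0, 0, 0, 0⟩, (0, 0, 0)⟩,
  ⟨⟨-37, 62, -4, -57, -42, 1, 10, -1, -29⟩, (22, 21, 27)⟩,
  ⟨⟨0, 0, 0, 0, 0, 0, 0, 0, 0⟩, (0, 0, 0)⟩,
  ⟨⟨0, 0, 0, 0, 0, 0, 0, 0, 0⟩, (0, 0, 0)⟩,
  ⟨⟨0, 0, 0, 0, 0, 0, 0, 0, 0⟩, (0, 0, 0)⟩,
  ⟨⟨0, 0, 0, 0, 0, 0, 0, 0, 0⟩, (0, 0, 0)⟩,
  ⟨⟨0, 0, 0, 0, 0, 0, 0, 0, 0⟩, (0, 0, 0)⟩,
  ⟨⟨-37, -62, -4, -57, 42, 1, 10, 1, -29⟩, (6, 25, 17)⟩,
  ⟨⟨0, 0, 0, 0, 0, 0, 0, 0, 0⟩, (0, 0, 0)⟩]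

/-- Data of a prime. -/
noncomputable def Dm : PD := ⟨(nat_lit 37), (nat_lit 2), (556, 16, 5), (1239, 947, 1101), (730, 506, 467)⟩

theorem Dm_ok : Dm.Ok := pdb_sound (s := 2) (C := ⟨⟨43, 22, -44, 23, -2, 41, 6, -15, -7⟩, (6, 23, 6)⟩) (by show Nat.Prime 37; norm_num) (by decide +kernel)

/-- Lines of the first type. -/
noncomputable def Clm : List C1 := [⟨⟨23, -2, -64, 43, 22, 1, -6, 15, -1⟩, (31, 29, 8)⟩,
  ⟨⟨0, 0, 0, 0, 0, 0, 0, 0, 0⟩, (0, 0, 0)⟩,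
  ⟨⟨-7, 22, -49, 27, 42, 4, 14, -7, -13⟩, (1, 12, 35)⟩,
  ⟨⟨-13, 38, -31, -47, -22, 16, 6, -9, -17⟩, (20, 4, 5)⟩,
  ⟨⟨0, 0, 0, 0, 0, 0, 0, 0, 0⟩, (0, 0, 0)⟩,
  ⟨⟨0, 0, 0, 0, 0, 0, 0, 0, 0⟩, (0, 0, 0)⟩,
  ⟨⟨7, 22, -56, -27, 42, 31, 14, 7, -1⟩, (18, 31, 36)⟩,
  ⟨⟨0, 0, 0, 0, 0, 0, 0, 0, 0⟩, (0, 0, 0)⟩,
  ⟨⟨0, 0, 0, 0, 0, 0, 0, 0, 0⟩, (0, 0, 0)⟩,
  ⟨⟨13, -38, -44, -47, -22, 31, -6, 9, -11⟩, (18, 26, 23)⟩,
  ⟨⟨0, 0, 0, 0, 0, 0, 0, 0, 0⟩, (0, 0, 0)⟩,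
  ⟨⟨0, 0, 0, 0, 0, 0, 0, 0, 0⟩, (0, 0, 0)⟩,
  ⟨⟨0, 0, 0, 0, 0, 0, 0, 0, 0⟩, (0, 0, 0)⟩,
  ⟨⟨0, 0, 0, 0, 0, 0, 0, 0, 0⟩, (0, 0, 0)⟩,
  ⟨⟨13, 38, -44, -47, 22, 31, -6, -9, -11⟩, (4, 14, 1)⟩,
  ⟨⟨0, 0, 0, 0, 0, 0, 0, 0, 0⟩, (0, 0, 0)⟩,
  ⟨⟨0, 0, 0, 0, 0, 0, 0, 0, 0⟩, (0, 0, 0)⟩,
  ⟨⟨0, 0, 0, 0, 0, 0, 0, 0, 0⟩, (0, 0, 0)⟩,
  ⟨⟨0, 0, 0, 0, 0, 0, 0, 0, 0⟩, (0, 0, 0)⟩,
  ⟨⟨0, 0, 0, 0, 0, 0, 0, 0, 0⟩, (0, 0, 0)⟩,
  ⟨⟨0, 0, 0, 0, 0, 0, 0, 0, 0⟩, (0, 0, 0)⟩,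
  ⟨⟨0, 0, 0, 0, 0, 0, 0, 0, 0⟩, (0, 0, 0)⟩,
  ⟨⟨0, 0, 0, 0, 0, 0, 0, 0, 0⟩, (0, 0, 0)⟩,
  ⟨⟨-7, -22, -49, 27, -42, 4, 14, 7, -13⟩, (13, 8, 11)⟩,
  ⟨⟨0, 0, 0, 0, 0, 0, 0, 0, 0⟩, (0, 0, 0)⟩,
  ⟨⟨0, 0, 0, 0, 0, 0, 0, 0, 0⟩, (0, 0, 0)⟩,
  ⟨⟨0, 0, 0, 0, 0, 0, 0, 0, 0⟩, (0, 0, 0)⟩,
  ⟨⟨0, 0, 0, 0, 0, 0, 0, 0, 0⟩, (0, 0, 0)⟩,
  ⟨⟨23, 2, -64, 43, -22, 1, -6, -15, -1⟩, (3, 4, 33)⟩,
  ⟨⟨0, 0, 0, 0, 0, 0, 0, 0, 0⟩, (0, 0, 0)⟩,
  ⟨⟨0, 0, 0, 0, 0, 0, 0, 0, 0⟩, (0, 0, 0)⟩,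
  ⟨⟨-13, -38, -31, -47, 22, 16, 6, 9, -17⟩, (34, 29, 27)⟩,
  ⟨⟨7, -22, -56, -27, -42, 31, 14, -7, -1⟩, (30, 27, 23)⟩,
  ⟨⟨0, 0, 0, 0, 0, 0, 0, 0, 0⟩, (0, 0, 0)⟩,
  ⟨⟨43, -22, -44, 23, 2, 41, 6, 15, -7⟩, (12, 9, 12)⟩,
  ⟨⟨0, 0, 0, 0, 0, 0, 0, 0, 0⟩, (0, 0, 0)⟩,
  ⟨⟨0, 0, 0, 0, 0, 0, 0, 0, 0⟩, (0, 0, 0)⟩]

/-- Unit moves. -/
noncomputable def U : List Mv := [mz,
  mz,
  mz,
  mz,
  mz,
  mz,
  ⟨⟨-1, 0, 1, 0, 1, 0, 0, 0, 1⟩, .nil, (nat_lit 12), (nat_lit 1), (nat_lit 4), (nat_lit 1), (0, 0, 0), [], 5⟩,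
  ⟨⟨1, 0, 0, 0, -1, 0, 0, 0, 1⟩, .nil, (nat_lit 12), (nat_lit 3), (nat_lit 12), (nat_lit 1), (0, 0, 0), [], 11⟩,
  ⟨⟨-1, 0, 1, 0, -1, 0, 0, 0, 1⟩, .nil, (nat_lit 0), (nat_lit 3), (nat_lit 1), (nat_lit 0), (0, 0, 0), [], 10⟩,
  ⟨⟨1, 0, 0, 0, -1, 0, 0, 0, 1⟩, .nil, (nat_lit 12), (nat_lit 3), (nat_lit 12), (nat_lit 1), (0, 0, 0), [], 11⟩,
  ⟨⟨-1, 0, 1, 0, 1, 0, 0, 0, 1⟩, .nil, (nat_lit 12), (nat_lit 1), (nat_lit 4), (nat_lit 1), (0, 0, 0), [], 5⟩,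
  ⟨⟨-1, 0, 1, 0, -1, 0, 0, 0, 1⟩, .nil, (nat_lit 0), (nat_lit 3), (nat_lit 1), (nat_lit 0), (0, 0, 0), [], 10⟩,
  ⟨⟨1, 0, 0, 0, -1, 0, 0, 0, 1⟩, .nil, (nat_lit 12), (nat_lit 3), (nat_lit 12), (nat_lit 1), (0, 0, 0), [], 11⟩]

theorem v_ty : tyb Dm S.ty1 Clm = true := by decide +kernel

theorem v_ty0 : tyb D0 (S.tys.getD 0 0) Cl0 = true := by decide +kernel

theorem v_ty1 : tyb D1 (S.tys.getD 1 0) Cl1 = true := by decide +kernel

theorem v_msc : mscb S D0 [D1] Dm (nat_lit 52) = true := by decide +kernel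

theorem v_mv0 : mvsn (nat_lit 52139521401321601) S D0 [D1] Dm (nat_lit 52) 0 D0 = true := by decide +kernel

theorem v_mv1 : mvsn (nat_lit 52139521401321601) S D0 [D1] Dm (nat_lit 52) 1 D1 = true := by decide +kernel

theorem v_mm : mmsn (nat_lit 52139521401321601) S D0 [D1] Dm (nat_lit 52) = true := by decide +kernel

theorem v_un : unb S D0 (nat_lit 52) U = true := by decide +kernel

theorem v_ok : okb S.oks [(0, 0, 0), (0, 3, 0), (0, 0, 0), (0, 0, 0), (0, 0, 0), (0, 0, 0), (0, 0, 0), (0, 0,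
 0), (0, 0, 0), (0, 0, 0), (8, 35, 2), (0, 0, 0), (0, 0, 0), (0, 0, 0), (0, 0, 0), (0, 0, 0), (0, 0, 0), (25,
 44, 10), (0, 0, 0), (0, 0, 0), (0, 0, 0)] = true := by decide +kernel

theorem v_part : ∀ d < D0.p, (nat_lit 52).testBit d = true → part S (zc (D0 :: [D1])) d = true := by
  intro d hd h
  have h1 : ∀ d < 13, (nat_lit 52).testBit d = true → d = 2 ∨ d = 4 ∨ d = 5 := by decide
  rcases h1 d hd h with rfl | rfl | rfl
  · exact part_2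
  · exact part_4
  · exact part_5

theorem main (n : ℕ) (ho : Odd n) (hr : ¬ Rep n) (h0 : Split 13 n) (h1 : Split 53 n) (hm : Split 37 n) :
    n ∈ EE := by
  refine concln (W := nat_lit 52139521401321601) (S := S) (P0 := D0) (Pl := [D1]) (Pm := Dm) (cn := nat_lit 52) ?_ Dm_ok v_ty ?_ ?_ v_msc ?_ v_mm v_un v_part v_ok
    n ho hr ?_ hm
  · simp only [List.forall_mem_cons]
    exact ⟨D0_ok, D1_ok, fun _ h => absurd h (by simp)⟩
  · exact all2 (φ := fun j P => ∃ L, tyb P (S.tys.getD j 0) L = true) ⟨_, v_ty0⟩ ⟨_, v_ty1⟩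
  · exact all2 (φ := fun j P => Nat.ble (S.pks.getD j 0) (Nat.pow P.p P.K) = true) (by decide +kernel) (by decide +kernel)
  · exact all2 (φ := fun i P => mvsn (nat_lit 52139521401321601) S D0 [D1] Dm (nat_lit 52) i P = true) v_mv0 v_mv1
  · simp only [List.forall_mem_cons]
    exact ⟨h0, h1, fun _ h => absurd h (by simp)⟩

end Pool.Agent.Work.MP_9954fe_nt.P13_53_37

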