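import Pool.Agent.Work.MP_9954fe_nt.Fast

/-!
Certificates for the sets {11, 31, 37}, {11, 43, 53}, {13, 37, 71}, {13, 43, 47}, {19, 37, 71}, {19, 43, 71} of split primes.
-/

set_option autoImplicit false
set_option linter.all false
set_option maxRecDepth 100000

namespace Pool.Agent.Work.MP_9954fe_nt.P11_37_31

/-- Dummy move. -/
noncomputable def mz : Mv := ⟨⟨0, 0, 0, 0, 0, 0, 0, 0, 0⟩, .nil, (nat_lit 0), (nat_lit 0), (nat_lit 0), (nat_lit 0), (0, 0, 0), [], 0⟩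

/-- Moves. -/
noncomputable def t0_1 : List Mv := [
  ⟨⟨3, 8, -11, -10, -1, 0, 4, -4, -11⟩, (.cons (nat_lit 205) (nat_lit 45) (nat_lit 482) (nat_lit 1) (.cons
 (nat_lit 44) (nat_lit 1019) (nat_lit 403) (nat_lit 1) .nil)), (nat_lit 12), (nat_lit 16), (nat_lit 21),
 (nat_lit 1), (4, 5, 9), [189, 412], 30⟩,
  ⟨⟨3, 8, -11, 10, 1, 0, 4, -4, -11⟩, (.cons (nat_lit 123) (nat_lit 960) (nat_lit 136) (nat_lit 1) (.cons (nat_lit 1006) (nat_lit 696) (nat_lit 595) (nat_lit 1) .nil)), (nat_lit 11), (nat_lit 16), (nat_lit 1), (nat_lit 0), (4, 6, 9), [1, 826], 10⟩,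
  ⟨⟨1, -12, 0, 10, 1, 0, 4, -4, -11⟩, (.cons (nat_lit 1209) (nat_lit 831) (nat_lit 832) (nat_lit 1) (.cons
 (nat_lit 853) (nat_lit 906) (nat_lit 1201) (nat_lit 1) .nil)), (nat_lit 10), (nat_lit 30), (nat_lit 24),
 (nat_lit 1), (5, 6, 9), [725, 199], 29⟩,
  ⟨⟨1, -12, 0, -10, -1, 0, 4, -4, -11⟩, (.cons (nat_lit 162) (nat_lit 200) (nat_lit 173) (nat_lit 1) (.cons
 (nat_lit 1368) (nat_lit 493) (nat_lit 591) (nat_lit 1) .nil)), (nat_lit 30), (nat_lit 0), (nat_lit 22),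
 (nat_lit 1), (5, 5, 9), [168, 1194], 20⟩,
  ⟨⟨1, -12, 0, -10, -1, 0, 4, -4, -11⟩, (.cons (nat_lit 162) (nat_lit 200) (nat_lit 173) (nat_lit 1) (.cons
 (nat_lit 1368) (nat_lit 493) (nat_lit 591) (nat_lit 1) .nil)), (nat_lit 30), (nat_lit 0), (nat_lit 22),
 (nat_lit 1), (5, 5, 9), [168, 1194], 20⟩,
  ⟨⟨1, -12, 0, 10, 1, 0, 4, -4, -11⟩, (.cons (nat_lit 1209) (nat_lit 831) (nat_lit 832) (nat_lit 1) (.cons
 (nat_lit 853) (nat_lit 906) (nat_lit 1201) (nat_lit 1) .nil)), (nat_lit 10), (nat_lit 30), (nat_lit 24),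
 (nat_lit 1), (5, 6, 9), [725, 199], 29⟩,
  ⟨⟨1, -12, 0, -10, -1, 0, 4, -4, -11⟩, (.cons (nat_lit 162) (nat_lit 200) (nat_lit 173) (nat_lit 1) (.cons
 (nat_lit 1368) (nat_lit 493) (nat_lit 591) (nat_lit 1) .nil)), (nat_lit 30), (nat_lit 0), (nat_lit 22),
 (nat_lit 1), (5, 5, 9), [168, 1194], 20⟩,
  ⟨⟨3, 8, -11, 10, 1, 0, 4, -4, -11⟩, (.cons (nat_lit 123) (nat_lit 960) (nat_lit 136) (nat_lit 1) (.cons (nat_lit 1006) (nat_lit 696) (nat_lit 595) (nat_lit 1) .nil)), (nat_lit 11), (nat_lit 16), (nat_lit 1), (nat_lit 0), (4, 6, 9), [1, 826], 10⟩,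
  ⟨⟨1, -12, 0, -10, -1, 0, 4, -4, -11⟩, (.cons (nat_lit 162) (nat_lit 200) (nat_lit 173) (nat_lit 1) (.cons
 (nat_lit 1368) (nat_lit 493) (nat_lit 591) (nat_lit 1) .nil)), (nat_lit 30), (nat_lit 0), (nat_lit 22),
 (nat_lit 1), (5, 5, 9), [168, 1194], 20⟩,
  ⟨⟨3, 8, -11, -10, -1, 0, 4, -4, -11⟩, (.cons (nat_lit 205) (nat_lit 45) (nat_lit 482) (nat_lit 1) (.cons
 (nat_lit 44) (nat_lit 1019) (nat_lit 403) (nat_lit 1) .nil)), (nat_lit 12), (nat_lit 16), (nat_lit 21),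
 (nat_lit 1), (4, 5, 9), [189, 412], 30⟩,
  ⟨⟨1, -12, 0, -10, -1, 0, 4, -4, -11⟩, (.cons (nat_lit 162) (nat_lit 200) (nat_lit 173) (nat_lit 1) (.cons
 (nat_lit 1368) (nat_lit 493) (nat_lit 591) (nat_lit 1) .nil)), (nat_lit 30), (nat_lit 0), (nat_lit 22),
 (nat_lit 1), (5, 5, 9), [168, 1194], 20⟩]

/-- Moves. -/
noncomputable def t0_4 : List Mv := [
  ⟨⟨-11, 0, 0, -4, 5, 12, -2, 8, -5⟩, (.cons (nat_lit 567) (nat_lit 375) (nat_lit 810) (nat_lit 1) (.cons (nat_lit 1368) (nat_lit 665) (nat_lit 1332) (nat_lit 1) .nil)), (nat_lit 30), (nat_lit 9), (nat_lit 13), (nat_lit 1), (0, 5, 8), [285, 951], 4⟩,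
  ⟨⟨9, 8, -5, 4, -5, -12, -2, 8, -5⟩, (.cons (nat_lit 449) (nat_lit 666) (nat_lit 424) (nat_lit 1) (.cons (nat_lit 407) (nat_lit 1305) (nat_lit 1259) (nat_lit 1) .nil)), (nat_lit 1), (nat_lit 12), (nat_lit 24), (nat_lit 1), (8, 6, 8), [237, 963], 5⟩,
  ⟨⟨9, 8, -5, 4, -5, -12, -2, 8, -5⟩, (.cons (nat_lit 449) (nat_lit 666) (nat_lit 424) (nat_lit 1) (.cons (nat_lit 407) (nat_lit 1305) (nat_lit 1259) (nat_lit 1) .nil)), (nat_lit 1), (nat_lit 12), (nat_lit 24), (nat_lit 1), (8, 6, 8), [237, 963], 5⟩,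
  ⟨⟨9, 8, -5, 4, -5, -12, -2, 8, -5⟩, (.cons (nat_lit 449) (nat_lit 666) (nat_lit 424) (nat_lit 1) (.cons (nat_lit 407) (nat_lit 1305) (nat_lit 1259) (nat_lit 1) .nil)), (nat_lit 1), (nat_lit 12), (nat_lit 24), (nat_lit 1), (8, 6, 8), [237, 963], 5⟩,
  ⟨⟨9, 8, -5, -4, 5, 12, -2, 8, -5⟩, (.cons (nat_lit 64) (nat_lit 1278) (nat_lit 716) (nat_lit 1) (.cons (nat_lit 903) (nat_lit 488) (nat_lit 467) (nat_lit 1) .nil)), (nat_lit 24), (nat_lit 10), (nat_lit 26), (nat_lit 1), (8, 5, 8), [587, 1236], 23⟩,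
  ⟨⟨-11, 0, 0, 4, -5, -12, -2, 8, -5⟩, (.cons (nat_lit 850) (nat_lit 1279) (nat_lit 109) (nat_lit 1) (.cons
 (nat_lit 797) (nat_lit 1209) (nat_lit 684) (nat_lit 1) .nil)), (nat_lit 8), (nat_lit 17), (nat_lit 21),
 (nat_lit 1), (0, 6, 8), [137, 327], 26⟩,
  ⟨⟨9, 8, -5, 4, -5, -12, -2, 8, -5⟩, (.cons (nat_lit 449) (nat_lit 666) (nat_lit 424) (nat_lit 1) (.cons (nat_lit 407) (nat_lit 1305) (nat_lit 1259) (nat_lit 1) .nil)), (nat_lit 1), (nat_lit 12), (nat_lit 24), (nat_lit 1), (8, 6, 8), [237, 963], 5⟩,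
  ⟨⟨9, 8, -5, -4, 5, 12, -2, 8, -5⟩, (.cons (nat_lit 64) (nat_lit 1278) (nat_lit 716) (nat_lit 1) (.cons (nat_lit 903) (nat_lit 488) (nat_lit 467) (nat_lit 1) .nil)), (nat_lit 24), (nat_lit 10), (nat_lit 26), (nat_lit 1), (8, 5, 8), [587, 1236], 23⟩,
  ⟨⟨-11, 0, 0, 4, -5, -12, -2, 8, -5⟩, (.cons (nat_lit 850) (nat_lit 1279) (nat_lit 109) (nat_lit 1) (.cons
 (nat_lit 797) (nat_lit 1209) (nat_lit 684) (nat_lit 1) .nil)), (nat_lit 8), (nat_lit 17), (nat_lit 21),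
 (nat_lit 1), (0, 6, 8), [137, 327], 26⟩,
  ⟨⟨9, 8, -5, 4, -5, -12, -2, 8, -5⟩, (.cons (nat_lit 449) (nat_lit 666) (nat_lit 424) (nat_lit 1) (.cons (nat_lit 407) (nat_lit 1305) (nat_lit 1259) (nat_lit 1) .nil)), (nat_lit 1), (nat_lit 12), (nat_lit 24), (nat_lit 1), (8, 6, 8), [237, 963], 5⟩,
  ⟨⟨9, 8, -5, 4, -5, -12, -2, 8, -5⟩, (.cons (nat_lit 449) (nat_lit 666) (nat_lit 424) (nat_lit 1) (.cons (nat_lit 407) (nat_lit 1305) (nat_lit 1259) (nat_lit 1) .nil)), (nat_lit 1), (nat_lit 12), (nat_lit 24), (nat_lit 1), (8, 6, 8), [237, 963], 5⟩]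

/-- Moves. -/
noncomputable def t1_1 : List Mv := [
  mz,
  ⟨⟨3, -16, -43, 10, 33, -20, 30, -12, -23⟩, (.cons (nat_lit 866) (nat_lit 245) (nat_lit 553) (nat_lit 1)
 (.cons (nat_lit 1309) (nat_lit 52) (nat_lit 1287) (nat_lit 1) .nil)), (nat_lit 9), (nat_lit 12), (nat_lit 23),
 (nat_lit 1), (25, 34, 28), [1030, 97], 10⟩,
  mz,
  mz,
  ⟨⟨11, -12, -47, 8, 35, -14, 32, -8, -19⟩, (.cons (nat_lit 260) (nat_lit 865) (nat_lit 79) (nat_lit 1) (.cons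
 (nat_lit 388) (nat_lit 565) (nat_lit 28) (nat_lit 1) .nil)), (nat_lit 5), (nat_lit 5), (nat_lit 29), (nat_lit
 1), (12, 2, 8), [808, 996], 28⟩,
  ⟨⟨11, 12, -47, 8, -35, -14, 32, 8, -19⟩, (.cons (nat_lit 851) (nat_lit 737) (nat_lit 968) (nat_lit 1) (.cons
 (nat_lit 1279) (nat_lit 1018) (nat_lit 267) (nat_lit 1) .nil)), (nat_lit 26), (nat_lit 0), (nat_lit 0),
 (nat_lit 1), (29, 11, 7), [457, 834], 30⟩,
  mz,
  ⟨⟨-1, -24, -36, -30, -17, 30, -18, 12, -19⟩, (.cons (nat_lit 539) (nat_lit 452) (nat_lit 1) (nat_lit 792)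
 (.cons (nat_lit 1045) (nat_lit 234) (nat_lit 1328) (nat_lit 1) .nil)), (nat_lit 30), (nat_lit 21), (nat_lit
 12), (nat_lit 1), (13, 20, 12), [458, 1056], 1⟩,
  ⟨⟨35, -12, -36, 12, 35, -6, 0, 0, -37⟩, (.cons (nat_lit 474) (nat_lit 537) (nat_lit 315) (nat_lit 1) (.cons
 (nat_lit 1324) (nat_lit 150) (nat_lit 889) (nat_lit 1) .nil)), (nat_lit 1), (nat_lit 7), (nat_lit 17),
 (nat_lit 1), (34, 18, 0), [138, 602], 26⟩,
  mz,
  ⟨⟨-1, 24, -36, -30, 17, 30, -18, -12, -19⟩, (.cons (nat_lit 449) (nat_lit 835) (nat_lit 1057) (nat_lit 1)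
 (.cons (nat_lit 323) (nat_lit 746) (nat_lit 950) (nat_lit 1) .nil)), (nat_lit 15), (nat_lit 29), (nat_lit 21),
 (nat_lit 1), (10, 4, 32), [620, 604], 30⟩,
  ⟨⟨27, -4, 20, -10, 33, 20, 30, 12, -23⟩, (.cons (nat_lit 1330) (nat_lit 1065) (nat_lit 1261) (nat_lit 1)
 (.cons (nat_lit 956) (nat_lit 231) (nat_lit 837) (nat_lit 1) .nil)), (nat_lit 30), (nat_lit 14), (nat_lit 20),
 (nat_lit 1), (22, 22, 8), [850, 731], 12⟩,
  ⟨⟨39, -4, -8, 10, 17, -40, 14, -28, -19⟩, (.cons (nat_lit 1330) (nat_lit 934) (nat_lit 773) (nat_lit 1)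
 (.cons (nat_lit 1035) (nat_lit 1264) (nat_lit 1002) (nat_lit 1) .nil)), (nat_lit 30), (nat_lit 24), (nat_lit
 21), (nat_lit 1), (11, 18, 3), [201, 537], 23⟩,
  ⟨⟨39, 8, -28, -8, 5, -36, 8, 32, -1⟩, (.cons (nat_lit 797) (nat_lit 733) (nat_lit 1009) (nat_lit 1) (.cons
 (nat_lit 1257) (nat_lit 750) (nat_lit 782) (nat_lit 1) .nil)), (nat_lit 13), (nat_lit 17), (nat_lit 3),
 (nat_lit 1), (21, 27, 10), [478, 689], 20⟩,
  mz,
  ⟨⟨-3, 40, 8, 32, 5, -36, -16, 16, -19⟩, (.cons (nat_lit 205) (nat_lit 449) (nat_lit 26) (nat_lit 1) (.cons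
 (nat_lit 495) (nat_lit 1269) (nat_lit 275) (nat_lit 1) .nil)), (nat_lit 7), (nat_lit 20), (nat_lit 9),
 (nat_lit 1), (27, 8, 33), [236, 615], 16⟩,
  ⟨⟨11, -12, 36, -8, -35, -6, 32, -8, -13⟩, (.cons (nat_lit 1330) (nat_lit 436) (nat_lit 963) (nat_lit 1)
 (.cons (nat_lit 579) (nat_lit 308) (nat_lit 723) (nat_lit 1) .nil)), (nat_lit 30), (nat_lit 8), (nat_lit 14),
 (nat_lit 1), (3, 18, 2), [279, 1042], 4⟩,
  ⟨⟨39, -8, -11, -8, -5, 44, 8, -32, -7⟩, (.cons (nat_lit 69) (nat_lit 235) (nat_lit 424) (nat_lit 1) (.cons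
 (nat_lit 768) (nat_lit 1189) (nat_lit 933) (nat_lit 1) .nil)), (nat_lit 14), (nat_lit 28), (nat_lit 24),
 (nat_lit 1), (5, 17, 20), [81, 321], 20⟩,
  ⟨⟨39, 4, -8, 10, -17, -40, 14, 28, -19⟩, (.cons (nat_lit 237) (nat_lit 880) (nat_lit 754) (nat_lit 1) (.cons
 (nat_lit 653) (nat_lit 543) (nat_lit 261) (nat_lit 1) .nil)), (nat_lit 7), (nat_lit 22), (nat_lit 12),
 (nat_lit 1), (29, 34, 18), [838, 1306], 8⟩,
  ⟨⟨39, -8, -28, -8, -5, -36, 8, -32, -1⟩, (.cons (nat_lit 148) (nat_lit 391) (nat_lit 213) (nat_lit 1) (.cons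
 (nat_lit 713) (nat_lit 1078) (nat_lit 357) (nat_lit 1) .nil)), (nat_lit 8), (nat_lit 29), (nat_lit 18),
 (nat_lit 1), (22, 23, 14), [54, 813], 15⟩,
  ⟨⟨25, -24, -36, -10, 17, -30, -14, -28, -5⟩, (.cons (nat_lit 1330) (nat_lit 629) (nat_lit 1300) (nat_lit 1)
 (.cons (nat_lit 785) (nat_lit 190) (nat_lit 178) (nat_lit 1) .nil)), (nat_lit 30), (nat_lit 13), (nat_lit 9),
 (nat_lit 1), (21, 36, 6), [1307, 179], 26⟩,
  ⟨⟨13, -24, -40, -32, 5, -4, 16, 16, -35⟩, (.cons (nat_lit 710) (nat_lit 1204) (nat_lit 1035) (nat_lit 1)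
 (.cons (nat_lit 262) (nat_lit 1141) (nat_lit 989) (nat_lit 1) .nil)), (nat_lit 24), (nat_lit 22), (nat_lit
 13), (nat_lit 1), (27, 36, 19), [972, 1238], 9⟩,
  ⟨⟨39, 8, -11, 8, -5, -44, 8, 32, -7⟩, (.cons (nat_lit 598) (nat_lit 556) (nat_lit 669) (nat_lit 1) (.cons
 (nat_lit 878) (nat_lit 1045) (nat_lit 389) (nat_lit 1) .nil)), (nat_lit 20), (nat_lit 29), (nat_lit 16),
 (nat_lit 1), (4, 16, 16), [702, 966], 2⟩,
  mz,
  ⟨⟨13, 24, -40, 32, 5, 4, 16, -16, -35⟩, (.cons (nat_lit 448) (nat_lit 1160) (nat_lit 331) (nat_lit 1) (.cons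
 (nat_lit 321) (nat_lit 813) (nat_lit 902) (nat_lit 1) .nil)), (nat_lit 9), (nat_lit 6), (nat_lit 12), (nat_lit
 1), (24, 5, 21), [1178, 779], 25⟩,
  ⟨⟨17, -36, 0, 30, 17, 0, 18, -12, -37⟩, (.cons (nat_lit 1219) (nat_lit 500) (nat_lit 233) (nat_lit 1) (.cons
 (nat_lit 694) (nat_lit 709) (nat_lit 157) (nat_lit 1) .nil)), (nat_lit 15), (nat_lit 26), (nat_lit 27),
 (nat_lit 1), (21, 24, 7), [873, 1099], 30⟩,
  ⟨⟨27, -4, -47, 10, -33, 10, 30, 12, -7⟩, (.cons (nat_lit 1019) (nat_lit 573) (nat_lit 837) (nat_lit 1) (.cons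
 (nat_lit 275) (nat_lit 171) (nat_lit 201) (nat_lit 1) .nil)), (nat_lit 7), (nat_lit 9), (nat_lit 25), (nat_lit
 1), (15, 22, 29), [1241, 1240], 6⟩,
  ⟨⟨27, 4, -47, -10, -33, -10, 30, -12, -7⟩, (.cons (nat_lit 744) (nat_lit 434) (nat_lit 1219) (nat_lit 1)
 (.cons (nat_lit 1228) (nat_lit 103) (nat_lit 189) (nat_lit 1) .nil)), (nat_lit 7), (nat_lit 28), (nat_lit 18),
 (nat_lit 1), (33, 33, 12), [108, 442], 6⟩,
  mz,
  ⟨⟨-35, -12, -1, 12, -35, -6, 0, 0, -37⟩, (.cons (nat_lit 925) (nat_lit 278) (nat_lit 1271) (nat_lit 1) (.cons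
 (nat_lit 99) (nat_lit 393) (nat_lit 720) (nat_lit 1) .nil)), (nat_lit 1), (nat_lit 20), (nat_lit 22), (nat_lit
 1), (23, 27, 0), [805, 847], 30⟩,
  ⟨⟨25, 24, -36, 10, 17, 30, -14, 28, -5⟩, (.cons (nat_lit 1330) (nat_lit 818) (nat_lit 662) (nat_lit 1) (.cons
 (nat_lit 1204) (nat_lit 663) (nat_lit 87) (nat_lit 1) .nil)), (nat_lit 30), (nat_lit 26), (nat_lit 17),
 (nat_lit 1), (18, 22, 21), [586, 348], 23⟩,
  mz,
  mz,
  ⟨⟨-3, -40, 8, 32, -5, -36, -16, -16, -19⟩, (.cons (nat_lit 385) (nat_lit 839) (nat_lit 679) (nat_lit 1)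
 (.cons (nat_lit 1060) (nat_lit 1205) (nat_lit 223) (nat_lit 1) .nil)), (nat_lit 2), (nat_lit 10), (nat_lit
 13), (nat_lit 1), (32, 4, 35), [877, 700], 24⟩,
  mz,
  ⟨⟨21, -4, -49, 8, -35, 6, 32, 8, -13⟩, (.cons (nat_lit 558) (nat_lit 483) (nat_lit 1172) (nat_lit 1) (.cons
 (nat_lit 377) (nat_lit 569) (nat_lit 159) (nat_lit 1) .nil)), (nat_lit 25), (nat_lit 30), (nat_lit 19),
 (nat_lit 1), (18, 28, 1), [846, 1109], 15⟩,
  ⟨⟨17, 36, 0, -30, 17, 0, 18, 12, -37⟩, (.cons (nat_lit 511) (nat_lit 52) (nat_lit 727) (nat_lit 1) (.cons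
 (nat_lit 1234) (nat_lit 1190) (nat_lit 1297) (nat_lit 1) .nil)), (nat_lit 29), (nat_lit 21), (nat_lit 23),
 (nat_lit 1), (35, 34, 24), [925, 702], 27⟩]

/-- Moves. -/
noncomputable def t1_4 : List Mv := [
  mz,
  ⟨⟨3, -16, -43, 10, 33, -20, 30, -12, -23⟩, (.cons (nat_lit 866) (nat_lit 245) (nat_lit 553) (nat_lit 1)
 (.cons (nat_lit 1309) (nat_lit 52) (nat_lit 1287) (nat_lit 1) .nil)), (nat_lit 9), (nat_lit 12), (nat_lit 23),
 (nat_lit 1), (25, 34, 28), [1030, 97], 10⟩,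
  mz,
  mz,
  ⟨⟨21, 4, 28, 8, 35, -14, 32, -8, -19⟩, (.cons (nat_lit 1330) (nat_lit 52) (nat_lit 371) (nat_lit 1) (.cons
 (nat_lit 347) (nat_lit 876) (nat_lit 96) (nat_lit 1) .nil)), (nat_lit 30), (nat_lit 7), (nat_lit 16), (nat_lit
 1), (33, 2, 8), [425, 240], 27⟩,
  ⟨⟨21, -4, 28, 8, -35, -14, 32, 8, -19⟩, (.cons (nat_lit 645) (nat_lit 566) (nat_lit 1247) (nat_lit 1) (.cons
 (nat_lit 896) (nat_lit 170) (nat_lit 1223) (nat_lit 1) .nil)), (nat_lit 5), (nat_lit 16), (nat_lit 26),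
 (nat_lit 1), (15, 11, 7), [784, 1074], 14⟩,
  mz,
  ⟨⟨-1, -24, -36, 30, 17, -30, -18, 12, -19⟩, (.cons (nat_lit 1248) (nat_lit 93) (nat_lit 1216) (nat_lit 1)
 (.cons (nat_lit 331) (nat_lit 721) (nat_lit 688) (nat_lit 1) .nil)), (nat_lit 29), (nat_lit 27), (nat_lit 11),
 (nat_lit 1), (13, 17, 12), [1, 139], 27⟩,
  ⟨⟨-35, 12, -1, 12, 35, -6, 0, 0, -37⟩, (.cons (nat_lit 1330) (nat_lit 1302) (nat_lit 179) (nat_lit 1) (.cons
 (nat_lit 623) (nat_lit 672) (nat_lit 767) (nat_lit 1) .nil)), (nat_lit 30), (nat_lit 5), (nat_lit 10),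
 (nat_lit 1), (3, 18, 0), [366, 1312], 4⟩,
  mz,
  ⟨⟨-17, -36, 17, 30, -17, -30, -18, -12, -19⟩, (.cons (nat_lit 1050) (nat_lit 170) (nat_lit 904) (nat_lit 1)
 (.cons (nat_lit 501) (nat_lit 874) (nat_lit 837) (nat_lit 1) .nil)), (nat_lit 13), (nat_lit 8), (nat_lit 8),
 (nat_lit 1), (22, 33, 32), [1208, 1360], 27⟩,
  ⟨⟨3, 16, -43, 10, -33, -20, 30, 12, -23⟩, (.cons (nat_lit 452) (nat_lit 371) (nat_lit 336) (nat_lit 1) (.cons
 (nat_lit 624) (nat_lit 780) (nat_lit 209) (nat_lit 1) .nil)), (nat_lit 17), (nat_lit 21), (nat_lit 11),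
 (nat_lit 1), (23, 15, 8), [936, 854], 13⟩,
  ⟨⟨39, -4, -8, -10, -17, 40, 14, -28, -19⟩, (.cons (nat_lit 629) (nat_lit 176) (nat_lit 901) (nat_lit 1)
 (.cons (nat_lit 608) (nat_lit 1179) (nat_lit 153) (nat_lit 1) .nil)), (nat_lit 9), (nat_lit 19), (nat_lit 16),
 (nat_lit 1), (11, 19, 3), [382, 929], 28⟩,
  ⟨⟨39, 8, -28, -8, 5, -36, 8, 32, -1⟩, (.cons (nat_lit 797) (nat_lit 733) (nat_lit 1009) (nat_lit 1) (.cons
 (nat_lit 1257) (nat_lit 750) (nat_lit 782) (nat_lit 1) .nil)), (nat_lit 13), (nat_lit 17), (nat_lit 3),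
 (nat_lit 1), (21, 27, 10), [478, 689], 20⟩,
  mz,
  ⟨⟨-3, 40, 8, -32, -5, 36, -16, 16, -19⟩, (.cons (nat_lit 1122) (nat_lit 1239) (nat_lit 115) (nat_lit 1)
 (.cons (nat_lit 1240) (nat_lit 371) (nat_lit 866) (nat_lit 1) .nil)), (nat_lit 2), (nat_lit 22), (nat_lit 20),
 (nat_lit 1), (27, 29, 33), [932, 1069], 24⟩,
  ⟨⟨11, -12, 36, -8, -35, -6, 32, -8, -13⟩, (.cons (nat_lit 1330) (nat_lit 436) (nat_lit 963) (nat_lit 1)
 (.cons (nat_lit 579) (nat_lit 308) (nat_lit 723) (nat_lit 1) .nil)), (nat_lit 30), (nat_lit 8), (nat_lit 14),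
 (nat_lit 1), (3, 18, 2), [279, 1042], 4⟩,
  ⟨⟨-31, -24, 4, -8, -5, 44, 8, -32, -7⟩, (.cons (nat_lit 133) (nat_lit 1098) (nat_lit 257) (nat_lit 1) (.cons
 (nat_lit 178) (nat_lit 1126) (nat_lit 1207) (nat_lit 1) .nil)), (nat_lit 1), (nat_lit 6), (nat_lit 12),
 (nat_lit 1), (15, 17, 20), [921, 856], 23⟩,
  ⟨⟨39, 4, -8, -10, 17, 40, 14, 28, -19⟩, (.cons (nat_lit 1330) (nat_lit 1275) (nat_lit 139) (nat_lit 1) (.cons
 (nat_lit 865) (nat_lit 517) (nat_lit 1267) (nat_lit 1) .nil)), (nat_lit 30), (nat_lit 20), (nat_lit 26),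
 (nat_lit 1), (29, 3, 18), [856, 1161], 26⟩,
  ⟨⟨39, -8, -28, 8, 5, 36, 8, -32, -1⟩, (.cons (nat_lit 1321) (nat_lit 332) (nat_lit 1239) (nat_lit 1) (.cons
 (nat_lit 128) (nat_lit 4) (nat_lit 1037) (nat_lit 1) .nil)), (nat_lit 1), (nat_lit 25), (nat_lit 19), (nat_lit
 1), (22, 14, 14), [1070, 87], 8⟩,
  ⟨⟨25, -24, -36, -10, 17, -30, -14, -28, -5⟩, (.cons (nat_lit 1330) (nat_lit 629) (nat_lit 1300) (nat_lit 1)
 (.cons (nat_lit 785) (nat_lit 190) (nat_lit 178) (nat_lit 1) .nil)), (nat_lit 30), (nat_lit 13), (nat_lit 9),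
 (nat_lit 1), (21, 36, 6), [1307, 179], 26⟩,
  ⟨⟨13, -24, -40, 32, -5, 4, 16, 16, -35⟩, (.cons (nat_lit 706) (nat_lit 1064) (nat_lit 1) (nat_lit 187) (.cons
 (nat_lit 1208) (nat_lit 632) (nat_lit 9) (nat_lit 1) .nil)), (nat_lit 16), (nat_lit 20), (nat_lit 21),
 (nat_lit 1), (27, 1, 19), [725, 373], 6⟩,
  ⟨⟨39, 8, -11, 8, -5, -44, 8, 32, -7⟩, (.cons (nat_lit 598) (nat_lit 556) (nat_lit 669) (nat_lit 1) (.cons
 (nat_lit 878) (nat_lit 1045) (nat_lit 389) (nat_lit 1) .nil)), (nat_lit 20), (nat_lit 29), (nat_lit 16),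
 (nat_lit 1), (4, 16, 16), [702, 966], 2⟩,
  mz,
  ⟨⟨13, 24, -40, -32, -5, -4, 16, -16, -35⟩, (.cons (nat_lit 345) (nat_lit 703) (nat_lit 1) (nat_lit 1056)
 (.cons (nat_lit 1050) (nat_lit 506) (nat_lit 422) (nat_lit 1) .nil)), (nat_lit 16), (nat_lit 26), (nat_lit 9),
 (nat_lit 1), (24, 32, 21), [1250, 287], 6⟩,
  ⟨⟨1, 24, -37, -30, -17, 0, 18, -12, -37⟩, (.cons (nat_lit 1241) (nat_lit 659) (nat_lit 169) (nat_lit 1)
 (.cons (nat_lit 281) (nat_lit 1244) (nat_lit 757) (nat_lit 1) .nil)), (nat_lit 12), (nat_lit 28), (nat_lit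
 28), (nat_lit 1), (23, 13, 7), [619, 924], 13⟩,
  ⟨⟨27, -4, -47, -10, 33, -10, 30, 12, -7⟩, (.cons (nat_lit 639) (nat_lit 1180) (nat_lit 918) (nat_lit 1)
 (.cons (nat_lit 565) (nat_lit 1112) (nat_lit 307) (nat_lit 1) .nil)), (nat_lit 11), (nat_lit 17), (nat_lit 3),
 (nat_lit 1), (15, 15, 29), [208, 62], 8⟩,
  ⟨⟨27, 4, -47, -10, -33, -10, 30, -12, -7⟩, (.cons (nat_lit 744) (nat_lit 434) (nat_lit 1219) (nat_lit 1)
 (.cons (nat_lit 1228) (nat_lit 103) (nat_lit 189) (nat_lit 1) .nil)), (nat_lit 7), (nat_lit 28), (nat_lit 18),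
 (nat_lit 1), (33, 33, 12), [108, 442], 6⟩,
  mz,
  ⟨⟨35, 12, -36, -12, 35, 6, 0, 0, -37⟩, (.cons (nat_lit 980) (nat_lit 816) (nat_lit 92) (nat_lit 1) (.cons
 (nat_lit 657) (nat_lit 931) (nat_lit 355) (nat_lit 1) .nil)), (nat_lit 1), (nat_lit 24), (nat_lit 14),
 (nat_lit 1), (14, 10, 0), [875, 1288], 26⟩,
  ⟨⟨-39, 4, 31, -10, -17, -30, -14, 28, -5⟩, (.cons (nat_lit 817) (nat_lit 1195) (nat_lit 635) (nat_lit 1)
 (.cons (nat_lit 105) (nat_lit 287) (nat_lit 18) (nat_lit 1) .nil)), (nat_lit 11), (nat_lit 28), (nat_lit 25),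
 (nat_lit 1), (3, 15, 21), [795, 954], 11⟩,
  mz,
  mz,
  ⟨⟨-3, -40, 8, 32, -5, -36, -16, -16, -19⟩, (.cons (nat_lit 385) (nat_lit 839) (nat_lit 679) (nat_lit 1)
 (.cons (nat_lit 1060) (nat_lit 1205) (nat_lit 223) (nat_lit 1) .nil)), (nat_lit 2), (nat_lit 10), (nat_lit
 13), (nat_lit 1), (32, 4, 35), [877, 700], 24⟩,
  mz,
  ⟨⟨21, -4, -49, -8, 35, -6, 32, 8, -13⟩, (.cons (nat_lit 696) (nat_lit 814) (nat_lit 1089) (nat_lit 1) (.cons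
 (nat_lit 1285) (nat_lit 416) (nat_lit 1145) (nat_lit 1) .nil)), (nat_lit 6), (nat_lit 0), (nat_lit 0),
 (nat_lit 1), (18, 9, 1), [463, 8], 5⟩,
  ⟨⟨1, -24, -37, -30, 17, 0, 18, 12, -37⟩, (.cons (nat_lit 484) (nat_lit 865) (nat_lit 1031) (nat_lit 1) (.cons
 (nat_lit 1365) (nat_lit 409) (nat_lit 81) (nat_lit 1) .nil)), (nat_lit 14), (nat_lit 4), (nat_lit 8), (nat_lit
 1), (26, 34, 24), [271, 1092], 16⟩]

/-- Moves. -/
noncomputable def t4_1 : List Mv := [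
  mz,
  ⟨⟨3, 20, 29, 4, -25, 18, 26, 8, -7⟩, (.cons (nat_lit 810) (nat_lit 90) (nat_lit 173) (nat_lit 1) (.cons (nat_lit 29) (nat_lit 158) (nat_lit 839) (nat_lit 1) .nil)), (nat_lit 26), (nat_lit 0), (nat_lit 0), (nat_lit 0), (26, 14, 29), [304, 1215], 0⟩,
  ⟨⟨3, -20, 29, 4, 25, 18, 26, -8, -7⟩, (.cons (nat_lit 563) (nat_lit 1327) (nat_lit 1280) (nat_lit 1) (.cons
 (nat_lit 315) (nat_lit 625) (nat_lit 851) (nat_lit 1) .nil)), (nat_lit 26), (nat_lit 0), (nat_lit 0), (nat_lit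
 0), (19, 15, 20), [850, 1076], 0⟩,
  mz,
  ⟨⟨-33, 8, 17, 4, 15, 28, -6, 24, -11⟩, (.cons (nat_lit 784) (nat_lit 130) (nat_lit 1) (nat_lit 0) (.cons
 (nat_lit 293) (nat_lit 1210) (nat_lit 460) (nat_lit 1) .nil)), (nat_lit 21), (nat_lit 0), (nat_lit 0),
 (nat_lit 0), (23, 16, 7), [1294, 1145], 0⟩,
  mz,
  ⟨⟨21, -4, -40, 16, 25, 2, 22, -16, -5⟩, (.cons (nat_lit 1270) (nat_lit 507) (nat_lit 556) (nat_lit 1) (.cons
 (nat_lit 1172) (nat_lit 1) (nat_lit 1364) (nat_lit 1) .nil)), (nat_lit 23), (nat_lit 0), (nat_lit 0), (nat_lit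
 0), (21, 16, 22), [134, 893], 0⟩,
  mz,
  ⟨⟨27, -20, -19, 10, 19, -30, -4, -20, -19⟩, (.cons (nat_lit 787) (nat_lit 983) (nat_lit 1285) (nat_lit 1)
 (.cons (nat_lit 52) (nat_lit 540) (nat_lit 669) (nat_lit 1) .nil)), (nat_lit 25), (nat_lit 0), (nat_lit 0),
 (nat_lit 0), (29, 5, 29), [677, 397], 0⟩,
  mz,
  mz,
  mz,
  mz,
  ⟨⟨-31, 0, 0, 10, -19, -30, -4, 20, -19⟩, (.cons (nat_lit 568) (nat_lit 952) (nat_lit 61) (nat_lit 1) (.cons (nat_lit 352) (nat_lit 12) (nat_lit 907) (nat_lit 1) .nil)), (nat_lit 8), (nat_lit 0), (nat_lit 0), (nat_lit 0), (0, 3, 5), [415, 670], 0⟩,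
  ⟨⟨27, -16, -28, -4, 15, -28, -6, -24, -11⟩, (.cons (nat_lit 1330) (nat_lit 219) (nat_lit 41) (nat_lit 1)
 (.cons (nat_lit 1368) (nat_lit 723) (nat_lit 1352) (nat_lit 1) .nil)), (nat_lit 14), (nat_lit 0), (nat_lit 0),
 (nat_lit 0), (28, 28, 11), [201, 961], 0⟩,
  ⟨⟨3, 20, -32, 4, -25, -22, 26, 8, -19⟩, (.cons (nat_lit 501) (nat_lit 797) (nat_lit 553) (nat_lit 1) (.cons
 (nat_lit 1107) (nat_lit 494) (nat_lit 70) (nat_lit 1) .nil)), (nat_lit 26), (nat_lit 0), (nat_lit 0), (nat_lit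
 0), (10, 3, 4), [697, 1330], 0⟩,
  mz,
  mz,
  ⟨⟨1, -12, -36, 16, 25, -18, 22, -16, -17⟩, (.cons (nat_lit 288) (nat_lit 889) (nat_lit 1) (nat_lit 154)
 (.cons (nat_lit 856) (nat_lit 245) (nat_lit 864) (nat_lit 1) .nil)), (nat_lit 1), (nat_lit 0), (nat_lit 0),
 (nat_lit 0), (21, 26, 28), [381, 62], 0⟩,
  ⟨⟨29, -12, 0, 10, 29, 0, 20, -4, -31⟩, (.cons (nat_lit 748) (nat_lit 405) (nat_lit 415) (nat_lit 1) (.cons
 (nat_lit 144) (nat_lit 798) (nat_lit 396) (nat_lit 1) .nil)), (nat_lit 24), (nat_lit 0), (nat_lit 0), (nat_lit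
 0), (28, 15, 30), [230, 696], 0⟩,
  ⟨⟨9, 8, -40, 10, -29, -10, -20, -4, -11⟩, (.cons (nat_lit 1330) (nat_lit 53) (nat_lit 265) (nat_lit 1) (.cons
 (nat_lit 1368) (nat_lit 862) (nat_lit 279) (nat_lit 1) .nil)), (nat_lit 20), (nat_lit 0), (nat_lit 0),
 (nat_lit 0), (27, 30, 2), [1142, 105], 0⟩,
  ⟨⟨-27, 16, -1, -4, 15, 32, 6, 24, -17⟩, (.cons (nat_lit 0) (nat_lit 173) (nat_lit 73) (nat_lit 1) (.cons (nat_lit 271) (nat_lit 650) (nat_lit 1288) (nat_lit 1) .nil)), (nat_lit 4), (nat_lit 0), (nat_lit 0), (nat_lit 0), (2, 29, 3), [1146, 489], 0⟩,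
  ⟨⟨-29, 12, 29, -10, -29, 10, -20, 4, -11⟩, (.cons (nat_lit 1028) (nat_lit 11) (nat_lit 795) (nat_lit 1)
 (.cons (nat_lit 867) (nat_lit 478) (nat_lit 850) (nat_lit 1) .nil)), (nat_lit 24), (nat_lit 0), (nat_lit 0),
 (nat_lit 0), (4, 11, 22), [978, 1003], 0⟩,
  ⟨⟨3, -20, -32, 4, 25, -22, 26, -8, -19⟩, (.cons (nat_lit 801) (nat_lit 1304) (nat_lit 336) (nat_lit 1) (.cons
 (nat_lit 329) (nat_lit 513) (nat_lit 1) (nat_lit 296) .nil)), (nat_lit 26), (nat_lit 0), (nat_lit 0), (nat_lit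
 0), (3, 4, 26), [1264, 784], 0⟩,
  ⟨⟨29, 12, 0, -10, 29, 0, 20, 4, -31⟩, (.cons (nat_lit 356) (nat_lit 899) (nat_lit 1) (nat_lit 88) (.cons
 (nat_lit 675) (nat_lit 736) (nat_lit 1024) (nat_lit 1) .nil)), (nat_lit 19), (nat_lit 0), (nat_lit 0),
 (nat_lit 0), (26, 6, 19), [380, 1209], 0⟩,
  ⟨⟨31, 0, -31, -10, 19, -20, 4, -20, -23⟩, (.cons (nat_lit 849) (nat_lit 1301) (nat_lit 455) (nat_lit 1)
 (.cons (nat_lit 79) (nat_lit 1148) (nat_lit 540) (nat_lit 1) .nil)), (nat_lit 8), (nat_lit 0), (nat_lit 0),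
 (nat_lit 0), (0, 22, 16), [409, 1156], 0⟩,
  ⟨⟨1, 12, 35, 16, -25, 2, 22, 16, -5⟩, (.cons (nat_lit 327) (nat_lit 1183) (nat_lit 662) (nat_lit 1) (.cons
 (nat_lit 1133) (nat_lit 325) (nat_lit 868) (nat_lit 1) .nil)), (nat_lit 1), (nat_lit 0), (nat_lit 0), (nat_lit
 0), (30, 15, 9), [734, 970], 0⟩,
  ⟨⟨33, -8, -16, 4, 15, -32, 6, -24, -17⟩, (.cons (nat_lit 1330) (nat_lit 1112) (nat_lit 1146) (nat_lit 1)
 (.cons (nat_lit 1368) (nat_lit 812) (nat_lit 951) (nat_lit 1) .nil)), (nat_lit 27), (nat_lit 0), (nat_lit 0),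
 (nat_lit 0), (23, 15, 7), [863, 269], 0⟩,
  ⟨⟨1, 12, -36, 16, -25, -18, 22, 16, -17⟩, (.cons (nat_lit 996) (nat_lit 81) (nat_lit 848) (nat_lit 1) (.cons
 (nat_lit 811) (nat_lit 959) (nat_lit 486) (nat_lit 1) .nil)), (nat_lit 1), (nat_lit 0), (nat_lit 0), (nat_lit
 0), (19, 25, 15), [796, 738], 0⟩,
  ⟨⟨31, 0, -31, -10, -19, -20, 4, 20, -23⟩, (.cons (nat_lit 314) (nat_lit 535) (nat_lit 888) (nat_lit 1) (.cons
 (nat_lit 171) (nat_lit 682) (nat_lit 860) (nat_lit 1) .nil)), (nat_lit 8), (nat_lit 0), (nat_lit 0), (nat_lit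
 0), (0, 20, 23), [452, 763], 0⟩]

/-- Moves. -/
noncomputable def t4_4 : List Mv := [
  mz,
  ⟨⟨3, 20, 29, -4, 25, -18, 26, 8, -7⟩, (.cons (nat_lit 30) (nat_lit 754) (nat_lit 660) (nat_lit 1) (.cons
 (nat_lit 337) (nat_lit 1265) (nat_lit 156) (nat_lit 1) .nil)), (nat_lit 6), (nat_lit 0), (nat_lit 0), (nat_lit
 0), (26, 17, 29), [951, 1353], 0⟩,
  ⟨⟨3, -20, 29, -4, -25, -18, 26, -8, -7⟩, (.cons (nat_lit 1313) (nat_lit 636) (nat_lit 739) (nat_lit 1) (.cons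
 (nat_lit 20) (nat_lit 126) (nat_lit 462) (nat_lit 1) .nil)), (nat_lit 6), (nat_lit 0), (nat_lit 0), (nat_lit
 0), (19, 16, 20), [1106, 390], 0⟩,
  mz,
  ⟨⟨-33, 8, 17, -4, -15, -28, -6, 24, -11⟩, (.cons (nat_lit 276) (nat_lit 533) (nat_lit 606) (nat_lit 1) (.cons
 (nat_lit 150) (nat_lit 1359) (nat_lit 924) (nat_lit 1) .nil)), (nat_lit 27), (nat_lit 0), (nat_lit 0),
 (nat_lit 0), (23, 15, 7), [586, 507], 0⟩,
  mz,
  ⟨⟨1, -12, 35, -16, -25, -2, 22, -16, -5⟩, (.cons (nat_lit 1257) (nat_lit 479) (nat_lit 115) (nat_lit 1)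
 (.cons (nat_lit 753) (nat_lit 952) (nat_lit 1209) (nat_lit 1) .nil)), (nat_lit 2), (nat_lit 0), (nat_lit 0),
 (nat_lit 0), (1, 15, 22), [406, 309], 0⟩,
  mz,
  ⟨⟨-31, 0, 0, -10, -19, 30, -4, -20, -19⟩, (.cons (nat_lit 1174) (nat_lit 392) (nat_lit 260) (nat_lit 1)
 (.cons (nat_lit 1334) (nat_lit 420) (nat_lit 258) (nat_lit 1) .nil)), (nat_lit 13), (nat_lit 0), (nat_lit 0),
 (nat_lit 0), (0, 26, 29), [600, 719], 0⟩,
  mz,
  mz,
  mz,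
  mz,
  ⟨⟨-31, 0, 0, 10, -19, -30, -4, 20, -19⟩, (.cons (nat_lit 568) (nat_lit 952) (nat_lit 61) (nat_lit 1) (.cons (nat_lit 352) (nat_lit 12) (nat_lit 907) (nat_lit 1) .nil)), (nat_lit 8), (nat_lit 0), (nat_lit 0), (nat_lit 0), (0, 3, 5), [415, 670], 0⟩,
  ⟨⟨27, -16, -28, -4, 15, -28, -6, -24, -11⟩, (.cons (nat_lit 1330) (nat_lit 219) (nat_lit 41) (nat_lit 1)
 (.cons (nat_lit 1368) (nat_lit 723) (nat_lit 1352) (nat_lit 1) .nil)), (nat_lit 14), (nat_lit 0), (nat_lit 0),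
 (nat_lit 0), (28, 28, 11), [201, 961], 0⟩,
  ⟨⟨23, -12, 13, 4, -25, -22, 26, 8, -19⟩, (.cons (nat_lit 799) (nat_lit 1122) (nat_lit 656) (nat_lit 1) (.cons
 (nat_lit 768) (nat_lit 17) (nat_lit 1157) (nat_lit 1) .nil)), (nat_lit 18), (nat_lit 0), (nat_lit 0), (nat_lit
 0), (25, 3, 4), [1152, 1], 0⟩,
  mz,
  mz,
  ⟨⟨21, -4, 19, -16, -25, 18, 22, -16, -17⟩, (.cons (nat_lit 668) (nat_lit 1188) (nat_lit 1022) (nat_lit 1)
 (.cons (nat_lit 41) (nat_lit 672) (nat_lit 478) (nat_lit 1) .nil)), (nat_lit 15), (nat_lit 0), (nat_lit 0),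
 (nat_lit 0), (7, 5, 28), [545, 312], 0⟩,
  ⟨⟨-9, 8, -31, -10, -29, 0, 20, -4, -31⟩, (.cons (nat_lit 218) (nat_lit 151) (nat_lit 781) (nat_lit 1) (.cons
 (nat_lit 451) (nat_lit 699) (nat_lit 805) (nat_lit 1) .nil)), (nat_lit 20), (nat_lit 0), (nat_lit 0), (nat_lit
 0), (2, 16, 30), [832, 825], 0⟩,
  ⟨⟨9, 8, -40, 10, -29, -10, -20, -4, -11⟩, (.cons (nat_lit 1330) (nat_lit 53) (nat_lit 265) (nat_lit 1) (.cons
 (nat_lit 1368) (nat_lit 862) (nat_lit 279) (nat_lit 1) .nil)), (nat_lit 20), (nat_lit 0), (nat_lit 0),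
 (nat_lit 0), (27, 30, 2), [1142, 105], 0⟩,
  ⟨⟨33, 8, -16, -4, 15, 32, 6, 24, -17⟩, (.cons (nat_lit 1330) (nat_lit 18) (nat_lit 354) (nat_lit 1) (.cons
 (nat_lit 1368) (nat_lit 755) (nat_lit 779) (nat_lit 1) .nil)), (nat_lit 21), (nat_lit 0), (nat_lit 0),
 (nat_lit 0), (1, 29, 3), [575, 184], 0⟩,
  ⟨⟨9, -8, -40, 10, 29, -10, -20, 4, -11⟩, (.cons (nat_lit 1328) (nat_lit 439) (nat_lit 1) (nat_lit 737) (.cons
 (nat_lit 453) (nat_lit 842) (nat_lit 1043) (nat_lit 1) .nil)), (nat_lit 20), (nat_lit 0), (nat_lit 0),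
 (nat_lit 0), (18, 20, 22), [959, 99], 0⟩,
  ⟨⟨3, -20, -32, -4, -25, 22, 26, -8, -19⟩, (.cons (nat_lit 240) (nat_lit 772) (nat_lit 991) (nat_lit 1) (.cons
 (nat_lit 410) (nat_lit 959) (nat_lit 681) (nat_lit 1) .nil)), (nat_lit 6), (nat_lit 0), (nat_lit 0), (nat_lit
 0), (3, 27, 26), [69, 288], 0⟩,
  ⟨⟨-9, -8, -31, 10, -29, 0, 20, 4, -31⟩, (.cons (nat_lit 1208) (nat_lit 22) (nat_lit 622) (nat_lit 1) (.cons
 (nat_lit 1339) (nat_lit 650) (nat_lit 858) (nat_lit 1) .nil)), (nat_lit 22), (nat_lit 0), (nat_lit 0),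
 (nat_lit 0), (24, 25, 19), [766, 529], 0⟩,
  ⟨⟨31, 0, -31, -10, 19, -20, 4, -20, -23⟩, (.cons (nat_lit 849) (nat_lit 1301) (nat_lit 455) (nat_lit 1)
 (.cons (nat_lit 79) (nat_lit 1148) (nat_lit 540) (nat_lit 1) .nil)), (nat_lit 8), (nat_lit 0), (nat_lit 0),
 (nat_lit 0), (0, 22, 16), [409, 1156], 0⟩,
  ⟨⟨1, 12, 35, -16, 25, -2, 22, 16, -5⟩, (.cons (nat_lit 435) (nat_lit 409) (nat_lit 889) (nat_lit 1) (.cons
 (nat_lit 113) (nat_lit 563) (nat_lit 1036) (nat_lit 1) .nil)), (nat_lit 2), (nat_lit 0), (nat_lit 0), (nat_lit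
 0), (30, 16, 9), [548, 160], 0⟩,
  ⟨⟨-27, -16, -1, -4, -15, 32, 6, -24, -17⟩, (.cons (nat_lit 815) (nat_lit 842) (nat_lit 1242) (nat_lit 1)
 (.cons (nat_lit 648) (nat_lit 1004) (nat_lit 870) (nat_lit 1) .nil)), (nat_lit 4), (nat_lit 0), (nat_lit 0),
 (nat_lit 0), (15, 16, 7), [872, 876], 0⟩,
  ⟨⟨1, 12, -36, 16, -25, -18, 22, 16, -17⟩, (.cons (nat_lit 996) (nat_lit 81) (nat_lit 848) (nat_lit 1) (.cons
 (nat_lit 811) (nat_lit 959) (nat_lit 486) (nat_lit 1) .nil)), (nat_lit 1), (nat_lit 0), (nat_lit 0), (nat_lit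
 0), (19, 25, 15), [796, 738], 0⟩,
  ⟨⟨31, 0, -31, -10, -19, -20, 4, 20, -23⟩, (.cons (nat_lit 314) (nat_lit 535) (nat_lit 888) (nat_lit 1) (.cons
 (nat_lit 171) (nat_lit 682) (nat_lit 860) (nat_lit 1) .nil)), (nat_lit 8), (nat_lit 0), (nat_lit 0), (nat_lit
 0), (0, 20, 23), [452, 763], 0⟩]

/-- All the moves. -/
noncomputable def tabs : List (List (List Mv)) := [[[], t0_1, [], [], t0_4], [[], t1_1, [], [], t1_4], [], [], [[], t4_1, [], [], t4_4]]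

/-- Subtrie. -/
noncomputable def T1 : Tr := (.ev (nat_lit 20) (nat_lit 948215808) (.nd (nat_lit 33) (.br (nat_lit 19) (.br
 (nat_lit 11) (.br (nat_lit 7) (.br (nat_lit 4) (.ch (nat_lit 1) (.ev (nat_lit 52) (nat_lit 4718864) (.ev
 (nat_lit 116) (nat_lit 1048576) (.ev (nat_lit 256) (nat_lit 119554118) .dd)))) (.br (nat_lit 5) (.ch (nat_lit
 4) (.ev (nat_lit 52) (nat_lit 33570816) (.ev (nat_lit 212) (nat_lit 16777232) (.ev (nat_lit 372) (nat_lit 256)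
 (.ev (nat_lit 720) (nat_lit 64) (.nd (nat_lit 928) (.br (nat_lit 5) (.ch (nat_lit 2) (.ev (nat_lit 944)
 (nat_lit 67108868) (.ev (nat_lit 976) (nat_lit 2) (.ev (nat_lit 1060) (nat_lit 4718592) (.ev (nat_lit 1072)
 (nat_lit 2097152) (.ev (nat_lit 1085) (nat_lit 1048576) .dd)))))) (.br (nat_lit 9) (.ch (nat_lit 5) (.ev
 (nat_lit 944) (nat_lit 6815750) (.ev (nat_lit 1092) (nat_lit 1048576) (.ev (nat_lit 1101) (nat_lit 67108864)
 .dd)))) (.ch (nat_lit 9) (.ev (nat_lit 944) (nat_lit 7864320) (.ev (nat_lit 1108) (nat_lit 67108864) (.nd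
 (nat_lit 1120) (.br (nat_lit 7) (.ch (nat_lit 5) (.fin (nat_lit 576462401572389451))) (.ch (nat_lit 7) (.ev
 (nat_lit 1136) (nat_lit 6) .dd))))))))))))))) (.ch (nat_lit 5) (.ev (nat_lit 52) (nat_lit 33554448) (.ev
 (nat_lit 116) (nat_lit 64) (.ev (nat_lit 244) (nat_lit 4194304) (.ev (nat_lit 340) (nat_lit 2097152) (.ev
 (nat_lit 372) (nat_lit 67108864) (.ev (nat_lit 532) (nat_lit 524544) (.nd (nat_lit 928) (.br (nat_lit 9) (.br
 (nat_lit 7) (.ch (nat_lit 1) (.ev (nat_lit 944) (nat_lit 1048582) (.ev (nat_lit 1060) (nat_lit 16384) (.ev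
 (nat_lit 1069) (nat_lit 16777216) .dd)))) (.ch (nat_lit 7) (.ev (nat_lit 944) (nat_lit 16793606) (.ev (nat_lit
 957) (nat_lit 1048576) .dd)))) (.br (nat_lit 10) (.ch (nat_lit 9) (.ev (nat_lit 944) (nat_lit 1048576) (.ev
 (nat_lit 1060) (nat_lit 16793600) (.fin (nat_lit 576460202549133877))))) (.ch (nat_lit 10) (.ev (nat_lit 944)
 (nat_lit 16793606) (.ev (nat_lit 957) (nat_lit 1048576) .dd))))))))))))))) (.br (nat_lit 8) (.ch (nat_lit 7)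
 (.ev (nat_lit 52) (nat_lit 18891072) (.ev (nat_lit 276) (nat_lit 2) (.ev (nat_lit 564) (nat_lit 33554448) (.ev
 (nat_lit 836) (nat_lit 4) (.nd (nat_lit 928) (.br (nat_lit 5) (.br (nat_lit 2) (.ch (nat_lit 0) (.ev (nat_lit
 944) (nat_lit 5767168) (.ev (nat_lit 957) (nat_lit 67108864) .dd))) (.ch (nat_lit 2) (.ev (nat_lit 944)
 (nat_lit 68157440) (.ev (nat_lit 992) (nat_lit 524288) (.ev (nat_lit 1005) (nat_lit 4194304) .dd))))) (.br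
 (nat_lit 7) (.ch (nat_lit 5) (.ev (nat_lit 944) (nat_lit 4718592) (.ev (nat_lit 992) (nat_lit 67108864) (.ev
 (nat_lit 1005) (nat_lit 1048576) .dd)))) (.ch (nat_lit 7) (.ev (nat_lit 944) (nat_lit 72351744) (.ev (nat_lit
 957) (nat_lit 524288) .dd))))))))))) (.br (nat_lit 10) (.ch (nat_lit 8) (.ev (nat_lit 52) (nat_lit 17825796)
 (.ev (nat_lit 148) (nat_lit 2) (.ev (nat_lit 212) (nat_lit 256) (.ev (nat_lit 372) (nat_lit 2097152) (.ev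
 (nat_lit 564) (nat_lit 67108864) (.ev (nat_lit 864) (nat_lit 16) (.nd (nat_lit 928) (.br (nat_lit 5) (.br
 (nat_lit 1) (.ch (nat_lit 0) (.ev (nat_lit 944) (nat_lit 4734976) (.ev (nat_lit 1060) (nat_lit 33554432) (.ev
 (nat_lit 1069) (nat_lit 64) .dd)))) (.br (nat_lit 2) (.ch (nat_lit 1) (.ev (nat_lit 944) (nat_lit 38273024)
 (.ev (nat_lit 1060) (nat_lit 16384) (.ev (nat_lit 1069) (nat_lit 64) .dd)))) (.ch (nat_lit 2) (.ev (nat_lit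
 944) (nat_lit 37765120) (.ev (nat_lit 1008) (nat_lit 524352) .dd))))) (.br (nat_lit 9) (.ch (nat_lit 5) (.ev
 (nat_lit 944) (nat_lit 4718656) (.fin (nat_lit 576470098152735306)))) (.br (nat_lit 10) (.ch (nat_lit 9) (.ev
 (nat_lit 944) (nat_lit 34078784) (.ev (nat_lit 1060) (nat_lit 16384) (.ev (nat_lit 1069) (nat_lit 4194304)
 .dd)))) (.ch (nat_lit 10) (.ev (nat_lit 944) (nat_lit 540672) (.ev (nat_lit 1060) (nat_lit 4194368) (.ev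
 (nat_lit 1069) (nat_lit 33554432) .dd))))))))))))))) (.ch (nat_lit 10) (.ev (nat_lit 52) (nat_lit 103284752)
 (.ev (nat_lit 308) (nat_lit 4194304) (.ev (nat_lit 468) (nat_lit 64) (.ev (nat_lit 576) (nat_lit 1048578) (.nd
 (nat_lit 928) (.br (nat_lit 5) (.ch (nat_lit 1) (.ev (nat_lit 944) (nat_lit 16640) (.ev (nat_lit 1024)
 (nat_lit 4) (.ev (nat_lit 1037) (nat_lit 16777216) .dd)))) (.br (nat_lit 9) (.ch (nat_lit 5) (.ev (nat_lit
 944) (nat_lit 16640) (.ev (nat_lit 1024) (nat_lit 16777216) (.ev (nat_lit 1037) (nat_lit 4) .dd)))) (.ch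
 (nat_lit 9) (.ev (nat_lit 1024) (nat_lit 4) (.ev (nat_lit 1072) (nat_lit 16777216) (.fin (nat_lit
 576465700116709950)))))))))))))))) (.br (nat_lit 15) (.br (nat_lit 12) (.ch (nat_lit 11) (.ev (nat_lit 52)
 (nat_lit 17842176) (.ev (nat_lit 212) (nat_lit 524288) (.ev (nat_lit 308) (nat_lit 64) (.nd (nat_lit 928) (.br
 (nat_lit 7) (.br (nat_lit 5) (.ch (nat_lit 1) (.ev (nat_lit 944) (nat_lit 39846162) (.ev (nat_lit 1060)
 (nat_lit 4) (.ev (nat_lit 1069) (nat_lit 67108864) .dd)))) (.ch (nat_lit 5) (.ev (nat_lit 944) (nat_lit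
 39846162) (.ev (nat_lit 1060) (nat_lit 67108864) (.ev (nat_lit 1069) (nat_lit 4) .dd))))) (.br (nat_lit 10)
 (.ch (nat_lit 7) (.ev (nat_lit 944) (nat_lit 102760454) (.ev (nat_lit 1060) (nat_lit 4194304) (.nd (nat_lit
 1120) (.br (nat_lit 4) (.ch (nat_lit 0) (.fin (nat_lit 576478894218494556))) (.ch (nat_lit 4) (.ev (nat_lit
 1136) (nat_lit 272) .dd))))))) (.ch (nat_lit 10) (.ev (nat_lit 944) (nat_lit 71303444) (.ev (nat_lit 1060)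
 (nat_lit 2097152) (.nd (nat_lit 1120) (.br (nat_lit 7) (.ch (nat_lit 0) (.fin (nat_lit 576456904038367776)))
 (.ch (nat_lit 7) (.ev (nat_lit 1136) (nat_lit 33554434) .dd)))))))))))))) (.br (nat_lit 13) (.ch (nat_lit 12)
 (.ev (nat_lit 52) (nat_lit 90177796) (.ev (nat_lit 352) (nat_lit 35143762) .dd))) (.ch (nat_lit 13) (.ev
 (nat_lit 52) (nat_lit 71303488) (.ev (nat_lit 212) (nat_lit 2097152) (.ev (nat_lit 276) (nat_lit 524304) (.ev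
 (nat_lit 308) (nat_lit 1048576) (.ev (nat_lit 512) (nat_lit 50348038) .dd)))))))) (.br (nat_lit 17) (.br
 (nat_lit 16) (.ch (nat_lit 15) (.ev (nat_lit 52) (nat_lit 24641602) (.ev (nat_lit 84) (nat_lit 4) (.ev
 (nat_lit 276) (nat_lit 16384) (.nd (nat_lit 928) (.br (nat_lit 5) (.br (nat_lit 1) (.ch (nat_lit 0) (.ev
 (nat_lit 944) (nat_lit 67109136) (.ev (nat_lit 957) (nat_lit 33554432) .dd))) (.ch (nat_lit 1) (.ev (nat_lit
 944) (nat_lit 100663568) .dd))) (.br (nat_lit 7) (.ch (nat_lit 5) (.ev (nat_lit 944) (nat_lit 272) (.nd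
 (nat_lit 1120) (.br (nat_lit 9) (.ch (nat_lit 2) (.fin (nat_lit 576483292319531576))) (.ch (nat_lit 9) (.ev
 (nat_lit 1136) (nat_lit 100663296) .dd)))))) (.br (nat_lit 10) (.ch (nat_lit 7) (.ev (nat_lit 944) (nat_lit
 100663296) (.nd (nat_lit 1120) (.br (nat_lit 5) (.ch (nat_lit 0) (.fin (nat_lit 576478894218494556))) (.ch
 (nat_lit 5) (.ev (nat_lit 1136) (nat_lit 272) .dd)))))) (.ch (nat_lit 10) (.ev (nat_lit 944) (nat_lit
 67109136) (.ev (nat_lit 957) (nat_lit 33554432) .dd))))))))))) (.ch (nat_lit 16) (.ev (nat_lit 52) (nat_lit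
 69206274) (.ev (nat_lit 84) (nat_lit 1048576) (.ev (nat_lit 116) (nat_lit 4) (.ev (nat_lit 148) (nat_lit
 524288) (.ev (nat_lit 372) (nat_lit 16384) (.ev (nat_lit 500) (nat_lit 4194304) (.ev (nat_lit 640) (nat_lit
 33554432) (.nd (nat_lit 928) (.br (nat_lit 9) (.br (nat_lit 2) (.ch (nat_lit 1) (.ev (nat_lit 944) (nat_lit
 16777296) .dd)) (.ch (nat_lit 2) (.ev (nat_lit 944) (nat_lit 64) (.ev (nat_lit 960) (nat_lit 16777216) (.ev
 (nat_lit 973) (nat_lit 16) .dd))))) (.br (nat_lit 10) (.ch (nat_lit 9) (.ev (nat_lit 944) (nat_lit 80) (.ev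
 (nat_lit 957) (nat_lit 16777216) .dd))) (.ch (nat_lit 10) (.ev (nat_lit 944) (nat_lit 16777232) (.ev (nat_lit
 957) (nat_lit 64) .dd))))))))))))))) (.br (nat_lit 18) (.ch (nat_lit 17) (.ev (nat_lit 52) (nat_lit 50331652)
 (.ev (nat_lit 116) (nat_lit 4194304) (.ev (nat_lit 244) (nat_lit 1048576) (.ev (nat_lit 624) (nat_lit 272)
 (.nd (nat_lit 928) (.br (nat_lit 2) (.br (nat_lit 1) (.ch (nat_lit 0) (.ev (nat_lit 944) (nat_lit 69222400)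
 (.ev (nat_lit 1060) (nat_lit 66) (.ev (nat_lit 1069) (nat_lit 524288) .dd)))) (.ch (nat_lit 1) (.ev (nat_lit
 944) (nat_lit 2113538) (.ev (nat_lit 960) (nat_lit 524288) (.ev (nat_lit 1060) (nat_lit 64) (.ev (nat_lit
 1069) (nat_lit 67108864) .dd)))))) (.br (nat_lit 5) (.ch (nat_lit 2) (.ev (nat_lit 944) (nat_lit 67633218)
 (.ev (nat_lit 960) (nat_lit 2097152) (.ev (nat_lit 973) (nat_lit 16384) .dd)))) (.br (nat_lit 10) (.ch
 (nat_lit 5) (.ev (nat_lit 944) (nat_lit 69730370) (.ev (nat_lit 957) (nat_lit 16384) .dd))) (.ch (nat_lit 10)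
 (.ev (nat_lit 944) (nat_lit 16448) (.ev (nat_lit 960) (nat_lit 524288) (.ev (nat_lit 1060) (nat_lit 2) (.fin
 (nat_lit 576471197667508802))))))))))))))) (.ch (nat_lit 18) (.ev (nat_lit 52) (nat_lit 37224514) (.ev
 (nat_lit 372) (nat_lit 16777216) (.ev (nat_lit 404) (nat_lit 4194308) (.ev (nat_lit 704) (nat_lit 67108864)
 (.nd (nat_lit 928) (.br (nat_lit 5) (.br (nat_lit 2) (.ch (nat_lit 0) (.ev (nat_lit 944) (nat_lit 16400) (.ev
 (nat_lit 957) (nat_lit 256) .dd))) (.ch (nat_lit 2) (.ev (nat_lit 944) (nat_lit 272) (.ev (nat_lit 957)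
 (nat_lit 16384) .dd)))) (.br (nat_lit 7) (.ch (nat_lit 5) (.ev (nat_lit 944) (nat_lit 272) (.ev (nat_lit 957)
 (nat_lit 16384) .dd))) (.br (nat_lit 9) (.ch (nat_lit 7) (.ev (nat_lit 944) (nat_lit 16400) (.ev (nat_lit 957)
 (nat_lit 256) .dd))) (.ch (nat_lit 9) (.ev (nat_lit 960) (nat_lit 16) (.fin (nat_lit
 576465700116709950))))))))))))))))) (.br (nat_lit 26) (.br (nat_lit 22) (.br (nat_lit 20) (.ch (nat_lit 19)
 (.ev (nat_lit 52) (nat_lit 68157760) (.ev (nat_lit 192) (nat_lit 57163798) .dd))) (.br (nat_lit 21) (.ch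
 (nat_lit 20) (.ev (nat_lit 52) (nat_lit 54542420) (.ev (nat_lit 148) (nat_lit 2097152) (.ev (nat_lit 276)
 (nat_lit 67108864) (.ev (nat_lit 784) (nat_lit 256) (.nd (nat_lit 928) (.br (nat_lit 2) (.br (nat_lit 1) (.ch
 (nat_lit 0) (.ev (nat_lit 944) (nat_lit 1572866) .dd)) (.ch (nat_lit 1) (.ev (nat_lit 944) (nat_lit 1048578)
 (.ev (nat_lit 957) (nat_lit 524288) .dd)))) (.br (nat_lit 5) (.ch (nat_lit 2) (.ev (nat_lit 944) (nat_lit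
 524288) (.ev (nat_lit 1060) (nat_lit 1048576) (.ev (nat_lit 1069) (nat_lit 2) .dd)))) (.br (nat_lit 10) (.ch
 (nat_lit 5) (.ev (nat_lit 944) (nat_lit 524290) (.ev (nat_lit 957) (nat_lit 1048576) .dd))) (.ch (nat_lit 10)
 (.ev (nat_lit 944) (nat_lit 1048576) (.ev (nat_lit 976) (nat_lit 524290) .dd)))))))))))) (.ch (nat_lit 21)
 (.ev (nat_lit 52) (nat_lit 22544400) (.ev (nat_lit 148) (nat_lit 16384) (.ev (nat_lit 212) (nat_lit 67108864)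
 (.ev (nat_lit 340) (nat_lit 33554432) (.ev (nat_lit 544) (nat_lit 2097478) .dd)))))))) (.br (nat_lit 24) (.ch
 (nat_lit 22) (.ev (nat_lit 52) (nat_lit 34078722) (.ev (nat_lit 148) (nat_lit 256) (.ev (nat_lit 532) (nat_lit
 16384) (.ev (nat_lit 592) (nat_lit 3145728) (.nd (nat_lit 928) (.br (nat_lit 2) (.br (nat_lit 1) (.ch (nat_lit
 0) (.ev (nat_lit 944) (nat_lit 4194384) (.ev (nat_lit 1060) (nat_lit 16777220) (.ev (nat_lit 1069) (nat_lit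
 67108864) .dd)))) (.ch (nat_lit 1) (.ev (nat_lit 944) (nat_lit 88080404) (.ev (nat_lit 957) (nat_lit 64)
 .dd)))) (.br (nat_lit 7) (.ch (nat_lit 2) (.ev (nat_lit 944) (nat_lit 67108928) (.ev (nat_lit 960) (nat_lit 4)
 (.ev (nat_lit 1060) (nat_lit 16777216) (.fin (nat_lit 576464600585159233)))))) (.br (nat_lit 9) (.ch (nat_lit
 7) (.ev (nat_lit 944) (nat_lit 83886100) (.ev (nat_lit 960) (nat_lit 4194304) (.ev (nat_lit 973) (nat_lit 64)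
 .dd)))) (.ch (nat_lit 9) (.ev (nat_lit 944) (nat_lit 20971584) (.ev (nat_lit 960) (nat_lit 4) (.ev (nat_lit
 1060) (nat_lit 67108864) (.ev (nat_lit 1069) (nat_lit 16) .dd)))))))))))))) (.br (nat_lit 25) (.ch (nat_lit
 24) (.ev (nat_lit 52) (nat_lit 22560768) (.ev (nat_lit 84) (nat_lit 64) (.ev (nat_lit 148) (nat_lit 16) (.ev
 (nat_lit 180) (nat_lit 4) (.ev (nat_lit 532) (nat_lit 67108864) (.nd (nat_lit 928) (.br (nat_lit 7) (.br
 (nat_lit 2) (.ch (nat_lit 1) (.ev (nat_lit 944) (nat_lit 35651842) .dd)) (.ch (nat_lit 2) (.ev (nat_lit 944)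
 (nat_lit 35651840) (.ev (nat_lit 957) (nat_lit 2) .dd)))) (.br (nat_lit 9) (.ch (nat_lit 7) (.ev (nat_lit 944)
 (nat_lit 35651840) (.ev (nat_lit 957) (nat_lit 2) .dd))) (.br (nat_lit 10) (.ch (nat_lit 9) (.ev (nat_lit 944)
 (nat_lit 33554434) (.nd (nat_lit 1120) (.br (nat_lit 5) (.ch (nat_lit 2) (.fin (nat_lit 576496486427607644)))
 (.ch (nat_lit 5) (.ev (nat_lit 1136) (nat_lit 2097408) .dd)))))) (.ch (nat_lit 10) (.ev (nat_lit 944) (nat_lit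
 2097408) (.nd (nat_lit 1120) (.br (nat_lit 2) (.ch (nat_lit 0) (.fin (nat_lit 576456904038367776))) (.ch
 (nat_lit 2) (.ev (nat_lit 1136) (nat_lit 33554434) .dd)))))))))))))))) (.ch (nat_lit 25) (.ev (nat_lit 52)
 (nat_lit 3162450) (.ev (nat_lit 84) (nat_lit 4194304) (.ev (nat_lit 244) (nat_lit 4) (.nd (nat_lit 928) (.br
 (nat_lit 5) (.br (nat_lit 1) (.ch (nat_lit 0) (.ev (nat_lit 944) (nat_lit 100663296) (.ev (nat_lit 1008)
 (nat_lit 17301504) .dd))) (.br (nat_lit 2) (.ch (nat_lit 1) (.ev (nat_lit 944) (nat_lit 50855936) (.ev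
 (nat_lit 957) (nat_lit 67108864) .dd))) (.ch (nat_lit 2) (.ev (nat_lit 944) (nat_lit 100663296) (.nd (nat_lit
 1120) (.br (nat_lit 10) (.ch (nat_lit 6) (.fin (nat_lit 576462401572389440))) (.ch (nat_lit 10) (.ev (nat_lit
 1136) (nat_lit 17301504) .dd)))))))) (.br (nat_lit 7) (.ch (nat_lit 5) (.ev (nat_lit 944) (nat_lit 524288)
 (.ev (nat_lit 1060) (nat_lit 16777216) (.nd (nat_lit 1120) (.br (nat_lit 2) (.ch (nat_lit 1) (.ev (nat_lit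
 1136) (nat_lit 100663296) .dd)) (.ch (nat_lit 2) (.fin (nat_lit 576483292319531576)))))))) (.br (nat_lit 9)
 (.ch (nat_lit 7) (.ev (nat_lit 944) (nat_lit 117440512) (.ev (nat_lit 957) (nat_lit 524288) .dd))) (.ch
 (nat_lit 9) (.ev (nat_lit 944) (nat_lit 50855936) (.ev (nat_lit 957) (nat_lit 67108864) .dd)))))))))))))) (.br
 (nat_lit 30) (.br (nat_lit 27) (.ch (nat_lit 26) (.ev (nat_lit 52) (nat_lit 120586246) (.ev (nat_lit 276)
 (nat_lit 256) (.nd (nat_lit 928) (.br (nat_lit 2) (.br (nat_lit 1) (.ch (nat_lit 0) (.ev (nat_lit 944)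
 (nat_lit 4735056) .dd)) (.ch (nat_lit 1) (.ev (nat_lit 944) (nat_lit 4194320) (.ev (nat_lit 1060) (nat_lit
 524288) (.ev (nat_lit 1072) (nat_lit 64) (.ev (nat_lit 1085) (nat_lit 16384) .dd)))))) (.br (nat_lit 7) (.ch
 (nat_lit 2) (.ev (nat_lit 944) (nat_lit 16384) (.ev (nat_lit 1060) (nat_lit 524352) (.fin (nat_lit
 576464600585159233))))) (.br (nat_lit 9) (.ch (nat_lit 7) (.ev (nat_lit 944) (nat_lit 524304) (.ev (nat_lit
 960) (nat_lit 64) (.ev (nat_lit 1060) (nat_lit 4194304) (.ev (nat_lit 1069) (nat_lit 16384) .dd))))) (.ch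
 (nat_lit 9) (.ev (nat_lit 944) (nat_lit 4735040) (.ev (nat_lit 957) (nat_lit 16) .dd)))))))))) (.br (nat_lit
 29) (.ch (nat_lit 27) (.ev (nat_lit 52) (nat_lit 4718662) (.ev (nat_lit 212) (nat_lit 16384) (.ev (nat_lit
 320) (nat_lit 120586512) .dd)))) (.ch (nat_lit 29) (.ev (nat_lit 52) (nat_lit 4718594) (.ev (nat_lit 128)
 (nat_lit 120602964) .dd))))) (.br (nat_lit 35) (.br (nat_lit 33) (.ch (nat_lit 30) (.ev (nat_lit 52) (nat_lit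
 68698386) (.ev (nat_lit 148) (nat_lit 33554432) (.ev (nat_lit 836) (nat_lit 4194304) (.nd (nat_lit 928) (.br
 (nat_lit 5) (.br (nat_lit 1) (.ch (nat_lit 0) (.ev (nat_lit 944) (nat_lit 18874368) (.ev (nat_lit 1060)
 (nat_lit 64) (.ev (nat_lit 1069) (nat_lit 4) .dd)))) (.br (nat_lit 2) (.ch (nat_lit 1) (.ev (nat_lit 944)
 (nat_lit 18874368) (.ev (nat_lit 1060) (nat_lit 4) (.ev (nat_lit 1069) (nat_lit 64) .dd)))) (.ch (nat_lit 2)
 (.ev (nat_lit 944) (nat_lit 2097220) (.ev (nat_lit 957) (nat_lit 16777216) .dd))))) (.br (nat_lit 7) (.ch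
 (nat_lit 5) (.ev (nat_lit 944) (nat_lit 18874432) (.ev (nat_lit 957) (nat_lit 4) .dd))) (.br (nat_lit 10) (.ch
 (nat_lit 7) (.ev (nat_lit 944) (nat_lit 18874372) (.ev (nat_lit 957) (nat_lit 64) .dd))) (.ch (nat_lit 10)
 (.ev (nat_lit 944) (nat_lit 16777284) (.ev (nat_lit 957) (nat_lit 2097152) .dd))))))))))) (.ch (nat_lit 33)
 (.ev (nat_lit 52) (nat_lit 89653252) (.ev (nat_lit 244) (nat_lit 64) (.ev (nat_lit 340) (nat_lit 272) (.ev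
 (nat_lit 896) (nat_lit 2097152) (.nd (nat_lit 928) (.br (nat_lit 5) (.br (nat_lit 1) (.ch (nat_lit 0) (.ev
 (nat_lit 944) (nat_lit 33570816) (.ev (nat_lit 957) (nat_lit 2) .dd))) (.ch (nat_lit 1) (.ev (nat_lit 944)
 (nat_lit 33570818) .dd))) (.br (nat_lit 7) (.ch (nat_lit 5) (.ev (nat_lit 944) (nat_lit 2) (.fin (nat_lit
 576470098152735306)))) (.ch (nat_lit 7) (.ev (nat_lit 944) (nat_lit 33570816) (.ev (nat_lit 957) (nat_lit 2)
 .dd)))))))))))) (.br (nat_lit 36) (.ch (nat_lit 35) (.ev (nat_lit 52) (nat_lit 324) (.ev (nat_lit 340)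
 (nat_lit 524288) (.ev (nat_lit 468) (nat_lit 4194304) (.ev (nat_lit 736) (nat_lit 33554432) (.nd (nat_lit 928)
 (.br (nat_lit 7) (.ch (nat_lit 2) (.ev (nat_lit 944) (nat_lit 67108866) (.ev (nat_lit 976) (nat_lit 2097152)
 (.ev (nat_lit 1060) (nat_lit 16777232) (.ev (nat_lit 1072) (nat_lit 1048576) (.ev (nat_lit 1085) (nat_lit
 16384) .dd)))))) (.br (nat_lit 10) (.ch (nat_lit 7) (.ev (nat_lit 944) (nat_lit 87031824) (.ev (nat_lit 1092)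
 (nat_lit 16384) (.ev (nat_lit 1101) (nat_lit 2) .dd)))) (.ch (nat_lit 10) (.ev (nat_lit 944) (nat_lit
 17842192) (.ev (nat_lit 1108) (nat_lit 2) (.nd (nat_lit 1120) (.br (nat_lit 9) (.ch (nat_lit 2) (.fin (nat_lit
 576471197667508802))) (.ch (nat_lit 9) (.ev (nat_lit 1136) (nat_lit 69206016) .dd))))))))))))))) (.ch (nat_lit
 36) (.ev (nat_lit 52) (nat_lit 104874004) (.ev (nat_lit 340) (nat_lit 2) (.ev (nat_lit 436) (nat_lit 64) (.ev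
 (nat_lit 468) (nat_lit 1048576) (.nd (nat_lit 928) (.br (nat_lit 7) (.br (nat_lit 1) (.ch (nat_lit 0) (.ev
 (nat_lit 944) (nat_lit 19398656) (.ev (nat_lit 957) (nat_lit 256) .dd))) (.br (nat_lit 2) (.ch (nat_lit 1)
 (.ev (nat_lit 944) (nat_lit 2097408) (.ev (nat_lit 1008) (nat_lit 17301504) .dd))) (.ch (nat_lit 2) (.ev
 (nat_lit 944) (nat_lit 2097408) (.nd (nat_lit 1120) (.br (nat_lit 8) (.ch (nat_lit 6) (.fin (nat_lit
 576462401572389440))) (.ch (nat_lit 8) (.ev (nat_lit 1136) (nat_lit 17301504) .dd)))))))) (.br (nat_lit 9)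
 (.ch (nat_lit 7) (.ev (nat_lit 944) (nat_lit 19398656) (.ev (nat_lit 957) (nat_lit 256) .dd))) (.br (nat_lit
 10) (.ch (nat_lit 9) (.ev (nat_lit 944) (nat_lit 524288) (.ev (nat_lit 1060) (nat_lit 16777216) (.nd (nat_lit
 1120) (.br (nat_lit 7) (.ch (nat_lit 2) (.fin (nat_lit 576496486427607644))) (.ch (nat_lit 7) (.ev (nat_lit
 1136) (nat_lit 2097408) .dd))))))) (.ch (nat_lit 10) (.ev (nat_lit 944) (nat_lit 18874624) (.ev (nat_lit 957)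
 (nat_lit 524288) .dd)))))))))))))))))))

/-- Subtrie. -/
noncomputable def T4 : Tr := (.ev (nat_lit 20) (nat_lit 843595778) (.nd (nat_lit 33) (.br (nat_lit 19) (.br
 (nat_lit 11) (.br (nat_lit 7) (.br (nat_lit 4) (.ch (nat_lit 1) (.ev (nat_lit 52) (nat_lit 8683792) (.ev
 (nat_lit 436) (nat_lit 8196) (.ev (nat_lit 500) (nat_lit 64) (.nd (nat_lit 928) (.br (nat_lit 4) (.br (nat_lit
 2) (.ch (nat_lit 0) (.ev (nat_lit 944) (nat_lit 1048576) (.ev (nat_lit 1060) (nat_lit 201326592) (.fin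
 (nat_lit 576458003536364094))))) (.ch (nat_lit 2) (.ev (nat_lit 944) (nat_lit 150994944) (.ev (nat_lit 960)
 (nat_lit 67108864) (.ev (nat_lit 1060) (nat_lit 2097152) (.ev (nat_lit 1069) (nat_lit 1048576) .dd)))))) (.br
 (nat_lit 5) (.ch (nat_lit 4) (.ev (nat_lit 944) (nat_lit 18874368) (.ev (nat_lit 1060) (nat_lit 134217728)
 (.ev (nat_lit 1072) (nat_lit 67108864) (.ev (nat_lit 1085) (nat_lit 1048576) .dd))))) (.br (nat_lit 8) (.ch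
 (nat_lit 5) (.ev (nat_lit 944) (nat_lit 204472320) (.ev (nat_lit 957) (nat_lit 16777216) .dd))) (.ch (nat_lit
 8) (.ev (nat_lit 944) (nat_lit 221249536) .dd)))))))))) (.br (nat_lit 5) (.ch (nat_lit 4) (.ev (nat_lit 52)
 (nat_lit 32768) (.ev (nat_lit 96) (nat_lit 229908820) .dd))) (.ch (nat_lit 5) (.ev (nat_lit 52) (nat_lit
 8650768) (.ev (nat_lit 84) (nat_lit 260) (.ev (nat_lit 148) (nat_lit 1048576) (.ev (nat_lit 384) (nat_lit
 220241984) .dd))))))) (.br (nat_lit 8) (.ch (nat_lit 7) (.ev (nat_lit 52) (nat_lit 153387328) (.ev (nat_lit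
 608) (nat_lit 1048580) (.nd (nat_lit 928) (.br (nat_lit 5) (.ch (nat_lit 4) (.ev (nat_lit 1024) (nat_lit
 8388608) (.ev (nat_lit 1072) (nat_lit 67108864) (.fin (nat_lit 576456904023687746))))) (.br (nat_lit 6) (.ch
 (nat_lit 5) (.ev (nat_lit 944) (nat_lit 8208) (.ev (nat_lit 1024) (nat_lit 67108864) (.ev (nat_lit 1037)
 (nat_lit 8388608) .dd)))) (.ch (nat_lit 6) (.ev (nat_lit 944) (nat_lit 8208) (.ev (nat_lit 1024) (nat_lit
 8388608) (.ev (nat_lit 1037) (nat_lit 67108864) .dd)))))))))) (.br (nat_lit 10) (.ch (nat_lit 8) (.ev (nat_lit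
 52) (nat_lit 26214404) (.ev (nat_lit 160) (nat_lit 203727184) .dd))) (.ch (nat_lit 10) (.ev (nat_lit 52)
 (nat_lit 211820560) (.ev (nat_lit 84) (nat_lit 64) (.ev (nat_lit 212) (nat_lit 16777216) (.nd (nat_lit 928)
 (.br (nat_lit 6) (.br (nat_lit 2) (.ch (nat_lit 0) (.ev (nat_lit 944) (nat_lit 1343744) (.ev (nat_lit 957)
 (nat_lit 4) .dd))) (.ch (nat_lit 2) (.ev (nat_lit 944) (nat_lit 32772) (.ev (nat_lit 1060) (nat_lit 1048576)
 (.nd (nat_lit 1120) (.br (nat_lit 7) (.ch (nat_lit 5) (.ev (nat_lit 1136) (nat_lit 262400) .dd)) (.ch (nat_lit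
 7) (.fin (nat_lit 576439311801991716))))))))) (.br (nat_lit 7) (.ch (nat_lit 6) (.ev (nat_lit 944) (nat_lit
 1310976) (.nd (nat_lit 1120) (.br (nat_lit 5) (.ch (nat_lit 3) (.fin (nat_lit 576465700110418498))) (.ch
 (nat_lit 5) (.ev (nat_lit 1136) (nat_lit 32772) .dd)))))) (.ch (nat_lit 7) (.ev (nat_lit 944) (nat_lit
 1310980) (.ev (nat_lit 957) (nat_lit 32768) .dd))))))))))))) (.br (nat_lit 15) (.br (nat_lit 12) (.ch (nat_lit
 11) (.ev (nat_lit 52) (nat_lit 26255360) (.ev (nat_lit 404) (nat_lit 2097152) (.ev (nat_lit 468) (nat_lit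
 134217728) (.ev (nat_lit 500) (nat_lit 4) (.nd (nat_lit 928) (.br (nat_lit 5) (.br (nat_lit 2) (.ch (nat_lit
 0) (.ev (nat_lit 944) (nat_lit 262480) (.ev (nat_lit 957) (nat_lit 67108864) .dd))) (.br (nat_lit 4) (.ch
 (nat_lit 2) (.ev (nat_lit 944) (nat_lit 262480) (.ev (nat_lit 957) (nat_lit 67108864) .dd))) (.ch (nat_lit 4)
 (.ev (nat_lit 944) (nat_lit 67109184) (.ev (nat_lit 1040) (nat_lit 262144) (.ev (nat_lit 1053) (nat_lit 16)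
 .dd)))))) (.br (nat_lit 6) (.ch (nat_lit 5) (.ev (nat_lit 944) (nat_lit 262208) (.ev (nat_lit 1092) (nat_lit
 67108864) (.nd (nat_lit 1120) (.br (nat_lit 7) (.ch (nat_lit 3) (.ev (nat_lit 1136) (nat_lit 272) .dd)) (.ch
 (nat_lit 7) (.fin (nat_lit 576443709903028772)))))))) (.br (nat_lit 7) (.ch (nat_lit 6) (.ev (nat_lit 944)
 (nat_lit 67371264) (.ev (nat_lit 1040) (nat_lit 64) (.ev (nat_lit 1053) (nat_lit 16) .dd)))) (.ch (nat_lit 7)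
 (.ev (nat_lit 944) (nat_lit 67109136) (.nd (nat_lit 1120) (.br (nat_lit 4) (.ch (nat_lit 2) (.ev (nat_lit
 1136) (nat_lit 262208) .dd)) (.ch (nat_lit 4) (.fin (nat_lit 576461302055518786)))))))))))))))) (.br (nat_lit
 13) (.ch (nat_lit 12) (.ev (nat_lit 52) (nat_lit 220233988) (.ev (nat_lit 244) (nat_lit 262144) (.ev (nat_lit
 276) (nat_lit 8388608) (.ev (nat_lit 800) (nat_lit 64) (.nd (nat_lit 928) (.br (nat_lit 4) (.br (nat_lit 2)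
 (.ch (nat_lit 0) (.ev (nat_lit 944) (nat_lit 1048592) (.ev (nat_lit 957) (nat_lit 8192) .dd))) (.ch (nat_lit
 2) (.ev (nat_lit 944) (nat_lit 1056768) (.ev (nat_lit 957) (nat_lit 16) .dd)))) (.br (nat_lit 6) (.ch (nat_lit
 4) (.ev (nat_lit 960) (nat_lit 1048576) (.fin (nat_lit 576456904023687746)))) (.br (nat_lit 8) (.ch (nat_lit
 6) (.ev (nat_lit 944) (nat_lit 1056768) (.ev (nat_lit 957) (nat_lit 16) .dd))) (.ch (nat_lit 8) (.ev (nat_lit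
 944) (nat_lit 1048592) (.ev (nat_lit 957) (nat_lit 8192) .dd)))))))))))) (.ch (nat_lit 13) (.ev (nat_lit 52)
 (nat_lit 67150144) (.ev (nat_lit 84) (nat_lit 2097152) (.ev (nat_lit 116) (nat_lit 134217728) (.ev (nat_lit
 448) (nat_lit 26476564) .dd))))))) (.br (nat_lit 17) (.br (nat_lit 16) (.ch (nat_lit 15) (.ev (nat_lit 52)
 (nat_lit 19923008) (.ev (nat_lit 148) (nat_lit 8388608) (.ev (nat_lit 180) (nat_lit 134217728) (.ev (nat_lit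
 276) (nat_lit 67108864) (.ev (nat_lit 848) (nat_lit 4) (.nd (nat_lit 928) (.br (nat_lit 5) (.br (nat_lit 4)
 (.ch (nat_lit 2) (.ev (nat_lit 944) (nat_lit 40976) (.ev (nat_lit 960) (nat_lit 262144) (.ev (nat_lit 973)
 (nat_lit 256) .dd)))) (.ch (nat_lit 4) (.ev (nat_lit 944) (nat_lit 262416) (.nd (nat_lit 1120) (.br (nat_lit
 10) (.ch (nat_lit 3) (.ev (nat_lit 1136) (nat_lit 40960) .dd)) (.ch (nat_lit 10) (.fin (nat_lit
 576465700131389988)))))))) (.br (nat_lit 7) (.ch (nat_lit 5) (.ev (nat_lit 944) (nat_lit 303104) (.nd (nat_lit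
 1120) (.br (nat_lit 7) (.ch (nat_lit 6) (.ev (nat_lit 1136) (nat_lit 272) .dd)) (.ch (nat_lit 7) (.fin
 (nat_lit 576443709903028772))))))) (.br (nat_lit 8) (.ch (nat_lit 7) (.ev (nat_lit 944) (nat_lit 303376) .dd))
 (.ch (nat_lit 8) (.ev (nat_lit 944) (nat_lit 40976) (.ev (nat_lit 960) (nat_lit 262144) (.ev (nat_lit 973)
 (nat_lit 256) .dd)))))))))))))) (.ch (nat_lit 16) (.ev (nat_lit 52) (nat_lit 69214464) (.ev (nat_lit 84)
 (nat_lit 134217728) (.ev (nat_lit 116) (nat_lit 64) (.ev (nat_lit 404) (nat_lit 4) (.ev (nat_lit 468) (nat_lit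
 32768) (.ev (nat_lit 500) (nat_lit 262144) (.ev (nat_lit 656) (nat_lit 1048576) (.nd (nat_lit 928) (.br
 (nat_lit 5) (.br (nat_lit 2) (.ch (nat_lit 0) (.ev (nat_lit 944) (nat_lit 16777232) (.ev (nat_lit 957)
 (nat_lit 8388608) .dd))) (.ch (nat_lit 2) (.ev (nat_lit 944) (nat_lit 25165824) (.ev (nat_lit 957) (nat_lit
 16) .dd)))) (.br (nat_lit 7) (.ch (nat_lit 5) (.ev (nat_lit 944) (nat_lit 8388608) (.ev (nat_lit 960) (nat_lit
 16) (.ev (nat_lit 973) (nat_lit 16777216) .dd)))) (.ch (nat_lit 7) (.ev (nat_lit 944) (nat_lit 25165840)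
 .dd)))))))))))))) (.br (nat_lit 18) (.ch (nat_lit 17) (.ev (nat_lit 52) (nat_lit 17039364) (.ev (nat_lit 116)
 (nat_lit 256) (.ev (nat_lit 180) (nat_lit 8192) (.ev (nat_lit 340) (nat_lit 1048576) (.ev (nat_lit 564)
 (nat_lit 8388608) (.ev (nat_lit 672) (nat_lit 64) (.nd (nat_lit 928) (.br (nat_lit 4) (.ch (nat_lit 2) (.ev
 (nat_lit 944) (nat_lit 201326608) (.ev (nat_lit 976) (nat_lit 2097152) (.ev (nat_lit 989) (nat_lit 32768)
 .dd)))) (.br (nat_lit 6) (.ch (nat_lit 4) (.ev (nat_lit 944) (nat_lit 134217744) (.ev (nat_lit 1060) (nat_lit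
 32768) (.fin (nat_lit 576451406454014526))))) (.ch (nat_lit 6) (.ev (nat_lit 944) (nat_lit 69238784) (.nd
 (nat_lit 1120) (.br (nat_lit 6) (.ch (nat_lit 4) (.fin (nat_lit 576461302059713084))) (.ch (nat_lit 6) (.ev
 (nat_lit 1136) (nat_lit 134217744) .dd)))))))))))))))) (.ch (nat_lit 18) (.ev (nat_lit 52) (nat_lit 146022464)
 (.ev (nat_lit 116) (nat_lit 4) (.ev (nat_lit 180) (nat_lit 256) (.ev (nat_lit 244) (nat_lit 32768) (.ev
 (nat_lit 404) (nat_lit 16) (.ev (nat_lit 816) (nat_lit 16777216) (.ev (nat_lit 829) (nat_lit 67108864)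
 .dd)))))))))))) (.br (nat_lit 26) (.br (nat_lit 22) (.br (nat_lit 20) (.ch (nat_lit 19) (.ev (nat_lit 52)
 (nat_lit 76554560) (.ev (nat_lit 308) (nat_lit 32768) (.ev (nat_lit 752) (nat_lit 262144) (.nd (nat_lit 928)
 (.br (nat_lit 5) (.ch (nat_lit 0) (.ev (nat_lit 944) (nat_lit 134217744) (.ev (nat_lit 1060) (nat_lit 4) (.fin
 (nat_lit 576464600585159234))))) (.br (nat_lit 6) (.ch (nat_lit 5) (.ev (nat_lit 944) (nat_lit 136314896) (.ev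
 (nat_lit 976) (nat_lit 16777216) (.ev (nat_lit 989) (nat_lit 4) .dd)))) (.ch (nat_lit 6) (.ev (nat_lit 944)
 (nat_lit 18874372) (.nd (nat_lit 1120) (.br (nat_lit 10) (.ch (nat_lit 4) (.fin (nat_lit 576461302059713084)))
 (.ch (nat_lit 10) (.ev (nat_lit 1136) (nat_lit 134217744) .dd))))))))))))) (.br (nat_lit 21) (.ch (nat_lit 20)
 (.ev (nat_lit 52) (nat_lit 17080404) (.ev (nat_lit 180) (nat_lit 2097152) (.ev (nat_lit 404) (nat_lit 256)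
 (.ev (nat_lit 768) (nat_lit 8388608) (.nd (nat_lit 928) (.br (nat_lit 4) (.br (nat_lit 2) (.ch (nat_lit 0)
 (.ev (nat_lit 944) (nat_lit 1048576) (.ev (nat_lit 976) (nat_lit 201326592) .dd))) (.ch (nat_lit 2) (.ev
 (nat_lit 944) (nat_lit 134217728) (.ev (nat_lit 1060) (nat_lit 1048576) (.ev (nat_lit 1069) (nat_lit 67108864)
 .dd))))) (.br (nat_lit 5) (.ch (nat_lit 4) (.ev (nat_lit 944) (nat_lit 201326592) (.ev (nat_lit 957) (nat_lit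
 1048576) .dd))) (.br (nat_lit 8) (.ch (nat_lit 5) (.ev (nat_lit 944) (nat_lit 68157440) (.ev (nat_lit 957)
 (nat_lit 134217728) .dd))) (.ch (nat_lit 8) (.ev (nat_lit 944) (nat_lit 202375168) .dd))))))))))) (.ch
 (nat_lit 21) (.ev (nat_lit 52) (nat_lit 26214416) (.ev (nat_lit 308) (nat_lit 2097156) (.ev (nat_lit 532)
 (nat_lit 67108864) (.ev (nat_lit 688) (nat_lit 32768) (.nd (nat_lit 928) (.br (nat_lit 5) (.br (nat_lit 2)
 (.ch (nat_lit 0) (.ev (nat_lit 944) (nat_lit 262464) (.nd (nat_lit 1120) (.br (nat_lit 7) (.ch (nat_lit 5)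
 (.fin (nat_lit 576426117683429924))) (.ch (nat_lit 7) (.ev (nat_lit 1136) (nat_lit 134225920) .dd)))))) (.ch
 (nat_lit 2) (.ev (nat_lit 944) (nat_lit 134225984) (.nd (nat_lit 1120) (.br (nat_lit 10) (.ch (nat_lit 7)
 (.fin (nat_lit 576439311801991716))) (.ch (nat_lit 10) (.ev (nat_lit 1136) (nat_lit 262400) .dd))))))) (.br
 (nat_lit 6) (.ch (nat_lit 5) (.ev (nat_lit 944) (nat_lit 270592) (.ev (nat_lit 960) (nat_lit 64) (.ev (nat_lit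
 973) (nat_lit 134217728) .dd)))) (.br (nat_lit 7) (.ch (nat_lit 6) (.ev (nat_lit 944) (nat_lit 270592) (.ev
 (nat_lit 960) (nat_lit 64) (.ev (nat_lit 973) (nat_lit 134217728) .dd)))) (.ch (nat_lit 7) (.ev (nat_lit 944)
 (nat_lit 134488384) .dd))))))))))))) (.br (nat_lit 24) (.ch (nat_lit 22) (.ev (nat_lit 52) (nat_lit 262144)
 (.ev (nat_lit 64) (nat_lit 229679444) .dd))) (.br (nat_lit 25) (.ch (nat_lit 24) (.ev (nat_lit 52) (nat_lit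
 18120704) (.ev (nat_lit 180) (nat_lit 16) (.ev (nat_lit 212) (nat_lit 67108864) (.ev (nat_lit 244) (nat_lit
 2097152) (.ev (nat_lit 308) (nat_lit 8192) (.ev (nat_lit 468) (nat_lit 64) (.ev (nat_lit 880) (nat_lit 4) (.nd
 (nat_lit 928) (.br (nat_lit 5) (.br (nat_lit 4) (.ch (nat_lit 2) (.ev (nat_lit 944) (nat_lit 134217984) (.ev
 (nat_lit 957) (nat_lit 8388608) .dd))) (.ch (nat_lit 4) (.ev (nat_lit 944) (nat_lit 134217984) (.ev (nat_lit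
 957) (nat_lit 8388608) .dd)))) (.br (nat_lit 7) (.ch (nat_lit 5) (.ev (nat_lit 944) (nat_lit 8388608) (.fin
 (nat_lit 576452505968788034)))) (.ch (nat_lit 7) (.ev (nat_lit 944) (nat_lit 142606592) .dd))))))))))))) (.ch
 (nat_lit 25) (.ev (nat_lit 52) (nat_lit 3408208) (.ev (nat_lit 372) (nat_lit 8388608) (.ev (nat_lit 564)
 (nat_lit 67108864) (.nd (nat_lit 928) (.br (nat_lit 6) (.br (nat_lit 2) (.ch (nat_lit 0) (.ev (nat_lit 944)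
 (nat_lit 32772) (.ev (nat_lit 1060) (nat_lit 16777216) (.nd (nat_lit 1120) (.br (nat_lit 5) (.ch (nat_lit 2)
 (.ev (nat_lit 1136) (nat_lit 134225920) .dd)) (.ch (nat_lit 5) (.fin (nat_lit 576426117683429924)))))))) (.ch
 (nat_lit 2) (.ev (nat_lit 944) (nat_lit 151003140) (.ev (nat_lit 957) (nat_lit 32768) .dd)))) (.br (nat_lit 8)
 (.ch (nat_lit 6) (.ev (nat_lit 944) (nat_lit 151003136) (.nd (nat_lit 1120) (.br (nat_lit 6) (.ch (nat_lit 3)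
 (.fin (nat_lit 576465700110418498))) (.ch (nat_lit 6) (.ev (nat_lit 1136) (nat_lit 32772) .dd)))))) (.ch
 (nat_lit 8) (.ev (nat_lit 944) (nat_lit 151035904) (.ev (nat_lit 957) (nat_lit 4) .dd))))))))))))) (.br
 (nat_lit 30) (.br (nat_lit 27) (.ch (nat_lit 26) (.ev (nat_lit 52) (nat_lit 87031812) (.ev (nat_lit 84)
 (nat_lit 16) (.ev (nat_lit 244) (nat_lit 256) (.ev (nat_lit 436) (nat_lit 134217728) (.nd (nat_lit 928) (.br
 (nat_lit 5) (.br (nat_lit 2) (.ch (nat_lit 0) (.ev (nat_lit 944) (nat_lit 8683520) (.ev (nat_lit 1040)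
 (nat_lit 64) (.ev (nat_lit 1053) (nat_lit 8192) .dd)))) (.br (nat_lit 4) (.ch (nat_lit 2) (.ev (nat_lit 944)
 (nat_lit 303168) (.ev (nat_lit 957) (nat_lit 8388608) .dd))) (.ch (nat_lit 4) (.ev (nat_lit 944) (nat_lit
 262208) (.ev (nat_lit 1092) (nat_lit 8388608) (.nd (nat_lit 1120) (.br (nat_lit 10) (.ch (nat_lit 4) (.ev
 (nat_lit 1136) (nat_lit 40960) .dd)) (.ch (nat_lit 10) (.fin (nat_lit 576465700131389988)))))))))) (.br
 (nat_lit 7) (.ch (nat_lit 5) (.ev (nat_lit 944) (nat_lit 303168) (.ev (nat_lit 957) (nat_lit 8388608) .dd)))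
 (.br (nat_lit 8) (.ch (nat_lit 7) (.ev (nat_lit 944) (nat_lit 8429568) (.nd (nat_lit 1120) (.br (nat_lit 4)
 (.ch (nat_lit 1) (.ev (nat_lit 1136) (nat_lit 262208) .dd)) (.ch (nat_lit 4) (.fin (nat_lit
 576461302055518786))))))) (.ch (nat_lit 8) (.ev (nat_lit 944) (nat_lit 8421440) (.ev (nat_lit 1040) (nat_lit
 262144) (.ev (nat_lit 1053) (nat_lit 8192) .dd))))))))))))) (.br (nat_lit 29) (.ch (nat_lit 27) (.ev (nat_lit
 52) (nat_lit 134217796) (.ev (nat_lit 116) (nat_lit 16) (.ev (nat_lit 224) (nat_lit 95723776) .dd)))) (.ch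
 (nat_lit 29) (.ev (nat_lit 52) (nat_lit 32768) (.ev (nat_lit 84) (nat_lit 8192) (.ev (nat_lit 148) (nat_lit
 67108864) (.ev (nat_lit 180) (nat_lit 4) (.ev (nat_lit 436) (nat_lit 2359296) (.ev (nat_lit 500) (nat_lit 16)
 (.ev (nat_lit 912) (nat_lit 64) (.nd (nat_lit 928) (.br (nat_lit 5) (.br (nat_lit 2) (.ch (nat_lit 0) (.ev
 (nat_lit 944) (nat_lit 135266560) (.ev (nat_lit 1008) (nat_lit 25165824) .dd))) (.br (nat_lit 4) (.ch (nat_lit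
 2) (.ev (nat_lit 944) (nat_lit 152043520) (.ev (nat_lit 1060) (nat_lit 256) (.ev (nat_lit 1069) (nat_lit
 8388608) .dd)))) (.ch (nat_lit 4) (.ev (nat_lit 944) (nat_lit 17826048) (.ev (nat_lit 1060) (nat_lit
 134217728) (.ev (nat_lit 1069) (nat_lit 8388608) .dd)))))) (.br (nat_lit 6) (.ch (nat_lit 5) (.ev (nat_lit
 944) (nat_lit 26214400) (.fin (nat_lit 576452505968788034)))) (.br (nat_lit 8) (.ch (nat_lit 6) (.ev (nat_lit
 944) (nat_lit 16777472) (.ev (nat_lit 1060) (nat_lit 9437184) (.ev (nat_lit 1069) (nat_lit 134217728) .dd))))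
 (.ch (nat_lit 8) (.ev (nat_lit 944) (nat_lit 159383552) (.ev (nat_lit 1060) (nat_lit 256) (.ev (nat_lit 1069)
 (nat_lit 1048576) .dd)))))))))))))))))) (.br (nat_lit 35) (.br (nat_lit 33) (.ch (nat_lit 30) (.ev (nat_lit
 52) (nat_lit 76546320) (.ev (nat_lit 116) (nat_lit 2105344) (.ev (nat_lit 308) (nat_lit 262144) (.ev (nat_lit
 480) (nat_lit 151027780) .dd))))) (.ch (nat_lit 33) (.ev (nat_lit 52) (nat_lit 219152388) (.ev (nat_lit 84)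
 (nat_lit 262144) (.ev (nat_lit 244) (nat_lit 8192) (.ev (nat_lit 416) (nat_lit 10518864) .dd)))))) (.br
 (nat_lit 36) (.ch (nat_lit 35) (.ev (nat_lit 52) (nat_lit 134226244) (.ev (nat_lit 116) (nat_lit 32768) (.ev
 (nat_lit 372) (nat_lit 1048576) (.ev (nat_lit 404) (nat_lit 262144) (.nd (nat_lit 928) (.br (nat_lit 7) (.br
 (nat_lit 5) (.ch (nat_lit 4) (.ev (nat_lit 944) (nat_lit 16777216) (.ev (nat_lit 1060) (nat_lit 8388624) (.fin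
 (nat_lit 576451406454014526))))) (.ch (nat_lit 5) (.ev (nat_lit 944) (nat_lit 85983232) (.ev (nat_lit 1060)
 (nat_lit 16) (.ev (nat_lit 1069) (nat_lit 8388608) .dd))))) (.br (nat_lit 8) (.ch (nat_lit 7) (.ev (nat_lit
 944) (nat_lit 77594640) (.ev (nat_lit 957) (nat_lit 16777216) .dd))) (.ch (nat_lit 8) (.ev (nat_lit 944)
 (nat_lit 77594640) (.ev (nat_lit 957) (nat_lit 16777216) .dd))))))))))) (.ch (nat_lit 36) (.ev (nat_lit 52)
 (nat_lit 201334804) (.ev (nat_lit 288) (nat_lit 28606784) .dd))))))))))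

/-- The trie. -/
noncomputable def T : Tr := .nd (nat_lit 1000000) (.br (nat_lit 4) (.br (nat_lit 1) (.ch (nat_lit 0) (.ev
 (nat_lit 0) (nat_lit 2147483647) .dd)) (.ch (nat_lit 1) T1)) (.br (nat_lit 5) (.ch (nat_lit 4) T4) (.br
 (nat_lit 10) (.ch (nat_lit 5) (.ev (nat_lit 0) (nat_lit 2147483647) .dd)) (.ch (nat_lit 10) (.ev (nat_lit 0)
 (nat_lit 2147483647) .dd)))))

/-- The possible values. -/
noncomputable def oks : List ℕ := [3, 34, 58, 223, 234, 2898]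

/-- The parameters. -/
noncomputable def S : Pr := ⟨fun i l e => lget mz (lget [] (lget [] tabs i) l) e, oks, [(nat_lit 0), (nat_lit
 1), (nat_lit 0), (nat_lit 0)], T, (nat_lit 2147483647), (nat_lit 1073946281), (nat_lit 31), [(nat_lit 1057),
 (nat_lit 23899161165)], [(nat_lit 1331), (nat_lit 1369)]⟩

/-- Nothing known. -/
noncomputable def cs0 : Cs := (.cons (nat_lit 11) (nat_lit 0) (nat_lit 1) (.cons (nat_lit 37) (nat_lit 0) (nat_lit 1) .nil))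

theorem part_1 : part S cs0 (nat_lit 1) = true := by decide +kernel

theorem part_4 : part S cs0 (nat_lit 4) = true := by decide +kernel

/-- Data of a prime. -/
noncomputable def D0 : PD := ⟨(nat_lit 11), (nat_lit 3), (133, 3, 3), (288, 795, 527), (226, 1316, 1296)⟩

theorem D0_ok : D0.Ok := pdb_sound (s := 1) (C := ⟨⟨9, -6, -17, -1, -14, 8, -4, -1, -1⟩, (9, 10, 7)⟩) (by show Nat.Prime 11; norm_num) (by decide +kernel)

/-- Lines of the first type. -/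
noncomputable def Cl0 : List C1 := [⟨⟨-9, 6, -8, 1, 14, 7, 4, 1, -5⟩, (4, 2, 8)⟩,
  ⟨⟨0, 0, 0, 0, 0, 0, 0, 0, 0⟩, (0, 0, 0)⟩,
  ⟨⟨0, 0, 0, 0, 0, 0, 0, 0, 0⟩, (0, 0, 0)⟩,
  ⟨⟨0, 0, 0, 0, 0, 0, 0, 0, 0⟩, (0, 0, 0)⟩,
  ⟨⟨0, 0, 0, 0, 0, 0, 0, 0, 0⟩, (0, 0, 0)⟩,
  ⟨⟨9, 6, -17, -1, 14, 8, -4, 1, -1⟩, (8, 4, 5)⟩,
  ⟨⟨0, 0, 0, 0, 0, 0, 0, 0, 0⟩, (0, 0, 0)⟩,
  ⟨⟨0, 0, 0, 0, 0, 0, 0, 0, 0⟩, (0, 0, 0)⟩,
  ⟨⟨0, 0, 0, 0, 0, 0, 0, 0, 0⟩, (0, 0, 0)⟩,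
  ⟨⟨0, 0, 0, 0, 0, 0, 0, 0, 0⟩, (0, 0, 0)⟩,
  ⟨⟨-9, -6, -8, 1, -14, 7, 4, -1, -5⟩, (7, 9, 3)⟩]

/-- Data of a prime. -/
noncomputable def D1 : PD := ⟨(nat_lit 37), (nat_lit 2), (556, 16, 5), (1239, 947, 1101), (730, 506, 467)⟩

theorem D1_ok : D1.Ok := pdb_sound (s := 2) (C := ⟨⟨43, 22, -44, 23, -2, 41, 6, -15, -7⟩, (6, 23, 6)⟩) (by show Nat.Prime 37; norm_num) (by decide +kernel)

/-- Lines of the first type. -/
noncomputable def Cl1 : List C1 := [⟨⟨23, -2, -64, 43, 22, 1, -6, 15, -1⟩, (31, 29, 8)⟩,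
  ⟨⟨0, 0, 0, 0, 0, 0, 0, 0, 0⟩, (0, 0, 0)⟩,
  ⟨⟨-7, 22, -49, 27, 42, 4, 14, -7, -13⟩, (1, 12, 35)⟩,
  ⟨⟨-13, 38, -31, -47, -22, 16, 6, -9, -17⟩, (20, 4, 5)⟩,
  ⟨⟨0, 0, 0, 0, 0, 0, 0, 0, 0⟩, (0, 0, 0)⟩,
  ⟨⟨0, 0, 0, 0, 0, 0, 0, 0, 0⟩, (0, 0, 0)⟩,
  ⟨⟨7, 22, -56, -27, 42, 31, 14, 7, -1⟩, (18, 31, 36)⟩,
  ⟨⟨0, 0, 0, 0, 0, 0, 0, 0, 0⟩, (0, 0, 0)⟩,
  ⟨⟨0, 0, 0, 0, 0, 0, 0, 0, 0⟩, (0, 0, 0)⟩,
  ⟨⟨13, -38, -44, -47, -22, 31, -6, 9, -11⟩, (18, 26, 23)⟩,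
  ⟨⟨0, 0, 0, 0, 0, 0, 0, 0, 0⟩, (0, 0, 0)⟩,
  ⟨⟨0, 0, 0, 0, 0, 0, 0, 0, 0⟩, (0, 0, 0)⟩,
  ⟨⟨0, 0, 0, 0, 0, 0, 0, 0, 0⟩, (0, 0, 0)⟩,
  ⟨⟨0, 0, 0, 0, 0, 0, 0, 0, 0⟩, (0, 0, 0)⟩,
  ⟨⟨13, 38, -44, -47, 22, 31, -6, -9, -11⟩, (4, 14, 1)⟩,
  ⟨⟨0, 0, 0, 0, 0, 0, 0, 0, 0⟩, (0, 0, 0)⟩,
  ⟨⟨0, 0, 0, 0, 0, 0, 0, 0, 0⟩, (0, 0, 0)⟩,
  ⟨⟨0, 0, 0, 0, 0, 0, 0, 0, 0⟩, (0, 0, 0)⟩,
  ⟨⟨0, 0, 0, 0, 0, 0, 0, 0, 0⟩, (0, 0, 0)⟩,
  ⟨⟨0, 0, 0, 0, 0, 0, 0, 0, 0⟩, (0, 0, 0)⟩,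
  ⟨⟨0, 0, 0, 0, 0, 0, 0, 0, 0⟩, (0, 0, 0)⟩,
  ⟨⟨0, 0, 0, 0, 0, 0, 0, 0, 0⟩, (0, 0, 0)⟩,
  ⟨⟨0, 0, 0, 0, 0, 0, 0, 0, 0⟩, (0, 0, 0)⟩,
  ⟨⟨-7, -22, -49, 27, -42, 4, 14, 7, -13⟩, (13, 8, 11)⟩,
  ⟨⟨0, 0, 0, 0, 0, 0, 0, 0, 0⟩, (0, 0, 0)⟩,
  ⟨⟨0, 0, 0, 0, 0, 0, 0, 0, 0⟩, (0, 0, 0)⟩,
  ⟨⟨0, 0, 0, 0, 0, 0, 0, 0, 0⟩, (0, 0, 0)⟩,
  ⟨⟨0, 0, 0, 0, 0, 0, 0, 0, 0⟩, (0, 0, 0)⟩,
  ⟨⟨23, 2, -64, 43, -22, 1, -6, -15, -1⟩, (3, 4, 33)⟩,
  ⟨⟨0, 0, 0, 0, 0, 0, 0, 0, 0⟩, (0, 0, 0)⟩,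
  ⟨⟨0, 0, 0, 0, 0, 0, 0, 0, 0⟩, (0, 0, 0)⟩,
  ⟨⟨-13, -38, -31, -47, 22, 16, 6, 9, -17⟩, (34, 29, 27)⟩,
  ⟨⟨7, -22, -56, -27, -42, 31, 14, -7, -1⟩, (30, 27, 23)⟩,
  ⟨⟨0, 0, 0, 0, 0, 0, 0, 0, 0⟩, (0, 0, 0)⟩,
  ⟨⟨43, -22, -44, 23, 2, 41, 6, 15, -7⟩, (12, 9, 12)⟩,
  ⟨⟨0, 0, 0, 0, 0, 0, 0, 0, 0⟩, (0, 0, 0)⟩,
  ⟨⟨0, 0, 0, 0, 0, 0, 0, 0, 0⟩, (0, 0, 0)⟩]

/-- Data of a prime. -/
noncomputable def Dm : PD := ⟨(nat_lit 31), (nat_lit 2), (435, 8, 13), (281, 829, 278), (666, 926, 286)⟩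

theorem Dm_ok : Dm.Ok := pdb_sound (s := 3) (C := ⟨⟨11, 26, -43, -19, 34, 32, -12, -3, -1⟩, (11, 12, 19)⟩) (by show Nat.Prime 31; norm_num) (by decide +kernel)

/-- Lines of the first type. -/
noncomputable def Clm : List C1 := [⟨⟨-11, -26, -32, 19, -34, 13, 12, 3, -13⟩, (22, 24, 7)⟩,
  ⟨⟨0, 0, 0, 0, 0, 0, 0, 0, 0⟩, (0, 0, 0)⟩,
  ⟨⟨0, 0, 0, 0, 0, 0, 0, 0, 0⟩, (0, 0, 0)⟩,
  ⟨⟨29, 26, -37, 21, 6, 32, 8, -11, -7⟩, (2, 10, 23)⟩,
  ⟨⟨0, 0, 0, 0, 0, 0, 0, 0, 0⟩, (0, 0, 0)⟩,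
  ⟨⟨21, 6, -53, 29, 26, 8, 8, -11, -1⟩, (6, 26, 20)⟩,
  ⟨⟨0, 0, 0, 0, 0, 0, 0, 0, 0⟩, (0, 0, 0)⟩,
  ⟨⟨29, -26, -37, 21, -6, 32, 8, 11, -7⟩, (27, 11, 16)⟩,
  ⟨⟨0, 0, 0, 0, 0, 0, 0, 0, 0⟩, (0, 0, 0)⟩,
  ⟨⟨-9, -6, -43, -41, 14, 28, 4, 13, -5⟩, (4, 1, 12)⟩,
  ⟨⟨9, -6, -52, -41, -14, 13, -4, 13, -1⟩, (29, 16, 25)⟩,
  ⟨⟨21, -6, -53, 29, -26, 8, 8, 11, -1⟩, (7, 20, 13)⟩,
  ⟨⟨9, 6, -52, -41, 14, 13, -4, -13, -1⟩, (28, 24, 22)⟩,
  ⟨⟨0, 0, 0, 0, 0, 0, 0, 0, 0⟩, (0, 0, 0)⟩,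
  ⟨⟨0, 0, 0, 0, 0, 0, 0, 0, 0⟩, (0, 0, 0)⟩,
  ⟨⟨0, 0, 0, 0, 0, 0, 0, 0, 0⟩, (0, 0, 0)⟩,
  ⟨⟨11, -26, -43, -19, -34, 32, -12, 3, -1⟩, (25, 16, 15)⟩,
  ⟨⟨-9, 6, -43, -41, -14, 28, 4, -13, -5⟩, (3, 24, 9)⟩,
  ⟨⟨0, 0, 0, 0, 0, 0, 0, 0, 0⟩, (0, 0, 0)⟩,
  ⟨⟨0, 0, 0, 0, 0, 0, 0, 0, 0⟩, (0, 0, 0)⟩,
  ⟨⟨0, 0, 0, 0, 0, 0, 0, 0, 0⟩, (0, 0, 0)⟩,
  ⟨⟨0, 0, 0, 0, 0, 0, 0, 0, 0⟩, (0, 0, 0)⟩,
  ⟨⟨0, 0, 0, 0, 0, 0, 0, 0, 0⟩, (0, 0, 0)⟩,
  ⟨⟨0, 0, 0, 0, 0, 0, 0, 0, 0⟩, (0, 0, 0)⟩,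
  ⟨⟨0, 0, 0, 0, 0, 0, 0, 0, 0⟩, (0, 0, 0)⟩,
  ⟨⟨0, 0, 0, 0, 0, 0, 0, 0, 0⟩, (0, 0, 0)⟩,
  ⟨⟨0, 0, 0, 0, 0, 0, 0, 0, 0⟩, (0, 0, 0)⟩,
  ⟨⟨0, 0, 0, 0, 0, 0, 0, 0, 0⟩, (0, 0, 0)⟩,
  ⟨⟨0, 0, 0, 0, 0, 0, 0, 0, 0⟩, (0, 0, 0)⟩,
  ⟨⟨0, 0, 0, 0, 0, 0, 0, 0, 0⟩, (0, 0, 0)⟩,
  ⟨⟨-11, 26, -32, 19, 34, 13, 12, -3, -13⟩, (28, 8, 23)⟩]

/-- Unit moves. -/
noncomputable def U : List Mv := [mz,
  mz,
  ⟨⟨-1, 0, 1, 0, 1, 0, 0, 0, 1⟩, .nil, (nat_lit 10), (nat_lit 5), (nat_lit 1), (nat_lit 1), (0, 0, 0), [], 6⟩,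
  ⟨⟨1, 0, 0, 0, -1, 0, 0, 0, 1⟩, .nil, (nat_lit 10), (nat_lit 10), (nat_lit 2), (nat_lit 1), (0, 0, 0), [], 10⟩,
  mz,
  mz,
  ⟨⟨-1, 0, 1, 0, -1, 0, 0, 0, 1⟩, .nil, (nat_lit 0), (nat_lit 6), (nat_lit 1), (nat_lit 0), (0, 0, 0), [], 5⟩,
  ⟨⟨-1, 0, 1, 0, -1, 0, 0, 0, 1⟩, .nil, (nat_lit 0), (nat_lit 6), (nat_lit 1), (nat_lit 0), (0, 0, 0), [], 5⟩,
  ⟨⟨1, 0, 0, 0, -1, 0, 0, 0, 1⟩, .nil, (nat_lit 10), (nat_lit 10), (nat_lit 2), (nat_lit 1), (0, 0, 0), [], 10⟩,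
  ⟨⟨-1, 0, 1, 0, 1, 0, 0, 0, 1⟩, .nil, (nat_lit 10), (nat_lit 5), (nat_lit 1), (nat_lit 1), (0, 0, 0), [], 6⟩,
  mz]

theorem v_ty : tyb Dm S.ty1 Clm = true := by decide +kernel

theorem v_ty0 : tyb D0 (S.tys.getD 0 0) Cl0 = true := by decide +kernel

theorem v_ty1 : tyb D1 (S.tys.getD 1 0) Cl1 = true := by decide +kernel

theorem v_msc : mscb S D0 [D1] Dm (nat_lit 18) = true := by decide +kernel

theorem v_mv0 : mvsn (nat_lit 1751075579) S D0 [D1] Dm (nat_lit 18) 0 D0 = true := by decide +kernel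

theorem v_mv1 : mvsn (nat_lit 1751075579) S D0 [D1] Dm (nat_lit 18) 1 D1 = true := by decide +kernel

theorem v_mm : mmsn (nat_lit 1751075579) S D0 [D1] Dm (nat_lit 18) = true := by decide +kernel

theorem v_un : unb S D0 (nat_lit 18) U = true := by decide +kernel

theorem v_ok : okb S.oks [(0, 0, 0), (0, 0, 0), (0, 0, 0), (0, 0, 0), (0, 0, 0), (0, 0, 0)] = true := by decide +kernel

theorem v_part : ∀ d < D0.p, (nat_lit 18).testBit d = true → part S (zc (D0 :: [D1])) d = true := by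
  intro d hd h
  have h1 : ∀ d < 11, (nat_lit 18).testBit d = true → d = 1 ∨ d = 4 := by decide
  rcases h1 d hd h with rfl | rfl
  · exact part_1
  · exact part_4

theorem main (n : ℕ) (ho : Odd n) (hr : ¬ Rep n) (h0 : Split 11 n) (h1 : Split 37 n) (hm : Split 31 n) :
    n ∈ EE := by
  refine concln (W := nat_lit 1751075579) (S := S) (P0 := D0) (Pl := [D1]) (Pm := Dm) (cn := nat_lit 18) ?_ Dm_ok v_ty ?_ ?_ v_msc ?_ v_mm v_un v_part v_ok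
    n ho hr ?_ hm
  · simp only [List.forall_mem_cons]
    exact ⟨D0_ok, D1_ok, fun _ h => absurd h (by simp)⟩
  · exact all2 (φ := fun j P => ∃ L, tyb P (S.tys.getD j 0) L = true) ⟨_, v_ty0⟩ ⟨_, v_ty1⟩
  · exact all2 (φ := fun j P => Nat.ble (S.pks.getD j 0) (Nat.pow P.p P.K) = true) (by decide +kernel) (by decide +kernel)
  · exact all2 (φ := fun i P => mvsn (nat_lit 1751075579) S D0 [D1] Dm (nat_lit 18) i P = true) v_mv0 v_mv1
  · simp only [List.forall_mem_cons]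
    exact ⟨h0, h1, fun _ h => absurd h (by simp)⟩

end Pool.Agent.Work.MP_9954fe_nt.P11_37_31

namespace Pool.Agent.Work.MP_9954fe_nt.P11_53_43

/-- Dummy move. -/
noncomputable def mz : Mv := ⟨⟨0, 0, 0, 0, 0, 0, 0, 0, 0⟩, .nil, (nat_lit 0), (nat_lit 0), (nat_lit 0), (nat_lit 0), (0, 0, 0), [], 0⟩

/-- Moves. -/
noncomputable def t0_1 : List Mv := [
  ⟨⟨3, 8, -11, -10, -1, 0, 4, -4, -11⟩, (.cons (nat_lit 15242817) (nat_lit 6282365) (nat_lit 2311098) (nat_lit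
 1) (.cons (nat_lit 287480) (nat_lit 2094015) (nat_lit 7310376) (nat_lit 1) .nil)), (nat_lit 1), (nat_lit 10),
 (nat_lit 36), (nat_lit 1), (4, 5, 9), [14831522, 176098], 36⟩,
  ⟨⟨3, 8, -11, 10, 1, 0, 4, -4, -11⟩, (.cons (nat_lit 6190604) (nat_lit 17063049) (nat_lit 6190617) (nat_lit 1)
 (.cons (nat_lit 527600) (nat_lit 2036098) (nat_lit 4606980) (nat_lit 1) .nil)), (nat_lit 25), (nat_lit 21),
 (nat_lit 13), (nat_lit 1), (4, 6, 9), [1, 4359402], 24⟩,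
  ⟨⟨1, -12, 0, 10, 1, 0, 4, -4, -11⟩, (.cons (nat_lit 13486901) (nat_lit 18743973) (nat_lit 18743974) (nat_lit
 1) (.cons (nat_lit 1239485) (nat_lit 242418) (nat_lit 5910669) (nat_lit 1) .nil)), (nat_lit 18), (nat_lit 22),
 (nat_lit 13), (nat_lit 1), (5, 6, 9), [4149452, 2454531], 24⟩,
  ⟨⟨1, -12, 0, -10, -1, 0, 4, -4, -11⟩, (.cons (nat_lit 10749318) (nat_lit 19050803) (nat_lit 10749329)
 (nat_lit 1) (.cons (nat_lit 7890480) (nat_lit 258037) (nat_lit 7551339) (nat_lit 1) .nil)), (nat_lit 42),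
 (nat_lit 33), (nat_lit 36), (nat_lit 1), (5, 5, 9), [14450835, 125745], 36⟩,
  ⟨⟨1, -12, 0, -10, -1, 0, 4, -4, -11⟩, (.cons (nat_lit 10749318) (nat_lit 19050803) (nat_lit 10749329)
 (nat_lit 1) (.cons (nat_lit 7890480) (nat_lit 258037) (nat_lit 7551339) (nat_lit 1) .nil)), (nat_lit 42),
 (nat_lit 33), (nat_lit 36), (nat_lit 1), (5, 5, 9), [14450835, 125745], 36⟩,
  ⟨⟨1, -12, 0, 10, 1, 0, 4, -4, -11⟩, (.cons (nat_lit 13486901) (nat_lit 18743973) (nat_lit 18743974) (nat_lit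
 1) (.cons (nat_lit 1239485) (nat_lit 242418) (nat_lit 5910669) (nat_lit 1) .nil)), (nat_lit 18), (nat_lit 22),
 (nat_lit 13), (nat_lit 1), (5, 6, 9), [4149452, 2454531], 24⟩,
  ⟨⟨1, -12, 0, -10, -1, 0, 4, -4, -11⟩, (.cons (nat_lit 10749318) (nat_lit 19050803) (nat_lit 10749329)
 (nat_lit 1) (.cons (nat_lit 7890480) (nat_lit 258037) (nat_lit 7551339) (nat_lit 1) .nil)), (nat_lit 42),
 (nat_lit 33), (nat_lit 36), (nat_lit 1), (5, 5, 9), [14450835, 125745], 36⟩,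
  ⟨⟨3, 8, -11, 10, 1, 0, 4, -4, -11⟩, (.cons (nat_lit 6190604) (nat_lit 17063049) (nat_lit 6190617) (nat_lit 1)
 (.cons (nat_lit 527600) (nat_lit 2036098) (nat_lit 4606980) (nat_lit 1) .nil)), (nat_lit 25), (nat_lit 21),
 (nat_lit 13), (nat_lit 1), (4, 6, 9), [1, 4359402], 24⟩,
  ⟨⟨1, -12, 0, -10, -1, 0, 4, -4, -11⟩, (.cons (nat_lit 10749318) (nat_lit 19050803) (nat_lit 10749329)
 (nat_lit 1) (.cons (nat_lit 7890480) (nat_lit 258037) (nat_lit 7551339) (nat_lit 1) .nil)), (nat_lit 42),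
 (nat_lit 33), (nat_lit 36), (nat_lit 1), (5, 5, 9), [14450835, 125745], 36⟩,
  ⟨⟨3, 8, -11, -10, -1, 0, 4, -4, -11⟩, (.cons (nat_lit 15242817) (nat_lit 6282365) (nat_lit 2311098) (nat_lit
 1) (.cons (nat_lit 287480) (nat_lit 2094015) (nat_lit 7310376) (nat_lit 1) .nil)), (nat_lit 1), (nat_lit 10),
 (nat_lit 36), (nat_lit 1), (4, 5, 9), [14831522, 176098], 36⟩,
  ⟨⟨1, -12, 0, -10, -1, 0, 4, -4, -11⟩, (.cons (nat_lit 10749318) (nat_lit 19050803) (nat_lit 10749329)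
 (nat_lit 1) (.cons (nat_lit 7890480) (nat_lit 258037) (nat_lit 7551339) (nat_lit 1) .nil)), (nat_lit 42),
 (nat_lit 33), (nat_lit 36), (nat_lit 1), (5, 5, 9), [14450835, 125745], 36⟩]

/-- Moves. -/
noncomputable def t0_4 : List Mv := [
  ⟨⟨-11, 0, 0, -4, 5, 12, -2, 8, -5⟩, (.cons (nat_lit 4611151) (nat_lit 18672974) (nat_lit 10896376) (nat_lit
 1) (.cons (nat_lit 7890480) (nat_lit 2312121) (nat_lit 7364617) (nat_lit 1) .nil)), (nat_lit 42), (nat_lit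
 12), (nat_lit 34), (nat_lit 1), (0, 5, 8), [13330250, 5301720], 16⟩,
  ⟨⟨9, 8, -5, 4, -5, -12, -2, 8, -5⟩, (.cons (nat_lit 6586237) (nat_lit 5980849) (nat_lit 18545247) (nat_lit 1)
 (.cons (nat_lit 2187015) (nat_lit 836166) (nat_lit 644255) (nat_lit 1) .nil)), (nat_lit 7), (nat_lit 4),
 (nat_lit 25), (nat_lit 1), (8, 6, 8), [4509665, 6227092], 9⟩,
  ⟨⟨9, 8, -5, 4, -5, -12, -2, 8, -5⟩, (.cons (nat_lit 6586237) (nat_lit 5980849) (nat_lit 18545247) (nat_lit 1)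
 (.cons (nat_lit 2187015) (nat_lit 836166) (nat_lit 644255) (nat_lit 1) .nil)), (nat_lit 7), (nat_lit 4),
 (nat_lit 25), (nat_lit 1), (8, 6, 8), [4509665, 6227092], 9⟩,
  ⟨⟨9, 8, -5, 4, -5, -12, -2, 8, -5⟩, (.cons (nat_lit 6586237) (nat_lit 5980849) (nat_lit 18545247) (nat_lit 1)
 (.cons (nat_lit 2187015) (nat_lit 836166) (nat_lit 644255) (nat_lit 1) .nil)), (nat_lit 7), (nat_lit 4),
 (nat_lit 25), (nat_lit 1), (8, 6, 8), [4509665, 6227092], 9⟩,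
  ⟨⟨9, 8, -5, -4, 5, 12, -2, 8, -5⟩, (.cons (nat_lit 19404713) (nat_lit 11515759) (nat_lit 5642825) (nat_lit 1)
 (.cons (nat_lit 4104370) (nat_lit 812116) (nat_lit 2247650) (nat_lit 1) .nil)), (nat_lit 1), (nat_lit 31),
 (nat_lit 34), (nat_lit 1), (8, 5, 8), [18598650, 4557440], 16⟩,
  ⟨⟨-11, 0, 0, 4, -5, -12, -2, 8, -5⟩, (.cons (nat_lit 14857472) (nat_lit 1937884) (nat_lit 16472565) (nat_lit
 1) (.cons (nat_lit 4326135) (nat_lit 1443170) (nat_lit 2662721) (nat_lit 1) .nil)), (nat_lit 36), (nat_lit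
 39), (nat_lit 25), (nat_lit 1), (0, 6, 8), [9454230, 1216179], 9⟩,
  ⟨⟨9, 8, -5, 4, -5, -12, -2, 8, -5⟩, (.cons (nat_lit 6586237) (nat_lit 5980849) (nat_lit 18545247) (nat_lit 1)
 (.cons (nat_lit 2187015) (nat_lit 836166) (nat_lit 644255) (nat_lit 1) .nil)), (nat_lit 7), (nat_lit 4),
 (nat_lit 25), (nat_lit 1), (8, 6, 8), [4509665, 6227092], 9⟩,
  ⟨⟨9, 8, -5, -4, 5, 12, -2, 8, -5⟩, (.cons (nat_lit 19404713) (nat_lit 11515759) (nat_lit 5642825) (nat_lit 1)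
 (.cons (nat_lit 4104370) (nat_lit 812116) (nat_lit 2247650) (nat_lit 1) .nil)), (nat_lit 1), (nat_lit 31),
 (nat_lit 34), (nat_lit 1), (8, 5, 8), [18598650, 4557440], 16⟩,
  ⟨⟨-11, 0, 0, 4, -5, -12, -2, 8, -5⟩, (.cons (nat_lit 14857472) (nat_lit 1937884) (nat_lit 16472565) (nat_lit
 1) (.cons (nat_lit 4326135) (nat_lit 1443170) (nat_lit 2662721) (nat_lit 1) .nil)), (nat_lit 36), (nat_lit
 39), (nat_lit 25), (nat_lit 1), (0, 6, 8), [9454230, 1216179], 9⟩,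
  ⟨⟨9, 8, -5, 4, -5, -12, -2, 8, -5⟩, (.cons (nat_lit 6586237) (nat_lit 5980849) (nat_lit 18545247) (nat_lit 1)
 (.cons (nat_lit 2187015) (nat_lit 836166) (nat_lit 644255) (nat_lit 1) .nil)), (nat_lit 7), (nat_lit 4),
 (nat_lit 25), (nat_lit 1), (8, 6, 8), [4509665, 6227092], 9⟩,
  ⟨⟨9, 8, -5, 4, -5, -12, -2, 8, -5⟩, (.cons (nat_lit 6586237) (nat_lit 5980849) (nat_lit 18545247) (nat_lit 1)
 (.cons (nat_lit 2187015) (nat_lit 836166) (nat_lit 644255) (nat_lit 1) .nil)), (nat_lit 7), (nat_lit 4),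
 (nat_lit 25), (nat_lit 1), (8, 6, 8), [4509665, 6227092], 9⟩]

/-- Moves. -/
noncomputable def t1_1 : List Mv := [
  mz,
  mz,
  mz,
  mz,
  ⟨⟨51, 20, -47, 10, -47, -30, -2, 20, -47⟩, (.cons (nat_lit 19135869) (nat_lit 14286497) (nat_lit 1) (nat_lit
 16541591) (.cons (nat_lit 2854593) (nat_lit 775833) (nat_lit 7029246) (nat_lit 1) .nil)), (nat_lit 9),
 (nat_lit 5), (nat_lit 42), (nat_lit 1), (24, 39, 24), [15830616, 3566787], 11⟩,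
  ⟨⟨51, -20, -47, -10, -47, 30, -2, -20, -47⟩, (.cons (nat_lit 1148745) (nat_lit 12961805) (nat_lit 14485044)
 (nat_lit 1) (.cons (nat_lit 7706101) (nat_lit 1363439) (nat_lit 7460656) (nat_lit 1) .nil)), (nat_lit 24),
 (nat_lit 34), (nat_lit 19), (nat_lit 1), (12, 7, 12), [7945035, 6069444], 15⟩,
  ⟨⟨25, -48, -36, -28, 5, -36, 40, 8, -47⟩, (.cons (nat_lit 616200) (nat_lit 12285234) (nat_lit 19155945)
 (nat_lit 1) (.cons (nat_lit 6557244) (nat_lit 2488151) (nat_lit 4864254) (nat_lit 1) .nil)), (nat_lit 33),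
 (nat_lit 31), (nat_lit 26), (nat_lit 1), (37, 37, 38), [9951393, 3865803], 10⟩,
  mz,
  mz,
  ⟨⟨-33, -20, -32, -8, -45, 34, 24, -24, -49⟩, (.cons (nat_lit 14046973) (nat_lit 1113906) (nat_lit 14363631)
 (nat_lit 1) (.cons (nat_lit 3228686) (nat_lit 4341650) (nat_lit 1924880) (nat_lit 1) .nil)), (nat_lit 32),
 (nat_lit 11), (nat_lit 15), (nat_lit 1), (35, 39, 42), [15953581, 4305531], 40⟩,
  ⟨⟨-15, -56, 4, -28, 5, 64, -40, -8, -7⟩, (.cons (nat_lit 8632443) (nat_lit 2900729) (nat_lit 6435830)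
 (nat_lit 1) (.cons (nat_lit 5520281) (nat_lit 2707339) (nat_lit 5903063) (nat_lit 1) .nil)), (nat_lit 30),
 (nat_lit 30), (nat_lit 14), (nat_lit 1), (10, 1, 9), [12379194, 6101311], 13⟩,
  ⟨⟨15, -32, 44, 50, 17, -30, 14, -44, -19⟩, (.cons (nat_lit 1132989) (nat_lit 12993913) (nat_lit 6417469)
 (nat_lit 1) (.cons (nat_lit 6892726) (nat_lit 5526891) (nat_lit 446713) (nat_lit 1) .nil)), (nat_lit 23),
 (nat_lit 29), (nat_lit 24), (nat_lit 1), (29, 26, 20), [11492911, 3552138], 22⟩,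
  ⟨⟨53, 0, -53, -10, -47, -20, 2, 20, -49⟩, (.cons (nat_lit 3132957) (nat_lit 11785898) (nat_lit 2291536)
 (nat_lit 1) (.cons (nat_lit 5361064) (nat_lit 6078105) (nat_lit 3878160) (nat_lit 1) .nil)), (nat_lit 9),
 (nat_lit 38), (nat_lit 1), (nat_lit 1), (0, 25, 48), [16496526, 6804044], 11⟩,
  mz,
  mz,
  ⟨⟨-51, -20, 4, -10, 47, -20, 2, -20, -49⟩, (.cons (nat_lit 19487170) (nat_lit 6303291) (nat_lit 3382434)
 (nat_lit 1) (.cons (nat_lit 4314151) (nat_lit 6999064) (nat_lit 3443806) (nat_lit 1) .nil)), (nat_lit 42),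
 (nat_lit 34), (nat_lit 17), (nat_lit 1), (36, 32, 36), [8668387, 989393], 15⟩,
  ⟨⟨31, -48, -27, 10, 17, -60, 46, 4, -11⟩, (.cons (nat_lit 14090575) (nat_lit 8773878) (nat_lit 7240833)
 (nat_lit 1) (.cons (nat_lit 545572) (nat_lit 727136) (nat_lit 1) (nat_lit 1207340) .nil)), (nat_lit 16),
 (nat_lit 1), (nat_lit 3), (nat_lit 1), (39, 16, 10), [7008986, 707945], 1⟩,
  ⟨⟨31, -48, -4, 10, 17, 50, 46, 4, -35⟩, (.cons (nat_lit 5945446) (nat_lit 10245958) (nat_lit 357680) (nat_lit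
 1) (.cons (nat_lit 5298735) (nat_lit 6124146) (nat_lit 1616335) (nat_lit 1) .nil)), (nat_lit 23), (nat_lit
 34), (nat_lit 23), (nat_lit 1), (18, 40, 25), [14359943, 2578308], 22⟩,
  ⟨⟨-57, -4, 40, 8, -45, 26, -24, -24, -25⟩, (.cons (nat_lit 789006) (nat_lit 15166654) (nat_lit 2297576)
 (nat_lit 1) (.cons (nat_lit 6547170) (nat_lit 3001802) (nat_lit 1491073) (nat_lit 1) .nil)), (nat_lit 32),
 (nat_lit 32), (nat_lit 28), (nat_lit 1), (12, 29, 19), [8102676, 347683], 40⟩,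
  mz,
  mz,
  ⟨⟨-33, 20, -32, 8, -45, -34, 24, 24, -49⟩, (.cons (nat_lit 9525400) (nat_lit 7991636) (nat_lit 9781544)
 (nat_lit 1) (.cons (nat_lit 1323067) (nat_lit 1259898) (nat_lit 7815040) (nat_lit 1) .nil)), (nat_lit 39),
 (nat_lit 42), (nat_lit 26), (nat_lit 1), (47, 40, 14), [482050, 7336522], 38⟩,
  ⟨⟨45, 28, -49, 28, -45, -14, 0, 0, -53⟩, (.cons (nat_lit 19487170) (nat_lit 17691378) (nat_lit 14361664)
 (nat_lit 1) (.cons (nat_lit 3517226) (nat_lit 6386058) (nat_lit 1235851) (nat_lit 1) .nil)), (nat_lit 42),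
 (nat_lit 21), (nat_lit 13), (nat_lit 1), (24, 22, 0), [7876064, 4257688], 12⟩,
  mz,
  ⟨⟨-13, 48, -27, 30, -17, -60, 30, 36, -7⟩, (.cons (nat_lit 9594724) (nat_lit 12331346) (nat_lit 1) (nat_lit
 4056833) (.cons (nat_lit 6610459) (nat_lit 6365867) (nat_lit 5197395) (nat_lit 1) .nil)), (nat_lit 20),
 (nat_lit 39), (nat_lit 18), (nat_lit 1), (11, 48, 48), [15955787, 3534223], 26⟩,
  mz,
  ⟨⟨-25, -48, -11, 28, 5, -64, -40, 8, -7⟩, (.cons (nat_lit 11536474) (nat_lit 16636398) (nat_lit 1057867)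
 (nat_lit 1) (.cons (nat_lit 6047124) (nat_lit 1824961) (nat_lit 1) (nat_lit 4001235) .nil)), (nat_lit 10),
 (nat_lit 31), (nat_lit 17), (nat_lit 1), (2, 2, 35), [8851476, 351296], 10⟩,
  mz,
  ⟨⟨-1, -48, 37, -52, -5, 16, 8, -40, -31⟩, (.cons (nat_lit 150352) (nat_lit 16406697) (nat_lit 3243281)
 (nat_lit 1) (.cons (nat_lit 7822685) (nat_lit 1416042) (nat_lit 7449798) (nat_lit 1) .nil)), (nat_lit 25),
 (nat_lit 40), (nat_lit 25), (nat_lit 1), (29, 24, 33), [9295713, 6879005], 11⟩,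
  ⟨⟨43, -12, -63, -30, 17, -30, 30, 36, -23⟩, (.cons (nat_lit 16831870) (nat_lit 11655417) (nat_lit 16527536)
 (nat_lit 1) (.cons (nat_lit 615641) (nat_lit 5686034) (nat_lit 5103288) (nat_lit 1) .nil)), (nat_lit 28),
 (nat_lit 26), (nat_lit 12), (nat_lit 1), (16, 48, 5), [12757615, 4237298], 41⟩,
  mz,
  ⟨⟨-45, 28, -4, -28, -45, 14, 0, 0, -53⟩, (.cons (nat_lit 10130473) (nat_lit 7879166) (nat_lit 3039142)
 (nat_lit 1) (.cons (nat_lit 3655600) (nat_lit 5887883) (nat_lit 2285624) (nat_lit 1) .nil)), (nat_lit 1),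
 (nat_lit 21), (nat_lit 30), (nat_lit 1), (14, 4, 0), [19422829, 7307019], 12⟩,
  mz,
  ⟨⟨-39, 28, -17, 10, -33, -50, 18, 36, -37⟩, (.cons (nat_lit 8127102) (nat_lit 3538313) (nat_lit 16108327)
 (nat_lit 1) (.cons (nat_lit 5420005) (nat_lit 7422346) (nat_lit 1619287) (nat_lit 1) .nil)), (nat_lit 14),
 (nat_lit 40), (nat_lit 35), (nat_lit 1), (43, 8, 25), [1684907, 3950882], 14⟩,
  mz,
  mz,
  ⟨⟨1, -48, 36, -52, 5, 36, -8, -40, -23⟩, (.cons (nat_lit 16466027) (nat_lit 229386) (nat_lit 4275477)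
 (nat_lit 1) (.cons (nat_lit 6620983) (nat_lit 6158622) (nat_lit 3916216) (nat_lit 1) .nil)), (nat_lit 30),
 (nat_lit 16), (nat_lit 37), (nat_lit 1), (41, 41, 43), [13388752, 6588648], 13⟩,
  ⟨⟨-1, 48, 37, 52, -5, -16, 8, 40, -31⟩, (.cons (nat_lit 18133883) (nat_lit 11434718) (nat_lit 11218595)
 (nat_lit 1) (.cons (nat_lit 5119050) (nat_lit 6142234) (nat_lit 3161272) (nat_lit 1) .nil)), (nat_lit 31),
 (nat_lit 38), (nat_lit 10), (nat_lit 1), (26, 26, 4), [14742093, 7145290], 36⟩,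
  ⟨⟨-57, 8, 37, 10, 33, 40, -18, 36, -19⟩, (.cons (nat_lit 10774394) (nat_lit 7640825) (nat_lit 16038356)
 (nat_lit 1) (.cons (nat_lit 442927) (nat_lit 7648795) (nat_lit 7470885) (nat_lit 1) .nil)), (nat_lit 1),
 (nat_lit 27), (nat_lit 19), (nat_lit 1), (40, 6, 21), [14195928, 6316364], 40⟩,
  ⟨⟨15, -56, -11, -28, -5, -36, 40, -8, -47⟩, (.cons (nat_lit 16980637) (nat_lit 10999530) (nat_lit 8920668)
 (nat_lit 1) (.cons (nat_lit 1275306) (nat_lit 3349324) (nat_lit 5008160) (nat_lit 1) .nil)), (nat_lit 31),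
 (nat_lit 7), (nat_lit 42), (nat_lit 1), (31, 34, 12), [8949142, 6153873], 36⟩,
  ⟨⟨-9, -8, -59, 52, 5, -36, -8, 40, -23⟩, (.cons (nat_lit 11162471) (nat_lit 7533529) (nat_lit 19396003)
 (nat_lit 1) (.cons (nat_lit 7273294) (nat_lit 2172787) (nat_lit 2018632) (nat_lit 1) .nil)), (nat_lit 10),
 (nat_lit 42), (nat_lit 32), (nat_lit 1), (29, 15, 14), [18497624, 7873025], 10⟩,
  ⟨⟨31, 48, -4, -10, 17, -50, 46, -4, -35⟩, (.cons (nat_lit 13094847) (nat_lit 2714594) (nat_lit 1) (nat_lit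
 13300056) (.cons (nat_lit 6883105) (nat_lit 570559) (nat_lit 2830267) (nat_lit 1) .nil)), (nat_lit 15),
 (nat_lit 38), (nat_lit 27), (nat_lit 1), (15, 2, 12), [10975123, 1037093], 5⟩,
  ⟨⟨-57, 4, 40, -8, -45, -26, -24, 24, -25⟩, (.cons (nat_lit 14534676) (nat_lit 10144251) (nat_lit 17075484)
 (nat_lit 1) (.cons (nat_lit 3048247) (nat_lit 509608) (nat_lit 406381) (nat_lit 1) .nil)), (nat_lit 39),
 (nat_lit 1), (nat_lit 17), (nat_lit 1), (25, 50, 44), [2216194, 6286556], 38⟩,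
  ⟨⟨-1, 12, -63, 50, -17, -30, 14, 44, -19⟩, (.cons (nat_lit 12595465) (nat_lit 10913916) (nat_lit 16528703)
 (nat_lit 1) (.cons (nat_lit 1773605) (nat_lit 126269) (nat_lit 5642298) (nat_lit 1) .nil)), (nat_lit 35),
 (nat_lit 8), (nat_lit 24), (nat_lit 1), (30, 37, 4), [13423169, 6132586], 22⟩,
  ⟨⟨-15, 32, 59, 50, 17, -20, -14, 44, -5⟩, (.cons (nat_lit 4956014) (nat_lit 12550680) (nat_lit 6791200)
 (nat_lit 1) (.cons (nat_lit 7281819) (nat_lit 7138151) (nat_lit 4780138) (nat_lit 1) .nil)), (nat_lit 28),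
 (nat_lit 6), (nat_lit 1), (nat_lit 1), (6, 33, 48), [7035104, 3977989], 5⟩,
  mz,
  ⟨⟨-13, -48, -27, 30, 17, -60, 30, -36, -7⟩, (.cons (nat_lit 9170433) (nat_lit 18543494) (nat_lit 10753722)
 (nat_lit 1) (.cons (nat_lit 295719) (nat_lit 5096781) (nat_lit 4168007) (nat_lit 1) .nil)), (nat_lit 1),
 (nat_lit 25), (nat_lit 32), (nat_lit 1), (14, 37, 37), [10519046, 5049337], 8⟩,
  ⟨⟨1, -12, -64, 50, -17, -20, -14, -44, -5⟩, (.cons (nat_lit 2485709) (nat_lit 14409897) (nat_lit 3107138)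
 (nat_lit 1) (.cons (nat_lit 7293500) (nat_lit 4977554) (nat_lit 2242767) (nat_lit 1) .nil)), (nat_lit 27),
 (nat_lit 15), (nat_lit 17), (nat_lit 1), (3, 44, 11), [7673338, 5412787], 42⟩,
  ⟨⟨15, -52, 16, -10, 17, 60, 46, -4, -11⟩, (.cons (nat_lit 10191447) (nat_lit 16027074) (nat_lit 11395723)
 (nat_lit 1) (.cons (nat_lit 2170015) (nat_lit 3086532) (nat_lit 6768730) (nat_lit 1) .nil)), (nat_lit 8),
 (nat_lit 9), (nat_lit 36), (nat_lit 1), (14, 26, 50), [535109, 4754291], 21⟩,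
  ⟨⟨-39, -28, -17, 10, 33, -50, 18, -36, -37⟩, (.cons (nat_lit 3413138) (nat_lit 4384606) (nat_lit 14961878)
 (nat_lit 1) (.cons (nat_lit 4568767) (nat_lit 2110641) (nat_lit 6640120) (nat_lit 1) .nil)), (nat_lit 1),
 (nat_lit 9), (nat_lit 14), (nat_lit 1), (5, 49, 14), [6010732, 1703946], 40⟩,
  ⟨⟨-57, -8, 37, -10, 33, -40, -18, -36, -19⟩, (.cons (nat_lit 12840887) (nat_lit 6831823) (nat_lit 337162)
 (nat_lit 1) (.cons (nat_lit 4426713) (nat_lit 1222364) (nat_lit 4618925) (nat_lit 1) .nil)), (nat_lit 1),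
 (nat_lit 34), (nat_lit 29), (nat_lit 1), (14, 35, 10), [14659578, 6796120], 40⟩,
  mz,
  ⟨⟨-13, -48, 40, 30, 17, 30, 30, -36, -23⟩, (.cons (nat_lit 1498545) (nat_lit 4315407) (nat_lit 1437119)
 (nat_lit 1) (.cons (nat_lit 5668415) (nat_lit 7659635) (nat_lit 3779191) (nat_lit 1) .nil)), (nat_lit 23),
 (nat_lit 39), (nat_lit 25), (nat_lit 1), (45, 47, 47), [8915124, 2128245], 17⟩]

/-- Moves. -/
noncomputable def t1_4 : List Mv := [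
  mz,
  mz,
  mz,
  mz,
  ⟨⟨-53, 0, 0, 10, -47, -30, -2, 20, -47⟩, (.cons (nat_lit 19487160) (nat_lit 11465904) (nat_lit 3714369)
 (nat_lit 1) (.cons (nat_lit 2753566) (nat_lit 382075) (nat_lit 3033848) (nat_lit 1) .nil)), (nat_lit 34),
 (nat_lit 38), (nat_lit 42), (nat_lit 1), (0, 39, 24), [9742181, 3609729], 11⟩,
  ⟨⟨-53, 0, 0, -10, -47, 30, -2, -20, -47⟩, (.cons (nat_lit 7321139) (nat_lit 6495732) (nat_lit 1) (nat_lit
 16903326) (.cons (nat_lit 2777262) (nat_lit 2311629) (nat_lit 6003670) (nat_lit 1) .nil)), (nat_lit 19),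
 (nat_lit 9), (nat_lit 19), (nat_lit 1), (0, 7, 12), [8661277, 3489508], 15⟩,
  ⟨⟨25, -48, -36, 28, -5, 36, 40, 8, -47⟩, (.cons (nat_lit 5885503) (nat_lit 12991479) (nat_lit 1) (nat_lit
 610214) (.cons (nat_lit 4416162) (nat_lit 1396055) (nat_lit 5956047) (nat_lit 1) .nil)), (nat_lit 18),
 (nat_lit 4), (nat_lit 8), (nat_lit 1), (37, 16, 38), [15155128, 7462547], 11⟩,
  mz,
  mz,
  ⟨⟨-33, -20, -32, 8, 45, -34, 24, -24, -49⟩, (.cons (nat_lit 5525535) (nat_lit 5385298) (nat_lit 14834804)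
 (nat_lit 1) (.cons (nat_lit 3320803) (nat_lit 4389122) (nat_lit 1807882) (nat_lit 1) .nil)), (nat_lit 1),
 (nat_lit 23), (nat_lit 42), (nat_lit 1), (35, 14, 42), [7634141, 3535963], 25⟩,
  ⟨⟨-25, 48, -11, -28, 5, 64, -40, -8, -7⟩, (.cons (nat_lit 14863058) (nat_lit 18402876) (nat_lit 14323430)
 (nat_lit 1) (.cons (nat_lit 3797972) (nat_lit 751728) (nat_lit 3657816) (nat_lit 1) .nil)), (nat_lit 13),
 (nat_lit 13), (nat_lit 14), (nat_lit 1), (52, 1, 9), [4521728, 4089196], 13⟩,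
  ⟨⟨15, -32, 44, 50, 17, -30, 14, -44, -19⟩, (.cons (nat_lit 1132989) (nat_lit 12993913) (nat_lit 6417469)
 (nat_lit 1) (.cons (nat_lit 6892726) (nat_lit 5526891) (nat_lit 446713) (nat_lit 1) .nil)), (nat_lit 23),
 (nat_lit 29), (nat_lit 24), (nat_lit 1), (29, 26, 20), [11492911, 3552138], 22⟩,
  ⟨⟨-51, 20, 4, 10, 47, 20, 2, 20, -49⟩, (.cons (nat_lit 19487170) (nat_lit 18646124) (nat_lit 18851097)
 (nat_lit 1) (.cons (nat_lit 833274) (nat_lit 5718228) (nat_lit 726984) (nat_lit 1) .nil)), (nat_lit 42),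
 (nat_lit 42), (nat_lit 24), (nat_lit 1), (48, 28, 48), [16276167, 1031367], 15⟩,
  mz,
  mz,
  ⟨⟨-51, -20, 4, -10, 47, -20, 2, -20, -49⟩, (.cons (nat_lit 19487170) (nat_lit 6303291) (nat_lit 3382434)
 (nat_lit 1) (.cons (nat_lit 4314151) (nat_lit 6999064) (nat_lit 3443806) (nat_lit 1) .nil)), (nat_lit 42),
 (nat_lit 34), (nat_lit 17), (nat_lit 1), (36, 32, 36), [8668387, 989393], 15⟩,
  ⟨⟨15, 52, 16, 10, 17, -60, 46, 4, -11⟩, (.cons (nat_lit 4307810) (nat_lit 19375406) (nat_lit 17094261)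
 (nat_lit 1) (.cons (nat_lit 1251332) (nat_lit 4266202) (nat_lit 7253833) (nat_lit 1) .nil)), (nat_lit 27),
 (nat_lit 42), (nat_lit 3), (nat_lit 1), (24, 16, 10), [15104776, 6928554], 1⟩,
  ⟨⟨15, 52, -31, 10, 17, 50, 46, 4, -35⟩, (.cons (nat_lit 18308055) (nat_lit 13531283) (nat_lit 2733393)
 (nat_lit 1) (.cons (nat_lit 6062022) (nat_lit 1902273) (nat_lit 4866373) (nat_lit 1) .nil)), (nat_lit 20),
 (nat_lit 9), (nat_lit 23), (nat_lit 1), (7, 40, 25), [9907464, 3638760], 22⟩,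
  ⟨⟨-57, -4, 40, -8, 45, -26, -24, -24, -25⟩, (.cons (nat_lit 103436) (nat_lit 7099107) (nat_lit 6032338)
 (nat_lit 1) (.cons (nat_lit 2169052) (nat_lit 6191318) (nat_lit 2945743) (nat_lit 1) .nil)), (nat_lit 1),
 (nat_lit 20), (nat_lit 1), (nat_lit 1), (12, 24, 19), [18253921, 4621735], 25⟩,
  mz,
  mz,
  ⟨⟨-33, 20, -32, 8, -45, -34, 24, 24, -49⟩, (.cons (nat_lit 9525400) (nat_lit 7991636) (nat_lit 9781544)
 (nat_lit 1) (.cons (nat_lit 1323067) (nat_lit 1259898) (nat_lit 7815040) (nat_lit 1) .nil)), (nat_lit 39),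
 (nat_lit 42), (nat_lit 26), (nat_lit 1), (47, 40, 14), [482050, 7336522], 38⟩,
  ⟨⟨-45, -28, -4, 28, -45, -14, 0, 0, -53⟩, (.cons (nat_lit 19191580) (nat_lit 1315041) (nat_lit 3926993)
 (nat_lit 1) (.cons (nat_lit 3102915) (nat_lit 148637) (nat_lit 1554903) (nat_lit 1) .nil)), (nat_lit 1),
 (nat_lit 22), (nat_lit 13), (nat_lit 1), (29, 22, 0), [8437778, 825806], 12⟩,
  mz,
  ⟨⟨-13, 48, -27, 30, -17, -60, 30, 36, -7⟩, (.cons (nat_lit 9594724) (nat_lit 12331346) (nat_lit 1) (nat_lit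
 4056833) (.cons (nat_lit 6610459) (nat_lit 6365867) (nat_lit 5197395) (nat_lit 1) .nil)), (nat_lit 20),
 (nat_lit 39), (nat_lit 18), (nat_lit 1), (11, 48, 48), [15955787, 3534223], 26⟩,
  mz,
  ⟨⟨-25, -48, -11, 28, 5, -64, -40, 8, -7⟩, (.cons (nat_lit 11536474) (nat_lit 16636398) (nat_lit 1057867)
 (nat_lit 1) (.cons (nat_lit 6047124) (nat_lit 1824961) (nat_lit 1) (nat_lit 4001235) .nil)), (nat_lit 10),
 (nat_lit 31), (nat_lit 17), (nat_lit 1), (2, 2, 35), [8851476, 351296], 10⟩,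
  mz,
  ⟨⟨-1, -48, 37, 52, 5, -16, 8, -40, -31⟩, (.cons (nat_lit 12952545) (nat_lit 7632350) (nat_lit 9744620)
 (nat_lit 1) (.cons (nat_lit 597646) (nat_lit 6142929) (nat_lit 2271106) (nat_lit 1) .nil)), (nat_lit 13),
 (nat_lit 16), (nat_lit 6), (nat_lit 1), (29, 29, 33), [17845192, 3950918], 13⟩,
  ⟨⟨-13, 48, 40, -30, 17, -30, 30, 36, -23⟩, (.cons (nat_lit 1066255) (nat_lit 6012906) (nat_lit 18885069)
 (nat_lit 1) (.cons (nat_lit 6321929) (nat_lit 1558013) (nat_lit 7284761) (nat_lit 1) .nil)), (nat_lit 15),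
 (nat_lit 17), (nat_lit 12), (nat_lit 1), (42, 48, 5), [10185465, 7133235], 41⟩,
  mz,
  ⟨⟨45, -28, -49, 28, 45, -14, 0, 0, -53⟩, (.cons (nat_lit 16102483) (nat_lit 19446292) (nat_lit 12825807)
 (nat_lit 1) (.cons (nat_lit 684971) (nat_lit 5174550) (nat_lit 2796875) (nat_lit 1) .nil)), (nat_lit 1),
 (nat_lit 33), (nat_lit 41), (nat_lit 1), (39, 49, 0), [15447112, 6405699], 18⟩,
  mz,
  ⟨⟨-39, 28, -17, -10, 33, 50, 18, 36, -37⟩, (.cons (nat_lit 9400592) (nat_lit 11374117) (nat_lit 18357096)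
 (nat_lit 1) (.cons (nat_lit 3800503) (nat_lit 4022867) (nat_lit 3293273) (nat_lit 1) .nil)), (nat_lit 1),
 (nat_lit 16), (nat_lit 24), (nat_lit 1), (43, 45, 25), [11611107, 6183128], 40⟩,
  mz,
  mz,
  ⟨⟨-9, 8, -59, 52, -5, -36, -8, -40, -23⟩, (.cons (nat_lit 16221133) (nat_lit 16827725) (nat_lit 11458119)
 (nat_lit 1) (.cons (nat_lit 3221663) (nat_lit 503522) (nat_lit 3478152) (nat_lit 1) .nil)), (nat_lit 25),
 (nat_lit 3), (nat_lit 18), (nat_lit 1), (2, 12, 43), [15156304, 990193], 11⟩,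
  ⟨⟨9, -8, -68, -52, 5, 16, 8, 40, -31⟩, (.cons (nat_lit 10066718) (nat_lit 3367922) (nat_lit 6077303) (nat_lit
 1) (.cons (nat_lit 4230101) (nat_lit 2867185) (nat_lit 2677752) (nat_lit 1) .nil)), (nat_lit 33), (nat_lit
 42), (nat_lit 11), (nat_lit 1), (31, 27, 4), [1731577, 5465563], 10⟩,
  ⟨⟨39, 28, -56, 10, 33, 40, -18, 36, -19⟩, (.cons (nat_lit 19487170) (nat_lit 3670876) (nat_lit 15515417)
 (nat_lit 1) (.cons (nat_lit 570450) (nat_lit 3965948) (nat_lit 7697850) (nat_lit 1) .nil)), (nat_lit 42),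
 (nat_lit 16), (nat_lit 19), (nat_lit 1), (34, 6, 21), [15910563, 7051744], 40⟩,
  ⟨⟨15, -56, -11, -28, -5, -36, 40, -8, -47⟩, (.cons (nat_lit 16980637) (nat_lit 10999530) (nat_lit 8920668)
 (nat_lit 1) (.cons (nat_lit 1275306) (nat_lit 3349324) (nat_lit 5008160) (nat_lit 1) .nil)), (nat_lit 31),
 (nat_lit 7), (nat_lit 42), (nat_lit 1), (31, 34, 12), [8949142, 6153873], 36⟩,
  ⟨⟨1, 48, 36, -52, -5, 36, -8, 40, -23⟩, (.cons (nat_lit 15523167) (nat_lit 15273535) (nat_lit 17918212)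
 (nat_lit 1) (.cons (nat_lit 2185149) (nat_lit 4868308) (nat_lit 1277514) (nat_lit 1) .nil)), (nat_lit 12),
 (nat_lit 38), (nat_lit 33), (nat_lit 1), (38, 38, 14), [955895, 4974077], 36⟩,
  ⟨⟨31, 48, -4, -10, 17, -50, 46, -4, -35⟩, (.cons (nat_lit 13094847) (nat_lit 2714594) (nat_lit 1) (nat_lit
 13300056) (.cons (nat_lit 6883105) (nat_lit 570559) (nat_lit 2830267) (nat_lit 1) .nil)), (nat_lit 15),
 (nat_lit 38), (nat_lit 27), (nat_lit 1), (15, 2, 12), [10975123, 1037093], 5⟩,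
  ⟨⟨-57, 4, 40, -8, -45, -26, -24, 24, -25⟩, (.cons (nat_lit 14534676) (nat_lit 10144251) (nat_lit 17075484)
 (nat_lit 1) (.cons (nat_lit 3048247) (nat_lit 509608) (nat_lit 406381) (nat_lit 1) .nil)), (nat_lit 39),
 (nat_lit 1), (nat_lit 17), (nat_lit 1), (25, 50, 44), [2216194, 6286556], 38⟩,
  ⟨⟨15, 32, 44, -50, 17, 30, 14, 44, -19⟩, (.cons (nat_lit 16166580) (nat_lit 3559449) (nat_lit 4890772)
 (nat_lit 1) (.cons (nat_lit 1154981) (nat_lit 6197288) (nat_lit 7210033) (nat_lit 1) .nil)), (nat_lit 15),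
 (nat_lit 6), (nat_lit 42), (nat_lit 1), (27, 16, 4), [241025, 52268], 5⟩,
  ⟨⟨-15, 32, 59, 50, 17, -20, -14, 44, -5⟩, (.cons (nat_lit 4956014) (nat_lit 12550680) (nat_lit 6791200)
 (nat_lit 1) (.cons (nat_lit 7281819) (nat_lit 7138151) (nat_lit 4780138) (nat_lit 1) .nil)), (nat_lit 28),
 (nat_lit 6), (nat_lit 1), (nat_lit 1), (6, 33, 48), [7035104, 3977989], 5⟩,
  mz,
  ⟨⟨43, 12, 20, 30, 17, -60, 30, -36, -7⟩, (.cons (nat_lit 19487170) (nat_lit 18590738) (nat_lit 17596032)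
 (nat_lit 1) (.cons (nat_lit 3895227) (nat_lit 4908199) (nat_lit 84680) (nat_lit 1) .nil)), (nat_lit 42),
 (nat_lit 18), (nat_lit 32), (nat_lit 1), (23, 37, 37), [16943699, 7090380], 8⟩,
  ⟨⟨1, -12, -64, 50, -17, -20, -14, -44, -5⟩, (.cons (nat_lit 2485709) (nat_lit 14409897) (nat_lit 3107138)
 (nat_lit 1) (.cons (nat_lit 7293500) (nat_lit 4977554) (nat_lit 2242767) (nat_lit 1) .nil)), (nat_lit 27),
 (nat_lit 15), (nat_lit 17), (nat_lit 1), (3, 44, 11), [7673338, 5412787], 42⟩,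
  ⟨⟨15, -52, 16, -10, 17, 60, 46, -4, -11⟩, (.cons (nat_lit 10191447) (nat_lit 16027074) (nat_lit 11395723)
 (nat_lit 1) (.cons (nat_lit 2170015) (nat_lit 3086532) (nat_lit 6768730) (nat_lit 1) .nil)), (nat_lit 8),
 (nat_lit 9), (nat_lit 36), (nat_lit 1), (14, 26, 50), [535109, 4754291], 21⟩,
  ⟨⟨-39, -28, -17, 10, 33, -50, 18, -36, -37⟩, (.cons (nat_lit 3413138) (nat_lit 4384606) (nat_lit 14961878)
 (nat_lit 1) (.cons (nat_lit 4568767) (nat_lit 2110641) (nat_lit 6640120) (nat_lit 1) .nil)), (nat_lit 1),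
 (nat_lit 9), (nat_lit 14), (nat_lit 1), (5, 49, 14), [6010732, 1703946], 40⟩,
  ⟨⟨39, -28, -56, -10, 33, -40, -18, -36, -19⟩, (.cons (nat_lit 19487170) (nat_lit 11858037) (nat_lit 741142)
 (nat_lit 1) (.cons (nat_lit 7091676) (nat_lit 4555332) (nat_lit 6612029) (nat_lit 1) .nil)), (nat_lit 42),
 (nat_lit 9), (nat_lit 29), (nat_lit 1), (49, 35, 10), [8423167, 2147297], 40⟩,
  mz,
  ⟨⟨43, 12, -63, -30, -17, -30, 30, -36, -23⟩, (.cons (nat_lit 16195351) (nat_lit 4574667) (nat_lit 8728297)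
 (nat_lit 1) (.cons (nat_lit 5288912) (nat_lit 3162638) (nat_lit 4737897) (nat_lit 1) .nil)), (nat_lit 1),
 (nat_lit 31), (nat_lit 5), (nat_lit 1), (2, 6, 47), [14224237, 3450906], 35⟩]

/-- Moves. -/
noncomputable def t4_1 : List Mv := [
  mz,
  ⟨⟨3, 44, -20, 2, 15, 44, 36, 12, -25⟩, (.cons (nat_lit 4236291) (nat_lit 6182597) (nat_lit 13123339) (nat_lit
 1) (.cons (nat_lit 3056520) (nat_lit 234352) (nat_lit 4275179) (nat_lit 1) .nil)), (nat_lit 22), (nat_lit 0),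
 (nat_lit 0), (nat_lit 0), (36, 24, 2), [17342491, 5696941], 0⟩,
  mz,
  mz,
  ⟨⟨19, 36, -36, 20, 13, 30, 34, -8, -35⟩, (.cons (nat_lit 17782077) (nat_lit 1075336) (nat_lit 4640308)
 (nat_lit 1) (.cons (nat_lit 7385041) (nat_lit 2669955) (nat_lit 6324191) (nat_lit 1) .nil)), (nat_lit 26),
 (nat_lit 0), (nat_lit 0), (nat_lit 0), (14, 17, 16), [13274890, 5458143], 0⟩,
  ⟨⟨33, -32, -28, 2, 15, -46, 36, 12, -11⟩, (.cons (nat_lit 12086274) (nat_lit 6305611) (nat_lit 9400252)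
 (nat_lit 1) (.cons (nat_lit 7721636) (nat_lit 977675) (nat_lit 3061488) (nat_lit 1) .nil)), (nat_lit 21),
 (nat_lit 0), (nat_lit 0), (nat_lit 0), (19, 22, 9), [13276761, 4961257], 0⟩,
  ⟨⟨-37, -24, 0, 20, -37, 0, 2, -8, -43⟩, (.cons (nat_lit 7422495) (nat_lit 6497803) (nat_lit 6681494) (nat_lit
 1) (.cons (nat_lit 174114) (nat_lit 2291148) (nat_lit 327598) (nat_lit 1) .nil)), (nat_lit 35), (nat_lit 0),
 (nat_lit 0), (nat_lit 0), (12, 40, 4), [8191921, 4848192], 0⟩,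
  ⟨⟨33, 8, -53, -20, -27, -20, 30, -24, -13⟩, (.cons (nat_lit 381333) (nat_lit 1227761) (nat_lit 5680006)
 (nat_lit 1) (.cons (nat_lit 2289624) (nat_lit 4595428) (nat_lit 652058) (nat_lit 1) .nil)), (nat_lit 36),
 (nat_lit 0), (nat_lit 0), (nat_lit 0), (32, 21, 33), [1195506, 4670912], 0⟩,
  ⟨⟨-39, -16, -4, 20, -37, -20, -2, 8, -41⟩, (.cons (nat_lit 14534678) (nat_lit 9025765) (nat_lit 6341400)
 (nat_lit 1) (.cons (nat_lit 4719921) (nat_lit 5071356) (nat_lit 2382473) (nat_lit 1) .nil)), (nat_lit 37),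
 (nat_lit 0), (nat_lit 0), (nat_lit 0), (6, 30, 40), [974451, 1435057], 0⟩,
  ⟨⟨47, 0, -20, 0, -43, 0, 18, 0, -47⟩, (.cons (nat_lit 19487170) (nat_lit 12239860) (nat_lit 12194306)
 (nat_lit 1) (.cons (nat_lit 7890480) (nat_lit 2483962) (nat_lit 3096503) (nat_lit 1) .nil)), (nat_lit 9),
 (nat_lit 0), (nat_lit 0), (nat_lit 0), (34, 0, 24), [2629558, 5870414], 0⟩,
  ⟨⟨21, -20, 31, 38, 15, -34, 12, -36, -13⟩, (.cons (nat_lit 6744479) (nat_lit 16083729) (nat_lit 9245059)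
 (nat_lit 1) (.cons (nat_lit 3471581) (nat_lit 7417436) (nat_lit 7349314) (nat_lit 1) .nil)), (nat_lit 38),
 (nat_lit 0), (nat_lit 0), (nat_lit 0), (8, 37, 23), [10719320, 6959783], 0⟩,
  mz,
  ⟨⟨-19, -36, -17, 20, 13, -50, -34, 8, -1⟩, (.cons (nat_lit 17139113) (nat_lit 4764643) (nat_lit 14508598)
 (nat_lit 1) (.cons (nat_lit 3004062) (nat_lit 6683140) (nat_lit 2183027) (nat_lit 1) .nil)), (nat_lit 18),
 (nat_lit 0), (nat_lit 0), (nat_lit 0), (24, 20, 9), [15144496, 1425543], 0⟩,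
  ⟨⟨33, 8, 20, 20, 27, -40, 30, -24, -17⟩, (.cons (nat_lit 19487170) (nat_lit 8689765) (nat_lit 13750578)
 (nat_lit 1) (.cons (nat_lit 7890480) (nat_lit 3711483) (nat_lit 5662681) (nat_lit 1) .nil)), (nat_lit 13),
 (nat_lit 0), (nat_lit 0), (nat_lit 0), (4, 35, 31), [14549954, 85340], 0⟩,
  mz,
  mz,
  mz,
  ⟨⟨5, 36, 31, -40, 13, 10, 14, 32, -25⟩, (.cons (nat_lit 172394) (nat_lit 325273) (nat_lit 4640100) (nat_lit
 1) (.cons (nat_lit 3322433) (nat_lit 6240097) (nat_lit 3006940) (nat_lit 1) .nil)), (nat_lit 4), (nat_lit 0),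
 (nat_lit 0), (nat_lit 0), (1, 35, 20), [281439, 1669237], 0⟩,
  ⟨⟨-9, 4, -47, -40, 13, 30, -14, -32, -11⟩, (.cons (nat_lit 10938747) (nat_lit 13491190) (nat_lit 15212156)
 (nat_lit 1) (.cons (nat_lit 7649955) (nat_lit 4361358) (nat_lit 2694057) (nat_lit 1) .nil)), (nat_lit 12),
 (nat_lit 0), (nat_lit 0), (nat_lit 0), (37, 2, 5), [4410297, 4468082], 0⟩,
  mz,
  mz,
  ⟨⟨21, 20, 31, -38, 15, 34, 12, 36, -13⟩, (.cons (nat_lit 6793375) (nat_lit 9693197) (nat_lit 3759368)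
 (nat_lit 1) (.cons (nat_lit 6481173) (nat_lit 1493814) (nat_lit 2026942) (nat_lit 1) .nil)), (nat_lit 1),
 (nat_lit 0), (nat_lit 0), (nat_lit 0), (12, 9, 13), [18963777, 7873884], 0⟩,
  ⟨⟨9, 16, -53, -38, -15, 4, -12, 36, -1⟩, (.cons (nat_lit 9795628) (nat_lit 1824705) (nat_lit 18413930)
 (nat_lit 1) (.cons (nat_lit 5405821) (nat_lit 5340974) (nat_lit 2404205) (nat_lit 1) .nil)), (nat_lit 5),
 (nat_lit 0), (nat_lit 0), (nat_lit 0), (1, 34, 13), [8736236, 6965085], 0⟩,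
  mz,
  mz,
  ⟨⟨9, 4, -56, -40, -13, 10, 14, -32, -25⟩, (.cons (nat_lit 17196463) (nat_lit 14811236) (nat_lit 18773345)
 (nat_lit 1) (.cons (nat_lit 4033297) (nat_lit 4991974) (nat_lit 6069886) (nat_lit 1) .nil)), (nat_lit 39),
 (nat_lit 0), (nat_lit 0), (nat_lit 0), (37, 41, 5), [4854518, 4093844], 0⟩,
  ⟨⟨-5, 36, 36, 40, 13, -30, -14, 32, -11⟩, (.cons (nat_lit 16218684) (nat_lit 15575072) (nat_lit 18620551)
 (nat_lit 1) (.cons (nat_lit 3068536) (nat_lit 6977002) (nat_lit 6917125) (nat_lit 1) .nil)), (nat_lit 4),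
 (nat_lit 0), (nat_lit 0), (nat_lit 0), (1, 35, 20), [15302812, 129042], 0⟩,
  mz,
  mz,
  mz,
  ⟨⟨33, -8, -53, -20, 27, -20, 30, 24, -13⟩, (.cons (nat_lit 592893) (nat_lit 3049783) (nat_lit 5995253)
 (nat_lit 1) (.cons (nat_lit 6785054) (nat_lit 4529039) (nat_lit 4790166) (nat_lit 1) .nil)), (nat_lit 36),
 (nat_lit 0), (nat_lit 0), (nat_lit 0), (39, 35, 12), [6137545, 2802126], 0⟩,
  ⟨⟨19, -36, -36, -20, 13, -30, 34, 8, -35⟩, (.cons (nat_lit 6758725) (nat_lit 7431180) (nat_lit 9371416)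
 (nat_lit 1) (.cons (nat_lit 7715148) (nat_lit 2164028) (nat_lit 5909761) (nat_lit 1) .nil)), (nat_lit 18),
 (nat_lit 0), (nat_lit 0), (nat_lit 0), (24, 20, 9), [9598574, 1404660], 0⟩,
  mz,
  ⟨⟨-21, -20, 52, 38, -15, -4, -12, -36, -1⟩, (.cons (nat_lit 7626467) (nat_lit 18075979) (nat_lit 7472996)
 (nat_lit 1) (.cons (nat_lit 1170306) (nat_lit 4666890) (nat_lit 3509897) (nat_lit 1) .nil)), (nat_lit 1),
 (nat_lit 0), (nat_lit 0), (nat_lit 0), (8, 6, 23), [15302812, 955186], 0⟩,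
  ⟨⟨-47, 0, 27, 0, -43, 0, -18, 0, -29⟩, (.cons (nat_lit 10348082) (nat_lit 1120183) (nat_lit 8018905) (nat_lit
 1) (.cons (nat_lit 4115974) (nat_lit 7511071) (nat_lit 4689112) (nat_lit 1) .nil)), (nat_lit 9), (nat_lit 0),
 (nat_lit 0), (nat_lit 0), (34, 0, 24), [8819387, 2068110], 0⟩,
  ⟨⟨-37, 24, 0, -20, -37, 0, 2, 8, -43⟩, (.cons (nat_lit 6333155) (nat_lit 11083023) (nat_lit 12642276)
 (nat_lit 1) (.cons (nat_lit 2192616) (nat_lit 1103659) (nat_lit 5430986) (nat_lit 1) .nil)), (nat_lit 6),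
 (nat_lit 0), (nat_lit 0), (nat_lit 0), (34, 30, 40), [19278924, 1650714], 0⟩,
  ⟨⟨-3, 32, -37, -20, 27, 40, 30, 24, -17⟩, (.cons (nat_lit 12231447) (nat_lit 7551708) (nat_lit 14829139)
 (nat_lit 1) (.cons (nat_lit 2818953) (nat_lit 4211119) (nat_lit 6146081) (nat_lit 1) .nil)), (nat_lit 7),
 (nat_lit 0), (nat_lit 0), (nat_lit 0), (42, 22, 10), [584042, 3683806], 0⟩,
  ⟨⟨-39, 16, -4, 20, 37, -20, -2, -8, -41⟩, (.cons (nat_lit 19487170) (nat_lit 14539485) (nat_lit 9140534)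
 (nat_lit 1) (.cons (nat_lit 7890480) (nat_lit 5101875) (nat_lit 4440244) (nat_lit 1) .nil)), (nat_lit 37),
 (nat_lit 0), (nat_lit 0), (nat_lit 0), (35, 3, 4), [12562084, 7568052], 0⟩,
  ⟨⟨3, -44, -20, -2, 15, -44, 36, -12, -25⟩, (.cons (nat_lit 2806336) (nat_lit 13420405) (nat_lit 2712025)
 (nat_lit 1) (.cons (nat_lit 2312716) (nat_lit 925508) (nat_lit 1370956) (nat_lit 1) .nil)), (nat_lit 33),
 (nat_lit 0), (nat_lit 0), (nat_lit 0), (10, 22, 34), [4175535, 7773258], 0⟩,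
  ⟨⟨-15, -44, 16, 20, -13, -50, -34, -8, -1⟩, (.cons (nat_lit 13959995) (nat_lit 8418993) (nat_lit 8653968)
 (nat_lit 1) (.cons (nat_lit 6966991) (nat_lit 873567) (nat_lit 2414930) (nat_lit 1) .nil)), (nat_lit 25),
 (nat_lit 0), (nat_lit 0), (nat_lit 0), (2, 26, 16), [7656060, 5338533], 0⟩,
  mz,
  mz,
  ⟨⟨33, 32, -28, 2, -15, -46, 36, -12, -11⟩, (.cons (nat_lit 5333997) (nat_lit 4652442) (nat_lit 14780598)
 (nat_lit 1) (.cons (nat_lit 7634193) (nat_lit 1313457) (nat_lit 660670) (nat_lit 1) .nil)), (nat_lit 21),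
 (nat_lit 0), (nat_lit 0), (nat_lit 0), (34, 19, 41), [4136711, 237275], 0⟩]

/-- Moves. -/
noncomputable def t4_4 : List Mv := [
  mz,
  ⟨⟨33, -32, -5, 2, 15, 44, 36, 12, -25⟩, (.cons (nat_lit 7626467) (nat_lit 8963895) (nat_lit 18699775)
 (nat_lit 1) (.cons (nat_lit 2488396) (nat_lit 4816756) (nat_lit 5695079) (nat_lit 1) .nil)), (nat_lit 21),
 (nat_lit 0), (nat_lit 0), (nat_lit 0), (9, 24, 2), [2749735, 7058148], 0⟩,
  mz,
  mz,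
  ⟨⟨15, -44, 1, 20, 13, 30, 34, -8, -35⟩, (.cons (nat_lit 6861102) (nat_lit 17540758) (nat_lit 11359671)
 (nat_lit 1) (.cons (nat_lit 7568759) (nat_lit 1406204) (nat_lit 2108637) (nat_lit 1) .nil)), (nat_lit 17),
 (nat_lit 0), (nat_lit 0), (nat_lit 0), (2, 17, 16), [3531991, 6802785], 0⟩,
  ⟨⟨3, 44, 17, 2, 15, -46, 36, 12, -11⟩, (.cons (nat_lit 9639770) (nat_lit 7616222) (nat_lit 18336328) (nat_lit
 1) (.cons (nat_lit 5382778) (nat_lit 5796968) (nat_lit 2354306) (nat_lit 1) .nil)), (nat_lit 22), (nat_lit 0),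
 (nat_lit 0), (nat_lit 0), (33, 22, 9), [12240014, 6231810], 0⟩,
  ⟨⟨39, 16, -43, 20, -37, 0, 2, -8, -43⟩, (.cons (nat_lit 16054534) (nat_lit 12264954) (nat_lit 821077)
 (nat_lit 1) (.cons (nat_lit 870715) (nat_lit 7099132) (nat_lit 912676) (nat_lit 1) .nil)), (nat_lit 8),
 (nat_lit 0), (nat_lit 0), (nat_lit 0), (35, 40, 4), [911583, 4613122], 0⟩,
  ⟨⟨33, 8, -53, -20, -27, -20, 30, -24, -13⟩, (.cons (nat_lit 381333) (nat_lit 1227761) (nat_lit 5680006)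
 (nat_lit 1) (.cons (nat_lit 2289624) (nat_lit 4595428) (nat_lit 652058) (nat_lit 1) .nil)), (nat_lit 36),
 (nat_lit 0), (nat_lit 0), (nat_lit 0), (32, 21, 33), [1195506, 4670912], 0⟩,
  ⟨⟨37, 24, -37, 20, -37, -20, -2, 8, -41⟩, (.cons (nat_lit 15217434) (nat_lit 19422746) (nat_lit 1809507)
 (nat_lit 1) (.cons (nat_lit 5842308) (nat_lit 3499238) (nat_lit 268200) (nat_lit 1) .nil)), (nat_lit 6),
 (nat_lit 0), (nat_lit 0), (nat_lit 0), (34, 30, 40), [2383746, 7196363], 0⟩,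
  ⟨⟨47, 0, -20, 0, -43, 0, 18, 0, -47⟩, (.cons (nat_lit 19487170) (nat_lit 12239860) (nat_lit 12194306)
 (nat_lit 1) (.cons (nat_lit 7890480) (nat_lit 2483962) (nat_lit 3096503) (nat_lit 1) .nil)), (nat_lit 9),
 (nat_lit 0), (nat_lit 0), (nat_lit 0), (34, 0, 24), [2629558, 5870414], 0⟩,
  ⟨⟨21, -20, 31, 38, 15, -34, 12, -36, -13⟩, (.cons (nat_lit 6744479) (nat_lit 16083729) (nat_lit 9245059)
 (nat_lit 1) (.cons (nat_lit 3471581) (nat_lit 7417436) (nat_lit 7349314) (nat_lit 1) .nil)), (nat_lit 38),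
 (nat_lit 0), (nat_lit 0), (nat_lit 0), (8, 37, 23), [10719320, 6959783], 0⟩,
  mz,
  ⟨⟨-15, 44, 16, 20, 13, -50, -34, 8, -1⟩, (.cons (nat_lit 3918121) (nat_lit 2133536) (nat_lit 5568120)
 (nat_lit 1) (.cons (nat_lit 1931633) (nat_lit 5317514) (nat_lit 7081129) (nat_lit 1) .nil)), (nat_lit 25),
 (nat_lit 0), (nat_lit 0), (nat_lit 0), (28, 20, 9), [17791749, 1583309], 0⟩,
  ⟨⟨33, 8, 20, 20, 27, -40, 30, -24, -17⟩, (.cons (nat_lit 19487170) (nat_lit 8689765) (nat_lit 13750578)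
 (nat_lit 1) (.cons (nat_lit 7890480) (nat_lit 3711483) (nat_lit 5662681) (nat_lit 1) .nil)), (nat_lit 13),
 (nat_lit 0), (nat_lit 0), (nat_lit 0), (4, 35, 31), [14549954, 85340], 0⟩,
  mz,
  mz,
  mz,
  ⟨⟨9, -4, -56, 40, -13, -10, 14, 32, -25⟩, (.cons (nat_lit 13919406) (nat_lit 9225702) (nat_lit 3668255)
 (nat_lit 1) (.cons (nat_lit 6725940) (nat_lit 3154332) (nat_lit 3785664) (nat_lit 1) .nil)), (nat_lit 12),
 (nat_lit 0), (nat_lit 0), (nat_lit 0), (19, 8, 20), [10141264, 3185401], 0⟩,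
  ⟨⟨-5, -36, 36, 40, -13, -30, -14, -32, -11⟩, (.cons (nat_lit 17697242) (nat_lit 8420343) (nat_lit 1789928)
 (nat_lit 1) (.cons (nat_lit 3257098) (nat_lit 6652555) (nat_lit 5321784) (nat_lit 1) .nil)), (nat_lit 4),
 (nat_lit 0), (nat_lit 0), (nat_lit 0), (11, 41, 5), [298027, 6957349], 0⟩,
  mz,
  mz,
  ⟨⟨21, 20, 31, 38, -15, -34, 12, 36, -13⟩, (.cons (nat_lit 1782522) (nat_lit 18540658) (nat_lit 5840325)
 (nat_lit 1) (.cons (nat_lit 2421292) (nat_lit 4470412) (nat_lit 5350321) (nat_lit 1) .nil)), (nat_lit 38),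
 (nat_lit 0), (nat_lit 0), (nat_lit 0), (12, 34, 13), [1483758, 3827424], 0⟩,
  ⟨⟨-21, 20, 52, 38, 15, -4, -12, 36, -1⟩, (.cons (nat_lit 8636741) (nat_lit 9798879) (nat_lit 1920023)
 (nat_lit 1) (.cons (nat_lit 6101482) (nat_lit 2676194) (nat_lit 379635) (nat_lit 1) .nil)), (nat_lit 1),
 (nat_lit 0), (nat_lit 0), (nat_lit 0), (12, 9, 13), [8987559, 101915], 0⟩,
  mz,
  mz,
  ⟨⟨9, 4, -56, 40, 13, -10, 14, -32, -25⟩, (.cons (nat_lit 14098309) (nat_lit 17109058) (nat_lit 10527257)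
 (nat_lit 1) (.cons (nat_lit 1526898) (nat_lit 3457428) (nat_lit 6596838) (nat_lit 1) .nil)), (nat_lit 12),
 (nat_lit 0), (nat_lit 0), (nat_lit 0), (37, 2, 5), [18652867, 3812175], 0⟩,
  ⟨⟨-9, -4, -47, 40, 13, -30, -14, 32, -11⟩, (.cons (nat_lit 14750373) (nat_lit 6892135) (nat_lit 14311003)
 (nat_lit 1) (.cons (nat_lit 1601575) (nat_lit 4307250) (nat_lit 849078) (nat_lit 1) .nil)), (nat_lit 39),
 (nat_lit 0), (nat_lit 0), (nat_lit 0), (19, 35, 20), [4113448, 4915259], 0⟩,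
  mz,
  mz,
  mz,
  ⟨⟨33, -8, -53, -20, 27, -20, 30, 24, -13⟩, (.cons (nat_lit 592893) (nat_lit 3049783) (nat_lit 5995253)
 (nat_lit 1) (.cons (nat_lit 6785054) (nat_lit 4529039) (nat_lit 4790166) (nat_lit 1) .nil)), (nat_lit 36),
 (nat_lit 0), (nat_lit 0), (nat_lit 0), (39, 35, 12), [6137545, 2802126], 0⟩,
  ⟨⟨19, -36, -36, -20, 13, -30, 34, 8, -35⟩, (.cons (nat_lit 6758725) (nat_lit 7431180) (nat_lit 9371416)
 (nat_lit 1) (.cons (nat_lit 7715148) (nat_lit 2164028) (nat_lit 5909761) (nat_lit 1) .nil)), (nat_lit 18),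
 (nat_lit 0), (nat_lit 0), (nat_lit 0), (24, 20, 9), [9598574, 1404660], 0⟩,
  mz,
  ⟨⟨-21, -20, 52, -38, 15, 4, -12, -36, -1⟩, (.cons (nat_lit 3542581) (nat_lit 18297737) (nat_lit 16297066)
 (nat_lit 1) (.cons (nat_lit 1799370) (nat_lit 2027976) (nat_lit 7101158) (nat_lit 1) .nil)), (nat_lit 38),
 (nat_lit 0), (nat_lit 0), (nat_lit 0), (8, 37, 23), [6119095, 5595110], 0⟩,
  ⟨⟨-47, 0, 27, 0, -43, 0, -18, 0, -29⟩, (.cons (nat_lit 10348082) (nat_lit 1120183) (nat_lit 8018905) (nat_lit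
 1) (.cons (nat_lit 4115974) (nat_lit 7511071) (nat_lit 4689112) (nat_lit 1) .nil)), (nat_lit 9), (nat_lit 0),
 (nat_lit 0), (nat_lit 0), (34, 0, 24), [8819387, 2068110], 0⟩,
  ⟨⟨-37, 24, 0, -20, -37, 0, 2, 8, -43⟩, (.cons (nat_lit 6333155) (nat_lit 11083023) (nat_lit 12642276)
 (nat_lit 1) (.cons (nat_lit 2192616) (nat_lit 1103659) (nat_lit 5430986) (nat_lit 1) .nil)), (nat_lit 6),
 (nat_lit 0), (nat_lit 0), (nat_lit 0), (34, 30, 40), [19278924, 1650714], 0⟩,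
  ⟨⟨-3, 32, -37, 20, -27, -40, 30, 24, -17⟩, (.cons (nat_lit 4647921) (nat_lit 12605967) (nat_lit 3493556)
 (nat_lit 1) (.cons (nat_lit 6101033) (nat_lit 1045271) (nat_lit 7838828) (nat_lit 1) .nil)), (nat_lit 30),
 (nat_lit 0), (nat_lit 0), (nat_lit 0), (42, 21, 10), [4764433, 579637], 0⟩,
  ⟨⟨-39, 16, -4, 20, 37, -20, -2, -8, -41⟩, (.cons (nat_lit 19487170) (nat_lit 14539485) (nat_lit 9140534)
 (nat_lit 1) (.cons (nat_lit 7890480) (nat_lit 5101875) (nat_lit 4440244) (nat_lit 1) .nil)), (nat_lit 37),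
 (nat_lit 0), (nat_lit 0), (nat_lit 0), (35, 3, 4), [12562084, 7568052], 0⟩,
  ⟨⟨3, -44, -20, -2, 15, -44, 36, -12, -25⟩, (.cons (nat_lit 2806336) (nat_lit 13420405) (nat_lit 2712025)
 (nat_lit 1) (.cons (nat_lit 2312716) (nat_lit 925508) (nat_lit 1370956) (nat_lit 1) .nil)), (nat_lit 33),
 (nat_lit 0), (nat_lit 0), (nat_lit 0), (10, 22, 34), [4175535, 7773258], 0⟩,
  ⟨⟨-19, 36, -17, -20, 13, 50, -34, -8, -1⟩, (.cons (nat_lit 11191165) (nat_lit 1804736) (nat_lit 1) (nat_lit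
 717816) (.cons (nat_lit 3519778) (nat_lit 1250394) (nat_lit 956952) (nat_lit 1) .nil)), (nat_lit 26), (nat_lit
 0), (nat_lit 0), (nat_lit 0), (14, 17, 16), [4473976, 6496973], 0⟩,
  mz,
  mz,
  ⟨⟨33, 32, -28, 2, -15, -46, 36, -12, -11⟩, (.cons (nat_lit 5333997) (nat_lit 4652442) (nat_lit 14780598)
 (nat_lit 1) (.cons (nat_lit 7634193) (nat_lit 1313457) (nat_lit 660670) (nat_lit 1) .nil)), (nat_lit 21),
 (nat_lit 0), (nat_lit 0), (nat_lit 0), (34, 19, 41), [4136711, 237275], 0⟩]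

/-- All the moves. -/
noncomputable def tabs : List (List (List Mv)) := [[[], t0_1, [], [], t0_4], [[], t1_1, [], [], t1_4], [], [], [[], t4_1, [], [], t4_4]]

/-- Subtrie. -/
noncomputable def T1 : Tr := (.ev (nat_lit 20) (nat_lit 4563402753312) (.nd (nat_lit 33) (.br (nat_lit 31) (.br
 (nat_lit 16) (.br (nat_lit 10) (.br (nat_lit 6) (.br (nat_lit 5) (.ch (nat_lit 4) (.ev (nat_lit 52) (nat_lit
 549762114258) (.ev (nat_lit 160) (nat_lit 379131924480) .dd))) (.ch (nat_lit 5) (.ev (nat_lit 52) (nat_lit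
 379030868496) (.ev (nat_lit 212) (nat_lit 549755813888) (.ev (nat_lit 340) (nat_lit 2097152) (.ev (nat_lit
 436) (nat_lit 2) (.ev (nat_lit 628) (nat_lit 4194304) (.ev (nat_lit 788) (nat_lit 131072) (.ev (nat_lit 944)
 (nat_lit 192) (.nd (nat_lit 1392) (.br (nat_lit 5) (.br (nat_lit 2) (.ch (nat_lit 0) (.ev (nat_lit 1408)
 (nat_lit 270336) (.nd (nat_lit 1616) (.ch (nat_lit 7) (.nd (nat_lit 1633) (.ch (nat_lit 27) (.nd (nat_lit
 1648) (.br (nat_lit 2) (.ch (nat_lit 0) (.ev (nat_lit 1664) (nat_lit 100663296) .dd)) (.ch (nat_lit 2) (.fin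
 (nat_lit 576461302061810230))))))))))) (.ch (nat_lit 2) (.ev (nat_lit 1408) (nat_lit 100671488) (.ev (nat_lit
 1421) (nat_lit 262144) .dd)))) (.br (nat_lit 7) (.ch (nat_lit 5) (.ev (nat_lit 1408) (nat_lit 100663296) (.nd
 (nat_lit 1584) (.br (nat_lit 9) (.ch (nat_lit 3) (.ev (nat_lit 1600) (nat_lit 270336) .dd)) (.ch (nat_lit 9)
 (.fin (nat_lit 576473396693910063))))))) (.ch (nat_lit 7) (.ev (nat_lit 1408) (nat_lit 100933632)
 .dd)))))))))))))) (.br (nat_lit 9) (.ch (nat_lit 6) (.ev (nat_lit 52) (nat_lit 894462726272) (.ev (nat_lit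
 180) (nat_lit 262144) (.ev (nat_lit 276) (nat_lit 4194304) (.ev (nat_lit 852) (nat_lit 8192) (.ev (nat_lit
 916) (nat_lit 2) (.nd (nat_lit 1392) (.br (nat_lit 7) (.br (nat_lit 5) (.ch (nat_lit 1) (.ev (nat_lit 1408)
 (nat_lit 34426847824) .dd)) (.ch (nat_lit 5) (.ev (nat_lit 1408) (nat_lit 34426847760) (.ev (nat_lit 1421)
 (nat_lit 64) .dd)))) (.br (nat_lit 10) (.ch (nat_lit 7) (.ev (nat_lit 1408) (nat_lit 34426847312) (.ev
 (nat_lit 1421) (nat_lit 512) .dd))) (.ch (nat_lit 10) (.ev (nat_lit 1408) (nat_lit 576) (.ev (nat_lit 1424)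
 (nat_lit 34359738384) (.ev (nat_lit 1437) (nat_lit 67108864) .dd))))))))))))) (.ch (nat_lit 9) (.ev (nat_lit
 52) (nat_lit 378060025922) (.ev (nat_lit 148) (nat_lit 16) (.ev (nat_lit 244) (nat_lit 549755813888) (.ev
 (nat_lit 340) (nat_lit 4194304) (.ev (nat_lit 1088) (nat_lit 1073742336) (.ev (nat_lit 1104) (nat_lit 262144)
 (.ev (nat_lit 1117) (nat_lit 128) .dd)))))))))) (.br (nat_lit 12) (.br (nat_lit 11) (.ch (nat_lit 10) (.ev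
 (nat_lit 52) (nat_lit 894500610064) (.ev (nat_lit 84) (nat_lit 34393292800) (.ev (nat_lit 148) (nat_lit 128)
 (.ev (nat_lit 244) (nat_lit 4096) (.nd (nat_lit 1392) (.br (nat_lit 7) (.br (nat_lit 2) (.ch (nat_lit 0) (.ev
 (nat_lit 1408) (nat_lit 131650) .dd)) (.br (nat_lit 5) (.ch (nat_lit 2) (.ev (nat_lit 1408) (nat_lit 131650)
 .dd)) (.ch (nat_lit 5) (.ev (nat_lit 1408) (nat_lit 131586) (.ev (nat_lit 1421) (nat_lit 64) .dd))))) (.br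
 (nat_lit 9) (.ch (nat_lit 7) (.ev (nat_lit 1408) (nat_lit 578) (.ev (nat_lit 1421) (nat_lit 131072) .dd)))
 (.br (nat_lit 10) (.ch (nat_lit 9) (.ev (nat_lit 1408) (nat_lit 131650) .dd)) (.ch (nat_lit 10) (.ev (nat_lit
 1408) (nat_lit 131136) (.fin (nat_lit 576471197667508802))))))))))))) (.ch (nat_lit 11) (.ev (nat_lit 52)
 (nat_lit 310347174480) (.ev (nat_lit 308) (nat_lit 549755813888) (.ev (nat_lit 340) (nat_lit 8192) (.ev
 (nat_lit 512) (nat_lit 68791042178) .dd)))))) (.br (nat_lit 15) (.ch (nat_lit 12) (.ev (nat_lit 52) (nat_lit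
 653915066386) (.ev (nat_lit 564) (nat_lit 8192) (.ev (nat_lit 756) (nat_lit 512) (.ev (nat_lit 852) (nat_lit
 274877906944) (.ev (nat_lit 1184) (nat_lit 262208) (.nd (nat_lit 1392) (.br (nat_lit 5) (.br (nat_lit 1) (.ch
 (nat_lit 0) (.ev (nat_lit 1408) (nat_lit 131200) (.nd (nat_lit 1616) (.ch (nat_lit 7) (.nd (nat_lit 1633) (.ch
 (nat_lit 0) (.nd (nat_lit 1648) (.br (nat_lit 8) (.ch (nat_lit 2) (.fin (nat_lit 576461302061810230))) (.ch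
 (nat_lit 8) (.ev (nat_lit 1664) (nat_lit 100663296) .dd)))))))))) (.ch (nat_lit 1) (.ev (nat_lit 1408)
 (nat_lit 100794496) .dd))) (.br (nat_lit 7) (.ch (nat_lit 5) (.ev (nat_lit 1408) (nat_lit 100794368) (.ev
 (nat_lit 1421) (nat_lit 128) .dd))) (.ch (nat_lit 7) (.ev (nat_lit 1408) (nat_lit 100663296) (.nd (nat_lit
 1584) (.br (nat_lit 5) (.ch (nat_lit 1) (.ev (nat_lit 1600) (nat_lit 131200) .dd)) (.ch (nat_lit 5) (.fin
 (nat_lit 576473396683424348)))))))))))))))) (.ch (nat_lit 15) (.ev (nat_lit 52) (nat_lit 824633733312) (.ev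
 (nat_lit 116) (nat_lit 33816576) (.ev (nat_lit 244) (nat_lit 67108864) (.ev (nat_lit 372) (nat_lit 131072)
 (.ev (nat_lit 404) (nat_lit 1073741824) (.ev (nat_lit 532) (nat_lit 68719476736) (.ev (nat_lit 564) (nat_lit
 4194304) (.ev (nat_lit 820) (nat_lit 16) (.nd (nat_lit 1392) (.br (nat_lit 9) (.br (nat_lit 7) (.ch (nat_lit
 1) (.ev (nat_lit 1408) (nat_lit 34361836034) .dd)) (.ch (nat_lit 7) (.ev (nat_lit 1408) (nat_lit 34361835522)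
 (.ev (nat_lit 1421) (nat_lit 512) .dd)))) (.br (nat_lit 10) (.ch (nat_lit 9) (.ev (nat_lit 1408) (nat_lit
 34359738882) (.ev (nat_lit 1421) (nat_lit 2097152) .dd))) (.ch (nat_lit 10) (.ev (nat_lit 1408) (nat_lit
 2097152) (.ev (nat_lit 1424) (nat_lit 34359738368) (.fin (nat_lit 576471197667508802)))))))))))))))))))) (.br
 (nat_lit 22) (.br (nat_lit 18) (.br (nat_lit 17) (.ch (nat_lit 16) (.ev (nat_lit 52) (nat_lit 2237058) (.ev
 (nat_lit 116) (nat_lit 67108864) (.ev (nat_lit 180) (nat_lit 549755813888) (.ev (nat_lit 212) (nat_lit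
 33554432) (.ev (nat_lit 596) (nat_lit 262160) (.ev (nat_lit 960) (nat_lit 35433480192) (.ev (nat_lit 1312)
 (nat_lit 4096) (.nd (nat_lit 1392) (.br (nat_lit 9) (.ch (nat_lit 1) (.ev (nat_lit 1408) (nat_lit 64) (.ev
 (nat_lit 1476) (nat_lit 4194304) (.fin (nat_lit 576482192765960775))))) (.ch (nat_lit 9) (.ev (nat_lit 1408)
 (nat_lit 343601577984) (.ev (nat_lit 1421) (nat_lit 64) .dd))))))))))))) (.ch (nat_lit 17) (.ev (nat_lit 52)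
 (nat_lit 858993730242) (.ev (nat_lit 276) (nat_lit 1073741824) (.ev (nat_lit 500) (nat_lit 131072) (.ev
 (nat_lit 532) (nat_lit 16) (.ev (nat_lit 1124) (nat_lit 4096) (.ev (nat_lit 1200) (nat_lit 33554432) (.nd
 (nat_lit 1392) (.br (nat_lit 5) (.ch (nat_lit 1) (.ev (nat_lit 1408) (nat_lit 71303168) (.ev (nat_lit 1494)
 (nat_lit 68721573888) .dd))) (.br (nat_lit 9) (.ch (nat_lit 5) (.ev (nat_lit 1408) (nat_lit 68792877056) .dd))
 (.ch (nat_lit 9) (.ev (nat_lit 1408) (nat_lit 68721573888) (.ev (nat_lit 1476) (nat_lit 4194304) (.ev (nat_lit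
 1485) (nat_lit 67108864) .dd))))))))))))))) (.br (nat_lit 21) (.ch (nat_lit 18) (.ev (nat_lit 52) (nat_lit
 35505180866) (.ev (nat_lit 116) (nat_lit 68719476736) (.ev (nat_lit 244) (nat_lit 33554432) (.ev (nat_lit 372)
 (nat_lit 274877906944) (.ev (nat_lit 468) (nat_lit 8192) (.ev (nat_lit 564) (nat_lit 2097152) (.ev (nat_lit
 916) (nat_lit 512) (.nd (nat_lit 1392) (.br (nat_lit 2) (.ch (nat_lit 0) (.ev (nat_lit 1476) (nat_lit 16) (.ev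
 (nat_lit 1485) (nat_lit 549755813888) .dd))) (.br (nat_lit 7) (.ch (nat_lit 2) (.ev (nat_lit 1408) (nat_lit
 549755813888) (.ev (nat_lit 1421) (nat_lit 16) .dd))) (.ch (nat_lit 7) (.ev (nat_lit 1408) (nat_lit
 549755813904) .dd))))))))))))) (.ch (nat_lit 21) (.ev (nat_lit 52) (nat_lit 927746891858) (.ev (nat_lit 84)
 (nat_lit 128) (.ev (nat_lit 576) (nat_lit 1147146752) .dd)))))) (.br (nat_lit 26) (.br (nat_lit 24) (.ch
 (nat_lit 22) (.ev (nat_lit 52) (nat_lit 34366423040) (.ev (nat_lit 64) (nat_lit 894527615698) .dd))) (.ch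
 (nat_lit 24) (.ev (nat_lit 52) (nat_lit 585289961554) (.ev (nat_lit 468) (nat_lit 2097664) (.ev (nat_lit 1072)
 (nat_lit 274877915136) (.nd (nat_lit 1392) (.br (nat_lit 7) (.br (nat_lit 1) (.ch (nat_lit 0) (.ev (nat_lit
 1408) (nat_lit 393344) (.ev (nat_lit 1440) (nat_lit 4194304) (.ev (nat_lit 1453) (nat_lit 68719476736) .dd))))
 (.ch (nat_lit 1) (.ev (nat_lit 1408) (nat_lit 4325504) (.ev (nat_lit 1476) (nat_lit 68719476736) (.ev (nat_lit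
 1485) (nat_lit 262144) .dd))))) (.br (nat_lit 10) (.ch (nat_lit 7) (.ev (nat_lit 1408) (nat_lit 68723933184)
 (.fin (nat_lit 576449207438098980)))) (.ch (nat_lit 10) (.ev (nat_lit 1408) (nat_lit 68723802240) (.ev
 (nat_lit 1421) (nat_lit 262144) .dd))))))))))) (.br (nat_lit 28) (.ch (nat_lit 26) (.ev (nat_lit 52) (nat_lit
 68791054482) (.ev (nat_lit 192) (nat_lit 860102984256) .dd))) (.br (nat_lit 29) (.ch (nat_lit 28) (.ev
 (nat_lit 52) (nat_lit 618546729602) (.ev (nat_lit 308) (nat_lit 16) (.ev (nat_lit 404) (nat_lit 2097152) (.ev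
 (nat_lit 468) (nat_lit 1073741824) (.ev (nat_lit 1172) (nat_lit 262144) (.ev (nat_lit 1344) (nat_lit
 34359738368) (.nd (nat_lit 1392) (.br (nat_lit 9) (.br (nat_lit 2) (.ch (nat_lit 1) (.ev (nat_lit 1408)
 (nat_lit 274911469632) .dd)) (.ch (nat_lit 2) (.ev (nat_lit 1408) (nat_lit 8256) (.ev (nat_lit 1424) (nat_lit
 33554432) (.ev (nat_lit 1437) (nat_lit 274877906944) .dd))))) (.br (nat_lit 10) (.ch (nat_lit 9) (.ev (nat_lit
 1408) (nat_lit 274911461376) (.ev (nat_lit 1424) (nat_lit 8256) .dd))) (.ch (nat_lit 10) (.ev (nat_lit 1408)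
 (nat_lit 33562688) (.ev (nat_lit 1421) (nat_lit 274877906944) .dd))))))))))))) (.ch (nat_lit 29) (.ev (nat_lit
 52) (nat_lit 618578055186) (.ev (nat_lit 500) (nat_lit 512) (.ev (nat_lit 660) (nat_lit 274877906944) (.ev
 (nat_lit 852) (nat_lit 131072) (.ev (nat_lit 1040) (nat_lit 1073741888) (.nd (nat_lit 1392) (.br (nat_lit 5)
 (.br (nat_lit 2) (.ch (nat_lit 1) (.ev (nat_lit 1408) (nat_lit 34360008832) (.ev (nat_lit 1421) (nat_lit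
 4194304) .dd))) (.ch (nat_lit 2) (.ev (nat_lit 1408) (nat_lit 34360008704) (.ev (nat_lit 1476) (nat_lit 128)
 (.ev (nat_lit 1485) (nat_lit 4194304) .dd))))) (.br (nat_lit 7) (.ch (nat_lit 5) (.ev (nat_lit 1408) (nat_lit
 34363932800) (.fin (nat_lit 576473396693910063)))) (.ch (nat_lit 7) (.ev (nat_lit 1408) (nat_lit 4464640) (.ev
 (nat_lit 1440) (nat_lit 34359738368) (.ev (nat_lit 1453) (nat_lit 128) .dd)))))))))))))))))) (.br (nat_lit 42)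
 (.br (nat_lit 38) (.br (nat_lit 36) (.br (nat_lit 33) (.ch (nat_lit 31) (.ev (nat_lit 52) (nat_lit 106954816)
 (.ev (nat_lit 148) (nat_lit 68719476736) (.ev (nat_lit 212) (nat_lit 34359738368) (.ev (nat_lit 276) (nat_lit
 2) (.ev (nat_lit 436) (nat_lit 274877906944) (.ev (nat_lit 500) (nat_lit 8192) (.ev (nat_lit 724) (nat_lit
 512) (.ev (nat_lit 820) (nat_lit 4096) (.ev (nat_lit 1172) (nat_lit 128) (.nd (nat_lit 1392) (.br (nat_lit 9)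
 (.br (nat_lit 1) (.ch (nat_lit 0) (.ev (nat_lit 1456) (nat_lit 549755813888) (.ev (nat_lit 1476) (nat_lit
 1073741840) (.ev (nat_lit 1568) (nat_lit 393216) .dd)))) (.ch (nat_lit 1) (.ev (nat_lit 1408) (nat_lit
 550829948944) .dd))) (.br (nat_lit 10) (.ch (nat_lit 9) (.ev (nat_lit 1408) (nat_lit 550829948944) .dd)) (.ch
 (nat_lit 10) (.ev (nat_lit 1408) (nat_lit 549756207120) (.ev (nat_lit 1421) (nat_lit 1073741824)
 .dd)))))))))))))))) (.ch (nat_lit 33) (.ev (nat_lit 52) (nat_lit 378060275714) (.ev (nat_lit 96) (nat_lit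
 550833763024) .dd)))) (.br (nat_lit 37) (.ch (nat_lit 36) (.ev (nat_lit 52) (nat_lit 103148552912) (.ev
 (nat_lit 84) (nat_lit 262144) (.ev (nat_lit 532) (nat_lit 4096) (.ev (nat_lit 724) (nat_lit 2) (.ev (nat_lit
 884) (nat_lit 549755813888) (.nd (nat_lit 1392) (.br (nat_lit 5) (.br (nat_lit 2) (.ch (nat_lit 0) (.ev
 (nat_lit 1408) (nat_lit 275985211392) (.ev (nat_lit 1421) (nat_lit 4194304) .dd))) (.ch (nat_lit 2) (.ev
 (nat_lit 1408) (nat_lit 275955851264) (.ev (nat_lit 1421) (nat_lit 33554432) .dd)))) (.br (nat_lit 7) (.ch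
 (nat_lit 5) (.ev (nat_lit 1408) (nat_lit 37748736) (.ev (nat_lit 1424) (nat_lit 275951648768) (.ev (nat_lit
 1437) (nat_lit 8192) .dd)))) (.ch (nat_lit 7) (.ev (nat_lit 1408) (nat_lit 275989405696) .dd))))))))))) (.ch
 (nat_lit 37) (.ev (nat_lit 52) (nat_lit 825743389184) (.ev (nat_lit 128) (nat_lit 103150649554) .dd))))) (.br
 (nat_lit 40) (.br (nat_lit 39) (.ch (nat_lit 38) (.ev (nat_lit 52) (nat_lit 105251456) (.ev (nat_lit 180)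
 (nat_lit 4112) (.ev (nat_lit 340) (nat_lit 1073741824) (.ev (nat_lit 404) (nat_lit 2) (.ev (nat_lit 692)
 (nat_lit 2097152) (.ev (nat_lit 928) (nat_lit 549755813952) (.ev (nat_lit 1124) (nat_lit 68719476736) (.nd
 (nat_lit 1392) (.br (nat_lit 5) (.br (nat_lit 1) (.ch (nat_lit 0) (.ev (nat_lit 1408) (nat_lit 34359746560)
 (.ev (nat_lit 1421) (nat_lit 274877906944) .dd))) (.ch (nat_lit 1) (.ev (nat_lit 1408) (nat_lit 309237653504)
 .dd))) (.br (nat_lit 7) (.ch (nat_lit 5) (.ev (nat_lit 1408) (nat_lit 309237645312) (.ev (nat_lit 1421)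
 (nat_lit 8192) .dd))) (.ch (nat_lit 7) (.ev (nat_lit 1408) (nat_lit 274877915136) (.ev (nat_lit 1421) (nat_lit
 34359738368) .dd)))))))))))))) (.ch (nat_lit 39) (.ev (nat_lit 52) (nat_lit 550869545106) (.ev (nat_lit 148)
 (nat_lit 64) (.ev (nat_lit 276) (nat_lit 274877906944) (.ev (nat_lit 660) (nat_lit 512) (.ev (nat_lit 800)
 (nat_lit 103146586112) .dd))))))) (.br (nat_lit 41) (.ch (nat_lit 40) (.ev (nat_lit 52) (nat_lit 35471499856)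
 (.ev (nat_lit 84) (nat_lit 68786585600) (.ev (nat_lit 340) (nat_lit 2) (.ev (nat_lit 660) (nat_lit 131072)
 (.ev (nat_lit 820) (nat_lit 128) (.nd (nat_lit 1392) (.br (nat_lit 5) (.br (nat_lit 2) (.ch (nat_lit 0) (.ev
 (nat_lit 1408) (nat_lit 549757915136) (.ev (nat_lit 1421) (nat_lit 274877906944) .dd))) (.ch (nat_lit 2) (.ev
 (nat_lit 1408) (nat_lit 274877906944) (.ev (nat_lit 1476) (nat_lit 4096) (.fin (nat_lit
 576464600585159233)))))) (.br (nat_lit 9) (.ch (nat_lit 5) (.ev (nat_lit 1408) (nat_lit 824635822080) .dd))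
 (.ch (nat_lit 9) (.ev (nat_lit 1408) (nat_lit 824633720832) (.ev (nat_lit 1476) (nat_lit 2097152) (.ev
 (nat_lit 1485) (nat_lit 4096) .dd))))))))))))) (.ch (nat_lit 41) (.ev (nat_lit 52) (nat_lit 379102171714) (.ev
 (nat_lit 224) (nat_lit 549791867024) .dd)))))) (.br (nat_lit 47) (.br (nat_lit 44) (.br (nat_lit 43) (.ch
 (nat_lit 42) (.ev (nat_lit 52) (nat_lit 860168126672) (.ev (nat_lit 276) (nat_lit 2097664) (.ev (nat_lit 404)
 (nat_lit 8192) (.ev (nat_lit 436) (nat_lit 131072) (.ev (nat_lit 1136) (nat_lit 68719480832) (.ev (nat_lit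
 1152) (nat_lit 4194304) (.ev (nat_lit 1165) (nat_lit 2) .dd)))))))) (.ch (nat_lit 43) (.ev (nat_lit 52)
 (nat_lit 584153432770) (.ev (nat_lit 84) (nat_lit 16) (.ev (nat_lit 148) (nat_lit 67108864) (.ev (nat_lit
 1008) (nat_lit 68719484928) (.ev (nat_lit 1296) (nat_lit 262144) (.nd (nat_lit 1392) (.br (nat_lit 5) (.ch
 (nat_lit 1) (.ev (nat_lit 1408) (nat_lit 1073741824) (.ev (nat_lit 1476) (nat_lit 274877906944) (.fin (nat_lit
 576460202575348280))))) (.ch (nat_lit 5) (.ev (nat_lit 1408) (nat_lit 274880008192) (.ev (nat_lit 1421)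
 (nat_lit 1073741824) .dd)))))))))))) (.br (nat_lit 46) (.ch (nat_lit 44) (.ev (nat_lit 52) (nat_lit
 68788949520) (.ev (nat_lit 84) (nat_lit 549755813888) (.ev (nat_lit 116) (nat_lit 34359738368) (.ev (nat_lit
 180) (nat_lit 64) (.ev (nat_lit 372) (nat_lit 1073741824) (.ev (nat_lit 500) (nat_lit 274877906944) (.ev
 (nat_lit 660) (nat_lit 2) (.ev (nat_lit 788) (nat_lit 4194304) (.ev (nat_lit 1264) (nat_lit 128) (.nd (nat_lit
 1392) (.br (nat_lit 9) (.br (nat_lit 2) (.ch (nat_lit 1) (.ev (nat_lit 1408) (nat_lit 33693696) .dd)) (.ch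
 (nat_lit 2) (.ev (nat_lit 1408) (nat_lit 33693696) .dd))) (.br (nat_lit 10) (.ch (nat_lit 9) (.ev (nat_lit
 1424) (nat_lit 8192) (.fin (nat_lit 576462401572389451)))) (.ch (nat_lit 10) (.ev (nat_lit 1408) (nat_lit
 139264) (.ev (nat_lit 1421) (nat_lit 33554432) .dd)))))))))))))))) (.ch (nat_lit 46) (.ev (nat_lit 52)
 (nat_lit 858998051024) (.ev (nat_lit 288) (nat_lit 69895987714) .dd))))) (.br (nat_lit 49) (.br (nat_lit 48)
 (.ch (nat_lit 47) (.ev (nat_lit 52) (nat_lit 549827387904) (.ev (nat_lit 692) (nat_lit 2) (.ev (nat_lit 884)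
 (nat_lit 16) (.ev (nat_lit 976) (nat_lit 34359738496) (.ev (nat_lit 1328) (nat_lit 68719476736) (.nd (nat_lit
 1392) (.br (nat_lit 9) (.br (nat_lit 2) (.ch (nat_lit 0) (.ev (nat_lit 1408) (nat_lit 274911461440) (.ev
 (nat_lit 1476) (nat_lit 2228224) (.ev (nat_lit 1504) (nat_lit 1073745920) .dd)))) (.ch (nat_lit 2) (.ev
 (nat_lit 1408) (nat_lit 1109528576) (.ev (nat_lit 1424) (nat_lit 64) (.ev (nat_lit 1437) (nat_lit
 274877906944) .dd))))) (.br (nat_lit 10) (.ch (nat_lit 9) (.ev (nat_lit 1408) (nat_lit 275953750016) (.ev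
 (nat_lit 1440) (nat_lit 64) (.fin (nat_lit 576462401572389451))))) (.ch (nat_lit 10) (.ev (nat_lit 1408)
 (nat_lit 1109528640) (.ev (nat_lit 1421) (nat_lit 274877906944) .dd)))))))))))) (.ch (nat_lit 48) (.ev
 (nat_lit 52) (nat_lit 344704680464) (.ev (nat_lit 564) (nat_lit 2) (.ev (nat_lit 916) (nat_lit 8192) (.ev
 (nat_lit 1024) (nat_lit 4160) (.ev (nat_lit 1360) (nat_lit 34359738368) (.nd (nat_lit 1392) (.br (nat_lit 7)
 (.br (nat_lit 2) (.ch (nat_lit 1) (.ev (nat_lit 1408) (nat_lit 549762236544) (.ev (nat_lit 1424) (nat_lit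
 262144) (.ev (nat_lit 1437) (nat_lit 67108864) .dd)))) (.ch (nat_lit 2) (.ev (nat_lit 1408) (nat_lit 71434368)
 (.ev (nat_lit 1440) (nat_lit 262144) (.fin (nat_lit 576464600585159233)))))) (.br (nat_lit 10) (.ch (nat_lit
 7) (.ev (nat_lit 1408) (nat_lit 69468160) (.ev (nat_lit 1476) (nat_lit 549755944960) (.ev (nat_lit 1552)
 (nat_lit 4194432) .dd)))) (.ch (nat_lit 10) (.ev (nat_lit 1408) (nat_lit 549762498688) (.ev (nat_lit 1421)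
 (nat_lit 67108864) .dd))))))))))))) (.br (nat_lit 50) (.ch (nat_lit 49) (.ev (nat_lit 52) (nat_lit
 274983166018) (.ev (nat_lit 180) (nat_lit 128) (.ev (nat_lit 372) (nat_lit 512) (.ev (nat_lit 500) (nat_lit
 1073741824) (.ev (nat_lit 1248) (nat_lit 68719476736) (.nd (nat_lit 1392) (.br (nat_lit 7) (.br (nat_lit 2)
 (.ch (nat_lit 1) (.ev (nat_lit 1408) (nat_lit 34359738368) (.nd (nat_lit 1584) (.br (nat_lit 10) (.ch (nat_lit
 3) (.ev (nat_lit 1600) (nat_lit 549755813904) (.fin (nat_lit 576460202575348280)))) (.ch (nat_lit 10) (.ev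
 (nat_lit 1600) (nat_lit 2101248) (.fin (nat_lit 576465700097835586)))))))) (.br (nat_lit 5) (.ch (nat_lit 2)
 (.ev (nat_lit 1408) (nat_lit 549757915152) (.ev (nat_lit 1421) (nat_lit 34359738368) .dd))) (.ch (nat_lit 5)
 (.ev (nat_lit 1408) (nat_lit 584117653520) .dd)))) (.br (nat_lit 9) (.ch (nat_lit 7) (.ev (nat_lit 1408)
 (nat_lit 584117649424) (.ev (nat_lit 1421) (nat_lit 4096) .dd))) (.br (nat_lit 10) (.ch (nat_lit 9) (.ev
 (nat_lit 1408) (nat_lit 584115556368) (.ev (nat_lit 1421) (nat_lit 2097152) .dd))) (.ch (nat_lit 10) (.ev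
 (nat_lit 1408) (nat_lit 549757915152) (.ev (nat_lit 1421) (nat_lit 34359738368) .dd))))))))))))) (.br (nat_lit
 52) (.ch (nat_lit 50) (.ev (nat_lit 52) (nat_lit 1176896000) (.ev (nat_lit 372) (nat_lit 4194304) (.ev
 (nat_lit 532) (nat_lit 128) (.ev (nat_lit 628) (nat_lit 2) (.ev (nat_lit 692) (nat_lit 8192) (.ev (nat_lit
 820) (nat_lit 64) (.ev (nat_lit 1216) (nat_lit 34359738368) (.nd (nat_lit 1392) (.br (nat_lit 7) (.br (nat_lit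
 1) (.ch (nat_lit 0) (.ev (nat_lit 1408) (nat_lit 893353201680) .dd)) (.br (nat_lit 5) (.ch (nat_lit 1) (.ev
 (nat_lit 1408) (nat_lit 4096) (.nd (nat_lit 1584) (.br (nat_lit 10) (.ch (nat_lit 9) (.ev (nat_lit 1600)
 (nat_lit 549755813904) (.fin (nat_lit 576482192765960775)))) (.ch (nat_lit 10) (.ev (nat_lit 1600) (nat_lit
 343597383680) (.fin (nat_lit 576465700097835586)))))))) (.ch (nat_lit 5) (.ev (nat_lit 1408) (nat_lit
 824633724944) (.ev (nat_lit 1421) (nat_lit 68719476736) .dd))))) (.br (nat_lit 9) (.ch (nat_lit 7) (.ev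
 (nat_lit 1408) (nat_lit 893353197584) (.ev (nat_lit 1421) (nat_lit 4096) .dd))) (.br (nat_lit 10) (.ch
 (nat_lit 9) (.ev (nat_lit 1408) (nat_lit 893353197584) (.ev (nat_lit 1421) (nat_lit 4096) .dd))) (.ch (nat_lit
 10) (.ev (nat_lit 1408) (nat_lit 618475294736) (.ev (nat_lit 1421) (nat_lit 274877906944) .dd)))))))))))))))
 (.ch (nat_lit 52) (.ev (nat_lit 52) (nat_lit 824634126352) (.ev (nat_lit 148) (nat_lit 34359738368) (.ev
 (nat_lit 212) (nat_lit 64) (.ev (nat_lit 244) (nat_lit 68719476736) (.ev (nat_lit 308) (nat_lit 128) (.ev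
 (nat_lit 468) (nat_lit 4194304) (.ev (nat_lit 628) (nat_lit 2097152) (.ev (nat_lit 692) (nat_lit 512) (.ev
 (nat_lit 724) (nat_lit 1073741824) (.ev (nat_lit 864) (nat_lit 67108866) (.ev (nat_lit 877) (nat_lit 33554432)
 .dd))))))))))))))))))))

/-- Subtrie. -/
noncomputable def T4 : Tr := (.ev (nat_lit 20) (nat_lit 4865160254592) (.nd (nat_lit 33) (.br (nat_lit 31) (.br
 (nat_lit 16) (.br (nat_lit 10) (.br (nat_lit 6) (.br (nat_lit 5) (.ch (nat_lit 4) (.ev (nat_lit 52) (nat_lit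
 549760017234) (.ev (nat_lit 116) (nat_lit 68719476736) (.ev (nat_lit 148) (nat_lit 32) (.nd (nat_lit 1392)
 (.br (nat_lit 6) (.br (nat_lit 2) (.ch (nat_lit 0) (.ev (nat_lit 1408) (nat_lit 67108864) (.ev (nat_lit 1421)
 (nat_lit 8589934592) .dd))) (.br (nat_lit 4) (.ch (nat_lit 2) (.ev (nat_lit 1408) (nat_lit 67108864) (.ev
 (nat_lit 1421) (nat_lit 8589934592) .dd))) (.ch (nat_lit 4) (.ev (nat_lit 1408) (nat_lit 8657043456) .dd))))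
 (.br (nat_lit 7) (.ch (nat_lit 6) (.ev (nat_lit 1408) (nat_lit 8657043456) .dd)) (.br (nat_lit 8) (.ch
 (nat_lit 7) (.ev (nat_lit 1408) (nat_lit 8589934592) (.ev (nat_lit 1421) (nat_lit 67108864) .dd))) (.ch
 (nat_lit 8) (.ev (nat_lit 1408) (nat_lit 8657043456) .dd)))))))))) (.ch (nat_lit 5) (.ev (nat_lit 52) (nat_lit
 77309411888) (.ev (nat_lit 148) (nat_lit 4194304) (.ev (nat_lit 244) (nat_lit 2) (.ev (nat_lit 340) (nat_lit
 64) (.ev (nat_lit 404) (nat_lit 67108864) (.ev (nat_lit 436) (nat_lit 256) (.nd (nat_lit 1392) (.br (nat_lit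
 6) (.br (nat_lit 4) (.ch (nat_lit 2) (.ev (nat_lit 1408) (nat_lit 549755813888) (.ev (nat_lit 1421) (nat_lit
 8192) .dd))) (.br (nat_lit 5) (.ch (nat_lit 4) (.ev (nat_lit 1408) (nat_lit 8192) (.ev (nat_lit 1421) (nat_lit
 549755813888) .dd))) (.ch (nat_lit 5) (.ev (nat_lit 1408) (nat_lit 8192) (.ev (nat_lit 1421) (nat_lit
 549755813888) .dd))))) (.br (nat_lit 7) (.ch (nat_lit 6) (.ev (nat_lit 1408) (nat_lit 549755822080) .dd)) (.br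
 (nat_lit 8) (.ch (nat_lit 7) (.ev (nat_lit 1408) (nat_lit 549755822080) .dd)) (.ch (nat_lit 8) (.ev (nat_lit
 1408) (nat_lit 549755822080) .dd)))))))))))))) (.br (nat_lit 9) (.ch (nat_lit 6) (.ev (nat_lit 52) (nat_lit
 627065225216) (.ev (nat_lit 276) (nat_lit 256) (.ev (nat_lit 308) (nat_lit 4194306) (.ev (nat_lit 596)
 (nat_lit 512) (.nd (nat_lit 1392) (.br (nat_lit 5) (.br (nat_lit 2) (.ch (nat_lit 0) (.ev (nat_lit 1408)
 (nat_lit 8304) (.ev (nat_lit 1421) (nat_lit 67108864) .dd))) (.ch (nat_lit 2) (.ev (nat_lit 1408) (nat_lit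
 67117104) (.ev (nat_lit 1421) (nat_lit 64) .dd)))) (.br (nat_lit 7) (.ch (nat_lit 5) (.ev (nat_lit 1408)
 (nat_lit 67108928) (.ev (nat_lit 1424) (nat_lit 8192) (.ev (nat_lit 1440) (nat_lit 48) .dd)))) (.ch (nat_lit
 7) (.ev (nat_lit 1408) (nat_lit 8304) (.ev (nat_lit 1421) (nat_lit 67108864) .dd))))))))))) (.ch (nat_lit 9)
 (.ev (nat_lit 52) (nat_lit 68786594114) (.ev (nat_lit 116) (nat_lit 32) (.ev (nat_lit 640) (nat_lit
 558349943312) .dd)))))) (.br (nat_lit 12) (.br (nat_lit 11) (.ch (nat_lit 10) (.ev (nat_lit 52) (nat_lit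
 627136536592) (.ev (nat_lit 404) (nat_lit 256) (.nd (nat_lit 1392) (.br (nat_lit 4) (.br (nat_lit 2) (.ch
 (nat_lit 0) (.ev (nat_lit 1408) (nat_lit 66) (.ev (nat_lit 1476) (nat_lit 512) (.ev (nat_lit 1485) (nat_lit
 32) .dd)))) (.ch (nat_lit 2) (.ev (nat_lit 1408) (nat_lit 546) (.ev (nat_lit 1421) (nat_lit 64) .dd)))) (.br
 (nat_lit 7) (.ch (nat_lit 4) (.ev (nat_lit 1408) (nat_lit 64) (.ev (nat_lit 1476) (nat_lit 32) (.fin (nat_lit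
 576451406454014526))))) (.ch (nat_lit 7) (.ev (nat_lit 1408) (nat_lit 610) .dd)))))))) (.ch (nat_lit 11) (.ev
 (nat_lit 52) (nat_lit 8589935184) (.ev (nat_lit 276) (nat_lit 549755813888) (.ev (nat_lit 320) (nat_lit
 68790788386) .dd))))) (.br (nat_lit 15) (.ch (nat_lit 12) (.ev (nat_lit 52) (nat_lit 618479484946) (.ev
 (nat_lit 212) (nat_lit 512) (.ev (nat_lit 372) (nat_lit 67108864) (.ev (nat_lit 564) (nat_lit 256) (.nd
 (nat_lit 1392) (.br (nat_lit 5) (.ch (nat_lit 4) (.ev (nat_lit 1408) (nat_lit 8589942784) (.ev (nat_lit 1456)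
 (nat_lit 64) (.ev (nat_lit 1469) (nat_lit 32) .dd)))) (.ch (nat_lit 5) (.ev (nat_lit 1408) (nat_lit 96) (.ev
 (nat_lit 1456) (nat_lit 8192) (.ev (nat_lit 1469) (nat_lit 8589934592) .dd))))))))))) (.ch (nat_lit 15) (.ev
 (nat_lit 52) (nat_lit 558345757024) (.ev (nat_lit 436) (nat_lit 67108864) (.ev (nat_lit 532) (nat_lit 4194304)
 (.nd (nat_lit 1392) (.br (nat_lit 5) (.br (nat_lit 4) (.ch (nat_lit 2) (.ev (nat_lit 1408) (nat_lit
 68719477266) .dd)) (.ch (nat_lit 4) (.ev (nat_lit 1408) (nat_lit 16) (.ev (nat_lit 1424) (nat_lit 68719476736)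
 (.fin (nat_lit 576451406454014526)))))) (.br (nat_lit 7) (.ch (nat_lit 5) (.ev (nat_lit 1408) (nat_lit
 68719477250) (.ev (nat_lit 1421) (nat_lit 16) .dd))) (.ch (nat_lit 7) (.ev (nat_lit 1408) (nat_lit
 68719477264) (.ev (nat_lit 1421) (nat_lit 2) .dd))))))))))))) (.br (nat_lit 22) (.br (nat_lit 18) (.br
 (nat_lit 17) (.ch (nat_lit 16) (.ev (nat_lit 52) (nat_lit 8994) (.ev (nat_lit 308) (nat_lit 68719476736) (.ev
 (nat_lit 416) (nat_lit 558417051728) .dd)))) (.ch (nat_lit 17) (.ev (nat_lit 52) (nat_lit 558345757282) (.ev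
 (nat_lit 756) (nat_lit 67108864) (.ev (nat_lit 1280) (nat_lit 68719476736) (.nd (nat_lit 1392) (.br (nat_lit
 6) (.br (nat_lit 2) (.ch (nat_lit 0) (.ev (nat_lit 1424) (nat_lit 256) (.fin (nat_lit 576464600585159234))))
 (.ch (nat_lit 2) (.ev (nat_lit 1408) (nat_lit 4194576) .dd))) (.br (nat_lit 7) (.ch (nat_lit 6) (.ev (nat_lit
 1408) (nat_lit 4194560) (.ev (nat_lit 1421) (nat_lit 16) .dd))) (.ch (nat_lit 7) (.ev (nat_lit 1408) (nat_lit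
 4194576) .dd)))))))))) (.br (nat_lit 21) (.ch (nat_lit 18) (.ev (nat_lit 52) (nat_lit 71303522) (.ev (nat_lit
 480) (nat_lit 627065233936) .dd))) (.ch (nat_lit 21) (.ev (nat_lit 52) (nat_lit 618475299186) (.ev (nat_lit
 788) (nat_lit 67108864) (.ev (nat_lit 884) (nat_lit 4194304) (.nd (nat_lit 1392) (.br (nat_lit 2) (.ch
 (nat_lit 0) (.ev (nat_lit 1476) (nat_lit 512) (.ev (nat_lit 1485) (nat_lit 8589934592) .dd))) (.br (nat_lit 7)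
 (.ch (nat_lit 2) (.ev (nat_lit 1408) (nat_lit 512) (.ev (nat_lit 1421) (nat_lit 8589934592) .dd))) (.ch
 (nat_lit 7) (.ev (nat_lit 1408) (nat_lit 8589935104) .dd))))))))))) (.br (nat_lit 26) (.br (nat_lit 24) (.ch
 (nat_lit 22) (.ev (nat_lit 52) (nat_lit 8594128896) (.ev (nat_lit 148) (nat_lit 16) (.ev (nat_lit 308)
 (nat_lit 512) (.ev (nat_lit 564) (nat_lit 67108864) (.ev (nat_lit 756) (nat_lit 256) (.ev (nat_lit 1124)
 (nat_lit 68719476736) (.nd (nat_lit 1392) (.br (nat_lit 4) (.br (nat_lit 2) (.ch (nat_lit 0) (.ev (nat_lit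
 1408) (nat_lit 549755822178) .dd)) (.ch (nat_lit 2) (.ev (nat_lit 1456) (nat_lit 64) (.ev (nat_lit 1476)
 (nat_lit 549755822080) (.ev (nat_lit 1520) (nat_lit 34) .dd))))) (.br (nat_lit 6) (.ch (nat_lit 4) (.ev
 (nat_lit 1408) (nat_lit 8290) (.ev (nat_lit 1421) (nat_lit 549755813888) .dd))) (.ch (nat_lit 6) (.ev (nat_lit
 1408) (nat_lit 549755822178) .dd)))))))))))) (.ch (nat_lit 24) (.ev (nat_lit 52) (nat_lit 558412857458) (.ev
 (nat_lit 308) (nat_lit 8192) (.ev (nat_lit 704) (nat_lit 68723671808) .dd))))) (.br (nat_lit 28) (.ch (nat_lit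
 26) (.ev (nat_lit 52) (nat_lit 77380722738) (.ev (nat_lit 736) (nat_lit 549755814720) .dd))) (.br (nat_lit 29)
 (.ch (nat_lit 28) (.ev (nat_lit 52) (nat_lit 618546594562) (.ev (nat_lit 532) (nat_lit 32) (.ev (nat_lit 756)
 (nat_lit 64) (.ev (nat_lit 832) (nat_lit 8589942800) .dd))))) (.ch (nat_lit 29) (.ev (nat_lit 52) (nat_lit
 618542399794) (.ev (nat_lit 84) (nat_lit 8589934592) (.ev (nat_lit 628) (nat_lit 64) (.ev (nat_lit 896)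
 (nat_lit 8704) (.ev (nat_lit 909) (nat_lit 4194304) .dd))))))))))) (.br (nat_lit 42) (.br (nat_lit 38) (.br
 (nat_lit 36) (.br (nat_lit 33) (.ch (nat_lit 31) (.ev (nat_lit 52) (nat_lit 8661238080) (.ev (nat_lit 212)
 (nat_lit 16) (.ev (nat_lit 448) (nat_lit 618475299362) .dd)))) (.ch (nat_lit 33) (.ev (nat_lit 52) (nat_lit
 77376520194) (.ev (nat_lit 116) (nat_lit 512) (.ev (nat_lit 244) (nat_lit 16) (.ev (nat_lit 1056) (nat_lit
 8256) (.ev (nat_lit 1172) (nat_lit 4194304) (.nd (nat_lit 1392) (.br (nat_lit 7) (.br (nat_lit 5) (.ch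
 (nat_lit 4) (.ev (nat_lit 1408) (nat_lit 288) (.ev (nat_lit 1421) (nat_lit 549755813888) .dd))) (.ch (nat_lit
 5) (.ev (nat_lit 1408) (nat_lit 549755813920) (.ev (nat_lit 1421) (nat_lit 256) .dd)))) (.br (nat_lit 8) (.ch
 (nat_lit 7) (.ev (nat_lit 1408) (nat_lit 549755814176) .dd)) (.ch (nat_lit 8) (.ev (nat_lit 1408) (nat_lit
 549755814144) (.ev (nat_lit 1421) (nat_lit 32) .dd))))))))))))) (.br (nat_lit 37) (.ch (nat_lit 36) (.ev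
 (nat_lit 52) (nat_lit 77376520784) (.ev (nat_lit 84) (nat_lit 8192) (.ev (nat_lit 608) (nat_lit 549760008482)
 .dd)))) (.ch (nat_lit 37) (.ev (nat_lit 52) (nat_lit 558345757440) (.ev (nat_lit 212) (nat_lit 68719476736)
 (.ev (nat_lit 500) (nat_lit 67108864) (.ev (nat_lit 724) (nat_lit 64) (.nd (nat_lit 1392) (.br (nat_lit 6)
 (.br (nat_lit 4) (.ch (nat_lit 0) (.ev (nat_lit 1408) (nat_lit 34) (.fin (nat_lit 576464600585159234)))) (.br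
 (nat_lit 5) (.ch (nat_lit 4) (.ev (nat_lit 1408) (nat_lit 4194354) .dd)) (.ch (nat_lit 5) (.ev (nat_lit 1408)
 (nat_lit 4194354) .dd)))) (.br (nat_lit 7) (.ch (nat_lit 6) (.ev (nat_lit 1408) (nat_lit 4194354) .dd)) (.br
 (nat_lit 8) (.ch (nat_lit 7) (.ev (nat_lit 1408) (nat_lit 4194352) (.ev (nat_lit 1421) (nat_lit 2) .dd))) (.ch
 (nat_lit 8) (.ev (nat_lit 1408) (nat_lit 4194322) (.ev (nat_lit 1421) (nat_lit 32) .dd)))))))))))))) (.br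
 (nat_lit 40) (.br (nat_lit 39) (.ch (nat_lit 38) (.ev (nat_lit 52) (nat_lit 71303968) (.ev (nat_lit 436)
 (nat_lit 549755813888) (.ev (nat_lit 596) (nat_lit 68719476736) (.ev (nat_lit 788) (nat_lit 64) (.nd (nat_lit
 1392) (.br (nat_lit 5) (.br (nat_lit 2) (.ch (nat_lit 0) (.ev (nat_lit 1408) (nat_lit 8210) (.ev (nat_lit
 1421) (nat_lit 8589934592) .dd))) (.ch (nat_lit 2) (.ev (nat_lit 1408) (nat_lit 8589934608) (.nd (nat_lit
 1616) (.ch (nat_lit 1) (.nd (nat_lit 1633) (.ch (nat_lit 44) (.nd (nat_lit 1648) (.br (nat_lit 6) (.ch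
 (nat_lit 5) (.fin (nat_lit 576440411324105273))) (.ch (nat_lit 6) (.ev (nat_lit 1664) (nat_lit 8194)
 .dd))))))))))) (.br (nat_lit 7) (.ch (nat_lit 5) (.ev (nat_lit 1408) (nat_lit 8194) (.nd (nat_lit 1616) (.ch
 (nat_lit 4) (.nd (nat_lit 1633) (.ch (nat_lit 46) (.nd (nat_lit 1648) (.br (nat_lit 10) (.ch (nat_lit 9) (.ev
 (nat_lit 1664) (nat_lit 8589934608) .dd)) (.ch (nat_lit 10) (.fin (nat_lit 576462401598603833))))))))))) (.ch
 (nat_lit 7) (.ev (nat_lit 1408) (nat_lit 8589942800) (.ev (nat_lit 1421) (nat_lit 2) .dd))))))))))) (.ch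
 (nat_lit 39) (.ev (nat_lit 52) (nat_lit 549760016434) (.ev (nat_lit 1124) (nat_lit 512) (.ev (nat_lit 1376)
 (nat_lit 8589934592) (.nd (nat_lit 1392) (.br (nat_lit 5) (.br (nat_lit 4) (.ch (nat_lit 2) (.ev (nat_lit
 1408) (nat_lit 68786585920) .dd)) (.ch (nat_lit 4) (.ev (nat_lit 1408) (nat_lit 67109120) (.ev (nat_lit 1424)
 (nat_lit 68719476800) .dd)))) (.br (nat_lit 7) (.ch (nat_lit 5) (.ev (nat_lit 1408) (nat_lit 68719476800) (.ev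
 (nat_lit 1424) (nat_lit 256) (.ev (nat_lit 1437) (nat_lit 67108864) .dd)))) (.ch (nat_lit 7) (.ev (nat_lit
 1408) (nat_lit 68719477056) (.ev (nat_lit 1421) (nat_lit 67108864) .dd))))))))))) (.br (nat_lit 41) (.ch
 (nat_lit 40) (.ev (nat_lit 52) (nat_lit 4203120) (.ev (nat_lit 468) (nat_lit 67108864) (.nd (nat_lit 1392)
 (.br (nat_lit 6) (.br (nat_lit 2) (.ch (nat_lit 0) (.ev (nat_lit 1408) (nat_lit 77309411328) (.ev (nat_lit
 1424) (nat_lit 256) (.ev (nat_lit 1440) (nat_lit 549755813890) .dd)))) (.ch (nat_lit 2) (.ev (nat_lit 1408)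
 (nat_lit 558345748738) (.ev (nat_lit 1421) (nat_lit 68719476736) .dd)))) (.br (nat_lit 8) (.ch (nat_lit 6)
 (.ev (nat_lit 1408) (nat_lit 558345748738) (.ev (nat_lit 1421) (nat_lit 68719476736) .dd))) (.ch (nat_lit 8)
 (.ev (nat_lit 1408) (nat_lit 618475290882) (.ev (nat_lit 1421) (nat_lit 8589934592) .dd))))))))) (.ch (nat_lit
 41) (.ev (nat_lit 52) (nat_lit 68790780482) (.ev (nat_lit 212) (nat_lit 8589934592) (.ev (nat_lit 244)
 (nat_lit 8192) (.ev (nat_lit 768) (nat_lit 549755814192) .dd)))))))) (.br (nat_lit 47) (.br (nat_lit 44) (.br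
 (nat_lit 43) (.ch (nat_lit 42) (.ev (nat_lit 52) (nat_lit 558412857712) (.ev (nat_lit 84) (nat_lit
 68719476736) (.ev (nat_lit 672) (nat_lit 4203010) .dd)))) (.ch (nat_lit 43) (.ev (nat_lit 52) (nat_lit
 549760008770) (.ev (nat_lit 116) (nat_lit 8192) (.ev (nat_lit 1172) (nat_lit 32) (.ev (nat_lit 1232) (nat_lit
 256) (.nd (nat_lit 1392) (.br (nat_lit 5) (.ch (nat_lit 4) (.ev (nat_lit 1408) (nat_lit 68719476752) (.ev
 (nat_lit 1476) (nat_lit 67108864) (.ev (nat_lit 1485) (nat_lit 8589934592) .dd)))) (.br (nat_lit 6) (.ch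
 (nat_lit 5) (.ev (nat_lit 1408) (nat_lit 77376520208) .dd)) (.ch (nat_lit 6) (.ev (nat_lit 1408) (nat_lit
 8657043456) (.ev (nat_lit 1536) (nat_lit 68719476752) .dd)))))))))))) (.br (nat_lit 46) (.ch (nat_lit 44) (.ev
 (nat_lit 52) (nat_lit 77376520976) (.ev (nat_lit 544) (nat_lit 549760016482) .dd))) (.ch (nat_lit 46) (.ev
 (nat_lit 52) (nat_lit 549760008272) (.ev (nat_lit 84) (nat_lit 512) (.ev (nat_lit 212) (nat_lit 2) (.ev
 (nat_lit 596) (nat_lit 32) (.ev (nat_lit 628) (nat_lit 67108864) (.ev (nat_lit 992) (nat_lit 68719484928) (.nd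
 (nat_lit 1392) (.br (nat_lit 6) (.br (nat_lit 2) (.ch (nat_lit 0) (.ev (nat_lit 1408) (nat_lit 8589934848)
 .dd)) (.br (nat_lit 5) (.ch (nat_lit 2) (.ev (nat_lit 1408) (nat_lit 8589934848) .dd)) (.ch (nat_lit 5) (.ev
 (nat_lit 1408) (nat_lit 8589934592) (.ev (nat_lit 1421) (nat_lit 256) .dd))))) (.br (nat_lit 7) (.ch (nat_lit
 6) (.ev (nat_lit 1408) (nat_lit 8589934848) .dd)) (.br (nat_lit 8) (.ch (nat_lit 7) (.ev (nat_lit 1408)
 (nat_lit 8589934848) .dd)) (.ch (nat_lit 8) (.ev (nat_lit 1408) (nat_lit 256) (.ev (nat_lit 1421) (nat_lit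
 8589934592) .dd)))))))))))))))) (.br (nat_lit 49) (.br (nat_lit 48) (.ch (nat_lit 47) (.ev (nat_lit 52)
 (nat_lit 549827126048) (.ev (nat_lit 180) (nat_lit 68719476736) (.ev (nat_lit 404) (nat_lit 64) (.ev (nat_lit
 596) (nat_lit 2) (.nd (nat_lit 1392) (.br (nat_lit 5) (.br (nat_lit 4) (.ch (nat_lit 0) (.ev (nat_lit 1408)
 (nat_lit 8589934608) .dd)) (.ch (nat_lit 4) (.ev (nat_lit 1408) (nat_lit 8589934608) .dd))) (.br (nat_lit 7)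
 (.ch (nat_lit 5) (.fin (nat_lit 576460202522919495))) (.ch (nat_lit 7) (.ev (nat_lit 1408) (nat_lit
 8589934608) .dd)))))))))) (.ch (nat_lit 48) (.ev (nat_lit 52) (nat_lit 68719477552) (.ev (nat_lit 84) (nat_lit
 4194304) (.ev (nat_lit 180) (nat_lit 8589934592) (.ev (nat_lit 340) (nat_lit 549755813888) (.ev (nat_lit 372)
 (nat_lit 64) (.ev (nat_lit 660) (nat_lit 67108864) (.nd (nat_lit 1392) (.br (nat_lit 5) (.br (nat_lit 2) (.ch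
 (nat_lit 0) (.ev (nat_lit 1408) (nat_lit 8194) .dd)) (.ch (nat_lit 2) (.fin (nat_lit 576440411324105273))))
 (.br (nat_lit 6) (.ch (nat_lit 5) (.ev (nat_lit 1408) (nat_lit 8194) .dd)) (.ch (nat_lit 6) (.ev (nat_lit
 1408) (nat_lit 8194) .dd))))))))))))) (.br (nat_lit 50) (.ch (nat_lit 49) (.ev (nat_lit 52) (nat_lit 71311426)
 (.ev (nat_lit 352) (nat_lit 627065226032) .dd))) (.br (nat_lit 52) (.ch (nat_lit 50) (.ev (nat_lit 52)
 (nat_lit 8657044000) (.ev (nat_lit 180) (nat_lit 16) (.ev (nat_lit 384) (nat_lit 618479493442) .dd)))) (.ch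
 (nat_lit 52) (.ev (nat_lit 52) (nat_lit 549755822352) (.ev (nat_lit 256) (nat_lit 77380715106) .dd)))))))))))

/-- The trie. -/
noncomputable def T : Tr := .nd (nat_lit 1000000) (.br (nat_lit 4) (.br (nat_lit 1) (.ch (nat_lit 0) (.ev
 (nat_lit 0) (nat_lit 8796093022207) .dd)) (.ch (nat_lit 1) T1)) (.br (nat_lit 5) (.ch (nat_lit 4) T4) (.br
 (nat_lit 10) (.ch (nat_lit 5) (.ev (nat_lit 0) (nat_lit 8796093022207) .dd)) (.ch (nat_lit 10) (.ev (nat_lit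
 0) (nat_lit 8796093022207) .dd)))))

/-- The possible values. -/
noncomputable def oks : List ℕ := [202, 223, 1365]

/-- The parameters. -/
noncomputable def S : Pr := ⟨fun i l e => lget mz (lget [] (lget [] tabs i) l) e, oks, [(nat_lit 0), (nat_lit
 1), (nat_lit 0), (nat_lit 0), (nat_lit 1), (nat_lit 0)], T, (nat_lit 8796093022207), (nat_lit 3303796230157),
 (nat_lit 43), [(nat_lit 1057), (nat_lit 2287041271849359)], [(nat_lit 19487171), (nat_lit 7890481)]⟩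

/-- Nothing known. -/
noncomputable def cs0 : Cs := (.cons (nat_lit 11) (nat_lit 0) (nat_lit 1) (.cons (nat_lit 53) (nat_lit 0) (nat_lit 1) .nil))

theorem part_1 : part S cs0 (nat_lit 1) = true := by decide +kernel

theorem part_4 : part S cs0 (nat_lit 4) = true := by decide +kernel

/-- Data of a prime. -/
noncomputable def D0 : PD := ⟨(nat_lit 11), (nat_lit 7), (6190614, 3, 3), (12381250, 14211882, 1830652), (13368790, 19487156, 19487136)⟩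

theorem D0_ok : D0.Ok := pdb_sound (s := 1) (C := ⟨⟨9, -6, -17, -1, -14, 8, -4, -1, -1⟩, (9, 10, 7)⟩) (by show Nat.Prime 11; norm_num) (by decide +kernel)

/-- Lines of the first type. -/
noncomputable def Cl0 : List C1 := [⟨⟨-9, 6, -8, 1, 14, 7, 4, 1, -5⟩, (4, 2, 8)⟩,
  ⟨⟨0, 0, 0, 0, 0, 0, 0, 0, 0⟩, (0, 0, 0)⟩,
  ⟨⟨0, 0, 0, 0, 0, 0, 0, 0, 0⟩, (0, 0, 0)⟩,
  ⟨⟨0, 0, 0, 0, 0, 0, 0, 0, 0⟩, (0, 0, 0)⟩,
  ⟨⟨0, 0, 0, 0, 0, 0, 0, 0, 0⟩, (0, 0, 0)⟩,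
  ⟨⟨9, 6, -17, -1, 14, 8, -4, 1, -1⟩, (8, 4, 5)⟩,
  ⟨⟨0, 0, 0, 0, 0, 0, 0, 0, 0⟩, (0, 0, 0)⟩,
  ⟨⟨0, 0, 0, 0, 0, 0, 0, 0, 0⟩, (0, 0, 0)⟩,
  ⟨⟨0, 0, 0, 0, 0, 0, 0, 0, 0⟩, (0, 0, 0)⟩,
  ⟨⟨0, 0, 0, 0, 0, 0, 0, 0, 0⟩, (0, 0, 0)⟩,
  ⟨⟨-9, -6, -8, 1, -14, 7, 4, -1, -5⟩, (7, 9, 3)⟩]

/-- Data of a prime. -/
noncomputable def D1 : PD := ⟨(nat_lit 53), (nat_lit 4), (4766609, 8, 14), (5741397, 394060, 6448212), (2544113, 2380180, 3415374)⟩

theorem D1_ok : D1.Ok := pdb_sound (s := 12) (C := ⟨⟨-13, 2, -76, -47, -58, 31, 18, -15, -13⟩, (40, 6, 18)⟩) (by show Nat.Prime 53; norm_num) (by decide +kernel)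

/-- Lines of the first type. -/
noncomputable def Cl1 : List C1 := [⟨⟨13, -2, -89, -47, -58, 16, 18, -15, -5⟩, (17, 16, 48)⟩,
  ⟨⟨-23, 38, -56, 43, 58, 1, 18, -9, -23⟩, (9, 50, 16)⟩,
  ⟨⟨-23, -38, -56, 43, -58, 1, 18, 9, -23⟩, (18, 47, 32)⟩,
  ⟨⟨-13, -2, -76, -47, 58, 31, 18, 15, -13⟩, (20, 3, 9)⟩,
  ⟨⟨0, 0, 0, 0, 0, 0, 0, 0, 0⟩, (0, 0, 0)⟩,
  ⟨⟨0, 0, 0, 0, 0, 0, 0, 0, 0⟩, (0, 0, 0)⟩,
  ⟨⟨0, 0, 0, 0, 0, 0, 0, 0, 0⟩, (0, 0, 0)⟩,
  ⟨⟨23, -38, -79, -43, -58, 44, -18, 9, -5⟩, (29, 8, 28)⟩,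
  ⟨⟨33, -18, -89, 67, 2, 4, 2, 23, -7⟩, (12, 34, 20)⟩,
  ⟨⟨0, 0, 0, 0, 0, 0, 0, 0, 0⟩, (0, 0, 0)⟩,
  ⟨⟨0, 0, 0, 0, 0, 0, 0, 0, 0⟩, (0, 0, 0)⟩,
  ⟨⟨0, 0, 0, 0, 0, 0, 0, 0, 0⟩, (0, 0, 0)⟩,
  ⟨⟨0, 0, 0, 0, 0, 0, 0, 0, 0⟩, (0, 0, 0)⟩,
  ⟨⟨27, 42, -76, 7, 58, 49, 22, -7, -5⟩, (1, 14, 44)⟩,
  ⟨⟨33, 18, -89, 67, -2, 4, 2, -23, -7⟩, (44, 1, 38)⟩,
  ⟨⟨0, 0, 0, 0, 0, 0, 0, 0, 0⟩, (0, 0, 0)⟩,
  ⟨⟨0, 0, 0, 0, 0, 0, 0, 0, 0⟩, (0, 0, 0)⟩,
  ⟨⟨0, 0, 0, 0, 0, 0, 0, 0, 0⟩, (0, 0, 0)⟩,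
  ⟨⟨0, 0, 0, 0, 0, 0, 0, 0, 0⟩, (0, 0, 0)⟩,
  ⟨⟨57, 42, -56, -37, 62, 41, -10, 1, -19⟩, (20, 27, 3)⟩,
  ⟨⟨13, 2, -89, -47, 58, 16, 18, 15, -5⟩, (50, 19, 4)⟩,
  ⟨⟨0, 0, 0, 0, 0, 0, 0, 0, 0⟩, (0, 0, 0)⟩,
  ⟨⟨0, 0, 0, 0, 0, 0, 0, 0, 0⟩, (0, 0, 0)⟩,
  ⟨⟨57, -42, -56, -37, -62, 41, -10, -1, -19⟩, (16, 11, 13)⟩,
  ⟨⟨0, 0, 0, 0, 0, 0, 0, 0, 0⟩, (0, 0, 0)⟩,
  ⟨⟨7, 58, -56, 27, 42, 49, 22, -7, -17⟩, (20, 9, 25)⟩,
  ⟨⟨0, 0, 0, 0, 0, 0, 0, 0, 0⟩, (0, 0, 0)⟩,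
  ⟨⟨67, -2, -71, 33, 18, 56, -2, 23, -5⟩, (28, 13, 49)⟩,
  ⟨⟨0, 0, 0, 0, 0, 0, 0, 0, 0⟩, (0, 0, 0)⟩,
  ⟨⟨0, 0, 0, 0, 0, 0, 0, 0, 0⟩, (0, 0, 0)⟩,
  ⟨⟨23, 38, -79, -43, 58, 44, -18, -9, -5⟩, (20, 11, 12)⟩,
  ⟨⟨0, 0, 0, 0, 0, 0, 0, 0, 0⟩, (0, 0, 0)⟩,
  ⟨⟨7, -58, -56, 27, -42, 49, 22, 7, -17⟩, (17, 5, 8)⟩,
  ⟨⟨0, 0, 0, 0, 0, 0, 0, 0, 0⟩, (0, 0, 0)⟩,
  ⟨⟨67, 2, -71, 33, -18, 56, -2, -23, -5⟩, (8, 34, 14)⟩,
  ⟨⟨27, -42, -76, 7, -58, 49, 22, 7, -5⟩, (50, 11, 27)⟩,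
  ⟨⟨0, 0, 0, 0, 0, 0, 0, 0, 0⟩, (0, 0, 0)⟩,
  ⟨⟨0, 0, 0, 0, 0, 0, 0, 0, 0⟩, (0, 0, 0)⟩,
  ⟨⟨0, 0, 0, 0, 0, 0, 0, 0, 0⟩, (0, 0, 0)⟩,
  ⟨⟨0, 0, 0, 0, 0, 0, 0, 0, 0⟩, (0, 0, 0)⟩,
  ⟨⟨0, 0, 0, 0, 0, 0, 0, 0, 0⟩, (0, 0, 0)⟩,
  ⟨⟨0, 0, 0, 0, 0, 0, 0, 0, 0⟩, (0, 0, 0)⟩,
  ⟨⟨0, 0, 0, 0, 0, 0, 0, 0, 0⟩, (0, 0, 0)⟩,
  ⟨⟨0, 0, 0, 0, 0, 0, 0, 0, 0⟩, (0, 0, 0)⟩,
  ⟨⟨0, 0, 0, 0, 0, 0, 0, 0, 0⟩, (0, 0, 0)⟩,
  ⟨⟨-37, 62, -4, -57, -42, 1, 10, -1, -29⟩, (22, 21, 27)⟩,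
  ⟨⟨0, 0, 0, 0, 0, 0, 0, 0, 0⟩, (0, 0, 0)⟩,
  ⟨⟨0, 0, 0, 0, 0, 0, 0, 0, 0⟩, (0, 0, 0)⟩,
  ⟨⟨0, 0, 0, 0, 0, 0, 0, 0, 0⟩, (0, 0, 0)⟩,
  ⟨⟨0, 0, 0, 0, 0, 0, 0, 0, 0⟩, (0, 0, 0)⟩,
  ⟨⟨0, 0, 0, 0, 0, 0, 0, 0, 0⟩, (0, 0, 0)⟩,
  ⟨⟨-37, -62, -4, -57, 42, 1, 10, 1, -29⟩, (6, 25, 17)⟩,
  ⟨⟨0, 0, 0, 0, 0, 0, 0, 0, 0⟩, (0, 0, 0)⟩]

/-- Data of a prime. -/
noncomputable def Dm : PD := ⟨(nat_lit 43), (nat_lit 2), (989, 1, 17), (1652, 774, 636), (172, 5, 130)⟩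

theorem Dm_ok : Dm.Ok := pdb_sound (s := 1) (C := ⟨⟨43, -38, -44, 43, 38, 1, 0, 9, -19⟩, (5, 38, 9)⟩) (by show Nat.Prime 43; norm_num) (by decide +kernel)

/-- Lines of the first type. -/
noncomputable def Clm : List C1 := [⟨⟨43, 38, -44, 43, -38, 1, 0, -9, -19⟩, (42, 1, 24)⟩,
  ⟨⟨0, 0, 0, 0, 0, 0, 0, 0, 0⟩, (0, 0, 0)⟩,
  ⟨⟨57, -18, -16, -17, -58, 1, 4, 1, -23⟩, (41, 27, 24)⟩,
  ⟨⟨7, -38, -56, -33, -42, 49, -16, 7, -1⟩, (28, 40, 22)⟩,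
  ⟨⟨0, 0, 0, 0, 0, 0, 0, 0, 0⟩, (0, 0, 0)⟩,
  ⟨⟨0, 0, 0, 0, 0, 0, 0, 0, 0⟩, (0, 0, 0)⟩,
  ⟨⟨0, 0, 0, 0, 0, 0, 0, 0, 0⟩, (0, 0, 0)⟩,
  ⟨⟨0, 0, 0, 0, 0, 0, 0, 0, 0⟩, (0, 0, 0)⟩,
  ⟨⟨0, 0, 0, 0, 0, 0, 0, 0, 0⟩, (0, 0, 0)⟩,
  ⟨⟨0, 0, 0, 0, 0, 0, 0, 0, 0⟩, (0, 0, 0)⟩,
  ⟨⟨0, 0, 0, 0, 0, 0, 0, 0, 0⟩, (0, 0, 0)⟩,
  ⟨⟨27, -18, -71, -53, -22, 4, -4, 17, -7⟩, (6, 36, 23)⟩,
  ⟨⟨0, 0, 0, 0, 0, 0, 0, 0, 0⟩, (0, 0, 0)⟩,
  ⟨⟨0, 0, 0, 0, 0, 0, 0, 0, 0⟩, (0, 0, 0)⟩,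
  ⟨⟨-7, -2, -64, -47, -38, 31, 12, -15, -7⟩, (37, 15, 41)⟩,
  ⟨⟨-7, 2, -64, -47, 38, 31, 12, 15, -7⟩, (3, 14, 1)⟩,
  ⟨⟨-7, 38, -49, 33, 42, 16, 16, -7, -17⟩, (27, 14, 12)⟩,
  ⟨⟨0, 0, 0, 0, 0, 0, 0, 0, 0⟩, (0, 0, 0)⟩,
  ⟨⟨0, 0, 0, 0, 0, 0, 0, 0, 0⟩, (0, 0, 0)⟩,
  ⟨⟨57, 18, -16, -17, 58, 1, 4, -1, -23⟩, (36, 30, 41)⟩,
  ⟨⟨53, 22, -49, 27, -18, 44, 4, -17, -11⟩, (6, 42, 11)⟩,
  ⟨⟨0, 0, 0, 0, 0, 0, 0, 0, 0⟩, (0, 0, 0)⟩,
  ⟨⟨0, 0, 0, 0, 0, 0, 0, 0, 0⟩, (0, 0, 0)⟩,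
  ⟨⟨27, 18, -71, -53, 22, 4, -4, -17, -7⟩, (1, 6, 11)⟩,
  ⟨⟨57, -18, -41, -17, -58, 16, -4, -1, -19⟩, (7, 13, 41)⟩,
  ⟨⟨0, 0, 0, 0, 0, 0, 0, 0, 0⟩, (0, 0, 0)⟩,
  ⟨⟨0, 0, 0, 0, 0, 0, 0, 0, 0⟩, (0, 0, 0)⟩,
  ⟨⟨7, 38, -56, -33, 42, 49, -16, -7, -1⟩, (27, 14, 12)⟩,
  ⟨⟨7, 2, -71, -47, -38, 16, 12, -15, -5⟩, (3, 29, 42)⟩,
  ⟨⟨7, -2, -71, -47, 38, 16, 12, 15, -5⟩, (37, 28, 2)⟩,
  ⟨⟨0, 0, 0, 0, 0, 0, 0, 0, 0⟩, (0, 0, 0)⟩,
  ⟨⟨0, 0, 0, 0, 0, 0, 0, 0, 0⟩, (0, 0, 0)⟩,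
  ⟨⟨53, -22, -49, 27, 18, 44, 4, 17, -11⟩, (36, 37, 23)⟩,
  ⟨⟨0, 0, 0, 0, 0, 0, 0, 0, 0⟩, (0, 0, 0)⟩,
  ⟨⟨0, 0, 0, 0, 0, 0, 0, 0, 0⟩, (0, 0, 0)⟩,
  ⟨⟨0, 0, 0, 0, 0, 0, 0, 0, 0⟩, (0, 0, 0)⟩,
  ⟨⟨0, 0, 0, 0, 0, 0, 0, 0, 0⟩, (0, 0, 0)⟩,
  ⟨⟨0, 0, 0, 0, 0, 0, 0, 0, 0⟩, (0, 0, 0)⟩,
  ⟨⟨0, 0, 0, 0, 0, 0, 0, 0, 0⟩, (0, 0, 0)⟩,
  ⟨⟨0, 0, 0, 0, 0, 0, 0, 0, 0⟩, (0, 0, 0)⟩,
  ⟨⟨-7, -38, -49, 33, -42, 16, 16, 7, -17⟩, (28, 40, 22)⟩,
  ⟨⟨57, 18, -41, -17, 58, 16, -4, 1, -19⟩, (2, 16, 24)⟩,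
  ⟨⟨0, 0, 0, 0, 0, 0, 0, 0, 0⟩, (0, 0, 0)⟩]

/-- Unit moves. -/
noncomputable def U : List Mv := [mz,
  mz,
  ⟨⟨-1, 0, 1, 0, 1, 0, 0, 0, 1⟩, .nil, (nat_lit 10), (nat_lit 5), (nat_lit 1), (nat_lit 1), (0, 0, 0), [], 6⟩,
  ⟨⟨1, 0, 0, 0, -1, 0, 0, 0, 1⟩, .nil, (nat_lit 10), (nat_lit 10), (nat_lit 2), (nat_lit 1), (0, 0, 0), [], 10⟩,
  mz,
  mz,
  ⟨⟨-1, 0, 1, 0, -1, 0, 0, 0, 1⟩, .nil, (nat_lit 0), (nat_lit 6), (nat_lit 1), (nat_lit 0), (0, 0, 0), [], 5⟩,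
  ⟨⟨-1, 0, 1, 0, -1, 0, 0, 0, 1⟩, .nil, (nat_lit 0), (nat_lit 6), (nat_lit 1), (nat_lit 0), (0, 0, 0), [], 5⟩,
  ⟨⟨1, 0, 0, 0, -1, 0, 0, 0, 1⟩, .nil, (nat_lit 10), (nat_lit 10), (nat_lit 2), (nat_lit 1), (0, 0, 0), [], 10⟩,
  ⟨⟨-1, 0, 1, 0, 1, 0, 0, 0, 1⟩, .nil, (nat_lit 10), (nat_lit 5), (nat_lit 1), (nat_lit 1), (0, 0, 0), [], 6⟩,
  mz]

theorem v_ty : tyb Dm S.ty1 Clm = true := by decide +kernel

theorem v_ty0 : tyb D0 (S.tys.getD 0 0) Cl0 = true := by decide +kernel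

theorem v_ty1 : tyb D1 (S.tys.getD 1 0) Cl1 = true := by decide +kernel

theorem v_msc : mscb S D0 [D1] Dm (nat_lit 18) = true := by decide +kernel

theorem v_mv0 : mvsn (nat_lit 284308069008095099) S D0 [D1] Dm (nat_lit 18) 0 D0 = true := by decide +kernel

theorem v_mv1 : mvsn (nat_lit 284308069008095099) S D0 [D1] Dm (nat_lit 18) 1 D1 = true := by decide +kernel

theorem v_mm : mmsn (nat_lit 284308069008095099) S D0 [D1] Dm (nat_lit 18) = true := by decide +kernel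

theorem v_un : unb S D0 (nat_lit 18) U = true := by decide +kernel

theorem v_ok : okb S.oks [(0, 0, 0), (0, 0, 0), (10, 35, 2)] = true := by decide +kernel

theorem v_part : ∀ d < D0.p, (nat_lit 18).testBit d = true → part S (zc (D0 :: [D1])) d = true := by
  intro d hd h
  have h1 : ∀ d < 11, (nat_lit 18).testBit d = true → d = 1 ∨ d = 4 := by decide
  rcases h1 d hd h with rfl | rfl
  · exact part_1
  · exact part_4

theorem main (n : ℕ) (ho : Odd n) (hr : ¬ Rep n) (h0 : Split 11 n) (h1 : Split 53 n) (hm : Split 43 n) :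
    n ∈ EE := by
  refine concln (W := nat_lit 284308069008095099) (S := S) (P0 := D0) (Pl := [D1]) (Pm := Dm) (cn := nat_lit 18) ?_ Dm_ok v_ty ?_ ?_ v_msc ?_ v_mm v_un v_part v_ok
    n ho hr ?_ hm
  · simp only [List.forall_mem_cons]
    exact ⟨D0_ok, D1_ok, fun _ h => absurd h (by simp)⟩
  · exact all2 (φ := fun j P => ∃ L, tyb P (S.tys.getD j 0) L = true) ⟨_, v_ty0⟩ ⟨_, v_ty1⟩
  · exact all2 (φ := fun j P => Nat.ble (S.pks.getD j 0) (Nat.pow P.p P.K) = true) (by decide +kernel) (by decide +kernel)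
  · exact all2 (φ := fun i P => mvsn (nat_lit 284308069008095099) S D0 [D1] Dm (nat_lit 18) i P = true) v_mv0 v_mv1
  · simp only [List.forall_mem_cons]
    exact ⟨h0, h1, fun _ h => absurd h (by simp)⟩

end Pool.Agent.Work.MP_9954fe_nt.P11_53_43

namespace Pool.Agent.Work.MP_9954fe_nt.P13_71_37

/-- Dummy move. -/
noncomputable def mz : Mv := ⟨⟨0, 0, 0, 0, 0, 0, 0, 0, 0⟩, .nil, (nat_lit 0), (nat_lit 0), (nat_lit 0), (nat_lit 0), (0, 0, 0), [], 0⟩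

/-- Moves. -/
noncomputable def t0_2 : List Mv := [
  ⟨⟨-1, -12, 9, 8, 5, 6, 8, -8, -7⟩, (.cons (nat_lit 27488) (nat_lit 24340) (nat_lit 1983) (nat_lit 1) (.cons
 (nat_lit 1710) (nat_lit 1539) (nat_lit 4531) (nat_lit 1) .nil)), (nat_lit 11), (nat_lit 7), (nat_lit 6),
 (nat_lit 1), (8, 1, 1), [27764, 2389], 33⟩,
  ⟨⟨9, 4, -16, -8, -5, -6, 8, -8, -7⟩, (.cons (nat_lit 6463) (nat_lit 15162) (nat_lit 24552) (nat_lit 1) (.cons
 (nat_lit 4785) (nat_lit 1751) (nat_lit 2707) (nat_lit 1) .nil)), (nat_lit 2), (nat_lit 25), (nat_lit 28),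
 (nat_lit 1), (6, 12, 1), [15448, 1585], 9⟩,
  ⟨⟨9, 4, -16, -8, -5, -6, 8, -8, -7⟩, (.cons (nat_lit 6463) (nat_lit 15162) (nat_lit 24552) (nat_lit 1) (.cons
 (nat_lit 4785) (nat_lit 1751) (nat_lit 2707) (nat_lit 1) .nil)), (nat_lit 2), (nat_lit 25), (nat_lit 28),
 (nat_lit 1), (6, 12, 1), [15448, 1585], 9⟩,
  ⟨⟨-1, -12, 9, -8, -5, -6, 8, -8, -7⟩, (.cons (nat_lit 10382) (nat_lit 15713) (nat_lit 19478) (nat_lit 1)
 (.cons (nat_lit 5040) (nat_lit 4002) (nat_lit 2893) (nat_lit 1) .nil)), (nat_lit 36), (nat_lit 10), (nat_lit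
 14), (nat_lit 1), (8, 12, 1), [12244, 2947], 17⟩,
  ⟨⟨-1, -12, 9, 8, 5, 6, 8, -8, -7⟩, (.cons (nat_lit 27488) (nat_lit 24340) (nat_lit 1983) (nat_lit 1) (.cons
 (nat_lit 1710) (nat_lit 1539) (nat_lit 4531) (nat_lit 1) .nil)), (nat_lit 11), (nat_lit 7), (nat_lit 6),
 (nat_lit 1), (8, 1, 1), [27764, 2389], 33⟩,
  ⟨⟨9, 4, -16, 8, 5, 6, 8, -8, -7⟩, (.cons (nat_lit 15688) (nat_lit 12021) (nat_lit 12478) (nat_lit 1) (.cons
 (nat_lit 945) (nat_lit 1332) (nat_lit 3509) (nat_lit 1) .nil)), (nat_lit 23), (nat_lit 36), (nat_lit 11),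
 (nat_lit 1), (6, 1, 1), [20022, 4573], 35⟩,
  ⟨⟨9, 4, -16, 8, 5, 6, 8, -8, -7⟩, (.cons (nat_lit 15688) (nat_lit 12021) (nat_lit 12478) (nat_lit 1) (.cons
 (nat_lit 945) (nat_lit 1332) (nat_lit 3509) (nat_lit 1) .nil)), (nat_lit 23), (nat_lit 36), (nat_lit 11),
 (nat_lit 1), (6, 1, 1), [20022, 4573], 35⟩,
  ⟨⟨-1, -12, 9, -8, -5, -6, 8, -8, -7⟩, (.cons (nat_lit 10382) (nat_lit 15713) (nat_lit 19478) (nat_lit 1)
 (.cons (nat_lit 5040) (nat_lit 4002) (nat_lit 2893) (nat_lit 1) .nil)), (nat_lit 36), (nat_lit 10), (nat_lit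
 14), (nat_lit 1), (8, 12, 1), [12244, 2947], 17⟩,
  ⟨⟨-1, -12, 9, -8, -5, -6, 8, -8, -7⟩, (.cons (nat_lit 10382) (nat_lit 15713) (nat_lit 19478) (nat_lit 1)
 (.cons (nat_lit 5040) (nat_lit 4002) (nat_lit 2893) (nat_lit 1) .nil)), (nat_lit 36), (nat_lit 10), (nat_lit
 14), (nat_lit 1), (8, 12, 1), [12244, 2947], 17⟩,
  ⟨⟨-1, -12, 9, -8, -5, -6, 8, -8, -7⟩, (.cons (nat_lit 10382) (nat_lit 15713) (nat_lit 19478) (nat_lit 1)
 (.cons (nat_lit 5040) (nat_lit 4002) (nat_lit 2893) (nat_lit 1) .nil)), (nat_lit 36), (nat_lit 10), (nat_lit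
 14), (nat_lit 1), (8, 12, 1), [12244, 2947], 17⟩,
  ⟨⟨-1, -12, 9, 8, 5, 6, 8, -8, -7⟩, (.cons (nat_lit 27488) (nat_lit 24340) (nat_lit 1983) (nat_lit 1) (.cons
 (nat_lit 1710) (nat_lit 1539) (nat_lit 4531) (nat_lit 1) .nil)), (nat_lit 11), (nat_lit 7), (nat_lit 6),
 (nat_lit 1), (8, 1, 1), [27764, 2389], 33⟩,
  ⟨⟨-1, -12, 9, -8, -5, -6, 8, -8, -7⟩, (.cons (nat_lit 10382) (nat_lit 15713) (nat_lit 19478) (nat_lit 1)
 (.cons (nat_lit 5040) (nat_lit 4002) (nat_lit 2893) (nat_lit 1) .nil)), (nat_lit 36), (nat_lit 10), (nat_lit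
 14), (nat_lit 1), (8, 12, 1), [12244, 2947], 17⟩,
  ⟨⟨-1, -12, 9, -8, -5, -6, 8, -8, -7⟩, (.cons (nat_lit 10382) (nat_lit 15713) (nat_lit 19478) (nat_lit 1)
 (.cons (nat_lit 5040) (nat_lit 4002) (nat_lit 2893) (nat_lit 1) .nil)), (nat_lit 36), (nat_lit 10), (nat_lit
 14), (nat_lit 1), (8, 12, 1), [12244, 2947], 17⟩]

/-- Moves. -/
noncomputable def t0_4 : List Mv := [
  ⟨⟨5, 12, -9, -12, 5, 6, 0, 0, -13⟩, (.cons (nat_lit 24511) (nat_lit 19879) (nat_lit 23730) (nat_lit 1) (.cons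
 (nat_lit 1989) (nat_lit 2633) (nat_lit 2884) (nat_lit 1) .nil)), (nat_lit 1), (nat_lit 2), (nat_lit 22),
 (nat_lit 1), (12, 5, 0), [19244, 2922], 4⟩,
  ⟨⟨-5, -12, -4, -12, 5, 6, 0, 0, -13⟩, (.cons (nat_lit 16286) (nat_lit 10319) (nat_lit 11215) (nat_lit 1)
 (.cons (nat_lit 5040) (nat_lit 4688) (nat_lit 3914) (nat_lit 1) .nil)), (nat_lit 36), (nat_lit 6), (nat_lit
 8), (nat_lit 1), (1, 5, 0), [17873, 250], 29⟩,
  ⟨⟨-5, -12, -4, -12, 5, 6, 0, 0, -13⟩, (.cons (nat_lit 16286) (nat_lit 10319) (nat_lit 11215) (nat_lit 1)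
 (.cons (nat_lit 5040) (nat_lit 4688) (nat_lit 3914) (nat_lit 1) .nil)), (nat_lit 36), (nat_lit 6), (nat_lit
 8), (nat_lit 1), (1, 5, 0), [17873, 250], 29⟩,
  ⟨⟨-5, -12, -4, 12, -5, -6, 0, 0, -13⟩, (.cons (nat_lit 6982) (nat_lit 14776) (nat_lit 14641) (nat_lit 1)
 (.cons (nat_lit 1918) (nat_lit 1725) (nat_lit 2213) (nat_lit 1) .nil)), (nat_lit 1), (nat_lit 32), (nat_lit
 19), (nat_lit 1), (1, 8, 0), [7420, 3192], 10⟩,
  ⟨⟨5, 12, -9, 12, -5, -6, 0, 0, -13⟩, (.cons (nat_lit 15851) (nat_lit 7526) (nat_lit 3966) (nat_lit 1) (.cons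
 (nat_lit 5040) (nat_lit 1980) (nat_lit 319) (nat_lit 1) .nil)), (nat_lit 36), (nat_lit 23), (nat_lit 6),
 (nat_lit 1), (12, 8, 0), [13980, 716], 6⟩,
  ⟨⟨5, 12, -9, 12, -5, -6, 0, 0, -13⟩, (.cons (nat_lit 15851) (nat_lit 7526) (nat_lit 3966) (nat_lit 1) (.cons
 (nat_lit 5040) (nat_lit 1980) (nat_lit 319) (nat_lit 1) .nil)), (nat_lit 36), (nat_lit 23), (nat_lit 6),
 (nat_lit 1), (12, 8, 0), [13980, 716], 6⟩,
  ⟨⟨5, 12, -9, -12, 5, 6, 0, 0, -13⟩, (.cons (nat_lit 24511) (nat_lit 19879) (nat_lit 23730) (nat_lit 1) (.cons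
 (nat_lit 1989) (nat_lit 2633) (nat_lit 2884) (nat_lit 1) .nil)), (nat_lit 1), (nat_lit 2), (nat_lit 22),
 (nat_lit 1), (12, 5, 0), [19244, 2922], 4⟩,
  ⟨⟨5, 12, -9, 12, -5, -6, 0, 0, -13⟩, (.cons (nat_lit 15851) (nat_lit 7526) (nat_lit 3966) (nat_lit 1) (.cons
 (nat_lit 5040) (nat_lit 1980) (nat_lit 319) (nat_lit 1) .nil)), (nat_lit 36), (nat_lit 23), (nat_lit 6),
 (nat_lit 1), (12, 8, 0), [13980, 716], 6⟩,
  ⟨⟨5, 12, -9, 12, -5, -6, 0, 0, -13⟩, (.cons (nat_lit 15851) (nat_lit 7526) (nat_lit 3966) (nat_lit 1) (.cons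
 (nat_lit 5040) (nat_lit 1980) (nat_lit 319) (nat_lit 1) .nil)), (nat_lit 36), (nat_lit 23), (nat_lit 6),
 (nat_lit 1), (12, 8, 0), [13980, 716], 6⟩,
  ⟨⟨-5, -12, -4, 12, -5, -6, 0, 0, -13⟩, (.cons (nat_lit 6982) (nat_lit 14776) (nat_lit 14641) (nat_lit 1)
 (.cons (nat_lit 1918) (nat_lit 1725) (nat_lit 2213) (nat_lit 1) .nil)), (nat_lit 1), (nat_lit 32), (nat_lit
 19), (nat_lit 1), (1, 8, 0), [7420, 3192], 10⟩,
  ⟨⟨5, 12, -9, 12, -5, -6, 0, 0, -13⟩, (.cons (nat_lit 15851) (nat_lit 7526) (nat_lit 3966) (nat_lit 1) (.cons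
 (nat_lit 5040) (nat_lit 1980) (nat_lit 319) (nat_lit 1) .nil)), (nat_lit 36), (nat_lit 23), (nat_lit 6),
 (nat_lit 1), (12, 8, 0), [13980, 716], 6⟩,
  ⟨⟨5, 12, -9, -12, 5, 6, 0, 0, -13⟩, (.cons (nat_lit 24511) (nat_lit 19879) (nat_lit 23730) (nat_lit 1) (.cons
 (nat_lit 1989) (nat_lit 2633) (nat_lit 2884) (nat_lit 1) .nil)), (nat_lit 1), (nat_lit 2), (nat_lit 22),
 (nat_lit 1), (12, 5, 0), [19244, 2922], 4⟩,
  ⟨⟨5, 12, -9, 12, -5, -6, 0, 0, -13⟩, (.cons (nat_lit 15851) (nat_lit 7526) (nat_lit 3966) (nat_lit 1) (.cons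
 (nat_lit 5040) (nat_lit 1980) (nat_lit 319) (nat_lit 1) .nil)), (nat_lit 36), (nat_lit 23), (nat_lit 6),
 (nat_lit 1), (12, 8, 0), [13980, 716], 6⟩]

/-- Moves. -/
noncomputable def t0_5 : List Mv := [
  ⟨⟨9, 8, -13, 10, -7, 0, 2, -4, -13⟩, (.cons (nat_lit 2371) (nat_lit 15695) (nat_lit 25445) (nat_lit 1) (.cons
 (nat_lit 1049) (nat_lit 590) (nat_lit 1022) (nat_lit 1) .nil)), (nat_lit 29), (nat_lit 19), (nat_lit 13),
 (nat_lit 1), (2, 8, 12), [11559, 3570], 15⟩,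
  ⟨⟨9, 8, -13, -10, 7, 0, 2, -4, -13⟩, (.cons (nat_lit 7607) (nat_lit 26035) (nat_lit 18521) (nat_lit 1) (.cons
 (nat_lit 4735) (nat_lit 1277) (nat_lit 361) (nat_lit 1) .nil)), (nat_lit 7), (nat_lit 13), (nat_lit 30),
 (nat_lit 1), (2, 5, 12), [19826, 3190], 21⟩,
  ⟨⟨9, 8, -13, -10, 7, 0, 2, -4, -13⟩, (.cons (nat_lit 7607) (nat_lit 26035) (nat_lit 18521) (nat_lit 1) (.cons
 (nat_lit 4735) (nat_lit 1277) (nat_lit 361) (nat_lit 1) .nil)), (nat_lit 7), (nat_lit 13), (nat_lit 30),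
 (nat_lit 1), (2, 5, 12), [19826, 3190], 21⟩,
  ⟨⟨9, 8, -13, -10, 7, 0, 2, -4, -13⟩, (.cons (nat_lit 7607) (nat_lit 26035) (nat_lit 18521) (nat_lit 1) (.cons
 (nat_lit 4735) (nat_lit 1277) (nat_lit 361) (nat_lit 1) .nil)), (nat_lit 7), (nat_lit 13), (nat_lit 30),
 (nat_lit 1), (2, 5, 12), [19826, 3190], 21⟩,
  ⟨⟨-7, -12, 0, 10, -7, 0, 2, -4, -13⟩, (.cons (nat_lit 5060) (nat_lit 12177) (nat_lit 4387) (nat_lit 1) (.cons
 (nat_lit 4427) (nat_lit 3779) (nat_lit 1939) (nat_lit 1) .nil)), (nat_lit 31), (nat_lit 22), (nat_lit 29),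
 (nat_lit 1), (10, 8, 12), [6369, 417], 10⟩,
  ⟨⟨9, 8, -13, 10, -7, 0, 2, -4, -13⟩, (.cons (nat_lit 2371) (nat_lit 15695) (nat_lit 25445) (nat_lit 1) (.cons
 (nat_lit 1049) (nat_lit 590) (nat_lit 1022) (nat_lit 1) .nil)), (nat_lit 29), (nat_lit 19), (nat_lit 13),
 (nat_lit 1), (2, 8, 12), [11559, 3570], 15⟩,
  ⟨⟨9, 8, -13, 10, -7, 0, 2, -4, -13⟩, (.cons (nat_lit 2371) (nat_lit 15695) (nat_lit 25445) (nat_lit 1) (.cons
 (nat_lit 1049) (nat_lit 590) (nat_lit 1022) (nat_lit 1) .nil)), (nat_lit 29), (nat_lit 19), (nat_lit 13),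
 (nat_lit 1), (2, 8, 12), [11559, 3570], 15⟩,
  ⟨⟨9, 8, -13, -10, 7, 0, 2, -4, -13⟩, (.cons (nat_lit 7607) (nat_lit 26035) (nat_lit 18521) (nat_lit 1) (.cons
 (nat_lit 4735) (nat_lit 1277) (nat_lit 361) (nat_lit 1) .nil)), (nat_lit 7), (nat_lit 13), (nat_lit 30),
 (nat_lit 1), (2, 5, 12), [19826, 3190], 21⟩,
  ⟨⟨-7, -12, 0, 10, -7, 0, 2, -4, -13⟩, (.cons (nat_lit 5060) (nat_lit 12177) (nat_lit 4387) (nat_lit 1) (.cons
 (nat_lit 4427) (nat_lit 3779) (nat_lit 1939) (nat_lit 1) .nil)), (nat_lit 31), (nat_lit 22), (nat_lit 29),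
 (nat_lit 1), (10, 8, 12), [6369, 417], 10⟩,
  ⟨⟨-7, -12, 0, -10, 7, 0, 2, -4, -13⟩, (.cons (nat_lit 21102) (nat_lit 17047) (nat_lit 4223) (nat_lit 1)
 (.cons (nat_lit 5040) (nat_lit 1458) (nat_lit 535) (nat_lit 1) .nil)), (nat_lit 36), (nat_lit 17), (nat_lit
 21), (nat_lit 1), (10, 5, 12), [5341, 2089], 8⟩,
  ⟨⟨9, 8, -13, -10, 7, 0, 2, -4, -13⟩, (.cons (nat_lit 7607) (nat_lit 26035) (nat_lit 18521) (nat_lit 1) (.cons
 (nat_lit 4735) (nat_lit 1277) (nat_lit 361) (nat_lit 1) .nil)), (nat_lit 7), (nat_lit 13), (nat_lit 30),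
 (nat_lit 1), (2, 5, 12), [19826, 3190], 21⟩,
  ⟨⟨9, 8, -13, -10, 7, 0, 2, -4, -13⟩, (.cons (nat_lit 7607) (nat_lit 26035) (nat_lit 18521) (nat_lit 1) (.cons
 (nat_lit 4735) (nat_lit 1277) (nat_lit 361) (nat_lit 1) .nil)), (nat_lit 7), (nat_lit 13), (nat_lit 30),
 (nat_lit 1), (2, 5, 12), [19826, 3190], 21⟩,
  ⟨⟨9, 8, -13, -10, 7, 0, 2, -4, -13⟩, (.cons (nat_lit 7607) (nat_lit 26035) (nat_lit 18521) (nat_lit 1) (.cons
 (nat_lit 4735) (nat_lit 1277) (nat_lit 361) (nat_lit 1) .nil)), (nat_lit 7), (nat_lit 13), (nat_lit 30),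
 (nat_lit 1), (2, 5, 12), [19826, 3190], 21⟩]

/-- Moves. -/
noncomputable def t1_2 : List Mv := [
  mz,
  ⟨⟨-75, 20, 43, -10, -21, -70, -12, 60, -13⟩, (.cons (nat_lit 26771) (nat_lit 9288) (nat_lit 21292) (nat_lit
 1) (.cons (nat_lit 2183) (nat_lit 3088) (nat_lit 4696) (nat_lit 1) .nil)), (nat_lit 28), (nat_lit 28),
 (nat_lit 25), (nat_lit 1), (51, 21, 11), [20769, 1149], 19⟩,
  mz,
  ⟨⟨65, -24, -72, -4, 55, -48, -10, -40, -49⟩, (.cons (nat_lit 28560) (nat_lit 27504) (nat_lit 18621) (nat_lit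
 1) (.cons (nat_lit 1440) (nat_lit 3833) (nat_lit 2184) (nat_lit 1) .nil)), (nat_lit 36), (nat_lit 34),
 (nat_lit 26), (nat_lit 1), (37, 1, 38), [11053, 1772], 9⟩,
  ⟨⟨27, 68, 16, 64, -15, -62, -6, 48, -43⟩, (.cons (nat_lit 14094) (nat_lit 20575) (nat_lit 28171) (nat_lit 1)
 (.cons (nat_lit 4658) (nat_lit 1186) (nat_lit 3642) (nat_lit 1) .nil)), (nat_lit 5), (nat_lit 30), (nat_lit
 10), (nat_lit 1), (60, 16, 34), [16522, 342], 34⟩,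
  ⟨⟨27, -68, 16, -64, -15, 62, -6, -48, -43⟩, (.cons (nat_lit 265) (nat_lit 4653) (nat_lit 20296) (nat_lit 1)
 (.cons (nat_lit 3952) (nat_lit 3498) (nat_lit 4017) (nat_lit 1) .nil)), (nat_lit 7), (nat_lit 11), (nat_lit
 30), (nat_lit 1), (7, 36, 30), [8849, 1753], 7⟩,
  mz,
  ⟨⟨-9, -56, -55, 56, 25, -68, -38, 16, -35⟩, (.cons (nat_lit 3676) (nat_lit 22302) (nat_lit 23832) (nat_lit 1)
 (.cons (nat_lit 4702) (nat_lit 4382) (nat_lit 3443) (nat_lit 1) .nil)), (nat_lit 2), (nat_lit 12), (nat_lit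
 19), (nat_lit 1), (69, 44, 31), [21815, 4893], 25⟩,
  ⟨⟨3, 40, -76, -64, -25, 12, 26, -32, -67⟩, (.cons (nat_lit 26693) (nat_lit 21452) (nat_lit 1) (nat_lit 5785)
 (.cons (nat_lit 2626) (nat_lit 27) (nat_lit 185) (nat_lit 1) .nil)), (nat_lit 11), (nat_lit 11), (nat_lit 11),
 (nat_lit 1), (14, 9, 3), [28196, 2369], 3⟩,
  mz,
  mz,
  ⟨⟨33, -20, -92, 64, 15, -2, 6, 48, -49⟩, (.cons (nat_lit 28282) (nat_lit 6089) (nat_lit 8732) (nat_lit 1)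
 (.cons (nat_lit 3059) (nat_lit 1467) (nat_lit 959) (nat_lit 1) .nil)), (nat_lit 34), (nat_lit 7), (nat_lit 4),
 (nat_lit 1), (67, 3, 38), [7703, 2396], 18⟩,
  ⟨⟨9, 76, -20, -44, 15, 82, -42, 24, -25⟩, (.cons (nat_lit 21907) (nat_lit 16708) (nat_lit 9654) (nat_lit 1)
 (.cons (nat_lit 381) (nat_lit 2442) (nat_lit 1190) (nat_lit 1) .nil)), (nat_lit 12), (nat_lit 27), (nat_lit
 26), (nat_lit 1), (31, 22, 21), [28316, 1983], 2⟩,
  mz,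
  mz,
  ⟨⟨-9, 76, -11, -44, -15, -38, 42, 24, -67⟩, (.cons (nat_lit 3654) (nat_lit 17497) (nat_lit 16864) (nat_lit 1)
 (.cons (nat_lit 2322) (nat_lit 2751) (nat_lit 2508) (nat_lit 1) .nil)), (nat_lit 9), (nat_lit 31), (nat_lit
 24), (nat_lit 1), (25, 67, 49), [3668, 1098], 15⟩,
  ⟨⟨17, 24, -89, 36, 55, 12, 54, -24, -53⟩, (.cons (nat_lit 4561) (nat_lit 19930) (nat_lit 22806) (nat_lit 1)
 (.cons (nat_lit 3133) (nat_lit 4721) (nat_lit 2760) (nat_lit 1) .nil)), (nat_lit 9), (nat_lit 0), (nat_lit 0),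
 (nat_lit 1), (7, 19, 64), [23624, 4158], 10⟩,
  mz,
  ⟨⟨9, 56, -64, -56, -25, -12, 38, -16, -73⟩, (.cons (nat_lit 19859) (nat_lit 22450) (nat_lit 3500) (nat_lit 1)
 (.cons (nat_lit 3600) (nat_lit 115) (nat_lit 2053) (nat_lit 1) .nil)), (nat_lit 5), (nat_lit 4), (nat_lit 22),
 (nat_lit 1), (56, 46, 55), [22931, 609], 10⟩,
  ⟨⟨39, 40, -80, -44, 55, 32, -22, -8, -55⟩, (.cons (nat_lit 11320) (nat_lit 11484) (nat_lit 28544) (nat_lit 1)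
 (.cons (nat_lit 3096) (nat_lit 1564) (nat_lit 3237) (nat_lit 1) .nil)), (nat_lit 13), (nat_lit 19), (nat_lit
 35), (nat_lit 1), (28, 3, 37), [15446, 3449], 5⟩,
  mz,
  mz,
  ⟨⟨37, 48, -73, 36, -55, -48, 54, 24, -1⟩, (.cons (nat_lit 16959) (nat_lit 27150) (nat_lit 22020) (nat_lit 1)
 (.cons (nat_lit 1931) (nat_lit 544) (nat_lit 1028) (nat_lit 1) .nil)), (nat_lit 8), (nat_lit 25), (nat_lit
 21), (nat_lit 1), (15, 5, 43), [4371, 2791], 3⟩,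
  ⟨⟨39, -40, -80, 44, 55, -32, -22, 8, -55⟩, (.cons (nat_lit 1915) (nat_lit 110) (nat_lit 3994) (nat_lit 1)
 (.cons (nat_lit 2564) (nat_lit 1734) (nat_lit 3102) (nat_lit 1) .nil)), (nat_lit 20), (nat_lit 27), (nat_lit
 3), (nat_lit 1), (1, 43, 14), [11368, 2598], 2⟩,
  ⟨⟨-39, 40, -41, 44, 55, -12, 22, -8, -77⟩, (.cons (nat_lit 18201) (nat_lit 7964) (nat_lit 12447) (nat_lit 1)
 (.cons (nat_lit 2593) (nat_lit 4782) (nat_lit 1471) (nat_lit 1) .nil)), (nat_lit 19), (nat_lit 13), (nat_lit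
 5), (nat_lit 1), (2, 56, 28), [12861, 466], 27⟩,
  mz,
  ⟨⟨51, -4, 40, 10, -69, -20, 60, 12, -49⟩, (.cons (nat_lit 17606) (nat_lit 21374) (nat_lit 26552) (nat_lit 1)
 (.cons (nat_lit 4832) (nat_lit 4434) (nat_lit 3130) (nat_lit 1) .nil)), (nat_lit 17), (nat_lit 10), (nat_lit
 26), (nat_lit 1), (60, 41, 33), [15383, 4285], 26⟩,
  mz,
  mz,
  ⟨⟨-13, -72, 36, 70, -11, -30, -4, -44, -49⟩, (.cons (nat_lit 17886) (nat_lit 21057) (nat_lit 20768) (nat_lit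
 1) (.cons (nat_lit 1837) (nat_lit 1195) (nat_lit 1) (nat_lit 3195) .nil)), (nat_lit 31), (nat_lit 33),
 (nat_lit 27), (nat_lit 1), (29, 35, 69), [2798, 4745], 10⟩,
  mz,
  ⟨⟨-11, 72, -25, 50, -11, -80, -44, 4, -29⟩, (.cons (nat_lit 3789) (nat_lit 20957) (nat_lit 11040) (nat_lit 1)
 (.cons (nat_lit 1101) (nat_lit 3638) (nat_lit 3681) (nat_lit 1) .nil)), (nat_lit 20), (nat_lit 1), (nat_lit
 14), (nat_lit 1), (44, 13, 34), [21923, 3560], 19⟩,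
  mz,
  ⟨⟨-29, -72, 20, -56, 25, 68, -38, -16, -35⟩, (.cons (nat_lit 1644) (nat_lit 1623) (nat_lit 6411) (nat_lit 1)
 (.cons (nat_lit 3447) (nat_lit 1332) (nat_lit 3344) (nat_lit 1) .nil)), (nat_lit 10), (nat_lit 25), (nat_lit
 12), (nat_lit 1), (27, 35, 6), [2543, 442], 19⟩,
  ⟨⟨75, 20, -32, 10, -21, -80, 12, 60, -25⟩, (.cons (nat_lit 24537) (nat_lit 8739) (nat_lit 18324) (nat_lit 1)
 (.cons (nat_lit 3179) (nat_lit 4361) (nat_lit 427) (nat_lit 1) .nil)), (nat_lit 1), (nat_lit 30), (nat_lit 1),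
 (nat_lit 0), (30, 4, 19), [3147, 1161], 16⟩,
  mz,
  ⟨⟨3, -40, -76, -64, 25, 12, 26, 32, -67⟩, (.cons (nat_lit 1025) (nat_lit 21524) (nat_lit 26316) (nat_lit 1)
 (.cons (nat_lit 4667) (nat_lit 156) (nat_lit 1811) (nat_lit 1) .nil)), (nat_lit 26), (nat_lit 16), (nat_lit
 21), (nat_lit 1), (58, 17, 53), [630, 4447], 5⟩,
  mz,
  ⟨⟨17, -24, -89, -36, 55, -12, 54, 24, -53⟩, (.cons (nat_lit 7880) (nat_lit 8451) (nat_lit 19036) (nat_lit 1)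
 (.cons (nat_lit 4185) (nat_lit 5006) (nat_lit 4447) (nat_lit 1) .nil)), (nat_lit 14), (nat_lit 20), (nat_lit
 2), (nat_lit 1), (5, 27, 66), [17941, 3559], 4⟩,
  ⟨⟨-3, 40, -73, -64, 25, 52, -26, -32, -41⟩, (.cons (nat_lit 26875) (nat_lit 14896) (nat_lit 23986) (nat_lit
 1) (.cons (nat_lit 793) (nat_lit 2177) (nat_lit 4708) (nat_lit 1) .nil)), (nat_lit 19), (nat_lit 31), (nat_lit
 9), (nat_lit 1), (12, 43, 33), [16955, 170], 34⟩,
  mz,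
  mz,
  ⟨⟨-65, 24, -7, -4, 55, 52, 10, 40, -59⟩, (.cons (nat_lit 5191) (nat_lit 11551) (nat_lit 14314) (nat_lit 1)
 (.cons (nat_lit 4971) (nat_lit 535) (nat_lit 2015) (nat_lit 1) .nil)), (nat_lit 8), (nat_lit 26), (nat_lit 0),
 (nat_lit 1), (43, 66, 48), [13177, 679], 13⟩,
  ⟨⟨11, -72, -36, -50, 11, -30, 44, -4, -73⟩, (.cons (nat_lit 6347) (nat_lit 25742) (nat_lit 3448) (nat_lit 1)
 (.cons (nat_lit 4386) (nat_lit 3651) (nat_lit 2553) (nat_lit 1) .nil)), (nat_lit 14), (nat_lit 12), (nat_lit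
 14), (nat_lit 1), (69, 22, 63), [16531, 4192], 18⟩,
  ⟨⟨-39, -40, -41, -44, 55, 12, 22, 8, -77⟩, (.cons (nat_lit 25303) (nat_lit 4585) (nat_lit 8252) (nat_lit 1)
 (.cons (nat_lit 2834) (nat_lit 3656) (nat_lit 762) (nat_lit 1) .nil)), (nat_lit 16), (nat_lit 18), (nat_lit
 24), (nat_lit 1), (46, 61, 5), [15766, 4635], 27⟩,
  mz,
  ⟨⟨51, 52, -56, -44, 15, -38, 42, -24, -67⟩, (.cons (nat_lit 24330) (nat_lit 24634) (nat_lit 22913) (nat_lit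
 1) (.cons (nat_lit 41) (nat_lit 2210) (nat_lit 3118) (nat_lit 1) .nil)), (nat_lit 34), (nat_lit 3), (nat_lit
 34), (nat_lit 1), (52, 15, 47), [5350, 4733], 18⟩,
  ⟨⟨9, -16, 80, 10, 69, 10, 60, -12, -11⟩, (.cons (nat_lit 27174) (nat_lit 18715) (nat_lit 28114) (nat_lit 1)
 (.cons (nat_lit 1300) (nat_lit 2298) (nat_lit 2964) (nat_lit 1) .nil)), (nat_lit 17), (nat_lit 1), (nat_lit
 1), (nat_lit 1), (33, 13, 7), [9395, 4622], 11⟩,
  ⟨⟨51, 4, 40, 10, 69, -20, 60, -12, -49⟩, (.cons (nat_lit 28560) (nat_lit 16404) (nat_lit 15588) (nat_lit 1)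
 (.cons (nat_lit 3825) (nat_lit 712) (nat_lit 4282) (nat_lit 1) .nil)), (nat_lit 36), (nat_lit 13), (nat_lit
 27), (nat_lit 1), (13, 29, 32), [9003, 195], 17⟩,
  ⟨⟨29, 72, -9, 56, -25, 12, 38, 16, -73⟩, (.cons (nat_lit 22052) (nat_lit 11807) (nat_lit 13947) (nat_lit 1)
 (.cons (nat_lit 4249) (nat_lit 3528) (nat_lit 688) (nat_lit 1) .nil)), (nat_lit 26), (nat_lit 7), (nat_lit 4),
 (nat_lit 1), (5, 17, 9), [26099, 1706], 6⟩,
  ⟨⟨65, 24, -72, -4, -55, -48, -10, 40, -49⟩, (.cons (nat_lit 20663) (nat_lit 19463) (nat_lit 15689) (nat_lit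
 1) (.cons (nat_lit 533) (nat_lit 4828) (nat_lit 4201) (nat_lit 1) .nil)), (nat_lit 0), (nat_lit 23), (nat_lit
 27), (nat_lit 1), (39, 26, 65), [3089, 3089], 13⟩,
  ⟨⟨-51, 52, -5, 44, 15, -82, -42, -24, -25⟩, (.cons (nat_lit 7550) (nat_lit 5451) (nat_lit 5367) (nat_lit 1)
 (.cons (nat_lit 4322) (nat_lit 2780) (nat_lit 4741) (nat_lit 1) .nil)), (nat_lit 25), (nat_lit 16), (nat_lit
 11), (nat_lit 1), (18, 68, 19), [7531, 1516], 9⟩,
  mz,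
  ⟨⟨13, -72, 23, 70, 11, -40, 4, -44, -53⟩, (.cons (nat_lit 11130) (nat_lit 13981) (nat_lit 1) (nat_lit 25103)
 (.cons (nat_lit 4841) (nat_lit 1750) (nat_lit 2908) (nat_lit 1) .nil)), (nat_lit 20), (nat_lit 7), (nat_lit
 27), (nat_lit 1), (14, 59, 48), [6120, 2831], 11⟩,
  ⟨⟨9, 16, 80, 10, -69, 10, 60, 12, -11⟩, (.cons (nat_lit 28560) (nat_lit 27540) (nat_lit 11345) (nat_lit 1)
 (.cons (nat_lit 54) (nat_lit 3878) (nat_lit 1) (nat_lit 1349) .nil)), (nat_lit 36), (nat_lit 19), (nat_lit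
 34), (nat_lit 1), (58, 25, 8), [24890, 3435], 17⟩,
  ⟨⟨75, -20, -32, -10, -21, 80, 12, -60, -25⟩, (.cons (nat_lit 25218) (nat_lit 25135) (nat_lit 22348) (nat_lit
 1) (.cons (nat_lit 3993) (nat_lit 2116) (nat_lit 1527) (nat_lit 1) .nil)), (nat_lit 0), (nat_lit 7), (nat_lit
 36), (nat_lit 1), (52, 12, 14), [9052, 4142], 16⟩,
  mz,
  ⟨⟨-11, -72, -25, -50, -11, 80, -44, -4, -29⟩, (.cons (nat_lit 26704) (nat_lit 15307) (nat_lit 14512) (nat_lit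
 1) (.cons (nat_lit 264) (nat_lit 1690) (nat_lit 3563) (nat_lit 1) .nil)), (nat_lit 21), (nat_lit 27), (nat_lit
 1), (nat_lit 1), (38, 63, 10), [25582, 2789], 18⟩,
  ⟨⟨-75, -20, 43, -10, 21, -70, -12, -60, -13⟩, (.cons (nat_lit 7009) (nat_lit 16561) (nat_lit 317) (nat_lit 1)
 (.cons (nat_lit 2500) (nat_lit 553) (nat_lit 252) (nat_lit 1) .nil)), (nat_lit 34), (nat_lit 1), (nat_lit 0),
 (nat_lit 1), (2, 5, 6), [23286, 4292], 9⟩,
  mz,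
  mz,
  mz,
  ⟨⟨11, 72, -36, 50, 11, 30, 44, 4, -73⟩, (.cons (nat_lit 1164) (nat_lit 14840) (nat_lit 26090) (nat_lit 1)
 (.cons (nat_lit 4497) (nat_lit 1862) (nat_lit 1092) (nat_lit 1) .nil)), (nat_lit 1), (nat_lit 21), (nat_lit
 11), (nat_lit 1), (4, 44, 16), [6324, 2716], 24⟩,
  mz,
  ⟨⟨9, -28, -85, -70, -11, 30, -4, 44, -49⟩, (.cons (nat_lit 21886) (nat_lit 11528) (nat_lit 17249) (nat_lit 1)
 (.cons (nat_lit 4104) (nat_lit 2394) (nat_lit 3977) (nat_lit 1) .nil)), (nat_lit 30), (nat_lit 4), (nat_lit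
 7), (nat_lit 1), (14, 41, 49), [14254, 574], 31⟩,
  ⟨⟨75, -16, -52, 4, 55, -52, 10, -40, -59⟩, (.cons (nat_lit 28560) (nat_lit 27627) (nat_lit 191) (nat_lit 1)
 (.cons (nat_lit 321) (nat_lit 2803) (nat_lit 1402) (nat_lit 1) .nil)), (nat_lit 36), (nat_lit 34), (nat_lit
 15), (nat_lit 1), (51, 51, 21), [15181, 2546], 21⟩,
  mz,
  ⟨⟨-27, -68, 43, 64, -15, -2, 6, -48, -49⟩, (.cons (nat_lit 20346) (nat_lit 18903) (nat_lit 16910) (nat_lit 1)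
 (.cons (nat_lit 4695) (nat_lit 3393) (nat_lit 4644) (nat_lit 1) .nil)), (nat_lit 33), (nat_lit 13), (nat_lit
 22), (nat_lit 1), (60, 55, 34), [1055, 4313], 18⟩,
  ⟨⟨13, 72, 23, -70, 11, 40, 4, 44, -53⟩, (.cons (nat_lit 9150) (nat_lit 7679) (nat_lit 3086) (nat_lit 1)
 (.cons (nat_lit 137) (nat_lit 1283) (nat_lit 2738) (nat_lit 1) .nil)), (nat_lit 34), (nat_lit 8), (nat_lit
 10), (nat_lit 1), (20, 7, 28), [22278, 4181], 10⟩,
  ⟨⟨-23, 72, 32, 64, 25, -52, -26, 32, -41⟩, (.cons (nat_lit 1185) (nat_lit 17988) (nat_lit 27006) (nat_lit 1)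
 (.cons (nat_lit 4155) (nat_lit 2570) (nat_lit 4905) (nat_lit 1) .nil)), (nat_lit 17), (nat_lit 26), (nat_lit
 2), (nat_lit 1), (27, 36, 12), [3018, 805], 31⟩,
  ⟨⟨17, 24, 72, -36, -55, 48, 54, -24, -1⟩, (.cons (nat_lit 1355) (nat_lit 13310) (nat_lit 24479) (nat_lit 1)
 (.cons (nat_lit 844) (nat_lit 216) (nat_lit 2930) (nat_lit 1) .nil)), (nat_lit 4), (nat_lit 34), (nat_lit 16),
 (nat_lit 1), (30, 20, 41), [6999, 3130], 29⟩]

/-- Moves. -/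
noncomputable def t1_4 : List Mv := [
  mz,
  ⟨⟨63, 40, -56, 10, 21, 70, -12, 60, -13⟩, (.cons (nat_lit 28560) (nat_lit 28243) (nat_lit 6310) (nat_lit 1)
 (.cons (nat_lit 4580) (nat_lit 4789) (nat_lit 4651) (nat_lit 1) .nil)), (nat_lit 36), (nat_lit 34), (nat_lit
 1), (nat_lit 1), (31, 50, 11), [23720, 2962], 6⟩,
  mz,
  ⟨⟨65, -24, -72, 4, -55, 48, -10, -40, -49⟩, (.cons (nat_lit 6238) (nat_lit 2617) (nat_lit 10565) (nat_lit 1)
 (.cons (nat_lit 3683) (nat_lit 732) (nat_lit 1532) (nat_lit 1) .nil)), (nat_lit 26), (nat_lit 31), (nat_lit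
 1), (nat_lit 0), (37, 70, 38), [18180, 1361], 19⟩,
  ⟨⟨27, 68, 16, 64, -15, -62, -6, 48, -43⟩, (.cons (nat_lit 14094) (nat_lit 20575) (nat_lit 28171) (nat_lit 1)
 (.cons (nat_lit 4658) (nat_lit 1186) (nat_lit 3642) (nat_lit 1) .nil)), (nat_lit 5), (nat_lit 30), (nat_lit
 10), (nat_lit 1), (60, 16, 34), [16522, 342], 34⟩,
  ⟨⟨27, -68, 16, 64, 15, -62, -6, -48, -43⟩, (.cons (nat_lit 4084) (nat_lit 15147) (nat_lit 17705) (nat_lit 1)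
 (.cons (nat_lit 3930) (nat_lit 94) (nat_lit 1419) (nat_lit 1) .nil)), (nat_lit 12), (nat_lit 1), (nat_lit 36),
 (nat_lit 1), (7, 35, 30), [17227, 3431], 2⟩,
  mz,
  ⟨⟨-29, 72, 20, 56, 25, -68, -38, 16, -35⟩, (.cons (nat_lit 5059) (nat_lit 13986) (nat_lit 27817) (nat_lit 1)
 (.cons (nat_lit 4898) (nat_lit 188) (nat_lit 3186) (nat_lit 1) .nil)), (nat_lit 17), (nat_lit 20), (nat_lit
 10), (nat_lit 1), (33, 44, 31), [25534, 768], 31⟩,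
  ⟨⟨23, -72, 9, 64, 25, -12, 26, -32, -67⟩, (.cons (nat_lit 3011) (nat_lit 17966) (nat_lit 16616) (nat_lit 1)
 (.cons (nat_lit 3301) (nat_lit 620) (nat_lit 2506) (nat_lit 1) .nil)), (nat_lit 27), (nat_lit 26), (nat_lit
 1), (nat_lit 1), (60, 62, 3), [5022, 2832], 3⟩,
  mz,
  mz,
  ⟨⟨33, -20, -92, 64, 15, -2, 6, 48, -49⟩, (.cons (nat_lit 28282) (nat_lit 6089) (nat_lit 8732) (nat_lit 1)
 (.cons (nat_lit 3059) (nat_lit 1467) (nat_lit 959) (nat_lit 1) .nil)), (nat_lit 34), (nat_lit 7), (nat_lit 4),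
 (nat_lit 1), (67, 3, 38), [7703, 2396], 18⟩,
  ⟨⟨9, 76, -20, 44, -15, -82, -42, 24, -25⟩, (.cons (nat_lit 7646) (nat_lit 7176) (nat_lit 23813) (nat_lit 1)
 (.cons (nat_lit 2203) (nat_lit 4103) (nat_lit 2733) (nat_lit 1) .nil)), (nat_lit 5), (nat_lit 26), (nat_lit
 3), (nat_lit 1), (31, 49, 21), [27637, 4929], 34⟩,
  mz,
  mz,
  ⟨⟨51, -52, -56, -44, -15, -38, 42, 24, -67⟩, (.cons (nat_lit 970) (nat_lit 27789) (nat_lit 19970) (nat_lit 1)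
 (.cons (nat_lit 2153) (nat_lit 1733) (nat_lit 1524) (nat_lit 1) .nil)), (nat_lit 16), (nat_lit 9), (nat_lit
 1), (nat_lit 1), (24, 67, 49), [7063, 2545], 16⟩,
  ⟨⟨37, -48, 36, -36, -55, -12, 54, -24, -53⟩, (.cons (nat_lit 28560) (nat_lit 887) (nat_lit 28065) (nat_lit 1)
 (.cons (nat_lit 848) (nat_lit 3440) (nat_lit 2893) (nat_lit 1) .nil)), (nat_lit 0), (nat_lit 3), (nat_lit 1),
 (nat_lit 0), (57, 52, 64), [19348, 4903], 9⟩,
  mz,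
  ⟨⟨9, 56, -64, -56, -25, -12, 38, -16, -73⟩, (.cons (nat_lit 19859) (nat_lit 22450) (nat_lit 3500) (nat_lit 1)
 (.cons (nat_lit 3600) (nat_lit 115) (nat_lit 2053) (nat_lit 1) .nil)), (nat_lit 5), (nat_lit 4), (nat_lit 22),
 (nat_lit 1), (56, 46, 55), [22931, 609], 10⟩,
  ⟨⟨-61, -48, 25, -44, 55, 32, -22, -8, -55⟩, (.cons (nat_lit 27360) (nat_lit 22873) (nat_lit 28546) (nat_lit
 1) (.cons (nat_lit 885) (nat_lit 3698) (nat_lit 1119) (nat_lit 1) .nil)), (nat_lit 7), (nat_lit 22), (nat_lit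
 17), (nat_lit 1), (9, 3, 37), [26185, 1484], 28⟩,
  mz,
  mz,
  ⟨⟨17, -24, 72, 36, -55, -48, 54, 24, -1⟩, (.cons (nat_lit 6197) (nat_lit 2098) (nat_lit 19669) (nat_lit 1)
 (.cons (nat_lit 808) (nat_lit 4357) (nat_lit 825) (nat_lit 1) .nil)), (nat_lit 28), (nat_lit 10), (nat_lit
 33), (nat_lit 1), (28, 5, 43), [1172, 516], 18⟩,
  ⟨⟨-61, 48, 25, 44, 55, -32, -22, 8, -55⟩, (.cons (nat_lit 26248) (nat_lit 27448) (nat_lit 423) (nat_lit 1)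
 (.cons (nat_lit 3039) (nat_lit 4132) (nat_lit 952) (nat_lit 1) .nil)), (nat_lit 2), (nat_lit 11), (nat_lit
 27), (nat_lit 1), (13, 43, 14), [17502, 1355], 34⟩,
  ⟨⟨-39, 40, -41, 44, 55, -12, 22, -8, -77⟩, (.cons (nat_lit 18201) (nat_lit 7964) (nat_lit 12447) (nat_lit 1)
 (.cons (nat_lit 2593) (nat_lit 4782) (nat_lit 1471) (nat_lit 1) .nil)), (nat_lit 19), (nat_lit 13), (nat_lit
 5), (nat_lit 1), (2, 56, 28), [12861, 466], 27⟩,
  mz,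
  ⟨⟨9, 16, -89, -10, 69, 20, 60, 12, -49⟩, (.cons (nat_lit 5755) (nat_lit 19612) (nat_lit 17357) (nat_lit 1)
 (.cons (nat_lit 2837) (nat_lit 4579) (nat_lit 1500) (nat_lit 1) .nil)), (nat_lit 11), (nat_lit 36), (nat_lit
 35), (nat_lit 1), (44, 30, 33), [23124, 179], 10⟩,
  mz,
  mz,
  ⟨⟨-13, -72, 36, 70, -11, -30, -4, -44, -49⟩, (.cons (nat_lit 17886) (nat_lit 21057) (nat_lit 20768) (nat_lit
 1) (.cons (nat_lit 1837) (nat_lit 1195) (nat_lit 1) (nat_lit 3195) .nil)), (nat_lit 31), (nat_lit 33),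
 (nat_lit 27), (nat_lit 1), (29, 35, 69), [2798, 4745], 10⟩,
  mz,
  ⟨⟨-11, 72, -25, 50, -11, -80, -44, 4, -29⟩, (.cons (nat_lit 3789) (nat_lit 20957) (nat_lit 11040) (nat_lit 1)
 (.cons (nat_lit 1101) (nat_lit 3638) (nat_lit 3681) (nat_lit 1) .nil)), (nat_lit 20), (nat_lit 1), (nat_lit
 14), (nat_lit 1), (44, 13, 34), [21923, 3560], 19⟩,
  mz,
  ⟨⟨-29, -72, 20, 56, -25, -68, -38, -16, -35⟩, (.cons (nat_lit 7657) (nat_lit 16035) (nat_lit 2798) (nat_lit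
 1) (.cons (nat_lit 1527) (nat_lit 1751) (nat_lit 4229) (nat_lit 1) .nil)), (nat_lit 27), (nat_lit 36),
 (nat_lit 36), (nat_lit 1), (27, 36, 6), [14590, 3264], 4⟩,
  ⟨⟨75, 20, -32, -10, 21, 80, 12, 60, -25⟩, (.cons (nat_lit 28560) (nat_lit 17979) (nat_lit 9821) (nat_lit 1)
 (.cons (nat_lit 4579) (nat_lit 1145) (nat_lit 2509) (nat_lit 1) .nil)), (nat_lit 36), (nat_lit 34), (nat_lit
 10), (nat_lit 1), (30, 67, 19), [1059, 4938], 13⟩,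
  mz,
  ⟨⟨23, 72, 9, -64, 25, 12, 26, 32, -67⟩, (.cons (nat_lit 9916) (nat_lit 23404) (nat_lit 20269) (nat_lit 1)
 (.cons (nat_lit 1928) (nat_lit 4361) (nat_lit 4091) (nat_lit 1) .nil)), (nat_lit 2), (nat_lit 5), (nat_lit
 16), (nat_lit 1), (66, 17, 53), [9491, 3865], 25⟩,
  mz,
  ⟨⟨17, -24, -89, 36, -55, 12, 54, 24, -53⟩, (.cons (nat_lit 4997) (nat_lit 21308) (nat_lit 1) (nat_lit 24284)
 (.cons (nat_lit 2704) (nat_lit 2777) (nat_lit 491) (nat_lit 1) .nil)), (nat_lit 28), (nat_lit 30), (nat_lit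
 25), (nat_lit 1), (5, 44, 66), [5765, 4774], 17⟩,
  ⟨⟨-23, -72, 32, 64, -25, -52, -26, -32, -41⟩, (.cons (nat_lit 26083) (nat_lit 22833) (nat_lit 19017) (nat_lit
 1) (.cons (nat_lit 4464) (nat_lit 2391) (nat_lit 1952) (nat_lit 1) .nil)), (nat_lit 15), (nat_lit 14),
 (nat_lit 3), (nat_lit 1), (21, 28, 33), [23505, 4884], 30⟩,
  mz,
  mz,
  ⟨⟨-65, 24, -7, -4, 55, 52, 10, 40, -59⟩, (.cons (nat_lit 5191) (nat_lit 11551) (nat_lit 14314) (nat_lit 1)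
 (.cons (nat_lit 4971) (nat_lit 535) (nat_lit 2015) (nat_lit 1) .nil)), (nat_lit 8), (nat_lit 26), (nat_lit 0),
 (nat_lit 1), (43, 66, 48), [13177, 679], 13⟩,
  ⟨⟨11, -72, -36, -50, 11, -30, 44, -4, -73⟩, (.cons (nat_lit 6347) (nat_lit 25742) (nat_lit 3448) (nat_lit 1)
 (.cons (nat_lit 4386) (nat_lit 3651) (nat_lit 2553) (nat_lit 1) .nil)), (nat_lit 14), (nat_lit 12), (nat_lit
 14), (nat_lit 1), (69, 22, 63), [16531, 4192], 18⟩,
  ⟨⟨61, 48, -36, 44, -55, -12, 22, 8, -77⟩, (.cons (nat_lit 28560) (nat_lit 14361) (nat_lit 27263) (nat_lit 1)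
 (.cons (nat_lit 1309) (nat_lit 813) (nat_lit 2781) (nat_lit 1) .nil)), (nat_lit 36), (nat_lit 20), (nat_lit
 5), (nat_lit 1), (30, 10, 5), [21349, 3765], 7⟩,
  mz,
  ⟨⟨51, 52, -56, 44, -15, 38, 42, -24, -67⟩, (.cons (nat_lit 27489) (nat_lit 7308) (nat_lit 10335) (nat_lit 1)
 (.cons (nat_lit 3954) (nat_lit 2515) (nat_lit 1734) (nat_lit 1) .nil)), (nat_lit 15), (nat_lit 31), (nat_lit
 35), (nat_lit 1), (52, 56, 47), [7907, 3409], 28⟩,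
  ⟨⟨9, -16, 80, -10, -69, -10, 60, -12, -11⟩, (.cons (nat_lit 28560) (nat_lit 7355) (nat_lit 4438) (nat_lit 1)
 (.cons (nat_lit 3883) (nat_lit 2036) (nat_lit 2551) (nat_lit 1) .nil)), (nat_lit 36), (nat_lit 11), (nat_lit
 5), (nat_lit 1), (33, 58, 7), [7923, 2277], 20⟩,
  ⟨⟨51, 4, 40, 10, 69, -20, 60, -12, -49⟩, (.cons (nat_lit 28560) (nat_lit 16404) (nat_lit 15588) (nat_lit 1)
 (.cons (nat_lit 3825) (nat_lit 712) (nat_lit 4282) (nat_lit 1) .nil)), (nat_lit 36), (nat_lit 13), (nat_lit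
 27), (nat_lit 1), (13, 29, 32), [9003, 195], 17⟩,
  ⟨⟨9, -56, -64, -56, 25, -12, 38, 16, -73⟩, (.cons (nat_lit 3599) (nat_lit 27275) (nat_lit 1947) (nat_lit 1)
 (.cons (nat_lit 1617) (nat_lit 4009) (nat_lit 3515) (nat_lit 1) .nil)), (nat_lit 26), (nat_lit 25), (nat_lit
 9), (nat_lit 1), (4, 54, 9), [7598, 4618], 5⟩,
  ⟨⟨65, 24, -72, -4, -55, -48, -10, 40, -49⟩, (.cons (nat_lit 20663) (nat_lit 19463) (nat_lit 15689) (nat_lit
 1) (.cons (nat_lit 533) (nat_lit 4828) (nat_lit 4201) (nat_lit 1) .nil)), (nat_lit 0), (nat_lit 23), (nat_lit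
 27), (nat_lit 1), (39, 26, 65), [3089, 3089], 13⟩,
  ⟨⟨9, -76, -20, 44, 15, -82, -42, -24, -25⟩, (.cons (nat_lit 15077) (nat_lit 16012) (nat_lit 12496) (nat_lit
 1) (.cons (nat_lit 4198) (nat_lit 2702) (nat_lit 3885) (nat_lit 1) .nil)), (nat_lit 25), (nat_lit 5), (nat_lit
 2), (nat_lit 1), (1, 68, 19), [18848, 2751], 8⟩,
  mz,
  ⟨⟨-9, 28, -76, 70, 11, -40, 4, -44, -53⟩, (.cons (nat_lit 5909) (nat_lit 25418) (nat_lit 756) (nat_lit 1)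
 (.cons (nat_lit 818) (nat_lit 2110) (nat_lit 43) (nat_lit 1) .nil)), (nat_lit 1), (nat_lit 36), (nat_lit 28),
 (nat_lit 1), (34, 59, 48), [13526, 826], 24⟩,
  ⟨⟨9, 16, 80, -10, 69, -10, 60, 12, -11⟩, (.cons (nat_lit 23969) (nat_lit 27792) (nat_lit 3768) (nat_lit 1)
 (.cons (nat_lit 4177) (nat_lit 2304) (nat_lit 3089) (nat_lit 1) .nil)), (nat_lit 24), (nat_lit 13), (nat_lit
 13), (nat_lit 1), (58, 46, 8), [7712, 28], 9⟩,
  ⟨⟨-63, -40, 7, -10, -21, 80, 12, -60, -25⟩, (.cons (nat_lit 13738) (nat_lit 12004) (nat_lit 12266) (nat_lit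
 1) (.cons (nat_lit 618) (nat_lit 4729) (nat_lit 973) (nat_lit 1) .nil)), (nat_lit 4), (nat_lit 36), (nat_lit
 11), (nat_lit 1), (33, 12, 14), [14073, 3307], 8⟩,
  mz,
  ⟨⟨-33, 68, -4, -50, -11, 80, -44, -4, -29⟩, (.cons (nat_lit 20382) (nat_lit 4191) (nat_lit 17200) (nat_lit 1)
 (.cons (nat_lit 2624) (nat_lit 1676) (nat_lit 853) (nat_lit 1) .nil)), (nat_lit 31), (nat_lit 11), (nat_lit
 7), (nat_lit 1), (43, 63, 10), [13172, 401], 10⟩,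
  ⟨⟨-75, -20, 43, 10, -21, 70, -12, -60, -13⟩, (.cons (nat_lit 2093) (nat_lit 26847) (nat_lit 23850) (nat_lit
 1) (.cons (nat_lit 3667) (nat_lit 170) (nat_lit 3188) (nat_lit 1) .nil)), (nat_lit 30), (nat_lit 11), (nat_lit
 27), (nat_lit 1), (2, 66, 6), [18244, 3947], 13⟩,
  mz,
  mz,
  mz,
  ⟨⟨33, -68, -37, 50, 11, 30, 44, 4, -73⟩, (.cons (nat_lit 8612) (nat_lit 15728) (nat_lit 13659) (nat_lit 1)
 (.cons (nat_lit 729) (nat_lit 1371) (nat_lit 325) (nat_lit 1) .nil)), (nat_lit 12), (nat_lit 15), (nat_lit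
 28), (nat_lit 1), (12, 44, 16), [27598, 1238], 34⟩,
  mz,
  ⟨⟨9, -28, -85, -70, -11, 30, -4, 44, -49⟩, (.cons (nat_lit 21886) (nat_lit 11528) (nat_lit 17249) (nat_lit 1)
 (.cons (nat_lit 4104) (nat_lit 2394) (nat_lit 3977) (nat_lit 1) .nil)), (nat_lit 30), (nat_lit 4), (nat_lit
 7), (nat_lit 1), (14, 41, 49), [14254, 574], 31⟩,
  ⟨⟨75, -16, -52, 4, 55, -52, 10, -40, -59⟩, (.cons (nat_lit 28560) (nat_lit 27627) (nat_lit 191) (nat_lit 1)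
 (.cons (nat_lit 321) (nat_lit 2803) (nat_lit 1402) (nat_lit 1) .nil)), (nat_lit 36), (nat_lit 34), (nat_lit
 15), (nat_lit 1), (51, 51, 21), [15181, 2546], 21⟩,
  mz,
  ⟨⟨33, 20, -92, 64, -15, -2, 6, -48, -49⟩, (.cons (nat_lit 13384) (nat_lit 7059) (nat_lit 27568) (nat_lit 1)
 (.cons (nat_lit 267) (nat_lit 40) (nat_lit 5010) (nat_lit 1) .nil)), (nat_lit 15), (nat_lit 17), (nat_lit 29),
 (nat_lit 1), (45, 55, 34), [13003, 1507], 28⟩,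
  ⟨⟨13, 72, 23, -70, 11, 40, 4, 44, -53⟩, (.cons (nat_lit 9150) (nat_lit 7679) (nat_lit 3086) (nat_lit 1)
 (.cons (nat_lit 137) (nat_lit 1283) (nat_lit 2738) (nat_lit 1) .nil)), (nat_lit 34), (nat_lit 8), (nat_lit
 10), (nat_lit 1), (20, 7, 28), [22278, 4181], 10⟩,
  ⟨⟨-23, 72, 32, -64, -25, 52, -26, 32, -41⟩, (.cons (nat_lit 13689) (nat_lit 1876) (nat_lit 20096) (nat_lit 1)
 (.cons (nat_lit 3613) (nat_lit 1694) (nat_lit 1756) (nat_lit 1) .nil)), (nat_lit 27), (nat_lit 27), (nat_lit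
 11), (nat_lit 1), (27, 35, 12), [26173, 1902], 4⟩,
  ⟨⟨37, -48, -73, -36, -55, 48, 54, -24, -1⟩, (.cons (nat_lit 5999) (nat_lit 24837) (nat_lit 22557) (nat_lit 1)
 (.cons (nat_lit 2076) (nat_lit 491) (nat_lit 2455) (nat_lit 1) .nil)), (nat_lit 33), (nat_lit 0), (nat_lit 0),
 (nat_lit 1), (11, 20, 41), [6600, 3571], 25⟩]

/-- Moves. -/
noncomputable def t1_5 : List Mv := [
  mz,
  ⟨⟨-75, 20, 43, -10, -21, -70, -12, 60, -13⟩, (.cons (nat_lit 26771) (nat_lit 9288) (nat_lit 21292) (nat_lit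
 1) (.cons (nat_lit 2183) (nat_lit 3088) (nat_lit 4696) (nat_lit 1) .nil)), (nat_lit 28), (nat_lit 28),
 (nat_lit 25), (nat_lit 1), (51, 21, 11), [20769, 1149], 19⟩,
  mz,
  ⟨⟨65, -24, -72, -4, 55, -48, -10, -40, -49⟩, (.cons (nat_lit 28560) (nat_lit 27504) (nat_lit 18621) (nat_lit
 1) (.cons (nat_lit 1440) (nat_lit 3833) (nat_lit 2184) (nat_lit 1) .nil)), (nat_lit 36), (nat_lit 34),
 (nat_lit 26), (nat_lit 1), (37, 1, 38), [11053, 1772], 9⟩,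
  ⟨⟨-33, -20, -59, 64, -15, -62, -6, 48, -43⟩, (.cons (nat_lit 5604) (nat_lit 23365) (nat_lit 22525) (nat_lit
 1) (.cons (nat_lit 1893) (nat_lit 4515) (nat_lit 1336) (nat_lit 1) .nil)), (nat_lit 9), (nat_lit 18), (nat_lit
 29), (nat_lit 1), (45, 16, 34), [20581, 1111], 15⟩,
  ⟨⟨-33, 20, -59, 64, 15, -62, -6, -48, -43⟩, (.cons (nat_lit 6465) (nat_lit 3559) (nat_lit 3960) (nat_lit 1)
 (.cons (nat_lit 3721) (nat_lit 186) (nat_lit 3119) (nat_lit 1) .nil)), (nat_lit 3), (nat_lit 26), (nat_lit 4),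
 (nat_lit 1), (23, 35, 30), [16795, 3302], 7⟩,
  mz,
  ⟨⟨-29, 72, 20, 56, 25, -68, -38, 16, -35⟩, (.cons (nat_lit 5059) (nat_lit 13986) (nat_lit 27817) (nat_lit 1)
 (.cons (nat_lit 4898) (nat_lit 188) (nat_lit 3186) (nat_lit 1) .nil)), (nat_lit 17), (nat_lit 20), (nat_lit
 10), (nat_lit 1), (33, 44, 31), [25534, 768], 31⟩,
  ⟨⟨3, 40, -76, 64, 25, -12, 26, -32, -67⟩, (.cons (nat_lit 5623) (nat_lit 13716) (nat_lit 13606) (nat_lit 1)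
 (.cons (nat_lit 4214) (nat_lit 2664) (nat_lit 2164) (nat_lit 1) .nil)), (nat_lit 24), (nat_lit 1), (nat_lit
 19), (nat_lit 1), (14, 62, 3), [5883, 1181], 22⟩,
  mz,
  mz,
  ⟨⟨33, -20, -92, 64, 15, -2, 6, 48, -49⟩, (.cons (nat_lit 28282) (nat_lit 6089) (nat_lit 8732) (nat_lit 1)
 (.cons (nat_lit 3059) (nat_lit 1467) (nat_lit 959) (nat_lit 1) .nil)), (nat_lit 34), (nat_lit 7), (nat_lit 4),
 (nat_lit 1), (67, 3, 38), [7703, 2396], 18⟩,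
  ⟨⟨9, 76, -20, 44, -15, -82, -42, 24, -25⟩, (.cons (nat_lit 7646) (nat_lit 7176) (nat_lit 23813) (nat_lit 1)
 (.cons (nat_lit 2203) (nat_lit 4103) (nat_lit 2733) (nat_lit 1) .nil)), (nat_lit 5), (nat_lit 26), (nat_lit
 3), (nat_lit 1), (31, 49, 21), [27637, 4929], 34⟩,
  mz,
  mz,
  ⟨⟨51, -52, -56, -44, -15, -38, 42, 24, -67⟩, (.cons (nat_lit 970) (nat_lit 27789) (nat_lit 19970) (nat_lit 1)
 (.cons (nat_lit 2153) (nat_lit 1733) (nat_lit 1524) (nat_lit 1) .nil)), (nat_lit 16), (nat_lit 9), (nat_lit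
 1), (nat_lit 1), (24, 67, 49), [7063, 2545], 16⟩,
  ⟨⟨17, 24, -89, -36, -55, -12, 54, -24, -53⟩, (.cons (nat_lit 26219) (nat_lit 4806) (nat_lit 1) (nat_lit 9984)
 (.cons (nat_lit 2888) (nat_lit 4686) (nat_lit 1661) (nat_lit 1) .nil)), (nat_lit 28), (nat_lit 28), (nat_lit
 3), (nat_lit 1), (7, 52, 64), [21296, 2295], 17⟩,
  mz,
  ⟨⟨9, 56, -64, -56, -25, -12, 38, -16, -73⟩, (.cons (nat_lit 19859) (nat_lit 22450) (nat_lit 3500) (nat_lit 1)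
 (.cons (nat_lit 3600) (nat_lit 115) (nat_lit 2053) (nat_lit 1) .nil)), (nat_lit 5), (nat_lit 4), (nat_lit 22),
 (nat_lit 1), (56, 46, 55), [22931, 609], 10⟩,
  ⟨⟨-61, -48, 25, -44, 55, 32, -22, -8, -55⟩, (.cons (nat_lit 27360) (nat_lit 22873) (nat_lit 28546) (nat_lit
 1) (.cons (nat_lit 885) (nat_lit 3698) (nat_lit 1119) (nat_lit 1) .nil)), (nat_lit 7), (nat_lit 22), (nat_lit
 17), (nat_lit 1), (9, 3, 37), [26185, 1484], 28⟩,
  mz,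
  mz,
  ⟨⟨37, 48, -73, -36, 55, 48, 54, 24, -1⟩, (.cons (nat_lit 22386) (nat_lit 24685) (nat_lit 28061) (nat_lit 1)
 (.cons (nat_lit 2163) (nat_lit 1758) (nat_lit 3450) (nat_lit 1) .nil)), (nat_lit 4), (nat_lit 36), (nat_lit
 25), (nat_lit 1), (15, 66, 43), [27449, 1386], 24⟩,
  ⟨⟨-61, 48, 25, 44, 55, -32, -22, 8, -55⟩, (.cons (nat_lit 26248) (nat_lit 27448) (nat_lit 423) (nat_lit 1)
 (.cons (nat_lit 3039) (nat_lit 4132) (nat_lit 952) (nat_lit 1) .nil)), (nat_lit 2), (nat_lit 11), (nat_lit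
 27), (nat_lit 1), (13, 43, 14), [17502, 1355], 34⟩,
  ⟨⟨-39, 40, -41, 44, 55, -12, 22, -8, -77⟩, (.cons (nat_lit 18201) (nat_lit 7964) (nat_lit 12447) (nat_lit 1)
 (.cons (nat_lit 2593) (nat_lit 4782) (nat_lit 1471) (nat_lit 1) .nil)), (nat_lit 19), (nat_lit 13), (nat_lit
 5), (nat_lit 1), (2, 56, 28), [12861, 466], 27⟩,
  mz,
  ⟨⟨51, -4, 40, -10, 69, 20, 60, 12, -49⟩, (.cons (nat_lit 28560) (nat_lit 27247) (nat_lit 3703) (nat_lit 1)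
 (.cons (nat_lit 26) (nat_lit 2129) (nat_lit 1) (nat_lit 994) .nil)), (nat_lit 36), (nat_lit 7), (nat_lit 13),
 (nat_lit 1), (60, 30, 33), [6245, 1490], 20⟩,
  mz,
  mz,
  ⟨⟨-13, -72, 36, 70, -11, -30, -4, -44, -49⟩, (.cons (nat_lit 17886) (nat_lit 21057) (nat_lit 20768) (nat_lit
 1) (.cons (nat_lit 1837) (nat_lit 1195) (nat_lit 1) (nat_lit 3195) .nil)), (nat_lit 31), (nat_lit 33),
 (nat_lit 27), (nat_lit 1), (29, 35, 69), [2798, 4745], 10⟩,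
  mz,
  ⟨⟨-33, -68, -4, 50, -11, -80, -44, 4, -29⟩, (.cons (nat_lit 8426) (nat_lit 14287) (nat_lit 21068) (nat_lit 1)
 (.cons (nat_lit 4113) (nat_lit 4514) (nat_lit 2221) (nat_lit 1) .nil)), (nat_lit 33), (nat_lit 26), (nat_lit
 22), (nat_lit 1), (61, 13, 34), [13677, 5014], 11⟩,
  mz,
  ⟨⟨-29, -72, 20, 56, -25, -68, -38, -16, -35⟩, (.cons (nat_lit 7657) (nat_lit 16035) (nat_lit 2798) (nat_lit
 1) (.cons (nat_lit 1527) (nat_lit 1751) (nat_lit 4229) (nat_lit 1) .nil)), (nat_lit 27), (nat_lit 36),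
 (nat_lit 36), (nat_lit 1), (27, 36, 6), [14590, 3264], 4⟩,
  ⟨⟨75, 20, -32, 10, -21, -80, 12, 60, -25⟩, (.cons (nat_lit 24537) (nat_lit 8739) (nat_lit 18324) (nat_lit 1)
 (.cons (nat_lit 3179) (nat_lit 4361) (nat_lit 427) (nat_lit 1) .nil)), (nat_lit 1), (nat_lit 30), (nat_lit 1),
 (nat_lit 0), (30, 4, 19), [3147, 1161], 16⟩,
  mz,
  ⟨⟨23, 72, 9, 64, -25, -12, 26, 32, -67⟩, (.cons (nat_lit 22747) (nat_lit 13815) (nat_lit 3179) (nat_lit 1)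
 (.cons (nat_lit 3306) (nat_lit 1145) (nat_lit 2722) (nat_lit 1) .nil)), (nat_lit 10), (nat_lit 4), (nat_lit
 34), (nat_lit 1), (66, 54, 53), [21522, 1954], 8⟩,
  mz,
  ⟨⟨17, -24, -89, -36, 55, -12, 54, 24, -53⟩, (.cons (nat_lit 7880) (nat_lit 8451) (nat_lit 19036) (nat_lit 1)
 (.cons (nat_lit 4185) (nat_lit 5006) (nat_lit 4447) (nat_lit 1) .nil)), (nat_lit 14), (nat_lit 20), (nat_lit
 2), (nat_lit 1), (5, 27, 66), [17941, 3559], 4⟩,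
  ⟨⟨-23, -72, 32, 64, -25, -52, -26, -32, -41⟩, (.cons (nat_lit 26083) (nat_lit 22833) (nat_lit 19017) (nat_lit
 1) (.cons (nat_lit 4464) (nat_lit 2391) (nat_lit 1952) (nat_lit 1) .nil)), (nat_lit 15), (nat_lit 14),
 (nat_lit 3), (nat_lit 1), (21, 28, 33), [23505, 4884], 30⟩,
  mz,
  mz,
  ⟨⟨75, 16, -52, 4, -55, -52, 10, 40, -59⟩, (.cons (nat_lit 9899) (nat_lit 27072) (nat_lit 26931) (nat_lit 1)
 (.cons (nat_lit 4002) (nat_lit 1655) (nat_lit 398) (nat_lit 1) .nil)), (nat_lit 0), (nat_lit 11), (nat_lit 6),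
 (nat_lit 1), (5, 5, 48), [3908, 642], 13⟩,
  ⟨⟨33, 68, -37, -50, 11, -30, 44, -4, -73⟩, (.cons (nat_lit 15340) (nat_lit 6237) (nat_lit 2697) (nat_lit 1)
 (.cons (nat_lit 4907) (nat_lit 3138) (nat_lit 2453) (nat_lit 1) .nil)), (nat_lit 13), (nat_lit 20), (nat_lit
 19), (nat_lit 1), (65, 22, 63), [22382, 41], 9⟩,
  ⟨⟨-39, -40, -41, -44, 55, 12, 22, 8, -77⟩, (.cons (nat_lit 25303) (nat_lit 4585) (nat_lit 8252) (nat_lit 1)
 (.cons (nat_lit 2834) (nat_lit 3656) (nat_lit 762) (nat_lit 1) .nil)), (nat_lit 16), (nat_lit 18), (nat_lit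
 24), (nat_lit 1), (46, 61, 5), [15766, 4635], 27⟩,
  mz,
  ⟨⟨-9, -76, -11, -44, 15, -38, 42, -24, -67⟩, (.cons (nat_lit 15015) (nat_lit 24669) (nat_lit 26192) (nat_lit
 1) (.cons (nat_lit 4528) (nat_lit 5031) (nat_lit 3554) (nat_lit 1) .nil)), (nat_lit 9), (nat_lit 14), (nat_lit
 16), (nat_lit 1), (66, 15, 47), [25481, 4781], 16⟩,
  ⟨⟨9, -16, 80, -10, -69, -10, 60, -12, -11⟩, (.cons (nat_lit 28560) (nat_lit 7355) (nat_lit 4438) (nat_lit 1)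
 (.cons (nat_lit 3883) (nat_lit 2036) (nat_lit 2551) (nat_lit 1) .nil)), (nat_lit 36), (nat_lit 11), (nat_lit
 5), (nat_lit 1), (33, 58, 7), [7923, 2277], 20⟩,
  ⟨⟨51, 4, 40, 10, 69, -20, 60, -12, -49⟩, (.cons (nat_lit 28560) (nat_lit 16404) (nat_lit 15588) (nat_lit 1)
 (.cons (nat_lit 3825) (nat_lit 712) (nat_lit 4282) (nat_lit 1) .nil)), (nat_lit 36), (nat_lit 13), (nat_lit
 27), (nat_lit 1), (13, 29, 32), [9003, 195], 17⟩,
  ⟨⟨9, -56, -64, 56, -25, 12, 38, 16, -73⟩, (.cons (nat_lit 23446) (nat_lit 27805) (nat_lit 1) (nat_lit 12337)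
 (.cons (nat_lit 3188) (nat_lit 2350) (nat_lit 394) (nat_lit 1) .nil)), (nat_lit 11), (nat_lit 36), (nat_lit
 27), (nat_lit 1), (4, 17, 9), [5981, 209], 3⟩,
  ⟨⟨-75, 16, 23, 4, 55, 48, -10, 40, -49⟩, (.cons (nat_lit 14960) (nat_lit 19651) (nat_lit 12938) (nat_lit 1)
 (.cons (nat_lit 1533) (nat_lit 4938) (nat_lit 1) (nat_lit 3195) .nil)), (nat_lit 14), (nat_lit 6), (nat_lit
 0), (nat_lit 1), (26, 45, 65), [16374, 3227], 32⟩,
  ⟨⟨-51, 52, -5, -44, -15, 82, -42, -24, -25⟩, (.cons (nat_lit 10453) (nat_lit 19327) (nat_lit 3059) (nat_lit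
 1) (.cons (nat_lit 4340) (nat_lit 422) (nat_lit 2221) (nat_lit 1) .nil)), (nat_lit 33), (nat_lit 35), (nat_lit
 5), (nat_lit 1), (18, 3, 19), [2056, 337], 18⟩,
  mz,
  ⟨⟨-9, 28, -76, -70, -11, 40, 4, -44, -53⟩, (.cons (nat_lit 15555) (nat_lit 27417) (nat_lit 24735) (nat_lit 1)
 (.cons (nat_lit 2094) (nat_lit 1787) (nat_lit 2280) (nat_lit 1) .nil)), (nat_lit 9), (nat_lit 25), (nat_lit
 24), (nat_lit 1), (34, 12, 48), [257, 4179], 3⟩,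
  ⟨⟨9, 16, 80, 10, -69, 10, 60, 12, -11⟩, (.cons (nat_lit 28560) (nat_lit 27540) (nat_lit 11345) (nat_lit 1)
 (.cons (nat_lit 54) (nat_lit 3878) (nat_lit 1) (nat_lit 1349) .nil)), (nat_lit 36), (nat_lit 19), (nat_lit
 34), (nat_lit 1), (58, 25, 8), [24890, 3435], 17⟩,
  ⟨⟨-63, -40, 7, 10, 21, -80, 12, -60, -25⟩, (.cons (nat_lit 11642) (nat_lit 12149) (nat_lit 22416) (nat_lit 1)
 (.cons (nat_lit 31) (nat_lit 3328) (nat_lit 440) (nat_lit 1) .nil)), (nat_lit 12), (nat_lit 25), (nat_lit 0),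
 (nat_lit 1), (33, 59, 14), [24522, 2642], 1⟩,
  mz,
  ⟨⟨-11, -72, -25, -50, -11, 80, -44, -4, -29⟩, (.cons (nat_lit 26704) (nat_lit 15307) (nat_lit 14512) (nat_lit
 1) (.cons (nat_lit 264) (nat_lit 1690) (nat_lit 3563) (nat_lit 1) .nil)), (nat_lit 21), (nat_lit 27), (nat_lit
 1), (nat_lit 1), (38, 63, 10), [25582, 2789], 18⟩,
  ⟨⟨-75, -20, 43, -10, 21, -70, -12, -60, -13⟩, (.cons (nat_lit 7009) (nat_lit 16561) (nat_lit 317) (nat_lit 1)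
 (.cons (nat_lit 2500) (nat_lit 553) (nat_lit 252) (nat_lit 1) .nil)), (nat_lit 34), (nat_lit 1), (nat_lit 0),
 (nat_lit 1), (2, 5, 6), [23286, 4292], 9⟩,
  mz,
  mz,
  mz,
  ⟨⟨11, 72, -36, -50, -11, -30, 44, 4, -73⟩, (.cons (nat_lit 13019) (nat_lit 15956) (nat_lit 8395) (nat_lit 1)
 (.cons (nat_lit 3262) (nat_lit 109) (nat_lit 4632) (nat_lit 1) .nil)), (nat_lit 6), (nat_lit 24), (nat_lit
 23), (nat_lit 1), (4, 27, 16), [13355, 2567], 27⟩,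
  mz,
  ⟨⟨-13, 72, 36, 70, 11, -30, -4, 44, -49⟩, (.cons (nat_lit 4981) (nat_lit 26389) (nat_lit 26821) (nat_lit 1)
 (.cons (nat_lit 370) (nat_lit 1435) (nat_lit 3217) (nat_lit 1) .nil)), (nat_lit 1), (nat_lit 16), (nat_lit
 26), (nat_lit 1), (35, 30, 49), [12634, 1531], 24⟩,
  ⟨⟨75, -16, -52, -4, -55, 52, 10, -40, -59⟩, (.cons (nat_lit 9579) (nat_lit 11192) (nat_lit 19464) (nat_lit 1)
 (.cons (nat_lit 2223) (nat_lit 907) (nat_lit 58) (nat_lit 1) .nil)), (nat_lit 6), (nat_lit 8), (nat_lit 1),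
 (nat_lit 0), (51, 20, 21), [1410, 27], 24⟩,
  mz,
  ⟨⟨-27, -68, 43, -64, 15, 2, 6, -48, -49⟩, (.cons (nat_lit 25125) (nat_lit 22197) (nat_lit 1) (nat_lit 18187)
 (.cons (nat_lit 2185) (nat_lit 4004) (nat_lit 1148) (nat_lit 1) .nil)), (nat_lit 33), (nat_lit 19), (nat_lit
 27), (nat_lit 1), (60, 16, 34), [4202, 2985], 34⟩,
  ⟨⟨13, 72, 23, 70, -11, -40, 4, 44, -53⟩, (.cons (nat_lit 9912) (nat_lit 13706) (nat_lit 14512) (nat_lit 1)
 (.cons (nat_lit 5039) (nat_lit 856) (nat_lit 4397) (nat_lit 1) .nil)), (nat_lit 20), (nat_lit 29), (nat_lit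
 26), (nat_lit 1), (20, 64, 28), [226, 1793], 19⟩,
  ⟨⟨-23, 72, 32, 64, 25, -52, -26, 32, -41⟩, (.cons (nat_lit 1185) (nat_lit 17988) (nat_lit 27006) (nat_lit 1)
 (.cons (nat_lit 4155) (nat_lit 2570) (nat_lit 4905) (nat_lit 1) .nil)), (nat_lit 17), (nat_lit 26), (nat_lit
 2), (nat_lit 1), (27, 36, 12), [3018, 805], 31⟩,
  ⟨⟨17, 24, 72, 36, 55, -48, 54, -24, -1⟩, (.cons (nat_lit 28560) (nat_lit 21261) (nat_lit 24361) (nat_lit 1)
 (.cons (nat_lit 2263) (nat_lit 3813) (nat_lit 3346) (nat_lit 1) .nil)), (nat_lit 0), (nat_lit 21), (nat_lit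
 1), (nat_lit 0), (30, 51, 41), [26334, 2305], 11⟩]

/-- Moves. -/
noncomputable def t4_2 : List Mv := [
  mz,
  ⟨⟨27, 4, 20, -10, -33, 20, 30, -12, -23⟩, (.cons (nat_lit 20924) (nat_lit 9486) (nat_lit 1) (nat_lit 25610)
 (.cons (nat_lit 4066) (nat_lit 3588) (nat_lit 4337) (nat_lit 1) .nil)), (nat_lit 11), (nat_lit 0), (nat_lit
 0), (nat_lit 0), (3, 3, 28), [14474, 4337], 0⟩,
  mz,
  mz,
  ⟨⟨21, 4, 28, 8, 35, -14, 32, -8, -19⟩, (.cons (nat_lit 28560) (nat_lit 14774) (nat_lit 4739) (nat_lit 1)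
 (.cons (nat_lit 5040) (nat_lit 1693) (nat_lit 2521) (nat_lit 1) .nil)), (nat_lit 4), (nat_lit 0), (nat_lit 0),
 (nat_lit 0), (33, 2, 8), [6258, 3632], 0⟩,
  ⟨⟨21, -4, 28, 8, -35, -14, 32, 8, -19⟩, (.cons (nat_lit 27246) (nat_lit 3805) (nat_lit 7009) (nat_lit 1)
 (.cons (nat_lit 2259) (nat_lit 3749) (nat_lit 4209) (nat_lit 1) .nil)), (nat_lit 4), (nat_lit 0), (nat_lit 0),
 (nat_lit 0), (15, 11, 7), [391, 3489], 0⟩,
  mz,
  ⟨⟨-1, -24, -36, 30, 17, -30, -18, 12, -19⟩, (.cons (nat_lit 25228) (nat_lit 20210) (nat_lit 7389) (nat_lit 1)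
 (.cons (nat_lit 4161) (nat_lit 5018) (nat_lit 1759) (nat_lit 1) .nil)), (nat_lit 10), (nat_lit 0), (nat_lit
 0), (nat_lit 0), (13, 17, 12), [13352, 2582], 0⟩,
  ⟨⟨-35, 12, -1, 12, 35, -6, 0, 0, -37⟩, (.cons (nat_lit 7774) (nat_lit 28194) (nat_lit 1) (nat_lit 20787)
 (.cons (nat_lit 5040) (nat_lit 4854) (nat_lit 1182) (nat_lit 1) .nil)), (nat_lit 8), (nat_lit 0), (nat_lit 0),
 (nat_lit 0), (3, 18, 0), [13579, 1719], 0⟩,
  mz,
  ⟨⟨-1, 24, -36, 30, -17, -30, -18, -12, -19⟩, (.cons (nat_lit 28560) (nat_lit 11000) (nat_lit 20291) (nat_lit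
 1) (.cons (nat_lit 5040) (nat_lit 1277) (nat_lit 607) (nat_lit 1) .nil)), (nat_lit 10), (nat_lit 0), (nat_lit
 0), (nat_lit 0), (10, 33, 32), [4674, 3110], 0⟩,
  ⟨⟨3, 16, -43, 10, -33, -20, 30, 12, -23⟩, (.cons (nat_lit 3181) (nat_lit 1494) (nat_lit 16116) (nat_lit 1)
 (.cons (nat_lit 2243) (nat_lit 817) (nat_lit 3428) (nat_lit 1) .nil)), (nat_lit 26), (nat_lit 0), (nat_lit 0),
 (nat_lit 0), (23, 15, 8), [10644, 4922], 0⟩,
  ⟨⟨39, -4, -8, 10, 17, -40, 14, -28, -19⟩, (.cons (nat_lit 28560) (nat_lit 23624) (nat_lit 6253) (nat_lit 1)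
 (.cons (nat_lit 5040) (nat_lit 4235) (nat_lit 4901) (nat_lit 1) .nil)), (nat_lit 12), (nat_lit 0), (nat_lit
 0), (nat_lit 0), (11, 18, 3), [10853, 1169], 0⟩,
  ⟨⟨-31, 24, 27, 8, -5, 36, 8, 32, -1⟩, (.cons (nat_lit 28560) (nat_lit 24564) (nat_lit 1638) (nat_lit 1)
 (.cons (nat_lit 5040) (nat_lit 3231) (nat_lit 502) (nat_lit 1) .nil)), (nat_lit 13), (nat_lit 0), (nat_lit 0),
 (nat_lit 0), (26, 10, 10), [16304, 474], 0⟩,
  mz,
  ⟨⟨-3, 40, 8, 32, 5, -36, -16, 16, -19⟩, (.cons (nat_lit 5561) (nat_lit 24879) (nat_lit 1) (nat_lit 9529)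
 (.cons (nat_lit 2216) (nat_lit 2805) (nat_lit 1724) (nat_lit 1) .nil)), (nat_lit 24), (nat_lit 0), (nat_lit
 0), (nat_lit 0), (27, 8, 33), [24915, 1250], 0⟩,
  ⟨⟨11, -12, 36, 8, 35, 6, 32, -8, -13⟩, (.cons (nat_lit 6849) (nat_lit 930) (nat_lit 907) (nat_lit 1) (.cons
 (nat_lit 3679) (nat_lit 2734) (nat_lit 2209) (nat_lit 1) .nil)), (nat_lit 35), (nat_lit 0), (nat_lit 0),
 (nat_lit 0), (3, 19, 2), [24894, 558], 0⟩,
  ⟨⟨39, -8, -11, 8, 5, -44, 8, -32, -7⟩, (.cons (nat_lit 28560) (nat_lit 12537) (nat_lit 2844) (nat_lit 1)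
 (.cons (nat_lit 5040) (nat_lit 1374) (nat_lit 3884) (nat_lit 1) .nil)), (nat_lit 17), (nat_lit 0), (nat_lit
 0), (nat_lit 0), (5, 20, 20), [10883, 3900], 0⟩,
  ⟨⟨39, 4, -8, 10, -17, -40, 14, 28, -19⟩, (.cons (nat_lit 1753) (nat_lit 10621) (nat_lit 23217) (nat_lit 1)
 (.cons (nat_lit 3453) (nat_lit 2591) (nat_lit 1) (nat_lit 4047) .nil)), (nat_lit 12), (nat_lit 0), (nat_lit
 0), (nat_lit 0), (29, 34, 18), [15058, 3391], 0⟩,
  ⟨⟨39, -8, -28, -8, -5, -36, 8, -32, -1⟩, (.cons (nat_lit 20653) (nat_lit 14980) (nat_lit 22274) (nat_lit 1)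
 (.cons (nat_lit 2033) (nat_lit 592) (nat_lit 4606) (nat_lit 1) .nil)), (nat_lit 22), (nat_lit 0), (nat_lit 0),
 (nat_lit 0), (22, 23, 14), [16293, 4685], 0⟩,
  ⟨⟨25, -24, -36, -10, 17, -30, -14, -28, -5⟩, (.cons (nat_lit 28560) (nat_lit 10020) (nat_lit 3054) (nat_lit
 1) (.cons (nat_lit 5040) (nat_lit 4057) (nat_lit 3907) (nat_lit 1) .nil)), (nat_lit 20), (nat_lit 0), (nat_lit
 0), (nat_lit 0), (21, 36, 6), [24835, 919], 0⟩,
  ⟨⟨13, -24, -40, 32, -5, 4, 16, 16, -35⟩, (.cons (nat_lit 10563) (nat_lit 14423) (nat_lit 10057) (nat_lit 1)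
 (.cons (nat_lit 2048) (nat_lit 4916) (nat_lit 2914) (nat_lit 1) .nil)), (nat_lit 15), (nat_lit 0), (nat_lit
 0), (nat_lit 0), (27, 1, 19), [11059, 2223], 0⟩,
  ⟨⟨-31, 24, 4, -8, 5, 44, 8, 32, -7⟩, (.cons (nat_lit 24534) (nat_lit 3628) (nat_lit 15858) (nat_lit 1) (.cons
 (nat_lit 243) (nat_lit 2333) (nat_lit 4885) (nat_lit 1) .nil)), (nat_lit 19), (nat_lit 0), (nat_lit 0),
 (nat_lit 0), (12, 21, 16), [16331, 474], 0⟩,
  mz,
  ⟨⟨13, 24, -40, 32, 5, 4, 16, -16, -35⟩, (.cons (nat_lit 13273) (nat_lit 3678) (nat_lit 6158) (nat_lit 1)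
 (.cons (nat_lit 1581) (nat_lit 1375) (nat_lit 1537) (nat_lit 1) .nil)), (nat_lit 15), (nat_lit 0), (nat_lit
 0), (nat_lit 0), (24, 5, 21), [24838, 4163], 0⟩,
  ⟨⟨17, -36, 0, -30, -17, 0, 18, -12, -37⟩, (.cons (nat_lit 28560) (nat_lit 15491) (nat_lit 989) (nat_lit 1)
 (.cons (nat_lit 5040) (nat_lit 1052) (nat_lit 4377) (nat_lit 1) .nil)), (nat_lit 25), (nat_lit 0), (nat_lit
 0), (nat_lit 0), (21, 13, 7), [16528, 292], 0⟩,
  ⟨⟨27, -4, -47, -10, 33, -10, 30, 12, -7⟩, (.cons (nat_lit 24781) (nat_lit 20803) (nat_lit 26428) (nat_lit 1)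
 (.cons (nat_lit 3288) (nat_lit 557) (nat_lit 412) (nat_lit 1) .nil)), (nat_lit 11), (nat_lit 0), (nat_lit 0),
 (nat_lit 0), (15, 15, 29), [24545, 3849], 0⟩,
  ⟨⟨27, 4, -47, -10, -33, -10, 30, -12, -7⟩, (.cons (nat_lit 17514) (nat_lit 13423) (nat_lit 17745) (nat_lit 1)
 (.cons (nat_lit 3344) (nat_lit 3778) (nat_lit 2005) (nat_lit 1) .nil)), (nat_lit 11), (nat_lit 0), (nat_lit
 0), (nat_lit 0), (33, 33, 12), [13110, 3709], 0⟩,
  mz,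
  ⟨⟨-35, -12, -1, 12, -35, -6, 0, 0, -37⟩, (.cons (nat_lit 12117) (nat_lit 17393) (nat_lit 8129) (nat_lit 1)
 (.cons (nat_lit 4261) (nat_lit 3431) (nat_lit 287) (nat_lit 1) .nil)), (nat_lit 8), (nat_lit 0), (nat_lit 0),
 (nat_lit 0), (23, 27, 0), [6432, 1096], 0⟩,
  ⟨⟨25, 24, -36, 10, 17, 30, -14, 28, -5⟩, (.cons (nat_lit 28560) (nat_lit 21619) (nat_lit 4770) (nat_lit 1)
 (.cons (nat_lit 5040) (nat_lit 1949) (nat_lit 2692) (nat_lit 1) .nil)), (nat_lit 30), (nat_lit 0), (nat_lit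
 0), (nat_lit 0), (18, 22, 21), [16235, 4364], 0⟩,
  mz,
  mz,
  ⟨⟨-3, -40, 8, 32, -5, -36, -16, -16, -19⟩, (.cons (nat_lit 288) (nat_lit 20978) (nat_lit 23794) (nat_lit 1)
 (.cons (nat_lit 2046) (nat_lit 3180) (nat_lit 2734) (nat_lit 1) .nil)), (nat_lit 24), (nat_lit 0), (nat_lit
 0), (nat_lit 0), (32, 4, 35), [16793, 1020], 0⟩,
  mz,
  ⟨⟨11, 12, 36, -8, 35, -6, 32, 8, -13⟩, (.cons (nat_lit 12356) (nat_lit 19003) (nat_lit 17581) (nat_lit 1)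
 (.cons (nat_lit 3468) (nat_lit 609) (nat_lit 1508) (nat_lit 1) .nil)), (nat_lit 16), (nat_lit 0), (nat_lit 0),
 (nat_lit 0), (20, 9, 1), [22129, 1133], 0⟩,
  ⟨⟨1, -24, -37, -30, 17, 0, 18, 12, -37⟩, (.cons (nat_lit 26173) (nat_lit 3868) (nat_lit 5995) (nat_lit 1)
 (.cons (nat_lit 4667) (nat_lit 1866) (nat_lit 2930) (nat_lit 1) .nil)), (nat_lit 10), (nat_lit 0), (nat_lit
 0), (nat_lit 0), (26, 34, 24), [17908, 3555], 0⟩]

/-- Moves. -/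
noncomputable def t4_4 : List Mv := [
  mz,
  ⟨⟨3, -16, -43, -10, -33, 20, 30, -12, -23⟩, (.cons (nat_lit 19294) (nat_lit 3136) (nat_lit 7669) (nat_lit 1)
 (.cons (nat_lit 2502) (nat_lit 1632) (nat_lit 3368) (nat_lit 1) .nil)), (nat_lit 27), (nat_lit 0), (nat_lit
 0), (nat_lit 0), (25, 3, 28), [3039, 2413], 0⟩,
  mz,
  mz,
  ⟨⟨21, 4, 28, 8, 35, -14, 32, -8, -19⟩, (.cons (nat_lit 28560) (nat_lit 14774) (nat_lit 4739) (nat_lit 1)
 (.cons (nat_lit 5040) (nat_lit 1693) (nat_lit 2521) (nat_lit 1) .nil)), (nat_lit 4), (nat_lit 0), (nat_lit 0),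
 (nat_lit 0), (33, 2, 8), [6258, 3632], 0⟩,
  ⟨⟨21, -4, 28, 8, -35, -14, 32, 8, -19⟩, (.cons (nat_lit 27246) (nat_lit 3805) (nat_lit 7009) (nat_lit 1)
 (.cons (nat_lit 2259) (nat_lit 3749) (nat_lit 4209) (nat_lit 1) .nil)), (nat_lit 4), (nat_lit 0), (nat_lit 0),
 (nat_lit 0), (15, 11, 7), [391, 3489], 0⟩,
  mz,
  ⟨⟨-1, -24, -36, 30, 17, -30, -18, 12, -19⟩, (.cons (nat_lit 25228) (nat_lit 20210) (nat_lit 7389) (nat_lit 1)
 (.cons (nat_lit 4161) (nat_lit 5018) (nat_lit 1759) (nat_lit 1) .nil)), (nat_lit 10), (nat_lit 0), (nat_lit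
 0), (nat_lit 0), (13, 17, 12), [13352, 2582], 0⟩,
  ⟨⟨-35, 12, -1, -12, -35, 6, 0, 0, -37⟩, (.cons (nat_lit 8165) (nat_lit 20008) (nat_lit 2479) (nat_lit 1)
 (.cons (nat_lit 782) (nat_lit 3811) (nat_lit 2411) (nat_lit 1) .nil)), (nat_lit 29), (nat_lit 0), (nat_lit 0),
 (nat_lit 0), (3, 19, 0), [18795, 4149], 0⟩,
  mz,
  ⟨⟨-1, 24, -36, 30, -17, -30, -18, -12, -19⟩, (.cons (nat_lit 28560) (nat_lit 11000) (nat_lit 20291) (nat_lit
 1) (.cons (nat_lit 5040) (nat_lit 1277) (nat_lit 607) (nat_lit 1) .nil)), (nat_lit 10), (nat_lit 0), (nat_lit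
 0), (nat_lit 0), (10, 33, 32), [4674, 3110], 0⟩,
  ⟨⟨3, 16, -43, 10, -33, -20, 30, 12, -23⟩, (.cons (nat_lit 3181) (nat_lit 1494) (nat_lit 16116) (nat_lit 1)
 (.cons (nat_lit 2243) (nat_lit 817) (nat_lit 3428) (nat_lit 1) .nil)), (nat_lit 26), (nat_lit 0), (nat_lit 0),
 (nat_lit 0), (23, 15, 8), [10644, 4922], 0⟩,
  ⟨⟨39, -4, -8, -10, -17, 40, 14, -28, -19⟩, (.cons (nat_lit 9743) (nat_lit 24661) (nat_lit 28450) (nat_lit 1)
 (.cons (nat_lit 426) (nat_lit 1719) (nat_lit 2384) (nat_lit 1) .nil)), (nat_lit 18), (nat_lit 0), (nat_lit 0),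
 (nat_lit 0), (11, 19, 3), [23180, 4367], 0⟩,
  ⟨⟨39, 8, -28, -8, 5, -36, 8, 32, -1⟩, (.cons (nat_lit 14911) (nat_lit 18115) (nat_lit 25777) (nat_lit 1)
 (.cons (nat_lit 2538) (nat_lit 2666) (nat_lit 2980) (nat_lit 1) .nil)), (nat_lit 22), (nat_lit 0), (nat_lit
 0), (nat_lit 0), (21, 27, 10), [23155, 800], 0⟩,
  mz,
  ⟨⟨-13, -24, -27, 32, 5, -36, -16, 16, -19⟩, (.cons (nat_lit 13186) (nat_lit 1537) (nat_lit 5527) (nat_lit 1)
 (.cons (nat_lit 2123) (nat_lit 566) (nat_lit 3859) (nat_lit 1) .nil)), (nat_lit 33), (nat_lit 0), (nat_lit 0),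
 (nat_lit 0), (6, 8, 33), [27374, 5012], 0⟩,
  ⟨⟨21, 4, -49, 8, 35, 6, 32, -8, -13⟩, (.cons (nat_lit 16735) (nat_lit 3833) (nat_lit 7558) (nat_lit 1) (.cons
 (nat_lit 1022) (nat_lit 2980) (nat_lit 4606) (nat_lit 1) .nil)), (nat_lit 4), (nat_lit 0), (nat_lit 0),
 (nat_lit 0), (36, 19, 2), [2065, 512], 0⟩,
  ⟨⟨39, -8, -11, -8, -5, 44, 8, -32, -7⟩, (.cons (nat_lit 13470) (nat_lit 3322) (nat_lit 26150) (nat_lit 1)
 (.cons (nat_lit 2213) (nat_lit 918) (nat_lit 2521) (nat_lit 1) .nil)), (nat_lit 22), (nat_lit 0), (nat_lit 0),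
 (nat_lit 0), (5, 17, 20), [9571, 4406], 0⟩,
  ⟨⟨39, 4, -8, -10, 17, 40, 14, 28, -19⟩, (.cons (nat_lit 28560) (nat_lit 12444) (nat_lit 25026) (nat_lit 1)
 (.cons (nat_lit 5040) (nat_lit 458) (nat_lit 3453) (nat_lit 1) .nil)), (nat_lit 18), (nat_lit 0), (nat_lit 0),
 (nat_lit 0), (29, 3, 18), [21325, 3688], 0⟩,
  ⟨⟨39, -8, -28, -8, -5, -36, 8, -32, -1⟩, (.cons (nat_lit 20653) (nat_lit 14980) (nat_lit 22274) (nat_lit 1)
 (.cons (nat_lit 2033) (nat_lit 592) (nat_lit 4606) (nat_lit 1) .nil)), (nat_lit 22), (nat_lit 0), (nat_lit 0),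
 (nat_lit 0), (22, 23, 14), [16293, 4685], 0⟩,
  ⟨⟨-39, -4, 31, 10, -17, 30, -14, -28, -5⟩, (.cons (nat_lit 4577) (nat_lit 4978) (nat_lit 28401) (nat_lit 1)
 (.cons (nat_lit 792) (nat_lit 1745) (nat_lit 2563) (nat_lit 1) .nil)), (nat_lit 18), (nat_lit 0), (nat_lit 0),
 (nat_lit 0), (22, 1, 6), [7209, 130], 0⟩,
  ⟨⟨13, -24, -40, -32, 5, -4, 16, 16, -35⟩, (.cons (nat_lit 20131) (nat_lit 9748) (nat_lit 6128) (nat_lit 1)
 (.cons (nat_lit 2510) (nat_lit 81) (nat_lit 400) (nat_lit 1) .nil)), (nat_lit 33), (nat_lit 0), (nat_lit 0),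
 (nat_lit 0), (27, 36, 19), [1279, 3090], 0⟩,
  ⟨⟨39, 8, -11, 8, -5, -44, 8, 32, -7⟩, (.cons (nat_lit 15646) (nat_lit 5008) (nat_lit 21986) (nat_lit 1)
 (.cons (nat_lit 1000) (nat_lit 4503) (nat_lit 4541) (nat_lit 1) .nil)), (nat_lit 17), (nat_lit 0), (nat_lit
 0), (nat_lit 0), (4, 16, 16), [2305, 4688], 0⟩,
  mz,
  ⟨⟨13, 24, -40, -32, -5, -4, 16, -16, -35⟩, (.cons (nat_lit 4661) (nat_lit 14406) (nat_lit 27090) (nat_lit 1)
 (.cons (nat_lit 4462) (nat_lit 1255) (nat_lit 112) (nat_lit 1) .nil)), (nat_lit 33), (nat_lit 0), (nat_lit 0),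
 (nat_lit 0), (24, 32, 21), [8680, 4708], 0⟩,
  ⟨⟨1, 24, -37, -30, -17, 0, 18, -12, -37⟩, (.cons (nat_lit 22091) (nat_lit 13844) (nat_lit 3218) (nat_lit 1)
 (.cons (nat_lit 1469) (nat_lit 623) (nat_lit 1813) (nat_lit 1) .nil)), (nat_lit 10), (nat_lit 0), (nat_lit 0),
 (nat_lit 0), (23, 13, 7), [19613, 2671], 0⟩,
  ⟨⟨3, 16, 40, 10, -33, 10, 30, 12, -7⟩, (.cons (nat_lit 28560) (nat_lit 24896) (nat_lit 9829) (nat_lit 1)
 (.cons (nat_lit 5040) (nat_lit 2977) (nat_lit 3406) (nat_lit 1) .nil)), (nat_lit 26), (nat_lit 0), (nat_lit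
 0), (nat_lit 0), (14, 22, 29), [5321, 3853], 0⟩,
  ⟨⟨3, -16, 40, -10, -33, -10, 30, -12, -7⟩, (.cons (nat_lit 28560) (nat_lit 648) (nat_lit 24314) (nat_lit 1)
 (.cons (nat_lit 5040) (nat_lit 864) (nat_lit 427) (nat_lit 1) .nil)), (nat_lit 27), (nat_lit 0), (nat_lit 0),
 (nat_lit 0), (16, 33, 12), [6070, 655], 0⟩,
  mz,
  ⟨⟨-35, -12, -1, 12, -35, -6, 0, 0, -37⟩, (.cons (nat_lit 12117) (nat_lit 17393) (nat_lit 8129) (nat_lit 1)
 (.cons (nat_lit 4261) (nat_lit 3431) (nat_lit 287) (nat_lit 1) .nil)), (nat_lit 8), (nat_lit 0), (nat_lit 0),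
 (nat_lit 0), (23, 27, 0), [6432, 1096], 0⟩,
  ⟨⟨-39, 4, 31, 10, 17, 30, -14, 28, -5⟩, (.cons (nat_lit 22906) (nat_lit 8633) (nat_lit 14334) (nat_lit 1)
 (.cons (nat_lit 375) (nat_lit 1917) (nat_lit 4072) (nat_lit 1) .nil)), (nat_lit 18), (nat_lit 0), (nat_lit 0),
 (nat_lit 0), (3, 22, 21), [23988, 5000], 0⟩,
  mz,
  mz,
  ⟨⟨-3, -40, 8, 32, -5, -36, -16, -16, -19⟩, (.cons (nat_lit 288) (nat_lit 20978) (nat_lit 23794) (nat_lit 1)
 (.cons (nat_lit 2046) (nat_lit 3180) (nat_lit 2734) (nat_lit 1) .nil)), (nat_lit 24), (nat_lit 0), (nat_lit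
 0), (nat_lit 0), (32, 4, 35), [16793, 1020], 0⟩,
  mz,
  ⟨⟨21, -4, -49, -8, 35, -6, 32, 8, -13⟩, (.cons (nat_lit 13942) (nat_lit 21361) (nat_lit 21016) (nat_lit 1)
 (.cons (nat_lit 3188) (nat_lit 2005) (nat_lit 112) (nat_lit 1) .nil)), (nat_lit 5), (nat_lit 0), (nat_lit 0),
 (nat_lit 0), (18, 9, 1), [22692, 861], 0⟩,
  ⟨⟨1, -24, -37, -30, 17, 0, 18, 12, -37⟩, (.cons (nat_lit 26173) (nat_lit 3868) (nat_lit 5995) (nat_lit 1)
 (.cons (nat_lit 4667) (nat_lit 1866) (nat_lit 2930) (nat_lit 1) .nil)), (nat_lit 10), (nat_lit 0), (nat_lit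
 0), (nat_lit 0), (26, 34, 24), [17908, 3555], 0⟩]

/-- Moves. -/
noncomputable def t4_5 : List Mv := [
  mz,
  ⟨⟨3, -16, -43, 10, 33, -20, 30, -12, -23⟩, (.cons (nat_lit 25476) (nat_lit 12051) (nat_lit 11318) (nat_lit 1)
 (.cons (nat_lit 2617) (nat_lit 2010) (nat_lit 2876) (nat_lit 1) .nil)), (nat_lit 26), (nat_lit 0), (nat_lit
 0), (nat_lit 0), (25, 34, 28), [8367, 2560], 0⟩,
  mz,
  mz,
  ⟨⟨21, 4, 28, 8, 35, -14, 32, -8, -19⟩, (.cons (nat_lit 28560) (nat_lit 14774) (nat_lit 4739) (nat_lit 1)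
 (.cons (nat_lit 5040) (nat_lit 1693) (nat_lit 2521) (nat_lit 1) .nil)), (nat_lit 4), (nat_lit 0), (nat_lit 0),
 (nat_lit 0), (33, 2, 8), [6258, 3632], 0⟩,
  ⟨⟨21, -4, 28, -8, 35, 14, 32, 8, -19⟩, (.cons (nat_lit 28560) (nat_lit 11990) (nat_lit 20481) (nat_lit 1)
 (.cons (nat_lit 5040) (nat_lit 4220) (nat_lit 3859) (nat_lit 1) .nil)), (nat_lit 5), (nat_lit 0), (nat_lit 0),
 (nat_lit 0), (15, 26, 7), [17942, 3649], 0⟩,
  mz,
  ⟨⟨-1, -24, -36, 30, 17, -30, -18, 12, -19⟩, (.cons (nat_lit 25228) (nat_lit 20210) (nat_lit 7389) (nat_lit 1)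
 (.cons (nat_lit 4161) (nat_lit 5018) (nat_lit 1759) (nat_lit 1) .nil)), (nat_lit 10), (nat_lit 0), (nat_lit
 0), (nat_lit 0), (13, 17, 12), [13352, 2582], 0⟩,
  ⟨⟨-35, 12, -1, 12, 35, -6, 0, 0, -37⟩, (.cons (nat_lit 7774) (nat_lit 28194) (nat_lit 1) (nat_lit 20787)
 (.cons (nat_lit 5040) (nat_lit 4854) (nat_lit 1182) (nat_lit 1) .nil)), (nat_lit 8), (nat_lit 0), (nat_lit 0),
 (nat_lit 0), (3, 18, 0), [13579, 1719], 0⟩,
  mz,
  ⟨⟨-1, 24, -36, -30, 17, 30, -18, -12, -19⟩, (.cons (nat_lit 23171) (nat_lit 246) (nat_lit 12676) (nat_lit 1)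
 (.cons (nat_lit 464) (nat_lit 590) (nat_lit 466) (nat_lit 1) .nil)), (nat_lit 7), (nat_lit 0), (nat_lit 0),
 (nat_lit 0), (10, 4, 32), [18576, 3038], 0⟩,
  ⟨⟨27, -4, 20, 10, -33, -20, 30, 12, -23⟩, (.cons (nat_lit 5928) (nat_lit 28192) (nat_lit 26908) (nat_lit 1)
 (.cons (nat_lit 2642) (nat_lit 2625) (nat_lit 4880) (nat_lit 1) .nil)), (nat_lit 1), (nat_lit 0), (nat_lit 0),
 (nat_lit 0), (22, 15, 8), [14190, 1918], 0⟩,
  ⟨⟨-25, -24, -11, -10, -17, 40, 14, -28, -19⟩, (.cons (nat_lit 23127) (nat_lit 8802) (nat_lit 23703) (nat_lit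
 1) (.cons (nat_lit 2864) (nat_lit 3988) (nat_lit 1474) (nat_lit 1) .nil)), (nat_lit 30), (nat_lit 0), (nat_lit
 0), (nat_lit 0), (29, 19, 3), [13434, 3492], 0⟩,
  ⟨⟨-31, 24, 27, 8, -5, 36, 8, 32, -1⟩, (.cons (nat_lit 28560) (nat_lit 24564) (nat_lit 1638) (nat_lit 1)
 (.cons (nat_lit 5040) (nat_lit 3231) (nat_lit 502) (nat_lit 1) .nil)), (nat_lit 13), (nat_lit 0), (nat_lit 0),
 (nat_lit 0), (26, 10, 10), [16304, 474], 0⟩,
  mz,
  ⟨⟨-3, 40, 8, -32, -5, 36, -16, 16, -19⟩, (.cons (nat_lit 14874) (nat_lit 22530) (nat_lit 14700) (nat_lit 1)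
 (.cons (nat_lit 1691) (nat_lit 4694) (nat_lit 2524) (nat_lit 1) .nil)), (nat_lit 21), (nat_lit 0), (nat_lit
 0), (nat_lit 0), (27, 29, 33), [19393, 878], 0⟩,
  ⟨⟨21, 4, -49, -8, -35, -6, 32, -8, -13⟩, (.cons (nat_lit 6222) (nat_lit 5297) (nat_lit 1543) (nat_lit 1)
 (.cons (nat_lit 4998) (nat_lit 1104) (nat_lit 400) (nat_lit 1) .nil)), (nat_lit 5), (nat_lit 0), (nat_lit 0),
 (nat_lit 0), (36, 18, 2), [5433, 2910], 0⟩,
  ⟨⟨39, -8, -11, 8, 5, -44, 8, -32, -7⟩, (.cons (nat_lit 28560) (nat_lit 12537) (nat_lit 2844) (nat_lit 1)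
 (.cons (nat_lit 5040) (nat_lit 1374) (nat_lit 3884) (nat_lit 1) .nil)), (nat_lit 17), (nat_lit 0), (nat_lit
 0), (nat_lit 0), (5, 20, 20), [10883, 3900], 0⟩,
  ⟨⟨39, 4, -8, -10, 17, 40, 14, 28, -19⟩, (.cons (nat_lit 28560) (nat_lit 12444) (nat_lit 25026) (nat_lit 1)
 (.cons (nat_lit 5040) (nat_lit 458) (nat_lit 3453) (nat_lit 1) .nil)), (nat_lit 18), (nat_lit 0), (nat_lit 0),
 (nat_lit 0), (29, 3, 18), [21325, 3688], 0⟩,
  ⟨⟨39, -8, -28, -8, -5, -36, 8, -32, -1⟩, (.cons (nat_lit 20653) (nat_lit 14980) (nat_lit 22274) (nat_lit 1)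
 (.cons (nat_lit 2033) (nat_lit 592) (nat_lit 4606) (nat_lit 1) .nil)), (nat_lit 22), (nat_lit 0), (nat_lit 0),
 (nat_lit 0), (22, 23, 14), [16293, 4685], 0⟩,
  ⟨⟨25, -24, -36, -10, 17, -30, -14, -28, -5⟩, (.cons (nat_lit 28560) (nat_lit 10020) (nat_lit 3054) (nat_lit
 1) (.cons (nat_lit 5040) (nat_lit 4057) (nat_lit 3907) (nat_lit 1) .nil)), (nat_lit 20), (nat_lit 0), (nat_lit
 0), (nat_lit 0), (21, 36, 6), [24835, 919], 0⟩,
  ⟨⟨13, -24, -40, -32, 5, -4, 16, 16, -35⟩, (.cons (nat_lit 20131) (nat_lit 9748) (nat_lit 6128) (nat_lit 1)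
 (.cons (nat_lit 2510) (nat_lit 81) (nat_lit 400) (nat_lit 1) .nil)), (nat_lit 33), (nat_lit 0), (nat_lit 0),
 (nat_lit 0), (27, 36, 19), [1279, 3090], 0⟩,
  ⟨⟨39, 8, -11, 8, -5, -44, 8, 32, -7⟩, (.cons (nat_lit 15646) (nat_lit 5008) (nat_lit 21986) (nat_lit 1)
 (.cons (nat_lit 1000) (nat_lit 4503) (nat_lit 4541) (nat_lit 1) .nil)), (nat_lit 17), (nat_lit 0), (nat_lit
 0), (nat_lit 0), (4, 16, 16), [2305, 4688], 0⟩,
  mz,
  ⟨⟨3, -40, 5, -32, -5, -4, 16, -16, -35⟩, (.cons (nat_lit 28560) (nat_lit 17638) (nat_lit 8554) (nat_lit 1)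
 (.cons (nat_lit 5040) (nat_lit 196) (nat_lit 211) (nat_lit 1) .nil)), (nat_lit 24), (nat_lit 0), (nat_lit 0),
 (nat_lit 0), (34, 32, 21), [27055, 2255], 0⟩,
  ⟨⟨17, -36, 0, 30, 17, 0, 18, -12, -37⟩, (.cons (nat_lit 6635) (nat_lit 24658) (nat_lit 24618) (nat_lit 1)
 (.cons (nat_lit 890) (nat_lit 3480) (nat_lit 525) (nat_lit 1) .nil)), (nat_lit 36), (nat_lit 0), (nat_lit 0),
 (nat_lit 0), (21, 24, 7), [3470, 1547], 0⟩,
  ⟨⟨27, -4, -47, -10, 33, -10, 30, 12, -7⟩, (.cons (nat_lit 24781) (nat_lit 20803) (nat_lit 26428) (nat_lit 1)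
 (.cons (nat_lit 3288) (nat_lit 557) (nat_lit 412) (nat_lit 1) .nil)), (nat_lit 11), (nat_lit 0), (nat_lit 0),
 (nat_lit 0), (15, 15, 29), [24545, 3849], 0⟩,
  ⟨⟨27, 4, -47, 10, 33, 10, 30, -12, -7⟩, (.cons (nat_lit 19429) (nat_lit 19830) (nat_lit 1736) (nat_lit 1)
 (.cons (nat_lit 3951) (nat_lit 4448) (nat_lit 1272) (nat_lit 1) .nil)), (nat_lit 1), (nat_lit 0), (nat_lit 0),
 (nat_lit 0), (33, 4, 12), [19205, 1974], 0⟩,
  mz,
  ⟨⟨-35, -12, -1, -12, 35, 6, 0, 0, -37⟩, (.cons (nat_lit 28560) (nat_lit 3941) (nat_lit 12358) (nat_lit 1)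
 (.cons (nat_lit 5040) (nat_lit 4279) (nat_lit 3600) (nat_lit 1) .nil)), (nat_lit 29), (nat_lit 0), (nat_lit
 0), (nat_lit 0), (23, 10, 0), [21211, 2869], 0⟩,
  ⟨⟨-39, 4, 31, -10, -17, -30, -14, 28, -5⟩, (.cons (nat_lit 13575) (nat_lit 12074) (nat_lit 1) (nat_lit 6513)
 (.cons (nat_lit 4476) (nat_lit 4934) (nat_lit 1045) (nat_lit 1) .nil)), (nat_lit 12), (nat_lit 0), (nat_lit
 0), (nat_lit 0), (3, 15, 21), [21066, 2247], 0⟩,
  mz,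
  mz,
  ⟨⟨-3, -40, 8, 32, -5, -36, -16, -16, -19⟩, (.cons (nat_lit 288) (nat_lit 20978) (nat_lit 23794) (nat_lit 1)
 (.cons (nat_lit 2046) (nat_lit 3180) (nat_lit 2734) (nat_lit 1) .nil)), (nat_lit 24), (nat_lit 0), (nat_lit
 0), (nat_lit 0), (32, 4, 35), [16793, 1020], 0⟩,
  mz,
  ⟨⟨21, -4, -49, -8, 35, -6, 32, 8, -13⟩, (.cons (nat_lit 13942) (nat_lit 21361) (nat_lit 21016) (nat_lit 1)
 (.cons (nat_lit 3188) (nat_lit 2005) (nat_lit 112) (nat_lit 1) .nil)), (nat_lit 5), (nat_lit 0), (nat_lit 0),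
 (nat_lit 0), (18, 9, 1), [22692, 861], 0⟩,
  ⟨⟨17, 36, 0, -30, 17, 0, 18, 12, -37⟩, (.cons (nat_lit 749) (nat_lit 10125) (nat_lit 11524) (nat_lit 1)
 (.cons (nat_lit 2883) (nat_lit 3791) (nat_lit 3766) (nat_lit 1) .nil)), (nat_lit 25), (nat_lit 0), (nat_lit
 0), (nat_lit 0), (35, 34, 24), [12832, 3363], 0⟩]

/-- All the moves. -/
noncomputable def tabs : List (List (List Mv)) := [[[], [], t0_2, [], t0_4, t0_5], [[], [], t1_2, [], t1_4, t1_5], [], [], [[], [], t4_2, [], t4_4, t4_5]]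

/-- Subtrie. -/
noncomputable def T2 : Tr := (.ev (nat_lit 20) (nat_lit 77980505248) (.nd (nat_lit 33) (.br (nat_lit 39) (.br
 (nat_lit 19) (.br (nat_lit 8) (.br (nat_lit 4) (.br (nat_lit 3) (.ch (nat_lit 1) (.ev (nat_lit 52) (nat_lit
 69599248) (.ev (nat_lit 244) (nat_lit 32768) (.ev (nat_lit 436) (nat_lit 1048576) (.ev (nat_lit 564) (nat_lit
 2048) (.ev (nat_lit 1204) (nat_lit 2) (.nd (nat_lit 1408) (.br (nat_lit 6) (.br (nat_lit 4) (.ch (nat_lit 1)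
 (.ev (nat_lit 1424) (nat_lit 21495808) (.nd (nat_lit 1664) (.br (nat_lit 8) (.br (nat_lit 1) (.ch (nat_lit 0)
 (.ev (nat_lit 1680) (nat_lit 33620224) (.ev (nat_lit 1716) (nat_lit 8192) (.ev (nat_lit 2052) (nat_lit
 34359738368) (.ev (nat_lit 2061) (nat_lit 1073741824) .dd))))) (.br (nat_lit 3) (.ch (nat_lit 1) (.ev (nat_lit
 1680) (nat_lit 73984) (.ev (nat_lit 2852) (nat_lit 34359738368) (.fin (nat_lit 576342555093320612))))) (.ch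
 (nat_lit 3) (.ev (nat_lit 1716) (nat_lit 256) (.ev (nat_lit 2656) (nat_lit 8192) (.ev (nat_lit 3072) (nat_lit
 65536) (.ev (nat_lit 3108) (nat_lit 33554432) (.fin (nat_lit 576663612121629360))))))))) (.br (nat_lit 9) (.ch
 (nat_lit 8) (.ev (nat_lit 1680) (nat_lit 35467034624) (.ev (nat_lit 1728) (nat_lit 65536) (.ev (nat_lit 2180)
 (nat_lit 256) (.ev (nat_lit 2189) (nat_lit 8192) .dd))))) (.br (nat_lit 12) (.ch (nat_lit 9) (.ev (nat_lit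
 1680) (nat_lit 35467108352) (.ev (nat_lit 1693) (nat_lit 256) .dd))) (.ch (nat_lit 12) (.ev (nat_lit 1680)
 (nat_lit 34359746816) (.ev (nat_lit 1892) (nat_lit 65536) (.ev (nat_lit 2052) (nat_lit 33554432) (.ev (nat_lit
 2061) (nat_lit 1073741824) .dd))))))))))) (.br (nat_lit 5) (.ch (nat_lit 4) (.ev (nat_lit 1424) (nat_lit
 34364522496) (.nd (nat_lit 1664) (.br (nat_lit 9) (.br (nat_lit 5) (.ch (nat_lit 4) (.ev (nat_lit 1680)
 (nat_lit 50340096) (.ev (nat_lit 1693) (nat_lit 1073741824) .dd))) (.br (nat_lit 8) (.ch (nat_lit 5) (.ev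
 (nat_lit 1680) (nat_lit 1107296512) (.ev (nat_lit 2256) (nat_lit 8192) (.ev (nat_lit 2269) (nat_lit 16777216)
 .dd)))) (.ch (nat_lit 8) (.ev (nat_lit 1680) (nat_lit 50339840) (.ev (nat_lit 1716) (nat_lit 256) (.ev
 (nat_lit 1725) (nat_lit 1073741824) .dd)))))) (.br (nat_lit 11) (.ch (nat_lit 9) (.ev (nat_lit 1680) (nat_lit
 1124073728) (.ev (nat_lit 1693) (nat_lit 8192) .dd))) (.br (nat_lit 12) (.ch (nat_lit 11) (.ev (nat_lit 1680)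
 (nat_lit 1090519040) (.ev (nat_lit 1716) (nat_lit 33554432) (.ev (nat_lit 1744) (nat_lit 256) (.ev (nat_lit
 1757) (nat_lit 8192) .dd))))) (.ch (nat_lit 12) (.ev (nat_lit 1680) (nat_lit 1090519040) (.ev (nat_lit 1716)
 (nat_lit 33554688) (.ev (nat_lit 1725) (nat_lit 8192) .dd)))))))))) (.ch (nat_lit 5) (.ev (nat_lit 1424)
 (nat_lit 35437748480) (.nd (nat_lit 1664) (.br (nat_lit 10) (.br (nat_lit 2) (.ch (nat_lit 0) (.ev (nat_lit
 1680) (nat_lit 34078720) (.ev (nat_lit 1693) (nat_lit 16777216) .dd))) (.br (nat_lit 4) (.ch (nat_lit 2) (.ev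
 (nat_lit 1680) (nat_lit 17301504) (.ev (nat_lit 1693) (nat_lit 33554432) .dd))) (.ch (nat_lit 4) (.ev (nat_lit
 1680) (nat_lit 50855936) .dd)))) (.br (nat_lit 11) (.ch (nat_lit 10) (.ev (nat_lit 1680) (nat_lit 50331648)
 (.ev (nat_lit 1693) (nat_lit 524288) .dd))) (.br (nat_lit 12) (.ch (nat_lit 11) (.ev (nat_lit 1680) (nat_lit
 16777216) (.ev (nat_lit 1716) (nat_lit 524288) (.ev (nat_lit 1725) (nat_lit 33554432) .dd)))) (.ch (nat_lit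
 12) (.ev (nat_lit 1716) (nat_lit 50331648) (.ev (nat_lit 1725) (nat_lit 524288) .dd))))))))))) (.br (nat_lit
 9) (.ch (nat_lit 6) (.ev (nat_lit 1424) (nat_lit 35467108608) (.nd (nat_lit 1664) (.br (nat_lit 6) (.br
 (nat_lit 3) (.ch (nat_lit 1) (.ev (nat_lit 1680) (nat_lit 16777216) (.ev (nat_lit 2180) (nat_lit 524288) (.ev
 (nat_lit 2189) (nat_lit 4194304) .dd)))) (.br (nat_lit 4) (.ch (nat_lit 3) (.ev (nat_lit 1680) (nat_lit
 4718592) (.ev (nat_lit 1693) (nat_lit 16777216) .dd))) (.ch (nat_lit 4) (.ev (nat_lit 1680) (nat_lit 20971520)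
 (.ev (nat_lit 1693) (nat_lit 524288) .dd))))) (.br (nat_lit 9) (.ch (nat_lit 6) (.ev (nat_lit 1680) (nat_lit
 17301504) (.ev (nat_lit 1693) (nat_lit 4194304) .dd))) (.br (nat_lit 11) (.ch (nat_lit 9) (.ev (nat_lit 1680)
 (nat_lit 20971520) (.ev (nat_lit 1693) (nat_lit 524288) .dd))) (.ch (nat_lit 11) (.ev (nat_lit 1680) (nat_lit
 4718592) (.ev (nat_lit 1693) (nat_lit 16777216) .dd))))))))) (.br (nat_lit 12) (.ch (nat_lit 9) (.ev (nat_lit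
 1424) (nat_lit 35438264576) (.nd (nat_lit 1664) (.br (nat_lit 9) (.br (nat_lit 5) (.ch (nat_lit 0) (.ev
 (nat_lit 1680) (nat_lit 8192) (.ev (nat_lit 2180) (nat_lit 16777216) (.ev (nat_lit 2189) (nat_lit 33554432)
 .dd)))) (.ch (nat_lit 5) (.ev (nat_lit 1680) (nat_lit 16777216) (.ev (nat_lit 2180) (nat_lit 8192) (.ev
 (nat_lit 2189) (nat_lit 33554432) .dd))))) (.br (nat_lit 10) (.ch (nat_lit 9) (.ev (nat_lit 1680) (nat_lit
 16777216) (.ev (nat_lit 1716) (nat_lit 8192) (.ev (nat_lit 1725) (nat_lit 33554432) .dd)))) (.br (nat_lit 11)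
 (.ch (nat_lit 10) (.ev (nat_lit 1680) (nat_lit 33562624) (.ev (nat_lit 1693) (nat_lit 16777216) .dd))) (.ch
 (nat_lit 11) (.ev (nat_lit 1680) (nat_lit 33554432) (.fin (nat_lit 576500884465730150)))))))))) (.ch (nat_lit
 12) (.ev (nat_lit 1424) (nat_lit 1112088832) (.nd (nat_lit 1664) (.br (nat_lit 11) (.br (nat_lit 9) (.ch
 (nat_lit 4) (.ev (nat_lit 1680) (nat_lit 16777216) (.ev (nat_lit 1693) (nat_lit 34359738368) .dd))) (.ch
 (nat_lit 9) (.ev (nat_lit 1680) (nat_lit 16777216) (.ev (nat_lit 1693) (nat_lit 34359738368) .dd)))) (.br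
 (nat_lit 12) (.ch (nat_lit 11) (.ev (nat_lit 1680) (nat_lit 16777216) (.ev (nat_lit 1693) (nat_lit
 34359738368) .dd))) (.ch (nat_lit 12) (.ev (nat_lit 1728) (nat_lit 16777216) (.ev (nat_lit 1741) (nat_lit
 34359738368) .dd)))))))))))))))))) (.ch (nat_lit 3) (.ev (nat_lit 52) (nat_lit 69730320) (.ev (nat_lit 192)
 (nat_lit 35489556738) .dd)))) (.br (nat_lit 5) (.ch (nat_lit 4) (.ev (nat_lit 52) (nat_lit 34426857488) (.ev
 (nat_lit 320) (nat_lit 1132429570) .dd))) (.br (nat_lit 7) (.ch (nat_lit 5) (.ev (nat_lit 52) (nat_lit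
 67993858) (.ev (nat_lit 948) (nat_lit 1073741824) (.nd (nat_lit 1408) (.br (nat_lit 5) (.br (nat_lit 1) (.ch
 (nat_lit 0) (.ev (nat_lit 1424) (nat_lit 34381889552) (.nd (nat_lit 1664) (.br (nat_lit 6) (.br (nat_lit 2)
 (.ch (nat_lit 0) (.ev (nat_lit 1680) (nat_lit 33556480) (.ev (nat_lit 1744) (nat_lit 2105344) .dd))) (.br
 (nat_lit 5) (.ch (nat_lit 2) (.ev (nat_lit 1680) (nat_lit 8192) (.ev (nat_lit 2768) (nat_lit 33554432) (.nd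
 (nat_lit 3456) (.br (nat_lit 10) (.ch (nat_lit 8) (.ev (nat_lit 3472) (nat_lit 2097152) (.ev (nat_lit 3485)
 (nat_lit 2048) .dd))) (.ch (nat_lit 10) (.fin (nat_lit 576588845593084568)))))))) (.ch (nat_lit 5) (.ev
 (nat_lit 1680) (nat_lit 2097152) (.ev (nat_lit 1728) (nat_lit 2048) (.ev (nat_lit 2340) (nat_lit 8192) (.ev
 (nat_lit 2349) (nat_lit 33554432) .dd))))))) (.br (nat_lit 7) (.ch (nat_lit 6) (.ev (nat_lit 1680) (nat_lit
 35653632) (.ev (nat_lit 1693) (nat_lit 8192) .dd))) (.br (nat_lit 10) (.ch (nat_lit 7) (.ev (nat_lit 1680)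
 (nat_lit 35653632) (.ev (nat_lit 1693) (nat_lit 8192) .dd))) (.ch (nat_lit 10) (.ev (nat_lit 1680) (nat_lit
 2099200) (.ev (nat_lit 2340) (nat_lit 33554432) (.ev (nat_lit 2349) (nat_lit 8192) .dd)))))))))) (.br (nat_lit
 2) (.ch (nat_lit 1) (.ev (nat_lit 1424) (nat_lit 17956880) (.nd (nat_lit 1664) (.br (nat_lit 9) (.br (nat_lit
 3) (.ch (nat_lit 1) (.ev (nat_lit 1680) (nat_lit 4194304) (.ev (nat_lit 2064) (nat_lit 34359738368) (.ev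
 (nat_lit 2180) (nat_lit 33556480) (.ev (nat_lit 2496) (nat_lit 2097152) (.ev (nat_lit 2509) (nat_lit 8192)
 .dd)))))) (.br (nat_lit 8) (.ch (nat_lit 3) (.ev (nat_lit 1680) (nat_lit 35653632) (.ev (nat_lit 2052)
 (nat_lit 4194304) (.ev (nat_lit 2528) (nat_lit 34359738368) (.ev (nat_lit 2541) (nat_lit 8192) .dd))))) (.ch
 (nat_lit 8) (.ev (nat_lit 1680) (nat_lit 34399594496) .dd)))) (.br (nat_lit 10) (.ch (nat_lit 9) (.ev (nat_lit
 1680) (nat_lit 34363940864) (.ev (nat_lit 1892) (nat_lit 2048) (.ev (nat_lit 2180) (nat_lit 2097152) (.ev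
 (nat_lit 2189) (nat_lit 33554432) .dd))))) (.br (nat_lit 12) (.ch (nat_lit 10) (.ev (nat_lit 1680) (nat_lit
 33554432) (.ev (nat_lit 2052) (nat_lit 2048) (.ev (nat_lit 2096) (nat_lit 4194304) (.ev (nat_lit 3220)
 (nat_lit 34361835520) (.ev (nat_lit 3229) (nat_lit 8192) .dd)))))) (.ch (nat_lit 12) (.ev (nat_lit 1680)
 (nat_lit 34361843712) (.ev (nat_lit 1840) (nat_lit 33554432) (.ev (nat_lit 1892) (nat_lit 4194304) (.ev
 (nat_lit 1901) (nat_lit 2048) .dd))))))))))) (.ch (nat_lit 2) (.ev (nat_lit 1424) (nat_lit 34395529216) (.ev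
 (nat_lit 1460) (nat_lit 16) (.nd (nat_lit 1664) (.br (nat_lit 4) (.br (nat_lit 1) (.ch (nat_lit 0) (.ev
 (nat_lit 1680) (nat_lit 2048) (.ev (nat_lit 2052) (nat_lit 1048576) (.ev (nat_lit 2180) (nat_lit 16777216)
 (.ev (nat_lit 2189) (nat_lit 4194304) .dd))))) (.br (nat_lit 3) (.ch (nat_lit 1) (.ev (nat_lit 1680) (nat_lit
 5244928) (.ev (nat_lit 1693) (nat_lit 16777216) .dd))) (.ch (nat_lit 3) (.ev (nat_lit 1680) (nat_lit 1048576)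
 (.ev (nat_lit 1716) (nat_lit 4194304) (.ev (nat_lit 1776) (nat_lit 16777216) (.ev (nat_lit 1789) (nat_lit
 2048) .dd))))))) (.br (nat_lit 7) (.ch (nat_lit 4) (.ev (nat_lit 1680) (nat_lit 22020096) (.ev (nat_lit 1693)
 (nat_lit 2048) .dd))) (.br (nat_lit 10) (.ch (nat_lit 7) (.ev (nat_lit 1680) (nat_lit 5242880) (.ev (nat_lit
 2052) (nat_lit 2048) (.ev (nat_lit 2061) (nat_lit 16777216) .dd)))) (.ch (nat_lit 10) (.ev (nat_lit 1680)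
 (nat_lit 17827840) (.ev (nat_lit 1693) (nat_lit 4194304) .dd)))))))))))) (.br (nat_lit 10) (.ch (nat_lit 5)
 (.ev (nat_lit 1424) (nat_lit 34367211536) (.nd (nat_lit 1664) (.br (nat_lit 10) (.br (nat_lit 8) (.ch (nat_lit
 0) (.ev (nat_lit 1680) (nat_lit 16777216) (.ev (nat_lit 1716) (nat_lit 33554432) (.ev (nat_lit 1725) (nat_lit
 8192) .dd)))) (.br (nat_lit 9) (.ch (nat_lit 8) (.ev (nat_lit 1680) (nat_lit 33562624) (.ev (nat_lit 1693)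
 (nat_lit 16777216) .dd))) (.ch (nat_lit 9) (.ev (nat_lit 1680) (nat_lit 33554432) (.ev (nat_lit 2484) (nat_lit
 16777216) (.ev (nat_lit 2493) (nat_lit 8192) .dd)))))) (.br (nat_lit 11) (.ch (nat_lit 10) (.ev (nat_lit 1680)
 (nat_lit 50331648) (.ev (nat_lit 1693) (nat_lit 8192) .dd))) (.br (nat_lit 12) (.ch (nat_lit 11) (.ev (nat_lit
 1680) (nat_lit 8192) (.ev (nat_lit 2112) (nat_lit 50331648) .dd))) (.ch (nat_lit 12) (.ev (nat_lit 1680)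
 (nat_lit 16785408) (.ev (nat_lit 1693) (nat_lit 33554432) .dd))))))))) (.br (nat_lit 12) (.ch (nat_lit 10)
 (.ev (nat_lit 1424) (nat_lit 52428816) (.nd (nat_lit 1664) (.br (nat_lit 7) (.br (nat_lit 5) (.ch (nat_lit 0)
 (.ev (nat_lit 1680) (nat_lit 34360918016) (.ev (nat_lit 1728) (nat_lit 8192) (.ev (nat_lit 2180) (nat_lit
 4194304) (.ev (nat_lit 2189) (nat_lit 2048) .dd))))) (.br (nat_lit 6) (.ch (nat_lit 5) (.ev (nat_lit 1680)
 (nat_lit 34363940864) (.ev (nat_lit 1696) (nat_lit 2048) (.ev (nat_lit 1892) (nat_lit 1048576) (.ev (nat_lit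
 1901) (nat_lit 131072) .dd))))) (.ch (nat_lit 6) (.ev (nat_lit 1680) (nat_lit 34360926208) (.fin (nat_lit
 576465700154458678)))))) (.br (nat_lit 9) (.ch (nat_lit 7) (.ev (nat_lit 1680) (nat_lit 5382144) (.ev (nat_lit
 1716) (nat_lit 2048) (.ev (nat_lit 1725) (nat_lit 34359738368) .dd)))) (.br (nat_lit 12) (.ch (nat_lit 9) (.ev
 (nat_lit 1680) (nat_lit 34364071936) (.ev (nat_lit 1716) (nat_lit 2048) (.ev (nat_lit 1725) (nat_lit 1048576)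
 .dd)))) (.ch (nat_lit 12) (.ev (nat_lit 1680) (nat_lit 1181696) (.ev (nat_lit 2180) (nat_lit 34359746560) (.ev
 (nat_lit 2189) (nat_lit 4194304) .dd)))))))))) (.ch (nat_lit 12) (.ev (nat_lit 1424) (nat_lit 1189888) (.nd
 (nat_lit 1664) (.br (nat_lit 4) (.br (nat_lit 1) (.ch (nat_lit 0) (.ev (nat_lit 1680) (nat_lit 50331664) (.ev
 (nat_lit 1744) (nat_lit 2097152) (.fin (nat_lit 576777961718891476))))) (.ch (nat_lit 1) (.ev (nat_lit 1680)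
 (nat_lit 20971520) (.ev (nat_lit 1744) (nat_lit 34359738368) (.ev (nat_lit 1892) (nat_lit 33554432) (.ev
 (nat_lit 2052) (nat_lit 16) (.ev (nat_lit 2061) (nat_lit 2097152) .dd))))))) (.br (nat_lit 7) (.ch (nat_lit 4)
 (.ev (nat_lit 1680) (nat_lit 34393292816) (.ev (nat_lit 1696) (nat_lit 2097152) (.ev (nat_lit 1716) (nat_lit
 4194304) (.ev (nat_lit 1725) (nat_lit 16777216) .dd))))) (.br (nat_lit 10) (.ch (nat_lit 7) (.ev (nat_lit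
 1680) (nat_lit 34414264320) (.ev (nat_lit 2340) (nat_lit 16) (.ev (nat_lit 2349) (nat_lit 2097152) .dd))))
 (.ch (nat_lit 10) (.ev (nat_lit 1680) (nat_lit 23068688) (.ev (nat_lit 1728) (nat_lit 34359738368) (.ev
 (nat_lit 1741) (nat_lit 33554432) .dd))))))))))))))))) (.ch (nat_lit 7) (.ev (nat_lit 52) (nat_lit
 35534735362) (.ev (nat_lit 84) (nat_lit 262144) (.ev (nat_lit 788) (nat_lit 131072) (.ev (nat_lit 884)
 (nat_lit 8192) (.nd (nat_lit 1408) (.br (nat_lit 6) (.br (nat_lit 1) (.ch (nat_lit 0) (.ev (nat_lit 1424)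
 (nat_lit 23101456) (.nd (nat_lit 1664) (.br (nat_lit 7) (.br (nat_lit 5) (.ch (nat_lit 2) (.ev (nat_lit 1680)
 (nat_lit 1048832) .dd)) (.ch (nat_lit 5) (.ev (nat_lit 1680) (nat_lit 1048576) (.ev (nat_lit 1693) (nat_lit
 256) .dd)))) (.br (nat_lit 10) (.ch (nat_lit 7) (.ev (nat_lit 1680) (nat_lit 256) (.ev (nat_lit 1693) (nat_lit
 1048576) .dd))) (.ch (nat_lit 10) (.ev (nat_lit 1680) (nat_lit 1048832) .dd))))))) (.br (nat_lit 2) (.ch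
 (nat_lit 1) (.ev (nat_lit 1424) (nat_lit 22020112) (.nd (nat_lit 1664) (.br (nat_lit 6) (.br (nat_lit 3) (.ch
 (nat_lit 0) (.ev (nat_lit 1680) (nat_lit 33024) (.ev (nat_lit 1693) (nat_lit 2097152) .dd))) (.ch (nat_lit 3)
 (.ev (nat_lit 1680) (nat_lit 2129920) (.ev (nat_lit 1693) (nat_lit 256) .dd)))) (.br (nat_lit 8) (.ch (nat_lit
 6) (.ev (nat_lit 1680) (nat_lit 2130176) .dd)) (.br (nat_lit 12) (.ch (nat_lit 8) (.ev (nat_lit 1680) (nat_lit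
 256) (.ev (nat_lit 1728) (nat_lit 2129920) .dd))) (.ch (nat_lit 12) (.ev (nat_lit 1680) (nat_lit 2129920) (.ev
 (nat_lit 1693) (nat_lit 256) .dd))))))))) (.ch (nat_lit 2) (.ev (nat_lit 1424) (nat_lit 7372800) (.nd (nat_lit
 1664) (.br (nat_lit 6) (.br (nat_lit 5) (.ch (nat_lit 4) (.ev (nat_lit 1680) (nat_lit 16) (.ev (nat_lit 1716)
 (nat_lit 16777216) (.ev (nat_lit 1725) (nat_lit 256) .dd)))) (.ch (nat_lit 5) (.ev (nat_lit 1680) (nat_lit 16)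
 (.ev (nat_lit 1716) (nat_lit 16777216) (.ev (nat_lit 1725) (nat_lit 256) .dd))))) (.br (nat_lit 7) (.ch
 (nat_lit 6) (.ev (nat_lit 1680) (nat_lit 16777232) (.ev (nat_lit 1693) (nat_lit 256) .dd))) (.ch (nat_lit 7)
 (.ev (nat_lit 1904) (nat_lit 16) (.ev (nat_lit 1936) (nat_lit 256) (.ev (nat_lit 1949) (nat_lit 16777216)
 .dd))))))))))) (.br (nat_lit 10) (.br (nat_lit 9) (.ch (nat_lit 6) (.ev (nat_lit 1424) (nat_lit 16777472) (.nd
 (nat_lit 1664) (.br (nat_lit 10) (.br (nat_lit 3) (.ch (nat_lit 1) (.ev (nat_lit 1680) (nat_lit 32768) (.ev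
 (nat_lit 1716) (nat_lit 4194304) (.ev (nat_lit 2052) (nat_lit 16) (.ev (nat_lit 2340) (nat_lit 1048576) (.ev
 (nat_lit 2349) (nat_lit 2097152) .dd)))))) (.br (nat_lit 9) (.ch (nat_lit 3) (.ev (nat_lit 1680) (nat_lit
 4227072) (.ev (nat_lit 1716) (nat_lit 2097152) (.ev (nat_lit 2052) (nat_lit 1048576) (.ev (nat_lit 2061)
 (nat_lit 16) .dd))))) (.ch (nat_lit 9) (.ev (nat_lit 1680) (nat_lit 5242896) (.ev (nat_lit 1716) (nat_lit
 32768) (.ev (nat_lit 1725) (nat_lit 2097152) .dd)))))) (.br (nat_lit 11) (.ch (nat_lit 10) (.ev (nat_lit 1680)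
 (nat_lit 32784) (.ev (nat_lit 1892) (nat_lit 2097152) (.ev (nat_lit 2016) (nat_lit 4194304) (.ev (nat_lit
 2029) (nat_lit 1048576) .dd))))) (.br (nat_lit 12) (.ch (nat_lit 11) (.ev (nat_lit 1680) (nat_lit 3145744)
 (.ev (nat_lit 1716) (nat_lit 32768) (.ev (nat_lit 1725) (nat_lit 4194304) .dd)))) (.ch (nat_lit 12) (.ev
 (nat_lit 1680) (nat_lit 7372800) (.ev (nat_lit 1693) (nat_lit 16) .dd))))))))) (.ch (nat_lit 9) (.ev (nat_lit
 1424) (nat_lit 22020368) (.nd (nat_lit 1664) (.br (nat_lit 9) (.br (nat_lit 6) (.ch (nat_lit 3) (.ev (nat_lit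
 1680) (nat_lit 2129920) .dd)) (.ch (nat_lit 6) (.ev (nat_lit 1716) (nat_lit 32768) (.ev (nat_lit 1725)
 (nat_lit 2097152) .dd)))) (.br (nat_lit 10) (.ch (nat_lit 9) (.ev (nat_lit 1680) (nat_lit 2097152) (.ev
 (nat_lit 1693) (nat_lit 32768) .dd))) (.br (nat_lit 11) (.ch (nat_lit 10) (.ev (nat_lit 1680) (nat_lit 32768)
 (.ev (nat_lit 1693) (nat_lit 2097152) .dd))) (.ch (nat_lit 11) (.ev (nat_lit 1680) (nat_lit 2129920)
 .dd))))))))) (.br (nat_lit 12) (.ch (nat_lit 10) (.ev (nat_lit 1424) (nat_lit 16777232) (.nd (nat_lit 1664)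
 (.br (nat_lit 8) (.br (nat_lit 6) (.ch (nat_lit 3) (.ev (nat_lit 1680) (nat_lit 2097152) (.ev (nat_lit 1716)
 (nat_lit 4194304) (.ev (nat_lit 1952) (nat_lit 1048576) (.ev (nat_lit 2112) (nat_lit 256) (.ev (nat_lit 2125)
 (nat_lit 32768) .dd)))))) (.ch (nat_lit 6) (.ev (nat_lit 1680) (nat_lit 6324480) (.ev (nat_lit 1693) (nat_lit
 1048576) .dd)))) (.br (nat_lit 9) (.ch (nat_lit 8) (.ev (nat_lit 1680) (nat_lit 6324480) (.ev (nat_lit 1693)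
 (nat_lit 1048576) .dd))) (.br (nat_lit 12) (.ch (nat_lit 9) (.ev (nat_lit 1680) (nat_lit 2097152) (.ev
 (nat_lit 2180) (nat_lit 4194304) (.ev (nat_lit 3108) (nat_lit 256) (.fin (nat_lit 576474496163594850))))))
 (.ch (nat_lit 12) (.ev (nat_lit 1680) (nat_lit 1048576) (.ev (nat_lit 1716) (nat_lit 32768) (.ev (nat_lit
 2052) (nat_lit 4194304) (.ev (nat_lit 2400) (nat_lit 2097152) (.ev (nat_lit 2413) (nat_lit 256)
 .dd)))))))))))) (.ch (nat_lit 12) (.ev (nat_lit 1424) (nat_lit 1048832) (.nd (nat_lit 1664) (.br (nat_lit 8)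
 (.br (nat_lit 7) (.ch (nat_lit 1) (.ev (nat_lit 1680) (nat_lit 16777232) (.ev (nat_lit 2340) (nat_lit 32768)
 (.ev (nat_lit 2788) (nat_lit 4194304) (.ev (nat_lit 2797) (nat_lit 2097152) .dd))))) (.ch (nat_lit 7) (.ev
 (nat_lit 1680) (nat_lit 6324224) (.ev (nat_lit 1716) (nat_lit 16) (.ev (nat_lit 1725) (nat_lit 16777216)
 .dd))))) (.br (nat_lit 10) (.ch (nat_lit 8) (.ev (nat_lit 1680) (nat_lit 16809984) (.ev (nat_lit 1952)
 (nat_lit 16) (.ev (nat_lit 2052) (nat_lit 2097152) (.ev (nat_lit 2061) (nat_lit 4194304) .dd))))) (.br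
 (nat_lit 12) (.ch (nat_lit 10) (.ev (nat_lit 1680) (nat_lit 6324224) (.fin (nat_lit 576804349536584072))))
 (.ch (nat_lit 12) (.ev (nat_lit 1680) (nat_lit 16809984) (.ev (nat_lit 2340) (nat_lit 16) (.ev (nat_lit 2548)
 (nat_lit 4194304) (.ev (nat_lit 2557) (nat_lit 2097152) .dd))))))))))))))))))))))) (.br (nat_lit 15) (.br
 (nat_lit 11) (.ch (nat_lit 8) (.ev (nat_lit 52) (nat_lit 34363474176) (.ev (nat_lit 404) (nat_lit 8192) (.ev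
 (nat_lit 724) (nat_lit 33554432) (.ev (nat_lit 1076) (nat_lit 262144) (.nd (nat_lit 1408) (.br (nat_lit 9)
 (.br (nat_lit 5) (.ch (nat_lit 0) (.ev (nat_lit 1424) (nat_lit 1094877202) (.nd (nat_lit 1664) (.br (nat_lit
 7) (.br (nat_lit 4) (.ch (nat_lit 0) (.ev (nat_lit 1680) (nat_lit 67110912) .dd)) (.br (nat_lit 6) (.ch
 (nat_lit 4) (.ev (nat_lit 1680) (nat_lit 67108864) (.ev (nat_lit 1693) (nat_lit 2048) .dd))) (.ch (nat_lit 6)
 (.ev (nat_lit 1728) (nat_lit 67110912) .dd)))) (.br (nat_lit 10) (.ch (nat_lit 7) (.ev (nat_lit 1680) (nat_lit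
 2048) (.ev (nat_lit 1693) (nat_lit 67108864) .dd))) (.br (nat_lit 12) (.ch (nat_lit 10) (.ev (nat_lit 1680)
 (nat_lit 2048) (.ev (nat_lit 1693) (nat_lit 67108864) .dd))) (.ch (nat_lit 12) (.ev (nat_lit 1680) (nat_lit
 67110912) .dd)))))))) (.br (nat_lit 6) (.ch (nat_lit 5) (.ev (nat_lit 1424) (nat_lit 1161986064) (.nd (nat_lit
 1664) (.br (nat_lit 8) (.br (nat_lit 3) (.ch (nat_lit 2) (.ev (nat_lit 1680) (nat_lit 2048) (.ev (nat_lit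
 1693) (nat_lit 2) .dd))) (.br (nat_lit 4) (.ch (nat_lit 3) (.ev (nat_lit 1680) (nat_lit 2) (.ev (nat_lit 1693)
 (nat_lit 2048) .dd))) (.ch (nat_lit 4) (.ev (nat_lit 1680) (nat_lit 2050) .dd)))) (.br (nat_lit 9) (.ch
 (nat_lit 8) (.ev (nat_lit 2052) (nat_lit 2048) (.ev (nat_lit 2061) (nat_lit 2) .dd))) (.br (nat_lit 10) (.ch
 (nat_lit 9) (.ev (nat_lit 1680) (nat_lit 2050) .dd)) (.ch (nat_lit 10) (.ev (nat_lit 1680) (nat_lit 2048) (.ev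
 (nat_lit 1693) (nat_lit 2) .dd))))))))) (.ch (nat_lit 6) (.ev (nat_lit 1424) (nat_lit 1094748160) (.nd
 (nat_lit 1664) (.br (nat_lit 6) (.br (nat_lit 3) (.ch (nat_lit 1) (.ev (nat_lit 1680) (nat_lit 67239936) (.ev
 (nat_lit 2548) (nat_lit 2) (.ev (nat_lit 2557) (nat_lit 16) .dd)))) (.ch (nat_lit 3) (.ev (nat_lit 1680)
 (nat_lit 131072) (.ev (nat_lit 1892) (nat_lit 2) (.ev (nat_lit 2180) (nat_lit 16) (.ev (nat_lit 2189) (nat_lit
 67108864) .dd)))))) (.br (nat_lit 9) (.ch (nat_lit 6) (.ev (nat_lit 1716) (nat_lit 16) (.ev (nat_lit 1904)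
 (nat_lit 67108864) (.ev (nat_lit 2052) (nat_lit 131072) (.ev (nat_lit 2061) (nat_lit 2) .dd))))) (.br (nat_lit
 10) (.ch (nat_lit 9) (.ev (nat_lit 1680) (nat_lit 131090) (.ev (nat_lit 1693) (nat_lit 67108864) .dd))) (.ch
 (nat_lit 10) (.ev (nat_lit 1680) (nat_lit 67239952) (.ev (nat_lit 1693) (nat_lit 2) .dd))))))))))) (.br
 (nat_lit 10) (.ch (nat_lit 9) (.ev (nat_lit 1424) (nat_lit 4360192) (.nd (nat_lit 1664) (.br (nat_lit 9) (.br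
 (nat_lit 5) (.ch (nat_lit 0) (.ev (nat_lit 1680) (nat_lit 1073741826) (.ev (nat_lit 1716) (nat_lit 67108864)
 (.ev (nat_lit 2368) (nat_lit 16777216) (.ev (nat_lit 2381) (nat_lit 16) .dd))))) (.br (nat_lit 6) (.ch
 (nat_lit 5) (.ev (nat_lit 1680) (nat_lit 83886096) (.ev (nat_lit 1716) (nat_lit 2) (.ev (nat_lit 1725)
 (nat_lit 1073741824) .dd)))) (.ch (nat_lit 6) (.ev (nat_lit 1680) (nat_lit 1157627906) (.ev (nat_lit 1693)
 (nat_lit 16) .dd))))) (.br (nat_lit 10) (.ch (nat_lit 9) (.ev (nat_lit 1680) (nat_lit 67108880) (.ev (nat_lit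
 1716) (nat_lit 1073741824) (.fin (nat_lit 576448107934859836))))) (.br (nat_lit 12) (.ch (nat_lit 10) (.ev
 (nat_lit 1680) (nat_lit 1157627906) (.ev (nat_lit 1693) (nat_lit 16) .dd))) (.ch (nat_lit 12) (.ev (nat_lit
 1680) (nat_lit 1073741826) (.ev (nat_lit 1716) (nat_lit 83886080) (.ev (nat_lit 1725) (nat_lit 16)
 .dd)))))))))) (.br (nat_lit 12) (.ch (nat_lit 10) (.ev (nat_lit 1424) (nat_lit 1157791762) (.nd (nat_lit 1664)
 (.br (nat_lit 7) (.br (nat_lit 2) (.ch (nat_lit 0) (.ev (nat_lit 1968) (nat_lit 4194304) (.ev (nat_lit 1981)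
 (nat_lit 2048) .dd))) (.ch (nat_lit 2) (.ev (nat_lit 1680) (nat_lit 2048) (.ev (nat_lit 1693) (nat_lit
 4194304) .dd)))) (.br (nat_lit 12) (.ch (nat_lit 7) (.ev (nat_lit 1680) (nat_lit 2048) (.ev (nat_lit 1693)
 (nat_lit 4194304) .dd))) (.ch (nat_lit 12) (.ev (nat_lit 1680) (nat_lit 2048) (.ev (nat_lit 1693) (nat_lit
 4194304) .dd)))))))) (.ch (nat_lit 12) (.ev (nat_lit 1424) (nat_lit 133122) (.nd (nat_lit 1664) (.br (nat_lit
 10) (.br (nat_lit 4) (.ch (nat_lit 1) (.ev (nat_lit 1680) (nat_lit 1145044992) (.ev (nat_lit 1716) (nat_lit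
 16777232) (.ev (nat_lit 1725) (nat_lit 32768) .dd)))) (.br (nat_lit 8) (.ch (nat_lit 4) (.ev (nat_lit 1680)
 (nat_lit 1140883456) (.ev (nat_lit 1824) (nat_lit 16777216) (.ev (nat_lit 1892) (nat_lit 16) (.ev (nat_lit
 1901) (nat_lit 4194304) .dd))))) (.ch (nat_lit 8) (.ev (nat_lit 1680) (nat_lit 83918848) (.ev (nat_lit 2352)
 (nat_lit 16) (.fin (nat_lit 576324962770960808))))))) (.br (nat_lit 11) (.ch (nat_lit 10) (.ev (nat_lit 1680)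
 (nat_lit 4227088) (.ev (nat_lit 2052) (nat_lit 16777216) (.fin (nat_lit 576364544895959092))))) (.br (nat_lit
 12) (.ch (nat_lit 11) (.ev (nat_lit 1680) (nat_lit 20971536) (.ev (nat_lit 1892) (nat_lit 67108864) (.ev
 (nat_lit 2180) (nat_lit 1073741824) (.ev (nat_lit 2189) (nat_lit 32768) .dd))))) (.ch (nat_lit 12) (.ev
 (nat_lit 1680) (nat_lit 83918848) (.ev (nat_lit 2180) (nat_lit 1073741824) (.ev (nat_lit 2644) (nat_lit
 4194304) (.ev (nat_lit 2653) (nat_lit 16) .dd)))))))))))))))))))) (.br (nat_lit 12) (.ch (nat_lit 11) (.ev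
 (nat_lit 52) (nat_lit 34377697554) (.ev (nat_lit 84) (nat_lit 67108864) (.ev (nat_lit 372) (nat_lit 65536)
 (.ev (nat_lit 724) (nat_lit 32768) (.ev (nat_lit 948) (nat_lit 33554432) (.ev (nat_lit 1248) (nat_lit
 1080827904) .dd))))))) (.ch (nat_lit 12) (.ev (nat_lit 52) (nat_lit 1157791760) (.ev (nat_lit 404) (nat_lit
 2097408) (.ev (nat_lit 692) (nat_lit 2048) (.nd (nat_lit 1408) (.br (nat_lit 6) (.br (nat_lit 2) (.ch (nat_lit
 0) (.ev (nat_lit 1424) (nat_lit 34364456962) (.nd (nat_lit 1664) (.br (nat_lit 6) (.br (nat_lit 2) (.ch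
 (nat_lit 0) (.ev (nat_lit 1680) (nat_lit 33890304) (.ev (nat_lit 1693) (nat_lit 1048576) .dd))) (.br (nat_lit
 5) (.ch (nat_lit 2) (.ev (nat_lit 1680) (nat_lit 65536) (.ev (nat_lit 1716) (nat_lit 270336) (.ev (nat_lit
 1892) (nat_lit 33554432) (.ev (nat_lit 1901) (nat_lit 1048576) .dd))))) (.ch (nat_lit 5) (.ev (nat_lit 1680)
 (nat_lit 1310720) (.ev (nat_lit 1892) (nat_lit 65536) (.ev (nat_lit 2052) (nat_lit 8192) (.ev (nat_lit 2061)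
 (nat_lit 33554432) .dd))))))) (.br (nat_lit 8) (.ch (nat_lit 6) (.ev (nat_lit 1680) (nat_lit 34930688) (.ev
 (nat_lit 1693) (nat_lit 8192) .dd))) (.br (nat_lit 12) (.ch (nat_lit 8) (.ev (nat_lit 1680) (nat_lit 33890304)
 (.ev (nat_lit 1693) (nat_lit 1048576) .dd))) (.ch (nat_lit 12) (.ev (nat_lit 1680) (nat_lit 1122304) (.ev
 (nat_lit 1728) (nat_lit 33816576) .dd))))))))) (.br (nat_lit 5) (.ch (nat_lit 2) (.ev (nat_lit 1424) (nat_lit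
 34364465154) (.nd (nat_lit 1664) (.br (nat_lit 10) (.br (nat_lit 5) (.ch (nat_lit 0) (.ev (nat_lit 1680)
 (nat_lit 33882112) (.ev (nat_lit 1693) (nat_lit 1048576) .dd))) (.ch (nat_lit 5) (.ev (nat_lit 1680) (nat_lit
 1048576) (.ev (nat_lit 2180) (nat_lit 262144) (.ev (nat_lit 2208) (nat_lit 33554432) (.ev (nat_lit 2221)
 (nat_lit 65536) .dd)))))) (.br (nat_lit 11) (.ch (nat_lit 10) (.ev (nat_lit 1680) (nat_lit 33619968) (.ev
 (nat_lit 1728) (nat_lit 262144) (.ev (nat_lit 1741) (nat_lit 1048576) .dd)))) (.ch (nat_lit 11) (.ev (nat_lit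
 1680) (nat_lit 1376256) (.ev (nat_lit 1693) (nat_lit 33554432) .dd)))))))) (.ch (nat_lit 5) (.ev (nat_lit
 1424) (nat_lit 4259840) (.nd (nat_lit 1664) (.br (nat_lit 9) (.br (nat_lit 2) (.ch (nat_lit 0) (.ev (nat_lit
 1680) (nat_lit 34340866) (.ev (nat_lit 2180) (nat_lit 1048576) (.ev (nat_lit 2340) (nat_lit 8192) (.ev
 (nat_lit 2349) (nat_lit 34359738368) .dd))))) (.br (nat_lit 8) (.ch (nat_lit 2) (.ev (nat_lit 1680) (nat_lit
 34361057280) (.ev (nat_lit 1716) (nat_lit 524290) (.ev (nat_lit 1725) (nat_lit 33554432) .dd)))) (.ch (nat_lit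
 8) (.ev (nat_lit 1680) (nat_lit 34349058) (.ev (nat_lit 1696) (nat_lit 34359738368) (.ev (nat_lit 1709)
 (nat_lit 1048576) .dd)))))) (.br (nat_lit 11) (.ch (nat_lit 9) (.ev (nat_lit 1680) (nat_lit 262146) (.ev
 (nat_lit 1716) (nat_lit 1581056) (.ev (nat_lit 1892) (nat_lit 33554432) (.ev (nat_lit 1901) (nat_lit
 34359738368) .dd))))) (.br (nat_lit 12) (.ch (nat_lit 11) (.ev (nat_lit 1680) (nat_lit 33562626) (.ev (nat_lit
 1716) (nat_lit 1048576) (.ev (nat_lit 2052) (nat_lit 524288) (.ev (nat_lit 2340) (nat_lit 34359738368) (.ev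
 (nat_lit 2349) (nat_lit 262144) .dd)))))) (.ch (nat_lit 12) (.ev (nat_lit 1680) (nat_lit 34361057280) (.ev
 (nat_lit 1716) (nat_lit 524288) (.ev (nat_lit 2180) (nat_lit 33554432) (.ev (nat_lit 2189) (nat_lit 2)
 .dd))))))))))))) (.br (nat_lit 9) (.ch (nat_lit 6) (.ev (nat_lit 1424) (nat_lit 35454976) (.nd (nat_lit 1664)
 (.br (nat_lit 7) (.br (nat_lit 4) (.ch (nat_lit 3) (.ev (nat_lit 1680) (nat_lit 8194) (.ev (nat_lit 2180)
 (nat_lit 34359738368) (.ev (nat_lit 2189) (nat_lit 4194304) .dd)))) (.br (nat_lit 6) (.ch (nat_lit 4) (.ev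
 (nat_lit 1680) (nat_lit 4194306) (.ev (nat_lit 2340) (nat_lit 8192) (.ev (nat_lit 2349) (nat_lit 34359738368)
 .dd)))) (.ch (nat_lit 6) (.ev (nat_lit 1680) (nat_lit 34363940864) (.ev (nat_lit 1693) (nat_lit 2) .dd)))))
 (.br (nat_lit 10) (.ch (nat_lit 7) (.ev (nat_lit 1680) (nat_lit 34363932672) (.ev (nat_lit 2180) (nat_lit 2)
 (.ev (nat_lit 2189) (nat_lit 8192) .dd)))) (.br (nat_lit 12) (.ch (nat_lit 10) (.ev (nat_lit 1680) (nat_lit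
 8192) (.ev (nat_lit 1716) (nat_lit 4194304) (.ev (nat_lit 1892) (nat_lit 34359738368) (.ev (nat_lit 1901)
 (nat_lit 2) .dd))))) (.ch (nat_lit 12) (.ev (nat_lit 1680) (nat_lit 34363932674) (.ev (nat_lit 1693) (nat_lit
 8192) .dd))))))))) (.br (nat_lit 12) (.ch (nat_lit 9) (.ev (nat_lit 1424) (nat_lit 34364006400) (.nd (nat_lit
 1664) (.br (nat_lit 8) (.br (nat_lit 3) (.ch (nat_lit 0) (.ev (nat_lit 1680) (nat_lit 262146) (.ev (nat_lit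
 2340) (nat_lit 1048576) (.fin (nat_lit 576588845309969168))))) (.br (nat_lit 5) (.ch (nat_lit 3) (.ev (nat_lit
 1680) (nat_lit 35127296) (.ev (nat_lit 1716) (nat_lit 2) (.ev (nat_lit 1725) (nat_lit 262144) .dd)))) (.ch
 (nat_lit 5) (.ev (nat_lit 1680) (nat_lit 33816576) (.ev (nat_lit 1904) (nat_lit 2) (.ev (nat_lit 2052)
 (nat_lit 524288) (.ev (nat_lit 2061) (nat_lit 1048576) .dd))))))) (.br (nat_lit 10) (.ch (nat_lit 8) (.ev
 (nat_lit 1680) (nat_lit 33816578) (.ev (nat_lit 2548) (nat_lit 1048576) (.ev (nat_lit 2557) (nat_lit 524288)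
 .dd)))) (.br (nat_lit 11) (.ch (nat_lit 10) (.ev (nat_lit 1680) (nat_lit 35389440) (.ev (nat_lit 1693)
 (nat_lit 2) .dd))) (.ch (nat_lit 11) (.ev (nat_lit 1680) (nat_lit 34078722) (.ev (nat_lit 2400) (nat_lit
 1310720) .dd))))))))) (.ch (nat_lit 12) (.ev (nat_lit 1424) (nat_lit 39387138) (.nd (nat_lit 1664) (.br
 (nat_lit 9) (.br (nat_lit 4) (.ch (nat_lit 0) (.ev (nat_lit 1680) (nat_lit 8192) (.ev (nat_lit 2352) (nat_lit
 34360000512) .dd))) (.br (nat_lit 7) (.ch (nat_lit 4) (.ev (nat_lit 1680) (nat_lit 270336) (.ev (nat_lit 1693)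
 (nat_lit 34359738368) .dd))) (.ch (nat_lit 7) (.ev (nat_lit 1680) (nat_lit 8192) (.ev (nat_lit 1728) (nat_lit
 34359738368) (.ev (nat_lit 1741) (nat_lit 262144) .dd)))))) (.br (nat_lit 10) (.ch (nat_lit 9) (.ev (nat_lit
 1680) (nat_lit 8192) (.fin (nat_lit 576496486429704754)))) (.br (nat_lit 11) (.ch (nat_lit 10) (.ev (nat_lit
 1680) (nat_lit 34359738368) (.ev (nat_lit 1892) (nat_lit 8192) (.ev (nat_lit 1901) (nat_lit 262144) .dd))))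
 (.ch (nat_lit 11) (.ev (nat_lit 1680) (nat_lit 34360000512) (.ev (nat_lit 1693) (nat_lit 8192)
 .dd))))))))))))))))))) (.br (nat_lit 16) (.ch (nat_lit 15) (.ev (nat_lit 52) (nat_lit 34379933698) (.ev
 (nat_lit 212) (nat_lit 1073741824) (.ev (nat_lit 244) (nat_lit 524288) (.ev (nat_lit 756) (nat_lit 33554432)
 (.ev (nat_lit 1396) (nat_lit 256) (.nd (nat_lit 1408) (.br (nat_lit 5) (.br (nat_lit 2) (.ch (nat_lit 1) (.ev
 (nat_lit 1424) (nat_lit 16) (.nd (nat_lit 1664) (.br (nat_lit 6) (.br (nat_lit 1) (.ch (nat_lit 0) (.ev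
 (nat_lit 1680) (nat_lit 71401472) (.ev (nat_lit 1693) (nat_lit 131072) .dd))) (.br (nat_lit 3) (.ch (nat_lit
 1) (.ev (nat_lit 1680) (nat_lit 71434240) (.fin (nat_lit 576118254280851536)))) (.ch (nat_lit 3) (.ev (nat_lit
 1680) (nat_lit 4227072) (.ev (nat_lit 1716) (nat_lit 67108864) (.ev (nat_lit 2496) (nat_lit 131072) (.ev
 (nat_lit 2509) (nat_lit 65536) .dd))))))) (.br (nat_lit 10) (.ch (nat_lit 6) (.ev (nat_lit 1680) (nat_lit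
 98304) (.ev (nat_lit 1824) (nat_lit 4194304) (.ev (nat_lit 1892) (nat_lit 67108864) (.ev (nat_lit 1901)
 (nat_lit 131072) .dd))))) (.br (nat_lit 12) (.ch (nat_lit 10) (.ev (nat_lit 1680) (nat_lit 4325376) (.ev
 (nat_lit 1716) (nat_lit 67108864) (.ev (nat_lit 1728) (nat_lit 32768) (.ev (nat_lit 1741) (nat_lit 65536)
 .dd))))) (.ch (nat_lit 12) (.ev (nat_lit 1680) (nat_lit 4358144) (.ev (nat_lit 1920) (nat_lit 67108864) (.ev
 (nat_lit 1933) (nat_lit 65536) .dd)))))))))) (.br (nat_lit 4) (.ch (nat_lit 2) (.ev (nat_lit 1424) (nat_lit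
 67141632) (.nd (nat_lit 1664) (.br (nat_lit 6) (.br (nat_lit 1) (.ch (nat_lit 0) (.ev (nat_lit 1680) (nat_lit
 65536) (.ev (nat_lit 1716) (nat_lit 131072) (.ev (nat_lit 2180) (nat_lit 16) (.ev (nat_lit 2189) (nat_lit
 4194304) .dd))))) (.br (nat_lit 5) (.ch (nat_lit 1) (.ev (nat_lit 1680) (nat_lit 4259856) (.ev (nat_lit 1693)
 (nat_lit 131072) .dd))) (.ch (nat_lit 5) (.ev (nat_lit 1680) (nat_lit 131072) (.ev (nat_lit 2180) (nat_lit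
 65536) (.fin (nat_lit 576012701133128192))))))) (.br (nat_lit 7) (.ch (nat_lit 6) (.ev (nat_lit 1680) (nat_lit
 196624) (.ev (nat_lit 1693) (nat_lit 4194304) .dd))) (.br (nat_lit 10) (.ch (nat_lit 7) (.ev (nat_lit 1680)
 (nat_lit 4259856) (.ev (nat_lit 1693) (nat_lit 131072) .dd))) (.ch (nat_lit 10) (.ev (nat_lit 1680) (nat_lit
 65536) (.ev (nat_lit 2112) (nat_lit 4194304) (.ev (nat_lit 2644) (nat_lit 16) (.ev (nat_lit 2653) (nat_lit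
 131072) .dd))))))))))) (.ch (nat_lit 4) (.ev (nat_lit 1424) (nat_lit 98304) (.nd (nat_lit 1664) (.br (nat_lit
 8) (.br (nat_lit 3) (.ch (nat_lit 0) (.ev (nat_lit 1716) (nat_lit 4325392) (.ev (nat_lit 1725) (nat_lit
 67108864) .dd))) (.br (nat_lit 4) (.ch (nat_lit 3) (.ev (nat_lit 1680) (nat_lit 67108880) (.ev (nat_lit 1892)
 (nat_lit 131072) (.ev (nat_lit 1901) (nat_lit 4194304) .dd)))) (.ch (nat_lit 4) (.ev (nat_lit 1680) (nat_lit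
 71434256) .dd)))) (.br (nat_lit 11) (.ch (nat_lit 8) (.ev (nat_lit 1680) (nat_lit 131088) (.ev (nat_lit 1892)
 (nat_lit 67108864) (.ev (nat_lit 1901) (nat_lit 4194304) .dd)))) (.br (nat_lit 12) (.ch (nat_lit 11) (.ev
 (nat_lit 1680) (nat_lit 4325392) (.ev (nat_lit 1693) (nat_lit 67108864) .dd))) (.ch (nat_lit 12) (.ev (nat_lit
 1680) (nat_lit 71303168) (.ev (nat_lit 1744) (nat_lit 131072) (.ev (nat_lit 1757) (nat_lit 16) .dd))))))))))))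
 (.br (nat_lit 9) (.ch (nat_lit 5) (.ev (nat_lit 1424) (nat_lit 71434256) (.nd (nat_lit 1664) (.br (nat_lit 8)
 (.br (nat_lit 2) (.ch (nat_lit 0) (.ev (nat_lit 1680) (nat_lit 65536) (.ev (nat_lit 1693) (nat_lit 32768)
 .dd))) (.br (nat_lit 4) (.ch (nat_lit 2) (.ev (nat_lit 1680) (nat_lit 98304) .dd)) (.ch (nat_lit 4) (.ev
 (nat_lit 2052) (nat_lit 32768) (.ev (nat_lit 2061) (nat_lit 65536) .dd))))) (.br (nat_lit 10) (.ch (nat_lit 8)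
 (.ev (nat_lit 1680) (nat_lit 32768) (.ev (nat_lit 1693) (nat_lit 65536) .dd))) (.br (nat_lit 11) (.ch (nat_lit
 10) (.ev (nat_lit 1680) (nat_lit 65536) (.ev (nat_lit 1693) (nat_lit 32768) .dd))) (.ch (nat_lit 11) (.ev
 (nat_lit 1680) (nat_lit 98304) .dd)))))))) (.br (nat_lit 12) (.ch (nat_lit 9) (.ev (nat_lit 1424) (nat_lit
 4423696) (.ev (nat_lit 1437) (nat_lit 67108864) .dd))) (.ch (nat_lit 12) (.ev (nat_lit 1424) (nat_lit
 71401472) (.nd (nat_lit 1664) (.br (nat_lit 8) (.br (nat_lit 1) (.ch (nat_lit 0) (.ev (nat_lit 1680) (nat_lit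
 16) (.ev (nat_lit 1693) (nat_lit 131072) .dd))) (.br (nat_lit 7) (.ch (nat_lit 1) (.ev (nat_lit 1680) (nat_lit
 131088) .dd)) (.ch (nat_lit 7) (.ev (nat_lit 1716) (nat_lit 131072) (.ev (nat_lit 1725) (nat_lit 16) .dd)))))
 (.br (nat_lit 9) (.ch (nat_lit 8) (.ev (nat_lit 1680) (nat_lit 16) (.ev (nat_lit 1693) (nat_lit 131072) .dd)))
 (.br (nat_lit 10) (.ch (nat_lit 9) (.ev (nat_lit 1680) (nat_lit 131072) (.ev (nat_lit 1693) (nat_lit 16)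
 .dd))) (.ch (nat_lit 10) (.ev (nat_lit 2208) (nat_lit 131072) (.ev (nat_lit 2221) (nat_lit 16)
 .dd))))))))))))))))))) (.br (nat_lit 18) (.ch (nat_lit 16) (.ev (nat_lit 52) (nat_lit 52174850) (.ev (nat_lit
 340) (nat_lit 131072) (.ev (nat_lit 436) (nat_lit 256) (.ev (nat_lit 852) (nat_lit 65536) (.ev (nat_lit 1236)
 (nat_lit 4194304) (.nd (nat_lit 1408) (.br (nat_lit 6) (.br (nat_lit 5) (.ch (nat_lit 2) (.ev (nat_lit 1424)
 (nat_lit 35435610128) (.nd (nat_lit 1664) (.br (nat_lit 6) (.br (nat_lit 3) (.ch (nat_lit 0) (.ev (nat_lit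
 1680) (nat_lit 67108864) (.ev (nat_lit 1693) (nat_lit 2048) .dd))) (.br (nat_lit 4) (.ch (nat_lit 3) (.ev
 (nat_lit 1680) (nat_lit 67108864) (.ev (nat_lit 1693) (nat_lit 2048) .dd))) (.ch (nat_lit 4) (.ev (nat_lit
 1680) (nat_lit 67110912) .dd)))) (.br (nat_lit 7) (.ch (nat_lit 6) (.ev (nat_lit 1680) (nat_lit 67110912)
 .dd)) (.br (nat_lit 11) (.ch (nat_lit 7) (.ev (nat_lit 1680) (nat_lit 67110912) .dd)) (.ch (nat_lit 11) (.ev
 (nat_lit 1680) (nat_lit 2048) (.ev (nat_lit 1693) (nat_lit 67108864) .dd))))))))) (.ch (nat_lit 5) (.ev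
 (nat_lit 1424) (nat_lit 1073774608) (.nd (nat_lit 1664) (.br (nat_lit 9) (.br (nat_lit 3) (.ch (nat_lit 0)
 (.ev (nat_lit 1680) (nat_lit 34359738368) (.ev (nat_lit 1920) (nat_lit 67108864) (.ev (nat_lit 2548) (nat_lit
 2048) (.ev (nat_lit 2557) (nat_lit 2097152) .dd))))) (.ch (nat_lit 3) (.ev (nat_lit 1680) (nat_lit
 34426847232) (.ev (nat_lit 2052) (nat_lit 2048) (.ev (nat_lit 2061) (nat_lit 2097152) .dd))))) (.br (nat_lit
 11) (.ch (nat_lit 9) (.ev (nat_lit 1680) (nat_lit 67110912) (.ev (nat_lit 1892) (nat_lit 34359738368) (.ev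
 (nat_lit 1901) (nat_lit 2097152) .dd)))) (.br (nat_lit 12) (.ch (nat_lit 11) (.ev (nat_lit 1680) (nat_lit
 69206016) (.ev (nat_lit 1716) (nat_lit 34359738368) (.ev (nat_lit 1725) (nat_lit 2048) .dd)))) (.ch (nat_lit
 12) (.ev (nat_lit 1680) (nat_lit 34361837568) (.ev (nat_lit 1693) (nat_lit 67108864) .dd)))))))))) (.br
 (nat_lit 9) (.ch (nat_lit 6) (.ev (nat_lit 1424) (nat_lit 1140885520) (.ev (nat_lit 1444) (nat_lit 2097152)
 (.ev (nat_lit 1453) (nat_lit 34359738368) .dd)))) (.br (nat_lit 12) (.ch (nat_lit 9) (.ev (nat_lit 1424)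
 (nat_lit 34359740416) (.nd (nat_lit 1664) (.br (nat_lit 8) (.br (nat_lit 6) (.ch (nat_lit 0) (.ev (nat_lit
 1680) (nat_lit 32768) (.ev (nat_lit 1892) (nat_lit 2097152) (.ev (nat_lit 2080) (nat_lit 1073741824) (.ev
 (nat_lit 2368) (nat_lit 16) (.ev (nat_lit 2381) (nat_lit 67108864) .dd)))))) (.ch (nat_lit 6) (.ev (nat_lit
 1680) (nat_lit 1140850704) (.ev (nat_lit 1716) (nat_lit 2097152) (.ev (nat_lit 1725) (nat_lit 32768) .dd)))))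
 (.br (nat_lit 11) (.ch (nat_lit 8) (.ev (nat_lit 1680) (nat_lit 2097168) (.ev (nat_lit 2144) (nat_lit 32768)
 (.ev (nat_lit 2548) (nat_lit 1073741824) (.ev (nat_lit 2557) (nat_lit 67108864) .dd))))) (.br (nat_lit 12)
 (.ch (nat_lit 11) (.ev (nat_lit 1680) (nat_lit 1075871744) (.ev (nat_lit 2192) (nat_lit 67108864) (.ev
 (nat_lit 2205) (nat_lit 16) .dd)))) (.ch (nat_lit 12) (.ev (nat_lit 1680) (nat_lit 1142980608) (.ev (nat_lit
 1693) (nat_lit 16) .dd))))))))) (.ch (nat_lit 12) (.ev (nat_lit 1424) (nat_lit 35433515024) (.nd (nat_lit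
 1664) (.br (nat_lit 8) (.br (nat_lit 1) (.ch (nat_lit 0) (.ev (nat_lit 1680) (nat_lit 69206016) .dd)) (.br
 (nat_lit 4) (.ch (nat_lit 1) (.ev (nat_lit 1680) (nat_lit 67108864) (.ev (nat_lit 1693) (nat_lit 2097152)
 .dd))) (.ch (nat_lit 4) (.ev (nat_lit 1680) (nat_lit 67108864) (.ev (nat_lit 1693) (nat_lit 2097152) .dd)))))
 (.br (nat_lit 10) (.ch (nat_lit 8) (.ev (nat_lit 1716) (nat_lit 67108864) (.ev (nat_lit 1725) (nat_lit
 2097152) .dd))) (.br (nat_lit 11) (.ch (nat_lit 10) (.ev (nat_lit 1680) (nat_lit 2097152) (.ev (nat_lit 1693)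
 (nat_lit 67108864) .dd))) (.ch (nat_lit 11) (.ev (nat_lit 1680) (nat_lit 67108864) (.ev (nat_lit 1693)
 (nat_lit 2097152) .dd))))))))))))))))))) (.ch (nat_lit 18) (.ev (nat_lit 52) (nat_lit 100796434) (.ev (nat_lit
 180) (nat_lit 262144) (.ev (nat_lit 244) (nat_lit 1073741824) (.ev (nat_lit 1204) (nat_lit 2097152) (.ev
 (nat_lit 1332) (nat_lit 256) (.nd (nat_lit 1408) (.br (nat_lit 5) (.br (nat_lit 2) (.ch (nat_lit 1) (.ev
 (nat_lit 1424) (nat_lit 22544384) (.nd (nat_lit 1664) (.br (nat_lit 3) (.br (nat_lit 1) (.ch (nat_lit 0) (.ev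
 (nat_lit 1680) (nat_lit 34359836672) (.ev (nat_lit 1693) (nat_lit 8192) .dd))) (.br (nat_lit 2) (.ch (nat_lit
 1) (.ev (nat_lit 1680) (nat_lit 8192) (.ev (nat_lit 2484) (nat_lit 34359738368) (.nd (nat_lit 3456) (.br
 (nat_lit 6) (.ch (nat_lit 2) (.ev (nat_lit 3472) (nat_lit 65536) (.ev (nat_lit 3485) (nat_lit 32768) .dd)))
 (.ch (nat_lit 6) (.fin (nat_lit 576804349840671792)))))))) (.ch (nat_lit 2) (.ev (nat_lit 1680) (nat_lit
 34359844864) .dd)))) (.br (nat_lit 8) (.ch (nat_lit 3) (.ev (nat_lit 1680) (nat_lit 34359771136) (.ev (nat_lit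
 1744) (nat_lit 73728) .dd))) (.br (nat_lit 10) (.ch (nat_lit 8) (.ev (nat_lit 1680) (nat_lit 34359746560) (.ev
 (nat_lit 1728) (nat_lit 32768) (.ev (nat_lit 1741) (nat_lit 65536) .dd)))) (.ch (nat_lit 10) (.ev (nat_lit
 1680) (nat_lit 98304) (.ev (nat_lit 1984) (nat_lit 34359746560) .dd))))))))) (.br (nat_lit 4) (.ch (nat_lit 2)
 (.ev (nat_lit 1424) (nat_lit 34364563456) (.nd (nat_lit 1664) (.br (nat_lit 10) (.br (nat_lit 6) (.ch (nat_lit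
 0) (.ev (nat_lit 1680) (nat_lit 16777216) (.ev (nat_lit 1693) (nat_lit 1048576) .dd))) (.ch (nat_lit 6) (.ev
 (nat_lit 1680) (nat_lit 17825792) .dd))) (.br (nat_lit 11) (.ch (nat_lit 10) (.ev (nat_lit 1952) (nat_lit
 16777216) (.ev (nat_lit 1965) (nat_lit 1048576) .dd))) (.ch (nat_lit 11) (.ev (nat_lit 1680) (nat_lit
 16777216) (.ev (nat_lit 1693) (nat_lit 1048576) .dd)))))))) (.ch (nat_lit 4) (.ev (nat_lit 1424) (nat_lit
 34378186752) (.nd (nat_lit 1664) (.br (nat_lit 8) (.br (nat_lit 3) (.ch (nat_lit 0) (.ev (nat_lit 2052)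
 (nat_lit 8192) (.ev (nat_lit 2061) (nat_lit 4194304) .dd))) (.br (nat_lit 4) (.ch (nat_lit 3) (.ev (nat_lit
 1680) (nat_lit 4194304) (.ev (nat_lit 1693) (nat_lit 8192) .dd))) (.ch (nat_lit 4) (.ev (nat_lit 1680)
 (nat_lit 8192) (.ev (nat_lit 1693) (nat_lit 4194304) .dd))))) (.br (nat_lit 11) (.ch (nat_lit 8) (.ev (nat_lit
 1680) (nat_lit 8192) (.ev (nat_lit 1693) (nat_lit 4194304) .dd))) (.br (nat_lit 12) (.ch (nat_lit 11) (.ev
 (nat_lit 1680) (nat_lit 4194304) (.ev (nat_lit 1693) (nat_lit 8192) .dd))) (.ch (nat_lit 12) (.ev (nat_lit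
 1680) (nat_lit 4194304) (.ev (nat_lit 1693) (nat_lit 8192) .dd))))))))))) (.br (nat_lit 6) (.ch (nat_lit 5)
 (.ev (nat_lit 1424) (nat_lit 4194304) (.nd (nat_lit 1664) (.br (nat_lit 8) (.br (nat_lit 4) (.ch (nat_lit 2)
 (.ev (nat_lit 1680) (nat_lit 34377146368) (.ev (nat_lit 1693) (nat_lit 1048576) .dd))) (.ch (nat_lit 4) (.ev
 (nat_lit 1680) (nat_lit 16777216) (.ev (nat_lit 1920) (nat_lit 65536) (.ev (nat_lit 2180) (nat_lit
 34359738368) (.ev (nat_lit 2340) (nat_lit 32768) (.ev (nat_lit 2624) (nat_lit 524288) (.ev (nat_lit 2928)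
 (nat_lit 1056768) .dd)))))))) (.br (nat_lit 9) (.ch (nat_lit 8) (.ev (nat_lit 1680) (nat_lit 1581056) (.ev
 (nat_lit 2052) (nat_lit 32768) (.ev (nat_lit 2368) (nat_lit 34359738368) (.ev (nat_lit 2548) (nat_lit 65536)
 (.ev (nat_lit 2557) (nat_lit 16777216) .dd)))))) (.br (nat_lit 12) (.ch (nat_lit 9) (.ev (nat_lit 1892)
 (nat_lit 8192) (.ev (nat_lit 1920) (nat_lit 524288) (.ev (nat_lit 2064) (nat_lit 1048576) (.ev (nat_lit 2548)
 (nat_lit 16777216) (.ev (nat_lit 2644) (nat_lit 32768) (.ev (nat_lit 3204) (nat_lit 34359738368) (.ev (nat_lit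
 3213) (nat_lit 65536) .dd)))))))) (.ch (nat_lit 12) (.ev (nat_lit 1680) (nat_lit 34378194944) .dd)))))))) (.br
 (nat_lit 10) (.ch (nat_lit 6) (.ev (nat_lit 1424) (nat_lit 4792320) (.nd (nat_lit 1664) (.br (nat_lit 6) (.br
 (nat_lit 3) (.ch (nat_lit 1) (.ev (nat_lit 1680) (nat_lit 34377564160) (.ev (nat_lit 1693) (nat_lit 32768)
 .dd))) (.br (nat_lit 4) (.ch (nat_lit 3) (.ev (nat_lit 1680) (nat_lit 1081344) (.ev (nat_lit 1892) (nat_lit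
 34359738368) (.ev (nat_lit 1901) (nat_lit 16777216) .dd)))) (.ch (nat_lit 4) (.ev (nat_lit 1680) (nat_lit
 34377564160) (.ev (nat_lit 1693) (nat_lit 32768) .dd))))) (.br (nat_lit 11) (.br (nat_lit 10) (.ch (nat_lit 6)
 (.ev (nat_lit 1680) (nat_lit 34376515584) (.ev (nat_lit 1892) (nat_lit 1048576) (.ev (nat_lit 1901) (nat_lit
 32768) .dd)))) (.ch (nat_lit 10) (.ev (nat_lit 1892) (nat_lit 32768) (.ev (nat_lit 2052) (nat_lit 1048576)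
 (.fin (nat_lit 576514078089364076)))))) (.br (nat_lit 12) (.ch (nat_lit 11) (.ev (nat_lit 1680) (nat_lit
 16777216) (.ev (nat_lit 1716) (nat_lit 32768) (.ev (nat_lit 2032) (nat_lit 1048576) (.ev (nat_lit 2045)
 (nat_lit 34359738368) .dd))))) (.ch (nat_lit 12) (.ev (nat_lit 1680) (nat_lit 34377596928) .dd)))))))) (.ch
 (nat_lit 10) (.ev (nat_lit 1424) (nat_lit 34377572352) (.nd (nat_lit 1664) (.br (nat_lit 7) (.br (nat_lit 5)
 (.ch (nat_lit 0) (.ev (nat_lit 1680) (nat_lit 622592) (.ev (nat_lit 1693) (nat_lit 4194304) .dd))) (.br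
 (nat_lit 6) (.ch (nat_lit 5) (.ev (nat_lit 1680) (nat_lit 4292608) (.ev (nat_lit 1693) (nat_lit 524288) .dd)))
 (.ch (nat_lit 6) (.ev (nat_lit 1680) (nat_lit 589824) (.ev (nat_lit 1716) (nat_lit 4194304) (.ev (nat_lit
 1725) (nat_lit 32768) .dd)))))) (.br (nat_lit 9) (.ch (nat_lit 7) (.ev (nat_lit 1680) (nat_lit 589824) (.ev
 (nat_lit 1716) (nat_lit 32768) (.ev (nat_lit 1725) (nat_lit 4194304) .dd)))) (.br (nat_lit 12) (.ch (nat_lit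
 9) (.ev (nat_lit 1680) (nat_lit 4718592) (.ev (nat_lit 2096) (nat_lit 32768) (.ev (nat_lit 2109) (nat_lit
 65536) .dd)))) (.ch (nat_lit 12) (.ev (nat_lit 1680) (nat_lit 4718592) (.ev (nat_lit 1872) (nat_lit 65536)
 (.ev (nat_lit 1885) (nat_lit 32768) .dd)))))))))))))))))))))))) (.br (nat_lit 29) (.br (nat_lit 23) (.br
 (nat_lit 22) (.ch (nat_lit 19) (.ev (nat_lit 52) (nat_lit 34360664320) (.ev (nat_lit 372) (nat_lit 1073741824)
 (.ev (nat_lit 596) (nat_lit 2) (.ev (nat_lit 628) (nat_lit 33554432) (.ev (nat_lit 820) (nat_lit 1048576) (.ev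
 (nat_lit 948) (nat_lit 98304) (.nd (nat_lit 1408) (.br (nat_lit 9) (.br (nat_lit 4) (.ch (nat_lit 0) (.ev
 (nat_lit 1424) (nat_lit 88080400) (.nd (nat_lit 1664) (.br (nat_lit 8) (.br (nat_lit 4) (.ch (nat_lit 0) (.ev
 (nat_lit 1680) (nat_lit 2048) (.ev (nat_lit 1693) (nat_lit 2097152) .dd))) (.br (nat_lit 6) (.ch (nat_lit 4)
 (.ev (nat_lit 2368) (nat_lit 2097152) (.ev (nat_lit 2381) (nat_lit 2048) .dd))) (.ch (nat_lit 6) (.ev (nat_lit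
 1680) (nat_lit 2099200) .dd)))) (.br (nat_lit 10) (.ch (nat_lit 8) (.ev (nat_lit 1680) (nat_lit 2048) (.ev
 (nat_lit 1693) (nat_lit 2097152) .dd))) (.br (nat_lit 12) (.ch (nat_lit 10) (.ev (nat_lit 1680) (nat_lit 2048)
 (.ev (nat_lit 1693) (nat_lit 2097152) .dd))) (.ch (nat_lit 12) (.ev (nat_lit 1680) (nat_lit 2099200)
 .dd)))))))) (.br (nat_lit 6) (.ch (nat_lit 4) (.ev (nat_lit 1424) (nat_lit 18874368) (.nd (nat_lit 1664) (.br
 (nat_lit 4) (.br (nat_lit 3) (.ch (nat_lit 0) (.ev (nat_lit 1680) (nat_lit 2048) (.ev (nat_lit 1920) (nat_lit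
 67108864) (.ev (nat_lit 2064) (nat_lit 4194304) (.ev (nat_lit 2077) (nat_lit 16) .dd))))) (.ch (nat_lit 3)
 (.ev (nat_lit 1680) (nat_lit 67110928) (.ev (nat_lit 1693) (nat_lit 4194304) .dd)))) (.br (nat_lit 6) (.ch
 (nat_lit 4) (.ev (nat_lit 1680) (nat_lit 67110928) (.ev (nat_lit 1693) (nat_lit 4194304) .dd))) (.br (nat_lit
 8) (.ch (nat_lit 6) (.ev (nat_lit 1680) (nat_lit 4194304) (.ev (nat_lit 2484) (nat_lit 2064) (.ev (nat_lit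
 2493) (nat_lit 67108864) .dd)))) (.ch (nat_lit 8) (.ev (nat_lit 1680) (nat_lit 71305232) .dd)))))))) (.ch
 (nat_lit 6) (.ev (nat_lit 1424) (nat_lit 69208064) (.nd (nat_lit 1664) (.br (nat_lit 9) (.br (nat_lit 6) (.ch
 (nat_lit 3) (.ev (nat_lit 1892) (nat_lit 16777232) (.ev (nat_lit 1901) (nat_lit 4194304) .dd))) (.br (nat_lit
 7) (.ch (nat_lit 6) (.ev (nat_lit 1680) (nat_lit 20971536) .dd)) (.ch (nat_lit 7) (.ev (nat_lit 1680) (nat_lit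
 4194320) (.ev (nat_lit 1693) (nat_lit 16777216) .dd))))) (.br (nat_lit 11) (.br (nat_lit 10) (.ch (nat_lit 9)
 (.ev (nat_lit 1680) (nat_lit 4194320) (.ev (nat_lit 1693) (nat_lit 16777216) .dd))) (.ch (nat_lit 10) (.ev
 (nat_lit 1680) (nat_lit 16) (.ev (nat_lit 1892) (nat_lit 4194304) (.ev (nat_lit 1901) (nat_lit 16777216)
 .dd))))) (.br (nat_lit 12) (.ch (nat_lit 11) (.ev (nat_lit 1680) (nat_lit 16) (.ev (nat_lit 1716) (nat_lit
 4194304) (.ev (nat_lit 1725) (nat_lit 16777216) .dd)))) (.ch (nat_lit 12) (.ev (nat_lit 1680) (nat_lit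
 20971520) (.ev (nat_lit 1693) (nat_lit 16) .dd))))))))))) (.br (nat_lit 10) (.ch (nat_lit 9) (.ev (nat_lit
 1424) (nat_lit 71305232) (.nd (nat_lit 1664) (.br (nat_lit 10) (.br (nat_lit 8) (.ch (nat_lit 3) (.ev (nat_lit
 1716) (nat_lit 2097152) (.ev (nat_lit 1725) (nat_lit 16777216) .dd))) (.br (nat_lit 9) (.ch (nat_lit 8) (.ev
 (nat_lit 1680) (nat_lit 2097152) (.ev (nat_lit 1693) (nat_lit 16777216) .dd))) (.ch (nat_lit 9) (.ev (nat_lit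
 1892) (nat_lit 2097152) (.ev (nat_lit 1901) (nat_lit 16777216) .dd))))) (.br (nat_lit 11) (.ch (nat_lit 10)
 (.ev (nat_lit 1680) (nat_lit 2097152) (.ev (nat_lit 1693) (nat_lit 16777216) .dd))) (.br (nat_lit 12) (.ch
 (nat_lit 11) (.ev (nat_lit 1680) (nat_lit 16777216) (.ev (nat_lit 1693) (nat_lit 2097152) .dd))) (.ch (nat_lit
 12) (.ev (nat_lit 1680) (nat_lit 2097152) (.ev (nat_lit 1693) (nat_lit 16777216) .dd))))))))) (.br (nat_lit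
 12) (.ch (nat_lit 10) (.ev (nat_lit 1424) (nat_lit 88080400) (.nd (nat_lit 1664) (.br (nat_lit 6) (.br
 (nat_lit 3) (.ch (nat_lit 2) (.ev (nat_lit 1680) (nat_lit 2099200) .dd)) (.br (nat_lit 5) (.ch (nat_lit 3)
 (.ev (nat_lit 1680) (nat_lit 2099200) .dd)) (.ch (nat_lit 5) (.ev (nat_lit 1680) (nat_lit 2048) (.ev (nat_lit
 1693) (nat_lit 2097152) .dd))))) (.br (nat_lit 7) (.ch (nat_lit 6) (.fin (nat_lit 576474496213926468))) (.br
 (nat_lit 9) (.ch (nat_lit 7) (.ev (nat_lit 1680) (nat_lit 2097152) (.ev (nat_lit 1693) (nat_lit 2048) .dd)))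
 (.ch (nat_lit 9) (.ev (nat_lit 1680) (nat_lit 2048) (.ev (nat_lit 1693) (nat_lit 2097152) .dd))))))))) (.ch
 (nat_lit 12) (.ev (nat_lit 1424) (nat_lit 85985280) (.nd (nat_lit 1664) (.br (nat_lit 9) (.br (nat_lit 7) (.ch
 (nat_lit 4) (.ev (nat_lit 1680) (nat_lit 16) (.ev (nat_lit 1693) (nat_lit 4194304) .dd))) (.br (nat_lit 8)
 (.ch (nat_lit 7) (.ev (nat_lit 2548) (nat_lit 16) (.ev (nat_lit 2557) (nat_lit 4194304) .dd))) (.ch (nat_lit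
 8) (.ev (nat_lit 2000) (nat_lit 4194304) (.ev (nat_lit 2013) (nat_lit 16) .dd))))) (.br (nat_lit 10) (.ch
 (nat_lit 9) (.ev (nat_lit 1680) (nat_lit 4194304) (.ev (nat_lit 1693) (nat_lit 16) .dd))) (.br (nat_lit 11)
 (.ch (nat_lit 10) (.ev (nat_lit 1680) (nat_lit 4194304) (.ev (nat_lit 1693) (nat_lit 16) .dd))) (.ch (nat_lit
 11) (.ev (nat_lit 1680) (nat_lit 4194320) .dd))))))))))))))))))) (.ch (nat_lit 22) (.ev (nat_lit 52) (nat_lit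
 1146224896) (.ev (nat_lit 212) (nat_lit 65536) (.ev (nat_lit 244) (nat_lit 33554432) (.ev (nat_lit 436)
 (nat_lit 2097152) (.ev (nat_lit 980) (nat_lit 262144) (.ev (nat_lit 1364) (nat_lit 34359738368) (.nd (nat_lit
 1408) (.br (nat_lit 6) (.br (nat_lit 2) (.ch (nat_lit 1) (.ev (nat_lit 1424) (nat_lit 17336336) (.nd (nat_lit
 1664) (.br (nat_lit 8) (.br (nat_lit 3) (.ch (nat_lit 2) (.ev (nat_lit 2180) (nat_lit 2) (.ev (nat_lit 2189)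
 (nat_lit 8192) .dd))) (.br (nat_lit 6) (.ch (nat_lit 3) (.ev (nat_lit 1680) (nat_lit 8194) .dd)) (.ch (nat_lit
 6) (.ev (nat_lit 1744) (nat_lit 2) (.ev (nat_lit 1757) (nat_lit 8192) .dd))))) (.br (nat_lit 9) (.ch (nat_lit
 8) (.ev (nat_lit 2484) (nat_lit 2) (.ev (nat_lit 2493) (nat_lit 8192) .dd))) (.br (nat_lit 12) (.ch (nat_lit
 9) (.ev (nat_lit 2052) (nat_lit 8192) (.ev (nat_lit 2061) (nat_lit 2) .dd))) (.ch (nat_lit 12) (.ev (nat_lit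
 1680) (nat_lit 8192) (.ev (nat_lit 1693) (nat_lit 2) .dd))))))))) (.br (nat_lit 4) (.ch (nat_lit 2) (.ev
 (nat_lit 1424) (nat_lit 565266) (.nd (nat_lit 1664) (.br (nat_lit 7) (.br (nat_lit 4) (.ch (nat_lit 3) (.ev
 (nat_lit 1680) (nat_lit 16777216) (.ev (nat_lit 1693) (nat_lit 2048) .dd))) (.br (nat_lit 5) (.ch (nat_lit 4)
 (.ev (nat_lit 1744) (nat_lit 2048) (.ev (nat_lit 1757) (nat_lit 16777216) .dd))) (.ch (nat_lit 5) (.ev
 (nat_lit 1716) (nat_lit 16777216) (.ev (nat_lit 1725) (nat_lit 2048) .dd))))) (.br (nat_lit 10) (.ch (nat_lit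
 7) (.ev (nat_lit 2096) (nat_lit 16777216) (.ev (nat_lit 2109) (nat_lit 2048) .dd))) (.br (nat_lit 11) (.ch
 (nat_lit 10) (.ev (nat_lit 2368) (nat_lit 16779264) .dd)) (.ch (nat_lit 11) (.ev (nat_lit 1680) (nat_lit
 16779264) .dd)))))))) (.ch (nat_lit 4) (.ev (nat_lit 1424) (nat_lit 559104) (.nd (nat_lit 1664) (.br (nat_lit
 6) (.br (nat_lit 3) (.ch (nat_lit 0) (.ev (nat_lit 1680) (nat_lit 16785426) .dd)) (.br (nat_lit 5) (.ch
 (nat_lit 3) (.ev (nat_lit 1680) (nat_lit 16777232) (.ev (nat_lit 2052) (nat_lit 2) (.ev (nat_lit 2061)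
 (nat_lit 8192) .dd)))) (.ch (nat_lit 5) (.ev (nat_lit 1680) (nat_lit 16785410) (.ev (nat_lit 1693) (nat_lit
 16) .dd))))) (.br (nat_lit 9) (.ch (nat_lit 6) (.ev (nat_lit 1680) (nat_lit 2) (.ev (nat_lit 1716) (nat_lit
 8192) (.ev (nat_lit 1892) (nat_lit 16) (.ev (nat_lit 1901) (nat_lit 16777216) .dd))))) (.br (nat_lit 11) (.ch
 (nat_lit 9) (.ev (nat_lit 1680) (nat_lit 16785426) .dd)) (.ch (nat_lit 11) (.ev (nat_lit 1680) (nat_lit 18)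
 (.ev (nat_lit 1728) (nat_lit 16777216) (.ev (nat_lit 1741) (nat_lit 8192) .dd)))))))))))) (.br (nat_lit 9)
 (.ch (nat_lit 6) (.ev (nat_lit 1424) (nat_lit 10242) (.nd (nat_lit 1664) (.br (nat_lit 7) (.br (nat_lit 3)
 (.ch (nat_lit 1) (.ev (nat_lit 1680) (nat_lit 16777216) (.ev (nat_lit 2000) (nat_lit 524288) (.fin (nat_lit
 576250195854443436))))) (.br (nat_lit 6) (.ch (nat_lit 3) (.ev (nat_lit 1680) (nat_lit 557072) (.ev (nat_lit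
 1693) (nat_lit 16777216) .dd))) (.ch (nat_lit 6) (.ev (nat_lit 1680) (nat_lit 17301504) (.ev (nat_lit 2052)
 (nat_lit 32768) (.ev (nat_lit 2061) (nat_lit 16) .dd)))))) (.br (nat_lit 9) (.ch (nat_lit 7) (.ev (nat_lit
 1680) (nat_lit 16810000) (.ev (nat_lit 1693) (nat_lit 524288) .dd))) (.br (nat_lit 11) (.ch (nat_lit 9) (.ev
 (nat_lit 1716) (nat_lit 524288) (.ev (nat_lit 2340) (nat_lit 32768) (.ev (nat_lit 2548) (nat_lit 16777216)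
 (.ev (nat_lit 2557) (nat_lit 16) .dd))))) (.ch (nat_lit 11) (.ev (nat_lit 1680) (nat_lit 524304) (.ev (nat_lit
 1892) (nat_lit 32768) (.ev (nat_lit 1901) (nat_lit 16777216) .dd)))))))))) (.br (nat_lit 10) (.ch (nat_lit 9)
 (.ev (nat_lit 1424) (nat_lit 2050) (.nd (nat_lit 1664) (.br (nat_lit 9) (.br (nat_lit 5) (.ch (nat_lit 0) (.ev
 (nat_lit 1680) (nat_lit 8192) (.ev (nat_lit 1716) (nat_lit 32768) (.ev (nat_lit 1892) (nat_lit 16) (.ev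
 (nat_lit 2052) (nat_lit 524288) (.ev (nat_lit 2061) (nat_lit 16777216) .dd)))))) (.ch (nat_lit 5) (.ev
 (nat_lit 1680) (nat_lit 16810000) (.ev (nat_lit 1716) (nat_lit 524288) (.ev (nat_lit 1725) (nat_lit 8192)
 .dd))))) (.br (nat_lit 10) (.ch (nat_lit 9) (.ev (nat_lit 1680) (nat_lit 17334288) (.ev (nat_lit 1693)
 (nat_lit 8192) .dd))) (.br (nat_lit 11) (.ch (nat_lit 10) (.ev (nat_lit 1680) (nat_lit 524288) (.ev (nat_lit
 2180) (nat_lit 32768) (.ev (nat_lit 2340) (nat_lit 8208) (.ev (nat_lit 2349) (nat_lit 16777216) .dd))))) (.ch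
 (nat_lit 11) (.ev (nat_lit 1680) (nat_lit 32768) (.ev (nat_lit 1716) (nat_lit 16) (.ev (nat_lit 2644) (nat_lit
 524288) (.fin (nat_lit 576500884465730150)))))))))))) (.ch (nat_lit 10) (.ev (nat_lit 1424) (nat_lit 16785426)
 (.nd (nat_lit 1664) (.br (nat_lit 8) (.br (nat_lit 2) (.ch (nat_lit 0) (.ev (nat_lit 1680) (nat_lit 32768)
 (.ev (nat_lit 1716) (nat_lit 2048) (.ev (nat_lit 1725) (nat_lit 524288) .dd)))) (.ch (nat_lit 2) (.ev (nat_lit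
 1680) (nat_lit 34816) (.ev (nat_lit 1693) (nat_lit 524288) .dd)))) (.br (nat_lit 12) (.ch (nat_lit 8) (.ev
 (nat_lit 1680) (nat_lit 557056) (.ev (nat_lit 1693) (nat_lit 2048) .dd))) (.ch (nat_lit 12) (.ev (nat_lit
 1680) (nat_lit 2048) (.ev (nat_lit 1952) (nat_lit 32768) (.ev (nat_lit 1965) (nat_lit 524288)
 .dd))))))))))))))))))))) (.br (nat_lit 24) (.ch (nat_lit 23) (.ev (nat_lit 52) (nat_lit 105718032) (.ev
 (nat_lit 628) (nat_lit 34359738368) (.ev (nat_lit 1108) (nat_lit 2097152) (.ev (nat_lit 1300) (nat_lit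
 1048576) (.nd (nat_lit 1408) (.br (nat_lit 6) (.br (nat_lit 4) (.ch (nat_lit 2) (.ev (nat_lit 1424) (nat_lit
 1090551810) (.nd (nat_lit 1664) (.br (nat_lit 7) (.br (nat_lit 3) (.ch (nat_lit 0) (.ev (nat_lit 1680)
 (nat_lit 131072) (.ev (nat_lit 1693) (nat_lit 2048) .dd))) (.br (nat_lit 6) (.ch (nat_lit 3) (.ev (nat_lit
 1680) (nat_lit 131072) (.ev (nat_lit 1693) (nat_lit 2048) .dd))) (.ch (nat_lit 6) (.ev (nat_lit 1680) (nat_lit
 133120) .dd)))) (.br (nat_lit 10) (.ch (nat_lit 7) (.ev (nat_lit 2340) (nat_lit 2048) (.ev (nat_lit 2349)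
 (nat_lit 131072) .dd))) (.br (nat_lit 11) (.ch (nat_lit 10) (.ev (nat_lit 2000) (nat_lit 131072) (.ev (nat_lit
 2013) (nat_lit 2048) .dd))) (.ch (nat_lit 11) (.ev (nat_lit 1680) (nat_lit 2048) (.ev (nat_lit 1693) (nat_lit
 131072) .dd))))))))) (.br (nat_lit 5) (.ch (nat_lit 4) (.ev (nat_lit 1424) (nat_lit 32770) (.nd (nat_lit 1664)
 (.br (nat_lit 9) (.br (nat_lit 5) (.ch (nat_lit 0) (.ev (nat_lit 1680) (nat_lit 16777216) (.ev (nat_lit 1920)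
 (nat_lit 1073741824) (.ev (nat_lit 2064) (nat_lit 131072) (.ev (nat_lit 2077) (nat_lit 2048) .dd))))) (.ch
 (nat_lit 5) (.ev (nat_lit 1680) (nat_lit 131072) (.ev (nat_lit 2484) (nat_lit 16779264) (.ev (nat_lit 2493)
 (nat_lit 1073741824) .dd))))) (.br (nat_lit 11) (.ch (nat_lit 9) (.ev (nat_lit 1680) (nat_lit 1090521088) (.ev
 (nat_lit 1693) (nat_lit 131072) .dd))) (.br (nat_lit 12) (.ch (nat_lit 11) (.ev (nat_lit 1680) (nat_lit
 1090652160) .dd)) (.ch (nat_lit 12) (.ev (nat_lit 1680) (nat_lit 1090521088) (.ev (nat_lit 1693) (nat_lit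
 131072) .dd))))))))) (.ch (nat_lit 5) (.ev (nat_lit 1424) (nat_lit 1073907712) (.nd (nat_lit 1664) (.br
 (nat_lit 10) (.br (nat_lit 4) (.ch (nat_lit 3) (.ev (nat_lit 1680) (nat_lit 16777216) (.ev (nat_lit 1693)
 (nat_lit 2) .dd))) (.br (nat_lit 9) (.ch (nat_lit 4) (.ev (nat_lit 1680) (nat_lit 16777218) .dd)) (.ch
 (nat_lit 9) (.ev (nat_lit 1680) (nat_lit 16777218) .dd)))) (.br (nat_lit 11) (.ch (nat_lit 10) (.ev (nat_lit
 1680) (nat_lit 16777216) (.ev (nat_lit 1693) (nat_lit 2) .dd))) (.br (nat_lit 12) (.ch (nat_lit 11) (.ev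
 (nat_lit 2368) (nat_lit 2) (.ev (nat_lit 2381) (nat_lit 16777216) .dd))) (.ch (nat_lit 12) (.ev (nat_lit 1680)
 (nat_lit 16777216) (.ev (nat_lit 1693) (nat_lit 2) .dd))))))))))) (.br (nat_lit 9) (.ch (nat_lit 6) (.ev
 (nat_lit 1424) (nat_lit 1090652160) (.nd (nat_lit 1664) (.br (nat_lit 9) (.br (nat_lit 4) (.ch (nat_lit 1)
 (.ev (nat_lit 1892) (nat_lit 2) (.ev (nat_lit 1901) (nat_lit 32768) .dd))) (.br (nat_lit 7) (.ch (nat_lit 4)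
 (.ev (nat_lit 1680) (nat_lit 2) (.ev (nat_lit 1693) (nat_lit 32768) .dd))) (.ch (nat_lit 7) (.ev (nat_lit
 1680) (nat_lit 32768) (.ev (nat_lit 1693) (nat_lit 2) .dd))))) (.br (nat_lit 10) (.ch (nat_lit 9) (.ev
 (nat_lit 1716) (nat_lit 2) (.ev (nat_lit 1725) (nat_lit 32768) .dd))) (.br (nat_lit 11) (.ch (nat_lit 10) (.ev
 (nat_lit 1680) (nat_lit 2) (.ev (nat_lit 1693) (nat_lit 32768) .dd))) (.ch (nat_lit 11) (.ev (nat_lit 1680)
 (nat_lit 2) (.ev (nat_lit 1693) (nat_lit 32768) .dd))))))))) (.br (nat_lit 10) (.ch (nat_lit 9) (.ev (nat_lit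
 1424) (nat_lit 1073907712) (.nd (nat_lit 1664) (.br (nat_lit 9) (.br (nat_lit 5) (.ch (nat_lit 0) (.ev
 (nat_lit 1680) (nat_lit 16777218) .dd)) (.br (nat_lit 6) (.ch (nat_lit 5) (.ev (nat_lit 1680) (nat_lit
 16777216) (.ev (nat_lit 1693) (nat_lit 2) .dd))) (.ch (nat_lit 6) (.ev (nat_lit 1680) (nat_lit 16777216) (.ev
 (nat_lit 1693) (nat_lit 2) .dd))))) (.br (nat_lit 10) (.ch (nat_lit 9) (.fin (nat_lit 576474496186663492)))
 (.br (nat_lit 12) (.ch (nat_lit 10) (.ev (nat_lit 1680) (nat_lit 16777218) .dd)) (.ch (nat_lit 12) (.ev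
 (nat_lit 1680) (nat_lit 2) (.ev (nat_lit 1693) (nat_lit 16777216) .dd))))))))) (.ch (nat_lit 10) (.ev (nat_lit
 1424) (nat_lit 1090519042) (.nd (nat_lit 1664) (.br (nat_lit 6) (.br (nat_lit 3) (.ch (nat_lit 2) (.ev
 (nat_lit 1680) (nat_lit 2048) (.ev (nat_lit 1892) (nat_lit 131072) (.ev (nat_lit 1901) (nat_lit 32768) .dd))))
 (.br (nat_lit 5) (.ch (nat_lit 3) (.ev (nat_lit 1680) (nat_lit 165888) .dd)) (.ch (nat_lit 5) (.ev (nat_lit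
 1680) (nat_lit 2048) (.ev (nat_lit 1716) (nat_lit 32768) (.ev (nat_lit 1725) (nat_lit 131072) .dd)))))) (.br
 (nat_lit 8) (.br (nat_lit 7) (.ch (nat_lit 6) (.ev (nat_lit 1680) (nat_lit 133120) (.ev (nat_lit 1693)
 (nat_lit 32768) .dd))) (.ch (nat_lit 7) (.ev (nat_lit 1892) (nat_lit 34816) (.ev (nat_lit 1901) (nat_lit
 131072) .dd)))) (.br (nat_lit 12) (.ch (nat_lit 8) (.ev (nat_lit 1680) (nat_lit 163840) (.ev (nat_lit 1693)
 (nat_lit 2048) .dd))) (.ch (nat_lit 12) (.ev (nat_lit 1680) (nat_lit 133120) (.ev (nat_lit 1693) (nat_lit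
 32768) .dd)))))))))))))))))) (.br (nat_lit 26) (.ch (nat_lit 24) (.ev (nat_lit 52) (nat_lit 1079191824) (.ev
 (nat_lit 692) (nat_lit 2) (.ev (nat_lit 724) (nat_lit 34359738368) (.ev (nat_lit 1216) (nat_lit 120356864)
 .dd))))) (.ch (nat_lit 26) (.ev (nat_lit 52) (nat_lit 72319232) (.ev (nat_lit 244) (nat_lit 16) (.ev (nat_lit
 468) (nat_lit 2048) (.ev (nat_lit 928) (nat_lit 35486965762) .dd)))))))) (.br (nat_lit 34) (.br (nat_lit 31)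
 (.ch (nat_lit 29) (.ev (nat_lit 52) (nat_lit 84150546) (.ev (nat_lit 212) (nat_lit 33554432) (.ev (nat_lit
 372) (nat_lit 34359771136) (.ev (nat_lit 564) (nat_lit 2097152) (.ev (nat_lit 628) (nat_lit 1073741824) (.ev
 (nat_lit 1268) (nat_lit 524288) (.ev (nat_lit 1344) (nat_lit 5447680) .dd)))))))) (.br (nat_lit 33) (.ch
 (nat_lit 31) (.ev (nat_lit 52) (nat_lit 57147394) (.ev (nat_lit 244) (nat_lit 34359738368) (.ev (nat_lit 468)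
 (nat_lit 1048576) (.ev (nat_lit 768) (nat_lit 1141352720) .dd))))) (.ch (nat_lit 33) (.ev (nat_lit 52)
 (nat_lit 34427971586) (.ev (nat_lit 244) (nat_lit 4194304) (.ev (nat_lit 308) (nat_lit 262144) (.ev (nat_lit
 724) (nat_lit 524304) (.ev (nat_lit 788) (nat_lit 1073741824) (.nd (nat_lit 1408) (.br (nat_lit 2) (.br
 (nat_lit 1) (.ch (nat_lit 0) (.ev (nat_lit 1424) (nat_lit 16941312) (.ev (nat_lit 1444) (nat_lit 33554432)
 (.ev (nat_lit 1453) (nat_lit 2097152) .dd)))) (.ch (nat_lit 1) (.ev (nat_lit 1424) (nat_lit 16777472) (.nd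
 (nat_lit 1664) (.br (nat_lit 3) (.br (nat_lit 2) (.ch (nat_lit 1) (.ev (nat_lit 1680) (nat_lit 33685504) (.ev
 (nat_lit 1936) (nat_lit 2129920) .dd))) (.ch (nat_lit 2) (.ev (nat_lit 1680) (nat_lit 35782656) (.ev (nat_lit
 1693) (nat_lit 32768) .dd)))) (.br (nat_lit 6) (.ch (nat_lit 3) (.ev (nat_lit 1680) (nat_lit 2129920) (.ev
 (nat_lit 2644) (nat_lit 33554432) (.ev (nat_lit 2653) (nat_lit 131072) .dd)))) (.br (nat_lit 12) (.ch (nat_lit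
 6) (.ev (nat_lit 1680) (nat_lit 2097152) (.ev (nat_lit 1760) (nat_lit 32768) (.ev (nat_lit 2484) (nat_lit
 33554432) (.ev (nat_lit 2493) (nat_lit 131072) .dd))))) (.ch (nat_lit 12) (.ev (nat_lit 1680) (nat_lit 32768)
 (.ev (nat_lit 1892) (nat_lit 2097152) (.ev (nat_lit 2180) (nat_lit 131072) (.ev (nat_lit 2189) (nat_lit
 33554432) .dd)))))))))))) (.br (nat_lit 4) (.ch (nat_lit 2) (.ev (nat_lit 1424) (nat_lit 2261248) (.nd
 (nat_lit 1664) (.br (nat_lit 4) (.br (nat_lit 1) (.ch (nat_lit 0) (.ev (nat_lit 1680) (nat_lit 50331648) .dd))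
 (.br (nat_lit 3) (.ch (nat_lit 1) (.ev (nat_lit 1680) (nat_lit 33554432) (.ev (nat_lit 1693) (nat_lit
 16777216) .dd))) (.ch (nat_lit 3) (.ev (nat_lit 1936) (nat_lit 16777216) (.ev (nat_lit 1949) (nat_lit
 33554432) .dd))))) (.br (nat_lit 5) (.ch (nat_lit 4) (.ev (nat_lit 1716) (nat_lit 33554432) (.ev (nat_lit
 1725) (nat_lit 16777216) .dd))) (.br (nat_lit 6) (.ch (nat_lit 5) (.ev (nat_lit 1680) (nat_lit 16777216) (.ev
 (nat_lit 1693) (nat_lit 33554432) .dd))) (.ch (nat_lit 6) (.ev (nat_lit 1680) (nat_lit 16777216) (.ev (nat_lit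
 1693) (nat_lit 33554432) .dd))))))))) (.br (nat_lit 10) (.ch (nat_lit 4) (.ev (nat_lit 1424) (nat_lit 2129920)
 (.nd (nat_lit 1664) (.br (nat_lit 4) (.br (nat_lit 3) (.ch (nat_lit 0) (.ev (nat_lit 1680) (nat_lit 50331904)
 (.ev (nat_lit 1693) (nat_lit 131072) .dd))) (.ch (nat_lit 3) (.ev (nat_lit 1680) (nat_lit 33685504) (.ev
 (nat_lit 1840) (nat_lit 16777216) (.ev (nat_lit 1853) (nat_lit 256) .dd))))) (.br (nat_lit 6) (.ch (nat_lit 4)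
 (.ev (nat_lit 1680) (nat_lit 33554432) (.ev (nat_lit 1892) (nat_lit 256) (.ev (nat_lit 2052) (nat_lit
 16777216) (.ev (nat_lit 2061) (nat_lit 131072) .dd))))) (.br (nat_lit 11) (.ch (nat_lit 6) (.ev (nat_lit 1680)
 (nat_lit 256) (.ev (nat_lit 1716) (nat_lit 16777216) (.ev (nat_lit 1920) (nat_lit 33554432) (.ev (nat_lit
 1933) (nat_lit 131072) .dd))))) (.ch (nat_lit 11) (.ev (nat_lit 1680) (nat_lit 16908288) (.ev (nat_lit 1892)
 (nat_lit 256) (.ev (nat_lit 1901) (nat_lit 33554432) .dd)))))))))) (.ch (nat_lit 10) (.ev (nat_lit 1424)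
 (nat_lit 52428800) (.nd (nat_lit 1664) (.br (nat_lit 5) (.br (nat_lit 2) (.ch (nat_lit 0) (.ev (nat_lit 1680)
 (nat_lit 32768) (.ev (nat_lit 2052) (nat_lit 131072) (.ev (nat_lit 2061) (nat_lit 256) .dd)))) (.br (nat_lit
 3) (.ch (nat_lit 2) (.ev (nat_lit 1680) (nat_lit 131072) (.fin (nat_lit 576465700104127060)))) (.ch (nat_lit
 3) (.ev (nat_lit 1680) (nat_lit 131072) (.ev (nat_lit 2384) (nat_lit 33024) .dd))))) (.br (nat_lit 6) (.ch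
 (nat_lit 5) (.ev (nat_lit 1680) (nat_lit 33024) (.ev (nat_lit 1693) (nat_lit 131072) .dd))) (.br (nat_lit 7)
 (.ch (nat_lit 6) (.ev (nat_lit 1680) (nat_lit 131328) (.ev (nat_lit 1693) (nat_lit 32768) .dd))) (.ch (nat_lit
 7) (.ev (nat_lit 1680) (nat_lit 33024) (.ev (nat_lit 1693) (nat_lit 131072) .dd))))))))))))))))))))) (.br
 (nat_lit 36) (.ch (nat_lit 34) (.ev (nat_lit 52) (nat_lit 35433523458) (.ev (nat_lit 212) (nat_lit 131072)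
 (.ev (nat_lit 704) (nat_lit 125632528) .dd)))) (.br (nat_lit 38) (.ch (nat_lit 36) (.ev (nat_lit 52) (nat_lit
 35550994688) (.ev (nat_lit 436) (nat_lit 2) (.ev (nat_lit 852) (nat_lit 131072) (.ev (nat_lit 884) (nat_lit
 1048576) (.ev (nat_lit 1268) (nat_lit 4194304) (.nd (nat_lit 1408) (.br (nat_lit 9) (.br (nat_lit 6) (.ch
 (nat_lit 5) (.ev (nat_lit 1424) (nat_lit 2097168) (.nd (nat_lit 1664) (.br (nat_lit 4) (.br (nat_lit 3) (.ch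
 (nat_lit 0) (.ev (nat_lit 1680) (nat_lit 786432) (.ev (nat_lit 1824) (nat_lit 32768) (.ev (nat_lit 1837)
 (nat_lit 2048) .dd)))) (.ch (nat_lit 3) (.ev (nat_lit 1680) (nat_lit 262144) (.ev (nat_lit 1760) (nat_lit
 2048) (.ev (nat_lit 2052) (nat_lit 32768) (.ev (nat_lit 2061) (nat_lit 524288) .dd)))))) (.br (nat_lit 9) (.ch
 (nat_lit 4) (.ev (nat_lit 1680) (nat_lit 296960) (.ev (nat_lit 1693) (nat_lit 524288) .dd))) (.br (nat_lit 11)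
 (.ch (nat_lit 9) (.ev (nat_lit 1680) (nat_lit 2048) (.ev (nat_lit 1716) (nat_lit 32768) (.ev (nat_lit 1920)
 (nat_lit 262144) (.ev (nat_lit 1933) (nat_lit 524288) .dd))))) (.ch (nat_lit 11) (.ev (nat_lit 1680) (nat_lit
 557056) (.ev (nat_lit 1892) (nat_lit 2048) (.ev (nat_lit 1901) (nat_lit 262144) .dd)))))))))) (.ch (nat_lit 6)
 (.ev (nat_lit 1424) (nat_lit 2656256) (.ev (nat_lit 1444) (nat_lit 262144) (.ev (nat_lit 1453) (nat_lit 16)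
 .dd))))) (.br (nat_lit 10) (.ch (nat_lit 9) (.ev (nat_lit 1424) (nat_lit 34816) (.nd (nat_lit 1664) (.br
 (nat_lit 8) (.br (nat_lit 6) (.ch (nat_lit 0) (.ev (nat_lit 1680) (nat_lit 2097152) (.ev (nat_lit 2080)
 (nat_lit 262144) (.ev (nat_lit 2180) (nat_lit 524288) (.ev (nat_lit 2189) (nat_lit 16) .dd))))) (.ch (nat_lit
 6) (.ev (nat_lit 1680) (nat_lit 786432) (.ev (nat_lit 1936) (nat_lit 2097168) .dd)))) (.br (nat_lit 9) (.ch
 (nat_lit 8) (.ev (nat_lit 1680) (nat_lit 16) (.ev (nat_lit 1904) (nat_lit 2097152) (.ev (nat_lit 2484)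
 (nat_lit 262144) (.ev (nat_lit 2493) (nat_lit 524288) .dd))))) (.br (nat_lit 12) (.ch (nat_lit 9) (.ev
 (nat_lit 1680) (nat_lit 786448) (.ev (nat_lit 1693) (nat_lit 2097152) .dd))) (.ch (nat_lit 12) (.ev (nat_lit
 1680) (nat_lit 2097168) (.ev (nat_lit 2740) (nat_lit 262144) (.ev (nat_lit 2749) (nat_lit 524288)
 .dd)))))))))) (.br (nat_lit 12) (.ch (nat_lit 10) (.ev (nat_lit 1424) (nat_lit 294928) (.nd (nat_lit 1664)
 (.br (nat_lit 6) (.br (nat_lit 2) (.ch (nat_lit 0) (.ev (nat_lit 1680) (nat_lit 2097152) (.ev (nat_lit 2052)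
 (nat_lit 524288) (.ev (nat_lit 2061) (nat_lit 2048) .dd)))) (.br (nat_lit 5) (.ch (nat_lit 2) (.ev (nat_lit
 1680) (nat_lit 2099200) (.ev (nat_lit 1693) (nat_lit 524288) .dd))) (.ch (nat_lit 5) (.ev (nat_lit 1680)
 (nat_lit 526336) (.ev (nat_lit 1693) (nat_lit 2097152) .dd))))) (.br (nat_lit 8) (.ch (nat_lit 6) (.ev
 (nat_lit 1680) (nat_lit 524288) (.fin (nat_lit 576448107907596860)))) (.br (nat_lit 9) (.ch (nat_lit 8) (.ev
 (nat_lit 1680) (nat_lit 2099200) (.ev (nat_lit 1693) (nat_lit 524288) .dd))) (.ch (nat_lit 9) (.ev (nat_lit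
 1680) (nat_lit 524288) (.ev (nat_lit 2384) (nat_lit 2099200) .dd))))))))) (.ch (nat_lit 12) (.ev (nat_lit
 1424) (nat_lit 2623504) (.nd (nat_lit 1664) (.br (nat_lit 8) (.br (nat_lit 4) (.ch (nat_lit 0) (.ev (nat_lit
 1680) (nat_lit 32768) (.ev (nat_lit 1693) (nat_lit 262144) .dd))) (.br (nat_lit 7) (.ch (nat_lit 4) (.ev
 (nat_lit 1936) (nat_lit 32768) (.ev (nat_lit 1949) (nat_lit 262144) .dd))) (.ch (nat_lit 7) (.ev (nat_lit
 1716) (nat_lit 262144) (.ev (nat_lit 1725) (nat_lit 32768) .dd))))) (.br (nat_lit 10) (.ch (nat_lit 8) (.ev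
 (nat_lit 1680) (nat_lit 294912) .dd)) (.br (nat_lit 11) (.ch (nat_lit 10) (.ev (nat_lit 1680) (nat_lit 32768)
 (.ev (nat_lit 1693) (nat_lit 262144) .dd))) (.ch (nat_lit 11) (.ev (nat_lit 1680) (nat_lit 262144) (.ev
 (nat_lit 1693) (nat_lit 32768) .dd))))))))))))))))))) (.ch (nat_lit 38) (.ev (nat_lit 52) (nat_lit 1110190336)
 (.ev (nat_lit 340) (nat_lit 16777216) (.ev (nat_lit 756) (nat_lit 16) (.ev (nat_lit 1332) (nat_lit 2) (.nd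
 (nat_lit 1408) (.br (nat_lit 5) (.br (nat_lit 1) (.ch (nat_lit 0) (.ev (nat_lit 1424) (nat_lit 34431205376)
 (.nd (nat_lit 1664) (.br (nat_lit 6) (.br (nat_lit 2) (.ch (nat_lit 0) (.ev (nat_lit 1680) (nat_lit 1114112)
 .dd)) (.br (nat_lit 4) (.ch (nat_lit 2) (.ev (nat_lit 1716) (nat_lit 65536) (.ev (nat_lit 1725) (nat_lit
 1048576) .dd))) (.ch (nat_lit 4) (.ev (nat_lit 2052) (nat_lit 65536) (.ev (nat_lit 2061) (nat_lit 1048576)
 .dd))))) (.br (nat_lit 8) (.ch (nat_lit 6) (.ev (nat_lit 1680) (nat_lit 65536) (.ev (nat_lit 1693) (nat_lit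
 1048576) .dd))) (.br (nat_lit 12) (.ch (nat_lit 8) (.ev (nat_lit 2180) (nat_lit 1048576) (.ev (nat_lit 2189)
 (nat_lit 65536) .dd))) (.ch (nat_lit 12) (.ev (nat_lit 2484) (nat_lit 65536) (.ev (nat_lit 2493) (nat_lit
 1048576) .dd))))))))) (.br (nat_lit 2) (.ch (nat_lit 1) (.ev (nat_lit 1424) (nat_lit 1081344) (.nd (nat_lit
 1664) (.br (nat_lit 3) (.br (nat_lit 2) (.ch (nat_lit 1) (.ev (nat_lit 1680) (nat_lit 131072) (.ev (nat_lit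
 2180) (nat_lit 34359738368) (.ev (nat_lit 2224) (nat_lit 65536) (.ev (nat_lit 2340) (nat_lit 4194304) (.ev
 (nat_lit 2349) (nat_lit 67108864) .dd)))))) (.ch (nat_lit 2) (.ev (nat_lit 1680) (nat_lit 34431041536) (.ev
 (nat_lit 1716) (nat_lit 131072) (.ev (nat_lit 1725) (nat_lit 65536) .dd))))) (.br (nat_lit 6) (.ch (nat_lit 3)
 (.ev (nat_lit 1680) (nat_lit 65536) (.ev (nat_lit 1716) (nat_lit 34359738368) (.ev (nat_lit 1892) (nat_lit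
 4194304) (.ev (nat_lit 2052) (nat_lit 131072) (.ev (nat_lit 2061) (nat_lit 67108864) .dd)))))) (.br (nat_lit
 9) (.ch (nat_lit 6) (.ev (nat_lit 1680) (nat_lit 34359738368) (.ev (nat_lit 1716) (nat_lit 4194304) (.ev
 (nat_lit 2484) (nat_lit 131072) (.fin (nat_lit 576487690345071142)))))) (.ch (nat_lit 9) (.ev (nat_lit 1680)
 (nat_lit 34431172608) (.ev (nat_lit 1693) (nat_lit 65536) .dd))))))))) (.ch (nat_lit 2) (.ev (nat_lit 1424)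
 (nat_lit 34359902208) (.nd (nat_lit 1664) (.br (nat_lit 4) (.br (nat_lit 1) (.ch (nat_lit 0) (.ev (nat_lit
 1680) (nat_lit 68222976) (.ev (nat_lit 1693) (nat_lit 4194304) .dd))) (.br (nat_lit 3) (.ch (nat_lit 1) (.ev
 (nat_lit 1680) (nat_lit 72417280) .dd)) (.ch (nat_lit 3) (.ev (nat_lit 1680) (nat_lit 71303168) (.ev (nat_lit
 2052) (nat_lit 1048576) (.ev (nat_lit 2061) (nat_lit 65536) .dd)))))) (.br (nat_lit 5) (.ch (nat_lit 4) (.ev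
 (nat_lit 1680) (nat_lit 5242880) (.ev (nat_lit 1728) (nat_lit 67108864) (.ev (nat_lit 1741) (nat_lit 65536)
 .dd)))) (.br (nat_lit 7) (.ch (nat_lit 5) (.ev (nat_lit 1680) (nat_lit 1048576) (.ev (nat_lit 2052) (nat_lit
 4194304) (.ev (nat_lit 2180) (nat_lit 67108864) (.ev (nat_lit 2189) (nat_lit 65536) .dd))))) (.ch (nat_lit 7)
 (.ev (nat_lit 1680) (nat_lit 72417280) .dd)))))))))) (.br (nat_lit 6) (.ch (nat_lit 5) (.ev (nat_lit 1424)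
 (nat_lit 34365177856) (.nd (nat_lit 1664) (.br (nat_lit 8) (.br (nat_lit 3) (.ch (nat_lit 0) (.ev (nat_lit
 1716) (nat_lit 67108864) (.ev (nat_lit 1725) (nat_lit 32768) .dd))) (.br (nat_lit 4) (.ch (nat_lit 3) (.ev
 (nat_lit 1680) (nat_lit 67108864) (.ev (nat_lit 1693) (nat_lit 32768) .dd))) (.ch (nat_lit 4) (.ev (nat_lit
 1680) (nat_lit 67141632) .dd)))) (.br (nat_lit 10) (.ch (nat_lit 8) (.ev (nat_lit 1744) (nat_lit 32768) (.ev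
 (nat_lit 1757) (nat_lit 67108864) .dd))) (.br (nat_lit 12) (.ch (nat_lit 10) (.ev (nat_lit 2384) (nat_lit
 67108864) (.ev (nat_lit 2397) (nat_lit 32768) .dd))) (.ch (nat_lit 12) (.ev (nat_lit 2368) (nat_lit 67141632)
 .dd)))))))) (.br (nat_lit 12) (.ch (nat_lit 6) (.ev (nat_lit 1424) (nat_lit 72417280) (.nd (nat_lit 1664) (.br
 (nat_lit 9) (.br (nat_lit 6) (.ch (nat_lit 4) (.ev (nat_lit 1680) (nat_lit 32768) (.ev (nat_lit 2052) (nat_lit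
 131072) (.ev (nat_lit 2061) (nat_lit 34359738368) .dd)))) (.ch (nat_lit 6) (.ev (nat_lit 1680) (nat_lit
 34359771136) (.ev (nat_lit 1693) (nat_lit 131072) .dd)))) (.br (nat_lit 10) (.ch (nat_lit 9) (.ev (nat_lit
 1680) (nat_lit 34359738368) (.ev (nat_lit 1716) (nat_lit 32768) (.ev (nat_lit 1725) (nat_lit 131072) .dd))))
 (.ch (nat_lit 10) (.ev (nat_lit 1680) (nat_lit 34359869440) (.ev (nat_lit 1693) (nat_lit 32768) .dd))))))))
 (.ch (nat_lit 12) (.ev (nat_lit 1424) (nat_lit 1146880) (.nd (nat_lit 1664) (.br (nat_lit 10) (.br (nat_lit 1)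
 (.ch (nat_lit 0) (.ev (nat_lit 1680) (nat_lit 67108864) (.ev (nat_lit 2000) (nat_lit 131072) (.fin (nat_lit
 576144642402631852))))) (.br (nat_lit 4) (.ch (nat_lit 1) (.ev (nat_lit 1716) (nat_lit 131072) (.ev (nat_lit
 2548) (nat_lit 34426847232) (.ev (nat_lit 2557) (nat_lit 4194304) .dd)))) (.ch (nat_lit 4) (.ev (nat_lit 1680)
 (nat_lit 34431041536) (.ev (nat_lit 1693) (nat_lit 131072) .dd))))) (.br (nat_lit 11) (.ch (nat_lit 10) (.ev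
 (nat_lit 1680) (nat_lit 34364063744) (.ev (nat_lit 1693) (nat_lit 67108864) .dd))) (.br (nat_lit 12) (.ch
 (nat_lit 11) (.ev (nat_lit 1680) (nat_lit 4325376) (.ev (nat_lit 1892) (nat_lit 34359738368) (.ev (nat_lit
 1901) (nat_lit 67108864) .dd)))) (.ch (nat_lit 12) (.ev (nat_lit 1680) (nat_lit 67239936) (.ev (nat_lit 2052)
 (nat_lit 34359738368) (.ev (nat_lit 2061) (nat_lit 4194304) .dd)))))))))))))))))))))))) (.br (nat_lit 54) (.br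
 (nat_lit 47) (.br (nat_lit 43) (.br (nat_lit 42) (.ch (nat_lit 39) (.ev (nat_lit 52) (nat_lit 37783824) (.ev
 (nat_lit 180) (nat_lit 67108864) (.ev (nat_lit 884) (nat_lit 2) (.ev (nat_lit 916) (nat_lit 2097152) (.ev
 (nat_lit 1108) (nat_lit 1048576) (.ev (nat_lit 1268) (nat_lit 1073741824) (.nd (nat_lit 1408) (.br (nat_lit 5)
 (.br (nat_lit 2) (.ch (nat_lit 0) (.ev (nat_lit 1424) (nat_lit 34376908800) (.nd (nat_lit 1664) (.br (nat_lit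
 7) (.br (nat_lit 5) (.ch (nat_lit 2) (.ev (nat_lit 1680) (nat_lit 524288) (.ev (nat_lit 1716) (nat_lit 65536)
 (.ev (nat_lit 1725) (nat_lit 8192) .dd)))) (.ch (nat_lit 5) (.ev (nat_lit 1904) (nat_lit 524288) (.ev (nat_lit
 1936) (nat_lit 8192) (.ev (nat_lit 1949) (nat_lit 65536) .dd))))) (.br (nat_lit 10) (.ch (nat_lit 7) (.ev
 (nat_lit 1680) (nat_lit 524288) (.ev (nat_lit 1716) (nat_lit 65536) (.ev (nat_lit 1725) (nat_lit 8192) .dd))))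
 (.ch (nat_lit 10) (.ev (nat_lit 1680) (nat_lit 589824) (.ev (nat_lit 1693) (nat_lit 8192) .dd)))))))) (.br
 (nat_lit 4) (.ch (nat_lit 2) (.ev (nat_lit 1424) (nat_lit 34359746560) (.nd (nat_lit 1664) (.br (nat_lit 6)
 (.br (nat_lit 4) (.ch (nat_lit 1) (.ev (nat_lit 1680) (nat_lit 327680) (.ev (nat_lit 1952) (nat_lit 524288)
 (.ev (nat_lit 2052) (nat_lit 16777216) (.ev (nat_lit 2061) (nat_lit 131072) .dd))))) (.ch (nat_lit 4) (.ev
 (nat_lit 1680) (nat_lit 17170432) (.fin (nat_lit 576558059603051176))))) (.br (nat_lit 7) (.ch (nat_lit 6)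
 (.ev (nat_lit 1680) (nat_lit 17170432) (.ev (nat_lit 1716) (nat_lit 524288) (.ev (nat_lit 1725) (nat_lit
 65536) .dd)))) (.br (nat_lit 10) (.ch (nat_lit 7) (.ev (nat_lit 1680) (nat_lit 327680) (.ev (nat_lit 2340)
 (nat_lit 524288) (.ev (nat_lit 2548) (nat_lit 131072) (.ev (nat_lit 2557) (nat_lit 16777216) .dd))))) (.ch
 (nat_lit 10) (.ev (nat_lit 1680) (nat_lit 589824) (.ev (nat_lit 2400) (nat_lit 262144) (.ev (nat_lit 2740)
 (nat_lit 131072) (.ev (nat_lit 2749) (nat_lit 16777216) .dd))))))))))) (.ch (nat_lit 4) (.ev (nat_lit 1424)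
 (nat_lit 34360467456) (.nd (nat_lit 1664) (.br (nat_lit 9) (.br (nat_lit 4) (.ch (nat_lit 0) (.ev (nat_lit
 1680) (nat_lit 17039360) .dd)) (.ch (nat_lit 4) (.ev (nat_lit 1680) (nat_lit 17039360) .dd))) (.br (nat_lit
 11) (.ch (nat_lit 9) (.ev (nat_lit 1680) (nat_lit 16777216) (.ev (nat_lit 1693) (nat_lit 262144) .dd))) (.br
 (nat_lit 12) (.ch (nat_lit 11) (.ev (nat_lit 1716) (nat_lit 262144) (.ev (nat_lit 1725) (nat_lit 16777216)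
 .dd))) (.ch (nat_lit 12) (.ev (nat_lit 1680) (nat_lit 17039360) .dd)))))))))) (.br (nat_lit 10) (.br (nat_lit
 6) (.ch (nat_lit 5) (.ev (nat_lit 1424) (nat_lit 34360459264) (.nd (nat_lit 1664) (.br (nat_lit 10) (.br
 (nat_lit 8) (.ch (nat_lit 4) (.ev (nat_lit 1680) (nat_lit 17039360) (.ev (nat_lit 1693) (nat_lit 8192) .dd)))
 (.ch (nat_lit 8) (.ev (nat_lit 1680) (nat_lit 16785408) (.ev (nat_lit 1693) (nat_lit 262144) .dd)))) (.br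
 (nat_lit 11) (.ch (nat_lit 10) (.ev (nat_lit 1680) (nat_lit 17039360) (.ev (nat_lit 1693) (nat_lit 8192)
 .dd))) (.br (nat_lit 12) (.ch (nat_lit 11) (.ev (nat_lit 1680) (nat_lit 8192) (.ev (nat_lit 1728) (nat_lit
 17039360) .dd))) (.ch (nat_lit 12) (.ev (nat_lit 1680) (nat_lit 270336) (.ev (nat_lit 1693) (nat_lit 16777216)
 .dd))))))))) (.ch (nat_lit 6) (.ev (nat_lit 1424) (nat_lit 73728) (.nd (nat_lit 1664) (.br (nat_lit 6) (.br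
 (nat_lit 3) (.ch (nat_lit 1) (.ev (nat_lit 1680) (nat_lit 34376908800) (.ev (nat_lit 1693) (nat_lit 524288)
 .dd))) (.br (nat_lit 4) (.ch (nat_lit 3) (.ev (nat_lit 1680) (nat_lit 34360393728) (.ev (nat_lit 1716)
 (nat_lit 262144) (.ev (nat_lit 1725) (nat_lit 16777216) .dd)))) (.ch (nat_lit 4) (.ev (nat_lit 1680) (nat_lit
 262144) (.ev (nat_lit 1716) (nat_lit 131072) (.ev (nat_lit 2052) (nat_lit 524288) (.ev (nat_lit 2340) (nat_lit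
 34359738368) (.ev (nat_lit 2349) (nat_lit 16777216) .dd)))))))) (.br (nat_lit 7) (.ch (nat_lit 6) (.ev
 (nat_lit 1680) (nat_lit 34377039872) (.ev (nat_lit 1716) (nat_lit 131072) (.ev (nat_lit 1725) (nat_lit 262144)
 .dd)))) (.br (nat_lit 11) (.ch (nat_lit 7) (.ev (nat_lit 1680) (nat_lit 393216) (.ev (nat_lit 1716) (nat_lit
 16777216) (.ev (nat_lit 1904) (nat_lit 34359738368) (.ev (nat_lit 1917) (nat_lit 524288) .dd))))) (.ch
 (nat_lit 11) (.ev (nat_lit 1680) (nat_lit 786432) (.ev (nat_lit 1892) (nat_lit 16777216) (.ev (nat_lit 2016)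
 (nat_lit 131072) (.ev (nat_lit 2029) (nat_lit 34359738368) .dd)))))))))))) (.br (nat_lit 12) (.ch (nat_lit 10)
 (.ev (nat_lit 1424) (nat_lit 17760256) (.nd (nat_lit 1664) (.br (nat_lit 8) (.br (nat_lit 7) (.ch (nat_lit 6)
 (.ev (nat_lit 1680) (nat_lit 34359738368) (.ev (nat_lit 1693) (nat_lit 8192) .dd))) (.ch (nat_lit 7) (.ev
 (nat_lit 1680) (nat_lit 34359746560) .dd))) (.br (nat_lit 9) (.ch (nat_lit 8) (.ev (nat_lit 1680) (nat_lit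
 34359746560) .dd)) (.ch (nat_lit 9) (.ev (nat_lit 1680) (nat_lit 8192) (.ev (nat_lit 1693) (nat_lit
 34359738368) .dd)))))))) (.ch (nat_lit 12) (.ev (nat_lit 1424) (nat_lit 589824) (.nd (nat_lit 1664) (.br
 (nat_lit 7) (.br (nat_lit 1) (.ch (nat_lit 0) (.ev (nat_lit 1680) (nat_lit 16777216) (.ev (nat_lit 1716)
 (nat_lit 131072) (.ev (nat_lit 1952) (nat_lit 34359738368) (.ev (nat_lit 2052) (nat_lit 262144) (.ev (nat_lit
 2061) (nat_lit 8192) .dd)))))) (.ch (nat_lit 1) (.ev (nat_lit 1680) (nat_lit 17178624) (.ev (nat_lit 1693)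
 (nat_lit 34359738368) .dd)))) (.br (nat_lit 9) (.ch (nat_lit 7) (.ev (nat_lit 1680) (nat_lit 34359738368) (.ev
 (nat_lit 1716) (nat_lit 262144) (.ev (nat_lit 2052) (nat_lit 131072) (.ev (nat_lit 2368) (nat_lit 16777216)
 (.ev (nat_lit 2381) (nat_lit 8192) .dd)))))) (.br (nat_lit 11) (.ch (nat_lit 9) (.ev (nat_lit 1680) (nat_lit
 16777216) (.ev (nat_lit 2180) (nat_lit 131072) (.ev (nat_lit 3140) (nat_lit 8192) (.fin (nat_lit
 576496486429704754)))))) (.ch (nat_lit 11) (.ev (nat_lit 1680) (nat_lit 17178624) (.ev (nat_lit 1693) (nat_lit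
 34359738368) .dd)))))))))))))))))))) (.ch (nat_lit 42) (.ev (nat_lit 52) (nat_lit 2295810) (.ev (nat_lit 340)
 (nat_lit 1073774592) (.ev (nat_lit 404) (nat_lit 1048576) (.ev (nat_lit 436) (nat_lit 8192) (.ev (nat_lit 692)
 (nat_lit 256) (.ev (nat_lit 756) (nat_lit 4194304) (.ev (nat_lit 852) (nat_lit 16) (.nd (nat_lit 1408) (.br
 (nat_lit 9) (.br (nat_lit 5) (.ch (nat_lit 0) (.ev (nat_lit 1424) (nat_lit 34376515584) (.nd (nat_lit 1664)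
 (.br (nat_lit 8) (.br (nat_lit 5) (.ch (nat_lit 0) (.ev (nat_lit 1680) (nat_lit 101187584) (.ev (nat_lit 1693)
 (nat_lit 262144) .dd))) (.br (nat_lit 6) (.ch (nat_lit 5) (.ev (nat_lit 1680) (nat_lit 100925440) (.ev
 (nat_lit 1693) (nat_lit 524288) .dd))) (.ch (nat_lit 6) (.ev (nat_lit 1680) (nat_lit 34340864) (.ev (nat_lit
 1693) (nat_lit 67108864) .dd))))) (.br (nat_lit 10) (.ch (nat_lit 8) (.ev (nat_lit 1892) (nat_lit 262144) (.ev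
 (nat_lit 2180) (nat_lit 524288) (.ev (nat_lit 3092) (nat_lit 67108864) (.ev (nat_lit 3101) (nat_lit 33554432)
 .dd))))) (.br (nat_lit 12) (.ch (nat_lit 10) (.ev (nat_lit 1680) (nat_lit 524288) (.ev (nat_lit 2740) (nat_lit
 67108864) (.fin (nat_lit 576672407858135512))))) (.ch (nat_lit 12) (.ev (nat_lit 1680) (nat_lit 67633152) (.ev
 (nat_lit 1892) (nat_lit 262144) (.ev (nat_lit 1901) (nat_lit 33554432) .dd)))))))))) (.ch (nat_lit 5) (.ev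
 (nat_lit 1424) (nat_lit 34360000512) (.nd (nat_lit 1664) (.br (nat_lit 4) (.br (nat_lit 3) (.ch (nat_lit 0)
 (.ev (nat_lit 1680) (nat_lit 34078720) (.ev (nat_lit 1716) (nat_lit 67108864) (.ev (nat_lit 1725) (nat_lit
 16777216) .dd)))) (.ch (nat_lit 3) (.ev (nat_lit 1680) (nat_lit 83886080) (.ev (nat_lit 2272) (nat_lit 524288)
 (.ev (nat_lit 2285) (nat_lit 33554432) .dd))))) (.br (nat_lit 8) (.ch (nat_lit 4) (.ev (nat_lit 1680) (nat_lit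
 50331648) (.ev (nat_lit 1892) (nat_lit 67108864) (.ev (nat_lit 1901) (nat_lit 524288) .dd)))) (.br (nat_lit
 12) (.ch (nat_lit 8) (.ev (nat_lit 2192) (nat_lit 83886080) (.ev (nat_lit 2208) (nat_lit 34078720) .dd))) (.ch
 (nat_lit 12) (.ev (nat_lit 1680) (nat_lit 83886080) (.ev (nat_lit 1792) (nat_lit 524288) (.ev (nat_lit 1805)
 (nat_lit 33554432) .dd))))))))))) (.br (nat_lit 10) (.ch (nat_lit 9) (.ev (nat_lit 1424) (nat_lit 34377302016)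
 (.nd (nat_lit 1664) (.br (nat_lit 9) (.br (nat_lit 6) (.ch (nat_lit 3) (.ev (nat_lit 1680) (nat_lit 33554432)
 (.ev (nat_lit 1693) (nat_lit 67108864) .dd))) (.ch (nat_lit 6) (.ev (nat_lit 1680) (nat_lit 67108864) (.ev
 (nat_lit 1693) (nat_lit 33554432) .dd)))) (.br (nat_lit 10) (.ch (nat_lit 9) (.ev (nat_lit 1680) (nat_lit
 67108864) (.ev (nat_lit 1693) (nat_lit 33554432) .dd))) (.br (nat_lit 12) (.ch (nat_lit 10) (.ev (nat_lit
 1680) (nat_lit 67108864) (.ev (nat_lit 1693) (nat_lit 33554432) .dd))) (.ch (nat_lit 12) (.ev (nat_lit 1680)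
 (nat_lit 33554432) (.ev (nat_lit 1693) (nat_lit 67108864) .dd))))))))) (.br (nat_lit 12) (.ch (nat_lit 10)
 (.ev (nat_lit 1424) (nat_lit 34443886592) (.nd (nat_lit 1664) (.br (nat_lit 7) (.br (nat_lit 2) (.ch (nat_lit
 0) (.ev (nat_lit 1680) (nat_lit 33554432) (.ev (nat_lit 1693) (nat_lit 524288) .dd))) (.br (nat_lit 3) (.ch
 (nat_lit 2) (.ev (nat_lit 1680) (nat_lit 524288) (.ev (nat_lit 1693) (nat_lit 33554432) .dd))) (.ch (nat_lit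
 3) (.ev (nat_lit 1680) (nat_lit 524288) (.ev (nat_lit 1693) (nat_lit 33554432) .dd))))) (.br (nat_lit 8) (.ch
 (nat_lit 7) (.ev (nat_lit 1680) (nat_lit 33554432) (.ev (nat_lit 1693) (nat_lit 524288) .dd))) (.br (nat_lit
 12) (.ch (nat_lit 8) (.ev (nat_lit 1680) (nat_lit 33554432) (.ev (nat_lit 1693) (nat_lit 524288) .dd))) (.ch
 (nat_lit 12) (.ev (nat_lit 1680) (nat_lit 33554432) (.ev (nat_lit 1693) (nat_lit 524288) .dd))))))))) (.ch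
 (nat_lit 12) (.ev (nat_lit 1424) (nat_lit 50855936) (.nd (nat_lit 1664) (.br (nat_lit 10) (.br (nat_lit 7)
 (.ch (nat_lit 1) (.ev (nat_lit 1680) (nat_lit 262144) (.ev (nat_lit 2976) (nat_lit 34426847232) .dd))) (.br
 (nat_lit 9) (.ch (nat_lit 7) (.ev (nat_lit 1680) (nat_lit 34426847232) (.ev (nat_lit 1693) (nat_lit 262144)
 .dd))) (.ch (nat_lit 9) (.ev (nat_lit 1680) (nat_lit 34426847232) (.ev (nat_lit 1693) (nat_lit 262144)
 .dd))))) (.br (nat_lit 11) (.ch (nat_lit 10) (.ev (nat_lit 1680) (nat_lit 67108864) (.ev (nat_lit 1728)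
 (nat_lit 34359738368) (.ev (nat_lit 1741) (nat_lit 262144) .dd)))) (.br (nat_lit 12) (.ch (nat_lit 11) (.ev
 (nat_lit 1680) (nat_lit 34360000512) (.ev (nat_lit 1693) (nat_lit 67108864) .dd))) (.ch (nat_lit 12) (.ev
 (nat_lit 1680) (nat_lit 67108864) (.ev (nat_lit 1744) (nat_lit 262144) (.ev (nat_lit 1757) (nat_lit
 34359738368) .dd))))))))))))))))))))))) (.br (nat_lit 44) (.ch (nat_lit 43) (.ev (nat_lit 52) (nat_lit
 34359910400) (.ev (nat_lit 224) (nat_lit 1199376658) .dd))) (.br (nat_lit 46) (.ch (nat_lit 44) (.ev (nat_lit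
 52) (nat_lit 35439378690) (.ev (nat_lit 308) (nat_lit 67108864) (.ev (nat_lit 692) (nat_lit 8192) (.ev
 (nat_lit 1236) (nat_lit 32768) (.nd (nat_lit 1408) (.br (nat_lit 6) (.br (nat_lit 1) (.ch (nat_lit 0) (.ev
 (nat_lit 1424) (nat_lit 17039376) (.nd (nat_lit 1664) (.br (nat_lit 5) (.br (nat_lit 4) (.ch (nat_lit 2) (.ev
 (nat_lit 1680) (nat_lit 33554432) (.ev (nat_lit 2180) (nat_lit 2162688) (.ev (nat_lit 2189) (nat_lit 2048)
 .dd)))) (.ch (nat_lit 4) (.ev (nat_lit 1680) (nat_lit 33554432) (.ev (nat_lit 1728) (nat_lit 2097152) (.ev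
 (nat_lit 1892) (nat_lit 2048) (.ev (nat_lit 1901) (nat_lit 65536) .dd)))))) (.br (nat_lit 8) (.ch (nat_lit 5)
 (.ev (nat_lit 1680) (nat_lit 2099200) (.ev (nat_lit 2340) (nat_lit 65536) (.ev (nat_lit 2349) (nat_lit
 33554432) .dd)))) (.br (nat_lit 12) (.ch (nat_lit 8) (.ev (nat_lit 1680) (nat_lit 67584) (.ev (nat_lit 2592)
 (nat_lit 2097152) (.ev (nat_lit 2605) (nat_lit 33554432) .dd)))) (.ch (nat_lit 12) (.ev (nat_lit 1680)
 (nat_lit 2048) (.ev (nat_lit 1952) (nat_lit 65536) (.ev (nat_lit 2192) (nat_lit 35651584) .dd)))))))))) (.br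
 (nat_lit 2) (.ch (nat_lit 1) (.ev (nat_lit 1424) (nat_lit 19204112) (.ev (nat_lit 1437) (nat_lit 33554432)
 .dd))) (.ch (nat_lit 2) (.ev (nat_lit 1424) (nat_lit 52428816) (.nd (nat_lit 1664) (.br (nat_lit 6) (.br
 (nat_lit 3) (.ch (nat_lit 0) (.ev (nat_lit 1680) (nat_lit 327680) (.ev (nat_lit 1693) (nat_lit 2048) .dd)))
 (.br (nat_lit 4) (.ch (nat_lit 3) (.ev (nat_lit 1680) (nat_lit 262144) (.ev (nat_lit 2340) (nat_lit 65536)
 (.ev (nat_lit 2349) (nat_lit 2048) .dd)))) (.ch (nat_lit 4) (.ev (nat_lit 1680) (nat_lit 262144) (.ev (nat_lit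
 1892) (nat_lit 65536) (.ev (nat_lit 1901) (nat_lit 2048) .dd)))))) (.br (nat_lit 10) (.ch (nat_lit 6) (.ev
 (nat_lit 1680) (nat_lit 329728) .dd)) (.br (nat_lit 11) (.ch (nat_lit 10) (.ev (nat_lit 1680) (nat_lit 67584)
 (.ev (nat_lit 1693) (nat_lit 262144) .dd))) (.ch (nat_lit 11) (.ev (nat_lit 1680) (nat_lit 2048) (.ev (nat_lit
 1892) (nat_lit 65536) (.ev (nat_lit 1901) (nat_lit 262144) .dd)))))))))))) (.br (nat_lit 10) (.br (nat_lit 9)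
 (.ch (nat_lit 6) (.ev (nat_lit 1424) (nat_lit 50399232) (.nd (nat_lit 1664) (.br (nat_lit 4) (.br (nat_lit 3)
 (.ch (nat_lit 1) (.ev (nat_lit 1892) (nat_lit 2097152) (.ev (nat_lit 2180) (nat_lit 262144) (.ev (nat_lit
 2189) (nat_lit 16) .dd)))) (.ch (nat_lit 3) (.ev (nat_lit 1680) (nat_lit 2359312) .dd))) (.br (nat_lit 9) (.ch
 (nat_lit 4) (.ev (nat_lit 1680) (nat_lit 2359312) .dd)) (.br (nat_lit 12) (.ch (nat_lit 9) (.ev (nat_lit 1920)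
 (nat_lit 2097152) (.ev (nat_lit 2644) (nat_lit 262144) (.ev (nat_lit 2653) (nat_lit 16) .dd)))) (.ch (nat_lit
 12) (.ev (nat_lit 1680) (nat_lit 2097152) (.ev (nat_lit 2112) (nat_lit 262160) .dd))))))))) (.ch (nat_lit 9)
 (.ev (nat_lit 1424) (nat_lit 50399232) (.nd (nat_lit 1664) (.br (nat_lit 8) (.br (nat_lit 5) (.ch (nat_lit 0)
 (.ev (nat_lit 1680) (nat_lit 16) (.ev (nat_lit 1716) (nat_lit 262144) (.ev (nat_lit 1725) (nat_lit 2097152)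
 .dd)))) (.ch (nat_lit 5) (.ev (nat_lit 1680) (nat_lit 2359312) .dd))) (.br (nat_lit 9) (.ch (nat_lit 8) (.ev
 (nat_lit 1680) (nat_lit 262144) (.ev (nat_lit 1760) (nat_lit 2097168) .dd))) (.br (nat_lit 11) (.ch (nat_lit
 9) (.ev (nat_lit 1680) (nat_lit 262160) (.ev (nat_lit 1693) (nat_lit 2097152) .dd))) (.ch (nat_lit 11) (.ev
 (nat_lit 1680) (nat_lit 2097168) (.ev (nat_lit 1693) (nat_lit 262144) .dd)))))))))) (.br (nat_lit 12) (.ch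
 (nat_lit 10) (.ev (nat_lit 1424) (nat_lit 19138576) (.nd (nat_lit 1664) (.br (nat_lit 8) (.br (nat_lit 5) (.ch
 (nat_lit 3) (.ev (nat_lit 2052) (nat_lit 33554432) (.ev (nat_lit 2061) (nat_lit 65536) .dd))) (.br (nat_lit 7)
 (.ch (nat_lit 5) (.ev (nat_lit 1680) (nat_lit 33619968) .dd)) (.ch (nat_lit 7) (.ev (nat_lit 1680) (nat_lit
 33619968) .dd)))) (.br (nat_lit 9) (.ch (nat_lit 8) (.ev (nat_lit 2052) (nat_lit 33554432) (.ev (nat_lit 2061)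
 (nat_lit 65536) .dd))) (.br (nat_lit 12) (.ch (nat_lit 9) (.ev (nat_lit 1680) (nat_lit 33619968) .dd)) (.ch
 (nat_lit 12) (.ev (nat_lit 1680) (nat_lit 33554432) (.ev (nat_lit 1693) (nat_lit 65536) .dd))))))))) (.ch
 (nat_lit 12) (.ev (nat_lit 1424) (nat_lit 2164752) (.nd (nat_lit 1664) (.br (nat_lit 11) (.br (nat_lit 10)
 (.ch (nat_lit 9) (.ev (nat_lit 1680) (nat_lit 17039360) (.ev (nat_lit 1693) (nat_lit 33554432) .dd))) (.ch
 (nat_lit 10) (.ev (nat_lit 1680) (nat_lit 17039360) (.ev (nat_lit 1693) (nat_lit 33554432) .dd)))) (.br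
 (nat_lit 12) (.ch (nat_lit 11) (.ev (nat_lit 1680) (nat_lit 17039360) (.ev (nat_lit 1693) (nat_lit 33554432)
 .dd))) (.ch (nat_lit 12) (.ev (nat_lit 1716) (nat_lit 262144) (.ev (nat_lit 2052) (nat_lit 33554432) (.ev
 (nat_lit 2061) (nat_lit 16777216) .dd)))))))))))))))))) (.ch (nat_lit 46) (.ev (nat_lit 52) (nat_lit
 1126795266) (.ev (nat_lit 628) (nat_lit 4194304) (.ev (nat_lit 832) (nat_lit 34428297488) .dd))))))) (.br
 (nat_lit 50) (.br (nat_lit 48) (.ch (nat_lit 47) (.ev (nat_lit 52) (nat_lit 1097410562) (.ev (nat_lit 788)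
 (nat_lit 34359738368) (.ev (nat_lit 1140) (nat_lit 262144) (.ev (nat_lit 1236) (nat_lit 33554432) (.nd
 (nat_lit 1408) (.br (nat_lit 4) (.br (nat_lit 1) (.ch (nat_lit 0) (.ev (nat_lit 1424) (nat_lit 67272720) (.nd
 (nat_lit 1664) (.br (nat_lit 6) (.br (nat_lit 2) (.ch (nat_lit 0) (.ev (nat_lit 2352) (nat_lit 256) (.ev
 (nat_lit 2365) (nat_lit 1048576) .dd))) (.br (nat_lit 4) (.ch (nat_lit 2) (.ev (nat_lit 1680) (nat_lit
 1048576) (.ev (nat_lit 1693) (nat_lit 256) .dd))) (.ch (nat_lit 4) (.ev (nat_lit 1680) (nat_lit 1048576) (.ev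
 (nat_lit 1693) (nat_lit 256) .dd))))) (.br (nat_lit 7) (.ch (nat_lit 6) (.ev (nat_lit 1680) (nat_lit 256) (.ev
 (nat_lit 1693) (nat_lit 1048576) .dd))) (.br (nat_lit 10) (.ch (nat_lit 7) (.ev (nat_lit 1716) (nat_lit 256)
 (.ev (nat_lit 1725) (nat_lit 1048576) .dd))) (.ch (nat_lit 10) (.ev (nat_lit 1680) (nat_lit 1048832)
 .dd)))))))) (.br (nat_lit 2) (.ch (nat_lit 1) (.ev (nat_lit 1424) (nat_lit 1048592) (.nd (nat_lit 1664) (.br
 (nat_lit 9) (.br (nat_lit 3) (.ch (nat_lit 0) (.ev (nat_lit 1680) (nat_lit 67141888) (.ev (nat_lit 1693)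
 (nat_lit 131072) .dd))) (.br (nat_lit 6) (.ch (nat_lit 3) (.ev (nat_lit 1680) (nat_lit 33024) (.ev (nat_lit
 2740) (nat_lit 131072) (.ev (nat_lit 2749) (nat_lit 67108864) .dd)))) (.ch (nat_lit 6) (.ev (nat_lit 1680)
 (nat_lit 67109120) (.ev (nat_lit 1716) (nat_lit 131072) (.ev (nat_lit 1725) (nat_lit 32768) .dd)))))) (.br
 (nat_lit 10) (.ch (nat_lit 9) (.ev (nat_lit 1680) (nat_lit 67272704) (.ev (nat_lit 1693) (nat_lit 256) .dd)))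
 (.br (nat_lit 12) (.ch (nat_lit 10) (.ev (nat_lit 1680) (nat_lit 67240192) (.ev (nat_lit 1693) (nat_lit 32768)
 .dd))) (.ch (nat_lit 12) (.ev (nat_lit 1680) (nat_lit 67141632) (.ev (nat_lit 1716) (nat_lit 131072) (.ev
 (nat_lit 1725) (nat_lit 256) .dd)))))))))) (.ch (nat_lit 2) (.ev (nat_lit 1424) (nat_lit 1081344) (.nd
 (nat_lit 1664) (.br (nat_lit 6) (.br (nat_lit 5) (.ch (nat_lit 0) (.ev (nat_lit 1680) (nat_lit 67109136) (.ev
 (nat_lit 1693) (nat_lit 131072) .dd))) (.ch (nat_lit 5) (.ev (nat_lit 1680) (nat_lit 131072) (.ev (nat_lit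
 2340) (nat_lit 16) (.ev (nat_lit 2788) (nat_lit 67108864) (.ev (nat_lit 2797) (nat_lit 256) .dd)))))) (.br
 (nat_lit 7) (.ch (nat_lit 6) (.ev (nat_lit 1680) (nat_lit 67240208) .dd)) (.br (nat_lit 10) (.ch (nat_lit 7)
 (.ev (nat_lit 1680) (nat_lit 67108864) (.ev (nat_lit 1952) (nat_lit 256) (.ev (nat_lit 2052) (nat_lit 131072)
 (.ev (nat_lit 2061) (nat_lit 16) .dd))))) (.ch (nat_lit 10) (.ev (nat_lit 1680) (nat_lit 67108864) (.ev
 (nat_lit 2368) (nat_lit 131072) (.ev (nat_lit 2740) (nat_lit 16) (.ev (nat_lit 2749) (nat_lit 256)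
 .dd))))))))))))) (.br (nat_lit 10) (.ch (nat_lit 4) (.ev (nat_lit 1424) (nat_lit 1081360) (.nd (nat_lit 1664)
 (.br (nat_lit 6) (.br (nat_lit 3) (.ch (nat_lit 0) (.ev (nat_lit 1680) (nat_lit 256) (.ev (nat_lit 1716)
 (nat_lit 131072) (.ev (nat_lit 1725) (nat_lit 67108864) .dd)))) (.br (nat_lit 5) (.ch (nat_lit 3) (.ev
 (nat_lit 1680) (nat_lit 67108864) (.ev (nat_lit 2340) (nat_lit 131072) (.ev (nat_lit 2349) (nat_lit 256)
 .dd)))) (.ch (nat_lit 5) (.ev (nat_lit 1680) (nat_lit 67109120) (.ev (nat_lit 1693) (nat_lit 131072) .dd)))))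
 (.br (nat_lit 9) (.ch (nat_lit 6) (.ev (nat_lit 1680) (nat_lit 67109120) (.ev (nat_lit 1693) (nat_lit 131072)
 .dd))) (.br (nat_lit 11) (.ch (nat_lit 9) (.ev (nat_lit 1680) (nat_lit 131328) (.ev (nat_lit 1693) (nat_lit
 67108864) .dd))) (.ch (nat_lit 11) (.ev (nat_lit 1680) (nat_lit 131328) (.ev (nat_lit 1693) (nat_lit 67108864)
 .dd))))))))) (.br (nat_lit 12) (.ch (nat_lit 10) (.ev (nat_lit 1424) (nat_lit 67240208) (.nd (nat_lit 1664)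
 (.br (nat_lit 6) (.br (nat_lit 2) (.ch (nat_lit 0) (.ev (nat_lit 1680) (nat_lit 1081344) .dd)) (.br (nat_lit
 3) (.ch (nat_lit 2) (.ev (nat_lit 1680) (nat_lit 1081344) .dd)) (.ch (nat_lit 3) (.ev (nat_lit 3040) (nat_lit
 32768) (.ev (nat_lit 3053) (nat_lit 1048576) .dd))))) (.br (nat_lit 7) (.ch (nat_lit 6) (.ev (nat_lit 2644)
 (nat_lit 32768) (.ev (nat_lit 2653) (nat_lit 1048576) .dd))) (.br (nat_lit 8) (.ch (nat_lit 7) (.ev (nat_lit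
 1680) (nat_lit 1048576) (.ev (nat_lit 1693) (nat_lit 32768) .dd))) (.ch (nat_lit 8) (.ev (nat_lit 1680)
 (nat_lit 32768) (.ev (nat_lit 1693) (nat_lit 1048576) .dd))))))))) (.ch (nat_lit 12) (.ev (nat_lit 1424)
 (nat_lit 1048576) (.nd (nat_lit 1664) (.br (nat_lit 8) (.br (nat_lit 1) (.ch (nat_lit 0) (.ev (nat_lit 1680)
 (nat_lit 67141904) (.ev (nat_lit 1693) (nat_lit 131072) .dd))) (.br (nat_lit 4) (.ch (nat_lit 1) (.ev (nat_lit
 1680) (nat_lit 67109136) (.ev (nat_lit 1744) (nat_lit 131072) (.ev (nat_lit 1757) (nat_lit 32768) .dd)))) (.ch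
 (nat_lit 4) (.ev (nat_lit 1680) (nat_lit 67240208) (.ev (nat_lit 1693) (nat_lit 32768) .dd))))) (.br (nat_lit
 10) (.ch (nat_lit 8) (.ev (nat_lit 1680) (nat_lit 163856) (.ev (nat_lit 1728) (nat_lit 67109120) .dd))) (.br
 (nat_lit 12) (.ch (nat_lit 10) (.ev (nat_lit 1680) (nat_lit 32784) (.ev (nat_lit 1716) (nat_lit 67109120) (.ev
 (nat_lit 1725) (nat_lit 131072) .dd)))) (.ch (nat_lit 12) (.ev (nat_lit 1680) (nat_lit 164096) (.ev (nat_lit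
 1716) (nat_lit 67108864) (.ev (nat_lit 1725) (nat_lit 16) .dd))))))))))))))))))) (.br (nat_lit 49) (.ch
 (nat_lit 48) (.ev (nat_lit 52) (nat_lit 34431213584) (.ev (nat_lit 608) (nat_lit 1128073474) .dd))) (.ch
 (nat_lit 49) (.ev (nat_lit 52) (nat_lit 71567378) (.ev (nat_lit 340) (nat_lit 34359738368) (.ev (nat_lit 372)
 (nat_lit 17301504) (.ev (nat_lit 756) (nat_lit 1073741824) (.nd (nat_lit 1408) (.br (nat_lit 6) (.br (nat_lit
 4) (.ch (nat_lit 1) (.ev (nat_lit 1424) (nat_lit 1187840) (.nd (nat_lit 1664) (.br (nat_lit 9) (.br (nat_lit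
 6) (.ch (nat_lit 0) (.ev (nat_lit 1680) (nat_lit 33652992) (.ev (nat_lit 1693) (nat_lit 2097152) .dd))) (.br
 (nat_lit 8) (.ch (nat_lit 6) (.ev (nat_lit 1680) (nat_lit 2129920) (.ev (nat_lit 1716) (nat_lit 65536) (.ev
 (nat_lit 1892) (nat_lit 256) (.ev (nat_lit 1901) (nat_lit 33554432) .dd))))) (.ch (nat_lit 8) (.ev (nat_lit
 1680) (nat_lit 33652992) (.ev (nat_lit 1693) (nat_lit 2097152) .dd))))) (.br (nat_lit 10) (.ch (nat_lit 9)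
 (.ev (nat_lit 1680) (nat_lit 2129920) (.ev (nat_lit 1716) (nat_lit 65792) (.ev (nat_lit 1725) (nat_lit
 33554432) .dd)))) (.br (nat_lit 12) (.ch (nat_lit 10) (.ev (nat_lit 1680) (nat_lit 33554688) (.ev (nat_lit
 1716) (nat_lit 65536) (.ev (nat_lit 2352) (nat_lit 2129920) .dd)))) (.ch (nat_lit 12) (.ev (nat_lit 1680)
 (nat_lit 33024) (.ev (nat_lit 1856) (nat_lit 65536) (.ev (nat_lit 1892) (nat_lit 2097152) (.ev (nat_lit 1901)
 (nat_lit 33554432) .dd))))))))))) (.br (nat_lit 5) (.ch (nat_lit 4) (.ev (nat_lit 1424) (nat_lit 36929536)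
 (.nd (nat_lit 1664) (.br (nat_lit 9) (.br (nat_lit 6) (.ch (nat_lit 0) (.ev (nat_lit 1680) (nat_lit 256) (.ev
 (nat_lit 1693) (nat_lit 8192) .dd))) (.br (nat_lit 8) (.ch (nat_lit 6) (.ev (nat_lit 1680) (nat_lit 256) (.ev
 (nat_lit 1693) (nat_lit 8192) .dd))) (.ch (nat_lit 8) (.ev (nat_lit 1680) (nat_lit 8192) (.ev (nat_lit 1693)
 (nat_lit 256) .dd))))) (.br (nat_lit 11) (.ch (nat_lit 9) (.ev (nat_lit 1680) (nat_lit 8448) .dd)) (.br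
 (nat_lit 12) (.ch (nat_lit 11) (.ev (nat_lit 1892) (nat_lit 8192) (.ev (nat_lit 1901) (nat_lit 256) .dd)))
 (.ch (nat_lit 12) (.ev (nat_lit 1680) (nat_lit 8192) (.ev (nat_lit 1693) (nat_lit 256) .dd))))))))) (.ch
 (nat_lit 5) (.ev (nat_lit 1424) (nat_lit 1187840) (.nd (nat_lit 1664) (.br (nat_lit 8) (.br (nat_lit 4) (.ch
 (nat_lit 2) (.ev (nat_lit 1680) (nat_lit 35684352) (.ev (nat_lit 1892) (nat_lit 256) (.ev (nat_lit 1901)
 (nat_lit 65536) .dd)))) (.ch (nat_lit 4) (.ev (nat_lit 1680) (nat_lit 33554432) (.ev (nat_lit 2080) (nat_lit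
 2097152) (.ev (nat_lit 2644) (nat_lit 32768) (.ev (nat_lit 2832) (nat_lit 256) (.ev (nat_lit 2845) (nat_lit
 65536) .dd))))))) (.br (nat_lit 9) (.ch (nat_lit 8) (.ev (nat_lit 1680) (nat_lit 2097152) (.ev (nat_lit 1716)
 (nat_lit 256) (.ev (nat_lit 2788) (nat_lit 32768) (.fin (nat_lit 576443710005789060)))))) (.br (nat_lit 12)
 (.ch (nat_lit 9) (.ev (nat_lit 1680) (nat_lit 33620224) (.ev (nat_lit 1892) (nat_lit 2097152) (.ev (nat_lit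
 1901) (nat_lit 32768) .dd)))) (.ch (nat_lit 12) (.ev (nat_lit 1680) (nat_lit 33652736) (.ev (nat_lit 1716)
 (nat_lit 256) (.ev (nat_lit 1725) (nat_lit 2097152) .dd)))))))))))) (.br (nat_lit 9) (.ch (nat_lit 6) (.ev
 (nat_lit 1424) (nat_lit 35725568) (.nd (nat_lit 1664) (.br (nat_lit 10) (.br (nat_lit 6) (.ch (nat_lit 1) (.ev
 (nat_lit 1680) (nat_lit 1212416) .dd)) (.br (nat_lit 9) (.ch (nat_lit 6) (.ev (nat_lit 1892) (nat_lit 1048576)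
 (.ev (nat_lit 2340) (nat_lit 131072) (.ev (nat_lit 2349) (nat_lit 32768) .dd)))) (.ch (nat_lit 9) (.ev
 (nat_lit 1680) (nat_lit 1179648) (.ev (nat_lit 1693) (nat_lit 32768) .dd))))) (.br (nat_lit 11) (.ch (nat_lit
 10) (.ev (nat_lit 1680) (nat_lit 1179648) (.ev (nat_lit 1693) (nat_lit 32768) .dd))) (.br (nat_lit 12) (.ch
 (nat_lit 11) (.ev (nat_lit 1680) (nat_lit 131072) (.ev (nat_lit 1716) (nat_lit 1048576) (.ev (nat_lit 1725)
 (nat_lit 32768) .dd)))) (.ch (nat_lit 12) (.ev (nat_lit 1680) (nat_lit 1212416) .dd)))))))) (.br (nat_lit 12)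
 (.ch (nat_lit 9) (.ev (nat_lit 1424) (nat_lit 196864) (.nd (nat_lit 1664) (.br (nat_lit 9) (.br (nat_lit 5)
 (.ch (nat_lit 3) (.ev (nat_lit 1680) (nat_lit 33587200) (.ev (nat_lit 1904) (nat_lit 2097152) (.fin (nat_lit
 576465700104127034))))) (.br (nat_lit 6) (.ch (nat_lit 5) (.ev (nat_lit 1680) (nat_lit 36732928) (.ev (nat_lit
 1693) (nat_lit 8192) .dd))) (.ch (nat_lit 6) (.ev (nat_lit 1680) (nat_lit 2138112) (.ev (nat_lit 1744)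
 (nat_lit 1048576) (.ev (nat_lit 1757) (nat_lit 33554432) .dd)))))) (.br (nat_lit 11) (.ch (nat_lit 9) (.ev
 (nat_lit 1680) (nat_lit 8192) (.ev (nat_lit 1716) (nat_lit 1081344) (.ev (nat_lit 2064) (nat_lit 2097152) (.ev
 (nat_lit 2077) (nat_lit 33554432) .dd))))) (.br (nat_lit 12) (.ch (nat_lit 11) (.ev (nat_lit 1680) (nat_lit
 34643968) (.ev (nat_lit 1693) (nat_lit 2097152) .dd))) (.ch (nat_lit 12) (.ev (nat_lit 1680) (nat_lit 3153920)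
 (.ev (nat_lit 1728) (nat_lit 33587200) .dd))))))))) (.ch (nat_lit 12) (.ev (nat_lit 1424) (nat_lit 1245440)
 (.nd (nat_lit 1664) (.br (nat_lit 10) (.br (nat_lit 9) (.ch (nat_lit 4) (.ev (nat_lit 1680) (nat_lit 2138112)
 (.ev (nat_lit 1693) (nat_lit 33554432) .dd))) (.ch (nat_lit 9) (.ev (nat_lit 1680) (nat_lit 33562624) (.ev
 (nat_lit 1728) (nat_lit 32768) (.ev (nat_lit 1741) (nat_lit 2097152) .dd))))) (.br (nat_lit 12) (.ch (nat_lit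
 10) (.ev (nat_lit 1680) (nat_lit 2129920) (.ev (nat_lit 2340) (nat_lit 8192) (.ev (nat_lit 2349) (nat_lit
 33554432) .dd)))) (.ch (nat_lit 12) (.ev (nat_lit 1680) (nat_lit 33595392) (.ev (nat_lit 1693) (nat_lit
 2097152) .dd))))))))))))))))))) (.br (nat_lit 51) (.ch (nat_lit 50) (.ev (nat_lit 52) (nat_lit 117481472) (.ev
 (nat_lit 212) (nat_lit 524288) (.ev (nat_lit 756) (nat_lit 131072) (.nd (nat_lit 1408) (.br (nat_lit 5) (.br
 (nat_lit 2) (.ch (nat_lit 0) (.ev (nat_lit 1424) (nat_lit 34366029840) (.nd (nat_lit 1664) (.br (nat_lit 7)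
 (.br (nat_lit 4) (.ch (nat_lit 0) (.ev (nat_lit 1680) (nat_lit 1073809410) (.ev (nat_lit 2052) (nat_lit 256)
 (.ev (nat_lit 2180) (nat_lit 1048576) (.ev (nat_lit 2189) (nat_lit 262144) .dd))))) (.ch (nat_lit 4) (.ev
 (nat_lit 1904) (nat_lit 1073741824) (.ev (nat_lit 2064) (nat_lit 65536) (.ev (nat_lit 2340) (nat_lit 2050)
 (.ev (nat_lit 2548) (nat_lit 1048576) (.ev (nat_lit 2592) (nat_lit 262144) (.ev (nat_lit 2605) (nat_lit 256)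
 .dd)))))))) (.br (nat_lit 8) (.ch (nat_lit 7) (.ev (nat_lit 1680) (nat_lit 264192) (.ev (nat_lit 1920)
 (nat_lit 1073741824) (.ev (nat_lit 2902) (nat_lit 1114370) .dd)))) (.br (nat_lit 10) (.ch (nat_lit 8) (.ev
 (nat_lit 1680) (nat_lit 1074792706) (.ev (nat_lit 1728) (nat_lit 262144) (.ev (nat_lit 1741) (nat_lit 65536)
 .dd)))) (.ch (nat_lit 10) (.ev (nat_lit 1680) (nat_lit 1074858242) (.ev (nat_lit 1693) (nat_lit 262144)
 .dd))))))))) (.br (nat_lit 4) (.ch (nat_lit 2) (.ev (nat_lit 1424) (nat_lit 35435905026) (.nd (nat_lit 1664)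
 (.br (nat_lit 6) (.br (nat_lit 3) (.ch (nat_lit 1) (.ev (nat_lit 1680) (nat_lit 5245200) .dd)) (.br (nat_lit
 5) (.ch (nat_lit 3) (.ev (nat_lit 1680) (nat_lit 4194560) (.ev (nat_lit 1728) (nat_lit 2048) (.ev (nat_lit
 2052) (nat_lit 1048576) (.ev (nat_lit 2061) (nat_lit 16) .dd))))) (.ch (nat_lit 5) (.ev (nat_lit 1680)
 (nat_lit 2048) (.ev (nat_lit 1892) (nat_lit 256) (.ev (nat_lit 2016) (nat_lit 1048576) (.fin (nat_lit
 576909902988395136)))))))) (.br (nat_lit 7) (.ch (nat_lit 6) (.ev (nat_lit 1680) (nat_lit 1050640) (.ev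
 (nat_lit 2052) (nat_lit 4194304) (.ev (nat_lit 2061) (nat_lit 256) .dd)))) (.br (nat_lit 10) (.ch (nat_lit 7)
 (.ev (nat_lit 1680) (nat_lit 5242896) (.ev (nat_lit 2400) (nat_lit 2304) .dd))) (.ch (nat_lit 10) (.ev
 (nat_lit 1680) (nat_lit 2048) (.ev (nat_lit 1716) (nat_lit 4194304) (.ev (nat_lit 2180) (nat_lit 16) (.ev
 (nat_lit 2340) (nat_lit 256) (.ev (nat_lit 2349) (nat_lit 1048576) .dd)))))))))))) (.ch (nat_lit 4) (.ev
 (nat_lit 1424) (nat_lit 34367406096) (.nd (nat_lit 1664) (.br (nat_lit 8) (.br (nat_lit 5) (.ch (nat_lit 3)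
 (.ev (nat_lit 1680) (nat_lit 2) (.ev (nat_lit 1728) (nat_lit 1073744128) .dd))) (.ch (nat_lit 5) (.ev (nat_lit
 1680) (nat_lit 2050) (.ev (nat_lit 1760) (nat_lit 1073741824) (.ev (nat_lit 1773) (nat_lit 256) .dd))))) (.br
 (nat_lit 11) (.ch (nat_lit 8) (.ev (nat_lit 1680) (nat_lit 2304) (.ev (nat_lit 2192) (nat_lit 1073741824) (.ev
 (nat_lit 2205) (nat_lit 2) .dd)))) (.br (nat_lit 12) (.ch (nat_lit 11) (.ev (nat_lit 1680) (nat_lit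
 1073742080) (.ev (nat_lit 1696) (nat_lit 2050) .dd))) (.ch (nat_lit 12) (.ev (nat_lit 1680) (nat_lit
 1073744128) (.ev (nat_lit 1693) (nat_lit 2) .dd))))))))))) (.br (nat_lit 10) (.br (nat_lit 6) (.ch (nat_lit 5)
 (.ev (nat_lit 1424) (nat_lit 1078984722) (.nd (nat_lit 1664) (.br (nat_lit 4) (.br (nat_lit 3) (.ch (nat_lit
 2) (.ev (nat_lit 1680) (nat_lit 34362099712) (.ev (nat_lit 1696) (nat_lit 65792) .dd))) (.ch (nat_lit 3) (.ev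
 (nat_lit 1680) (nat_lit 2164992) (.ev (nat_lit 1760) (nat_lit 34360000512) .dd)))) (.br (nat_lit 9) (.ch
 (nat_lit 4) (.ev (nat_lit 1680) (nat_lit 34360002816) (.ev (nat_lit 2052) (nat_lit 2097152) (.ev (nat_lit
 2061) (nat_lit 65536) .dd)))) (.br (nat_lit 12) (.ch (nat_lit 9) (.ev (nat_lit 1680) (nat_lit 34359740672)
 (.ev (nat_lit 2180) (nat_lit 262144) (.ev (nat_lit 2352) (nat_lit 2097152) (.ev (nat_lit 2365) (nat_lit 65536)
 .dd))))) (.ch (nat_lit 12) (.ev (nat_lit 1680) (nat_lit 34361901056) (.ev (nat_lit 1716) (nat_lit 262144) (.ev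
 (nat_lit 1728) (nat_lit 2304) .dd)))))))))) (.ch (nat_lit 6) (.ev (nat_lit 1424) (nat_lit 1079052562) (.nd
 (nat_lit 1664) (.br (nat_lit 9) (.br (nat_lit 4) (.ch (nat_lit 3) (.ev (nat_lit 1680) (nat_lit 34359738368)
 (.ev (nat_lit 1696) (nat_lit 2359296) .dd))) (.ch (nat_lit 4) (.ev (nat_lit 1680) (nat_lit 262144) (.ev
 (nat_lit 2180) (nat_lit 2097152) (.ev (nat_lit 2189) (nat_lit 34359738368) .dd))))) (.br (nat_lit 10) (.ch
 (nat_lit 9) (.ev (nat_lit 1680) (nat_lit 34359738368) (.ev (nat_lit 1892) (nat_lit 2097152) (.ev (nat_lit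
 1901) (nat_lit 262144) .dd)))) (.ch (nat_lit 10) (.ev (nat_lit 1680) (nat_lit 34360000512) (.ev (nat_lit 1693)
 (nat_lit 2097152) .dd))))))))) (.br (nat_lit 12) (.ch (nat_lit 10) (.ev (nat_lit 1424) (nat_lit 35433807890)
 (.nd (nat_lit 1664) (.br (nat_lit 6) (.br (nat_lit 2) (.ch (nat_lit 0) (.ev (nat_lit 1680) (nat_lit 1048832)
 (.ev (nat_lit 1904) (nat_lit 2048) (.ev (nat_lit 2052) (nat_lit 4194304) (.ev (nat_lit 2061) (nat_lit 2097152)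
 .dd))))) (.br (nat_lit 5) (.ch (nat_lit 2) (.ev (nat_lit 1680) (nat_lit 6293504) (.ev (nat_lit 1728) (nat_lit
 256) (.ev (nat_lit 1741) (nat_lit 1048576) .dd)))) (.ch (nat_lit 5) (.ev (nat_lit 1680) (nat_lit 6291712) (.ev
 (nat_lit 1892) (nat_lit 2048) (.ev (nat_lit 1901) (nat_lit 1048576) .dd)))))) (.br (nat_lit 8) (.ch (nat_lit
 6) (.ev (nat_lit 1680) (nat_lit 2097408) (.ev (nat_lit 1716) (nat_lit 1048576) (.fin (nat_lit
 576465700154458678))))) (.br (nat_lit 12) (.ch (nat_lit 8) (.ev (nat_lit 1680) (nat_lit 7340032) (.ev (nat_lit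
 2340) (nat_lit 2048) (.ev (nat_lit 2349) (nat_lit 256) .dd)))) (.ch (nat_lit 12) (.ev (nat_lit 1680) (nat_lit
 1050880) (.ev (nat_lit 1716) (nat_lit 2097152) (.ev (nat_lit 1725) (nat_lit 4194304) .dd)))))))))) (.ch
 (nat_lit 12) (.ev (nat_lit 1424) (nat_lit 34361116930) (.nd (nat_lit 1664) (.br (nat_lit 11) (.br (nat_lit 10)
 (.ch (nat_lit 9) (.ev (nat_lit 1680) (nat_lit 1077936128) (.ev (nat_lit 1716) (nat_lit 16) (.ev (nat_lit 1725)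
 (nat_lit 2097152) .dd)))) (.ch (nat_lit 10) (.ev (nat_lit 1680) (nat_lit 1080033280) (.ev (nat_lit 1693)
 (nat_lit 16) .dd)))) (.br (nat_lit 12) (.ch (nat_lit 11) (.ev (nat_lit 1680) (nat_lit 6291472) (.ev (nat_lit
 1693) (nat_lit 1073741824) .dd))) (.ch (nat_lit 12) (.ev (nat_lit 1680) (nat_lit 2097152) (.ev (nat_lit 1892)
 (nat_lit 4194304) (.ev (nat_lit 2340) (nat_lit 1073741824) (.ev (nat_lit 2349) (nat_lit 16)
 .dd)))))))))))))))))) (.br (nat_lit 53) (.ch (nat_lit 51) (.ev (nat_lit 52) (nat_lit 74743808) (.ev (nat_lit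
 212) (nat_lit 34359738368) (.ev (nat_lit 468) (nat_lit 256) (.ev (nat_lit 1204) (nat_lit 8192) (.nd (nat_lit
 1408) (.br (nat_lit 6) (.br (nat_lit 2) (.ch (nat_lit 0) (.ev (nat_lit 1424) (nat_lit 16908304) (.nd (nat_lit
 1664) (.br (nat_lit 4) (.br (nat_lit 2) (.ch (nat_lit 0) (.ev (nat_lit 1680) (nat_lit 1107363842) (.ev
 (nat_lit 1693) (nat_lit 524288) .dd))) (.ch (nat_lit 2) (.ev (nat_lit 1680) (nat_lit 1074333696) (.ev (nat_lit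
 1716) (nat_lit 2) (.ev (nat_lit 1725) (nat_lit 33554432) .dd))))) (.br (nat_lit 6) (.ch (nat_lit 4) (.ev
 (nat_lit 1680) (nat_lit 34080768) (.ev (nat_lit 1792) (nat_lit 2) (.ev (nat_lit 1808) (nat_lit 1073741824)
 (.ev (nat_lit 1821) (nat_lit 65536) .dd))))) (.br (nat_lit 8) (.ch (nat_lit 6) (.ev (nat_lit 1680) (nat_lit
 1107361794) (.ev (nat_lit 1892) (nat_lit 524288) (.ev (nat_lit 1901) (nat_lit 2048) .dd)))) (.ch (nat_lit 8)
 (.ev (nat_lit 1680) (nat_lit 1107822594) (.ev (nat_lit 1693) (nat_lit 65536) .dd))))))))) (.br (nat_lit 4)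
 (.ch (nat_lit 2) (.ev (nat_lit 1424) (nat_lit 1107296274) (.ev (nat_lit 1460) (nat_lit 65536) (.nd (nat_lit
 1664) (.br (nat_lit 7) (.br (nat_lit 4) (.ch (nat_lit 1) (.ev (nat_lit 1680) (nat_lit 526336) (.ev (nat_lit
 2548) (nat_lit 131072) (.ev (nat_lit 2557) (nat_lit 16777216) .dd)))) (.br (nat_lit 6) (.ch (nat_lit 4) (.ev
 (nat_lit 1680) (nat_lit 16908288) (.ev (nat_lit 1840) (nat_lit 524288) (.ev (nat_lit 1853) (nat_lit 2048)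
 .dd)))) (.ch (nat_lit 6) (.ev (nat_lit 1680) (nat_lit 16910336) (.ev (nat_lit 1693) (nat_lit 524288) .dd)))))
 (.br (nat_lit 10) (.ch (nat_lit 7) (.ev (nat_lit 1680) (nat_lit 131072) (.ev (nat_lit 1716) (nat_lit 524288)
 (.ev (nat_lit 2180) (nat_lit 2048) (.ev (nat_lit 2189) (nat_lit 16777216) .dd))))) (.br (nat_lit 11) (.ch
 (nat_lit 10) (.ev (nat_lit 1680) (nat_lit 524288) (.ev (nat_lit 1744) (nat_lit 131072) (.ev (nat_lit 1904)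
 (nat_lit 2048) (.ev (nat_lit 1917) (nat_lit 16777216) .dd))))) (.ch (nat_lit 11) (.ev (nat_lit 1680) (nat_lit
 17434624) .dd))))))))) (.ch (nat_lit 4) (.ev (nat_lit 1424) (nat_lit 17498128) (.nd (nat_lit 1664) (.br
 (nat_lit 6) (.br (nat_lit 3) (.ch (nat_lit 0) (.ev (nat_lit 1680) (nat_lit 1107296258) (.ev (nat_lit 1693)
 (nat_lit 2048) .dd))) (.br (nat_lit 5) (.ch (nat_lit 3) (.ev (nat_lit 1680) (nat_lit 33554432) (.ev (nat_lit
 1696) (nat_lit 2) (.ev (nat_lit 1716) (nat_lit 2048) (.ev (nat_lit 1725) (nat_lit 1073741824) .dd))))) (.ch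
 (nat_lit 5) (.ev (nat_lit 1680) (nat_lit 2) (.ev (nat_lit 1760) (nat_lit 2048) (.ev (nat_lit 2096) (nat_lit
 1107296256) .dd)))))) (.br (nat_lit 8) (.ch (nat_lit 6) (.ev (nat_lit 1680) (nat_lit 1073743874) (.ev (nat_lit
 1693) (nat_lit 33554432) .dd))) (.br (nat_lit 11) (.ch (nat_lit 8) (.ev (nat_lit 1680) (nat_lit 2048) (.ev
 (nat_lit 1892) (nat_lit 33554432) (.ev (nat_lit 2368) (nat_lit 1073741824) (.ev (nat_lit 2381) (nat_lit 2)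
 .dd))))) (.ch (nat_lit 11) (.ev (nat_lit 1680) (nat_lit 1073743872) (.ev (nat_lit 1716) (nat_lit 2) (.ev
 (nat_lit 1725) (nat_lit 33554432) .dd)))))))))))) (.br (nat_lit 9) (.ch (nat_lit 6) (.ev (nat_lit 1424)
 (nat_lit 1107363840) (.nd (nat_lit 1664) (.br (nat_lit 9) (.br (nat_lit 4) (.ch (nat_lit 1) (.ev (nat_lit
 1680) (nat_lit 16908288) (.ev (nat_lit 1716) (nat_lit 524290) (.ev (nat_lit 1725) (nat_lit 16) .dd)))) (.br
 (nat_lit 7) (.ch (nat_lit 4) (.ev (nat_lit 1680) (nat_lit 131090) (.ev (nat_lit 1892) (nat_lit 524288) (.ev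
 (nat_lit 1901) (nat_lit 16777216) .dd)))) (.ch (nat_lit 7) (.ev (nat_lit 1680) (nat_lit 131088) (.ev (nat_lit
 1716) (nat_lit 524288) (.ev (nat_lit 1760) (nat_lit 2) (.ev (nat_lit 1773) (nat_lit 16777216) .dd))))))) (.br
 (nat_lit 10) (.ch (nat_lit 9) (.ev (nat_lit 1680) (nat_lit 524306) (.ev (nat_lit 1716) (nat_lit 131072) (.ev
 (nat_lit 1725) (nat_lit 16777216) .dd)))) (.br (nat_lit 11) (.ch (nat_lit 10) (.ev (nat_lit 1680) (nat_lit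
 655378) (.ev (nat_lit 1693) (nat_lit 16777216) .dd))) (.ch (nat_lit 11) (.ev (nat_lit 1680) (nat_lit 524306)
 (.ev (nat_lit 1696) (nat_lit 16777216) (.ev (nat_lit 1709) (nat_lit 131072) .dd)))))))))) (.br (nat_lit 12)
 (.ch (nat_lit 9) (.ev (nat_lit 1424) (nat_lit 1073940498) (.nd (nat_lit 1664) (.br (nat_lit 10) (.br (nat_lit
 3) (.ch (nat_lit 0) (.ev (nat_lit 1680) (nat_lit 16777216) (.ev (nat_lit 1904) (nat_lit 33554432) (.ev
 (nat_lit 1917) (nat_lit 524288) .dd)))) (.br (nat_lit 9) (.ch (nat_lit 3) (.ev (nat_lit 1680) (nat_lit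
 34078720) (.ev (nat_lit 1693) (nat_lit 16777216) .dd))) (.ch (nat_lit 9) (.ev (nat_lit 1680) (nat_lit
 50855936) .dd)))) (.br (nat_lit 11) (.ch (nat_lit 10) (.ev (nat_lit 1680) (nat_lit 33554432) (.ev (nat_lit
 1716) (nat_lit 524288) (.ev (nat_lit 1725) (nat_lit 16777216) .dd)))) (.br (nat_lit 12) (.ch (nat_lit 11) (.ev
 (nat_lit 1716) (nat_lit 524288) (.ev (nat_lit 2180) (nat_lit 16777216) (.ev (nat_lit 2189) (nat_lit 33554432)
 .dd)))) (.ch (nat_lit 12) (.ev (nat_lit 1680) (nat_lit 524288) (.ev (nat_lit 1892) (nat_lit 16777216) (.ev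
 (nat_lit 1901) (nat_lit 33554432) .dd)))))))))) (.ch (nat_lit 12) (.ev (nat_lit 1424) (nat_lit 34277378) (.nd
 (nat_lit 1664) (.br (nat_lit 10) (.br (nat_lit 4) (.ch (nat_lit 0) (.ev (nat_lit 1680) (nat_lit 1090519056)
 .dd)) (.br (nat_lit 9) (.ch (nat_lit 4) (.ev (nat_lit 1680) (nat_lit 1090519040) (.ev (nat_lit 1693) (nat_lit
 16) .dd))) (.ch (nat_lit 9) (.ev (nat_lit 1680) (nat_lit 1090519056) .dd)))) (.br (nat_lit 11) (.ch (nat_lit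
 10) (.ev (nat_lit 2180) (nat_lit 1073741824) (.nd (nat_lit 3456) (.br (nat_lit 6) (.ch (nat_lit 3) (.ev
 (nat_lit 3472) (nat_lit 16) (.ev (nat_lit 3485) (nat_lit 16777216) .dd))) (.ch (nat_lit 6) (.fin (nat_lit
 576118254584939256))))))) (.br (nat_lit 12) (.ch (nat_lit 11) (.ev (nat_lit 1680) (nat_lit 1090519040) (.ev
 (nat_lit 1693) (nat_lit 16) .dd))) (.ch (nat_lit 12) (.ev (nat_lit 1716) (nat_lit 16) (.ev (nat_lit 1728)
 (nat_lit 16777216) (.ev (nat_lit 1741) (nat_lit 1073741824) .dd))))))))))))))))))) (.ch (nat_lit 53) (.ev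
 (nat_lit 52) (nat_lit 35501703170) (.ev (nat_lit 340) (nat_lit 4194304) (.ev (nat_lit 660) (nat_lit 8192) (.ev
 (nat_lit 820) (nat_lit 2048) (.nd (nat_lit 1408) (.br (nat_lit 9) (.br (nat_lit 2) (.ch (nat_lit 0) (.ev
 (nat_lit 1424) (nat_lit 16941328) (.nd (nat_lit 1664) (.br (nat_lit 6) (.br (nat_lit 2) (.ch (nat_lit 0) (.ev
 (nat_lit 1680) (nat_lit 35651584) (.ev (nat_lit 2180) (nat_lit 524288) (.ev (nat_lit 2189) (nat_lit 262144)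
 .dd)))) (.br (nat_lit 5) (.ch (nat_lit 2) (.ev (nat_lit 1680) (nat_lit 786432) (.ev (nat_lit 2180) (nat_lit
 33554432) (.ev (nat_lit 2189) (nat_lit 2097152) .dd)))) (.ch (nat_lit 5) (.ev (nat_lit 1680) (nat_lit
 35913728) (.ev (nat_lit 1693) (nat_lit 524288) .dd))))) (.br (nat_lit 8) (.ch (nat_lit 6) (.ev (nat_lit 1680)
 (nat_lit 36438016) .dd)) (.br (nat_lit 10) (.ch (nat_lit 8) (.ev (nat_lit 2340) (nat_lit 33554432) (.ev
 (nat_lit 3024) (nat_lit 2097152) (.ev (nat_lit 3108) (nat_lit 524288) (.ev (nat_lit 3117) (nat_lit 262144)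
 .dd))))) (.ch (nat_lit 10) (.ev (nat_lit 1680) (nat_lit 524288) (.ev (nat_lit 2052) (nat_lit 2097152) (.fin
 (nat_lit 576250196263387816))))))))))) (.br (nat_lit 4) (.ch (nat_lit 2) (.ev (nat_lit 1424) (nat_lit
 19169536) (.nd (nat_lit 1664) (.br (nat_lit 5) (.br (nat_lit 1) (.ch (nat_lit 0) (.ev (nat_lit 1680) (nat_lit
 34078720) (.ev (nat_lit 1696) (nat_lit 131088) .dd))) (.br (nat_lit 3) (.ch (nat_lit 1) (.ev (nat_lit 1680)
 (nat_lit 33554448) (.ev (nat_lit 1892) (nat_lit 524288) (.ev (nat_lit 1901) (nat_lit 131072) .dd)))) (.ch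
 (nat_lit 3) (.ev (nat_lit 1680) (nat_lit 131072) (.ev (nat_lit 1716) (nat_lit 33554432) (.ev (nat_lit 2052)
 (nat_lit 524288) (.ev (nat_lit 2061) (nat_lit 16) .dd))))))) (.br (nat_lit 7) (.br (nat_lit 6) (.ch (nat_lit
 5) (.ev (nat_lit 1680) (nat_lit 524288) (.ev (nat_lit 2340) (nat_lit 33554432) (.ev (nat_lit 2644) (nat_lit
 16) (.ev (nat_lit 2653) (nat_lit 131072) .dd))))) (.ch (nat_lit 6) (.ev (nat_lit 1680) (nat_lit 131088) (.ev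
 (nat_lit 1892) (nat_lit 33554432) (.ev (nat_lit 1901) (nat_lit 524288) .dd))))) (.br (nat_lit 11) (.ch
 (nat_lit 7) (.ev (nat_lit 1680) (nat_lit 524304) (.ev (nat_lit 1696) (nat_lit 131072) (.ev (nat_lit 1709)
 (nat_lit 33554432) .dd)))) (.ch (nat_lit 11) (.ev (nat_lit 1680) (nat_lit 655376) (.ev (nat_lit 1693) (nat_lit
 33554432) .dd))))))))) (.ch (nat_lit 4) (.ev (nat_lit 1424) (nat_lit 2785296) (.nd (nat_lit 1664) (.br
 (nat_lit 8) (.br (nat_lit 5) (.ch (nat_lit 4) (.ev (nat_lit 1680) (nat_lit 33816832) (.ev (nat_lit 1693)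
 (nat_lit 16777216) .dd))) (.br (nat_lit 6) (.ch (nat_lit 5) (.ev (nat_lit 1680) (nat_lit 262400) (.ev (nat_lit
 1892) (nat_lit 16777216) (.ev (nat_lit 1901) (nat_lit 33554432) .dd)))) (.ch (nat_lit 6) (.ev (nat_lit 1680)
 (nat_lit 17039616) (.ev (nat_lit 1693) (nat_lit 33554432) .dd))))) (.br (nat_lit 11) (.ch (nat_lit 8) (.ev
 (nat_lit 1680) (nat_lit 16777216) (.ev (nat_lit 1892) (nat_lit 33554432) (.ev (nat_lit 2180) (nat_lit 256)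
 (.ev (nat_lit 2189) (nat_lit 262144) .dd))))) (.br (nat_lit 12) (.ch (nat_lit 11) (.ev (nat_lit 1680) (nat_lit
 16777216) (.ev (nat_lit 1716) (nat_lit 262400) (.ev (nat_lit 1725) (nat_lit 33554432) .dd)))) (.ch (nat_lit
 12) (.ev (nat_lit 1680) (nat_lit 50593792) (.ev (nat_lit 1693) (nat_lit 256) .dd))))))))))) (.br (nat_lit 10)
 (.ch (nat_lit 9) (.ev (nat_lit 1424) (nat_lit 131328) (.nd (nat_lit 1664) (.br (nat_lit 6) (.br (nat_lit 3)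
 (.ch (nat_lit 0) (.ev (nat_lit 1680) (nat_lit 32784) (.ev (nat_lit 2340) (nat_lit 2097152) (.ev (nat_lit 2976)
 (nat_lit 16777216) (.ev (nat_lit 3140) (nat_lit 262144) (.nd (nat_lit 3456) (.br (nat_lit 8) (.ch (nat_lit 7)
 (.ev (nat_lit 3472) (nat_lit 34078720) .dd)) (.ch (nat_lit 8) (.fin (nat_lit 576588845309969168)))))))))) (.ch
 (nat_lit 3) (.ev (nat_lit 1680) (nat_lit 36470784) (.ev (nat_lit 1716) (nat_lit 16777216) (.ev (nat_lit 1725)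
 (nat_lit 16) .dd))))) (.br (nat_lit 8) (.ch (nat_lit 6) (.ev (nat_lit 1680) (nat_lit 53248000) (.ev (nat_lit
 1693) (nat_lit 16) .dd))) (.br (nat_lit 12) (.ch (nat_lit 8) (.ev (nat_lit 1680) (nat_lit 16809984) (.ev
 (nat_lit 2112) (nat_lit 262144) (.ev (nat_lit 2180) (nat_lit 34078720) (.ev (nat_lit 2740) (nat_lit 16) (.ev
 (nat_lit 2749) (nat_lit 2097152) .dd)))))) (.ch (nat_lit 12) (.ev (nat_lit 1680) (nat_lit 2097152) (.ev
 (nat_lit 2224) (nat_lit 16) (.ev (nat_lit 2340) (nat_lit 262144) (.ev (nat_lit 2432) (nat_lit 524288) (.ev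
 (nat_lit 2484) (nat_lit 32768) (.ev (nat_lit 2548) (nat_lit 33554432) (.ev (nat_lit 2557) (nat_lit 16777216)
 .dd)))))))))))))) (.br (nat_lit 12) (.ch (nat_lit 10) (.ev (nat_lit 1424) (nat_lit 53346320) (.nd (nat_lit
 1664) (.br (nat_lit 7) (.br (nat_lit 6) (.ch (nat_lit 2) (.fin (nat_lit 576456904017396268))) (.ch (nat_lit 6)
 (.ev (nat_lit 1680) (nat_lit 256) (.ev (nat_lit 1693) (nat_lit 32768) .dd)))) (.br (nat_lit 9) (.ch (nat_lit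
 7) (.ev (nat_lit 1680) (nat_lit 33024) .dd)) (.ch (nat_lit 9) (.ev (nat_lit 1680) (nat_lit 32768) (.ev
 (nat_lit 1693) (nat_lit 256) .dd)))))))) (.ch (nat_lit 12) (.ev (nat_lit 1424) (nat_lit 34340864) (.nd
 (nat_lit 1664) (.br (nat_lit 7) (.br (nat_lit 1) (.ch (nat_lit 0) (.ev (nat_lit 1680) (nat_lit 16941328) (.ev
 (nat_lit 1693) (nat_lit 2097152) .dd))) (.br (nat_lit 4) (.ch (nat_lit 1) (.ev (nat_lit 1680) (nat_lit
 16777216) (.ev (nat_lit 1716) (nat_lit 272) (.ev (nat_lit 1892) (nat_lit 2097152) (.ev (nat_lit 2368) (nat_lit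
 131072) (.ev (nat_lit 2381) (nat_lit 32768) .dd)))))) (.ch (nat_lit 4) (.ev (nat_lit 1680) (nat_lit 33040)
 (.ev (nat_lit 1716) (nat_lit 2228224) (.ev (nat_lit 1725) (nat_lit 16777216) .dd)))))) (.br (nat_lit 8) (.ch
 (nat_lit 7) (.ev (nat_lit 1680) (nat_lit 2129920) (.ev (nat_lit 1716) (nat_lit 16908288) (.ev (nat_lit 2484)
 (nat_lit 16) (.ev (nat_lit 2493) (nat_lit 256) .dd))))) (.br (nat_lit 10) (.ch (nat_lit 8) (.ev (nat_lit 1680)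
 (nat_lit 16809984) (.ev (nat_lit 1716) (nat_lit 2097152) (.ev (nat_lit 1892) (nat_lit 16) (.ev (nat_lit 2180)
 (nat_lit 256) (.ev (nat_lit 2189) (nat_lit 131072) .dd)))))) (.ch (nat_lit 10) (.ev (nat_lit 1680) (nat_lit
 18907136) (.ev (nat_lit 1716) (nat_lit 131088) (.ev (nat_lit 1725) (nat_lit 256) .dd)))))))))))))))))))))))
 (.br (nat_lit 64) (.br (nat_lit 57) (.br (nat_lit 55) (.ch (nat_lit 54) (.ev (nat_lit 52) (nat_lit
 34413881618) (.nd (nat_lit 1408) (.br (nat_lit 4) (.br (nat_lit 2) (.ch (nat_lit 1) (.ev (nat_lit 1424)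
 (nat_lit 262144) (.nd (nat_lit 1664) (.br (nat_lit 8) (.br (nat_lit 6) (.ch (nat_lit 0) (.ev (nat_lit 1680)
 (nat_lit 67207168) (.ev (nat_lit 1744) (nat_lit 4194304) (.ev (nat_lit 1757) (nat_lit 1073741824) .dd)))) (.ch
 (nat_lit 6) (.ev (nat_lit 1680) (nat_lit 1077968896) (.ev (nat_lit 1696) (nat_lit 67174400) .dd)))) (.br
 (nat_lit 9) (.ch (nat_lit 8) (.ev (nat_lit 1680) (nat_lit 1077936128) (.ev (nat_lit 2180) (nat_lit 32768) (.ev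
 (nat_lit 2340) (nat_lit 65536) (.ev (nat_lit 2349) (nat_lit 67108864) .dd))))) (.br (nat_lit 10) (.ch (nat_lit
 9) (.ev (nat_lit 1680) (nat_lit 1145077760) (.ev (nat_lit 1693) (nat_lit 65536) .dd))) (.ch (nat_lit 10) (.ev
 (nat_lit 1680) (nat_lit 1073774592) (.ev (nat_lit 1716) (nat_lit 4194304) (.ev (nat_lit 1892) (nat_lit
 67108864) (.ev (nat_lit 1901) (nat_lit 65536) .dd))))))))))) (.ch (nat_lit 2) (.ev (nat_lit 1424) (nat_lit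
 1073774592) (.nd (nat_lit 1664) (.br (nat_lit 5) (.br (nat_lit 1) (.ch (nat_lit 0) (.ev (nat_lit 1680)
 (nat_lit 67436544) (.ev (nat_lit 1693) (nat_lit 4194304) .dd))) (.br (nat_lit 3) (.ch (nat_lit 1) (.ev
 (nat_lit 1680) (nat_lit 4259840) (.ev (nat_lit 1936) (nat_lit 67108864) (.ev (nat_lit 1949) (nat_lit 262144)
 .dd)))) (.ch (nat_lit 3) (.ev (nat_lit 1680) (nat_lit 71630848) .dd)))) (.br (nat_lit 7) (.br (nat_lit 6) (.ch
 (nat_lit 5) (.ev (nat_lit 1680) (nat_lit 262144) (.ev (nat_lit 1892) (nat_lit 4194304) (.ev (nat_lit 2340)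
 (nat_lit 67108864) (.ev (nat_lit 2349) (nat_lit 65536) .dd))))) (.ch (nat_lit 6) (.ev (nat_lit 1680) (nat_lit
 67371008) (.ev (nat_lit 1716) (nat_lit 4194304) (.ev (nat_lit 1725) (nat_lit 65536) .dd))))) (.br (nat_lit 11)
 (.ch (nat_lit 7) (.ev (nat_lit 1680) (nat_lit 71630848) .dd)) (.ch (nat_lit 11) (.ev (nat_lit 1680) (nat_lit
 4259840) (.ev (nat_lit 1892) (nat_lit 262144) (.ev (nat_lit 1901) (nat_lit 67108864) .dd))))))))))) (.br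
 (nat_lit 9) (.ch (nat_lit 4) (.ev (nat_lit 1424) (nat_lit 1140948992) (.nd (nat_lit 1664) (.br (nat_lit 8)
 (.br (nat_lit 3) (.ch (nat_lit 0) (.ev (nat_lit 1680) (nat_lit 262144) (.ev (nat_lit 1693) (nat_lit 4194304)
 .dd))) (.br (nat_lit 6) (.ch (nat_lit 3) (.ev (nat_lit 1680) (nat_lit 262144) (.ev (nat_lit 1693) (nat_lit
 4194304) .dd))) (.ch (nat_lit 6) (.ev (nat_lit 1680) (nat_lit 4456448) .dd)))) (.br (nat_lit 9) (.ch (nat_lit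
 8) (.ev (nat_lit 1716) (nat_lit 262144) (.ev (nat_lit 1725) (nat_lit 4194304) .dd))) (.br (nat_lit 12) (.ch
 (nat_lit 9) (.ev (nat_lit 1680) (nat_lit 4194304) (.ev (nat_lit 1693) (nat_lit 262144) .dd))) (.ch (nat_lit
 12) (.ev (nat_lit 1680) (nat_lit 4194304) (.ev (nat_lit 1693) (nat_lit 262144) .dd))))))))) (.br (nat_lit 12)
 (.ch (nat_lit 9) (.ev (nat_lit 1424) (nat_lit 1078034432) (.nd (nat_lit 1664) (.br (nat_lit 8) (.br (nat_lit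
 3) (.ch (nat_lit 0) (.ev (nat_lit 1680) (nat_lit 67108864) (.ev (nat_lit 1693) (nat_lit 262144) .dd))) (.br
 (nat_lit 5) (.ch (nat_lit 3) (.ev (nat_lit 1716) (nat_lit 262144) (.ev (nat_lit 1725) (nat_lit 67108864)
 .dd))) (.ch (nat_lit 5) (.ev (nat_lit 1680) (nat_lit 67371008) .dd)))) (.br (nat_lit 10) (.ch (nat_lit 8) (.ev
 (nat_lit 1892) (nat_lit 262144) (.ev (nat_lit 1901) (nat_lit 67108864) .dd))) (.br (nat_lit 12) (.ch (nat_lit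
 10) (.ev (nat_lit 1680) (nat_lit 67371008) .dd)) (.ch (nat_lit 12) (.ev (nat_lit 1680) (nat_lit 262144) (.ev
 (nat_lit 1693) (nat_lit 67108864) .dd))))))))) (.ch (nat_lit 12) (.ev (nat_lit 1424) (nat_lit 360448) (.nd
 (nat_lit 1664) (.br (nat_lit 8) (.br (nat_lit 4) (.ch (nat_lit 0) (.ev (nat_lit 1680) (nat_lit 1140850688)
 (.ev (nat_lit 1693) (nat_lit 4194304) .dd))) (.br (nat_lit 7) (.ch (nat_lit 4) (.ev (nat_lit 1680) (nat_lit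
 1145044992) .dd)) (.ch (nat_lit 7) (.ev (nat_lit 1680) (nat_lit 1140850688) (.ev (nat_lit 1693) (nat_lit
 4194304) .dd))))) (.br (nat_lit 11) (.br (nat_lit 10) (.ch (nat_lit 8) (.ev (nat_lit 1904) (nat_lit 67108864)
 (.ev (nat_lit 2052) (nat_lit 4194304) (.ev (nat_lit 2061) (nat_lit 1073741824) .dd)))) (.ch (nat_lit 10) (.ev
 (nat_lit 1680) (nat_lit 4194304) (.fin (nat_lit 576558059225564236))))) (.br (nat_lit 12) (.ch (nat_lit 11)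
 (.ev (nat_lit 1680) (nat_lit 1077936128) (.ev (nat_lit 1693) (nat_lit 67108864) .dd))) (.ch (nat_lit 12) (.ev
 (nat_lit 1680) (nat_lit 1145044992) .dd)))))))))))))) (.ch (nat_lit 55) (.ev (nat_lit 52) (nat_lit 1640450)
 (.ev (nat_lit 116) (nat_lit 262144) (.ev (nat_lit 788) (nat_lit 16777216) (.ev (nat_lit 916) (nat_lit 8192)
 (.ev (nat_lit 1044) (nat_lit 67108864) (.nd (nat_lit 1408) (.br (nat_lit 6) (.br (nat_lit 1) (.ch (nat_lit 0)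
 (.ev (nat_lit 1424) (nat_lit 34397650960) (.nd (nat_lit 1664) (.br (nat_lit 7) (.br (nat_lit 4) (.ch (nat_lit
 0) (.ev (nat_lit 1680) (nat_lit 1073741824) (.ev (nat_lit 2080) (nat_lit 256) (.ev (nat_lit 2093) (nat_lit
 2097152) .dd)))) (.br (nat_lit 5) (.ch (nat_lit 4) (.ev (nat_lit 1680) (nat_lit 1073742080) (.ev (nat_lit
 1693) (nat_lit 2097152) .dd))) (.ch (nat_lit 5) (.ev (nat_lit 1680) (nat_lit 1075839232) .dd)))) (.br (nat_lit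
 8) (.ch (nat_lit 7) (.ev (nat_lit 1680) (nat_lit 2097152) (.ev (nat_lit 1744) (nat_lit 1073742080) .dd))) (.br
 (nat_lit 10) (.ch (nat_lit 8) (.ev (nat_lit 1680) (nat_lit 1073742080) (.ev (nat_lit 1693) (nat_lit 2097152)
 .dd))) (.ch (nat_lit 10) (.ev (nat_lit 1680) (nat_lit 1073742080) (.ev (nat_lit 1693) (nat_lit 2097152)
 .dd))))))))) (.br (nat_lit 5) (.ch (nat_lit 1) (.ev (nat_lit 1424) (nat_lit 34361999376) (.nd (nat_lit 1664)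
 (.br (nat_lit 8) (.br (nat_lit 6) (.ch (nat_lit 1) (.ev (nat_lit 1680) (nat_lit 33554688) (.ev (nat_lit 2096)
 (nat_lit 1073741824) (.ev (nat_lit 2109) (nat_lit 4194304) .dd)))) (.ch (nat_lit 6) (.ev (nat_lit 1680)
 (nat_lit 1107296256) (.ev (nat_lit 1716) (nat_lit 4194304) (.ev (nat_lit 1725) (nat_lit 256) .dd))))) (.br
 (nat_lit 9) (.ch (nat_lit 8) (.ev (nat_lit 1680) (nat_lit 1111490816) .dd)) (.br (nat_lit 12) (.ch (nat_lit 9)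
 (.ev (nat_lit 1680) (nat_lit 1077936384) (.ev (nat_lit 1693) (nat_lit 33554432) .dd))) (.ch (nat_lit 12) (.ev
 (nat_lit 1680) (nat_lit 37748736) (.ev (nat_lit 1716) (nat_lit 256) (.ev (nat_lit 1725) (nat_lit 1073741824)
 .dd)))))))))) (.ch (nat_lit 5) (.ev (nat_lit 1424) (nat_lit 1078067216) (.nd (nat_lit 1664) (.br (nat_lit 8)
 (.br (nat_lit 3) (.ch (nat_lit 0) (.ev (nat_lit 1680) (nat_lit 33587200) (.ev (nat_lit 2112) (nat_lit
 34359738368) (.ev (nat_lit 2180) (nat_lit 256) (.ev (nat_lit 2189) (nat_lit 2097152) .dd))))) (.br (nat_lit 4)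
 (.ch (nat_lit 3) (.ev (nat_lit 1680) (nat_lit 33587456) (.ev (nat_lit 2180) (nat_lit 2097152) (.ev (nat_lit
 2189) (nat_lit 34359738368) .dd)))) (.ch (nat_lit 4) (.ev (nat_lit 1680) (nat_lit 34393325568) (.ev (nat_lit
 2484) (nat_lit 2097152) (.ev (nat_lit 2493) (nat_lit 256) .dd)))))) (.br (nat_lit 9) (.ch (nat_lit 8) (.ev
 (nat_lit 1680) (nat_lit 2097152) (.ev (nat_lit 1744) (nat_lit 33554432) (.ev (nat_lit 1892) (nat_lit 256) (.ev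
 (nat_lit 2052) (nat_lit 32768) (.ev (nat_lit 2061) (nat_lit 34359738368) .dd)))))) (.br (nat_lit 10) (.ch
 (nat_lit 9) (.ev (nat_lit 1680) (nat_lit 2130176) (.ev (nat_lit 2052) (nat_lit 33554432) (.ev (nat_lit 2061)
 (nat_lit 34359738368) .dd)))) (.ch (nat_lit 10) (.ev (nat_lit 1680) (nat_lit 34359771136) (.ev (nat_lit 1716)
 (nat_lit 256) (.ev (nat_lit 2340) (nat_lit 33554432) (.ev (nat_lit 2349) (nat_lit 2097152) .dd)))))))))))))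
 (.br (nat_lit 9) (.ch (nat_lit 6) (.ev (nat_lit 1424) (nat_lit 1107427584) (.nd (nat_lit 1664) (.br (nat_lit
 7) (.br (nat_lit 3) (.ch (nat_lit 1) (.ev (nat_lit 1680) (nat_lit 34359738368) (.ev (nat_lit 1716) (nat_lit
 6291456) (.fin (nat_lit 576672408267079892))))) (.ch (nat_lit 3) (.ev (nat_lit 1680) (nat_lit 2129920) (.ev
 (nat_lit 1716) (nat_lit 4194304) (.ev (nat_lit 2180) (nat_lit 16) (.ev (nat_lit 2189) (nat_lit 34359738368)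
 .dd)))))) (.br (nat_lit 9) (.ch (nat_lit 7) (.ev (nat_lit 1680) (nat_lit 32784) (.ev (nat_lit 1716) (nat_lit
 4194304) (.ev (nat_lit 1760) (nat_lit 34359738368) (.ev (nat_lit 1773) (nat_lit 2097152) .dd))))) (.br
 (nat_lit 10) (.ch (nat_lit 9) (.ev (nat_lit 1680) (nat_lit 34366029824) (.ev (nat_lit 2052) (nat_lit 32768)
 (.ev (nat_lit 2061) (nat_lit 16) .dd)))) (.ch (nat_lit 10) (.ev (nat_lit 1680) (nat_lit 2129936) (.ev (nat_lit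
 1716) (nat_lit 4194304) (.ev (nat_lit 1725) (nat_lit 34359738368) .dd)))))))))) (.br (nat_lit 10) (.ch
 (nat_lit 9) (.ev (nat_lit 1424) (nat_lit 34399715584) (.nd (nat_lit 1664) (.br (nat_lit 8) (.br (nat_lit 5)
 (.ch (nat_lit 3) (.ev (nat_lit 1680) (nat_lit 1073774608) .dd)) (.br (nat_lit 6) (.ch (nat_lit 5) (.ev
 (nat_lit 1680) (nat_lit 16) (.ev (nat_lit 2484) (nat_lit 1073741824) (.ev (nat_lit 2493) (nat_lit 32768)
 .dd)))) (.ch (nat_lit 6) (.ev (nat_lit 1680) (nat_lit 1073774608) .dd)))) (.br (nat_lit 10) (.ch (nat_lit 8)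
 (.ev (nat_lit 1936) (nat_lit 1073741824) (.ev (nat_lit 2484) (nat_lit 16) (.ev (nat_lit 2493) (nat_lit 32768)
 .dd)))) (.br (nat_lit 11) (.ch (nat_lit 10) (.ev (nat_lit 1680) (nat_lit 32768) (.ev (nat_lit 1716) (nat_lit
 16) (.ev (nat_lit 1725) (nat_lit 1073741824) .dd)))) (.ch (nat_lit 11) (.ev (nat_lit 1680) (nat_lit
 1073774592) (.ev (nat_lit 1693) (nat_lit 16) .dd))))))))) (.ch (nat_lit 10) (.ev (nat_lit 1424) (nat_lit
 1073774864) (.nd (nat_lit 1664) (.br (nat_lit 7) (.br (nat_lit 5) (.ch (nat_lit 3) (.ev (nat_lit 1680)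
 (nat_lit 34361966592) (.ev (nat_lit 1892) (nat_lit 33554432) (.ev (nat_lit 1901) (nat_lit 4194304) .dd))))
 (.br (nat_lit 6) (.ch (nat_lit 5) (.ev (nat_lit 1680) (nat_lit 33554432) (.ev (nat_lit 2180) (nat_lit
 34361835520) (.ev (nat_lit 2192) (nat_lit 131072) (.ev (nat_lit 2205) (nat_lit 4194304) .dd))))) (.ch (nat_lit
 6) (.ev (nat_lit 1680) (nat_lit 34364063744) (.ev (nat_lit 1716) (nat_lit 2097152) (.ev (nat_lit 1725)
 (nat_lit 33554432) .dd)))))) (.br (nat_lit 8) (.ch (nat_lit 7) (.ev (nat_lit 1680) (nat_lit 35782656) (.ev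
 (nat_lit 1716) (nat_lit 34359738368) (.ev (nat_lit 1725) (nat_lit 4194304) .dd)))) (.br (nat_lit 9) (.ch
 (nat_lit 8) (.ev (nat_lit 1680) (nat_lit 34366160896) (.ev (nat_lit 1693) (nat_lit 33554432) .dd))) (.ch
 (nat_lit 9) (.ev (nat_lit 1680) (nat_lit 131072) (.ev (nat_lit 1716) (nat_lit 2097152) (.ev (nat_lit 2180)
 (nat_lit 34393292800) (.ev (nat_lit 2189) (nat_lit 4194304) .dd)))))))))))))))))))))) (.br (nat_lit 58) (.ch
 (nat_lit 57) (.ev (nat_lit 52) (nat_lit 19015952) (.ev (nat_lit 276) (nat_lit 67108864) (.ev (nat_lit 1012)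
 (nat_lit 262144) (.nd (nat_lit 1408) (.br (nat_lit 6) (.br (nat_lit 1) (.ch (nat_lit 0) (.ev (nat_lit 1424)
 (nat_lit 35471785984) (.nd (nat_lit 1664) (.br (nat_lit 8) (.br (nat_lit 6) (.ch (nat_lit 4) (.ev (nat_lit
 1680) (nat_lit 1048578) (.ev (nat_lit 1693) (nat_lit 65536) .dd))) (.ch (nat_lit 6) (.ev (nat_lit 1680)
 (nat_lit 65538) (.ev (nat_lit 1693) (nat_lit 1048576) .dd)))) (.br (nat_lit 10) (.ch (nat_lit 8) (.ev (nat_lit
 1680) (nat_lit 1114112) (.ev (nat_lit 1693) (nat_lit 2) .dd))) (.br (nat_lit 12) (.ch (nat_lit 10) (.ev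
 (nat_lit 1680) (nat_lit 1048576) (.ev (nat_lit 1728) (nat_lit 65536) (.ev (nat_lit 1741) (nat_lit 2) .dd))))
 (.ch (nat_lit 12) (.ev (nat_lit 1680) (nat_lit 2) (.ev (nat_lit 1892) (nat_lit 1048576) (.ev (nat_lit 1901)
 (nat_lit 65536) .dd)))))))))) (.br (nat_lit 5) (.ch (nat_lit 1) (.ev (nat_lit 1424) (nat_lit 34365603840) (.nd
 (nat_lit 1664) (.br (nat_lit 8) (.br (nat_lit 2) (.ch (nat_lit 1) (.ev (nat_lit 1680) (nat_lit 2) (.fin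
 (nat_lit 576580049028202716)))) (.br (nat_lit 3) (.ch (nat_lit 2) (.ev (nat_lit 1680) (nat_lit 1107296256)
 (.ev (nat_lit 1693) (nat_lit 2) .dd))) (.ch (nat_lit 3) (.ev (nat_lit 1680) (nat_lit 2) (.ev (nat_lit 2180)
 (nat_lit 1073741824) (.ev (nat_lit 2189) (nat_lit 33554432) .dd)))))) (.br (nat_lit 9) (.ch (nat_lit 8) (.ev
 (nat_lit 1680) (nat_lit 1107296256) (.ev (nat_lit 1693) (nat_lit 2) .dd))) (.br (nat_lit 10) (.ch (nat_lit 9)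
 (.ev (nat_lit 1680) (nat_lit 1073741824) (.ev (nat_lit 2052) (nat_lit 2) (.ev (nat_lit 2061) (nat_lit
 33554432) .dd)))) (.ch (nat_lit 10) (.ev (nat_lit 1680) (nat_lit 1107296258) .dd)))))))) (.ch (nat_lit 5) (.ev
 (nat_lit 1424) (nat_lit 35438198786) (.nd (nat_lit 1664) (.br (nat_lit 9) (.br (nat_lit 4) (.ch (nat_lit 0)
 (.ev (nat_lit 1680) (nat_lit 1048576) (.ev (nat_lit 1892) (nat_lit 32768) (.ev (nat_lit 2064) (nat_lit 65536)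
 (.ev (nat_lit 2077) (nat_lit 33554432) .dd))))) (.br (nat_lit 8) (.ch (nat_lit 4) (.ev (nat_lit 1680) (nat_lit
 33619968) (.ev (nat_lit 2180) (nat_lit 32768) (.ev (nat_lit 2189) (nat_lit 1048576) .dd)))) (.ch (nat_lit 8)
 (.ev (nat_lit 2096) (nat_lit 1048576) (.ev (nat_lit 2224) (nat_lit 32768) (.fin (nat_lit
 576443710005789060))))))) (.br (nat_lit 10) (.ch (nat_lit 9) (.ev (nat_lit 1680) (nat_lit 32768) (.ev (nat_lit
 1892) (nat_lit 1048576) (.ev (nat_lit 2528) (nat_lit 65536) (.ev (nat_lit 2541) (nat_lit 33554432) .dd)))))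
 (.br (nat_lit 12) (.ch (nat_lit 10) (.ev (nat_lit 1680) (nat_lit 34668544) (.ev (nat_lit 1693) (nat_lit 32768)
 .dd))) (.ch (nat_lit 12) (.ev (nat_lit 1680) (nat_lit 34701312) .dd)))))))))) (.br (nat_lit 10) (.ch (nat_lit
 6) (.ev (nat_lit 1424) (nat_lit 1107886080) (.nd (nat_lit 1664) (.br (nat_lit 9) (.br (nat_lit 4) (.ch
 (nat_lit 1) (.ev (nat_lit 1680) (nat_lit 34363965440) (.ev (nat_lit 1716) (nat_lit 2) (.ev (nat_lit 1725)
 (nat_lit 1048576) .dd)))) (.br (nat_lit 6) (.ch (nat_lit 4) (.ev (nat_lit 1680) (nat_lit 5242882) (.ev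
 (nat_lit 2484) (nat_lit 34359738368) (.ev (nat_lit 2493) (nat_lit 32768) .dd)))) (.ch (nat_lit 6) (.ev
 (nat_lit 1680) (nat_lit 34359771138) (.ev (nat_lit 1716) (nat_lit 4194304) (.ev (nat_lit 1725) (nat_lit
 1048576) .dd)))))) (.br (nat_lit 11) (.ch (nat_lit 9) (.ev (nat_lit 1680) (nat_lit 34364981248) (.ev (nat_lit
 1716) (nat_lit 32768) (.ev (nat_lit 1725) (nat_lit 2) .dd)))) (.br (nat_lit 12) (.ch (nat_lit 11) (.ev
 (nat_lit 1680) (nat_lit 4194306) (.ev (nat_lit 1716) (nat_lit 1048576) (.ev (nat_lit 1892) (nat_lit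
 34359738368) (.ev (nat_lit 1901) (nat_lit 32768) .dd))))) (.ch (nat_lit 12) (.ev (nat_lit 1680) (nat_lit
 34365014016) (.ev (nat_lit 1693) (nat_lit 2) .dd))))))))) (.br (nat_lit 12) (.ch (nat_lit 10) (.ev (nat_lit
 1424) (nat_lit 35433480194) (.nd (nat_lit 1664) (.br (nat_lit 8) (.br (nat_lit 3) (.ch (nat_lit 0) (.ev
 (nat_lit 1680) (nat_lit 38895616) (.ev (nat_lit 1693) (nat_lit 524288) .dd))) (.br (nat_lit 6) (.ch (nat_lit
 3) (.ev (nat_lit 1680) (nat_lit 1572864) (.ev (nat_lit 1892) (nat_lit 33554432) (.ev (nat_lit 2180) (nat_lit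
 32768) (.ev (nat_lit 2644) (nat_lit 65536) (.ev (nat_lit 2653) (nat_lit 4194304) .dd)))))) (.ch (nat_lit 6)
 (.ev (nat_lit 1680) (nat_lit 4816896) (.ev (nat_lit 1840) (nat_lit 1048576) (.ev (nat_lit 1853) (nat_lit
 33554432) .dd)))))) (.br (nat_lit 9) (.ch (nat_lit 8) (.ev (nat_lit 1680) (nat_lit 4751360) (.ev (nat_lit
 1716) (nat_lit 33554432) (.ev (nat_lit 2052) (nat_lit 65536) (.ev (nat_lit 2061) (nat_lit 1048576) .dd)))))
 (.br (nat_lit 12) (.ch (nat_lit 9) (.ev (nat_lit 1680) (nat_lit 4718592) (.ev (nat_lit 1716) (nat_lit 65536)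
 (.ev (nat_lit 1920) (nat_lit 33554432) (.fin (nat_lit 576474496163594850)))))) (.ch (nat_lit 12) (.ev (nat_lit
 1680) (nat_lit 34668544) (.ev (nat_lit 1744) (nat_lit 4194304) (.ev (nat_lit 2340) (nat_lit 524288) (.ev
 (nat_lit 2349) (nat_lit 32768) .dd))))))))))) (.ch (nat_lit 12) (.ev (nat_lit 1424) (nat_lit 5832706) (.nd
 (nat_lit 1664) (.br (nat_lit 10) (.br (nat_lit 8) (.ch (nat_lit 4) (.ev (nat_lit 1680) (nat_lit 1073774592)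
 (.ev (nat_lit 1716) (nat_lit 33554432) (.ev (nat_lit 1725) (nat_lit 34359738368) .dd)))) (.br (nat_lit 9) (.ch
 (nat_lit 8) (.ev (nat_lit 1680) (nat_lit 35433512960) (.ev (nat_lit 1693) (nat_lit 33554432) .dd))) (.ch
 (nat_lit 9) (.ev (nat_lit 1680) (nat_lit 1073741824) (.ev (nat_lit 1716) (nat_lit 34359738368) (.ev (nat_lit
 1728) (nat_lit 32768) (.ev (nat_lit 1741) (nat_lit 33554432) .dd))))))) (.br (nat_lit 11) (.ch (nat_lit 10)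
 (.ev (nat_lit 1680) (nat_lit 1073774592) (.ev (nat_lit 2192) (nat_lit 34359738368) (.ev (nat_lit 2205)
 (nat_lit 33554432) .dd)))) (.br (nat_lit 12) (.ch (nat_lit 11) (.ev (nat_lit 1680) (nat_lit 33554432) (.ev
 (nat_lit 1892) (nat_lit 1073741824) (.ev (nat_lit 2052) (nat_lit 32768) (.ev (nat_lit 2061) (nat_lit
 34359738368) .dd))))) (.ch (nat_lit 12) (.ev (nat_lit 1680) (nat_lit 35433512960) (.ev (nat_lit 1693) (nat_lit
 33554432) .dd))))))))))))))))) (.br (nat_lit 62) (.ch (nat_lit 58) (.ev (nat_lit 52) (nat_lit 121635072) (.ev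
 (nat_lit 148) (nat_lit 262144) (.ev (nat_lit 756) (nat_lit 34359738368) (.ev (nat_lit 1108) (nat_lit 2) (.nd
 (nat_lit 1408) (.br (nat_lit 4) (.br (nat_lit 1) (.ch (nat_lit 0) (.ev (nat_lit 1424) (nat_lit 688144) (.nd
 (nat_lit 1664) (.br (nat_lit 7) (.br (nat_lit 2) (.ch (nat_lit 0) (.ev (nat_lit 1680) (nat_lit 1075906560)
 (.ev (nat_lit 1824) (nat_lit 1048576) (.ev (nat_lit 1837) (nat_lit 8192) .dd)))) (.br (nat_lit 4) (.ch
 (nat_lit 2) (.ev (nat_lit 1680) (nat_lit 1073750016) (.ev (nat_lit 2208) (nat_lit 1048576) (.ev (nat_lit 2432)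
 (nat_lit 65536) (.fin (nat_lit 576588845593084568)))))) (.ch (nat_lit 4) (.ev (nat_lit 1680) (nat_lit 2048)
 (.ev (nat_lit 1716) (nat_lit 1048576) (.ev (nat_lit 2080) (nat_lit 1073741824) (.ev (nat_lit 2656) (nat_lit
 8192) (.ev (nat_lit 3184) (nat_lit 2097152) (.ev (nat_lit 3197) (nat_lit 65536) .dd))))))))) (.br (nat_lit 8)
 (.ch (nat_lit 7) (.ev (nat_lit 1680) (nat_lit 3147776) (.ev (nat_lit 1744) (nat_lit 1073741824) (.ev (nat_lit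
 2052) (nat_lit 8192) (.ev (nat_lit 2061) (nat_lit 65536) .dd))))) (.br (nat_lit 12) (.ch (nat_lit 8) (.ev
 (nat_lit 1680) (nat_lit 1076961280) (.ev (nat_lit 1693) (nat_lit 2048) .dd))) (.ch (nat_lit 12) (.ev (nat_lit
 1680) (nat_lit 1073817600) (.ev (nat_lit 1716) (nat_lit 1048576) (.ev (nat_lit 1725) (nat_lit 2097152)
 .dd)))))))))) (.br (nat_lit 2) (.ch (nat_lit 1) (.ev (nat_lit 1424) (nat_lit 1638416) (.nd (nat_lit 1664) (.br
 (nat_lit 8) (.br (nat_lit 6) (.ch (nat_lit 0) (.ev (nat_lit 1680) (nat_lit 43008) (.ev (nat_lit 1716) (nat_lit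
 1073872896) (.ev (nat_lit 1725) (nat_lit 2097152) .dd)))) (.ch (nat_lit 6) (.ev (nat_lit 1680) (nat_lit
 1075838976) (.ev (nat_lit 1716) (nat_lit 131072) (.ev (nat_lit 1728) (nat_lit 8192) (.ev (nat_lit 1892)
 (nat_lit 32768) (.ev (nat_lit 1901) (nat_lit 2048) .dd))))))) (.br (nat_lit 9) (.ch (nat_lit 8) (.ev (nat_lit
 1680) (nat_lit 1073782784) (.ev (nat_lit 1936) (nat_lit 2048) (.ev (nat_lit 2740) (nat_lit 131072) (.ev
 (nat_lit 2749) (nat_lit 2097152) .dd))))) (.br (nat_lit 12) (.ch (nat_lit 9) (.ev (nat_lit 1680) (nat_lit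
 1073913856) (.ev (nat_lit 1892) (nat_lit 2048) (.ev (nat_lit 1901) (nat_lit 2097152) .dd)))) (.ch (nat_lit 12)
 (.ev (nat_lit 1680) (nat_lit 2138112) (.ev (nat_lit 1920) (nat_lit 131072) (.ev (nat_lit 2208) (nat_lit 2048)
 (.ev (nat_lit 2221) (nat_lit 1073741824) .dd))))))))))) (.ch (nat_lit 2) (.ev (nat_lit 1424) (nat_lit
 1076013056) (.nd (nat_lit 1664) (.br (nat_lit 4) (.br (nat_lit 3) (.ch (nat_lit 1) (.ev (nat_lit 1680)
 (nat_lit 1114128) (.ev (nat_lit 1693) (nat_lit 524288) .dd))) (.ch (nat_lit 3) (.ev (nat_lit 1680) (nat_lit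
 524288) (.ev (nat_lit 1716) (nat_lit 1048576) (.ev (nat_lit 1840) (nat_lit 65536) (.ev (nat_lit 1853) (nat_lit
 16) .dd)))))) (.br (nat_lit 6) (.ch (nat_lit 4) (.ev (nat_lit 1680) (nat_lit 1048592) (.fin (nat_lit
 576364544518472152)))) (.br (nat_lit 7) (.ch (nat_lit 6) (.ev (nat_lit 1680) (nat_lit 16) (.ev (nat_lit 1892)
 (nat_lit 1048576) (.ev (nat_lit 1936) (nat_lit 524288) (.ev (nat_lit 1949) (nat_lit 65536) .dd))))) (.ch
 (nat_lit 7) (.ev (nat_lit 1680) (nat_lit 1638400) (.ev (nat_lit 1693) (nat_lit 16) .dd))))))))))) (.br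
 (nat_lit 5) (.ch (nat_lit 4) (.ev (nat_lit 1424) (nat_lit 1077520384) (.nd (nat_lit 1664) (.br (nat_lit 8)
 (.br (nat_lit 5) (.ch (nat_lit 3) (.ev (nat_lit 1680) (nat_lit 16) (.ev (nat_lit 1693) (nat_lit 131072) .dd)))
 (.br (nat_lit 6) (.ch (nat_lit 5) (.ev (nat_lit 2180) (nat_lit 16) (.ev (nat_lit 2189) (nat_lit 131072) .dd)))
 (.ch (nat_lit 6) (.ev (nat_lit 1680) (nat_lit 16) (.ev (nat_lit 1693) (nat_lit 131072) .dd))))) (.br (nat_lit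
 9) (.ch (nat_lit 8) (.ev (nat_lit 1680) (nat_lit 131088) .dd)) (.br (nat_lit 12) (.ch (nat_lit 9) (.ev
 (nat_lit 1680) (nat_lit 16) (.ev (nat_lit 1693) (nat_lit 131072) .dd))) (.ch (nat_lit 12) (.ev (nat_lit 2416)
 (nat_lit 131072) (.ev (nat_lit 2429) (nat_lit 16) .dd))))))))) (.br (nat_lit 9) (.ch (nat_lit 5) (.ev (nat_lit
 1424) (nat_lit 1073881104) (.nd (nat_lit 1664) (.br (nat_lit 10) (.br (nat_lit 4) (.ch (nat_lit 3) (.ev
 (nat_lit 1680) (nat_lit 1638400) (.ev (nat_lit 1744) (nat_lit 2129920) (.ev (nat_lit 1757) (nat_lit 2048)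
 .dd)))) (.br (nat_lit 9) (.ch (nat_lit 4) (.ev (nat_lit 1680) (nat_lit 526336) (.ev (nat_lit 1744) (nat_lit
 1048576) (.ev (nat_lit 2180) (nat_lit 32768) (.ev (nat_lit 2340) (nat_lit 2097152) (.ev (nat_lit 2349)
 (nat_lit 65536) .dd)))))) (.ch (nat_lit 9) (.ev (nat_lit 1680) (nat_lit 2048) (.ev (nat_lit 1716) (nat_lit
 1081344) (.ev (nat_lit 1892) (nat_lit 524288) (.ev (nat_lit 2052) (nat_lit 65536) (.ev (nat_lit 2061) (nat_lit
 2097152) .dd)))))))) (.br (nat_lit 11) (.ch (nat_lit 10) (.ev (nat_lit 1680) (nat_lit 1148928) (.fin (nat_lit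
 576500884492993126)))) (.br (nat_lit 12) (.ch (nat_lit 11) (.ev (nat_lit 1680) (nat_lit 2197504) (.ev (nat_lit
 1904) (nat_lit 1048576) (.ev (nat_lit 1917) (nat_lit 524288) .dd)))) (.ch (nat_lit 12) (.ev (nat_lit 1680)
 (nat_lit 1638400) (.ev (nat_lit 1744) (nat_lit 2097152) (.ev (nat_lit 2064) (nat_lit 34816) .dd)))))))))) (.ch
 (nat_lit 9) (.ev (nat_lit 1424) (nat_lit 2304000) (.nd (nat_lit 1664) (.br (nat_lit 10) (.br (nat_lit 5) (.ch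
 (nat_lit 0) (.ev (nat_lit 1680) (nat_lit 1074298880) (.ev (nat_lit 2496) (nat_lit 1048576) (.ev (nat_lit 2509)
 (nat_lit 16) .dd)))) (.br (nat_lit 8) (.ch (nat_lit 5) (.ev (nat_lit 1680) (nat_lit 524304) (.ev (nat_lit
 1776) (nat_lit 1048576) (.ev (nat_lit 2340) (nat_lit 1073741824) (.ev (nat_lit 2349) (nat_lit 32768) .dd)))))
 (.ch (nat_lit 8) (.ev (nat_lit 1680) (nat_lit 16) (.ev (nat_lit 1716) (nat_lit 32768) (.ev (nat_lit 1824)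
 (nat_lit 1074266112) (.ev (nat_lit 1837) (nat_lit 1048576) .dd))))))) (.br (nat_lit 11) (.ch (nat_lit 10) (.ev
 (nat_lit 1680) (nat_lit 1605632) (.ev (nat_lit 1716) (nat_lit 16) (.ev (nat_lit 1725) (nat_lit 1073741824)
 .dd)))) (.br (nat_lit 12) (.ch (nat_lit 11) (.ev (nat_lit 1680) (nat_lit 1075347456) (.ev (nat_lit 1693)
 (nat_lit 16) .dd))) (.ch (nat_lit 12) (.ev (nat_lit 1680) (nat_lit 1075314688) (.ev (nat_lit 2052) (nat_lit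
 16) (.ev (nat_lit 2061) (nat_lit 32768) .dd))))))))))))))))))) (.ch (nat_lit 62) (.ev (nat_lit 52) (nat_lit
 105480448) (.ev (nat_lit 500) (nat_lit 262144) (.ev (nat_lit 596) (nat_lit 2097152) (.ev (nat_lit 788)
 (nat_lit 16) (.nd (nat_lit 1408) (.br (nat_lit 6) (.br (nat_lit 2) (.ch (nat_lit 1) (.ev (nat_lit 1424)
 (nat_lit 17825794) (.nd (nat_lit 1664) (.br (nat_lit 8) (.br (nat_lit 3) (.ch (nat_lit 0) (.ev (nat_lit 1680)
 (nat_lit 35433621504) .dd)) (.ch (nat_lit 3) (.ev (nat_lit 1920) (nat_lit 131072) (.ev (nat_lit 3056) (nat_lit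
 8192) (.ev (nat_lit 3204) (nat_lit 2048) (.nd (nat_lit 3456) (.br (nat_lit 10) (.ch (nat_lit 4) (.fin (nat_lit
 576663612121629360))) (.ch (nat_lit 10) (.ev (nat_lit 3472) (nat_lit 35433480192) .dd))))))))) (.br (nat_lit
 10) (.ch (nat_lit 8) (.ev (nat_lit 1680) (nat_lit 35433613312) (.ev (nat_lit 1693) (nat_lit 8192) .dd))) (.br
 (nat_lit 12) (.ch (nat_lit 10) (.ev (nat_lit 1680) (nat_lit 131072) (.ev (nat_lit 2112) (nat_lit 1073741824)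
 (.ev (nat_lit 2340) (nat_lit 2048) (.ev (nat_lit 2548) (nat_lit 34359738368) (.ev (nat_lit 2557) (nat_lit
 8192) .dd)))))) (.ch (nat_lit 12) (.ev (nat_lit 1680) (nat_lit 8192) (.ev (nat_lit 1920) (nat_lit 34359738368)
 (.ev (nat_lit 2180) (nat_lit 1073741824) (.ev (nat_lit 2484) (nat_lit 2048) (.ev (nat_lit 2493) (nat_lit
 131072) .dd)))))))))))) (.br (nat_lit 5) (.ch (nat_lit 2) (.ev (nat_lit 1424) (nat_lit 35434668034) (.nd
 (nat_lit 1664) (.br (nat_lit 4) (.br (nat_lit 1) (.ch (nat_lit 0) (.ev (nat_lit 2416) (nat_lit 16777216) (.ev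
 (nat_lit 2429) (nat_lit 2048) .dd))) (.br (nat_lit 3) (.ch (nat_lit 1) (.ev (nat_lit 1680) (nat_lit 16779264)
 .dd)) (.ch (nat_lit 3) (.ev (nat_lit 1716) (nat_lit 2048) (.ev (nat_lit 1725) (nat_lit 16777216) .dd))))) (.br
 (nat_lit 6) (.br (nat_lit 5) (.ch (nat_lit 4) (.ev (nat_lit 1716) (nat_lit 2048) (.ev (nat_lit 1725) (nat_lit
 16777216) .dd))) (.ch (nat_lit 5) (.ev (nat_lit 2340) (nat_lit 2048) (.ev (nat_lit 2349) (nat_lit 16777216)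
 .dd)))) (.br (nat_lit 10) (.ch (nat_lit 6) (.ev (nat_lit 1680) (nat_lit 16779264) .dd)) (.ch (nat_lit 10) (.ev
 (nat_lit 1744) (nat_lit 16779264) .dd)))))))) (.ch (nat_lit 5) (.ev (nat_lit 1424) (nat_lit 1091698688) (.nd
 (nat_lit 1664) (.br (nat_lit 9) (.br (nat_lit 2) (.ch (nat_lit 0) (.ev (nat_lit 1680) (nat_lit 2) (.ev
 (nat_lit 2052) (nat_lit 34359738368) (.ev (nat_lit 2180) (nat_lit 8192) (.ev (nat_lit 2189) (nat_lit 2048)
 .dd))))) (.br (nat_lit 8) (.ch (nat_lit 2) (.ev (nat_lit 1680) (nat_lit 34359748608) (.ev (nat_lit 1693)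
 (nat_lit 2) .dd))) (.ch (nat_lit 8) (.ev (nat_lit 1680) (nat_lit 34359748610) .dd)))) (.br (nat_lit 11) (.ch
 (nat_lit 9) (.ev (nat_lit 1680) (nat_lit 10242) (.ev (nat_lit 1693) (nat_lit 34359738368) .dd))) (.br (nat_lit
 12) (.ch (nat_lit 11) (.ev (nat_lit 1680) (nat_lit 34359748608) (.ev (nat_lit 1693) (nat_lit 2) .dd))) (.ch
 (nat_lit 12) (.ev (nat_lit 1680) (nat_lit 8192) (.ev (nat_lit 1716) (nat_lit 2) (.ev (nat_lit 1728) (nat_lit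
 2048) (.ev (nat_lit 1741) (nat_lit 34359738368) .dd))))))))))))) (.br (nat_lit 9) (.ch (nat_lit 6) (.ev
 (nat_lit 1424) (nat_lit 35434670080) (.nd (nat_lit 1664) (.br (nat_lit 6) (.br (nat_lit 3) (.ch (nat_lit 1)
 (.ev (nat_lit 1680) (nat_lit 16777218) .dd)) (.ch (nat_lit 3) (.ev (nat_lit 1680) (nat_lit 2) (.ev (nat_lit
 1693) (nat_lit 16777216) .dd)))) (.br (nat_lit 7) (.ch (nat_lit 6) (.ev (nat_lit 1680) (nat_lit 16777216) (.ev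
 (nat_lit 1693) (nat_lit 2) .dd))) (.ch (nat_lit 7) (.ev (nat_lit 1716) (nat_lit 16777216) (.ev (nat_lit 1725)
 (nat_lit 2) .dd)))))))) (.br (nat_lit 10) (.ch (nat_lit 9) (.ev (nat_lit 1424) (nat_lit 34376648704) (.ev
 (nat_lit 1444) (nat_lit 1073741824) (.nd (nat_lit 1664) (.br (nat_lit 8) (.br (nat_lit 3) (.ch (nat_lit 0)
 (.ev (nat_lit 1680) (nat_lit 8194) (.ev (nat_lit 1693) (nat_lit 1048576) .dd))) (.br (nat_lit 6) (.ch (nat_lit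
 3) (.ev (nat_lit 2800) (nat_lit 2) (.fin (nat_lit 576465700104127034)))) (.ch (nat_lit 6) (.ev (nat_lit 1680)
 (nat_lit 1056768) (.ev (nat_lit 1693) (nat_lit 2) .dd))))) (.br (nat_lit 9) (.ch (nat_lit 8) (.ev (nat_lit
 1680) (nat_lit 8192) (.ev (nat_lit 1744) (nat_lit 2) (.ev (nat_lit 1757) (nat_lit 1048576) .dd)))) (.br
 (nat_lit 11) (.ch (nat_lit 9) (.ev (nat_lit 1680) (nat_lit 1056768) (.ev (nat_lit 1693) (nat_lit 2) .dd)))
 (.ch (nat_lit 11) (.ev (nat_lit 1680) (nat_lit 1048578) (.ev (nat_lit 1693) (nat_lit 8192) .dd)))))))))) (.ch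
 (nat_lit 10) (.ev (nat_lit 1424) (nat_lit 1090527234) (.nd (nat_lit 1664) (.br (nat_lit 8) (.br (nat_lit 2)
 (.ch (nat_lit 0) (.ev (nat_lit 1680) (nat_lit 34360788992) (.ev (nat_lit 1693) (nat_lit 131072) .dd))) (.br
 (nat_lit 5) (.ch (nat_lit 2) (.ev (nat_lit 1680) (nat_lit 34359740416) (.ev (nat_lit 1696) (nat_lit 1048576)
 (.ev (nat_lit 1709) (nat_lit 131072) .dd)))) (.ch (nat_lit 5) (.ev (nat_lit 1680) (nat_lit 1179648) (.ev
 (nat_lit 1892) (nat_lit 2048) (.ev (nat_lit 1901) (nat_lit 34359738368) .dd)))))) (.br (nat_lit 9) (.ch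
 (nat_lit 8) (.ev (nat_lit 1680) (nat_lit 34360918016) (.ev (nat_lit 1693) (nat_lit 2048) .dd))) (.br (nat_lit
 12) (.ch (nat_lit 9) (.ev (nat_lit 1680) (nat_lit 131072) (.ev (nat_lit 1892) (nat_lit 1048576) (.ev (nat_lit
 2548) (nat_lit 2048) (.ev (nat_lit 2557) (nat_lit 34359738368) .dd))))) (.ch (nat_lit 12) (.ev (nat_lit 1680)
 (nat_lit 1181696) (.ev (nat_lit 1693) (nat_lit 34359738368) .dd))))))))))))))))))))) (.br (nat_lit 68) (.br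
 (nat_lit 65) (.ch (nat_lit 64) (.ev (nat_lit 52) (nat_lit 2361362) (.ev (nat_lit 340) (nat_lit 33554432) (.ev
 (nat_lit 628) (nat_lit 32768) (.ev (nat_lit 1236) (nat_lit 16777216) (.ev (nat_lit 1364) (nat_lit 131072) (.nd
 (nat_lit 1408) (.br (nat_lit 5) (.br (nat_lit 2) (.ch (nat_lit 1) (.ev (nat_lit 1424) (nat_lit 1075314688)
 (.nd (nat_lit 1664) (.br (nat_lit 9) (.br (nat_lit 3) (.ch (nat_lit 1) (.ev (nat_lit 1680) (nat_lit 8192) (.ev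
 (nat_lit 2064) (nat_lit 67108864) (.ev (nat_lit 2112) (nat_lit 65536) (.ev (nat_lit 2820) (nat_lit 256) (.ev
 (nat_lit 3092) (nat_lit 34359738368) (.ev (nat_lit 3101) (nat_lit 4194304) .dd))))))) (.br (nat_lit 6) (.ch
 (nat_lit 3) (.ev (nat_lit 1680) (nat_lit 34363932928) (.ev (nat_lit 1716) (nat_lit 65536) (.ev (nat_lit 2352)
 (nat_lit 67117056) .dd)))) (.ch (nat_lit 6) (.ev (nat_lit 1680) (nat_lit 34359746560) (.ev (nat_lit 1716)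
 (nat_lit 4194304) (.ev (nat_lit 2052) (nat_lit 256) (.fin (nat_lit 576434913776452186)))))))) (.br (nat_lit
 10) (.ch (nat_lit 9) (.ev (nat_lit 1680) (nat_lit 34431107072) (.ev (nat_lit 1892) (nat_lit 256) (.ev (nat_lit
 1901) (nat_lit 8192) .dd)))) (.br (nat_lit 12) (.ch (nat_lit 10) (.ev (nat_lit 1680) (nat_lit 67109120) (.ev
 (nat_lit 1716) (nat_lit 65536) (.ev (nat_lit 1744) (nat_lit 8192) (.ev (nat_lit 2064) (nat_lit 34359738368)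
 (.ev (nat_lit 2077) (nat_lit 4194304) .dd)))))) (.ch (nat_lit 12) (.ev (nat_lit 1680) (nat_lit 4268032) (.ev
 (nat_lit 2484) (nat_lit 256) (.ev (nat_lit 3318) (nat_lit 34426847232) .dd)))))))))) (.br (nat_lit 4) (.ch
 (nat_lit 2) (.ev (nat_lit 1424) (nat_lit 35501121536) (.nd (nat_lit 1664) (.br (nat_lit 7) (.br (nat_lit 6)
 (.ch (nat_lit 5) (.ev (nat_lit 1680) (nat_lit 4194560) (.ev (nat_lit 2224) (nat_lit 1114112) .dd))) (.ch
 (nat_lit 6) (.ev (nat_lit 1680) (nat_lit 256) (.ev (nat_lit 1892) (nat_lit 1048576) (.ev (nat_lit 2052)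
 (nat_lit 65536) (.ev (nat_lit 2061) (nat_lit 4194304) .dd)))))) (.br (nat_lit 10) (.ch (nat_lit 7) (.ev
 (nat_lit 1680) (nat_lit 5308672) .dd)) (.br (nat_lit 11) (.ch (nat_lit 10) (.ev (nat_lit 1680) (nat_lit 65536)
 (.ev (nat_lit 1716) (nat_lit 256) (.ev (nat_lit 1840) (nat_lit 4194304) (.ev (nat_lit 1853) (nat_lit 1048576)
 .dd))))) (.ch (nat_lit 11) (.ev (nat_lit 1760) (nat_lit 65536) (.ev (nat_lit 1892) (nat_lit 1048832) (.ev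
 (nat_lit 1901) (nat_lit 4194304) .dd)))))))))) (.ch (nat_lit 4) (.ev (nat_lit 1424) (nat_lit 34432688384) (.ev
 (nat_lit 1437) (nat_lit 1073741824) .dd))))) (.br (nat_lit 10) (.ch (nat_lit 5) (.ev (nat_lit 1424) (nat_lit
 1078526208) (.nd (nat_lit 1664) (.br (nat_lit 4) (.br (nat_lit 3) (.ch (nat_lit 0) (.ev (nat_lit 1680)
 (nat_lit 8192) (.ev (nat_lit 1892) (nat_lit 1048576) (.ev (nat_lit 1904) (nat_lit 34359738368) (.ev (nat_lit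
 1917) (nat_lit 67108864) .dd))))) (.ch (nat_lit 3) (.ev (nat_lit 1680) (nat_lit 67117056) (.ev (nat_lit 2180)
 (nat_lit 34359738368) (.ev (nat_lit 2189) (nat_lit 1048576) .dd))))) (.br (nat_lit 10) (.ch (nat_lit 4) (.ev
 (nat_lit 1680) (nat_lit 34360795136) (.ev (nat_lit 1693) (nat_lit 67108864) .dd))) (.br (nat_lit 12) (.ch
 (nat_lit 10) (.ev (nat_lit 1680) (nat_lit 68157440) (.ev (nat_lit 2052) (nat_lit 8192) (.ev (nat_lit 2061)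
 (nat_lit 34359738368) .dd)))) (.ch (nat_lit 12) (.ev (nat_lit 1680) (nat_lit 1056768) (.ev (nat_lit 1936)
 (nat_lit 34359738368) (.ev (nat_lit 1949) (nat_lit 67108864) .dd)))))))))) (.br (nat_lit 12) (.ch (nat_lit 10)
 (.ev (nat_lit 1424) (nat_lit 35504783360) (.nd (nat_lit 1664) (.br (nat_lit 6) (.br (nat_lit 3) (.ch (nat_lit
 0) (.ev (nat_lit 1680) (nat_lit 1638400) (.ev (nat_lit 1716) (nat_lit 8192) (.ev (nat_lit 1725) (nat_lit 256)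
 .dd)))) (.br (nat_lit 5) (.ch (nat_lit 3) (.ev (nat_lit 1680) (nat_lit 524288) (.ev (nat_lit 1716) (nat_lit
 65536) (.ev (nat_lit 1824) (nat_lit 8192) (.ev (nat_lit 1892) (nat_lit 1048576) (.ev (nat_lit 1901) (nat_lit
 256) .dd)))))) (.ch (nat_lit 5) (.ev (nat_lit 1680) (nat_lit 73984) (.ev (nat_lit 1716) (nat_lit 524288) (.ev
 (nat_lit 1725) (nat_lit 1048576) .dd)))))) (.br (nat_lit 7) (.ch (nat_lit 6) (.ev (nat_lit 1680) (nat_lit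
 598272) (.ev (nat_lit 1693) (nat_lit 1048576) .dd))) (.br (nat_lit 8) (.ch (nat_lit 7) (.ev (nat_lit 1680)
 (nat_lit 1638656) (.ev (nat_lit 1693) (nat_lit 8192) .dd))) (.ch (nat_lit 8) (.ev (nat_lit 1680) (nat_lit
 73728) (.ev (nat_lit 1856) (nat_lit 1048576) (.ev (nat_lit 2192) (nat_lit 256) (.ev (nat_lit 2205) (nat_lit
 524288) .dd))))))))))) (.ch (nat_lit 12) (.ev (nat_lit 1424) (nat_lit 1646592) (.nd (nat_lit 1664) (.br
 (nat_lit 9) (.br (nat_lit 7) (.ch (nat_lit 1) (.ev (nat_lit 2064) (nat_lit 1073741824) (.ev (nat_lit 2208)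
 (nat_lit 256) (.ev (nat_lit 2464) (nat_lit 4194304) (.ev (nat_lit 3366) (nat_lit 34426847232) .dd))))) (.br
 (nat_lit 8) (.ch (nat_lit 7) (.ev (nat_lit 1680) (nat_lit 35504783360) (.ev (nat_lit 1693) (nat_lit 256)
 .dd))) (.ch (nat_lit 8) (.ev (nat_lit 1680) (nat_lit 34359738368) (.ev (nat_lit 2340) (nat_lit 256) (.ev
 (nat_lit 2548) (nat_lit 67108864) (.fin (nat_lit 576324962770960808)))))))) (.br (nat_lit 10) (.ch (nat_lit 9)
 (.ev (nat_lit 1680) (nat_lit 1145045248) (.ev (nat_lit 1693) (nat_lit 34359738368) .dd))) (.br (nat_lit 12)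
 (.ch (nat_lit 10) (.ev (nat_lit 1680) (nat_lit 35437674496) (.ev (nat_lit 1892) (nat_lit 256) (.ev (nat_lit
 1901) (nat_lit 67108864) .dd)))) (.ch (nat_lit 12) (.ev (nat_lit 1680) (nat_lit 34426847488) (.ev (nat_lit
 2064) (nat_lit 1073741824) (.ev (nat_lit 2077) (nat_lit 4194304) .dd)))))))))))))))))))) (.br (nat_lit 67)
 (.ch (nat_lit 65) (.ev (nat_lit 52) (nat_lit 34380744706) (.ev (nat_lit 276) (nat_lit 262144) (.ev (nat_lit
 596) (nat_lit 8192) (.ev (nat_lit 736) (nat_lit 1178272016) .dd))))) (.ch (nat_lit 67) (.ev (nat_lit 52)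
 (nat_lit 1180764162) (.ev (nat_lit 212) (nat_lit 32768) (.ev (nat_lit 596) (nat_lit 256) (.ev (nat_lit 1204)
 (nat_lit 1048576) (.ev (nat_lit 1300) (nat_lit 8192) (.nd (nat_lit 1408) (.br (nat_lit 5) (.br (nat_lit 2)
 (.ch (nat_lit 0) (.ev (nat_lit 1424) (nat_lit 34376646672) (.nd (nat_lit 1664) (.br (nat_lit 7) (.br (nat_lit
 4) (.ch (nat_lit 2) (.ev (nat_lit 1680) (nat_lit 524288) (.ev (nat_lit 1693) (nat_lit 262144) .dd))) (.br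
 (nat_lit 5) (.ch (nat_lit 4) (.ev (nat_lit 1680) (nat_lit 524288) (.ev (nat_lit 1693) (nat_lit 262144) .dd)))
 (.ch (nat_lit 5) (.ev (nat_lit 1680) (nat_lit 262144) (.ev (nat_lit 1693) (nat_lit 524288) .dd))))) (.br
 (nat_lit 8) (.ch (nat_lit 7) (.ev (nat_lit 1680) (nat_lit 786432) .dd)) (.br (nat_lit 12) (.ch (nat_lit 8)
 (.ev (nat_lit 2208) (nat_lit 262144) (.ev (nat_lit 2221) (nat_lit 524288) .dd))) (.ch (nat_lit 12) (.ev
 (nat_lit 1716) (nat_lit 262144) (.ev (nat_lit 1725) (nat_lit 524288) .dd))))))))) (.br (nat_lit 4) (.ch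
 (nat_lit 2) (.ev (nat_lit 1424) (nat_lit 34376515584) (.nd (nat_lit 1664) (.br (nat_lit 5) (.br (nat_lit 3)
 (.ch (nat_lit 1) (.ev (nat_lit 1680) (nat_lit 786448) (.ev (nat_lit 1693) (nat_lit 131072) .dd))) (.br
 (nat_lit 4) (.ch (nat_lit 3) (.ev (nat_lit 1680) (nat_lit 524288) (.ev (nat_lit 1892) (nat_lit 262144) (.ev
 (nat_lit 2180) (nat_lit 16) (.ev (nat_lit 2189) (nat_lit 131072) .dd))))) (.ch (nat_lit 4) (.ev (nat_lit 1680)
 (nat_lit 131088) (.ev (nat_lit 1920) (nat_lit 262144) (.ev (nat_lit 1933) (nat_lit 524288) .dd)))))) (.br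
 (nat_lit 6) (.ch (nat_lit 5) (.ev (nat_lit 1680) (nat_lit 786432) (.ev (nat_lit 1892) (nat_lit 131072) (.ev
 (nat_lit 1901) (nat_lit 16) .dd)))) (.br (nat_lit 7) (.ch (nat_lit 6) (.ev (nat_lit 1680) (nat_lit 917520)
 .dd)) (.ch (nat_lit 7) (.ev (nat_lit 1716) (nat_lit 786448) (.ev (nat_lit 1725) (nat_lit 131072) .dd)))))))))
 (.ch (nat_lit 4) (.ev (nat_lit 1424) (nat_lit 34377302032) (.ev (nat_lit 1437) (nat_lit 131072) .dd))))) (.br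
 (nat_lit 6) (.ch (nat_lit 5) (.ev (nat_lit 1424) (nat_lit 917520) (.nd (nat_lit 1664) (.br (nat_lit 8) (.br
 (nat_lit 3) (.ch (nat_lit 2) (.ev (nat_lit 1680) (nat_lit 34359738368) (.ev (nat_lit 1693) (nat_lit 16777216)
 .dd))) (.br (nat_lit 4) (.ch (nat_lit 3) (.ev (nat_lit 2052) (nat_lit 34359738368) (.ev (nat_lit 2061)
 (nat_lit 16777216) .dd))) (.ch (nat_lit 4) (.ev (nat_lit 1680) (nat_lit 16777216) (.ev (nat_lit 1693) (nat_lit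
 34359738368) .dd))))) (.br (nat_lit 10) (.ch (nat_lit 8) (.ev (nat_lit 1680) (nat_lit 16777216) (.ev (nat_lit
 1693) (nat_lit 34359738368) .dd))) (.br (nat_lit 11) (.ch (nat_lit 10) (.ev (nat_lit 1680) (nat_lit
 34376515584) .dd)) (.ch (nat_lit 11) (.ev (nat_lit 1680) (nat_lit 34376515584) .dd)))))))) (.br (nat_lit 9)
 (.ch (nat_lit 6) (.ev (nat_lit 1424) (nat_lit 524288) (.nd (nat_lit 1664) (.br (nat_lit 10) (.br (nat_lit 4)
 (.ch (nat_lit 3) (.ev (nat_lit 1680) (nat_lit 34359738384) (.ev (nat_lit 1716) (nat_lit 131072) (.ev (nat_lit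
 2192) (nat_lit 262144) (.ev (nat_lit 2205) (nat_lit 16777216) .dd))))) (.br (nat_lit 7) (.ch (nat_lit 4) (.ev
 (nat_lit 1680) (nat_lit 34360000528) (.ev (nat_lit 1920) (nat_lit 131072) (.ev (nat_lit 1933) (nat_lit
 16777216) .dd)))) (.ch (nat_lit 7) (.ev (nat_lit 1680) (nat_lit 34376646672) (.ev (nat_lit 1693) (nat_lit
 262144) .dd))))) (.br (nat_lit 11) (.ch (nat_lit 10) (.ev (nat_lit 1680) (nat_lit 393232) (.fin (nat_lit
 576408526032159252)))) (.br (nat_lit 12) (.ch (nat_lit 11) (.ev (nat_lit 1680) (nat_lit 262160) (.ev (nat_lit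
 1716) (nat_lit 131072) (.ev (nat_lit 1728) (nat_lit 34359738368) (.ev (nat_lit 1741) (nat_lit 16777216)
 .dd))))) (.ch (nat_lit 12) (.ev (nat_lit 1680) (nat_lit 34376515584) (.ev (nat_lit 1824) (nat_lit 16) (.ev
 (nat_lit 1892) (nat_lit 131072) (.ev (nat_lit 1901) (nat_lit 262144) .dd))))))))))) (.ch (nat_lit 9) (.ev
 (nat_lit 1424) (nat_lit 34359869440) (.nd (nat_lit 1664) (.br (nat_lit 10) (.br (nat_lit 3) (.ch (nat_lit 0)
 (.ev (nat_lit 1680) (nat_lit 17563648) (.ev (nat_lit 1693) (nat_lit 16) .dd))) (.br (nat_lit 8) (.ch (nat_lit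
 3) (.ev (nat_lit 1680) (nat_lit 17301520) (.ev (nat_lit 1693) (nat_lit 262144) .dd))) (.ch (nat_lit 8) (.ev
 (nat_lit 1680) (nat_lit 16777216) (.ev (nat_lit 1716) (nat_lit 262144) (.ev (nat_lit 2180) (nat_lit 524288)
 (.ev (nat_lit 2189) (nat_lit 16) .dd))))))) (.br (nat_lit 11) (.ch (nat_lit 10) (.ev (nat_lit 1680) (nat_lit
 262144) (.ev (nat_lit 2052) (nat_lit 16777216) (.fin (nat_lit 576777961718890956))))) (.br (nat_lit 12) (.ch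
 (nat_lit 11) (.ev (nat_lit 1680) (nat_lit 17301520) (.ev (nat_lit 1693) (nat_lit 262144) .dd))) (.ch (nat_lit
 12) (.ev (nat_lit 1680) (nat_lit 16777216) (.ev (nat_lit 2112) (nat_lit 16) (.ev (nat_lit 2644) (nat_lit
 524288) (.ev (nat_lit 2653) (nat_lit 262144) .dd))))))))))))))))))))))) (.br (nat_lit 69) (.ch (nat_lit 68)
 (.ev (nat_lit 52) (nat_lit 35501738240) (.ev (nat_lit 372) (nat_lit 33554432) (.ev (nat_lit 468) (nat_lit
 2097152) (.ev (nat_lit 724) (nat_lit 4194304) (.ev (nat_lit 1364) (nat_lit 524288) (.nd (nat_lit 1408) (.br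
 (nat_lit 4) (.br (nat_lit 1) (.ch (nat_lit 0) (.ev (nat_lit 1424) (nat_lit 17178642) .dd)) (.ch (nat_lit 1)
 (.ev (nat_lit 1424) (nat_lit 17039376) (.nd (nat_lit 1664) (.br (nat_lit 8) (.br (nat_lit 6) (.ch (nat_lit 1)
 (.ev (nat_lit 1680) (nat_lit 139266) .dd)) (.ch (nat_lit 6) (.ev (nat_lit 1680) (nat_lit 2) (.ev (nat_lit
 1892) (nat_lit 8192) (.ev (nat_lit 1901) (nat_lit 131072) .dd))))) (.br (nat_lit 10) (.ch (nat_lit 8) (.ev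
 (nat_lit 1680) (nat_lit 2) (.ev (nat_lit 1792) (nat_lit 131072) (.ev (nat_lit 1805) (nat_lit 8192) .dd))))
 (.br (nat_lit 12) (.ch (nat_lit 10) (.ev (nat_lit 1680) (nat_lit 2) (.ev (nat_lit 2208) (nat_lit 139264)
 .dd))) (.ch (nat_lit 12) (.ev (nat_lit 1680) (nat_lit 8192) (.ev (nat_lit 1716) (nat_lit 131072) (.ev (nat_lit
 1725) (nat_lit 2) .dd))))))))))) (.br (nat_lit 10) (.ch (nat_lit 4) (.ev (nat_lit 1424) (nat_lit 131090) (.nd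
 (nat_lit 1664) (.br (nat_lit 6) (.br (nat_lit 5) (.ch (nat_lit 3) (.ev (nat_lit 1680) (nat_lit 17039360) (.ev
 (nat_lit 1693) (nat_lit 8192) .dd))) (.ch (nat_lit 5) (.ev (nat_lit 1892) (nat_lit 16777216) (.ev (nat_lit
 1952) (nat_lit 8192) (.ev (nat_lit 1965) (nat_lit 262144) .dd))))) (.br (nat_lit 8) (.ch (nat_lit 6) (.ev
 (nat_lit 1680) (nat_lit 8192) (.ev (nat_lit 2304) (nat_lit 17039360) .dd))) (.br (nat_lit 11) (.ch (nat_lit 8)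
 (.ev (nat_lit 1680) (nat_lit 16785408) (.ev (nat_lit 1693) (nat_lit 262144) .dd))) (.ch (nat_lit 11) (.ev
 (nat_lit 1680) (nat_lit 16777216) (.ev (nat_lit 1716) (nat_lit 262144) (.ev (nat_lit 1725) (nat_lit 8192)
 .dd)))))))))) (.br (nat_lit 12) (.ch (nat_lit 10) (.ev (nat_lit 1424) (nat_lit 17039378) (.nd (nat_lit 1664)
 (.br (nat_lit 7) (.br (nat_lit 6) (.ch (nat_lit 0) (.ev (nat_lit 1680) (nat_lit 8192) (.ev (nat_lit 1693)
 (nat_lit 131072) .dd))) (.ch (nat_lit 6) (.ev (nat_lit 1680) (nat_lit 139264) .dd))) (.br (nat_lit 8) (.ch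
 (nat_lit 7) (.ev (nat_lit 2052) (nat_lit 131072) (.ev (nat_lit 2061) (nat_lit 8192) .dd))) (.br (nat_lit 12)
 (.ch (nat_lit 8) (.ev (nat_lit 1680) (nat_lit 8192) (.ev (nat_lit 1693) (nat_lit 131072) .dd))) (.ch (nat_lit
 12) (.ev (nat_lit 1760) (nat_lit 139264) .dd)))))))) (.ch (nat_lit 12) (.ev (nat_lit 1424) (nat_lit 16777216)
 (.ev (nat_lit 1444) (nat_lit 131072) (.nd (nat_lit 1664) (.br (nat_lit 8) (.br (nat_lit 4) (.ch (nat_lit 0)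
 (.ev (nat_lit 1680) (nat_lit 262160) (.ev (nat_lit 2180) (nat_lit 2) (.ev (nat_lit 2189) (nat_lit 8192)
 .dd)))) (.br (nat_lit 7) (.ch (nat_lit 4) (.ev (nat_lit 1680) (nat_lit 8210) (.ev (nat_lit 1693) (nat_lit
 262144) .dd))) (.ch (nat_lit 7) (.ev (nat_lit 1680) (nat_lit 2) (.ev (nat_lit 1716) (nat_lit 262144) (.ev
 (nat_lit 2352) (nat_lit 16) (.ev (nat_lit 2365) (nat_lit 8192) .dd))))))) (.br (nat_lit 9) (.ch (nat_lit 8)
 (.ev (nat_lit 1680) (nat_lit 270336) (.ev (nat_lit 1716) (nat_lit 2) (.ev (nat_lit 1725) (nat_lit 16) .dd))))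
 (.br (nat_lit 10) (.ch (nat_lit 9) (.ev (nat_lit 1680) (nat_lit 8192) (.ev (nat_lit 1716) (nat_lit 2) (.ev
 (nat_lit 2192) (nat_lit 262144) (.ev (nat_lit 2205) (nat_lit 16) .dd))))) (.ch (nat_lit 10) (.ev (nat_lit
 1680) (nat_lit 18) (.ev (nat_lit 2052) (nat_lit 262144) (.ev (nat_lit 2061) (nat_lit 8192)
 .dd))))))))))))))))))))) (.br (nat_lit 70) (.ch (nat_lit 69) (.ev (nat_lit 52) (nat_lit 393490) (.ev (nat_lit
 340) (nat_lit 524288) (.ev (nat_lit 352) (nat_lit 35558369280) .dd)))) (.ch (nat_lit 70) (.ev (nat_lit 52)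
 (nat_lit 1079410688) (.ev (nat_lit 212) (nat_lit 16777216) (.nd (nat_lit 1408) (.br (nat_lit 2) (.br (nat_lit
 1) (.ch (nat_lit 0) (.ev (nat_lit 1424) (nat_lit 34426847506) (.nd (nat_lit 1664) (.br (nat_lit 5) (.br
 (nat_lit 2) (.ch (nat_lit 0) (.ev (nat_lit 1680) (nat_lit 33622016) (.ev (nat_lit 1936) (nat_lit 524288) (.ev
 (nat_lit 2052) (nat_lit 2097152) (.ev (nat_lit 2061) (nat_lit 8192) .dd))))) (.br (nat_lit 4) (.ch (nat_lit 2)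
 (.ev (nat_lit 1680) (nat_lit 591872) (.ev (nat_lit 2340) (nat_lit 33554432) (.ev (nat_lit 2352) (nat_lit 8192)
 (.ev (nat_lit 2365) (nat_lit 2097152) .dd))))) (.ch (nat_lit 4) (.ev (nat_lit 1680) (nat_lit 35719168) (.ev
 (nat_lit 1744) (nat_lit 8192) (.ev (nat_lit 1757) (nat_lit 524288) .dd)))))) (.br (nat_lit 10) (.br (nat_lit
 6) (.ch (nat_lit 5) (.ev (nat_lit 1680) (nat_lit 36175872) (.ev (nat_lit 2096) (nat_lit 10240) (.ev (nat_lit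
 2109) (nat_lit 65536) .dd)))) (.ch (nat_lit 6) (.ev (nat_lit 1680) (nat_lit 36184064) (.ev (nat_lit 1892)
 (nat_lit 2048) (.ev (nat_lit 1901) (nat_lit 65536) .dd))))) (.br (nat_lit 12) (.ch (nat_lit 10) (.ev (nat_lit
 1680) (nat_lit 526336) (.ev (nat_lit 1716) (nat_lit 2097152) (.ev (nat_lit 2052) (nat_lit 73728) (.ev (nat_lit
 2061) (nat_lit 33554432) .dd))))) (.ch (nat_lit 12) (.ev (nat_lit 1680) (nat_lit 2107392) (.ev (nat_lit 1728)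
 (nat_lit 65536) (.ev (nat_lit 1904) (nat_lit 33554432) (.ev (nat_lit 1917) (nat_lit 524288) .dd)))))))))))
 (.ch (nat_lit 1) (.ev (nat_lit 1424) (nat_lit 524304) (.nd (nat_lit 1664) (.br (nat_lit 6) (.br (nat_lit 1)
 (.ch (nat_lit 0) (.ev (nat_lit 1680) (nat_lit 35727616) (.ev (nat_lit 1716) (nat_lit 34359738368) (.ev
 (nat_lit 1892) (nat_lit 67108864) (.ev (nat_lit 1901) (nat_lit 2) .dd))))) (.br (nat_lit 3) (.ch (nat_lit 1)
 (.ev (nat_lit 1680) (nat_lit 67176706) (.ev (nat_lit 2052) (nat_lit 2105344) (.ev (nat_lit 2180) (nat_lit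
 34359738368) (.ev (nat_lit 2189) (nat_lit 33554432) .dd))))) (.ch (nat_lit 3) (.ev (nat_lit 1680) (nat_lit
 34462498818) (.ev (nat_lit 1892) (nat_lit 256) (.ev (nat_lit 2080) (nat_lit 8192) (.ev (nat_lit 3380) (nat_lit
 65536) (.ev (nat_lit 3389) (nat_lit 2048) .dd)))))))) (.br (nat_lit 9) (.ch (nat_lit 6) (.ev (nat_lit 1680)
 (nat_lit 34428954624) (.ev (nat_lit 1716) (nat_lit 65792) (.ev (nat_lit 2384) (nat_lit 33554434) .dd)))) (.br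
 (nat_lit 10) (.ch (nat_lit 9) (.ev (nat_lit 1680) (nat_lit 34426912768) (.ev (nat_lit 2052) (nat_lit 2304)
 (.ev (nat_lit 2352) (nat_lit 2) (.ev (nat_lit 2672) (nat_lit 33554432) (.ev (nat_lit 3428) (nat_lit 2097152)
 (.ev (nat_lit 3437) (nat_lit 8192) .dd))))))) (.ch (nat_lit 10) (.ev (nat_lit 1680) (nat_lit 100729090) (.ev
 (nat_lit 2224) (nat_lit 8192) (.ev (nat_lit 2340) (nat_lit 2048) (.ev (nat_lit 2484) (nat_lit 34359738368)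
 (.ev (nat_lit 2493) (nat_lit 2097152) .dd))))))))))))) (.br (nat_lit 5) (.ch (nat_lit 2) (.ev (nat_lit 1424)
 (nat_lit 34429020162) (.nd (nat_lit 1664) (.br (nat_lit 4) (.br (nat_lit 1) (.ch (nat_lit 0) (.ev (nat_lit
 1680) (nat_lit 33554704) (.ev (nat_lit 1693) (nat_lit 524288) .dd))) (.ch (nat_lit 1) (.ev (nat_lit 1680)
 (nat_lit 16) (.ev (nat_lit 1716) (nat_lit 524544) (.ev (nat_lit 1725) (nat_lit 33554432) .dd))))) (.br
 (nat_lit 5) (.ch (nat_lit 4) (.ev (nat_lit 1680) (nat_lit 34078736) (.ev (nat_lit 1693) (nat_lit 256) .dd)))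
 (.br (nat_lit 7) (.ch (nat_lit 5) (.ev (nat_lit 1680) (nat_lit 524288) (.ev (nat_lit 1760) (nat_lit 33554432)
 (.ev (nat_lit 1892) (nat_lit 16) (.ev (nat_lit 1901) (nat_lit 256) .dd))))) (.ch (nat_lit 7) (.ev (nat_lit
 1680) (nat_lit 33554448) (.ev (nat_lit 2180) (nat_lit 256) (.ev (nat_lit 2189) (nat_lit 524288) .dd))))))))))
 (.br (nat_lit 9) (.ch (nat_lit 5) (.ev (nat_lit 1424) (nat_lit 33554450) (.nd (nat_lit 1664) (.br (nat_lit 9)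
 (.br (nat_lit 2) (.ch (nat_lit 0) (.ev (nat_lit 1680) (nat_lit 34360271104) (.ev (nat_lit 1904) (nat_lit
 67108864) (.ev (nat_lit 2096) (nat_lit 2097152) (.ev (nat_lit 3332) (nat_lit 65536) (.ev (nat_lit 3341)
 (nat_lit 2048) .dd)))))) (.br (nat_lit 4) (.ch (nat_lit 2) (.ev (nat_lit 1680) (nat_lit 34429544448) (.ev
 (nat_lit 1693) (nat_lit 256) .dd))) (.ch (nat_lit 4) (.ev (nat_lit 1680) (nat_lit 526336) (.ev (nat_lit 1744)
 (nat_lit 67108864) (.ev (nat_lit 1984) (nat_lit 2097152) (.ev (nat_lit 2788) (nat_lit 8192) (.ev (nat_lit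
 2960) (nat_lit 34359738624) (.ev (nat_lit 2973) (nat_lit 65536) .dd))))))))) (.br (nat_lit 10) (.ch (nat_lit
 9) (.ev (nat_lit 1680) (nat_lit 67111168) (.ev (nat_lit 2000) (nat_lit 34359738368) (.ev (nat_lit 2180)
 (nat_lit 65536) (.ev (nat_lit 2340) (nat_lit 524288) (.ev (nat_lit 3284) (nat_lit 2097152) (.ev (nat_lit 3293)
 (nat_lit 8192) .dd))))))) (.br (nat_lit 11) (.ch (nat_lit 10) (.ev (nat_lit 1680) (nat_lit 34426914816) (.ev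
 (nat_lit 1716) (nat_lit 8192) (.ev (nat_lit 2340) (nat_lit 256) (.fin (nat_lit 576500884492993126)))))) (.ch
 (nat_lit 11) (.ev (nat_lit 1680) (nat_lit 69280000) (.ev (nat_lit 1892) (nat_lit 34359738368) (.ev (nat_lit
 2052) (nat_lit 2048) (.ev (nat_lit 2061) (nat_lit 524288) .dd))))))))))) (.ch (nat_lit 9) (.ev (nat_lit 1424)
 (nat_lit 34429020418) (.nd (nat_lit 1664) (.br (nat_lit 8) (.br (nat_lit 5) (.ch (nat_lit 3) (.ev (nat_lit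
 1680) (nat_lit 34078720) (.ev (nat_lit 1693) (nat_lit 16) .dd))) (.ch (nat_lit 5) (.ev (nat_lit 1680) (nat_lit
 33554448) (.ev (nat_lit 1693) (nat_lit 524288) .dd)))) (.br (nat_lit 9) (.ch (nat_lit 8) (.ev (nat_lit 1680)
 (nat_lit 524288) (.ev (nat_lit 1696) (nat_lit 33554448) .dd))) (.br (nat_lit 10) (.ch (nat_lit 9) (.ev
 (nat_lit 1680) (nat_lit 524288) (.ev (nat_lit 1716) (nat_lit 16) (.ev (nat_lit 1725) (nat_lit 33554432)
 .dd)))) (.ch (nat_lit 10) (.ev (nat_lit 2180) (nat_lit 33554432) (.fin (nat_lit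
 576144642402632372)))))))))))))))))))))))))

/-- Subtrie. -/
noncomputable def T4 : Tr := (.ev (nat_lit 20) (nat_lit 42955972640) (.nd (nat_lit 33) (.br (nat_lit 39) (.br
 (nat_lit 19) (.br (nat_lit 8) (.br (nat_lit 4) (.br (nat_lit 3) (.ch (nat_lit 1) (.ev (nat_lit 52) (nat_lit
 69458067472) (.ev (nat_lit 404) (nat_lit 524288) (.ev (nat_lit 852) (nat_lit 4096) (.ev (nat_lit 1140)
 (nat_lit 256) (.ev (nat_lit 1236) (nat_lit 2048) (.nd (nat_lit 1408) (.br (nat_lit 7) (.br (nat_lit 1) (.ch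
 (nat_lit 0) (.ev (nat_lit 1424) (nat_lit 51479680) (.nd (nat_lit 1664) (.br (nat_lit 6) (.br (nat_lit 5) (.ch
 (nat_lit 1) (.ev (nat_lit 1680) (nat_lit 1073741824) (.ev (nat_lit 1693) (nat_lit 2) .dd))) (.ch (nat_lit 5)
 (.ev (nat_lit 1728) (nat_lit 1073741824) (.ev (nat_lit 1741) (nat_lit 2) .dd)))) (.br (nat_lit 12) (.ch
 (nat_lit 6) (.ev (nat_lit 1680) (nat_lit 1073741824) (.ev (nat_lit 1693) (nat_lit 2) .dd))) (.ch (nat_lit 12)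
 (.ev (nat_lit 1716) (nat_lit 1073741824) (.ev (nat_lit 1725) (nat_lit 2) .dd)))))))) (.br (nat_lit 2) (.ch
 (nat_lit 1) (.ev (nat_lit 1424) (nat_lit 50365570) (.nd (nat_lit 1664) (.br (nat_lit 4) (.br (nat_lit 3) (.ch
 (nat_lit 0) (.ev (nat_lit 1680) (nat_lit 1073741824) (.ev (nat_lit 1716) (nat_lit 1048576) (.ev (nat_lit 1725)
 (nat_lit 65536) .dd)))) (.ch (nat_lit 3) (.ev (nat_lit 1680) (nat_lit 1048576) (.ev (nat_lit 1952) (nat_lit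
 1073741824) (.ev (nat_lit 1965) (nat_lit 65536) .dd))))) (.br (nat_lit 8) (.ch (nat_lit 4) (.ev (nat_lit 1680)
 (nat_lit 1114112) (.ev (nat_lit 1693) (nat_lit 1073741824) .dd))) (.br (nat_lit 10) (.ch (nat_lit 8) (.ev
 (nat_lit 1680) (nat_lit 65536) (.fin (nat_lit 576487690301030978)))) (.ch (nat_lit 10) (.ev (nat_lit 1680)
 (nat_lit 1073741824) (.ev (nat_lit 2180) (nat_lit 1048576) (.ev (nat_lit 2189) (nat_lit 65536) .dd))))))))))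
 (.ch (nat_lit 2) (.ev (nat_lit 1424) (nat_lit 51445890) (.nd (nat_lit 1664) (.br (nat_lit 7) (.br (nat_lit 5)
 (.ch (nat_lit 0) (.ev (nat_lit 1680) (nat_lit 33792) (.ev (nat_lit 1693) (nat_lit 1073741824) .dd))) (.br
 (nat_lit 6) (.ch (nat_lit 5) (.ev (nat_lit 1680) (nat_lit 1073774592) (.ev (nat_lit 1693) (nat_lit 1024)
 .dd))) (.ch (nat_lit 6) (.ev (nat_lit 1680) (nat_lit 1073742848) (.ev (nat_lit 1693) (nat_lit 32768) .dd)))))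
 (.br (nat_lit 11) (.ch (nat_lit 7) (.ev (nat_lit 1680) (nat_lit 33792) (.ev (nat_lit 1693) (nat_lit
 1073741824) .dd))) (.br (nat_lit 12) (.ch (nat_lit 11) (.ev (nat_lit 1680) (nat_lit 1073774592) (.ev (nat_lit
 1693) (nat_lit 1024) .dd))) (.ch (nat_lit 12) (.ev (nat_lit 1680) (nat_lit 1073741824) (.ev (nat_lit 2180)
 (nat_lit 1024) (.ev (nat_lit 2189) (nat_lit 32768) .dd)))))))))))) (.br (nat_lit 8) (.ch (nat_lit 7) (.ev
 (nat_lit 1424) (nat_lit 33588226) (.nd (nat_lit 1664) (.br (nat_lit 4) (.br (nat_lit 1) (.ch (nat_lit 0) (.ev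
 (nat_lit 1680) (nat_lit 1074855936) (.ev (nat_lit 1716) (nat_lit 128) (.ev (nat_lit 1725) (nat_lit 16777216)
 .dd)))) (.br (nat_lit 3) (.ch (nat_lit 1) (.ev (nat_lit 1680) (nat_lit 16842880) (.ev (nat_lit 2368) (nat_lit
 1074790400) .dd))) (.ch (nat_lit 3) (.ev (nat_lit 1680) (nat_lit 1090519040) (.ev (nat_lit 1716) (nat_lit
 65664) (.ev (nat_lit 1725) (nat_lit 1048576) .dd)))))) (.br (nat_lit 10) (.ch (nat_lit 4) (.ev (nat_lit 1680)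
 (nat_lit 1090584704) (.ev (nat_lit 1693) (nat_lit 1048576) .dd))) (.br (nat_lit 12) (.ch (nat_lit 10) (.ev
 (nat_lit 1680) (nat_lit 1074856064) (.ev (nat_lit 1693) (nat_lit 16777216) .dd))) (.ch (nat_lit 12) (.ev
 (nat_lit 1680) (nat_lit 1090519040) (.ev (nat_lit 1716) (nat_lit 65536) (.ev (nat_lit 1744) (nat_lit 128) (.ev
 (nat_lit 1757) (nat_lit 1048576) .dd))))))))))) (.br (nat_lit 11) (.ch (nat_lit 8) (.ev (nat_lit 1424)
 (nat_lit 1073775616) (.nd (nat_lit 1664) (.br (nat_lit 9) (.br (nat_lit 4) (.ch (nat_lit 0) (.ev (nat_lit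
 1680) (nat_lit 33620096) (.ev (nat_lit 2052) (nat_lit 2) (.ev (nat_lit 2340) (nat_lit 1048576) (.ev (nat_lit
 2349) (nat_lit 16777216) .dd))))) (.br (nat_lit 6) (.ch (nat_lit 4) (.ev (nat_lit 1680) (nat_lit 34603136)
 (.ev (nat_lit 2852) (nat_lit 2) (.fin (nat_lit 576672408319509612))))) (.ch (nat_lit 6) (.ev (nat_lit 1680)
 (nat_lit 16842754) (.ev (nat_lit 1728) (nat_lit 33554432) (.ev (nat_lit 2180) (nat_lit 128) (.ev (nat_lit
 2189) (nat_lit 1048576) .dd))))))) (.br (nat_lit 10) (.ch (nat_lit 9) (.ev (nat_lit 1680) (nat_lit 1048706)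
 (.ev (nat_lit 1892) (nat_lit 33554432) (.ev (nat_lit 1904) (nat_lit 16777216) (.ev (nat_lit 1917) (nat_lit
 65536) .dd))))) (.br (nat_lit 12) (.ch (nat_lit 10) (.ev (nat_lit 1680) (nat_lit 51445762) (.ev (nat_lit 1693)
 (nat_lit 128) .dd))) (.ch (nat_lit 12) (.ev (nat_lit 1716) (nat_lit 128) (.ev (nat_lit 2752) (nat_lit 1048576)
 (.ev (nat_lit 2992) (nat_lit 33554432) (.ev (nat_lit 3108) (nat_lit 65536) (.fin (nat_lit
 576333758895440360))))))))))))) (.ch (nat_lit 11) (.ev (nat_lit 1424) (nat_lit 51413122) (.nd (nat_lit 1664)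
 (.br (nat_lit 6) (.br (nat_lit 2) (.ch (nat_lit 0) (.ev (nat_lit 1680) (nat_lit 1073808384) .dd)) (.br
 (nat_lit 5) (.ch (nat_lit 2) (.ev (nat_lit 1680) (nat_lit 1073741824) (.ev (nat_lit 1716) (nat_lit 1024) (.ev
 (nat_lit 1725) (nat_lit 65536) .dd)))) (.ch (nat_lit 5) (.ev (nat_lit 1680) (nat_lit 1073742848) (.ev (nat_lit
 1693) (nat_lit 65536) .dd))))) (.br (nat_lit 10) (.ch (nat_lit 6) (.ev (nat_lit 1716) (nat_lit 1073807360)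
 (.ev (nat_lit 1725) (nat_lit 1024) .dd))) (.br (nat_lit 11) (.ch (nat_lit 10) (.ev (nat_lit 1680) (nat_lit
 66560) (.ev (nat_lit 1693) (nat_lit 1073741824) .dd))) (.ch (nat_lit 11) (.ev (nat_lit 1680) (nat_lit
 1073807360) (.ev (nat_lit 1693) (nat_lit 1024) .dd))))))))))))))))))) (.ch (nat_lit 3) (.ev (nat_lit 52)
 (nat_lit 68921327632) (.ev (nat_lit 308) (nat_lit 536870912) (.ev (nat_lit 372) (nat_lit 2048) (.ev (nat_lit
 820) (nat_lit 32768) (.ev (nat_lit 1268) (nat_lit 4096) (.nd (nat_lit 1408) (.br (nat_lit 7) (.br (nat_lit 1)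
 (.ch (nat_lit 0) (.ev (nat_lit 1424) (nat_lit 17891456) (.nd (nat_lit 1664) (.br (nat_lit 4) (.br (nat_lit 3)
 (.ch (nat_lit 2) (.ev (nat_lit 1680) (nat_lit 1074135296) (.ev (nat_lit 2340) (nat_lit 2) (.ev (nat_lit 2352)
 (nat_lit 1024) (.ev (nat_lit 2365) (nat_lit 33554432) .dd))))) (.ch (nat_lit 3) (.ev (nat_lit 1680) (nat_lit
 1107689730) (.ev (nat_lit 1693) (nat_lit 1024) .dd)))) (.br (nat_lit 5) (.ch (nat_lit 4) (.ev (nat_lit 1680)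
 (nat_lit 1073742848) (.ev (nat_lit 1920) (nat_lit 131072) (.ev (nat_lit 2976) (nat_lit 262400) (.ev (nat_lit
 3108) (nat_lit 33554432) (.ev (nat_lit 3117) (nat_lit 2) .dd)))))) (.br (nat_lit 8) (.ch (nat_lit 5) (.ev
 (nat_lit 1904) (nat_lit 131072) (.ev (nat_lit 2064) (nat_lit 256) (.ev (nat_lit 2340) (nat_lit 262144) (.ev
 (nat_lit 2400) (nat_lit 1073741824) (.ev (nat_lit 2548) (nat_lit 2) (.ev (nat_lit 2688) (nat_lit 1024) (.ev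
 (nat_lit 2701) (nat_lit 33554432) .dd)))))))) (.ch (nat_lit 8) (.ev (nat_lit 1680) (nat_lit 1107689474) (.ev
 (nat_lit 1776) (nat_lit 1024) (.ev (nat_lit 1789) (nat_lit 256) .dd)))))))))) (.br (nat_lit 3) (.ch (nat_lit
 1) (.ev (nat_lit 1424) (nat_lit 17171840) (.nd (nat_lit 1664) (.br (nat_lit 6) (.br (nat_lit 4) (.ch (nat_lit
 3) (.ev (nat_lit 1680) (nat_lit 1114114) (.ev (nat_lit 2400) (nat_lit 1107296256) .dd))) (.br (nat_lit 5) (.ch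
 (nat_lit 4) (.ev (nat_lit 1680) (nat_lit 34668544) (.ev (nat_lit 1892) (nat_lit 2) (.ev (nat_lit 1901)
 (nat_lit 1073741824) .dd)))) (.ch (nat_lit 5) (.ev (nat_lit 1680) (nat_lit 1074855936) (.ev (nat_lit 1728)
 (nat_lit 33554432) (.ev (nat_lit 1741) (nat_lit 2) .dd)))))) (.br (nat_lit 8) (.ch (nat_lit 6) (.ev (nat_lit
 1680) (nat_lit 1107296258) (.ev (nat_lit 1716) (nat_lit 65536) (.ev (nat_lit 1725) (nat_lit 1048576) .dd))))
 (.br (nat_lit 10) (.ch (nat_lit 8) (.ev (nat_lit 1680) (nat_lit 33619968) (.ev (nat_lit 1716) (nat_lit 2)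
 (.fin (nat_lit 576487690301030978))))) (.ch (nat_lit 10) (.ev (nat_lit 1680) (nat_lit 33554434) (.ev (nat_lit
 2052) (nat_lit 1073741824) (.ev (nat_lit 2064) (nat_lit 65536) (.ev (nat_lit 2077) (nat_lit 1048576)
 .dd))))))))))) (.ch (nat_lit 3) (.ev (nat_lit 1424) (nat_lit 17892738) (.nd (nat_lit 1664) (.br (nat_lit 9)
 (.br (nat_lit 3) (.ch (nat_lit 0) (.ev (nat_lit 1680) (nat_lit 1107427328) (.ev (nat_lit 1693) (nat_lit
 262144) .dd))) (.ch (nat_lit 3) (.ev (nat_lit 1680) (nat_lit 262144) (.ev (nat_lit 1728) (nat_lit 1107427328)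
 .dd)))) (.br (nat_lit 10) (.ch (nat_lit 9) (.ev (nat_lit 1680) (nat_lit 33685504) (.ev (nat_lit 1696) (nat_lit
 1074003968) .dd))) (.br (nat_lit 11) (.ch (nat_lit 10) (.ev (nat_lit 1680) (nat_lit 1107296256) (.ev (nat_lit
 2384) (nat_lit 393216) .dd))) (.ch (nat_lit 11) (.ev (nat_lit 1680) (nat_lit 1107558400) (.ev (nat_lit 1693)
 (nat_lit 131072) .dd))))))))))) (.br (nat_lit 9) (.br (nat_lit 8) (.ch (nat_lit 7) (.ev (nat_lit 1424)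
 (nat_lit 1441922) (.nd (nat_lit 1664) (.br (nat_lit 2) (.br (nat_lit 1) (.ch (nat_lit 0) (.ev (nat_lit 1680)
 (nat_lit 1090585600) (.ev (nat_lit 1696) (nat_lit 33554688) .dd))) (.ch (nat_lit 1) (.ev (nat_lit 1680)
 (nat_lit 16843008) (.ev (nat_lit 1716) (nat_lit 1024) (.ev (nat_lit 1728) (nat_lit 1107296256) .dd))))) (.br
 (nat_lit 4) (.ch (nat_lit 2) (.ev (nat_lit 1680) (nat_lit 1124073472) (.ev (nat_lit 2180) (nat_lit 1024) (.ev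
 (nat_lit 2548) (nat_lit 256) (.ev (nat_lit 2557) (nat_lit 65536) .dd))))) (.br (nat_lit 8) (.ch (nat_lit 4)
 (.ev (nat_lit 1680) (nat_lit 33620224) (.ev (nat_lit 1760) (nat_lit 1024) (.ev (nat_lit 2080) (nat_lit
 1090519040) .dd)))) (.ch (nat_lit 8) (.ev (nat_lit 1680) (nat_lit 1124074496) (.ev (nat_lit 2180) (nat_lit
 65536) (.ev (nat_lit 2189) (nat_lit 256) .dd)))))))))) (.ch (nat_lit 8) (.ev (nat_lit 1424) (nat_lit 17237248)
 (.nd (nat_lit 1664) (.br (nat_lit 9) (.br (nat_lit 2) (.ch (nat_lit 0) (.ev (nat_lit 1680) (nat_lit 1048706)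
 (.ev (nat_lit 2340) (nat_lit 33554432) (.ev (nat_lit 2349) (nat_lit 1073741824) .dd)))) (.br (nat_lit 5) (.ch
 (nat_lit 2) (.ev (nat_lit 1680) (nat_lit 1108344962) .dd)) (.ch (nat_lit 5) (.ev (nat_lit 1680) (nat_lit
 1073741824) (.ev (nat_lit 1892) (nat_lit 33554432) (.ev (nat_lit 2016) (nat_lit 2) (.fin (nat_lit
 576672408728453992)))))))) (.br (nat_lit 10) (.ch (nat_lit 9) (.ev (nat_lit 1680) (nat_lit 1073741954) (.ev
 (nat_lit 1904) (nat_lit 34603008) .dd))) (.br (nat_lit 12) (.ch (nat_lit 10) (.ev (nat_lit 1680) (nat_lit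
 34603008) (.ev (nat_lit 1728) (nat_lit 1073741824) (.ev (nat_lit 1968) (nat_lit 130) .dd)))) (.ch (nat_lit 12)
 (.ev (nat_lit 1680) (nat_lit 1073741824) (.ev (nat_lit 1716) (nat_lit 1048576) (.ev (nat_lit 2180) (nat_lit
 128) (.ev (nat_lit 2484) (nat_lit 2) (.ev (nat_lit 2493) (nat_lit 33554432) .dd))))))))))))) (.br (nat_lit 11)
 (.ch (nat_lit 9) (.ev (nat_lit 1424) (nat_lit 1124336898) (.nd (nat_lit 1664) (.br (nat_lit 8) (.br (nat_lit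
 4) (.ch (nat_lit 0) (.ev (nat_lit 1680) (nat_lit 1245184) (.ev (nat_lit 1693) (nat_lit 128) .dd))) (.ch
 (nat_lit 4) (.ev (nat_lit 1680) (nat_lit 1114240) (.ev (nat_lit 1693) (nat_lit 131072) .dd)))) (.br (nat_lit
 9) (.ch (nat_lit 8) (.ev (nat_lit 1680) (nat_lit 65536) (.ev (nat_lit 1892) (nat_lit 1048576) (.ev (nat_lit
 2548) (nat_lit 128) (.ev (nat_lit 2557) (nat_lit 131072) .dd))))) (.ch (nat_lit 9) (.ev (nat_lit 1680)
 (nat_lit 1179648) (.ev (nat_lit 1716) (nat_lit 128) (.ev (nat_lit 1725) (nat_lit 65536) .dd))))))))) (.ch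
 (nat_lit 11) (.ev (nat_lit 1424) (nat_lit 1108738434) (.nd (nat_lit 1664) (.br (nat_lit 6) (.br (nat_lit 4)
 (.ch (nat_lit 2) (.ev (nat_lit 1680) (nat_lit 16777216) (.ev (nat_lit 1892) (nat_lit 65536) (.ev (nat_lit
 1901) (nat_lit 1024) .dd)))) (.ch (nat_lit 4) (.ev (nat_lit 1680) (nat_lit 16777216) (.ev (nat_lit 1696)
 (nat_lit 66560) .dd)))) (.br (nat_lit 8) (.ch (nat_lit 6) (.ev (nat_lit 1680) (nat_lit 16778240) (.ev (nat_lit
 1693) (nat_lit 65536) .dd))) (.ch (nat_lit 8) (.ev (nat_lit 1680) (nat_lit 1024) (.ev (nat_lit 2160) (nat_lit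
 16777216) (.ev (nat_lit 2173) (nat_lit 65536) .dd)))))))))))))))))))) (.br (nat_lit 5) (.ch (nat_lit 4) (.ev
 (nat_lit 52) (nat_lit 738203792) (.ev (nat_lit 468) (nat_lit 1048576) (.ev (nat_lit 660) (nat_lit 33554432)
 (.ev (nat_lit 692) (nat_lit 32768) (.ev (nat_lit 820) (nat_lit 131072) (.nd (nat_lit 1408) (.br (nat_lit 6)
 (.br (nat_lit 2) (.ch (nat_lit 0) (.ev (nat_lit 1424) (nat_lit 68736581890) (.nd (nat_lit 1664) (.br (nat_lit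
 7) (.br (nat_lit 2) (.ch (nat_lit 1) (.ev (nat_lit 1776) (nat_lit 524288) (.ev (nat_lit 2112) (nat_lit 1024)
 (.ev (nat_lit 2125) (nat_lit 1073741824) .dd)))) (.br (nat_lit 3) (.ch (nat_lit 2) (.ev (nat_lit 1728)
 (nat_lit 1024) (.ev (nat_lit 1808) (nat_lit 1073741824) (.ev (nat_lit 1821) (nat_lit 524288) .dd)))) (.ch
 (nat_lit 3) (.ev (nat_lit 1680) (nat_lit 1074266112) (.ev (nat_lit 1693) (nat_lit 1024) .dd))))) (.br (nat_lit
 8) (.ch (nat_lit 7) (.ev (nat_lit 1680) (nat_lit 525312) (.ev (nat_lit 1693) (nat_lit 1073741824) .dd))) (.br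
 (nat_lit 12) (.ch (nat_lit 8) (.ev (nat_lit 1680) (nat_lit 1073742848) (.ev (nat_lit 1693) (nat_lit 524288)
 .dd))) (.ch (nat_lit 12) (.ev (nat_lit 1680) (nat_lit 1074267136) .dd)))))))) (.br (nat_lit 3) (.ch (nat_lit
 2) (.ev (nat_lit 1424) (nat_lit 17301506) (.nd (nat_lit 1664) (.br (nat_lit 3) (.br (nat_lit 2) (.ch (nat_lit
 0) (.ev (nat_lit 1680) (nat_lit 1073808384) (.ev (nat_lit 1728) (nat_lit 68719476992) (.ev (nat_lit 1741)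
 (nat_lit 262144) .dd)))) (.ch (nat_lit 2) (.ev (nat_lit 1680) (nat_lit 69793219840) (.ev (nat_lit 1936)
 (nat_lit 262144) (.ev (nat_lit 1949) (nat_lit 65536) .dd))))) (.br (nat_lit 6) (.ch (nat_lit 3) (.ev (nat_lit
 1680) (nat_lit 69793218816) (.ev (nat_lit 1892) (nat_lit 262144) (.ev (nat_lit 2096) (nat_lit 1024) (.ev
 (nat_lit 2109) (nat_lit 65536) .dd))))) (.br (nat_lit 7) (.ch (nat_lit 6) (.ev (nat_lit 1680) (nat_lit
 68719543552) (.ev (nat_lit 2052) (nat_lit 1073741824) (.ev (nat_lit 2061) (nat_lit 262144) .dd)))) (.ch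
 (nat_lit 7) (.ev (nat_lit 1680) (nat_lit 68719739136) (.ev (nat_lit 1716) (nat_lit 1073741824) (.ev (nat_lit
 1728) (nat_lit 66560) .dd)))))))))) (.ch (nat_lit 3) (.ev (nat_lit 1424) (nat_lit 16778496) (.nd (nat_lit
 1664) (.br (nat_lit 10) (.br (nat_lit 5) (.ch (nat_lit 0) (.ev (nat_lit 1680) (nat_lit 68719476738) (.ev
 (nat_lit 2484) (nat_lit 524288) (.ev (nat_lit 2644) (nat_lit 1073741824) (.fin (nat_lit
 576676806355534488)))))) (.br (nat_lit 8) (.ch (nat_lit 5) (.ev (nat_lit 1680) (nat_lit 68719476736) (.ev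
 (nat_lit 2064) (nat_lit 65536) (.ev (nat_lit 2192) (nat_lit 1073741824) (.ev (nat_lit 2884) (nat_lit 524288)
 (.ev (nat_lit 3168) (nat_lit 262146) .dd)))))) (.ch (nat_lit 8) (.ev (nat_lit 1680) (nat_lit 68720066560) (.ev
 (nat_lit 1892) (nat_lit 1073741824) (.ev (nat_lit 2064) (nat_lit 262144) (.ev (nat_lit 2077) (nat_lit 2)
 .dd))))))) (.br (nat_lit 11) (.ch (nat_lit 10) (.ev (nat_lit 1680) (nat_lit 1074528258) (.ev (nat_lit 2064)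
 (nat_lit 68719476736) (.ev (nat_lit 2077) (nat_lit 65536) .dd)))) (.br (nat_lit 12) (.ch (nat_lit 11) (.ev
 (nat_lit 1680) (nat_lit 1074003968) (.ev (nat_lit 1892) (nat_lit 524288) (.ev (nat_lit 1904) (nat_lit
 68719476736) (.ev (nat_lit 2180) (nat_lit 65536) (.ev (nat_lit 2189) (nat_lit 2) .dd)))))) (.ch (nat_lit 12)
 (.ev (nat_lit 1680) (nat_lit 68719804418) (.ev (nat_lit 1716) (nat_lit 1073741824) (.ev (nat_lit 1725)
 (nat_lit 524288) .dd)))))))))))) (.br (nat_lit 8) (.ch (nat_lit 6) (.ev (nat_lit 1424) (nat_lit 69794070530)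
 (.nd (nat_lit 1664) (.br (nat_lit 3) (.br (nat_lit 1) (.ch (nat_lit 0) (.ev (nat_lit 1680) (nat_lit 16778240)
 (.ev (nat_lit 1693) (nat_lit 256) .dd))) (.br (nat_lit 2) (.ch (nat_lit 1) (.ev (nat_lit 1680) (nat_lit
 16778240) (.ev (nat_lit 1693) (nat_lit 256) .dd))) (.ch (nat_lit 2) (.ev (nat_lit 1680) (nat_lit 16778240)
 (.ev (nat_lit 1693) (nat_lit 256) .dd))))) (.br (nat_lit 5) (.ch (nat_lit 3) (.ev (nat_lit 1936) (nat_lit
 1024) (.ev (nat_lit 2484) (nat_lit 256) (.ev (nat_lit 2493) (nat_lit 16777216) .dd)))) (.br (nat_lit 6) (.ch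
 (nat_lit 5) (.ev (nat_lit 1680) (nat_lit 16777216) (.ev (nat_lit 1892) (nat_lit 256) (.ev (nat_lit 1901)
 (nat_lit 1024) .dd)))) (.ch (nat_lit 6) (.ev (nat_lit 1680) (nat_lit 256) (.ev (nat_lit 1728) (nat_lit
 16777216) (.ev (nat_lit 1741) (nat_lit 1024) .dd)))))))))) (.br (nat_lit 9) (.ch (nat_lit 8) (.ev (nat_lit
 1424) (nat_lit 69793219840) (.nd (nat_lit 1664) (.br (nat_lit 6) (.br (nat_lit 4) (.ch (nat_lit 0) (.ev
 (nat_lit 1680) (nat_lit 524290) (.ev (nat_lit 1892) (nat_lit 16777216) (.ev (nat_lit 2180) (nat_lit 262144)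
 (.ev (nat_lit 2189) (nat_lit 65536) .dd))))) (.br (nat_lit 5) (.ch (nat_lit 4) (.ev (nat_lit 1680) (nat_lit
 524290) (.ev (nat_lit 1744) (nat_lit 65536) (.ev (nat_lit 1904) (nat_lit 262144) (.ev (nat_lit 1917) (nat_lit
 16777216) .dd))))) (.ch (nat_lit 5) (.ev (nat_lit 1680) (nat_lit 17104898) (.ev (nat_lit 1693) (nat_lit
 524288) .dd))))) (.br (nat_lit 7) (.ch (nat_lit 6) (.ev (nat_lit 1680) (nat_lit 17563650) (.ev (nat_lit 1693)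
 (nat_lit 65536) .dd))) (.br (nat_lit 12) (.ch (nat_lit 7) (.ev (nat_lit 1680) (nat_lit 262144) (.ev (nat_lit
 2052) (nat_lit 2) (.ev (nat_lit 2180) (nat_lit 16777216) (.ev (nat_lit 2192) (nat_lit 524288) (.ev (nat_lit
 2205) (nat_lit 65536) .dd)))))) (.ch (nat_lit 12) (.ev (nat_lit 1680) (nat_lit 262144) (.ev (nat_lit 1716)
 (nat_lit 524288) (.ev (nat_lit 2416) (nat_lit 65536) (.fin (nat_lit 576333758895440360)))))))))))) (.ch
 (nat_lit 9) (.ev (nat_lit 1424) (nat_lit 69810324736) (.nd (nat_lit 1664) (.br (nat_lit 7) (.br (nat_lit 4)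
 (.ch (nat_lit 0) (.ev (nat_lit 1680) (nat_lit 524290) .dd)) (.ch (nat_lit 4) (.ev (nat_lit 1680) (nat_lit
 524288) (.ev (nat_lit 1693) (nat_lit 2) .dd)))) (.br (nat_lit 8) (.ch (nat_lit 7) (.ev (nat_lit 1716) (nat_lit
 524288) (.ev (nat_lit 1725) (nat_lit 2) .dd))) (.br (nat_lit 11) (.ch (nat_lit 8) (.ev (nat_lit 1680) (nat_lit
 524290) .dd)) (.ch (nat_lit 11) (.ev (nat_lit 1892) (nat_lit 524288) (.ev (nat_lit 1901) (nat_lit 2)
 .dd))))))))))))))))))) (.br (nat_lit 7) (.ch (nat_lit 5) (.ev (nat_lit 52) (nat_lit 202212610) (.ev (nat_lit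
 468) (nat_lit 128) (.ev (nat_lit 596) (nat_lit 16777216) (.ev (nat_lit 756) (nat_lit 2048) (.ev (nat_lit 820)
 (nat_lit 33554432) (.ev (nat_lit 1056) (nat_lit 70331273232) .dd))))))) (.ch (nat_lit 7) (.ev (nat_lit 52)
 (nat_lit 1309214850) (.ev (nat_lit 148) (nat_lit 1280) (.ev (nat_lit 436) (nat_lit 262144) (.ev (nat_lit 992)
 (nat_lit 69274341392) .dd)))))))) (.br (nat_lit 15) (.br (nat_lit 11) (.ch (nat_lit 8) (.ev (nat_lit 52)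
 (nat_lit 69392205056) (.ev (nat_lit 596) (nat_lit 33554432) (.ev (nat_lit 724) (nat_lit 1140850688) (.ev
 (nat_lit 1236) (nat_lit 4096) (.nd (nat_lit 1408) (.br (nat_lit 6) (.br (nat_lit 1) (.ch (nat_lit 0) (.ev
 (nat_lit 1424) (nat_lit 16810112) (.nd (nat_lit 1664) (.br (nat_lit 6) (.br (nat_lit 5) (.ch (nat_lit 4) (.ev
 (nat_lit 1680) (nat_lit 16) (.ev (nat_lit 1952) (nat_lit 131072) (.ev (nat_lit 2052) (nat_lit 2) (.ev (nat_lit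
 2180) (nat_lit 262144) (.ev (nat_lit 2189) (nat_lit 2048) .dd)))))) (.ch (nat_lit 5) (.ev (nat_lit 1680)
 (nat_lit 2064) (.ev (nat_lit 2368) (nat_lit 2) (.ev (nat_lit 3092) (nat_lit 131072) (.ev (nat_lit 3101)
 (nat_lit 262144) .dd)))))) (.br (nat_lit 8) (.ch (nat_lit 6) (.ev (nat_lit 1680) (nat_lit 393232) (.ev
 (nat_lit 1840) (nat_lit 2) (.ev (nat_lit 1853) (nat_lit 2048) .dd)))) (.br (nat_lit 12) (.ch (nat_lit 8) (.ev
 (nat_lit 1680) (nat_lit 393234) (.ev (nat_lit 1693) (nat_lit 2048) .dd))) (.ch (nat_lit 12) (.ev (nat_lit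
 1680) (nat_lit 2050) (.ev (nat_lit 2644) (nat_lit 131072) (.ev (nat_lit 2852) (nat_lit 262144) (.ev (nat_lit
 2861) (nat_lit 16) .dd))))))))))) (.br (nat_lit 3) (.ch (nat_lit 1) (.ev (nat_lit 1424) (nat_lit 16812032)
 (.nd (nat_lit 1664) (.br (nat_lit 4) (.br (nat_lit 1) (.ch (nat_lit 0) (.ev (nat_lit 1680) (nat_lit 393360)
 (.ev (nat_lit 1693) (nat_lit 2) .dd))) (.ch (nat_lit 1) (.ev (nat_lit 1680) (nat_lit 393218) (.ev (nat_lit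
 1716) (nat_lit 16) (.ev (nat_lit 1725) (nat_lit 128) .dd))))) (.br (nat_lit 8) (.ch (nat_lit 4) (.ev (nat_lit
 1680) (nat_lit 130) (.ev (nat_lit 1716) (nat_lit 131088) (.ev (nat_lit 1725) (nat_lit 262144) .dd)))) (.ch
 (nat_lit 8) (.ev (nat_lit 1680) (nat_lit 262288) (.ev (nat_lit 1728) (nat_lit 131072) (.ev (nat_lit 1741)
 (nat_lit 2) .dd))))))))) (.ch (nat_lit 3) (.ev (nat_lit 1424) (nat_lit 295040) (.nd (nat_lit 1664) (.br
 (nat_lit 8) (.br (nat_lit 3) (.ch (nat_lit 1) (.ev (nat_lit 1680) (nat_lit 2064) (.ev (nat_lit 1744) (nat_lit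
 16777216) (.ev (nat_lit 2352) (nat_lit 2) (.ev (nat_lit 2365) (nat_lit 131072) .dd))))) (.br (nat_lit 5) (.ch
 (nat_lit 3) (.ev (nat_lit 1680) (nat_lit 16910338) (.ev (nat_lit 1693) (nat_lit 16) .dd))) (.ch (nat_lit 5)
 (.ev (nat_lit 1680) (nat_lit 131088) (.ev (nat_lit 1716) (nat_lit 2048) (.ev (nat_lit 2180) (nat_lit 16777216)
 (.ev (nat_lit 2189) (nat_lit 2) .dd))))))) (.br (nat_lit 9) (.ch (nat_lit 8) (.ev (nat_lit 1680) (nat_lit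
 133136) (.ev (nat_lit 1744) (nat_lit 16777218) .dd))) (.br (nat_lit 10) (.ch (nat_lit 9) (.ev (nat_lit 1680)
 (nat_lit 133122) (.ev (nat_lit 2352) (nat_lit 16777232) .dd))) (.ch (nat_lit 10) (.ev (nat_lit 1680) (nat_lit
 131072) (.ev (nat_lit 1716) (nat_lit 2) (.ev (nat_lit 1892) (nat_lit 16) (.ev (nat_lit 3092) (nat_lit 2048)
 (.ev (nat_lit 3101) (nat_lit 16777216) .dd)))))))))))))) (.br (nat_lit 9) (.ch (nat_lit 6) (.ev (nat_lit 1424)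
 (nat_lit 17041408) (.nd (nat_lit 1664) (.br (nat_lit 4) (.br (nat_lit 2) (.ch (nat_lit 1) (.ev (nat_lit 1680)
 (nat_lit 32912) (.ev (nat_lit 2400) (nat_lit 131074) .dd))) (.br (nat_lit 3) (.ch (nat_lit 2) (.ev (nat_lit
 1680) (nat_lit 32914) (.ev (nat_lit 1693) (nat_lit 131072) .dd))) (.ch (nat_lit 3) (.ev (nat_lit 1680)
 (nat_lit 163856) (.ev (nat_lit 1716) (nat_lit 128) (.ev (nat_lit 1725) (nat_lit 2) .dd)))))) (.br (nat_lit 5)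
 (.ch (nat_lit 4) (.ev (nat_lit 1680) (nat_lit 131200) (.ev (nat_lit 1716) (nat_lit 32768) (.ev (nat_lit 2788)
 (nat_lit 16) (.ev (nat_lit 2797) (nat_lit 2) .dd))))) (.br (nat_lit 6) (.ch (nat_lit 5) (.ev (nat_lit 1680)
 (nat_lit 131216) (.ev (nat_lit 1892) (nat_lit 32768) (.ev (nat_lit 1901) (nat_lit 2) .dd)))) (.ch (nat_lit 6)
 (.ev (nat_lit 1680) (nat_lit 131090) (.fin (nat_lit 576452505970885178)))))))))) (.br (nat_lit 11) (.ch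
 (nat_lit 9) (.ev (nat_lit 1424) (nat_lit 17203218) (.nd (nat_lit 1664) (.br (nat_lit 9) (.br (nat_lit 4) (.ch
 (nat_lit 0) (.ev (nat_lit 1680) (nat_lit 2048) (.ev (nat_lit 1693) (nat_lit 128) .dd))) (.br (nat_lit 6) (.ch
 (nat_lit 4) (.ev (nat_lit 1680) (nat_lit 2176) .dd)) (.ch (nat_lit 6) (.ev (nat_lit 1680) (nat_lit 2176)
 .dd)))) (.br (nat_lit 10) (.ch (nat_lit 9) (.ev (nat_lit 2644) (nat_lit 128) (.ev (nat_lit 2653) (nat_lit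
 2048) .dd))) (.br (nat_lit 11) (.ch (nat_lit 10) (.ev (nat_lit 3040) (nat_lit 128) (.ev (nat_lit 3053)
 (nat_lit 2048) .dd))) (.ch (nat_lit 11) (.ev (nat_lit 1680) (nat_lit 128) (.ev (nat_lit 1693) (nat_lit 2048)
 .dd))))))))) (.ch (nat_lit 11) (.ev (nat_lit 1424) (nat_lit 17039506) (.nd (nat_lit 1664) (.br (nat_lit 6)
 (.br (nat_lit 4) (.ch (nat_lit 0) (.ev (nat_lit 1680) (nat_lit 34816) (.ev (nat_lit 1693) (nat_lit 131072)
 .dd))) (.br (nat_lit 5) (.ch (nat_lit 4) (.ev (nat_lit 1680) (nat_lit 163840) (.ev (nat_lit 1693) (nat_lit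
 2048) .dd))) (.ch (nat_lit 5) (.ev (nat_lit 1680) (nat_lit 165888) .dd)))) (.br (nat_lit 8) (.ch (nat_lit 6)
 (.ev (nat_lit 1680) (nat_lit 32768) (.ev (nat_lit 1716) (nat_lit 2048) (.ev (nat_lit 1725) (nat_lit 131072)
 .dd)))) (.br (nat_lit 12) (.ch (nat_lit 8) (.ev (nat_lit 1680) (nat_lit 2048) (.ev (nat_lit 1716) (nat_lit
 131072) (.ev (nat_lit 1725) (nat_lit 32768) .dd)))) (.ch (nat_lit 12) (.ev (nat_lit 1680) (nat_lit 2048) (.ev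
 (nat_lit 1716) (nat_lit 32768) (.ev (nat_lit 1725) (nat_lit 131072) .dd))))))))))))))))))) (.br (nat_lit 12)
 (.ch (nat_lit 11) (.ev (nat_lit 52) (nat_lit 68871653650) (.ev (nat_lit 468) (nat_lit 33554432) (.ev (nat_lit
 596) (nat_lit 32768) (.ev (nat_lit 756) (nat_lit 67108864) (.ev (nat_lit 820) (nat_lit 128) (.ev (nat_lit
 1120) (nat_lit 1611469824) .dd))))))) (.ch (nat_lit 12) (.ev (nat_lit 52) (nat_lit 1292013712) (.ev (nat_lit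
 500) (nat_lit 256) (.ev (nat_lit 884) (nat_lit 1048576) (.nd (nat_lit 1408) (.br (nat_lit 3) (.br (nat_lit 1)
 (.ch (nat_lit 0) (.ev (nat_lit 1424) (nat_lit 69256413184) (.nd (nat_lit 1664) (.br (nat_lit 6) (.br (nat_lit
 4) (.ch (nat_lit 2) (.ev (nat_lit 1680) (nat_lit 264192) (.ev (nat_lit 2352) (nat_lit 2) (.ev (nat_lit 2740)
 (nat_lit 1024) (.fin (nat_lit 576333758811554160)))))) (.br (nat_lit 5) (.ch (nat_lit 4) (.ev (nat_lit 1680)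
 (nat_lit 34342912) (.ev (nat_lit 1716) (nat_lit 1024) (.ev (nat_lit 1725) (nat_lit 2) .dd)))) (.ch (nat_lit 5)
 (.ev (nat_lit 1680) (nat_lit 2048) (.ev (nat_lit 2192) (nat_lit 525312) (.ev (nat_lit 2884) (nat_lit 2) (.ev
 (nat_lit 3220) (nat_lit 262144) (.ev (nat_lit 3229) (nat_lit 33554432) .dd)))))))) (.br (nat_lit 8) (.ch
 (nat_lit 6) (.ev (nat_lit 1680) (nat_lit 33555456) (.ev (nat_lit 1892) (nat_lit 2) (.ev (nat_lit 1904)
 (nat_lit 2048) (.ev (nat_lit 2180) (nat_lit 262144) (.ev (nat_lit 2189) (nat_lit 524288) .dd)))))) (.br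
 (nat_lit 12) (.ch (nat_lit 8) (.ev (nat_lit 1680) (nat_lit 33817602) (.ev (nat_lit 2064) (nat_lit 526336)
 .dd))) (.ch (nat_lit 12) (.ev (nat_lit 1680) (nat_lit 526338) (.ev (nat_lit 1892) (nat_lit 1024) (.ev (nat_lit
 2352) (nat_lit 33554432) (.ev (nat_lit 2365) (nat_lit 262144) .dd))))))))))) (.br (nat_lit 2) (.ch (nat_lit 1)
 (.ev (nat_lit 1424) (nat_lit 69290494976) (.nd (nat_lit 1664) (.br (nat_lit 6) (.br (nat_lit 5) (.ch (nat_lit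
 3) (.ev (nat_lit 1680) (nat_lit 262146) .dd)) (.ch (nat_lit 5) (.ev (nat_lit 1716) (nat_lit 2) (.ev (nat_lit
 1725) (nat_lit 262144) .dd)))) (.br (nat_lit 10) (.ch (nat_lit 6) (.ev (nat_lit 1680) (nat_lit 262146) .dd))
 (.br (nat_lit 11) (.ch (nat_lit 10) (.ev (nat_lit 1892) (nat_lit 2) (.ev (nat_lit 1901) (nat_lit 262144)
 .dd))) (.ch (nat_lit 11) (.ev (nat_lit 1680) (nat_lit 2) (.ev (nat_lit 1693) (nat_lit 262144) .dd)))))))))
 (.ch (nat_lit 2) (.ev (nat_lit 1424) (nat_lit 327682) (.nd (nat_lit 1664) (.br (nat_lit 5) (.br (nat_lit 2)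
 (.ch (nat_lit 0) (.ev (nat_lit 1680) (nat_lit 68719479808) (.ev (nat_lit 1892) (nat_lit 33554432) (.ev
 (nat_lit 2096) (nat_lit 536870912) (.ev (nat_lit 2109) (nat_lit 524288) .dd))))) (.ch (nat_lit 2) (.ev
 (nat_lit 1680) (nat_lit 69256350720) (.ev (nat_lit 1936) (nat_lit 33554432) (.ev (nat_lit 1949) (nat_lit
 524288) .dd))))) (.br (nat_lit 6) (.ch (nat_lit 5) (.ev (nat_lit 1680) (nat_lit 68753033216) (.ev (nat_lit
 1716) (nat_lit 1024) (.ev (nat_lit 1728) (nat_lit 537395200) .dd)))) (.br (nat_lit 7) (.ch (nat_lit 6) (.ev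
 (nat_lit 1680) (nat_lit 537396224) (.ev (nat_lit 1728) (nat_lit 68719478784) (.ev (nat_lit 1741) (nat_lit
 33554432) .dd)))) (.ch (nat_lit 7) (.ev (nat_lit 1680) (nat_lit 69256873984) (.ev (nat_lit 2052) (nat_lit
 1024) (.ev (nat_lit 2061) (nat_lit 33554432) .dd)))))))))))) (.br (nat_lit 6) (.ch (nat_lit 3) (.ev (nat_lit
 1424) (nat_lit 69256350720) (.nd (nat_lit 1664) (.br (nat_lit 10) (.br (nat_lit 1) (.ch (nat_lit 0) (.ev
 (nat_lit 1680) (nat_lit 33554432) (.ev (nat_lit 1716) (nat_lit 2) (.ev (nat_lit 2448) (nat_lit 524288) (.fin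
 (nat_lit 576676806355534488)))))) (.br (nat_lit 3) (.ch (nat_lit 1) (.ev (nat_lit 1680) (nat_lit 34406400)
 (.ev (nat_lit 1693) (nat_lit 2) .dd))) (.ch (nat_lit 3) (.ev (nat_lit 1680) (nat_lit 262146) (.ev (nat_lit
 1744) (nat_lit 524288) (.ev (nat_lit 2052) (nat_lit 65536) (.ev (nat_lit 2061) (nat_lit 33554432) .dd)))))))
 (.br (nat_lit 11) (.ch (nat_lit 10) (.ev (nat_lit 1680) (nat_lit 33554432) (.ev (nat_lit 2052) (nat_lit
 262144) (.ev (nat_lit 2180) (nat_lit 65536) (.ev (nat_lit 2192) (nat_lit 2) (.ev (nat_lit 2205) (nat_lit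
 524288) .dd)))))) (.br (nat_lit 12) (.ch (nat_lit 11) (.ev (nat_lit 1680) (nat_lit 262146) (.ev (nat_lit 1744)
 (nat_lit 524288) (.ev (nat_lit 1892) (nat_lit 65536) (.ev (nat_lit 1901) (nat_lit 33554432) .dd))))) (.ch
 (nat_lit 12) (.ev (nat_lit 1680) (nat_lit 33882114) (.ev (nat_lit 1693) (nat_lit 524288) .dd))))))))) (.br
 (nat_lit 7) (.ch (nat_lit 6) (.ev (nat_lit 1424) (nat_lit 68753885184) (.nd (nat_lit 1664) (.br (nat_lit 5)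
 (.br (nat_lit 3) (.ch (nat_lit 1) (.ev (nat_lit 1680) (nat_lit 1026) (.ev (nat_lit 1693) (nat_lit 536870912)
 .dd))) (.br (nat_lit 4) (.ch (nat_lit 3) (.ev (nat_lit 1696) (nat_lit 536870912) (.ev (nat_lit 1824) (nat_lit
 1024) (.ev (nat_lit 1837) (nat_lit 2) .dd)))) (.ch (nat_lit 4) (.ev (nat_lit 1680) (nat_lit 536871936) (.ev
 (nat_lit 1693) (nat_lit 2) .dd))))) (.br (nat_lit 6) (.ch (nat_lit 5) (.ev (nat_lit 1776) (nat_lit 2) (.ev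
 (nat_lit 2112) (nat_lit 536870912) (.ev (nat_lit 2125) (nat_lit 1024) .dd)))) (.br (nat_lit 9) (.ch (nat_lit
 6) (.ev (nat_lit 1680) (nat_lit 536870914) (.ev (nat_lit 1693) (nat_lit 1024) .dd))) (.ch (nat_lit 9) (.ev
 (nat_lit 1680) (nat_lit 536871938) .dd)))))))) (.ch (nat_lit 7) (.ev (nat_lit 1424) (nat_lit 34343938) (.ev
 (nat_lit 1478) (nat_lit 68719476736) (.nd (nat_lit 1664) (.br (nat_lit 8) (.br (nat_lit 2) (.ch (nat_lit 1)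
 (.ev (nat_lit 1680) (nat_lit 536936448) .dd)) (.br (nat_lit 4) (.ch (nat_lit 2) (.ev (nat_lit 1728) (nat_lit
 65536) (.ev (nat_lit 1741) (nat_lit 536870912) .dd))) (.ch (nat_lit 4) (.ev (nat_lit 1680) (nat_lit 65536)
 (.ev (nat_lit 1693) (nat_lit 536870912) .dd))))) (.br (nat_lit 10) (.ch (nat_lit 8) (.ev (nat_lit 1936)
 (nat_lit 536870912) (.ev (nat_lit 1949) (nat_lit 65536) .dd))) (.br (nat_lit 12) (.ch (nat_lit 10) (.ev
 (nat_lit 1680) (nat_lit 536936448) .dd)) (.ch (nat_lit 12) (.ev (nat_lit 1680) (nat_lit 536936448)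
 .dd))))))))))))))))))) (.br (nat_lit 16) (.ch (nat_lit 15) (.ev (nat_lit 52) (nat_lit 68737566722) (.ev
 (nat_lit 128) (nat_lit 1846252944) .dd))) (.br (nat_lit 18) (.ch (nat_lit 16) (.ev (nat_lit 52) (nat_lit
 69308518402) (.ev (nat_lit 84) (nat_lit 256) (.ev (nat_lit 660) (nat_lit 16) (.ev (nat_lit 852) (nat_lit 2048)
 (.ev (nat_lit 916) (nat_lit 134217728) (.nd (nat_lit 1408) (.br (nat_lit 7) (.br (nat_lit 2) (.ch (nat_lit 1)
 (.ev (nat_lit 1424) (nat_lit 67339264) (.nd (nat_lit 1664) (.br (nat_lit 5) (.br (nat_lit 1) (.ch (nat_lit 0)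
 (.ev (nat_lit 1680) (nat_lit 1073741952) .dd)) (.br (nat_lit 4) (.ch (nat_lit 1) (.ev (nat_lit 1680) (nat_lit
 128) (.ev (nat_lit 1693) (nat_lit 1073741824) .dd))) (.ch (nat_lit 4) (.ev (nat_lit 1680) (nat_lit 1073741952)
 .dd)))) (.br (nat_lit 6) (.ch (nat_lit 5) (.ev (nat_lit 1680) (nat_lit 1073741824) (.ev (nat_lit 1693)
 (nat_lit 128) .dd))) (.br (nat_lit 11) (.ch (nat_lit 6) (.ev (nat_lit 1680) (nat_lit 1073741952) .dd)) (.ch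
 (nat_lit 11) (.ev (nat_lit 1680) (nat_lit 1073741824) (.ev (nat_lit 1693) (nat_lit 128) .dd))))))))) (.ch
 (nat_lit 2) (.ev (nat_lit 1424) (nat_lit 131200) (.nd (nat_lit 1664) (.br (nat_lit 3) (.br (nat_lit 2) (.ch
 (nat_lit 1) (.ev (nat_lit 1680) (nat_lit 1140948992) (.ev (nat_lit 1693) (nat_lit 1024) .dd))) (.ch (nat_lit
 2) (.ev (nat_lit 1680) (nat_lit 1140851712) (.ev (nat_lit 1716) (nat_lit 65536) (.ev (nat_lit 1725) (nat_lit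
 32768) .dd))))) (.br (nat_lit 6) (.ch (nat_lit 3) (.ev (nat_lit 1680) (nat_lit 32768) (.ev (nat_lit 1892)
 (nat_lit 65536) (.ev (nat_lit 2080) (nat_lit 67108864) (.ev (nat_lit 2144) (nat_lit 1024) (.ev (nat_lit 2157)
 (nat_lit 1073741824) .dd)))))) (.br (nat_lit 12) (.ch (nat_lit 6) (.ev (nat_lit 1680) (nat_lit 66560) (.ev
 (nat_lit 2144) (nat_lit 32768) (.ev (nat_lit 2548) (nat_lit 67108864) (.ev (nat_lit 2557) (nat_lit 1073741824)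
 .dd))))) (.ch (nat_lit 12) (.ev (nat_lit 1680) (nat_lit 67207168) (.ev (nat_lit 2080) (nat_lit 1073741824)
 (.ev (nat_lit 2093) (nat_lit 1024) .dd))))))))))) (.br (nat_lit 8) (.ch (nat_lit 7) (.ev (nat_lit 1424)
 (nat_lit 67142656) (.nd (nat_lit 1664) (.br (nat_lit 8) (.br (nat_lit 3) (.ch (nat_lit 1) (.ev (nat_lit 1680)
 (nat_lit 196736) (.ev (nat_lit 1693) (nat_lit 1073741824) .dd))) (.ch (nat_lit 3) (.ev (nat_lit 1680) (nat_lit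
 131072) (.ev (nat_lit 1920) (nat_lit 1073741824) (.ev (nat_lit 2484) (nat_lit 128) (.ev (nat_lit 2493)
 (nat_lit 65536) .dd)))))) (.br (nat_lit 9) (.ch (nat_lit 8) (.ev (nat_lit 1680) (nat_lit 1073741952) (.ev
 (nat_lit 1892) (nat_lit 131072) (.ev (nat_lit 1901) (nat_lit 65536) .dd)))) (.br (nat_lit 12) (.ch (nat_lit 9)
 (.ev (nat_lit 1680) (nat_lit 1073872896) (.ev (nat_lit 2052) (nat_lit 128) (.ev (nat_lit 2061) (nat_lit 65536)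
 .dd)))) (.ch (nat_lit 12) (.ev (nat_lit 1680) (nat_lit 1073807360) (.ev (nat_lit 1716) (nat_lit 131072) (.ev
 (nat_lit 1725) (nat_lit 128) .dd)))))))))) (.br (nat_lit 9) (.ch (nat_lit 8) (.ev (nat_lit 1424) (nat_lit
 67273856) (.nd (nat_lit 1664) (.br (nat_lit 6) (.br (nat_lit 4) (.ch (nat_lit 0) (.ev (nat_lit 1716) (nat_lit
 1073741824) (.ev (nat_lit 1725) (nat_lit 65536) .dd))) (.br (nat_lit 5) (.ch (nat_lit 4) (.ev (nat_lit 1680)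
 (nat_lit 65536) (.ev (nat_lit 1693) (nat_lit 1073741824) .dd))) (.ch (nat_lit 5) (.ev (nat_lit 1680) (nat_lit
 1073741824) (.ev (nat_lit 1693) (nat_lit 65536) .dd))))) (.br (nat_lit 10) (.ch (nat_lit 6) (.ev (nat_lit
 1680) (nat_lit 1073741824) (.ev (nat_lit 1693) (nat_lit 65536) .dd))) (.br (nat_lit 12) (.ch (nat_lit 10) (.ev
 (nat_lit 1680) (nat_lit 1073807360) .dd)) (.ch (nat_lit 12) (.ev (nat_lit 1680) (nat_lit 1073741824) (.ev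
 (nat_lit 1693) (nat_lit 65536) .dd))))))))) (.ch (nat_lit 9) (.ev (nat_lit 1424) (nat_lit 1140884608) (.ev
 (nat_lit 1444) (nat_lit 65536) (.ev (nat_lit 1453) (nat_lit 131072) .dd)))))))))))))) (.ch (nat_lit 18) (.ev
 (nat_lit 52) (nat_lit 235018386) (.ev (nat_lit 148) (nat_lit 68719476736) (.ev (nat_lit 276) (nat_lit 256)
 (.ev (nat_lit 436) (nat_lit 1048576) (.ev (nat_lit 1044) (nat_lit 1024) (.ev (nat_lit 1152) (nat_lit
 1628274688) .dd))))))))))) (.br (nat_lit 29) (.br (nat_lit 23) (.br (nat_lit 22) (.ch (nat_lit 19) (.ev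
 (nat_lit 52) (nat_lit 69391487232) (.ev (nat_lit 244) (nat_lit 2048) (.ev (nat_lit 404) (nat_lit 128) (.ev
 (nat_lit 468) (nat_lit 98304) (.ev (nat_lit 884) (nat_lit 16) (.nd (nat_lit 1408) (.br (nat_lit 6) (.br
 (nat_lit 1) (.ch (nat_lit 0) (.ev (nat_lit 1424) (nat_lit 118490112) (.nd (nat_lit 1664) (.br (nat_lit 6) (.br
 (nat_lit 3) (.ch (nat_lit 1) (.ev (nat_lit 2052) (nat_lit 1073741824) (.ev (nat_lit 2061) (nat_lit 2) .dd)))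
 (.br (nat_lit 5) (.ch (nat_lit 3) (.ev (nat_lit 1680) (nat_lit 1073741824) (.ev (nat_lit 1693) (nat_lit 2)
 .dd))) (.ch (nat_lit 5) (.ev (nat_lit 2052) (nat_lit 1073741824) (.ev (nat_lit 2061) (nat_lit 2) .dd))))) (.br
 (nat_lit 7) (.ch (nat_lit 6) (.ev (nat_lit 1680) (nat_lit 1073741826) .dd)) (.br (nat_lit 8) (.ch (nat_lit 7)
 (.ev (nat_lit 1680) (nat_lit 1073741826) .dd)) (.ch (nat_lit 8) (.ev (nat_lit 1680) (nat_lit 1073741826)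
 .dd)))))))) (.br (nat_lit 2) (.ch (nat_lit 1) (.ev (nat_lit 1424) (nat_lit 17826818) (.nd (nat_lit 1664) (.br
 (nat_lit 10) (.br (nat_lit 4) (.ch (nat_lit 3) (.ev (nat_lit 1680) (nat_lit 100663296) (.ev (nat_lit 1693)
 (nat_lit 1073741824) .dd))) (.ch (nat_lit 4) (.ev (nat_lit 1680) (nat_lit 100663296) (.ev (nat_lit 1693)
 (nat_lit 1073741824) .dd)))) (.br (nat_lit 11) (.ch (nat_lit 10) (.ev (nat_lit 1680) (nat_lit 100663296) (.ev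
 (nat_lit 1693) (nat_lit 1073741824) .dd))) (.ch (nat_lit 11) (.ev (nat_lit 1716) (nat_lit 67108864) (.ev
 (nat_lit 2052) (nat_lit 1073741824) (.ev (nat_lit 2061) (nat_lit 33554432) .dd))))))))) (.ch (nat_lit 2) (.ev
 (nat_lit 1424) (nat_lit 118490114) (.ev (nat_lit 1437) (nat_lit 1073741824) .dd))))) (.br (nat_lit 9) (.br
 (nat_lit 8) (.ch (nat_lit 6) (.ev (nat_lit 1424) (nat_lit 1108344834) (.nd (nat_lit 1664) (.br (nat_lit 2)
 (.br (nat_lit 1) (.ch (nat_lit 0) (.ev (nat_lit 1680) (nat_lit 67109888) (.ev (nat_lit 1693) (nat_lit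
 16777216) .dd))) (.ch (nat_lit 1) (.ev (nat_lit 1680) (nat_lit 16778240) (.ev (nat_lit 1693) (nat_lit
 67108864) .dd)))) (.br (nat_lit 6) (.ch (nat_lit 2) (.ev (nat_lit 1680) (nat_lit 1024) (.ev (nat_lit 1716)
 (nat_lit 67108864) (.ev (nat_lit 1725) (nat_lit 16777216) .dd)))) (.br (nat_lit 11) (.ch (nat_lit 6) (.ev
 (nat_lit 1680) (nat_lit 67108864) (.ev (nat_lit 1760) (nat_lit 16777216) (.ev (nat_lit 1773) (nat_lit 1024)
 .dd)))) (.ch (nat_lit 11) (.ev (nat_lit 1680) (nat_lit 83887104) .dd)))))))) (.ch (nat_lit 8) (.ev (nat_lit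
 1424) (nat_lit 100664320) (.nd (nat_lit 1664) (.br (nat_lit 4) (.br (nat_lit 2) (.ch (nat_lit 0) (.ev (nat_lit
 1680) (nat_lit 1073741824) (.ev (nat_lit 1776) (nat_lit 16777216) (.ev (nat_lit 1892) (nat_lit 1048576) (.ev
 (nat_lit 1901) (nat_lit 2) .dd))))) (.ch (nat_lit 2) (.ev (nat_lit 1680) (nat_lit 1048578) (.ev (nat_lit 2688)
 (nat_lit 16777216) (.ev (nat_lit 2701) (nat_lit 1073741824) .dd))))) (.br (nat_lit 7) (.ch (nat_lit 4) (.ev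
 (nat_lit 1680) (nat_lit 1048576) (.ev (nat_lit 1952) (nat_lit 2) (.ev (nat_lit 2112) (nat_lit 1073741824) (.ev
 (nat_lit 2125) (nat_lit 16777216) .dd))))) (.br (nat_lit 12) (.ch (nat_lit 7) (.ev (nat_lit 1680) (nat_lit
 17825792) (.ev (nat_lit 2340) (nat_lit 2) (.ev (nat_lit 2349) (nat_lit 1073741824) .dd)))) (.ch (nat_lit 12)
 (.ev (nat_lit 1680) (nat_lit 1073741824) (.ev (nat_lit 2180) (nat_lit 16777216) (.ev (nat_lit 2484) (nat_lit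
 2) (.ev (nat_lit 2493) (nat_lit 1048576) .dd)))))))))))) (.br (nat_lit 11) (.ch (nat_lit 9) (.ev (nat_lit
 1424) (nat_lit 1124074496) (.nd (nat_lit 1664) (.br (nat_lit 7) (.br (nat_lit 4) (.ch (nat_lit 0) (.ev
 (nat_lit 1680) (nat_lit 67108864) (.ev (nat_lit 2180) (nat_lit 2) (.ev (nat_lit 2189) (nat_lit 1048576)
 .dd)))) (.br (nat_lit 5) (.ch (nat_lit 4) (.ev (nat_lit 1680) (nat_lit 1048576) (.ev (nat_lit 2052) (nat_lit
 2) (.ev (nat_lit 2061) (nat_lit 67108864) .dd)))) (.ch (nat_lit 5) (.ev (nat_lit 1680) (nat_lit 67108866) (.ev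
 (nat_lit 1693) (nat_lit 1048576) .dd))))) (.br (nat_lit 8) (.ch (nat_lit 7) (.ev (nat_lit 1680) (nat_lit
 67108864) (.ev (nat_lit 1892) (nat_lit 2) (.ev (nat_lit 1901) (nat_lit 1048576) .dd)))) (.br (nat_lit 10) (.ch
 (nat_lit 8) (.ev (nat_lit 1680) (nat_lit 68157442) .dd)) (.ch (nat_lit 10) (.ev (nat_lit 1680) (nat_lit
 1048578) (.ev (nat_lit 1693) (nat_lit 67108864) .dd))))))))) (.ch (nat_lit 11) (.ev (nat_lit 1424) (nat_lit
 1108344834) (.nd (nat_lit 1664) (.br (nat_lit 10) (.br (nat_lit 6) (.ch (nat_lit 2) (.ev (nat_lit 1920)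
 (nat_lit 16777216) (.ev (nat_lit 2644) (nat_lit 67108864) (.ev (nat_lit 2653) (nat_lit 1024) .dd)))) (.ch
 (nat_lit 6) (.ev (nat_lit 1680) (nat_lit 83887104) .dd))) (.br (nat_lit 11) (.ch (nat_lit 10) (.ev (nat_lit
 1680) (nat_lit 16777216) (.ev (nat_lit 2180) (nat_lit 1024) (.ev (nat_lit 2189) (nat_lit 67108864) .dd))))
 (.br (nat_lit 12) (.ch (nat_lit 11) (.ev (nat_lit 1904) (nat_lit 16777216) (.ev (nat_lit 2484) (nat_lit
 67108864) (.ev (nat_lit 2493) (nat_lit 1024) .dd)))) (.ch (nat_lit 12) (.ev (nat_lit 1680) (nat_lit 83887104)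
 .dd)))))))))))))))))) (.ch (nat_lit 22) (.ev (nat_lit 52) (nat_lit 1142035840) (.ev (nat_lit 1108) (nat_lit 2)
 (.nd (nat_lit 1408) (.br (nat_lit 2) (.br (nat_lit 1) (.ch (nat_lit 0) (.ev (nat_lit 1424) (nat_lit
 69273223168) (.nd (nat_lit 1664) (.br (nat_lit 6) (.br (nat_lit 2) (.ch (nat_lit 1) (.ev (nat_lit 1680)
 (nat_lit 168036352) (.ev (nat_lit 1744) (nat_lit 524288) (.ev (nat_lit 1757) (nat_lit 16) .dd)))) (.br
 (nat_lit 4) (.ch (nat_lit 2) (.ev (nat_lit 1680) (nat_lit 168034304) (.ev (nat_lit 1936) (nat_lit 16) (.ev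
 (nat_lit 2052) (nat_lit 2048) (.ev (nat_lit 2061) (nat_lit 524288) .dd))))) (.ch (nat_lit 4) (.ev (nat_lit
 1680) (nat_lit 134219792) (.ev (nat_lit 1744) (nat_lit 524288) (.ev (nat_lit 1776) (nat_lit 262144) (.ev
 (nat_lit 1789) (nat_lit 33554432) .dd))))))) (.br (nat_lit 8) (.br (nat_lit 7) (.ch (nat_lit 6) (.ev (nat_lit
 1680) (nat_lit 262160) (.ev (nat_lit 1716) (nat_lit 2048) (.ev (nat_lit 2052) (nat_lit 34078720) (.ev (nat_lit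
 2061) (nat_lit 134217728) .dd))))) (.ch (nat_lit 7) (.ev (nat_lit 1680) (nat_lit 134744080) (.ev (nat_lit
 2180) (nat_lit 33554432) (.ev (nat_lit 2189) (nat_lit 262144) .dd))))) (.br (nat_lit 12) (.ch (nat_lit 8) (.ev
 (nat_lit 1680) (nat_lit 33816592) (.ev (nat_lit 2052) (nat_lit 2048) (.ev (nat_lit 2180) (nat_lit 134217728)
 (.ev (nat_lit 2189) (nat_lit 524288) .dd))))) (.ch (nat_lit 12) (.ev (nat_lit 1680) (nat_lit 788480) (.ev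
 (nat_lit 1728) (nat_lit 33554432) (.ev (nat_lit 1904) (nat_lit 134217728) (.ev (nat_lit 1917) (nat_lit 16)
 .dd))))))))))) (.ch (nat_lit 1) (.ev (nat_lit 1424) (nat_lit 69307533312) (.nd (nat_lit 1664) (.br (nat_lit 4)
 (.br (nat_lit 3) (.ch (nat_lit 0) (.ev (nat_lit 1680) (nat_lit 16) (.ev (nat_lit 1696) (nat_lit 134250496)
 .dd))) (.ch (nat_lit 3) (.ev (nat_lit 1680) (nat_lit 16) (.ev (nat_lit 1716) (nat_lit 32768) (.ev (nat_lit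
 1725) (nat_lit 134217728) .dd))))) (.br (nat_lit 6) (.ch (nat_lit 4) (.ev (nat_lit 1680) (nat_lit 134250496)
 (.ev (nat_lit 1693) (nat_lit 16) .dd))) (.br (nat_lit 11) (.ch (nat_lit 6) (.ev (nat_lit 2180) (nat_lit
 134217728) (.fin (nat_lit 576250195854443436)))) (.ch (nat_lit 11) (.ev (nat_lit 1680) (nat_lit 134217744)
 (.ev (nat_lit 1693) (nat_lit 32768) .dd)))))))))) (.br (nat_lit 3) (.ch (nat_lit 2) (.ev (nat_lit 1424)
 (nat_lit 151027712) (.nd (nat_lit 1664) (.br (nat_lit 6) (.br (nat_lit 3) (.ch (nat_lit 0) (.ev (nat_lit 1680)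
 (nat_lit 68719804416) (.ev (nat_lit 2000) (nat_lit 536870912) (.ev (nat_lit 2208) (nat_lit 33554432) (.ev
 (nat_lit 2548) (nat_lit 16) (.ev (nat_lit 3332) (nat_lit 2048) (.ev (nat_lit 3341) (nat_lit 524288) .dd)))))))
 (.br (nat_lit 5) (.ch (nat_lit 3) (.ev (nat_lit 1680) (nat_lit 69290164224) (.ev (nat_lit 1716) (nat_lit
 524288) (.ev (nat_lit 2052) (nat_lit 65536) (.fin (nat_lit 576434913786937870)))))) (.ch (nat_lit 5) (.ev
 (nat_lit 1680) (nat_lit 69290690576) (.ev (nat_lit 1693) (nat_lit 65536) .dd))))) (.br (nat_lit 11) (.ch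
 (nat_lit 6) (.ev (nat_lit 1680) (nat_lit 68753623040) (.ev (nat_lit 1892) (nat_lit 536870912) (.ev (nat_lit
 2052) (nat_lit 262144) (.ev (nat_lit 2061) (nat_lit 16) .dd))))) (.br (nat_lit 12) (.ch (nat_lit 11) (.ev
 (nat_lit 1680) (nat_lit 262160) (.ev (nat_lit 1744) (nat_lit 68719476736) (.ev (nat_lit 2224) (nat_lit 2048)
 (.ev (nat_lit 2740) (nat_lit 524288) (.ev (nat_lit 3040) (nat_lit 536936448) (.ev (nat_lit 3053) (nat_lit
 33554432) .dd))))))) (.ch (nat_lit 12) (.ev (nat_lit 1680) (nat_lit 537460752) (.ev (nat_lit 1904) (nat_lit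
 68719476736) (.ev (nat_lit 2080) (nat_lit 2048) (.ev (nat_lit 3284) (nat_lit 33554432) (.ev (nat_lit 3293)
 (nat_lit 262144) .dd)))))))))))) (.br (nat_lit 6) (.ch (nat_lit 3) (.ev (nat_lit 1424) (nat_lit 32784) (.nd
 (nat_lit 1664) (.br (nat_lit 9) (.br (nat_lit 1) (.ch (nat_lit 0) (.ev (nat_lit 1680) (nat_lit 68904091648)
 (.ev (nat_lit 1984) (nat_lit 524288) (.ev (nat_lit 2340) (nat_lit 262144) (.ev (nat_lit 2496) (nat_lit
 536870912) (.ev (nat_lit 2509) (nat_lit 2048) .dd)))))) (.br (nat_lit 5) (.ch (nat_lit 1) (.ev (nat_lit 1680)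
 (nat_lit 69257136128) (.ev (nat_lit 1716) (nat_lit 33619968) (.ev (nat_lit 2340) (nat_lit 16777216) (.ev
 (nat_lit 2349) (nat_lit 134217728) .dd))))) (.ch (nat_lit 5) (.ev (nat_lit 1680) (nat_lit 69407344640) (.ev
 (nat_lit 1892) (nat_lit 65536) (.ev (nat_lit 2096) (nat_lit 524288) (.ev (nat_lit 3428) (nat_lit 33554432)
 (.ev (nat_lit 3437) (nat_lit 262144) .dd)))))))) (.br (nat_lit 10) (.ch (nat_lit 9) (.ev (nat_lit 1680)
 (nat_lit 168626176) (.ev (nat_lit 1716) (nat_lit 536870912) (.ev (nat_lit 1892) (nat_lit 16777216) (.ev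
 (nat_lit 1901) (nat_lit 68719476736) .dd))))) (.br (nat_lit 12) (.ch (nat_lit 10) (.ev (nat_lit 1680) (nat_lit
 69289902080) (.ev (nat_lit 2052) (nat_lit 327680) (.ev (nat_lit 2352) (nat_lit 16777216) (.ev (nat_lit 2576)
 (nat_lit 134217728) (.ev (nat_lit 3380) (nat_lit 2048) (.ev (nat_lit 3389) (nat_lit 524288) .dd))))))) (.ch
 (nat_lit 12) (.ev (nat_lit 1680) (nat_lit 68770136064) (.ev (nat_lit 2052) (nat_lit 526336) (.ev (nat_lit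
 2340) (nat_lit 536870912) (.ev (nat_lit 2349) (nat_lit 134217728) .dd))))))))))) (.ch (nat_lit 6) (.ev
 (nat_lit 1424) (nat_lit 69307467776) (.nd (nat_lit 1664) (.br (nat_lit 5) (.br (nat_lit 3) (.ch (nat_lit 2)
 (.ev (nat_lit 1680) (nat_lit 134250512) (.ev (nat_lit 1693) (nat_lit 65536) .dd))) (.ch (nat_lit 3) (.ev
 (nat_lit 1680) (nat_lit 134316032) (.ev (nat_lit 1693) (nat_lit 16) .dd)))) (.br (nat_lit 6) (.ch (nat_lit 5)
 (.ev (nat_lit 1680) (nat_lit 16) (.ev (nat_lit 1716) (nat_lit 134217728) (.ev (nat_lit 1892) (nat_lit 32768)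
 (.ev (nat_lit 1901) (nat_lit 65536) .dd))))) (.br (nat_lit 11) (.ch (nat_lit 6) (.ev (nat_lit 1680) (nat_lit
 32768) (.ev (nat_lit 1716) (nat_lit 65552) (.ev (nat_lit 1725) (nat_lit 134217728) .dd)))) (.ch (nat_lit 11)
 (.ev (nat_lit 1680) (nat_lit 134250496) (.ev (nat_lit 2180) (nat_lit 16) (.ev (nat_lit 2189) (nat_lit 65536)
 .dd)))))))))))))))))) (.br (nat_lit 24) (.ch (nat_lit 23) (.ev (nat_lit 52) (nat_lit 638390544) (.ev (nat_lit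
 564) (nat_lit 32768) (.ev (nat_lit 660) (nat_lit 16777216) (.ev (nat_lit 820) (nat_lit 134217728) (.ev
 (nat_lit 1024) (nat_lit 69794401410) .dd)))))) (.br (nat_lit 26) (.ch (nat_lit 24) (.ev (nat_lit 52) (nat_lit
 1611860368) (.ev (nat_lit 564) (nat_lit 16777216) (.ev (nat_lit 660) (nat_lit 32768) (.ev (nat_lit 820)
 (nat_lit 2) (.ev (nat_lit 960) (nat_lit 68955149312) .dd)))))) (.ch (nat_lit 26) (.ev (nat_lit 52) (nat_lit
 202342784) (.ev (nat_lit 148) (nat_lit 536870912) (.ev (nat_lit 244) (nat_lit 4096) (.ev (nat_lit 468)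
 (nat_lit 2) (.ev (nat_lit 980) (nat_lit 68719476736) (.ev (nat_lit 1108) (nat_lit 16777216) (.nd (nat_lit
 1408) (.br (nat_lit 6) (.br (nat_lit 2) (.ch (nat_lit 1) (.ev (nat_lit 1424) (nat_lit 1073744912) (.nd
 (nat_lit 1664) (.br (nat_lit 5) (.br (nat_lit 3) (.ch (nat_lit 0) (.ev (nat_lit 1716) (nat_lit 33554432) (.ev
 (nat_lit 1725) (nat_lit 1048576) .dd))) (.br (nat_lit 4) (.ch (nat_lit 3) (.ev (nat_lit 2240) (nat_lit
 33554432) (.ev (nat_lit 2253) (nat_lit 1048576) .dd))) (.ch (nat_lit 4) (.ev (nat_lit 1680) (nat_lit 1048576)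
 (.ev (nat_lit 1693) (nat_lit 33554432) .dd))))) (.br (nat_lit 6) (.ch (nat_lit 5) (.ev (nat_lit 1680) (nat_lit
 1048576) (.ev (nat_lit 1693) (nat_lit 33554432) .dd))) (.br (nat_lit 8) (.ch (nat_lit 6) (.ev (nat_lit 1680)
 (nat_lit 33554432) (.ev (nat_lit 1693) (nat_lit 1048576) .dd))) (.ch (nat_lit 8) (.ev (nat_lit 1680) (nat_lit
 34603008) .dd)))))))) (.br (nat_lit 3) (.ch (nat_lit 2) (.ev (nat_lit 1424) (nat_lit 1048592) (.nd (nat_lit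
 1664) (.br (nat_lit 7) (.br (nat_lit 5) (.ch (nat_lit 2) (.ev (nat_lit 1680) (nat_lit 33557504) (.ev (nat_lit
 1693) (nat_lit 1073741824) .dd))) (.ch (nat_lit 5) (.ev (nat_lit 1680) (nat_lit 1107299328) .dd))) (.br
 (nat_lit 11) (.ch (nat_lit 7) (.ev (nat_lit 1680) (nat_lit 2048) (.ev (nat_lit 2080) (nat_lit 1073741824) (.ev
 (nat_lit 2740) (nat_lit 1024) (.ev (nat_lit 2749) (nat_lit 33554432) .dd))))) (.br (nat_lit 12) (.ch (nat_lit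
 11) (.ev (nat_lit 1680) (nat_lit 1073741824) (.ev (nat_lit 2548) (nat_lit 1024) (.ev (nat_lit 2788) (nat_lit
 2048) (.ev (nat_lit 2797) (nat_lit 33554432) .dd))))) (.ch (nat_lit 12) (.ev (nat_lit 1680) (nat_lit 2048)
 (.ev (nat_lit 2052) (nat_lit 1073741824) (.ev (nat_lit 2064) (nat_lit 1024) (.ev (nat_lit 2077) (nat_lit
 33554432) .dd))))))))))) (.ch (nat_lit 3) (.ev (nat_lit 1424) (nat_lit 1049616) (.nd (nat_lit 1664) (.br
 (nat_lit 9) (.br (nat_lit 3) (.ch (nat_lit 0) (.ev (nat_lit 1680) (nat_lit 33554432) (.ev (nat_lit 1716)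
 (nat_lit 1073741824) (.ev (nat_lit 1725) (nat_lit 2048) .dd)))) (.br (nat_lit 8) (.ch (nat_lit 3) (.ev
 (nat_lit 1680) (nat_lit 33556480) (.ev (nat_lit 1693) (nat_lit 1073741824) .dd))) (.ch (nat_lit 8) (.ev
 (nat_lit 1680) (nat_lit 2048) (.ev (nat_lit 2340) (nat_lit 1073741824) (.ev (nat_lit 2349) (nat_lit 33554432)
 .dd)))))) (.br (nat_lit 11) (.ch (nat_lit 9) (.ev (nat_lit 1680) (nat_lit 33556480) (.ev (nat_lit 1693)
 (nat_lit 1073741824) .dd))) (.br (nat_lit 12) (.ch (nat_lit 11) (.ev (nat_lit 1680) (nat_lit 1107296256) (.ev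
 (nat_lit 1693) (nat_lit 2048) .dd))) (.ch (nat_lit 12) (.ev (nat_lit 1680) (nat_lit 1107296256) (.ev (nat_lit
 1693) (nat_lit 2048) .dd))))))))))) (.br (nat_lit 7) (.ch (nat_lit 6) (.ev (nat_lit 1424) (nat_lit 1107299328)
 (.nd (nat_lit 1664) (.br (nat_lit 5) (.br (nat_lit 2) (.ch (nat_lit 1) (.ev (nat_lit 1680) (nat_lit 1048592)
 .dd)) (.br (nat_lit 4) (.ch (nat_lit 2) (.ev (nat_lit 1680) (nat_lit 1048592) .dd)) (.ch (nat_lit 4) (.ev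
 (nat_lit 2644) (nat_lit 16) (.ev (nat_lit 2653) (nat_lit 1048576) .dd))))) (.br (nat_lit 9) (.ch (nat_lit 5)
 (.ev (nat_lit 1680) (nat_lit 16) (.ev (nat_lit 1693) (nat_lit 1048576) .dd))) (.br (nat_lit 11) (.ch (nat_lit
 9) (.ev (nat_lit 2960) (nat_lit 16) (.ev (nat_lit 2973) (nat_lit 1048576) .dd))) (.ch (nat_lit 11) (.ev
 (nat_lit 1680) (nat_lit 1048576) (.ev (nat_lit 1693) (nat_lit 16) .dd))))))))) (.br (nat_lit 8) (.ch (nat_lit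
 7) (.ev (nat_lit 1424) (nat_lit 1048576) (.nd (nat_lit 1664) (.br (nat_lit 8) (.br (nat_lit 1) (.ch (nat_lit
 0) (.ev (nat_lit 1680) (nat_lit 1040) (.ev (nat_lit 1716) (nat_lit 33556480) (.ev (nat_lit 1725) (nat_lit
 1073741824) .dd)))) (.br (nat_lit 2) (.ch (nat_lit 1) (.ev (nat_lit 1680) (nat_lit 1107296272) (.ev (nat_lit
 1716) (nat_lit 2048) (.ev (nat_lit 1725) (nat_lit 1024) .dd)))) (.ch (nat_lit 2) (.ev (nat_lit 1680) (nat_lit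
 33557504) (.ev (nat_lit 1904) (nat_lit 1073741824) (.ev (nat_lit 1917) (nat_lit 16) .dd)))))) (.br (nat_lit
 10) (.ch (nat_lit 8) (.ev (nat_lit 1680) (nat_lit 33557520) (.ev (nat_lit 1693) (nat_lit 1073741824) .dd)))
 (.br (nat_lit 12) (.ch (nat_lit 10) (.ev (nat_lit 1680) (nat_lit 1107299328) (.ev (nat_lit 1693) (nat_lit 16)
 .dd))) (.ch (nat_lit 12) (.ev (nat_lit 1680) (nat_lit 1073742864) (.ev (nat_lit 1728) (nat_lit 33556480)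
 .dd))))))))) (.ch (nat_lit 8) (.ev (nat_lit 1424) (nat_lit 1049600) (.nd (nat_lit 1664) (.br (nat_lit 7) (.br
 (nat_lit 2) (.ch (nat_lit 0) (.ev (nat_lit 1680) (nat_lit 2064) (.ev (nat_lit 1716) (nat_lit 1073741824) (.ev
 (nat_lit 1725) (nat_lit 33554432) .dd)))) (.br (nat_lit 5) (.ch (nat_lit 2) (.ev (nat_lit 1680) (nat_lit
 33554448) (.ev (nat_lit 2740) (nat_lit 1073741824) (.ev (nat_lit 2749) (nat_lit 2048) .dd)))) (.ch (nat_lit 5)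
 (.ev (nat_lit 1680) (nat_lit 1073743888) (.ev (nat_lit 1693) (nat_lit 33554432) .dd))))) (.br (nat_lit 10)
 (.ch (nat_lit 7) (.ev (nat_lit 1680) (nat_lit 33556496) (.ev (nat_lit 1693) (nat_lit 1073741824) .dd))) (.br
 (nat_lit 12) (.ch (nat_lit 10) (.ev (nat_lit 1680) (nat_lit 33556480) (.ev (nat_lit 1716) (nat_lit 1073741824)
 (.ev (nat_lit 1725) (nat_lit 16) .dd)))) (.ch (nat_lit 12) (.ev (nat_lit 1680) (nat_lit 1107298304) (.ev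
 (nat_lit 1693) (nat_lit 16) .dd))))))))))))))))))))))) (.br (nat_lit 34) (.br (nat_lit 31) (.ch (nat_lit 29)
 (.ev (nat_lit 52) (nat_lit 84154642) (.ev (nat_lit 180) (nat_lit 1024) (.ev (nat_lit 500) (nat_lit 536870912)
 (.ev (nat_lit 916) (nat_lit 131072) (.ev (nat_lit 1140) (nat_lit 68719476736) (.nd (nat_lit 1408) (.br
 (nat_lit 8) (.br (nat_lit 6) (.ch (nat_lit 0) (.ev (nat_lit 1424) (nat_lit 1209106560) (.nd (nat_lit 1664)
 (.br (nat_lit 6) (.br (nat_lit 4) (.ch (nat_lit 3) (.ev (nat_lit 1680) (nat_lit 524288) (.ev (nat_lit 1693)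
 (nat_lit 33554432) .dd))) (.ch (nat_lit 4) (.ev (nat_lit 1680) (nat_lit 33554432) (.ev (nat_lit 1693) (nat_lit
 524288) .dd)))) (.br (nat_lit 12) (.ch (nat_lit 6) (.ev (nat_lit 2340) (nat_lit 524288) (.ev (nat_lit 2349)
 (nat_lit 33554432) .dd))) (.ch (nat_lit 12) (.ev (nat_lit 1680) (nat_lit 34078720) .dd))))))) (.br (nat_lit 7)
 (.ch (nat_lit 6) (.ev (nat_lit 1424) (nat_lit 1242562560) (.ev (nat_lit 1444) (nat_lit 65536) (.nd (nat_lit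
 1664) (.br (nat_lit 6) (.br (nat_lit 2) (.ch (nat_lit 1) (.ev (nat_lit 1680) (nat_lit 128) (.ev (nat_lit 1728)
 (nat_lit 557056) .dd))) (.br (nat_lit 3) (.ch (nat_lit 2) (.ev (nat_lit 1680) (nat_lit 32896) (.ev (nat_lit
 1693) (nat_lit 524288) .dd))) (.ch (nat_lit 3) (.ev (nat_lit 1680) (nat_lit 557056) (.ev (nat_lit 1693)
 (nat_lit 128) .dd))))) (.br (nat_lit 9) (.ch (nat_lit 6) (.ev (nat_lit 1680) (nat_lit 524288) (.fin (nat_lit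
 576452505970885178)))) (.br (nat_lit 11) (.ch (nat_lit 9) (.ev (nat_lit 1680) (nat_lit 524416) (.ev (nat_lit
 1693) (nat_lit 32768) .dd))) (.ch (nat_lit 11) (.ev (nat_lit 1680) (nat_lit 32896) (.ev (nat_lit 1693)
 (nat_lit 524288) .dd)))))))))) (.ch (nat_lit 7) (.ev (nat_lit 1424) (nat_lit 134774784) (.nd (nat_lit 1664)
 (.br (nat_lit 3) (.br (nat_lit 2) (.ch (nat_lit 1) (.ev (nat_lit 1680) (nat_lit 1107361920) (.ev (nat_lit
 1693) (nat_lit 1048576) .dd))) (.ch (nat_lit 2) (.ev (nat_lit 1680) (nat_lit 1107361792) (.ev (nat_lit 1728)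
 (nat_lit 1048704) .dd)))) (.br (nat_lit 9) (.ch (nat_lit 3) (.ev (nat_lit 1680) (nat_lit 34603008) (.ev
 (nat_lit 1716) (nat_lit 65664) (.ev (nat_lit 1725) (nat_lit 1073741824) .dd)))) (.br (nat_lit 12) (.ch
 (nat_lit 9) (.ev (nat_lit 1680) (nat_lit 33554560) (.ev (nat_lit 1892) (nat_lit 65536) (.ev (nat_lit 2052)
 (nat_lit 1073741824) (.ev (nat_lit 2061) (nat_lit 1048576) .dd))))) (.ch (nat_lit 12) (.ev (nat_lit 1680)
 (nat_lit 1073741824) (.ev (nat_lit 1716) (nat_lit 65664) (.ev (nat_lit 2224) (nat_lit 1048576) (.ev (nat_lit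
 2237) (nat_lit 33554432) .dd))))))))))))) (.br (nat_lit 9) (.ch (nat_lit 8) (.ev (nat_lit 1424) (nat_lit
 98304) (.nd (nat_lit 1664) (.br (nat_lit 7) (.br (nat_lit 5) (.ch (nat_lit 4) (.ev (nat_lit 1680) (nat_lit
 169345152) (.ev (nat_lit 1693) (nat_lit 1073741824) .dd))) (.br (nat_lit 6) (.ch (nat_lit 5) (.ev (nat_lit
 1680) (nat_lit 1107296384) (.ev (nat_lit 1716) (nat_lit 134217728) (.ev (nat_lit 2052) (nat_lit 524288) (.ev
 (nat_lit 2061) (nat_lit 1048576) .dd))))) (.ch (nat_lit 6) (.ev (nat_lit 1680) (nat_lit 1208483840) (.ev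
 (nat_lit 2052) (nat_lit 33554432) (.ev (nat_lit 2192) (nat_lit 128) (.ev (nat_lit 2205) (nat_lit 1048576)
 .dd))))))) (.br (nat_lit 10) (.ch (nat_lit 7) (.ev (nat_lit 1680) (nat_lit 168820864) (.ev (nat_lit 1716)
 (nat_lit 524288) (.ev (nat_lit 1725) (nat_lit 1073741824) .dd)))) (.br (nat_lit 12) (.ch (nat_lit 10) (.ev
 (nat_lit 1680) (nat_lit 169345152) (.ev (nat_lit 1693) (nat_lit 1073741824) .dd))) (.ch (nat_lit 12) (.ev
 (nat_lit 1680) (nat_lit 1207959680) (.ev (nat_lit 1716) (nat_lit 524288) (.ev (nat_lit 2180) (nat_lit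
 33554432) (.ev (nat_lit 2189) (nat_lit 1048576) .dd))))))))))) (.br (nat_lit 11) (.ch (nat_lit 9) (.ev
 (nat_lit 1424) (nat_lit 1107918976) (.nd (nat_lit 1664) (.br (nat_lit 6) (.br (nat_lit 4) (.ch (nat_lit 0)
 (.ev (nat_lit 1716) (nat_lit 134217728) (.ev (nat_lit 1725) (nat_lit 1048576) .dd))) (.br (nat_lit 5) (.ch
 (nat_lit 4) (.ev (nat_lit 1680) (nat_lit 135266304) .dd)) (.ch (nat_lit 5) (.ev (nat_lit 1680) (nat_lit
 134217728) (.ev (nat_lit 1693) (nat_lit 1048576) .dd))))) (.br (nat_lit 10) (.br (nat_lit 8) (.ch (nat_lit 6)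
 (.ev (nat_lit 1696) (nat_lit 135266304) .dd)) (.ch (nat_lit 8) (.ev (nat_lit 1680) (nat_lit 1048576) (.ev
 (nat_lit 1693) (nat_lit 134217728) .dd)))) (.br (nat_lit 11) (.ch (nat_lit 10) (.ev (nat_lit 1680) (nat_lit
 1048576) (.ev (nat_lit 1693) (nat_lit 134217728) .dd))) (.ch (nat_lit 11) (.ev (nat_lit 1680) (nat_lit
 135266304) .dd)))))))) (.ch (nat_lit 11) (.ev (nat_lit 1424) (nat_lit 169410688) (.nd (nat_lit 1664) (.br
 (nat_lit 8) (.br (nat_lit 5) (.ch (nat_lit 4) (.ev (nat_lit 1680) (nat_lit 32768) (.ev (nat_lit 1693) (nat_lit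
 1073741824) .dd))) (.br (nat_lit 6) (.ch (nat_lit 5) (.ev (nat_lit 1680) (nat_lit 1073774592) .dd)) (.ch
 (nat_lit 6) (.ev (nat_lit 1680) (nat_lit 32768) (.ev (nat_lit 1693) (nat_lit 1073741824) .dd))))) (.br
 (nat_lit 10) (.ch (nat_lit 8) (.ev (nat_lit 1680) (nat_lit 1073741824) (.ev (nat_lit 1693) (nat_lit 32768)
 .dd))) (.br (nat_lit 12) (.ch (nat_lit 10) (.ev (nat_lit 1680) (nat_lit 1073774592) .dd)) (.ch (nat_lit 12)
 (.ev (nat_lit 1716) (nat_lit 1073741824) (.ev (nat_lit 1725) (nat_lit 32768) .dd))))))))))))))))))) (.br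
 (nat_lit 33) (.ch (nat_lit 31) (.ev (nat_lit 52) (nat_lit 587727874) (.ev (nat_lit 288) (nat_lit 69996091792)
 .dd))) (.ch (nat_lit 33) (.ev (nat_lit 52) (nat_lit 68921920514) (.ev (nat_lit 212) (nat_lit 4096) (.ev
 (nat_lit 512) (nat_lit 1661895056) .dd)))))) (.br (nat_lit 36) (.ch (nat_lit 34) (.ev (nat_lit 52) (nat_lit
 1073777026) (.ev (nat_lit 84) (nat_lit 1024) (.ev (nat_lit 660) (nat_lit 524288) (.ev (nat_lit 1300) (nat_lit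
 33816576) (.nd (nat_lit 1408) (.br (nat_lit 6) (.br (nat_lit 3) (.ch (nat_lit 0) (.ev (nat_lit 1424) (nat_lit
 69274243072) (.nd (nat_lit 1664) (.br (nat_lit 5) (.br (nat_lit 3) (.ch (nat_lit 1) (.ev (nat_lit 1680)
 (nat_lit 131088) (.ev (nat_lit 1728) (nat_lit 201326592) .dd))) (.ch (nat_lit 3) (.ev (nat_lit 1680) (nat_lit
 134217744) (.ev (nat_lit 1716) (nat_lit 67108864) (.ev (nat_lit 1725) (nat_lit 131072) .dd))))) (.br (nat_lit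
 8) (.ch (nat_lit 5) (.ev (nat_lit 1680) (nat_lit 67108864) (.ev (nat_lit 1716) (nat_lit 131072) (.ev (nat_lit
 1760) (nat_lit 134217744) .dd)))) (.br (nat_lit 12) (.ch (nat_lit 8) (.ev (nat_lit 1680) (nat_lit 16) (.ev
 (nat_lit 1716) (nat_lit 201326592) (.ev (nat_lit 1725) (nat_lit 131072) .dd)))) (.ch (nat_lit 12) (.ev
 (nat_lit 1680) (nat_lit 67108864) (.ev (nat_lit 2052) (nat_lit 134217728) (.fin (nat_lit
 576364545556562512))))))))))) (.ch (nat_lit 3) (.ev (nat_lit 1424) (nat_lit 17960960) (.ev (nat_lit 1494)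
 (nat_lit 16) (.nd (nat_lit 1664) (.br (nat_lit 5) (.br (nat_lit 3) (.ch (nat_lit 0) (.ev (nat_lit 1680)
 (nat_lit 68719476736) (.ev (nat_lit 1776) (nat_lit 536936448) (.ev (nat_lit 1920) (nat_lit 201326592) .dd))))
 (.ch (nat_lit 3) (.ev (nat_lit 1680) (nat_lit 603979776) (.ev (nat_lit 1792) (nat_lit 68853694464) (.ev
 (nat_lit 1805) (nat_lit 65536) .dd))))) (.br (nat_lit 8) (.ch (nat_lit 5) (.ev (nat_lit 1680) (nat_lit
 69390565376) (.ev (nat_lit 2340) (nat_lit 65536) (.ev (nat_lit 2349) (nat_lit 67108864) .dd)))) (.br (nat_lit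
 11) (.ch (nat_lit 8) (.ev (nat_lit 1680) (nat_lit 69256413184) (.ev (nat_lit 1716) (nat_lit 67108864) (.ev
 (nat_lit 1725) (nat_lit 134217728) .dd)))) (.ch (nat_lit 11) (.ev (nat_lit 1680) (nat_lit 69323522048) (.ev
 (nat_lit 1693) (nat_lit 134217728) .dd))))))))))) (.br (nat_lit 8) (.ch (nat_lit 6) (.ev (nat_lit 1424)
 (nat_lit 69408522240) (.nd (nat_lit 1664) (.br (nat_lit 6) (.br (nat_lit 2) (.ch (nat_lit 0) (.ev (nat_lit
 1680) (nat_lit 67112960) (.ev (nat_lit 1728) (nat_lit 65552) .dd))) (.ch (nat_lit 2) (.ev (nat_lit 1680)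
 (nat_lit 16) (.ev (nat_lit 2052) (nat_lit 65536) (.fin (nat_lit 576958281363702532)))))) (.br (nat_lit 9) (.ch
 (nat_lit 6) (.ev (nat_lit 1680) (nat_lit 67108864) (.ev (nat_lit 1716) (nat_lit 65552) (.ev (nat_lit 1725)
 (nat_lit 4096) .dd)))) (.br (nat_lit 11) (.ch (nat_lit 9) (.ev (nat_lit 1680) (nat_lit 16) (.ev (nat_lit 1716)
 (nat_lit 4096) (.ev (nat_lit 1776) (nat_lit 67174400) .dd)))) (.ch (nat_lit 11) (.ev (nat_lit 1680) (nat_lit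
 67174400) (.ev (nat_lit 1716) (nat_lit 16) (.ev (nat_lit 1725) (nat_lit 4096) .dd)))))))))) (.br (nat_lit 11)
 (.ch (nat_lit 8) (.ev (nat_lit 1424) (nat_lit 68803559424) (.ev (nat_lit 1444) (nat_lit 134217728) (.nd
 (nat_lit 1664) (.br (nat_lit 6) (.br (nat_lit 2) (.ch (nat_lit 0) (.ev (nat_lit 1680) (nat_lit 16) (.ev
 (nat_lit 1892) (nat_lit 4096) (.ev (nat_lit 2340) (nat_lit 1048576) (.ev (nat_lit 2349) (nat_lit 536870912)
 .dd))))) (.br (nat_lit 4) (.ch (nat_lit 2) (.ev (nat_lit 1680) (nat_lit 1048592) (.ev (nat_lit 1716) (nat_lit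
 4096) (.ev (nat_lit 1725) (nat_lit 536870912) .dd)))) (.ch (nat_lit 4) (.ev (nat_lit 1680) (nat_lit 1052672)
 (.ev (nat_lit 1716) (nat_lit 536870912) (.ev (nat_lit 1725) (nat_lit 16) .dd)))))) (.br (nat_lit 9) (.ch
 (nat_lit 6) (.ev (nat_lit 1680) (nat_lit 16) (.ev (nat_lit 1716) (nat_lit 536875008) (.ev (nat_lit 1725)
 (nat_lit 1048576) .dd)))) (.br (nat_lit 10) (.ch (nat_lit 9) (.ev (nat_lit 1680) (nat_lit 1048592) (.ev
 (nat_lit 1728) (nat_lit 4096) (.ev (nat_lit 1741) (nat_lit 536870912) .dd)))) (.ch (nat_lit 10) (.ev (nat_lit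
 1680) (nat_lit 537923584) (.ev (nat_lit 1693) (nat_lit 16) .dd)))))))))) (.ch (nat_lit 11) (.ev (nat_lit 1424)
 (nat_lit 672141328) (.ev (nat_lit 1444) (nat_lit 65536) (.ev (nat_lit 1510) (nat_lit 68719476736) (.nd
 (nat_lit 1664) (.br (nat_lit 8) (.br (nat_lit 4) (.ch (nat_lit 2) (.ev (nat_lit 1680) (nat_lit 67108864) (.ev
 (nat_lit 1716) (nat_lit 131072) (.ev (nat_lit 1725) (nat_lit 16777216) .dd)))) (.br (nat_lit 6) (.ch (nat_lit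
 4) (.ev (nat_lit 1680) (nat_lit 16908288) (.ev (nat_lit 1693) (nat_lit 67108864) .dd))) (.ch (nat_lit 6) (.ev
 (nat_lit 1680) (nat_lit 83886080) (.ev (nat_lit 1693) (nat_lit 131072) .dd))))) (.br (nat_lit 11) (.ch
 (nat_lit 8) (.ev (nat_lit 1680) (nat_lit 67108864) (.ev (nat_lit 1892) (nat_lit 131072) (.ev (nat_lit 1901)
 (nat_lit 16777216) .dd)))) (.br (nat_lit 12) (.ch (nat_lit 11) (.ev (nat_lit 1680) (nat_lit 16908288) (.ev
 (nat_lit 1693) (nat_lit 67108864) .dd))) (.ch (nat_lit 12) (.ev (nat_lit 1680) (nat_lit 83886080) (.ev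
 (nat_lit 1693) (nat_lit 131072) .dd)))))))))))))))))))) (.br (nat_lit 38) (.ch (nat_lit 36) (.ev (nat_lit 52)
 (nat_lit 1728119168) (.ev (nat_lit 340) (nat_lit 4096) (.ev (nat_lit 404) (nat_lit 32768) (.ev (nat_lit 564)
 (nat_lit 262144) (.ev (nat_lit 788) (nat_lit 2048) (.nd (nat_lit 1408) (.br (nat_lit 7) (.br (nat_lit 1) (.ch
 (nat_lit 0) (.ev (nat_lit 1424) (nat_lit 68720526338) (.nd (nat_lit 1664) (.br (nat_lit 6) (.br (nat_lit 3)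
 (.ch (nat_lit 2) (.ev (nat_lit 1680) (nat_lit 134217744) (.ev (nat_lit 1744) (nat_lit 655360) .dd))) (.br
 (nat_lit 4) (.ch (nat_lit 3) (.ev (nat_lit 1680) (nat_lit 134742016) (.ev (nat_lit 1716) (nat_lit 131072) (.ev
 (nat_lit 1725) (nat_lit 16) .dd)))) (.ch (nat_lit 4) (.ev (nat_lit 1680) (nat_lit 134348816) (.ev (nat_lit
 1693) (nat_lit 524288) .dd))))) (.br (nat_lit 7) (.ch (nat_lit 6) (.ev (nat_lit 1680) (nat_lit 131088) (.ev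
 (nat_lit 1984) (nat_lit 134742016) .dd))) (.br (nat_lit 12) (.ch (nat_lit 7) (.ev (nat_lit 1680) (nat_lit
 134742032) (.ev (nat_lit 1693) (nat_lit 131072) .dd))) (.ch (nat_lit 12) (.ev (nat_lit 1680) (nat_lit 524288)
 (.ev (nat_lit 2548) (nat_lit 134217728) (.nd (nat_lit 3456) (.br (nat_lit 8) (.ch (nat_lit 1) (.fin (nat_lit
 576558058564960816))) (.ch (nat_lit 8) (.ev (nat_lit 3472) (nat_lit 131072) (.ev (nat_lit 3485) (nat_lit 16)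
 .dd)))))))))))))) (.br (nat_lit 6) (.ch (nat_lit 1) (.ev (nat_lit 1424) (nat_lit 68720133120) (.nd (nat_lit
 1664) (.br (nat_lit 4) (.br (nat_lit 1) (.ch (nat_lit 0) (.ev (nat_lit 1680) (nat_lit 135266322) .dd)) (.br
 (nat_lit 3) (.ch (nat_lit 1) (.ev (nat_lit 1680) (nat_lit 135266306) (.ev (nat_lit 1693) (nat_lit 16) .dd)))
 (.ch (nat_lit 3) (.ev (nat_lit 1680) (nat_lit 135266306) (.ev (nat_lit 1693) (nat_lit 16) .dd))))) (.br
 (nat_lit 6) (.br (nat_lit 5) (.ch (nat_lit 4) (.ev (nat_lit 1680) (nat_lit 135266304) (.ev (nat_lit 1892)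
 (nat_lit 2) (.ev (nat_lit 1901) (nat_lit 16) .dd)))) (.ch (nat_lit 5) (.ev (nat_lit 1680) (nat_lit 1048576)
 (.ev (nat_lit 1716) (nat_lit 16) (.ev (nat_lit 2032) (nat_lit 2) (.ev (nat_lit 2045) (nat_lit 134217728)
 .dd)))))) (.br (nat_lit 10) (.ch (nat_lit 6) (.ev (nat_lit 1680) (nat_lit 18) (.ev (nat_lit 1892) (nat_lit
 134217728) (.ev (nat_lit 1901) (nat_lit 1048576) .dd)))) (.ch (nat_lit 10) (.ev (nat_lit 1892) (nat_lit 16)
 (.ev (nat_lit 2052) (nat_lit 2) (.fin (nat_lit 576364545179074612))))))))))) (.ch (nat_lit 6) (.ev (nat_lit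
 1424) (nat_lit 68719476736) (.nd (nat_lit 1664) (.br (nat_lit 3) (.br (nat_lit 2) (.ch (nat_lit 0) (.ev
 (nat_lit 1680) (nat_lit 135922704) (.ev (nat_lit 1693) (nat_lit 2) .dd))) (.ch (nat_lit 2) (.ev (nat_lit 1680)
 (nat_lit 135922706) .dd))) (.br (nat_lit 4) (.ch (nat_lit 3) (.ev (nat_lit 1680) (nat_lit 1048576) (.ev
 (nat_lit 2112) (nat_lit 131072) (.ev (nat_lit 2180) (nat_lit 134217728) (.ev (nat_lit 2548) (nat_lit 16) (.ev
 (nat_lit 2720) (nat_lit 1024) (.ev (nat_lit 3008) (nat_lit 524290) .dd))))))) (.br (nat_lit 9) (.ch (nat_lit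
 4) (.ev (nat_lit 1892) (nat_lit 524288) (.ev (nat_lit 1920) (nat_lit 1024) (.ev (nat_lit 2064) (nat_lit 2)
 (.ev (nat_lit 2548) (nat_lit 1048576) (.ev (nat_lit 2740) (nat_lit 16) (.ev (nat_lit 3204) (nat_lit 131072)
 (.ev (nat_lit 3213) (nat_lit 134217728) .dd)))))))) (.ch (nat_lit 9) (.ev (nat_lit 1680) (nat_lit 525314) (.ev
 (nat_lit 2052) (nat_lit 16) (.ev (nat_lit 2340) (nat_lit 131072) (.ev (nat_lit 2432) (nat_lit 134217728) (.ev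
 (nat_lit 2445) (nat_lit 1048576) .dd)))))))))))))) (.br (nat_lit 8) (.ch (nat_lit 7) (.ev (nat_lit 1424)
 (nat_lit 135790594) (.nd (nat_lit 1664) (.br (nat_lit 8) (.br (nat_lit 2) (.ch (nat_lit 0) (.ev (nat_lit 1680)
 (nat_lit 68719477760) (.ev (nat_lit 1892) (nat_lit 16) (.ev (nat_lit 1901) (nat_lit 131072) .dd)))) (.br
 (nat_lit 4) (.ch (nat_lit 2) (.ev (nat_lit 1680) (nat_lit 68719477760) (.ev (nat_lit 2384) (nat_lit 16) (.ev
 (nat_lit 2397) (nat_lit 131072) .dd)))) (.ch (nat_lit 4) (.ev (nat_lit 1680) (nat_lit 132096) (.ev (nat_lit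
 1716) (nat_lit 68719476736) (.ev (nat_lit 1725) (nat_lit 16) .dd)))))) (.br (nat_lit 9) (.ch (nat_lit 8) (.ev
 (nat_lit 1680) (nat_lit 132112) (.ev (nat_lit 1693) (nat_lit 68719476736) .dd))) (.br (nat_lit 12) (.ch
 (nat_lit 9) (.ev (nat_lit 1680) (nat_lit 68719607824) (.ev (nat_lit 1693) (nat_lit 1024) .dd))) (.ch (nat_lit
 12) (.ev (nat_lit 1680) (nat_lit 132096) (.ev (nat_lit 1716) (nat_lit 16) (.ev (nat_lit 1725) (nat_lit
 68719476736) .dd)))))))))) (.br (nat_lit 11) (.ch (nat_lit 8) (.ev (nat_lit 1424) (nat_lit 68854350864) (.nd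
 (nat_lit 1664) (.br (nat_lit 10) (.br (nat_lit 7) (.ch (nat_lit 6) (.ev (nat_lit 1680) (nat_lit 1048578) .dd))
 (.ch (nat_lit 7) (.ev (nat_lit 1680) (nat_lit 1048576) (.ev (nat_lit 1693) (nat_lit 2) .dd)))) (.br (nat_lit
 12) (.ch (nat_lit 10) (.ev (nat_lit 1680) (nat_lit 1048576) (.ev (nat_lit 1693) (nat_lit 2) .dd))) (.ch
 (nat_lit 12) (.ev (nat_lit 2192) (nat_lit 1048576) (.ev (nat_lit 2205) (nat_lit 2) .dd)))))))) (.ch (nat_lit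
 11) (.ev (nat_lit 1424) (nat_lit 135398418) (.nd (nat_lit 1664) (.br (nat_lit 10) (.br (nat_lit 5) (.ch
 (nat_lit 0) (.ev (nat_lit 2052) (nat_lit 524288) (.ev (nat_lit 2061) (nat_lit 68719476736) .dd))) (.br
 (nat_lit 6) (.ch (nat_lit 5) (.ev (nat_lit 1680) (nat_lit 68719476736) (.ev (nat_lit 1693) (nat_lit 524288)
 .dd))) (.ch (nat_lit 6) (.ev (nat_lit 1680) (nat_lit 524288) (.ev (nat_lit 1693) (nat_lit 68719476736)
 .dd))))) (.br (nat_lit 11) (.ch (nat_lit 10) (.ev (nat_lit 1680) (nat_lit 68719476736) (.ev (nat_lit 1693)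
 (nat_lit 524288) .dd))) (.br (nat_lit 12) (.ch (nat_lit 11) (.ev (nat_lit 1680) (nat_lit 68719476736) (.ev
 (nat_lit 1693) (nat_lit 524288) .dd))) (.ch (nat_lit 12) (.ev (nat_lit 1680) (nat_lit 524288) (.ev (nat_lit
 1693) (nat_lit 68719476736) .dd))))))))))))))))))) (.ch (nat_lit 38) (.ev (nat_lit 52) (nat_lit 69827565824)
 (.ev (nat_lit 1108) (nat_lit 134217728) (.nd (nat_lit 1408) (.br (nat_lit 7) (.br (nat_lit 6) (.ch (nat_lit 3)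
 (.ev (nat_lit 1424) (nat_lit 605193344) (.nd (nat_lit 1664) (.br (nat_lit 9) (.br (nat_lit 8) (.ch (nat_lit 3)
 (.ev (nat_lit 1680) (nat_lit 16777218) (.ev (nat_lit 2180) (nat_lit 65536) (.ev (nat_lit 2189) (nat_lit 16)
 .dd)))) (.ch (nat_lit 8) (.ev (nat_lit 1680) (nat_lit 16777216) (.ev (nat_lit 1716) (nat_lit 65552) (.ev
 (nat_lit 1725) (nat_lit 2) .dd))))) (.br (nat_lit 11) (.ch (nat_lit 9) (.ev (nat_lit 1680) (nat_lit 65536)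
 (.ev (nat_lit 1716) (nat_lit 2) (.ev (nat_lit 1892) (nat_lit 16777216) (.ev (nat_lit 1901) (nat_lit 16)
 .dd))))) (.br (nat_lit 12) (.ch (nat_lit 11) (.ev (nat_lit 1680) (nat_lit 16777234) (.ev (nat_lit 1693)
 (nat_lit 65536) .dd))) (.ch (nat_lit 12) (.ev (nat_lit 1680) (nat_lit 16842754) (.ev (nat_lit 1693) (nat_lit
 16) .dd))))))))) (.ch (nat_lit 6) (.ev (nat_lit 1424) (nat_lit 16842752) (.nd (nat_lit 1664) (.br (nat_lit 4)
 (.br (nat_lit 1) (.ch (nat_lit 0) (.ev (nat_lit 1680) (nat_lit 605160448) (.ev (nat_lit 1716) (nat_lit 144)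
 (.ev (nat_lit 2340) (nat_lit 2) (.ev (nat_lit 2349) (nat_lit 32768) .dd))))) (.br (nat_lit 2) (.ch (nat_lit 1)
 (.ev (nat_lit 1680) (nat_lit 33938) (.ev (nat_lit 1984) (nat_lit 131072) (.ev (nat_lit 2340) (nat_lit 1048576)
 (.ev (nat_lit 2496) (nat_lit 536870912) (.ev (nat_lit 2509) (nat_lit 67108864) .dd)))))) (.ch (nat_lit 2) (.ev
 (nat_lit 1680) (nat_lit 1082512) (.ev (nat_lit 2052) (nat_lit 67239936) (.ev (nat_lit 2340) (nat_lit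
 536870912) (.ev (nat_lit 2349) (nat_lit 2) .dd))))))) (.br (nat_lit 5) (.ch (nat_lit 4) (.ev (nat_lit 1680)
 (nat_lit 536872064) (.ev (nat_lit 2052) (nat_lit 1048592) (.ev (nat_lit 2352) (nat_lit 32768) (.ev (nat_lit
 2576) (nat_lit 2) (.ev (nat_lit 3380) (nat_lit 67108864) (.ev (nat_lit 3389) (nat_lit 131072) .dd))))))) (.br
 (nat_lit 9) (.ch (nat_lit 5) (.ev (nat_lit 1680) (nat_lit 68288658) (.ev (nat_lit 1716) (nat_lit 536870912)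
 (.ev (nat_lit 1892) (nat_lit 1024) (.ev (nat_lit 1901) (nat_lit 32768) .dd))))) (.ch (nat_lit 9) (.ev (nat_lit
 1680) (nat_lit 604013570) (.ev (nat_lit 1892) (nat_lit 16) (.ev (nat_lit 2096) (nat_lit 131072) (.ev (nat_lit
 3428) (nat_lit 128) (.ev (nat_lit 3437) (nat_lit 1048576) .dd))))))))))))) (.br (nat_lit 8) (.ch (nat_lit 7)
 (.ev (nat_lit 1424) (nat_lit 16809986) (.nd (nat_lit 1664) (.br (nat_lit 9) (.br (nat_lit 3) (.ch (nat_lit 2)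
 (.ev (nat_lit 1680) (nat_lit 1049616) (.ev (nat_lit 2000) (nat_lit 536870912) (.ev (nat_lit 2208) (nat_lit
 128) (.ev (nat_lit 2548) (nat_lit 65536) (.ev (nat_lit 3332) (nat_lit 67108864) (.ev (nat_lit 3341) (nat_lit
 131072) .dd))))))) (.br (nat_lit 4) (.ch (nat_lit 3) (.ev (nat_lit 1680) (nat_lit 537067536) (.ev (nat_lit
 1904) (nat_lit 1024) (.ev (nat_lit 2080) (nat_lit 67108864) (.ev (nat_lit 3254) (nat_lit 1048704) .dd)))))
 (.ch (nat_lit 4) (.ev (nat_lit 1680) (nat_lit 1114112) (.ev (nat_lit 1744) (nat_lit 1024) (.ev (nat_lit 2224)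
 (nat_lit 67108864) (.ev (nat_lit 2740) (nat_lit 131072) (.ev (nat_lit 3040) (nat_lit 536870928) (.ev (nat_lit
 3053) (nat_lit 128) .dd))))))))) (.br (nat_lit 10) (.ch (nat_lit 9) (.ev (nat_lit 1680) (nat_lit 67241104)
 (.ev (nat_lit 1892) (nat_lit 536870912) (.ev (nat_lit 2052) (nat_lit 1048576) (.ev (nat_lit 2061) (nat_lit
 65536) .dd))))) (.br (nat_lit 12) (.ch (nat_lit 10) (.ev (nat_lit 1680) (nat_lit 605226112) (.ev (nat_lit
 1693) (nat_lit 16) .dd))) (.ch (nat_lit 12) (.ev (nat_lit 1680) (nat_lit 537920640) (.ev (nat_lit 1716)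
 (nat_lit 131072) (.ev (nat_lit 2052) (nat_lit 16) (.fin (nat_lit 576434913776452186)))))))))))) (.br (nat_lit
 9) (.ch (nat_lit 8) (.ev (nat_lit 1424) (nat_lit 605193360) (.nd (nat_lit 1664) (.br (nat_lit 7) (.br (nat_lit
 6) (.ch (nat_lit 4) (.ev (nat_lit 2180) (nat_lit 2) (.fin (nat_lit 576250195802013716)))) (.ch (nat_lit 6)
 (.ev (nat_lit 1680) (nat_lit 16777218) (.ev (nat_lit 1693) (nat_lit 65536) .dd)))) (.br (nat_lit 10) (.ch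
 (nat_lit 7) (.ev (nat_lit 1680) (nat_lit 65536) (.ev (nat_lit 1716) (nat_lit 2) (.ev (nat_lit 1725) (nat_lit
 16777216) .dd)))) (.br (nat_lit 12) (.ch (nat_lit 10) (.ev (nat_lit 1680) (nat_lit 65536) (.ev (nat_lit 1696)
 (nat_lit 16777218) .dd))) (.ch (nat_lit 12) (.ev (nat_lit 1680) (nat_lit 65538) (.ev (nat_lit 1693) (nat_lit
 16777216) .dd))))))))) (.ch (nat_lit 9) (.ev (nat_lit 1424) (nat_lit 553681936) (.nd (nat_lit 1664) (.br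
 (nat_lit 6) (.br (nat_lit 4) (.ch (nat_lit 0) (.ev (nat_lit 1680) (nat_lit 68288512) (.ev (nat_lit 1728)
 (nat_lit 128) (.ev (nat_lit 1904) (nat_lit 2) (.ev (nat_lit 1917) (nat_lit 65536) .dd))))) (.br (nat_lit 5)
 (.ch (nat_lit 4) (.ev (nat_lit 1680) (nat_lit 1114240) (.ev (nat_lit 2052) (nat_lit 67108864) (.ev (nat_lit
 2180) (nat_lit 2) (.ev (nat_lit 2189) (nat_lit 131072) .dd))))) (.ch (nat_lit 5) (.ev (nat_lit 1680) (nat_lit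
 67305474) (.ev (nat_lit 2180) (nat_lit 128) (.ev (nat_lit 2189) (nat_lit 1048576) .dd)))))) (.br (nat_lit 10)
 (.br (nat_lit 8) (.ch (nat_lit 6) (.ev (nat_lit 1680) (nat_lit 1114112) (.ev (nat_lit 1716) (nat_lit 67108864)
 (.ev (nat_lit 2052) (nat_lit 131200) (.ev (nat_lit 2061) (nat_lit 2) .dd))))) (.ch (nat_lit 8) (.ev (nat_lit
 1680) (nat_lit 67174402) (.ev (nat_lit 1744) (nat_lit 131072) (.ev (nat_lit 1776) (nat_lit 1048576) (.ev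
 (nat_lit 1789) (nat_lit 128) .dd)))))) (.br (nat_lit 11) (.ch (nat_lit 10) (.ev (nat_lit 1680) (nat_lit
 1048706) (.ev (nat_lit 1936) (nat_lit 65536) (.ev (nat_lit 2052) (nat_lit 67108864) (.ev (nat_lit 2061)
 (nat_lit 131072) .dd))))) (.ch (nat_lit 11) (.ev (nat_lit 1680) (nat_lit 68157570) (.ev (nat_lit 1744)
 (nat_lit 131072) (.ev (nat_lit 1757) (nat_lit 65536) .dd)))))))))))))))))))))) (.br (nat_lit 54) (.br (nat_lit
 47) (.br (nat_lit 43) (.br (nat_lit 42) (.ch (nat_lit 39) (.ev (nat_lit 52) (nat_lit 570464656) (.ev (nat_lit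
 340) (nat_lit 1073741824) (.ev (nat_lit 404) (nat_lit 16777216) (.ev (nat_lit 564) (nat_lit 1048576) (.ev
 (nat_lit 788) (nat_lit 67108864) (.nd (nat_lit 1408) (.br (nat_lit 8) (.br (nat_lit 2) (.ch (nat_lit 1) (.ev
 (nat_lit 1424) (nat_lit 68720198658) (.nd (nat_lit 1664) (.br (nat_lit 4) (.br (nat_lit 3) (.ch (nat_lit 0)
 (.ev (nat_lit 1680) (nat_lit 262144) (.ev (nat_lit 1693) (nat_lit 134217728) .dd))) (.ch (nat_lit 3) (.ev
 (nat_lit 1680) (nat_lit 262144) (.ev (nat_lit 1693) (nat_lit 134217728) .dd)))) (.br (nat_lit 11) (.ch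
 (nat_lit 4) (.ev (nat_lit 1680) (nat_lit 134479872) .dd)) (.ch (nat_lit 11) (.ev (nat_lit 2192) (nat_lit
 262144) (.ev (nat_lit 2205) (nat_lit 134217728) .dd)))))))) (.br (nat_lit 3) (.ch (nat_lit 2) (.ev (nat_lit
 1424) (nat_lit 134610946) (.nd (nat_lit 1664) (.br (nat_lit 6) (.br (nat_lit 2) (.ch (nat_lit 0) (.ev (nat_lit
 1680) (nat_lit 68719477760) (.ev (nat_lit 2384) (nat_lit 65536) (.ev (nat_lit 2397) (nat_lit 524288) .dd))))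
 (.br (nat_lit 3) (.ch (nat_lit 2) (.ev (nat_lit 1680) (nat_lit 68719477760) (.ev (nat_lit 1892) (nat_lit
 65536) (.ev (nat_lit 1901) (nat_lit 524288) .dd)))) (.ch (nat_lit 3) (.ev (nat_lit 1680) (nat_lit 68720001024)
 (.ev (nat_lit 1716) (nat_lit 65536) (.ev (nat_lit 1725) (nat_lit 1024) .dd)))))) (.br (nat_lit 7) (.ch
 (nat_lit 6) (.ev (nat_lit 1680) (nat_lit 590848) (.ev (nat_lit 1693) (nat_lit 68719476736) .dd))) (.br
 (nat_lit 11) (.ch (nat_lit 7) (.ev (nat_lit 1680) (nat_lit 68720066560) (.ev (nat_lit 1693) (nat_lit 1024)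
 .dd))) (.ch (nat_lit 11) (.ev (nat_lit 1680) (nat_lit 68720001024) (.ev (nat_lit 1716) (nat_lit 1024) (.ev
 (nat_lit 1725) (nat_lit 65536) .dd)))))))))) (.ch (nat_lit 3) (.ev (nat_lit 1424) (nat_lit 1024) (.nd (nat_lit
 1664) (.br (nat_lit 10) (.br (nat_lit 5) (.ch (nat_lit 1) (.ev (nat_lit 1680) (nat_lit 68720459778) (.ev
 (nat_lit 1693) (nat_lit 134217728) .dd))) (.ch (nat_lit 5) (.ev (nat_lit 1680) (nat_lit 68853825536) (.ev
 (nat_lit 2052) (nat_lit 65536) (.ev (nat_lit 2340) (nat_lit 524288) (.ev (nat_lit 2432) (nat_lit 2) (.ev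
 (nat_lit 2445) (nat_lit 262144) .dd))))))) (.br (nat_lit 11) (.ch (nat_lit 10) (.ev (nat_lit 1892) (nat_lit
 131072) (.ev (nat_lit 1920) (nat_lit 68719476736) (.ev (nat_lit 2064) (nat_lit 134217728) (.ev (nat_lit 2548)
 (nat_lit 262144) (.ev (nat_lit 2740) (nat_lit 65536) (.ev (nat_lit 3204) (nat_lit 524288) (.ev (nat_lit 3213)
 (nat_lit 2) .dd)))))))) (.br (nat_lit 12) (.ch (nat_lit 11) (.ev (nat_lit 1680) (nat_lit 262144) (.ev (nat_lit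
 2112) (nat_lit 524288) (.ev (nat_lit 2180) (nat_lit 2) (.ev (nat_lit 2548) (nat_lit 65536) (.ev (nat_lit 2720)
 (nat_lit 68719476736) (.ev (nat_lit 3008) (nat_lit 134348800) .dd))))))) (.ch (nat_lit 12) (.ev (nat_lit 1680)
 (nat_lit 68854677506) .dd)))))))))) (.br (nat_lit 9) (.ch (nat_lit 8) (.ev (nat_lit 1424) (nat_lit
 68720133120) (.nd (nat_lit 1664) (.br (nat_lit 6) (.br (nat_lit 4) (.ch (nat_lit 0) (.ev (nat_lit 1892)
 (nat_lit 65536) (.ev (nat_lit 2052) (nat_lit 134217728) (.fin (nat_lit 576364544895960052))))) (.br (nat_lit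
 5) (.ch (nat_lit 4) (.ev (nat_lit 1680) (nat_lit 134283264) (.ev (nat_lit 1892) (nat_lit 2) (.ev (nat_lit
 1901) (nat_lit 262144) .dd)))) (.ch (nat_lit 5) (.ev (nat_lit 1680) (nat_lit 262144) (.ev (nat_lit 1716)
 (nat_lit 65536) (.ev (nat_lit 2032) (nat_lit 134217728) (.ev (nat_lit 2045) (nat_lit 2) .dd))))))) (.br
 (nat_lit 9) (.br (nat_lit 7) (.ch (nat_lit 6) (.ev (nat_lit 1680) (nat_lit 262146) (.ev (nat_lit 1892)
 (nat_lit 134217728) (.ev (nat_lit 1901) (nat_lit 65536) .dd)))) (.ch (nat_lit 7) (.ev (nat_lit 1680) (nat_lit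
 134479874) (.ev (nat_lit 1693) (nat_lit 65536) .dd)))) (.br (nat_lit 10) (.ch (nat_lit 9) (.ev (nat_lit 1680)
 (nat_lit 134479874) (.ev (nat_lit 1693) (nat_lit 65536) .dd))) (.ch (nat_lit 10) (.ev (nat_lit 1680) (nat_lit
 134545410) .dd)))))))) (.br (nat_lit 11) (.ch (nat_lit 9) (.ev (nat_lit 1424) (nat_lit 68853957632) (.nd
 (nat_lit 1664) (.br (nat_lit 8) (.br (nat_lit 5) (.ch (nat_lit 0) (.ev (nat_lit 1680) (nat_lit 131072) (.ev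
 (nat_lit 2548) (nat_lit 2) (.nd (nat_lit 3456) (.br (nat_lit 7) (.ch (nat_lit 1) (.fin (nat_lit
 576558059603051176))) (.ch (nat_lit 7) (.ev (nat_lit 3472) (nat_lit 524288) (.ev (nat_lit 3485) (nat_lit
 65536) .dd)))))))) (.br (nat_lit 6) (.ch (nat_lit 5) (.ev (nat_lit 1680) (nat_lit 196610) (.ev (nat_lit 1693)
 (nat_lit 524288) .dd))) (.ch (nat_lit 6) (.ev (nat_lit 1680) (nat_lit 589824) (.ev (nat_lit 1984) (nat_lit
 131074) .dd))))) (.br (nat_lit 9) (.ch (nat_lit 8) (.ev (nat_lit 1680) (nat_lit 589826) (.ev (nat_lit 1693)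
 (nat_lit 131072) .dd))) (.br (nat_lit 10) (.ch (nat_lit 9) (.ev (nat_lit 1680) (nat_lit 131074) (.ev (nat_lit
 1716) (nat_lit 524288) (.ev (nat_lit 1725) (nat_lit 65536) .dd)))) (.ch (nat_lit 10) (.ev (nat_lit 1680)
 (nat_lit 65538) (.ev (nat_lit 1744) (nat_lit 655360) .dd))))))))) (.ch (nat_lit 11) (.ev (nat_lit 1424)
 (nat_lit 68854546434) (.nd (nat_lit 1664) (.br (nat_lit 10) (.br (nat_lit 4) (.ch (nat_lit 0) (.ev (nat_lit
 1680) (nat_lit 1024) (.ev (nat_lit 1693) (nat_lit 131072) .dd))) (.br (nat_lit 5) (.ch (nat_lit 4) (.ev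
 (nat_lit 1680) (nat_lit 131072) (.ev (nat_lit 1693) (nat_lit 1024) .dd))) (.ch (nat_lit 5) (.ev (nat_lit 1680)
 (nat_lit 1024) (.ev (nat_lit 1693) (nat_lit 131072) .dd))))) (.br (nat_lit 11) (.ch (nat_lit 10) (.ev (nat_lit
 2052) (nat_lit 131072) (.ev (nat_lit 2061) (nat_lit 1024) .dd))) (.br (nat_lit 12) (.ch (nat_lit 11) (.ev
 (nat_lit 1680) (nat_lit 131072) (.ev (nat_lit 1693) (nat_lit 1024) .dd))) (.ch (nat_lit 12) (.ev (nat_lit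
 1680) (nat_lit 1024) (.ev (nat_lit 1693) (nat_lit 131072) .dd))))))))))))))))))) (.ch (nat_lit 42) (.ev
 (nat_lit 52) (nat_lit 199682) (.ev (nat_lit 180) (nat_lit 536870912) (.ev (nat_lit 372) (nat_lit 67108864)
 (.ev (nat_lit 820) (nat_lit 16777216) (.ev (nat_lit 1268) (nat_lit 1073741824) (.nd (nat_lit 1408) (.br
 (nat_lit 6) (.br (nat_lit 1) (.ch (nat_lit 0) (.ev (nat_lit 1424) (nat_lit 68854780288) (.nd (nat_lit 1664)
 (.br (nat_lit 8) (.br (nat_lit 4) (.ch (nat_lit 3) (.ev (nat_lit 1680) (nat_lit 786432) (.ev (nat_lit 1716)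
 (nat_lit 33554432) (.ev (nat_lit 1725) (nat_lit 16) .dd)))) (.ch (nat_lit 4) (.ev (nat_lit 1680) (nat_lit 16)
 (.ev (nat_lit 1892) (nat_lit 262144) (.ev (nat_lit 2548) (nat_lit 524288) (.ev (nat_lit 2557) (nat_lit
 33554432) .dd)))))) (.br (nat_lit 12) (.ch (nat_lit 8) (.ev (nat_lit 1680) (nat_lit 33816592) (.ev (nat_lit
 1693) (nat_lit 524288) .dd))) (.ch (nat_lit 12) (.ev (nat_lit 1680) (nat_lit 786448) (.ev (nat_lit 1693)
 (nat_lit 33554432) .dd)))))))) (.br (nat_lit 2) (.ch (nat_lit 1) (.ev (nat_lit 1424) (nat_lit 68721082640)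
 (.nd (nat_lit 1664) (.br (nat_lit 8) (.br (nat_lit 1) (.ch (nat_lit 0) (.ev (nat_lit 1680) (nat_lit 262272)
 (.ev (nat_lit 1728) (nat_lit 4096) (.ev (nat_lit 1968) (nat_lit 167772160) .dd)))) (.br (nat_lit 5) (.ch
 (nat_lit 1) (.ev (nat_lit 1680) (nat_lit 167776256) (.ev (nat_lit 1904) (nat_lit 262272) .dd))) (.ch (nat_lit
 5) (.ev (nat_lit 1680) (nat_lit 4096) (.ev (nat_lit 1892) (nat_lit 128) (.ev (nat_lit 2016) (nat_lit
 134217728) (.fin (nat_lit 576672407858135512)))))))) (.br (nat_lit 10) (.ch (nat_lit 8) (.ev (nat_lit 1680)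
 (nat_lit 168038528) .dd)) (.br (nat_lit 11) (.ch (nat_lit 10) (.ev (nat_lit 1680) (nat_lit 168034304) (.ev
 (nat_lit 2340) (nat_lit 128) (.ev (nat_lit 2349) (nat_lit 4096) .dd)))) (.ch (nat_lit 11) (.ev (nat_lit 1680)
 (nat_lit 4096) (.ev (nat_lit 1716) (nat_lit 262144) (.ev (nat_lit 2180) (nat_lit 33554432) (.ev (nat_lit 2484)
 (nat_lit 128) (.ev (nat_lit 2493) (nat_lit 134217728) .dd)))))))))))) (.ch (nat_lit 2) (.ev (nat_lit 1424)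
 (nat_lit 169607168) (.nd (nat_lit 1664) (.br (nat_lit 2) (.br (nat_lit 1) (.ch (nat_lit 0) (.ev (nat_lit 1680)
 (nat_lit 36992) (.ev (nat_lit 2180) (nat_lit 68719476736) (.ev (nat_lit 2548) (nat_lit 16) (.ev (nat_lit 2557)
 (nat_lit 256) .dd))))) (.ch (nat_lit 1) (.ev (nat_lit 1680) (nat_lit 33040) (.ev (nat_lit 1716) (nat_lit
 68719476736) (.ev (nat_lit 1728) (nat_lit 4224) .dd))))) (.br (nat_lit 7) (.ch (nat_lit 2) (.ev (nat_lit 1680)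
 (nat_lit 68719513616) (.ev (nat_lit 1696) (nat_lit 384) .dd))) (.br (nat_lit 11) (.ch (nat_lit 7) (.ev
 (nat_lit 1680) (nat_lit 68719513728) (.ev (nat_lit 2180) (nat_lit 16) (.ev (nat_lit 2189) (nat_lit 256)
 .dd)))) (.ch (nat_lit 11) (.ev (nat_lit 1680) (nat_lit 400) (.ev (nat_lit 1760) (nat_lit 68719476736) (.ev
 (nat_lit 2080) (nat_lit 36864) .dd)))))))))))) (.br (nat_lit 9) (.br (nat_lit 8) (.ch (nat_lit 6) (.ev
 (nat_lit 1424) (nat_lit 68887544080) (.nd (nat_lit 1664) (.br (nat_lit 4) (.br (nat_lit 3) (.ch (nat_lit 1)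
 (.ev (nat_lit 1680) (nat_lit 528512) (.ev (nat_lit 1693) (nat_lit 1048576) .dd))) (.ch (nat_lit 3) (.ev
 (nat_lit 1680) (nat_lit 1052800) (.ev (nat_lit 1693) (nat_lit 524288) .dd)))) (.br (nat_lit 5) (.ch (nat_lit
 4) (.ev (nat_lit 1680) (nat_lit 4224) (.ev (nat_lit 2384) (nat_lit 1572864) .dd))) (.br (nat_lit 11) (.ch
 (nat_lit 5) (.ev (nat_lit 1680) (nat_lit 524416) (.ev (nat_lit 1696) (nat_lit 1052672) .dd))) (.ch (nat_lit
 11) (.ev (nat_lit 1680) (nat_lit 1048576) (.ev (nat_lit 1728) (nat_lit 528512) .dd))))))))) (.ch (nat_lit 8)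
 (.ev (nat_lit 1424) (nat_lit 68754637056) (.nd (nat_lit 1664) (.br (nat_lit 5) (.br (nat_lit 2) (.ch (nat_lit
 0) (.ev (nat_lit 1680) (nat_lit 134217856) (.ev (nat_lit 2052) (nat_lit 4096) (.ev (nat_lit 2064) (nat_lit 16)
 (.ev (nat_lit 2077) (nat_lit 262144) .dd))))) (.br (nat_lit 4) (.ch (nat_lit 2) (.ev (nat_lit 1680) (nat_lit
 144) (.ev (nat_lit 1716) (nat_lit 134217728) (.fin (nat_lit 576434913742897706))))) (.ch (nat_lit 4) (.ev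
 (nat_lit 1680) (nat_lit 134221952) (.ev (nat_lit 1716) (nat_lit 16) (.ev (nat_lit 1725) (nat_lit 262144)
 .dd)))))) (.br (nat_lit 6) (.ch (nat_lit 5) (.ev (nat_lit 1680) (nat_lit 266256) (.ev (nat_lit 1728) (nat_lit
 128) (.ev (nat_lit 1741) (nat_lit 134217728) .dd)))) (.br (nat_lit 7) (.ch (nat_lit 6) (.ev (nat_lit 1680)
 (nat_lit 262288) (.ev (nat_lit 1892) (nat_lit 4096) (.ev (nat_lit 1901) (nat_lit 134217728) .dd)))) (.ch
 (nat_lit 7) (.ev (nat_lit 1680) (nat_lit 134479888) (.ev (nat_lit 2400) (nat_lit 4224) .dd)))))))))) (.br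
 (nat_lit 11) (.ch (nat_lit 9) (.ev (nat_lit 1424) (nat_lit 33849360) (.nd (nat_lit 1664) (.br (nat_lit 8) (.br
 (nat_lit 7) (.ch (nat_lit 4) (.ev (nat_lit 1680) (nat_lit 135794816) (.ev (nat_lit 1776) (nat_lit 68719476736)
 (.ev (nat_lit 1789) (nat_lit 256) .dd)))) (.ch (nat_lit 7) (.ev (nat_lit 1904) (nat_lit 524288) (.ev (nat_lit
 2064) (nat_lit 256) (.ev (nat_lit 2340) (nat_lit 1048576) (.ev (nat_lit 2400) (nat_lit 4096) (.ev (nat_lit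
 2548) (nat_lit 134217728) (.ev (nat_lit 2688) (nat_lit 68719476736) (.ev (nat_lit 2701) (nat_lit 128)
 .dd))))))))) (.br (nat_lit 9) (.ch (nat_lit 8) (.ev (nat_lit 1680) (nat_lit 68719480832) (.ev (nat_lit 1920)
 (nat_lit 524288) (.ev (nat_lit 2976) (nat_lit 1048832) (.ev (nat_lit 3108) (nat_lit 128) (.ev (nat_lit 3117)
 (nat_lit 134217728) .dd)))))) (.br (nat_lit 10) (.ch (nat_lit 9) (.ev (nat_lit 1680) (nat_lit 135795072) (.ev
 (nat_lit 1693) (nat_lit 68719476736) .dd))) (.ch (nat_lit 10) (.ev (nat_lit 1680) (nat_lit 1577216) (.ev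
 (nat_lit 2340) (nat_lit 134217728) (.ev (nat_lit 2352) (nat_lit 68719476736) (.ev (nat_lit 2365) (nat_lit 128)
 .dd))))))))))) (.ch (nat_lit 11) (.ev (nat_lit 1424) (nat_lit 169611648) (.nd (nat_lit 1664) (.br (nat_lit 6)
 (.br (nat_lit 4) (.ch (nat_lit 2) (.ev (nat_lit 1680) (nat_lit 68719476736) (.ev (nat_lit 2160) (nat_lit
 32768) (.ev (nat_lit 2173) (nat_lit 16) .dd)))) (.ch (nat_lit 4) (.ev (nat_lit 1680) (nat_lit 68719509504)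
 (.ev (nat_lit 1693) (nat_lit 16) .dd)))) (.br (nat_lit 8) (.ch (nat_lit 6) (.ev (nat_lit 1680) (nat_lit 32768)
 (.ev (nat_lit 1696) (nat_lit 68719476752) .dd))) (.ch (nat_lit 8) (.ev (nat_lit 1680) (nat_lit 32768) (.ev
 (nat_lit 1892) (nat_lit 16) (.ev (nat_lit 1901) (nat_lit 68719476736) .dd)))))))))))))))))))) (.br (nat_lit
 44) (.ch (nat_lit 43) (.ev (nat_lit 52) (nat_lit 69390729344) (.ev (nat_lit 160) (nat_lit 1193090322) .dd)))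
 (.br (nat_lit 46) (.ch (nat_lit 44) (.ev (nat_lit 52) (nat_lit 1612317954) (.ev (nat_lit 244) (nat_lit
 67108864) (.ev (nat_lit 404) (nat_lit 33554432) (.ev (nat_lit 468) (nat_lit 16777232) (.ev (nat_lit 884)
 (nat_lit 65536) (.nd (nat_lit 1408) (.br (nat_lit 7) (.br (nat_lit 1) (.ch (nat_lit 0) (.ev (nat_lit 1424)
 (nat_lit 68719513728) (.nd (nat_lit 1664) (.br (nat_lit 7) (.br (nat_lit 4) (.ch (nat_lit 2) (.ev (nat_lit
 1680) (nat_lit 134479872) (.ev (nat_lit 1693) (nat_lit 2048) .dd))) (.br (nat_lit 5) (.ch (nat_lit 4) (.ev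
 (nat_lit 1680) (nat_lit 134481920) .dd)) (.ch (nat_lit 5) (.ev (nat_lit 1680) (nat_lit 2048) (.ev (nat_lit
 1892) (nat_lit 134217728) (.ev (nat_lit 1901) (nat_lit 262144) .dd)))))) (.br (nat_lit 8) (.ch (nat_lit 7)
 (.ev (nat_lit 1680) (nat_lit 134219776) (.ev (nat_lit 1693) (nat_lit 262144) .dd))) (.br (nat_lit 12) (.ch
 (nat_lit 8) (.ev (nat_lit 1680) (nat_lit 262144) (.ev (nat_lit 2052) (nat_lit 134217728) (.ev (nat_lit 2061)
 (nat_lit 2048) .dd)))) (.ch (nat_lit 12) (.ev (nat_lit 1680) (nat_lit 2048) (.ev (nat_lit 2180) (nat_lit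
 134217728) (.ev (nat_lit 2189) (nat_lit 262144) .dd)))))))))) (.br (nat_lit 3) (.ch (nat_lit 1) (.ev (nat_lit
 1424) (nat_lit 68719478912) (.nd (nat_lit 1664) (.br (nat_lit 8) (.br (nat_lit 6) (.ch (nat_lit 3) (.ev
 (nat_lit 1680) (nat_lit 294912) (.ev (nat_lit 2340) (nat_lit 134217728) (.ev (nat_lit 2349) (nat_lit 4096)
 .dd)))) (.ch (nat_lit 6) (.ev (nat_lit 1680) (nat_lit 262144) (.ev (nat_lit 1952) (nat_lit 134217728) (.ev
 (nat_lit 2112) (nat_lit 4096) (.ev (nat_lit 2125) (nat_lit 32768) .dd)))))) (.br (nat_lit 10) (.ch (nat_lit 8)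
 (.ev (nat_lit 1680) (nat_lit 134479872) (.ev (nat_lit 2688) (nat_lit 32768) (.ev (nat_lit 2701) (nat_lit 4096)
 .dd)))) (.br (nat_lit 11) (.ch (nat_lit 10) (.ev (nat_lit 1680) (nat_lit 4096) (.ev (nat_lit 1776) (nat_lit
 32768) (.ev (nat_lit 1892) (nat_lit 262144) (.ev (nat_lit 1901) (nat_lit 134217728) .dd))))) (.ch (nat_lit 11)
 (.ev (nat_lit 1680) (nat_lit 4096) (.ev (nat_lit 2180) (nat_lit 32768) (.ev (nat_lit 2484) (nat_lit 134217728)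
 (.ev (nat_lit 2493) (nat_lit 262144) .dd))))))))))) (.ch (nat_lit 3) (.ev (nat_lit 1424) (nat_lit 134484096)
 (.nd (nat_lit 1664) (.br (nat_lit 3) (.br (nat_lit 1) (.ch (nat_lit 0) (.ev (nat_lit 1680) (nat_lit
 68719509504) (.ev (nat_lit 1693) (nat_lit 2048) .dd))) (.ch (nat_lit 1) (.ev (nat_lit 1680) (nat_lit
 68719478784) (.ev (nat_lit 1693) (nat_lit 32768) .dd)))) (.br (nat_lit 8) (.ch (nat_lit 3) (.ev (nat_lit 1680)
 (nat_lit 68719511552) .dd)) (.br (nat_lit 12) (.ch (nat_lit 8) (.ev (nat_lit 1680) (nat_lit 2048) (.ev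
 (nat_lit 1760) (nat_lit 32768) (.ev (nat_lit 1773) (nat_lit 68719476736) .dd)))) (.ch (nat_lit 12) (.ev
 (nat_lit 1680) (nat_lit 68719476736) (.ev (nat_lit 1716) (nat_lit 2048) (.ev (nat_lit 1725) (nat_lit 32768)
 .dd)))))))))))) (.br (nat_lit 9) (.br (nat_lit 8) (.ch (nat_lit 7) (.ev (nat_lit 1424) (nat_lit 68853991552)
 (.ev (nat_lit 1437) (nat_lit 4096) .dd))) (.ch (nat_lit 8) (.ev (nat_lit 1424) (nat_lit 68853989376) (.nd
 (nat_lit 1664) (.br (nat_lit 7) (.br (nat_lit 6) (.ch (nat_lit 0) (.ev (nat_lit 1680) (nat_lit 2176) (.ev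
 (nat_lit 1693) (nat_lit 4096) .dd))) (.ch (nat_lit 6) (.ev (nat_lit 1680) (nat_lit 2176) (.ev (nat_lit 1693)
 (nat_lit 4096) .dd)))) (.br (nat_lit 12) (.ch (nat_lit 7) (.ev (nat_lit 1680) (nat_lit 2176) (.ev (nat_lit
 1693) (nat_lit 4096) .dd))) (.ch (nat_lit 12) (.ev (nat_lit 1716) (nat_lit 2048) (.ev (nat_lit 2052) (nat_lit
 4096) (.ev (nat_lit 2061) (nat_lit 128) .dd)))))))))) (.br (nat_lit 11) (.ch (nat_lit 9) (.ev (nat_lit 1424)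
 (nat_lit 68719773824) (.nd (nat_lit 1664) (.br (nat_lit 7) (.br (nat_lit 5) (.ch (nat_lit 4) (.ev (nat_lit
 1680) (nat_lit 134221824) .dd)) (.br (nat_lit 6) (.ch (nat_lit 5) (.ev (nat_lit 1680) (nat_lit 134221824)
 .dd)) (.ch (nat_lit 6) (.ev (nat_lit 1680) (nat_lit 134221824) .dd)))) (.br (nat_lit 9) (.ch (nat_lit 7) (.ev
 (nat_lit 2052) (nat_lit 4096) (.ev (nat_lit 2061) (nat_lit 134217728) .dd))) (.br (nat_lit 11) (.ch (nat_lit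
 9) (.ev (nat_lit 1680) (nat_lit 4096) (.ev (nat_lit 1693) (nat_lit 134217728) .dd))) (.ch (nat_lit 11) (.ev
 (nat_lit 2052) (nat_lit 4096) (.ev (nat_lit 2061) (nat_lit 134217728) .dd))))))))) (.ch (nat_lit 11) (.ev
 (nat_lit 1424) (nat_lit 134484096) (.nd (nat_lit 1664) (.br (nat_lit 8) (.br (nat_lit 4) (.ch (nat_lit 0) (.ev
 (nat_lit 1680) (nat_lit 32768) (.ev (nat_lit 2180) (nat_lit 68719476736) (.ev (nat_lit 2189) (nat_lit 2048)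
 .dd)))) (.ch (nat_lit 4) (.ev (nat_lit 1680) (nat_lit 68719511552) .dd))) (.br (nat_lit 11) (.ch (nat_lit 8)
 (.ev (nat_lit 1920) (nat_lit 32768) (.ev (nat_lit 2644) (nat_lit 2048) (.ev (nat_lit 2653) (nat_lit
 68719476736) .dd)))) (.br (nat_lit 12) (.ch (nat_lit 11) (.ev (nat_lit 1680) (nat_lit 68719511552) .dd)) (.ch
 (nat_lit 12) (.ev (nat_lit 1904) (nat_lit 32768) (.ev (nat_lit 2484) (nat_lit 2048) (.ev (nat_lit 2493)
 (nat_lit 68719476736) .dd)))))))))))))))))))) (.ch (nat_lit 46) (.ev (nat_lit 52) (nat_lit 1124702210) (.ev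
 (nat_lit 532) (nat_lit 256) (.ev (nat_lit 884) (nat_lit 262144) (.nd (nat_lit 1408) (.br (nat_lit 7) (.br
 (nat_lit 3) (.ch (nat_lit 2) (.ev (nat_lit 1424) (nat_lit 68921983104) (.ev (nat_lit 1526) (nat_lit 1024) (.nd
 (nat_lit 1664) (.br (nat_lit 5) (.br (nat_lit 1) (.ch (nat_lit 0) (.ev (nat_lit 1728) (nat_lit 16) (.ev
 (nat_lit 1741) (nat_lit 536870912) .dd))) (.br (nat_lit 3) (.ch (nat_lit 1) (.ev (nat_lit 1680) (nat_lit
 536870928) .dd)) (.ch (nat_lit 3) (.ev (nat_lit 1680) (nat_lit 536870928) .dd)))) (.br (nat_lit 7) (.ch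
 (nat_lit 5) (.ev (nat_lit 1680) (nat_lit 536870928) .dd)) (.br (nat_lit 11) (.ch (nat_lit 7) (.ev (nat_lit
 1936) (nat_lit 536870912) (.ev (nat_lit 1949) (nat_lit 16) .dd))) (.ch (nat_lit 11) (.ev (nat_lit 1680)
 (nat_lit 16) (.ev (nat_lit 1693) (nat_lit 536870912) .dd)))))))))) (.br (nat_lit 6) (.ch (nat_lit 3) (.ev
 (nat_lit 1424) (nat_lit 68289680) (.nd (nat_lit 1664) (.br (nat_lit 9) (.br (nat_lit 5) (.ch (nat_lit 0) (.ev
 (nat_lit 1680) (nat_lit 68853694464) (.ev (nat_lit 1693) (nat_lit 536870912) .dd))) (.br (nat_lit 8) (.ch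
 (nat_lit 5) (.ev (nat_lit 1680) (nat_lit 69390565376) .dd)) (.ch (nat_lit 8) (.ev (nat_lit 1680) (nat_lit
 671088640) (.ev (nat_lit 1693) (nat_lit 68719476736) .dd))))) (.br (nat_lit 10) (.ch (nat_lit 9) (.ev (nat_lit
 1776) (nat_lit 134217728) (.ev (nat_lit 2112) (nat_lit 536870912) (.ev (nat_lit 2125) (nat_lit 68719476736)
 .dd)))) (.br (nat_lit 11) (.ch (nat_lit 10) (.ev (nat_lit 1680) (nat_lit 69256347648) (.ev (nat_lit 1693)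
 (nat_lit 134217728) .dd))) (.ch (nat_lit 11) (.ev (nat_lit 1696) (nat_lit 536870912) (.ev (nat_lit 1824)
 (nat_lit 68719476736) (.ev (nat_lit 1837) (nat_lit 134217728) .dd)))))))))) (.ch (nat_lit 6) (.ev (nat_lit
 1424) (nat_lit 69323457536) (.nd (nat_lit 1664) (.br (nat_lit 3) (.br (nat_lit 1) (.ch (nat_lit 0) (.ev
 (nat_lit 1680) (nat_lit 1179792) (.ev (nat_lit 1693) (nat_lit 134217728) .dd))) (.br (nat_lit 2) (.ch (nat_lit
 1) (.ev (nat_lit 1680) (nat_lit 128) (.ev (nat_lit 1716) (nat_lit 134217728) (.ev (nat_lit 2448) (nat_lit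
 131072) (.fin (nat_lit 576676806324077228)))))) (.ch (nat_lit 2) (.ev (nat_lit 1680) (nat_lit 135266448) (.ev
 (nat_lit 1693) (nat_lit 131072) .dd))))) (.br (nat_lit 4) (.ch (nat_lit 3) (.ev (nat_lit 1680) (nat_lit
 135266304) (.ev (nat_lit 1744) (nat_lit 131072) (.ev (nat_lit 1892) (nat_lit 16) (.ev (nat_lit 1901) (nat_lit
 128) .dd))))) (.br (nat_lit 11) (.ch (nat_lit 4) (.ev (nat_lit 1680) (nat_lit 128) (.ev (nat_lit 2052)
 (nat_lit 1048576) (.ev (nat_lit 2180) (nat_lit 16) (.ev (nat_lit 2192) (nat_lit 134217728) (.ev (nat_lit 2205)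
 (nat_lit 131072) .dd)))))) (.ch (nat_lit 11) (.ev (nat_lit 1680) (nat_lit 135266304) (.ev (nat_lit 1744)
 (nat_lit 131072) (.ev (nat_lit 2052) (nat_lit 16) (.ev (nat_lit 2061) (nat_lit 128) .dd))))))))))))) (.br
 (nat_lit 8) (.ch (nat_lit 7) (.ev (nat_lit 1424) (nat_lit 135266320) (.nd (nat_lit 1664) (.br (nat_lit 8) (.br
 (nat_lit 2) (.ch (nat_lit 0) (.ev (nat_lit 1680) (nat_lit 69323457536) (.ev (nat_lit 1936) (nat_lit 128) (.ev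
 (nat_lit 1949) (nat_lit 131072) .dd)))) (.ch (nat_lit 2) (.ev (nat_lit 1680) (nat_lit 68786586624) (.ev
 (nat_lit 1892) (nat_lit 128) (.ev (nat_lit 2096) (nat_lit 536870912) (.ev (nat_lit 2109) (nat_lit 131072)
 .dd)))))) (.br (nat_lit 9) (.ch (nat_lit 8) (.ev (nat_lit 1680) (nat_lit 604111872) (.ev (nat_lit 2052)
 (nat_lit 68719476736) (.ev (nat_lit 2061) (nat_lit 128) .dd)))) (.br (nat_lit 10) (.ch (nat_lit 9) (.ev
 (nat_lit 1680) (nat_lit 69256478720) (.ev (nat_lit 1728) (nat_lit 67109888) (.ev (nat_lit 1741) (nat_lit 128)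
 .dd)))) (.ch (nat_lit 10) (.ev (nat_lit 1680) (nat_lit 67110016) (.ev (nat_lit 1716) (nat_lit 68719476736)
 (.ev (nat_lit 1728) (nat_lit 537001984) .dd)))))))))) (.br (nat_lit 9) (.ch (nat_lit 8) (.ev (nat_lit 1424)
 (nat_lit 69323588752) (.nd (nat_lit 1664) (.br (nat_lit 5) (.br (nat_lit 4) (.ch (nat_lit 0) (.ev (nat_lit
 1892) (nat_lit 134217728) (.ev (nat_lit 1901) (nat_lit 1048576) .dd))) (.ch (nat_lit 4) (.ev (nat_lit 1680)
 (nat_lit 135266304) .dd))) (.br (nat_lit 7) (.ch (nat_lit 5) (.ev (nat_lit 1716) (nat_lit 134217728) (.ev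
 (nat_lit 1725) (nat_lit 1048576) .dd))) (.br (nat_lit 12) (.ch (nat_lit 7) (.ev (nat_lit 1680) (nat_lit
 135266304) .dd)) (.ch (nat_lit 12) (.ev (nat_lit 1680) (nat_lit 134217728) (.ev (nat_lit 1693) (nat_lit
 1048576) .dd))))))))) (.ch (nat_lit 9) (.ev (nat_lit 1424) (nat_lit 536871952) (.nd (nat_lit 1664) (.br
 (nat_lit 7) (.br (nat_lit 4) (.ch (nat_lit 0) (.ev (nat_lit 1680) (nat_lit 201457664) (.ev (nat_lit 1892)
 (nat_lit 68719476736) (.ev (nat_lit 2352) (nat_lit 128) (.ev (nat_lit 2365) (nat_lit 1048576) .dd))))) (.br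
 (nat_lit 6) (.ch (nat_lit 4) (.ev (nat_lit 1680) (nat_lit 68854743168) (.ev (nat_lit 2064) (nat_lit 67239936)
 .dd))) (.ch (nat_lit 6) (.ev (nat_lit 1680) (nat_lit 68719476864) (.ev (nat_lit 1892) (nat_lit 134217728) (.ev
 (nat_lit 1904) (nat_lit 67108864) (.ev (nat_lit 2180) (nat_lit 1048576) (.ev (nat_lit 2189) (nat_lit 131072)
 .dd)))))))) (.br (nat_lit 8) (.ch (nat_lit 7) (.ev (nat_lit 1680) (nat_lit 67108864) (.ev (nat_lit 2192)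
 (nat_lit 68719607808) (.ev (nat_lit 2884) (nat_lit 134217728) (.ev (nat_lit 3220) (nat_lit 128) (.ev (nat_lit
 3229) (nat_lit 1048576) .dd)))))) (.br (nat_lit 10) (.ch (nat_lit 8) (.ev (nat_lit 1680) (nat_lit 68288640)
 (.ev (nat_lit 1716) (nat_lit 68719476736) (.ev (nat_lit 1725) (nat_lit 134217728) .dd)))) (.ch (nat_lit 10)
 (.ev (nat_lit 1680) (nat_lit 68157440) (.ev (nat_lit 2352) (nat_lit 134217728) (.ev (nat_lit 2740) (nat_lit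
 68719476736) (.fin (nat_lit 576333758612325020))))))))))))))))))))))) (.br (nat_lit 50) (.br (nat_lit 48) (.ch
 (nat_lit 47) (.ev (nat_lit 52) (nat_lit 70347458562) (.ev (nat_lit 564) (nat_lit 128) (.ev (nat_lit 916)
 (nat_lit 32768) (.nd (nat_lit 1408) (.br (nat_lit 7) (.br (nat_lit 1) (.ch (nat_lit 0) (.ev (nat_lit 1424)
 (nat_lit 68292608) (.nd (nat_lit 1664) (.br (nat_lit 5) (.br (nat_lit 3) (.ch (nat_lit 2) (.ev (nat_lit 1680)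
 (nat_lit 134480896) (.ev (nat_lit 1760) (nat_lit 16) (.ev (nat_lit 2052) (nat_lit 256) (.ev (nat_lit 2061)
 (nat_lit 33554432) .dd))))) (.br (nat_lit 4) (.ch (nat_lit 3) (.ev (nat_lit 1680) (nat_lit 168035584) (.ev
 (nat_lit 1693) (nat_lit 16) .dd))) (.ch (nat_lit 4) (.ev (nat_lit 1680) (nat_lit 134217744) (.ev (nat_lit
 1716) (nat_lit 1280) (.ev (nat_lit 2192) (nat_lit 262144) (.ev (nat_lit 2205) (nat_lit 33554432) .dd)))))))
 (.br (nat_lit 6) (.ch (nat_lit 5) (.ev (nat_lit 1680) (nat_lit 33816576) (.ev (nat_lit 1696) (nat_lit 1024)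
 (.ev (nat_lit 1716) (nat_lit 16) (.ev (nat_lit 1728) (nat_lit 256) (.ev (nat_lit 1741) (nat_lit 134217728)
 .dd)))))) (.br (nat_lit 7) (.ch (nat_lit 6) (.ev (nat_lit 1680) (nat_lit 272) (.ev (nat_lit 1716) (nat_lit
 262144) (.ev (nat_lit 2180) (nat_lit 33555456) (.ev (nat_lit 2189) (nat_lit 134217728) .dd))))) (.ch (nat_lit
 7) (.ev (nat_lit 1680) (nat_lit 1296) (.ev (nat_lit 1716) (nat_lit 134217728) (.ev (nat_lit 1776) (nat_lit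
 33554432) (.ev (nat_lit 1789) (nat_lit 262144) .dd))))))))))) (.br (nat_lit 6) (.ch (nat_lit 1) (.ev (nat_lit
 1424) (nat_lit 132368) (.nd (nat_lit 1664) (.br (nat_lit 8) (.br (nat_lit 3) (.ch (nat_lit 1) (.ev (nat_lit
 1680) (nat_lit 235933696) (.ev (nat_lit 1693) (nat_lit 262144) .dd))) (.br (nat_lit 6) (.ch (nat_lit 3) (.ev
 (nat_lit 1680) (nat_lit 67371008) (.ev (nat_lit 1716) (nat_lit 134217728) (.ev (nat_lit 2080) (nat_lit 4096)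
 (.ev (nat_lit 2180) (nat_lit 33554432) (.ev (nat_lit 2189) (nat_lit 1048576) .dd)))))) (.ch (nat_lit 6) (.ev
 (nat_lit 1680) (nat_lit 168034304) (.ev (nat_lit 2052) (nat_lit 67108864) (.ev (nat_lit 3124) (nat_lit
 1048576) (.ev (nat_lit 3133) (nat_lit 4096) .dd))))))) (.br (nat_lit 10) (.ch (nat_lit 8) (.ev (nat_lit 1680)
 (nat_lit 135528448) (.ev (nat_lit 1904) (nat_lit 33554432) (.ev (nat_lit 2224) (nat_lit 67112960) .dd)))) (.br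
 (nat_lit 11) (.ch (nat_lit 10) (.ev (nat_lit 1680) (nat_lit 100667392) (.ev (nat_lit 1856) (nat_lit 262144)
 (.fin (nat_lit 576558058942448716))))) (.ch (nat_lit 11) (.ev (nat_lit 1680) (nat_lit 1052672) (.ev (nat_lit
 1840) (nat_lit 134217728) (.ev (nat_lit 2052) (nat_lit 67108864) (.ev (nat_lit 2180) (nat_lit 33554432) (.ev
 (nat_lit 2189) (nat_lit 262144) .dd)))))))))))) (.ch (nat_lit 6) (.ev (nat_lit 1424) (nat_lit 33817856) (.nd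
 (nat_lit 1664) (.br (nat_lit 6) (.br (nat_lit 2) (.ch (nat_lit 1) (.ev (nat_lit 1680) (nat_lit 1052672) (.ev
 (nat_lit 1840) (nat_lit 67108864) (.ev (nat_lit 2052) (nat_lit 134217728) (.ev (nat_lit 2180) (nat_lit 16)
 (.ev (nat_lit 2189) (nat_lit 131072) .dd)))))) (.br (nat_lit 4) (.ch (nat_lit 2) (.ev (nat_lit 1680) (nat_lit
 135266320) (.ev (nat_lit 1856) (nat_lit 131072) (.fin (nat_lit 575964322757820796))))) (.ch (nat_lit 4) (.ev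
 (nat_lit 1680) (nat_lit 67244032) (.ev (nat_lit 1904) (nat_lit 16) (.ev (nat_lit 2528) (nat_lit 135266304)
 .dd)))))) (.br (nat_lit 9) (.ch (nat_lit 6) (.ev (nat_lit 1680) (nat_lit 67239952) (.ev (nat_lit 2052)
 (nat_lit 134217728) (.ev (nat_lit 3124) (nat_lit 4096) (.ev (nat_lit 3133) (nat_lit 1048576) .dd))))) (.br
 (nat_lit 11) (.ch (nat_lit 9) (.ev (nat_lit 1680) (nat_lit 134348800) (.ev (nat_lit 1716) (nat_lit 67108864)
 (.ev (nat_lit 2064) (nat_lit 1048576) (.ev (nat_lit 2340) (nat_lit 4096) (.ev (nat_lit 2349) (nat_lit 16)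
 .dd)))))) (.ch (nat_lit 11) (.ev (nat_lit 1680) (nat_lit 202379280) (.ev (nat_lit 1693) (nat_lit 131072)
 .dd))))))))))) (.br (nat_lit 9) (.ch (nat_lit 7) (.ev (nat_lit 1424) (nat_lit 135532544) (.nd (nat_lit 1664)
 (.br (nat_lit 3) (.br (nat_lit 1) (.ch (nat_lit 0) (.ev (nat_lit 1680) (nat_lit 33555456) (.ev (nat_lit 1716)
 (nat_lit 131072) (.ev (nat_lit 1920) (nat_lit 16) (.ev (nat_lit 2180) (nat_lit 256) (.ev (nat_lit 2189)
 (nat_lit 67108864) .dd)))))) (.br (nat_lit 2) (.ch (nat_lit 1) (.ev (nat_lit 1680) (nat_lit 131088) (.ev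
 (nat_lit 1696) (nat_lit 256) (.ev (nat_lit 1716) (nat_lit 33554432) (.ev (nat_lit 1728) (nat_lit 1024) (.ev
 (nat_lit 1741) (nat_lit 67108864) .dd)))))) (.ch (nat_lit 2) (.ev (nat_lit 1680) (nat_lit 100663296) (.ev
 (nat_lit 1716) (nat_lit 256) (.ev (nat_lit 2052) (nat_lit 1024) (.ev (nat_lit 2352) (nat_lit 131072) (.ev
 (nat_lit 2365) (nat_lit 16) .dd)))))))) (.br (nat_lit 4) (.ch (nat_lit 3) (.ev (nat_lit 1680) (nat_lit
 67241232) (.ev (nat_lit 1693) (nat_lit 33554432) .dd))) (.br (nat_lit 12) (.ch (nat_lit 4) (.ev (nat_lit 1680)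
 (nat_lit 67240192) (.ev (nat_lit 1760) (nat_lit 33554432) (.ev (nat_lit 2096) (nat_lit 1040) .dd)))) (.ch
 (nat_lit 12) (.ev (nat_lit 1680) (nat_lit 33555712) (.ev (nat_lit 1716) (nat_lit 67108864) (.ev (nat_lit 1904)
 (nat_lit 16) (.ev (nat_lit 1917) (nat_lit 131072) .dd))))))))))) (.br (nat_lit 11) (.ch (nat_lit 9) (.ev
 (nat_lit 1424) (nat_lit 101061648) (.nd (nat_lit 1664) (.br (nat_lit 8) (.br (nat_lit 5) (.ch (nat_lit 0) (.ev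
 (nat_lit 1680) (nat_lit 134217984) (.ev (nat_lit 1693) (nat_lit 1048576) .dd))) (.br (nat_lit 7) (.ch (nat_lit
 5) (.ev (nat_lit 1680) (nat_lit 135266560) .dd)) (.ch (nat_lit 7) (.ev (nat_lit 1892) (nat_lit 134217728) (.ev
 (nat_lit 2180) (nat_lit 256) (.ev (nat_lit 2189) (nat_lit 1048576) .dd)))))) (.br (nat_lit 9) (.ch (nat_lit 8)
 (.ev (nat_lit 1680) (nat_lit 135266560) .dd)) (.br (nat_lit 11) (.ch (nat_lit 9) (.ev (nat_lit 1680) (nat_lit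
 1048832) (.ev (nat_lit 1693) (nat_lit 134217728) .dd))) (.ch (nat_lit 11) (.ev (nat_lit 1680) (nat_lit
 1048576) (.ev (nat_lit 1760) (nat_lit 256) (.ev (nat_lit 1773) (nat_lit 134217728) .dd)))))))))) (.ch (nat_lit
 11) (.ev (nat_lit 1424) (nat_lit 169214224) (.nd (nat_lit 1664) (.br (nat_lit 5) (.br (nat_lit 2) (.ch
 (nat_lit 0) (.ev (nat_lit 1680) (nat_lit 67109888) (.ev (nat_lit 1693) (nat_lit 4096) .dd))) (.br (nat_lit 4)
 (.ch (nat_lit 2) (.ev (nat_lit 1680) (nat_lit 4096) (.ev (nat_lit 1760) (nat_lit 1024) (.ev (nat_lit 1773)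
 (nat_lit 67108864) .dd)))) (.ch (nat_lit 4) (.ev (nat_lit 1680) (nat_lit 5120) (.ev (nat_lit 1693) (nat_lit
 67108864) .dd))))) (.br (nat_lit 6) (.ch (nat_lit 5) (.ev (nat_lit 1680) (nat_lit 67113984) .dd)) (.br
 (nat_lit 8) (.ch (nat_lit 6) (.ev (nat_lit 1892) (nat_lit 67108864) (.ev (nat_lit 2180) (nat_lit 1024) (.ev
 (nat_lit 2189) (nat_lit 4096) .dd)))) (.ch (nat_lit 8) (.ev (nat_lit 1680) (nat_lit 67113984)
 .dd)))))))))))))))) (.br (nat_lit 49) (.ch (nat_lit 48) (.ev (nat_lit 52) (nat_lit 738366480) (.ev (nat_lit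
 564) (nat_lit 33554432) (.ev (nat_lit 916) (nat_lit 16777216) (.nd (nat_lit 1408) (.br (nat_lit 8) (.br
 (nat_lit 2) (.ch (nat_lit 0) (.ev (nat_lit 1424) (nat_lit 69794859136) (.nd (nat_lit 1664) (.br (nat_lit 5)
 (.br (nat_lit 3) (.ch (nat_lit 1) (.ev (nat_lit 1680) (nat_lit 262144) (.ev (nat_lit 1760) (nat_lit 256) (.ev
 (nat_lit 1773) (nat_lit 2) .dd)))) (.br (nat_lit 4) (.ch (nat_lit 3) (.ev (nat_lit 1680) (nat_lit 262400) (.ev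
 (nat_lit 1693) (nat_lit 2) .dd))) (.ch (nat_lit 4) (.ev (nat_lit 1680) (nat_lit 262402) .dd)))) (.br (nat_lit
 7) (.ch (nat_lit 5) (.ev (nat_lit 1892) (nat_lit 2) (.ev (nat_lit 2180) (nat_lit 256) (.ev (nat_lit 2189)
 (nat_lit 262144) .dd)))) (.br (nat_lit 12) (.ch (nat_lit 7) (.ev (nat_lit 1680) (nat_lit 262402) .dd)) (.ch
 (nat_lit 12) (.ev (nat_lit 1680) (nat_lit 258) (.ev (nat_lit 1693) (nat_lit 262144) .dd))))))))) (.br (nat_lit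
 3) (.ch (nat_lit 2) (.ev (nat_lit 1424) (nat_lit 1075052546) (.nd (nat_lit 1664) (.br (nat_lit 3) (.br
 (nat_lit 1) (.ch (nat_lit 0) (.ev (nat_lit 1680) (nat_lit 2176) (.ev (nat_lit 1716) (nat_lit 256) (.ev
 (nat_lit 2052) (nat_lit 68719476736) (.ev (nat_lit 2352) (nat_lit 524288) (.ev (nat_lit 2365) (nat_lit 65536)
 .dd)))))) (.br (nat_lit 2) (.ch (nat_lit 1) (.ev (nat_lit 1680) (nat_lit 589824) (.ev (nat_lit 1696) (nat_lit
 256) (.ev (nat_lit 1716) (nat_lit 128) (.ev (nat_lit 1728) (nat_lit 68719476736) (.ev (nat_lit 1741) (nat_lit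
 2048) .dd)))))) (.ch (nat_lit 2) (.ev (nat_lit 1680) (nat_lit 68719476864) (.ev (nat_lit 1716) (nat_lit
 524288) (.ev (nat_lit 1920) (nat_lit 65536) (.ev (nat_lit 2180) (nat_lit 256) (.ev (nat_lit 2189) (nat_lit
 2048) .dd)))))))) (.br (nat_lit 11) (.ch (nat_lit 3) (.ev (nat_lit 1680) (nat_lit 68719477120) (.ev (nat_lit
 1716) (nat_lit 2048) (.ev (nat_lit 1904) (nat_lit 65536) (.ev (nat_lit 1917) (nat_lit 524288) .dd))))) (.br
 (nat_lit 12) (.ch (nat_lit 11) (.ev (nat_lit 1680) (nat_lit 526592) (.ev (nat_lit 1760) (nat_lit 128) (.ev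
 (nat_lit 2096) (nat_lit 68719542272) .dd)))) (.ch (nat_lit 12) (.ev (nat_lit 1680) (nat_lit 68720068864) (.ev
 (nat_lit 1693) (nat_lit 128) .dd))))))))) (.ch (nat_lit 3) (.ev (nat_lit 1424) (nat_lit 68720525696) (.nd
 (nat_lit 1664) (.br (nat_lit 8) (.br (nat_lit 3) (.ch (nat_lit 0) (.ev (nat_lit 1680) (nat_lit 1074003968)
 (.ev (nat_lit 1840) (nat_lit 2048) (.ev (nat_lit 2052) (nat_lit 2) (.ev (nat_lit 2180) (nat_lit 65536) (.ev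
 (nat_lit 2189) (nat_lit 524288) .dd)))))) (.br (nat_lit 5) (.ch (nat_lit 3) (.ev (nat_lit 1680) (nat_lit
 1074071554) (.ev (nat_lit 1693) (nat_lit 524288) .dd))) (.ch (nat_lit 5) (.ev (nat_lit 1680) (nat_lit 524290)
 (.ev (nat_lit 1716) (nat_lit 2048) (.ev (nat_lit 2064) (nat_lit 262144) (.ev (nat_lit 2340) (nat_lit
 1073741824) (.ev (nat_lit 2349) (nat_lit 65536) .dd)))))))) (.br (nat_lit 10) (.ch (nat_lit 8) (.ev (nat_lit
 1680) (nat_lit 591872) (.ev (nat_lit 2052) (nat_lit 2) (.ev (nat_lit 3124) (nat_lit 1073741824) (.ev (nat_lit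
 3133) (nat_lit 262144) .dd))))) (.br (nat_lit 12) (.ch (nat_lit 10) (.ev (nat_lit 1680) (nat_lit 1074268160)
 (.ev (nat_lit 1904) (nat_lit 65536) (.ev (nat_lit 2528) (nat_lit 262146) .dd)))) (.ch (nat_lit 12) (.ev
 (nat_lit 1680) (nat_lit 327682) (.ev (nat_lit 1856) (nat_lit 524288) (.fin (nat_lit
 575964322852192576))))))))))))) (.br (nat_lit 9) (.ch (nat_lit 8) (.ev (nat_lit 1424) (nat_lit 68720066816)
 (.nd (nat_lit 1664) (.br (nat_lit 7) (.br (nat_lit 2) (.ch (nat_lit 0) (.ev (nat_lit 1680) (nat_lit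
 1073744000) (.ev (nat_lit 1856) (nat_lit 1048576) (.fin (nat_lit 576558059225563276))))) (.br (nat_lit 4) (.ch
 (nat_lit 2) (.ev (nat_lit 1680) (nat_lit 1310722) (.ev (nat_lit 1904) (nat_lit 128) (.ev (nat_lit 2224)
 (nat_lit 1073743872) .dd)))) (.ch (nat_lit 4) (.ev (nat_lit 1680) (nat_lit 1048706) (.ev (nat_lit 2052)
 (nat_lit 2048) (.ev (nat_lit 3124) (nat_lit 262144) (.ev (nat_lit 3133) (nat_lit 1073741824) .dd))))))) (.br
 (nat_lit 9) (.ch (nat_lit 7) (.ev (nat_lit 1680) (nat_lit 1050624) (.ev (nat_lit 1716) (nat_lit 2) (.ev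
 (nat_lit 2080) (nat_lit 1073741824) (.ev (nat_lit 2180) (nat_lit 128) (.ev (nat_lit 2189) (nat_lit 262144)
 .dd)))))) (.br (nat_lit 12) (.ch (nat_lit 9) (.ev (nat_lit 1680) (nat_lit 1074006146) (.ev (nat_lit 1693)
 (nat_lit 1048576) .dd))) (.ch (nat_lit 12) (.ev (nat_lit 1680) (nat_lit 1074003968) (.ev (nat_lit 1840)
 (nat_lit 2) (.ev (nat_lit 2052) (nat_lit 2048) (.ev (nat_lit 2180) (nat_lit 128) (.ev (nat_lit 2189) (nat_lit
 1048576) .dd)))))))))))) (.br (nat_lit 11) (.ch (nat_lit 9) (.ev (nat_lit 1424) (nat_lit 1074530304) (.nd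
 (nat_lit 1664) (.br (nat_lit 8) (.br (nat_lit 6) (.ch (nat_lit 5) (.ev (nat_lit 1680) (nat_lit 68719542528)
 (.ev (nat_lit 1716) (nat_lit 2) (.ev (nat_lit 1776) (nat_lit 128) (.ev (nat_lit 1789) (nat_lit 1048576)
 .dd))))) (.br (nat_lit 7) (.ch (nat_lit 6) (.ev (nat_lit 1680) (nat_lit 65792) (.ev (nat_lit 1716) (nat_lit
 1048576) (.ev (nat_lit 2180) (nat_lit 68719476864) (.ev (nat_lit 2189) (nat_lit 2) .dd))))) (.ch (nat_lit 7)
 (.ev (nat_lit 1680) (nat_lit 1048704) (.ev (nat_lit 1696) (nat_lit 68719476736) (.ev (nat_lit 1716) (nat_lit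
 65536) (.ev (nat_lit 1728) (nat_lit 256) (.ev (nat_lit 1741) (nat_lit 2) .dd)))))))) (.br (nat_lit 9) (.ch
 (nat_lit 8) (.ev (nat_lit 1680) (nat_lit 65538) (.ev (nat_lit 1716) (nat_lit 68719476992) (.ev (nat_lit 2192)
 (nat_lit 1048576) (.ev (nat_lit 2205) (nat_lit 128) .dd))))) (.br (nat_lit 10) (.ch (nat_lit 9) (.ev (nat_lit
 1680) (nat_lit 68720525698) (.ev (nat_lit 1693) (nat_lit 65536) .dd))) (.ch (nat_lit 10) (.ev (nat_lit 1680)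
 (nat_lit 68720525314) (.ev (nat_lit 1760) (nat_lit 65536) (.ev (nat_lit 2052) (nat_lit 256) (.ev (nat_lit
 2061) (nat_lit 128) .dd))))))))))) (.ch (nat_lit 11) (.ev (nat_lit 1424) (nat_lit 1900930) (.nd (nat_lit 1664)
 (.br (nat_lit 6) (.br (nat_lit 4) (.ch (nat_lit 2) (.ev (nat_lit 1680) (nat_lit 69793220608) .dd)) (.br
 (nat_lit 5) (.ch (nat_lit 4) (.ev (nat_lit 1892) (nat_lit 2048) (.ev (nat_lit 2180) (nat_lit 68719476736) (.ev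
 (nat_lit 2189) (nat_lit 1073741824) .dd)))) (.ch (nat_lit 5) (.ev (nat_lit 1680) (nat_lit 69793220608) .dd))))
 (.br (nat_lit 8) (.ch (nat_lit 6) (.ev (nat_lit 1680) (nat_lit 69793218560) (.ev (nat_lit 1693) (nat_lit 2048)
 .dd))) (.br (nat_lit 10) (.ch (nat_lit 8) (.ev (nat_lit 1680) (nat_lit 1073741824) (.ev (nat_lit 1760)
 (nat_lit 68719476736) (.ev (nat_lit 1773) (nat_lit 2048) .dd)))) (.ch (nat_lit 10) (.ev (nat_lit 1680)
 (nat_lit 68719478784) (.ev (nat_lit 1693) (nat_lit 1073741824) .dd))))))))))))))))) (.ch (nat_lit 49) (.ev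
 (nat_lit 52) (nat_lit 68921068562) (.ev (nat_lit 212) (nat_lit 1073741824) (.ev (nat_lit 480) (nat_lit
 589009280) .dd)))))) (.br (nat_lit 51) (.ch (nat_lit 50) (.ev (nat_lit 52) (nat_lit 251691008) (.ev (nat_lit
 64) (nat_lit 70332128658) .dd))) (.br (nat_lit 53) (.ch (nat_lit 51) (.ev (nat_lit 52) (nat_lit 202671104)
 (.ev (nat_lit 256) (nat_lit 70381148562) .dd))) (.ch (nat_lit 53) (.ev (nat_lit 52) (nat_lit 1813053442) (.ev
 (nat_lit 116) (nat_lit 1024) (.ev (nat_lit 596) (nat_lit 131072) (.ev (nat_lit 788) (nat_lit 4096) (.ev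
 (nat_lit 1012) (nat_lit 256) (.nd (nat_lit 1408) (.br (nat_lit 3) (.br (nat_lit 1) (.ch (nat_lit 0) (.ev
 (nat_lit 1424) (nat_lit 68736548992) (.nd (nat_lit 1664) (.br (nat_lit 4) (.br (nat_lit 2) (.ch (nat_lit 1)
 (.ev (nat_lit 1680) (nat_lit 34080784) .dd)) (.br (nat_lit 3) (.ch (nat_lit 2) (.ev (nat_lit 2096) (nat_lit
 16) (.ev (nat_lit 2224) (nat_lit 2048) (.fin (nat_lit 576333758811554160))))) (.ch (nat_lit 3) (.ev (nat_lit
 1680) (nat_lit 34078720) (.ev (nat_lit 2340) (nat_lit 16) (.ev (nat_lit 2349) (nat_lit 2048) .dd)))))) (.br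
 (nat_lit 5) (.ch (nat_lit 4) (.ev (nat_lit 1680) (nat_lit 16) (.ev (nat_lit 1892) (nat_lit 2048) (.ev (nat_lit
 2080) (nat_lit 524288) (.ev (nat_lit 2093) (nat_lit 33554432) .dd))))) (.br (nat_lit 8) (.ch (nat_lit 5) (.ev
 (nat_lit 1680) (nat_lit 2048) (.ev (nat_lit 1892) (nat_lit 16) (.ev (nat_lit 2224) (nat_lit 524288) (.ev
 (nat_lit 2237) (nat_lit 33554432) .dd))))) (.ch (nat_lit 8) (.ev (nat_lit 1680) (nat_lit 34078736) (.ev
 (nat_lit 1693) (nat_lit 2048) .dd))))))))) (.br (nat_lit 2) (.ch (nat_lit 1) (.ev (nat_lit 1424) (nat_lit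
 68736780432) (.nd (nat_lit 1664) (.br (nat_lit 6) (.br (nat_lit 3) (.ch (nat_lit 0) (.ev (nat_lit 1680)
 (nat_lit 33816576) (.ev (nat_lit 1693) (nat_lit 32768) .dd))) (.br (nat_lit 5) (.ch (nat_lit 3) (.ev (nat_lit
 1680) (nat_lit 262144) (.ev (nat_lit 2052) (nat_lit 32768) (.ev (nat_lit 2061) (nat_lit 33554432) .dd)))) (.ch
 (nat_lit 5) (.ev (nat_lit 1680) (nat_lit 32768) (.fin (nat_lit 576250196263387816)))))) (.br (nat_lit 8) (.ch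
 (nat_lit 6) (.ev (nat_lit 1680) (nat_lit 33849344) .dd)) (.br (nat_lit 11) (.ch (nat_lit 8) (.ev (nat_lit
 1680) (nat_lit 33816576) (.ev (nat_lit 1693) (nat_lit 32768) .dd))) (.ch (nat_lit 11) (.ev (nat_lit 1680)
 (nat_lit 32768) (.ev (nat_lit 2180) (nat_lit 262144) (.ev (nat_lit 2189) (nat_lit 33554432) .dd)))))))))) (.ch
 (nat_lit 2) (.ev (nat_lit 1424) (nat_lit 17072128) (.nd (nat_lit 1664) (.br (nat_lit 7) (.br (nat_lit 2) (.ch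
 (nat_lit 0) (.ev (nat_lit 1680) (nat_lit 68719478912) (.ev (nat_lit 1716) (nat_lit 33554432) (.ev (nat_lit
 2052) (nat_lit 524288) (.ev (nat_lit 2061) (nat_lit 16) .dd))))) (.br (nat_lit 3) (.ch (nat_lit 2) (.ev
 (nat_lit 1680) (nat_lit 68753557520) (.ev (nat_lit 1693) (nat_lit 128) .dd))) (.ch (nat_lit 3) (.ev (nat_lit
 1680) (nat_lit 68719476864) (.ev (nat_lit 1716) (nat_lit 524288) (.ev (nat_lit 2180) (nat_lit 33554432) (.fin
 (nat_lit 576434913786937870)))))))) (.br (nat_lit 11) (.ch (nat_lit 7) (.ev (nat_lit 1680) (nat_lit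
 68720003200) (.ev (nat_lit 1840) (nat_lit 16) (.ev (nat_lit 1853) (nat_lit 33554432) .dd)))) (.br (nat_lit 12)
 (.ch (nat_lit 11) (.ev (nat_lit 1680) (nat_lit 144) (.ev (nat_lit 1892) (nat_lit 33554432) (.ev (nat_lit 2180)
 (nat_lit 2048) (.ev (nat_lit 2644) (nat_lit 524288) (.ev (nat_lit 2653) (nat_lit 68719476736) .dd)))))) (.ch
 (nat_lit 12) (.ev (nat_lit 1680) (nat_lit 34078736) (.ev (nat_lit 1744) (nat_lit 68719476736) (.ev (nat_lit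
 2340) (nat_lit 128) (.ev (nat_lit 2349) (nat_lit 2048) .dd))))))))))))) (.br (nat_lit 8) (.ch (nat_lit 3) (.ev
 (nat_lit 1424) (nat_lit 34340992) (.nd (nat_lit 1664) (.br (nat_lit 8) (.br (nat_lit 3) (.ch (nat_lit 1) (.ev
 (nat_lit 1680) (nat_lit 68736256000) (.ev (nat_lit 1716) (nat_lit 32768) (.ev (nat_lit 1725) (nat_lit 16)
 .dd)))) (.br (nat_lit 5) (.ch (nat_lit 3) (.ev (nat_lit 1680) (nat_lit 16812032) (.ev (nat_lit 1716) (nat_lit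
 68719476736) (.ev (nat_lit 1725) (nat_lit 16) .dd)))) (.ch (nat_lit 5) (.ev (nat_lit 1680) (nat_lit
 68719509504) (.ev (nat_lit 1716) (nat_lit 16) (.ev (nat_lit 1892) (nat_lit 16777216) (.ev (nat_lit 1901)
 (nat_lit 2048) .dd))))))) (.br (nat_lit 10) (.ch (nat_lit 8) (.ev (nat_lit 1680) (nat_lit 68736256016) (.ev
 (nat_lit 1693) (nat_lit 32768) .dd))) (.br (nat_lit 12) (.ch (nat_lit 10) (.ev (nat_lit 1680) (nat_lit
 68719509520) (.ev (nat_lit 2496) (nat_lit 16779264) .dd))) (.ch (nat_lit 12) (.ev (nat_lit 1680) (nat_lit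
 68736253968) (.ev (nat_lit 1716) (nat_lit 2048) (.ev (nat_lit 1725) (nat_lit 32768) .dd)))))))))) (.br
 (nat_lit 11) (.ch (nat_lit 8) (.ev (nat_lit 1424) (nat_lit 68720033936) (.nd (nat_lit 1664) (.br (nat_lit 7)
 (.br (nat_lit 5) (.ch (nat_lit 2) (.ev (nat_lit 1680) (nat_lit 33554432) (.ev (nat_lit 1892) (nat_lit 262144)
 (.ev (nat_lit 2052) (nat_lit 16777216) (.ev (nat_lit 2061) (nat_lit 2048) .dd))))) (.br (nat_lit 6) (.ch
 (nat_lit 5) (.ev (nat_lit 1680) (nat_lit 17041408) (.ev (nat_lit 1693) (nat_lit 33554432) .dd))) (.ch (nat_lit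
 6) (.ev (nat_lit 1680) (nat_lit 17041408) (.ev (nat_lit 1693) (nat_lit 33554432) .dd))))) (.br (nat_lit 9)
 (.ch (nat_lit 7) (.ev (nat_lit 1680) (nat_lit 264192) (.ev (nat_lit 1716) (nat_lit 16777216) (.ev (nat_lit
 1725) (nat_lit 33554432) .dd)))) (.br (nat_lit 12) (.ch (nat_lit 9) (.ev (nat_lit 1680) (nat_lit 262144) (.ev
 (nat_lit 1716) (nat_lit 16777216) (.ev (nat_lit 1728) (nat_lit 2048) (.ev (nat_lit 1741) (nat_lit 33554432)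
 .dd))))) (.ch (nat_lit 12) (.ev (nat_lit 1680) (nat_lit 264192) (.ev (nat_lit 2192) (nat_lit 16777216) (.ev
 (nat_lit 2205) (nat_lit 33554432) .dd)))))))))) (.ch (nat_lit 11) (.ev (nat_lit 1424) (nat_lit 68770072704)
 (.nd (nat_lit 1664) (.br (nat_lit 6) (.br (nat_lit 5) (.ch (nat_lit 0) (.ev (nat_lit 1680) (nat_lit 32784)
 (.ev (nat_lit 1693) (nat_lit 524288) .dd))) (.ch (nat_lit 5) (.ev (nat_lit 1680) (nat_lit 32784) (.ev (nat_lit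
 1693) (nat_lit 524288) .dd)))) (.br (nat_lit 11) (.ch (nat_lit 6) (.ev (nat_lit 1680) (nat_lit 557056) (.ev
 (nat_lit 1693) (nat_lit 16) .dd))) (.br (nat_lit 12) (.ch (nat_lit 11) (.ev (nat_lit 1680) (nat_lit 32768)
 (.ev (nat_lit 1892) (nat_lit 16) (.ev (nat_lit 1901) (nat_lit 524288) .dd)))) (.ch (nat_lit 12) (.ev (nat_lit
 1680) (nat_lit 16) (.ev (nat_lit 1808) (nat_lit 32768) (.ev (nat_lit 1821) (nat_lit 524288)
 .dd)))))))))))))))))))))))) (.br (nat_lit 64) (.br (nat_lit 57) (.br (nat_lit 55) (.ch (nat_lit 54) (.ev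
 (nat_lit 52) (nat_lit 52037906) (.ev (nat_lit 244) (nat_lit 1073741824) (.ev (nat_lit 276) (nat_lit 536870912)
 (.ev (nat_lit 468) (nat_lit 134217728) (.ev (nat_lit 980) (nat_lit 1024) (.ev (nat_lit 1108) (nat_lit 32768)
 (.nd (nat_lit 1408) (.br (nat_lit 6) (.br (nat_lit 2) (.ch (nat_lit 1) (.ev (nat_lit 1424) (nat_lit
 68719738880) (.nd (nat_lit 1664) (.br (nat_lit 8) (.br (nat_lit 3) (.ch (nat_lit 0) (.ev (nat_lit 1680)
 (nat_lit 67108992) (.ev (nat_lit 1716) (nat_lit 4096) (.ev (nat_lit 1725) (nat_lit 65536) .dd)))) (.br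
 (nat_lit 5) (.ch (nat_lit 3) (.ev (nat_lit 1680) (nat_lit 67174528) (.ev (nat_lit 1693) (nat_lit 4096) .dd)))
 (.ch (nat_lit 5) (.ev (nat_lit 1680) (nat_lit 67178496) (.ev (nat_lit 1693) (nat_lit 128) .dd))))) (.br
 (nat_lit 10) (.ch (nat_lit 8) (.ev (nat_lit 1680) (nat_lit 65664) (.ev (nat_lit 2740) (nat_lit 4096) (.ev
 (nat_lit 2749) (nat_lit 67108864) .dd)))) (.br (nat_lit 11) (.ch (nat_lit 10) (.ev (nat_lit 1680) (nat_lit
 67174400) (.ev (nat_lit 1716) (nat_lit 4096) (.ev (nat_lit 1725) (nat_lit 128) .dd)))) (.ch (nat_lit 11) (.ev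
 (nat_lit 1680) (nat_lit 67113088) (.ev (nat_lit 1693) (nat_lit 65536) .dd))))))))) (.br (nat_lit 3) (.ch
 (nat_lit 2) (.ev (nat_lit 1424) (nat_lit 262144) (.nd (nat_lit 1664) (.br (nat_lit 3) (.br (nat_lit 1) (.ch
 (nat_lit 0) (.ev (nat_lit 1680) (nat_lit 68786585728) (.ev (nat_lit 1904) (nat_lit 4096) (.ev (nat_lit 1917)
 (nat_lit 65536) .dd)))) (.br (nat_lit 2) (.ch (nat_lit 1) (.ev (nat_lit 1680) (nat_lit 69760) (.ev (nat_lit
 1716) (nat_lit 67108864) (.ev (nat_lit 1725) (nat_lit 68719476736) .dd)))) (.ch (nat_lit 2) (.ev (nat_lit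
 1680) (nat_lit 68719542272) (.ev (nat_lit 1716) (nat_lit 67108992) (.ev (nat_lit 1725) (nat_lit 4096)
 .dd)))))) (.br (nat_lit 5) (.ch (nat_lit 3) (.ev (nat_lit 1680) (nat_lit 68719546368) (.ev (nat_lit 1728)
 (nat_lit 67108992) .dd))) (.br (nat_lit 7) (.ch (nat_lit 5) (.ev (nat_lit 1680) (nat_lit 68786589824) (.ev
 (nat_lit 1693) (nat_lit 65536) .dd))) (.ch (nat_lit 7) (.ev (nat_lit 1680) (nat_lit 68786651264) (.ev (nat_lit
 1693) (nat_lit 4096) .dd))))))))) (.ch (nat_lit 3) (.ev (nat_lit 1424) (nat_lit 68786589824) (.nd (nat_lit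
 1664) (.br (nat_lit 9) (.br (nat_lit 3) (.ch (nat_lit 0) (.ev (nat_lit 1680) (nat_lit 327680) .dd)) (.br
 (nat_lit 5) (.ch (nat_lit 3) (.ev (nat_lit 1680) (nat_lit 262144) (.ev (nat_lit 1693) (nat_lit 65536) .dd)))
 (.ch (nat_lit 5) (.ev (nat_lit 2960) (nat_lit 65536) (.ev (nat_lit 2973) (nat_lit 262144) .dd))))) (.br
 (nat_lit 10) (.ch (nat_lit 9) (.ev (nat_lit 1680) (nat_lit 65536) (.ev (nat_lit 1693) (nat_lit 262144) .dd)))
 (.br (nat_lit 12) (.ch (nat_lit 10) (.ev (nat_lit 2644) (nat_lit 65536) (.ev (nat_lit 2653) (nat_lit 262144)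
 .dd))) (.ch (nat_lit 12) (.ev (nat_lit 1680) (nat_lit 327680) .dd)))))))))) (.br (nat_lit 7) (.ch (nat_lit 6)
 (.ev (nat_lit 1424) (nat_lit 68719804416) (.nd (nat_lit 1664) (.br (nat_lit 5) (.br (nat_lit 2) (.ch (nat_lit
 1) (.ev (nat_lit 1680) (nat_lit 128) (.ev (nat_lit 1716) (nat_lit 4096) (.ev (nat_lit 1725) (nat_lit 67108864)
 .dd)))) (.br (nat_lit 3) (.ch (nat_lit 2) (.ev (nat_lit 1680) (nat_lit 4224) (.ev (nat_lit 1693) (nat_lit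
 67108864) .dd))) (.ch (nat_lit 3) (.ev (nat_lit 1680) (nat_lit 4224) (.ev (nat_lit 1693) (nat_lit 67108864)
 .dd))))) (.br (nat_lit 6) (.ch (nat_lit 5) (.ev (nat_lit 1680) (nat_lit 67108992) (.ev (nat_lit 1693) (nat_lit
 4096) .dd))) (.br (nat_lit 11) (.ch (nat_lit 6) (.ev (nat_lit 1680) (nat_lit 67108864) (.ev (nat_lit 2340)
 (nat_lit 4096) (.ev (nat_lit 2349) (nat_lit 128) .dd)))) (.ch (nat_lit 11) (.ev (nat_lit 1680) (nat_lit
 67108992) (.ev (nat_lit 1693) (nat_lit 4096) .dd))))))))) (.br (nat_lit 8) (.ch (nat_lit 7) (.ev (nat_lit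
 1424) (nat_lit 327680) (.nd (nat_lit 1664) (.br (nat_lit 4) (.br (nat_lit 3) (.ch (nat_lit 0) (.ev (nat_lit
 1680) (nat_lit 68786585728) (.ev (nat_lit 1693) (nat_lit 4096) .dd))) (.ch (nat_lit 3) (.ev (nat_lit 1680)
 (nat_lit 67108864) (.ev (nat_lit 2052) (nat_lit 4096) (.ev (nat_lit 2064) (nat_lit 68719476736) (.ev (nat_lit
 2077) (nat_lit 128) .dd)))))) (.br (nat_lit 8) (.ch (nat_lit 4) (.ev (nat_lit 1680) (nat_lit 4096) (.ev
 (nat_lit 2548) (nat_lit 68719476736) (.ev (nat_lit 2788) (nat_lit 67108864) (.ev (nat_lit 2797) (nat_lit 128)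
 .dd))))) (.br (nat_lit 10) (.ch (nat_lit 8) (.ev (nat_lit 1680) (nat_lit 67108864) (.ev (nat_lit 2080)
 (nat_lit 4096) (.ev (nat_lit 2740) (nat_lit 68719476736) (.ev (nat_lit 2749) (nat_lit 128) .dd))))) (.ch
 (nat_lit 10) (.ev (nat_lit 1680) (nat_lit 68786589824) .dd)))))))) (.ch (nat_lit 8) (.ev (nat_lit 1424)
 (nat_lit 68786655232) (.nd (nat_lit 1664) (.br (nat_lit 6) (.br (nat_lit 4) (.ch (nat_lit 2) (.ev (nat_lit
 1680) (nat_lit 262272) .dd)) (.br (nat_lit 5) (.ch (nat_lit 4) (.ev (nat_lit 1680) (nat_lit 128) (.ev (nat_lit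
 1693) (nat_lit 262144) .dd))) (.ch (nat_lit 5) (.ev (nat_lit 1680) (nat_lit 262144) (.ev (nat_lit 1693)
 (nat_lit 128) .dd))))) (.br (nat_lit 7) (.ch (nat_lit 6) (.ev (nat_lit 1680) (nat_lit 262144) (.ev (nat_lit
 1693) (nat_lit 128) .dd))) (.br (nat_lit 10) (.ch (nat_lit 7) (.ev (nat_lit 2240) (nat_lit 128) (.ev (nat_lit
 2253) (nat_lit 262144) .dd))) (.ch (nat_lit 10) (.ev (nat_lit 1716) (nat_lit 128) (.ev (nat_lit 1725) (nat_lit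
 262144) .dd)))))))))))))))))))) (.ch (nat_lit 55) (.ev (nat_lit 52) (nat_lit 538512386) (.ev (nat_lit 404)
 (nat_lit 131072) (.ev (nat_lit 852) (nat_lit 1073741824) (.ev (nat_lit 1076) (nat_lit 256) (.ev (nat_lit 1236)
 (nat_lit 67108864) (.nd (nat_lit 1408) (.br (nat_lit 8) (.br (nat_lit 2) (.ch (nat_lit 1) (.ev (nat_lit 1424)
 (nat_lit 68736258048) (.nd (nat_lit 1664) (.br (nat_lit 6) (.br (nat_lit 1) (.ch (nat_lit 0) (.ev (nat_lit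
 1680) (nat_lit 134512784) (.ev (nat_lit 1693) (nat_lit 33554432) .dd))) (.br (nat_lit 4) (.ch (nat_lit 1) (.ev
 (nat_lit 1680) (nat_lit 168034304) (.ev (nat_lit 1892) (nat_lit 128) (.ev (nat_lit 1904) (nat_lit 32768) (.ev
 (nat_lit 1917) (nat_lit 16) .dd))))) (.ch (nat_lit 4) (.ev (nat_lit 1680) (nat_lit 134250512) (.ev (nat_lit
 1728) (nat_lit 128) (.ev (nat_lit 2180) (nat_lit 33554432) (.ev (nat_lit 2189) (nat_lit 262144) .dd)))))))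
 (.br (nat_lit 10) (.ch (nat_lit 6) (.ev (nat_lit 1680) (nat_lit 33816704) (.ev (nat_lit 2852) (nat_lit
 134217728) (.fin (nat_lit 576672408267079892))))) (.br (nat_lit 11) (.ch (nat_lit 10) (.ev (nat_lit 1680)
 (nat_lit 33554576) (.ev (nat_lit 2052) (nat_lit 134217728) (.ev (nat_lit 2340) (nat_lit 32768) (.ev (nat_lit
 2349) (nat_lit 262144) .dd))))) (.ch (nat_lit 11) (.ev (nat_lit 1716) (nat_lit 33554432) (.ev (nat_lit 2752)
 (nat_lit 262144) (.ev (nat_lit 2992) (nat_lit 128) (.ev (nat_lit 3108) (nat_lit 16) (.fin (nat_lit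
 576333758528438820))))))))))))) (.br (nat_lit 7) (.ch (nat_lit 2) (.ev (nat_lit 1424) (nat_lit 68870471808)
 (.nd (nat_lit 1664) (.br (nat_lit 5) (.br (nat_lit 2) (.ch (nat_lit 1) (.ev (nat_lit 1680) (nat_lit 33587216)
 (.ev (nat_lit 2368) (nat_lit 266240) .dd))) (.br (nat_lit 3) (.ch (nat_lit 2) (.ev (nat_lit 1680) (nat_lit
 266256) (.ev (nat_lit 1716) (nat_lit 33554432) (.ev (nat_lit 1725) (nat_lit 32768) .dd)))) (.ch (nat_lit 3)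
 (.ev (nat_lit 1680) (nat_lit 36864) (.ev (nat_lit 1716) (nat_lit 16) (.ev (nat_lit 1744) (nat_lit 33554432)
 (.ev (nat_lit 1757) (nat_lit 262144) .dd))))))) (.br (nat_lit 11) (.ch (nat_lit 5) (.ev (nat_lit 1680)
 (nat_lit 33820688) (.ev (nat_lit 1693) (nat_lit 32768) .dd))) (.br (nat_lit 12) (.ch (nat_lit 11) (.ev
 (nat_lit 1680) (nat_lit 33591312) (.ev (nat_lit 1693) (nat_lit 262144) .dd))) (.ch (nat_lit 12) (.ev (nat_lit
 1680) (nat_lit 36864) (.ev (nat_lit 1716) (nat_lit 33554448) (.ev (nat_lit 1725) (nat_lit 262144)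
 .dd)))))))))) (.ch (nat_lit 7) (.ev (nat_lit 1424) (nat_lit 168067216) (.nd (nat_lit 1664) (.br (nat_lit 8)
 (.br (nat_lit 3) (.ch (nat_lit 2) (.ev (nat_lit 1680) (nat_lit 68736253952) (.ev (nat_lit 1693) (nat_lit 4096)
 .dd))) (.br (nat_lit 4) (.ch (nat_lit 3) (.ev (nat_lit 1680) (nat_lit 4096) (.ev (nat_lit 2180) (nat_lit
 68719476736) (.ev (nat_lit 2189) (nat_lit 16777216) .dd)))) (.ch (nat_lit 4) (.ev (nat_lit 1680) (nat_lit
 16781312) (.ev (nat_lit 1693) (nat_lit 68719476736) .dd))))) (.br (nat_lit 9) (.ch (nat_lit 8) (.ev (nat_lit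
 1680) (nat_lit 68736253952) (.ev (nat_lit 1693) (nat_lit 4096) .dd))) (.br (nat_lit 10) (.ch (nat_lit 9) (.ev
 (nat_lit 1680) (nat_lit 68719480832) (.ev (nat_lit 1693) (nat_lit 16777216) .dd))) (.ch (nat_lit 10) (.ev
 (nat_lit 1680) (nat_lit 16781312) (.ev (nat_lit 1693) (nat_lit 68719476736) .dd))))))))))) (.br (nat_lit 9)
 (.ch (nat_lit 8) (.ev (nat_lit 1424) (nat_lit 68904059008) (.nd (nat_lit 1664) (.br (nat_lit 6) (.br (nat_lit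
 2) (.ch (nat_lit 0) (.ev (nat_lit 1680) (nat_lit 4096) (.ev (nat_lit 2180) (nat_lit 262144) (.ev (nat_lit
 2189) (nat_lit 16) .dd)))) (.ch (nat_lit 2) (.ev (nat_lit 1680) (nat_lit 16) (.fin (nat_lit
 576487690378625622))))) (.br (nat_lit 7) (.ch (nat_lit 6) (.ev (nat_lit 1680) (nat_lit 262160) (.ev (nat_lit
 1693) (nat_lit 4096) .dd))) (.br (nat_lit 10) (.ch (nat_lit 7) (.ev (nat_lit 1680) (nat_lit 262144) (.ev
 (nat_lit 1952) (nat_lit 4096) (.ev (nat_lit 1965) (nat_lit 16) .dd)))) (.ch (nat_lit 10) (.ev (nat_lit 1680)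
 (nat_lit 4096) (.ev (nat_lit 1716) (nat_lit 262144) (.ev (nat_lit 1725) (nat_lit 16) .dd)))))))))) (.br
 (nat_lit 11) (.ch (nat_lit 9) (.ev (nat_lit 1424) (nat_lit 68770103440) (.nd (nat_lit 1664) (.br (nat_lit 7)
 (.br (nat_lit 6) (.ch (nat_lit 0) (.ev (nat_lit 1716) (nat_lit 4096) (.ev (nat_lit 1725) (nat_lit 134217728)
 .dd))) (.ch (nat_lit 6) (.ev (nat_lit 1680) (nat_lit 4096) (.ev (nat_lit 1693) (nat_lit 134217728) .dd))))
 (.br (nat_lit 11) (.ch (nat_lit 7) (.ev (nat_lit 1728) (nat_lit 4096) (.ev (nat_lit 1741) (nat_lit 134217728)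
 .dd))) (.ch (nat_lit 11) (.ev (nat_lit 1680) (nat_lit 4096) (.ev (nat_lit 1693) (nat_lit 134217728)
 .dd)))))))) (.ch (nat_lit 11) (.ev (nat_lit 1424) (nat_lit 184844416) (.nd (nat_lit 1664) (.br (nat_lit 8)
 (.br (nat_lit 4) (.ch (nat_lit 0) (.ev (nat_lit 1680) (nat_lit 68719476752) (.ev (nat_lit 1693) (nat_lit 4096)
 .dd))) (.br (nat_lit 5) (.ch (nat_lit 4) (.ev (nat_lit 1716) (nat_lit 4112) (.ev (nat_lit 1725) (nat_lit
 68719476736) .dd))) (.ch (nat_lit 5) (.ev (nat_lit 1680) (nat_lit 68719480832) (.ev (nat_lit 1693) (nat_lit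
 16) .dd))))) (.br (nat_lit 10) (.ch (nat_lit 8) (.ev (nat_lit 1680) (nat_lit 4096) (.ev (nat_lit 1716)
 (nat_lit 16) (.ev (nat_lit 1725) (nat_lit 68719476736) .dd)))) (.br (nat_lit 12) (.ch (nat_lit 10) (.ev
 (nat_lit 1680) (nat_lit 68719480848) .dd)) (.ch (nat_lit 12) (.ev (nat_lit 1680) (nat_lit 4112) (.ev (nat_lit
 1693) (nat_lit 68719476736) .dd)))))))))))))))))))) (.br (nat_lit 58) (.ch (nat_lit 57) (.ev (nat_lit 52)
 (nat_lit 68736387472) (.ev (nat_lit 84) (nat_lit 536870912) (.ev (nat_lit 404) (nat_lit 1048576) (.ev (nat_lit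
 564) (nat_lit 2) (.ev (nat_lit 628) (nat_lit 1073741824) (.ev (nat_lit 916) (nat_lit 33554432) (.ev (nat_lit
 1204) (nat_lit 134217728) (.ev (nat_lit 1332) (nat_lit 524288) (.nd (nat_lit 1408) (.br (nat_lit 7) (.br
 (nat_lit 2) (.ch (nat_lit 0) (.ev (nat_lit 1424) (nat_lit 67474432) .dd)) (.ch (nat_lit 2) (.ev (nat_lit 1424)
 (nat_lit 267264) (.nd (nat_lit 1664) (.br (nat_lit 6) (.br (nat_lit 3) (.ch (nat_lit 2) (.ev (nat_lit 1680)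
 (nat_lit 65536) (.ev (nat_lit 1716) (nat_lit 67108864) (.ev (nat_lit 1725) (nat_lit 32768) .dd)))) (.ch
 (nat_lit 3) (.ev (nat_lit 1680) (nat_lit 32768) (.ev (nat_lit 1892) (nat_lit 65536) (.ev (nat_lit 1901)
 (nat_lit 67108864) .dd))))) (.br (nat_lit 7) (.ch (nat_lit 6) (.ev (nat_lit 1680) (nat_lit 67207168) .dd))
 (.br (nat_lit 11) (.ch (nat_lit 7) (.ev (nat_lit 1680) (nat_lit 32768) (.ev (nat_lit 1776) (nat_lit 67108864)
 (.ev (nat_lit 1789) (nat_lit 65536) .dd)))) (.ch (nat_lit 11) (.ev (nat_lit 1680) (nat_lit 67141632) (.ev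
 (nat_lit 1693) (nat_lit 65536) .dd)))))))))) (.br (nat_lit 8) (.ch (nat_lit 7) (.ev (nat_lit 1424) (nat_lit
 300032) (.nd (nat_lit 1664) (.br (nat_lit 2) (.br (nat_lit 1) (.ch (nat_lit 0) (.ev (nat_lit 1680) (nat_lit
 67174400) .dd)) (.ch (nat_lit 1) (.ev (nat_lit 1680) (nat_lit 65536) (.ev (nat_lit 1693) (nat_lit 67108864)
 .dd)))) (.br (nat_lit 4) (.ch (nat_lit 2) (.ev (nat_lit 2052) (nat_lit 67108864) (.ev (nat_lit 2061) (nat_lit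
 65536) .dd))) (.br (nat_lit 12) (.ch (nat_lit 4) (.ev (nat_lit 1680) (nat_lit 65536) (.ev (nat_lit 1693)
 (nat_lit 67108864) .dd))) (.ch (nat_lit 12) (.ev (nat_lit 1776) (nat_lit 67174400) .dd)))))))) (.br (nat_lit
 11) (.ch (nat_lit 8) (.ev (nat_lit 1424) (nat_lit 67142656) (.nd (nat_lit 1664) (.br (nat_lit 6) (.br (nat_lit
 2) (.ch (nat_lit 0) (.ev (nat_lit 1892) (nat_lit 262144) (.ev (nat_lit 1952) (nat_lit 65536) (.ev (nat_lit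
 1965) (nat_lit 4096) .dd)))) (.ch (nat_lit 2) (.ev (nat_lit 1680) (nat_lit 65536) (.ev (nat_lit 2340) (nat_lit
 4096) (.ev (nat_lit 2349) (nat_lit 262144) .dd))))) (.br (nat_lit 9) (.ch (nat_lit 6) (.ev (nat_lit 1680)
 (nat_lit 327680) (.ev (nat_lit 1693) (nat_lit 4096) .dd))) (.br (nat_lit 12) (.ch (nat_lit 9) (.ev (nat_lit
 1680) (nat_lit 266240) (.ev (nat_lit 1693) (nat_lit 65536) .dd))) (.ch (nat_lit 12) (.ev (nat_lit 1680)
 (nat_lit 262144) (.ev (nat_lit 1716) (nat_lit 4096) (.ev (nat_lit 1725) (nat_lit 65536) .dd)))))))))) (.ch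
 (nat_lit 11) (.ev (nat_lit 1424) (nat_lit 262144) (.ev (nat_lit 1444) (nat_lit 67108864) (.ev (nat_lit 1542)
 (nat_lit 32768) (.nd (nat_lit 1664) (.br (nat_lit 8) (.br (nat_lit 5) (.ch (nat_lit 0) (.ev (nat_lit 1680)
 (nat_lit 66560) (.ev (nat_lit 1693) (nat_lit 4096) .dd))) (.br (nat_lit 6) (.ch (nat_lit 5) (.ev (nat_lit
 1680) (nat_lit 5120) (.ev (nat_lit 1693) (nat_lit 65536) .dd))) (.ch (nat_lit 6) (.ev (nat_lit 1716) (nat_lit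
 4096) (.ev (nat_lit 2180) (nat_lit 1024) (.ev (nat_lit 2189) (nat_lit 65536) .dd)))))) (.br (nat_lit 10) (.ch
 (nat_lit 8) (.ev (nat_lit 1680) (nat_lit 69632) (.ev (nat_lit 1693) (nat_lit 1024) .dd))) (.br (nat_lit 12)
 (.ch (nat_lit 10) (.ev (nat_lit 1680) (nat_lit 65536) (.ev (nat_lit 2180) (nat_lit 1024) (.ev (nat_lit 2189)
 (nat_lit 4096) .dd)))) (.ch (nat_lit 12) (.ev (nat_lit 1680) (nat_lit 1024) (.ev (nat_lit 2052) (nat_lit 4096)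
 (.ev (nat_lit 2061) (nat_lit 65536) .dd))))))))))))))))))))))))) (.br (nat_lit 62) (.ch (nat_lit 58) (.ev
 (nat_lit 52) (nat_lit 251662592) (.ev (nat_lit 84) (nat_lit 68719476736) (.ev (nat_lit 660) (nat_lit 131072)
 (.ev (nat_lit 1300) (nat_lit 1048704) (.nd (nat_lit 1408) (.br (nat_lit 6) (.br (nat_lit 3) (.ch (nat_lit 1)
 (.ev (nat_lit 1424) (nat_lit 560144) (.ev (nat_lit 1444) (nat_lit 2) (.nd (nat_lit 1664) (.br (nat_lit 6) (.br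
 (nat_lit 1) (.ch (nat_lit 0) (.ev (nat_lit 1680) (nat_lit 1610874880) (.ev (nat_lit 1693) (nat_lit 65536)
 .dd))) (.br (nat_lit 4) (.ch (nat_lit 1) (.ev (nat_lit 1680) (nat_lit 327680) (.ev (nat_lit 1728) (nat_lit
 1073741824) (.ev (nat_lit 1741) (nat_lit 536870912) .dd)))) (.ch (nat_lit 4) (.ev (nat_lit 1680) (nat_lit
 65536) (.ev (nat_lit 1716) (nat_lit 1610612736) (.ev (nat_lit 1725) (nat_lit 262144) .dd)))))) (.br (nat_lit
 8) (.ch (nat_lit 6) (.ev (nat_lit 1680) (nat_lit 1074003968) (.ev (nat_lit 1716) (nat_lit 536870912) (.ev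
 (nat_lit 1725) (nat_lit 65536) .dd)))) (.br (nat_lit 10) (.ch (nat_lit 8) (.ev (nat_lit 1680) (nat_lit 327680)
 (.ev (nat_lit 1716) (nat_lit 536870912) (.ev (nat_lit 1725) (nat_lit 1073741824) .dd)))) (.ch (nat_lit 10)
 (.ev (nat_lit 1680) (nat_lit 65536) (.ev (nat_lit 1892) (nat_lit 1073741824) (.ev (nat_lit 2340) (nat_lit
 262144) (.ev (nat_lit 2349) (nat_lit 536870912) .dd)))))))))))) (.ch (nat_lit 3) (.ev (nat_lit 1424) (nat_lit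
 537691138) (.nd (nat_lit 1664) (.br (nat_lit 5) (.br (nat_lit 3) (.ch (nat_lit 1) (.ev (nat_lit 1680) (nat_lit
 1073743872) (.ev (nat_lit 1728) (nat_lit 65552) .dd))) (.ch (nat_lit 3) (.ev (nat_lit 1680) (nat_lit 2064)
 (.ev (nat_lit 1716) (nat_lit 65536) (.ev (nat_lit 1725) (nat_lit 1073741824) .dd))))) (.br (nat_lit 8) (.ch
 (nat_lit 5) (.ev (nat_lit 1680) (nat_lit 65536) (.ev (nat_lit 1716) (nat_lit 1073741824) (.ev (nat_lit 1776)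
 (nat_lit 2064) .dd)))) (.br (nat_lit 12) (.ch (nat_lit 8) (.ev (nat_lit 1680) (nat_lit 2048) (.ev (nat_lit
 1716) (nat_lit 65552) (.ev (nat_lit 1725) (nat_lit 1073741824) .dd)))) (.ch (nat_lit 12) (.ev (nat_lit 1680)
 (nat_lit 65536) (.ev (nat_lit 2052) (nat_lit 16) (.fin (nat_lit 576958281269330752)))))))))))) (.br (nat_lit
 9) (.ch (nat_lit 6) (.ev (nat_lit 1424) (nat_lit 1074561024) (.ev (nat_lit 1558) (nat_lit 65536) (.nd (nat_lit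
 1664) (.br (nat_lit 6) (.br (nat_lit 3) (.ch (nat_lit 1) (.ev (nat_lit 1680) (nat_lit 1024) (.ev (nat_lit
 1776) (nat_lit 536870928) (.ev (nat_lit 1920) (nat_lit 2050) .dd)))) (.ch (nat_lit 3) (.ev (nat_lit 1680)
 (nat_lit 536874000) (.ev (nat_lit 1693) (nat_lit 2) .dd)))) (.br (nat_lit 9) (.ch (nat_lit 6) (.ev (nat_lit
 1680) (nat_lit 536871952) (.ev (nat_lit 1716) (nat_lit 2) (.ev (nat_lit 1725) (nat_lit 2048) .dd)))) (.br
 (nat_lit 11) (.ch (nat_lit 9) (.ev (nat_lit 1680) (nat_lit 536871938) (.ev (nat_lit 2340) (nat_lit 16) (.ev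
 (nat_lit 2349) (nat_lit 2048) .dd)))) (.ch (nat_lit 11) (.ev (nat_lit 1680) (nat_lit 536872960) (.ev (nat_lit
 1792) (nat_lit 1026) (.ev (nat_lit 1805) (nat_lit 16) .dd))))))))))) (.br (nat_lit 11) (.ch (nat_lit 9) (.ev
 (nat_lit 1424) (nat_lit 1610908688) (.nd (nat_lit 1664) (.br (nat_lit 7) (.br (nat_lit 4) (.ch (nat_lit 0)
 (.ev (nat_lit 1680) (nat_lit 2048) (.ev (nat_lit 2052) (nat_lit 2) (.fin (nat_lit 576364544518472152))))) (.ch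
 (nat_lit 4) (.ev (nat_lit 1680) (nat_lit 65536) (.ev (nat_lit 1716) (nat_lit 2050) (.ev (nat_lit 1725)
 (nat_lit 524288) .dd))))) (.br (nat_lit 9) (.ch (nat_lit 7) (.ev (nat_lit 1680) (nat_lit 2048) (.ev (nat_lit
 1716) (nat_lit 524288) (.ev (nat_lit 1760) (nat_lit 65538) .dd)))) (.br (nat_lit 11) (.ch (nat_lit 9) (.ev
 (nat_lit 1680) (nat_lit 65538) (.ev (nat_lit 1716) (nat_lit 2048) (.ev (nat_lit 1725) (nat_lit 524288) .dd))))
 (.ch (nat_lit 11) (.ev (nat_lit 1680) (nat_lit 589824) (.ev (nat_lit 1728) (nat_lit 2050) .dd))))))))) (.ch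
 (nat_lit 11) (.ev (nat_lit 1424) (nat_lit 1610940418) (.ev (nat_lit 1444) (nat_lit 16) (.ev (nat_lit 1574)
 (nat_lit 1024) (.nd (nat_lit 1664) (.br (nat_lit 8) (.br (nat_lit 4) (.ch (nat_lit 2) (.ev (nat_lit 1680)
 (nat_lit 2048) (.ev (nat_lit 1892) (nat_lit 524288) (.ev (nat_lit 1901) (nat_lit 32768) .dd)))) (.br (nat_lit
 6) (.ch (nat_lit 4) (.ev (nat_lit 1680) (nat_lit 34816) (.ev (nat_lit 1693) (nat_lit 524288) .dd))) (.ch
 (nat_lit 6) (.ev (nat_lit 1680) (nat_lit 557056) (.ev (nat_lit 1693) (nat_lit 2048) .dd))))) (.br (nat_lit 11)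
 (.ch (nat_lit 8) (.ev (nat_lit 1680) (nat_lit 2048) (.ev (nat_lit 1716) (nat_lit 524288) (.ev (nat_lit 1725)
 (nat_lit 32768) .dd)))) (.br (nat_lit 12) (.ch (nat_lit 11) (.ev (nat_lit 1680) (nat_lit 34816) (.ev (nat_lit
 1693) (nat_lit 524288) .dd))) (.ch (nat_lit 12) (.ev (nat_lit 1680) (nat_lit 557056) (.ev (nat_lit 1693)
 (nat_lit 2048) .dd)))))))))))))))))))) (.ch (nat_lit 62) (.ev (nat_lit 52) (nat_lit 101287168) (.ev (nat_lit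
 116) (nat_lit 536870912) (.ev (nat_lit 404) (nat_lit 262144) (.ev (nat_lit 564) (nat_lit 134217728) (.ev
 (nat_lit 628) (nat_lit 4096) (.ev (nat_lit 916) (nat_lit 128) (.ev (nat_lit 1204) (nat_lit 2) (.ev (nat_lit
 1332) (nat_lit 131072) (.nd (nat_lit 1408) (.br (nat_lit 7) (.br (nat_lit 2) (.ch (nat_lit 1) (.ev (nat_lit
 1424) (nat_lit 68736256000) (.nd (nat_lit 1664) (.br (nat_lit 8) (.br (nat_lit 4) (.ch (nat_lit 1) (.ev
 (nat_lit 1680) (nat_lit 1074790400) (.ev (nat_lit 1693) (nat_lit 16) .dd))) (.ch (nat_lit 4) (.ev (nat_lit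
 1680) (nat_lit 1048592) (.ev (nat_lit 1693) (nat_lit 1073741824) .dd)))) (.br (nat_lit 10) (.ch (nat_lit 8)
 (.ev (nat_lit 1680) (nat_lit 16) (.ev (nat_lit 2340) (nat_lit 1048576) (.ev (nat_lit 2349) (nat_lit
 1073741824) .dd)))) (.br (nat_lit 11) (.ch (nat_lit 10) (.ev (nat_lit 1892) (nat_lit 1048576) (.ev (nat_lit
 1952) (nat_lit 16) (.ev (nat_lit 1965) (nat_lit 1073741824) .dd)))) (.ch (nat_lit 11) (.ev (nat_lit 1680)
 (nat_lit 1048576) (.ev (nat_lit 1716) (nat_lit 1073741824) (.ev (nat_lit 1725) (nat_lit 16) .dd)))))))))) (.ch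
 (nat_lit 2) (.ev (nat_lit 1424) (nat_lit 69811044352) (.nd (nat_lit 1664) (.br (nat_lit 2) (.br (nat_lit 1)
 (.ch (nat_lit 0) (.ev (nat_lit 2052) (nat_lit 2048) (.ev (nat_lit 2061) (nat_lit 16) .dd))) (.ch (nat_lit 1)
 (.ev (nat_lit 1680) (nat_lit 16) (.ev (nat_lit 1693) (nat_lit 2048) .dd)))) (.br (nat_lit 3) (.ch (nat_lit 2)
 (.ev (nat_lit 1680) (nat_lit 2064) .dd)) (.br (nat_lit 11) (.ch (nat_lit 3) (.ev (nat_lit 1776) (nat_lit 2064)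
 .dd)) (.ch (nat_lit 11) (.ev (nat_lit 1680) (nat_lit 16) (.ev (nat_lit 1693) (nat_lit 2048) .dd)))))))))) (.br
 (nat_lit 9) (.ch (nat_lit 7) (.ev (nat_lit 1424) (nat_lit 69794267136) (.nd (nat_lit 1664) (.br (nat_lit 8)
 (.br (nat_lit 4) (.ch (nat_lit 0) (.ev (nat_lit 1680) (nat_lit 16) (.ev (nat_lit 1716) (nat_lit 2048) (.ev
 (nat_lit 1725) (nat_lit 16777216) .dd)))) (.ch (nat_lit 4) (.ev (nat_lit 1680) (nat_lit 16779264) (.ev
 (nat_lit 1693) (nat_lit 16) .dd)))) (.br (nat_lit 9) (.ch (nat_lit 8) (.ev (nat_lit 1680) (nat_lit 16777216)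
 (.ev (nat_lit 1776) (nat_lit 2048) (.ev (nat_lit 1789) (nat_lit 16) .dd)))) (.br (nat_lit 12) (.ch (nat_lit 9)
 (.ev (nat_lit 1680) (nat_lit 16779280) .dd)) (.ch (nat_lit 12) (.ev (nat_lit 1680) (nat_lit 16777216) (.ev
 (nat_lit 1892) (nat_lit 16) (.ev (nat_lit 1901) (nat_lit 2048) .dd)))))))))) (.br (nat_lit 11) (.ch (nat_lit
 9) (.ev (nat_lit 1424) (nat_lit 69811046416) .dd)) (.ch (nat_lit 11) (.ev (nat_lit 1424) (nat_lit 1048576)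
 (.ev (nat_lit 1444) (nat_lit 2048) (.ev (nat_lit 1590) (nat_lit 16777216) (.nd (nat_lit 1664) (.br (nat_lit 5)
 (.br (nat_lit 2) (.ch (nat_lit 0) (.ev (nat_lit 1680) (nat_lit 16) (.ev (nat_lit 2180) (nat_lit 68719476736)
 (.ev (nat_lit 2189) (nat_lit 1073741824) .dd)))) (.br (nat_lit 4) (.ch (nat_lit 2) (.ev (nat_lit 1680)
 (nat_lit 1073741840) (.ev (nat_lit 1693) (nat_lit 68719476736) .dd))) (.ch (nat_lit 4) (.ev (nat_lit 1716)
 (nat_lit 1073741824) (.ev (nat_lit 2180) (nat_lit 68719476736) (.ev (nat_lit 2189) (nat_lit 16) .dd)))))) (.br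
 (nat_lit 10) (.ch (nat_lit 5) (.ev (nat_lit 1680) (nat_lit 69793218560) (.ev (nat_lit 1693) (nat_lit 16)
 .dd))) (.br (nat_lit 11) (.ch (nat_lit 10) (.ev (nat_lit 1680) (nat_lit 68719476752) (.ev (nat_lit 1693)
 (nat_lit 1073741824) .dd))) (.ch (nat_lit 11) (.ev (nat_lit 1680) (nat_lit 68719476736) (.ev (nat_lit 2052)
 (nat_lit 1073741824) (.ev (nat_lit 2061) (nat_lit 16) .dd)))))))))))))))))))))))))))) (.br (nat_lit 68) (.br
 (nat_lit 65) (.ch (nat_lit 64) (.ev (nat_lit 52) (nat_lit 671356946) (.ev (nat_lit 116) (nat_lit 68719476736)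
 (.ev (nat_lit 596) (nat_lit 524288) (.ev (nat_lit 788) (nat_lit 1073741824) (.ev (nat_lit 1172) (nat_lit 256)
 (.nd (nat_lit 1408) (.br (nat_lit 8) (.br (nat_lit 6) (.ch (nat_lit 1) (.ev (nat_lit 1424) (nat_lit 50529280)
 (.nd (nat_lit 1664) (.br (nat_lit 5) (.br (nat_lit 3) (.ch (nat_lit 1) (.ev (nat_lit 1680) (nat_lit 1048576)
 (.ev (nat_lit 1716) (nat_lit 32768) (.ev (nat_lit 1728) (nat_lit 67108864) (.ev (nat_lit 1741) (nat_lit 128)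
 .dd))))) (.br (nat_lit 4) (.ch (nat_lit 3) (.ev (nat_lit 1680) (nat_lit 68157440) (.ev (nat_lit 1716) (nat_lit
 128) (.ev (nat_lit 1725) (nat_lit 32768) .dd)))) (.ch (nat_lit 4) (.ev (nat_lit 1680) (nat_lit 68190208) (.ev
 (nat_lit 1693) (nat_lit 128) .dd))))) (.br (nat_lit 8) (.ch (nat_lit 5) (.ev (nat_lit 1680) (nat_lit 68190208)
 (.ev (nat_lit 1693) (nat_lit 128) .dd))) (.br (nat_lit 11) (.ch (nat_lit 8) (.ev (nat_lit 1680) (nat_lit 128)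
 (.ev (nat_lit 1892) (nat_lit 1048576) (.ev (nat_lit 2052) (nat_lit 32768) (.ev (nat_lit 2061) (nat_lit
 67108864) .dd))))) (.ch (nat_lit 11) (.ev (nat_lit 1680) (nat_lit 68157440) (.ev (nat_lit 2192) (nat_lit
 32768) (.ev (nat_lit 2205) (nat_lit 128) .dd)))))))))) (.br (nat_lit 7) (.ch (nat_lit 6) (.ev (nat_lit 1424)
 (nat_lit 34734208) (.nd (nat_lit 1664) (.br (nat_lit 6) (.br (nat_lit 2) (.ch (nat_lit 0) (.ev (nat_lit 1680)
 (nat_lit 67142656) (.ev (nat_lit 1716) (nat_lit 16777216) (.ev (nat_lit 1725) (nat_lit 65536) .dd)))) (.br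
 (nat_lit 4) (.ch (nat_lit 2) (.ev (nat_lit 1680) (nat_lit 99328) (.ev (nat_lit 1716) (nat_lit 67108864) (.ev
 (nat_lit 1725) (nat_lit 16777216) .dd)))) (.ch (nat_lit 4) (.ev (nat_lit 1680) (nat_lit 16843776) (.ev
 (nat_lit 2496) (nat_lit 67141632) .dd))))) (.br (nat_lit 9) (.ch (nat_lit 6) (.ev (nat_lit 1680) (nat_lit
 67208192) (.ev (nat_lit 1693) (nat_lit 16777216) .dd))) (.br (nat_lit 11) (.ch (nat_lit 9) (.ev (nat_lit 1680)
 (nat_lit 16778240) (.ev (nat_lit 1716) (nat_lit 65536) (.ev (nat_lit 1892) (nat_lit 32768) (.ev (nat_lit 1901)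
 (nat_lit 67108864) .dd))))) (.ch (nat_lit 11) (.ev (nat_lit 1680) (nat_lit 83918848) (.ev (nat_lit 1716)
 (nat_lit 1024) (.ev (nat_lit 1725) (nat_lit 65536) .dd)))))))))) (.ch (nat_lit 7) (.ev (nat_lit 1424) (nat_lit
 17858560) (.nd (nat_lit 1664) (.br (nat_lit 4) (.br (nat_lit 2) (.ch (nat_lit 0) (.ev (nat_lit 1680) (nat_lit
 67306624) (.ev (nat_lit 1693) (nat_lit 33554432) .dd))) (.br (nat_lit 3) (.ch (nat_lit 2) (.ev (nat_lit 1680)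
 (nat_lit 100664320) (.ev (nat_lit 1716) (nat_lit 128) (.ev (nat_lit 2052) (nat_lit 131072) (.ev (nat_lit 2061)
 (nat_lit 65536) .dd))))) (.ch (nat_lit 3) (.ev (nat_lit 1680) (nat_lit 196736) (.ev (nat_lit 1744) (nat_lit
 1024) (.ev (nat_lit 2340) (nat_lit 33554432) (.ev (nat_lit 2349) (nat_lit 67108864) .dd))))))) (.br (nat_lit
 8) (.ch (nat_lit 4) (.ev (nat_lit 1680) (nat_lit 33619968) (.ev (nat_lit 1892) (nat_lit 128) (.ev (nat_lit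
 2180) (nat_lit 67108864) (.ev (nat_lit 2644) (nat_lit 131072) (.ev (nat_lit 2653) (nat_lit 1024) .dd))))))
 (.br (nat_lit 12) (.ch (nat_lit 8) (.ev (nat_lit 1680) (nat_lit 100795392) (.ev (nat_lit 1840) (nat_lit 65536)
 (.ev (nat_lit 1853) (nat_lit 128) .dd)))) (.ch (nat_lit 12) (.ev (nat_lit 1680) (nat_lit 33555456) (.ev
 (nat_lit 1716) (nat_lit 131072) (.ev (nat_lit 2180) (nat_lit 128) (.fin (nat_lit
 576434913776452186)))))))))))))) (.br (nat_lit 9) (.ch (nat_lit 8) (.ev (nat_lit 1424) (nat_lit 100893696)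
 (.nd (nat_lit 1664) (.br (nat_lit 7) (.br (nat_lit 4) (.ch (nat_lit 2) (.ev (nat_lit 1680) (nat_lit 1048704)
 (.ev (nat_lit 1693) (nat_lit 16777216) .dd))) (.br (nat_lit 5) (.ch (nat_lit 4) (.ev (nat_lit 1680) (nat_lit
 17825920) .dd)) (.ch (nat_lit 5) (.ev (nat_lit 1680) (nat_lit 16777216) (.fin (nat_lit
 576250195393069336)))))) (.br (nat_lit 10) (.ch (nat_lit 7) (.ev (nat_lit 1680) (nat_lit 1048576) (.ev
 (nat_lit 2052) (nat_lit 128) (.ev (nat_lit 2061) (nat_lit 16777216) .dd)))) (.br (nat_lit 12) (.ch (nat_lit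
 10) (.ev (nat_lit 1680) (nat_lit 1048704) (.ev (nat_lit 1693) (nat_lit 16777216) .dd))) (.ch (nat_lit 12) (.ev
 (nat_lit 1680) (nat_lit 16777216) (.ev (nat_lit 2180) (nat_lit 1048576) (.ev (nat_lit 2189) (nat_lit 128)
 .dd)))))))))) (.br (nat_lit 11) (.ch (nat_lit 9) (.ev (nat_lit 1424) (nat_lit 51414016) (.nd (nat_lit 1664)
 (.br (nat_lit 9) (.br (nat_lit 7) (.ch (nat_lit 4) (.ev (nat_lit 1680) (nat_lit 196736) (.ev (nat_lit 1693)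
 (nat_lit 67108864) .dd))) (.br (nat_lit 8) (.ch (nat_lit 7) (.ev (nat_lit 1680) (nat_lit 67108864) (.ev
 (nat_lit 1892) (nat_lit 65536) (.ev (nat_lit 2224) (nat_lit 131072) (.ev (nat_lit 2237) (nat_lit 128) .dd)))))
 (.ch (nat_lit 8) (.ev (nat_lit 1680) (nat_lit 65536) (.ev (nat_lit 1892) (nat_lit 67108864) (.ev (nat_lit
 2080) (nat_lit 131072) (.ev (nat_lit 2093) (nat_lit 128) .dd))))))) (.br (nat_lit 10) (.ch (nat_lit 9) (.ev
 (nat_lit 1680) (nat_lit 131200) (.ev (nat_lit 2340) (nat_lit 65536) (.ev (nat_lit 2349) (nat_lit 67108864)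
 .dd)))) (.br (nat_lit 11) (.ch (nat_lit 10) (.ev (nat_lit 2096) (nat_lit 65536) (.ev (nat_lit 2224) (nat_lit
 67108864) (.fin (nat_lit 576333758612325020))))) (.ch (nat_lit 11) (.ev (nat_lit 1680) (nat_lit 67305600)
 .dd)))))))) (.ch (nat_lit 11) (.ev (nat_lit 1424) (nat_lit 101745792) (.nd (nat_lit 1664) (.br (nat_lit 10)
 (.br (nat_lit 5) (.ch (nat_lit 4) (.ev (nat_lit 1680) (nat_lit 16908288) (.ev (nat_lit 1693) (nat_lit 65536)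
 .dd))) (.ch (nat_lit 5) (.ev (nat_lit 1680) (nat_lit 16842752) (.ev (nat_lit 1693) (nat_lit 131072) .dd))))
 (.br (nat_lit 11) (.ch (nat_lit 10) (.ev (nat_lit 1680) (nat_lit 16842752) (.ev (nat_lit 1693) (nat_lit
 131072) .dd))) (.br (nat_lit 12) (.ch (nat_lit 11) (.ev (nat_lit 1680) (nat_lit 65536) (.ev (nat_lit 1808)
 (nat_lit 16777216) (.ev (nat_lit 1821) (nat_lit 131072) .dd)))) (.ch (nat_lit 12) (.ev (nat_lit 1680) (nat_lit
 16777216) (.ev (nat_lit 1892) (nat_lit 65536) (.ev (nat_lit 1901) (nat_lit 131072) .dd))))))))))))))))))))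
 (.br (nat_lit 67) (.ch (nat_lit 65) (.ev (nat_lit 52) (nat_lit 16812162) (.ev (nat_lit 96) (nat_lit
 70567007504) .dd))) (.ch (nat_lit 67) (.ev (nat_lit 52) (nat_lit 1711343618) (.ev (nat_lit 468) (nat_lit
 262144) (.ev (nat_lit 660) (nat_lit 128) (.ev (nat_lit 692) (nat_lit 16777216) (.ev (nat_lit 820) (nat_lit
 524288) (.nd (nat_lit 1408) (.br (nat_lit 6) (.br (nat_lit 1) (.ch (nat_lit 0) (.ev (nat_lit 1424) (nat_lit
 68720563472) (.nd (nat_lit 1664) (.br (nat_lit 5) (.br (nat_lit 4) (.ch (nat_lit 1) (.ev (nat_lit 1892)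
 (nat_lit 131072) (.ev (nat_lit 1901) (nat_lit 134217728) .dd))) (.ch (nat_lit 4) (.ev (nat_lit 1680) (nat_lit
 134348800) .dd))) (.br (nat_lit 8) (.ch (nat_lit 5) (.ev (nat_lit 1716) (nat_lit 131072) (.ev (nat_lit 1725)
 (nat_lit 134217728) .dd))) (.br (nat_lit 12) (.ch (nat_lit 8) (.ev (nat_lit 1680) (nat_lit 131072) (.ev
 (nat_lit 1693) (nat_lit 134217728) .dd))) (.ch (nat_lit 12) (.ev (nat_lit 1680) (nat_lit 134348800)
 .dd)))))))) (.br (nat_lit 3) (.ch (nat_lit 1) (.ev (nat_lit 1424) (nat_lit 68719482112) (.nd (nat_lit 1664)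
 (.br (nat_lit 6) (.br (nat_lit 4) (.ch (nat_lit 3) (.ev (nat_lit 1680) (nat_lit 1048576) (.ev (nat_lit 2052)
 (nat_lit 134217728) (.ev (nat_lit 2180) (nat_lit 32768) (.ev (nat_lit 2192) (nat_lit 131072) (.ev (nat_lit
 2205) (nat_lit 16) .dd)))))) (.br (nat_lit 5) (.ch (nat_lit 4) (.ev (nat_lit 1680) (nat_lit 135430144) (.ev
 (nat_lit 1693) (nat_lit 16) .dd))) (.ch (nat_lit 5) (.ev (nat_lit 1680) (nat_lit 135299088) (.ev (nat_lit
 1693) (nat_lit 131072) .dd))))) (.br (nat_lit 10) (.ch (nat_lit 6) (.ev (nat_lit 1680) (nat_lit 134348800)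
 (.ev (nat_lit 1744) (nat_lit 16) (.ev (nat_lit 1904) (nat_lit 1048576) (.ev (nat_lit 1917) (nat_lit 32768)
 .dd))))) (.br (nat_lit 11) (.ch (nat_lit 10) (.ev (nat_lit 1680) (nat_lit 134348800) (.ev (nat_lit 1892)
 (nat_lit 32768) (.ev (nat_lit 2180) (nat_lit 1048576) (.ev (nat_lit 2189) (nat_lit 16) .dd))))) (.ch (nat_lit
 11) (.ev (nat_lit 1680) (nat_lit 1048576) (.ev (nat_lit 1716) (nat_lit 131072) (.ev (nat_lit 2416) (nat_lit
 16) (.fin (nat_lit 576333758528438820)))))))))))) (.ch (nat_lit 3) (.ev (nat_lit 1424) (nat_lit 135402512)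
 (.nd (nat_lit 1664) (.br (nat_lit 9) (.br (nat_lit 1) (.ch (nat_lit 0) (.ev (nat_lit 1680) (nat_lit
 68719509504) (.ev (nat_lit 1693) (nat_lit 256) .dd))) (.br (nat_lit 8) (.ch (nat_lit 1) (.ev (nat_lit 1680)
 (nat_lit 68719509504) (.ev (nat_lit 1693) (nat_lit 256) .dd))) (.ch (nat_lit 8) (.ev (nat_lit 1680) (nat_lit
 256) (.ev (nat_lit 1728) (nat_lit 32768) (.ev (nat_lit 1741) (nat_lit 68719476736) .dd)))))) (.br (nat_lit 11)
 (.ch (nat_lit 9) (.ev (nat_lit 1680) (nat_lit 32768) (.ev (nat_lit 1892) (nat_lit 256) (.ev (nat_lit 1901)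
 (nat_lit 68719476736) .dd)))) (.br (nat_lit 12) (.ch (nat_lit 11) (.ev (nat_lit 1936) (nat_lit 68719476736)
 (.ev (nat_lit 2484) (nat_lit 256) (.ev (nat_lit 2493) (nat_lit 32768) .dd)))) (.ch (nat_lit 12) (.ev (nat_lit
 1680) (nat_lit 68719509504) (.ev (nat_lit 1693) (nat_lit 256) .dd))))))))))) (.br (nat_lit 7) (.ch (nat_lit 6)
 (.ev (nat_lit 1424) (nat_lit 68719509760) (.nd (nat_lit 1664) (.br (nat_lit 4) (.br (nat_lit 2) (.ch (nat_lit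
 1) (.ev (nat_lit 1680) (nat_lit 134218752) (.ev (nat_lit 2484) (nat_lit 131072) (.ev (nat_lit 2644) (nat_lit
 4096) (.fin (nat_lit 576676806324077228)))))) (.br (nat_lit 3) (.ch (nat_lit 2) (.ev (nat_lit 1680) (nat_lit
 135267344) (.ev (nat_lit 1716) (nat_lit 4096) (.ev (nat_lit 1725) (nat_lit 131072) .dd)))) (.ch (nat_lit 3)
 (.ev (nat_lit 1680) (nat_lit 1052672) (.ev (nat_lit 1892) (nat_lit 131072) (.ev (nat_lit 1904) (nat_lit 1024)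
 (.ev (nat_lit 2180) (nat_lit 16) (.ev (nat_lit 2189) (nat_lit 134217728) .dd)))))))) (.br (nat_lit 6) (.ch
 (nat_lit 4) (.ev (nat_lit 1680) (nat_lit 135401472) (.ev (nat_lit 2064) (nat_lit 1024) (.ev (nat_lit 2077)
 (nat_lit 16) .dd)))) (.br (nat_lit 9) (.ch (nat_lit 6) (.ev (nat_lit 1680) (nat_lit 132112) (.ev (nat_lit
 1892) (nat_lit 4096) (.ev (nat_lit 2064) (nat_lit 1048576) (.ev (nat_lit 2077) (nat_lit 134217728) .dd)))))
 (.ch (nat_lit 9) (.ev (nat_lit 1680) (nat_lit 1024) (.ev (nat_lit 2064) (nat_lit 16) (.ev (nat_lit 2192)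
 (nat_lit 4096) (.ev (nat_lit 2884) (nat_lit 131072) (.ev (nat_lit 3168) (nat_lit 135266304) .dd))))))))))))
 (.br (nat_lit 9) (.ch (nat_lit 7) (.ev (nat_lit 1424) (nat_lit 134381568) (.nd (nat_lit 1664) (.br (nat_lit 8)
 (.br (nat_lit 2) (.ch (nat_lit 0) (.ev (nat_lit 1680) (nat_lit 68719482112) (.ev (nat_lit 1936) (nat_lit
 1048576) (.ev (nat_lit 1949) (nat_lit 16) .dd)))) (.ch (nat_lit 2) (.ev (nat_lit 1680) (nat_lit 68719480848)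
 (.ev (nat_lit 1728) (nat_lit 1280) (.ev (nat_lit 1741) (nat_lit 1048576) .dd))))) (.br (nat_lit 9) (.ch
 (nat_lit 8) (.ev (nat_lit 1680) (nat_lit 1049856) (.ev (nat_lit 1716) (nat_lit 4096) (.ev (nat_lit 1728)
 (nat_lit 68719476752) .dd)))) (.br (nat_lit 12) (.ch (nat_lit 9) (.ev (nat_lit 1680) (nat_lit 68719478032)
 (.ev (nat_lit 2052) (nat_lit 4096) (.ev (nat_lit 2061) (nat_lit 1048576) .dd)))) (.ch (nat_lit 12) (.ev
 (nat_lit 1680) (nat_lit 5376) (.ev (nat_lit 1892) (nat_lit 1048576) (.ev (nat_lit 2096) (nat_lit 68719476736)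
 (.ev (nat_lit 2109) (nat_lit 16) .dd))))))))))) (.ch (nat_lit 9) (.ev (nat_lit 1424) (nat_lit 135300368) (.nd
 (nat_lit 1664) (.br (nat_lit 9) (.br (nat_lit 4) (.ch (nat_lit 0) (.ev (nat_lit 1680) (nat_lit 68719611904)
 .dd)) (.br (nat_lit 5) (.ch (nat_lit 4) (.ev (nat_lit 1680) (nat_lit 68719480832) (.ev (nat_lit 1693) (nat_lit
 131072) .dd))) (.ch (nat_lit 5) (.ev (nat_lit 1680) (nat_lit 68719607808) (.ev (nat_lit 1693) (nat_lit 4096)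
 .dd))))) (.br (nat_lit 10) (.ch (nat_lit 9) (.ev (nat_lit 1680) (nat_lit 135168) (.ev (nat_lit 1693) (nat_lit
 68719476736) .dd))) (.br (nat_lit 11) (.ch (nat_lit 10) (.ev (nat_lit 1728) (nat_lit 68719476736) (.ev
 (nat_lit 1808) (nat_lit 4096) (.ev (nat_lit 1821) (nat_lit 131072) .dd)))) (.ch (nat_lit 11) (.ev (nat_lit
 1776) (nat_lit 131072) (.ev (nat_lit 2112) (nat_lit 68719476736) (.ev (nat_lit 2125) (nat_lit 4096)
 .dd)))))))))))))))))))))) (.br (nat_lit 69) (.ch (nat_lit 68) (.ev (nat_lit 52) (nat_lit 1276217600) (.ev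
 (nat_lit 180) (nat_lit 68719476736) (.ev (nat_lit 532) (nat_lit 536870912) (.ev (nat_lit 916) (nat_lit 524288)
 (.ev (nat_lit 1140) (nat_lit 1024) (.nd (nat_lit 1408) (.br (nat_lit 3) (.br (nat_lit 1) (.ch (nat_lit 0) (.ev
 (nat_lit 1424) (nat_lit 50466960) (.nd (nat_lit 1664) (.br (nat_lit 6) (.br (nat_lit 2) (.ch (nat_lit 1) (.ev
 (nat_lit 1680) (nat_lit 262146) .dd)) (.br (nat_lit 4) (.ch (nat_lit 2) (.ev (nat_lit 1680) (nat_lit 262144)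
 (.ev (nat_lit 1693) (nat_lit 2) .dd))) (.ch (nat_lit 4) (.ev (nat_lit 1680) (nat_lit 262144) (.ev (nat_lit
 1693) (nat_lit 2) .dd))))) (.br (nat_lit 8) (.br (nat_lit 7) (.ch (nat_lit 6) (.ev (nat_lit 1696) (nat_lit
 262146) .dd)) (.ch (nat_lit 7) (.ev (nat_lit 1680) (nat_lit 2) (.ev (nat_lit 1693) (nat_lit 262144) .dd))))
 (.br (nat_lit 12) (.ch (nat_lit 8) (.ev (nat_lit 1680) (nat_lit 262146) .dd)) (.ch (nat_lit 12) (.ev (nat_lit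
 1716) (nat_lit 2) (.ev (nat_lit 1725) (nat_lit 262144) .dd))))))))) (.br (nat_lit 2) (.ch (nat_lit 1) (.ev
 (nat_lit 1424) (nat_lit 16777232) (.nd (nat_lit 1664) (.br (nat_lit 5) (.br (nat_lit 3) (.ch (nat_lit 0) (.ev
 (nat_lit 1680) (nat_lit 33947778) (.ev (nat_lit 1693) (nat_lit 4096) .dd))) (.br (nat_lit 4) (.ch (nat_lit 3)
 (.ev (nat_lit 1680) (nat_lit 33816706) (.ev (nat_lit 1716) (nat_lit 131072) (.ev (nat_lit 1725) (nat_lit 4096)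
 .dd)))) (.ch (nat_lit 4) (.ev (nat_lit 1680) (nat_lit 135170) (.ev (nat_lit 2052) (nat_lit 128) (.ev (nat_lit
 2192) (nat_lit 33554432) (.ev (nat_lit 2205) (nat_lit 262144) .dd))))))) (.br (nat_lit 6) (.ch (nat_lit 5)
 (.ev (nat_lit 1680) (nat_lit 33558656) (.ev (nat_lit 1716) (nat_lit 2) (.ev (nat_lit 2052) (nat_lit 131072)
 (.ev (nat_lit 2061) (nat_lit 262144) .dd))))) (.br (nat_lit 11) (.ch (nat_lit 6) (.ev (nat_lit 1680) (nat_lit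
 33947778) (.ev (nat_lit 1693) (nat_lit 4096) .dd))) (.ch (nat_lit 11) (.ev (nat_lit 1680) (nat_lit 33558530)
 (.ev (nat_lit 1716) (nat_lit 131072) (.ev (nat_lit 2180) (nat_lit 128) (.ev (nat_lit 2189) (nat_lit 262144)
 .dd))))))))))) (.ch (nat_lit 2) (.ev (nat_lit 1424) (nat_lit 16908290) (.nd (nat_lit 1664) (.br (nat_lit 3)
 (.br (nat_lit 1) (.ch (nat_lit 0) (.ev (nat_lit 1680) (nat_lit 4240) (.ev (nat_lit 1728) (nat_lit 33816576)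
 .dd))) (.ch (nat_lit 1) (.ev (nat_lit 1680) (nat_lit 33558672) (.ev (nat_lit 1693) (nat_lit 262144) .dd))))
 (.br (nat_lit 6) (.ch (nat_lit 3) (.ev (nat_lit 1680) (nat_lit 4096) (.ev (nat_lit 1716) (nat_lit 33554448)
 (.ev (nat_lit 2224) (nat_lit 262144) (.ev (nat_lit 2237) (nat_lit 128) .dd))))) (.br (nat_lit 12) (.ch
 (nat_lit 6) (.ev (nat_lit 1680) (nat_lit 33554560) (.ev (nat_lit 1892) (nat_lit 16) (.ev (nat_lit 2052)
 (nat_lit 4096) (.ev (nat_lit 2061) (nat_lit 262144) .dd))))) (.ch (nat_lit 12) (.ev (nat_lit 1680) (nat_lit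
 262272) (.ev (nat_lit 1716) (nat_lit 33554448) (.ev (nat_lit 1725) (nat_lit 4096) .dd)))))))))))) (.br
 (nat_lit 9) (.ch (nat_lit 3) (.ev (nat_lit 1424) (nat_lit 266370) (.ev (nat_lit 1444) (nat_lit 16) (.nd
 (nat_lit 1664) (.br (nat_lit 8) (.br (nat_lit 3) (.ch (nat_lit 0) (.ev (nat_lit 1680) (nat_lit 33554432) (.ev
 (nat_lit 1728) (nat_lit 16908288) .dd))) (.br (nat_lit 5) (.ch (nat_lit 3) (.ev (nat_lit 1680) (nat_lit
 50331648) (.ev (nat_lit 1693) (nat_lit 131072) .dd))) (.ch (nat_lit 5) (.ev (nat_lit 1680) (nat_lit 33685504)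
 (.ev (nat_lit 1693) (nat_lit 16777216) .dd))))) (.br (nat_lit 11) (.ch (nat_lit 8) (.ev (nat_lit 1680)
 (nat_lit 131072) (.fin (nat_lit 576452505964593726)))) (.br (nat_lit 12) (.ch (nat_lit 11) (.ev (nat_lit 1680)
 (nat_lit 16908288) (.ev (nat_lit 1693) (nat_lit 33554432) .dd))) (.ch (nat_lit 12) (.ev (nat_lit 1680)
 (nat_lit 50331648) (.ev (nat_lit 1693) (nat_lit 131072) .dd)))))))))) (.br (nat_lit 11) (.ch (nat_lit 9) (.ev
 (nat_lit 1424) (nat_lit 50597906) (.nd (nat_lit 1664) (.br (nat_lit 8) (.br (nat_lit 6) (.ch (nat_lit 0) (.ev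
 (nat_lit 1680) (nat_lit 131200) .dd)) (.ch (nat_lit 6) (.ev (nat_lit 2340) (nat_lit 131072) (.ev (nat_lit
 2349) (nat_lit 128) .dd)))) (.br (nat_lit 9) (.ch (nat_lit 8) (.ev (nat_lit 1680) (nat_lit 128) (.ev (nat_lit
 1693) (nat_lit 131072) .dd))) (.ch (nat_lit 9) (.ev (nat_lit 1680) (nat_lit 131072) (.ev (nat_lit 1693)
 (nat_lit 128) .dd)))))))) (.ch (nat_lit 11) (.ev (nat_lit 1424) (nat_lit 33947794) (.nd (nat_lit 1664) (.br
 (nat_lit 5) (.br (nat_lit 2) (.ch (nat_lit 0) (.ev (nat_lit 1680) (nat_lit 16781312) .dd)) (.br (nat_lit 4)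
 (.ch (nat_lit 2) (.ev (nat_lit 1680) (nat_lit 4096) (.ev (nat_lit 1693) (nat_lit 16777216) .dd))) (.ch
 (nat_lit 4) (.ev (nat_lit 1680) (nat_lit 16777216) (.ev (nat_lit 1693) (nat_lit 4096) .dd))))) (.br (nat_lit
 6) (.ch (nat_lit 5) (.ev (nat_lit 1680) (nat_lit 16781312) .dd)) (.br (nat_lit 11) (.ch (nat_lit 6) (.ev
 (nat_lit 1680) (nat_lit 16777216) (.ev (nat_lit 1693) (nat_lit 4096) .dd))) (.ch (nat_lit 11) (.ev (nat_lit
 1716) (nat_lit 4096) (.ev (nat_lit 1725) (nat_lit 16777216) .dd))))))))))))))))))) (.br (nat_lit 70) (.ch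
 (nat_lit 69) (.ev (nat_lit 52) (nat_lit 69256742162) (.ev (nat_lit 596) (nat_lit 128) (.ev (nat_lit 724)
 (nat_lit 6144) (.ev (nat_lit 1236) (nat_lit 1073741824) (.nd (nat_lit 1408) (.br (nat_lit 8) (.br (nat_lit 3)
 (.ch (nat_lit 0) (.ev (nat_lit 1424) (nat_lit 152666112) (.nd (nat_lit 1664) (.br (nat_lit 6) (.br (nat_lit 2)
 (.ch (nat_lit 1) (.ev (nat_lit 1680) (nat_lit 33554432) (.ev (nat_lit 1693) (nat_lit 67108864) .dd))) (.br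
 (nat_lit 3) (.ch (nat_lit 2) (.ev (nat_lit 3040) (nat_lit 33554432) (.ev (nat_lit 3053) (nat_lit 67108864)
 .dd))) (.ch (nat_lit 3) (.ev (nat_lit 2644) (nat_lit 33554432) (.ev (nat_lit 2653) (nat_lit 67108864) .dd)))))
 (.br (nat_lit 8) (.ch (nat_lit 6) (.ev (nat_lit 1680) (nat_lit 100663296) .dd)) (.br (nat_lit 12) (.ch
 (nat_lit 8) (.ev (nat_lit 1680) (nat_lit 100663296) .dd)) (.ch (nat_lit 12) (.ev (nat_lit 1680) (nat_lit
 67108864) (.ev (nat_lit 1693) (nat_lit 33554432) .dd))))))))) (.br (nat_lit 6) (.ch (nat_lit 3) (.ev (nat_lit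
 1424) (nat_lit 68190208) (.nd (nat_lit 1664) (.br (nat_lit 10) (.br (nat_lit 8) (.ch (nat_lit 0) (.ev (nat_lit
 1680) (nat_lit 50397184) (.ev (nat_lit 2400) (nat_lit 134742016) .dd))) (.br (nat_lit 9) (.ch (nat_lit 8) (.ev
 (nat_lit 1680) (nat_lit 134807552) (.fin (nat_lit 576452505964593726)))) (.ch (nat_lit 9) (.ev (nat_lit 1680)
 (nat_lit 34144256) (.ev (nat_lit 1892) (nat_lit 16777216) (.ev (nat_lit 1901) (nat_lit 134217728) .dd))))))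
 (.br (nat_lit 11) (.ch (nat_lit 10) (.ev (nat_lit 1680) (nat_lit 34078720) (.ev (nat_lit 1716) (nat_lit
 16777216) (.ev (nat_lit 2788) (nat_lit 65536) (.ev (nat_lit 2797) (nat_lit 134217728) .dd))))) (.br (nat_lit
 12) (.ch (nat_lit 11) (.ev (nat_lit 1680) (nat_lit 17367040) (.ev (nat_lit 1716) (nat_lit 33554432) (.ev
 (nat_lit 1725) (nat_lit 134217728) .dd)))) (.ch (nat_lit 12) (.ev (nat_lit 1680) (nat_lit 184614912) (.ev
 (nat_lit 1693) (nat_lit 524288) .dd))))))))) (.ch (nat_lit 6) (.ev (nat_lit 1424) (nat_lit 51380224) (.nd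
 (nat_lit 1664) (.br (nat_lit 6) (.br (nat_lit 4) (.ch (nat_lit 0) (.ev (nat_lit 1680) (nat_lit 67174400) (.ev
 (nat_lit 1744) (nat_lit 32768) (.ev (nat_lit 2352) (nat_lit 134217728) (.ev (nat_lit 2365) (nat_lit 524288)
 .dd))))) (.br (nat_lit 5) (.ch (nat_lit 4) (.ev (nat_lit 1680) (nat_lit 524288) (.ev (nat_lit 1716) (nat_lit
 134217728) (.ev (nat_lit 1892) (nat_lit 65536) (.ev (nat_lit 3092) (nat_lit 32768) (.ev (nat_lit 3101)
 (nat_lit 67108864) .dd)))))) (.ch (nat_lit 5) (.ev (nat_lit 1680) (nat_lit 201850880) (.ev (nat_lit 2352)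
 (nat_lit 98304) .dd))))) (.br (nat_lit 9) (.ch (nat_lit 6) (.ev (nat_lit 1680) (nat_lit 67698688) (.ev
 (nat_lit 1744) (nat_lit 134250496) .dd))) (.br (nat_lit 11) (.ch (nat_lit 9) (.ev (nat_lit 1680) (nat_lit
 589824) (.ev (nat_lit 1716) (nat_lit 67108864) (.ev (nat_lit 2180) (nat_lit 32768) (.ev (nat_lit 2189)
 (nat_lit 134217728) .dd))))) (.ch (nat_lit 11) (.ev (nat_lit 1680) (nat_lit 201883648) (.ev (nat_lit 1693)
 (nat_lit 65536) .dd))))))))))) (.br (nat_lit 9) (.ch (nat_lit 8) (.ev (nat_lit 1424) (nat_lit 83918848) (.nd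
 (nat_lit 1664) (.br (nat_lit 9) (.br (nat_lit 6) (.ch (nat_lit 2) (.ev (nat_lit 1680) (nat_lit 34668544) (.ev
 (nat_lit 1728) (nat_lit 524288) (.ev (nat_lit 1741) (nat_lit 134217728) .dd)))) (.ch (nat_lit 6) (.ev (nat_lit
 1680) (nat_lit 167772160) (.ev (nat_lit 1716) (nat_lit 589824) (.ev (nat_lit 1725) (nat_lit 1048576) .dd)))))
 (.br (nat_lit 10) (.ch (nat_lit 9) (.ev (nat_lit 1680) (nat_lit 135790592) (.ev (nat_lit 1716) (nat_lit 65536)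
 (.ev (nat_lit 1725) (nat_lit 33554432) .dd)))) (.ch (nat_lit 10) (.ev (nat_lit 1680) (nat_lit 35192832) (.ev
 (nat_lit 1693) (nat_lit 134217728) .dd)))))))) (.br (nat_lit 11) (.ch (nat_lit 9) (.ev (nat_lit 1424) (nat_lit
 50364416) (.nd (nat_lit 1664) (.br (nat_lit 6) (.br (nat_lit 4) (.ch (nat_lit 0) (.ev (nat_lit 1680) (nat_lit
 201326592) (.ev (nat_lit 2644) (nat_lit 524288) (.ev (nat_lit 2852) (nat_lit 1048576) (.ev (nat_lit 2861)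
 (nat_lit 65536) .dd))))) (.ch (nat_lit 4) (.ev (nat_lit 1680) (nat_lit 135856128) (.ev (nat_lit 1693) (nat_lit
 67108864) .dd)))) (.br (nat_lit 7) (.ch (nat_lit 6) (.ev (nat_lit 1680) (nat_lit 1638400) (.ev (nat_lit 1840)
 (nat_lit 134217728) (.ev (nat_lit 1853) (nat_lit 67108864) .dd)))) (.br (nat_lit 8) (.ch (nat_lit 7) (.ev
 (nat_lit 1680) (nat_lit 67174400) (.ev (nat_lit 2368) (nat_lit 134217728) (.ev (nat_lit 3092) (nat_lit 524288)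
 (.ev (nat_lit 3101) (nat_lit 1048576) .dd))))) (.ch (nat_lit 8) (.ev (nat_lit 1680) (nat_lit 65536) (.ev
 (nat_lit 1952) (nat_lit 524288) (.ev (nat_lit 2052) (nat_lit 134217728) (.ev (nat_lit 2180) (nat_lit 1048576)
 (.ev (nat_lit 2189) (nat_lit 67108864) .dd)))))))))))) (.ch (nat_lit 11) (.ev (nat_lit 1424) (nat_lit
 168919040) (.nd (nat_lit 1664) (.br (nat_lit 6) (.br (nat_lit 4) (.ch (nat_lit 2) (.ev (nat_lit 1680) (nat_lit
 67108864) (.ev (nat_lit 1716) (nat_lit 524288) (.ev (nat_lit 1725) (nat_lit 16777216) .dd)))) (.br (nat_lit 5)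
 (.ch (nat_lit 4) (.ev (nat_lit 1680) (nat_lit 16777216) (.ev (nat_lit 1716) (nat_lit 524288) (.ev (nat_lit
 1725) (nat_lit 67108864) .dd)))) (.ch (nat_lit 5) (.ev (nat_lit 1680) (nat_lit 84410368) .dd)))) (.br (nat_lit
 10) (.ch (nat_lit 6) (.ev (nat_lit 1680) (nat_lit 17301504) (.ev (nat_lit 1693) (nat_lit 67108864) .dd))) (.br
 (nat_lit 11) (.ch (nat_lit 10) (.ev (nat_lit 1680) (nat_lit 83886080) (.ev (nat_lit 1693) (nat_lit 524288)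
 .dd))) (.ch (nat_lit 11) (.ev (nat_lit 1680) (nat_lit 67108864) (.ev (nat_lit 1716) (nat_lit 524288) (.ev
 (nat_lit 1725) (nat_lit 16777216) .dd))))))))))))))))))) (.ch (nat_lit 70) (.ev (nat_lit 52) (nat_lit
 1746306176) (.ev (nat_lit 116) (nat_lit 256) (.ev (nat_lit 660) (nat_lit 65536) (.ev (nat_lit 852) (nat_lit
 67108864) (.ev (nat_lit 916) (nat_lit 2) (.nd (nat_lit 1408) (.br (nat_lit 2) (.br (nat_lit 1) (.ch (nat_lit
 0) (.ev (nat_lit 1424) (nat_lit 68769814528) (.ev (nat_lit 1444) (nat_lit 16) (.ev (nat_lit 1453) (nat_lit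
 524288) .dd)))) (.ch (nat_lit 1) (.ev (nat_lit 1424) (nat_lit 68770334720) (.nd (nat_lit 1664) (.br (nat_lit
 6) (.br (nat_lit 4) (.ch (nat_lit 0) (.ev (nat_lit 1680) (nat_lit 4112) .dd)) (.br (nat_lit 5) (.ch (nat_lit
 4) (.ev (nat_lit 1680) (nat_lit 4096) (.ev (nat_lit 1693) (nat_lit 16) .dd))) (.ch (nat_lit 5) (.ev (nat_lit
 1680) (nat_lit 4096) (.ev (nat_lit 1693) (nat_lit 16) .dd))))) (.br (nat_lit 10) (.ch (nat_lit 6) (.ev
 (nat_lit 1680) (nat_lit 16) (.ev (nat_lit 1693) (nat_lit 4096) .dd))) (.br (nat_lit 11) (.ch (nat_lit 10) (.ev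
 (nat_lit 1716) (nat_lit 4096) (.ev (nat_lit 1725) (nat_lit 16) .dd))) (.ch (nat_lit 11) (.ev (nat_lit 1680)
 (nat_lit 4096) (.ev (nat_lit 1693) (nat_lit 16) .dd)))))))))) (.br (nat_lit 7) (.ch (nat_lit 2) (.ev (nat_lit
 1424) (nat_lit 68736256000) (.nd (nat_lit 1664) (.br (nat_lit 6) (.br (nat_lit 3) (.ch (nat_lit 1) (.ev
 (nat_lit 1680) (nat_lit 34078736) (.ev (nat_lit 1693) (nat_lit 4096) .dd))) (.ch (nat_lit 3) (.ev (nat_lit
 1680) (nat_lit 4112) (.ev (nat_lit 1716) (nat_lit 524288) (.ev (nat_lit 1725) (nat_lit 33554432) .dd))))) (.br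
 (nat_lit 7) (.ch (nat_lit 6) (.ev (nat_lit 1680) (nat_lit 528384) (.ev (nat_lit 2052) (nat_lit 33554432) (.ev
 (nat_lit 2061) (nat_lit 16) .dd)))) (.br (nat_lit 12) (.ch (nat_lit 7) (.ev (nat_lit 1680) (nat_lit 33558528)
 (.ev (nat_lit 1892) (nat_lit 524288) (.ev (nat_lit 1901) (nat_lit 16) .dd)))) (.ch (nat_lit 12) (.ev (nat_lit
 1680) (nat_lit 524288) (.ev (nat_lit 1920) (nat_lit 4096) (.ev (nat_lit 2484) (nat_lit 33554432) (.ev (nat_lit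
 2493) (nat_lit 16) .dd))))))))))) (.br (nat_lit 8) (.ch (nat_lit 7) (.ev (nat_lit 1424) (nat_lit 34078720)
 (.nd (nat_lit 1664) (.br (nat_lit 3) (.br (nat_lit 1) (.ch (nat_lit 0) (.ev (nat_lit 1680) (nat_lit
 68719482880) (.ev (nat_lit 1716) (nat_lit 16) (.ev (nat_lit 1725) (nat_lit 16777216) .dd)))) (.ch (nat_lit 1)
 (.ev (nat_lit 1680) (nat_lit 16783376) (.ev (nat_lit 1693) (nat_lit 68719476736) .dd)))) (.br (nat_lit 9) (.ch
 (nat_lit 3) (.ev (nat_lit 1680) (nat_lit 16779280) (.ev (nat_lit 2080) (nat_lit 4096) (.ev (nat_lit 2093)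
 (nat_lit 68719476736) .dd)))) (.br (nat_lit 12) (.ch (nat_lit 9) (.ev (nat_lit 1680) (nat_lit 68719476752)
 (.ev (nat_lit 2144) (nat_lit 16777216) (.ev (nat_lit 2548) (nat_lit 2048) (.ev (nat_lit 2557) (nat_lit 4096)
 .dd))))) (.ch (nat_lit 12) (.ev (nat_lit 1680) (nat_lit 16777216) (.ev (nat_lit 1892) (nat_lit 16) (.ev
 (nat_lit 2080) (nat_lit 2048) (.ev (nat_lit 2144) (nat_lit 68719476736) (.ev (nat_lit 2157) (nat_lit 4096)
 .dd)))))))))))) (.ch (nat_lit 8) (.ev (nat_lit 1424) (nat_lit 68736780304) (.nd (nat_lit 1664) (.br (nat_lit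
 9) (.br (nat_lit 5) (.ch (nat_lit 4) (.ev (nat_lit 1680) (nat_lit 33558528) .dd)) (.br (nat_lit 6) (.ch
 (nat_lit 5) (.ev (nat_lit 1680) (nat_lit 4096) (.ev (nat_lit 1693) (nat_lit 33554432) .dd))) (.ch (nat_lit 6)
 (.ev (nat_lit 1680) (nat_lit 33558528) .dd)))) (.br (nat_lit 10) (.ch (nat_lit 9) (.ev (nat_lit 1680) (nat_lit
 33554432) (.ev (nat_lit 1693) (nat_lit 4096) .dd))) (.br (nat_lit 12) (.ch (nat_lit 10) (.ev (nat_lit 1680)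
 (nat_lit 33558528) .dd)) (.ch (nat_lit 12) (.ev (nat_lit 1680) (nat_lit 4096) (.ev (nat_lit 1693) (nat_lit
 33554432) .dd)))))))))))))))))))))))))))

/-- Subtrie. -/
noncomputable def T5 : Tr := (.ev (nat_lit 20) (nat_lit 34362556546) (.nd (nat_lit 33) (.br (nat_lit 39) (.br
 (nat_lit 19) (.br (nat_lit 8) (.br (nat_lit 4) (.br (nat_lit 3) (.ch (nat_lit 1) (.ev (nat_lit 52) (nat_lit
 69457936400) (.ev (nat_lit 212) (nat_lit 1048576) (.ev (nat_lit 404) (nat_lit 16777216) (.ev (nat_lit 576)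
 (nat_lit 9701473568) .dd))))) (.ch (nat_lit 3) (.ev (nat_lit 52) (nat_lit 77510737936) (.ev (nat_lit 116)
 (nat_lit 4194304) (.ev (nat_lit 276) (nat_lit 1024) (.ev (nat_lit 416) (nat_lit 1662302496) .dd)))))) (.br
 (nat_lit 5) (.ch (nat_lit 4) (.ev (nat_lit 52) (nat_lit 9328146448) (.ev (nat_lit 436) (nat_lit 1090519040)
 (.ev (nat_lit 628) (nat_lit 1048576) (.ev (nat_lit 692) (nat_lit 68719476736) (.ev (nat_lit 916) (nat_lit
 33554432) (.nd (nat_lit 1408) (.br (nat_lit 8) (.br (nat_lit 1) (.ch (nat_lit 0) (.ev (nat_lit 1424) (nat_lit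
 4457760) (.ev (nat_lit 1437) (nat_lit 32768) .dd))) (.br (nat_lit 5) (.ch (nat_lit 1) (.ev (nat_lit 1424)
 (nat_lit 295200) (.nd (nat_lit 1664) (.br (nat_lit 6) (.br (nat_lit 4) (.ch (nat_lit 1) (.ev (nat_lit 1728)
 (nat_lit 4195328) .dd)) (.ch (nat_lit 4) (.ev (nat_lit 1680) (nat_lit 4195328) .dd))) (.br (nat_lit 7) (.ch
 (nat_lit 6) (.ev (nat_lit 1680) (nat_lit 1024) (.ev (nat_lit 1693) (nat_lit 4194304) .dd))) (.br (nat_lit 8)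
 (.ch (nat_lit 7) (.ev (nat_lit 1680) (nat_lit 4195328) .dd)) (.ch (nat_lit 8) (.ev (nat_lit 1680) (nat_lit
 4194304) (.ev (nat_lit 1693) (nat_lit 1024) .dd))))))))) (.ch (nat_lit 5) (.nd (nat_lit 1664) (.br (nat_lit 8)
 (.br (nat_lit 6) (.ch (nat_lit 5) (.ev (nat_lit 1680) (nat_lit 4490528) .dd)) (.ch (nat_lit 6) (.ev (nat_lit
 1680) (nat_lit 4194592) (.ev (nat_lit 2052) (nat_lit 32768) (.ev (nat_lit 2112) (nat_lit 262144) (.ev (nat_lit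
 2125) (nat_lit 1024) .dd)))))) (.br (nat_lit 10) (.ch (nat_lit 8) (.ev (nat_lit 1680) (nat_lit 4490528) .dd))
 (.br (nat_lit 12) (.ch (nat_lit 10) (.ev (nat_lit 1680) (nat_lit 4194304) (.ev (nat_lit 1920) (nat_lit 256)
 (.ev (nat_lit 2180) (nat_lit 32768) (.ev (nat_lit 2788) (nat_lit 1024) (.ev (nat_lit 2976) (nat_lit 32) (.ev
 (nat_lit 2989) (nat_lit 262144) .dd))))))) (.ch (nat_lit 12) (.ev (nat_lit 1892) (nat_lit 256) (.ev (nat_lit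
 2400) (nat_lit 4194304) (.ev (nat_lit 2484) (nat_lit 32) (.ev (nat_lit 2644) (nat_lit 32768) (.ev (nat_lit
 2820) (nat_lit 1024) (.ev (nat_lit 2829) (nat_lit 262144) .dd)))))))))))))) (.br (nat_lit 11) (.br (nat_lit 9)
 (.ch (nat_lit 8) (.ev (nat_lit 1424) (nat_lit 295200) (.nd (nat_lit 1664) (.br (nat_lit 5) (.br (nat_lit 1)
 (.ch (nat_lit 0) (.ev (nat_lit 1680) (nat_lit 1024) (.ev (nat_lit 1693) (nat_lit 4194304) .dd))) (.br (nat_lit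
 2) (.ch (nat_lit 1) (.ev (nat_lit 1680) (nat_lit 1024) (.ev (nat_lit 1693) (nat_lit 4194304) .dd))) (.ch
 (nat_lit 2) (.ev (nat_lit 1716) (nat_lit 4194304) (.ev (nat_lit 1725) (nat_lit 1024) .dd))))) (.br (nat_lit 9)
 (.ch (nat_lit 5) (.ev (nat_lit 1680) (nat_lit 1024) (.ev (nat_lit 1693) (nat_lit 4194304) .dd))) (.br (nat_lit
 11) (.ch (nat_lit 9) (.ev (nat_lit 1680) (nat_lit 4195328) .dd)) (.ch (nat_lit 11) (.ev (nat_lit 1680)
 (nat_lit 4194304) (.ev (nat_lit 1693) (nat_lit 1024) .dd))))))))) (.ch (nat_lit 9) (.ev (nat_lit 1424)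
 (nat_lit 4195360) (.nd (nat_lit 1664) (.br (nat_lit 10) (.br (nat_lit 3) (.ch (nat_lit 1) (.ev (nat_lit 1680)
 (nat_lit 262144) (.ev (nat_lit 1696) (nat_lit 33024) .dd))) (.ch (nat_lit 3) (.ev (nat_lit 1680) (nat_lit
 262144) (.ev (nat_lit 1892) (nat_lit 256) (.ev (nat_lit 1901) (nat_lit 32768) .dd))))) (.br (nat_lit 12) (.ch
 (nat_lit 10) (.ev (nat_lit 1680) (nat_lit 256) (.ev (nat_lit 1716) (nat_lit 32768) (.ev (nat_lit 1725)
 (nat_lit 262144) .dd)))) (.ch (nat_lit 12) (.ev (nat_lit 1680) (nat_lit 262400) (.ev (nat_lit 1693) (nat_lit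
 32768) .dd))))))))) (.br (nat_lit 12) (.ch (nat_lit 11) (.ev (nat_lit 1424) (nat_lit 262432) (.nd (nat_lit
 1664) (.br (nat_lit 4) (.br (nat_lit 1) (.ch (nat_lit 0) (.ev (nat_lit 1680) (nat_lit 4227072) (.ev (nat_lit
 1693) (nat_lit 1024) .dd))) (.br (nat_lit 2) (.ch (nat_lit 1) (.ev (nat_lit 1680) (nat_lit 33792) (.ev
 (nat_lit 1693) (nat_lit 4194304) .dd))) (.ch (nat_lit 2) (.ev (nat_lit 1680) (nat_lit 4195328) (.ev (nat_lit
 1693) (nat_lit 32768) .dd))))) (.br (nat_lit 6) (.ch (nat_lit 4) (.ev (nat_lit 1680) (nat_lit 4227072) (.ev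
 (nat_lit 1693) (nat_lit 1024) .dd))) (.br (nat_lit 12) (.ch (nat_lit 6) (.ev (nat_lit 1680) (nat_lit 4194304)
 (.ev (nat_lit 1716) (nat_lit 1024) (.ev (nat_lit 1725) (nat_lit 32768) .dd)))) (.ch (nat_lit 12) (.ev (nat_lit
 1680) (nat_lit 32768) (.ev (nat_lit 2340) (nat_lit 1024) (.ev (nat_lit 2349) (nat_lit 4194304) .dd))))))))))
 (.ch (nat_lit 12) (.ev (nat_lit 1424) (nat_lit 294912) (.nd (nat_lit 1664) (.br (nat_lit 4) (.br (nat_lit 1)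
 (.ch (nat_lit 0) (.ev (nat_lit 1680) (nat_lit 1280) (.ev (nat_lit 3056) (nat_lit 32) (.ev (nat_lit 3069)
 (nat_lit 4194304) .dd)))) (.ch (nat_lit 1) (.ev (nat_lit 2064) (nat_lit 32) (.ev (nat_lit 2368) (nat_lit 1024)
 (.ev (nat_lit 2548) (nat_lit 256) (.ev (nat_lit 2557) (nat_lit 4194304) .dd)))))) (.br (nat_lit 11) (.ch
 (nat_lit 4) (.ev (nat_lit 1680) (nat_lit 4195328) (.ev (nat_lit 1728) (nat_lit 256) (.ev (nat_lit 1741)
 (nat_lit 32) .dd)))) (.br (nat_lit 12) (.ch (nat_lit 11) (.ev (nat_lit 1680) (nat_lit 1056) (.ev (nat_lit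
 2064) (nat_lit 4194304) (.ev (nat_lit 2077) (nat_lit 256) .dd)))) (.ch (nat_lit 12) (.ev (nat_lit 1680)
 (nat_lit 4195360) (.ev (nat_lit 1693) (nat_lit 256) .dd))))))))))))))))))) (.br (nat_lit 7) (.ch (nat_lit 5)
 (.ev (nat_lit 52) (nat_lit 201622816) (.ev (nat_lit 212) (nat_lit 2048) (.ev (nat_lit 756) (nat_lit 1048576)
 (.ev (nat_lit 1300) (nat_lit 4096) (.nd (nat_lit 1408) (.br (nat_lit 8) (.br (nat_lit 4) (.ch (nat_lit 0) (.ev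
 (nat_lit 1424) (nat_lit 77309411344) (.nd (nat_lit 1664) (.br (nat_lit 8) (.br (nat_lit 4) (.ch (nat_lit 0)
 (.ev (nat_lit 1680) (nat_lit 1128275968) (.ev (nat_lit 1693) (nat_lit 536870912) .dd))) (.ch (nat_lit 4) (.ev
 (nat_lit 1680) (nat_lit 1610620928) (.ev (nat_lit 1792) (nat_lit 16777216) (.ev (nat_lit 1808) (nat_lit
 33554432) (.ev (nat_lit 1821) (nat_lit 4194304) .dd)))))) (.br (nat_lit 9) (.ch (nat_lit 8) (.ev (nat_lit
 1680) (nat_lit 574619648) (.ev (nat_lit 1716) (nat_lit 16777216) (.ev (nat_lit 1892) (nat_lit 1073741824) (.ev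
 (nat_lit 1901) (nat_lit 8192) .dd))))) (.br (nat_lit 12) (.ch (nat_lit 9) (.ev (nat_lit 1680) (nat_lit
 591405056) (.ev (nat_lit 1693) (nat_lit 1073741824) .dd))) (.ch (nat_lit 12) (.ev (nat_lit 1680) (nat_lit
 1660952576) (.ev (nat_lit 1693) (nat_lit 4194304) .dd))))))))) (.br (nat_lit 5) (.ch (nat_lit 4) (.ev (nat_lit
 1424) (nat_lit 9177137152) (.ev (nat_lit 1460) (nat_lit 4194304) (.nd (nat_lit 1664) (.br (nat_lit 6) (.br
 (nat_lit 1) (.ch (nat_lit 0) (.ev (nat_lit 1680) (nat_lit 68719476752) (.ev (nat_lit 1840) (nat_lit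
 1073741824) (.ev (nat_lit 1853) (nat_lit 8192) .dd)))) (.br (nat_lit 4) (.ch (nat_lit 1) (.ev (nat_lit 1680)
 (nat_lit 69793226768) .dd)) (.ch (nat_lit 4) (.ev (nat_lit 1680) (nat_lit 68719484944) (.ev (nat_lit 1693)
 (nat_lit 1073741824) .dd))))) (.br (nat_lit 7) (.ch (nat_lit 6) (.ev (nat_lit 1680) (nat_lit 68719476736) (.ev
 (nat_lit 1716) (nat_lit 1073741824) (.ev (nat_lit 2484) (nat_lit 8192) (.ev (nat_lit 2493) (nat_lit 16)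
 .dd))))) (.br (nat_lit 12) (.ch (nat_lit 7) (.ev (nat_lit 1680) (nat_lit 1073750016) (.ev (nat_lit 2644)
 (nat_lit 68719476736) (.ev (nat_lit 2653) (nat_lit 16) .dd)))) (.ch (nat_lit 12) (.ev (nat_lit 1680) (nat_lit
 1073741824) (.ev (nat_lit 1744) (nat_lit 68719476736) (.ev (nat_lit 1904) (nat_lit 8192) (.ev (nat_lit 1917)
 (nat_lit 16) .dd)))))))))))) (.ch (nat_lit 5) (.ev (nat_lit 1424) (nat_lit 77363945472) (.nd (nat_lit 1664)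
 (.br (nat_lit 8) (.br (nat_lit 5) (.ch (nat_lit 4) (.ev (nat_lit 1680) (nat_lit 1610612752) .dd)) (.br
 (nat_lit 6) (.ch (nat_lit 5) (.ev (nat_lit 1680) (nat_lit 1610612736) (.ev (nat_lit 1693) (nat_lit 16) .dd)))
 (.ch (nat_lit 6) (.ev (nat_lit 1680) (nat_lit 536870912) (.ev (nat_lit 1716) (nat_lit 1073741824) (.ev
 (nat_lit 1725) (nat_lit 16) .dd)))))) (.br (nat_lit 10) (.ch (nat_lit 8) (.ev (nat_lit 1716) (nat_lit
 1073741824) (.ev (nat_lit 2352) (nat_lit 536870912) (.ev (nat_lit 2365) (nat_lit 16) .dd)))) (.br (nat_lit 12)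
 (.ch (nat_lit 10) (.ev (nat_lit 1680) (nat_lit 1073741824) (.ev (nat_lit 1892) (nat_lit 16) (.ev (nat_lit
 1901) (nat_lit 536870912) .dd)))) (.ch (nat_lit 12) (.ev (nat_lit 1680) (nat_lit 16) (.ev (nat_lit 1904)
 (nat_lit 536870912) (.ev (nat_lit 1917) (nat_lit 1073741824) .dd)))))))))))) (.br (nat_lit 11) (.ch (nat_lit
 8) (.ev (nat_lit 1424) (nat_lit 78387347472) (.nd (nat_lit 1664) (.br (nat_lit 9) (.br (nat_lit 5) (.ch
 (nat_lit 2) (.ev (nat_lit 1680) (nat_lit 8192) (.ev (nat_lit 1892) (nat_lit 536870912) (.ev (nat_lit 2340)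
 (nat_lit 33554432) (.ev (nat_lit 2349) (nat_lit 16777216) .dd))))) (.br (nat_lit 8) (.ch (nat_lit 5) (.ev
 (nat_lit 1680) (nat_lit 536870912) (.ev (nat_lit 1696) (nat_lit 33554432) (.ev (nat_lit 1716) (nat_lit 8192)
 (.ev (nat_lit 1725) (nat_lit 16777216) .dd))))) (.ch (nat_lit 8) (.ev (nat_lit 1680) (nat_lit 16785408) (.ev
 (nat_lit 1716) (nat_lit 33554432) (.ev (nat_lit 1725) (nat_lit 536870912) .dd)))))) (.br (nat_lit 11) (.ch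
 (nat_lit 9) (.ev (nat_lit 1680) (nat_lit 33554432) (.ev (nat_lit 1760) (nat_lit 8192) (.ev (nat_lit 2096)
 (nat_lit 553648128) .dd)))) (.br (nat_lit 12) (.ch (nat_lit 11) (.ev (nat_lit 1680) (nat_lit 50339840) (.ev
 (nat_lit 1693) (nat_lit 536870912) .dd))) (.ch (nat_lit 12) (.ev (nat_lit 1680) (nat_lit 587202560) (.ev
 (nat_lit 1693) (nat_lit 8192) .dd))))))))) (.br (nat_lit 12) (.ch (nat_lit 11) (.ev (nat_lit 1424) (nat_lit
 70367846400) (.nd (nat_lit 1664) (.br (nat_lit 4) (.br (nat_lit 2) (.ch (nat_lit 0) (.ev (nat_lit 1680)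
 (nat_lit 8606711824) .dd)) (.br (nat_lit 3) (.ch (nat_lit 2) (.ev (nat_lit 2180) (nat_lit 16777216) (.nd
 (nat_lit 3456) (.br (nat_lit 11) (.ch (nat_lit 5) (.ev (nat_lit 3472) (nat_lit 8589934592) (.ev (nat_lit 3485)
 (nat_lit 16) .dd))) (.ch (nat_lit 11) (.fin (nat_lit 576408526032159292))))))) (.ch (nat_lit 3) (.ev (nat_lit
 1680) (nat_lit 16777232) (.ev (nat_lit 1693) (nat_lit 8589934592) .dd))))) (.br (nat_lit 6) (.ch (nat_lit 4)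
 (.ev (nat_lit 1680) (nat_lit 16777232) (.ev (nat_lit 1693) (nat_lit 8589934592) .dd))) (.br (nat_lit 8) (.ch
 (nat_lit 6) (.ev (nat_lit 1716) (nat_lit 8589934592) (.ev (nat_lit 1728) (nat_lit 16) (.ev (nat_lit 1741)
 (nat_lit 16777216) .dd)))) (.ch (nat_lit 8) (.ev (nat_lit 1680) (nat_lit 8606711824) .dd)))))))) (.ch (nat_lit
 12) (.ev (nat_lit 1424) (nat_lit 557850624) (.nd (nat_lit 1664) (.br (nat_lit 9) (.br (nat_lit 5) (.ch
 (nat_lit 0) (.ev (nat_lit 1680) (nat_lit 9697230848) (.ev (nat_lit 1696) (nat_lit 16) (.ev (nat_lit 1709)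
 (nat_lit 68719476736) .dd)))) (.br (nat_lit 6) (.ch (nat_lit 5) (.ev (nat_lit 1680) (nat_lit 77309411328) (.ev
 (nat_lit 1716) (nat_lit 1073741824) (.ev (nat_lit 1760) (nat_lit 33554432) (.ev (nat_lit 1773) (nat_lit 16)
 .dd))))) (.ch (nat_lit 6) (.ev (nat_lit 1680) (nat_lit 68719476752) (.ev (nat_lit 1716) (nat_lit 1107296256)
 (.ev (nat_lit 1725) (nat_lit 8589934592) .dd)))))) (.br (nat_lit 11) (.ch (nat_lit 9) (.ev (nat_lit 1680)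
 (nat_lit 9697230848) (.ev (nat_lit 1716) (nat_lit 16) (.ev (nat_lit 1725) (nat_lit 68719476736) .dd)))) (.br
 (nat_lit 12) (.ch (nat_lit 11) (.ev (nat_lit 1680) (nat_lit 78416707584) (.ev (nat_lit 1693) (nat_lit 16)
 .dd))) (.ch (nat_lit 12) (.ev (nat_lit 1680) (nat_lit 77342965760) (.ev (nat_lit 1892) (nat_lit 1073741824)
 (.ev (nat_lit 1901) (nat_lit 16) .dd))))))))))))))))))) (.ch (nat_lit 7) (.ev (nat_lit 52) (nat_lit
 1308624896) (.ev (nat_lit 660) (nat_lit 536870912) (.ev (nat_lit 852) (nat_lit 256) (.nd (nat_lit 1408) (.br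
 (nat_lit 6) (.br (nat_lit 5) (.ch (nat_lit 4) (.ev (nat_lit 1424) (nat_lit 8590983168) (.nd (nat_lit 1664)
 (.br (nat_lit 7) (.br (nat_lit 4) (.ch (nat_lit 3) (.ev (nat_lit 1680) (nat_lit 68740482096) (.ev (nat_lit
 1716) (nat_lit 262144) (.ev (nat_lit 1904) (nat_lit 8192) (.ev (nat_lit 1917) (nat_lit 4096) .dd))))) (.br
 (nat_lit 6) (.ch (nat_lit 4) (.ev (nat_lit 1680) (nat_lit 68719751200) (.ev (nat_lit 2000) (nat_lit 16777216)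
 (.ev (nat_lit 2052) (nat_lit 4194304) (.ev (nat_lit 2208) (nat_lit 1024) (.fin (nat_lit
 576456903946093328))))))) (.ch (nat_lit 6) (.ev (nat_lit 1680) (nat_lit 68740457504) (.ev (nat_lit 1716)
 (nat_lit 262144) (.ev (nat_lit 1892) (nat_lit 32768) (.ev (nat_lit 2052) (nat_lit 4096) (.ev (nat_lit 2061)
 (nat_lit 16) .dd)))))))) (.br (nat_lit 8) (.ch (nat_lit 7) (.ev (nat_lit 1680) (nat_lit 4202528) (.ev (nat_lit
 1744) (nat_lit 68719476736) (.ev (nat_lit 2180) (nat_lit 16) (.ev (nat_lit 2484) (nat_lit 262144) (.ev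
 (nat_lit 3040) (nat_lit 16781312) (.ev (nat_lit 3204) (nat_lit 32768) (.ev (nat_lit 3213) (nat_lit 1024)
 .dd)))))))) (.br (nat_lit 12) (.ch (nat_lit 8) (.ev (nat_lit 1680) (nat_lit 68719784976) (.ev (nat_lit 1716)
 (nat_lit 4194336) (.ev (nat_lit 1725) (nat_lit 16777216) .dd)))) (.ch (nat_lit 12) (.ev (nat_lit 1680)
 (nat_lit 17084416) (.ev (nat_lit 1892) (nat_lit 4194304) (.ev (nat_lit 1904) (nat_lit 68719476736) (.ev
 (nat_lit 2080) (nat_lit 16) (.fin (nat_lit 576478894115733908))))))))))))) (.ch (nat_lit 5) (.ev (nat_lit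
 1424) (nat_lit 77326192640) (.nd (nat_lit 1664) (.br (nat_lit 4) (.br (nat_lit 1) (.ch (nat_lit 0) (.ev
 (nat_lit 1680) (nat_lit 4497456) (.ev (nat_lit 1728) (nat_lit 1024) (.ev (nat_lit 1741) (nat_lit 1048576)
 .dd)))) (.br (nat_lit 3) (.ch (nat_lit 1) (.ev (nat_lit 1680) (nat_lit 4464672) (.ev (nat_lit 1892) (nat_lit
 16) (.ev (nat_lit 2052) (nat_lit 1024) (.fin (nat_lit 576474496163594850)))))) (.ch (nat_lit 3) (.ev (nat_lit
 1680) (nat_lit 5537808) (.ev (nat_lit 1892) (nat_lit 1024) (.ev (nat_lit 1904) (nat_lit 8192) (.ev (nat_lit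
 1917) (nat_lit 32) .dd))))))) (.br (nat_lit 6) (.br (nat_lit 5) (.ch (nat_lit 4) (.ev (nat_lit 1680) (nat_lit
 1319984) (.ev (nat_lit 1744) (nat_lit 32768) (.ev (nat_lit 1757) (nat_lit 4194304) .dd)))) (.ch (nat_lit 5)
 (.ev (nat_lit 1680) (nat_lit 4465696) (.ev (nat_lit 2180) (nat_lit 1048592) (.ev (nat_lit 2189) (nat_lit
 32768) .dd))))) (.br (nat_lit 10) (.ch (nat_lit 6) (.ev (nat_lit 1680) (nat_lit 1049632) (.ev (nat_lit 2052)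
 (nat_lit 16) (.ev (nat_lit 2180) (nat_lit 32768) (.ev (nat_lit 2608) (nat_lit 8192) (.ev (nat_lit 2912)
 (nat_lit 4456448) .dd)))))) (.ch (nat_lit 10) (.ev (nat_lit 1680) (nat_lit 5242896) (.ev (nat_lit 1744)
 (nat_lit 32768) (.ev (nat_lit 1776) (nat_lit 32) (.ev (nat_lit 1892) (nat_lit 8192) (.ev (nat_lit 2180)
 (nat_lit 1024) (.ev (nat_lit 2189) (nat_lit 262144) .dd)))))))))))))) (.br (nat_lit 8) (.ch (nat_lit 6) (.ev
 (nat_lit 1424) (nat_lit 77330687024) (.nd (nat_lit 1664) (.br (nat_lit 5) (.br (nat_lit 4) (.ch (nat_lit 1)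
 (.ev (nat_lit 1680) (nat_lit 1052672) .dd)) (.ch (nat_lit 4) (.ev (nat_lit 1680) (nat_lit 1048576) (.ev
 (nat_lit 1693) (nat_lit 4096) .dd)))) (.br (nat_lit 7) (.ch (nat_lit 5) (.ev (nat_lit 1716) (nat_lit 1048576)
 (.ev (nat_lit 1725) (nat_lit 4096) .dd))) (.br (nat_lit 12) (.ch (nat_lit 7) (.ev (nat_lit 1716) (nat_lit
 4096) (.ev (nat_lit 1725) (nat_lit 1048576) .dd))) (.ch (nat_lit 12) (.ev (nat_lit 1680) (nat_lit 1048576)
 (.ev (nat_lit 1693) (nat_lit 4096) .dd))))))))) (.br (nat_lit 12) (.ch (nat_lit 8) (.ev (nat_lit 1424)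
 (nat_lit 77326496816) (.nd (nat_lit 1664) (.br (nat_lit 8) (.br (nat_lit 2) (.ch (nat_lit 0) (.ev (nat_lit
 1680) (nat_lit 1048576) (.ev (nat_lit 1693) (nat_lit 4194304) .dd))) (.ch (nat_lit 2) (.ev (nat_lit 1716)
 (nat_lit 4194304) (.ev (nat_lit 1725) (nat_lit 1048576) .dd)))) (.br (nat_lit 9) (.ch (nat_lit 8) (.ev
 (nat_lit 1680) (nat_lit 4194304) (.ev (nat_lit 1693) (nat_lit 1048576) .dd))) (.br (nat_lit 12) (.ch (nat_lit
 9) (.ev (nat_lit 1892) (nat_lit 1048576) (.ev (nat_lit 1901) (nat_lit 4194304) .dd))) (.ch (nat_lit 12) (.ev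
 (nat_lit 1680) (nat_lit 1048576) (.ev (nat_lit 1693) (nat_lit 4194304) .dd))))))))) (.ch (nat_lit 12) (.ev
 (nat_lit 1424) (nat_lit 4464640) (.nd (nat_lit 1664) (.br (nat_lit 7) (.br (nat_lit 5) (.ch (nat_lit 1) (.ev
 (nat_lit 1680) (nat_lit 68736287776) (.ev (nat_lit 1744) (nat_lit 8589934608) (.ev (nat_lit 2340) (nat_lit
 1048576) (.ev (nat_lit 2349) (nat_lit 4096) .dd))))) (.br (nat_lit 6) (.ch (nat_lit 5) (.ev (nat_lit 1680)
 (nat_lit 1085440) (.ev (nat_lit 1744) (nat_lit 8589934592) (.ev (nat_lit 2096) (nat_lit 1040) (.ev (nat_lit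
 2180) (nat_lit 68719476736) (.ev (nat_lit 2548) (nat_lit 32) (.ev (nat_lit 2557) (nat_lit 16777216) .dd)))))))
 (.ch (nat_lit 6) (.ev (nat_lit 1680) (nat_lit 68737307680) (.ev (nat_lit 2052) (nat_lit 32768) (.ev (nat_lit
 2352) (nat_lit 16) (.ev (nat_lit 2365) (nat_lit 8589934592) .dd))))))) (.br (nat_lit 11) (.br (nat_lit 9) (.ch
 (nat_lit 7) (.ev (nat_lit 1680) (nat_lit 77326226448) (.ev (nat_lit 1728) (nat_lit 32) (.ev (nat_lit 1741)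
 (nat_lit 1048576) .dd)))) (.ch (nat_lit 9) (.ev (nat_lit 1680) (nat_lit 8607797264) (.ev (nat_lit 1892)
 (nat_lit 68719476736) (.ev (nat_lit 2052) (nat_lit 32) (.ev (nat_lit 2061) (nat_lit 1024) .dd)))))) (.br
 (nat_lit 12) (.ch (nat_lit 11) (.ev (nat_lit 1680) (nat_lit 1056) (.ev (nat_lit 1936) (nat_lit 1048576) (.ev
 (nat_lit 2340) (nat_lit 16) (.ev (nat_lit 2704) (nat_lit 68719476736) (.ev (nat_lit 2740) (nat_lit 4096) (.ev
 (nat_lit 2788) (nat_lit 32768) (.ev (nat_lit 2992) (nat_lit 16777216) (.ev (nat_lit 3005) (nat_lit 8589934592)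
 .dd))))))))) (.ch (nat_lit 12) (.ev (nat_lit 1680) (nat_lit 68737307648) (.ev (nat_lit 1716) (nat_lit 16) (.ev
 (nat_lit 1892) (nat_lit 32768) (.ev (nat_lit 2080) (nat_lit 32) (.ev (nat_lit 2093) (nat_lit 8589934592)
 .dd))))))))))))))))))))))) (.br (nat_lit 15) (.br (nat_lit 11) (.ch (nat_lit 8) (.ev (nat_lit 52) (nat_lit
 69391615232) (.ev (nat_lit 532) (nat_lit 8589934592) (.nd (nat_lit 1408) (.br (nat_lit 4) (.br (nat_lit 1)
 (.ch (nat_lit 0) (.ev (nat_lit 1424) (nat_lit 16814112) (.nd (nat_lit 1664) (.br (nat_lit 8) (.br (nat_lit 1)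
 (.ch (nat_lit 0) (.ev (nat_lit 1680) (nat_lit 1077946384) (.ev (nat_lit 1892) (nat_lit 67371008) (.ev (nat_lit
 1901) (nat_lit 33554432) .dd)))) (.br (nat_lit 5) (.ch (nat_lit 1) (.ev (nat_lit 1680) (nat_lit 67371024) (.ev
 (nat_lit 2052) (nat_lit 4194304) (.ev (nat_lit 2180) (nat_lit 1073741824) (.ev (nat_lit 2704) (nat_lit
 33554432) (.ev (nat_lit 2992) (nat_lit 10240) .dd)))))) (.ch (nat_lit 5) (.ev (nat_lit 1680) (nat_lit
 100935680) (.ev (nat_lit 2180) (nat_lit 4194320) (.ev (nat_lit 2189) (nat_lit 1073741824) .dd)))))) (.br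
 (nat_lit 11) (.br (nat_lit 9) (.ch (nat_lit 8) (.ev (nat_lit 1680) (nat_lit 100673536) (.ev (nat_lit 1892)
 (nat_lit 4194304) (.ev (nat_lit 2052) (nat_lit 262144) (.fin (nat_lit 576426117691818514)))))) (.ch (nat_lit
 9) (.ev (nat_lit 1680) (nat_lit 105121808) (.ev (nat_lit 1744) (nat_lit 1073741824) (.ev (nat_lit 1757)
 (nat_lit 8192) .dd))))) (.br (nat_lit 12) (.ch (nat_lit 11) (.ev (nat_lit 1680) (nat_lit 4202512) (.ev
 (nat_lit 1892) (nat_lit 33554432) (.ev (nat_lit 2096) (nat_lit 1140850688) (.ev (nat_lit 2180) (nat_lit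
 262144) (.ev (nat_lit 2189) (nat_lit 2048) .dd)))))) (.ch (nat_lit 12) (.ev (nat_lit 1680) (nat_lit
 1178609664) (.ev (nat_lit 1728) (nat_lit 262144) (.ev (nat_lit 1741) (nat_lit 16) .dd)))))))))) (.ch (nat_lit
 1) (.ev (nat_lit 1424) (nat_lit 1195677728) (.nd (nat_lit 1664) (.br (nat_lit 7) (.br (nat_lit 6) (.ch
 (nat_lit 3) (.ev (nat_lit 1680) (nat_lit 16) (.ev (nat_lit 1693) (nat_lit 8192) .dd))) (.ch (nat_lit 6) (.ev
 (nat_lit 1892) (nat_lit 16) (.ev (nat_lit 1901) (nat_lit 8192) .dd)))) (.br (nat_lit 8) (.ch (nat_lit 7) (.ev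
 (nat_lit 1680) (nat_lit 16) (.ev (nat_lit 1693) (nat_lit 8192) .dd))) (.br (nat_lit 10) (.ch (nat_lit 8) (.ev
 (nat_lit 1716) (nat_lit 8192) (.ev (nat_lit 1725) (nat_lit 16) .dd))) (.ch (nat_lit 10) (.ev (nat_lit 1680)
 (nat_lit 8192) (.ev (nat_lit 1693) (nat_lit 16) .dd)))))))))) (.br (nat_lit 9) (.ch (nat_lit 4) (.ev (nat_lit
 1424) (nat_lit 16777232) (.nd (nat_lit 1664) (.br (nat_lit 6) (.br (nat_lit 3) (.ch (nat_lit 0) (.ev (nat_lit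
 1680) (nat_lit 100671488) (.ev (nat_lit 1744) (nat_lit 4096) (.ev (nat_lit 1984) (nat_lit 4194304) (.ev
 (nat_lit 2340) (nat_lit 2048) (.ev (nat_lit 2960) (nat_lit 32800) (.ev (nat_lit 3204) (nat_lit 262144) (.ev
 (nat_lit 3213) (nat_lit 1073741824) .dd)))))))) (.br (nat_lit 4) (.ch (nat_lit 3) (.ev (nat_lit 1680) (nat_lit
 1145319456) (.ev (nat_lit 1716) (nat_lit 2048) (.ev (nat_lit 1904) (nat_lit 33554432) (.ev (nat_lit 1917)
 (nat_lit 32768) .dd))))) (.ch (nat_lit 4) (.ev (nat_lit 1680) (nat_lit 100937760) (.ev (nat_lit 1716) (nat_lit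
 2048) (.ev (nat_lit 1892) (nat_lit 1073741824) (.ev (nat_lit 2340) (nat_lit 32768) (.ev (nat_lit 2349)
 (nat_lit 4194304) .dd)))))))) (.br (nat_lit 9) (.ch (nat_lit 6) (.ev (nat_lit 1680) (nat_lit 1107331104) (.ev
 (nat_lit 1892) (nat_lit 8192) (.ev (nat_lit 1904) (nat_lit 4096) (.ev (nat_lit 2096) (nat_lit 4194304) (.fin
 (nat_lit 576399729614078580))))))) (.br (nat_lit 12) (.ch (nat_lit 9) (.ev (nat_lit 1680) (nat_lit 1111791616)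
 (.ev (nat_lit 1716) (nat_lit 67117056) (.ev (nat_lit 1725) (nat_lit 32) .dd)))) (.ch (nat_lit 12) (.ev
 (nat_lit 1680) (nat_lit 100702208) (.ev (nat_lit 2000) (nat_lit 32) (.ev (nat_lit 2052) (nat_lit 8192) (.ev
 (nat_lit 2180) (nat_lit 262144) (.fin (nat_lit 576597641350562520))))))))))))) (.br (nat_lit 11) (.ch (nat_lit
 9) (.ev (nat_lit 1424) (nat_lit 1195653152) (.nd (nat_lit 1664) (.br (nat_lit 4) (.br (nat_lit 3) (.ch
 (nat_lit 2) (.ev (nat_lit 1680) (nat_lit 32784) .dd)) (.ch (nat_lit 3) (.ev (nat_lit 1680) (nat_lit 16) (.ev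
 (nat_lit 1693) (nat_lit 32768) .dd)))) (.br (nat_lit 10) (.ch (nat_lit 4) (.ev (nat_lit 1716) (nat_lit 32768)
 (.ev (nat_lit 1725) (nat_lit 16) .dd))) (.br (nat_lit 12) (.ch (nat_lit 10) (.ev (nat_lit 1680) (nat_lit 16)
 (.ev (nat_lit 1693) (nat_lit 32768) .dd))) (.ch (nat_lit 12) (.ev (nat_lit 1716) (nat_lit 16) (.ev (nat_lit
 1725) (nat_lit 32768) .dd))))))))) (.ch (nat_lit 11) (.ev (nat_lit 1424) (nat_lit 33564672) (.nd (nat_lit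
 1664) (.br (nat_lit 5) (.br (nat_lit 1) (.ch (nat_lit 0) (.ev (nat_lit 1680) (nat_lit 1094746160) (.ev
 (nat_lit 1904) (nat_lit 4096) (.ev (nat_lit 2052) (nat_lit 67108864) (.ev (nat_lit 2061) (nat_lit 262144)
 .dd))))) (.br (nat_lit 3) (.ch (nat_lit 1) (.ev (nat_lit 1680) (nat_lit 299056) (.ev (nat_lit 1716) (nat_lit
 4194304) (.ev (nat_lit 1892) (nat_lit 1073741824) (.ev (nat_lit 2064) (nat_lit 67108864) (.ev (nat_lit 2077)
 (nat_lit 16777216) .dd)))))) (.ch (nat_lit 3) (.ev (nat_lit 1680) (nat_lit 1073774608) (.ev (nat_lit 1744)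
 (nat_lit 20971520) (.ev (nat_lit 1776) (nat_lit 262144) (.ev (nat_lit 2180) (nat_lit 4096) (.ev (nat_lit 2340)
 (nat_lit 67108864) (.ev (nat_lit 2349) (nat_lit 32) .dd))))))))) (.br (nat_lit 8) (.br (nat_lit 6) (.ch
 (nat_lit 5) (.ev (nat_lit 1680) (nat_lit 67371008) (.ev (nat_lit 1936) (nat_lit 16) (.ev (nat_lit 2340)
 (nat_lit 4194304) (.ev (nat_lit 2608) (nat_lit 4096) (.ev (nat_lit 2788) (nat_lit 1073774592) (.ev (nat_lit
 2912) (nat_lit 16777248) .dd))))))) (.ch (nat_lit 6) (.ev (nat_lit 1680) (nat_lit 1141116960) (.ev (nat_lit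
 1744) (nat_lit 4194304) (.ev (nat_lit 1776) (nat_lit 16777216) (.ev (nat_lit 2208) (nat_lit 32784) .dd))))))
 (.br (nat_lit 12) (.ch (nat_lit 8) (.ev (nat_lit 1680) (nat_lit 1095012384) (.ev (nat_lit 1728) (nat_lit
 67108864) (.ev (nat_lit 1741) (nat_lit 16) .dd)))) (.ch (nat_lit 12) (.ev (nat_lit 1680) (nat_lit 67407920)
 (.ev (nat_lit 2052) (nat_lit 1073741824) (.ev (nat_lit 2416) (nat_lit 20971520) .dd))))))))))))))))) (.br
 (nat_lit 12) (.ch (nat_lit 11) (.ev (nat_lit 52) (nat_lit 68871522576) (.ev (nat_lit 84) (nat_lit 262144) (.ev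
 (nat_lit 884) (nat_lit 536870912) (.ev (nat_lit 1396) (nat_lit 33554432) (.nd (nat_lit 1408) (.br (nat_lit 5)
 (.br (nat_lit 1) (.ch (nat_lit 0) (.ev (nat_lit 1424) (nat_lit 4207648) (.nd (nat_lit 1664) (.br (nat_lit 8)
 (.br (nat_lit 2) (.ch (nat_lit 0) (.ev (nat_lit 1680) (nat_lit 67141632) (.ev (nat_lit 2180) (nat_lit
 8589934592) (.ev (nat_lit 2189) (nat_lit 1073741824) .dd)))) (.ch (nat_lit 2) (.ev (nat_lit 1680) (nat_lit
 9730785280) (.ev (nat_lit 1693) (nat_lit 32768) .dd)))) (.br (nat_lit 11) (.ch (nat_lit 8) (.ev (nat_lit 1680)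
 (nat_lit 8657076224) (.ev (nat_lit 1693) (nat_lit 1073741824) .dd))) (.ch (nat_lit 11) (.ev (nat_lit 1680)
 (nat_lit 9663676416) (.ev (nat_lit 1728) (nat_lit 67108864) (.ev (nat_lit 1741) (nat_lit 32768) .dd)))))))))
 (.br (nat_lit 4) (.ch (nat_lit 1) (.ev (nat_lit 1424) (nat_lit 9730818080) (.ev (nat_lit 1606) (nat_lit 4096)
 (.nd (nat_lit 1664) (.br (nat_lit 4) (.br (nat_lit 2) (.ch (nat_lit 0) (.ev (nat_lit 1680) (nat_lit 4195328)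
 (.ev (nat_lit 1693) (nat_lit 8192) .dd))) (.br (nat_lit 3) (.ch (nat_lit 2) (.ev (nat_lit 1680) (nat_lit
 4203520) .dd)) (.ch (nat_lit 3) (.ev (nat_lit 1680) (nat_lit 4194304) (.ev (nat_lit 2180) (nat_lit 8192) (.ev
 (nat_lit 2189) (nat_lit 1024) .dd)))))) (.br (nat_lit 7) (.ch (nat_lit 4) (.ev (nat_lit 1680) (nat_lit 9216)
 (.ev (nat_lit 1693) (nat_lit 4194304) .dd))) (.br (nat_lit 8) (.ch (nat_lit 7) (.ev (nat_lit 1680) (nat_lit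
 9216) (.ev (nat_lit 1693) (nat_lit 4194304) .dd))) (.ch (nat_lit 8) (.ev (nat_lit 1716) (nat_lit 1024) (.ev
 (nat_lit 1892) (nat_lit 8192) (.ev (nat_lit 1901) (nat_lit 4194304) .dd))))))))))) (.ch (nat_lit 4) (.ev
 (nat_lit 1424) (nat_lit 8589935616) (.nd (nat_lit 1664) (.br (nat_lit 4) (.br (nat_lit 1) (.ch (nat_lit 0)
 (.ev (nat_lit 1680) (nat_lit 71303168) (.ev (nat_lit 1716) (nat_lit 36896) (.ev (nat_lit 1892) (nat_lit
 1073741824) (.ev (nat_lit 1901) (nat_lit 8192) .dd))))) (.br (nat_lit 3) (.ch (nat_lit 1) (.ev (nat_lit 1680)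
 (nat_lit 1145045024) (.ev (nat_lit 2180) (nat_lit 32768) (.ev (nat_lit 2484) (nat_lit 4096) (.ev (nat_lit
 2493) (nat_lit 8192) .dd))))) (.ch (nat_lit 3) (.ev (nat_lit 1680) (nat_lit 1145049120) (.ev (nat_lit 1716)
 (nat_lit 32768) (.ev (nat_lit 1725) (nat_lit 8192) .dd)))))) (.br (nat_lit 7) (.ch (nat_lit 4) (.ev (nat_lit
 1680) (nat_lit 67153920) (.ev (nat_lit 1716) (nat_lit 32) (.ev (nat_lit 2180) (nat_lit 1073741824) (.ev
 (nat_lit 2189) (nat_lit 4194304) .dd))))) (.br (nat_lit 8) (.ch (nat_lit 7) (.ev (nat_lit 1680) (nat_lit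
 1077940224) (.ev (nat_lit 1716) (nat_lit 32768) (.ev (nat_lit 2052) (nat_lit 32) (.ev (nat_lit 2256) (nat_lit
 8192) (.ev (nat_lit 2269) (nat_lit 67108864) .dd)))))) (.ch (nat_lit 8) (.ev (nat_lit 1680) (nat_lit 67153920)
 (.ev (nat_lit 1716) (nat_lit 4194336) (.ev (nat_lit 1725) (nat_lit 1073741824) .dd)))))))))))) (.br (nat_lit
 6) (.ch (nat_lit 5) (.ev (nat_lit 1424) (nat_lit 8589947904) (.nd (nat_lit 1664) (.br (nat_lit 8) (.br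
 (nat_lit 3) (.ch (nat_lit 1) (.ev (nat_lit 1680) (nat_lit 1145044992) (.ev (nat_lit 2484) (nat_lit 32768) (.ev
 (nat_lit 2493) (nat_lit 32) .dd)))) (.br (nat_lit 5) (.ch (nat_lit 3) (.ev (nat_lit 1680) (nat_lit 1073774624)
 (.ev (nat_lit 1716) (nat_lit 4194304) (.ev (nat_lit 1725) (nat_lit 67108864) .dd)))) (.ch (nat_lit 5) (.ev
 (nat_lit 1680) (nat_lit 1077936160) (.ev (nat_lit 2432) (nat_lit 67141632) .dd))))) (.br (nat_lit 10) (.ch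
 (nat_lit 8) (.ev (nat_lit 1680) (nat_lit 1140883488) (.ev (nat_lit 1693) (nat_lit 4194304) .dd))) (.br
 (nat_lit 12) (.ch (nat_lit 10) (.ev (nat_lit 1680) (nat_lit 1140850688) (.ev (nat_lit 1728) (nat_lit 4194304)
 (.ev (nat_lit 2052) (nat_lit 32) (.ev (nat_lit 2061) (nat_lit 32768) .dd))))) (.ch (nat_lit 12) (.ev (nat_lit
 1680) (nat_lit 71303168) (.ev (nat_lit 2340) (nat_lit 32768) (.fin (nat_lit 576245797765988820))))))))))) (.br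
 (nat_lit 9) (.ch (nat_lit 6) (.ev (nat_lit 1424) (nat_lit 4203552) (.nd (nat_lit 1664) (.br (nat_lit 8) (.br
 (nat_lit 4) (.ch (nat_lit 0) (.ev (nat_lit 1680) (nat_lit 8589971456) (.ev (nat_lit 1728) (nat_lit 1140850688)
 .dd))) (.br (nat_lit 5) (.ch (nat_lit 4) (.ev (nat_lit 1680) (nat_lit 8589934592) (.ev (nat_lit 1716) (nat_lit
 67112960) (.ev (nat_lit 2052) (nat_lit 1073741824) (.ev (nat_lit 2061) (nat_lit 32768) .dd))))) (.ch (nat_lit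
 5) (.ev (nat_lit 1680) (nat_lit 9730818048) (.ev (nat_lit 1693) (nat_lit 4096) .dd))))) (.br (nat_lit 10) (.ch
 (nat_lit 8) (.ev (nat_lit 1680) (nat_lit 67141632) (.ev (nat_lit 2052) (nat_lit 1073745920) (.ev (nat_lit
 2061) (nat_lit 8589934592) .dd)))) (.br (nat_lit 12) (.ch (nat_lit 10) (.ev (nat_lit 1680) (nat_lit
 9730789376) (.ev (nat_lit 1693) (nat_lit 32768) .dd))) (.ch (nat_lit 12) (.ev (nat_lit 1680) (nat_lit
 9730789376) (.ev (nat_lit 1693) (nat_lit 32768) .dd))))))))) (.ch (nat_lit 9) (.ev (nat_lit 1424) (nat_lit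
 9667904544) (.nd (nat_lit 1664) (.br (nat_lit 8) (.br (nat_lit 3) (.ch (nat_lit 2) (.ev (nat_lit 1680)
 (nat_lit 4096) (.fin (nat_lit 576456904061436466)))) (.br (nat_lit 4) (.ch (nat_lit 3) (.ev (nat_lit 1680)
 (nat_lit 4096) (.ev (nat_lit 2192) (nat_lit 8192) (.ev (nat_lit 2205) (nat_lit 67108864) .dd)))) (.ch (nat_lit
 4) (.ev (nat_lit 1680) (nat_lit 67112960) (.ev (nat_lit 1693) (nat_lit 8192) .dd))))) (.br (nat_lit 9) (.ch
 (nat_lit 8) (.ev (nat_lit 1680) (nat_lit 4096) (.ev (nat_lit 1728) (nat_lit 8192) (.ev (nat_lit 1741) (nat_lit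
 67108864) .dd)))) (.br (nat_lit 12) (.ch (nat_lit 9) (.ev (nat_lit 1680) (nat_lit 67117056) (.ev (nat_lit
 1693) (nat_lit 4096) .dd))) (.ch (nat_lit 12) (.ev (nat_lit 1680) (nat_lit 8192) (.ev (nat_lit 1892) (nat_lit
 4096) (.ev (nat_lit 1901) (nat_lit 67108864) .dd))))))))))))))))))) (.ch (nat_lit 12) (.ev (nat_lit 52)
 (nat_lit 9881817104) (.ev (nat_lit 84) (nat_lit 1024) (.ev (nat_lit 116) (nat_lit 262144) (.ev (nat_lit 404)
 (nat_lit 33554432) (.ev (nat_lit 724) (nat_lit 1048576) (.ev (nat_lit 948) (nat_lit 8192) (.ev (nat_lit 1312)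
 (nat_lit 69260544288) .dd)))))))))) (.br (nat_lit 16) (.ch (nat_lit 15) (.ev (nat_lit 52) (nat_lit
 77327509504) (.ev (nat_lit 532) (nat_lit 1024) (.ev (nat_lit 628) (nat_lit 256) (.nd (nat_lit 1408) (.br
 (nat_lit 9) (.br (nat_lit 4) (.ch (nat_lit 0) (.ev (nat_lit 1424) (nat_lit 134254624) (.nd (nat_lit 1664) (.br
 (nat_lit 5) (.br (nat_lit 1) (.ch (nat_lit 0) (.ev (nat_lit 1680) (nat_lit 608174096) (.ev (nat_lit 1716)
 (nat_lit 1073741824) (.ev (nat_lit 1725) (nat_lit 33554432) .dd)))) (.br (nat_lit 2) (.ch (nat_lit 1) (.ev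
 (nat_lit 1680) (nat_lit 637534224) (.ev (nat_lit 1716) (nat_lit 1073741824) (.ev (nat_lit 1725) (nat_lit
 4194304) .dd)))) (.ch (nat_lit 2) (.ev (nat_lit 1680) (nat_lit 71303184) (.ev (nat_lit 1696) (nat_lit
 1073741824) (.ev (nat_lit 1892) (nat_lit 33554432) (.ev (nat_lit 1901) (nat_lit 536870912) .dd))))))) (.br
 (nat_lit 8) (.ch (nat_lit 5) (.ev (nat_lit 1680) (nat_lit 1644167168) (.ev (nat_lit 2340) (nat_lit 67108864)
 (.ev (nat_lit 2484) (nat_lit 4194304) (.ev (nat_lit 2493) (nat_lit 16) .dd))))) (.br (nat_lit 11) (.ch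
 (nat_lit 8) (.ev (nat_lit 1680) (nat_lit 641728512) (.fin (nat_lit 576496486429704814)))) (.ch (nat_lit 11)
 (.ev (nat_lit 1680) (nat_lit 574619648) (.ev (nat_lit 1728) (nat_lit 67108864) (.ev (nat_lit 2180) (nat_lit
 16) (.ev (nat_lit 2189) (nat_lit 1073741824) .dd))))))))))) (.br (nat_lit 5) (.ch (nat_lit 4) (.ev (nat_lit
 1424) (nat_lit 742391840) (.ev (nat_lit 1460) (nat_lit 32768) (.nd (nat_lit 1664) (.br (nat_lit 7) (.br
 (nat_lit 4) (.ch (nat_lit 1) (.ev (nat_lit 1680) (nat_lit 1073741824) (.ev (nat_lit 1920) (nat_lit 4096) (.ev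
 (nat_lit 2052) (nat_lit 33554432) (.ev (nat_lit 2061) (nat_lit 16) .dd))))) (.br (nat_lit 6) (.ch (nat_lit 4)
 (.ev (nat_lit 1680) (nat_lit 33554448) (.ev (nat_lit 2340) (nat_lit 1073741824) (.ev (nat_lit 2349) (nat_lit
 4096) .dd)))) (.ch (nat_lit 6) (.ev (nat_lit 1680) (nat_lit 33554432) (.ev (nat_lit 1716) (nat_lit 16) (.ev
 (nat_lit 1904) (nat_lit 4096) (.ev (nat_lit 1917) (nat_lit 1073741824) .dd))))))) (.br (nat_lit 9) (.ch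
 (nat_lit 7) (.ev (nat_lit 1680) (nat_lit 1107296272) (.ev (nat_lit 1693) (nat_lit 4096) .dd))) (.br (nat_lit
 12) (.ch (nat_lit 9) (.ev (nat_lit 1680) (nat_lit 1107300352) (.ev (nat_lit 1693) (nat_lit 16) .dd))) (.ch
 (nat_lit 12) (.ev (nat_lit 1680) (nat_lit 33558544) (.ev (nat_lit 1693) (nat_lit 1073741824) .dd))))))))))
 (.ch (nat_lit 5) (.ev (nat_lit 1424) (nat_lit 574656528) (.nd (nat_lit 1664) (.br (nat_lit 8) (.br (nat_lit 3)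
 (.ch (nat_lit 0) (.ev (nat_lit 1680) (nat_lit 1207959552) (.ev (nat_lit 1744) (nat_lit 67108896) .dd))) (.br
 (nat_lit 4) (.ch (nat_lit 3) (.ev (nat_lit 1680) (nat_lit 1207959584) (.ev (nat_lit 1693) (nat_lit 67108864)
 .dd))) (.ch (nat_lit 4) (.ev (nat_lit 1680) (nat_lit 32) (.ev (nat_lit 1728) (nat_lit 1073741824) (.ev
 (nat_lit 2272) (nat_lit 201326592) .dd)))))) (.br (nat_lit 10) (.ch (nat_lit 8) (.ev (nat_lit 1680) (nat_lit
 1073741856) (.ev (nat_lit 2484) (nat_lit 67108864) (.ev (nat_lit 2493) (nat_lit 134217728) .dd)))) (.br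
 (nat_lit 12) (.ch (nat_lit 10) (.ev (nat_lit 1680) (nat_lit 1207959584) (.ev (nat_lit 1693) (nat_lit 67108864)
 .dd))) (.ch (nat_lit 12) (.ev (nat_lit 1680) (nat_lit 67108864) (.ev (nat_lit 2672) (nat_lit 134217728) (.nd
 (nat_lit 3456) (.br (nat_lit 2) (.ch (nat_lit 1) (.fin (nat_lit 576245797765988820))) (.ch (nat_lit 2) (.ev
 (nat_lit 3472) (nat_lit 32) (.ev (nat_lit 3485) (nat_lit 1073741824) .dd)))))))))))))))) (.br (nat_lit 11)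
 (.ch (nat_lit 9) (.ev (nat_lit 1424) (nat_lit 1648394288) (.nd (nat_lit 1664) (.br (nat_lit 8) (.br (nat_lit
 3) (.ch (nat_lit 2) (.ev (nat_lit 1680) (nat_lit 67112960) (.ev (nat_lit 1693) (nat_lit 134217728) .dd))) (.br
 (nat_lit 4) (.ch (nat_lit 3) (.ev (nat_lit 1680) (nat_lit 134221824) (.ev (nat_lit 1693) (nat_lit 67108864)
 .dd))) (.ch (nat_lit 4) (.ev (nat_lit 1680) (nat_lit 201326592) (.ev (nat_lit 1693) (nat_lit 4096) .dd)))))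
 (.br (nat_lit 9) (.ch (nat_lit 8) (.ev (nat_lit 1680) (nat_lit 4096) (.ev (nat_lit 1716) (nat_lit 134217728)
 (.ev (nat_lit 1725) (nat_lit 67108864) .dd)))) (.br (nat_lit 10) (.ch (nat_lit 9) (.ev (nat_lit 1680) (nat_lit
 67108864) (.ev (nat_lit 2112) (nat_lit 134221824) .dd))) (.ch (nat_lit 10) (.ev (nat_lit 1680) (nat_lit
 134217728) (.ev (nat_lit 2484) (nat_lit 4096) (.ev (nat_lit 2493) (nat_lit 67108864) .dd)))))))))) (.br
 (nat_lit 12) (.ch (nat_lit 11) (.ev (nat_lit 1424) (nat_lit 570462208) (.nd (nat_lit 1664) (.br (nat_lit 5)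
 (.br (nat_lit 3) (.ch (nat_lit 2) (.ev (nat_lit 1680) (nat_lit 1207959584) (.ev (nat_lit 2052) (nat_lit 16)
 (.ev (nat_lit 2224) (nat_lit 4194304) (.ev (nat_lit 2237) (nat_lit 67108864) .dd))))) (.br (nat_lit 4) (.ch
 (nat_lit 3) (.ev (nat_lit 1680) (nat_lit 16) (.ev (nat_lit 1920) (nat_lit 1073741824) (.ev (nat_lit 2080)
 (nat_lit 4194304) (.ev (nat_lit 2180) (nat_lit 134217728) (.ev (nat_lit 2352) (nat_lit 32) (.ev (nat_lit 2365)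
 (nat_lit 67108864) .dd))))))) (.ch (nat_lit 4) (.ev (nat_lit 1680) (nat_lit 71303200) (.ev (nat_lit 1840)
 (nat_lit 134217728) (.ev (nat_lit 1892) (nat_lit 16) (.ev (nat_lit 1901) (nat_lit 1073741824) .dd))))))) (.br
 (nat_lit 6) (.ch (nat_lit 5) (.ev (nat_lit 1680) (nat_lit 134217728) (.ev (nat_lit 2052) (nat_lit 1073741824)
 (.ev (nat_lit 2096) (nat_lit 16) (.ev (nat_lit 3158) (nat_lit 71303200) .dd))))) (.br (nat_lit 12) (.ch
 (nat_lit 6) (.ev (nat_lit 1680) (nat_lit 1279262768) .dd)) (.ch (nat_lit 12) (.ev (nat_lit 1680) (nat_lit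
 71303184) (.ev (nat_lit 1892) (nat_lit 1073741824) (.ev (nat_lit 2052) (nat_lit 32) (.ev (nat_lit 2061)
 (nat_lit 134217728) .dd))))))))))) (.ch (nat_lit 12) (.ev (nat_lit 1424) (nat_lit 1711276032) (.nd (nat_lit
 1664) (.br (nat_lit 7) (.br (nat_lit 4) (.ch (nat_lit 1) (.ev (nat_lit 1680) (nat_lit 134254592) (.ev (nat_lit
 1744) (nat_lit 32) (.fin (nat_lit 576012701133128192))))) (.ch (nat_lit 4) (.ev (nat_lit 1680) (nat_lit
 134221872) (.ev (nat_lit 1716) (nat_lit 4194304) (.ev (nat_lit 1725) (nat_lit 32768) .dd))))) (.br (nat_lit 9)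
 (.ch (nat_lit 7) (.ev (nat_lit 1680) (nat_lit 4112) (.ev (nat_lit 1744) (nat_lit 4194304) (.ev (nat_lit 1892)
 (nat_lit 134217728) (.ev (nat_lit 2052) (nat_lit 32768) (.ev (nat_lit 2061) (nat_lit 32) .dd)))))) (.br
 (nat_lit 12) (.ch (nat_lit 9) (.ev (nat_lit 1680) (nat_lit 36912) (.ev (nat_lit 1696) (nat_lit 4194304) (.ev
 (nat_lit 1709) (nat_lit 134217728) .dd)))) (.ch (nat_lit 12) (.ev (nat_lit 1680) (nat_lit 138444800) (.ev
 (nat_lit 1716) (nat_lit 16) (.ev (nat_lit 1728) (nat_lit 32) (.ev (nat_lit 1741) (nat_lit 4096)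
 .dd))))))))))))))))))) (.br (nat_lit 18) (.ch (nat_lit 16) (.ev (nat_lit 52) (nat_lit 69308002304) (.ev
 (nat_lit 212) (nat_lit 256) (.ev (nat_lit 308) (nat_lit 1024) (.ev (nat_lit 564) (nat_lit 1073741824) (.ev
 (nat_lit 756) (nat_lit 32768) (.ev (nat_lit 1044) (nat_lit 4194304) (.nd (nat_lit 1408) (.br (nat_lit 5) (.br
 (nat_lit 1) (.ch (nat_lit 0) (.ev (nat_lit 1424) (nat_lit 201326624) (.ev (nat_lit 1622) (nat_lit 8589934592)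
 (.nd (nat_lit 1664) (.br (nat_lit 9) (.br (nat_lit 4) (.ch (nat_lit 1) (.ev (nat_lit 1680) (nat_lit 2064)
 .dd)) (.br (nat_lit 8) (.ch (nat_lit 4) (.ev (nat_lit 1680) (nat_lit 2048) (.ev (nat_lit 1693) (nat_lit 16)
 .dd))) (.ch (nat_lit 8) (.ev (nat_lit 1680) (nat_lit 2048) (.ev (nat_lit 1693) (nat_lit 16) .dd))))) (.br
 (nat_lit 11) (.ch (nat_lit 9) (.ev (nat_lit 1680) (nat_lit 16) (.ev (nat_lit 1693) (nat_lit 2048) .dd))) (.br
 (nat_lit 12) (.ch (nat_lit 11) (.ev (nat_lit 1744) (nat_lit 2048) (.ev (nat_lit 1757) (nat_lit 16) .dd))) (.ch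
 (nat_lit 12) (.ev (nat_lit 1680) (nat_lit 2064) .dd))))))))) (.br (nat_lit 4) (.ch (nat_lit 1) (.ev (nat_lit
 1424) (nat_lit 8791263264) (.ev (nat_lit 1437) (nat_lit 16) .dd))) (.ch (nat_lit 4) (.ev (nat_lit 1424)
 (nat_lit 8724152336) (.nd (nat_lit 1664) (.br (nat_lit 7) (.br (nat_lit 3) (.ch (nat_lit 0) (.ev (nat_lit
 1680) (nat_lit 67108864) (.ev (nat_lit 2368) (nat_lit 2080) .dd))) (.br (nat_lit 6) (.ch (nat_lit 3) (.ev
 (nat_lit 1680) (nat_lit 67108896) (.ev (nat_lit 1693) (nat_lit 2048) .dd))) (.ch (nat_lit 6) (.ev (nat_lit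
 1680) (nat_lit 2048) (.ev (nat_lit 2340) (nat_lit 67108864) (.ev (nat_lit 2349) (nat_lit 32) .dd)))))) (.br
 (nat_lit 8) (.ch (nat_lit 7) (.ev (nat_lit 1680) (nat_lit 2048) (.ev (nat_lit 1728) (nat_lit 67108864) (.ev
 (nat_lit 1741) (nat_lit 32) .dd)))) (.br (nat_lit 12) (.ch (nat_lit 8) (.ev (nat_lit 1680) (nat_lit 67108896)
 (.ev (nat_lit 1693) (nat_lit 2048) .dd))) (.ch (nat_lit 12) (.ev (nat_lit 1680) (nat_lit 67110912) (.ev
 (nat_lit 1693) (nat_lit 32) .dd))))))))))) (.br (nat_lit 6) (.ch (nat_lit 5) (.ev (nat_lit 1424) (nat_lit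
 8724154384) (.nd (nat_lit 1664) (.br (nat_lit 6) (.br (nat_lit 5) (.ch (nat_lit 3) (.ev (nat_lit 2484)
 (nat_lit 32) (.ev (nat_lit 2493) (nat_lit 67108864) .dd))) (.ch (nat_lit 5) (.ev (nat_lit 1680) (nat_lit
 67108896) .dd))) (.br (nat_lit 8) (.ch (nat_lit 6) (.ev (nat_lit 1680) (nat_lit 67108896) .dd)) (.br (nat_lit
 10) (.ch (nat_lit 8) (.ev (nat_lit 1680) (nat_lit 32) (.ev (nat_lit 1693) (nat_lit 67108864) .dd))) (.ch
 (nat_lit 10) (.ev (nat_lit 2052) (nat_lit 32) (.ev (nat_lit 2061) (nat_lit 67108864) .dd))))))))) (.br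
 (nat_lit 8) (.ch (nat_lit 6) (.ev (nat_lit 1424) (nat_lit 67108912) (.nd (nat_lit 1664) (.br (nat_lit 5) (.br
 (nat_lit 4) (.ch (nat_lit 1) (.ev (nat_lit 1680) (nat_lit 2048) (.ev (nat_lit 1716) (nat_lit 134217728) (.ev
 (nat_lit 1725) (nat_lit 8589934592) .dd)))) (.ch (nat_lit 4) (.ev (nat_lit 1680) (nat_lit 8589936640) (.ev
 (nat_lit 1693) (nat_lit 134217728) .dd)))) (.br (nat_lit 10) (.ch (nat_lit 5) (.ev (nat_lit 1680) (nat_lit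
 8589934592) (.ev (nat_lit 1716) (nat_lit 134217728) (.ev (nat_lit 1725) (nat_lit 2048) .dd)))) (.br (nat_lit
 12) (.ch (nat_lit 10) (.ev (nat_lit 1680) (nat_lit 8589936640) (.ev (nat_lit 1693) (nat_lit 134217728) .dd)))
 (.ch (nat_lit 12) (.ev (nat_lit 1680) (nat_lit 8724152320) (.ev (nat_lit 1693) (nat_lit 2048) .dd)))))))))
 (.ch (nat_lit 8) (.ev (nat_lit 1424) (nat_lit 8657045520) (.nd (nat_lit 1664) (.br (nat_lit 5) (.br (nat_lit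
 1) (.ch (nat_lit 0) (.ev (nat_lit 1680) (nat_lit 134217728) (.ev (nat_lit 1693) (nat_lit 32) .dd))) (.br
 (nat_lit 2) (.ch (nat_lit 1) (.ev (nat_lit 1680) (nat_lit 134217760) .dd)) (.ch (nat_lit 2) (.ev (nat_lit
 1680) (nat_lit 134217760) .dd)))) (.br (nat_lit 8) (.ch (nat_lit 5) (.ev (nat_lit 1680) (nat_lit 134217760)
 .dd)) (.br (nat_lit 9) (.ch (nat_lit 8) (.ev (nat_lit 1680) (nat_lit 32) (.ev (nat_lit 1693) (nat_lit
 134217728) .dd))) (.ch (nat_lit 9) (.ev (nat_lit 1680) (nat_lit 134217760) .dd))))))))))))))))))) (.ch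
 (nat_lit 18) (.ev (nat_lit 52) (nat_lit 234887216) (.ev (nat_lit 384) (nat_lit 78942348544) .dd))))))) (.br
 (nat_lit 29) (.br (nat_lit 23) (.br (nat_lit 22) (.ch (nat_lit 19) (.ev (nat_lit 52) (nat_lit 69390840096)
 (.ev (nat_lit 564) (nat_lit 16777216) (.ev (nat_lit 628) (nat_lit 32768) (.nd (nat_lit 1408) (.br (nat_lit 6)
 (.br (nat_lit 1) (.ch (nat_lit 0) (.ev (nat_lit 1424) (nat_lit 1049616) (.nd (nat_lit 1664) (.br (nat_lit 5)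
 (.br (nat_lit 2) (.ch (nat_lit 1) (.ev (nat_lit 1680) (nat_lit 8661239808) (.ev (nat_lit 2128) (nat_lit
 1107296256) .dd))) (.br (nat_lit 4) (.ch (nat_lit 2) (.ev (nat_lit 1680) (nat_lit 71303168) (.ev (nat_lit
 1716) (nat_lit 2048) (.ev (nat_lit 1744) (nat_lit 8589934592) (.ev (nat_lit 2064) (nat_lit 1073741824) (.ev
 (nat_lit 2077) (nat_lit 33554432) .dd)))))) (.ch (nat_lit 4) (.ev (nat_lit 1680) (nat_lit 9667870720) (.ev
 (nat_lit 1892) (nat_lit 2048) (.ev (nat_lit 1952) (nat_lit 33554432) (.ev (nat_lit 1965) (nat_lit 67108864)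
 .dd))))))) (.br (nat_lit 9) (.ch (nat_lit 5) (.ev (nat_lit 1680) (nat_lit 9697232896) (.ev (nat_lit 3348)
 (nat_lit 4194304) (.ev (nat_lit 3357) (nat_lit 67108864) .dd)))) (.br (nat_lit 12) (.ch (nat_lit 9) (.ev
 (nat_lit 1680) (nat_lit 100665344) (.ev (nat_lit 2080) (nat_lit 8589934592) (.ev (nat_lit 2656) (nat_lit
 1073741824) (.ev (nat_lit 2669) (nat_lit 4194304) .dd))))) (.ch (nat_lit 12) (.ev (nat_lit 1680) (nat_lit
 9764341760) (.ev (nat_lit 1693) (nat_lit 4194304) .dd))))))))) (.br (nat_lit 4) (.ch (nat_lit 1) (.ev (nat_lit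
 1424) (nat_lit 1179648000) (.nd (nat_lit 1664) (.br (nat_lit 4) (.br (nat_lit 2) (.ch (nat_lit 0) (.ev
 (nat_lit 1680) (nat_lit 8589937664) (.ev (nat_lit 1693) (nat_lit 16) .dd))) (.br (nat_lit 3) (.ch (nat_lit 2)
 (.ev (nat_lit 1680) (nat_lit 8589936656) (.ev (nat_lit 1693) (nat_lit 1024) .dd))) (.ch (nat_lit 3) (.ev
 (nat_lit 1680) (nat_lit 16) (.ev (nat_lit 1716) (nat_lit 3072) (.ev (nat_lit 1725) (nat_lit 8589934592)
 .dd)))))) (.br (nat_lit 6) (.ch (nat_lit 4) (.ev (nat_lit 1680) (nat_lit 8589935616) (.ev (nat_lit 1920)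
 (nat_lit 16) (.ev (nat_lit 1933) (nat_lit 2048) .dd)))) (.br (nat_lit 10) (.ch (nat_lit 6) (.ev (nat_lit 1680)
 (nat_lit 3072) (.ev (nat_lit 1716) (nat_lit 8589934592) (.ev (nat_lit 1725) (nat_lit 16) .dd)))) (.ch (nat_lit
 10) (.ev (nat_lit 1696) (nat_lit 2048) (.ev (nat_lit 1808) (nat_lit 1024) (.ev (nat_lit 1824) (nat_lit
 8589934592) (.ev (nat_lit 1837) (nat_lit 16) .dd))))))))))) (.ch (nat_lit 4) (.ev (nat_lit 1424) (nat_lit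
 9698281472) (.nd (nat_lit 1664) (.br (nat_lit 8) (.br (nat_lit 1) (.ch (nat_lit 0) (.ev (nat_lit 1680)
 (nat_lit 67108880) (.ev (nat_lit 2340) (nat_lit 1024) (.ev (nat_lit 2349) (nat_lit 4194304) .dd)))) (.br
 (nat_lit 4) (.ch (nat_lit 1) (.ev (nat_lit 1744) (nat_lit 4194304) (.ev (nat_lit 1892) (nat_lit 16) (.ev
 (nat_lit 2064) (nat_lit 67109888) .dd)))) (.ch (nat_lit 4) (.ev (nat_lit 1680) (nat_lit 67109888) (.ev
 (nat_lit 1904) (nat_lit 16) (.ev (nat_lit 1917) (nat_lit 4194304) .dd)))))) (.br (nat_lit 9) (.ch (nat_lit 8)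
 (.ev (nat_lit 1680) (nat_lit 16) (.ev (nat_lit 1744) (nat_lit 4195328) (.ev (nat_lit 1757) (nat_lit 67108864)
 .dd)))) (.br (nat_lit 12) (.ch (nat_lit 9) (.ev (nat_lit 1680) (nat_lit 71304208) .dd)) (.ch (nat_lit 12) (.ev
 (nat_lit 1680) (nat_lit 67108864) (.ev (nat_lit 2180) (nat_lit 4195328) (.ev (nat_lit 2189) (nat_lit 16)
 .dd)))))))))))) (.br (nat_lit 9) (.ch (nat_lit 6) (.ev (nat_lit 1424) (nat_lit 9734980624) (.nd (nat_lit 1664)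
 (.br (nat_lit 8) (.br (nat_lit 5) (.ch (nat_lit 0) (.ev (nat_lit 1680) (nat_lit 2048) (.ev (nat_lit 2180)
 (nat_lit 1048576) (.ev (nat_lit 2189) (nat_lit 33554432) .dd)))) (.br (nat_lit 7) (.ch (nat_lit 5) (.ev
 (nat_lit 1680) (nat_lit 2048) (.ev (nat_lit 1716) (nat_lit 1048576) (.ev (nat_lit 1725) (nat_lit 33554432)
 .dd)))) (.ch (nat_lit 7) (.ev (nat_lit 1892) (nat_lit 2048) (.ev (nat_lit 2384) (nat_lit 33554432) (.ev
 (nat_lit 2397) (nat_lit 1048576) .dd)))))) (.br (nat_lit 10) (.ch (nat_lit 8) (.ev (nat_lit 1680) (nat_lit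
 2048) (.ev (nat_lit 1744) (nat_lit 34603008) .dd))) (.br (nat_lit 12) (.ch (nat_lit 10) (.ev (nat_lit 1716)
 (nat_lit 2048) (.ev (nat_lit 2052) (nat_lit 33554432) (.ev (nat_lit 2061) (nat_lit 1048576) .dd)))) (.ch
 (nat_lit 12) (.ev (nat_lit 1680) (nat_lit 34603008) (.ev (nat_lit 1693) (nat_lit 2048) .dd))))))))) (.br
 (nat_lit 11) (.ch (nat_lit 9) (.ev (nat_lit 1424) (nat_lit 9769585664) (.ev (nat_lit 1437) (nat_lit 16) .dd)))
 (.ch (nat_lit 11) (.ev (nat_lit 1424) (nat_lit 33556496) (.nd (nat_lit 1664) (.br (nat_lit 5) (.br (nat_lit 2)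
 (.ch (nat_lit 1) (.ev (nat_lit 1680) (nat_lit 8657044480) (.ev (nat_lit 1904) (nat_lit 1074790400) (.ev
 (nat_lit 1917) (nat_lit 4194304) .dd)))) (.br (nat_lit 3) (.ch (nat_lit 2) (.ev (nat_lit 1680) (nat_lit
 1074791424) (.ev (nat_lit 2180) (nat_lit 8589934592) (.ev (nat_lit 2192) (nat_lit 4194304) (.ev (nat_lit 2205)
 (nat_lit 67108864) .dd))))) (.ch (nat_lit 3) (.ev (nat_lit 1680) (nat_lit 1146093568) (.ev (nat_lit 2128)
 (nat_lit 8589934592) (.ev (nat_lit 2141) (nat_lit 1024) .dd)))))) (.br (nat_lit 8) (.ch (nat_lit 5) (.ev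
 (nat_lit 1680) (nat_lit 1074791424) (.ev (nat_lit 2740) (nat_lit 8589934592) (.ev (nat_lit 3396) (nat_lit
 4194304) (.ev (nat_lit 3405) (nat_lit 67108864) .dd))))) (.br (nat_lit 12) (.ch (nat_lit 8) (.ev (nat_lit
 1680) (nat_lit 1078984704) (.ev (nat_lit 1728) (nat_lit 1024) (.ev (nat_lit 1904) (nat_lit 8589934592) (.ev
 (nat_lit 1917) (nat_lit 67108864) .dd))))) (.ch (nat_lit 12) (.ev (nat_lit 1680) (nat_lit 8658092032) (.ev
 (nat_lit 2064) (nat_lit 1077936128) (.ev (nat_lit 2077) (nat_lit 1024) .dd)))))))))))))))))) (.ch (nat_lit 22)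
 (.ev (nat_lit 52) (nat_lit 9736033536) (.ev (nat_lit 148) (nat_lit 16) (.ev (nat_lit 276) (nat_lit 134217728)
 (.ev (nat_lit 1268) (nat_lit 40960) (.ev (nat_lit 1332) (nat_lit 32) (.nd (nat_lit 1408) (.br (nat_lit 8) (.br
 (nat_lit 5) (.ch (nat_lit 1) (.ev (nat_lit 1424) (nat_lit 570687488) (.nd (nat_lit 1664) (.br (nat_lit 7) (.br
 (nat_lit 4) (.ch (nat_lit 2) (.ev (nat_lit 1680) (nat_lit 16779264) (.ev (nat_lit 1693) (nat_lit 68719476736)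
 .dd))) (.ch (nat_lit 4) (.ev (nat_lit 1680) (nat_lit 2048) (.ev (nat_lit 1716) (nat_lit 16777216) (.ev
 (nat_lit 1725) (nat_lit 68719476736) .dd))))) (.br (nat_lit 8) (.ch (nat_lit 7) (.ev (nat_lit 1680) (nat_lit
 68719476736) (.ev (nat_lit 1716) (nat_lit 16777216) (.ev (nat_lit 1725) (nat_lit 2048) .dd)))) (.br (nat_lit
 10) (.ch (nat_lit 8) (.ev (nat_lit 1680) (nat_lit 68719478784) (.ev (nat_lit 1693) (nat_lit 16777216) .dd)))
 (.ch (nat_lit 10) (.ev (nat_lit 1680) (nat_lit 68719478784) (.ev (nat_lit 1693) (nat_lit 16777216)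
 .dd))))))))) (.br (nat_lit 6) (.ch (nat_lit 5) (.ev (nat_lit 1424) (nat_lit 68769810432) (.nd (nat_lit 1664)
 (.br (nat_lit 5) (.br (nat_lit 4) (.ch (nat_lit 0) (.ev (nat_lit 1680) (nat_lit 537133056) .dd)) (.ch (nat_lit
 4) (.ev (nat_lit 1680) (nat_lit 537133056) .dd))) (.br (nat_lit 10) (.ch (nat_lit 5) (.ev (nat_lit 1680)
 (nat_lit 536870912) (.ev (nat_lit 1693) (nat_lit 262144) .dd))) (.br (nat_lit 12) (.ch (nat_lit 10) (.ev
 (nat_lit 2052) (nat_lit 262144) (.ev (nat_lit 2061) (nat_lit 536870912) .dd))) (.ch (nat_lit 12) (.ev (nat_lit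
 2340) (nat_lit 262144) (.ev (nat_lit 2349) (nat_lit 536870912) .dd))))))))) (.ch (nat_lit 6) (.ev (nat_lit
 1424) (nat_lit 68753295360) (.nd (nat_lit 1664) (.br (nat_lit 7) (.br (nat_lit 1) (.ch (nat_lit 0) (.ev
 (nat_lit 1680) (nat_lit 553648128) .dd)) (.br (nat_lit 3) (.ch (nat_lit 1) (.ev (nat_lit 1680) (nat_lit
 536870912) (.ev (nat_lit 1693) (nat_lit 16777216) .dd))) (.ch (nat_lit 3) (.ev (nat_lit 1680) (nat_lit
 553648128) .dd)))) (.br (nat_lit 10) (.ch (nat_lit 7) (.ev (nat_lit 1680) (nat_lit 16777216) (.ev (nat_lit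
 1693) (nat_lit 536870912) .dd))) (.br (nat_lit 12) (.ch (nat_lit 10) (.ev (nat_lit 1680) (nat_lit 553648128)
 .dd)) (.ch (nat_lit 12) (.ev (nat_lit 1680) (nat_lit 553648128) .dd)))))))))) (.br (nat_lit 9) (.ch (nat_lit
 8) (.ev (nat_lit 1424) (nat_lit 69273389056) (.ev (nat_lit 1437) (nat_lit 33554432) .dd))) (.br (nat_lit 12)
 (.ch (nat_lit 9) (.ev (nat_lit 1424) (nat_lit 50333696) (.nd (nat_lit 1664) (.br (nat_lit 10) (.br (nat_lit 4)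
 (.ch (nat_lit 1) (.ev (nat_lit 1680) (nat_lit 68719738880) (.ev (nat_lit 1693) (nat_lit 536870912) .dd))) (.br
 (nat_lit 8) (.ch (nat_lit 4) (.ev (nat_lit 1680) (nat_lit 537133056) (.ev (nat_lit 1693) (nat_lit 68719476736)
 .dd))) (.ch (nat_lit 8) (.ev (nat_lit 1680) (nat_lit 68719476736) (.ev (nat_lit 1728) (nat_lit 262144) (.ev
 (nat_lit 1741) (nat_lit 536870912) .dd)))))) (.br (nat_lit 11) (.ch (nat_lit 10) (.ev (nat_lit 1680) (nat_lit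
 262144) (.ev (nat_lit 2180) (nat_lit 536870912) (.ev (nat_lit 2189) (nat_lit 68719476736) .dd)))) (.br
 (nat_lit 12) (.ch (nat_lit 11) (.ev (nat_lit 1680) (nat_lit 537133056) (.ev (nat_lit 1693) (nat_lit
 68719476736) .dd))) (.ch (nat_lit 12) (.ev (nat_lit 1680) (nat_lit 68719476736) (.ev (nat_lit 2548) (nat_lit
 262144) (.ev (nat_lit 2557) (nat_lit 536870912) .dd)))))))))) (.ch (nat_lit 12) (.ev (nat_lit 1424) (nat_lit
 553910272) (.nd (nat_lit 1664) (.br (nat_lit 5) (.br (nat_lit 1) (.ch (nat_lit 0) (.ev (nat_lit 1680) (nat_lit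
 68753031168) (.ev (nat_lit 1693) (nat_lit 2048) .dd))) (.br (nat_lit 4) (.ch (nat_lit 1) (.ev (nat_lit 1680)
 (nat_lit 68753031168) (.ev (nat_lit 1693) (nat_lit 2048) .dd))) (.ch (nat_lit 4) (.ev (nat_lit 1680) (nat_lit
 68719478784) (.ev (nat_lit 1693) (nat_lit 33554432) .dd))))) (.br (nat_lit 6) (.ch (nat_lit 5) (.ev (nat_lit
 1744) (nat_lit 68719476736) (.ev (nat_lit 2064) (nat_lit 33554432) (.ev (nat_lit 2077) (nat_lit 2048) .dd))))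
 (.br (nat_lit 7) (.ch (nat_lit 6) (.ev (nat_lit 1680) (nat_lit 68753033216) .dd)) (.ch (nat_lit 7) (.ev
 (nat_lit 1680) (nat_lit 68719478784) (.ev (nat_lit 1693) (nat_lit 33554432) .dd)))))))))))))))))))) (.br
 (nat_lit 24) (.ch (nat_lit 23) (.ev (nat_lit 52) (nat_lit 642003216) (.ev (nat_lit 500) (nat_lit 1024) (.ev
 (nat_lit 596) (nat_lit 32) (.ev (nat_lit 692) (nat_lit 1073741824) (.ev (nat_lit 1088) (nat_lit 77461489664)
 .dd)))))) (.br (nat_lit 26) (.ch (nat_lit 24) (.ev (nat_lit 52) (nat_lit 1615866128) (.ev (nat_lit 544)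
 (nat_lit 77561369632) .dd))) (.ch (nat_lit 26) (.ev (nat_lit 52) (nat_lit 8795750688) (.ev (nat_lit 180)
 (nat_lit 16) (.ev (nat_lit 948) (nat_lit 2048) (.ev (nat_lit 1044) (nat_lit 1024) (.nd (nat_lit 1408) (.br
 (nat_lit 6) (.br (nat_lit 5) (.ch (nat_lit 0) (.ev (nat_lit 1424) (nat_lit 1661992960) (.nd (nat_lit 1664)
 (.br (nat_lit 8) (.br (nat_lit 4) (.ch (nat_lit 2) (.ev (nat_lit 1680) (nat_lit 8192) (.ev (nat_lit 1744)
 (nat_lit 68719476736) (.ev (nat_lit 1757) (nat_lit 4096) .dd)))) (.br (nat_lit 5) (.ch (nat_lit 4) (.ev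
 (nat_lit 1680) (nat_lit 8192) (.ev (nat_lit 2340) (nat_lit 4096) (.ev (nat_lit 2349) (nat_lit 68719476736)
 .dd)))) (.ch (nat_lit 5) (.ev (nat_lit 1680) (nat_lit 4096) (.ev (nat_lit 2256) (nat_lit 68719484928) .dd)))))
 (.br (nat_lit 9) (.ch (nat_lit 8) (.ev (nat_lit 1680) (nat_lit 8192) (.ev (nat_lit 1728) (nat_lit 68719476736)
 (.ev (nat_lit 1741) (nat_lit 4096) .dd)))) (.br (nat_lit 11) (.ch (nat_lit 9) (.ev (nat_lit 1680) (nat_lit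
 68719480832) (.ev (nat_lit 1693) (nat_lit 8192) .dd))) (.ch (nat_lit 11) (.ev (nat_lit 1680) (nat_lit 8192)
 (.ev (nat_lit 1892) (nat_lit 4096) (.ev (nat_lit 1901) (nat_lit 68719476736) .dd)))))))))) (.ch (nat_lit 5)
 (.ev (nat_lit 1424) (nat_lit 68769812480) (.nd (nat_lit 1664) (.br (nat_lit 5) (.br (nat_lit 4) (.ch (nat_lit
 0) (.ev (nat_lit 1680) (nat_lit 536879104) (.ev (nat_lit 1716) (nat_lit 1048576) (.ev (nat_lit 1725) (nat_lit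
 1073741824) .dd)))) (.ch (nat_lit 4) (.ev (nat_lit 1680) (nat_lit 1610612736) (.ev (nat_lit 1716) (nat_lit
 8192) (.ev (nat_lit 1725) (nat_lit 1048576) .dd))))) (.br (nat_lit 8) (.ch (nat_lit 5) (.ev (nat_lit 1680)
 (nat_lit 1610612736) (.ev (nat_lit 1904) (nat_lit 1048576) (.ev (nat_lit 1917) (nat_lit 8192) .dd)))) (.br
 (nat_lit 12) (.ch (nat_lit 8) (.ev (nat_lit 1680) (nat_lit 1611661312) (.ev (nat_lit 1693) (nat_lit 8192)
 .dd))) (.ch (nat_lit 12) (.ev (nat_lit 1680) (nat_lit 8192) (.ev (nat_lit 1760) (nat_lit 1074790400) (.ev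
 (nat_lit 1773) (nat_lit 536870912) .dd))))))))))) (.br (nat_lit 11) (.ch (nat_lit 6) (.ev (nat_lit 1424)
 (nat_lit 69274173440) (.nd (nat_lit 1664) (.br (nat_lit 7) (.br (nat_lit 4) (.ch (nat_lit 0) (.ev (nat_lit
 1680) (nat_lit 1073741824) (.ev (nat_lit 1776) (nat_lit 12288) (.ev (nat_lit 1789) (nat_lit 33554432) .dd))))
 (.ch (nat_lit 4) (.ev (nat_lit 1680) (nat_lit 33566720) (.ev (nat_lit 1693) (nat_lit 1073741824) .dd)))) (.br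
 (nat_lit 8) (.ch (nat_lit 7) (.ev (nat_lit 1680) (nat_lit 33562624) (.ev (nat_lit 1904) (nat_lit 4096) (.ev
 (nat_lit 1917) (nat_lit 1073741824) .dd)))) (.br (nat_lit 12) (.ch (nat_lit 8) (.ev (nat_lit 1680) (nat_lit
 33562624) (.ev (nat_lit 1716) (nat_lit 1073741824) (.ev (nat_lit 1725) (nat_lit 4096) .dd)))) (.ch (nat_lit
 12) (.ev (nat_lit 1680) (nat_lit 1107296256) (.ev (nat_lit 1716) (nat_lit 4096) (.ev (nat_lit 1725) (nat_lit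
 8192) .dd)))))))))) (.br (nat_lit 12) (.ch (nat_lit 11) (.ev (nat_lit 1424) (nat_lit 69289914368) (.nd
 (nat_lit 1664) (.br (nat_lit 6) (.br (nat_lit 2) (.ch (nat_lit 1) (.ev (nat_lit 1680) (nat_lit 17825792) (.ev
 (nat_lit 1693) (nat_lit 1073741824) .dd))) (.br (nat_lit 5) (.ch (nat_lit 2) (.ev (nat_lit 1680) (nat_lit
 1073741824) (.ev (nat_lit 1728) (nat_lit 16777216) (.ev (nat_lit 1741) (nat_lit 1048576) .dd)))) (.ch (nat_lit
 5) (.ev (nat_lit 1680) (nat_lit 1048576) (.ev (nat_lit 2340) (nat_lit 16777216) (.ev (nat_lit 2349) (nat_lit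
 1073741824) .dd)))))) (.br (nat_lit 8) (.ch (nat_lit 6) (.ev (nat_lit 1680) (nat_lit 1073741824) (.ev (nat_lit
 2340) (nat_lit 1048576) (.ev (nat_lit 2349) (nat_lit 16777216) .dd)))) (.br (nat_lit 12) (.ch (nat_lit 8) (.ev
 (nat_lit 1680) (nat_lit 1073741824) (.ev (nat_lit 1744) (nat_lit 16777216) (.ev (nat_lit 1757) (nat_lit
 1048576) .dd)))) (.ch (nat_lit 12) (.ev (nat_lit 1680) (nat_lit 1073741824) (.ev (nat_lit 1892) (nat_lit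
 1048576) (.ev (nat_lit 1901) (nat_lit 16777216) .dd)))))))))) (.ch (nat_lit 12) (.ev (nat_lit 1424) (nat_lit
 570425344) (.ev (nat_lit 1638) (nat_lit 1073741824) (.nd (nat_lit 1664) (.br (nat_lit 9) (.br (nat_lit 5) (.ch
 (nat_lit 4) (.ev (nat_lit 1680) (nat_lit 68736258048) (.ev (nat_lit 1716) (nat_lit 8192) (.ev (nat_lit 1725)
 (nat_lit 1048576) .dd)))) (.br (nat_lit 7) (.ch (nat_lit 5) (.ev (nat_lit 1680) (nat_lit 12288) (.ev (nat_lit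
 2052) (nat_lit 68719476736) (.ev (nat_lit 2180) (nat_lit 16777216) (.ev (nat_lit 2189) (nat_lit 1048576)
 .dd))))) (.ch (nat_lit 7) (.ev (nat_lit 1680) (nat_lit 68720537600) (.ev (nat_lit 1693) (nat_lit 16777216)
 .dd))))) (.br (nat_lit 11) (.ch (nat_lit 9) (.ev (nat_lit 1680) (nat_lit 17829888) (.ev (nat_lit 2180)
 (nat_lit 68719476736) (.ev (nat_lit 2189) (nat_lit 8192) .dd)))) (.br (nat_lit 12) (.ch (nat_lit 11) (.ev
 (nat_lit 1680) (nat_lit 1056768) (.ev (nat_lit 2052) (nat_lit 16781312) (.ev (nat_lit 2061) (nat_lit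
 68719476736) .dd)))) (.ch (nat_lit 12) (.ev (nat_lit 1680) (nat_lit 68737302528) (.ev (nat_lit 2192) (nat_lit
 4096) (.ev (nat_lit 2205) (nat_lit 8192) .dd))))))))))))))))))))))) (.br (nat_lit 34) (.br (nat_lit 31) (.ch
 (nat_lit 29) (.ev (nat_lit 52) (nat_lit 84154672) (.ev (nat_lit 244) (nat_lit 1048576) (.ev (nat_lit 404)
 (nat_lit 536870912) (.ev (nat_lit 468) (nat_lit 1073741824) (.ev (nat_lit 896) (nat_lit 77481419776) .dd))))))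
 (.br (nat_lit 33) (.ch (nat_lit 31) (.ev (nat_lit 52) (nat_lit 591397920) (.ev (nat_lit 404) (nat_lit 4096)
 (.ev (nat_lit 724) (nat_lit 32768) (.ev (nat_lit 852) (nat_lit 8192) (.nd (nat_lit 1408) (.br (nat_lit 8) (.br
 (nat_lit 5) (.ch (nat_lit 0) (.ev (nat_lit 1424) (nat_lit 9798944768) (.nd (nat_lit 1664) (.br (nat_lit 8)
 (.br (nat_lit 4) (.ch (nat_lit 0) (.ev (nat_lit 1680) (nat_lit 68719477008) (.ev (nat_lit 1824) (nat_lit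
 67108864) (.ev (nat_lit 1837) (nat_lit 262144) .dd)))) (.br (nat_lit 5) (.ch (nat_lit 4) (.ev (nat_lit 1680)
 (nat_lit 68719476752) (.ev (nat_lit 1716) (nat_lit 262144) (.ev (nat_lit 1728) (nat_lit 67108864) (.ev
 (nat_lit 1741) (nat_lit 256) .dd))))) (.ch (nat_lit 5) (.ev (nat_lit 1680) (nat_lit 262400) (.ev (nat_lit
 1892) (nat_lit 67108864) (.ev (nat_lit 2180) (nat_lit 16) (.ev (nat_lit 2189) (nat_lit 68719476736) .dd)))))))
 (.br (nat_lit 11) (.ch (nat_lit 8) (.ev (nat_lit 1680) (nat_lit 67371008) (.ev (nat_lit 1892) (nat_lit 16)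
 (.ev (nat_lit 2064) (nat_lit 256) (.ev (nat_lit 2077) (nat_lit 68719476736) .dd))))) (.br (nat_lit 12) (.ch
 (nat_lit 11) (.ev (nat_lit 1680) (nat_lit 67108880) (.ev (nat_lit 2180) (nat_lit 68719738880) (.ev (nat_lit
 2189) (nat_lit 256) .dd)))) (.ch (nat_lit 12) (.ev (nat_lit 1680) (nat_lit 67108880) (.ev (nat_lit 2340)
 (nat_lit 262144) (.ev (nat_lit 2352) (nat_lit 256) (.ev (nat_lit 2365) (nat_lit 68719476736) .dd)))))))))))
 (.br (nat_lit 6) (.ch (nat_lit 5) (.ev (nat_lit 1424) (nat_lit 77376520192) (.nd (nat_lit 1664) (.br (nat_lit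
 5) (.br (nat_lit 1) (.ch (nat_lit 0) (.ev (nat_lit 1680) (nat_lit 134479888) (.ev (nat_lit 2352) (nat_lit
 2048) (.ev (nat_lit 2644) (nat_lit 256) (.ev (nat_lit 2740) (nat_lit 1048576) (.ev (nat_lit 2749) (nat_lit
 1073741824) .dd)))))) (.ch (nat_lit 1) (.ev (nat_lit 1680) (nat_lit 1074790656) (.ev (nat_lit 1716) (nat_lit
 264192) (.ev (nat_lit 1840) (nat_lit 134217728) (.ev (nat_lit 1853) (nat_lit 16) .dd)))))) (.br (nat_lit 10)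
 (.ch (nat_lit 5) (.ev (nat_lit 1680) (nat_lit 1207959808) (.ev (nat_lit 1716) (nat_lit 1312768) (.ev (nat_lit
 1725) (nat_lit 16) .dd)))) (.br (nat_lit 12) (.ch (nat_lit 10) (.ev (nat_lit 1680) (nat_lit 1075054592) (.ev
 (nat_lit 1716) (nat_lit 16) (.ev (nat_lit 1892) (nat_lit 134217728) (.ev (nat_lit 1901) (nat_lit 256) .dd)))))
 (.ch (nat_lit 12) (.ev (nat_lit 1680) (nat_lit 1073741840) (.ev (nat_lit 1716) (nat_lit 134219776) (.ev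
 (nat_lit 1892) (nat_lit 262144) (.ev (nat_lit 3092) (nat_lit 256) (.ev (nat_lit 3101) (nat_lit 1048576)
 .dd)))))))))))) (.ch (nat_lit 6) (.ev (nat_lit 1424) (nat_lit 77376782352) (.nd (nat_lit 1664) (.br (nat_lit
 7) (.br (nat_lit 3) (.ch (nat_lit 1) (.ev (nat_lit 1680) (nat_lit 1073744128) (.ev (nat_lit 1892) (nat_lit
 1048576) (.ev (nat_lit 1901) (nat_lit 134217728) .dd)))) (.br (nat_lit 5) (.ch (nat_lit 3) (.ev (nat_lit 1680)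
 (nat_lit 2304) (.ev (nat_lit 2484) (nat_lit 1048576) (.ev (nat_lit 2868) (nat_lit 1073741824) (.ev (nat_lit
 2877) (nat_lit 134217728) .dd))))) (.ch (nat_lit 5) (.ev (nat_lit 1680) (nat_lit 1073742080) (.ev (nat_lit
 1716) (nat_lit 1050624) (.ev (nat_lit 1725) (nat_lit 134217728) .dd)))))) (.br (nat_lit 10) (.ch (nat_lit 7)
 (.ev (nat_lit 1680) (nat_lit 1209008384) (.ev (nat_lit 1693) (nat_lit 2048) .dd))) (.br (nat_lit 12) (.ch
 (nat_lit 10) (.ev (nat_lit 1680) (nat_lit 1074792448) (.ev (nat_lit 2400) (nat_lit 134217984) .dd))) (.ch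
 (nat_lit 12) (.ev (nat_lit 1680) (nat_lit 1209008128) (.ev (nat_lit 1728) (nat_lit 2304) .dd))))))))))) (.br
 (nat_lit 9) (.ch (nat_lit 8) (.ev (nat_lit 1424) (nat_lit 77377832976) (.nd (nat_lit 1664) (.br (nat_lit 6)
 (.br (nat_lit 5) (.ch (nat_lit 0) (.ev (nat_lit 1680) (nat_lit 134217728) (.ev (nat_lit 1892) (nat_lit 256)
 (.ev (nat_lit 1901) (nat_lit 1073741824) .dd)))) (.ch (nat_lit 5) (.ev (nat_lit 1680) (nat_lit 1073741824)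
 (.ev (nat_lit 1728) (nat_lit 256) (.ev (nat_lit 1741) (nat_lit 134217728) .dd))))) (.br (nat_lit 8) (.ch
 (nat_lit 6) (.ev (nat_lit 1680) (nat_lit 134217984) (.ev (nat_lit 1693) (nat_lit 1073741824) .dd))) (.ch
 (nat_lit 8) (.ev (nat_lit 1680) (nat_lit 1073742080) (.ev (nat_lit 1693) (nat_lit 134217728) .dd)))))))) (.br
 (nat_lit 12) (.ch (nat_lit 9) (.ev (nat_lit 1424) (nat_lit 9798942976) (.nd (nat_lit 1664) (.br (nat_lit 10)
 (.br (nat_lit 2) (.ch (nat_lit 1) (.ev (nat_lit 1680) (nat_lit 67110928) (.ev (nat_lit 2180) (nat_lit 262144)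
 (.ev (nat_lit 2189) (nat_lit 68719476736) .dd)))) (.br (nat_lit 4) (.ch (nat_lit 2) (.ev (nat_lit 1680)
 (nat_lit 68719738896) (.fin (nat_lit 576461302078587464)))) (.ch (nat_lit 4) (.ev (nat_lit 1680) (nat_lit
 67373056) (.ev (nat_lit 2180) (nat_lit 16) (.ev (nat_lit 2189) (nat_lit 68719476736) .dd)))))) (.br (nat_lit
 11) (.ch (nat_lit 10) (.ev (nat_lit 1680) (nat_lit 2048) (.ev (nat_lit 2340) (nat_lit 68719738896) (.ev
 (nat_lit 2349) (nat_lit 67108864) .dd)))) (.br (nat_lit 12) (.ch (nat_lit 11) (.ev (nat_lit 1680) (nat_lit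
 67371008) (.ev (nat_lit 1716) (nat_lit 2064) (.ev (nat_lit 1725) (nat_lit 68719476736) .dd)))) (.ch (nat_lit
 12) (.ev (nat_lit 1680) (nat_lit 68719476752) (.ev (nat_lit 1716) (nat_lit 2048) (.ev (nat_lit 2180) (nat_lit
 67108864) (.ev (nat_lit 2189) (nat_lit 262144) .dd))))))))))) (.ch (nat_lit 12) (.ev (nat_lit 1424) (nat_lit
 68787898368) (.nd (nat_lit 1664) (.br (nat_lit 7) (.br (nat_lit 5) (.ch (nat_lit 4) (.ev (nat_lit 1680)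
 (nat_lit 9663676688) (.ev (nat_lit 1693) (nat_lit 134217728) .dd))) (.br (nat_lit 6) (.ch (nat_lit 5) (.ev
 (nat_lit 1680) (nat_lit 134217984) (.ev (nat_lit 2052) (nat_lit 16) (.ev (nat_lit 2240) (nat_lit 9663676416)
 .dd)))) (.ch (nat_lit 6) (.ev (nat_lit 1716) (nat_lit 1207959808) (.ev (nat_lit 1728) (nat_lit 16) (.ev
 (nat_lit 1741) (nat_lit 8589934592) .dd)))))) (.br (nat_lit 9) (.ch (nat_lit 7) (.ev (nat_lit 1680) (nat_lit
 8724152336) (.ev (nat_lit 1728) (nat_lit 1073742080) .dd))) (.br (nat_lit 11) (.ch (nat_lit 9) (.ev (nat_lit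
 1680) (nat_lit 9797894400) (.ev (nat_lit 1693) (nat_lit 16) .dd))) (.ch (nat_lit 11) (.ev (nat_lit 1680)
 (nat_lit 1073742096) (.ev (nat_lit 2340) (nat_lit 134217728) (.ev (nat_lit 2349) (nat_lit 8589934592)
 .dd))))))))))))))))))) (.ch (nat_lit 33) (.ev (nat_lit 52) (nat_lit 68921863168) (.ev (nat_lit 308) (nat_lit
 4194304) (.ev (nat_lit 564) (nat_lit 33554432) (.ev (nat_lit 1300) (nat_lit 16777216) (.nd (nat_lit 1408) (.br
 (nat_lit 8) (.br (nat_lit 4) (.ch (nat_lit 1) (.ev (nat_lit 1424) (nat_lit 8590233632) (.ev (nat_lit 1654)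
 (nat_lit 16) (.nd (nat_lit 1664) (.br (nat_lit 4) (.br (nat_lit 3) (.ch (nat_lit 0) (.ev (nat_lit 1680)
 (nat_lit 1610612992) .dd)) (.ch (nat_lit 3) (.ev (nat_lit 1680) (nat_lit 536870912) (.ev (nat_lit 1892)
 (nat_lit 256) (.ev (nat_lit 1901) (nat_lit 1073741824) .dd))))) (.br (nat_lit 6) (.ch (nat_lit 4) (.ev
 (nat_lit 1680) (nat_lit 536870912) (.ev (nat_lit 2548) (nat_lit 256) (.ev (nat_lit 2557) (nat_lit 1073741824)
 .dd)))) (.br (nat_lit 8) (.ch (nat_lit 6) (.ev (nat_lit 1680) (nat_lit 1610612736) (.ev (nat_lit 1693)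
 (nat_lit 256) .dd))) (.ch (nat_lit 8) (.ev (nat_lit 1716) (nat_lit 1073741824) (.ev (nat_lit 2052) (nat_lit
 536870912) (.ev (nat_lit 2061) (nat_lit 256) .dd))))))))))) (.br (nat_lit 6) (.ch (nat_lit 4) (.ev (nat_lit
 1424) (nat_lit 10200842528) (.nd (nat_lit 1664) (.br (nat_lit 4) (.br (nat_lit 1) (.ch (nat_lit 0) (.ev
 (nat_lit 1680) (nat_lit 4112) .dd)) (.br (nat_lit 3) (.ch (nat_lit 1) (.ev (nat_lit 1680) (nat_lit 4096) (.ev
 (nat_lit 1693) (nat_lit 16) .dd))) (.ch (nat_lit 3) (.ev (nat_lit 1728) (nat_lit 4112) .dd)))) (.br (nat_lit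
 6) (.ch (nat_lit 4) (.ev (nat_lit 1680) (nat_lit 16) (.ev (nat_lit 1693) (nat_lit 4096) .dd))) (.br (nat_lit
 9) (.ch (nat_lit 6) (.ev (nat_lit 1680) (nat_lit 4112) .dd)) (.ch (nat_lit 9) (.ev (nat_lit 1680) (nat_lit
 4096) (.ev (nat_lit 1693) (nat_lit 16) .dd))))))))) (.ch (nat_lit 6) (.ev (nat_lit 1424) (nat_lit 537137184)
 (.nd (nat_lit 1664) (.br (nat_lit 7) (.br (nat_lit 4) (.ch (nat_lit 1) (.ev (nat_lit 1680) (nat_lit
 1073774608) (.ev (nat_lit 1716) (nat_lit 256) (.ev (nat_lit 1725) (nat_lit 8589934592) .dd)))) (.br (nat_lit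
 5) (.ch (nat_lit 4) (.ev (nat_lit 1680) (nat_lit 8589934848) (.ev (nat_lit 1716) (nat_lit 32768) (.ev (nat_lit
 1892) (nat_lit 16) (.ev (nat_lit 1901) (nat_lit 1073741824) .dd))))) (.ch (nat_lit 5) (.ev (nat_lit 1680)
 (nat_lit 8589967632) (.ev (nat_lit 1693) (nat_lit 1073741824) .dd))))) (.br (nat_lit 10) (.ch (nat_lit 7) (.ev
 (nat_lit 1680) (nat_lit 8589967632) (.ev (nat_lit 1693) (nat_lit 1073741824) .dd))) (.br (nat_lit 12) (.ch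
 (nat_lit 10) (.ev (nat_lit 1680) (nat_lit 8589934848) (.ev (nat_lit 1716) (nat_lit 16) (.ev (nat_lit 2368)
 (nat_lit 32768) (.ev (nat_lit 2381) (nat_lit 1073741824) .dd))))) (.ch (nat_lit 12) (.ev (nat_lit 1680)
 (nat_lit 1073741840) (.ev (nat_lit 1716) (nat_lit 8589934592) (.fin (nat_lit 576465700104127060)))))))))))))
 (.br (nat_lit 11) (.ch (nat_lit 8) (.ev (nat_lit 1424) (nat_lit 10200842288) (.nd (nat_lit 1664) (.br (nat_lit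
 8) (.br (nat_lit 2) (.ch (nat_lit 1) (.ev (nat_lit 1680) (nat_lit 4352) .dd)) (.br (nat_lit 5) (.ch (nat_lit
 2) (.ev (nat_lit 1680) (nat_lit 4096) (.ev (nat_lit 1693) (nat_lit 256) .dd))) (.ch (nat_lit 5) (.ev (nat_lit
 1680) (nat_lit 4352) .dd)))) (.br (nat_lit 11) (.ch (nat_lit 8) (.ev (nat_lit 1680) (nat_lit 256) (.ev
 (nat_lit 1693) (nat_lit 4096) .dd))) (.br (nat_lit 12) (.ch (nat_lit 11) (.ev (nat_lit 1680) (nat_lit 4096)
 (.ev (nat_lit 1693) (nat_lit 256) .dd))) (.ch (nat_lit 12) (.ev (nat_lit 2052) (nat_lit 4096) (.ev (nat_lit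
 2061) (nat_lit 256) .dd))))))))) (.br (nat_lit 12) (.ch (nat_lit 11) (.ev (nat_lit 1424) (nat_lit 536875264)
 (.nd (nat_lit 1664) (.br (nat_lit 3) (.br (nat_lit 1) (.ch (nat_lit 0) (.ev (nat_lit 1680) (nat_lit
 8589934640) (.ev (nat_lit 1716) (nat_lit 1073774592) (.ev (nat_lit 1725) (nat_lit 262144) .dd)))) (.br
 (nat_lit 2) (.ch (nat_lit 1) (.ev (nat_lit 1680) (nat_lit 294928) (.ev (nat_lit 1936) (nat_lit 8589934592)
 (.ev (nat_lit 2548) (nat_lit 32) (.ev (nat_lit 2557) (nat_lit 1073741824) .dd))))) (.ch (nat_lit 2) (.ev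
 (nat_lit 1680) (nat_lit 1074004000) (.ev (nat_lit 2052) (nat_lit 32768) (.fin (nat_lit
 576514078089364036))))))) (.br (nat_lit 5) (.ch (nat_lit 3) (.ev (nat_lit 1680) (nat_lit 294928) (.ev (nat_lit
 2192) (nat_lit 1073741824) (.fin (nat_lit 576465700039115120))))) (.br (nat_lit 8) (.ch (nat_lit 5) (.ev
 (nat_lit 1680) (nat_lit 8590196752) (.ev (nat_lit 1744) (nat_lit 32768) (.ev (nat_lit 1892) (nat_lit
 1073741824) (.ev (nat_lit 1901) (nat_lit 32) .dd))))) (.ch (nat_lit 8) (.ev (nat_lit 1680) (nat_lit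
 1073774624) (.ev (nat_lit 1892) (nat_lit 16) (.ev (nat_lit 2208) (nat_lit 8590196736) .dd)))))))))) (.ch
 (nat_lit 12) (.ev (nat_lit 1424) (nat_lit 10200842512) (.nd (nat_lit 1664) (.br (nat_lit 6) (.br (nat_lit 5)
 (.ch (nat_lit 0) (.ev (nat_lit 1680) (nat_lit 4096) (.ev (nat_lit 1693) (nat_lit 32) .dd))) (.ch (nat_lit 5)
 (.ev (nat_lit 1680) (nat_lit 4096) (.ev (nat_lit 1693) (nat_lit 32) .dd)))) (.br (nat_lit 9) (.ch (nat_lit 6)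
 (.ev (nat_lit 1968) (nat_lit 32) (.ev (nat_lit 1981) (nat_lit 4096) .dd))) (.ch (nat_lit 9) (.ev (nat_lit
 1680) (nat_lit 4096) (.ev (nat_lit 1693) (nat_lit 32) .dd))))))))))))))))))) (.br (nat_lit 36) (.ch (nat_lit
 34) (.ev (nat_lit 52) (nat_lit 1073785088) (.ev (nat_lit 372) (nat_lit 67108864) (.ev (nat_lit 436) (nat_lit
 32) (.ev (nat_lit 500) (nat_lit 4194304) (.ev (nat_lit 532) (nat_lit 16) (.ev (nat_lit 1172) (nat_lit
 8589934592) (.nd (nat_lit 1408) (.br (nat_lit 9) (.br (nat_lit 4) (.ch (nat_lit 1) (.ev (nat_lit 1424)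
 (nat_lit 169083904) (.nd (nat_lit 1664) (.br (nat_lit 7) (.br (nat_lit 4) (.ch (nat_lit 3) (.ev (nat_lit 1680)
 (nat_lit 536875008) (.ev (nat_lit 1716) (nat_lit 68719476736) (.ev (nat_lit 1725) (nat_lit 16777216) .dd))))
 (.ch (nat_lit 4) (.ev (nat_lit 1680) (nat_lit 553648128) (.ev (nat_lit 1716) (nat_lit 4096) (.ev (nat_lit
 1725) (nat_lit 68719476736) .dd))))) (.br (nat_lit 8) (.ch (nat_lit 7) (.ev (nat_lit 1680) (nat_lit
 69256347648) (.ev (nat_lit 2096) (nat_lit 16777216) (.ev (nat_lit 2109) (nat_lit 4096) .dd)))) (.br (nat_lit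
 10) (.ch (nat_lit 8) (.ev (nat_lit 1680) (nat_lit 69273128960) .dd)) (.ch (nat_lit 10) (.ev (nat_lit 1680)
 (nat_lit 68736258048) (.ev (nat_lit 1693) (nat_lit 536870912) .dd))))))))) (.br (nat_lit 6) (.ch (nat_lit 4)
 (.ev (nat_lit 1424) (nat_lit 69425172480) (.nd (nat_lit 1664) (.br (nat_lit 6) (.br (nat_lit 3) (.ch (nat_lit
 0) (.ev (nat_lit 1936) (nat_lit 16777216) (.ev (nat_lit 2484) (nat_lit 262144) (.ev (nat_lit 2493) (nat_lit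
 1024) .dd)))) (.br (nat_lit 4) (.ch (nat_lit 3) (.ev (nat_lit 1680) (nat_lit 17040384) .dd)) (.ch (nat_lit 4)
 (.ev (nat_lit 1680) (nat_lit 262144) (.ev (nat_lit 1716) (nat_lit 1024) (.ev (nat_lit 1725) (nat_lit 16777216)
 .dd)))))) (.br (nat_lit 7) (.ch (nat_lit 6) (.ev (nat_lit 1680) (nat_lit 17039360) (.ev (nat_lit 1693)
 (nat_lit 1024) .dd))) (.br (nat_lit 9) (.ch (nat_lit 7) (.ev (nat_lit 1680) (nat_lit 1024) (.ev (nat_lit 2484)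
 (nat_lit 16777216) (.ev (nat_lit 2493) (nat_lit 262144) .dd)))) (.ch (nat_lit 9) (.ev (nat_lit 1680) (nat_lit
 17040384) .dd)))))))) (.ch (nat_lit 6) (.ev (nat_lit 1424) (nat_lit 68736517120) (.nd (nat_lit 1664) (.br
 (nat_lit 8) (.br (nat_lit 3) (.ch (nat_lit 1) (.ev (nat_lit 1680) (nat_lit 168824832) (.ev (nat_lit 1693)
 (nat_lit 536870912) .dd))) (.br (nat_lit 4) (.ch (nat_lit 3) (.ev (nat_lit 1680) (nat_lit 33554432) (.ev
 (nat_lit 1716) (nat_lit 1048576) (.ev (nat_lit 2180) (nat_lit 671088640) (.ev (nat_lit 2189) (nat_lit 4096)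
 .dd))))) (.ch (nat_lit 4) (.ev (nat_lit 1680) (nat_lit 168820736) (.ev (nat_lit 1892) (nat_lit 536870912) (.ev
 (nat_lit 1901) (nat_lit 4096) .dd)))))) (.br (nat_lit 10) (.ch (nat_lit 8) (.ev (nat_lit 1680) (nat_lit
 536875008) (.ev (nat_lit 1904) (nat_lit 1048576) (.ev (nat_lit 2180) (nat_lit 134217728) (.ev (nat_lit 2189)
 (nat_lit 33554432) .dd))))) (.br (nat_lit 12) (.ch (nat_lit 10) (.ev (nat_lit 1680) (nat_lit 167776256) (.ev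
 (nat_lit 1716) (nat_lit 1048576) (.ev (nat_lit 1725) (nat_lit 536870912) .dd)))) (.ch (nat_lit 12) (.ev
 (nat_lit 1680) (nat_lit 571473920) (.ev (nat_lit 1716) (nat_lit 134217728) (.ev (nat_lit 1725) (nat_lit 4096)
 .dd)))))))))))) (.br (nat_lit 11) (.ch (nat_lit 9) (.ev (nat_lit 1424) (nat_lit 50336768) (.nd (nat_lit 1664)
 (.br (nat_lit 4) (.br (nat_lit 2) (.ch (nat_lit 1) (.ev (nat_lit 1680) (nat_lit 68720787456) (.ev (nat_lit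
 2052) (nat_lit 134217728) (.ev (nat_lit 2061) (nat_lit 536870912) .dd)))) (.br (nat_lit 3) (.ch (nat_lit 2)
 (.ev (nat_lit 1680) (nat_lit 69256609792) (.ev (nat_lit 2180) (nat_lit 1048576) (.ev (nat_lit 2189) (nat_lit
 134217728) .dd)))) (.ch (nat_lit 3) (.ev (nat_lit 1680) (nat_lit 134479872) (.ev (nat_lit 1716) (nat_lit
 68719476736) (.ev (nat_lit 2484) (nat_lit 536870912) (.ev (nat_lit 2493) (nat_lit 1048576) .dd))))))) (.br
 (nat_lit 9) (.ch (nat_lit 4) (.ev (nat_lit 1680) (nat_lit 671350784) (.ev (nat_lit 2352) (nat_lit 1048576)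
 (.ev (nat_lit 2365) (nat_lit 68719476736) .dd)))) (.br (nat_lit 12) (.ch (nat_lit 9) (.ev (nat_lit 1680)
 (nat_lit 537133056) (.ev (nat_lit 2112) (nat_lit 134217728) (.ev (nat_lit 2192) (nat_lit 68719476736) (.ev
 (nat_lit 2205) (nat_lit 1048576) .dd))))) (.ch (nat_lit 12) (.ev (nat_lit 1680) (nat_lit 1048576) (.ev
 (nat_lit 1728) (nat_lit 536870912) (.ev (nat_lit 1892) (nat_lit 68719476736) (.ev (nat_lit 2340) (nat_lit
 262144) (.ev (nat_lit 2349) (nat_lit 134217728) .dd)))))))))))) (.br (nat_lit 12) (.ch (nat_lit 11) (.ev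
 (nat_lit 1424) (nat_lit 69306679296) (.nd (nat_lit 1664) (.br (nat_lit 4) (.br (nat_lit 3) (.ch (nat_lit 0)
 (.ev (nat_lit 1680) (nat_lit 134217728) (.ev (nat_lit 1716) (nat_lit 1052672) (.fin (nat_lit
 576342555093319792))))) (.ch (nat_lit 3) (.ev (nat_lit 1680) (nat_lit 135270400) (.ev (nat_lit 2052) (nat_lit
 262144) (.ev (nat_lit 2061) (nat_lit 1024) .dd))))) (.br (nat_lit 5) (.ch (nat_lit 4) (.ev (nat_lit 1680)
 (nat_lit 1310720) (.ev (nat_lit 1716) (nat_lit 4096) (.ev (nat_lit 2052) (nat_lit 1024) (.ev (nat_lit 2061)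
 (nat_lit 134217728) .dd))))) (.br (nat_lit 12) (.ch (nat_lit 5) (.ev (nat_lit 1680) (nat_lit 1311744) (.ev
 (nat_lit 1716) (nat_lit 4096) (.ev (nat_lit 1725) (nat_lit 134217728) .dd)))) (.ch (nat_lit 12) (.ev (nat_lit
 1680) (nat_lit 263168) (.ev (nat_lit 1716) (nat_lit 4096) (.ev (nat_lit 1892) (nat_lit 1048576) (.ev (nat_lit
 1901) (nat_lit 134217728) .dd))))))))))) (.ch (nat_lit 12) (.ev (nat_lit 1424) (nat_lit 704910336) (.nd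
 (nat_lit 1664) (.br (nat_lit 7) (.br (nat_lit 4) (.ch (nat_lit 1) (.ev (nat_lit 1680) (nat_lit 68720525312)
 (.ev (nat_lit 1693) (nat_lit 16777216) .dd))) (.br (nat_lit 5) (.ch (nat_lit 4) (.ev (nat_lit 1680) (nat_lit
 16777216) (.ev (nat_lit 2080) (nat_lit 68719476736) (.ev (nat_lit 2093) (nat_lit 1048576) .dd)))) (.ch
 (nat_lit 5) (.ev (nat_lit 1680) (nat_lit 1048576) (.ev (nat_lit 1744) (nat_lit 68736253952) .dd))))) (.br
 (nat_lit 11) (.ch (nat_lit 7) (.ev (nat_lit 1680) (nat_lit 68736253952) (.ev (nat_lit 1693) (nat_lit 1048576)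
 .dd))) (.br (nat_lit 12) (.ch (nat_lit 11) (.ev (nat_lit 1680) (nat_lit 68736253952) (.ev (nat_lit 1693)
 (nat_lit 1048576) .dd))) (.ch (nat_lit 12) (.ev (nat_lit 1680) (nat_lit 68736253952) (.ev (nat_lit 1693)
 (nat_lit 1048576) .dd)))))))))))))))))))) (.br (nat_lit 38) (.ch (nat_lit 36) (.ev (nat_lit 52) (nat_lit
 1728061696) (.ev (nat_lit 660) (nat_lit 32) (.ev (nat_lit 980) (nat_lit 262144) (.ev (nat_lit 1076) (nat_lit
 4194320) (.nd (nat_lit 1408) (.br (nat_lit 9) (.br (nat_lit 5) (.ch (nat_lit 0) (.ev (nat_lit 1424) (nat_lit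
 135273472) (.nd (nat_lit 1664) (.br (nat_lit 5) (.br (nat_lit 1) (.ch (nat_lit 0) (.ev (nat_lit 1680) (nat_lit
 77309444096) .dd)) (.br (nat_lit 2) (.ch (nat_lit 1) (.ev (nat_lit 1680) (nat_lit 77309411328) (.ev (nat_lit
 1693) (nat_lit 32768) .dd))) (.ch (nat_lit 2) (.ev (nat_lit 1892) (nat_lit 8589934592) (.ev (nat_lit 2340)
 (nat_lit 68719476736) (.ev (nat_lit 2349) (nat_lit 32768) .dd)))))) (.br (nat_lit 8) (.ch (nat_lit 5) (.ev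
 (nat_lit 1680) (nat_lit 77309411328) (.ev (nat_lit 1693) (nat_lit 32768) .dd))) (.br (nat_lit 9) (.ch (nat_lit
 8) (.ev (nat_lit 1680) (nat_lit 77309444096) .dd)) (.ch (nat_lit 9) (.ev (nat_lit 1680) (nat_lit 68719476736)
 (.ev (nat_lit 1716) (nat_lit 8589934592) (.ev (nat_lit 1725) (nat_lit 32768) .dd)))))))))) (.br (nat_lit 6)
 (.ch (nat_lit 5) (.ev (nat_lit 1424) (nat_lit 77444714496) (.nd (nat_lit 1664) (.br (nat_lit 5) (.br (nat_lit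
 1) (.ch (nat_lit 0) (.ev (nat_lit 1716) (nat_lit 2048) (.ev (nat_lit 1725) (nat_lit 1024) .dd))) (.br (nat_lit
 4) (.ch (nat_lit 1) (.ev (nat_lit 1680) (nat_lit 1024) (.ev (nat_lit 1693) (nat_lit 2048) .dd))) (.ch (nat_lit
 4) (.ev (nat_lit 1680) (nat_lit 1024) (.ev (nat_lit 1693) (nat_lit 2048) .dd))))) (.br (nat_lit 6) (.ch
 (nat_lit 5) (.ev (nat_lit 1680) (nat_lit 3072) .dd)) (.br (nat_lit 8) (.ch (nat_lit 6) (.ev (nat_lit 1680)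
 (nat_lit 2048) (.ev (nat_lit 1693) (nat_lit 1024) .dd))) (.ch (nat_lit 8) (.ev (nat_lit 1680) (nat_lit 2048)
 (.ev (nat_lit 1693) (nat_lit 1024) .dd))))))))) (.ch (nat_lit 6) (.ev (nat_lit 1424) (nat_lit 77309412352)
 (.nd (nat_lit 1664) (.br (nat_lit 5) (.br (nat_lit 3) (.ch (nat_lit 0) (.ev (nat_lit 1680) (nat_lit 134256640)
 (.ev (nat_lit 1693) (nat_lit 1048576) .dd))) (.br (nat_lit 4) (.ch (nat_lit 3) (.ev (nat_lit 1680) (nat_lit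
 34816) (.ev (nat_lit 1892) (nat_lit 1052672) (.ev (nat_lit 1901) (nat_lit 134217728) .dd)))) (.ch (nat_lit 4)
 (.ev (nat_lit 1680) (nat_lit 1081344) (.ev (nat_lit 1716) (nat_lit 2048) (.ev (nat_lit 1892) (nat_lit
 134217728) (.ev (nat_lit 1901) (nat_lit 4096) .dd))))))) (.br (nat_lit 7) (.ch (nat_lit 5) (.ev (nat_lit 1680)
 (nat_lit 1081344) (.ev (nat_lit 1716) (nat_lit 134217728) (.ev (nat_lit 1892) (nat_lit 2048) (.ev (nat_lit
 1901) (nat_lit 4096) .dd))))) (.br (nat_lit 8) (.ch (nat_lit 7) (.ev (nat_lit 1680) (nat_lit 134256640) (.ev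
 (nat_lit 1693) (nat_lit 1048576) .dd))) (.ch (nat_lit 8) (.ev (nat_lit 1680) (nat_lit 6144) (.ev (nat_lit
 1716) (nat_lit 134217728) (.ev (nat_lit 2352) (nat_lit 1048576) (.ev (nat_lit 2365) (nat_lit 32768)
 .dd))))))))))))) (.br (nat_lit 11) (.ch (nat_lit 9) (.ev (nat_lit 1424) (nat_lit 77309412352) (.nd (nat_lit
 1664) (.br (nat_lit 3) (.br (nat_lit 2) (.ch (nat_lit 1) (.ev (nat_lit 1680) (nat_lit 1085440) (.ev (nat_lit
 1892) (nat_lit 2048) (.ev (nat_lit 1901) (nat_lit 134217728) .dd)))) (.ch (nat_lit 2) (.ev (nat_lit 1680)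
 (nat_lit 134254592) (.ev (nat_lit 1716) (nat_lit 2048) (.ev (nat_lit 1725) (nat_lit 1048576) .dd))))) (.br
 (nat_lit 9) (.ch (nat_lit 3) (.ev (nat_lit 1680) (nat_lit 134223872) (.ev (nat_lit 1892) (nat_lit 1048576)
 (.ev (nat_lit 1901) (nat_lit 32768) .dd)))) (.br (nat_lit 12) (.ch (nat_lit 9) (.ev (nat_lit 1680) (nat_lit
 4096) (.ev (nat_lit 2368) (nat_lit 1048576) (.ev (nat_lit 2644) (nat_lit 32768) (.ev (nat_lit 2832) (nat_lit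
 2048) (.ev (nat_lit 2845) (nat_lit 134217728) .dd)))))) (.ch (nat_lit 12) (.ev (nat_lit 1680) (nat_lit
 1048576) (.ev (nat_lit 1716) (nat_lit 2048) (.ev (nat_lit 2820) (nat_lit 32768) (.fin (nat_lit
 576522874916389388)))))))))))) (.br (nat_lit 12) (.ch (nat_lit 11) (.ev (nat_lit 1424) (nat_lit 77443631104)
 (.nd (nat_lit 1664) (.br (nat_lit 6) (.br (nat_lit 2) (.ch (nat_lit 1) (.ev (nat_lit 1680) (nat_lit 37888)
 (.ev (nat_lit 1693) (nat_lit 1048576) .dd))) (.ch (nat_lit 2) (.ev (nat_lit 1680) (nat_lit 5120) (.ev (nat_lit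
 1728) (nat_lit 32768) (.ev (nat_lit 1741) (nat_lit 1048576) .dd))))) (.br (nat_lit 8) (.ch (nat_lit 6) (.ev
 (nat_lit 1680) (nat_lit 1081344) (.ev (nat_lit 2320) (nat_lit 5120) .dd))) (.ch (nat_lit 8) (.ev (nat_lit
 1680) (nat_lit 1049600) (.ev (nat_lit 1716) (nat_lit 4096) (.ev (nat_lit 1725) (nat_lit 32768) .dd)))))))))
 (.ch (nat_lit 12) (.ev (nat_lit 1424) (nat_lit 68853696512) (.nd (nat_lit 1664) (.br (nat_lit 9) (.br (nat_lit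
 1) (.ch (nat_lit 0) (.ev (nat_lit 1680) (nat_lit 1082368) (.ev (nat_lit 1744) (nat_lit 8589934592) (.ev
 (nat_lit 1757) (nat_lit 4096) .dd)))) (.br (nat_lit 7) (.ch (nat_lit 1) (.ev (nat_lit 1680) (nat_lit 36864)
 (.ev (nat_lit 1744) (nat_lit 1048576) (.fin (nat_lit 576470098156929606))))) (.ch (nat_lit 7) (.ev (nat_lit
 1680) (nat_lit 8589972480) (.ev (nat_lit 1693) (nat_lit 1048576) .dd))))) (.br (nat_lit 11) (.ch (nat_lit 9)
 (.ev (nat_lit 1680) (nat_lit 8591020032) (.ev (nat_lit 1693) (nat_lit 1024) .dd))) (.br (nat_lit 12) (.ch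
 (nat_lit 11) (.ev (nat_lit 1680) (nat_lit 8590984192) (.ev (nat_lit 1728) (nat_lit 36864) .dd))) (.ch (nat_lit
 12) (.ev (nat_lit 1680) (nat_lit 1024) (.ev (nat_lit 1716) (nat_lit 8589967360) (.ev (nat_lit 2052) (nat_lit
 1048576) (.ev (nat_lit 2061) (nat_lit 4096) .dd)))))))))))))))))))) (.ch (nat_lit 38) (.ev (nat_lit 52)
 (nat_lit 69827049728) (.ev (nat_lit 116) (nat_lit 16) (.ev (nat_lit 244) (nat_lit 32768) (.ev (nat_lit 800)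
 (nat_lit 9350153248) .dd)))))))))) (.br (nat_lit 54) (.br (nat_lit 47) (.br (nat_lit 43) (.br (nat_lit 42)
 (.ch (nat_lit 39) (.ev (nat_lit 52) (nat_lit 574658864) (.ev (nat_lit 84) (nat_lit 134217728) (.ev (nat_lit
 244) (nat_lit 67108864) (.ev (nat_lit 500) (nat_lit 8589934592) (.ev (nat_lit 660) (nat_lit 68719476736) (.ev
 (nat_lit 1280) (nat_lit 1091838976) .dd))))))) (.ch (nat_lit 42) (.ev (nat_lit 52) (nat_lit 8589937664) (.ev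
 (nat_lit 84) (nat_lit 4194304) (.ev (nat_lit 212) (nat_lit 8192) (.ev (nat_lit 692) (nat_lit 16777216) (.ev
 (nat_lit 884) (nat_lit 33554432) (.nd (nat_lit 1408) (.br (nat_lit 9) (.br (nat_lit 4) (.ch (nat_lit 0) (.ev
 (nat_lit 1424) (nat_lit 69928521760) (.nd (nat_lit 1664) (.br (nat_lit 5) (.br (nat_lit 1) (.ch (nat_lit 0)
 (.ev (nat_lit 1680) (nat_lit 537133072) (.ev (nat_lit 1716) (nat_lit 256) (.ev (nat_lit 1725) (nat_lit
 67108864) .dd)))) (.br (nat_lit 4) (.ch (nat_lit 1) (.ev (nat_lit 1680) (nat_lit 604241936) (.ev (nat_lit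
 1693) (nat_lit 256) .dd))) (.ch (nat_lit 4) (.ev (nat_lit 1680) (nat_lit 67108880) (.ev (nat_lit 2052)
 (nat_lit 256) (.ev (nat_lit 2368) (nat_lit 262144) (.ev (nat_lit 2381) (nat_lit 536870912) .dd))))))) (.br
 (nat_lit 9) (.ch (nat_lit 5) (.ev (nat_lit 1680) (nat_lit 603980032) (.ev (nat_lit 1716) (nat_lit 262144) (.ev
 (nat_lit 1725) (nat_lit 16) .dd)))) (.br (nat_lit 12) (.ch (nat_lit 9) (.ev (nat_lit 1680) (nat_lit 536871184)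
 (.ev (nat_lit 1892) (nat_lit 262144) (.ev (nat_lit 1901) (nat_lit 67108864) .dd)))) (.ch (nat_lit 12) (.ev
 (nat_lit 1680) (nat_lit 603979776) (.ev (nat_lit 1892) (nat_lit 262144) (.ev (nat_lit 2052) (nat_lit 16) (.ev
 (nat_lit 2061) (nat_lit 256) .dd))))))))))) (.br (nat_lit 8) (.ch (nat_lit 4) (.ev (nat_lit 1424) (nat_lit
 1746141472) (.nd (nat_lit 1664) (.br (nat_lit 6) (.br (nat_lit 1) (.ch (nat_lit 0) (.ev (nat_lit 1680)
 (nat_lit 68786622480) .dd)) (.br (nat_lit 4) (.ch (nat_lit 1) (.ev (nat_lit 1680) (nat_lit 68786585600) (.ev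
 (nat_lit 1892) (nat_lit 32768) (.ev (nat_lit 1904) (nat_lit 16) (.ev (nat_lit 1917) (nat_lit 4096) .dd)))))
 (.ch (nat_lit 4) (.ev (nat_lit 1680) (nat_lit 68786585600) (.ev (nat_lit 2052) (nat_lit 4096) (.fin (nat_lit
 576456903946093328))))))) (.br (nat_lit 7) (.ch (nat_lit 6) (.ev (nat_lit 1680) (nat_lit 68786618368) (.ev
 (nat_lit 1744) (nat_lit 4096) (.ev (nat_lit 1757) (nat_lit 16) .dd)))) (.br (nat_lit 8) (.ch (nat_lit 7) (.ev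
 (nat_lit 1680) (nat_lit 68719509504) (.ev (nat_lit 1716) (nat_lit 67108864) (.ev (nat_lit 2064) (nat_lit 4112)
 .dd)))) (.ch (nat_lit 8) (.ev (nat_lit 1680) (nat_lit 36880) (.ev (nat_lit 1892) (nat_lit 67108864) (.ev
 (nat_lit 1901) (nat_lit 68719476736) .dd)))))))))) (.ch (nat_lit 8) (.ev (nat_lit 1424) (nat_lit 68921102608)
 (.nd (nat_lit 1664) (.br (nat_lit 8) (.br (nat_lit 2) (.ch (nat_lit 0) (.ev (nat_lit 1680) (nat_lit 537919520)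
 (.ev (nat_lit 1693) (nat_lit 1073741824) .dd))) (.ch (nat_lit 2) (.ev (nat_lit 1680) (nat_lit 536870944) (.ev
 (nat_lit 1716) (nat_lit 1073741824) (.ev (nat_lit 1725) (nat_lit 1048576) .dd))))) (.br (nat_lit 12) (.ch
 (nat_lit 8) (.ev (nat_lit 1680) (nat_lit 1073741856) (.ev (nat_lit 2052) (nat_lit 1048576) (.ev (nat_lit 2061)
 (nat_lit 536870912) .dd)))) (.ch (nat_lit 12) (.ev (nat_lit 1716) (nat_lit 32) (.ev (nat_lit 1892) (nat_lit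
 1073741824) (.ev (nat_lit 1952) (nat_lit 536870912) (.ev (nat_lit 1965) (nat_lit 1048576) .dd)))))))))))) (.br
 (nat_lit 11) (.ch (nat_lit 9) (.ev (nat_lit 1424) (nat_lit 69794267184) (.nd (nat_lit 1664) (.br (nat_lit 8)
 (.br (nat_lit 3) (.ch (nat_lit 2) (.ev (nat_lit 1680) (nat_lit 604278784) (.ev (nat_lit 1984) (nat_lit
 134217984) .dd))) (.br (nat_lit 4) (.ch (nat_lit 3) (.ev (nat_lit 1680) (nat_lit 738496512) (.ev (nat_lit
 1693) (nat_lit 256) .dd))) (.ch (nat_lit 4) (.ev (nat_lit 1680) (nat_lit 738463744) (.ev (nat_lit 1744)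
 (nat_lit 33024) .dd))))) (.br (nat_lit 10) (.ch (nat_lit 8) (.ev (nat_lit 1680) (nat_lit 738201856) (.ev
 (nat_lit 2192) (nat_lit 32768) (.ev (nat_lit 2205) (nat_lit 262144) .dd)))) (.br (nat_lit 12) (.ch (nat_lit
 10) (.ev (nat_lit 1680) (nat_lit 201326848) (.ev (nat_lit 1728) (nat_lit 36864) (.ev (nat_lit 2340) (nat_lit
 262144) (.ev (nat_lit 2349) (nat_lit 536870912) .dd))))) (.ch (nat_lit 12) (.ev (nat_lit 1680) (nat_lit 256)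
 (.ev (nat_lit 1716) (nat_lit 536870912) (.ev (nat_lit 2052) (nat_lit 67108864) (.ev (nat_lit 2180) (nat_lit
 32768) (.ev (nat_lit 2656) (nat_lit 262144) (.nd (nat_lit 3456) (.br (nat_lit 11) (.ch (nat_lit 8) (.ev
 (nat_lit 3472) (nat_lit 134217728) (.ev (nat_lit 3485) (nat_lit 4096) .dd))) (.ch (nat_lit 11) (.fin (nat_lit
 576522874916389388))))))))))))))))) (.br (nat_lit 12) (.ch (nat_lit 11) (.ev (nat_lit 1424) (nat_lit
 70397231376) (.nd (nat_lit 1664) (.br (nat_lit 5) (.br (nat_lit 1) (.ch (nat_lit 0) (.ev (nat_lit 1680)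
 (nat_lit 32) (.ev (nat_lit 1716) (nat_lit 1048576) (.ev (nat_lit 1728) (nat_lit 4096) (.ev (nat_lit 2052)
 (nat_lit 134217728) (.ev (nat_lit 2061) (nat_lit 262144) .dd)))))) (.br (nat_lit 3) (.ch (nat_lit 1) (.ev
 (nat_lit 1680) (nat_lit 135270432) (.ev (nat_lit 1693) (nat_lit 262144) .dd))) (.ch (nat_lit 3) (.ev (nat_lit
 1680) (nat_lit 135528480) (.ev (nat_lit 1693) (nat_lit 4096) .dd))))) (.br (nat_lit 8) (.br (nat_lit 6) (.ch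
 (nat_lit 5) (.ev (nat_lit 1680) (nat_lit 1314816) (.ev (nat_lit 1892) (nat_lit 134217728) (.ev (nat_lit 1901)
 (nat_lit 32) .dd)))) (.ch (nat_lit 6) (.ev (nat_lit 1680) (nat_lit 135528480) (.ev (nat_lit 1693) (nat_lit
 4096) .dd)))) (.br (nat_lit 12) (.ch (nat_lit 8) (.ev (nat_lit 1680) (nat_lit 134217760) (.ev (nat_lit 1716)
 (nat_lit 1048576) (.fin (nat_lit 576487690378625622))))) (.ch (nat_lit 12) (.ev (nat_lit 1680) (nat_lit
 262144) (.ev (nat_lit 1716) (nat_lit 134217728) (.ev (nat_lit 2052) (nat_lit 1048576) (.ev (nat_lit 2340)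
 (nat_lit 4096) (.ev (nat_lit 2349) (nat_lit 32) .dd)))))))))))) (.ch (nat_lit 12) (.ev (nat_lit 1424) (nat_lit
 1677983760) (.nd (nat_lit 1664) (.br (nat_lit 7) (.br (nat_lit 1) (.ch (nat_lit 0) (.ev (nat_lit 1680)
 (nat_lit 1085696) (.ev (nat_lit 1728) (nat_lit 68719476736) (.ev (nat_lit 2340) (nat_lit 134217728) (.ev
 (nat_lit 2349) (nat_lit 32) .dd))))) (.br (nat_lit 6) (.ch (nat_lit 1) (.ev (nat_lit 1680) (nat_lit
 68719476736) (.ev (nat_lit 1716) (nat_lit 4128) (.ev (nat_lit 3024) (nat_lit 1048832) (.ev (nat_lit 3204)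
 (nat_lit 134217728) (.ev (nat_lit 3213) (nat_lit 32768) .dd)))))) (.ch (nat_lit 6) (.ev (nat_lit 1680)
 (nat_lit 68854743040) (.ev (nat_lit 1716) (nat_lit 256) (.ev (nat_lit 1892) (nat_lit 32) (.ev (nat_lit 2052)
 (nat_lit 4096) (.ev (nat_lit 2061) (nat_lit 32768) .dd)))))))) (.br (nat_lit 9) (.ch (nat_lit 7) (.ev (nat_lit
 1680) (nat_lit 68719481088) (.ev (nat_lit 2000) (nat_lit 1048576) (.ev (nat_lit 2180) (nat_lit 134217728) (.ev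
 (nat_lit 2484) (nat_lit 32) (.ev (nat_lit 2493) (nat_lit 32768) .dd)))))) (.br (nat_lit 12) (.ch (nat_lit 9)
 (.ev (nat_lit 1680) (nat_lit 134254880) (.ev (nat_lit 1716) (nat_lit 1048576) (.ev (nat_lit 1725) (nat_lit
 68719476736) .dd)))) (.ch (nat_lit 12) (.ev (nat_lit 1680) (nat_lit 68854775840) (.ev (nat_lit 2208) (nat_lit
 4352) .dd)))))))))))))))))))) (.br (nat_lit 44) (.ch (nat_lit 43) (.ev (nat_lit 52) (nat_lit 77980540928) (.ev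
 (nat_lit 276) (nat_lit 4194304) (.ev (nat_lit 692) (nat_lit 33554432) (.ev (nat_lit 756) (nat_lit 256) (.ev
 (nat_lit 1364) (nat_lit 1048576) (.nd (nat_lit 1408) (.br (nat_lit 8) (.br (nat_lit 5) (.ch (nat_lit 4) (.ev
 (nat_lit 1424) (nat_lit 16779264) (.nd (nat_lit 1664) (.br (nat_lit 3) (.br (nat_lit 1) (.ch (nat_lit 0) (.ev
 (nat_lit 1680) (nat_lit 67108880) (.ev (nat_lit 1920) (nat_lit 262144) (.ev (nat_lit 2180) (nat_lit 1056) (.ev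
 (nat_lit 2644) (nat_lit 4096) (.ev (nat_lit 2653) (nat_lit 1073741824) .dd)))))) (.ch (nat_lit 1) (.ev
 (nat_lit 1680) (nat_lit 1141113888) (.ev (nat_lit 1716) (nat_lit 16) (.ev (nat_lit 1725) (nat_lit 4096)
 .dd))))) (.br (nat_lit 7) (.ch (nat_lit 3) (.ev (nat_lit 1680) (nat_lit 1141113904) (.ev (nat_lit 1693)
 (nat_lit 4096) .dd))) (.br (nat_lit 12) (.ch (nat_lit 7) (.ev (nat_lit 1680) (nat_lit 1073741824) (.ev
 (nat_lit 2340) (nat_lit 1024) (.ev (nat_lit 2352) (nat_lit 4096) (.ev (nat_lit 2368) (nat_lit 32) (.ev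
 (nat_lit 2484) (nat_lit 67108864) (.ev (nat_lit 2548) (nat_lit 262144) (.ev (nat_lit 2557) (nat_lit 16)
 .dd)))))))) (.ch (nat_lit 12) (.ev (nat_lit 1680) (nat_lit 67112960) (.ev (nat_lit 2484) (nat_lit 1073741824)
 (.ev (nat_lit 3056) (nat_lit 16) (.ev (nat_lit 3140) (nat_lit 262144) (.nd (nat_lit 3456) (.br (nat_lit 5)
 (.ch (nat_lit 0) (.ev (nat_lit 3472) (nat_lit 1056) .dd)) (.ch (nat_lit 5) (.fin (nat_lit
 576478894115733908)))))))))))))))) (.br (nat_lit 6) (.ch (nat_lit 5) (.ev (nat_lit 1424) (nat_lit 1157632032)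
 (.nd (nat_lit 1664) (.br (nat_lit 8) (.br (nat_lit 3) (.ch (nat_lit 0) (.ev (nat_lit 1680) (nat_lit 264208)
 (.ev (nat_lit 1693) (nat_lit 1024) .dd))) (.br (nat_lit 4) (.ch (nat_lit 3) (.ev (nat_lit 1680) (nat_lit
 265216) (.ev (nat_lit 1693) (nat_lit 16) .dd))) (.ch (nat_lit 4) (.ev (nat_lit 1680) (nat_lit 263184) (.ev
 (nat_lit 1693) (nat_lit 2048) .dd))))) (.br (nat_lit 10) (.ch (nat_lit 8) (.ev (nat_lit 1680) (nat_lit 264192)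
 (.ev (nat_lit 2052) (nat_lit 16) (.ev (nat_lit 2061) (nat_lit 1024) .dd)))) (.br (nat_lit 12) (.ch (nat_lit
 10) (.ev (nat_lit 1680) (nat_lit 16) (.ev (nat_lit 1892) (nat_lit 1024) (.ev (nat_lit 2180) (nat_lit 2048)
 (.ev (nat_lit 2189) (nat_lit 262144) .dd))))) (.ch (nat_lit 12) (.ev (nat_lit 1680) (nat_lit 16) (.ev (nat_lit
 1716) (nat_lit 264192) (.ev (nat_lit 1725) (nat_lit 1024) .dd)))))))))) (.ch (nat_lit 6) (.ev (nat_lit 1424)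
 (nat_lit 263200) (.nd (nat_lit 1664) (.br (nat_lit 8) (.br (nat_lit 3) (.ch (nat_lit 1) (.ev (nat_lit 1680)
 (nat_lit 1140850704) (.ev (nat_lit 1716) (nat_lit 16781312) (.ev (nat_lit 1725) (nat_lit 2048) .dd)))) (.br
 (nat_lit 4) (.ch (nat_lit 3) (.ev (nat_lit 1680) (nat_lit 83892240) (.ev (nat_lit 1693) (nat_lit 1073741824)
 .dd))) (.ch (nat_lit 4) (.ev (nat_lit 1680) (nat_lit 67108880) (.ev (nat_lit 1716) (nat_lit 1073741824) (.ev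
 (nat_lit 2052) (nat_lit 4096) (.ev (nat_lit 2096) (nat_lit 2048) (.ev (nat_lit 2109) (nat_lit 16777216)
 .dd)))))))) (.br (nat_lit 10) (.ch (nat_lit 8) (.ev (nat_lit 1680) (nat_lit 16) (.ev (nat_lit 1716) (nat_lit
 6144) (.ev (nat_lit 1892) (nat_lit 1073741824) (.ev (nat_lit 2368) (nat_lit 16777216) (.ev (nat_lit 2381)
 (nat_lit 67108864) .dd)))))) (.br (nat_lit 12) (.ch (nat_lit 10) (.ev (nat_lit 1680) (nat_lit 67115008) (.ev
 (nat_lit 1716) (nat_lit 1090519040) (.ev (nat_lit 1725) (nat_lit 16) .dd)))) (.ch (nat_lit 12) (.ev (nat_lit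
 1680) (nat_lit 1140850688) (.ev (nat_lit 1716) (nat_lit 16777232) (.ev (nat_lit 2484) (nat_lit 4096) (.ev
 (nat_lit 2493) (nat_lit 2048) .dd))))))))))))) (.br (nat_lit 9) (.ch (nat_lit 8) (.ev (nat_lit 1424) (nat_lit
 1141114896) (.nd (nat_lit 1664) (.br (nat_lit 8) (.br (nat_lit 1) (.ch (nat_lit 0) (.ev (nat_lit 1680)
 (nat_lit 16781312) (.ev (nat_lit 1892) (nat_lit 1024) (.ev (nat_lit 1901) (nat_lit 32) .dd)))) (.br (nat_lit
 5) (.ch (nat_lit 1) (.ev (nat_lit 1680) (nat_lit 5120) (.ev (nat_lit 1892) (nat_lit 32) (.ev (nat_lit 1901)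
 (nat_lit 16777216) .dd)))) (.ch (nat_lit 5) (.ev (nat_lit 1680) (nat_lit 4128) (.ev (nat_lit 1696) (nat_lit
 16777216) (.ev (nat_lit 1709) (nat_lit 1024) .dd)))))) (.br (nat_lit 11) (.br (nat_lit 9) (.ch (nat_lit 8)
 (.ev (nat_lit 1680) (nat_lit 32) (.ev (nat_lit 2340) (nat_lit 1024) (.ev (nat_lit 2644) (nat_lit 4096) (.ev
 (nat_lit 2653) (nat_lit 16777216) .dd))))) (.ch (nat_lit 9) (.ev (nat_lit 1680) (nat_lit 1056) (.ev (nat_lit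
 1696) (nat_lit 16781312) .dd)))) (.br (nat_lit 12) (.ch (nat_lit 11) (.ev (nat_lit 1680) (nat_lit 16777216)
 (.ev (nat_lit 1716) (nat_lit 1024) (.ev (nat_lit 2052) (nat_lit 32) (.ev (nat_lit 2061) (nat_lit 4096)
 .dd))))) (.ch (nat_lit 12) (.ev (nat_lit 1680) (nat_lit 16781344) (.ev (nat_lit 1693) (nat_lit 1024)
 .dd))))))))) (.br (nat_lit 11) (.ch (nat_lit 9) (.ev (nat_lit 1424) (nat_lit 1090786352) (.nd (nat_lit 1664)
 (.br (nat_lit 9) (.br (nat_lit 2) (.ch (nat_lit 1) (.ev (nat_lit 1680) (nat_lit 67110912) .dd)) (.ch (nat_lit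
 2) (.fin (nat_lit 576461302042935864)))) (.br (nat_lit 11) (.ch (nat_lit 9) (.ev (nat_lit 1680) (nat_lit 2048)
 (.ev (nat_lit 1693) (nat_lit 67108864) .dd))) (.ch (nat_lit 11) (.ev (nat_lit 1680) (nat_lit 67108864) (.ev
 (nat_lit 1693) (nat_lit 2048) .dd)))))))) (.ch (nat_lit 11) (.ev (nat_lit 1424) (nat_lit 83892240) (.nd
 (nat_lit 1664) (.br (nat_lit 3) (.br (nat_lit 1) (.ch (nat_lit 0) (.ev (nat_lit 1680) (nat_lit 32) (.ev
 (nat_lit 2052) (nat_lit 1073741824) (.fin (nat_lit 576580049028203536))))) (.br (nat_lit 2) (.ch (nat_lit 1)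
 (.ev (nat_lit 1680) (nat_lit 1074004992) (.ev (nat_lit 1693) (nat_lit 32) .dd))) (.ch (nat_lit 2) (.ev
 (nat_lit 1680) (nat_lit 1073742848) (.ev (nat_lit 2340) (nat_lit 262144) (.ev (nat_lit 2349) (nat_lit 32)
 .dd)))))) (.br (nat_lit 6) (.ch (nat_lit 3) (.ev (nat_lit 2340) (nat_lit 1024) (.ev (nat_lit 2944) (nat_lit
 1073741824) (.ev (nat_lit 3108) (nat_lit 32) (.ev (nat_lit 3117) (nat_lit 262144) .dd))))) (.br (nat_lit 12)
 (.ch (nat_lit 6) (.ev (nat_lit 1680) (nat_lit 1074005024) .dd)) (.ch (nat_lit 12) (.ev (nat_lit 1680) (nat_lit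
 262176) (.ev (nat_lit 1968) (nat_lit 1073742848) .dd))))))))))))))))))) (.br (nat_lit 46) (.ch (nat_lit 44)
 (.ev (nat_lit 52) (nat_lit 1615856928) (.ev (nat_lit 468) (nat_lit 68719476736) (.ev (nat_lit 788) (nat_lit
 67108864) (.ev (nat_lit 1204) (nat_lit 4096) (.nd (nat_lit 1408) (.br (nat_lit 5) (.br (nat_lit 1) (.ch
 (nat_lit 0) (.ev (nat_lit 1424) (nat_lit 134219792) (.nd (nat_lit 1664) (.br (nat_lit 8) (.br (nat_lit 2) (.ch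
 (nat_lit 1) (.ev (nat_lit 1680) (nat_lit 8606973952) (.ev (nat_lit 2080) (nat_lit 32768) (.ev (nat_lit 2752)
 (nat_lit 33554432) (.ev (nat_lit 2765) (nat_lit 8192) .dd))))) (.br (nat_lit 4) (.ch (nat_lit 2) (.ev (nat_lit
 1680) (nat_lit 270336) (.ev (nat_lit 1716) (nat_lit 16777216) (.ev (nat_lit 1744) (nat_lit 8589967360) (.ev
 (nat_lit 1757) (nat_lit 33554432) .dd))))) (.ch (nat_lit 4) (.ev (nat_lit 1680) (nat_lit 8590237696) (.ev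
 (nat_lit 2128) (nat_lit 50331648) .dd))))) (.br (nat_lit 9) (.ch (nat_lit 8) (.ev (nat_lit 1680) (nat_lit
 8640561152) (.ev (nat_lit 1693) (nat_lit 8192) .dd))) (.br (nat_lit 11) (.ch (nat_lit 9) (.ev (nat_lit 1680)
 (nat_lit 8640299008) (.ev (nat_lit 3300) (nat_lit 8192) (.ev (nat_lit 3309) (nat_lit 262144) .dd)))) (.ch
 (nat_lit 11) (.ev (nat_lit 1680) (nat_lit 8623529984) (.ev (nat_lit 1952) (nat_lit 17039360) .dd))))))))) (.br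
 (nat_lit 4) (.ch (nat_lit 1) (.ev (nat_lit 1424) (nat_lit 168075280) (.nd (nat_lit 1664) (.br (nat_lit 6) (.br
 (nat_lit 3) (.ch (nat_lit 1) (.ev (nat_lit 1680) (nat_lit 8589934592) (.ev (nat_lit 1744) (nat_lit 16779264)
 .dd))) (.br (nat_lit 4) (.ch (nat_lit 3) (.ev (nat_lit 1892) (nat_lit 8589934592) (.ev (nat_lit 2416) (nat_lit
 16777216) (.ev (nat_lit 2429) (nat_lit 2048) .dd)))) (.ch (nat_lit 4) (.ev (nat_lit 1680) (nat_lit 8589934592)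
 (.ev (nat_lit 2180) (nat_lit 2048) (.ev (nat_lit 2189) (nat_lit 16777216) .dd)))))) (.br (nat_lit 7) (.ch
 (nat_lit 6) (.ev (nat_lit 1680) (nat_lit 16779264) (.ev (nat_lit 1693) (nat_lit 8589934592) .dd))) (.br
 (nat_lit 10) (.ch (nat_lit 7) (.ev (nat_lit 1680) (nat_lit 8589934592) (.ev (nat_lit 1716) (nat_lit 2048) (.ev
 (nat_lit 1725) (nat_lit 16777216) .dd)))) (.ch (nat_lit 10) (.ev (nat_lit 1716) (nat_lit 8589934592) (.ev
 (nat_lit 2052) (nat_lit 16777216) (.ev (nat_lit 2061) (nat_lit 2048) .dd)))))))))) (.ch (nat_lit 4) (.ev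
 (nat_lit 1424) (nat_lit 8740929536) (.nd (nat_lit 1664) (.br (nat_lit 7) (.br (nat_lit 4) (.ch (nat_lit 0)
 (.ev (nat_lit 1680) (nat_lit 33556496) (.ev (nat_lit 2644) (nat_lit 32768) (.ev (nat_lit 3444) (nat_lit 8192)
 (.ev (nat_lit 3453) (nat_lit 262144) .dd))))) (.br (nat_lit 6) (.ch (nat_lit 4) (.ev (nat_lit 1680) (nat_lit
 33826816) (.ev (nat_lit 2128) (nat_lit 32768) (.ev (nat_lit 2141) (nat_lit 16) .dd)))) (.ch (nat_lit 6) (.ev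
 (nat_lit 1680) (nat_lit 33556496) (.ev (nat_lit 2064) (nat_lit 8192) (.ev (nat_lit 2192) (nat_lit 32768) (.ev
 (nat_lit 2205) (nat_lit 262144) .dd))))))) (.br (nat_lit 8) (.ch (nat_lit 7) (.ev (nat_lit 1680) (nat_lit
 33564672) (.ev (nat_lit 1744) (nat_lit 16) (.ev (nat_lit 1904) (nat_lit 32768) (.ev (nat_lit 1917) (nat_lit
 262144) .dd))))) (.br (nat_lit 12) (.ch (nat_lit 8) (.ev (nat_lit 1680) (nat_lit 294928) (.ev (nat_lit 1904)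
 (nat_lit 33556480) (.ev (nat_lit 1917) (nat_lit 8192) .dd)))) (.ch (nat_lit 12) (.ev (nat_lit 1680) (nat_lit
 296960) (.ev (nat_lit 2064) (nat_lit 33554432) (.ev (nat_lit 2352) (nat_lit 8208) .dd)))))))))))) (.br
 (nat_lit 8) (.ch (nat_lit 5) (.ev (nat_lit 1424) (nat_lit 8640301056) (.nd (nat_lit 1664) (.br (nat_lit 6)
 (.br (nat_lit 3) (.ch (nat_lit 0) (.ev (nat_lit 1680) (nat_lit 262160) (.ev (nat_lit 1892) (nat_lit 134217728)
 (.ev (nat_lit 1901) (nat_lit 8192) .dd)))) (.br (nat_lit 5) (.ch (nat_lit 3) (.ev (nat_lit 1680) (nat_lit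
 270352) (.ev (nat_lit 1693) (nat_lit 134217728) .dd))) (.ch (nat_lit 5) (.ev (nat_lit 1680) (nat_lit
 134217728) (.ev (nat_lit 1744) (nat_lit 16) (.ev (nat_lit 2180) (nat_lit 8192) (.ev (nat_lit 2189) (nat_lit
 262144) .dd))))))) (.br (nat_lit 8) (.ch (nat_lit 6) (.ev (nat_lit 1744) (nat_lit 8192) (.ev (nat_lit 1892)
 (nat_lit 262144) (.ev (nat_lit 1904) (nat_lit 16) (.ev (nat_lit 1917) (nat_lit 134217728) .dd))))) (.br
 (nat_lit 10) (.ch (nat_lit 8) (.ev (nat_lit 1680) (nat_lit 134479872) (.ev (nat_lit 2416) (nat_lit 8192) (.ev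
 (nat_lit 2429) (nat_lit 16) .dd)))) (.ch (nat_lit 10) (.ev (nat_lit 1680) (nat_lit 262144) (.ev (nat_lit 1716)
 (nat_lit 134217728) (.ev (nat_lit 2180) (nat_lit 16) (.ev (nat_lit 2189) (nat_lit 8192) .dd))))))))))) (.br
 (nat_lit 11) (.ch (nat_lit 8) (.ev (nat_lit 1424) (nat_lit 8640571408) (.ev (nat_lit 1437) (nat_lit 134217728)
 .dd))) (.ch (nat_lit 11) (.ev (nat_lit 1424) (nat_lit 50604032) (.nd (nat_lit 1664) (.br (nat_lit 6) (.br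
 (nat_lit 4) (.ch (nat_lit 0) (.ev (nat_lit 1680) (nat_lit 8589934608) (.ev (nat_lit 1716) (nat_lit 32768) (.ev
 (nat_lit 1725) (nat_lit 134217728) .dd)))) (.br (nat_lit 5) (.ch (nat_lit 4) (.ev (nat_lit 1680) (nat_lit
 32784) (.ev (nat_lit 1920) (nat_lit 134217728) (.ev (nat_lit 1933) (nat_lit 8589934592) .dd)))) (.ch (nat_lit
 5) (.ev (nat_lit 1716) (nat_lit 8589934592) (.ev (nat_lit 1808) (nat_lit 32768) (.ev (nat_lit 1824) (nat_lit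
 16) (.ev (nat_lit 1837) (nat_lit 134217728) .dd))))))) (.br (nat_lit 8) (.ch (nat_lit 6) (.ev (nat_lit 1680)
 (nat_lit 134217728) (.ev (nat_lit 1716) (nat_lit 8589934608) (.ev (nat_lit 1725) (nat_lit 32768) .dd)))) (.br
 (nat_lit 12) (.ch (nat_lit 8) (.ev (nat_lit 1680) (nat_lit 8724185088) (.ev (nat_lit 1693) (nat_lit 16) .dd)))
 (.ch (nat_lit 12) (.ev (nat_lit 1680) (nat_lit 8589967376) (.ev (nat_lit 1693) (nat_lit 134217728)
 .dd)))))))))))))))))) (.ch (nat_lit 46) (.ev (nat_lit 52) (nat_lit 1124112384) (.ev (nat_lit 180) (nat_lit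
 134217728) (.ev (nat_lit 692) (nat_lit 32) (.ev (nat_lit 788) (nat_lit 8192) (.ev (nat_lit 1012) (nat_lit
 8589934592) (.nd (nat_lit 1408) (.br (nat_lit 6) (.br (nat_lit 5) (.ch (nat_lit 0) (.ev (nat_lit 1424)
 (nat_lit 69257659392) (.nd (nat_lit 1664) (.br (nat_lit 5) (.br (nat_lit 1) (.ch (nat_lit 0) (.ev (nat_lit
 1680) (nat_lit 4194320) (.ev (nat_lit 1892) (nat_lit 256) (.ev (nat_lit 1901) (nat_lit 67108864) .dd)))) (.br
 (nat_lit 4) (.ch (nat_lit 1) (.ev (nat_lit 1680) (nat_lit 67109136) (.ev (nat_lit 1693) (nat_lit 4194304)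
 .dd))) (.ch (nat_lit 4) (.ev (nat_lit 1680) (nat_lit 4194320) (.ev (nat_lit 1728) (nat_lit 256) (.ev (nat_lit
 1741) (nat_lit 67108864) .dd)))))) (.br (nat_lit 8) (.ch (nat_lit 5) (.ev (nat_lit 1680) (nat_lit 256) (.ev
 (nat_lit 2484) (nat_lit 4194304) (.ev (nat_lit 2496) (nat_lit 16) (.ev (nat_lit 2509) (nat_lit 67108864)
 .dd))))) (.br (nat_lit 12) (.ch (nat_lit 8) (.ev (nat_lit 1680) (nat_lit 71303184) (.ev (nat_lit 1693)
 (nat_lit 256) .dd))) (.ch (nat_lit 12) (.ev (nat_lit 1680) (nat_lit 67108864) (.ev (nat_lit 2052) (nat_lit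
 4194560) (.ev (nat_lit 2061) (nat_lit 16) .dd)))))))))) (.ch (nat_lit 5) (.ev (nat_lit 1424) (nat_lit
 69260804112) (.nd (nat_lit 1664) (.br (nat_lit 4) (.br (nat_lit 1) (.ch (nat_lit 0) (.ev (nat_lit 1680)
 (nat_lit 67110144) (.ev (nat_lit 1693) (nat_lit 1048576) .dd))) (.br (nat_lit 3) (.ch (nat_lit 1) (.ev
 (nat_lit 1680) (nat_lit 68157696) (.ev (nat_lit 1693) (nat_lit 1024) .dd))) (.ch (nat_lit 3) (.ev (nat_lit
 1680) (nat_lit 1280) (.ev (nat_lit 1716) (nat_lit 67108864) (.ev (nat_lit 1725) (nat_lit 1048576) .dd))))))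
 (.br (nat_lit 6) (.ch (nat_lit 4) (.ev (nat_lit 1680) (nat_lit 67109888) (.ev (nat_lit 1716) (nat_lit 256)
 (.ev (nat_lit 1725) (nat_lit 1048576) .dd)))) (.br (nat_lit 8) (.ch (nat_lit 6) (.ev (nat_lit 1680) (nat_lit
 68157696) (.ev (nat_lit 1693) (nat_lit 1024) .dd))) (.ch (nat_lit 8) (.ev (nat_lit 1680) (nat_lit 1048832)
 (.ev (nat_lit 1716) (nat_lit 67108864) (.ev (nat_lit 1725) (nat_lit 1024) .dd))))))))))) (.br (nat_lit 9) (.ch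
 (nat_lit 6) (.ev (nat_lit 1424) (nat_lit 69327913984) (.nd (nat_lit 1664) (.br (nat_lit 3) (.br (nat_lit 1)
 (.ch (nat_lit 0) (.ev (nat_lit 1920) (nat_lit 16) (.ev (nat_lit 2484) (nat_lit 256) (.ev (nat_lit 2493)
 (nat_lit 1048576) .dd)))) (.ch (nat_lit 1) (.ev (nat_lit 1680) (nat_lit 16) (.ev (nat_lit 3092) (nat_lit
 1048576) (.ev (nat_lit 3101) (nat_lit 256) .dd))))) (.br (nat_lit 4) (.ch (nat_lit 3) (.ev (nat_lit 1680)
 (nat_lit 16) (.ev (nat_lit 2080) (nat_lit 256) (.ev (nat_lit 2093) (nat_lit 1048576) .dd)))) (.br (nat_lit 8)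
 (.ch (nat_lit 4) (.ev (nat_lit 1680) (nat_lit 1048832) (.ev (nat_lit 1693) (nat_lit 16) .dd))) (.ch (nat_lit
 8) (.ev (nat_lit 1680) (nat_lit 1048848) .dd)))))))) (.br (nat_lit 11) (.ch (nat_lit 9) (.ev (nat_lit 1424)
 (nat_lit 72352768) (.nd (nat_lit 1664) (.br (nat_lit 8) (.br (nat_lit 2) (.ch (nat_lit 1) (.ev (nat_lit 1680)
 (nat_lit 69256609792) (.ev (nat_lit 1716) (nat_lit 256) (.ev (nat_lit 1725) (nat_lit 16) .dd)))) (.br (nat_lit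
 4) (.ch (nat_lit 2) (.ev (nat_lit 1680) (nat_lit 537133328) (.ev (nat_lit 1693) (nat_lit 68719476736) .dd)))
 (.ch (nat_lit 4) (.ev (nat_lit 1680) (nat_lit 537133072) (.ev (nat_lit 1716) (nat_lit 256) (.ev (nat_lit 1725)
 (nat_lit 68719476736) .dd)))))) (.br (nat_lit 10) (.ch (nat_lit 8) (.ev (nat_lit 1680) (nat_lit 69256347904)
 (.ev (nat_lit 2180) (nat_lit 16) (.ev (nat_lit 2189) (nat_lit 262144) .dd)))) (.br (nat_lit 12) (.ch (nat_lit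
 10) (.ev (nat_lit 1680) (nat_lit 69256347904) (.ev (nat_lit 1716) (nat_lit 16) (.ev (nat_lit 1725) (nat_lit
 262144) .dd)))) (.ch (nat_lit 12) (.ev (nat_lit 1680) (nat_lit 262400) (.ev (nat_lit 1716) (nat_lit
 68719476752) (.ev (nat_lit 1725) (nat_lit 536870912) .dd)))))))))) (.ch (nat_lit 11) (.ev (nat_lit 1424)
 (nat_lit 69323718912) (.nd (nat_lit 1664) (.br (nat_lit 4) (.br (nat_lit 1) (.ch (nat_lit 0) (.ev (nat_lit
 1680) (nat_lit 5243920) .dd)) (.br (nat_lit 3) (.ch (nat_lit 1) (.ev (nat_lit 1680) (nat_lit 1040) (.ev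
 (nat_lit 1904) (nat_lit 5242880) .dd))) (.ch (nat_lit 3) (.ev (nat_lit 1680) (nat_lit 5242896) (.ev (nat_lit
 1693) (nat_lit 1024) .dd))))) (.br (nat_lit 6) (.ch (nat_lit 4) (.ev (nat_lit 1680) (nat_lit 5242896) (.ev
 (nat_lit 1693) (nat_lit 1024) .dd))) (.br (nat_lit 12) (.ch (nat_lit 6) (.ev (nat_lit 1716) (nat_lit 4194304)
 (.ev (nat_lit 1892) (nat_lit 16) (.ev (nat_lit 2080) (nat_lit 1048576) (.ev (nat_lit 2093) (nat_lit 1024)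
 .dd))))) (.ch (nat_lit 12) (.ev (nat_lit 1680) (nat_lit 1040) (.ev (nat_lit 2340) (nat_lit 4194304) (.ev
 (nat_lit 2349) (nat_lit 1048576) .dd))))))))))))))))))))))) (.br (nat_lit 50) (.br (nat_lit 48) (.ch (nat_lit
 47) (.ev (nat_lit 52) (nat_lit 70351071264) (.ev (nat_lit 448) (nat_lit 8826164496) .dd))) (.br (nat_lit 49)
 (.ch (nat_lit 48) (.ev (nat_lit 52) (nat_lit 9332372496) (.ev (nat_lit 180) (nat_lit 262144) (.ev (nat_lit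
 340) (nat_lit 1048576) (.ev (nat_lit 628) (nat_lit 2048) (.ev (nat_lit 660) (nat_lit 1073741824) (.ev (nat_lit
 1108) (nat_lit 33554432) (.ev (nat_lit 1376) (nat_lit 68736254240) .dd)))))))) (.ch (nat_lit 49) (.ev (nat_lit
 52) (nat_lit 68925262896) (.ev (nat_lit 276) (nat_lit 8589934592) (.ev (nat_lit 372) (nat_lit 32768) (.nd
 (nat_lit 1408) (.br (nat_lit 5) (.br (nat_lit 1) (.ch (nat_lit 0) (.ev (nat_lit 1424) (nat_lit 1091567616)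
 (.nd (nat_lit 1664) (.br (nat_lit 5) (.br (nat_lit 2) (.ch (nat_lit 0) (.ev (nat_lit 1680) (nat_lit 536879360)
 (.ev (nat_lit 1716) (nat_lit 4096) (.ev (nat_lit 1725) (nat_lit 33554432) .dd)))) (.ch (nat_lit 2) (.ev
 (nat_lit 1680) (nat_lit 33566720) (.ev (nat_lit 1728) (nat_lit 536870912) (.ev (nat_lit 1741) (nat_lit 256)
 .dd))))) (.br (nat_lit 11) (.ch (nat_lit 5) (.ev (nat_lit 1680) (nat_lit 570425600) (.ev (nat_lit 2052)
 (nat_lit 4096) (.ev (nat_lit 2061) (nat_lit 8192) .dd)))) (.ch (nat_lit 11) (.ev (nat_lit 1680) (nat_lit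
 570437632) (.ev (nat_lit 1693) (nat_lit 256) .dd)))))))) (.br (nat_lit 4) (.ch (nat_lit 1) (.ev (nat_lit 1424)
 (nat_lit 34611200) (.nd (nat_lit 1664) (.br (nat_lit 7) (.br (nat_lit 4) (.ch (nat_lit 3) (.ev (nat_lit 1680)
 (nat_lit 1610616832) (.ev (nat_lit 1744) (nat_lit 256) (.ev (nat_lit 1757) (nat_lit 16777216) .dd)))) (.br
 (nat_lit 6) (.ch (nat_lit 4) (.ev (nat_lit 1680) (nat_lit 536870912) (.ev (nat_lit 1716) (nat_lit 256) (.ev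
 (nat_lit 1892) (nat_lit 4096) (.ev (nat_lit 3092) (nat_lit 16777216) (.ev (nat_lit 3101) (nat_lit 1073741824)
 .dd)))))) (.ch (nat_lit 6) (.ev (nat_lit 1680) (nat_lit 1073745920) (.ev (nat_lit 1744) (nat_lit 16777216)
 (.ev (nat_lit 2352) (nat_lit 536871168) .dd)))))) (.br (nat_lit 8) (.ch (nat_lit 7) (.ev (nat_lit 1680)
 (nat_lit 1627390208) (.ev (nat_lit 1693) (nat_lit 4096) .dd))) (.br (nat_lit 10) (.ch (nat_lit 8) (.ev
 (nat_lit 1680) (nat_lit 536875008) (.ev (nat_lit 1716) (nat_lit 1073741824) (.ev (nat_lit 2180) (nat_lit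
 16777216) (.ev (nat_lit 2189) (nat_lit 256) .dd))))) (.ch (nat_lit 10) (.ev (nat_lit 1680) (nat_lit
 1610612992) (.ev (nat_lit 2340) (nat_lit 4096) (.ev (nat_lit 2349) (nat_lit 16777216) .dd)))))))))) (.ch
 (nat_lit 4) (.ev (nat_lit 1424) (nat_lit 588255488) (.nd (nat_lit 1664) (.br (nat_lit 4) (.br (nat_lit 1) (.ch
 (nat_lit 0) (.ev (nat_lit 1680) (nat_lit 8192) (.ev (nat_lit 1693) (nat_lit 1073741824) .dd))) (.br (nat_lit
 3) (.ch (nat_lit 1) (.ev (nat_lit 1680) (nat_lit 1073741824) (.ev (nat_lit 1693) (nat_lit 8192) .dd))) (.ch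
 (nat_lit 3) (.ev (nat_lit 1680) (nat_lit 1073750016) .dd)))) (.br (nat_lit 6) (.ch (nat_lit 4) (.ev (nat_lit
 1680) (nat_lit 1073750016) .dd)) (.br (nat_lit 12) (.ch (nat_lit 6) (.ev (nat_lit 2960) (nat_lit 8192) (.ev
 (nat_lit 2973) (nat_lit 1073741824) .dd))) (.ch (nat_lit 12) (.ev (nat_lit 2644) (nat_lit 8192) (.ev (nat_lit
 2653) (nat_lit 1073741824) .dd))))))))))) (.br (nat_lit 6) (.ch (nat_lit 5) (.ev (nat_lit 1424) (nat_lit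
 50344192) (.nd (nat_lit 1664) (.br (nat_lit 6) (.br (nat_lit 1) (.ch (nat_lit 0) (.ev (nat_lit 1680) (nat_lit
 1048576) (.ev (nat_lit 1716) (nat_lit 536870912) (.ev (nat_lit 1725) (nat_lit 1073741824) .dd)))) (.br
 (nat_lit 3) (.ch (nat_lit 1) (.ev (nat_lit 1680) (nat_lit 1073741824) (.ev (nat_lit 1716) (nat_lit 536870912)
 (.ev (nat_lit 1725) (nat_lit 1048576) .dd)))) (.ch (nat_lit 3) (.ev (nat_lit 1680) (nat_lit 1073741824) (.ev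
 (nat_lit 1716) (nat_lit 1048576) (.ev (nat_lit 1725) (nat_lit 536870912) .dd)))))) (.br (nat_lit 10) (.ch
 (nat_lit 6) (.ev (nat_lit 1680) (nat_lit 1611661312) .dd)) (.br (nat_lit 12) (.ch (nat_lit 10) (.ev (nat_lit
 1680) (nat_lit 1074790400) (.ev (nat_lit 1693) (nat_lit 536870912) .dd))) (.ch (nat_lit 12) (.ev (nat_lit
 1680) (nat_lit 537919488) (.ev (nat_lit 1693) (nat_lit 1073741824) .dd))))))))) (.br (nat_lit 9) (.ch (nat_lit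
 6) (.ev (nat_lit 1424) (nat_lit 17833984) (.nd (nat_lit 1664) (.br (nat_lit 5) (.br (nat_lit 4) (.ch (nat_lit
 3) (.ev (nat_lit 1680) (nat_lit 4096) (.ev (nat_lit 2052) (nat_lit 256) (.ev (nat_lit 2064) (nat_lit 33554432)
 (.ev (nat_lit 2340) (nat_lit 1073741824) (.ev (nat_lit 2349) (nat_lit 536870912) .dd)))))) (.ch (nat_lit 4)
 (.ev (nat_lit 1680) (nat_lit 570429440) (.ev (nat_lit 1824) (nat_lit 256) (.ev (nat_lit 1837) (nat_lit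
 1073741824) .dd))))) (.br (nat_lit 7) (.ch (nat_lit 5) (.ev (nat_lit 1680) (nat_lit 570429696) (.ev (nat_lit
 1693) (nat_lit 1073741824) .dd))) (.br (nat_lit 10) (.ch (nat_lit 7) (.ev (nat_lit 1680) (nat_lit 1073742080)
 (.ev (nat_lit 2548) (nat_lit 536870912) (.ev (nat_lit 2852) (nat_lit 33554432) (.ev (nat_lit 2861) (nat_lit
 4096) .dd))))) (.ch (nat_lit 10) (.ev (nat_lit 1680) (nat_lit 1073745920) (.ev (nat_lit 2080) (nat_lit 256)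
 (.ev (nat_lit 3092) (nat_lit 33554432) (.ev (nat_lit 3101) (nat_lit 536870912) .dd))))))))))) (.ch (nat_lit 9)
 (.ev (nat_lit 1424) (nat_lit 1124073472) (.nd (nat_lit 1664) (.br (nat_lit 8) (.br (nat_lit 2) (.ch (nat_lit
 1) (.ev (nat_lit 1680) (nat_lit 1060864) (.ev (nat_lit 2432) (nat_lit 536871168) .dd))) (.br (nat_lit 3) (.ch
 (nat_lit 2) (.ev (nat_lit 1680) (nat_lit 537923584) (.ev (nat_lit 1716) (nat_lit 8192) (.ev (nat_lit 1725)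
 (nat_lit 256) .dd)))) (.ch (nat_lit 3) (.ev (nat_lit 1680) (nat_lit 536883200) (.ev (nat_lit 1892) (nat_lit
 1048576) (.ev (nat_lit 1901) (nat_lit 256) .dd)))))) (.br (nat_lit 9) (.ch (nat_lit 8) (.ev (nat_lit 1680)
 (nat_lit 1061120) (.ev (nat_lit 1693) (nat_lit 536870912) .dd))) (.br (nat_lit 10) (.ch (nat_lit 9) (.ev
 (nat_lit 1680) (nat_lit 536879104) (.ev (nat_lit 1716) (nat_lit 1048576) (.ev (nat_lit 2788) (nat_lit 4096)
 (.ev (nat_lit 2797) (nat_lit 256) .dd))))) (.ch (nat_lit 10) (.ev (nat_lit 1680) (nat_lit 536875264) (.fin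
 (nat_lit 576456904017396294)))))))))))))))))))) (.br (nat_lit 51) (.ch (nat_lit 50) (.ev (nat_lit 52) (nat_lit
 251699232) (.ev (nat_lit 340) (nat_lit 2048) (.ev (nat_lit 788) (nat_lit 256) (.ev (nat_lit 820) (nat_lit
 536870912) (.ev (nat_lit 852) (nat_lit 1048576) (.ev (nat_lit 916) (nat_lit 68719476736) (.ev (nat_lit 1140)
 (nat_lit 262144) (.nd (nat_lit 1408) (.br (nat_lit 8) (.br (nat_lit 6) (.ch (nat_lit 0) (.ev (nat_lit 1424)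
 (nat_lit 8594134016) (.nd (nat_lit 1664) (.br (nat_lit 8) (.br (nat_lit 4) (.ch (nat_lit 2) (.ev (nat_lit
 1680) (nat_lit 16) (.ev (nat_lit 1693) (nat_lit 1073741824) .dd))) (.br (nat_lit 5) (.ch (nat_lit 4) (.ev
 (nat_lit 1680) (nat_lit 1073741824) (.ev (nat_lit 1693) (nat_lit 16) .dd))) (.ch (nat_lit 5) (.ev (nat_lit
 1680) (nat_lit 16) (.ev (nat_lit 1693) (nat_lit 1073741824) .dd))))) (.br (nat_lit 9) (.ch (nat_lit 8) (.ev
 (nat_lit 1680) (nat_lit 1073741824) (.ev (nat_lit 1693) (nat_lit 16) .dd))) (.br (nat_lit 11) (.ch (nat_lit 9)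
 (.ev (nat_lit 1680) (nat_lit 16) (.ev (nat_lit 1693) (nat_lit 1073741824) .dd))) (.ch (nat_lit 11) (.ev
 (nat_lit 1680) (nat_lit 16) (.ev (nat_lit 1693) (nat_lit 1073741824) .dd))))))))) (.ch (nat_lit 6) (.ev
 (nat_lit 1424) (nat_lit 4195328) (.nd (nat_lit 1664) (.br (nat_lit 4) (.br (nat_lit 1) (.ch (nat_lit 0) (.ev
 (nat_lit 1680) (nat_lit 8589938688) (.ev (nat_lit 2340) (nat_lit 16) (.ev (nat_lit 2349) (nat_lit 1073741824)
 .dd)))) (.ch (nat_lit 1) (.ev (nat_lit 1680) (nat_lit 1073741840) (.ev (nat_lit 1716) (nat_lit 4096) (.ev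
 (nat_lit 1725) (nat_lit 8589934592) .dd))))) (.br (nat_lit 7) (.ch (nat_lit 4) (.ev (nat_lit 1680) (nat_lit
 8589934608) (.ev (nat_lit 1892) (nat_lit 4096) (.ev (nat_lit 1901) (nat_lit 1073741824) .dd)))) (.br (nat_lit
 10) (.ch (nat_lit 7) (.ev (nat_lit 1680) (nat_lit 1073741824) (.ev (nat_lit 2052) (nat_lit 16) (.ev (nat_lit
 2192) (nat_lit 8589934592) (.ev (nat_lit 2205) (nat_lit 4096) .dd))))) (.ch (nat_lit 10) (.ev (nat_lit 1680)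
 (nat_lit 8589938688) (.ev (nat_lit 1776) (nat_lit 1073741824) (.ev (nat_lit 1789) (nat_lit 16) .dd)))))))))))
 (.br (nat_lit 9) (.ch (nat_lit 8) (.ev (nat_lit 1424) (nat_lit 9663676432) (.nd (nat_lit 1664) (.br (nat_lit
 6) (.br (nat_lit 1) (.ch (nat_lit 0) (.ev (nat_lit 1680) (nat_lit 4096) (.ev (nat_lit 1716) (nat_lit 4194304)
 (.ev (nat_lit 1725) (nat_lit 1024) .dd)))) (.br (nat_lit 5) (.ch (nat_lit 1) (.ev (nat_lit 1680) (nat_lit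
 5120) (.ev (nat_lit 1693) (nat_lit 4194304) .dd))) (.ch (nat_lit 5) (.ev (nat_lit 1680) (nat_lit 4096) (.ev
 (nat_lit 1728) (nat_lit 1024) (.ev (nat_lit 1741) (nat_lit 4194304) .dd)))))) (.br (nat_lit 8) (.ch (nat_lit
 6) (.ev (nat_lit 1680) (nat_lit 5120) (.ev (nat_lit 1693) (nat_lit 4194304) .dd))) (.br (nat_lit 9) (.ch
 (nat_lit 8) (.ev (nat_lit 1680) (nat_lit 4194304) (.ev (nat_lit 3056) (nat_lit 5120) .dd))) (.ch (nat_lit 9)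
 (.ev (nat_lit 1680) (nat_lit 4195328) (.ev (nat_lit 1693) (nat_lit 4096) .dd))))))))) (.br (nat_lit 12) (.ch
 (nat_lit 9) (.ev (nat_lit 1424) (nat_lit 9667871744) (.nd (nat_lit 1664) (.br (nat_lit 10) (.br (nat_lit 9)
 (.ch (nat_lit 1) (.ev (nat_lit 1680) (nat_lit 4096) (.ev (nat_lit 1693) (nat_lit 16) .dd))) (.ch (nat_lit 9)
 (.ev (nat_lit 1680) (nat_lit 16) (.ev (nat_lit 1693) (nat_lit 4096) .dd)))) (.br (nat_lit 11) (.ch (nat_lit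
 10) (.ev (nat_lit 1680) (nat_lit 4096) (.ev (nat_lit 1693) (nat_lit 16) .dd))) (.br (nat_lit 12) (.ch (nat_lit
 11) (.ev (nat_lit 1680) (nat_lit 4096) (.ev (nat_lit 1693) (nat_lit 16) .dd))) (.ch (nat_lit 12) (.ev (nat_lit
 1680) (nat_lit 16) (.ev (nat_lit 1693) (nat_lit 4096) .dd))))))))) (.ch (nat_lit 12) (.ev (nat_lit 1424)
 (nat_lit 8589935616) (.nd (nat_lit 1664) (.br (nat_lit 7) (.br (nat_lit 1) (.ch (nat_lit 0) (.ev (nat_lit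
 1680) (nat_lit 1073745936) (.ev (nat_lit 1693) (nat_lit 4194304) .dd))) (.br (nat_lit 6) (.ch (nat_lit 1) (.ev
 (nat_lit 1680) (nat_lit 1073741824) (.ev (nat_lit 2740) (nat_lit 4096) (.fin (nat_lit 576909902988395136)))))
 (.ch (nat_lit 6) (.ev (nat_lit 1892) (nat_lit 4194304) (.ev (nat_lit 2180) (nat_lit 1073741824) (.ev (nat_lit
 3092) (nat_lit 4096) (.ev (nat_lit 3101) (nat_lit 16) .dd))))))) (.br (nat_lit 9) (.ch (nat_lit 7) (.ev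
 (nat_lit 1680) (nat_lit 4198416) (.ev (nat_lit 1693) (nat_lit 1073741824) .dd))) (.br (nat_lit 11) (.ch
 (nat_lit 9) (.ev (nat_lit 1680) (nat_lit 1073745920) (.ev (nat_lit 1892) (nat_lit 4194304) (.ev (nat_lit 1901)
 (nat_lit 16) .dd)))) (.ch (nat_lit 11) (.ev (nat_lit 1680) (nat_lit 1077936144) (.ev (nat_lit 1693) (nat_lit
 4096) .dd))))))))))))))))))))) (.br (nat_lit 53) (.ch (nat_lit 51) (.ev (nat_lit 52) (nat_lit 8796800032) (.ev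
 (nat_lit 244) (nat_lit 2048) (.ev (nat_lit 372) (nat_lit 8192) (.ev (nat_lit 436) (nat_lit 4096) (.ev (nat_lit
 596) (nat_lit 1073741824) (.nd (nat_lit 1408) (.br (nat_lit 8) (.br (nat_lit 1) (.ch (nat_lit 0) (.nd (nat_lit
 1664) (.br (nat_lit 9) (.br (nat_lit 5) (.ch (nat_lit 4) (.ev (nat_lit 1892) (nat_lit 33554432) (.ev (nat_lit
 2368) (nat_lit 536870912) (.ev (nat_lit 2512) (nat_lit 16777216) (.ev (nat_lit 2548) (nat_lit 16) (.ev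
 (nat_lit 2820) (nat_lit 256) (.ev (nat_lit 2829) (nat_lit 68719476736) .dd))))))) (.ch (nat_lit 5) (.ev
 (nat_lit 1680) (nat_lit 69306679568) .dd))) (.br (nat_lit 11) (.ch (nat_lit 9) (.ev (nat_lit 1680) (nat_lit
 69306679568) .dd)) (.br (nat_lit 12) (.ch (nat_lit 11) (.ev (nat_lit 1680) (nat_lit 536870912) (.ev (nat_lit
 1920) (nat_lit 33554432) (.ev (nat_lit 2180) (nat_lit 16) (.ev (nat_lit 2788) (nat_lit 256) (.ev (nat_lit
 3056) (nat_lit 16777216) (.ev (nat_lit 3069) (nat_lit 68719476736) .dd))))))) (.ch (nat_lit 12) (.ev (nat_lit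
 1680) (nat_lit 587202560) (.ev (nat_lit 2052) (nat_lit 16) (.ev (nat_lit 2064) (nat_lit 256) (.ev (nat_lit
 2077) (nat_lit 68719476736) .dd)))))))))) (.br (nat_lit 5) (.ch (nat_lit 1) (.ev (nat_lit 1424) (nat_lit
 68769808400) (.nd (nat_lit 1664) (.br (nat_lit 4) (.br (nat_lit 3) (.ch (nat_lit 0) (.ev (nat_lit 1680)
 (nat_lit 536871168) .dd)) (.ch (nat_lit 3) (.ev (nat_lit 1680) (nat_lit 536870912) (.ev (nat_lit 1693)
 (nat_lit 256) .dd)))) (.br (nat_lit 8) (.ch (nat_lit 4) (.ev (nat_lit 1680) (nat_lit 536871168) .dd)) (.br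
 (nat_lit 10) (.ch (nat_lit 8) (.ev (nat_lit 1728) (nat_lit 536871168) .dd)) (.ch (nat_lit 10) (.ev (nat_lit
 1680) (nat_lit 536871168) .dd)))))))) (.ch (nat_lit 5) (.ev (nat_lit 1424) (nat_lit 68769808384) (.nd (nat_lit
 1664) (.br (nat_lit 6) (.br (nat_lit 3) (.ch (nat_lit 0) (.ev (nat_lit 1680) (nat_lit 536870928) (.ev (nat_lit
 1693) (nat_lit 256) .dd))) (.br (nat_lit 5) (.ch (nat_lit 3) (.ev (nat_lit 1680) (nat_lit 272) (.ev (nat_lit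
 1693) (nat_lit 536870912) .dd))) (.ch (nat_lit 5) (.ev (nat_lit 1680) (nat_lit 536870912) (.ev (nat_lit 1716)
 (nat_lit 256) (.ev (nat_lit 1725) (nat_lit 16) .dd)))))) (.br (nat_lit 10) (.ch (nat_lit 6) (.ev (nat_lit
 1680) (nat_lit 536871168) (.ev (nat_lit 1693) (nat_lit 16) .dd))) (.br (nat_lit 12) (.ch (nat_lit 10) (.ev
 (nat_lit 1680) (nat_lit 16) (.ev (nat_lit 2400) (nat_lit 536871168) .dd))) (.ch (nat_lit 12) (.ev (nat_lit
 1680) (nat_lit 536870928) (.ev (nat_lit 1693) (nat_lit 256) .dd))))))))))) (.br (nat_lit 11) (.br (nat_lit 9)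
 (.ch (nat_lit 8) (.ev (nat_lit 1424) (nat_lit 68719476752) (.nd (nat_lit 1664) (.br (nat_lit 5) (.br (nat_lit
 2) (.ch (nat_lit 1) (.ev (nat_lit 1680) (nat_lit 536871168) (.ev (nat_lit 1776) (nat_lit 33554432) (.ev
 (nat_lit 1789) (nat_lit 16777216) .dd)))) (.ch (nat_lit 2) (.ev (nat_lit 1680) (nat_lit 33554688) (.ev
 (nat_lit 2976) (nat_lit 16777216) (.ev (nat_lit 2989) (nat_lit 536870912) .dd))))) (.br (nat_lit 9) (.ch
 (nat_lit 5) (.ev (nat_lit 2064) (nat_lit 16777216) (.ev (nat_lit 2400) (nat_lit 256) (.ev (nat_lit 2484)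
 (nat_lit 33554432) (.ev (nat_lit 2493) (nat_lit 536870912) .dd))))) (.br (nat_lit 12) (.ch (nat_lit 9) (.ev
 (nat_lit 1680) (nat_lit 16777472) (.ev (nat_lit 2340) (nat_lit 33554432) (.ev (nat_lit 2349) (nat_lit
 536870912) .dd)))) (.ch (nat_lit 12) (.ev (nat_lit 1680) (nat_lit 553648384) (.ev (nat_lit 1693) (nat_lit
 33554432) .dd))))))))) (.ch (nat_lit 9) (.ev (nat_lit 1424) (nat_lit 68769808400) (.nd (nat_lit 1664) (.br
 (nat_lit 9) (.br (nat_lit 2) (.ch (nat_lit 1) (.ev (nat_lit 1716) (nat_lit 536870912) (.ev (nat_lit 1725)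
 (nat_lit 256) .dd))) (.br (nat_lit 8) (.ch (nat_lit 2) (.ev (nat_lit 1680) (nat_lit 536870912) (.ev (nat_lit
 1693) (nat_lit 256) .dd))) (.ch (nat_lit 8) (.ev (nat_lit 1680) (nat_lit 256) (.ev (nat_lit 1693) (nat_lit
 536870912) .dd))))) (.br (nat_lit 10) (.ch (nat_lit 9) (.ev (nat_lit 1680) (nat_lit 536871168) .dd)) (.br
 (nat_lit 11) (.ch (nat_lit 10) (.ev (nat_lit 1680) (nat_lit 256) (.ev (nat_lit 1693) (nat_lit 536870912)
 .dd))) (.ch (nat_lit 11) (.ev (nat_lit 1680) (nat_lit 256) (.ev (nat_lit 1693) (nat_lit 536870912)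
 .dd)))))))))) (.br (nat_lit 12) (.ch (nat_lit 11) (.ev (nat_lit 1424) (nat_lit 69306679552) (.ev (nat_lit
 1437) (nat_lit 16) .dd))) (.ch (nat_lit 12) (.ev (nat_lit 1424) (nat_lit 553648384) (.nd (nat_lit 1664) (.br
 (nat_lit 6) (.br (nat_lit 5) (.ch (nat_lit 0) (.ev (nat_lit 1680) (nat_lit 33554432) (.ev (nat_lit 1716)
 (nat_lit 16) (.ev (nat_lit 1725) (nat_lit 68719476736) .dd)))) (.ch (nat_lit 5) (.ev (nat_lit 1680) (nat_lit
 68719476736) (.ev (nat_lit 1892) (nat_lit 16) (.ev (nat_lit 1901) (nat_lit 33554432) .dd))))) (.br (nat_lit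
 12) (.ch (nat_lit 6) (.ev (nat_lit 1680) (nat_lit 68753031168) (.ev (nat_lit 1693) (nat_lit 16) .dd))) (.ch
 (nat_lit 12) (.ev (nat_lit 1680) (nat_lit 68719476736) (.ev (nat_lit 1696) (nat_lit 33554448)
 .dd)))))))))))))))))) (.ch (nat_lit 53) (.ev (nat_lit 52) (nat_lit 10402922496) (.ev (nat_lit 820) (nat_lit
 32) (.ev (nat_lit 1204) (nat_lit 68719476736) (.ev (nat_lit 1396) (nat_lit 16777216) (.nd (nat_lit 1408) (.br
 (nat_lit 8) (.br (nat_lit 4) (.ch (nat_lit 1) (.ev (nat_lit 1424) (nat_lit 33853696) (.nd (nat_lit 1664) (.br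
 (nat_lit 4) (.br (nat_lit 2) (.ch (nat_lit 1) (.ev (nat_lit 1680) (nat_lit 4195328) (.ev (nat_lit 2052)
 (nat_lit 8192) (.ev (nat_lit 2352) (nat_lit 2064) .dd)))) (.br (nat_lit 3) (.ch (nat_lit 2) (.ev (nat_lit
 1680) (nat_lit 4204544) (.ev (nat_lit 1728) (nat_lit 1040) .dd))) (.ch (nat_lit 3) (.ev (nat_lit 1680)
 (nat_lit 4197392) (.ev (nat_lit 1693) (nat_lit 8192) .dd))))) (.br (nat_lit 7) (.ch (nat_lit 4) (.ev (nat_lit
 1680) (nat_lit 9232) (.ev (nat_lit 2340) (nat_lit 4194304) (.ev (nat_lit 2349) (nat_lit 2048) .dd)))) (.br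
 (nat_lit 8) (.ch (nat_lit 7) (.ev (nat_lit 1680) (nat_lit 11280) (.ev (nat_lit 1693) (nat_lit 4194304) .dd)))
 (.ch (nat_lit 8) (.ev (nat_lit 1716) (nat_lit 4195344) (.ev (nat_lit 1892) (nat_lit 8192) (.ev (nat_lit 1901)
 (nat_lit 2048) .dd)))))))))) (.br (nat_lit 6) (.ch (nat_lit 4) (.ev (nat_lit 1424) (nat_lit 33556736) (.nd
 (nat_lit 1664) (.br (nat_lit 3) (.br (nat_lit 1) (.ch (nat_lit 0) (.ev (nat_lit 1680) (nat_lit 8208) (.ev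
 (nat_lit 1716) (nat_lit 4227072) (.ev (nat_lit 1892) (nat_lit 4096) (.ev (nat_lit 3092) (nat_lit 262144) (.ev
 (nat_lit 3101) (nat_lit 1024) .dd)))))) (.ch (nat_lit 1) (.ev (nat_lit 1680) (nat_lit 263184) (.ev (nat_lit
 1716) (nat_lit 36864) (.ev (nat_lit 1824) (nat_lit 4194304) (.ev (nat_lit 1837) (nat_lit 8192) .dd)))))) (.br
 (nat_lit 7) (.ch (nat_lit 3) (.ev (nat_lit 1680) (nat_lit 4195344) (.ev (nat_lit 1716) (nat_lit 299008) (.ev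
 (nat_lit 1725) (nat_lit 8192) .dd)))) (.br (nat_lit 12) (.ch (nat_lit 7) (.ev (nat_lit 1680) (nat_lit 4206592)
 (.ev (nat_lit 2352) (nat_lit 32768) (.ev (nat_lit 2740) (nat_lit 263168) (.ev (nat_lit 2749) (nat_lit 16)
 .dd))))) (.ch (nat_lit 12) (.ev (nat_lit 1680) (nat_lit 299024) (.ev (nat_lit 1892) (nat_lit 4194304) (.ev
 (nat_lit 2340) (nat_lit 8192) (.ev (nat_lit 2349) (nat_lit 1024) .dd))))))))))) (.ch (nat_lit 6) (.ev (nat_lit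
 1424) (nat_lit 4459536) (.nd (nat_lit 1664) (.br (nat_lit 5) (.br (nat_lit 3) (.ch (nat_lit 0) (.ev (nat_lit
 1680) (nat_lit 37120) (.ev (nat_lit 2180) (nat_lit 8192) (.ev (nat_lit 2189) (nat_lit 33554432) .dd)))) (.br
 (nat_lit 4) (.ch (nat_lit 3) (.ev (nat_lit 1680) (nat_lit 32768) (.ev (nat_lit 2340) (nat_lit 4096) (.ev
 (nat_lit 2484) (nat_lit 8448) (.ev (nat_lit 2493) (nat_lit 33554432) .dd))))) (.ch (nat_lit 4) (.ev (nat_lit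
 1680) (nat_lit 33562624) (.ev (nat_lit 1716) (nat_lit 32768) (.ev (nat_lit 2180) (nat_lit 256) (.ev (nat_lit
 2189) (nat_lit 4096) .dd))))))) (.br (nat_lit 10) (.ch (nat_lit 5) (.ev (nat_lit 1680) (nat_lit 41216) (.ev
 (nat_lit 2180) (nat_lit 4096) (.ev (nat_lit 2189) (nat_lit 33554432) .dd)))) (.br (nat_lit 12) (.ch (nat_lit
 10) (.ev (nat_lit 1680) (nat_lit 4352) (.ev (nat_lit 1716) (nat_lit 32768) (.ev (nat_lit 2064) (nat_lit
 33554432) (.ev (nat_lit 2077) (nat_lit 8192) .dd))))) (.ch (nat_lit 12) (.ev (nat_lit 1680) (nat_lit 33566720)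
 (.fin (nat_lit 576456904017396268)))))))))))) (.br (nat_lit 11) (.ch (nat_lit 8) (.ev (nat_lit 1424) (nat_lit
 4491280) (.nd (nat_lit 1664) (.br (nat_lit 8) (.br (nat_lit 2) (.ch (nat_lit 0) (.ev (nat_lit 1680) (nat_lit
 4352) (.ev (nat_lit 1892) (nat_lit 8192) (.ev (nat_lit 2052) (nat_lit 1024) (.ev (nat_lit 2061) (nat_lit
 33554432) .dd))))) (.br (nat_lit 5) (.ch (nat_lit 2) (.ev (nat_lit 1680) (nat_lit 8448) (.ev (nat_lit 2192)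
 (nat_lit 4096) (.ev (nat_lit 2240) (nat_lit 1024) (.ev (nat_lit 2253) (nat_lit 33554432) .dd))))) (.ch
 (nat_lit 5) (.ev (nat_lit 1680) (nat_lit 5120) (.ev (nat_lit 1892) (nat_lit 256) (.ev (nat_lit 2180) (nat_lit
 8192) (.ev (nat_lit 2189) (nat_lit 33554432) .dd))))))) (.br (nat_lit 9) (.ch (nat_lit 8) (.ev (nat_lit 1680)
 (nat_lit 8448) (.ev (nat_lit 1892) (nat_lit 33554432) (.ev (nat_lit 2340) (nat_lit 4096) (.ev (nat_lit 2349)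
 (nat_lit 1024) .dd))))) (.br (nat_lit 11) (.ch (nat_lit 9) (.ev (nat_lit 1680) (nat_lit 33563648) (.ev
 (nat_lit 1744) (nat_lit 256) (.ev (nat_lit 1757) (nat_lit 4096) .dd)))) (.ch (nat_lit 11) (.ev (nat_lit 1680)
 (nat_lit 33562624) (.ev (nat_lit 1716) (nat_lit 4096) (.ev (nat_lit 1728) (nat_lit 256) (.ev (nat_lit 1741)
 (nat_lit 1024) .dd))))))))))) (.br (nat_lit 12) (.ch (nat_lit 11) (.ev (nat_lit 1424) (nat_lit 33569024) (.nd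
 (nat_lit 1664) (.br (nat_lit 3) (.br (nat_lit 1) (.ch (nat_lit 0) (.ev (nat_lit 1680) (nat_lit 4456464) (.ev
 (nat_lit 1728) (nat_lit 33792) .dd))) (.br (nat_lit 2) (.ch (nat_lit 1) (.ev (nat_lit 1680) (nat_lit 33808)
 (.ev (nat_lit 1892) (nat_lit 262144) (.ev (nat_lit 1901) (nat_lit 4194304) .dd)))) (.ch (nat_lit 2) (.ev
 (nat_lit 1680) (nat_lit 33792) (.ev (nat_lit 2340) (nat_lit 262144) (.ev (nat_lit 2868) (nat_lit 16) (.ev
 (nat_lit 2877) (nat_lit 4194304) .dd))))))) (.br (nat_lit 4) (.ch (nat_lit 3) (.ev (nat_lit 1680) (nat_lit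
 1040) (.ev (nat_lit 1716) (nat_lit 294912) (.ev (nat_lit 1725) (nat_lit 4194304) .dd)))) (.br (nat_lit 12)
 (.ch (nat_lit 4) (.ev (nat_lit 1680) (nat_lit 4457488) (.ev (nat_lit 1693) (nat_lit 32768) .dd))) (.ch
 (nat_lit 12) (.ev (nat_lit 1680) (nat_lit 294928) (.ev (nat_lit 2432) (nat_lit 4195328) .dd))))))))) (.ch
 (nat_lit 12) (.ev (nat_lit 1424) (nat_lit 33863936) (.nd (nat_lit 1664) (.br (nat_lit 9) (.br (nat_lit 5) (.ch
 (nat_lit 0) (.ev (nat_lit 1680) (nat_lit 1040) (.ev (nat_lit 1693) (nat_lit 4194304) .dd))) (.ch (nat_lit 5)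
 (.ev (nat_lit 1680) (nat_lit 16) (.ev (nat_lit 1728) (nat_lit 1024) (.ev (nat_lit 1741) (nat_lit 4194304)
 .dd))))) (.br (nat_lit 12) (.ch (nat_lit 9) (.ev (nat_lit 1680) (nat_lit 4195328) (.ev (nat_lit 1693) (nat_lit
 16) .dd))) (.ch (nat_lit 12) (.ev (nat_lit 1680) (nat_lit 4195328) (.ev (nat_lit 1693) (nat_lit 16)
 .dd))))))))))))))))))))) (.br (nat_lit 64) (.br (nat_lit 57) (.br (nat_lit 55) (.ch (nat_lit 54) (.ev (nat_lit
 52) (nat_lit 51390736) (.ev (nat_lit 148) (nat_lit 4194304) (.ev (nat_lit 564) (nat_lit 68719476768) (.ev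
 (nat_lit 628) (nat_lit 67108864) (.ev (nat_lit 1236) (nat_lit 32768) (.ev (nat_lit 1332) (nat_lit 536870912)
 (.nd (nat_lit 1408) (.br (nat_lit 9) (.br (nat_lit 6) (.ch (nat_lit 1) (.ev (nat_lit 1424) (nat_lit
 8724415488) (.nd (nat_lit 1664) (.br (nat_lit 6) (.br (nat_lit 2) (.ch (nat_lit 0) (.ev (nat_lit 1680)
 (nat_lit 1073745920) .dd)) (.br (nat_lit 3) (.ch (nat_lit 2) (.ev (nat_lit 1716) (nat_lit 1073741824) (.ev
 (nat_lit 1725) (nat_lit 4096) .dd))) (.ch (nat_lit 3) (.ev (nat_lit 1680) (nat_lit 4096) (.ev (nat_lit 1693)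
 (nat_lit 1073741824) .dd))))) (.br (nat_lit 7) (.ch (nat_lit 6) (.ev (nat_lit 1680) (nat_lit 4096) (.ev
 (nat_lit 1693) (nat_lit 1073741824) .dd))) (.br (nat_lit 10) (.ch (nat_lit 7) (.ev (nat_lit 1680) (nat_lit
 1073741824) (.ev (nat_lit 1693) (nat_lit 4096) .dd))) (.ch (nat_lit 10) (.ev (nat_lit 1680) (nat_lit
 1073741824) (.ev (nat_lit 1693) (nat_lit 4096) .dd))))))))) (.ch (nat_lit 6) (.ev (nat_lit 1424) (nat_lit
 8590201856) (.nd (nat_lit 1664) (.br (nat_lit 8) (.br (nat_lit 3) (.ch (nat_lit 0) (.ev (nat_lit 1680)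
 (nat_lit 134217728) (.ev (nat_lit 1693) (nat_lit 1073741824) .dd))) (.br (nat_lit 5) (.ch (nat_lit 3) (.ev
 (nat_lit 1716) (nat_lit 1073741824) (.ev (nat_lit 1725) (nat_lit 134217728) .dd))) (.ch (nat_lit 5) (.ev
 (nat_lit 1680) (nat_lit 1207959552) .dd)))) (.br (nat_lit 10) (.ch (nat_lit 8) (.ev (nat_lit 1892) (nat_lit
 134217728) (.ev (nat_lit 1901) (nat_lit 1073741824) .dd))) (.br (nat_lit 12) (.ch (nat_lit 10) (.ev (nat_lit
 1680) (nat_lit 1207959552) .dd)) (.ch (nat_lit 12) (.ev (nat_lit 1680) (nat_lit 1073741824) (.ev (nat_lit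
 1693) (nat_lit 134217728) .dd)))))))))) (.br (nat_lit 11) (.ch (nat_lit 9) (.ev (nat_lit 1424) (nat_lit
 9663677440) (.nd (nat_lit 1664) (.br (nat_lit 4) (.br (nat_lit 2) (.ch (nat_lit 1) (.ev (nat_lit 1680)
 (nat_lit 4096) (.fin (nat_lit 575964322852192636)))) (.br (nat_lit 3) (.ch (nat_lit 2) (.ev (nat_lit 1680)
 (nat_lit 266240) (.ev (nat_lit 1693) (nat_lit 134217728) .dd))) (.ch (nat_lit 3) (.ev (nat_lit 1680) (nat_lit
 134483968) .dd)))) (.br (nat_lit 11) (.br (nat_lit 8) (.ch (nat_lit 4) (.ev (nat_lit 1680) (nat_lit 134479872)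
 (.ev (nat_lit 1693) (nat_lit 4096) .dd))) (.ch (nat_lit 8) (.ev (nat_lit 1680) (nat_lit 134483968) .dd))) (.br
 (nat_lit 12) (.ch (nat_lit 11) (.ev (nat_lit 1680) (nat_lit 134479872) (.ev (nat_lit 1693) (nat_lit 4096)
 .dd))) (.ch (nat_lit 12) (.ev (nat_lit 1904) (nat_lit 134217728) (.ev (nat_lit 2052) (nat_lit 4096) (.ev
 (nat_lit 2061) (nat_lit 262144) .dd)))))))))) (.br (nat_lit 12) (.ch (nat_lit 11) (.ev (nat_lit 1424) (nat_lit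
 1073741824) (.nd (nat_lit 1664) (.br (nat_lit 4) (.br (nat_lit 3) (.ch (nat_lit 1) (.ev (nat_lit 1680)
 (nat_lit 267264) (.ev (nat_lit 1696) (nat_lit 8724152320) .dd))) (.ch (nat_lit 3) (.ev (nat_lit 1680) (nat_lit
 266240) (.ev (nat_lit 2180) (nat_lit 1024) (.ev (nat_lit 2288) (nat_lit 8724152320) .dd))))) (.br (nat_lit 5)
 (.ch (nat_lit 4) (.ev (nat_lit 1680) (nat_lit 134484992) (.ev (nat_lit 1693) (nat_lit 8589934592) .dd))) (.br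
 (nat_lit 8) (.ch (nat_lit 5) (.ev (nat_lit 1680) (nat_lit 263168) (.ev (nat_lit 1716) (nat_lit 4096) (.ev
 (nat_lit 1892) (nat_lit 134217728) (.ev (nat_lit 1901) (nat_lit 8589934592) .dd))))) (.ch (nat_lit 8) (.ev
 (nat_lit 1680) (nat_lit 8724153344) (.ev (nat_lit 1760) (nat_lit 4096) (.ev (nat_lit 1773) (nat_lit 262144)
 .dd)))))))))) (.ch (nat_lit 12) (.ev (nat_lit 1424) (nat_lit 263168) (.nd (nat_lit 1664) (.br (nat_lit 7) (.br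
 (nat_lit 4) (.ch (nat_lit 0) (.ev (nat_lit 1680) (nat_lit 9797898240) .dd)) (.br (nat_lit 6) (.ch (nat_lit 4)
 (.ev (nat_lit 1680) (nat_lit 8589938688) (.ev (nat_lit 1892) (nat_lit 1073741824) (.ev (nat_lit 1901) (nat_lit
 134217728) .dd)))) (.ch (nat_lit 6) (.ev (nat_lit 1680) (nat_lit 9797894144) (.ev (nat_lit 1693) (nat_lit
 4096) .dd))))) (.br (nat_lit 11) (.br (nat_lit 9) (.ch (nat_lit 7) (.ev (nat_lit 1680) (nat_lit 8589938688)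
 (.ev (nat_lit 1936) (nat_lit 134217728) (.ev (nat_lit 1949) (nat_lit 1073741824) .dd)))) (.ch (nat_lit 9) (.ev
 (nat_lit 1680) (nat_lit 9797898240) .dd))) (.br (nat_lit 12) (.ch (nat_lit 11) (.ev (nat_lit 1680) (nat_lit
 1073741824) (.ev (nat_lit 1892) (nat_lit 4096) (.ev (nat_lit 2548) (nat_lit 134217728) (.ev (nat_lit 2557)
 (nat_lit 8589934592) .dd))))) (.ch (nat_lit 12) (.ev (nat_lit 1680) (nat_lit 1207959552) (.ev (nat_lit 1716)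
 (nat_lit 4096) (.ev (nat_lit 1725) (nat_lit 8589934592) .dd))))))))))))))))))))) (.ch (nat_lit 55) (.ev
 (nat_lit 52) (nat_lit 9127857152) (.ev (nat_lit 84) (nat_lit 16) (.ev (nat_lit 340) (nat_lit 256) (.ev
 (nat_lit 1332) (nat_lit 33554432) (.ev (nat_lit 1364) (nat_lit 8192) (.nd (nat_lit 1408) (.br (nat_lit 9) (.br
 (nat_lit 5) (.ch (nat_lit 4) (.ev (nat_lit 1424) (nat_lit 201621504) (.nd (nat_lit 1664) (.br (nat_lit 4) (.br
 (nat_lit 1) (.ch (nat_lit 0) (.ev (nat_lit 1680) (nat_lit 69793218592) (.ev (nat_lit 1716) (nat_lit 20971520)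
 (.ev (nat_lit 1725) (nat_lit 4096) .dd)))) (.ch (nat_lit 1) (.ev (nat_lit 1680) (nat_lit 69797412864) (.ev
 (nat_lit 1936) (nat_lit 32) (.ev (nat_lit 2740) (nat_lit 16777216) (.ev (nat_lit 2749) (nat_lit 4096)
 .dd)))))) (.br (nat_lit 6) (.ch (nat_lit 4) (.ev (nat_lit 1680) (nat_lit 4198400) (.ev (nat_lit 1716) (nat_lit
 16777216) (.ev (nat_lit 1728) (nat_lit 68719476736) (.ev (nat_lit 1892) (nat_lit 1073741824) (.ev (nat_lit
 1901) (nat_lit 32) .dd)))))) (.br (nat_lit 8) (.ch (nat_lit 6) (.ev (nat_lit 1680) (nat_lit 69814190080) (.ev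
 (nat_lit 1892) (nat_lit 32) (.ev (nat_lit 1901) (nat_lit 4096) .dd)))) (.ch (nat_lit 8) (.ev (nat_lit 1680)
 (nat_lit 69793222656) (.ev (nat_lit 2052) (nat_lit 16777216) (.ev (nat_lit 2512) (nat_lit 4194336)
 .dd)))))))))) (.br (nat_lit 6) (.ch (nat_lit 5) (.ev (nat_lit 1424) (nat_lit 68870475808) (.nd (nat_lit 1664)
 (.br (nat_lit 5) (.br (nat_lit 3) (.ch (nat_lit 0) (.ev (nat_lit 1680) (nat_lit 4489216) (.ev (nat_lit 2052)
 (nat_lit 67108864) (.ev (nat_lit 2061) (nat_lit 1073741824) .dd)))) (.br (nat_lit 4) (.ch (nat_lit 3) (.ev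
 (nat_lit 1680) (nat_lit 1074036736) (.ev (nat_lit 1716) (nat_lit 67108864) (.ev (nat_lit 1725) (nat_lit
 4194304) .dd)))) (.ch (nat_lit 4) (.ev (nat_lit 1680) (nat_lit 67371008) (.ev (nat_lit 1776) (nat_lit 32768)
 (.ev (nat_lit 2384) (nat_lit 1077936128) .dd)))))) (.br (nat_lit 6) (.ch (nat_lit 5) (.ev (nat_lit 1680)
 (nat_lit 1078198272) (.ev (nat_lit 2192) (nat_lit 32768) (.ev (nat_lit 2205) (nat_lit 67108864) .dd)))) (.br
 (nat_lit 8) (.ch (nat_lit 6) (.ev (nat_lit 1680) (nat_lit 67108864) (.ev (nat_lit 1716) (nat_lit 1077936128)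
 (.ev (nat_lit 1824) (nat_lit 262144) (.ev (nat_lit 1837) (nat_lit 32768) .dd))))) (.ch (nat_lit 8) (.ev
 (nat_lit 1680) (nat_lit 1078231040) (.ev (nat_lit 1693) (nat_lit 67108864) .dd))))))))) (.ch (nat_lit 6) (.ev
 (nat_lit 1424) (nat_lit 69931929632) (.nd (nat_lit 1664) (.br (nat_lit 8) (.br (nat_lit 5) (.ch (nat_lit 1)
 (.ev (nat_lit 2384) (nat_lit 16777216) (.ev (nat_lit 2397) (nat_lit 67108864) .dd))) (.br (nat_lit 7) (.ch
 (nat_lit 5) (.ev (nat_lit 2180) (nat_lit 16777216) (.ev (nat_lit 2189) (nat_lit 67108864) .dd))) (.ch (nat_lit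
 7) (.ev (nat_lit 1680) (nat_lit 83886080) .dd)))) (.br (nat_lit 10) (.ch (nat_lit 8) (.ev (nat_lit 1680)
 (nat_lit 67108864) (.ev (nat_lit 1693) (nat_lit 16777216) .dd))) (.br (nat_lit 12) (.ch (nat_lit 10) (.ev
 (nat_lit 1680) (nat_lit 67108864) (.ev (nat_lit 1693) (nat_lit 16777216) .dd))) (.ch (nat_lit 12) (.ev
 (nat_lit 1680) (nat_lit 67108864) (.ev (nat_lit 1693) (nat_lit 16777216) .dd))))))))))) (.br (nat_lit 11) (.ch
 (nat_lit 9) (.ev (nat_lit 1424) (nat_lit 69814194208) (.nd (nat_lit 1664) (.br (nat_lit 9) (.br (nat_lit 3)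
 (.ch (nat_lit 1) (.ev (nat_lit 1680) (nat_lit 67141632) (.fin (nat_lit 576958281269330692)))) (.ch (nat_lit 3)
 (.ev (nat_lit 1680) (nat_lit 134512640) (.ev (nat_lit 1693) (nat_lit 67108864) .dd)))) (.br (nat_lit 11) (.ch
 (nat_lit 9) (.ev (nat_lit 1680) (nat_lit 262144) (.ev (nat_lit 1716) (nat_lit 32768) (.ev (nat_lit 1840)
 (nat_lit 134217728) (.ev (nat_lit 1853) (nat_lit 67108864) .dd))))) (.br (nat_lit 12) (.ch (nat_lit 11) (.ev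
 (nat_lit 1680) (nat_lit 67108864) (.ev (nat_lit 1760) (nat_lit 262144) (.ev (nat_lit 1892) (nat_lit 32768)
 (.ev (nat_lit 1901) (nat_lit 134217728) .dd))))) (.ch (nat_lit 12) (.ev (nat_lit 1680) (nat_lit 201359360)
 (.ev (nat_lit 1693) (nat_lit 262144) .dd))))))))) (.br (nat_lit 12) (.ch (nat_lit 11) (.ev (nat_lit 1424)
 (nat_lit 68807557120) (.nd (nat_lit 1664) (.br (nat_lit 5) (.br (nat_lit 3) (.ch (nat_lit 0) (.ev (nat_lit
 1680) (nat_lit 1207963680) (.ev (nat_lit 2180) (nat_lit 32768) (.ev (nat_lit 2189) (nat_lit 262144) .dd))))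
 (.br (nat_lit 4) (.ch (nat_lit 3) (.ev (nat_lit 1680) (nat_lit 32) (.ev (nat_lit 1716) (nat_lit 1073774592)
 (.ev (nat_lit 1892) (nat_lit 262144) (.ev (nat_lit 2052) (nat_lit 134217728) (.ev (nat_lit 2061) (nat_lit
 4096) .dd)))))) (.ch (nat_lit 4) (.ev (nat_lit 1680) (nat_lit 262176) (.ev (nat_lit 1920) (nat_lit 32768) (.ev
 (nat_lit 2340) (nat_lit 4096) (.ev (nat_lit 2484) (nat_lit 1073741824) (.ev (nat_lit 2493) (nat_lit 134217728)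
 .dd)))))))) (.br (nat_lit 8) (.ch (nat_lit 5) (.ev (nat_lit 1680) (nat_lit 134512640) (.ev (nat_lit 1744)
 (nat_lit 4096) (.ev (nat_lit 1904) (nat_lit 1073741856) .dd)))) (.br (nat_lit 12) (.ch (nat_lit 8) (.ev
 (nat_lit 1680) (nat_lit 1207992352) (.fin (nat_lit 576487690378625622)))) (.ch (nat_lit 12) (.ev (nat_lit
 1680) (nat_lit 134512640) (.ev (nat_lit 1744) (nat_lit 1073741824) (.ev (nat_lit 2052) (nat_lit 32) (.ev
 (nat_lit 2061) (nat_lit 4096) .dd))))))))))) (.ch (nat_lit 12) (.ev (nat_lit 1424) (nat_lit 1157890048) (.nd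
 (nat_lit 1664) (.br (nat_lit 5) (.br (nat_lit 1) (.ch (nat_lit 0) (.ev (nat_lit 1680) (nat_lit 36896) (.ev
 (nat_lit 1744) (nat_lit 4194304) (.ev (nat_lit 2052) (nat_lit 68719476736) (.ev (nat_lit 2061) (nat_lit
 134217728) .dd))))) (.br (nat_lit 4) (.ch (nat_lit 1) (.ev (nat_lit 1680) (nat_lit 68723671040) (.ev (nat_lit
 2208) (nat_lit 32768) (.ev (nat_lit 2464) (nat_lit 134217728) (.fin (nat_lit 576258991842607608)))))) (.ch
 (nat_lit 4) (.ev (nat_lit 1680) (nat_lit 138416160) (.ev (nat_lit 1840) (nat_lit 32768) (.ev (nat_lit 1853)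
 (nat_lit 68719476736) .dd)))))) (.br (nat_lit 11) (.ch (nat_lit 5) (.ev (nat_lit 1680) (nat_lit 68857925632)
 (.ev (nat_lit 1693) (nat_lit 32) .dd))) (.br (nat_lit 12) (.ch (nat_lit 11) (.ev (nat_lit 1680) (nat_lit 32)
 (.ev (nat_lit 1716) (nat_lit 32768) (.ev (nat_lit 2080) (nat_lit 4194304) (.ev (nat_lit 2752) (nat_lit
 68719476736) (.ev (nat_lit 3220) (nat_lit 4096) (.ev (nat_lit 3229) (nat_lit 134217728) .dd))))))) (.ch
 (nat_lit 12) (.ev (nat_lit 1680) (nat_lit 68857888800) (.ev (nat_lit 1716) (nat_lit 32768) (.ev (nat_lit 1725)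
 (nat_lit 4096) .dd))))))))))))))))))))) (.br (nat_lit 58) (.ch (nat_lit 57) (.ev (nat_lit 52) (nat_lit
 68736264464) (.ev (nat_lit 436) (nat_lit 536870912) (.ev (nat_lit 532) (nat_lit 262144) (.ev (nat_lit 660)
 (nat_lit 33554432) (.ev (nat_lit 1012) (nat_lit 4194304) (.nd (nat_lit 1408) (.br (nat_lit 6) (.br (nat_lit 4)
 (.ch (nat_lit 1) (.ev (nat_lit 1424) (nat_lit 9866085408) (.ev (nat_lit 1437) (nat_lit 4096) .dd))) (.br
 (nat_lit 5) (.ch (nat_lit 4) (.ev (nat_lit 1424) (nat_lit 8725205024) (.nd (nat_lit 1664) (.br (nat_lit 3)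
 (.br (nat_lit 1) (.ch (nat_lit 0) (.ev (nat_lit 1680) (nat_lit 67141632) (.ev (nat_lit 1892) (nat_lit 1024)
 (.ev (nat_lit 1901) (nat_lit 1073741824) .dd)))) (.ch (nat_lit 1) (.ev (nat_lit 1680) (nat_lit 1140850688)
 (.ev (nat_lit 1936) (nat_lit 1024) (.ev (nat_lit 1949) (nat_lit 32768) .dd))))) (.br (nat_lit 4) (.ch (nat_lit
 3) (.ev (nat_lit 1680) (nat_lit 1140851712) (.ev (nat_lit 1693) (nat_lit 32768) .dd))) (.br (nat_lit 8) (.ch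
 (nat_lit 4) (.ev (nat_lit 1680) (nat_lit 67108864) (.ev (nat_lit 1904) (nat_lit 1024) (.ev (nat_lit 2340)
 (nat_lit 1073741824) (.ev (nat_lit 2349) (nat_lit 32768) .dd))))) (.ch (nat_lit 8) (.ev (nat_lit 1680)
 (nat_lit 1073774592) (.ev (nat_lit 2052) (nat_lit 67108864) (.ev (nat_lit 2061) (nat_lit 1024) .dd))))))))))
 (.ch (nat_lit 5) (.ev (nat_lit 1424) (nat_lit 9663680512) (.nd (nat_lit 1664) (.br (nat_lit 6) (.br (nat_lit
 1) (.ch (nat_lit 0) (.ev (nat_lit 1680) (nat_lit 134250496) (.ev (nat_lit 1716) (nat_lit 1048576) (.ev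
 (nat_lit 1728) (nat_lit 67108864) (.ev (nat_lit 2352) (nat_lit 1024) (.ev (nat_lit 2365) (nat_lit 32)
 .dd)))))) (.br (nat_lit 5) (.ch (nat_lit 1) (.ev (nat_lit 1680) (nat_lit 67109888) (.ev (nat_lit 1716)
 (nat_lit 32) (.ev (nat_lit 2052) (nat_lit 134217728) (.fin (nat_lit 576474496163594850)))))) (.ch (nat_lit 5)
 (.ev (nat_lit 1680) (nat_lit 134218784) (.ev (nat_lit 1716) (nat_lit 1048576) (.ev (nat_lit 2064) (nat_lit
 32768) (.ev (nat_lit 2077) (nat_lit 67108864) .dd))))))) (.br (nat_lit 10) (.ch (nat_lit 6) (.ev (nat_lit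
 1680) (nat_lit 68157472) (.ev (nat_lit 2352) (nat_lit 134217728) (.ev (nat_lit 3268) (nat_lit 1024) (.ev
 (nat_lit 3277) (nat_lit 32768) .dd))))) (.br (nat_lit 12) (.ch (nat_lit 10) (.ev (nat_lit 1680) (nat_lit
 1082400) (.ev (nat_lit 1892) (nat_lit 67108864) (.ev (nat_lit 1901) (nat_lit 134217728) .dd)))) (.ch (nat_lit
 12) (.ev (nat_lit 1680) (nat_lit 67108864) (.ev (nat_lit 2112) (nat_lit 1048576) (.ev (nat_lit 2192) (nat_lit
 32768) (.ev (nat_lit 2820) (nat_lit 134217728) (.ev (nat_lit 3092) (nat_lit 1024) (.ev (nat_lit 3101) (nat_lit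
 32) .dd))))))))))))))) (.br (nat_lit 8) (.ch (nat_lit 6) (.ev (nat_lit 1424) (nat_lit 37920) (.nd (nat_lit
 1664) (.br (nat_lit 5) (.br (nat_lit 1) (.ch (nat_lit 0) (.ev (nat_lit 1680) (nat_lit 9798942720) (.ev
 (nat_lit 1693) (nat_lit 67108864) .dd))) (.br (nat_lit 3) (.ch (nat_lit 1) (.ev (nat_lit 1680) (nat_lit
 8589934592) (.ev (nat_lit 1716) (nat_lit 1048576) (.ev (nat_lit 1808) (nat_lit 67108864) (.ev (nat_lit 1892)
 (nat_lit 1073741824) (.ev (nat_lit 1901) (nat_lit 134217728) .dd)))))) (.ch (nat_lit 3) (.ev (nat_lit 1680)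
 (nat_lit 68157440) (.ev (nat_lit 1856) (nat_lit 1073741824) (.ev (nat_lit 2340) (nat_lit 8589934592) (.ev
 (nat_lit 2349) (nat_lit 134217728) .dd))))))) (.br (nat_lit 7) (.ch (nat_lit 5) (.ev (nat_lit 1680) (nat_lit
 9664724992) (.ev (nat_lit 1716) (nat_lit 67108864) (.ev (nat_lit 1725) (nat_lit 134217728) .dd)))) (.br
 (nat_lit 10) (.ch (nat_lit 7) (.ev (nat_lit 1680) (nat_lit 202375168) (.ev (nat_lit 1716) (nat_lit 8589934592)
 (.ev (nat_lit 1725) (nat_lit 1073741824) .dd)))) (.ch (nat_lit 10) (.ev (nat_lit 1680) (nat_lit 8792309760)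
 (.ev (nat_lit 1693) (nat_lit 1073741824) .dd))))))))) (.br (nat_lit 12) (.ch (nat_lit 8) (.ev (nat_lit 1424)
 (nat_lit 8657081344) (.nd (nat_lit 1664) (.br (nat_lit 9) (.br (nat_lit 2) (.ch (nat_lit 1) (.ev (nat_lit
 1892) (nat_lit 1207959552) (.ev (nat_lit 1936) (nat_lit 1048576) (.ev (nat_lit 1949) (nat_lit 32) .dd)))) (.ch
 (nat_lit 2) (.ev (nat_lit 1680) (nat_lit 1209008160) .dd))) (.br (nat_lit 11) (.ch (nat_lit 9) (.ev (nat_lit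
 1680) (nat_lit 134217760) (.ev (nat_lit 2224) (nat_lit 1074790400) .dd))) (.br (nat_lit 12) (.ch (nat_lit 11)
 (.ev (nat_lit 1680) (nat_lit 1048576) (.ev (nat_lit 1716) (nat_lit 134217728) (.ev (nat_lit 1840) (nat_lit 32)
 (.ev (nat_lit 1853) (nat_lit 1073741824) .dd))))) (.ch (nat_lit 12) (.ev (nat_lit 1680) (nat_lit 134217728)
 (.ev (nat_lit 1892) (nat_lit 1073741824) (.ev (nat_lit 2052) (nat_lit 32) (.ev (nat_lit 2061) (nat_lit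
 1048576) .dd))))))))))) (.ch (nat_lit 12) (.ev (nat_lit 1424) (nat_lit 9731833856) (.nd (nat_lit 1664) (.br
 (nat_lit 6) (.br (nat_lit 1) (.ch (nat_lit 0) (.ev (nat_lit 1680) (nat_lit 134251520) (.ev (nat_lit 2064)
 (nat_lit 4096) (.ev (nat_lit 2077) (nat_lit 32) .dd)))) (.br (nat_lit 4) (.ch (nat_lit 1) (.ev (nat_lit 1680)
 (nat_lit 1024) (.ev (nat_lit 2340) (nat_lit 134217728) (.ev (nat_lit 2548) (nat_lit 32768) (.fin (nat_lit
 576258991842607608)))))) (.ch (nat_lit 4) (.ev (nat_lit 1680) (nat_lit 134254624) (.ev (nat_lit 1693) (nat_lit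
 1024) .dd))))) (.br (nat_lit 7) (.ch (nat_lit 6) (.ev (nat_lit 2192) (nat_lit 4096) (.ev (nat_lit 2208)
 (nat_lit 134217728) (.ev (nat_lit 2432) (nat_lit 32) (.ev (nat_lit 3414) (nat_lit 33792) .dd))))) (.br
 (nat_lit 11) (.ch (nat_lit 7) (.ev (nat_lit 1680) (nat_lit 5152) (.ev (nat_lit 1892) (nat_lit 134217728) (.ev
 (nat_lit 1901) (nat_lit 32768) .dd)))) (.ch (nat_lit 11) (.ev (nat_lit 1680) (nat_lit 37920) (.ev (nat_lit
 1693) (nat_lit 134217728) .dd))))))))))))))))))) (.br (nat_lit 62) (.ch (nat_lit 58) (.ev (nat_lit 52)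
 (nat_lit 255856928) (.ev (nat_lit 148) (nat_lit 1024) (.ev (nat_lit 180) (nat_lit 8589934592) (.ev (nat_lit
 340) (nat_lit 32768) (.ev (nat_lit 864) (nat_lit 70331410448) .dd)))))) (.ch (nat_lit 62) (.ev (nat_lit 52)
 (nat_lit 8694826240) (.ev (nat_lit 308) (nat_lit 16) (.ev (nat_lit 1044) (nat_lit 134217728) (.ev (nat_lit
 1172) (nat_lit 262144) (.ev (nat_lit 1396) (nat_lit 32) (.nd (nat_lit 1408) (.br (nat_lit 8) (.br (nat_lit 5)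
 (.ch (nat_lit 1) (.ev (nat_lit 1424) (nat_lit 17827840) (.nd (nat_lit 1664) (.br (nat_lit 4) (.br (nat_lit 3)
 (.ch (nat_lit 0) (.ev (nat_lit 1680) (nat_lit 1610612736) (.ev (nat_lit 1716) (nat_lit 68719484928) (.ev
 (nat_lit 1725) (nat_lit 4096) .dd)))) (.ch (nat_lit 3) (.ev (nat_lit 1680) (nat_lit 69256359936) (.ev (nat_lit
 1693) (nat_lit 1073741824) .dd)))) (.br (nat_lit 6) (.ch (nat_lit 4) (.ev (nat_lit 1680) (nat_lit 536879104)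
 (.ev (nat_lit 2052) (nat_lit 4096) (.ev (nat_lit 2180) (nat_lit 68719476736) (.ev (nat_lit 2189) (nat_lit
 1073741824) .dd))))) (.br (nat_lit 8) (.ch (nat_lit 6) (.ev (nat_lit 1680) (nat_lit 4096) (.ev (nat_lit 1716)
 (nat_lit 68719484928) (.ev (nat_lit 2340) (nat_lit 1073741824) (.ev (nat_lit 2349) (nat_lit 536870912)
 .dd))))) (.ch (nat_lit 8) (.ev (nat_lit 1680) (nat_lit 69256351744) (.ev (nat_lit 1728) (nat_lit 1073750016)
 .dd))))))))) (.br (nat_lit 6) (.ch (nat_lit 5) (.ev (nat_lit 1424) (nat_lit 69811056640) (.nd (nat_lit 1664)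
 (.br (nat_lit 5) (.br (nat_lit 4) (.ch (nat_lit 1) (.ev (nat_lit 2340) (nat_lit 2048) (.ev (nat_lit 2349)
 (nat_lit 536870912) .dd))) (.ch (nat_lit 4) (.ev (nat_lit 1680) (nat_lit 536870912) (.ev (nat_lit 1693)
 (nat_lit 2048) .dd)))) (.br (nat_lit 12) (.ch (nat_lit 5) (.ev (nat_lit 1680) (nat_lit 536872960) .dd)) (.ch
 (nat_lit 12) (.ev (nat_lit 1680) (nat_lit 2048) (.ev (nat_lit 1693) (nat_lit 536870912) .dd)))))))) (.ch
 (nat_lit 6) (.ev (nat_lit 1424) (nat_lit 68720525312) (.nd (nat_lit 1664) (.br (nat_lit 5) (.br (nat_lit 3)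
 (.ch (nat_lit 0) (.ev (nat_lit 1680) (nat_lit 16783360) (.ev (nat_lit 2052) (nat_lit 536870912) (.ev (nat_lit
 2224) (nat_lit 8192) (.ev (nat_lit 2237) (nat_lit 1073741824) .dd))))) (.br (nat_lit 4) (.ch (nat_lit 3) (.ev
 (nat_lit 1680) (nat_lit 1627400192) (.ev (nat_lit 1693) (nat_lit 4096) .dd))) (.ch (nat_lit 4) (.ev (nat_lit
 1680) (nat_lit 16789504) (.ev (nat_lit 1716) (nat_lit 2048) (.ev (nat_lit 2180) (nat_lit 536870912) (.ev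
 (nat_lit 2189) (nat_lit 1073741824) .dd))))))) (.br (nat_lit 7) (.ch (nat_lit 5) (.ev (nat_lit 1680) (nat_lit
 1627398144) (.ev (nat_lit 2052) (nat_lit 4096) (.ev (nat_lit 2061) (nat_lit 2048) .dd)))) (.br (nat_lit 8)
 (.ch (nat_lit 7) (.ev (nat_lit 1680) (nat_lit 1627400192) (.ev (nat_lit 1693) (nat_lit 4096) .dd))) (.ch
 (nat_lit 8) (.ev (nat_lit 1680) (nat_lit 536883200) (.ev (nat_lit 1716) (nat_lit 16777216) (.ev (nat_lit 2052)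
 (nat_lit 2048) (.ev (nat_lit 2061) (nat_lit 1073741824) .dd))))))))))))) (.br (nat_lit 9) (.ch (nat_lit 8)
 (.ev (nat_lit 1424) (nat_lit 70346876928) (.nd (nat_lit 1664) (.br (nat_lit 6) (.br (nat_lit 2) (.ch (nat_lit
 1) (.ev (nat_lit 1680) (nat_lit 1048576) (.ev (nat_lit 1693) (nat_lit 4096) .dd))) (.br (nat_lit 5) (.ch
 (nat_lit 2) (.ev (nat_lit 1716) (nat_lit 4096) (.ev (nat_lit 1725) (nat_lit 1048576) .dd))) (.ch (nat_lit 5)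
 (.ev (nat_lit 1680) (nat_lit 1052672) .dd)))) (.br (nat_lit 8) (.ch (nat_lit 6) (.ev (nat_lit 1680) (nat_lit
 1052672) .dd)) (.br (nat_lit 11) (.ch (nat_lit 8) (.ev (nat_lit 1680) (nat_lit 4096) (.ev (nat_lit 1693)
 (nat_lit 1048576) .dd))) (.ch (nat_lit 11) (.ev (nat_lit 1680) (nat_lit 1048576) (.ev (nat_lit 1693) (nat_lit
 4096) .dd))))))))) (.br (nat_lit 11) (.ch (nat_lit 9) (.ev (nat_lit 1424) (nat_lit 1627394048) (.ev (nat_lit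
 1444) (nat_lit 68719476736) (.nd (nat_lit 1664) (.br (nat_lit 10) (.br (nat_lit 8) (.ch (nat_lit 3) (.ev
 (nat_lit 1680) (nat_lit 1056768) (.ev (nat_lit 1693) (nat_lit 2048) .dd))) (.br (nat_lit 9) (.ch (nat_lit 8)
 (.ev (nat_lit 1680) (nat_lit 1050624) (.ev (nat_lit 1693) (nat_lit 8192) .dd))) (.ch (nat_lit 9) (.ev (nat_lit
 1680) (nat_lit 1056768) (.ev (nat_lit 1693) (nat_lit 2048) .dd))))) (.br (nat_lit 11) (.ch (nat_lit 10) (.ev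
 (nat_lit 1680) (nat_lit 2048) (.fin (nat_lit 576456904017396294)))) (.br (nat_lit 12) (.ch (nat_lit 11) (.ev
 (nat_lit 1680) (nat_lit 8192) (.ev (nat_lit 1892) (nat_lit 1048576) (.ev (nat_lit 1901) (nat_lit 2048) .dd))))
 (.ch (nat_lit 12) (.ev (nat_lit 1680) (nat_lit 10240) (.ev (nat_lit 1693) (nat_lit 1048576) .dd)))))))))) (.ch
 (nat_lit 11) (.ev (nat_lit 1424) (nat_lit 69257410560) (.nd (nat_lit 1664) (.br (nat_lit 4) (.br (nat_lit 1)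
 (.ch (nat_lit 0) (.ev (nat_lit 1680) (nat_lit 16777216) (.ev (nat_lit 1693) (nat_lit 1073741824) .dd))) (.br
 (nat_lit 2) (.ch (nat_lit 1) (.ev (nat_lit 1716) (nat_lit 16777216) (.ev (nat_lit 1725) (nat_lit 1073741824)
 .dd))) (.ch (nat_lit 2) (.ev (nat_lit 1680) (nat_lit 1073741824) (.ev (nat_lit 1693) (nat_lit 16777216)
 .dd))))) (.br (nat_lit 8) (.br (nat_lit 5) (.ch (nat_lit 4) (.ev (nat_lit 1680) (nat_lit 1090519040) .dd))
 (.ch (nat_lit 5) (.ev (nat_lit 1696) (nat_lit 1090519040) .dd))) (.br (nat_lit 12) (.ch (nat_lit 8) (.ev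
 (nat_lit 1680) (nat_lit 1090519040) .dd)) (.ch (nat_lit 12) (.ev (nat_lit 1680) (nat_lit 1073741824) (.ev
 (nat_lit 1693) (nat_lit 16777216) .dd)))))))))))))))))))))) (.br (nat_lit 68) (.br (nat_lit 65) (.ch (nat_lit
 64) (.ev (nat_lit 52) (nat_lit 671356976) (.ev (nat_lit 436) (nat_lit 68719476736) (.ev (nat_lit 948) (nat_lit
 1081344) (.ev (nat_lit 1108) (nat_lit 16777216) (.nd (nat_lit 1408) (.br (nat_lit 8) (.br (nat_lit 4) (.ch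
 (nat_lit 0) (.ev (nat_lit 1424) (nat_lit 1140851968) (.nd (nat_lit 1664) (.br (nat_lit 8) (.br (nat_lit 2)
 (.ch (nat_lit 0) (.ev (nat_lit 1680) (nat_lit 8594137088) (.ev (nat_lit 1693) (nat_lit 33554432) .dd))) (.br
 (nat_lit 5) (.ch (nat_lit 2) (.ev (nat_lit 1680) (nat_lit 4202496) (.ev (nat_lit 1696) (nat_lit 8589934592)
 (.ev (nat_lit 1709) (nat_lit 33554432) .dd)))) (.ch (nat_lit 5) (.ev (nat_lit 1680) (nat_lit 8623489024) (.ev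
 (nat_lit 1892) (nat_lit 8192) (.ev (nat_lit 1901) (nat_lit 4194304) .dd)))))) (.br (nat_lit 9) (.ch (nat_lit
 8) (.ev (nat_lit 1680) (nat_lit 8627683328) (.ev (nat_lit 1693) (nat_lit 8192) .dd))) (.br (nat_lit 12) (.ch
 (nat_lit 9) (.ev (nat_lit 1680) (nat_lit 33554432) (.ev (nat_lit 1892) (nat_lit 8589934592) (.ev (nat_lit
 2548) (nat_lit 8192) (.ev (nat_lit 2557) (nat_lit 4194304) .dd))))) (.ch (nat_lit 12) (.ev (nat_lit 1680)
 (nat_lit 8623497216) (.ev (nat_lit 1693) (nat_lit 4194304) .dd))))))))) (.br (nat_lit 5) (.ch (nat_lit 4) (.ev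
 (nat_lit 1424) (nat_lit 8657043712) (.nd (nat_lit 1664) (.br (nat_lit 8) (.br (nat_lit 6) (.ch (nat_lit 4)
 (.ev (nat_lit 1680) (nat_lit 1111498752) (.ev (nat_lit 1693) (nat_lit 1024) .dd))) (.ch (nat_lit 6) (.ev
 (nat_lit 1680) (nat_lit 33554432) (.ev (nat_lit 2064) (nat_lit 1073741824) (.ev (nat_lit 2340) (nat_lit
 4194304) (.ev (nat_lit 2548) (nat_lit 8192) (.ev (nat_lit 2557) (nat_lit 1024) .dd))))))) (.br (nat_lit 9)
 (.ch (nat_lit 8) (.ev (nat_lit 1680) (nat_lit 1024) (.ev (nat_lit 2112) (nat_lit 4194304) (.ev (nat_lit 2180)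
 (nat_lit 1073741824) (.ev (nat_lit 2548) (nat_lit 8192) (.ev (nat_lit 2557) (nat_lit 33554432) .dd)))))) (.br
 (nat_lit 12) (.ch (nat_lit 9) (.ev (nat_lit 1680) (nat_lit 1111499776) .dd)) (.ch (nat_lit 12) (.ev (nat_lit
 1920) (nat_lit 33554432) (.ev (nat_lit 2976) (nat_lit 1024) (.ev (nat_lit 3236) (nat_lit 8192) (.nd (nat_lit
 3456) (.br (nat_lit 7) (.ch (nat_lit 0) (.ev (nat_lit 3472) (nat_lit 1077936128) .dd)) (.ch (nat_lit 7) (.fin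
 (nat_lit 576597641350562520))))))))))))))) (.ch (nat_lit 5) (.ev (nat_lit 1424) (nat_lit 9701426432) (.nd
 (nat_lit 1664) (.br (nat_lit 4) (.br (nat_lit 1) (.ch (nat_lit 0) (.ev (nat_lit 2384) (nat_lit 67108864) (.ev
 (nat_lit 2397) (nat_lit 8192) .dd))) (.br (nat_lit 3) (.ch (nat_lit 1) (.ev (nat_lit 1680) (nat_lit 67117056)
 .dd)) (.ch (nat_lit 3) (.ev (nat_lit 1716) (nat_lit 8192) (.ev (nat_lit 1725) (nat_lit 67108864) .dd))))) (.br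
 (nat_lit 6) (.br (nat_lit 5) (.ch (nat_lit 4) (.ev (nat_lit 1716) (nat_lit 8192) (.ev (nat_lit 1725) (nat_lit
 67108864) .dd))) (.ch (nat_lit 5) (.ev (nat_lit 2180) (nat_lit 67108864) (.ev (nat_lit 2189) (nat_lit 8192)
 .dd)))) (.br (nat_lit 10) (.ch (nat_lit 6) (.ev (nat_lit 1680) (nat_lit 67117056) .dd)) (.ch (nat_lit 10) (.ev
 (nat_lit 1744) (nat_lit 67117056) .dd)))))))))) (.br (nat_lit 9) (.ch (nat_lit 8) (.ev (nat_lit 1424) (nat_lit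
 9764339712) (.nd (nat_lit 1664) (.br (nat_lit 9) (.br (nat_lit 2) (.ch (nat_lit 0) (.ev (nat_lit 1680)
 (nat_lit 256) (.ev (nat_lit 1892) (nat_lit 1024) (.ev (nat_lit 2052) (nat_lit 4194304) (.ev (nat_lit 2061)
 (nat_lit 8192) .dd))))) (.br (nat_lit 8) (.ch (nat_lit 2) (.ev (nat_lit 1680) (nat_lit 4203520) (.ev (nat_lit
 1693) (nat_lit 256) .dd))) (.ch (nat_lit 8) (.ev (nat_lit 1680) (nat_lit 4203776) .dd)))) (.br (nat_lit 11)
 (.ch (nat_lit 9) (.ev (nat_lit 1680) (nat_lit 9472) (.ev (nat_lit 1693) (nat_lit 4194304) .dd))) (.br (nat_lit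
 12) (.ch (nat_lit 11) (.ev (nat_lit 1680) (nat_lit 9216) (.ev (nat_lit 1892) (nat_lit 4194304) (.ev (nat_lit
 1901) (nat_lit 256) .dd)))) (.ch (nat_lit 12) (.ev (nat_lit 1680) (nat_lit 1024) (.ev (nat_lit 1716) (nat_lit
 4194560) (.ev (nat_lit 1725) (nat_lit 8192) .dd)))))))))) (.br (nat_lit 12) (.ch (nat_lit 9) (.ev (nat_lit
 1424) (nat_lit 9701434368) (.nd (nat_lit 1664) (.br (nat_lit 10) (.br (nat_lit 3) (.ch (nat_lit 2) (.ev
 (nat_lit 1680) (nat_lit 67108864) (.ev (nat_lit 1693) (nat_lit 256) .dd))) (.ch (nat_lit 3) (.ev (nat_lit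
 1716) (nat_lit 67108864) (.ev (nat_lit 1725) (nat_lit 256) .dd)))) (.br (nat_lit 12) (.ch (nat_lit 10) (.ev
 (nat_lit 1680) (nat_lit 67109120) .dd)) (.ch (nat_lit 12) (.ev (nat_lit 1680) (nat_lit 256) (.ev (nat_lit
 1693) (nat_lit 67108864) .dd)))))))) (.ch (nat_lit 12) (.ev (nat_lit 1424) (nat_lit 104865792) (.ev (nat_lit
 1444) (nat_lit 1073741824) (.nd (nat_lit 1664) (.br (nat_lit 7) (.br (nat_lit 4) (.ch (nat_lit 1) (.ev
 (nat_lit 2800) (nat_lit 256) (.fin (nat_lit 576470098156929606)))) (.br (nat_lit 6) (.ch (nat_lit 4) (.ev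
 (nat_lit 1680) (nat_lit 8589935616) (.ev (nat_lit 1693) (nat_lit 256) .dd))) (.ch (nat_lit 6) (.ev (nat_lit
 1680) (nat_lit 1024) (.ev (nat_lit 1728) (nat_lit 8589934592) (.ev (nat_lit 1741) (nat_lit 256) .dd)))))) (.br
 (nat_lit 9) (.ch (nat_lit 7) (.ev (nat_lit 1680) (nat_lit 8589935616) (.ev (nat_lit 1693) (nat_lit 256) .dd)))
 (.br (nat_lit 11) (.ch (nat_lit 9) (.ev (nat_lit 1680) (nat_lit 8589934848) (.ev (nat_lit 1693) (nat_lit 1024)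
 .dd))) (.ch (nat_lit 11) (.ev (nat_lit 1680) (nat_lit 1280) (.ev (nat_lit 1693) (nat_lit 8589934592)
 .dd))))))))))))))))))) (.br (nat_lit 67) (.ch (nat_lit 65) (.ev (nat_lit 52) (nat_lit 21006336) (.ev (nat_lit
 244) (nat_lit 256) (.ev (nat_lit 596) (nat_lit 68719476736) (.ev (nat_lit 884) (nat_lit 4096) (.nd (nat_lit
 1408) (.br (nat_lit 8) (.br (nat_lit 4) (.ch (nat_lit 1) (.ev (nat_lit 1424) (nat_lit 773062688) (.nd (nat_lit
 1664) (.br (nat_lit 7) (.br (nat_lit 1) (.ch (nat_lit 0) (.ev (nat_lit 1680) (nat_lit 9663685632) (.ev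
 (nat_lit 1693) (nat_lit 16) .dd))) (.br (nat_lit 4) (.ch (nat_lit 1) (.ev (nat_lit 1680) (nat_lit 9663676416)
 (.ev (nat_lit 2052) (nat_lit 16) (.ev (nat_lit 2340) (nat_lit 1024) (.ev (nat_lit 2349) (nat_lit 8192)
 .dd))))) (.ch (nat_lit 4) (.ev (nat_lit 1680) (nat_lit 8589943808) (.ev (nat_lit 1716) (nat_lit 16) (.ev
 (nat_lit 1725) (nat_lit 1073741824) .dd)))))) (.br (nat_lit 8) (.ch (nat_lit 7) (.ev (nat_lit 1680) (nat_lit
 8589935632) (.ev (nat_lit 1892) (nat_lit 8192) (.ev (nat_lit 1901) (nat_lit 1073741824) .dd)))) (.br (nat_lit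
 10) (.ch (nat_lit 8) (.ev (nat_lit 1680) (nat_lit 1073742848) (.ev (nat_lit 1892) (nat_lit 8192) (.ev (nat_lit
 2340) (nat_lit 16) (.ev (nat_lit 2349) (nat_lit 8589934592) .dd))))) (.ch (nat_lit 10) (.ev (nat_lit 1680)
 (nat_lit 1073742864) (.ev (nat_lit 1716) (nat_lit 8192) (.ev (nat_lit 1725) (nat_lit 8589934592) .dd))))))))))
 (.br (nat_lit 5) (.ch (nat_lit 4) (.ev (nat_lit 1424) (nat_lit 9295626240) (.nd (nat_lit 1664) (.br (nat_lit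
 7) (.br (nat_lit 3) (.ch (nat_lit 1) (.ev (nat_lit 1680) (nat_lit 1074003984) (.ev (nat_lit 1728) (nat_lit
 67108864) (.ev (nat_lit 1892) (nat_lit 32) (.ev (nat_lit 2340) (nat_lit 8192) (.ev (nat_lit 2349) (nat_lit
 1024) .dd)))))) (.br (nat_lit 6) (.ch (nat_lit 3) (.ev (nat_lit 1680) (nat_lit 1141122080) (.ev (nat_lit 1693)
 (nat_lit 16) .dd))) (.ch (nat_lit 6) (.ev (nat_lit 1680) (nat_lit 16) (.ev (nat_lit 1716) (nat_lit 1024) (.ev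
 (nat_lit 2052) (nat_lit 1073741824) (.ev (nat_lit 2180) (nat_lit 32) (.ev (nat_lit 2560) (nat_lit 8192) (.nd
 (nat_lit 3456) (.br (nat_lit 3) (.ch (nat_lit 2) (.ev (nat_lit 3472) (nat_lit 262144) (.ev (nat_lit 3485)
 (nat_lit 67108864) .dd))) (.ch (nat_lit 3) (.fin (nat_lit 576399729614078580))))))))))))) (.br (nat_lit 9)
 (.ch (nat_lit 7) (.ev (nat_lit 1680) (nat_lit 1140859936) (.ev (nat_lit 1984) (nat_lit 262160) .dd))) (.br
 (nat_lit 12) (.ch (nat_lit 9) (.ev (nat_lit 1680) (nat_lit 1141113904) (.ev (nat_lit 1693) (nat_lit 8192)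
 .dd))) (.ch (nat_lit 12) (.ev (nat_lit 1680) (nat_lit 1141122048) (.ev (nat_lit 1744) (nat_lit 48)
 .dd))))))))) (.ch (nat_lit 5) (.ev (nat_lit 1424) (nat_lit 9697240064) (.nd (nat_lit 1664) (.br (nat_lit 5)
 (.br (nat_lit 3) (.ch (nat_lit 1) (.ev (nat_lit 1680) (nat_lit 201326640) (.ev (nat_lit 1728) (nat_lit
 1048576) (.ev (nat_lit 2112) (nat_lit 537133056) .dd)))) (.br (nat_lit 4) (.ch (nat_lit 3) (.ev (nat_lit 1680)
 (nat_lit 135528448) (.ev (nat_lit 1716) (nat_lit 16) (.ev (nat_lit 1892) (nat_lit 603979776) (.ev (nat_lit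
 1901) (nat_lit 32) .dd))))) (.ch (nat_lit 4) (.ev (nat_lit 1680) (nat_lit 604241968) (.ev (nat_lit 1716)
 (nat_lit 134217728) (.ev (nat_lit 1725) (nat_lit 1048576) .dd)))))) (.br (nat_lit 10) (.ch (nat_lit 5) (.ev
 (nat_lit 1680) (nat_lit 672399392) (.ev (nat_lit 1968) (nat_lit 67108880) .dd))) (.br (nat_lit 12) (.ch
 (nat_lit 10) (.ev (nat_lit 1680) (nat_lit 1048576) (.ev (nat_lit 1716) (nat_lit 603979776) (.ev (nat_lit 2944)
 (nat_lit 134217744) (.ev (nat_lit 3204) (nat_lit 32) (.ev (nat_lit 3213) (nat_lit 262144) .dd)))))) (.ch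
 (nat_lit 12) (.ev (nat_lit 1680) (nat_lit 68157456) (.ev (nat_lit 2000) (nat_lit 134217728) (.ev (nat_lit
 2484) (nat_lit 262176) (.ev (nat_lit 2493) (nat_lit 536870912) .dd))))))))))))) (.br (nat_lit 9) (.ch (nat_lit
 8) (.ev (nat_lit 1424) (nat_lit 9732104240) (.nd (nat_lit 1664) (.br (nat_lit 6) (.br (nat_lit 5) (.ch
 (nat_lit 1) (.ev (nat_lit 1680) (nat_lit 671089664) (.ev (nat_lit 1693) (nat_lit 33554432) .dd))) (.ch
 (nat_lit 5) (.ev (nat_lit 1716) (nat_lit 536870912) (.ev (nat_lit 1892) (nat_lit 33554432) (.ev (nat_lit 1952)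
 (nat_lit 1024) (.ev (nat_lit 1965) (nat_lit 134217728) .dd)))))) (.br (nat_lit 8) (.ch (nat_lit 6) (.ev
 (nat_lit 1680) (nat_lit 536871936) (.ev (nat_lit 1716) (nat_lit 33554432) (.ev (nat_lit 1725) (nat_lit
 134217728) .dd)))) (.ch (nat_lit 8) (.ev (nat_lit 1680) (nat_lit 570425344) (.ev (nat_lit 2052) (nat_lit
 134217728) (.ev (nat_lit 2061) (nat_lit 1024) .dd))))))))) (.br (nat_lit 11) (.ch (nat_lit 9) (.ev (nat_lit
 1424) (nat_lit 9698280496) (.nd (nat_lit 1664) (.br (nat_lit 8) (.br (nat_lit 2) (.ch (nat_lit 1) (.ev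
 (nat_lit 1680) (nat_lit 201334784) (.ev (nat_lit 1892) (nat_lit 262144) (.ev (nat_lit 1901) (nat_lit
 536870912) .dd)))) (.br (nat_lit 4) (.ch (nat_lit 2) (.ev (nat_lit 1680) (nat_lit 537133056) (.ev (nat_lit
 1716) (nat_lit 134217728) (.fin (nat_lit 576456904061436466))))) (.ch (nat_lit 4) (.ev (nat_lit 1680) (nat_lit
 738459648) (.ev (nat_lit 1693) (nat_lit 8192) .dd))))) (.br (nat_lit 10) (.br (nat_lit 9) (.ch (nat_lit 8)
 (.ev (nat_lit 1680) (nat_lit 536870912) (.ev (nat_lit 1716) (nat_lit 134217728) (.ev (nat_lit 1728) (nat_lit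
 67108864) (.ev (nat_lit 2052) (nat_lit 262144) (.ev (nat_lit 2061) (nat_lit 8192) .dd)))))) (.ch (nat_lit 9)
 (.ev (nat_lit 1680) (nat_lit 671358976) (.ev (nat_lit 1693) (nat_lit 67108864) .dd)))) (.br (nat_lit 12) (.ch
 (nat_lit 10) (.ev (nat_lit 1680) (nat_lit 671358976) (.ev (nat_lit 1693) (nat_lit 67108864) .dd))) (.ch
 (nat_lit 12) (.ev (nat_lit 1680) (nat_lit 8192) (.ev (nat_lit 1716) (nat_lit 262144) (.ev (nat_lit 2340)
 (nat_lit 201326592) (.ev (nat_lit 2349) (nat_lit 536870912) .dd))))))))))) (.ch (nat_lit 11) (.ev (nat_lit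
 1424) (nat_lit 704914448) (.nd (nat_lit 1664) (.br (nat_lit 4) (.br (nat_lit 2) (.ch (nat_lit 0) (.ev (nat_lit
 1680) (nat_lit 8657043488) (.ev (nat_lit 1892) (nat_lit 1073741824) (.ev (nat_lit 1901) (nat_lit 1048576)
 .dd)))) (.br (nat_lit 3) (.ch (nat_lit 2) (.ev (nat_lit 1680) (nat_lit 1074790400) (.ev (nat_lit 1872)
 (nat_lit 32) (.ev (nat_lit 1904) (nat_lit 8589934592) (.ev (nat_lit 1917) (nat_lit 67108864) .dd))))) (.ch
 (nat_lit 3) (.ev (nat_lit 1680) (nat_lit 1074790400) (.ev (nat_lit 2052) (nat_lit 67108864) (.fin (nat_lit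
 576465700039115120))))))) (.br (nat_lit 6) (.ch (nat_lit 4) (.ev (nat_lit 1680) (nat_lit 1048608) (.ev
 (nat_lit 1716) (nat_lit 1073741824) (.ev (nat_lit 2080) (nat_lit 8657043456) .dd)))) (.br (nat_lit 8) (.ch
 (nat_lit 6) (.ev (nat_lit 1680) (nat_lit 9731833888) .dd)) (.ch (nat_lit 8) (.ev (nat_lit 1680) (nat_lit
 1074790432) (.ev (nat_lit 1744) (nat_lit 67108864) (.ev (nat_lit 1757) (nat_lit 8589934592)
 .dd))))))))))))))))))) (.ch (nat_lit 67) (.ev (nat_lit 52) (nat_lit 1715472416) (.ev (nat_lit 372) (nat_lit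
 1048576) (.ev (nat_lit 820) (nat_lit 16777216) (.ev (nat_lit 1012) (nat_lit 16) (.nd (nat_lit 1408) (.br
 (nat_lit 6) (.br (nat_lit 5) (.ch (nat_lit 0) (.ev (nat_lit 1424) (nat_lit 134481152) (.nd (nat_lit 1664) (.br
 (nat_lit 8) (.br (nat_lit 1) (.ch (nat_lit 0) (.ev (nat_lit 1680) (nat_lit 68719489024) (.ev (nat_lit 2052)
 (nat_lit 8589934592) (.ev (nat_lit 2061) (nat_lit 32768) .dd)))) (.br (nat_lit 5) (.ch (nat_lit 1) (.ev
 (nat_lit 1680) (nat_lit 77309415424) (.ev (nat_lit 1716) (nat_lit 8192) (.ev (nat_lit 1725) (nat_lit 32768)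
 .dd)))) (.ch (nat_lit 5) (.ev (nat_lit 1680) (nat_lit 8589942784) (.ev (nat_lit 1716) (nat_lit 36864) (.ev
 (nat_lit 1725) (nat_lit 68719476736) .dd)))))) (.br (nat_lit 9) (.ch (nat_lit 8) (.ev (nat_lit 1680) (nat_lit
 77309444096) (.ev (nat_lit 1716) (nat_lit 8192) (.ev (nat_lit 1725) (nat_lit 4096) .dd)))) (.br (nat_lit 12)
 (.ch (nat_lit 9) (.ev (nat_lit 1680) (nat_lit 68719489024) (.ev (nat_lit 1716) (nat_lit 32768) (.ev (nat_lit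
 1725) (nat_lit 8589934592) .dd)))) (.ch (nat_lit 12) (.ev (nat_lit 1680) (nat_lit 77309452288) (.ev (nat_lit
 1693) (nat_lit 4096) .dd))))))))) (.ch (nat_lit 5) (.ev (nat_lit 1424) (nat_lit 77443633408) (.nd (nat_lit
 1664) (.br (nat_lit 5) (.br (nat_lit 1) (.ch (nat_lit 0) (.ev (nat_lit 1680) (nat_lit 295936) (.ev (nat_lit
 1693) (nat_lit 8192) .dd))) (.br (nat_lit 3) (.ch (nat_lit 1) (.ev (nat_lit 1680) (nat_lit 41984) (.ev
 (nat_lit 1693) (nat_lit 262144) .dd))) (.ch (nat_lit 3) (.ev (nat_lit 1680) (nat_lit 294912) (.ev (nat_lit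
 1892) (nat_lit 8192) (.ev (nat_lit 1901) (nat_lit 1024) .dd)))))) (.br (nat_lit 6) (.ch (nat_lit 5) (.ev
 (nat_lit 1680) (nat_lit 1024) (.ev (nat_lit 1892) (nat_lit 262144) (.ev (nat_lit 1904) (nat_lit 8192) (.ev
 (nat_lit 1917) (nat_lit 32768) .dd))))) (.br (nat_lit 8) (.ch (nat_lit 6) (.ev (nat_lit 1680) (nat_lit 8192)
 (.ev (nat_lit 2192) (nat_lit 32768) (.ev (nat_lit 2340) (nat_lit 262144) (.ev (nat_lit 2349) (nat_lit 1024)
 .dd))))) (.ch (nat_lit 8) (.ev (nat_lit 1680) (nat_lit 294912) (.ev (nat_lit 1728) (nat_lit 8192) (.ev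
 (nat_lit 1741) (nat_lit 1024) .dd))))))))))) (.br (nat_lit 8) (.ch (nat_lit 6) (.ev (nat_lit 1424) (nat_lit
 77309678848) (.nd (nat_lit 1664) (.br (nat_lit 3) (.br (nat_lit 1) (.ch (nat_lit 0) (.ev (nat_lit 1680)
 (nat_lit 134258688) .dd)) (.ch (nat_lit 1) (.ev (nat_lit 1680) (nat_lit 32768) (.ev (nat_lit 3124) (nat_lit
 134217728) (.ev (nat_lit 3133) (nat_lit 8192) .dd))))) (.br (nat_lit 8) (.ch (nat_lit 3) (.ev (nat_lit 1920)
 (nat_lit 32768) (.ev (nat_lit 2484) (nat_lit 8192) (.ev (nat_lit 2493) (nat_lit 134217728) .dd)))) (.br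
 (nat_lit 10) (.ch (nat_lit 8) (.ev (nat_lit 1680) (nat_lit 134225920) (.ev (nat_lit 1693) (nat_lit 32768)
 .dd))) (.ch (nat_lit 10) (.ev (nat_lit 1680) (nat_lit 32768) (.ev (nat_lit 2180) (nat_lit 8192) (.ev (nat_lit
 2189) (nat_lit 134217728) .dd)))))))))) (.br (nat_lit 9) (.ch (nat_lit 8) (.ev (nat_lit 1424) (nat_lit
 77309710336) (.nd (nat_lit 1664) (.br (nat_lit 8) (.br (nat_lit 2) (.ch (nat_lit 1) (.ev (nat_lit 1680)
 (nat_lit 9472) (.ev (nat_lit 1693) (nat_lit 134217728) .dd))) (.br (nat_lit 6) (.ch (nat_lit 2) (.ev (nat_lit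
 1680) (nat_lit 134226944) (.ev (nat_lit 1693) (nat_lit 256) .dd))) (.ch (nat_lit 6) (.ev (nat_lit 1680)
 (nat_lit 1280) (.ev (nat_lit 1716) (nat_lit 8192) (.ev (nat_lit 1725) (nat_lit 134217728) .dd)))))) (.br
 (nat_lit 11) (.ch (nat_lit 8) (.ev (nat_lit 1680) (nat_lit 8448) (.ev (nat_lit 1716) (nat_lit 1024) (.ev
 (nat_lit 1725) (nat_lit 134217728) .dd)))) (.br (nat_lit 12) (.ch (nat_lit 11) (.ev (nat_lit 1680) (nat_lit
 134225920) (.ev (nat_lit 1716) (nat_lit 1024) (.ev (nat_lit 1725) (nat_lit 256) .dd)))) (.ch (nat_lit 12) (.ev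
 (nat_lit 1680) (nat_lit 134226944) (.ev (nat_lit 1693) (nat_lit 256) .dd))))))))) (.ch (nat_lit 9) (.ev
 (nat_lit 1424) (nat_lit 77309424640) (.nd (nat_lit 1664) (.br (nat_lit 10) (.br (nat_lit 4) (.ch (nat_lit 2)
 (.ev (nat_lit 1680) (nat_lit 134512640) (.ev (nat_lit 1693) (nat_lit 256) .dd))) (.br (nat_lit 8) (.ch
 (nat_lit 4) (.ev (nat_lit 1680) (nat_lit 134512640) (.ev (nat_lit 1693) (nat_lit 256) .dd))) (.ch (nat_lit 8)
 (.ev (nat_lit 1680) (nat_lit 33024) (.ev (nat_lit 1904) (nat_lit 134479872) .dd))))) (.br (nat_lit 11) (.ch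
 (nat_lit 10) (.ev (nat_lit 1680) (nat_lit 134512896) .dd)) (.br (nat_lit 12) (.ch (nat_lit 11) (.ev (nat_lit
 1716) (nat_lit 262144) (.ev (nat_lit 1892) (nat_lit 32768) (.ev (nat_lit 2080) (nat_lit 134217728) (.ev
 (nat_lit 2093) (nat_lit 256) .dd))))) (.ch (nat_lit 12) (.ev (nat_lit 1680) (nat_lit 33024) (.ev (nat_lit
 2340) (nat_lit 262144) (.ev (nat_lit 2349) (nat_lit 134217728) .dd))))))))))))))))))))) (.br (nat_lit 69) (.ch
 (nat_lit 68) (.ev (nat_lit 52) (nat_lit 1276152064) (.ev (nat_lit 308) (nat_lit 262144) (.ev (nat_lit 640)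
 (nat_lit 77900821552) .dd)))) (.br (nat_lit 70) (.ch (nat_lit 69) (.ev (nat_lit 52) (nat_lit 77846545712) (.ev
 (nat_lit 212) (nat_lit 67108864) (.ev (nat_lit 532) (nat_lit 4194304) (.ev (nat_lit 596) (nat_lit 4096) (.ev
 (nat_lit 660) (nat_lit 16777216) (.ev (nat_lit 1184) (nat_lit 1242605568) .dd))))))) (.ch (nat_lit 70) (.ev
 (nat_lit 52) (nat_lit 1750369280) (.ev (nat_lit 276) (nat_lit 16) (.ev (nat_lit 672) (nat_lit 77426866464)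
 .dd))))))))))))

/-- The trie. -/
noncomputable def T : Tr := .nd (nat_lit 1000000) (.br (nat_lit 3) (.br (nat_lit 1) (.ch (nat_lit 0) (.ev
 (nat_lit 0) (nat_lit 137438953471) .dd)) (.br (nat_lit 2) (.ch (nat_lit 1) (.ev (nat_lit 0) (nat_lit
 137438953471) .dd)) (.ch (nat_lit 2) T2))) (.br (nat_lit 4) (.ch (nat_lit 3) (.ev (nat_lit 0) (nat_lit
 137438953471) .dd)) (.br (nat_lit 5) (.ch (nat_lit 4) T4) (.ch (nat_lit 5) T5))))

/-- The possible values. -/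
noncomputable def oks : List ℕ := [186, 706, 4378, 96690, 516610]

/-- The parameters. -/
noncomputable def S : Pr := ⟨fun i l e => lget mz (lget [] (lget [] tabs i) l) e, oks, [(nat_lit 0), (nat_lit
 1), (nat_lit 0), (nat_lit 0), (nat_lit 0)], T, (nat_lit 137438953471), (nat_lit 23899161165), (nat_lit 37),
 [(nat_lit 11), (nat_lit 87122173451996128837)], [(nat_lit 28561), (nat_lit 5041)]⟩

/-- Nothing known. -/
noncomputable def cs0 : Cs := (.cons (nat_lit 13) (nat_lit 0) (nat_lit 1) (.cons (nat_lit 71) (nat_lit 0) (nat_lit 1) .nil))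

theorem part_2 : part S cs0 (nat_lit 2) = true := by decide +kernel

theorem part_4 : part S cs0 (nat_lit 4) = true := by decide +kernel

theorem part_5 : part S cs0 (nat_lit 5) = true := by decide +kernel

/-- Data of a prime. -/
noncomputable def D0 : PD := ⟨(nat_lit 13), (nat_lit 4), (18539, 6, 3), (3738, 9686, 17527), (5242, 16658, 24987)⟩

theorem D0_ok : D0.Ok := pdb_sound (s := 2) (C := ⟨⟨3, 18, -4, -17, 2, 1, 2, -1, -7⟩, (3, 9, 2)⟩) (by show Nat.Prime 13; norm_num) (by decide +kernel)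

/-- Lines of the first type. -/
noncomputable def Cl0 : List C1 := [⟨⟨17, -2, -16, 3, 18, 1, -2, 1, -5⟩, (10, 1, 8)⟩,
  ⟨⟨3, -18, -4, -17, -2, 1, 2, 1, -7⟩, (5, 2, 12)⟩,
  ⟨⟨0, 0, 0, 0, 0, 0, 0, 0, 0⟩, (0, 0, 0)⟩,
  ⟨⟨17, 2, -16, 3, -18, 1, -2, -1, -5⟩, (8, 6, 9)⟩,
  ⟨⟨0, 0, 0, 0, 0, 0, 0, 0, 0⟩, (0, 0, 0)⟩,
  ⟨⟨0, 0, 0, 0, 0, 0, 0, 0, 0⟩, (0, 0, 0)⟩,
  ⟨⟨0, 0, 0, 0, 0, 0, 0, 0, 0⟩, (0, 0, 0)⟩,
  ⟨⟨0, 0, 0, 0, 0, 0, 0, 0, 0⟩, (0, 0, 0)⟩,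
  ⟨⟨0, 0, 0, 0, 0, 0, 0, 0, 0⟩, (0, 0, 0)⟩,
  ⟨⟨0, 0, 0, 0, 0, 0, 0, 0, 0⟩, (0, 0, 0)⟩,
  ⟨⟨0, 0, 0, 0, 0, 0, 0, 0, 0⟩, (0, 0, 0)⟩,
  ⟨⟨0, 0, 0, 0, 0, 0, 0, 0, 0⟩, (0, 0, 0)⟩,
  ⟨⟨0, 0, 0, 0, 0, 0, 0, 0, 0⟩, (0, 0, 0)⟩]

/-- Data of a prime. -/
noncomputable def D1 : PD := ⟨(nat_lit 71), (nat_lit 2), (72, 9, 33), (3977, 4536, 3372), (4173, 4400, 3526)⟩

theorem D1_ok : D1.Ok := pdb_sound (s := 11) (C := ⟨⟨59, 34, -112, -29, 94, 37, -24, -3, -11⟩, (59, 42, 47)⟩) (by show Nat.Prime 71; norm_num) (by decide +kernel)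

/-- Lines of the first type. -/
noncomputable def Cl1 : List C1 := [⟨⟨-59, -34, -53, 29, -94, 8, 24, 3, -35⟩, (17, 47, 34)⟩,
  ⟨⟨0, 0, 0, 0, 0, 0, 0, 0, 0⟩, (0, 0, 0)⟩,
  ⟨⟨49, -74, -77, 79, 14, 28, 12, 21, -29⟩, (59, 56, 13)⟩,
  ⟨⟨0, 0, 0, 0, 0, 0, 0, 0, 0⟩, (0, 0, 0)⟩,
  ⟨⟨0, 0, 0, 0, 0, 0, 0, 0, 0⟩, (0, 0, 0)⟩,
  ⟨⟨0, 0, 0, 0, 0, 0, 0, 0, 0⟩, (0, 0, 0)⟩,
  ⟨⟨79, -14, -107, 49, 74, 28, -12, 21, -17⟩, (44, 21, 5)⟩,
  ⟨⟨0, 0, 0, 0, 0, 0, 0, 0, 0⟩, (0, 0, 0)⟩,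
  ⟨⟨0, 0, 0, 0, 0, 0, 0, 0, 0⟩, (0, 0, 0)⟩,
  ⟨⟨39, 66, -92, -89, 46, 37, -8, -19, -23⟩, (13, 65, 21)⟩,
  ⟨⟨19, 46, -107, -91, -26, 8, 12, -27, -19⟩, (7, 30, 53)⟩,
  ⟨⟨0, 0, 0, 0, 0, 0, 0, 0, 0⟩, (0, 0, 0)⟩,
  ⟨⟨0, 0, 0, 0, 0, 0, 0, 0, 0⟩, (0, 0, 0)⟩,
  ⟨⟨99, 6, -67, 11, -94, 32, -4, -11, -31⟩, (13, 33, 59)⟩,
  ⟨⟨-39, -66, -53, -89, 46, 52, 8, 19, -31⟩, (17, 57, 22)⟩,
  ⟨⟨0, 0, 0, 0, 0, 0, 0, 0, 0⟩, (0, 0, 0)⟩,
  ⟨⟨0, 0, 0, 0, 0, 0, 0, 0, 0⟩, (0, 0, 0)⟩,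
  ⟨⟨19, -46, -107, -91, 26, 8, 12, 27, -19⟩, (15, 44, 2)⟩,
  ⟨⟨0, 0, 0, 0, 0, 0, 0, 0, 0⟩, (0, 0, 0)⟩,
  ⟨⟨0, 0, 0, 0, 0, 0, 0, 0, 0⟩, (0, 0, 0)⟩,
  ⟨⟨51, 66, -88, -59, 74, 67, -20, -5, -17⟩, (59, 64, 59)⟩,
  ⟨⟨49, 74, -77, 79, -14, 28, 12, -21, -29⟩, (6, 43, 29)⟩,
  ⟨⟨0, 0, 0, 0, 0, 0, 0, 0, 0⟩, (0, 0, 0)⟩,
  ⟨⟨0, 0, 0, 0, 0, 0, 0, 0, 0⟩, (0, 0, 0)⟩,
  ⟨⟨0, 0, 0, 0, 0, 0, 0, 0, 0⟩, (0, 0, 0)⟩,
  ⟨⟨31, 74, -83, -81, 54, 68, -16, -13, -19⟩, (8, 2, 60)⟩,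
  ⟨⟨0, 0, 0, 0, 0, 0, 0, 0, 0⟩, (0, 0, 0)⟩,
  ⟨⟨11, 94, -43, -99, 6, 32, 4, -11, -35⟩, (69, 18, 38)⟩,
  ⟨⟨-51, 66, -37, 59, 74, 8, 20, -5, -37⟩, (25, 56, 25)⟩,
  ⟨⟨0, 0, 0, 0, 0, 0, 0, 0, 0⟩, (0, 0, 0)⟩,
  ⟨⟨39, -66, -92, -89, -46, 37, -8, 19, -23⟩, (43, 2, 64)⟩,
  ⟨⟨0, 0, 0, 0, 0, 0, 0, 0, 0⟩, (0, 0, 0)⟩,
  ⟨⟨59, -34, -112, -29, -94, 37, -24, 3, -11⟩, (9, 4, 18)⟩,
  ⟨⟨0, 0, 0, 0, 0, 0, 0, 0, 0⟩, (0, 0, 0)⟩,
  ⟨⟨0, 0, 0, 0, 0, 0, 0, 0, 0⟩, (0, 0, 0)⟩,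
  ⟨⟨-59, 34, -53, 29, 94, 8, 24, -3, -35⟩, (8, 43, 16)⟩,
  ⟨⟨0, 0, 0, 0, 0, 0, 0, 0, 0⟩, (0, 0, 0)⟩,
  ⟨⟨11, -94, -43, -99, -6, 32, 4, 11, -35⟩, (2, 53, 33)⟩,
  ⟨⟨0, 0, 0, 0, 0, 0, 0, 0, 0⟩, (0, 0, 0)⟩,
  ⟨⟨0, 0, 0, 0, 0, 0, 0, 0, 0⟩, (0, 0, 0)⟩,
  ⟨⟨51, -66, -88, -59, -74, 67, -20, 5, -17⟩, (18, 46, 18)⟩,
  ⟨⟨-19, -46, -88, -91, -26, 83, -12, 27, -7⟩, (26, 61, 65)⟩,
  ⟨⟨0, 0, 0, 0, 0, 0, 0, 0, 0⟩, (0, 0, 0)⟩,
  ⟨⟨0, 0, 0, 0, 0, 0, 0, 0, 0⟩, (0, 0, 0)⟩,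
  ⟨⟨0, 0, 0, 0, 0, 0, 0, 0, 0⟩, (0, 0, 0)⟩,
  ⟨⟨-19, 46, -88, -91, 26, 83, -12, -27, -7⟩, (18, 4, 45)⟩,
  ⟨⟨0, 0, 0, 0, 0, 0, 0, 0, 0⟩, (0, 0, 0)⟩,
  ⟨⟨0, 0, 0, 0, 0, 0, 0, 0, 0⟩, (0, 0, 0)⟩,
  ⟨⟨0, 0, 0, 0, 0, 0, 0, 0, 0⟩, (0, 0, 0)⟩,
  ⟨⟨0, 0, 0, 0, 0, 0, 0, 0, 0⟩, (0, 0, 0)⟩,
  ⟨⟨0, 0, 0, 0, 0, 0, 0, 0, 0⟩, (0, 0, 0)⟩,
  ⟨⟨0, 0, 0, 0, 0, 0, 0, 0, 0⟩, (0, 0, 0)⟩,
  ⟨⟨99, -6, -67, 11, 94, 32, -4, 11, -31⟩, (48, 29, 54)⟩,
  ⟨⟨0, 0, 0, 0, 0, 0, 0, 0, 0⟩, (0, 0, 0)⟩,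
  ⟨⟨0, 0, 0, 0, 0, 0, 0, 0, 0⟩, (0, 0, 0)⟩,
  ⟨⟨0, 0, 0, 0, 0, 0, 0, 0, 0⟩, (0, 0, 0)⟩,
  ⟨⟨-51, -66, -37, 59, -74, 8, 20, 5, -37⟩, (55, 38, 55)⟩,
  ⟨⟨0, 0, 0, 0, 0, 0, 0, 0, 0⟩, (0, 0, 0)⟩,
  ⟨⟨0, 0, 0, 0, 0, 0, 0, 0, 0⟩, (0, 0, 0)⟩,
  ⟨⟨-31, -74, -52, -81, 54, 13, 16, 13, -35⟩, (64, 55, 54)⟩,
  ⟨⟨-31, 74, -52, -81, -54, 13, 16, -13, -35⟩, (11, 15, 47)⟩,
  ⟨⟨-39, 66, -53, -89, -46, 52, 8, -19, -31⟩, (58, 65, 50)⟩,
  ⟨⟨0, 0, 0, 0, 0, 0, 0, 0, 0⟩, (0, 0, 0)⟩,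
  ⟨⟨79, 14, -107, 49, -74, 28, -12, -21, -17⟩, (57, 3, 21)⟩,
  ⟨⟨0, 0, 0, 0, 0, 0, 0, 0, 0⟩, (0, 0, 0)⟩,
  ⟨⟨0, 0, 0, 0, 0, 0, 0, 0, 0⟩, (0, 0, 0)⟩,
  ⟨⟨31, -74, -83, -81, -54, 68, -16, 13, -19⟩, (61, 33, 67)⟩,
  ⟨⟨0, 0, 0, 0, 0, 0, 0, 0, 0⟩, (0, 0, 0)⟩,
  ⟨⟨0, 0, 0, 0, 0, 0, 0, 0, 0⟩, (0, 0, 0)⟩,
  ⟨⟨0, 0, 0, 0, 0, 0, 0, 0, 0⟩, (0, 0, 0)⟩,
  ⟨⟨0, 0, 0, 0, 0, 0, 0, 0, 0⟩, (0, 0, 0)⟩]

/-- Data of a prime. -/
noncomputable def Dm : PD := ⟨(nat_lit 37), (nat_lit 2), (556, 16, 5), (1239, 947, 1101), (730, 506, 467)⟩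

theorem Dm_ok : Dm.Ok := pdb_sound (s := 2) (C := ⟨⟨43, 22, -44, 23, -2, 41, 6, -15, -7⟩, (6, 23, 6)⟩) (by show Nat.Prime 37; norm_num) (by decide +kernel)

/-- Lines of the first type. -/
noncomputable def Clm : List C1 := [⟨⟨23, -2, -64, 43, 22, 1, -6, 15, -1⟩, (31, 29, 8)⟩,
  ⟨⟨0, 0, 0, 0, 0, 0, 0, 0, 0⟩, (0, 0, 0)⟩,
  ⟨⟨-7, 22, -49, 27, 42, 4, 14, -7, -13⟩, (1, 12, 35)⟩,
  ⟨⟨-13, 38, -31, -47, -22, 16, 6, -9, -17⟩, (20, 4, 5)⟩,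
  ⟨⟨0, 0, 0, 0, 0, 0, 0, 0, 0⟩, (0, 0, 0)⟩,
  ⟨⟨0, 0, 0, 0, 0, 0, 0, 0, 0⟩, (0, 0, 0)⟩,
  ⟨⟨7, 22, -56, -27, 42, 31, 14, 7, -1⟩, (18, 31, 36)⟩,
  ⟨⟨0, 0, 0, 0, 0, 0, 0, 0, 0⟩, (0, 0, 0)⟩,
  ⟨⟨0, 0, 0, 0, 0, 0, 0, 0, 0⟩, (0, 0, 0)⟩,
  ⟨⟨13, -38, -44, -47, -22, 31, -6, 9, -11⟩, (18, 26, 23)⟩,
  ⟨⟨0, 0, 0, 0, 0, 0, 0, 0, 0⟩, (0, 0, 0)⟩,
  ⟨⟨0, 0, 0, 0, 0, 0, 0, 0, 0⟩, (0, 0, 0)⟩,
  ⟨⟨0, 0, 0, 0, 0, 0, 0, 0, 0⟩, (0, 0, 0)⟩,
  ⟨⟨0, 0, 0, 0, 0, 0, 0, 0, 0⟩, (0, 0, 0)⟩,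
  ⟨⟨13, 38, -44, -47, 22, 31, -6, -9, -11⟩, (4, 14, 1)⟩,
  ⟨⟨0, 0, 0, 0, 0, 0, 0, 0, 0⟩, (0, 0, 0)⟩,
  ⟨⟨0, 0, 0, 0, 0, 0, 0, 0, 0⟩, (0, 0, 0)⟩,
  ⟨⟨0, 0, 0, 0, 0, 0, 0, 0, 0⟩, (0, 0, 0)⟩,
  ⟨⟨0, 0, 0, 0, 0, 0, 0, 0, 0⟩, (0, 0, 0)⟩,
  ⟨⟨0, 0, 0, 0, 0, 0, 0, 0, 0⟩, (0, 0, 0)⟩,
  ⟨⟨0, 0, 0, 0, 0, 0, 0, 0, 0⟩, (0, 0, 0)⟩,
  ⟨⟨0, 0, 0, 0, 0, 0, 0, 0, 0⟩, (0, 0, 0)⟩,
  ⟨⟨0, 0, 0, 0, 0, 0, 0, 0, 0⟩, (0, 0, 0)⟩,
  ⟨⟨-7, -22, -49, 27, -42, 4, 14, 7, -13⟩, (13, 8, 11)⟩,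
  ⟨⟨0, 0, 0, 0, 0, 0, 0, 0, 0⟩, (0, 0, 0)⟩,
  ⟨⟨0, 0, 0, 0, 0, 0, 0, 0, 0⟩, (0, 0, 0)⟩,
  ⟨⟨0, 0, 0, 0, 0, 0, 0, 0, 0⟩, (0, 0, 0)⟩,
  ⟨⟨0, 0, 0, 0, 0, 0, 0, 0, 0⟩, (0, 0, 0)⟩,
  ⟨⟨23, 2, -64, 43, -22, 1, -6, -15, -1⟩, (3, 4, 33)⟩,
  ⟨⟨0, 0, 0, 0, 0, 0, 0, 0, 0⟩, (0, 0, 0)⟩,
  ⟨⟨0, 0, 0, 0, 0, 0, 0, 0, 0⟩, (0, 0, 0)⟩,
  ⟨⟨-13, -38, -31, -47, 22, 16, 6, 9, -17⟩, (34, 29, 27)⟩,
  ⟨⟨7, -22, -56, -27, -42, 31, 14, -7, -1⟩, (30, 27, 23)⟩,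
  ⟨⟨0, 0, 0, 0, 0, 0, 0, 0, 0⟩, (0, 0, 0)⟩,
  ⟨⟨43, -22, -44, 23, 2, 41, 6, 15, -7⟩, (12, 9, 12)⟩,
  ⟨⟨0, 0, 0, 0, 0, 0, 0, 0, 0⟩, (0, 0, 0)⟩,
  ⟨⟨0, 0, 0, 0, 0, 0, 0, 0, 0⟩, (0, 0, 0)⟩]

/-- Unit moves. -/
noncomputable def U : List Mv := [mz,
  mz,
  mz,
  mz,
  mz,
  mz,
  ⟨⟨-1, 0, 1, 0, 1, 0, 0, 0, 1⟩, .nil, (nat_lit 12), (nat_lit 1), (nat_lit 4), (nat_lit 1), (0, 0, 0), [], 5⟩,
  ⟨⟨1, 0, 0, 0, -1, 0, 0, 0, 1⟩, .nil, (nat_lit 12), (nat_lit 3), (nat_lit 12), (nat_lit 1), (0, 0, 0), [], 11⟩,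
  ⟨⟨-1, 0, 1, 0, -1, 0, 0, 0, 1⟩, .nil, (nat_lit 0), (nat_lit 3), (nat_lit 1), (nat_lit 0), (0, 0, 0), [], 10⟩,
  ⟨⟨1, 0, 0, 0, -1, 0, 0, 0, 1⟩, .nil, (nat_lit 12), (nat_lit 3), (nat_lit 12), (nat_lit 1), (0, 0, 0), [], 11⟩,
  ⟨⟨-1, 0, 1, 0, 1, 0, 0, 0, 1⟩, .nil, (nat_lit 12), (nat_lit 1), (nat_lit 4), (nat_lit 1), (0, 0, 0), [], 5⟩,
  ⟨⟨-1, 0, 1, 0, -1, 0, 0, 0, 1⟩, .nil, (nat_lit 0), (nat_lit 3), (nat_lit 1), (nat_lit 0), (0, 0, 0), [], 10⟩,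
  ⟨⟨1, 0, 0, 0, -1, 0, 0, 0, 1⟩, .nil, (nat_lit 12), (nat_lit 3), (nat_lit 12), (nat_lit 1), (0, 0, 0), [], 11⟩]

theorem v_ty : tyb Dm S.ty1 Clm = true := by decide +kernel

theorem v_ty0 : tyb D0 (S.tys.getD 0 0) Cl0 = true := by decide +kernel

theorem v_ty1 : tyb D1 (S.tys.getD 1 0) Cl1 = true := by decide +kernel

theorem v_msc : mscb S D0 [D1] Dm (nat_lit 52) = true := by decide +kernel

theorem v_mv0 : mvsn (nat_lit 197103145369) S D0 [D1] Dm (nat_lit 52) 0 D0 = true := by decide +kernel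

theorem v_mv1 : mvsn (nat_lit 197103145369) S D0 [D1] Dm (nat_lit 52) 1 D1 = true := by decide +kernel

theorem v_mm : mmsn (nat_lit 197103145369) S D0 [D1] Dm (nat_lit 52) = true := by decide +kernel

theorem v_un : unb S D0 (nat_lit 52) U = true := by decide +kernel

theorem v_ok : okb S.oks [(0, 0, 0), (0, 0, 0), (0, 0, 0), (0, 0, 0), (0, 0, 0)] = true := by decide +kernel

theorem v_part : ∀ d < D0.p, (nat_lit 52).testBit d = true → part S (zc (D0 :: [D1])) d = true := by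
  intro d hd h
  have h1 : ∀ d < 13, (nat_lit 52).testBit d = true → d = 2 ∨ d = 4 ∨ d = 5 := by decide
  rcases h1 d hd h with rfl | rfl | rfl
  · exact part_2
  · exact part_4
  · exact part_5

theorem main (n : ℕ) (ho : Odd n) (hr : ¬ Rep n) (h0 : Split 13 n) (h1 : Split 71 n) (hm : Split 37 n) :
    n ∈ EE := by
  refine concln (W := nat_lit 197103145369) (S := S) (P0 := D0) (Pl := [D1]) (Pm := Dm) (cn := nat_lit 52) ?_ Dm_ok v_ty ?_ ?_ v_msc ?_ v_mm v_un v_part v_ok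
    n ho hr ?_ hm
  · simp only [List.forall_mem_cons]
    exact ⟨D0_ok, D1_ok, fun _ h => absurd h (by simp)⟩
  · exact all2 (φ := fun j P => ∃ L, tyb P (S.tys.getD j 0) L = true) ⟨_, v_ty0⟩ ⟨_, v_ty1⟩
  · exact all2 (φ := fun j P => Nat.ble (S.pks.getD j 0) (Nat.pow P.p P.K) = true) (by decide +kernel) (by decide +kernel)
  · exact all2 (φ := fun i P => mvsn (nat_lit 197103145369) S D0 [D1] Dm (nat_lit 52) i P = true) v_mv0 v_mv1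
  · simp only [List.forall_mem_cons]
    exact ⟨h0, h1, fun _ h => absurd h (by simp)⟩

end Pool.Agent.Work.MP_9954fe_nt.P13_71_37

namespace Pool.Agent.Work.MP_9954fe_nt.P13_43_47

/-- Dummy move. -/
noncomputable def mz : Mv := ⟨⟨0, 0, 0, 0, 0, 0, 0, 0, 0⟩, .nil, (nat_lit 0), (nat_lit 0), (nat_lit 0), (nat_lit 0), (0, 0, 0), [], 0⟩

/-- Moves. -/
noncomputable def t0_2 : List Mv := [
  ⟨⟨-1, -12, 9, 8, 5, 6, 8, -8, -7⟩, (.cons (nat_lit 1124) (nat_lit 173) (nat_lit 1983) (nat_lit 1) (.cons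
 (nat_lit 840) (nat_lit 1311) (nat_lit 1148) (nat_lit 1) .nil)), (nat_lit 18), (nat_lit 30), (nat_lit 6),
 (nat_lit 1), (8, 1, 1), [1400, 1269], 38⟩,
  ⟨⟨9, 4, -16, -8, -5, -6, 8, -8, -7⟩, (.cons (nat_lit 2069) (nat_lit 1980) (nat_lit 385) (nat_lit 1) (.cons
 (nat_lit 603) (nat_lit 592) (nat_lit 556) (nat_lit 1) .nil)), (nat_lit 1), (nat_lit 8), (nat_lit 10), (nat_lit
 1), (6, 12, 1), [69, 1796], 40⟩,
  ⟨⟨9, 4, -16, -8, -5, -6, 8, -8, -7⟩, (.cons (nat_lit 2069) (nat_lit 1980) (nat_lit 385) (nat_lit 1) (.cons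
 (nat_lit 603) (nat_lit 592) (nat_lit 556) (nat_lit 1) .nil)), (nat_lit 1), (nat_lit 8), (nat_lit 10), (nat_lit
 1), (6, 12, 1), [69, 1796], 40⟩,
  ⟨⟨-1, -12, 9, -8, -5, -6, 8, -8, -7⟩, (.cons (nat_lit 1594) (nat_lit 334) (nat_lit 1902) (nat_lit 1) (.cons
 (nat_lit 1848) (nat_lit 311) (nat_lit 40) (nat_lit 1) .nil)), (nat_lit 46), (nat_lit 39), (nat_lit 10),
 (nat_lit 1), (8, 12, 1), [1259, 979], 40⟩,
  ⟨⟨-1, -12, 9, 8, 5, 6, 8, -8, -7⟩, (.cons (nat_lit 1124) (nat_lit 173) (nat_lit 1983) (nat_lit 1) (.cons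
 (nat_lit 840) (nat_lit 1311) (nat_lit 1148) (nat_lit 1) .nil)), (nat_lit 18), (nat_lit 30), (nat_lit 6),
 (nat_lit 1), (8, 1, 1), [1400, 1269], 38⟩,
  ⟨⟨9, 4, -16, 8, 5, 6, 8, -8, -7⟩, (.cons (nat_lit 309) (nat_lit 1036) (nat_lit 1493) (nat_lit 1) (.cons (nat_lit 1740) (nat_lit 495) (nat_lit 804) (nat_lit 1) .nil)), (nat_lit 29), (nat_lit 17), (nat_lit 6), (nat_lit 1), (6, 1, 1), [249, 194], 38⟩,
  ⟨⟨9, 4, -16, 8, 5, 6, 8, -8, -7⟩, (.cons (nat_lit 309) (nat_lit 1036) (nat_lit 1493) (nat_lit 1) (.cons (nat_lit 1740) (nat_lit 495) (nat_lit 804) (nat_lit 1) .nil)), (nat_lit 29), (nat_lit 17), (nat_lit 6), (nat_lit 1), (6, 1, 1), [249, 194], 38⟩,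
  ⟨⟨-1, -12, 9, -8, -5, -6, 8, -8, -7⟩, (.cons (nat_lit 1594) (nat_lit 334) (nat_lit 1902) (nat_lit 1) (.cons
 (nat_lit 1848) (nat_lit 311) (nat_lit 40) (nat_lit 1) .nil)), (nat_lit 46), (nat_lit 39), (nat_lit 10),
 (nat_lit 1), (8, 12, 1), [1259, 979], 40⟩,
  ⟨⟨-1, -12, 9, -8, -5, -6, 8, -8, -7⟩, (.cons (nat_lit 1594) (nat_lit 334) (nat_lit 1902) (nat_lit 1) (.cons
 (nat_lit 1848) (nat_lit 311) (nat_lit 40) (nat_lit 1) .nil)), (nat_lit 46), (nat_lit 39), (nat_lit 10),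
 (nat_lit 1), (8, 12, 1), [1259, 979], 40⟩,
  ⟨⟨-1, -12, 9, -8, -5, -6, 8, -8, -7⟩, (.cons (nat_lit 1594) (nat_lit 334) (nat_lit 1902) (nat_lit 1) (.cons
 (nat_lit 1848) (nat_lit 311) (nat_lit 40) (nat_lit 1) .nil)), (nat_lit 46), (nat_lit 39), (nat_lit 10),
 (nat_lit 1), (8, 12, 1), [1259, 979], 40⟩,
  ⟨⟨-1, -12, 9, 8, 5, 6, 8, -8, -7⟩, (.cons (nat_lit 1124) (nat_lit 173) (nat_lit 1983) (nat_lit 1) (.cons
 (nat_lit 840) (nat_lit 1311) (nat_lit 1148) (nat_lit 1) .nil)), (nat_lit 18), (nat_lit 30), (nat_lit 6),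
 (nat_lit 1), (8, 1, 1), [1400, 1269], 38⟩,
  ⟨⟨-1, -12, 9, -8, -5, -6, 8, -8, -7⟩, (.cons (nat_lit 1594) (nat_lit 334) (nat_lit 1902) (nat_lit 1) (.cons
 (nat_lit 1848) (nat_lit 311) (nat_lit 40) (nat_lit 1) .nil)), (nat_lit 46), (nat_lit 39), (nat_lit 10),
 (nat_lit 1), (8, 12, 1), [1259, 979], 40⟩,
  ⟨⟨-1, -12, 9, -8, -5, -6, 8, -8, -7⟩, (.cons (nat_lit 1594) (nat_lit 334) (nat_lit 1902) (nat_lit 1) (.cons
 (nat_lit 1848) (nat_lit 311) (nat_lit 40) (nat_lit 1) .nil)), (nat_lit 46), (nat_lit 39), (nat_lit 10),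
 (nat_lit 1), (8, 12, 1), [1259, 979], 40⟩]

/-- Moves. -/
noncomputable def t0_4 : List Mv := [
  ⟨⟨5, 12, -9, -12, 5, 6, 0, 0, -13⟩, (.cons (nat_lit 344) (nat_lit 106) (nat_lit 1760) (nat_lit 1) (.cons
 (nat_lit 1248) (nat_lit 1798) (nat_lit 1469) (nat_lit 1) .nil)), (nat_lit 1), (nat_lit 20), (nat_lit 4),
 (nat_lit 1), (12, 5, 0), [1668, 893], 40⟩,
  ⟨⟨-5, -12, -4, -12, 5, 6, 0, 0, -13⟩, (.cons (nat_lit 907) (nat_lit 1531) (nat_lit 230) (nat_lit 1) (.cons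
 (nat_lit 1848) (nat_lit 696) (nat_lit 953) (nat_lit 1) .nil)), (nat_lit 46), (nat_lit 27), (nat_lit 4),
 (nat_lit 1), (1, 5, 0), [297, 979], 40⟩,
  ⟨⟨-5, -12, -4, -12, 5, 6, 0, 0, -13⟩, (.cons (nat_lit 907) (nat_lit 1531) (nat_lit 230) (nat_lit 1) (.cons
 (nat_lit 1848) (nat_lit 696) (nat_lit 953) (nat_lit 1) .nil)), (nat_lit 46), (nat_lit 27), (nat_lit 4),
 (nat_lit 1), (1, 5, 0), [297, 979], 40⟩,
  ⟨⟨-5, -12, -4, 12, -5, -6, 0, 0, -13⟩, (.cons (nat_lit 391) (nat_lit 1594) (nat_lit 1459) (nat_lit 1) (.cons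
 (nat_lit 474) (nat_lit 1112) (nat_lit 962) (nat_lit 1) .nil)), (nat_lit 1), (nat_lit 12), (nat_lit 40),
 (nat_lit 1), (1, 8, 0), [829, 1577], 23⟩,
  ⟨⟨5, 12, -9, 12, -5, -6, 0, 0, -13⟩, (.cons (nat_lit 472) (nat_lit 935) (nat_lit 1769) (nat_lit 1) (.cons
 (nat_lit 1848) (nat_lit 565) (nat_lit 1349) (nat_lit 1) .nil)), (nat_lit 46), (nat_lit 35), (nat_lit 40),
 (nat_lit 1), (12, 8, 0), [798, 373], 23⟩,
  ⟨⟨5, 12, -9, 12, -5, -6, 0, 0, -13⟩, (.cons (nat_lit 472) (nat_lit 935) (nat_lit 1769) (nat_lit 1) (.cons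
 (nat_lit 1848) (nat_lit 565) (nat_lit 1349) (nat_lit 1) .nil)), (nat_lit 46), (nat_lit 35), (nat_lit 40),
 (nat_lit 1), (12, 8, 0), [798, 373], 23⟩,
  ⟨⟨5, 12, -9, -12, 5, 6, 0, 0, -13⟩, (.cons (nat_lit 344) (nat_lit 106) (nat_lit 1760) (nat_lit 1) (.cons
 (nat_lit 1248) (nat_lit 1798) (nat_lit 1469) (nat_lit 1) .nil)), (nat_lit 1), (nat_lit 20), (nat_lit 4),
 (nat_lit 1), (12, 5, 0), [1668, 893], 40⟩,
  ⟨⟨5, 12, -9, 12, -5, -6, 0, 0, -13⟩, (.cons (nat_lit 472) (nat_lit 935) (nat_lit 1769) (nat_lit 1) (.cons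
 (nat_lit 1848) (nat_lit 565) (nat_lit 1349) (nat_lit 1) .nil)), (nat_lit 46), (nat_lit 35), (nat_lit 40),
 (nat_lit 1), (12, 8, 0), [798, 373], 23⟩,
  ⟨⟨5, 12, -9, 12, -5, -6, 0, 0, -13⟩, (.cons (nat_lit 472) (nat_lit 935) (nat_lit 1769) (nat_lit 1) (.cons
 (nat_lit 1848) (nat_lit 565) (nat_lit 1349) (nat_lit 1) .nil)), (nat_lit 46), (nat_lit 35), (nat_lit 40),
 (nat_lit 1), (12, 8, 0), [798, 373], 23⟩,
  ⟨⟨-5, -12, -4, 12, -5, -6, 0, 0, -13⟩, (.cons (nat_lit 391) (nat_lit 1594) (nat_lit 1459) (nat_lit 1) (.cons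
 (nat_lit 474) (nat_lit 1112) (nat_lit 962) (nat_lit 1) .nil)), (nat_lit 1), (nat_lit 12), (nat_lit 40),
 (nat_lit 1), (1, 8, 0), [829, 1577], 23⟩,
  ⟨⟨5, 12, -9, 12, -5, -6, 0, 0, -13⟩, (.cons (nat_lit 472) (nat_lit 935) (nat_lit 1769) (nat_lit 1) (.cons
 (nat_lit 1848) (nat_lit 565) (nat_lit 1349) (nat_lit 1) .nil)), (nat_lit 46), (nat_lit 35), (nat_lit 40),
 (nat_lit 1), (12, 8, 0), [798, 373], 23⟩,
  ⟨⟨5, 12, -9, -12, 5, 6, 0, 0, -13⟩, (.cons (nat_lit 344) (nat_lit 106) (nat_lit 1760) (nat_lit 1) (.cons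
 (nat_lit 1248) (nat_lit 1798) (nat_lit 1469) (nat_lit 1) .nil)), (nat_lit 1), (nat_lit 20), (nat_lit 4),
 (nat_lit 1), (12, 5, 0), [1668, 893], 40⟩,
  ⟨⟨5, 12, -9, 12, -5, -6, 0, 0, -13⟩, (.cons (nat_lit 472) (nat_lit 935) (nat_lit 1769) (nat_lit 1) (.cons
 (nat_lit 1848) (nat_lit 565) (nat_lit 1349) (nat_lit 1) .nil)), (nat_lit 46), (nat_lit 35), (nat_lit 40),
 (nat_lit 1), (12, 8, 0), [798, 373], 23⟩]

/-- Moves. -/
noncomputable def t0_5 : List Mv := [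
  ⟨⟨9, 8, -13, 10, -7, 0, 2, -4, -13⟩, (.cons (nat_lit 174) (nat_lit 316) (nat_lit 1278) (nat_lit 1) (.cons
 (nat_lit 454) (nat_lit 1034) (nat_lit 1840) (nat_lit 1) .nil)), (nat_lit 7), (nat_lit 27), (nat_lit 4),
 (nat_lit 1), (2, 8, 12), [574, 1148], 3⟩,
  ⟨⟨9, 8, -13, -10, 7, 0, 2, -4, -13⟩, (.cons (nat_lit 1016) (nat_lit 1868) (nat_lit 945) (nat_lit 1) (.cons
 (nat_lit 216) (nat_lit 922) (nat_lit 141) (nat_lit 1) .nil)), (nat_lit 1), (nat_lit 12), (nat_lit 2), (nat_lit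
 1), (2, 5, 12), [53, 930], 17⟩,
  ⟨⟨9, 8, -13, -10, 7, 0, 2, -4, -13⟩, (.cons (nat_lit 1016) (nat_lit 1868) (nat_lit 945) (nat_lit 1) (.cons
 (nat_lit 216) (nat_lit 922) (nat_lit 141) (nat_lit 1) .nil)), (nat_lit 1), (nat_lit 12), (nat_lit 2), (nat_lit
 1), (2, 5, 12), [53, 930], 17⟩,
  ⟨⟨9, 8, -13, -10, 7, 0, 2, -4, -13⟩, (.cons (nat_lit 1016) (nat_lit 1868) (nat_lit 945) (nat_lit 1) (.cons
 (nat_lit 216) (nat_lit 922) (nat_lit 141) (nat_lit 1) .nil)), (nat_lit 1), (nat_lit 12), (nat_lit 2), (nat_lit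
 1), (2, 5, 12), [53, 930], 17⟩,
  ⟨⟨-7, -12, 0, 10, -7, 0, 2, -4, -13⟩, (.cons (nat_lit 666) (nat_lit 1192) (nat_lit 2190) (nat_lit 1) (.cons
 (nat_lit 62) (nat_lit 1030) (nat_lit 292) (nat_lit 1) .nil)), (nat_lit 40), (nat_lit 20), (nat_lit 4),
 (nat_lit 1), (10, 8, 12), [1975, 288], 3⟩,
  ⟨⟨9, 8, -13, 10, -7, 0, 2, -4, -13⟩, (.cons (nat_lit 174) (nat_lit 316) (nat_lit 1278) (nat_lit 1) (.cons
 (nat_lit 454) (nat_lit 1034) (nat_lit 1840) (nat_lit 1) .nil)), (nat_lit 7), (nat_lit 27), (nat_lit 4),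
 (nat_lit 1), (2, 8, 12), [574, 1148], 3⟩,
  ⟨⟨9, 8, -13, 10, -7, 0, 2, -4, -13⟩, (.cons (nat_lit 174) (nat_lit 316) (nat_lit 1278) (nat_lit 1) (.cons
 (nat_lit 454) (nat_lit 1034) (nat_lit 1840) (nat_lit 1) .nil)), (nat_lit 7), (nat_lit 27), (nat_lit 4),
 (nat_lit 1), (2, 8, 12), [574, 1148], 3⟩,
  ⟨⟨9, 8, -13, -10, 7, 0, 2, -4, -13⟩, (.cons (nat_lit 1016) (nat_lit 1868) (nat_lit 945) (nat_lit 1) (.cons
 (nat_lit 216) (nat_lit 922) (nat_lit 141) (nat_lit 1) .nil)), (nat_lit 1), (nat_lit 12), (nat_lit 2), (nat_lit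
 1), (2, 5, 12), [53, 930], 17⟩,
  ⟨⟨-7, -12, 0, 10, -7, 0, 2, -4, -13⟩, (.cons (nat_lit 666) (nat_lit 1192) (nat_lit 2190) (nat_lit 1) (.cons
 (nat_lit 62) (nat_lit 1030) (nat_lit 292) (nat_lit 1) .nil)), (nat_lit 40), (nat_lit 20), (nat_lit 4),
 (nat_lit 1), (10, 8, 12), [1975, 288], 3⟩,
  ⟨⟨-7, -12, 0, -10, 7, 0, 2, -4, -13⟩, (.cons (nat_lit 1329) (nat_lit 1668) (nat_lit 2026) (nat_lit 1) (.cons
 (nat_lit 1848) (nat_lit 927) (nat_lit 55) (nat_lit 1) .nil)), (nat_lit 46), (nat_lit 35), (nat_lit 2),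
 (nat_lit 1), (10, 5, 12), [947, 973], 17⟩,
  ⟨⟨9, 8, -13, -10, 7, 0, 2, -4, -13⟩, (.cons (nat_lit 1016) (nat_lit 1868) (nat_lit 945) (nat_lit 1) (.cons
 (nat_lit 216) (nat_lit 922) (nat_lit 141) (nat_lit 1) .nil)), (nat_lit 1), (nat_lit 12), (nat_lit 2), (nat_lit
 1), (2, 5, 12), [53, 930], 17⟩,
  ⟨⟨9, 8, -13, -10, 7, 0, 2, -4, -13⟩, (.cons (nat_lit 1016) (nat_lit 1868) (nat_lit 945) (nat_lit 1) (.cons
 (nat_lit 216) (nat_lit 922) (nat_lit 141) (nat_lit 1) .nil)), (nat_lit 1), (nat_lit 12), (nat_lit 2), (nat_lit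
 1), (2, 5, 12), [53, 930], 17⟩,
  ⟨⟨9, 8, -13, -10, 7, 0, 2, -4, -13⟩, (.cons (nat_lit 1016) (nat_lit 1868) (nat_lit 945) (nat_lit 1) (.cons
 (nat_lit 216) (nat_lit 922) (nat_lit 141) (nat_lit 1) .nil)), (nat_lit 1), (nat_lit 12), (nat_lit 2), (nat_lit
 1), (2, 5, 12), [53, 930], 17⟩]

/-- Moves. -/
noncomputable def t1_2 : List Mv := [
  mz,
  ⟨⟨3, 44, -20, 2, 15, 44, 36, 12, -25⟩, (.cons (nat_lit 1034) (nat_lit 821) (nat_lit 1565) (nat_lit 1) (.cons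
 (nat_lit 1146) (nat_lit 1615) (nat_lit 185) (nat_lit 1) .nil)), (nat_lit 8), (nat_lit 19), (nat_lit 38),
 (nat_lit 1), (36, 24, 2), [1483, 60], 36⟩,
  mz,
  mz,
  ⟨⟨19, 36, -36, -20, -13, -30, 34, -8, -35⟩, (.cons (nat_lit 1567) (nat_lit 2024) (nat_lit 1800) (nat_lit 1)
 (.cons (nat_lit 749) (nat_lit 1193) (nat_lit 216) (nat_lit 1) .nil)), (nat_lit 45), (nat_lit 38), (nat_lit
 33), (nat_lit 1), (14, 26, 16), [1241, 1777], 5⟩,
  ⟨⟨33, -32, -28, 2, 15, -46, 36, 12, -11⟩, (.cons (nat_lit 489) (nat_lit 113) (nat_lit 1696) (nat_lit 1)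
 (.cons (nat_lit 667) (nat_lit 738) (nat_lit 1461) (nat_lit 1) .nil)), (nat_lit 14), (nat_lit 27), (nat_lit
 24), (nat_lit 1), (19, 22, 9), [1337, 416], 45⟩,
  ⟨⟨-37, -24, 0, -20, 37, 0, 2, -8, -43⟩, (.cons (nat_lit 2196) (nat_lit 626) (nat_lit 1725) (nat_lit 1) (.cons
 (nat_lit 1390) (nat_lit 1579) (nat_lit 547) (nat_lit 1) .nil)), (nat_lit 46), (nat_lit 24), (nat_lit 23),
 (nat_lit 1), (12, 3, 4), [2, 1160], 3⟩,
  ⟨⟨33, 8, -53, -20, -27, -20, 30, -24, -13⟩, (.cons (nat_lit 1823) (nat_lit 1226) (nat_lit 2040) (nat_lit 1)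
 (.cons (nat_lit 1484) (nat_lit 81) (nat_lit 949) (nat_lit 1) .nil)), (nat_lit 1), (nat_lit 45), (nat_lit 36),
 (nat_lit 1), (32, 21, 33), [76, 1425], 10⟩,
  ⟨⟨-39, -16, -4, 20, -37, -20, -2, 8, -41⟩, (.cons (nat_lit 1176) (nat_lit 1614) (nat_lit 1610) (nat_lit 1)
 (.cons (nat_lit 962) (nat_lit 777) (nat_lit 1488) (nat_lit 1) .nil)), (nat_lit 19), (nat_lit 45), (nat_lit 9),
 (nat_lit 1), (6, 30, 40), [2157, 1438], 7⟩,
  ⟨⟨47, 0, -20, 0, 43, 0, 18, 0, -47⟩, (.cons (nat_lit 2196) (nat_lit 830) (nat_lit 276) (nat_lit 1) (.cons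
 (nat_lit 59) (nat_lit 15) (nat_lit 1244) (nat_lit 1) .nil)), (nat_lit 46), (nat_lit 9), (nat_lit 30), (nat_lit
 1), (34, 0, 24), [1332, 111], 44⟩,
  ⟨⟨21, -20, 31, 38, 15, -34, 12, -36, -13⟩, (.cons (nat_lit 1051) (nat_lit 2009) (nat_lit 149) (nat_lit 1)
 (.cons (nat_lit 1841) (nat_lit 1697) (nat_lit 681) (nat_lit 1) .nil)), (nat_lit 39), (nat_lit 2), (nat_lit
 15), (nat_lit 1), (8, 37, 23), [384, 40], 36⟩,
  mz,
  ⟨⟨-15, 44, 16, 20, 13, -50, -34, 8, -1⟩, (.cons (nat_lit 1889) (nat_lit 2036) (nat_lit 1262) (nat_lit 1)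
 (.cons (nat_lit 1138) (nat_lit 1770) (nat_lit 1523) (nat_lit 1) .nil)), (nat_lit 18), (nat_lit 20), (nat_lit
 2), (nat_lit 1), (28, 20, 9), [1492, 1270], 41⟩,
  ⟨⟨33, 8, 20, 20, 27, -40, 30, -24, -17⟩, (.cons (nat_lit 2196) (nat_lit 411) (nat_lit 959) (nat_lit 1) (.cons
 (nat_lit 290) (nat_lit 1037) (nat_lit 879) (nat_lit 1) .nil)), (nat_lit 46), (nat_lit 8), (nat_lit 9),
 (nat_lit 1), (4, 35, 31), [792, 1525], 37⟩,
  mz,
  mz,
  mz,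
  ⟨⟨5, 36, 31, 40, -13, -10, 14, 32, -25⟩, (.cons (nat_lit 2073) (nat_lit 1468) (nat_lit 505) (nat_lit 1)
 (.cons (nat_lit 976) (nat_lit 381) (nat_lit 965) (nat_lit 1) .nil)), (nat_lit 2), (nat_lit 24), (nat_lit 30),
 (nat_lit 1), (1, 8, 20), [2109, 1262], 5⟩,
  ⟨⟨-5, -36, 36, 40, -13, -30, -14, -32, -11⟩, (.cons (nat_lit 1510) (nat_lit 1984) (nat_lit 1886) (nat_lit 1)
 (.cons (nat_lit 1809) (nat_lit 208) (nat_lit 807) (nat_lit 1) .nil)), (nat_lit 23), (nat_lit 19), (nat_lit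
 40), (nat_lit 1), (11, 41, 5), [2117, 1486], 13⟩,
  mz,
  mz,
  ⟨⟨-9, 16, -44, 38, -15, -34, 12, 36, -13⟩, (.cons (nat_lit 629) (nat_lit 1424) (nat_lit 958) (nat_lit 1)
 (.cons (nat_lit 1483) (nat_lit 1715) (nat_lit 1148) (nat_lit 1) .nil)), (nat_lit 37), (nat_lit 35), (nat_lit
 5), (nat_lit 1), (1, 34, 13), [1870, 1], 12⟩,
  ⟨⟨-21, 20, 52, 38, 15, -4, -12, 36, -1⟩, (.cons (nat_lit 1107) (nat_lit 711) (nat_lit 978) (nat_lit 1) (.cons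
 (nat_lit 59) (nat_lit 1353) (nat_lit 1392) (nat_lit 1) .nil)), (nat_lit 6), (nat_lit 27), (nat_lit 7),
 (nat_lit 1), (12, 9, 13), [43, 814], 27⟩,
  mz,
  mz,
  ⟨⟨5, -36, 31, 40, 13, -10, 14, -32, -25⟩, (.cons (nat_lit 118) (nat_lit 1658) (nat_lit 148) (nat_lit 1)
 (.cons (nat_lit 517) (nat_lit 1690) (nat_lit 283) (nat_lit 1) .nil)), (nat_lit 13), (nat_lit 22), (nat_lit
 26), (nat_lit 1), (11, 2, 5), [838, 711], 20⟩,
  ⟨⟨-5, 36, 36, 40, 13, -30, -14, 32, -11⟩, (.cons (nat_lit 1135) (nat_lit 1713) (nat_lit 292) (nat_lit 1)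
 (.cons (nat_lit 1289) (nat_lit 967) (nat_lit 677) (nat_lit 1) .nil)), (nat_lit 18), (nat_lit 37), (nat_lit
 43), (nat_lit 1), (1, 35, 20), [673, 1176], 41⟩,
  mz,
  mz,
  mz,
  ⟨⟨33, -8, -53, 20, -27, 20, 30, 24, -13⟩, (.cons (nat_lit 705) (nat_lit 1446) (nat_lit 562) (nat_lit 1)
 (.cons (nat_lit 1578) (nat_lit 1332) (nat_lit 1289) (nat_lit 1) .nil)), (nat_lit 1), (nat_lit 8), (nat_lit
 38), (nat_lit 1), (39, 8, 12), [1194, 1347], 10⟩,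
  ⟨⟨15, 44, 1, -20, 13, -30, 34, 8, -35⟩, (.cons (nat_lit 391) (nat_lit 2034) (nat_lit 1451) (nat_lit 1) (.cons
 (nat_lit 1547) (nat_lit 1757) (nat_lit 184) (nat_lit 1) .nil)), (nat_lit 29), (nat_lit 20), (nat_lit 45),
 (nat_lit 1), (28, 20, 9), [617, 15], 41⟩,
  mz,
  ⟨⟨-21, -20, 52, 38, -15, -4, -12, -36, -1⟩, (.cons (nat_lit 1945) (nat_lit 255) (nat_lit 1180) (nat_lit 1)
 (.cons (nat_lit 269) (nat_lit 445) (nat_lit 1731) (nat_lit 1) .nil)), (nat_lit 14), (nat_lit 21), (nat_lit 4),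
 (nat_lit 1), (8, 6, 23), [418, 842], 2⟩,
  ⟨⟨29, 0, -56, 0, -43, 0, -18, 0, -29⟩, (.cons (nat_lit 2196) (nat_lit 1920) (nat_lit 154) (nat_lit 1) (.cons
 (nat_lit 1216) (nat_lit 1436) (nat_lit 744) (nat_lit 1) .nil)), (nat_lit 46), (nat_lit 11), (nat_lit 21),
 (nat_lit 1), (33, 0, 24), [1953, 1554], 35⟩,
  ⟨⟨39, -16, -43, 20, 37, 0, 2, 8, -43⟩, (.cons (nat_lit 147) (nat_lit 1567) (nat_lit 196) (nat_lit 1) (.cons
 (nat_lit 1824) (nat_lit 1292) (nat_lit 400) (nat_lit 1) .nil)), (nat_lit 1), (nat_lit 26), (nat_lit 33),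
 (nat_lit 1), (6, 13, 40), [779, 954], 3⟩,
  ⟨⟨33, -8, 20, -20, 27, 40, 30, 24, -17⟩, (.cons (nat_lit 494) (nat_lit 745) (nat_lit 1) (nat_lit 1703) (.cons
 (nat_lit 1571) (nat_lit 503) (nat_lit 353) (nat_lit 1) .nil)), (nat_lit 46), (nat_lit 45), (nat_lit 11),
 (nat_lit 1), (11, 22, 10), [1953, 333], 37⟩,
  ⟨⟨-39, 16, -4, 20, 37, -20, -2, -8, -41⟩, (.cons (nat_lit 2196) (nat_lit 1283) (nat_lit 304) (nat_lit 1)
 (.cons (nat_lit 1716) (nat_lit 1629) (nat_lit 1047) (nat_lit 1) .nil)), (nat_lit 46), (nat_lit 23), (nat_lit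
 24), (nat_lit 1), (35, 3, 4), [479, 931], 3⟩,
  ⟨⟨33, 32, -5, -2, 15, -44, 36, -12, -25⟩, (.cons (nat_lit 370) (nat_lit 1453) (nat_lit 1992) (nat_lit 1)
 (.cons (nat_lit 1601) (nat_lit 967) (nat_lit 1) (nat_lit 1763) .nil)), (nat_lit 41), (nat_lit 12), (nat_lit
 43), (nat_lit 1), (24, 22, 34), [1981, 1827], 27⟩,
  ⟨⟨-15, -44, 16, 20, -13, -50, -34, -8, -1⟩, (.cons (nat_lit 1596) (nat_lit 1383) (nat_lit 721) (nat_lit 1)
 (.cons (nat_lit 752) (nat_lit 324) (nat_lit 608) (nat_lit 1) .nil)), (nat_lit 45), (nat_lit 9), (nat_lit 14),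
 (nat_lit 1), (2, 26, 16), [2173, 246], 5⟩,
  mz,
  mz,
  ⟨⟨33, 32, -28, 2, -15, -46, 36, -12, -11⟩, (.cons (nat_lit 450) (nat_lit 1897) (nat_lit 1964) (nat_lit 1)
 (.cons (nat_lit 610) (nat_lit 1464) (nat_lit 758) (nat_lit 1) .nil)), (nat_lit 8), (nat_lit 28), (nat_lit 9),
 (nat_lit 1), (34, 19, 41), [627, 1551], 11⟩]

/-- Moves. -/
noncomputable def t1_4 : List Mv := [
  mz,
  ⟨⟨3, 44, -20, -2, -15, -44, 36, 12, -25⟩, (.cons (nat_lit 1578) (nat_lit 1858) (nat_lit 1016) (nat_lit 1)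
 (.cons (nat_lit 189) (nat_lit 471) (nat_lit 983) (nat_lit 1) .nil)), (nat_lit 37), (nat_lit 22), (nat_lit 40),
 (nat_lit 1), (36, 19, 2), [2195, 554], 12⟩,
  mz,
  mz,
  ⟨⟨19, 36, -36, -20, -13, -30, 34, -8, -35⟩, (.cons (nat_lit 1567) (nat_lit 2024) (nat_lit 1800) (nat_lit 1)
 (.cons (nat_lit 749) (nat_lit 1193) (nat_lit 216) (nat_lit 1) .nil)), (nat_lit 45), (nat_lit 38), (nat_lit
 33), (nat_lit 1), (14, 26, 16), [1241, 1777], 5⟩,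
  ⟨⟨3, 44, 17, -2, -15, 46, 36, 12, -11⟩, (.cons (nat_lit 1510) (nat_lit 243) (nat_lit 609) (nat_lit 1) (.cons
 (nat_lit 761) (nat_lit 1690) (nat_lit 685) (nat_lit 1) .nil)), (nat_lit 41), (nat_lit 35), (nat_lit 4),
 (nat_lit 1), (33, 21, 9), [288, 585], 20⟩,
  ⟨⟨-37, -24, 0, -20, 37, 0, 2, -8, -43⟩, (.cons (nat_lit 2196) (nat_lit 626) (nat_lit 1725) (nat_lit 1) (.cons
 (nat_lit 1390) (nat_lit 1579) (nat_lit 547) (nat_lit 1) .nil)), (nat_lit 46), (nat_lit 24), (nat_lit 23),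
 (nat_lit 1), (12, 3, 4), [2, 1160], 3⟩,
  ⟨⟨33, 8, -53, 20, 27, 20, 30, -24, -13⟩, (.cons (nat_lit 1471) (nat_lit 568) (nat_lit 36) (nat_lit 1) (.cons
 (nat_lit 347) (nat_lit 818) (nat_lit 460) (nat_lit 1) .nil)), (nat_lit 43), (nat_lit 26), (nat_lit 23),
 (nat_lit 1), (32, 22, 33), [1273, 1263], 11⟩,
  ⟨⟨-39, -16, -4, 20, -37, -20, -2, 8, -41⟩, (.cons (nat_lit 1176) (nat_lit 1614) (nat_lit 1610) (nat_lit 1)
 (.cons (nat_lit 962) (nat_lit 777) (nat_lit 1488) (nat_lit 1) .nil)), (nat_lit 19), (nat_lit 45), (nat_lit 9),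
 (nat_lit 1), (6, 30, 40), [2157, 1438], 7⟩,
  ⟨⟨-29, 0, -27, 0, -43, 0, 18, 0, -47⟩, (.cons (nat_lit 1185) (nat_lit 512) (nat_lit 1827) (nat_lit 1) (.cons
 (nat_lit 988) (nat_lit 244) (nat_lit 1529) (nat_lit 1) .nil)), (nat_lit 1), (nat_lit 11), (nat_lit 26),
 (nat_lit 1), (33, 0, 24), [132, 439], 35⟩,
  ⟨⟨21, -20, 31, 38, 15, -34, 12, -36, -13⟩, (.cons (nat_lit 1051) (nat_lit 2009) (nat_lit 149) (nat_lit 1)
 (.cons (nat_lit 1841) (nat_lit 1697) (nat_lit 681) (nat_lit 1) .nil)), (nat_lit 39), (nat_lit 2), (nat_lit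
 15), (nat_lit 1), (8, 37, 23), [384, 40], 36⟩,
  mz,
  ⟨⟨-19, -36, -17, 20, 13, -50, -34, 8, -1⟩, (.cons (nat_lit 1437) (nat_lit 883) (nat_lit 801) (nat_lit 1)
 (.cons (nat_lit 754) (nat_lit 1541) (nat_lit 147) (nat_lit 1) .nil)), (nat_lit 29), (nat_lit 27), (nat_lit 2),
 (nat_lit 1), (24, 20, 9), [2020, 195], 41⟩,
  ⟨⟨33, 8, 20, 20, 27, -40, 30, -24, -17⟩, (.cons (nat_lit 2196) (nat_lit 411) (nat_lit 959) (nat_lit 1) (.cons
 (nat_lit 290) (nat_lit 1037) (nat_lit 879) (nat_lit 1) .nil)), (nat_lit 46), (nat_lit 8), (nat_lit 9),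
 (nat_lit 1), (4, 35, 31), [792, 1525], 37⟩,
  mz,
  mz,
  mz,
  ⟨⟨9, -4, -56, 40, -13, -10, 14, 32, -25⟩, (.cons (nat_lit 345) (nat_lit 1542) (nat_lit 1752) (nat_lit 1)
 (.cons (nat_lit 658) (nat_lit 1296) (nat_lit 148) (nat_lit 1) .nil)), (nat_lit 45), (nat_lit 23), (nat_lit
 30), (nat_lit 1), (19, 8, 20), [84, 703], 5⟩,
  ⟨⟨-9, 4, -47, -40, 13, 30, -14, -32, -11⟩, (.cons (nat_lit 847) (nat_lit 1276) (nat_lit 426) (nat_lit 1)
 (.cons (nat_lit 1592) (nat_lit 1062) (nat_lit 1523) (nat_lit 1) .nil)), (nat_lit 13), (nat_lit 25), (nat_lit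
 21), (nat_lit 1), (37, 2, 5), [813, 1657], 20⟩,
  mz,
  mz,
  ⟨⟨21, 20, 31, 38, -15, -34, 12, 36, -13⟩, (.cons (nat_lit 790) (nat_lit 479) (nat_lit 66) (nat_lit 1) (.cons
 (nat_lit 581) (nat_lit 1424) (nat_lit 1449) (nat_lit 1) .nil)), (nat_lit 10), (nat_lit 12), (nat_lit 5),
 (nat_lit 1), (12, 34, 13), [1556, 689], 12⟩,
  ⟨⟨-21, 20, 52, 38, 15, -4, -12, 36, -1⟩, (.cons (nat_lit 1107) (nat_lit 711) (nat_lit 978) (nat_lit 1) (.cons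
 (nat_lit 59) (nat_lit 1353) (nat_lit 1392) (nat_lit 1) .nil)), (nat_lit 6), (nat_lit 27), (nat_lit 7),
 (nat_lit 1), (12, 9, 13), [43, 814], 27⟩,
  mz,
  mz,
  ⟨⟨9, 4, -56, 40, 13, -10, 14, -32, -25⟩, (.cons (nat_lit 2090) (nat_lit 349) (nat_lit 1017) (nat_lit 1)
 (.cons (nat_lit 1461) (nat_lit 632) (nat_lit 1659) (nat_lit 1) .nil)), (nat_lit 34), (nat_lit 25), (nat_lit
 26), (nat_lit 1), (37, 2, 5), [233, 1356], 20⟩,
  ⟨⟨-5, 36, 36, 40, 13, -30, -14, 32, -11⟩, (.cons (nat_lit 1135) (nat_lit 1713) (nat_lit 292) (nat_lit 1)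
 (.cons (nat_lit 1289) (nat_lit 967) (nat_lit 677) (nat_lit 1) .nil)), (nat_lit 18), (nat_lit 37), (nat_lit
 43), (nat_lit 1), (1, 35, 20), [673, 1176], 41⟩,
  mz,
  mz,
  mz,
  ⟨⟨33, -8, -53, -20, 27, -20, 30, 24, -13⟩, (.cons (nat_lit 1739) (nat_lit 221) (nat_lit 481) (nat_lit 1)
 (.cons (nat_lit 210) (nat_lit 822) (nat_lit 830) (nat_lit 1) .nil)), (nat_lit 35), (nat_lit 17), (nat_lit 6),
 (nat_lit 1), (39, 35, 12), [1093, 231], 33⟩,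
  ⟨⟨15, 44, 1, 20, -13, 30, 34, 8, -35⟩, (.cons (nat_lit 1506) (nat_lit 1571) (nat_lit 1829) (nat_lit 1) (.cons
 (nat_lit 1515) (nat_lit 1556) (nat_lit 466) (nat_lit 1) .nil)), (nat_lit 24), (nat_lit 35), (nat_lit 32),
 (nat_lit 1), (28, 23, 9), [1494, 1227], 13⟩,
  mz,
  ⟨⟨-21, -20, 52, -38, 15, 4, -12, -36, -1⟩, (.cons (nat_lit 2010) (nat_lit 1297) (nat_lit 217) (nat_lit 1)
 (.cons (nat_lit 1229) (nat_lit 1562) (nat_lit 81) (nat_lit 1) .nil)), (nat_lit 8), (nat_lit 2), (nat_lit 32),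
 (nat_lit 1), (8, 37, 23), [1713, 439], 36⟩,
  ⟨⟨-47, 0, 27, 0, -43, 0, -18, 0, -29⟩, (.cons (nat_lit 254) (nat_lit 1772) (nat_lit 1706) (nat_lit 1) (.cons
 (nat_lit 203) (nat_lit 1746) (nat_lit 787) (nat_lit 1) .nil)), (nat_lit 1), (nat_lit 36), (nat_lit 21),
 (nat_lit 1), (34, 0, 24), [540, 92], 35⟩,
  ⟨⟨39, -16, -43, 20, 37, 0, 2, 8, -43⟩, (.cons (nat_lit 147) (nat_lit 1567) (nat_lit 196) (nat_lit 1) (.cons
 (nat_lit 1824) (nat_lit 1292) (nat_lit 400) (nat_lit 1) .nil)), (nat_lit 1), (nat_lit 26), (nat_lit 33),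
 (nat_lit 1), (6, 13, 40), [779, 954], 3⟩,
  ⟨⟨33, -8, 20, 20, -27, -40, 30, 24, -17⟩, (.cons (nat_lit 256) (nat_lit 820) (nat_lit 744) (nat_lit 1) (.cons
 (nat_lit 1783) (nat_lit 953) (nat_lit 845) (nat_lit 1) .nil)), (nat_lit 4), (nat_lit 26), (nat_lit 24),
 (nat_lit 1), (11, 21, 10), [960, 813], 36⟩,
  ⟨⟨-39, 16, -4, -20, -37, 20, -2, -8, -41⟩, (.cons (nat_lit 1545) (nat_lit 2162) (nat_lit 1751) (nat_lit 1)
 (.cons (nat_lit 144) (nat_lit 388) (nat_lit 964) (nat_lit 1) .nil)), (nat_lit 5), (nat_lit 10), (nat_lit 2),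
 (nat_lit 1), (35, 40, 4), [620, 390], 34⟩,
  ⟨⟨3, -44, -20, -2, 15, -44, 36, -12, -25⟩, (.cons (nat_lit 2150) (nat_lit 1640) (nat_lit 1411) (nat_lit 1)
 (.cons (nat_lit 1151) (nat_lit 538) (nat_lit 1) (nat_lit 989) .nil)), (nat_lit 6), (nat_lit 35), (nat_lit 43),
 (nat_lit 1), (10, 22, 34), [783, 666], 27⟩,
  ⟨⟨-15, -44, 16, -20, 13, 50, -34, -8, -1⟩, (.cons (nat_lit 531) (nat_lit 280) (nat_lit 2159) (nat_lit 1)
 (.cons (nat_lit 1399) (nat_lit 570) (nat_lit 358) (nat_lit 1) .nil)), (nat_lit 34), (nat_lit 36), (nat_lit 5),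
 (nat_lit 1), (2, 17, 16), [1407, 729], 20⟩,
  mz,
  mz,
  ⟨⟨33, 32, -28, 2, -15, -46, 36, -12, -11⟩, (.cons (nat_lit 450) (nat_lit 1897) (nat_lit 1964) (nat_lit 1)
 (.cons (nat_lit 610) (nat_lit 1464) (nat_lit 758) (nat_lit 1) .nil)), (nat_lit 8), (nat_lit 28), (nat_lit 9),
 (nat_lit 1), (34, 19, 41), [627, 1551], 11⟩]

/-- Moves. -/
noncomputable def t1_5 : List Mv := [
  mz,
  ⟨⟨3, 44, -20, -2, -15, -44, 36, 12, -25⟩, (.cons (nat_lit 1578) (nat_lit 1858) (nat_lit 1016) (nat_lit 1)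
 (.cons (nat_lit 189) (nat_lit 471) (nat_lit 983) (nat_lit 1) .nil)), (nat_lit 37), (nat_lit 22), (nat_lit 40),
 (nat_lit 1), (36, 19, 2), [2195, 554], 12⟩,
  mz,
  mz,
  ⟨⟨19, 36, -36, -20, -13, -30, 34, -8, -35⟩, (.cons (nat_lit 1567) (nat_lit 2024) (nat_lit 1800) (nat_lit 1)
 (.cons (nat_lit 749) (nat_lit 1193) (nat_lit 216) (nat_lit 1) .nil)), (nat_lit 45), (nat_lit 38), (nat_lit
 33), (nat_lit 1), (14, 26, 16), [1241, 1777], 5⟩,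
  ⟨⟨33, -32, -28, 2, 15, -46, 36, 12, -11⟩, (.cons (nat_lit 489) (nat_lit 113) (nat_lit 1696) (nat_lit 1)
 (.cons (nat_lit 667) (nat_lit 738) (nat_lit 1461) (nat_lit 1) .nil)), (nat_lit 14), (nat_lit 27), (nat_lit
 24), (nat_lit 1), (19, 22, 9), [1337, 416], 45⟩,
  ⟨⟨-37, -24, 0, 20, -37, 0, 2, -8, -43⟩, (.cons (nat_lit 1337) (nat_lit 285) (nat_lit 575) (nat_lit 1) (.cons
 (nat_lit 1242) (nat_lit 735) (nat_lit 952) (nat_lit 1) .nil)), (nat_lit 5), (nat_lit 37), (nat_lit 45),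
 (nat_lit 1), (12, 40, 4), [477, 1405], 34⟩,
  ⟨⟨33, 8, -53, -20, -27, -20, 30, -24, -13⟩, (.cons (nat_lit 1823) (nat_lit 1226) (nat_lit 2040) (nat_lit 1)
 (.cons (nat_lit 1484) (nat_lit 81) (nat_lit 949) (nat_lit 1) .nil)), (nat_lit 1), (nat_lit 45), (nat_lit 36),
 (nat_lit 1), (32, 21, 33), [76, 1425], 10⟩,
  ⟨⟨37, 24, -37, -20, 37, 20, -2, 8, -41⟩, (.cons (nat_lit 1375) (nat_lit 632) (nat_lit 731) (nat_lit 1) (.cons
 (nat_lit 1749) (nat_lit 532) (nat_lit 679) (nat_lit 1) .nil)), (nat_lit 1), (nat_lit 21), (nat_lit 14),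
 (nat_lit 1), (34, 13, 40), [576, 773], 3⟩,
  ⟨⟨47, 0, -20, 0, 43, 0, 18, 0, -47⟩, (.cons (nat_lit 2196) (nat_lit 830) (nat_lit 276) (nat_lit 1) (.cons
 (nat_lit 59) (nat_lit 15) (nat_lit 1244) (nat_lit 1) .nil)), (nat_lit 46), (nat_lit 9), (nat_lit 30), (nat_lit
 1), (34, 0, 24), [1332, 111], 44⟩,
  ⟨⟨21, -20, 31, 38, 15, -34, 12, -36, -13⟩, (.cons (nat_lit 1051) (nat_lit 2009) (nat_lit 149) (nat_lit 1)
 (.cons (nat_lit 1841) (nat_lit 1697) (nat_lit 681) (nat_lit 1) .nil)), (nat_lit 39), (nat_lit 2), (nat_lit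
 15), (nat_lit 1), (8, 37, 23), [384, 40], 36⟩,
  mz,
  ⟨⟨-15, 44, 16, -20, -13, 50, -34, 8, -1⟩, (.cons (nat_lit 1159) (nat_lit 1180) (nat_lit 1657) (nat_lit 1)
 (.cons (nat_lit 1529) (nat_lit 1492) (nat_lit 1299) (nat_lit 1) .nil)), (nat_lit 23), (nat_lit 35), (nat_lit
 15), (nat_lit 1), (28, 23, 9), [2078, 676], 13⟩,
  ⟨⟨-3, -32, -37, 20, 27, -40, 30, -24, -17⟩, (.cons (nat_lit 2063) (nat_lit 428) (nat_lit 610) (nat_lit 1)
 (.cons (nat_lit 699) (nat_lit 253) (nat_lit 1352) (nat_lit 1) .nil)), (nat_lit 1), (nat_lit 39), (nat_lit 9),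
 (nat_lit 1), (27, 35, 31), [1059, 708], 37⟩,
  mz,
  mz,
  mz,
  ⟨⟨9, -4, -56, -40, 13, 10, 14, 32, -25⟩, (.cons (nat_lit 331) (nat_lit 1791) (nat_lit 1593) (nat_lit 1)
 (.cons (nat_lit 536) (nat_lit 1540) (nat_lit 1500) (nat_lit 1) .nil)), (nat_lit 18), (nat_lit 10), (nat_lit
 4), (nat_lit 1), (19, 35, 20), [2019, 1786], 41⟩,
  ⟨⟨-5, -36, 36, 40, -13, -30, -14, -32, -11⟩, (.cons (nat_lit 1510) (nat_lit 1984) (nat_lit 1886) (nat_lit 1)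
 (.cons (nat_lit 1809) (nat_lit 208) (nat_lit 807) (nat_lit 1) .nil)), (nat_lit 23), (nat_lit 19), (nat_lit
 40), (nat_lit 1), (11, 41, 5), [2117, 1486], 13⟩,
  mz,
  mz,
  ⟨⟨-9, 16, -44, -38, 15, 34, 12, 36, -13⟩, (.cons (nat_lit 83) (nat_lit 733) (nat_lit 1763) (nat_lit 1) (.cons
 (nat_lit 1363) (nat_lit 775) (nat_lit 271) (nat_lit 1) .nil)), (nat_lit 6), (nat_lit 20), (nat_lit 40),
 (nat_lit 1), (1, 9, 13), [2096, 275], 27⟩,
  ⟨⟨-21, 20, 52, 38, 15, -4, -12, 36, -1⟩, (.cons (nat_lit 1107) (nat_lit 711) (nat_lit 978) (nat_lit 1) (.cons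
 (nat_lit 59) (nat_lit 1353) (nat_lit 1392) (nat_lit 1) .nil)), (nat_lit 6), (nat_lit 27), (nat_lit 7),
 (nat_lit 1), (12, 9, 13), [43, 814], 27⟩,
  mz,
  mz,
  ⟨⟨9, 4, -56, 40, 13, -10, 14, -32, -25⟩, (.cons (nat_lit 2090) (nat_lit 349) (nat_lit 1017) (nat_lit 1)
 (.cons (nat_lit 1461) (nat_lit 632) (nat_lit 1659) (nat_lit 1) .nil)), (nat_lit 34), (nat_lit 25), (nat_lit
 26), (nat_lit 1), (37, 2, 5), [233, 1356], 20⟩,
  ⟨⟨-9, -4, -47, 40, 13, -30, -14, 32, -11⟩, (.cons (nat_lit 1873) (nat_lit 1315) (nat_lit 1350) (nat_lit 1)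
 (.cons (nat_lit 517) (nat_lit 839) (nat_lit 1709) (nat_lit 1) .nil)), (nat_lit 29), (nat_lit 10), (nat_lit
 43), (nat_lit 1), (19, 35, 20), [1735, 359], 41⟩,
  mz,
  mz,
  mz,
  ⟨⟨-3, 32, 40, 20, -27, 20, 30, 24, -13⟩, (.cons (nat_lit 1456) (nat_lit 480) (nat_lit 1) (nat_lit 741) (.cons
 (nat_lit 486) (nat_lit 1635) (nat_lit 1805) (nat_lit 1) .nil)), (nat_lit 46), (nat_lit 39), (nat_lit 38),
 (nat_lit 1), (16, 8, 12), [2006, 315], 10⟩,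
  ⟨⟨15, 44, 1, 20, -13, 30, 34, 8, -35⟩, (.cons (nat_lit 1506) (nat_lit 1571) (nat_lit 1829) (nat_lit 1) (.cons
 (nat_lit 1515) (nat_lit 1556) (nat_lit 466) (nat_lit 1) .nil)), (nat_lit 24), (nat_lit 35), (nat_lit 32),
 (nat_lit 1), (28, 23, 9), [1494, 1227], 13⟩,
  mz,
  ⟨⟨-21, -20, 52, 38, -15, -4, -12, -36, -1⟩, (.cons (nat_lit 1945) (nat_lit 255) (nat_lit 1180) (nat_lit 1)
 (.cons (nat_lit 269) (nat_lit 445) (nat_lit 1731) (nat_lit 1) .nil)), (nat_lit 14), (nat_lit 21), (nat_lit 4),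
 (nat_lit 1), (8, 6, 23), [418, 842], 2⟩,
  ⟨⟨-47, 0, 27, 0, -43, 0, -18, 0, -29⟩, (.cons (nat_lit 254) (nat_lit 1772) (nat_lit 1706) (nat_lit 1) (.cons
 (nat_lit 203) (nat_lit 1746) (nat_lit 787) (nat_lit 1) .nil)), (nat_lit 1), (nat_lit 36), (nat_lit 21),
 (nat_lit 1), (34, 0, 24), [540, 92], 35⟩,
  ⟨⟨-37, 24, 0, -20, -37, 0, 2, 8, -43⟩, (.cons (nat_lit 1566) (nat_lit 1878) (nat_lit 320) (nat_lit 1) (.cons
 (nat_lit 1602) (nat_lit 1529) (nat_lit 740) (nat_lit 1) .nil)), (nat_lit 19), (nat_lit 2), (nat_lit 38),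
 (nat_lit 1), (34, 30, 40), [935, 119], 7⟩,
  ⟨⟨-3, 32, -37, -20, 27, 40, 30, 24, -17⟩, (.cons (nat_lit 1075) (nat_lit 250) (nat_lit 1803) (nat_lit 1)
 (.cons (nat_lit 1353) (nat_lit 1819) (nat_lit 740) (nat_lit 1) .nil)), (nat_lit 1), (nat_lit 2), (nat_lit 11),
 (nat_lit 1), (42, 22, 10), [1969, 1365], 37⟩,
  ⟨⟨-39, 16, -4, 20, 37, -20, -2, -8, -41⟩, (.cons (nat_lit 2196) (nat_lit 1283) (nat_lit 304) (nat_lit 1)
 (.cons (nat_lit 1716) (nat_lit 1629) (nat_lit 1047) (nat_lit 1) .nil)), (nat_lit 46), (nat_lit 23), (nat_lit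
 24), (nat_lit 1), (35, 3, 4), [479, 931], 3⟩,
  ⟨⟨3, -44, -20, -2, 15, -44, 36, -12, -25⟩, (.cons (nat_lit 2150) (nat_lit 1640) (nat_lit 1411) (nat_lit 1)
 (.cons (nat_lit 1151) (nat_lit 538) (nat_lit 1) (nat_lit 989) .nil)), (nat_lit 6), (nat_lit 35), (nat_lit 43),
 (nat_lit 1), (10, 22, 34), [783, 666], 27⟩,
  ⟨⟨-19, 36, -17, -20, 13, 50, -34, -8, -1⟩, (.cons (nat_lit 495) (nat_lit 1584) (nat_lit 1835) (nat_lit 1)
 (.cons (nat_lit 1482) (nat_lit 1408) (nat_lit 960) (nat_lit 1) .nil)), (nat_lit 13), (nat_lit 11), (nat_lit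
 5), (nat_lit 1), (14, 17, 16), [1072, 428], 20⟩,
  mz,
  mz,
  ⟨⟨33, 32, -28, 2, -15, -46, 36, -12, -11⟩, (.cons (nat_lit 450) (nat_lit 1897) (nat_lit 1964) (nat_lit 1)
 (.cons (nat_lit 610) (nat_lit 1464) (nat_lit 758) (nat_lit 1) .nil)), (nat_lit 8), (nat_lit 28), (nat_lit 9),
 (nat_lit 1), (34, 19, 41), [627, 1551], 11⟩]

/-- Moves. -/
noncomputable def t4_2 : List Mv := [
  mz,
  ⟨⟨-25, 12, -36, 22, -35, -36, 20, 28, -37⟩, (.cons (nat_lit 1930) (nat_lit 361) (nat_lit 848) (nat_lit 1)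
 (.cons (nat_lit 834) (nat_lit 1628) (nat_lit 1475) (nat_lit 1) .nil)), (nat_lit 2), (nat_lit 0), (nat_lit 0),
 (nat_lit 0), (2, 2, 36), [1427, 1469], 0⟩,
  ⟨⟨21, -32, -49, 2, 35, -36, -28, -20, -13⟩, (.cons (nat_lit 1531) (nat_lit 513) (nat_lit 828) (nat_lit 1)
 (.cons (nat_lit 369) (nat_lit 781) (nat_lit 1627) (nat_lit 1) .nil)), (nat_lit 5), (nat_lit 0), (nat_lit 0),
 (nat_lit 0), (33, 30, 3), [313, 736], 0⟩,
  ⟨⟨-51, 4, 19, -2, -45, -14, -12, 12, -37⟩, (.cons (nat_lit 1947) (nat_lit 712) (nat_lit 1) (nat_lit 1521)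
 (.cons (nat_lit 785) (nat_lit 170) (nat_lit 52) (nat_lit 1) .nil)), (nat_lit 33), (nat_lit 0), (nat_lit 0),
 (nat_lit 0), (7, 27, 21), [1861, 1389], 0⟩,
  mz,
  ⟨⟨25, -12, -61, 22, -35, 14, -20, -28, -17⟩, (.cons (nat_lit 554) (nat_lit 1026) (nat_lit 378) (nat_lit 1)
 (.cons (nat_lit 1553) (nat_lit 282) (nat_lit 1167) (nat_lit 1) .nil)), (nat_lit 21), (nat_lit 0), (nat_lit 0),
 (nat_lit 0), (9, 38, 21), [267, 347], 0⟩,
  mz,
  mz,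
  mz,
  ⟨⟨27, 32, -47, -40, 17, 0, 10, -16, -47⟩, (.cons (nat_lit 1941) (nat_lit 1820) (nat_lit 900) (nat_lit 1)
 (.cons (nat_lit 130) (nat_lit 282) (nat_lit 400) (nat_lit 1) .nil)), (nat_lit 38), (nat_lit 0), (nat_lit 0),
 (nat_lit 0), (43, 39, 2), [1970, 1803], 0⟩,
  mz,
  ⟨⟨-27, -32, -20, -40, 17, 40, -10, 16, -37⟩, (.cons (nat_lit 2196) (nat_lit 177) (nat_lit 1655) (nat_lit 1)
 (.cons (nat_lit 1848) (nat_lit 623) (nat_lit 1140) (nat_lit 1) .nil)), (nat_lit 11), (nat_lit 0), (nat_lit 0),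
 (nat_lit 0), (46, 2, 24), [607, 1459], 0⟩,
  ⟨⟨17, -36, -45, 20, -23, 30, 38, 8, -37⟩, (.cons (nat_lit 912) (nat_lit 1284) (nat_lit 621) (nat_lit 1)
 (.cons (nat_lit 290) (nat_lit 1670) (nat_lit 796) (nat_lit 1) .nil)), (nat_lit 16), (nat_lit 0), (nat_lit 0),
 (nat_lit 0), (19, 3, 1), [758, 1492], 0⟩,
  mz,
  ⟨⟨-51, -4, 19, -2, 45, -14, -12, -12, -37⟩, (.cons (nat_lit 860) (nat_lit 1504) (nat_lit 693) (nat_lit 1)
 (.cons (nat_lit 259) (nat_lit 1812) (nat_lit 322) (nat_lit 1) .nil)), (nat_lit 33), (nat_lit 0), (nat_lit 0),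
 (nat_lit 0), (25, 36, 28), [599, 790], 0⟩,
  ⟨⟨9, 4, -61, 40, 23, -10, 22, -32, -29⟩, (.cons (nat_lit 255) (nat_lit 979) (nat_lit 1162) (nat_lit 1) (.cons
 (nat_lit 1181) (nat_lit 475) (nat_lit 443) (nat_lit 1) .nil)), (nat_lit 35), (nat_lit 0), (nat_lit 0),
 (nat_lit 0), (18, 33, 44), [86, 363], 0⟩,
  ⟨⟨-13, 36, 45, 40, 23, -30, -22, 32, -7⟩, (.cons (nat_lit 343) (nat_lit 2012) (nat_lit 674) (nat_lit 1)
 (.cons (nat_lit 1533) (nat_lit 444) (nat_lit 37) (nat_lit 1) .nil)), (nat_lit 27), (nat_lit 0), (nat_lit 0),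
 (nat_lit 0), (5, 28, 41), [1773, 706], 0⟩,
  mz,
  ⟨⟨23, 0, 40, 0, -47, 0, 42, 0, -23⟩, (.cons (nat_lit 2196) (nat_lit 2065) (nat_lit 1589) (nat_lit 1) (.cons
 (nat_lit 1848) (nat_lit 434) (nat_lit 1351) (nat_lit 1) .nil)), (nat_lit 18), (nat_lit 0), (nat_lit 0),
 (nat_lit 0), (7, 0, 23), [170, 1600], 0⟩,
  ⟨⟨45, -8, -49, 20, 33, 20, 6, 24, -41⟩, (.cons (nat_lit 1511) (nat_lit 2042) (nat_lit 193) (nat_lit 1) (.cons
 (nat_lit 345) (nat_lit 268) (nat_lit 1695) (nat_lit 1) .nil)), (nat_lit 28), (nat_lit 0), (nat_lit 0),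
 (nat_lit 0), (29, 39, 7), [1559, 243], 0⟩,
  ⟨⟨17, -36, 28, 20, -23, -50, 38, 8, -1⟩, (.cons (nat_lit 1894) (nat_lit 1828) (nat_lit 374) (nat_lit 1)
 (.cons (nat_lit 109) (nat_lit 709) (nat_lit 310) (nat_lit 1) .nil)), (nat_lit 16), (nat_lit 0), (nat_lit 0),
 (nat_lit 0), (2, 30, 10), [1876, 1658], 0⟩,
  ⟨⟨21, 32, -49, -2, 35, 36, -28, 20, -13⟩, (.cons (nat_lit 408) (nat_lit 1918) (nat_lit 360) (nat_lit 1)
 (.cons (nat_lit 1708) (nat_lit 96) (nat_lit 1625) (nat_lit 1) .nil)), (nat_lit 46), (nat_lit 0), (nat_lit 0),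
 (nat_lit 0), (30, 24, 7), [1270, 1795], 0⟩,
  ⟨⟨-39, -32, 8, -20, 33, -20, 6, -24, -41⟩, (.cons (nat_lit 2196) (nat_lit 980) (nat_lit 231) (nat_lit 1)
 (.cons (nat_lit 1848) (nat_lit 1122) (nat_lit 1073) (nat_lit 1) .nil)), (nat_lit 22), (nat_lit 0), (nat_lit
 0), (nat_lit 0), (28, 24, 21), [164, 1318], 0⟩,
  mz,
  mz,
  ⟨⟨-45, 8, -4, 20, 33, -40, -6, -24, -35⟩, (.cons (nat_lit 2196) (nat_lit 722) (nat_lit 1352) (nat_lit 1)
 (.cons (nat_lit 1848) (nat_lit 340) (nat_lit 862) (nat_lit 1) .nil)), (nat_lit 25), (nat_lit 0), (nat_lit 0),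
 (nat_lit 0), (40, 24, 21), [1136, 243], 0⟩,
  ⟨⟨-21, 32, -28, -2, -35, -34, 28, 20, -41⟩, (.cons (nat_lit 331) (nat_lit 1434) (nat_lit 430) (nat_lit 1)
 (.cons (nat_lit 1092) (nat_lit 1010) (nat_lit 199) (nat_lit 1) .nil)), (nat_lit 5), (nat_lit 0), (nat_lit 0),
 (nat_lit 0), (30, 23, 7), [335, 437], 0⟩,
  ⟨⟨17, 36, -45, 20, 23, 30, 38, -8, -37⟩, (.cons (nat_lit 1217) (nat_lit 1051) (nat_lit 1420) (nat_lit 1)
 (.cons (nat_lit 708) (nat_lit 1827) (nat_lit 1539) (nat_lit 1) .nil)), (nat_lit 16), (nat_lit 0), (nat_lit 0),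
 (nat_lit 0), (45, 17, 37), [2153, 1180], 0⟩,
  ⟨⟨39, 32, -31, -20, 33, 40, -6, 24, -35⟩, (.cons (nat_lit 490) (nat_lit 1252) (nat_lit 2098) (nat_lit 1)
 (.cons (nat_lit 1506) (nat_lit 1323) (nat_lit 799) (nat_lit 1) .nil)), (nat_lit 19), (nat_lit 0), (nat_lit 0),
 (nat_lit 0), (25, 39, 7), [2025, 1318], 0⟩,
  ⟨⟨19, 0, 44, 0, -47, 0, 42, 0, -19⟩, (.cons (nat_lit 2196) (nat_lit 594) (nat_lit 895) (nat_lit 1) (.cons
 (nat_lit 1848) (nat_lit 55) (nat_lit 1645) (nat_lit 1) .nil)), (nat_lit 29), (nat_lit 0), (nat_lit 0),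
 (nat_lit 0), (31, 0, 24), [2021, 328], 0⟩,
  mz,
  ⟨⟨9, -4, -61, 40, -23, -10, 22, 32, -29⟩, (.cons (nat_lit 1361) (nat_lit 1890) (nat_lit 2195) (nat_lit 1)
 (.cons (nat_lit 1415) (nat_lit 372) (nat_lit 729) (nat_lit 1) .nil)), (nat_lit 35), (nat_lit 0), (nat_lit 0),
 (nat_lit 0), (36, 19, 41), [43, 738], 0⟩,
  ⟨⟨-9, 4, -52, 40, -23, -30, -22, -32, -7⟩, (.cons (nat_lit 1031) (nat_lit 285) (nat_lit 2062) (nat_lit 1)
 (.cons (nat_lit 226) (nat_lit 1137) (nat_lit 420) (nat_lit 1) .nil)), (nat_lit 20), (nat_lit 0), (nat_lit 0),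
 (nat_lit 0), (18, 14, 44), [317, 159], 0⟩,
  ⟨⟨-39, -8, -17, -2, -45, 16, 12, -12, -49⟩, (.cons (nat_lit 1690) (nat_lit 38) (nat_lit 1907) (nat_lit 1)
 (.cons (nat_lit 391) (nat_lit 94) (nat_lit 7) (nat_lit 1) .nil)), (nat_lit 3), (nat_lit 0), (nat_lit 0),
 (nat_lit 0), (3, 11, 28), [214, 1455], 0⟩,
  mz,
  ⟨⟨17, 36, 28, 20, 23, -50, 38, -8, -1⟩, (.cons (nat_lit 1424) (nat_lit 1177) (nat_lit 2083) (nat_lit 1)
 (.cons (nat_lit 484) (nat_lit 1197) (nat_lit 1569) (nat_lit 1) .nil)), (nat_lit 16), (nat_lit 0), (nat_lit 0),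
 (nat_lit 0), (28, 44, 46), [203, 400], 0⟩,
  ⟨⟨27, -32, -47, -40, -17, 0, 10, 16, -47⟩, (.cons (nat_lit 1349) (nat_lit 1127) (nat_lit 2064) (nat_lit 1)
 (.cons (nat_lit 1543) (nat_lit 397) (nat_lit 1718) (nat_lit 1) .nil)), (nat_lit 38), (nat_lit 0), (nat_lit 0),
 (nat_lit 0), (46, 45, 24), [985, 361], 0⟩,
  mz,
  ⟨⟨17, -48, -17, -40, -17, 40, -10, -16, -37⟩, (.cons (nat_lit 1070) (nat_lit 263) (nat_lit 1702) (nat_lit 1)
 (.cons (nat_lit 1565) (nat_lit 1808) (nat_lit 1625) (nat_lit 1) .nil)), (nat_lit 36), (nat_lit 0), (nat_lit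
 0), (nat_lit 0), (6, 8, 2), [2006, 613], 0⟩,
  mz,
  mz,
  mz,
  ⟨⟨45, -16, -1, -22, -35, 36, 20, -28, -37⟩, (.cons (nat_lit 1177) (nat_lit 2056) (nat_lit 1318) (nat_lit 1)
 (.cons (nat_lit 1209) (nat_lit 965) (nat_lit 381) (nat_lit 1) .nil)), (nat_lit 26), (nat_lit 0), (nat_lit 0),
 (nat_lit 0), (12, 38, 21), [1705, 3], 0⟩,
  mz,
  ⟨⟨-39, 8, -17, -2, 45, 16, 12, 12, -49⟩, (.cons (nat_lit 956) (nat_lit 1462) (nat_lit 242) (nat_lit 1) (.cons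
 (nat_lit 1162) (nat_lit 19) (nat_lit 1274) (nat_lit 1) .nil)), (nat_lit 3), (nat_lit 0), (nat_lit 0), (nat_lit
 0), (14, 20, 21), [1297, 446], 0⟩,
  ⟨⟨-21, -32, -28, -2, 35, -34, 28, -20, -41⟩, (.cons (nat_lit 1603) (nat_lit 1286) (nat_lit 1969) (nat_lit 1)
 (.cons (nat_lit 663) (nat_lit 394) (nat_lit 1039) (nat_lit 1) .nil)), (nat_lit 5), (nat_lit 0), (nat_lit 0),
 (nat_lit 0), (33, 30, 3), [1835, 220], 0⟩,
  ⟨⟨-45, 16, 44, -22, -35, -14, -20, 28, -17⟩, (.cons (nat_lit 2030) (nat_lit 113) (nat_lit 1571) (nat_lit 1)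
 (.cons (nat_lit 533) (nat_lit 221) (nat_lit 374) (nat_lit 1) .nil)), (nat_lit 45), (nat_lit 0), (nat_lit 0),
 (nat_lit 0), (34, 2, 36), [633, 824], 0⟩]

/-- Moves. -/
noncomputable def t4_4 : List Mv := [
  mz,
  ⟨⟨45, 16, -1, 22, -35, -36, 20, 28, -37⟩, (.cons (nat_lit 1916) (nat_lit 808) (nat_lit 2178) (nat_lit 1)
 (.cons (nat_lit 241) (nat_lit 49) (nat_lit 615) (nat_lit 1) .nil)), (nat_lit 45), (nat_lit 0), (nat_lit 0),
 (nat_lit 0), (34, 2, 36), [903, 222], 0⟩,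
  ⟨⟨21, -32, -49, 2, 35, -36, -28, -20, -13⟩, (.cons (nat_lit 1531) (nat_lit 513) (nat_lit 828) (nat_lit 1)
 (.cons (nat_lit 369) (nat_lit 781) (nat_lit 1627) (nat_lit 1) .nil)), (nat_lit 5), (nat_lit 0), (nat_lit 0),
 (nat_lit 0), (33, 30, 3), [313, 736], 0⟩,
  ⟨⟨39, 8, -56, -2, -45, -14, -12, 12, -37⟩, (.cons (nat_lit 1174) (nat_lit 1836) (nat_lit 1172) (nat_lit 1)
 (.cons (nat_lit 118) (nat_lit 45) (nat_lit 568) (nat_lit 1) .nil)), (nat_lit 14), (nat_lit 0), (nat_lit 0),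
 (nat_lit 0), (14, 27, 21), [530, 529], 0⟩,
  mz,
  ⟨⟨-45, -16, 44, -22, 35, -14, -20, -28, -17⟩, (.cons (nat_lit 270) (nat_lit 2103) (nat_lit 44) (nat_lit 1)
 (.cons (nat_lit 700) (nat_lit 1550) (nat_lit 1206) (nat_lit 1) .nil)), (nat_lit 45), (nat_lit 0), (nat_lit 0),
 (nat_lit 0), (12, 9, 21), [564, 1451], 0⟩,
  mz,
  mz,
  mz,
  ⟨⟨27, 32, -47, -40, 17, 0, 10, -16, -47⟩, (.cons (nat_lit 1941) (nat_lit 1820) (nat_lit 900) (nat_lit 1)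
 (.cons (nat_lit 130) (nat_lit 282) (nat_lit 400) (nat_lit 1) .nil)), (nat_lit 38), (nat_lit 0), (nat_lit 0),
 (nat_lit 0), (43, 39, 2), [1970, 1803], 0⟩,
  mz,
  ⟨⟨17, 48, -17, 40, -17, -40, -10, 16, -37⟩, (.cons (nat_lit 892) (nat_lit 418) (nat_lit 1074) (nat_lit 1)
 (.cons (nat_lit 339) (nat_lit 1409) (nat_lit 776) (nat_lit 1) .nil)), (nat_lit 9), (nat_lit 0), (nat_lit 0),
 (nat_lit 0), (25, 45, 24), [365, 1350], 0⟩,
  ⟨⟨17, -36, -45, -20, 23, -30, 38, 8, -37⟩, (.cons (nat_lit 1996) (nat_lit 1204) (nat_lit 912) (nat_lit 1)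
 (.cons (nat_lit 28) (nat_lit 13) (nat_lit 149) (nat_lit 1) .nil)), (nat_lit 32), (nat_lit 0), (nat_lit 0),
 (nat_lit 0), (19, 44, 1), [812, 878], 0⟩,
  mz,
  ⟨⟨-51, -4, 19, -2, 45, -14, -12, -12, -37⟩, (.cons (nat_lit 860) (nat_lit 1504) (nat_lit 693) (nat_lit 1)
 (.cons (nat_lit 259) (nat_lit 1812) (nat_lit 322) (nat_lit 1) .nil)), (nat_lit 33), (nat_lit 0), (nat_lit 0),
 (nat_lit 0), (25, 36, 28), [599, 790], 0⟩,
  ⟨⟨13, -36, 32, -40, -23, 10, 22, -32, -29⟩, (.cons (nat_lit 1983) (nat_lit 498) (nat_lit 1588) (nat_lit 1)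
 (.cons (nat_lit 613) (nat_lit 239) (nat_lit 139) (nat_lit 1) .nil)), (nat_lit 27), (nat_lit 0), (nat_lit 0),
 (nat_lit 0), (26, 14, 44), [1045, 245], 0⟩,
  ⟨⟨-13, 36, 45, 40, 23, -30, -22, 32, -7⟩, (.cons (nat_lit 343) (nat_lit 2012) (nat_lit 674) (nat_lit 1)
 (.cons (nat_lit 1533) (nat_lit 444) (nat_lit 37) (nat_lit 1) .nil)), (nat_lit 27), (nat_lit 0), (nat_lit 0),
 (nat_lit 0), (5, 28, 41), [1773, 706], 0⟩,
  mz,
  ⟨⟨19, 0, -63, 0, -47, 0, 42, 0, -23⟩, (.cons (nat_lit 668) (nat_lit 1476) (nat_lit 1302) (nat_lit 1) (.cons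
 (nat_lit 861) (nat_lit 1716) (nat_lit 1136) (nat_lit 1) .nil)), (nat_lit 29), (nat_lit 0), (nat_lit 0),
 (nat_lit 0), (16, 0, 23), [839, 1084], 0⟩,
  ⟨⟨-39, 32, 8, -20, -33, -20, 6, 24, -41⟩, (.cons (nat_lit 1723) (nat_lit 2161) (nat_lit 1862) (nat_lit 1)
 (.cons (nat_lit 1127) (nat_lit 1699) (nat_lit 830) (nat_lit 1) .nil)), (nat_lit 22), (nat_lit 0), (nat_lit 0),
 (nat_lit 0), (25, 8, 7), [302, 1237], 0⟩,
  ⟨⟨17, -36, 28, -20, 23, 50, 38, 8, -1⟩, (.cons (nat_lit 179) (nat_lit 1713) (nat_lit 2195) (nat_lit 1) (.cons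
 (nat_lit 90) (nat_lit 1214) (nat_lit 1029) (nat_lit 1) .nil)), (nat_lit 32), (nat_lit 0), (nat_lit 0),
 (nat_lit 0), (2, 17, 10), [1931, 853], 0⟩,
  ⟨⟨-49, -12, 36, -2, 35, 36, -28, 20, -13⟩, (.cons (nat_lit 387) (nat_lit 1688) (nat_lit 1561) (nat_lit 1)
 (.cons (nat_lit 1302) (nat_lit 807) (nat_lit 335) (nat_lit 1) .nil)), (nat_lit 1), (nat_lit 0), (nat_lit 0),
 (nat_lit 0), (24, 24, 7), [2007, 290], 0⟩,
  ⟨⟨-39, -32, 8, 20, -33, 20, 6, -24, -41⟩, (.cons (nat_lit 1562) (nat_lit 1307) (nat_lit 384) (nat_lit 1)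
 (.cons (nat_lit 1744) (nat_lit 891) (nat_lit 247) (nat_lit 1) .nil)), (nat_lit 19), (nat_lit 0), (nat_lit 0),
 (nat_lit 0), (28, 23, 21), [831, 1550], 0⟩,
  mz,
  mz,
  ⟨⟨-45, 8, -4, 20, 33, -40, -6, -24, -35⟩, (.cons (nat_lit 2196) (nat_lit 722) (nat_lit 1352) (nat_lit 1)
 (.cons (nat_lit 1848) (nat_lit 340) (nat_lit 862) (nat_lit 1) .nil)), (nat_lit 25), (nat_lit 0), (nat_lit 0),
 (nat_lit 0), (40, 24, 21), [1136, 243], 0⟩,
  ⟨⟨-21, 32, -28, -2, -35, -34, 28, 20, -41⟩, (.cons (nat_lit 331) (nat_lit 1434) (nat_lit 430) (nat_lit 1)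
 (.cons (nat_lit 1092) (nat_lit 1010) (nat_lit 199) (nat_lit 1) .nil)), (nat_lit 5), (nat_lit 0), (nat_lit 0),
 (nat_lit 0), (30, 23, 7), [335, 437], 0⟩,
  ⟨⟨17, 36, -45, -20, -23, -30, 38, -8, -37⟩, (.cons (nat_lit 1790) (nat_lit 2125) (nat_lit 1762) (nat_lit 1)
 (.cons (nat_lit 211) (nat_lit 1386) (nat_lit 347) (nat_lit 1) .nil)), (nat_lit 32), (nat_lit 0), (nat_lit 0),
 (nat_lit 0), (45, 30, 37), [1603, 1426], 0⟩,
  ⟨⟨39, 32, -31, -20, 33, 40, -6, 24, -35⟩, (.cons (nat_lit 490) (nat_lit 1252) (nat_lit 2098) (nat_lit 1)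
 (.cons (nat_lit 1506) (nat_lit 1323) (nat_lit 799) (nat_lit 1) .nil)), (nat_lit 19), (nat_lit 0), (nat_lit 0),
 (nat_lit 0), (25, 39, 7), [2025, 1318], 0⟩,
  ⟨⟨19, 0, 44, 0, -47, 0, 42, 0, -19⟩, (.cons (nat_lit 2196) (nat_lit 594) (nat_lit 895) (nat_lit 1) (.cons
 (nat_lit 1848) (nat_lit 55) (nat_lit 1645) (nat_lit 1) .nil)), (nat_lit 29), (nat_lit 0), (nat_lit 0),
 (nat_lit 0), (31, 0, 24), [2021, 328], 0⟩,
  mz,
  ⟨⟨9, -4, -61, -40, 23, 10, 22, 32, -29⟩, (.cons (nat_lit 2126) (nat_lit 618) (nat_lit 643) (nat_lit 1) (.cons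
 (nat_lit 845) (nat_lit 1233) (nat_lit 1253) (nat_lit 1) .nil)), (nat_lit 20), (nat_lit 0), (nat_lit 0),
 (nat_lit 0), (36, 28, 41), [1176, 362], 0⟩,
  ⟨⟨-13, -36, 45, -40, 23, 30, -22, -32, -7⟩, (.cons (nat_lit 470) (nat_lit 946) (nat_lit 1972) (nat_lit 1)
 (.cons (nat_lit 1783) (nat_lit 858) (nat_lit 589) (nat_lit 1) .nil)), (nat_lit 12), (nat_lit 0), (nat_lit 0),
 (nat_lit 0), (26, 33, 44), [1129, 836], 0⟩,
  ⟨⟨-39, -8, -17, 2, 45, -16, 12, -12, -49⟩, (.cons (nat_lit 631) (nat_lit 80) (nat_lit 2117) (nat_lit 1)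
 (.cons (nat_lit 1592) (nat_lit 1585) (nat_lit 1398) (nat_lit 1) .nil)), (nat_lit 14), (nat_lit 0), (nat_lit
 0), (nat_lit 0), (3, 36, 28), [907, 1779], 0⟩,
  mz,
  ⟨⟨17, 36, 28, 20, 23, -50, 38, -8, -1⟩, (.cons (nat_lit 1424) (nat_lit 1177) (nat_lit 2083) (nat_lit 1)
 (.cons (nat_lit 484) (nat_lit 1197) (nat_lit 1569) (nat_lit 1) .nil)), (nat_lit 16), (nat_lit 0), (nat_lit 0),
 (nat_lit 0), (28, 44, 46), [203, 400], 0⟩,
  ⟨⟨27, -32, -47, -40, -17, 0, 10, 16, -47⟩, (.cons (nat_lit 1349) (nat_lit 1127) (nat_lit 2064) (nat_lit 1)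
 (.cons (nat_lit 1543) (nat_lit 397) (nat_lit 1718) (nat_lit 1) .nil)), (nat_lit 38), (nat_lit 0), (nat_lit 0),
 (nat_lit 0), (46, 45, 24), [985, 361], 0⟩,
  mz,
  ⟨⟨-27, 32, -20, 40, 17, -40, -10, -16, -37⟩, (.cons (nat_lit 2196) (nat_lit 1041) (nat_lit 1128) (nat_lit 1)
 (.cons (nat_lit 1848) (nat_lit 884) (nat_lit 589) (nat_lit 1) .nil)), (nat_lit 38), (nat_lit 0), (nat_lit 0),
 (nat_lit 0), (43, 39, 2), [1134, 1545], 0⟩,
  mz,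
  mz,
  mz,
  ⟨⟨45, -16, -1, 22, 35, -36, 20, -28, -37⟩, (.cons (nat_lit 1864) (nat_lit 779) (nat_lit 1978) (nat_lit 1)
 (.cons (nat_lit 1321) (nat_lit 1808) (nat_lit 471) (nat_lit 1) .nil)), (nat_lit 45), (nat_lit 0), (nat_lit 0),
 (nat_lit 0), (12, 9, 21), [1075, 1021], 0⟩,
  mz,
  ⟨⟨51, 4, -32, 2, -45, -16, 12, 12, -49⟩, (.cons (nat_lit 1018) (nat_lit 1151) (nat_lit 454) (nat_lit 1)
 (.cons (nat_lit 1623) (nat_lit 643) (nat_lit 1797) (nat_lit 1) .nil)), (nat_lit 33), (nat_lit 0), (nat_lit 0),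
 (nat_lit 0), (7, 27, 21), [1934, 314], 0⟩,
  ⟨⟨49, 12, -13, 2, -35, 34, 28, -20, -41⟩, (.cons (nat_lit 86) (nat_lit 816) (nat_lit 1634) (nat_lit 1) (.cons
 (nat_lit 1381) (nat_lit 744) (nat_lit 1225) (nat_lit 1) .nil)), (nat_lit 1), (nat_lit 0), (nat_lit 0),
 (nat_lit 0), (17, 17, 3), [1905, 175], 0⟩,
  ⟨⟨-45, 16, 44, -22, -35, -14, -20, 28, -17⟩, (.cons (nat_lit 2030) (nat_lit 113) (nat_lit 1571) (nat_lit 1)
 (.cons (nat_lit 533) (nat_lit 221) (nat_lit 374) (nat_lit 1) .nil)), (nat_lit 45), (nat_lit 0), (nat_lit 0),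
 (nat_lit 0), (34, 2, 36), [633, 824], 0⟩]

/-- Moves. -/
noncomputable def t4_5 : List Mv := [
  mz,
  ⟨⟨45, 16, -1, 22, -35, -36, 20, 28, -37⟩, (.cons (nat_lit 1916) (nat_lit 808) (nat_lit 2178) (nat_lit 1)
 (.cons (nat_lit 241) (nat_lit 49) (nat_lit 615) (nat_lit 1) .nil)), (nat_lit 45), (nat_lit 0), (nat_lit 0),
 (nat_lit 0), (34, 2, 36), [903, 222], 0⟩,
  ⟨⟨-49, 12, 36, -2, -35, 36, -28, -20, -13⟩, (.cons (nat_lit 1909) (nat_lit 709) (nat_lit 357) (nat_lit 1)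
 (.cons (nat_lit 1328) (nat_lit 1346) (nat_lit 1140) (nat_lit 1) .nil)), (nat_lit 1), (nat_lit 0), (nat_lit 0),
 (nat_lit 0), (17, 17, 3), [2107, 734], 0⟩,
  ⟨⟨-51, 4, 19, 2, 45, 14, -12, 12, -37⟩, (.cons (nat_lit 1588) (nat_lit 573) (nat_lit 179) (nat_lit 1) (.cons
 (nat_lit 689) (nat_lit 1701) (nat_lit 489) (nat_lit 1) .nil)), (nat_lit 44), (nat_lit 0), (nat_lit 0),
 (nat_lit 0), (7, 20, 21), [1704, 274], 0⟩,
  mz,
  ⟨⟨-45, -16, 44, -22, 35, -14, -20, -28, -17⟩, (.cons (nat_lit 270) (nat_lit 2103) (nat_lit 44) (nat_lit 1)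
 (.cons (nat_lit 700) (nat_lit 1550) (nat_lit 1206) (nat_lit 1) .nil)), (nat_lit 45), (nat_lit 0), (nat_lit 0),
 (nat_lit 0), (12, 9, 21), [564, 1451], 0⟩,
  mz,
  mz,
  mz,
  ⟨⟨-17, -48, 0, 40, -17, 0, 10, -16, -47⟩, (.cons (nat_lit 480) (nat_lit 459) (nat_lit 1) (nat_lit 1196)
 (.cons (nat_lit 757) (nat_lit 1550) (nat_lit 224) (nat_lit 1) .nil)), (nat_lit 36), (nat_lit 0), (nat_lit 0),
 (nat_lit 0), (6, 8, 2), [1397, 527], 0⟩,
  mz,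
  ⟨⟨-27, -32, -20, -40, 17, 40, -10, 16, -37⟩, (.cons (nat_lit 2196) (nat_lit 177) (nat_lit 1655) (nat_lit 1)
 (.cons (nat_lit 1848) (nat_lit 623) (nat_lit 1140) (nat_lit 1) .nil)), (nat_lit 11), (nat_lit 0), (nat_lit 0),
 (nat_lit 0), (46, 2, 24), [607, 1459], 0⟩,
  ⟨⟨21, 44, 8, 20, -23, 30, 38, 8, -37⟩, (.cons (nat_lit 1928) (nat_lit 1302) (nat_lit 2141) (nat_lit 1) (.cons
 (nat_lit 355) (nat_lit 1641) (nat_lit 280) (nat_lit 1) .nil)), (nat_lit 31), (nat_lit 0), (nat_lit 0),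
 (nat_lit 0), (29, 3, 1), [83, 804], 0⟩,
  mz,
  ⟨⟨-51, -4, 19, -2, 45, -14, -12, -12, -37⟩, (.cons (nat_lit 860) (nat_lit 1504) (nat_lit 693) (nat_lit 1)
 (.cons (nat_lit 259) (nat_lit 1812) (nat_lit 322) (nat_lit 1) .nil)), (nat_lit 33), (nat_lit 0), (nat_lit 0),
 (nat_lit 0), (25, 36, 28), [599, 790], 0⟩,
  ⟨⟨9, 4, -61, 40, 23, -10, 22, -32, -29⟩, (.cons (nat_lit 255) (nat_lit 979) (nat_lit 1162) (nat_lit 1) (.cons
 (nat_lit 1181) (nat_lit 475) (nat_lit 443) (nat_lit 1) .nil)), (nat_lit 35), (nat_lit 0), (nat_lit 0),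
 (nat_lit 0), (18, 33, 44), [86, 363], 0⟩,
  ⟨⟨-13, 36, 45, -40, -23, 30, -22, 32, -7⟩, (.cons (nat_lit 1125) (nat_lit 1126) (nat_lit 21) (nat_lit 1)
 (.cons (nat_lit 899) (nat_lit 58) (nat_lit 1808) (nat_lit 1) .nil)), (nat_lit 12), (nat_lit 0), (nat_lit 0),
 (nat_lit 0), (5, 19, 41), [1730, 1297], 0⟩,
  mz,
  ⟨⟨23, 0, 40, 0, -47, 0, 42, 0, -23⟩, (.cons (nat_lit 2196) (nat_lit 2065) (nat_lit 1589) (nat_lit 1) (.cons
 (nat_lit 1848) (nat_lit 434) (nat_lit 1351) (nat_lit 1) .nil)), (nat_lit 18), (nat_lit 0), (nat_lit 0),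
 (nat_lit 0), (7, 0, 23), [170, 1600], 0⟩,
  ⟨⟨-39, 32, 8, -20, -33, -20, 6, 24, -41⟩, (.cons (nat_lit 1723) (nat_lit 2161) (nat_lit 1862) (nat_lit 1)
 (.cons (nat_lit 1127) (nat_lit 1699) (nat_lit 830) (nat_lit 1) .nil)), (nat_lit 22), (nat_lit 0), (nat_lit 0),
 (nat_lit 0), (25, 8, 7), [302, 1237], 0⟩,
  ⟨⟨17, -36, 28, -20, 23, 50, 38, 8, -1⟩, (.cons (nat_lit 179) (nat_lit 1713) (nat_lit 2195) (nat_lit 1) (.cons
 (nat_lit 90) (nat_lit 1214) (nat_lit 1029) (nat_lit 1) .nil)), (nat_lit 32), (nat_lit 0), (nat_lit 0),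
 (nat_lit 0), (2, 17, 10), [1931, 853], 0⟩,
  ⟨⟨21, 32, -49, 2, -35, -36, -28, 20, -13⟩, (.cons (nat_lit 694) (nat_lit 1981) (nat_lit 1308) (nat_lit 1)
 (.cons (nat_lit 456) (nat_lit 838) (nat_lit 360) (nat_lit 1) .nil)), (nat_lit 5), (nat_lit 0), (nat_lit 0),
 (nat_lit 0), (30, 23, 7), [2008, 265], 0⟩,
  ⟨⟨-39, -32, 8, -20, 33, -20, 6, -24, -41⟩, (.cons (nat_lit 2196) (nat_lit 980) (nat_lit 231) (nat_lit 1)
 (.cons (nat_lit 1848) (nat_lit 1122) (nat_lit 1073) (nat_lit 1) .nil)), (nat_lit 22), (nat_lit 0), (nat_lit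
 0), (nat_lit 0), (28, 24, 21), [164, 1318], 0⟩,
  mz,
  mz,
  ⟨⟨-45, 8, -4, 20, 33, -40, -6, -24, -35⟩, (.cons (nat_lit 2196) (nat_lit 722) (nat_lit 1352) (nat_lit 1)
 (.cons (nat_lit 1848) (nat_lit 340) (nat_lit 862) (nat_lit 1) .nil)), (nat_lit 25), (nat_lit 0), (nat_lit 0),
 (nat_lit 0), (40, 24, 21), [1136, 243], 0⟩,
  ⟨⟨49, -12, -13, -2, -35, -34, 28, 20, -41⟩, (.cons (nat_lit 28) (nat_lit 1751) (nat_lit 445) (nat_lit 1)
 (.cons (nat_lit 26) (nat_lit 796) (nat_lit 1188) (nat_lit 1) .nil)), (nat_lit 42), (nat_lit 0), (nat_lit 0),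
 (nat_lit 0), (24, 23, 7), [944, 179], 0⟩,
  ⟨⟨17, 36, -45, 20, 23, 30, 38, -8, -37⟩, (.cons (nat_lit 1217) (nat_lit 1051) (nat_lit 1420) (nat_lit 1)
 (.cons (nat_lit 708) (nat_lit 1827) (nat_lit 1539) (nat_lit 1) .nil)), (nat_lit 16), (nat_lit 0), (nat_lit 0),
 (nat_lit 0), (45, 17, 37), [2153, 1180], 0⟩,
  ⟨⟨-45, -8, -4, 20, -33, -40, -6, 24, -35⟩, (.cons (nat_lit 72) (nat_lit 56) (nat_lit 233) (nat_lit 1) (.cons
 (nat_lit 1213) (nat_lit 1182) (nat_lit 1836) (nat_lit 1) .nil)), (nat_lit 25), (nat_lit 0), (nat_lit 0),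
 (nat_lit 0), (29, 8, 7), [1303, 1065], 0⟩,
  ⟨⟨19, 0, 44, 0, -47, 0, 42, 0, -19⟩, (.cons (nat_lit 2196) (nat_lit 594) (nat_lit 895) (nat_lit 1) (.cons
 (nat_lit 1848) (nat_lit 55) (nat_lit 1645) (nat_lit 1) .nil)), (nat_lit 29), (nat_lit 0), (nat_lit 0),
 (nat_lit 0), (31, 0, 24), [2021, 328], 0⟩,
  mz,
  ⟨⟨13, 36, 32, 40, -23, -10, 22, 32, -29⟩, (.cons (nat_lit 49) (nat_lit 2112) (nat_lit 547) (nat_lit 1) (.cons
 (nat_lit 1724) (nat_lit 1735) (nat_lit 1718) (nat_lit 1) .nil)), (nat_lit 12), (nat_lit 0), (nat_lit 0),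
 (nat_lit 0), (5, 19, 41), [1553, 394], 0⟩,
  ⟨⟨-13, -36, 45, 40, -23, -30, -22, -32, -7⟩, (.cons (nat_lit 1641) (nat_lit 1711) (nat_lit 2007) (nat_lit 1)
 (.cons (nat_lit 333) (nat_lit 712) (nat_lit 936) (nat_lit 1) .nil)), (nat_lit 27), (nat_lit 0), (nat_lit 0),
 (nat_lit 0), (26, 14, 44), [673, 1234], 0⟩,
  ⟨⟨51, -4, -32, 2, 45, -16, 12, -12, -49⟩, (.cons (nat_lit 2196) (nat_lit 1518) (nat_lit 702) (nat_lit 1)
 (.cons (nat_lit 1848) (nat_lit 92) (nat_lit 194) (nat_lit 1) .nil)), (nat_lit 33), (nat_lit 0), (nat_lit 0),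
 (nat_lit 0), (25, 36, 28), [2127, 1306], 0⟩,
  mz,
  ⟨⟨17, 36, 28, 20, 23, -50, 38, -8, -1⟩, (.cons (nat_lit 1424) (nat_lit 1177) (nat_lit 2083) (nat_lit 1)
 (.cons (nat_lit 484) (nat_lit 1197) (nat_lit 1569) (nat_lit 1) .nil)), (nat_lit 16), (nat_lit 0), (nat_lit 0),
 (nat_lit 0), (28, 44, 46), [203, 400], 0⟩,
  ⟨⟨-17, 48, 0, -40, -17, 0, 10, 16, -47⟩, (.cons (nat_lit 1339) (nat_lit 2045) (nat_lit 1158) (nat_lit 1)
 (.cons (nat_lit 1424) (nat_lit 506) (nat_lit 901) (nat_lit 1) .nil)), (nat_lit 9), (nat_lit 0), (nat_lit 0),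
 (nat_lit 0), (25, 45, 24), [1930, 1006], 0⟩,
  mz,
  ⟨⟨17, -48, -17, -40, -17, 40, -10, -16, -37⟩, (.cons (nat_lit 1070) (nat_lit 263) (nat_lit 1702) (nat_lit 1)
 (.cons (nat_lit 1565) (nat_lit 1808) (nat_lit 1625) (nat_lit 1) .nil)), (nat_lit 36), (nat_lit 0), (nat_lit
 0), (nat_lit 0), (6, 8, 2), [2006, 613], 0⟩,
  mz,
  mz,
  mz,
  ⟨⟨45, -16, -1, 22, 35, -36, 20, -28, -37⟩, (.cons (nat_lit 1864) (nat_lit 779) (nat_lit 1978) (nat_lit 1)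
 (.cons (nat_lit 1321) (nat_lit 1808) (nat_lit 471) (nat_lit 1) .nil)), (nat_lit 45), (nat_lit 0), (nat_lit 0),
 (nat_lit 0), (12, 9, 21), [1075, 1021], 0⟩,
  mz,
  ⟨⟨51, 4, -32, 2, -45, -16, 12, 12, -49⟩, (.cons (nat_lit 1018) (nat_lit 1151) (nat_lit 454) (nat_lit 1)
 (.cons (nat_lit 1623) (nat_lit 643) (nat_lit 1797) (nat_lit 1) .nil)), (nat_lit 33), (nat_lit 0), (nat_lit 0),
 (nat_lit 0), (7, 27, 21), [1934, 314], 0⟩,
  ⟨⟨-21, -32, -28, 2, -35, 34, 28, -20, -41⟩, (.cons (nat_lit 592) (nat_lit 1211) (nat_lit 1496) (nat_lit 1)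
 (.cons (nat_lit 1457) (nat_lit 1578) (nat_lit 537) (nat_lit 1) .nil)), (nat_lit 46), (nat_lit 0), (nat_lit 0),
 (nat_lit 0), (33, 17, 3), [1637, 1465], 0⟩,
  ⟨⟨25, 12, -61, 22, 35, 14, -20, 28, -17⟩, (.cons (nat_lit 2127) (nat_lit 243) (nat_lit 1033) (nat_lit 1)
 (.cons (nat_lit 1272) (nat_lit 1771) (nat_lit 182) (nat_lit 1) .nil)), (nat_lit 21), (nat_lit 0), (nat_lit 0),
 (nat_lit 0), (2, 45, 36), [1096, 1510], 0⟩]

/-- All the moves. -/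
noncomputable def tabs : List (List (List Mv)) := [[[], [], t0_2, [], t0_4, t0_5], [[], [], t1_2, [], t1_4, t1_5], [], [], [[], [], t4_2, [], t4_4, t4_5]]

/-- Subtrie. -/
noncomputable def T2 : Tr := (.ev (nat_lit 20) (nat_lit 105589691695620) (.nd (nat_lit 33) (.br (nat_lit 22)
 (.br (nat_lit 9) (.br (nat_lit 6) (.br (nat_lit 4) (.ch (nat_lit 1) (.ev (nat_lit 52) (nat_lit 288205570080)
 (.ev (nat_lit 84) (nat_lit 2048) (.ev (nat_lit 372) (nat_lit 536936448) (.nd (nat_lit 1200) (.br (nat_lit 9)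
 (.br (nat_lit 6) (.ch (nat_lit 1) (.ev (nat_lit 1216) (nat_lit 22058952036362) (.ev (nat_lit 1229) (nat_lit
 524288) .dd))) (.ch (nat_lit 6) (.ev (nat_lit 1216) (nat_lit 4398047035402) (.ev (nat_lit 1616) (nat_lit
 68719476736) (.ev (nat_lit 2260) (nat_lit 17592186044416) (.ev (nat_lit 2269) (nat_lit 4096) .dd)))))) (.br
 (nat_lit 10) (.ch (nat_lit 9) (.ev (nat_lit 1216) (nat_lit 17660905521154) (.ev (nat_lit 2340) (nat_lit 4096)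
 (.ev (nat_lit 2528) (nat_lit 8) (.fin (nat_lit 576477794730984001)))))) (.br (nat_lit 12) (.ch (nat_lit 10)
 (.ev (nat_lit 1216) (nat_lit 22058952032264) (.ev (nat_lit 1908) (nat_lit 524288) (.fin (nat_lit
 576474496213926468))))) (.ch (nat_lit 12) (.ev (nat_lit 1216) (nat_lit 21990232559618) (.ev (nat_lit 1876)
 (nat_lit 524288) (.ev (nat_lit 2356) (nat_lit 8) (.ev (nat_lit 2365) (nat_lit 68719476736) .dd)))))))))))))
 (.br (nat_lit 5) (.ch (nat_lit 4) (.ev (nat_lit 52) (nat_lit 283506444290) (.ev (nat_lit 244) (nat_lit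
 17592186044416) (.ev (nat_lit 372) (nat_lit 68719476736) (.ev (nat_lit 544) (nat_lit 4403283103784) .dd)))))
 (.ch (nat_lit 5) (.ev (nat_lit 52) (nat_lit 22064057092106) (.ev (nat_lit 416) (nat_lit 283637977120) .dd)))))
 (.br (nat_lit 7) (.ch (nat_lit 6) (.ev (nat_lit 52) (nat_lit 17876360630272) (.ev (nat_lit 116) (nat_lit
 68719476736) (.ev (nat_lit 180) (nat_lit 32) (.ev (nat_lit 448) (nat_lit 4402614962186) .dd))))) (.br (nat_lit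
 8) (.ch (nat_lit 7) (.ev (nat_lit 52) (nat_lit 22265110792224) (.ev (nat_lit 116) (nat_lit 536870912) (.ev
 (nat_lit 320) (nat_lit 82047406090) .dd)))) (.ch (nat_lit 8) (.ev (nat_lit 52) (nat_lit 73017331720) (.ev
 (nat_lit 116) (nat_lit 268435456) (.ev (nat_lit 148) (nat_lit 2048) (.ev (nat_lit 180) (nat_lit 2) (.ev
 (nat_lit 212) (nat_lit 32) (.ev (nat_lit 436) (nat_lit 65536) (.ev (nat_lit 468) (nat_lit 4194304) (.nd
 (nat_lit 1200) (.br (nat_lit 5) (.br (nat_lit 2) (.ch (nat_lit 1) (.ev (nat_lit 1216) (nat_lit 22274270822400)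
 (.ev (nat_lit 1229) (nat_lit 134217728) .dd))) (.br (nat_lit 4) (.ch (nat_lit 2) (.ev (nat_lit 1216) (nat_lit
 4406770663424) (.ev (nat_lit 1824) (nat_lit 536870912) (.ev (nat_lit 2480) (nat_lit 17592186044416) (.fin
 (nat_lit 576466799625191986)))))) (.ch (nat_lit 4) (.ev (nat_lit 1216) (nat_lit 4681648570368) (.ev (nat_lit
 1364) (nat_lit 33554432) (.ev (nat_lit 2432) (nat_lit 17592722915328) .dd)))))) (.br (nat_lit 10) (.br
 (nat_lit 9) (.ch (nat_lit 5) (.ev (nat_lit 1216) (nat_lit 22265815105536) (.ev (nat_lit 1229) (nat_lit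
 8589934592) .dd))) (.ch (nat_lit 9) (.ev (nat_lit 1216) (nat_lit 17867768594432) (.ev (nat_lit 2068) (nat_lit
 4398046511104) (.ev (nat_lit 2077) (nat_lit 8589934592) .dd))))) (.br (nat_lit 12) (.ch (nat_lit 10) (.ev
 (nat_lit 1216) (nat_lit 9294577664) (.ev (nat_lit 1744) (nat_lit 4398046511104) (.ev (nat_lit 2144) (nat_lit
 17592186044416) (.ev (nat_lit 2157) (nat_lit 274877906944) .dd))))) (.ch (nat_lit 12) (.ev (nat_lit 1216)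
 (nat_lit 22265278234624) (.ev (nat_lit 1764) (nat_lit 8589934592) (.ev (nat_lit 1773) (nat_lit 536870912)
 .dd))))))))))))))))))) (.br (nat_lit 13) (.br (nat_lit 10) (.ch (nat_lit 9) (.ev (nat_lit 52) (nat_lit
 22067544064002) (.ev (nat_lit 180) (nat_lit 262144) (.ev (nat_lit 308) (nat_lit 4294967296) (.ev (nat_lit 404)
 (nat_lit 274877906944) (.ev (nat_lit 724) (nat_lit 268435456) (.ev (nat_lit 756) (nat_lit 134217728) (.nd
 (nat_lit 1200) (.br (nat_lit 6) (.br (nat_lit 1) (.ch (nat_lit 0) (.ev (nat_lit 1216) (nat_lit 575145992) (.ev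
 (nat_lit 1248) (nat_lit 32) (.ev (nat_lit 1284) (nat_lit 65536) (.ev (nat_lit 1293) (nat_lit 4096) .dd)))))
 (.ch (nat_lit 1) (.ev (nat_lit 1216) (nat_lit 571019296) (.ev (nat_lit 1636) (nat_lit 4194304) (.ev (nat_lit
 1712) (nat_lit 2048) (.ev (nat_lit 1725) (nat_lit 8) .dd)))))) (.br (nat_lit 9) (.ch (nat_lit 6) (.ev (nat_lit
 1216) (nat_lit 38340648) (.ev (nat_lit 1604) (nat_lit 4096) (.ev (nat_lit 1613) (nat_lit 536870912) .dd))))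
 (.br (nat_lit 10) (.ch (nat_lit 9) (.ev (nat_lit 1216) (nat_lit 574623776) (.ev (nat_lit 1264) (nat_lit 2048)
 (.ev (nat_lit 1284) (nat_lit 8) (.ev (nat_lit 1392) (nat_lit 524288) (.ev (nat_lit 1405) (nat_lit 65536)
 .dd)))))) (.ch (nat_lit 10) (.ev (nat_lit 1216) (nat_lit 4720672) (.ev (nat_lit 1540) (nat_lit 4096) (.ev
 (nat_lit 2116) (nat_lit 8) (.ev (nat_lit 2260) (nat_lit 536870912) (.nd (nat_lit 2752) (.br (nat_lit 6) (.ch
 (nat_lit 2) (.fin (nat_lit 576465700104127060))) (.ch (nat_lit 6) (.ev (nat_lit 2768) (nat_lit 33619968)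
 .dd)))))))))))))))))))) (.br (nat_lit 12) (.ch (nat_lit 10) (.ev (nat_lit 52) (nat_lit 17949645869088) (.ev
 (nat_lit 340) (nat_lit 524288) (.ev (nat_lit 672) (nat_lit 4398048675850) .dd)))) (.ch (nat_lit 12) (.ev
 (nat_lit 52) (nat_lit 4471900342312) (.ev (nat_lit 276) (nat_lit 2) (.ev (nat_lit 468) (nat_lit 134217728)
 (.ev (nat_lit 736) (nat_lit 17875660509184) .dd))))))) (.br (nat_lit 18) (.br (nat_lit 17) (.ch (nat_lit 13)
 (.ev (nat_lit 52) (nat_lit 73687635970) (.ev (nat_lit 116) (nat_lit 274877906944) (.ev (nat_lit 276) (nat_lit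
 17592186044416) (.ev (nat_lit 308) (nat_lit 32) (.ev (nat_lit 340) (nat_lit 268435456) (.ev (nat_lit 692)
 (nat_lit 8589934592) (.ev (nat_lit 1072) (nat_lit 33554432) (.nd (nat_lit 1200) (.br (nat_lit 2) (.br (nat_lit
 1) (.ch (nat_lit 0) (.ev (nat_lit 1216) (nat_lit 4398051295240) (.ev (nat_lit 1229) (nat_lit 262144) .dd)))
 (.ch (nat_lit 1) (.ev (nat_lit 1216) (nat_lit 4398046576648) (.ev (nat_lit 2068) (nat_lit 4194304) (.ev
 (nat_lit 2116) (nat_lit 524288) (.ev (nat_lit 2125) (nat_lit 262144) .dd)))))) (.br (nat_lit 5) (.ch (nat_lit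
 2) (.ev (nat_lit 1216) (nat_lit 4398047363080) (.ev (nat_lit 1229) (nat_lit 4194304) .dd))) (.br (nat_lit 9)
 (.ch (nat_lit 5) (.ev (nat_lit 1216) (nat_lit 4398046576640) (.ev (nat_lit 2176) (nat_lit 8) (.ev (nat_lit
 2640) (nat_lit 262144) (.ev (nat_lit 2672) (nat_lit 4194304) (.ev (nat_lit 2685) (nat_lit 524288) .dd))))))
 (.ch (nat_lit 9) (.ev (nat_lit 1216) (nat_lit 4456456) (.ev (nat_lit 1248) (nat_lit 65536) (.fin (nat_lit
 576477794730984001))))))))))))))))) (.ch (nat_lit 17) (.ev (nat_lit 52) (nat_lit 22063924381736) (.ev (nat_lit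
 372) (nat_lit 524288) (.ev (nat_lit 724) (nat_lit 65536) (.nd (nat_lit 1200) (.br (nat_lit 5) (.br (nat_lit 4)
 (.ch (nat_lit 2) (.ev (nat_lit 1216) (nat_lit 268701698) (.ev (nat_lit 2628) (nat_lit 8589934592) (.fin
 (nat_lit 576466799625191986))))) (.ch (nat_lit 4) (.ev (nat_lit 1216) (nat_lit 275179900928) (.ev (nat_lit
 1636) (nat_lit 8589934592) (.ev (nat_lit 1908) (nat_lit 262144) (.ev (nat_lit 1917) (nat_lit 2) .dd)))))) (.br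
 (nat_lit 10) (.ch (nat_lit 5) (.ev (nat_lit 1216) (nat_lit 275179900930) (.ev (nat_lit 2512) (nat_lit 262144)
 (.ev (nat_lit 2525) (nat_lit 8589934592) .dd)))) (.br (nat_lit 12) (.ch (nat_lit 10) (.ev (nat_lit 1216)
 (nat_lit 8858370048) (.ev (nat_lit 1284) (nat_lit 262144) (.ev (nat_lit 1924) (nat_lit 33554432) (.ev (nat_lit
 2068) (nat_lit 274877906944) (.fin (nat_lit 576474496213926468))))))) (.ch (nat_lit 12) (.ev (nat_lit 1216)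
 (nat_lit 274878173184) (.ev (nat_lit 1284) (nat_lit 8589934592) (.ev (nat_lit 1428) (nat_lit 268435456) (.ev
 (nat_lit 1616) (nat_lit 33554434) .dd)))))))))))))) (.br (nat_lit 21) (.ch (nat_lit 18) (.ev (nat_lit 52)
 (nat_lit 4681917267970) (.ev (nat_lit 116) (nat_lit 524288) (.ev (nat_lit 244) (nat_lit 4096) (.ev (nat_lit
 308) (nat_lit 17592219598848) (.ev (nat_lit 372) (nat_lit 8) (.ev (nat_lit 404) (nat_lit 68719476736) (.ev
 (nat_lit 564) (nat_lit 65536) (.nd (nat_lit 1200) (.br (nat_lit 5) (.br (nat_lit 4) (.ch (nat_lit 2) (.ev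
 (nat_lit 1216) (nat_lit 543164448) (.ev (nat_lit 1229) (nat_lit 4294967296) .dd))) (.ch (nat_lit 4) (.ev
 (nat_lit 1216) (nat_lit 4836034592) (.ev (nat_lit 1229) (nat_lit 2097152) .dd)))) (.br (nat_lit 6) (.ch
 (nat_lit 5) (.ev (nat_lit 1216) (nat_lit 543164448) (.ev (nat_lit 1229) (nat_lit 4294967296) .dd))) (.br
 (nat_lit 12) (.ch (nat_lit 6) (.ev (nat_lit 1216) (nat_lit 2099232) (.ev (nat_lit 1440) (nat_lit 536870912)
 (.ev (nat_lit 1604) (nat_lit 4294967296) (.ev (nat_lit 1613) (nat_lit 4194304) .dd))))) (.ch (nat_lit 12) (.ev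
 (nat_lit 1216) (nat_lit 4301258752) (.ev (nat_lit 1284) (nat_lit 2048) (.ev (nat_lit 2260) (nat_lit 536870912)
 (.ev (nat_lit 2269) (nat_lit 32) .dd))))))))))))))))) (.ch (nat_lit 21) (.ev (nat_lit 52) (nat_lit
 17601749915680) (.ev (nat_lit 84) (nat_lit 2097152) (.ev (nat_lit 724) (nat_lit 8) (.nd (nat_lit 1200) (.br
 (nat_lit 4) (.br (nat_lit 1) (.ch (nat_lit 0) (.ev (nat_lit 1216) (nat_lit 347896545282) (.ev (nat_lit 1229)
 (nat_lit 4398046511104) .dd))) (.br (nat_lit 2) (.ch (nat_lit 1) (.ev (nat_lit 1216) (nat_lit 4745943056386)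
 .dd)) (.ch (nat_lit 2) (.ev (nat_lit 1216) (nat_lit 274877906946) (.ev (nat_lit 2656) (nat_lit 4194304) (.ev
 (nat_lit 2688) (nat_lit 4398046511104) (.fin (nat_lit 576464600580964941)))))))) (.br (nat_lit 6) (.br
 (nat_lit 5) (.ch (nat_lit 4) (.ev (nat_lit 1216) (nat_lit 4745943056386) .dd)) (.ch (nat_lit 5) (.ev (nat_lit
 1216) (nat_lit 343597383682) (.ev (nat_lit 1284) (nat_lit 4194304) (.ev (nat_lit 1488) (nat_lit 4294967296)
 (.ev (nat_lit 1501) (nat_lit 4398046511104) .dd)))))) (.br (nat_lit 9) (.ch (nat_lit 6) (.ev (nat_lit 1216)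
 (nat_lit 4402341478402) (.ev (nat_lit 2006) (nat_lit 343601577984) .dd))) (.ch (nat_lit 9) (.ev (nat_lit 1216)
 (nat_lit 4745943056384) (.ev (nat_lit 1229) (nat_lit 2) .dd))))))))))))))) (.br (nat_lit 34) (.br (nat_lit 30)
 (.br (nat_lit 25) (.ch (nat_lit 22) (.ev (nat_lit 52) (nat_lit 4742588465162) (.ev (nat_lit 212) (nat_lit
 2048) (.ev (nat_lit 340) (nat_lit 8589934592) (.ev (nat_lit 640) (nat_lit 17596516667424) .dd))))) (.br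
 (nat_lit 26) (.ch (nat_lit 25) (.ev (nat_lit 52) (nat_lit 284005306402) (.ev (nat_lit 84) (nat_lit 262144)
 (.ev (nat_lit 148) (nat_lit 2097152) (.ev (nat_lit 180) (nat_lit 33554432) (.ev (nat_lit 212) (nat_lit
 17592186044416) (.ev (nat_lit 276) (nat_lit 4294967296) (.ev (nat_lit 468) (nat_lit 268435456) (.ev (nat_lit
 756) (nat_lit 68719476736) (.ev (nat_lit 1104) (nat_lit 4194304) (.nd (nat_lit 1200) (.br (nat_lit 5) (.br
 (nat_lit 1) (.ch (nat_lit 0) (.ev (nat_lit 1216) (nat_lit 4398046513160) (.ev (nat_lit 1229) (nat_lit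
 134217728) .dd))) (.ch (nat_lit 1) (.ev (nat_lit 1216) (nat_lit 4398180730880) (.ev (nat_lit 1229) (nat_lit 8)
 .dd)))) (.br (nat_lit 9) (.ch (nat_lit 5) (.ev (nat_lit 1216) (nat_lit 4398180728832) (.ev (nat_lit 2566)
 (nat_lit 2056) .dd))) (.br (nat_lit 12) (.ch (nat_lit 9) (.ev (nat_lit 1216) (nat_lit 2048) (.ev (nat_lit
 2548) (nat_lit 8) (.nd (nat_lit 2912) (.br (nat_lit 9) (.ch (nat_lit 6) (.ev (nat_lit 2928) (nat_lit
 4398180728832) .dd)) (.ch (nat_lit 9) (.fin (nat_lit 576448107934859836)))))))) (.ch (nat_lit 12) (.ev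
 (nat_lit 1216) (nat_lit 4398046511104) (.ev (nat_lit 1428) (nat_lit 134217728) (.ev (nat_lit 1604) (nat_lit
 2048) (.ev (nat_lit 1613) (nat_lit 8) .dd))))))))))))))))))) (.ch (nat_lit 26) (.ev (nat_lit 52) (nat_lit
 22058985855018) (.ev (nat_lit 352) (nat_lit 288709214208) .dd))))) (.br (nat_lit 31) (.ch (nat_lit 30) (.ev
 (nat_lit 52) (nat_lit 356484646914) (.ev (nat_lit 84) (nat_lit 17592186044416) (.ev (nat_lit 212) (nat_lit
 4398046511104) (.ev (nat_lit 340) (nat_lit 4259840) (.ev (nat_lit 692) (nat_lit 134217728) (.ev (nat_lit 756)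
 (nat_lit 8) (.nd (nat_lit 1200) (.br (nat_lit 5) (.br (nat_lit 4) (.ch (nat_lit 1) (.ev (nat_lit 1216)
 (nat_lit 34082848) (.ev (nat_lit 1888) (nat_lit 536870912) (.ev (nat_lit 1901) (nat_lit 268435456) .dd))))
 (.ch (nat_lit 4) (.ev (nat_lit 1216) (nat_lit 268439584) (.ev (nat_lit 1776) (nat_lit 524288) (.ev (nat_lit
 1812) (nat_lit 536870912) (.ev (nat_lit 1821) (nat_lit 33554432) .dd)))))) (.br (nat_lit 9) (.ch (nat_lit 5)
 (.ev (nat_lit 1216) (nat_lit 570953728) (.ev (nat_lit 1856) (nat_lit 32) (.ev (nat_lit 1869) (nat_lit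
 268435456) .dd)))) (.br (nat_lit 12) (.ch (nat_lit 9) (.ev (nat_lit 1216) (nat_lit 570949664) (.ev (nat_lit
 1248) (nat_lit 4096) (.ev (nat_lit 1261) (nat_lit 268435456) .dd)))) (.ch (nat_lit 12) (.ev (nat_lit 1216)
 (nat_lit 33558528) (.ev (nat_lit 1264) (nat_lit 524288) (.ev (nat_lit 2468) (nat_lit 536870912) (.fin (nat_lit
 576444809390539314))))))))))))))))) (.br (nat_lit 33) (.ch (nat_lit 31) (.ev (nat_lit 52) (nat_lit
 22338398324768) (.ev (nat_lit 308) (nat_lit 4098) (.ev (nat_lit 372) (nat_lit 134217728) (.ev (nat_lit 404)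
 (nat_lit 8) (.ev (nat_lit 1040) (nat_lit 536870912) (.nd (nat_lit 1200) (.br (nat_lit 4) (.br (nat_lit 2) (.ch
 (nat_lit 0) (.ev (nat_lit 1216) (nat_lit 8623554560) (.ev (nat_lit 1229) (nat_lit 2097152) .dd))) (.ch
 (nat_lit 2) (.ev (nat_lit 1216) (nat_lit 8592097280) (.ev (nat_lit 1229) (nat_lit 33554432) .dd)))) (.br
 (nat_lit 5) (.ch (nat_lit 4) (.ev (nat_lit 1216) (nat_lit 65536) (.ev (nat_lit 2340) (nat_lit 35651584) (.ev
 (nat_lit 2349) (nat_lit 8589934592) .dd)))) (.br (nat_lit 10) (.ch (nat_lit 5) (.ev (nat_lit 1216) (nat_lit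
 33619968) (.ev (nat_lit 2512) (nat_lit 8592031744) .dd))) (.ch (nat_lit 10) (.ev (nat_lit 1216) (nat_lit
 8589934592) (.ev (nat_lit 2708) (nat_lit 2097152) (.nd (nat_lit 2880) (.br (nat_lit 8) (.ch (nat_lit 2) (.fin
 (nat_lit 576465700104127060))) (.ch (nat_lit 8) (.ev (nat_lit 2896) (nat_lit 33619968) .dd)))))))))))))))))
 (.ch (nat_lit 33) (.ev (nat_lit 52) (nat_lit 4402916890634) (.ev (nat_lit 384) (nat_lit 17944778178592)
 .dd)))))) (.br (nat_lit 37) (.br (nat_lit 35) (.ch (nat_lit 34) (.ev (nat_lit 52) (nat_lit 279307163688) (.ev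
 (nat_lit 212) (nat_lit 33554432) (.ev (nat_lit 244) (nat_lit 2) (.ev (nat_lit 372) (nat_lit 268435456) (.ev
 (nat_lit 468) (nat_lit 8589934592) (.ev (nat_lit 564) (nat_lit 524288) (.ev (nat_lit 756) (nat_lit 4194304)
 (.nd (nat_lit 1200) (.br (nat_lit 5) (.br (nat_lit 1) (.ch (nat_lit 0) (.ev (nat_lit 1216) (nat_lit
 22059488903168) (.ev (nat_lit 2388) (nat_lit 262144) (.ev (nat_lit 2397) (nat_lit 2097152) .dd)))) (.br
 (nat_lit 4) (.ch (nat_lit 1) (.ev (nat_lit 1216) (nat_lit 22059489165312) (.ev (nat_lit 1229) (nat_lit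
 2097152) .dd))) (.ch (nat_lit 4) (.ev (nat_lit 1216) (nat_lit 21990769426432) (.ev (nat_lit 1908) (nat_lit
 2097152) (.ev (nat_lit 2068) (nat_lit 68719476736) (.ev (nat_lit 2077) (nat_lit 262144) .dd))))))) (.br
 (nat_lit 9) (.br (nat_lit 6) (.ch (nat_lit 5) (.ev (nat_lit 1216) (nat_lit 22059491262464) .dd)) (.ch (nat_lit
 6) (.ev (nat_lit 1216) (nat_lit 68721836032) (.ev (nat_lit 1764) (nat_lit 4398046511104) (.ev (nat_lit 2228)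
 (nat_lit 17592186044416) (.ev (nat_lit 2237) (nat_lit 536870912) .dd)))))) (.br (nat_lit 10) (.ch (nat_lit 9)
 (.ev (nat_lit 1216) (nat_lit 4467305218048) (.ev (nat_lit 1229) (nat_lit 17592186044416) .dd))) (.ch (nat_lit
 10) (.ev (nat_lit 1216) (nat_lit 4466768347136) (.ev (nat_lit 1636) (nat_lit 536870912) (.ev (nat_lit 1645)
 (nat_lit 17592186044416) .dd)))))))))))))))) (.br (nat_lit 36) (.ch (nat_lit 35) (.ev (nat_lit 52) (nat_lit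
 17601717606400) (.ev (nat_lit 116) (nat_lit 8) (.ev (nat_lit 148) (nat_lit 33554432) (.ev (nat_lit 276)
 (nat_lit 32) (.ev (nat_lit 308) (nat_lit 4398046511104) (.ev (nat_lit 340) (nat_lit 274877906944) (.ev
 (nat_lit 372) (nat_lit 4194304) (.ev (nat_lit 468) (nat_lit 524288) (.ev (nat_lit 1056) (nat_lit 2) (.nd
 (nat_lit 1200) (.br (nat_lit 4) (.br (nat_lit 2) (.ch (nat_lit 0) (.ev (nat_lit 1216) (nat_lit 68719542272)
 (.ev (nat_lit 1508) (nat_lit 262144) (.ev (nat_lit 1517) (nat_lit 4294967296) .dd)))) (.ch (nat_lit 2) (.ev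
 (nat_lit 1216) (nat_lit 65536) (.ev (nat_lit 2468) (nat_lit 262144) (.nd (nat_lit 2784) (.br (nat_lit 4) (.ch
 (nat_lit 0) (.ev (nat_lit 2800) (nat_lit 73014444032) .dd)) (.ch (nat_lit 4) (.fin (nat_lit
 576464600580964941))))))))) (.br (nat_lit 5) (.ch (nat_lit 4) (.ev (nat_lit 1216) (nat_lit 73014444032) (.ev
 (nat_lit 1232) (nat_lit 65536) (.ev (nat_lit 1245) (nat_lit 262144) .dd)))) (.br (nat_lit 6) (.ch (nat_lit 5)
 (.ev (nat_lit 1216) (nat_lit 73014509568) (.ev (nat_lit 1229) (nat_lit 262144) .dd))) (.ch (nat_lit 6) (.ev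
 (nat_lit 1216) (nat_lit 327680) (.ev (nat_lit 2164) (nat_lit 68719476736) (.ev (nat_lit 2173) (nat_lit
 4294967296) .dd)))))))))))))))))) (.ch (nat_lit 36) (.ev (nat_lit 52) (nat_lit 4742317150248) (.ev (nat_lit
 84) (nat_lit 2) (.ev (nat_lit 244) (nat_lit 4294967296) (.ev (nat_lit 404) (nat_lit 524288) (.ev (nat_lit 564)
 (nat_lit 8589934592) (.nd (nat_lit 1200) (.br (nat_lit 5) (.br (nat_lit 2) (.ch (nat_lit 1) (.ev (nat_lit
 1216) (nat_lit 17592488298496) (.ev (nat_lit 1229) (nat_lit 4194304) .dd))) (.ch (nat_lit 2) (.ev (nat_lit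
 1216) (nat_lit 4196352) (.ev (nat_lit 1264) (nat_lit 33554432) (.ev (nat_lit 1728) (nat_lit 268435456) (.ev
 (nat_lit 2128) (nat_lit 262144) (.ev (nat_lit 2141) (nat_lit 17592186044416) .dd))))))) (.br (nat_lit 6) (.ch
 (nat_lit 5) (.ev (nat_lit 1216) (nat_lit 17592186306560) (.ev (nat_lit 1264) (nat_lit 268435456) (.ev (nat_lit
 2032) (nat_lit 33554432) (.ev (nat_lit 2240) (nat_lit 2048) (.ev (nat_lit 2253) (nat_lit 4194304) .dd))))))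
 (.br (nat_lit 10) (.ch (nat_lit 6) (.ev (nat_lit 1216) (nat_lit 306448384) (.ev (nat_lit 1229) (nat_lit
 17592186044416) .dd))) (.ch (nat_lit 10) (.ev (nat_lit 1216) (nat_lit 302254080) (.ev (nat_lit 1668) (nat_lit
 4194304) (.ev (nat_lit 1677) (nat_lit 17592186044416) .dd)))))))))))))))) (.br (nat_lit 39) (.br (nat_lit 38)
 (.ch (nat_lit 37) (.ev (nat_lit 52) (nat_lit 140836872) (.ev (nat_lit 96) (nat_lit 22347554232354) .dd))) (.ch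
 (nat_lit 38) (.ev (nat_lit 52) (nat_lit 17661208369192) (.nd (nat_lit 1200) (.br (nat_lit 6) (.br (nat_lit 4)
 (.ch (nat_lit 2) (.ev (nat_lit 1216) (nat_lit 4673595506690) (.ev (nat_lit 1776) (nat_lit 4294967296) (.ev
 (nat_lit 2080) (nat_lit 2097152) (.ev (nat_lit 2240) (nat_lit 8589934592) (.ev (nat_lit 2253) (nat_lit
 4194304) .dd)))))) (.ch (nat_lit 4) (.ev (nat_lit 1216) (nat_lit 4681652764672) (.ev (nat_lit 1264) (nat_lit
 2097152) (.ev (nat_lit 2032) (nat_lit 4294967296) (.ev (nat_lit 2240) (nat_lit 2) (.ev (nat_lit 2253) (nat_lit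
 536870912) .dd))))))) (.br (nat_lit 9) (.ch (nat_lit 6) (.ev (nat_lit 1216) (nat_lit 4686482505730) (.ev
 (nat_lit 1229) (nat_lit 4194304) .dd))) (.br (nat_lit 10) (.ch (nat_lit 9) (.ev (nat_lit 1216) (nat_lit
 13428064256) (.ev (nat_lit 2308) (nat_lit 2) (.ev (nat_lit 2372) (nat_lit 274877906944) (.fin (nat_lit
 576448107934859836)))))) (.ch (nat_lit 10) (.ev (nat_lit 1216) (nat_lit 4411067727874) (.ev (nat_lit 1408)
 (nat_lit 536870912) (.ev (nat_lit 1648) (nat_lit 274877906944) (.ev (nat_lit 1661) (nat_lit 4194304)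
 .dd)))))))))))) (.br (nat_lit 42) (.ch (nat_lit 39) (.ev (nat_lit 52) (nat_lit 344442601474) (.ev (nat_lit
 180) (nat_lit 4294967296) (.ev (nat_lit 308) (nat_lit 2048) (.ev (nat_lit 436) (nat_lit 8) (.ev (nat_lit 704)
 (nat_lit 21998957498400) .dd)))))) (.ch (nat_lit 42) (.ev (nat_lit 52) (nat_lit 4686386626562) (.ev (nat_lit
 212) (nat_lit 262144) (.ev (nat_lit 244) (nat_lit 2048) (.ev (nat_lit 340) (nat_lit 8) (.ev (nat_lit 436)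
 (nat_lit 68719476736) (.ev (nat_lit 1024) (nat_lit 4096) (.nd (nat_lit 1200) (.br (nat_lit 4) (.br (nat_lit 2)
 (.ch (nat_lit 1) (.ev (nat_lit 1216) (nat_lit 17592588697632) .dd)) (.ch (nat_lit 2) (.ev (nat_lit 1216)
 (nat_lit 402653216) (.ev (nat_lit 1229) (nat_lit 17592186044416) .dd)))) (.br (nat_lit 9) (.ch (nat_lit 4)
 (.ev (nat_lit 1216) (nat_lit 134217760) (.ev (nat_lit 2672) (nat_lit 17592186044416) (.ev (nat_lit 2685)
 (nat_lit 268435456) .dd)))) (.br (nat_lit 12) (.ch (nat_lit 9) (.ev (nat_lit 1216) (nat_lit 134217760) (.ev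
 (nat_lit 2068) (nat_lit 17592186044416) (.ev (nat_lit 2077) (nat_lit 268435456) .dd)))) (.ch (nat_lit 12) (.ev
 (nat_lit 1216) (nat_lit 17592186044416) (.ev (nat_lit 1232) (nat_lit 134217728) (.fin (nat_lit
 576444809390539314)))))))))))))))))))))))

/-- Subtrie. -/
noncomputable def T4 : Tr := (.ev (nat_lit 20) (nat_lit 17627318340134) (.nd (nat_lit 33) (.br (nat_lit 22)
 (.br (nat_lit 9) (.br (nat_lit 6) (.br (nat_lit 4) (.ch (nat_lit 1) (.ev (nat_lit 52) (nat_lit 70658929229824)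
 (.ev (nat_lit 884) (nat_lit 1048576) (.nd (nat_lit 1200) (.br (nat_lit 6) (.br (nat_lit 2) (.ch (nat_lit 1)
 (.ev (nat_lit 1216) (nat_lit 35184372158464) (.ev (nat_lit 1428) (nat_lit 68719476736) (.ev (nat_lit 1440)
 (nat_lit 4398046511104) (.ev (nat_lit 1453) (nat_lit 8) .dd))))) (.ch (nat_lit 2) (.ev (nat_lit 1216) (nat_lit
 39582418669568) (.ev (nat_lit 1300) (nat_lit 68719476736) (.ev (nat_lit 1309) (nat_lit 8) .dd))))) (.br
 (nat_lit 8) (.ch (nat_lit 6) (.ev (nat_lit 1216) (nat_lit 4466766057472) (.ev (nat_lit 1508) (nat_lit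
 35184372088832) (.ev (nat_lit 1517) (nat_lit 8) .dd)))) (.br (nat_lit 9) (.ch (nat_lit 8) (.ev (nat_lit 1216)
 (nat_lit 35253091565576) (.ev (nat_lit 1232) (nat_lit 65536) (.ev (nat_lit 1604) (nat_lit 4096) (.ev (nat_lit
 1613) (nat_lit 4398046511104) .dd))))) (.ch (nat_lit 9) (.ev (nat_lit 1216) (nat_lit 39651138146304) (.ev
 (nat_lit 1229) (nat_lit 8) .dd)))))))))) (.br (nat_lit 5) (.ch (nat_lit 4) (.ev (nat_lit 52) (nat_lit
 70654363762688) (.ev (nat_lit 148) (nat_lit 2097152) (.ev (nat_lit 180) (nat_lit 268435456) (.ev (nat_lit 212)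
 (nat_lit 4398046511104) (.ev (nat_lit 532) (nat_lit 1048576) (.nd (nat_lit 1200) (.br (nat_lit 3) (.br
 (nat_lit 2) (.ch (nat_lit 0) (.ev (nat_lit 1216) (nat_lit 35257386565640) (.ev (nat_lit 1229) (nat_lit 4096)
 .dd))) (.ch (nat_lit 2) (.ev (nat_lit 1216) (nat_lit 36872) (.ev (nat_lit 1284) (nat_lit 68719476736) (.ev
 (nat_lit 1568) (nat_lit 35188667056128) .dd))))) (.br (nat_lit 6) (.ch (nat_lit 3) (.ev (nat_lit 1216)
 (nat_lit 35257386569728) (.ev (nat_lit 1229) (nat_lit 8) .dd))) (.br (nat_lit 11) (.ch (nat_lit 6) (.ev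
 (nat_lit 1216) (nat_lit 73014444040) (.ev (nat_lit 1924) (nat_lit 35184372088832) (.ev (nat_lit 2260) (nat_lit
 32768) (.ev (nat_lit 2269) (nat_lit 4096) .dd))))) (.ch (nat_lit 11) (.ev (nat_lit 1216) (nat_lit
 35257386565640) (.ev (nat_lit 1229) (nat_lit 4096) .dd))))))))))))) (.ch (nat_lit 5) (.ev (nat_lit 52)
 (nat_lit 39657853222920) (.ev (nat_lit 884) (nat_lit 4096) (.nd (nat_lit 1200) (.br (nat_lit 3) (.br (nat_lit
 1) (.ch (nat_lit 0) (.ev (nat_lit 1216) (nat_lit 70643625263104) (.ev (nat_lit 1229) (nat_lit 8589934592)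
 .dd))) (.ch (nat_lit 1) (.ev (nat_lit 1216) (nat_lit 283469938688) (.ev (nat_lit 1232) (nat_lit 32768) (.ev
 (nat_lit 1604) (nat_lit 1048576) (.ev (nat_lit 1613) (nat_lit 70368744177664) .dd)))))) (.br (nat_lit 7) (.ch
 (nat_lit 3) (.ev (nat_lit 1216) (nat_lit 70643623165952) (.ev (nat_lit 1508) (nat_lit 2097152) (.ev (nat_lit
 1517) (nat_lit 8589934592) .dd)))) (.br (nat_lit 8) (.ch (nat_lit 7) (.ev (nat_lit 1216) (nat_lit
 70368747356160) (.ev (nat_lit 1300) (nat_lit 274877906944) (.ev (nat_lit 1309) (nat_lit 8589934592) .dd))))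
 (.ch (nat_lit 8) (.ev (nat_lit 1216) (nat_lit 3178496) (.ev (nat_lit 1428) (nat_lit 274877906944) (.ev
 (nat_lit 1440) (nat_lit 70368744177664) (.ev (nat_lit 1453) (nat_lit 8589934592) .dd)))))))))))))) (.br
 (nat_lit 7) (.ch (nat_lit 6) (.ev (nat_lit 52) (nat_lit 35469990563840) (.ev (nat_lit 148) (nat_lit
 68723671040) (.ev (nat_lit 768) (nat_lit 74771354189832) .dd)))) (.br (nat_lit 8) (.ch (nat_lit 7) (.ev
 (nat_lit 52) (nat_lit 39859445104640) (.ev (nat_lit 84) (nat_lit 32768) (.ev (nat_lit 244) (nat_lit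
 70368744177664) (.ev (nat_lit 980) (nat_lit 4294967296) (.ev (nat_lit 1184) (nat_lit 4194304) (.nd (nat_lit
 1200) (.br (nat_lit 7) (.br (nat_lit 6) (.ch (nat_lit 3) (.ev (nat_lit 1216) (nat_lit 68990013448) (.ev
 (nat_lit 1229) (nat_lit 8589934592) .dd))) (.ch (nat_lit 6) (.ev (nat_lit 1216) (nat_lit 270536704) (.ev
 (nat_lit 1764) (nat_lit 8589934592) (.ev (nat_lit 1812) (nat_lit 8) (.ev (nat_lit 1821) (nat_lit 68719476736)
 .dd)))))) (.br (nat_lit 8) (.ch (nat_lit 7) (.ev (nat_lit 1216) (nat_lit 2101248) (.ev (nat_lit 2228) (nat_lit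
 268435456) (.ev (nat_lit 2480) (nat_lit 68719476736) (.ev (nat_lit 2512) (nat_lit 8589934592) (.ev (nat_lit
 2525) (nat_lit 8) .dd)))))) (.br (nat_lit 9) (.ch (nat_lit 8) (.ev (nat_lit 1216) (nat_lit 77577846784) (.ev
 (nat_lit 1248) (nat_lit 2097152) (.fin (nat_lit 576458003542655542))))) (.ch (nat_lit 9) (.ev (nat_lit 1216)
 (nat_lit 8860471304) (.ev (nat_lit 1229) (nat_lit 68719476736) .dd))))))))))))) (.ch (nat_lit 8) (.ev (nat_lit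
 52) (nat_lit 35257389682696) (.ev (nat_lit 148) (nat_lit 275146342400) (.ev (nat_lit 608) (nat_lit
 74777532399616) .dd))))))) (.br (nat_lit 13) (.br (nat_lit 10) (.ch (nat_lit 9) (.ev (nat_lit 52) (nat_lit
 4477506584576) (.ev (nat_lit 84) (nat_lit 70368744177664) (.ev (nat_lit 212) (nat_lit 65536) (.ev (nat_lit
 896) (nat_lit 35463817596936) .dd))))) (.br (nat_lit 12) (.ch (nat_lit 10) (.ev (nat_lit 52) (nat_lit
 70725499129856) (.ev (nat_lit 596) (nat_lit 1048576) (.ev (nat_lit 992) (nat_lit 39584568246280) .dd)))) (.ch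
 (nat_lit 12) (.ev (nat_lit 52) (nat_lit 4471329423368) (.ev (nat_lit 148) (nat_lit 35184372088832) (.ev
 (nat_lit 180) (nat_lit 4194304) (.ev (nat_lit 212) (nat_lit 70368744177664) (.ev (nat_lit 532) (nat_lit 4096)
 (.nd (nat_lit 1200) (.br (nat_lit 7) (.br (nat_lit 6) (.ch (nat_lit 3) (.ev (nat_lit 1216) (nat_lit
 285615325184) (.ev (nat_lit 1924) (nat_lit 2097152) (.ev (nat_lit 2260) (nat_lit 65536) (.ev (nat_lit 2269)
 (nat_lit 1048576) .dd))))) (.ch (nat_lit 6) (.ev (nat_lit 1216) (nat_lit 277028601856) (.ev (nat_lit 1229)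
 (nat_lit 8589934592) .dd)))) (.br (nat_lit 9) (.ch (nat_lit 7) (.ev (nat_lit 1216) (nat_lit 8591048704) (.ev
 (nat_lit 1284) (nat_lit 274877906944) (.ev (nat_lit 1568) (nat_lit 2149580800) .dd)))) (.br (nat_lit 11) (.ch
 (nat_lit 9) (.ev (nat_lit 1216) (nat_lit 285617487872) (.ev (nat_lit 1229) (nat_lit 1048576) .dd))) (.ch
 (nat_lit 11) (.ev (nat_lit 1216) (nat_lit 285617487872) (.ev (nat_lit 1229) (nat_lit 1048576)
 .dd))))))))))))))) (.br (nat_lit 18) (.br (nat_lit 17) (.ch (nat_lit 13) (.ev (nat_lit 52) (nat_lit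
 70441760755712) (.ev (nat_lit 84) (nat_lit 65536) (.ev (nat_lit 244) (nat_lit 4398046511104) (.ev (nat_lit
 884) (nat_lit 2147483648) (.ev (nat_lit 1168) (nat_lit 268435456) (.nd (nat_lit 1200) (.br (nat_lit 2) (.br
 (nat_lit 1) (.ch (nat_lit 0) (.ev (nat_lit 1216) (nat_lit 35192967266312) (.ev (nat_lit 1229) (nat_lit
 274877906944) .dd))) (.ch (nat_lit 1) (.ev (nat_lit 1216) (nat_lit 274882101256) (.ev (nat_lit 1248) (nat_lit
 35184372088832) (.fin (nat_lit 576458003509101127)))))) (.br (nat_lit 3) (.ch (nat_lit 2) (.ev (nat_lit 1216)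
 (nat_lit 35184373137408) (.ev (nat_lit 2228) (nat_lit 4194304) (.ev (nat_lit 2480) (nat_lit 274877906944) (.ev
 (nat_lit 2512) (nat_lit 8) (.ev (nat_lit 2525) (nat_lit 8589934592) .dd)))))) (.br (nat_lit 6) (.ch (nat_lit
 3) (.ev (nat_lit 1216) (nat_lit 35184377331712) (.ev (nat_lit 1764) (nat_lit 8) (.ev (nat_lit 1812) (nat_lit
 8589934592) (.ev (nat_lit 1821) (nat_lit 274877906944) .dd))))) (.ch (nat_lit 6) (.ev (nat_lit 1216) (nat_lit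
 35467845173248) (.ev (nat_lit 1229) (nat_lit 8) .dd))))))))))))) (.ch (nat_lit 17) (.ev (nat_lit 52) (nat_lit
 74839811424264) (.ev (nat_lit 276) (nat_lit 32768) (.ev (nat_lit 820) (nat_lit 1048576) (.ev (nat_lit 916)
 (nat_lit 4096) (.nd (nat_lit 1200) (.br (nat_lit 3) (.br (nat_lit 1) (.ch (nat_lit 0) (.ev (nat_lit 1216)
 (nat_lit 35195109572608) (.ev (nat_lit 1876) (nat_lit 274877906944) (.ev (nat_lit 1885) (nat_lit 268435456)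
 .dd)))) (.ch (nat_lit 1) (.ev (nat_lit 1216) (nat_lit 35184372154368) (.ev (nat_lit 1284) (nat_lit
 274877906944) (.ev (nat_lit 2308) (nat_lit 2147483648) (.ev (nat_lit 2356) (nat_lit 8589934592) (.ev (nat_lit
 2365) (nat_lit 268435456) .dd))))))) (.br (nat_lit 7) (.ch (nat_lit 3) (.ev (nat_lit 1216) (nat_lit
 35193230458880) (.ev (nat_lit 1284) (nat_lit 2147483648) (.ev (nat_lit 1316) (nat_lit 274877906944) (.ev
 (nat_lit 1325) (nat_lit 65536) .dd))))) (.br (nat_lit 9) (.ch (nat_lit 7) (.ev (nat_lit 1216) (nat_lit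
 35195377942528) (.ev (nat_lit 1876) (nat_lit 65536) (.ev (nat_lit 1885) (nat_lit 274877906944) .dd)))) (.ch
 (nat_lit 9) (.ev (nat_lit 1216) (nat_lit 283467907072) (.ev (nat_lit 1284) (nat_lit 2147483648) (.ev (nat_lit
 1300) (nat_lit 268435456) (.ev (nat_lit 1309) (nat_lit 35184372088832) .dd))))))))))))))) (.br (nat_lit 21)
 (.ch (nat_lit 18) (.ev (nat_lit 52) (nat_lit 110237046538240) (.ev (nat_lit 276) (nat_lit 65536) (.ev (nat_lit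
 820) (nat_lit 4096) (.ev (nat_lit 916) (nat_lit 1048576) (.nd (nat_lit 1200) (.br (nat_lit 6) (.br (nat_lit 2)
 (.ch (nat_lit 0) (.ev (nat_lit 1216) (nat_lit 68719509512) (.ev (nat_lit 1284) (nat_lit 4294967296) (.ev
 (nat_lit 1300) (nat_lit 4194304) (.ev (nat_lit 1309) (nat_lit 2097152) .dd))))) (.ch (nat_lit 2) (.ev (nat_lit
 1216) (nat_lit 4301258760) (.ev (nat_lit 1876) (nat_lit 32768) (.ev (nat_lit 1885) (nat_lit 68719476736)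
 .dd))))) (.br (nat_lit 8) (.ch (nat_lit 6) (.ev (nat_lit 1216) (nat_lit 6291464) (.ev (nat_lit 1284) (nat_lit
 4294967296) (.ev (nat_lit 1316) (nat_lit 68719476736) (.ev (nat_lit 1325) (nat_lit 32768) .dd))))) (.br
 (nat_lit 9) (.ch (nat_lit 8) (.ev (nat_lit 1216) (nat_lit 2129920) (.ev (nat_lit 1284) (nat_lit 68719476736)
 (.ev (nat_lit 2308) (nat_lit 4294967296) (.ev (nat_lit 2356) (nat_lit 8) (.ev (nat_lit 2365) (nat_lit 4194304)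
 .dd)))))) (.ch (nat_lit 9) (.ev (nat_lit 1216) (nat_lit 4297097224) (.ev (nat_lit 1876) (nat_lit 68719476736)
 (.ev (nat_lit 1885) (nat_lit 4194304) .dd))))))))))))) (.ch (nat_lit 21) (.ev (nat_lit 52) (nat_lit
 70379751149568) (.ev (nat_lit 244) (nat_lit 2097152) (.ev (nat_lit 276) (nat_lit 4398046511112) (.nd (nat_lit
 1200) (.br (nat_lit 6) (.br (nat_lit 2) (.ch (nat_lit 1) (.ev (nat_lit 1216) (nat_lit 279177068544) (.ev
 (nat_lit 1956) (nat_lit 68719476736) (.ev (nat_lit 2308) (nat_lit 32768) (.ev (nat_lit 2317) (nat_lit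
 35184372088832) .dd))))) (.ch (nat_lit 2) (.ev (nat_lit 1216) (nat_lit 274877939712) (.ev (nat_lit 1956)
 (nat_lit 35184372088832) (.ev (nat_lit 2468) (nat_lit 4194304) (.nd (nat_lit 2944) (.br (nat_lit 2) (.ch
 (nat_lit 1) (.fin (nat_lit 576458003540558387))) (.ch (nat_lit 2) (.ev (nat_lit 2960) (nat_lit 73014444032)
 .dd))))))))) (.br (nat_lit 7) (.ch (nat_lit 6) (.ev (nat_lit 1216) (nat_lit 35463544995840) (.ev (nat_lit
 1332) (nat_lit 4194304) (.ev (nat_lit 1341) (nat_lit 68719476736) .dd)))) (.br (nat_lit 11) (.ch (nat_lit 7)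
 (.ev (nat_lit 1216) (nat_lit 35188671250432) (.ev (nat_lit 1248) (nat_lit 274877906944) (.ev (nat_lit 1284)
 (nat_lit 68719476736) (.ev (nat_lit 1293) (nat_lit 32768) .dd))))) (.ch (nat_lit 11) (.ev (nat_lit 1216)
 (nat_lit 347896578048) (.ev (nat_lit 1229) (nat_lit 35184372088832) .dd))))))))))))))) (.br (nat_lit 34) (.br
 (nat_lit 30) (.br (nat_lit 25) (.ch (nat_lit 22) (.ev (nat_lit 52) (nat_lit 4744065122312) (.ev (nat_lit 576)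
 (nat_lit 105566003302400) .dd))) (.br (nat_lit 26) (.ch (nat_lit 25) (.ev (nat_lit 52) (nat_lit
 70652213137408) (.ev (nat_lit 512) (nat_lit 39657855287304) .dd))) (.ch (nat_lit 26) (.ev (nat_lit 52)
 (nat_lit 4466767073288) (.ev (nat_lit 480) (nat_lit 105843301351424) .dd))))) (.br (nat_lit 31) (.ch (nat_lit
 30) (.ev (nat_lit 52) (nat_lit 105909601730560) (.ev (nat_lit 244) (nat_lit 268435456) (.ev (nat_lit 960)
 (nat_lit 4400198258696) .dd)))) (.br (nat_lit 33) (.ch (nat_lit 31) (.ev (nat_lit 52) (nat_lit 39930583613440)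
 (.ev (nat_lit 500) (nat_lit 4096) (.ev (nat_lit 852) (nat_lit 2147483648) (.nd (nat_lit 1200) (.br (nat_lit 3)
 (.br (nat_lit 2) (.ch (nat_lit 1) (.ev (nat_lit 1216) (nat_lit 2162688) (.ev (nat_lit 2016) (nat_lit 8) (.ev
 (nat_lit 2672) (nat_lit 70368744177664) (.fin (nat_lit 576458003509101127)))))) (.ch (nat_lit 2) (.ev (nat_lit
 1216) (nat_lit 70368747388936) (.ev (nat_lit 1229) (nat_lit 8589934592) .dd)))) (.br (nat_lit 6) (.ch (nat_lit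
 3) (.ev (nat_lit 1216) (nat_lit 8590983168) (.ev (nat_lit 1284) (nat_lit 70368744177664) (.ev (nat_lit 1428)
 (nat_lit 65536) (.ev (nat_lit 1604) (nat_lit 2097152) (.ev (nat_lit 1613) (nat_lit 8) .dd)))))) (.br (nat_lit
 7) (.ch (nat_lit 6) (.ev (nat_lit 1216) (nat_lit 3145736) (.ev (nat_lit 1428) (nat_lit 8589934592) (.ev
 (nat_lit 1876) (nat_lit 70368744177664) (.ev (nat_lit 1885) (nat_lit 65536) .dd))))) (.ch (nat_lit 7) (.ev
 (nat_lit 1216) (nat_lit 70368746274824) (.ev (nat_lit 1284) (nat_lit 65536) (.ev (nat_lit 1348) (nat_lit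
 8589934592) (.ev (nat_lit 1357) (nat_lit 1048576) .dd))))))))))))) (.ch (nat_lit 33) (.ev (nat_lit 52)
 (nat_lit 4402346758152) (.ev (nat_lit 244) (nat_lit 35184372088832) (.ev (nat_lit 276) (nat_lit
 70377334112256) (.nd (nat_lit 1200) (.br (nat_lit 7) (.br (nat_lit 3) (.ch (nat_lit 2) (.ev (nat_lit 1216)
 (nat_lit 2418016256) (.ev (nat_lit 1248) (nat_lit 68719476736) (.ev (nat_lit 1284) (nat_lit 274877906944) (.ev
 (nat_lit 1293) (nat_lit 65536) .dd))))) (.ch (nat_lit 3) (.ev (nat_lit 1216) (nat_lit 70869123072) (.ev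
 (nat_lit 1332) (nat_lit 268435456) (.ev (nat_lit 1341) (nat_lit 274877906944) .dd))))) (.br (nat_lit 8) (.ch
 (nat_lit 7) (.ev (nat_lit 1216) (nat_lit 68719542272) (.ev (nat_lit 1956) (nat_lit 2097152) (.ev (nat_lit
 2468) (nat_lit 268435456) (.nd (nat_lit 2976) (.br (nat_lit 1) (.ch (nat_lit 0) (.ev (nat_lit 2992) (nat_lit
 277025390592) .dd)) (.ch (nat_lit 1) (.fin (nat_lit 576458003511198282))))))))) (.br (nat_lit 11) (.ch
 (nat_lit 8) (.ev (nat_lit 1216) (nat_lit 71135395840) (.ev (nat_lit 1956) (nat_lit 274877906944) (.ev (nat_lit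
 2308) (nat_lit 65536) (.ev (nat_lit 2317) (nat_lit 2097152) .dd))))) (.ch (nat_lit 11) (.ev (nat_lit 1216)
 (nat_lit 346013368320) (.ev (nat_lit 1229) (nat_lit 2097152) .dd)))))))))))))) (.br (nat_lit 37) (.br (nat_lit
 35) (.ch (nat_lit 34) (.ev (nat_lit 52) (nat_lit 105832289210376) (.ev (nat_lit 84) (nat_lit 4398046511104)
 (.ev (nat_lit 212) (nat_lit 32768) (.ev (nat_lit 832) (nat_lit 79732670464) .dd))))) (.br (nat_lit 36) (.ch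
 (nat_lit 35) (.ev (nat_lit 52) (nat_lit 35193232592896) (.ev (nat_lit 308) (nat_lit 4194304) (.ev (nat_lit
 788) (nat_lit 1048576) (.ev (nat_lit 820) (nat_lit 2147483648) (.nd (nat_lit 1200) (.br (nat_lit 3) (.br
 (nat_lit 1) (.ch (nat_lit 0) (.ev (nat_lit 1216) (nat_lit 347892416520) (.ev (nat_lit 1764) (nat_lit
 4398046511104) (.ev (nat_lit 1773) (nat_lit 70368744177664) .dd)))) (.br (nat_lit 2) (.ch (nat_lit 1) (.ev
 (nat_lit 1216) (nat_lit 4471061020680) (.ev (nat_lit 2192) (nat_lit 274877906944) (.ev (nat_lit 2205) (nat_lit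
 70368744177664) .dd)))) (.ch (nat_lit 2) (.ev (nat_lit 1216) (nat_lit 74766790754304) (.ev (nat_lit 2240)
 (nat_lit 274877906944) (.ev (nat_lit 2640) (nat_lit 8) (.fin (nat_lit 576458003540558387)))))))) (.br (nat_lit
 7) (.br (nat_lit 6) (.ch (nat_lit 3) (.ev (nat_lit 1216) (nat_lit 4745938927624) (.ev (nat_lit 1229) (nat_lit
 70368744177664) .dd))) (.ch (nat_lit 6) (.ev (nat_lit 1216) (nat_lit 75114683039752) (.ev (nat_lit 1229)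
 (nat_lit 65536) .dd)))) (.br (nat_lit 9) (.ch (nat_lit 7) (.ev (nat_lit 1216) (nat_lit 74835510231040) (.ev
 (nat_lit 1364) (nat_lit 4294967296) (.ev (nat_lit 2592) (nat_lit 274877906952) .dd)))) (.ch (nat_lit 9) (.ev
 (nat_lit 1216) (nat_lit 70647917117440) (.ev (nat_lit 1668) (nat_lit 68719476736) (.ev (nat_lit 1972) (nat_lit
 4398046511104) (.ev (nat_lit 1981) (nat_lit 8) .dd)))))))))))))) (.ch (nat_lit 36) (.ev (nat_lit 52) (nat_lit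
 39928165634056) (.ev (nat_lit 244) (nat_lit 4194304) (.ev (nat_lit 864) (nat_lit 70381898596352) .dd))))))
 (.br (nat_lit 39) (.br (nat_lit 38) (.ch (nat_lit 37) (.ev (nat_lit 52) (nat_lit 35184379494408) (.ev (nat_lit
 308) (nat_lit 268435456) (.ev (nat_lit 788) (nat_lit 4096) (.ev (nat_lit 948) (nat_lit 4294967296) (.nd
 (nat_lit 1200) (.br (nat_lit 6) (.br (nat_lit 2) (.ch (nat_lit 0) (.ev (nat_lit 1216) (nat_lit 4468913504256)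
 (.ev (nat_lit 1668) (nat_lit 274877906944) (.ev (nat_lit 1972) (nat_lit 70368744177664) (.ev (nat_lit 1981)
 (nat_lit 8589934592) .dd))))) (.br (nat_lit 3) (.ch (nat_lit 2) (.ev (nat_lit 1216) (nat_lit 75041668628480)
 (.ev (nat_lit 1364) (nat_lit 2147483648) (.ev (nat_lit 2592) (nat_lit 77309411328) .dd)))) (.ch (nat_lit 3)
 (.ev (nat_lit 1216) (nat_lit 75121125490688) (.ev (nat_lit 1229) (nat_lit 32768) .dd))))) (.br (nat_lit 8)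
 (.br (nat_lit 7) (.ch (nat_lit 6) (.ev (nat_lit 1216) (nat_lit 70723079012352) (.ev (nat_lit 1229) (nat_lit
 4398046511104) .dd))) (.ch (nat_lit 7) (.ev (nat_lit 1216) (nat_lit 74766790721536) (.ev (nat_lit 2240)
 (nat_lit 68719476736) (.ev (nat_lit 2640) (nat_lit 8589934592) (.fin (nat_lit 576458003511198282))))))) (.br
 (nat_lit 9) (.ch (nat_lit 8) (.ev (nat_lit 1216) (nat_lit 70654359535616) (.ev (nat_lit 2192) (nat_lit
 68719476736) (.ev (nat_lit 2205) (nat_lit 4398046511104) .dd)))) (.ch (nat_lit 9) (.ev (nat_lit 1216) (nat_lit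
 354334834688) (.ev (nat_lit 1764) (nat_lit 70368744177664) (.ev (nat_lit 1773) (nat_lit 4398046511104)
 .dd))))))))))))) (.ch (nat_lit 38) (.ev (nat_lit 52) (nat_lit 105624251764744) (.ev (nat_lit 180) (nat_lit
 2097152) (.ev (nat_lit 800) (nat_lit 4685814562816) .dd))))) (.br (nat_lit 42) (.ch (nat_lit 39) (.ev (nat_lit
 52) (nat_lit 70714763837440) (.ev (nat_lit 500) (nat_lit 1048576) (.ev (nat_lit 916) (nat_lit 4294967296) (.nd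
 (nat_lit 1200) (.br (nat_lit 6) (.br (nat_lit 3) (.ch (nat_lit 2) (.ev (nat_lit 1216) (nat_lit 39591008534528)
 (.ev (nat_lit 1284) (nat_lit 32768) (.ev (nat_lit 1348) (nat_lit 8) (.ev (nat_lit 1357) (nat_lit 4096)
 .dd))))) (.ch (nat_lit 3) (.ev (nat_lit 1216) (nat_lit 35192962027520) (.ev (nat_lit 1428) (nat_lit 8) (.ev
 (nat_lit 1876) (nat_lit 4398046511104) (.ev (nat_lit 1885) (nat_lit 32768) .dd)))))) (.br (nat_lit 7) (.ch
 (nat_lit 6) (.ev (nat_lit 1216) (nat_lit 4104) (.ev (nat_lit 1284) (nat_lit 4398046511104) (.ev (nat_lit 1428)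
 (nat_lit 32768) (.ev (nat_lit 1604) (nat_lit 35184372088832) (.ev (nat_lit 1613) (nat_lit 8589934592)
 .dd)))))) (.br (nat_lit 8) (.ch (nat_lit 7) (.ev (nat_lit 1216) (nat_lit 39591008571392) (.ev (nat_lit 1229)
 (nat_lit 8) .dd))) (.ch (nat_lit 8) (.ev (nat_lit 1216) (nat_lit 35184372121600) (.ev (nat_lit 2016) (nat_lit
 8589934592) (.ev (nat_lit 2672) (nat_lit 4398046511104) (.fin (nat_lit 576458003542655542)))))))))))))) (.ch
 (nat_lit 42) (.ev (nat_lit 52) (nat_lit 4685816758272) (.ev (nat_lit 180) (nat_lit 35184372088832) (.ev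
 (nat_lit 928) (nat_lit 70439879577608) .dd)))))))))))

/-- Subtrie. -/
noncomputable def T5 : Tr := (.ev (nat_lit 20) (nat_lit 22029696794656) (.nd (nat_lit 33) (.br (nat_lit 22)
 (.br (nat_lit 9) (.br (nat_lit 6) (.br (nat_lit 4) (.ch (nat_lit 1) (.ev (nat_lit 52) (nat_lit 70654596760064)
 (.ev (nat_lit 224) (nat_lit 35253093210126) .dd))) (.br (nat_lit 5) (.ch (nat_lit 4) (.ev (nat_lit 52)
 (nat_lit 70654461020674) (.ev (nat_lit 256) (nat_lit 35253228949516) .dd))) (.ch (nat_lit 5) (.ev (nat_lit 52)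
 (nat_lit 35255239641102) (.ev (nat_lit 244) (nat_lit 512) (.ev (nat_lit 340) (nat_lit 33554432) (.ev (nat_lit
 564) (nat_lit 1048576) (.ev (nat_lit 628) (nat_lit 134217728) (.ev (nat_lit 660) (nat_lit 70368744177664) (.ev
 (nat_lit 948) (nat_lit 274877906944) (.nd (nat_lit 1200) (.br (nat_lit 6) (.br (nat_lit 1) (.ch (nat_lit 0)
 (.ev (nat_lit 1216) (nat_lit 67112960) (.ev (nat_lit 2496) (nat_lit 16384) (.ev (nat_lit 2528) (nat_lit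
 262144) (.fin (nat_lit 576471197650731595)))))) (.br (nat_lit 4) (.ch (nat_lit 1) (.ev (nat_lit 1216) (nat_lit
 8659419136) (.ev (nat_lit 1229) (nat_lit 4096) .dd))) (.ch (nat_lit 4) (.ev (nat_lit 1216) (nat_lit
 8659423232) .dd)))) (.br (nat_lit 9) (.br (nat_lit 8) (.ch (nat_lit 6) (.ev (nat_lit 1216) (nat_lit
 8657047552) (.ev (nat_lit 1284) (nat_lit 16384) (.ev (nat_lit 1876) (nat_lit 2097152) (.ev (nat_lit 1885)
 (nat_lit 262144) .dd))))) (.ch (nat_lit 8) (.ev (nat_lit 1216) (nat_lit 2363392) (.ev (nat_lit 1702) (nat_lit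
 67125248) (.ev (nat_lit 1709) (nat_lit 8589934592) .dd))))) (.br (nat_lit 11) (.ch (nat_lit 9) (.ev (nat_lit
 1216) (nat_lit 8659161088) (.ev (nat_lit 1229) (nat_lit 262144) .dd))) (.ch (nat_lit 11) (.ev (nat_lit 1216)
 (nat_lit 8659423232) .dd)))))))))))))))) (.br (nat_lit 7) (.ch (nat_lit 6) (.ev (nat_lit 52) (nat_lit
 35470225444868) (.ev (nat_lit 500) (nat_lit 524290) (.ev (nat_lit 564) (nat_lit 70368744177664) (.ev (nat_lit
 724) (nat_lit 65536) (.nd (nat_lit 1200) (.br (nat_lit 4) (.br (nat_lit 1) (.ch (nat_lit 0) (.ev (nat_lit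
 1216) (nat_lit 68719476744) (.ev (nat_lit 2208) (nat_lit 2048) (.ev (nat_lit 2608) (nat_lit 16384) (.ev
 (nat_lit 2656) (nat_lit 262144) (.ev (nat_lit 2669) (nat_lit 512) .dd)))))) (.ch (nat_lit 1) (.ev (nat_lit
 1216) (nat_lit 264712) (.ev (nat_lit 2628) (nat_lit 16384) (.ev (nat_lit 2637) (nat_lit 68719476736) .dd)))))
 (.br (nat_lit 9) (.ch (nat_lit 4) (.ev (nat_lit 1216) (nat_lit 2048) (.ev (nat_lit 1284) (nat_lit 262144) (.ev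
 (nat_lit 1668) (nat_lit 8) (.ev (nat_lit 1988) (nat_lit 16384) (.fin (nat_lit 576462401572389440))))))) (.br
 (nat_lit 11) (.ch (nat_lit 9) (.ev (nat_lit 1216) (nat_lit 68719757312) (.ev (nat_lit 1284) (nat_lit 8) (.ev
 (nat_lit 1293) (nat_lit 512) .dd)))) (.ch (nat_lit 11) (.ev (nat_lit 1216) (nat_lit 18944) (.ev (nat_lit 1300)
 (nat_lit 68719476736) (.ev (nat_lit 2164) (nat_lit 262144) (.ev (nat_lit 2173) (nat_lit 8) .dd))))))))))))))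
 (.br (nat_lit 8) (.ch (nat_lit 7) (.ev (nat_lit 52) (nat_lit 35461465967108) (.ev (nat_lit 404) (nat_lit
 2097160) (.ev (nat_lit 436) (nat_lit 70368777732096) (.ev (nat_lit 980) (nat_lit 134217728) (.ev (nat_lit
 1152) (nat_lit 524288) (.nd (nat_lit 1200) (.br (nat_lit 8) (.br (nat_lit 5) (.ch (nat_lit 1) (.ev (nat_lit
 1216) (nat_lit 20480) (.ev (nat_lit 1284) (nat_lit 68719476736) (.ev (nat_lit 1316) (nat_lit 2) (.ev (nat_lit
 1325) (nat_lit 8589934592) .dd))))) (.ch (nat_lit 5) (.ev (nat_lit 1216) (nat_lit 20482) (.ev (nat_lit 2576)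
 (nat_lit 77309411328) .dd)))) (.br (nat_lit 11) (.ch (nat_lit 8) (.ev (nat_lit 1216) (nat_lit 77309415426)
 (.ev (nat_lit 1229) (nat_lit 16384) .dd))) (.br (nat_lit 12) (.ch (nat_lit 11) (.ev (nat_lit 1216) (nat_lit
 8589955074) (.ev (nat_lit 1229) (nat_lit 68719476736) .dd))) (.ch (nat_lit 12) (.ev (nat_lit 1216) (nat_lit
 8589950978) (.ev (nat_lit 1876) (nat_lit 4096) (.ev (nat_lit 1885) (nat_lit 68719476736) .dd))))))))))))))
 (.ch (nat_lit 8) (.ev (nat_lit 52) (nat_lit 35253162627084) (.ev (nat_lit 116) (nat_lit 2048) (.ev (nat_lit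
 148) (nat_lit 2147483648) (.ev (nat_lit 180) (nat_lit 8589934592) (.ev (nat_lit 692) (nat_lit 70368744177664)
 (.ev (nat_lit 916) (nat_lit 2) (.ev (nat_lit 1120) (nat_lit 65536) (.nd (nat_lit 1200) (.br (nat_lit 4) (.br
 (nat_lit 1) (.ch (nat_lit 0) (.ev (nat_lit 1216) (nat_lit 275045679104) (.ev (nat_lit 1229) (nat_lit 512)
 .dd))) (.ch (nat_lit 1) (.ev (nat_lit 1216) (nat_lit 134217728) (.ev (nat_lit 2628) (nat_lit 512) (.nd
 (nat_lit 2816) (.br (nat_lit 10) (.ch (nat_lit 7) (.ev (nat_lit 2832) (nat_lit 274911461376) .dd)) (.ch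
 (nat_lit 10) (.fin (nat_lit 576455804496331342))))))))) (.br (nat_lit 6) (.ch (nat_lit 4) (.ev (nat_lit 1216)
 (nat_lit 134218240) (.ev (nat_lit 1636) (nat_lit 33554432) (.ev (nat_lit 1645) (nat_lit 274877906944) .dd))))
 (.br (nat_lit 9) (.ch (nat_lit 6) (.ev (nat_lit 1216) (nat_lit 275012124672) (.ev (nat_lit 1908) (nat_lit 512)
 (.ev (nat_lit 1917) (nat_lit 33554432) .dd)))) (.ch (nat_lit 9) (.ev (nat_lit 1216) (nat_lit 274911461376)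
 (.ev (nat_lit 1232) (nat_lit 134217728) (.ev (nat_lit 1245) (nat_lit 512) .dd))))))))))))))))))) (.br (nat_lit
 13) (.br (nat_lit 10) (.ch (nat_lit 9) (.ev (nat_lit 52) (nat_lit 79460041222) (.ev (nat_lit 116) (nat_lit
 67108872) (.ev (nat_lit 628) (nat_lit 16384) (.ev (nat_lit 692) (nat_lit 2048) (.nd (nat_lit 1200) (.br
 (nat_lit 6) (.br (nat_lit 4) (.ch (nat_lit 1) (.ev (nat_lit 1216) (nat_lit 105553250816000) (.ev (nat_lit
 1248) (nat_lit 274877906944) (.ev (nat_lit 1284) (nat_lit 33554432) (.ev (nat_lit 1293) (nat_lit 524288)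
 .dd))))) (.ch (nat_lit 4) (.ev (nat_lit 1216) (nat_lit 105828162015232) (.ev (nat_lit 2372) (nat_lit 524288)
 (.ev (nat_lit 2381) (nat_lit 262144) .dd))))) (.br (nat_lit 8) (.ch (nat_lit 6) (.ev (nat_lit 1216) (nat_lit
 70643756306432) (.ev (nat_lit 1812) (nat_lit 35184372088832) (.ev (nat_lit 1908) (nat_lit 524288) (.ev
 (nat_lit 2116) (nat_lit 262144) (.nd (nat_lit 2720) (.br (nat_lit 12) (.ch (nat_lit 1) (.ev (nat_lit 2736)
 (nat_lit 33619968) .dd)) (.ch (nat_lit 12) (.fin (nat_lit 576456904017396268)))))))))) (.br (nat_lit 12) (.ch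
 (nat_lit 8) (.ev (nat_lit 1216) (nat_lit 274912317440) (.ev (nat_lit 2016) (nat_lit 70368744177664) (.ev
 (nat_lit 2228) (nat_lit 35184372088832) (.ev (nat_lit 2237) (nat_lit 134217728) .dd))))) (.ch (nat_lit 12)
 (.ev (nat_lit 1216) (nat_lit 275012976640) (.ev (nat_lit 1264) (nat_lit 70368744177664) (.ev (nat_lit 1284)
 (nat_lit 35184372088832) (.ev (nat_lit 2308) (nat_lit 4096) (.ev (nat_lit 2317) (nat_lit 33554432)
 .dd))))))))))))))) (.br (nat_lit 12) (.ch (nat_lit 10) (.ev (nat_lit 52) (nat_lit 70721099534336) (.ev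
 (nat_lit 116) (nat_lit 2097152) (.ev (nat_lit 308) (nat_lit 512) (.ev (nat_lit 340) (nat_lit 65536) (.ev
 (nat_lit 660) (nat_lit 1048576) (.nd (nat_lit 1200) (.br (nat_lit 8) (.br (nat_lit 5) (.ch (nat_lit 4) (.ev
 (nat_lit 1216) (nat_lit 35184439740420) (.ev (nat_lit 1684) (nat_lit 8) (.ev (nat_lit 1908) (nat_lit
 2147483648) (.ev (nat_lit 1917) (nat_lit 2) .dd))))) (.ch (nat_lit 5) (.ev (nat_lit 1216) (nat_lit
 35186586681350) (.ev (nat_lit 1764) (nat_lit 2048) (.ev (nat_lit 2080) (nat_lit 16384) (.ev (nat_lit 2164)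
 (nat_lit 8) (.ev (nat_lit 2173) (nat_lit 524288) .dd))))))) (.br (nat_lit 9) (.ch (nat_lit 8) (.ev (nat_lit
 1216) (nat_lit 2215116812) (.ev (nat_lit 1264) (nat_lit 2048) (.ev (nat_lit 1604) (nat_lit 2) (.ev (nat_lit
 1636) (nat_lit 16384) (.ev (nat_lit 1645) (nat_lit 35184372088832) .dd)))))) (.br (nat_lit 11) (.ch (nat_lit
 9) (.ev (nat_lit 1216) (nat_lit 542730) (.ev (nat_lit 1408) (nat_lit 35184372088832) (.ev (nat_lit 1604)
 (nat_lit 2147483648) (.fin (nat_lit 576461302042935864)))))) (.ch (nat_lit 11) (.ev (nat_lit 1216) (nat_lit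
 35186587224070) (.ev (nat_lit 1229) (nat_lit 8) .dd))))))))))))) (.ch (nat_lit 12) (.ev (nat_lit 52) (nat_lit
 68753558028) (.ev (nat_lit 244) (nat_lit 2147483648) (.ev (nat_lit 372) (nat_lit 70368744177664) (.ev (nat_lit
 532) (nat_lit 274877906944) (.ev (nat_lit 660) (nat_lit 2097152) (.ev (nat_lit 724) (nat_lit 67371008) (.ev
 (nat_lit 788) (nat_lit 35184506306560) (.nd (nat_lit 1200) (.br (nat_lit 4) (.br (nat_lit 1) (.ch (nat_lit 0)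
 (.ev (nat_lit 1216) (nat_lit 8590000130) (.ev (nat_lit 1284) (nat_lit 1048576) (.ev (nat_lit 1316) (nat_lit
 16384) (.ev (nat_lit 1325) (nat_lit 4096) .dd))))) (.ch (nat_lit 1) (.ev (nat_lit 1216) (nat_lit 20482) (.ev
 (nat_lit 1284) (nat_lit 1048576) (.ev (nat_lit 1300) (nat_lit 65536) (.ev (nat_lit 1309) (nat_lit 8589934592)
 .dd)))))) (.br (nat_lit 5) (.ch (nat_lit 4) (.ev (nat_lit 1216) (nat_lit 8589938688) (.ev (nat_lit 1284)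
 (nat_lit 16384) (.ev (nat_lit 1558) (nat_lit 1114112) (.ev (nat_lit 1565) (nat_lit 2) .dd))))) (.br (nat_lit
 6) (.ch (nat_lit 5) (.ev (nat_lit 1216) (nat_lit 8591048706) (.ev (nat_lit 1460) (nat_lit 16384) (.ev (nat_lit
 1469) (nat_lit 4096) .dd)))) (.ch (nat_lit 6) (.ev (nat_lit 1216) (nat_lit 8590987266) (.ev (nat_lit 1524)
 (nat_lit 16384) (.ev (nat_lit 1533) (nat_lit 65536) .dd)))))))))))))))))) (.br (nat_lit 18) (.br (nat_lit 17)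
 (.ch (nat_lit 13) (.ev (nat_lit 52) (nat_lit 70437667101190) (.ev (nat_lit 436) (nat_lit 65536) (.ev (nat_lit
 468) (nat_lit 262144) (.ev (nat_lit 596) (nat_lit 35184372088832) (.ev (nat_lit 820) (nat_lit 524288) (.nd
 (nat_lit 1200) (.br (nat_lit 5) (.br (nat_lit 1) (.ch (nat_lit 0) (.ev (nat_lit 1216) (nat_lit 277058945032)
 (.ev (nat_lit 1508) (nat_lit 1048576) (.ev (nat_lit 1517) (nat_lit 8589934592) .dd)))) (.ch (nat_lit 1) (.ev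
 (nat_lit 1216) (nat_lit 2147483656) (.ev (nat_lit 1264) (nat_lit 33554432) (.ev (nat_lit 2628) (nat_lit
 274877906944) (.fin (nat_lit 576464600612422201))))))) (.br (nat_lit 8) (.ch (nat_lit 5) (.ev (nat_lit 1216)
 (nat_lit 2182086664) (.ev (nat_lit 2272) (nat_lit 274877906944) (.ev (nat_lit 2285) (nat_lit 8589934592)
 .dd)))) (.br (nat_lit 11) (.ch (nat_lit 8) (.ev (nat_lit 1216) (nat_lit 274912509960) (.ev (nat_lit 1248)
 (nat_lit 2147483648) (.ev (nat_lit 1261) (nat_lit 8589934592) .dd)))) (.ch (nat_lit 11) (.ev (nat_lit 1216)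
 (nat_lit 10738466816) (.ev (nat_lit 2096) (nat_lit 33554432) (.ev (nat_lit 2228) (nat_lit 274877906944) (.ev
 (nat_lit 2237) (nat_lit 8) .dd))))))))))))))) (.ch (nat_lit 17) (.ev (nat_lit 52) (nat_lit 70437599971336)
 (.ev (nat_lit 180) (nat_lit 4096) (.ev (nat_lit 276) (nat_lit 2147484160) (.ev (nat_lit 436) (nat_lit 262144)
 (.ev (nat_lit 468) (nat_lit 4) (.ev (nat_lit 532) (nat_lit 524288) (.ev (nat_lit 564) (nat_lit 67108864) (.ev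
 (nat_lit 756) (nat_lit 65536) (.ev (nat_lit 884) (nat_lit 35184372088832) (.nd (nat_lit 1200) (.br (nat_lit 8)
 (.br (nat_lit 5) (.ch (nat_lit 1) (.ev (nat_lit 1216) (nat_lit 16386) (.ev (nat_lit 1712) (nat_lit 1048576)
 (.ev (nat_lit 2512) (nat_lit 8589934592) (.fin (nat_lit 576455804496331342)))))) (.ch (nat_lit 5) (.ev
 (nat_lit 1216) (nat_lit 8624553986) (.ev (nat_lit 1229) (nat_lit 274877906944) .dd)))) (.br (nat_lit 9) (.ch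
 (nat_lit 8) (.ev (nat_lit 1216) (nat_lit 34619392) (.ev (nat_lit 1942) (nat_lit 283467841538) .dd))) (.br
 (nat_lit 12) (.ch (nat_lit 9) (.ev (nat_lit 1216) (nat_lit 274911461376) (.ev (nat_lit 1284) (nat_lit
 8589934592) (.ev (nat_lit 2096) (nat_lit 1048576) (.ev (nat_lit 2340) (nat_lit 2) (.ev (nat_lit 2349) (nat_lit
 16384) .dd)))))) (.ch (nat_lit 12) (.ev (nat_lit 1216) (nat_lit 8590999552) (.ev (nat_lit 1284) (nat_lit 2)
 (.ev (nat_lit 1348) (nat_lit 274877906944) (.ev (nat_lit 1357) (nat_lit 33554432) .dd)))))))))))))))))))) (.br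
 (nat_lit 21) (.ch (nat_lit 18) (.ev (nat_lit 52) (nat_lit 105838866088450) (.ev (nat_lit 84) (nat_lit 4096)
 (.ev (nat_lit 288) (nat_lit 68823877644) .dd)))) (.ch (nat_lit 21) (.ev (nat_lit 52) (nat_lit 70379651275264)
 (.ev (nat_lit 436) (nat_lit 2097152) (.ev (nat_lit 500) (nat_lit 35184372088832) (.ev (nat_lit 756) (nat_lit
 8) (.ev (nat_lit 852) (nat_lit 274877906944) (.ev (nat_lit 1136) (nat_lit 4) (.nd (nat_lit 1200) (.br (nat_lit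
 9) (.br (nat_lit 6) (.ch (nat_lit 1) (.ev (nat_lit 1216) (nat_lit 67108866) (.ev (nat_lit 2512) (nat_lit
 68719476736) (.ev (nat_lit 2525) (nat_lit 16384) .dd)))) (.ch (nat_lit 6) (.ev (nat_lit 1216) (nat_lit
 67108866) (.ev (nat_lit 1764) (nat_lit 68719476736) (.ev (nat_lit 1773) (nat_lit 16384) .dd))))) (.br (nat_lit
 11) (.ch (nat_lit 9) (.ev (nat_lit 1216) (nat_lit 68719476736) (.ev (nat_lit 1232) (nat_lit 2) (.fin (nat_lit
 576451406470791746))))) (.br (nat_lit 12) (.ch (nat_lit 11) (.ev (nat_lit 1216) (nat_lit 68786601986) .dd))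
 (.ch (nat_lit 12) (.ev (nat_lit 1216) (nat_lit 67125250) (.ev (nat_lit 1229) (nat_lit 68719476736)
 .dd)))))))))))))))))) (.br (nat_lit 34) (.br (nat_lit 30) (.br (nat_lit 25) (.ch (nat_lit 22) (.ev (nat_lit
 52) (nat_lit 345881001994) (.ev (nat_lit 180) (nat_lit 512) (.ev (nat_lit 340) (nat_lit 70368744177664) (.ev
 (nat_lit 628) (nat_lit 35184372088832) (.nd (nat_lit 1200) (.br (nat_lit 6) (.br (nat_lit 1) (.ch (nat_lit 0)
 (.ev (nat_lit 1216) (nat_lit 100667392) (.ev (nat_lit 1888) (nat_lit 4) (.ev (nat_lit 2628) (nat_lit 2048)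
 (.fin (nat_lit 576471197650731595)))))) (.ch (nat_lit 1) (.ev (nat_lit 1216) (nat_lit 102760452) (.ev (nat_lit
 1524) (nat_lit 8589934592) (.ev (nat_lit 1568) (nat_lit 6144) .dd))))) (.br (nat_lit 9) (.ch (nat_lit 6) (.ev
 (nat_lit 1216) (nat_lit 102766596) (.ev (nat_lit 1229) (nat_lit 8589934592) .dd))) (.br (nat_lit 12) (.ch
 (nat_lit 9) (.ev (nat_lit 1216) (nat_lit 35657728) (.ev (nat_lit 2308) (nat_lit 8589934592) (.fin (nat_lit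
 576461302042935864))))) (.ch (nat_lit 12) (.ev (nat_lit 1216) (nat_lit 8659142656) (.ev (nat_lit 1584)
 (nat_lit 4) (.ev (nat_lit 1876) (nat_lit 33554432) (.ev (nat_lit 1885) (nat_lit 4096) .dd)))))))))))))) (.br
 (nat_lit 26) (.ch (nat_lit 25) (.ev (nat_lit 52) (nat_lit 70652213678598) (.ev (nat_lit 192) (nat_lit
 35255476291592) .dd))) (.ch (nat_lit 26) (.ev (nat_lit 52) (nat_lit 68821456906) (.ev (nat_lit 340) (nat_lit
 4) (.ev (nat_lit 404) (nat_lit 70368744177664) (.ev (nat_lit 500) (nat_lit 16384) (.ev (nat_lit 564) (nat_lit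
 65536) (.ev (nat_lit 724) (nat_lit 2097152) (.ev (nat_lit 916) (nat_lit 524288) (.nd (nat_lit 1200) (.br
 (nat_lit 5) (.br (nat_lit 1) (.ch (nat_lit 0) (.ev (nat_lit 1216) (nat_lit 35459384213504) (.ev (nat_lit 1332)
 (nat_lit 2147483648) (.ev (nat_lit 2496) (nat_lit 512) (.ev (nat_lit 2509) (nat_lit 8589934592) .dd))))) (.br
 (nat_lit 4) (.ch (nat_lit 1) (.ev (nat_lit 1216) (nat_lit 35195109507584) (.ev (nat_lit 1232) (nat_lit
 134217728) (.ev (nat_lit 1245) (nat_lit 274877906944) .dd)))) (.ch (nat_lit 4) (.ev (nat_lit 1216) (nat_lit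
 35470121632256) .dd)))) (.br (nat_lit 8) (.br (nat_lit 6) (.ch (nat_lit 5) (.ev (nat_lit 1216) (nat_lit
 35461531697664) (.ev (nat_lit 1229) (nat_lit 8589934592) .dd))) (.ch (nat_lit 6) (.ev (nat_lit 1216) (nat_lit
 275012124672) (.ev (nat_lit 1284) (nat_lit 512) (.ev (nat_lit 1508) (nat_lit 2147483648) (.ev (nat_lit 1956)
 (nat_lit 8589934592) (.ev (nat_lit 1965) (nat_lit 35184372088832) .dd))))))) (.br (nat_lit 11) (.ch (nat_lit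
 8) (.ev (nat_lit 1216) (nat_lit 35470121632256) .dd)) (.ch (nat_lit 11) (.ev (nat_lit 1216) (nat_lit
 285749542912) (.ev (nat_lit 1744) (nat_lit 35184372088832) (.ev (nat_lit 1757) (nat_lit 512)
 .dd)))))))))))))))))) (.br (nat_lit 31) (.ch (nat_lit 30) (.ev (nat_lit 52) (nat_lit 105905374103554) (.ev
 (nat_lit 148) (nat_lit 512) (.ev (nat_lit 596) (nat_lit 16384) (.ev (nat_lit 660) (nat_lit 33554432) (.ev
 (nat_lit 724) (nat_lit 8) (.ev (nat_lit 980) (nat_lit 524288) (.ev (nat_lit 1012) (nat_lit 134217728) (.nd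
 (nat_lit 1200) (.br (nat_lit 6) (.br (nat_lit 4) (.ch (nat_lit 1) (.ev (nat_lit 1216) (nat_lit 2147553280)
 (.ev (nat_lit 1229) (nat_lit 4) .dd))) (.br (nat_lit 5) (.ch (nat_lit 4) (.ev (nat_lit 1216) (nat_lit
 2147553284) .dd)) (.ch (nat_lit 5) (.ev (nat_lit 1216) (nat_lit 2147553284) .dd)))) (.br (nat_lit 11) (.br
 (nat_lit 9) (.ch (nat_lit 6) (.ev (nat_lit 1216) (nat_lit 2147553284) .dd)) (.ch (nat_lit 9) (.ev (nat_lit
 1216) (nat_lit 69636) (.ev (nat_lit 1229) (nat_lit 2147483648) .dd)))) (.br (nat_lit 12) (.ch (nat_lit 11)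
 (.ev (nat_lit 1216) (nat_lit 2147549188) (.ev (nat_lit 1229) (nat_lit 4096) .dd))) (.ch (nat_lit 12) (.ev
 (nat_lit 1216) (nat_lit 2147487748) (.ev (nat_lit 1229) (nat_lit 65536) .dd))))))))))))))) (.br (nat_lit 33)
 (.ch (nat_lit 31) (.ev (nat_lit 52) (nat_lit 35527970260992) (.ev (nat_lit 116) (nat_lit 4) (.ev (nat_lit 212)
 (nat_lit 4608) (.ev (nat_lit 500) (nat_lit 134217728) (.ev (nat_lit 532) (nat_lit 2) (.ev (nat_lit 564)
 (nat_lit 2097152) (.ev (nat_lit 660) (nat_lit 8) (.ev (nat_lit 884) (nat_lit 16384) (.nd (nat_lit 1200) (.br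
 (nat_lit 6) (.br (nat_lit 4) (.ch (nat_lit 1) (.ev (nat_lit 1216) (nat_lit 2248212480) (.ev (nat_lit 2528)
 (nat_lit 70368744177664) (.fin (nat_lit 576464600612422201))))) (.ch (nat_lit 4) (.ev (nat_lit 1216) (nat_lit
 8690597888) (.ev (nat_lit 1284) (nat_lit 70368744177664) (.ev (nat_lit 2228) (nat_lit 1048576) (.ev (nat_lit
 2272) (nat_lit 65536) (.ev (nat_lit 2285) (nat_lit 2147483648) .dd))))))) (.br (nat_lit 11) (.ch (nat_lit 6)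
 (.ev (nat_lit 1216) (nat_lit 70370891661312) (.ev (nat_lit 1284) (nat_lit 67108864) (.ev (nat_lit 1524)
 (nat_lit 1048576) (.ev (nat_lit 1764) (nat_lit 8589934592) (.fin (nat_lit 576456904017396268))))))) (.br
 (nat_lit 12) (.ch (nat_lit 11) (.ev (nat_lit 1216) (nat_lit 10772086784) (.ev (nat_lit 2672) (nat_lit
 67108864) (.ev (nat_lit 2685) (nat_lit 70368744177664) .dd)))) (.ch (nat_lit 12) (.ev (nat_lit 1216) (nat_lit
 10772021248) (.ev (nat_lit 1508) (nat_lit 67108864) (.ev (nat_lit 2320) (nat_lit 65536) (.ev (nat_lit 2333)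
 (nat_lit 70368744177664) .dd)))))))))))))))))) (.ch (nat_lit 33) (.ev (nat_lit 52) (nat_lit 35412490) (.ev
 (nat_lit 180) (nat_lit 68719476736) (.ev (nat_lit 468) (nat_lit 67108864) (.ev (nat_lit 660) (nat_lit 65536)
 (.ev (nat_lit 756) (nat_lit 70368744177664) (.ev (nat_lit 948) (nat_lit 35184372088832) (.nd (nat_lit 1200)
 (.br (nat_lit 4) (.br (nat_lit 1) (.ch (nat_lit 0) (.ev (nat_lit 1216) (nat_lit 277159608320) (.ev (nat_lit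
 1232) (nat_lit 8589934592) (.ev (nat_lit 2260) (nat_lit 4) (.ev (nat_lit 2269) (nat_lit 2097152) .dd))))) (.ch
 (nat_lit 1) (.ev (nat_lit 1216) (nat_lit 10739515392) (.ev (nat_lit 1908) (nat_lit 274877906944) (.ev (nat_lit
 2288) (nat_lit 4) (.ev (nat_lit 2301) (nat_lit 134217728) .dd)))))) (.br (nat_lit 11) (.ch (nat_lit 4) (.ev
 (nat_lit 1216) (nat_lit 8726249476) (.ev (nat_lit 1840) (nat_lit 2147483648) (.ev (nat_lit 1853) (nat_lit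
 274877906944) .dd)))) (.br (nat_lit 12) (.ch (nat_lit 11) (.ev (nat_lit 1216) (nat_lit 10873733124) (.ev
 (nat_lit 1229) (nat_lit 274877906944) .dd))) (.ch (nat_lit 12) (.ev (nat_lit 1216) (nat_lit 10739515396) (.ev
 (nat_lit 1300) (nat_lit 134217728) (.ev (nat_lit 1309) (nat_lit 274877906944) .dd)))))))))))))))))) (.br
 (nat_lit 37) (.br (nat_lit 35) (.ch (nat_lit 34) (.ev (nat_lit 52) (nat_lit 105828195588104) (.ev (nat_lit
 160) (nat_lit 79494382086) .dd))) (.br (nat_lit 36) (.ch (nat_lit 35) (.ev (nat_lit 52) (nat_lit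
 35193165453316) (.ev (nat_lit 84) (nat_lit 2147483648) (.ev (nat_lit 116) (nat_lit 33619968) (.ev (nat_lit
 468) (nat_lit 1048576) (.ev (nat_lit 596) (nat_lit 2) (.ev (nat_lit 628) (nat_lit 524288) (.ev (nat_lit 852)
 (nat_lit 16384) (.nd (nat_lit 1200) (.br (nat_lit 6) (.br (nat_lit 5) (.ch (nat_lit 4) (.ev (nat_lit 1216)
 (nat_lit 262144) (.ev (nat_lit 1284) (nat_lit 274877906944) (.ev (nat_lit 2096) (nat_lit 8) (.ev (nat_lit
 2404) (nat_lit 70368744177664) (.fin (nat_lit 576462401572389440))))))) (.ch (nat_lit 5) (.ev (nat_lit 1216)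
 (nat_lit 70437463654400) (.ev (nat_lit 2080) (nat_lit 262144) (.ev (nat_lit 2448) (nat_lit 8) (.ev (nat_lit
 2496) (nat_lit 274877906944) (.ev (nat_lit 2509) (nat_lit 512) .dd))))))) (.br (nat_lit 8) (.ch (nat_lit 6)
 (.ev (nat_lit 1216) (nat_lit 343597645832) (.ev (nat_lit 1284) (nat_lit 70368744177664) (.ev (nat_lit 1293)
 (nat_lit 512) .dd)))) (.br (nat_lit 12) (.ch (nat_lit 8) (.ev (nat_lit 1216) (nat_lit 70643622347264) (.ev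
 (nat_lit 2468) (nat_lit 8) (.ev (nat_lit 2477) (nat_lit 68719476736) .dd)))) (.ch (nat_lit 12) (.ev (nat_lit
 1216) (nat_lit 262664) (.ev (nat_lit 1300) (nat_lit 68719476736) (.ev (nat_lit 1876) (nat_lit 274877906944)
 (.ev (nat_lit 1885) (nat_lit 70368744177664) .dd))))))))))))))))) (.ch (nat_lit 36) (.ev (nat_lit 52) (nat_lit
 35530253341196) (.ev (nat_lit 340) (nat_lit 1048576) (.ev (nat_lit 468) (nat_lit 2048) (.ev (nat_lit 692)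
 (nat_lit 67108864) (.ev (nat_lit 820) (nat_lit 16384) (.ev (nat_lit 1088) (nat_lit 33554432) (.nd (nat_lit
 1200) (.br (nat_lit 5) (.br (nat_lit 4) (.ch (nat_lit 0) (.ev (nat_lit 1216) (nat_lit 70368744177666) (.ev
 (nat_lit 1284) (nat_lit 262144) (.ev (nat_lit 1316) (nat_lit 8589934592) (.ev (nat_lit 1325) (nat_lit 524288)
 .dd))))) (.ch (nat_lit 4) (.ev (nat_lit 1216) (nat_lit 70377334636544) (.ev (nat_lit 1472) (nat_lit 2) (.ev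
 (nat_lit 1485) (nat_lit 262144) .dd))))) (.br (nat_lit 6) (.ch (nat_lit 5) (.ev (nat_lit 1216) (nat_lit
 70377334112258) (.ev (nat_lit 2422) (nat_lit 786432) .dd))) (.br (nat_lit 12) (.ch (nat_lit 6) (.ev (nat_lit
 1216) (nat_lit 70377334636546) (.ev (nat_lit 1229) (nat_lit 262144) .dd))) (.ch (nat_lit 12) (.ev (nat_lit
 1216) (nat_lit 8590721026) (.ev (nat_lit 1229) (nat_lit 70368744177664) .dd)))))))))))))))) (.br (nat_lit 39)
 (.br (nat_lit 38) (.ch (nat_lit 37) (.ev (nat_lit 52) (nat_lit 35184576905740) (.ev (nat_lit 128) (nat_lit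
 70723113064450) .dd))) (.ch (nat_lit 38) (.ev (nat_lit 52) (nat_lit 105624017639436) (.ev (nat_lit 84)
 (nat_lit 512) (.ev (nat_lit 116) (nat_lit 1048576) (.ev (nat_lit 1012) (nat_lit 2) (.nd (nat_lit 1200) (.br
 (nat_lit 5) (.br (nat_lit 1) (.ch (nat_lit 0) (.ev (nat_lit 1216) (nat_lit 275081330688) (.ev (nat_lit 1332)
 (nat_lit 8589934592) (.ev (nat_lit 1341) (nat_lit 16384) .dd)))) (.ch (nat_lit 1) (.ev (nat_lit 1216) (nat_lit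
 8791261184) (.ev (nat_lit 1248) (nat_lit 2097152) (.ev (nat_lit 1284) (nat_lit 16384) (.ev (nat_lit 1293)
 (nat_lit 274877906944) .dd)))))) (.br (nat_lit 8) (.ch (nat_lit 5) (.ev (nat_lit 1216) (nat_lit 283537063936)
 (.ev (nat_lit 1229) (nat_lit 134217728) .dd))) (.br (nat_lit 9) (.ch (nat_lit 8) (.ev (nat_lit 1216) (nat_lit
 8659140608) (.ev (nat_lit 1382) (nat_lit 275012124672) (.ev (nat_lit 1389) (nat_lit 16384) .dd)))) (.ch
 (nat_lit 9) (.ev (nat_lit 1216) (nat_lit 274880004096) (.ev (nat_lit 1908) (nat_lit 134217728) (.ev (nat_lit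
 2628) (nat_lit 8589934592) (.nd (nat_lit 2848) (.br (nat_lit 2) (.ch (nat_lit 1) (.fin (nat_lit
 576451406470791746))) (.ch (nat_lit 2) (.ev (nat_lit 2864) (nat_lit 67125248) .dd)))))))))))))))))) (.br
 (nat_lit 42) (.ch (nat_lit 39) (.ev (nat_lit 52) (nat_lit 70714524779010) (.ev (nat_lit 148) (nat_lit 4096)
 (.ev (nat_lit 372) (nat_lit 1048576) (.ev (nat_lit 692) (nat_lit 4) (.ev (nat_lit 756) (nat_lit 262144) (.ev
 (nat_lit 852) (nat_lit 524288) (.nd (nat_lit 1200) (.br (nat_lit 6) (.br (nat_lit 4) (.ch (nat_lit 1) (.ev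
 (nat_lit 1216) (nat_lit 35184573415432) (.ev (nat_lit 1232) (nat_lit 8589934592) (.ev (nat_lit 1245) (nat_lit
 2048) .dd)))) (.br (nat_lit 5) (.ch (nat_lit 4) (.ev (nat_lit 1216) (nat_lit 35193163352072) .dd)) (.ch
 (nat_lit 5) (.ev (nat_lit 1216) (nat_lit 8589936640) (.ev (nat_lit 1284) (nat_lit 8) (.ev (nat_lit 1792)
 (nat_lit 67108864) (.ev (nat_lit 1824) (nat_lit 35184372088832) (.ev (nat_lit 1837) (nat_lit 134217728)
 .dd)))))))) (.br (nat_lit 9) (.br (nat_lit 8) (.ch (nat_lit 6) (.ev (nat_lit 1216) (nat_lit 35193163352072)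
 .dd)) (.ch (nat_lit 8) (.ev (nat_lit 1216) (nat_lit 8657045504) (.ev (nat_lit 1332) (nat_lit 134217728) (.ev
 (nat_lit 2656) (nat_lit 8) (.ev (nat_lit 2669) (nat_lit 35184372088832) .dd)))))) (.br (nat_lit 12) (.ch
 (nat_lit 9) (.ev (nat_lit 1216) (nat_lit 35193096243200) (.ev (nat_lit 2048) (nat_lit 67108864) (.ev (nat_lit
 2061) (nat_lit 8) .dd)))) (.ch (nat_lit 12) (.ev (nat_lit 1216) (nat_lit 8791263240) (.ev (nat_lit 1229)
 (nat_lit 35184372088832) .dd)))))))))))))) (.ch (nat_lit 42) (.ev (nat_lit 52) (nat_lit 283572257282) (.ev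
 (nat_lit 64) (nat_lit 105624117712908) .dd))))))))))

/-- The trie. -/
noncomputable def T : Tr := .nd (nat_lit 1000000) (.br (nat_lit 3) (.br (nat_lit 1) (.ch (nat_lit 0) (.ev
 (nat_lit 0) (nat_lit 140737488355327) .dd)) (.br (nat_lit 2) (.ch (nat_lit 1) (.ev (nat_lit 0) (nat_lit
 140737488355327) .dd)) (.ch (nat_lit 2) T2))) (.br (nat_lit 4) (.ch (nat_lit 3) (.ev (nat_lit 0) (nat_lit
 140737488355327) .dd)) (.br (nat_lit 5) (.ch (nat_lit 4) T4) (.ch (nat_lit 5) T5))))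

/-- The possible values. -/
noncomputable def oks : List ℕ := [3, 679, 706]

/-- The parameters. -/
noncomputable def S : Pr := ⟨fun i l e => lget mz (lget [] (lget [] tabs i) l) e, oks, [(nat_lit 0), (nat_lit
 1), (nat_lit 0), (nat_lit 0)], T, (nat_lit 140737488355327), (nat_lit 12800101590481), (nat_lit 47), [(nat_lit
 11), (nat_lit 3303796230157)], [(nat_lit 2197), (nat_lit 1849)]⟩

/-- Nothing known. -/
noncomputable def cs0 : Cs := (.cons (nat_lit 13) (nat_lit 0) (nat_lit 1) (.cons (nat_lit 43) (nat_lit 0) (nat_lit 1) .nil))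

theorem part_2 : part S cs0 (nat_lit 2) = true := by decide +kernel

theorem part_4 : part S cs0 (nat_lit 4) = true := by decide +kernel

theorem part_5 : part S cs0 (nat_lit 5) = true := by decide +kernel

/-- Data of a prime. -/
noncomputable def D0 : PD := ⟨(nat_lit 13), (nat_lit 3), (963, 6, 3), (1541, 898, 2148), (848, 1279, 820)⟩

theorem D0_ok : D0.Ok := pdb_sound (s := 2) (C := ⟨⟨3, 18, -4, -17, 2, 1, 2, -1, -7⟩, (3, 9, 2)⟩) (by show Nat.Prime 13; norm_num) (by decide +kernel)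

/-- Lines of the first type. -/
noncomputable def Cl0 : List C1 := [⟨⟨17, -2, -16, 3, 18, 1, -2, 1, -5⟩, (10, 1, 8)⟩,
  ⟨⟨3, -18, -4, -17, -2, 1, 2, 1, -7⟩, (5, 2, 12)⟩,
  ⟨⟨0, 0, 0, 0, 0, 0, 0, 0, 0⟩, (0, 0, 0)⟩,
  ⟨⟨17, 2, -16, 3, -18, 1, -2, -1, -5⟩, (8, 6, 9)⟩,
  ⟨⟨0, 0, 0, 0, 0, 0, 0, 0, 0⟩, (0, 0, 0)⟩,
  ⟨⟨0, 0, 0, 0, 0, 0, 0, 0, 0⟩, (0, 0, 0)⟩,
  ⟨⟨0, 0, 0, 0, 0, 0, 0, 0, 0⟩, (0, 0, 0)⟩,
  ⟨⟨0, 0, 0, 0, 0, 0, 0, 0, 0⟩, (0, 0, 0)⟩,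
  ⟨⟨0, 0, 0, 0, 0, 0, 0, 0, 0⟩, (0, 0, 0)⟩,
  ⟨⟨0, 0, 0, 0, 0, 0, 0, 0, 0⟩, (0, 0, 0)⟩,
  ⟨⟨0, 0, 0, 0, 0, 0, 0, 0, 0⟩, (0, 0, 0)⟩,
  ⟨⟨0, 0, 0, 0, 0, 0, 0, 0, 0⟩, (0, 0, 0)⟩,
  ⟨⟨0, 0, 0, 0, 0, 0, 0, 0, 0⟩, (0, 0, 0)⟩]

/-- Data of a prime. -/
noncomputable def D1 : PD := ⟨(nat_lit 43), (nat_lit 2), (989, 1, 17), (1652, 774, 636), (172, 5, 130)⟩

theorem D1_ok : D1.Ok := pdb_sound (s := 1) (C := ⟨⟨43, -38, -44, 43, 38, 1, 0, 9, -19⟩, (5, 38, 9)⟩) (by show Nat.Prime 43; norm_num) (by decide +kernel)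

/-- Lines of the first type. -/
noncomputable def Cl1 : List C1 := [⟨⟨43, 38, -44, 43, -38, 1, 0, -9, -19⟩, (42, 1, 24)⟩,
  ⟨⟨0, 0, 0, 0, 0, 0, 0, 0, 0⟩, (0, 0, 0)⟩,
  ⟨⟨57, -18, -16, -17, -58, 1, 4, 1, -23⟩, (41, 27, 24)⟩,
  ⟨⟨7, -38, -56, -33, -42, 49, -16, 7, -1⟩, (28, 40, 22)⟩,
  ⟨⟨0, 0, 0, 0, 0, 0, 0, 0, 0⟩, (0, 0, 0)⟩,
  ⟨⟨0, 0, 0, 0, 0, 0, 0, 0, 0⟩, (0, 0, 0)⟩,
  ⟨⟨0, 0, 0, 0, 0, 0, 0, 0, 0⟩, (0, 0, 0)⟩,
  ⟨⟨0, 0, 0, 0, 0, 0, 0, 0, 0⟩, (0, 0, 0)⟩,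
  ⟨⟨0, 0, 0, 0, 0, 0, 0, 0, 0⟩, (0, 0, 0)⟩,
  ⟨⟨0, 0, 0, 0, 0, 0, 0, 0, 0⟩, (0, 0, 0)⟩,
  ⟨⟨0, 0, 0, 0, 0, 0, 0, 0, 0⟩, (0, 0, 0)⟩,
  ⟨⟨27, -18, -71, -53, -22, 4, -4, 17, -7⟩, (6, 36, 23)⟩,
  ⟨⟨0, 0, 0, 0, 0, 0, 0, 0, 0⟩, (0, 0, 0)⟩,
  ⟨⟨0, 0, 0, 0, 0, 0, 0, 0, 0⟩, (0, 0, 0)⟩,
  ⟨⟨-7, -2, -64, -47, -38, 31, 12, -15, -7⟩, (37, 15, 41)⟩,
  ⟨⟨-7, 2, -64, -47, 38, 31, 12, 15, -7⟩, (3, 14, 1)⟩,
  ⟨⟨-7, 38, -49, 33, 42, 16, 16, -7, -17⟩, (27, 14, 12)⟩,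
  ⟨⟨0, 0, 0, 0, 0, 0, 0, 0, 0⟩, (0, 0, 0)⟩,
  ⟨⟨0, 0, 0, 0, 0, 0, 0, 0, 0⟩, (0, 0, 0)⟩,
  ⟨⟨57, 18, -16, -17, 58, 1, 4, -1, -23⟩, (36, 30, 41)⟩,
  ⟨⟨53, 22, -49, 27, -18, 44, 4, -17, -11⟩, (6, 42, 11)⟩,
  ⟨⟨0, 0, 0, 0, 0, 0, 0, 0, 0⟩, (0, 0, 0)⟩,
  ⟨⟨0, 0, 0, 0, 0, 0, 0, 0, 0⟩, (0, 0, 0)⟩,
  ⟨⟨27, 18, -71, -53, 22, 4, -4, -17, -7⟩, (1, 6, 11)⟩,
  ⟨⟨57, -18, -41, -17, -58, 16, -4, -1, -19⟩, (7, 13, 41)⟩,
  ⟨⟨0, 0, 0, 0, 0, 0, 0, 0, 0⟩, (0, 0, 0)⟩,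
  ⟨⟨0, 0, 0, 0, 0, 0, 0, 0, 0⟩, (0, 0, 0)⟩,
  ⟨⟨7, 38, -56, -33, 42, 49, -16, -7, -1⟩, (27, 14, 12)⟩,
  ⟨⟨7, 2, -71, -47, -38, 16, 12, -15, -5⟩, (3, 29, 42)⟩,
  ⟨⟨7, -2, -71, -47, 38, 16, 12, 15, -5⟩, (37, 28, 2)⟩,
  ⟨⟨0, 0, 0, 0, 0, 0, 0, 0, 0⟩, (0, 0, 0)⟩,
  ⟨⟨0, 0, 0, 0, 0, 0, 0, 0, 0⟩, (0, 0, 0)⟩,
  ⟨⟨53, -22, -49, 27, 18, 44, 4, 17, -11⟩, (36, 37, 23)⟩,
  ⟨⟨0, 0, 0, 0, 0, 0, 0, 0, 0⟩, (0, 0, 0)⟩,
  ⟨⟨0, 0, 0, 0, 0, 0, 0, 0, 0⟩, (0, 0, 0)⟩,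
  ⟨⟨0, 0, 0, 0, 0, 0, 0, 0, 0⟩, (0, 0, 0)⟩,
  ⟨⟨0, 0, 0, 0, 0, 0, 0, 0, 0⟩, (0, 0, 0)⟩,
  ⟨⟨0, 0, 0, 0, 0, 0, 0, 0, 0⟩, (0, 0, 0)⟩,
  ⟨⟨0, 0, 0, 0, 0, 0, 0, 0, 0⟩, (0, 0, 0)⟩,
  ⟨⟨0, 0, 0, 0, 0, 0, 0, 0, 0⟩, (0, 0, 0)⟩,
  ⟨⟨-7, -38, -49, 33, -42, 16, 16, 7, -17⟩, (28, 40, 22)⟩,
  ⟨⟨57, 18, -41, -17, 58, 16, -4, 1, -19⟩, (2, 16, 24)⟩,
  ⟨⟨0, 0, 0, 0, 0, 0, 0, 0, 0⟩, (0, 0, 0)⟩]

/-- Data of a prime. -/
noncomputable def Dm : PD := ⟨(nat_lit 47), (nat_lit 2), (1034, 1, 9), (105, 517, 2039), (987, 5, 190)⟩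

theorem Dm_ok : Dm.Ok := pdb_sound (s := 1) (C := ⟨⟨47, 2, -76, 47, -2, 29, 0, -21, -1⟩, (2, 45, 26)⟩) (by show Nat.Prime 47; norm_num) (by decide +kernel)

/-- Lines of the first type. -/
noncomputable def Clm : List C1 := [⟨⟨47, -2, -76, 47, 2, 29, 0, 21, -1⟩, (9, 38, 23)⟩,
  ⟨⟨0, 0, 0, 0, 0, 0, 0, 0, 0⟩, (0, 0, 0)⟩,
  ⟨⟨0, 0, 0, 0, 0, 0, 0, 0, 0⟩, (0, 0, 0)⟩,
  ⟨⟨0, 0, 0, 0, 0, 0, 0, 0, 0⟩, (0, 0, 0)⟩,
  ⟨⟨17, 22, -76, -63, 18, 19, -4, -19, -7⟩, (10, 21, 17)⟩,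
  ⟨⟨0, 0, 0, 0, 0, 0, 0, 0, 0⟩, (0, 0, 0)⟩,
  ⟨⟨57, -18, -61, -23, -62, 4, -8, 5, -17⟩, (3, 26, 7)⟩,
  ⟨⟨57, 18, -61, -23, 62, 4, -8, -5, -17⟩, (16, 29, 6)⟩,
  ⟨⟨53, -22, -64, -13, -62, 29, -12, -3, -13⟩, (46, 10, 2)⟩,
  ⟨⟨0, 0, 0, 0, 0, 0, 0, 0, 0⟩, (0, 0, 0)⟩,
  ⟨⟨43, -38, -59, 3, -42, 56, -16, -11, -1⟩, (35, 9, 46)⟩,
  ⟨⟨0, 0, 0, 0, 0, 0, 0, 0, 0⟩, (0, 0, 0)⟩,
  ⟨⟨0, 0, 0, 0, 0, 0, 0, 0, 0⟩, (0, 0, 0)⟩,
  ⟨⟨-17, -22, -59, -63, 18, 44, 4, 19, -11⟩, (15, 39, 2)⟩,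
  ⟨⟨0, 0, 0, 0, 0, 0, 0, 0, 0⟩, (0, 0, 0)⟩,
  ⟨⟨0, 0, 0, 0, 0, 0, 0, 0, 0⟩, (0, 0, 0)⟩,
  ⟨⟨0, 0, 0, 0, 0, 0, 0, 0, 0⟩, (0, 0, 0)⟩,
  ⟨⟨53, 22, -64, -13, 62, 29, -12, 3, -13⟩, (41, 13, 12)⟩,
  ⟨⟨0, 0, 0, 0, 0, 0, 0, 0, 0⟩, (0, 0, 0)⟩,
  ⟨⟨0, 0, 0, 0, 0, 0, 0, 0, 0⟩, (0, 0, 0)⟩,
  ⟨⟨0, 0, 0, 0, 0, 0, 0, 0, 0⟩, (0, 0, 0)⟩,
  ⟨⟨0, 0, 0, 0, 0, 0, 0, 0, 0⟩, (0, 0, 0)⟩,
  ⟨⟨0, 0, 0, 0, 0, 0, 0, 0, 0⟩, (0, 0, 0)⟩,
  ⟨⟨43, 38, -59, 3, 42, 56, -16, 11, -1⟩, (5, 8, 20)⟩,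
  ⟨⟨3, -42, -59, 43, -38, 16, 16, 11, -17⟩, (39, 42, 20)⟩,
  ⟨⟨0, 0, 0, 0, 0, 0, 0, 0, 0⟩, (0, 0, 0)⟩,
  ⟨⟨0, 0, 0, 0, 0, 0, 0, 0, 0⟩, (0, 0, 0)⟩,
  ⟨⟨0, 0, 0, 0, 0, 0, 0, 0, 0⟩, (0, 0, 0)⟩,
  ⟨⟨0, 0, 0, 0, 0, 0, 0, 0, 0⟩, (0, 0, 0)⟩,
  ⟨⟨0, 0, 0, 0, 0, 0, 0, 0, 0⟩, (0, 0, 0)⟩,
  ⟨⟨-13, -62, -16, 53, -22, 11, 12, 3, -25⟩, (34, 6, 12)⟩,
  ⟨⟨0, 0, 0, 0, 0, 0, 0, 0, 0⟩, (0, 0, 0)⟩,
  ⟨⟨0, 0, 0, 0, 0, 0, 0, 0, 0⟩, (0, 0, 0)⟩,
  ⟨⟨0, 0, 0, 0, 0, 0, 0, 0, 0⟩, (0, 0, 0)⟩,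
  ⟨⟨17, -22, -76, -63, -18, 19, -4, 19, -7⟩, (15, 8, 2)⟩,
  ⟨⟨0, 0, 0, 0, 0, 0, 0, 0, 0⟩, (0, 0, 0)⟩,
  ⟨⟨0, 0, 0, 0, 0, 0, 0, 0, 0⟩, (0, 0, 0)⟩,
  ⟨⟨3, 42, -59, 43, 38, 16, 16, -11, -17⟩, (38, 12, 46)⟩,
  ⟨⟨0, 0, 0, 0, 0, 0, 0, 0, 0⟩, (0, 0, 0)⟩,
  ⟨⟨-13, 62, -16, 53, 22, 11, 12, -3, -25⟩, (37, 1, 2)⟩,
  ⟨⟨23, 62, -19, 57, -18, 4, 8, -5, -25⟩, (29, 31, 6)⟩,
  ⟨⟨23, -62, -19, 57, 18, 4, 8, 5, -25⟩, (26, 44, 7)⟩,
  ⟨⟨0, 0, 0, 0, 0, 0, 0, 0, 0⟩, (0, 0, 0)⟩,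
  ⟨⟨-17, 22, -59, -63, -18, 44, 4, -19, -11⟩, (10, 26, 17)⟩,
  ⟨⟨0, 0, 0, 0, 0, 0, 0, 0, 0⟩, (0, 0, 0)⟩,
  ⟨⟨0, 0, 0, 0, 0, 0, 0, 0, 0⟩, (0, 0, 0)⟩,
  ⟨⟨0, 0, 0, 0, 0, 0, 0, 0, 0⟩, (0, 0, 0)⟩]

/-- Unit moves. -/
noncomputable def U : List Mv := [mz,
  mz,
  mz,
  mz,
  mz,
  mz,
  ⟨⟨-1, 0, 1, 0, 1, 0, 0, 0, 1⟩, .nil, (nat_lit 12), (nat_lit 1), (nat_lit 4), (nat_lit 1), (0, 0, 0), [], 5⟩,
  ⟨⟨1, 0, 0, 0, -1, 0, 0, 0, 1⟩, .nil, (nat_lit 12), (nat_lit 3), (nat_lit 12), (nat_lit 1), (0, 0, 0), [], 11⟩,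
  ⟨⟨-1, 0, 1, 0, -1, 0, 0, 0, 1⟩, .nil, (nat_lit 0), (nat_lit 3), (nat_lit 1), (nat_lit 0), (0, 0, 0), [], 10⟩,
  ⟨⟨1, 0, 0, 0, -1, 0, 0, 0, 1⟩, .nil, (nat_lit 12), (nat_lit 3), (nat_lit 12), (nat_lit 1), (0, 0, 0), [], 11⟩,
  ⟨⟨-1, 0, 1, 0, 1, 0, 0, 0, 1⟩, .nil, (nat_lit 12), (nat_lit 1), (nat_lit 4), (nat_lit 1), (0, 0, 0), [], 5⟩,
  ⟨⟨-1, 0, 1, 0, -1, 0, 0, 0, 1⟩, .nil, (nat_lit 0), (nat_lit 3), (nat_lit 1), (nat_lit 0), (0, 0, 0), [], 10⟩,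
  ⟨⟨1, 0, 0, 0, -1, 0, 0, 0, 1⟩, .nil, (nat_lit 12), (nat_lit 3), (nat_lit 12), (nat_lit 1), (0, 0, 0), [], 11⟩]

theorem v_ty : tyb Dm S.ty1 Clm = true := by decide +kernel

theorem v_ty0 : tyb D0 (S.tys.getD 0 0) Cl0 = true := by decide +kernel

theorem v_ty1 : tyb D1 (S.tys.getD 1 0) Cl1 = true := by decide +kernel

theorem v_msc : mscb S D0 [D1] Dm (nat_lit 52) = true := by decide +kernel

theorem v_mv0 : mvsn (nat_lit 8973516877) S D0 [D1] Dm (nat_lit 52) 0 D0 = true := by decide +kernel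

theorem v_mv1 : mvsn (nat_lit 8973516877) S D0 [D1] Dm (nat_lit 52) 1 D1 = true := by decide +kernel

theorem v_mm : mmsn (nat_lit 8973516877) S D0 [D1] Dm (nat_lit 52) = true := by decide +kernel

theorem v_un : unb S D0 (nat_lit 52) U = true := by decide +kernel

theorem v_ok : okb S.oks [(0, 0, 0), (0, 0, 0), (0, 0, 0)] = true := by decide +kernel

theorem v_part : ∀ d < D0.p, (nat_lit 52).testBit d = true → part S (zc (D0 :: [D1])) d = true := by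
  intro d hd h
  have h1 : ∀ d < 13, (nat_lit 52).testBit d = true → d = 2 ∨ d = 4 ∨ d = 5 := by decide
  rcases h1 d hd h with rfl | rfl | rfl
  · exact part_2
  · exact part_4
  · exact part_5

theorem main (n : ℕ) (ho : Odd n) (hr : ¬ Rep n) (h0 : Split 13 n) (h1 : Split 43 n) (hm : Split 47 n) :
    n ∈ EE := by
  refine concln (W := nat_lit 8973516877) (S := S) (P0 := D0) (Pl := [D1]) (Pm := Dm) (cn := nat_lit 52) ?_ Dm_ok v_ty ?_ ?_ v_msc ?_ v_mm v_un v_part v_ok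
    n ho hr ?_ hm
  · simp only [List.forall_mem_cons]
    exact ⟨D0_ok, D1_ok, fun _ h => absurd h (by simp)⟩
  · exact all2 (φ := fun j P => ∃ L, tyb P (S.tys.getD j 0) L = true) ⟨_, v_ty0⟩ ⟨_, v_ty1⟩
  · exact all2 (φ := fun j P => Nat.ble (S.pks.getD j 0) (Nat.pow P.p P.K) = true) (by decide +kernel) (by decide +kernel)
  · exact all2 (φ := fun i P => mvsn (nat_lit 8973516877) S D0 [D1] Dm (nat_lit 52) i P = true) v_mv0 v_mv1
  · simp only [List.forall_mem_cons]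
    exact ⟨h0, h1, fun _ h => absurd h (by simp)⟩

end Pool.Agent.Work.MP_9954fe_nt.P13_43_47

namespace Pool.Agent.Work.MP_9954fe_nt.P19_37_71

/-- Dummy move. -/
noncomputable def mz : Mv := ⟨⟨0, 0, 0, 0, 0, 0, 0, 0, 0⟩, .nil, (nat_lit 0), (nat_lit 0), (nat_lit 0), (nat_lit 0), (0, 0, 0), [], 0⟩

/-- Moves. -/
noncomputable def t0_1 : List Mv := [
  ⟨⟨15, -4, -23, -10, 9, -10, 12, 12, -7⟩, (.cons (nat_lit 177) (nat_lit 313) (nat_lit 238) (nat_lit 1) (.cons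
 (nat_lit 1001) (nat_lit 92) (nat_lit 1245) (nat_lit 1) .nil)), (nat_lit 20), (nat_lit 2), (nat_lit 9),
 (nat_lit 1), (18, 7, 3), [49, 303], 38⟩,
  ⟨⟨15, -4, -23, 10, -9, 10, 12, 12, -7⟩, (.cons (nat_lit 317) (nat_lit 293) (nat_lit 1) (nat_lit 190) (.cons
 (nat_lit 138) (nat_lit 1270) (nat_lit 370) (nat_lit 1) .nil)), (nat_lit 7), (nat_lit 21), (nat_lit 61),
 (nat_lit 1), (18, 12, 3), [350, 967], 66⟩,
  ⟨⟨15, -4, -23, -10, 9, -10, 12, 12, -7⟩, (.cons (nat_lit 177) (nat_lit 313) (nat_lit 238) (nat_lit 1) (.cons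
 (nat_lit 1001) (nat_lit 92) (nat_lit 1245) (nat_lit 1) .nil)), (nat_lit 20), (nat_lit 2), (nat_lit 9),
 (nat_lit 1), (18, 7, 3), [49, 303], 38⟩,
  ⟨⟨15, -4, -23, -10, 9, -10, 12, 12, -7⟩, (.cons (nat_lit 177) (nat_lit 313) (nat_lit 238) (nat_lit 1) (.cons
 (nat_lit 1001) (nat_lit 92) (nat_lit 1245) (nat_lit 1) .nil)), (nat_lit 20), (nat_lit 2), (nat_lit 9),
 (nat_lit 1), (18, 7, 3), [49, 303], 38⟩,
  ⟨⟨-3, 16, 16, 10, -9, 10, 12, 12, -7⟩, (.cons (nat_lit 235) (nat_lit 147) (nat_lit 254) (nat_lit 1) (.cons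
 (nat_lit 1368) (nat_lit 1315) (nat_lit 1069) (nat_lit 1) .nil)), (nat_lit 70), (nat_lit 63), (nat_lit 10),
 (nat_lit 1), (4, 12, 3), [80, 206], 10⟩,
  ⟨⟨15, -4, -23, -10, 9, -10, 12, 12, -7⟩, (.cons (nat_lit 177) (nat_lit 313) (nat_lit 238) (nat_lit 1) (.cons
 (nat_lit 1001) (nat_lit 92) (nat_lit 1245) (nat_lit 1) .nil)), (nat_lit 20), (nat_lit 2), (nat_lit 9),
 (nat_lit 1), (18, 7, 3), [49, 303], 38⟩,
  ⟨⟨15, -4, -23, 10, -9, 10, 12, 12, -7⟩, (.cons (nat_lit 317) (nat_lit 293) (nat_lit 1) (nat_lit 190) (.cons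
 (nat_lit 138) (nat_lit 1270) (nat_lit 370) (nat_lit 1) .nil)), (nat_lit 7), (nat_lit 21), (nat_lit 61),
 (nat_lit 1), (18, 12, 3), [350, 967], 66⟩,
  ⟨⟨-3, 16, 16, -10, 9, -10, 12, 12, -7⟩, (.cons (nat_lit 296) (nat_lit 76) (nat_lit 194) (nat_lit 1) (.cons (nat_lit 185) (nat_lit 807) (nat_lit 178) (nat_lit 1) .nil)), (nat_lit 11), (nat_lit 6), (nat_lit 24), (nat_lit 1), (4, 7, 3), [8, 80], 42⟩,
  ⟨⟨15, -4, -23, -10, 9, -10, 12, 12, -7⟩, (.cons (nat_lit 177) (nat_lit 313) (nat_lit 238) (nat_lit 1) (.cons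
 (nat_lit 1001) (nat_lit 92) (nat_lit 1245) (nat_lit 1) .nil)), (nat_lit 20), (nat_lit 2), (nat_lit 9),
 (nat_lit 1), (18, 7, 3), [49, 303], 38⟩,
  ⟨⟨15, -4, -23, -10, 9, -10, 12, 12, -7⟩, (.cons (nat_lit 177) (nat_lit 313) (nat_lit 238) (nat_lit 1) (.cons
 (nat_lit 1001) (nat_lit 92) (nat_lit 1245) (nat_lit 1) .nil)), (nat_lit 20), (nat_lit 2), (nat_lit 9),
 (nat_lit 1), (18, 7, 3), [49, 303], 38⟩,
  ⟨⟨15, -4, -23, -10, 9, -10, 12, 12, -7⟩, (.cons (nat_lit 177) (nat_lit 313) (nat_lit 238) (nat_lit 1) (.cons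
 (nat_lit 1001) (nat_lit 92) (nat_lit 1245) (nat_lit 1) .nil)), (nat_lit 20), (nat_lit 2), (nat_lit 9),
 (nat_lit 1), (18, 7, 3), [49, 303], 38⟩,
  ⟨⟨-3, 16, 16, -10, 9, -10, 12, 12, -7⟩, (.cons (nat_lit 296) (nat_lit 76) (nat_lit 194) (nat_lit 1) (.cons (nat_lit 185) (nat_lit 807) (nat_lit 178) (nat_lit 1) .nil)), (nat_lit 11), (nat_lit 6), (nat_lit 24), (nat_lit 1), (4, 7, 3), [8, 80], 42⟩,
  ⟨⟨15, -4, -23, 10, -9, 10, 12, 12, -7⟩, (.cons (nat_lit 317) (nat_lit 293) (nat_lit 1) (nat_lit 190) (.cons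
 (nat_lit 138) (nat_lit 1270) (nat_lit 370) (nat_lit 1) .nil)), (nat_lit 7), (nat_lit 21), (nat_lit 61),
 (nat_lit 1), (18, 12, 3), [350, 967], 66⟩,
  ⟨⟨15, -4, -23, -10, 9, -10, 12, 12, -7⟩, (.cons (nat_lit 177) (nat_lit 313) (nat_lit 238) (nat_lit 1) (.cons
 (nat_lit 1001) (nat_lit 92) (nat_lit 1245) (nat_lit 1) .nil)), (nat_lit 20), (nat_lit 2), (nat_lit 9),
 (nat_lit 1), (18, 7, 3), [49, 303], 38⟩,
  ⟨⟨15, -4, -23, -10, 9, -10, 12, 12, -7⟩, (.cons (nat_lit 177) (nat_lit 313) (nat_lit 238) (nat_lit 1) (.cons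
 (nat_lit 1001) (nat_lit 92) (nat_lit 1245) (nat_lit 1) .nil)), (nat_lit 20), (nat_lit 2), (nat_lit 9),
 (nat_lit 1), (18, 7, 3), [49, 303], 38⟩,
  ⟨⟨-3, 16, 16, -10, 9, -10, 12, 12, -7⟩, (.cons (nat_lit 296) (nat_lit 76) (nat_lit 194) (nat_lit 1) (.cons (nat_lit 185) (nat_lit 807) (nat_lit 178) (nat_lit 1) .nil)), (nat_lit 11), (nat_lit 6), (nat_lit 24), (nat_lit 1), (4, 7, 3), [8, 80], 42⟩,
  ⟨⟨15, -4, -23, -10, 9, -10, 12, 12, -7⟩, (.cons (nat_lit 177) (nat_lit 313) (nat_lit 238) (nat_lit 1) (.cons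
 (nat_lit 1001) (nat_lit 92) (nat_lit 1245) (nat_lit 1) .nil)), (nat_lit 20), (nat_lit 2), (nat_lit 9),
 (nat_lit 1), (18, 7, 3), [49, 303], 38⟩,
  ⟨⟨15, -4, -23, -10, 9, -10, 12, 12, -7⟩, (.cons (nat_lit 177) (nat_lit 313) (nat_lit 238) (nat_lit 1) (.cons
 (nat_lit 1001) (nat_lit 92) (nat_lit 1245) (nat_lit 1) .nil)), (nat_lit 20), (nat_lit 2), (nat_lit 9),
 (nat_lit 1), (18, 7, 3), [49, 303], 38⟩,
  ⟨⟨-3, 16, 16, 10, -9, 10, 12, 12, -7⟩, (.cons (nat_lit 235) (nat_lit 147) (nat_lit 254) (nat_lit 1) (.cons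
 (nat_lit 1368) (nat_lit 1315) (nat_lit 1069) (nat_lit 1) .nil)), (nat_lit 70), (nat_lit 63), (nat_lit 10),
 (nat_lit 1), (4, 12, 3), [80, 206], 10⟩]

/-- Moves. -/
noncomputable def t0_2 : List Mv := [
  ⟨⟨-11, 12, 20, 16, 5, 2, -2, 16, -5⟩, (.cons (nat_lit 131) (nat_lit 154) (nat_lit 242) (nat_lit 1) (.cons
 (nat_lit 106) (nat_lit 719) (nat_lit 698) (nat_lit 1) .nil)), (nat_lit 39), (nat_lit 5), (nat_lit 43),
 (nat_lit 1), (15, 11, 1), [46, 352], 64⟩,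
  ⟨⟨9, 4, -25, -16, -5, -2, -2, 16, -5⟩, (.cons (nat_lit 274) (nat_lit 291) (nat_lit 265) (nat_lit 1) (.cons
 (nat_lit 165) (nat_lit 522) (nat_lit 2) (nat_lit 1) .nil)), (nat_lit 47), (nat_lit 11), (nat_lit 22), (nat_lit
 1), (5, 8, 1), [52, 1096], 58⟩,
  ⟨⟨9, 4, -25, 16, 5, 2, -2, 16, -5⟩, (.cons (nat_lit 314) (nat_lit 176) (nat_lit 235) (nat_lit 1) (.cons
 (nat_lit 1206) (nat_lit 486) (nat_lit 701) (nat_lit 1) .nil)), (nat_lit 57), (nat_lit 67), (nat_lit 11),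
 (nat_lit 1), (5, 11, 1), [253, 761], 69⟩,
  ⟨⟨9, 4, -25, -16, -5, -2, -2, 16, -5⟩, (.cons (nat_lit 274) (nat_lit 291) (nat_lit 265) (nat_lit 1) (.cons
 (nat_lit 165) (nat_lit 522) (nat_lit 2) (nat_lit 1) .nil)), (nat_lit 47), (nat_lit 11), (nat_lit 22), (nat_lit
 1), (5, 8, 1), [52, 1096], 58⟩,
  ⟨⟨9, 4, -25, -16, -5, -2, -2, 16, -5⟩, (.cons (nat_lit 274) (nat_lit 291) (nat_lit 265) (nat_lit 1) (.cons
 (nat_lit 165) (nat_lit 522) (nat_lit 2) (nat_lit 1) .nil)), (nat_lit 47), (nat_lit 11), (nat_lit 22), (nat_lit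
 1), (5, 8, 1), [52, 1096], 58⟩,
  ⟨⟨9, 4, -25, 16, 5, 2, -2, 16, -5⟩, (.cons (nat_lit 314) (nat_lit 176) (nat_lit 235) (nat_lit 1) (.cons
 (nat_lit 1206) (nat_lit 486) (nat_lit 701) (nat_lit 1) .nil)), (nat_lit 57), (nat_lit 67), (nat_lit 11),
 (nat_lit 1), (5, 11, 1), [253, 761], 69⟩,
  ⟨⟨-11, 12, 20, 16, 5, 2, -2, 16, -5⟩, (.cons (nat_lit 131) (nat_lit 154) (nat_lit 242) (nat_lit 1) (.cons
 (nat_lit 106) (nat_lit 719) (nat_lit 698) (nat_lit 1) .nil)), (nat_lit 39), (nat_lit 5), (nat_lit 43),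
 (nat_lit 1), (15, 11, 1), [46, 352], 64⟩,
  ⟨⟨-11, 12, 20, -16, -5, -2, -2, 16, -5⟩, (.cons (nat_lit 108) (nat_lit 314) (nat_lit 59) (nat_lit 1) (.cons
 (nat_lit 1262) (nat_lit 331) (nat_lit 922) (nat_lit 1) .nil)), (nat_lit 44), (nat_lit 4), (nat_lit 39),
 (nat_lit 1), (15, 8, 1), [7, 38], 69⟩,
  ⟨⟨9, 4, -25, -16, -5, -2, -2, 16, -5⟩, (.cons (nat_lit 274) (nat_lit 291) (nat_lit 265) (nat_lit 1) (.cons
 (nat_lit 165) (nat_lit 522) (nat_lit 2) (nat_lit 1) .nil)), (nat_lit 47), (nat_lit 11), (nat_lit 22), (nat_lit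
 1), (5, 8, 1), [52, 1096], 58⟩,
  ⟨⟨9, 4, -25, -16, -5, -2, -2, 16, -5⟩, (.cons (nat_lit 274) (nat_lit 291) (nat_lit 265) (nat_lit 1) (.cons
 (nat_lit 165) (nat_lit 522) (nat_lit 2) (nat_lit 1) .nil)), (nat_lit 47), (nat_lit 11), (nat_lit 22), (nat_lit
 1), (5, 8, 1), [52, 1096], 58⟩,
  ⟨⟨9, 4, -25, -16, -5, -2, -2, 16, -5⟩, (.cons (nat_lit 274) (nat_lit 291) (nat_lit 265) (nat_lit 1) (.cons
 (nat_lit 165) (nat_lit 522) (nat_lit 2) (nat_lit 1) .nil)), (nat_lit 47), (nat_lit 11), (nat_lit 22), (nat_lit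
 1), (5, 8, 1), [52, 1096], 58⟩,
  ⟨⟨9, 4, -25, -16, -5, -2, -2, 16, -5⟩, (.cons (nat_lit 274) (nat_lit 291) (nat_lit 265) (nat_lit 1) (.cons
 (nat_lit 165) (nat_lit 522) (nat_lit 2) (nat_lit 1) .nil)), (nat_lit 47), (nat_lit 11), (nat_lit 22), (nat_lit
 1), (5, 8, 1), [52, 1096], 58⟩,
  ⟨⟨9, 4, -25, -16, -5, -2, -2, 16, -5⟩, (.cons (nat_lit 274) (nat_lit 291) (nat_lit 265) (nat_lit 1) (.cons
 (nat_lit 165) (nat_lit 522) (nat_lit 2) (nat_lit 1) .nil)), (nat_lit 47), (nat_lit 11), (nat_lit 22), (nat_lit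
 1), (5, 8, 1), [52, 1096], 58⟩,
  ⟨⟨-11, 12, 20, -16, -5, -2, -2, 16, -5⟩, (.cons (nat_lit 108) (nat_lit 314) (nat_lit 59) (nat_lit 1) (.cons
 (nat_lit 1262) (nat_lit 331) (nat_lit 922) (nat_lit 1) .nil)), (nat_lit 44), (nat_lit 4), (nat_lit 39),
 (nat_lit 1), (15, 8, 1), [7, 38], 69⟩,
  ⟨⟨9, 4, -25, -16, -5, -2, -2, 16, -5⟩, (.cons (nat_lit 274) (nat_lit 291) (nat_lit 265) (nat_lit 1) (.cons
 (nat_lit 165) (nat_lit 522) (nat_lit 2) (nat_lit 1) .nil)), (nat_lit 47), (nat_lit 11), (nat_lit 22), (nat_lit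
 1), (5, 8, 1), [52, 1096], 58⟩,
  ⟨⟨9, 4, -25, 16, 5, 2, -2, 16, -5⟩, (.cons (nat_lit 314) (nat_lit 176) (nat_lit 235) (nat_lit 1) (.cons
 (nat_lit 1206) (nat_lit 486) (nat_lit 701) (nat_lit 1) .nil)), (nat_lit 57), (nat_lit 67), (nat_lit 11),
 (nat_lit 1), (5, 11, 1), [253, 761], 69⟩,
  ⟨⟨-11, 12, 20, -16, -5, -2, -2, 16, -5⟩, (.cons (nat_lit 108) (nat_lit 314) (nat_lit 59) (nat_lit 1) (.cons
 (nat_lit 1262) (nat_lit 331) (nat_lit 922) (nat_lit 1) .nil)), (nat_lit 44), (nat_lit 4), (nat_lit 39),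
 (nat_lit 1), (15, 8, 1), [7, 38], 69⟩,
  ⟨⟨9, 4, -25, -16, -5, -2, -2, 16, -5⟩, (.cons (nat_lit 274) (nat_lit 291) (nat_lit 265) (nat_lit 1) (.cons
 (nat_lit 165) (nat_lit 522) (nat_lit 2) (nat_lit 1) .nil)), (nat_lit 47), (nat_lit 11), (nat_lit 22), (nat_lit
 1), (5, 8, 1), [52, 1096], 58⟩,
  ⟨⟨9, 4, -25, -16, -5, -2, -2, 16, -5⟩, (.cons (nat_lit 274) (nat_lit 291) (nat_lit 265) (nat_lit 1) (.cons
 (nat_lit 165) (nat_lit 522) (nat_lit 2) (nat_lit 1) .nil)), (nat_lit 47), (nat_lit 11), (nat_lit 22), (nat_lit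
 1), (5, 8, 1), [52, 1096], 58⟩]

/-- Moves. -/
noncomputable def t0_8 : List Mv := [
  ⟨⟨17, -12, -9, -4, -5, -18, 14, 8, -13⟩, (.cons (nat_lit 67) (nat_lit 114) (nat_lit 350) (nat_lit 1) (.cons
 (nat_lit 239) (nat_lit 205) (nat_lit 733) (nat_lit 1) .nil)), (nat_lit 47), (nat_lit 68), (nat_lit 14),
 (nat_lit 1), (9, 18, 13), [238, 1133], 58⟩,
  ⟨⟨17, -12, -9, -4, -5, -18, 14, 8, -13⟩, (.cons (nat_lit 67) (nat_lit 114) (nat_lit 350) (nat_lit 1) (.cons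
 (nat_lit 239) (nat_lit 205) (nat_lit 733) (nat_lit 1) .nil)), (nat_lit 47), (nat_lit 68), (nat_lit 14),
 (nat_lit 1), (9, 18, 13), [238, 1133], 58⟩,
  ⟨⟨17, -12, -9, -4, -5, -18, 14, 8, -13⟩, (.cons (nat_lit 67) (nat_lit 114) (nat_lit 350) (nat_lit 1) (.cons
 (nat_lit 239) (nat_lit 205) (nat_lit 733) (nat_lit 1) .nil)), (nat_lit 47), (nat_lit 68), (nat_lit 14),
 (nat_lit 1), (9, 18, 13), [238, 1133], 58⟩,
  ⟨⟨-3, 20, -4, -4, -5, -18, 14, 8, -13⟩, (.cons (nat_lit 100) (nat_lit 351) (nat_lit 181) (nat_lit 1) (.cons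
 (nat_lit 606) (nat_lit 752) (nat_lit 681) (nat_lit 1) .nil)), (nat_lit 5), (nat_lit 64), (nat_lit 21),
 (nat_lit 1), (4, 18, 13), [256, 83], 23⟩,
  ⟨⟨-3, 20, -4, 4, 5, 18, 14, 8, -13⟩, (.cons (nat_lit 78) (nat_lit 138) (nat_lit 1) (nat_lit 285) (.cons (nat_lit 762) (nat_lit 1091) (nat_lit 665) (nat_lit 1) .nil)), (nat_lit 51), (nat_lit 29), (nat_lit 8), (nat_lit 1), (4, 1, 13), [71, 464], 40⟩,
  ⟨⟨17, -12, -9, -4, -5, -18, 14, 8, -13⟩, (.cons (nat_lit 67) (nat_lit 114) (nat_lit 350) (nat_lit 1) (.cons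
 (nat_lit 239) (nat_lit 205) (nat_lit 733) (nat_lit 1) .nil)), (nat_lit 47), (nat_lit 68), (nat_lit 14),
 (nat_lit 1), (9, 18, 13), [238, 1133], 58⟩,
  ⟨⟨17, -12, -9, -4, -5, -18, 14, 8, -13⟩, (.cons (nat_lit 67) (nat_lit 114) (nat_lit 350) (nat_lit 1) (.cons
 (nat_lit 239) (nat_lit 205) (nat_lit 733) (nat_lit 1) .nil)), (nat_lit 47), (nat_lit 68), (nat_lit 14),
 (nat_lit 1), (9, 18, 13), [238, 1133], 58⟩,
  ⟨⟨17, -12, -9, -4, -5, -18, 14, 8, -13⟩, (.cons (nat_lit 67) (nat_lit 114) (nat_lit 350) (nat_lit 1) (.cons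
 (nat_lit 239) (nat_lit 205) (nat_lit 733) (nat_lit 1) .nil)), (nat_lit 47), (nat_lit 68), (nat_lit 14),
 (nat_lit 1), (9, 18, 13), [238, 1133], 58⟩,
  ⟨⟨17, -12, -9, 4, 5, 18, 14, 8, -13⟩, (.cons (nat_lit 273) (nat_lit 128) (nat_lit 294) (nat_lit 1) (.cons
 (nat_lit 376) (nat_lit 733) (nat_lit 661) (nat_lit 1) .nil)), (nat_lit 48), (nat_lit 53), (nat_lit 50),
 (nat_lit 1), (9, 1, 13), [176, 292], 22⟩,
  ⟨⟨17, -12, -9, -4, -5, -18, 14, 8, -13⟩, (.cons (nat_lit 67) (nat_lit 114) (nat_lit 350) (nat_lit 1) (.cons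
 (nat_lit 239) (nat_lit 205) (nat_lit 733) (nat_lit 1) .nil)), (nat_lit 47), (nat_lit 68), (nat_lit 14),
 (nat_lit 1), (9, 18, 13), [238, 1133], 58⟩,
  ⟨⟨17, -12, -9, -4, -5, -18, 14, 8, -13⟩, (.cons (nat_lit 67) (nat_lit 114) (nat_lit 350) (nat_lit 1) (.cons
 (nat_lit 239) (nat_lit 205) (nat_lit 733) (nat_lit 1) .nil)), (nat_lit 47), (nat_lit 68), (nat_lit 14),
 (nat_lit 1), (9, 18, 13), [238, 1133], 58⟩,
  ⟨⟨17, -12, -9, -4, -5, -18, 14, 8, -13⟩, (.cons (nat_lit 67) (nat_lit 114) (nat_lit 350) (nat_lit 1) (.cons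
 (nat_lit 239) (nat_lit 205) (nat_lit 733) (nat_lit 1) .nil)), (nat_lit 47), (nat_lit 68), (nat_lit 14),
 (nat_lit 1), (9, 18, 13), [238, 1133], 58⟩,
  ⟨⟨17, -12, -9, -4, -5, -18, 14, 8, -13⟩, (.cons (nat_lit 67) (nat_lit 114) (nat_lit 350) (nat_lit 1) (.cons
 (nat_lit 239) (nat_lit 205) (nat_lit 733) (nat_lit 1) .nil)), (nat_lit 47), (nat_lit 68), (nat_lit 14),
 (nat_lit 1), (9, 18, 13), [238, 1133], 58⟩,
  ⟨⟨-3, 20, -4, -4, -5, -18, 14, 8, -13⟩, (.cons (nat_lit 100) (nat_lit 351) (nat_lit 181) (nat_lit 1) (.cons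
 (nat_lit 606) (nat_lit 752) (nat_lit 681) (nat_lit 1) .nil)), (nat_lit 5), (nat_lit 64), (nat_lit 21),
 (nat_lit 1), (4, 18, 13), [256, 83], 23⟩,
  ⟨⟨-3, 20, -4, 4, 5, 18, 14, 8, -13⟩, (.cons (nat_lit 78) (nat_lit 138) (nat_lit 1) (nat_lit 285) (.cons (nat_lit 762) (nat_lit 1091) (nat_lit 665) (nat_lit 1) .nil)), (nat_lit 51), (nat_lit 29), (nat_lit 8), (nat_lit 1), (4, 1, 13), [71, 464], 40⟩,
  ⟨⟨17, -12, -9, 4, 5, 18, 14, 8, -13⟩, (.cons (nat_lit 273) (nat_lit 128) (nat_lit 294) (nat_lit 1) (.cons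
 (nat_lit 376) (nat_lit 733) (nat_lit 661) (nat_lit 1) .nil)), (nat_lit 48), (nat_lit 53), (nat_lit 50),
 (nat_lit 1), (9, 1, 13), [176, 292], 22⟩,
  ⟨⟨17, -12, -9, 4, 5, 18, 14, 8, -13⟩, (.cons (nat_lit 273) (nat_lit 128) (nat_lit 294) (nat_lit 1) (.cons
 (nat_lit 376) (nat_lit 733) (nat_lit 661) (nat_lit 1) .nil)), (nat_lit 48), (nat_lit 53), (nat_lit 50),
 (nat_lit 1), (9, 1, 13), [176, 292], 22⟩,
  ⟨⟨17, -12, -9, -4, -5, -18, 14, 8, -13⟩, (.cons (nat_lit 67) (nat_lit 114) (nat_lit 350) (nat_lit 1) (.cons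
 (nat_lit 239) (nat_lit 205) (nat_lit 733) (nat_lit 1) .nil)), (nat_lit 47), (nat_lit 68), (nat_lit 14),
 (nat_lit 1), (9, 18, 13), [238, 1133], 58⟩,
  ⟨⟨-3, 20, -4, -4, -5, -18, 14, 8, -13⟩, (.cons (nat_lit 100) (nat_lit 351) (nat_lit 181) (nat_lit 1) (.cons
 (nat_lit 606) (nat_lit 752) (nat_lit 681) (nat_lit 1) .nil)), (nat_lit 5), (nat_lit 64), (nat_lit 21),
 (nat_lit 1), (4, 18, 13), [256, 83], 23⟩]

/-- Moves. -/
noncomputable def t1_1 : List Mv := [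
  mz,
  ⟨⟨3, -16, -43, 10, 33, -20, 30, -12, -23⟩, (.cons (nat_lit 54) (nat_lit 192) (nat_lit 328) (nat_lit 1) (.cons
 (nat_lit 1309) (nat_lit 52) (nat_lit 1287) (nat_lit 1) .nil)), (nat_lit 61), (nat_lit 22), (nat_lit 36),
 (nat_lit 1), (25, 34, 28), [336, 97], 4⟩,
  mz,
  mz,
  ⟨⟨21, 4, 28, 8, 35, -14, 32, -8, -19⟩, (.cons (nat_lit 360) (nat_lit 134) (nat_lit 270) (nat_lit 1) (.cons
 (nat_lit 347) (nat_lit 876) (nat_lit 96) (nat_lit 1) .nil)), (nat_lit 70), (nat_lit 60), (nat_lit 36),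
 (nat_lit 1), (33, 2, 8), [109, 240], 11⟩,
  ⟨⟨11, 12, -47, 8, -35, -14, 32, 8, -19⟩, (.cons (nat_lit 258) (nat_lit 337) (nat_lit 192) (nat_lit 1) (.cons
 (nat_lit 1279) (nat_lit 1018) (nat_lit 267) (nat_lit 1) .nil)), (nat_lit 10), (nat_lit 43), (nat_lit 16),
 (nat_lit 1), (29, 11, 7), [97, 834], 23⟩,
  mz,
  ⟨⟨-17, 36, 17, -30, -17, 30, -18, 12, -19⟩, (.cons (nat_lit 138) (nat_lit 330) (nat_lit 181) (nat_lit 1)
 (.cons (nat_lit 1328) (nat_lit 464) (nat_lit 226) (nat_lit 1) .nil)), (nat_lit 29), (nat_lit 47), (nat_lit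
 29), (nat_lit 1), (36, 20, 12), [277, 861], 13⟩,
  ⟨⟨-35, 12, -1, 12, 35, -6, 0, 0, -37⟩, (.cons (nat_lit 360) (nat_lit 57) (nat_lit 171) (nat_lit 1) (.cons
 (nat_lit 623) (nat_lit 672) (nat_lit 767) (nat_lit 1) .nil)), (nat_lit 70), (nat_lit 26), (nat_lit 46),
 (nat_lit 1), (3, 18, 0), [324, 1312], 15⟩,
  mz,
  ⟨⟨-1, 24, -36, 30, -17, -30, -18, -12, -19⟩, (.cons (nat_lit 360) (nat_lit 58) (nat_lit 237) (nat_lit 1)
 (.cons (nat_lit 915) (nat_lit 1216) (nat_lit 369) (nat_lit 1) .nil)), (nat_lit 70), (nat_lit 70), (nat_lit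
 39), (nat_lit 1), (10, 33, 32), [10, 1243], 57⟩,
  ⟨⟨3, 16, -43, -10, 33, 20, 30, 12, -23⟩, (.cons (nat_lit 301) (nat_lit 225) (nat_lit 79) (nat_lit 1) (.cons
 (nat_lit 1134) (nat_lit 1215) (nat_lit 893) (nat_lit 1) .nil)), (nat_lit 61), (nat_lit 8), (nat_lit 28),
 (nat_lit 1), (23, 22, 8), [13, 387], 4⟩,
  ⟨⟨39, -4, -8, 10, 17, -40, 14, -28, -19⟩, (.cons (nat_lit 360) (nat_lit 177) (nat_lit 5) (nat_lit 1) (.cons
 (nat_lit 1035) (nat_lit 1264) (nat_lit 1002) (nat_lit 1) .nil)), (nat_lit 70), (nat_lit 46), (nat_lit 2),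
 (nat_lit 1), (11, 18, 3), [292, 537], 33⟩,
  ⟨⟨39, 8, -28, 8, -5, 36, 8, 32, -1⟩, (.cons (nat_lit 124) (nat_lit 255) (nat_lit 350) (nat_lit 1) (.cons
 (nat_lit 1097) (nat_lit 599) (nat_lit 576) (nat_lit 1) .nil)), (nat_lit 45), (nat_lit 69), (nat_lit 37),
 (nat_lit 1), (21, 10, 10), [288, 308], 70⟩,
  mz,
  ⟨⟨-13, -24, -27, 32, 5, -36, -16, 16, -19⟩, (.cons (nat_lit 271) (nat_lit 300) (nat_lit 28) (nat_lit 1)
 (.cons (nat_lit 35) (nat_lit 545) (nat_lit 56) (nat_lit 1) .nil)), (nat_lit 64), (nat_lit 69), (nat_lit 25),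
 (nat_lit 1), (6, 8, 33), [60, 367], 42⟩,
  ⟨⟨21, 4, -49, -8, -35, -6, 32, -8, -13⟩, (.cons (nat_lit 52) (nat_lit 285) (nat_lit 297) (nat_lit 1) (.cons
 (nat_lit 778) (nat_lit 427) (nat_lit 940) (nat_lit 1) .nil)), (nat_lit 28), (nat_lit 39), (nat_lit 45),
 (nat_lit 1), (36, 18, 2), [71, 854], 70⟩,
  ⟨⟨39, -8, -11, -8, -5, 44, 8, -32, -7⟩, (.cons (nat_lit 107) (nat_lit 194) (nat_lit 197) (nat_lit 1) (.cons
 (nat_lit 768) (nat_lit 1189) (nat_lit 933) (nat_lit 1) .nil)), (nat_lit 12), (nat_lit 66), (nat_lit 36),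
 (nat_lit 1), (5, 17, 20), [320, 321], 4⟩,
  ⟨⟨39, 4, -8, -10, 17, 40, 14, 28, -19⟩, (.cons (nat_lit 360) (nat_lit 259) (nat_lit 150) (nat_lit 1) (.cons
 (nat_lit 865) (nat_lit 517) (nat_lit 1267) (nat_lit 1) .nil)), (nat_lit 70), (nat_lit 32), (nat_lit 45),
 (nat_lit 1), (29, 3, 18), [346, 1161], 67⟩,
  ⟨⟨39, -8, -28, -8, -5, -36, 8, -32, -1⟩, (.cons (nat_lit 314) (nat_lit 360) (nat_lit 126) (nat_lit 1) (.cons
 (nat_lit 713) (nat_lit 1078) (nat_lit 357) (nat_lit 1) .nil)), (nat_lit 45), (nat_lit 24), (nat_lit 62),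
 (nat_lit 1), (22, 23, 14), [326, 813], 70⟩,
  ⟨⟨-39, -4, 31, -10, 17, -30, -14, -28, -5⟩, (.cons (nat_lit 319) (nat_lit 59) (nat_lit 45) (nat_lit 1) (.cons
 (nat_lit 603) (nat_lit 1052) (nat_lit 189) (nat_lit 1) .nil)), (nat_lit 20), (nat_lit 45), (nat_lit 0),
 (nat_lit 1), (22, 36, 6), [208, 280], 30⟩,
  ⟨⟨13, -24, -40, -32, 5, -4, 16, 16, -35⟩, (.cons (nat_lit 120) (nat_lit 124) (nat_lit 15) (nat_lit 1) (.cons
 (nat_lit 262) (nat_lit 1141) (nat_lit 989) (nat_lit 1) .nil)), (nat_lit 25), (nat_lit 10), (nat_lit 45),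
 (nat_lit 1), (27, 36, 19), [239, 1238], 37⟩,
  ⟨⟨39, 8, -11, 8, -5, -44, 8, 32, -7⟩, (.cons (nat_lit 27) (nat_lit 177) (nat_lit 96) (nat_lit 1) (.cons (nat_lit 878) (nat_lit 1045) (nat_lit 389) (nat_lit 1) .nil)), (nat_lit 6), (nat_lit 30), (nat_lit 68), (nat_lit 1), (4, 16, 16), [74, 966], 2⟩,
  mz,
  ⟨⟨13, 24, -40, -32, -5, -4, 16, -16, -35⟩, (.cons (nat_lit 311) (nat_lit 123) (nat_lit 41) (nat_lit 1) (.cons
 (nat_lit 1050) (nat_lit 506) (nat_lit 422) (nat_lit 1) .nil)), (nat_lit 60), (nat_lit 48), (nat_lit 41),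
 (nat_lit 1), (24, 32, 21), [360, 287], 22⟩,
  ⟨⟨1, 24, -37, 30, 17, 0, 18, -12, -37⟩, (.cons (nat_lit 321) (nat_lit 215) (nat_lit 332) (nat_lit 1) (.cons
 (nat_lit 152) (nat_lit 853) (nat_lit 212) (nat_lit 1) .nil)), (nat_lit 2), (nat_lit 34), (nat_lit 11),
 (nat_lit 1), (23, 24, 7), [341, 24], 10⟩,
  ⟨⟨3, 16, 40, -10, 33, -10, 30, 12, -7⟩, (.cons (nat_lit 49) (nat_lit 94) (nat_lit 275) (nat_lit 1) (.cons
 (nat_lit 577) (nat_lit 1227) (nat_lit 316) (nat_lit 1) .nil)), (nat_lit 19), (nat_lit 25), (nat_lit 29),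
 (nat_lit 1), (14, 15, 29), [153, 1097], 65⟩,
  ⟨⟨3, -16, 40, 10, 33, 10, 30, -12, -7⟩, (.cons (nat_lit 140) (nat_lit 197) (nat_lit 127) (nat_lit 1) (.cons
 (nat_lit 1152) (nat_lit 621) (nat_lit 864) (nat_lit 1) .nil)), (nat_lit 15), (nat_lit 51), (nat_lit 62),
 (nat_lit 1), (16, 4, 12), [334, 113], 70⟩,
  mz,
  ⟨⟨-35, -12, -1, 12, -35, -6, 0, 0, -37⟩, (.cons (nat_lit 248) (nat_lit 176) (nat_lit 211) (nat_lit 1) (.cons
 (nat_lit 99) (nat_lit 393) (nat_lit 720) (nat_lit 1) .nil)), (nat_lit 1), (nat_lit 23), (nat_lit 3), (nat_lit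
 1), (23, 27, 0), [276, 847], 31⟩,
  ⟨⟨-39, 4, 31, -10, -17, -30, -14, 28, -5⟩, (.cons (nat_lit 268) (nat_lit 167) (nat_lit 317) (nat_lit 1)
 (.cons (nat_lit 105) (nat_lit 287) (nat_lit 18) (nat_lit 1) .nil)), (nat_lit 3), (nat_lit 35), (nat_lit 51),
 (nat_lit 1), (3, 15, 21), [149, 954], 46⟩,
  mz,
  mz,
  ⟨⟨-3, -40, 8, -32, 5, 36, -16, -16, -19⟩, (.cons (nat_lit 358) (nat_lit 11) (nat_lit 45) (nat_lit 1) (.cons
 (nat_lit 537) (nat_lit 616) (nat_lit 903) (nat_lit 1) .nil)), (nat_lit 54), (nat_lit 28), (nat_lit 55),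
 (nat_lit 1), (32, 33, 35), [346, 103], 43⟩,
  mz,
  ⟨⟨21, -4, -49, -8, 35, -6, 32, 8, -13⟩, (.cons (nat_lit 7) (nat_lit 168) (nat_lit 100) (nat_lit 1) (.cons
 (nat_lit 1285) (nat_lit 416) (nat_lit 1145) (nat_lit 1) .nil)), (nat_lit 64), (nat_lit 17), (nat_lit 41),
 (nat_lit 1), (18, 9, 1), [301, 8], 9⟩,
  ⟨⟨17, 36, 0, 30, -17, 0, 18, 12, -37⟩, (.cons (nat_lit 360) (nat_lit 139) (nat_lit 353) (nat_lit 1) (.cons
 (nat_lit 927) (nat_lit 402) (nat_lit 331) (nat_lit 1) .nil)), (nat_lit 70), (nat_lit 56), (nat_lit 31),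
 (nat_lit 1), (35, 3, 24), [314, 658], 57⟩]

/-- Moves. -/
noncomputable def t1_2 : List Mv := [
  mz,
  ⟨⟨3, -16, -43, -10, -33, 20, 30, -12, -23⟩, (.cons (nat_lit 83) (nat_lit 10) (nat_lit 72) (nat_lit 1) (.cons
 (nat_lit 1206) (nat_lit 773) (nat_lit 1241) (nat_lit 1) .nil)), (nat_lit 17), (nat_lit 70), (nat_lit 31),
 (nat_lit 1), (25, 3, 28), [104, 1156], 70⟩,
  mz,
  mz,
  ⟨⟨21, 4, 28, 8, 35, -14, 32, -8, -19⟩, (.cons (nat_lit 360) (nat_lit 134) (nat_lit 270) (nat_lit 1) (.cons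
 (nat_lit 347) (nat_lit 876) (nat_lit 96) (nat_lit 1) .nil)), (nat_lit 70), (nat_lit 60), (nat_lit 36),
 (nat_lit 1), (33, 2, 8), [109, 240], 11⟩,
  ⟨⟨21, -4, 28, -8, 35, 14, 32, 8, -19⟩, (.cons (nat_lit 360) (nat_lit 294) (nat_lit 70) (nat_lit 1) (.cons
 (nat_lit 173) (nat_lit 276) (nat_lit 42) (nat_lit 1) .nil)), (nat_lit 70), (nat_lit 31), (nat_lit 25),
 (nat_lit 1), (15, 26, 7), [148, 467], 28⟩,
  mz,
  ⟨⟨-1, -24, -36, 30, 17, -30, -18, 12, -19⟩, (.cons (nat_lit 218) (nat_lit 113) (nat_lit 264) (nat_lit 1)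
 (.cons (nat_lit 331) (nat_lit 721) (nat_lit 688) (nat_lit 1) .nil)), (nat_lit 43), (nat_lit 48), (nat_lit 55),
 (nat_lit 1), (13, 17, 12), [83, 139], 26⟩,
  ⟨⟨-35, 12, -1, -12, -35, 6, 0, 0, -37⟩, (.cons (nat_lit 115) (nat_lit 337) (nat_lit 283) (nat_lit 1) (.cons
 (nat_lit 328) (nat_lit 439) (nat_lit 1069) (nat_lit 1) .nil)), (nat_lit 1), (nat_lit 48), (nat_lit 68),
 (nat_lit 1), (3, 19, 0), [29, 765], 31⟩,
  mz,
  ⟨⟨-1, 24, -36, 30, -17, -30, -18, -12, -19⟩, (.cons (nat_lit 360) (nat_lit 58) (nat_lit 237) (nat_lit 1)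
 (.cons (nat_lit 915) (nat_lit 1216) (nat_lit 369) (nat_lit 1) .nil)), (nat_lit 70), (nat_lit 70), (nat_lit
 39), (nat_lit 1), (10, 33, 32), [10, 1243], 57⟩,
  ⟨⟨27, -4, 20, -10, 33, 20, 30, 12, -23⟩, (.cons (nat_lit 360) (nat_lit 163) (nat_lit 196) (nat_lit 1) (.cons
 (nat_lit 956) (nat_lit 231) (nat_lit 837) (nat_lit 1) .nil)), (nat_lit 70), (nat_lit 39), (nat_lit 13),
 (nat_lit 1), (22, 22, 8), [199, 731], 52⟩,
  ⟨⟨39, -4, -8, 10, 17, -40, 14, -28, -19⟩, (.cons (nat_lit 360) (nat_lit 177) (nat_lit 5) (nat_lit 1) (.cons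
 (nat_lit 1035) (nat_lit 1264) (nat_lit 1002) (nat_lit 1) .nil)), (nat_lit 70), (nat_lit 46), (nat_lit 2),
 (nat_lit 1), (11, 18, 3), [292, 537], 33⟩,
  ⟨⟨-31, 24, 27, 8, -5, 36, 8, 32, -1⟩, (.cons (nat_lit 360) (nat_lit 53) (nat_lit 150) (nat_lit 1) (.cons
 (nat_lit 772) (nat_lit 1294) (nat_lit 1010) (nat_lit 1) .nil)), (nat_lit 70), (nat_lit 36), (nat_lit 5),
 (nat_lit 1), (26, 10, 10), [28, 1227], 48⟩,
  mz,
  ⟨⟨-3, 40, 8, 32, 5, -36, -16, 16, -19⟩, (.cons (nat_lit 57) (nat_lit 293) (nat_lit 354) (nat_lit 1) (.cons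
 (nat_lit 495) (nat_lit 1269) (nat_lit 275) (nat_lit 1) .nil)), (nat_lit 15), (nat_lit 36), (nat_lit 20),
 (nat_lit 1), (27, 8, 33), [20, 615], 43⟩,
  ⟨⟨11, -12, 36, 8, 35, 6, 32, -8, -13⟩, (.cons (nat_lit 127) (nat_lit 85) (nat_lit 1) (nat_lit 190) (.cons
 (nat_lit 1084) (nat_lit 1165) (nat_lit 1271) (nat_lit 1) .nil)), (nat_lit 58), (nat_lit 36), (nat_lit 8),
 (nat_lit 1), (3, 19, 2), [200, 1111], 61⟩,
  ⟨⟨-31, -24, 4, 8, 5, -44, 8, -32, -7⟩, (.cons (nat_lit 230) (nat_lit 193) (nat_lit 3) (nat_lit 1) (.cons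
 (nat_lit 909) (nat_lit 886) (nat_lit 864) (nat_lit 1) .nil)), (nat_lit 30), (nat_lit 60), (nat_lit 26),
 (nat_lit 1), (15, 20, 20), [83, 676], 48⟩,
  ⟨⟨39, 4, -8, 10, -17, -40, 14, 28, -19⟩, (.cons (nat_lit 290) (nat_lit 184) (nat_lit 335) (nat_lit 1) (.cons
 (nat_lit 653) (nat_lit 543) (nat_lit 261) (nat_lit 1) .nil)), (nat_lit 45), (nat_lit 35), (nat_lit 1),
 (nat_lit 0), (29, 34, 18), [18, 1306], 54⟩,
  ⟨⟨39, -8, -28, -8, -5, -36, 8, -32, -1⟩, (.cons (nat_lit 314) (nat_lit 360) (nat_lit 126) (nat_lit 1) (.cons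
 (nat_lit 713) (nat_lit 1078) (nat_lit 357) (nat_lit 1) .nil)), (nat_lit 45), (nat_lit 24), (nat_lit 62),
 (nat_lit 1), (22, 23, 14), [326, 813], 70⟩,
  ⟨⟨25, -24, -36, 10, -17, 30, -14, -28, -5⟩, (.cons (nat_lit 4) (nat_lit 215) (nat_lit 74) (nat_lit 1) (.cons
 (nat_lit 349) (nat_lit 781) (nat_lit 1335) (nat_lit 1) .nil)), (nat_lit 0), (nat_lit 17), (nat_lit 32),
 (nat_lit 1), (21, 1, 6), [269, 892], 36⟩,
  ⟨⟨3, 40, 5, -32, 5, -4, 16, 16, -35⟩, (.cons (nat_lit 309) (nat_lit 310) (nat_lit 260) (nat_lit 1) (.cons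
 (nat_lit 1191) (nat_lit 675) (nat_lit 748) (nat_lit 1) .nil)), (nat_lit 64), (nat_lit 45), (nat_lit 62),
 (nat_lit 1), (29, 36, 19), [98, 1286], 42⟩,
  ⟨⟨39, 8, -11, 8, -5, -44, 8, 32, -7⟩, (.cons (nat_lit 27) (nat_lit 177) (nat_lit 96) (nat_lit 1) (.cons (nat_lit 878) (nat_lit 1045) (nat_lit 389) (nat_lit 1) .nil)), (nat_lit 6), (nat_lit 30), (nat_lit 68), (nat_lit 1), (4, 16, 16), [74, 966], 2⟩,
  mz,
  ⟨⟨3, -40, 5, 32, 5, 4, 16, -16, -35⟩, (.cons (nat_lit 118) (nat_lit 242) (nat_lit 5) (nat_lit 1) (.cons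
 (nat_lit 697) (nat_lit 192) (nat_lit 1004) (nat_lit 1) .nil)), (nat_lit 10), (nat_lit 47), (nat_lit 19),
 (nat_lit 1), (34, 5, 21), [333, 411], 11⟩,
  ⟨⟨1, 24, -37, -30, -17, 0, 18, -12, -37⟩, (.cons (nat_lit 251) (nat_lit 157) (nat_lit 91) (nat_lit 1) (.cons
 (nat_lit 281) (nat_lit 1244) (nat_lit 757) (nat_lit 1) .nil)), (nat_lit 49), (nat_lit 55), (nat_lit 38),
 (nat_lit 1), (23, 13, 7), [214, 924], 44⟩,
  ⟨⟨27, -4, -47, -10, 33, -10, 30, 12, -7⟩, (.cons (nat_lit 2) (nat_lit 269) (nat_lit 166) (nat_lit 1) (.cons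
 (nat_lit 565) (nat_lit 1112) (nat_lit 307) (nat_lit 1) .nil)), (nat_lit 22), (nat_lit 60), (nat_lit 57),
 (nat_lit 1), (15, 15, 29), [173, 62], 15⟩,
  ⟨⟨27, 4, -47, 10, 33, 10, 30, -12, -7⟩, (.cons (nat_lit 87) (nat_lit 213) (nat_lit 234) (nat_lit 1) (.cons
 (nat_lit 270) (nat_lit 896) (nat_lit 85) (nat_lit 1) .nil)), (nat_lit 46), (nat_lit 46), (nat_lit 65),
 (nat_lit 1), (33, 4, 12), [165, 774], 57⟩,
  mz,
  ⟨⟨-35, -12, -1, 12, -35, -6, 0, 0, -37⟩, (.cons (nat_lit 248) (nat_lit 176) (nat_lit 211) (nat_lit 1) (.cons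
 (nat_lit 99) (nat_lit 393) (nat_lit 720) (nat_lit 1) .nil)), (nat_lit 1), (nat_lit 23), (nat_lit 3), (nat_lit
 1), (23, 27, 0), [276, 847], 31⟩,
  ⟨⟨-39, 4, 31, -10, -17, -30, -14, 28, -5⟩, (.cons (nat_lit 268) (nat_lit 167) (nat_lit 317) (nat_lit 1)
 (.cons (nat_lit 105) (nat_lit 287) (nat_lit 18) (nat_lit 1) .nil)), (nat_lit 3), (nat_lit 35), (nat_lit 51),
 (nat_lit 1), (3, 15, 21), [149, 954], 46⟩,
  mz,
  mz,
  ⟨⟨-13, 24, -27, -32, 5, 36, -16, -16, -19⟩, (.cons (nat_lit 4) (nat_lit 244) (nat_lit 249) (nat_lit 1) (.cons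
 (nat_lit 847) (nat_lit 255) (nat_lit 1053) (nat_lit 1) .nil)), (nat_lit 10), (nat_lit 20), (nat_lit 34),
 (nat_lit 1), (3, 33, 35), [238, 713], 11⟩,
  mz,
  ⟨⟨21, -4, -49, -8, 35, -6, 32, 8, -13⟩, (.cons (nat_lit 7) (nat_lit 168) (nat_lit 100) (nat_lit 1) (.cons
 (nat_lit 1285) (nat_lit 416) (nat_lit 1145) (nat_lit 1) .nil)), (nat_lit 64), (nat_lit 17), (nat_lit 41),
 (nat_lit 1), (18, 9, 1), [301, 8], 9⟩,
  ⟨⟨17, 36, 0, 30, -17, 0, 18, 12, -37⟩, (.cons (nat_lit 360) (nat_lit 139) (nat_lit 353) (nat_lit 1) (.cons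
 (nat_lit 927) (nat_lit 402) (nat_lit 331) (nat_lit 1) .nil)), (nat_lit 70), (nat_lit 56), (nat_lit 31),
 (nat_lit 1), (35, 3, 24), [314, 658], 57⟩]

/-- Moves. -/
noncomputable def t1_8 : List Mv := [
  mz,
  ⟨⟨3, -16, -43, 10, 33, -20, 30, -12, -23⟩, (.cons (nat_lit 54) (nat_lit 192) (nat_lit 328) (nat_lit 1) (.cons
 (nat_lit 1309) (nat_lit 52) (nat_lit 1287) (nat_lit 1) .nil)), (nat_lit 61), (nat_lit 22), (nat_lit 36),
 (nat_lit 1), (25, 34, 28), [336, 97], 4⟩,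
  mz,
  mz,
  ⟨⟨21, 4, 28, 8, 35, -14, 32, -8, -19⟩, (.cons (nat_lit 360) (nat_lit 134) (nat_lit 270) (nat_lit 1) (.cons
 (nat_lit 347) (nat_lit 876) (nat_lit 96) (nat_lit 1) .nil)), (nat_lit 70), (nat_lit 60), (nat_lit 36),
 (nat_lit 1), (33, 2, 8), [109, 240], 11⟩,
  ⟨⟨21, -4, 28, -8, 35, 14, 32, 8, -19⟩, (.cons (nat_lit 360) (nat_lit 294) (nat_lit 70) (nat_lit 1) (.cons
 (nat_lit 173) (nat_lit 276) (nat_lit 42) (nat_lit 1) .nil)), (nat_lit 70), (nat_lit 31), (nat_lit 25),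
 (nat_lit 1), (15, 26, 7), [148, 467], 28⟩,
  mz,
  ⟨⟨-17, 36, 17, 30, 17, -30, -18, 12, -19⟩, (.cons (nat_lit 9) (nat_lit 231) (nat_lit 261) (nat_lit 1) (.cons
 (nat_lit 287) (nat_lit 659) (nat_lit 10) (nat_lit 1) .nil)), (nat_lit 36), (nat_lit 54), (nat_lit 30),
 (nat_lit 1), (36, 17, 12), [185, 542], 38⟩,
  ⟨⟨35, -12, -36, -12, -35, 6, 0, 0, -37⟩, (.cons (nat_lit 266) (nat_lit 83) (nat_lit 1) (nat_lit 95) (.cons
 (nat_lit 510) (nat_lit 245) (nat_lit 924) (nat_lit 1) .nil)), (nat_lit 70), (nat_lit 54), (nat_lit 30),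
 (nat_lit 1), (34, 19, 0), [178, 15], 18⟩,
  mz,
  ⟨⟨-17, -36, 17, 30, -17, -30, -18, -12, -19⟩, (.cons (nat_lit 233) (nat_lit 241) (nat_lit 96) (nat_lit 1)
 (.cons (nat_lit 501) (nat_lit 874) (nat_lit 837) (nat_lit 1) .nil)), (nat_lit 29), (nat_lit 38), (nat_lit 34),
 (nat_lit 1), (22, 33, 32), [144, 1360], 13⟩,
  ⟨⟨27, -4, 20, -10, 33, 20, 30, 12, -23⟩, (.cons (nat_lit 360) (nat_lit 163) (nat_lit 196) (nat_lit 1) (.cons
 (nat_lit 956) (nat_lit 231) (nat_lit 837) (nat_lit 1) .nil)), (nat_lit 70), (nat_lit 39), (nat_lit 13),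
 (nat_lit 1), (22, 22, 8), [199, 731], 52⟩,
  ⟨⟨-25, -24, -11, -10, -17, 40, 14, -28, -19⟩, (.cons (nat_lit 295) (nat_lit 192) (nat_lit 345) (nat_lit 1)
 (.cons (nat_lit 69) (nat_lit 1170) (nat_lit 672) (nat_lit 1) .nil)), (nat_lit 24), (nat_lit 12), (nat_lit 54),
 (nat_lit 1), (29, 19, 3), [327, 365], 13⟩,
  ⟨⟨-31, 24, 27, -8, 5, -36, 8, 32, -1⟩, (.cons (nat_lit 297) (nat_lit 11) (nat_lit 63) (nat_lit 1) (.cons
 (nat_lit 858) (nat_lit 617) (nat_lit 347) (nat_lit 1) .nil)), (nat_lit 12), (nat_lit 8), (nat_lit 13),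
 (nat_lit 1), (26, 27, 10), [212, 1046], 67⟩,
  mz,
  ⟨⟨-3, 40, 8, 32, 5, -36, -16, 16, -19⟩, (.cons (nat_lit 57) (nat_lit 293) (nat_lit 354) (nat_lit 1) (.cons
 (nat_lit 495) (nat_lit 1269) (nat_lit 275) (nat_lit 1) .nil)), (nat_lit 15), (nat_lit 36), (nat_lit 20),
 (nat_lit 1), (27, 8, 33), [20, 615], 43⟩,
  ⟨⟨21, 4, -49, -8, -35, -6, 32, -8, -13⟩, (.cons (nat_lit 52) (nat_lit 285) (nat_lit 297) (nat_lit 1) (.cons
 (nat_lit 778) (nat_lit 427) (nat_lit 940) (nat_lit 1) .nil)), (nat_lit 28), (nat_lit 39), (nat_lit 45),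
 (nat_lit 1), (36, 18, 2), [71, 854], 70⟩,
  ⟨⟨39, -8, -11, 8, 5, -44, 8, -32, -7⟩, (.cons (nat_lit 360) (nat_lit 132) (nat_lit 261) (nat_lit 1) (.cons
 (nat_lit 1239) (nat_lit 78) (nat_lit 1283) (nat_lit 1) .nil)), (nat_lit 70), (nat_lit 25), (nat_lit 50),
 (nat_lit 1), (5, 20, 20), [70, 267], 66⟩,
  ⟨⟨39, 4, -8, -10, 17, 40, 14, 28, -19⟩, (.cons (nat_lit 360) (nat_lit 259) (nat_lit 150) (nat_lit 1) (.cons
 (nat_lit 865) (nat_lit 517) (nat_lit 1267) (nat_lit 1) .nil)), (nat_lit 70), (nat_lit 32), (nat_lit 45),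
 (nat_lit 1), (29, 3, 18), [346, 1161], 67⟩,
  ⟨⟨-31, -24, 27, 8, 5, 36, 8, -32, -1⟩, (.cons (nat_lit 141) (nat_lit 254) (nat_lit 142) (nat_lit 1) (.cons
 (nat_lit 248) (nat_lit 294) (nat_lit 1223) (nat_lit 1) .nil)), (nat_lit 6), (nat_lit 23), (nat_lit 64),
 (nat_lit 1), (29, 14, 14), [97, 636], 69⟩,
  ⟨⟨-39, -4, 31, -10, 17, -30, -14, -28, -5⟩, (.cons (nat_lit 319) (nat_lit 59) (nat_lit 45) (nat_lit 1) (.cons
 (nat_lit 603) (nat_lit 1052) (nat_lit 189) (nat_lit 1) .nil)), (nat_lit 20), (nat_lit 45), (nat_lit 0),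
 (nat_lit 1), (22, 36, 6), [208, 280], 30⟩,
  ⟨⟨3, 40, 5, 32, -5, 4, 16, 16, -35⟩, (.cons (nat_lit 360) (nat_lit 271) (nat_lit 335) (nat_lit 1) (.cons
 (nat_lit 637) (nat_lit 88) (nat_lit 684) (nat_lit 1) .nil)), (nat_lit 70), (nat_lit 41), (nat_lit 38),
 (nat_lit 1), (29, 1, 19), [23, 681], 40⟩,
  ⟨⟨-31, 24, 4, -8, 5, 44, 8, 32, -7⟩, (.cons (nat_lit 192) (nat_lit 192) (nat_lit 356) (nat_lit 1) (.cons
 (nat_lit 168) (nat_lit 965) (nat_lit 1261) (nat_lit 1) .nil)), (nat_lit 30), (nat_lit 61), (nat_lit 57),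
 (nat_lit 1), (12, 21, 16), [26, 344], 48⟩,
  mz,
  ⟨⟨13, 24, -40, -32, -5, -4, 16, -16, -35⟩, (.cons (nat_lit 311) (nat_lit 123) (nat_lit 41) (nat_lit 1) (.cons
 (nat_lit 1050) (nat_lit 506) (nat_lit 422) (nat_lit 1) .nil)), (nat_lit 60), (nat_lit 48), (nat_lit 41),
 (nat_lit 1), (24, 32, 21), [360, 287], 22⟩,
  ⟨⟨1, 24, -37, -30, -17, 0, 18, -12, -37⟩, (.cons (nat_lit 251) (nat_lit 157) (nat_lit 91) (nat_lit 1) (.cons
 (nat_lit 281) (nat_lit 1244) (nat_lit 757) (nat_lit 1) .nil)), (nat_lit 49), (nat_lit 55), (nat_lit 38),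
 (nat_lit 1), (23, 13, 7), [214, 924], 44⟩,
  ⟨⟨27, -4, -47, -10, 33, -10, 30, 12, -7⟩, (.cons (nat_lit 2) (nat_lit 269) (nat_lit 166) (nat_lit 1) (.cons
 (nat_lit 565) (nat_lit 1112) (nat_lit 307) (nat_lit 1) .nil)), (nat_lit 22), (nat_lit 60), (nat_lit 57),
 (nat_lit 1), (15, 15, 29), [173, 62], 15⟩,
  ⟨⟨27, 4, -47, -10, -33, -10, 30, -12, -7⟩, (.cons (nat_lit 6) (nat_lit 94) (nat_lit 248) (nat_lit 1) (.cons
 (nat_lit 1228) (nat_lit 103) (nat_lit 189) (nat_lit 1) .nil)), (nat_lit 7), (nat_lit 15), (nat_lit 17),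
 (nat_lit 1), (33, 33, 12), [254, 442], 17⟩,
  mz,
  ⟨⟨-35, -12, -1, 12, -35, -6, 0, 0, -37⟩, (.cons (nat_lit 248) (nat_lit 176) (nat_lit 211) (nat_lit 1) (.cons
 (nat_lit 99) (nat_lit 393) (nat_lit 720) (nat_lit 1) .nil)), (nat_lit 1), (nat_lit 23), (nat_lit 3), (nat_lit
 1), (23, 27, 0), [276, 847], 31⟩,
  ⟨⟨25, 24, -36, -10, -17, -30, -14, 28, -5⟩, (.cons (nat_lit 271) (nat_lit 217) (nat_lit 162) (nat_lit 1)
 (.cons (nat_lit 464) (nat_lit 608) (nat_lit 1) (nat_lit 259) .nil)), (nat_lit 51), (nat_lit 56), (nat_lit 1),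
 (nat_lit 0), (18, 15, 21), [265, 465], 58⟩,
  mz,
  mz,
  ⟨⟨-3, -40, 8, 32, -5, -36, -16, -16, -19⟩, (.cons (nat_lit 296) (nat_lit 53) (nat_lit 138) (nat_lit 1) (.cons
 (nat_lit 1060) (nat_lit 1205) (nat_lit 223) (nat_lit 1) .nil)), (nat_lit 58), (nat_lit 56), (nat_lit 36),
 (nat_lit 1), (32, 4, 35), [107, 700], 26⟩,
  mz,
  ⟨⟨11, 12, 36, -8, 35, -6, 32, 8, -13⟩, (.cons (nat_lit 209) (nat_lit 258) (nat_lit 54) (nat_lit 1) (.cons
 (nat_lit 785) (nat_lit 956) (nat_lit 500) (nat_lit 1) .nil)), (nat_lit 60), (nat_lit 41), (nat_lit 17),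
 (nat_lit 1), (20, 9, 1), [185, 803], 68⟩,
  ⟨⟨1, -24, -37, 30, -17, 0, 18, 12, -37⟩, (.cons (nat_lit 327) (nat_lit 29) (nat_lit 17) (nat_lit 1) (.cons
 (nat_lit 194) (nat_lit 541) (nat_lit 218) (nat_lit 1) .nil)), (nat_lit 49), (nat_lit 40), (nat_lit 70),
 (nat_lit 1), (26, 3, 24), [5, 10], 44⟩]

/-- Moves. -/
noncomputable def t4_1 : List Mv := [
  mz,
  ⟨⟨-75, 20, 43, -10, -21, -70, -12, 60, -13⟩, (.cons (nat_lit 152) (nat_lit 138) (nat_lit 226) (nat_lit 1)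
 (.cons (nat_lit 139) (nat_lit 1212) (nat_lit 1024) (nat_lit 1) .nil)), (nat_lit 55), (nat_lit 0), (nat_lit 0),
 (nat_lit 0), (51, 21, 11), [12, 1277], 0⟩,
  mz,
  ⟨⟨-75, -16, 23, 4, -55, 48, -10, -40, -49⟩, (.cons (nat_lit 321) (nat_lit 283) (nat_lit 111) (nat_lit 1)
 (.cons (nat_lit 987) (nat_lit 1360) (nat_lit 395) (nat_lit 1) .nil)), (nat_lit 42), (nat_lit 0), (nat_lit 0),
 (nat_lit 0), (1, 70, 38), [17, 602], 0⟩,
  ⟨⟨27, 68, 16, -64, 15, 62, -6, 48, -43⟩, (.cons (nat_lit 269) (nat_lit 234) (nat_lit 355) (nat_lit 1) (.cons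
 (nat_lit 25) (nat_lit 1167) (nat_lit 426) (nat_lit 1) .nil)), (nat_lit 15), (nat_lit 0), (nat_lit 0), (nat_lit
 0), (60, 55, 34), [347, 1118], 0⟩,
  ⟨⟨27, -68, 16, 64, 15, -62, -6, -48, -43⟩, (.cons (nat_lit 328) (nat_lit 284) (nat_lit 249) (nat_lit 1)
 (.cons (nat_lit 49) (nat_lit 38) (nat_lit 739) (nat_lit 1) .nil)), (nat_lit 46), (nat_lit 0), (nat_lit 0),
 (nat_lit 0), (7, 35, 30), [225, 1186], 0⟩,
  mz,
  ⟨⟨-29, 72, 20, 56, 25, -68, -38, 16, -35⟩, (.cons (nat_lit 84) (nat_lit 124) (nat_lit 1) (nat_lit 76) (.cons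
 (nat_lit 313) (nat_lit 168) (nat_lit 84) (nat_lit 1) .nil)), (nat_lit 8), (nat_lit 0), (nat_lit 0), (nat_lit
 0), (33, 44, 31), [69, 475], 0⟩,
  ⟨⟨3, 40, -76, 64, 25, -12, 26, -32, -67⟩, (.cons (nat_lit 190) (nat_lit 222) (nat_lit 159) (nat_lit 1) (.cons
 (nat_lit 468) (nat_lit 778) (nat_lit 389) (nat_lit 1) .nil)), (nat_lit 7), (nat_lit 0), (nat_lit 0), (nat_lit
 0), (14, 62, 3), [37, 614], 0⟩,
  mz,
  mz,
  ⟨⟨33, -20, -92, -64, -15, 2, 6, 48, -49⟩, (.cons (nat_lit 33) (nat_lit 17) (nat_lit 49) (nat_lit 1) (.cons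
 (nat_lit 460) (nat_lit 565) (nat_lit 123) (nat_lit 1) .nil)), (nat_lit 51), (nat_lit 0), (nat_lit 0), (nat_lit
 0), (67, 68, 38), [238, 904], 0⟩,
  ⟨⟨9, 76, -20, 44, -15, -82, -42, 24, -25⟩, (.cons (nat_lit 214) (nat_lit 57) (nat_lit 340) (nat_lit 1) (.cons
 (nat_lit 930) (nat_lit 655) (nat_lit 77) (nat_lit 1) .nil)), (nat_lit 67), (nat_lit 0), (nat_lit 0), (nat_lit
 0), (31, 49, 21), [184, 737], 0⟩,
  mz,
  mz,
  ⟨⟨51, -52, -56, -44, -15, -38, 42, 24, -67⟩, (.cons (nat_lit 242) (nat_lit 324) (nat_lit 358) (nat_lit 1)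
 (.cons (nat_lit 275) (nat_lit 638) (nat_lit 1000) (nat_lit 1) .nil)), (nat_lit 5), (nat_lit 0), (nat_lit 0),
 (nat_lit 0), (24, 67, 49), [276, 1200], 0⟩,
  ⟨⟨17, 24, -89, -36, -55, -12, 54, -24, -53⟩, (.cons (nat_lit 359) (nat_lit 192) (nat_lit 1) (nat_lit 190)
 (.cons (nat_lit 28) (nat_lit 65) (nat_lit 1224) (nat_lit 1) .nil)), (nat_lit 22), (nat_lit 0), (nat_lit 0),
 (nat_lit 0), (7, 52, 64), [180, 1016], 0⟩,
  mz,
  ⟨⟨9, 56, -64, 56, 25, 12, 38, -16, -73⟩, (.cons (nat_lit 285) (nat_lit 315) (nat_lit 181) (nat_lit 1) (.cons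
 (nat_lit 912) (nat_lit 338) (nat_lit 914) (nat_lit 1) .nil)), (nat_lit 69), (nat_lit 0), (nat_lit 0), (nat_lit
 0), (56, 25, 55), [208, 355], 0⟩,
  ⟨⟨39, 40, -80, -44, 55, 32, -22, -8, -55⟩, (.cons (nat_lit 175) (nat_lit 13) (nat_lit 225) (nat_lit 1) (.cons
 (nat_lit 124) (nat_lit 463) (nat_lit 442) (nat_lit 1) .nil)), (nat_lit 23), (nat_lit 0), (nat_lit 0), (nat_lit
 0), (28, 3, 37), [310, 79], 0⟩,
  mz,
  mz,
  ⟨⟨17, -24, 72, 36, -55, -48, 54, 24, -1⟩, (.cons (nat_lit 120) (nat_lit 31) (nat_lit 190) (nat_lit 1) (.cons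
 (nat_lit 694) (nat_lit 10) (nat_lit 292) (nat_lit 1) .nil)), (nat_lit 70), (nat_lit 0), (nat_lit 0), (nat_lit
 0), (28, 5, 43), [65, 758], 0⟩,
  ⟨⟨39, -40, -80, 44, 55, -32, -22, 8, -55⟩, (.cons (nat_lit 328) (nat_lit 68) (nat_lit 205) (nat_lit 1) (.cons
 (nat_lit 1093) (nat_lit 471) (nat_lit 151) (nat_lit 1) .nil)), (nat_lit 19), (nat_lit 0), (nat_lit 0),
 (nat_lit 0), (1, 43, 14), [55, 1149], 0⟩,
  ⟨⟨-39, 40, -41, 44, 55, -12, 22, -8, -77⟩, (.cons (nat_lit 327) (nat_lit 202) (nat_lit 208) (nat_lit 1)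
 (.cons (nat_lit 648) (nat_lit 1197) (nat_lit 1115) (nat_lit 1) .nil)), (nat_lit 23), (nat_lit 0), (nat_lit 0),
 (nat_lit 0), (2, 56, 28), [281, 1137], 0⟩,
  mz,
  ⟨⟨51, -4, 40, 10, -69, -20, 60, 12, -49⟩, (.cons (nat_lit 166) (nat_lit 61) (nat_lit 189) (nat_lit 1) (.cons
 (nat_lit 1349) (nat_lit 380) (nat_lit 1099) (nat_lit 1) .nil)), (nat_lit 48), (nat_lit 0), (nat_lit 0),
 (nat_lit 0), (60, 41, 33), [62, 100], 0⟩,
  mz,
  mz,
  ⟨⟨-13, -72, 36, -70, 11, 30, -4, -44, -49⟩, (.cons (nat_lit 8) (nat_lit 260) (nat_lit 251) (nat_lit 1) (.cons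
 (nat_lit 970) (nat_lit 1088) (nat_lit 961) (nat_lit 1) .nil)), (nat_lit 43), (nat_lit 0), (nat_lit 0),
 (nat_lit 0), (29, 36, 69), [182, 486], 0⟩,
  mz,
  ⟨⟨-11, 72, -25, -50, 11, 80, -44, 4, -29⟩, (.cons (nat_lit 317) (nat_lit 304) (nat_lit 205) (nat_lit 1)
 (.cons (nat_lit 1056) (nat_lit 455) (nat_lit 774) (nat_lit 1) .nil)), (nat_lit 64), (nat_lit 0), (nat_lit 0),
 (nat_lit 0), (44, 58, 34), [179, 973], 0⟩,
  mz,
  ⟨⟨-29, -72, 20, 56, -25, -68, -38, -16, -35⟩, (.cons (nat_lit 218) (nat_lit 291) (nat_lit 327) (nat_lit 1)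
 (.cons (nat_lit 619) (nat_lit 1109) (nat_lit 1146) (nat_lit 1) .nil)), (nat_lit 8), (nat_lit 0), (nat_lit 0),
 (nat_lit 0), (27, 36, 6), [77, 1225], 0⟩,
  ⟨⟨-63, 40, 7, 10, -21, -80, 12, 60, -25⟩, (.cons (nat_lit 24) (nat_lit 359) (nat_lit 16) (nat_lit 1) (.cons
 (nat_lit 687) (nat_lit 916) (nat_lit 1135) (nat_lit 1) .nil)), (nat_lit 58), (nat_lit 0), (nat_lit 0),
 (nat_lit 0), (60, 4, 19), [356, 1256], 0⟩,
  mz,
  ⟨⟨3, -40, -76, 64, -25, -12, 26, 32, -67⟩, (.cons (nat_lit 111) (nat_lit 198) (nat_lit 336) (nat_lit 1)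
 (.cons (nat_lit 560) (nat_lit 1145) (nat_lit 511) (nat_lit 1) .nil)), (nat_lit 7), (nat_lit 0), (nat_lit 0),
 (nat_lit 0), (58, 54, 53), [225, 750], 0⟩,
  mz,
  ⟨⟨17, -24, -89, 36, -55, 12, 54, 24, -53⟩, (.cons (nat_lit 221) (nat_lit 129) (nat_lit 1) (nat_lit 323)
 (.cons (nat_lit 176) (nat_lit 1066) (nat_lit 173) (nat_lit 1) .nil)), (nat_lit 70), (nat_lit 0), (nat_lit 0),
 (nat_lit 0), (5, 44, 66), [20, 387], 0⟩,
  ⟨⟨-3, 40, -73, -64, 25, 52, -26, -32, -41⟩, (.cons (nat_lit 59) (nat_lit 86) (nat_lit 81) (nat_lit 1) (.cons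
 (nat_lit 1314) (nat_lit 253) (nat_lit 416) (nat_lit 1) .nil)), (nat_lit 7), (nat_lit 0), (nat_lit 0), (nat_lit
 0), (12, 43, 33), [159, 404], 0⟩,
  mz,
  mz,
  ⟨⟨75, 16, -52, 4, -55, -52, 10, 40, -59⟩, (.cons (nat_lit 359) (nat_lit 136) (nat_lit 264) (nat_lit 1) (.cons
 (nat_lit 1332) (nat_lit 1084) (nat_lit 1079) (nat_lit 1) .nil)), (nat_lit 65), (nat_lit 0), (nat_lit 0),
 (nat_lit 0), (5, 5, 48), [56, 864], 0⟩,
  ⟨⟨11, -72, -36, 50, -11, 30, 44, -4, -73⟩, (.cons (nat_lit 133) (nat_lit 220) (nat_lit 207) (nat_lit 1)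
 (.cons (nat_lit 1267) (nat_lit 795) (nat_lit 798) (nat_lit 1) .nil)), (nat_lit 64), (nat_lit 0), (nat_lit 0),
 (nat_lit 0), (69, 49, 63), [167, 669], 0⟩,
  ⟨⟨-39, -40, -41, 44, -55, -12, 22, 8, -77⟩, (.cons (nat_lit 225) (nat_lit 195) (nat_lit 238) (nat_lit 1)
 (.cons (nat_lit 173) (nat_lit 345) (nat_lit 1197) (nat_lit 1) .nil)), (nat_lit 23), (nat_lit 0), (nat_lit 0),
 (nat_lit 0), (46, 10, 5), [172, 680], 0⟩,
  mz,
  ⟨⟨51, 52, -56, -44, 15, -38, 42, -24, -67⟩, (.cons (nat_lit 175) (nat_lit 118) (nat_lit 106) (nat_lit 1)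
 (.cons (nat_lit 922) (nat_lit 558) (nat_lit 404) (nat_lit 1) .nil)), (nat_lit 5), (nat_lit 0), (nat_lit 0),
 (nat_lit 0), (52, 15, 47), [218, 943], 0⟩,
  ⟨⟨9, -16, 80, 10, 69, 10, 60, -12, -11⟩, (.cons (nat_lit 242) (nat_lit 126) (nat_lit 215) (nat_lit 1) (.cons
 (nat_lit 794) (nat_lit 926) (nat_lit 38) (nat_lit 1) .nil)), (nat_lit 54), (nat_lit 0), (nat_lit 0), (nat_lit
 0), (33, 13, 7), [128, 1047], 0⟩,
  ⟨⟨9, -16, -89, -10, -69, 20, 60, -12, -49⟩, (.cons (nat_lit 72) (nat_lit 87) (nat_lit 292) (nat_lit 1) (.cons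
 (nat_lit 594) (nat_lit 836) (nat_lit 1090) (nat_lit 1) .nil)), (nat_lit 47), (nat_lit 0), (nat_lit 0),
 (nat_lit 0), (19, 42, 32), [70, 734], 0⟩,
  ⟨⟨9, -56, -64, -56, 25, -12, 38, 16, -73⟩, (.cons (nat_lit 316) (nat_lit 42) (nat_lit 176) (nat_lit 1) (.cons
 (nat_lit 988) (nat_lit 913) (nat_lit 786) (nat_lit 1) .nil)), (nat_lit 39), (nat_lit 0), (nat_lit 0), (nat_lit
 0), (4, 54, 9), [116, 893], 0⟩,
  ⟨⟨65, 24, -72, -4, -55, -48, -10, 40, -49⟩, (.cons (nat_lit 93) (nat_lit 233) (nat_lit 71) (nat_lit 1) (.cons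
 (nat_lit 1221) (nat_lit 985) (nat_lit 989) (nat_lit 1) .nil)), (nat_lit 3), (nat_lit 0), (nat_lit 0), (nat_lit
 0), (39, 26, 65), [246, 716], 0⟩,
  ⟨⟨9, -76, -20, -44, -15, 82, -42, -24, -25⟩, (.cons (nat_lit 186) (nat_lit 87) (nat_lit 272) (nat_lit 1)
 (.cons (nat_lit 747) (nat_lit 966) (nat_lit 1211) (nat_lit 1) .nil)), (nat_lit 11), (nat_lit 0), (nat_lit 0),
 (nat_lit 0), (1, 3, 19), [160, 599], 0⟩,
  mz,
  ⟨⟨13, -72, 23, 70, 11, -40, 4, -44, -53⟩, (.cons (nat_lit 165) (nat_lit 333) (nat_lit 304) (nat_lit 1) (.cons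
 (nat_lit 464) (nat_lit 673) (nat_lit 1137) (nat_lit 1) .nil)), (nat_lit 43), (nat_lit 0), (nat_lit 0),
 (nat_lit 0), (14, 59, 48), [160, 418], 0⟩,
  ⟨⟨9, 16, 80, -10, 69, -10, 60, 12, -11⟩, (.cons (nat_lit 91) (nat_lit 86) (nat_lit 290) (nat_lit 1) (.cons
 (nat_lit 1319) (nat_lit 1123) (nat_lit 531) (nat_lit 1) .nil)), (nat_lit 47), (nat_lit 0), (nat_lit 0),
 (nat_lit 0), (58, 46, 8), [72, 1341], 0⟩,
  ⟨⟨-63, -40, 7, 10, 21, -80, 12, -60, -25⟩, (.cons (nat_lit 41) (nat_lit 313) (nat_lit 125) (nat_lit 1) (.cons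
 (nat_lit 1159) (nat_lit 802) (nat_lit 999) (nat_lit 1) .nil)), (nat_lit 58), (nat_lit 0), (nat_lit 0),
 (nat_lit 0), (33, 59, 14), [43, 1148], 0⟩,
  mz,
  ⟨⟨-11, -72, -25, 50, 11, -80, -44, -4, -29⟩, (.cons (nat_lit 198) (nat_lit 239) (nat_lit 338) (nat_lit 1)
 (.cons (nat_lit 737) (nat_lit 1247) (nat_lit 1133) (nat_lit 1) .nil)), (nat_lit 29), (nat_lit 0), (nat_lit 0),
 (nat_lit 0), (38, 8, 10), [336, 10], 0⟩,
  ⟨⟨-75, -20, 43, -10, 21, -70, -12, -60, -13⟩, (.cons (nat_lit 317) (nat_lit 54) (nat_lit 85) (nat_lit 1)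
 (.cons (nat_lit 515) (nat_lit 408) (nat_lit 259) (nat_lit 1) .nil)), (nat_lit 55), (nat_lit 0), (nat_lit 0),
 (nat_lit 0), (2, 5, 6), [218, 379], 0⟩,
  mz,
  mz,
  mz,
  ⟨⟨33, -68, -37, -50, -11, -30, 44, 4, -73⟩, (.cons (nat_lit 355) (nat_lit 278) (nat_lit 211) (nat_lit 1)
 (.cons (nat_lit 1251) (nat_lit 1032) (nat_lit 252) (nat_lit 1) .nil)), (nat_lit 53), (nat_lit 0), (nat_lit 0),
 (nat_lit 0), (12, 27, 16), [74, 364], 0⟩,
  mz,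
  ⟨⟨-13, 72, 36, 70, 11, -30, -4, 44, -49⟩, (.cons (nat_lit 352) (nat_lit 47) (nat_lit 81) (nat_lit 1) (.cons
 (nat_lit 112) (nat_lit 941) (nat_lit 766) (nat_lit 1) .nil)), (nat_lit 62), (nat_lit 0), (nat_lit 0), (nat_lit
 0), (35, 30, 49), [175, 1208], 0⟩,
  ⟨⟨75, -16, -52, 4, 55, -52, 10, -40, -59⟩, (.cons (nat_lit 360) (nat_lit 243) (nat_lit 237) (nat_lit 1)
 (.cons (nat_lit 1368) (nat_lit 256) (nat_lit 1051) (nat_lit 1) .nil)), (nat_lit 65), (nat_lit 0), (nat_lit 0),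
 (nat_lit 0), (51, 51, 21), [346, 21], 0⟩,
  mz,
  ⟨⟨-27, -68, 43, -64, 15, 2, 6, -48, -49⟩, (.cons (nat_lit 290) (nat_lit 117) (nat_lit 1) (nat_lit 266) (.cons
 (nat_lit 921) (nat_lit 1203) (nat_lit 804) (nat_lit 1) .nil)), (nat_lit 46), (nat_lit 0), (nat_lit 0),
 (nat_lit 0), (60, 16, 34), [205, 774], 0⟩,
  ⟨⟨13, 72, 23, 70, -11, -40, 4, 44, -53⟩, (.cons (nat_lit 7) (nat_lit 325) (nat_lit 325) (nat_lit 1) (.cons
 (nat_lit 1019) (nat_lit 362) (nat_lit 544) (nat_lit 1) .nil)), (nat_lit 43), (nat_lit 0), (nat_lit 0),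
 (nat_lit 0), (20, 64, 28), [175, 870], 0⟩,
  ⟨⟨-23, 72, 32, 64, 25, -52, -26, 32, -41⟩, (.cons (nat_lit 359) (nat_lit 269) (nat_lit 1) (nat_lit 152)
 (.cons (nat_lit 683) (nat_lit 507) (nat_lit 2) (nat_lit 1) .nil)), (nat_lit 18), (nat_lit 0), (nat_lit 0),
 (nat_lit 0), (27, 36, 12), [110, 1141], 0⟩,
  ⟨⟨17, 24, 72, 36, 55, -48, 54, -24, -1⟩, (.cons (nat_lit 360) (nat_lit 77) (nat_lit 21) (nat_lit 1) (.cons
 (nat_lit 481) (nat_lit 354) (nat_lit 1) (nat_lit 888) .nil)), (nat_lit 70), (nat_lit 0), (nat_lit 0), (nat_lit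
 0), (30, 51, 41), [80, 492], 0⟩]

/-- Moves. -/
noncomputable def t4_2 : List Mv := [
  mz,
  ⟨⟨63, 40, -56, 10, 21, 70, -12, 60, -13⟩, (.cons (nat_lit 360) (nat_lit 29) (nat_lit 19) (nat_lit 1) (.cons
 (nat_lit 1368) (nat_lit 811) (nat_lit 519) (nat_lit 1) .nil)), (nat_lit 1), (nat_lit 0), (nat_lit 0), (nat_lit
 0), (31, 50, 11), [204, 709], 0⟩,
  mz,
  ⟨⟨65, -24, -72, 4, -55, 48, -10, -40, -49⟩, (.cons (nat_lit 66) (nat_lit 145) (nat_lit 7) (nat_lit 1) (.cons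
 (nat_lit 544) (nat_lit 808) (nat_lit 1) (nat_lit 259) .nil)), (nat_lit 50), (nat_lit 0), (nat_lit 0), (nat_lit
 0), (37, 70, 38), [128, 463], 0⟩,
  ⟨⟨-33, -20, -59, 64, -15, -62, -6, 48, -43⟩, (.cons (nat_lit 311) (nat_lit 173) (nat_lit 10) (nat_lit 1)
 (.cons (nat_lit 1304) (nat_lit 499) (nat_lit 917) (nat_lit 1) .nil)), (nat_lit 51), (nat_lit 0), (nat_lit 0),
 (nat_lit 0), (45, 16, 34), [30, 1162], 0⟩,
  ⟨⟨27, -68, 16, -64, -15, 62, -6, -48, -43⟩, (.cons (nat_lit 91) (nat_lit 118) (nat_lit 273) (nat_lit 1)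
 (.cons (nat_lit 229) (nat_lit 381) (nat_lit 992) (nat_lit 1) .nil)), (nat_lit 15), (nat_lit 0), (nat_lit 0),
 (nat_lit 0), (7, 36, 30), [65, 377], 0⟩,
  mz,
  ⟨⟨-9, -56, -55, 56, 25, -68, -38, 16, -35⟩, (.cons (nat_lit 257) (nat_lit 280) (nat_lit 121) (nat_lit 1)
 (.cons (nat_lit 224) (nat_lit 826) (nat_lit 1277) (nat_lit 1) .nil)), (nat_lit 39), (nat_lit 0), (nat_lit 0),
 (nat_lit 0), (69, 44, 31), [301, 321], 0⟩,
  ⟨⟨23, -72, 9, -64, -25, 12, 26, -32, -67⟩, (.cons (nat_lit 157) (nat_lit 321) (nat_lit 266) (nat_lit 1)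
 (.cons (nat_lit 254) (nat_lit 508) (nat_lit 764) (nat_lit 1) .nil)), (nat_lit 18), (nat_lit 0), (nat_lit 0),
 (nat_lit 0), (60, 9, 3), [184, 886], 0⟩,
  mz,
  mz,
  ⟨⟨33, -20, -92, 64, 15, -2, 6, 48, -49⟩, (.cons (nat_lit 346) (nat_lit 1) (nat_lit 253) (nat_lit 1) (.cons
 (nat_lit 996) (nat_lit 636) (nat_lit 41) (nat_lit 1) .nil)), (nat_lit 12), (nat_lit 0), (nat_lit 0), (nat_lit
 0), (67, 3, 38), [256, 980], 0⟩,
  ⟨⟨9, 76, -20, 44, -15, -82, -42, 24, -25⟩, (.cons (nat_lit 214) (nat_lit 57) (nat_lit 340) (nat_lit 1) (.cons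
 (nat_lit 930) (nat_lit 655) (nat_lit 77) (nat_lit 1) .nil)), (nat_lit 67), (nat_lit 0), (nat_lit 0), (nat_lit
 0), (31, 49, 21), [184, 737], 0⟩,
  mz,
  mz,
  ⟨⟨51, -52, -56, 44, 15, 38, 42, 24, -67⟩, (.cons (nat_lit 51) (nat_lit 340) (nat_lit 306) (nat_lit 1) (.cons
 (nat_lit 1150) (nat_lit 939) (nat_lit 202) (nat_lit 1) .nil)), (nat_lit 4), (nat_lit 0), (nat_lit 0), (nat_lit
 0), (24, 4, 49), [47, 775], 0⟩,
  ⟨⟨17, 24, -89, -36, -55, -12, 54, -24, -53⟩, (.cons (nat_lit 359) (nat_lit 192) (nat_lit 1) (nat_lit 190)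
 (.cons (nat_lit 28) (nat_lit 65) (nat_lit 1224) (nat_lit 1) .nil)), (nat_lit 22), (nat_lit 0), (nat_lit 0),
 (nat_lit 0), (7, 52, 64), [180, 1016], 0⟩,
  mz,
  ⟨⟨29, -72, -9, 56, 25, 12, 38, -16, -73⟩, (.cons (nat_lit 287) (nat_lit 206) (nat_lit 186) (nat_lit 1) (.cons
 (nat_lit 1351) (nat_lit 201) (nat_lit 658) (nat_lit 1) .nil)), (nat_lit 36), (nat_lit 0), (nat_lit 0),
 (nat_lit 0), (70, 25, 55), [140, 256], 0⟩,
  ⟨⟨-61, -48, 25, 44, -55, -32, -22, -8, -55⟩, (.cons (nat_lit 291) (nat_lit 150) (nat_lit 50) (nat_lit 1)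
 (.cons (nat_lit 595) (nat_lit 1349) (nat_lit 544) (nat_lit 1) .nil)), (nat_lit 24), (nat_lit 0), (nat_lit 0),
 (nat_lit 0), (9, 68, 37), [302, 1199], 0⟩,
  mz,
  mz,
  ⟨⟨37, 48, -73, 36, -55, -48, 54, 24, -1⟩, (.cons (nat_lit 167) (nat_lit 112) (nat_lit 301) (nat_lit 1) (.cons
 (nat_lit 378) (nat_lit 284) (nat_lit 576) (nat_lit 1) .nil)), (nat_lit 38), (nat_lit 0), (nat_lit 0), (nat_lit
 0), (15, 5, 43), [178, 410], 0⟩,
  ⟨⟨39, -40, -80, -44, -55, 32, -22, 8, -55⟩, (.cons (nat_lit 360) (nat_lit 243) (nat_lit 334) (nat_lit 1)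
 (.cons (nat_lit 1368) (nat_lit 1247) (nat_lit 646) (nat_lit 1) .nil)), (nat_lit 23), (nat_lit 0), (nat_lit 0),
 (nat_lit 0), (1, 28, 14), [70, 478], 0⟩,
  ⟨⟨-39, 40, -41, 44, 55, -12, 22, -8, -77⟩, (.cons (nat_lit 327) (nat_lit 202) (nat_lit 208) (nat_lit 1)
 (.cons (nat_lit 648) (nat_lit 1197) (nat_lit 1115) (nat_lit 1) .nil)), (nat_lit 23), (nat_lit 0), (nat_lit 0),
 (nat_lit 0), (2, 56, 28), [281, 1137], 0⟩,
  mz,
  ⟨⟨9, 16, -89, -10, 69, 20, 60, 12, -49⟩, (.cons (nat_lit 149) (nat_lit 22) (nat_lit 298) (nat_lit 1) (.cons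
 (nat_lit 270) (nat_lit 1257) (nat_lit 1182) (nat_lit 1) .nil)), (nat_lit 47), (nat_lit 0), (nat_lit 0),
 (nat_lit 0), (44, 30, 33), [324, 1083], 0⟩,
  mz,
  mz,
  ⟨⟨-13, -72, 36, 70, -11, -30, -4, -44, -49⟩, (.cons (nat_lit 291) (nat_lit 202) (nat_lit 88) (nat_lit 1)
 (.cons (nat_lit 734) (nat_lit 70) (nat_lit 360) (nat_lit 1) .nil)), (nat_lit 62), (nat_lit 0), (nat_lit 0),
 (nat_lit 0), (29, 35, 69), [317, 1194], 0⟩,
  mz,
  ⟨⟨-11, 72, -25, 50, -11, -80, -44, 4, -29⟩, (.cons (nat_lit 140) (nat_lit 33) (nat_lit 136) (nat_lit 1)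
 (.cons (nat_lit 982) (nat_lit 408) (nat_lit 532) (nat_lit 1) .nil)), (nat_lit 29), (nat_lit 0), (nat_lit 0),
 (nat_lit 0), (44, 13, 34), [308, 1129], 0⟩,
  mz,
  ⟨⟨-29, -72, 20, 56, -25, -68, -38, -16, -35⟩, (.cons (nat_lit 218) (nat_lit 291) (nat_lit 327) (nat_lit 1)
 (.cons (nat_lit 619) (nat_lit 1109) (nat_lit 1146) (nat_lit 1) .nil)), (nat_lit 8), (nat_lit 0), (nat_lit 0),
 (nat_lit 0), (27, 36, 6), [77, 1225], 0⟩,
  ⟨⟨75, 20, -32, -10, 21, 80, 12, 60, -25⟩, (.cons (nat_lit 360) (nat_lit 108) (nat_lit 311) (nat_lit 1) (.cons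
 (nat_lit 1368) (nat_lit 1366) (nat_lit 269) (nat_lit 1) .nil)), (nat_lit 34), (nat_lit 0), (nat_lit 0),
 (nat_lit 0), (30, 67, 19), [53, 272], 0⟩,
  mz,
  ⟨⟨23, 72, 9, 64, -25, -12, 26, 32, -67⟩, (.cons (nat_lit 71) (nat_lit 224) (nat_lit 186) (nat_lit 1) (.cons
 (nat_lit 269) (nat_lit 966) (nat_lit 996) (nat_lit 1) .nil)), (nat_lit 49), (nat_lit 0), (nat_lit 0), (nat_lit
 0), (66, 54, 53), [238, 8], 0⟩,
  mz,
  ⟨⟨17, -24, -89, -36, 55, -12, 54, 24, -53⟩, (.cons (nat_lit 147) (nat_lit 142) (nat_lit 156) (nat_lit 1)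
 (.cons (nat_lit 1235) (nat_lit 1093) (nat_lit 520) (nat_lit 1) .nil)), (nat_lit 22), (nat_lit 0), (nat_lit 0),
 (nat_lit 0), (5, 27, 66), [53, 522], 0⟩,
  ⟨⟨-23, -72, 32, 64, -25, -52, -26, -32, -41⟩, (.cons (nat_lit 234) (nat_lit 290) (nat_lit 213) (nat_lit 1)
 (.cons (nat_lit 977) (nat_lit 754) (nat_lit 3) (nat_lit 1) .nil)), (nat_lit 18), (nat_lit 0), (nat_lit 0),
 (nat_lit 0), (21, 28, 33), [234, 881], 0⟩,
  mz,
  mz,
  ⟨⟨-65, 24, -7, 4, -55, -52, 10, 40, -59⟩, (.cons (nat_lit 9) (nat_lit 341) (nat_lit 84) (nat_lit 1) (.cons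
 (nat_lit 706) (nat_lit 878) (nat_lit 406) (nat_lit 1) .nil)), (nat_lit 3), (nat_lit 0), (nat_lit 0), (nat_lit
 0), (43, 5, 48), [294, 1052], 0⟩,
  ⟨⟨11, -72, -36, -50, 11, -30, 44, -4, -73⟩, (.cons (nat_lit 316) (nat_lit 148) (nat_lit 104) (nat_lit 1)
 (.cons (nat_lit 199) (nat_lit 1159) (nat_lit 421) (nat_lit 1) .nil)), (nat_lit 29), (nat_lit 0), (nat_lit 0),
 (nat_lit 0), (69, 22, 63), [330, 684], 0⟩,
  ⟨⟨-39, -40, -41, 44, -55, -12, 22, 8, -77⟩, (.cons (nat_lit 225) (nat_lit 195) (nat_lit 238) (nat_lit 1)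
 (.cons (nat_lit 173) (nat_lit 345) (nat_lit 1197) (nat_lit 1) .nil)), (nat_lit 23), (nat_lit 0), (nat_lit 0),
 (nat_lit 0), (46, 10, 5), [172, 680], 0⟩,
  mz,
  ⟨⟨51, 52, -56, -44, 15, -38, 42, -24, -67⟩, (.cons (nat_lit 175) (nat_lit 118) (nat_lit 106) (nat_lit 1)
 (.cons (nat_lit 922) (nat_lit 558) (nat_lit 404) (nat_lit 1) .nil)), (nat_lit 5), (nat_lit 0), (nat_lit 0),
 (nat_lit 0), (52, 15, 47), [218, 943], 0⟩,
  ⟨⟨51, 4, -91, -10, -69, -10, 60, -12, -11⟩, (.cons (nat_lit 63) (nat_lit 58) (nat_lit 359) (nat_lit 1) (.cons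
 (nat_lit 360) (nat_lit 619) (nat_lit 239) (nat_lit 1) .nil)), (nat_lit 26), (nat_lit 0), (nat_lit 0), (nat_lit
 0), (45, 58, 7), [287, 1294], 0⟩,
  ⟨⟨51, 4, 40, 10, 69, -20, 60, -12, -49⟩, (.cons (nat_lit 360) (nat_lit 331) (nat_lit 143) (nat_lit 1) (.cons
 (nat_lit 1368) (nat_lit 494) (nat_lit 1248) (nat_lit 1) .nil)), (nat_lit 48), (nat_lit 0), (nat_lit 0),
 (nat_lit 0), (13, 29, 32), [165, 17], 0⟩,
  ⟨⟨29, 72, -9, 56, -25, 12, 38, 16, -73⟩, (.cons (nat_lit 300) (nat_lit 307) (nat_lit 155) (nat_lit 1) (.cons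
 (nat_lit 285) (nat_lit 1228) (nat_lit 892) (nat_lit 1) .nil)), (nat_lit 36), (nat_lit 0), (nat_lit 0),
 (nat_lit 0), (5, 17, 9), [65, 894], 0⟩,
  ⟨⟨65, 24, -72, -4, -55, -48, -10, 40, -49⟩, (.cons (nat_lit 93) (nat_lit 233) (nat_lit 71) (nat_lit 1) (.cons
 (nat_lit 1221) (nat_lit 985) (nat_lit 989) (nat_lit 1) .nil)), (nat_lit 3), (nat_lit 0), (nat_lit 0), (nat_lit
 0), (39, 26, 65), [246, 716], 0⟩,
  ⟨⟨9, -76, -20, 44, 15, -82, -42, -24, -25⟩, (.cons (nat_lit 3) (nat_lit 186) (nat_lit 180) (nat_lit 1) (.cons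
 (nat_lit 210) (nat_lit 1152) (nat_lit 1112) (nat_lit 1) .nil)), (nat_lit 67), (nat_lit 0), (nat_lit 0),
 (nat_lit 0), (1, 68, 19), [43, 600], 0⟩,
  mz,
  ⟨⟨13, -72, 23, -70, -11, 40, 4, -44, -53⟩, (.cons (nat_lit 60) (nat_lit 287) (nat_lit 336) (nat_lit 1) (.cons
 (nat_lit 58) (nat_lit 380) (nat_lit 443) (nat_lit 1) .nil)), (nat_lit 62), (nat_lit 0), (nat_lit 0), (nat_lit
 0), (14, 12, 48), [343, 610], 0⟩,
  ⟨⟨9, 16, 80, -10, 69, -10, 60, 12, -11⟩, (.cons (nat_lit 91) (nat_lit 86) (nat_lit 290) (nat_lit 1) (.cons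
 (nat_lit 1319) (nat_lit 1123) (nat_lit 531) (nat_lit 1) .nil)), (nat_lit 47), (nat_lit 0), (nat_lit 0),
 (nat_lit 0), (58, 46, 8), [72, 1341], 0⟩,
  ⟨⟨75, -20, -32, 10, 21, -80, 12, -60, -25⟩, (.cons (nat_lit 360) (nat_lit 76) (nat_lit 167) (nat_lit 1)
 (.cons (nat_lit 1368) (nat_lit 1009) (nat_lit 921) (nat_lit 1) .nil)), (nat_lit 55), (nat_lit 0), (nat_lit 0),
 (nat_lit 0), (52, 59, 14), [147, 635], 0⟩,
  mz,
  ⟨⟨-11, -72, -25, 50, 11, -80, -44, -4, -29⟩, (.cons (nat_lit 198) (nat_lit 239) (nat_lit 338) (nat_lit 1)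
 (.cons (nat_lit 737) (nat_lit 1247) (nat_lit 1133) (nat_lit 1) .nil)), (nat_lit 29), (nat_lit 0), (nat_lit 0),
 (nat_lit 0), (38, 8, 10), [336, 10], 0⟩,
  ⟨⟨-75, -20, 43, -10, 21, -70, -12, -60, -13⟩, (.cons (nat_lit 317) (nat_lit 54) (nat_lit 85) (nat_lit 1)
 (.cons (nat_lit 515) (nat_lit 408) (nat_lit 259) (nat_lit 1) .nil)), (nat_lit 55), (nat_lit 0), (nat_lit 0),
 (nat_lit 0), (2, 5, 6), [218, 379], 0⟩,
  mz,
  mz,
  mz,
  ⟨⟨11, 72, -36, -50, -11, -30, 44, 4, -73⟩, (.cons (nat_lit 263) (nat_lit 302) (nat_lit 321) (nat_lit 1)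
 (.cons (nat_lit 968) (nat_lit 690) (nat_lit 615) (nat_lit 1) .nil)), (nat_lit 29), (nat_lit 0), (nat_lit 0),
 (nat_lit 0), (4, 27, 16), [155, 989], 0⟩,
  mz,
  ⟨⟨9, -28, -85, 70, 11, -30, -4, 44, -49⟩, (.cons (nat_lit 41) (nat_lit 171) (nat_lit 259) (nat_lit 1) (.cons
 (nat_lit 901) (nat_lit 745) (nat_lit 816) (nat_lit 1) .nil)), (nat_lit 31), (nat_lit 0), (nat_lit 0), (nat_lit
 0), (14, 30, 49), [186, 860], 0⟩,
  ⟨⟨75, -16, -52, 4, 55, -52, 10, -40, -59⟩, (.cons (nat_lit 360) (nat_lit 243) (nat_lit 237) (nat_lit 1)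
 (.cons (nat_lit 1368) (nat_lit 256) (nat_lit 1051) (nat_lit 1) .nil)), (nat_lit 65), (nat_lit 0), (nat_lit 0),
 (nat_lit 0), (51, 51, 21), [346, 21], 0⟩,
  mz,
  ⟨⟨-27, -68, 43, 64, -15, -2, 6, -48, -49⟩, (.cons (nat_lit 315) (nat_lit 9) (nat_lit 157) (nat_lit 1) (.cons
 (nat_lit 1106) (nat_lit 753) (nat_lit 1169) (nat_lit 1) .nil)), (nat_lit 15), (nat_lit 0), (nat_lit 0),
 (nat_lit 0), (60, 55, 34), [343, 166], 0⟩,
  ⟨⟨13, 72, 23, 70, -11, -40, 4, 44, -53⟩, (.cons (nat_lit 7) (nat_lit 325) (nat_lit 325) (nat_lit 1) (.cons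
 (nat_lit 1019) (nat_lit 362) (nat_lit 544) (nat_lit 1) .nil)), (nat_lit 43), (nat_lit 0), (nat_lit 0),
 (nat_lit 0), (20, 64, 28), [175, 870], 0⟩,
  ⟨⟨-23, 72, 32, 64, 25, -52, -26, 32, -41⟩, (.cons (nat_lit 359) (nat_lit 269) (nat_lit 1) (nat_lit 152)
 (.cons (nat_lit 683) (nat_lit 507) (nat_lit 2) (nat_lit 1) .nil)), (nat_lit 18), (nat_lit 0), (nat_lit 0),
 (nat_lit 0), (27, 36, 12), [110, 1141], 0⟩,
  ⟨⟨37, -48, -73, 36, 55, -48, 54, -24, -1⟩, (.cons (nat_lit 57) (nat_lit 184) (nat_lit 49) (nat_lit 1) (.cons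
 (nat_lit 1299) (nat_lit 694) (nat_lit 1158) (nat_lit 1) .nil)), (nat_lit 38), (nat_lit 0), (nat_lit 0),
 (nat_lit 0), (11, 51, 41), [354, 1134], 0⟩]

/-- Moves. -/
noncomputable def t4_8 : List Mv := [
  mz,
  ⟨⟨63, 40, -56, 10, 21, 70, -12, 60, -13⟩, (.cons (nat_lit 360) (nat_lit 29) (nat_lit 19) (nat_lit 1) (.cons
 (nat_lit 1368) (nat_lit 811) (nat_lit 519) (nat_lit 1) .nil)), (nat_lit 1), (nat_lit 0), (nat_lit 0), (nat_lit
 0), (31, 50, 11), [204, 709], 0⟩,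
  mz,
  ⟨⟨65, -24, -72, -4, 55, -48, -10, -40, -49⟩, (.cons (nat_lit 360) (nat_lit 336) (nat_lit 39) (nat_lit 1)
 (.cons (nat_lit 1368) (nat_lit 1218) (nat_lit 1173) (nat_lit 1) .nil)), (nat_lit 3), (nat_lit 0), (nat_lit 0),
 (nat_lit 0), (37, 1, 38), [158, 1341], 0⟩,
  ⟨⟨27, 68, 16, 64, -15, -62, -6, 48, -43⟩, (.cons (nat_lit 233) (nat_lit 252) (nat_lit 95) (nat_lit 1) (.cons
 (nat_lit 708) (nat_lit 67) (nat_lit 158) (nat_lit 1) .nil)), (nat_lit 46), (nat_lit 0), (nat_lit 0), (nat_lit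
 0), (60, 16, 34), [146, 959], 0⟩,
  ⟨⟨27, -68, 16, 64, 15, -62, -6, -48, -43⟩, (.cons (nat_lit 328) (nat_lit 284) (nat_lit 249) (nat_lit 1)
 (.cons (nat_lit 49) (nat_lit 38) (nat_lit 739) (nat_lit 1) .nil)), (nat_lit 46), (nat_lit 0), (nat_lit 0),
 (nat_lit 0), (7, 35, 30), [225, 1186], 0⟩,
  mz,
  ⟨⟨-29, 72, 20, 56, 25, -68, -38, 16, -35⟩, (.cons (nat_lit 84) (nat_lit 124) (nat_lit 1) (nat_lit 76) (.cons
 (nat_lit 313) (nat_lit 168) (nat_lit 84) (nat_lit 1) .nil)), (nat_lit 8), (nat_lit 0), (nat_lit 0), (nat_lit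
 0), (33, 44, 31), [69, 475], 0⟩,
  ⟨⟨3, 40, -76, 64, 25, -12, 26, -32, -67⟩, (.cons (nat_lit 190) (nat_lit 222) (nat_lit 159) (nat_lit 1) (.cons
 (nat_lit 468) (nat_lit 778) (nat_lit 389) (nat_lit 1) .nil)), (nat_lit 7), (nat_lit 0), (nat_lit 0), (nat_lit
 0), (14, 62, 3), [37, 614], 0⟩,
  mz,
  mz,
  ⟨⟨33, -20, -92, 64, 15, -2, 6, 48, -49⟩, (.cons (nat_lit 346) (nat_lit 1) (nat_lit 253) (nat_lit 1) (.cons
 (nat_lit 996) (nat_lit 636) (nat_lit 41) (nat_lit 1) .nil)), (nat_lit 12), (nat_lit 0), (nat_lit 0), (nat_lit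
 0), (67, 3, 38), [256, 980], 0⟩,
  ⟨⟨9, 76, -20, -44, 15, 82, -42, 24, -25⟩, (.cons (nat_lit 24) (nat_lit 337) (nat_lit 65) (nat_lit 1) (.cons
 (nat_lit 345) (nat_lit 989) (nat_lit 914) (nat_lit 1) .nil)), (nat_lit 11), (nat_lit 0), (nat_lit 0), (nat_lit
 0), (31, 22, 21), [168, 224], 0⟩,
  mz,
  mz,
  ⟨⟨-9, 76, -11, -44, -15, -38, 42, 24, -67⟩, (.cons (nat_lit 102) (nat_lit 165) (nat_lit 231) (nat_lit 1)
 (.cons (nat_lit 786) (nat_lit 919) (nat_lit 1134) (nat_lit 1) .nil)), (nat_lit 67), (nat_lit 0), (nat_lit 0),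
 (nat_lit 0), (25, 67, 49), [87, 977], 0⟩,
  ⟨⟨17, 24, -89, -36, -55, -12, 54, -24, -53⟩, (.cons (nat_lit 359) (nat_lit 192) (nat_lit 1) (nat_lit 190)
 (.cons (nat_lit 28) (nat_lit 65) (nat_lit 1224) (nat_lit 1) .nil)), (nat_lit 22), (nat_lit 0), (nat_lit 0),
 (nat_lit 0), (7, 52, 64), [180, 1016], 0⟩,
  mz,
  ⟨⟨29, -72, -9, -56, -25, -12, 38, -16, -73⟩, (.cons (nat_lit 23) (nat_lit 198) (nat_lit 19) (nat_lit 1)
 (.cons (nat_lit 318) (nat_lit 1367) (nat_lit 730) (nat_lit 1) .nil)), (nat_lit 8), (nat_lit 0), (nat_lit 0),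
 (nat_lit 0), (70, 46, 55), [227, 290], 0⟩,
  ⟨⟨-61, -48, 25, 44, -55, -32, -22, -8, -55⟩, (.cons (nat_lit 291) (nat_lit 150) (nat_lit 50) (nat_lit 1)
 (.cons (nat_lit 595) (nat_lit 1349) (nat_lit 544) (nat_lit 1) .nil)), (nat_lit 24), (nat_lit 0), (nat_lit 0),
 (nat_lit 0), (9, 68, 37), [302, 1199], 0⟩,
  mz,
  mz,
  ⟨⟨17, -24, 72, 36, -55, -48, 54, 24, -1⟩, (.cons (nat_lit 120) (nat_lit 31) (nat_lit 190) (nat_lit 1) (.cons
 (nat_lit 694) (nat_lit 10) (nat_lit 292) (nat_lit 1) .nil)), (nat_lit 70), (nat_lit 0), (nat_lit 0), (nat_lit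
 0), (28, 5, 43), [65, 758], 0⟩,
  ⟨⟨39, -40, -80, -44, -55, 32, -22, 8, -55⟩, (.cons (nat_lit 360) (nat_lit 243) (nat_lit 334) (nat_lit 1)
 (.cons (nat_lit 1368) (nat_lit 1247) (nat_lit 646) (nat_lit 1) .nil)), (nat_lit 23), (nat_lit 0), (nat_lit 0),
 (nat_lit 0), (1, 28, 14), [70, 478], 0⟩,
  ⟨⟨-39, 40, -41, -44, -55, 12, 22, -8, -77⟩, (.cons (nat_lit 263) (nat_lit 260) (nat_lit 207) (nat_lit 1)
 (.cons (nat_lit 543) (nat_lit 1277) (nat_lit 312) (nat_lit 1) .nil)), (nat_lit 19), (nat_lit 0), (nat_lit 0),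
 (nat_lit 0), (2, 15, 28), [134, 236], 0⟩,
  mz,
  ⟨⟨51, -4, 40, -10, 69, 20, 60, 12, -49⟩, (.cons (nat_lit 360) (nat_lit 37) (nat_lit 326) (nat_lit 1) (.cons
 (nat_lit 1368) (nat_lit 673) (nat_lit 1123) (nat_lit 1) .nil)), (nat_lit 26), (nat_lit 0), (nat_lit 0),
 (nat_lit 0), (60, 30, 33), [181, 1056], 0⟩,
  mz,
  mz,
  ⟨⟨9, 28, -85, -70, 11, 30, -4, -44, -49⟩, (.cons (nat_lit 31) (nat_lit 172) (nat_lit 352) (nat_lit 1) (.cons
 (nat_lit 678) (nat_lit 576) (nat_lit 1204) (nat_lit 1) .nil)), (nat_lit 57), (nat_lit 0), (nat_lit 0),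
 (nat_lit 0), (40, 36, 69), [162, 1107], 0⟩,
  mz,
  ⟨⟨-11, 72, -25, 50, -11, -80, -44, 4, -29⟩, (.cons (nat_lit 140) (nat_lit 33) (nat_lit 136) (nat_lit 1)
 (.cons (nat_lit 982) (nat_lit 408) (nat_lit 532) (nat_lit 1) .nil)), (nat_lit 29), (nat_lit 0), (nat_lit 0),
 (nat_lit 0), (44, 13, 34), [308, 1129], 0⟩,
  mz,
  ⟨⟨-9, 56, -55, -56, 25, 68, -38, -16, -35⟩, (.cons (nat_lit 160) (nat_lit 154) (nat_lit 353) (nat_lit 1)
 (.cons (nat_lit 582) (nat_lit 269) (nat_lit 565) (nat_lit 1) .nil)), (nat_lit 69), (nat_lit 0), (nat_lit 0),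
 (nat_lit 0), (50, 35, 6), [82, 225], 0⟩,
  ⟨⟨75, 20, -32, 10, -21, -80, 12, 60, -25⟩, (.cons (nat_lit 295) (nat_lit 316) (nat_lit 22) (nat_lit 1) (.cons
 (nat_lit 815) (nat_lit 326) (nat_lit 1) (nat_lit 740) .nil)), (nat_lit 55), (nat_lit 0), (nat_lit 0), (nat_lit
 0), (30, 4, 19), [263, 645], 0⟩,
  mz,
  ⟨⟨23, 72, 9, -64, 25, 12, 26, 32, -67⟩, (.cons (nat_lit 200) (nat_lit 315) (nat_lit 344) (nat_lit 1) (.cons
 (nat_lit 76) (nat_lit 1152) (nat_lit 645) (nat_lit 1) .nil)), (nat_lit 18), (nat_lit 0), (nat_lit 0), (nat_lit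
 0), (66, 17, 53), [168, 136], 0⟩,
  mz,
  ⟨⟨17, -24, -89, 36, -55, 12, 54, 24, -53⟩, (.cons (nat_lit 221) (nat_lit 129) (nat_lit 1) (nat_lit 323)
 (.cons (nat_lit 176) (nat_lit 1066) (nat_lit 173) (nat_lit 1) .nil)), (nat_lit 70), (nat_lit 0), (nat_lit 0),
 (nat_lit 0), (5, 44, 66), [20, 387], 0⟩,
  ⟨⟨-23, -72, 32, -64, 25, 52, -26, -32, -41⟩, (.cons (nat_lit 8) (nat_lit 25) (nat_lit 36) (nat_lit 1) (.cons
 (nat_lit 1157) (nat_lit 527) (nat_lit 983) (nat_lit 1) .nil)), (nat_lit 49), (nat_lit 0), (nat_lit 0),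
 (nat_lit 0), (21, 43, 33), [204, 19], 0⟩,
  mz,
  mz,
  ⟨⟨-65, 24, -7, -4, 55, 52, 10, 40, -59⟩, (.cons (nat_lit 125) (nat_lit 270) (nat_lit 297) (nat_lit 1) (.cons
 (nat_lit 156) (nat_lit 1173) (nat_lit 444) (nat_lit 1) .nil)), (nat_lit 50), (nat_lit 0), (nat_lit 0),
 (nat_lit 0), (43, 66, 48), [52, 531], 0⟩,
  ⟨⟨11, -72, -36, -50, 11, -30, 44, -4, -73⟩, (.cons (nat_lit 316) (nat_lit 148) (nat_lit 104) (nat_lit 1)
 (.cons (nat_lit 199) (nat_lit 1159) (nat_lit 421) (nat_lit 1) .nil)), (nat_lit 29), (nat_lit 0), (nat_lit 0),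
 (nat_lit 0), (69, 22, 63), [330, 684], 0⟩,
  ⟨⟨-39, -40, -41, 44, -55, -12, 22, 8, -77⟩, (.cons (nat_lit 225) (nat_lit 195) (nat_lit 238) (nat_lit 1)
 (.cons (nat_lit 173) (nat_lit 345) (nat_lit 1197) (nat_lit 1) .nil)), (nat_lit 23), (nat_lit 0), (nat_lit 0),
 (nat_lit 0), (46, 10, 5), [172, 680], 0⟩,
  mz,
  ⟨⟨-9, -76, -11, -44, 15, -38, 42, -24, -67⟩, (.cons (nat_lit 342) (nat_lit 83) (nat_lit 300) (nat_lit 1)
 (.cons (nat_lit 712) (nat_lit 458) (nat_lit 1163) (nat_lit 1) .nil)), (nat_lit 67), (nat_lit 0), (nat_lit 0),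
 (nat_lit 0), (66, 15, 47), [12, 90], 0⟩,
  ⟨⟨51, 4, -91, 10, 69, 10, 60, -12, -11⟩, (.cons (nat_lit 356) (nat_lit 74) (nat_lit 16) (nat_lit 1) (.cons
 (nat_lit 537) (nat_lit 100) (nat_lit 602) (nat_lit 1) .nil)), (nat_lit 48), (nat_lit 0), (nat_lit 0), (nat_lit
 0), (45, 13, 7), [55, 982], 0⟩,
  ⟨⟨51, 4, 40, 10, 69, -20, 60, -12, -49⟩, (.cons (nat_lit 360) (nat_lit 331) (nat_lit 143) (nat_lit 1) (.cons
 (nat_lit 1368) (nat_lit 494) (nat_lit 1248) (nat_lit 1) .nil)), (nat_lit 48), (nat_lit 0), (nat_lit 0),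
 (nat_lit 0), (13, 29, 32), [165, 17], 0⟩,
  ⟨⟨9, -56, -64, -56, 25, -12, 38, 16, -73⟩, (.cons (nat_lit 316) (nat_lit 42) (nat_lit 176) (nat_lit 1) (.cons
 (nat_lit 988) (nat_lit 913) (nat_lit 786) (nat_lit 1) .nil)), (nat_lit 39), (nat_lit 0), (nat_lit 0), (nat_lit
 0), (4, 54, 9), [116, 893], 0⟩,
  ⟨⟨-75, 16, 23, 4, 55, 48, -10, 40, -49⟩, (.cons (nat_lit 26) (nat_lit 200) (nat_lit 220) (nat_lit 1) (.cons
 (nat_lit 939) (nat_lit 598) (nat_lit 629) (nat_lit 1) .nil)), (nat_lit 42), (nat_lit 0), (nat_lit 0), (nat_lit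
 0), (26, 45, 65), [135, 1327], 0⟩,
  ⟨⟨-51, 52, -5, -44, -15, 82, -42, -24, -25⟩, (.cons (nat_lit 296) (nat_lit 54) (nat_lit 289) (nat_lit 1)
 (.cons (nat_lit 1032) (nat_lit 1145) (nat_lit 1004) (nat_lit 1) .nil)), (nat_lit 4), (nat_lit 0), (nat_lit 0),
 (nat_lit 0), (18, 3, 19), [39, 1054], 0⟩,
  mz,
  ⟨⟨13, -72, 23, 70, 11, -40, 4, -44, -53⟩, (.cons (nat_lit 165) (nat_lit 333) (nat_lit 304) (nat_lit 1) (.cons
 (nat_lit 464) (nat_lit 673) (nat_lit 1137) (nat_lit 1) .nil)), (nat_lit 43), (nat_lit 0), (nat_lit 0),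
 (nat_lit 0), (14, 59, 48), [160, 418], 0⟩,
  ⟨⟨9, 16, 80, -10, 69, -10, 60, 12, -11⟩, (.cons (nat_lit 91) (nat_lit 86) (nat_lit 290) (nat_lit 1) (.cons
 (nat_lit 1319) (nat_lit 1123) (nat_lit 531) (nat_lit 1) .nil)), (nat_lit 47), (nat_lit 0), (nat_lit 0),
 (nat_lit 0), (58, 46, 8), [72, 1341], 0⟩,
  ⟨⟨75, -20, -32, 10, 21, -80, 12, -60, -25⟩, (.cons (nat_lit 360) (nat_lit 76) (nat_lit 167) (nat_lit 1)
 (.cons (nat_lit 1368) (nat_lit 1009) (nat_lit 921) (nat_lit 1) .nil)), (nat_lit 55), (nat_lit 0), (nat_lit 0),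
 (nat_lit 0), (52, 59, 14), [147, 635], 0⟩,
  mz,
  ⟨⟨-11, -72, -25, 50, 11, -80, -44, -4, -29⟩, (.cons (nat_lit 198) (nat_lit 239) (nat_lit 338) (nat_lit 1)
 (.cons (nat_lit 737) (nat_lit 1247) (nat_lit 1133) (nat_lit 1) .nil)), (nat_lit 29), (nat_lit 0), (nat_lit 0),
 (nat_lit 0), (38, 8, 10), [336, 10], 0⟩,
  ⟨⟨-75, -20, 43, 10, -21, 70, -12, -60, -13⟩, (.cons (nat_lit 346) (nat_lit 331) (nat_lit 240) (nat_lit 1)
 (.cons (nat_lit 548) (nat_lit 455) (nat_lit 915) (nat_lit 1) .nil)), (nat_lit 34), (nat_lit 0), (nat_lit 0),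
 (nat_lit 0), (2, 66, 6), [319, 420], 0⟩,
  mz,
  mz,
  mz,
  ⟨⟨11, 72, -36, -50, -11, -30, 44, 4, -73⟩, (.cons (nat_lit 263) (nat_lit 302) (nat_lit 321) (nat_lit 1)
 (.cons (nat_lit 968) (nat_lit 690) (nat_lit 615) (nat_lit 1) .nil)), (nat_lit 29), (nat_lit 0), (nat_lit 0),
 (nat_lit 0), (4, 27, 16), [155, 989], 0⟩,
  mz,
  ⟨⟨-13, 72, 36, -70, -11, 30, -4, 44, -49⟩, (.cons (nat_lit 143) (nat_lit 308) (nat_lit 1) (nat_lit 247)
 (.cons (nat_lit 255) (nat_lit 1256) (nat_lit 491) (nat_lit 1) .nil)), (nat_lit 43), (nat_lit 0), (nat_lit 0),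
 (nat_lit 0), (35, 41, 49), [284, 381], 0⟩,
  ⟨⟨75, -16, -52, 4, 55, -52, 10, -40, -59⟩, (.cons (nat_lit 360) (nat_lit 243) (nat_lit 237) (nat_lit 1)
 (.cons (nat_lit 1368) (nat_lit 256) (nat_lit 1051) (nat_lit 1) .nil)), (nat_lit 65), (nat_lit 0), (nat_lit 0),
 (nat_lit 0), (51, 51, 21), [346, 21], 0⟩,
  mz,
  ⟨⟨33, 20, -92, 64, -15, -2, 6, -48, -49⟩, (.cons (nat_lit 194) (nat_lit 133) (nat_lit 103) (nat_lit 1) (.cons
 (nat_lit 237) (nat_lit 831) (nat_lit 917) (nat_lit 1) .nil)), (nat_lit 12), (nat_lit 0), (nat_lit 0), (nat_lit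
 0), (45, 55, 34), [322, 731], 0⟩,
  ⟨⟨13, 72, 23, 70, -11, -40, 4, 44, -53⟩, (.cons (nat_lit 7) (nat_lit 325) (nat_lit 325) (nat_lit 1) (.cons
 (nat_lit 1019) (nat_lit 362) (nat_lit 544) (nat_lit 1) .nil)), (nat_lit 43), (nat_lit 0), (nat_lit 0),
 (nat_lit 0), (20, 64, 28), [175, 870], 0⟩,
  ⟨⟨-3, -40, -73, 64, 25, -52, -26, 32, -41⟩, (.cons (nat_lit 88) (nat_lit 166) (nat_lit 343) (nat_lit 1)
 (.cons (nat_lit 788) (nat_lit 223) (nat_lit 1074) (nat_lit 1) .nil)), (nat_lit 33), (nat_lit 0), (nat_lit 0),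
 (nat_lit 0), (56, 36, 12), [9, 474], 0⟩,
  ⟨⟨37, -48, -73, 36, 55, -48, 54, -24, -1⟩, (.cons (nat_lit 57) (nat_lit 184) (nat_lit 49) (nat_lit 1) (.cons
 (nat_lit 1299) (nat_lit 694) (nat_lit 1158) (nat_lit 1) .nil)), (nat_lit 38), (nat_lit 0), (nat_lit 0),
 (nat_lit 0), (11, 51, 41), [354, 1134], 0⟩]

/-- All the moves. -/
noncomputable def tabs : List (List (List Mv)) := [[[], t0_1, t0_2, [], [], [], [], [], t0_8], [[], t1_1, t1_2, [], [], [], [], [], t1_8], [], [], [[], t4_1, t4_2, [], [], [], [], [], t4_8]]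

/-- Subtrie. -/
noncomputable def T1 : Tr := (.ev (nat_lit 20) (nat_lit 1531234661791457939874) (.nd (nat_lit 33) (.br (nat_lit
 19) (.br (nat_lit 11) (.br (nat_lit 7) (.br (nat_lit 4) (.ch (nat_lit 1) (.ev (nat_lit 52) (nat_lit
 737923946901263386624) (.ev (nat_lit 512) (nat_lit 4902459290105151512) .dd))) (.br (nat_lit 5) (.ch (nat_lit
 4) (.ev (nat_lit 52) (nat_lit 590314106782493181976) (.ev (nat_lit 244) (nat_lit 8796093022208) (.ev (nat_lit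
 340) (nat_lit 4611686018427387904) (.ev (nat_lit 468) (nat_lit 147573952589676412928) (.ev (nat_lit 832)
 (nat_lit 326652004678533120) .dd)))))) (.ch (nat_lit 5) (.ev (nat_lit 52) (nat_lit 738160386414276771840) (.ev
 (nat_lit 148) (nat_lit 8) (.ev (nat_lit 244) (nat_lit 281474976710656) (.ev (nat_lit 436) (nat_lit 16) (.ev
 (nat_lit 468) (nat_lit 8796093022208) (.ev (nat_lit 532) (nat_lit 8388608) (.ev (nat_lit 1472) (nat_lit 2048)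
 (.ev (nat_lit 1856) (nat_lit 4611686018427387904) (.ev (nat_lit 1894) (nat_lit 274877906944) (.nd (nat_lit
 1904) (.br (nat_lit 6) (.br (nat_lit 2) (.ch (nat_lit 1) (.ev (nat_lit 1920) (nat_lit 36028814198833152) (.ev
 (nat_lit 2244) (nat_lit 32768) (.ev (nat_lit 2253) (nat_lit 18014398509481984) .dd)))) (.br (nat_lit 4) (.ch
 (nat_lit 2) (.ev (nat_lit 1920) (nat_lit 18014415689383936) (.ev (nat_lit 1933) (nat_lit 36028797018963968)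
 .dd))) (.ch (nat_lit 4) (.ev (nat_lit 1920) (nat_lit 36028814198833152) (.ev (nat_lit 2208) (nat_lit
 18014398509514752) .dd))))) (.br (nat_lit 12) (.br (nat_lit 9) (.ch (nat_lit 6) (.ev (nat_lit 1920) (nat_lit
 54043212708347904) .dd)) (.ch (nat_lit 9) (.ev (nat_lit 1920) (nat_lit 54043212708347904) .dd))) (.br (nat_lit
 15) (.ch (nat_lit 12) (.ev (nat_lit 1920) (nat_lit 18014415689383936) (.ev (nat_lit 1933) (nat_lit
 36028797018963968) .dd))) (.ch (nat_lit 15) (.ev (nat_lit 1920) (nat_lit 54043195528478720) (.ev (nat_lit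
 1933) (nat_lit 17179869184) .dd))))))))))))))))))) (.br (nat_lit 8) (.ch (nat_lit 7) (.ev (nat_lit 52)
 (nat_lit 9363028967440) (.ev (nat_lit 148) (nat_lit 4611686018427387904) (.ev (nat_lit 180) (nat_lit 8388608)
 (.ev (nat_lit 372) (nat_lit 590295810358705651712) (.ev (nat_lit 532) (nat_lit 2048) (.ev (nat_lit 692)
 (nat_lit 32768) (.ev (nat_lit 724) (nat_lit 524288) (.ev (nat_lit 756) (nat_lit 18014398509481984) (.ev
 (nat_lit 884) (nat_lit 36028797018963968) (.ev (nat_lit 916) (nat_lit 274877906944) (.ev (nat_lit 1012)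
 (nat_lit 281474976710656) (.ev (nat_lit 1664) (nat_lit 147573952589676412928) (.nd (nat_lit 1904) (.br
 (nat_lit 9) (.br (nat_lit 4) (.ch (nat_lit 1) (.ev (nat_lit 1920) (nat_lit 288371114176937984) (.ev (nat_lit
 1952) (nat_lit 8) (.ev (nat_lit 2244) (nat_lit 2147483648) (.ev (nat_lit 2253) (nat_lit 2251799813685248)
 .dd))))) (.br (nat_lit 7) (.ch (nat_lit 4) (.ev (nat_lit 1920) (nat_lit 290622913990623240) (.ev (nat_lit
 1933) (nat_lit 2147483648) .dd))) (.ch (nat_lit 7) (.ev (nat_lit 1920) (nat_lit 290622916138106888) .dd))))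
 (.br (nat_lit 10) (.ch (nat_lit 9) (.ev (nat_lit 1920) (nat_lit 2251801961168904) (.ev (nat_lit 1936) (nat_lit
 288230376151711744) (.ev (nat_lit 1984) (nat_lit 536870912) (.ev (nat_lit 1997) (nat_lit 140737488355328)
 .dd))))) (.br (nat_lit 18) (.ch (nat_lit 10) (.ev (nat_lit 1920) (nat_lit 290622916138106888) .dd)) (.ch
 (nat_lit 18) (.ev (nat_lit 1920) (nat_lit 288371116324421640) (.ev (nat_lit 1933) (nat_lit 2251799813685248)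
 .dd)))))))))))))))))))) (.br (nat_lit 10) (.ch (nat_lit 8) (.ev (nat_lit 52) (nat_lit 595213741994153609216)
 (.ev (nat_lit 212) (nat_lit 32784) (.ev (nat_lit 308) (nat_lit 36028797018963968) (.ev (nat_lit 736) (nat_lit
 147576635400195932168) .dd))))) (.ch (nat_lit 10) (.ev (nat_lit 52) (nat_lit 594946058451089883136) (.ev
 (nat_lit 288) (nat_lit 147880347740278655000) .dd)))))) (.br (nat_lit 15) (.br (nat_lit 12) (.ch (nat_lit 11)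
 (.ev (nat_lit 52) (nat_lit 147628137365043972112) (.ev (nat_lit 372) (nat_lit 2251799813685248) (.ev (nat_lit
 660) (nat_lit 524288) (.ev (nat_lit 852) (nat_lit 8388608) (.ev (nat_lit 884) (nat_lit 590295810358705651712)
 (.ev (nat_lit 1216) (nat_lit 4611686020574871552) (.nd (nat_lit 1904) (.br (nat_lit 9) (.br (nat_lit 6) (.br
 (nat_lit 2) (.ch (nat_lit 1) (.ev (nat_lit 1920) (nat_lit 288239172244733960) (.ev (nat_lit 1933) (nat_lit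
 281474976710656) .dd))) (.ch (nat_lit 2) (.ev (nat_lit 1920) (nat_lit 288511851128422400) (.ev (nat_lit 1968)
 (nat_lit 8) (.ev (nat_lit 1981) (nat_lit 8796093022208) .dd))))) (.br (nat_lit 7) (.ch (nat_lit 6) (.ev
 (nat_lit 1920) (nat_lit 290271069732864) (.ev (nat_lit 2244) (nat_lit 8) (.ev (nat_lit 2253) (nat_lit
 288230376151711744) .dd)))) (.ch (nat_lit 7) (.ev (nat_lit 1920) (nat_lit 288520647221444616) .dd)))) (.br
 (nat_lit 15) (.br (nat_lit 12) (.ch (nat_lit 9) (.ev (nat_lit 1920) (nat_lit 288239172244733960) (.ev (nat_lit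
 1933) (nat_lit 281474976710656) .dd))) (.ch (nat_lit 12) (.ev (nat_lit 1920) (nat_lit 290271069732872) (.ev
 (nat_lit 1933) (nat_lit 288230376151711744) .dd)))) (.br (nat_lit 18) (.ch (nat_lit 15) (.ev (nat_lit 1920)
 (nat_lit 288520647221444616) .dd)) (.ch (nat_lit 18) (.ev (nat_lit 1920) (nat_lit 288520647221444616)
 .dd))))))))))))) (.br (nat_lit 13) (.ch (nat_lit 12) (.ev (nat_lit 52) (nat_lit 288512676308189200) (.ev
 (nat_lit 384) (nat_lit 742537893515060348936) .dd))) (.ch (nat_lit 13) (.ev (nat_lit 52) (nat_lit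
 18445699134291984) (.ev (nat_lit 148) (nat_lit 2147483648) (.ev (nat_lit 180) (nat_lit 590295810358705653760)
 (.ev (nat_lit 372) (nat_lit 262144) (.ev (nat_lit 628) (nat_lit 536870912) (.ev (nat_lit 1248) (nat_lit
 2251799813685248) (.ev (nat_lit 1792) (nat_lit 147573952589676412928) (.nd (nat_lit 1904) (.br (nat_lit 10)
 (.br (nat_lit 6) (.ch (nat_lit 4) (.ev (nat_lit 1920) (nat_lit 4935945741353877512) .dd)) (.ch (nat_lit 6)
 (.ev (nat_lit 1920) (nat_lit 4935945741353877504) (.ev (nat_lit 1933) (nat_lit 8) .dd)))) (.br (nat_lit 12)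
 (.ch (nat_lit 10) (.ev (nat_lit 1920) (nat_lit 8) (.ev (nat_lit 2032) (nat_lit 36028797018963968) (.ev
 (nat_lit 2064) (nat_lit 288230376151711744) (.ev (nat_lit 2080) (nat_lit 549755813888) (.ev (nat_lit 2093)
 (nat_lit 4611686018427387904) .dd)))))) (.br (nat_lit 15) (.ch (nat_lit 12) (.ev (nat_lit 1920) (nat_lit
 4899916944334913544) (.ev (nat_lit 1933) (nat_lit 36028797018963968) .dd))) (.ch (nat_lit 15) (.ev (nat_lit
 1920) (nat_lit 4899916944334913544) (.ev (nat_lit 1933) (nat_lit 36028797018963968) .dd))))))))))))))))) (.br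
 (nat_lit 17) (.br (nat_lit 16) (.ch (nat_lit 15) (.ev (nat_lit 52) (nat_lit 4614228656246489088) (.ev (nat_lit
 180) (nat_lit 140737488355328) (.ev (nat_lit 340) (nat_lit 2147483648) (.ev (nat_lit 596) (nat_lit
 274877906944) (.ev (nat_lit 660) (nat_lit 8388608) (.ev (nat_lit 724) (nat_lit 36028797018963968) (.ev
 (nat_lit 884) (nat_lit 262144) (.ev (nat_lit 1012) (nat_lit 147573952589676412928) (.ev (nat_lit 1600)
 (nat_lit 32768) (.nd (nat_lit 1904) (.br (nat_lit 7) (.br (nat_lit 4) (.ch (nat_lit 2) (.ev (nat_lit 1920)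
 (nat_lit 590602055133367371776) (.ev (nat_lit 1952) (nat_lit 8) (.ev (nat_lit 2244) (nat_lit 16) (.ev (nat_lit
 2253) (nat_lit 536870912) .dd))))) (.br (nat_lit 6) (.ch (nat_lit 4) (.ev (nat_lit 1920) (nat_lit
 590602055133904240664) (.ev (nat_lit 1933) (nat_lit 2048) .dd))) (.ch (nat_lit 6) (.ev (nat_lit 1920) (nat_lit
 590295810359243048984) (.ev (nat_lit 1952) (nat_lit 306244774661193728) .dd))))) (.br (nat_lit 11) (.br
 (nat_lit 9) (.ch (nat_lit 7) (.ev (nat_lit 1920) (nat_lit 590602055133904242712) .dd)) (.ch (nat_lit 9) (.ev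
 (nat_lit 1920) (nat_lit 590313824757752528920) (.fin (nat_lit 576470098154832458))))) (.br (nat_lit 15) (.ch
 (nat_lit 11) (.ev (nat_lit 1920) (nat_lit 306244775198066688) (.ev (nat_lit 1936) (nat_lit 16) (.ev (nat_lit
 2160) (nat_lit 590295810358705651712) (.ev (nat_lit 2244) (nat_lit 8) (.ev (nat_lit 2253) (nat_lit 524288)
 .dd)))))) (.ch (nat_lit 15) (.ev (nat_lit 1920) (nat_lit 306244775198066712) (.ev (nat_lit 2000) (nat_lit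
 590295810358706176000) .dd))))))))))))))))) (.ch (nat_lit 16) (.ev (nat_lit 52) (nat_lit
 152221808142619508736) (.ev (nat_lit 160) (nat_lit 590604598048749029400) .dd)))) (.br (nat_lit 18) (.ch
 (nat_lit 17) (.ev (nat_lit 52) (nat_lit 590314115028285655040) (.ev (nat_lit 212) (nat_lit
 4611686018427387904) (.ev (nat_lit 276) (nat_lit 2147483648) (.ev (nat_lit 308) (nat_lit 2251799813685248)
 (.ev (nat_lit 372) (nat_lit 8388608) (.ev (nat_lit 404) (nat_lit 140737488355328) (.ev (nat_lit 660) (nat_lit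
 288230376151711744) (.ev (nat_lit 788) (nat_lit 8) (.ev (nat_lit 916) (nat_lit 536870912) (.ev (nat_lit 980)
 (nat_lit 32768) (.ev (nat_lit 1376) (nat_lit 147573952881734189056) (.nd (nat_lit 1904) (.br (nat_lit 6) (.br
 (nat_lit 2) (.ch (nat_lit 1) (.ev (nat_lit 1920) (nat_lit 36029346774777872) .dd)) (.br (nat_lit 4) (.ch
 (nat_lit 2) (.ev (nat_lit 1920) (nat_lit 36028797018963984) (.ev (nat_lit 1933) (nat_lit 549755813888) .dd)))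
 (.ch (nat_lit 4) (.ev (nat_lit 1920) (nat_lit 36029346774777856) (.ev (nat_lit 1933) (nat_lit 16) .dd)))))
 (.br (nat_lit 12) (.br (nat_lit 7) (.ch (nat_lit 6) (.ev (nat_lit 1920) (nat_lit 36029346774777872) .dd)) (.ch
 (nat_lit 7) (.ev (nat_lit 1920) (nat_lit 549755813904) (.ev (nat_lit 1933) (nat_lit 36028797018963968) .dd))))
 (.br (nat_lit 18) (.ch (nat_lit 12) (.ev (nat_lit 1920) (nat_lit 36028797018963984) (.ev (nat_lit 1933)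
 (nat_lit 549755813888) .dd))) (.ch (nat_lit 18) (.ev (nat_lit 1920) (nat_lit 36029346774777872)
 .dd)))))))))))))))))) (.ch (nat_lit 18) (.ev (nat_lit 52) (nat_lit 590298062433943060480) (.ev (nat_lit 84)
 (nat_lit 8796093022208) (.ev (nat_lit 180) (nat_lit 262144) (.ev (nat_lit 276) (nat_lit 16) (.ev (nat_lit 372)
 (nat_lit 140737488355328) (.ev (nat_lit 436) (nat_lit 549755813888) (.ev (nat_lit 564) (nat_lit 8) (.ev
 (nat_lit 724) (nat_lit 18014398509481984) (.ev (nat_lit 980) (nat_lit 2147483648) (.ev (nat_lit 1728) (nat_lit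
 288230376151711744) (.nd (nat_lit 1904) (.br (nat_lit 11) (.br (nat_lit 9) (.br (nat_lit 4) (.ch (nat_lit 1)
 (.ev (nat_lit 1920) (nat_lit 147610262878851958784) (.ev (nat_lit 1933) (nat_lit 4611686018427387904) .dd)))
 (.ch (nat_lit 4) (.ev (nat_lit 1920) (nat_lit 152185920100260380672) (.ev (nat_lit 2032) (nat_lit 2048) (.ev
 (nat_lit 2045) (nat_lit 36028797018963968) .dd))))) (.br (nat_lit 10) (.ch (nat_lit 9) (.ev (nat_lit 1920)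
 (nat_lit 4647714832626223104) (.ev (nat_lit 1936) (nat_lit 281474976710656) (.ev (nat_lit 1949) (nat_lit
 147573952589676412928) .dd)))) (.ch (nat_lit 10) (.ev (nat_lit 1920) (nat_lit 152221948897279346688) .dd))))
 (.br (nat_lit 15) (.br (nat_lit 12) (.ch (nat_lit 11) (.ev (nat_lit 1920) (nat_lit 147610262878851958784) (.ev
 (nat_lit 1933) (nat_lit 4611686018427387904) .dd))) (.ch (nat_lit 12) (.ev (nat_lit 1920) (nat_lit
 152185920100260382720) (.ev (nat_lit 1933) (nat_lit 36028797018963968) .dd)))) (.br (nat_lit 18) (.ch (nat_lit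
 15) (.ev (nat_lit 1920) (nat_lit 4647996290423062528) (.ev (nat_lit 2244) (nat_lit 147573952589676414976) (.ev
 (nat_lit 2253) (nat_lit 17179869184) .dd)))) (.ch (nat_lit 18) (.ev (nat_lit 1920) (nat_lit
 152221948880099477504) (.ev (nat_lit 1933) (nat_lit 17179869184) .dd)))))))))))))))))))))) (.br (nat_lit 26)
 (.br (nat_lit 22) (.br (nat_lit 20) (.ch (nat_lit 19) (.ev (nat_lit 52) (nat_lit 4665870228478492680) (.ev
 (nat_lit 116) (nat_lit 17179869184) (.ev (nat_lit 404) (nat_lit 2251799813685248) (.ev (nat_lit 564) (nat_lit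
 16) (.ev (nat_lit 596) (nat_lit 536870912) (.ev (nat_lit 756) (nat_lit 590295810358705651712) (.ev (nat_lit
 1024) (nat_lit 9345848836096) (.ev (nat_lit 1648) (nat_lit 32768) (.nd (nat_lit 1904) (.br (nat_lit 11) (.br
 (nat_lit 6) (.ch (nat_lit 4) (.ev (nat_lit 1920) (nat_lit 147862182965828126720) (.ev (nat_lit 2000) (nat_lit
 281474976972800) .dd))) (.br (nat_lit 9) (.ch (nat_lit 6) (.ev (nat_lit 1920) (nat_lit 147862464440805099520)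
 .dd)) (.ch (nat_lit 9) (.ev (nat_lit 1920) (nat_lit 147862464440805097472) (.ev (nat_lit 1933) (nat_lit 2048)
 .dd))))) (.br (nat_lit 15) (.br (nat_lit 12) (.ch (nat_lit 11) (.ev (nat_lit 1920) (nat_lit 2048) (.ev
 (nat_lit 1952) (nat_lit 288230376151711744) (.ev (nat_lit 2000) (nat_lit 147573952589676412928) (.ev (nat_lit
 2244) (nat_lit 281474976710656) (.ev (nat_lit 2253) (nat_lit 262144) .dd)))))) (.ch (nat_lit 12) (.ev (nat_lit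
 1920) (nat_lit 281474976974848) (.ev (nat_lit 1952) (nat_lit 288230376151711744) (.ev (nat_lit 1965) (nat_lit
 147573952589676412928) .dd))))) (.br (nat_lit 18) (.ch (nat_lit 15) (.ev (nat_lit 1920) (nat_lit
 147862464440805099520) .dd)) (.ch (nat_lit 18) (.ev (nat_lit 1920) (nat_lit 147862464440805099520)
 .dd))))))))))))))) (.br (nat_lit 21) (.ch (nat_lit 20) (.ev (nat_lit 52) (nat_lit 56294995342166016) (.ev
 (nat_lit 84) (nat_lit 536870912) (.ev (nat_lit 244) (nat_lit 17179869184) (.ev (nat_lit 340) (nat_lit 8) (.ev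
 (nat_lit 468) (nat_lit 281474976710656) (.ev (nat_lit 704) (nat_lit 742769829703332921360) .dd))))))) (.ch
 (nat_lit 21) (.ev (nat_lit 52) (nat_lit 147594359802513358856) (.ev (nat_lit 404) (nat_lit 288230376151711744)
 (.ev (nat_lit 468) (nat_lit 17179869184) (.ev (nat_lit 532) (nat_lit 524288) (.ev (nat_lit 820) (nat_lit
 549755813904) (.ev (nat_lit 852) (nat_lit 2048) (.ev (nat_lit 948) (nat_lit 8796629893120) (.ev (nat_lit 1184)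
 (nat_lit 590331839155733004288) (.nd (nat_lit 1904) (.br (nat_lit 10) (.br (nat_lit 2) (.ch (nat_lit 1) (.ev
 (nat_lit 1920) (nat_lit 4611686018427650048) (.ev (nat_lit 1933) (nat_lit 281474976710656) .dd))) (.br
 (nat_lit 9) (.ch (nat_lit 2) (.ev (nat_lit 1920) (nat_lit 4611967493404360704) .dd)) (.ch (nat_lit 9) (.ev
 (nat_lit 1920) (nat_lit 4611686018427650048) (.ev (nat_lit 1933) (nat_lit 281474976710656) .dd))))) (.br
 (nat_lit 11) (.ch (nat_lit 10) (.ev (nat_lit 1920) (nat_lit 262144) (.ev (nat_lit 2016) (nat_lit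
 281474976710656) (.ev (nat_lit 2029) (nat_lit 4611686018427387904) .dd)))) (.br (nat_lit 18) (.ch (nat_lit 11)
 (.ev (nat_lit 2176) (nat_lit 281474976710656) (.ev (nat_lit 2244) (nat_lit 4611686018427387904) (.ev (nat_lit
 2253) (nat_lit 262144) .dd)))) (.ch (nat_lit 18) (.ev (nat_lit 1920) (nat_lit 281474976710656) (.ev (nat_lit
 1968) (nat_lit 262144) (.ev (nat_lit 1981) (nat_lit 4611686018427387904) .dd))))))))))))))))))) (.br (nat_lit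
 24) (.ch (nat_lit 22) (.ev (nat_lit 52) (nat_lit 152476543548445949952) (.ev (nat_lit 352) (nat_lit
 590349862642922588184) .dd))) (.br (nat_lit 25) (.ch (nat_lit 24) (.ev (nat_lit 52) (nat_lit
 306385514833938432) (.ev (nat_lit 180) (nat_lit 2251799813685248) (.ev (nat_lit 404) (nat_lit 262144) (.ev
 (nat_lit 640) (nat_lit 742517768876720652312) .dd))))) (.ch (nat_lit 25) (.ev (nat_lit 52) (nat_lit
 152491884209554849792) (.ev (nat_lit 116) (nat_lit 281474976710656) (.ev (nat_lit 340) (nat_lit 16) (.ev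
 (nat_lit 692) (nat_lit 8) (.ev (nat_lit 756) (nat_lit 2048) (.ev (nat_lit 1456) (nat_lit 32768) (.nd (nat_lit
 1904) (.br (nat_lit 10) (.br (nat_lit 6) (.ch (nat_lit 1) (.ev (nat_lit 1920) (nat_lit 590331979910929711104)
 (.ev (nat_lit 1984) (nat_lit 8796093022208) (.ev (nat_lit 2016) (nat_lit 524288) (.ev (nat_lit 2029) (nat_lit
 2251799813685248) .dd))))) (.br (nat_lit 7) (.ch (nat_lit 6) (.ev (nat_lit 1920) (nat_lit
 590334240506299547648) (.ev (nat_lit 1952) (nat_lit 536870912) (.ev (nat_lit 1965) (nat_lit 524288) .dd))))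
 (.ch (nat_lit 7) (.ev (nat_lit 1920) (nat_lit 8813810286592) (.ev (nat_lit 1968) (nat_lit
 590295810358705651712) (.ev (nat_lit 2256) (nat_lit 140737488355328) (.fin (nat_lit 576465700116709958))))))))
 (.br (nat_lit 11) (.ch (nat_lit 10) (.ev (nat_lit 1920) (nat_lit 590298211692637585408) (.ev (nat_lit 1936)
 (nat_lit 17179869184) (.ev (nat_lit 2016) (nat_lit 524288) (.ev (nat_lit 2029) (nat_lit 36028797018963968)
 .dd))))) (.br (nat_lit 12) (.ch (nat_lit 11) (.ev (nat_lit 1920) (nat_lit 38430148130766848) (.ev (nat_lit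
 2272) (nat_lit 590295810358706176000) .dd))) (.ch (nat_lit 12) (.ev (nat_lit 1920) (nat_lit
 590334099769348587520) (.ev (nat_lit 1933) (nat_lit 140737488355328) .dd))))))))))))))))) (.br (nat_lit 30)
 (.br (nat_lit 27) (.ch (nat_lit 26) (.ev (nat_lit 52) (nat_lit 152476402259591430168) (.ev (nat_lit 404)
 (nat_lit 2048) (.ev (nat_lit 628) (nat_lit 8796093022208) (.ev (nat_lit 692) (nat_lit 549755813888) (.ev
 (nat_lit 724) (nat_lit 590295810358705651712) (.ev (nat_lit 852) (nat_lit 36028797018963968) (.ev (nat_lit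
 916) (nat_lit 17179869184) (.ev (nat_lit 1264) (nat_lit 274877939712) (.ev (nat_lit 1776) (nat_lit 2147483648)
 (.nd (nat_lit 1904) (.br (nat_lit 10) (.br (nat_lit 4) (.ch (nat_lit 1) (.ev (nat_lit 1920) (nat_lit
 18155135997837312) (.ev (nat_lit 1933) (nat_lit 524288) .dd))) (.br (nat_lit 6) (.ch (nat_lit 4) (.ev (nat_lit
 1920) (nat_lit 140737488355328) (.ev (nat_lit 1936) (nat_lit 18014398509481984) (.ev (nat_lit 1949) (nat_lit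
 524288) .dd)))) (.ch (nat_lit 6) (.ev (nat_lit 1920) (nat_lit 18155135998361600) .dd)))) (.br (nat_lit 12)
 (.br (nat_lit 11) (.ch (nat_lit 10) (.ev (nat_lit 1920) (nat_lit 18155135998361600) .dd)) (.ch (nat_lit 11)
 (.ev (nat_lit 1920) (nat_lit 524288) (.fin (nat_lit 576462401572389439))))) (.br (nat_lit 18) (.ch (nat_lit
 12) (.ev (nat_lit 1920) (nat_lit 18014398510006272) (.ev (nat_lit 1933) (nat_lit 140737488355328) .dd))) (.ch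
 (nat_lit 18) (.ev (nat_lit 1920) (nat_lit 18155135998361600) .dd)))))))))))))))) (.br (nat_lit 29) (.ch
 (nat_lit 27) (.ev (nat_lit 52) (nat_lit 290772447035918360) (.ev (nat_lit 84) (nat_lit 147573952589676412928)
 (.ev (nat_lit 148) (nat_lit 32768) (.ev (nat_lit 180) (nat_lit 36028797018963968) (.ev (nat_lit 436) (nat_lit
 4611686018427387904) (.ev (nat_lit 724) (nat_lit 8388608) (.ev (nat_lit 788) (nat_lit 549755813888) (.ev
 (nat_lit 1012) (nat_lit 17179869184) (.ev (nat_lit 1360) (nat_lit 590295810361390006272) (.nd (nat_lit 1904)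
 (.br (nat_lit 9) (.br (nat_lit 2) (.ch (nat_lit 1) (.ev (nat_lit 1920) (nat_lit 18155410875744256) .dd)) (.br
 (nat_lit 7) (.ch (nat_lit 2) (.ev (nat_lit 1920) (nat_lit 140737488355328) (.ev (nat_lit 1936) (nat_lit
 18014398509481984) (.ev (nat_lit 1949) (nat_lit 274877906944) .dd)))) (.ch (nat_lit 7) (.ev (nat_lit 1920)
 (nat_lit 18155410875744256) .dd)))) (.br (nat_lit 11) (.br (nat_lit 10) (.ch (nat_lit 9) (.ev (nat_lit 1920)
 (nat_lit 18155135997837312) (.ev (nat_lit 1933) (nat_lit 274877906944) .dd))) (.ch (nat_lit 10) (.ev (nat_lit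
 1920) (nat_lit 18155410875744256) .dd))) (.br (nat_lit 15) (.ch (nat_lit 11) (.ev (nat_lit 1920) (nat_lit
 274877906944) (.fin (nat_lit 576462401572389439)))) (.ch (nat_lit 15) (.ev (nat_lit 1920) (nat_lit
 18014673387388928) (.ev (nat_lit 1933) (nat_lit 140737488355328) .dd))))))))))))))))) (.ch (nat_lit 29) (.ev
 (nat_lit 52) (nat_lit 737906223305871327248) (.ev (nat_lit 212) (nat_lit 8) (.ev (nat_lit 276) (nat_lit
 4611686018427387904) (.ev (nat_lit 308) (nat_lit 18014398509481984) (.ev (nat_lit 1072) (nat_lit 262144) (.nd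
 (nat_lit 1904) (.br (nat_lit 7) (.br (nat_lit 6) (.ch (nat_lit 4) (.ev (nat_lit 1920) (nat_lit
 290482468023173120) (.ev (nat_lit 1968) (nat_lit 32768) (.ev (nat_lit 2016) (nat_lit 536870912) (.ev (nat_lit
 2029) (nat_lit 2048) .dd))))) (.ch (nat_lit 6) (.ev (nat_lit 1920) (nat_lit 290482468560078848) .dd))) (.br
 (nat_lit 9) (.ch (nat_lit 7) (.ev (nat_lit 1920) (nat_lit 275414812672) (.ev (nat_lit 2016) (nat_lit
 17179869184) (.ev (nat_lit 2032) (nat_lit 288230376151711744) (.ev (nat_lit 2045) (nat_lit 2251799813685248)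
 .dd))))) (.br (nat_lit 12) (.ch (nat_lit 9) (.ev (nat_lit 1920) (nat_lit 2252074691624960) (.ev (nat_lit 1936)
 (nat_lit 17179869184) (.ev (nat_lit 2112) (nat_lit 536870912) (.fin (nat_lit 576470098154832458)))))) (.ch
 (nat_lit 12) (.ev (nat_lit 1920) (nat_lit 290482193682171904) (.ev (nat_lit 1933) (nat_lit 274877906944)
 .dd))))))))))))))) (.br (nat_lit 35) (.br (nat_lit 33) (.ch (nat_lit 30) (.ev (nat_lit 52) (nat_lit
 147574093619222544384) (.ev (nat_lit 84) (nat_lit 281474976710656) (.ev (nat_lit 116) (nat_lit 8796093022208)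
 (.ev (nat_lit 148) (nat_lit 16) (.ev (nat_lit 276) (nat_lit 549755813888) (.ev (nat_lit 308) (nat_lit
 590295810358706176000) (.ev (nat_lit 372) (nat_lit 288230376151711744) (.ev (nat_lit 404) (nat_lit
 18014398509481984) (.ev (nat_lit 660) (nat_lit 262144) (.ev (nat_lit 820) (nat_lit 4611686018427387904) (.ev
 (nat_lit 1504) (nat_lit 2147483648) (.nd (nat_lit 1904) (.br (nat_lit 6) (.br (nat_lit 2) (.ch (nat_lit 1)
 (.ev (nat_lit 1920) (nat_lit 36028797564258304) (.ev (nat_lit 2032) (nat_lit 2251799813685248) (.ev (nat_lit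
 2045) (nat_lit 8) .dd)))) (.ch (nat_lit 2) (.ev (nat_lit 1920) (nat_lit 2251799822106624) (.ev (nat_lit 1984)
 (nat_lit 2048) (.ev (nat_lit 2032) (nat_lit 36028797018963968) (.ev (nat_lit 2048) (nat_lit 536870912) (.ev
 (nat_lit 2061) (nat_lit 8) .dd))))))) (.br (nat_lit 7) (.ch (nat_lit 6) (.ev (nat_lit 1920) (nat_lit
 38280597369554952) (.ev (nat_lit 1933) (nat_lit 8388608) .dd))) (.br (nat_lit 15) (.ch (nat_lit 7) (.ev
 (nat_lit 1920) (nat_lit 536905736) (.ev (nat_lit 2080) (nat_lit 8388608) (.fin (nat_lit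
 576465700116709958))))) (.ch (nat_lit 15) (.ev (nat_lit 1920) (nat_lit 38280597377910792) (.ev (nat_lit 1933)
 (nat_lit 32768) .dd))))))))))))))))))) (.ch (nat_lit 33) (.ev (nat_lit 52) (nat_lit 594946067245035454488)
 (.ev (nat_lit 84) (nat_lit 17179869184) (.ev (nat_lit 308) (nat_lit 140737488355328) (.ev (nat_lit 564)
 (nat_lit 2147483648) (.ev (nat_lit 628) (nat_lit 274877906944) (.ev (nat_lit 884) (nat_lit 18014398509484032)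
 (.ev (nat_lit 1012) (nat_lit 536870912) (.ev (nat_lit 1232) (nat_lit 147573952589677199360) (.nd (nat_lit
 1904) (.br (nat_lit 10) (.br (nat_lit 4) (.ch (nat_lit 2) (.ev (nat_lit 1920) (nat_lit 288230925915914240)
 .dd)) (.br (nat_lit 7) (.ch (nat_lit 4) (.ev (nat_lit 1920) (nat_lit 288230925907525632) (.ev (nat_lit 1933)
 (nat_lit 8388608) .dd))) (.ch (nat_lit 7) (.ev (nat_lit 1920) (nat_lit 549755813888) (.ev (nat_lit 2016)
 (nat_lit 8388608) (.ev (nat_lit 2029) (nat_lit 288230376151711744) .dd)))))) (.br (nat_lit 12) (.ch (nat_lit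
 10) (.ev (nat_lit 2244) (nat_lit 288230376151711744) (.ev (nat_lit 2256) (nat_lit 549764202496) .dd))) (.br
 (nat_lit 18) (.ch (nat_lit 12) (.ev (nat_lit 1920) (nat_lit 8388608) (.ev (nat_lit 1968) (nat_lit
 549755813888) (.ev (nat_lit 1981) (nat_lit 288230376151711744) .dd)))) (.ch (nat_lit 18) (.ev (nat_lit 1920)
 (nat_lit 288230925907525632) (.ev (nat_lit 1933) (nat_lit 8388608) .dd))))))))))))))))) (.br (nat_lit 36) (.ch
 (nat_lit 35) (.ev (nat_lit 52) (nat_lit 18304686759643152) (.ev (nat_lit 116) (nat_lit 147573952864554319872)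
 (.ev (nat_lit 308) (nat_lit 8388608) (.ev (nat_lit 532) (nat_lit 36028797018963968) (.ev (nat_lit 864)
 (nat_lit 595198119843027222536) .dd)))))) (.ch (nat_lit 36) (.ev (nat_lit 52) (nat_lit 590295960167165495304)
 (.ev (nat_lit 212) (nat_lit 2147483648) (.ev (nat_lit 500) (nat_lit 147573952606856282112) (.ev (nat_lit 724)
 (nat_lit 262144) (.ev (nat_lit 852) (nat_lit 306244774661193728) (.ev (nat_lit 1424) (nat_lit 536870912) (.nd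
 (nat_lit 1904) (.br (nat_lit 7) (.br (nat_lit 4) (.br (nat_lit 2) (.ch (nat_lit 1) (.ev (nat_lit 1920)
 (nat_lit 4650248640000950288) .dd)) (.ch (nat_lit 2) (.ev (nat_lit 1920) (nat_lit 38562621573562384) (.ev
 (nat_lit 1933) (nat_lit 4611686018427387904) .dd)))) (.br (nat_lit 6) (.ch (nat_lit 4) (.ev (nat_lit 1920)
 (nat_lit 4649967165024239616) (.ev (nat_lit 2244) (nat_lit 16) (.ev (nat_lit 2253) (nat_lit 281474976710656)
 .dd)))) (.ch (nat_lit 6) (.ev (nat_lit 1920) (nat_lit 4650248640000950272) (.ev (nat_lit 1933) (nat_lit 16)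
 .dd))))) (.br (nat_lit 11) (.br (nat_lit 10) (.ch (nat_lit 7) (.ev (nat_lit 1920) (nat_lit
 4650248640000950288) .dd)) (.ch (nat_lit 10) (.ev (nat_lit 1920) (nat_lit 4647996840178876432) (.ev (nat_lit
 2144) (nat_lit 2251799813685248) (.ev (nat_lit 2157) (nat_lit 8388608) .dd))))) (.br (nat_lit 15) (.ch
 (nat_lit 11) (.ev (nat_lit 1920) (nat_lit 4650248640000950272) (.ev (nat_lit 1933) (nat_lit 16) .dd))) (.ch
 (nat_lit 15) (.ev (nat_lit 1920) (nat_lit 4613937818241073168) (.ev (nat_lit 1968) (nat_lit 281474976710656)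
 (.ev (nat_lit 2000) (nat_lit 8388608) (.ev (nat_lit 2244) (nat_lit 549755813888) (.ev (nat_lit 2253) (nat_lit
 36028797018963968) .dd))))))))))))))))))))))))

/-- Subtrie. -/
noncomputable def T2 : Tr := (.ev (nat_lit 20) (nat_lit 927437909056521572352) (.nd (nat_lit 33) (.br (nat_lit
 19) (.br (nat_lit 11) (.br (nat_lit 7) (.br (nat_lit 4) (.ch (nat_lit 1) (.ev (nat_lit 52) (nat_lit
 166030411965309159584) (.ev (nat_lit 244) (nat_lit 1180591620717411303424) (.ev (nat_lit 500) (nat_lit 256)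
 (.ev (nat_lit 628) (nat_lit 8388608) (.ev (nat_lit 788) (nat_lit 1125899906842624) (.ev (nat_lit 980) (nat_lit
 68719476736) (.ev (nat_lit 1392) (nat_lit 71303168) (.nd (nat_lit 1904) (.br (nat_lit 10) (.br (nat_lit 6)
 (.ch (nat_lit 2) (.ev (nat_lit 1920) (nat_lit 274878431258) .dd)) (.br (nat_lit 7) (.ch (nat_lit 6) (.ev
 (nat_lit 1920) (nat_lit 524298) (.ev (nat_lit 2244) (nat_lit 16) (.ev (nat_lit 2253) (nat_lit 274877906944)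
 .dd)))) (.ch (nat_lit 7) (.ev (nat_lit 1920) (nat_lit 524312) (.ev (nat_lit 2000) (nat_lit 274877906946)
 .dd))))) (.br (nat_lit 13) (.br (nat_lit 12) (.ch (nat_lit 10) (.ev (nat_lit 1920) (nat_lit 274878431258)
 .dd)) (.ch (nat_lit 12) (.ev (nat_lit 1920) (nat_lit 274877906954) (.ev (nat_lit 2244) (nat_lit 16) (.ev
 (nat_lit 2253) (nat_lit 524288) .dd))))) (.br (nat_lit 16) (.ch (nat_lit 13) (.ev (nat_lit 1920) (nat_lit
 524314) (.ev (nat_lit 1933) (nat_lit 274877906944) .dd))) (.ch (nat_lit 16) (.ev (nat_lit 1920) (nat_lit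
 274878431250) (.ev (nat_lit 1933) (nat_lit 8) .dd))))))))))))))) (.br (nat_lit 5) (.ch (nat_lit 4) (.ev
 (nat_lit 52) (nat_lit 18447307023671625754) (.ev (nat_lit 212) (nat_lit 1125899906842624) (.ev (nat_lit 276)
 (nat_lit 140737488355328) (.ev (nat_lit 436) (nat_lit 67108864) (.ev (nat_lit 564) (nat_lit 17179869184) (.ev
 (nat_lit 628) (nat_lit 1180591620717411303424) (.ev (nat_lit 660) (nat_lit 4398046511104) (.ev (nat_lit 692)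
 (nat_lit 274877906944) (.ev (nat_lit 948) (nat_lit 524288) (.ev (nat_lit 1120) (nat_lit 147573952658395889824)
 (.nd (nat_lit 1904) (.br (nat_lit 11) (.br (nat_lit 5) (.ch (nat_lit 0) (.ev (nat_lit 1920) (nat_lit
 9007199258968064) (.ev (nat_lit 1933) (nat_lit 256) .dd))) (.ch (nat_lit 5) (.ev (nat_lit 1920) (nat_lit
 4227328) (.ev (nat_lit 1933) (nat_lit 9007199254740992) .dd)))) (.br (nat_lit 12) (.ch (nat_lit 11) (.ev
 (nat_lit 1920) (nat_lit 9007199254773760) (.ev (nat_lit 1984) (nat_lit 256) (.ev (nat_lit 1997) (nat_lit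
 4194304) .dd)))) (.br (nat_lit 13) (.ch (nat_lit 12) (.ev (nat_lit 1920) (nat_lit 9007199258968320) .dd)) (.ch
 (nat_lit 13) (.ev (nat_lit 1920) (nat_lit 4194560) (.ev (nat_lit 1984) (nat_lit 9007199254740992) (.ev
 (nat_lit 1997) (nat_lit 32768) .dd))))))))))))))))))) (.ch (nat_lit 5) (.ev (nat_lit 52) (nat_lit
 166022526250802479136) (.ev (nat_lit 148) (nat_lit 274877906944) (.ev (nat_lit 244) (nat_lit 256) (.ev
 (nat_lit 276) (nat_lit 17179869192) (.ev (nat_lit 532) (nat_lit 128) (.ev (nat_lit 628) (nat_lit 16) (.ev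
 (nat_lit 660) (nat_lit 32768) (.ev (nat_lit 756) (nat_lit 4398046511104) (.ev (nat_lit 820) (nat_lit
 68719476736) (.nd (nat_lit 1904) (.br (nat_lit 12) (.br (nat_lit 6) (.ch (nat_lit 0) (.ev (nat_lit 1920)
 (nat_lit 1180600627916670240768) (.fin (nat_lit 576464600600887876)))) (.br (nat_lit 11) (.ch (nat_lit 6) (.ev
 (nat_lit 1920) (nat_lit 1180600627916678629378) .dd)) (.ch (nat_lit 11) (.ev (nat_lit 1920) (nat_lit
 1180600627916678629378) .dd)))) (.br (nat_lit 15) (.ch (nat_lit 12) (.ev (nat_lit 1920) (nat_lit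
 1180600627916666046466) (.ev (nat_lit 2272) (nat_lit 12582912) .dd))) (.br (nat_lit 16) (.ch (nat_lit 15) (.ev
 (nat_lit 1920) (nat_lit 9007199267323904) (.ev (nat_lit 1952) (nat_lit 2048) (.ev (nat_lit 2244) (nat_lit 2)
 (.ev (nat_lit 2253) (nat_lit 1180591620717411303424) .dd))))) (.ch (nat_lit 16) (.ev (nat_lit 1920) (nat_lit
 1180591620717423888386) (.ev (nat_lit 1933) (nat_lit 9007199254740992) .dd))))))))))))))))))) (.br (nat_lit 8)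
 (.ch (nat_lit 7) (.ev (nat_lit 52) (nat_lit 1180591620803382214800) (.ev (nat_lit 192) (nat_lit
 166031538122922690858) .dd))) (.br (nat_lit 10) (.ch (nat_lit 8) (.ev (nat_lit 52) (nat_lit 360857471264) (.ev
 (nat_lit 148) (nat_lit 1266637395197952) (.ev (nat_lit 308) (nat_lit 32768) (.ev (nat_lit 532) (nat_lit
 9007199254740992) (.ev (nat_lit 884) (nat_lit 4398046511104) (.ev (nat_lit 1012) (nat_lit
 1180591620717411303424) (.ev (nat_lit 1680) (nat_lit 18446744073709551616) (.nd (nat_lit 1904) (.br (nat_lit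
 12) (.br (nat_lit 10) (.ch (nat_lit 7) (.ev (nat_lit 1920) (nat_lit 147574515539630096530) (.ev (nat_lit 1933)
 (nat_lit 8) .dd))) (.ch (nat_lit 10) (.ev (nat_lit 1920) (nat_lit 262280) (.ev (nat_lit 1936) (nat_lit 16)
 (.ev (nat_lit 2064) (nat_lit 562949953421312) (.fin (nat_lit 576470098152735306))))))) (.br (nat_lit 13) (.ch
 (nat_lit 12) (.ev (nat_lit 1920) (nat_lit 562949953421450) (.ev (nat_lit 2016) (nat_lit 16) (.ev (nat_lit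
 2080) (nat_lit 262144) (.ev (nat_lit 2093) (nat_lit 147573952589676412928) .dd))))) (.br (nat_lit 15) (.ch
 (nat_lit 13) (.ev (nat_lit 1920) (nat_lit 147574515539630096538) .dd)) (.ch (nat_lit 15) (.ev (nat_lit 1920)
 (nat_lit 147573952589676675096) (.ev (nat_lit 1968) (nat_lit 128) (.ev (nat_lit 2016) (nat_lit
 562949953421312) (.ev (nat_lit 2029) (nat_lit 2) .dd))))))))))))))))) (.ch (nat_lit 10) (.ev (nat_lit 52)
 (nat_lit 1180592188065415430432) (.ev (nat_lit 84) (nat_lit 8388608) (.ev (nat_lit 256) (nat_lit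
 166030970860881086618) .dd))))))) (.br (nat_lit 15) (.br (nat_lit 12) (.ch (nat_lit 11) (.ev (nat_lit 52)
 (nat_lit 166021405040932325520) (.ev (nat_lit 84) (nat_lit 1180591620717411303680) (.ev (nat_lit 244) (nat_lit
 524288) (.ev (nat_lit 436) (nat_lit 4194304) (.ev (nat_lit 564) (nat_lit 67108864) (.ev (nat_lit 660) (nat_lit
 9007199254740992) (.ev (nat_lit 820) (nat_lit 8) (.ev (nat_lit 980) (nat_lit 1125899906842624) (.nd (nat_lit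
 1904) (.br (nat_lit 6) (.br (nat_lit 2) (.ch (nat_lit 0) (.ev (nat_lit 1920) (nat_lit 68719476768) (.fin
 (nat_lit 576464600600887876)))) (.br (nat_lit 5) (.ch (nat_lit 2) (.ev (nat_lit 1920) (nat_lit 68727865378)
 .dd)) (.ch (nat_lit 5) (.ev (nat_lit 1920) (nat_lit 68727865378) .dd)))) (.br (nat_lit 15) (.br (nat_lit 10)
 (.ch (nat_lit 6) (.ev (nat_lit 1920) (nat_lit 68727865346) (.ev (nat_lit 1933) (nat_lit 32) .dd))) (.ch
 (nat_lit 10) (.ev (nat_lit 1920) (nat_lit 68727865378) .dd))) (.br (nat_lit 16) (.ch (nat_lit 15) (.ev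
 (nat_lit 1920) (nat_lit 8388640) (.ev (nat_lit 2256) (nat_lit 68719476738) .dd))) (.ch (nat_lit 16) (.ev
 (nat_lit 1920) (nat_lit 34) (.ev (nat_lit 1936) (nat_lit 68719476736) (.ev (nat_lit 1949) (nat_lit 8388608)
 .dd))))))))))))))))) (.br (nat_lit 13) (.ch (nat_lit 12) (.ev (nat_lit 52) (nat_lit 18446744348600827920) (.ev
 (nat_lit 116) (nat_lit 2) (.ev (nat_lit 148) (nat_lit 68719476736) (.ev (nat_lit 212) (nat_lit 8) (.ev
 (nat_lit 308) (nat_lit 32) (.ev (nat_lit 532) (nat_lit 4398046511104) (.ev (nat_lit 800) (nat_lit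
 1328176410110938089856) .dd)))))))) (.ch (nat_lit 13) (.ev (nat_lit 52) (nat_lit 1266998181396496) (.ev
 (nat_lit 84) (nat_lit 2) (.ev (nat_lit 276) (nat_lit 562949953421312) (.ev (nat_lit 308) (nat_lit 128) (.ev
 (nat_lit 468) (nat_lit 1180591620717411303424) (.ev (nat_lit 500) (nat_lit 147573952589676412928) (.ev
 (nat_lit 788) (nat_lit 67108864) (.ev (nat_lit 884) (nat_lit 9007199254740992) (.ev (nat_lit 1200) (nat_lit
 18446744073709551648) (.ev (nat_lit 1616) (nat_lit 4196352) (.nd (nat_lit 1904) (.br (nat_lit 10) (.br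
 (nat_lit 5) (.ch (nat_lit 0) (.ev (nat_lit 1920) (nat_lit 4398046511104) (.ev (nat_lit 1984) (nat_lit 8) (.ev
 (nat_lit 2016) (nat_lit 262400) .dd)))) (.br (nat_lit 6) (.ch (nat_lit 5) (.ev (nat_lit 1920) (nat_lit
 4398046511368) (.ev (nat_lit 1933) (nat_lit 262144) .dd))) (.ch (nat_lit 6) (.ev (nat_lit 1920) (nat_lit
 4398046773256) (.ev (nat_lit 1933) (nat_lit 256) .dd))))) (.br (nat_lit 11) (.ch (nat_lit 10) (.ev (nat_lit
 1920) (nat_lit 4398046511368) (.ev (nat_lit 1933) (nat_lit 262144) .dd))) (.br (nat_lit 16) (.ch (nat_lit 11)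
 (.ev (nat_lit 1920) (nat_lit 4398046773256) (.ev (nat_lit 1933) (nat_lit 256) .dd))) (.ch (nat_lit 16) (.ev
 (nat_lit 1920) (nat_lit 8) (.ev (nat_lit 1984) (nat_lit 4398046511104) (.ev (nat_lit 2016) (nat_lit 262400)
 .dd))))))))))))))))))))) (.br (nat_lit 17) (.br (nat_lit 16) (.ch (nat_lit 15) (.ev (nat_lit 52) (nat_lit
 1180592746634565124128) (.ev (nat_lit 84) (nat_lit 2048) (.ev (nat_lit 180) (nat_lit 18446748471756062720)
 (.ev (nat_lit 416) (nat_lit 147583663819983716762) .dd))))) (.ch (nat_lit 16) (.ev (nat_lit 52) (nat_lit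
 147583104993260994976) (.ev (nat_lit 468) (nat_lit 262144) (.ev (nat_lit 692) (nat_lit 4194304) (.ev (nat_lit
 1152) (nat_lit 18446744348587458560) (.nd (nat_lit 1904) (.br (nat_lit 12) (.br (nat_lit 10) (.ch (nat_lit 0)
 (.ev (nat_lit 1920) (nat_lit 1180592746634498541594) (.ev (nat_lit 1936) (nat_lit 562949953421312) (.ev
 (nat_lit 1949) (nat_lit 32768) .dd)))) (.br (nat_lit 11) (.ch (nat_lit 10) (.ev (nat_lit 1920) (nat_lit
 1180593309567272126472) (.ev (nat_lit 1936) (nat_lit 2) (.ev (nat_lit 2244) (nat_lit 16) (.ev (nat_lit 2253)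
 (nat_lit 17179869184) .dd))))) (.ch (nat_lit 11) (.ev (nat_lit 1920) (nat_lit 1688867040135194) (.ev (nat_lit
 1936) (nat_lit 32768) (.ev (nat_lit 2244) (nat_lit 524288) (.ev (nat_lit 2253) (nat_lit
 1180591620717411303424) .dd))))))) (.br (nat_lit 15) (.ch (nat_lit 12) (.ev (nat_lit 1920) (nat_lit
 1180593309584451469330) (.ev (nat_lit 1968) (nat_lit 8) (.ev (nat_lit 2244) (nat_lit 2048) (.ev (nat_lit 2253)
 (nat_lit 524288) .dd))))) (.br (nat_lit 16) (.ch (nat_lit 15) (.ev (nat_lit 1920) (nat_lit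
 1180592183684545151002) (.ev (nat_lit 2000) (nat_lit 1125899906844672) .dd))) (.ch (nat_lit 16) (.ev (nat_lit
 1920) (nat_lit 1180593309584451995674) .dd)))))))))))) (.br (nat_lit 18) (.ch (nat_lit 17) (.ev (nat_lit 52)
 (nat_lit 1180591625115529906178) (.ev (nat_lit 340) (nat_lit 274877906944) (.ev (nat_lit 468) (nat_lit
 8388608) (.ev (nat_lit 724) (nat_lit 32768) (.ev (nat_lit 820) (nat_lit 17179869184) (.ev (nat_lit 884)
 (nat_lit 18446744073709551616) (.ev (nat_lit 916) (nat_lit 16) (.ev (nat_lit 948) (nat_lit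
 147573952589676412928) (.ev (nat_lit 980) (nat_lit 140737488355336) (.ev (nat_lit 1712) (nat_lit 68719476992)
 (.nd (nat_lit 1904) (.br (nat_lit 6) (.br (nat_lit 5) (.ch (nat_lit 2) (.ev (nat_lit 1920) (nat_lit
 1125899906842624) (.ev (nat_lit 2032) (nat_lit 562949953421312) (.ev (nat_lit 2128) (nat_lit 32) (.ev (nat_lit
 2160) (nat_lit 128) (.ev (nat_lit 2173) (nat_lit 9007199254740992) .dd)))))) (.ch (nat_lit 5) (.ev (nat_lit
 1920) (nat_lit 1688849860264096) (.ev (nat_lit 1933) (nat_lit 9007199254740992) .dd)))) (.br (nat_lit 7) (.ch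
 (nat_lit 6) (.ev (nat_lit 1920) (nat_lit 10696049115005088) .dd)) (.br (nat_lit 11) (.ch (nat_lit 7) (.ev
 (nat_lit 1920) (nat_lit 1688849860264096) (.ev (nat_lit 1933) (nat_lit 9007199254740992) .dd))) (.ch (nat_lit
 11) (.ev (nat_lit 1920) (nat_lit 9570149208162464) (.ev (nat_lit 1933) (nat_lit 1125899906842624)
 .dd)))))))))))))))))) (.ch (nat_lit 18) (.ev (nat_lit 52) (nat_lit 1199038928016028237858) (.ev (nat_lit 212)
 (nat_lit 68719476736) (.ev (nat_lit 276) (nat_lit 1125899906842624) (.ev (nat_lit 404) (nat_lit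
 9007199254740992) (.ev (nat_lit 468) (nat_lit 147573952589676412928) (.ev (nat_lit 768) (nat_lit
 145152719194520) .dd))))))))))) (.br (nat_lit 26) (.br (nat_lit 22) (.br (nat_lit 20) (.ch (nat_lit 19) (.ev
 (nat_lit 52) (nat_lit 141012442284456) (.ev (nat_lit 320) (nat_lit 1346623017913862621202) .dd))) (.br
 (nat_lit 21) (.ch (nat_lit 20) (.ev (nat_lit 52) (nat_lit 1180600627916670273792) (.ev (nat_lit 596) (nat_lit
 786432) (.ev (nat_lit 724) (nat_lit 18446744073709551616) (.ev (nat_lit 884) (nat_lit 128) (.ev (nat_lit 1040)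
 (nat_lit 274877906984) (.nd (nat_lit 1904) (.br (nat_lit 6) (.br (nat_lit 5) (.ch (nat_lit 2) (.ev (nat_lit
 1920) (nat_lit 147575223625126510610) (.ev (nat_lit 1952) (nat_lit 67108864) (.ev (nat_lit 2016) (nat_lit
 17179869184) (.ev (nat_lit 2244) (nat_lit 68719476736) (.ev (nat_lit 2253) (nat_lit 562949953421312) .dd))))))
 (.ch (nat_lit 5) (.ev (nat_lit 1920) (nat_lit 147575782262999875600) (.ev (nat_lit 2048) (nat_lit
 4398046511104) (.ev (nat_lit 2061) (nat_lit 2) .dd))))) (.br (nat_lit 12) (.ch (nat_lit 6) (.ev (nat_lit 1920)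
 (nat_lit 1693333873229826) (.ev (nat_lit 1936) (nat_lit 147573952589676412928) (.ev (nat_lit 2064) (nat_lit
 140737488355328) (.ev (nat_lit 2096) (nat_lit 8388608) (.ev (nat_lit 2109) (nat_lit 16) .dd)))))) (.br
 (nat_lit 16) (.ch (nat_lit 12) (.ev (nat_lit 1920) (nat_lit 708171463131138) (.ev (nat_lit 2000) (nat_lit
 1125899906842624) (.ev (nat_lit 2112) (nat_lit 147573952589676412928) (.ev (nat_lit 2125) (nat_lit 16)
 .dd))))) (.ch (nat_lit 16) (.ev (nat_lit 1920) (nat_lit 147575782262999875602) (.ev (nat_lit 1933) (nat_lit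
 4398046511104) .dd))))))))))))) (.ch (nat_lit 21) (.ev (nat_lit 52) (nat_lit 166020842073798770954) (.ev
 (nat_lit 244) (nat_lit 8388608) (.ev (nat_lit 340) (nat_lit 17179869184) (.ev (nat_lit 660) (nat_lit 128) (.ev
 (nat_lit 724) (nat_lit 9007199254740992) (.ev (nat_lit 948) (nat_lit 1180591620717411303424) (.ev (nat_lit
 1520) (nat_lit 524288) (.ev (nat_lit 1824) (nat_lit 67108864) (.nd (nat_lit 1904) (.br (nat_lit 11) (.br
 (nat_lit 7) (.br (nat_lit 6) (.ch (nat_lit 2) (.ev (nat_lit 1920) (nat_lit 1125968630777856) (.ev (nat_lit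
 1968) (nat_lit 562949953421312) (.ev (nat_lit 2224) (nat_lit 48) .dd)))) (.ch (nat_lit 6) (.ev (nat_lit 1920)
 (nat_lit 1688918584199216) .dd))) (.br (nat_lit 10) (.ch (nat_lit 7) (.ev (nat_lit 1920) (nat_lit
 563018677354544) (.ev (nat_lit 1968) (nat_lit 1125899906842624) (.ev (nat_lit 1981) (nat_lit 2048) .dd))))
 (.ch (nat_lit 10) (.ev (nat_lit 1920) (nat_lit 1688918583937072) (.ev (nat_lit 1933) (nat_lit 262144) .dd)))))
 (.br (nat_lit 15) (.br (nat_lit 13) (.ch (nat_lit 11) (.ev (nat_lit 1920) (nat_lit 1688918580004912) (.ev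
 (nat_lit 1933) (nat_lit 4194304) .dd))) (.ch (nat_lit 13) (.ev (nat_lit 1920) (nat_lit 1688849864722448) (.ev
 (nat_lit 1936) (nat_lit 68719476736) (.ev (nat_lit 1949) (nat_lit 32) .dd))))) (.br (nat_lit 16) (.ch (nat_lit
 15) (.ev (nat_lit 1920) (nat_lit 1688918580004912) (.ev (nat_lit 1933) (nat_lit 4194304) .dd))) (.ch (nat_lit
 16) (.ev (nat_lit 1920) (nat_lit 1688849864460336) (.ev (nat_lit 2000) (nat_lit 68719476736) (.ev (nat_lit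
 2013) (nat_lit 262144) .dd))))))))))))))))))) (.br (nat_lit 24) (.ch (nat_lit 22) (.ev (nat_lit 52) (nat_lit
 1328166276994609184768) (.ev (nat_lit 148) (nat_lit 17179869184) (.ev (nat_lit 180) (nat_lit 32768) (.ev
 (nat_lit 244) (nat_lit 2) (.ev (nat_lit 340) (nat_lit 8) (.ev (nat_lit 372) (nat_lit 4398046511104) (.ev
 (nat_lit 500) (nat_lit 16) (.ev (nat_lit 596) (nat_lit 2048) (.ev (nat_lit 692) (nat_lit 68719476736) (.ev
 (nat_lit 852) (nat_lit 18446744073709551648) (.ev (nat_lit 916) (nat_lit 256) (.ev (nat_lit 1280) (nat_lit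
 10133099162107904) (.nd (nat_lit 1904) (.br (nat_lit 6) (.br (nat_lit 2) (.ch (nat_lit 0) (.ev (nat_lit 1920)
 (nat_lit 274877907072) (.ev (nat_lit 1933) (nat_lit 262144) .dd))) (.br (nat_lit 5) (.ch (nat_lit 2) (.ev
 (nat_lit 1920) (nat_lit 274878169216) .dd)) (.ch (nat_lit 5) (.ev (nat_lit 1920) (nat_lit 274878169216)
 .dd)))) (.br (nat_lit 13) (.br (nat_lit 11) (.ch (nat_lit 6) (.ev (nat_lit 1920) (nat_lit 274878169088) (.ev
 (nat_lit 1933) (nat_lit 128) .dd))) (.ch (nat_lit 11) (.ev (nat_lit 1920) (nat_lit 274878169216) .dd))) (.br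
 (nat_lit 15) (.ch (nat_lit 13) (.ev (nat_lit 1920) (nat_lit 274878169088) (.ev (nat_lit 1933) (nat_lit 128)
 .dd))) (.ch (nat_lit 15) (.ev (nat_lit 1920) (nat_lit 262272) (.ev (nat_lit 1933) (nat_lit 274877906944)
 .dd)))))))))))))))))))) (.br (nat_lit 25) (.ch (nat_lit 24) (.ev (nat_lit 52) (nat_lit 1266706114709504) (.ev
 (nat_lit 84) (nat_lit 262144) (.ev (nat_lit 116) (nat_lit 1180591620717411303424) (.ev (nat_lit 180) (nat_lit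
 128) (.ev (nat_lit 212) (nat_lit 67108864) (.ev (nat_lit 404) (nat_lit 32) (.ev (nat_lit 564) (nat_lit
 4194304) (.ev (nat_lit 596) (nat_lit 8388608) (.ev (nat_lit 628) (nat_lit 524288) (.ev (nat_lit 916) (nat_lit
 147573952589676412928) (.ev (nat_lit 1536) (nat_lit 18446744073709551616) (.ev (nat_lit 1840) (nat_lit
 9007199254740992) (.nd (nat_lit 1904) (.br (nat_lit 11) (.br (nat_lit 6) (.br (nat_lit 5) (.ch (nat_lit 0)
 (.ev (nat_lit 1920) (nat_lit 4690104287258) (.ev (nat_lit 2000) (nat_lit 562949953421312) (.ev (nat_lit 2013)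
 (nat_lit 256) .dd)))) (.ch (nat_lit 5) (.ev (nat_lit 1920) (nat_lit 563242011197722) (.ev (nat_lit 1933)
 (nat_lit 4398046511104) .dd)))) (.br (nat_lit 7) (.ch (nat_lit 6) (.ev (nat_lit 1920) (nat_lit
 563242011197722) (.ev (nat_lit 1933) (nat_lit 4398046511104) .dd))) (.ch (nat_lit 7) (.ev (nat_lit 1920)
 (nat_lit 567365179801866) (.ev (nat_lit 2256) (nat_lit 274877906960) .dd))))) (.br (nat_lit 13) (.br (nat_lit
 12) (.ch (nat_lit 11) (.ev (nat_lit 1920) (nat_lit 567640057708570) (.ev (nat_lit 1933) (nat_lit 256) .dd)))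
 (.ch (nat_lit 12) (.ev (nat_lit 1920) (nat_lit 567640057708826) .dd))) (.br (nat_lit 15) (.ch (nat_lit 13)
 (.ev (nat_lit 1920) (nat_lit 567622877839632) (.ev (nat_lit 1968) (nat_lit 2) (.ev (nat_lit 2256) (nat_lit
 17179869192) .dd)))) (.ch (nat_lit 15) (.ev (nat_lit 1920) (nat_lit 4690104287506) (.ev (nat_lit 1936)
 (nat_lit 562949953421312) (.ev (nat_lit 1949) (nat_lit 8) .dd))))))))))))))))))))) (.ch (nat_lit 25) (.ev
 (nat_lit 52) (nat_lit 147575078833189290112) (.ev (nat_lit 128) (nat_lit 1199048080093115615546) .dd))))))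
 (.br (nat_lit 30) (.br (nat_lit 27) (.ch (nat_lit 26) (.ev (nat_lit 52) (nat_lit 147584648707590848698) (.ev
 (nat_lit 544) (nat_lit 1199038510218714056960) .dd))) (.br (nat_lit 29) (.ch (nat_lit 27) (.ev (nat_lit 52)
 (nat_lit 1199049060840303757754) (.ev (nat_lit 276) (nat_lit 4194304) (.ev (nat_lit 788) (nat_lit
 274877906944) (.ev (nat_lit 1104) (nat_lit 140737496743936) (.nd (nat_lit 1904) (.br (nat_lit 10) (.br
 (nat_lit 5) (.ch (nat_lit 2) (.ev (nat_lit 1920) (nat_lit 147573957073622302720) .dd)) (.br (nat_lit 7) (.ch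
 (nat_lit 5) (.ev (nat_lit 1920) (nat_lit 147573952658395922432) (.ev (nat_lit 2244) (nat_lit 4398046511104)
 (.ev (nat_lit 2253) (nat_lit 17179869184) .dd)))) (.ch (nat_lit 7) (.ev (nat_lit 1920) (nat_lit
 147573952675575758848) (.ev (nat_lit 2208) (nat_lit 32768) (.ev (nat_lit 2221) (nat_lit 4398046511104)
 .dd)))))) (.br (nat_lit 12) (.br (nat_lit 11) (.ch (nat_lit 10) (.ev (nat_lit 1920) (nat_lit 4483945889792)
 (.ev (nat_lit 1933) (nat_lit 147573952589676412928) .dd))) (.ch (nat_lit 11) (.ev (nat_lit 1920) (nat_lit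
 147573957073622269952) (.ev (nat_lit 1933) (nat_lit 32768) .dd)))) (.br (nat_lit 13) (.ch (nat_lit 12) (.ev
 (nat_lit 1920) (nat_lit 147573957073622302720) .dd)) (.ch (nat_lit 13) (.ev (nat_lit 1920) (nat_lit
 147573957004902793216) (.ev (nat_lit 1968) (nat_lit 68719476736) (.ev (nat_lit 1981) (nat_lit 32768)
 .dd))))))))))))) (.ch (nat_lit 29) (.ev (nat_lit 52) (nat_lit 1346621465386268754194) (.ev (nat_lit 276)
 (nat_lit 67108864) (.ev (nat_lit 372) (nat_lit 32768) (.ev (nat_lit 672) (nat_lit 1693539969009832) .dd)))))))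
 (.br (nat_lit 35) (.br (nat_lit 33) (.ch (nat_lit 30) (.ev (nat_lit 52) (nat_lit 1328174721604612259968) (.ev
 (nat_lit 116) (nat_lit 262144) (.ev (nat_lit 308) (nat_lit 4398046511104) (.ev (nat_lit 532) (nat_lit 32768)
 (.ev (nat_lit 628) (nat_lit 258) (.ev (nat_lit 960) (nat_lit 18448432923645839416) .dd))))))) (.ch (nat_lit
 33) (.ev (nat_lit 52) (nat_lit 9011597372588056) (.ev (nat_lit 116) (nat_lit 524544) (.ev (nat_lit 180)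
 (nat_lit 32) (.ev (nat_lit 244) (nat_lit 262144) (.ev (nat_lit 404) (nat_lit 18446744073709551616) (.ev
 (nat_lit 436) (nat_lit 1125899906842624) (.ev (nat_lit 788) (nat_lit 17179869184) (.ev (nat_lit 916) (nat_lit
 2048) (.ev (nat_lit 1568) (nat_lit 562949953421312) (.nd (nat_lit 1904) (.br (nat_lit 7) (.br (nat_lit 5) (.ch
 (nat_lit 2) (.ev (nat_lit 1920) (nat_lit 1328165714044584460418) (.ev (nat_lit 1968) (nat_lit 274877906944)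
 (.ev (nat_lit 1981) (nat_lit 68719476736) .dd)))) (.br (nat_lit 6) (.ch (nat_lit 5) (.ev (nat_lit 1920)
 (nat_lit 1328165714388181844098) .dd)) (.ch (nat_lit 6) (.ev (nat_lit 1920) (nat_lit 1328165573650693488642)
 (.ev (nat_lit 2000) (nat_lit 140737488355456) .dd))))) (.br (nat_lit 12) (.br (nat_lit 10) (.ch (nat_lit 7)
 (.ev (nat_lit 1920) (nat_lit 1328165714388181844096) (.ev (nat_lit 1933) (nat_lit 2) .dd))) (.ch (nat_lit 10)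
 (.ev (nat_lit 1920) (nat_lit 1180591761798505431168) (.fin (nat_lit 576470098152735306))))) (.br (nat_lit 15)
 (.ch (nat_lit 12) (.ev (nat_lit 1920) (nat_lit 1180591761798497042562) (.ev (nat_lit 1952) (nat_lit
 147573952589684801536) .dd))) (.ch (nat_lit 15) (.ev (nat_lit 1920) (nat_lit 147573952658404278274) (.ev
 (nat_lit 1936) (nat_lit 1180591620717411303424) (.ev (nat_lit 2244) (nat_lit 141012366262272) (.ev (nat_lit
 2253) (nat_lit 128) .dd)))))))))))))))))))) (.br (nat_lit 36) (.ch (nat_lit 35) (.ev (nat_lit 52) (nat_lit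
 9007285154646416) (.ev (nat_lit 148) (nat_lit 67108864) (.ev (nat_lit 212) (nat_lit 4194304) (.ev (nat_lit
 244) (nat_lit 147573952589676412928) (.ev (nat_lit 372) (nat_lit 32) (.ev (nat_lit 436) (nat_lit 274877906944)
 (.ev (nat_lit 500) (nat_lit 1180591620717411303424) (.ev (nat_lit 596) (nat_lit 2) (.ev (nat_lit 692) (nat_lit
 8) (.ev (nat_lit 1440) (nat_lit 140737488355328) (.ev (nat_lit 1808) (nat_lit 562949953421312) (.nd (nat_lit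
 1904) (.br (nat_lit 6) (.br (nat_lit 2) (.ch (nat_lit 0) (.ev (nat_lit 1920) (nat_lit 1130297961742336) (.ev
 (nat_lit 1936) (nat_lit 18446744073709551616) (.ev (nat_lit 1949) (nat_lit 262144) .dd)))) (.br (nat_lit 5)
 (.ch (nat_lit 2) (.ev (nat_lit 1920) (nat_lit 1130297961742336) (.ev (nat_lit 1952) (nat_lit 262144) (.ev
 (nat_lit 1965) (nat_lit 18446744073709551616) .dd)))) (.ch (nat_lit 5) (.ev (nat_lit 1920) (nat_lit
 18447874371671556096) .dd)))) (.br (nat_lit 12) (.br (nat_lit 7) (.ch (nat_lit 6) (.ev (nat_lit 1920) (nat_lit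
 18446748471756324864) (.ev (nat_lit 2160) (nat_lit 8388608) (.ev (nat_lit 2173) (nat_lit 1125899906842624)
 .dd)))) (.ch (nat_lit 7) (.ev (nat_lit 1920) (nat_lit 18447869973625044992) (.ev (nat_lit 1933) (nat_lit
 4398046511104) .dd)))) (.br (nat_lit 13) (.ch (nat_lit 12) (.ev (nat_lit 1920) (nat_lit 18447874371671556096)
 .dd)) (.ch (nat_lit 13) (.ev (nat_lit 1920) (nat_lit 18446748471756324864) (.ev (nat_lit 2244) (nat_lit
 8388608) (.ev (nat_lit 2253) (nat_lit 1125899906842624) .dd)))))))))))))))))))) (.ch (nat_lit 36) (.ev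
 (nat_lit 52) (nat_lit 703962320242954) (.ev (nat_lit 116) (nat_lit 8388608) (.ev (nat_lit 404) (nat_lit
 4398046511104) (.ev (nat_lit 596) (nat_lit 16) (.ev (nat_lit 692) (nat_lit 1125917086711808) (.ev (nat_lit
 724) (nat_lit 128) (.ev (nat_lit 756) (nat_lit 18446744073709551616) (.ev (nat_lit 1488) (nat_lit 32) (.nd
 (nat_lit 1904) (.br (nat_lit 11) (.br (nat_lit 5) (.br (nat_lit 2) (.ch (nat_lit 0) (.ev (nat_lit 1920)
 (nat_lit 147582959857722195968) (.ev (nat_lit 1933) (nat_lit 1180591620717411303424) .dd))) (.ch (nat_lit 2)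
 (.ev (nat_lit 1920) (nat_lit 1180591620717415759872) (.ev (nat_lit 2244) (nat_lit 9007268041326592) (.ev
 (nat_lit 2253) (nat_lit 147573952589676412928) .dd))))) (.br (nat_lit 10) (.ch (nat_lit 5) (.ev (nat_lit 1920)
 (nat_lit 1328174580575129305088) (.ev (nat_lit 1933) (nat_lit 4194304) .dd))) (.ch (nat_lit 10) (.ev (nat_lit
 1920) (nat_lit 1328174580575066128384) (.ev (nat_lit 2096) (nat_lit 67371008) .dd))))) (.br (nat_lit 13) (.br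
 (nat_lit 12) (.ch (nat_lit 11) (.ev (nat_lit 1920) (nat_lit 1328174580575133499392) .dd)) (.ch (nat_lit 12)
 (.ev (nat_lit 1920) (nat_lit 1180600627985452892160) (.ev (nat_lit 2000) (nat_lit 4194304) (.ev (nat_lit 2013)
 (nat_lit 147573952589676412928) .dd))))) (.br (nat_lit 16) (.ch (nat_lit 13) (.ev (nat_lit 1920) (nat_lit
 1328174580575133499392) .dd)) (.ch (nat_lit 16) (.ev (nat_lit 1920) (nat_lit 1328174580575129305088) (.ev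
 (nat_lit 1933) (nat_lit 4194304) .dd)))))))))))))))))))))))

/-- Subtrie. -/
noncomputable def T8 : Tr := (.ev (nat_lit 20) (nat_lit 484290381416153811384) (.nd (nat_lit 33) (.br (nat_lit
 19) (.br (nat_lit 11) (.br (nat_lit 7) (.br (nat_lit 4) (.ch (nat_lit 1) (.ev (nat_lit 52) (nat_lit
 608743332895774769152) (.ev (nat_lit 84) (nat_lit 1125899906842624) (.ev (nat_lit 148) (nat_lit 274877906944)
 (.ev (nat_lit 180) (nat_lit 288230376151711744) (.ev (nat_lit 576) (nat_lit 1180737997119961436162) .dd))))))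
 (.br (nat_lit 5) (.ch (nat_lit 4) (.ev (nat_lit 52) (nat_lit 608887233120762597378) (.ev (nat_lit 340)
 (nat_lit 32768) (.ev (nat_lit 436) (nat_lit 2251868533161984) (.ev (nat_lit 660) (nat_lit
 1180591620717411303424) (.ev (nat_lit 992) (nat_lit 289580859965571072) .dd)))))) (.ch (nat_lit 5) (.ev
 (nat_lit 52) (nat_lit 609034866746089275392) (.ev (nat_lit 276) (nat_lit 16777216) (.ev (nat_lit 372) (nat_lit
 1180591629513504325632) (.ev (nat_lit 436) (nat_lit 32768) (.ev (nat_lit 468) (nat_lit 144115188075855872)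
 (.ev (nat_lit 500) (nat_lit 4398046511104) (.ev (nat_lit 788) (nat_lit 68719476736) (.nd (nat_lit 1904) (.br
 (nat_lit 8) (.br (nat_lit 4) (.ch (nat_lit 3) (.ev (nat_lit 1920) (nat_lit 70377342504962) (.ev (nat_lit 1933)
 (nat_lit 274877906944) .dd))) (.br (nat_lit 6) (.ch (nat_lit 4) (.ev (nat_lit 1920) (nat_lit 70652212023296)
 (.fin (nat_lit 576464600600887876)))) (.ch (nat_lit 6) (.ev (nat_lit 1920) (nat_lit 283476234242) (.ev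
 (nat_lit 1933) (nat_lit 70368744177664) .dd))))) (.br (nat_lit 9) (.ch (nat_lit 8) (.ev (nat_lit 1920)
 (nat_lit 70652220407808) (.ev (nat_lit 2244) (nat_lit 4096) (.ev (nat_lit 2253) (nat_lit 2) .dd)))) (.br
 (nat_lit 14) (.ch (nat_lit 9) (.ev (nat_lit 1920) (nat_lit 274877911042) (.ev (nat_lit 1952) (nat_lit
 8589934592) (.ev (nat_lit 2244) (nat_lit 8388608) (.ev (nat_lit 2253) (nat_lit 70368744177664) .dd))))) (.ch
 (nat_lit 14) (.ev (nat_lit 1920) (nat_lit 70652220411906) .dd)))))))))))))))) (.br (nat_lit 8) (.ch (nat_lit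
 7) (.ev (nat_lit 52) (nat_lit 1180735745320139624448) (.ev (nat_lit 84) (nat_lit 562958543355904) (.ev
 (nat_lit 308) (nat_lit 18446744073709551616) (.ev (nat_lit 372) (nat_lit 288230376151711744) (.ev (nat_lit
 724) (nat_lit 70368744177664) (.ev (nat_lit 980) (nat_lit 2251799813685248) (.ev (nat_lit 1584) (nat_lit
 1125899906842624) (.nd (nat_lit 1904) (.br (nat_lit 10) (.br (nat_lit 8) (.ch (nat_lit 6) (.ev (nat_lit 1920)
 (nat_lit 4673469677570) (.ev (nat_lit 1936) (nat_lit 590295810358705651712) (.ev (nat_lit 2016) (nat_lit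
 140737488355328) (.ev (nat_lit 2029) (nat_lit 32768) .dd))))) (.br (nat_lit 9) (.ch (nat_lit 8) (.ev (nat_lit
 1920) (nat_lit 590295814757297455104) (.ev (nat_lit 2016) (nat_lit 140737488355328) (.ev (nat_lit 2244)
 (nat_lit 2) (.ev (nat_lit 2253) (nat_lit 274877906944) .dd))))) (.ch (nat_lit 9) (.ev (nat_lit 1920) (nat_lit
 590295810634128850946) (.ev (nat_lit 1952) (nat_lit 4398046511104) (.ev (nat_lit 1965) (nat_lit
 140737488355328) .dd)))))) (.br (nat_lit 13) (.ch (nat_lit 10) (.ev (nat_lit 1920) (nat_lit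
 590295815031638491138) (.ev (nat_lit 2192) (nat_lit 536870912) (.ev (nat_lit 2205) (nat_lit 140737488355328)
 .dd)))) (.br (nat_lit 14) (.ch (nat_lit 13) (.ev (nat_lit 1920) (nat_lit 590295955769118425088) (.ev (nat_lit
 1968) (nat_lit 536870912) (.ev (nat_lit 2244) (nat_lit 8388608) (.fin (nat_lit 576465700097835582)))))) (.ch
 (nat_lit 14) (.ev (nat_lit 1920) (nat_lit 590295955769655328770) (.ev (nat_lit 1933) (nat_lit 8388608)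
 .dd))))))))))))))) (.br (nat_lit 10) (.ch (nat_lit 8) (.ev (nat_lit 52) (nat_lit 590728156816915562496) (.ev
 (nat_lit 212) (nat_lit 2) (.ev (nat_lit 276) (nat_lit 2251799813685248) (.ev (nat_lit 340) (nat_lit 4096) (.ev
 (nat_lit 852) (nat_lit 1180591620717411303424) (.ev (nat_lit 916) (nat_lit 4398046511104) (.ev (nat_lit 948)
 (nat_lit 562949953421312) (.ev (nat_lit 1312) (nat_lit 70368744439808) (.nd (nat_lit 1904) (.br (nat_lit 13)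
 (.br (nat_lit 6) (.ch (nat_lit 3) (.ev (nat_lit 1920) (nat_lit 18448019507197771776) (.ev (nat_lit 1968)
 (nat_lit 32768) (.ev (nat_lit 1981) (nat_lit 8589934592) .dd)))) (.br (nat_lit 8) (.ch (nat_lit 6) (.ev
 (nat_lit 1920) (nat_lit 18448010719694684160) (.ev (nat_lit 2244) (nat_lit 32768) (.ev (nat_lit 2253) (nat_lit
 8796093022208) .dd)))) (.ch (nat_lit 8) (.ev (nat_lit 1920) (nat_lit 18448019515787739136) .dd)))) (.br
 (nat_lit 15) (.ch (nat_lit 13) (.ev (nat_lit 1920) (nat_lit 18448019515787739136) .dd)) (.br (nat_lit 18) (.ch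
 (nat_lit 15) (.ev (nat_lit 1920) (nat_lit 18446752878392541184) (.ev (nat_lit 2244) (nat_lit 1125899906842624)
 (.ev (nat_lit 2253) (nat_lit 140737488355328) .dd)))) (.ch (nat_lit 18) (.ev (nat_lit 1920) (nat_lit
 1134704589832192) (.ev (nat_lit 1968) (nat_lit 140737488355328) (.ev (nat_lit 1981) (nat_lit
 18446744073709551616) .dd))))))))))))))))) (.ch (nat_lit 10) (.ev (nat_lit 52) (nat_lit
 1770890250232520507392) (.ev (nat_lit 308) (nat_lit 8796093022208) (.ev (nat_lit 340) (nat_lit 68719476738)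
 (.ev (nat_lit 436) (nat_lit 16777216) (.ev (nat_lit 468) (nat_lit 549755813888) (.ev (nat_lit 564) (nat_lit
 274877906944) (.ev (nat_lit 756) (nat_lit 211106232532992) (.ev (nat_lit 788) (nat_lit 4096) (.ev (nat_lit
 820) (nat_lit 262144) (.ev (nat_lit 916) (nat_lit 144115188075855872) (.ev (nat_lit 1552) (nat_lit
 18446744073709551616) (.nd (nat_lit 1904) (.br (nat_lit 13) (.br (nat_lit 6) (.ch (nat_lit 4) (.ev (nat_lit
 1920) (nat_lit 288230376227241984) (.ev (nat_lit 1936) (nat_lit 536870912) (.ev (nat_lit 1949) (nat_lit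
 1125899906842624) .dd)))) (.br (nat_lit 8) (.ch (nat_lit 6) (.ev (nat_lit 1920) (nat_lit 1125900519211008)
 (.ev (nat_lit 1936) (nat_lit 288230376151711744) (.ev (nat_lit 1949) (nat_lit 32768) .dd)))) (.ch (nat_lit 8)
 (.ev (nat_lit 1920) (nat_lit 289356276603813888) (.ev (nat_lit 1936) (nat_lit 32768) (.ev (nat_lit 1949)
 (nat_lit 67108864) .dd)))))) (.br (nat_lit 15) (.br (nat_lit 14) (.ch (nat_lit 13) (.ev (nat_lit 1920)
 (nat_lit 289356276125696000) (.ev (nat_lit 1952) (nat_lit 8388608) (.ev (nat_lit 1965) (nat_lit 536870912)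
 .dd)))) (.ch (nat_lit 14) (.ev (nat_lit 1920) (nat_lit 289356276134084608) (.ev (nat_lit 1933) (nat_lit
 536870912) .dd)))) (.br (nat_lit 16) (.ch (nat_lit 15) (.ev (nat_lit 1920) (nat_lit 1125900452134912) (.ev
 (nat_lit 1936) (nat_lit 288230376151711744) (.ev (nat_lit 1949) (nat_lit 67108864) .dd)))) (.ch (nat_lit 16)
 (.ev (nat_lit 1920) (nat_lit 289356276670955520) .dd))))))))))))))))))))) (.br (nat_lit 15) (.br (nat_lit 12)
 (.ch (nat_lit 11) (.ev (nat_lit 52) (nat_lit 18591638549795471360) (.ev (nat_lit 212) (nat_lit 4096) (.ev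
 (nat_lit 340) (nat_lit 2251799813685248) (.ev (nat_lit 596) (nat_lit 67108864) (.ev (nat_lit 692) (nat_lit
 68719476736) (.ev (nat_lit 724) (nat_lit 1180591620717411303424) (.ev (nat_lit 852) (nat_lit
 288230376151711744) (.ev (nat_lit 1012) (nat_lit 590295810358705651712) (.nd (nat_lit 1904) (.br (nat_lit 10)
 (.br (nat_lit 4) (.ch (nat_lit 3) (.ev (nat_lit 1920) (nat_lit 1125899906842626) (.ev (nat_lit 2256) (nat_lit
 8796101410816) .dd))) (.br (nat_lit 8) (.ch (nat_lit 4) (.ev (nat_lit 1920) (nat_lit 1134695999864832) (.fin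
 (nat_lit 576464600600887876)))) (.ch (nat_lit 8) (.ev (nat_lit 1920) (nat_lit 1125899915231232) (.ev (nat_lit
 1936) (nat_lit 8796093022208) (.ev (nat_lit 1949) (nat_lit 2) .dd)))))) (.br (nat_lit 15) (.br (nat_lit 14)
 (.ch (nat_lit 10) (.ev (nat_lit 1920) (nat_lit 1134696008253442) .dd)) (.ch (nat_lit 14) (.ev (nat_lit 1920)
 (nat_lit 1134696008253442) .dd))) (.br (nat_lit 16) (.ch (nat_lit 15) (.ev (nat_lit 1920) (nat_lit
 8796101410818) (.ev (nat_lit 1933) (nat_lit 1125899906842624) .dd))) (.ch (nat_lit 16) (.ev (nat_lit 1920)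
 (nat_lit 1134696008253442) .dd))))))))))))))) (.br (nat_lit 13) (.ch (nat_lit 12) (.ev (nat_lit 52) (nat_lit
 18735045643784687616) (.ev (nat_lit 84) (nat_lit 144115188142964736) (.ev (nat_lit 116) (nat_lit
 590295810358705651712) (.ev (nat_lit 564) (nat_lit 16777216) (.ev (nat_lit 884) (nat_lit 8796093022208) (.ev
 (nat_lit 948) (nat_lit 1125908496777216) (.ev (nat_lit 1696) (nat_lit 562949953421312) (.nd (nat_lit 1904)
 (.br (nat_lit 9) (.br (nat_lit 6) (.ch (nat_lit 4) (.ev (nat_lit 1920) (nat_lit 2397004068061186) (.ev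
 (nat_lit 1933) (nat_lit 1180591620717411303424) .dd))) (.ch (nat_lit 6) (.ev (nat_lit 1920) (nat_lit
 1180591625115457814530) (.ev (nat_lit 1984) (nat_lit 68719476736) (.ev (nat_lit 2032) (nat_lit 32768) (.ev
 (nat_lit 2096) (nat_lit 140737488355328) (.ev (nat_lit 2109) (nat_lit 2251799813685248) .dd))))))) (.br
 (nat_lit 13) (.ch (nat_lit 9) (.ev (nat_lit 1920) (nat_lit 1180594013323432853506) (.ev (nat_lit 1933)
 (nat_lit 4398046511104) .dd))) (.br (nat_lit 16) (.ch (nat_lit 13) (.ev (nat_lit 1920) (nat_lit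
 2397004068028416) (.ev (nat_lit 2128) (nat_lit 1180591620717411303424) (.fin (nat_lit 576465700097835582)))))
 (.ch (nat_lit 16) (.ev (nat_lit 1920) (nat_lit 1180591765921665679360) (.ev (nat_lit 2032) (nat_lit 2) (.ev
 (nat_lit 2045) (nat_lit 2251799813685248) .dd)))))))))))))))) (.ch (nat_lit 13) (.ev (nat_lit 52) (nat_lit
 145390973776592896) (.ev (nat_lit 116) (nat_lit 536870912) (.ev (nat_lit 500) (nat_lit 549755813888) (.ev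
 (nat_lit 532) (nat_lit 18446744073709551616) (.ev (nat_lit 820) (nat_lit 4096) (.ev (nat_lit 1088) (nat_lit
 1180591691086155481088) (.nd (nat_lit 1904) (.br (nat_lit 13) (.br (nat_lit 8) (.ch (nat_lit 3) (.ev (nat_lit
 1920) (nat_lit 590584040734924472322) (.ev (nat_lit 1984) (nat_lit 562949953421312) (.ev (nat_lit 2016)
 (nat_lit 4398046773248) (.ev (nat_lit 2029) (nat_lit 2251799813685248) .dd))))) (.br (nat_lit 10) (.ch
 (nat_lit 8) (.ev (nat_lit 1920) (nat_lit 291045125919080450) (.ev (nat_lit 1952) (nat_lit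
 590295810358705651712) (.ev (nat_lit 2244) (nat_lit 67108864) (.ev (nat_lit 2253) (nat_lit 4398046511104)
 .dd))))) (.ch (nat_lit 10) (.ev (nat_lit 1920) (nat_lit 590298629506519269378) (.ev (nat_lit 2176) (nat_lit
 262144) (.ev (nat_lit 2244) (nat_lit 67108864) (.ev (nat_lit 2253) (nat_lit 288230376151711744) .dd)))))))
 (.br (nat_lit 16) (.ch (nat_lit 13) (.ev (nat_lit 1920) (nat_lit 590586855484691841026) (.ev (nat_lit 1933)
 (nat_lit 4398046511104) .dd))) (.br (nat_lit 18) (.ch (nat_lit 16) (.ev (nat_lit 1920) (nat_lit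
 590586859882738089986) (.ev (nat_lit 1933) (nat_lit 262144) .dd))) (.ch (nat_lit 18) (.ev (nat_lit 1920)
 (nat_lit 590586855484691578880) (.ev (nat_lit 2244) (nat_lit 262146) (.ev (nat_lit 2253) (nat_lit
 4398046511104) .dd))))))))))))))))) (.br (nat_lit 17) (.br (nat_lit 16) (.ch (nat_lit 15) (.ev (nat_lit 52)
 (nat_lit 1180595078131791958016) (.ev (nat_lit 224) (nat_lit 609175608434880708610) .dd))) (.ch (nat_lit 16)
 (.ev (nat_lit 52) (nat_lit 215581680730112) (.ev (nat_lit 116) (nat_lit 549755813888) (.ev (nat_lit 148)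
 (nat_lit 2) (.ev (nat_lit 340) (nat_lit 274877906944) (.ev (nat_lit 404) (nat_lit 18446744073709551616) (.ev
 (nat_lit 596) (nat_lit 562949953421312) (.ev (nat_lit 896) (nat_lit 1771323163136695242752) .dd))))))))) (.br
 (nat_lit 18) (.ch (nat_lit 17) (.ev (nat_lit 52) (nat_lit 1771031559458416496642) (.ev (nat_lit 148) (nat_lit
 2251799813685248) (.ev (nat_lit 448) (nat_lit 18736875308442484736) .dd)))) (.ch (nat_lit 18) (.ev (nat_lit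
 52) (nat_lit 1789336990175083921410) (.ev (nat_lit 212) (nat_lit 16777216) (.ev (nat_lit 244) (nat_lit
 144115188075855872) (.ev (nat_lit 276) (nat_lit 68719476736) (.ev (nat_lit 564) (nat_lit 4096) (.ev (nat_lit
 628) (nat_lit 8589934592) (.ev (nat_lit 660) (nat_lit 288230376151711744) (.ev (nat_lit 1328) (nat_lit
 70368744177664) (.nd (nat_lit 1904) (.br (nat_lit 14) (.br (nat_lit 9) (.br (nat_lit 8) (.ch (nat_lit 3) (.ev
 (nat_lit 1920) (nat_lit 1275983244296192) (.ev (nat_lit 1933) (nat_lit 4398046511104) .dd))) (.ch (nat_lit 8)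
 (.ev (nat_lit 1920) (nat_lit 1279831534993408) (.ev (nat_lit 1933) (nat_lit 549755813888) .dd)))) (.br
 (nat_lit 10) (.ch (nat_lit 9) (.ev (nat_lit 1920) (nat_lit 150083337453568) (.ev (nat_lit 2244) (nat_lit
 4398046511104) (.ev (nat_lit 2253) (nat_lit 1125899906842624) .dd)))) (.ch (nat_lit 10) (.ev (nat_lit 1920)
 (nat_lit 1130847709429760) (.ev (nat_lit 1936) (nat_lit 8796093022208) (.ev (nat_lit 1949) (nat_lit
 140737488355328) .dd)))))) (.br (nat_lit 16) (.br (nat_lit 15) (.ch (nat_lit 14) (.ev (nat_lit 1920) (nat_lit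
 1280381290807296) .dd)) (.ch (nat_lit 15) (.ev (nat_lit 1920) (nat_lit 13194139795456) (.ev (nat_lit 1968)
 (nat_lit 1125899906842624) (.ev (nat_lit 2000) (nat_lit 140737488355328) (.ev (nat_lit 2013) (nat_lit
 549755813888) .dd)))))) (.br (nat_lit 18) (.ch (nat_lit 16) (.ev (nat_lit 1920) (nat_lit 1280381290545152)
 (.ev (nat_lit 1933) (nat_lit 262144) .dd))) (.ch (nat_lit 18) (.ev (nat_lit 1920) (nat_lit 1280381290545152)
 (.ev (nat_lit 1933) (nat_lit 262144) .dd)))))))))))))))))))) (.br (nat_lit 26) (.br (nat_lit 22) (.br (nat_lit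
 20) (.ch (nat_lit 19) (.ev (nat_lit 52) (nat_lit 211381185937408) (.ev (nat_lit 180) (nat_lit
 1180591620717411303424) (.ev (nat_lit 212) (nat_lit 294912) (.ev (nat_lit 276) (nat_lit 2) (.ev (nat_lit 404)
 (nat_lit 288230376151711744) (.ev (nat_lit 468) (nat_lit 562949953421312) (.ev (nat_lit 500) (nat_lit
 590295810358705651712) (.ev (nat_lit 660) (nat_lit 18446744073709551616) (.ev (nat_lit 948) (nat_lit
 536870912) (.ev (nat_lit 1296) (nat_lit 144115188092633088) (.nd (nat_lit 1904) (.br (nat_lit 10) (.br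
 (nat_lit 4) (.ch (nat_lit 3) (.ev (nat_lit 1920) (nat_lit 2256206450135040) (.ev (nat_lit 2016) (nat_lit
 1125968626319360) (.ev (nat_lit 2244) (nat_lit 8796093022208) (.ev (nat_lit 2253) (nat_lit 549755813888)
 .dd))))) (.br (nat_lit 6) (.ch (nat_lit 4) (.ev (nat_lit 1920) (nat_lit 2261154252460032) (.ev (nat_lit 2244)
 (nat_lit 4466765987840) (.ev (nat_lit 2253) (nat_lit 1125899906842624) .dd)))) (.ch (nat_lit 6) (.ev (nat_lit
 1920) (nat_lit 1139643802193920) (.ev (nat_lit 2244) (nat_lit 77309411328) (.ev (nat_lit 2253) (nat_lit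
 2251799813685248) .dd)))))) (.br (nat_lit 14) (.ch (nat_lit 10) (.ev (nat_lit 1920) (nat_lit 2265621018447872)
 (.ev (nat_lit 1933) (nat_lit 1125899906842624) .dd))) (.br (nat_lit 16) (.ch (nat_lit 14) (.ev (nat_lit 1920)
 (nat_lit 3391452205813760) (.ev (nat_lit 1933) (nat_lit 68719476736) .dd))) (.ch (nat_lit 16) (.ev (nat_lit
 1920) (nat_lit 13821204758528) (.ev (nat_lit 2176) (nat_lit 1125899906842624) (.ev (nat_lit 2244) (nat_lit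
 2251799813685248) (.ev (nat_lit 2253) (nat_lit 4096) .dd)))))))))))))))))))) (.br (nat_lit 21) (.ch (nat_lit
 20) (.ev (nat_lit 52) (nat_lit 1180593872525831733248) (.ev (nat_lit 64) (nat_lit 609176814040840933378)
 .dd))) (.ch (nat_lit 21) (.ev (nat_lit 52) (nat_lit 18593326840756076546) (.ev (nat_lit 84) (nat_lit
 549755813888) (.ev (nat_lit 148) (nat_lit 16777216) (.ev (nat_lit 436) (nat_lit 8388608) (.ev (nat_lit 596)
 (nat_lit 536870912) (.ev (nat_lit 628) (nat_lit 590295810358705651712) (.ev (nat_lit 1012) (nat_lit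
 1125899973951488) (.ev (nat_lit 1408) (nat_lit 1180591629513504325632) (.nd (nat_lit 1904) (.br (nat_lit 13)
 (.br (nat_lit 8) (.br (nat_lit 6) (.ch (nat_lit 4) (.ev (nat_lit 1920) (nat_lit 562958543622144) (.ev (nat_lit
 2244) (nat_lit 68719476736) (.ev (nat_lit 2253) (nat_lit 288230376151711744) .dd)))) (.ch (nat_lit 6) (.ev
 (nat_lit 1920) (nat_lit 288793326105399296) (.ev (nat_lit 1936) (nat_lit 77309411328) .dd)))) (.br (nat_lit 9)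
 (.ch (nat_lit 8) (.ev (nat_lit 1920) (nat_lit 563027263098880) (.ev (nat_lit 1933) (nat_lit
 288230376151711744) .dd))) (.ch (nat_lit 9) (.ev (nat_lit 1920) (nat_lit 288793394824876032) (.ev (nat_lit
 1933) (nat_lit 8589934592) .dd))))) (.br (nat_lit 16) (.br (nat_lit 14) (.ch (nat_lit 13) (.ev (nat_lit 1920)
 (nat_lit 288793403414806528) (.ev (nat_lit 1933) (nat_lit 4096) .dd))) (.ch (nat_lit 14) (.ev (nat_lit 1920)
 (nat_lit 288230453461389312) (.ev (nat_lit 1933) (nat_lit 562949953421312) .dd)))) (.br (nat_lit 18) (.ch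
 (nat_lit 16) (.ev (nat_lit 1920) (nat_lit 288793403414544384) (.ev (nat_lit 1936) (nat_lit 266240) .dd))) (.ch
 (nat_lit 18) (.ev (nat_lit 1920) (nat_lit 288230453461127168) (.ev (nat_lit 2244) (nat_lit 262144) (.ev
 (nat_lit 2253) (nat_lit 562949953421312) .dd))))))))))))))))))) (.br (nat_lit 24) (.ch (nat_lit 22) (.ev
 (nat_lit 52) (nat_lit 1180882807130666565632) (.ev (nat_lit 148) (nat_lit 262144) (.ev (nat_lit 180) (nat_lit
 18446744073709551616) (.ev (nat_lit 276) (nat_lit 4096) (.ev (nat_lit 436) (nat_lit 2) (.ev (nat_lit 468)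
 (nat_lit 590295814756752162816) (.ev (nat_lit 916) (nat_lit 536870912) (.ev (nat_lit 1168) (nat_lit
 8589967360) (.ev (nat_lit 1760) (nat_lit 8796093022208) (.nd (nat_lit 1904) (.br (nat_lit 14) (.br (nat_lit 9)
 (.ch (nat_lit 4) (.ev (nat_lit 1920) (nat_lit 144185900417417216) (.ev (nat_lit 1933) (nat_lit
 1125899906842624) .dd))) (.br (nat_lit 13) (.ch (nat_lit 9) (.ev (nat_lit 1920) (nat_lit 145311800324259840)
 .dd)) (.ch (nat_lit 13) (.ev (nat_lit 1920) (nat_lit 145311800324259840) .dd)))) (.br (nat_lit 16) (.br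
 (nat_lit 15) (.ch (nat_lit 14) (.ev (nat_lit 1920) (nat_lit 145311800324259840) .dd)) (.ch (nat_lit 15) (.ev
 (nat_lit 1920) (nat_lit 68719476736) (.ev (nat_lit 1952) (nat_lit 1125899906842624) (.ev (nat_lit 2208)
 (nat_lit 144185556820033536) (.ev (nat_lit 2221) (nat_lit 274877906944) .dd)))))) (.br (nat_lit 18) (.ch
 (nat_lit 16) (.ev (nat_lit 1920) (nat_lit 1126243504226304) (.ev (nat_lit 2000) (nat_lit 144185556820033536)
 .dd))) (.ch (nat_lit 18) (.ev (nat_lit 1920) (nat_lit 145311731604783104) (.ev (nat_lit 1933) (nat_lit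
 68719476736) .dd))))))))))))))))) (.br (nat_lit 25) (.ch (nat_lit 24) (.ev (nat_lit 52) (nat_lit
 433682639623327744) (.ev (nat_lit 116) (nat_lit 567347999932416) (.ev (nat_lit 244) (nat_lit 549755813888)
 (.ev (nat_lit 608) (nat_lit 1789336436029293592578) .dd))))) (.ch (nat_lit 25) (.ev (nat_lit 52) (nat_lit
 289427538164580352) (.ev (nat_lit 180) (nat_lit 149533581377536) (.ev (nat_lit 372) (nat_lit
 18446744073709551616) (.ev (nat_lit 500) (nat_lit 603979776) (.ev (nat_lit 532) (nat_lit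
 1180591620717411303424) (.ev (nat_lit 820) (nat_lit 32768) (.ev (nat_lit 980) (nat_lit 4096) (.ev (nat_lit
 1012) (nat_lit 4398046511104) (.ev (nat_lit 1744) (nat_lit 590295810358705651712) (.nd (nat_lit 1904) (.br
 (nat_lit 10) (.br (nat_lit 6) (.ch (nat_lit 3) (.ev (nat_lit 1920) (nat_lit 144678146619211778) (.ev (nat_lit
 1936) (nat_lit 2251799813685248) (.ev (nat_lit 1949) (nat_lit 16777216) .dd)))) (.br (nat_lit 9) (.ch (nat_lit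
 6) (.ev (nat_lit 1920) (nat_lit 144115196682567682) (.ev (nat_lit 1936) (nat_lit 2251799813685248) (.ev
 (nat_lit 1949) (nat_lit 562949953421312) .dd)))) (.ch (nat_lit 9) (.ev (nat_lit 1920) (nat_lit
 146929946449674242) .dd)))) (.br (nat_lit 16) (.br (nat_lit 13) (.ch (nat_lit 10) (.ev (nat_lit 1920) (nat_lit
 2814749783883778) (.ev (nat_lit 1952) (nat_lit 8589934592) (.ev (nat_lit 1965) (nat_lit 144115188075855872)
 .dd)))) (.ch (nat_lit 13) (.ev (nat_lit 1920) (nat_lit 2814758373818368) (.ev (nat_lit 1936) (nat_lit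
 144115188075855872) (.ev (nat_lit 1949) (nat_lit 2) .dd))))) (.br (nat_lit 18) (.ch (nat_lit 16) (.ev (nat_lit
 1920) (nat_lit 2814758373818370) (.ev (nat_lit 1933) (nat_lit 144115188075855872) .dd))) (.ch (nat_lit 18)
 (.ev (nat_lit 1920) (nat_lit 146366996479475714) (.ev (nat_lit 1936) (nat_lit 562949953421312) (.ev (nat_lit
 1949) (nat_lit 16777216) .dd))))))))))))))))))))) (.br (nat_lit 30) (.br (nat_lit 27) (.ch (nat_lit 26) (.ev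
 (nat_lit 52) (nat_lit 292171103747706882) (.ev (nat_lit 308) (nat_lit 1180591691086155481088) (.ev (nat_lit
 532) (nat_lit 140737488355328) (.ev (nat_lit 928) (nat_lit 608886683639281123328) .dd))))) (.br (nat_lit 29)
 (.ch (nat_lit 27) (.ev (nat_lit 52) (nat_lit 1199330544621696847874) (.ev (nat_lit 84) (nat_lit 4398046511104)
 (.ev (nat_lit 244) (nat_lit 536870912) (.ev (nat_lit 276) (nat_lit 32768) (.ev (nat_lit 500) (nat_lit
 144115188075855872) (.ev (nat_lit 820) (nat_lit 274877906944) (.ev (nat_lit 980) (nat_lit 8388608) (.ev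
 (nat_lit 1344) (nat_lit 70368760954880) (.nd (nat_lit 1904) (.br (nat_lit 10) (.br (nat_lit 6) (.br (nat_lit
 4) (.ch (nat_lit 3) (.ev (nat_lit 1920) (nat_lit 590295951645949820928) (.ev (nat_lit 1933) (nat_lit
 68719476736) .dd))) (.ch (nat_lit 4) (.ev (nat_lit 1920) (nat_lit 140806207832064) (.ev (nat_lit 1968)
 (nat_lit 549755813888) (.ev (nat_lit 1981) (nat_lit 590295810358705651712) .dd))))) (.br (nat_lit 9) (.ch
 (nat_lit 6) (.ev (nat_lit 1920) (nat_lit 590295810977180942336) (.ev (nat_lit 1933) (nat_lit 140737488355328)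
 .dd))) (.ch (nat_lit 9) (.ev (nat_lit 1920) (nat_lit 590295810977180942336) (.ev (nat_lit 1933) (nat_lit
 140737488355328) .dd))))) (.br (nat_lit 15) (.br (nat_lit 13) (.ch (nat_lit 10) (.ev (nat_lit 1920) (nat_lit
 590295951714669297664) .dd)) (.ch (nat_lit 13) (.ev (nat_lit 1920) (nat_lit 590295951714669297664) .dd))) (.br
 (nat_lit 16) (.ch (nat_lit 15) (.ev (nat_lit 1920) (nat_lit 590295951096194007040) (.ev (nat_lit 2244)
 (nat_lit 68719476736) (.ev (nat_lit 2253) (nat_lit 549755813888) .dd)))) (.ch (nat_lit 16) (.ev (nat_lit 1920)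
 (nat_lit 590295951714669297664) .dd))))))))))))))) (.ch (nat_lit 29) (.ev (nat_lit 52) (nat_lit
 1789334325301908340738) (.ev (nat_lit 148) (nat_lit 4096) (.ev (nat_lit 480) (nat_lit 436361264764321792)
 .dd)))))) (.br (nat_lit 35) (.br (nat_lit 33) (.ch (nat_lit 30) (.ev (nat_lit 52) (nat_lit
 1180591832167258001408) (.ev (nat_lit 436) (nat_lit 262144) (.ev (nat_lit 724) (nat_lit 18446744073709551616)
 (.ev (nat_lit 916) (nat_lit 8589934592) (.ev (nat_lit 1056) (nat_lit 288234774206611456) (.nd (nat_lit 1904)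
 (.br (nat_lit 13) (.br (nat_lit 10) (.ch (nat_lit 9) (.ev (nat_lit 1920) (nat_lit 590442186693048041474) (.ev
 (nat_lit 2016) (nat_lit 1125899906842624) (.ev (nat_lit 2029) (nat_lit 562949953421312) .dd)))) (.ch (nat_lit
 10) (.ev (nat_lit 1920) (nat_lit 590441614946464727040) (.ev (nat_lit 1952) (nat_lit 536870912) (.ev (nat_lit
 2048) (nat_lit 2) (.ev (nat_lit 2244) (nat_lit 2251799813685248) (.ev (nat_lit 2253) (nat_lit 8796093022208)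
 .dd))))))) (.br (nat_lit 15) (.ch (nat_lit 13) (.ev (nat_lit 1920) (nat_lit 590443874993085349890) (.ev
 (nat_lit 2000) (nat_lit 32768) (.ev (nat_lit 2064) (nat_lit 549755813888) (.ev (nat_lit 2077) (nat_lit
 67108864) .dd))))) (.br (nat_lit 18) (.ch (nat_lit 15) (.ev (nat_lit 1920) (nat_lit 3949446303875074) (.ev
 (nat_lit 1936) (nat_lit 549755813888) (.ev (nat_lit 2112) (nat_lit 144115188075855872) (.ev (nat_lit 2144)
 (nat_lit 590295810358705651712) (.ev (nat_lit 2157) (nat_lit 67108864) .dd)))))) (.ch (nat_lit 18) (.ev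
 (nat_lit 1920) (nat_lit 590443312592954884098) (.ev (nat_lit 1933) (nat_lit 562949953421312) .dd)))))))))))))
 (.ch (nat_lit 33) (.ev (nat_lit 52) (nat_lit 590298075352726016000) (.ev (nat_lit 96) (nat_lit
 1199472611213946650626) .dd)))) (.br (nat_lit 36) (.ch (nat_lit 35) (.ev (nat_lit 52) (nat_lit 8873402466304)
 (.ev (nat_lit 84) (nat_lit 536870912) (.ev (nat_lit 116) (nat_lit 144115188075855872) (.ev (nat_lit 212)
 (nat_lit 8388608) (.ev (nat_lit 244) (nat_lit 1125899906842624) (.ev (nat_lit 308) (nat_lit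
 288230376151711744) (.ev (nat_lit 564) (nat_lit 262144) (.ev (nat_lit 660) (nat_lit 211106232532992) (.ev
 (nat_lit 1136) (nat_lit 549755817984) (.nd (nat_lit 1904) (.br (nat_lit 15) (.br (nat_lit 6) (.ch (nat_lit 3)
 (.ev (nat_lit 1920) (nat_lit 1789336427224585207810) (.ev (nat_lit 1968) (nat_lit 4398046511104) (.ev (nat_lit
 2256) (nat_lit 562949970198528) .dd)))) (.br (nat_lit 8) (.ch (nat_lit 6) (.ev (nat_lit 1920) (nat_lit
 18449563496484962306) (.ev (nat_lit 2000) (nat_lit 1770887431076116955136) .dd))) (.ch (nat_lit 8) (.ev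
 (nat_lit 1920) (nat_lit 1199038932414015471618) (.ev (nat_lit 1968) (nat_lit 2251799813685248) (.ev (nat_lit
 2244) (nat_lit 67108864) (.ev (nat_lit 2253) (nat_lit 590295810358705651712) .dd))))))) (.br (nat_lit 16) (.ch
 (nat_lit 15) (.ev (nat_lit 1920) (nat_lit 1770890250223947350018) (.ev (nat_lit 1936) (nat_lit 274877906944)
 (.ev (nat_lit 2244) (nat_lit 67108864) (.ev (nat_lit 2253) (nat_lit 18446744073709551616) .dd))))) (.br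
 (nat_lit 18) (.ch (nat_lit 16) (.ev (nat_lit 1920) (nat_lit 1789336994572601917440) (.ev (nat_lit 1933)
 (nat_lit 2) .dd))) (.ch (nat_lit 18) (.ev (nat_lit 1920) (nat_lit 1789336994572601917442) .dd))))))))))))))))
 (.ch (nat_lit 36) (.ev (nat_lit 52) (nat_lit 590440638313784180738) (.ev (nat_lit 404) (nat_lit
 70368744177664) (.ev (nat_lit 500) (nat_lit 1125899906842624) (.ev (nat_lit 628) (nat_lit 67108864) (.ev
 (nat_lit 692) (nat_lit 4096) (.ev (nat_lit 756) (nat_lit 18446744073709551616) (.ev (nat_lit 788) (nat_lit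
 2251799813947392) (.ev (nat_lit 980) (nat_lit 16777216) (.ev (nat_lit 1632) (nat_lit 536870912) (.ev (nat_lit
 1878) (nat_lit 1180591620717411303424) (.nd (nat_lit 1904) (.br (nat_lit 8) (.br (nat_lit 4) (.ch (nat_lit 3)
 (.ev (nat_lit 1920) (nat_lit 288234774198222848) (.ev (nat_lit 1952) (nat_lit 68719476736) (.ev (nat_lit 1984)
 (nat_lit 549755813888) (.ev (nat_lit 1997) (nat_lit 8388608) .dd))))) (.br (nat_lit 6) (.ch (nat_lit 4) (.ev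
 (nat_lit 1920) (nat_lit 618483679232) (.ev (nat_lit 1984) (nat_lit 288230376151711744) (.ev (nat_lit 1997)
 (nat_lit 4398046511104) .dd)))) (.ch (nat_lit 6) (.ev (nat_lit 1920) (nat_lit 288235392681902080) .dd)))) (.br
 (nat_lit 9) (.ch (nat_lit 8) (.ev (nat_lit 1920) (nat_lit 288235392681902080) .dd)) (.br (nat_lit 10) (.ch
 (nat_lit 9) (.ev (nat_lit 1920) (nat_lit 288230994635390976) (.ev (nat_lit 1933) (nat_lit 4398046511104)
 .dd))) (.ch (nat_lit 10) (.ev (nat_lit 1920) (nat_lit 288235392681902080) .dd))))))))))))))))))))))))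

/-- The trie. -/
noncomputable def T : Tr := .nd (nat_lit 1000000) (.br (nat_lit 7) (.br (nat_lit 2) (.br (nat_lit 1) (.ch
 (nat_lit 0) (.ev (nat_lit 0) (nat_lit 2361183241434822606847) .dd)) (.ch (nat_lit 1) T1)) (.br (nat_lit 3)
 (.ch (nat_lit 2) T2) (.br (nat_lit 4) (.ch (nat_lit 3) (.ev (nat_lit 0) (nat_lit 2361183241434822606847) .dd))
 (.ch (nat_lit 4) (.ev (nat_lit 0) (nat_lit 2361183241434822606847) .dd))))) (.br (nat_lit 9) (.br (nat_lit 8)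
 (.ch (nat_lit 7) (.ev (nat_lit 0) (nat_lit 2361183241434822606847) .dd)) (.ch (nat_lit 8) T8)) (.br (nat_lit
 14) (.ch (nat_lit 9) (.ev (nat_lit 0) (nat_lit 2361183241434822606847) .dd)) (.br (nat_lit 18) (.ch (nat_lit
 14) (.ev (nat_lit 0) (nat_lit 2361183241434822606847) .dd)) (.ch (nat_lit 18) (.ev (nat_lit 0) (nat_lit
 2361183241434822606847) .dd))))))

/-- The possible values. -/
noncomputable def oks : List ℕ := [7, 85, 234]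

/-- The parameters. -/
noncomputable def S : Pr := ⟨fun i l e => lget mz (lget [] (lget [] tabs i) l) e, oks, [(nat_lit 0), (nat_lit
 1), (nat_lit 0)], T, (nat_lit 2361183241434822606847), (nat_lit 87122173451996128837), (nat_lit 71), [(nat_lit
 279193), (nat_lit 23899161165)], [(nat_lit 361), (nat_lit 1369)]⟩

/-- Nothing known. -/
noncomputable def cs0 : Cs := (.cons (nat_lit 19) (nat_lit 0) (nat_lit 1) (.cons (nat_lit 37) (nat_lit 0) (nat_lit 1) .nil))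

theorem part_1 : part S cs0 (nat_lit 1) = true := by decide +kernel

theorem part_2 : part S cs0 (nat_lit 2) = true := by decide +kernel

theorem part_8 : part S cs0 (nat_lit 8) = true := by decide +kernel

/-- Data of a prime. -/
noncomputable def D0 : PD := ⟨(nat_lit 19), (nat_lit 2), (210, 3, 5), (67, 193, 280), (183, 17, 194)⟩

theorem D0_ok : D0.Ok := pdb_sound (s := 9) (C := ⟨⟨21, 6, -28, 11, 14, 17, -4, 7, -1⟩, (2, 11, 15)⟩) (by show Nat.Prime 19; norm_num) (by decide +kernel)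

/-- Lines of the first type. -/
noncomputable def Cl0 : List C1 := [⟨⟨11, 14, -28, 21, 6, 7, 4, -7, -5⟩, (12, 16, 13)⟩,
  ⟨⟨0, 0, 0, 0, 0, 0, 0, 0, 0⟩, (0, 0, 0)⟩,
  ⟨⟨0, 0, 0, 0, 0, 0, 0, 0, 0⟩, (0, 0, 0)⟩,
  ⟨⟨9, 6, -32, 1, 26, 7, 8, -1, -1⟩, (8, 3, 5)⟩,
  ⟨⟨-9, -6, -23, -1, -26, 8, 8, -1, -7⟩, (13, 12, 18)⟩,
  ⟨⟨0, 0, 0, 0, 0, 0, 0, 0, 0⟩, (0, 0, 0)⟩,
  ⟨⟨0, 0, 0, 0, 0, 0, 0, 0, 0⟩, (0, 0, 0)⟩,
  ⟨⟨9, -6, -32, 1, -26, 7, 8, 1, -1⟩, (5, 9, 15)⟩,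
  ⟨⟨0, 0, 0, 0, 0, 0, 0, 0, 0⟩, (0, 0, 0)⟩,
  ⟨⟨21, -6, -28, 11, -14, 17, -4, -7, -1⟩, (16, 12, 6)⟩,
  ⟨⟨0, 0, 0, 0, 0, 0, 0, 0, 0⟩, (0, 0, 0)⟩,
  ⟨⟨0, 0, 0, 0, 0, 0, 0, 0, 0⟩, (0, 0, 0)⟩,
  ⟨⟨0, 0, 0, 0, 0, 0, 0, 0, 0⟩, (0, 0, 0)⟩,
  ⟨⟨0, 0, 0, 0, 0, 0, 0, 0, 0⟩, (0, 0, 0)⟩,
  ⟨⟨11, -14, -28, 21, -6, 7, 4, 7, -5⟩, (5, 13, 7)⟩,
  ⟨⟨0, 0, 0, 0, 0, 0, 0, 0, 0⟩, (0, 0, 0)⟩,
  ⟨⟨0, 0, 0, 0, 0, 0, 0, 0, 0⟩, (0, 0, 0)⟩,
  ⟨⟨0, 0, 0, 0, 0, 0, 0, 0, 0⟩, (0, 0, 0)⟩,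
  ⟨⟨-9, 6, -23, -1, 26, 8, 8, 1, -7⟩, (16, 6, 9)⟩]

/-- Data of a prime. -/
noncomputable def D1 : PD := ⟨(nat_lit 37), (nat_lit 2), (556, 16, 5), (1239, 947, 1101), (730, 506, 467)⟩

theorem D1_ok : D1.Ok := pdb_sound (s := 2) (C := ⟨⟨43, 22, -44, 23, -2, 41, 6, -15, -7⟩, (6, 23, 6)⟩) (by show Nat.Prime 37; norm_num) (by decide +kernel)

/-- Lines of the first type. -/
noncomputable def Cl1 : List C1 := [⟨⟨23, -2, -64, 43, 22, 1, -6, 15, -1⟩, (31, 29, 8)⟩,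
  ⟨⟨0, 0, 0, 0, 0, 0, 0, 0, 0⟩, (0, 0, 0)⟩,
  ⟨⟨-7, 22, -49, 27, 42, 4, 14, -7, -13⟩, (1, 12, 35)⟩,
  ⟨⟨-13, 38, -31, -47, -22, 16, 6, -9, -17⟩, (20, 4, 5)⟩,
  ⟨⟨0, 0, 0, 0, 0, 0, 0, 0, 0⟩, (0, 0, 0)⟩,
  ⟨⟨0, 0, 0, 0, 0, 0, 0, 0, 0⟩, (0, 0, 0)⟩,
  ⟨⟨7, 22, -56, -27, 42, 31, 14, 7, -1⟩, (18, 31, 36)⟩,
  ⟨⟨0, 0, 0, 0, 0, 0, 0, 0, 0⟩, (0, 0, 0)⟩,
  ⟨⟨0, 0, 0, 0, 0, 0, 0, 0, 0⟩, (0, 0, 0)⟩,
  ⟨⟨13, -38, -44, -47, -22, 31, -6, 9, -11⟩, (18, 26, 23)⟩,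
  ⟨⟨0, 0, 0, 0, 0, 0, 0, 0, 0⟩, (0, 0, 0)⟩,
  ⟨⟨0, 0, 0, 0, 0, 0, 0, 0, 0⟩, (0, 0, 0)⟩,
  ⟨⟨0, 0, 0, 0, 0, 0, 0, 0, 0⟩, (0, 0, 0)⟩,
  ⟨⟨0, 0, 0, 0, 0, 0, 0, 0, 0⟩, (0, 0, 0)⟩,
  ⟨⟨13, 38, -44, -47, 22, 31, -6, -9, -11⟩, (4, 14, 1)⟩,
  ⟨⟨0, 0, 0, 0, 0, 0, 0, 0, 0⟩, (0, 0, 0)⟩,
  ⟨⟨0, 0, 0, 0, 0, 0, 0, 0, 0⟩, (0, 0, 0)⟩,
  ⟨⟨0, 0, 0, 0, 0, 0, 0, 0, 0⟩, (0, 0, 0)⟩,
  ⟨⟨0, 0, 0, 0, 0, 0, 0, 0, 0⟩, (0, 0, 0)⟩,
  ⟨⟨0, 0, 0, 0, 0, 0, 0, 0, 0⟩, (0, 0, 0)⟩,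
  ⟨⟨0, 0, 0, 0, 0, 0, 0, 0, 0⟩, (0, 0, 0)⟩,
  ⟨⟨0, 0, 0, 0, 0, 0, 0, 0, 0⟩, (0, 0, 0)⟩,
  ⟨⟨0, 0, 0, 0, 0, 0, 0, 0, 0⟩, (0, 0, 0)⟩,
  ⟨⟨-7, -22, -49, 27, -42, 4, 14, 7, -13⟩, (13, 8, 11)⟩,
  ⟨⟨0, 0, 0, 0, 0, 0, 0, 0, 0⟩, (0, 0, 0)⟩,
  ⟨⟨0, 0, 0, 0, 0, 0, 0, 0, 0⟩, (0, 0, 0)⟩,
  ⟨⟨0, 0, 0, 0, 0, 0, 0, 0, 0⟩, (0, 0, 0)⟩,
  ⟨⟨0, 0, 0, 0, 0, 0, 0, 0, 0⟩, (0, 0, 0)⟩,
  ⟨⟨23, 2, -64, 43, -22, 1, -6, -15, -1⟩, (3, 4, 33)⟩,
  ⟨⟨0, 0, 0, 0, 0, 0, 0, 0, 0⟩, (0, 0, 0)⟩,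
  ⟨⟨0, 0, 0, 0, 0, 0, 0, 0, 0⟩, (0, 0, 0)⟩,
  ⟨⟨-13, -38, -31, -47, 22, 16, 6, 9, -17⟩, (34, 29, 27)⟩,
  ⟨⟨7, -22, -56, -27, -42, 31, 14, -7, -1⟩, (30, 27, 23)⟩,
  ⟨⟨0, 0, 0, 0, 0, 0, 0, 0, 0⟩, (0, 0, 0)⟩,
  ⟨⟨43, -22, -44, 23, 2, 41, 6, 15, -7⟩, (12, 9, 12)⟩,
  ⟨⟨0, 0, 0, 0, 0, 0, 0, 0, 0⟩, (0, 0, 0)⟩,
  ⟨⟨0, 0, 0, 0, 0, 0, 0, 0, 0⟩, (0, 0, 0)⟩]

/-- Data of a prime. -/
noncomputable def Dm : PD := ⟨(nat_lit 71), (nat_lit 2), (72, 9, 33), (3977, 4536, 3372), (4173, 4400, 3526)⟩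

theorem Dm_ok : Dm.Ok := pdb_sound (s := 11) (C := ⟨⟨59, 34, -112, -29, 94, 37, -24, -3, -11⟩, (59, 42, 47)⟩) (by show Nat.Prime 71; norm_num) (by decide +kernel)

/-- Lines of the first type. -/
noncomputable def Clm : List C1 := [⟨⟨-59, -34, -53, 29, -94, 8, 24, 3, -35⟩, (17, 47, 34)⟩,
  ⟨⟨0, 0, 0, 0, 0, 0, 0, 0, 0⟩, (0, 0, 0)⟩,
  ⟨⟨49, -74, -77, 79, 14, 28, 12, 21, -29⟩, (59, 56, 13)⟩,
  ⟨⟨0, 0, 0, 0, 0, 0, 0, 0, 0⟩, (0, 0, 0)⟩,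
  ⟨⟨0, 0, 0, 0, 0, 0, 0, 0, 0⟩, (0, 0, 0)⟩,
  ⟨⟨0, 0, 0, 0, 0, 0, 0, 0, 0⟩, (0, 0, 0)⟩,
  ⟨⟨79, -14, -107, 49, 74, 28, -12, 21, -17⟩, (44, 21, 5)⟩,
  ⟨⟨0, 0, 0, 0, 0, 0, 0, 0, 0⟩, (0, 0, 0)⟩,
  ⟨⟨0, 0, 0, 0, 0, 0, 0, 0, 0⟩, (0, 0, 0)⟩,
  ⟨⟨39, 66, -92, -89, 46, 37, -8, -19, -23⟩, (13, 65, 21)⟩,
  ⟨⟨19, 46, -107, -91, -26, 8, 12, -27, -19⟩, (7, 30, 53)⟩,
  ⟨⟨0, 0, 0, 0, 0, 0, 0, 0, 0⟩, (0, 0, 0)⟩,
  ⟨⟨0, 0, 0, 0, 0, 0, 0, 0, 0⟩, (0, 0, 0)⟩,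
  ⟨⟨99, 6, -67, 11, -94, 32, -4, -11, -31⟩, (13, 33, 59)⟩,
  ⟨⟨-39, -66, -53, -89, 46, 52, 8, 19, -31⟩, (17, 57, 22)⟩,
  ⟨⟨0, 0, 0, 0, 0, 0, 0, 0, 0⟩, (0, 0, 0)⟩,
  ⟨⟨0, 0, 0, 0, 0, 0, 0, 0, 0⟩, (0, 0, 0)⟩,
  ⟨⟨19, -46, -107, -91, 26, 8, 12, 27, -19⟩, (15, 44, 2)⟩,
  ⟨⟨0, 0, 0, 0, 0, 0, 0, 0, 0⟩, (0, 0, 0)⟩,
  ⟨⟨0, 0, 0, 0, 0, 0, 0, 0, 0⟩, (0, 0, 0)⟩,
  ⟨⟨51, 66, -88, -59, 74, 67, -20, -5, -17⟩, (59, 64, 59)⟩,
  ⟨⟨49, 74, -77, 79, -14, 28, 12, -21, -29⟩, (6, 43, 29)⟩,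
  ⟨⟨0, 0, 0, 0, 0, 0, 0, 0, 0⟩, (0, 0, 0)⟩,
  ⟨⟨0, 0, 0, 0, 0, 0, 0, 0, 0⟩, (0, 0, 0)⟩,
  ⟨⟨0, 0, 0, 0, 0, 0, 0, 0, 0⟩, (0, 0, 0)⟩,
  ⟨⟨31, 74, -83, -81, 54, 68, -16, -13, -19⟩, (8, 2, 60)⟩,
  ⟨⟨0, 0, 0, 0, 0, 0, 0, 0, 0⟩, (0, 0, 0)⟩,
  ⟨⟨11, 94, -43, -99, 6, 32, 4, -11, -35⟩, (69, 18, 38)⟩,
  ⟨⟨-51, 66, -37, 59, 74, 8, 20, -5, -37⟩, (25, 56, 25)⟩,
  ⟨⟨0, 0, 0, 0, 0, 0, 0, 0, 0⟩, (0, 0, 0)⟩,
  ⟨⟨39, -66, -92, -89, -46, 37, -8, 19, -23⟩, (43, 2, 64)⟩,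
  ⟨⟨0, 0, 0, 0, 0, 0, 0, 0, 0⟩, (0, 0, 0)⟩,
  ⟨⟨59, -34, -112, -29, -94, 37, -24, 3, -11⟩, (9, 4, 18)⟩,
  ⟨⟨0, 0, 0, 0, 0, 0, 0, 0, 0⟩, (0, 0, 0)⟩,
  ⟨⟨0, 0, 0, 0, 0, 0, 0, 0, 0⟩, (0, 0, 0)⟩,
  ⟨⟨-59, 34, -53, 29, 94, 8, 24, -3, -35⟩, (8, 43, 16)⟩,
  ⟨⟨0, 0, 0, 0, 0, 0, 0, 0, 0⟩, (0, 0, 0)⟩,
  ⟨⟨11, -94, -43, -99, -6, 32, 4, 11, -35⟩, (2, 53, 33)⟩,
  ⟨⟨0, 0, 0, 0, 0, 0, 0, 0, 0⟩, (0, 0, 0)⟩,
  ⟨⟨0, 0, 0, 0, 0, 0, 0, 0, 0⟩, (0, 0, 0)⟩,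
  ⟨⟨51, -66, -88, -59, -74, 67, -20, 5, -17⟩, (18, 46, 18)⟩,
  ⟨⟨-19, -46, -88, -91, -26, 83, -12, 27, -7⟩, (26, 61, 65)⟩,
  ⟨⟨0, 0, 0, 0, 0, 0, 0, 0, 0⟩, (0, 0, 0)⟩,
  ⟨⟨0, 0, 0, 0, 0, 0, 0, 0, 0⟩, (0, 0, 0)⟩,
  ⟨⟨0, 0, 0, 0, 0, 0, 0, 0, 0⟩, (0, 0, 0)⟩,
  ⟨⟨-19, 46, -88, -91, 26, 83, -12, -27, -7⟩, (18, 4, 45)⟩,
  ⟨⟨0, 0, 0, 0, 0, 0, 0, 0, 0⟩, (0, 0, 0)⟩,
  ⟨⟨0, 0, 0, 0, 0, 0, 0, 0, 0⟩, (0, 0, 0)⟩,
  ⟨⟨0, 0, 0, 0, 0, 0, 0, 0, 0⟩, (0, 0, 0)⟩,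
  ⟨⟨0, 0, 0, 0, 0, 0, 0, 0, 0⟩, (0, 0, 0)⟩,
  ⟨⟨0, 0, 0, 0, 0, 0, 0, 0, 0⟩, (0, 0, 0)⟩,
  ⟨⟨0, 0, 0, 0, 0, 0, 0, 0, 0⟩, (0, 0, 0)⟩,
  ⟨⟨99, -6, -67, 11, 94, 32, -4, 11, -31⟩, (48, 29, 54)⟩,
  ⟨⟨0, 0, 0, 0, 0, 0, 0, 0, 0⟩, (0, 0, 0)⟩,
  ⟨⟨0, 0, 0, 0, 0, 0, 0, 0, 0⟩, (0, 0, 0)⟩,
  ⟨⟨0, 0, 0, 0, 0, 0, 0, 0, 0⟩, (0, 0, 0)⟩,
  ⟨⟨-51, -66, -37, 59, -74, 8, 20, 5, -37⟩, (55, 38, 55)⟩,
  ⟨⟨0, 0, 0, 0, 0, 0, 0, 0, 0⟩, (0, 0, 0)⟩,
  ⟨⟨0, 0, 0, 0, 0, 0, 0, 0, 0⟩, (0, 0, 0)⟩,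
  ⟨⟨-31, -74, -52, -81, 54, 13, 16, 13, -35⟩, (64, 55, 54)⟩,
  ⟨⟨-31, 74, -52, -81, -54, 13, 16, -13, -35⟩, (11, 15, 47)⟩,
  ⟨⟨-39, 66, -53, -89, -46, 52, 8, -19, -31⟩, (58, 65, 50)⟩,
  ⟨⟨0, 0, 0, 0, 0, 0, 0, 0, 0⟩, (0, 0, 0)⟩,
  ⟨⟨79, 14, -107, 49, -74, 28, -12, -21, -17⟩, (57, 3, 21)⟩,
  ⟨⟨0, 0, 0, 0, 0, 0, 0, 0, 0⟩, (0, 0, 0)⟩,
  ⟨⟨0, 0, 0, 0, 0, 0, 0, 0, 0⟩, (0, 0, 0)⟩,
  ⟨⟨31, -74, -83, -81, -54, 68, -16, 13, -19⟩, (61, 33, 67)⟩,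
  ⟨⟨0, 0, 0, 0, 0, 0, 0, 0, 0⟩, (0, 0, 0)⟩,
  ⟨⟨0, 0, 0, 0, 0, 0, 0, 0, 0⟩, (0, 0, 0)⟩,
  ⟨⟨0, 0, 0, 0, 0, 0, 0, 0, 0⟩, (0, 0, 0)⟩,
  ⟨⟨0, 0, 0, 0, 0, 0, 0, 0, 0⟩, (0, 0, 0)⟩]

/-- Unit moves. -/
noncomputable def U : List Mv := [mz,
  mz,
  mz,
  mz,
  mz,
  ⟨⟨-1, 0, 1, 0, 1, 0, 0, 0, 1⟩, .nil, (nat_lit 18), (nat_lit 9), (nat_lit 4), (nat_lit 1), (0, 0, 0), [], 18⟩,
  ⟨⟨-1, 0, 1, 0, -1, 0, 0, 0, 1⟩, .nil, (nat_lit 0), (nat_lit 12), (nat_lit 1), (nat_lit 0), (0, 0, 0), [], 7⟩,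
  mz,
  mz,
  mz,
  ⟨⟨1, 0, 0, 0, -1, 0, 0, 0, 1⟩, .nil, (nat_lit 18), (nat_lit 14), (nat_lit 2), (nat_lit 1), (0, 0, 0), [], 10⟩,
  ⟨⟨-1, 0, 1, 0, -1, 0, 0, 0, 1⟩, .nil, (nat_lit 0), (nat_lit 12), (nat_lit 1), (nat_lit 0), (0, 0, 0), [], 7⟩,
  ⟨⟨-1, 0, 1, 0, -1, 0, 0, 0, 1⟩, .nil, (nat_lit 0), (nat_lit 12), (nat_lit 1), (nat_lit 0), (0, 0, 0), [], 7⟩,
  ⟨⟨-1, 0, 1, 0, 1, 0, 0, 0, 1⟩, .nil, (nat_lit 18), (nat_lit 9), (nat_lit 4), (nat_lit 1), (0, 0, 0), [], 18⟩,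
  mz,
  ⟨⟨-1, 0, 1, 0, 1, 0, 0, 0, 1⟩, .nil, (nat_lit 18), (nat_lit 9), (nat_lit 4), (nat_lit 1), (0, 0, 0), [], 18⟩,
  ⟨⟨1, 0, 0, 0, -1, 0, 0, 0, 1⟩, .nil, (nat_lit 18), (nat_lit 14), (nat_lit 2), (nat_lit 1), (0, 0, 0), [], 10⟩,
  ⟨⟨1, 0, 0, 0, -1, 0, 0, 0, 1⟩, .nil, (nat_lit 18), (nat_lit 14), (nat_lit 2), (nat_lit 1), (0, 0, 0), [], 10⟩,
  mz]

theorem v_ty : tyb Dm S.ty1 Clm = true := by decide +kernel

theorem v_ty0 : tyb D0 (S.tys.getD 0 0) Cl0 = true := by decide +kernel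

theorem v_ty1 : tyb D1 (S.tys.getD 1 0) Cl1 = true := by decide +kernel

theorem v_msc : mscb S D0 [D1] Dm (nat_lit 262) = true := by decide +kernel

theorem v_mv0 : mvsn (nat_lit 2491307569) S D0 [D1] Dm (nat_lit 262) 0 D0 = true := by decide +kernel

theorem v_mv1 : mvsn (nat_lit 2491307569) S D0 [D1] Dm (nat_lit 262) 1 D1 = true := by decide +kernel

theorem v_mm : mmsn (nat_lit 2491307569) S D0 [D1] Dm (nat_lit 262) = true := by decide +kernel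

theorem v_un : unb S D0 (nat_lit 262) U = true := by decide +kernel

theorem v_ok : okb S.oks [(0, 0, 0), (2, 9, 0), (0, 0, 0)] = true := by decide +kernel

theorem v_part : ∀ d < D0.p, (nat_lit 262).testBit d = true → part S (zc (D0 :: [D1])) d = true := by
  intro d hd h
  have h1 : ∀ d < 19, (nat_lit 262).testBit d = true → d = 1 ∨ d = 2 ∨ d = 8 := by decide
  rcases h1 d hd h with rfl | rfl | rfl
  · exact part_1
  · exact part_2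
  · exact part_8

theorem main (n : ℕ) (ho : Odd n) (hr : ¬ Rep n) (h0 : Split 19 n) (h1 : Split 37 n) (hm : Split 71 n) :
    n ∈ EE := by
  refine concln (W := nat_lit 2491307569) (S := S) (P0 := D0) (Pl := [D1]) (Pm := Dm) (cn := nat_lit 262) ?_ Dm_ok v_ty ?_ ?_ v_msc ?_ v_mm v_un v_part v_ok
    n ho hr ?_ hm
  · simp only [List.forall_mem_cons]
    exact ⟨D0_ok, D1_ok, fun _ h => absurd h (by simp)⟩
  · exact all2 (φ := fun j P => ∃ L, tyb P (S.tys.getD j 0) L = true) ⟨_, v_ty0⟩ ⟨_, v_ty1⟩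
  · exact all2 (φ := fun j P => Nat.ble (S.pks.getD j 0) (Nat.pow P.p P.K) = true) (by decide +kernel) (by decide +kernel)
  · exact all2 (φ := fun i P => mvsn (nat_lit 2491307569) S D0 [D1] Dm (nat_lit 262) i P = true) v_mv0 v_mv1
  · simp only [List.forall_mem_cons]
    exact ⟨h0, h1, fun _ h => absurd h (by simp)⟩

end Pool.Agent.Work.MP_9954fe_nt.P19_37_71

namespace Pool.Agent.Work.MP_9954fe_nt.P19_71_43

/-- Dummy move. -/
noncomputable def mz : Mv := ⟨⟨0, 0, 0, 0, 0, 0, 0, 0, 0⟩, .nil, (nat_lit 0), (nat_lit 0), (nat_lit 0), (nat_lit 0), (0, 0, 0), [], 0⟩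

/-- Moves. -/
noncomputable def t0_1 : List Mv := [
  ⟨⟨15, -4, -23, -10, 9, -10, 12, 12, -7⟩, (.cons (nat_lit 1532261) (nat_lit 367811) (nat_lit 1571310) (nat_lit
 1) (.cons (nat_lit 14440639) (nat_lit 24398158) (nat_lit 12469668) (nat_lit 1) .nil)), (nat_lit 41), (nat_lit
 8), (nat_lit 7), (nat_lit 1), (18, 7, 3), [221342, 2556109], 16⟩,
  ⟨⟨15, -4, -23, 10, -9, 10, 12, 12, -7⟩, (.cons (nat_lit 92011) (nat_lit 1913232) (nat_lit 1) (nat_lit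
 1286072) (.cons (nat_lit 18113527) (nat_lit 20826238) (nat_lit 1112489) (nat_lit 1) .nil)), (nat_lit 1),
 (nat_lit 37), (nat_lit 32), (nat_lit 1), (18, 12, 3), [1913650, 4579353], 31⟩,
  ⟨⟨15, -4, -23, -10, 9, -10, 12, 12, -7⟩, (.cons (nat_lit 1532261) (nat_lit 367811) (nat_lit 1571310) (nat_lit
 1) (.cons (nat_lit 14440639) (nat_lit 24398158) (nat_lit 12469668) (nat_lit 1) .nil)), (nat_lit 41), (nat_lit
 8), (nat_lit 7), (nat_lit 1), (18, 7, 3), [221342, 2556109], 16⟩,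
  ⟨⟨15, -4, -23, -10, 9, -10, 12, 12, -7⟩, (.cons (nat_lit 1532261) (nat_lit 367811) (nat_lit 1571310) (nat_lit
 1) (.cons (nat_lit 14440639) (nat_lit 24398158) (nat_lit 12469668) (nat_lit 1) .nil)), (nat_lit 41), (nat_lit
 8), (nat_lit 7), (nat_lit 1), (18, 7, 3), [221342, 2556109], 16⟩,
  ⟨⟨-3, 16, 16, 10, -9, 10, 12, 12, -7⟩, (.cons (nat_lit 463037) (nat_lit 1963987) (nat_lit 463056) (nat_lit 1)
 (.cons (nat_lit 25411680) (nat_lit 6590851) (nat_lit 13349430) (nat_lit 1) .nil)), (nat_lit 42), (nat_lit 6),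
 (nat_lit 32), (nat_lit 1), (4, 12, 3), [996079, 4205979], 31⟩,
  ⟨⟨15, -4, -23, -10, 9, -10, 12, 12, -7⟩, (.cons (nat_lit 1532261) (nat_lit 367811) (nat_lit 1571310) (nat_lit
 1) (.cons (nat_lit 14440639) (nat_lit 24398158) (nat_lit 12469668) (nat_lit 1) .nil)), (nat_lit 41), (nat_lit
 8), (nat_lit 7), (nat_lit 1), (18, 7, 3), [221342, 2556109], 16⟩,
  ⟨⟨15, -4, -23, 10, -9, 10, 12, 12, -7⟩, (.cons (nat_lit 92011) (nat_lit 1913232) (nat_lit 1) (nat_lit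
 1286072) (.cons (nat_lit 18113527) (nat_lit 20826238) (nat_lit 1112489) (nat_lit 1) .nil)), (nat_lit 1),
 (nat_lit 37), (nat_lit 32), (nat_lit 1), (18, 12, 3), [1913650, 4579353], 31⟩,
  ⟨⟨-3, 16, 16, -10, 9, -10, 12, 12, -7⟩, (.cons (nat_lit 1612883) (nat_lit 2472926) (nat_lit 960815) (nat_lit
 1) (.cons (nat_lit 25205366) (nat_lit 6619265) (nat_lit 18279684) (nat_lit 1) .nil)), (nat_lit 2), (nat_lit
 35), (nat_lit 7), (nat_lit 1), (4, 7, 3), [275090, 10420641], 16⟩,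
  ⟨⟨15, -4, -23, -10, 9, -10, 12, 12, -7⟩, (.cons (nat_lit 1532261) (nat_lit 367811) (nat_lit 1571310) (nat_lit
 1) (.cons (nat_lit 14440639) (nat_lit 24398158) (nat_lit 12469668) (nat_lit 1) .nil)), (nat_lit 41), (nat_lit
 8), (nat_lit 7), (nat_lit 1), (18, 7, 3), [221342, 2556109], 16⟩,
  ⟨⟨15, -4, -23, -10, 9, -10, 12, 12, -7⟩, (.cons (nat_lit 1532261) (nat_lit 367811) (nat_lit 1571310) (nat_lit
 1) (.cons (nat_lit 14440639) (nat_lit 24398158) (nat_lit 12469668) (nat_lit 1) .nil)), (nat_lit 41), (nat_lit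
 8), (nat_lit 7), (nat_lit 1), (18, 7, 3), [221342, 2556109], 16⟩,
  ⟨⟨15, -4, -23, -10, 9, -10, 12, 12, -7⟩, (.cons (nat_lit 1532261) (nat_lit 367811) (nat_lit 1571310) (nat_lit
 1) (.cons (nat_lit 14440639) (nat_lit 24398158) (nat_lit 12469668) (nat_lit 1) .nil)), (nat_lit 41), (nat_lit
 8), (nat_lit 7), (nat_lit 1), (18, 7, 3), [221342, 2556109], 16⟩,
  ⟨⟨-3, 16, 16, -10, 9, -10, 12, 12, -7⟩, (.cons (nat_lit 1612883) (nat_lit 2472926) (nat_lit 960815) (nat_lit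
 1) (.cons (nat_lit 25205366) (nat_lit 6619265) (nat_lit 18279684) (nat_lit 1) .nil)), (nat_lit 2), (nat_lit
 35), (nat_lit 7), (nat_lit 1), (4, 7, 3), [275090, 10420641], 16⟩,
  ⟨⟨15, -4, -23, 10, -9, 10, 12, 12, -7⟩, (.cons (nat_lit 92011) (nat_lit 1913232) (nat_lit 1) (nat_lit
 1286072) (.cons (nat_lit 18113527) (nat_lit 20826238) (nat_lit 1112489) (nat_lit 1) .nil)), (nat_lit 1),
 (nat_lit 37), (nat_lit 32), (nat_lit 1), (18, 12, 3), [1913650, 4579353], 31⟩,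
  ⟨⟨15, -4, -23, -10, 9, -10, 12, 12, -7⟩, (.cons (nat_lit 1532261) (nat_lit 367811) (nat_lit 1571310) (nat_lit
 1) (.cons (nat_lit 14440639) (nat_lit 24398158) (nat_lit 12469668) (nat_lit 1) .nil)), (nat_lit 41), (nat_lit
 8), (nat_lit 7), (nat_lit 1), (18, 7, 3), [221342, 2556109], 16⟩,
  ⟨⟨15, -4, -23, -10, 9, -10, 12, 12, -7⟩, (.cons (nat_lit 1532261) (nat_lit 367811) (nat_lit 1571310) (nat_lit
 1) (.cons (nat_lit 14440639) (nat_lit 24398158) (nat_lit 12469668) (nat_lit 1) .nil)), (nat_lit 41), (nat_lit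
 8), (nat_lit 7), (nat_lit 1), (18, 7, 3), [221342, 2556109], 16⟩,
  ⟨⟨-3, 16, 16, -10, 9, -10, 12, 12, -7⟩, (.cons (nat_lit 1612883) (nat_lit 2472926) (nat_lit 960815) (nat_lit
 1) (.cons (nat_lit 25205366) (nat_lit 6619265) (nat_lit 18279684) (nat_lit 1) .nil)), (nat_lit 2), (nat_lit
 35), (nat_lit 7), (nat_lit 1), (4, 7, 3), [275090, 10420641], 16⟩,
  ⟨⟨15, -4, -23, -10, 9, -10, 12, 12, -7⟩, (.cons (nat_lit 1532261) (nat_lit 367811) (nat_lit 1571310) (nat_lit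
 1) (.cons (nat_lit 14440639) (nat_lit 24398158) (nat_lit 12469668) (nat_lit 1) .nil)), (nat_lit 41), (nat_lit
 8), (nat_lit 7), (nat_lit 1), (18, 7, 3), [221342, 2556109], 16⟩,
  ⟨⟨15, -4, -23, -10, 9, -10, 12, 12, -7⟩, (.cons (nat_lit 1532261) (nat_lit 367811) (nat_lit 1571310) (nat_lit
 1) (.cons (nat_lit 14440639) (nat_lit 24398158) (nat_lit 12469668) (nat_lit 1) .nil)), (nat_lit 41), (nat_lit
 8), (nat_lit 7), (nat_lit 1), (18, 7, 3), [221342, 2556109], 16⟩,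
  ⟨⟨-3, 16, 16, 10, -9, 10, 12, 12, -7⟩, (.cons (nat_lit 463037) (nat_lit 1963987) (nat_lit 463056) (nat_lit 1)
 (.cons (nat_lit 25411680) (nat_lit 6590851) (nat_lit 13349430) (nat_lit 1) .nil)), (nat_lit 42), (nat_lit 6),
 (nat_lit 32), (nat_lit 1), (4, 12, 3), [996079, 4205979], 31⟩]

/-- Moves. -/
noncomputable def t0_2 : List Mv := [
  ⟨⟨-11, 12, 20, 16, 5, 2, -2, 16, -5⟩, (.cons (nat_lit 1479509) (nat_lit 1461482) (nat_lit 59807) (nat_lit 1)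
 (.cons (nat_lit 7530512) (nat_lit 10934644) (nat_lit 11840784) (nat_lit 1) .nil)), (nat_lit 23), (nat_lit 7),
 (nat_lit 29), (nat_lit 1), (15, 11, 1), [920235, 13918336], 20⟩,
  ⟨⟨9, 4, -25, -16, -5, -2, -2, 16, -5⟩, (.cons (nat_lit 1526221) (nat_lit 1108922) (nat_lit 1015758) (nat_lit
 1) (.cons (nat_lit 25022151) (nat_lit 5301013) (nat_lit 22771000) (nat_lit 1) .nil)), (nat_lit 33), (nat_lit
 13), (nat_lit 34), (nat_lit 1), (5, 8, 1), [2377237, 24933554], 12⟩,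
  ⟨⟨9, 4, -25, 16, 5, 2, -2, 16, -5⟩, (.cons (nat_lit 433875) (nat_lit 294752) (nat_lit 1551813) (nat_lit 1)
 (.cons (nat_lit 13159552) (nat_lit 12045288) (nat_lit 23397706) (nat_lit 1) .nil)), (nat_lit 20), (nat_lit
 36), (nat_lit 29), (nat_lit 1), (5, 11, 1), [2163726, 15783369], 20⟩,
  ⟨⟨9, 4, -25, -16, -5, -2, -2, 16, -5⟩, (.cons (nat_lit 1526221) (nat_lit 1108922) (nat_lit 1015758) (nat_lit
 1) (.cons (nat_lit 25022151) (nat_lit 5301013) (nat_lit 22771000) (nat_lit 1) .nil)), (nat_lit 33), (nat_lit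
 13), (nat_lit 34), (nat_lit 1), (5, 8, 1), [2377237, 24933554], 12⟩,
  ⟨⟨9, 4, -25, -16, -5, -2, -2, 16, -5⟩, (.cons (nat_lit 1526221) (nat_lit 1108922) (nat_lit 1015758) (nat_lit
 1) (.cons (nat_lit 25022151) (nat_lit 5301013) (nat_lit 22771000) (nat_lit 1) .nil)), (nat_lit 33), (nat_lit
 13), (nat_lit 34), (nat_lit 1), (5, 8, 1), [2377237, 24933554], 12⟩,
  ⟨⟨9, 4, -25, 16, 5, 2, -2, 16, -5⟩, (.cons (nat_lit 433875) (nat_lit 294752) (nat_lit 1551813) (nat_lit 1)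
 (.cons (nat_lit 13159552) (nat_lit 12045288) (nat_lit 23397706) (nat_lit 1) .nil)), (nat_lit 20), (nat_lit
 36), (nat_lit 29), (nat_lit 1), (5, 11, 1), [2163726, 15783369], 20⟩,
  ⟨⟨-11, 12, 20, 16, 5, 2, -2, 16, -5⟩, (.cons (nat_lit 1479509) (nat_lit 1461482) (nat_lit 59807) (nat_lit 1)
 (.cons (nat_lit 7530512) (nat_lit 10934644) (nat_lit 11840784) (nat_lit 1) .nil)), (nat_lit 23), (nat_lit 7),
 (nat_lit 29), (nat_lit 1), (15, 11, 1), [920235, 13918336], 20⟩,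
  ⟨⟨-11, 12, 20, -16, -5, -2, -2, 16, -5⟩, (.cons (nat_lit 522114) (nat_lit 541092) (nat_lit 108720) (nat_lit
 1) (.cons (nat_lit 14048956) (nat_lit 17360782) (nat_lit 13916536) (nat_lit 1) .nil)), (nat_lit 10), (nat_lit
 30), (nat_lit 34), (nat_lit 1), (15, 8, 1), [2316183, 13476863], 12⟩,
  ⟨⟨9, 4, -25, -16, -5, -2, -2, 16, -5⟩, (.cons (nat_lit 1526221) (nat_lit 1108922) (nat_lit 1015758) (nat_lit
 1) (.cons (nat_lit 25022151) (nat_lit 5301013) (nat_lit 22771000) (nat_lit 1) .nil)), (nat_lit 33), (nat_lit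
 13), (nat_lit 34), (nat_lit 1), (5, 8, 1), [2377237, 24933554], 12⟩,
  ⟨⟨9, 4, -25, -16, -5, -2, -2, 16, -5⟩, (.cons (nat_lit 1526221) (nat_lit 1108922) (nat_lit 1015758) (nat_lit
 1) (.cons (nat_lit 25022151) (nat_lit 5301013) (nat_lit 22771000) (nat_lit 1) .nil)), (nat_lit 33), (nat_lit
 13), (nat_lit 34), (nat_lit 1), (5, 8, 1), [2377237, 24933554], 12⟩,
  ⟨⟨9, 4, -25, -16, -5, -2, -2, 16, -5⟩, (.cons (nat_lit 1526221) (nat_lit 1108922) (nat_lit 1015758) (nat_lit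
 1) (.cons (nat_lit 25022151) (nat_lit 5301013) (nat_lit 22771000) (nat_lit 1) .nil)), (nat_lit 33), (nat_lit
 13), (nat_lit 34), (nat_lit 1), (5, 8, 1), [2377237, 24933554], 12⟩,
  ⟨⟨9, 4, -25, -16, -5, -2, -2, 16, -5⟩, (.cons (nat_lit 1526221) (nat_lit 1108922) (nat_lit 1015758) (nat_lit
 1) (.cons (nat_lit 25022151) (nat_lit 5301013) (nat_lit 22771000) (nat_lit 1) .nil)), (nat_lit 33), (nat_lit
 13), (nat_lit 34), (nat_lit 1), (5, 8, 1), [2377237, 24933554], 12⟩,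
  ⟨⟨9, 4, -25, -16, -5, -2, -2, 16, -5⟩, (.cons (nat_lit 1526221) (nat_lit 1108922) (nat_lit 1015758) (nat_lit
 1) (.cons (nat_lit 25022151) (nat_lit 5301013) (nat_lit 22771000) (nat_lit 1) .nil)), (nat_lit 33), (nat_lit
 13), (nat_lit 34), (nat_lit 1), (5, 8, 1), [2377237, 24933554], 12⟩,
  ⟨⟨-11, 12, 20, -16, -5, -2, -2, 16, -5⟩, (.cons (nat_lit 522114) (nat_lit 541092) (nat_lit 108720) (nat_lit
 1) (.cons (nat_lit 14048956) (nat_lit 17360782) (nat_lit 13916536) (nat_lit 1) .nil)), (nat_lit 10), (nat_lit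
 30), (nat_lit 34), (nat_lit 1), (15, 8, 1), [2316183, 13476863], 12⟩,
  ⟨⟨9, 4, -25, -16, -5, -2, -2, 16, -5⟩, (.cons (nat_lit 1526221) (nat_lit 1108922) (nat_lit 1015758) (nat_lit
 1) (.cons (nat_lit 25022151) (nat_lit 5301013) (nat_lit 22771000) (nat_lit 1) .nil)), (nat_lit 33), (nat_lit
 13), (nat_lit 34), (nat_lit 1), (5, 8, 1), [2377237, 24933554], 12⟩,
  ⟨⟨9, 4, -25, 16, 5, 2, -2, 16, -5⟩, (.cons (nat_lit 433875) (nat_lit 294752) (nat_lit 1551813) (nat_lit 1)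
 (.cons (nat_lit 13159552) (nat_lit 12045288) (nat_lit 23397706) (nat_lit 1) .nil)), (nat_lit 20), (nat_lit
 36), (nat_lit 29), (nat_lit 1), (5, 11, 1), [2163726, 15783369], 20⟩,
  ⟨⟨-11, 12, 20, -16, -5, -2, -2, 16, -5⟩, (.cons (nat_lit 522114) (nat_lit 541092) (nat_lit 108720) (nat_lit
 1) (.cons (nat_lit 14048956) (nat_lit 17360782) (nat_lit 13916536) (nat_lit 1) .nil)), (nat_lit 10), (nat_lit
 30), (nat_lit 34), (nat_lit 1), (15, 8, 1), [2316183, 13476863], 12⟩,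
  ⟨⟨9, 4, -25, -16, -5, -2, -2, 16, -5⟩, (.cons (nat_lit 1526221) (nat_lit 1108922) (nat_lit 1015758) (nat_lit
 1) (.cons (nat_lit 25022151) (nat_lit 5301013) (nat_lit 22771000) (nat_lit 1) .nil)), (nat_lit 33), (nat_lit
 13), (nat_lit 34), (nat_lit 1), (5, 8, 1), [2377237, 24933554], 12⟩,
  ⟨⟨9, 4, -25, -16, -5, -2, -2, 16, -5⟩, (.cons (nat_lit 1526221) (nat_lit 1108922) (nat_lit 1015758) (nat_lit
 1) (.cons (nat_lit 25022151) (nat_lit 5301013) (nat_lit 22771000) (nat_lit 1) .nil)), (nat_lit 33), (nat_lit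
 13), (nat_lit 34), (nat_lit 1), (5, 8, 1), [2377237, 24933554], 12⟩]

/-- Moves. -/
noncomputable def t0_8 : List Mv := [
  ⟨⟨17, -12, -9, -4, -5, -18, 14, 8, -13⟩, (.cons (nat_lit 1946579) (nat_lit 1445197) (nat_lit 1166019)
 (nat_lit 1) (.cons (nat_lit 19360682) (nat_lit 6402635) (nat_lit 16001213) (nat_lit 1) .nil)), (nat_lit 33),
 (nat_lit 2), (nat_lit 6), (nat_lit 1), (9, 18, 13), [1292979, 24526724], 12⟩,
  ⟨⟨17, -12, -9, -4, -5, -18, 14, 8, -13⟩, (.cons (nat_lit 1946579) (nat_lit 1445197) (nat_lit 1166019)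
 (nat_lit 1) (.cons (nat_lit 19360682) (nat_lit 6402635) (nat_lit 16001213) (nat_lit 1) .nil)), (nat_lit 33),
 (nat_lit 2), (nat_lit 6), (nat_lit 1), (9, 18, 13), [1292979, 24526724], 12⟩,
  ⟨⟨17, -12, -9, -4, -5, -18, 14, 8, -13⟩, (.cons (nat_lit 1946579) (nat_lit 1445197) (nat_lit 1166019)
 (nat_lit 1) (.cons (nat_lit 19360682) (nat_lit 6402635) (nat_lit 16001213) (nat_lit 1) .nil)), (nat_lit 33),
 (nat_lit 2), (nat_lit 6), (nat_lit 1), (9, 18, 13), [1292979, 24526724], 12⟩,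
  ⟨⟨-3, 20, -4, -4, -5, -18, 14, 8, -13⟩, (.cons (nat_lit 1175155) (nat_lit 227420) (nat_lit 1232996) (nat_lit
 1) (.cons (nat_lit 5127483) (nat_lit 23891209) (nat_lit 9608806) (nat_lit 1) .nil)), (nat_lit 10), (nat_lit
 41), (nat_lit 6), (nat_lit 1), (4, 18, 13), [943910, 2209756], 12⟩,
  ⟨⟨-3, 20, -4, 4, 5, 18, 14, 8, -13⟩, (.cons (nat_lit 793917) (nat_lit 1538720) (nat_lit 1) (nat_lit 1447173)
 (.cons (nat_lit 23414786) (nat_lit 18679277) (nat_lit 20957291) (nat_lit 1) .nil)), (nat_lit 15), (nat_lit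
 24), (nat_lit 38), (nat_lit 1), (4, 1, 13), [1487030, 6816537], 28⟩,
  ⟨⟨17, -12, -9, -4, -5, -18, 14, 8, -13⟩, (.cons (nat_lit 1946579) (nat_lit 1445197) (nat_lit 1166019)
 (nat_lit 1) (.cons (nat_lit 19360682) (nat_lit 6402635) (nat_lit 16001213) (nat_lit 1) .nil)), (nat_lit 33),
 (nat_lit 2), (nat_lit 6), (nat_lit 1), (9, 18, 13), [1292979, 24526724], 12⟩,
  ⟨⟨17, -12, -9, -4, -5, -18, 14, 8, -13⟩, (.cons (nat_lit 1946579) (nat_lit 1445197) (nat_lit 1166019)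
 (nat_lit 1) (.cons (nat_lit 19360682) (nat_lit 6402635) (nat_lit 16001213) (nat_lit 1) .nil)), (nat_lit 33),
 (nat_lit 2), (nat_lit 6), (nat_lit 1), (9, 18, 13), [1292979, 24526724], 12⟩,
  ⟨⟨17, -12, -9, -4, -5, -18, 14, 8, -13⟩, (.cons (nat_lit 1946579) (nat_lit 1445197) (nat_lit 1166019)
 (nat_lit 1) (.cons (nat_lit 19360682) (nat_lit 6402635) (nat_lit 16001213) (nat_lit 1) .nil)), (nat_lit 33),
 (nat_lit 2), (nat_lit 6), (nat_lit 1), (9, 18, 13), [1292979, 24526724], 12⟩,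
  ⟨⟨17, -12, -9, 4, 5, 18, 14, 8, -13⟩, (.cons (nat_lit 234562) (nat_lit 2098260) (nat_lit 2402388) (nat_lit 1)
 (.cons (nat_lit 14468925) (nat_lit 14038812) (nat_lit 231723) (nat_lit 1) .nil)), (nat_lit 28), (nat_lit 19),
 (nat_lit 38), (nat_lit 1), (9, 1, 13), [1970514, 14187526], 28⟩,
  ⟨⟨17, -12, -9, -4, -5, -18, 14, 8, -13⟩, (.cons (nat_lit 1946579) (nat_lit 1445197) (nat_lit 1166019)
 (nat_lit 1) (.cons (nat_lit 19360682) (nat_lit 6402635) (nat_lit 16001213) (nat_lit 1) .nil)), (nat_lit 33),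
 (nat_lit 2), (nat_lit 6), (nat_lit 1), (9, 18, 13), [1292979, 24526724], 12⟩,
  ⟨⟨17, -12, -9, -4, -5, -18, 14, 8, -13⟩, (.cons (nat_lit 1946579) (nat_lit 1445197) (nat_lit 1166019)
 (nat_lit 1) (.cons (nat_lit 19360682) (nat_lit 6402635) (nat_lit 16001213) (nat_lit 1) .nil)), (nat_lit 33),
 (nat_lit 2), (nat_lit 6), (nat_lit 1), (9, 18, 13), [1292979, 24526724], 12⟩,
  ⟨⟨17, -12, -9, -4, -5, -18, 14, 8, -13⟩, (.cons (nat_lit 1946579) (nat_lit 1445197) (nat_lit 1166019)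
 (nat_lit 1) (.cons (nat_lit 19360682) (nat_lit 6402635) (nat_lit 16001213) (nat_lit 1) .nil)), (nat_lit 33),
 (nat_lit 2), (nat_lit 6), (nat_lit 1), (9, 18, 13), [1292979, 24526724], 12⟩,
  ⟨⟨17, -12, -9, -4, -5, -18, 14, 8, -13⟩, (.cons (nat_lit 1946579) (nat_lit 1445197) (nat_lit 1166019)
 (nat_lit 1) (.cons (nat_lit 19360682) (nat_lit 6402635) (nat_lit 16001213) (nat_lit 1) .nil)), (nat_lit 33),
 (nat_lit 2), (nat_lit 6), (nat_lit 1), (9, 18, 13), [1292979, 24526724], 12⟩,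
  ⟨⟨-3, 20, -4, -4, -5, -18, 14, 8, -13⟩, (.cons (nat_lit 1175155) (nat_lit 227420) (nat_lit 1232996) (nat_lit
 1) (.cons (nat_lit 5127483) (nat_lit 23891209) (nat_lit 9608806) (nat_lit 1) .nil)), (nat_lit 10), (nat_lit
 41), (nat_lit 6), (nat_lit 1), (4, 18, 13), [943910, 2209756], 12⟩,
  ⟨⟨-3, 20, -4, 4, 5, 18, 14, 8, -13⟩, (.cons (nat_lit 793917) (nat_lit 1538720) (nat_lit 1) (nat_lit 1447173)
 (.cons (nat_lit 23414786) (nat_lit 18679277) (nat_lit 20957291) (nat_lit 1) .nil)), (nat_lit 15), (nat_lit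
 24), (nat_lit 38), (nat_lit 1), (4, 1, 13), [1487030, 6816537], 28⟩,
  ⟨⟨17, -12, -9, 4, 5, 18, 14, 8, -13⟩, (.cons (nat_lit 234562) (nat_lit 2098260) (nat_lit 2402388) (nat_lit 1)
 (.cons (nat_lit 14468925) (nat_lit 14038812) (nat_lit 231723) (nat_lit 1) .nil)), (nat_lit 28), (nat_lit 19),
 (nat_lit 38), (nat_lit 1), (9, 1, 13), [1970514, 14187526], 28⟩,
  ⟨⟨17, -12, -9, 4, 5, 18, 14, 8, -13⟩, (.cons (nat_lit 234562) (nat_lit 2098260) (nat_lit 2402388) (nat_lit 1)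
 (.cons (nat_lit 14468925) (nat_lit 14038812) (nat_lit 231723) (nat_lit 1) .nil)), (nat_lit 28), (nat_lit 19),
 (nat_lit 38), (nat_lit 1), (9, 1, 13), [1970514, 14187526], 28⟩,
  ⟨⟨17, -12, -9, -4, -5, -18, 14, 8, -13⟩, (.cons (nat_lit 1946579) (nat_lit 1445197) (nat_lit 1166019)
 (nat_lit 1) (.cons (nat_lit 19360682) (nat_lit 6402635) (nat_lit 16001213) (nat_lit 1) .nil)), (nat_lit 33),
 (nat_lit 2), (nat_lit 6), (nat_lit 1), (9, 18, 13), [1292979, 24526724], 12⟩,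
  ⟨⟨-3, 20, -4, -4, -5, -18, 14, 8, -13⟩, (.cons (nat_lit 1175155) (nat_lit 227420) (nat_lit 1232996) (nat_lit
 1) (.cons (nat_lit 5127483) (nat_lit 23891209) (nat_lit 9608806) (nat_lit 1) .nil)), (nat_lit 10), (nat_lit
 41), (nat_lit 6), (nat_lit 1), (4, 18, 13), [943910, 2209756], 12⟩]

/-- Moves. -/
noncomputable def t1_1 : List Mv := [
  mz,
  ⟨⟨-75, 20, 43, -10, -21, -70, -12, 60, -13⟩, (.cons (nat_lit 2164708) (nat_lit 864011) (nat_lit 232710)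
 (nat_lit 1) (.cons (nat_lit 9958158) (nat_lit 14218708) (nat_lit 17738934) (nat_lit 1) .nil)), (nat_lit 21),
 (nat_lit 25), (nat_lit 38), (nat_lit 1), (51, 21, 11), [1106116, 5763012], 40⟩,
  mz,
  ⟨⟨-75, -16, 23, 4, -55, 48, -10, -40, -49⟩, (.cons (nat_lit 1038196) (nat_lit 283668) (nat_lit 1202602)
 (nat_lit 1) (.cons (nat_lit 9118684) (nat_lit 6754246) (nat_lit 17784273) (nat_lit 1) .nil)), (nat_lit 14),
 (nat_lit 20), (nat_lit 39), (nat_lit 1), (1, 70, 38), [1421996, 6738420], 34⟩,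
  ⟨⟨27, 68, 16, -64, 15, 62, -6, 48, -43⟩, (.cons (nat_lit 2463372) (nat_lit 1956854) (nat_lit 1504281)
 (nat_lit 1) (.cons (nat_lit 23604834) (nat_lit 18659726) (nat_lit 17967726) (nat_lit 1) .nil)), (nat_lit 17),
 (nat_lit 42), (nat_lit 23), (nat_lit 1), (60, 55, 34), [470730, 20784273], 41⟩,
  ⟨⟨27, -68, 16, 64, 15, -62, -6, -48, -43⟩, (.cons (nat_lit 1011850) (nat_lit 291611) (nat_lit 398071)
 (nat_lit 1) (.cons (nat_lit 14436313) (nat_lit 12335421) (nat_lit 13733103) (nat_lit 1) .nil)), (nat_lit 38),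
 (nat_lit 16), (nat_lit 42), (nat_lit 1), (7, 35, 30), [1716419, 1072123], 36⟩,
  mz,
  ⟨⟨-29, 72, 20, 56, 25, -68, -38, 16, -35⟩, (.cons (nat_lit 1936849) (nat_lit 312750) (nat_lit 1) (nat_lit
 1348050) (.cons (nat_lit 10822884) (nat_lit 1507447) (nat_lit 12237693) (nat_lit 1) .nil)), (nat_lit 8),
 (nat_lit 7), (nat_lit 1), (nat_lit 1), (33, 44, 31), [559980, 23280106], 28⟩,
  ⟨⟨3, 40, -76, 64, 25, -12, 26, -32, -67⟩, (.cons (nat_lit 1245279) (nat_lit 444252) (nat_lit 231199) (nat_lit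
 1) (.cons (nat_lit 17133532) (nat_lit 17207597) (nat_lit 20508952) (nat_lit 1) .nil)), (nat_lit 27), (nat_lit
 26), (nat_lit 16), (nat_lit 1), (14, 62, 3), [1119498, 13037207], 30⟩,
  mz,
  mz,
  ⟨⟨33, -20, -92, -64, -15, 2, 6, 48, -49⟩, (.cons (nat_lit 198944) (nat_lit 1115507) (nat_lit 1184129)
 (nat_lit 1) (.cons (nat_lit 15592489) (nat_lit 22058476) (nat_lit 20987623) (nat_lit 1) .nil)), (nat_lit 29),
 (nat_lit 38), (nat_lit 17), (nat_lit 1), (67, 68, 38), [206730, 22497417], 10⟩,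
  ⟨⟨9, 76, -20, 44, -15, -82, -42, 24, -25⟩, (.cons (nat_lit 950727) (nat_lit 2235008) (nat_lit 1485133)
 (nat_lit 1) (.cons (nat_lit 8602149) (nat_lit 22875120) (nat_lit 14551059) (nat_lit 1) .nil)), (nat_lit 29),
 (nat_lit 42), (nat_lit 42), (nat_lit 1), (31, 49, 21), [2025394, 3891540], 10⟩,
  mz,
  mz,
  ⟨⟨51, -52, -56, -44, -15, -38, 42, 24, -67⟩, (.cons (nat_lit 705997) (nat_lit 85881) (nat_lit 2385846)
 (nat_lit 1) (.cons (nat_lit 22459808) (nat_lit 20579095) (nat_lit 7179908) (nat_lit 1) .nil)), (nat_lit 29),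
 (nat_lit 1), (nat_lit 1), (nat_lit 1), (24, 67, 49), [2443163, 4105919], 10⟩,
  ⟨⟨17, 24, -89, -36, -55, -12, 54, -24, -53⟩, (.cons (nat_lit 1789475) (nat_lit 1430474) (nat_lit 1) (nat_lit
 190437) (.cons (nat_lit 4333107) (nat_lit 13499443) (nat_lit 3248065) (nat_lit 1) .nil)), (nat_lit 1),
 (nat_lit 20), (nat_lit 32), (nat_lit 1), (7, 52, 64), [856833, 21602980], 4⟩,
  mz,
  ⟨⟨9, 56, -64, 56, 25, 12, 38, -16, -73⟩, (.cons (nat_lit 1075343) (nat_lit 1912532) (nat_lit 1220361)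
 (nat_lit 1) (.cons (nat_lit 9788919) (nat_lit 16956812) (nat_lit 24741686) (nat_lit 1) .nil)), (nat_lit 27),
 (nat_lit 6), (nat_lit 12), (nat_lit 1), (56, 25, 55), [1898346, 10938422], 30⟩,
  ⟨⟨39, 40, -80, -44, 55, 32, -22, -8, -55⟩, (.cons (nat_lit 441317) (nat_lit 1116947) (nat_lit 578908)
 (nat_lit 1) (.cons (nat_lit 10664811) (nat_lit 17912237) (nat_lit 5417271) (nat_lit 1) .nil)), (nat_lit 6),
 (nat_lit 6), (nat_lit 27), (nat_lit 1), (28, 3, 37), [1904946, 12661400], 25⟩,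
  mz,
  mz,
  ⟨⟨17, -24, 72, 36, -55, -48, 54, 24, -1⟩, (.cons (nat_lit 2286333) (nat_lit 636835) (nat_lit 2254635)
 (nat_lit 1) (.cons (nat_lit 8656205) (nat_lit 4264002) (nat_lit 8449541) (nat_lit 1) .nil)), (nat_lit 8),
 (nat_lit 32), (nat_lit 15), (nat_lit 1), (28, 5, 43), [1959934, 8136690], 28⟩,
  ⟨⟨39, -40, -80, 44, 55, -32, -22, 8, -55⟩, (.cons (nat_lit 1202458) (nat_lit 1287755) (nat_lit 584303)
 (nat_lit 1) (.cons (nat_lit 18124959) (nat_lit 15648998) (nat_lit 21296286) (nat_lit 1) .nil)), (nat_lit 36),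
 (nat_lit 42), (nat_lit 17), (nat_lit 1), (1, 43, 14), [111604, 13376371], 21⟩,
  ⟨⟨-39, 40, -41, 44, 55, -12, 22, -8, -77⟩, (.cons (nat_lit 2463791) (nat_lit 891872) (nat_lit 1261181)
 (nat_lit 1) (.cons (nat_lit 14495468) (nat_lit 9396165) (nat_lit 2244716) (nat_lit 1) .nil)), (nat_lit 37),
 (nat_lit 6), (nat_lit 16), (nat_lit 1), (2, 56, 28), [1359446, 13223009], 25⟩,
  mz,
  ⟨⟨51, -4, 40, 10, -69, -20, 60, 12, -49⟩, (.cons (nat_lit 687871) (nat_lit 71178) (nat_lit 405592) (nat_lit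
 1) (.cons (nat_lit 19362272) (nat_lit 17138793) (nat_lit 21029141) (nat_lit 1) .nil)), (nat_lit 32), (nat_lit
 33), (nat_lit 41), (nat_lit 1), (60, 41, 33), [1401464, 25123588], 35⟩,
  mz,
  mz,
  ⟨⟨-13, -72, 36, -70, 11, 30, -4, -44, -49⟩, (.cons (nat_lit 735726) (nat_lit 1951465) (nat_lit 493016)
 (nat_lit 1) (.cons (nat_lit 708295) (nat_lit 13076457) (nat_lit 10453434) (nat_lit 1) .nil)), (nat_lit 25),
 (nat_lit 4), (nat_lit 4), (nat_lit 1), (29, 36, 69), [476341, 25059813], 37⟩,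
  mz,
  ⟨⟨-11, 72, -25, -50, 11, 80, -44, 4, -29⟩, (.cons (nat_lit 1907119) (nat_lit 1871006) (nat_lit 1948522)
 (nat_lit 1) (.cons (nat_lit 11599328) (nat_lit 5116554) (nat_lit 21991552) (nat_lit 1) .nil)), (nat_lit 18),
 (nat_lit 20), (nat_lit 25), (nat_lit 1), (44, 58, 34), [326162, 10395598], 37⟩,
  mz,
  ⟨⟨-29, -72, 20, 56, -25, -68, -38, -16, -35⟩, (.cons (nat_lit 1521833) (nat_lit 944306) (nat_lit 399954)
 (nat_lit 1) (.cons (nat_lit 16218424) (nat_lit 14318191) (nat_lit 18958389) (nat_lit 1) .nil)), (nat_lit 33),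
 (nat_lit 8), (nat_lit 17), (nat_lit 1), (27, 36, 6), [894635, 5865947], 3⟩,
  ⟨⟨-63, 40, 7, 10, -21, -80, 12, 60, -25⟩, (.cons (nat_lit 2061334) (nat_lit 703587) (nat_lit 1570366)
 (nat_lit 1) (.cons (nat_lit 19164372) (nat_lit 22624164) (nat_lit 24685702) (nat_lit 1) .nil)), (nat_lit 21),
 (nat_lit 18), (nat_lit 5), (nat_lit 1), (60, 4, 19), [1304649, 423336], 40⟩,
  mz,
  ⟨⟨3, -40, -76, 64, -25, -12, 26, 32, -67⟩, (.cons (nat_lit 1502593) (nat_lit 1989308) (nat_lit 91669)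
 (nat_lit 1) (.cons (nat_lit 3786345) (nat_lit 16639266) (nat_lit 21351260) (nat_lit 1) .nil)), (nat_lit 33),
 (nat_lit 42), (nat_lit 36), (nat_lit 1), (58, 54, 53), [1146400, 13984265], 3⟩,
  mz,
  ⟨⟨17, -24, -89, 36, -55, 12, 54, 24, -53⟩, (.cons (nat_lit 1986804) (nat_lit 666896) (nat_lit 1) (nat_lit
 706078) (.cons (nat_lit 12534630) (nat_lit 900075) (nat_lit 21681832) (nat_lit 1) .nil)), (nat_lit 1),
 (nat_lit 12), (nat_lit 39), (nat_lit 1), (5, 44, 66), [432498, 6215286], 4⟩,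
  ⟨⟨-3, 40, -73, -64, 25, 52, -26, -32, -41⟩, (.cons (nat_lit 602568) (nat_lit 2122044) (nat_lit 1543717)
 (nat_lit 1) (.cons (nat_lit 17482981) (nat_lit 5789245) (nat_lit 4748289) (nat_lit 1) .nil)), (nat_lit 16),
 (nat_lit 26), (nat_lit 27), (nat_lit 1), (12, 43, 33), [294013, 6593798], 30⟩,
  mz,
  mz,
  ⟨⟨75, 16, -52, 4, -55, -52, 10, 40, -59⟩, (.cons (nat_lit 567129) (nat_lit 105548) (nat_lit 913233) (nat_lit
 1) (.cons (nat_lit 14668271) (nat_lit 20528607) (nat_lit 9658954) (nat_lit 1) .nil)), (nat_lit 3), (nat_lit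
 26), (nat_lit 31), (nat_lit 1), (5, 5, 48), [1637913, 469455], 5⟩,
  ⟨⟨11, -72, -36, 50, -11, 30, 44, -4, -73⟩, (.cons (nat_lit 1076996) (nat_lit 1440249) (nat_lit 278177)
 (nat_lit 1) (.cons (nat_lit 20835514) (nat_lit 15621287) (nat_lit 5304441) (nat_lit 1) .nil)), (nat_lit 38),
 (nat_lit 42), (nat_lit 32), (nat_lit 1), (69, 49, 63), [2315260, 19112063], 18⟩,
  ⟨⟨-39, -40, -41, 44, -55, -12, 22, 8, -77⟩, (.cons (nat_lit 2158644) (nat_lit 2410953) (nat_lit 769168)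
 (nat_lit 1) (.cons (nat_lit 15706360) (nat_lit 10952460) (nat_lit 6076996) (nat_lit 1) .nil)), (nat_lit 1),
 (nat_lit 5), (nat_lit 36), (nat_lit 1), (46, 10, 5), [543116, 19145410], 24⟩,
  mz,
  ⟨⟨51, 52, -56, -44, 15, -38, 42, -24, -67⟩, (.cons (nat_lit 1124690) (nat_lit 2193554) (nat_lit 1939398)
 (nat_lit 1) (.cons (nat_lit 8736094) (nat_lit 17176897) (nat_lit 20721628) (nat_lit 1) .nil)), (nat_lit 17),
 (nat_lit 29), (nat_lit 17), (nat_lit 1), (52, 15, 47), [968781, 2474823], 41⟩,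
  ⟨⟨9, -16, 80, 10, 69, 10, 60, -12, -11⟩, (.cons (nat_lit 1547849) (nat_lit 1348822) (nat_lit 2211701)
 (nat_lit 1) (.cons (nat_lit 6196689) (nat_lit 12327543) (nat_lit 12126569) (nat_lit 1) .nil)), (nat_lit 32),
 (nat_lit 10), (nat_lit 2), (nat_lit 1), (33, 13, 7), [1802962, 24897080], 8⟩,
  ⟨⟨9, -16, -89, -10, -69, 20, 60, -12, -49⟩, (.cons (nat_lit 2004344) (nat_lit 1008360) (nat_lit 1009648)
 (nat_lit 1) (.cons (nat_lit 9344702) (nat_lit 5722734) (nat_lit 3081715) (nat_lit 1) .nil)), (nat_lit 4),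
 (nat_lit 40), (nat_lit 35), (nat_lit 1), (19, 42, 32), [895711, 17603384], 1⟩,
  ⟨⟨9, -56, -64, -56, 25, -12, 38, 16, -73⟩, (.cons (nat_lit 467811) (nat_lit 1532487) (nat_lit 370562)
 (nat_lit 1) (.cons (nat_lit 23653989) (nat_lit 24861180) (nat_lit 21281576) (nat_lit 1) .nil)), (nat_lit 8),
 (nat_lit 36), (nat_lit 42), (nat_lit 1), (4, 54, 9), [1066510, 5232135], 28⟩,
  ⟨⟨65, 24, -72, -4, -55, -48, -10, 40, -49⟩, (.cons (nat_lit 1234713) (nat_lit 561949) (nat_lit 427856)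
 (nat_lit 1) (.cons (nat_lit 19741089) (nat_lit 2187581) (nat_lit 17965284) (nat_lit 1) .nil)), (nat_lit 3),
 (nat_lit 17), (nat_lit 12), (nat_lit 1), (39, 26, 65), [1499118, 17288678], 5⟩,
  ⟨⟨9, -76, -20, -44, -15, 82, -42, -24, -25⟩, (.cons (nat_lit 1279931) (nat_lit 1167561) (nat_lit 1926207)
 (nat_lit 1) (.cons (nat_lit 25214718) (nat_lit 2328805) (nat_lit 7526167) (nat_lit 1) .nil)), (nat_lit 3),
 (nat_lit 15), (nat_lit 35), (nat_lit 1), (1, 3, 19), [1788915, 19905284], 4⟩,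
  mz,
  ⟨⟨13, -72, 23, 70, 11, -40, 4, -44, -53⟩, (.cons (nat_lit 399792) (nat_lit 488405) (nat_lit 1964505) (nat_lit
 1) (.cons (nat_lit 24463773) (nat_lit 4140411) (nat_lit 17011242) (nat_lit 1) .nil)), (nat_lit 18), (nat_lit
 4), (nat_lit 39), (nat_lit 1), (14, 59, 48), [1372321, 3632351], 37⟩,
  ⟨⟨9, 16, 80, -10, 69, -10, 60, 12, -11⟩, (.cons (nat_lit 2069704) (nat_lit 672268) (nat_lit 290895) (nat_lit
 1) (.cons (nat_lit 7016208) (nat_lit 2447189) (nat_lit 7473851) (nat_lit 1) .nil)), (nat_lit 39), (nat_lit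
 40), (nat_lit 8), (nat_lit 1), (58, 46, 8), [1292813, 14008967], 42⟩,
  ⟨⟨-63, -40, 7, 10, 21, -80, 12, -60, -25⟩, (.cons (nat_lit 120976) (nat_lit 327379) (nat_lit 1362900)
 (nat_lit 1) (.cons (nat_lit 18324066) (nat_lit 11794227) (nat_lit 9240593) (nat_lit 1) .nil)), (nat_lit 1),
 (nat_lit 30), (nat_lit 12), (nat_lit 1), (33, 59, 14), [1527434, 9751936], 10⟩,
  mz,
  ⟨⟨-11, -72, -25, 50, 11, -80, -44, -4, -29⟩, (.cons (nat_lit 1573436) (nat_lit 1178182) (nat_lit 2432034)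
 (nat_lit 1) (.cons (nat_lit 4036949) (nat_lit 1612015) (nat_lit 21865543) (nat_lit 1) .nil)), (nat_lit 12),
 (nat_lit 5), (nat_lit 38), (nat_lit 1), (38, 8, 10), [1274305, 2190974], 39⟩,
  ⟨⟨-75, -20, 43, -10, 21, -70, -12, -60, -13⟩, (.cons (nat_lit 237855) (nat_lit 2105406) (nat_lit 777679)
 (nat_lit 1) (.cons (nat_lit 10341591) (nat_lit 3383064) (nat_lit 24842300) (nat_lit 1) .nil)), (nat_lit 1),
 (nat_lit 13), (nat_lit 31), (nat_lit 1), (2, 5, 6), [1088633, 6461813], 10⟩,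
  mz,
  mz,
  mz,
  ⟨⟨33, -68, -37, -50, -11, -30, 44, 4, -73⟩, (.cons (nat_lit 904299) (nat_lit 2178191) (nat_lit 137030)
 (nat_lit 1) (.cons (nat_lit 12563849) (nat_lit 13948659) (nat_lit 21859588) (nat_lit 1) .nil)), (nat_lit 26),
 (nat_lit 11), (nat_lit 12), (nat_lit 1), (12, 27, 16), [182740, 13293766], 42⟩,
  mz,
  ⟨⟨-13, 72, 36, 70, 11, -30, -4, 44, -49⟩, (.cons (nat_lit 1725571) (nat_lit 983050) (nat_lit 131846) (nat_lit
 1) (.cons (nat_lit 10591511) (nat_lit 23391675) (nat_lit 21523246) (nat_lit 1) .nil)), (nat_lit 31), (nat_lit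
 25), (nat_lit 1), (nat_lit 1), (35, 30, 49), [2427900, 22922958], 39⟩,
  ⟨⟨75, -16, -52, 4, 55, -52, 10, -40, -59⟩, (.cons (nat_lit 2476098) (nat_lit 1567344) (nat_lit 987211)
 (nat_lit 1) (.cons (nat_lit 11266956) (nat_lit 24683539) (nat_lit 24803122) (nat_lit 1) .nil)), (nat_lit 42),
 (nat_lit 32), (nat_lit 38), (nat_lit 1), (51, 51, 21), [245104, 2618825], 20⟩,
  mz,
  ⟨⟨-27, -68, 43, -64, 15, 2, 6, -48, -49⟩, (.cons (nat_lit 1983624) (nat_lit 1575160) (nat_lit 1) (nat_lit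
 1155466) (.cons (nat_lit 21537337) (nat_lit 5614637) (nat_lit 4996779) (nat_lit 1) .nil)), (nat_lit 5),
 (nat_lit 16), (nat_lit 1), (nat_lit 1), (60, 16, 34), [788268, 1575777], 36⟩,
  ⟨⟨13, 72, 23, 70, -11, -40, 4, 44, -53⟩, (.cons (nat_lit 533926) (nat_lit 1749370) (nat_lit 307536) (nat_lit
 1) (.cons (nat_lit 8221869) (nat_lit 18203907) (nat_lit 7691922) (nat_lit 1) .nil)), (nat_lit 26), (nat_lit
 17), (nat_lit 28), (nat_lit 1), (20, 64, 28), [2074120, 13541919], 42⟩,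
  ⟨⟨-23, 72, 32, 64, 25, -52, -26, 32, -41⟩, (.cons (nat_lit 59563) (nat_lit 1743177) (nat_lit 1) (nat_lit
 1402276) (.cons (nat_lit 9047709) (nat_lit 17368815) (nat_lit 11049736) (nat_lit 1) .nil)), (nat_lit 8),
 (nat_lit 38), (nat_lit 33), (nat_lit 1), (27, 36, 12), [2083802, 20008534], 28⟩,
  ⟨⟨17, 24, 72, 36, 55, -48, 54, -24, -1⟩, (.cons (nat_lit 2476098) (nat_lit 1409421) (nat_lit 1261355)
 (nat_lit 1) (.cons (nat_lit 18432159) (nat_lit 4681861) (nat_lit 11154038) (nat_lit 1) .nil)), (nat_lit 42),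
 (nat_lit 12), (nat_lit 4), (nat_lit 1), (30, 51, 41), [840488, 22737215], 39⟩]

/-- Moves. -/
noncomputable def t1_2 : List Mv := [
  mz,
  ⟨⟨63, 40, -56, 10, 21, 70, -12, 60, -13⟩, (.cons (nat_lit 2476098) (nat_lit 837549) (nat_lit 96767) (nat_lit
 1) (.cons (nat_lit 13358189) (nat_lit 609709) (nat_lit 13358260) (nat_lit 1) .nil)), (nat_lit 42), (nat_lit
 26), (nat_lit 6), (nat_lit 1), (31, 50, 11), [1738419, 16345884], 10⟩,
  mz,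
  ⟨⟨65, -24, -72, 4, -55, 48, -10, -40, -49⟩, (.cons (nat_lit 1892789) (nat_lit 2009471) (nat_lit 1712952)
 (nat_lit 1) (.cons (nat_lit 1813402) (nat_lit 5132470) (nat_lit 5103024) (nat_lit 1) .nil)), (nat_lit 29),
 (nat_lit 23), (nat_lit 39), (nat_lit 1), (37, 70, 38), [629712, 17715435], 34⟩,
  ⟨⟨-33, -20, -59, 64, -15, -62, -6, 48, -43⟩, (.cons (nat_lit 2045015) (nat_lit 1532979) (nat_lit 623818)
 (nat_lit 1) (.cons (nat_lit 13395830) (nat_lit 9405980) (nat_lit 22751369) (nat_lit 1) .nil)), (nat_lit 14),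
 (nat_lit 38), (nat_lit 26), (nat_lit 1), (45, 16, 34), [1920911, 2007429], 10⟩,
  ⟨⟨27, -68, 16, -64, -15, 62, -6, -48, -43⟩, (.cons (nat_lit 1402937) (nat_lit 1344843) (nat_lit 1474597)
 (nat_lit 1) (.cons (nat_lit 4762656) (nat_lit 22874515) (nat_lit 19542933) (nat_lit 1) .nil)), (nat_lit 3),
 (nat_lit 40), (nat_lit 40), (nat_lit 1), (7, 36, 30), [86705, 16768119], 4⟩,
  mz,
  ⟨⟨-9, -56, -55, 56, 25, -68, -38, 16, -35⟩, (.cons (nat_lit 1280724) (nat_lit 1202049) (nat_lit 500828)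
 (nat_lit 1) (.cons (nat_lit 17849842) (nat_lit 7328955) (nat_lit 23156756) (nat_lit 1) .nil)), (nat_lit 35),
 (nat_lit 36), (nat_lit 1), (nat_lit 1), (69, 44, 31), [2291568, 21741685], 28⟩,
  ⟨⟨23, -72, 9, -64, -25, 12, 26, -32, -67⟩, (.cons (nat_lit 385705) (nat_lit 594527) (nat_lit 1571338)
 (nat_lit 1) (.cons (nat_lit 22202781) (nat_lit 12892761) (nat_lit 6545767) (nat_lit 1) .nil)), (nat_lit 13),
 (nat_lit 25), (nat_lit 6), (nat_lit 1), (60, 9, 3), [1976659, 18484886], 34⟩,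
  mz,
  mz,
  ⟨⟨33, -20, -92, 64, 15, -2, 6, 48, -49⟩, (.cons (nat_lit 280843) (nat_lit 1046901) (nat_lit 1183611) (nat_lit
 1) (.cons (nat_lit 18710210) (nat_lit 6171651) (nat_lit 15890191) (nat_lit 1) .nil)), (nat_lit 17), (nat_lit
 1), (nat_lit 20), (nat_lit 1), (67, 3, 38), [253317, 11384974], 41⟩,
  ⟨⟨9, 76, -20, 44, -15, -82, -42, 24, -25⟩, (.cons (nat_lit 950727) (nat_lit 2235008) (nat_lit 1485133)
 (nat_lit 1) (.cons (nat_lit 8602149) (nat_lit 22875120) (nat_lit 14551059) (nat_lit 1) .nil)), (nat_lit 29),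
 (nat_lit 42), (nat_lit 42), (nat_lit 1), (31, 49, 21), [2025394, 3891540], 10⟩,
  mz,
  mz,
  ⟨⟨51, -52, -56, 44, 15, 38, 42, 24, -67⟩, (.cons (nat_lit 2216952) (nat_lit 340041) (nat_lit 310044) (nat_lit
 1) (.cons (nat_lit 12318978) (nat_lit 2082068) (nat_lit 18753385) (nat_lit 1) .nil)), (nat_lit 38), (nat_lit
 38), (nat_lit 29), (nat_lit 1), (24, 4, 49), [2111175, 274272], 36⟩,
  ⟨⟨17, 24, -89, -36, -55, -12, 54, -24, -53⟩, (.cons (nat_lit 1789475) (nat_lit 1430474) (nat_lit 1) (nat_lit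
 190437) (.cons (nat_lit 4333107) (nat_lit 13499443) (nat_lit 3248065) (nat_lit 1) .nil)), (nat_lit 1),
 (nat_lit 20), (nat_lit 32), (nat_lit 1), (7, 52, 64), [856833, 21602980], 4⟩,
  mz,
  ⟨⟨29, -72, -9, 56, 25, 12, 38, -16, -73⟩, (.cons (nat_lit 2000227) (nat_lit 169515) (nat_lit 706302) (nat_lit
 1) (.cons (nat_lit 23418526) (nat_lit 20145417) (nat_lit 19133420) (nat_lit 1) .nil)), (nat_lit 16), (nat_lit
 37), (nat_lit 12), (nat_lit 1), (70, 25, 55), [229375, 21612726], 30⟩,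
  ⟨⟨-61, -48, 25, 44, -55, -32, -22, -8, -55⟩, (.cons (nat_lit 518326) (nat_lit 228663) (nat_lit 9797) (nat_lit
 1) (.cons (nat_lit 5844668) (nat_lit 16145889) (nat_lit 4332903) (nat_lit 1) .nil)), (nat_lit 1), (nat_lit 8),
 (nat_lit 1), (nat_lit 1), (9, 68, 37), [655156, 3954651], 24⟩,
  mz,
  mz,
  ⟨⟨37, 48, -73, 36, -55, -48, 54, 24, -1⟩, (.cons (nat_lit 1332618) (nat_lit 2439750) (nat_lit 977167)
 (nat_lit 1) (.cons (nat_lit 12433037) (nat_lit 20083888) (nat_lit 13767999) (nat_lit 1) .nil)), (nat_lit 35),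
 (nat_lit 11), (nat_lit 15), (nat_lit 1), (15, 5, 43), [2236212, 17716865], 28⟩,
  ⟨⟨39, -40, -80, -44, -55, 32, -22, 8, -55⟩, (.cons (nat_lit 2476098) (nat_lit 261607) (nat_lit 1254087)
 (nat_lit 1) (.cons (nat_lit 8994683) (nat_lit 2786262) (nat_lit 15859056) (nat_lit 1) .nil)), (nat_lit 42),
 (nat_lit 5), (nat_lit 7), (nat_lit 1), (1, 28, 14), [1295338, 6588076], 24⟩,
  ⟨⟨-39, 40, -41, 44, 55, -12, 22, -8, -77⟩, (.cons (nat_lit 2463791) (nat_lit 891872) (nat_lit 1261181)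
 (nat_lit 1) (.cons (nat_lit 14495468) (nat_lit 9396165) (nat_lit 2244716) (nat_lit 1) .nil)), (nat_lit 37),
 (nat_lit 6), (nat_lit 16), (nat_lit 1), (2, 56, 28), [1359446, 13223009], 25⟩,
  mz,
  ⟨⟨9, 16, -89, -10, 69, 20, 60, 12, -49⟩, (.cons (nat_lit 256459) (nat_lit 2237500) (nat_lit 429888) (nat_lit
 1) (.cons (nat_lit 19960156) (nat_lit 25219661) (nat_lit 13239166) (nat_lit 1) .nil)), (nat_lit 1), (nat_lit
 21), (nat_lit 14), (nat_lit 1), (44, 30, 33), [1954778, 20048236], 9⟩,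
  mz,
  mz,
  ⟨⟨-13, -72, 36, 70, -11, -30, -4, -44, -49⟩, (.cons (nat_lit 2040302) (nat_lit 1964403) (nat_lit 1730000)
 (nat_lit 1) (.cons (nat_lit 15855782) (nat_lit 18995683) (nat_lit 1) (nat_lit 2553941) .nil)), (nat_lit 38),
 (nat_lit 31), (nat_lit 17), (nat_lit 1), (29, 35, 69), [2245376, 20693009], 18⟩,
  mz,
  ⟨⟨-11, 72, -25, 50, -11, -80, -44, 4, -29⟩, (.cons (nat_lit 1920660) (nat_lit 1402518) (nat_lit 2061807)
 (nat_lit 1) (.cons (nat_lit 12407002) (nat_lit 24376873) (nat_lit 14098317) (nat_lit 1) .nil)), (nat_lit 26),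
 (nat_lit 32), (nat_lit 31), (nat_lit 1), (44, 13, 34), [2233454, 14269590], 42⟩,
  mz,
  ⟨⟨-29, -72, 20, 56, -25, -68, -38, -16, -35⟩, (.cons (nat_lit 1521833) (nat_lit 944306) (nat_lit 399954)
 (nat_lit 1) (.cons (nat_lit 16218424) (nat_lit 14318191) (nat_lit 18958389) (nat_lit 1) .nil)), (nat_lit 33),
 (nat_lit 8), (nat_lit 17), (nat_lit 1), (27, 36, 6), [894635, 5865947], 3⟩,
  ⟨⟨75, 20, -32, -10, 21, 80, 12, 60, -25⟩, (.cons (nat_lit 2476098) (nat_lit 717054) (nat_lit 564193) (nat_lit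
 1) (.cons (nat_lit 15359465) (nat_lit 9745398) (nat_lit 19884213) (nat_lit 1) .nil)), (nat_lit 42), (nat_lit
 17), (nat_lit 37), (nat_lit 1), (30, 67, 19), [367551, 10903580], 10⟩,
  mz,
  ⟨⟨23, 72, 9, 64, -25, -12, 26, 32, -67⟩, (.cons (nat_lit 1011593) (nat_lit 1795477) (nat_lit 1116398)
 (nat_lit 1) (.cons (nat_lit 4368812) (nat_lit 6388092) (nat_lit 4348064) (nat_lit 1) .nil)), (nat_lit 10),
 (nat_lit 1), (nat_lit 36), (nat_lit 1), (66, 54, 53), [422608, 2845078], 3⟩,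
  mz,
  ⟨⟨17, -24, -89, -36, 55, -12, 54, 24, -53⟩, (.cons (nat_lit 1531870) (nat_lit 1904417) (nat_lit 648873)
 (nat_lit 1) (.cons (nat_lit 4460429) (nat_lit 21182247) (nat_lit 18504917) (nat_lit 1) .nil)), (nat_lit 16),
 (nat_lit 39), (nat_lit 18), (nat_lit 1), (5, 27, 66), [1216262, 20333912], 13⟩,
  ⟨⟨-23, -72, 32, 64, -25, -52, -26, -32, -41⟩, (.cons (nat_lit 2092229) (nat_lit 874632) (nat_lit 146779)
 (nat_lit 1) (.cons (nat_lit 11744953) (nat_lit 12433497) (nat_lit 9872230) (nat_lit 1) .nil)), (nat_lit 30),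
 (nat_lit 25), (nat_lit 37), (nat_lit 1), (21, 28, 33), [228386, 8080566], 34⟩,
  mz,
  mz,
  ⟨⟨-65, 24, -7, 4, -55, -52, 10, 40, -59⟩, (.cons (nat_lit 2178644) (nat_lit 439317) (nat_lit 431479) (nat_lit
 1) (.cons (nat_lit 22327045) (nat_lit 376032) (nat_lit 9128551) (nat_lit 1) .nil)), (nat_lit 40), (nat_lit
 17), (nat_lit 31), (nat_lit 1), (43, 5, 48), [2003122, 20504788], 5⟩,
  ⟨⟨11, -72, -36, -50, 11, -30, 44, -4, -73⟩, (.cons (nat_lit 2069568) (nat_lit 1278810) (nat_lit 930040)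
 (nat_lit 1) (.cons (nat_lit 11361759) (nat_lit 10080610) (nat_lit 23614597) (nat_lit 1) .nil)), (nat_lit 31),
 (nat_lit 5), (nat_lit 5), (nat_lit 1), (69, 22, 63), [1268162, 6446590], 39⟩,
  ⟨⟨-39, -40, -41, 44, -55, -12, 22, 8, -77⟩, (.cons (nat_lit 2158644) (nat_lit 2410953) (nat_lit 769168)
 (nat_lit 1) (.cons (nat_lit 15706360) (nat_lit 10952460) (nat_lit 6076996) (nat_lit 1) .nil)), (nat_lit 1),
 (nat_lit 5), (nat_lit 36), (nat_lit 1), (46, 10, 5), [543116, 19145410], 24⟩,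
  mz,
  ⟨⟨51, 52, -56, -44, 15, -38, 42, -24, -67⟩, (.cons (nat_lit 1124690) (nat_lit 2193554) (nat_lit 1939398)
 (nat_lit 1) (.cons (nat_lit 8736094) (nat_lit 17176897) (nat_lit 20721628) (nat_lit 1) .nil)), (nat_lit 17),
 (nat_lit 29), (nat_lit 17), (nat_lit 1), (52, 15, 47), [968781, 2474823], 41⟩,
  ⟨⟨51, 4, -91, -10, -69, -10, 60, -12, -11⟩, (.cons (nat_lit 312328) (nat_lit 472968) (nat_lit 409011)
 (nat_lit 1) (.cons (nat_lit 18009811) (nat_lit 23262494) (nat_lit 8523032) (nat_lit 1) .nil)), (nat_lit 1),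
 (nat_lit 22), (nat_lit 29), (nat_lit 1), (45, 58, 7), [761997, 21488840], 34⟩,
  ⟨⟨51, 4, 40, 10, 69, -20, 60, -12, -49⟩, (.cons (nat_lit 2476098) (nat_lit 2374628) (nat_lit 2110188)
 (nat_lit 1) (.cons (nat_lit 16195517) (nat_lit 6927046) (nat_lit 23631449) (nat_lit 1) .nil)), (nat_lit 42),
 (nat_lit 27), (nat_lit 13), (nat_lit 1), (13, 29, 32), [458274, 15405491], 9⟩,
  ⟨⟨29, 72, -9, 56, -25, 12, 38, 16, -73⟩, (.cons (nat_lit 1878583) (nat_lit 1869204) (nat_lit 2120669)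
 (nat_lit 1) (.cons (nat_lit 23303751) (nat_lit 12485044) (nat_lit 16358733) (nat_lit 1) .nil)), (nat_lit 13),
 (nat_lit 30), (nat_lit 5), (nat_lit 1), (5, 17, 9), [1267536, 21486448], 34⟩,
  ⟨⟨65, 24, -72, -4, -55, -48, -10, 40, -49⟩, (.cons (nat_lit 1234713) (nat_lit 561949) (nat_lit 427856)
 (nat_lit 1) (.cons (nat_lit 19741089) (nat_lit 2187581) (nat_lit 17965284) (nat_lit 1) .nil)), (nat_lit 3),
 (nat_lit 17), (nat_lit 12), (nat_lit 1), (39, 26, 65), [1499118, 17288678], 5⟩,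
  ⟨⟨9, -76, -20, 44, 15, -82, -42, -24, -25⟩, (.cons (nat_lit 1636055) (nat_lit 916765) (nat_lit 2274841)
 (nat_lit 1) (.cons (nat_lit 23868292) (nat_lit 390859) (nat_lit 12737451) (nat_lit 1) .nil)), (nat_lit 17),
 (nat_lit 14), (nat_lit 26), (nat_lit 1), (1, 68, 19), [1449819, 19420683], 41⟩,
  mz,
  ⟨⟨13, -72, 23, -70, -11, 40, 4, -44, -53⟩, (.cons (nat_lit 72621) (nat_lit 699905) (nat_lit 186251) (nat_lit
 1) (.cons (nat_lit 8154356) (nat_lit 17891731) (nat_lit 3508630) (nat_lit 1) .nil)), (nat_lit 5), (nat_lit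
 31), (nat_lit 26), (nat_lit 1), (14, 12, 48), [2123384, 10645685], 18⟩,
  ⟨⟨9, 16, 80, -10, 69, -10, 60, 12, -11⟩, (.cons (nat_lit 2069704) (nat_lit 672268) (nat_lit 290895) (nat_lit
 1) (.cons (nat_lit 7016208) (nat_lit 2447189) (nat_lit 7473851) (nat_lit 1) .nil)), (nat_lit 39), (nat_lit
 40), (nat_lit 8), (nat_lit 1), (58, 46, 8), [1292813, 14008967], 42⟩,
  ⟨⟨75, -20, -32, 10, 21, -80, 12, -60, -25⟩, (.cons (nat_lit 2476098) (nat_lit 2405058) (nat_lit 1119267)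
 (nat_lit 1) (.cons (nat_lit 21219829) (nat_lit 22655989) (nat_lit 5006122) (nat_lit 1) .nil)), (nat_lit 42),
 (nat_lit 13), (nat_lit 12), (nat_lit 1), (52, 59, 14), [301943, 14756622], 10⟩,
  mz,
  ⟨⟨-11, -72, -25, 50, 11, -80, -44, -4, -29⟩, (.cons (nat_lit 1573436) (nat_lit 1178182) (nat_lit 2432034)
 (nat_lit 1) (.cons (nat_lit 4036949) (nat_lit 1612015) (nat_lit 21865543) (nat_lit 1) .nil)), (nat_lit 12),
 (nat_lit 5), (nat_lit 38), (nat_lit 1), (38, 8, 10), [1274305, 2190974], 39⟩,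
  ⟨⟨-75, -20, 43, -10, 21, -70, -12, -60, -13⟩, (.cons (nat_lit 237855) (nat_lit 2105406) (nat_lit 777679)
 (nat_lit 1) (.cons (nat_lit 10341591) (nat_lit 3383064) (nat_lit 24842300) (nat_lit 1) .nil)), (nat_lit 1),
 (nat_lit 13), (nat_lit 31), (nat_lit 1), (2, 5, 6), [1088633, 6461813], 10⟩,
  mz,
  mz,
  mz,
  ⟨⟨11, 72, -36, -50, -11, -30, 44, 4, -73⟩, (.cons (nat_lit 526240) (nat_lit 1612889) (nat_lit 2023726)
 (nat_lit 1) (.cons (nat_lit 6435578) (nat_lit 6376974) (nat_lit 4168498) (nat_lit 1) .nil)), (nat_lit 17),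
 (nat_lit 32), (nat_lit 12), (nat_lit 1), (4, 27, 16), [1085321, 25197485], 42⟩,
  mz,
  ⟨⟨9, -28, -85, 70, 11, -30, -4, 44, -49⟩, (.cons (nat_lit 2245100) (nat_lit 2386742) (nat_lit 1357258)
 (nat_lit 1) (.cons (nat_lit 17957940) (nat_lit 2390724) (nat_lit 1542069) (nat_lit 1) .nil)), (nat_lit 12),
 (nat_lit 18), (nat_lit 1), (nat_lit 1), (14, 30, 49), [2371595, 18377260], 39⟩,
  ⟨⟨75, -16, -52, 4, 55, -52, 10, -40, -59⟩, (.cons (nat_lit 2476098) (nat_lit 1567344) (nat_lit 987211)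
 (nat_lit 1) (.cons (nat_lit 11266956) (nat_lit 24683539) (nat_lit 24803122) (nat_lit 1) .nil)), (nat_lit 42),
 (nat_lit 32), (nat_lit 38), (nat_lit 1), (51, 51, 21), [245104, 2618825], 20⟩,
  mz,
  ⟨⟨-27, -68, 43, 64, -15, -2, 6, -48, -49⟩, (.cons (nat_lit 737838) (nat_lit 1588048) (nat_lit 1967968)
 (nat_lit 1) (.cons (nat_lit 10253048) (nat_lit 24260685) (nat_lit 19286469) (nat_lit 1) .nil)), (nat_lit 40),
 (nat_lit 40), (nat_lit 3), (nat_lit 1), (60, 55, 34), [175428, 19951550], 4⟩,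
  ⟨⟨13, 72, 23, 70, -11, -40, 4, 44, -53⟩, (.cons (nat_lit 533926) (nat_lit 1749370) (nat_lit 307536) (nat_lit
 1) (.cons (nat_lit 8221869) (nat_lit 18203907) (nat_lit 7691922) (nat_lit 1) .nil)), (nat_lit 26), (nat_lit
 17), (nat_lit 28), (nat_lit 1), (20, 64, 28), [2074120, 13541919], 42⟩,
  ⟨⟨-23, 72, 32, 64, 25, -52, -26, 32, -41⟩, (.cons (nat_lit 59563) (nat_lit 1743177) (nat_lit 1) (nat_lit
 1402276) (.cons (nat_lit 9047709) (nat_lit 17368815) (nat_lit 11049736) (nat_lit 1) .nil)), (nat_lit 8),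
 (nat_lit 38), (nat_lit 33), (nat_lit 1), (27, 36, 12), [2083802, 20008534], 28⟩,
  ⟨⟨37, -48, -73, 36, 55, -48, 54, -24, -1⟩, (.cons (nat_lit 1315902) (nat_lit 240610) (nat_lit 1089186)
 (nat_lit 1) (.cons (nat_lit 16139595) (nat_lit 3496366) (nat_lit 19922976) (nat_lit 1) .nil)), (nat_lit 1),
 (nat_lit 31), (nat_lit 4), (nat_lit 1), (11, 51, 41), [701416, 17369640], 39⟩]

/-- Moves. -/
noncomputable def t1_8 : List Mv := [
  mz,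
  ⟨⟨63, 40, -56, 10, 21, 70, -12, 60, -13⟩, (.cons (nat_lit 2476098) (nat_lit 837549) (nat_lit 96767) (nat_lit
 1) (.cons (nat_lit 13358189) (nat_lit 609709) (nat_lit 13358260) (nat_lit 1) .nil)), (nat_lit 42), (nat_lit
 26), (nat_lit 6), (nat_lit 1), (31, 50, 11), [1738419, 16345884], 10⟩,
  mz,
  ⟨⟨65, -24, -72, -4, 55, -48, -10, -40, -49⟩, (.cons (nat_lit 2476098) (nat_lit 292385) (nat_lit 622042)
 (nat_lit 1) (.cons (nat_lit 19071543) (nat_lit 14234576) (nat_lit 14827765) (nat_lit 1) .nil)), (nat_lit 42),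
 (nat_lit 11), (nat_lit 5), (nat_lit 1), (37, 1, 38), [84271, 22101516], 20⟩,
  ⟨⟨27, 68, 16, 64, -15, -62, -6, 48, -43⟩, (.cons (nat_lit 785408) (nat_lit 1878174) (nat_lit 1966101)
 (nat_lit 1) (.cons (nat_lit 2338641) (nat_lit 3232467) (nat_lit 10640152) (nat_lit 1) .nil)), (nat_lit 29),
 (nat_lit 5), (nat_lit 26), (nat_lit 1), (60, 16, 34), [1323933, 10006727], 10⟩,
  ⟨⟨27, -68, 16, 64, 15, -62, -6, -48, -43⟩, (.cons (nat_lit 1011850) (nat_lit 291611) (nat_lit 398071)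
 (nat_lit 1) (.cons (nat_lit 14436313) (nat_lit 12335421) (nat_lit 13733103) (nat_lit 1) .nil)), (nat_lit 38),
 (nat_lit 16), (nat_lit 42), (nat_lit 1), (7, 35, 30), [1716419, 1072123], 36⟩,
  mz,
  ⟨⟨-29, 72, 20, 56, 25, -68, -38, 16, -35⟩, (.cons (nat_lit 1936849) (nat_lit 312750) (nat_lit 1) (nat_lit
 1348050) (.cons (nat_lit 10822884) (nat_lit 1507447) (nat_lit 12237693) (nat_lit 1) .nil)), (nat_lit 8),
 (nat_lit 7), (nat_lit 1), (nat_lit 1), (33, 44, 31), [559980, 23280106], 28⟩,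
  ⟨⟨3, 40, -76, 64, 25, -12, 26, -32, -67⟩, (.cons (nat_lit 1245279) (nat_lit 444252) (nat_lit 231199) (nat_lit
 1) (.cons (nat_lit 17133532) (nat_lit 17207597) (nat_lit 20508952) (nat_lit 1) .nil)), (nat_lit 27), (nat_lit
 26), (nat_lit 16), (nat_lit 1), (14, 62, 3), [1119498, 13037207], 30⟩,
  mz,
  mz,
  ⟨⟨33, -20, -92, 64, 15, -2, 6, 48, -49⟩, (.cons (nat_lit 280843) (nat_lit 1046901) (nat_lit 1183611) (nat_lit
 1) (.cons (nat_lit 18710210) (nat_lit 6171651) (nat_lit 15890191) (nat_lit 1) .nil)), (nat_lit 17), (nat_lit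
 1), (nat_lit 20), (nat_lit 1), (67, 3, 38), [253317, 11384974], 41⟩,
  ⟨⟨9, 76, -20, -44, 15, 82, -42, 24, -25⟩, (.cons (nat_lit 353804) (nat_lit 1888006) (nat_lit 1461032)
 (nat_lit 1) (.cons (nat_lit 21817829) (nat_lit 13562732) (nat_lit 23698931) (nat_lit 1) .nil)), (nat_lit 38),
 (nat_lit 5), (nat_lit 14), (nat_lit 1), (31, 22, 21), [864041, 14313382], 36⟩,
  mz,
  mz,
  ⟨⟨-9, 76, -11, -44, -15, -38, 42, 24, -67⟩, (.cons (nat_lit 2046972) (nat_lit 2307316) (nat_lit 2450699)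
 (nat_lit 1) (.cons (nat_lit 4715657) (nat_lit 1928413) (nat_lit 21356184) (nat_lit 1) .nil)), (nat_lit 14),
 (nat_lit 42), (nat_lit 1), (nat_lit 1), (25, 67, 49), [2119157, 21092642], 10⟩,
  ⟨⟨17, 24, -89, -36, -55, -12, 54, -24, -53⟩, (.cons (nat_lit 1789475) (nat_lit 1430474) (nat_lit 1) (nat_lit
 190437) (.cons (nat_lit 4333107) (nat_lit 13499443) (nat_lit 3248065) (nat_lit 1) .nil)), (nat_lit 1),
 (nat_lit 20), (nat_lit 32), (nat_lit 1), (7, 52, 64), [856833, 21602980], 4⟩,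
  mz,
  ⟨⟨29, -72, -9, -56, -25, -12, 38, -16, -73⟩, (.cons (nat_lit 2260244) (nat_lit 366613) (nat_lit 170772)
 (nat_lit 1) (.cons (nat_lit 12782582) (nat_lit 20913428) (nat_lit 15490162) (nat_lit 1) .nil)), (nat_lit 10),
 (nat_lit 8), (nat_lit 26), (nat_lit 1), (70, 46, 55), [1038824, 3637654], 3⟩,
  ⟨⟨-61, -48, 25, 44, -55, -32, -22, -8, -55⟩, (.cons (nat_lit 518326) (nat_lit 228663) (nat_lit 9797) (nat_lit
 1) (.cons (nat_lit 5844668) (nat_lit 16145889) (nat_lit 4332903) (nat_lit 1) .nil)), (nat_lit 1), (nat_lit 8),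
 (nat_lit 1), (nat_lit 1), (9, 68, 37), [655156, 3954651], 24⟩,
  mz,
  mz,
  ⟨⟨17, -24, 72, 36, -55, -48, 54, 24, -1⟩, (.cons (nat_lit 2286333) (nat_lit 636835) (nat_lit 2254635)
 (nat_lit 1) (.cons (nat_lit 8656205) (nat_lit 4264002) (nat_lit 8449541) (nat_lit 1) .nil)), (nat_lit 8),
 (nat_lit 32), (nat_lit 15), (nat_lit 1), (28, 5, 43), [1959934, 8136690], 28⟩,
  ⟨⟨39, -40, -80, -44, -55, 32, -22, 8, -55⟩, (.cons (nat_lit 2476098) (nat_lit 261607) (nat_lit 1254087)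
 (nat_lit 1) (.cons (nat_lit 8994683) (nat_lit 2786262) (nat_lit 15859056) (nat_lit 1) .nil)), (nat_lit 42),
 (nat_lit 5), (nat_lit 7), (nat_lit 1), (1, 28, 14), [1295338, 6588076], 24⟩,
  ⟨⟨-39, 40, -41, -44, -55, 12, 22, -8, -77⟩, (.cons (nat_lit 1562310) (nat_lit 1643893) (nat_lit 1292948)
 (nat_lit 1) (.cons (nat_lit 11167781) (nat_lit 21430919) (nat_lit 6154305) (nat_lit 1) .nil)), (nat_lit 1),
 (nat_lit 35), (nat_lit 42), (nat_lit 1), (2, 15, 28), [2288152, 7946927], 24⟩,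
  mz,
  ⟨⟨51, -4, 40, -10, 69, 20, 60, 12, -49⟩, (.cons (nat_lit 2476098) (nat_lit 1012281) (nat_lit 2406030)
 (nat_lit 1) (.cons (nat_lit 8161405) (nat_lit 5738787) (nat_lit 1) (nat_lit 2748339) .nil)), (nat_lit 42),
 (nat_lit 22), (nat_lit 14), (nat_lit 1), (60, 30, 33), [883909, 4432529], 9⟩,
  mz,
  mz,
  ⟨⟨9, 28, -85, -70, 11, 30, -4, -44, -49⟩, (.cons (nat_lit 172950) (nat_lit 1514206) (nat_lit 2085127)
 (nat_lit 1) (.cons (nat_lit 1703883) (nat_lit 10444881) (nat_lit 8511605) (nat_lit 1) .nil)), (nat_lit 18),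
 (nat_lit 39), (nat_lit 4), (nat_lit 1), (40, 36, 69), [156836, 9896665], 37⟩,
  mz,
  ⟨⟨-11, 72, -25, 50, -11, -80, -44, 4, -29⟩, (.cons (nat_lit 1920660) (nat_lit 1402518) (nat_lit 2061807)
 (nat_lit 1) (.cons (nat_lit 12407002) (nat_lit 24376873) (nat_lit 14098317) (nat_lit 1) .nil)), (nat_lit 26),
 (nat_lit 32), (nat_lit 31), (nat_lit 1), (44, 13, 34), [2233454, 14269590], 42⟩,
  mz,
  ⟨⟨-9, 56, -55, -56, 25, 68, -38, -16, -35⟩, (.cons (nat_lit 2395756) (nat_lit 1125391) (nat_lit 93130)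
 (nat_lit 1) (.cons (nat_lit 878415) (nat_lit 25040186) (nat_lit 1704176) (nat_lit 1) .nil)), (nat_lit 16),
 (nat_lit 6), (nat_lit 31), (nat_lit 1), (50, 35, 6), [1318454, 12878899], 30⟩,
  ⟨⟨75, 20, -32, 10, -21, -80, 12, 60, -25⟩, (.cons (nat_lit 246136) (nat_lit 344710) (nat_lit 726354) (nat_lit
 1) (.cons (nat_lit 10392680) (nat_lit 18212453) (nat_lit 8524758) (nat_lit 1) .nil)), (nat_lit 22), (nat_lit
 25), (nat_lit 5), (nat_lit 1), (30, 4, 19), [457650, 12331447], 40⟩,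
  mz,
  ⟨⟨23, 72, 9, -64, 25, 12, 26, 32, -67⟩, (.cons (nat_lit 455782) (nat_lit 2307466) (nat_lit 368925) (nat_lit
 1) (.cons (nat_lit 5300019) (nat_lit 1340226) (nat_lit 1506309) (nat_lit 1) .nil)), (nat_lit 35), (nat_lit
 38), (nat_lit 10), (nat_lit 1), (66, 17, 53), [2266887, 9012132], 28⟩,
  mz,
  ⟨⟨17, -24, -89, 36, -55, 12, 54, 24, -53⟩, (.cons (nat_lit 1986804) (nat_lit 666896) (nat_lit 1) (nat_lit
 706078) (.cons (nat_lit 12534630) (nat_lit 900075) (nat_lit 21681832) (nat_lit 1) .nil)), (nat_lit 1),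
 (nat_lit 12), (nat_lit 39), (nat_lit 1), (5, 44, 66), [432498, 6215286], 4⟩,
  ⟨⟨-23, -72, 32, -64, 25, 52, -26, -32, -41⟩, (.cons (nat_lit 1337152) (nat_lit 1953396) (nat_lit 1879763)
 (nat_lit 1) (.cons (nat_lit 11540357) (nat_lit 16526199) (nat_lit 20353211) (nat_lit 1) .nil)), (nat_lit 27),
 (nat_lit 17), (nat_lit 27), (nat_lit 1), (21, 43, 33), [917144, 3588248], 30⟩,
  mz,
  mz,
  ⟨⟨-65, 24, -7, -4, 55, 52, 10, 40, -59⟩, (.cons (nat_lit 668697) (nat_lit 1764116) (nat_lit 1226614) (nat_lit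
 1) (.cons (nat_lit 17346011) (nat_lit 5792644) (nat_lit 4291906) (nat_lit 1) .nil)), (nat_lit 1), (nat_lit
 25), (nat_lit 15), (nat_lit 1), (43, 66, 48), [624943, 1089535], 20⟩,
  ⟨⟨11, -72, -36, -50, 11, -30, 44, -4, -73⟩, (.cons (nat_lit 2069568) (nat_lit 1278810) (nat_lit 930040)
 (nat_lit 1) (.cons (nat_lit 11361759) (nat_lit 10080610) (nat_lit 23614597) (nat_lit 1) .nil)), (nat_lit 31),
 (nat_lit 5), (nat_lit 5), (nat_lit 1), (69, 22, 63), [1268162, 6446590], 39⟩,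
  ⟨⟨-39, -40, -41, 44, -55, -12, 22, 8, -77⟩, (.cons (nat_lit 2158644) (nat_lit 2410953) (nat_lit 769168)
 (nat_lit 1) (.cons (nat_lit 15706360) (nat_lit 10952460) (nat_lit 6076996) (nat_lit 1) .nil)), (nat_lit 1),
 (nat_lit 5), (nat_lit 36), (nat_lit 1), (46, 10, 5), [543116, 19145410], 24⟩,
  mz,
  ⟨⟨-9, -76, -11, -44, 15, -38, 42, -24, -67⟩, (.cons (nat_lit 1831695) (nat_lit 973700) (nat_lit 1377515)
 (nat_lit 1) (.cons (nat_lit 22517634) (nat_lit 9532521) (nat_lit 18463696) (nat_lit 1) .nil)), (nat_lit 26),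
 (nat_lit 14), (nat_lit 17), (nat_lit 1), (66, 15, 47), [2143269, 24428426], 41⟩,
  ⟨⟨51, 4, -91, 10, 69, 10, 60, -12, -11⟩, (.cons (nat_lit 1759148) (nat_lit 561429) (nat_lit 409390) (nat_lit
 1) (.cons (nat_lit 15125037) (nat_lit 16599492) (nat_lit 7459298) (nat_lit 1) .nil)), (nat_lit 11), (nat_lit
 33), (nat_lit 2), (nat_lit 1), (45, 13, 7), [2372186, 7902125], 8⟩,
  ⟨⟨51, 4, 40, 10, 69, -20, 60, -12, -49⟩, (.cons (nat_lit 2476098) (nat_lit 2374628) (nat_lit 2110188)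
 (nat_lit 1) (.cons (nat_lit 16195517) (nat_lit 6927046) (nat_lit 23631449) (nat_lit 1) .nil)), (nat_lit 42),
 (nat_lit 27), (nat_lit 13), (nat_lit 1), (13, 29, 32), [458274, 15405491], 9⟩,
  ⟨⟨9, -56, -64, -56, 25, -12, 38, 16, -73⟩, (.cons (nat_lit 467811) (nat_lit 1532487) (nat_lit 370562)
 (nat_lit 1) (.cons (nat_lit 23653989) (nat_lit 24861180) (nat_lit 21281576) (nat_lit 1) .nil)), (nat_lit 8),
 (nat_lit 36), (nat_lit 42), (nat_lit 1), (4, 54, 9), [1066510, 5232135], 28⟩,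
  ⟨⟨-75, 16, 23, 4, 55, 48, -10, 40, -49⟩, (.cons (nat_lit 826355) (nat_lit 2352476) (nat_lit 2226868) (nat_lit
 1) (.cons (nat_lit 4039374) (nat_lit 13313178) (nat_lit 1) (nat_lit 25319097) .nil)), (nat_lit 1), (nat_lit
 18), (nat_lit 28), (nat_lit 1), (26, 45, 65), [2346635, 14405364], 20⟩,
  ⟨⟨-51, 52, -5, -44, -15, 82, -42, -24, -25⟩, (.cons (nat_lit 2048610) (nat_lit 2346193) (nat_lit 1946801)
 (nat_lit 1) (.cons (nat_lit 13564630) (nat_lit 19448600) (nat_lit 22963976) (nat_lit 1) .nil)), (nat_lit 40),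
 (nat_lit 28), (nat_lit 35), (nat_lit 1), (18, 3, 19), [1950883, 15340100], 4⟩,
  mz,
  ⟨⟨13, -72, 23, 70, 11, -40, 4, -44, -53⟩, (.cons (nat_lit 399792) (nat_lit 488405) (nat_lit 1964505) (nat_lit
 1) (.cons (nat_lit 24463773) (nat_lit 4140411) (nat_lit 17011242) (nat_lit 1) .nil)), (nat_lit 18), (nat_lit
 4), (nat_lit 39), (nat_lit 1), (14, 59, 48), [1372321, 3632351], 37⟩,
  ⟨⟨9, 16, 80, -10, 69, -10, 60, 12, -11⟩, (.cons (nat_lit 2069704) (nat_lit 672268) (nat_lit 290895) (nat_lit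
 1) (.cons (nat_lit 7016208) (nat_lit 2447189) (nat_lit 7473851) (nat_lit 1) .nil)), (nat_lit 39), (nat_lit
 40), (nat_lit 8), (nat_lit 1), (58, 46, 8), [1292813, 14008967], 42⟩,
  ⟨⟨75, -20, -32, 10, 21, -80, 12, -60, -25⟩, (.cons (nat_lit 2476098) (nat_lit 2405058) (nat_lit 1119267)
 (nat_lit 1) (.cons (nat_lit 21219829) (nat_lit 22655989) (nat_lit 5006122) (nat_lit 1) .nil)), (nat_lit 42),
 (nat_lit 13), (nat_lit 12), (nat_lit 1), (52, 59, 14), [301943, 14756622], 10⟩,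
  mz,
  ⟨⟨-11, -72, -25, 50, 11, -80, -44, -4, -29⟩, (.cons (nat_lit 1573436) (nat_lit 1178182) (nat_lit 2432034)
 (nat_lit 1) (.cons (nat_lit 4036949) (nat_lit 1612015) (nat_lit 21865543) (nat_lit 1) .nil)), (nat_lit 12),
 (nat_lit 5), (nat_lit 38), (nat_lit 1), (38, 8, 10), [1274305, 2190974], 39⟩,
  ⟨⟨-75, -20, 43, 10, -21, 70, -12, -60, -13⟩, (.cons (nat_lit 2227716) (nat_lit 934599) (nat_lit 2247104)
 (nat_lit 1) (.cons (nat_lit 11799607) (nat_lit 13948617) (nat_lit 23252280) (nat_lit 1) .nil)), (nat_lit 41),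
 (nat_lit 36), (nat_lit 10), (nat_lit 1), (2, 66, 6), [1382949, 24896405], 31⟩,
  mz,
  mz,
  mz,
  ⟨⟨11, 72, -36, -50, -11, -30, 44, 4, -73⟩, (.cons (nat_lit 526240) (nat_lit 1612889) (nat_lit 2023726)
 (nat_lit 1) (.cons (nat_lit 6435578) (nat_lit 6376974) (nat_lit 4168498) (nat_lit 1) .nil)), (nat_lit 17),
 (nat_lit 32), (nat_lit 12), (nat_lit 1), (4, 27, 16), [1085321, 25197485], 42⟩,
  mz,
  ⟨⟨-13, 72, 36, -70, -11, 30, -4, 44, -49⟩, (.cons (nat_lit 60430) (nat_lit 632780) (nat_lit 1) (nat_lit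
 1082164) (.cons (nat_lit 24830756) (nat_lit 7917185) (nat_lit 19155970) (nat_lit 1) .nil)), (nat_lit 17),
 (nat_lit 17), (nat_lit 15), (nat_lit 1), (35, 41, 49), [290528, 25084881], 42⟩,
  ⟨⟨75, -16, -52, 4, 55, -52, 10, -40, -59⟩, (.cons (nat_lit 2476098) (nat_lit 1567344) (nat_lit 987211)
 (nat_lit 1) (.cons (nat_lit 11266956) (nat_lit 24683539) (nat_lit 24803122) (nat_lit 1) .nil)), (nat_lit 42),
 (nat_lit 32), (nat_lit 38), (nat_lit 1), (51, 51, 21), [245104, 2618825], 20⟩,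
  mz,
  ⟨⟨33, 20, -92, 64, -15, -2, 6, -48, -49⟩, (.cons (nat_lit 1327591) (nat_lit 2256744) (nat_lit 1574424)
 (nat_lit 1) (.cons (nat_lit 2157815) (nat_lit 4824277) (nat_lit 22079549) (nat_lit 1) .nil)), (nat_lit 3),
 (nat_lit 3), (nat_lit 3), (nat_lit 1), (45, 55, 34), [2459454, 5465951], 4⟩,
  ⟨⟨13, 72, 23, 70, -11, -40, 4, 44, -53⟩, (.cons (nat_lit 533926) (nat_lit 1749370) (nat_lit 307536) (nat_lit
 1) (.cons (nat_lit 8221869) (nat_lit 18203907) (nat_lit 7691922) (nat_lit 1) .nil)), (nat_lit 26), (nat_lit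
 17), (nat_lit 28), (nat_lit 1), (20, 64, 28), [2074120, 13541919], 42⟩,
  ⟨⟨-3, -40, -73, 64, 25, -52, -26, 32, -41⟩, (.cons (nat_lit 936161) (nat_lit 771262) (nat_lit 1247959)
 (nat_lit 1) (.cons (nat_lit 12817273) (nat_lit 25242873) (nat_lit 2420973) (nat_lit 1) .nil)), (nat_lit 35),
 (nat_lit 5), (nat_lit 33), (nat_lit 1), (56, 36, 12), [1091312, 3638066], 28⟩,
  ⟨⟨37, -48, -73, 36, 55, -48, 54, -24, -1⟩, (.cons (nat_lit 1315902) (nat_lit 240610) (nat_lit 1089186)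
 (nat_lit 1) (.cons (nat_lit 16139595) (nat_lit 3496366) (nat_lit 19922976) (nat_lit 1) .nil)), (nat_lit 1),
 (nat_lit 31), (nat_lit 4), (nat_lit 1), (11, 51, 41), [701416, 17369640], 39⟩]

/-- Moves. -/
noncomputable def t4_1 : List Mv := [
  mz,
  ⟨⟨33, -32, -5, 2, 15, 44, 36, 12, -25⟩, (.cons (nat_lit 526463) (nat_lit 1474414) (nat_lit 544469) (nat_lit
 1) (.cons (nat_lit 21563) (nat_lit 19237585) (nat_lit 5498518) (nat_lit 1) .nil)), (nat_lit 21), (nat_lit 0),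
 (nat_lit 0), (nat_lit 0), (9, 24, 2), [2089991, 11833013], 0⟩,
  mz,
  mz,
  ⟨⟨19, 36, -36, -20, -13, -30, 34, -8, -35⟩, (.cons (nat_lit 1613522) (nat_lit 1704848) (nat_lit 1467192)
 (nat_lit 1) (.cons (nat_lit 4708067) (nat_lit 2594173) (nat_lit 16763644) (nat_lit 1) .nil)), (nat_lit 18),
 (nat_lit 0), (nat_lit 0), (nat_lit 0), (14, 26, 16), [1244338, 22678739], 0⟩,
  ⟨⟨33, -32, -28, 2, 15, -46, 36, 12, -11⟩, (.cons (nat_lit 1159467) (nat_lit 2067890) (nat_lit 2105327)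
 (nat_lit 1) (.cons (nat_lit 22648054) (nat_lit 3659379) (nat_lit 5334994) (nat_lit 1) .nil)), (nat_lit 21),
 (nat_lit 0), (nat_lit 0), (nat_lit 0), (19, 22, 9), [565846, 9727824], 0⟩,
  ⟨⟨-37, -24, 0, -20, 37, 0, 2, -8, -43⟩, (.cons (nat_lit 2476098) (nat_lit 544184) (nat_lit 2384885) (nat_lit
 1) (.cons (nat_lit 25411680) (nat_lit 6576347) (nat_lit 10189463) (nat_lit 1) .nil)), (nat_lit 6), (nat_lit
 0), (nat_lit 0), (nat_lit 0), (12, 3, 4), [2235125, 2814774], 0⟩,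
  ⟨⟨-3, -32, 40, 20, 27, 20, 30, -24, -13⟩, (.cons (nat_lit 2180655) (nat_lit 709754) (nat_lit 2130028)
 (nat_lit 1) (.cons (nat_lit 6491075) (nat_lit 3372766) (nat_lit 18801367) (nat_lit 1) .nil)), (nat_lit 30),
 (nat_lit 0), (nat_lit 0), (nat_lit 0), (1, 22, 33), [380600, 1591640], 0⟩,
  ⟨⟨-39, -16, -4, 20, -37, -20, -2, 8, -41⟩, (.cons (nat_lit 1771098) (nat_lit 1151142) (nat_lit 2029064)
 (nat_lit 1) (.cons (nat_lit 5969927) (nat_lit 7250436) (nat_lit 8024235) (nat_lit 1) .nil)), (nat_lit 37),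
 (nat_lit 0), (nat_lit 0), (nat_lit 0), (6, 30, 40), [2267674, 6322973], 0⟩,
  ⟨⟨-29, 0, -27, 0, -43, 0, 18, 0, -47⟩, (.cons (nat_lit 573688) (nat_lit 65391) (nat_lit 947871) (nat_lit 1)
 (.cons (nat_lit 13473937) (nat_lit 8273164) (nat_lit 9278952) (nat_lit 1) .nil)), (nat_lit 34), (nat_lit 0),
 (nat_lit 0), (nat_lit 0), (33, 0, 24), [270414, 18622012], 0⟩,
  ⟨⟨-9, -16, -44, 38, 15, -34, 12, -36, -13⟩, (.cons (nat_lit 1218525) (nat_lit 1893113) (nat_lit 1) (nat_lit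
 1815754) (.cons (nat_lit 12902510) (nat_lit 21775131) (nat_lit 23035972) (nat_lit 1) .nil)), (nat_lit 5),
 (nat_lit 0), (nat_lit 0), (nat_lit 0), (15, 37, 23), [411414, 1921865], 0⟩,
  mz,
  ⟨⟨-15, 44, 16, 20, 13, -50, -34, 8, -1⟩, (.cons (nat_lit 2131057) (nat_lit 1818909) (nat_lit 453307) (nat_lit
 1) (.cons (nat_lit 7096188) (nat_lit 23788884) (nat_lit 10562534) (nat_lit 1) .nil)), (nat_lit 25), (nat_lit
 0), (nat_lit 0), (nat_lit 0), (28, 20, 9), [1227270, 3844553], 0⟩,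
  ⟨⟨33, 8, 20, 20, 27, -40, 30, -24, -17⟩, (.cons (nat_lit 1578976) (nat_lit 1198125) (nat_lit 1) (nat_lit
 897123) (.cons (nat_lit 25411680) (nat_lit 5096220) (nat_lit 17130121) (nat_lit 1) .nil)), (nat_lit 13),
 (nat_lit 0), (nat_lit 0), (nat_lit 0), (4, 35, 31), [77236, 2589780], 0⟩,
  mz,
  mz,
  mz,
  ⟨⟨9, -4, -56, 40, -13, -10, 14, 32, -25⟩, (.cons (nat_lit 1919023) (nat_lit 455723) (nat_lit 335298) (nat_lit
 1) (.cons (nat_lit 5182134) (nat_lit 24870703) (nat_lit 12765368) (nat_lit 1) .nil)), (nat_lit 12), (nat_lit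
 0), (nat_lit 0), (nat_lit 0), (19, 8, 20), [1858380, 7274934], 0⟩,
  ⟨⟨-5, -36, 36, 40, -13, -30, -14, -32, -11⟩, (.cons (nat_lit 2429630) (nat_lit 2270306) (nat_lit 2035182)
 (nat_lit 1) (.cons (nat_lit 3282335) (nat_lit 1235525) (nat_lit 17440560) (nat_lit 1) .nil)), (nat_lit 4),
 (nat_lit 0), (nat_lit 0), (nat_lit 0), (11, 41, 5), [2230502, 7136812], 0⟩,
  mz,
  mz,
  ⟨⟨21, 20, 31, -38, 15, 34, 12, 36, -13⟩, (.cons (nat_lit 799641) (nat_lit 81773) (nat_lit 179838) (nat_lit 1)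
 (.cons (nat_lit 16079255) (nat_lit 15459658) (nat_lit 18785981) (nat_lit 1) .nil)), (nat_lit 1), (nat_lit 0),
 (nat_lit 0), (nat_lit 0), (12, 9, 13), [79188, 25039779], 0⟩,
  ⟨⟨9, 16, -53, -38, -15, 4, -12, 36, -1⟩, (.cons (nat_lit 2464285) (nat_lit 1671694) (nat_lit 2102350)
 (nat_lit 1) (.cons (nat_lit 7598041) (nat_lit 10628324) (nat_lit 11145462) (nat_lit 1) .nil)), (nat_lit 5),
 (nat_lit 0), (nat_lit 0), (nat_lit 0), (1, 34, 13), [150044, 12115490], 0⟩,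
  mz,
  mz,
  ⟨⟨9, 4, -56, 40, 13, -10, 14, -32, -25⟩, (.cons (nat_lit 2379873) (nat_lit 803520) (nat_lit 959398) (nat_lit
 1) (.cons (nat_lit 11780362) (nat_lit 4731257) (nat_lit 7263758) (nat_lit 1) .nil)), (nat_lit 12), (nat_lit
 0), (nat_lit 0), (nat_lit 0), (37, 2, 5), [600909, 2031241], 0⟩,
  ⟨⟨-5, 36, 36, -40, -13, 30, -14, 32, -11⟩, (.cons (nat_lit 55844) (nat_lit 465375) (nat_lit 919648) (nat_lit
 1) (.cons (nat_lit 21925666) (nat_lit 11835837) (nat_lit 5971243) (nat_lit 1) .nil)), (nat_lit 31), (nat_lit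
 0), (nat_lit 0), (nat_lit 0), (1, 8, 20), [1325939, 2768254], 0⟩,
  mz,
  mz,
  mz,
  ⟨⟨-3, 32, 40, -20, 27, -20, 30, 24, -13⟩, (.cons (nat_lit 1866595) (nat_lit 1121825) (nat_lit 2262828)
 (nat_lit 1) (.cons (nat_lit 8571710) (nat_lit 14601901) (nat_lit 24318871) (nat_lit 1) .nil)), (nat_lit 7),
 (nat_lit 0), (nat_lit 0), (nat_lit 0), (16, 35, 12), [621988, 833111], 0⟩,
  ⟨⟨19, -36, -36, 20, -13, 30, 34, 8, -35⟩, (.cons (nat_lit 857749) (nat_lit 1931113) (nat_lit 1038771)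
 (nat_lit 1) (.cons (nat_lit 8924127) (nat_lit 3534355) (nat_lit 11707053) (nat_lit 1) .nil)), (nat_lit 26),
 (nat_lit 0), (nat_lit 0), (nat_lit 0), (24, 23, 9), [2180240, 9337162], 0⟩,
  mz,
  ⟨⟨-21, -20, 52, 38, -15, -4, -12, -36, -1⟩, (.cons (nat_lit 2099796) (nat_lit 1345006) (nat_lit 412233)
 (nat_lit 1) (.cons (nat_lit 21808834) (nat_lit 10607341) (nat_lit 302316) (nat_lit 1) .nil)), (nat_lit 1),
 (nat_lit 0), (nat_lit 0), (nat_lit 0), (8, 6, 23), [1174744, 16381077], 0⟩,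
  ⟨⟨-47, 0, 27, 0, -43, 0, -18, 0, -29⟩, (.cons (nat_lit 1788651) (nat_lit 1810922) (nat_lit 1810368) (nat_lit
 1) (.cons (nat_lit 7623721) (nat_lit 6352376) (nat_lit 6938573) (nat_lit 1) .nil)), (nat_lit 9), (nat_lit 0),
 (nat_lit 0), (nat_lit 0), (34, 0, 24), [138996, 20542925], 0⟩,
  ⟨⟨-37, 24, 0, -20, -37, 0, 2, 8, -43⟩, (.cons (nat_lit 1316029) (nat_lit 562949) (nat_lit 1831859) (nat_lit
 1) (.cons (nat_lit 14930766) (nat_lit 17404110) (nat_lit 11187802) (nat_lit 1) .nil)), (nat_lit 6), (nat_lit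
 0), (nat_lit 0), (nat_lit 0), (34, 30, 40), [978239, 3848339], 0⟩,
  ⟨⟨33, -8, 20, -20, 27, 40, 30, 24, -17⟩, (.cons (nat_lit 2476098) (nat_lit 1026406) (nat_lit 1793016)
 (nat_lit 1) (.cons (nat_lit 25411680) (nat_lit 5450562) (nat_lit 2792384) (nat_lit 1) .nil)), (nat_lit 36),
 (nat_lit 0), (nat_lit 0), (nat_lit 0), (11, 22, 10), [587052, 23182025], 0⟩,
  ⟨⟨37, -24, -37, -20, -37, 20, -2, -8, -41⟩, (.cons (nat_lit 2165621) (nat_lit 806405) (nat_lit 1) (nat_lit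
 2134042) (.cons (nat_lit 4094445) (nat_lit 619203) (nat_lit 11259305) (nat_lit 1) .nil)), (nat_lit 35),
 (nat_lit 0), (nat_lit 0), (nat_lit 0), (12, 40, 4), [862641, 11259524], 0⟩,
  ⟨⟨3, -44, -20, -2, 15, -44, 36, -12, -25⟩, (.cons (nat_lit 2040004) (nat_lit 1110342) (nat_lit 1989364)
 (nat_lit 1) (.cons (nat_lit 8507000) (nat_lit 13266707) (nat_lit 17086409) (nat_lit 1) .nil)), (nat_lit 33),
 (nat_lit 0), (nat_lit 0), (nat_lit 0), (10, 22, 34), [1923452, 6764031], 0⟩,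
  ⟨⟨-15, -44, 16, -20, 13, 50, -34, -8, -1⟩, (.cons (nat_lit 2401186) (nat_lit 449647) (nat_lit 2199295)
 (nat_lit 1) (.cons (nat_lit 10488576) (nat_lit 25238905) (nat_lit 12215513) (nat_lit 1) .nil)), (nat_lit 17),
 (nat_lit 0), (nat_lit 0), (nat_lit 0), (2, 17, 16), [767770, 10866883], 0⟩,
  mz,
  mz,
  ⟨⟨33, 32, -28, 2, -15, -46, 36, -12, -11⟩, (.cons (nat_lit 1079759) (nat_lit 600939) (nat_lit 378487)
 (nat_lit 1) (.cons (nat_lit 3952367) (nat_lit 6357648) (nat_lit 6328992) (nat_lit 1) .nil)), (nat_lit 21),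
 (nat_lit 0), (nat_lit 0), (nat_lit 0), (34, 19, 41), [513604, 5050498], 0⟩]

/-- Moves. -/
noncomputable def t4_2 : List Mv := [
  mz,
  ⟨⟨3, 44, -20, 2, 15, 44, 36, 12, -25⟩, (.cons (nat_lit 438169) (nat_lit 599453) (nat_lit 1) (nat_lit 2379541)
 (.cons (nat_lit 772018) (nat_lit 245160) (nat_lit 14581798) (nat_lit 1) .nil)), (nat_lit 22), (nat_lit 0),
 (nat_lit 0), (nat_lit 0), (36, 24, 2), [524290, 21439623], 0⟩,
  mz,
  mz,
  ⟨⟨19, 36, -36, -20, -13, -30, 34, -8, -35⟩, (.cons (nat_lit 1613522) (nat_lit 1704848) (nat_lit 1467192)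
 (nat_lit 1) (.cons (nat_lit 4708067) (nat_lit 2594173) (nat_lit 16763644) (nat_lit 1) .nil)), (nat_lit 18),
 (nat_lit 0), (nat_lit 0), (nat_lit 0), (14, 26, 16), [1244338, 22678739], 0⟩,
  ⟨⟨3, 44, 17, 2, 15, -46, 36, 12, -11⟩, (.cons (nat_lit 1364642) (nat_lit 830538) (nat_lit 1758640) (nat_lit
 1) (.cons (nat_lit 1879083) (nat_lit 19972947) (nat_lit 17429933) (nat_lit 1) .nil)), (nat_lit 22), (nat_lit
 0), (nat_lit 0), (nat_lit 0), (33, 22, 9), [933749, 11123759], 0⟩,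
  ⟨⟨-37, -24, 0, -20, 37, 0, 2, -8, -43⟩, (.cons (nat_lit 2476098) (nat_lit 544184) (nat_lit 2384885) (nat_lit
 1) (.cons (nat_lit 25411680) (nat_lit 6576347) (nat_lit 10189463) (nat_lit 1) .nil)), (nat_lit 6), (nat_lit
 0), (nat_lit 0), (nat_lit 0), (12, 3, 4), [2235125, 2814774], 0⟩,
  ⟨⟨33, 8, -53, -20, -27, -20, 30, -24, -13⟩, (.cons (nat_lit 1328011) (nat_lit 1928571) (nat_lit 200286)
 (nat_lit 1) (.cons (nat_lit 7219784) (nat_lit 8077876) (nat_lit 6727224) (nat_lit 1) .nil)), (nat_lit 36),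
 (nat_lit 0), (nat_lit 0), (nat_lit 0), (32, 21, 33), [1053763, 18332341], 0⟩,
  ⟨⟨-39, -16, -4, -20, 37, 20, -2, 8, -41⟩, (.cons (nat_lit 2476098) (nat_lit 332136) (nat_lit 2169418)
 (nat_lit 1) (.cons (nat_lit 25411680) (nat_lit 6755438) (nat_lit 5599005) (nat_lit 1) .nil)), (nat_lit 8),
 (nat_lit 0), (nat_lit 0), (nat_lit 0), (6, 13, 40), [2381444, 304214], 0⟩,
  ⟨⟨-29, 0, -27, 0, -43, 0, 18, 0, -47⟩, (.cons (nat_lit 573688) (nat_lit 65391) (nat_lit 947871) (nat_lit 1)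
 (.cons (nat_lit 13473937) (nat_lit 8273164) (nat_lit 9278952) (nat_lit 1) .nil)), (nat_lit 34), (nat_lit 0),
 (nat_lit 0), (nat_lit 0), (33, 0, 24), [270414, 18622012], 0⟩,
  ⟨⟨21, -20, 31, 38, 15, -34, 12, -36, -13⟩, (.cons (nat_lit 222980) (nat_lit 882583) (nat_lit 733520) (nat_lit
 1) (.cons (nat_lit 2431791) (nat_lit 10134436) (nat_lit 21527605) (nat_lit 1) .nil)), (nat_lit 38), (nat_lit
 0), (nat_lit 0), (nat_lit 0), (8, 37, 23), [1072667, 21551686], 0⟩,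
  mz,
  ⟨⟨-15, 44, 16, -20, -13, 50, -34, 8, -1⟩, (.cons (nat_lit 528395) (nat_lit 1349264) (nat_lit 48938) (nat_lit
 1) (.cons (nat_lit 751469) (nat_lit 17535725) (nat_lit 4193503) (nat_lit 1) .nil)), (nat_lit 17), (nat_lit 0),
 (nat_lit 0), (nat_lit 0), (28, 23, 9), [1044465, 8024170], 0⟩,
  ⟨⟨33, 8, 20, 20, 27, -40, 30, -24, -17⟩, (.cons (nat_lit 1578976) (nat_lit 1198125) (nat_lit 1) (nat_lit
 897123) (.cons (nat_lit 25411680) (nat_lit 5096220) (nat_lit 17130121) (nat_lit 1) .nil)), (nat_lit 13),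
 (nat_lit 0), (nat_lit 0), (nat_lit 0), (4, 35, 31), [77236, 2589780], 0⟩,
  mz,
  mz,
  mz,
  ⟨⟨9, -4, -56, -40, 13, 10, 14, 32, -25⟩, (.cons (nat_lit 1954060) (nat_lit 1561132) (nat_lit 178185) (nat_lit
 1) (.cons (nat_lit 24993252) (nat_lit 1743541) (nat_lit 19372737) (nat_lit 1) .nil)), (nat_lit 39), (nat_lit
 0), (nat_lit 0), (nat_lit 0), (19, 35, 20), [332741, 17301247], 0⟩,
  ⟨⟨-5, -36, 36, 40, -13, -30, -14, -32, -11⟩, (.cons (nat_lit 2429630) (nat_lit 2270306) (nat_lit 2035182)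
 (nat_lit 1) (.cons (nat_lit 3282335) (nat_lit 1235525) (nat_lit 17440560) (nat_lit 1) .nil)), (nat_lit 4),
 (nat_lit 0), (nat_lit 0), (nat_lit 0), (11, 41, 5), [2230502, 7136812], 0⟩,
  mz,
  mz,
  ⟨⟨21, 20, 31, 38, -15, -34, 12, 36, -13⟩, (.cons (nat_lit 1976734) (nat_lit 783359) (nat_lit 2417207)
 (nat_lit 1) (.cons (nat_lit 7454918) (nat_lit 15862803) (nat_lit 12483501) (nat_lit 1) .nil)), (nat_lit 38),
 (nat_lit 0), (nat_lit 0), (nat_lit 0), (12, 34, 13), [629457, 15631179], 0⟩,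
  ⟨⟨-21, 20, 52, 38, 15, -4, -12, 36, -1⟩, (.cons (nat_lit 2032449) (nat_lit 944769) (nat_lit 349826) (nat_lit
 1) (.cons (nat_lit 20382820) (nat_lit 2447364) (nat_lit 8114084) (nat_lit 1) .nil)), (nat_lit 1), (nat_lit 0),
 (nat_lit 0), (nat_lit 0), (12, 9, 13), [2439445, 13049877], 0⟩,
  mz,
  mz,
  ⟨⟨5, -36, 31, -40, -13, 10, 14, -32, -25⟩, (.cons (nat_lit 704523) (nat_lit 1478661) (nat_lit 1447818)
 (nat_lit 1) (.cons (nat_lit 1419538) (nat_lit 8773105) (nat_lit 20066277) (nat_lit 1) .nil)), (nat_lit 4),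
 (nat_lit 0), (nat_lit 0), (nat_lit 0), (11, 41, 5), [1295042, 12787574], 0⟩,
  ⟨⟨-5, 36, 36, 40, 13, -30, -14, 32, -11⟩, (.cons (nat_lit 50424) (nat_lit 46433) (nat_lit 748687) (nat_lit 1)
 (.cons (nat_lit 15784) (nat_lit 4638668) (nat_lit 13443294) (nat_lit 1) .nil)), (nat_lit 4), (nat_lit 0),
 (nat_lit 0), (nat_lit 0), (1, 35, 20), [254071, 15746638], 0⟩,
  mz,
  mz,
  mz,
  ⟨⟨33, -8, -53, -20, 27, -20, 30, 24, -13⟩, (.cons (nat_lit 2373381) (nat_lit 2264777) (nat_lit 2336690)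
 (nat_lit 1) (.cons (nat_lit 8361218) (nat_lit 10056386) (nat_lit 3890770) (nat_lit 1) .nil)), (nat_lit 36),
 (nat_lit 0), (nat_lit 0), (nat_lit 0), (39, 35, 12), [2002403, 7170938], 0⟩,
  ⟨⟨19, -36, -36, -20, 13, -30, 34, 8, -35⟩, (.cons (nat_lit 431381) (nat_lit 1137057) (nat_lit 2119512)
 (nat_lit 1) (.cons (nat_lit 20344172) (nat_lit 969875) (nat_lit 2941929) (nat_lit 1) .nil)), (nat_lit 18),
 (nat_lit 0), (nat_lit 0), (nat_lit 0), (24, 20, 9), [47152, 7992792], 0⟩,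
  mz,
  ⟨⟨-21, -20, 52, 38, -15, -4, -12, -36, -1⟩, (.cons (nat_lit 2099796) (nat_lit 1345006) (nat_lit 412233)
 (nat_lit 1) (.cons (nat_lit 21808834) (nat_lit 10607341) (nat_lit 302316) (nat_lit 1) .nil)), (nat_lit 1),
 (nat_lit 0), (nat_lit 0), (nat_lit 0), (8, 6, 23), [1174744, 16381077], 0⟩,
  ⟨⟨-47, 0, 27, 0, -43, 0, -18, 0, -29⟩, (.cons (nat_lit 1788651) (nat_lit 1810922) (nat_lit 1810368) (nat_lit
 1) (.cons (nat_lit 7623721) (nat_lit 6352376) (nat_lit 6938573) (nat_lit 1) .nil)), (nat_lit 9), (nat_lit 0),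
 (nat_lit 0), (nat_lit 0), (34, 0, 24), [138996, 20542925], 0⟩,
  ⟨⟨-37, 24, 0, -20, -37, 0, 2, 8, -43⟩, (.cons (nat_lit 1316029) (nat_lit 562949) (nat_lit 1831859) (nat_lit
 1) (.cons (nat_lit 14930766) (nat_lit 17404110) (nat_lit 11187802) (nat_lit 1) .nil)), (nat_lit 6), (nat_lit
 0), (nat_lit 0), (nat_lit 0), (34, 30, 40), [978239, 3848339], 0⟩,
  ⟨⟨33, -8, 20, 20, -27, -40, 30, 24, -17⟩, (.cons (nat_lit 974383) (nat_lit 1000942) (nat_lit 1475791)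
 (nat_lit 1) (.cons (nat_lit 3151377) (nat_lit 10670503) (nat_lit 1788196) (nat_lit 1) .nil)), (nat_lit 13),
 (nat_lit 0), (nat_lit 0), (nat_lit 0), (11, 21, 10), [1606572, 20259391], 0⟩,
  ⟨⟨-39, 16, -4, 20, 37, -20, -2, -8, -41⟩, (.cons (nat_lit 2476098) (nat_lit 1832417) (nat_lit 1762755)
 (nat_lit 1) (.cons (nat_lit 25411680) (nat_lit 18582024) (nat_lit 10167373) (nat_lit 1) .nil)), (nat_lit 37),
 (nat_lit 0), (nat_lit 0), (nat_lit 0), (35, 3, 4), [510012, 10983470], 0⟩,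
  ⟨⟨3, -44, -20, -2, 15, -44, 36, -12, -25⟩, (.cons (nat_lit 2040004) (nat_lit 1110342) (nat_lit 1989364)
 (nat_lit 1) (.cons (nat_lit 8507000) (nat_lit 13266707) (nat_lit 17086409) (nat_lit 1) .nil)), (nat_lit 33),
 (nat_lit 0), (nat_lit 0), (nat_lit 0), (10, 22, 34), [1923452, 6764031], 0⟩,
  ⟨⟨-15, -44, 16, 20, -13, -50, -34, -8, -1⟩, (.cons (nat_lit 2439660) (nat_lit 1147518) (nat_lit 1641992)
 (nat_lit 1) (.cons (nat_lit 5942430) (nat_lit 1127070) (nat_lit 17248682) (nat_lit 1) .nil)), (nat_lit 25),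
 (nat_lit 0), (nat_lit 0), (nat_lit 0), (2, 26, 16), [332619, 637473], 0⟩,
  mz,
  mz,
  ⟨⟨33, 32, -28, 2, -15, -46, 36, -12, -11⟩, (.cons (nat_lit 1079759) (nat_lit 600939) (nat_lit 378487)
 (nat_lit 1) (.cons (nat_lit 3952367) (nat_lit 6357648) (nat_lit 6328992) (nat_lit 1) .nil)), (nat_lit 21),
 (nat_lit 0), (nat_lit 0), (nat_lit 0), (34, 19, 41), [513604, 5050498], 0⟩]

/-- Moves. -/
noncomputable def t4_8 : List Mv := [
  mz,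
  ⟨⟨3, 44, -20, 2, 15, 44, 36, 12, -25⟩, (.cons (nat_lit 438169) (nat_lit 599453) (nat_lit 1) (nat_lit 2379541)
 (.cons (nat_lit 772018) (nat_lit 245160) (nat_lit 14581798) (nat_lit 1) .nil)), (nat_lit 22), (nat_lit 0),
 (nat_lit 0), (nat_lit 0), (36, 24, 2), [524290, 21439623], 0⟩,
  mz,
  mz,
  ⟨⟨15, -44, 1, -20, -13, -30, 34, -8, -35⟩, (.cons (nat_lit 958031) (nat_lit 398498) (nat_lit 1659264)
 (nat_lit 1) (.cons (nat_lit 8809678) (nat_lit 8855) (nat_lit 12549977) (nat_lit 1) .nil)), (nat_lit 25),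
 (nat_lit 0), (nat_lit 0), (nat_lit 0), (2, 26, 16), [1708704, 21437222], 0⟩,
  ⟨⟨33, -32, -28, -2, -15, 46, 36, 12, -11⟩, (.cons (nat_lit 2202138) (nat_lit 1813878) (nat_lit 1050007)
 (nat_lit 1) (.cons (nat_lit 24226760) (nat_lit 8872939) (nat_lit 2302148) (nat_lit 1) .nil)), (nat_lit 10),
 (nat_lit 0), (nat_lit 0), (nat_lit 0), (19, 21, 9), [1705671, 3713578], 0⟩,
  ⟨⟨-37, -24, 0, -20, 37, 0, 2, -8, -43⟩, (.cons (nat_lit 2476098) (nat_lit 544184) (nat_lit 2384885) (nat_lit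
 1) (.cons (nat_lit 25411680) (nat_lit 6576347) (nat_lit 10189463) (nat_lit 1) .nil)), (nat_lit 6), (nat_lit
 0), (nat_lit 0), (nat_lit 0), (12, 3, 4), [2235125, 2814774], 0⟩,
  ⟨⟨33, 8, -53, -20, -27, -20, 30, -24, -13⟩, (.cons (nat_lit 1328011) (nat_lit 1928571) (nat_lit 200286)
 (nat_lit 1) (.cons (nat_lit 7219784) (nat_lit 8077876) (nat_lit 6727224) (nat_lit 1) .nil)), (nat_lit 36),
 (nat_lit 0), (nat_lit 0), (nat_lit 0), (32, 21, 33), [1053763, 18332341], 0⟩,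
  ⟨⟨-39, -16, -4, -20, 37, 20, -2, 8, -41⟩, (.cons (nat_lit 2476098) (nat_lit 332136) (nat_lit 2169418)
 (nat_lit 1) (.cons (nat_lit 25411680) (nat_lit 6755438) (nat_lit 5599005) (nat_lit 1) .nil)), (nat_lit 8),
 (nat_lit 0), (nat_lit 0), (nat_lit 0), (6, 13, 40), [2381444, 304214], 0⟩,
  ⟨⟨47, 0, -20, 0, -43, 0, 18, 0, -47⟩, (.cons (nat_lit 2476098) (nat_lit 434604) (nat_lit 1761387) (nat_lit 1)
 (.cons (nat_lit 25411680) (nat_lit 6949116) (nat_lit 20447015) (nat_lit 1) .nil)), (nat_lit 9), (nat_lit 0),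
 (nat_lit 0), (nat_lit 0), (34, 0, 24), [1568498, 2447473], 0⟩,
  ⟨⟨21, -20, 31, 38, 15, -34, 12, -36, -13⟩, (.cons (nat_lit 222980) (nat_lit 882583) (nat_lit 733520) (nat_lit
 1) (.cons (nat_lit 2431791) (nat_lit 10134436) (nat_lit 21527605) (nat_lit 1) .nil)), (nat_lit 38), (nat_lit
 0), (nat_lit 0), (nat_lit 0), (8, 37, 23), [1072667, 21551686], 0⟩,
  mz,
  ⟨⟨-15, 44, 16, 20, 13, -50, -34, 8, -1⟩, (.cons (nat_lit 2131057) (nat_lit 1818909) (nat_lit 453307) (nat_lit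
 1) (.cons (nat_lit 7096188) (nat_lit 23788884) (nat_lit 10562534) (nat_lit 1) .nil)), (nat_lit 25), (nat_lit
 0), (nat_lit 0), (nat_lit 0), (28, 20, 9), [1227270, 3844553], 0⟩,
  ⟨⟨33, 8, 20, -20, -27, 40, 30, -24, -17⟩, (.cons (nat_lit 978991) (nat_lit 493629) (nat_lit 326926) (nat_lit
 1) (.cons (nat_lit 14446534) (nat_lit 21250297) (nat_lit 1063445) (nat_lit 1) .nil)), (nat_lit 36), (nat_lit
 0), (nat_lit 0), (nat_lit 0), (4, 8, 31), [44076, 16892678], 0⟩,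
  mz,
  mz,
  mz,
  ⟨⟨9, -4, -56, 40, -13, -10, 14, 32, -25⟩, (.cons (nat_lit 1919023) (nat_lit 455723) (nat_lit 335298) (nat_lit
 1) (.cons (nat_lit 5182134) (nat_lit 24870703) (nat_lit 12765368) (nat_lit 1) .nil)), (nat_lit 12), (nat_lit
 0), (nat_lit 0), (nat_lit 0), (19, 8, 20), [1858380, 7274934], 0⟩,
  ⟨⟨-5, -36, 36, -40, 13, 30, -14, -32, -11⟩, (.cons (nat_lit 1814979) (nat_lit 2324034) (nat_lit 112251)
 (nat_lit 1) (.cons (nat_lit 12823411) (nat_lit 6229800) (nat_lit 7032437) (nat_lit 1) .nil)), (nat_lit 31),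
 (nat_lit 0), (nat_lit 0), (nat_lit 0), (11, 2, 5), [12102, 13019319], 0⟩,
  mz,
  mz,
  ⟨⟨-9, 16, -44, 38, -15, -34, 12, 36, -13⟩, (.cons (nat_lit 1626255) (nat_lit 2357098) (nat_lit 94776)
 (nat_lit 1) (.cons (nat_lit 15812447) (nat_lit 7965680) (nat_lit 15468) (nat_lit 1) .nil)), (nat_lit 5),
 (nat_lit 0), (nat_lit 0), (nat_lit 0), (1, 34, 13), [236777, 13517753], 0⟩,
  ⟨⟨-21, 20, 52, 38, 15, -4, -12, 36, -1⟩, (.cons (nat_lit 2032449) (nat_lit 944769) (nat_lit 349826) (nat_lit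
 1) (.cons (nat_lit 20382820) (nat_lit 2447364) (nat_lit 8114084) (nat_lit 1) .nil)), (nat_lit 1), (nat_lit 0),
 (nat_lit 0), (nat_lit 0), (12, 9, 13), [2439445, 13049877], 0⟩,
  mz,
  mz,
  ⟨⟨9, 4, -56, 40, 13, -10, 14, -32, -25⟩, (.cons (nat_lit 2379873) (nat_lit 803520) (nat_lit 959398) (nat_lit
 1) (.cons (nat_lit 11780362) (nat_lit 4731257) (nat_lit 7263758) (nat_lit 1) .nil)), (nat_lit 12), (nat_lit
 0), (nat_lit 0), (nat_lit 0), (37, 2, 5), [600909, 2031241], 0⟩,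
  ⟨⟨-5, 36, 36, 40, 13, -30, -14, 32, -11⟩, (.cons (nat_lit 50424) (nat_lit 46433) (nat_lit 748687) (nat_lit 1)
 (.cons (nat_lit 15784) (nat_lit 4638668) (nat_lit 13443294) (nat_lit 1) .nil)), (nat_lit 4), (nat_lit 0),
 (nat_lit 0), (nat_lit 0), (1, 35, 20), [254071, 15746638], 0⟩,
  mz,
  mz,
  mz,
  ⟨⟨33, -8, -53, -20, 27, -20, 30, 24, -13⟩, (.cons (nat_lit 2373381) (nat_lit 2264777) (nat_lit 2336690)
 (nat_lit 1) (.cons (nat_lit 8361218) (nat_lit 10056386) (nat_lit 3890770) (nat_lit 1) .nil)), (nat_lit 36),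
 (nat_lit 0), (nat_lit 0), (nat_lit 0), (39, 35, 12), [2002403, 7170938], 0⟩,
  ⟨⟨19, -36, -36, -20, 13, -30, 34, 8, -35⟩, (.cons (nat_lit 431381) (nat_lit 1137057) (nat_lit 2119512)
 (nat_lit 1) (.cons (nat_lit 20344172) (nat_lit 969875) (nat_lit 2941929) (nat_lit 1) .nil)), (nat_lit 18),
 (nat_lit 0), (nat_lit 0), (nat_lit 0), (24, 20, 9), [47152, 7992792], 0⟩,
  mz,
  ⟨⟨-21, -20, 52, -38, 15, 4, -12, -36, -1⟩, (.cons (nat_lit 6240) (nat_lit 2067021) (nat_lit 1529026) (nat_lit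
 1) (.cons (nat_lit 13897053) (nat_lit 19084141) (nat_lit 5445240) (nat_lit 1) .nil)), (nat_lit 38), (nat_lit
 0), (nat_lit 0), (nat_lit 0), (8, 37, 23), [1000715, 20418622], 0⟩,
  ⟨⟨29, 0, -56, 0, 43, 0, -18, 0, -29⟩, (.cons (nat_lit 2476098) (nat_lit 991893) (nat_lit 1237177) (nat_lit 1)
 (.cons (nat_lit 25411680) (nat_lit 22720660) (nat_lit 12563466) (nat_lit 1) .nil)), (nat_lit 34), (nat_lit 0),
 (nat_lit 0), (nat_lit 0), (33, 0, 24), [1184336, 24056085], 0⟩,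
  ⟨⟨39, -16, -43, -20, -37, 0, 2, 8, -43⟩, (.cons (nat_lit 1348506) (nat_lit 1271739) (nat_lit 2350451)
 (nat_lit 1) (.cons (nat_lit 5459591) (nat_lit 22444181) (nat_lit 11858279) (nat_lit 1) .nil)), (nat_lit 37),
 (nat_lit 0), (nat_lit 0), (nat_lit 0), (6, 30, 40), [308620, 10563889], 0⟩,
  ⟨⟨-3, 32, -37, 20, -27, -40, 30, 24, -17⟩, (.cons (nat_lit 1439815) (nat_lit 1540310) (nat_lit 679999)
 (nat_lit 1) (.cons (nat_lit 3924697) (nat_lit 11438513) (nat_lit 14471339) (nat_lit 1) .nil)), (nat_lit 30),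
 (nat_lit 0), (nat_lit 0), (nat_lit 0), (42, 21, 10), [1476836, 16613923], 0⟩,
  ⟨⟨-39, 16, -4, 20, 37, -20, -2, -8, -41⟩, (.cons (nat_lit 2476098) (nat_lit 1832417) (nat_lit 1762755)
 (nat_lit 1) (.cons (nat_lit 25411680) (nat_lit 18582024) (nat_lit 10167373) (nat_lit 1) .nil)), (nat_lit 37),
 (nat_lit 0), (nat_lit 0), (nat_lit 0), (35, 3, 4), [510012, 10983470], 0⟩,
  ⟨⟨3, -44, -20, -2, 15, -44, 36, -12, -25⟩, (.cons (nat_lit 2040004) (nat_lit 1110342) (nat_lit 1989364)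
 (nat_lit 1) (.cons (nat_lit 8507000) (nat_lit 13266707) (nat_lit 17086409) (nat_lit 1) .nil)), (nat_lit 33),
 (nat_lit 0), (nat_lit 0), (nat_lit 0), (10, 22, 34), [1923452, 6764031], 0⟩,
  ⟨⟨-15, -44, 16, 20, -13, -50, -34, -8, -1⟩, (.cons (nat_lit 2439660) (nat_lit 1147518) (nat_lit 1641992)
 (nat_lit 1) (.cons (nat_lit 5942430) (nat_lit 1127070) (nat_lit 17248682) (nat_lit 1) .nil)), (nat_lit 25),
 (nat_lit 0), (nat_lit 0), (nat_lit 0), (2, 26, 16), [332619, 637473], 0⟩,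
  mz,
  mz,
  ⟨⟨33, 32, -28, 2, -15, -46, 36, -12, -11⟩, (.cons (nat_lit 1079759) (nat_lit 600939) (nat_lit 378487)
 (nat_lit 1) (.cons (nat_lit 3952367) (nat_lit 6357648) (nat_lit 6328992) (nat_lit 1) .nil)), (nat_lit 21),
 (nat_lit 0), (nat_lit 0), (nat_lit 0), (34, 19, 41), [513604, 5050498], 0⟩]

/-- All the moves. -/
noncomputable def tabs : List (List (List Mv)) := [[[], t0_1, t0_2, [], [], [], [], [], t0_8], [[], t1_1, t1_2, [], [], [], [], [], t1_8], [], [], [[], t4_1, t4_2, [], [], [], [], [], t4_8]]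

/-- Subtrie. -/
noncomputable def T1 : Tr := (.ev (nat_lit 20) (nat_lit 4733087789904) (.nd (nat_lit 33) (.br (nat_lit 39) (.br
 (nat_lit 19) (.br (nat_lit 8) (.br (nat_lit 4) (.br (nat_lit 3) (.ch (nat_lit 1) (.ev (nat_lit 52) (nat_lit
 551972635776) (.ev (nat_lit 468) (nat_lit 1073741824) (.ev (nat_lit 1024) (nat_lit 206162624546) .dd)))) (.ch
 (nat_lit 3) (.ev (nat_lit 52) (nat_lit 68790912130) (.ev (nat_lit 948) (nat_lit 2147483648) (.ev (nat_lit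
 1076) (nat_lit 2097152) (.ev (nat_lit 1412) (nat_lit 137438953472) (.ev (nat_lit 2852) (nat_lit 32) (.ev
 (nat_lit 2996) (nat_lit 549755813888) (.ev (nat_lit 3005) (nat_lit 1073741824) .dd))))))))) (.br (nat_lit 5)
 (.ch (nat_lit 4) (.ev (nat_lit 52) (nat_lit 137438954658) (.ev (nat_lit 1044) (nat_lit 68719476736) (.ev
 (nat_lit 1172) (nat_lit 4194304) (.ev (nat_lit 1604) (nat_lit 2147483648) (.ev (nat_lit 1924) (nat_lit 131072)
 (.ev (nat_lit 2628) (nat_lit 67108864) (.ev (nat_lit 2964) (nat_lit 1073741824) (.ev (nat_lit 3232) (nat_lit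
 2097152) (.ev (nat_lit 3245) (nat_lit 549755813888) .dd)))))))))) (.br (nat_lit 7) (.ch (nat_lit 5) (.ev
 (nat_lit 52) (nat_lit 3227516930) (.ev (nat_lit 416) (nat_lit 755981485216) .dd))) (.ch (nat_lit 7) (.ev
 (nat_lit 52) (nat_lit 67109026) (.ev (nat_lit 180) (nat_lit 68719476736) (.ev (nat_lit 244) (nat_lit 131072)
 (.ev (nat_lit 596) (nat_lit 2147483648) (.ev (nat_lit 800) (nat_lit 688274801664) .dd))))))))) (.br (nat_lit
 15) (.br (nat_lit 11) (.ch (nat_lit 8) (.ev (nat_lit 52) (nat_lit 3227518112) (.ev (nat_lit 404) (nat_lit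
 137438953472) (.ev (nat_lit 1012) (nat_lit 68719476736) (.ev (nat_lit 1584) (nat_lit 549823053826) .dd)))))
 (.br (nat_lit 12) (.ch (nat_lit 11) (.ev (nat_lit 52) (nat_lit 755914245152) (.ev (nat_lit 84) (nat_lit
 1073741824) (.ev (nat_lit 308) (nat_lit 67108864) (.ev (nat_lit 2660) (nat_lit 4194304) (.ev (nat_lit 2948)
 (nat_lit 131072) (.ev (nat_lit 3108) (nat_lit 2097152) (.ev (nat_lit 3204) (nat_lit 2147483648) (.nd (nat_lit
 3328) (.ch (nat_lit 9) (.fin (nat_lit 576470098154832458)))))))))))) (.ch (nat_lit 12) (.ev (nat_lit 52)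
 (nat_lit 550833881090) (.ev (nat_lit 448) (nat_lit 208375121056) .dd))))) (.br (nat_lit 16) (.ch (nat_lit 15)
 (.ev (nat_lit 52) (nat_lit 549825020930) (.ev (nat_lit 500) (nat_lit 137438953472) (.ev (nat_lit 628) (nat_lit
 4194304) (.ev (nat_lit 820) (nat_lit 128) (.ev (nat_lit 884) (nat_lit 32) (.ev (nat_lit 1636) (nat_lit 131072)
 (.ev (nat_lit 2496) (nat_lit 69793218560) (.ev (nat_lit 2509) (nat_lit 2147483648) .dd))))))))) (.br (nat_lit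
 18) (.ch (nat_lit 16) (.ev (nat_lit 52) (nat_lit 140729386018) (.ev (nat_lit 596) (nat_lit 68719476736) (.ev
 (nat_lit 916) (nat_lit 128) (.ev (nat_lit 1492) (nat_lit 131072) (.ev (nat_lit 2000) (nat_lit 549760008192)
 .dd)))))) (.ch (nat_lit 18) (.ev (nat_lit 52) (nat_lit 137508159650) (.ev (nat_lit 148) (nat_lit 131072) (.ev
 (nat_lit 276) (nat_lit 4194304) (.ev (nat_lit 468) (nat_lit 70866960384) (.ev (nat_lit 980) (nat_lit
 549755813888) (.ev (nat_lit 3204) (nat_lit 1073741824) (.ev (nat_lit 3213) (nat_lit 1024) .dd)))))))))))) (.br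
 (nat_lit 29) (.br (nat_lit 23) (.br (nat_lit 22) (.ch (nat_lit 19) (.ev (nat_lit 52) (nat_lit 2220884992) (.ev
 (nat_lit 788) (nat_lit 68719476736) (.ev (nat_lit 1012) (nat_lit 2) (.ev (nat_lit 1236) (nat_lit 137438953472)
 (.ev (nat_lit 1412) (nat_lit 32) (.ev (nat_lit 1444) (nat_lit 131072) (.ev (nat_lit 1796) (nat_lit 1073741824)
 (.ev (nat_lit 2948) (nat_lit 549755813888) (.ev (nat_lit 2957) (nat_lit 128) .dd)))))))))) (.ch (nat_lit 22)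
 (.ev (nat_lit 52) (nat_lit 552981364738) (.ev (nat_lit 576) (nat_lit 206227637408) .dd)))) (.br (nat_lit 24)
 (.ch (nat_lit 23) (.ev (nat_lit 52) (nat_lit 758130934816) (.ev (nat_lit 436) (nat_lit 1073741824) (.ev
 (nat_lit 1076) (nat_lit 2) (.ev (nat_lit 1860) (nat_lit 4194304) (.ev (nat_lit 2516) (nat_lit 128) (.ev
 (nat_lit 2525) (nat_lit 131072) .dd))))))) (.br (nat_lit 26) (.ch (nat_lit 24) (.ev (nat_lit 52) (nat_lit
 690422415362) (.ev (nat_lit 180) (nat_lit 67108864) (.ev (nat_lit 372) (nat_lit 32) (.ev (nat_lit 1204)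
 (nat_lit 128) (.ev (nat_lit 2032) (nat_lit 68719477760) .dd)))))) (.ch (nat_lit 26) (.ev (nat_lit 52) (nat_lit
 3225550848) (.ev (nat_lit 64) (nat_lit 755983451298) .dd)))))) (.br (nat_lit 34) (.br (nat_lit 31) (.ch
 (nat_lit 29) (.ev (nat_lit 52) (nat_lit 688272704546) (.ev (nat_lit 308) (nat_lit 2097152) (.ev (nat_lit 756)
 (nat_lit 2147483648) (.ev (nat_lit 1572) (nat_lit 131072) (.ev (nat_lit 3184) (nat_lit 67108992) (.ev (nat_lit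
 3197) (nat_lit 68719476736) .dd))))))) (.br (nat_lit 33) (.ch (nat_lit 31) (.ev (nat_lit 52) (nat_lit
 1142947968) (.ev (nat_lit 276) (nat_lit 131072) (.ev (nat_lit 308) (nat_lit 68719476736) (.ev (nat_lit 372)
 (nat_lit 1024) (.ev (nat_lit 404) (nat_lit 32) (.ev (nat_lit 468) (nat_lit 2) (.ev (nat_lit 1172) (nat_lit
 549755813888) (.ev (nat_lit 1268) (nat_lit 4194304) (.ev (nat_lit 2784) (nat_lit 139586437120) .dd))))))))))
 (.ch (nat_lit 33) (.ev (nat_lit 52) (nat_lit 756992311330) (.ev (nat_lit 928) (nat_lit 2216690816) .dd)))))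
 (.br (nat_lit 36) (.ch (nat_lit 34) (.ev (nat_lit 52) (nat_lit 208377348098) (.ev (nat_lit 180) (nat_lit
 1073741824) (.ev (nat_lit 692) (nat_lit 1024) (.ev (nat_lit 1044) (nat_lit 2097152) (.ev (nat_lit 2432)
 (nat_lit 160) (.ev (nat_lit 2445) (nat_lit 549755813888) .dd))))))) (.br (nat_lit 38) (.ch (nat_lit 36) (.ev
 (nat_lit 52) (nat_lit 207305573536) (.ev (nat_lit 180) (nat_lit 2147483648) (.ev (nat_lit 1524) (nat_lit
 131072) (.ev (nat_lit 1972) (nat_lit 549755813888) (.ev (nat_lit 1981) (nat_lit 2) .dd)))))) (.ch (nat_lit 38)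
 (.ev (nat_lit 52) (nat_lit 758063957152) (.ev (nat_lit 596) (nat_lit 1073741826) (.ev (nat_lit 2672) (nat_lit
 67108864) (.ev (nat_lit 2685) (nat_lit 4194304) .dd)))))))))) (.br (nat_lit 54) (.br (nat_lit 47) (.br
 (nat_lit 43) (.br (nat_lit 42) (.ch (nat_lit 39) (.ev (nat_lit 52) (nat_lit 69799511042) (.ev (nat_lit 1108)
 (nat_lit 137438953472) (.ev (nat_lit 1204) (nat_lit 67108864) (.ev (nat_lit 1444) (nat_lit 549755813888) (.ev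
 (nat_lit 2228) (nat_lit 32) (.ev (nat_lit 2692) (nat_lit 2147483648) (.ev (nat_lit 3056) (nat_lit 131200)
 .dd)))))))) (.ch (nat_lit 42) (.ev (nat_lit 52) (nat_lit 1145046048) (.ev (nat_lit 288) (nat_lit 758063956098)
 .dd)))) (.br (nat_lit 44) (.ch (nat_lit 43) (.ev (nat_lit 52) (nat_lit 206225670144) (.ev (nat_lit 116)
 (nat_lit 549755813888) (.ev (nat_lit 788) (nat_lit 1073741824) (.ev (nat_lit 1364) (nat_lit 4194304) (.ev
 (nat_lit 1604) (nat_lit 2097152) (.ev (nat_lit 2292) (nat_lit 1024) (.ev (nat_lit 2596) (nat_lit 128) (.ev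
 (nat_lit 2916) (nat_lit 32) (.ev (nat_lit 3092) (nat_lit 2147483648) (.ev (nat_lit 3101) (nat_lit 2)
 .dd))))))))))) (.br (nat_lit 46) (.ch (nat_lit 44) (.ev (nat_lit 52) (nat_lit 687199093888) (.ev (nat_lit 308)
 (nat_lit 1073741824) (.ev (nat_lit 468) (nat_lit 67108864) (.ev (nat_lit 1056) (nat_lit 70869057570) .dd)))))
 (.ch (nat_lit 46) (.ev (nat_lit 52) (nat_lit 208375120928) (.ev (nat_lit 84) (nat_lit 2) (.ev (nat_lit 212)
 (nat_lit 131072) (.ev (nat_lit 948) (nat_lit 1073741824) (.ev (nat_lit 1776) (nat_lit 549760008320)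
 .dd))))))))) (.br (nat_lit 50) (.br (nat_lit 48) (.ch (nat_lit 47) (.ev (nat_lit 52) (nat_lit 689411458050)
 (.ev (nat_lit 212) (nat_lit 4194304) (.ev (nat_lit 436) (nat_lit 68719476736) (.ev (nat_lit 660) (nat_lit 32)
 (.ev (nat_lit 1332) (nat_lit 131072) (.nd (nat_lit 3328) (.ch (nat_lit 11) (.fin (nat_lit
 576462401572389439)))))))))) (.br (nat_lit 49) (.ch (nat_lit 48) (.ev (nat_lit 52) (nat_lit 551907492000) (.ev
 (nat_lit 84) (nat_lit 68721573888) (.ev (nat_lit 532) (nat_lit 131072) (.ev (nat_lit 724) (nat_lit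
 137438953472) (.ev (nat_lit 820) (nat_lit 2) (.ev (nat_lit 2628) (nat_lit 1073741824) (.ev (nat_lit 2804)
 (nat_lit 67108864) (.ev (nat_lit 2813) (nat_lit 1024) .dd))))))))) (.ch (nat_lit 49) (.ev (nat_lit 52)
 (nat_lit 209379787810) (.ev (nat_lit 180) (nat_lit 2097152) (.ev (nat_lit 244) (nat_lit 549755813888) (.ev
 (nat_lit 756) (nat_lit 128) (.ev (nat_lit 2144) (nat_lit 71303168) .dd)))))))) (.br (nat_lit 51) (.ch (nat_lit
 50) (.ev (nat_lit 52) (nat_lit 140662407202) (.ev (nat_lit 768) (nat_lit 618546594944) .dd))) (.br (nat_lit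
 53) (.ch (nat_lit 51) (.ev (nat_lit 52) (nat_lit 2151809184) (.ev (nat_lit 564) (nat_lit 549755813888) (.ev
 (nat_lit 1076) (nat_lit 68719476736) (.ev (nat_lit 2516) (nat_lit 67108864) (.ev (nat_lit 3252) (nat_lit 2)
 (.ev (nat_lit 3284) (nat_lit 137438953472) (.ev (nat_lit 3316) (nat_lit 1024) (.nd (nat_lit 3328) (.ch
 (nat_lit 7) (.fin (nat_lit 576465700116709958)))))))))))) (.ch (nat_lit 53) (.ev (nat_lit 52) (nat_lit
 1075840032) (.ev (nat_lit 160) (nat_lit 758133162114) .dd))))))) (.br (nat_lit 64) (.br (nat_lit 57) (.br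
 (nat_lit 55) (.ch (nat_lit 54) (.ev (nat_lit 52) (nat_lit 755916342272) (.ev (nat_lit 116) (nat_lit 4194304)
 (.ev (nat_lit 308) (nat_lit 2) (.ev (nat_lit 756) (nat_lit 67108864) (.ev (nat_lit 788) (nat_lit 2147483648)
 (.ev (nat_lit 1540) (nat_lit 131072) (.ev (nat_lit 2132) (nat_lit 32) (.nd (nat_lit 3328) (.ch (nat_lit 11)
 (.fin (nat_lit 576462401572389439)))))))))))) (.ch (nat_lit 55) (.ev (nat_lit 52) (nat_lit 551974600704) (.ev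
 (nat_lit 628) (nat_lit 131072) (.ev (nat_lit 724) (nat_lit 1024) (.ev (nat_lit 916) (nat_lit 2) (.ev (nat_lit
 1732) (nat_lit 32) (.ev (nat_lit 2260) (nat_lit 128) (.ev (nat_lit 2516) (nat_lit 68719476736) (.ev (nat_lit
 3316) (nat_lit 137438953472) (.nd (nat_lit 3328) (.br (nat_lit 12) (.ch (nat_lit 7) (.nd (nat_lit 3361) (.ch
 (nat_lit 16) (.nd (nat_lit 3376) (.ch (nat_lit 18) (.fin (nat_lit 576456904004813370))))))) (.br (nat_lit 15)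
 (.ch (nat_lit 12) (.ev (nat_lit 3344) (nat_lit 1075838976) .dd)) (.ch (nat_lit 15) (.ev (nat_lit 3344)
 (nat_lit 1075838976) .dd))))))))))))))) (.br (nat_lit 58) (.ch (nat_lit 57) (.ev (nat_lit 52) (nat_lit
 688335750274) (.ev (nat_lit 992) (nat_lit 70873251872) .dd))) (.br (nat_lit 62) (.ch (nat_lit 58) (.ev
 (nat_lit 52) (nat_lit 688270738464) (.ev (nat_lit 84) (nat_lit 2147483648) (.ev (nat_lit 1012) (nat_lit
 67108864) (.ev (nat_lit 2948) (nat_lit 4194304) (.ev (nat_lit 3204) (nat_lit 68719476736) (.nd (nat_lit 3328)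
 (.br (nat_lit 10) (.ch (nat_lit 9) (.nd (nat_lit 3361) (.ch (nat_lit 25) (.nd (nat_lit 3376) (.ch (nat_lit 14)
 (.fin (nat_lit 576452505966690870))))))) (.br (nat_lit 12) (.ch (nat_lit 10) (.ev (nat_lit 3344) (nat_lit 130)
 .dd)) (.ch (nat_lit 12) (.ev (nat_lit 3344) (nat_lit 130) .dd))))))))))) (.ch (nat_lit 62) (.ev (nat_lit 52)
 (nat_lit 208310239264) (.ev (nat_lit 948) (nat_lit 2) (.ev (nat_lit 1332) (nat_lit 549755813888) (.ev (nat_lit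
 1988) (nat_lit 2097152) (.ev (nat_lit 2756) (nat_lit 1024) (.ev (nat_lit 3012) (nat_lit 128) (.ev (nat_lit
 3076) (nat_lit 1073741824) (.ev (nat_lit 3085) (nat_lit 67108864) .dd)))))))))))) (.br (nat_lit 68) (.br
 (nat_lit 65) (.ch (nat_lit 64) (.ev (nat_lit 52) (nat_lit 206164852866) (.ev (nat_lit 736) (nat_lit
 553044149280) .dd))) (.br (nat_lit 67) (.ch (nat_lit 65) (.ev (nat_lit 52) (nat_lit 618544627874) (.ev
 (nat_lit 1184) (nat_lit 140664374272) .dd))) (.ch (nat_lit 67) (.ev (nat_lit 52) (nat_lit 137445244962) (.ev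
 (nat_lit 852) (nat_lit 1024) (.ev (nat_lit 1076) (nat_lit 67108864) (.ev (nat_lit 1268) (nat_lit 549755813888)
 (.ev (nat_lit 2052) (nat_lit 68719476736) (.ev (nat_lit 2340) (nat_lit 131072) (.ev (nat_lit 2452) (nat_lit
 1073741824) (.ev (nat_lit 2608) (nat_lit 2147483776) .dd))))))))))) (.br (nat_lit 69) (.ch (nat_lit 68) (.ev
 (nat_lit 52) (nat_lit 208379315362) (.ev (nat_lit 532) (nat_lit 549755813888) (.ev (nat_lit 2240) (nat_lit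
 1073872896) .dd)))) (.br (nat_lit 70) (.ch (nat_lit 69) (.ev (nat_lit 52) (nat_lit 618481714306) (.ev (nat_lit
 372) (nat_lit 137438953472) (.ev (nat_lit 948) (nat_lit 67108864) (.ev (nat_lit 2164) (nat_lit 2147483648)
 (.ev (nat_lit 2576) (nat_lit 1073741856) .dd)))))) (.ch (nat_lit 70) (.ev (nat_lit 52) (nat_lit 618546593954)
 (.ev (nat_lit 436) (nat_lit 2147483648) (.ev (nat_lit 896) (nat_lit 138514924544) .dd))))))))))))

/-- Subtrie. -/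
noncomputable def T2 : Tr := (.ev (nat_lit 20) (nat_lit 5145440290448) (.nd (nat_lit 33) (.br (nat_lit 39) (.br
 (nat_lit 19) (.br (nat_lit 8) (.br (nat_lit 4) (.br (nat_lit 3) (.ch (nat_lit 1) (.ev (nat_lit 52) (nat_lit
 2181173568) (.ev (nat_lit 692) (nat_lit 68719476736) (.ev (nat_lit 2372) (nat_lit 8192) (.ev (nat_lit 2692)
 (nat_lit 32) (.nd (nat_lit 3328) (.br (nat_lit 10) (.ch (nat_lit 0) (.ev (nat_lit 3344) (nat_lit 275951648768)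
 (.nd (nat_lit 3361) (.ch (nat_lit 46) (.nd (nat_lit 3376) (.br (nat_lit 18) (.ch (nat_lit 5) (.ev (nat_lit
 3392) (nat_lit 4194306) .dd)) (.ch (nat_lit 18) (.fin (nat_lit 576464600600887876))))))))) (.br (nat_lit 13)
 (.ch (nat_lit 10) (.ev (nat_lit 3344) (nat_lit 4194306) (.fin (nat_lit 576470098152735306)))) (.ch (nat_lit
 13) (.ev (nat_lit 3344) (nat_lit 275955843074) .dd)))))))))) (.ch (nat_lit 3) (.ev (nat_lit 52) (nat_lit
 343635263746) (.ev (nat_lit 180) (nat_lit 32) (.ev (nat_lit 660) (nat_lit 2147483648) (.ev (nat_lit 852)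
 (nat_lit 1073741824) (.ev (nat_lit 1604) (nat_lit 4096) (.ev (nat_lit 1808) (nat_lit 8256) .dd)))))))) (.br
 (nat_lit 5) (.ch (nat_lit 4) (.ev (nat_lit 52) (nat_lit 274877907042) (.ev (nat_lit 116) (nat_lit 8192) (.ev
 (nat_lit 180) (nat_lit 4096) (.ev (nat_lit 628) (nat_lit 4194304) (.ev (nat_lit 2564) (nat_lit 1107296256)
 (.ev (nat_lit 2976) (nat_lit 70866960640) (.ev (nat_lit 2989) (nat_lit 131072) .dd)))))))) (.br (nat_lit 7)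
 (.ch (nat_lit 5) (.ev (nat_lit 52) (nat_lit 278103327042) (.ev (nat_lit 340) (nat_lit 8192) (.ev (nat_lit
 1108) (nat_lit 68719476736) (.ev (nat_lit 1940) (nat_lit 33554432) (.ev (nat_lit 2928) (nat_lit 135200)
 .dd)))))) (.ch (nat_lit 7) (.ev (nat_lit 52) (nat_lit 274911474018) (.ev (nat_lit 1604) (nat_lit 131072) (.ev
 (nat_lit 1668) (nat_lit 68719476736) (.ev (nat_lit 2880) (nat_lit 3225419776) .dd)))))))) (.br (nat_lit 15)
 (.br (nat_lit 11) (.ch (nat_lit 8) (.ev (nat_lit 52) (nat_lit 3225428256) (.ev (nat_lit 276) (nat_lit 2) (.ev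
 (nat_lit 660) (nat_lit 33554432) (.ev (nat_lit 788) (nat_lit 131072) (.ev (nat_lit 852) (nat_lit 68719476736)
 (.ev (nat_lit 916) (nat_lit 4096) (.ev (nat_lit 2176) (nat_lit 274877907008) .dd)))))))) (.br (nat_lit 12)
 (.ch (nat_lit 11) (.ev (nat_lit 52) (nat_lit 343597384032) (.ev (nat_lit 340) (nat_lit 2) (.ev (nat_lit 1300)
 (nat_lit 33554432) (.ev (nat_lit 1364) (nat_lit 8192) (.ev (nat_lit 1476) (nat_lit 4194304) (.ev (nat_lit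
 3044) (nat_lit 1073741824) (.ev (nat_lit 3076) (nat_lit 4096) (.ev (nat_lit 3252) (nat_lit 131072) (.ev
 (nat_lit 3261) (nat_lit 2147483648) .dd)))))))))) (.ch (nat_lit 12) (.ev (nat_lit 52) (nat_lit 1111621634)
 (.ev (nat_lit 192) (nat_lit 345744879968) .dd))))) (.br (nat_lit 16) (.ch (nat_lit 15) (.ev (nat_lit 52)
 (nat_lit 8450) (.ev (nat_lit 372) (nat_lit 1073741824) (.ev (nat_lit 820) (nat_lit 131072) (.ev (nat_lit 1108)
 (nat_lit 274877906944) (.ev (nat_lit 1172) (nat_lit 4194304) (.ev (nat_lit 1732) (nat_lit 68719476736) (.ev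
 (nat_lit 1828) (nat_lit 64) (.ev (nat_lit 2532) (nat_lit 4096) (.ev (nat_lit 2640) (nat_lit 33554464) (.ev
 (nat_lit 2653) (nat_lit 2147483648) .dd))))))))))) (.br (nat_lit 18) (.ch (nat_lit 16) (.ev (nat_lit 52)
 (nat_lit 3254792482) (.ev (nat_lit 960) (nat_lit 343601709120) .dd))) (.ch (nat_lit 18) (.ev (nat_lit 52)
 (nat_lit 274911469922) (.ev (nat_lit 308) (nat_lit 131072) (.ev (nat_lit 1504) (nat_lit 69797416960) (.ev
 (nat_lit 1517) (nat_lit 2147483648) .dd))))))))) (.br (nat_lit 29) (.br (nat_lit 23) (.br (nat_lit 22) (.ch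
 (nat_lit 19) (.ev (nat_lit 52) (nat_lit 2151690560) (.ev (nat_lit 628) (nat_lit 2) (.ev (nat_lit 756) (nat_lit
 131072) (.ev (nat_lit 1204) (nat_lit 32) (.ev (nat_lit 1412) (nat_lit 68719476736) (.ev (nat_lit 2084)
 (nat_lit 274877906944) (.ev (nat_lit 3140) (nat_lit 33554432) (.ev (nat_lit 3149) (nat_lit 1073741824)
 .dd))))))))) (.ch (nat_lit 22) (.ev (nat_lit 52) (nat_lit 278103470146) (.ev (nat_lit 2020) (nat_lit 32) (.ev
 (nat_lit 2724) (nat_lit 68719476736) (.ev (nat_lit 2756) (nat_lit 33554432) (.ev (nat_lit 2765) (nat_lit 256)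
 .dd))))))) (.br (nat_lit 24) (.ch (nat_lit 23) (.ev (nat_lit 52) (nat_lit 70866960480) (.ev (nat_lit 436)
 (nat_lit 4096) (.ev (nat_lit 1668) (nat_lit 33554432) (.ev (nat_lit 1764) (nat_lit 1073741824) (.ev (nat_lit
 1796) (nat_lit 131072) (.ev (nat_lit 1828) (nat_lit 8192) (.ev (nat_lit 2228) (nat_lit 274877906944) (.ev
 (nat_lit 2292) (nat_lit 256) (.nd (nat_lit 3328) (.ch (nat_lit 0) (.fin (nat_lit
 576464600600887876))))))))))))) (.br (nat_lit 26) (.ch (nat_lit 24) (.ev (nat_lit 52) (nat_lit 3259109634)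
 (.ev (nat_lit 212) (nat_lit 8192) (.ev (nat_lit 244) (nat_lit 64) (.ev (nat_lit 404) (nat_lit 68719476736)
 (.ev (nat_lit 1840) (nat_lit 274877906976) .dd)))))) (.ch (nat_lit 26) (.ev (nat_lit 52) (nat_lit 3225555008)
 (.ev (nat_lit 116) (nat_lit 2) (.ev (nat_lit 788) (nat_lit 32) (.ev (nat_lit 1140) (nat_lit 8192) (.ev
 (nat_lit 1700) (nat_lit 274877906944) (.ev (nat_lit 2484) (nat_lit 68719476736) (.ev (nat_lit 2852) (nat_lit
 33554432) (.ev (nat_lit 2861) (nat_lit 256) .dd)))))))))))) (.br (nat_lit 34) (.br (nat_lit 31) (.ch (nat_lit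
 29) (.ev (nat_lit 52) (nat_lit 275989405986) (.ev (nat_lit 564) (nat_lit 64) (.ev (nat_lit 1424) (nat_lit
 70867095552) .dd)))) (.br (nat_lit 33) (.ch (nat_lit 31) (.ev (nat_lit 52) (nat_lit 275985207616) (.ev
 (nat_lit 244) (nat_lit 4202496) (.ev (nat_lit 1152) (nat_lit 70867091490) .dd)))) (.ch (nat_lit 33) (.ev
 (nat_lit 52) (nat_lit 344675450978) (.ev (nat_lit 532) (nat_lit 8192) (.ev (nat_lit 1616) (nat_lit 2181042432)
 .dd)))))) (.br (nat_lit 36) (.ch (nat_lit 34) (.ev (nat_lit 52) (nat_lit 70871289858) (.ev (nat_lit 116)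
 (nat_lit 64) (.ev (nat_lit 500) (nat_lit 274877906944) (.ev (nat_lit 564) (nat_lit 8192) (.ev (nat_lit 852)
 (nat_lit 33554432) (.ev (nat_lit 1796) (nat_lit 32) (.ev (nat_lit 2404) (nat_lit 256) (.ev (nat_lit 2413)
 (nat_lit 1073741824) .dd))))))))) (.br (nat_lit 38) (.ch (nat_lit 36) (.ev (nat_lit 52) (nat_lit 69797412896)
 (.ev (nat_lit 224) (nat_lit 277025534274) (.ev (nat_lit 237) (nat_lit 33554432) .dd)))) (.ch (nat_lit 38) (.ev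
 (nat_lit 52) (nat_lit 345744998688) (.ev (nat_lit 212) (nat_lit 64) (.ev (nat_lit 500) (nat_lit 1073741824)
 (.ev (nat_lit 980) (nat_lit 2) (.ev (nat_lit 1332) (nat_lit 4194304) (.ev (nat_lit 1972) (nat_lit 8192) (.ev
 (nat_lit 2324) (nat_lit 33554432) (.ev (nat_lit 2333) (nat_lit 4096) .dd)))))))))))))) (.br (nat_lit 54) (.br
 (nat_lit 47) (.br (nat_lit 43) (.br (nat_lit 42) (.ch (nat_lit 39) (.ev (nat_lit 52) (nat_lit 344708886530)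
 (.ev (nat_lit 500) (nat_lit 2147483648) (.ev (nat_lit 1248) (nat_lit 131424) .dd)))) (.ch (nat_lit 42) (.ev
 (nat_lit 52) (nat_lit 275989409888) (.ev (nat_lit 84) (nat_lit 131072) (.ev (nat_lit 1764) (nat_lit
 2147483648) (.ev (nat_lit 2404) (nat_lit 68719476736) (.ev (nat_lit 3140) (nat_lit 256) (.ev (nat_lit 3149)
 (nat_lit 2) .dd)))))))) (.br (nat_lit 44) (.ch (nat_lit 43) (.ev (nat_lit 52) (nat_lit 68753170752) (.ev
 (nat_lit 608) (nat_lit 278103330850) .dd))) (.br (nat_lit 46) (.ch (nat_lit 44) (.ev (nat_lit 52) (nat_lit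
 274915791168) (.ev (nat_lit 148) (nat_lit 2) (.ev (nat_lit 404) (nat_lit 2147483648) (.ev (nat_lit 1344)
 (nat_lit 69793226784) .dd))))) (.ch (nat_lit 46) (.ev (nat_lit 52) (nat_lit 345744871456) (.ev (nat_lit 340)
 (nat_lit 4194304) (.ev (nat_lit 544) (nat_lit 1107435842) .dd))))))) (.br (nat_lit 50) (.br (nat_lit 48) (.ch
 (nat_lit 47) (.ev (nat_lit 52) (nat_lit 2147496194) (.ev (nat_lit 564) (nat_lit 4194304) (.ev (nat_lit 884)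
 (nat_lit 68719476736) (.ev (nat_lit 1412) (nat_lit 274877906944) (.ev (nat_lit 2164) (nat_lit 32) (.ev
 (nat_lit 2196) (nat_lit 64) (.ev (nat_lit 2404) (nat_lit 33554432) (.ev (nat_lit 2452) (nat_lit 131072) (.ev
 (nat_lit 2461) (nat_lit 1073741824) .dd)))))))))) (.br (nat_lit 49) (.ch (nat_lit 48) (.ev (nat_lit 52)
 (nat_lit 2185232480) (.ev (nat_lit 180) (nat_lit 131072) (.ev (nat_lit 308) (nat_lit 4096) (.ev (nat_lit 692)
 (nat_lit 1073741824) (.ev (nat_lit 1120) (nat_lit 343597392130) .dd)))))) (.ch (nat_lit 49) (.ev (nat_lit 52)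
 (nat_lit 346818740514) (.ev (nat_lit 980) (nat_lit 64) (.ev (nat_lit 1140) (nat_lit 4194304) (.ev (nat_lit
 1380) (nat_lit 33554432) (.ev (nat_lit 1476) (nat_lit 8192) (.ev (nat_lit 1485) (nat_lit 4096) .dd)))))))))
 (.br (nat_lit 51) (.ch (nat_lit 50) (.ev (nat_lit 52) (nat_lit 278132826146) (.ev (nat_lit 116) (nat_lit
 4194304) (.ev (nat_lit 148) (nat_lit 64) (.ev (nat_lit 1904) (nat_lit 68719476992) (.ev (nat_lit 1917)
 (nat_lit 4096) .dd)))))) (.br (nat_lit 53) (.ch (nat_lit 51) (.ev (nat_lit 52) (nat_lit 277063274592) (.ev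
 (nat_lit 724) (nat_lit 1073741824) (.ev (nat_lit 1456) (nat_lit 68719485186) .dd)))) (.ch (nat_lit 53) (.ev
 (nat_lit 52) (nat_lit 275951657312) (.ev (nat_lit 372) (nat_lit 2147483648) (.ev (nat_lit 436) (nat_lit
 131072) (.ev (nat_lit 2260) (nat_lit 4096) (.ev (nat_lit 2324) (nat_lit 68719476736) (.ev (nat_lit 2900)
 (nat_lit 2) (.ev (nat_lit 3156) (nat_lit 4194304) (.ev (nat_lit 3165) (nat_lit 33554432) .dd))))))))))))) (.br
 (nat_lit 64) (.br (nat_lit 57) (.br (nat_lit 55) (.ch (nat_lit 54) (.ev (nat_lit 52) (nat_lit 343597388032)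
 (.ev (nat_lit 96) (nat_lit 3259113570) .dd))) (.ch (nat_lit 55) (.ev (nat_lit 52) (nat_lit 277063147840) (.ev
 (nat_lit 884) (nat_lit 1073741824) (.ev (nat_lit 1044) (nat_lit 32) (.ev (nat_lit 1312) (nat_lit 68719611906)
 .dd)))))) (.br (nat_lit 58) (.ch (nat_lit 57) (.ev (nat_lit 52) (nat_lit 1073872962) (.ev (nat_lit 148)
 (nat_lit 8192) (.ev (nat_lit 256) (nat_lit 345782620448) .dd)))) (.br (nat_lit 62) (.ch (nat_lit 58) (.ev
 (nat_lit 52) (nat_lit 1107431456) (.ev (nat_lit 320) (nat_lit 345749070146) .dd))) (.ch (nat_lit 62) (.ev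
 (nat_lit 52) (nat_lit 70904848672) (.ev (nat_lit 340) (nat_lit 64) (.ev (nat_lit 692) (nat_lit 274877906944)
 (.ev (nat_lit 1236) (nat_lit 1073741824) (.ev (nat_lit 1524) (nat_lit 2) (.ev (nat_lit 1533) (nat_lit 4096)
 .dd)))))))))) (.br (nat_lit 68) (.br (nat_lit 65) (.ch (nat_lit 64) (.ev (nat_lit 52) (nat_lit 343601713474)
 (.ev (nat_lit 660) (nat_lit 1073741824) (.ev (nat_lit 820) (nat_lit 32) (.ev (nat_lit 1236) (nat_lit 33554432)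
 (.ev (nat_lit 2352) (nat_lit 2147491840) .dd)))))) (.br (nat_lit 67) (.ch (nat_lit 65) (.ev (nat_lit 52)
 (nat_lit 68719607842) (.ev (nat_lit 128) (nat_lit 278136893760) .dd))) (.ch (nat_lit 67) (.ev (nat_lit 52)
 (nat_lit 4206882) (.ev (nat_lit 372) (nat_lit 68719476736) (.ev (nat_lit 404) (nat_lit 33554432) (.ev (nat_lit
 692) (nat_lit 2147483648) (.ev (nat_lit 1268) (nat_lit 64) (.ev (nat_lit 2020) (nat_lit 131072) (.nd (nat_lit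
 3328) (.ch (nat_lit 10) (.fin (nat_lit 576470098152735306))))))))))))) (.br (nat_lit 69) (.ch (nat_lit 68)
 (.ev (nat_lit 52) (nat_lit 70871154786) (.ev (nat_lit 512) (nat_lit 275985346816) .dd))) (.br (nat_lit 70)
 (.ch (nat_lit 69) (.ev (nat_lit 52) (nat_lit 343601717314) (.ev (nat_lit 692) (nat_lit 33554432) (.ev (nat_lit
 1012) (nat_lit 32) (.ev (nat_lit 1552) (nat_lit 3221229824) .dd))))) (.ch (nat_lit 70) (.ev (nat_lit 52)
 (nat_lit 343635136610) (.ev (nat_lit 884) (nat_lit 2147483648) (.ev (nat_lit 1300) (nat_lit 1073741824) (.ev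
 (nat_lit 1952) (nat_lit 139264) (.ev (nat_lit 1965) (nat_lit 256) .dd))))))))))))))

/-- Subtrie. -/
noncomputable def T8 : Tr := (.ev (nat_lit 20) (nat_lit 5363441210560) (.nd (nat_lit 33) (.br (nat_lit 39) (.br
 (nat_lit 19) (.br (nat_lit 8) (.br (nat_lit 4) (.br (nat_lit 3) (.ch (nat_lit 1) (.ev (nat_lit 52) (nat_lit
 2097408) (.ev (nat_lit 116) (nat_lit 16) (.ev (nat_lit 276) (nat_lit 262144) (.ev (nat_lit 596) (nat_lit 32)
 (.ev (nat_lit 1444) (nat_lit 8192) (.ev (nat_lit 1668) (nat_lit 17179869184) (.ev (nat_lit 2804) (nat_lit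
 34359738368) (.ev (nat_lit 2916) (nat_lit 512) (.nd (nat_lit 3328) (.br (nat_lit 10) (.ch (nat_lit 4) (.ev
 (nat_lit 3344) (nat_lit 77309411328) (.nd (nat_lit 3361) (.ch (nat_lit 46) (.nd (nat_lit 3376) (.br (nat_lit
 13) (.ch (nat_lit 0) (.fin (nat_lit 576464600600887876))) (.ch (nat_lit 13) (.ev (nat_lit 3392) (nat_lit
 4194306) .dd)))))))) (.br (nat_lit 13) (.ch (nat_lit 10) (.ev (nat_lit 3344) (nat_lit 77313605634) .dd)) (.ch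
 (nat_lit 13) (.ev (nat_lit 3344) (nat_lit 4194306) (.fin (nat_lit 576465700097835582)))))))))))))))) (.ch
 (nat_lit 3) (.ev (nat_lit 52) (nat_lit 85903541010) (.ev (nat_lit 116) (nat_lit 262144) (.ev (nat_lit 756)
 (nat_lit 32) (.ev (nat_lit 1392) (nat_lit 42951778304) .dd)))))) (.br (nat_lit 5) (.ch (nat_lit 4) (.ev
 (nat_lit 52) (nat_lit 60129542194) (.ev (nat_lit 244) (nat_lit 256) (.ev (nat_lit 864) (nat_lit 68726039040)
 .dd)))) (.br (nat_lit 7) (.ch (nat_lit 5) (.ev (nat_lit 52) (nat_lit 51545899266) (.ev (nat_lit 672) (nat_lit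
 77309682224) .dd))) (.ch (nat_lit 7) (.ev (nat_lit 52) (nat_lit 42949681442) (.ev (nat_lit 640) (nat_lit
 85905900048) .dd)))))) (.br (nat_lit 15) (.br (nat_lit 11) (.ch (nat_lit 8) (.ev (nat_lit 52) (nat_lit
 8596497184) (.ev (nat_lit 1216) (nat_lit 120259084306) .dd))) (.br (nat_lit 12) (.ch (nat_lit 11) (.ev
 (nat_lit 52) (nat_lit 77309412128) (.ev (nat_lit 384) (nat_lit 51546169362) .dd))) (.ch (nat_lit 12) (.ev
 (nat_lit 52) (nat_lit 42953867794) (.ev (nat_lit 532) (nat_lit 256) (.ev (nat_lit 1364) (nat_lit 8192) (.ev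
 (nat_lit 1764) (nat_lit 17179869184) (.ev (nat_lit 2660) (nat_lit 262144) (.ev (nat_lit 2820) (nat_lit 32)
 (.ev (nat_lit 2900) (nat_lit 68719476736) (.ev (nat_lit 2909) (nat_lit 2097152) .dd))))))))))) (.br (nat_lit
 16) (.ch (nat_lit 15) (.ev (nat_lit 52) (nat_lit 17182236946) (.ev (nat_lit 180) (nat_lit 34359738368) (.ev
 (nat_lit 436) (nat_lit 32) (.ev (nat_lit 852) (nat_lit 4194304) (.ev (nat_lit 884) (nat_lit 512) (.nd (nat_lit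
 3328) (.ch (nat_lit 13) (.fin (nat_lit 576465700097835582)))))))))) (.br (nat_lit 18) (.ch (nat_lit 16) (.ev
 (nat_lit 52) (nat_lit 2105650) (.ev (nat_lit 480) (nat_lit 128853475840) .dd))) (.ch (nat_lit 18) (.ev
 (nat_lit 52) (nat_lit 2105650) (.ev (nat_lit 564) (nat_lit 68719476736) (.ev (nat_lit 596) (nat_lit
 34359738368) (.ev (nat_lit 1572) (nat_lit 262144) (.ev (nat_lit 1680) (nat_lit 17184064000) (.ev (nat_lit
 1693) (nat_lit 8589934592) .dd))))))))))) (.br (nat_lit 29) (.br (nat_lit 23) (.br (nat_lit 22) (.ch (nat_lit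
 19) (.ev (nat_lit 52) (nat_lit 51546169616) (.ev (nat_lit 148) (nat_lit 68719476736) (.ev (nat_lit 788)
 (nat_lit 32) (.ev (nat_lit 1700) (nat_lit 512) (.ev (nat_lit 2064) (nat_lit 8589934594) .dd)))))) (.ch
 (nat_lit 22) (.ev (nat_lit 52) (nat_lit 42954137602) (.ev (nat_lit 564) (nat_lit 256) (.ev (nat_lit 596)
 (nat_lit 2097152) (.ev (nat_lit 916) (nat_lit 32) (.ev (nat_lit 1280) (nat_lit 85899346448) .dd))))))) (.br
 (nat_lit 24) (.ch (nat_lit 23) (.ev (nat_lit 52) (nat_lit 128851378224) (.ev (nat_lit 1268) (nat_lit 256) (.ev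
 (nat_lit 1924) (nat_lit 8192) (.ev (nat_lit 2116) (nat_lit 512) (.nd (nat_lit 3328) (.ch (nat_lit 4) (.fin
 (nat_lit 576464600600887876))))))))) (.br (nat_lit 26) (.ch (nat_lit 24) (.ev (nat_lit 52) (nat_lit
 42955965186) (.ev (nat_lit 212) (nat_lit 262144) (.ev (nat_lit 660) (nat_lit 17179869184) (.ev (nat_lit 1476)
 (nat_lit 8192) (.ev (nat_lit 2052) (nat_lit 32) (.ev (nat_lit 2544) (nat_lit 68719476752) .dd))))))) (.ch
 (nat_lit 26) (.ev (nat_lit 52) (nat_lit 60133736976) (.ev (nat_lit 340) (nat_lit 256) (.ev (nat_lit 468)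
 (nat_lit 2097152) (.ev (nat_lit 1108) (nat_lit 2) (.ev (nat_lit 1172) (nat_lit 262144) (.ev (nat_lit 1204)
 (nat_lit 32) (.ev (nat_lit 2468) (nat_lit 68719476736) (.ev (nat_lit 2477) (nat_lit 8192) .dd)))))))))))) (.br
 (nat_lit 34) (.br (nat_lit 31) (.ch (nat_lit 29) (.ev (nat_lit 52) (nat_lit 42953875746) (.ev (nat_lit 1444)
 (nat_lit 262144) (.ev (nat_lit 1700) (nat_lit 17179869184) (.ev (nat_lit 1732) (nat_lit 512) (.ev (nat_lit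
 2420) (nat_lit 68719476736) (.ev (nat_lit 2832) (nat_lit 2097168) .dd))))))) (.br (nat_lit 33) (.ch (nat_lit
 31) (.ev (nat_lit 52) (nat_lit 51541967616) (.ev (nat_lit 244) (nat_lit 8589934592) (.ev (nat_lit 832)
 (nat_lit 68723679282) .dd)))) (.ch (nat_lit 33) (.ev (nat_lit 52) (nat_lit 103083671586) (.ev (nat_lit 372)
 (nat_lit 17179869184) (.ev (nat_lit 532) (nat_lit 8589934592) (.ev (nat_lit 1012) (nat_lit 2097152) (.ev
 (nat_lit 1668) (nat_lit 512) (.ev (nat_lit 1972) (nat_lit 256) (.ev (nat_lit 2304) (nat_lit 8192) (.ev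
 (nat_lit 2317) (nat_lit 16) .dd))))))))))) (.br (nat_lit 36) (.ch (nat_lit 34) (.ev (nat_lit 52) (nat_lit
 111673606162) (.ev (nat_lit 276) (nat_lit 256) (.ev (nat_lit 468) (nat_lit 32) (.ev (nat_lit 500) (nat_lit
 17179869184) (.ev (nat_lit 1712) (nat_lit 2105856) .dd)))))) (.br (nat_lit 38) (.ch (nat_lit 36) (.ev (nat_lit
 52) (nat_lit 77315703344) (.ev (nat_lit 84) (nat_lit 34359738368) (.ev (nat_lit 276) (nat_lit 8192) (.ev
 (nat_lit 852) (nat_lit 2) (.ev (nat_lit 1300) (nat_lit 17179869184) (.ev (nat_lit 2996) (nat_lit 256) (.ev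
 (nat_lit 3005) (nat_lit 262144) .dd)))))))) (.ch (nat_lit 38) (.ev (nat_lit 52) (nat_lit 68721836336) (.ev
 (nat_lit 500) (nat_lit 2) (.ev (nat_lit 724) (nat_lit 17184063488) (.ev (nat_lit 820) (nat_lit 34359738368)
 (.ev (nat_lit 980) (nat_lit 8589934592) (.ev (nat_lit 2704) (nat_lit 8192) (.ev (nat_lit 2717) (nat_lit 512)
 .dd))))))))))))) (.br (nat_lit 54) (.br (nat_lit 47) (.br (nat_lit 43) (.br (nat_lit 42) (.ch (nat_lit 39)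
 (.ev (nat_lit 52) (nat_lit 128855318530) (.ev (nat_lit 500) (nat_lit 512) (.ev (nat_lit 1636) (nat_lit 262160)
 (.ev (nat_lit 2272) (nat_lit 256) (.ev (nat_lit 2285) (nat_lit 32) .dd)))))) (.ch (nat_lit 42) (.ev (nat_lit
 52) (nat_lit 17184334368) (.ev (nat_lit 84) (nat_lit 2097152) (.ev (nat_lit 244) (nat_lit 16) (.ev (nat_lit
 308) (nat_lit 34359738368) (.ev (nat_lit 628) (nat_lit 68719476736) (.ev (nat_lit 1476) (nat_lit 256) (.ev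
 (nat_lit 1860) (nat_lit 8589934592) (.ev (nat_lit 1869) (nat_lit 2) .dd)))))))))) (.br (nat_lit 44) (.ch
 (nat_lit 43) (.ev (nat_lit 52) (nat_lit 94489289488) (.ev (nat_lit 628) (nat_lit 262144) (.ev (nat_lit 884)
 (nat_lit 2) (.ev (nat_lit 2084) (nat_lit 4194304) (.ev (nat_lit 2596) (nat_lit 2097152) (.ev (nat_lit 3296)
 (nat_lit 32) (.ev (nat_lit 3309) (nat_lit 34359738368) .dd)))))))) (.br (nat_lit 46) (.ch (nat_lit 44) (.ev
 (nat_lit 52) (nat_lit 8594129680) (.ev (nat_lit 352) (nat_lit 120261451810) .dd))) (.ch (nat_lit 46) (.ev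
 (nat_lit 52) (nat_lit 85901705248) (.ev (nat_lit 276) (nat_lit 8589934592) (.ev (nat_lit 692) (nat_lit 512)
 (.ev (nat_lit 1204) (nat_lit 34359738368) (.ev (nat_lit 1332) (nat_lit 8192) (.ev (nat_lit 2660) (nat_lit 16)
 (.ev (nat_lit 2772) (nat_lit 256) (.ev (nat_lit 3012) (nat_lit 4194304) (.ev (nat_lit 3021) (nat_lit 2)
 .dd))))))))))))) (.br (nat_lit 50) (.br (nat_lit 48) (.ch (nat_lit 47) (.ev (nat_lit 52) (nat_lit 17181975298)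
 (.ev (nat_lit 148) (nat_lit 16) (.ev (nat_lit 948) (nat_lit 32) (.ev (nat_lit 1044) (nat_lit 34359738368) (.ev
 (nat_lit 1140) (nat_lit 8589934592) (.ev (nat_lit 2372) (nat_lit 262144) (.ev (nat_lit 3028) (nat_lit 4194304)
 (.ev (nat_lit 3037) (nat_lit 68719476736) .dd))))))))) (.br (nat_lit 49) (.ch (nat_lit 48) (.ev (nat_lit 52)
 (nat_lit 60133737008) (.ev (nat_lit 116) (nat_lit 68719476736) (.ev (nat_lit 340) (nat_lit 262144) (.ev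
 (nat_lit 1140) (nat_lit 8192) (.ev (nat_lit 1572) (nat_lit 256) (.ev (nat_lit 2116) (nat_lit 2) (.ev (nat_lit
 2125) (nat_lit 2097152) .dd)))))))) (.ch (nat_lit 49) (.ev (nat_lit 52) (nat_lit 103079477538) (.ev (nat_lit
 212) (nat_lit 8192) (.ev (nat_lit 564) (nat_lit 16) (.ev (nat_lit 628) (nat_lit 8589934592) (.ev (nat_lit 756)
 (nat_lit 2097152) (.ev (nat_lit 2096) (nat_lit 4194816) (.ev (nat_lit 2109) (nat_lit 17179869184)
 .dd)))))))))) (.br (nat_lit 51) (.ch (nat_lit 50) (.ev (nat_lit 52) (nat_lit 25772171810) (.ev (nat_lit 148)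
 (nat_lit 256) (.ev (nat_lit 468) (nat_lit 34359738368) (.ev (nat_lit 1108) (nat_lit 4194304) (.ev (nat_lit
 1364) (nat_lit 68719476736) (.ev (nat_lit 1373) (nat_lit 16) .dd))))))) (.br (nat_lit 53) (.ch (nat_lit 51)
 (.ev (nat_lit 52) (nat_lit 8594129440) (.ev (nat_lit 404) (nat_lit 17179869186) (.ev (nat_lit 916) (nat_lit
 34359738368) (.ev (nat_lit 1524) (nat_lit 270336) (.ev (nat_lit 2452) (nat_lit 2097152) (.ev (nat_lit 3120)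
 (nat_lit 68719476752) (.ev (nat_lit 3133) (nat_lit 256) .dd)))))))) (.ch (nat_lit 53) (.ev (nat_lit 52)
 (nat_lit 42952040752) (.ev (nat_lit 660) (nat_lit 514) (.ev (nat_lit 1524) (nat_lit 68719476736) (.ev (nat_lit
 1876) (nat_lit 4194304) (.ev (nat_lit 1885) (nat_lit 17179869184) .dd)))))))))) (.br (nat_lit 64) (.br
 (nat_lit 57) (.br (nat_lit 55) (.ch (nat_lit 54) (.ev (nat_lit 52) (nat_lit 85901706000) (.ev (nat_lit 84)
 (nat_lit 32) (.ev (nat_lit 1088) (nat_lit 42953875458) .dd)))) (.ch (nat_lit 55) (.ev (nat_lit 52) (nat_lit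
 8594399504) (.ev (nat_lit 436) (nat_lit 2097152) (.ev (nat_lit 704) (nat_lit 120259084834) .dd))))) (.br
 (nat_lit 58) (.ch (nat_lit 57) (.ev (nat_lit 52) (nat_lit 51539870210) (.ev (nat_lit 820) (nat_lit 32) (.ev
 (nat_lit 1076) (nat_lit 2097152) (.ev (nat_lit 1236) (nat_lit 4194304) (.ev (nat_lit 1572) (nat_lit
 68719476736) (.ev (nat_lit 2196) (nat_lit 8589934592) (.ev (nat_lit 2384) (nat_lit 8208) (.ev (nat_lit 2397)
 (nat_lit 256) .dd))))))))) (.br (nat_lit 62) (.ch (nat_lit 58) (.ev (nat_lit 52) (nat_lit 34362097712) (.ev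
 (nat_lit 340) (nat_lit 8589934592) (.ev (nat_lit 404) (nat_lit 4194304) (.ev (nat_lit 532) (nat_lit
 68719476736) (.ev (nat_lit 1300) (nat_lit 512) (.ev (nat_lit 1892) (nat_lit 17179869184) (.ev (nat_lit 2868)
 (nat_lit 256) (.ev (nat_lit 2996) (nat_lit 8192) (.ev (nat_lit 3005) (nat_lit 2) .dd)))))))))) (.ch (nat_lit
 62) (.ev (nat_lit 52) (nat_lit 120263549728) (.ev (nat_lit 276) (nat_lit 16) (.ev (nat_lit 1700) (nat_lit 2)
 (.ev (nat_lit 2208) (nat_lit 8592031744) .dd)))))))) (.br (nat_lit 68) (.br (nat_lit 65) (.ch (nat_lit 64)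
 (.ev (nat_lit 52) (nat_lit 77315703042) (.ev (nat_lit 340) (nat_lit 8192) (.ev (nat_lit 724) (nat_lit 512)
 (.ev (nat_lit 2116) (nat_lit 17179869184) (.ev (nat_lit 3172) (nat_lit 16) (.ev (nat_lit 3220) (nat_lit 32)
 (.ev (nat_lit 3268) (nat_lit 262144) (.ev (nat_lit 3277) (nat_lit 34359738368) .dd))))))))) (.br (nat_lit 67)
 (.ch (nat_lit 65) (.ev (nat_lit 52) (nat_lit 128851378722) (.ev (nat_lit 372) (nat_lit 4194304) (.ev (nat_lit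
 1172) (nat_lit 8192) (.ev (nat_lit 1924) (nat_lit 256) (.ev (nat_lit 1933) (nat_lit 16) .dd)))))) (.ch
 (nat_lit 67) (.ev (nat_lit 52) (nat_lit 34366038818) (.ev (nat_lit 212) (nat_lit 8589934592) (.ev (nat_lit
 532) (nat_lit 16) (.ev (nat_lit 1744) (nat_lit 85899608064) .dd))))))) (.br (nat_lit 69) (.ch (nat_lit 68)
 (.ev (nat_lit 52) (nat_lit 103085506594) (.ev (nat_lit 148) (nat_lit 8589934592) (.ev (nat_lit 212) (nat_lit
 256) (.ev (nat_lit 244) (nat_lit 262144) (.ev (nat_lit 1648) (nat_lit 17179877904) .dd)))))) (.br (nat_lit 70)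
 (.ch (nat_lit 69) (.ev (nat_lit 52) (nat_lit 94495580162) (.ev (nat_lit 148) (nat_lit 262144) (.ev (nat_lit
 436) (nat_lit 34359738368) (.ev (nat_lit 1140) (nat_lit 256) (.ev (nat_lit 2724) (nat_lit 512) (.ev (nat_lit
 2736) (nat_lit 32) (.ev (nat_lit 2749) (nat_lit 16) .dd)))))))) (.ch (nat_lit 70) (.ev (nat_lit 52) (nat_lit
 111673344050) (.ev (nat_lit 980) (nat_lit 8192) (.ev (nat_lit 1044) (nat_lit 2097152) (.ev (nat_lit 1236)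
 (nat_lit 17179869184) (.ev (nat_lit 1636) (nat_lit 256) (.ev (nat_lit 2900) (nat_lit 262144) (.ev (nat_lit
 2909) (nat_lit 512) .dd))))))))))))))))

/-- The trie. -/
noncomputable def T : Tr := .nd (nat_lit 1000000) (.br (nat_lit 7) (.br (nat_lit 2) (.br (nat_lit 1) (.ch
 (nat_lit 0) (.ev (nat_lit 0) (nat_lit 8796093022207) .dd)) (.ch (nat_lit 1) T1)) (.br (nat_lit 3) (.ch
 (nat_lit 2) T2) (.br (nat_lit 4) (.ch (nat_lit 3) (.ev (nat_lit 0) (nat_lit 8796093022207) .dd)) (.ch (nat_lit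
 4) (.ev (nat_lit 0) (nat_lit 8796093022207) .dd))))) (.br (nat_lit 9) (.br (nat_lit 8) (.ch (nat_lit 7) (.ev
 (nat_lit 0) (nat_lit 8796093022207) .dd)) (.ch (nat_lit 8) T8)) (.br (nat_lit 14) (.ch (nat_lit 9) (.ev
 (nat_lit 0) (nat_lit 8796093022207) .dd)) (.br (nat_lit 18) (.ch (nat_lit 14) (.ev (nat_lit 0) (nat_lit
 8796093022207) .dd)) (.ch (nat_lit 18) (.ev (nat_lit 0) (nat_lit 8796093022207) .dd))))))

/-- The possible values. -/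
noncomputable def oks : List ℕ := [7, 85, 234]

/-- The parameters. -/
noncomputable def S : Pr := ⟨fun i l e => lget mz (lget [] (lget [] tabs i) l) e, oks, [(nat_lit 0), (nat_lit
 1), (nat_lit 0), (nat_lit 1), (nat_lit 0)], T, (nat_lit 8796093022207), (nat_lit 3303796230157), (nat_lit 43),
 [(nat_lit 279193), (nat_lit 87122173451996128837)], [(nat_lit 2476099), (nat_lit 25411681)]⟩

/-- Nothing known. -/
noncomputable def cs0 : Cs := (.cons (nat_lit 19) (nat_lit 0) (nat_lit 1) (.cons (nat_lit 71) (nat_lit 0) (nat_lit 1) .nil))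

theorem part_1 : part S cs0 (nat_lit 1) = true := by decide +kernel

theorem part_2 : part S cs0 (nat_lit 2) = true := by decide +kernel

theorem part_8 : part S cs0 (nat_lit 8) = true := by decide +kernel

/-- Data of a prime. -/
noncomputable def D0 : PD := ⟨(nat_lit 19), (nat_lit 5), (921843, 3, 5), (283452, 1051786, 1625863), (861529, 1144748, 833743)⟩

theorem D0_ok : D0.Ok := pdb_sound (s := 9) (C := ⟨⟨21, 6, -28, 11, 14, 17, -4, 7, -1⟩, (2, 11, 15)⟩) (by show Nat.Prime 19; norm_num) (by decide +kernel)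

/-- Lines of the first type. -/
noncomputable def Cl0 : List C1 := [⟨⟨11, 14, -28, 21, 6, 7, 4, -7, -5⟩, (12, 16, 13)⟩,
  ⟨⟨0, 0, 0, 0, 0, 0, 0, 0, 0⟩, (0, 0, 0)⟩,
  ⟨⟨0, 0, 0, 0, 0, 0, 0, 0, 0⟩, (0, 0, 0)⟩,
  ⟨⟨9, 6, -32, 1, 26, 7, 8, -1, -1⟩, (8, 3, 5)⟩,
  ⟨⟨-9, -6, -23, -1, -26, 8, 8, -1, -7⟩, (13, 12, 18)⟩,
  ⟨⟨0, 0, 0, 0, 0, 0, 0, 0, 0⟩, (0, 0, 0)⟩,
  ⟨⟨0, 0, 0, 0, 0, 0, 0, 0, 0⟩, (0, 0, 0)⟩,
  ⟨⟨9, -6, -32, 1, -26, 7, 8, 1, -1⟩, (5, 9, 15)⟩,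
  ⟨⟨0, 0, 0, 0, 0, 0, 0, 0, 0⟩, (0, 0, 0)⟩,
  ⟨⟨21, -6, -28, 11, -14, 17, -4, -7, -1⟩, (16, 12, 6)⟩,
  ⟨⟨0, 0, 0, 0, 0, 0, 0, 0, 0⟩, (0, 0, 0)⟩,
  ⟨⟨0, 0, 0, 0, 0, 0, 0, 0, 0⟩, (0, 0, 0)⟩,
  ⟨⟨0, 0, 0, 0, 0, 0, 0, 0, 0⟩, (0, 0, 0)⟩,
  ⟨⟨0, 0, 0, 0, 0, 0, 0, 0, 0⟩, (0, 0, 0)⟩,
  ⟨⟨11, -14, -28, 21, -6, 7, 4, 7, -5⟩, (5, 13, 7)⟩,
  ⟨⟨0, 0, 0, 0, 0, 0, 0, 0, 0⟩, (0, 0, 0)⟩,
  ⟨⟨0, 0, 0, 0, 0, 0, 0, 0, 0⟩, (0, 0, 0)⟩,
  ⟨⟨0, 0, 0, 0, 0, 0, 0, 0, 0⟩, (0, 0, 0)⟩,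
  ⟨⟨-9, 6, -23, -1, 26, 8, 8, 1, -7⟩, (16, 6, 9)⟩]

/-- Data of a prime. -/
noncomputable def D1 : PD := ⟨(nat_lit 71), (nat_lit 4), (11251584, 9, 33), (23923522, 720358, 4464657), (17637591, 10151933, 2206443)⟩

theorem D1_ok : D1.Ok := pdb_sound (s := 11) (C := ⟨⟨59, 34, -112, -29, 94, 37, -24, -3, -11⟩, (59, 42, 47)⟩) (by show Nat.Prime 71; norm_num) (by decide +kernel)

/-- Lines of the first type. -/
noncomputable def Cl1 : List C1 := [⟨⟨-59, -34, -53, 29, -94, 8, 24, 3, -35⟩, (17, 47, 34)⟩,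
  ⟨⟨0, 0, 0, 0, 0, 0, 0, 0, 0⟩, (0, 0, 0)⟩,
  ⟨⟨49, -74, -77, 79, 14, 28, 12, 21, -29⟩, (59, 56, 13)⟩,
  ⟨⟨0, 0, 0, 0, 0, 0, 0, 0, 0⟩, (0, 0, 0)⟩,
  ⟨⟨0, 0, 0, 0, 0, 0, 0, 0, 0⟩, (0, 0, 0)⟩,
  ⟨⟨0, 0, 0, 0, 0, 0, 0, 0, 0⟩, (0, 0, 0)⟩,
  ⟨⟨79, -14, -107, 49, 74, 28, -12, 21, -17⟩, (44, 21, 5)⟩,
  ⟨⟨0, 0, 0, 0, 0, 0, 0, 0, 0⟩, (0, 0, 0)⟩,
  ⟨⟨0, 0, 0, 0, 0, 0, 0, 0, 0⟩, (0, 0, 0)⟩,
  ⟨⟨39, 66, -92, -89, 46, 37, -8, -19, -23⟩, (13, 65, 21)⟩,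
  ⟨⟨19, 46, -107, -91, -26, 8, 12, -27, -19⟩, (7, 30, 53)⟩,
  ⟨⟨0, 0, 0, 0, 0, 0, 0, 0, 0⟩, (0, 0, 0)⟩,
  ⟨⟨0, 0, 0, 0, 0, 0, 0, 0, 0⟩, (0, 0, 0)⟩,
  ⟨⟨99, 6, -67, 11, -94, 32, -4, -11, -31⟩, (13, 33, 59)⟩,
  ⟨⟨-39, -66, -53, -89, 46, 52, 8, 19, -31⟩, (17, 57, 22)⟩,
  ⟨⟨0, 0, 0, 0, 0, 0, 0, 0, 0⟩, (0, 0, 0)⟩,
  ⟨⟨0, 0, 0, 0, 0, 0, 0, 0, 0⟩, (0, 0, 0)⟩,
  ⟨⟨19, -46, -107, -91, 26, 8, 12, 27, -19⟩, (15, 44, 2)⟩,
  ⟨⟨0, 0, 0, 0, 0, 0, 0, 0, 0⟩, (0, 0, 0)⟩,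
  ⟨⟨0, 0, 0, 0, 0, 0, 0, 0, 0⟩, (0, 0, 0)⟩,
  ⟨⟨51, 66, -88, -59, 74, 67, -20, -5, -17⟩, (59, 64, 59)⟩,
  ⟨⟨49, 74, -77, 79, -14, 28, 12, -21, -29⟩, (6, 43, 29)⟩,
  ⟨⟨0, 0, 0, 0, 0, 0, 0, 0, 0⟩, (0, 0, 0)⟩,
  ⟨⟨0, 0, 0, 0, 0, 0, 0, 0, 0⟩, (0, 0, 0)⟩,
  ⟨⟨0, 0, 0, 0, 0, 0, 0, 0, 0⟩, (0, 0, 0)⟩,
  ⟨⟨31, 74, -83, -81, 54, 68, -16, -13, -19⟩, (8, 2, 60)⟩,
  ⟨⟨0, 0, 0, 0, 0, 0, 0, 0, 0⟩, (0, 0, 0)⟩,
  ⟨⟨11, 94, -43, -99, 6, 32, 4, -11, -35⟩, (69, 18, 38)⟩,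
  ⟨⟨-51, 66, -37, 59, 74, 8, 20, -5, -37⟩, (25, 56, 25)⟩,
  ⟨⟨0, 0, 0, 0, 0, 0, 0, 0, 0⟩, (0, 0, 0)⟩,
  ⟨⟨39, -66, -92, -89, -46, 37, -8, 19, -23⟩, (43, 2, 64)⟩,
  ⟨⟨0, 0, 0, 0, 0, 0, 0, 0, 0⟩, (0, 0, 0)⟩,
  ⟨⟨59, -34, -112, -29, -94, 37, -24, 3, -11⟩, (9, 4, 18)⟩,
  ⟨⟨0, 0, 0, 0, 0, 0, 0, 0, 0⟩, (0, 0, 0)⟩,
  ⟨⟨0, 0, 0, 0, 0, 0, 0, 0, 0⟩, (0, 0, 0)⟩,
  ⟨⟨-59, 34, -53, 29, 94, 8, 24, -3, -35⟩, (8, 43, 16)⟩,
  ⟨⟨0, 0, 0, 0, 0, 0, 0, 0, 0⟩, (0, 0, 0)⟩,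
  ⟨⟨11, -94, -43, -99, -6, 32, 4, 11, -35⟩, (2, 53, 33)⟩,
  ⟨⟨0, 0, 0, 0, 0, 0, 0, 0, 0⟩, (0, 0, 0)⟩,
  ⟨⟨0, 0, 0, 0, 0, 0, 0, 0, 0⟩, (0, 0, 0)⟩,
  ⟨⟨51, -66, -88, -59, -74, 67, -20, 5, -17⟩, (18, 46, 18)⟩,
  ⟨⟨-19, -46, -88, -91, -26, 83, -12, 27, -7⟩, (26, 61, 65)⟩,
  ⟨⟨0, 0, 0, 0, 0, 0, 0, 0, 0⟩, (0, 0, 0)⟩,
  ⟨⟨0, 0, 0, 0, 0, 0, 0, 0, 0⟩, (0, 0, 0)⟩,
  ⟨⟨0, 0, 0, 0, 0, 0, 0, 0, 0⟩, (0, 0, 0)⟩,
  ⟨⟨-19, 46, -88, -91, 26, 83, -12, -27, -7⟩, (18, 4, 45)⟩,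
  ⟨⟨0, 0, 0, 0, 0, 0, 0, 0, 0⟩, (0, 0, 0)⟩,
  ⟨⟨0, 0, 0, 0, 0, 0, 0, 0, 0⟩, (0, 0, 0)⟩,
  ⟨⟨0, 0, 0, 0, 0, 0, 0, 0, 0⟩, (0, 0, 0)⟩,
  ⟨⟨0, 0, 0, 0, 0, 0, 0, 0, 0⟩, (0, 0, 0)⟩,
  ⟨⟨0, 0, 0, 0, 0, 0, 0, 0, 0⟩, (0, 0, 0)⟩,
  ⟨⟨0, 0, 0, 0, 0, 0, 0, 0, 0⟩, (0, 0, 0)⟩,
  ⟨⟨99, -6, -67, 11, 94, 32, -4, 11, -31⟩, (48, 29, 54)⟩,
  ⟨⟨0, 0, 0, 0, 0, 0, 0, 0, 0⟩, (0, 0, 0)⟩,
  ⟨⟨0, 0, 0, 0, 0, 0, 0, 0, 0⟩, (0, 0, 0)⟩,
  ⟨⟨0, 0, 0, 0, 0, 0, 0, 0, 0⟩, (0, 0, 0)⟩,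
  ⟨⟨-51, -66, -37, 59, -74, 8, 20, 5, -37⟩, (55, 38, 55)⟩,
  ⟨⟨0, 0, 0, 0, 0, 0, 0, 0, 0⟩, (0, 0, 0)⟩,
  ⟨⟨0, 0, 0, 0, 0, 0, 0, 0, 0⟩, (0, 0, 0)⟩,
  ⟨⟨-31, -74, -52, -81, 54, 13, 16, 13, -35⟩, (64, 55, 54)⟩,
  ⟨⟨-31, 74, -52, -81, -54, 13, 16, -13, -35⟩, (11, 15, 47)⟩,
  ⟨⟨-39, 66, -53, -89, -46, 52, 8, -19, -31⟩, (58, 65, 50)⟩,
  ⟨⟨0, 0, 0, 0, 0, 0, 0, 0, 0⟩, (0, 0, 0)⟩,
  ⟨⟨79, 14, -107, 49, -74, 28, -12, -21, -17⟩, (57, 3, 21)⟩,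
  ⟨⟨0, 0, 0, 0, 0, 0, 0, 0, 0⟩, (0, 0, 0)⟩,
  ⟨⟨0, 0, 0, 0, 0, 0, 0, 0, 0⟩, (0, 0, 0)⟩,
  ⟨⟨31, -74, -83, -81, -54, 68, -16, 13, -19⟩, (61, 33, 67)⟩,
  ⟨⟨0, 0, 0, 0, 0, 0, 0, 0, 0⟩, (0, 0, 0)⟩,
  ⟨⟨0, 0, 0, 0, 0, 0, 0, 0, 0⟩, (0, 0, 0)⟩,
  ⟨⟨0, 0, 0, 0, 0, 0, 0, 0, 0⟩, (0, 0, 0)⟩,
  ⟨⟨0, 0, 0, 0, 0, 0, 0, 0, 0⟩, (0, 0, 0)⟩]

/-- Data of a prime. -/
noncomputable def Dm : PD := ⟨(nat_lit 43), (nat_lit 2), (989, 1, 17), (1652, 774, 636), (172, 5, 130)⟩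

theorem Dm_ok : Dm.Ok := pdb_sound (s := 1) (C := ⟨⟨43, -38, -44, 43, 38, 1, 0, 9, -19⟩, (5, 38, 9)⟩) (by show Nat.Prime 43; norm_num) (by decide +kernel)

/-- Lines of the first type. -/
noncomputable def Clm : List C1 := [⟨⟨43, 38, -44, 43, -38, 1, 0, -9, -19⟩, (42, 1, 24)⟩,
  ⟨⟨0, 0, 0, 0, 0, 0, 0, 0, 0⟩, (0, 0, 0)⟩,
  ⟨⟨57, -18, -16, -17, -58, 1, 4, 1, -23⟩, (41, 27, 24)⟩,
  ⟨⟨7, -38, -56, -33, -42, 49, -16, 7, -1⟩, (28, 40, 22)⟩,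
  ⟨⟨0, 0, 0, 0, 0, 0, 0, 0, 0⟩, (0, 0, 0)⟩,
  ⟨⟨0, 0, 0, 0, 0, 0, 0, 0, 0⟩, (0, 0, 0)⟩,
  ⟨⟨0, 0, 0, 0, 0, 0, 0, 0, 0⟩, (0, 0, 0)⟩,
  ⟨⟨0, 0, 0, 0, 0, 0, 0, 0, 0⟩, (0, 0, 0)⟩,
  ⟨⟨0, 0, 0, 0, 0, 0, 0, 0, 0⟩, (0, 0, 0)⟩,
  ⟨⟨0, 0, 0, 0, 0, 0, 0, 0, 0⟩, (0, 0, 0)⟩,
  ⟨⟨0, 0, 0, 0, 0, 0, 0, 0, 0⟩, (0, 0, 0)⟩,
  ⟨⟨27, -18, -71, -53, -22, 4, -4, 17, -7⟩, (6, 36, 23)⟩,
  ⟨⟨0, 0, 0, 0, 0, 0, 0, 0, 0⟩, (0, 0, 0)⟩,
  ⟨⟨0, 0, 0, 0, 0, 0, 0, 0, 0⟩, (0, 0, 0)⟩,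
  ⟨⟨-7, -2, -64, -47, -38, 31, 12, -15, -7⟩, (37, 15, 41)⟩,
  ⟨⟨-7, 2, -64, -47, 38, 31, 12, 15, -7⟩, (3, 14, 1)⟩,
  ⟨⟨-7, 38, -49, 33, 42, 16, 16, -7, -17⟩, (27, 14, 12)⟩,
  ⟨⟨0, 0, 0, 0, 0, 0, 0, 0, 0⟩, (0, 0, 0)⟩,
  ⟨⟨0, 0, 0, 0, 0, 0, 0, 0, 0⟩, (0, 0, 0)⟩,
  ⟨⟨57, 18, -16, -17, 58, 1, 4, -1, -23⟩, (36, 30, 41)⟩,
  ⟨⟨53, 22, -49, 27, -18, 44, 4, -17, -11⟩, (6, 42, 11)⟩,
  ⟨⟨0, 0, 0, 0, 0, 0, 0, 0, 0⟩, (0, 0, 0)⟩,
  ⟨⟨0, 0, 0, 0, 0, 0, 0, 0, 0⟩, (0, 0, 0)⟩,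
  ⟨⟨27, 18, -71, -53, 22, 4, -4, -17, -7⟩, (1, 6, 11)⟩,
  ⟨⟨57, -18, -41, -17, -58, 16, -4, -1, -19⟩, (7, 13, 41)⟩,
  ⟨⟨0, 0, 0, 0, 0, 0, 0, 0, 0⟩, (0, 0, 0)⟩,
  ⟨⟨0, 0, 0, 0, 0, 0, 0, 0, 0⟩, (0, 0, 0)⟩,
  ⟨⟨7, 38, -56, -33, 42, 49, -16, -7, -1⟩, (27, 14, 12)⟩,
  ⟨⟨7, 2, -71, -47, -38, 16, 12, -15, -5⟩, (3, 29, 42)⟩,
  ⟨⟨7, -2, -71, -47, 38, 16, 12, 15, -5⟩, (37, 28, 2)⟩,
  ⟨⟨0, 0, 0, 0, 0, 0, 0, 0, 0⟩, (0, 0, 0)⟩,
  ⟨⟨0, 0, 0, 0, 0, 0, 0, 0, 0⟩, (0, 0, 0)⟩,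
  ⟨⟨53, -22, -49, 27, 18, 44, 4, 17, -11⟩, (36, 37, 23)⟩,
  ⟨⟨0, 0, 0, 0, 0, 0, 0, 0, 0⟩, (0, 0, 0)⟩,
  ⟨⟨0, 0, 0, 0, 0, 0, 0, 0, 0⟩, (0, 0, 0)⟩,
  ⟨⟨0, 0, 0, 0, 0, 0, 0, 0, 0⟩, (0, 0, 0)⟩,
  ⟨⟨0, 0, 0, 0, 0, 0, 0, 0, 0⟩, (0, 0, 0)⟩,
  ⟨⟨0, 0, 0, 0, 0, 0, 0, 0, 0⟩, (0, 0, 0)⟩,
  ⟨⟨0, 0, 0, 0, 0, 0, 0, 0, 0⟩, (0, 0, 0)⟩,
  ⟨⟨0, 0, 0, 0, 0, 0, 0, 0, 0⟩, (0, 0, 0)⟩,
  ⟨⟨-7, -38, -49, 33, -42, 16, 16, 7, -17⟩, (28, 40, 22)⟩,
  ⟨⟨57, 18, -41, -17, 58, 16, -4, 1, -19⟩, (2, 16, 24)⟩,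
  ⟨⟨0, 0, 0, 0, 0, 0, 0, 0, 0⟩, (0, 0, 0)⟩]

/-- Unit moves. -/
noncomputable def U : List Mv := [mz,
  mz,
  mz,
  mz,
  mz,
  ⟨⟨-1, 0, 1, 0, 1, 0, 0, 0, 1⟩, .nil, (nat_lit 18), (nat_lit 9), (nat_lit 4), (nat_lit 1), (0, 0, 0), [], 18⟩,
  ⟨⟨-1, 0, 1, 0, -1, 0, 0, 0, 1⟩, .nil, (nat_lit 0), (nat_lit 12), (nat_lit 1), (nat_lit 0), (0, 0, 0), [], 7⟩,
  mz,
  mz,
  mz,
  ⟨⟨1, 0, 0, 0, -1, 0, 0, 0, 1⟩, .nil, (nat_lit 18), (nat_lit 14), (nat_lit 2), (nat_lit 1), (0, 0, 0), [], 10⟩,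
  ⟨⟨-1, 0, 1, 0, -1, 0, 0, 0, 1⟩, .nil, (nat_lit 0), (nat_lit 12), (nat_lit 1), (nat_lit 0), (0, 0, 0), [], 7⟩,
  ⟨⟨-1, 0, 1, 0, -1, 0, 0, 0, 1⟩, .nil, (nat_lit 0), (nat_lit 12), (nat_lit 1), (nat_lit 0), (0, 0, 0), [], 7⟩,
  ⟨⟨-1, 0, 1, 0, 1, 0, 0, 0, 1⟩, .nil, (nat_lit 18), (nat_lit 9), (nat_lit 4), (nat_lit 1), (0, 0, 0), [], 18⟩,
  mz,
  ⟨⟨-1, 0, 1, 0, 1, 0, 0, 0, 1⟩, .nil, (nat_lit 18), (nat_lit 9), (nat_lit 4), (nat_lit 1), (0, 0, 0), [], 18⟩,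
  ⟨⟨1, 0, 0, 0, -1, 0, 0, 0, 1⟩, .nil, (nat_lit 18), (nat_lit 14), (nat_lit 2), (nat_lit 1), (0, 0, 0), [], 10⟩,
  ⟨⟨1, 0, 0, 0, -1, 0, 0, 0, 1⟩, .nil, (nat_lit 18), (nat_lit 14), (nat_lit 2), (nat_lit 1), (0, 0, 0), [], 10⟩,
  mz]

theorem v_ty : tyb Dm S.ty1 Clm = true := by decide +kernel

theorem v_ty0 : tyb D0 (S.tys.getD 0 0) Cl0 = true := by decide +kernel

theorem v_ty1 : tyb D1 (S.tys.getD 1 0) Cl1 = true := by decide +kernel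

theorem v_msc : mscb S D0 [D1] Dm (nat_lit 262) = true := by decide +kernel

theorem v_mv0 : mvsn (nat_lit 116342478300062731) S D0 [D1] Dm (nat_lit 262) 0 D0 = true := by decide +kernel

theorem v_mv1 : mvsn (nat_lit 116342478300062731) S D0 [D1] Dm (nat_lit 262) 1 D1 = true := by decide +kernel

theorem v_mm : mmsn (nat_lit 116342478300062731) S D0 [D1] Dm (nat_lit 262) = true := by decide +kernel

theorem v_un : unb S D0 (nat_lit 262) U = true := by decide +kernel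

theorem v_ok : okb S.oks [(0, 0, 0), (2, 9, 0), (0, 0, 0)] = true := by decide +kernel

theorem v_part : ∀ d < D0.p, (nat_lit 262).testBit d = true → part S (zc (D0 :: [D1])) d = true := by
  intro d hd h
  have h1 : ∀ d < 19, (nat_lit 262).testBit d = true → d = 1 ∨ d = 2 ∨ d = 8 := by decide
  rcases h1 d hd h with rfl | rfl | rfl
  · exact part_1
  · exact part_2
  · exact part_8

theorem main (n : ℕ) (ho : Odd n) (hr : ¬ Rep n) (h0 : Split 19 n) (h1 : Split 71 n) (hm : Split 43 n) :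
    n ∈ EE := by
  refine concln (W := nat_lit 116342478300062731) (S := S) (P0 := D0) (Pl := [D1]) (Pm := Dm) (cn := nat_lit 262) ?_ Dm_ok v_ty ?_ ?_ v_msc ?_ v_mm v_un v_part v_ok
    n ho hr ?_ hm
  · simp only [List.forall_mem_cons]
    exact ⟨D0_ok, D1_ok, fun _ h => absurd h (by simp)⟩
  · exact all2 (φ := fun j P => ∃ L, tyb P (S.tys.getD j 0) L = true) ⟨_, v_ty0⟩ ⟨_, v_ty1⟩
  · exact all2 (φ := fun j P => Nat.ble (S.pks.getD j 0) (Nat.pow P.p P.K) = true) (by decide +kernel) (by decide +kernel)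
  · exact all2 (φ := fun i P => mvsn (nat_lit 116342478300062731) S D0 [D1] Dm (nat_lit 262) i P = true) v_mv0 v_mv1
  · simp only [List.forall_mem_cons]
    exact ⟨h0, h1, fun _ h => absurd h (by simp)⟩

end Pool.Agent.Work.MP_9954fe_nt.P19_71_43

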