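import Pool.Agent.Work.MP_9954fe_nt.Fast

/-!
Certificates for the sets {7, 43, 53}, {11, 47, 53}, {13, 31, 37}, {13, 31, 53}, {19, 53, 71}, {31, 47, 71} of split primes.
-/

set_option autoImplicit false
set_option linter.all false
set_option maxRecDepth 100000

namespace Pool.Agent.Work.MP_9954fe_nt.P7_53_43

/-- Dummy move. -/
noncomputable def mz : Mv := ⟨⟨0, 0, 0, 0, 0, 0, 0, 0, 0⟩, .nil, (nat_lit 0), (nat_lit 0), (nat_lit 0), (nat_lit 0), (0, 0, 0), [], 0⟩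

/-- Moves. -/
noncomputable def t0_1 : List Mv := [
  ⟨⟨-3, 4, -5, 2, -5, -6, 4, 4, -5⟩, (.cons (nat_lit 46) (nat_lit 1) (nat_lit 40) (nat_lit 1) (.cons (nat_lit 1041) (nat_lit 255) (nat_lit 327) (nat_lit 1) .nil)), (nat_lit 12), (nat_lit 28), (nat_lit 3), (nat_lit 1), (3, 5, 3), [43, 563], 31⟩,
  ⟨⟨-3, 4, -5, -2, 5, 6, 4, 4, -5⟩, (.cons (nat_lit 45) (nat_lit 30) (nat_lit 18) (nat_lit 1) (.cons (nat_lit 2753) (nat_lit 1124) (nat_lit 1724) (nat_lit 1) .nil)), (nat_lit 1), (nat_lit 29), (nat_lit 25), (nat_lit 1), (3, 2, 3), [44, 2646], 6⟩,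
  ⟨⟨7, 0, 0, 2, -5, -6, 4, 4, -5⟩, (.cons (nat_lit 31) (nat_lit 13) (nat_lit 47) (nat_lit 1) (.cons (nat_lit 2186) (nat_lit 1740) (nat_lit 337) (nat_lit 1) .nil)), (nat_lit 31), (nat_lit 15), (nat_lit 3), (nat_lit 1), (0, 5, 3), [8, 546], 31⟩,
  ⟨⟨-3, 4, -5, 2, -5, -6, 4, 4, -5⟩, (.cons (nat_lit 46) (nat_lit 1) (nat_lit 40) (nat_lit 1) (.cons (nat_lit 1041) (nat_lit 255) (nat_lit 327) (nat_lit 1) .nil)), (nat_lit 12), (nat_lit 28), (nat_lit 3), (nat_lit 1), (3, 5, 3), [43, 563], 31⟩,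
  ⟨⟨-3, 4, -5, 2, -5, -6, 4, 4, -5⟩, (.cons (nat_lit 46) (nat_lit 1) (nat_lit 40) (nat_lit 1) (.cons (nat_lit 1041) (nat_lit 255) (nat_lit 327) (nat_lit 1) .nil)), (nat_lit 12), (nat_lit 28), (nat_lit 3), (nat_lit 1), (3, 5, 3), [43, 563], 31⟩,
  ⟨⟨-3, 4, -5, 2, -5, -6, 4, 4, -5⟩, (.cons (nat_lit 46) (nat_lit 1) (nat_lit 40) (nat_lit 1) (.cons (nat_lit 1041) (nat_lit 255) (nat_lit 327) (nat_lit 1) .nil)), (nat_lit 12), (nat_lit 28), (nat_lit 3), (nat_lit 1), (3, 5, 3), [43, 563], 31⟩,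
  ⟨⟨7, 0, 0, 2, -5, -6, 4, 4, -5⟩, (.cons (nat_lit 31) (nat_lit 13) (nat_lit 47) (nat_lit 1) (.cons (nat_lit 2186) (nat_lit 1740) (nat_lit 337) (nat_lit 1) .nil)), (nat_lit 31), (nat_lit 15), (nat_lit 3), (nat_lit 1), (0, 5, 3), [8, 546], 31⟩]

/-- Moves. -/
noncomputable def t0_3 : List Mv := [
  ⟨⟨1, 0, -9, 0, -7, 0, 6, 0, -5⟩, (.cons (nat_lit 48) (nat_lit 29) (nat_lit 47) (nat_lit 1) (.cons (nat_lit 85) (nat_lit 2446) (nat_lit 2134) (nat_lit 1) .nil)), (nat_lit 1), (nat_lit 16), (nat_lit 14), (nat_lit 1), (2, 0, 5), [41, 1090], 13⟩,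
  ⟨⟨1, 0, -9, 0, -7, 0, 6, 0, -5⟩, (.cons (nat_lit 48) (nat_lit 29) (nat_lit 47) (nat_lit 1) (.cons (nat_lit 85) (nat_lit 2446) (nat_lit 2134) (nat_lit 1) .nil)), (nat_lit 1), (nat_lit 16), (nat_lit 14), (nat_lit 1), (2, 0, 5), [41, 1090], 13⟩,
  ⟨⟨5, 0, 4, 0, 7, 0, 6, 0, -5⟩, (.cons (nat_lit 4) (nat_lit 19) (nat_lit 20) (nat_lit 1) (.cons (nat_lit 2808) (nat_lit 2260) (nat_lit 1276) (nat_lit 1) .nil)), (nat_lit 42), (nat_lit 3), (nat_lit 35), (nat_lit 1), (3, 0, 5), [33, 853], 11⟩,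
  ⟨⟨5, 0, 4, 0, -7, 0, 6, 0, -5⟩, (.cons (nat_lit 15) (nat_lit 34) (nat_lit 40) (nat_lit 1) (.cons (nat_lit 2808) (nat_lit 2306) (nat_lit 2653) (nat_lit 1) .nil)), (nat_lit 42), (nat_lit 27), (nat_lit 14), (nat_lit 1), (3, 0, 5), [27, 1281], 13⟩,
  ⟨⟨1, 0, -9, 0, -7, 0, 6, 0, -5⟩, (.cons (nat_lit 48) (nat_lit 29) (nat_lit 47) (nat_lit 1) (.cons (nat_lit 85) (nat_lit 2446) (nat_lit 2134) (nat_lit 1) .nil)), (nat_lit 1), (nat_lit 16), (nat_lit 14), (nat_lit 1), (2, 0, 5), [41, 1090], 13⟩,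
  ⟨⟨1, 0, -9, 0, 7, 0, 6, 0, -5⟩, (.cons (nat_lit 31) (nat_lit 23) (nat_lit 6) (nat_lit 1) (.cons (nat_lit 625) (nat_lit 915) (nat_lit 1005) (nat_lit 1) .nil)), (nat_lit 1), (nat_lit 40), (nat_lit 35), (nat_lit 1), (2, 0, 5), [40, 2769], 11⟩,
  ⟨⟨1, 0, -9, 0, -7, 0, 6, 0, -5⟩, (.cons (nat_lit 48) (nat_lit 29) (nat_lit 47) (nat_lit 1) (.cons (nat_lit 85) (nat_lit 2446) (nat_lit 2134) (nat_lit 1) .nil)), (nat_lit 1), (nat_lit 16), (nat_lit 14), (nat_lit 1), (2, 0, 5), [41, 1090], 13⟩]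

/-- Moves. -/
noncomputable def t1_1 : List Mv := [
  mz,
  mz,
  mz,
  mz,
  ⟨⟨-53, 0, 0, 10, -47, -30, -2, 20, -47⟩, (.cons (nat_lit 42) (nat_lit 45) (nat_lit 23) (nat_lit 1) (.cons
 (nat_lit 746) (nat_lit 51) (nat_lit 128) (nat_lit 1) .nil)), (nat_lit 34), (nat_lit 38), (nat_lit 42),
 (nat_lit 1), (0, 39, 24), [3, 164], 11⟩,
  ⟨⟨-53, 0, 0, -10, -47, 30, -2, -20, -47⟩, (.cons (nat_lit 17) (nat_lit 19) (nat_lit 1) (nat_lit 28) (.cons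
 (nat_lit 1970) (nat_lit 2631) (nat_lit 837) (nat_lit 1) .nil)), (nat_lit 19), (nat_lit 9), (nat_lit 19),
 (nat_lit 1), (0, 7, 12), [34, 730], 15⟩,
  ⟨⟨15, 56, -11, -28, 5, -36, 40, 8, -47⟩, (.cons (nat_lit 17) (nat_lit 43) (nat_lit 26) (nat_lit 1) (.cons
 (nat_lit 2695) (nat_lit 350) (nat_lit 1620) (nat_lit 1) .nil)), (nat_lit 10), (nat_lit 12), (nat_lit 26),
 (nat_lit 1), (1, 37, 38), [43, 2505], 10⟩,
  mz,
  mz,
  ⟨⟨-33, -20, -32, 8, 45, -34, 24, -24, -49⟩, (.cons (nat_lit 8) (nat_lit 6) (nat_lit 0) (nat_lit 1) (.cons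
 (nat_lit 565) (nat_lit 1464) (nat_lit 1695) (nat_lit 1) .nil)), (nat_lit 1), (nat_lit 23), (nat_lit 42),
 (nat_lit 1), (35, 14, 42), [32, 2241], 25⟩,
  ⟨⟨-25, 48, -11, 28, -5, -64, -40, -8, -7⟩, (.cons (nat_lit 26) (nat_lit 12) (nat_lit 37) (nat_lit 1) (.cons
 (nat_lit 1455) (nat_lit 2755) (nat_lit 1785) (nat_lit 1) .nil)), (nat_lit 31), (nat_lit 36), (nat_lit 1),
 (nat_lit 1), (52, 52, 9), [43, 2339], 36⟩,
  ⟨⟨-1, -12, -63, 50, 17, -30, 14, -44, -19⟩, (.cons (nat_lit 40) (nat_lit 43) (nat_lit 36) (nat_lit 1) (.cons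
 (nat_lit 964) (nat_lit 2139) (nat_lit 1266) (nat_lit 1) .nil)), (nat_lit 20), (nat_lit 14), (nat_lit 24),
 (nat_lit 1), (44, 26, 20), [44, 866], 22⟩,
  ⟨⟨-51, 20, 4, -10, -47, -20, 2, 20, -49⟩, (.cons (nat_lit 21) (nat_lit 39) (nat_lit 12) (nat_lit 1) (.cons
 (nat_lit 1105) (nat_lit 2442) (nat_lit 2547) (nat_lit 1) .nil)), (nat_lit 34), (nat_lit 5), (nat_lit 1),
 (nat_lit 1), (48, 25, 48), [24, 2352], 11⟩,
  mz,
  mz,
  ⟨⟨-51, -20, 4, -10, 47, -20, 2, -20, -49⟩, (.cons (nat_lit 48) (nat_lit 42) (nat_lit 19) (nat_lit 1) (.cons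
 (nat_lit 2336) (nat_lit 1845) (nat_lit 2781) (nat_lit 1) .nil)), (nat_lit 42), (nat_lit 34), (nat_lit 17),
 (nat_lit 1), (36, 32, 36), [38, 625], 15⟩,
  ⟨⟨15, 52, 16, 10, 17, -60, 46, 4, -11⟩, (.cons (nat_lit 5) (nat_lit 17) (nat_lit 13) (nat_lit 1) (.cons
 (nat_lit 1327) (nat_lit 2140) (nat_lit 995) (nat_lit 1) .nil)), (nat_lit 27), (nat_lit 42), (nat_lit 3),
 (nat_lit 1), (24, 16, 10), [31, 1560], 1⟩,
  ⟨⟨31, -48, -4, -10, -17, -50, 46, 4, -35⟩, (.cons (nat_lit 24) (nat_lit 48) (nat_lit 48) (nat_lit 1) (.cons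
 (nat_lit 256) (nat_lit 2259) (nat_lit 1541) (nat_lit 1) .nil)), (nat_lit 8), (nat_lit 34), (nat_lit 7),
 (nat_lit 1), (18, 13, 25), [43, 2297], 22⟩,
  ⟨⟨-57, -4, 40, 8, -45, 26, -24, -24, -25⟩, (.cons (nat_lit 28) (nat_lit 9) (nat_lit 36) (nat_lit 1) (.cons
 (nat_lit 2200) (nat_lit 1790) (nat_lit 2303) (nat_lit 1) .nil)), (nat_lit 32), (nat_lit 32), (nat_lit 28),
 (nat_lit 1), (12, 29, 19), [8, 2176], 40⟩,
  mz,
  mz,
  ⟨⟨-33, 20, -32, 8, -45, -34, 24, 24, -49⟩, (.cons (nat_lit 34) (nat_lit 37) (nat_lit 1) (nat_lit 21) (.cons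
 (nat_lit 28) (nat_lit 1466) (nat_lit 402) (nat_lit 1) .nil)), (nat_lit 39), (nat_lit 42), (nat_lit 26),
 (nat_lit 1), (47, 40, 14), [36, 2223], 38⟩,
  ⟨⟨45, 28, -49, -28, 45, 14, 0, 0, -53⟩, (.cons (nat_lit 1) (nat_lit 35) (nat_lit 7) (nat_lit 1) (.cons (nat_lit 281) (nat_lit 225) (nat_lit 1305) (nat_lit 1) .nil)), (nat_lit 1), (nat_lit 10), (nat_lit 2), (nat_lit 1), (24, 31, 0), [45, 1208], 18⟩,
  mz,
  ⟨⟨-13, 48, -27, 30, -17, -60, 30, 36, -7⟩, (.cons (nat_lit 26) (nat_lit 5) (nat_lit 34) (nat_lit 1) (.cons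
 (nat_lit 882) (nat_lit 673) (nat_lit 745) (nat_lit 1) .nil)), (nat_lit 20), (nat_lit 39), (nat_lit 18),
 (nat_lit 1), (11, 48, 48), [37, 501], 26⟩,
  mz,
  ⟨⟨-25, -48, -11, 28, 5, -64, -40, 8, -7⟩, (.cons (nat_lit 17) (nat_lit 13) (nat_lit 37) (nat_lit 1) (.cons
 (nat_lit 2156) (nat_lit 1920) (nat_lit 1) (nat_lit 1219) .nil)), (nat_lit 10), (nat_lit 31), (nat_lit 17),
 (nat_lit 1), (2, 2, 35), [43, 171], 10⟩,
  mz,
  ⟨⟨-1, -48, 37, 52, 5, -16, 8, -40, -31⟩, (.cons (nat_lit 26) (nat_lit 9) (nat_lit 10) (nat_lit 1) (.cons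
 (nat_lit 2138) (nat_lit 2455) (nat_lit 1434) (nat_lit 1) .nil)), (nat_lit 13), (nat_lit 16), (nat_lit 6),
 (nat_lit 1), (29, 29, 33), [11, 1464], 13⟩,
  ⟨⟨-13, 48, 40, -30, 17, -30, 30, 36, -23⟩, (.cons (nat_lit 18) (nat_lit 1) (nat_lit 17) (nat_lit 1) (.cons
 (nat_lit 1679) (nat_lit 1827) (nat_lit 1024) (nat_lit 1) .nil)), (nat_lit 15), (nat_lit 17), (nat_lit 12),
 (nat_lit 1), (42, 48, 5), [45, 1184], 41⟩,
  mz,
  ⟨⟨45, -28, -49, 28, 45, -14, 0, 0, -53⟩, (.cons (nat_lit 1) (nat_lit 14) (nat_lit 42) (nat_lit 1) (.cons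
 (nat_lit 2384) (nat_lit 372) (nat_lit 1920) (nat_lit 1) .nil)), (nat_lit 1), (nat_lit 33), (nat_lit 41),
 (nat_lit 1), (39, 49, 0), [45, 1179], 18⟩,
  mz,
  ⟨⟨-39, 28, -17, 10, -33, -50, 18, 36, -37⟩, (.cons (nat_lit 31) (nat_lit 26) (nat_lit 27) (nat_lit 1) (.cons
 (nat_lit 1444) (nat_lit 968) (nat_lit 1303) (nat_lit 1) .nil)), (nat_lit 14), (nat_lit 40), (nat_lit 35),
 (nat_lit 1), (43, 8, 25), [38, 1428], 14⟩,
  mz,
  mz,
  ⟨⟨-9, 8, -59, 52, -5, -36, -8, -40, -23⟩, (.cons (nat_lit 17) (nat_lit 41) (nat_lit 8) (nat_lit 1) (.cons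
 (nat_lit 2549) (nat_lit 711) (nat_lit 610) (nat_lit 1) .nil)), (nat_lit 25), (nat_lit 3), (nat_lit 18),
 (nat_lit 1), (2, 12, 43), [30, 1425], 11⟩,
  ⟨⟨-1, 48, 37, 52, -5, -16, 8, 40, -31⟩, (.cons (nat_lit 5) (nat_lit 25) (nat_lit 41) (nat_lit 1) (.cons
 (nat_lit 1052) (nat_lit 1760) (nat_lit 1147) (nat_lit 1) .nil)), (nat_lit 31), (nat_lit 38), (nat_lit 10),
 (nat_lit 1), (26, 26, 4), [36, 2003], 36⟩,
  ⟨⟨39, 28, -56, -10, -33, -40, -18, 36, -19⟩, (.cons (nat_lit 18) (nat_lit 47) (nat_lit 36) (nat_lit 1) (.cons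
 (nat_lit 1911) (nat_lit 2057) (nat_lit 52) (nat_lit 1) .nil)), (nat_lit 29), (nat_lit 40), (nat_lit 8),
 (nat_lit 1), (34, 47, 21), [17, 1689], 14⟩,
  ⟨⟨15, -56, -11, -28, -5, -36, 40, -8, -47⟩, (.cons (nat_lit 33) (nat_lit 37) (nat_lit 5) (nat_lit 1) (.cons
 (nat_lit 20) (nat_lit 996) (nat_lit 2522) (nat_lit 1) .nil)), (nat_lit 31), (nat_lit 7), (nat_lit 42),
 (nat_lit 1), (31, 34, 12), [29, 2163], 36⟩,
  ⟨⟨1, 48, 36, 52, 5, -36, -8, 40, -23⟩, (.cons (nat_lit 25) (nat_lit 4) (nat_lit 46) (nat_lit 1) (.cons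
 (nat_lit 390) (nat_lit 1720) (nat_lit 1335) (nat_lit 1) .nil)), (nat_lit 33), (nat_lit 1), (nat_lit 32),
 (nat_lit 1), (38, 15, 14), [1, 1952], 10⟩,
  ⟨⟨31, 48, -4, 10, -17, 50, 46, -4, -35⟩, (.cons (nat_lit 12) (nat_lit 18) (nat_lit 8) (nat_lit 1) (.cons
 (nat_lit 1334) (nat_lit 2711) (nat_lit 2029) (nat_lit 1) .nil)), (nat_lit 27), (nat_lit 1), (nat_lit 40),
 (nat_lit 1), (15, 51, 12), [11, 737], 42⟩,
  ⟨⟨-57, 4, 40, -8, -45, -26, -24, 24, -25⟩, (.cons (nat_lit 15) (nat_lit 2) (nat_lit 1) (nat_lit 21) (.cons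
 (nat_lit 482) (nat_lit 1179) (nat_lit 1885) (nat_lit 1) .nil)), (nat_lit 39), (nat_lit 1), (nat_lit 17),
 (nat_lit 1), (25, 50, 44), [22, 14], 38⟩,
  ⟨⟨15, 32, 44, 50, -17, -30, 14, 44, -19⟩, (.cons (nat_lit 45) (nat_lit 23) (nat_lit 32) (nat_lit 1) (.cons
 (nat_lit 2239) (nat_lit 416) (nat_lit 2194) (nat_lit 1) .nil)), (nat_lit 8), (nat_lit 35), (nat_lit 24),
 (nat_lit 1), (27, 37, 4), [29, 2460], 22⟩,
  ⟨⟨1, 12, -64, 50, 17, -20, -14, 44, -5⟩, (.cons (nat_lit 25) (nat_lit 6) (nat_lit 37) (nat_lit 1) (.cons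
 (nat_lit 2794) (nat_lit 969) (nat_lit 2176) (nat_lit 1) .nil)), (nat_lit 15), (nat_lit 37), (nat_lit 1),
 (nat_lit 1), (42, 33, 48), [4, 1809], 5⟩,
  mz,
  ⟨⟨43, 12, 20, 30, 17, -60, 30, -36, -7⟩, (.cons (nat_lit 48) (nat_lit 5) (nat_lit 24) (nat_lit 1) (.cons
 (nat_lit 1953) (nat_lit 876) (nat_lit 410) (nat_lit 1) .nil)), (nat_lit 42), (nat_lit 18), (nat_lit 32),
 (nat_lit 1), (23, 37, 37), [43, 464], 8⟩,
  ⟨⟨-15, -32, 59, 50, -17, -20, -14, -44, -5⟩, (.cons (nat_lit 2) (nat_lit 19) (nat_lit 30) (nat_lit 1) (.cons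
 (nat_lit 2375) (nat_lit 609) (nat_lit 1128) (nat_lit 1) .nil)), (nat_lit 16), (nat_lit 28), (nat_lit 17),
 (nat_lit 1), (8, 44, 11), [18, 1990], 42⟩,
  ⟨⟨15, -52, 16, 10, -17, -60, 46, -4, -11⟩, (.cons (nat_lit 2) (nat_lit 37) (nat_lit 24) (nat_lit 1) (.cons
 (nat_lit 1105) (nat_lit 1901) (nat_lit 1002) (nat_lit 1) .nil)), (nat_lit 23), (nat_lit 9), (nat_lit 20),
 (nat_lit 1), (14, 27, 50), [33, 805], 21⟩,
  ⟨⟨-39, -28, -17, 10, 33, -50, 18, -36, -37⟩, (.cons (nat_lit 36) (nat_lit 46) (nat_lit 17) (nat_lit 1) (.cons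
 (nat_lit 1333) (nat_lit 1082) (nat_lit 2453) (nat_lit 1) .nil)), (nat_lit 1), (nat_lit 9), (nat_lit 14),
 (nat_lit 1), (5, 49, 14), [5, 1692], 40⟩,
  ⟨⟨39, -28, -56, 10, -33, 40, -18, -36, -19⟩, (.cons (nat_lit 30) (nat_lit 11) (nat_lit 47) (nat_lit 1) (.cons
 (nat_lit 1636) (nat_lit 2451) (nat_lit 481) (nat_lit 1) .nil)), (nat_lit 3), (nat_lit 9), (nat_lit 19),
 (nat_lit 1), (49, 18, 10), [12, 2485], 40⟩,
  mz,
  ⟨⟨43, 12, -63, -30, -17, -30, 30, -36, -23⟩, (.cons (nat_lit 22) (nat_lit 29) (nat_lit 41) (nat_lit 1) (.cons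
 (nat_lit 2374) (nat_lit 2513) (nat_lit 1923) (nat_lit 1) .nil)), (nat_lit 1), (nat_lit 31), (nat_lit 5),
 (nat_lit 1), (2, 6, 47), [13, 1454], 35⟩]

/-- Moves. -/
noncomputable def t1_3 : List Mv := [
  mz,
  mz,
  mz,
  mz,
  ⟨⟨51, 20, -47, 10, -47, -30, -2, 20, -47⟩, (.cons (nat_lit 0) (nat_lit 11) (nat_lit 16) (nat_lit 1) (.cons
 (nat_lit 649) (nat_lit 549) (nat_lit 1128) (nat_lit 1) .nil)), (nat_lit 9), (nat_lit 5), (nat_lit 42),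
 (nat_lit 1), (24, 39, 24), [31, 2166], 11⟩,
  ⟨⟨51, -20, -47, 10, 47, -30, -2, -20, -47⟩, (.cons (nat_lit 43) (nat_lit 21) (nat_lit 9) (nat_lit 1) (.cons
 (nat_lit 2774) (nat_lit 1863) (nat_lit 2153) (nat_lit 1) .nil)), (nat_lit 1), (nat_lit 34), (nat_lit 26),
 (nat_lit 1), (12, 46, 12), [45, 2631], 15⟩,
  ⟨⟨25, -48, -36, 28, -5, 36, 40, 8, -47⟩, (.cons (nat_lit 11) (nat_lit 47) (nat_lit 3) (nat_lit 1) (.cons
 (nat_lit 414) (nat_lit 2791) (nat_lit 967) (nat_lit 1) .nil)), (nat_lit 18), (nat_lit 4), (nat_lit 8),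
 (nat_lit 1), (37, 16, 38), [30, 1843], 11⟩,
  mz,
  mz,
  ⟨⟨-33, -20, -32, -8, -45, 34, 24, -24, -49⟩, (.cons (nat_lit 21) (nat_lit 26) (nat_lit 13) (nat_lit 1) (.cons
 (nat_lit 1145) (nat_lit 1745) (nat_lit 715) (nat_lit 1) .nil)), (nat_lit 32), (nat_lit 11), (nat_lit 15),
 (nat_lit 1), (35, 39, 42), [43, 2143], 40⟩,
  ⟨⟨-25, 48, -11, 28, -5, -64, -40, -8, -7⟩, (.cons (nat_lit 26) (nat_lit 12) (nat_lit 37) (nat_lit 1) (.cons
 (nat_lit 1455) (nat_lit 2755) (nat_lit 1785) (nat_lit 1) .nil)), (nat_lit 31), (nat_lit 36), (nat_lit 1),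
 (nat_lit 1), (52, 52, 9), [43, 2339], 36⟩,
  ⟨⟨15, -32, 44, 50, 17, -30, 14, -44, -19⟩, (.cons (nat_lit 44) (nat_lit 20) (nat_lit 8) (nat_lit 1) (.cons
 (nat_lit 2249) (nat_lit 1588) (nat_lit 82) (nat_lit 1) .nil)), (nat_lit 23), (nat_lit 29), (nat_lit 24),
 (nat_lit 1), (29, 26, 20), [23, 1562], 22⟩,
  ⟨⟨-51, 20, 4, 10, 47, 20, 2, 20, -49⟩, (.cons (nat_lit 48) (nat_lit 32) (nat_lit 7) (nat_lit 1) (.cons
 (nat_lit 1810) (nat_lit 1913) (nat_lit 2262) (nat_lit 1) .nil)), (nat_lit 42), (nat_lit 42), (nat_lit 24),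
 (nat_lit 1), (48, 28, 48), [31, 464], 15⟩,
  mz,
  mz,
  ⟨⟨-51, -20, 4, 10, -47, 20, 2, -20, -49⟩, (.cons (nat_lit 4) (nat_lit 40) (nat_lit 1) (nat_lit 35) (.cons
 (nat_lit 1733) (nat_lit 806) (nat_lit 1677) (nat_lit 1) .nil)), (nat_lit 19), (nat_lit 34), (nat_lit 24),
 (nat_lit 1), (36, 21, 36), [41, 1609], 15⟩,
  ⟨⟨31, -48, -27, -10, -17, 60, 46, 4, -11⟩, (.cons (nat_lit 38) (nat_lit 32) (nat_lit 4) (nat_lit 1) (.cons
 (nat_lit 812) (nat_lit 2335) (nat_lit 2189) (nat_lit 1) .nil)), (nat_lit 28), (nat_lit 38), (nat_lit 16),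
 (nat_lit 1), (39, 37, 10), [17, 932], 38⟩,
  ⟨⟨31, -48, -4, -10, -17, -50, 46, 4, -35⟩, (.cons (nat_lit 24) (nat_lit 48) (nat_lit 48) (nat_lit 1) (.cons
 (nat_lit 256) (nat_lit 2259) (nat_lit 1541) (nat_lit 1) .nil)), (nat_lit 8), (nat_lit 34), (nat_lit 7),
 (nat_lit 1), (18, 13, 25), [43, 2297], 22⟩,
  ⟨⟨33, -20, -65, -8, 45, -26, -24, -24, -25⟩, (.cons (nat_lit 48) (nat_lit 27) (nat_lit 42) (nat_lit 1) (.cons
 (nat_lit 2371) (nat_lit 843) (nat_lit 1071) (nat_lit 1) .nil)), (nat_lit 42), (nat_lit 23), (nat_lit 1),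
 (nat_lit 1), (7, 24, 19), [32, 1602], 25⟩,
  mz,
  mz,
  ⟨⟨-33, 20, -32, -8, 45, 34, 24, 24, -49⟩, (.cons (nat_lit 15) (nat_lit 0) (nat_lit 24) (nat_lit 1) (.cons
 (nat_lit 1137) (nat_lit 1020) (nat_lit 2007) (nat_lit 1) .nil)), (nat_lit 1), (nat_lit 5), (nat_lit 4),
 (nat_lit 1), (47, 13, 14), [11, 1758], 25⟩,
  ⟨⟨45, 28, -49, 28, -45, -14, 0, 0, -53⟩, (.cons (nat_lit 42) (nat_lit 44) (nat_lit 1) (nat_lit 7) (.cons
 (nat_lit 358) (nat_lit 1201) (nat_lit 2700) (nat_lit 1) .nil)), (nat_lit 42), (nat_lit 21), (nat_lit 13),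
 (nat_lit 1), (24, 22, 0), [20, 2053], 12⟩,
  mz,
  ⟨⟨43, -12, 20, 30, -17, -60, 30, 36, -7⟩, (.cons (nat_lit 23) (nat_lit 37) (nat_lit 13) (nat_lit 1) (.cons
 (nat_lit 2801) (nat_lit 1047) (nat_lit 516) (nat_lit 1) .nil)), (nat_lit 23), (nat_lit 4), (nat_lit 18),
 (nat_lit 1), (37, 48, 48), [30, 1877], 26⟩,
  mz,
  ⟨⟨-25, -48, -11, 28, 5, -64, -40, 8, -7⟩, (.cons (nat_lit 17) (nat_lit 13) (nat_lit 37) (nat_lit 1) (.cons
 (nat_lit 2156) (nat_lit 1920) (nat_lit 1) (nat_lit 1219) .nil)), (nat_lit 10), (nat_lit 31), (nat_lit 17),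
 (nat_lit 1), (2, 2, 35), [43, 171], 10⟩,
  mz,
  ⟨⟨-1, -48, 37, 52, 5, -16, 8, -40, -31⟩, (.cons (nat_lit 26) (nat_lit 9) (nat_lit 10) (nat_lit 1) (.cons
 (nat_lit 2138) (nat_lit 2455) (nat_lit 1434) (nat_lit 1) .nil)), (nat_lit 13), (nat_lit 16), (nat_lit 6),
 (nat_lit 1), (29, 29, 33), [11, 1464], 13⟩,
  ⟨⟨-13, 48, 40, 30, -17, 30, 30, 36, -23⟩, (.cons (nat_lit 48) (nat_lit 30) (nat_lit 46) (nat_lit 1) (.cons
 (nat_lit 1192) (nat_lit 2417) (nat_lit 1399) (nat_lit 1) .nil)), (nat_lit 42), (nat_lit 25), (nat_lit 11),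
 (nat_lit 1), (42, 5, 5), [13, 1845], 35⟩,
  mz,
  ⟨⟨45, -28, -49, 28, 45, -14, 0, 0, -53⟩, (.cons (nat_lit 1) (nat_lit 14) (nat_lit 42) (nat_lit 1) (.cons
 (nat_lit 2384) (nat_lit 372) (nat_lit 1920) (nat_lit 1) .nil)), (nat_lit 1), (nat_lit 33), (nat_lit 41),
 (nat_lit 1), (39, 49, 0), [45, 1179], 18⟩,
  mz,
  ⟨⟨-39, 28, -17, 10, -33, -50, 18, 36, -37⟩, (.cons (nat_lit 31) (nat_lit 26) (nat_lit 27) (nat_lit 1) (.cons
 (nat_lit 1444) (nat_lit 968) (nat_lit 1303) (nat_lit 1) .nil)), (nat_lit 14), (nat_lit 40), (nat_lit 35),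
 (nat_lit 1), (43, 8, 25), [38, 1428], 14⟩,
  mz,
  mz,
  ⟨⟨-9, 8, -59, -52, 5, 36, -8, -40, -23⟩, (.cons (nat_lit 26) (nat_lit 5) (nat_lit 18) (nat_lit 1) (.cons
 (nat_lit 55) (nat_lit 1144) (nat_lit 2487) (nat_lit 1) .nil)), (nat_lit 13), (nat_lit 27), (nat_lit 37),
 (nat_lit 1), (2, 41, 43), [11, 2365], 13⟩,
  ⟨⟨-1, 48, 37, 52, -5, -16, 8, 40, -31⟩, (.cons (nat_lit 5) (nat_lit 25) (nat_lit 41) (nat_lit 1) (.cons
 (nat_lit 1052) (nat_lit 1760) (nat_lit 1147) (nat_lit 1) .nil)), (nat_lit 31), (nat_lit 38), (nat_lit 10),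
 (nat_lit 1), (26, 26, 4), [36, 2003], 36⟩,
  ⟨⟨-57, 8, 37, -10, -33, -40, -18, 36, -19⟩, (.cons (nat_lit 10) (nat_lit 44) (nat_lit 43) (nat_lit 1) (.cons
 (nat_lit 1745) (nat_lit 2058) (nat_lit 1273) (nat_lit 1) .nil)), (nat_lit 14), (nat_lit 3), (nat_lit 8),
 (nat_lit 1), (40, 47, 21), [31, 101], 14⟩,
  ⟨⟨25, 48, -36, 28, 5, 36, 40, -8, -47⟩, (.cons (nat_lit 2) (nat_lit 41) (nat_lit 6) (nat_lit 1) (.cons
 (nat_lit 1869) (nat_lit 804) (nat_lit 321) (nat_lit 1) .nil)), (nat_lit 30), (nat_lit 13), (nat_lit 29),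
 (nat_lit 1), (34, 19, 12), [4, 2213], 13⟩,
  ⟨⟨-9, -8, -59, -52, -5, 36, -8, 40, -23⟩, (.cons (nat_lit 5) (nat_lit 38) (nat_lit 36) (nat_lit 1) (.cons
 (nat_lit 1721) (nat_lit 135) (nat_lit 1964) (nat_lit 1) .nil)), (nat_lit 31), (nat_lit 5), (nat_lit 33),
 (nat_lit 1), (29, 38, 14), [36, 627], 36⟩,
  ⟨⟨31, 48, -4, -10, 17, -50, 46, -4, -35⟩, (.cons (nat_lit 39) (nat_lit 4) (nat_lit 31) (nat_lit 1) (.cons
 (nat_lit 1055) (nat_lit 332) (nat_lit 1604) (nat_lit 1) .nil)), (nat_lit 15), (nat_lit 38), (nat_lit 27),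
 (nat_lit 1), (15, 2, 12), [46, 572], 5⟩,
  ⟨⟨33, 20, -65, -8, -45, -26, -24, 24, -25⟩, (.cons (nat_lit 48) (nat_lit 33) (nat_lit 1) (nat_lit 7) (.cons
 (nat_lit 1583) (nat_lit 1834) (nat_lit 1887) (nat_lit 1) .nil)), (nat_lit 4), (nat_lit 42), (nat_lit 17),
 (nat_lit 1), (19, 50, 44), [36, 1513], 38⟩,
  ⟨⟨15, 32, 44, 50, -17, -30, 14, 44, -19⟩, (.cons (nat_lit 45) (nat_lit 23) (nat_lit 32) (nat_lit 1) (.cons
 (nat_lit 2239) (nat_lit 416) (nat_lit 2194) (nat_lit 1) .nil)), (nat_lit 8), (nat_lit 35), (nat_lit 24),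
 (nat_lit 1), (27, 37, 4), [29, 2460], 22⟩,
  ⟨⟨-15, 32, 59, 50, 17, -20, -14, 44, -5⟩, (.cons (nat_lit 45) (nat_lit 8) (nat_lit 44) (nat_lit 1) (.cons
 (nat_lit 891) (nat_lit 482) (nat_lit 2029) (nat_lit 1) .nil)), (nat_lit 28), (nat_lit 6), (nat_lit 1),
 (nat_lit 1), (6, 33, 48), [46, 445], 5⟩,
  mz,
  ⟨⟨43, 12, 20, 30, 17, -60, 30, -36, -7⟩, (.cons (nat_lit 48) (nat_lit 5) (nat_lit 24) (nat_lit 1) (.cons
 (nat_lit 1953) (nat_lit 876) (nat_lit 410) (nat_lit 1) .nil)), (nat_lit 42), (nat_lit 18), (nat_lit 32),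
 (nat_lit 1), (23, 37, 37), [43, 464], 8⟩,
  ⟨⟨-15, -32, 59, 50, -17, -20, -14, -44, -5⟩, (.cons (nat_lit 2) (nat_lit 19) (nat_lit 30) (nat_lit 1) (.cons
 (nat_lit 2375) (nat_lit 609) (nat_lit 1128) (nat_lit 1) .nil)), (nat_lit 16), (nat_lit 28), (nat_lit 17),
 (nat_lit 1), (8, 44, 11), [18, 1990], 42⟩,
  ⟨⟨31, 48, -27, -10, 17, 60, 46, -4, -11⟩, (.cons (nat_lit 18) (nat_lit 41) (nat_lit 15) (nat_lit 1) (.cons
 (nat_lit 1436) (nat_lit 2808) (nat_lit 92) (nat_lit 1) .nil)), (nat_lit 35), (nat_lit 34), (nat_lit 36),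
 (nat_lit 1), (36, 26, 50), [13, 1528], 21⟩,
  ⟨⟨-39, -28, -17, 10, 33, -50, 18, -36, -37⟩, (.cons (nat_lit 36) (nat_lit 46) (nat_lit 17) (nat_lit 1) (.cons
 (nat_lit 1333) (nat_lit 1082) (nat_lit 2453) (nat_lit 1) .nil)), (nat_lit 1), (nat_lit 9), (nat_lit 14),
 (nat_lit 1), (5, 49, 14), [5, 1692], 40⟩,
  ⟨⟨-57, -8, 37, -10, 33, -40, -18, -36, -19⟩, (.cons (nat_lit 15) (nat_lit 45) (nat_lit 39) (nat_lit 1) (.cons
 (nat_lit 2538) (nat_lit 449) (nat_lit 929) (nat_lit 1) .nil)), (nat_lit 1), (nat_lit 34), (nat_lit 29),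
 (nat_lit 1), (14, 35, 10), [47, 1149], 40⟩,
  mz,
  ⟨⟨-13, -48, 40, 30, 17, 30, 30, -36, -23⟩, (.cons (nat_lit 30) (nat_lit 19) (nat_lit 29) (nat_lit 1) (.cons
 (nat_lit 2662) (nat_lit 2301) (nat_lit 1086) (nat_lit 1) .nil)), (nat_lit 23), (nat_lit 39), (nat_lit 25),
 (nat_lit 1), (45, 47, 47), [26, 1832], 17⟩]

/-- Moves. -/
noncomputable def t4_1 : List Mv := [
  mz,
  ⟨⟨3, 44, -20, 2, 15, 44, 36, 12, -25⟩, (.cons (nat_lit 14) (nat_lit 5) (nat_lit 25) (nat_lit 1) (.cons (nat_lit 328) (nat_lit 1205) (nat_lit 2690) (nat_lit 1) .nil)), (nat_lit 22), (nat_lit 0), (nat_lit 0), (nat_lit 0), (36, 24, 2), [29, 289], 0⟩,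
  mz,
  mz,
  ⟨⟨19, 36, -36, -20, -13, -30, 34, -8, -35⟩, (.cons (nat_lit 5) (nat_lit 30) (nat_lit 46) (nat_lit 1) (.cons
 (nat_lit 1618) (nat_lit 1200) (nat_lit 290) (nat_lit 1) .nil)), (nat_lit 18), (nat_lit 0), (nat_lit 0),
 (nat_lit 0), (14, 26, 16), [31, 1108], 0⟩,
  ⟨⟨33, -32, -28, 2, 15, -46, 36, 12, -11⟩, (.cons (nat_lit 12) (nat_lit 28) (nat_lit 27) (nat_lit 1) (.cons
 (nat_lit 2504) (nat_lit 143) (nat_lit 2487) (nat_lit 1) .nil)), (nat_lit 21), (nat_lit 0), (nat_lit 0),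
 (nat_lit 0), (19, 22, 9), [5, 563], 0⟩,
  ⟨⟨-37, -24, 0, -20, 37, 0, 2, -8, -43⟩, (.cons (nat_lit 48) (nat_lit 1) (nat_lit 26) (nat_lit 1) (.cons (nat_lit 2808) (nat_lit 2428) (nat_lit 2265) (nat_lit 1) .nil)), (nat_lit 6), (nat_lit 0), (nat_lit 0), (nat_lit 0), (12, 3, 4), [15, 562], 0⟩,
  ⟨⟨-3, -32, 40, -20, -27, -20, 30, -24, -13⟩, (.cons (nat_lit 48) (nat_lit 24) (nat_lit 1) (nat_lit 1) (.cons
 (nat_lit 2808) (nat_lit 1470) (nat_lit 1098) (nat_lit 1) .nil)), (nat_lit 7), (nat_lit 0), (nat_lit 0),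
 (nat_lit 0), (1, 21, 33), [3, 149], 0⟩,
  ⟨⟨37, 24, -37, -20, 37, 20, -2, 8, -41⟩, (.cons (nat_lit 8) (nat_lit 32) (nat_lit 18) (nat_lit 1) (.cons
 (nat_lit 1398) (nat_lit 1136) (nat_lit 527) (nat_lit 1) .nil)), (nat_lit 35), (nat_lit 0), (nat_lit 0),
 (nat_lit 0), (34, 13, 40), [22, 95], 0⟩,
  ⟨⟨-29, 0, -27, 0, -43, 0, 18, 0, -47⟩, (.cons (nat_lit 22) (nat_lit 20) (nat_lit 45) (nat_lit 1) (.cons (nat_lit 680) (nat_lit 577) (nat_lit 864) (nat_lit 1) .nil)), (nat_lit 34), (nat_lit 0), (nat_lit 0), (nat_lit 0), (33, 0, 24), [24, 75], 0⟩,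
  ⟨⟨21, -20, 31, 38, 15, -34, 12, -36, -13⟩, (.cons (nat_lit 28) (nat_lit 13) (nat_lit 34) (nat_lit 1) (.cons
 (nat_lit 2466) (nat_lit 1676) (nat_lit 970) (nat_lit 1) .nil)), (nat_lit 38), (nat_lit 0), (nat_lit 0),
 (nat_lit 0), (8, 37, 23), [15, 1890], 0⟩,
  mz,
  ⟨⟨-15, 44, 16, 20, 13, -50, -34, 8, -1⟩, (.cons (nat_lit 2) (nat_lit 18) (nat_lit 27) (nat_lit 1) (.cons
 (nat_lit 1850) (nat_lit 77) (nat_lit 2449) (nat_lit 1) .nil)), (nat_lit 25), (nat_lit 0), (nat_lit 0),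
 (nat_lit 0), (28, 20, 9), [13, 1842], 0⟩,
  ⟨⟨-3, -32, -37, 20, 27, -40, 30, -24, -17⟩, (.cons (nat_lit 22) (nat_lit 19) (nat_lit 47) (nat_lit 1) (.cons
 (nat_lit 2533) (nat_lit 395) (nat_lit 272) (nat_lit 1) .nil)), (nat_lit 30), (nat_lit 0), (nat_lit 0),
 (nat_lit 0), (27, 35, 31), [32, 253], 0⟩,
  mz,
  mz,
  mz,
  ⟨⟨9, -4, -56, 40, -13, -10, 14, 32, -25⟩, (.cons (nat_lit 33) (nat_lit 15) (nat_lit 1) (nat_lit 1) (.cons
 (nat_lit 1194) (nat_lit 2634) (nat_lit 1941) (nat_lit 1) .nil)), (nat_lit 12), (nat_lit 0), (nat_lit 0),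
 (nat_lit 0), (19, 8, 20), [10, 2804], 0⟩,
  ⟨⟨-9, 4, -47, 40, -13, -30, -14, -32, -11⟩, (.cons (nat_lit 11) (nat_lit 20) (nat_lit 23) (nat_lit 1) (.cons
 (nat_lit 1235) (nat_lit 282) (nat_lit 2431) (nat_lit 1) .nil)), (nat_lit 39), (nat_lit 0), (nat_lit 0),
 (nat_lit 0), (37, 41, 5), [48, 1883], 0⟩,
  mz,
  mz,
  ⟨⟨21, 20, 31, 38, -15, -34, 12, 36, -13⟩, (.cons (nat_lit 18) (nat_lit 7) (nat_lit 38) (nat_lit 1) (.cons
 (nat_lit 2743) (nat_lit 1293) (nat_lit 1985) (nat_lit 1) .nil)), (nat_lit 38), (nat_lit 0), (nat_lit 0),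
 (nat_lit 0), (12, 34, 13), [18, 1566], 0⟩,
  ⟨⟨-21, 20, 52, 38, 15, -4, -12, 36, -1⟩, (.cons (nat_lit 47) (nat_lit 10) (nat_lit 1) (nat_lit 21) (.cons (nat_lit 334) (nat_lit 2026) (nat_lit 420) (nat_lit 1) .nil)), (nat_lit 1), (nat_lit 0), (nat_lit 0), (nat_lit 0), (12, 9, 13), [18, 791], 0⟩,
  mz,
  mz,
  ⟨⟨5, -36, 31, 40, 13, -10, 14, -32, -25⟩, (.cons (nat_lit 17) (nat_lit 2) (nat_lit 25) (nat_lit 1) (.cons
 (nat_lit 1320) (nat_lit 1278) (nat_lit 1913) (nat_lit 1) .nil)), (nat_lit 31), (nat_lit 0), (nat_lit 0),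
 (nat_lit 0), (11, 2, 5), [47, 2406], 0⟩,
  ⟨⟨-5, 36, 36, 40, 13, -30, -14, 32, -11⟩, (.cons (nat_lit 37) (nat_lit 12) (nat_lit 44) (nat_lit 1) (.cons
 (nat_lit 1108) (nat_lit 2255) (nat_lit 1367) (nat_lit 1) .nil)), (nat_lit 4), (nat_lit 0), (nat_lit 0),
 (nat_lit 0), (1, 35, 20), [6, 2637], 0⟩,
  mz,
  mz,
  mz,
  ⟨⟨33, -8, -53, 20, -27, 20, 30, 24, -13⟩, (.cons (nat_lit 29) (nat_lit 37) (nat_lit 9) (nat_lit 1) (.cons
 (nat_lit 1720) (nat_lit 378) (nat_lit 1263) (nat_lit 1) .nil)), (nat_lit 13), (nat_lit 0), (nat_lit 0),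
 (nat_lit 0), (39, 8, 12), [38, 2513], 0⟩,
  ⟨⟨15, 44, 1, -20, 13, -30, 34, 8, -35⟩, (.cons (nat_lit 26) (nat_lit 46) (nat_lit 36) (nat_lit 1) (.cons
 (nat_lit 2194) (nat_lit 2259) (nat_lit 2333) (nat_lit 1) .nil)), (nat_lit 25), (nat_lit 0), (nat_lit 0),
 (nat_lit 0), (28, 20, 9), [20, 92], 0⟩,
  mz,
  ⟨⟨-21, -20, 52, 38, -15, -4, -12, -36, -1⟩, (.cons (nat_lit 19) (nat_lit 5) (nat_lit 0) (nat_lit 1) (.cons
 (nat_lit 1762) (nat_lit 1141) (nat_lit 1456) (nat_lit 1) .nil)), (nat_lit 1), (nat_lit 0), (nat_lit 0),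
 (nat_lit 0), (8, 6, 23), [16, 126], 0⟩,
  ⟨⟨29, 0, -56, 0, -43, 0, -18, 0, -29⟩, (.cons (nat_lit 48) (nat_lit 6) (nat_lit 39) (nat_lit 1) (.cons (nat_lit 2808) (nat_lit 2009) (nat_lit 907) (nat_lit 1) .nil)), (nat_lit 34), (nat_lit 0), (nat_lit 0), (nat_lit 0), (33, 0, 24), [38, 1194], 0⟩,
  ⟨⟨39, -16, -43, 20, 37, 0, 2, 8, -43⟩, (.cons (nat_lit 43) (nat_lit 45) (nat_lit 10) (nat_lit 1) (.cons (nat_lit 432) (nat_lit 823) (nat_lit 2674) (nat_lit 1) .nil)), (nat_lit 8), (nat_lit 0), (nat_lit 0), (nat_lit 0), (6, 13, 40), [8, 1681], 0⟩,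
  ⟨⟨33, -8, 20, 20, -27, -40, 30, 24, -17⟩, (.cons (nat_lit 10) (nat_lit 4) (nat_lit 12) (nat_lit 1) (.cons
 (nat_lit 100) (nat_lit 1022) (nat_lit 2104) (nat_lit 1) .nil)), (nat_lit 13), (nat_lit 0), (nat_lit 0),
 (nat_lit 0), (11, 21, 10), [32, 151], 0⟩,
  ⟨⟨37, -24, -37, 20, 37, -20, -2, -8, -41⟩, (.cons (nat_lit 36) (nat_lit 22) (nat_lit 2) (nat_lit 1) (.cons (nat_lit 2087) (nat_lit 2406) (nat_lit 769) (nat_lit 1) .nil)), (nat_lit 6), (nat_lit 0), (nat_lit 0), (nat_lit 0), (12, 3, 4), [1, 42], 0⟩,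
  ⟨⟨33, 32, -5, 2, -15, 44, 36, -12, -25⟩, (.cons (nat_lit 30) (nat_lit 35) (nat_lit 36) (nat_lit 1) (.cons
 (nat_lit 1064) (nat_lit 658) (nat_lit 328) (nat_lit 1) .nil)), (nat_lit 21), (nat_lit 0), (nat_lit 0),
 (nat_lit 0), (24, 21, 34), [30, 1312], 0⟩,
  ⟨⟨-19, 36, -17, 20, -13, -50, -34, -8, -1⟩, (.cons (nat_lit 9) (nat_lit 16) (nat_lit 38) (nat_lit 1) (.cons
 (nat_lit 116) (nat_lit 996) (nat_lit 1713) (nat_lit 1) .nil)), (nat_lit 18), (nat_lit 0), (nat_lit 0),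
 (nat_lit 0), (14, 26, 16), [17, 468], 0⟩,
  mz,
  mz,
  ⟨⟨3, -44, 17, 2, -15, -46, 36, -12, -11⟩, (.cons (nat_lit 0) (nat_lit 26) (nat_lit 10) (nat_lit 1) (.cons
 (nat_lit 2360) (nat_lit 312) (nat_lit 1131) (nat_lit 1) .nil)), (nat_lit 22), (nat_lit 0), (nat_lit 0),
 (nat_lit 0), (7, 19, 41), [41, 1078], 0⟩]

/-- Moves. -/
noncomputable def t4_3 : List Mv := [
  mz,
  ⟨⟨3, 44, -20, -2, -15, -44, 36, 12, -25⟩, (.cons (nat_lit 31) (nat_lit 41) (nat_lit 0) (nat_lit 1) (.cons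
 (nat_lit 2699) (nat_lit 1914) (nat_lit 47) (nat_lit 1) .nil)), (nat_lit 33), (nat_lit 0), (nat_lit 0),
 (nat_lit 0), (36, 19, 2), [39, 2122], 0⟩,
  mz,
  mz,
  ⟨⟨15, -44, 1, -20, -13, -30, 34, -8, -35⟩, (.cons (nat_lit 9) (nat_lit 12) (nat_lit 18) (nat_lit 1) (.cons
 (nat_lit 1697) (nat_lit 862) (nat_lit 1632) (nat_lit 1) .nil)), (nat_lit 25), (nat_lit 0), (nat_lit 0),
 (nat_lit 0), (2, 26, 16), [17, 40], 0⟩,
  ⟨⟨33, -32, -28, 2, 15, -46, 36, 12, -11⟩, (.cons (nat_lit 12) (nat_lit 28) (nat_lit 27) (nat_lit 1) (.cons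
 (nat_lit 2504) (nat_lit 143) (nat_lit 2487) (nat_lit 1) .nil)), (nat_lit 21), (nat_lit 0), (nat_lit 0),
 (nat_lit 0), (19, 22, 9), [5, 563], 0⟩,
  ⟨⟨39, 16, -43, -20, 37, 0, 2, -8, -43⟩, (.cons (nat_lit 15) (nat_lit 13) (nat_lit 19) (nat_lit 1) (.cons
 (nat_lit 1280) (nat_lit 1793) (nat_lit 1639) (nat_lit 1) .nil)), (nat_lit 37), (nat_lit 0), (nat_lit 0),
 (nat_lit 0), (35, 3, 4), [29, 727], 0⟩,
  ⟨⟨33, 8, -53, -20, -27, -20, 30, -24, -13⟩, (.cons (nat_lit 43) (nat_lit 32) (nat_lit 29) (nat_lit 1) (.cons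
 (nat_lit 289) (nat_lit 2713) (nat_lit 370) (nat_lit 1) .nil)), (nat_lit 36), (nat_lit 0), (nat_lit 0),
 (nat_lit 0), (32, 21, 33), [31, 2354], 0⟩,
  ⟨⟨-39, -16, -4, 20, -37, -20, -2, 8, -41⟩, (.cons (nat_lit 26) (nat_lit 17) (nat_lit 16) (nat_lit 1) (.cons
 (nat_lit 801) (nat_lit 1111) (nat_lit 441) (nat_lit 1) .nil)), (nat_lit 37), (nat_lit 0), (nat_lit 0),
 (nat_lit 0), (6, 30, 40), [43, 2467], 0⟩,
  ⟨⟨-29, 0, -27, 0, -43, 0, 18, 0, -47⟩, (.cons (nat_lit 22) (nat_lit 20) (nat_lit 45) (nat_lit 1) (.cons (nat_lit 680) (nat_lit 577) (nat_lit 864) (nat_lit 1) .nil)), (nat_lit 34), (nat_lit 0), (nat_lit 0), (nat_lit 0), (33, 0, 24), [24, 75], 0⟩,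
  ⟨⟨-9, -16, -44, 38, 15, -34, 12, -36, -13⟩, (.cons (nat_lit 0) (nat_lit 1) (nat_lit 41) (nat_lit 1) (.cons
 (nat_lit 2448) (nat_lit 1257) (nat_lit 214) (nat_lit 1) .nil)), (nat_lit 5), (nat_lit 0), (nat_lit 0),
 (nat_lit 0), (15, 37, 23), [1, 1879], 0⟩,
  mz,
  ⟨⟨-15, 44, 16, -20, -13, 50, -34, 8, -1⟩, (.cons (nat_lit 3) (nat_lit 4) (nat_lit 46) (nat_lit 1) (.cons
 (nat_lit 407) (nat_lit 1000) (nat_lit 2151) (nat_lit 1) .nil)), (nat_lit 17), (nat_lit 0), (nat_lit 0),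
 (nat_lit 0), (28, 23, 9), [41, 410], 0⟩,
  ⟨⟨33, 8, 20, 20, 27, -40, 30, -24, -17⟩, (.cons (nat_lit 48) (nat_lit 23) (nat_lit 19) (nat_lit 1) (.cons
 (nat_lit 2808) (nat_lit 794) (nat_lit 2546) (nat_lit 1) .nil)), (nat_lit 13), (nat_lit 0), (nat_lit 0),
 (nat_lit 0), (4, 35, 31), [18, 1070], 0⟩,
  mz,
  mz,
  mz,
  ⟨⟨5, 36, 31, 40, -13, -10, 14, 32, -25⟩, (.cons (nat_lit 2) (nat_lit 48) (nat_lit 22) (nat_lit 1) (.cons (nat_lit 1547) (nat_lit 888) (nat_lit 2803) (nat_lit 1) .nil)), (nat_lit 31), (nat_lit 0), (nat_lit 0), (nat_lit 0), (1, 8, 20), [3, 680], 0⟩,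
  ⟨⟨-5, -36, 36, 40, -13, -30, -14, -32, -11⟩, (.cons (nat_lit 10) (nat_lit 43) (nat_lit 30) (nat_lit 1) (.cons
 (nat_lit 1467) (nat_lit 843) (nat_lit 1538) (nat_lit 1) .nil)), (nat_lit 4), (nat_lit 0), (nat_lit 0),
 (nat_lit 0), (11, 41, 5), [13, 2265], 0⟩,
  mz,
  mz,
  ⟨⟨-9, 16, -44, 38, -15, -34, 12, 36, -13⟩, (.cons (nat_lit 45) (nat_lit 14) (nat_lit 10) (nat_lit 1) (.cons
 (nat_lit 2063) (nat_lit 2745) (nat_lit 1362) (nat_lit 1) .nil)), (nat_lit 5), (nat_lit 0), (nat_lit 0),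
 (nat_lit 0), (1, 34, 13), [18, 161], 0⟩,
  ⟨⟨9, 16, -53, 38, 15, -4, -12, 36, -1⟩, (.cons (nat_lit 44) (nat_lit 32) (nat_lit 1) (nat_lit 0) (.cons (nat_lit 513) (nat_lit 57) (nat_lit 1260) (nat_lit 1) .nil)), (nat_lit 42), (nat_lit 0), (nat_lit 0), (nat_lit 0), (1, 9, 13), [4, 1582], 0⟩,
  mz,
  mz,
  ⟨⟨5, -36, 31, 40, 13, -10, 14, -32, -25⟩, (.cons (nat_lit 17) (nat_lit 2) (nat_lit 25) (nat_lit 1) (.cons
 (nat_lit 1320) (nat_lit 1278) (nat_lit 1913) (nat_lit 1) .nil)), (nat_lit 31), (nat_lit 0), (nat_lit 0),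
 (nat_lit 0), (11, 2, 5), [47, 2406], 0⟩,
  ⟨⟨-5, 36, 36, 40, 13, -30, -14, 32, -11⟩, (.cons (nat_lit 37) (nat_lit 12) (nat_lit 44) (nat_lit 1) (.cons
 (nat_lit 1108) (nat_lit 2255) (nat_lit 1367) (nat_lit 1) .nil)), (nat_lit 4), (nat_lit 0), (nat_lit 0),
 (nat_lit 0), (1, 35, 20), [6, 2637], 0⟩,
  mz,
  mz,
  mz,
  ⟨⟨33, -8, -53, -20, 27, -20, 30, 24, -13⟩, (.cons (nat_lit 9) (nat_lit 22) (nat_lit 46) (nat_lit 1) (.cons
 (nat_lit 1319) (nat_lit 931) (nat_lit 821) (nat_lit 1) .nil)), (nat_lit 36), (nat_lit 0), (nat_lit 0),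
 (nat_lit 0), (39, 35, 12), [40, 1553], 0⟩,
  ⟨⟨15, 44, 1, -20, 13, -30, 34, 8, -35⟩, (.cons (nat_lit 26) (nat_lit 46) (nat_lit 36) (nat_lit 1) (.cons
 (nat_lit 2194) (nat_lit 2259) (nat_lit 2333) (nat_lit 1) .nil)), (nat_lit 25), (nat_lit 0), (nat_lit 0),
 (nat_lit 0), (28, 20, 9), [20, 92], 0⟩,
  mz,
  ⟨⟨9, -16, -53, 38, -15, -4, -12, -36, -1⟩, (.cons (nat_lit 2) (nat_lit 37) (nat_lit 14) (nat_lit 1) (.cons
 (nat_lit 852) (nat_lit 725) (nat_lit 1443) (nat_lit 1) .nil)), (nat_lit 42), (nat_lit 0), (nat_lit 0),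
 (nat_lit 0), (15, 6, 23), [9, 729], 0⟩,
  ⟨⟨-47, 0, 27, 0, -43, 0, -18, 0, -29⟩, (.cons (nat_lit 29) (nat_lit 8) (nat_lit 18) (nat_lit 1) (.cons (nat_lit 789) (nat_lit 2614) (nat_lit 891) (nat_lit 1) .nil)), (nat_lit 9), (nat_lit 0), (nat_lit 0), (nat_lit 0), (34, 0, 24), [45, 686], 0⟩,
  ⟨⟨39, -16, -43, -20, -37, 0, 2, 8, -43⟩, (.cons (nat_lit 16) (nat_lit 45) (nat_lit 12) (nat_lit 1) (.cons
 (nat_lit 1315) (nat_lit 1097) (nat_lit 1933) (nat_lit 1) .nil)), (nat_lit 37), (nat_lit 0), (nat_lit 0),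
 (nat_lit 0), (6, 30, 40), [8, 1771], 0⟩,
  ⟨⟨33, -8, 20, 20, -27, -40, 30, 24, -17⟩, (.cons (nat_lit 10) (nat_lit 4) (nat_lit 12) (nat_lit 1) (.cons
 (nat_lit 100) (nat_lit 1022) (nat_lit 2104) (nat_lit 1) .nil)), (nat_lit 13), (nat_lit 0), (nat_lit 0),
 (nat_lit 0), (11, 21, 10), [32, 151], 0⟩,
  ⟨⟨-39, 16, -4, 20, 37, -20, -2, -8, -41⟩, (.cons (nat_lit 48) (nat_lit 41) (nat_lit 9) (nat_lit 1) (.cons
 (nat_lit 2808) (nat_lit 731) (nat_lit 2024) (nat_lit 1) .nil)), (nat_lit 37), (nat_lit 0), (nat_lit 0),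
 (nat_lit 0), (35, 3, 4), [15, 606], 0⟩,
  ⟨⟨3, -44, -20, -2, 15, -44, 36, -12, -25⟩, (.cons (nat_lit 27) (nat_lit 20) (nat_lit 1) (nat_lit 21) (.cons
 (nat_lit 909) (nat_lit 1347) (nat_lit 164) (nat_lit 1) .nil)), (nat_lit 33), (nat_lit 0), (nat_lit 0),
 (nat_lit 0), (10, 22, 34), [1, 755], 0⟩,
  ⟨⟨-15, -44, 16, -20, 13, 50, -34, -8, -1⟩, (.cons (nat_lit 46) (nat_lit 6) (nat_lit 29) (nat_lit 1) (.cons
 (nat_lit 47) (nat_lit 804) (nat_lit 2625) (nat_lit 1) .nil)), (nat_lit 17), (nat_lit 0), (nat_lit 0), (nat_lit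
 0), (2, 17, 16), [33, 884], 0⟩,
  mz,
  mz,
  ⟨⟨33, 32, -28, 2, -15, -46, 36, -12, -11⟩, (.cons (nat_lit 14) (nat_lit 16) (nat_lit 17) (nat_lit 1) (.cons
 (nat_lit 2140) (nat_lit 1654) (nat_lit 555) (nat_lit 1) .nil)), (nat_lit 21), (nat_lit 0), (nat_lit 0),
 (nat_lit 0), (34, 19, 41), [20, 1319], 0⟩]

/-- All the moves. -/
noncomputable def tabs : List (List (List Mv)) := [[[], t0_1, [], t0_3], [[], t1_1, [], t1_3], [], [], [[], t4_1, [], t4_3]]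

/-- Subtrie. -/
noncomputable def T1 : Tr := (.ev (nat_lit 20) (nat_lit 68786591344) (.nd (nat_lit 33) (.br (nat_lit 31) (.br
 (nat_lit 16) (.br (nat_lit 10) (.br (nat_lit 6) (.br (nat_lit 5) (.ch (nat_lit 4) (.ev (nat_lit 52) (nat_lit
 4949956108674) (.ev (nat_lit 244) (nat_lit 33554432) (.ev (nat_lit 276) (nat_lit 131072) (.ev (nat_lit 656)
 (nat_lit 8589934592) (.nd (nat_lit 960) (.br (nat_lit 3) (.br (nat_lit 1) (.ch (nat_lit 0) (.ev (nat_lit 976)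
 (nat_lit 1074003968) (.ev (nat_lit 1348) (nat_lit 17179869184) (.ev (nat_lit 1360) (nat_lit 137438953472) (.ev
 (nat_lit 1396) (nat_lit 34359738368) (.ev (nat_lit 1405) (nat_lit 274877906944) .dd)))))) (.ch (nat_lit 1)
 (.ev (nat_lit 976) (nat_lit 188978823168) (.ev (nat_lit 1088) (nat_lit 1073741824) (.ev (nat_lit 1101)
 (nat_lit 274877906944) .dd))))) (.br (nat_lit 6) (.ch (nat_lit 3) (.ev (nat_lit 976) (nat_lit 464930209792)
 (.ev (nat_lit 989) (nat_lit 262144) .dd))) (.ch (nat_lit 6) (.ev (nat_lit 976) (nat_lit 447750340608) (.ev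
 (nat_lit 1104) (nat_lit 17179869184) (.ev (nat_lit 1117) (nat_lit 262144) .dd)))))))))))) (.ch (nat_lit 5)
 (.ev (nat_lit 52) (nat_lit 458487758848) (.ev (nat_lit 180) (nat_lit 17179869184) (.ev (nat_lit 468) (nat_lit
 4194304) (.ev (nat_lit 532) (nat_lit 270336) (.ev (nat_lit 564) (nat_lit 2) (.ev (nat_lit 784) (nat_lit
 549755813888) (.nd (nat_lit 960) (.br (nat_lit 3) (.br (nat_lit 1) (.ch (nat_lit 0) (.ev (nat_lit 976)
 (nat_lit 4398080196736) (.ev (nat_lit 1088) (nat_lit 256) (.ev (nat_lit 1101) (nat_lit 2097152) .dd)))) (.ch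
 (nat_lit 1) (.ev (nat_lit 976) (nat_lit 4398048739712) (.ev (nat_lit 989) (nat_lit 33554432) .dd)))) (.br
 (nat_lit 6) (.ch (nat_lit 3) (.ev (nat_lit 976) (nat_lit 33554688) (.ev (nat_lit 1348) (nat_lit 4398046511104)
 (.ev (nat_lit 1360) (nat_lit 128) (.ev (nat_lit 1396) (nat_lit 131072) (.ev (nat_lit 1405) (nat_lit 2097152)
 .dd)))))) (.ch (nat_lit 6) (.ev (nat_lit 976) (nat_lit 2228608) (.ev (nat_lit 1104) (nat_lit 4398046511104)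
 (.ev (nat_lit 1117) (nat_lit 33554432) .dd))))))))))))))) (.br (nat_lit 9) (.ch (nat_lit 6) (.ev (nat_lit 52)
 (nat_lit 5234527174784) (.ev (nat_lit 640) (nat_lit 262144) (.nd (nat_lit 960) (.br (nat_lit 2) (.ch (nat_lit
 0) (.ev (nat_lit 976) (nat_lit 4194306) (.ev (nat_lit 1056) (nat_lit 17179869184) (.ev (nat_lit 1184) (nat_lit
 8192) (.ev (nat_lit 1264) (nat_lit 256) (.ev (nat_lit 1424) (nat_lit 171798691840) .dd)))))) (.br (nat_lit 6)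
 (.ch (nat_lit 2) (.ev (nat_lit 976) (nat_lit 51539607810) (.ev (nat_lit 1312) (nat_lit 8192) (.ev (nat_lit
 1396) (nat_lit 137438953472) (.ev (nat_lit 1405) (nat_lit 4194304) .dd))))) (.ch (nat_lit 6) (.ev (nat_lit
 976) (nat_lit 171798700288) (.ev (nat_lit 1008) (nat_lit 2) (.ev (nat_lit 1204) (nat_lit 4194304) (.ev
 (nat_lit 1213) (nat_lit 17179869184) .dd))))))))))) (.ch (nat_lit 9) (.ev (nat_lit 52) (nat_lit 4846906384642)
 (.ev (nat_lit 320) (nat_lit 576603816064) .dd))))) (.br (nat_lit 12) (.br (nat_lit 11) (.ch (nat_lit 10) (.ev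
 (nat_lit 52) (nat_lit 5234497953792) (.ev (nat_lit 244) (nat_lit 2) (.ev (nat_lit 436) (nat_lit 131072) (.nd
 (nat_lit 960) (.br (nat_lit 2) (.br (nat_lit 1) (.ch (nat_lit 0) (.ev (nat_lit 976) (nat_lit 189012115840)
 .dd)) (.ch (nat_lit 1) (.ev (nat_lit 976) (nat_lit 51573162112) (.ev (nat_lit 1216) (nat_lit 137438953472)
 (.ev (nat_lit 1229) (nat_lit 256) .dd))))) (.br (nat_lit 3) (.ch (nat_lit 2) (.ev (nat_lit 976) (nat_lit
 51573162240) (.ev (nat_lit 1348) (nat_lit 128) (.ev (nat_lit 1357) (nat_lit 137438953472) .dd)))) (.br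
 (nat_lit 6) (.ch (nat_lit 3) (.ev (nat_lit 976) (nat_lit 137438953472) (.ev (nat_lit 1348) (nat_lit 256) (.ev
 (nat_lit 1456) (nat_lit 34359738368) (.ev (nat_lit 1504) (nat_lit 17213423744) .dd))))) (.ch (nat_lit 6) (.ev
 (nat_lit 976) (nat_lit 171832246656) (.ev (nat_lit 989) (nat_lit 17179869184) .dd))))))))))) (.ch (nat_lit 11)
 (.ev (nat_lit 52) (nat_lit 336116973568) (.ev (nat_lit 148) (nat_lit 8192) (.ev (nat_lit 276) (nat_lit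
 137438953472) (.nd (nat_lit 960) (.br (nat_lit 1) (.ch (nat_lit 0) (.ev (nat_lit 976) (nat_lit 4456834) (.ev
 (nat_lit 1360) (nat_lit 549755813888) (.ev (nat_lit 1472) (nat_lit 4398046511104) (.ev (nat_lit 1485) (nat_lit
 2147483648) .dd))))) (.br (nat_lit 2) (.ch (nat_lit 1) (.ev (nat_lit 976) (nat_lit 4949949808770) (.ev
 (nat_lit 1216) (nat_lit 262144) (.ev (nat_lit 1360) (nat_lit 256) (.ev (nat_lit 1373) (nat_lit 4194304)
 .dd))))) (.ch (nat_lit 2) (.ev (nat_lit 976) (nat_lit 4398050967808) (.ev (nat_lit 1264) (nat_lit 128) (.ev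
 (nat_lit 1440) (nat_lit 551903297538) .dd)))))))))))) (.br (nat_lit 15) (.ch (nat_lit 12) (.ev (nat_lit 52)
 (nat_lit 5137860919298) (.ev (nat_lit 148) (nat_lit 256) (.ev (nat_lit 372) (nat_lit 131072) (.ev (nat_lit
 532) (nat_lit 33554432) (.ev (nat_lit 564) (nat_lit 262144) (.nd (nat_lit 960) (.br (nat_lit 3) (.br (nat_lit
 2) (.ch (nat_lit 1) (.ev (nat_lit 976) (nat_lit 283467849856) (.ev (nat_lit 989) (nat_lit 2147483648) .dd)))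
 (.ch (nat_lit 2) (.ev (nat_lit 1348) (nat_lit 274877906944) (.ev (nat_lit 1396) (nat_lit 2147483776) (.ev
 (nat_lit 1472) (nat_lit 8589942784) .dd))))) (.br (nat_lit 6) (.ch (nat_lit 3) (.ev (nat_lit 976) (nat_lit
 285615333504) .dd)) (.ch (nat_lit 6) (.ev (nat_lit 976) (nat_lit 277025398784) (.ev (nat_lit 1348) (nat_lit
 8589934592) (.ev (nat_lit 1357) (nat_lit 128) .dd))))))))))))) (.ch (nat_lit 15) (.ev (nat_lit 52) (nat_lit
 852551016832) (.ev (nat_lit 244) (nat_lit 34359738368) (.ev (nat_lit 404) (nat_lit 2097152) (.ev (nat_lit 468)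
 (nat_lit 2) (.ev (nat_lit 500) (nat_lit 137438953472) (.nd (nat_lit 960) (.br (nat_lit 2) (.ch (nat_lit 1)
 (.ev (nat_lit 976) (nat_lit 4398080196608) (.ev (nat_lit 1076) (nat_lit 262144) (.ev (nat_lit 1424) (nat_lit
 4194304) (.ev (nat_lit 1437) (nat_lit 1073741824) .dd))))) (.br (nat_lit 3) (.ch (nat_lit 2) (.ev (nat_lit
 976) (nat_lit 4399158394880) .dd)) (.ch (nat_lit 3) (.ev (nat_lit 976) (nat_lit 1078198272) (.ev (nat_lit
 1076) (nat_lit 131072) (.ev (nat_lit 1424) (nat_lit 4398046511104) (.ev (nat_lit 1437) (nat_lit 33554432)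
 .dd))))))))))))))))) (.br (nat_lit 22) (.br (nat_lit 18) (.br (nat_lit 17) (.ch (nat_lit 16) (.ev (nat_lit 52)
 (nat_lit 4554815054210) (.ev (nat_lit 180) (nat_lit 33554432) (.ev (nat_lit 340) (nat_lit 262144) (.ev
 (nat_lit 544) (nat_lit 868661329920) .dd))))) (.ch (nat_lit 17) (.ev (nat_lit 52) (nat_lit 884763533442) (.ev
 (nat_lit 224) (nat_lit 4538746667264) .dd)))) (.br (nat_lit 21) (.ch (nat_lit 18) (.ev (nat_lit 52) (nat_lit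
 4573071016322) (.ev (nat_lit 84) (nat_lit 8589934592) (.ev (nat_lit 148) (nat_lit 2097152) (.ev (nat_lit 404)
 (nat_lit 549755813888) (.nd (nat_lit 960) (.br (nat_lit 2) (.br (nat_lit 1) (.ch (nat_lit 0) (.ev (nat_lit
 976) (nat_lit 274911469568) (.ev (nat_lit 989) (nat_lit 17179869184) .dd))) (.ch (nat_lit 1) (.ev (nat_lit
 976) (nat_lit 292091338752) .dd))) (.br (nat_lit 3) (.ch (nat_lit 2) (.ev (nat_lit 976) (nat_lit 17213423616)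
 (.ev (nat_lit 1348) (nat_lit 274877906944) (.ev (nat_lit 1357) (nat_lit 8192) .dd)))) (.ch (nat_lit 3) (.ev
 (nat_lit 1424) (nat_lit 33554432) (.ev (nat_lit 1472) (nat_lit 292057784320) .dd))))))))))) (.ch (nat_lit 21)
 (.ev (nat_lit 52) (nat_lit 996466368770) (.ev (nat_lit 116) (nat_lit 17179869184) (.ev (nat_lit 212) (nat_lit
 4194304) (.ev (nat_lit 276) (nat_lit 4398046511104) (.ev (nat_lit 500) (nat_lit 8589934592) (.nd (nat_lit 960)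
 (.br (nat_lit 3) (.br (nat_lit 2) (.ch (nat_lit 0) (.ev (nat_lit 976) (nat_lit 1075839104) (.ev (nat_lit 989)
 (nat_lit 2147483648) .dd))) (.ch (nat_lit 2) (.ev (nat_lit 1424) (nat_lit 2097152) (.ev (nat_lit 1472)
 (nat_lit 3221225600) .dd)))) (.br (nat_lit 6) (.ch (nat_lit 3) (.ev (nat_lit 976) (nat_lit 3223322752) .dd))
 (.ch (nat_lit 6) (.ev (nat_lit 976) (nat_lit 2149580800) (.ev (nat_lit 1348) (nat_lit 1073741824) (.ev
 (nat_lit 1357) (nat_lit 128) .dd))))))))))))))) (.br (nat_lit 26) (.br (nat_lit 24) (.ch (nat_lit 22) (.ev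
 (nat_lit 52) (nat_lit 180395311104) (.ev (nat_lit 116) (nat_lit 274877906944) (.ev (nat_lit 180) (nat_lit
 549755813888) (.ev (nat_lit 212) (nat_lit 17179869184) (.ev (nat_lit 404) (nat_lit 8192) (.ev (nat_lit 468)
 (nat_lit 128) (.nd (nat_lit 960) (.br (nat_lit 3) (.ch (nat_lit 2) (.ev (nat_lit 976) (nat_lit 4398080065792)
 (.ev (nat_lit 1204) (nat_lit 2) (.ev (nat_lit 1396) (nat_lit 1073741824) (.ev (nat_lit 1405) (nat_lit
 2147483648) .dd))))) (.br (nat_lit 6) (.ch (nat_lit 3) (.ev (nat_lit 976) (nat_lit 3221225474) (.ev (nat_lit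
 1328) (nat_lit 4398046511104) (.ev (nat_lit 1440) (nat_lit 33554688) .dd)))) (.ch (nat_lit 6) (.ev (nat_lit
 976) (nat_lit 2147483904) (.ev (nat_lit 1056) (nat_lit 2) (.ev (nat_lit 1440) (nat_lit 4399153807360)
 .dd)))))))))))))) (.ch (nat_lit 24) (.ev (nat_lit 52) (nat_lit 595960266754) (.ev (nat_lit 96) (nat_lit
 4827549933952) .dd)))) (.br (nat_lit 28) (.ch (nat_lit 26) (.ev (nat_lit 52) (nat_lit 10741883010) (.ev
 (nat_lit 116) (nat_lit 2097152) (.ev (nat_lit 404) (nat_lit 1073741824) (.ev (nat_lit 468) (nat_lit 256) (.nd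
 (nat_lit 960) (.br (nat_lit 1) (.ch (nat_lit 0) (.ev (nat_lit 976) (nat_lit 687228321792) (.ev (nat_lit 1204)
 (nat_lit 34359738368) (.ev (nat_lit 1248) (nat_lit 274877906944) (.ev (nat_lit 1360) (nat_lit 4398046511104)
 (.ev (nat_lit 1472) (nat_lit 17180000256) .dd)))))) (.br (nat_lit 3) (.ch (nat_lit 1) (.ev (nat_lit 976)
 (nat_lit 4449586249728) (.ev (nat_lit 996) (nat_lit 33554432) (.ev (nat_lit 1008) (nat_lit 549755813888) (.ev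
 (nat_lit 1248) (nat_lit 274877906944) (.ev (nat_lit 1261) (nat_lit 137438953472) .dd)))))) (.ch (nat_lit 3)
 (.ev (nat_lit 976) (nat_lit 876173459456) (.ev (nat_lit 1040) (nat_lit 137438953472) (.ev (nat_lit 1348)
 (nat_lit 4398046511104) (.ev (nat_lit 1357) (nat_lit 33554432) .dd))))))))))))) (.br (nat_lit 29) (.ch
 (nat_lit 28) (.ev (nat_lit 52) (nat_lit 704378962306) (.ev (nat_lit 116) (nat_lit 34359738368) (.ev (nat_lit
 148) (nat_lit 2147483648) (.ev (nat_lit 384) (nat_lit 4682624016384) .dd))))) (.ch (nat_lit 29) (.ev (nat_lit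
 52) (nat_lit 689377902850) (.ev (nat_lit 116) (nat_lit 1073741824) (.ev (nat_lit 212) (nat_lit 128) (.ev
 (nat_lit 244) (nat_lit 8192) (.nd (nat_lit 960) (.br (nat_lit 3) (.ch (nat_lit 2) (.ev (nat_lit 976) (nat_lit
 4690104549376) (.ev (nat_lit 1024) (nat_lit 4194304) (.ev (nat_lit 1264) (nat_lit 34359869440) (.ev (nat_lit
 1277) (nat_lit 8589934592) .dd))))) (.br (nat_lit 6) (.ch (nat_lit 3) (.ev (nat_lit 976) (nat_lit 42953998336)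
 (.ev (nat_lit 1216) (nat_lit 274877906944) (.ev (nat_lit 1328) (nat_lit 262144) (.ev (nat_lit 1408) (nat_lit
 4398046511104) (.ev (nat_lit 1421) (nat_lit 17179869184) .dd)))))) (.ch (nat_lit 6) (.ev (nat_lit 976)
 (nat_lit 4707288350720) (.ev (nat_lit 1360) (nat_lit 17180000256) (.ev (nat_lit 1520) (nat_lit 8590196736)
 .dd))))))))))))))))) (.br (nat_lit 42) (.br (nat_lit 38) (.br (nat_lit 36) (.br (nat_lit 33) (.ch (nat_lit 31)
 (.ev (nat_lit 52) (nat_lit 8629780736) (.ev (nat_lit 84) (nat_lit 131072) (.ev (nat_lit 180) (nat_lit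
 34359738368) (.ev (nat_lit 212) (nat_lit 2) (.ev (nat_lit 244) (nat_lit 274877906944) (.ev (nat_lit 340)
 (nat_lit 8192) (.ev (nat_lit 404) (nat_lit 2147483648) (.ev (nat_lit 628) (nat_lit 137438953472) (.nd (nat_lit
 960) (.br (nat_lit 3) (.ch (nat_lit 0) (.ev (nat_lit 976) (nat_lit 1074004096) (.ev (nat_lit 1328) (nat_lit
 17179869184) (.ev (nat_lit 1440) (nat_lit 4947802324992) .dd)))) (.br (nat_lit 6) (.ch (nat_lit 3) (.ev
 (nat_lit 976) (nat_lit 550829555712) (.ev (nat_lit 1056) (nat_lit 262144) (.ev (nat_lit 1440) (nat_lit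
 4415226380416) .dd)))) (.ch (nat_lit 6) (.ev (nat_lit 976) (nat_lit 4964982194176) (.ev (nat_lit 1204)
 (nat_lit 262144) (.ev (nat_lit 1396) (nat_lit 128) (.ev (nat_lit 1405) (nat_lit 1073741824)
 .dd))))))))))))))))) (.ch (nat_lit 33) (.ev (nat_lit 52) (nat_lit 335043493890) (.ev (nat_lit 180) (nat_lit
 256) (.ev (nat_lit 340) (nat_lit 128) (.ev (nat_lit 512) (nat_lit 5088466706432) .dd)))))) (.br (nat_lit 37)
 (.ch (nat_lit 36) (.ev (nat_lit 52) (nat_lit 4460325765248) (.ev (nat_lit 116) (nat_lit 549755813890) (.ev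
 (nat_lit 148) (nat_lit 274877906944) (.ev (nat_lit 212) (nat_lit 256) (.nd (nat_lit 960) (.br (nat_lit 2) (.br
 (nat_lit 1) (.ch (nat_lit 0) (.ev (nat_lit 976) (nat_lit 138550714368) .dd)) (.ch (nat_lit 1) (.ev (nat_lit
 976) (nat_lit 137472778240) (.ev (nat_lit 1216) (nat_lit 1073741824) (.ev (nat_lit 1229) (nat_lit 4194304)
 .dd))))) (.br (nat_lit 3) (.ch (nat_lit 2) (.ev (nat_lit 976) (nat_lit 38019072) (.ev (nat_lit 1348) (nat_lit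
 137438953472) (.ev (nat_lit 1357) (nat_lit 1073741824) .dd)))) (.br (nat_lit 6) (.ch (nat_lit 3) (.ev (nat_lit
 976) (nat_lit 1073741824) (.ev (nat_lit 1348) (nat_lit 4194304) (.ev (nat_lit 1456) (nat_lit 262144) (.ev
 (nat_lit 1504) (nat_lit 137472516096) .dd))))) (.ch (nat_lit 6) (.ev (nat_lit 976) (nat_lit 138517159936) (.ev
 (nat_lit 989) (nat_lit 33554432) .dd)))))))))))) (.ch (nat_lit 37) (.ev (nat_lit 52) (nat_lit 988952142080)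
 (.ev (nat_lit 212) (nat_lit 2147483648) (.ev (nat_lit 448) (nat_lit 4432410574978) .dd)))))) (.br (nat_lit 40)
 (.br (nat_lit 39) (.ch (nat_lit 38) (.ev (nat_lit 52) (nat_lit 4398084653440) (.ev (nat_lit 84) (nat_lit
 137438953472) (.ev (nat_lit 404) (nat_lit 274877906944) (.ev (nat_lit 768) (nat_lit 1073741824) (.nd (nat_lit
 960) (.br (nat_lit 1) (.ch (nat_lit 0) (.ev (nat_lit 976) (nat_lit 566935683074) (.ev (nat_lit 1204) (nat_lit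
 2147483648) (.ev (nat_lit 1232) (nat_lit 8589934592) (.ev (nat_lit 1348) (nat_lit 34359738368) (.ev (nat_lit
 1456) (nat_lit 8192) (.ev (nat_lit 1469) (nat_lit 2097152) .dd))))))) (.br (nat_lit 3) (.ch (nat_lit 1) (.ev
 (nat_lit 976) (nat_lit 60131647490) (.ev (nat_lit 996) (nat_lit 2147483648) (.ev (nat_lit 1005) (nat_lit
 549755813888) .dd)))) (.ch (nat_lit 3) (.ev (nat_lit 976) (nat_lit 560493240320) (.ev (nat_lit 1232) (nat_lit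
 2) (.ev (nat_lit 1280) (nat_lit 17179869184) (.ev (nat_lit 1312) (nat_lit 34359738368) (.ev (nat_lit 1325)
 (nat_lit 2097152) .dd)))))))))))))) (.ch (nat_lit 39) (.ev (nat_lit 52) (nat_lit 550869540994) (.ev (nat_lit
 160) (nat_lit 4872640659712) .dd)))) (.br (nat_lit 41) (.ch (nat_lit 40) (.ev (nat_lit 52) (nat_lit
 54798852096) (.ev (nat_lit 212) (nat_lit 274877906944) (.ev (nat_lit 308) (nat_lit 4398046511104) (.nd
 (nat_lit 960) (.br (nat_lit 2) (.ch (nat_lit 1) (.ev (nat_lit 976) (nat_lit 8592162946) (.ev (nat_lit 1136)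
 (nat_lit 549755813888) (.ev (nat_lit 1424) (nat_lit 137438953728) .dd)))) (.br (nat_lit 3) (.ch (nat_lit 2)
 (.ev (nat_lit 976) (nat_lit 687196864768) (.ev (nat_lit 1040) (nat_lit 8589934592) (.ev (nat_lit 1376)
 (nat_lit 2) (.ev (nat_lit 1424) (nat_lit 131072) (.ev (nat_lit 1437) (nat_lit 128) .dd)))))) (.ch (nat_lit 3)
 (.ev (nat_lit 976) (nat_lit 695784702210) (.ev (nat_lit 1248) (nat_lit 131200) (.ev (nat_lit 1261) (nat_lit
 2097152) .dd))))))))))) (.ch (nat_lit 41) (.ev (nat_lit 52) (nat_lit 4725541961730) (.ev (nat_lit 116)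
 (nat_lit 128) (.ev (nat_lit 340) (nat_lit 549755813888) (.ev (nat_lit 564) (nat_lit 8192) (.ev (nat_lit 596)
 (nat_lit 8589934592) (.ev (nat_lit 720) (nat_lit 2147483904) (.nd (nat_lit 960) (.br (nat_lit 2) (.ch (nat_lit
 1) (.ev (nat_lit 976) (nat_lit 137441181696) (.ev (nat_lit 996) (nat_lit 33554432) (.ev (nat_lit 1005)
 (nat_lit 262144) .dd)))) (.br (nat_lit 6) (.ch (nat_lit 2) (.ev (nat_lit 976) (nat_lit 33947648) (.ev (nat_lit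
 1504) (nat_lit 137441050624) .dd))) (.ch (nat_lit 6) (.ev (nat_lit 976) (nat_lit 137439215616) (.ev (nat_lit
 1204) (nat_lit 2097152) (.ev (nat_lit 1280) (nat_lit 33554432) (.ev (nat_lit 1293) (nat_lit 131072)
 .dd)))))))))))))))))) (.br (nat_lit 47) (.br (nat_lit 44) (.br (nat_lit 43) (.ch (nat_lit 42) (.ev (nat_lit
 52) (nat_lit 5404176417152) (.ev (nat_lit 148) (nat_lit 4194304) (.ev (nat_lit 532) (nat_lit 2) (.ev (nat_lit
 800) (nat_lit 8192) (.nd (nat_lit 960) (.br (nat_lit 2) (.br (nat_lit 1) (.ch (nat_lit 0) (.ev (nat_lit 976)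
 (nat_lit 17179869184) (.ev (nat_lit 1348) (nat_lit 2147614720) (.ev (nat_lit 1357) (nat_lit 2097152) .dd))))
 (.ch (nat_lit 1) (.ev (nat_lit 976) (nat_lit 17182097408) (.ev (nat_lit 989) (nat_lit 2147483648) .dd)))) (.br
 (nat_lit 6) (.ch (nat_lit 2) (.ev (nat_lit 976) (nat_lit 19329581056) .dd)) (.ch (nat_lit 6) (.ev (nat_lit
 976) (nat_lit 2149580800) (.ev (nat_lit 1440) (nat_lit 17180000256) .dd))))))))))) (.ch (nat_lit 43) (.ev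
 (nat_lit 52) (nat_lit 603480785026) (.ev (nat_lit 308) (nat_lit 137438953472) (.ev (nat_lit 564) (nat_lit
 2097152) (.ev (nat_lit 752) (nat_lit 262144) (.ev (nat_lit 912) (nat_lit 8192) (.nd (nat_lit 960) (.br
 (nat_lit 2) (.ch (nat_lit 0) (.ev (nat_lit 976) (nat_lit 275951649024) (.ev (nat_lit 996) (nat_lit
 4398046511104) (.ev (nat_lit 1005) (nat_lit 8589934592) .dd)))) (.br (nat_lit 3) (.ch (nat_lit 2) (.ev
 (nat_lit 976) (nat_lit 4406636445952) (.ev (nat_lit 1504) (nat_lit 275951648768) .dd))) (.ch (nat_lit 3) (.ev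
 (nat_lit 976) (nat_lit 9663676416) (.ev (nat_lit 1204) (nat_lit 274877906944) (.ev (nat_lit 1280) (nat_lit
 4398046511104) (.ev (nat_lit 1293) (nat_lit 256) .dd))))))))))))))) (.br (nat_lit 46) (.ch (nat_lit 44) (.ev
 (nat_lit 52) (nat_lit 4561257627904) (.ev (nat_lit 340) (nat_lit 2) (.ev (nat_lit 532) (nat_lit 1073741824)
 (.ev (nat_lit 704) (nat_lit 33554432) (.nd (nat_lit 960) (.br (nat_lit 2) (.ch (nat_lit 0) (.ev (nat_lit 976)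
 (nat_lit 34363932800) (.ev (nat_lit 1040) (nat_lit 549755822080) (.ev (nat_lit 1168) (nat_lit 131072) (.ev
 (nat_lit 1408) (nat_lit 277025390592) .dd))))) (.br (nat_lit 6) (.ch (nat_lit 2) (.ev (nat_lit 976) (nat_lit
 277025529984) (.ev (nat_lit 1076) (nat_lit 34359738368) (.ev (nat_lit 1168) (nat_lit 4194304) (.ev (nat_lit
 1181) (nat_lit 549755813888) .dd))))) (.ch (nat_lit 6) (.ev (nat_lit 976) (nat_lit 861140951040) (.ev (nat_lit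
 1204) (nat_lit 4194304) (.ev (nat_lit 1248) (nat_lit 131072) (.ev (nat_lit 1261) (nat_lit 128)
 .dd))))))))))))) (.ch (nat_lit 46) (.ev (nat_lit 52) (nat_lit 5259192041600) (.ev (nat_lit 180) (nat_lit
 2097152) (.ev (nat_lit 212) (nat_lit 8192) (.ev (nat_lit 340) (nat_lit 17179869184) (.nd (nat_lit 960) (.br
 (nat_lit 2) (.br (nat_lit 1) (.ch (nat_lit 0) (.ev (nat_lit 976) (nat_lit 1107296514) (.ev (nat_lit 1120)
 (nat_lit 8589934592) (.ev (nat_lit 1133) (nat_lit 137438953472) .dd)))) (.ch (nat_lit 1) (.ev (nat_lit 976)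
 (nat_lit 147136184320) (.ev (nat_lit 1120) (nat_lit 256) (.ev (nat_lit 1133) (nat_lit 2) .dd))))) (.br
 (nat_lit 6) (.ch (nat_lit 2) (.ev (nat_lit 976) (nat_lit 8623489282) (.ev (nat_lit 1408) (nat_lit 1073741824)
 (.ev (nat_lit 1421) (nat_lit 137438953472) .dd)))) (.ch (nat_lit 6) (.ev (nat_lit 976) (nat_lit 147102630144)
 (.ev (nat_lit 1408) (nat_lit 33554432) (.ev (nat_lit 1421) (nat_lit 2) .dd)))))))))))))) (.br (nat_lit 49)
 (.br (nat_lit 48) (.ch (nat_lit 47) (.ev (nat_lit 52) (nat_lit 706526585088) (.ev (nat_lit 128) (nat_lit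
 4716983615618) .dd))) (.ch (nat_lit 48) (.ev (nat_lit 52) (nat_lit 4828650537216) (.ev (nat_lit 308) (nat_lit
 8589934592) (.ev (nat_lit 596) (nat_lit 131072) (.ev (nat_lit 816) (nat_lit 549755813888) (.nd (nat_lit 960)
 (.br (nat_lit 2) (.ch (nat_lit 1) (.ev (nat_lit 976) (nat_lit 36509327488) (.ev (nat_lit 1076) (nat_lit
 262144) (.ev (nat_lit 1168) (nat_lit 2) (.ev (nat_lit 1181) (nat_lit 4194304) .dd))))) (.br (nat_lit 6) (.ch
 (nat_lit 2) (.ev (nat_lit 976) (nat_lit 262274) (.ev (nat_lit 1040) (nat_lit 34363932672) (.ev (nat_lit 1168)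
 (nat_lit 2097152) (.ev (nat_lit 1408) (nat_lit 2147491840) .dd))))) (.ch (nat_lit 6) (.ev (nat_lit 976)
 (nat_lit 36511686656) (.ev (nat_lit 1204) (nat_lit 2) (.ev (nat_lit 1248) (nat_lit 2097152) (.ev (nat_lit
 1261) (nat_lit 128) .dd)))))))))))))) (.br (nat_lit 50) (.ch (nat_lit 49) (.ev (nat_lit 52) (nat_lit
 292095926274) (.ev (nat_lit 244) (nat_lit 2147483648) (.ev (nat_lit 564) (nat_lit 256) (.ev (nat_lit 848)
 (nat_lit 1073741824) (.nd (nat_lit 960) (.br (nat_lit 3) (.ch (nat_lit 1) (.ev (nat_lit 976) (nat_lit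
 4440998281344) (.ev (nat_lit 1024) (nat_lit 137438953472) (.ev (nat_lit 1037) (nat_lit 549755813888) .dd))))
 (.br (nat_lit 6) (.ch (nat_lit 3) (.ev (nat_lit 976) (nat_lit 695784701952) (.ev (nat_lit 1056) (nat_lit
 4398046511104) (.ev (nat_lit 1152) (nat_lit 2097152) (.ev (nat_lit 1348) (nat_lit 34359738368) (.ev (nat_lit
 1357) (nat_lit 128) .dd)))))) (.ch (nat_lit 6) (.ev (nat_lit 976) (nat_lit 721556602880) (.ev (nat_lit 1348)
 (nat_lit 4398046511104) (.ev (nat_lit 1396) (nat_lit 128) (.ev (nat_lit 1405) (nat_lit 8589934592)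
 .dd))))))))))))) (.br (nat_lit 52) (.ch (nat_lit 50) (.ev (nat_lit 52) (nat_lit 4545185185792) (.ev (nat_lit
 148) (nat_lit 128) (.ev (nat_lit 736) (nat_lit 34359738368) (.nd (nat_lit 960) (.br (nat_lit 2) (.ch (nat_lit
 0) (.ev (nat_lit 976) (nat_lit 294209462274) (.ev (nat_lit 996) (nat_lit 549755813888) (.ev (nat_lit 1005)
 (nat_lit 256) .dd)))) (.br (nat_lit 3) (.ch (nat_lit 2) (.ev (nat_lit 976) (nat_lit 17184063744) (.ev (nat_lit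
 1204) (nat_lit 549755813888) (.ev (nat_lit 1232) (nat_lit 274877906944) (.ev (nat_lit 1348) (nat_lit 2) (.ev
 (nat_lit 1456) (nat_lit 2147483648) (.ev (nat_lit 1469) (nat_lit 8192) .dd))))))) (.ch (nat_lit 3) (.ev
 (nat_lit 976) (nat_lit 826781204736) (.ev (nat_lit 1232) (nat_lit 4194304) (.ev (nat_lit 1280) (nat_lit
 17179869184) (.ev (nat_lit 1312) (nat_lit 2) (.ev (nat_lit 1325) (nat_lit 8192) .dd))))))))))))) (.ch (nat_lit
 52) (.ev (nat_lit 52) (nat_lit 5362267070720) (.ev (nat_lit 192) (nat_lit 61243129986) .dd)))))))))))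

/-- Subtrie. -/
noncomputable def T3 : Tr := (.ev (nat_lit 20) (nat_lit 138580066688) (.nd (nat_lit 33) (.br (nat_lit 31) (.br
 (nat_lit 16) (.br (nat_lit 10) (.br (nat_lit 6) (.br (nat_lit 5) (.ch (nat_lit 4) (.ev (nat_lit 52) (nat_lit
 4949956108882) (.ev (nat_lit 416) (nat_lit 403760616480) .dd))) (.ch (nat_lit 5) (.ev (nat_lit 52) (nat_lit
 388694545968) (.ev (nat_lit 288) (nat_lit 4965022179394) .dd)))) (.br (nat_lit 9) (.ch (nat_lit 6) (.ev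
 (nat_lit 52) (nat_lit 5302172914688) (.ev (nat_lit 212) (nat_lit 2) (.nd (nat_lit 960) (.br (nat_lit 3) (.ch
 (nat_lit 0) (.ev (nat_lit 976) (nat_lit 51539608144) (.ev (nat_lit 1136) (nat_lit 32) (.ev (nat_lit 1424)
 (nat_lit 4202496) .dd)))) (.br (nat_lit 6) (.ch (nat_lit 3) (.ev (nat_lit 976) (nat_lit 17184071712) (.ev
 (nat_lit 1040) (nat_lit 64) (.ev (nat_lit 1376) (nat_lit 16) (.ev (nat_lit 1424) (nat_lit 512) (.ev (nat_lit
 1437) (nat_lit 34359738368) .dd)))))) (.ch (nat_lit 6) (.ev (nat_lit 976) (nat_lit 4202608) (.ev (nat_lit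
 1248) (nat_lit 34359738880) (.ev (nat_lit 1261) (nat_lit 17179869184) .dd)))))))))) (.ch (nat_lit 9) (.ev
 (nat_lit 52) (nat_lit 4778186911810) (.ev (nat_lit 116) (nat_lit 8589934592) (.ev (nat_lit 244) (nat_lit
 549755813888) (.ev (nat_lit 596) (nat_lit 512) (.ev (nat_lit 944) (nat_lit 32) (.nd (nat_lit 960) (.br
 (nat_lit 3) (.br (nat_lit 2) (.ch (nat_lit 0) (.ev (nat_lit 976) (nat_lit 16) (.ev (nat_lit 1348) (nat_lit
 4195328) (.ev (nat_lit 1357) (nat_lit 17179869184) .dd)))) (.ch (nat_lit 2) (.ev (nat_lit 976) (nat_lit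
 17184063488) (.ev (nat_lit 1440) (nat_lit 1040) .dd)))) (.br (nat_lit 5) (.ch (nat_lit 3) (.ev (nat_lit 976)
 (nat_lit 17184064528) .dd)) (.ch (nat_lit 5) (.ev (nat_lit 976) (nat_lit 17179870224) (.ev (nat_lit 989)
 (nat_lit 4194304) .dd)))))))))))))) (.br (nat_lit 12) (.br (nat_lit 11) (.ch (nat_lit 10) (.ev (nat_lit 52)
 (nat_lit 5302143426576) (.ev (nat_lit 116) (nat_lit 64) (.ev (nat_lit 308) (nat_lit 512) (.ev (nat_lit 576)
 (nat_lit 51573298210) .dd))))) (.ch (nat_lit 11) (.ev (nat_lit 52) (nat_lit 335043236432) (.ev (nat_lit 116)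
 (nat_lit 549755813888) (.ev (nat_lit 276) (nat_lit 68719476736) (.ev (nat_lit 468) (nat_lit 4194304) (.nd
 (nat_lit 960) (.br (nat_lit 5) (.ch (nat_lit 3) (.ev (nat_lit 976) (nat_lit 9250) (.ev (nat_lit 1296) (nat_lit
 2147483648) (.ev (nat_lit 1309) (nat_lit 4398046511104) .dd)))) (.br (nat_lit 6) (.ch (nat_lit 5) (.ev
 (nat_lit 976) (nat_lit 4400193994752) (.ev (nat_lit 1184) (nat_lit 32) (.ev (nat_lit 1216) (nat_lit 1024) (.ev
 (nat_lit 1264) (nat_lit 8192) (.ev (nat_lit 1277) (nat_lit 2) .dd)))))) (.ch (nat_lit 6) (.ev (nat_lit 976)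
 (nat_lit 2147492864) (.ev (nat_lit 1456) (nat_lit 4398046511104) (.ev (nat_lit 1488) (nat_lit 34)
 .dd))))))))))))) (.br (nat_lit 15) (.ch (nat_lit 12) (.ev (nat_lit 52) (nat_lit 5068067704850) (.ev (nat_lit
 148) (nat_lit 8589934592) (.ev (nat_lit 276) (nat_lit 33554432) (.ev (nat_lit 404) (nat_lit 274877906944) (.ev
 (nat_lit 500) (nat_lit 8192) (.ev (nat_lit 628) (nat_lit 2147483648) (.nd (nat_lit 960) (.br (nat_lit 5) (.br
 (nat_lit 2) (.ch (nat_lit 0) (.ev (nat_lit 976) (nat_lit 131680) (.ev (nat_lit 989) (nat_lit 1024) .dd))) (.ch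
 (nat_lit 2) (.ev (nat_lit 976) (nat_lit 1600) (.ev (nat_lit 1348) (nat_lit 32) (.ev (nat_lit 1357) (nat_lit
 131072) .dd))))) (.br (nat_lit 6) (.ch (nat_lit 5) (.ev (nat_lit 976) (nat_lit 132704) .dd)) (.ch (nat_lit 6)
 (.ev (nat_lit 1348) (nat_lit 512) (.ev (nat_lit 1396) (nat_lit 132096) (.ev (nat_lit 1472) (nat_lit 96)
 .dd)))))))))))))) (.ch (nat_lit 15) (.ev (nat_lit 52) (nat_lit 852551021664) (.ev (nat_lit 148) (nat_lit
 4194304) (.ev (nat_lit 276) (nat_lit 131072) (.ev (nat_lit 404) (nat_lit 2) (.ev (nat_lit 500) (nat_lit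
 68719476736) (.ev (nat_lit 628) (nat_lit 16) (.nd (nat_lit 960) (.br (nat_lit 5) (.br (nat_lit 3) (.ch
 (nat_lit 0) (.ev (nat_lit 976) (nat_lit 4432441901568) .dd)) (.ch (nat_lit 3) (.ev (nat_lit 976) (nat_lit
 34361836032) (.ev (nat_lit 1348) (nat_lit 4398046511104) (.ev (nat_lit 1357) (nat_lit 33554432) .dd))))) (.br
 (nat_lit 6) (.ch (nat_lit 5) (.ev (nat_lit 976) (nat_lit 4432439804416) (.ev (nat_lit 989) (nat_lit 2097152)
 .dd))) (.ch (nat_lit 6) (.ev (nat_lit 1348) (nat_lit 512) (.ev (nat_lit 1396) (nat_lit 35651584) (.ev (nat_lit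
 1472) (nat_lit 4432406249472) .dd))))))))))))))))) (.br (nat_lit 22) (.br (nat_lit 18) (.br (nat_lit 17) (.ch
 (nat_lit 16) (.ev (nat_lit 52) (nat_lit 4417376100898) (.ev (nat_lit 148) (nat_lit 274877911040) (.ev (nat_lit
 532) (nat_lit 34359738368) (.nd (nat_lit 960) (.br (nat_lit 5) (.ch (nat_lit 0) (.ev (nat_lit 976) (nat_lit
 549789369360) (.ev (nat_lit 1264) (nat_lit 64) (.ev (nat_lit 1440) (nat_lit 77313605632) .dd)))) (.br (nat_lit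
 6) (.ch (nat_lit 5) (.ev (nat_lit 976) (nat_lit 549793563712) (.ev (nat_lit 1360) (nat_lit 68719476736) (.ev
 (nat_lit 1472) (nat_lit 16) (.ev (nat_lit 1485) (nat_lit 8589934592) .dd))))) (.ch (nat_lit 6) (.ev (nat_lit
 976) (nat_lit 77313605712) (.ev (nat_lit 1216) (nat_lit 1024) (.ev (nat_lit 1360) (nat_lit 549755813888) (.ev
 (nat_lit 1373) (nat_lit 33554432) .dd)))))))))))) (.ch (nat_lit 17) (.ev (nat_lit 52) (nat_lit 884763271778)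
 (.ev (nat_lit 180) (nat_lit 4194304) (.ev (nat_lit 372) (nat_lit 33554432) (.ev (nat_lit 436) (nat_lit
 2147483648) (.ev (nat_lit 500) (nat_lit 16) (.nd (nat_lit 960) (.br (nat_lit 2) (.ch (nat_lit 0) (.ev (nat_lit
 976) (nat_lit 2101248) (.ev (nat_lit 1184) (nat_lit 131072) (.ev (nat_lit 1216) (nat_lit 4398046511104) (.ev
 (nat_lit 1264) (nat_lit 68719476736) (.ev (nat_lit 1277) (nat_lit 1024) .dd)))))) (.br (nat_lit 3) (.ch
 (nat_lit 2) (.ev (nat_lit 976) (nat_lit 4466768084992) (.ev (nat_lit 1456) (nat_lit 4096) (.ev (nat_lit 1488)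
 (nat_lit 132096) .dd)))) (.ch (nat_lit 3) (.ev (nat_lit 976) (nat_lit 4466766119936) (.ev (nat_lit 1296)
 (nat_lit 2097152) (.ev (nat_lit 1309) (nat_lit 4096) .dd)))))))))))))) (.br (nat_lit 21) (.ch (nat_lit 18)
 (.ev (nat_lit 52) (nat_lit 4434558062690) (.nd (nat_lit 960) (.br (nat_lit 3) (.br (nat_lit 2) (.ch (nat_lit
 0) (.ev (nat_lit 976) (nat_lit 85932901904) (.ev (nat_lit 1216) (nat_lit 2097152) (.ev (nat_lit 1408) (nat_lit
 274877906944) (.ev (nat_lit 1456) (nat_lit 558345756672) .dd))))) (.ch (nat_lit 2) (.ev (nat_lit 976) (nat_lit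
 919158661632) (.ev (nat_lit 1456) (nat_lit 1040) .dd)))) (.br (nat_lit 5) (.ch (nat_lit 3) (.ev (nat_lit 976)
 (nat_lit 919156565008) (.ev (nat_lit 1456) (nat_lit 2097664) .dd))) (.br (nat_lit 6) (.ch (nat_lit 5) (.ev
 (nat_lit 976) (nat_lit 833225754112) (.ev (nat_lit 1216) (nat_lit 16) (.ev (nat_lit 1408) (nat_lit
 68719476736) (.ev (nat_lit 1456) (nat_lit 17213431808) .dd))))) (.ch (nat_lit 6) (.ev (nat_lit 976) (nat_lit
 352222978064) (.ev (nat_lit 1348) (nat_lit 566935683072) (.ev (nat_lit 1504) (nat_lit 1536) .dd)))))))))) (.ch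
 (nat_lit 21) (.ev (nat_lit 52) (nat_lit 927746630770) (.ev (nat_lit 116) (nat_lit 4194304) (.ev (nat_lit 244)
 (nat_lit 4096) (.ev (nat_lit 628) (nat_lit 512) (.ev (nat_lit 928) (nat_lit 4398046511104) (.nd (nat_lit 960)
 (.br (nat_lit 3) (.br (nat_lit 2) (.ch (nat_lit 0) (.ev (nat_lit 976) (nat_lit 19329449984) (.ev (nat_lit 989)
 (nat_lit 8589934592) .dd))) (.ch (nat_lit 2) (.ev (nat_lit 976) (nat_lit 27919384576) .dd))) (.br (nat_lit 5)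
 (.ch (nat_lit 3) (.ev (nat_lit 976) (nat_lit 25769803776) (.ev (nat_lit 1440) (nat_lit 2149580800) .dd))) (.ch
 (nat_lit 5) (.ev (nat_lit 976) (nat_lit 2147483648) (.ev (nat_lit 1348) (nat_lit 8592031744) (.ev (nat_lit
 1357) (nat_lit 17179869184) .dd))))))))))))))) (.br (nat_lit 26) (.br (nat_lit 24) (.ch (nat_lit 22) (.ev
 (nat_lit 52) (nat_lit 42956096512) (.ev (nat_lit 468) (nat_lit 4096) (.ev (nat_lit 564) (nat_lit 2) (.ev
 (nat_lit 596) (nat_lit 2147483648) (.nd (nat_lit 960) (.br (nat_lit 3) (.br (nat_lit 2) (.ch (nat_lit 0) (.ev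
 (nat_lit 976) (nat_lit 4965015749168) (.ev (nat_lit 1440) (nat_lit 64) (.ev (nat_lit 1488) (nat_lit
 343597391872) .dd)))) (.ch (nat_lit 2) (.ev (nat_lit 976) (nat_lit 4690137849952) (.ev (nat_lit 1440) (nat_lit
 16) (.ev (nat_lit 1488) (nat_lit 618475291136) .dd))))) (.br (nat_lit 6) (.ch (nat_lit 3) (.ev (nat_lit 976)
 (nat_lit 910533075040) (.ev (nat_lit 1348) (nat_lit 33554944) (.ev (nat_lit 1360) (nat_lit 4398046511104) (.ev
 (nat_lit 1373) (nat_lit 16) .dd))))) (.ch (nat_lit 6) (.ev (nat_lit 976) (nat_lit 5016555364880) (.ev (nat_lit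
 1348) (nat_lit 274877906976) (.ev (nat_lit 1360) (nat_lit 17179869184) (.ev (nat_lit 1373) (nat_lit 64)
 .dd))))))))))))) (.ch (nat_lit 24) (.ev (nat_lit 52) (nat_lit 594886529138) (.ev (nat_lit 180) (nat_lit
 274877906944) (.ev (nat_lit 404) (nat_lit 4194304) (.ev (nat_lit 500) (nat_lit 131072) (.ev (nat_lit 596)
 (nat_lit 1024) (.ev (nat_lit 832) (nat_lit 68719484928) (.nd (nat_lit 960) (.br (nat_lit 5) (.ch (nat_lit 2)
 (.ev (nat_lit 976) (nat_lit 4415228477952) .dd)) (.br (nat_lit 6) (.ch (nat_lit 5) (.ev (nat_lit 976) (nat_lit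
 512) (.ev (nat_lit 1232) (nat_lit 2097152) (.ev (nat_lit 1424) (nat_lit 17179869184) (.ev (nat_lit 1437)
 (nat_lit 4398046511104) .dd))))) (.ch (nat_lit 6) (.ev (nat_lit 976) (nat_lit 2097152) (.ev (nat_lit 1232)
 (nat_lit 512) (.ev (nat_lit 1424) (nat_lit 4398046511104) (.ev (nat_lit 1437) (nat_lit 17179869184)
 .dd)))))))))))))))) (.br (nat_lit 28) (.ch (nat_lit 26) (.ev (nat_lit 52) (nat_lit 79461102642) (.ev (nat_lit
 116) (nat_lit 34359738368) (.ev (nat_lit 436) (nat_lit 512) (.ev (nat_lit 608) (nat_lit 5239895883840)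
 .dd))))) (.br (nat_lit 29) (.ch (nat_lit 28) (.ev (nat_lit 52) (nat_lit 635659490818) (.ev (nat_lit 84)
 (nat_lit 2147483680) (.ev (nat_lit 276) (nat_lit 2097152) (.ev (nat_lit 688) (nat_lit 274877906944) (.nd
 (nat_lit 960) (.br (nat_lit 5) (.ch (nat_lit 3) (.ev (nat_lit 976) (nat_lit 34359738384) (.ev (nat_lit 1056)
 (nat_lit 8589934592) (.ev (nat_lit 1184) (nat_lit 64) (.ev (nat_lit 1264) (nat_lit 4398046511104) (.ev
 (nat_lit 1424) (nat_lit 33562624) .dd)))))) (.br (nat_lit 6) (.ch (nat_lit 5) (.ev (nat_lit 976) (nat_lit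
 4398080073792) (.ev (nat_lit 1008) (nat_lit 16) (.ev (nat_lit 1204) (nat_lit 34359738368) (.ev (nat_lit 1213)
 (nat_lit 8589934592) .dd))))) (.ch (nat_lit 6) (.ev (nat_lit 976) (nat_lit 4406636453904) (.ev (nat_lit 1312)
 (nat_lit 64) (.ev (nat_lit 1396) (nat_lit 33554432) (.ev (nat_lit 1405) (nat_lit 34359738368) .dd)))))))))))))
 (.ch (nat_lit 29) (.ev (nat_lit 52) (nat_lit 620658430002) (.ev (nat_lit 180) (nat_lit 34359738368) (.ev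
 (nat_lit 340) (nat_lit 274877906944) (.ev (nat_lit 628) (nat_lit 4398046511104) (.nd (nat_lit 960) (.br
 (nat_lit 3) (.ch (nat_lit 0) (.ev (nat_lit 976) (nat_lit 8589943360) (.ev (nat_lit 1024) (nat_lit 131072) (.ev
 (nat_lit 1264) (nat_lit 4195328) (.ev (nat_lit 1277) (nat_lit 17179869184) .dd))))) (.br (nat_lit 5) (.ch
 (nat_lit 3) (.ev (nat_lit 976) (nat_lit 17184195584) (.ev (nat_lit 1216) (nat_lit 512) (.ev (nat_lit 1328)
 (nat_lit 8192) (.ev (nat_lit 1408) (nat_lit 64) (.ev (nat_lit 1421) (nat_lit 8589934592) .dd)))))) (.ch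
 (nat_lit 5) (.ev (nat_lit 976) (nat_lit 132672) (.ev (nat_lit 1360) (nat_lit 8594128896) (.ev (nat_lit 1520)
 (nat_lit 17179877376) .dd))))))))))))))))) (.br (nat_lit 42) (.br (nat_lit 38) (.br (nat_lit 36) (.br (nat_lit
 33) (.ch (nat_lit 31) (.ev (nat_lit 52) (nat_lit 8629781568) (.ev (nat_lit 468) (nat_lit 549755813888) (.ev
 (nat_lit 564) (nat_lit 274877906944) (.ev (nat_lit 596) (nat_lit 16) (.nd (nat_lit 960) (.br (nat_lit 5) (.br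
 (nat_lit 3) (.ch (nat_lit 2) (.ev (nat_lit 976) (nat_lit 4518305607682) (.ev (nat_lit 1348) (nat_lit 131584)
 (.ev (nat_lit 1360) (nat_lit 32) (.ev (nat_lit 1373) (nat_lit 2147483648) .dd))))) (.ch (nat_lit 3) (.ev
 (nat_lit 976) (nat_lit 4518305726498) (.ev (nat_lit 1440) (nat_lit 2147483648) (.ev (nat_lit 1488) (nat_lit
 12800) .dd))))) (.br (nat_lit 6) (.ch (nat_lit 5) (.ev (nat_lit 976) (nat_lit 4417373999648) (.ev (nat_lit
 1440) (nat_lit 34359738368) (.ev (nat_lit 1488) (nat_lit 68719484930) .dd)))) (.ch (nat_lit 6) (.ev (nat_lit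
 976) (nat_lit 70867104288) (.ev (nat_lit 1348) (nat_lit 4398046511106) (.ev (nat_lit 1360) (nat_lit
 17179869184) (.ev (nat_lit 1373) (nat_lit 34359738368) .dd))))))))))))) (.ch (nat_lit 33) (.ev (nat_lit 52)
 (nat_lit 403762708482) (.ev (nat_lit 256) (nat_lit 4949954016880) .dd)))) (.br (nat_lit 37) (.ch (nat_lit 36)
 (.ev (nat_lit 52) (nat_lit 4529045242448) (.ev (nat_lit 436) (nat_lit 1024) (.nd (nat_lit 960) (.br (nat_lit
 2) (.ch (nat_lit 0) (.ev (nat_lit 976) (nat_lit 274911473666) (.ev (nat_lit 1040) (nat_lit 4194304) (.ev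
 (nat_lit 1348) (nat_lit 549755813888) (.ev (nat_lit 1357) (nat_lit 32) .dd))))) (.br (nat_lit 3) (.ch (nat_lit
 2) (.ev (nat_lit 976) (nat_lit 549789376514) (.ev (nat_lit 996) (nat_lit 32) (.ev (nat_lit 1008) (nat_lit
 274877906944) (.ev (nat_lit 1248) (nat_lit 4096) (.ev (nat_lit 1261) (nat_lit 4194304) .dd)))))) (.ch (nat_lit
 3) (.ev (nat_lit 976) (nat_lit 274882101280) (.ev (nat_lit 1204) (nat_lit 2) (.ev (nat_lit 1248) (nat_lit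
 4096) (.ev (nat_lit 1360) (nat_lit 549755813888) (.ev (nat_lit 1472) (nat_lit 33562624) .dd)))))))))))) (.ch
 (nat_lit 37) (.ev (nat_lit 52) (nat_lit 850439188992) (.ev (nat_lit 84) (nat_lit 4398046511120) (.ev (nat_lit
 276) (nat_lit 1024) (.ev (nat_lit 672) (nat_lit 2) (.nd (nat_lit 960) (.br (nat_lit 2) (.ch (nat_lit 0) (.ev
 (nat_lit 976) (nat_lit 103079346208) (.ev (nat_lit 1008) (nat_lit 2147483648) (.ev (nat_lit 1204) (nat_lit 64)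
 (.ev (nat_lit 1213) (nat_lit 4194304) .dd))))) (.br (nat_lit 6) (.ch (nat_lit 2) (.ev (nat_lit 976) (nat_lit
 2147483712) (.ev (nat_lit 1056) (nat_lit 4194304) (.ev (nat_lit 1184) (nat_lit 34359738368) (.ev (nat_lit
 1264) (nat_lit 32) (.ev (nat_lit 1424) (nat_lit 68719607808) .dd)))))) (.ch (nat_lit 6) (.ev (nat_lit 976)
 (nat_lit 70871154720) (.ev (nat_lit 1312) (nat_lit 34359738368) (.ev (nat_lit 1396) (nat_lit 131072) (.ev
 (nat_lit 1405) (nat_lit 64) .dd))))))))))))))) (.br (nat_lit 40) (.br (nat_lit 39) (.ch (nat_lit 38) (.ev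
 (nat_lit 52) (nat_lit 4398084392480) (.ev (nat_lit 244) (nat_lit 64) (.ev (nat_lit 276) (nat_lit 17179869184)
 (.ev (nat_lit 308) (nat_lit 2147491840) (.ev (nat_lit 532) (nat_lit 8589934592) (.ev (nat_lit 896) (nat_lit
 2097152) (.nd (nat_lit 960) (.br (nat_lit 3) (.ch (nat_lit 2) (.ev (nat_lit 976) (nat_lit 824633724930) (.ev
 (nat_lit 1348) (nat_lit 34359738368) (.ev (nat_lit 1396) (nat_lit 16) (.ev (nat_lit 1405) (nat_lit
 68719476736) .dd))))) (.br (nat_lit 6) (.ch (nat_lit 3) (.ev (nat_lit 976) (nat_lit 343597387776) (.ev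
 (nat_lit 1056) (nat_lit 34359738368) (.ev (nat_lit 1152) (nat_lit 2) (.ev (nat_lit 1348) (nat_lit
 549755813888) (.ev (nat_lit 1357) (nat_lit 16) .dd)))))) (.ch (nat_lit 6) (.ev (nat_lit 976) (nat_lit
 652835029010) (.ev (nat_lit 1024) (nat_lit 274877906944) (.ev (nat_lit 1037) (nat_lit 4096) .dd))))))))))))))
 (.ch (nat_lit 39) (.ev (nat_lit 52) (nat_lit 549795804210) (.ev (nat_lit 212) (nat_lit 274877906944) (.nd
 (nat_lit 960) (.br (nat_lit 5) (.ch (nat_lit 2) (.ev (nat_lit 976) (nat_lit 4492535791616) (.ev (nat_lit 1040)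
 (nat_lit 34359738368) (.ev (nat_lit 1376) (nat_lit 2147483648) (.ev (nat_lit 1424) (nat_lit 512) (.ev (nat_lit
 1437) (nat_lit 64) .dd)))))) (.br (nat_lit 6) (.ch (nat_lit 5) (.ev (nat_lit 976) (nat_lit 53687091776) (.ev
 (nat_lit 1136) (nat_lit 4398046511104) (.ev (nat_lit 1424) (nat_lit 77309411328) .dd)))) (.ch (nat_lit 6) (.ev
 (nat_lit 976) (nat_lit 4511863144448) (.ev (nat_lit 1248) (nat_lit 576) (.ev (nat_lit 1261) (nat_lit
 17179869184) .dd))))))))))) (.br (nat_lit 41) (.ch (nat_lit 40) (.ev (nat_lit 52) (nat_lit 53724849776) (.ev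
 (nat_lit 436) (nat_lit 2097152) (.nd (nat_lit 960) (.br (nat_lit 3) (.ch (nat_lit 2) (.ev (nat_lit 976)
 (nat_lit 4406636445698) (.ev (nat_lit 1204) (nat_lit 274877906944) (.ev (nat_lit 1248) (nat_lit 549755813888)
 (.ev (nat_lit 1360) (nat_lit 4096) (.ev (nat_lit 1472) (nat_lit 68719607808) .dd)))))) (.br (nat_lit 5) (.ch
 (nat_lit 3) (.ev (nat_lit 976) (nat_lit 343597518848) (.ev (nat_lit 996) (nat_lit 4398046511104) (.ev (nat_lit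
 1008) (nat_lit 2) (.ev (nat_lit 1248) (nat_lit 549755813888) (.ev (nat_lit 1261) (nat_lit 8589934592)
 .dd)))))) (.ch (nat_lit 5) (.ev (nat_lit 976) (nat_lit 893353328642) (.ev (nat_lit 1040) (nat_lit 8589934592)
 (.ev (nat_lit 1348) (nat_lit 4096) (.ev (nat_lit 1357) (nat_lit 4398046511104) .dd))))))))))) (.ch (nat_lit
 41) (.ev (nat_lit 52) (nat_lit 4793187701314) (.ev (nat_lit 180) (nat_lit 8589934592) (.ev (nat_lit 372)
 (nat_lit 131072) (.ev (nat_lit 436) (nat_lit 16) (.ev (nat_lit 500) (nat_lit 2147483648) (.nd (nat_lit 960)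
 (.br (nat_lit 3) (.ch (nat_lit 2) (.ev (nat_lit 976) (nat_lit 35659808) (.ev (nat_lit 1296) (nat_lit 1024)
 (.ev (nat_lit 1309) (nat_lit 549755813888) .dd)))) (.br (nat_lit 5) (.ch (nat_lit 3) (.ev (nat_lit 976)
 (nat_lit 9248) (.ev (nat_lit 1456) (nat_lit 549755813888) (.ev (nat_lit 1488) (nat_lit 35651584) .dd)))) (.ch
 (nat_lit 5) (.ev (nat_lit 976) (nat_lit 549755814912) (.ev (nat_lit 1184) (nat_lit 33554432) (.ev (nat_lit
 1216) (nat_lit 32) (.ev (nat_lit 1264) (nat_lit 8192) (.ev (nat_lit 1277) (nat_lit 2097152)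
 .dd)))))))))))))))))) (.br (nat_lit 47) (.br (nat_lit 44) (.br (nat_lit 43) (.ch (nat_lit 42) (.ev (nat_lit
 52) (nat_lit 5265663459440) (.nd (nat_lit 960) (.br (nat_lit 3) (.br (nat_lit 2) (.ch (nat_lit 0) (.ev
 (nat_lit 976) (nat_lit 6297090) (.ev (nat_lit 1216) (nat_lit 2147483648) (.ev (nat_lit 1408) (nat_lit 8192)
 (.ev (nat_lit 1456) (nat_lit 85899476992) .dd))))) (.ch (nat_lit 2) (.ev (nat_lit 976) (nat_lit 88053264386)
 (.ev (nat_lit 1456) (nat_lit 1536) .dd)))) (.br (nat_lit 5) (.ch (nat_lit 3) (.ev (nat_lit 976) (nat_lit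
 85903685122) (.ev (nat_lit 1456) (nat_lit 2149580800) .dd))) (.br (nat_lit 6) (.ch (nat_lit 5) (.ev (nat_lit
 976) (nat_lit 19329589760) (.ev (nat_lit 1216) (nat_lit 1024) (.ev (nat_lit 1408) (nat_lit 2) (.ev (nat_lit
 1456) (nat_lit 68723675136) .dd))))) (.ch (nat_lit 6) (.ev (nat_lit 976) (nat_lit 70871294978) (.ev (nat_lit
 1348) (nat_lit 17179873280) (.ev (nat_lit 1504) (nat_lit 2097664) .dd)))))))))) (.ch (nat_lit 43) (.ev
 (nat_lit 52) (nat_lit 603480786498) (.ev (nat_lit 116) (nat_lit 4096) (.ev (nat_lit 276) (nat_lit 8192) (.ev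
 (nat_lit 468) (nat_lit 8589934592) (.nd (nat_lit 960) (.br (nat_lit 2) (.ch (nat_lit 0) (.ev (nat_lit 976)
 (nat_lit 48) (.ev (nat_lit 1184) (nat_lit 4398046511104) (.ev (nat_lit 1216) (nat_lit 2097152) (.ev (nat_lit
 1264) (nat_lit 68719476736) (.ev (nat_lit 1277) (nat_lit 274877906944) .dd)))))) (.br (nat_lit 6) (.ch
 (nat_lit 2) (.ev (nat_lit 976) (nat_lit 4741645991936) (.ev (nat_lit 1296) (nat_lit 16) (.ev (nat_lit 1309)
 (nat_lit 32) .dd)))) (.ch (nat_lit 6) (.ev (nat_lit 976) (nat_lit 68721573904) (.ev (nat_lit 1456) (nat_lit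
 32) (.ev (nat_lit 1488) (nat_lit 4672924418048) .dd))))))))))))) (.br (nat_lit 46) (.ch (nat_lit 44) (.ev
 (nat_lit 52) (nat_lit 4492537893392) (.ev (nat_lit 244) (nat_lit 4194304) (.ev (nat_lit 308) (nat_lit 32) (.ev
 (nat_lit 480) (nat_lit 861174637634) .dd))))) (.ch (nat_lit 46) (.ev (nat_lit 52) (nat_lit 5259191783504) (.ev
 (nat_lit 180) (nat_lit 2) (.ev (nat_lit 404) (nat_lit 8589934592) (.ev (nat_lit 500) (nat_lit 33554432) (.ev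
 (nat_lit 596) (nat_lit 2097152) (.ev (nat_lit 864) (nat_lit 68719484928) (.nd (nat_lit 960) (.br (nat_lit 3)
 (.ch (nat_lit 0) (.ev (nat_lit 976) (nat_lit 512) (.ev (nat_lit 1232) (nat_lit 1024) (.ev (nat_lit 1424)
 (nat_lit 17179869184) (.ev (nat_lit 1437) (nat_lit 32) .dd))))) (.br (nat_lit 6) (.ch (nat_lit 3) (.ev
 (nat_lit 976) (nat_lit 17179870752) .dd)) (.ch (nat_lit 6) (.ev (nat_lit 976) (nat_lit 1024) (.ev (nat_lit
 1232) (nat_lit 512) (.ev (nat_lit 1424) (nat_lit 32) (.ev (nat_lit 1437) (nat_lit 17179869184)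
 .dd))))))))))))))))) (.br (nat_lit 49) (.br (nat_lit 48) (.ch (nat_lit 47) (.ev (nat_lit 52) (nat_lit
 569087370784) (.ev (nat_lit 64) (nat_lit 4784629354578) .dd))) (.ch (nat_lit 48) (.ev (nat_lit 52) (nat_lit
 4758857319984) (.ev (nat_lit 148) (nat_lit 549755813890) (.ev (nat_lit 532) (nat_lit 64) (.nd (nat_lit 960)
 (.br (nat_lit 5) (.ch (nat_lit 0) (.ev (nat_lit 976) (nat_lit 42951905280) (.ev (nat_lit 1360) (nat_lit 8192)
 (.ev (nat_lit 1472) (nat_lit 2147483648) (.ev (nat_lit 1485) (nat_lit 4194304) .dd))))) (.br (nat_lit 6) (.ch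
 (nat_lit 5) (.ev (nat_lit 976) (nat_lit 2149715968) (.ev (nat_lit 1264) (nat_lit 34359738368) (.ev (nat_lit
 1440) (nat_lit 8594137088) .dd)))) (.ch (nat_lit 6) (.ev (nat_lit 976) (nat_lit 45101359104) (.ev (nat_lit
 1216) (nat_lit 2097152) (.ev (nat_lit 1360) (nat_lit 4096) (.ev (nat_lit 1373) (nat_lit 131072)
 .dd))))))))))))) (.br (nat_lit 50) (.ch (nat_lit 49) (.ev (nat_lit 52) (nat_lit 292095665218) (.ev (nat_lit
 352) (nat_lit 5061621060144) .dd))) (.br (nat_lit 52) (.ch (nat_lit 50) (.ev (nat_lit 52) (nat_lit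
 4406672228896) (.ev (nat_lit 244) (nat_lit 34359738368) (.ev (nat_lit 308) (nat_lit 68719476752) (.ev (nat_lit
 372) (nat_lit 17179869184) (.ev (nat_lit 532) (nat_lit 4194304) (.ev (nat_lit 880) (nat_lit 1024) (.nd
 (nat_lit 960) (.br (nat_lit 3) (.ch (nat_lit 2) (.ev (nat_lit 976) (nat_lit 549755822082) (.ev (nat_lit 1056)
 (nat_lit 64) (.ev (nat_lit 1152) (nat_lit 274877906944) (.ev (nat_lit 1348) (nat_lit 4096) (.ev (nat_lit 1357)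
 (nat_lit 2147483648) .dd)))))) (.br (nat_lit 6) (.ch (nat_lit 3) (.ev (nat_lit 976) (nat_lit 824633724930)
 (.ev (nat_lit 1348) (nat_lit 64) (.ev (nat_lit 1396) (nat_lit 2147483648) (.ev (nat_lit 1405) (nat_lit 8192)
 .dd))))) (.ch (nat_lit 6) (.ev (nat_lit 976) (nat_lit 277025402944) (.ev (nat_lit 1024) (nat_lit 2) (.ev
 (nat_lit 1037) (nat_lit 549755813888) .dd)))))))))))))) (.ch (nat_lit 52) (.ev (nat_lit 52) (nat_lit
 5224827859984) (.ev (nat_lit 180) (nat_lit 64) (.ev (nat_lit 340) (nat_lit 2) (.ev (nat_lit 628) (nat_lit 32)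
 (.nd (nat_lit 960) (.br (nat_lit 2) (.ch (nat_lit 0) (.ev (nat_lit 976) (nat_lit 34395390464) (.ev (nat_lit
 1360) (nat_lit 8594128896) (.ev (nat_lit 1520) (nat_lit 85899345920) .dd)))) (.br (nat_lit 5) (.ch (nat_lit 2)
 (.ev (nat_lit 976) (nat_lit 25805455360) (.ev (nat_lit 1216) (nat_lit 512) (.ev (nat_lit 1328) (nat_lit
 68719476736) (.ev (nat_lit 1408) (nat_lit 34359738368) (.ev (nat_lit 1421) (nat_lit 4194304) .dd)))))) (.ch
 (nat_lit 5) (.ev (nat_lit 976) (nat_lit 103083409920) (.ev (nat_lit 1024) (nat_lit 33554432) (.ev (nat_lit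
 1264) (nat_lit 8592031744) (.ev (nat_lit 1277) (nat_lit 17179869184) .dd)))))))))))))))))))))

/-- The trie. -/
noncomputable def T : Tr := .nd (nat_lit 1000000) (.br (nat_lit 1) (.ch (nat_lit 0) (.ev (nat_lit 0) (nat_lit 8796093022207) .dd)) (.br (nat_lit 3) (.ch (nat_lit 1) T1) (.ch (nat_lit 3) T3)))

/-- The possible values. -/
noncomputable def oks : List ℕ := []

/-- The parameters. -/
noncomputable def S : Pr := ⟨fun i l e => lget mz (lget [] (lget [] tabs i) l) e, oks, [(nat_lit 0), (nat_lit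
 1), (nat_lit 0)], T, (nat_lit 8796093022207), (nat_lit 3303796230157), (nat_lit 43), [(nat_lit 1), (nat_lit
 2287041271849359)], [(nat_lit 49), (nat_lit 2809)]⟩

/-- Nothing known. -/
noncomputable def cs0 : Cs := (.cons (nat_lit 7) (nat_lit 0) (nat_lit 1) (.cons (nat_lit 53) (nat_lit 0) (nat_lit 1) .nil))

theorem part_1 : part S cs0 (nat_lit 1) = true := by decide +kernel

theorem part_3 : part S cs0 (nat_lit 3) = true := by decide +kernel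

/-- Data of a prime. -/
noncomputable def D0 : PD := ⟨(nat_lit 7), (nat_lit 2), (28, 1, 2), (34, 42, 11), (35, 5, 25)⟩

theorem D0_ok : D0.Ok := pdb_sound (s := 1) (C := ⟨⟨7, -2, -11, 7, 2, 4, 0, 3, -1⟩, (5, 2, 3)⟩) (by show Nat.Prime 7; norm_num) (by decide +kernel)

/-- Lines of the first type. -/
noncomputable def Cl0 : List C1 := [⟨⟨7, 2, -11, 7, -2, 4, 0, -3, -1⟩, (6, 1, 5)⟩,
  ⟨⟨0, 0, 0, 0, 0, 0, 0, 0, 0⟩, (0, 0, 0)⟩,
  ⟨⟨0, 0, 0, 0, 0, 0, 0, 0, 0⟩, (0, 0, 0)⟩,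
  ⟨⟨0, 0, 0, 0, 0, 0, 0, 0, 0⟩, (0, 0, 0)⟩,
  ⟨⟨0, 0, 0, 0, 0, 0, 0, 0, 0⟩, (0, 0, 0)⟩,
  ⟨⟨0, 0, 0, 0, 0, 0, 0, 0, 0⟩, (0, 0, 0)⟩,
  ⟨⟨0, 0, 0, 0, 0, 0, 0, 0, 0⟩, (0, 0, 0)⟩]

/-- Data of a prime. -/
noncomputable def D1 : PD := ⟨(nat_lit 53), (nat_lit 2), (2545, 8, 14), (2610, 800, 1557), (1968, 957, 2439)⟩

theorem D1_ok : D1.Ok := pdb_sound (s := 12) (C := ⟨⟨-13, 2, -76, -47, -58, 31, 18, -15, -13⟩, (40, 6, 18)⟩) (by show Nat.Prime 53; norm_num) (by decide +kernel)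

/-- Lines of the first type. -/
noncomputable def Cl1 : List C1 := [⟨⟨13, -2, -89, -47, -58, 16, 18, -15, -5⟩, (17, 16, 48)⟩,
  ⟨⟨-23, 38, -56, 43, 58, 1, 18, -9, -23⟩, (9, 50, 16)⟩,
  ⟨⟨-23, -38, -56, 43, -58, 1, 18, 9, -23⟩, (18, 47, 32)⟩,
  ⟨⟨-13, -2, -76, -47, 58, 31, 18, 15, -13⟩, (20, 3, 9)⟩,
  ⟨⟨0, 0, 0, 0, 0, 0, 0, 0, 0⟩, (0, 0, 0)⟩,
  ⟨⟨0, 0, 0, 0, 0, 0, 0, 0, 0⟩, (0, 0, 0)⟩,
  ⟨⟨0, 0, 0, 0, 0, 0, 0, 0, 0⟩, (0, 0, 0)⟩,
  ⟨⟨23, -38, -79, -43, -58, 44, -18, 9, -5⟩, (29, 8, 28)⟩,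
  ⟨⟨33, -18, -89, 67, 2, 4, 2, 23, -7⟩, (12, 34, 20)⟩,
  ⟨⟨0, 0, 0, 0, 0, 0, 0, 0, 0⟩, (0, 0, 0)⟩,
  ⟨⟨0, 0, 0, 0, 0, 0, 0, 0, 0⟩, (0, 0, 0)⟩,
  ⟨⟨0, 0, 0, 0, 0, 0, 0, 0, 0⟩, (0, 0, 0)⟩,
  ⟨⟨0, 0, 0, 0, 0, 0, 0, 0, 0⟩, (0, 0, 0)⟩,
  ⟨⟨27, 42, -76, 7, 58, 49, 22, -7, -5⟩, (1, 14, 44)⟩,
  ⟨⟨33, 18, -89, 67, -2, 4, 2, -23, -7⟩, (44, 1, 38)⟩,
  ⟨⟨0, 0, 0, 0, 0, 0, 0, 0, 0⟩, (0, 0, 0)⟩,
  ⟨⟨0, 0, 0, 0, 0, 0, 0, 0, 0⟩, (0, 0, 0)⟩,
  ⟨⟨0, 0, 0, 0, 0, 0, 0, 0, 0⟩, (0, 0, 0)⟩,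
  ⟨⟨0, 0, 0, 0, 0, 0, 0, 0, 0⟩, (0, 0, 0)⟩,
  ⟨⟨57, 42, -56, -37, 62, 41, -10, 1, -19⟩, (20, 27, 3)⟩,
  ⟨⟨13, 2, -89, -47, 58, 16, 18, 15, -5⟩, (50, 19, 4)⟩,
  ⟨⟨0, 0, 0, 0, 0, 0, 0, 0, 0⟩, (0, 0, 0)⟩,
  ⟨⟨0, 0, 0, 0, 0, 0, 0, 0, 0⟩, (0, 0, 0)⟩,
  ⟨⟨57, -42, -56, -37, -62, 41, -10, -1, -19⟩, (16, 11, 13)⟩,
  ⟨⟨0, 0, 0, 0, 0, 0, 0, 0, 0⟩, (0, 0, 0)⟩,
  ⟨⟨7, 58, -56, 27, 42, 49, 22, -7, -17⟩, (20, 9, 25)⟩,
  ⟨⟨0, 0, 0, 0, 0, 0, 0, 0, 0⟩, (0, 0, 0)⟩,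
  ⟨⟨67, -2, -71, 33, 18, 56, -2, 23, -5⟩, (28, 13, 49)⟩,
  ⟨⟨0, 0, 0, 0, 0, 0, 0, 0, 0⟩, (0, 0, 0)⟩,
  ⟨⟨0, 0, 0, 0, 0, 0, 0, 0, 0⟩, (0, 0, 0)⟩,
  ⟨⟨23, 38, -79, -43, 58, 44, -18, -9, -5⟩, (20, 11, 12)⟩,
  ⟨⟨0, 0, 0, 0, 0, 0, 0, 0, 0⟩, (0, 0, 0)⟩,
  ⟨⟨7, -58, -56, 27, -42, 49, 22, 7, -17⟩, (17, 5, 8)⟩,
  ⟨⟨0, 0, 0, 0, 0, 0, 0, 0, 0⟩, (0, 0, 0)⟩,
  ⟨⟨67, 2, -71, 33, -18, 56, -2, -23, -5⟩, (8, 34, 14)⟩,
  ⟨⟨27, -42, -76, 7, -58, 49, 22, 7, -5⟩, (50, 11, 27)⟩,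
  ⟨⟨0, 0, 0, 0, 0, 0, 0, 0, 0⟩, (0, 0, 0)⟩,
  ⟨⟨0, 0, 0, 0, 0, 0, 0, 0, 0⟩, (0, 0, 0)⟩,
  ⟨⟨0, 0, 0, 0, 0, 0, 0, 0, 0⟩, (0, 0, 0)⟩,
  ⟨⟨0, 0, 0, 0, 0, 0, 0, 0, 0⟩, (0, 0, 0)⟩,
  ⟨⟨0, 0, 0, 0, 0, 0, 0, 0, 0⟩, (0, 0, 0)⟩,
  ⟨⟨0, 0, 0, 0, 0, 0, 0, 0, 0⟩, (0, 0, 0)⟩,
  ⟨⟨0, 0, 0, 0, 0, 0, 0, 0, 0⟩, (0, 0, 0)⟩,
  ⟨⟨0, 0, 0, 0, 0, 0, 0, 0, 0⟩, (0, 0, 0)⟩,
  ⟨⟨0, 0, 0, 0, 0, 0, 0, 0, 0⟩, (0, 0, 0)⟩,
  ⟨⟨-37, 62, -4, -57, -42, 1, 10, -1, -29⟩, (22, 21, 27)⟩,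
  ⟨⟨0, 0, 0, 0, 0, 0, 0, 0, 0⟩, (0, 0, 0)⟩,
  ⟨⟨0, 0, 0, 0, 0, 0, 0, 0, 0⟩, (0, 0, 0)⟩,
  ⟨⟨0, 0, 0, 0, 0, 0, 0, 0, 0⟩, (0, 0, 0)⟩,
  ⟨⟨0, 0, 0, 0, 0, 0, 0, 0, 0⟩, (0, 0, 0)⟩,
  ⟨⟨0, 0, 0, 0, 0, 0, 0, 0, 0⟩, (0, 0, 0)⟩,
  ⟨⟨-37, -62, -4, -57, 42, 1, 10, 1, -29⟩, (6, 25, 17)⟩,
  ⟨⟨0, 0, 0, 0, 0, 0, 0, 0, 0⟩, (0, 0, 0)⟩]

/-- Data of a prime. -/
noncomputable def Dm : PD := ⟨(nat_lit 43), (nat_lit 2), (989, 1, 17), (1652, 774, 636), (172, 5, 130)⟩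

theorem Dm_ok : Dm.Ok := pdb_sound (s := 1) (C := ⟨⟨43, -38, -44, 43, 38, 1, 0, 9, -19⟩, (5, 38, 9)⟩) (by show Nat.Prime 43; norm_num) (by decide +kernel)

/-- Lines of the first type. -/
noncomputable def Clm : List C1 := [⟨⟨43, 38, -44, 43, -38, 1, 0, -9, -19⟩, (42, 1, 24)⟩,
  ⟨⟨0, 0, 0, 0, 0, 0, 0, 0, 0⟩, (0, 0, 0)⟩,
  ⟨⟨57, -18, -16, -17, -58, 1, 4, 1, -23⟩, (41, 27, 24)⟩,
  ⟨⟨7, -38, -56, -33, -42, 49, -16, 7, -1⟩, (28, 40, 22)⟩,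
  ⟨⟨0, 0, 0, 0, 0, 0, 0, 0, 0⟩, (0, 0, 0)⟩,
  ⟨⟨0, 0, 0, 0, 0, 0, 0, 0, 0⟩, (0, 0, 0)⟩,
  ⟨⟨0, 0, 0, 0, 0, 0, 0, 0, 0⟩, (0, 0, 0)⟩,
  ⟨⟨0, 0, 0, 0, 0, 0, 0, 0, 0⟩, (0, 0, 0)⟩,
  ⟨⟨0, 0, 0, 0, 0, 0, 0, 0, 0⟩, (0, 0, 0)⟩,
  ⟨⟨0, 0, 0, 0, 0, 0, 0, 0, 0⟩, (0, 0, 0)⟩,
  ⟨⟨0, 0, 0, 0, 0, 0, 0, 0, 0⟩, (0, 0, 0)⟩,
  ⟨⟨27, -18, -71, -53, -22, 4, -4, 17, -7⟩, (6, 36, 23)⟩,
  ⟨⟨0, 0, 0, 0, 0, 0, 0, 0, 0⟩, (0, 0, 0)⟩,
  ⟨⟨0, 0, 0, 0, 0, 0, 0, 0, 0⟩, (0, 0, 0)⟩,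
  ⟨⟨-7, -2, -64, -47, -38, 31, 12, -15, -7⟩, (37, 15, 41)⟩,
  ⟨⟨-7, 2, -64, -47, 38, 31, 12, 15, -7⟩, (3, 14, 1)⟩,
  ⟨⟨-7, 38, -49, 33, 42, 16, 16, -7, -17⟩, (27, 14, 12)⟩,
  ⟨⟨0, 0, 0, 0, 0, 0, 0, 0, 0⟩, (0, 0, 0)⟩,
  ⟨⟨0, 0, 0, 0, 0, 0, 0, 0, 0⟩, (0, 0, 0)⟩,
  ⟨⟨57, 18, -16, -17, 58, 1, 4, -1, -23⟩, (36, 30, 41)⟩,
  ⟨⟨53, 22, -49, 27, -18, 44, 4, -17, -11⟩, (6, 42, 11)⟩,
  ⟨⟨0, 0, 0, 0, 0, 0, 0, 0, 0⟩, (0, 0, 0)⟩,
  ⟨⟨0, 0, 0, 0, 0, 0, 0, 0, 0⟩, (0, 0, 0)⟩,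
  ⟨⟨27, 18, -71, -53, 22, 4, -4, -17, -7⟩, (1, 6, 11)⟩,
  ⟨⟨57, -18, -41, -17, -58, 16, -4, -1, -19⟩, (7, 13, 41)⟩,
  ⟨⟨0, 0, 0, 0, 0, 0, 0, 0, 0⟩, (0, 0, 0)⟩,
  ⟨⟨0, 0, 0, 0, 0, 0, 0, 0, 0⟩, (0, 0, 0)⟩,
  ⟨⟨7, 38, -56, -33, 42, 49, -16, -7, -1⟩, (27, 14, 12)⟩,
  ⟨⟨7, 2, -71, -47, -38, 16, 12, -15, -5⟩, (3, 29, 42)⟩,
  ⟨⟨7, -2, -71, -47, 38, 16, 12, 15, -5⟩, (37, 28, 2)⟩,
  ⟨⟨0, 0, 0, 0, 0, 0, 0, 0, 0⟩, (0, 0, 0)⟩,
  ⟨⟨0, 0, 0, 0, 0, 0, 0, 0, 0⟩, (0, 0, 0)⟩,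
  ⟨⟨53, -22, -49, 27, 18, 44, 4, 17, -11⟩, (36, 37, 23)⟩,
  ⟨⟨0, 0, 0, 0, 0, 0, 0, 0, 0⟩, (0, 0, 0)⟩,
  ⟨⟨0, 0, 0, 0, 0, 0, 0, 0, 0⟩, (0, 0, 0)⟩,
  ⟨⟨0, 0, 0, 0, 0, 0, 0, 0, 0⟩, (0, 0, 0)⟩,
  ⟨⟨0, 0, 0, 0, 0, 0, 0, 0, 0⟩, (0, 0, 0)⟩,
  ⟨⟨0, 0, 0, 0, 0, 0, 0, 0, 0⟩, (0, 0, 0)⟩,
  ⟨⟨0, 0, 0, 0, 0, 0, 0, 0, 0⟩, (0, 0, 0)⟩,
  ⟨⟨0, 0, 0, 0, 0, 0, 0, 0, 0⟩, (0, 0, 0)⟩,
  ⟨⟨-7, -38, -49, 33, -42, 16, 16, 7, -17⟩, (28, 40, 22)⟩,
  ⟨⟨57, 18, -41, -17, 58, 16, -4, 1, -19⟩, (2, 16, 24)⟩,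
  ⟨⟨0, 0, 0, 0, 0, 0, 0, 0, 0⟩, (0, 0, 0)⟩]

/-- Unit moves. -/
noncomputable def U : List Mv := [mz,
  mz,
  ⟨⟨1, 0, 0, 0, -1, 0, 0, 0, 1⟩, .nil, (nat_lit 0), (nat_lit 2), (nat_lit 1), (nat_lit 0), (0, 0, 0), [], 2⟩,
  mz,
  ⟨⟨-1, 0, 1, 0, 1, 0, 0, 0, 1⟩, .nil, (nat_lit 6), (nat_lit 0), (nat_lit 0), (nat_lit 1), (0, 0, 0), [], 1⟩,
  ⟨⟨-1, 0, 1, 0, -1, 0, 0, 0, 1⟩, .nil, (nat_lit 0), (nat_lit 5), (nat_lit 1), (nat_lit 0), (0, 0, 0), [], 2⟩,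
  ⟨⟨-1, 0, 1, 0, 1, 0, 0, 0, 1⟩, .nil, (nat_lit 6), (nat_lit 0), (nat_lit 0), (nat_lit 1), (0, 0, 0), [], 1⟩]

theorem v_ty : tyb Dm S.ty1 Clm = true := by decide +kernel

theorem v_ty0 : tyb D0 (S.tys.getD 0 0) Cl0 = true := by decide +kernel

theorem v_ty1 : tyb D1 (S.tys.getD 1 0) Cl1 = true := by decide +kernel

theorem v_msc : mscb S D0 [D1] Dm (nat_lit 10) = true := by decide +kernel

theorem v_mv0 : mvsn (nat_lit 254498209) S D0 [D1] Dm (nat_lit 10) 0 D0 = true := by decide +kernel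

theorem v_mv1 : mvsn (nat_lit 254498209) S D0 [D1] Dm (nat_lit 10) 1 D1 = true := by decide +kernel

theorem v_mm : mmsn (nat_lit 254498209) S D0 [D1] Dm (nat_lit 10) = true := by decide +kernel

theorem v_un : unb S D0 (nat_lit 10) U = true := by decide +kernel

theorem v_ok : okb S.oks [] = true := by decide +kernel

theorem v_part : ∀ d < D0.p, (nat_lit 10).testBit d = true → part S (zc (D0 :: [D1])) d = true := by
  intro d hd h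
  have h1 : ∀ d < 7, (nat_lit 10).testBit d = true → d = 1 ∨ d = 3 := by decide
  rcases h1 d hd h with rfl | rfl
  · exact part_1
  · exact part_3

theorem main (n : ℕ) (ho : Odd n) (hr : ¬ Rep n) (h0 : Split 7 n) (h1 : Split 53 n) (hm : Split 43 n) :
    n ∈ EE := by
  refine concln (W := nat_lit 254498209) (S := S) (P0 := D0) (Pl := [D1]) (Pm := Dm) (cn := nat_lit 10) ?_ Dm_ok v_ty ?_ ?_ v_msc ?_ v_mm v_un v_part v_ok
    n ho hr ?_ hm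
  · simp only [List.forall_mem_cons]
    exact ⟨D0_ok, D1_ok, fun _ h => absurd h (by simp)⟩
  · exact all2 (φ := fun j P => ∃ L, tyb P (S.tys.getD j 0) L = true) ⟨_, v_ty0⟩ ⟨_, v_ty1⟩
  · exact all2 (φ := fun j P => Nat.ble (S.pks.getD j 0) (Nat.pow P.p P.K) = true) (by decide +kernel) (by decide +kernel)
  · exact all2 (φ := fun i P => mvsn (nat_lit 254498209) S D0 [D1] Dm (nat_lit 10) i P = true) v_mv0 v_mv1
  · simp only [List.forall_mem_cons]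
    exact ⟨h0, h1, fun _ h => absurd h (by simp)⟩

end Pool.Agent.Work.MP_9954fe_nt.P7_53_43

namespace Pool.Agent.Work.MP_9954fe_nt.P11_53_47

/-- Dummy move. -/
noncomputable def mz : Mv := ⟨⟨0, 0, 0, 0, 0, 0, 0, 0, 0⟩, .nil, (nat_lit 0), (nat_lit 0), (nat_lit 0), (nat_lit 0), (0, 0, 0), [], 0⟩

/-- Moves. -/
noncomputable def t0_1 : List Mv := [
  ⟨⟨3, 8, -11, -10, -1, 0, 4, -4, -11⟩, (.cons (nat_lit 205) (nat_lit 45) (nat_lit 482) (nat_lit 1) (.cons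
 (nat_lit 962) (nat_lit 1310) (nat_lit 1358) (nat_lit 1) .nil)), (nat_lit 1), (nat_lit 30), (nat_lit 15),
 (nat_lit 1), (4, 5, 9), [189, 1940], 4⟩,
  ⟨⟨3, 8, -11, 10, 1, 0, 4, -4, -11⟩, (.cons (nat_lit 123) (nat_lit 960) (nat_lit 136) (nat_lit 1) (.cons
 (nat_lit 2317) (nat_lit 2382) (nat_lit 220) (nat_lit 1) .nil)), (nat_lit 21), (nat_lit 39), (nat_lit 11),
 (nat_lit 1), (4, 6, 9), [1, 2643], 24⟩,
  ⟨⟨1, -12, 0, 10, 1, 0, 4, -4, -11⟩, (.cons (nat_lit 1209) (nat_lit 831) (nat_lit 832) (nat_lit 1) (.cons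
 (nat_lit 716) (nat_lit 844) (nat_lit 533) (nat_lit 1) .nil)), (nat_lit 26), (nat_lit 8), (nat_lit 11),
 (nat_lit 1), (5, 6, 9), [725, 2274], 24⟩,
  ⟨⟨1, -12, 0, -10, -1, 0, 4, -4, -11⟩, (.cons (nat_lit 162) (nat_lit 200) (nat_lit 173) (nat_lit 1) (.cons
 (nat_lit 2808) (nat_lit 2418) (nat_lit 747) (nat_lit 1) .nil)), (nat_lit 46), (nat_lit 17), (nat_lit 15),
 (nat_lit 1), (5, 5, 9), [168, 2149], 4⟩,
  ⟨⟨1, -12, 0, -10, -1, 0, 4, -4, -11⟩, (.cons (nat_lit 162) (nat_lit 200) (nat_lit 173) (nat_lit 1) (.cons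
 (nat_lit 2808) (nat_lit 2418) (nat_lit 747) (nat_lit 1) .nil)), (nat_lit 46), (nat_lit 17), (nat_lit 15),
 (nat_lit 1), (5, 5, 9), [168, 2149], 4⟩,
  ⟨⟨1, -12, 0, 10, 1, 0, 4, -4, -11⟩, (.cons (nat_lit 1209) (nat_lit 831) (nat_lit 832) (nat_lit 1) (.cons
 (nat_lit 716) (nat_lit 844) (nat_lit 533) (nat_lit 1) .nil)), (nat_lit 26), (nat_lit 8), (nat_lit 11),
 (nat_lit 1), (5, 6, 9), [725, 2274], 24⟩,
  ⟨⟨1, -12, 0, -10, -1, 0, 4, -4, -11⟩, (.cons (nat_lit 162) (nat_lit 200) (nat_lit 173) (nat_lit 1) (.cons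
 (nat_lit 2808) (nat_lit 2418) (nat_lit 747) (nat_lit 1) .nil)), (nat_lit 46), (nat_lit 17), (nat_lit 15),
 (nat_lit 1), (5, 5, 9), [168, 2149], 4⟩,
  ⟨⟨3, 8, -11, 10, 1, 0, 4, -4, -11⟩, (.cons (nat_lit 123) (nat_lit 960) (nat_lit 136) (nat_lit 1) (.cons
 (nat_lit 2317) (nat_lit 2382) (nat_lit 220) (nat_lit 1) .nil)), (nat_lit 21), (nat_lit 39), (nat_lit 11),
 (nat_lit 1), (4, 6, 9), [1, 2643], 24⟩,
  ⟨⟨1, -12, 0, -10, -1, 0, 4, -4, -11⟩, (.cons (nat_lit 162) (nat_lit 200) (nat_lit 173) (nat_lit 1) (.cons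
 (nat_lit 2808) (nat_lit 2418) (nat_lit 747) (nat_lit 1) .nil)), (nat_lit 46), (nat_lit 17), (nat_lit 15),
 (nat_lit 1), (5, 5, 9), [168, 2149], 4⟩,
  ⟨⟨3, 8, -11, -10, -1, 0, 4, -4, -11⟩, (.cons (nat_lit 205) (nat_lit 45) (nat_lit 482) (nat_lit 1) (.cons
 (nat_lit 962) (nat_lit 1310) (nat_lit 1358) (nat_lit 1) .nil)), (nat_lit 1), (nat_lit 30), (nat_lit 15),
 (nat_lit 1), (4, 5, 9), [189, 1940], 4⟩,
  ⟨⟨1, -12, 0, -10, -1, 0, 4, -4, -11⟩, (.cons (nat_lit 162) (nat_lit 200) (nat_lit 173) (nat_lit 1) (.cons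
 (nat_lit 2808) (nat_lit 2418) (nat_lit 747) (nat_lit 1) .nil)), (nat_lit 46), (nat_lit 17), (nat_lit 15),
 (nat_lit 1), (5, 5, 9), [168, 2149], 4⟩]

/-- Moves. -/
noncomputable def t0_4 : List Mv := [
  ⟨⟨-11, 0, 0, -4, 5, 12, -2, 8, -5⟩, (.cons (nat_lit 567) (nat_lit 375) (nat_lit 810) (nat_lit 1) (.cons
 (nat_lit 2808) (nat_lit 314) (nat_lit 2228) (nat_lit 1) .nil)), (nat_lit 46), (nat_lit 30), (nat_lit 43),
 (nat_lit 1), (0, 5, 8), [285, 1137], 40⟩,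
  ⟨⟨9, 8, -5, 4, -5, -12, -2, 8, -5⟩, (.cons (nat_lit 449) (nat_lit 666) (nat_lit 424) (nat_lit 1) (.cons
 (nat_lit 1613) (nat_lit 1893) (nat_lit 994) (nat_lit 1) .nil)), (nat_lit 15), (nat_lit 8), (nat_lit 36),
 (nat_lit 1), (8, 6, 8), [237, 2348], 5⟩,
  ⟨⟨9, 8, -5, 4, -5, -12, -2, 8, -5⟩, (.cons (nat_lit 449) (nat_lit 666) (nat_lit 424) (nat_lit 1) (.cons
 (nat_lit 1613) (nat_lit 1893) (nat_lit 994) (nat_lit 1) .nil)), (nat_lit 15), (nat_lit 8), (nat_lit 36),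
 (nat_lit 1), (8, 6, 8), [237, 2348], 5⟩,
  ⟨⟨9, 8, -5, 4, -5, -12, -2, 8, -5⟩, (.cons (nat_lit 449) (nat_lit 666) (nat_lit 424) (nat_lit 1) (.cons
 (nat_lit 1613) (nat_lit 1893) (nat_lit 994) (nat_lit 1) .nil)), (nat_lit 15), (nat_lit 8), (nat_lit 36),
 (nat_lit 1), (8, 6, 8), [237, 2348], 5⟩,
  ⟨⟨9, 8, -5, -4, 5, 12, -2, 8, -5⟩, (.cons (nat_lit 64) (nat_lit 1278) (nat_lit 716) (nat_lit 1) (.cons (nat_lit 421) (nat_lit 315) (nat_lit 450) (nat_lit 1) .nil)), (nat_lit 1), (nat_lit 17), (nat_lit 43), (nat_lit 1), (8, 5, 8), [587, 1242], 40⟩,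
  ⟨⟨-11, 0, 0, 4, -5, -12, -2, 8, -5⟩, (.cons (nat_lit 850) (nat_lit 1279) (nat_lit 109) (nat_lit 1) (.cons
 (nat_lit 275) (nat_lit 2153) (nat_lit 2598) (nat_lit 1) .nil)), (nat_lit 32), (nat_lit 39), (nat_lit 36),
 (nat_lit 1), (0, 6, 8), [137, 2691], 5⟩,
  ⟨⟨9, 8, -5, 4, -5, -12, -2, 8, -5⟩, (.cons (nat_lit 449) (nat_lit 666) (nat_lit 424) (nat_lit 1) (.cons
 (nat_lit 1613) (nat_lit 1893) (nat_lit 994) (nat_lit 1) .nil)), (nat_lit 15), (nat_lit 8), (nat_lit 36),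
 (nat_lit 1), (8, 6, 8), [237, 2348], 5⟩,
  ⟨⟨9, 8, -5, -4, 5, 12, -2, 8, -5⟩, (.cons (nat_lit 64) (nat_lit 1278) (nat_lit 716) (nat_lit 1) (.cons (nat_lit 421) (nat_lit 315) (nat_lit 450) (nat_lit 1) .nil)), (nat_lit 1), (nat_lit 17), (nat_lit 43), (nat_lit 1), (8, 5, 8), [587, 1242], 40⟩,
  ⟨⟨-11, 0, 0, 4, -5, -12, -2, 8, -5⟩, (.cons (nat_lit 850) (nat_lit 1279) (nat_lit 109) (nat_lit 1) (.cons
 (nat_lit 275) (nat_lit 2153) (nat_lit 2598) (nat_lit 1) .nil)), (nat_lit 32), (nat_lit 39), (nat_lit 36),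
 (nat_lit 1), (0, 6, 8), [137, 2691], 5⟩,
  ⟨⟨9, 8, -5, 4, -5, -12, -2, 8, -5⟩, (.cons (nat_lit 449) (nat_lit 666) (nat_lit 424) (nat_lit 1) (.cons
 (nat_lit 1613) (nat_lit 1893) (nat_lit 994) (nat_lit 1) .nil)), (nat_lit 15), (nat_lit 8), (nat_lit 36),
 (nat_lit 1), (8, 6, 8), [237, 2348], 5⟩,
  ⟨⟨9, 8, -5, 4, -5, -12, -2, 8, -5⟩, (.cons (nat_lit 449) (nat_lit 666) (nat_lit 424) (nat_lit 1) (.cons
 (nat_lit 1613) (nat_lit 1893) (nat_lit 994) (nat_lit 1) .nil)), (nat_lit 15), (nat_lit 8), (nat_lit 36),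
 (nat_lit 1), (8, 6, 8), [237, 2348], 5⟩]

/-- Moves. -/
noncomputable def t1_1 : List Mv := [
  mz,
  mz,
  mz,
  mz,
  ⟨⟨51, 20, -47, 10, -47, -30, -2, 20, -47⟩, (.cons (nat_lit 82) (nat_lit 874) (nat_lit 1) (nat_lit 1254)
 (.cons (nat_lit 649) (nat_lit 549) (nat_lit 1128) (nat_lit 1) .nil)), (nat_lit 27), (nat_lit 14), (nat_lit
 16), (nat_lit 1), (24, 39, 24), [1033, 2166], 40⟩,
  ⟨⟨51, -20, -47, -10, -47, 30, -2, -20, -47⟩, (.cons (nat_lit 92) (nat_lit 527) (nat_lit 1102) (nat_lit 1)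
 (.cons (nat_lit 1014) (nat_lit 1074) (nat_lit 2761) (nat_lit 1) .nil)), (nat_lit 7), (nat_lit 4), (nat_lit
 18), (nat_lit 1), (12, 7, 12), [296, 2004], 33⟩,
  ⟨⟨25, -48, -36, -28, 5, -36, 40, 8, -47⟩, (.cons (nat_lit 1278) (nat_lit 104) (nat_lit 193) (nat_lit 1)
 (.cons (nat_lit 1038) (nat_lit 2186) (nat_lit 1875) (nat_lit 1) .nil)), (nat_lit 10), (nat_lit 41), (nat_lit
 3), (nat_lit 1), (37, 37, 38), [837, 619], 27⟩,
  mz,
  mz,
  ⟨⟨-33, -20, -32, -8, -45, 34, 24, -24, -49⟩, (.cons (nat_lit 930) (nat_lit 1190) (nat_lit 810) (nat_lit 1)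
 (.cons (nat_lit 1145) (nat_lit 1745) (nat_lit 715) (nat_lit 1) .nil)), (nat_lit 30), (nat_lit 26), (nat_lit
 23), (nat_lit 1), (35, 39, 42), [215, 2143], 24⟩,
  ⟨⟨-15, -56, 4, -28, 5, 64, -40, -8, -7⟩, (.cons (nat_lit 908) (nat_lit 480) (nat_lit 445) (nat_lit 1) (.cons
 (nat_lit 596) (nat_lit 2272) (nat_lit 1354) (nat_lit 1) .nil)), (nat_lit 33), (nat_lit 25), (nat_lit 45),
 (nat_lit 1), (10, 1, 9), [894, 163], 28⟩,
  ⟨⟨15, -32, 44, 50, 17, -30, 14, -44, -19⟩, (.cons (nat_lit 308) (nat_lit 691) (nat_lit 718) (nat_lit 1)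
 (.cons (nat_lit 2249) (nat_lit 1588) (nat_lit 82) (nat_lit 1) .nil)), (nat_lit 18), (nat_lit 26), (nat_lit
 41), (nat_lit 1), (29, 26, 20), [1057, 1562], 37⟩,
  ⟨⟨53, 0, -53, -10, -47, -20, 2, 20, -49⟩, (.cons (nat_lit 1114) (nat_lit 1224) (nat_lit 885) (nat_lit 1)
 (.cons (nat_lit 1492) (nat_lit 2238) (nat_lit 1740) (nat_lit 1) .nil)), (nat_lit 27), (nat_lit 33), (nat_lit
 31), (nat_lit 1), (0, 25, 48), [112, 646], 40⟩,
  mz,
  mz,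
  ⟨⟨-51, -20, 4, -10, 47, -20, 2, -20, -49⟩, (.cons (nat_lit 1330) (nat_lit 1006) (nat_lit 363) (nat_lit 1)
 (.cons (nat_lit 2336) (nat_lit 1845) (nat_lit 2781) (nat_lit 1) .nil)), (nat_lit 46), (nat_lit 34), (nat_lit
 10), (nat_lit 1), (36, 32, 36), [915, 625], 22⟩,
  ⟨⟨31, -48, -27, 10, 17, -60, 46, 4, -11⟩, (.cons (nat_lit 609) (nat_lit 1257) (nat_lit 193) (nat_lit 1)
 (.cons (nat_lit 626) (nat_lit 2414) (nat_lit 1) (nat_lit 2279) .nil)), (nat_lit 35), (nat_lit 36), (nat_lit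
 38), (nat_lit 1), (39, 16, 10), [1271, 77], 39⟩,
  ⟨⟨31, -48, -4, 10, 17, 50, 46, 4, -35⟩, (.cons (nat_lit 1200) (nat_lit 1251) (nat_lit 972) (nat_lit 1) (.cons
 (nat_lit 961) (nat_lit 526) (nat_lit 1160) (nat_lit 1) .nil)), (nat_lit 18), (nat_lit 17), (nat_lit 24),
 (nat_lit 1), (18, 40, 25), [1115, 2455], 37⟩,
  ⟨⟨-57, -4, 40, 8, -45, 26, -24, -24, -25⟩, (.cons (nat_lit 1054) (nat_lit 1240) (nat_lit 270) (nat_lit 1)
 (.cons (nat_lit 2200) (nat_lit 1790) (nat_lit 2303) (nat_lit 1) .nil)), (nat_lit 30), (nat_lit 21), (nat_lit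
 24), (nat_lit 1), (12, 29, 19), [879, 2176], 24⟩,
  mz,
  mz,
  ⟨⟨-33, 20, -32, 8, -45, -34, 24, 24, -49⟩, (.cons (nat_lit 764) (nat_lit 312) (nat_lit 25) (nat_lit 1) (.cons
 (nat_lit 28) (nat_lit 1466) (nat_lit 402) (nat_lit 1) .nil)), (nat_lit 11), (nat_lit 4), (nat_lit 18),
 (nat_lit 1), (47, 40, 14), [228, 2223], 37⟩,
  ⟨⟨45, 28, -49, 28, -45, -14, 0, 0, -53⟩, (.cons (nat_lit 1330) (nat_lit 1057) (nat_lit 174) (nat_lit 1)
 (.cons (nat_lit 358) (nat_lit 1201) (nat_lit 2700) (nat_lit 1) .nil)), (nat_lit 46), (nat_lit 15), (nat_lit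
 44), (nat_lit 1), (24, 22, 0), [537, 2053], 29⟩,
  mz,
  ⟨⟨-13, 48, -27, 30, -17, -60, 30, 36, -7⟩, (.cons (nat_lit 876) (nat_lit 962) (nat_lit 1) (nat_lit 1276)
 (.cons (nat_lit 882) (nat_lit 673) (nat_lit 745) (nat_lit 1) .nil)), (nat_lit 29), (nat_lit 25), (nat_lit 42),
 (nat_lit 1), (11, 48, 48), [1090, 501], 16⟩,
  mz,
  ⟨⟨-25, -48, -11, 28, 5, -64, -40, 8, -7⟩, (.cons (nat_lit 697) (nat_lit 229) (nat_lit 1053) (nat_lit 1)
 (.cons (nat_lit 2156) (nat_lit 1920) (nat_lit 1) (nat_lit 1219) .nil)), (nat_lit 37), (nat_lit 41), (nat_lit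
 44), (nat_lit 1), (2, 2, 35), [326, 171], 27⟩,
  mz,
  ⟨⟨-1, -48, 37, -52, -5, 16, 8, -40, -31⟩, (.cons (nat_lit 1280) (nat_lit 791) (nat_lit 965) (nat_lit 1)
 (.cons (nat_lit 2429) (nat_lit 306) (nat_lit 330) (nat_lit 1) .nil)), (nat_lit 21), (nat_lit 23), (nat_lit
 39), (nat_lit 1), (29, 24, 33), [9, 2573], 8⟩,
  ⟨⟨43, -12, -63, -30, 17, -30, 30, 36, -23⟩, (.cons (nat_lit 44) (nat_lit 1181) (nat_lit 509) (nat_lit 1)
 (.cons (nat_lit 470) (nat_lit 618) (nat_lit 2144) (nat_lit 1) .nil)), (nat_lit 13), (nat_lit 4), (nat_lit 18),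
 (nat_lit 1), (16, 48, 5), [1311, 1326], 22⟩,
  mz,
  ⟨⟨-45, 28, -4, -28, -45, 14, 0, 0, -53⟩, (.cons (nat_lit 232) (nat_lit 977) (nat_lit 469) (nat_lit 1) (.cons
 (nat_lit 1091) (nat_lit 219) (nat_lit 1907) (nat_lit 1) .nil)), (nat_lit 1), (nat_lit 15), (nat_lit 3),
 (nat_lit 1), (14, 4, 0), [877, 810], 29⟩,
  mz,
  ⟨⟨-39, 28, -17, 10, -33, -50, 18, 36, -37⟩, (.cons (nat_lit 16) (nat_lit 515) (nat_lit 565) (nat_lit 1)
 (.cons (nat_lit 1444) (nat_lit 968) (nat_lit 1303) (nat_lit 1) .nil)), (nat_lit 14), (nat_lit 12), (nat_lit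
 7), (nat_lit 1), (43, 8, 25), [1192, 1428], 44⟩,
  mz,
  mz,
  ⟨⟨1, -48, 36, -52, 5, 36, -8, -40, -23⟩, (.cons (nat_lit 226) (nat_lit 454) (nat_lit 305) (nat_lit 1) (.cons
 (nat_lit 170) (nat_lit 1294) (nat_lit 470) (nat_lit 1) .nil)), (nat_lit 33), (nat_lit 10), (nat_lit 42),
 (nat_lit 1), (41, 41, 43), [223, 1543], 28⟩,
  ⟨⟨-1, 48, 37, 52, -5, -16, 8, 40, -31⟩, (.cons (nat_lit 339) (nat_lit 97) (nat_lit 927) (nat_lit 1) (.cons
 (nat_lit 1052) (nat_lit 1760) (nat_lit 1147) (nat_lit 1) .nil)), (nat_lit 9), (nat_lit 31), (nat_lit 15),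
 (nat_lit 1), (26, 26, 4), [1268, 2003], 37⟩,
  ⟨⟨-57, 8, 37, 10, 33, 40, -18, 36, -19⟩, (.cons (nat_lit 1280) (nat_lit 885) (nat_lit 1137) (nat_lit 1)
 (.cons (nat_lit 1914) (nat_lit 2697) (nat_lit 1754) (nat_lit 1) .nil)), (nat_lit 1), (nat_lit 20), (nat_lit
 38), (nat_lit 1), (40, 6, 21), [813, 1732], 5⟩,
  ⟨⟨15, -56, -11, -28, -5, -36, 40, -8, -47⟩, (.cons (nat_lit 1070) (nat_lit 146) (nat_lit 306) (nat_lit 1)
 (.cons (nat_lit 20) (nat_lit 996) (nat_lit 2522) (nat_lit 1) .nil)), (nat_lit 9), (nat_lit 28), (nat_lit 25),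
 (nat_lit 1), (31, 34, 12), [829, 2163], 37⟩,
  ⟨⟨-9, -8, -59, 52, 5, -36, -8, 40, -23⟩, (.cons (nat_lit 705) (nat_lit 69) (nat_lit 671) (nat_lit 1) (.cons
 (nat_lit 793) (nat_lit 1430) (nat_lit 1770) (nat_lit 1) .nil)), (nat_lit 37), (nat_lit 32), (nat_lit 27),
 (nat_lit 1), (29, 15, 14), [717, 2207], 27⟩,
  ⟨⟨31, 48, -4, -10, 17, -50, 46, -4, -35⟩, (.cons (nat_lit 469) (nat_lit 685) (nat_lit 1) (nat_lit 704) (.cons
 (nat_lit 1055) (nat_lit 332) (nat_lit 1604) (nat_lit 1) .nil)), (nat_lit 34), (nat_lit 9), (nat_lit 16),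
 (nat_lit 1), (15, 2, 12), [1028, 572], 2⟩,
  ⟨⟨-57, 4, 40, -8, -45, -26, -24, 24, -25⟩, (.cons (nat_lit 156) (nat_lit 700) (nat_lit 85) (nat_lit 1) (.cons
 (nat_lit 482) (nat_lit 1179) (nat_lit 1885) (nat_lit 1) .nil)), (nat_lit 11), (nat_lit 43), (nat_lit 29),
 (nat_lit 1), (25, 50, 44), [79, 14], 37⟩,
  ⟨⟨-1, 12, -63, 50, -17, -30, 14, 44, -19⟩, (.cons (nat_lit 212) (nat_lit 1047) (nat_lit 345) (nat_lit 1)
 (.cons (nat_lit 1126) (nat_lit 2673) (nat_lit 1826) (nat_lit 1) .nil)), (nat_lit 43), (nat_lit 3), (nat_lit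
 11), (nat_lit 1), (30, 37, 4), [34, 539], 34⟩,
  ⟨⟨-15, 32, 59, 50, 17, -20, -14, 44, -5⟩, (.cons (nat_lit 701) (nat_lit 681) (nat_lit 438) (nat_lit 1) (.cons
 (nat_lit 891) (nat_lit 482) (nat_lit 2029) (nat_lit 1) .nil)), (nat_lit 13), (nat_lit 33), (nat_lit 17),
 (nat_lit 1), (6, 33, 48), [769, 445], 2⟩,
  mz,
  ⟨⟨-13, -48, -27, 30, 17, -60, 30, -36, -7⟩, (.cons (nat_lit 1174) (nat_lit 2) (nat_lit 573) (nat_lit 1)
 (.cons (nat_lit 774) (nat_lit 1255) (nat_lit 2260) (nat_lit 1) .nil)), (nat_lit 1), (nat_lit 13), (nat_lit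
 32), (nat_lit 1), (14, 37, 37), [153, 1564], 1⟩,
  ⟨⟨1, -12, -64, 50, -17, -20, -14, -44, -5⟩, (.cons (nat_lit 732) (nat_lit 491) (nat_lit 584) (nat_lit 1)
 (.cons (nat_lit 1336) (nat_lit 6) (nat_lit 1185) (nat_lit 1) .nil)), (nat_lit 12), (nat_lit 2), (nat_lit 21),
 (nat_lit 1), (3, 44, 11), [123, 2653], 8⟩,
  ⟨⟨15, -52, 16, -10, 17, 60, 46, -4, -11⟩, (.cons (nat_lit 1311) (nat_lit 503) (nat_lit 1032) (nat_lit 1)
 (.cons (nat_lit 1467) (nat_lit 2250) (nat_lit 1849) (nat_lit 1) .nil)), (nat_lit 4), (nat_lit 39), (nat_lit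
 10), (nat_lit 1), (14, 26, 50), [47, 1463], 13⟩,
  ⟨⟨-39, -28, -17, 10, 33, -50, 18, -36, -37⟩, (.cons (nat_lit 454) (nat_lit 292) (nat_lit 107) (nat_lit 1)
 (.cons (nat_lit 1333) (nat_lit 1082) (nat_lit 2453) (nat_lit 1) .nil)), (nat_lit 1), (nat_lit 2), (nat_lit 4),
 (nat_lit 1), (5, 49, 14), [1267, 1692], 5⟩,
  ⟨⟨-57, -8, 37, -10, 33, -40, -18, -36, -19⟩, (.cons (nat_lit 730) (nat_lit 1131) (nat_lit 419) (nat_lit 1)
 (.cons (nat_lit 2538) (nat_lit 449) (nat_lit 929) (nat_lit 1) .nil)), (nat_lit 1), (nat_lit 45), (nat_lit 43),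
 (nat_lit 1), (14, 35, 10), [1275, 1149], 5⟩,
  mz,
  ⟨⟨-13, -48, 40, 30, 17, 30, 30, -36, -23⟩, (.cons (nat_lit 1170) (nat_lit 305) (nat_lit 970) (nat_lit 1)
 (.cons (nat_lit 2662) (nat_lit 2301) (nat_lit 1086) (nat_lit 1) .nil)), (nat_lit 18), (nat_lit 25), (nat_lit
 5), (nat_lit 1), (45, 47, 47), [86, 1832], 31⟩]

/-- Moves. -/
noncomputable def t1_4 : List Mv := [
  mz,
  mz,
  mz,
  mz,
  ⟨⟨-53, 0, 0, 10, -47, -30, -2, 20, -47⟩, (.cons (nat_lit 1320) (nat_lit 670) (nat_lit 879) (nat_lit 1) (.cons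
 (nat_lit 746) (nat_lit 51) (nat_lit 128) (nat_lit 1) .nil)), (nat_lit 20), (nat_lit 33), (nat_lit 16),
 (nat_lit 1), (0, 39, 24), [592, 164], 40⟩,
  ⟨⟨-53, 0, 0, -10, -47, 30, -2, -20, -47⟩, (.cons (nat_lit 639) (nat_lit 452) (nat_lit 1) (nat_lit 957) (.cons
 (nat_lit 1970) (nat_lit 2631) (nat_lit 837) (nat_lit 1) .nil)), (nat_lit 40), (nat_lit 43), (nat_lit 18),
 (nat_lit 1), (0, 7, 12), [460, 730], 33⟩,
  ⟨⟨25, -48, -36, 28, -5, 36, 40, 8, -47⟩, (.cons (nat_lit 1152) (nat_lit 919) (nat_lit 1) (nat_lit 616) (.cons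
 (nat_lit 414) (nat_lit 2791) (nat_lit 967) (nat_lit 1) .nil)), (nat_lit 26), (nat_lit 40), (nat_lit 14),
 (nat_lit 1), (37, 16, 38), [362, 1843], 8⟩,
  mz,
  mz,
  ⟨⟨-33, -20, -32, 8, 45, -34, 24, -24, -49⟩, (.cons (nat_lit 554) (nat_lit 72) (nat_lit 809) (nat_lit 1)
 (.cons (nat_lit 565) (nat_lit 1464) (nat_lit 1695) (nat_lit 1) .nil)), (nat_lit 1), (nat_lit 45), (nat_lit
 12), (nat_lit 1), (35, 14, 42), [856, 2241], 9⟩,
  ⟨⟨-25, 48, -11, -28, 5, 64, -40, -8, -7⟩, (.cons (nat_lit 1112) (nat_lit 470) (nat_lit 539) (nat_lit 1)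
 (.cons (nat_lit 204) (nat_lit 1725) (nat_lit 498) (nat_lit 1) .nil)), (nat_lit 14), (nat_lit 22), (nat_lit
 45), (nat_lit 1), (52, 1, 9), [321, 2101], 28⟩,
  ⟨⟨15, -32, 44, 50, 17, -30, 14, -44, -19⟩, (.cons (nat_lit 308) (nat_lit 691) (nat_lit 718) (nat_lit 1)
 (.cons (nat_lit 2249) (nat_lit 1588) (nat_lit 82) (nat_lit 1) .nil)), (nat_lit 18), (nat_lit 26), (nat_lit
 41), (nat_lit 1), (29, 26, 20), [1057, 1562], 37⟩,
  ⟨⟨-51, 20, 4, 10, 47, 20, 2, 20, -49⟩, (.cons (nat_lit 1330) (nat_lit 145) (nat_lit 144) (nat_lit 1) (.cons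
 (nat_lit 1810) (nat_lit 1913) (nat_lit 2262) (nat_lit 1) .nil)), (nat_lit 46), (nat_lit 3), (nat_lit 35),
 (nat_lit 1), (48, 28, 48), [699, 464], 22⟩,
  mz,
  mz,
  ⟨⟨-51, -20, 4, -10, 47, -20, 2, -20, -49⟩, (.cons (nat_lit 1330) (nat_lit 1006) (nat_lit 363) (nat_lit 1)
 (.cons (nat_lit 2336) (nat_lit 1845) (nat_lit 2781) (nat_lit 1) .nil)), (nat_lit 46), (nat_lit 34), (nat_lit
 10), (nat_lit 1), (36, 32, 36), [915, 625], 22⟩,
  ⟨⟨15, 52, 16, 10, 17, -60, 46, 4, -11⟩, (.cons (nat_lit 694) (nat_lit 39) (nat_lit 228) (nat_lit 1) (.cons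
 (nat_lit 1327) (nat_lit 2140) (nat_lit 995) (nat_lit 1) .nil)), (nat_lit 12), (nat_lit 11), (nat_lit 38),
 (nat_lit 1), (24, 16, 10), [588, 1560], 39⟩,
  ⟨⟨15, 52, -31, 10, 17, 50, 46, 4, -35⟩, (.cons (nat_lit 150) (nat_lit 337) (nat_lit 850) (nat_lit 1) (.cons
 (nat_lit 200) (nat_lit 580) (nat_lit 1185) (nat_lit 1) .nil)), (nat_lit 29), (nat_lit 30), (nat_lit 24),
 (nat_lit 1), (7, 40, 25), [831, 1105], 37⟩,
  ⟨⟨-57, -4, 40, -8, 45, -26, -24, -24, -25⟩, (.cons (nat_lit 949) (nat_lit 884) (nat_lit 246) (nat_lit 1)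
 (.cons (nat_lit 504) (nat_lit 282) (nat_lit 1911) (nat_lit 1) .nil)), (nat_lit 1), (nat_lit 2), (nat_lit 35),
 (nat_lit 1), (12, 24, 19), [587, 930], 9⟩,
  mz,
  mz,
  ⟨⟨-33, 20, -32, 8, -45, -34, 24, 24, -49⟩, (.cons (nat_lit 764) (nat_lit 312) (nat_lit 25) (nat_lit 1) (.cons
 (nat_lit 28) (nat_lit 1466) (nat_lit 402) (nat_lit 1) .nil)), (nat_lit 11), (nat_lit 4), (nat_lit 18),
 (nat_lit 1), (47, 40, 14), [228, 2223], 37⟩,
  ⟨⟨-45, -28, -4, 28, -45, -14, 0, 0, -53⟩, (.cons (nat_lit 1222) (nat_lit 13) (nat_lit 543) (nat_lit 1) (.cons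
 (nat_lit 1779) (nat_lit 2569) (nat_lit 1526) (nat_lit 1) .nil)), (nat_lit 1), (nat_lit 32), (nat_lit 44),
 (nat_lit 1), (29, 22, 0), [569, 2769], 29⟩,
  mz,
  ⟨⟨-13, 48, -27, 30, -17, -60, 30, 36, -7⟩, (.cons (nat_lit 876) (nat_lit 962) (nat_lit 1) (nat_lit 1276)
 (.cons (nat_lit 882) (nat_lit 673) (nat_lit 745) (nat_lit 1) .nil)), (nat_lit 29), (nat_lit 25), (nat_lit 42),
 (nat_lit 1), (11, 48, 48), [1090, 501], 16⟩,
  mz,
  ⟨⟨-25, -48, -11, 28, 5, -64, -40, 8, -7⟩, (.cons (nat_lit 697) (nat_lit 229) (nat_lit 1053) (nat_lit 1)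
 (.cons (nat_lit 2156) (nat_lit 1920) (nat_lit 1) (nat_lit 1219) .nil)), (nat_lit 37), (nat_lit 41), (nat_lit
 44), (nat_lit 1), (2, 2, 35), [326, 171], 27⟩,
  mz,
  ⟨⟨-1, -48, 37, 52, 5, -16, 8, -40, -31⟩, (.cons (nat_lit 584) (nat_lit 396) (nat_lit 369) (nat_lit 1) (.cons
 (nat_lit 2138) (nat_lit 2455) (nat_lit 1434) (nat_lit 1) .nil)), (nat_lit 14), (nat_lit 10), (nat_lit 5),
 (nat_lit 1), (29, 29, 33), [475, 1464], 28⟩,
  ⟨⟨-13, 48, 40, -30, 17, -30, 30, 36, -23⟩, (.cons (nat_lit 124) (nat_lit 779) (nat_lit 841) (nat_lit 1)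
 (.cons (nat_lit 1679) (nat_lit 1827) (nat_lit 1024) (nat_lit 1) .nil)), (nat_lit 34), (nat_lit 43), (nat_lit
 18), (nat_lit 1), (42, 48, 5), [653, 1184], 22⟩,
  mz,
  ⟨⟨45, -28, -49, 28, 45, -14, 0, 0, -53⟩, (.cons (nat_lit 45) (nat_lit 382) (nat_lit 291) (nat_lit 1) (.cons
 (nat_lit 2384) (nat_lit 372) (nat_lit 1920) (nat_lit 1) .nil)), (nat_lit 1), (nat_lit 16), (nat_lit 22),
 (nat_lit 1), (39, 49, 0), [857, 1179], 38⟩,
  mz,
  ⟨⟨-39, 28, -17, -10, 33, 50, 18, 36, -37⟩, (.cons (nat_lit 1070) (nat_lit 722) (nat_lit 1275) (nat_lit 1)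
 (.cons (nat_lit 2735) (nat_lit 379) (nat_lit 1125) (nat_lit 1) .nil)), (nat_lit 1), (nat_lit 27), (nat_lit 9),
 (nat_lit 1), (43, 45, 25), [794, 519], 5⟩,
  mz,
  mz,
  ⟨⟨-9, 8, -59, 52, -5, -36, -8, -40, -23⟩, (.cons (nat_lit 236) (nat_lit 1223) (nat_lit 871) (nat_lit 1)
 (.cons (nat_lit 2549) (nat_lit 711) (nat_lit 610) (nat_lit 1) .nil)), (nat_lit 21), (nat_lit 24), (nat_lit 8),
 (nat_lit 1), (2, 12, 43), [207, 1425], 8⟩,
  ⟨⟨9, -8, -68, -52, 5, 16, 8, 40, -31⟩, (.cons (nat_lit 365) (nat_lit 492) (nat_lit 1288) (nat_lit 1) (.cons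
 (nat_lit 2556) (nat_lit 2005) (nat_lit 775) (nat_lit 1) .nil)), (nat_lit 10), (nat_lit 32), (nat_lit 20),
 (nat_lit 1), (31, 27, 4), [1277, 2058], 27⟩,
  ⟨⟨39, 28, -56, 10, 33, 40, -18, 36, -19⟩, (.cons (nat_lit 1330) (nat_lit 1309) (nat_lit 1281) (nat_lit 1)
 (.cons (nat_lit 223) (nat_lit 2449) (nat_lit 1190) (nat_lit 1) .nil)), (nat_lit 46), (nat_lit 27), (nat_lit
 38), (nat_lit 1), (34, 6, 21), [1120, 1154], 5⟩,
  ⟨⟨15, -56, -11, -28, -5, -36, 40, -8, -47⟩, (.cons (nat_lit 1070) (nat_lit 146) (nat_lit 306) (nat_lit 1)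
 (.cons (nat_lit 20) (nat_lit 996) (nat_lit 2522) (nat_lit 1) .nil)), (nat_lit 9), (nat_lit 28), (nat_lit 25),
 (nat_lit 1), (31, 34, 12), [829, 2163], 37⟩,
  ⟨⟨1, 48, 36, -52, -5, 36, -8, 40, -23⟩, (.cons (nat_lit 1045) (nat_lit 310) (nat_lit 290) (nat_lit 1) (.cons
 (nat_lit 2556) (nat_lit 311) (nat_lit 2228) (nat_lit 1) .nil)), (nat_lit 38), (nat_lit 31), (nat_lit 32),
 (nat_lit 1), (38, 38, 14), [237, 2147], 37⟩,
  ⟨⟨31, 48, -4, -10, 17, -50, 46, -4, -35⟩, (.cons (nat_lit 469) (nat_lit 685) (nat_lit 1) (nat_lit 704) (.cons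
 (nat_lit 1055) (nat_lit 332) (nat_lit 1604) (nat_lit 1) .nil)), (nat_lit 34), (nat_lit 9), (nat_lit 16),
 (nat_lit 1), (15, 2, 12), [1028, 572], 2⟩,
  ⟨⟨-57, 4, 40, -8, -45, -26, -24, 24, -25⟩, (.cons (nat_lit 156) (nat_lit 700) (nat_lit 85) (nat_lit 1) (.cons
 (nat_lit 482) (nat_lit 1179) (nat_lit 1885) (nat_lit 1) .nil)), (nat_lit 11), (nat_lit 43), (nat_lit 29),
 (nat_lit 1), (25, 50, 44), [79, 14], 37⟩,
  ⟨⟨15, 32, 44, -50, 17, 30, 14, 44, -19⟩, (.cons (nat_lit 254) (nat_lit 355) (nat_lit 678) (nat_lit 1) (.cons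
 (nat_lit 482) (nat_lit 634) (nat_lit 2139) (nat_lit 1) .nil)), (nat_lit 34), (nat_lit 33), (nat_lit 30),
 (nat_lit 1), (27, 16, 4), [114, 1706], 2⟩,
  ⟨⟨-15, 32, 59, 50, 17, -20, -14, 44, -5⟩, (.cons (nat_lit 701) (nat_lit 681) (nat_lit 438) (nat_lit 1) (.cons
 (nat_lit 891) (nat_lit 482) (nat_lit 2029) (nat_lit 1) .nil)), (nat_lit 13), (nat_lit 33), (nat_lit 17),
 (nat_lit 1), (6, 33, 48), [769, 445], 2⟩,
  mz,
  ⟨⟨43, 12, 20, 30, 17, -60, 30, -36, -7⟩, (.cons (nat_lit 1330) (nat_lit 661) (nat_lit 212) (nat_lit 1) (.cons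
 (nat_lit 1953) (nat_lit 876) (nat_lit 410) (nat_lit 1) .nil)), (nat_lit 46), (nat_lit 34), (nat_lit 32),
 (nat_lit 1), (23, 37, 37), [69, 464], 1⟩,
  ⟨⟨1, -12, -64, 50, -17, -20, -14, -44, -5⟩, (.cons (nat_lit 732) (nat_lit 491) (nat_lit 584) (nat_lit 1)
 (.cons (nat_lit 1336) (nat_lit 6) (nat_lit 1185) (nat_lit 1) .nil)), (nat_lit 12), (nat_lit 2), (nat_lit 21),
 (nat_lit 1), (3, 44, 11), [123, 2653], 8⟩,
  ⟨⟨15, -52, 16, -10, 17, 60, 46, -4, -11⟩, (.cons (nat_lit 1311) (nat_lit 503) (nat_lit 1032) (nat_lit 1)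
 (.cons (nat_lit 1467) (nat_lit 2250) (nat_lit 1849) (nat_lit 1) .nil)), (nat_lit 4), (nat_lit 39), (nat_lit
 10), (nat_lit 1), (14, 26, 50), [47, 1463], 13⟩,
  ⟨⟨-39, -28, -17, 10, 33, -50, 18, -36, -37⟩, (.cons (nat_lit 454) (nat_lit 292) (nat_lit 107) (nat_lit 1)
 (.cons (nat_lit 1333) (nat_lit 1082) (nat_lit 2453) (nat_lit 1) .nil)), (nat_lit 1), (nat_lit 2), (nat_lit 4),
 (nat_lit 1), (5, 49, 14), [1267, 1692], 5⟩,
  ⟨⟨39, -28, -56, -10, 33, -40, -18, -36, -19⟩, (.cons (nat_lit 1330) (nat_lit 158) (nat_lit 1106) (nat_lit 1)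
 (.cons (nat_lit 1760) (nat_lit 1943) (nat_lit 2452) (nat_lit 1) .nil)), (nat_lit 46), (nat_lit 2), (nat_lit
 43), (nat_lit 1), (49, 35, 10), [599, 1221], 5⟩,
  mz,
  ⟨⟨43, 12, -63, -30, -17, -30, 30, -36, -23⟩, (.cons (nat_lit 1074) (nat_lit 20) (nat_lit 930) (nat_lit 1)
 (.cons (nat_lit 2374) (nat_lit 2513) (nat_lit 1923) (nat_lit 1) .nil)), (nat_lit 1), (nat_lit 19), (nat_lit
 12), (nat_lit 1), (2, 6, 47), [1171, 1454], 46⟩]

/-- Moves. -/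
noncomputable def t4_1 : List Mv := [
  mz,
  ⟨⟨-25, 12, -36, 22, -35, -36, 20, 28, -37⟩, (.cons (nat_lit 407) (nat_lit 204) (nat_lit 225) (nat_lit 1)
 (.cons (nat_lit 450) (nat_lit 2105) (nat_lit 2243) (nat_lit 1) .nil)), (nat_lit 2), (nat_lit 0), (nat_lit 0),
 (nat_lit 0), (2, 2, 36), [585, 1527], 0⟩,
  ⟨⟨-49, 12, 36, -2, -35, 36, -28, -20, -13⟩, (.cons (nat_lit 420) (nat_lit 835) (nat_lit 1) (nat_lit 572)
 (.cons (nat_lit 1005) (nat_lit 2461) (nat_lit 1412) (nat_lit 1) .nil)), (nat_lit 1), (nat_lit 0), (nat_lit 0),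
 (nat_lit 0), (17, 17, 3), [239, 1444], 0⟩,
  ⟨⟨-51, 4, 19, -2, -45, -14, -12, 12, -37⟩, (.cons (nat_lit 162) (nat_lit 126) (nat_lit 947) (nat_lit 1)
 (.cons (nat_lit 965) (nat_lit 2738) (nat_lit 2168) (nat_lit 1) .nil)), (nat_lit 33), (nat_lit 0), (nat_lit 0),
 (nat_lit 0), (7, 27, 21), [1003, 957], 0⟩,
  mz,
  ⟨⟨25, -12, -61, 22, -35, 14, -20, -28, -17⟩, (.cons (nat_lit 831) (nat_lit 98) (nat_lit 25) (nat_lit 1)
 (.cons (nat_lit 1368) (nat_lit 2340) (nat_lit 1505) (nat_lit 1) .nil)), (nat_lit 21), (nat_lit 0), (nat_lit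
 0), (nat_lit 0), (9, 38, 21), [1105, 114], 0⟩,
  mz,
  mz,
  mz,
  ⟨⟨-17, -48, 0, 40, -17, 0, 10, -16, -47⟩, (.cons (nat_lit 1212) (nat_lit 849) (nat_lit 377) (nat_lit 1)
 (.cons (nat_lit 1958) (nat_lit 1929) (nat_lit 1561) (nat_lit 1) .nil)), (nat_lit 36), (nat_lit 0), (nat_lit
 0), (nat_lit 0), (6, 8, 2), [738, 2576], 0⟩,
  mz,
  ⟨⟨17, 48, -17, 40, -17, -40, -10, 16, -37⟩, (.cons (nat_lit 799) (nat_lit 1115) (nat_lit 1136) (nat_lit 1)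
 (.cons (nat_lit 467) (nat_lit 2328) (nat_lit 205) (nat_lit 1) .nil)), (nat_lit 9), (nat_lit 0), (nat_lit 0),
 (nat_lit 0), (25, 45, 24), [1173, 1871], 0⟩,
  ⟨⟨17, -36, -45, -20, 23, -30, 38, 8, -37⟩, (.cons (nat_lit 1191) (nat_lit 1307) (nat_lit 899) (nat_lit 1)
 (.cons (nat_lit 2305) (nat_lit 1306) (nat_lit 2293) (nat_lit 1) .nil)), (nat_lit 32), (nat_lit 0), (nat_lit
 0), (nat_lit 0), (19, 44, 1), [1256, 421], 0⟩,
  mz,
  ⟨⟨-51, -4, 19, -2, 45, -14, -12, -12, -37⟩, (.cons (nat_lit 35) (nat_lit 888) (nat_lit 1) (nat_lit 418)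
 (.cons (nat_lit 75) (nat_lit 2535) (nat_lit 2103) (nat_lit 1) .nil)), (nat_lit 33), (nat_lit 0), (nat_lit 0),
 (nat_lit 0), (25, 36, 28), [339, 1581], 0⟩,
  ⟨⟨9, 4, -61, 40, 23, -10, 22, -32, -29⟩, (.cons (nat_lit 403) (nat_lit 1091) (nat_lit 400) (nat_lit 1) (.cons
 (nat_lit 2557) (nat_lit 2620) (nat_lit 290) (nat_lit 1) .nil)), (nat_lit 35), (nat_lit 0), (nat_lit 0),
 (nat_lit 0), (18, 33, 44), [217, 2418], 0⟩,
  ⟨⟨-13, 36, 45, 40, 23, -30, -22, 32, -7⟩, (.cons (nat_lit 789) (nat_lit 984) (nat_lit 296) (nat_lit 1) (.cons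
 (nat_lit 1162) (nat_lit 678) (nat_lit 1062) (nat_lit 1) .nil)), (nat_lit 27), (nat_lit 0), (nat_lit 0),
 (nat_lit 0), (5, 28, 41), [1073, 2383], 0⟩,
  mz,
  ⟨⟨19, 0, -63, 0, -47, 0, 42, 0, -23⟩, (.cons (nat_lit 1006) (nat_lit 860) (nat_lit 172) (nat_lit 1) (.cons
 (nat_lit 1268) (nat_lit 845) (nat_lit 1757) (nat_lit 1) .nil)), (nat_lit 29), (nat_lit 0), (nat_lit 0),
 (nat_lit 0), (16, 0, 23), [1061, 279], 0⟩,
  ⟨⟨-39, 32, 8, -20, -33, -20, 6, 24, -41⟩, (.cons (nat_lit 585) (nat_lit 593) (nat_lit 184) (nat_lit 1) (.cons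
 (nat_lit 2528) (nat_lit 2551) (nat_lit 1190) (nat_lit 1) .nil)), (nat_lit 22), (nat_lit 0), (nat_lit 0),
 (nat_lit 0), (25, 8, 7), [377, 1864], 0⟩,
  ⟨⟨17, -36, 28, -20, 23, 50, 38, 8, -1⟩, (.cons (nat_lit 1039) (nat_lit 1187) (nat_lit 1279) (nat_lit 1)
 (.cons (nat_lit 1917) (nat_lit 1024) (nat_lit 881) (nat_lit 1) .nil)), (nat_lit 32), (nat_lit 0), (nat_lit 0),
 (nat_lit 0), (2, 17, 10), [966, 1511], 0⟩,
  ⟨⟨21, 32, -49, -2, 35, 36, -28, 20, -13⟩, (.cons (nat_lit 740) (nat_lit 1205) (nat_lit 290) (nat_lit 1)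
 (.cons (nat_lit 55) (nat_lit 1992) (nat_lit 186) (nat_lit 1) .nil)), (nat_lit 46), (nat_lit 0), (nat_lit 0),
 (nat_lit 0), (30, 24, 7), [767, 1297], 0⟩,
  ⟨⟨45, 8, -49, -20, 33, -20, 6, -24, -41⟩, (.cons (nat_lit 172) (nat_lit 232) (nat_lit 1123) (nat_lit 1)
 (.cons (nat_lit 236) (nat_lit 2083) (nat_lit 2241) (nat_lit 1) .nil)), (nat_lit 25), (nat_lit 0), (nat_lit 0),
 (nat_lit 0), (40, 24, 21), [1225, 2149], 0⟩,
  mz,
  mz,
  ⟨⟨-45, 8, -4, 20, 33, -40, -6, -24, -35⟩, (.cons (nat_lit 1330) (nat_lit 1150) (nat_lit 154) (nat_lit 1)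
 (.cons (nat_lit 2808) (nat_lit 525) (nat_lit 1775) (nat_lit 1) .nil)), (nat_lit 25), (nat_lit 0), (nat_lit 0),
 (nat_lit 0), (40, 24, 21), [327, 2565], 0⟩,
  ⟨⟨-21, 32, -28, -2, -35, -34, 28, 20, -41⟩, (.cons (nat_lit 187) (nat_lit 1246) (nat_lit 351) (nat_lit 1)
 (.cons (nat_lit 768) (nat_lit 1206) (nat_lit 570) (nat_lit 1) .nil)), (nat_lit 5), (nat_lit 0), (nat_lit 0),
 (nat_lit 0), (30, 23, 7), [1157, 43], 0⟩,
  ⟨⟨21, -44, 8, 20, 23, 30, 38, -8, -37⟩, (.cons (nat_lit 599) (nat_lit 1005) (nat_lit 965) (nat_lit 1) (.cons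
 (nat_lit 26) (nat_lit 517) (nat_lit 923) (nat_lit 1) .nil)), (nat_lit 31), (nat_lit 0), (nat_lit 0), (nat_lit
 0), (39, 17, 37), [147, 2508], 0⟩,
  ⟨⟨-45, -8, -4, -20, 33, 40, -6, 24, -35⟩, (.cons (nat_lit 1330) (nat_lit 1318) (nat_lit 722) (nat_lit 1)
 (.cons (nat_lit 2808) (nat_lit 2220) (nat_lit 138) (nat_lit 1) .nil)), (nat_lit 28), (nat_lit 0), (nat_lit 0),
 (nat_lit 0), (29, 39, 7), [534, 2776], 0⟩,
  ⟨⟨19, 0, 44, 0, -47, 0, 42, 0, -19⟩, (.cons (nat_lit 1330) (nat_lit 953) (nat_lit 555) (nat_lit 1) (.cons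
 (nat_lit 2808) (nat_lit 1245) (nat_lit 1608) (nat_lit 1) .nil)), (nat_lit 29), (nat_lit 0), (nat_lit 0),
 (nat_lit 0), (31, 0, 24), [35, 906], 0⟩,
  mz,
  ⟨⟨13, 36, 32, -40, 23, 10, 22, 32, -29⟩, (.cons (nat_lit 20) (nat_lit 1196) (nat_lit 665) (nat_lit 1) (.cons
 (nat_lit 2701) (nat_lit 2465) (nat_lit 1369) (nat_lit 1) .nil)), (nat_lit 27), (nat_lit 0), (nat_lit 0),
 (nat_lit 0), (5, 28, 41), [236, 386], 0⟩,
  ⟨⟨-9, 4, -52, 40, -23, -30, -22, -32, -7⟩, (.cons (nat_lit 196) (nat_lit 273) (nat_lit 875) (nat_lit 1)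
 (.cons (nat_lit 1225) (nat_lit 1223) (nat_lit 2240) (nat_lit 1) .nil)), (nat_lit 20), (nat_lit 0), (nat_lit
 0), (nat_lit 0), (18, 14, 44), [1086, 88], 0⟩,
  ⟨⟨-39, -8, -17, -2, -45, 16, 12, -12, -49⟩, (.cons (nat_lit 304) (nat_lit 295) (nat_lit 939) (nat_lit 1)
 (.cons (nat_lit 294) (nat_lit 1211) (nat_lit 251) (nat_lit 1) .nil)), (nat_lit 3), (nat_lit 0), (nat_lit 0),
 (nat_lit 0), (3, 11, 28), [1077, 2629], 0⟩,
  mz,
  ⟨⟨17, 36, 28, 20, 23, -50, 38, -8, -1⟩, (.cons (nat_lit 1145) (nat_lit 1090) (nat_lit 434) (nat_lit 1) (.cons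
 (nat_lit 215) (nat_lit 291) (nat_lit 2196) (nat_lit 1) .nil)), (nat_lit 16), (nat_lit 0), (nat_lit 0),
 (nat_lit 0), (28, 44, 46), [221, 1995], 0⟩,
  ⟨⟨-17, 48, 0, -40, -17, 0, 10, 16, -47⟩, (.cons (nat_lit 1029) (nat_lit 846) (nat_lit 719) (nat_lit 1) (.cons
 (nat_lit 406) (nat_lit 537) (nat_lit 1068) (nat_lit 1) .nil)), (nat_lit 9), (nat_lit 0), (nat_lit 0), (nat_lit
 0), (25, 45, 24), [1213, 669], 0⟩,
  mz,
  ⟨⟨17, -48, -17, -40, -17, 40, -10, -16, -37⟩, (.cons (nat_lit 1254) (nat_lit 64) (nat_lit 785) (nat_lit 1)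
 (.cons (nat_lit 1171) (nat_lit 1580) (nat_lit 1334) (nat_lit 1) .nil)), (nat_lit 36), (nat_lit 0), (nat_lit
 0), (nat_lit 0), (6, 8, 2), [288, 1020], 0⟩,
  mz,
  mz,
  mz,
  ⟨⟨45, -16, -1, 22, 35, -36, 20, -28, -37⟩, (.cons (nat_lit 168) (nat_lit 911) (nat_lit 351) (nat_lit 1)
 (.cons (nat_lit 850) (nat_lit 235) (nat_lit 200) (nat_lit 1) .nil)), (nat_lit 45), (nat_lit 0), (nat_lit 0),
 (nat_lit 0), (12, 9, 21), [536, 502], 0⟩,
  mz,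
  ⟨⟨-39, 8, -17, -2, 45, 16, 12, 12, -49⟩, (.cons (nat_lit 803) (nat_lit 575) (nat_lit 646) (nat_lit 1) (.cons
 (nat_lit 1101) (nat_lit 1428) (nat_lit 1083) (nat_lit 1) .nil)), (nat_lit 3), (nat_lit 0), (nat_lit 0),
 (nat_lit 0), (14, 20, 21), [1050, 241], 0⟩,
  ⟨⟨-21, -32, -28, -2, 35, -34, 28, -20, -41⟩, (.cons (nat_lit 454) (nat_lit 1151) (nat_lit 909) (nat_lit 1)
 (.cons (nat_lit 1130) (nat_lit 1754) (nat_lit 803) (nat_lit 1) .nil)), (nat_lit 5), (nat_lit 0), (nat_lit 0),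
 (nat_lit 0), (33, 30, 3), [995, 1728], 0⟩,
  ⟨⟨-45, 16, 44, -22, -35, -14, -20, 28, -17⟩, (.cons (nat_lit 1324) (nat_lit 1108) (nat_lit 1252) (nat_lit 1)
 (.cons (nat_lit 2321) (nat_lit 150) (nat_lit 1631) (nat_lit 1) .nil)), (nat_lit 45), (nat_lit 0), (nat_lit 0),
 (nat_lit 0), (34, 2, 36), [446, 1777], 0⟩]

/-- Moves. -/
noncomputable def t4_4 : List Mv := [
  mz,
  ⟨⟨45, 16, -1, 22, -35, -36, 20, 28, -37⟩, (.cons (nat_lit 1014) (nat_lit 454) (nat_lit 909) (nat_lit 1)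
 (.cons (nat_lit 1786) (nat_lit 2312) (nat_lit 1761) (nat_lit 1) .nil)), (nat_lit 45), (nat_lit 0), (nat_lit
 0), (nat_lit 0), (34, 2, 36), [163, 2684], 0⟩,
  ⟨⟨21, -32, -49, 2, 35, -36, -28, -20, -13⟩, (.cons (nat_lit 687) (nat_lit 154) (nat_lit 1252) (nat_lit 1)
 (.cons (nat_lit 674) (nat_lit 1959) (nat_lit 2802) (nat_lit 1) .nil)), (nat_lit 5), (nat_lit 0), (nat_lit 0),
 (nat_lit 0), (33, 30, 3), [183, 780], 0⟩,
  ⟨⟨-51, 4, 19, 2, 45, 14, -12, 12, -37⟩, (.cons (nat_lit 785) (nat_lit 1165) (nat_lit 1) (nat_lit 792) (.cons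
 (nat_lit 870) (nat_lit 2027) (nat_lit 1614) (nat_lit 1) .nil)), (nat_lit 44), (nat_lit 0), (nat_lit 0),
 (nat_lit 0), (7, 20, 21), [1213, 2058], 0⟩,
  mz,
  ⟨⟨-45, -16, 44, -22, 35, -14, -20, -28, -17⟩, (.cons (nat_lit 730) (nat_lit 962) (nat_lit 599) (nat_lit 1)
 (.cons (nat_lit 1668) (nat_lit 1306) (nat_lit 489) (nat_lit 1) .nil)), (nat_lit 45), (nat_lit 0), (nat_lit 0),
 (nat_lit 0), (12, 9, 21), [1037, 920], 0⟩,
  mz,
  mz,
  mz,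
  ⟨⟨27, 32, -47, -40, 17, 0, 10, -16, -47⟩, (.cons (nat_lit 1109) (nat_lit 47) (nat_lit 529) (nat_lit 1) (.cons
 (nat_lit 2711) (nat_lit 2721) (nat_lit 1923) (nat_lit 1) .nil)), (nat_lit 38), (nat_lit 0), (nat_lit 0),
 (nat_lit 0), (43, 39, 2), [1060, 548], 0⟩,
  mz,
  ⟨⟨17, 48, -17, 40, -17, -40, -10, 16, -37⟩, (.cons (nat_lit 799) (nat_lit 1115) (nat_lit 1136) (nat_lit 1)
 (.cons (nat_lit 467) (nat_lit 2328) (nat_lit 205) (nat_lit 1) .nil)), (nat_lit 9), (nat_lit 0), (nat_lit 0),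
 (nat_lit 0), (25, 45, 24), [1173, 1871], 0⟩,
  ⟨⟨17, -36, -45, -20, 23, -30, 38, 8, -37⟩, (.cons (nat_lit 1191) (nat_lit 1307) (nat_lit 899) (nat_lit 1)
 (.cons (nat_lit 2305) (nat_lit 1306) (nat_lit 2293) (nat_lit 1) .nil)), (nat_lit 32), (nat_lit 0), (nat_lit
 0), (nat_lit 0), (19, 44, 1), [1256, 421], 0⟩,
  mz,
  ⟨⟨-51, -4, 19, -2, 45, -14, -12, -12, -37⟩, (.cons (nat_lit 35) (nat_lit 888) (nat_lit 1) (nat_lit 418)
 (.cons (nat_lit 75) (nat_lit 2535) (nat_lit 2103) (nat_lit 1) .nil)), (nat_lit 33), (nat_lit 0), (nat_lit 0),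
 (nat_lit 0), (25, 36, 28), [339, 1581], 0⟩,
  ⟨⟨9, 4, -61, 40, 23, -10, 22, -32, -29⟩, (.cons (nat_lit 403) (nat_lit 1091) (nat_lit 400) (nat_lit 1) (.cons
 (nat_lit 2557) (nat_lit 2620) (nat_lit 290) (nat_lit 1) .nil)), (nat_lit 35), (nat_lit 0), (nat_lit 0),
 (nat_lit 0), (18, 33, 44), [217, 2418], 0⟩,
  ⟨⟨-9, -4, -52, -40, -23, 30, -22, 32, -7⟩, (.cons (nat_lit 551) (nat_lit 1022) (nat_lit 446) (nat_lit 1)
 (.cons (nat_lit 601) (nat_lit 2076) (nat_lit 434) (nat_lit 1) .nil)), (nat_lit 35), (nat_lit 0), (nat_lit 0),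
 (nat_lit 0), (36, 19, 41), [1220, 2393], 0⟩,
  mz,
  ⟨⟨19, 0, -63, 0, -47, 0, 42, 0, -23⟩, (.cons (nat_lit 1006) (nat_lit 860) (nat_lit 172) (nat_lit 1) (.cons
 (nat_lit 1268) (nat_lit 845) (nat_lit 1757) (nat_lit 1) .nil)), (nat_lit 29), (nat_lit 0), (nat_lit 0),
 (nat_lit 0), (16, 0, 23), [1061, 279], 0⟩,
  ⟨⟨-39, 32, 8, -20, -33, -20, 6, 24, -41⟩, (.cons (nat_lit 585) (nat_lit 593) (nat_lit 184) (nat_lit 1) (.cons
 (nat_lit 2528) (nat_lit 2551) (nat_lit 1190) (nat_lit 1) .nil)), (nat_lit 22), (nat_lit 0), (nat_lit 0),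
 (nat_lit 0), (25, 8, 7), [377, 1864], 0⟩,
  ⟨⟨17, -36, 28, -20, 23, 50, 38, 8, -1⟩, (.cons (nat_lit 1039) (nat_lit 1187) (nat_lit 1279) (nat_lit 1)
 (.cons (nat_lit 1917) (nat_lit 1024) (nat_lit 881) (nat_lit 1) .nil)), (nat_lit 32), (nat_lit 0), (nat_lit 0),
 (nat_lit 0), (2, 17, 10), [966, 1511], 0⟩,
  ⟨⟨21, 32, -49, 2, -35, -36, -28, 20, -13⟩, (.cons (nat_lit 189) (nat_lit 112) (nat_lit 599) (nat_lit 1)
 (.cons (nat_lit 885) (nat_lit 2142) (nat_lit 2350) (nat_lit 1) .nil)), (nat_lit 5), (nat_lit 0), (nat_lit 0),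
 (nat_lit 0), (30, 23, 7), [900, 776], 0⟩,
  ⟨⟨45, 8, -49, 20, -33, 20, 6, -24, -41⟩, (.cons (nat_lit 287) (nat_lit 80) (nat_lit 940) (nat_lit 1) (.cons
 (nat_lit 79) (nat_lit 2221) (nat_lit 773) (nat_lit 1) .nil)), (nat_lit 28), (nat_lit 0), (nat_lit 0), (nat_lit
 0), (40, 23, 21), [915, 1087], 0⟩,
  mz,
  mz,
  ⟨⟨39, -32, -31, 20, 33, -40, -6, -24, -35⟩, (.cons (nat_lit 503) (nat_lit 432) (nat_lit 806) (nat_lit 1)
 (.cons (nat_lit 2321) (nat_lit 2455) (nat_lit 907) (nat_lit 1) .nil)), (nat_lit 22), (nat_lit 0), (nat_lit 0),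
 (nat_lit 0), (28, 24, 21), [696, 2555], 0⟩,
  ⟨⟨-21, 32, -28, -2, -35, -34, 28, 20, -41⟩, (.cons (nat_lit 187) (nat_lit 1246) (nat_lit 351) (nat_lit 1)
 (.cons (nat_lit 768) (nat_lit 1206) (nat_lit 570) (nat_lit 1) .nil)), (nat_lit 5), (nat_lit 0), (nat_lit 0),
 (nat_lit 0), (30, 23, 7), [1157, 43], 0⟩,
  ⟨⟨17, 36, -45, -20, -23, -30, 38, -8, -37⟩, (.cons (nat_lit 991) (nat_lit 898) (nat_lit 1159) (nat_lit 1)
 (.cons (nat_lit 139) (nat_lit 1671) (nat_lit 1217) (nat_lit 1) .nil)), (nat_lit 32), (nat_lit 0), (nat_lit 0),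
 (nat_lit 0), (45, 30, 37), [1181, 2389], 0⟩,
  ⟨⟨39, 32, -31, 20, -33, -40, -6, 24, -35⟩, (.cons (nat_lit 320) (nat_lit 1020) (nat_lit 6) (nat_lit 1) (.cons
 (nat_lit 2489) (nat_lit 43) (nat_lit 168) (nat_lit 1) .nil)), (nat_lit 22), (nat_lit 0), (nat_lit 0), (nat_lit
 0), (25, 8, 7), [255, 2175], 0⟩,
  ⟨⟨19, 0, 44, 0, 47, 0, 42, 0, -19⟩, (.cons (nat_lit 1330) (nat_lit 658) (nat_lit 614) (nat_lit 1) (.cons
 (nat_lit 2808) (nat_lit 964) (nat_lit 1318) (nat_lit 1) .nil)), (nat_lit 29), (nat_lit 0), (nat_lit 0),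
 (nat_lit 0), (31, 0, 24), [565, 2269], 0⟩,
  mz,
  ⟨⟨9, -4, -61, 40, -23, -10, 22, 32, -29⟩, (.cons (nat_lit 276) (nat_lit 515) (nat_lit 129) (nat_lit 1) (.cons
 (nat_lit 457) (nat_lit 2081) (nat_lit 2434) (nat_lit 1) .nil)), (nat_lit 35), (nat_lit 0), (nat_lit 0),
 (nat_lit 0), (36, 19, 41), [257, 481], 0⟩,
  ⟨⟨-9, 4, -52, 40, -23, -30, -22, -32, -7⟩, (.cons (nat_lit 196) (nat_lit 273) (nat_lit 875) (nat_lit 1)
 (.cons (nat_lit 1225) (nat_lit 1223) (nat_lit 2240) (nat_lit 1) .nil)), (nat_lit 20), (nat_lit 0), (nat_lit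
 0), (nat_lit 0), (18, 14, 44), [1086, 88], 0⟩,
  ⟨⟨-39, -8, -17, 2, 45, -16, 12, -12, -49⟩, (.cons (nat_lit 88) (nat_lit 469) (nat_lit 38) (nat_lit 1) (.cons
 (nat_lit 412) (nat_lit 528) (nat_lit 1545) (nat_lit 1) .nil)), (nat_lit 14), (nat_lit 0), (nat_lit 0),
 (nat_lit 0), (3, 36, 28), [1039, 1831], 0⟩,
  mz,
  ⟨⟨21, -44, -29, -20, -23, 50, 38, -8, -1⟩, (.cons (nat_lit 360) (nat_lit 1216) (nat_lit 1079) (nat_lit 1)
 (.cons (nat_lit 1215) (nat_lit 2106) (nat_lit 1584) (nat_lit 1) .nil)), (nat_lit 15), (nat_lit 0), (nat_lit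
 0), (nat_lit 0), (18, 3, 46), [830, 2228], 0⟩,
  ⟨⟨27, -32, -47, -40, -17, 0, 10, 16, -47⟩, (.cons (nat_lit 646) (nat_lit 1248) (nat_lit 1) (nat_lit 836)
 (.cons (nat_lit 403) (nat_lit 903) (nat_lit 1726) (nat_lit 1) .nil)), (nat_lit 38), (nat_lit 0), (nat_lit 0),
 (nat_lit 0), (46, 45, 24), [370, 2023], 0⟩,
  mz,
  ⟨⟨-27, 32, -20, 40, 17, -40, -10, -16, -37⟩, (.cons (nat_lit 1330) (nat_lit 360) (nat_lit 616) (nat_lit 1)
 (.cons (nat_lit 2808) (nat_lit 736) (nat_lit 2199) (nat_lit 1) .nil)), (nat_lit 38), (nat_lit 0), (nat_lit 0),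
 (nat_lit 0), (43, 39, 2), [294, 2674], 0⟩,
  mz,
  mz,
  mz,
  ⟨⟨45, -16, -1, 22, 35, -36, 20, -28, -37⟩, (.cons (nat_lit 168) (nat_lit 911) (nat_lit 351) (nat_lit 1)
 (.cons (nat_lit 850) (nat_lit 235) (nat_lit 200) (nat_lit 1) .nil)), (nat_lit 45), (nat_lit 0), (nat_lit 0),
 (nat_lit 0), (12, 9, 21), [536, 502], 0⟩,
  mz,
  ⟨⟨51, 4, -32, 2, -45, -16, 12, 12, -49⟩, (.cons (nat_lit 764) (nat_lit 255) (nat_lit 869) (nat_lit 1) (.cons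
 (nat_lit 759) (nat_lit 351) (nat_lit 1594) (nat_lit 1) .nil)), (nat_lit 33), (nat_lit 0), (nat_lit 0),
 (nat_lit 0), (7, 27, 21), [81, 796], 0⟩,
  ⟨⟨49, 12, -13, -2, 35, -34, 28, -20, -41⟩, (.cons (nat_lit 103) (nat_lit 668) (nat_lit 1115) (nat_lit 1)
 (.cons (nat_lit 1193) (nat_lit 545) (nat_lit 165) (nat_lit 1) .nil)), (nat_lit 42), (nat_lit 0), (nat_lit 0),
 (nat_lit 0), (17, 30, 3), [392, 1848], 0⟩,
  ⟨⟨25, 12, -61, 22, 35, 14, -20, 28, -17⟩, (.cons (nat_lit 268) (nat_lit 493) (nat_lit 809) (nat_lit 1) (.cons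
 (nat_lit 2094) (nat_lit 117) (nat_lit 967) (nat_lit 1) .nil)), (nat_lit 21), (nat_lit 0), (nat_lit 0),
 (nat_lit 0), (2, 45, 36), [249, 2802], 0⟩]

/-- All the moves. -/
noncomputable def tabs : List (List (List Mv)) := [[[], t0_1, [], [], t0_4], [[], t1_1, [], [], t1_4], [], [], [[], t4_1, [], [], t4_4]]

/-- Subtrie. -/
noncomputable def T1 : Tr := (.ev (nat_lit 20) (nat_lit 74766892226560) (.nd (nat_lit 33) (.br (nat_lit 31)
 (.br (nat_lit 16) (.br (nat_lit 10) (.br (nat_lit 6) (.br (nat_lit 5) (.ch (nat_lit 4) (.ev (nat_lit 52)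
 (nat_lit 17596488351752) (.ev (nat_lit 64) (nat_lit 35574006186534) .dd))) (.ch (nat_lit 5) (.ev (nat_lit 52)
 (nat_lit 35502333886502) (.ev (nat_lit 84) (nat_lit 538968064) (.ev (nat_lit 116) (nat_lit 268435968) (.ev
 (nat_lit 212) (nat_lit 17592190238720) (.ev (nat_lit 624) (nat_lit 1081344) (.nd (nat_lit 976) (.br (nat_lit
 5) (.br (nat_lit 2) (.ch (nat_lit 0) (.ev (nat_lit 992) (nat_lit 68719476744) (.fin (nat_lit
 576461302061810230)))) (.ch (nat_lit 2) (.ev (nat_lit 992) (nat_lit 2147483656) (.ev (nat_lit 1024) (nat_lit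
 68719476736) (.ev (nat_lit 1037) (nat_lit 4294967296) .dd))))) (.br (nat_lit 7) (.ch (nat_lit 5) (.ev (nat_lit
 992) (nat_lit 75161927688) .dd)) (.ch (nat_lit 7) (.ev (nat_lit 992) (nat_lit 73014444032) (.ev (nat_lit 1140)
 (nat_lit 2147483648) (.ev (nat_lit 1149) (nat_lit 8) .dd)))))))))))))) (.br (nat_lit 9) (.ch (nat_lit 6) (.ev
 (nat_lit 52) (nat_lit 35229474488328) (.ev (nat_lit 84) (nat_lit 4297064448) (.ev (nat_lit 116) (nat_lit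
 134217728) (.ev (nat_lit 352) (nat_lit 17867332386816) (.ev (nat_lit 944) (nat_lit 536870912) (.nd (nat_lit
 976) (.br (nat_lit 5) (.ch (nat_lit 1) (.ev (nat_lit 992) (nat_lit 68719476772) (.ev (nat_lit 1088) (nat_lit
 32768) (.ev (nat_lit 1152) (nat_lit 514) .dd)))) (.br (nat_lit 7) (.ch (nat_lit 5) (.ev (nat_lit 992) (nat_lit
 546) (.ev (nat_lit 1104) (nat_lit 32768) (.ev (nat_lit 1152) (nat_lit 68719476740) .dd)))) (.ch (nat_lit 7)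
 (.ev (nat_lit 992) (nat_lit 68719510022) (.ev (nat_lit 1005) (nat_lit 32) .dd)))))))))))) (.ch (nat_lit 9)
 (.ev (nat_lit 52) (nat_lit 35564476695076) (.ev (nat_lit 84) (nat_lit 2) (.ev (nat_lit 116) (nat_lit 1048576)
 (.ev (nat_lit 148) (nat_lit 17592190238720) (.ev (nat_lit 256) (nat_lit 5100306432) (.ev (nat_lit 752)
 (nat_lit 136314880) (.nd (nat_lit 976) (.br (nat_lit 2) (.ch (nat_lit 1) (.fin (nat_lit 576461302059713087)))
 (.br (nat_lit 9) (.ch (nat_lit 2) (.ev (nat_lit 992) (nat_lit 8589934600) .dd)) (.ch (nat_lit 9) (.ev (nat_lit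
 992) (nat_lit 8589934600) .dd)))))))))))))) (.br (nat_lit 12) (.br (nat_lit 11) (.ch (nat_lit 10) (.ev
 (nat_lit 52) (nat_lit 17606012600840) (.ev (nat_lit 84) (nat_lit 34359738368) (.ev (nat_lit 116) (nat_lit 4)
 (.ev (nat_lit 180) (nat_lit 68719476736) (.ev (nat_lit 720) (nat_lit 2151677952) (.nd (nat_lit 976) (.br
 (nat_lit 7) (.br (nat_lit 2) (.ch (nat_lit 0) (.ev (nat_lit 992) (nat_lit 35184373137410) (.ev (nat_lit 1140)
 (nat_lit 32) (.ev (nat_lit 1149) (nat_lit 274877906944) .dd)))) (.br (nat_lit 5) (.ch (nat_lit 2) (.ev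
 (nat_lit 992) (nat_lit 35459251044354) (.ev (nat_lit 1005) (nat_lit 32) .dd))) (.ch (nat_lit 5) (.ev (nat_lit
 992) (nat_lit 274877906976) (.ev (nat_lit 1072) (nat_lit 35184373137408) (.ev (nat_lit 1085) (nat_lit 2)
 .dd)))))) (.br (nat_lit 9) (.ch (nat_lit 7) (.ev (nat_lit 992) (nat_lit 35459251044386) .dd)) (.br (nat_lit
 10) (.ch (nat_lit 9) (.ev (nat_lit 992) (nat_lit 35459251044384) (.ev (nat_lit 1005) (nat_lit 2) .dd))) (.ch
 (nat_lit 10) (.ev (nat_lit 992) (nat_lit 35459249995810) (.ev (nat_lit 1005) (nat_lit 1048576)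
 .dd))))))))))))) (.ch (nat_lit 11) (.ev (nat_lit 52) (nat_lit 35460057399850) (.ev (nat_lit 96) (nat_lit
 17710437138436) .dd)))) (.br (nat_lit 15) (.ch (nat_lit 12) (.ev (nat_lit 52) (nat_lit 17695401607210) (.ev
 (nat_lit 84) (nat_lit 35184372088832) (.ev (nat_lit 116) (nat_lit 8594128900) (.ev (nat_lit 212) (nat_lit
 274877906944) (.ev (nat_lit 384) (nat_lit 269484032) (.nd (nat_lit 976) (.br (nat_lit 5) (.br (nat_lit 1) (.ch
 (nat_lit 0) (.ev (nat_lit 992) (nat_lit 536871424) (.fin (nat_lit 576461302061810230)))) (.ch (nat_lit 1) (.ev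
 (nat_lit 992) (nat_lit 4831838208) (.ev (nat_lit 1140) (nat_lit 2147483648) (.ev (nat_lit 1149) (nat_lit 512)
 .dd))))) (.br (nat_lit 7) (.ch (nat_lit 5) (.ev (nat_lit 992) (nat_lit 2147484160) (.ev (nat_lit 1024)
 (nat_lit 536870912) (.ev (nat_lit 1037) (nat_lit 4294967296) .dd)))) (.ch (nat_lit 7) (.ev (nat_lit 992)
 (nat_lit 6979322368) .dd))))))))))) (.ch (nat_lit 15) (.ev (nat_lit 52) (nat_lit 35195378991620) (.ev (nat_lit
 84) (nat_lit 4194336) (.ev (nat_lit 116) (nat_lit 536870920) (.ev (nat_lit 148) (nat_lit 343597383680) (.ev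
 (nat_lit 512) (nat_lit 4431282176) (.nd (nat_lit 976) (.br (nat_lit 9) (.ch (nat_lit 1) (.ev (nat_lit 992)
 (nat_lit 34359738368) (.ev (nat_lit 1008) (nat_lit 2) (.ev (nat_lit 1168) (nat_lit 17592186077184) .dd))))
 (.br (nat_lit 10) (.ch (nat_lit 9) (.ev (nat_lit 992) (nat_lit 17626545815552) (.ev (nat_lit 1005) (nat_lit 2)
 .dd))) (.ch (nat_lit 10) (.ev (nat_lit 992) (nat_lit 17592186077186) (.ev (nat_lit 1005) (nat_lit 34359738368)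
 .dd))))))))))))))) (.br (nat_lit 22) (.br (nat_lit 18) (.br (nat_lit 17) (.ch (nat_lit 16) (.ev (nat_lit 52)
 (nat_lit 2423291944) (.ev (nat_lit 84) (nat_lit 52776558133248) (.ev (nat_lit 116) (nat_lit 34359738368) (.ev
 (nat_lit 180) (nat_lit 8589934592) (.ev (nat_lit 736) (nat_lit 671088640) (.nd (nat_lit 976) (.br (nat_lit 9)
 (.br (nat_lit 2) (.ch (nat_lit 1) (.ev (nat_lit 992) (nat_lit 347892350980) (.ev (nat_lit 1040) (nat_lit 2)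
 (.ev (nat_lit 1053) (nat_lit 512) .dd)))) (.ch (nat_lit 2) (.ev (nat_lit 992) (nat_lit 73014444546) (.ev
 (nat_lit 1056) (nat_lit 274877906944) (.ev (nat_lit 1069) (nat_lit 4) .dd))))) (.br (nat_lit 10) (.ch (nat_lit
 9) (.ev (nat_lit 992) (nat_lit 279172874754) (.ev (nat_lit 1008) (nat_lit 68719476736) (.ev (nat_lit 1021)
 (nat_lit 4) .dd)))) (.ch (nat_lit 10) (.ev (nat_lit 992) (nat_lit 343597384198) (.ev (nat_lit 1005) (nat_lit
 4294967296) .dd)))))))))))) (.ch (nat_lit 17) (.ev (nat_lit 52) (nat_lit 35197530669570) (.ev (nat_lit 84)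
 (nat_lit 673185792) (.ev (nat_lit 116) (nat_lit 32768) (.ev (nat_lit 148) (nat_lit 40) (.ev (nat_lit 180)
 (nat_lit 17592186044416) (.ev (nat_lit 560) (nat_lit 309237645312) (.nd (nat_lit 976) (.br (nat_lit 5) (.ch
 (nat_lit 1) (.ev (nat_lit 992) (nat_lit 70866960388) .dd)) (.br (nat_lit 9) (.ch (nat_lit 5) (.ev (nat_lit
 992) (nat_lit 2147483648) (.ev (nat_lit 1040) (nat_lit 4) (.ev (nat_lit 1053) (nat_lit 68719476736) .dd))))
 (.ch (nat_lit 9) (.ev (nat_lit 992) (nat_lit 68719476740) (.ev (nat_lit 1005) (nat_lit 2147483648)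
 .dd)))))))))))))) (.br (nat_lit 21) (.ch (nat_lit 18) (.ev (nat_lit 52) (nat_lit 35536559407622) (.ev (nat_lit
 84) (nat_lit 17592454479872) (.ev (nat_lit 116) (nat_lit 1048576) (.ev (nat_lit 148) (nat_lit 536870912) (.ev
 (nat_lit 180) (nat_lit 4294967296) (.ev (nat_lit 244) (nat_lit 34359738368) (.ev (nat_lit 688) (nat_lit 32800)
 (.nd (nat_lit 976) (.br (nat_lit 5) (.br (nat_lit 2) (.ch (nat_lit 0) (.ev (nat_lit 992) (nat_lit 140509192)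
 (.ev (nat_lit 1005) (nat_lit 2147483648) .dd))) (.ch (nat_lit 2) (.ev (nat_lit 992) (nat_lit 2283798528) (.ev
 (nat_lit 1024) (nat_lit 8) (.ev (nat_lit 1037) (nat_lit 4194304) .dd))))) (.br (nat_lit 7) (.ch (nat_lit 5)
 (.ev (nat_lit 992) (nat_lit 2287992840) .dd)) (.ch (nat_lit 7) (.ev (nat_lit 992) (nat_lit 2147483656) (.ev
 (nat_lit 1024) (nat_lit 134217728) (.nd (nat_lit 1184) (.br (nat_lit 10) (.ch (nat_lit 4) (.fin (nat_lit
 576470098140152371))) (.ch (nat_lit 10) (.ev (nat_lit 1200) (nat_lit 6291456) .dd)))))))))))))))))) (.ch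
 (nat_lit 21) (.ev (nat_lit 52) (nat_lit 343600562728) (.ev (nat_lit 84) (nat_lit 8589934594) (.ev (nat_lit 96)
 (nat_lit 52818304040964) .dd)))))) (.br (nat_lit 26) (.br (nat_lit 24) (.ch (nat_lit 22) (.ev (nat_lit 52)
 (nat_lit 17599165399586) (.ev (nat_lit 84) (nat_lit 35218731827200) (.ev (nat_lit 116) (nat_lit 1048576) (.ev
 (nat_lit 160) (nat_lit 352596262924) .dd))))) (.ch (nat_lit 24) (.ev (nat_lit 52) (nat_lit 113952981518) (.ev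
 (nat_lit 116) (nat_lit 268435456) (.ev (nat_lit 640) (nat_lit 4299161600) (.nd (nat_lit 976) (.br (nat_lit 7)
 (.br (nat_lit 1) (.ch (nat_lit 0) (.ev (nat_lit 992) (nat_lit 52777096052768) (.ev (nat_lit 1005) (nat_lit
 274877906944) .dd))) (.ch (nat_lit 1) (.ev (nat_lit 992) (nat_lit 35459251044384) (.ev (nat_lit 1040) (nat_lit
 17592186044416) (.ev (nat_lit 1053) (nat_lit 536870912) .dd))))) (.br (nat_lit 10) (.ch (nat_lit 7) (.ev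
 (nat_lit 992) (nat_lit 35184910008320) (.ev (nat_lit 1024) (nat_lit 32) (.ev (nat_lit 1104) (nat_lit
 17867063951360) .dd)))) (.ch (nat_lit 10) (.ev (nat_lit 992) (nat_lit 17867600822304) (.ev (nat_lit 1008)
 (nat_lit 1048576) (.ev (nat_lit 1021) (nat_lit 35184372088832) .dd)))))))))))) (.br (nat_lit 28) (.ch (nat_lit
 26) (.ev (nat_lit 52) (nat_lit 17672318222374) (.ev (nat_lit 84) (nat_lit 275146342400) (.ev (nat_lit 160)
 (nat_lit 35223029973512) .dd)))) (.br (nat_lit 29) (.ch (nat_lit 28) (.ev (nat_lit 52) (nat_lit 359571423234)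
 (.ev (nat_lit 84) (nat_lit 34363932680) (.ev (nat_lit 180) (nat_lit 4) (.ev (nat_lit 592) (nat_lit 1048608)
 (.nd (nat_lit 976) (.br (nat_lit 9) (.br (nat_lit 2) (.ch (nat_lit 1) (.ev (nat_lit 992) (nat_lit 512) (.ev
 (nat_lit 1140) (nat_lit 35184372088832) (.ev (nat_lit 1149) (nat_lit 17592186044416) .dd)))) (.ch (nat_lit 2)
 (.ev (nat_lit 992) (nat_lit 17592186044416) (.ev (nat_lit 1088) (nat_lit 512) (.ev (nat_lit 1101) (nat_lit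
 35184372088832) .dd))))) (.br (nat_lit 10) (.ch (nat_lit 9) (.ev (nat_lit 992) (nat_lit 52776558133760) .dd))
 (.ch (nat_lit 10) (.ev (nat_lit 992) (nat_lit 52776558133760) .dd)))))))))) (.ch (nat_lit 29) (.ev (nat_lit
 52) (nat_lit 35507165724712) (.ev (nat_lit 84) (nat_lit 4194304) (.ev (nat_lit 116) (nat_lit 2097152) (.ev
 (nat_lit 180) (nat_lit 32768) (.ev (nat_lit 576) (nat_lit 2415919104) (.nd (nat_lit 976) (.br (nat_lit 5) (.br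
 (nat_lit 2) (.ch (nat_lit 1) (.ev (nat_lit 992) (nat_lit 68719477254) (.ev (nat_lit 1008) (nat_lit 1048576)
 (.ev (nat_lit 1021) (nat_lit 17592186044416) .dd)))) (.ch (nat_lit 2) (.ev (nat_lit 992) (nat_lit
 17660906569730) (.ev (nat_lit 1040) (nat_lit 4) (.ev (nat_lit 1053) (nat_lit 512) .dd))))) (.br (nat_lit 7)
 (.ch (nat_lit 5) (.ev (nat_lit 992) (nat_lit 17592187093504) (.ev (nat_lit 1024) (nat_lit 68719476736) (.ev
 (nat_lit 1104) (nat_lit 6) .dd)))) (.ch (nat_lit 7) (.ev (nat_lit 992) (nat_lit 17660906570244) (.ev (nat_lit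
 1005) (nat_lit 2) .dd))))))))))))))))) (.br (nat_lit 42) (.br (nat_lit 38) (.br (nat_lit 36) (.br (nat_lit 33)
 (.ch (nat_lit 31) (.ev (nat_lit 52) (nat_lit 359439302698) (.ev (nat_lit 84) (nat_lit 2097152) (.ev (nat_lit
 116) (nat_lit 34359738368) (.ev (nat_lit 180) (nat_lit 1048576) (.ev (nat_lit 960) (nat_lit 35184372088832)
 (.nd (nat_lit 976) (.br (nat_lit 9) (.br (nat_lit 1) (.ch (nat_lit 0) (.ev (nat_lit 992) (nat_lit 134218240)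
 (.ev (nat_lit 1088) (nat_lit 4) (.ev (nat_lit 1101) (nat_lit 17592186044416) .dd)))) (.ch (nat_lit 1) (.ev
 (nat_lit 992) (nat_lit 4) (.ev (nat_lit 1008) (nat_lit 134217728) (.ev (nat_lit 1024) (nat_lit 17592186044416)
 (.ev (nat_lit 1037) (nat_lit 512) .dd)))))) (.br (nat_lit 10) (.ch (nat_lit 9) (.ev (nat_lit 992) (nat_lit
 17592320262656) (.ev (nat_lit 1005) (nat_lit 4) .dd))) (.ch (nat_lit 10) (.ev (nat_lit 992) (nat_lit
 17592320262660) .dd))))))))))) (.ch (nat_lit 33) (.ev (nat_lit 52) (nat_lit 35536969400324) (.ev (nat_lit 84)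
 (nat_lit 32768) (.ev (nat_lit 116) (nat_lit 8) (.ev (nat_lit 148) (nat_lit 512) (.ev (nat_lit 160) (nat_lit
 17633525104674) .dd))))))) (.br (nat_lit 37) (.ch (nat_lit 36) (.ev (nat_lit 52) (nat_lit 107379458560) (.ev
 (nat_lit 148) (nat_lit 2097184) (.ev (nat_lit 244) (nat_lit 35184372088832) (.ev (nat_lit 304) (nat_lit
 939524096) (.ev (nat_lit 912) (nat_lit 2147483648) (.nd (nat_lit 976) (.br (nat_lit 2) (.ch (nat_lit 0) (.ev
 (nat_lit 992) (nat_lit 274877906954) (.ev (nat_lit 1104) (nat_lit 17592186044416) (.ev (nat_lit 1152) (nat_lit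
 8589934596) .dd)))) (.br (nat_lit 7) (.ch (nat_lit 2) (.ev (nat_lit 992) (nat_lit 17600775979022) (.ev
 (nat_lit 1005) (nat_lit 274877906944) .dd))) (.ch (nat_lit 7) (.ev (nat_lit 992) (nat_lit 283467841540) (.ev
 (nat_lit 1088) (nat_lit 17592186044416) (.ev (nat_lit 1152) (nat_lit 10) .dd))))))))))))) (.ch (nat_lit 37)
 (.ev (nat_lit 52) (nat_lit 17870150992388) (.ev (nat_lit 96) (nat_lit 35300343545898) .dd))))) (.br (nat_lit
 40) (.br (nat_lit 39) (.ch (nat_lit 38) (.ev (nat_lit 52) (nat_lit 35193636258340) (.ev (nat_lit 116) (nat_lit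
 2) (.ev (nat_lit 148) (nat_lit 17594337722368) (.ev (nat_lit 180) (nat_lit 268435464) (.ev (nat_lit 784)
 (nat_lit 4295000064) (.nd (nat_lit 976) (.br (nat_lit 1) (.ch (nat_lit 0) (.ev (nat_lit 1008) (nat_lit
 68719476736) (.ev (nat_lit 1168) (nat_lit 309237645312) .dd))) (.br (nat_lit 5) (.ch (nat_lit 1) (.ev (nat_lit
 992) (nat_lit 377957122048) .dd)) (.ch (nat_lit 5) (.ev (nat_lit 992) (nat_lit 309237645312) (.ev (nat_lit
 1005) (nat_lit 68719476736) .dd)))))))))))) (.ch (nat_lit 39) (.ev (nat_lit 52) (nat_lit 17905988173866) (.ev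
 (nat_lit 128) (nat_lit 35264506364420) .dd)))) (.br (nat_lit 41) (.ch (nat_lit 40) (.ev (nat_lit 52) (nat_lit
 35568776905256) (.ev (nat_lit 84) (nat_lit 32768) (.ev (nat_lit 116) (nat_lit 2) (.ev (nat_lit 180) (nat_lit
 2097152) (.ev (nat_lit 288) (nat_lit 17592991350784) (.ev (nat_lit 816) (nat_lit 4) (.nd (nat_lit 976) (.br
 (nat_lit 5) (.br (nat_lit 2) (.ch (nat_lit 0) (.ev (nat_lit 992) (nat_lit 134217728) (.ev (nat_lit 1005)
 (nat_lit 8589934592) .dd))) (.ch (nat_lit 2) (.ev (nat_lit 992) (nat_lit 8589934592) (.ev (nat_lit 1005)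
 (nat_lit 134217728) .dd)))) (.br (nat_lit 9) (.ch (nat_lit 5) (.ev (nat_lit 992) (nat_lit 134217728) (.ev
 (nat_lit 1005) (nat_lit 8589934592) .dd))) (.ch (nat_lit 9) (.ev (nat_lit 992) (nat_lit 8724152320)
 .dd)))))))))))) (.ch (nat_lit 41) (.ev (nat_lit 52) (nat_lit 17699698638848) (.ev (nat_lit 64) (nat_lit
 35470795899438) .dd)))))) (.br (nat_lit 47) (.br (nat_lit 44) (.br (nat_lit 43) (.ch (nat_lit 42) (.ev
 (nat_lit 52) (nat_lit 17940214710786) (.ev (nat_lit 84) (nat_lit 35184372088836) (.ev (nat_lit 180) (nat_lit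
 34359738368) (.ev (nat_lit 244) (nat_lit 32768) (.ev (nat_lit 272) (nat_lit 2420113440) (.ev (nat_lit 768)
 (nat_lit 537919488) (.nd (nat_lit 976) (.br (nat_lit 1) (.ch (nat_lit 0) (.ev (nat_lit 992) (nat_lit
 8589934600) .dd)) (.br (nat_lit 5) (.ch (nat_lit 1) (.fin (nat_lit 576461302059713087))) (.ch (nat_lit 5) (.ev
 (nat_lit 992) (nat_lit 8589934600) .dd)))))))))))) (.ch (nat_lit 43) (.ev (nat_lit 52) (nat_lit 69260541958)
 (.ev (nat_lit 84) (nat_lit 512) (.ev (nat_lit 116) (nat_lit 10737418248) (.ev (nat_lit 148) (nat_lit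
 35184506306592) (.ev (nat_lit 704) (nat_lit 3145728) (.nd (nat_lit 976) (.br (nat_lit 5) (.br (nat_lit 1) (.ch
 (nat_lit 0) (.ev (nat_lit 992) (nat_lit 17901692157952) (.ev (nat_lit 1005) (nat_lit 4294967296) .dd))) (.ch
 (nat_lit 1) (.ev (nat_lit 992) (nat_lit 313801048064) (.ev (nat_lit 1040) (nat_lit 17592186044416) (.ev
 (nat_lit 1053) (nat_lit 32768) .dd))))) (.br (nat_lit 7) (.ch (nat_lit 5) (.ev (nat_lit 992) (nat_lit
 17630840782848) (.ev (nat_lit 1008) (nat_lit 268435456) (.ev (nat_lit 1021) (nat_lit 274877906944) .dd))))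
 (.ch (nat_lit 7) (.ev (nat_lit 992) (nat_lit 17596749479936) (.ev (nat_lit 1056) (nat_lit 34359738368) (.ev
 (nat_lit 1069) (nat_lit 274877906944) .dd)))))))))))))) (.br (nat_lit 46) (.ch (nat_lit 44) (.ev (nat_lit 52)
 (nat_lit 35261687791650) (.ev (nat_lit 116) (nat_lit 4294967808) (.ev (nat_lit 180) (nat_lit 135266304) (.ev
 (nat_lit 212) (nat_lit 17626545815552) (.ev (nat_lit 320) (nat_lit 805306372) (.nd (nat_lit 976) (.br (nat_lit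
 2) (.ch (nat_lit 1) (.ev (nat_lit 992) (nat_lit 277025390600) .dd)) (.br (nat_lit 9) (.ch (nat_lit 2) (.ev
 (nat_lit 992) (nat_lit 2147483648) (.ev (nat_lit 1120) (nat_lit 8) (.ev (nat_lit 1133) (nat_lit 274877906944)
 .dd)))) (.ch (nat_lit 9) (.ev (nat_lit 992) (nat_lit 8) (.ev (nat_lit 1088) (nat_lit 2147483648) (.ev (nat_lit
 1101) (nat_lit 274877906944) .dd))))))))))))) (.ch (nat_lit 46) (.ev (nat_lit 52) (nat_lit 17663060378116)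
 (.ev (nat_lit 96) (nat_lit 35507434160170) .dd))))) (.br (nat_lit 49) (.br (nat_lit 48) (.ch (nat_lit 47) (.ev
 (nat_lit 52) (nat_lit 17867332387364) (.ev (nat_lit 116) (nat_lit 2818572288) (.ev (nat_lit 180) (nat_lit
 35184372088832) (.ev (nat_lit 400) (nat_lit 2097154) (.nd (nat_lit 976) (.br (nat_lit 9) (.br (nat_lit 2) (.ch
 (nat_lit 0) (.ev (nat_lit 992) (nat_lit 81609654280) (.ev (nat_lit 1005) (nat_lit 34359738368) .dd))) (.ch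
 (nat_lit 2) (.ev (nat_lit 992) (nat_lit 47245721608) (.ev (nat_lit 1024) (nat_lit 68719476736) (.ev (nat_lit
 1037) (nat_lit 4194304) .dd))))) (.br (nat_lit 10) (.ch (nat_lit 9) (.ev (nat_lit 992) (nat_lit 115969392640)
 (.ev (nat_lit 1005) (nat_lit 8) .dd))) (.ch (nat_lit 10) (.ev (nat_lit 992) (nat_lit 68719476744) (.ev
 (nat_lit 1072) (nat_lit 42949705728) (.ev (nat_lit 1104) (nat_lit 4194304) (.fin (nat_lit
 576462401571340863)))))))))))))) (.ch (nat_lit 48) (.ev (nat_lit 52) (nat_lit 311787814916) (.ev (nat_lit 84)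
 (nat_lit 68719476736) (.ev (nat_lit 148) (nat_lit 17592186044416) (.ev (nat_lit 180) (nat_lit 536870912) (.ev
 (nat_lit 544) (nat_lit 4194306) (.nd (nat_lit 976) (.br (nat_lit 7) (.br (nat_lit 2) (.ch (nat_lit 1) (.ev
 (nat_lit 992) (nat_lit 35197258039336) (.ev (nat_lit 1024) (nat_lit 2097152) (.ev (nat_lit 1037) (nat_lit 512)
 .dd)))) (.ch (nat_lit 2) (.ev (nat_lit 992) (nat_lit 35197260136968) (.ev (nat_lit 1005) (nat_lit 32) .dd))))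
 (.br (nat_lit 10) (.ch (nat_lit 7) (.ev (nat_lit 992) (nat_lit 35197260136992) (.ev (nat_lit 1005) (nat_lit 8)
 .dd))) (.ch (nat_lit 10) (.ev (nat_lit 992) (nat_lit 2097184) (.ev (nat_lit 1072) (nat_lit 35192962023432)
 (.ev (nat_lit 1104) (nat_lit 512) (.fin (nat_lit 576462401571340863)))))))))))))))) (.br (nat_lit 50) (.ch
 (nat_lit 49) (.ev (nat_lit 52) (nat_lit 52810919969294) (.ev (nat_lit 116) (nat_lit 277025390624) (.ev
 (nat_lit 148) (nat_lit 32768) (.ev (nat_lit 180) (nat_lit 8589934592) (.ev (nat_lit 244) (nat_lit 4194304)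
 (.ev (nat_lit 864) (nat_lit 536870912) (.nd (nat_lit 976) (.br (nat_lit 7) (.br (nat_lit 2) (.ch (nat_lit 1)
 (.ev (nat_lit 992) (nat_lit 73282879488) (.fin (nat_lit 576456904023687742)))) (.br (nat_lit 5) (.ch (nat_lit
 2) (.ev (nat_lit 992) (nat_lit 68988960768) (.ev (nat_lit 1008) (nat_lit 4294967296) (.ev (nat_lit 1021)
 (nat_lit 134217728) .dd)))) (.ch (nat_lit 5) (.ev (nat_lit 992) (nat_lit 4697620480) (.ev (nat_lit 1140)
 (nat_lit 1048576) (.ev (nat_lit 1149) (nat_lit 68719476736) .dd)))))) (.br (nat_lit 9) (.ch (nat_lit 7) (.ev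
 (nat_lit 992) (nat_lit 73418145792) .dd)) (.br (nat_lit 10) (.ch (nat_lit 9) (.ev (nat_lit 992) (nat_lit
 73418145792) .dd)) (.ch (nat_lit 10) (.ev (nat_lit 992) (nat_lit 68854743040) (.ev (nat_lit 1072) (nat_lit
 4563402752) .dd)))))))))))))) (.br (nat_lit 52) (.ch (nat_lit 50) (.ev (nat_lit 52) (nat_lit 53155326853132)
 (.ev (nat_lit 148) (nat_lit 32768) (.ev (nat_lit 180) (nat_lit 2147483650) (.ev (nat_lit 832) (nat_lit
 4294967296) (.nd (nat_lit 976) (.br (nat_lit 7) (.br (nat_lit 1) (.ch (nat_lit 0) (.ev (nat_lit 992) (nat_lit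
 134218272) (.ev (nat_lit 1140) (nat_lit 1048576) (.ev (nat_lit 1149) (nat_lit 8589934592) .dd)))) (.br
 (nat_lit 5) (.ch (nat_lit 1) (.ev (nat_lit 992) (nat_lit 8589935136) (.fin (nat_lit 576456904023687742))))
 (.ch (nat_lit 5) (.ev (nat_lit 992) (nat_lit 8725201440) .dd)))) (.br (nat_lit 9) (.ch (nat_lit 7) (.ev
 (nat_lit 992) (nat_lit 8725200896) (.ev (nat_lit 1072) (nat_lit 544) .dd))) (.br (nat_lit 10) (.ch (nat_lit 9)
 (.ev (nat_lit 992) (nat_lit 8590983680) (.ev (nat_lit 1008) (nat_lit 32) (.ev (nat_lit 1021) (nat_lit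
 134217728) .dd)))) (.ch (nat_lit 10) (.ev (nat_lit 992) (nat_lit 8725201440) .dd))))))))))) (.ch (nat_lit 52)
 (.ev (nat_lit 52) (nat_lit 53056537362432) (.ev (nat_lit 84) (nat_lit 68719476748) (.ev (nat_lit 148) (nat_lit
 34359738370) (.ev (nat_lit 180) (nat_lit 512) (.ev (nat_lit 416) (nat_lit 32800) (.nd (nat_lit 976) (.br
 (nat_lit 2) (.ch (nat_lit 0) (.ev (nat_lit 992) (nat_lit 10877927424) .dd)) (.br (nat_lit 7) (.ch (nat_lit 2)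
 (.ev (nat_lit 992) (nat_lit 10877927424) .dd)) (.ch (nat_lit 7) (.ev (nat_lit 1008) (nat_lit 134217728) (.ev
 (nat_lit 1040) (nat_lit 10737418240) (.fin (nat_lit 576470098140152371))))))))))))))))))))))

/-- Subtrie. -/
noncomputable def T4 : Tr := (.ev (nat_lit 20) (nat_lit 17594535680518) (.nd (nat_lit 33) (.br (nat_lit 31)
 (.br (nat_lit 16) (.br (nat_lit 10) (.br (nat_lit 6) (.br (nat_lit 5) (.ch (nat_lit 4) (.ev (nat_lit 52)
 (nat_lit 74771092996104) (.ev (nat_lit 84) (nat_lit 35184372088832) (.ev (nat_lit 116) (nat_lit 32) (.ev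
 (nat_lit 148) (nat_lit 536887296) (.ev (nat_lit 180) (nat_lit 65536) (.ev (nat_lit 432) (nat_lit 309237645312)
 (.ev (nat_lit 880) (nat_lit 268435456) (.nd (nat_lit 976) (.br (nat_lit 6) (.br (nat_lit 2) (.ch (nat_lit 0)
 (.ev (nat_lit 992) (nat_lit 8623489024) (.ev (nat_lit 1005) (nat_lit 68719476736) .dd))) (.br (nat_lit 4) (.ch
 (nat_lit 2) (.ev (nat_lit 992) (nat_lit 77342965760) .dd)) (.ch (nat_lit 4) (.ev (nat_lit 992) (nat_lit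
 8589934592) (.ev (nat_lit 1024) (nat_lit 33554432) (.ev (nat_lit 1037) (nat_lit 68719476736) .dd)))))) (.br
 (nat_lit 7) (.ch (nat_lit 6) (.ev (nat_lit 992) (nat_lit 68719476736) (.nd (nat_lit 1184) (.br (nat_lit 8)
 (.ch (nat_lit 3) (.fin (nat_lit 576459103030166057))) (.ch (nat_lit 8) (.ev (nat_lit 1200) (nat_lit
 8623489024) .dd)))))) (.br (nat_lit 8) (.ch (nat_lit 7) (.ev (nat_lit 992) (nat_lit 77342965760) .dd)) (.ch
 (nat_lit 8) (.ev (nat_lit 992) (nat_lit 77342965760) .dd)))))))))))))) (.ch (nat_lit 5) (.ev (nat_lit 52)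
 (nat_lit 35502199750688) (.ev (nat_lit 84) (nat_lit 4564451328) (.ev (nat_lit 116) (nat_lit 68753031168) (.ev
 (nat_lit 448) (nat_lit 4194312) (.ev (nat_lit 896) (nat_lit 2097152) (.nd (nat_lit 976) (.br (nat_lit 6) (.br
 (nat_lit 4) (.ch (nat_lit 2) (.ev (nat_lit 992) (nat_lit 74767327559680) .dd)) (.br (nat_lit 5) (.ch (nat_lit
 4) (.ev (nat_lit 992) (nat_lit 74766790688768) (.ev (nat_lit 1005) (nat_lit 536870912) .dd))) (.ch (nat_lit 5)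
 (.ev (nat_lit 992) (nat_lit 74767327559680) .dd)))) (.br (nat_lit 7) (.ch (nat_lit 6) (.ev (nat_lit 992)
 (nat_lit 70368744177664) (.ev (nat_lit 1024) (nat_lit 4398046511104) (.ev (nat_lit 1037) (nat_lit 536870912)
 .dd)))) (.br (nat_lit 8) (.ch (nat_lit 7) (.ev (nat_lit 992) (nat_lit 536870912) (.nd (nat_lit 1184) (.br
 (nat_lit 10) (.ch (nat_lit 2) (.fin (nat_lit 576461302057615913))) (.ch (nat_lit 10) (.ev (nat_lit 1200)
 (nat_lit 74766790688768) .dd)))))) (.ch (nat_lit 8) (.ev (nat_lit 992) (nat_lit 74767327559680)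
 .dd))))))))))))) (.br (nat_lit 9) (.ch (nat_lit 6) (.ev (nat_lit 52) (nat_lit 109994151329800) (.ev (nat_lit
 84) (nat_lit 69524783136) (.ev (nat_lit 116) (nat_lit 2097152) (.ev (nat_lit 148) (nat_lit 4294967296) (.ev
 (nat_lit 157) (nat_lit 274877906944) .dd)))))) (.ch (nat_lit 9) (.ev (nat_lit 52) (nat_lit 105931073404960)
 (.ev (nat_lit 96) (nat_lit 4411777679368) .dd))))) (.br (nat_lit 12) (.br (nat_lit 11) (.ch (nat_lit 10) (.ev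
 (nat_lit 52) (nat_lit 74780482994184) (.ev (nat_lit 84) (nat_lit 1048576) (.ev (nat_lit 116) (nat_lit 4210688)
 (.ev (nat_lit 180) (nat_lit 32) (.ev (nat_lit 336) (nat_lit 377957122048) (.ev (nat_lit 848) (nat_lit
 33554432) (.nd (nat_lit 976) (.br (nat_lit 4) (.br (nat_lit 2) (.ch (nat_lit 0) (.ev (nat_lit 992) (nat_lit
 35184372154368) .dd)) (.ch (nat_lit 2) (.ev (nat_lit 992) (nat_lit 35184372088832) (.ev (nat_lit 1005)
 (nat_lit 65536) .dd)))) (.br (nat_lit 7) (.ch (nat_lit 4) (.ev (nat_lit 992) (nat_lit 65536) (.ev (nat_lit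
 1005) (nat_lit 35184372088832) .dd))) (.ch (nat_lit 7) (.ev (nat_lit 992) (nat_lit 35184372088832) (.ev
 (nat_lit 1005) (nat_lit 65536) .dd))))))))))))) (.ch (nat_lit 11) (.ev (nat_lit 52) (nat_lit 39858103910440)
 (.ev (nat_lit 116) (nat_lit 4294967296) (.ev (nat_lit 128) (nat_lit 70480452206592) .dd))))) (.br (nat_lit 15)
 (.ch (nat_lit 12) (.ev (nat_lit 52) (nat_lit 103114866728) (.ev (nat_lit 84) (nat_lit 268435456) (.ev (nat_lit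
 116) (nat_lit 35184372088832) (.ev (nat_lit 180) (nat_lit 8589934592) (.ev (nat_lit 244) (nat_lit 4294967296)
 (.nd (nat_lit 976) (.br (nat_lit 5) (.br (nat_lit 4) (.ch (nat_lit 2) (.ev (nat_lit 992) (nat_lit
 75042205532160) (.ev (nat_lit 1056) (nat_lit 1048576) (.fin (nat_lit 576463501091357227))))) (.ch (nat_lit 4)
 (.ev (nat_lit 992) (nat_lit 75041673904128) (.ev (nat_lit 1056) (nat_lit 536870912) (.ev (nat_lit 1069)
 (nat_lit 16384) .dd))))) (.br (nat_lit 7) (.ch (nat_lit 5) (.ev (nat_lit 992) (nat_lit 70369286373376) (.ev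
 (nat_lit 1056) (nat_lit 274877906944) (.ev (nat_lit 1069) (nat_lit 4398046511104) .dd)))) (.ch (nat_lit 7)
 (.ev (nat_lit 992) (nat_lit 275420037120) (.ev (nat_lit 1056) (nat_lit 65536) (.fin (nat_lit
 576461302057615913)))))))))))))) (.ch (nat_lit 15) (.ev (nat_lit 52) (nat_lit 109960022212608) (.ev (nat_lit
 84) (nat_lit 541065216) (.ev (nat_lit 116) (nat_lit 32) (.ev (nat_lit 212) (nat_lit 274877906944) (.ev
 (nat_lit 608) (nat_lit 34395389952) (.nd (nat_lit 976) (.br (nat_lit 4) (.ch (nat_lit 2) (.ev (nat_lit 992)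
 (nat_lit 4294967296) (.ev (nat_lit 1008) (nat_lit 8) (.ev (nat_lit 1168) (nat_lit 68719542272) .dd)))) (.br
 (nat_lit 5) (.ch (nat_lit 4) (.ev (nat_lit 992) (nat_lit 68719542280) (.ev (nat_lit 1005) (nat_lit 4294967296)
 .dd))) (.ch (nat_lit 5) (.ev (nat_lit 992) (nat_lit 73014509568) (.ev (nat_lit 1005) (nat_lit 8)
 .dd))))))))))))))) (.br (nat_lit 22) (.br (nat_lit 18) (.br (nat_lit 17) (.ch (nat_lit 16) (.ev (nat_lit 52)
 (nat_lit 309329960) (.ev (nat_lit 84) (nat_lit 4294967296) (.ev (nat_lit 96) (nat_lit 110338246787072) .dd))))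
 (.ch (nat_lit 17) (.ev (nat_lit 52) (nat_lit 35197530734592) (.ev (nat_lit 84) (nat_lit 4741643894784) (.ev
 (nat_lit 148) (nat_lit 33554432) (.ev (nat_lit 180) (nat_lit 34359738368) (.ev (nat_lit 368) (nat_lit
 70368746274824) (.nd (nat_lit 976) (.br (nat_lit 2) (.ch (nat_lit 0) (.ev (nat_lit 992) (nat_lit 32) (.ev
 (nat_lit 1088) (nat_lit 16384) (.ev (nat_lit 1101) (nat_lit 536870912) .dd)))) (.br (nat_lit 7) (.ch (nat_lit
 2) (.ev (nat_lit 992) (nat_lit 16384) (.ev (nat_lit 1120) (nat_lit 32) (.ev (nat_lit 1133) (nat_lit 536870912)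
 .dd)))) (.ch (nat_lit 7) (.ev (nat_lit 992) (nat_lit 536887328) .dd)))))))))))) (.br (nat_lit 21) (.ch
 (nat_lit 18) (.ev (nat_lit 52) (nat_lit 39934605983744) (.ev (nat_lit 64) (nat_lit 70408245100584) .dd))) (.ch
 (nat_lit 21) (.ev (nat_lit 52) (nat_lit 70712344707112) (.ev (nat_lit 116) (nat_lit 4398046593024) (.ev
 (nat_lit 212) (nat_lit 536870912) (.ev (nat_lit 656) (nat_lit 37748736) (.nd (nat_lit 976) (.br (nat_lit 5)
 (.br (nat_lit 2) (.ch (nat_lit 0) (.ev (nat_lit 992) (nat_lit 35227590197248) (.ev (nat_lit 1005) (nat_lit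
 4294967296) .dd))) (.ch (nat_lit 2) (.ev (nat_lit 992) (nat_lit 13153337344) (.ev (nat_lit 1024) (nat_lit
 34359738368) (.ev (nat_lit 1037) (nat_lit 35184372088832) .dd))))) (.br (nat_lit 7) (.ch (nat_lit 5) (.ev
 (nat_lit 992) (nat_lit 35231885164544) .dd)) (.ch (nat_lit 7) (.ev (nat_lit 992) (nat_lit 38654705664) (.ev
 (nat_lit 1024) (nat_lit 8589934592) (.nd (nat_lit 1184) (.br (nat_lit 10) (.ch (nat_lit 4) (.fin (nat_lit
 576452505954107947))) (.ch (nat_lit 10) (.ev (nat_lit 1200) (nat_lit 35184640524288) .dd))))))))))))))))) (.br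
 (nat_lit 26) (.br (nat_lit 24) (.ch (nat_lit 22) (.ev (nat_lit 52) (nat_lit 74771656163360) (.ev (nat_lit 84)
 (nat_lit 275146342400) (.ev (nat_lit 180) (nat_lit 8) (.ev (nat_lit 212) (nat_lit 35184372088832) (.ev
 (nat_lit 244) (nat_lit 8589934592) (.ev (nat_lit 928) (nat_lit 34359738368) (.nd (nat_lit 976) (.br (nat_lit
 4) (.br (nat_lit 2) (.ch (nat_lit 0) (.ev (nat_lit 992) (nat_lit 68719476736) (.ev (nat_lit 1008) (nat_lit
 1048576) (.ev (nat_lit 1024) (nat_lit 4194304) (.ev (nat_lit 1037) (nat_lit 2097152) .dd))))) (.ch (nat_lit 2)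
 (.ev (nat_lit 992) (nat_lit 3145728) (.ev (nat_lit 1088) (nat_lit 68719476736) (.ev (nat_lit 1101) (nat_lit
 4194304) .dd))))) (.br (nat_lit 6) (.ch (nat_lit 4) (.ev (nat_lit 992) (nat_lit 68726816768) .dd)) (.ch
 (nat_lit 6) (.ev (nat_lit 992) (nat_lit 7340032) (.ev (nat_lit 1005) (nat_lit 68719476736) .dd)))))))))))))
 (.ch (nat_lit 24) (.ev (nat_lit 52) (nat_lit 111671246856) (.ev (nat_lit 64) (nat_lit 110231179837472) .dd))))
 (.br (nat_lit 28) (.ch (nat_lit 26) (.ev (nat_lit 52) (nat_lit 77884112928) (.ev (nat_lit 84) (nat_lit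
 1048576) (.ev (nat_lit 128) (nat_lit 110264965922824) .dd)))) (.br (nat_lit 29) (.ch (nat_lit 28) (.ev
 (nat_lit 52) (nat_lit 357323243520) (.ev (nat_lit 84) (nat_lit 4194304) (.ev (nat_lit 116) (nat_lit 1048576)
 (.ev (nat_lit 160) (nat_lit 109985522597928) .dd))))) (.ch (nat_lit 29) (.ev (nat_lit 52) (nat_lit
 35507065126952) (.ev (nat_lit 180) (nat_lit 68719476736) (.ev (nat_lit 464) (nat_lit 70369012613120) (.nd
 (nat_lit 976) (.br (nat_lit 4) (.ch (nat_lit 2) (.ev (nat_lit 1008) (nat_lit 1048576) (.ev (nat_lit 1040)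
 (nat_lit 4398048608256) (.fin (nat_lit 576463501091357227))))) (.br (nat_lit 5) (.ch (nat_lit 4) (.ev (nat_lit
 992) (nat_lit 4398053867520) .dd)) (.ch (nat_lit 5) (.ev (nat_lit 992) (nat_lit 4398053867520)
 .dd)))))))))))))) (.br (nat_lit 42) (.br (nat_lit 38) (.br (nat_lit 36) (.br (nat_lit 33) (.ch (nat_lit 31)
 (.ev (nat_lit 52) (nat_lit 75124082540584) (.ev (nat_lit 84) (nat_lit 16384) (.ev (nat_lit 180) (nat_lit
 2097152) (.ev (nat_lit 224) (nat_lit 35218766430208) .dd))))) (.ch (nat_lit 33) (.ev (nat_lit 52) (nat_lit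
 39934881710080) (.ev (nat_lit 116) (nat_lit 536870912) (.ev (nat_lit 180) (nat_lit 65536) (.ev (nat_lit 244)
 (nat_lit 4294967296) (.ev (nat_lit 800) (nat_lit 70368744177696) (.nd (nat_lit 976) (.br (nat_lit 5) (.ch
 (nat_lit 4) (.ev (nat_lit 992) (nat_lit 34359738376) (.ev (nat_lit 1005) (nat_lit 33554432) .dd))) (.br
 (nat_lit 7) (.ch (nat_lit 5) (.ev (nat_lit 1008) (nat_lit 33554432) (.ev (nat_lit 1168) (nat_lit 34359738376)
 .dd))) (.ch (nat_lit 7) (.ev (nat_lit 992) (nat_lit 34393292808) .dd)))))))))))) (.br (nat_lit 37) (.ch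
 (nat_lit 36) (.ev (nat_lit 52) (nat_lit 70476123684864) (.ev (nat_lit 84) (nat_lit 35184372088832) (.ev
 (nat_lit 128) (nat_lit 4682355310632) .dd)))) (.ch (nat_lit 37) (.ev (nat_lit 52) (nat_lit 4673763344384) (.ev
 (nat_lit 84) (nat_lit 12884901888) (.ev (nat_lit 148) (nat_lit 16384) (.ev (nat_lit 212) (nat_lit
 35184376283136) (.ev (nat_lit 672) (nat_lit 70403103916032) (.nd (nat_lit 976) (.br (nat_lit 6) (.br (nat_lit
 4) (.ch (nat_lit 0) (.ev (nat_lit 992) (nat_lit 68720525352) (.ev (nat_lit 1005) (nat_lit 2097152) .dd))) (.br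
 (nat_lit 5) (.ch (nat_lit 4) (.ev (nat_lit 992) (nat_lit 68722622472) (.ev (nat_lit 1005) (nat_lit 32) .dd)))
 (.ch (nat_lit 5) (.ev (nat_lit 992) (nat_lit 68722622464) (.ev (nat_lit 1140) (nat_lit 32) (.ev (nat_lit 1149)
 (nat_lit 8) .dd)))))) (.br (nat_lit 7) (.ch (nat_lit 6) (.ev (nat_lit 992) (nat_lit 3145768) (.ev (nat_lit
 1005) (nat_lit 68719476736) .dd))) (.br (nat_lit 8) (.ch (nat_lit 7) (.ev (nat_lit 992) (nat_lit 68722622504)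
 .dd)) (.ch (nat_lit 8) (.ev (nat_lit 992) (nat_lit 40) (.ev (nat_lit 1072) (nat_lit 3145728) (.ev (nat_lit
 1085) (nat_lit 68719476736) .dd)))))))))))))))) (.br (nat_lit 40) (.br (nat_lit 39) (.ch (nat_lit 38) (.ev
 (nat_lit 52) (nat_lit 35193535610912) (.ev (nat_lit 84) (nat_lit 38654705664) (.ev (nat_lit 116) (nat_lit
 70368744243200) (.ev (nat_lit 148) (nat_lit 274877906944) (.ev (nat_lit 244) (nat_lit 4398046511104) (.ev
 (nat_lit 480) (nat_lit 68723671040) (.nd (nat_lit 976) (.br (nat_lit 5) (.br (nat_lit 2) (.ch (nat_lit 0) (.ev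
 (nat_lit 992) (nat_lit 268435456) (.ev (nat_lit 1005) (nat_lit 8) .dd))) (.ch (nat_lit 2) (.ev (nat_lit 992)
 (nat_lit 8) (.ev (nat_lit 1005) (nat_lit 268435456) .dd)))) (.br (nat_lit 7) (.ch (nat_lit 5) (.ev (nat_lit
 992) (nat_lit 268435456) (.ev (nat_lit 1005) (nat_lit 8) .dd))) (.ch (nat_lit 7) (.ev (nat_lit 992) (nat_lit
 8) (.ev (nat_lit 1005) (nat_lit 268435456) .dd))))))))))))) (.ch (nat_lit 39) (.ev (nat_lit 52) (nat_lit
 313802113064) (.ev (nat_lit 84) (nat_lit 536870912) (.ev (nat_lit 148) (nat_lit 4406640640000) (.ev (nat_lit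
 180) (nat_lit 35184372088832) (.ev (nat_lit 496) (nat_lit 33619968) (.nd (nat_lit 976) (.br (nat_lit 5) (.br
 (nat_lit 4) (.ch (nat_lit 2) (.ev (nat_lit 992) (nat_lit 70368744177664) (.ev (nat_lit 1140) (nat_lit 2097152)
 (.ev (nat_lit 1149) (nat_lit 68719476736) .dd)))) (.ch (nat_lit 4) (.ev (nat_lit 992) (nat_lit 70437465751552)
 .dd))) (.br (nat_lit 7) (.ch (nat_lit 5) (.ev (nat_lit 992) (nat_lit 68719476736) (.ev (nat_lit 1088) (nat_lit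
 70368744177664) (.ev (nat_lit 1101) (nat_lit 2097152) .dd)))) (.ch (nat_lit 7) (.ev (nat_lit 992) (nat_lit
 70437465751552) .dd)))))))))))) (.br (nat_lit 41) (.ch (nat_lit 40) (.ev (nat_lit 52) (nat_lit 35566629486632)
 (.ev (nat_lit 116) (nat_lit 8894021632) (.ev (nat_lit 180) (nat_lit 74766790688768) (.ev (nat_lit 244)
 (nat_lit 16384) (.ev (nat_lit 253) (nat_lit 536870912) .dd)))))) (.ch (nat_lit 41) (.ev (nat_lit 52) (nat_lit
 4505458507776) (.ev (nat_lit 84) (nat_lit 70368744177664) (.ev (nat_lit 116) (nat_lit 274877906944) (.ev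
 (nat_lit 128) (nat_lit 35193770491944) .dd)))))))) (.br (nat_lit 47) (.br (nat_lit 44) (.br (nat_lit 43) (.ch
 (nat_lit 42) (.ev (nat_lit 52) (nat_lit 4745940959232) (.ev (nat_lit 64) (nat_lit 105596910125096) .dd))) (.ch
 (nat_lit 43) (.ev (nat_lit 52) (nat_lit 74836084801536) (.ev (nat_lit 84) (nat_lit 8589934592) (.ev (nat_lit
 116) (nat_lit 35184372154400) (.ev (nat_lit 148) (nat_lit 274877906944) (.ev (nat_lit 244) (nat_lit 1048576)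
 (.ev (nat_lit 528) (nat_lit 270532608) (.nd (nat_lit 976) (.br (nat_lit 5) (.ch (nat_lit 4) (.ev (nat_lit 992)
 (nat_lit 34359738376) (.ev (nat_lit 1005) (nat_lit 4294967296) .dd))) (.br (nat_lit 6) (.ch (nat_lit 5) (.ev
 (nat_lit 992) (nat_lit 4294967296) (.ev (nat_lit 1040) (nat_lit 8) (.ev (nat_lit 1053) (nat_lit 34359738368)
 .dd)))) (.ch (nat_lit 6) (.ev (nat_lit 992) (nat_lit 38654705672) .dd))))))))))))) (.br (nat_lit 46) (.ch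
 (nat_lit 44) (.ev (nat_lit 52) (nat_lit 105630465523744) (.ev (nat_lit 116) (nat_lit 34359738368) (.ev
 (nat_lit 148) (nat_lit 4296015872) (.ev (nat_lit 192) (nat_lit 4673729806344) .dd))))) (.ch (nat_lit 46) (.ev
 (nat_lit 52) (nat_lit 4466773344256) (.ev (nat_lit 84) (nat_lit 34359803904) (.ev (nat_lit 116) (nat_lit 8)
 (.ev (nat_lit 180) (nat_lit 70368744177664) (.nd (nat_lit 976) (.br (nat_lit 6) (.br (nat_lit 2) (.ch (nat_lit
 0) (.ev (nat_lit 992) (nat_lit 35198095851552) (.ev (nat_lit 1005) (nat_lit 274877906944) .dd))) (.br (nat_lit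
 5) (.ch (nat_lit 2) (.ev (nat_lit 992) (nat_lit 35472436887584) (.ev (nat_lit 1005) (nat_lit 536870912) .dd)))
 (.ch (nat_lit 5) (.ev (nat_lit 992) (nat_lit 35460088856608) (.ev (nat_lit 1008) (nat_lit 4294967296) (.ev
 (nat_lit 1021) (nat_lit 8589934592) .dd)))))) (.br (nat_lit 7) (.ch (nat_lit 6) (.ev (nat_lit 992) (nat_lit
 35464350269472) (.fin (nat_lit 576459103030166057)))) (.br (nat_lit 8) (.ch (nat_lit 7) (.ev (nat_lit 992)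
 (nat_lit 288333234208) (.fin (nat_lit 576452505954107947)))) (.ch (nat_lit 8) (.ev (nat_lit 992) (nat_lit
 288601669632) (.ev (nat_lit 1008) (nat_lit 32) (.ev (nat_lit 1021) (nat_lit 35184372088832) .dd)))))))))))))))
 (.br (nat_lit 49) (.br (nat_lit 48) (.ch (nat_lit 47) (.ev (nat_lit 52) (nat_lit 75041937031200) (.ev (nat_lit
 84) (nat_lit 6291456) (.ev (nat_lit 116) (nat_lit 570425344) (.ev (nat_lit 148) (nat_lit 35184372088832) (.nd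
 (nat_lit 976) (.br (nat_lit 5) (.br (nat_lit 4) (.ch (nat_lit 0) (.ev (nat_lit 992) (nat_lit 8589934600) (.ev
 (nat_lit 1008) (nat_lit 65536) (.ev (nat_lit 1040) (nat_lit 34359738368) (.ev (nat_lit 1088) (nat_lit
 68719493120) (.fin (nat_lit 576460202550182465))))))) (.ch (nat_lit 4) (.ev (nat_lit 992) (nat_lit
 115965231112) (.ev (nat_lit 1005) (nat_lit 16384) .dd)))) (.br (nat_lit 7) (.ch (nat_lit 5) (.ev (nat_lit 992)
 (nat_lit 73015574528) (.ev (nat_lit 1056) (nat_lit 8589934600) (.ev (nat_lit 1069) (nat_lit 34359738368)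
 .dd)))) (.ch (nat_lit 7) (.ev (nat_lit 992) (nat_lit 107375312904) (.ev (nat_lit 1005) (nat_lit 8589934592)
 .dd))))))))))) (.ch (nat_lit 48) (.ev (nat_lit 52) (nat_lit 70678283829248) (.ev (nat_lit 84) (nat_lit
 9126805504) (.ev (nat_lit 116) (nat_lit 65536) (.ev (nat_lit 148) (nat_lit 4194304) (.nd (nat_lit 976) (.br
 (nat_lit 5) (.br (nat_lit 2) (.ch (nat_lit 0) (.ev (nat_lit 992) (nat_lit 35184372088864) (.ev (nat_lit 1008)
 (nat_lit 68719476736) (.ev (nat_lit 1040) (nat_lit 8) (.ev (nat_lit 1088) (nat_lit 4398048608256) (.fin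
 (nat_lit 576460202550182465))))))) (.ch (nat_lit 2) (.ev (nat_lit 992) (nat_lit 4471064100864) (.ev (nat_lit
 1056) (nat_lit 35184372088864) (.ev (nat_lit 1069) (nat_lit 8) .dd))))) (.br (nat_lit 6) (.ch (nat_lit 5) (.ev
 (nat_lit 992) (nat_lit 4471064100904) (.ev (nat_lit 1005) (nat_lit 35184372088832) .dd))) (.ch (nat_lit 6)
 (.ev (nat_lit 992) (nat_lit 35257389678632) (.ev (nat_lit 1005) (nat_lit 4398046511104) .dd)))))))))))) (.br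
 (nat_lit 50) (.ch (nat_lit 49) (.ev (nat_lit 52) (nat_lit 35218767478792) (.ev (nat_lit 64) (nat_lit
 75124083605536) .dd))) (.br (nat_lit 52) (.ch (nat_lit 50) (.ev (nat_lit 52) (nat_lit 105931884986376) (.ev
 (nat_lit 84) (nat_lit 4398046511104) (.ev (nat_lit 180) (nat_lit 33554432) (.ev (nat_lit 224) (nat_lit
 12886032416) .dd))))) (.ch (nat_lit 52) (.ev (nat_lit 52) (nat_lit 105833095577600) (.ev (nat_lit 84) (nat_lit
 6291488) (.ev (nat_lit 192) (nat_lit 4509749215240) .dd))))))))))))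

/-- The trie. -/
noncomputable def T : Tr := .nd (nat_lit 1000000) (.br (nat_lit 4) (.br (nat_lit 1) (.ch (nat_lit 0) (.ev
 (nat_lit 0) (nat_lit 140737488355327) .dd)) (.ch (nat_lit 1) T1)) (.br (nat_lit 5) (.ch (nat_lit 4) T4) (.br
 (nat_lit 10) (.ch (nat_lit 5) (.ev (nat_lit 0) (nat_lit 140737488355327) .dd)) (.ch (nat_lit 10) (.ev (nat_lit
 0) (nat_lit 140737488355327) .dd)))))

/-- The possible values. -/
noncomputable def oks : List ℕ := [4, 9, 202, 1076]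

/-- The parameters. -/
noncomputable def S : Pr := ⟨fun i l e => lget mz (lget [] (lget [] tabs i) l) e, oks, [(nat_lit 0), (nat_lit
 1), (nat_lit 0), (nat_lit 0)], T, (nat_lit 140737488355327), (nat_lit 12800101590481), (nat_lit 47), [(nat_lit
 1057), (nat_lit 2287041271849359)], [(nat_lit 1331), (nat_lit 2809)]⟩

/-- Nothing known. -/
noncomputable def cs0 : Cs := (.cons (nat_lit 11) (nat_lit 0) (nat_lit 1) (.cons (nat_lit 53) (nat_lit 0) (nat_lit 1) .nil))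

theorem part_1 : part S cs0 (nat_lit 1) = true := by decide +kernel

theorem part_4 : part S cs0 (nat_lit 4) = true := by decide +kernel

/-- Data of a prime. -/
noncomputable def D0 : PD := ⟨(nat_lit 11), (nat_lit 3), (133, 3, 3), (288, 795, 527), (226, 1316, 1296)⟩

theorem D0_ok : D0.Ok := pdb_sound (s := 1) (C := ⟨⟨9, -6, -17, -1, -14, 8, -4, -1, -1⟩, (9, 10, 7)⟩) (by show Nat.Prime 11; norm_num) (by decide +kernel)

/-- Lines of the first type. -/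
noncomputable def Cl0 : List C1 := [⟨⟨-9, 6, -8, 1, 14, 7, 4, 1, -5⟩, (4, 2, 8)⟩,
  ⟨⟨0, 0, 0, 0, 0, 0, 0, 0, 0⟩, (0, 0, 0)⟩,
  ⟨⟨0, 0, 0, 0, 0, 0, 0, 0, 0⟩, (0, 0, 0)⟩,
  ⟨⟨0, 0, 0, 0, 0, 0, 0, 0, 0⟩, (0, 0, 0)⟩,
  ⟨⟨0, 0, 0, 0, 0, 0, 0, 0, 0⟩, (0, 0, 0)⟩,
  ⟨⟨9, 6, -17, -1, 14, 8, -4, 1, -1⟩, (8, 4, 5)⟩,
  ⟨⟨0, 0, 0, 0, 0, 0, 0, 0, 0⟩, (0, 0, 0)⟩,
  ⟨⟨0, 0, 0, 0, 0, 0, 0, 0, 0⟩, (0, 0, 0)⟩,
  ⟨⟨0, 0, 0, 0, 0, 0, 0, 0, 0⟩, (0, 0, 0)⟩,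
  ⟨⟨0, 0, 0, 0, 0, 0, 0, 0, 0⟩, (0, 0, 0)⟩,
  ⟨⟨-9, -6, -8, 1, -14, 7, 4, -1, -5⟩, (7, 9, 3)⟩]

/-- Data of a prime. -/
noncomputable def D1 : PD := ⟨(nat_lit 53), (nat_lit 2), (2545, 8, 14), (2610, 800, 1557), (1968, 957, 2439)⟩

theorem D1_ok : D1.Ok := pdb_sound (s := 12) (C := ⟨⟨-13, 2, -76, -47, -58, 31, 18, -15, -13⟩, (40, 6, 18)⟩) (by show Nat.Prime 53; norm_num) (by decide +kernel)

/-- Lines of the first type. -/
noncomputable def Cl1 : List C1 := [⟨⟨13, -2, -89, -47, -58, 16, 18, -15, -5⟩, (17, 16, 48)⟩,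
  ⟨⟨-23, 38, -56, 43, 58, 1, 18, -9, -23⟩, (9, 50, 16)⟩,
  ⟨⟨-23, -38, -56, 43, -58, 1, 18, 9, -23⟩, (18, 47, 32)⟩,
  ⟨⟨-13, -2, -76, -47, 58, 31, 18, 15, -13⟩, (20, 3, 9)⟩,
  ⟨⟨0, 0, 0, 0, 0, 0, 0, 0, 0⟩, (0, 0, 0)⟩,
  ⟨⟨0, 0, 0, 0, 0, 0, 0, 0, 0⟩, (0, 0, 0)⟩,
  ⟨⟨0, 0, 0, 0, 0, 0, 0, 0, 0⟩, (0, 0, 0)⟩,
  ⟨⟨23, -38, -79, -43, -58, 44, -18, 9, -5⟩, (29, 8, 28)⟩,
  ⟨⟨33, -18, -89, 67, 2, 4, 2, 23, -7⟩, (12, 34, 20)⟩,
  ⟨⟨0, 0, 0, 0, 0, 0, 0, 0, 0⟩, (0, 0, 0)⟩,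
  ⟨⟨0, 0, 0, 0, 0, 0, 0, 0, 0⟩, (0, 0, 0)⟩,
  ⟨⟨0, 0, 0, 0, 0, 0, 0, 0, 0⟩, (0, 0, 0)⟩,
  ⟨⟨0, 0, 0, 0, 0, 0, 0, 0, 0⟩, (0, 0, 0)⟩,
  ⟨⟨27, 42, -76, 7, 58, 49, 22, -7, -5⟩, (1, 14, 44)⟩,
  ⟨⟨33, 18, -89, 67, -2, 4, 2, -23, -7⟩, (44, 1, 38)⟩,
  ⟨⟨0, 0, 0, 0, 0, 0, 0, 0, 0⟩, (0, 0, 0)⟩,
  ⟨⟨0, 0, 0, 0, 0, 0, 0, 0, 0⟩, (0, 0, 0)⟩,
  ⟨⟨0, 0, 0, 0, 0, 0, 0, 0, 0⟩, (0, 0, 0)⟩,
  ⟨⟨0, 0, 0, 0, 0, 0, 0, 0, 0⟩, (0, 0, 0)⟩,
  ⟨⟨57, 42, -56, -37, 62, 41, -10, 1, -19⟩, (20, 27, 3)⟩,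
  ⟨⟨13, 2, -89, -47, 58, 16, 18, 15, -5⟩, (50, 19, 4)⟩,
  ⟨⟨0, 0, 0, 0, 0, 0, 0, 0, 0⟩, (0, 0, 0)⟩,
  ⟨⟨0, 0, 0, 0, 0, 0, 0, 0, 0⟩, (0, 0, 0)⟩,
  ⟨⟨57, -42, -56, -37, -62, 41, -10, -1, -19⟩, (16, 11, 13)⟩,
  ⟨⟨0, 0, 0, 0, 0, 0, 0, 0, 0⟩, (0, 0, 0)⟩,
  ⟨⟨7, 58, -56, 27, 42, 49, 22, -7, -17⟩, (20, 9, 25)⟩,
  ⟨⟨0, 0, 0, 0, 0, 0, 0, 0, 0⟩, (0, 0, 0)⟩,
  ⟨⟨67, -2, -71, 33, 18, 56, -2, 23, -5⟩, (28, 13, 49)⟩,
  ⟨⟨0, 0, 0, 0, 0, 0, 0, 0, 0⟩, (0, 0, 0)⟩,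
  ⟨⟨0, 0, 0, 0, 0, 0, 0, 0, 0⟩, (0, 0, 0)⟩,
  ⟨⟨23, 38, -79, -43, 58, 44, -18, -9, -5⟩, (20, 11, 12)⟩,
  ⟨⟨0, 0, 0, 0, 0, 0, 0, 0, 0⟩, (0, 0, 0)⟩,
  ⟨⟨7, -58, -56, 27, -42, 49, 22, 7, -17⟩, (17, 5, 8)⟩,
  ⟨⟨0, 0, 0, 0, 0, 0, 0, 0, 0⟩, (0, 0, 0)⟩,
  ⟨⟨67, 2, -71, 33, -18, 56, -2, -23, -5⟩, (8, 34, 14)⟩,
  ⟨⟨27, -42, -76, 7, -58, 49, 22, 7, -5⟩, (50, 11, 27)⟩,
  ⟨⟨0, 0, 0, 0, 0, 0, 0, 0, 0⟩, (0, 0, 0)⟩,
  ⟨⟨0, 0, 0, 0, 0, 0, 0, 0, 0⟩, (0, 0, 0)⟩,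
  ⟨⟨0, 0, 0, 0, 0, 0, 0, 0, 0⟩, (0, 0, 0)⟩,
  ⟨⟨0, 0, 0, 0, 0, 0, 0, 0, 0⟩, (0, 0, 0)⟩,
  ⟨⟨0, 0, 0, 0, 0, 0, 0, 0, 0⟩, (0, 0, 0)⟩,
  ⟨⟨0, 0, 0, 0, 0, 0, 0, 0, 0⟩, (0, 0, 0)⟩,
  ⟨⟨0, 0, 0, 0, 0, 0, 0, 0, 0⟩, (0, 0, 0)⟩,
  ⟨⟨0, 0, 0, 0, 0, 0, 0, 0, 0⟩, (0, 0, 0)⟩,
  ⟨⟨0, 0, 0, 0, 0, 0, 0, 0, 0⟩, (0, 0, 0)⟩,
  ⟨⟨-37, 62, -4, -57, -42, 1, 10, -1, -29⟩, (22, 21, 27)⟩,
  ⟨⟨0, 0, 0, 0, 0, 0, 0, 0, 0⟩, (0, 0, 0)⟩,
  ⟨⟨0, 0, 0, 0, 0, 0, 0, 0, 0⟩, (0, 0, 0)⟩,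
  ⟨⟨0, 0, 0, 0, 0, 0, 0, 0, 0⟩, (0, 0, 0)⟩,
  ⟨⟨0, 0, 0, 0, 0, 0, 0, 0, 0⟩, (0, 0, 0)⟩,
  ⟨⟨0, 0, 0, 0, 0, 0, 0, 0, 0⟩, (0, 0, 0)⟩,
  ⟨⟨-37, -62, -4, -57, 42, 1, 10, 1, -29⟩, (6, 25, 17)⟩,
  ⟨⟨0, 0, 0, 0, 0, 0, 0, 0, 0⟩, (0, 0, 0)⟩]

/-- Data of a prime. -/
noncomputable def Dm : PD := ⟨(nat_lit 47), (nat_lit 2), (1034, 1, 9), (105, 517, 2039), (987, 5, 190)⟩

theorem Dm_ok : Dm.Ok := pdb_sound (s := 1) (C := ⟨⟨47, 2, -76, 47, -2, 29, 0, -21, -1⟩, (2, 45, 26)⟩) (by show Nat.Prime 47; norm_num) (by decide +kernel)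

/-- Lines of the first type. -/
noncomputable def Clm : List C1 := [⟨⟨47, -2, -76, 47, 2, 29, 0, 21, -1⟩, (9, 38, 23)⟩,
  ⟨⟨0, 0, 0, 0, 0, 0, 0, 0, 0⟩, (0, 0, 0)⟩,
  ⟨⟨0, 0, 0, 0, 0, 0, 0, 0, 0⟩, (0, 0, 0)⟩,
  ⟨⟨0, 0, 0, 0, 0, 0, 0, 0, 0⟩, (0, 0, 0)⟩,
  ⟨⟨17, 22, -76, -63, 18, 19, -4, -19, -7⟩, (10, 21, 17)⟩,
  ⟨⟨0, 0, 0, 0, 0, 0, 0, 0, 0⟩, (0, 0, 0)⟩,
  ⟨⟨57, -18, -61, -23, -62, 4, -8, 5, -17⟩, (3, 26, 7)⟩,
  ⟨⟨57, 18, -61, -23, 62, 4, -8, -5, -17⟩, (16, 29, 6)⟩,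
  ⟨⟨53, -22, -64, -13, -62, 29, -12, -3, -13⟩, (46, 10, 2)⟩,
  ⟨⟨0, 0, 0, 0, 0, 0, 0, 0, 0⟩, (0, 0, 0)⟩,
  ⟨⟨43, -38, -59, 3, -42, 56, -16, -11, -1⟩, (35, 9, 46)⟩,
  ⟨⟨0, 0, 0, 0, 0, 0, 0, 0, 0⟩, (0, 0, 0)⟩,
  ⟨⟨0, 0, 0, 0, 0, 0, 0, 0, 0⟩, (0, 0, 0)⟩,
  ⟨⟨-17, -22, -59, -63, 18, 44, 4, 19, -11⟩, (15, 39, 2)⟩,
  ⟨⟨0, 0, 0, 0, 0, 0, 0, 0, 0⟩, (0, 0, 0)⟩,
  ⟨⟨0, 0, 0, 0, 0, 0, 0, 0, 0⟩, (0, 0, 0)⟩,
  ⟨⟨0, 0, 0, 0, 0, 0, 0, 0, 0⟩, (0, 0, 0)⟩,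
  ⟨⟨53, 22, -64, -13, 62, 29, -12, 3, -13⟩, (41, 13, 12)⟩,
  ⟨⟨0, 0, 0, 0, 0, 0, 0, 0, 0⟩, (0, 0, 0)⟩,
  ⟨⟨0, 0, 0, 0, 0, 0, 0, 0, 0⟩, (0, 0, 0)⟩,
  ⟨⟨0, 0, 0, 0, 0, 0, 0, 0, 0⟩, (0, 0, 0)⟩,
  ⟨⟨0, 0, 0, 0, 0, 0, 0, 0, 0⟩, (0, 0, 0)⟩,
  ⟨⟨0, 0, 0, 0, 0, 0, 0, 0, 0⟩, (0, 0, 0)⟩,
  ⟨⟨43, 38, -59, 3, 42, 56, -16, 11, -1⟩, (5, 8, 20)⟩,
  ⟨⟨3, -42, -59, 43, -38, 16, 16, 11, -17⟩, (39, 42, 20)⟩,
  ⟨⟨0, 0, 0, 0, 0, 0, 0, 0, 0⟩, (0, 0, 0)⟩,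
  ⟨⟨0, 0, 0, 0, 0, 0, 0, 0, 0⟩, (0, 0, 0)⟩,
  ⟨⟨0, 0, 0, 0, 0, 0, 0, 0, 0⟩, (0, 0, 0)⟩,
  ⟨⟨0, 0, 0, 0, 0, 0, 0, 0, 0⟩, (0, 0, 0)⟩,
  ⟨⟨0, 0, 0, 0, 0, 0, 0, 0, 0⟩, (0, 0, 0)⟩,
  ⟨⟨-13, -62, -16, 53, -22, 11, 12, 3, -25⟩, (34, 6, 12)⟩,
  ⟨⟨0, 0, 0, 0, 0, 0, 0, 0, 0⟩, (0, 0, 0)⟩,
  ⟨⟨0, 0, 0, 0, 0, 0, 0, 0, 0⟩, (0, 0, 0)⟩,
  ⟨⟨0, 0, 0, 0, 0, 0, 0, 0, 0⟩, (0, 0, 0)⟩,
  ⟨⟨17, -22, -76, -63, -18, 19, -4, 19, -7⟩, (15, 8, 2)⟩,
  ⟨⟨0, 0, 0, 0, 0, 0, 0, 0, 0⟩, (0, 0, 0)⟩,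
  ⟨⟨0, 0, 0, 0, 0, 0, 0, 0, 0⟩, (0, 0, 0)⟩,
  ⟨⟨3, 42, -59, 43, 38, 16, 16, -11, -17⟩, (38, 12, 46)⟩,
  ⟨⟨0, 0, 0, 0, 0, 0, 0, 0, 0⟩, (0, 0, 0)⟩,
  ⟨⟨-13, 62, -16, 53, 22, 11, 12, -3, -25⟩, (37, 1, 2)⟩,
  ⟨⟨23, 62, -19, 57, -18, 4, 8, -5, -25⟩, (29, 31, 6)⟩,
  ⟨⟨23, -62, -19, 57, 18, 4, 8, 5, -25⟩, (26, 44, 7)⟩,
  ⟨⟨0, 0, 0, 0, 0, 0, 0, 0, 0⟩, (0, 0, 0)⟩,
  ⟨⟨-17, 22, -59, -63, -18, 44, 4, -19, -11⟩, (10, 26, 17)⟩,
  ⟨⟨0, 0, 0, 0, 0, 0, 0, 0, 0⟩, (0, 0, 0)⟩,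
  ⟨⟨0, 0, 0, 0, 0, 0, 0, 0, 0⟩, (0, 0, 0)⟩,
  ⟨⟨0, 0, 0, 0, 0, 0, 0, 0, 0⟩, (0, 0, 0)⟩]

/-- Unit moves. -/
noncomputable def U : List Mv := [mz,
  mz,
  ⟨⟨-1, 0, 1, 0, 1, 0, 0, 0, 1⟩, .nil, (nat_lit 10), (nat_lit 5), (nat_lit 1), (nat_lit 1), (0, 0, 0), [], 6⟩,
  ⟨⟨1, 0, 0, 0, -1, 0, 0, 0, 1⟩, .nil, (nat_lit 10), (nat_lit 10), (nat_lit 2), (nat_lit 1), (0, 0, 0), [], 10⟩,
  mz,
  mz,
  ⟨⟨-1, 0, 1, 0, -1, 0, 0, 0, 1⟩, .nil, (nat_lit 0), (nat_lit 6), (nat_lit 1), (nat_lit 0), (0, 0, 0), [], 5⟩,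
  ⟨⟨-1, 0, 1, 0, -1, 0, 0, 0, 1⟩, .nil, (nat_lit 0), (nat_lit 6), (nat_lit 1), (nat_lit 0), (0, 0, 0), [], 5⟩,
  ⟨⟨1, 0, 0, 0, -1, 0, 0, 0, 1⟩, .nil, (nat_lit 10), (nat_lit 10), (nat_lit 2), (nat_lit 1), (0, 0, 0), [], 10⟩,
  ⟨⟨-1, 0, 1, 0, 1, 0, 0, 0, 1⟩, .nil, (nat_lit 10), (nat_lit 5), (nat_lit 1), (nat_lit 1), (0, 0, 0), [], 6⟩,
  mz]

theorem v_ty : tyb Dm S.ty1 Clm = true := by decide +kernel

theorem v_ty0 : tyb D0 (S.tys.getD 0 0) Cl0 = true := by decide +kernel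

theorem v_ty1 : tyb D1 (S.tys.getD 1 0) Cl1 = true := by decide +kernel

theorem v_msc : mscb S D0 [D1] Dm (nat_lit 18) = true := by decide +kernel

theorem v_mv0 : mvsn (nat_lit 8258962811) S D0 [D1] Dm (nat_lit 18) 0 D0 = true := by decide +kernel

theorem v_mv1 : mvsn (nat_lit 8258962811) S D0 [D1] Dm (nat_lit 18) 1 D1 = true := by decide +kernel

theorem v_mm : mmsn (nat_lit 8258962811) S D0 [D1] Dm (nat_lit 18) = true := by decide +kernel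

theorem v_un : unb S D0 (nat_lit 18) U = true := by decide +kernel

theorem v_ok : okb S.oks [(0, 0, 0), (0, 3, 0), (0, 0, 0), (0, 0, 0)] = true := by decide +kernel

theorem v_part : ∀ d < D0.p, (nat_lit 18).testBit d = true → part S (zc (D0 :: [D1])) d = true := by
  intro d hd h
  have h1 : ∀ d < 11, (nat_lit 18).testBit d = true → d = 1 ∨ d = 4 := by decide
  rcases h1 d hd h with rfl | rfl
  · exact part_1
  · exact part_4

theorem main (n : ℕ) (ho : Odd n) (hr : ¬ Rep n) (h0 : Split 11 n) (h1 : Split 53 n) (hm : Split 47 n) :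
    n ∈ EE := by
  refine concln (W := nat_lit 8258962811) (S := S) (P0 := D0) (Pl := [D1]) (Pm := Dm) (cn := nat_lit 18) ?_ Dm_ok v_ty ?_ ?_ v_msc ?_ v_mm v_un v_part v_ok
    n ho hr ?_ hm
  · simp only [List.forall_mem_cons]
    exact ⟨D0_ok, D1_ok, fun _ h => absurd h (by simp)⟩
  · exact all2 (φ := fun j P => ∃ L, tyb P (S.tys.getD j 0) L = true) ⟨_, v_ty0⟩ ⟨_, v_ty1⟩
  · exact all2 (φ := fun j P => Nat.ble (S.pks.getD j 0) (Nat.pow P.p P.K) = true) (by decide +kernel) (by decide +kernel)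
  · exact all2 (φ := fun i P => mvsn (nat_lit 8258962811) S D0 [D1] Dm (nat_lit 18) i P = true) v_mv0 v_mv1
  · simp only [List.forall_mem_cons]
    exact ⟨h0, h1, fun _ h => absurd h (by simp)⟩

end Pool.Agent.Work.MP_9954fe_nt.P11_53_47

namespace Pool.Agent.Work.MP_9954fe_nt.P13_37_31

/-- Dummy move. -/
noncomputable def mz : Mv := ⟨⟨0, 0, 0, 0, 0, 0, 0, 0, 0⟩, .nil, (nat_lit 0), (nat_lit 0), (nat_lit 0), (nat_lit 0), (0, 0, 0), [], 0⟩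

/-- Moves. -/
noncomputable def t0_2 : List Mv := [
  ⟨⟨-1, -12, 9, 8, 5, 6, 8, -8, -7⟩, (.cons (nat_lit 1798270) (nat_lit 3794392) (nat_lit 2144058) (nat_lit 1)
 (.cons (nat_lit 747337) (nat_lit 110045) (nat_lit 1515415) (nat_lit 1) .nil)), (nat_lit 20), (nat_lit 23),
 (nat_lit 28), (nat_lit 1), (8, 1, 1), [1227326, 1383093], 21⟩,
  ⟨⟨9, 4, -16, -8, -5, -6, 8, -8, -7⟩, (.cons (nat_lit 2919685) (nat_lit 4270751) (nat_lit 1481163) (nat_lit 1)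
 (.cons (nat_lit 193808) (nat_lit 746204) (nat_lit 841112) (nat_lit 1) .nil)), (nat_lit 25), (nat_lit 2),
 (nat_lit 13), (nat_lit 1), (6, 12, 1), [2271767, 1823369], 13⟩,
  ⟨⟨9, 4, -16, -8, -5, -6, 8, -8, -7⟩, (.cons (nat_lit 2919685) (nat_lit 4270751) (nat_lit 1481163) (nat_lit 1)
 (.cons (nat_lit 193808) (nat_lit 746204) (nat_lit 841112) (nat_lit 1) .nil)), (nat_lit 25), (nat_lit 2),
 (nat_lit 13), (nat_lit 1), (6, 12, 1), [2271767, 1823369], 13⟩,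
  ⟨⟨-1, -12, 9, -8, -5, -6, 8, -8, -7⟩, (.cons (nat_lit 495919) (nat_lit 4756839) (nat_lit 247966) (nat_lit 1)
 (.cons (nat_lit 1874160) (nat_lit 273551) (nat_lit 311591) (nat_lit 1) .nil)), (nat_lit 30), (nat_lit 15),
 (nat_lit 23), (nat_lit 1), (8, 12, 1), [3125393, 1193489], 28⟩,
  ⟨⟨-1, -12, 9, 8, 5, 6, 8, -8, -7⟩, (.cons (nat_lit 1798270) (nat_lit 3794392) (nat_lit 2144058) (nat_lit 1)
 (.cons (nat_lit 747337) (nat_lit 110045) (nat_lit 1515415) (nat_lit 1) .nil)), (nat_lit 20), (nat_lit 23),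
 (nat_lit 28), (nat_lit 1), (8, 1, 1), [1227326, 1383093], 21⟩,
  ⟨⟨9, 4, -16, 8, 5, 6, 8, -8, -7⟩, (.cons (nat_lit 2843227) (nat_lit 1868486) (nat_lit 1840382) (nat_lit 1)
 (.cons (nat_lit 1810248) (nat_lit 806303) (nat_lit 229633) (nat_lit 1) .nil)), (nat_lit 23), (nat_lit 1),
 (nat_lit 2), (nat_lit 1), (6, 1, 1), [4589782, 36332], 25⟩,
  ⟨⟨9, 4, -16, 8, 5, 6, 8, -8, -7⟩, (.cons (nat_lit 2843227) (nat_lit 1868486) (nat_lit 1840382) (nat_lit 1)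
 (.cons (nat_lit 1810248) (nat_lit 806303) (nat_lit 229633) (nat_lit 1) .nil)), (nat_lit 23), (nat_lit 1),
 (nat_lit 2), (nat_lit 1), (6, 1, 1), [4589782, 36332], 25⟩,
  ⟨⟨-1, -12, 9, -8, -5, -6, 8, -8, -7⟩, (.cons (nat_lit 495919) (nat_lit 4756839) (nat_lit 247966) (nat_lit 1)
 (.cons (nat_lit 1874160) (nat_lit 273551) (nat_lit 311591) (nat_lit 1) .nil)), (nat_lit 30), (nat_lit 15),
 (nat_lit 23), (nat_lit 1), (8, 12, 1), [3125393, 1193489], 28⟩,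
  ⟨⟨-1, -12, 9, -8, -5, -6, 8, -8, -7⟩, (.cons (nat_lit 495919) (nat_lit 4756839) (nat_lit 247966) (nat_lit 1)
 (.cons (nat_lit 1874160) (nat_lit 273551) (nat_lit 311591) (nat_lit 1) .nil)), (nat_lit 30), (nat_lit 15),
 (nat_lit 23), (nat_lit 1), (8, 12, 1), [3125393, 1193489], 28⟩,
  ⟨⟨-1, -12, 9, -8, -5, -6, 8, -8, -7⟩, (.cons (nat_lit 495919) (nat_lit 4756839) (nat_lit 247966) (nat_lit 1)
 (.cons (nat_lit 1874160) (nat_lit 273551) (nat_lit 311591) (nat_lit 1) .nil)), (nat_lit 30), (nat_lit 15),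
 (nat_lit 23), (nat_lit 1), (8, 12, 1), [3125393, 1193489], 28⟩,
  ⟨⟨-1, -12, 9, 8, 5, 6, 8, -8, -7⟩, (.cons (nat_lit 1798270) (nat_lit 3794392) (nat_lit 2144058) (nat_lit 1)
 (.cons (nat_lit 747337) (nat_lit 110045) (nat_lit 1515415) (nat_lit 1) .nil)), (nat_lit 20), (nat_lit 23),
 (nat_lit 28), (nat_lit 1), (8, 1, 1), [1227326, 1383093], 21⟩,
  ⟨⟨-1, -12, 9, -8, -5, -6, 8, -8, -7⟩, (.cons (nat_lit 495919) (nat_lit 4756839) (nat_lit 247966) (nat_lit 1)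
 (.cons (nat_lit 1874160) (nat_lit 273551) (nat_lit 311591) (nat_lit 1) .nil)), (nat_lit 30), (nat_lit 15),
 (nat_lit 23), (nat_lit 1), (8, 12, 1), [3125393, 1193489], 28⟩,
  ⟨⟨-1, -12, 9, -8, -5, -6, 8, -8, -7⟩, (.cons (nat_lit 495919) (nat_lit 4756839) (nat_lit 247966) (nat_lit 1)
 (.cons (nat_lit 1874160) (nat_lit 273551) (nat_lit 311591) (nat_lit 1) .nil)), (nat_lit 30), (nat_lit 15),
 (nat_lit 23), (nat_lit 1), (8, 12, 1), [3125393, 1193489], 28⟩]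

/-- Moves. -/
noncomputable def t0_4 : List Mv := [
  ⟨⟨5, 12, -9, -12, 5, 6, 0, 0, -13⟩, (.cons (nat_lit 2595001) (nat_lit 3104467) (nat_lit 3422489) (nat_lit 1)
 (.cons (nat_lit 696785) (nat_lit 946351) (nat_lit 1681894) (nat_lit 1) .nil)), (nat_lit 1), (nat_lit 6),
 (nat_lit 19), (nat_lit 1), (12, 5, 0), [2732539, 156218], 12⟩,
  ⟨⟨-5, -12, -4, -12, 5, 6, 0, 0, -13⟩, (.cons (nat_lit 273335) (nat_lit 1209881) (nat_lit 68337) (nat_lit 1)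
 (.cons (nat_lit 1874160) (nat_lit 825254) (nat_lit 1780818) (nat_lit 1) .nil)), (nat_lit 30), (nat_lit 28),
 (nat_lit 25), (nat_lit 1), (1, 5, 0), [3873608, 817248], 1⟩,
  ⟨⟨-5, -12, -4, -12, 5, 6, 0, 0, -13⟩, (.cons (nat_lit 273335) (nat_lit 1209881) (nat_lit 68337) (nat_lit 1)
 (.cons (nat_lit 1874160) (nat_lit 825254) (nat_lit 1780818) (nat_lit 1) .nil)), (nat_lit 30), (nat_lit 28),
 (nat_lit 25), (nat_lit 1), (1, 5, 0), [3873608, 817248], 1⟩,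
  ⟨⟨-5, -12, -4, 12, -5, -6, 0, 0, -13⟩, (.cons (nat_lit 3834156) (nat_lit 4555975) (nat_lit 1642618) (nat_lit
 1) (.cons (nat_lit 856403) (nat_lit 70813) (nat_lit 375199) (nat_lit 1) .nil)), (nat_lit 1), (nat_lit 18),
 (nat_lit 26), (nat_lit 1), (1, 8, 0), [1521153, 52624], 26⟩,
  ⟨⟨5, 12, -9, 12, -5, -6, 0, 0, -13⟩, (.cons (nat_lit 2272170) (nat_lit 4691530) (nat_lit 1774748) (nat_lit 1)
 (.cons (nat_lit 1874160) (nat_lit 1282665) (nat_lit 326050) (nat_lit 1) .nil)), (nat_lit 30), (nat_lit 26),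
 (nat_lit 21), (nat_lit 1), (12, 8, 0), [2927202, 635925], 19⟩,
  ⟨⟨5, 12, -9, 12, -5, -6, 0, 0, -13⟩, (.cons (nat_lit 2272170) (nat_lit 4691530) (nat_lit 1774748) (nat_lit 1)
 (.cons (nat_lit 1874160) (nat_lit 1282665) (nat_lit 326050) (nat_lit 1) .nil)), (nat_lit 30), (nat_lit 26),
 (nat_lit 21), (nat_lit 1), (12, 8, 0), [2927202, 635925], 19⟩,
  ⟨⟨5, 12, -9, -12, 5, 6, 0, 0, -13⟩, (.cons (nat_lit 2595001) (nat_lit 3104467) (nat_lit 3422489) (nat_lit 1)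
 (.cons (nat_lit 696785) (nat_lit 946351) (nat_lit 1681894) (nat_lit 1) .nil)), (nat_lit 1), (nat_lit 6),
 (nat_lit 19), (nat_lit 1), (12, 5, 0), [2732539, 156218], 12⟩,
  ⟨⟨5, 12, -9, 12, -5, -6, 0, 0, -13⟩, (.cons (nat_lit 2272170) (nat_lit 4691530) (nat_lit 1774748) (nat_lit 1)
 (.cons (nat_lit 1874160) (nat_lit 1282665) (nat_lit 326050) (nat_lit 1) .nil)), (nat_lit 30), (nat_lit 26),
 (nat_lit 21), (nat_lit 1), (12, 8, 0), [2927202, 635925], 19⟩,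
  ⟨⟨5, 12, -9, 12, -5, -6, 0, 0, -13⟩, (.cons (nat_lit 2272170) (nat_lit 4691530) (nat_lit 1774748) (nat_lit 1)
 (.cons (nat_lit 1874160) (nat_lit 1282665) (nat_lit 326050) (nat_lit 1) .nil)), (nat_lit 30), (nat_lit 26),
 (nat_lit 21), (nat_lit 1), (12, 8, 0), [2927202, 635925], 19⟩,
  ⟨⟨-5, -12, -4, 12, -5, -6, 0, 0, -13⟩, (.cons (nat_lit 3834156) (nat_lit 4555975) (nat_lit 1642618) (nat_lit
 1) (.cons (nat_lit 856403) (nat_lit 70813) (nat_lit 375199) (nat_lit 1) .nil)), (nat_lit 1), (nat_lit 18),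
 (nat_lit 26), (nat_lit 1), (1, 8, 0), [1521153, 52624], 26⟩,
  ⟨⟨5, 12, -9, 12, -5, -6, 0, 0, -13⟩, (.cons (nat_lit 2272170) (nat_lit 4691530) (nat_lit 1774748) (nat_lit 1)
 (.cons (nat_lit 1874160) (nat_lit 1282665) (nat_lit 326050) (nat_lit 1) .nil)), (nat_lit 30), (nat_lit 26),
 (nat_lit 21), (nat_lit 1), (12, 8, 0), [2927202, 635925], 19⟩,
  ⟨⟨5, 12, -9, -12, 5, 6, 0, 0, -13⟩, (.cons (nat_lit 2595001) (nat_lit 3104467) (nat_lit 3422489) (nat_lit 1)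
 (.cons (nat_lit 696785) (nat_lit 946351) (nat_lit 1681894) (nat_lit 1) .nil)), (nat_lit 1), (nat_lit 6),
 (nat_lit 19), (nat_lit 1), (12, 5, 0), [2732539, 156218], 12⟩,
  ⟨⟨5, 12, -9, 12, -5, -6, 0, 0, -13⟩, (.cons (nat_lit 2272170) (nat_lit 4691530) (nat_lit 1774748) (nat_lit 1)
 (.cons (nat_lit 1874160) (nat_lit 1282665) (nat_lit 326050) (nat_lit 1) .nil)), (nat_lit 30), (nat_lit 26),
 (nat_lit 21), (nat_lit 1), (12, 8, 0), [2927202, 635925], 19⟩]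

/-- Moves. -/
noncomputable def t0_5 : List Mv := [
  ⟨⟨9, 8, -13, 10, -7, 0, 2, -4, -13⟩, (.cons (nat_lit 2315812) (nat_lit 843964) (nat_lit 1453495) (nat_lit 1)
 (.cons (nat_lit 963361) (nat_lit 960539) (nat_lit 352253) (nat_lit 1) .nil)), (nat_lit 5), (nat_lit 5),
 (nat_lit 10), (nat_lit 1), (2, 8, 12), [4581319, 250838], 4⟩,
  ⟨⟨9, 8, -13, -10, 7, 0, 2, -4, -13⟩, (.cons (nat_lit 4177513) (nat_lit 3253428) (nat_lit 1218083) (nat_lit 1)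
 (.cons (nat_lit 1589971) (nat_lit 1553939) (nat_lit 1560690) (nat_lit 1) .nil)), (nat_lit 12), (nat_lit 11),
 (nat_lit 0), (nat_lit 1), (2, 5, 12), [648168, 1288213], 30⟩,
  ⟨⟨9, 8, -13, -10, 7, 0, 2, -4, -13⟩, (.cons (nat_lit 4177513) (nat_lit 3253428) (nat_lit 1218083) (nat_lit 1)
 (.cons (nat_lit 1589971) (nat_lit 1553939) (nat_lit 1560690) (nat_lit 1) .nil)), (nat_lit 12), (nat_lit 11),
 (nat_lit 0), (nat_lit 1), (2, 5, 12), [648168, 1288213], 30⟩,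
  ⟨⟨9, 8, -13, -10, 7, 0, 2, -4, -13⟩, (.cons (nat_lit 4177513) (nat_lit 3253428) (nat_lit 1218083) (nat_lit 1)
 (.cons (nat_lit 1589971) (nat_lit 1553939) (nat_lit 1560690) (nat_lit 1) .nil)), (nat_lit 12), (nat_lit 11),
 (nat_lit 0), (nat_lit 1), (2, 5, 12), [648168, 1288213], 30⟩,
  ⟨⟨-7, -12, 0, 10, -7, 0, 2, -4, -13⟩, (.cons (nat_lit 3289575) (nat_lit 183543) (nat_lit 32948) (nat_lit 1)
 (.cons (nat_lit 825945) (nat_lit 316964) (nat_lit 231834) (nat_lit 1) .nil)), (nat_lit 0), (nat_lit 7),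
 (nat_lit 18), (nat_lit 1), (10, 8, 12), [920321, 1320059], 26⟩,
  ⟨⟨9, 8, -13, 10, -7, 0, 2, -4, -13⟩, (.cons (nat_lit 2315812) (nat_lit 843964) (nat_lit 1453495) (nat_lit 1)
 (.cons (nat_lit 963361) (nat_lit 960539) (nat_lit 352253) (nat_lit 1) .nil)), (nat_lit 5), (nat_lit 5),
 (nat_lit 10), (nat_lit 1), (2, 8, 12), [4581319, 250838], 4⟩,
  ⟨⟨9, 8, -13, 10, -7, 0, 2, -4, -13⟩, (.cons (nat_lit 2315812) (nat_lit 843964) (nat_lit 1453495) (nat_lit 1)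
 (.cons (nat_lit 963361) (nat_lit 960539) (nat_lit 352253) (nat_lit 1) .nil)), (nat_lit 5), (nat_lit 5),
 (nat_lit 10), (nat_lit 1), (2, 8, 12), [4581319, 250838], 4⟩,
  ⟨⟨9, 8, -13, -10, 7, 0, 2, -4, -13⟩, (.cons (nat_lit 4177513) (nat_lit 3253428) (nat_lit 1218083) (nat_lit 1)
 (.cons (nat_lit 1589971) (nat_lit 1553939) (nat_lit 1560690) (nat_lit 1) .nil)), (nat_lit 12), (nat_lit 11),
 (nat_lit 0), (nat_lit 1), (2, 5, 12), [648168, 1288213], 30⟩,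
  ⟨⟨-7, -12, 0, 10, -7, 0, 2, -4, -13⟩, (.cons (nat_lit 3289575) (nat_lit 183543) (nat_lit 32948) (nat_lit 1)
 (.cons (nat_lit 825945) (nat_lit 316964) (nat_lit 231834) (nat_lit 1) .nil)), (nat_lit 0), (nat_lit 7),
 (nat_lit 18), (nat_lit 1), (10, 8, 12), [920321, 1320059], 26⟩,
  ⟨⟨-7, -12, 0, -10, 7, 0, 2, -4, -13⟩, (.cons (nat_lit 4676545) (nat_lit 3073074) (nat_lit 3831397) (nat_lit
 1) (.cons (nat_lit 1874160) (nat_lit 1864410) (nat_lit 723926) (nat_lit 1) .nil)), (nat_lit 30), (nat_lit 3),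
 (nat_lit 1), (nat_lit 1), (10, 5, 12), [3689710, 612321], 10⟩,
  ⟨⟨9, 8, -13, -10, 7, 0, 2, -4, -13⟩, (.cons (nat_lit 4177513) (nat_lit 3253428) (nat_lit 1218083) (nat_lit 1)
 (.cons (nat_lit 1589971) (nat_lit 1553939) (nat_lit 1560690) (nat_lit 1) .nil)), (nat_lit 12), (nat_lit 11),
 (nat_lit 0), (nat_lit 1), (2, 5, 12), [648168, 1288213], 30⟩,
  ⟨⟨9, 8, -13, -10, 7, 0, 2, -4, -13⟩, (.cons (nat_lit 4177513) (nat_lit 3253428) (nat_lit 1218083) (nat_lit 1)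
 (.cons (nat_lit 1589971) (nat_lit 1553939) (nat_lit 1560690) (nat_lit 1) .nil)), (nat_lit 12), (nat_lit 11),
 (nat_lit 0), (nat_lit 1), (2, 5, 12), [648168, 1288213], 30⟩,
  ⟨⟨9, 8, -13, -10, 7, 0, 2, -4, -13⟩, (.cons (nat_lit 4177513) (nat_lit 3253428) (nat_lit 1218083) (nat_lit 1)
 (.cons (nat_lit 1589971) (nat_lit 1553939) (nat_lit 1560690) (nat_lit 1) .nil)), (nat_lit 12), (nat_lit 11),
 (nat_lit 0), (nat_lit 1), (2, 5, 12), [648168, 1288213], 30⟩]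

/-- Moves. -/
noncomputable def t1_2 : List Mv := [
  mz,
  ⟨⟨27, 4, 20, -10, -33, 20, 30, -12, -23⟩, (.cons (nat_lit 3990903) (nat_lit 4807734) (nat_lit 1) (nat_lit
 2967393) (.cons (nat_lit 607496) (nat_lit 134371) (nat_lit 1185402) (nat_lit 1) .nil)), (nat_lit 21), (nat_lit
 9), (nat_lit 24), (nat_lit 1), (3, 3, 28), [2499281, 24583], 8⟩,
  mz,
  mz,
  ⟨⟨21, 4, 28, 8, 35, -14, 32, -8, -19⟩, (.cons (nat_lit 4826808) (nat_lit 3870509) (nat_lit 1547033) (nat_lit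
 1) (.cons (nat_lit 1425476) (nat_lit 1018043) (nat_lit 1761999) (nat_lit 1) .nil)), (nat_lit 30), (nat_lit 7),
 (nat_lit 16), (nat_lit 1), (33, 2, 8), [4747384, 1716966], 27⟩,
  ⟨⟨21, -4, 28, 8, -35, -14, 32, 8, -19⟩, (.cons (nat_lit 2597736) (nat_lit 3145515) (nat_lit 2120523) (nat_lit
 1) (.cons (nat_lit 140534) (nat_lit 54930) (nat_lit 357163) (nat_lit 1) .nil)), (nat_lit 5), (nat_lit 16),
 (nat_lit 26), (nat_lit 1), (15, 11, 7), [1685490, 1768453], 14⟩,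
  mz,
  ⟨⟨-1, -24, -36, 30, 17, -30, -18, 12, -19⟩, (.cons (nat_lit 1738888) (nat_lit 1305455) (nat_lit 93072)
 (nat_lit 1) (.cons (nat_lit 1499386) (nat_lit 885095) (nat_lit 110208) (nat_lit 1) .nil)), (nat_lit 29),
 (nat_lit 27), (nat_lit 11), (nat_lit 1), (13, 17, 12), [1698451, 466968], 27⟩,
  ⟨⟨-35, 12, -1, 12, 35, -6, 0, 0, -37⟩, (.cons (nat_lit 3463655) (nat_lit 3255587) (nat_lit 1) (nat_lit
 1363154) (.cons (nat_lit 353825) (nat_lit 423693) (nat_lit 512773) (nat_lit 1) .nil)), (nat_lit 30), (nat_lit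
 5), (nat_lit 10), (nat_lit 1), (3, 18, 0), [3755070, 388739], 4⟩,
  mz,
  ⟨⟨-1, 24, -36, 30, -17, -30, -18, -12, -19⟩, (.cons (nat_lit 4826808) (nat_lit 68122) (nat_lit 2990635)
 (nat_lit 1) (.cons (nat_lit 313047) (nat_lit 906125) (nat_lit 1155805) (nat_lit 1) .nil)), (nat_lit 30),
 (nat_lit 25), (nat_lit 23), (nat_lit 1), (10, 33, 32), [3346311, 164154], 16⟩,
  ⟨⟨3, 16, -43, 10, -33, -20, 30, 12, -23⟩, (.cons (nat_lit 60303) (nat_lit 3114643) (nat_lit 387409) (nat_lit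
 1) (.cons (nat_lit 657744) (nat_lit 232141) (nat_lit 594355) (nat_lit 1) .nil)), (nat_lit 17), (nat_lit 21),
 (nat_lit 11), (nat_lit 1), (23, 15, 8), [4608965, 1521813], 13⟩,
  ⟨⟨39, -4, -8, 10, 17, -40, 14, -28, -19⟩, (.cons (nat_lit 4826808) (nat_lit 1223186) (nat_lit 4033354)
 (nat_lit 1) (.cons (nat_lit 1554850) (nat_lit 1613946) (nat_lit 285754) (nat_lit 1) .nil)), (nat_lit 30),
 (nat_lit 24), (nat_lit 21), (nat_lit 1), (11, 18, 3), [210780, 179876], 23⟩,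
  ⟨⟨-31, 24, 27, 8, -5, 36, 8, 32, -1⟩, (.cons (nat_lit 4826808) (nat_lit 1995273) (nat_lit 2886299) (nat_lit
 1) (.cons (nat_lit 384092) (nat_lit 900727) (nat_lit 1038712) (nat_lit 1) .nil)), (nat_lit 30), (nat_lit 10),
 (nat_lit 19), (nat_lit 1), (26, 10, 10), [2301184, 604956], 1⟩,
  mz,
  ⟨⟨-3, 40, 8, 32, 5, -36, -16, 16, -19⟩, (.cons (nat_lit 2004831) (nat_lit 2109832) (nat_lit 1) (nat_lit
 3436849) (.cons (nat_lit 798622) (nat_lit 669341) (nat_lit 1419928) (nat_lit 1) .nil)), (nat_lit 7), (nat_lit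
 20), (nat_lit 9), (nat_lit 1), (27, 8, 33), [3994894, 1800850], 16⟩,
  ⟨⟨11, -12, 36, 8, 35, 6, 32, -8, -13⟩, (.cons (nat_lit 3177120) (nat_lit 1286175) (nat_lit 4570667) (nat_lit
 1) (.cons (nat_lit 1621980) (nat_lit 49080) (nat_lit 836361) (nat_lit 1) .nil)), (nat_lit 5), (nat_lit 13),
 (nat_lit 1), (nat_lit 1), (3, 19, 2), [2195530, 975839], 17⟩,
  ⟨⟨39, -8, -11, 8, 5, -44, 8, -32, -7⟩, (.cons (nat_lit 4826808) (nat_lit 1126416) (nat_lit 4401238) (nat_lit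
 1) (.cons (nat_lit 275039) (nat_lit 1783885) (nat_lit 457160) (nat_lit 1) .nil)), (nat_lit 30), (nat_lit 18),
 (nat_lit 26), (nat_lit 1), (5, 20, 20), [4323594, 48182], 24⟩,
  ⟨⟨39, 4, -8, 10, -17, -40, 14, 28, -19⟩, (.cons (nat_lit 4114537) (nat_lit 353353) (nat_lit 794364) (nat_lit
 1) (.cons (nat_lit 101959) (nat_lit 470110) (nat_lit 1640323) (nat_lit 1) .nil)), (nat_lit 7), (nat_lit 22),
 (nat_lit 12), (nat_lit 1), (29, 34, 18), [4184964, 770684], 8⟩,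
  ⟨⟨39, -8, -28, -8, -5, -36, 8, -32, -1⟩, (.cons (nat_lit 2990997) (nat_lit 72102) (nat_lit 2906935) (nat_lit
 1) (.cons (nat_lit 1371082) (nat_lit 881345) (nat_lit 452127) (nat_lit 1) .nil)), (nat_lit 8), (nat_lit 29),
 (nat_lit 18), (nat_lit 1), (22, 23, 14), [187659, 10396], 15⟩,
  ⟨⟨25, -24, -36, -10, 17, -30, -14, -28, -5⟩, (.cons (nat_lit 4826808) (nat_lit 1095338) (nat_lit 1573909)
 (nat_lit 1) (.cons (nat_lit 740045) (nat_lit 1217231) (nat_lit 1723749) (nat_lit 1) .nil)), (nat_lit 30),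
 (nat_lit 13), (nat_lit 9), (nat_lit 1), (21, 36, 6), [2109788, 1773034], 26⟩,
  ⟨⟨13, -24, -40, 32, -5, 4, 16, 16, -35⟩, (.cons (nat_lit 2895224) (nat_lit 3898719) (nat_lit 2380620)
 (nat_lit 1) (.cons (nat_lit 222986) (nat_lit 1585934) (nat_lit 135540) (nat_lit 1) .nil)), (nat_lit 16),
 (nat_lit 20), (nat_lit 21), (nat_lit 1), (27, 1, 19), [1553353, 375479], 6⟩,
  ⟨⟨-31, 24, 4, -8, 5, 44, 8, 32, -7⟩, (.cons (nat_lit 738559) (nat_lit 2602679) (nat_lit 2329299) (nat_lit 1)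
 (.cons (nat_lit 461521) (nat_lit 1176936) (nat_lit 1089616) (nat_lit 1) .nil)), (nat_lit 4), (nat_lit 8),
 (nat_lit 21), (nat_lit 1), (12, 21, 16), [2529699, 1822483], 8⟩,
  mz,
  ⟨⟨13, 24, -40, 32, 5, 4, 16, -16, -35⟩, (.cons (nat_lit 698737) (nat_lit 4259267) (nat_lit 834427) (nat_lit
 1) (.cons (nat_lit 1571933) (nat_lit 218484) (nat_lit 1279548) (nat_lit 1) .nil)), (nat_lit 9), (nat_lit 6),
 (nat_lit 12), (nat_lit 1), (24, 5, 21), [3509280, 32266], 25⟩,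
  ⟨⟨17, -36, 0, -30, -17, 0, 18, -12, -37⟩, (.cons (nat_lit 4826808) (nat_lit 3471372) (nat_lit 4313700)
 (nat_lit 1) (.cons (nat_lit 484565) (nat_lit 632621) (nat_lit 1368780) (nat_lit 1) .nil)), (nat_lit 30),
 (nat_lit 6), (nat_lit 11), (nat_lit 1), (21, 13, 7), [1016163, 119015], 1⟩,
  ⟨⟨27, -4, -47, -10, 33, -10, 30, 12, -7⟩, (.cons (nat_lit 281830) (nat_lit 3648050) (nat_lit 3767919)
 (nat_lit 1) (.cons (nat_lit 274365) (nat_lit 283126) (nat_lit 1229669) (nat_lit 1) .nil)), (nat_lit 11),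
 (nat_lit 17), (nat_lit 3), (nat_lit 1), (15, 15, 29), [1966693, 653075], 8⟩,
  ⟨⟨27, 4, -47, -10, -33, -10, 30, -12, -7⟩, (.cons (nat_lit 3559078) (nat_lit 3697792) (nat_lit 3987724)
 (nat_lit 1) (.cons (nat_lit 3966) (nat_lit 12424) (nat_lit 414996) (nat_lit 1) .nil)), (nat_lit 7), (nat_lit
 28), (nat_lit 18), (nat_lit 1), (33, 33, 12), [3269064, 89427], 6⟩,
  mz,
  ⟨⟨-35, -12, -1, 12, -35, -6, 0, 0, -37⟩, (.cons (nat_lit 3525120) (nat_lit 3701762) (nat_lit 2321570)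
 (nat_lit 1) (.cons (nat_lit 1066550) (nat_lit 1394035) (nat_lit 434693) (nat_lit 1) .nil)), (nat_lit 1),
 (nat_lit 20), (nat_lit 22), (nat_lit 1), (23, 27, 0), [3091020, 1839414], 30⟩,
  ⟨⟨25, 24, -36, 10, 17, 30, -14, 28, -5⟩, (.cons (nat_lit 4826808) (nat_lit 2649231) (nat_lit 4031871)
 (nat_lit 1) (.cons (nat_lit 459819) (nat_lit 1725603) (nat_lit 889937) (nat_lit 1) .nil)), (nat_lit 30),
 (nat_lit 26), (nat_lit 17), (nat_lit 1), (18, 22, 21), [2786652, 1218758], 23⟩,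
  mz,
  mz,
  ⟨⟨-3, -40, 8, 32, -5, -36, -16, -16, -19⟩, (.cons (nat_lit 4312999) (nat_lit 4133762) (nat_lit 852063)
 (nat_lit 1) (.cons (nat_lit 1782129) (nat_lit 882841) (nat_lit 1226847) (nat_lit 1) .nil)), (nat_lit 2),
 (nat_lit 10), (nat_lit 13), (nat_lit 1), (32, 4, 35), [2101746, 1421722], 24⟩,
  mz,
  ⟨⟨11, 12, 36, -8, 35, -6, 32, 8, -13⟩, (.cons (nat_lit 3753847) (nat_lit 3246396) (nat_lit 3045047) (nat_lit
 1) (.cons (nat_lit 1213719) (nat_lit 643017) (nat_lit 1869) (nat_lit 1) .nil)), (nat_lit 25), (nat_lit 16),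
 (nat_lit 6), (nat_lit 1), (20, 9, 1), [2135643, 1122014], 23⟩,
  ⟨⟨1, -24, -37, -30, 17, 0, 18, 12, -37⟩, (.cons (nat_lit 3225005) (nat_lit 4459384) (nat_lit 3975974)
 (nat_lit 1) (.cons (nat_lit 1196502) (nat_lit 1057277) (nat_lit 1384140) (nat_lit 1) .nil)), (nat_lit 14),
 (nat_lit 4), (nat_lit 8), (nat_lit 1), (26, 34, 24), [4187814, 1684962], 16⟩]

/-- Moves. -/
noncomputable def t1_4 : List Mv := [
  mz,
  ⟨⟨3, -16, -43, -10, -33, 20, 30, -12, -23⟩, (.cons (nat_lit 2846833) (nat_lit 717161) (nat_lit 1264353)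
 (nat_lit 1) (.cons (nat_lit 298279) (nat_lit 1817436) (nat_lit 1785048) (nat_lit 1) .nil)), (nat_lit 27),
 (nat_lit 10), (nat_lit 20), (nat_lit 1), (25, 3, 28), [1659577, 24429], 15⟩,
  mz,
  mz,
  ⟨⟨21, 4, 28, 8, 35, -14, 32, -8, -19⟩, (.cons (nat_lit 4826808) (nat_lit 3870509) (nat_lit 1547033) (nat_lit
 1) (.cons (nat_lit 1425476) (nat_lit 1018043) (nat_lit 1761999) (nat_lit 1) .nil)), (nat_lit 30), (nat_lit 7),
 (nat_lit 16), (nat_lit 1), (33, 2, 8), [4747384, 1716966], 27⟩,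
  ⟨⟨21, -4, 28, 8, -35, -14, 32, 8, -19⟩, (.cons (nat_lit 2597736) (nat_lit 3145515) (nat_lit 2120523) (nat_lit
 1) (.cons (nat_lit 140534) (nat_lit 54930) (nat_lit 357163) (nat_lit 1) .nil)), (nat_lit 5), (nat_lit 16),
 (nat_lit 26), (nat_lit 1), (15, 11, 7), [1685490, 1768453], 14⟩,
  mz,
  ⟨⟨-1, -24, -36, 30, 17, -30, -18, 12, -19⟩, (.cons (nat_lit 1738888) (nat_lit 1305455) (nat_lit 93072)
 (nat_lit 1) (.cons (nat_lit 1499386) (nat_lit 885095) (nat_lit 110208) (nat_lit 1) .nil)), (nat_lit 29),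
 (nat_lit 27), (nat_lit 11), (nat_lit 1), (13, 17, 12), [1698451, 466968], 27⟩,
  ⟨⟨-35, 12, -1, -12, -35, 6, 0, 0, -37⟩, (.cons (nat_lit 1150605) (nat_lit 2104961) (nat_lit 3972458) (nat_lit
 1) (.cons (nat_lit 799824) (nat_lit 112697) (nat_lit 541824) (nat_lit 1) .nil)), (nat_lit 1), (nat_lit 11),
 (nat_lit 9), (nat_lit 1), (3, 19, 0), [4302945, 974124], 30⟩,
  mz,
  ⟨⟨-1, 24, -36, 30, -17, -30, -18, -12, -19⟩, (.cons (nat_lit 4826808) (nat_lit 68122) (nat_lit 2990635)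
 (nat_lit 1) (.cons (nat_lit 313047) (nat_lit 906125) (nat_lit 1155805) (nat_lit 1) .nil)), (nat_lit 30),
 (nat_lit 25), (nat_lit 23), (nat_lit 1), (10, 33, 32), [3346311, 164154], 16⟩,
  ⟨⟨3, 16, -43, 10, -33, -20, 30, 12, -23⟩, (.cons (nat_lit 60303) (nat_lit 3114643) (nat_lit 387409) (nat_lit
 1) (.cons (nat_lit 657744) (nat_lit 232141) (nat_lit 594355) (nat_lit 1) .nil)), (nat_lit 17), (nat_lit 21),
 (nat_lit 11), (nat_lit 1), (23, 15, 8), [4608965, 1521813], 13⟩,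
  ⟨⟨39, -4, -8, -10, -17, 40, 14, -28, -19⟩, (.cons (nat_lit 3437063) (nat_lit 1024296) (nat_lit 571109)
 (nat_lit 1) (.cons (nat_lit 114235) (nat_lit 1334585) (nat_lit 580609) (nat_lit 1) .nil)), (nat_lit 9),
 (nat_lit 19), (nat_lit 16), (nat_lit 1), (11, 19, 3), [3936037, 1791581], 28⟩,
  ⟨⟨39, 8, -28, -8, 5, -36, 8, 32, -1⟩, (.cons (nat_lit 3927768) (nat_lit 1960263) (nat_lit 1739437) (nat_lit
 1) (.cons (nat_lit 1823396) (nat_lit 1267075) (nat_lit 1419066) (nat_lit 1) .nil)), (nat_lit 13), (nat_lit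
 17), (nat_lit 3), (nat_lit 1), (21, 27, 10), [1651132, 1338202], 20⟩,
  mz,
  ⟨⟨-13, -24, -27, 32, 5, -36, -16, 16, -19⟩, (.cons (nat_lit 2526554) (nat_lit 3057564) (nat_lit 3975506)
 (nat_lit 1) (.cons (nat_lit 796793) (nat_lit 623440) (nat_lit 327247) (nat_lit 1) .nil)), (nat_lit 8),
 (nat_lit 19), (nat_lit 17), (nat_lit 1), (6, 8, 33), [1741034, 654749], 30⟩,
  ⟨⟨21, 4, -49, 8, 35, 6, 32, -8, -13⟩, (.cons (nat_lit 3843909) (nat_lit 2974177) (nat_lit 2549487) (nat_lit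
 1) (.cons (nat_lit 1143271) (nat_lit 1071032) (nat_lit 159805) (nat_lit 1) .nil)), (nat_lit 3), (nat_lit 29),
 (nat_lit 27), (nat_lit 1), (36, 19, 2), [3629312, 753675], 1⟩,
  ⟨⟨39, -8, -11, -8, -5, 44, 8, -32, -7⟩, (.cons (nat_lit 3469351) (nat_lit 1659860) (nat_lit 3767641) (nat_lit
 1) (.cons (nat_lit 460752) (nat_lit 665154) (nat_lit 1172797) (nat_lit 1) .nil)), (nat_lit 14), (nat_lit 28),
 (nat_lit 24), (nat_lit 1), (5, 17, 20), [2779988, 1248849], 20⟩,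
  ⟨⟨39, 4, -8, -10, 17, 40, 14, 28, -19⟩, (.cons (nat_lit 4826808) (nat_lit 2268763) (nat_lit 3937883) (nat_lit
 1) (.cons (nat_lit 448528) (nat_lit 502940) (nat_lit 1378481) (nat_lit 1) .nil)), (nat_lit 30), (nat_lit 20),
 (nat_lit 26), (nat_lit 1), (29, 3, 18), [3534328, 1274331], 26⟩,
  ⟨⟨39, -8, -28, -8, -5, -36, 8, -32, -1⟩, (.cons (nat_lit 2990997) (nat_lit 72102) (nat_lit 2906935) (nat_lit
 1) (.cons (nat_lit 1371082) (nat_lit 881345) (nat_lit 452127) (nat_lit 1) .nil)), (nat_lit 8), (nat_lit 29),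
 (nat_lit 18), (nat_lit 1), (22, 23, 14), [187659, 10396], 15⟩,
  ⟨⟨-39, -4, 31, 10, -17, 30, -14, -28, -5⟩, (.cons (nat_lit 1118456) (nat_lit 1718638) (nat_lit 4341112)
 (nat_lit 1) (.cons (nat_lit 1446381) (nat_lit 1824542) (nat_lit 424510) (nat_lit 1) .nil)), (nat_lit 8),
 (nat_lit 25), (nat_lit 19), (nat_lit 1), (22, 1, 6), [4634091, 361569], 12⟩,
  ⟨⟨13, -24, -40, -32, 5, -4, 16, 16, -35⟩, (.cons (nat_lit 1733791) (nat_lit 323919) (nat_lit 4404522)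
 (nat_lit 1) (.cons (nat_lit 790175) (nat_lit 546003) (nat_lit 1464450) (nat_lit 1) .nil)), (nat_lit 24),
 (nat_lit 22), (nat_lit 13), (nat_lit 1), (27, 36, 19), [401133, 620026], 9⟩,
  ⟨⟨39, 8, -11, 8, -5, -44, 8, 32, -7⟩, (.cons (nat_lit 3957064) (nat_lit 4631890) (nat_lit 79108) (nat_lit 1)
 (.cons (nat_lit 425268) (nat_lit 1360462) (nat_lit 1420042) (nat_lit 1) .nil)), (nat_lit 20), (nat_lit 29),
 (nat_lit 16), (nat_lit 1), (4, 16, 16), [4743431, 517079], 2⟩,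
  mz,
  ⟨⟨13, 24, -40, -32, -5, -4, 16, -16, -35⟩, (.cons (nat_lit 3174932) (nat_lit 3813019) (nat_lit 941042)
 (nat_lit 1) (.cons (nat_lit 1860152) (nat_lit 1054636) (nat_lit 705457) (nat_lit 1) .nil)), (nat_lit 16),
 (nat_lit 26), (nat_lit 9), (nat_lit 1), (24, 32, 21), [1722340, 1551364], 6⟩,
  ⟨⟨1, 24, -37, -30, -17, 0, 18, -12, -37⟩, (.cons (nat_lit 4449046) (nat_lit 1841748) (nat_lit 4430173)
 (nat_lit 1) (.cons (nat_lit 331579) (nat_lit 1579701) (nat_lit 232118) (nat_lit 1) .nil)), (nat_lit 12),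
 (nat_lit 28), (nat_lit 28), (nat_lit 1), (23, 13, 7), [1876078, 853811], 13⟩,
  ⟨⟨3, 16, 40, 10, -33, 10, 30, 12, -7⟩, (.cons (nat_lit 4826808) (nat_lit 2366898) (nat_lit 4522467) (nat_lit
 1) (.cons (nat_lit 193529) (nat_lit 124685) (nat_lit 728276) (nat_lit 1) .nil)), (nat_lit 30), (nat_lit 10),
 (nat_lit 28), (nat_lit 1), (14, 22, 29), [690785, 75080], 19⟩,
  ⟨⟨3, -16, 40, -10, -33, -10, 30, -12, -7⟩, (.cons (nat_lit 4826808) (nat_lit 1428698) (nat_lit 1737974)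
 (nat_lit 1) (.cons (nat_lit 724955) (nat_lit 944729) (nat_lit 859812) (nat_lit 1) .nil)), (nat_lit 30),
 (nat_lit 6), (nat_lit 3), (nat_lit 1), (16, 33, 12), [4175976, 883822], 10⟩,
  mz,
  ⟨⟨-35, -12, -1, 12, -35, -6, 0, 0, -37⟩, (.cons (nat_lit 3525120) (nat_lit 3701762) (nat_lit 2321570)
 (nat_lit 1) (.cons (nat_lit 1066550) (nat_lit 1394035) (nat_lit 434693) (nat_lit 1) .nil)), (nat_lit 1),
 (nat_lit 20), (nat_lit 22), (nat_lit 1), (23, 27, 0), [3091020, 1839414], 30⟩,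
  ⟨⟨-39, 4, 31, 10, 17, 30, -14, 28, -5⟩, (.cons (nat_lit 4678349) (nat_lit 3864368) (nat_lit 2956117) (nat_lit
 1) (.cons (nat_lit 414330) (nat_lit 634291) (nat_lit 8576) (nat_lit 1) .nil)), (nat_lit 17), (nat_lit 18),
 (nat_lit 27), (nat_lit 1), (3, 22, 21), [3993967, 1424097], 7⟩,
  mz,
  mz,
  ⟨⟨-3, -40, 8, 32, -5, -36, -16, -16, -19⟩, (.cons (nat_lit 4312999) (nat_lit 4133762) (nat_lit 852063)
 (nat_lit 1) (.cons (nat_lit 1782129) (nat_lit 882841) (nat_lit 1226847) (nat_lit 1) .nil)), (nat_lit 2),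
 (nat_lit 10), (nat_lit 13), (nat_lit 1), (32, 4, 35), [2101746, 1421722], 24⟩,
  mz,
  ⟨⟨21, -4, -49, -8, 35, -6, 32, 8, -13⟩, (.cons (nat_lit 3469823) (nat_lit 1220923) (nat_lit 4305166) (nat_lit
 1) (.cons (nat_lit 1467484) (nat_lit 742414) (nat_lit 558328) (nat_lit 1) .nil)), (nat_lit 6), (nat_lit 0),
 (nat_lit 0), (nat_lit 1), (18, 9, 1), [1736352, 1006223], 5⟩,
  ⟨⟨1, -24, -37, -30, 17, 0, 18, 12, -37⟩, (.cons (nat_lit 3225005) (nat_lit 4459384) (nat_lit 3975974)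
 (nat_lit 1) (.cons (nat_lit 1196502) (nat_lit 1057277) (nat_lit 1384140) (nat_lit 1) .nil)), (nat_lit 14),
 (nat_lit 4), (nat_lit 8), (nat_lit 1), (26, 34, 24), [4187814, 1684962], 16⟩]

/-- Moves. -/
noncomputable def t1_5 : List Mv := [
  mz,
  ⟨⟨3, -16, -43, 10, 33, -20, 30, -12, -23⟩, (.cons (nat_lit 2767332) (nat_lit 2611102) (nat_lit 3010223)
 (nat_lit 1) (.cons (nat_lit 613252) (nat_lit 1059658) (nat_lit 579005) (nat_lit 1) .nil)), (nat_lit 9),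
 (nat_lit 12), (nat_lit 23), (nat_lit 1), (25, 34, 28), [4435322, 1167854], 10⟩,
  mz,
  mz,
  ⟨⟨21, 4, 28, 8, 35, -14, 32, -8, -19⟩, (.cons (nat_lit 4826808) (nat_lit 3870509) (nat_lit 1547033) (nat_lit
 1) (.cons (nat_lit 1425476) (nat_lit 1018043) (nat_lit 1761999) (nat_lit 1) .nil)), (nat_lit 30), (nat_lit 7),
 (nat_lit 16), (nat_lit 1), (33, 2, 8), [4747384, 1716966], 27⟩,
  ⟨⟨21, -4, 28, -8, 35, 14, 32, 8, -19⟩, (.cons (nat_lit 4826808) (nat_lit 3496432) (nat_lit 1648458) (nat_lit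
 1) (.cons (nat_lit 1028292) (nat_lit 691621) (nat_lit 580498) (nat_lit 1) .nil)), (nat_lit 0), (nat_lit 28),
 (nat_lit 1), (nat_lit 0), (15, 26, 7), [3902238, 809546], 13⟩,
  mz,
  ⟨⟨-1, -24, -36, 30, 17, -30, -18, 12, -19⟩, (.cons (nat_lit 1738888) (nat_lit 1305455) (nat_lit 93072)
 (nat_lit 1) (.cons (nat_lit 1499386) (nat_lit 885095) (nat_lit 110208) (nat_lit 1) .nil)), (nat_lit 29),
 (nat_lit 27), (nat_lit 11), (nat_lit 1), (13, 17, 12), [1698451, 466968], 27⟩,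
  ⟨⟨-35, 12, -1, 12, 35, -6, 0, 0, -37⟩, (.cons (nat_lit 3463655) (nat_lit 3255587) (nat_lit 1) (nat_lit
 1363154) (.cons (nat_lit 353825) (nat_lit 423693) (nat_lit 512773) (nat_lit 1) .nil)), (nat_lit 30), (nat_lit
 5), (nat_lit 10), (nat_lit 1), (3, 18, 0), [3755070, 388739], 4⟩,
  mz,
  ⟨⟨-1, 24, -36, -30, 17, 30, -18, -12, -19⟩, (.cons (nat_lit 280220) (nat_lit 4427201) (nat_lit 3439996)
 (nat_lit 1) (.cons (nat_lit 413761) (nat_lit 1019282) (nat_lit 864789) (nat_lit 1) .nil)), (nat_lit 15),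
 (nat_lit 29), (nat_lit 21), (nat_lit 1), (10, 4, 32), [3131725, 549573], 30⟩,
  ⟨⟨27, -4, 20, 10, -33, -20, 30, 12, -23⟩, (.cons (nat_lit 3290443) (nat_lit 1341998) (nat_lit 4111131)
 (nat_lit 1) (.cons (nat_lit 223957) (nat_lit 1529890) (nat_lit 759273) (nat_lit 1) .nil)), (nat_lit 3),
 (nat_lit 4), (nat_lit 21), (nat_lit 1), (22, 15, 8), [699654, 1041787], 10⟩,
  ⟨⟨-25, -24, -11, -10, -17, 40, 14, -28, -19⟩, (.cons (nat_lit 4507204) (nat_lit 3436122) (nat_lit 1880168)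
 (nat_lit 1) (.cons (nat_lit 390234) (nat_lit 1118274) (nat_lit 1469609) (nat_lit 1) .nil)), (nat_lit 17),
 (nat_lit 20), (nat_lit 9), (nat_lit 1), (29, 19, 3), [3240827, 1476147], 17⟩,
  ⟨⟨-31, 24, 27, 8, -5, 36, 8, 32, -1⟩, (.cons (nat_lit 4826808) (nat_lit 1995273) (nat_lit 2886299) (nat_lit
 1) (.cons (nat_lit 384092) (nat_lit 900727) (nat_lit 1038712) (nat_lit 1) .nil)), (nat_lit 30), (nat_lit 10),
 (nat_lit 19), (nat_lit 1), (26, 10, 10), [2301184, 604956], 1⟩,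
  mz,
  ⟨⟨-3, 40, 8, -32, -5, 36, -16, 16, -19⟩, (.cons (nat_lit 2471120) (nat_lit 2078922) (nat_lit 1271384)
 (nat_lit 1) (.cons (nat_lit 505032) (nat_lit 1154438) (nat_lit 1762769) (nat_lit 1) .nil)), (nat_lit 2),
 (nat_lit 22), (nat_lit 20), (nat_lit 1), (27, 29, 33), [362125, 1768448], 24⟩,
  ⟨⟨21, 4, -49, -8, -35, -6, 32, -8, -13⟩, (.cons (nat_lit 4461738) (nat_lit 1033493) (nat_lit 3029009)
 (nat_lit 1) (.cons (nat_lit 269102) (nat_lit 1406390) (nat_lit 1191970) (nat_lit 1) .nil)), (nat_lit 25),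
 (nat_lit 25), (nat_lit 29), (nat_lit 1), (36, 18, 2), [4146778, 1126172], 15⟩,
  ⟨⟨39, -8, -11, 8, 5, -44, 8, -32, -7⟩, (.cons (nat_lit 4826808) (nat_lit 1126416) (nat_lit 4401238) (nat_lit
 1) (.cons (nat_lit 275039) (nat_lit 1783885) (nat_lit 457160) (nat_lit 1) .nil)), (nat_lit 30), (nat_lit 18),
 (nat_lit 26), (nat_lit 1), (5, 20, 20), [4323594, 48182], 24⟩,
  ⟨⟨39, 4, -8, -10, 17, 40, 14, 28, -19⟩, (.cons (nat_lit 4826808) (nat_lit 2268763) (nat_lit 3937883) (nat_lit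
 1) (.cons (nat_lit 448528) (nat_lit 502940) (nat_lit 1378481) (nat_lit 1) .nil)), (nat_lit 30), (nat_lit 20),
 (nat_lit 26), (nat_lit 1), (29, 3, 18), [3534328, 1274331], 26⟩,
  ⟨⟨39, -8, -28, -8, -5, -36, 8, -32, -1⟩, (.cons (nat_lit 2990997) (nat_lit 72102) (nat_lit 2906935) (nat_lit
 1) (.cons (nat_lit 1371082) (nat_lit 881345) (nat_lit 452127) (nat_lit 1) .nil)), (nat_lit 8), (nat_lit 29),
 (nat_lit 18), (nat_lit 1), (22, 23, 14), [187659, 10396], 15⟩,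
  ⟨⟨25, -24, -36, -10, 17, -30, -14, -28, -5⟩, (.cons (nat_lit 4826808) (nat_lit 1095338) (nat_lit 1573909)
 (nat_lit 1) (.cons (nat_lit 740045) (nat_lit 1217231) (nat_lit 1723749) (nat_lit 1) .nil)), (nat_lit 30),
 (nat_lit 13), (nat_lit 9), (nat_lit 1), (21, 36, 6), [2109788, 1773034], 26⟩,
  ⟨⟨13, -24, -40, -32, 5, -4, 16, 16, -35⟩, (.cons (nat_lit 1733791) (nat_lit 323919) (nat_lit 4404522)
 (nat_lit 1) (.cons (nat_lit 790175) (nat_lit 546003) (nat_lit 1464450) (nat_lit 1) .nil)), (nat_lit 24),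
 (nat_lit 22), (nat_lit 13), (nat_lit 1), (27, 36, 19), [401133, 620026], 9⟩,
  ⟨⟨39, 8, -11, 8, -5, -44, 8, 32, -7⟩, (.cons (nat_lit 3957064) (nat_lit 4631890) (nat_lit 79108) (nat_lit 1)
 (.cons (nat_lit 425268) (nat_lit 1360462) (nat_lit 1420042) (nat_lit 1) .nil)), (nat_lit 20), (nat_lit 29),
 (nat_lit 16), (nat_lit 1), (4, 16, 16), [4743431, 517079], 2⟩,
  mz,
  ⟨⟨3, -40, 5, -32, -5, -4, 16, -16, -35⟩, (.cons (nat_lit 4826808) (nat_lit 3702007) (nat_lit 3350191)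
 (nat_lit 1) (.cons (nat_lit 321485) (nat_lit 1375892) (nat_lit 481937) (nat_lit 1) .nil)), (nat_lit 30),
 (nat_lit 18), (nat_lit 17), (nat_lit 1), (34, 32, 21), [369787, 213769], 18⟩,
  ⟨⟨17, -36, 0, 30, 17, 0, 18, -12, -37⟩, (.cons (nat_lit 3748126) (nat_lit 81780) (nat_lit 1938205) (nat_lit
 1) (.cons (nat_lit 338837) (nat_lit 141716) (nat_lit 670967) (nat_lit 1) .nil)), (nat_lit 15), (nat_lit 26),
 (nat_lit 27), (nat_lit 1), (21, 24, 7), [1231593, 862200], 30⟩,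
  ⟨⟨27, -4, -47, -10, 33, -10, 30, 12, -7⟩, (.cons (nat_lit 281830) (nat_lit 3648050) (nat_lit 3767919)
 (nat_lit 1) (.cons (nat_lit 274365) (nat_lit 283126) (nat_lit 1229669) (nat_lit 1) .nil)), (nat_lit 11),
 (nat_lit 17), (nat_lit 3), (nat_lit 1), (15, 15, 29), [1966693, 653075], 8⟩,
  ⟨⟨27, 4, -47, 10, 33, 10, 30, -12, -7⟩, (.cons (nat_lit 4303579) (nat_lit 4018370) (nat_lit 4285886) (nat_lit
 1) (.cons (nat_lit 699829) (nat_lit 70715) (nat_lit 1699014) (nat_lit 1) .nil)), (nat_lit 23), (nat_lit 18),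
 (nat_lit 5), (nat_lit 1), (33, 4, 12), [1304450, 1764046], 1⟩,
  mz,
  ⟨⟨-35, -12, -1, -12, 35, 6, 0, 0, -37⟩, (.cons (nat_lit 4826808) (nat_lit 2831480) (nat_lit 1497530) (nat_lit
 1) (.cons (nat_lit 8720) (nat_lit 1641026) (nat_lit 1615958) (nat_lit 1) .nil)), (nat_lit 30), (nat_lit 22),
 (nat_lit 13), (nat_lit 1), (23, 10, 0), [3534214, 29474], 14⟩,
  ⟨⟨-39, 4, 31, -10, -17, -30, -14, 28, -5⟩, (.cons (nat_lit 4411969) (nat_lit 2097027) (nat_lit 1) (nat_lit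
 2148588) (.cons (nat_lit 603834) (nat_lit 328847) (nat_lit 657138) (nat_lit 1) .nil)), (nat_lit 11), (nat_lit
 28), (nat_lit 25), (nat_lit 1), (3, 15, 21), [363798, 870269], 11⟩,
  mz,
  mz,
  ⟨⟨-3, -40, 8, 32, -5, -36, -16, -16, -19⟩, (.cons (nat_lit 4312999) (nat_lit 4133762) (nat_lit 852063)
 (nat_lit 1) (.cons (nat_lit 1782129) (nat_lit 882841) (nat_lit 1226847) (nat_lit 1) .nil)), (nat_lit 2),
 (nat_lit 10), (nat_lit 13), (nat_lit 1), (32, 4, 35), [2101746, 1421722], 24⟩,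
  mz,
  ⟨⟨21, -4, -49, -8, 35, -6, 32, 8, -13⟩, (.cons (nat_lit 3469823) (nat_lit 1220923) (nat_lit 4305166) (nat_lit
 1) (.cons (nat_lit 1467484) (nat_lit 742414) (nat_lit 558328) (nat_lit 1) .nil)), (nat_lit 6), (nat_lit 0),
 (nat_lit 0), (nat_lit 1), (18, 9, 1), [1736352, 1006223], 5⟩,
  ⟨⟨17, 36, 0, -30, 17, 0, 18, 12, -37⟩, (.cons (nat_lit 372042) (nat_lit 2609176) (nat_lit 2639136) (nat_lit
 1) (.cons (nat_lit 587166) (nat_lit 654203) (nat_lit 125876) (nat_lit 1) .nil)), (nat_lit 29), (nat_lit 21),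
 (nat_lit 23), (nat_lit 1), (35, 34, 24), [4696836, 983644], 27⟩]

/-- Moves. -/
noncomputable def t4_2 : List Mv := [
  mz,
  ⟨⟨3, 20, 29, 4, -25, 18, 26, 8, -7⟩, (.cons (nat_lit 2664834) (nat_lit 3155156) (nat_lit 1567534) (nat_lit 1)
 (.cons (nat_lit 305316) (nat_lit 1100834) (nat_lit 592247) (nat_lit 1) .nil)), (nat_lit 26), (nat_lit 0),
 (nat_lit 0), (nat_lit 0), (26, 14, 29), [4822849, 796604], 0⟩,
  ⟨⟨3, -20, 29, 4, 25, 18, 26, -8, -7⟩, (.cons (nat_lit 365799) (nat_lit 2080091) (nat_lit 1620712) (nat_lit 1)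
 (.cons (nat_lit 872368) (nat_lit 498941) (nat_lit 1723053) (nat_lit 1) .nil)), (nat_lit 26), (nat_lit 0),
 (nat_lit 0), (nat_lit 0), (19, 15, 20), [279709, 1500131], 0⟩,
  mz,
  ⟨⟨27, 16, -28, -4, -15, -28, -6, 24, -11⟩, (.cons (nat_lit 701229) (nat_lit 3899800) (nat_lit 1275613)
 (nat_lit 1) (.cons (nat_lit 1219178) (nat_lit 47667) (nat_lit 901068) (nat_lit 1) .nil)), (nat_lit 14),
 (nat_lit 0), (nat_lit 0), (nat_lit 0), (15, 15, 7), [4090962, 1163907], 0⟩,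
  mz,
  ⟨⟨21, -4, -40, 16, 25, 2, 22, -16, -5⟩, (.cons (nat_lit 107871) (nat_lit 2882138) (nat_lit 2569701) (nat_lit
 1) (.cons (nat_lit 1315412) (nat_lit 145115) (nat_lit 628366) (nat_lit 1) .nil)), (nat_lit 23), (nat_lit 0),
 (nat_lit 0), (nat_lit 0), (21, 16, 22), [1497800, 685393], 0⟩,
  mz,
  ⟨⟨-31, 0, 0, 10, 19, -30, -4, -20, -19⟩, (.cons (nat_lit 4826808) (nat_lit 1029438) (nat_lit 1972793)
 (nat_lit 1) (.cons (nat_lit 1874160) (nat_lit 961501) (nat_lit 400) (nat_lit 1) .nil)), (nat_lit 8), (nat_lit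
 0), (nat_lit 0), (nat_lit 0), (0, 5, 29), [3988190, 799851], 0⟩,
  mz,
  mz,
  mz,
  mz,
  ⟨⟨27, 20, -19, 10, -19, -30, -4, 20, -19⟩, (.cons (nat_lit 2640907) (nat_lit 3131469) (nat_lit 360424)
 (nat_lit 1) (.cons (nat_lit 1362540) (nat_lit 746680) (nat_lit 1570652) (nat_lit 1) .nil)), (nat_lit 25),
 (nat_lit 0), (nat_lit 0), (nat_lit 0), (5, 3, 5), [1616623, 1251749], 0⟩,
  ⟨⟨27, -16, -28, -4, 15, -28, -6, -24, -11⟩, (.cons (nat_lit 4826808) (nat_lit 2440775) (nat_lit 997769)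
 (nat_lit 1) (.cons (nat_lit 1874160) (nat_lit 1646261) (nat_lit 967866) (nat_lit 1) .nil)), (nat_lit 14),
 (nat_lit 0), (nat_lit 0), (nat_lit 0), (28, 28, 11), [1604539, 1779292], 0⟩,
  ⟨⟨3, 20, -32, 4, -25, -22, 26, 8, -19⟩, (.cons (nat_lit 4586589) (nat_lit 4151478) (nat_lit 255299) (nat_lit
 1) (.cons (nat_lit 1557660) (nat_lit 747968) (nat_lit 1745545) (nat_lit 1) .nil)), (nat_lit 26), (nat_lit 0),
 (nat_lit 0), (nat_lit 0), (10, 3, 4), [1161717, 1427828], 0⟩,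
  mz,
  mz,
  ⟨⟨21, -4, 19, 16, 25, -18, 22, -16, -17⟩, (.cons (nat_lit 2868347) (nat_lit 4365526) (nat_lit 2373266)
 (nat_lit 1) (.cons (nat_lit 314668) (nat_lit 1554254) (nat_lit 1435139) (nat_lit 1) .nil)), (nat_lit 23),
 (nat_lit 0), (nat_lit 0), (nat_lit 0), (7, 26, 28), [1477153, 597308], 0⟩,
  ⟨⟨-9, 8, -31, -10, -29, 0, 20, -4, -31⟩, (.cons (nat_lit 1700027) (nat_lit 2721594) (nat_lit 3556003)
 (nat_lit 1) (.cons (nat_lit 1858184) (nat_lit 1795458) (nat_lit 1039876) (nat_lit 1) .nil)), (nat_lit 20),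
 (nat_lit 0), (nat_lit 0), (nat_lit 0), (2, 16, 30), [3027983, 41895], 0⟩,
  ⟨⟨9, 8, -40, 10, -29, -10, -20, -4, -11⟩, (.cons (nat_lit 4826808) (nat_lit 1253457) (nat_lit 1543574)
 (nat_lit 1) (.cons (nat_lit 1874160) (nat_lit 996125) (nat_lit 1220058) (nat_lit 1) .nil)), (nat_lit 20),
 (nat_lit 0), (nat_lit 0), (nat_lit 0), (27, 30, 2), [608147, 506635], 0⟩,
  ⟨⟨33, 8, -16, 4, -15, -32, 6, 24, -17⟩, (.cons (nat_lit 360031) (nat_lit 4669168) (nat_lit 286916) (nat_lit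
 1) (.cons (nat_lit 654040) (nat_lit 1414913) (nat_lit 431632) (nat_lit 1) .nil)), (nat_lit 27), (nat_lit 0),
 (nat_lit 0), (nat_lit 0), (1, 2, 3), [2548005, 1316680], 0⟩,
  ⟨⟨9, -8, -40, 10, 29, -10, -20, 4, -11⟩, (.cons (nat_lit 849360) (nat_lit 982318) (nat_lit 1268333) (nat_lit
 1) (.cons (nat_lit 795842) (nat_lit 1071400) (nat_lit 350138) (nat_lit 1) .nil)), (nat_lit 20), (nat_lit 0),
 (nat_lit 0), (nat_lit 0), (18, 20, 22), [1535725, 1058336], 0⟩,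
  ⟨⟨23, 12, 13, 4, 25, -22, 26, -8, -19⟩, (.cons (nat_lit 2759862) (nat_lit 1722387) (nat_lit 1454337) (nat_lit
 1) (.cons (nat_lit 470875) (nat_lit 518250) (nat_lit 777628) (nat_lit 1) .nil)), (nat_lit 18), (nat_lit 0),
 (nat_lit 0), (nat_lit 0), (23, 4, 26), [3414595, 1469553], 0⟩,
  ⟨⟨29, 12, 0, 10, -29, 0, 20, 4, -31⟩, (.cons (nat_lit 4826808) (nat_lit 3075431) (nat_lit 2703884) (nat_lit
 1) (.cons (nat_lit 1874160) (nat_lit 343005) (nat_lit 523244) (nat_lit 1) .nil)), (nat_lit 24), (nat_lit 0),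
 (nat_lit 0), (nat_lit 0), (26, 25, 19), [3750819, 994443], 0⟩,
  ⟨⟨31, 0, -31, -10, 19, -20, 4, -20, -23⟩, (.cons (nat_lit 2699149) (nat_lit 1140005) (nat_lit 3919162)
 (nat_lit 1) (.cons (nat_lit 1699008) (nat_lit 62753) (nat_lit 978006) (nat_lit 1) .nil)), (nat_lit 8),
 (nat_lit 0), (nat_lit 0), (nat_lit 0), (0, 22, 16), [2988034, 520007], 0⟩,
  ⟨⟨1, 12, 35, -16, 25, -2, 22, 16, -5⟩, (.cons (nat_lit 3055294) (nat_lit 920231) (nat_lit 4128446) (nat_lit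
 1) (.cons (nat_lit 746218) (nat_lit 194961) (nat_lit 612979) (nat_lit 1) .nil)), (nat_lit 2), (nat_lit 0),
 (nat_lit 0), (nat_lit 0), (30, 16, 9), [4355493, 424550], 0⟩,
  ⟨⟨33, -8, -16, 4, 15, -32, 6, -24, -17⟩, (.cons (nat_lit 4826808) (nat_lit 2018644) (nat_lit 570233) (nat_lit
 1) (.cons (nat_lit 1874160) (nat_lit 1257554) (nat_lit 1862791) (nat_lit 1) .nil)), (nat_lit 27), (nat_lit 0),
 (nat_lit 0), (nat_lit 0), (23, 15, 7), [425723, 263117], 0⟩,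
  ⟨⟨1, 12, -36, -16, 25, 18, 22, 16, -17⟩, (.cons (nat_lit 3847870) (nat_lit 3562045) (nat_lit 4172815)
 (nat_lit 1) (.cons (nat_lit 1497065) (nat_lit 1704755) (nat_lit 1) (nat_lit 689791) .nil)), (nat_lit 2),
 (nat_lit 0), (nat_lit 0), (nat_lit 0), (19, 6, 15), [1125201, 818061], 0⟩,
  ⟨⟨-27, 20, 8, 10, 19, 20, 4, 20, -23⟩, (.cons (nat_lit 4826808) (nat_lit 3096484) (nat_lit 1543856) (nat_lit
 1) (.cons (nat_lit 1874160) (nat_lit 714807) (nat_lit 535884) (nat_lit 1) .nil)), (nat_lit 29), (nat_lit 0),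
 (nat_lit 0), (nat_lit 0), (23, 11, 23), [3246059, 814170], 0⟩]

/-- Moves. -/
noncomputable def t4_4 : List Mv := [
  mz,
  ⟨⟨3, 20, 29, -4, 25, -18, 26, 8, -7⟩, (.cons (nat_lit 4237942) (nat_lit 3584) (nat_lit 4358045) (nat_lit 1)
 (.cons (nat_lit 1309101) (nat_lit 735049) (nat_lit 1482783) (nat_lit 1) .nil)), (nat_lit 6), (nat_lit 0),
 (nat_lit 0), (nat_lit 0), (26, 17, 29), [3488104, 1058221], 0⟩,
  ⟨⟨23, 12, -36, -4, -25, -18, 26, -8, -7⟩, (.cons (nat_lit 2998797) (nat_lit 3954169) (nat_lit 1) (nat_lit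
 1763372) (.cons (nat_lit 1421170) (nat_lit 848505) (nat_lit 1564864) (nat_lit 1) .nil)), (nat_lit 28),
 (nat_lit 0), (nat_lit 0), (nat_lit 0), (1, 16, 20), [3604942, 410170], 0⟩,
  mz,
  ⟨⟨27, 16, -28, -4, -15, -28, -6, 24, -11⟩, (.cons (nat_lit 701229) (nat_lit 3899800) (nat_lit 1275613)
 (nat_lit 1) (.cons (nat_lit 1219178) (nat_lit 47667) (nat_lit 901068) (nat_lit 1) .nil)), (nat_lit 14),
 (nat_lit 0), (nat_lit 0), (nat_lit 0), (15, 15, 7), [4090962, 1163907], 0⟩,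
  mz,
  ⟨⟨1, -12, 35, -16, -25, -2, 22, -16, -5⟩, (.cons (nat_lit 3763527) (nat_lit 2352555) (nat_lit 166871)
 (nat_lit 1) (.cons (nat_lit 93845) (nat_lit 844256) (nat_lit 384529) (nat_lit 1) .nil)), (nat_lit 2), (nat_lit
 0), (nat_lit 0), (nat_lit 0), (1, 15, 22), [2241549, 520529], 0⟩,
  mz,
  ⟨⟨-31, 0, 0, 10, 19, -30, -4, -20, -19⟩, (.cons (nat_lit 4826808) (nat_lit 1029438) (nat_lit 1972793)
 (nat_lit 1) (.cons (nat_lit 1874160) (nat_lit 961501) (nat_lit 400) (nat_lit 1) .nil)), (nat_lit 8), (nat_lit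
 0), (nat_lit 0), (nat_lit 0), (0, 5, 29), [3988190, 799851], 0⟩,
  mz,
  mz,
  mz,
  mz,
  ⟨⟨-31, 0, 0, 10, -19, -30, -4, 20, -19⟩, (.cons (nat_lit 2572631) (nat_lit 3630868) (nat_lit 1) (nat_lit
 1337206) (.cons (nat_lit 7197) (nat_lit 1834472) (nat_lit 232268) (nat_lit 1) .nil)), (nat_lit 8), (nat_lit
 0), (nat_lit 0), (nat_lit 0), (0, 3, 5), [1863130, 696122], 0⟩,
  ⟨⟨27, -16, -28, -4, 15, -28, -6, -24, -11⟩, (.cons (nat_lit 4826808) (nat_lit 2440775) (nat_lit 997769)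
 (nat_lit 1) (.cons (nat_lit 1874160) (nat_lit 1646261) (nat_lit 967866) (nat_lit 1) .nil)), (nat_lit 14),
 (nat_lit 0), (nat_lit 0), (nat_lit 0), (28, 28, 11), [1604539, 1779292], 0⟩,
  ⟨⟨3, 20, -32, 4, -25, -22, 26, 8, -19⟩, (.cons (nat_lit 4586589) (nat_lit 4151478) (nat_lit 255299) (nat_lit
 1) (.cons (nat_lit 1557660) (nat_lit 747968) (nat_lit 1745545) (nat_lit 1) .nil)), (nat_lit 26), (nat_lit 0),
 (nat_lit 0), (nat_lit 0), (10, 3, 4), [1161717, 1427828], 0⟩,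
  mz,
  mz,
  ⟨⟨1, -12, -36, 16, 25, -18, 22, -16, -17⟩, (.cons (nat_lit 1430573) (nat_lit 3216035) (nat_lit 2544950)
 (nat_lit 1) (.cons (nat_lit 1813412) (nat_lit 516358) (nat_lit 280140) (nat_lit 1) .nil)), (nat_lit 1),
 (nat_lit 0), (nat_lit 0), (nat_lit 0), (21, 26, 28), [1125705, 1615482], 0⟩,
  ⟨⟨-9, 8, -31, 10, 29, 0, 20, -4, -31⟩, (.cons (nat_lit 2349780) (nat_lit 1971431) (nat_lit 706422) (nat_lit
 1) (.cons (nat_lit 1662225) (nat_lit 45266) (nat_lit 897751) (nat_lit 1) .nil)), (nat_lit 22), (nat_lit 0),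
 (nat_lit 0), (nat_lit 0), (2, 15, 30), [416392, 1471218], 0⟩,
  ⟨⟨9, 8, -40, -10, 29, 10, -20, -4, -11⟩, (.cons (nat_lit 2900035) (nat_lit 1956625) (nat_lit 1785087)
 (nat_lit 1) (.cons (nat_lit 1015387) (nat_lit 1107226) (nat_lit 894133) (nat_lit 1) .nil)), (nat_lit 22),
 (nat_lit 0), (nat_lit 0), (nat_lit 0), (27, 1, 2), [3735450, 841410], 0⟩,
  ⟨⟨-27, 16, -1, 4, -15, -32, 6, 24, -17⟩, (.cons (nat_lit 2043631) (nat_lit 2186680) (nat_lit 1753994)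
 (nat_lit 1) (.cons (nat_lit 207692) (nat_lit 863197) (nat_lit 651528) (nat_lit 1) .nil)), (nat_lit 14),
 (nat_lit 0), (nat_lit 0), (nat_lit 0), (2, 2, 3), [1342500, 787628], 0⟩,
  ⟨⟨9, -8, -40, -10, -29, 10, -20, 4, -11⟩, (.cons (nat_lit 4826808) (nat_lit 4545361) (nat_lit 3401734)
 (nat_lit 1) (.cons (nat_lit 1874160) (nat_lit 454545) (nat_lit 1108700) (nat_lit 1) .nil)), (nat_lit 22),
 (nat_lit 0), (nat_lit 0), (nat_lit 0), (18, 11, 22), [3703728, 1626600], 0⟩,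
  ⟨⟨23, 12, 13, -4, -25, 22, 26, -8, -19⟩, (.cons (nat_lit 2665489) (nat_lit 4259927) (nat_lit 1781858)
 (nat_lit 1) (.cons (nat_lit 249493) (nat_lit 273800) (nat_lit 1799148) (nat_lit 1) .nil)), (nat_lit 28),
 (nat_lit 0), (nat_lit 0), (nat_lit 0), (23, 27, 26), [1237692, 1855797], 0⟩,
  ⟨⟨-9, -8, -31, 10, -29, 0, 20, 4, -31⟩, (.cons (nat_lit 64341) (nat_lit 4290038) (nat_lit 3977136) (nat_lit
 1) (.cons (nat_lit 1655091) (nat_lit 1409351) (nat_lit 1473902) (nat_lit 1) .nil)), (nat_lit 22), (nat_lit 0),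
 (nat_lit 0), (nat_lit 0), (24, 25, 19), [891407, 867106], 0⟩,
  ⟨⟨31, 0, -31, -10, 19, -20, 4, -20, -23⟩, (.cons (nat_lit 2699149) (nat_lit 1140005) (nat_lit 3919162)
 (nat_lit 1) (.cons (nat_lit 1699008) (nat_lit 62753) (nat_lit 978006) (nat_lit 1) .nil)), (nat_lit 8),
 (nat_lit 0), (nat_lit 0), (nat_lit 0), (0, 22, 16), [2988034, 520007], 0⟩,
  ⟨⟨1, 12, 35, -16, 25, -2, 22, 16, -5⟩, (.cons (nat_lit 3055294) (nat_lit 920231) (nat_lit 4128446) (nat_lit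
 1) (.cons (nat_lit 746218) (nat_lit 194961) (nat_lit 612979) (nat_lit 1) .nil)), (nat_lit 2), (nat_lit 0),
 (nat_lit 0), (nat_lit 0), (30, 16, 9), [4355493, 424550], 0⟩,
  ⟨⟨33, -8, -16, 4, 15, -32, 6, -24, -17⟩, (.cons (nat_lit 4826808) (nat_lit 2018644) (nat_lit 570233) (nat_lit
 1) (.cons (nat_lit 1874160) (nat_lit 1257554) (nat_lit 1862791) (nat_lit 1) .nil)), (nat_lit 27), (nat_lit 0),
 (nat_lit 0), (nat_lit 0), (23, 15, 7), [425723, 263117], 0⟩,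
  ⟨⟨1, 12, -36, 16, -25, -18, 22, 16, -17⟩, (.cons (nat_lit 118086) (nat_lit 1616990) (nat_lit 4075602)
 (nat_lit 1) (.cons (nat_lit 511448) (nat_lit 1862799) (nat_lit 984797) (nat_lit 1) .nil)), (nat_lit 1),
 (nat_lit 0), (nat_lit 0), (nat_lit 0), (19, 25, 15), [953665, 1687346], 0⟩,
  ⟨⟨31, 0, -31, -10, -19, -20, 4, 20, -23⟩, (.cons (nat_lit 4671504) (nat_lit 3399581) (nat_lit 1013492)
 (nat_lit 1) (.cons (nat_lit 435513) (nat_lit 1850201) (nat_lit 1539616) (nat_lit 1) .nil)), (nat_lit 8),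
 (nat_lit 0), (nat_lit 0), (nat_lit 0), (0, 20, 23), [1635900, 1247922], 0⟩]

/-- Moves. -/
noncomputable def t4_5 : List Mv := [
  mz,
  ⟨⟨23, -12, -36, -4, 25, -18, 26, 8, -7⟩, (.cons (nat_lit 1420460) (nat_lit 1234913) (nat_lit 1656399)
 (nat_lit 1) (.cons (nat_lit 1226229) (nat_lit 1775185) (nat_lit 887422) (nat_lit 1) .nil)), (nat_lit 28),
 (nat_lit 0), (nat_lit 0), (nat_lit 0), (3, 17, 29), [1861309, 1080281], 0⟩,
  ⟨⟨3, -20, 29, -4, -25, -18, 26, -8, -7⟩, (.cons (nat_lit 707201) (nat_lit 4238419) (nat_lit 4141979) (nat_lit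
 1) (.cons (nat_lit 1819421) (nat_lit 1511502) (nat_lit 415269) (nat_lit 1) .nil)), (nat_lit 6), (nat_lit 0),
 (nat_lit 0), (nat_lit 0), (19, 16, 20), [3540912, 1792411], 0⟩,
  mz,
  ⟨⟨-33, 8, 17, 4, 15, 28, -6, 24, -11⟩, (.cons (nat_lit 265306) (nat_lit 3007786) (nat_lit 2793875) (nat_lit
 1) (.cons (nat_lit 1726602) (nat_lit 1838408) (nat_lit 1698020) (nat_lit 1) .nil)), (nat_lit 21), (nat_lit 0),
 (nat_lit 0), (nat_lit 0), (23, 16, 7), [2708656, 258517], 0⟩,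
  mz,
  ⟨⟨1, -12, 35, -16, -25, -2, 22, -16, -5⟩, (.cons (nat_lit 3763527) (nat_lit 2352555) (nat_lit 166871)
 (nat_lit 1) (.cons (nat_lit 93845) (nat_lit 844256) (nat_lit 384529) (nat_lit 1) .nil)), (nat_lit 2), (nat_lit
 0), (nat_lit 0), (nat_lit 0), (1, 15, 22), [2241549, 520529], 0⟩,
  mz,
  ⟨⟨27, -20, -19, 10, 19, -30, -4, -20, -19⟩, (.cons (nat_lit 2163947) (nat_lit 4104839) (nat_lit 3845283)
 (nat_lit 1) (.cons (nat_lit 1325244) (nat_lit 983482) (nat_lit 71857) (nat_lit 1) .nil)), (nat_lit 25),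
 (nat_lit 0), (nat_lit 0), (nat_lit 0), (29, 5, 29), [3250113, 1682898], 0⟩,
  mz,
  mz,
  mz,
  mz,
  ⟨⟨-31, 0, 0, 10, -19, -30, -4, 20, -19⟩, (.cons (nat_lit 2572631) (nat_lit 3630868) (nat_lit 1) (nat_lit
 1337206) (.cons (nat_lit 7197) (nat_lit 1834472) (nat_lit 232268) (nat_lit 1) .nil)), (nat_lit 8), (nat_lit
 0), (nat_lit 0), (nat_lit 0), (0, 3, 5), [1863130, 696122], 0⟩,
  ⟨⟨27, -16, -28, -4, 15, -28, -6, -24, -11⟩, (.cons (nat_lit 4826808) (nat_lit 2440775) (nat_lit 997769)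
 (nat_lit 1) (.cons (nat_lit 1874160) (nat_lit 1646261) (nat_lit 967866) (nat_lit 1) .nil)), (nat_lit 14),
 (nat_lit 0), (nat_lit 0), (nat_lit 0), (28, 28, 11), [1604539, 1779292], 0⟩,
  ⟨⟨3, 20, -32, 4, -25, -22, 26, 8, -19⟩, (.cons (nat_lit 4586589) (nat_lit 4151478) (nat_lit 255299) (nat_lit
 1) (.cons (nat_lit 1557660) (nat_lit 747968) (nat_lit 1745545) (nat_lit 1) .nil)), (nat_lit 26), (nat_lit 0),
 (nat_lit 0), (nat_lit 0), (10, 3, 4), [1161717, 1427828], 0⟩,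
  mz,
  mz,
  ⟨⟨1, -12, -36, 16, 25, -18, 22, -16, -17⟩, (.cons (nat_lit 1430573) (nat_lit 3216035) (nat_lit 2544950)
 (nat_lit 1) (.cons (nat_lit 1813412) (nat_lit 516358) (nat_lit 280140) (nat_lit 1) .nil)), (nat_lit 1),
 (nat_lit 0), (nat_lit 0), (nat_lit 0), (21, 26, 28), [1125705, 1615482], 0⟩,
  ⟨⟨29, -12, 0, 10, 29, 0, 20, -4, -31⟩, (.cons (nat_lit 3347742) (nat_lit 3809453) (nat_lit 59065) (nat_lit 1)
 (.cons (nat_lit 575124) (nat_lit 815353) (nat_lit 1588436) (nat_lit 1) .nil)), (nat_lit 24), (nat_lit 0),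
 (nat_lit 0), (nat_lit 0), (28, 15, 30), [4230399, 937092], 0⟩,
  ⟨⟨9, 8, -40, 10, -29, -10, -20, -4, -11⟩, (.cons (nat_lit 4826808) (nat_lit 1253457) (nat_lit 1543574)
 (nat_lit 1) (.cons (nat_lit 1874160) (nat_lit 996125) (nat_lit 1220058) (nat_lit 1) .nil)), (nat_lit 20),
 (nat_lit 0), (nat_lit 0), (nat_lit 0), (27, 30, 2), [608147, 506635], 0⟩,
  ⟨⟨-27, 16, -1, -4, 15, 32, 6, 24, -17⟩, (.cons (nat_lit 4679279) (nat_lit 463592) (nat_lit 4677813) (nat_lit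
 1) (.cons (nat_lit 482159) (nat_lit 97849) (nat_lit 362704) (nat_lit 1) .nil)), (nat_lit 4), (nat_lit 0),
 (nat_lit 0), (nat_lit 0), (2, 29, 3), [380582, 1121700], 0⟩,
  ⟨⟨9, -8, -40, 10, 29, -10, -20, 4, -11⟩, (.cons (nat_lit 849360) (nat_lit 982318) (nat_lit 1268333) (nat_lit
 1) (.cons (nat_lit 795842) (nat_lit 1071400) (nat_lit 350138) (nat_lit 1) .nil)), (nat_lit 20), (nat_lit 0),
 (nat_lit 0), (nat_lit 0), (18, 20, 22), [1535725, 1058336], 0⟩,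
  ⟨⟨3, -20, -32, -4, -25, 22, 26, -8, -19⟩, (.cons (nat_lit 1866674) (nat_lit 2337287) (nat_lit 1857164)
 (nat_lit 1) (.cons (nat_lit 255044) (nat_lit 221368) (nat_lit 403167) (nat_lit 1) .nil)), (nat_lit 6),
 (nat_lit 0), (nat_lit 0), (nat_lit 0), (3, 27, 26), [2361617, 1469225], 0⟩,
  ⟨⟨29, 12, 0, -10, 29, 0, 20, 4, -31⟩, (.cons (nat_lit 4607439) (nat_lit 4608822) (nat_lit 1933694) (nat_lit
 1) (.cons (nat_lit 571548) (nat_lit 504528) (nat_lit 533565) (nat_lit 1) .nil)), (nat_lit 19), (nat_lit 0),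
 (nat_lit 0), (nat_lit 0), (26, 6, 19), [44716, 450241], 0⟩,
  ⟨⟨31, 0, -31, 10, -19, 20, 4, -20, -23⟩, (.cons (nat_lit 3678964) (nat_lit 3254567) (nat_lit 260081) (nat_lit
 1) (.cons (nat_lit 1008921) (nat_lit 371602) (nat_lit 1186321) (nat_lit 1) .nil)), (nat_lit 13), (nat_lit 0),
 (nat_lit 0), (nat_lit 0), (0, 9, 16), [2560240, 897078], 0⟩,
  ⟨⟨1, 12, 35, 16, -25, 2, 22, 16, -5⟩, (.cons (nat_lit 2374784) (nat_lit 909093) (nat_lit 1108369) (nat_lit 1)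
 (.cons (nat_lit 1256506) (nat_lit 1258436) (nat_lit 1828483) (nat_lit 1) .nil)), (nat_lit 1), (nat_lit 0),
 (nat_lit 0), (nat_lit 0), (30, 15, 9), [2718211, 350065], 0⟩,
  ⟨⟨33, -8, -16, 4, 15, -32, 6, -24, -17⟩, (.cons (nat_lit 4826808) (nat_lit 2018644) (nat_lit 570233) (nat_lit
 1) (.cons (nat_lit 1874160) (nat_lit 1257554) (nat_lit 1862791) (nat_lit 1) .nil)), (nat_lit 27), (nat_lit 0),
 (nat_lit 0), (nat_lit 0), (23, 15, 7), [425723, 263117], 0⟩,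
  ⟨⟨1, 12, -36, 16, -25, -18, 22, 16, -17⟩, (.cons (nat_lit 118086) (nat_lit 1616990) (nat_lit 4075602)
 (nat_lit 1) (.cons (nat_lit 511448) (nat_lit 1862799) (nat_lit 984797) (nat_lit 1) .nil)), (nat_lit 1),
 (nat_lit 0), (nat_lit 0), (nat_lit 0), (19, 25, 15), [953665, 1687346], 0⟩,
  ⟨⟨-27, 20, 8, 10, 19, 20, 4, 20, -23⟩, (.cons (nat_lit 4826808) (nat_lit 3096484) (nat_lit 1543856) (nat_lit
 1) (.cons (nat_lit 1874160) (nat_lit 714807) (nat_lit 535884) (nat_lit 1) .nil)), (nat_lit 29), (nat_lit 0),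
 (nat_lit 0), (nat_lit 0), (23, 11, 23), [3246059, 814170], 0⟩]

/-- All the moves. -/
noncomputable def tabs : List (List (List Mv)) := [[[], [], t0_2, [], t0_4, t0_5], [[], [], t1_2, [], t1_4, t1_5], [], [], [[], [], t4_2, [], t4_4, t4_5]]

/-- Subtrie. -/
noncomputable def T2 : Tr := (.ev (nat_lit 20) (nat_lit 7913488) (.nd (nat_lit 33) (.br (nat_lit 19) (.br
 (nat_lit 11) (.br (nat_lit 7) (.br (nat_lit 4) (.ch (nat_lit 1) (.ev (nat_lit 52) (nat_lit 8651008) (.ev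
 (nat_lit 564) (nat_lit 67108864) (.nd (nat_lit 832) (.br (nat_lit 5) (.br (nat_lit 1) (.ch (nat_lit 0) (.ev
 (nat_lit 848) (nat_lit 855646214) (.ev (nat_lit 944) (nat_lit 134217792) .dd))) (.br (nat_lit 4) (.ch (nat_lit
 1) (.ev (nat_lit 848) (nat_lit 33554438) (.ev (nat_lit 2020) (nat_lit 16777216) (.ev (nat_lit 3044) (nat_lit
 134217728) (.ev (nat_lit 3124) (nat_lit 268435456) (.ev (nat_lit 3238) (nat_lit 536870912) (.nd (nat_lit 3360)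
 (.br (nat_lit 9) (.br (nat_lit 8) (.ch (nat_lit 0) (.ev (nat_lit 3376) (nat_lit 8256) .dd)) (.ch (nat_lit 8)
 (.nd (nat_lit 3841) (.br (nat_lit 31) (.ch (nat_lit 3) (.ev (nat_lit 3857) (nat_lit 8256) .dd)) (.ch (nat_lit
 31) (.nd (nat_lit 3952) (.ch (nat_lit 6) (.fin (nat_lit 576474496180372004))))))))) (.br (nat_lit 12) (.ch
 (nat_lit 9) (.ev (nat_lit 3376) (nat_lit 8256) .dd)) (.ch (nat_lit 12) (.ev (nat_lit 3376) (nat_lit 64) (.ev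
 (nat_lit 3389) (nat_lit 8192) .dd)))))))))))) (.ch (nat_lit 4) (.ev (nat_lit 848) (nat_lit 285212672) (.ev
 (nat_lit 2100) (nat_lit 2) (.ev (nat_lit 2644) (nat_lit 134217728) (.ev (nat_lit 3254) (nat_lit 8192) (.nd
 (nat_lit 3360) (.br (nat_lit 11) (.br (nat_lit 9) (.ch (nat_lit 8) (.ev (nat_lit 3376) (nat_lit 536870916)
 (.ev (nat_lit 3444) (nat_lit 64) (.ev (nat_lit 3453) (nat_lit 33554432) .dd)))) (.ch (nat_lit 9) (.ev (nat_lit
 3376) (nat_lit 68) (.nd (nat_lit 3841) (.ch (nat_lit 0) (.nd (nat_lit 3872) (.br (nat_lit 12) (.ch (nat_lit 8)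
 (.ev (nat_lit 3888) (nat_lit 570425344) .dd)) (.ch (nat_lit 12) (.fin (nat_lit 576442610363089475))))))))))
 (.br (nat_lit 12) (.ch (nat_lit 11) (.ev (nat_lit 3376) (nat_lit 570425408) (.ev (nat_lit 3389) (nat_lit 4)
 .dd))) (.ch (nat_lit 12) (.ev (nat_lit 3376) (nat_lit 570425408) (.ev (nat_lit 3389) (nat_lit 4)
 .dd))))))))))))) (.br (nat_lit 9) (.br (nat_lit 6) (.ch (nat_lit 5) (.ev (nat_lit 848) (nat_lit 671096900)
 (.ev (nat_lit 1348) (nat_lit 33554432) (.ev (nat_lit 1428) (nat_lit 268435456) (.ev (nat_lit 1444) (nat_lit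
 16777216) (.ev (nat_lit 1453) (nat_lit 2) .dd)))))) (.ch (nat_lit 6) (.ev (nat_lit 848) (nat_lit 570433536)
 (.ev (nat_lit 884) (nat_lit 4) (.ev (nat_lit 1220) (nat_lit 64) (.ev (nat_lit 1956) (nat_lit 134217728) (.ev
 (nat_lit 2036) (nat_lit 268435456) (.ev (nat_lit 2724) (nat_lit 2) (.ev (nat_lit 2733) (nat_lit 16777216)
 .dd))))))))) (.br (nat_lit 12) (.ch (nat_lit 9) (.ev (nat_lit 848) (nat_lit 402653248) (.ev (nat_lit 1540)
 (nat_lit 16777216) (.nd (nat_lit 3360) (.br (nat_lit 5) (.ch (nat_lit 3) (.ev (nat_lit 3376) (nat_lit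
 33562626) (.ev (nat_lit 3588) (nat_lit 536870912) (.ev (nat_lit 3597) (nat_lit 4) .dd)))) (.br (nat_lit 9)
 (.ch (nat_lit 5) (.ev (nat_lit 3376) (nat_lit 8194) (.ev (nat_lit 3476) (nat_lit 33554436) (.ev (nat_lit 3485)
 (nat_lit 536870912) .dd)))) (.ch (nat_lit 9) (.ev (nat_lit 3376) (nat_lit 536870912) (.ev (nat_lit 3732)
 (nat_lit 8192) (.ev (nat_lit 3828) (nat_lit 2) (.nd (nat_lit 3841) (.ch (nat_lit 21) (.nd (nat_lit 3872) (.ch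
 (nat_lit 5) (.fin (nat_lit 576448107934859836)))))))))))))))) (.ch (nat_lit 12) (.ev (nat_lit 848) (nat_lit
 989864006) .dd))))))))) (.br (nat_lit 5) (.ch (nat_lit 4) (.ev (nat_lit 52) (nat_lit 838860800) (.ev (nat_lit
 148) (nat_lit 2) (.ev (nat_lit 180) (nat_lit 134217728) (.nd (nat_lit 832) (.br (nat_lit 6) (.br (nat_lit 4)
 (.ch (nat_lit 2) (.ev (nat_lit 848) (nat_lit 67109184) (.ev (nat_lit 1620) (nat_lit 262144) (.ev (nat_lit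
 2864) (nat_lit 16785408) (.fin (nat_lit 576461302066004536)))))) (.ch (nat_lit 4) (.ev (nat_lit 848) (nat_lit
 17047556) (.ev (nat_lit 2292) (nat_lit 67108864) (.ev (nat_lit 2464) (nat_lit 64) (.ev (nat_lit 2896) (nat_lit
 8388608) (.ev (nat_lit 2909) (nat_lit 256) .dd))))))) (.br (nat_lit 9) (.ch (nat_lit 6) (.ev (nat_lit 848)
 (nat_lit 8388928) (.ev (nat_lit 1492) (nat_lit 4) (.ev (nat_lit 2196) (nat_lit 16777216) (.ev (nat_lit 2272)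
 (nat_lit 8192) (.fin (nat_lit 576470098150638148))))))) (.br (nat_lit 12) (.ch (nat_lit 9) (.ev (nat_lit 848)
 (nat_lit 92537152) (.ev (nat_lit 2516) (nat_lit 8192) (.ev (nat_lit 2525) (nat_lit 4) .dd)))) (.ch (nat_lit
 12) (.ev (nat_lit 848) (nat_lit 75505988) (.ev (nat_lit 2576) (nat_lit 262144) (.ev (nat_lit 2589) (nat_lit
 16777216) .dd)))))))))))) (.ch (nat_lit 5) (.ev (nat_lit 52) (nat_lit 579076096) (.ev (nat_lit 212) (nat_lit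
 2) (.ev (nat_lit 320) (nat_lit 486547780) .dd)))))) (.br (nat_lit 8) (.ch (nat_lit 7) (.ev (nat_lit 52)
 (nat_lit 688128320) (.ev (nat_lit 180) (nat_lit 2) (.ev (nat_lit 372) (nat_lit 33554432) (.ev (nat_lit 608)
 (nat_lit 343941124) .dd))))) (.br (nat_lit 10) (.ch (nat_lit 8) (.ev (nat_lit 52) (nat_lit 25165828) (.ev
 (nat_lit 244) (nat_lit 262144) (.nd (nat_lit 832) (.br (nat_lit 4) (.br (nat_lit 1) (.ch (nat_lit 0) (.ev
 (nat_lit 848) (nat_lit 369107266) (.ev (nat_lit 884) (nat_lit 536870912) (.ev (nat_lit 893) (nat_lit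
 134217728) .dd)))) (.br (nat_lit 2) (.ch (nat_lit 1) (.ev (nat_lit 848) (nat_lit 100663298) (.ev (nat_lit
 1700) (nat_lit 268435456) (.ev (nat_lit 2724) (nat_lit 256) (.nd (nat_lit 3360) (.br (nat_lit 8) (.ch (nat_lit
 1) (.ev (nat_lit 3376) (nat_lit 671096896) .dd)) (.br (nat_lit 9) (.ch (nat_lit 8) (.ev (nat_lit 3376)
 (nat_lit 536870912) (.ev (nat_lit 3476) (nat_lit 134217728) (.nd (nat_lit 3841) (.ch (nat_lit 18) (.nd
 (nat_lit 3904) (.br (nat_lit 7) (.ch (nat_lit 6) (.fin (nat_lit 576474496180372004))) (.ch (nat_lit 7) (.ev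
 (nat_lit 3920) (nat_lit 8256) .dd))))))))) (.ch (nat_lit 9) (.ev (nat_lit 3376) (nat_lit 8192) (.ev (nat_lit
 3444) (nat_lit 536870912) (.ev (nat_lit 3764) (nat_lit 134217728) (.ev (nat_lit 3773) (nat_lit 64)
 .dd)))))))))))) (.ch (nat_lit 2) (.ev (nat_lit 848) (nat_lit 905969986) (.ev (nat_lit 896) (nat_lit 134225920)
 .dd))))) (.br (nat_lit 10) (.br (nat_lit 5) (.ch (nat_lit 4) (.ev (nat_lit 848) (nat_lit 301990146) (.ev
 (nat_lit 2516) (nat_lit 536870912) (.ev (nat_lit 3028) (nat_lit 8192) (.nd (nat_lit 3360) (.br (nat_lit 3)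
 (.ch (nat_lit 0) (.ev (nat_lit 3444) (nat_lit 67108864) (.ev (nat_lit 3476) (nat_lit 64) (.ev (nat_lit 3485)
 (nat_lit 134217728) .dd)))) (.br (nat_lit 8) (.ch (nat_lit 3) (.ev (nat_lit 3376) (nat_lit 134217792) (.ev
 (nat_lit 3389) (nat_lit 67108864) .dd))) (.ch (nat_lit 8) (.ev (nat_lit 3476) (nat_lit 134217728) (.ev
 (nat_lit 3588) (nat_lit 67108864) (.ev (nat_lit 3597) (nat_lit 64) .dd))))))))))) (.ch (nat_lit 5) (.ev
 (nat_lit 848) (nat_lit 1006641408) (.ev (nat_lit 1840) (nat_lit 33554432) (.ev (nat_lit 2224) (nat_lit 64)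
 (.ev (nat_lit 2237) (nat_lit 2) .dd)))))) (.br (nat_lit 12) (.ch (nat_lit 10) (.ev (nat_lit 848) (nat_lit
 301990208) (.nd (nat_lit 3360) (.br (nat_lit 2) (.ch (nat_lit 0) (.ev (nat_lit 3376) (nat_lit 8192) (.ev
 (nat_lit 3684) (nat_lit 536870912) (.ev (nat_lit 3764) (nat_lit 67108864) (.nd (nat_lit 3841) (.ch (nat_lit
 32) (.nd (nat_lit 3872) (.br (nat_lit 12) (.ch (nat_lit 1) (.fin (nat_lit 576473396694958644))) (.ch (nat_lit
 12) (.ev (nat_lit 3888) (nat_lit 134217730) .dd)))))))))) (.br (nat_lit 12) (.ch (nat_lit 2) (.ev (nat_lit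
 3376) (nat_lit 536870914) (.ev (nat_lit 3444) (nat_lit 8192) (.fin (nat_lit 576465700104127060))))) (.ch
 (nat_lit 12) (.ev (nat_lit 3376) (nat_lit 738205696) (.ev (nat_lit 3389) (nat_lit 2) .dd)))))))) (.ch (nat_lit
 12) (.ev (nat_lit 848) (nat_lit 973086786) (.ev (nat_lit 884) (nat_lit 256) (.ev (nat_lit 893) (nat_lit
 67108864) .dd))))))))))) (.ch (nat_lit 10) (.ev (nat_lit 52) (nat_lit 511713280) (.ev (nat_lit 276) (nat_lit
 262144) (.ev (nat_lit 544) (nat_lit 553648454) .dd))))))) (.br (nat_lit 15) (.br (nat_lit 12) (.ch (nat_lit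
 11) (.ev (nat_lit 52) (nat_lit 293609472) (.ev (nat_lit 276) (nat_lit 256) (.ev (nat_lit 628) (nat_lit 262144)
 (.nd (nat_lit 832) (.br (nat_lit 4) (.br (nat_lit 1) (.ch (nat_lit 0) (.ev (nat_lit 848) (nat_lit 234881030)
 (.ev (nat_lit 1668) (nat_lit 64) (.ev (nat_lit 1677) (nat_lit 536870912) .dd)))) (.br (nat_lit 2) (.ch
 (nat_lit 1) (.ev (nat_lit 848) (nat_lit 603979846) (.nd (nat_lit 3360) (.br (nat_lit 10) (.br (nat_lit 8) (.ch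
 (nat_lit 1) (.ev (nat_lit 3376) (nat_lit 167772160) .dd)) (.ch (nat_lit 8) (.ev (nat_lit 3376) (nat_lit
 33554432) (.ev (nat_lit 3389) (nat_lit 134217728) .dd)))) (.br (nat_lit 12) (.ch (nat_lit 10) (.fin (nat_lit
 576478894252048953))) (.ch (nat_lit 12) (.ev (nat_lit 3376) (nat_lit 167772160) .dd))))))) (.ch (nat_lit 2)
 (.ev (nat_lit 848) (nat_lit 771751936) (.ev (nat_lit 884) (nat_lit 2) (.ev (nat_lit 2724) (nat_lit 4) (.ev
 (nat_lit 2733) (nat_lit 64) .dd))))))) (.br (nat_lit 5) (.ch (nat_lit 4) (.ev (nat_lit 848) (nat_lit 67108864)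
 (.ev (nat_lit 3156) (nat_lit 134217728) (.nd (nat_lit 3360) (.br (nat_lit 6) (.br (nat_lit 3) (.ch (nat_lit 0)
 (.ev (nat_lit 3376) (nat_lit 6) (.ev (nat_lit 3444) (nat_lit 33554432) (.ev (nat_lit 3476) (nat_lit 64) (.ev
 (nat_lit 3485) (nat_lit 536870912) .dd))))) (.ch (nat_lit 3) (.ev (nat_lit 3376) (nat_lit 570425408) (.fin
 (nat_lit 576487690307322448))))) (.br (nat_lit 9) (.ch (nat_lit 6) (.ev (nat_lit 3376) (nat_lit 570425414)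
 .dd)) (.br (nat_lit 11) (.ch (nat_lit 9) (.ev (nat_lit 3376) (nat_lit 70) (.fin (nat_lit
 576479993758433853)))) (.ch (nat_lit 11) (.ev (nat_lit 3376) (nat_lit 536870912) (.ev (nat_lit 3444) (nat_lit
 4) (.ev (nat_lit 3508) (nat_lit 64) (.ev (nat_lit 3712) (nat_lit 33554434) .dd)))))))))))) (.br (nat_lit 10)
 (.ch (nat_lit 5) (.ev (nat_lit 848) (nat_lit 771752006) .dd)) (.ch (nat_lit 10) (.ev (nat_lit 848) (nat_lit
 167772224) (.ev (nat_lit 2324) (nat_lit 4) (.nd (nat_lit 3360) (.br (nat_lit 9) (.ch (nat_lit 6) (.ev (nat_lit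
 3376) (nat_lit 67108864) (.fin (nat_lit 576474496213926468)))) (.ch (nat_lit 9) (.ev (nat_lit 3456) (nat_lit
 2) (.ev (nat_lit 3508) (nat_lit 536870912) (.ev (nat_lit 3517) (nat_lit 67108864) .dd))))))))))))))))) (.br
 (nat_lit 13) (.ch (nat_lit 12) (.ev (nat_lit 52) (nat_lit 1023410436) (.ev (nat_lit 436) (nat_lit 8388608)
 (.ev (nat_lit 640) (nat_lit 33824834) .dd)))) (.ch (nat_lit 13) (.ev (nat_lit 52) (nat_lit 67117376) (.ev
 (nat_lit 84) (nat_lit 134217728) (.ev (nat_lit 500) (nat_lit 8388608) (.nd (nat_lit 832) (.br (nat_lit 6) (.br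
 (nat_lit 4) (.br (nat_lit 1) (.ch (nat_lit 0) (.ev (nat_lit 848) (nat_lit 319029254) (.ev (nat_lit 861)
 (nat_lit 536870912) .dd))) (.ch (nat_lit 1) (.ev (nat_lit 848) (nat_lit 285474822) (.ev (nat_lit 2528)
 (nat_lit 33554432) (.ev (nat_lit 2541) (nat_lit 536870912) .dd))))) (.br (nat_lit 5) (.ch (nat_lit 4) (.ev
 (nat_lit 848) (nat_lit 855900160) (.nd (nat_lit 3360) (.br (nat_lit 12) (.ch (nat_lit 3) (.fin (nat_lit
 576487690307322448))) (.ch (nat_lit 12) (.ev (nat_lit 3392) (nat_lit 6) .dd)))))) (.ch (nat_lit 5) (.ev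
 (nat_lit 848) (nat_lit 805306372) (.ev (nat_lit 1300) (nat_lit 262144) (.ev (nat_lit 1808) (nat_lit 2) (.ev
 (nat_lit 2182) (nat_lit 16777216) (.ev (nat_lit 2189) (nat_lit 33554432) .dd)))))))) (.br (nat_lit 10) (.br
 (nat_lit 9) (.ch (nat_lit 6) (.ev (nat_lit 848) (nat_lit 855900162) (.ev (nat_lit 861) (nat_lit 4) .dd))) (.ch
 (nat_lit 9) (.ev (nat_lit 848) (nat_lit 33554434) (.ev (nat_lit 884) (nat_lit 268435456) (.ev (nat_lit 2560)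
 (nat_lit 262144) (.ev (nat_lit 2800) (nat_lit 16777216) (.ev (nat_lit 3808) (nat_lit 4) (.ev (nat_lit 3821)
 (nat_lit 536870912) .dd)))))))) (.br (nat_lit 12) (.ch (nat_lit 10) (.ev (nat_lit 848) (nat_lit 50593792) (.ev
 (nat_lit 864) (nat_lit 268435456) (.ev (nat_lit 3334) (nat_lit 536870912) (.nd (nat_lit 3360) (.br (nat_lit 6)
 (.ch (nat_lit 0) (.ev (nat_lit 3376) (nat_lit 2) (.ev (nat_lit 3389) (nat_lit 4) .dd))) (.ch (nat_lit 6) (.ev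
 (nat_lit 3376) (nat_lit 4) (.ev (nat_lit 3389) (nat_lit 2) .dd))))))))) (.ch (nat_lit 12) (.ev (nat_lit 848)
 (nat_lit 838860804) (.ev (nat_lit 964) (nat_lit 2) (.ev (nat_lit 2596) (nat_lit 16777216) (.ev (nat_lit 2605)
 (nat_lit 262144) .dd))))))))))))))) (.br (nat_lit 17) (.br (nat_lit 16) (.ch (nat_lit 15) (.ev (nat_lit 52)
 (nat_lit 16777282) (.ev (nat_lit 244) (nat_lit 8388608) (.ev (nat_lit 436) (nat_lit 256) (.nd (nat_lit 832)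
 (.br (nat_lit 9) (.br (nat_lit 5) (.ch (nat_lit 1) (.ev (nat_lit 848) (nat_lit 1006641156) (.ev (nat_lit 864)
 (nat_lit 262144) (.ev (nat_lit 877) (nat_lit 33554432) .dd)))) (.br (nat_lit 6) (.ch (nat_lit 5) (.ev (nat_lit
 848) (nat_lit 738467840) (.ev (nat_lit 916) (nat_lit 268435456) (.ev (nat_lit 1712) (nat_lit 33554432) (.ev
 (nat_lit 1725) (nat_lit 4) .dd))))) (.ch (nat_lit 6) (.ev (nat_lit 848) (nat_lit 637534208) (.ev (nat_lit 916)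
 (nat_lit 134217728) (.ev (nat_lit 1908) (nat_lit 268435456) (.ev (nat_lit 2244) (nat_lit 8192) (.ev (nat_lit
 2724) (nat_lit 4) (.ev (nat_lit 2733) (nat_lit 262144) .dd))))))))) (.br (nat_lit 10) (.ch (nat_lit 9) (.ev
 (nat_lit 848) (nat_lit 536870912) (.ev (nat_lit 884) (nat_lit 8192) (.ev (nat_lit 2100) (nat_lit 262144) (.ev
 (nat_lit 2356) (nat_lit 4) (.ev (nat_lit 3220) (nat_lit 268435456) (.nd (nat_lit 3360) (.br (nat_lit 6) (.br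
 (nat_lit 5) (.ch (nat_lit 0) (.ev (nat_lit 3376) (nat_lit 167772160) (.ev (nat_lit 3389) (nat_lit 67108864)
 .dd))) (.ch (nat_lit 5) (.ev (nat_lit 3376) (nat_lit 134217728) (.ev (nat_lit 3444) (nat_lit 33554432) (.ev
 (nat_lit 3453) (nat_lit 67108864) .dd))))) (.br (nat_lit 9) (.ch (nat_lit 6) (.ev (nat_lit 3376) (nat_lit
 100663296) (.ev (nat_lit 3389) (nat_lit 134217728) .dd))) (.br (nat_lit 12) (.ch (nat_lit 9) (.ev (nat_lit
 3376) (nat_lit 67108864) (.ev (nat_lit 3444) (nat_lit 33554432) (.ev (nat_lit 3453) (nat_lit 134217728)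
 .dd)))) (.ch (nat_lit 12) (.ev (nat_lit 3376) (nat_lit 234881024) .dd)))))))))))) (.br (nat_lit 12) (.ch
 (nat_lit 10) (.ev (nat_lit 848) (nat_lit 302252036) (.ev (nat_lit 1876) (nat_lit 8192) (.nd (nat_lit 3360)
 (.br (nat_lit 9) (.br (nat_lit 6) (.ch (nat_lit 2) (.ev (nat_lit 3456) (nat_lit 536870912) (.nd (nat_lit 3841)
 (.ch (nat_lit 5) (.nd (nat_lit 3872) (.br (nat_lit 9) (.ch (nat_lit 7) (.ev (nat_lit 3888) (nat_lit 134217728)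
 (.ev (nat_lit 3901) (nat_lit 67108864) .dd))) (.ch (nat_lit 9) (.fin (nat_lit 576465700104127060))))))))) (.ch
 (nat_lit 6) (.ev (nat_lit 3376) (nat_lit 536870912) (.ev (nat_lit 3600) (nat_lit 67108864) (.ev (nat_lit 3613)
 (nat_lit 134217728) .dd))))) (.br (nat_lit 12) (.ch (nat_lit 9) (.ev (nat_lit 3376) (nat_lit 134217728) (.ev
 (nat_lit 3456) (nat_lit 603979776) .dd))) (.ch (nat_lit 12) (.ev (nat_lit 3376) (nat_lit 738197504)
 .dd)))))))) (.ch (nat_lit 12) (.ev (nat_lit 848) (nat_lit 973086724) (.ev (nat_lit 864) (nat_lit 262144) (.ev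
 (nat_lit 877) (nat_lit 67108864) .dd)))))))))))) (.ch (nat_lit 16) (.ev (nat_lit 52) (nat_lit 67117314) (.ev
 (nat_lit 84) (nat_lit 64) (.ev (nat_lit 148) (nat_lit 33554432) (.ev (nat_lit 436) (nat_lit 16777216) (.nd
 (nat_lit 832) (.br (nat_lit 2) (.br (nat_lit 1) (.ch (nat_lit 0) (.ev (nat_lit 848) (nat_lit 277086212) (.ev
 (nat_lit 2292) (nat_lit 536870912) (.ev (nat_lit 2301) (nat_lit 134217728) .dd)))) (.ch (nat_lit 1) (.ev
 (nat_lit 848) (nat_lit 671350788) (.ev (nat_lit 1604) (nat_lit 268435456) (.ev (nat_lit 1613) (nat_lit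
 8388608) .dd))))) (.br (nat_lit 5) (.ch (nat_lit 2) (.ev (nat_lit 848) (nat_lit 262144) (.ev (nat_lit 2164)
 (nat_lit 536870912) (.ev (nat_lit 2480) (nat_lit 268435456) (.ev (nat_lit 2912) (nat_lit 134217728) (.nd
 (nat_lit 3360) (.br (nat_lit 6) (.ch (nat_lit 3) (.fin (nat_lit 576461302066004536))) (.ch (nat_lit 6) (.ev
 (nat_lit 3376) (nat_lit 8388612) .dd))))))))) (.br (nat_lit 10) (.ch (nat_lit 5) (.ev (nat_lit 848) (nat_lit
 947912704) (.ev (nat_lit 2262) (nat_lit 4) (.ev (nat_lit 2269) (nat_lit 262144) .dd)))) (.ch (nat_lit 10) (.ev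
 (nat_lit 848) (nat_lit 262148) (.ev (nat_lit 2272) (nat_lit 268435456) (.ev (nat_lit 2496) (nat_lit 8388608)
 (.ev (nat_lit 2516) (nat_lit 134217728) (.ev (nat_lit 2525) (nat_lit 536870912) .dd)))))))))))))))) (.br
 (nat_lit 18) (.ch (nat_lit 17) (.ev (nat_lit 52) (nat_lit 855900164) (.ev (nat_lit 116) (nat_lit 134217728)
 (.ev (nat_lit 276) (nat_lit 8388608) (.ev (nat_lit 308) (nat_lit 2) (.ev (nat_lit 340) (nat_lit 67109120) (.nd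
 (nat_lit 832) (.br (nat_lit 6) (.br (nat_lit 2) (.ch (nat_lit 1) (.ev (nat_lit 896) (nat_lit 8192) (.ev
 (nat_lit 909) (nat_lit 64) .dd))) (.br (nat_lit 4) (.ch (nat_lit 2) (.ev (nat_lit 896) (nat_lit 8192) (.ev
 (nat_lit 909) (nat_lit 64) .dd))) (.ch (nat_lit 4) (.ev (nat_lit 848) (nat_lit 8256) .dd)))) (.br (nat_lit 10)
 (.ch (nat_lit 6) (.ev (nat_lit 1520) (nat_lit 64) (.ev (nat_lit 1533) (nat_lit 8192) .dd))) (.br (nat_lit 12)
 (.ch (nat_lit 10) (.ev (nat_lit 2070) (nat_lit 64) (.ev (nat_lit 2077) (nat_lit 8192) .dd))) (.ch (nat_lit 12)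
 (.ev (nat_lit 848) (nat_lit 8256) .dd)))))))))))) (.ch (nat_lit 18) (.ev (nat_lit 52) (nat_lit 176431170) (.ev
 (nat_lit 84) (nat_lit 536870912) (.ev (nat_lit 244) (nat_lit 256) (.ev (nat_lit 340) (nat_lit 4) (.ev (nat_lit
 628) (nat_lit 67108864) (.nd (nat_lit 832) (.br (nat_lit 5) (.br (nat_lit 2) (.ch (nat_lit 0) (.ev (nat_lit
 848) (nat_lit 285212672) .dd)) (.br (nat_lit 4) (.ch (nat_lit 2) (.ev (nat_lit 916) (nat_lit 16777216) (.ev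
 (nat_lit 925) (nat_lit 268435456) .dd))) (.ch (nat_lit 4) (.ev (nat_lit 848) (nat_lit 285212672) .dd)))) (.br
 (nat_lit 9) (.br (nat_lit 6) (.ch (nat_lit 5) (.ev (nat_lit 884) (nat_lit 268435456) (.ev (nat_lit 893)
 (nat_lit 16777216) .dd))) (.ch (nat_lit 6) (.ev (nat_lit 884) (nat_lit 268435456) (.ev (nat_lit 893) (nat_lit
 16777216) .dd)))) (.br (nat_lit 12) (.ch (nat_lit 9) (.ev (nat_lit 884) (nat_lit 268435456) (.ev (nat_lit 893)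
 (nat_lit 16777216) .dd))) (.ch (nat_lit 12) (.ev (nat_lit 848) (nat_lit 268435456) (.ev (nat_lit 861) (nat_lit
 16777216) .dd))))))))))))))))) (.br (nat_lit 26) (.br (nat_lit 22) (.br (nat_lit 20) (.ch (nat_lit 19) (.ev
 (nat_lit 52) (nat_lit 75505984) (.ev (nat_lit 148) (nat_lit 134217728) (.ev (nat_lit 212) (nat_lit 536870912)
 (.ev (nat_lit 372) (nat_lit 2) (.ev (nat_lit 404) (nat_lit 268435456) (.nd (nat_lit 832) (.br (nat_lit 6) (.br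
 (nat_lit 2) (.ch (nat_lit 0) (.ev (nat_lit 848) (nat_lit 17039364) (.ev (nat_lit 861) (nat_lit 33554432)
 .dd))) (.br (nat_lit 5) (.ch (nat_lit 2) (.ev (nat_lit 848) (nat_lit 33816576) (.ev (nat_lit 1520) (nat_lit
 16777216) (.ev (nat_lit 1533) (nat_lit 4) .dd)))) (.ch (nat_lit 5) (.ev (nat_lit 848) (nat_lit 33554432) (.ev
 (nat_lit 884) (nat_lit 4) (.ev (nat_lit 2740) (nat_lit 16777216) (.ev (nat_lit 2749) (nat_lit 262144)
 .dd))))))) (.br (nat_lit 9) (.ch (nat_lit 6) (.ev (nat_lit 848) (nat_lit 33554432) (.ev (nat_lit 884) (nat_lit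
 4) (.ev (nat_lit 1428) (nat_lit 262144) (.ev (nat_lit 1437) (nat_lit 16777216) .dd))))) (.br (nat_lit 10) (.ch
 (nat_lit 9) (.ev (nat_lit 848) (nat_lit 16777220) (.ev (nat_lit 1510) (nat_lit 33816576) .dd))) (.ch (nat_lit
 10) (.ev (nat_lit 848) (nat_lit 33816576) (.ev (nat_lit 1990) (nat_lit 16777216) (.ev (nat_lit 1997) (nat_lit
 4) .dd)))))))))))))) (.br (nat_lit 21) (.ch (nat_lit 20) (.ev (nat_lit 52) (nat_lit 50602052) (.nd (nat_lit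
 832) (.br (nat_lit 6) (.br (nat_lit 2) (.ch (nat_lit 0) (.ev (nat_lit 848) (nat_lit 478150914) (.ev (nat_lit
 861) (nat_lit 536870912) .dd))) (.br (nat_lit 5) (.ch (nat_lit 2) (.ev (nat_lit 848) (nat_lit 746586368) (.ev
 (nat_lit 2080) (nat_lit 268435458) .dd))) (.ch (nat_lit 5) (.ev (nat_lit 848) (nat_lit 939524354) (.ev
 (nat_lit 2292) (nat_lit 8388608) (.ev (nat_lit 2301) (nat_lit 67108864) .dd)))))) (.br (nat_lit 9) (.ch
 (nat_lit 6) (.ev (nat_lit 848) (nat_lit 679477504) (.ev (nat_lit 1764) (nat_lit 2) (.ev (nat_lit 2704)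
 (nat_lit 268435456) (.ev (nat_lit 2717) (nat_lit 67108864) .dd))))) (.br (nat_lit 10) (.ch (nat_lit 9) (.ev
 (nat_lit 848) (nat_lit 8388608) (.ev (nat_lit 884) (nat_lit 268435456) (.ev (nat_lit 2944) (nat_lit 134217984)
 (.nd (nat_lit 3360) (.br (nat_lit 5) (.ch (nat_lit 3) (.ev (nat_lit 3376) (nat_lit 67108864) (.ev (nat_lit
 3654) (nat_lit 536870914) .dd))) (.br (nat_lit 6) (.ch (nat_lit 5) (.ev (nat_lit 3392) (nat_lit 536870912)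
 (.ev (nat_lit 3424) (nat_lit 67108866) .dd))) (.ch (nat_lit 6) (.ev (nat_lit 3376) (nat_lit 2) (.fin (nat_lit
 576443709884154388))))))))))) (.ch (nat_lit 10) (.ev (nat_lit 848) (nat_lit 209715456) (.ev (nat_lit 1520)
 (nat_lit 2) (.ev (nat_lit 2000) (nat_lit 536870912) (.ev (nat_lit 2013) (nat_lit 268435456) .dd)))))))))))
 (.ch (nat_lit 21) (.ev (nat_lit 52) (nat_lit 293601280) (.ev (nat_lit 148) (nat_lit 64) (.ev (nat_lit 436)
 (nat_lit 262144) (.ev (nat_lit 500) (nat_lit 256) (.nd (nat_lit 832) (.br (nat_lit 6) (.br (nat_lit 1) (.ch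
 (nat_lit 0) (.ev (nat_lit 848) (nat_lit 234889222) (.ev (nat_lit 861) (nat_lit 536870912) .dd))) (.br (nat_lit
 5) (.ch (nat_lit 1) (.ev (nat_lit 848) (nat_lit 603987974) (.fin (nat_lit 576478894252048953)))) (.ch (nat_lit
 5) (.ev (nat_lit 848) (nat_lit 704651264) (.nd (nat_lit 3360) (.br (nat_lit 10) (.ch (nat_lit 0) (.ev (nat_lit
 3376) (nat_lit 67108870) .dd)) (.br (nat_lit 12) (.ch (nat_lit 10) (.ev (nat_lit 3376) (nat_lit 4) (.ev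
 (nat_lit 3444) (nat_lit 67108864) (.ev (nat_lit 3453) (nat_lit 2) .dd)))) (.ch (nat_lit 12) (.ev (nat_lit
 3376) (nat_lit 67108864) (.ev (nat_lit 3444) (nat_lit 2) (.ev (nat_lit 3453) (nat_lit 4) .dd))))))))))) (.br
 (nat_lit 10) (.br (nat_lit 9) (.ch (nat_lit 6) (.ev (nat_lit 848) (nat_lit 771760128) (.ev (nat_lit 884)
 (nat_lit 4) (.ev (nat_lit 893) (nat_lit 2) .dd)))) (.ch (nat_lit 9) (.ev (nat_lit 848) (nat_lit 134217728)
 (.ev (nat_lit 1396) (nat_lit 8192) (.ev (nat_lit 2244) (nat_lit 33554432) (.ev (nat_lit 3350) (nat_lit 4) (.nd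
 (nat_lit 3360) (.br (nat_lit 3) (.ch (nat_lit 0) (.ev (nat_lit 3444) (nat_lit 603979776) (.ev (nat_lit 3453)
 (nat_lit 2) .dd))) (.br (nat_lit 6) (.ch (nat_lit 3) (.ev (nat_lit 3376) (nat_lit 67108864) (.ev (nat_lit
 3588) (nat_lit 536870912) (.ev (nat_lit 3597) (nat_lit 2) .dd)))) (.ch (nat_lit 6) (.ev (nat_lit 3376)
 (nat_lit 2) (.fin (nat_lit 576443709884154388))))))))))))) (.br (nat_lit 12) (.ch (nat_lit 10) (.ev (nat_lit
 848) (nat_lit 33562624) (.nd (nat_lit 3360) (.br (nat_lit 6) (.ch (nat_lit 0) (.ev (nat_lit 3376) (nat_lit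
 67108864) (.ev (nat_lit 3392) (nat_lit 536870912) (.ev (nat_lit 3444) (nat_lit 4) (.fin (nat_lit
 576473396694958644)))))) (.br (nat_lit 12) (.ch (nat_lit 6) (.ev (nat_lit 3376) (nat_lit 4) (.ev (nat_lit
 3588) (nat_lit 134217728) (.ev (nat_lit 3828) (nat_lit 67108864) (.fin (nat_lit 576474496213926468)))))) (.ch
 (nat_lit 12) (.ev (nat_lit 3376) (nat_lit 738197506) (.ev (nat_lit 3389) (nat_lit 4) .dd)))))))) (.ch (nat_lit
 12) (.ev (nat_lit 848) (nat_lit 704651268) (.ev (nat_lit 884) (nat_lit 67108864) (.ev (nat_lit 893) (nat_lit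
 2) .dd))))))))))))))) (.br (nat_lit 24) (.ch (nat_lit 22) (.ev (nat_lit 52) (nat_lit 839122946) (.ev (nat_lit
 84) (nat_lit 8192) (.ev (nat_lit 212) (nat_lit 64) (.ev (nat_lit 564) (nat_lit 16777216) (.ev (nat_lit 628)
 (nat_lit 4) (.nd (nat_lit 832) (.br (nat_lit 6) (.br (nat_lit 2) (.ch (nat_lit 1) (.ev (nat_lit 848) (nat_lit
 209715200) (.ev (nat_lit 861) (nat_lit 256) .dd))) (.br (nat_lit 4) (.ch (nat_lit 2) (.ev (nat_lit 848)
 (nat_lit 67109120) (.ev (nat_lit 2704) (nat_lit 142606336) .dd))) (.ch (nat_lit 4) (.ev (nat_lit 848) (nat_lit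
 256) (.ev (nat_lit 884) (nat_lit 8388608) (.ev (nat_lit 1732) (nat_lit 67108864) (.ev (nat_lit 1741) (nat_lit
 134217728) .dd))))))) (.br (nat_lit 10) (.ch (nat_lit 6) (.ev (nat_lit 848) (nat_lit 67109120) (.ev (nat_lit
 2080) (nat_lit 142606336) .dd))) (.br (nat_lit 12) (.ch (nat_lit 10) (.ev (nat_lit 848) (nat_lit 256) (.ev
 (nat_lit 884) (nat_lit 8388608) (.ev (nat_lit 2342) (nat_lit 201326592) .dd)))) (.ch (nat_lit 12) (.ev
 (nat_lit 848) (nat_lit 142606336) (.ev (nat_lit 2694) (nat_lit 67108864) (.ev (nat_lit 2701) (nat_lit 256)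
 .dd)))))))))))))) (.br (nat_lit 25) (.ch (nat_lit 24) (.ev (nat_lit 52) (nat_lit 17039360) (.ev (nat_lit 180)
 (nat_lit 536870912) (.ev (nat_lit 308) (nat_lit 8192) (.ev (nat_lit 564) (nat_lit 256) (.nd (nat_lit 832) (.br
 (nat_lit 6) (.br (nat_lit 4) (.ch (nat_lit 2) (.ev (nat_lit 848) (nat_lit 503316484) (.ev (nat_lit 916)
 (nat_lit 64) (.ev (nat_lit 1408) (nat_lit 2) (.ev (nat_lit 1421) (nat_lit 8388608) .dd))))) (.br (nat_lit 5)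
 (.ch (nat_lit 4) (.ev (nat_lit 848) (nat_lit 411041862) (.ev (nat_lit 864) (nat_lit 67108864) (.ev (nat_lit
 877) (nat_lit 33554432) .dd)))) (.ch (nat_lit 5) (.ev (nat_lit 848) (nat_lit 134217728) (.ev (nat_lit 884)
 (nat_lit 268435456) (.ev (nat_lit 2020) (nat_lit 67108864) (.ev (nat_lit 2756) (nat_lit 8388608) (.ev (nat_lit
 3156) (nat_lit 64) (.nd (nat_lit 3360) (.br (nat_lit 9) (.br (nat_lit 2) (.ch (nat_lit 0) (.ev (nat_lit 3376)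
 (nat_lit 33554434) (.ev (nat_lit 3389) (nat_lit 4) .dd))) (.ch (nat_lit 2) (.ev (nat_lit 3376) (nat_lit 6)
 (.ev (nat_lit 3389) (nat_lit 33554432) .dd)))) (.br (nat_lit 11) (.ch (nat_lit 9) (.ev (nat_lit 3376) (nat_lit
 4) (.ev (nat_lit 3444) (nat_lit 2) (.ev (nat_lit 3453) (nat_lit 33554432) .dd)))) (.br (nat_lit 12) (.ch
 (nat_lit 11) (.ev (nat_lit 3376) (nat_lit 33554434) (.ev (nat_lit 3389) (nat_lit 4) .dd))) (.ch (nat_lit 12)
 (.ev (nat_lit 3376) (nat_lit 33554432) (.ev (nat_lit 3568) (nat_lit 4) (.ev (nat_lit 3581) (nat_lit 2)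
 .dd)))))))))))))))) (.br (nat_lit 9) (.ch (nat_lit 6) (.ev (nat_lit 848) (nat_lit 167772162) (.ev (nat_lit
 916) (nat_lit 4) (.ev (nat_lit 1540) (nat_lit 75497472) (.ev (nat_lit 2020) (nat_lit 268435456) (.ev (nat_lit
 2029) (nat_lit 64) .dd)))))) (.br (nat_lit 12) (.ch (nat_lit 9) (.ev (nat_lit 848) (nat_lit 75497538) (.ev
 (nat_lit 3028) (nat_lit 268435456) (.nd (nat_lit 3360) (.br (nat_lit 11) (.br (nat_lit 10) (.ch (nat_lit 9)
 (.ev (nat_lit 3456) (nat_lit 134217728) (.nd (nat_lit 3841) (.ch (nat_lit 5) (.nd (nat_lit 3872) (.br (nat_lit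
 10) (.ch (nat_lit 5) (.fin (nat_lit 576448107934859836))) (.ch (nat_lit 10) (.ev (nat_lit 3888) (nat_lit 4)
 (.ev (nat_lit 3901) (nat_lit 33554432) .dd))))))))) (.ch (nat_lit 10) (.ev (nat_lit 3376) (nat_lit 167772164)
 .dd))) (.br (nat_lit 12) (.ch (nat_lit 11) (.ev (nat_lit 3376) (nat_lit 4) (.ev (nat_lit 3508) (nat_lit
 33554432) (.ev (nat_lit 3517) (nat_lit 134217728) .dd)))) (.ch (nat_lit 12) (.ev (nat_lit 3620) (nat_lit
 134217728) (.ev (nat_lit 3748) (nat_lit 33554432) (.ev (nat_lit 3757) (nat_lit 4) .dd)))))))))) (.ch (nat_lit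
 12) (.ev (nat_lit 848) (nat_lit 444596292) (.ev (nat_lit 864) (nat_lit 67108864) (.ev (nat_lit 877) (nat_lit
 2) .dd))))))))))))) (.ch (nat_lit 25) (.ev (nat_lit 52) (nat_lit 537133378) (.ev (nat_lit 436) (nat_lit 4)
 (.ev (nat_lit 500) (nat_lit 16777216) (.ev (nat_lit 596) (nat_lit 268435456) (.nd (nat_lit 832) (.br (nat_lit
 5) (.br (nat_lit 2) (.br (nat_lit 1) (.ch (nat_lit 0) (.ev (nat_lit 848) (nat_lit 75505664) (.ev (nat_lit 964)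
 (nat_lit 134217728) (.ev (nat_lit 973) (nat_lit 33554432) .dd)))) (.ch (nat_lit 1) (.ev (nat_lit 848) (nat_lit
 75505664) (.ev (nat_lit 1028) (nat_lit 33554432) (.ev (nat_lit 1037) (nat_lit 134217728) .dd))))) (.br
 (nat_lit 4) (.ch (nat_lit 2) (.ev (nat_lit 848) (nat_lit 243269632) (.ev (nat_lit 861) (nat_lit 8192) .dd)))
 (.ch (nat_lit 4) (.ev (nat_lit 848) (nat_lit 134217728) (.ev (nat_lit 884) (nat_lit 8388608) (.ev (nat_lit
 3476) (nat_lit 67108864) (.ev (nat_lit 3732) (nat_lit 33554432) (.ev (nat_lit 3741) (nat_lit 8192) .dd))))))))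
 (.br (nat_lit 10) (.br (nat_lit 9) (.ch (nat_lit 5) (.ev (nat_lit 848) (nat_lit 142614528) (.nd (nat_lit 3360)
 (.br (nat_lit 10) (.ch (nat_lit 2) (.ev (nat_lit 3444) (nat_lit 67108864) (.ev (nat_lit 3453) (nat_lit
 33554432) .dd))) (.ch (nat_lit 10) (.ev (nat_lit 3392) (nat_lit 100663296) .dd)))))) (.ch (nat_lit 9) (.ev
 (nat_lit 848) (nat_lit 109051904) (.nd (nat_lit 3360) (.br (nat_lit 11) (.ch (nat_lit 6) (.ev (nat_lit 3444)
 (nat_lit 8192) (.ev (nat_lit 3453) (nat_lit 134217728) .dd))) (.ch (nat_lit 11) (.ev (nat_lit 3392) (nat_lit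
 134225920) .dd))))))) (.br (nat_lit 12) (.ch (nat_lit 10) (.ev (nat_lit 848) (nat_lit 33554432) (.ev (nat_lit
 884) (nat_lit 8388608) (.ev (nat_lit 3318) (nat_lit 67108864) (.ev (nat_lit 3524) (nat_lit 8192) (.ev (nat_lit
 3533) (nat_lit 134217728) .dd)))))) (.ch (nat_lit 12) (.ev (nat_lit 848) (nat_lit 176168960) (.ev (nat_lit
 861) (nat_lit 67108864) .dd))))))))))))))) (.br (nat_lit 30) (.br (nat_lit 27) (.ch (nat_lit 26) (.ev (nat_lit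
 52) (nat_lit 117440518) (.ev (nat_lit 308) (nat_lit 64) (.ev (nat_lit 372) (nat_lit 671096832) (.ev (nat_lit
 500) (nat_lit 262144) (.ev (nat_lit 660) (nat_lit 8388608) (.nd (nat_lit 832) (.br (nat_lit 5) (.br (nat_lit
 2) (.br (nat_lit 1) (.ch (nat_lit 0) (.ev (nat_lit 848) (nat_lit 268435456) (.ev (nat_lit 861) (nat_lit 256)
 .dd))) (.ch (nat_lit 1) (.ev (nat_lit 884) (nat_lit 256) (.ev (nat_lit 893) (nat_lit 268435456) .dd)))) (.br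
 (nat_lit 4) (.ch (nat_lit 2) (.ev (nat_lit 848) (nat_lit 256) (.ev (nat_lit 861) (nat_lit 268435456) .dd)))
 (.ch (nat_lit 4) (.ev (nat_lit 848) (nat_lit 268435456) (.ev (nat_lit 861) (nat_lit 256) .dd))))) (.br
 (nat_lit 9) (.br (nat_lit 6) (.ch (nat_lit 5) (.ev (nat_lit 848) (nat_lit 256) (.ev (nat_lit 861) (nat_lit
 268435456) .dd))) (.ch (nat_lit 6) (.ev (nat_lit 848) (nat_lit 256) (.ev (nat_lit 861) (nat_lit 268435456)
 .dd)))) (.br (nat_lit 12) (.ch (nat_lit 9) (.ev (nat_lit 848) (nat_lit 268435456) (.ev (nat_lit 861) (nat_lit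
 256) .dd))) (.ch (nat_lit 12) (.ev (nat_lit 848) (nat_lit 268435456) (.ev (nat_lit 861) (nat_lit 256)
 .dd))))))))))))) (.br (nat_lit 29) (.ch (nat_lit 27) (.ev (nat_lit 52) (nat_lit 671088710) (.ev (nat_lit 180)
 (nat_lit 8192) (.ev (nat_lit 416) (nat_lit 394526976) .dd)))) (.ch (nat_lit 29) (.ev (nat_lit 52) (nat_lit 2)
 (.ev (nat_lit 116) (nat_lit 8192) (.ev (nat_lit 224) (nat_lit 1065615684) .dd)))))) (.br (nat_lit 35) (.br
 (nat_lit 33) (.ch (nat_lit 30) (.ev (nat_lit 52) (nat_lit 880804098) (.ev (nat_lit 212) (nat_lit 8192) (.ev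
 (nat_lit 340) (nat_lit 16777216) (.nd (nat_lit 832) (.br (nat_lit 4) (.br (nat_lit 1) (.ch (nat_lit 0) (.ev
 (nat_lit 848) (nat_lit 262212) (.ev (nat_lit 1140) (nat_lit 134217728) (.ev (nat_lit 1149) (nat_lit 33554432)
 .dd)))) (.ch (nat_lit 1) (.ev (nat_lit 848) (nat_lit 167772228) (.ev (nat_lit 861) (nat_lit 262144) .dd))))
 (.br (nat_lit 9) (.ch (nat_lit 4) (.ev (nat_lit 848) (nat_lit 262148) (.ev (nat_lit 1680) (nat_lit 33554432)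
 (.nd (nat_lit 3360) (.br (nat_lit 8) (.ch (nat_lit 0) (.ev (nat_lit 3376) (nat_lit 134217792) .dd)) (.ch
 (nat_lit 8) (.ev (nat_lit 3392) (nat_lit 64) (.ev (nat_lit 3405) (nat_lit 134217728) .dd)))))))) (.br (nat_lit
 12) (.ch (nat_lit 9) (.ev (nat_lit 848) (nat_lit 262208) (.ev (nat_lit 1376) (nat_lit 134217728) (.nd (nat_lit
 3360) (.br (nat_lit 5) (.ch (nat_lit 0) (.ev (nat_lit 3376) (nat_lit 33554436) .dd)) (.ch (nat_lit 5) (.ev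
 (nat_lit 3524) (nat_lit 4) (.ev (nat_lit 3533) (nat_lit 33554432) .dd)))))))) (.ch (nat_lit 12) (.ev (nat_lit
 848) (nat_lit 167772228) (.ev (nat_lit 861) (nat_lit 262144) .dd))))))))))) (.ch (nat_lit 33) (.ev (nat_lit
 52) (nat_lit 218103812) (.ev (nat_lit 256) (nat_lit 847520066) .dd)))) (.br (nat_lit 36) (.ch (nat_lit 35)
 (.ev (nat_lit 52) (nat_lit 134226244) (.ev (nat_lit 116) (nat_lit 536870912) (.ev (nat_lit 244) (nat_lit
 16777216) (.nd (nat_lit 832) (.br (nat_lit 6) (.br (nat_lit 5) (.ch (nat_lit 1) (.ev (nat_lit 848) (nat_lit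
 343932930) (.ev (nat_lit 2852) (nat_lit 33554432) (.ev (nat_lit 2861) (nat_lit 262144) .dd)))) (.ch (nat_lit
 5) (.ev (nat_lit 848) (nat_lit 100925442) (.ev (nat_lit 1286) (nat_lit 8388608) (.ev (nat_lit 1293) (nat_lit
 268435456) .dd))))) (.br (nat_lit 10) (.ch (nat_lit 6) (.ev (nat_lit 848) (nat_lit 33554432) (.ev (nat_lit
 1588) (nat_lit 268435456) (.ev (nat_lit 2480) (nat_lit 8388608) (.ev (nat_lit 2644) (nat_lit 2) (.nd (nat_lit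
 3360) (.br (nat_lit 11) (.ch (nat_lit 3) (.fin (nat_lit 576452505970885180))) (.ch (nat_lit 11) (.ev (nat_lit
 3376) (nat_lit 67371008) .dd))))))))) (.br (nat_lit 12) (.ch (nat_lit 10) (.ev (nat_lit 848) (nat_lit
 33816576) (.ev (nat_lit 2596) (nat_lit 67108864) (.ev (nat_lit 2612) (nat_lit 8388608) (.ev (nat_lit 2852)
 (nat_lit 2) (.ev (nat_lit 2861) (nat_lit 268435456) .dd)))))) (.ch (nat_lit 12) (.ev (nat_lit 848) (nat_lit
 310640640) (.ev (nat_lit 1478) (nat_lit 67108864) (.ev (nat_lit 1485) (nat_lit 2) .dd)))))))))))) (.ch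
 (nat_lit 36) (.ev (nat_lit 52) (nat_lit 503324676) (.ev (nat_lit 480) (nat_lit 562299202) .dd))))))))))

/-- Subtrie. -/
noncomputable def T4 : Tr := (.ev (nat_lit 20) (nat_lit 503619666) (.nd (nat_lit 33) (.br (nat_lit 19) (.br
 (nat_lit 11) (.br (nat_lit 7) (.br (nat_lit 4) (.ch (nat_lit 1) (.ev (nat_lit 52) (nat_lit 13107456) (.ev
 (nat_lit 116) (nat_lit 2097152) (.ev (nat_lit 784) (nat_lit 536870912) (.nd (nat_lit 832) (.br (nat_lit 6)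
 (.br (nat_lit 1) (.ch (nat_lit 0) (.ev (nat_lit 848) (nat_lit 17842176) (.ev (nat_lit 861) (nat_lit 4) .dd)))
 (.br (nat_lit 3) (.ch (nat_lit 1) (.ev (nat_lit 848) (nat_lit 17842180) .dd)) (.ch (nat_lit 3) (.ev (nat_lit
 848) (nat_lit 1048580) (.fin (nat_lit 576476695239279165)))))) (.br (nat_lit 8) (.ch (nat_lit 6) (.ev (nat_lit
 848) (nat_lit 16793600) (.ev (nat_lit 2976) (nat_lit 1048576) (.ev (nat_lit 2989) (nat_lit 4) .dd)))) (.br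
 (nat_lit 9) (.ch (nat_lit 8) (.ev (nat_lit 848) (nat_lit 17825792) (.ev (nat_lit 2000) (nat_lit 4) (.ev
 (nat_lit 2013) (nat_lit 16384) .dd)))) (.ch (nat_lit 9) (.ev (nat_lit 848) (nat_lit 1064964) (.ev (nat_lit
 861) (nat_lit 16777216) .dd))))))))))) (.br (nat_lit 5) (.ch (nat_lit 4) (.ev (nat_lit 52) (nat_lit 536887296)
 (.ev (nat_lit 148) (nat_lit 16777216) (.ev (nat_lit 340) (nat_lit 4) (.nd (nat_lit 832) (.br (nat_lit 6) (.br
 (nat_lit 2) (.br (nat_lit 1) (.ch (nat_lit 0) (.ev (nat_lit 848) (nat_lit 11010304) (.ev (nat_lit 3044)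
 (nat_lit 4194304) (.ev (nat_lit 3053) (nat_lit 1048576) .dd)))) (.ch (nat_lit 1) (.ev (nat_lit 848) (nat_lit
 14156032) (.ev (nat_lit 861) (nat_lit 2097152) .dd)))) (.br (nat_lit 3) (.ch (nat_lit 2) (.ev (nat_lit 848)
 (nat_lit 256) (.ev (nat_lit 884) (nat_lit 2097152) (.ev (nat_lit 1028) (nat_lit 1048576) (.ev (nat_lit 1062)
 (nat_lit 12582912) (.ev (nat_lit 1069) (nat_lit 524288) .dd)))))) (.ch (nat_lit 3) (.ev (nat_lit 848) (nat_lit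
 13107456) (.ev (nat_lit 1220) (nat_lit 2097152) (.ev (nat_lit 1229) (nat_lit 1048576) .dd)))))) (.br (nat_lit
 8) (.br (nat_lit 7) (.ch (nat_lit 6) (.ev (nat_lit 848) (nat_lit 9961472) (.ev (nat_lit 1092) (nat_lit
 4194304) (.ev (nat_lit 2432) (nat_lit 256) (.ev (nat_lit 2445) (nat_lit 2097152) .dd))))) (.ch (nat_lit 7)
 (.ev (nat_lit 848) (nat_lit 6291456) (.ev (nat_lit 1316) (nat_lit 524288) (.ev (nat_lit 2560) (nat_lit
 8388608) (.ev (nat_lit 2832) (nat_lit 256) (.ev (nat_lit 2845) (nat_lit 1048576) .dd))))))) (.br (nat_lit 11)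
 (.ch (nat_lit 8) (.ev (nat_lit 848) (nat_lit 3145984) (.ev (nat_lit 2304) (nat_lit 8388608) (.ev (nat_lit
 2960) (nat_lit 524288) (.ev (nat_lit 2973) (nat_lit 4194304) .dd))))) (.ch (nat_lit 11) (.ev (nat_lit 848)
 (nat_lit 14156032) (.ev (nat_lit 861) (nat_lit 2097152) .dd))))))))))) (.ch (nat_lit 5) (.ev (nat_lit 52)
 (nat_lit 545259520) (.ev (nat_lit 148) (nat_lit 16384) (.ev (nat_lit 384) (nat_lit 24641796) .dd)))))) (.br
 (nat_lit 8) (.ch (nat_lit 7) (.ev (nat_lit 52) (nat_lit 555761920) (.ev (nat_lit 308) (nat_lit 1048576) (.nd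
 (nat_lit 832) (.br (nat_lit 7) (.br (nat_lit 2) (.ch (nat_lit 1) (.ev (nat_lit 848) (nat_lit 4718592) (.ev
 (nat_lit 2020) (nat_lit 4) (.ev (nat_lit 2029) (nat_lit 8388608) .dd)))) (.br (nat_lit 6) (.ch (nat_lit 2)
 (.ev (nat_lit 1908) (nat_lit 524288) (.ev (nat_lit 2100) (nat_lit 4) (.ev (nat_lit 3108) (nat_lit 4194304)
 (.ev (nat_lit 3117) (nat_lit 8388608) .dd))))) (.ch (nat_lit 6) (.ev (nat_lit 848) (nat_lit 13107200) (.ev
 (nat_lit 861) (nat_lit 4) .dd))))) (.br (nat_lit 8) (.ch (nat_lit 7) (.ev (nat_lit 848) (nat_lit 12582916)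
 (.ev (nat_lit 861) (nat_lit 524288) .dd))) (.br (nat_lit 9) (.ch (nat_lit 8) (.ev (nat_lit 848) (nat_lit
 8912896) (.ev (nat_lit 2724) (nat_lit 4) (.ev (nat_lit 2733) (nat_lit 4194304) .dd)))) (.ch (nat_lit 9) (.ev
 (nat_lit 848) (nat_lit 4) (.ev (nat_lit 884) (nat_lit 524288) (.ev (nat_lit 1408) (nat_lit 4194304) (.ev
 (nat_lit 1421) (nat_lit 8388608) .dd)))))))))))) (.br (nat_lit 10) (.ch (nat_lit 8) (.ev (nat_lit 52) (nat_lit
 26214404) (.ev (nat_lit 596) (nat_lit 536871168) (.nd (nat_lit 832) (.br (nat_lit 6) (.br (nat_lit 2) (.ch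
 (nat_lit 0) (.ev (nat_lit 848) (nat_lit 2113536) (.ev (nat_lit 1076) (nat_lit 4194304) (.ev (nat_lit 1085)
 (nat_lit 524288) .dd)))) (.br (nat_lit 3) (.ch (nat_lit 2) (.ev (nat_lit 848) (nat_lit 2113536) (.ev (nat_lit
 3028) (nat_lit 524288) (.ev (nat_lit 3037) (nat_lit 4194304) .dd)))) (.ch (nat_lit 3) (.ev (nat_lit 848)
 (nat_lit 6832128) .dd)))) (.br (nat_lit 9) (.br (nat_lit 7) (.ch (nat_lit 6) (.ev (nat_lit 848) (nat_lit
 6832128) .dd)) (.ch (nat_lit 7) (.ev (nat_lit 848) (nat_lit 2113536) (.ev (nat_lit 3028) (nat_lit 4194304)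
 (.ev (nat_lit 3037) (nat_lit 524288) .dd))))) (.br (nat_lit 11) (.ch (nat_lit 9) (.ev (nat_lit 848) (nat_lit
 2113536) (.ev (nat_lit 1076) (nat_lit 524288) (.ev (nat_lit 1085) (nat_lit 4194304) .dd)))) (.ch (nat_lit 11)
 (.ev (nat_lit 848) (nat_lit 4718592) (.ev (nat_lit 998) (nat_lit 2113536) .dd)))))))))) (.ch (nat_lit 10) (.ev
 (nat_lit 52) (nat_lit 11010048) (.ev (nat_lit 116) (nat_lit 16777216) (.ev (nat_lit 436) (nat_lit 4) (.ev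
 (nat_lit 692) (nat_lit 536870912) (.nd (nat_lit 832) (.br (nat_lit 6) (.br (nat_lit 2) (.ch (nat_lit 0) (.ev
 (nat_lit 848) (nat_lit 16640) (.ev (nat_lit 3092) (nat_lit 1048576) (.ev (nat_lit 3101) (nat_lit 4194304)
 .dd)))) (.ch (nat_lit 2) (.ev (nat_lit 848) (nat_lit 5259264) (.ev (nat_lit 861) (nat_lit 256) .dd)))) (.br
 (nat_lit 7) (.ch (nat_lit 6) (.ev (nat_lit 884) (nat_lit 16384) (.ev (nat_lit 1376) (nat_lit 4194304) (.ev
 (nat_lit 1638) (nat_lit 256) (.ev (nat_lit 1645) (nat_lit 1048576) .dd))))) (.br (nat_lit 11) (.ch (nat_lit 7)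
 (.ev (nat_lit 884) (nat_lit 256) (.ev (nat_lit 1268) (nat_lit 1048576) (.ev (nat_lit 2740) (nat_lit 4194304)
 (.ev (nat_lit 2749) (nat_lit 16384) .dd))))) (.ch (nat_lit 11) (.ev (nat_lit 848) (nat_lit 5243136) (.ev
 (nat_lit 861) (nat_lit 16384) .dd))))))))))))))) (.br (nat_lit 15) (.br (nat_lit 12) (.ch (nat_lit 11) (.ev
 (nat_lit 52) (nat_lit 26230784) (.ev (nat_lit 212) (nat_lit 2097152) (.ev (nat_lit 404) (nat_lit 4194304) (.ev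
 (nat_lit 596) (nat_lit 524288) (.ev (nat_lit 724) (nat_lit 256) (.nd (nat_lit 832) (.br (nat_lit 7) (.br
 (nat_lit 3) (.br (nat_lit 2) (.ch (nat_lit 0) (.ev (nat_lit 848) (nat_lit 536870912) (.ev (nat_lit 861)
 (nat_lit 4) .dd))) (.ch (nat_lit 2) (.ev (nat_lit 884) (nat_lit 536870912) (.ev (nat_lit 893) (nat_lit 4)
 .dd)))) (.br (nat_lit 6) (.ch (nat_lit 3) (.ev (nat_lit 848) (nat_lit 4) (.ev (nat_lit 861) (nat_lit
 536870912) .dd))) (.ch (nat_lit 6) (.ev (nat_lit 848) (nat_lit 536870912) (.ev (nat_lit 861) (nat_lit 4)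
 .dd))))) (.br (nat_lit 9) (.br (nat_lit 8) (.ch (nat_lit 7) (.ev (nat_lit 848) (nat_lit 4) (.ev (nat_lit 861)
 (nat_lit 536870912) .dd))) (.ch (nat_lit 8) (.ev (nat_lit 848) (nat_lit 536870912) (.ev (nat_lit 861) (nat_lit
 4) .dd)))) (.br (nat_lit 11) (.ch (nat_lit 9) (.ev (nat_lit 848) (nat_lit 4) (.ev (nat_lit 861) (nat_lit
 536870912) .dd))) (.ch (nat_lit 11) (.ev (nat_lit 848) (nat_lit 4) (.ev (nat_lit 861) (nat_lit 536870912)
 .dd))))))))))))) (.br (nat_lit 13) (.ch (nat_lit 12) (.ev (nat_lit 52) (nat_lit 559939844) (.ev (nat_lit 84)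
 (nat_lit 1064960) (.nd (nat_lit 832) (.br (nat_lit 7) (.br (nat_lit 2) (.ch (nat_lit 1) (.ev (nat_lit 884)
 (nat_lit 8388608) (.ev (nat_lit 893) (nat_lit 524288) .dd))) (.br (nat_lit 6) (.ch (nat_lit 2) (.ev (nat_lit
 916) (nat_lit 524288) (.ev (nat_lit 925) (nat_lit 8388608) .dd))) (.ch (nat_lit 6) (.ev (nat_lit 848) (nat_lit
 8912896) .dd)))) (.br (nat_lit 9) (.br (nat_lit 8) (.ch (nat_lit 7) (.ev (nat_lit 884) (nat_lit 8388608) (.ev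
 (nat_lit 893) (nat_lit 524288) .dd))) (.ch (nat_lit 8) (.ev (nat_lit 848) (nat_lit 8388608) (.ev (nat_lit 861)
 (nat_lit 524288) .dd)))) (.br (nat_lit 11) (.ch (nat_lit 9) (.ev (nat_lit 884) (nat_lit 8388608) (.ev (nat_lit
 893) (nat_lit 524288) .dd))) (.ch (nat_lit 11) (.ev (nat_lit 848) (nat_lit 8912896) .dd))))))))) (.ch (nat_lit
 13) (.ev (nat_lit 52) (nat_lit 4194560) (.ev (nat_lit 212) (nat_lit 16777216) (.ev (nat_lit 276) (nat_lit 4)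
 (.ev (nat_lit 512) (nat_lit 548945920) .dd))))))) (.br (nat_lit 17) (.br (nat_lit 16) (.ch (nat_lit 15) (.ev
 (nat_lit 52) (nat_lit 24641536) (.ev (nat_lit 180) (nat_lit 16384) (.ev (nat_lit 752) (nat_lit 256) (.nd
 (nat_lit 832) (.br (nat_lit 3) (.br (nat_lit 2) (.ch (nat_lit 1) (.ev (nat_lit 848) (nat_lit 545259520) (.ev
 (nat_lit 861) (nat_lit 4) .dd))) (.ch (nat_lit 2) (.ev (nat_lit 848) (nat_lit 4) (.ev (nat_lit 1110) (nat_lit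
 536870912) (.ev (nat_lit 1117) (nat_lit 8388608) .dd))))) (.br (nat_lit 6) (.ch (nat_lit 3) (.ev (nat_lit 848)
 (nat_lit 8388612) (.ev (nat_lit 861) (nat_lit 536870912) .dd))) (.br (nat_lit 11) (.ch (nat_lit 6) (.ev
 (nat_lit 848) (nat_lit 545259520) (.ev (nat_lit 861) (nat_lit 4) .dd))) (.ch (nat_lit 11) (.ev (nat_lit 848)
 (nat_lit 8388612) (.ev (nat_lit 861) (nat_lit 536870912) .dd))))))))))) (.ch (nat_lit 16) (.ev (nat_lit 52)
 (nat_lit 2097408) (.ev (nat_lit 148) (nat_lit 1048576) (.ev (nat_lit 340) (nat_lit 8388608) (.nd (nat_lit 832)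
 (.br (nat_lit 7) (.br (nat_lit 3) (.br (nat_lit 2) (.ch (nat_lit 1) (.ev (nat_lit 848) (nat_lit 553664512)
 (.ev (nat_lit 2304) (nat_lit 4) (.ev (nat_lit 2960) (nat_lit 4194304) (.ev (nat_lit 2973) (nat_lit 524288)
 .dd))))) (.ch (nat_lit 2) (.ev (nat_lit 848) (nat_lit 540672) (.ev (nat_lit 1316) (nat_lit 4194304) (.ev
 (nat_lit 2560) (nat_lit 4) (.ev (nat_lit 2832) (nat_lit 536870912) (.ev (nat_lit 2845) (nat_lit 16777216)
 .dd))))))) (.br (nat_lit 6) (.ch (nat_lit 3) (.ev (nat_lit 848) (nat_lit 20971524) (.ev (nat_lit 1092)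
 (nat_lit 524288) (.ev (nat_lit 2432) (nat_lit 536870912) (.ev (nat_lit 2445) (nat_lit 16384) .dd))))) (.ch
 (nat_lit 6) (.ev (nat_lit 848) (nat_lit 541589508) (.ev (nat_lit 1190) (nat_lit 16384) (.ev (nat_lit 1197)
 (nat_lit 16777216) .dd)))))) (.br (nat_lit 9) (.br (nat_lit 8) (.ch (nat_lit 7) (.ev (nat_lit 848) (nat_lit
 536870912) (.ev (nat_lit 884) (nat_lit 16384) (.ev (nat_lit 1028) (nat_lit 16777216) (.ev (nat_lit 1092)
 (nat_lit 524288) (.ev (nat_lit 1588) (nat_lit 4194304) (.ev (nat_lit 1597) (nat_lit 4) .dd))))))) (.ch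
 (nat_lit 8) (.ev (nat_lit 848) (nat_lit 558366724) (.ev (nat_lit 861) (nat_lit 16384) .dd)))) (.br (nat_lit
 11) (.ch (nat_lit 9) (.ev (nat_lit 848) (nat_lit 541081604) (.ev (nat_lit 3044) (nat_lit 524288) (.ev (nat_lit
 3053) (nat_lit 16777216) .dd)))) (.ch (nat_lit 11) (.ev (nat_lit 848) (nat_lit 558366724) (.ev (nat_lit 861)
 (nat_lit 16384) .dd)))))))))))) (.br (nat_lit 18) (.ch (nat_lit 17) (.ev (nat_lit 52) (nat_lit 553648132) (.ev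
 (nat_lit 404) (nat_lit 256) (.ev (nat_lit 468) (nat_lit 4194304) (.nd (nat_lit 832) (.br (nat_lit 6) (.br
 (nat_lit 1) (.ch (nat_lit 0) (.ev (nat_lit 848) (nat_lit 12075008) .dd)) (.br (nat_lit 3) (.ch (nat_lit 1)
 (.ev (nat_lit 848) (nat_lit 1064960) (.ev (nat_lit 884) (nat_lit 2097152) (.ev (nat_lit 1926) (nat_lit
 8388608) (.ev (nat_lit 1933) (nat_lit 524288) .dd))))) (.ch (nat_lit 3) (.ev (nat_lit 848) (nat_lit 2621440)
 (.ev (nat_lit 3028) (nat_lit 16384) (.ev (nat_lit 3174) (nat_lit 8388608) (.ev (nat_lit 3181) (nat_lit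
 1048576) .dd))))))) (.br (nat_lit 9) (.br (nat_lit 7) (.ch (nat_lit 6) (.ev (nat_lit 848) (nat_lit 8929280)
 (.nd (nat_lit 3360) (.br (nat_lit 9) (.ch (nat_lit 2) (.ev (nat_lit 3376) (nat_lit 3145728) .dd)) (.br
 (nat_lit 11) (.ch (nat_lit 9) (.fin (nat_lit 576476695207821905))) (.ch (nat_lit 11) (.ev (nat_lit 3376)
 (nat_lit 2097152) (.ev (nat_lit 3389) (nat_lit 1048576) .dd)))))))) (.ch (nat_lit 7) (.ev (nat_lit 848)
 (nat_lit 11550720) (.ev (nat_lit 861) (nat_lit 524288) .dd)))) (.br (nat_lit 11) (.ch (nat_lit 9) (.ev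
 (nat_lit 848) (nat_lit 3162112) (.ev (nat_lit 884) (nat_lit 524288) (.ev (nat_lit 893) (nat_lit 8388608)
 .dd)))) (.ch (nat_lit 11) (.ev (nat_lit 848) (nat_lit 12075008) .dd)))))))))) (.ch (nat_lit 18) (.ev (nat_lit
 52) (nat_lit 12058624) (.nd (nat_lit 832) (.br (nat_lit 2) (.br (nat_lit 1) (.ch (nat_lit 0) (.ev (nat_lit
 848) (nat_lit 553664768) (.ev (nat_lit 1300) (nat_lit 4) (.ev (nat_lit 1309) (nat_lit 4194304) .dd)))) (.ch
 (nat_lit 1) (.ev (nat_lit 848) (nat_lit 553664768) (.ev (nat_lit 2912) (nat_lit 4194304) (.ev (nat_lit 2925)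
 (nat_lit 4) .dd))))) (.br (nat_lit 3) (.ch (nat_lit 2) (.ev (nat_lit 848) (nat_lit 4210692) (.ev (nat_lit 964)
 (nat_lit 256) (.ev (nat_lit 2516) (nat_lit 16777216) (.ev (nat_lit 2525) (nat_lit 536870912) .dd))))) (.br
 (nat_lit 8) (.ch (nat_lit 3) (.ev (nat_lit 848) (nat_lit 4194564) (.ev (nat_lit 2852) (nat_lit 536870912) (.ev
 (nat_lit 2896) (nat_lit 16777216) (.ev (nat_lit 2909) (nat_lit 16384) .dd))))) (.ch (nat_lit 8) (.ev (nat_lit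
 848) (nat_lit 553664768) (.ev (nat_lit 1574) (nat_lit 4) (.ev (nat_lit 1581) (nat_lit 4194304)
 .dd)))))))))))))) (.br (nat_lit 26) (.br (nat_lit 22) (.br (nat_lit 20) (.ch (nat_lit 19) (.ev (nat_lit 52)
 (nat_lit 9437440) (.ev (nat_lit 404) (nat_lit 536870912) (.ev (nat_lit 468) (nat_lit 524288) (.nd (nat_lit
 832) (.br (nat_lit 6) (.br (nat_lit 2) (.ch (nat_lit 0) (.ev (nat_lit 848) (nat_lit 18890752) (.ev (nat_lit
 884) (nat_lit 4194304) (.ev (nat_lit 893) (nat_lit 4) .dd)))) (.br (nat_lit 3) (.ch (nat_lit 2) (.ev (nat_lit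
 848) (nat_lit 18890756) (.ev (nat_lit 861) (nat_lit 4194304) .dd))) (.ch (nat_lit 3) (.ev (nat_lit 848)
 (nat_lit 6291460) (.nd (nat_lit 3360) (.br (nat_lit 5) (.ch (nat_lit 3) (.ev (nat_lit 3376) (nat_lit 16384)
 (.ev (nat_lit 3389) (nat_lit 16777216) .dd))) (.br (nat_lit 12) (.ch (nat_lit 5) (.fin (nat_lit
 576476695239279165))) (.ch (nat_lit 12) (.ev (nat_lit 3376) (nat_lit 16793600) .dd))))))))) (.br (nat_lit 9)
 (.br (nat_lit 8) (.ch (nat_lit 6) (.ev (nat_lit 848) (nat_lit 4210688) (.ev (nat_lit 3028) (nat_lit 2097152)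
 (.ev (nat_lit 3206) (nat_lit 4) (.ev (nat_lit 3213) (nat_lit 16777216) .dd))))) (.ch (nat_lit 8) (.ev (nat_lit
 848) (nat_lit 18874368) (.ev (nat_lit 884) (nat_lit 16384) (.ev (nat_lit 1894) (nat_lit 4) (.ev (nat_lit 1901)
 (nat_lit 4194304) .dd)))))) (.br (nat_lit 11) (.ch (nat_lit 9) (.ev (nat_lit 848) (nat_lit 23085060) .dd))
 (.ch (nat_lit 11) (.ev (nat_lit 848) (nat_lit 23085060) .dd)))))))))) (.br (nat_lit 21) (.ch (nat_lit 20) (.ev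
 (nat_lit 52) (nat_lit 20987908) (.nd (nat_lit 832) (.br (nat_lit 7) (.br (nat_lit 6) (.ch (nat_lit 1) (.ev
 (nat_lit 848) (nat_lit 540016896) (.ev (nat_lit 1604) (nat_lit 524288) (.ev (nat_lit 1613) (nat_lit 8388608)
 .dd)))) (.ch (nat_lit 6) (.ev (nat_lit 848) (nat_lit 545783808) (.ev (nat_lit 2852) (nat_lit 256) (.ev
 (nat_lit 2896) (nat_lit 1048576) (.ev (nat_lit 2909) (nat_lit 2097152) .dd)))))) (.br (nat_lit 8) (.ch
 (nat_lit 7) (.ev (nat_lit 848) (nat_lit 11010048) (.ev (nat_lit 964) (nat_lit 536870912) (.ev (nat_lit 2516)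
 (nat_lit 256) (.ev (nat_lit 2525) (nat_lit 1048576) .dd))))) (.br (nat_lit 9) (.ch (nat_lit 8) (.ev (nat_lit
 848) (nat_lit 540016896) (.ev (nat_lit 2912) (nat_lit 524288) (.ev (nat_lit 2925) (nat_lit 8388608) .dd))))
 (.ch (nat_lit 9) (.ev (nat_lit 848) (nat_lit 540016896) (.ev (nat_lit 1300) (nat_lit 8388608) (.ev (nat_lit
 1309) (nat_lit 524288) .dd)))))))))) (.ch (nat_lit 21) (.ev (nat_lit 52) (nat_lit 30932992) (.ev (nat_lit 628)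
 (nat_lit 4) (.ev (nat_lit 672) (nat_lit 538984704) .dd)))))) (.br (nat_lit 24) (.ch (nat_lit 22) (.ev (nat_lit
 52) (nat_lit 537395200) (.ev (nat_lit 212) (nat_lit 1048576) (.ev (nat_lit 276) (nat_lit 8388608) (.ev
 (nat_lit 576) (nat_lit 23085316) .dd))))) (.br (nat_lit 25) (.ch (nat_lit 24) (.ev (nat_lit 52) (nat_lit
 22560768) (.ev (nat_lit 180) (nat_lit 2097152) (.ev (nat_lit 768) (nat_lit 536870912) (.nd (nat_lit 832) (.br
 (nat_lit 7) (.br (nat_lit 6) (.ch (nat_lit 3) (.ev (nat_lit 848) (nat_lit 260) (.ev (nat_lit 861) (nat_lit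
 8388608) .dd))) (.ch (nat_lit 6) (.ev (nat_lit 848) (nat_lit 8388612) (.ev (nat_lit 861) (nat_lit 256) .dd))))
 (.br (nat_lit 8) (.ch (nat_lit 7) (.ev (nat_lit 848) (nat_lit 8388608) (.ev (nat_lit 1668) (nat_lit 256) (.ev
 (nat_lit 1677) (nat_lit 4) .dd)))) (.br (nat_lit 11) (.ch (nat_lit 8) (.ev (nat_lit 848) (nat_lit 260) (.ev
 (nat_lit 861) (nat_lit 8388608) .dd))) (.ch (nat_lit 11) (.ev (nat_lit 848) (nat_lit 8388612) (.ev (nat_lit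
 861) (nat_lit 256) .dd))))))))))) (.ch (nat_lit 25) (.ev (nat_lit 52) (nat_lit 540033280) (.ev (nat_lit 308)
 (nat_lit 16777216) (.nd (nat_lit 832) (.br (nat_lit 3) (.br (nat_lit 1) (.ch (nat_lit 0) (.ev (nat_lit 848)
 (nat_lit 8388608) (.ev (nat_lit 884) (nat_lit 4194304) (.ev (nat_lit 1408) (nat_lit 524288) (.ev (nat_lit
 1421) (nat_lit 4) .dd))))) (.br (nat_lit 2) (.ch (nat_lit 1) (.ev (nat_lit 848) (nat_lit 4194308) (.ev
 (nat_lit 2724) (nat_lit 8388608) (.ev (nat_lit 2733) (nat_lit 524288) .dd)))) (.ch (nat_lit 2) (.ev (nat_lit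
 848) (nat_lit 8912900) (.ev (nat_lit 861) (nat_lit 4194304) .dd))))) (.br (nat_lit 7) (.ch (nat_lit 3) (.ev
 (nat_lit 848) (nat_lit 4718596) (.ev (nat_lit 861) (nat_lit 8388608) .dd))) (.br (nat_lit 8) (.ch (nat_lit 7)
 (.ev (nat_lit 1908) (nat_lit 4194304) (.ev (nat_lit 2100) (nat_lit 8388608) (.ev (nat_lit 3108) (nat_lit
 524288) (.ev (nat_lit 3117) (nat_lit 4) .dd))))) (.ch (nat_lit 8) (.ev (nat_lit 848) (nat_lit 4718592) (.ev
 (nat_lit 2020) (nat_lit 8388608) (.ev (nat_lit 2029) (nat_lit 4) .dd)))))))))))))) (.br (nat_lit 30) (.br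
 (nat_lit 27) (.ch (nat_lit 26) (.ev (nat_lit 52) (nat_lit 19922948) (.ev (nat_lit 212) (nat_lit 16384) (.ev
 (nat_lit 404) (nat_lit 524288) (.ev (nat_lit 596) (nat_lit 4194304) (.ev (nat_lit 724) (nat_lit 536870912)
 (.nd (nat_lit 832) (.br (nat_lit 6) (.br (nat_lit 2) (.br (nat_lit 1) (.ch (nat_lit 0) (.ev (nat_lit 848)
 (nat_lit 8388608) (.ev (nat_lit 861) (nat_lit 256) .dd))) (.ch (nat_lit 1) (.ev (nat_lit 848) (nat_lit 256)
 (.ev (nat_lit 861) (nat_lit 8388608) .dd)))) (.br (nat_lit 3) (.ch (nat_lit 2) (.ev (nat_lit 848) (nat_lit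
 8388608) (.ev (nat_lit 861) (nat_lit 256) .dd))) (.ch (nat_lit 3) (.ev (nat_lit 848) (nat_lit 256) (.ev
 (nat_lit 861) (nat_lit 8388608) .dd))))) (.br (nat_lit 9) (.br (nat_lit 7) (.ch (nat_lit 6) (.ev (nat_lit 848)
 (nat_lit 8388608) (.ev (nat_lit 861) (nat_lit 256) .dd))) (.ch (nat_lit 7) (.ev (nat_lit 884) (nat_lit 256)
 (.ev (nat_lit 893) (nat_lit 8388608) .dd)))) (.br (nat_lit 11) (.ch (nat_lit 9) (.ev (nat_lit 848) (nat_lit
 256) (.ev (nat_lit 861) (nat_lit 8388608) .dd))) (.ch (nat_lit 11) (.ev (nat_lit 848) (nat_lit 8388608) (.ev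
 (nat_lit 861) (nat_lit 256) .dd))))))))))))) (.br (nat_lit 29) (.ch (nat_lit 27) (.ev (nat_lit 52) (nat_lit
 541589508) (.ev (nat_lit 116) (nat_lit 16384) (.ev (nat_lit 800) (nat_lit 256) (.nd (nat_lit 832) (.br
 (nat_lit 6) (.br (nat_lit 1) (.ch (nat_lit 0) (.ev (nat_lit 848) (nat_lit 27262976) (.ev (nat_lit 861)
 (nat_lit 1048576) .dd))) (.br (nat_lit 3) (.ch (nat_lit 1) (.ev (nat_lit 848) (nat_lit 17825792) (.ev (nat_lit
 2000) (nat_lit 8388608) (.ev (nat_lit 2013) (nat_lit 2097152) .dd)))) (.ch (nat_lit 3) (.ev (nat_lit 848)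
 (nat_lit 3145728) (.ev (nat_lit 2976) (nat_lit 16777216) (.ev (nat_lit 2989) (nat_lit 8388608) .dd)))))) (.br
 (nat_lit 8) (.ch (nat_lit 6) (.ev (nat_lit 848) (nat_lit 25165824) (.fin (nat_lit 576476695207821905)))) (.br
 (nat_lit 9) (.ch (nat_lit 8) (.ev (nat_lit 848) (nat_lit 28311552) .dd)) (.ch (nat_lit 9) (.ev (nat_lit 848)
 (nat_lit 19922944) (.ev (nat_lit 861) (nat_lit 8388608) .dd))))))))))) (.ch (nat_lit 29) (.ev (nat_lit 52)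
 (nat_lit 4718592) (.ev (nat_lit 244) (nat_lit 8388612) (.ev (nat_lit 372) (nat_lit 2113536) (.nd (nat_lit 832)
 (.br (nat_lit 6) (.br (nat_lit 2) (.ch (nat_lit 1) (.ev (nat_lit 848) (nat_lit 554696960) .dd)) (.br (nat_lit
 3) (.ch (nat_lit 2) (.ev (nat_lit 848) (nat_lit 536871168) (.ev (nat_lit 2118) (nat_lit 16777216) (.ev
 (nat_lit 2125) (nat_lit 1048576) .dd)))) (.ch (nat_lit 3) (.ev (nat_lit 848) (nat_lit 536871168) (.ev (nat_lit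
 2852) (nat_lit 1048576) (.ev (nat_lit 2861) (nat_lit 16777216) .dd)))))) (.br (nat_lit 8) (.br (nat_lit 7)
 (.ch (nat_lit 6) (.ev (nat_lit 848) (nat_lit 536871168) (.ev (nat_lit 2852) (nat_lit 16777216) (.ev (nat_lit
 2861) (nat_lit 1048576) .dd)))) (.ch (nat_lit 7) (.ev (nat_lit 848) (nat_lit 536871168) (.ev (nat_lit 2148)
 (nat_lit 16777216) (.ev (nat_lit 2157) (nat_lit 1048576) .dd))))) (.br (nat_lit 11) (.ch (nat_lit 8) (.ev
 (nat_lit 848) (nat_lit 554696960) .dd)) (.ch (nat_lit 11) (.ev (nat_lit 848) (nat_lit 17825792) (.ev (nat_lit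
 934) (nat_lit 536871168) .dd))))))))))))) (.br (nat_lit 35) (.br (nat_lit 33) (.ch (nat_lit 30) (.ev (nat_lit
 52) (nat_lit 546849024) (.ev (nat_lit 84) (nat_lit 18874368) (.nd (nat_lit 832) (.br (nat_lit 3) (.br (nat_lit
 1) (.ch (nat_lit 0) (.ev (nat_lit 884) (nat_lit 4) (.ev (nat_lit 893) (nat_lit 4194304) .dd))) (.br (nat_lit
 2) (.ch (nat_lit 1) (.ev (nat_lit 848) (nat_lit 4) (.ev (nat_lit 861) (nat_lit 4194304) .dd))) (.ch (nat_lit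
 2) (.ev (nat_lit 884) (nat_lit 4) (.ev (nat_lit 893) (nat_lit 4194304) .dd))))) (.br (nat_lit 8) (.br (nat_lit
 7) (.ch (nat_lit 3) (.ev (nat_lit 848) (nat_lit 4194308) .dd)) (.ch (nat_lit 7) (.ev (nat_lit 916) (nat_lit 4)
 (.ev (nat_lit 925) (nat_lit 4194304) .dd)))) (.br (nat_lit 11) (.ch (nat_lit 8) (.ev (nat_lit 884) (nat_lit 4)
 (.ev (nat_lit 893) (nat_lit 4194304) .dd))) (.ch (nat_lit 11) (.ev (nat_lit 848) (nat_lit 4194308)
 .dd))))))))) (.ch (nat_lit 33) (.ev (nat_lit 52) (nat_lit 22544388) (.ev (nat_lit 628) (nat_lit 8388608) (.ev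
 (nat_lit 704) (nat_lit 538984704) .dd))))) (.br (nat_lit 36) (.ch (nat_lit 35) (.ev (nat_lit 52) (nat_lit 260)
 (.ev (nat_lit 148) (nat_lit 2097152) (.ev (nat_lit 448) (nat_lit 567820288) .dd)))) (.ch (nat_lit 36) (.ev
 (nat_lit 52) (nat_lit 4210692) (.ev (nat_lit 116) (nat_lit 1048576) (.ev (nat_lit 436) (nat_lit 8388608) (.ev
 (nat_lit 692) (nat_lit 256) (.nd (nat_lit 832) (.br (nat_lit 7) (.br (nat_lit 3) (.ch (nat_lit 2) (.ev
 (nat_lit 884) (nat_lit 536870912) (.ev (nat_lit 1268) (nat_lit 16777216) (.ev (nat_lit 2740) (nat_lit 524288)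
 (.ev (nat_lit 2749) (nat_lit 2097152) .dd))))) (.ch (nat_lit 3) (.ev (nat_lit 884) (nat_lit 2097152) (.ev
 (nat_lit 1376) (nat_lit 524288) (.ev (nat_lit 1700) (nat_lit 16777216) (.ev (nat_lit 1709) (nat_lit 536870912)
 .dd)))))) (.br (nat_lit 9) (.ch (nat_lit 7) (.ev (nat_lit 848) (nat_lit 19398656) (.ev (nat_lit 861) (nat_lit
 536870912) .dd))) (.br (nat_lit 11) (.ch (nat_lit 9) (.ev (nat_lit 848) (nat_lit 538968064) (.ev (nat_lit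
 3092) (nat_lit 16777216) (.ev (nat_lit 3101) (nat_lit 524288) .dd)))) (.ch (nat_lit 11) (.ev (nat_lit 848)
 (nat_lit 554172416) (.ev (nat_lit 861) (nat_lit 2097152) .dd)))))))))))))))))))

/-- Subtrie. -/
noncomputable def T5 : Tr := (.ev (nat_lit 20) (nat_lit 1351680) (.nd (nat_lit 33) (.br (nat_lit 19) (.br
 (nat_lit 11) (.br (nat_lit 7) (.br (nat_lit 4) (.ch (nat_lit 1) (.ev (nat_lit 52) (nat_lit 13107472) (.ev
 (nat_lit 160) (nat_lit 1059078214) .dd))) (.br (nat_lit 5) (.ch (nat_lit 4) (.ev (nat_lit 52) (nat_lit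
 838877184) (.ev (nat_lit 84) (nat_lit 4) (.ev (nat_lit 116) (nat_lit 16777234) (.ev (nat_lit 340) (nat_lit
 8388608) (.ev (nat_lit 660) (nat_lit 256) (.nd (nat_lit 832) (.br (nat_lit 6) (.br (nat_lit 4) (.br (nat_lit
 1) (.ch (nat_lit 0) (.ev (nat_lit 848) (nat_lit 64) (.ev (nat_lit 884) (nat_lit 524288) (.ev (nat_lit 964)
 (nat_lit 134217728) (.ev (nat_lit 1492) (nat_lit 67108864) (.ev (nat_lit 2132) (nat_lit 4194304) (.ev (nat_lit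
 2141) (nat_lit 2097152) .dd))))))) (.ch (nat_lit 1) (.ev (nat_lit 848) (nat_lit 73400384) (.ev (nat_lit 1942)
 (nat_lit 524288) (.ev (nat_lit 1949) (nat_lit 134217728) .dd))))) (.br (nat_lit 5) (.ch (nat_lit 4) (.ev
 (nat_lit 848) (nat_lit 203423744) (.ev (nat_lit 2164) (nat_lit 4194304) (.ev (nat_lit 2516) (nat_lit 64) (.ev
 (nat_lit 2525) (nat_lit 524288) .dd))))) (.ch (nat_lit 5) (.ev (nat_lit 848) (nat_lit 4718592) (.ev (nat_lit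
 2292) (nat_lit 2097152) (.ev (nat_lit 2630) (nat_lit 201326656) .dd)))))) (.br (nat_lit 11) (.br (nat_lit 9)
 (.ch (nat_lit 6) (.ev (nat_lit 848) (nat_lit 134742080) (.ev (nat_lit 2516) (nat_lit 2097152) (.ev (nat_lit
 2800) (nat_lit 67108864) (.ev (nat_lit 2813) (nat_lit 4194304) .dd))))) (.ch (nat_lit 9) (.ev (nat_lit 848)
 (nat_lit 207618112) (.ev (nat_lit 861) (nat_lit 524288) .dd)))) (.br (nat_lit 12) (.ch (nat_lit 11) (.ev
 (nat_lit 848) (nat_lit 69730368) (.ev (nat_lit 3028) (nat_lit 4194304) (.ev (nat_lit 3037) (nat_lit 134217728)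
 .dd)))) (.ch (nat_lit 12) (.ev (nat_lit 848) (nat_lit 207618112) (.ev (nat_lit 861) (nat_lit 524288)
 .dd))))))))))))) (.ch (nat_lit 5) (.ev (nat_lit 52) (nat_lit 578813968) (.ev (nat_lit 84) (nat_lit 64) (.ev
 (nat_lit 660) (nat_lit 67108864) (.nd (nat_lit 832) (.br (nat_lit 8) (.br (nat_lit 5) (.ch (nat_lit 4) (.ev
 (nat_lit 848) (nat_lit 425738242) (.ev (nat_lit 2196) (nat_lit 256) (.ev (nat_lit 2516) (nat_lit 524288) (.ev
 (nat_lit 2525) (nat_lit 4) .dd))))) (.ch (nat_lit 5) (.ev (nat_lit 848) (nat_lit 155730182) (.ev (nat_lit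
 1782) (nat_lit 268435456) (.ev (nat_lit 1789) (nat_lit 2097152) .dd))))) (.br (nat_lit 11) (.ch (nat_lit 8)
 (.ev (nat_lit 848) (nat_lit 6832388) (.ev (nat_lit 1828) (nat_lit 2) (.ev (nat_lit 2880) (nat_lit 150994944)
 (.ev (nat_lit 2893) (nat_lit 268435456) .dd))))) (.br (nat_lit 12) (.ch (nat_lit 11) (.ev (nat_lit 848)
 (nat_lit 422068484) (.ev (nat_lit 2928) (nat_lit 4194304) (.ev (nat_lit 2941) (nat_lit 2) .dd)))) (.ch
 (nat_lit 12) (.ev (nat_lit 848) (nat_lit 425721862) (.ev (nat_lit 2448) (nat_lit 256) (.ev (nat_lit 2976)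
 (nat_lit 524288) (.ev (nat_lit 2989) (nat_lit 16384) .dd))))))))))))))) (.br (nat_lit 8) (.ch (nat_lit 7) (.ev
 (nat_lit 52) (nat_lit 689979712) (.ev (nat_lit 288) (nat_lit 382205974) .dd))) (.br (nat_lit 10) (.ch (nat_lit
 8) (.ev (nat_lit 52) (nat_lit 25165828) (.ev (nat_lit 212) (nat_lit 524288) (.ev (nat_lit 372) (nat_lit
 268435456) (.ev (nat_lit 404) (nat_lit 4194304) (.ev (nat_lit 660) (nat_lit 33554432) (.nd (nat_lit 832) (.br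
 (nat_lit 6) (.br (nat_lit 1) (.ch (nat_lit 0) (.ev (nat_lit 848) (nat_lit 671105362) (.ev (nat_lit 896)
 (nat_lit 69206016) .dd))) (.br (nat_lit 5) (.ch (nat_lit 1) (.ev (nat_lit 848) (nat_lit 606093394) (.ev
 (nat_lit 884) (nat_lit 256) (.ev (nat_lit 893) (nat_lit 134217728) .dd)))) (.ch (nat_lit 5) (.ev (nat_lit 848)
 (nat_lit 136331602) (.ev (nat_lit 884) (nat_lit 536870912) (.ev (nat_lit 893) (nat_lit 67108864) .dd))))))
 (.br (nat_lit 9) (.br (nat_lit 8) (.ch (nat_lit 6) (.ev (nat_lit 848) (nat_lit 16658) (.nd (nat_lit 3360) (.br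
 (nat_lit 4) (.ch (nat_lit 0) (.ev (nat_lit 3376) (nat_lit 740294656) (.ev (nat_lit 3389) (nat_lit 64) .dd)))
 (.br (nat_lit 12) (.ch (nat_lit 4) (.ev (nat_lit 3376) (nat_lit 2097152) (.ev (nat_lit 3620) (nat_lit
 134217728) (.ev (nat_lit 3828) (nat_lit 536870912) (.nd (nat_lit 3841) (.ch (nat_lit 30) (.nd (nat_lit 3872)
 (.br (nat_lit 9) (.ch (nat_lit 4) (.fin (nat_lit 576473396688667187))) (.ch (nat_lit 9) (.ev (nat_lit 3888)
 (nat_lit 67108928) .dd)))))))))) (.ch (nat_lit 12) (.ev (nat_lit 3376) (nat_lit 536870976) (.ev (nat_lit 3444)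
 (nat_lit 2097152) (.fin (nat_lit 576456904017396268)))))))))) (.ch (nat_lit 8) (.ev (nat_lit 848) (nat_lit
 16720) (.ev (nat_lit 2596) (nat_lit 536870912) (.ev (nat_lit 2676) (nat_lit 2097152) (.nd (nat_lit 3360) (.br
 (nat_lit 6) (.ch (nat_lit 5) (.ev (nat_lit 3376) (nat_lit 67108866) (.ev (nat_lit 3389) (nat_lit 134217728)
 .dd))) (.br (nat_lit 12) (.ch (nat_lit 6) (.ev (nat_lit 3376) (nat_lit 134217728) (.ev (nat_lit 3392) (nat_lit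
 2) (.ev (nat_lit 3405) (nat_lit 67108864) .dd)))) (.ch (nat_lit 12) (.ev (nat_lit 3476) (nat_lit 201326592)
 (.ev (nat_lit 3485) (nat_lit 2) .dd))))))))))) (.br (nat_lit 12) (.ch (nat_lit 9) (.ev (nat_lit 848) (nat_lit
 134234176) (.ev (nat_lit 1540) (nat_lit 256) (.ev (nat_lit 2772) (nat_lit 16) (.ev (nat_lit 3302) (nat_lit
 536870912) (.nd (nat_lit 3360) (.br (nat_lit 9) (.ch (nat_lit 2) (.ev (nat_lit 3376) (nat_lit 2097152) (.ev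
 (nat_lit 3620) (nat_lit 67108864) (.ev (nat_lit 3629) (nat_lit 2) .dd)))) (.br (nat_lit 11) (.ch (nat_lit 9)
 (.ev (nat_lit 3376) (nat_lit 69206018) .dd)) (.ch (nat_lit 11) (.ev (nat_lit 3476) (nat_lit 67108864) (.nd
 (nat_lit 3841) (.br (nat_lit 30) (.ch (nat_lit 8) (.nd (nat_lit 3904) (.br (nat_lit 5) (.ch (nat_lit 1) (.fin
 (nat_lit 576448107890819668))) (.ch (nat_lit 5) (.ev (nat_lit 3920) (nat_lit 2097154) .dd))))) (.ch (nat_lit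
 30) (.ev (nat_lit 3857) (nat_lit 2097154) .dd)))))))))))))) (.ch (nat_lit 12) (.ev (nat_lit 848) (nat_lit
 740294928) (.ev (nat_lit 2992) (nat_lit 16386) (.ev (nat_lit 3005) (nat_lit 64) .dd)))))))))))))) (.ch
 (nat_lit 10) (.ev (nat_lit 52) (nat_lit 514326544) (.ev (nat_lit 148) (nat_lit 16777216) (.ev (nat_lit 276)
 (nat_lit 536871168) (.ev (nat_lit 724) (nat_lit 16384) (.nd (nat_lit 832) (.br (nat_lit 8) (.br (nat_lit 4)
 (.ch (nat_lit 1) (.ev (nat_lit 2052) (nat_lit 64) (.ev (nat_lit 2100) (nat_lit 2) (.ev (nat_lit 3078) (nat_lit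
 4194308) .dd)))) (.br (nat_lit 5) (.ch (nat_lit 4) (.ev (nat_lit 848) (nat_lit 2) (.ev (nat_lit 884) (nat_lit
 64) (.ev (nat_lit 1254) (nat_lit 4194304) (.ev (nat_lit 1261) (nat_lit 4) .dd))))) (.ch (nat_lit 5) (.ev
 (nat_lit 848) (nat_lit 4194310) (.ev (nat_lit 861) (nat_lit 64) .dd))))) (.br (nat_lit 11) (.ch (nat_lit 8)
 (.ev (nat_lit 848) (nat_lit 4194368) (.ev (nat_lit 2372) (nat_lit 4) (.ev (nat_lit 2381) (nat_lit 2) .dd))))
 (.br (nat_lit 12) (.ch (nat_lit 11) (.ev (nat_lit 848) (nat_lit 68) (.ev (nat_lit 1668) (nat_lit 4194304) (.ev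
 (nat_lit 1677) (nat_lit 2) .dd)))) (.ch (nat_lit 12) (.ev (nat_lit 848) (nat_lit 4194372) (.ev (nat_lit 861)
 (nat_lit 2) .dd))))))))))))))) (.br (nat_lit 15) (.br (nat_lit 12) (.ch (nat_lit 11) (.ev (nat_lit 52)
 (nat_lit 293617664) (.ev (nat_lit 84) (nat_lit 2097152) (.ev (nat_lit 116) (nat_lit 524288) (.ev (nat_lit 276)
 (nat_lit 33554432) (.nd (nat_lit 832) (.br (nat_lit 5) (.br (nat_lit 1) (.ch (nat_lit 0) (.ev (nat_lit 848)
 (nat_lit 738197842) (.ev (nat_lit 1008) (nat_lit 4194308) .dd))) (.br (nat_lit 4) (.ch (nat_lit 1) (.ev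
 (nat_lit 848) (nat_lit 603980032) (.ev (nat_lit 2100) (nat_lit 134217728) (.ev (nat_lit 3060) (nat_lit
 4194304) (.ev (nat_lit 3092) (nat_lit 64) (.nd (nat_lit 3360) (.br (nat_lit 7) (.br (nat_lit 4) (.ch (nat_lit
 3) (.ev (nat_lit 3376) (nat_lit 16) (.nd (nat_lit 3841) (.br (nat_lit 32) (.ch (nat_lit 13) (.nd (nat_lit
 3936) (.ch (nat_lit 12) (.fin (nat_lit 576434913814200880))))) (.ch (nat_lit 32) (.ev (nat_lit 3857) (nat_lit
 6) .dd)))))) (.ch (nat_lit 4) (.ev (nat_lit 3376) (nat_lit 6) (.ev (nat_lit 3389) (nat_lit 16) .dd)))) (.br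
 (nat_lit 8) (.ch (nat_lit 7) (.ev (nat_lit 3376) (nat_lit 20) (.ev (nat_lit 3389) (nat_lit 2) .dd))) (.ch
 (nat_lit 8) (.ev (nat_lit 3376) (nat_lit 6) (.ev (nat_lit 3389) (nat_lit 16) .dd))))))))))) (.ch (nat_lit 4)
 (.ev (nat_lit 848) (nat_lit 134217792) (.ev (nat_lit 2100) (nat_lit 67108864) (.ev (nat_lit 2852) (nat_lit
 4194304) (.nd (nat_lit 3360) (.br (nat_lit 3) (.br (nat_lit 1) (.ch (nat_lit 0) (.ev (nat_lit 3376) (nat_lit
 274) (.ev (nat_lit 3444) (nat_lit 4) (.ev (nat_lit 3453) (nat_lit 536870912) .dd)))) (.ch (nat_lit 1) (.ev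
 (nat_lit 3376) (nat_lit 262) (.nd (nat_lit 3841) (.ch (nat_lit 36) (.nd (nat_lit 3872) (.br (nat_lit 6) (.ch
 (nat_lit 2) (.ev (nat_lit 3888) (nat_lit 536870928) .dd)) (.ch (nat_lit 6) (.fin (nat_lit
 576447008420086343)))))))))) (.br (nat_lit 4) (.ch (nat_lit 3) (.ev (nat_lit 3376) (nat_lit 536870932) (.ev
 (nat_lit 3476) (nat_lit 2) (.ev (nat_lit 3485) (nat_lit 256) .dd)))) (.ch (nat_lit 4) (.ev (nat_lit 3376)
 (nat_lit 536870934) (.ev (nat_lit 3389) (nat_lit 256) .dd)))))))))))) (.br (nat_lit 9) (.br (nat_lit 6) (.ch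
 (nat_lit 5) (.ev (nat_lit 848) (nat_lit 4194582) (.ev (nat_lit 1268) (nat_lit 64) (.ev (nat_lit 1700) (nat_lit
 536870912) (.ev (nat_lit 1748) (nat_lit 134217728) (.ev (nat_lit 1757) (nat_lit 67108864) .dd)))))) (.ch
 (nat_lit 6) (.ev (nat_lit 848) (nat_lit 536870930) (.ev (nat_lit 884) (nat_lit 256) (.ev (nat_lit 1236)
 (nat_lit 4194304) (.ev (nat_lit 1552) (nat_lit 67108864) (.ev (nat_lit 1972) (nat_lit 4) (.ev (nat_lit 2356)
 (nat_lit 134217728) (.ev (nat_lit 2365) (nat_lit 64) .dd))))))))) (.br (nat_lit 12) (.ch (nat_lit 9) (.ev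
 (nat_lit 848) (nat_lit 4194372) (.ev (nat_lit 2724) (nat_lit 134217728) (.nd (nat_lit 3360) (.br (nat_lit 9)
 (.ch (nat_lit 2) (.ev (nat_lit 3376) (nat_lit 16) (.ev (nat_lit 3588) (nat_lit 2) (.ev (nat_lit 3684) (nat_lit
 67108864) (.nd (nat_lit 3841) (.ch (nat_lit 17) (.nd (nat_lit 3872) (.ch (nat_lit 11) (.fin (nat_lit
 576461302042935864)))))))))) (.br (nat_lit 11) (.ch (nat_lit 9) (.ev (nat_lit 3376) (nat_lit 536870914) (.ev
 (nat_lit 3444) (nat_lit 67108864) (.ev (nat_lit 3732) (nat_lit 16) (.ev (nat_lit 3741) (nat_lit 256) .dd)))))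
 (.ch (nat_lit 11) (.ev (nat_lit 3376) (nat_lit 67108866) (.ev (nat_lit 3476) (nat_lit 16) (.ev (nat_lit 3488)
 (nat_lit 256) (.ev (nat_lit 3501) (nat_lit 536870912) .dd))))))))))) (.ch (nat_lit 12) (.ev (nat_lit 848)
 (nat_lit 742392150) .dd))))))))))) (.br (nat_lit 13) (.ch (nat_lit 12) (.ev (nat_lit 52) (nat_lit 1029701892)
 (.ev (nat_lit 212) (nat_lit 2) (.ev (nat_lit 308) (nat_lit 64) (.ev (nat_lit 340) (nat_lit 33554432) (.nd
 (nat_lit 832) (.br (nat_lit 8) (.br (nat_lit 4) (.br (nat_lit 1) (.ch (nat_lit 0) (.ev (nat_lit 848) (nat_lit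
 8912912) (.ev (nat_lit 861) (nat_lit 16384) .dd))) (.ch (nat_lit 1) (.ev (nat_lit 848) (nat_lit 524304) (.ev
 (nat_lit 1204) (nat_lit 16384) (.ev (nat_lit 1213) (nat_lit 8388608) .dd))))) (.br (nat_lit 6) (.ch (nat_lit
 4) (.ev (nat_lit 848) (nat_lit 8404992) (.ev (nat_lit 2660) (nat_lit 524288) (.ev (nat_lit 2669) (nat_lit 16)
 .dd)))) (.ch (nat_lit 6) (.ev (nat_lit 848) (nat_lit 8912912) (.ev (nat_lit 861) (nat_lit 16384) .dd))))) (.br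
 (nat_lit 11) (.br (nat_lit 9) (.ch (nat_lit 8) (.ev (nat_lit 848) (nat_lit 540672) (.fin (nat_lit
 576474496230703712)))) (.ch (nat_lit 9) (.ev (nat_lit 848) (nat_lit 540672) (.nd (nat_lit 3360) (.br (nat_lit
 11) (.ch (nat_lit 10) (.ev (nat_lit 3376) (nat_lit 16) (.ev (nat_lit 3389) (nat_lit 8388608) .dd))) (.ch
 (nat_lit 11) (.ev (nat_lit 3376) (nat_lit 8388608) (.ev (nat_lit 3389) (nat_lit 16) .dd)))))))) (.br (nat_lit
 12) (.ch (nat_lit 11) (.ev (nat_lit 848) (nat_lit 8912896) (.ev (nat_lit 884) (nat_lit 16384) (.ev (nat_lit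
 893) (nat_lit 16) .dd)))) (.ch (nat_lit 12) (.ev (nat_lit 848) (nat_lit 16) (.ev (nat_lit 964) (nat_lit
 8388608) (.ev (nat_lit 2516) (nat_lit 16384) (.ev (nat_lit 2525) (nat_lit 524288) .dd)))))))))))))) (.ch
 (nat_lit 13) (.ev (nat_lit 52) (nat_lit 71303488) (.ev (nat_lit 116) (nat_lit 2097152) (.ev (nat_lit 180)
 (nat_lit 524304) (.ev (nat_lit 564) (nat_lit 8388608) (.ev (nat_lit 596) (nat_lit 16384) (.nd (nat_lit 832)
 (.br (nat_lit 6) (.br (nat_lit 4) (.br (nat_lit 1) (.ch (nat_lit 0) (.ev (nat_lit 848) (nat_lit 805306370)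
 (.ev (nat_lit 2324) (nat_lit 134217728) (.ev (nat_lit 2912) (nat_lit 4) (.ev (nat_lit 2928) (nat_lit 50331648)
 .dd))))) (.ch (nat_lit 1) (.ev (nat_lit 848) (nat_lit 989855744) (.nd (nat_lit 3360) (.br (nat_lit 7) (.ch
 (nat_lit 3) (.fin (nat_lit 576434913814200880))) (.ch (nat_lit 7) (.ev (nat_lit 3392) (nat_lit 6) .dd)))))))
 (.br (nat_lit 5) (.ch (nat_lit 4) (.ev (nat_lit 848) (nat_lit 436207622) (.ev (nat_lit 2432) (nat_lit
 16777216) (.ev (nat_lit 2445) (nat_lit 536870912) .dd)))) (.ch (nat_lit 5) (.ev (nat_lit 848) (nat_lit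
 452984838) (.ev (nat_lit 861) (nat_lit 536870912) .dd))))) (.br (nat_lit 9) (.br (nat_lit 8) (.ch (nat_lit 6)
 (.ev (nat_lit 848) (nat_lit 822083586) (.ev (nat_lit 1028) (nat_lit 4) (.ev (nat_lit 2416) (nat_lit 134217728)
 (.ev (nat_lit 2429) (nat_lit 33554432) .dd))))) (.ch (nat_lit 8) (.ev (nat_lit 848) (nat_lit 184549376) (.ev
 (nat_lit 864) (nat_lit 268435456) (.nd (nat_lit 3360) (.br (nat_lit 12) (.ch (nat_lit 6) (.ev (nat_lit 3376)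
 (nat_lit 2) (.ev (nat_lit 3408) (nat_lit 536870916) .dd))) (.ch (nat_lit 12) (.ev (nat_lit 3376) (nat_lit
 536870916) (.ev (nat_lit 3389) (nat_lit 2) .dd))))))))) (.br (nat_lit 12) (.ch (nat_lit 9) (.ev (nat_lit 848)
 (nat_lit 16777220) (.ev (nat_lit 884) (nat_lit 268435456) (.ev (nat_lit 2304) (nat_lit 33554432) (.ev (nat_lit
 2960) (nat_lit 134217728) (.ev (nat_lit 3664) (nat_lit 2) (.ev (nat_lit 3677) (nat_lit 536870912) .dd)))))))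
 (.ch (nat_lit 12) (.ev (nat_lit 848) (nat_lit 989855748) (.ev (nat_lit 861) (nat_lit 2) .dd)))))))))))))))
 (.br (nat_lit 17) (.br (nat_lit 16) (.ch (nat_lit 15) (.ev (nat_lit 52) (nat_lit 23593026) (.ev (nat_lit 148)
 (nat_lit 4) (.ev (nat_lit 244) (nat_lit 8388608) (.ev (nat_lit 500) (nat_lit 536870912) (.nd (nat_lit 832)
 (.br (nat_lit 6) (.br (nat_lit 4) (.ch (nat_lit 0) (.ev (nat_lit 848) (nat_lit 335560976) (.ev (nat_lit 884)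
 (nat_lit 33554432) (.ev (nat_lit 893) (nat_lit 134217728) .dd)))) (.br (nat_lit 5) (.ch (nat_lit 4) (.ev
 (nat_lit 848) (nat_lit 436224272) (.ev (nat_lit 861) (nat_lit 67108864) .dd))) (.ch (nat_lit 5) (.ev (nat_lit
 848) (nat_lit 67125520) (.nd (nat_lit 3360) (.br (nat_lit 4) (.ch (nat_lit 1) (.ev (nat_lit 3376) (nat_lit
 33554432) (.ev (nat_lit 3444) (nat_lit 268435456) (.ev (nat_lit 3453) (nat_lit 134217728) .dd)))) (.br
 (nat_lit 12) (.ch (nat_lit 4) (.ev (nat_lit 3376) (nat_lit 268435456) (.ev (nat_lit 3508) (nat_lit 134217728)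
 (.ev (nat_lit 3517) (nat_lit 33554432) .dd)))) (.ch (nat_lit 12) (.ev (nat_lit 3376) (nat_lit 436207616)
 .dd))))))))) (.br (nat_lit 11) (.br (nat_lit 9) (.ch (nat_lit 6) (.ev (nat_lit 848) (nat_lit 16400) (.nd
 (nat_lit 3360) (.br (nat_lit 8) (.ch (nat_lit 3) (.ev (nat_lit 3376) (nat_lit 268435456) (.ev (nat_lit 3444)
 (nat_lit 33554432) (.ev (nat_lit 3488) (nat_lit 67108864) (.fin (nat_lit 576475595722408532)))))) (.br
 (nat_lit 12) (.ch (nat_lit 8) (.ev (nat_lit 3376) (nat_lit 469762048) (.ev (nat_lit 3392) (nat_lit 256) (.ev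
 (nat_lit 3405) (nat_lit 33554432) .dd)))) (.ch (nat_lit 12) (.ev (nat_lit 3376) (nat_lit 33554432) (.ev
 (nat_lit 3684) (nat_lit 268435456) (.ev (nat_lit 3732) (nat_lit 256) (.fin (nat_lit
 576456904017396268))))))))))) (.ch (nat_lit 9) (.ev (nat_lit 848) (nat_lit 100679952) (.ev (nat_lit 884)
 (nat_lit 268435456) (.ev (nat_lit 893) (nat_lit 134217728) .dd))))) (.br (nat_lit 12) (.ch (nat_lit 11) (.ev
 (nat_lit 848) (nat_lit 256) (.ev (nat_lit 1700) (nat_lit 16) (.ev (nat_lit 2020) (nat_lit 16384) (.nd (nat_lit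
 3360) (.br (nat_lit 4) (.ch (nat_lit 2) (.ev (nat_lit 3376) (nat_lit 167772160) (.fin (nat_lit
 576461302017770044)))) (.br (nat_lit 6) (.ch (nat_lit 4) (.ev (nat_lit 3376) (nat_lit 268435456) (.ev (nat_lit
 3732) (nat_lit 67108864) (.ev (nat_lit 3748) (nat_lit 33554432) (.ev (nat_lit 3757) (nat_lit 134217728)
 .dd))))) (.ch (nat_lit 6) (.ev (nat_lit 3376) (nat_lit 100663296) (.ev (nat_lit 3444) (nat_lit 268435456) (.ev
 (nat_lit 3453) (nat_lit 134217728) .dd))))))))))) (.ch (nat_lit 12) (.ev (nat_lit 848) (nat_lit 503316496)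
 (.fin (nat_lit 576443709869474345))))))))))))) (.ch (nat_lit 16) (.ev (nat_lit 52) (nat_lit 69206274) (.ev
 (nat_lit 64) (nat_lit 1002979412) .dd)))) (.br (nat_lit 18) (.ch (nat_lit 17) (.ev (nat_lit 52) (nat_lit
 855638020) (.ev (nat_lit 128) (nat_lit 216547666) .dd))) (.ch (nat_lit 18) (.ev (nat_lit 52) (nat_lit
 178782274) (.ev (nat_lit 180) (nat_lit 268435456) (.ev (nat_lit 468) (nat_lit 4194304) (.ev (nat_lit 564)
 (nat_lit 67108864) (.nd (nat_lit 832) (.br (nat_lit 5) (.br (nat_lit 4) (.ch (nat_lit 0) (.ev (nat_lit 848)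
 (nat_lit 536871184) (.ev (nat_lit 1028) (nat_lit 16384) (.ev (nat_lit 2448) (nat_lit 4) (.ev (nat_lit 2461)
 (nat_lit 16777216) .dd))))) (.ch (nat_lit 4) (.ev (nat_lit 848) (nat_lit 536887312) (.ev (nat_lit 1792)
 (nat_lit 256) (.ev (nat_lit 2644) (nat_lit 4) (.ev (nat_lit 2653) (nat_lit 16777216) .dd)))))) (.br (nat_lit
 9) (.ch (nat_lit 5) (.ev (nat_lit 848) (nat_lit 16793860) (.ev (nat_lit 2272) (nat_lit 16) (.ev (nat_lit 2285)
 (nat_lit 536870912) .dd)))) (.br (nat_lit 11) (.ch (nat_lit 9) (.ev (nat_lit 848) (nat_lit 16793860) (.ev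
 (nat_lit 2406) (nat_lit 536870912) (.ev (nat_lit 2413) (nat_lit 16) .dd)))) (.ch (nat_lit 11) (.ev (nat_lit
 848) (nat_lit 16793860) (.ev (nat_lit 2148) (nat_lit 16) (.ev (nat_lit 2157) (nat_lit 536870912)
 .dd))))))))))))))))) (.br (nat_lit 26) (.br (nat_lit 22) (.br (nat_lit 20) (.ch (nat_lit 19) (.ev (nat_lit 52)
 (nat_lit 75497792) (.ev (nat_lit 96) (nat_lit 996687894) .dd))) (.br (nat_lit 21) (.ch (nat_lit 20) (.ev
 (nat_lit 52) (nat_lit 54542420) (.ev (nat_lit 244) (nat_lit 536870912) (.ev (nat_lit 340) (nat_lit 134217728)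
 (.nd (nat_lit 832) (.br (nat_lit 9) (.br (nat_lit 6) (.ch (nat_lit 5) (.ev (nat_lit 848) (nat_lit 8913154)
 (.ev (nat_lit 2388) (nat_lit 268435456) (.ev (nat_lit 2704) (nat_lit 67108864) (.ev (nat_lit 2717) (nat_lit
 2097152) .dd))))) (.br (nat_lit 8) (.ch (nat_lit 6) (.ev (nat_lit 848) (nat_lit 344457474) (.ev (nat_lit 861)
 (nat_lit 2097152) .dd))) (.ch (nat_lit 8) (.ev (nat_lit 848) (nat_lit 11010304) (.ev (nat_lit 1460) (nat_lit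
 67108864) (.ev (nat_lit 1700) (nat_lit 268435456) (.ev (nat_lit 1709) (nat_lit 2) .dd))))))) (.br (nat_lit 11)
 (.ch (nat_lit 9) (.ev (nat_lit 848) (nat_lit 256) (.ev (nat_lit 884) (nat_lit 268435456) (.ev (nat_lit 2544)
 (nat_lit 8388608) (.ev (nat_lit 2816) (nat_lit 524288) (.nd (nat_lit 3360) (.br (nat_lit 10) (.ch (nat_lit 2)
 (.ev (nat_lit 3376) (nat_lit 67108864) (.ev (nat_lit 3392) (nat_lit 2097154) .dd))) (.br (nat_lit 11) (.ch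
 (nat_lit 10) (.ev (nat_lit 3376) (nat_lit 2) (.ev (nat_lit 3798) (nat_lit 67108864) (.ev (nat_lit 3805)
 (nat_lit 2097152) .dd)))) (.ch (nat_lit 11) (.ev (nat_lit 3376) (nat_lit 67108864) (.fin (nat_lit
 576448107890819668)))))))))))) (.br (nat_lit 12) (.ch (nat_lit 11) (.ev (nat_lit 848) (nat_lit 11010306) (.ev
 (nat_lit 2080) (nat_lit 335544320) .dd))) (.ch (nat_lit 12) (.ev (nat_lit 848) (nat_lit 346554368) (.ev
 (nat_lit 2790) (nat_lit 256) (.ev (nat_lit 2797) (nat_lit 2) .dd)))))))))))) (.ch (nat_lit 21) (.ev (nat_lit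
 52) (nat_lit 298319888) (.ev (nat_lit 116) (nat_lit 64) (.ev (nat_lit 308) (nat_lit 2097152) (.ev (nat_lit
 352) (nat_lit 771768582) .dd))))))) (.br (nat_lit 24) (.ch (nat_lit 22) (.ev (nat_lit 52) (nat_lit 839385090)
 (.ev (nat_lit 148) (nat_lit 2097152) (.ev (nat_lit 212) (nat_lit 16) (.ev (nat_lit 244) (nat_lit 256) (.ev
 (nat_lit 276) (nat_lit 67108864) (.ev (nat_lit 308) (nat_lit 16777216) (.ev (nat_lit 532) (nat_lit 16384) (.nd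
 (nat_lit 832) (.br (nat_lit 5) (.br (nat_lit 1) (.ch (nat_lit 0) (.ev (nat_lit 848) (nat_lit 146800704) (.ev
 (nat_lit 861) (nat_lit 4) .dd))) (.br (nat_lit 4) (.ch (nat_lit 1) (.ev (nat_lit 848) (nat_lit 134217792) (.ev
 (nat_lit 884) (nat_lit 4194304) (.ev (nat_lit 2036) (nat_lit 8388608) (.ev (nat_lit 2045) (nat_lit 4) .dd)))))
 (.ch (nat_lit 4) (.ev (nat_lit 848) (nat_lit 138412096) (.ev (nat_lit 884) (nat_lit 4) (.ev (nat_lit 893)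
 (nat_lit 8388608) .dd)))))) (.br (nat_lit 11) (.br (nat_lit 8) (.ch (nat_lit 5) (.ev (nat_lit 848) (nat_lit
 4194308) (.ev (nat_lit 2596) (nat_lit 64) (.ev (nat_lit 3142) (nat_lit 142606336) .dd)))) (.ch (nat_lit 8)
 (.ev (nat_lit 848) (nat_lit 146800708) .dd))) (.br (nat_lit 12) (.ch (nat_lit 11) (.ev (nat_lit 848) (nat_lit
 8388676) (.nd (nat_lit 3360) (.br (nat_lit 2) (.ch (nat_lit 1) (.ev (nat_lit 3376) (nat_lit 138412032) .dd))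
 (.br (nat_lit 6) (.ch (nat_lit 2) (.fin (nat_lit 576445908882244143))) (.ch (nat_lit 6) (.ev (nat_lit 3376)
 (nat_lit 4194304) (.ev (nat_lit 3389) (nat_lit 134217728) .dd)))))))) (.ch (nat_lit 12) (.ev (nat_lit 848)
 (nat_lit 146800708) .dd)))))))))))))) (.br (nat_lit 25) (.ch (nat_lit 24) (.ev (nat_lit 52) (nat_lit 21512192)
 (.ev (nat_lit 308) (nat_lit 2) (.nd (nat_lit 832) (.br (nat_lit 6) (.br (nat_lit 1) (.ch (nat_lit 0) (.ev
 (nat_lit 848) (nat_lit 849346900) (.ev (nat_lit 944) (nat_lit 201326592) .dd))) (.br (nat_lit 4) (.ch (nat_lit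
 1) (.ev (nat_lit 848) (nat_lit 740294672) (.ev (nat_lit 980) (nat_lit 256) (.ev (nat_lit 1172) (nat_lit 4)
 (.ev (nat_lit 1540) (nat_lit 8388608) (.nd (nat_lit 3360) (.br (nat_lit 7) (.ch (nat_lit 3) (.ev (nat_lit
 3376) (nat_lit 268435520) (.ev (nat_lit 3389) (nat_lit 33554432) .dd))) (.br (nat_lit 8) (.ch (nat_lit 7) (.ev
 (nat_lit 3376) (nat_lit 268435456) (.fin (nat_lit 576478894256243308)))) (.ch (nat_lit 8) (.ev (nat_lit 3376)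
 (nat_lit 33554432) (.ev (nat_lit 3444) (nat_lit 64) (.ev (nat_lit 3453) (nat_lit 268435456) .dd))))))))))))
 (.ch (nat_lit 4) (.ev (nat_lit 848) (nat_lit 503316480) (.ev (nat_lit 916) (nat_lit 8388608) (.ev (nat_lit
 3008) (nat_lit 64) (.nd (nat_lit 3360) (.br (nat_lit 3) (.ch (nat_lit 1) (.ev (nat_lit 3376) (nat_lit 2097152)
 (.ev (nat_lit 3444) (nat_lit 256) (.ev (nat_lit 3524) (nat_lit 4) (.nd (nat_lit 3841) (.br (nat_lit 18) (.ch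
 (nat_lit 4) (.nd (nat_lit 3872) (.br (nat_lit 6) (.ch (nat_lit 1) (.ev (nat_lit 3888) (nat_lit 536870912) (.ev
 (nat_lit 3901) (nat_lit 16) .dd))) (.ch (nat_lit 6) (.fin (nat_lit 576447008420086343)))))) (.ch (nat_lit 18)
 (.ev (nat_lit 3857) (nat_lit 536870928) .dd)))))))) (.br (nat_lit 4) (.ch (nat_lit 3) (.ev (nat_lit 3376)
 (nat_lit 536871168) (.ev (nat_lit 3444) (nat_lit 2097152) (.ev (nat_lit 3476) (nat_lit 4) (.ev (nat_lit 3485)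
 (nat_lit 16) .dd))))) (.ch (nat_lit 4) (.ev (nat_lit 3376) (nat_lit 536870916) (.ev (nat_lit 3444) (nat_lit
 2097152) (.ev (nat_lit 3476) (nat_lit 256) (.ev (nat_lit 3485) (nat_lit 16) .dd)))))))))))))) (.br (nat_lit
 11) (.br (nat_lit 8) (.ch (nat_lit 6) (.ev (nat_lit 848) (nat_lit 8388628) (.nd (nat_lit 3360) (.br (nat_lit
 10) (.br (nat_lit 5) (.ch (nat_lit 4) (.ev (nat_lit 3376) (nat_lit 102760768) (.ev (nat_lit 3540) (nat_lit
 134217728) (.ev (nat_lit 3558) (nat_lit 805306368) .dd)))) (.ch (nat_lit 5) (.ev (nat_lit 3376) (nat_lit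
 1006633024) (.ev (nat_lit 3702) (nat_lit 33554688) (.ev (nat_lit 3709) (nat_lit 2097152) .dd))))) (.br
 (nat_lit 12) (.ch (nat_lit 10) (.ev (nat_lit 3376) (nat_lit 505413888) (.ev (nat_lit 3444) (nat_lit 64) (.ev
 (nat_lit 3453) (nat_lit 536870912) .dd)))) (.ch (nat_lit 12) (.ev (nat_lit 3376) (nat_lit 973078848) (.ev
 (nat_lit 3444) (nat_lit 67108864) (.ev (nat_lit 3453) (nat_lit 2097152) .dd))))))))) (.ch (nat_lit 8) (.ev
 (nat_lit 848) (nat_lit 301990208) (.ev (nat_lit 916) (nat_lit 8388608) (.ev (nat_lit 1856) (nat_lit 67108864)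
 (.ev (nat_lit 3270) (nat_lit 536870912) (.nd (nat_lit 3360) (.br (nat_lit 6) (.ch (nat_lit 5) (.ev (nat_lit
 3376) (nat_lit 2097168) (.ev (nat_lit 3476) (nat_lit 134217728) (.ev (nat_lit 3485) (nat_lit 4) .dd)))) (.br
 (nat_lit 8) (.ch (nat_lit 6) (.ev (nat_lit 3376) (nat_lit 136314880) (.ev (nat_lit 3476) (nat_lit 4) (.ev
 (nat_lit 3485) (nat_lit 16) .dd)))) (.ch (nat_lit 8) (.ev (nat_lit 3444) (nat_lit 134217728) (.ev (nat_lit
 3636) (nat_lit 16) (.nd (nat_lit 3841) (.ch (nat_lit 14) (.nd (nat_lit 3872) (.br (nat_lit 8) (.ch (nat_lit 0)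
 (.ev (nat_lit 3888) (nat_lit 2097152) (.ev (nat_lit 3901) (nat_lit 4) .dd))) (.ch (nat_lit 8) (.fin (nat_lit
 576449207439147596))))))))))))))))))) (.br (nat_lit 12) (.ch (nat_lit 11) (.ev (nat_lit 848) (nat_lit
 538968388) (.ev (nat_lit 1044) (nat_lit 134217728) (.ev (nat_lit 1140) (nat_lit 16) (.ev (nat_lit 2100)
 (nat_lit 8388608) (.ev (nat_lit 3286) (nat_lit 33554432) (.nd (nat_lit 3360) (.br (nat_lit 2) (.ch (nat_lit 1)
 (.ev (nat_lit 3376) (nat_lit 268435456) (.ev (nat_lit 3389) (nat_lit 67108864) .dd))) (.br (nat_lit 6) (.ch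
 (nat_lit 2) (.fin (nat_lit 576461302017770044))) (.ch (nat_lit 6) (.ev (nat_lit 3376) (nat_lit 67108864) (.ev
 (nat_lit 3389) (nat_lit 268435456) .dd)))))))))))) (.ch (nat_lit 12) (.ev (nat_lit 848) (nat_lit 1050673172)
 (.ev (nat_lit 1008) (nat_lit 320) .dd)))))))))) (.ch (nat_lit 25) (.ev (nat_lit 52) (nat_lit 538984786) (.ev
 (nat_lit 148) (nat_lit 268435456) (.ev (nat_lit 532) (nat_lit 4194304) (.ev (nat_lit 660) (nat_lit 8388608)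
 (.nd (nat_lit 832) (.br (nat_lit 6) (.br (nat_lit 4) (.ch (nat_lit 0) (.ev (nat_lit 848) (nat_lit 167772160)
 (.ev (nat_lit 884) (nat_lit 83886080) (.ev (nat_lit 1348) (nat_lit 4) (.ev (nat_lit 1357) (nat_lit 524288)
 .dd))))) (.ch (nat_lit 4) (.ev (nat_lit 848) (nat_lit 167772160) (.ev (nat_lit 1376) (nat_lit 67108864) (.ev
 (nat_lit 1748) (nat_lit 4) (.nd (nat_lit 3360) (.br (nat_lit 12) (.ch (nat_lit 3) (.ev (nat_lit 3376) (nat_lit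
 17301504) .dd)) (.ch (nat_lit 12) (.fin (nat_lit 576462401572389440)))))))))) (.br (nat_lit 8) (.ch (nat_lit
 6) (.ev (nat_lit 848) (nat_lit 201850884) (.ev (nat_lit 1364) (nat_lit 16777216) (.ev (nat_lit 1373) (nat_lit
 33554432) .dd)))) (.br (nat_lit 12) (.ch (nat_lit 8) (.ev (nat_lit 848) (nat_lit 50855936) (.nd (nat_lit 3360)
 (.br (nat_lit 8) (.br (nat_lit 6) (.ch (nat_lit 2) (.ev (nat_lit 3376) (nat_lit 134217732) (.ev (nat_lit 3389)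
 (nat_lit 67108864) .dd))) (.ch (nat_lit 6) (.ev (nat_lit 3376) (nat_lit 4) (.ev (nat_lit 3588) (nat_lit
 67108864) (.ev (nat_lit 3597) (nat_lit 134217728) .dd))))) (.br (nat_lit 12) (.ch (nat_lit 8) (.ev (nat_lit
 3376) (nat_lit 67108864) (.ev (nat_lit 3524) (nat_lit 134217728) (.ev (nat_lit 3533) (nat_lit 4) .dd)))) (.ch
 (nat_lit 12) (.ev (nat_lit 3376) (nat_lit 67108864) (.ev (nat_lit 3456) (nat_lit 134217732) .dd)))))))) (.ch
 (nat_lit 12) (.ev (nat_lit 848) (nat_lit 251658244) (.ev (nat_lit 861) (nat_lit 524288) .dd)))))))))))))))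
 (.br (nat_lit 30) (.br (nat_lit 27) (.ch (nat_lit 26) (.ev (nat_lit 52) (nat_lit 119537670) (.ev (nat_lit 84)
 (nat_lit 524288) (.ev (nat_lit 148) (nat_lit 16) (.ev (nat_lit 468) (nat_lit 16384) (.nd (nat_lit 832) (.br
 (nat_lit 6) (.br (nat_lit 4) (.ch (nat_lit 0) (.ev (nat_lit 848) (nat_lit 952107328) .dd)) (.br (nat_lit 5)
 (.ch (nat_lit 4) (.ev (nat_lit 848) (nat_lit 952107008) (.ev (nat_lit 1334) (nat_lit 64) (.ev (nat_lit 1341)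
 (nat_lit 256) .dd)))) (.ch (nat_lit 5) (.ev (nat_lit 848) (nat_lit 146800896) (.ev (nat_lit 884) (nat_lit
 536870912) (.ev (nat_lit 1732) (nat_lit 268435456) (.ev (nat_lit 1741) (nat_lit 64) .dd))))))) (.br (nat_lit
 9) (.ch (nat_lit 6) (.ev (nat_lit 848) (nat_lit 8388608) (.ev (nat_lit 3188) (nat_lit 4194304) (.nd (nat_lit
 3360) (.br (nat_lit 4) (.br (nat_lit 3) (.ch (nat_lit 0) (.ev (nat_lit 3376) (nat_lit 134218048) (.fin
 (nat_lit 576448107941151256)))) (.ch (nat_lit 3) (.ev (nat_lit 3376) (nat_lit 805306432) (.fin (nat_lit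
 576475595722408532))))) (.br (nat_lit 5) (.ch (nat_lit 4) (.ev (nat_lit 3376) (nat_lit 256) (.ev (nat_lit
 3444) (nat_lit 268435456) (.ev (nat_lit 3540) (nat_lit 64) (.ev (nat_lit 3568) (nat_lit 671088640) .dd)))))
 (.br (nat_lit 8) (.ch (nat_lit 5) (.ev (nat_lit 3376) (nat_lit 939524096) (.ev (nat_lit 3476) (nat_lit 64)
 (.ev (nat_lit 3485) (nat_lit 256) .dd)))) (.ch (nat_lit 8) (.ev (nat_lit 3376) (nat_lit 402653504) (.ev
 (nat_lit 3389) (nat_lit 536870912) .dd)))))))))) (.br (nat_lit 11) (.ch (nat_lit 9) (.ev (nat_lit 848)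
 (nat_lit 138412096) (.ev (nat_lit 2852) (nat_lit 268435456) (.nd (nat_lit 3360) (.br (nat_lit 10) (.ch
 (nat_lit 2) (.ev (nat_lit 3376) (nat_lit 8388608) (.fin (nat_lit 576461302042935864)))) (.ch (nat_lit 10) (.ev
 (nat_lit 3444) (nat_lit 8388608) (.ev (nat_lit 3456) (nat_lit 536871168) .dd)))))))) (.ch (nat_lit 11) (.ev
 (nat_lit 848) (nat_lit 813695296) (.nd (nat_lit 3360) (.br (nat_lit 3) (.br (nat_lit 2) (.ch (nat_lit 1) (.ev
 (nat_lit 3376) (nat_lit 134217728) (.ev (nat_lit 3389) (nat_lit 4194304) .dd))) (.ch (nat_lit 2) (.fin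
 (nat_lit 576445908882244143)))) (.br (nat_lit 4) (.ch (nat_lit 3) (.ev (nat_lit 3376) (nat_lit 138412032)
 .dd)) (.ch (nat_lit 4) (.ev (nat_lit 3376) (nat_lit 138412032) .dd)))))))))))))))) (.br (nat_lit 29) (.ch
 (nat_lit 27) (.ev (nat_lit 52) (nat_lit 675807302) (.ev (nat_lit 212) (nat_lit 16777216) (.ev (nat_lit 276)
 (nat_lit 8388608) (.ev (nat_lit 308) (nat_lit 268435456) (.ev (nat_lit 500) (nat_lit 67108864) (.ev (nat_lit
 816) (nat_lit 2097152) (.nd (nat_lit 832) (.br (nat_lit 9) (.br (nat_lit 6) (.ch (nat_lit 5) (.ev (nat_lit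
 848) (nat_lit 16640) (.ev (nat_lit 1828) (nat_lit 16) (.ev (nat_lit 1837) (nat_lit 33554432) .dd)))) (.br
 (nat_lit 8) (.ch (nat_lit 6) (.ev (nat_lit 848) (nat_lit 16656) (.ev (nat_lit 861) (nat_lit 33554432) .dd)))
 (.ch (nat_lit 8) (.ev (nat_lit 848) (nat_lit 33571088) .dd)))) (.br (nat_lit 11) (.ch (nat_lit 9) (.ev
 (nat_lit 848) (nat_lit 16400) (.ev (nat_lit 2214) (nat_lit 256) (.ev (nat_lit 2221) (nat_lit 33554432) .dd))))
 (.br (nat_lit 12) (.ch (nat_lit 11) (.ev (nat_lit 848) (nat_lit 33554704) (.ev (nat_lit 861) (nat_lit 16384)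
 .dd))) (.ch (nat_lit 12) (.ev (nat_lit 848) (nat_lit 33554448) (.fin (nat_lit
 576443709869474345))))))))))))))) (.ch (nat_lit 29) (.ev (nat_lit 52) (nat_lit 4718594) (.ev (nat_lit 84)
 (nat_lit 16777216) (.ev (nat_lit 692) (nat_lit 16384) (.nd (nat_lit 832) (.br (nat_lit 6) (.br (nat_lit 1)
 (.ch (nat_lit 0) (.ev (nat_lit 848) (nat_lit 880804180) (.ev (nat_lit 864) (nat_lit 33554432) (.ev (nat_lit
 1120) (nat_lit 136314880) .dd)))) (.br (nat_lit 5) (.ch (nat_lit 1) (.ev (nat_lit 848) (nat_lit 1017118740)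
 (.ev (nat_lit 864) (nat_lit 33554432) (.ev (nat_lit 1156) (nat_lit 256) (.ev (nat_lit 1165) (nat_lit 64)
 .dd))))) (.ch (nat_lit 5) (.ev (nat_lit 848) (nat_lit 69206276) (.ev (nat_lit 884) (nat_lit 536870912) (.ev
 (nat_lit 2100) (nat_lit 33554432) (.ev (nat_lit 2244) (nat_lit 8388608) (.ev (nat_lit 2724) (nat_lit 16) (.nd
 (nat_lit 3360) (.br (nat_lit 8) (.ch (nat_lit 1) (.ev (nat_lit 3444) (nat_lit 134217728) (.ev (nat_lit 3508)
 (nat_lit 268435456) (.ev (nat_lit 3517) (nat_lit 64) .dd)))) (.ch (nat_lit 8) (.ev (nat_lit 3376) (nat_lit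
 134217728) (.ev (nat_lit 3444) (nat_lit 268435456) (.ev (nat_lit 3453) (nat_lit 64) .dd)))))))))))))) (.br
 (nat_lit 8) (.ch (nat_lit 6) (.ev (nat_lit 848) (nat_lit 178257936) (.ev (nat_lit 1712) (nat_lit 256) (.ev
 (nat_lit 3028) (nat_lit 4) (.nd (nat_lit 3360) (.br (nat_lit 7) (.br (nat_lit 4) (.ch (nat_lit 0) (.ev
 (nat_lit 3376) (nat_lit 67108864) (.ev (nat_lit 3508) (nat_lit 64) (.fin (nat_lit 576448107941151256))))) (.ch
 (nat_lit 4) (.ev (nat_lit 3636) (nat_lit 268435456) (.ev (nat_lit 3684) (nat_lit 536870912) (.nd (nat_lit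
 3841) (.br (nat_lit 35) (.ch (nat_lit 12) (.ev (nat_lit 3857) (nat_lit 67108928) .dd)) (.ch (nat_lit 35) (.nd
 (nat_lit 3872) (.br (nat_lit 4) (.ch (nat_lit 2) (.ev (nat_lit 3888) (nat_lit 67108864) (.ev (nat_lit 3901)
 (nat_lit 64) .dd))) (.ch (nat_lit 4) (.fin (nat_lit 576473396688667187)))))))))))) (.br (nat_lit 10) (.ch
 (nat_lit 7) (.ev (nat_lit 3376) (nat_lit 805306432) (.ev (nat_lit 3389) (nat_lit 67108864) .dd))) (.ch
 (nat_lit 10) (.ev (nat_lit 3376) (nat_lit 335544320) (.ev (nat_lit 3444) (nat_lit 536870912) (.ev (nat_lit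
 3453) (nat_lit 64) .dd))))))))))) (.br (nat_lit 9) (.ch (nat_lit 8) (.ev (nat_lit 848) (nat_lit 838861120)
 (.ev (nat_lit 1408) (nat_lit 134217728) (.ev (nat_lit 2244) (nat_lit 67108864) (.nd (nat_lit 3360) (.br
 (nat_lit 8) (.br (nat_lit 5) (.ch (nat_lit 2) (.ev (nat_lit 3376) (nat_lit 8388612) (.ev (nat_lit 3444)
 (nat_lit 16) (.ev (nat_lit 3453) (nat_lit 2097152) .dd)))) (.ch (nat_lit 5) (.ev (nat_lit 3376) (nat_lit
 10485776) (.ev (nat_lit 3389) (nat_lit 4) .dd)))) (.br (nat_lit 12) (.ch (nat_lit 8) (.ev (nat_lit 3780)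
 (nat_lit 8388608) (.ev (nat_lit 3828) (nat_lit 16) (.nd (nat_lit 3841) (.ch (nat_lit 9) (.nd (nat_lit 3872)
 (.br (nat_lit 10) (.ch (nat_lit 8) (.fin (nat_lit 576473396682375732))) (.ch (nat_lit 10) (.ev (nat_lit 3888)
 (nat_lit 4) (.ev (nat_lit 3901) (nat_lit 2097152) .dd)))))))))) (.ch (nat_lit 12) (.ev (nat_lit 3376) (nat_lit
 4) (.ev (nat_lit 3508) (nat_lit 2097152) (.fin (nat_lit 576474496230703712)))))))))))) (.ch (nat_lit 9) (.ev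
 (nat_lit 848) (nat_lit 201326660) (.ev (nat_lit 884) (nat_lit 16) (.ev (nat_lit 1540) (nat_lit 33554432) (.ev
 (nat_lit 2020) (nat_lit 536870912) (.ev (nat_lit 3028) (nat_lit 268435456) (.nd (nat_lit 3360) (.br (nat_lit
 10) (.ch (nat_lit 3) (.ev (nat_lit 3376) (nat_lit 256) (.ev (nat_lit 3456) (nat_lit 8388608) (.ev (nat_lit
 3469) (nat_lit 2097152) .dd)))) (.ch (nat_lit 10) (.ev (nat_lit 3540) (nat_lit 256) (.ev (nat_lit 3620)
 (nat_lit 8388608) (.ev (nat_lit 3629) (nat_lit 2097152) .dd)))))))))))))))))))))) (.br (nat_lit 35) (.br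
 (nat_lit 33) (.ch (nat_lit 30) (.ev (nat_lit 52) (nat_lit 881344786) (.ev (nat_lit 180) (nat_lit 4) (.ev
 (nat_lit 212) (nat_lit 2097152) (.ev (nat_lit 244) (nat_lit 134217728) (.nd (nat_lit 832) (.br (nat_lit 6)
 (.br (nat_lit 4) (.br (nat_lit 1) (.ch (nat_lit 0) (.ev (nat_lit 848) (nat_lit 4194368) (.ev (nat_lit 884)
 (nat_lit 16777216) (.ev (nat_lit 893) (nat_lit 33554432) .dd)))) (.ch (nat_lit 1) (.ev (nat_lit 848) (nat_lit
 20971520) (.fin (nat_lit 576478894256243308))))) (.br (nat_lit 5) (.ch (nat_lit 4) (.ev (nat_lit 848) (nat_lit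
 33554432) (.ev (nat_lit 1028) (nat_lit 64) (.ev (nat_lit 2416) (nat_lit 4194304) (.ev (nat_lit 2429) (nat_lit
 16777216) .dd))))) (.ch (nat_lit 5) (.ev (nat_lit 848) (nat_lit 20971520) (.nd (nat_lit 3360) (.br (nat_lit 8)
 (.ch (nat_lit 4) (.ev (nat_lit 3376) (nat_lit 33554432) (.ev (nat_lit 3389) (nat_lit 64) .dd))) (.ch (nat_lit
 8) (.ev (nat_lit 3376) (nat_lit 64) (.ev (nat_lit 3389) (nat_lit 33554432) .dd))))))))) (.br (nat_lit 11) (.br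
 (nat_lit 8) (.ch (nat_lit 6) (.ev (nat_lit 848) (nat_lit 37748800) (.ev (nat_lit 861) (nat_lit 16777216)
 .dd))) (.ch (nat_lit 8) (.ev (nat_lit 848) (nat_lit 37748800) (.ev (nat_lit 861) (nat_lit 16777216) .dd))))
 (.br (nat_lit 12) (.ch (nat_lit 11) (.ev (nat_lit 848) (nat_lit 16777280) (.ev (nat_lit 2960) (nat_lit
 4194304) (.ev (nat_lit 2973) (nat_lit 33554432) .dd)))) (.ch (nat_lit 12) (.ev (nat_lit 848) (nat_lit
 37748736) (.ev (nat_lit 1956) (nat_lit 16777216) (.ev (nat_lit 1965) (nat_lit 64) .dd))))))))))))) (.ch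
 (nat_lit 33) (.ev (nat_lit 52) (nat_lit 222822404) (.ev (nat_lit 116) (nat_lit 268435456) (.ev (nat_lit 180)
 (nat_lit 64) (.ev (nat_lit 436) (nat_lit 256) (.ev (nat_lit 500) (nat_lit 8388608) (.ev (nat_lit 564) (nat_lit
 536870912) (.ev (nat_lit 628) (nat_lit 33554432) (.ev (nat_lit 736) (nat_lit 16) (.nd (nat_lit 832) (.br
 (nat_lit 6) (.br (nat_lit 1) (.ch (nat_lit 0) (.ev (nat_lit 848) (nat_lit 2097154) (.ev (nat_lit 861) (nat_lit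
 16384) .dd))) (.ch (nat_lit 1) (.ev (nat_lit 848) (nat_lit 2097154) (.ev (nat_lit 861) (nat_lit 16384) .dd))))
 (.br (nat_lit 11) (.ch (nat_lit 6) (.ev (nat_lit 848) (nat_lit 2) (.ev (nat_lit 2756) (nat_lit 16384) (.ev
 (nat_lit 2765) (nat_lit 2097152) .dd)))) (.br (nat_lit 12) (.ch (nat_lit 11) (.ev (nat_lit 848) (nat_lit
 2113536) (.ev (nat_lit 861) (nat_lit 2) .dd))) (.ch (nat_lit 12) (.ev (nat_lit 848) (nat_lit 2113536) (.ev
 (nat_lit 861) (nat_lit 2) .dd))))))))))))))))) (.br (nat_lit 36) (.ch (nat_lit 35) (.ev (nat_lit 52) (nat_lit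
 134218052) (.ev (nat_lit 84) (nat_lit 2) (.ev (nat_lit 192) (nat_lit 937967632) .dd)))) (.ch (nat_lit 36) (.ev
 (nat_lit 52) (nat_lit 507527188) (.ev (nat_lit 180) (nat_lit 2) (.ev (nat_lit 372) (nat_lit 64) (.nd (nat_lit
 832) (.br (nat_lit 4) (.br (nat_lit 1) (.ch (nat_lit 0) (.ev (nat_lit 848) (nat_lit 545784064) (.ev (nat_lit
 1668) (nat_lit 16777216) (.ev (nat_lit 1677) (nat_lit 2097152) .dd)))) (.ch (nat_lit 1) (.ev (nat_lit 848)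
 (nat_lit 564134144) (.ev (nat_lit 861) (nat_lit 524288) .dd)))) (.br (nat_lit 9) (.ch (nat_lit 4) (.ev
 (nat_lit 848) (nat_lit 538968064) (.ev (nat_lit 1680) (nat_lit 256) (.ev (nat_lit 2740) (nat_lit 8388608) (.nd
 (nat_lit 3360) (.br (nat_lit 12) (.ch (nat_lit 4) (.ev (nat_lit 3376) (nat_lit 17301504) .dd)) (.ch (nat_lit
 12) (.fin (nat_lit 576462401572389440))))))))) (.br (nat_lit 12) (.ch (nat_lit 9) (.ev (nat_lit 848) (nat_lit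
 19398656) (.nd (nat_lit 3360) (.br (nat_lit 10) (.br (nat_lit 3) (.ch (nat_lit 2) (.ev (nat_lit 3376) (nat_lit
 545259520) (.ev (nat_lit 3389) (nat_lit 256) .dd))) (.ch (nat_lit 3) (.ev (nat_lit 3376) (nat_lit 256) (.ev
 (nat_lit 3456) (nat_lit 545259520) .dd)))) (.br (nat_lit 11) (.ch (nat_lit 10) (.ev (nat_lit 3376) (nat_lit
 545259520) (.ev (nat_lit 3389) (nat_lit 256) .dd))) (.ch (nat_lit 11) (.ev (nat_lit 3376) (nat_lit 256) (.ev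
 (nat_lit 3476) (nat_lit 536870912) (.ev (nat_lit 3485) (nat_lit 8388608) .dd))))))))) (.ch (nat_lit 12) (.ev
 (nat_lit 848) (nat_lit 538968064) (.ev (nat_lit 884) (nat_lit 16777472) (.ev (nat_lit 1648) (nat_lit 8388608)
 (.ev (nat_lit 1661) (nat_lit 524288) .dd))))))))))))))))))))

/-- The trie. -/
noncomputable def T : Tr := .nd (nat_lit 1000000) (.br (nat_lit 3) (.br (nat_lit 1) (.ch (nat_lit 0) (.ev
 (nat_lit 0) (nat_lit 2147483647) .dd)) (.br (nat_lit 2) (.ch (nat_lit 1) (.ev (nat_lit 0) (nat_lit 2147483647)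
 .dd)) (.ch (nat_lit 2) T2))) (.br (nat_lit 4) (.ch (nat_lit 3) (.ev (nat_lit 0) (nat_lit 2147483647) .dd))
 (.br (nat_lit 5) (.ch (nat_lit 4) T4) (.ch (nat_lit 5) T5))))

/-- The possible values. -/
noncomputable def oks : List ℕ := [3, 178, 706, 987, 1140, 3394]

/-- The parameters. -/
noncomputable def S : Pr := ⟨fun i l e => lget mz (lget [] (lget [] tabs i) l) e, oks, [(nat_lit 0), (nat_lit
 1), (nat_lit 0), (nat_lit 0), (nat_lit 1), (nat_lit 0)], T, (nat_lit 2147483647), (nat_lit 1073946281),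
 (nat_lit 31), [(nat_lit 11), (nat_lit 23899161165)], [(nat_lit 4826809), (nat_lit 1874161)]⟩

/-- Nothing known. -/
noncomputable def cs0 : Cs := (.cons (nat_lit 13) (nat_lit 0) (nat_lit 1) (.cons (nat_lit 37) (nat_lit 0) (nat_lit 1) .nil))

theorem part_2 : part S cs0 (nat_lit 2) = true := by decide +kernel

theorem part_4 : part S cs0 (nat_lit 4) = true := by decide +kernel

theorem part_5 : part S cs0 (nat_lit 5) = true := by decide +kernel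

/-- Data of a prime. -/
noncomputable def D0 : PD := ⟨(nat_lit 13), (nat_lit 6), (2731834, 6, 3), (3031204, 4036787, 560186), (3718172, 4072320, 1281671)⟩

theorem D0_ok : D0.Ok := pdb_sound (s := 2) (C := ⟨⟨3, 18, -4, -17, 2, 1, 2, -1, -7⟩, (3, 9, 2)⟩) (by show Nat.Prime 13; norm_num) (by decide +kernel)

/-- Lines of the first type. -/
noncomputable def Cl0 : List C1 := [⟨⟨17, -2, -16, 3, 18, 1, -2, 1, -5⟩, (10, 1, 8)⟩,
  ⟨⟨3, -18, -4, -17, -2, 1, 2, 1, -7⟩, (5, 2, 12)⟩,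
  ⟨⟨0, 0, 0, 0, 0, 0, 0, 0, 0⟩, (0, 0, 0)⟩,
  ⟨⟨17, 2, -16, 3, -18, 1, -2, -1, -5⟩, (8, 6, 9)⟩,
  ⟨⟨0, 0, 0, 0, 0, 0, 0, 0, 0⟩, (0, 0, 0)⟩,
  ⟨⟨0, 0, 0, 0, 0, 0, 0, 0, 0⟩, (0, 0, 0)⟩,
  ⟨⟨0, 0, 0, 0, 0, 0, 0, 0, 0⟩, (0, 0, 0)⟩,
  ⟨⟨0, 0, 0, 0, 0, 0, 0, 0, 0⟩, (0, 0, 0)⟩,
  ⟨⟨0, 0, 0, 0, 0, 0, 0, 0, 0⟩, (0, 0, 0)⟩,
  ⟨⟨0, 0, 0, 0, 0, 0, 0, 0, 0⟩, (0, 0, 0)⟩,
  ⟨⟨0, 0, 0, 0, 0, 0, 0, 0, 0⟩, (0, 0, 0)⟩,
  ⟨⟨0, 0, 0, 0, 0, 0, 0, 0, 0⟩, (0, 0, 0)⟩,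
  ⟨⟨0, 0, 0, 0, 0, 0, 0, 0, 0⟩, (0, 0, 0)⟩]

/-- Data of a prime. -/
noncomputable def D1 : PD := ⟨(nat_lit 37), (nat_lit 4), (1164206, 16, 5), (290098, 1020852, 1005947), (112988, 1391410, 1055966)⟩

theorem D1_ok : D1.Ok := pdb_sound (s := 2) (C := ⟨⟨43, 22, -44, 23, -2, 41, 6, -15, -7⟩, (6, 23, 6)⟩) (by show Nat.Prime 37; norm_num) (by decide +kernel)

/-- Lines of the first type. -/
noncomputable def Cl1 : List C1 := [⟨⟨23, -2, -64, 43, 22, 1, -6, 15, -1⟩, (31, 29, 8)⟩,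
  ⟨⟨0, 0, 0, 0, 0, 0, 0, 0, 0⟩, (0, 0, 0)⟩,
  ⟨⟨-7, 22, -49, 27, 42, 4, 14, -7, -13⟩, (1, 12, 35)⟩,
  ⟨⟨-13, 38, -31, -47, -22, 16, 6, -9, -17⟩, (20, 4, 5)⟩,
  ⟨⟨0, 0, 0, 0, 0, 0, 0, 0, 0⟩, (0, 0, 0)⟩,
  ⟨⟨0, 0, 0, 0, 0, 0, 0, 0, 0⟩, (0, 0, 0)⟩,
  ⟨⟨7, 22, -56, -27, 42, 31, 14, 7, -1⟩, (18, 31, 36)⟩,
  ⟨⟨0, 0, 0, 0, 0, 0, 0, 0, 0⟩, (0, 0, 0)⟩,
  ⟨⟨0, 0, 0, 0, 0, 0, 0, 0, 0⟩, (0, 0, 0)⟩,
  ⟨⟨13, -38, -44, -47, -22, 31, -6, 9, -11⟩, (18, 26, 23)⟩,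
  ⟨⟨0, 0, 0, 0, 0, 0, 0, 0, 0⟩, (0, 0, 0)⟩,
  ⟨⟨0, 0, 0, 0, 0, 0, 0, 0, 0⟩, (0, 0, 0)⟩,
  ⟨⟨0, 0, 0, 0, 0, 0, 0, 0, 0⟩, (0, 0, 0)⟩,
  ⟨⟨0, 0, 0, 0, 0, 0, 0, 0, 0⟩, (0, 0, 0)⟩,
  ⟨⟨13, 38, -44, -47, 22, 31, -6, -9, -11⟩, (4, 14, 1)⟩,
  ⟨⟨0, 0, 0, 0, 0, 0, 0, 0, 0⟩, (0, 0, 0)⟩,
  ⟨⟨0, 0, 0, 0, 0, 0, 0, 0, 0⟩, (0, 0, 0)⟩,
  ⟨⟨0, 0, 0, 0, 0, 0, 0, 0, 0⟩, (0, 0, 0)⟩,
  ⟨⟨0, 0, 0, 0, 0, 0, 0, 0, 0⟩, (0, 0, 0)⟩,
  ⟨⟨0, 0, 0, 0, 0, 0, 0, 0, 0⟩, (0, 0, 0)⟩,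
  ⟨⟨0, 0, 0, 0, 0, 0, 0, 0, 0⟩, (0, 0, 0)⟩,
  ⟨⟨0, 0, 0, 0, 0, 0, 0, 0, 0⟩, (0, 0, 0)⟩,
  ⟨⟨0, 0, 0, 0, 0, 0, 0, 0, 0⟩, (0, 0, 0)⟩,
  ⟨⟨-7, -22, -49, 27, -42, 4, 14, 7, -13⟩, (13, 8, 11)⟩,
  ⟨⟨0, 0, 0, 0, 0, 0, 0, 0, 0⟩, (0, 0, 0)⟩,
  ⟨⟨0, 0, 0, 0, 0, 0, 0, 0, 0⟩, (0, 0, 0)⟩,
  ⟨⟨0, 0, 0, 0, 0, 0, 0, 0, 0⟩, (0, 0, 0)⟩,
  ⟨⟨0, 0, 0, 0, 0, 0, 0, 0, 0⟩, (0, 0, 0)⟩,
  ⟨⟨23, 2, -64, 43, -22, 1, -6, -15, -1⟩, (3, 4, 33)⟩,
  ⟨⟨0, 0, 0, 0, 0, 0, 0, 0, 0⟩, (0, 0, 0)⟩,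
  ⟨⟨0, 0, 0, 0, 0, 0, 0, 0, 0⟩, (0, 0, 0)⟩,
  ⟨⟨-13, -38, -31, -47, 22, 16, 6, 9, -17⟩, (34, 29, 27)⟩,
  ⟨⟨7, -22, -56, -27, -42, 31, 14, -7, -1⟩, (30, 27, 23)⟩,
  ⟨⟨0, 0, 0, 0, 0, 0, 0, 0, 0⟩, (0, 0, 0)⟩,
  ⟨⟨43, -22, -44, 23, 2, 41, 6, 15, -7⟩, (12, 9, 12)⟩,
  ⟨⟨0, 0, 0, 0, 0, 0, 0, 0, 0⟩, (0, 0, 0)⟩,
  ⟨⟨0, 0, 0, 0, 0, 0, 0, 0, 0⟩, (0, 0, 0)⟩]

/-- Data of a prime. -/
noncomputable def Dm : PD := ⟨(nat_lit 31), (nat_lit 2), (435, 8, 13), (281, 829, 278), (666, 926, 286)⟩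

theorem Dm_ok : Dm.Ok := pdb_sound (s := 3) (C := ⟨⟨11, 26, -43, -19, 34, 32, -12, -3, -1⟩, (11, 12, 19)⟩) (by show Nat.Prime 31; norm_num) (by decide +kernel)

/-- Lines of the first type. -/
noncomputable def Clm : List C1 := [⟨⟨-11, -26, -32, 19, -34, 13, 12, 3, -13⟩, (22, 24, 7)⟩,
  ⟨⟨0, 0, 0, 0, 0, 0, 0, 0, 0⟩, (0, 0, 0)⟩,
  ⟨⟨0, 0, 0, 0, 0, 0, 0, 0, 0⟩, (0, 0, 0)⟩,
  ⟨⟨29, 26, -37, 21, 6, 32, 8, -11, -7⟩, (2, 10, 23)⟩,
  ⟨⟨0, 0, 0, 0, 0, 0, 0, 0, 0⟩, (0, 0, 0)⟩,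
  ⟨⟨21, 6, -53, 29, 26, 8, 8, -11, -1⟩, (6, 26, 20)⟩,
  ⟨⟨0, 0, 0, 0, 0, 0, 0, 0, 0⟩, (0, 0, 0)⟩,
  ⟨⟨29, -26, -37, 21, -6, 32, 8, 11, -7⟩, (27, 11, 16)⟩,
  ⟨⟨0, 0, 0, 0, 0, 0, 0, 0, 0⟩, (0, 0, 0)⟩,
  ⟨⟨-9, -6, -43, -41, 14, 28, 4, 13, -5⟩, (4, 1, 12)⟩,
  ⟨⟨9, -6, -52, -41, -14, 13, -4, 13, -1⟩, (29, 16, 25)⟩,
  ⟨⟨21, -6, -53, 29, -26, 8, 8, 11, -1⟩, (7, 20, 13)⟩,
  ⟨⟨9, 6, -52, -41, 14, 13, -4, -13, -1⟩, (28, 24, 22)⟩,
  ⟨⟨0, 0, 0, 0, 0, 0, 0, 0, 0⟩, (0, 0, 0)⟩,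
  ⟨⟨0, 0, 0, 0, 0, 0, 0, 0, 0⟩, (0, 0, 0)⟩,
  ⟨⟨0, 0, 0, 0, 0, 0, 0, 0, 0⟩, (0, 0, 0)⟩,
  ⟨⟨11, -26, -43, -19, -34, 32, -12, 3, -1⟩, (25, 16, 15)⟩,
  ⟨⟨-9, 6, -43, -41, -14, 28, 4, -13, -5⟩, (3, 24, 9)⟩,
  ⟨⟨0, 0, 0, 0, 0, 0, 0, 0, 0⟩, (0, 0, 0)⟩,
  ⟨⟨0, 0, 0, 0, 0, 0, 0, 0, 0⟩, (0, 0, 0)⟩,
  ⟨⟨0, 0, 0, 0, 0, 0, 0, 0, 0⟩, (0, 0, 0)⟩,
  ⟨⟨0, 0, 0, 0, 0, 0, 0, 0, 0⟩, (0, 0, 0)⟩,
  ⟨⟨0, 0, 0, 0, 0, 0, 0, 0, 0⟩, (0, 0, 0)⟩,
  ⟨⟨0, 0, 0, 0, 0, 0, 0, 0, 0⟩, (0, 0, 0)⟩,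
  ⟨⟨0, 0, 0, 0, 0, 0, 0, 0, 0⟩, (0, 0, 0)⟩,
  ⟨⟨0, 0, 0, 0, 0, 0, 0, 0, 0⟩, (0, 0, 0)⟩,
  ⟨⟨0, 0, 0, 0, 0, 0, 0, 0, 0⟩, (0, 0, 0)⟩,
  ⟨⟨0, 0, 0, 0, 0, 0, 0, 0, 0⟩, (0, 0, 0)⟩,
  ⟨⟨0, 0, 0, 0, 0, 0, 0, 0, 0⟩, (0, 0, 0)⟩,
  ⟨⟨0, 0, 0, 0, 0, 0, 0, 0, 0⟩, (0, 0, 0)⟩,
  ⟨⟨-11, 26, -32, 19, 34, 13, 12, -3, -13⟩, (28, 8, 23)⟩]

/-- Unit moves. -/
noncomputable def U : List Mv := [mz,
  mz,
  mz,
  mz,
  mz,
  mz,
  ⟨⟨-1, 0, 1, 0, 1, 0, 0, 0, 1⟩, .nil, (nat_lit 12), (nat_lit 1), (nat_lit 4), (nat_lit 1), (0, 0, 0), [], 5⟩,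
  ⟨⟨1, 0, 0, 0, -1, 0, 0, 0, 1⟩, .nil, (nat_lit 12), (nat_lit 3), (nat_lit 12), (nat_lit 1), (0, 0, 0), [], 11⟩,
  ⟨⟨-1, 0, 1, 0, -1, 0, 0, 0, 1⟩, .nil, (nat_lit 0), (nat_lit 3), (nat_lit 1), (nat_lit 0), (0, 0, 0), [], 10⟩,
  ⟨⟨1, 0, 0, 0, -1, 0, 0, 0, 1⟩, .nil, (nat_lit 12), (nat_lit 3), (nat_lit 12), (nat_lit 1), (0, 0, 0), [], 11⟩,
  ⟨⟨-1, 0, 1, 0, 1, 0, 0, 0, 1⟩, .nil, (nat_lit 12), (nat_lit 1), (nat_lit 4), (nat_lit 1), (0, 0, 0), [], 5⟩,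
  ⟨⟨-1, 0, 1, 0, -1, 0, 0, 0, 1⟩, .nil, (nat_lit 0), (nat_lit 3), (nat_lit 1), (nat_lit 0), (0, 0, 0), [], 10⟩,
  ⟨⟨1, 0, 0, 0, -1, 0, 0, 0, 1⟩, .nil, (nat_lit 12), (nat_lit 3), (nat_lit 12), (nat_lit 1), (0, 0, 0), [], 11⟩]

theorem v_ty : tyb Dm S.ty1 Clm = true := by decide +kernel

theorem v_ty0 : tyb D0 (S.tys.getD 0 0) Cl0 = true := by decide +kernel

theorem v_ty1 : tyb D1 (S.tys.getD 1 0) Cl1 = true := by decide +kernel

theorem v_msc : mscb S D0 [D1] Dm (nat_lit 52) = true := by decide +kernel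

theorem v_mv0 : mvsn (nat_lit 8693414712141289) S D0 [D1] Dm (nat_lit 52) 0 D0 = true := by decide +kernel

theorem v_mv1 : mvsn (nat_lit 8693414712141289) S D0 [D1] Dm (nat_lit 52) 1 D1 = true := by decide +kernel

theorem v_mm : mmsn (nat_lit 8693414712141289) S D0 [D1] Dm (nat_lit 52) = true := by decide +kernel

theorem v_un : unb S D0 (nat_lit 52) U = true := by decide +kernel

theorem v_ok : okb S.oks [(0, 0, 0), (0, 0, 0), (0, 0, 0), (4, 31, 1), (0, 0, 0), (0, 0, 0)] = true := by decide +kernel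

theorem v_part : ∀ d < D0.p, (nat_lit 52).testBit d = true → part S (zc (D0 :: [D1])) d = true := by
  intro d hd h
  have h1 : ∀ d < 13, (nat_lit 52).testBit d = true → d = 2 ∨ d = 4 ∨ d = 5 := by decide
  rcases h1 d hd h with rfl | rfl | rfl
  · exact part_2
  · exact part_4
  · exact part_5

theorem main (n : ℕ) (ho : Odd n) (hr : ¬ Rep n) (h0 : Split 13 n) (h1 : Split 37 n) (hm : Split 31 n) :
    n ∈ EE := by
  refine concln (W := nat_lit 8693414712141289) (S := S) (P0 := D0) (Pl := [D1]) (Pm := Dm) (cn := nat_lit 52) ?_ Dm_ok v_ty ?_ ?_ v_msc ?_ v_mm v_un v_part v_ok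
    n ho hr ?_ hm
  · simp only [List.forall_mem_cons]
    exact ⟨D0_ok, D1_ok, fun _ h => absurd h (by simp)⟩
  · exact all2 (φ := fun j P => ∃ L, tyb P (S.tys.getD j 0) L = true) ⟨_, v_ty0⟩ ⟨_, v_ty1⟩
  · exact all2 (φ := fun j P => Nat.ble (S.pks.getD j 0) (Nat.pow P.p P.K) = true) (by decide +kernel) (by decide +kernel)
  · exact all2 (φ := fun i P => mvsn (nat_lit 8693414712141289) S D0 [D1] Dm (nat_lit 52) i P = true) v_mv0 v_mv1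
  · simp only [List.forall_mem_cons]
    exact ⟨h0, h1, fun _ h => absurd h (by simp)⟩

end Pool.Agent.Work.MP_9954fe_nt.P13_37_31

namespace Pool.Agent.Work.MP_9954fe_nt.P13_31_53

/-- Dummy move. -/
noncomputable def mz : Mv := ⟨⟨0, 0, 0, 0, 0, 0, 0, 0, 0⟩, .nil, (nat_lit 0), (nat_lit 0), (nat_lit 0), (nat_lit 0), (0, 0, 0), [], 0⟩

/-- Moves. -/
noncomputable def t0_2 : List Mv := [
  ⟨⟨-1, -12, 9, 8, 5, 6, 8, -8, -7⟩, (.cons (nat_lit 1124) (nat_lit 173) (nat_lit 1983) (nat_lit 1) (.cons (nat_lit 423) (nat_lit 643) (nat_lit 183) (nat_lit 1) .nil)), (nat_lit 29), (nat_lit 22), (nat_lit 0), (nat_lit 1), (8, 1, 1), [1400, 52], 47⟩,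
  ⟨⟨9, 4, -16, -8, -5, -6, 8, -8, -7⟩, (.cons (nat_lit 2069) (nat_lit 1980) (nat_lit 385) (nat_lit 1) (.cons (nat_lit 831) (nat_lit 405) (nat_lit 75) (nat_lit 1) .nil)), (nat_lit 0), (nat_lit 22), (nat_lit 23), (nat_lit 1), (6, 12, 1), [69, 633], 6⟩,
  ⟨⟨9, 4, -16, -8, -5, -6, 8, -8, -7⟩, (.cons (nat_lit 2069) (nat_lit 1980) (nat_lit 385) (nat_lit 1) (.cons (nat_lit 831) (nat_lit 405) (nat_lit 75) (nat_lit 1) .nil)), (nat_lit 0), (nat_lit 22), (nat_lit 23), (nat_lit 1), (6, 12, 1), [69, 633], 6⟩,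
  ⟨⟨-1, -12, 9, -8, -5, -6, 8, -8, -7⟩, (.cons (nat_lit 1594) (nat_lit 334) (nat_lit 1902) (nat_lit 1) (.cons
 (nat_lit 960) (nat_lit 666) (nat_lit 116) (nat_lit 1) .nil)), (nat_lit 52), (nat_lit 31), (nat_lit 35),
 (nat_lit 1), (8, 12, 1), [1259, 865], 33⟩,
  ⟨⟨-1, -12, 9, 8, 5, 6, 8, -8, -7⟩, (.cons (nat_lit 1124) (nat_lit 173) (nat_lit 1983) (nat_lit 1) (.cons (nat_lit 423) (nat_lit 643) (nat_lit 183) (nat_lit 1) .nil)), (nat_lit 29), (nat_lit 22), (nat_lit 0), (nat_lit 1), (8, 1, 1), [1400, 52], 47⟩,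
  ⟨⟨9, 4, -16, 8, 5, 6, 8, -8, -7⟩, (.cons (nat_lit 309) (nat_lit 1036) (nat_lit 1493) (nat_lit 1) (.cons (nat_lit 891) (nat_lit 125) (nat_lit 95) (nat_lit 1) .nil)), (nat_lit 25), (nat_lit 31), (nat_lit 41), (nat_lit 1), (6, 1, 1), [249, 397], 20⟩,
  ⟨⟨9, 4, -16, 8, 5, 6, 8, -8, -7⟩, (.cons (nat_lit 309) (nat_lit 1036) (nat_lit 1493) (nat_lit 1) (.cons (nat_lit 891) (nat_lit 125) (nat_lit 95) (nat_lit 1) .nil)), (nat_lit 25), (nat_lit 31), (nat_lit 41), (nat_lit 1), (6, 1, 1), [249, 397], 20⟩,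
  ⟨⟨-1, -12, 9, -8, -5, -6, 8, -8, -7⟩, (.cons (nat_lit 1594) (nat_lit 334) (nat_lit 1902) (nat_lit 1) (.cons
 (nat_lit 960) (nat_lit 666) (nat_lit 116) (nat_lit 1) .nil)), (nat_lit 52), (nat_lit 31), (nat_lit 35),
 (nat_lit 1), (8, 12, 1), [1259, 865], 33⟩,
  ⟨⟨-1, -12, 9, -8, -5, -6, 8, -8, -7⟩, (.cons (nat_lit 1594) (nat_lit 334) (nat_lit 1902) (nat_lit 1) (.cons
 (nat_lit 960) (nat_lit 666) (nat_lit 116) (nat_lit 1) .nil)), (nat_lit 52), (nat_lit 31), (nat_lit 35),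
 (nat_lit 1), (8, 12, 1), [1259, 865], 33⟩,
  ⟨⟨-1, -12, 9, -8, -5, -6, 8, -8, -7⟩, (.cons (nat_lit 1594) (nat_lit 334) (nat_lit 1902) (nat_lit 1) (.cons
 (nat_lit 960) (nat_lit 666) (nat_lit 116) (nat_lit 1) .nil)), (nat_lit 52), (nat_lit 31), (nat_lit 35),
 (nat_lit 1), (8, 12, 1), [1259, 865], 33⟩,
  ⟨⟨-1, -12, 9, 8, 5, 6, 8, -8, -7⟩, (.cons (nat_lit 1124) (nat_lit 173) (nat_lit 1983) (nat_lit 1) (.cons (nat_lit 423) (nat_lit 643) (nat_lit 183) (nat_lit 1) .nil)), (nat_lit 29), (nat_lit 22), (nat_lit 0), (nat_lit 1), (8, 1, 1), [1400, 52], 47⟩,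
  ⟨⟨-1, -12, 9, -8, -5, -6, 8, -8, -7⟩, (.cons (nat_lit 1594) (nat_lit 334) (nat_lit 1902) (nat_lit 1) (.cons
 (nat_lit 960) (nat_lit 666) (nat_lit 116) (nat_lit 1) .nil)), (nat_lit 52), (nat_lit 31), (nat_lit 35),
 (nat_lit 1), (8, 12, 1), [1259, 865], 33⟩,
  ⟨⟨-1, -12, 9, -8, -5, -6, 8, -8, -7⟩, (.cons (nat_lit 1594) (nat_lit 334) (nat_lit 1902) (nat_lit 1) (.cons
 (nat_lit 960) (nat_lit 666) (nat_lit 116) (nat_lit 1) .nil)), (nat_lit 52), (nat_lit 31), (nat_lit 35),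
 (nat_lit 1), (8, 12, 1), [1259, 865], 33⟩]

/-- Moves. -/
noncomputable def t0_4 : List Mv := [
  ⟨⟨5, 12, -9, -12, 5, 6, 0, 0, -13⟩, (.cons (nat_lit 344) (nat_lit 106) (nat_lit 1760) (nat_lit 1) (.cons
 (nat_lit 373) (nat_lit 719) (nat_lit 205) (nat_lit 1) .nil)), (nat_lit 1), (nat_lit 36), (nat_lit 43),
 (nat_lit 1), (12, 5, 0), [1668, 818], 24⟩,
  ⟨⟨-5, -12, -4, -12, 5, 6, 0, 0, -13⟩, (.cons (nat_lit 907) (nat_lit 1531) (nat_lit 230) (nat_lit 1) (.cons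
 (nat_lit 960) (nat_lit 958) (nat_lit 397) (nat_lit 1) .nil)), (nat_lit 52), (nat_lit 28), (nat_lit 49),
 (nat_lit 1), (1, 5, 0), [297, 94], 12⟩,
  ⟨⟨-5, -12, -4, -12, 5, 6, 0, 0, -13⟩, (.cons (nat_lit 907) (nat_lit 1531) (nat_lit 230) (nat_lit 1) (.cons
 (nat_lit 960) (nat_lit 958) (nat_lit 397) (nat_lit 1) .nil)), (nat_lit 52), (nat_lit 28), (nat_lit 49),
 (nat_lit 1), (1, 5, 0), [297, 94], 12⟩,
  ⟨⟨-5, -12, -4, 12, -5, -6, 0, 0, -13⟩, (.cons (nat_lit 391) (nat_lit 1594) (nat_lit 1459) (nat_lit 1) (.cons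
 (nat_lit 156) (nat_lit 824) (nat_lit 398) (nat_lit 1) .nil)), (nat_lit 1), (nat_lit 37), (nat_lit 28),
 (nat_lit 1), (1, 8, 0), [829, 274], 46⟩,
  ⟨⟨5, 12, -9, 12, -5, -6, 0, 0, -13⟩, (.cons (nat_lit 472) (nat_lit 935) (nat_lit 1769) (nat_lit 1) (.cons
 (nat_lit 960) (nat_lit 956) (nat_lit 300) (nat_lit 1) .nil)), (nat_lit 52), (nat_lit 40), (nat_lit 17),
 (nat_lit 1), (12, 8, 0), [798, 267], 51⟩,
  ⟨⟨5, 12, -9, 12, -5, -6, 0, 0, -13⟩, (.cons (nat_lit 472) (nat_lit 935) (nat_lit 1769) (nat_lit 1) (.cons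
 (nat_lit 960) (nat_lit 956) (nat_lit 300) (nat_lit 1) .nil)), (nat_lit 52), (nat_lit 40), (nat_lit 17),
 (nat_lit 1), (12, 8, 0), [798, 267], 51⟩,
  ⟨⟨5, 12, -9, -12, 5, 6, 0, 0, -13⟩, (.cons (nat_lit 344) (nat_lit 106) (nat_lit 1760) (nat_lit 1) (.cons
 (nat_lit 373) (nat_lit 719) (nat_lit 205) (nat_lit 1) .nil)), (nat_lit 1), (nat_lit 36), (nat_lit 43),
 (nat_lit 1), (12, 5, 0), [1668, 818], 24⟩,
  ⟨⟨5, 12, -9, 12, -5, -6, 0, 0, -13⟩, (.cons (nat_lit 472) (nat_lit 935) (nat_lit 1769) (nat_lit 1) (.cons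
 (nat_lit 960) (nat_lit 956) (nat_lit 300) (nat_lit 1) .nil)), (nat_lit 52), (nat_lit 40), (nat_lit 17),
 (nat_lit 1), (12, 8, 0), [798, 267], 51⟩,
  ⟨⟨5, 12, -9, 12, -5, -6, 0, 0, -13⟩, (.cons (nat_lit 472) (nat_lit 935) (nat_lit 1769) (nat_lit 1) (.cons
 (nat_lit 960) (nat_lit 956) (nat_lit 300) (nat_lit 1) .nil)), (nat_lit 52), (nat_lit 40), (nat_lit 17),
 (nat_lit 1), (12, 8, 0), [798, 267], 51⟩,
  ⟨⟨-5, -12, -4, 12, -5, -6, 0, 0, -13⟩, (.cons (nat_lit 391) (nat_lit 1594) (nat_lit 1459) (nat_lit 1) (.cons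
 (nat_lit 156) (nat_lit 824) (nat_lit 398) (nat_lit 1) .nil)), (nat_lit 1), (nat_lit 37), (nat_lit 28),
 (nat_lit 1), (1, 8, 0), [829, 274], 46⟩,
  ⟨⟨5, 12, -9, 12, -5, -6, 0, 0, -13⟩, (.cons (nat_lit 472) (nat_lit 935) (nat_lit 1769) (nat_lit 1) (.cons
 (nat_lit 960) (nat_lit 956) (nat_lit 300) (nat_lit 1) .nil)), (nat_lit 52), (nat_lit 40), (nat_lit 17),
 (nat_lit 1), (12, 8, 0), [798, 267], 51⟩,
  ⟨⟨5, 12, -9, -12, 5, 6, 0, 0, -13⟩, (.cons (nat_lit 344) (nat_lit 106) (nat_lit 1760) (nat_lit 1) (.cons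
 (nat_lit 373) (nat_lit 719) (nat_lit 205) (nat_lit 1) .nil)), (nat_lit 1), (nat_lit 36), (nat_lit 43),
 (nat_lit 1), (12, 5, 0), [1668, 818], 24⟩,
  ⟨⟨5, 12, -9, 12, -5, -6, 0, 0, -13⟩, (.cons (nat_lit 472) (nat_lit 935) (nat_lit 1769) (nat_lit 1) (.cons
 (nat_lit 960) (nat_lit 956) (nat_lit 300) (nat_lit 1) .nil)), (nat_lit 52), (nat_lit 40), (nat_lit 17),
 (nat_lit 1), (12, 8, 0), [798, 267], 51⟩]

/-- Moves. -/
noncomputable def t0_5 : List Mv := [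
  ⟨⟨9, 8, -13, 10, -7, 0, 2, -4, -13⟩, (.cons (nat_lit 174) (nat_lit 316) (nat_lit 1278) (nat_lit 1) (.cons
 (nat_lit 160) (nat_lit 160) (nat_lit 909) (nat_lit 1) .nil)), (nat_lit 23), (nat_lit 36), (nat_lit 10),
 (nat_lit 1), (2, 8, 12), [574, 686], 18⟩,
  ⟨⟨9, 8, -13, -10, 7, 0, 2, -4, -13⟩, (.cons (nat_lit 1016) (nat_lit 1868) (nat_lit 945) (nat_lit 1) (.cons
 (nat_lit 384) (nat_lit 228) (nat_lit 558) (nat_lit 1) .nil)), (nat_lit 8), (nat_lit 40), (nat_lit 3), (nat_lit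
 1), (2, 5, 12), [53, 805], 25⟩,
  ⟨⟨9, 8, -13, -10, 7, 0, 2, -4, -13⟩, (.cons (nat_lit 1016) (nat_lit 1868) (nat_lit 945) (nat_lit 1) (.cons
 (nat_lit 384) (nat_lit 228) (nat_lit 558) (nat_lit 1) .nil)), (nat_lit 8), (nat_lit 40), (nat_lit 3), (nat_lit
 1), (2, 5, 12), [53, 805], 25⟩,
  ⟨⟨9, 8, -13, -10, 7, 0, 2, -4, -13⟩, (.cons (nat_lit 1016) (nat_lit 1868) (nat_lit 945) (nat_lit 1) (.cons
 (nat_lit 384) (nat_lit 228) (nat_lit 558) (nat_lit 1) .nil)), (nat_lit 8), (nat_lit 40), (nat_lit 3), (nat_lit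
 1), (2, 5, 12), [53, 805], 25⟩,
  ⟨⟨-7, -12, 0, 10, -7, 0, 2, -4, -13⟩, (.cons (nat_lit 666) (nat_lit 1192) (nat_lit 2190) (nat_lit 1) (.cons
 (nat_lit 744) (nat_lit 875) (nat_lit 266) (nat_lit 1) .nil)), (nat_lit 31), (nat_lit 28), (nat_lit 32),
 (nat_lit 1), (10, 8, 12), [1975, 460], 9⟩,
  ⟨⟨9, 8, -13, 10, -7, 0, 2, -4, -13⟩, (.cons (nat_lit 174) (nat_lit 316) (nat_lit 1278) (nat_lit 1) (.cons
 (nat_lit 160) (nat_lit 160) (nat_lit 909) (nat_lit 1) .nil)), (nat_lit 23), (nat_lit 36), (nat_lit 10),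
 (nat_lit 1), (2, 8, 12), [574, 686], 18⟩,
  ⟨⟨9, 8, -13, 10, -7, 0, 2, -4, -13⟩, (.cons (nat_lit 174) (nat_lit 316) (nat_lit 1278) (nat_lit 1) (.cons
 (nat_lit 160) (nat_lit 160) (nat_lit 909) (nat_lit 1) .nil)), (nat_lit 23), (nat_lit 36), (nat_lit 10),
 (nat_lit 1), (2, 8, 12), [574, 686], 18⟩,
  ⟨⟨9, 8, -13, -10, 7, 0, 2, -4, -13⟩, (.cons (nat_lit 1016) (nat_lit 1868) (nat_lit 945) (nat_lit 1) (.cons
 (nat_lit 384) (nat_lit 228) (nat_lit 558) (nat_lit 1) .nil)), (nat_lit 8), (nat_lit 40), (nat_lit 3), (nat_lit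
 1), (2, 5, 12), [53, 805], 25⟩,
  ⟨⟨-7, -12, 0, 10, -7, 0, 2, -4, -13⟩, (.cons (nat_lit 666) (nat_lit 1192) (nat_lit 2190) (nat_lit 1) (.cons
 (nat_lit 744) (nat_lit 875) (nat_lit 266) (nat_lit 1) .nil)), (nat_lit 31), (nat_lit 28), (nat_lit 32),
 (nat_lit 1), (10, 8, 12), [1975, 460], 9⟩,
  ⟨⟨-7, -12, 0, -10, 7, 0, 2, -4, -13⟩, (.cons (nat_lit 1329) (nat_lit 1668) (nat_lit 2026) (nat_lit 1) (.cons
 (nat_lit 960) (nat_lit 437) (nat_lit 125) (nat_lit 1) .nil)), (nat_lit 52), (nat_lit 37), (nat_lit 8),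
 (nat_lit 1), (10, 5, 12), [947, 41], 8⟩,
  ⟨⟨9, 8, -13, -10, 7, 0, 2, -4, -13⟩, (.cons (nat_lit 1016) (nat_lit 1868) (nat_lit 945) (nat_lit 1) (.cons
 (nat_lit 384) (nat_lit 228) (nat_lit 558) (nat_lit 1) .nil)), (nat_lit 8), (nat_lit 40), (nat_lit 3), (nat_lit
 1), (2, 5, 12), [53, 805], 25⟩,
  ⟨⟨9, 8, -13, -10, 7, 0, 2, -4, -13⟩, (.cons (nat_lit 1016) (nat_lit 1868) (nat_lit 945) (nat_lit 1) (.cons
 (nat_lit 384) (nat_lit 228) (nat_lit 558) (nat_lit 1) .nil)), (nat_lit 8), (nat_lit 40), (nat_lit 3), (nat_lit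
 1), (2, 5, 12), [53, 805], 25⟩,
  ⟨⟨9, 8, -13, -10, 7, 0, 2, -4, -13⟩, (.cons (nat_lit 1016) (nat_lit 1868) (nat_lit 945) (nat_lit 1) (.cons
 (nat_lit 384) (nat_lit 228) (nat_lit 558) (nat_lit 1) .nil)), (nat_lit 8), (nat_lit 40), (nat_lit 3), (nat_lit
 1), (2, 5, 12), [53, 805], 25⟩]

/-- Moves. -/
noncomputable def t1_2 : List Mv := [
  mz,
  ⟨⟨3, 20, 29, 4, -25, 18, 26, 8, -7⟩, (.cons (nat_lit 2070) (nat_lit 264) (nat_lit 1073) (nat_lit 1) (.cons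
 (nat_lit 213) (nat_lit 582) (nat_lit 69) (nat_lit 1) .nil)), (nat_lit 23), (nat_lit 4), (nat_lit 13), (nat_lit
 1), (26, 14, 29), [434, 417], 2⟩,
  ⟨⟨3, -20, 29, 4, 25, 18, 26, -8, -7⟩, (.cons (nat_lit 1097) (nat_lit 1729) (nat_lit 1523) (nat_lit 1) (.cons
 (nat_lit 666) (nat_lit 825) (nat_lit 28) (nat_lit 1) .nil)), (nat_lit 37), (nat_lit 43), (nat_lit 21),
 (nat_lit 1), (19, 15, 20), [690, 331], 28⟩,
  mz,
  ⟨⟨27, 16, -28, -4, -15, -28, -6, 24, -11⟩, (.cons (nat_lit 386) (nat_lit 125) (nat_lit 1353) (nat_lit 1)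
 (.cons (nat_lit 749) (nat_lit 554) (nat_lit 751) (nat_lit 1) .nil)), (nat_lit 47), (nat_lit 52), (nat_lit 12),
 (nat_lit 1), (15, 15, 7), [148, 808], 27⟩,
  mz,
  ⟨⟨21, -4, -40, 16, 25, 2, 22, -16, -5⟩, (.cons (nat_lit 218) (nat_lit 1871) (nat_lit 1408) (nat_lit 1) (.cons
 (nat_lit 528) (nat_lit 151) (nat_lit 120) (nat_lit 1) .nil)), (nat_lit 35), (nat_lit 29), (nat_lit 24),
 (nat_lit 1), (21, 16, 22), [1643, 667], 20⟩,
  mz,
  ⟨⟨-31, 0, 0, 10, 19, -30, -4, -20, -19⟩, (.cons (nat_lit 2196) (nat_lit 1242) (nat_lit 2084) (nat_lit 1)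
 (.cons (nat_lit 582) (nat_lit 103) (nat_lit 437) (nat_lit 1) .nil)), (nat_lit 52), (nat_lit 30), (nat_lit 9),
 (nat_lit 1), (0, 5, 29), [635, 738], 26⟩,
  mz,
  mz,
  mz,
  mz,
  ⟨⟨27, 20, -19, 10, -19, -30, -4, 20, -19⟩, (.cons (nat_lit 113) (nat_lit 744) (nat_lit 116) (nat_lit 1)
 (.cons (nat_lit 947) (nat_lit 467) (nat_lit 116) (nat_lit 1) .nil)), (nat_lit 25), (nat_lit 10), (nat_lit 44),
 (nat_lit 1), (5, 3, 5), [1828, 591], 14⟩,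
  ⟨⟨27, -16, -28, -4, 15, -28, -6, -24, -11⟩, (.cons (nat_lit 2196) (nat_lit 2105) (nat_lit 331) (nat_lit 1)
 (.cons (nat_lit 864) (nat_lit 613) (nat_lit 819) (nat_lit 1) .nil)), (nat_lit 52), (nat_lit 47), (nat_lit 41),
 (nat_lit 1), (28, 28, 11), [729, 502], 37⟩,
  ⟨⟨3, 20, -32, 4, -25, -22, 26, 8, -19⟩, (.cons (nat_lit 1450) (nat_lit 1345) (nat_lit 447) (nat_lit 1) (.cons
 (nat_lit 739) (nat_lit 110) (nat_lit 776) (nat_lit 1) .nil)), (nat_lit 28), (nat_lit 14), (nat_lit 7),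
 (nat_lit 1), (10, 3, 4), [1701, 53], 50⟩,
  mz,
  mz,
  ⟨⟨21, -4, 19, 16, 25, -18, 22, -16, -17⟩, (.cons (nat_lit 1262) (nat_lit 87) (nat_lit 506) (nat_lit 1) (.cons
 (nat_lit 738) (nat_lit 95) (nat_lit 489) (nat_lit 1) .nil)), (nat_lit 15), (nat_lit 39), (nat_lit 6), (nat_lit
 1), (7, 26, 28), [769, 550], 5⟩,
  ⟨⟨-9, 8, -31, -10, -29, 0, 20, -4, -31⟩, (.cons (nat_lit 1746) (nat_lit 1708) (nat_lit 1257) (nat_lit 1)
 (.cons (nat_lit 501) (nat_lit 320) (nat_lit 659) (nat_lit 1) .nil)), (nat_lit 8), (nat_lit 47), (nat_lit 4),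
 (nat_lit 1), (2, 16, 30), [517, 881], 15⟩,
  ⟨⟨9, 8, -40, 10, -29, -10, -20, -4, -11⟩, (.cons (nat_lit 2196) (nat_lit 1167) (nat_lit 1280) (nat_lit 1)
 (.cons (nat_lit 790) (nat_lit 532) (nat_lit 954) (nat_lit 1) .nil)), (nat_lit 52), (nat_lit 34), (nat_lit 48),
 (nat_lit 1), (27, 30, 2), [1775, 670], 45⟩,
  ⟨⟨33, 8, -16, 4, -15, -32, 6, 24, -17⟩, (.cons (nat_lit 1920) (nat_lit 543) (nat_lit 1306) (nat_lit 1) (.cons
 (nat_lit 245) (nat_lit 868) (nat_lit 861) (nat_lit 1) .nil)), (nat_lit 47), (nat_lit 22), (nat_lit 38),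
 (nat_lit 1), (1, 2, 3), [1682, 555], 27⟩,
  ⟨⟨9, -8, -40, 10, 29, -10, -20, 4, -11⟩, (.cons (nat_lit 1318) (nat_lit 259) (nat_lit 664) (nat_lit 1) (.cons
 (nat_lit 618) (nat_lit 668) (nat_lit 158) (nat_lit 1) .nil)), (nat_lit 49), (nat_lit 2), (nat_lit 36),
 (nat_lit 1), (18, 20, 22), [22, 177], 24⟩,
  ⟨⟨23, 12, 13, 4, 25, -22, 26, -8, -19⟩, (.cons (nat_lit 430) (nat_lit 2136) (nat_lit 2120) (nat_lit 1) (.cons
 (nat_lit 342) (nat_lit 850) (nat_lit 205) (nat_lit 1) .nil)), (nat_lit 46), (nat_lit 8), (nat_lit 42),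
 (nat_lit 1), (23, 4, 26), [457, 928], 33⟩,
  ⟨⟨29, 12, 0, 10, -29, 0, 20, 4, -31⟩, (.cons (nat_lit 2196) (nat_lit 1828) (nat_lit 1574) (nat_lit 1) (.cons
 (nat_lit 581) (nat_lit 511) (nat_lit 506) (nat_lit 1) .nil)), (nat_lit 52), (nat_lit 35), (nat_lit 33),
 (nat_lit 1), (26, 25, 19), [540, 524], 45⟩,
  ⟨⟨31, 0, -31, -10, 19, -20, 4, -20, -23⟩, (.cons (nat_lit 1233) (nat_lit 1959) (nat_lit 1911) (nat_lit 1)
 (.cons (nat_lit 243) (nat_lit 585) (nat_lit 724) (nat_lit 1) .nil)), (nat_lit 35), (nat_lit 18), (nat_lit 24),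
 (nat_lit 1), (0, 22, 16), [114, 457], 11⟩,
  ⟨⟨1, 12, 35, -16, 25, -2, 22, 16, -5⟩, (.cons (nat_lit 1464) (nat_lit 1885) (nat_lit 283) (nat_lit 1) (.cons
 (nat_lit 307) (nat_lit 665) (nat_lit 882) (nat_lit 1) .nil)), (nat_lit 43), (nat_lit 6), (nat_lit 51),
 (nat_lit 1), (30, 16, 9), [1039, 13], 44⟩,
  ⟨⟨33, -8, -16, 4, 15, -32, 6, -24, -17⟩, (.cons (nat_lit 2196) (nat_lit 1798) (nat_lit 1210) (nat_lit 1)
 (.cons (nat_lit 793) (nat_lit 799) (nat_lit 600) (nat_lit 1) .nil)), (nat_lit 52), (nat_lit 6), (nat_lit 11),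
 (nat_lit 1), (23, 15, 7), [1702, 29], 10⟩,
  ⟨⟨1, 12, -36, -16, 25, 18, 22, 16, -17⟩, (.cons (nat_lit 923) (nat_lit 708) (nat_lit 712) (nat_lit 1) (.cons
 (nat_lit 156) (nat_lit 23) (nat_lit 264) (nat_lit 1) .nil)), (nat_lit 45), (nat_lit 5), (nat_lit 34), (nat_lit
 1), (19, 6, 15), [337, 811], 47⟩,
  ⟨⟨-27, 20, 8, 10, 19, 20, 4, 20, -23⟩, (.cons (nat_lit 2196) (nat_lit 911) (nat_lit 1562) (nat_lit 1) (.cons
 (nat_lit 768) (nat_lit 199) (nat_lit 856) (nat_lit 1) .nil)), (nat_lit 52), (nat_lit 43), (nat_lit 26),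
 (nat_lit 1), (23, 11, 23), [1090, 521], 26⟩]

/-- Moves. -/
noncomputable def t1_4 : List Mv := [
  mz,
  ⟨⟨3, 20, 29, -4, 25, -18, 26, 8, -7⟩, (.cons (nat_lit 2126) (nat_lit 1387) (nat_lit 1394) (nat_lit 1) (.cons
 (nat_lit 719) (nat_lit 143) (nat_lit 125) (nat_lit 1) .nil)), (nat_lit 31), (nat_lit 5), (nat_lit 37),
 (nat_lit 1), (26, 17, 29), [1465, 819], 4⟩,
  ⟨⟨23, 12, -36, -4, -25, -18, 26, -8, -7⟩, (.cons (nat_lit 2089) (nat_lit 1766) (nat_lit 1) (nat_lit 1378)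
 (.cons (nat_lit 430) (nat_lit 115) (nat_lit 270) (nat_lit 1) .nil)), (nat_lit 33), (nat_lit 47), (nat_lit 44),
 (nat_lit 1), (1, 16, 20), [1862, 829], 15⟩,
  mz,
  ⟨⟨27, 16, -28, -4, -15, -28, -6, 24, -11⟩, (.cons (nat_lit 386) (nat_lit 125) (nat_lit 1353) (nat_lit 1)
 (.cons (nat_lit 749) (nat_lit 554) (nat_lit 751) (nat_lit 1) .nil)), (nat_lit 47), (nat_lit 52), (nat_lit 12),
 (nat_lit 1), (15, 15, 7), [148, 808], 27⟩,
  mz,
  ⟨⟨1, -12, 35, -16, -25, -2, 22, -16, -5⟩, (.cons (nat_lit 66) (nat_lit 1765) (nat_lit 2096) (nat_lit 1)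
 (.cons (nat_lit 790) (nat_lit 903) (nat_lit 23) (nat_lit 1) .nil)), (nat_lit 46), (nat_lit 24), (nat_lit 14),
 (nat_lit 1), (1, 15, 22), [609, 202], 20⟩,
  mz,
  ⟨⟨-31, 0, 0, 10, 19, -30, -4, -20, -19⟩, (.cons (nat_lit 2196) (nat_lit 1242) (nat_lit 2084) (nat_lit 1)
 (.cons (nat_lit 582) (nat_lit 103) (nat_lit 437) (nat_lit 1) .nil)), (nat_lit 52), (nat_lit 30), (nat_lit 9),
 (nat_lit 1), (0, 5, 29), [635, 738], 26⟩,
  mz,
  mz,
  mz,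
  mz,
  ⟨⟨-31, 0, 0, 10, -19, -30, -4, 20, -19⟩, (.cons (nat_lit 2141) (nat_lit 1424) (nat_lit 1) (nat_lit 1430)
 (.cons (nat_lit 923) (nat_lit 15) (nat_lit 809) (nat_lit 1) .nil)), (nat_lit 2), (nat_lit 39), (nat_lit 6),
 (nat_lit 1), (0, 3, 5), [74, 641], 37⟩,
  ⟨⟨27, -16, -28, -4, 15, -28, -6, -24, -11⟩, (.cons (nat_lit 2196) (nat_lit 2105) (nat_lit 331) (nat_lit 1)
 (.cons (nat_lit 864) (nat_lit 613) (nat_lit 819) (nat_lit 1) .nil)), (nat_lit 52), (nat_lit 47), (nat_lit 41),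
 (nat_lit 1), (28, 28, 11), [729, 502], 37⟩,
  ⟨⟨3, 20, -32, 4, -25, -22, 26, 8, -19⟩, (.cons (nat_lit 1450) (nat_lit 1345) (nat_lit 447) (nat_lit 1) (.cons
 (nat_lit 739) (nat_lit 110) (nat_lit 776) (nat_lit 1) .nil)), (nat_lit 28), (nat_lit 14), (nat_lit 7),
 (nat_lit 1), (10, 3, 4), [1701, 53], 50⟩,
  mz,
  mz,
  ⟨⟨1, -12, -36, 16, 25, -18, 22, -16, -17⟩, (.cons (nat_lit 326) (nat_lit 1824) (nat_lit 824) (nat_lit 1)
 (.cons (nat_lit 750) (nat_lit 77) (nat_lit 378) (nat_lit 1) .nil)), (nat_lit 8), (nat_lit 10), (nat_lit 14),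
 (nat_lit 1), (21, 26, 28), [841, 474], 42⟩,
  ⟨⟨-9, 8, -31, 10, 29, 0, 20, -4, -31⟩, (.cons (nat_lit 1187) (nat_lit 722) (nat_lit 1185) (nat_lit 1) (.cons
 (nat_lit 792) (nat_lit 415) (nat_lit 687) (nat_lit 1) .nil)), (nat_lit 24), (nat_lit 44), (nat_lit 24),
 (nat_lit 1), (2, 15, 30), [1159, 143], 20⟩,
  ⟨⟨9, 8, -40, -10, 29, 10, -20, -4, -11⟩, (.cons (nat_lit 2192) (nat_lit 1295) (nat_lit 1123) (nat_lit 1)
 (.cons (nat_lit 25) (nat_lit 321) (nat_lit 414) (nat_lit 1) .nil)), (nat_lit 13), (nat_lit 27), (nat_lit 9),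
 (nat_lit 1), (27, 1, 2), [550, 251], 28⟩,
  ⟨⟨-27, 16, -1, 4, -15, -32, 6, 24, -17⟩, (.cons (nat_lit 421) (nat_lit 665) (nat_lit 788) (nat_lit 1) (.cons
 (nat_lit 728) (nat_lit 605) (nat_lit 734) (nat_lit 1) .nil)), (nat_lit 19), (nat_lit 31), (nat_lit 41),
 (nat_lit 1), (2, 2, 3), [133, 321], 16⟩,
  ⟨⟨9, -8, -40, -10, -29, 10, -20, 4, -11⟩, (.cons (nat_lit 2196) (nat_lit 1965) (nat_lit 778) (nat_lit 1)
 (.cons (nat_lit 295) (nat_lit 908) (nat_lit 539) (nat_lit 1) .nil)), (nat_lit 52), (nat_lit 1), (nat_lit 6),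
 (nat_lit 1), (18, 11, 22), [1783, 32], 48⟩,
  ⟨⟨23, 12, 13, -4, -25, 22, 26, -8, -19⟩, (.cons (nat_lit 528) (nat_lit 2141) (nat_lit 91) (nat_lit 1) (.cons
 (nat_lit 131) (nat_lit 194) (nat_lit 380) (nat_lit 1) .nil)), (nat_lit 43), (nat_lit 14), (nat_lit 37),
 (nat_lit 1), (23, 27, 26), [781, 408], 9⟩,
  ⟨⟨-9, -8, -31, 10, -29, 0, 20, 4, -31⟩, (.cons (nat_lit 628) (nat_lit 1494) (nat_lit 566) (nat_lit 1) (.cons
 (nat_lit 274) (nat_lit 374) (nat_lit 314) (nat_lit 1) .nil)), (nat_lit 8), (nat_lit 25), (nat_lit 16),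
 (nat_lit 1), (24, 25, 19), [1622, 881], 15⟩,
  ⟨⟨31, 0, -31, -10, 19, -20, 4, -20, -23⟩, (.cons (nat_lit 1233) (nat_lit 1959) (nat_lit 1911) (nat_lit 1)
 (.cons (nat_lit 243) (nat_lit 585) (nat_lit 724) (nat_lit 1) .nil)), (nat_lit 35), (nat_lit 18), (nat_lit 24),
 (nat_lit 1), (0, 22, 16), [114, 457], 11⟩,
  ⟨⟨1, 12, 35, -16, 25, -2, 22, 16, -5⟩, (.cons (nat_lit 1464) (nat_lit 1885) (nat_lit 283) (nat_lit 1) (.cons
 (nat_lit 307) (nat_lit 665) (nat_lit 882) (nat_lit 1) .nil)), (nat_lit 43), (nat_lit 6), (nat_lit 51),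
 (nat_lit 1), (30, 16, 9), [1039, 13], 44⟩,
  ⟨⟨33, -8, -16, 4, 15, -32, 6, -24, -17⟩, (.cons (nat_lit 2196) (nat_lit 1798) (nat_lit 1210) (nat_lit 1)
 (.cons (nat_lit 793) (nat_lit 799) (nat_lit 600) (nat_lit 1) .nil)), (nat_lit 52), (nat_lit 6), (nat_lit 11),
 (nat_lit 1), (23, 15, 7), [1702, 29], 10⟩,
  ⟨⟨1, 12, -36, 16, -25, -18, 22, 16, -17⟩, (.cons (nat_lit 1645) (nat_lit 2195) (nat_lit 167) (nat_lit 1)
 (.cons (nat_lit 247) (nat_lit 852) (nat_lit 433) (nat_lit 1) .nil)), (nat_lit 28), (nat_lit 4), (nat_lit 51),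
 (nat_lit 1), (19, 25, 15), [167, 606], 50⟩,
  ⟨⟨31, 0, -31, -10, -19, -20, 4, 20, -23⟩, (.cons (nat_lit 682) (nat_lit 822) (nat_lit 675) (nat_lit 1) (.cons
 (nat_lit 475) (nat_lit 180) (nat_lit 164) (nat_lit 1) .nil)), (nat_lit 3), (nat_lit 47), (nat_lit 16),
 (nat_lit 1), (0, 20, 23), [1332, 746], 48⟩]

/-- Moves. -/
noncomputable def t1_5 : List Mv := [
  mz,
  ⟨⟨23, -12, -36, -4, 25, -18, 26, 8, -7⟩, (.cons (nat_lit 1198) (nat_lit 199) (nat_lit 2058) (nat_lit 1)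
 (.cons (nat_lit 388) (nat_lit 423) (nat_lit 935) (nat_lit 1) .nil)), (nat_lit 36), (nat_lit 15), (nat_lit 19),
 (nat_lit 1), (3, 17, 29), [450, 815], 19⟩,
  ⟨⟨3, -20, 29, -4, -25, -18, 26, -8, -7⟩, (.cons (nat_lit 1964) (nat_lit 406) (nat_lit 634) (nat_lit 1) (.cons
 (nat_lit 529) (nat_lit 365) (nat_lit 455) (nat_lit 1) .nil)), (nat_lit 15), (nat_lit 11), (nat_lit 2),
 (nat_lit 1), (19, 16, 20), [1545, 707], 48⟩,
  mz,
  ⟨⟨-33, 8, 17, 4, 15, 28, -6, 24, -11⟩, (.cons (nat_lit 1666) (nat_lit 93) (nat_lit 1488) (nat_lit 1) (.cons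
 (nat_lit 834) (nat_lit 345) (nat_lit 177) (nat_lit 1) .nil)), (nat_lit 22), (nat_lit 46), (nat_lit 6),
 (nat_lit 1), (23, 16, 7), [1952, 312], 23⟩,
  mz,
  ⟨⟨1, -12, 35, -16, -25, -2, 22, -16, -5⟩, (.cons (nat_lit 66) (nat_lit 1765) (nat_lit 2096) (nat_lit 1)
 (.cons (nat_lit 790) (nat_lit 903) (nat_lit 23) (nat_lit 1) .nil)), (nat_lit 46), (nat_lit 24), (nat_lit 14),
 (nat_lit 1), (1, 15, 22), [609, 202], 20⟩,
  mz,
  ⟨⟨27, -20, -19, 10, 19, -30, -4, -20, -19⟩, (.cons (nat_lit 2099) (nat_lit 843) (nat_lit 533) (nat_lit 1)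
 (.cons (nat_lit 67) (nat_lit 474) (nat_lit 645) (nat_lit 1) .nil)), (nat_lit 50), (nat_lit 1), (nat_lit 19),
 (nat_lit 1), (29, 5, 29), [750, 65], 46⟩,
  mz,
  mz,
  mz,
  mz,
  ⟨⟨-31, 0, 0, 10, -19, -30, -4, 20, -19⟩, (.cons (nat_lit 2141) (nat_lit 1424) (nat_lit 1) (nat_lit 1430)
 (.cons (nat_lit 923) (nat_lit 15) (nat_lit 809) (nat_lit 1) .nil)), (nat_lit 2), (nat_lit 39), (nat_lit 6),
 (nat_lit 1), (0, 3, 5), [74, 641], 37⟩,
  ⟨⟨27, -16, -28, -4, 15, -28, -6, -24, -11⟩, (.cons (nat_lit 2196) (nat_lit 2105) (nat_lit 331) (nat_lit 1)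
 (.cons (nat_lit 864) (nat_lit 613) (nat_lit 819) (nat_lit 1) .nil)), (nat_lit 52), (nat_lit 47), (nat_lit 41),
 (nat_lit 1), (28, 28, 11), [729, 502], 37⟩,
  ⟨⟨3, 20, -32, 4, -25, -22, 26, 8, -19⟩, (.cons (nat_lit 1450) (nat_lit 1345) (nat_lit 447) (nat_lit 1) (.cons
 (nat_lit 739) (nat_lit 110) (nat_lit 776) (nat_lit 1) .nil)), (nat_lit 28), (nat_lit 14), (nat_lit 7),
 (nat_lit 1), (10, 3, 4), [1701, 53], 50⟩,
  mz,
  mz,
  ⟨⟨1, -12, -36, 16, 25, -18, 22, -16, -17⟩, (.cons (nat_lit 326) (nat_lit 1824) (nat_lit 824) (nat_lit 1)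
 (.cons (nat_lit 750) (nat_lit 77) (nat_lit 378) (nat_lit 1) .nil)), (nat_lit 8), (nat_lit 10), (nat_lit 14),
 (nat_lit 1), (21, 26, 28), [841, 474], 42⟩,
  ⟨⟨29, -12, 0, 10, 29, 0, 20, -4, -31⟩, (.cons (nat_lit 1711) (nat_lit 2052) (nat_lit 1943) (nat_lit 1) (.cons
 (nat_lit 539) (nat_lit 141) (nat_lit 791) (nat_lit 1) .nil)), (nat_lit 13), (nat_lit 43), (nat_lit 34),
 (nat_lit 1), (28, 15, 30), [1174, 477], 28⟩,
  ⟨⟨9, 8, -40, 10, -29, -10, -20, -4, -11⟩, (.cons (nat_lit 2196) (nat_lit 1167) (nat_lit 1280) (nat_lit 1)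
 (.cons (nat_lit 790) (nat_lit 532) (nat_lit 954) (nat_lit 1) .nil)), (nat_lit 52), (nat_lit 34), (nat_lit 48),
 (nat_lit 1), (27, 30, 2), [1775, 670], 45⟩,
  ⟨⟨-27, 16, -1, -4, 15, 32, 6, 24, -17⟩, (.cons (nat_lit 1866) (nat_lit 25) (nat_lit 400) (nat_lit 1) (.cons
 (nat_lit 221) (nat_lit 925) (nat_lit 1) (nat_lit 186) .nil)), (nat_lit 41), (nat_lit 22), (nat_lit 19),
 (nat_lit 1), (2, 29, 3), [501, 780], 26⟩,
  ⟨⟨9, -8, -40, 10, 29, -10, -20, 4, -11⟩, (.cons (nat_lit 1318) (nat_lit 259) (nat_lit 664) (nat_lit 1) (.cons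
 (nat_lit 618) (nat_lit 668) (nat_lit 158) (nat_lit 1) .nil)), (nat_lit 49), (nat_lit 2), (nat_lit 36),
 (nat_lit 1), (18, 20, 22), [22, 177], 24⟩,
  ⟨⟨3, -20, -32, -4, -25, 22, 26, -8, -19⟩, (.cons (nat_lit 1421) (nat_lit 1876) (nat_lit 699) (nat_lit 1)
 (.cons (nat_lit 692) (nat_lit 924) (nat_lit 260) (nat_lit 1) .nil)), (nat_lit 50), (nat_lit 34), (nat_lit 19),
 (nat_lit 1), (3, 27, 26), [2039, 259], 32⟩,
  ⟨⟨29, 12, 0, -10, 29, 0, 20, 4, -31⟩, (.cons (nat_lit 330) (nat_lit 1713) (nat_lit 334) (nat_lit 1) (.cons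
 (nat_lit 898) (nat_lit 519) (nat_lit 292) (nat_lit 1) .nil)), (nat_lit 49), (nat_lit 13), (nat_lit 30),
 (nat_lit 1), (26, 6, 19), [776, 734], 24⟩,
  ⟨⟨31, 0, -31, 10, -19, 20, 4, -20, -23⟩, (.cons (nat_lit 1186) (nat_lit 810) (nat_lit 835) (nat_lit 1) (.cons
 (nat_lit 206) (nat_lit 331) (nat_lit 240) (nat_lit 1) .nil)), (nat_lit 17), (nat_lit 42), (nat_lit 47),
 (nat_lit 1), (0, 9, 16), [735, 529], 18⟩,
  ⟨⟨1, 12, 35, 16, -25, 2, 22, 16, -5⟩, (.cons (nat_lit 2024) (nat_lit 1732) (nat_lit 1081) (nat_lit 1) (.cons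
 (nat_lit 253) (nat_lit 314) (nat_lit 687) (nat_lit 1) .nil)), (nat_lit 30), (nat_lit 39), (nat_lit 34),
 (nat_lit 1), (30, 15, 9), [522, 760], 51⟩,
  ⟨⟨33, -8, -16, 4, 15, -32, 6, -24, -17⟩, (.cons (nat_lit 2196) (nat_lit 1798) (nat_lit 1210) (nat_lit 1)
 (.cons (nat_lit 793) (nat_lit 799) (nat_lit 600) (nat_lit 1) .nil)), (nat_lit 52), (nat_lit 6), (nat_lit 11),
 (nat_lit 1), (23, 15, 7), [1702, 29], 10⟩,
  ⟨⟨1, 12, -36, 16, -25, -18, 22, 16, -17⟩, (.cons (nat_lit 1645) (nat_lit 2195) (nat_lit 167) (nat_lit 1)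
 (.cons (nat_lit 247) (nat_lit 852) (nat_lit 433) (nat_lit 1) .nil)), (nat_lit 28), (nat_lit 4), (nat_lit 51),
 (nat_lit 1), (19, 25, 15), [167, 606], 50⟩,
  ⟨⟨-27, 20, 8, 10, 19, 20, 4, 20, -23⟩, (.cons (nat_lit 2196) (nat_lit 911) (nat_lit 1562) (nat_lit 1) (.cons
 (nat_lit 768) (nat_lit 199) (nat_lit 856) (nat_lit 1) .nil)), (nat_lit 52), (nat_lit 43), (nat_lit 26),
 (nat_lit 1), (23, 11, 23), [1090, 521], 26⟩]

/-- Moves. -/
noncomputable def t4_2 : List Mv := [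
  mz,
  mz,
  mz,
  mz,
  ⟨⟨51, 20, -47, 10, -47, -30, -2, 20, -47⟩, (.cons (nat_lit 1558) (nat_lit 1986) (nat_lit 1) (nat_lit 572)
 (.cons (nat_lit 54) (nat_lit 92) (nat_lit 897) (nat_lit 1) .nil)), (nat_lit 15), (nat_lit 0), (nat_lit 0),
 (nat_lit 0), (24, 39, 24), [1420, 679], 0⟩,
  ⟨⟨51, -20, -47, 10, 47, -30, -2, -20, -47⟩, (.cons (nat_lit 227) (nat_lit 816) (nat_lit 641) (nat_lit 1)
 (.cons (nat_lit 179) (nat_lit 116) (nat_lit 31) (nat_lit 1) .nil)), (nat_lit 15), (nat_lit 0), (nat_lit 0),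
 (nat_lit 0), (12, 46, 12), [1373, 433], 0⟩,
  ⟨⟨15, 56, -11, -28, 5, -36, 40, 8, -47⟩, (.cons (nat_lit 1985) (nat_lit 306) (nat_lit 1153) (nat_lit 1)
 (.cons (nat_lit 563) (nat_lit 140) (nat_lit 418) (nat_lit 1) .nil)), (nat_lit 28), (nat_lit 0), (nat_lit 0),
 (nat_lit 0), (1, 37, 38), [938, 365], 0⟩,
  mz,
  mz,
  ⟨⟨-33, -20, -32, -8, -45, 34, 24, -24, -49⟩, (.cons (nat_lit 1746) (nat_lit 276) (nat_lit 1247) (nat_lit 1)
 (.cons (nat_lit 360) (nat_lit 153) (nat_lit 616) (nat_lit 1) .nil)), (nat_lit 42), (nat_lit 0), (nat_lit 0),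
 (nat_lit 0), (35, 39, 42), [1358, 6], 0⟩,
  ⟨⟨-15, -56, 4, 28, -5, -64, -40, -8, -7⟩, (.cons (nat_lit 215) (nat_lit 2029) (nat_lit 1990) (nat_lit 1)
 (.cons (nat_lit 405) (nat_lit 765) (nat_lit 345) (nat_lit 1) .nil)), (nat_lit 28), (nat_lit 0), (nat_lit 0),
 (nat_lit 0), (10, 52, 9), [1632, 347], 0⟩,
  ⟨⟨15, -32, 44, 50, 17, -30, 14, -44, -19⟩, (.cons (nat_lit 801) (nat_lit 375) (nat_lit 875) (nat_lit 1)
 (.cons (nat_lit 419) (nat_lit 90) (nat_lit 942) (nat_lit 1) .nil)), (nat_lit 41), (nat_lit 0), (nat_lit 0),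
 (nat_lit 0), (29, 26, 20), [660, 561], 0⟩,
  ⟨⟨-51, 20, 4, 10, 47, 20, 2, 20, -49⟩, (.cons (nat_lit 2196) (nat_lit 2090) (nat_lit 1750) (nat_lit 1) (.cons
 (nat_lit 960) (nat_lit 729) (nat_lit 95) (nat_lit 1) .nil)), (nat_lit 12), (nat_lit 0), (nat_lit 0), (nat_lit
 0), (48, 28, 48), [348, 452], 0⟩,
  mz,
  mz,
  ⟨⟨-51, -20, 4, 10, -47, 20, 2, -20, -49⟩, (.cons (nat_lit 282) (nat_lit 734) (nat_lit 360) (nat_lit 1) (.cons
 (nat_lit 0) (nat_lit 355) (nat_lit 717) (nat_lit 1) .nil)), (nat_lit 12), (nat_lit 0), (nat_lit 0), (nat_lit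
 0), (36, 21, 36), [1475, 798], 0⟩,
  ⟨⟨15, 52, 16, 10, 17, -60, 46, 4, -11⟩, (.cons (nat_lit 2103) (nat_lit 1629) (nat_lit 531) (nat_lit 1) (.cons
 (nat_lit 368) (nat_lit 96) (nat_lit 284) (nat_lit 1) .nil)), (nat_lit 44), (nat_lit 0), (nat_lit 0), (nat_lit
 0), (24, 16, 10), [736, 325], 0⟩,
  ⟨⟨31, -48, -4, 10, 17, 50, 46, 4, -35⟩, (.cons (nat_lit 1613) (nat_lit 1429) (nat_lit 55) (nat_lit 1) (.cons
 (nat_lit 191) (nat_lit 642) (nat_lit 364) (nat_lit 1) .nil)), (nat_lit 43), (nat_lit 0), (nat_lit 0), (nat_lit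
 0), (18, 40, 25), [217, 544], 0⟩,
  ⟨⟨-57, -4, 40, -8, 45, -26, -24, -24, -25⟩, (.cons (nat_lit 1525) (nat_lit 1625) (nat_lit 1940) (nat_lit 1)
 (.cons (nat_lit 196) (nat_lit 587) (nat_lit 115) (nat_lit 1) .nil)), (nat_lit 9), (nat_lit 0), (nat_lit 0),
 (nat_lit 0), (12, 24, 19), [1083, 816], 0⟩,
  mz,
  mz,
  ⟨⟨57, 4, -17, -8, 45, 34, 24, 24, -49⟩, (.cons (nat_lit 2196) (nat_lit 684) (nat_lit 1161) (nat_lit 1) (.cons
 (nat_lit 960) (nat_lit 604) (nat_lit 119) (nat_lit 1) .nil)), (nat_lit 21), (nat_lit 0), (nat_lit 0), (nat_lit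
 0), (20, 13, 14), [696, 77], 0⟩,
  ⟨⟨45, 28, -49, -28, 45, 14, 0, 0, -53⟩, (.cons (nat_lit 1093) (nat_lit 645) (nat_lit 774) (nat_lit 1) (.cons
 (nat_lit 869) (nat_lit 665) (nat_lit 902) (nat_lit 1) .nil)), (nat_lit 31), (nat_lit 0), (nat_lit 0), (nat_lit
 0), (24, 31, 0), [2109, 220], 0⟩,
  mz,
  ⟨⟨-13, 48, -27, -30, 17, 60, 30, 36, -7⟩, (.cons (nat_lit 1673) (nat_lit 1603) (nat_lit 1708) (nat_lit 1)
 (.cons (nat_lit 288) (nat_lit 910) (nat_lit 738) (nat_lit 1) .nil)), (nat_lit 52), (nat_lit 0), (nat_lit 0),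
 (nat_lit 0), (11, 5, 48), [470, 627], 0⟩,
  mz,
  ⟨⟨-25, -48, -11, 28, 5, -64, -40, 8, -7⟩, (.cons (nat_lit 2047) (nat_lit 1646) (nat_lit 2072) (nat_lit 1)
 (.cons (nat_lit 51) (nat_lit 703) (nat_lit 117) (nat_lit 1) .nil)), (nat_lit 36), (nat_lit 0), (nat_lit 0),
 (nat_lit 0), (2, 2, 35), [320, 387], 0⟩,
  mz,
  ⟨⟨-1, -48, 37, 52, 5, -16, 8, -40, -31⟩, (.cons (nat_lit 2083) (nat_lit 1929) (nat_lit 1819) (nat_lit 1)
 (.cons (nat_lit 862) (nat_lit 406) (nat_lit 59) (nat_lit 1) .nil)), (nat_lit 6), (nat_lit 0), (nat_lit 0),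
 (nat_lit 0), (29, 29, 33), [1292, 523], 0⟩,
  ⟨⟨-13, 48, 40, 30, -17, 30, 30, 36, -23⟩, (.cons (nat_lit 2196) (nat_lit 109) (nat_lit 1440) (nat_lit 1)
 (.cons (nat_lit 960) (nat_lit 35) (nat_lit 6) (nat_lit 1) .nil)), (nat_lit 29), (nat_lit 0), (nat_lit 0),
 (nat_lit 0), (42, 5, 5), [1106, 349], 0⟩,
  mz,
  ⟨⟨45, -28, -49, 28, 45, -14, 0, 0, -53⟩, (.cons (nat_lit 599) (nat_lit 317) (nat_lit 2138) (nat_lit 1) (.cons
 (nat_lit 94) (nat_lit 916) (nat_lit 741) (nat_lit 1) .nil)), (nat_lit 22), (nat_lit 0), (nat_lit 0), (nat_lit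
 0), (39, 49, 0), [796, 778], 0⟩,
  mz,
  ⟨⟨-39, 28, -17, 10, -33, -50, 18, 36, -37⟩, (.cons (nat_lit 573) (nat_lit 918) (nat_lit 1163) (nat_lit 1)
 (.cons (nat_lit 305) (nat_lit 200) (nat_lit 276) (nat_lit 1) .nil)), (nat_lit 50), (nat_lit 0), (nat_lit 0),
 (nat_lit 0), (43, 8, 25), [1256, 488], 0⟩,
  mz,
  mz,
  ⟨⟨1, -48, 36, 52, -5, -36, -8, -40, -23⟩, (.cons (nat_lit 10) (nat_lit 950) (nat_lit 21) (nat_lit 1) (.cons
 (nat_lit 832) (nat_lit 61) (nat_lit 803) (nat_lit 1) .nil)), (nat_lit 39), (nat_lit 0), (nat_lit 0), (nat_lit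
 0), (41, 12, 43), [63, 548], 0⟩,
  ⟨⟨-1, 48, 37, 52, -5, -16, 8, 40, -31⟩, (.cons (nat_lit 537) (nat_lit 1449) (nat_lit 455) (nat_lit 1) (.cons
 (nat_lit 806) (nat_lit 568) (nat_lit 163) (nat_lit 1) .nil)), (nat_lit 6), (nat_lit 0), (nat_lit 0), (nat_lit
 0), (26, 26, 4), [550, 348], 0⟩,
  ⟨⟨39, 28, -56, -10, -33, -40, -18, 36, -19⟩, (.cons (nat_lit 1089) (nat_lit 1292) (nat_lit 1907) (nat_lit 1)
 (.cons (nat_lit 892) (nat_lit 194) (nat_lit 829) (nat_lit 1) .nil)), (nat_lit 50), (nat_lit 0), (nat_lit 0),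
 (nat_lit 0), (34, 47, 21), [2149, 479], 0⟩,
  ⟨⟨25, 48, -36, -28, -5, -36, 40, -8, -47⟩, (.cons (nat_lit 1538) (nat_lit 2102) (nat_lit 657) (nat_lit 1)
 (.cons (nat_lit 812) (nat_lit 440) (nat_lit 483) (nat_lit 1) .nil)), (nat_lit 36), (nat_lit 0), (nat_lit 0),
 (nat_lit 0), (34, 34, 12), [462, 849], 0⟩,
  ⟨⟨1, 48, 36, 52, 5, -36, -8, 40, -23⟩, (.cons (nat_lit 1311) (nat_lit 1035) (nat_lit 1972) (nat_lit 1) (.cons
 (nat_lit 552) (nat_lit 125) (nat_lit 504) (nat_lit 1) .nil)), (nat_lit 39), (nat_lit 0), (nat_lit 0), (nat_lit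
 0), (38, 15, 14), [1005, 901], 0⟩,
  ⟨⟨31, 48, -4, -10, 17, -50, 46, -4, -35⟩, (.cons (nat_lit 96) (nat_lit 1349) (nat_lit 1683) (nat_lit 1)
 (.cons (nat_lit 250) (nat_lit 564) (nat_lit 906) (nat_lit 1) .nil)), (nat_lit 11), (nat_lit 0), (nat_lit 0),
 (nat_lit 0), (15, 2, 12), [1264, 415], 0⟩,
  ⟨⟨-57, 4, 40, -8, -45, -26, -24, 24, -25⟩, (.cons (nat_lit 1856) (nat_lit 1842) (nat_lit 1206) (nat_lit 1)
 (.cons (nat_lit 638) (nat_lit 408) (nat_lit 41) (nat_lit 1) .nil)), (nat_lit 9), (nat_lit 0), (nat_lit 0),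
 (nat_lit 0), (25, 50, 44), [223, 363], 0⟩,
  ⟨⟨15, 32, 44, -50, 17, 30, 14, 44, -19⟩, (.cons (nat_lit 79) (nat_lit 1353) (nat_lit 49) (nat_lit 1) (.cons
 (nat_lit 800) (nat_lit 535) (nat_lit 944) (nat_lit 1) .nil)), (nat_lit 17), (nat_lit 0), (nat_lit 0), (nat_lit
 0), (27, 16, 4), [945, 271], 0⟩,
  ⟨⟨-15, 32, 59, 50, 17, -20, -14, 44, -5⟩, (.cons (nat_lit 2007) (nat_lit 1403) (nat_lit 1784) (nat_lit 1)
 (.cons (nat_lit 87) (nat_lit 950) (nat_lit 630) (nat_lit 1) .nil)), (nat_lit 17), (nat_lit 0), (nat_lit 0),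
 (nat_lit 0), (6, 33, 48), [1516, 955], 0⟩,
  mz,
  ⟨⟨43, 12, 20, 30, 17, -60, 30, -36, -7⟩, (.cons (nat_lit 2196) (nat_lit 1151) (nat_lit 234) (nat_lit 1)
 (.cons (nat_lit 960) (nat_lit 409) (nat_lit 589) (nat_lit 1) .nil)), (nat_lit 46), (nat_lit 0), (nat_lit 0),
 (nat_lit 0), (23, 37, 37), [846, 921], 0⟩,
  ⟨⟨-15, -32, 59, 50, -17, -20, -14, -44, -5⟩, (.cons (nat_lit 1024) (nat_lit 693) (nat_lit 1960) (nat_lit 1)
 (.cons (nat_lit 114) (nat_lit 469) (nat_lit 22) (nat_lit 1) .nil)), (nat_lit 17), (nat_lit 0), (nat_lit 0),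
 (nat_lit 0), (8, 44, 11), [394, 730], 0⟩,
  ⟨⟨31, 48, -27, -10, 17, 60, 46, -4, -11⟩, (.cons (nat_lit 834) (nat_lit 1316) (nat_lit 450) (nat_lit 1)
 (.cons (nat_lit 295) (nat_lit 111) (nat_lit 540) (nat_lit 1) .nil)), (nat_lit 11), (nat_lit 0), (nat_lit 0),
 (nat_lit 0), (36, 26, 50), [4, 505], 0⟩,
  ⟨⟨-39, -28, -17, -10, -33, 50, 18, -36, -37⟩, (.cons (nat_lit 1279) (nat_lit 464) (nat_lit 1570) (nat_lit 1)
 (.cons (nat_lit 406) (nat_lit 607) (nat_lit 67) (nat_lit 1) .nil)), (nat_lit 38), (nat_lit 0), (nat_lit 0),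
 (nat_lit 0), (5, 4, 14), [1879, 519], 0⟩,
  ⟨⟨39, -28, -56, 10, -33, 40, -18, -36, -19⟩, (.cons (nat_lit 1850) (nat_lit 136) (nat_lit 432) (nat_lit 1)
 (.cons (nat_lit 766) (nat_lit 351) (nat_lit 207) (nat_lit 1) .nil)), (nat_lit 38), (nat_lit 0), (nat_lit 0),
 (nat_lit 0), (49, 18, 10), [675, 142], 0⟩,
  mz,
  ⟨⟨43, 12, -63, -30, -17, -30, 30, -36, -23⟩, (.cons (nat_lit 1849) (nat_lit 2003) (nat_lit 1194) (nat_lit 1)
 (.cons (nat_lit 317) (nat_lit 791) (nat_lit 538) (nat_lit 1) .nil)), (nat_lit 24), (nat_lit 0), (nat_lit 0),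
 (nat_lit 0), (2, 6, 47), [996, 401], 0⟩]

/-- Moves. -/
noncomputable def t4_4 : List Mv := [
  mz,
  mz,
  mz,
  mz,
  ⟨⟨51, 20, -47, -10, 47, 30, -2, 20, -47⟩, (.cons (nat_lit 786) (nat_lit 53) (nat_lit 1496) (nat_lit 1) (.cons
 (nat_lit 613) (nat_lit 372) (nat_lit 945) (nat_lit 1) .nil)), (nat_lit 12), (nat_lit 0), (nat_lit 0), (nat_lit
 0), (24, 14, 24), [1685, 898], 0⟩,
  ⟨⟨51, -20, -47, 10, 47, -30, -2, -20, -47⟩, (.cons (nat_lit 227) (nat_lit 816) (nat_lit 641) (nat_lit 1)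
 (.cons (nat_lit 179) (nat_lit 116) (nat_lit 31) (nat_lit 1) .nil)), (nat_lit 15), (nat_lit 0), (nat_lit 0),
 (nat_lit 0), (12, 46, 12), [1373, 433], 0⟩,
  ⟨⟨25, -48, -36, 28, -5, 36, 40, 8, -47⟩, (.cons (nat_lit 106) (nat_lit 617) (nat_lit 798) (nat_lit 1) (.cons
 (nat_lit 822) (nat_lit 557) (nat_lit 413) (nat_lit 1) .nil)), (nat_lit 40), (nat_lit 0), (nat_lit 0), (nat_lit
 0), (37, 16, 38), [405, 606], 0⟩,
  mz,
  mz,
  ⟨⟨57, -4, -17, 8, 45, -34, 24, -24, -49⟩, (.cons (nat_lit 2196) (nat_lit 79) (nat_lit 127) (nat_lit 1) (.cons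
 (nat_lit 960) (nat_lit 721) (nat_lit 843) (nat_lit 1) .nil)), (nat_lit 9), (nat_lit 0), (nat_lit 0), (nat_lit
 0), (7, 14, 42), [128, 892], 0⟩,
  ⟨⟨-25, 48, -11, -28, 5, 64, -40, -8, -7⟩, (.cons (nat_lit 523) (nat_lit 1524) (nat_lit 1021) (nat_lit 1)
 (.cons (nat_lit 118) (nat_lit 45) (nat_lit 812) (nat_lit 1) .nil)), (nat_lit 40), (nat_lit 0), (nat_lit 0),
 (nat_lit 0), (52, 1, 9), [265, 678], 0⟩,
  ⟨⟨15, -32, 44, 50, 17, -30, 14, -44, -19⟩, (.cons (nat_lit 801) (nat_lit 375) (nat_lit 875) (nat_lit 1)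
 (.cons (nat_lit 419) (nat_lit 90) (nat_lit 942) (nat_lit 1) .nil)), (nat_lit 41), (nat_lit 0), (nat_lit 0),
 (nat_lit 0), (29, 26, 20), [660, 561], 0⟩,
  ⟨⟨-51, 20, 4, -10, -47, -20, 2, 20, -49⟩, (.cons (nat_lit 1862) (nat_lit 2023) (nat_lit 1962) (nat_lit 1)
 (.cons (nat_lit 705) (nat_lit 546) (nat_lit 1) (nat_lit 0) .nil)), (nat_lit 15), (nat_lit 0), (nat_lit 0),
 (nat_lit 0), (48, 25, 48), [1107, 108], 0⟩,
  mz,
  mz,
  ⟨⟨-51, -20, 4, 10, -47, 20, 2, -20, -49⟩, (.cons (nat_lit 282) (nat_lit 734) (nat_lit 360) (nat_lit 1) (.cons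
 (nat_lit 0) (nat_lit 355) (nat_lit 717) (nat_lit 1) .nil)), (nat_lit 12), (nat_lit 0), (nat_lit 0), (nat_lit
 0), (36, 21, 36), [1475, 798], 0⟩,
  ⟨⟨15, 52, 16, 10, 17, -60, 46, 4, -11⟩, (.cons (nat_lit 2103) (nat_lit 1629) (nat_lit 531) (nat_lit 1) (.cons
 (nat_lit 368) (nat_lit 96) (nat_lit 284) (nat_lit 1) .nil)), (nat_lit 44), (nat_lit 0), (nat_lit 0), (nat_lit
 0), (24, 16, 10), [736, 325], 0⟩,
  ⟨⟨31, -48, -4, -10, -17, -50, 46, 4, -35⟩, (.cons (nat_lit 134) (nat_lit 1705) (nat_lit 1184) (nat_lit 1)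
 (.cons (nat_lit 364) (nat_lit 733) (nat_lit 916) (nat_lit 1) .nil)), (nat_lit 11), (nat_lit 0), (nat_lit 0),
 (nat_lit 0), (18, 13, 25), [54, 218], 0⟩,
  ⟨⟨-57, -4, 40, -8, 45, -26, -24, -24, -25⟩, (.cons (nat_lit 1525) (nat_lit 1625) (nat_lit 1940) (nat_lit 1)
 (.cons (nat_lit 196) (nat_lit 587) (nat_lit 115) (nat_lit 1) .nil)), (nat_lit 9), (nat_lit 0), (nat_lit 0),
 (nat_lit 0), (12, 24, 19), [1083, 816], 0⟩,
  mz,
  mz,
  ⟨⟨-33, 20, -32, 8, -45, -34, 24, 24, -49⟩, (.cons (nat_lit 1594) (nat_lit 1939) (nat_lit 2088) (nat_lit 1)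
 (.cons (nat_lit 491) (nat_lit 1) (nat_lit 715) (nat_lit 1) .nil)), (nat_lit 18), (nat_lit 0), (nat_lit 0),
 (nat_lit 0), (47, 40, 14), [2101, 340], 0⟩,
  ⟨⟨45, 28, -49, -28, 45, 14, 0, 0, -53⟩, (.cons (nat_lit 1093) (nat_lit 645) (nat_lit 774) (nat_lit 1) (.cons
 (nat_lit 869) (nat_lit 665) (nat_lit 902) (nat_lit 1) .nil)), (nat_lit 31), (nat_lit 0), (nat_lit 0), (nat_lit
 0), (24, 31, 0), [2109, 220], 0⟩,
  mz,
  ⟨⟨-13, 48, -27, -30, 17, 60, 30, 36, -7⟩, (.cons (nat_lit 1673) (nat_lit 1603) (nat_lit 1708) (nat_lit 1)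
 (.cons (nat_lit 288) (nat_lit 910) (nat_lit 738) (nat_lit 1) .nil)), (nat_lit 52), (nat_lit 0), (nat_lit 0),
 (nat_lit 0), (11, 5, 48), [470, 627], 0⟩,
  mz,
  ⟨⟨-25, -48, -11, 28, 5, -64, -40, 8, -7⟩, (.cons (nat_lit 2047) (nat_lit 1646) (nat_lit 2072) (nat_lit 1)
 (.cons (nat_lit 51) (nat_lit 703) (nat_lit 117) (nat_lit 1) .nil)), (nat_lit 36), (nat_lit 0), (nat_lit 0),
 (nat_lit 0), (2, 2, 35), [320, 387], 0⟩,
  mz,
  ⟨⟨-1, -48, 37, 52, 5, -16, 8, -40, -31⟩, (.cons (nat_lit 2083) (nat_lit 1929) (nat_lit 1819) (nat_lit 1)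
 (.cons (nat_lit 862) (nat_lit 406) (nat_lit 59) (nat_lit 1) .nil)), (nat_lit 6), (nat_lit 0), (nat_lit 0),
 (nat_lit 0), (29, 29, 33), [1292, 523], 0⟩,
  ⟨⟨-13, 48, 40, -30, 17, -30, 30, 36, -23⟩, (.cons (nat_lit 2147) (nat_lit 2022) (nat_lit 1606) (nat_lit 1)
 (.cons (nat_lit 324) (nat_lit 231) (nat_lit 52) (nat_lit 1) .nil)), (nat_lit 52), (nat_lit 0), (nat_lit 0),
 (nat_lit 0), (42, 48, 5), [463, 580], 0⟩,
  mz,
  ⟨⟨45, -28, -49, 28, 45, -14, 0, 0, -53⟩, (.cons (nat_lit 599) (nat_lit 317) (nat_lit 2138) (nat_lit 1) (.cons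
 (nat_lit 94) (nat_lit 916) (nat_lit 741) (nat_lit 1) .nil)), (nat_lit 22), (nat_lit 0), (nat_lit 0), (nat_lit
 0), (39, 49, 0), [796, 778], 0⟩,
  mz,
  ⟨⟨-39, 28, -17, 10, -33, -50, 18, 36, -37⟩, (.cons (nat_lit 573) (nat_lit 918) (nat_lit 1163) (nat_lit 1)
 (.cons (nat_lit 305) (nat_lit 200) (nat_lit 276) (nat_lit 1) .nil)), (nat_lit 50), (nat_lit 0), (nat_lit 0),
 (nat_lit 0), (43, 8, 25), [1256, 488], 0⟩,
  mz,
  mz,
  ⟨⟨-9, 8, -59, -52, 5, 36, -8, -40, -23⟩, (.cons (nat_lit 1948) (nat_lit 1212) (nat_lit 1830) (nat_lit 1)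
 (.cons (nat_lit 603) (nat_lit 853) (nat_lit 563) (nat_lit 1) .nil)), (nat_lit 26), (nat_lit 0), (nat_lit 0),
 (nat_lit 0), (2, 41, 43), [1410, 336], 0⟩,
  ⟨⟨-1, 48, 37, -52, 5, 16, 8, 40, -31⟩, (.cons (nat_lit 58) (nat_lit 206) (nat_lit 1878) (nat_lit 1) (.cons
 (nat_lit 919) (nat_lit 570) (nat_lit 166) (nat_lit 1) .nil)), (nat_lit 39), (nat_lit 0), (nat_lit 0), (nat_lit
 0), (26, 27, 4), [723, 666], 0⟩,
  ⟨⟨-57, 8, 37, -10, -33, -40, -18, 36, -19⟩, (.cons (nat_lit 1984) (nat_lit 2164) (nat_lit 466) (nat_lit 1)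
 (.cons (nat_lit 703) (nat_lit 924) (nat_lit 949) (nat_lit 1) .nil)), (nat_lit 49), (nat_lit 0), (nat_lit 0),
 (nat_lit 0), (40, 47, 21), [357, 688], 0⟩,
  ⟨⟨15, -56, -11, 28, 5, 36, 40, -8, -47⟩, (.cons (nat_lit 947) (nat_lit 451) (nat_lit 1104) (nat_lit 1) (.cons
 (nat_lit 572) (nat_lit 700) (nat_lit 187) (nat_lit 1) .nil)), (nat_lit 37), (nat_lit 0), (nat_lit 0), (nat_lit
 0), (31, 19, 12), [1085, 677], 0⟩,
  ⟨⟨-9, -8, -59, 52, 5, -36, -8, 40, -23⟩, (.cons (nat_lit 1088) (nat_lit 623) (nat_lit 834) (nat_lit 1) (.cons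
 (nat_lit 904) (nat_lit 643) (nat_lit 156) (nat_lit 1) .nil)), (nat_lit 10), (nat_lit 0), (nat_lit 0), (nat_lit
 0), (29, 15, 14), [106, 210], 0⟩,
  ⟨⟨31, 48, -4, 10, -17, 50, 46, -4, -35⟩, (.cons (nat_lit 416) (nat_lit 684) (nat_lit 1388) (nat_lit 1) (.cons
 (nat_lit 29) (nat_lit 801) (nat_lit 600) (nat_lit 1) .nil)), (nat_lit 43), (nat_lit 0), (nat_lit 0), (nat_lit
 0), (15, 51, 12), [193, 81], 0⟩,
  ⟨⟨-57, 4, 40, -8, -45, -26, -24, 24, -25⟩, (.cons (nat_lit 1856) (nat_lit 1842) (nat_lit 1206) (nat_lit 1)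
 (.cons (nat_lit 638) (nat_lit 408) (nat_lit 41) (nat_lit 1) .nil)), (nat_lit 9), (nat_lit 0), (nat_lit 0),
 (nat_lit 0), (25, 50, 44), [223, 363], 0⟩,
  ⟨⟨15, 32, 44, 50, -17, -30, 14, 44, -19⟩, (.cons (nat_lit 1920) (nat_lit 526) (nat_lit 1) (nat_lit 1209)
 (.cons (nat_lit 232) (nat_lit 602) (nat_lit 145) (nat_lit 1) .nil)), (nat_lit 41), (nat_lit 0), (nat_lit 0),
 (nat_lit 0), (27, 37, 4), [917, 648], 0⟩,
  ⟨⟨-15, 32, 59, 50, 17, -20, -14, 44, -5⟩, (.cons (nat_lit 2007) (nat_lit 1403) (nat_lit 1784) (nat_lit 1)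
 (.cons (nat_lit 87) (nat_lit 950) (nat_lit 630) (nat_lit 1) .nil)), (nat_lit 17), (nat_lit 0), (nat_lit 0),
 (nat_lit 0), (6, 33, 48), [1516, 955], 0⟩,
  mz,
  ⟨⟨-13, -48, -27, 30, 17, -60, 30, -36, -7⟩, (.cons (nat_lit 958) (nat_lit 1363) (nat_lit 848) (nat_lit 1)
 (.cons (nat_lit 753) (nat_lit 183) (nat_lit 704) (nat_lit 1) .nil)), (nat_lit 29), (nat_lit 0), (nat_lit 0),
 (nat_lit 0), (14, 37, 37), [522, 317], 0⟩,
  ⟨⟨-15, -32, 59, -50, 17, 20, -14, -44, -5⟩, (.cons (nat_lit 1575) (nat_lit 2102) (nat_lit 767) (nat_lit 1)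
 (.cons (nat_lit 945) (nat_lit 479) (nat_lit 490) (nat_lit 1) .nil)), (nat_lit 41), (nat_lit 0), (nat_lit 0),
 (nat_lit 0), (8, 9, 11), [1705, 628], 0⟩,
  ⟨⟨15, -52, 16, -10, 17, 60, 46, -4, -11⟩, (.cons (nat_lit 964) (nat_lit 242) (nat_lit 1) (nat_lit 1053)
 (.cons (nat_lit 914) (nat_lit 553) (nat_lit 801) (nat_lit 1) .nil)), (nat_lit 47), (nat_lit 0), (nat_lit 0),
 (nat_lit 0), (14, 26, 50), [2101, 809], 0⟩,
  ⟨⟨57, -8, -20, 10, 33, -50, 18, -36, -37⟩, (.cons (nat_lit 2196) (nat_lit 1920) (nat_lit 1887) (nat_lit 1)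
 (.cons (nat_lit 960) (nat_lit 471) (nat_lit 88) (nat_lit 1) .nil)), (nat_lit 49), (nat_lit 0), (nat_lit 0),
 (nat_lit 0), (9, 49, 14), [1176, 912], 0⟩,
  ⟨⟨39, -28, -56, -10, 33, -40, -18, -36, -19⟩, (.cons (nat_lit 2196) (nat_lit 635) (nat_lit 242) (nat_lit 1)
 (.cons (nat_lit 960) (nat_lit 74) (nat_lit 476) (nat_lit 1) .nil)), (nat_lit 50), (nat_lit 0), (nat_lit 0),
 (nat_lit 0), (49, 35, 10), [284, 663], 0⟩,
  mz,
  ⟨⟨43, 12, -63, -30, -17, -30, 30, -36, -23⟩, (.cons (nat_lit 1849) (nat_lit 2003) (nat_lit 1194) (nat_lit 1)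
 (.cons (nat_lit 317) (nat_lit 791) (nat_lit 538) (nat_lit 1) .nil)), (nat_lit 24), (nat_lit 0), (nat_lit 0),
 (nat_lit 0), (2, 6, 47), [996, 401], 0⟩]

/-- Moves. -/
noncomputable def t4_5 : List Mv := [
  mz,
  mz,
  mz,
  mz,
  ⟨⟨51, 20, -47, 10, -47, -30, -2, 20, -47⟩, (.cons (nat_lit 1558) (nat_lit 1986) (nat_lit 1) (nat_lit 572)
 (.cons (nat_lit 54) (nat_lit 92) (nat_lit 897) (nat_lit 1) .nil)), (nat_lit 15), (nat_lit 0), (nat_lit 0),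
 (nat_lit 0), (24, 39, 24), [1420, 679], 0⟩,
  ⟨⟨51, -20, -47, 10, 47, -30, -2, -20, -47⟩, (.cons (nat_lit 227) (nat_lit 816) (nat_lit 641) (nat_lit 1)
 (.cons (nat_lit 179) (nat_lit 116) (nat_lit 31) (nat_lit 1) .nil)), (nat_lit 15), (nat_lit 0), (nat_lit 0),
 (nat_lit 0), (12, 46, 12), [1373, 433], 0⟩,
  ⟨⟨15, 56, -11, -28, 5, -36, 40, 8, -47⟩, (.cons (nat_lit 1985) (nat_lit 306) (nat_lit 1153) (nat_lit 1)
 (.cons (nat_lit 563) (nat_lit 140) (nat_lit 418) (nat_lit 1) .nil)), (nat_lit 28), (nat_lit 0), (nat_lit 0),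
 (nat_lit 0), (1, 37, 38), [938, 365], 0⟩,
  mz,
  mz,
  ⟨⟨-33, -20, -32, -8, -45, 34, 24, -24, -49⟩, (.cons (nat_lit 1746) (nat_lit 276) (nat_lit 1247) (nat_lit 1)
 (.cons (nat_lit 360) (nat_lit 153) (nat_lit 616) (nat_lit 1) .nil)), (nat_lit 42), (nat_lit 0), (nat_lit 0),
 (nat_lit 0), (35, 39, 42), [1358, 6], 0⟩,
  ⟨⟨-25, 48, -11, 28, -5, -64, -40, -8, -7⟩, (.cons (nat_lit 264) (nat_lit 936) (nat_lit 557) (nat_lit 1)
 (.cons (nat_lit 620) (nat_lit 190) (nat_lit 795) (nat_lit 1) .nil)), (nat_lit 36), (nat_lit 0), (nat_lit 0),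
 (nat_lit 0), (52, 52, 9), [823, 627], 0⟩,
  ⟨⟨-1, -12, -63, -50, -17, 30, 14, -44, -19⟩, (.cons (nat_lit 1736) (nat_lit 304) (nat_lit 932) (nat_lit 1)
 (.cons (nat_lit 746) (nat_lit 801) (nat_lit 780) (nat_lit 1) .nil)), (nat_lit 48), (nat_lit 0), (nat_lit 0),
 (nat_lit 0), (44, 27, 20), [155, 26], 0⟩,
  ⟨⟨-51, 20, 4, -10, -47, -20, 2, 20, -49⟩, (.cons (nat_lit 1862) (nat_lit 2023) (nat_lit 1962) (nat_lit 1)
 (.cons (nat_lit 705) (nat_lit 546) (nat_lit 1) (nat_lit 0) .nil)), (nat_lit 15), (nat_lit 0), (nat_lit 0),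
 (nat_lit 0), (48, 25, 48), [1107, 108], 0⟩,
  mz,
  mz,
  ⟨⟨53, 0, -53, -10, 47, -20, 2, -20, -49⟩, (.cons (nat_lit 271) (nat_lit 761) (nat_lit 2049) (nat_lit 1)
 (.cons (nat_lit 859) (nat_lit 300) (nat_lit 279) (nat_lit 1) .nil)), (nat_lit 5), (nat_lit 0), (nat_lit 0),
 (nat_lit 0), (0, 32, 36), [981, 725], 0⟩,
  ⟨⟨15, 52, 16, -10, -17, 60, 46, 4, -11⟩, (.cons (nat_lit 833) (nat_lit 1296) (nat_lit 1980) (nat_lit 1)
 (.cons (nat_lit 955) (nat_lit 224) (nat_lit 202) (nat_lit 1) .nil)), (nat_lit 47), (nat_lit 0), (nat_lit 0),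
 (nat_lit 0), (24, 37, 10), [1057, 194], 0⟩,
  ⟨⟨15, 52, -31, 10, 17, 50, 46, 4, -35⟩, (.cons (nat_lit 1191) (nat_lit 944) (nat_lit 1952) (nat_lit 1) (.cons
 (nat_lit 718) (nat_lit 210) (nat_lit 291) (nat_lit 1) .nil)), (nat_lit 44), (nat_lit 0), (nat_lit 0), (nat_lit
 0), (7, 40, 25), [187, 315], 0⟩,
  ⟨⟨33, -20, -65, 8, -45, 26, -24, -24, -25⟩, (.cons (nat_lit 987) (nat_lit 1551) (nat_lit 1) (nat_lit 2119)
 (.cons (nat_lit 920) (nat_lit 535) (nat_lit 863) (nat_lit 1) .nil)), (nat_lit 42), (nat_lit 0), (nat_lit 0),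
 (nat_lit 0), (7, 29, 19), [854, 288], 0⟩,
  mz,
  mz,
  ⟨⟨57, 4, -17, -8, 45, 34, 24, 24, -49⟩, (.cons (nat_lit 2196) (nat_lit 684) (nat_lit 1161) (nat_lit 1) (.cons
 (nat_lit 960) (nat_lit 604) (nat_lit 119) (nat_lit 1) .nil)), (nat_lit 21), (nat_lit 0), (nat_lit 0), (nat_lit
 0), (20, 13, 14), [696, 77], 0⟩,
  ⟨⟨45, 28, -49, 28, -45, -14, 0, 0, -53⟩, (.cons (nat_lit 2196) (nat_lit 1037) (nat_lit 1782) (nat_lit 1)
 (.cons (nat_lit 960) (nat_lit 314) (nat_lit 876) (nat_lit 1) .nil)), (nat_lit 22), (nat_lit 0), (nat_lit 0),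
 (nat_lit 0), (24, 22, 0), [1705, 886], 0⟩,
  mz,
  ⟨⟨-13, 48, -27, 30, -17, -60, 30, 36, -7⟩, (.cons (nat_lit 271) (nat_lit 1647) (nat_lit 738) (nat_lit 1)
 (.cons (nat_lit 319) (nat_lit 5) (nat_lit 475) (nat_lit 1) .nil)), (nat_lit 29), (nat_lit 0), (nat_lit 0),
 (nat_lit 0), (11, 48, 48), [1340, 375], 0⟩,
  mz,
  ⟨⟨-25, -48, -11, 28, 5, -64, -40, 8, -7⟩, (.cons (nat_lit 2047) (nat_lit 1646) (nat_lit 2072) (nat_lit 1)
 (.cons (nat_lit 51) (nat_lit 703) (nat_lit 117) (nat_lit 1) .nil)), (nat_lit 36), (nat_lit 0), (nat_lit 0),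
 (nat_lit 0), (2, 2, 35), [320, 387], 0⟩,
  mz,
  ⟨⟨9, 8, -68, -52, -5, 16, 8, -40, -31⟩, (.cons (nat_lit 327) (nat_lit 11) (nat_lit 1779) (nat_lit 1) (.cons
 (nat_lit 140) (nat_lit 532) (nat_lit 711) (nat_lit 1) .nil)), (nat_lit 10), (nat_lit 0), (nat_lit 0), (nat_lit
 0), (4, 24, 33), [418, 203], 0⟩,
  ⟨⟨43, -12, -63, -30, 17, -30, 30, 36, -23⟩, (.cons (nat_lit 227) (nat_lit 1818) (nat_lit 1643) (nat_lit 1)
 (.cons (nat_lit 720) (nat_lit 244) (nat_lit 116) (nat_lit 1) .nil)), (nat_lit 24), (nat_lit 0), (nat_lit 0),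
 (nat_lit 0), (16, 48, 5), [653, 690], 0⟩,
  mz,
  ⟨⟨45, -28, -49, 28, 45, -14, 0, 0, -53⟩, (.cons (nat_lit 599) (nat_lit 317) (nat_lit 2138) (nat_lit 1) (.cons
 (nat_lit 94) (nat_lit 916) (nat_lit 741) (nat_lit 1) .nil)), (nat_lit 22), (nat_lit 0), (nat_lit 0), (nat_lit
 0), (39, 49, 0), [796, 778], 0⟩,
  mz,
  ⟨⟨-39, 28, -17, 10, -33, -50, 18, 36, -37⟩, (.cons (nat_lit 573) (nat_lit 918) (nat_lit 1163) (nat_lit 1)
 (.cons (nat_lit 305) (nat_lit 200) (nat_lit 276) (nat_lit 1) .nil)), (nat_lit 50), (nat_lit 0), (nat_lit 0),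
 (nat_lit 0), (43, 8, 25), [1256, 488], 0⟩,
  mz,
  mz,
  ⟨⟨-9, 8, -59, 52, -5, -36, -8, -40, -23⟩, (.cons (nat_lit 491) (nat_lit 1794) (nat_lit 1138) (nat_lit 1)
 (.cons (nat_lit 110) (nat_lit 242) (nat_lit 1) (nat_lit 930) .nil)), (nat_lit 10), (nat_lit 0), (nat_lit 0),
 (nat_lit 0), (2, 12, 43), [790, 566], 0⟩,
  ⟨⟨-1, 48, 37, 52, -5, -16, 8, 40, -31⟩, (.cons (nat_lit 537) (nat_lit 1449) (nat_lit 455) (nat_lit 1) (.cons
 (nat_lit 806) (nat_lit 568) (nat_lit 163) (nat_lit 1) .nil)), (nat_lit 6), (nat_lit 0), (nat_lit 0), (nat_lit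
 0), (26, 26, 4), [550, 348], 0⟩,
  ⟨⟨-57, 8, 37, -10, -33, -40, -18, 36, -19⟩, (.cons (nat_lit 1984) (nat_lit 2164) (nat_lit 466) (nat_lit 1)
 (.cons (nat_lit 703) (nat_lit 924) (nat_lit 949) (nat_lit 1) .nil)), (nat_lit 49), (nat_lit 0), (nat_lit 0),
 (nat_lit 0), (40, 47, 21), [357, 688], 0⟩,
  ⟨⟨25, 48, -36, 28, 5, 36, 40, -8, -47⟩, (.cons (nat_lit 305) (nat_lit 693) (nat_lit 518) (nat_lit 1) (.cons
 (nat_lit 625) (nat_lit 677) (nat_lit 208) (nat_lit 1) .nil)), (nat_lit 40), (nat_lit 0), (nat_lit 0), (nat_lit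
 0), (34, 19, 12), [1184, 329], 0⟩,
  ⟨⟨-9, -8, -59, 52, 5, -36, -8, 40, -23⟩, (.cons (nat_lit 1088) (nat_lit 623) (nat_lit 834) (nat_lit 1) (.cons
 (nat_lit 904) (nat_lit 643) (nat_lit 156) (nat_lit 1) .nil)), (nat_lit 10), (nat_lit 0), (nat_lit 0), (nat_lit
 0), (29, 15, 14), [106, 210], 0⟩,
  ⟨⟨31, 48, -4, 10, -17, 50, 46, -4, -35⟩, (.cons (nat_lit 416) (nat_lit 684) (nat_lit 1388) (nat_lit 1) (.cons
 (nat_lit 29) (nat_lit 801) (nat_lit 600) (nat_lit 1) .nil)), (nat_lit 43), (nat_lit 0), (nat_lit 0), (nat_lit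
 0), (15, 51, 12), [193, 81], 0⟩,
  ⟨⟨33, 20, -65, -8, -45, -26, -24, 24, -25⟩, (.cons (nat_lit 247) (nat_lit 940) (nat_lit 1665) (nat_lit 1)
 (.cons (nat_lit 375) (nat_lit 224) (nat_lit 232) (nat_lit 1) .nil)), (nat_lit 18), (nat_lit 0), (nat_lit 0),
 (nat_lit 0), (19, 50, 44), [1738, 577], 0⟩,
  ⟨⟨15, 32, 44, 50, -17, -30, 14, 44, -19⟩, (.cons (nat_lit 1920) (nat_lit 526) (nat_lit 1) (nat_lit 1209)
 (.cons (nat_lit 232) (nat_lit 602) (nat_lit 145) (nat_lit 1) .nil)), (nat_lit 41), (nat_lit 0), (nat_lit 0),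
 (nat_lit 0), (27, 37, 4), [917, 648], 0⟩,
  ⟨⟨1, 12, -64, -50, -17, 20, -14, 44, -5⟩, (.cons (nat_lit 1005) (nat_lit 1817) (nat_lit 216) (nat_lit 1)
 (.cons (nat_lit 457) (nat_lit 334) (nat_lit 908) (nat_lit 1) .nil)), (nat_lit 16), (nat_lit 0), (nat_lit 0),
 (nat_lit 0), (42, 20, 48), [717, 466], 0⟩,
  mz,
  ⟨⟨43, 12, 20, 30, 17, -60, 30, -36, -7⟩, (.cons (nat_lit 2196) (nat_lit 1151) (nat_lit 234) (nat_lit 1)
 (.cons (nat_lit 960) (nat_lit 409) (nat_lit 589) (nat_lit 1) .nil)), (nat_lit 46), (nat_lit 0), (nat_lit 0),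
 (nat_lit 0), (23, 37, 37), [846, 921], 0⟩,
  ⟨⟨1, -12, -64, -50, 17, 20, -14, -44, -5⟩, (.cons (nat_lit 1535) (nat_lit 1122) (nat_lit 1348) (nat_lit 1)
 (.cons (nat_lit 160) (nat_lit 678) (nat_lit 354) (nat_lit 1) .nil)), (nat_lit 16), (nat_lit 0), (nat_lit 0),
 (nat_lit 0), (3, 9, 11), [360, 48], 0⟩,
  ⟨⟨15, -52, 16, 10, -17, -60, 46, -4, -11⟩, (.cons (nat_lit 1672) (nat_lit 859) (nat_lit 603) (nat_lit 1)
 (.cons (nat_lit 357) (nat_lit 316) (nat_lit 304) (nat_lit 1) .nil)), (nat_lit 44), (nat_lit 0), (nat_lit 0),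
 (nat_lit 0), (14, 27, 50), [1667, 648], 0⟩,
  ⟨⟨-39, -28, -17, -10, -33, 50, 18, -36, -37⟩, (.cons (nat_lit 1279) (nat_lit 464) (nat_lit 1570) (nat_lit 1)
 (.cons (nat_lit 406) (nat_lit 607) (nat_lit 67) (nat_lit 1) .nil)), (nat_lit 38), (nat_lit 0), (nat_lit 0),
 (nat_lit 0), (5, 4, 14), [1879, 519], 0⟩,
  ⟨⟨39, -28, -56, -10, 33, -40, -18, -36, -19⟩, (.cons (nat_lit 2196) (nat_lit 635) (nat_lit 242) (nat_lit 1)
 (.cons (nat_lit 960) (nat_lit 74) (nat_lit 476) (nat_lit 1) .nil)), (nat_lit 50), (nat_lit 0), (nat_lit 0),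
 (nat_lit 0), (49, 35, 10), [284, 663], 0⟩,
  mz,
  ⟨⟨43, 12, -63, -30, -17, -30, 30, -36, -23⟩, (.cons (nat_lit 1849) (nat_lit 2003) (nat_lit 1194) (nat_lit 1)
 (.cons (nat_lit 317) (nat_lit 791) (nat_lit 538) (nat_lit 1) .nil)), (nat_lit 24), (nat_lit 0), (nat_lit 0),
 (nat_lit 0), (2, 6, 47), [996, 401], 0⟩]

/-- All the moves. -/
noncomputable def tabs : List (List (List Mv)) := [[[], [], t0_2, [], t0_4, t0_5], [[], [], t1_2, [], t1_4, t1_5], [], [], [[], [], t4_2, [], t4_4, t4_5]]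

/-- Subtrie. -/
noncomputable def T2 : Tr := (.ev (nat_lit 20) (nat_lit 143084755355696) (.nd (nat_lit 33) (.br (nat_lit 20)
 (.br (nat_lit 13) (.br (nat_lit 4) (.br (nat_lit 2) (.ch (nat_lit 1) (.ev (nat_lit 52) (nat_lit
 70987490235456) (.ev (nat_lit 116) (nat_lit 4503599627370496) (.ev (nat_lit 148) (nat_lit 4398046511104) (.ev
 (nat_lit 180) (nat_lit 274877906944) (.ev (nat_lit 468) (nat_lit 512) (.nd (nat_lit 896) (.br (nat_lit 6) (.br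
 (nat_lit 4) (.ch (nat_lit 2) (.ev (nat_lit 912) (nat_lit 1996713652912128) (.ev (nat_lit 1312) (nat_lit
 16777216) (.ev (nat_lit 1764) (nat_lit 4194304) (.ev (nat_lit 1773) (nat_lit 1099511627776) .dd))))) (.br
 (nat_lit 5) (.ch (nat_lit 4) (.ev (nat_lit 912) (nat_lit 870813767041024) (.ev (nat_lit 1520) (nat_lit
 1125899906842624) (.ev (nat_lit 1533) (nat_lit 1099511627776) .dd)))) (.ch (nat_lit 5) (.ev (nat_lit 912)
 (nat_lit 581641655287808) (.ev (nat_lit 960) (nat_lit 16777216) (.ev (nat_lit 1488) (nat_lit 1125899906842624)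
 (.ev (nat_lit 2128) (nat_lit 536870912) (.ev (nat_lit 2368) (nat_lit 290271069732864) .dd)))))))) (.br
 (nat_lit 10) (.br (nat_lit 9) (.ch (nat_lit 6) (.ev (nat_lit 912) (nat_lit 564050001920000) (.ev (nat_lit
 1200) (nat_lit 1125899906842624) (.ev (nat_lit 1360) (nat_lit 4194304) (.ev (nat_lit 1520) (nat_lit
 17592186044416) (.ev (nat_lit 2064) (nat_lit 16777216) (.ev (nat_lit 2112) (nat_lit 281474976710656) (.ev
 (nat_lit 2125) (nat_lit 8796093022208) .dd)))))))) (.ch (nat_lit 9) (.ev (nat_lit 912) (nat_lit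
 300167228030976) (.ev (nat_lit 928) (nat_lit 1125899906842624) (.ev (nat_lit 1428) (nat_lit 8796093022208)
 (.ev (nat_lit 2016) (nat_lit 562949953421312) (.ev (nat_lit 2029) (nat_lit 4194304) .dd))))))) (.br (nat_lit
 12) (.ch (nat_lit 10) (.ev (nat_lit 912) (nat_lit 1143492629757952) (.ev (nat_lit 1712) (nat_lit
 8796093022208) (.ev (nat_lit 1764) (nat_lit 4194304) (.ev (nat_lit 1812) (nat_lit 562949953421312) (.ev
 (nat_lit 1984) (nat_lit 16777216) (.fin (nat_lit 576474496213926468)))))))) (.ch (nat_lit 12) (.ev (nat_lit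
 912) (nat_lit 1971424906444800) (.ev (nat_lit 1396) (nat_lit 17592186044416) (.ev (nat_lit 1405) (nat_lit
 8796093022208) .dd)))))))))))))) (.ch (nat_lit 2) (.ev (nat_lit 52) (nat_lit 850472260899392) (.ev (nat_lit
 84) (nat_lit 4195328) (.ev (nat_lit 116) (nat_lit 1125899906842624) (.ev (nat_lit 148) (nat_lit 274877906944)
 (.ev (nat_lit 628) (nat_lit 4503599627370496) (.ev (nat_lit 816) (nat_lit 17592186044416) (.nd (nat_lit 896)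
 (.br (nat_lit 6) (.br (nat_lit 4) (.ch (nat_lit 2) (.ev (nat_lit 912) (nat_lit 79165644800000) (.ev (nat_lit
 925) (nat_lit 68719476736) .dd))) (.br (nat_lit 5) (.ch (nat_lit 4) (.ev (nat_lit 912) (nat_lit 8865083031552)
 (.ev (nat_lit 1408) (nat_lit 131072) (.ev (nat_lit 2228) (nat_lit 536936448) (.ev (nat_lit 2237) (nat_lit
 70368744177664) .dd))))) (.ch (nat_lit 5) (.ev (nat_lit 912) (nat_lit 70438002753536) (.ev (nat_lit 996)
 (nat_lit 65536) (.ev (nat_lit 1440) (nat_lit 8796093022208) (.ev (nat_lit 1453) (nat_lit 268435456) .dd)))))))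
 (.br (nat_lit 9) (.ch (nat_lit 6) (.ev (nat_lit 912) (nat_lit 79234095841280) (.ev (nat_lit 925) (nat_lit
 268435456) .dd))) (.br (nat_lit 10) (.ch (nat_lit 9) (.ev (nat_lit 912) (nat_lit 79165642637312) (.ev (nat_lit
 1764) (nat_lit 2097152) (.fin (nat_lit 576474496186663492))))) (.ch (nat_lit 10) (.ev (nat_lit 912) (nat_lit
 70369012678656) (.ev (nat_lit 1776) (nat_lit 536870912) (.ev (nat_lit 2228) (nat_lit 68719476736) (.ev
 (nat_lit 2276) (nat_lit 2097152) (.fin (nat_lit 576464600593547839))))))))))))))))))) (.br (nat_lit 6) (.ch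
 (nat_lit 4) (.ev (nat_lit 52) (nat_lit 5651834173817856) (.ev (nat_lit 180) (nat_lit 4096) (.ev (nat_lit 308)
 (nat_lit 549755813888) (.ev (nat_lit 372) (nat_lit 562949953421312) (.ev (nat_lit 500) (nat_lit
 281474976710656) (.ev (nat_lit 608) (nat_lit 80264367768128) .dd))))))) (.br (nat_lit 8) (.ch (nat_lit 6) (.ev
 (nat_lit 52) (nat_lit 656477714973696) (.ev (nat_lit 84) (nat_lit 2097152) (.ev (nat_lit 116) (nat_lit 131072)
 (.ev (nat_lit 148) (nat_lit 8796093022208) (.ev (nat_lit 180) (nat_lit 550024249344) (.ev (nat_lit 308)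
 (nat_lit 512) (.nd (nat_lit 896) (.br (nat_lit 4) (.br (nat_lit 1) (.ch (nat_lit 0) (.ev (nat_lit 912)
 (nat_lit 5629774416351232) (.ev (nat_lit 1652) (nat_lit 281474976710656) (.ev (nat_lit 1661) (nat_lit 64)
 .dd)))) (.br (nat_lit 2) (.ch (nat_lit 1) (.ev (nat_lit 912) (nat_lit 5910974515150912) (.ev (nat_lit 2176)
 (nat_lit 4096) (.ev (nat_lit 2189) (nat_lit 274877906944) .dd)))) (.ch (nat_lit 2) (.ev (nat_lit 912) (nat_lit
 281749858844736) (.ev (nat_lit 928) (nat_lit 4096) (.ev (nat_lit 1220) (nat_lit 1125899906842624) (.ev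
 (nat_lit 1229) (nat_lit 4503599627370496) .dd))))))) (.br (nat_lit 6) (.br (nat_lit 5) (.ch (nat_lit 4) (.ev
 (nat_lit 912) (nat_lit 1125899911073856) (.ev (nat_lit 960) (nat_lit 4503599627370496) (.ev (nat_lit 1184)
 (nat_lit 281474976710656) (.ev (nat_lit 1197) (nat_lit 274877906944) .dd))))) (.ch (nat_lit 5) (.ev (nat_lit
 912) (nat_lit 4503599627374592) (.ev (nat_lit 1472) (nat_lit 4194304) (.ev (nat_lit 1764) (nat_lit 32768) (.ev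
 (nat_lit 2228) (nat_lit 64) (.ev (nat_lit 2276) (nat_lit 281474976710656) (.fin (nat_lit
 576460202549133892))))))))) (.br (nat_lit 10) (.ch (nat_lit 6) (.ev (nat_lit 912) (nat_lit 281749858844672)
 (.ev (nat_lit 1072) (nat_lit 64) (.ev (nat_lit 1332) (nat_lit 4503599627370496) (.ev (nat_lit 2112) (nat_lit
 4096) (.ev (nat_lit 2125) (nat_lit 1125899906842624) .dd)))))) (.ch (nat_lit 10) (.ev (nat_lit 912) (nat_lit
 1407649765687360) (.ev (nat_lit 1360) (nat_lit 4096) (.ev (nat_lit 1373) (nat_lit 4503599627370496)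
 .dd))))))))))))))) (.ch (nat_lit 8) (.ev (nat_lit 52) (nat_lit 1413697618740736) (.ev (nat_lit 116) (nat_lit
 16777216) (.ev (nat_lit 180) (nat_lit 68719476736) (.nd (nat_lit 896) (.br (nat_lit 4) (.br (nat_lit 1) (.ch
 (nat_lit 0) (.ev (nat_lit 912) (nat_lit 4582764464640064) (.ev (nat_lit 1668) (nat_lit 268435456) (.ev
 (nat_lit 2128) (nat_lit 562949953421312) (.ev (nat_lit 2141) (nat_lit 17592186044416) .dd))))) (.ch (nat_lit
 1) (.ev (nat_lit 912) (nat_lit 4512395988832256) (.ev (nat_lit 1184) (nat_lit 65536) (.ev (nat_lit 1508)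
 (nat_lit 64) (.ev (nat_lit 2048) (nat_lit 70368744177664) (.ev (nat_lit 2276) (nat_lit 562949953421312) (.ev
 (nat_lit 2285) (nat_lit 17592186044416) .dd)))))))) (.br (nat_lit 9) (.ch (nat_lit 4) (.ev (nat_lit 912)
 (nat_lit 26388279132224) (.ev (nat_lit 948) (nat_lit 4096) (.ev (nat_lit 960) (nat_lit 4503599627370496) (.ev
 (nat_lit 1104) (nat_lit 268435456) (.ev (nat_lit 1552) (nat_lit 70368744177664) (.ev (nat_lit 1565) (nat_lit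
 562949953421312) .dd))))))) (.br (nat_lit 12) (.ch (nat_lit 9) (.ev (nat_lit 912) (nat_lit 4573968639987712)
 (.ev (nat_lit 948) (nat_lit 64) (.ev (nat_lit 960) (nat_lit 65536) (.ev (nat_lit 1152) (nat_lit
 17592186044416) (.ev (nat_lit 2144) (nat_lit 8796093022208) (.ev (nat_lit 2157) (nat_lit 562949953421312)
 .dd))))))) (.ch (nat_lit 12) (.ev (nat_lit 912) (nat_lit 87960930287680) (.ev (nat_lit 1344) (nat_lit
 4503599627370496) (.ev (nat_lit 1712) (nat_lit 8796093022208) (.ev (nat_lit 1764) (nat_lit 562949953421312)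
 (.ev (nat_lit 2100) (nat_lit 4096) (.ev (nat_lit 2109) (nat_lit 268435456) .dd)))))))))))))))))) (.br (nat_lit
 15) (.br (nat_lit 14) (.ch (nat_lit 13) (.ev (nat_lit 52) (nat_lit 5651833370515008) (.ev (nat_lit 244)
 (nat_lit 281474976710656) (.ev (nat_lit 276) (nat_lit 32768) (.ev (nat_lit 468) (nat_lit 549755813888) (.nd
 (nat_lit 896) (.br (nat_lit 6) (.br (nat_lit 2) (.ch (nat_lit 1) (.ev (nat_lit 912) (nat_lit 643215124332544)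
 (.ev (nat_lit 925) (nat_lit 131072) .dd))) (.br (nat_lit 4) (.ch (nat_lit 2) (.ev (nat_lit 912) (nat_lit
 643215124463616) .dd)) (.ch (nat_lit 4) (.ev (nat_lit 912) (nat_lit 571746063351808) (.ev (nat_lit 1044)
 (nat_lit 1099511627776) (.ev (nat_lit 2100) (nat_lit 536870912) (.ev (nat_lit 2128) (nat_lit 70368744177664)
 (.ev (nat_lit 2141) (nat_lit 268435456) .dd)))))))) (.br (nat_lit 9) (.ch (nat_lit 6) (.ev (nat_lit 912)
 (nat_lit 572846095073280) (.ev (nat_lit 928) (nat_lit 16777216) (.ev (nat_lit 2160) (nat_lit 70368744177664)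
 (.ev (nat_lit 2173) (nat_lit 268435456) .dd))))) (.br (nat_lit 10) (.ch (nat_lit 9) (.ev (nat_lit 912)
 (nat_lit 71468524371968) (.ev (nat_lit 948) (nat_lit 8796093022208) (.ev (nat_lit 1296) (nat_lit 16777216)
 (.ev (nat_lit 1408) (nat_lit 536870912) (.ev (nat_lit 1421) (nat_lit 562949953421312) .dd)))))) (.ch (nat_lit
 10) (.ev (nat_lit 912) (nat_lit 70369297825792) (.ev (nat_lit 1952) (nat_lit 562949953421312) (.ev (nat_lit
 2100) (nat_lit 268435456) (.ev (nat_lit 2240) (nat_lit 1099511627776) (.nd (nat_lit 2448) (.br (nat_lit 9)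
 (.ch (nat_lit 2) (.ev (nat_lit 2464) (nat_lit 8796093153280) .dd)) (.ch (nat_lit 9) (.fin (nat_lit
 576464600593547839))))))))))))))))))) (.ch (nat_lit 14) (.ev (nat_lit 52) (nat_lit 6220212961546240) (.ev
 (nat_lit 116) (nat_lit 512) (.ev (nat_lit 148) (nat_lit 131072) (.ev (nat_lit 288) (nat_lit 356860265858112)
 .dd)))))) (.br (nat_lit 18) (.ch (nat_lit 15) (.ev (nat_lit 52) (nat_lit 5630599048172608) (.ev (nat_lit 148)
 (nat_lit 549755813888) (.ev (nat_lit 180) (nat_lit 512) (.ev (nat_lit 212) (nat_lit 822083584) (.ev (nat_lit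
 448) (nat_lit 945923601465344) .dd)))))) (.br (nat_lit 19) (.ch (nat_lit 18) (.ev (nat_lit 52) (nat_lit
 4811738585371200) (.ev (nat_lit 84) (nat_lit 1099511627776) (.ev (nat_lit 116) (nat_lit 549755813888) (.ev
 (nat_lit 212) (nat_lit 4398046511104) (.ev (nat_lit 276) (nat_lit 562949953421312) (.ev (nat_lit 308) (nat_lit
 68719476736) (.nd (nat_lit 896) (.br (nat_lit 6) (.br (nat_lit 2) (.ch (nat_lit 1) (.ev (nat_lit 912) (nat_lit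
 1196268655312896) (.ev (nat_lit 925) (nat_lit 1024) .dd))) (.br (nat_lit 5) (.ch (nat_lit 2) (.ev (nat_lit
 912) (nat_lit 70368744243200) (.ev (nat_lit 1536) (nat_lit 32768) (.ev (nat_lit 2144) (nat_lit 4194304) (.ev
 (nat_lit 2310) (nat_lit 1125899906843648) .dd))))) (.ch (nat_lit 5) (.ev (nat_lit 912) (nat_lit
 1196268655248384) (.ev (nat_lit 925) (nat_lit 65536) .dd))))) (.br (nat_lit 9) (.ch (nat_lit 6) (.ev (nat_lit
 912) (nat_lit 70368748471296) (.ev (nat_lit 925) (nat_lit 1125899906842624) .dd))) (.br (nat_lit 12) (.ch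
 (nat_lit 9) (.ev (nat_lit 912) (nat_lit 70368748372992) (.ev (nat_lit 1344) (nat_lit 65536) (.ev (nat_lit
 1984) (nat_lit 32768) (.ev (nat_lit 1997) (nat_lit 1125899906842624) .dd))))) (.ch (nat_lit 12) (.ev (nat_lit
 912) (nat_lit 1125899911136256) (.ev (nat_lit 925) (nat_lit 70368744177664) .dd)))))))))))))) (.ch (nat_lit
 19) (.ev (nat_lit 52) (nat_lit 282575025307712) (.ev (nat_lit 128) (nat_lit 6294498202228224) .dd))))))) (.br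
 (nat_lit 25) (.br (nat_lit 22) (.br (nat_lit 21) (.ch (nat_lit 20) (.ev (nat_lit 52) (nat_lit 70368744312832)
 (.ev (nat_lit 96) (nat_lit 6506704483223104) .dd))) (.ch (nat_lit 21) (.ev (nat_lit 52) (nat_lit
 925582919467008) (.ev (nat_lit 84) (nat_lit 65536) (.ev (nat_lit 192) (nat_lit 5651490308003392) .dd))))) (.br
 (nat_lit 23) (.ch (nat_lit 22) (.ev (nat_lit 52) (nat_lit 26388564444160) (.ev (nat_lit 160) (nat_lit
 6550684663091776) .dd))) (.br (nat_lit 24) (.ch (nat_lit 23) (.ev (nat_lit 52) (nat_lit 286767181764096) (.ev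
 (nat_lit 116) (nat_lit 64) (.ev (nat_lit 148) (nat_lit 1125899923619840) (.ev (nat_lit 212) (nat_lit
 8796093022208) (.ev (nat_lit 244) (nat_lit 1099511627776) (.ev (nat_lit 308) (nat_lit 4503599627370496) (.ev
 (nat_lit 500) (nat_lit 65536) (.nd (nat_lit 896) (.br (nat_lit 5) (.br (nat_lit 2) (.ch (nat_lit 1) (.ev
 (nat_lit 912) (nat_lit 6291456) (.ev (nat_lit 1764) (nat_lit 17592186044416) (.ev (nat_lit 1776) (nat_lit
 562949953421312) (.ev (nat_lit 2128) (nat_lit 70368744177664) (.ev (nat_lit 2141) (nat_lit 131072) .dd))))))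
 (.br (nat_lit 4) (.ch (nat_lit 2) (.ev (nat_lit 912) (nat_lit 633318704021504) (.ev (nat_lit 925) (nat_lit
 17592186044416) .dd))) (.ch (nat_lit 4) (.ev (nat_lit 912) (nat_lit 650910889934848) (.ev (nat_lit 925)
 (nat_lit 131072) .dd))))) (.br (nat_lit 6) (.ch (nat_lit 5) (.ev (nat_lit 912) (nat_lit 650910885871616) (.ev
 (nat_lit 925) (nat_lit 4194304) .dd))) (.br (nat_lit 10) (.ch (nat_lit 6) (.ev (nat_lit 912) (nat_lit
 562949955649536) (.ev (nat_lit 1376) (nat_lit 4194304) (.ev (nat_lit 1488) (nat_lit 70368744177664) (.ev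
 (nat_lit 1501) (nat_lit 17592186044416) .dd))))) (.ch (nat_lit 10) (.ev (nat_lit 912) (nat_lit
 650910887968768) (.ev (nat_lit 925) (nat_lit 2097152) .dd))))))))))))))) (.ch (nat_lit 24) (.ev (nat_lit 52)
 (nat_lit 4812081358508032) (.ev (nat_lit 212) (nat_lit 512) (.ev (nat_lit 244) (nat_lit 70368744177664) (.ev
 (nat_lit 468) (nat_lit 1125899906973696) (.ev (nat_lit 500) (nat_lit 1099511627776) (.ev (nat_lit 564)
 (nat_lit 562949953421312) (.ev (nat_lit 628) (nat_lit 4398046511104) (.nd (nat_lit 896) (.br (nat_lit 6) (.br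
 (nat_lit 2) (.ch (nat_lit 1) (.ev (nat_lit 912) (nat_lit 826311744) (.ev (nat_lit 1248) (nat_lit 274877906944)
 (.ev (nat_lit 1261) (nat_lit 2097152) .dd)))) (.br (nat_lit 5) (.ch (nat_lit 2) (.ev (nat_lit 912) (nat_lit
 807403520) (.ev (nat_lit 960) (nat_lit 274877906944) (.ev (nat_lit 1332) (nat_lit 16777216) (.ev (nat_lit
 1712) (nat_lit 32768) (.ev (nat_lit 1812) (nat_lit 1024) (.ev (nat_lit 1984) (nat_lit 4194304) (.ev (nat_lit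
 1997) (nat_lit 64) .dd)))))))) (.ch (nat_lit 5) (.ev (nat_lit 912) (nat_lit 272629824) (.ev (nat_lit 928)
 (nat_lit 2097152) (.ev (nat_lit 1396) (nat_lit 16777216) (.ev (nat_lit 1520) (nat_lit 274877906944) (.ev
 (nat_lit 2100) (nat_lit 1024) (.ev (nat_lit 2208) (nat_lit 536870912) (.ev (nat_lit 2221) (nat_lit 32768)
 .dd)))))))))) (.br (nat_lit 10) (.br (nat_lit 9) (.ch (nat_lit 6) (.ev (nat_lit 912) (nat_lit 275414778880)
 (.ev (nat_lit 928) (nat_lit 16777216) (.ev (nat_lit 1220) (nat_lit 2097152) (.ev (nat_lit 1536) (nat_lit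
 268435456) (.ev (nat_lit 1764) (nat_lit 32768) (.ev (nat_lit 2228) (nat_lit 64) (.ev (nat_lit 2237) (nat_lit
 4194304) .dd)))))))) (.ch (nat_lit 9) (.ev (nat_lit 912) (nat_lit 822083584) (.ev (nat_lit 960) (nat_lit
 4194304) (.ev (nat_lit 1124) (nat_lit 2097152) (.ev (nat_lit 1488) (nat_lit 274877906944) (.ev (nat_lit 2100)
 (nat_lit 32768) (.ev (nat_lit 2228) (nat_lit 64) (.ev (nat_lit 2237) (nat_lit 1024) .dd))))))))) (.br (nat_lit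
 12) (.ch (nat_lit 10) (.ev (nat_lit 912) (nat_lit 275685344320) (.ev (nat_lit 1312) (nat_lit 4194304) (.ev
 (nat_lit 1325) (nat_lit 16777216) .dd)))) (.ch (nat_lit 12) (.ev (nat_lit 912) (nat_lit 274900976704) (.ev
 (nat_lit 1744) (nat_lit 536870912) (.ev (nat_lit 2228) (nat_lit 32768) (.ev (nat_lit 2237) (nat_lit 268435456)
 .dd)))))))))))))))))))) (.br (nat_lit 27) (.br (nat_lit 26) (.ch (nat_lit 25) (.ev (nat_lit 52) (nat_lit
 919741483058752) (.ev (nat_lit 116) (nat_lit 275146342400) (.ev (nat_lit 148) (nat_lit 4503599627370496) (.ev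
 (nat_lit 660) (nat_lit 32768) (.nd (nat_lit 896) (.br (nat_lit 4) (.br (nat_lit 1) (.ch (nat_lit 0) (.ev
 (nat_lit 912) (nat_lit 1153387697541120) (.ev (nat_lit 1344) (nat_lit 536870912) (.ev (nat_lit 1428) (nat_lit
 65536) (.ev (nat_lit 2100) (nat_lit 68719476736) (.ev (nat_lit 2109) (nat_lit 16777216) .dd)))))) (.ch
 (nat_lit 1) (.ev (nat_lit 912) (nat_lit 1135796065140736) (.ev (nat_lit 948) (nat_lit 17592186044416) (.ev
 (nat_lit 1332) (nat_lit 65536) (.ev (nat_lit 2128) (nat_lit 68719476736) (.ev (nat_lit 2141) (nat_lit 4096)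
 .dd))))))) (.br (nat_lit 5) (.ch (nat_lit 4) (.ev (nat_lit 912) (nat_lit 26457552261120) (.ev (nat_lit 1056)
 (nat_lit 1099511627776) (.ev (nat_lit 1069) (nat_lit 1125899906842624) .dd)))) (.br (nat_lit 9) (.ch (nat_lit
 5) (.ev (nat_lit 912) (nat_lit 1143560812433408) (.ev (nat_lit 928) (nat_lit 1099511627776) (.ev (nat_lit 948)
 (nat_lit 8796093022208) (.ev (nat_lit 1968) (nat_lit 536870912) (.ev (nat_lit 1981) (nat_lit 16777216)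
 .dd)))))) (.ch (nat_lit 9) (.ev (nat_lit 912) (nat_lit 18692251324416) (.ev (nat_lit 1696) (nat_lit
 1125899906842624) (.ev (nat_lit 2228) (nat_lit 8796093022208) (.fin (nat_lit 576448107934859836)))))))))))))))
 (.ch (nat_lit 26) (.ev (nat_lit 52) (nat_lit 4887397921849344) (.ev (nat_lit 116) (nat_lit 536870912) (.ev
 (nat_lit 148) (nat_lit 512) (.ev (nat_lit 404) (nat_lit 562949953454080) (.ev (nat_lit 628) (nat_lit
 268435456) (.ev (nat_lit 832) (nat_lit 1024) (.nd (nat_lit 896) (.br (nat_lit 9) (.br (nat_lit 5) (.ch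
 (nat_lit 4) (.ev (nat_lit 912) (nat_lit 274884264000) (.ev (nat_lit 1904) (nat_lit 1125899906842624) (.ev
 (nat_lit 1936) (nat_lit 549755813888) (.ev (nat_lit 1949) (nat_lit 4096) .dd))))) (.br (nat_lit 6) (.ch
 (nat_lit 5) (.ev (nat_lit 912) (nat_lit 549755883520) (.ev (nat_lit 2100) (nat_lit 2097152) (.ev (nat_lit
 2192) (nat_lit 64) (.ev (nat_lit 2240) (nat_lit 4194304) (.fin (nat_lit 576462401572389436))))))) (.ch
 (nat_lit 6) (.ev (nat_lit 912) (nat_lit 1126724544827456) (.ev (nat_lit 925) (nat_lit 2097152) .dd))))) (.br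
 (nat_lit 10) (.ch (nat_lit 9) (.ev (nat_lit 912) (nat_lit 1125899913138176) (.ev (nat_lit 1600) (nat_lit 64)
 (.ev (nat_lit 1872) (nat_lit 274877906944) (.ev (nat_lit 2228) (nat_lit 549755813888) (.ev (nat_lit 2237)
 (nat_lit 65536) .dd)))))) (.br (nat_lit 12) (.ch (nat_lit 10) (.ev (nat_lit 912) (nat_lit 1126174784819264)
 (.ev (nat_lit 2080) (nat_lit 4194304) (.fin (nat_lit 576465700104127060))))) (.ch (nat_lit 12) (.ev (nat_lit
 912) (nat_lit 1126724546920512) (.ev (nat_lit 925) (nat_lit 4096) .dd))))))))))))))) (.br (nat_lit 28) (.ch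
 (nat_lit 27) (.ev (nat_lit 52) (nat_lit 1786775135650368) (.ev (nat_lit 116) (nat_lit 4398046511104) (.ev
 (nat_lit 308) (nat_lit 268435456) (.ev (nat_lit 372) (nat_lit 32768) (.nd (nat_lit 896) (.br (nat_lit 4) (.br
 (nat_lit 1) (.ch (nat_lit 0) (.ev (nat_lit 912) (nat_lit 4504424800064512) (.ev (nat_lit 2228) (nat_lit
 131072) (.ev (nat_lit 2237) (nat_lit 281474976710656) .dd)))) (.br (nat_lit 2) (.ch (nat_lit 1) (.ev (nat_lit
 912) (nat_lit 4785075143049216) (.ev (nat_lit 948) (nat_lit 824633720832) (.ev (nat_lit 960) (nat_lit 4096)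
 (.ev (nat_lit 1396) (nat_lit 1024) (.ev (nat_lit 1405) (nat_lit 131072) .dd)))))) (.ch (nat_lit 2) (.ev
 (nat_lit 912) (nat_lit 281475515678720) (.ev (nat_lit 1360) (nat_lit 4503599627370496) (.ev (nat_lit 1428)
 (nat_lit 131072) (.ev (nat_lit 1812) (nat_lit 1024) (.ev (nat_lit 2064) (nat_lit 4096) (.ev (nat_lit 2100)
 (nat_lit 274877906944) (.ev (nat_lit 2109) (nat_lit 549755813888) .dd)))))))))) (.br (nat_lit 9) (.br (nat_lit
 6) (.ch (nat_lit 4) (.ev (nat_lit 912) (nat_lit 282024734625792) (.ev (nat_lit 1520) (nat_lit 1024) (.ev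
 (nat_lit 2016) (nat_lit 536870912) (.ev (nat_lit 2176) (nat_lit 4503599627370496) (.ev (nat_lit 2336) (nat_lit
 131072) (.ev (nat_lit 2349) (nat_lit 274877906944) .dd))))))) (.ch (nat_lit 6) (.ev (nat_lit 912) (nat_lit
 825170723840) (.ev (nat_lit 1312) (nat_lit 4096) (.ev (nat_lit 2112) (nat_lit 4503599627370496) (.ev (nat_lit
 2176) (nat_lit 281474976710656) (.ev (nat_lit 2189) (nat_lit 2097152) .dd))))))) (.br (nat_lit 10) (.ch
 (nat_lit 9) (.ev (nat_lit 912) (nat_lit 4504424798097408) (.ev (nat_lit 1172) (nat_lit 281474976710656) (.ev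
 (nat_lit 1248) (nat_lit 1024) (.ev (nat_lit 1261) (nat_lit 2097152) .dd))))) (.ch (nat_lit 10) (.ev (nat_lit
 912) (nat_lit 281750391489536) (.ev (nat_lit 928) (nat_lit 4503599627370496) (.ev (nat_lit 1792) (nat_lit
 131072) (.ev (nat_lit 2228) (nat_lit 4096) (.fin (nat_lit 576456904017396268)))))))))))))))) (.br (nat_lit 29)
 (.ch (nat_lit 28) (.ev (nat_lit 52) (nat_lit 5709214934729216) (.ev (nat_lit 116) (nat_lit 68719476736) (.ev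
 (nat_lit 148) (nat_lit 64) (.ev (nat_lit 180) (nat_lit 4398063288320) (.ev (nat_lit 212) (nat_lit
 274877911040) (.ev (nat_lit 340) (nat_lit 4194304) (.ev (nat_lit 596) (nat_lit 562949953421312) (.ev (nat_lit
 628) (nat_lit 131072) (.nd (nat_lit 896) (.br (nat_lit 6) (.br (nat_lit 2) (.ch (nat_lit 1) (.ev (nat_lit 912)
 (nat_lit 300166674382848) (.ev (nat_lit 925) (nat_lit 1024) .dd))) (.br (nat_lit 5) (.ch (nat_lit 2) (.ev
 (nat_lit 912) (nat_lit 300166674383872) .dd)) (.ch (nat_lit 5) (.ev (nat_lit 912) (nat_lit 18691697673216)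
 (.ev (nat_lit 925) (nat_lit 281474976710656) .dd))))) (.br (nat_lit 9) (.ch (nat_lit 6) (.ev (nat_lit 912)
 (nat_lit 282574488339456) (.ev (nat_lit 925) (nat_lit 17592186044416) .dd))) (.br (nat_lit 10) (.ch (nat_lit
 9) (.ev (nat_lit 912) (nat_lit 282574488339456) (.ev (nat_lit 925) (nat_lit 17592186044416) .dd))) (.ch
 (nat_lit 10) (.ev (nat_lit 912) (nat_lit 299067162756096) (.ev (nat_lit 925) (nat_lit 1099511627776)
 .dd)))))))))))))))) (.ch (nat_lit 29) (.ev (nat_lit 52) (nat_lit 576694140338752) (.ev (nat_lit 148) (nat_lit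
 68719476736) (.ev (nat_lit 180) (nat_lit 1125900443713536) (.ev (nat_lit 244) (nat_lit 17592186044416) (.ev
 (nat_lit 800) (nat_lit 32768) (.nd (nat_lit 896) (.br (nat_lit 4) (.br (nat_lit 1) (.ch (nat_lit 0) (.ev
 (nat_lit 912) (nat_lit 4786448993752064) (.ev (nat_lit 925) (nat_lit 70368744177664) .dd))) (.br (nat_lit 2)
 (.ch (nat_lit 1) (.ev (nat_lit 912) (nat_lit 352118598799360) (.ev (nat_lit 1520) (nat_lit 1024) (.ev (nat_lit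
 1984) (nat_lit 131072) (.ev (nat_lit 2228) (nat_lit 4503599627370496) (.ev (nat_lit 2237) (nat_lit
 1099511627776) .dd)))))) (.ch (nat_lit 2) (.ev (nat_lit 912) (nat_lit 4855443348259840) (.ev (nat_lit 1776)
 (nat_lit 274877906944) (.ev (nat_lit 1792) (nat_lit 131072) (.ev (nat_lit 2144) (nat_lit 1099511631872)
 .dd))))))) (.br (nat_lit 9) (.ch (nat_lit 4) (.ev (nat_lit 912) (nat_lit 4575342761218048) (.ev (nat_lit 996)
 (nat_lit 281474976710656) (.ev (nat_lit 1005) (nat_lit 1024) .dd)))) (.br (nat_lit 10) (.ch (nat_lit 9) (.ev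
 (nat_lit 912) (nat_lit 4575067883312128) (.ev (nat_lit 1092) (nat_lit 274877906944) (.ev (nat_lit 1101)
 (nat_lit 281474976710656) .dd)))) (.ch (nat_lit 10) (.ev (nat_lit 912) (nat_lit 70643622220800) (.ev (nat_lit
 2100) (nat_lit 4503599627370496) (.nd (nat_lit 2416) (.br (nat_lit 6) (.ch (nat_lit 2) (.ev (nat_lit 2432)
 (nat_lit 282574488338432) .dd)) (.ch (nat_lit 6) (.fin (nat_lit 576448107907596860)))))))))))))))))))))))))

/-- Subtrie. -/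
noncomputable def T4 : Tr := (.ev (nat_lit 20) (nat_lit 5718568836990976) (.nd (nat_lit 33) (.br (nat_lit 20)
 (.br (nat_lit 13) (.br (nat_lit 4) (.br (nat_lit 2) (.ch (nat_lit 1) (.ev (nat_lit 52) (nat_lit 618475328624)
 (.ev (nat_lit 180) (nat_lit 562949953421312) (.ev (nat_lit 404) (nat_lit 4194304) (.ev (nat_lit 544) (nat_lit
 438020712956416) .dd))))) (.ch (nat_lit 2) (.ev (nat_lit 52) (nat_lit 851709278589552) (.ev (nat_lit 116)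
 (nat_lit 274877906944) (.ev (nat_lit 404) (nat_lit 140737488355328) (.ev (nat_lit 564) (nat_lit 8796093022208)
 (.ev (nat_lit 692) (nat_lit 68719476736) (.nd (nat_lit 896) (.br (nat_lit 6) (.br (nat_lit 1) (.ch (nat_lit 0)
 (.ev (nat_lit 912) (nat_lit 2684355584) (.ev (nat_lit 925) (nat_lit 4194304) .dd))) (.br (nat_lit 2) (.ch
 (nat_lit 1) (.ev (nat_lit 912) (nat_lit 541066240) (.ev (nat_lit 925) (nat_lit 2147483648) .dd))) (.ch
 (nat_lit 2) (.ev (nat_lit 912) (nat_lit 2688549888) .dd)))) (.br (nat_lit 7) (.ch (nat_lit 6) (.ev (nat_lit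
 912) (nat_lit 2688548864) (.ev (nat_lit 925) (nat_lit 1024) .dd))) (.br (nat_lit 8) (.ch (nat_lit 7) (.ev
 (nat_lit 912) (nat_lit 2151678976) (.ev (nat_lit 925) (nat_lit 536870912) .dd))) (.ch (nat_lit 8) (.ev
 (nat_lit 912) (nat_lit 2688548864) (.ev (nat_lit 925) (nat_lit 1024) .dd)))))))))))))) (.br (nat_lit 6) (.ch
 (nat_lit 4) (.ev (nat_lit 52) (nat_lit 145617112302592) (.ev (nat_lit 84) (nat_lit 512) (.ev (nat_lit 116)
 (nat_lit 4096) (.ev (nat_lit 436) (nat_lit 2147483648) (.ev (nat_lit 532) (nat_lit 8796093022208) (.ev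
 (nat_lit 672) (nat_lit 847173793087600) .dd))))))) (.br (nat_lit 8) (.ch (nat_lit 6) (.ev (nat_lit 52)
 (nat_lit 710353784669216) (.ev (nat_lit 212) (nat_lit 4096) (.ev (nat_lit 276) (nat_lit 2147483648) (.ev
 (nat_lit 404) (nat_lit 281474976710656) (.ev (nat_lit 576) (nat_lit 9758237033040) .dd)))))) (.ch (nat_lit 8)
 (.ev (nat_lit 52) (nat_lit 427437900989952) (.ev (nat_lit 84) (nat_lit 16777216) (.ev (nat_lit 660) (nat_lit
 8796093022208) (.ev (nat_lit 724) (nat_lit 2199023255552) (.ev (nat_lit 880) (nat_lit 48) (.nd (nat_lit 896)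
 (.br (nat_lit 6) (.br (nat_lit 2) (.ch (nat_lit 0) (.ev (nat_lit 912) (nat_lit 4160) (.ev (nat_lit 1636)
 (nat_lit 137438953472) (.ev (nat_lit 2228) (nat_lit 68719476736) (.ev (nat_lit 2237) (nat_lit 562949953421312)
 .dd))))) (.ch (nat_lit 2) (.ev (nat_lit 912) (nat_lit 68719480896) (.ev (nat_lit 2228) (nat_lit 137438953472)
 (.ev (nat_lit 2237) (nat_lit 562949953421312) .dd))))) (.br (nat_lit 7) (.ch (nat_lit 6) (.ev (nat_lit 912)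
 (nat_lit 68719480832) (.ev (nat_lit 1152) (nat_lit 137438953472) (.ev (nat_lit 2240) (nat_lit 64) (.ev
 (nat_lit 2253) (nat_lit 562949953421312) .dd))))) (.br (nat_lit 11) (.ch (nat_lit 7) (.ev (nat_lit 912)
 (nat_lit 137438953536) (.ev (nat_lit 1104) (nat_lit 68719476736) (.ev (nat_lit 1728) (nat_lit 4096) (.ev
 (nat_lit 1741) (nat_lit 562949953421312) .dd))))) (.ch (nat_lit 11) (.ev (nat_lit 912) (nat_lit 137438957632)
 (.ev (nat_lit 1572) (nat_lit 562949953421312) (.ev (nat_lit 1581) (nat_lit 68719476736) .dd)))))))))))))))))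
 (.br (nat_lit 15) (.br (nat_lit 14) (.ch (nat_lit 13) (.ev (nat_lit 52) (nat_lit 6942885942848) (.ev (nat_lit
 148) (nat_lit 562949953421312) (.ev (nat_lit 276) (nat_lit 137438953472) (.ev (nat_lit 436) (nat_lit
 140737488355328) (.ev (nat_lit 564) (nat_lit 549755813888) (.ev (nat_lit 704) (nat_lit 290271623413808)
 .dd))))))) (.ch (nat_lit 14) (.ev (nat_lit 52) (nat_lit 715097626382336) (.ev (nat_lit 404) (nat_lit
 68719476736) (.ev (nat_lit 436) (nat_lit 281474976710656) (.ev (nat_lit 596) (nat_lit 549755813888) (.nd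
 (nat_lit 896) (.br (nat_lit 7) (.br (nat_lit 6) (.ch (nat_lit 3) (.ev (nat_lit 912) (nat_lit 20972656) (.ev
 (nat_lit 2240) (nat_lit 32768) (.ev (nat_lit 2276) (nat_lit 512) (.ev (nat_lit 2285) (nat_lit 4398046511104)
 .dd))))) (.ch (nat_lit 6) (.ev (nat_lit 912) (nat_lit 4227104) (.ev (nat_lit 948) (nat_lit 1088) (.ev (nat_lit
 1092) (nat_lit 16777216) (.ev (nat_lit 1172) (nat_lit 512) (.ev (nat_lit 1332) (nat_lit 4398046511104) (.ev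
 (nat_lit 1341) (nat_lit 16) .dd)))))))) (.br (nat_lit 8) (.ch (nat_lit 7) (.ev (nat_lit 912) (nat_lit
 4398063289408) (.ev (nat_lit 948) (nat_lit 4194320) (.ev (nat_lit 2100) (nat_lit 32) (.fin (nat_lit
 576456904023687736)))))) (.br (nat_lit 11) (.ch (nat_lit 8) (.ev (nat_lit 912) (nat_lit 4398050738192) (.ev
 (nat_lit 1408) (nat_lit 64) (.ev (nat_lit 1536) (nat_lit 32) (.ev (nat_lit 2100) (nat_lit 1024) (.ev (nat_lit
 2228) (nat_lit 512) (.ev (nat_lit 2237) (nat_lit 16777216) .dd))))))) (.ch (nat_lit 11) (.ev (nat_lit 912)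
 (nat_lit 4398050739312) (.ev (nat_lit 2128) (nat_lit 512) (.ev (nat_lit 2141) (nat_lit 16777216)
 .dd)))))))))))))) (.br (nat_lit 18) (.ch (nat_lit 15) (.ev (nat_lit 52) (nat_lit 137506100336) (.ev (nat_lit
 180) (nat_lit 274877906944) (.ev (nat_lit 416) (nat_lit 1001176761893376) .dd)))) (.br (nat_lit 19) (.ch
 (nat_lit 18) (.ev (nat_lit 52) (nat_lit 290683940246080) (.ev (nat_lit 212) (nat_lit 32) (.ev (nat_lit 372)
 (nat_lit 2147483648) (.ev (nat_lit 512) (nat_lit 710903058170896) .dd))))) (.ch (nat_lit 19) (.ev (nat_lit 52)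
 (nat_lit 422213001969744) (.ev (nat_lit 308) (nat_lit 32) (.ev (nat_lit 340) (nat_lit 1024) (.ev (nat_lit 436)
 (nat_lit 2199027449856) (.ev (nat_lit 500) (nat_lit 512) (.ev (nat_lit 564) (nat_lit 68719476736) (.ev
 (nat_lit 596) (nat_lit 139586437120) (.ev (nat_lit 692) (nat_lit 8796093022208) (.nd (nat_lit 896) (.br
 (nat_lit 3) (.br (nat_lit 1) (.ch (nat_lit 0) (.ev (nat_lit 912) (nat_lit 567622894620672) (.ev (nat_lit 2176)
 (nat_lit 67108864) (.ev (nat_lit 2189) (nat_lit 549755813888) .dd)))) (.br (nat_lit 2) (.ch (nat_lit 1) (.ev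
 (nat_lit 912) (nat_lit 567897822855168) (.ev (nat_lit 1332) (nat_lit 16777216) (.ev (nat_lit 1792) (nat_lit
 4096) (.ev (nat_lit 1805) (nat_lit 274877906944) .dd))))) (.ch (nat_lit 2) (.ev (nat_lit 912) (nat_lit
 824717606912) (.ev (nat_lit 1428) (nat_lit 562949953421312) (.ev (nat_lit 2016) (nat_lit 4398046511104) (.ev
 (nat_lit 2029) (nat_lit 4096) .dd))))))) (.br (nat_lit 8) (.br (nat_lit 7) (.ch (nat_lit 3) (.ev (nat_lit 912)
 (nat_lit 567622894620672) (.ev (nat_lit 1620) (nat_lit 67108864) (.ev (nat_lit 1629) (nat_lit 549755813888)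
 .dd)))) (.ch (nat_lit 7) (.ev (nat_lit 912) (nat_lit 567348083818496) (.ev (nat_lit 1184) (nat_lit
 549755813888) (.ev (nat_lit 2100) (nat_lit 274877906944) (.ev (nat_lit 2109) (nat_lit 4096) .dd)))))) (.br
 (nat_lit 9) (.ch (nat_lit 8) (.ev (nat_lit 912) (nat_lit 5222747340800) (.ev (nat_lit 1520) (nat_lit 16777216)
 (.ev (nat_lit 2112) (nat_lit 562949953421312) (.ev (nat_lit 2125) (nat_lit 4096) .dd))))) (.ch (nat_lit 9)
 (.ev (nat_lit 912) (nat_lit 563774603919360) (.ev (nat_lit 1072) (nat_lit 67108864) (.ev (nat_lit 1712)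
 (nat_lit 4096) (.ev (nat_lit 1725) (nat_lit 4398046511104) .dd)))))))))))))))))))))) (.br (nat_lit 25) (.br
 (nat_lit 22) (.br (nat_lit 21) (.ch (nat_lit 20) (.ev (nat_lit 52) (nat_lit 143074017677344) (.ev (nat_lit
 244) (nat_lit 64) (.ev (nat_lit 276) (nat_lit 9345848836096) (.ev (nat_lit 372) (nat_lit 4194304) (.ev
 (nat_lit 468) (nat_lit 274877906944) (.ev (nat_lit 532) (nat_lit 281474976710656) (.ev (nat_lit 596) (nat_lit
 68719476736) (.nd (nat_lit 896) (.br (nat_lit 3) (.br (nat_lit 2) (.ch (nat_lit 0) (.ev (nat_lit 912) (nat_lit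
 567350684286992) (.ev (nat_lit 1812) (nat_lit 512) (.ev (nat_lit 2100) (nat_lit 16778240) (.ev (nat_lit 2109)
 (nat_lit 32768) .dd))))) (.ch (nat_lit 2) (.ev (nat_lit 912) (nat_lit 562952637777408) (.ev (nat_lit 948)
 (nat_lit 16809984) (.fin (nat_lit 576465700116709948)))))) (.br (nat_lit 6) (.ch (nat_lit 3) (.ev (nat_lit
 912) (nat_lit 562952654585872) (.ev (nat_lit 1968) (nat_lit 512) (.ev (nat_lit 2228) (nat_lit 4398046511104)
 (.ev (nat_lit 2237) (nat_lit 1024) .dd))))) (.br (nat_lit 7) (.ch (nat_lit 6) (.ev (nat_lit 912) (nat_lit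
 4398583383568) (.ev (nat_lit 948) (nat_lit 2147483648) (.ev (nat_lit 1696) (nat_lit 562949953421312) (.ev
 (nat_lit 2100) (nat_lit 16777216) (.ev (nat_lit 2109) (nat_lit 32768) .dd)))))) (.ch (nat_lit 7) (.ev (nat_lit
 912) (nat_lit 567350164227584) (.ev (nat_lit 1332) (nat_lit 536870912) (.ev (nat_lit 1341) (nat_lit 16)
 .dd)))))))))))))))) (.ch (nat_lit 21) (.ev (nat_lit 52) (nat_lit 994854028967968) (.ev (nat_lit 532) (nat_lit
 67108864) (.ev (nat_lit 564) (nat_lit 2199023255552) (.ev (nat_lit 692) (nat_lit 137438953472) (.nd (nat_lit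
 896) (.br (nat_lit 3) (.br (nat_lit 2) (.ch (nat_lit 1) (.ev (nat_lit 912) (nat_lit 4227600) (.ev (nat_lit
 1408) (nat_lit 1024) (.ev (nat_lit 1536) (nat_lit 4096) (.ev (nat_lit 2100) (nat_lit 64) (.ev (nat_lit 2228)
 (nat_lit 4398046511104) (.ev (nat_lit 2237) (nat_lit 536870912) .dd))))))) (.ch (nat_lit 2) (.ev (nat_lit 912)
 (nat_lit 536872512) (.ev (nat_lit 948) (nat_lit 4227072) (.ev (nat_lit 2100) (nat_lit 4096) (.fin (nat_lit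
 576456904004813380))))))) (.br (nat_lit 6) (.ch (nat_lit 3) (.ev (nat_lit 912) (nat_lit 4198416) (.ev (nat_lit
 948) (nat_lit 1088) (.ev (nat_lit 1092) (nat_lit 536870912) (.ev (nat_lit 1172) (nat_lit 4398046511104) (.ev
 (nat_lit 1332) (nat_lit 512) (.ev (nat_lit 1341) (nat_lit 32768) .dd))))))) (.br (nat_lit 11) (.ch (nat_lit 6)
 (.ev (nat_lit 912) (nat_lit 541103168) (.ev (nat_lit 2240) (nat_lit 16) (.ev (nat_lit 2276) (nat_lit 512) (.ev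
 (nat_lit 2285) (nat_lit 4398046511104) .dd))))) (.ch (nat_lit 11) (.ev (nat_lit 912) (nat_lit 4232784) (.ev
 (nat_lit 2128) (nat_lit 4398046511104) (.ev (nat_lit 2141) (nat_lit 536870912) .dd)))))))))))))) (.br (nat_lit
 23) (.ch (nat_lit 22) (.ev (nat_lit 52) (nat_lit 10995133088784) (.ev (nat_lit 308) (nat_lit 4096) (.ev
 (nat_lit 340) (nat_lit 64) (.ev (nat_lit 436) (nat_lit 137438953472) (.ev (nat_lit 500) (nat_lit
 4398046511104) (.ev (nat_lit 532) (nat_lit 70866960384) (.ev (nat_lit 564) (nat_lit 281474980904960) (.ev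
 (nat_lit 692) (nat_lit 140737488355328) (.nd (nat_lit 896) (.br (nat_lit 6) (.br (nat_lit 1) (.ch (nat_lit 0)
 (.ev (nat_lit 912) (nat_lit 563225435308032) (.ev (nat_lit 1072) (nat_lit 549755813888) (.ev (nat_lit 1712)
 (nat_lit 32) (.ev (nat_lit 1725) (nat_lit 512) .dd))))) (.br (nat_lit 2) (.ch (nat_lit 1) (.ev (nat_lit 912)
 (nat_lit 563499776344576) (.ev (nat_lit 1520) (nat_lit 536870912) (.ev (nat_lit 2112) (nat_lit 274877906944)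
 (.ev (nat_lit 2125) (nat_lit 32) .dd))))) (.ch (nat_lit 2) (.ev (nat_lit 912) (nat_lit 825170592256) (.ev
 (nat_lit 1184) (nat_lit 67108864) (.ev (nat_lit 2100) (nat_lit 562949953421312) (.ev (nat_lit 2109) (nat_lit
 32) .dd))))))) (.br (nat_lit 8) (.br (nat_lit 7) (.ch (nat_lit 6) (.ev (nat_lit 912) (nat_lit 563225368199712)
 (.ev (nat_lit 1620) (nat_lit 549755813888) (.ev (nat_lit 1629) (nat_lit 67108864) .dd)))) (.ch (nat_lit 7)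
 (.ev (nat_lit 912) (nat_lit 563500313214976) (.ev (nat_lit 1428) (nat_lit 274877906944) (.ev (nat_lit 2016)
 (nat_lit 512) (.ev (nat_lit 2029) (nat_lit 32) .dd)))))) (.br (nat_lit 9) (.ch (nat_lit 8) (.ev (nat_lit 912)
 (nat_lit 824700830208) (.ev (nat_lit 1332) (nat_lit 536870912) (.ev (nat_lit 1792) (nat_lit 32) (.ev (nat_lit
 1805) (nat_lit 562949953421312) .dd))))) (.ch (nat_lit 9) (.ev (nat_lit 912) (nat_lit 563225368199712) (.ev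
 (nat_lit 2176) (nat_lit 549755813888) (.ev (nat_lit 2189) (nat_lit 67108864) .dd))))))))))))))))) (.br
 (nat_lit 24) (.ch (nat_lit 23) (.ev (nat_lit 52) (nat_lit 288966003693104) (.ev (nat_lit 116) (nat_lit
 562949953421312) (.ev (nat_lit 404) (nat_lit 8933531975680) (.ev (nat_lit 564) (nat_lit 140737488355328) (.nd
 (nat_lit 896) (.br (nat_lit 7) (.br (nat_lit 2) (.ch (nat_lit 1) (.ev (nat_lit 912) (nat_lit 2168455168) (.ev
 (nat_lit 925) (nat_lit 64) .dd))) (.br (nat_lit 3) (.ch (nat_lit 2) (.ev (nat_lit 912) (nat_lit 2151678016)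
 (.ev (nat_lit 925) (nat_lit 16777216) .dd))) (.ch (nat_lit 3) (.ev (nat_lit 912) (nat_lit 2168455168) (.ev
 (nat_lit 925) (nat_lit 64) .dd))))) (.br (nat_lit 8) (.ch (nat_lit 7) (.ev (nat_lit 912) (nat_lit 2168455232)
 .dd)) (.br (nat_lit 9) (.ch (nat_lit 8) (.ev (nat_lit 912) (nat_lit 20971584) (.ev (nat_lit 925) (nat_lit
 2147483648) .dd))) (.ch (nat_lit 9) (.ev (nat_lit 912) (nat_lit 2164260928) (.ev (nat_lit 925) (nat_lit
 4194304) .dd)))))))))))) (.ch (nat_lit 24) (.ev (nat_lit 52) (nat_lit 290889545027616) (.ev (nat_lit 244)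
 (nat_lit 1024) (.ev (nat_lit 276) (nat_lit 140737492549632) (.ev (nat_lit 372) (nat_lit 67108864) (.ev
 (nat_lit 468) (nat_lit 562949953421312) (.ev (nat_lit 532) (nat_lit 137438953472) (.ev (nat_lit 596) (nat_lit
 2199023255552) (.nd (nat_lit 896) (.br (nat_lit 6) (.br (nat_lit 3) (.ch (nat_lit 2) (.ev (nat_lit 912)
 (nat_lit 4675608773200) (.ev (nat_lit 1332) (nat_lit 16777216) (.ev (nat_lit 1341) (nat_lit 32768) .dd))))
 (.ch (nat_lit 3) (.ev (nat_lit 912) (nat_lit 4398063321664) (.ev (nat_lit 948) (nat_lit 2147483648) (.ev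
 (nat_lit 1696) (nat_lit 274877906944) (.ev (nat_lit 2100) (nat_lit 536870912) (.ev (nat_lit 2109) (nat_lit 16)
 .dd))))))) (.br (nat_lit 7) (.ch (nat_lit 6) (.ev (nat_lit 912) (nat_lit 277579071504) (.ev (nat_lit 1968)
 (nat_lit 4398046511104) (.ev (nat_lit 2228) (nat_lit 512) (.ev (nat_lit 2237) (nat_lit 64) .dd))))) (.br
 (nat_lit 9) (.ch (nat_lit 7) (.ev (nat_lit 912) (nat_lit 4675088678976) (.ev (nat_lit 948) (nat_lit 536870928)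
 (.fin (nat_lit 576465700097835592))))) (.ch (nat_lit 9) (.ev (nat_lit 912) (nat_lit 277042201088) (.ev
 (nat_lit 1812) (nat_lit 4398046511104) (.ev (nat_lit 2100) (nat_lit 536870976) (.ev (nat_lit 2109) (nat_lit
 16) .dd)))))))))))))))))))) (.br (nat_lit 27) (.br (nat_lit 26) (.ch (nat_lit 25) (.ev (nat_lit 52) (nat_lit
 849512323090016) (.ev (nat_lit 148) (nat_lit 274877906944) (.ev (nat_lit 372) (nat_lit 68719476736) (.ev
 (nat_lit 436) (nat_lit 8796160131072) (.ev (nat_lit 640) (nat_lit 142937065295888) .dd)))))) (.ch (nat_lit 26)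
 (.ev (nat_lit 52) (nat_lit 435475407962128) (.ev (nat_lit 84) (nat_lit 64) (.ev (nat_lit 256) (nat_lit
 566113737938464) .dd))))) (.br (nat_lit 28) (.ch (nat_lit 27) (.ev (nat_lit 52) (nat_lit 571952225845840) (.ev
 (nat_lit 84) (nat_lit 4398046511104) (.ev (nat_lit 116) (nat_lit 32) (.ev (nat_lit 384) (nat_lit
 425238873543680) .dd))))) (.br (nat_lit 29) (.ch (nat_lit 28) (.ev (nat_lit 52) (nat_lit 152420336304640) (.ev
 (nat_lit 84) (nat_lit 1024) (.ev (nat_lit 352) (nat_lit 849168809594992) .dd)))) (.ch (nat_lit 29) (.ev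
 (nat_lit 52) (nat_lit 578895107588688) (.ev (nat_lit 84) (nat_lit 536870912) (.ev (nat_lit 660) (nat_lit
 422212465065984) (.ev (nat_lit 848) (nat_lit 36864) (.nd (nat_lit 896) (.br (nat_lit 7) (.br (nat_lit 3) (.ch
 (nat_lit 2) (.ev (nat_lit 912) (nat_lit 68719477760) (.ev (nat_lit 1104) (nat_lit 137438953472) (.ev (nat_lit
 1728) (nat_lit 32) (.ev (nat_lit 1741) (nat_lit 274877906944) .dd))))) (.ch (nat_lit 3) (.ev (nat_lit 912)
 (nat_lit 137438953504) (.ev (nat_lit 1152) (nat_lit 68719476736) (.ev (nat_lit 2240) (nat_lit 1024) (.ev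
 (nat_lit 2253) (nat_lit 274877906944) .dd)))))) (.br (nat_lit 9) (.ch (nat_lit 7) (.ev (nat_lit 912) (nat_lit
 137438954528) (.ev (nat_lit 2228) (nat_lit 68719476736) (.ev (nat_lit 2237) (nat_lit 274877906944) .dd))))
 (.br (nat_lit 11) (.ch (nat_lit 9) (.ev (nat_lit 912) (nat_lit 1056) (.ev (nat_lit 1636) (nat_lit 68719476736)
 (.ev (nat_lit 2228) (nat_lit 137438953472) (.ev (nat_lit 2237) (nat_lit 274877906944) .dd))))) (.ch (nat_lit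
 11) (.ev (nat_lit 912) (nat_lit 68719477792) (.ev (nat_lit 1572) (nat_lit 274877906944) (.ev (nat_lit 1581)
 (nat_lit 137438953472) .dd))))))))))))))))))))

/-- Subtrie. -/
noncomputable def T5 : Tr := (.ev (nat_lit 20) (nat_lit 1407521537392720) (.nd (nat_lit 33) (.br (nat_lit 20)
 (.br (nat_lit 13) (.br (nat_lit 4) (.br (nat_lit 2) (.ch (nat_lit 1) (.ev (nat_lit 52) (nat_lit
 70987490497568) (.ev (nat_lit 84) (nat_lit 145135534866432) (.ev (nat_lit 180) (nat_lit 2147483648) (.ev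
 (nat_lit 308) (nat_lit 17592186044416) (.ev (nat_lit 436) (nat_lit 512) (.ev (nat_lit 468) (nat_lit 2048) (.ev
 (nat_lit 784) (nat_lit 562949953421312) (.nd (nat_lit 896) (.br (nat_lit 9) (.br (nat_lit 4) (.ch (nat_lit 1)
 (.ev (nat_lit 912) (nat_lit 4507173040160768) (.ev (nat_lit 925) (nat_lit 8796093022208) .dd))) (.br (nat_lit
 8) (.ch (nat_lit 4) (.ev (nat_lit 912) (nat_lit 12369505812480) (.ev (nat_lit 925) (nat_lit 4503599627370496)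
 .dd))) (.ch (nat_lit 8) (.ev (nat_lit 912) (nat_lit 2473901162496) (.ev (nat_lit 1926) (nat_lit
 4513495232020480) .dd))))) (.br (nat_lit 11) (.ch (nat_lit 9) (.ev (nat_lit 912) (nat_lit 9895604649984) (.ev
 (nat_lit 1892) (nat_lit 2199023255552) (.ev (nat_lit 2032) (nat_lit 274877906944) (.ev (nat_lit 2045) (nat_lit
 4503599627370496) .dd))))) (.br (nat_lit 12) (.ch (nat_lit 11) (.ev (nat_lit 912) (nat_lit 4513770109927424)
 (.ev (nat_lit 925) (nat_lit 2199023255552) .dd))) (.ch (nat_lit 12) (.ev (nat_lit 912) (nat_lit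
 4514869621555200) (.ev (nat_lit 925) (nat_lit 1099511627776) .dd))))))))))))))) (.ch (nat_lit 2) (.ev (nat_lit
 52) (nat_lit 571196290667040) (.ev (nat_lit 84) (nat_lit 274877906944) (.ev (nat_lit 116) (nat_lit
 17592186044416) (.ev (nat_lit 212) (nat_lit 2147483648) (.ev (nat_lit 244) (nat_lit 65536) (.ev (nat_lit 308)
 (nat_lit 2048) (.ev (nat_lit 468) (nat_lit 131072) (.ev (nat_lit 628) (nat_lit 70368744177664) (.ev (nat_lit
 692) (nat_lit 4503599627370496) (.nd (nat_lit 896) (.br (nat_lit 4) (.br (nat_lit 1) (.ch (nat_lit 0) (.ev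
 (nat_lit 912) (nat_lit 149533851911168) (.ev (nat_lit 1220) (nat_lit 262144) (.ev (nat_lit 1229) (nat_lit
 68719476736) .dd)))) (.ch (nat_lit 1) (.ev (nat_lit 912) (nat_lit 8865083293696) (.ev (nat_lit 928) (nat_lit
 140737488355328) (.ev (nat_lit 941) (nat_lit 1024) .dd))))) (.br (nat_lit 6) (.ch (nat_lit 4) (.ev (nat_lit
 912) (nat_lit 140806208094208) (.ev (nat_lit 948) (nat_lit 8796093022208) (.ev (nat_lit 1584) (nat_lit
 268435456) (.ev (nat_lit 1696) (nat_lit 2097152) (.ev (nat_lit 1709) (nat_lit 1024) .dd)))))) (.br (nat_lit 8)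
 (.ch (nat_lit 6) (.ev (nat_lit 912) (nat_lit 149533581640704) (.ev (nat_lit 1012) (nat_lit 268435456) (.ev
 (nat_lit 2228) (nat_lit 68719476736) (.ev (nat_lit 2237) (nat_lit 2097152) .dd))))) (.ch (nat_lit 8) (.ev
 (nat_lit 912) (nat_lit 68990272512) (.ev (nat_lit 1860) (nat_lit 140737488355328) (.ev (nat_lit 1869) (nat_lit
 8796093022208) .dd))))))))))))))))))) (.br (nat_lit 6) (.ch (nat_lit 4) (.ev (nat_lit 52) (nat_lit
 4666671214267392) (.ev (nat_lit 148) (nat_lit 2097152) (.ev (nat_lit 340) (nat_lit 8796093284352) (.ev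
 (nat_lit 468) (nat_lit 2147483648) (.ev (nat_lit 500) (nat_lit 65536) (.ev (nat_lit 628) (nat_lit
 549755813888) (.nd (nat_lit 896) (.br (nat_lit 8) (.br (nat_lit 4) (.ch (nat_lit 1) (.ev (nat_lit 912)
 (nat_lit 636617232482848) (.ev (nat_lit 925) (nat_lit 4096) .dd))) (.br (nat_lit 5) (.ch (nat_lit 4) (.ev
 (nat_lit 912) (nat_lit 636617232482336) (.ev (nat_lit 2128) (nat_lit 512) (.ev (nat_lit 2141) (nat_lit 4096)
 .dd)))) (.ch (nat_lit 5) (.ev (nat_lit 912) (nat_lit 635517720859168) (.ev (nat_lit 925) (nat_lit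
 1099511627776) .dd))))) (.br (nat_lit 9) (.ch (nat_lit 8) (.ev (nat_lit 912) (nat_lit 3298534883840) (.ev
 (nat_lit 1952) (nat_lit 32) (.ev (nat_lit 2228) (nat_lit 562949953425408) (.ev (nat_lit 2237) (nat_lit
 70368744177664) .dd))))) (.br (nat_lit 11) (.ch (nat_lit 9) (.ev (nat_lit 912) (nat_lit 72567767437312) (.ev
 (nat_lit 948) (nat_lit 562949953421312) (.ev (nat_lit 1376) (nat_lit 1099511627776) (.ev (nat_lit 1764)
 (nat_lit 32) (.ev (nat_lit 1773) (nat_lit 512) .dd)))))) (.ch (nat_lit 11) (.ev (nat_lit 912) (nat_lit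
 634418209231392) (.ev (nat_lit 925) (nat_lit 2199023255552) .dd)))))))))))))) (.br (nat_lit 8) (.ch (nat_lit
 6) (.ev (nat_lit 52) (nat_lit 799413673200672) (.ev (nat_lit 116) (nat_lit 549757911040) (.ev (nat_lit 148)
 (nat_lit 268566528) (.nd (nat_lit 896) (.br (nat_lit 5) (.br (nat_lit 4) (.ch (nat_lit 1) (.ev (nat_lit 912)
 (nat_lit 4503876652794368) (.ev (nat_lit 928) (nat_lit 4096) (.ev (nat_lit 941) (nat_lit 8796093022208)
 .dd)))) (.ch (nat_lit 4) (.ev (nat_lit 912) (nat_lit 9073118449664) (.ev (nat_lit 1280) (nat_lit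
 4503599627370496) (.ev (nat_lit 1293) (nat_lit 512) .dd))))) (.br (nat_lit 6) (.ch (nat_lit 5) (.ev (nat_lit
 912) (nat_lit 4503599627375104) (.ev (nat_lit 948) (nat_lit 274877906944) (.ev (nat_lit 2192) (nat_lit
 2147483648) (.ev (nat_lit 2228) (nat_lit 32768) (.ev (nat_lit 2237) (nat_lit 8796093022208) .dd)))))) (.br
 (nat_lit 12) (.ch (nat_lit 6) (.ev (nat_lit 912) (nat_lit 4512397867909632) (.ev (nat_lit 1396) (nat_lit 4096)
 (.ev (nat_lit 1405) (nat_lit 274877906944) .dd)))) (.ch (nat_lit 12) (.ev (nat_lit 912) (nat_lit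
 4512670598303744) (.ev (nat_lit 1344) (nat_lit 32768) (.ev (nat_lit 2240) (nat_lit 2147483648) (.ev (nat_lit
 2253) (nat_lit 512) .dd))))))))))))) (.ch (nat_lit 8) (.ev (nat_lit 52) (nat_lit 147061830223360) (.ev
 (nat_lit 244) (nat_lit 2199023255552) (.ev (nat_lit 596) (nat_lit 4096) (.ev (nat_lit 724) (nat_lit
 4503599627370496) (.nd (nat_lit 896) (.br (nat_lit 6) (.br (nat_lit 4) (.ch (nat_lit 1) (.ev (nat_lit 912)
 (nat_lit 633387685511200) (.ev (nat_lit 982) (nat_lit 26388279134208) .dd))) (.ch (nat_lit 4) (.ev (nat_lit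
 912) (nat_lit 650910883645472) (.ev (nat_lit 928) (nat_lit 68719476736) (.ev (nat_lit 948) (nat_lit 268435456)
 (.ev (nat_lit 1472) (nat_lit 8796093022208) (.ev (nat_lit 1485) (nat_lit 65536) .dd))))))) (.br (nat_lit 9)
 (.ch (nat_lit 6) (.ev (nat_lit 912) (nat_lit 96757291747360) (.ev (nat_lit 1172) (nat_lit 68719476736) (.ev
 (nat_lit 1181) (nat_lit 562949953421312) .dd)))) (.br (nat_lit 12) (.ch (nat_lit 9) (.ev (nat_lit 912)
 (nat_lit 79233556742176) (.ev (nat_lit 2352) (nat_lit 562950221856768) (.fin (nat_lit 576461302078587464)))))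
 (.ch (nat_lit 12) (.ev (nat_lit 912) (nat_lit 571815034421248) (.ev (nat_lit 948) (nat_lit 70368744177664)
 (.ev (nat_lit 1124) (nat_lit 2048) (.ev (nat_lit 2112) (nat_lit 32) (.ev (nat_lit 2125) (nat_lit
 17592186044416) .dd)))))))))))))))))) (.br (nat_lit 15) (.br (nat_lit 14) (.ch (nat_lit 13) (.ev (nat_lit 52)
 (nat_lit 4528134630479360) (.ev (nat_lit 116) (nat_lit 268435456) (.ev (nat_lit 224) (nat_lit 784501546584096)
 .dd)))) (.ch (nat_lit 14) (.ev (nat_lit 52) (nat_lit 5237251177189376) (.ev (nat_lit 116) (nat_lit 131072)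
 (.ev (nat_lit 180) (nat_lit 2097152) (.ev (nat_lit 340) (nat_lit 32) (.nd (nat_lit 896) (.br (nat_lit 6) (.br
 (nat_lit 1) (.ch (nat_lit 0) (.ev (nat_lit 912) (nat_lit 75385266046464) (.ev (nat_lit 1636) (nat_lit 32768)
 (.ev (nat_lit 1645) (nat_lit 2048) .dd)))) (.ch (nat_lit 1) (.ev (nat_lit 912) (nat_lit 70918499992064) (.ev
 (nat_lit 948) (nat_lit 4466765987840) (.ev (nat_lit 1152) (nat_lit 2048) (.ev (nat_lit 1332) (nat_lit 1024)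
 (.ev (nat_lit 1844) (nat_lit 32768) (.ev (nat_lit 1853) (nat_lit 65536) .dd)))))))) (.br (nat_lit 11) (.ch
 (nat_lit 6) (.ev (nat_lit 912) (nat_lit 4466765990912) (.ev (nat_lit 948) (nat_lit 549755879424) (.ev (nat_lit
 1508) (nat_lit 70368744177664) (.fin (nat_lit 576456904023687736)))))) (.br (nat_lit 12) (.ch (nat_lit 11)
 (.ev (nat_lit 912) (nat_lit 549755880960) (.ev (nat_lit 1264) (nat_lit 68719476736) (.ev (nat_lit 2228)
 (nat_lit 74766790721536) (.ev (nat_lit 2237) (nat_lit 2048) .dd))))) (.ch (nat_lit 12) (.ev (nat_lit 912)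
 (nat_lit 75385266046976) (.ev (nat_lit 1812) (nat_lit 32768) (.ev (nat_lit 2112) (nat_lit 512) (.ev (nat_lit
 2125) (nat_lit 1024) .dd))))))))))))))) (.br (nat_lit 18) (.ch (nat_lit 15) (.ev (nat_lit 52) (nat_lit
 4504699141592096) (.ev (nat_lit 84) (nat_lit 562949953421312) (.ev (nat_lit 148) (nat_lit 2147483648) (.ev
 (nat_lit 180) (nat_lit 70368744177664) (.ev (nat_lit 308) (nat_lit 268435456) (.ev (nat_lit 480) (nat_lit
 174616190388736) .dd))))))) (.br (nat_lit 19) (.ch (nat_lit 18) (.ev (nat_lit 52) (nat_lit 4530263055014400)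
 (.ev (nat_lit 148) (nat_lit 70368744177664) (.ev (nat_lit 180) (nat_lit 549755813888) (.ev (nat_lit 320)
 (nat_lit 711454890492960) .dd))))) (.ch (nat_lit 19) (.ev (nat_lit 52) (nat_lit 141837000083456) (.ev (nat_lit
 340) (nat_lit 4398046511104) (.ev (nat_lit 500) (nat_lit 2199023255552) (.ev (nat_lit 564) (nat_lit 512) (.ev
 (nat_lit 628) (nat_lit 2097152) (.ev (nat_lit 752) (nat_lit 275146342400) (.nd (nat_lit 896) (.br (nat_lit 4)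
 (.br (nat_lit 1) (.ch (nat_lit 0) (.ev (nat_lit 912) (nat_lit 4530539810128896) (.ev (nat_lit 948) (nat_lit
 70437463654400) (.ev (nat_lit 1712) (nat_lit 562949953421312) (.fin (nat_lit 576461302049227332)))))) (.ch
 (nat_lit 1) (.ev (nat_lit 912) (nat_lit 5145785284953088) (.ev (nat_lit 948) (nat_lit 17592186175488) (.ev
 (nat_lit 1092) (nat_lit 549755813888) (.ev (nat_lit 1396) (nat_lit 4096) (.ev (nat_lit 1828) (nat_lit 262144)
 (.ev (nat_lit 1837) (nat_lit 32) .dd)))))))) (.br (nat_lit 9) (.ch (nat_lit 4) (.ev (nat_lit 912) (nat_lit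
 650913031525376) (.ev (nat_lit 948) (nat_lit 4512395720392704) (.ev (nat_lit 960) (nat_lit 549755813888) (.ev
 (nat_lit 1764) (nat_lit 68719476736) (.ev (nat_lit 1773) (nat_lit 32) .dd)))))) (.br (nat_lit 12) (.ch
 (nat_lit 9) (.ev (nat_lit 912) (nat_lit 4583385087349760) (.ev (nat_lit 948) (nat_lit 131072) (.ev (nat_lit
 1264) (nat_lit 17592186044416) (.ev (nat_lit 1536) (nat_lit 562949953421312) (.ev (nat_lit 1620) (nat_lit
 262144) (.ev (nat_lit 1629) (nat_lit 32) .dd))))))) (.ch (nat_lit 12) (.ev (nat_lit 912) (nat_lit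
 5163925079461888) (.ev (nat_lit 1536) (nat_lit 2147483648) (.ev (nat_lit 2032) (nat_lit 1024) (.ev (nat_lit
 2128) (nat_lit 32) (.ev (nat_lit 2141) (nat_lit 262144) .dd))))))))))))))))))))) (.br (nat_lit 25) (.br
 (nat_lit 22) (.br (nat_lit 21) (.ch (nat_lit 20) (.ev (nat_lit 52) (nat_lit 213305255925792) (.ev (nat_lit 64)
 (nat_lit 5099331189573120) .dd))) (.ch (nat_lit 21) (.ev (nat_lit 52) (nat_lit 784847561820192) (.ev (nat_lit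
 340) (nat_lit 32768) (.ev (nat_lit 436) (nat_lit 4503599627370496) (.ev (nat_lit 532) (nat_lit 4608) (.nd
 (nat_lit 896) (.br (nat_lit 6) (.br (nat_lit 4) (.ch (nat_lit 0) (.ev (nat_lit 912) (nat_lit 24189256008704)
 (.ev (nat_lit 925) (nat_lit 262144) .dd))) (.br (nat_lit 5) (.ch (nat_lit 4) (.ev (nat_lit 912) (nat_lit
 19791209759744) (.ev (nat_lit 925) (nat_lit 4398046511104) .dd))) (.ch (nat_lit 5) (.ev (nat_lit 912) (nat_lit
 24189256269824) (.ev (nat_lit 925) (nat_lit 1024) .dd))))) (.br (nat_lit 8) (.ch (nat_lit 6) (.ev (nat_lit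
 912) (nat_lit 21990232817664) (.ev (nat_lit 948) (nat_lit 2199023255552) (.ev (nat_lit 1044) (nat_lit 65536)
 (.ev (nat_lit 1344) (nat_lit 1024) (.ev (nat_lit 1357) (nat_lit 131072) .dd)))))) (.br (nat_lit 9) (.ch
 (nat_lit 8) (.ev (nat_lit 912) (nat_lit 19791209694208) (.ev (nat_lit 1044) (nat_lit 4398046511104) (.ev
 (nat_lit 1053) (nat_lit 65536) .dd)))) (.ch (nat_lit 9) (.ev (nat_lit 912) (nat_lit 328704) (.ev (nat_lit
 1456) (nat_lit 131072) (.ev (nat_lit 2100) (nat_lit 2199023255552) (.ev (nat_lit 2276) (nat_lit 4398046511104)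
 (.ev (nat_lit 2285) (nat_lit 17592186044416) .dd)))))))))))))))) (.br (nat_lit 23) (.ch (nat_lit 22) (.ev
 (nat_lit 52) (nat_lit 28587570922496) (.ev (nat_lit 244) (nat_lit 274877906944) (.ev (nat_lit 276) (nat_lit
 1099511627776) (.ev (nat_lit 308) (nat_lit 2097152) (.ev (nat_lit 340) (nat_lit 65536) (.ev (nat_lit 372)
 (nat_lit 4503599627371008) (.ev (nat_lit 468) (nat_lit 70368744177664) (.ev (nat_lit 500) (nat_lit
 562949953421312) (.nd (nat_lit 896) (.br (nat_lit 4) (.br (nat_lit 1) (.ch (nat_lit 0) (.ev (nat_lit 912)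
 (nat_lit 145687438166016) (.ev (nat_lit 948) (nat_lit 68719738880) (.fin (nat_lit 576461302072295996))))) (.ch
 (nat_lit 1) (.ev (nat_lit 912) (nat_lit 4400194000928) (.ev (nat_lit 1030) (nat_lit 618475552768) (.ev
 (nat_lit 1037) (nat_lit 140737488355328) .dd))))) (.br (nat_lit 6) (.ch (nat_lit 4) (.ev (nat_lit 912)
 (nat_lit 141358111397888) (.ev (nat_lit 1172) (nat_lit 32) (.ev (nat_lit 1181) (nat_lit 4398046511104) .dd))))
 (.br (nat_lit 11) (.ch (nat_lit 6) (.ev (nat_lit 912) (nat_lit 4468913735712) (.ev (nat_lit 1092) (nat_lit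
 140737488355328) (.ev (nat_lit 2288) (nat_lit 549755817984) .dd)))) (.ch (nat_lit 11) (.ev (nat_lit 912)
 (nat_lit 145685290684448) (.ev (nat_lit 948) (nat_lit 2048) (.ev (nat_lit 2032) (nat_lit 2147483648) (.ev
 (nat_lit 2228) (nat_lit 68719476736) (.ev (nat_lit 2237) (nat_lit 262144) .dd))))))))))))))))))) (.br (nat_lit
 24) (.ch (nat_lit 23) (.ev (nat_lit 52) (nat_lit 7490691438112) (.ev (nat_lit 180) (nat_lit 2048) (.ev
 (nat_lit 308) (nat_lit 70370891661312) (.ev (nat_lit 500) (nat_lit 262144) (.ev (nat_lit 628) (nat_lit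
 17592186044416) (.nd (nat_lit 896) (.br (nat_lit 8) (.br (nat_lit 4) (.ch (nat_lit 1) (.ev (nat_lit 912)
 (nat_lit 5208386580774912) (.ev (nat_lit 1184) (nat_lit 131072) (.ev (nat_lit 1332) (nat_lit 2097152) (.ev
 (nat_lit 1488) (nat_lit 8796093022208) (.ev (nat_lit 1501) (nat_lit 65536) .dd)))))) (.br (nat_lit 5) (.ch
 (nat_lit 4) (.ev (nat_lit 912) (nat_lit 5208386580905984) (.ev (nat_lit 928) (nat_lit 8796093022208) (.ev
 (nat_lit 1092) (nat_lit 65536) (.ev (nat_lit 1101) (nat_lit 2097152) .dd))))) (.ch (nat_lit 5) (.ev (nat_lit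
 912) (nat_lit 8796095119360) (.ev (nat_lit 1968) (nat_lit 562949953421312) (.ev (nat_lit 2176) (nat_lit
 4504699138998272) (.ev (nat_lit 2256) (nat_lit 131072) (.fin (nat_lit 576458003523781180))))))))) (.br
 (nat_lit 11) (.br (nat_lit 9) (.ch (nat_lit 8) (.ev (nat_lit 912) (nat_lit 5067649094713344) (.ev (nat_lit
 1508) (nat_lit 140737488355328) (.ev (nat_lit 1517) (nat_lit 8796093022208) .dd)))) (.ch (nat_lit 9) (.ev
 (nat_lit 912) (nat_lit 572845558267904) (.ev (nat_lit 960) (nat_lit 2097152) (.ev (nat_lit 1072) (nat_lit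
 4503599627370496) (.ev (nat_lit 1085) (nat_lit 140737488355328) .dd)))))) (.br (nat_lit 12) (.ch (nat_lit 11)
 (.ev (nat_lit 912) (nat_lit 5208386580971520) (.ev (nat_lit 1200) (nat_lit 8796093022208) (.ev (nat_lit 1213)
 (nat_lit 2097152) .dd)))) (.ch (nat_lit 12) (.ev (nat_lit 912) (nat_lit 713583048589312) (.ev (nat_lit 2228)
 (nat_lit 131072) (.ev (nat_lit 2237) (nat_lit 4503599627370496) .dd)))))))))))))) (.ch (nat_lit 24) (.ev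
 (nat_lit 52) (nat_lit 4530606381797408) (.ev (nat_lit 340) (nat_lit 140737488355328) (.ev (nat_lit 736)
 (nat_lit 393216) (.nd (nat_lit 896) (.br (nat_lit 6) (.br (nat_lit 4) (.ch (nat_lit 0) (.ev (nat_lit 912)
 (nat_lit 78067743622144) (.ev (nat_lit 2100) (nat_lit 562949953421312) (.ev (nat_lit 2128) (nat_lit
 274877907456) (.ev (nat_lit 2141) (nat_lit 2048) .dd))))) (.ch (nat_lit 4) (.ev (nat_lit 912) (nat_lit
 634695236749312) (.ev (nat_lit 948) (nat_lit 4398314946560) (.ev (nat_lit 960) (nat_lit 1024) (.ev (nat_lit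
 2240) (nat_lit 2199023255552) (.ev (nat_lit 2253) (nat_lit 512) .dd))))))) (.br (nat_lit 8) (.ch (nat_lit 6)
 (.ev (nat_lit 912) (nat_lit 568724805389312) (.ev (nat_lit 948) (nat_lit 2199025352704) (.ev (nat_lit 2048)
 (nat_lit 70368744177664) (.fin (nat_lit 576465700097835592)))))) (.br (nat_lit 12) (.ch (nat_lit 8) (.ev
 (nat_lit 912) (nat_lit 569822171661312) (.ev (nat_lit 948) (nat_lit 1099511627776) (.ev (nat_lit 1408)
 (nat_lit 2147483648) (.ev (nat_lit 2228) (nat_lit 2560) (.ev (nat_lit 2237) (nat_lit 70368744177664) .dd))))))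
 (.ch (nat_lit 12) (.ev (nat_lit 912) (nat_lit 640190915805184) (.ev (nat_lit 948) (nat_lit 1101659111424) (.ev
 (nat_lit 1142) (nat_lit 35328) (.ev (nat_lit 1149) (nat_lit 1024) .dd)))))))))))))))) (.br (nat_lit 27) (.br
 (nat_lit 26) (.ch (nat_lit 25) (.ev (nat_lit 52) (nat_lit 638268649901600) (.ev (nat_lit 244) (nat_lit 32768)
 (.ev (nat_lit 340) (nat_lit 68719476736) (.ev (nat_lit 500) (nat_lit 8796093022208) (.ev (nat_lit 660)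
 (nat_lit 4096) (.nd (nat_lit 896) (.br (nat_lit 6) (.br (nat_lit 1) (.ch (nat_lit 0) (.ev (nat_lit 912)
 (nat_lit 4665502983061504) .dd)) (.br (nat_lit 5) (.ch (nat_lit 1) (.ev (nat_lit 912) (nat_lit
 4524765494706176) (.ev (nat_lit 925) (nat_lit 140737488355328) .dd))) (.ch (nat_lit 5) (.ev (nat_lit 912)
 (nat_lit 20066087206912) (.ev (nat_lit 1456) (nat_lit 4503599627370496) (.ev (nat_lit 2240) (nat_lit
 1099511627776) (.ev (nat_lit 2276) (nat_lit 268435456) (.nd (nat_lit 2480) (.br (nat_lit 8) (.ch (nat_lit 1)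
 (.fin (nat_lit 576464600597742148))) (.ch (nat_lit 8) (.ev (nat_lit 2496) (nat_lit 140737488420864)
 .dd))))))))))) (.br (nat_lit 9) (.ch (nat_lit 6) (.ev (nat_lit 912) (nat_lit 142112146325504) (.ev (nat_lit
 948) (nat_lit 65536) (.ev (nat_lit 996) (nat_lit 2199023255552) (.ev (nat_lit 1232) (nat_lit 17592186044416)
 (.ev (nat_lit 1245) (nat_lit 4503599627370496) .dd)))))) (.br (nat_lit 11) (.ch (nat_lit 9) (.ev (nat_lit 912)
 (nat_lit 4647635650674688) (.ev (nat_lit 928) (nat_lit 17592186044416) (.ev (nat_lit 1792) (nat_lit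
 274877906944) (.ev (nat_lit 1805) (nat_lit 268435456) .dd))))) (.ch (nat_lit 11) (.ev (nat_lit 912) (nat_lit
 4661929301835776) (.ev (nat_lit 1508) (nat_lit 2199023255552) (.ev (nat_lit 1536) (nat_lit 274877906944) (.ev
 (nat_lit 2080) (nat_lit 1099511627776) (.ev (nat_lit 2093) (nat_lit 268435456) .dd)))))))))))))))) (.ch
 (nat_lit 26) (.ev (nat_lit 52) (nat_lit 4746660416978944) (.ev (nat_lit 84) (nat_lit 2199023256576) (.ev
 (nat_lit 116) (nat_lit 2048) (.ev (nat_lit 340) (nat_lit 274877906944) (.ev (nat_lit 724) (nat_lit 4096) (.nd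
 (nat_lit 896) (.br (nat_lit 6) (.br (nat_lit 4) (.ch (nat_lit 0) (.ev (nat_lit 912) (nat_lit 552173896224)
 (.ev (nat_lit 1744) (nat_lit 32768) (.ev (nat_lit 1757) (nat_lit 562949953421312) .dd)))) (.br (nat_lit 5)
 (.ch (nat_lit 4) (.ev (nat_lit 912) (nat_lit 563501856752160) (.ev (nat_lit 1248) (nat_lit 65536) (.ev
 (nat_lit 1332) (nat_lit 2097152) (.ev (nat_lit 1341) (nat_lit 268435456) .dd))))) (.ch (nat_lit 5) (.ev
 (nat_lit 912) (nat_lit 2097696) (.ev (nat_lit 1200) (nat_lit 268435456) (.ev (nat_lit 1332) (nat_lit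
 2147483648) (.ev (nat_lit 1764) (nat_lit 65536) (.ev (nat_lit 2112) (nat_lit 32768) (.ev (nat_lit 2276)
 (nat_lit 549755813888) (.ev (nat_lit 2285) (nat_lit 562949953421312) .dd)))))))))) (.br (nat_lit 9) (.br
 (nat_lit 8) (.ch (nat_lit 6) (.ev (nat_lit 912) (nat_lit 2147516448) (.ev (nat_lit 1488) (nat_lit 268500992)
 (.ev (nat_lit 2100) (nat_lit 512) (.ev (nat_lit 2368) (nat_lit 562949953421312) (.fin (nat_lit
 576465700104127060))))))) (.ch (nat_lit 8) (.ev (nat_lit 912) (nat_lit 270565888) (.ev (nat_lit 960) (nat_lit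
 65536) (.ev (nat_lit 1712) (nat_lit 562949953421312) (.ev (nat_lit 1764) (nat_lit 32) (.ev (nat_lit 2112)
 (nat_lit 2147483648) (.ev (nat_lit 2125) (nat_lit 549755813888) .dd)))))))) (.br (nat_lit 11) (.ch (nat_lit 9)
 (.ev (nat_lit 912) (nat_lit 549758009376) (.ev (nat_lit 928) (nat_lit 2147483648) (.ev (nat_lit 1764) (nat_lit
 562949953421824) (.ev (nat_lit 1773) (nat_lit 268435456) .dd))))) (.ch (nat_lit 11) (.ev (nat_lit 912)
 (nat_lit 563499977769504) (.ev (nat_lit 2100) (nat_lit 2147483648) (.ev (nat_lit 2109) (nat_lit 2097152)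
 .dd))))))))))))))) (.br (nat_lit 28) (.ch (nat_lit 27) (.ev (nat_lit 52) (nat_lit 660875207838208) (.ev
 (nat_lit 84) (nat_lit 262176) (.ev (nat_lit 212) (nat_lit 268435456) (.ev (nat_lit 276) (nat_lit 4096) (.ev
 (nat_lit 340) (nat_lit 1024) (.ev (nat_lit 564) (nat_lit 4503599627370496) (.nd (nat_lit 896) (.br (nat_lit 6)
 (.br (nat_lit 1) (.ch (nat_lit 0) (.ev (nat_lit 912) (nat_lit 143488417169408) (.ev (nat_lit 2228) (nat_lit
 4398046511104) (.ev (nat_lit 2237) (nat_lit 274877906944) .dd)))) (.br (nat_lit 5) (.ch (nat_lit 1) (.ev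
 (nat_lit 912) (nat_lit 277027651584) (.ev (nat_lit 1220) (nat_lit 2199023255552) (.ev (nat_lit 1520) (nat_lit
 140737488355328) (.ev (nat_lit 1572) (nat_lit 549755813888) (.ev (nat_lit 1581) (nat_lit 4398046511104)
 .dd)))))) (.ch (nat_lit 5) (.ev (nat_lit 912) (nat_lit 7146827677696) (.ev (nat_lit 1686) (nat_lit
 141014513876992) (.ev (nat_lit 1693) (nat_lit 32768) .dd)))))) (.br (nat_lit 9) (.br (nat_lit 8) (.ch (nat_lit
 6) (.ev (nat_lit 912) (nat_lit 4400194158592) (.ev (nat_lit 928) (nat_lit 140737488355328) (.ev (nat_lit 1508)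
 (nat_lit 2199023255552) (.ev (nat_lit 2336) (nat_lit 274877906944) (.fin (nat_lit 576456904017396268)))))))
 (.ch (nat_lit 8) (.ev (nat_lit 912) (nat_lit 143211391778816) (.ev (nat_lit 1312) (nat_lit 2147483648) (.ev
 (nat_lit 1812) (nat_lit 549755813888) (.ev (nat_lit 1821) (nat_lit 4398046511104) .dd)))))) (.br (nat_lit 11)
 (.ch (nat_lit 9) (.ev (nat_lit 912) (nat_lit 4947802357760) (.ev (nat_lit 1200) (nat_lit 140737488355328) (.ev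
 (nat_lit 1508) (nat_lit 131072) (.ev (nat_lit 1572) (nat_lit 2199023255552) (.ev (nat_lit 1764) (nat_lit
 274877906944) (.ev (nat_lit 2064) (nat_lit 2147483648) (.ev (nat_lit 2077) (nat_lit 2097152) .dd)))))))) (.ch
 (nat_lit 11) (.ev (nat_lit 912) (nat_lit 145685290713088) (.ev (nat_lit 948) (nat_lit 2228224) (.ev (nat_lit
 960) (nat_lit 2199023255552) (.ev (nat_lit 1712) (nat_lit 274877906944) (.ev (nat_lit 1725) (nat_lit
 2147483648) .dd))))))))))))))))) (.br (nat_lit 29) (.ch (nat_lit 28) (.ev (nat_lit 52) (nat_lit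
 4726251002628608) (.ev (nat_lit 116) (nat_lit 2147483648) (.ev (nat_lit 180) (nat_lit 17592186044416) (.ev
 (nat_lit 212) (nat_lit 131072) (.ev (nat_lit 244) (nat_lit 32) (.ev (nat_lit 404) (nat_lit 1099511631872) (.ev
 (nat_lit 768) (nat_lit 4398046511104) (.nd (nat_lit 896) (.br (nat_lit 8) (.br (nat_lit 5) (.ch (nat_lit 1)
 (.ev (nat_lit 912) (nat_lit 563293551067136) (.ev (nat_lit 925) (nat_lit 1024) .dd))) (.br (nat_lit 6) (.ch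
 (nat_lit 5) (.ev (nat_lit 912) (nat_lit 563018672898048) (.ev (nat_lit 1044) (nat_lit 1024) (.ev (nat_lit
 2208) (nat_lit 262144) (.ev (nat_lit 2221) (nat_lit 274877906944) .dd))))) (.ch (nat_lit 6) (.ev (nat_lit 912)
 (nat_lit 274878169088) (.ev (nat_lit 1428) (nat_lit 562949953421312) (.ev (nat_lit 2112) (nat_lit 68719476736)
 (.ev (nat_lit 2125) (nat_lit 1024) .dd))))))) (.br (nat_lit 9) (.ch (nat_lit 8) (.ev (nat_lit 912) (nat_lit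
 343597646848) (.ev (nat_lit 925) (nat_lit 562949953421312) .dd))) (.br (nat_lit 11) (.ch (nat_lit 9) (.ev
 (nat_lit 912) (nat_lit 563293550806016) (.ev (nat_lit 925) (nat_lit 262144) .dd))) (.ch (nat_lit 11) (.ev
 (nat_lit 912) (nat_lit 563018673161216) (.ev (nat_lit 925) (nat_lit 274877906944) .dd))))))))))))))) (.ch
 (nat_lit 29) (.ev (nat_lit 52) (nat_lit 578895290368512) (.ev (nat_lit 84) (nat_lit 68719476736) (.ev (nat_lit
 500) (nat_lit 1024) (.ev (nat_lit 532) (nat_lit 1099511627776) (.ev (nat_lit 660) (nat_lit 4503599627370496)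
 (.ev (nat_lit 864) (nat_lit 4096) (.nd (nat_lit 896) (.br (nat_lit 8) (.br (nat_lit 5) (.ch (nat_lit 4) (.ev
 (nat_lit 912) (nat_lit 211381110605824) (.ev (nat_lit 1408) (nat_lit 32) (.ev (nat_lit 1421) (nat_lit
 17592186044416) .dd)))) (.br (nat_lit 6) (.ch (nat_lit 5) (.ev (nat_lit 912) (nat_lit 228973296519200) (.ev
 (nat_lit 925) (nat_lit 131072) .dd))) (.ch (nat_lit 6) (.ev (nat_lit 912) (nat_lit 211106232698912) (.ev
 (nat_lit 1220) (nat_lit 274877906944) (.ev (nat_lit 1229) (nat_lit 17592186044416) .dd)))))) (.br (nat_lit 9)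
 (.ch (nat_lit 8) (.ev (nat_lit 912) (nat_lit 17867064115200) (.ev (nat_lit 996) (nat_lit 140737488355328) (.ev
 (nat_lit 1488) (nat_lit 70368744177664) (.ev (nat_lit 2192) (nat_lit 32) (.ev (nat_lit 2205) (nat_lit 2048)
 .dd)))))) (.br (nat_lit 11) (.ch (nat_lit 9) (.ev (nat_lit 912) (nat_lit 70643622248480) (.ev (nat_lit 1508)
 (nat_lit 140737488355328) (.nd (nat_lit 2384) (.br (nat_lit 3) (.ch (nat_lit 2) (.fin (nat_lit
 576461302042935864))) (.ch (nat_lit 3) (.ev (nat_lit 2400) (nat_lit 17592186046464) .dd))))))) (.ch (nat_lit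
 11) (.ev (nat_lit 912) (nat_lit 158329674530848) (.ev (nat_lit 2000) (nat_lit 32768) (.ev (nat_lit 2160)
 (nat_lit 70368744177664) (.ev (nat_lit 2320) (nat_lit 274877908992) .dd)))))))))))))))))))))))

/-- The trie. -/
noncomputable def T : Tr := .nd (nat_lit 1000000) (.br (nat_lit 3) (.br (nat_lit 1) (.ch (nat_lit 0) (.ev
 (nat_lit 0) (nat_lit 9007199254740991) .dd)) (.br (nat_lit 2) (.ch (nat_lit 1) (.ev (nat_lit 0) (nat_lit
 9007199254740991) .dd)) (.ch (nat_lit 2) T2))) (.br (nat_lit 4) (.ch (nat_lit 3) (.ev (nat_lit 0) (nat_lit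
 9007199254740991) .dd)) (.br (nat_lit 5) (.ch (nat_lit 4) T4) (.ch (nat_lit 5) T5))))

/-- The possible values. -/
noncomputable def oks : List ℕ := [43, 274, 706]

/-- The parameters. -/
noncomputable def S : Pr := ⟨fun i l e => lget mz (lget [] (lget [] tabs i) l) e, oks, [(nat_lit 0), (nat_lit
 1), (nat_lit 0), (nat_lit 0)], T, (nat_lit 9007199254740991), (nat_lit 2287041271849359), (nat_lit 53),
 [(nat_lit 11), (nat_lit 1073946281)], [(nat_lit 2197), (nat_lit 961)]⟩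

/-- Nothing known. -/
noncomputable def cs0 : Cs := (.cons (nat_lit 13) (nat_lit 0) (nat_lit 1) (.cons (nat_lit 31) (nat_lit 0) (nat_lit 1) .nil))

theorem part_2 : part S cs0 (nat_lit 2) = true := by decide +kernel

theorem part_4 : part S cs0 (nat_lit 4) = true := by decide +kernel

theorem part_5 : part S cs0 (nat_lit 5) = true := by decide +kernel

/-- Data of a prime. -/
noncomputable def D0 : PD := ⟨(nat_lit 13), (nat_lit 3), (963, 6, 3), (1541, 898, 2148), (848, 1279, 820)⟩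

theorem D0_ok : D0.Ok := pdb_sound (s := 2) (C := ⟨⟨3, 18, -4, -17, 2, 1, 2, -1, -7⟩, (3, 9, 2)⟩) (by show Nat.Prime 13; norm_num) (by decide +kernel)

/-- Lines of the first type. -/
noncomputable def Cl0 : List C1 := [⟨⟨17, -2, -16, 3, 18, 1, -2, 1, -5⟩, (10, 1, 8)⟩,
  ⟨⟨3, -18, -4, -17, -2, 1, 2, 1, -7⟩, (5, 2, 12)⟩,
  ⟨⟨0, 0, 0, 0, 0, 0, 0, 0, 0⟩, (0, 0, 0)⟩,
  ⟨⟨17, 2, -16, 3, -18, 1, -2, -1, -5⟩, (8, 6, 9)⟩,
  ⟨⟨0, 0, 0, 0, 0, 0, 0, 0, 0⟩, (0, 0, 0)⟩,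
  ⟨⟨0, 0, 0, 0, 0, 0, 0, 0, 0⟩, (0, 0, 0)⟩,
  ⟨⟨0, 0, 0, 0, 0, 0, 0, 0, 0⟩, (0, 0, 0)⟩,
  ⟨⟨0, 0, 0, 0, 0, 0, 0, 0, 0⟩, (0, 0, 0)⟩,
  ⟨⟨0, 0, 0, 0, 0, 0, 0, 0, 0⟩, (0, 0, 0)⟩,
  ⟨⟨0, 0, 0, 0, 0, 0, 0, 0, 0⟩, (0, 0, 0)⟩,
  ⟨⟨0, 0, 0, 0, 0, 0, 0, 0, 0⟩, (0, 0, 0)⟩,
  ⟨⟨0, 0, 0, 0, 0, 0, 0, 0, 0⟩, (0, 0, 0)⟩,
  ⟨⟨0, 0, 0, 0, 0, 0, 0, 0, 0⟩, (0, 0, 0)⟩]

/-- Data of a prime. -/
noncomputable def D1 : PD := ⟨(nat_lit 31), (nat_lit 2), (435, 8, 13), (281, 829, 278), (666, 926, 286)⟩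

theorem D1_ok : D1.Ok := pdb_sound (s := 3) (C := ⟨⟨11, 26, -43, -19, 34, 32, -12, -3, -1⟩, (11, 12, 19)⟩) (by show Nat.Prime 31; norm_num) (by decide +kernel)

/-- Lines of the first type. -/
noncomputable def Cl1 : List C1 := [⟨⟨-11, -26, -32, 19, -34, 13, 12, 3, -13⟩, (22, 24, 7)⟩,
  ⟨⟨0, 0, 0, 0, 0, 0, 0, 0, 0⟩, (0, 0, 0)⟩,
  ⟨⟨0, 0, 0, 0, 0, 0, 0, 0, 0⟩, (0, 0, 0)⟩,
  ⟨⟨29, 26, -37, 21, 6, 32, 8, -11, -7⟩, (2, 10, 23)⟩,
  ⟨⟨0, 0, 0, 0, 0, 0, 0, 0, 0⟩, (0, 0, 0)⟩,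
  ⟨⟨21, 6, -53, 29, 26, 8, 8, -11, -1⟩, (6, 26, 20)⟩,
  ⟨⟨0, 0, 0, 0, 0, 0, 0, 0, 0⟩, (0, 0, 0)⟩,
  ⟨⟨29, -26, -37, 21, -6, 32, 8, 11, -7⟩, (27, 11, 16)⟩,
  ⟨⟨0, 0, 0, 0, 0, 0, 0, 0, 0⟩, (0, 0, 0)⟩,
  ⟨⟨-9, -6, -43, -41, 14, 28, 4, 13, -5⟩, (4, 1, 12)⟩,
  ⟨⟨9, -6, -52, -41, -14, 13, -4, 13, -1⟩, (29, 16, 25)⟩,
  ⟨⟨21, -6, -53, 29, -26, 8, 8, 11, -1⟩, (7, 20, 13)⟩,
  ⟨⟨9, 6, -52, -41, 14, 13, -4, -13, -1⟩, (28, 24, 22)⟩,
  ⟨⟨0, 0, 0, 0, 0, 0, 0, 0, 0⟩, (0, 0, 0)⟩,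
  ⟨⟨0, 0, 0, 0, 0, 0, 0, 0, 0⟩, (0, 0, 0)⟩,
  ⟨⟨0, 0, 0, 0, 0, 0, 0, 0, 0⟩, (0, 0, 0)⟩,
  ⟨⟨11, -26, -43, -19, -34, 32, -12, 3, -1⟩, (25, 16, 15)⟩,
  ⟨⟨-9, 6, -43, -41, -14, 28, 4, -13, -5⟩, (3, 24, 9)⟩,
  ⟨⟨0, 0, 0, 0, 0, 0, 0, 0, 0⟩, (0, 0, 0)⟩,
  ⟨⟨0, 0, 0, 0, 0, 0, 0, 0, 0⟩, (0, 0, 0)⟩,
  ⟨⟨0, 0, 0, 0, 0, 0, 0, 0, 0⟩, (0, 0, 0)⟩,
  ⟨⟨0, 0, 0, 0, 0, 0, 0, 0, 0⟩, (0, 0, 0)⟩,
  ⟨⟨0, 0, 0, 0, 0, 0, 0, 0, 0⟩, (0, 0, 0)⟩,
  ⟨⟨0, 0, 0, 0, 0, 0, 0, 0, 0⟩, (0, 0, 0)⟩,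
  ⟨⟨0, 0, 0, 0, 0, 0, 0, 0, 0⟩, (0, 0, 0)⟩,
  ⟨⟨0, 0, 0, 0, 0, 0, 0, 0, 0⟩, (0, 0, 0)⟩,
  ⟨⟨0, 0, 0, 0, 0, 0, 0, 0, 0⟩, (0, 0, 0)⟩,
  ⟨⟨0, 0, 0, 0, 0, 0, 0, 0, 0⟩, (0, 0, 0)⟩,
  ⟨⟨0, 0, 0, 0, 0, 0, 0, 0, 0⟩, (0, 0, 0)⟩,
  ⟨⟨0, 0, 0, 0, 0, 0, 0, 0, 0⟩, (0, 0, 0)⟩,
  ⟨⟨-11, 26, -32, 19, 34, 13, 12, -3, -13⟩, (28, 8, 23)⟩]

/-- Data of a prime. -/
noncomputable def Dm : PD := ⟨(nat_lit 53), (nat_lit 2), (2545, 8, 14), (2610, 800, 1557), (1968, 957, 2439)⟩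

theorem Dm_ok : Dm.Ok := pdb_sound (s := 12) (C := ⟨⟨-13, 2, -76, -47, -58, 31, 18, -15, -13⟩, (40, 6, 18)⟩) (by show Nat.Prime 53; norm_num) (by decide +kernel)

/-- Lines of the first type. -/
noncomputable def Clm : List C1 := [⟨⟨13, -2, -89, -47, -58, 16, 18, -15, -5⟩, (17, 16, 48)⟩,
  ⟨⟨-23, 38, -56, 43, 58, 1, 18, -9, -23⟩, (9, 50, 16)⟩,
  ⟨⟨-23, -38, -56, 43, -58, 1, 18, 9, -23⟩, (18, 47, 32)⟩,
  ⟨⟨-13, -2, -76, -47, 58, 31, 18, 15, -13⟩, (20, 3, 9)⟩,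
  ⟨⟨0, 0, 0, 0, 0, 0, 0, 0, 0⟩, (0, 0, 0)⟩,
  ⟨⟨0, 0, 0, 0, 0, 0, 0, 0, 0⟩, (0, 0, 0)⟩,
  ⟨⟨0, 0, 0, 0, 0, 0, 0, 0, 0⟩, (0, 0, 0)⟩,
  ⟨⟨23, -38, -79, -43, -58, 44, -18, 9, -5⟩, (29, 8, 28)⟩,
  ⟨⟨33, -18, -89, 67, 2, 4, 2, 23, -7⟩, (12, 34, 20)⟩,
  ⟨⟨0, 0, 0, 0, 0, 0, 0, 0, 0⟩, (0, 0, 0)⟩,
  ⟨⟨0, 0, 0, 0, 0, 0, 0, 0, 0⟩, (0, 0, 0)⟩,
  ⟨⟨0, 0, 0, 0, 0, 0, 0, 0, 0⟩, (0, 0, 0)⟩,
  ⟨⟨0, 0, 0, 0, 0, 0, 0, 0, 0⟩, (0, 0, 0)⟩,
  ⟨⟨27, 42, -76, 7, 58, 49, 22, -7, -5⟩, (1, 14, 44)⟩,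
  ⟨⟨33, 18, -89, 67, -2, 4, 2, -23, -7⟩, (44, 1, 38)⟩,
  ⟨⟨0, 0, 0, 0, 0, 0, 0, 0, 0⟩, (0, 0, 0)⟩,
  ⟨⟨0, 0, 0, 0, 0, 0, 0, 0, 0⟩, (0, 0, 0)⟩,
  ⟨⟨0, 0, 0, 0, 0, 0, 0, 0, 0⟩, (0, 0, 0)⟩,
  ⟨⟨0, 0, 0, 0, 0, 0, 0, 0, 0⟩, (0, 0, 0)⟩,
  ⟨⟨57, 42, -56, -37, 62, 41, -10, 1, -19⟩, (20, 27, 3)⟩,
  ⟨⟨13, 2, -89, -47, 58, 16, 18, 15, -5⟩, (50, 19, 4)⟩,
  ⟨⟨0, 0, 0, 0, 0, 0, 0, 0, 0⟩, (0, 0, 0)⟩,
  ⟨⟨0, 0, 0, 0, 0, 0, 0, 0, 0⟩, (0, 0, 0)⟩,
  ⟨⟨57, -42, -56, -37, -62, 41, -10, -1, -19⟩, (16, 11, 13)⟩,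
  ⟨⟨0, 0, 0, 0, 0, 0, 0, 0, 0⟩, (0, 0, 0)⟩,
  ⟨⟨7, 58, -56, 27, 42, 49, 22, -7, -17⟩, (20, 9, 25)⟩,
  ⟨⟨0, 0, 0, 0, 0, 0, 0, 0, 0⟩, (0, 0, 0)⟩,
  ⟨⟨67, -2, -71, 33, 18, 56, -2, 23, -5⟩, (28, 13, 49)⟩,
  ⟨⟨0, 0, 0, 0, 0, 0, 0, 0, 0⟩, (0, 0, 0)⟩,
  ⟨⟨0, 0, 0, 0, 0, 0, 0, 0, 0⟩, (0, 0, 0)⟩,
  ⟨⟨23, 38, -79, -43, 58, 44, -18, -9, -5⟩, (20, 11, 12)⟩,
  ⟨⟨0, 0, 0, 0, 0, 0, 0, 0, 0⟩, (0, 0, 0)⟩,
  ⟨⟨7, -58, -56, 27, -42, 49, 22, 7, -17⟩, (17, 5, 8)⟩,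
  ⟨⟨0, 0, 0, 0, 0, 0, 0, 0, 0⟩, (0, 0, 0)⟩,
  ⟨⟨67, 2, -71, 33, -18, 56, -2, -23, -5⟩, (8, 34, 14)⟩,
  ⟨⟨27, -42, -76, 7, -58, 49, 22, 7, -5⟩, (50, 11, 27)⟩,
  ⟨⟨0, 0, 0, 0, 0, 0, 0, 0, 0⟩, (0, 0, 0)⟩,
  ⟨⟨0, 0, 0, 0, 0, 0, 0, 0, 0⟩, (0, 0, 0)⟩,
  ⟨⟨0, 0, 0, 0, 0, 0, 0, 0, 0⟩, (0, 0, 0)⟩,
  ⟨⟨0, 0, 0, 0, 0, 0, 0, 0, 0⟩, (0, 0, 0)⟩,
  ⟨⟨0, 0, 0, 0, 0, 0, 0, 0, 0⟩, (0, 0, 0)⟩,
  ⟨⟨0, 0, 0, 0, 0, 0, 0, 0, 0⟩, (0, 0, 0)⟩,
  ⟨⟨0, 0, 0, 0, 0, 0, 0, 0, 0⟩, (0, 0, 0)⟩,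
  ⟨⟨0, 0, 0, 0, 0, 0, 0, 0, 0⟩, (0, 0, 0)⟩,
  ⟨⟨0, 0, 0, 0, 0, 0, 0, 0, 0⟩, (0, 0, 0)⟩,
  ⟨⟨-37, 62, -4, -57, -42, 1, 10, -1, -29⟩, (22, 21, 27)⟩,
  ⟨⟨0, 0, 0, 0, 0, 0, 0, 0, 0⟩, (0, 0, 0)⟩,
  ⟨⟨0, 0, 0, 0, 0, 0, 0, 0, 0⟩, (0, 0, 0)⟩,
  ⟨⟨0, 0, 0, 0, 0, 0, 0, 0, 0⟩, (0, 0, 0)⟩,
  ⟨⟨0, 0, 0, 0, 0, 0, 0, 0, 0⟩, (0, 0, 0)⟩,
  ⟨⟨0, 0, 0, 0, 0, 0, 0, 0, 0⟩, (0, 0, 0)⟩,
  ⟨⟨-37, -62, -4, -57, 42, 1, 10, 1, -29⟩, (6, 25, 17)⟩,
  ⟨⟨0, 0, 0, 0, 0, 0, 0, 0, 0⟩, (0, 0, 0)⟩]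

/-- Unit moves. -/
noncomputable def U : List Mv := [mz,
  mz,
  mz,
  mz,
  mz,
  mz,
  ⟨⟨-1, 0, 1, 0, 1, 0, 0, 0, 1⟩, .nil, (nat_lit 12), (nat_lit 1), (nat_lit 4), (nat_lit 1), (0, 0, 0), [], 5⟩,
  ⟨⟨1, 0, 0, 0, -1, 0, 0, 0, 1⟩, .nil, (nat_lit 12), (nat_lit 3), (nat_lit 12), (nat_lit 1), (0, 0, 0), [], 11⟩,
  ⟨⟨-1, 0, 1, 0, -1, 0, 0, 0, 1⟩, .nil, (nat_lit 0), (nat_lit 3), (nat_lit 1), (nat_lit 0), (0, 0, 0), [], 10⟩,
  ⟨⟨1, 0, 0, 0, -1, 0, 0, 0, 1⟩, .nil, (nat_lit 12), (nat_lit 3), (nat_lit 12), (nat_lit 1), (0, 0, 0), [], 11⟩,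
  ⟨⟨-1, 0, 1, 0, 1, 0, 0, 0, 1⟩, .nil, (nat_lit 12), (nat_lit 1), (nat_lit 4), (nat_lit 1), (0, 0, 0), [], 5⟩,
  ⟨⟨-1, 0, 1, 0, -1, 0, 0, 0, 1⟩, .nil, (nat_lit 0), (nat_lit 3), (nat_lit 1), (nat_lit 0), (0, 0, 0), [], 10⟩,
  ⟨⟨1, 0, 0, 0, -1, 0, 0, 0, 1⟩, .nil, (nat_lit 12), (nat_lit 3), (nat_lit 12), (nat_lit 1), (0, 0, 0), [], 11⟩]

theorem v_ty : tyb Dm S.ty1 Clm = true := by decide +kernel

theorem v_ty0 : tyb D0 (S.tys.getD 0 0) Cl0 = true := by decide +kernel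

theorem v_ty1 : tyb D1 (S.tys.getD 1 0) Cl1 = true := by decide +kernel

theorem v_msc : mscb S D0 [D1] Dm (nat_lit 52) = true := by decide +kernel

theorem v_mv0 : mvsn (nat_lit 5930689453) S D0 [D1] Dm (nat_lit 52) 0 D0 = true := by decide +kernel

theorem v_mv1 : mvsn (nat_lit 5930689453) S D0 [D1] Dm (nat_lit 52) 1 D1 = true := by decide +kernel

theorem v_mm : mmsn (nat_lit 5930689453) S D0 [D1] Dm (nat_lit 52) = true := by decide +kernel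

theorem v_un : unb S D0 (nat_lit 52) U = true := by decide +kernel

theorem v_ok : okb S.oks [(0, 0, 0), (0, 0, 0), (0, 0, 0)] = true := by decide +kernel

theorem v_part : ∀ d < D0.p, (nat_lit 52).testBit d = true → part S (zc (D0 :: [D1])) d = true := by
  intro d hd h
  have h1 : ∀ d < 13, (nat_lit 52).testBit d = true → d = 2 ∨ d = 4 ∨ d = 5 := by decide
  rcases h1 d hd h with rfl | rfl | rfl
  · exact part_2
  · exact part_4
  · exact part_5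

theorem main (n : ℕ) (ho : Odd n) (hr : ¬ Rep n) (h0 : Split 13 n) (h1 : Split 31 n) (hm : Split 53 n) :
    n ∈ EE := by
  refine concln (W := nat_lit 5930689453) (S := S) (P0 := D0) (Pl := [D1]) (Pm := Dm) (cn := nat_lit 52) ?_ Dm_ok v_ty ?_ ?_ v_msc ?_ v_mm v_un v_part v_ok
    n ho hr ?_ hm
  · simp only [List.forall_mem_cons]
    exact ⟨D0_ok, D1_ok, fun _ h => absurd h (by simp)⟩
  · exact all2 (φ := fun j P => ∃ L, tyb P (S.tys.getD j 0) L = true) ⟨_, v_ty0⟩ ⟨_, v_ty1⟩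
  · exact all2 (φ := fun j P => Nat.ble (S.pks.getD j 0) (Nat.pow P.p P.K) = true) (by decide +kernel) (by decide +kernel)
  · exact all2 (φ := fun i P => mvsn (nat_lit 5930689453) S D0 [D1] Dm (nat_lit 52) i P = true) v_mv0 v_mv1
  · simp only [List.forall_mem_cons]
    exact ⟨h0, h1, fun _ h => absurd h (by simp)⟩

end Pool.Agent.Work.MP_9954fe_nt.P13_31_53

namespace Pool.Agent.Work.MP_9954fe_nt.P19_71_53

/-- Dummy move. -/
noncomputable def mz : Mv := ⟨⟨0, 0, 0, 0, 0, 0, 0, 0, 0⟩, .nil, (nat_lit 0), (nat_lit 0), (nat_lit 0), (nat_lit 0), (0, 0, 0), [], 0⟩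

/-- Moves. -/
noncomputable def t0_1 : List Mv := [
  ⟨⟨15, -4, -23, -10, 9, -10, 12, 12, -7⟩, (.cons (nat_lit 177) (nat_lit 313) (nat_lit 238) (nat_lit 1) (.cons
 (nat_lit 3215) (nat_lit 4759) (nat_lit 3275) (nat_lit 1) .nil)), (nat_lit 41), (nat_lit 20), (nat_lit 35),
 (nat_lit 1), (18, 7, 3), [49, 322], 40⟩,
  ⟨⟨15, -4, -23, 10, -9, 10, 12, 12, -7⟩, (.cons (nat_lit 317) (nat_lit 293) (nat_lit 1) (nat_lit 190) (.cons
 (nat_lit 1214) (nat_lit 1867) (nat_lit 3469) (nat_lit 1) .nil)), (nat_lit 24), (nat_lit 0), (nat_lit 43),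
 (nat_lit 1), (18, 12, 3), [350, 2125], 21⟩,
  ⟨⟨15, -4, -23, -10, 9, -10, 12, 12, -7⟩, (.cons (nat_lit 177) (nat_lit 313) (nat_lit 238) (nat_lit 1) (.cons
 (nat_lit 3215) (nat_lit 4759) (nat_lit 3275) (nat_lit 1) .nil)), (nat_lit 41), (nat_lit 20), (nat_lit 35),
 (nat_lit 1), (18, 7, 3), [49, 322], 40⟩,
  ⟨⟨15, -4, -23, -10, 9, -10, 12, 12, -7⟩, (.cons (nat_lit 177) (nat_lit 313) (nat_lit 238) (nat_lit 1) (.cons
 (nat_lit 3215) (nat_lit 4759) (nat_lit 3275) (nat_lit 1) .nil)), (nat_lit 41), (nat_lit 20), (nat_lit 35),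
 (nat_lit 1), (18, 7, 3), [49, 322], 40⟩,
  ⟨⟨-3, 16, 16, 10, -9, 10, 12, 12, -7⟩, (.cons (nat_lit 235) (nat_lit 147) (nat_lit 254) (nat_lit 1) (.cons
 (nat_lit 5040) (nat_lit 2264) (nat_lit 862) (nat_lit 1) .nil)), (nat_lit 52), (nat_lit 3), (nat_lit 10),
 (nat_lit 1), (4, 12, 3), [80, 1785], 47⟩,
  ⟨⟨15, -4, -23, -10, 9, -10, 12, 12, -7⟩, (.cons (nat_lit 177) (nat_lit 313) (nat_lit 238) (nat_lit 1) (.cons
 (nat_lit 3215) (nat_lit 4759) (nat_lit 3275) (nat_lit 1) .nil)), (nat_lit 41), (nat_lit 20), (nat_lit 35),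
 (nat_lit 1), (18, 7, 3), [49, 322], 40⟩,
  ⟨⟨15, -4, -23, 10, -9, 10, 12, 12, -7⟩, (.cons (nat_lit 317) (nat_lit 293) (nat_lit 1) (nat_lit 190) (.cons
 (nat_lit 1214) (nat_lit 1867) (nat_lit 3469) (nat_lit 1) .nil)), (nat_lit 24), (nat_lit 0), (nat_lit 43),
 (nat_lit 1), (18, 12, 3), [350, 2125], 21⟩,
  ⟨⟨-3, 16, 16, -10, 9, -10, 12, 12, -7⟩, (.cons (nat_lit 296) (nat_lit 76) (nat_lit 194) (nat_lit 1) (.cons
 (nat_lit 366) (nat_lit 432) (nat_lit 1018) (nat_lit 1) .nil)), (nat_lit 28), (nat_lit 29), (nat_lit 1),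
 (nat_lit 0), (4, 7, 3), [8, 894], 21⟩,
  ⟨⟨15, -4, -23, -10, 9, -10, 12, 12, -7⟩, (.cons (nat_lit 177) (nat_lit 313) (nat_lit 238) (nat_lit 1) (.cons
 (nat_lit 3215) (nat_lit 4759) (nat_lit 3275) (nat_lit 1) .nil)), (nat_lit 41), (nat_lit 20), (nat_lit 35),
 (nat_lit 1), (18, 7, 3), [49, 322], 40⟩,
  ⟨⟨15, -4, -23, -10, 9, -10, 12, 12, -7⟩, (.cons (nat_lit 177) (nat_lit 313) (nat_lit 238) (nat_lit 1) (.cons
 (nat_lit 3215) (nat_lit 4759) (nat_lit 3275) (nat_lit 1) .nil)), (nat_lit 41), (nat_lit 20), (nat_lit 35),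
 (nat_lit 1), (18, 7, 3), [49, 322], 40⟩,
  ⟨⟨15, -4, -23, -10, 9, -10, 12, 12, -7⟩, (.cons (nat_lit 177) (nat_lit 313) (nat_lit 238) (nat_lit 1) (.cons
 (nat_lit 3215) (nat_lit 4759) (nat_lit 3275) (nat_lit 1) .nil)), (nat_lit 41), (nat_lit 20), (nat_lit 35),
 (nat_lit 1), (18, 7, 3), [49, 322], 40⟩,
  ⟨⟨-3, 16, 16, -10, 9, -10, 12, 12, -7⟩, (.cons (nat_lit 296) (nat_lit 76) (nat_lit 194) (nat_lit 1) (.cons
 (nat_lit 366) (nat_lit 432) (nat_lit 1018) (nat_lit 1) .nil)), (nat_lit 28), (nat_lit 29), (nat_lit 1),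
 (nat_lit 0), (4, 7, 3), [8, 894], 21⟩,
  ⟨⟨15, -4, -23, 10, -9, 10, 12, 12, -7⟩, (.cons (nat_lit 317) (nat_lit 293) (nat_lit 1) (nat_lit 190) (.cons
 (nat_lit 1214) (nat_lit 1867) (nat_lit 3469) (nat_lit 1) .nil)), (nat_lit 24), (nat_lit 0), (nat_lit 43),
 (nat_lit 1), (18, 12, 3), [350, 2125], 21⟩,
  ⟨⟨15, -4, -23, -10, 9, -10, 12, 12, -7⟩, (.cons (nat_lit 177) (nat_lit 313) (nat_lit 238) (nat_lit 1) (.cons
 (nat_lit 3215) (nat_lit 4759) (nat_lit 3275) (nat_lit 1) .nil)), (nat_lit 41), (nat_lit 20), (nat_lit 35),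
 (nat_lit 1), (18, 7, 3), [49, 322], 40⟩,
  ⟨⟨15, -4, -23, -10, 9, -10, 12, 12, -7⟩, (.cons (nat_lit 177) (nat_lit 313) (nat_lit 238) (nat_lit 1) (.cons
 (nat_lit 3215) (nat_lit 4759) (nat_lit 3275) (nat_lit 1) .nil)), (nat_lit 41), (nat_lit 20), (nat_lit 35),
 (nat_lit 1), (18, 7, 3), [49, 322], 40⟩,
  ⟨⟨-3, 16, 16, -10, 9, -10, 12, 12, -7⟩, (.cons (nat_lit 296) (nat_lit 76) (nat_lit 194) (nat_lit 1) (.cons
 (nat_lit 366) (nat_lit 432) (nat_lit 1018) (nat_lit 1) .nil)), (nat_lit 28), (nat_lit 29), (nat_lit 1),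
 (nat_lit 0), (4, 7, 3), [8, 894], 21⟩,
  ⟨⟨15, -4, -23, -10, 9, -10, 12, 12, -7⟩, (.cons (nat_lit 177) (nat_lit 313) (nat_lit 238) (nat_lit 1) (.cons
 (nat_lit 3215) (nat_lit 4759) (nat_lit 3275) (nat_lit 1) .nil)), (nat_lit 41), (nat_lit 20), (nat_lit 35),
 (nat_lit 1), (18, 7, 3), [49, 322], 40⟩,
  ⟨⟨15, -4, -23, -10, 9, -10, 12, 12, -7⟩, (.cons (nat_lit 177) (nat_lit 313) (nat_lit 238) (nat_lit 1) (.cons
 (nat_lit 3215) (nat_lit 4759) (nat_lit 3275) (nat_lit 1) .nil)), (nat_lit 41), (nat_lit 20), (nat_lit 35),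
 (nat_lit 1), (18, 7, 3), [49, 322], 40⟩,
  ⟨⟨-3, 16, 16, 10, -9, 10, 12, 12, -7⟩, (.cons (nat_lit 235) (nat_lit 147) (nat_lit 254) (nat_lit 1) (.cons
 (nat_lit 5040) (nat_lit 2264) (nat_lit 862) (nat_lit 1) .nil)), (nat_lit 52), (nat_lit 3), (nat_lit 10),
 (nat_lit 1), (4, 12, 3), [80, 1785], 47⟩]

/-- Moves. -/
noncomputable def t0_2 : List Mv := [
  ⟨⟨-11, 12, 20, 16, 5, 2, -2, 16, -5⟩, (.cons (nat_lit 131) (nat_lit 154) (nat_lit 242) (nat_lit 1) (.cons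
 (nat_lit 4299) (nat_lit 715) (nat_lit 4516) (nat_lit 1) .nil)), (nat_lit 41), (nat_lit 32), (nat_lit 7),
 (nat_lit 1), (15, 11, 1), [46, 135], 21⟩,
  ⟨⟨9, 4, -25, -16, -5, -2, -2, 16, -5⟩, (.cons (nat_lit 274) (nat_lit 291) (nat_lit 265) (nat_lit 1) (.cons
 (nat_lit 3668) (nat_lit 2922) (nat_lit 803) (nat_lit 1) .nil)), (nat_lit 33), (nat_lit 35), (nat_lit 46),
 (nat_lit 1), (5, 8, 1), [52, 768], 35⟩,
  ⟨⟨9, 4, -25, 16, 5, 2, -2, 16, -5⟩, (.cons (nat_lit 314) (nat_lit 176) (nat_lit 235) (nat_lit 1) (.cons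
 (nat_lit 2542) (nat_lit 2339) (nat_lit 2425) (nat_lit 1) .nil)), (nat_lit 51), (nat_lit 13), (nat_lit 5),
 (nat_lit 1), (5, 11, 1), [253, 5039], 1⟩,
  ⟨⟨9, 4, -25, -16, -5, -2, -2, 16, -5⟩, (.cons (nat_lit 274) (nat_lit 291) (nat_lit 265) (nat_lit 1) (.cons
 (nat_lit 3668) (nat_lit 2922) (nat_lit 803) (nat_lit 1) .nil)), (nat_lit 33), (nat_lit 35), (nat_lit 46),
 (nat_lit 1), (5, 8, 1), [52, 768], 35⟩,
  ⟨⟨9, 4, -25, -16, -5, -2, -2, 16, -5⟩, (.cons (nat_lit 274) (nat_lit 291) (nat_lit 265) (nat_lit 1) (.cons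
 (nat_lit 3668) (nat_lit 2922) (nat_lit 803) (nat_lit 1) .nil)), (nat_lit 33), (nat_lit 35), (nat_lit 46),
 (nat_lit 1), (5, 8, 1), [52, 768], 35⟩,
  ⟨⟨9, 4, -25, 16, 5, 2, -2, 16, -5⟩, (.cons (nat_lit 314) (nat_lit 176) (nat_lit 235) (nat_lit 1) (.cons
 (nat_lit 2542) (nat_lit 2339) (nat_lit 2425) (nat_lit 1) .nil)), (nat_lit 51), (nat_lit 13), (nat_lit 5),
 (nat_lit 1), (5, 11, 1), [253, 5039], 1⟩,
  ⟨⟨-11, 12, 20, 16, 5, 2, -2, 16, -5⟩, (.cons (nat_lit 131) (nat_lit 154) (nat_lit 242) (nat_lit 1) (.cons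
 (nat_lit 4299) (nat_lit 715) (nat_lit 4516) (nat_lit 1) .nil)), (nat_lit 41), (nat_lit 32), (nat_lit 7),
 (nat_lit 1), (15, 11, 1), [46, 135], 21⟩,
  ⟨⟨-11, 12, 20, -16, -5, -2, -2, 16, -5⟩, (.cons (nat_lit 108) (nat_lit 314) (nat_lit 59) (nat_lit 1) (.cons
 (nat_lit 4730) (nat_lit 4619) (nat_lit 3376) (nat_lit 1) .nil)), (nat_lit 19), (nat_lit 25), (nat_lit 8),
 (nat_lit 1), (15, 8, 1), [7, 2270], 47⟩,
  ⟨⟨9, 4, -25, -16, -5, -2, -2, 16, -5⟩, (.cons (nat_lit 274) (nat_lit 291) (nat_lit 265) (nat_lit 1) (.cons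
 (nat_lit 3668) (nat_lit 2922) (nat_lit 803) (nat_lit 1) .nil)), (nat_lit 33), (nat_lit 35), (nat_lit 46),
 (nat_lit 1), (5, 8, 1), [52, 768], 35⟩,
  ⟨⟨9, 4, -25, -16, -5, -2, -2, 16, -5⟩, (.cons (nat_lit 274) (nat_lit 291) (nat_lit 265) (nat_lit 1) (.cons
 (nat_lit 3668) (nat_lit 2922) (nat_lit 803) (nat_lit 1) .nil)), (nat_lit 33), (nat_lit 35), (nat_lit 46),
 (nat_lit 1), (5, 8, 1), [52, 768], 35⟩,
  ⟨⟨9, 4, -25, -16, -5, -2, -2, 16, -5⟩, (.cons (nat_lit 274) (nat_lit 291) (nat_lit 265) (nat_lit 1) (.cons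
 (nat_lit 3668) (nat_lit 2922) (nat_lit 803) (nat_lit 1) .nil)), (nat_lit 33), (nat_lit 35), (nat_lit 46),
 (nat_lit 1), (5, 8, 1), [52, 768], 35⟩,
  ⟨⟨9, 4, -25, -16, -5, -2, -2, 16, -5⟩, (.cons (nat_lit 274) (nat_lit 291) (nat_lit 265) (nat_lit 1) (.cons
 (nat_lit 3668) (nat_lit 2922) (nat_lit 803) (nat_lit 1) .nil)), (nat_lit 33), (nat_lit 35), (nat_lit 46),
 (nat_lit 1), (5, 8, 1), [52, 768], 35⟩,
  ⟨⟨9, 4, -25, -16, -5, -2, -2, 16, -5⟩, (.cons (nat_lit 274) (nat_lit 291) (nat_lit 265) (nat_lit 1) (.cons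
 (nat_lit 3668) (nat_lit 2922) (nat_lit 803) (nat_lit 1) .nil)), (nat_lit 33), (nat_lit 35), (nat_lit 46),
 (nat_lit 1), (5, 8, 1), [52, 768], 35⟩,
  ⟨⟨-11, 12, 20, -16, -5, -2, -2, 16, -5⟩, (.cons (nat_lit 108) (nat_lit 314) (nat_lit 59) (nat_lit 1) (.cons
 (nat_lit 4730) (nat_lit 4619) (nat_lit 3376) (nat_lit 1) .nil)), (nat_lit 19), (nat_lit 25), (nat_lit 8),
 (nat_lit 1), (15, 8, 1), [7, 2270], 47⟩,
  ⟨⟨9, 4, -25, -16, -5, -2, -2, 16, -5⟩, (.cons (nat_lit 274) (nat_lit 291) (nat_lit 265) (nat_lit 1) (.cons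
 (nat_lit 3668) (nat_lit 2922) (nat_lit 803) (nat_lit 1) .nil)), (nat_lit 33), (nat_lit 35), (nat_lit 46),
 (nat_lit 1), (5, 8, 1), [52, 768], 35⟩,
  ⟨⟨9, 4, -25, 16, 5, 2, -2, 16, -5⟩, (.cons (nat_lit 314) (nat_lit 176) (nat_lit 235) (nat_lit 1) (.cons
 (nat_lit 2542) (nat_lit 2339) (nat_lit 2425) (nat_lit 1) .nil)), (nat_lit 51), (nat_lit 13), (nat_lit 5),
 (nat_lit 1), (5, 11, 1), [253, 5039], 1⟩,
  ⟨⟨-11, 12, 20, -16, -5, -2, -2, 16, -5⟩, (.cons (nat_lit 108) (nat_lit 314) (nat_lit 59) (nat_lit 1) (.cons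
 (nat_lit 4730) (nat_lit 4619) (nat_lit 3376) (nat_lit 1) .nil)), (nat_lit 19), (nat_lit 25), (nat_lit 8),
 (nat_lit 1), (15, 8, 1), [7, 2270], 47⟩,
  ⟨⟨9, 4, -25, -16, -5, -2, -2, 16, -5⟩, (.cons (nat_lit 274) (nat_lit 291) (nat_lit 265) (nat_lit 1) (.cons
 (nat_lit 3668) (nat_lit 2922) (nat_lit 803) (nat_lit 1) .nil)), (nat_lit 33), (nat_lit 35), (nat_lit 46),
 (nat_lit 1), (5, 8, 1), [52, 768], 35⟩,
  ⟨⟨9, 4, -25, -16, -5, -2, -2, 16, -5⟩, (.cons (nat_lit 274) (nat_lit 291) (nat_lit 265) (nat_lit 1) (.cons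
 (nat_lit 3668) (nat_lit 2922) (nat_lit 803) (nat_lit 1) .nil)), (nat_lit 33), (nat_lit 35), (nat_lit 46),
 (nat_lit 1), (5, 8, 1), [52, 768], 35⟩]

/-- Moves. -/
noncomputable def t0_8 : List Mv := [
  ⟨⟨17, -12, -9, -4, -5, -18, 14, 8, -13⟩, (.cons (nat_lit 67) (nat_lit 114) (nat_lit 350) (nat_lit 1) (.cons
 (nat_lit 3242) (nat_lit 565) (nat_lit 1079) (nat_lit 1) .nil)), (nat_lit 33), (nat_lit 49), (nat_lit 48),
 (nat_lit 1), (9, 18, 13), [238, 2259], 35⟩,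
  ⟨⟨17, -12, -9, -4, -5, -18, 14, 8, -13⟩, (.cons (nat_lit 67) (nat_lit 114) (nat_lit 350) (nat_lit 1) (.cons
 (nat_lit 3242) (nat_lit 565) (nat_lit 1079) (nat_lit 1) .nil)), (nat_lit 33), (nat_lit 49), (nat_lit 48),
 (nat_lit 1), (9, 18, 13), [238, 2259], 35⟩,
  ⟨⟨17, -12, -9, -4, -5, -18, 14, 8, -13⟩, (.cons (nat_lit 67) (nat_lit 114) (nat_lit 350) (nat_lit 1) (.cons
 (nat_lit 3242) (nat_lit 565) (nat_lit 1079) (nat_lit 1) .nil)), (nat_lit 33), (nat_lit 49), (nat_lit 48),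
 (nat_lit 1), (9, 18, 13), [238, 2259], 35⟩,
  ⟨⟨-3, 20, -4, -4, -5, -18, 14, 8, -13⟩, (.cons (nat_lit 100) (nat_lit 351) (nat_lit 181) (nat_lit 1) (.cons
 (nat_lit 786) (nat_lit 1910) (nat_lit 660) (nat_lit 1) .nil)), (nat_lit 13), (nat_lit 50), (nat_lit 32),
 (nat_lit 1), (4, 18, 13), [256, 1798], 49⟩,
  ⟨⟨-3, 20, -4, 4, 5, 18, 14, 8, -13⟩, (.cons (nat_lit 78) (nat_lit 138) (nat_lit 1) (nat_lit 285) (.cons
 (nat_lit 4382) (nat_lit 2372) (nat_lit 1854) (nat_lit 1) .nil)), (nat_lit 22), (nat_lit 38), (nat_lit 5),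
 (nat_lit 1), (4, 1, 13), [71, 1105], 41⟩,
  ⟨⟨17, -12, -9, -4, -5, -18, 14, 8, -13⟩, (.cons (nat_lit 67) (nat_lit 114) (nat_lit 350) (nat_lit 1) (.cons
 (nat_lit 3242) (nat_lit 565) (nat_lit 1079) (nat_lit 1) .nil)), (nat_lit 33), (nat_lit 49), (nat_lit 48),
 (nat_lit 1), (9, 18, 13), [238, 2259], 35⟩,
  ⟨⟨17, -12, -9, -4, -5, -18, 14, 8, -13⟩, (.cons (nat_lit 67) (nat_lit 114) (nat_lit 350) (nat_lit 1) (.cons
 (nat_lit 3242) (nat_lit 565) (nat_lit 1079) (nat_lit 1) .nil)), (nat_lit 33), (nat_lit 49), (nat_lit 48),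
 (nat_lit 1), (9, 18, 13), [238, 2259], 35⟩,
  ⟨⟨17, -12, -9, -4, -5, -18, 14, 8, -13⟩, (.cons (nat_lit 67) (nat_lit 114) (nat_lit 350) (nat_lit 1) (.cons
 (nat_lit 3242) (nat_lit 565) (nat_lit 1079) (nat_lit 1) .nil)), (nat_lit 33), (nat_lit 49), (nat_lit 48),
 (nat_lit 1), (9, 18, 13), [238, 2259], 35⟩,
  ⟨⟨17, -12, -9, 4, 5, 18, 14, 8, -13⟩, (.cons (nat_lit 273) (nat_lit 128) (nat_lit 294) (nat_lit 1) (.cons
 (nat_lit 1255) (nat_lit 4668) (nat_lit 4878) (nat_lit 1) .nil)), (nat_lit 49), (nat_lit 33), (nat_lit 31),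
 (nat_lit 1), (9, 1, 13), [176, 2152], 9⟩,
  ⟨⟨17, -12, -9, -4, -5, -18, 14, 8, -13⟩, (.cons (nat_lit 67) (nat_lit 114) (nat_lit 350) (nat_lit 1) (.cons
 (nat_lit 3242) (nat_lit 565) (nat_lit 1079) (nat_lit 1) .nil)), (nat_lit 33), (nat_lit 49), (nat_lit 48),
 (nat_lit 1), (9, 18, 13), [238, 2259], 35⟩,
  ⟨⟨17, -12, -9, -4, -5, -18, 14, 8, -13⟩, (.cons (nat_lit 67) (nat_lit 114) (nat_lit 350) (nat_lit 1) (.cons
 (nat_lit 3242) (nat_lit 565) (nat_lit 1079) (nat_lit 1) .nil)), (nat_lit 33), (nat_lit 49), (nat_lit 48),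
 (nat_lit 1), (9, 18, 13), [238, 2259], 35⟩,
  ⟨⟨17, -12, -9, -4, -5, -18, 14, 8, -13⟩, (.cons (nat_lit 67) (nat_lit 114) (nat_lit 350) (nat_lit 1) (.cons
 (nat_lit 3242) (nat_lit 565) (nat_lit 1079) (nat_lit 1) .nil)), (nat_lit 33), (nat_lit 49), (nat_lit 48),
 (nat_lit 1), (9, 18, 13), [238, 2259], 35⟩,
  ⟨⟨17, -12, -9, -4, -5, -18, 14, 8, -13⟩, (.cons (nat_lit 67) (nat_lit 114) (nat_lit 350) (nat_lit 1) (.cons
 (nat_lit 3242) (nat_lit 565) (nat_lit 1079) (nat_lit 1) .nil)), (nat_lit 33), (nat_lit 49), (nat_lit 48),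
 (nat_lit 1), (9, 18, 13), [238, 2259], 35⟩,
  ⟨⟨-3, 20, -4, -4, -5, -18, 14, 8, -13⟩, (.cons (nat_lit 100) (nat_lit 351) (nat_lit 181) (nat_lit 1) (.cons
 (nat_lit 786) (nat_lit 1910) (nat_lit 660) (nat_lit 1) .nil)), (nat_lit 13), (nat_lit 50), (nat_lit 32),
 (nat_lit 1), (4, 18, 13), [256, 1798], 49⟩,
  ⟨⟨-3, 20, -4, 4, 5, 18, 14, 8, -13⟩, (.cons (nat_lit 78) (nat_lit 138) (nat_lit 1) (nat_lit 285) (.cons
 (nat_lit 4382) (nat_lit 2372) (nat_lit 1854) (nat_lit 1) .nil)), (nat_lit 22), (nat_lit 38), (nat_lit 5),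
 (nat_lit 1), (4, 1, 13), [71, 1105], 41⟩,
  ⟨⟨17, -12, -9, 4, 5, 18, 14, 8, -13⟩, (.cons (nat_lit 273) (nat_lit 128) (nat_lit 294) (nat_lit 1) (.cons
 (nat_lit 1255) (nat_lit 4668) (nat_lit 4878) (nat_lit 1) .nil)), (nat_lit 49), (nat_lit 33), (nat_lit 31),
 (nat_lit 1), (9, 1, 13), [176, 2152], 9⟩,
  ⟨⟨17, -12, -9, 4, 5, 18, 14, 8, -13⟩, (.cons (nat_lit 273) (nat_lit 128) (nat_lit 294) (nat_lit 1) (.cons
 (nat_lit 1255) (nat_lit 4668) (nat_lit 4878) (nat_lit 1) .nil)), (nat_lit 49), (nat_lit 33), (nat_lit 31),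
 (nat_lit 1), (9, 1, 13), [176, 2152], 9⟩,
  ⟨⟨17, -12, -9, -4, -5, -18, 14, 8, -13⟩, (.cons (nat_lit 67) (nat_lit 114) (nat_lit 350) (nat_lit 1) (.cons
 (nat_lit 3242) (nat_lit 565) (nat_lit 1079) (nat_lit 1) .nil)), (nat_lit 33), (nat_lit 49), (nat_lit 48),
 (nat_lit 1), (9, 18, 13), [238, 2259], 35⟩,
  ⟨⟨-3, 20, -4, -4, -5, -18, 14, 8, -13⟩, (.cons (nat_lit 100) (nat_lit 351) (nat_lit 181) (nat_lit 1) (.cons
 (nat_lit 786) (nat_lit 1910) (nat_lit 660) (nat_lit 1) .nil)), (nat_lit 13), (nat_lit 50), (nat_lit 32),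
 (nat_lit 1), (4, 18, 13), [256, 1798], 49⟩]

/-- Moves. -/
noncomputable def t1_1 : List Mv := [
  mz,
  ⟨⟨-75, 20, 43, -10, -21, -70, -12, 60, -13⟩, (.cons (nat_lit 152) (nat_lit 138) (nat_lit 226) (nat_lit 1)
 (.cons (nat_lit 2183) (nat_lit 3088) (nat_lit 4696) (nat_lit 1) .nil)), (nat_lit 13), (nat_lit 5), (nat_lit
 22), (nat_lit 1), (51, 21, 11), [12, 1149], 50⟩,
  mz,
  ⟨⟨-75, -16, 23, 4, -55, 48, -10, -40, -49⟩, (.cons (nat_lit 321) (nat_lit 283) (nat_lit 111) (nat_lit 1)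
 (.cons (nat_lit 4556) (nat_lit 4347) (nat_lit 4666) (nat_lit 1) .nil)), (nat_lit 12), (nat_lit 16), (nat_lit
 28), (nat_lit 1), (1, 70, 38), [17, 3644], 4⟩,
  ⟨⟨27, 68, 16, -64, 15, 62, -6, 48, -43⟩, (.cons (nat_lit 269) (nat_lit 234) (nat_lit 355) (nat_lit 1) (.cons
 (nat_lit 2872) (nat_lit 2985) (nat_lit 1602) (nat_lit 1) .nil)), (nat_lit 35), (nat_lit 22), (nat_lit 23),
 (nat_lit 1), (60, 55, 34), [347, 230], 51⟩,
  ⟨⟨27, -68, 16, 64, 15, -62, -6, -48, -43⟩, (.cons (nat_lit 328) (nat_lit 284) (nat_lit 249) (nat_lit 1)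
 (.cons (nat_lit 3930) (nat_lit 94) (nat_lit 1419) (nat_lit 1) .nil)), (nat_lit 36), (nat_lit 17), (nat_lit
 42), (nat_lit 1), (7, 35, 30), [225, 3431], 14⟩,
  mz,
  ⟨⟨-29, 72, 20, 56, 25, -68, -38, 16, -35⟩, (.cons (nat_lit 84) (nat_lit 124) (nat_lit 1) (nat_lit 76) (.cons
 (nat_lit 4898) (nat_lit 188) (nat_lit 3186) (nat_lit 1) .nil)), (nat_lit 40), (nat_lit 12), (nat_lit 1),
 (nat_lit 1), (33, 44, 31), [69, 768], 27⟩,
  ⟨⟨3, 40, -76, 64, 25, -12, 26, -32, -67⟩, (.cons (nat_lit 190) (nat_lit 222) (nat_lit 159) (nat_lit 1) (.cons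
 (nat_lit 4214) (nat_lit 2664) (nat_lit 2164) (nat_lit 1) .nil)), (nat_lit 4), (nat_lit 5), (nat_lit 49),
 (nat_lit 1), (14, 62, 3), [37, 1181], 8⟩,
  mz,
  mz,
  ⟨⟨33, -20, -92, -64, -15, 2, 6, 48, -49⟩, (.cons (nat_lit 33) (nat_lit 17) (nat_lit 49) (nat_lit 1) (.cons
 (nat_lit 676) (nat_lit 4101) (nat_lit 1940) (nat_lit 1) .nil)), (nat_lit 25), (nat_lit 41), (nat_lit 48),
 (nat_lit 1), (67, 68, 38), [238, 4475], 6⟩,
  ⟨⟨9, 76, -20, 44, -15, -82, -42, 24, -25⟩, (.cons (nat_lit 214) (nat_lit 57) (nat_lit 340) (nat_lit 1) (.cons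
 (nat_lit 2203) (nat_lit 4103) (nat_lit 2733) (nat_lit 1) .nil)), (nat_lit 11), (nat_lit 46), (nat_lit 41),
 (nat_lit 1), (31, 49, 21), [184, 4929], 11⟩,
  mz,
  mz,
  ⟨⟨51, -52, -56, -44, -15, -38, 42, 24, -67⟩, (.cons (nat_lit 242) (nat_lit 324) (nat_lit 358) (nat_lit 1)
 (.cons (nat_lit 2153) (nat_lit 1733) (nat_lit 1524) (nat_lit 1) .nil)), (nat_lit 25), (nat_lit 35), (nat_lit
 32), (nat_lit 1), (24, 67, 49), [276, 2545], 6⟩,
  ⟨⟨17, 24, -89, -36, -55, -12, 54, -24, -53⟩, (.cons (nat_lit 359) (nat_lit 192) (nat_lit 1) (nat_lit 190)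
 (.cons (nat_lit 2888) (nat_lit 4686) (nat_lit 1661) (nat_lit 1) .nil)), (nat_lit 32), (nat_lit 25), (nat_lit
 24), (nat_lit 1), (7, 52, 64), [180, 2295], 48⟩,
  mz,
  ⟨⟨9, 56, -64, 56, 25, 12, 38, -16, -73⟩, (.cons (nat_lit 285) (nat_lit 315) (nat_lit 181) (nat_lit 1) (.cons
 (nat_lit 4338) (nat_lit 3929) (nat_lit 458) (nat_lit 1) .nil)), (nat_lit 4), (nat_lit 28), (nat_lit 22),
 (nat_lit 1), (56, 25, 55), [208, 4493], 8⟩,
  ⟨⟨39, 40, -80, -44, 55, 32, -22, -8, -55⟩, (.cons (nat_lit 175) (nat_lit 13) (nat_lit 225) (nat_lit 1) (.cons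
 (nat_lit 3096) (nat_lit 1564) (nat_lit 3237) (nat_lit 1) .nil)), (nat_lit 16), (nat_lit 35), (nat_lit 19),
 (nat_lit 1), (28, 3, 37), [310, 3449], 22⟩,
  mz,
  mz,
  ⟨⟨17, -24, 72, 36, -55, -48, 54, 24, -1⟩, (.cons (nat_lit 120) (nat_lit 31) (nat_lit 190) (nat_lit 1) (.cons
 (nat_lit 808) (nat_lit 4357) (nat_lit 825) (nat_lit 1) .nil)), (nat_lit 47), (nat_lit 8), (nat_lit 36),
 (nat_lit 1), (28, 5, 43), [65, 516], 8⟩,
  ⟨⟨39, -40, -80, 44, 55, -32, -22, 8, -55⟩, (.cons (nat_lit 328) (nat_lit 68) (nat_lit 205) (nat_lit 1) (.cons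
 (nat_lit 2564) (nat_lit 1734) (nat_lit 3102) (nat_lit 1) .nil)), (nat_lit 10), (nat_lit 21), (nat_lit 22),
 (nat_lit 1), (1, 43, 14), [55, 2598], 27⟩,
  ⟨⟨-39, 40, -41, 44, 55, -12, 22, -8, -77⟩, (.cons (nat_lit 327) (nat_lit 202) (nat_lit 208) (nat_lit 1)
 (.cons (nat_lit 2593) (nat_lit 4782) (nat_lit 1471) (nat_lit 1) .nil)), (nat_lit 15), (nat_lit 6), (nat_lit
 37), (nat_lit 1), (2, 56, 28), [281, 466], 37⟩,
  mz,
  ⟨⟨51, -4, 40, 10, -69, -20, 60, 12, -49⟩, (.cons (nat_lit 166) (nat_lit 61) (nat_lit 189) (nat_lit 1) (.cons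
 (nat_lit 4832) (nat_lit 4434) (nat_lit 3130) (nat_lit 1) .nil)), (nat_lit 17), (nat_lit 49), (nat_lit 29),
 (nat_lit 1), (60, 41, 33), [62, 4285], 9⟩,
  mz,
  mz,
  ⟨⟨-13, -72, 36, -70, 11, 30, -4, -44, -49⟩, (.cons (nat_lit 8) (nat_lit 260) (nat_lit 251) (nat_lit 1) (.cons
 (nat_lit 2555) (nat_lit 103) (nat_lit 3441) (nat_lit 1) .nil)), (nat_lit 45), (nat_lit 13), (nat_lit 7),
 (nat_lit 1), (29, 36, 69), [182, 1002], 20⟩,
  mz,
  ⟨⟨-11, 72, -25, -50, 11, 80, -44, 4, -29⟩, (.cons (nat_lit 317) (nat_lit 304) (nat_lit 205) (nat_lit 1)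
 (.cons (nat_lit 5028) (nat_lit 4980) (nat_lit 2710) (nat_lit 1) .nil)), (nat_lit 39), (nat_lit 12), (nat_lit
 19), (nat_lit 1), (44, 58, 34), [179, 1056], 10⟩,
  mz,
  ⟨⟨-29, -72, 20, 56, -25, -68, -38, -16, -35⟩, (.cons (nat_lit 218) (nat_lit 291) (nat_lit 327) (nat_lit 1)
 (.cons (nat_lit 1527) (nat_lit 1751) (nat_lit 4229) (nat_lit 1) .nil)), (nat_lit 8), (nat_lit 21), (nat_lit
 42), (nat_lit 1), (27, 36, 6), [77, 3264], 44⟩,
  ⟨⟨-63, 40, 7, 10, -21, -80, 12, 60, -25⟩, (.cons (nat_lit 24) (nat_lit 359) (nat_lit 16) (nat_lit 1) (.cons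
 (nat_lit 3531) (nat_lit 156) (nat_lit 4966) (nat_lit 1) .nil)), (nat_lit 31), (nat_lit 16), (nat_lit 28),
 (nat_lit 1), (60, 4, 19), [356, 4933], 33⟩,
  mz,
  ⟨⟨3, -40, -76, 64, -25, -12, 26, 32, -67⟩, (.cons (nat_lit 111) (nat_lit 198) (nat_lit 336) (nat_lit 1)
 (.cons (nat_lit 554) (nat_lit 3966) (nat_lit 2625) (nat_lit 1) .nil)), (nat_lit 24), (nat_lit 11), (nat_lit
 25), (nat_lit 1), (58, 54, 53), [225, 531], 13⟩,
  mz,
  ⟨⟨17, -24, -89, 36, -55, 12, 54, 24, -53⟩, (.cons (nat_lit 221) (nat_lit 129) (nat_lit 1) (nat_lit 323)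
 (.cons (nat_lit 2704) (nat_lit 2777) (nat_lit 491) (nat_lit 1) .nil)), (nat_lit 32), (nat_lit 44), (nat_lit
 4), (nat_lit 1), (5, 44, 66), [20, 4774], 48⟩,
  ⟨⟨-3, 40, -73, -64, 25, 52, -26, -32, -41⟩, (.cons (nat_lit 59) (nat_lit 86) (nat_lit 81) (nat_lit 1) (.cons
 (nat_lit 793) (nat_lit 2177) (nat_lit 4708) (nat_lit 1) .nil)), (nat_lit 4), (nat_lit 37), (nat_lit 10),
 (nat_lit 1), (12, 43, 33), [159, 170], 16⟩,
  mz,
  mz,
  ⟨⟨75, 16, -52, 4, -55, -52, 10, 40, -59⟩, (.cons (nat_lit 359) (nat_lit 136) (nat_lit 264) (nat_lit 1) (.cons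
 (nat_lit 4002) (nat_lit 1655) (nat_lit 398) (nat_lit 1) .nil)), (nat_lit 24), (nat_lit 14), (nat_lit 27),
 (nat_lit 1), (5, 5, 48), [56, 642], 41⟩,
  ⟨⟨11, -72, -36, 50, -11, 30, 44, -4, -73⟩, (.cons (nat_lit 133) (nat_lit 220) (nat_lit 207) (nat_lit 1)
 (.cons (nat_lit 1061) (nat_lit 4269) (nat_lit 1309) (nat_lit 1) .nil)), (nat_lit 24), (nat_lit 16), (nat_lit
 2), (nat_lit 1), (69, 49, 63), [167, 1632], 38⟩,
  ⟨⟨-39, -40, -41, 44, -55, -12, 22, 8, -77⟩, (.cons (nat_lit 225) (nat_lit 195) (nat_lit 238) (nat_lit 1)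
 (.cons (nat_lit 3645) (nat_lit 3408) (nat_lit 2591) (nat_lit 1) .nil)), (nat_lit 17), (nat_lit 12), (nat_lit
 2), (nat_lit 1), (46, 10, 5), [172, 4733], 20⟩,
  mz,
  ⟨⟨51, 52, -56, -44, 15, -38, 42, -24, -67⟩, (.cons (nat_lit 175) (nat_lit 118) (nat_lit 106) (nat_lit 1)
 (.cons (nat_lit 41) (nat_lit 2210) (nat_lit 3118) (nat_lit 1) .nil)), (nat_lit 28), (nat_lit 1), (nat_lit 43),
 (nat_lit 1), (52, 15, 47), [218, 4733], 5⟩,
  ⟨⟨9, -16, 80, 10, 69, 10, 60, -12, -11⟩, (.cons (nat_lit 242) (nat_lit 126) (nat_lit 215) (nat_lit 1) (.cons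
 (nat_lit 1300) (nat_lit 2298) (nat_lit 2964) (nat_lit 1) .nil)), (nat_lit 17), (nat_lit 9), (nat_lit 46),
 (nat_lit 1), (33, 13, 7), [128, 4622], 44⟩,
  ⟨⟨9, -16, -89, -10, -69, 20, 60, -12, -49⟩, (.cons (nat_lit 72) (nat_lit 87) (nat_lit 292) (nat_lit 1) (.cons
 (nat_lit 3729) (nat_lit 1199) (nat_lit 1664) (nat_lit 1) .nil)), (nat_lit 20), (nat_lit 11), (nat_lit 6),
 (nat_lit 1), (19, 42, 32), [70, 212], 33⟩,
  ⟨⟨9, -56, -64, -56, 25, -12, 38, 16, -73⟩, (.cons (nat_lit 316) (nat_lit 42) (nat_lit 176) (nat_lit 1) (.cons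
 (nat_lit 1617) (nat_lit 4009) (nat_lit 3515) (nat_lit 1) .nil)), (nat_lit 7), (nat_lit 38), (nat_lit 9),
 (nat_lit 1), (4, 54, 9), [116, 4618], 12⟩,
  ⟨⟨65, 24, -72, -4, -55, -48, -10, 40, -49⟩, (.cons (nat_lit 93) (nat_lit 233) (nat_lit 71) (nat_lit 1) (.cons
 (nat_lit 533) (nat_lit 4828) (nat_lit 4201) (nat_lit 1) .nil)), (nat_lit 24), (nat_lit 23), (nat_lit 51),
 (nat_lit 1), (39, 26, 65), [246, 3089], 41⟩,
  ⟨⟨9, -76, -20, -44, -15, 82, -42, -24, -25⟩, (.cons (nat_lit 186) (nat_lit 87) (nat_lit 272) (nat_lit 1)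
 (.cons (nat_lit 4677) (nat_lit 4904) (nat_lit 4995) (nat_lit 1) .nil)), (nat_lit 17), (nat_lit 45), (nat_lit
 32), (nat_lit 1), (1, 3, 19), [160, 3416], 38⟩,
  mz,
  ⟨⟨13, -72, 23, 70, 11, -40, 4, -44, -53⟩, (.cons (nat_lit 165) (nat_lit 333) (nat_lit 304) (nat_lit 1) (.cons
 (nat_lit 4841) (nat_lit 1750) (nat_lit 2908) (nat_lit 1) .nil)), (nat_lit 39), (nat_lit 26), (nat_lit 21),
 (nat_lit 1), (14, 59, 48), [160, 2831], 10⟩,
  ⟨⟨9, 16, 80, -10, 69, -10, 60, 12, -11⟩, (.cons (nat_lit 91) (nat_lit 86) (nat_lit 290) (nat_lit 1) (.cons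
 (nat_lit 4177) (nat_lit 2304) (nat_lit 3089) (nat_lit 1) .nil)), (nat_lit 25), (nat_lit 40), (nat_lit 16),
 (nat_lit 1), (58, 46, 8), [72, 28], 46⟩,
  ⟨⟨-63, -40, 7, 10, 21, -80, 12, -60, -25⟩, (.cons (nat_lit 41) (nat_lit 313) (nat_lit 125) (nat_lit 1) (.cons
 (nat_lit 31) (nat_lit 3328) (nat_lit 440) (nat_lit 1) .nil)), (nat_lit 41), (nat_lit 0), (nat_lit 31),
 (nat_lit 1), (33, 59, 14), [43, 2642], 49⟩,
  mz,
  ⟨⟨-11, -72, -25, 50, 11, -80, -44, -4, -29⟩, (.cons (nat_lit 198) (nat_lit 239) (nat_lit 338) (nat_lit 1)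
 (.cons (nat_lit 4149) (nat_lit 3936) (nat_lit 2726) (nat_lit 1) .nil)), (nat_lit 33), (nat_lit 4), (nat_lit
 14), (nat_lit 1), (38, 8, 10), [336, 3180], 43⟩,
  ⟨⟨-75, -20, 43, -10, 21, -70, -12, -60, -13⟩, (.cons (nat_lit 317) (nat_lit 54) (nat_lit 85) (nat_lit 1)
 (.cons (nat_lit 2500) (nat_lit 553) (nat_lit 252) (nat_lit 1) .nil)), (nat_lit 22), (nat_lit 0), (nat_lit 7),
 (nat_lit 1), (2, 5, 6), [218, 4292], 25⟩,
  mz,
  mz,
  mz,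
  ⟨⟨33, -68, -37, -50, -11, -30, 44, 4, -73⟩, (.cons (nat_lit 355) (nat_lit 278) (nat_lit 211) (nat_lit 1)
 (.cons (nat_lit 1677) (nat_lit 212) (nat_lit 1812) (nat_lit 1) .nil)), (nat_lit 1), (nat_lit 43), (nat_lit
 31), (nat_lit 1), (12, 27, 16), [74, 649], 33⟩,
  mz,
  ⟨⟨-13, 72, 36, 70, 11, -30, -4, 44, -49⟩, (.cons (nat_lit 352) (nat_lit 47) (nat_lit 81) (nat_lit 1) (.cons
 (nat_lit 370) (nat_lit 1435) (nat_lit 3217) (nat_lit 1) .nil)), (nat_lit 51), (nat_lit 41), (nat_lit 21),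
 (nat_lit 1), (35, 30, 49), [175, 1531], 48⟩,
  ⟨⟨75, -16, -52, 4, 55, -52, 10, -40, -59⟩, (.cons (nat_lit 360) (nat_lit 243) (nat_lit 237) (nat_lit 1)
 (.cons (nat_lit 321) (nat_lit 2803) (nat_lit 1402) (nat_lit 1) .nil)), (nat_lit 52), (nat_lit 16), (nat_lit
 20), (nat_lit 1), (51, 51, 21), [346, 2546], 1⟩,
  mz,
  ⟨⟨-27, -68, 43, -64, 15, 2, 6, -48, -49⟩, (.cons (nat_lit 290) (nat_lit 117) (nat_lit 1) (nat_lit 266) (.cons
 (nat_lit 2185) (nat_lit 4004) (nat_lit 1148) (nat_lit 1) .nil)), (nat_lit 12), (nat_lit 11), (nat_lit 38),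
 (nat_lit 1), (60, 16, 34), [205, 2985], 6⟩,
  ⟨⟨13, 72, 23, 70, -11, -40, 4, 44, -53⟩, (.cons (nat_lit 7) (nat_lit 325) (nat_lit 325) (nat_lit 1) (.cons
 (nat_lit 5039) (nat_lit 856) (nat_lit 4397) (nat_lit 1) .nil)), (nat_lit 10), (nat_lit 14), (nat_lit 13),
 (nat_lit 1), (20, 64, 28), [175, 1793], 31⟩,
  ⟨⟨-23, 72, 32, 64, 25, -52, -26, 32, -41⟩, (.cons (nat_lit 359) (nat_lit 269) (nat_lit 1) (nat_lit 152)
 (.cons (nat_lit 4155) (nat_lit 2570) (nat_lit 4905) (nat_lit 1) .nil)), (nat_lit 40), (nat_lit 46), (nat_lit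
 21), (nat_lit 1), (27, 36, 12), [110, 805], 27⟩,
  ⟨⟨17, 24, 72, 36, 55, -48, 54, -24, -1⟩, (.cons (nat_lit 360) (nat_lit 77) (nat_lit 21) (nat_lit 1) (.cons
 (nat_lit 2263) (nat_lit 3813) (nat_lit 3346) (nat_lit 1) .nil)), (nat_lit 52), (nat_lit 23), (nat_lit 48),
 (nat_lit 1), (30, 51, 41), [80, 2305], 15⟩]

/-- Moves. -/
noncomputable def t1_2 : List Mv := [
  mz,
  ⟨⟨63, 40, -56, 10, 21, 70, -12, 60, -13⟩, (.cons (nat_lit 360) (nat_lit 29) (nat_lit 19) (nat_lit 1) (.cons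
 (nat_lit 4580) (nat_lit 4789) (nat_lit 4651) (nat_lit 1) .nil)), (nat_lit 52), (nat_lit 12), (nat_lit 45),
 (nat_lit 1), (31, 50, 11), [204, 2962], 39⟩,
  mz,
  ⟨⟨65, -24, -72, 4, -55, 48, -10, -40, -49⟩, (.cons (nat_lit 66) (nat_lit 145) (nat_lit 7) (nat_lit 1) (.cons
 (nat_lit 3683) (nat_lit 732) (nat_lit 1532) (nat_lit 1) .nil)), (nat_lit 42), (nat_lit 41), (nat_lit 31),
 (nat_lit 1), (37, 70, 38), [128, 1361], 32⟩,
  ⟨⟨-33, -20, -59, 64, -15, -62, -6, 48, -43⟩, (.cons (nat_lit 311) (nat_lit 173) (nat_lit 10) (nat_lit 1)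
 (.cons (nat_lit 1893) (nat_lit 4515) (nat_lit 1336) (nat_lit 1) .nil)), (nat_lit 29), (nat_lit 22), (nat_lit
 4), (nat_lit 1), (45, 16, 34), [30, 1111], 2⟩,
  ⟨⟨27, -68, 16, -64, -15, 62, -6, -48, -43⟩, (.cons (nat_lit 91) (nat_lit 118) (nat_lit 273) (nat_lit 1)
 (.cons (nat_lit 3952) (nat_lit 3498) (nat_lit 4017) (nat_lit 1) .nil)), (nat_lit 17), (nat_lit 41), (nat_lit
 39), (nat_lit 1), (7, 36, 30), [65, 1753], 38⟩,
  mz,
  ⟨⟨-9, -56, -55, 56, 25, -68, -38, 16, -35⟩, (.cons (nat_lit 257) (nat_lit 280) (nat_lit 121) (nat_lit 1)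
 (.cons (nat_lit 4702) (nat_lit 4382) (nat_lit 3443) (nat_lit 1) .nil)), (nat_lit 40), (nat_lit 4), (nat_lit
 24), (nat_lit 1), (69, 44, 31), [301, 4893], 1⟩,
  ⟨⟨23, -72, 9, -64, -25, 12, 26, -32, -67⟩, (.cons (nat_lit 157) (nat_lit 321) (nat_lit 266) (nat_lit 1)
 (.cons (nat_lit 2217) (nat_lit 2924) (nat_lit 2549) (nat_lit 1) .nil)), (nat_lit 5), (nat_lit 12), (nat_lit
 22), (nat_lit 1), (60, 9, 3), [184, 4580], 2⟩,
  mz,
  mz,
  ⟨⟨33, -20, -92, 64, 15, -2, 6, 48, -49⟩, (.cons (nat_lit 346) (nat_lit 1) (nat_lit 253) (nat_lit 1) (.cons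
 (nat_lit 3059) (nat_lit 1467) (nat_lit 959) (nat_lit 1) .nil)), (nat_lit 28), (nat_lit 17), (nat_lit 15),
 (nat_lit 1), (67, 3, 38), [256, 2396], 5⟩,
  ⟨⟨9, 76, -20, 44, -15, -82, -42, 24, -25⟩, (.cons (nat_lit 214) (nat_lit 57) (nat_lit 340) (nat_lit 1) (.cons
 (nat_lit 2203) (nat_lit 4103) (nat_lit 2733) (nat_lit 1) .nil)), (nat_lit 11), (nat_lit 46), (nat_lit 41),
 (nat_lit 1), (31, 49, 21), [184, 4929], 11⟩,
  mz,
  mz,
  ⟨⟨51, -52, -56, 44, 15, 38, 42, 24, -67⟩, (.cons (nat_lit 51) (nat_lit 340) (nat_lit 306) (nat_lit 1) (.cons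
 (nat_lit 3815) (nat_lit 135) (nat_lit 865) (nat_lit 1) .nil)), (nat_lit 50), (nat_lit 13), (nat_lit 16),
 (nat_lit 1), (24, 4, 49), [47, 2058], 35⟩,
  ⟨⟨17, 24, -89, -36, -55, -12, 54, -24, -53⟩, (.cons (nat_lit 359) (nat_lit 192) (nat_lit 1) (nat_lit 190)
 (.cons (nat_lit 2888) (nat_lit 4686) (nat_lit 1661) (nat_lit 1) .nil)), (nat_lit 32), (nat_lit 25), (nat_lit
 24), (nat_lit 1), (7, 52, 64), [180, 2295], 48⟩,
  mz,
  ⟨⟨29, -72, -9, 56, 25, 12, 38, -16, -73⟩, (.cons (nat_lit 287) (nat_lit 206) (nat_lit 186) (nat_lit 1) (.cons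
 (nat_lit 3081) (nat_lit 1581) (nat_lit 2825) (nat_lit 1) .nil)), (nat_lit 4), (nat_lit 36), (nat_lit 25),
 (nat_lit 1), (70, 25, 55), [140, 1959], 16⟩,
  ⟨⟨-61, -48, 25, 44, -55, -32, -22, -8, -55⟩, (.cons (nat_lit 291) (nat_lit 150) (nat_lit 50) (nat_lit 1)
 (.cons (nat_lit 2149) (nat_lit 4607) (nat_lit 2684) (nat_lit 1) .nil)), (nat_lit 25), (nat_lit 32), (nat_lit
 5), (nat_lit 1), (9, 68, 37), [302, 2507], 45⟩,
  mz,
  mz,
  ⟨⟨37, 48, -73, 36, -55, -48, 54, 24, -1⟩, (.cons (nat_lit 167) (nat_lit 112) (nat_lit 301) (nat_lit 1) (.cons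
 (nat_lit 1931) (nat_lit 544) (nat_lit 1028) (nat_lit 1) .nil)), (nat_lit 31), (nat_lit 27), (nat_lit 34),
 (nat_lit 1), (15, 5, 43), [178, 2791], 13⟩,
  ⟨⟨39, -40, -80, -44, -55, 32, -22, 8, -55⟩, (.cons (nat_lit 360) (nat_lit 243) (nat_lit 334) (nat_lit 1)
 (.cons (nat_lit 1539) (nat_lit 3630) (nat_lit 70) (nat_lit 1) .nil)), (nat_lit 52), (nat_lit 9), (nat_lit 44),
 (nat_lit 1), (1, 28, 14), [70, 4530], 9⟩,
  ⟨⟨-39, 40, -41, 44, 55, -12, 22, -8, -77⟩, (.cons (nat_lit 327) (nat_lit 202) (nat_lit 208) (nat_lit 1)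
 (.cons (nat_lit 2593) (nat_lit 4782) (nat_lit 1471) (nat_lit 1) .nil)), (nat_lit 15), (nat_lit 6), (nat_lit
 37), (nat_lit 1), (2, 56, 28), [281, 466], 37⟩,
  mz,
  ⟨⟨9, 16, -89, -10, 69, 20, 60, 12, -49⟩, (.cons (nat_lit 149) (nat_lit 22) (nat_lit 298) (nat_lit 1) (.cons
 (nat_lit 2837) (nat_lit 4579) (nat_lit 1500) (nat_lit 1) .nil)), (nat_lit 42), (nat_lit 38), (nat_lit 9),
 (nat_lit 1), (44, 30, 33), [324, 179], 6⟩,
  mz,
  mz,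
  ⟨⟨-13, -72, 36, 70, -11, -30, -4, -44, -49⟩, (.cons (nat_lit 291) (nat_lit 202) (nat_lit 88) (nat_lit 1)
 (.cons (nat_lit 1837) (nat_lit 1195) (nat_lit 1) (nat_lit 3195) .nil)), (nat_lit 51), (nat_lit 35), (nat_lit
 13), (nat_lit 1), (29, 35, 69), [317, 4745], 11⟩,
  mz,
  ⟨⟨-11, 72, -25, 50, -11, -80, -44, 4, -29⟩, (.cons (nat_lit 140) (nat_lit 33) (nat_lit 136) (nat_lit 1)
 (.cons (nat_lit 1101) (nat_lit 3638) (nat_lit 3681) (nat_lit 1) .nil)), (nat_lit 10), (nat_lit 15), (nat_lit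
 51), (nat_lit 1), (44, 13, 34), [308, 3560], 31⟩,
  mz,
  ⟨⟨-29, -72, 20, 56, -25, -68, -38, -16, -35⟩, (.cons (nat_lit 218) (nat_lit 291) (nat_lit 327) (nat_lit 1)
 (.cons (nat_lit 1527) (nat_lit 1751) (nat_lit 4229) (nat_lit 1) .nil)), (nat_lit 8), (nat_lit 21), (nat_lit
 42), (nat_lit 1), (27, 36, 6), [77, 3264], 44⟩,
  ⟨⟨75, 20, -32, -10, 21, 80, 12, 60, -25⟩, (.cons (nat_lit 360) (nat_lit 108) (nat_lit 311) (nat_lit 1) (.cons
 (nat_lit 4579) (nat_lit 1145) (nat_lit 2509) (nat_lit 1) .nil)), (nat_lit 52), (nat_lit 17), (nat_lit 45),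
 (nat_lit 1), (30, 67, 19), [53, 4938], 8⟩,
  mz,
  ⟨⟨23, 72, 9, 64, -25, -12, 26, 32, -67⟩, (.cons (nat_lit 71) (nat_lit 224) (nat_lit 186) (nat_lit 1) (.cons
 (nat_lit 3306) (nat_lit 1145) (nat_lit 2722) (nat_lit 1) .nil)), (nat_lit 25), (nat_lit 47), (nat_lit 47),
 (nat_lit 1), (66, 54, 53), [238, 1954], 14⟩,
  mz,
  ⟨⟨17, -24, -89, -36, 55, -12, 54, 24, -53⟩, (.cons (nat_lit 147) (nat_lit 142) (nat_lit 156) (nat_lit 1)
 (.cons (nat_lit 4185) (nat_lit 5006) (nat_lit 4447) (nat_lit 1) .nil)), (nat_lit 12), (nat_lit 47), (nat_lit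
 16), (nat_lit 1), (5, 27, 66), [53, 3559], 36⟩,
  ⟨⟨-23, -72, 32, 64, -25, -52, -26, -32, -41⟩, (.cons (nat_lit 234) (nat_lit 290) (nat_lit 213) (nat_lit 1)
 (.cons (nat_lit 4464) (nat_lit 2391) (nat_lit 1952) (nat_lit 1) .nil)), (nat_lit 42), (nat_lit 36), (nat_lit
 13), (nat_lit 1), (21, 28, 33), [234, 4884], 36⟩,
  mz,
  mz,
  ⟨⟨-65, 24, -7, 4, -55, -52, 10, 40, -59⟩, (.cons (nat_lit 9) (nat_lit 341) (nat_lit 84) (nat_lit 1) (.cons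
 (nat_lit 456) (nat_lit 2998) (nat_lit 4341) (nat_lit 1) .nil)), (nat_lit 31), (nat_lit 34), (nat_lit 33),
 (nat_lit 1), (43, 5, 48), [294, 3041], 28⟩,
  ⟨⟨11, -72, -36, -50, 11, -30, 44, -4, -73⟩, (.cons (nat_lit 316) (nat_lit 148) (nat_lit 104) (nat_lit 1)
 (.cons (nat_lit 4386) (nat_lit 3651) (nat_lit 2553) (nat_lit 1) .nil)), (nat_lit 33), (nat_lit 48), (nat_lit
 34), (nat_lit 1), (69, 22, 63), [330, 4192], 50⟩,
  ⟨⟨-39, -40, -41, 44, -55, -12, 22, 8, -77⟩, (.cons (nat_lit 225) (nat_lit 195) (nat_lit 238) (nat_lit 1)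
 (.cons (nat_lit 3645) (nat_lit 3408) (nat_lit 2591) (nat_lit 1) .nil)), (nat_lit 17), (nat_lit 12), (nat_lit
 2), (nat_lit 1), (46, 10, 5), [172, 4733], 20⟩,
  mz,
  ⟨⟨51, 52, -56, -44, 15, -38, 42, -24, -67⟩, (.cons (nat_lit 175) (nat_lit 118) (nat_lit 106) (nat_lit 1)
 (.cons (nat_lit 41) (nat_lit 2210) (nat_lit 3118) (nat_lit 1) .nil)), (nat_lit 28), (nat_lit 1), (nat_lit 43),
 (nat_lit 1), (52, 15, 47), [218, 4733], 5⟩,
  ⟨⟨51, 4, -91, -10, -69, -10, 60, -12, -11⟩, (.cons (nat_lit 63) (nat_lit 58) (nat_lit 359) (nat_lit 1) (.cons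
 (nat_lit 3359) (nat_lit 3320) (nat_lit 3742) (nat_lit 1) .nil)), (nat_lit 24), (nat_lit 42), (nat_lit 49),
 (nat_lit 1), (45, 58, 7), [287, 4098], 42⟩,
  ⟨⟨51, 4, 40, 10, 69, -20, 60, -12, -49⟩, (.cons (nat_lit 360) (nat_lit 331) (nat_lit 143) (nat_lit 1) (.cons
 (nat_lit 3825) (nat_lit 712) (nat_lit 4282) (nat_lit 1) .nil)), (nat_lit 52), (nat_lit 44), (nat_lit 50),
 (nat_lit 1), (13, 29, 32), [165, 195], 27⟩,
  ⟨⟨29, 72, -9, 56, -25, 12, 38, 16, -73⟩, (.cons (nat_lit 300) (nat_lit 307) (nat_lit 155) (nat_lit 1) (.cons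
 (nat_lit 4249) (nat_lit 3528) (nat_lit 688) (nat_lit 1) .nil)), (nat_lit 17), (nat_lit 49), (nat_lit 49),
 (nat_lit 1), (5, 17, 9), [65, 1706], 18⟩,
  ⟨⟨65, 24, -72, -4, -55, -48, -10, 40, -49⟩, (.cons (nat_lit 93) (nat_lit 233) (nat_lit 71) (nat_lit 1) (.cons
 (nat_lit 533) (nat_lit 4828) (nat_lit 4201) (nat_lit 1) .nil)), (nat_lit 24), (nat_lit 23), (nat_lit 51),
 (nat_lit 1), (39, 26, 65), [246, 3089], 41⟩,
  ⟨⟨9, -76, -20, 44, 15, -82, -42, -24, -25⟩, (.cons (nat_lit 3) (nat_lit 186) (nat_lit 180) (nat_lit 1) (.cons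
 (nat_lit 4198) (nat_lit 2702) (nat_lit 3885) (nat_lit 1) .nil)), (nat_lit 35), (nat_lit 51), (nat_lit 12),
 (nat_lit 1), (1, 68, 19), [43, 2751], 51⟩,
  mz,
  ⟨⟨13, -72, 23, -70, -11, 40, 4, -44, -53⟩, (.cons (nat_lit 60) (nat_lit 287) (nat_lit 336) (nat_lit 1) (.cons
 (nat_lit 3059) (nat_lit 1222) (nat_lit 94) (nat_lit 1) .nil)), (nat_lit 1), (nat_lit 10), (nat_lit 22),
 (nat_lit 1), (14, 12, 48), [343, 4134], 33⟩,
  ⟨⟨9, 16, 80, -10, 69, -10, 60, 12, -11⟩, (.cons (nat_lit 91) (nat_lit 86) (nat_lit 290) (nat_lit 1) (.cons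
 (nat_lit 4177) (nat_lit 2304) (nat_lit 3089) (nat_lit 1) .nil)), (nat_lit 25), (nat_lit 40), (nat_lit 16),
 (nat_lit 1), (58, 46, 8), [72, 28], 46⟩,
  ⟨⟨75, -20, -32, 10, 21, -80, 12, -60, -25⟩, (.cons (nat_lit 360) (nat_lit 76) (nat_lit 167) (nat_lit 1)
 (.cons (nat_lit 2260) (nat_lit 1735) (nat_lit 409) (nat_lit 1) .nil)), (nat_lit 52), (nat_lit 3), (nat_lit
 21), (nat_lit 1), (52, 59, 14), [147, 1615], 39⟩,
  mz,
  ⟨⟨-11, -72, -25, 50, 11, -80, -44, -4, -29⟩, (.cons (nat_lit 198) (nat_lit 239) (nat_lit 338) (nat_lit 1)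
 (.cons (nat_lit 4149) (nat_lit 3936) (nat_lit 2726) (nat_lit 1) .nil)), (nat_lit 33), (nat_lit 4), (nat_lit
 14), (nat_lit 1), (38, 8, 10), [336, 3180], 43⟩,
  ⟨⟨-75, -20, 43, -10, 21, -70, -12, -60, -13⟩, (.cons (nat_lit 317) (nat_lit 54) (nat_lit 85) (nat_lit 1)
 (.cons (nat_lit 2500) (nat_lit 553) (nat_lit 252) (nat_lit 1) .nil)), (nat_lit 22), (nat_lit 0), (nat_lit 7),
 (nat_lit 1), (2, 5, 6), [218, 4292], 25⟩,
  mz,
  mz,
  mz,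
  ⟨⟨11, 72, -36, -50, -11, -30, 44, 4, -73⟩, (.cons (nat_lit 263) (nat_lit 302) (nat_lit 321) (nat_lit 1)
 (.cons (nat_lit 3262) (nat_lit 109) (nat_lit 4632) (nat_lit 1) .nil)), (nat_lit 26), (nat_lit 44), (nat_lit
 33), (nat_lit 1), (4, 27, 16), [155, 2567], 16⟩,
  mz,
  ⟨⟨9, -28, -85, 70, 11, -30, -4, 44, -49⟩, (.cons (nat_lit 41) (nat_lit 171) (nat_lit 259) (nat_lit 1) (.cons
 (nat_lit 1898) (nat_lit 1290) (nat_lit 4564) (nat_lit 1) .nil)), (nat_lit 34), (nat_lit 16), (nat_lit 43),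
 (nat_lit 1), (14, 30, 49), [186, 2815], 6⟩,
  ⟨⟨75, -16, -52, 4, 55, -52, 10, -40, -59⟩, (.cons (nat_lit 360) (nat_lit 243) (nat_lit 237) (nat_lit 1)
 (.cons (nat_lit 321) (nat_lit 2803) (nat_lit 1402) (nat_lit 1) .nil)), (nat_lit 52), (nat_lit 16), (nat_lit
 20), (nat_lit 1), (51, 51, 21), [346, 2546], 1⟩,
  mz,
  ⟨⟨-27, -68, 43, 64, -15, -2, 6, -48, -49⟩, (.cons (nat_lit 315) (nat_lit 9) (nat_lit 157) (nat_lit 1) (.cons
 (nat_lit 4695) (nat_lit 3393) (nat_lit 4644) (nat_lit 1) .nil)), (nat_lit 11), (nat_lit 43), (nat_lit 27),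
 (nat_lit 1), (60, 55, 34), [343, 4313], 30⟩,
  ⟨⟨13, 72, 23, 70, -11, -40, 4, 44, -53⟩, (.cons (nat_lit 7) (nat_lit 325) (nat_lit 325) (nat_lit 1) (.cons
 (nat_lit 5039) (nat_lit 856) (nat_lit 4397) (nat_lit 1) .nil)), (nat_lit 10), (nat_lit 14), (nat_lit 13),
 (nat_lit 1), (20, 64, 28), [175, 1793], 31⟩,
  ⟨⟨-23, 72, 32, 64, 25, -52, -26, 32, -41⟩, (.cons (nat_lit 359) (nat_lit 269) (nat_lit 1) (nat_lit 152)
 (.cons (nat_lit 4155) (nat_lit 2570) (nat_lit 4905) (nat_lit 1) .nil)), (nat_lit 40), (nat_lit 46), (nat_lit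
 21), (nat_lit 1), (27, 36, 12), [110, 805], 27⟩,
  ⟨⟨37, -48, -73, 36, 55, -48, 54, -24, -1⟩, (.cons (nat_lit 57) (nat_lit 184) (nat_lit 49) (nat_lit 1) (.cons
 (nat_lit 3354) (nat_lit 2953) (nat_lit 944) (nat_lit 1) .nil)), (nat_lit 5), (nat_lit 45), (nat_lit 33),
 (nat_lit 1), (11, 51, 41), [354, 3395], 19⟩]

/-- Moves. -/
noncomputable def t1_8 : List Mv := [
  mz,
  ⟨⟨63, 40, -56, 10, 21, 70, -12, 60, -13⟩, (.cons (nat_lit 360) (nat_lit 29) (nat_lit 19) (nat_lit 1) (.cons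
 (nat_lit 4580) (nat_lit 4789) (nat_lit 4651) (nat_lit 1) .nil)), (nat_lit 52), (nat_lit 12), (nat_lit 45),
 (nat_lit 1), (31, 50, 11), [204, 2962], 39⟩,
  mz,
  ⟨⟨65, -24, -72, -4, 55, -48, -10, -40, -49⟩, (.cons (nat_lit 360) (nat_lit 336) (nat_lit 39) (nat_lit 1)
 (.cons (nat_lit 1440) (nat_lit 3833) (nat_lit 2184) (nat_lit 1) .nil)), (nat_lit 52), (nat_lit 17), (nat_lit
 14), (nat_lit 1), (37, 1, 38), [158, 1772], 9⟩,
  ⟨⟨27, 68, 16, 64, -15, -62, -6, 48, -43⟩, (.cons (nat_lit 233) (nat_lit 252) (nat_lit 95) (nat_lit 1) (.cons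
 (nat_lit 4658) (nat_lit 1186) (nat_lit 3642) (nat_lit 1) .nil)), (nat_lit 11), (nat_lit 31), (nat_lit 1),
 (nat_lit 1), (60, 16, 34), [146, 342], 11⟩,
  ⟨⟨27, -68, 16, 64, 15, -62, -6, -48, -43⟩, (.cons (nat_lit 328) (nat_lit 284) (nat_lit 249) (nat_lit 1)
 (.cons (nat_lit 3930) (nat_lit 94) (nat_lit 1419) (nat_lit 1) .nil)), (nat_lit 36), (nat_lit 17), (nat_lit
 42), (nat_lit 1), (7, 35, 30), [225, 3431], 14⟩,
  mz,
  ⟨⟨-29, 72, 20, 56, 25, -68, -38, 16, -35⟩, (.cons (nat_lit 84) (nat_lit 124) (nat_lit 1) (nat_lit 76) (.cons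
 (nat_lit 4898) (nat_lit 188) (nat_lit 3186) (nat_lit 1) .nil)), (nat_lit 40), (nat_lit 12), (nat_lit 1),
 (nat_lit 1), (33, 44, 31), [69, 768], 27⟩,
  ⟨⟨3, 40, -76, 64, 25, -12, 26, -32, -67⟩, (.cons (nat_lit 190) (nat_lit 222) (nat_lit 159) (nat_lit 1) (.cons
 (nat_lit 4214) (nat_lit 2664) (nat_lit 2164) (nat_lit 1) .nil)), (nat_lit 4), (nat_lit 5), (nat_lit 49),
 (nat_lit 1), (14, 62, 3), [37, 1181], 8⟩,
  mz,
  mz,
  ⟨⟨33, -20, -92, 64, 15, -2, 6, 48, -49⟩, (.cons (nat_lit 346) (nat_lit 1) (nat_lit 253) (nat_lit 1) (.cons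
 (nat_lit 3059) (nat_lit 1467) (nat_lit 959) (nat_lit 1) .nil)), (nat_lit 28), (nat_lit 17), (nat_lit 15),
 (nat_lit 1), (67, 3, 38), [256, 2396], 5⟩,
  ⟨⟨9, 76, -20, -44, 15, 82, -42, 24, -25⟩, (.cons (nat_lit 24) (nat_lit 337) (nat_lit 65) (nat_lit 1) (.cons
 (nat_lit 381) (nat_lit 2442) (nat_lit 1190) (nat_lit 1) .nil)), (nat_lit 36), (nat_lit 24), (nat_lit 43),
 (nat_lit 1), (31, 22, 21), [168, 1983], 14⟩,
  mz,
  mz,
  ⟨⟨-9, 76, -11, -44, -15, -38, 42, 24, -67⟩, (.cons (nat_lit 102) (nat_lit 165) (nat_lit 231) (nat_lit 1)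
 (.cons (nat_lit 2322) (nat_lit 2751) (nat_lit 2508) (nat_lit 1) .nil)), (nat_lit 29), (nat_lit 25), (nat_lit
 12), (nat_lit 1), (25, 67, 49), [87, 1098], 2⟩,
  ⟨⟨17, 24, -89, -36, -55, -12, 54, -24, -53⟩, (.cons (nat_lit 359) (nat_lit 192) (nat_lit 1) (nat_lit 190)
 (.cons (nat_lit 2888) (nat_lit 4686) (nat_lit 1661) (nat_lit 1) .nil)), (nat_lit 32), (nat_lit 25), (nat_lit
 24), (nat_lit 1), (7, 52, 64), [180, 2295], 48⟩,
  mz,
  ⟨⟨29, -72, -9, -56, -25, -12, 38, -16, -73⟩, (.cons (nat_lit 23) (nat_lit 198) (nat_lit 19) (nat_lit 1)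
 (.cons (nat_lit 3647) (nat_lit 3360) (nat_lit 4210) (nat_lit 1) .nil)), (nat_lit 32), (nat_lit 40), (nat_lit
 38), (nat_lit 1), (70, 46, 55), [227, 3093], 34⟩,
  ⟨⟨-61, -48, 25, 44, -55, -32, -22, -8, -55⟩, (.cons (nat_lit 291) (nat_lit 150) (nat_lit 50) (nat_lit 1)
 (.cons (nat_lit 2149) (nat_lit 4607) (nat_lit 2684) (nat_lit 1) .nil)), (nat_lit 25), (nat_lit 32), (nat_lit
 5), (nat_lit 1), (9, 68, 37), [302, 2507], 45⟩,
  mz,
  mz,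
  ⟨⟨17, -24, 72, 36, -55, -48, 54, 24, -1⟩, (.cons (nat_lit 120) (nat_lit 31) (nat_lit 190) (nat_lit 1) (.cons
 (nat_lit 808) (nat_lit 4357) (nat_lit 825) (nat_lit 1) .nil)), (nat_lit 47), (nat_lit 8), (nat_lit 36),
 (nat_lit 1), (28, 5, 43), [65, 516], 8⟩,
  ⟨⟨39, -40, -80, -44, -55, 32, -22, 8, -55⟩, (.cons (nat_lit 360) (nat_lit 243) (nat_lit 334) (nat_lit 1)
 (.cons (nat_lit 1539) (nat_lit 3630) (nat_lit 70) (nat_lit 1) .nil)), (nat_lit 52), (nat_lit 9), (nat_lit 44),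
 (nat_lit 1), (1, 28, 14), [70, 4530], 9⟩,
  ⟨⟨-39, 40, -41, -44, -55, 12, 22, -8, -77⟩, (.cons (nat_lit 263) (nat_lit 260) (nat_lit 207) (nat_lit 1)
 (.cons (nat_lit 1966) (nat_lit 1628) (nat_lit 4285) (nat_lit 1) .nil)), (nat_lit 17), (nat_lit 39), (nat_lit
 21), (nat_lit 1), (2, 15, 28), [134, 2311], 20⟩,
  mz,
  ⟨⟨51, -4, 40, -10, 69, 20, 60, 12, -49⟩, (.cons (nat_lit 360) (nat_lit 37) (nat_lit 326) (nat_lit 1) (.cons
 (nat_lit 26) (nat_lit 2129) (nat_lit 1) (nat_lit 994) .nil)), (nat_lit 52), (nat_lit 33), (nat_lit 10),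
 (nat_lit 1), (60, 30, 33), [181, 1490], 22⟩,
  mz,
  mz,
  ⟨⟨9, 28, -85, -70, 11, 30, -4, -44, -49⟩, (.cons (nat_lit 31) (nat_lit 172) (nat_lit 352) (nat_lit 1) (.cons
 (nat_lit 25) (nat_lit 4970) (nat_lit 2397) (nat_lit 1) .nil)), (nat_lit 45), (nat_lit 32), (nat_lit 6),
 (nat_lit 1), (40, 36, 69), [162, 1182], 49⟩,
  mz,
  ⟨⟨-11, 72, -25, 50, -11, -80, -44, 4, -29⟩, (.cons (nat_lit 140) (nat_lit 33) (nat_lit 136) (nat_lit 1)
 (.cons (nat_lit 1101) (nat_lit 3638) (nat_lit 3681) (nat_lit 1) .nil)), (nat_lit 10), (nat_lit 15), (nat_lit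
 51), (nat_lit 1), (44, 13, 34), [308, 3560], 31⟩,
  mz,
  ⟨⟨-9, 56, -55, -56, 25, 68, -38, -16, -35⟩, (.cons (nat_lit 160) (nat_lit 154) (nat_lit 353) (nat_lit 1)
 (.cons (nat_lit 1281) (nat_lit 1539) (nat_lit 318) (nat_lit 1) .nil)), (nat_lit 14), (nat_lit 18), (nat_lit
 13), (nat_lit 1), (50, 35, 6), [82, 4185], 38⟩,
  ⟨⟨75, 20, -32, 10, -21, -80, 12, 60, -25⟩, (.cons (nat_lit 295) (nat_lit 316) (nat_lit 22) (nat_lit 1) (.cons
 (nat_lit 3179) (nat_lit 4361) (nat_lit 427) (nat_lit 1) .nil)), (nat_lit 0), (nat_lit 41), (nat_lit 13),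
 (nat_lit 1), (30, 4, 19), [263, 1161], 52⟩,
  mz,
  ⟨⟨23, 72, 9, -64, 25, 12, 26, 32, -67⟩, (.cons (nat_lit 200) (nat_lit 315) (nat_lit 344) (nat_lit 1) (.cons
 (nat_lit 1928) (nat_lit 4361) (nat_lit 4091) (nat_lit 1) .nil)), (nat_lit 40), (nat_lit 44), (nat_lit 7),
 (nat_lit 1), (66, 17, 53), [168, 3865], 1⟩,
  mz,
  ⟨⟨17, -24, -89, 36, -55, 12, 54, 24, -53⟩, (.cons (nat_lit 221) (nat_lit 129) (nat_lit 1) (nat_lit 323)
 (.cons (nat_lit 2704) (nat_lit 2777) (nat_lit 491) (nat_lit 1) .nil)), (nat_lit 32), (nat_lit 44), (nat_lit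
 4), (nat_lit 1), (5, 44, 66), [20, 4774], 48⟩,
  ⟨⟨-23, -72, 32, -64, 25, 52, -26, -32, -41⟩, (.cons (nat_lit 8) (nat_lit 25) (nat_lit 36) (nat_lit 1) (.cons
 (nat_lit 1508) (nat_lit 1801) (nat_lit 2694) (nat_lit 1) .nil)), (nat_lit 38), (nat_lit 40), (nat_lit 29),
 (nat_lit 1), (21, 43, 33), [204, 4097], 50⟩,
  mz,
  mz,
  ⟨⟨-65, 24, -7, -4, 55, 52, 10, 40, -59⟩, (.cons (nat_lit 125) (nat_lit 270) (nat_lit 297) (nat_lit 1) (.cons
 (nat_lit 4971) (nat_lit 535) (nat_lit 2015) (nat_lit 1) .nil)), (nat_lit 40), (nat_lit 27), (nat_lit 32),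
 (nat_lit 1), (43, 66, 48), [52, 679], 8⟩,
  ⟨⟨11, -72, -36, -50, 11, -30, 44, -4, -73⟩, (.cons (nat_lit 316) (nat_lit 148) (nat_lit 104) (nat_lit 1)
 (.cons (nat_lit 4386) (nat_lit 3651) (nat_lit 2553) (nat_lit 1) .nil)), (nat_lit 33), (nat_lit 48), (nat_lit
 34), (nat_lit 1), (69, 22, 63), [330, 4192], 50⟩,
  ⟨⟨-39, -40, -41, 44, -55, -12, 22, 8, -77⟩, (.cons (nat_lit 225) (nat_lit 195) (nat_lit 238) (nat_lit 1)
 (.cons (nat_lit 3645) (nat_lit 3408) (nat_lit 2591) (nat_lit 1) .nil)), (nat_lit 17), (nat_lit 12), (nat_lit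
 2), (nat_lit 1), (46, 10, 5), [172, 4733], 20⟩,
  mz,
  ⟨⟨-9, -76, -11, -44, 15, -38, 42, -24, -67⟩, (.cons (nat_lit 342) (nat_lit 83) (nat_lit 300) (nat_lit 1)
 (.cons (nat_lit 4528) (nat_lit 5031) (nat_lit 3554) (nat_lit 1) .nil)), (nat_lit 31), (nat_lit 30), (nat_lit
 41), (nat_lit 1), (66, 15, 47), [12, 4781], 42⟩,
  ⟨⟨51, 4, -91, 10, 69, 10, 60, -12, -11⟩, (.cons (nat_lit 356) (nat_lit 74) (nat_lit 16) (nat_lit 1) (.cons
 (nat_lit 2037) (nat_lit 4520) (nat_lit 3659) (nat_lit 1) .nil)), (nat_lit 8), (nat_lit 18), (nat_lit 5),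
 (nat_lit 1), (45, 13, 7), [55, 2878], 8⟩,
  ⟨⟨51, 4, 40, 10, 69, -20, 60, -12, -49⟩, (.cons (nat_lit 360) (nat_lit 331) (nat_lit 143) (nat_lit 1) (.cons
 (nat_lit 3825) (nat_lit 712) (nat_lit 4282) (nat_lit 1) .nil)), (nat_lit 52), (nat_lit 44), (nat_lit 50),
 (nat_lit 1), (13, 29, 32), [165, 195], 27⟩,
  ⟨⟨9, -56, -64, -56, 25, -12, 38, 16, -73⟩, (.cons (nat_lit 316) (nat_lit 42) (nat_lit 176) (nat_lit 1) (.cons
 (nat_lit 1617) (nat_lit 4009) (nat_lit 3515) (nat_lit 1) .nil)), (nat_lit 7), (nat_lit 38), (nat_lit 9),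
 (nat_lit 1), (4, 54, 9), [116, 4618], 12⟩,
  ⟨⟨-75, 16, 23, 4, 55, 48, -10, 40, -49⟩, (.cons (nat_lit 26) (nat_lit 200) (nat_lit 220) (nat_lit 1) (.cons
 (nat_lit 1533) (nat_lit 4938) (nat_lit 1) (nat_lit 3195) .nil)), (nat_lit 4), (nat_lit 51), (nat_lit 31),
 (nat_lit 1), (26, 45, 65), [135, 3227], 22⟩,
  ⟨⟨-51, 52, -5, -44, -15, 82, -42, -24, -25⟩, (.cons (nat_lit 296) (nat_lit 54) (nat_lit 289) (nat_lit 1)
 (.cons (nat_lit 4340) (nat_lit 422) (nat_lit 2221) (nat_lit 1) .nil)), (nat_lit 11), (nat_lit 23), (nat_lit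
 9), (nat_lit 1), (18, 3, 19), [39, 337], 30⟩,
  mz,
  ⟨⟨13, -72, 23, 70, 11, -40, 4, -44, -53⟩, (.cons (nat_lit 165) (nat_lit 333) (nat_lit 304) (nat_lit 1) (.cons
 (nat_lit 4841) (nat_lit 1750) (nat_lit 2908) (nat_lit 1) .nil)), (nat_lit 39), (nat_lit 26), (nat_lit 21),
 (nat_lit 1), (14, 59, 48), [160, 2831], 10⟩,
  ⟨⟨9, 16, 80, -10, 69, -10, 60, 12, -11⟩, (.cons (nat_lit 91) (nat_lit 86) (nat_lit 290) (nat_lit 1) (.cons
 (nat_lit 4177) (nat_lit 2304) (nat_lit 3089) (nat_lit 1) .nil)), (nat_lit 25), (nat_lit 40), (nat_lit 16),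
 (nat_lit 1), (58, 46, 8), [72, 28], 46⟩,
  ⟨⟨75, -20, -32, 10, 21, -80, 12, -60, -25⟩, (.cons (nat_lit 360) (nat_lit 76) (nat_lit 167) (nat_lit 1)
 (.cons (nat_lit 2260) (nat_lit 1735) (nat_lit 409) (nat_lit 1) .nil)), (nat_lit 52), (nat_lit 3), (nat_lit
 21), (nat_lit 1), (52, 59, 14), [147, 1615], 39⟩,
  mz,
  ⟨⟨-11, -72, -25, 50, 11, -80, -44, -4, -29⟩, (.cons (nat_lit 198) (nat_lit 239) (nat_lit 338) (nat_lit 1)
 (.cons (nat_lit 4149) (nat_lit 3936) (nat_lit 2726) (nat_lit 1) .nil)), (nat_lit 33), (nat_lit 4), (nat_lit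
 14), (nat_lit 1), (38, 8, 10), [336, 3180], 43⟩,
  ⟨⟨-75, -20, 43, 10, -21, 70, -12, -60, -13⟩, (.cons (nat_lit 346) (nat_lit 331) (nat_lit 240) (nat_lit 1)
 (.cons (nat_lit 3667) (nat_lit 170) (nat_lit 3188) (nat_lit 1) .nil)), (nat_lit 12), (nat_lit 20), (nat_lit
 35), (nat_lit 1), (2, 66, 6), [319, 3947], 35⟩,
  mz,
  mz,
  mz,
  ⟨⟨11, 72, -36, -50, -11, -30, 44, 4, -73⟩, (.cons (nat_lit 263) (nat_lit 302) (nat_lit 321) (nat_lit 1)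
 (.cons (nat_lit 3262) (nat_lit 109) (nat_lit 4632) (nat_lit 1) .nil)), (nat_lit 26), (nat_lit 44), (nat_lit
 33), (nat_lit 1), (4, 27, 16), [155, 2567], 16⟩,
  mz,
  ⟨⟨-13, 72, 36, -70, -11, 30, -4, 44, -49⟩, (.cons (nat_lit 143) (nat_lit 308) (nat_lit 1) (nat_lit 247)
 (.cons (nat_lit 3831) (nat_lit 2815) (nat_lit 170) (nat_lit 1) .nil)), (nat_lit 42), (nat_lit 17), (nat_lit
 22), (nat_lit 1), (35, 41, 49), [284, 865], 40⟩,
  ⟨⟨75, -16, -52, 4, 55, -52, 10, -40, -59⟩, (.cons (nat_lit 360) (nat_lit 243) (nat_lit 237) (nat_lit 1)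
 (.cons (nat_lit 321) (nat_lit 2803) (nat_lit 1402) (nat_lit 1) .nil)), (nat_lit 52), (nat_lit 16), (nat_lit
 20), (nat_lit 1), (51, 51, 21), [346, 2546], 1⟩,
  mz,
  ⟨⟨33, 20, -92, 64, -15, -2, 6, -48, -49⟩, (.cons (nat_lit 194) (nat_lit 133) (nat_lit 103) (nat_lit 1) (.cons
 (nat_lit 267) (nat_lit 40) (nat_lit 5010) (nat_lit 1) .nil)), (nat_lit 29), (nat_lit 44), (nat_lit 30),
 (nat_lit 1), (45, 55, 34), [322, 1507], 29⟩,
  ⟨⟨13, 72, 23, 70, -11, -40, 4, 44, -53⟩, (.cons (nat_lit 7) (nat_lit 325) (nat_lit 325) (nat_lit 1) (.cons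
 (nat_lit 5039) (nat_lit 856) (nat_lit 4397) (nat_lit 1) .nil)), (nat_lit 10), (nat_lit 14), (nat_lit 13),
 (nat_lit 1), (20, 64, 28), [175, 1793], 31⟩,
  ⟨⟨-3, -40, -73, 64, 25, -52, -26, 32, -41⟩, (.cons (nat_lit 88) (nat_lit 166) (nat_lit 343) (nat_lit 1)
 (.cons (nat_lit 3051) (nat_lit 2586) (nat_lit 1293) (nat_lit 1) .nil)), (nat_lit 19), (nat_lit 29), (nat_lit
 18), (nat_lit 1), (56, 36, 12), [9, 3505], 44⟩,
  ⟨⟨37, -48, -73, 36, 55, -48, 54, -24, -1⟩, (.cons (nat_lit 57) (nat_lit 184) (nat_lit 49) (nat_lit 1) (.cons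
 (nat_lit 3354) (nat_lit 2953) (nat_lit 944) (nat_lit 1) .nil)), (nat_lit 5), (nat_lit 45), (nat_lit 33),
 (nat_lit 1), (11, 51, 41), [354, 3395], 19⟩]

/-- Moves. -/
noncomputable def t4_1 : List Mv := [
  mz,
  mz,
  mz,
  mz,
  ⟨⟨-53, 0, 0, 10, -47, -30, -2, 20, -47⟩, (.cons (nat_lit 95) (nat_lit 215) (nat_lit 14) (nat_lit 1) (.cons
 (nat_lit 4527) (nat_lit 2123) (nat_lit 3653) (nat_lit 1) .nil)), (nat_lit 5), (nat_lit 0), (nat_lit 0),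
 (nat_lit 0), (0, 39, 24), [348, 886], 0⟩,
  ⟨⟨51, -20, -47, 10, 47, -30, -2, -20, -47⟩, (.cons (nat_lit 9) (nat_lit 323) (nat_lit 22) (nat_lit 1) (.cons
 (nat_lit 4465) (nat_lit 1185) (nat_lit 3043) (nat_lit 1) .nil)), (nat_lit 15), (nat_lit 0), (nat_lit 0),
 (nat_lit 0), (12, 46, 12), [340, 1505], 0⟩,
  ⟨⟨15, 56, -11, -28, 5, -36, 40, 8, -47⟩, (.cons (nat_lit 279) (nat_lit 228) (nat_lit 22) (nat_lit 1) (.cons
 (nat_lit 1709) (nat_lit 3407) (nat_lit 3260) (nat_lit 1) .nil)), (nat_lit 28), (nat_lit 0), (nat_lit 0),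
 (nat_lit 0), (1, 37, 38), [166, 3887], 0⟩,
  mz,
  mz,
  ⟨⟨-33, -20, -32, 8, 45, -34, 24, -24, -49⟩, (.cons (nat_lit 312) (nat_lit 139) (nat_lit 72) (nat_lit 1)
 (.cons (nat_lit 756) (nat_lit 1401) (nat_lit 2441) (nat_lit 1) .nil)), (nat_lit 18), (nat_lit 0), (nat_lit 0),
 (nat_lit 0), (35, 14, 42), [176, 2363], 0⟩,
  ⟨⟨-25, 48, -11, 28, -5, -64, -40, -8, -7⟩, (.cons (nat_lit 268) (nat_lit 88) (nat_lit 148) (nat_lit 1) (.cons
 (nat_lit 2723) (nat_lit 1140) (nat_lit 507) (nat_lit 1) .nil)), (nat_lit 36), (nat_lit 0), (nat_lit 0),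
 (nat_lit 0), (52, 52, 9), [85, 4388], 0⟩,
  ⟨⟨15, -32, 44, -50, -17, 30, 14, -44, -19⟩, (.cons (nat_lit 97) (nat_lit 164) (nat_lit 310) (nat_lit 1)
 (.cons (nat_lit 2481) (nat_lit 3130) (nat_lit 2693) (nat_lit 1) .nil)), (nat_lit 17), (nat_lit 0), (nat_lit
 0), (nat_lit 0), (29, 27, 20), [71, 2159], 0⟩,
  ⟨⟨53, 0, -53, 10, 47, 20, 2, 20, -49⟩, (.cons (nat_lit 150) (nat_lit 175) (nat_lit 285) (nat_lit 1) (.cons
 (nat_lit 3967) (nat_lit 4950) (nat_lit 2943) (nat_lit 1) .nil)), (nat_lit 4), (nat_lit 0), (nat_lit 0),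
 (nat_lit 0), (0, 28, 48), [125, 2838], 0⟩,
  mz,
  mz,
  ⟨⟨53, 0, -53, 10, -47, 20, 2, -20, -49⟩, (.cons (nat_lit 105) (nat_lit 223) (nat_lit 154) (nat_lit 1) (.cons
 (nat_lit 607) (nat_lit 3028) (nat_lit 2763) (nat_lit 1) .nil)), (nat_lit 4), (nat_lit 0), (nat_lit 0),
 (nat_lit 0), (0, 21, 36), [186, 1075], 0⟩,
  ⟨⟨15, 52, 16, 10, 17, -60, 46, 4, -11⟩, (.cons (nat_lit 154) (nat_lit 23) (nat_lit 37) (nat_lit 1) (.cons
 (nat_lit 4895) (nat_lit 3399) (nat_lit 4500) (nat_lit 1) .nil)), (nat_lit 44), (nat_lit 0), (nat_lit 0),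
 (nat_lit 0), (24, 16, 10), [119, 823], 0⟩,
  ⟨⟨31, -48, -4, 10, 17, 50, 46, 4, -35⟩, (.cons (nat_lit 193) (nat_lit 335) (nat_lit 318) (nat_lit 1) (.cons
 (nat_lit 4226) (nat_lit 2228) (nat_lit 1467) (nat_lit 1) .nil)), (nat_lit 43), (nat_lit 0), (nat_lit 0),
 (nat_lit 0), (18, 40, 25), [290, 3171], 0⟩,
  ⟨⟨-57, -4, 40, 8, -45, 26, -24, -24, -25⟩, (.cons (nat_lit 181) (nat_lit 227) (nat_lit 141) (nat_lit 1)
 (.cons (nat_lit 1331) (nat_lit 495) (nat_lit 204) (nat_lit 1) .nil)), (nat_lit 21), (nat_lit 0), (nat_lit 0),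
 (nat_lit 0), (12, 29, 19), [186, 3470], 0⟩,
  mz,
  mz,
  ⟨⟨-33, 20, -32, 8, -45, -34, 24, 24, -49⟩, (.cons (nat_lit 2) (nat_lit 268) (nat_lit 79) (nat_lit 1) (.cons
 (nat_lit 3901) (nat_lit 4749) (nat_lit 674) (nat_lit 1) .nil)), (nat_lit 18), (nat_lit 0), (nat_lit 0),
 (nat_lit 0), (47, 40, 14), [22, 3974], 0⟩,
  ⟨⟨45, 28, -49, 28, -45, -14, 0, 0, -53⟩, (.cons (nat_lit 342) (nat_lit 83) (nat_lit 1) (nat_lit 19) (.cons
 (nat_lit 5040) (nat_lit 4392) (nat_lit 1801) (nat_lit 1) .nil)), (nat_lit 22), (nat_lit 0), (nat_lit 0),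
 (nat_lit 0), (24, 22, 0), [294, 95], 0⟩,
  mz,
  ⟨⟨-13, 48, -27, 30, -17, -60, 30, 36, -7⟩, (.cons (nat_lit 351) (nat_lit 300) (nat_lit 127) (nat_lit 1)
 (.cons (nat_lit 3124) (nat_lit 1604) (nat_lit 4236) (nat_lit 1) .nil)), (nat_lit 29), (nat_lit 0), (nat_lit
 0), (nat_lit 0), (11, 48, 48), [35, 2737], 0⟩,
  mz,
  ⟨⟨-25, -48, -11, 28, 5, -64, -40, 8, -7⟩, (.cons (nat_lit 49) (nat_lit 134) (nat_lit 250) (nat_lit 1) (.cons
 (nat_lit 1464) (nat_lit 3490) (nat_lit 3948) (nat_lit 1) .nil)), (nat_lit 36), (nat_lit 0), (nat_lit 0),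
 (nat_lit 0), (2, 2, 35), [32, 159], 0⟩,
  mz,
  ⟨⟨-1, -48, 37, 52, 5, -16, 8, -40, -31⟩, (.cons (nat_lit 22) (nat_lit 38) (nat_lit 238) (nat_lit 1) (.cons
 (nat_lit 2755) (nat_lit 57) (nat_lit 1762) (nat_lit 1) .nil)), (nat_lit 6), (nat_lit 0), (nat_lit 0), (nat_lit
 0), (29, 29, 33), [202, 4921], 0⟩,
  ⟨⟨-13, 48, 40, -30, 17, -30, 30, 36, -23⟩, (.cons (nat_lit 278) (nat_lit 16) (nat_lit 331) (nat_lit 1) (.cons
 (nat_lit 4343) (nat_lit 319) (nat_lit 495) (nat_lit 1) .nil)), (nat_lit 52), (nat_lit 0), (nat_lit 0),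
 (nat_lit 0), (42, 48, 5), [258, 2612], 0⟩,
  mz,
  ⟨⟨-45, 28, -4, -28, -45, 14, 0, 0, -53⟩, (.cons (nat_lit 248) (nat_lit 214) (nat_lit 154) (nat_lit 1) (.cons
 (nat_lit 2060) (nat_lit 62) (nat_lit 1567) (nat_lit 1) .nil)), (nat_lit 22), (nat_lit 0), (nat_lit 0),
 (nat_lit 0), (14, 4, 0), [2, 4023], 0⟩,
  mz,
  ⟨⟨-39, 28, -17, 10, -33, -50, 18, 36, -37⟩, (.cons (nat_lit 26) (nat_lit 207) (nat_lit 244) (nat_lit 1)
 (.cons (nat_lit 2490) (nat_lit 3254) (nat_lit 1437) (nat_lit 1) .nil)), (nat_lit 50), (nat_lit 0), (nat_lit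
 0), (nat_lit 0), (43, 8, 25), [175, 1348], 0⟩,
  mz,
  mz,
  ⟨⟨-9, 8, -59, 52, -5, -36, -8, -40, -23⟩, (.cons (nat_lit 295) (nat_lit 32) (nat_lit 21) (nat_lit 1) (.cons
 (nat_lit 4456) (nat_lit 1488) (nat_lit 4217) (nat_lit 1) .nil)), (nat_lit 10), (nat_lit 0), (nat_lit 0),
 (nat_lit 0), (2, 12, 43), [235, 4687], 0⟩,
  ⟨⟨-1, 48, 37, 52, -5, -16, 8, 40, -31⟩, (.cons (nat_lit 192) (nat_lit 86) (nat_lit 208) (nat_lit 1) (.cons
 (nat_lit 4214) (nat_lit 2716) (nat_lit 1154) (nat_lit 1) .nil)), (nat_lit 6), (nat_lit 0), (nat_lit 0),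
 (nat_lit 0), (26, 26, 4), [351, 1619], 0⟩,
  ⟨⟨39, 28, -56, -10, -33, -40, -18, 36, -19⟩, (.cons (nat_lit 165) (nat_lit 108) (nat_lit 341) (nat_lit 1)
 (.cons (nat_lit 3329) (nat_lit 719) (nat_lit 936) (nat_lit 1) .nil)), (nat_lit 50), (nat_lit 0), (nat_lit 0),
 (nat_lit 0), (34, 47, 21), [124, 1966], 0⟩,
  ⟨⟨15, -56, -11, -28, -5, -36, 40, -8, -47⟩, (.cons (nat_lit 157) (nat_lit 291) (nat_lit 167) (nat_lit 1)
 (.cons (nat_lit 1264) (nat_lit 860) (nat_lit 1026) (nat_lit 1) .nil)), (nat_lit 28), (nat_lit 0), (nat_lit 0),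
 (nat_lit 0), (31, 34, 12), [112, 1736], 0⟩,
  ⟨⟨1, 48, 36, 52, 5, -36, -8, 40, -23⟩, (.cons (nat_lit 64) (nat_lit 252) (nat_lit 162) (nat_lit 1) (.cons
 (nat_lit 4747) (nat_lit 548) (nat_lit 89) (nat_lit 1) .nil)), (nat_lit 39), (nat_lit 0), (nat_lit 0), (nat_lit
 0), (38, 15, 14), [305, 658], 0⟩,
  ⟨⟨31, 48, -4, -10, 17, -50, 46, -4, -35⟩, (.cons (nat_lit 248) (nat_lit 329) (nat_lit 277) (nat_lit 1) (.cons
 (nat_lit 2494) (nat_lit 3125) (nat_lit 4740) (nat_lit 1) .nil)), (nat_lit 11), (nat_lit 0), (nat_lit 0),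
 (nat_lit 0), (15, 2, 12), [82, 1249], 0⟩,
  ⟨⟨-57, 4, 40, -8, -45, -26, -24, 24, -25⟩, (.cons (nat_lit 351) (nat_lit 297) (nat_lit 227) (nat_lit 1)
 (.cons (nat_lit 348) (nat_lit 2647) (nat_lit 1936) (nat_lit 1) .nil)), (nat_lit 9), (nat_lit 0), (nat_lit 0),
 (nat_lit 0), (25, 50, 44), [198, 1057], 0⟩,
  ⟨⟨15, 32, 44, -50, 17, 30, 14, 44, -19⟩, (.cons (nat_lit 260) (nat_lit 262) (nat_lit 350) (nat_lit 1) (.cons
 (nat_lit 2604) (nat_lit 479) (nat_lit 1010) (nat_lit 1) .nil)), (nat_lit 17), (nat_lit 0), (nat_lit 0),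
 (nat_lit 0), (27, 16, 4), [256, 439], 0⟩,
  ⟨⟨-15, 32, 59, 50, 17, -20, -14, 44, -5⟩, (.cons (nat_lit 339) (nat_lit 222) (nat_lit 261) (nat_lit 1) (.cons
 (nat_lit 1965) (nat_lit 4275) (nat_lit 2635) (nat_lit 1) .nil)), (nat_lit 17), (nat_lit 0), (nat_lit 0),
 (nat_lit 0), (6, 33, 48), [18, 3994], 0⟩,
  mz,
  ⟨⟨-13, -48, -27, -30, -17, 60, 30, -36, -7⟩, (.cons (nat_lit 198) (nat_lit 288) (nat_lit 299) (nat_lit 1)
 (.cons (nat_lit 3433) (nat_lit 1428) (nat_lit 4651) (nat_lit 1) .nil)), (nat_lit 52), (nat_lit 0), (nat_lit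
 0), (nat_lit 0), (14, 16, 37), [149, 2863], 0⟩,
  ⟨⟨-15, -32, 59, 50, -17, -20, -14, -44, -5⟩, (.cons (nat_lit 224) (nat_lit 175) (nat_lit 96) (nat_lit 1)
 (.cons (nat_lit 4092) (nat_lit 1139) (nat_lit 317) (nat_lit 1) .nil)), (nat_lit 17), (nat_lit 0), (nat_lit 0),
 (nat_lit 0), (8, 44, 11), [215, 590], 0⟩,
  ⟨⟨15, -52, 16, 10, -17, -60, 46, -4, -11⟩, (.cons (nat_lit 1) (nat_lit 56) (nat_lit 105) (nat_lit 1) (.cons
 (nat_lit 1570) (nat_lit 2105) (nat_lit 1384) (nat_lit 1) .nil)), (nat_lit 44), (nat_lit 0), (nat_lit 0),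
 (nat_lit 0), (14, 27, 50), [317, 2424], 0⟩,
  ⟨⟨-39, -28, -17, 10, 33, -50, 18, -36, -37⟩, (.cons (nat_lit 10) (nat_lit 291) (nat_lit 353) (nat_lit 1)
 (.cons (nat_lit 4844) (nat_lit 1261) (nat_lit 4175) (nat_lit 1) .nil)), (nat_lit 50), (nat_lit 0), (nat_lit
 0), (nat_lit 0), (5, 49, 14), [91, 1298], 0⟩,
  ⟨⟨39, -28, -56, -10, 33, -40, -18, -36, -19⟩, (.cons (nat_lit 360) (nat_lit 175) (nat_lit 181) (nat_lit 1)
 (.cons (nat_lit 5040) (nat_lit 1579) (nat_lit 4834) (nat_lit 1) .nil)), (nat_lit 50), (nat_lit 0), (nat_lit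
 0), (nat_lit 0), (49, 35, 10), [178, 2761], 0⟩,
  mz,
  ⟨⟨-13, -48, 40, 30, 17, 30, 30, -36, -23⟩, (.cons (nat_lit 274) (nat_lit 309) (nat_lit 278) (nat_lit 1)
 (.cons (nat_lit 4976) (nat_lit 571) (nat_lit 1929) (nat_lit 1) .nil)), (nat_lit 29), (nat_lit 0), (nat_lit 0),
 (nat_lit 0), (45, 47, 47), [153, 951], 0⟩]

/-- Moves. -/
noncomputable def t4_2 : List Mv := [
  mz,
  mz,
  mz,
  mz,
  ⟨⟨51, 20, -47, -10, 47, 30, -2, 20, -47⟩, (.cons (nat_lit 142) (nat_lit 59) (nat_lit 323) (nat_lit 1) (.cons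
 (nat_lit 3187) (nat_lit 2680) (nat_lit 1960) (nat_lit 1) .nil)), (nat_lit 12), (nat_lit 0), (nat_lit 0),
 (nat_lit 0), (24, 14, 24), [359, 1576], 0⟩,
  ⟨⟨51, -20, -47, 10, 47, -30, -2, -20, -47⟩, (.cons (nat_lit 9) (nat_lit 323) (nat_lit 22) (nat_lit 1) (.cons
 (nat_lit 4465) (nat_lit 1185) (nat_lit 3043) (nat_lit 1) .nil)), (nat_lit 15), (nat_lit 0), (nat_lit 0),
 (nat_lit 0), (12, 46, 12), [340, 1505], 0⟩,
  ⟨⟨15, 56, -11, -28, 5, -36, 40, 8, -47⟩, (.cons (nat_lit 279) (nat_lit 228) (nat_lit 22) (nat_lit 1) (.cons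
 (nat_lit 1709) (nat_lit 3407) (nat_lit 3260) (nat_lit 1) .nil)), (nat_lit 28), (nat_lit 0), (nat_lit 0),
 (nat_lit 0), (1, 37, 38), [166, 3887], 0⟩,
  mz,
  mz,
  ⟨⟨57, -4, -17, 8, 45, -34, 24, -24, -49⟩, (.cons (nat_lit 360) (nat_lit 29) (nat_lit 182) (nat_lit 1) (.cons
 (nat_lit 5040) (nat_lit 1386) (nat_lit 2382) (nat_lit 1) .nil)), (nat_lit 9), (nat_lit 0), (nat_lit 0),
 (nat_lit 0), (7, 14, 42), [12, 3899], 0⟩,
  ⟨⟨-25, 48, -11, 28, -5, -64, -40, -8, -7⟩, (.cons (nat_lit 268) (nat_lit 88) (nat_lit 148) (nat_lit 1) (.cons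
 (nat_lit 2723) (nat_lit 1140) (nat_lit 507) (nat_lit 1) .nil)), (nat_lit 36), (nat_lit 0), (nat_lit 0),
 (nat_lit 0), (52, 52, 9), [85, 4388], 0⟩,
  ⟨⟨15, -32, 44, 50, 17, -30, 14, -44, -19⟩, (.cons (nat_lit 115) (nat_lit 70) (nat_lit 274) (nat_lit 1) (.cons
 (nat_lit 1712) (nat_lit 3542) (nat_lit 1130) (nat_lit 1) .nil)), (nat_lit 41), (nat_lit 0), (nat_lit 0),
 (nat_lit 0), (29, 26, 20), [6, 61], 0⟩,
  ⟨⟨-51, 20, 4, -10, -47, -20, 2, 20, -49⟩, (.cons (nat_lit 57) (nat_lit 117) (nat_lit 85) (nat_lit 1) (.cons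
 (nat_lit 5024) (nat_lit 3352) (nat_lit 3554) (nat_lit 1) .nil)), (nat_lit 15), (nat_lit 0), (nat_lit 0),
 (nat_lit 0), (48, 25, 48), [253, 34], 0⟩,
  mz,
  mz,
  ⟨⟨-51, -20, 4, -10, 47, -20, 2, -20, -49⟩, (.cons (nat_lit 360) (nat_lit 161) (nat_lit 226) (nat_lit 1)
 (.cons (nat_lit 5040) (nat_lit 3207) (nat_lit 4071) (nat_lit 1) .nil)), (nat_lit 15), (nat_lit 0), (nat_lit
 0), (nat_lit 0), (36, 32, 36), [312, 871], 0⟩,
  ⟨⟨31, -48, -27, -10, -17, 60, 46, 4, -11⟩, (.cons (nat_lit 111) (nat_lit 231) (nat_lit 48) (nat_lit 1) (.cons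
 (nat_lit 119) (nat_lit 4246) (nat_lit 1097) (nat_lit 1) .nil)), (nat_lit 11), (nat_lit 0), (nat_lit 0),
 (nat_lit 0), (39, 37, 10), [210, 2609], 0⟩,
  ⟨⟨31, -48, -4, -10, -17, -50, 46, 4, -35⟩, (.cons (nat_lit 67) (nat_lit 203) (nat_lit 168) (nat_lit 1) (.cons
 (nat_lit 2680) (nat_lit 4865) (nat_lit 1472) (nat_lit 1) .nil)), (nat_lit 11), (nat_lit 0), (nat_lit 0),
 (nat_lit 0), (18, 13, 25), [317, 24], 0⟩,
  ⟨⟨-57, -4, 40, -8, 45, -26, -24, -24, -25⟩, (.cons (nat_lit 221) (nat_lit 327) (nat_lit 333) (nat_lit 1)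
 (.cons (nat_lit 3354) (nat_lit 4299) (nat_lit 4511) (nat_lit 1) .nil)), (nat_lit 9), (nat_lit 0), (nat_lit 0),
 (nat_lit 0), (12, 24, 19), [245, 3082], 0⟩,
  mz,
  mz,
  ⟨⟨-33, 20, -32, 8, -45, -34, 24, 24, -49⟩, (.cons (nat_lit 2) (nat_lit 268) (nat_lit 79) (nat_lit 1) (.cons
 (nat_lit 3901) (nat_lit 4749) (nat_lit 674) (nat_lit 1) .nil)), (nat_lit 18), (nat_lit 0), (nat_lit 0),
 (nat_lit 0), (47, 40, 14), [22, 3974], 0⟩,
  ⟨⟨-45, -28, -4, 28, -45, -14, 0, 0, -53⟩, (.cons (nat_lit 115) (nat_lit 299) (nat_lit 340) (nat_lit 1) (.cons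
 (nat_lit 2983) (nat_lit 1571) (nat_lit 3687) (nat_lit 1) .nil)), (nat_lit 31), (nat_lit 0), (nat_lit 0),
 (nat_lit 0), (29, 22, 0), [97, 2035], 0⟩,
  mz,
  ⟨⟨-13, 48, -27, -30, 17, 60, 30, 36, -7⟩, (.cons (nat_lit 187) (nat_lit 49) (nat_lit 324) (nat_lit 1) (.cons
 (nat_lit 4037) (nat_lit 1414) (nat_lit 4564) (nat_lit 1) .nil)), (nat_lit 52), (nat_lit 0), (nat_lit 0),
 (nat_lit 0), (11, 5, 48), [227, 3842], 0⟩,
  mz,
  ⟨⟨-15, 56, 4, -28, -5, 64, -40, 8, -7⟩, (.cons (nat_lit 17) (nat_lit 297) (nat_lit 163) (nat_lit 1) (.cons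
 (nat_lit 2771) (nat_lit 4123) (nat_lit 1850) (nat_lit 1) .nil)), (nat_lit 37), (nat_lit 0), (nat_lit 0),
 (nat_lit 0), (33, 51, 35), [338, 1522], 0⟩,
  mz,
  ⟨⟨-1, -48, 37, 52, 5, -16, 8, -40, -31⟩, (.cons (nat_lit 22) (nat_lit 38) (nat_lit 238) (nat_lit 1) (.cons
 (nat_lit 2755) (nat_lit 57) (nat_lit 1762) (nat_lit 1) .nil)), (nat_lit 6), (nat_lit 0), (nat_lit 0), (nat_lit
 0), (29, 29, 33), [202, 4921], 0⟩,
  ⟨⟨43, -12, -63, -30, 17, -30, 30, 36, -23⟩, (.cons (nat_lit 36) (nat_lit 30) (nat_lit 121) (nat_lit 1) (.cons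
 (nat_lit 2843) (nat_lit 1933) (nat_lit 1) (nat_lit 4331) .nil)), (nat_lit 24), (nat_lit 0), (nat_lit 0),
 (nat_lit 0), (16, 48, 5), [126, 1424], 0⟩,
  mz,
  ⟨⟨45, -28, -49, 28, 45, -14, 0, 0, -53⟩, (.cons (nat_lit 134) (nat_lit 238) (nat_lit 232) (nat_lit 1) (.cons
 (nat_lit 3764) (nat_lit 4956) (nat_lit 2974) (nat_lit 1) .nil)), (nat_lit 22), (nat_lit 0), (nat_lit 0),
 (nat_lit 0), (39, 49, 0), [300, 3256], 0⟩,
  mz,
  ⟨⟨-39, 28, -17, 10, -33, -50, 18, 36, -37⟩, (.cons (nat_lit 26) (nat_lit 207) (nat_lit 244) (nat_lit 1)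
 (.cons (nat_lit 2490) (nat_lit 3254) (nat_lit 1437) (nat_lit 1) .nil)), (nat_lit 50), (nat_lit 0), (nat_lit
 0), (nat_lit 0), (43, 8, 25), [175, 1348], 0⟩,
  mz,
  mz,
  ⟨⟨-9, 8, -59, 52, -5, -36, -8, -40, -23⟩, (.cons (nat_lit 295) (nat_lit 32) (nat_lit 21) (nat_lit 1) (.cons
 (nat_lit 4456) (nat_lit 1488) (nat_lit 4217) (nat_lit 1) .nil)), (nat_lit 10), (nat_lit 0), (nat_lit 0),
 (nat_lit 0), (2, 12, 43), [235, 4687], 0⟩,
  ⟨⟨9, -8, -68, 52, -5, -16, 8, 40, -31⟩, (.cons (nat_lit 85) (nat_lit 25) (nat_lit 224) (nat_lit 1) (.cons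
 (nat_lit 3089) (nat_lit 2660) (nat_lit 1844) (nat_lit 1) .nil)), (nat_lit 26), (nat_lit 0), (nat_lit 0),
 (nat_lit 0), (31, 26, 4), [246, 345], 0⟩,
  ⟨⟨39, 28, -56, -10, -33, -40, -18, 36, -19⟩, (.cons (nat_lit 165) (nat_lit 108) (nat_lit 341) (nat_lit 1)
 (.cons (nat_lit 3329) (nat_lit 719) (nat_lit 936) (nat_lit 1) .nil)), (nat_lit 50), (nat_lit 0), (nat_lit 0),
 (nat_lit 0), (34, 47, 21), [124, 1966], 0⟩,
  ⟨⟨15, -56, -11, -28, -5, -36, 40, -8, -47⟩, (.cons (nat_lit 157) (nat_lit 291) (nat_lit 167) (nat_lit 1)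
 (.cons (nat_lit 1264) (nat_lit 860) (nat_lit 1026) (nat_lit 1) .nil)), (nat_lit 28), (nat_lit 0), (nat_lit 0),
 (nat_lit 0), (31, 34, 12), [112, 1736], 0⟩,
  ⟨⟨-9, -8, -59, 52, 5, -36, -8, 40, -23⟩, (.cons (nat_lit 32) (nat_lit 173) (nat_lit 190) (nat_lit 1) (.cons
 (nat_lit 3058) (nat_lit 3454) (nat_lit 3510) (nat_lit 1) .nil)), (nat_lit 10), (nat_lit 0), (nat_lit 0),
 (nat_lit 0), (29, 15, 14), [33, 834], 0⟩,
  ⟨⟨31, 48, -4, -10, 17, -50, 46, -4, -35⟩, (.cons (nat_lit 248) (nat_lit 329) (nat_lit 277) (nat_lit 1) (.cons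
 (nat_lit 2494) (nat_lit 3125) (nat_lit 4740) (nat_lit 1) .nil)), (nat_lit 11), (nat_lit 0), (nat_lit 0),
 (nat_lit 0), (15, 2, 12), [82, 1249], 0⟩,
  ⟨⟨-57, 4, 40, -8, -45, -26, -24, 24, -25⟩, (.cons (nat_lit 351) (nat_lit 297) (nat_lit 227) (nat_lit 1)
 (.cons (nat_lit 348) (nat_lit 2647) (nat_lit 1936) (nat_lit 1) .nil)), (nat_lit 9), (nat_lit 0), (nat_lit 0),
 (nat_lit 0), (25, 50, 44), [198, 1057], 0⟩,
  ⟨⟨15, 32, 44, -50, 17, 30, 14, 44, -19⟩, (.cons (nat_lit 260) (nat_lit 262) (nat_lit 350) (nat_lit 1) (.cons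
 (nat_lit 2604) (nat_lit 479) (nat_lit 1010) (nat_lit 1) .nil)), (nat_lit 17), (nat_lit 0), (nat_lit 0),
 (nat_lit 0), (27, 16, 4), [256, 439], 0⟩,
  ⟨⟨-15, 32, 59, 50, 17, -20, -14, 44, -5⟩, (.cons (nat_lit 339) (nat_lit 222) (nat_lit 261) (nat_lit 1) (.cons
 (nat_lit 1965) (nat_lit 4275) (nat_lit 2635) (nat_lit 1) .nil)), (nat_lit 17), (nat_lit 0), (nat_lit 0),
 (nat_lit 0), (6, 33, 48), [18, 3994], 0⟩,
  mz,
  ⟨⟨-13, -48, -27, 30, 17, -60, 30, -36, -7⟩, (.cons (nat_lit 168) (nat_lit 311) (nat_lit 349) (nat_lit 1)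
 (.cons (nat_lit 1907) (nat_lit 3941) (nat_lit 2245) (nat_lit 1) .nil)), (nat_lit 29), (nat_lit 0), (nat_lit
 0), (nat_lit 0), (14, 37, 37), [208, 4268], 0⟩,
  ⟨⟨1, -12, -64, 50, -17, -20, -14, -44, -5⟩, (.cons (nat_lit 98) (nat_lit 7) (nat_lit 359) (nat_lit 1) (.cons
 (nat_lit 1392) (nat_lit 4822) (nat_lit 1752) (nat_lit 1) .nil)), (nat_lit 48), (nat_lit 0), (nat_lit 0),
 (nat_lit 0), (3, 44, 11), [160, 3272], 0⟩,
  ⟨⟨15, -52, 16, -10, 17, 60, 46, -4, -11⟩, (.cons (nat_lit 70) (nat_lit 232) (nat_lit 140) (nat_lit 1) (.cons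
 (nat_lit 1387) (nat_lit 1293) (nat_lit 4779) (nat_lit 1) .nil)), (nat_lit 47), (nat_lit 0), (nat_lit 0),
 (nat_lit 0), (14, 26, 50), [92, 3548], 0⟩,
  ⟨⟨-39, -28, -17, -10, -33, 50, 18, -36, -37⟩, (.cons (nat_lit 90) (nat_lit 176) (nat_lit 226) (nat_lit 1)
 (.cons (nat_lit 3292) (nat_lit 1112) (nat_lit 2661) (nat_lit 1) .nil)), (nat_lit 38), (nat_lit 0), (nat_lit
 0), (nat_lit 0), (5, 4, 14), [172, 104], 0⟩,
  ⟨⟨39, -28, -56, -10, 33, -40, -18, -36, -19⟩, (.cons (nat_lit 360) (nat_lit 175) (nat_lit 181) (nat_lit 1)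
 (.cons (nat_lit 5040) (nat_lit 1579) (nat_lit 4834) (nat_lit 1) .nil)), (nat_lit 50), (nat_lit 0), (nat_lit
 0), (nat_lit 0), (49, 35, 10), [178, 2761], 0⟩,
  mz,
  ⟨⟨43, 12, -63, 30, 17, 30, 30, -36, -23⟩, (.cons (nat_lit 31) (nat_lit 97) (nat_lit 117) (nat_lit 1) (.cons
 (nat_lit 906) (nat_lit 1769) (nat_lit 470) (nat_lit 1) .nil)), (nat_lit 46), (nat_lit 0), (nat_lit 0),
 (nat_lit 0), (2, 47, 47), [128, 240], 0⟩]

/-- Moves. -/
noncomputable def t4_8 : List Mv := [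
  mz,
  mz,
  mz,
  mz,
  ⟨⟨51, 20, -47, 10, -47, -30, -2, 20, -47⟩, (.cons (nat_lit 306) (nat_lit 352) (nat_lit 167) (nat_lit 1)
 (.cons (nat_lit 4169) (nat_lit 3973) (nat_lit 4779) (nat_lit 1) .nil)), (nat_lit 15), (nat_lit 0), (nat_lit
 0), (nat_lit 0), (24, 39, 24), [212, 4568], 0⟩,
  ⟨⟨-53, 0, 0, -10, -47, 30, -2, -20, -47⟩, (.cons (nat_lit 232) (nat_lit 299) (nat_lit 1) (nat_lit 19) (.cons
 (nat_lit 3717) (nat_lit 3015) (nat_lit 2253) (nat_lit 1) .nil)), (nat_lit 4), (nat_lit 0), (nat_lit 0),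
 (nat_lit 0), (0, 7, 12), [267, 4636], 0⟩,
  ⟨⟨25, -48, -36, 28, -5, 36, 40, 8, -47⟩, (.cons (nat_lit 146) (nat_lit 131) (nat_lit 1) (nat_lit 228) (.cons
 (nat_lit 2247) (nat_lit 2572) (nat_lit 705) (nat_lit 1) .nil)), (nat_lit 40), (nat_lit 0), (nat_lit 0),
 (nat_lit 0), (37, 16, 38), [27, 3049], 0⟩,
  mz,
  mz,
  ⟨⟨-33, -20, -32, -8, -45, 34, 24, -24, -49⟩, (.cons (nat_lit 36) (nat_lit 138) (nat_lit 131) (nat_lit 1)
 (.cons (nat_lit 507) (nat_lit 3918) (nat_lit 1443) (nat_lit 1) .nil)), (nat_lit 42), (nat_lit 0), (nat_lit 0),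
 (nat_lit 0), (35, 39, 42), [298, 975], 0⟩,
  ⟨⟨-25, 48, -11, 28, -5, -64, -40, -8, -7⟩, (.cons (nat_lit 268) (nat_lit 88) (nat_lit 148) (nat_lit 1) (.cons
 (nat_lit 2723) (nat_lit 1140) (nat_lit 507) (nat_lit 1) .nil)), (nat_lit 36), (nat_lit 0), (nat_lit 0),
 (nat_lit 0), (52, 52, 9), [85, 4388], 0⟩,
  ⟨⟨-1, -12, -63, 50, 17, -30, 14, -44, -19⟩, (.cons (nat_lit 348) (nat_lit 115) (nat_lit 263) (nat_lit 1)
 (.cons (nat_lit 3516) (nat_lit 2506) (nat_lit 4354) (nat_lit 1) .nil)), (nat_lit 16), (nat_lit 0), (nat_lit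
 0), (nat_lit 0), (44, 26, 20), [249, 3697], 0⟩,
  ⟨⟨-51, 20, 4, -10, -47, -20, 2, 20, -49⟩, (.cons (nat_lit 57) (nat_lit 117) (nat_lit 85) (nat_lit 1) (.cons
 (nat_lit 5024) (nat_lit 3352) (nat_lit 3554) (nat_lit 1) .nil)), (nat_lit 15), (nat_lit 0), (nat_lit 0),
 (nat_lit 0), (48, 25, 48), [253, 34], 0⟩,
  mz,
  mz,
  ⟨⟨53, 0, -53, -10, 47, -20, 2, -20, -49⟩, (.cons (nat_lit 321) (nat_lit 285) (nat_lit 158) (nat_lit 1) (.cons
 (nat_lit 1269) (nat_lit 3494) (nat_lit 4880) (nat_lit 1) .nil)), (nat_lit 5), (nat_lit 0), (nat_lit 0),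
 (nat_lit 0), (0, 32, 36), [334, 1489], 0⟩,
  ⟨⟨15, 52, 16, 10, 17, -60, 46, 4, -11⟩, (.cons (nat_lit 154) (nat_lit 23) (nat_lit 37) (nat_lit 1) (.cons
 (nat_lit 4895) (nat_lit 3399) (nat_lit 4500) (nat_lit 1) .nil)), (nat_lit 44), (nat_lit 0), (nat_lit 0),
 (nat_lit 0), (24, 16, 10), [119, 823], 0⟩,
  ⟨⟨31, -48, -4, 10, 17, 50, 46, 4, -35⟩, (.cons (nat_lit 193) (nat_lit 335) (nat_lit 318) (nat_lit 1) (.cons
 (nat_lit 4226) (nat_lit 2228) (nat_lit 1467) (nat_lit 1) .nil)), (nat_lit 43), (nat_lit 0), (nat_lit 0),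
 (nat_lit 0), (18, 40, 25), [290, 3171], 0⟩,
  ⟨⟨-57, -4, 40, -8, 45, -26, -24, -24, -25⟩, (.cons (nat_lit 221) (nat_lit 327) (nat_lit 333) (nat_lit 1)
 (.cons (nat_lit 3354) (nat_lit 4299) (nat_lit 4511) (nat_lit 1) .nil)), (nat_lit 9), (nat_lit 0), (nat_lit 0),
 (nat_lit 0), (12, 24, 19), [245, 3082], 0⟩,
  mz,
  mz,
  ⟨⟨-33, 20, -32, 8, -45, -34, 24, 24, -49⟩, (.cons (nat_lit 2) (nat_lit 268) (nat_lit 79) (nat_lit 1) (.cons
 (nat_lit 3901) (nat_lit 4749) (nat_lit 674) (nat_lit 1) .nil)), (nat_lit 18), (nat_lit 0), (nat_lit 0),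
 (nat_lit 0), (47, 40, 14), [22, 3974], 0⟩,
  ⟨⟨45, 28, -49, 28, -45, -14, 0, 0, -53⟩, (.cons (nat_lit 342) (nat_lit 83) (nat_lit 1) (nat_lit 19) (.cons
 (nat_lit 5040) (nat_lit 4392) (nat_lit 1801) (nat_lit 1) .nil)), (nat_lit 22), (nat_lit 0), (nat_lit 0),
 (nat_lit 0), (24, 22, 0), [294, 95], 0⟩,
  mz,
  ⟨⟨-13, 48, -27, 30, -17, -60, 30, 36, -7⟩, (.cons (nat_lit 351) (nat_lit 300) (nat_lit 127) (nat_lit 1)
 (.cons (nat_lit 3124) (nat_lit 1604) (nat_lit 4236) (nat_lit 1) .nil)), (nat_lit 29), (nat_lit 0), (nat_lit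
 0), (nat_lit 0), (11, 48, 48), [35, 2737], 0⟩,
  mz,
  ⟨⟨-25, -48, -11, 28, 5, -64, -40, 8, -7⟩, (.cons (nat_lit 49) (nat_lit 134) (nat_lit 250) (nat_lit 1) (.cons
 (nat_lit 1464) (nat_lit 3490) (nat_lit 3948) (nat_lit 1) .nil)), (nat_lit 36), (nat_lit 0), (nat_lit 0),
 (nat_lit 0), (2, 2, 35), [32, 159], 0⟩,
  mz,
  ⟨⟨-1, -48, 37, 52, 5, -16, 8, -40, -31⟩, (.cons (nat_lit 22) (nat_lit 38) (nat_lit 238) (nat_lit 1) (.cons
 (nat_lit 2755) (nat_lit 57) (nat_lit 1762) (nat_lit 1) .nil)), (nat_lit 6), (nat_lit 0), (nat_lit 0), (nat_lit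
 0), (29, 29, 33), [202, 4921], 0⟩,
  ⟨⟨43, -12, -63, -30, 17, -30, 30, 36, -23⟩, (.cons (nat_lit 36) (nat_lit 30) (nat_lit 121) (nat_lit 1) (.cons
 (nat_lit 2843) (nat_lit 1933) (nat_lit 1) (nat_lit 4331) .nil)), (nat_lit 24), (nat_lit 0), (nat_lit 0),
 (nat_lit 0), (16, 48, 5), [126, 1424], 0⟩,
  mz,
  ⟨⟨45, -28, -49, 28, 45, -14, 0, 0, -53⟩, (.cons (nat_lit 134) (nat_lit 238) (nat_lit 232) (nat_lit 1) (.cons
 (nat_lit 3764) (nat_lit 4956) (nat_lit 2974) (nat_lit 1) .nil)), (nat_lit 22), (nat_lit 0), (nat_lit 0),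
 (nat_lit 0), (39, 49, 0), [300, 3256], 0⟩,
  mz,
  ⟨⟨57, 8, -20, 10, -33, -50, 18, 36, -37⟩, (.cons (nat_lit 108) (nat_lit 335) (nat_lit 333) (nat_lit 1) (.cons
 (nat_lit 2761) (nat_lit 1557) (nat_lit 857) (nat_lit 1) .nil)), (nat_lit 49), (nat_lit 0), (nat_lit 0),
 (nat_lit 0), (35, 8, 25), [352, 4877], 0⟩,
  mz,
  mz,
  ⟨⟨-9, 8, -59, 52, -5, -36, -8, -40, -23⟩, (.cons (nat_lit 295) (nat_lit 32) (nat_lit 21) (nat_lit 1) (.cons
 (nat_lit 4456) (nat_lit 1488) (nat_lit 4217) (nat_lit 1) .nil)), (nat_lit 10), (nat_lit 0), (nat_lit 0),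
 (nat_lit 0), (2, 12, 43), [235, 4687], 0⟩,
  ⟨⟨-1, 48, 37, 52, -5, -16, 8, 40, -31⟩, (.cons (nat_lit 192) (nat_lit 86) (nat_lit 208) (nat_lit 1) (.cons
 (nat_lit 4214) (nat_lit 2716) (nat_lit 1154) (nat_lit 1) .nil)), (nat_lit 6), (nat_lit 0), (nat_lit 0),
 (nat_lit 0), (26, 26, 4), [351, 1619], 0⟩,
  ⟨⟨-57, 8, 37, -10, -33, -40, -18, 36, -19⟩, (.cons (nat_lit 357) (nat_lit 343) (nat_lit 182) (nat_lit 1)
 (.cons (nat_lit 1248) (nat_lit 3540) (nat_lit 1091) (nat_lit 1) .nil)), (nat_lit 49), (nat_lit 0), (nat_lit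
 0), (nat_lit 0), (40, 47, 21), [225, 3004], 0⟩,
  ⟨⟨25, 48, -36, 28, 5, 36, 40, -8, -47⟩, (.cons (nat_lit 220) (nat_lit 154) (nat_lit 99) (nat_lit 1) (.cons
 (nat_lit 4338) (nat_lit 2128) (nat_lit 2075) (nat_lit 1) .nil)), (nat_lit 40), (nat_lit 0), (nat_lit 0),
 (nat_lit 0), (34, 19, 12), [349, 4694], 0⟩,
  ⟨⟨1, 48, 36, -52, -5, 36, -8, 40, -23⟩, (.cons (nat_lit 323) (nat_lit 234) (nat_lit 225) (nat_lit 1) (.cons
 (nat_lit 940) (nat_lit 2000) (nat_lit 2712) (nat_lit 1) .nil)), (nat_lit 6), (nat_lit 0), (nat_lit 0),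
 (nat_lit 0), (38, 38, 14), [129, 4524], 0⟩,
  ⟨⟨31, 48, -4, -10, 17, -50, 46, -4, -35⟩, (.cons (nat_lit 248) (nat_lit 329) (nat_lit 277) (nat_lit 1) (.cons
 (nat_lit 2494) (nat_lit 3125) (nat_lit 4740) (nat_lit 1) .nil)), (nat_lit 11), (nat_lit 0), (nat_lit 0),
 (nat_lit 0), (15, 2, 12), [82, 1249], 0⟩,
  ⟨⟨-57, 4, 40, -8, -45, -26, -24, 24, -25⟩, (.cons (nat_lit 351) (nat_lit 297) (nat_lit 227) (nat_lit 1)
 (.cons (nat_lit 348) (nat_lit 2647) (nat_lit 1936) (nat_lit 1) .nil)), (nat_lit 9), (nat_lit 0), (nat_lit 0),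
 (nat_lit 0), (25, 50, 44), [198, 1057], 0⟩,
  ⟨⟨15, 32, 44, 50, -17, -30, 14, 44, -19⟩, (.cons (nat_lit 108) (nat_lit 182) (nat_lit 348) (nat_lit 1) (.cons
 (nat_lit 1032) (nat_lit 1985) (nat_lit 600) (nat_lit 1) .nil)), (nat_lit 41), (nat_lit 0), (nat_lit 0),
 (nat_lit 0), (27, 37, 4), [79, 4688], 0⟩,
  ⟨⟨1, 12, -64, -50, -17, 20, -14, 44, -5⟩, (.cons (nat_lit 143) (nat_lit 321) (nat_lit 124) (nat_lit 1) (.cons
 (nat_lit 1899) (nat_lit 2820) (nat_lit 4036) (nat_lit 1) .nil)), (nat_lit 16), (nat_lit 0), (nat_lit 0),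
 (nat_lit 0), (42, 20, 48), [70, 450], 0⟩,
  mz,
  ⟨⟨-13, -48, -27, 30, 17, -60, 30, -36, -7⟩, (.cons (nat_lit 168) (nat_lit 311) (nat_lit 349) (nat_lit 1)
 (.cons (nat_lit 1907) (nat_lit 3941) (nat_lit 2245) (nat_lit 1) .nil)), (nat_lit 29), (nat_lit 0), (nat_lit
 0), (nat_lit 0), (14, 37, 37), [208, 4268], 0⟩,
  ⟨⟨-15, -32, 59, 50, -17, -20, -14, -44, -5⟩, (.cons (nat_lit 224) (nat_lit 175) (nat_lit 96) (nat_lit 1)
 (.cons (nat_lit 4092) (nat_lit 1139) (nat_lit 317) (nat_lit 1) .nil)), (nat_lit 17), (nat_lit 0), (nat_lit 0),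
 (nat_lit 0), (8, 44, 11), [215, 590], 0⟩,
  ⟨⟨15, -52, 16, 10, -17, -60, 46, -4, -11⟩, (.cons (nat_lit 1) (nat_lit 56) (nat_lit 105) (nat_lit 1) (.cons
 (nat_lit 1570) (nat_lit 2105) (nat_lit 1384) (nat_lit 1) .nil)), (nat_lit 44), (nat_lit 0), (nat_lit 0),
 (nat_lit 0), (14, 27, 50), [317, 2424], 0⟩,
  ⟨⟨57, -8, -20, -10, -33, 50, 18, -36, -37⟩, (.cons (nat_lit 117) (nat_lit 154) (nat_lit 27) (nat_lit 1)
 (.cons (nat_lit 3186) (nat_lit 4783) (nat_lit 1820) (nat_lit 1) .nil)), (nat_lit 33), (nat_lit 0), (nat_lit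
 0), (nat_lit 0), (9, 4, 14), [261, 1768], 0⟩,
  ⟨⟨39, -28, -56, -10, 33, -40, -18, -36, -19⟩, (.cons (nat_lit 360) (nat_lit 175) (nat_lit 181) (nat_lit 1)
 (.cons (nat_lit 5040) (nat_lit 1579) (nat_lit 4834) (nat_lit 1) .nil)), (nat_lit 50), (nat_lit 0), (nat_lit
 0), (nat_lit 0), (49, 35, 10), [178, 2761], 0⟩,
  mz,
  ⟨⟨43, 12, -63, -30, -17, -30, 30, -36, -23⟩, (.cons (nat_lit 139) (nat_lit 48) (nat_lit 89) (nat_lit 1)
 (.cons (nat_lit 3841) (nat_lit 3024) (nat_lit 2274) (nat_lit 1) .nil)), (nat_lit 24), (nat_lit 0), (nat_lit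
 0), (nat_lit 0), (2, 6, 47), [283, 2377], 0⟩]

/-- All the moves. -/
noncomputable def tabs : List (List (List Mv)) := [[[], t0_1, t0_2, [], [], [], [], [], t0_8], [[], t1_1, t1_2, [], [], [], [], [], t1_8], [], [], [[], t4_1, t4_2, [], [], [], [], [], t4_8]]

/-- Subtrie. -/
noncomputable def T1 : Tr := (.ev (nat_lit 20) (nat_lit 1010391144529952) (.nd (nat_lit 33) (.br (nat_lit 39)
 (.br (nat_lit 19) (.br (nat_lit 8) (.br (nat_lit 4) (.br (nat_lit 3) (.ch (nat_lit 1) (.ev (nat_lit 52)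
 (nat_lit 4503599627507776) (.ev (nat_lit 64) (nat_lit 1206167210853904) .dd))) (.ch (nat_lit 3) (.ev (nat_lit
 52) (nat_lit 4503600166510144) (.ev (nat_lit 244) (nat_lit 262144) (.ev (nat_lit 756) (nat_lit
 1125899906842624) (.ev (nat_lit 916) (nat_lit 8796093022208) (.ev (nat_lit 980) (nat_lit 2147483648) (.ev
 (nat_lit 2036) (nat_lit 268435456) (.ev (nat_lit 2688) (nat_lit 70368744177664) (.nd (nat_lit 3024) (.br
 (nat_lit 9) (.br (nat_lit 2) (.ch (nat_lit 1) (.ev (nat_lit 3040) (nat_lit 1099511627792) .dd)) (.br (nat_lit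
 6) (.ch (nat_lit 2) (.ev (nat_lit 3040) (nat_lit 1099511627776) (.ev (nat_lit 3053) (nat_lit 16) .dd))) (.ch
 (nat_lit 6) (.ev (nat_lit 3040) (nat_lit 1099511627776) (.ev (nat_lit 3053) (nat_lit 16) .dd))))) (.br
 (nat_lit 11) (.ch (nat_lit 9) (.ev (nat_lit 3040) (nat_lit 1099511627792) .dd)) (.br (nat_lit 18) (.ch
 (nat_lit 11) (.ev (nat_lit 3040) (nat_lit 1099511627792) .dd)) (.ch (nat_lit 18) (.ev (nat_lit 3040) (nat_lit
 16) (.ev (nat_lit 3053) (nat_lit 1099511627776) .dd)))))))))))))))) (.br (nat_lit 5) (.ch (nat_lit 4) (.ev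
 (nat_lit 52) (nat_lit 5630599314277888) (.ev (nat_lit 244) (nat_lit 2097152) (.ev (nat_lit 500) (nat_lit 4096)
 (.ev (nat_lit 724) (nat_lit 8796093022208) (.ev (nat_lit 820) (nat_lit 262144) (.ev (nat_lit 1076) (nat_lit
 32768) (.ev (nat_lit 1748) (nat_lit 16) (.ev (nat_lit 1972) (nat_lit 536870912) (.ev (nat_lit 2416) (nat_lit
 2147483712) (.nd (nat_lit 3024) (.br (nat_lit 6) (.br (nat_lit 4) (.ch (nat_lit 2) (.ev (nat_lit 3040)
 (nat_lit 133120) (.ev (nat_lit 3053) (nat_lit 70368744177664) .dd))) (.ch (nat_lit 4) (.ev (nat_lit 3040)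
 (nat_lit 70368744308736) (.ev (nat_lit 3053) (nat_lit 2048) .dd)))) (.br (nat_lit 11) (.ch (nat_lit 6) (.ev
 (nat_lit 3040) (nat_lit 70368744310784) .dd)) (.ch (nat_lit 11) (.ev (nat_lit 3040) (nat_lit 70368744179712)
 (.ev (nat_lit 3053) (nat_lit 131072) .dd)))))))))))))))) (.br (nat_lit 7) (.ch (nat_lit 5) (.ev (nat_lit 52)
 (nat_lit 1127000226006032) (.ev (nat_lit 640) (nat_lit 4582766612355648) .dd))) (.ch (nat_lit 7) (.ev (nat_lit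
 52) (nat_lit 5700968327187472) (.ev (nat_lit 340) (nat_lit 2097152) (.ev (nat_lit 1344) (nat_lit
 8798509077056) .dd))))))) (.br (nat_lit 15) (.br (nat_lit 11) (.ch (nat_lit 8) (.ev (nat_lit 52) (nat_lit
 4513497650336768) (.ev (nat_lit 436) (nat_lit 512) (.ev (nat_lit 500) (nat_lit 1125899906844672) (.ev (nat_lit
 660) (nat_lit 131072) (.ev (nat_lit 1920) (nat_lit 70369281048656) .dd)))))) (.br (nat_lit 12) (.ch (nat_lit
 11) (.ev (nat_lit 52) (nat_lit 9895873382464) (.ev (nat_lit 884) (nat_lit 131072) (.ev (nat_lit 1300) (nat_lit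
 4096) (.ev (nat_lit 1396) (nat_lit 1024) (.ev (nat_lit 1428) (nat_lit 536870912) (.ev (nat_lit 1620) (nat_lit
 4503599627370496) (.ev (nat_lit 1684) (nat_lit 2147483648) (.nd (nat_lit 3024) (.br (nat_lit 9) (.br (nat_lit
 4) (.ch (nat_lit 2) (.ev (nat_lit 3040) (nat_lit 1125899908940304) (.ev (nat_lit 3053) (nat_lit
 70368744177664) .dd))) (.br (nat_lit 6) (.ch (nat_lit 4) (.ev (nat_lit 3040) (nat_lit 1196268651020816) (.ev
 (nat_lit 3053) (nat_lit 2097152) .dd))) (.ch (nat_lit 6) (.ev (nat_lit 3040) (nat_lit 1196268651020816) (.ev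
 (nat_lit 3053) (nat_lit 2097152) .dd))))) (.br (nat_lit 10) (.ch (nat_lit 9) (.ev (nat_lit 3040) (nat_lit
 70368746274832) (.ev (nat_lit 3056) (nat_lit 1125899906843136) .dd))) (.br (nat_lit 15) (.ch (nat_lit 10) (.ev
 (nat_lit 3040) (nat_lit 1196268653117968) .dd)) (.ch (nat_lit 15) (.ev (nat_lit 3040) (nat_lit 2097664) (.ev
 (nat_lit 3088) (nat_lit 16) (.ev (nat_lit 3120) (nat_lit 1196268651020288) .dd)))))))))))))))) (.ch (nat_lit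
 12) (.ev (nat_lit 52) (nat_lit 4503602580589120) (.ev (nat_lit 564) (nat_lit 4096) (.ev (nat_lit 884) (nat_lit
 2097152) (.ev (nat_lit 980) (nat_lit 70368744177664) (.ev (nat_lit 1076) (nat_lit 16) (.ev (nat_lit 1428)
 (nat_lit 8796093022208) (.ev (nat_lit 1984) (nat_lit 1126999418471424) .dd)))))))))) (.br (nat_lit 16) (.ch
 (nat_lit 15) (.ev (nat_lit 52) (nat_lit 79164837626432) (.ev (nat_lit 148) (nat_lit 2147483648) (.ev (nat_lit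
 340) (nat_lit 4503599627370496) (.ev (nat_lit 372) (nat_lit 536870912) (.ev (nat_lit 500) (nat_lit 268435456)
 (.ev (nat_lit 660) (nat_lit 2097152) (.ev (nat_lit 2244) (nat_lit 4096) (.ev (nat_lit 2736) (nat_lit
 1099511627776) (.ev (nat_lit 2964) (nat_lit 1125899906842624) (.nd (nat_lit 3024) (.br (nat_lit 4) (.ch
 (nat_lit 1) (.ev (nat_lit 3040) (nat_lit 3072) (.ev (nat_lit 3053) (nat_lit 16) .dd))) (.br (nat_lit 15) (.ch
 (nat_lit 4) (.ev (nat_lit 3040) (nat_lit 1040) (.ev (nat_lit 3053) (nat_lit 2048) .dd))) (.ch (nat_lit 15)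
 (.ev (nat_lit 3040) (nat_lit 2064) (.ev (nat_lit 3053) (nat_lit 1024) .dd)))))))))))))))) (.br (nat_lit 18)
 (.ch (nat_lit 16) (.ev (nat_lit 52) (nat_lit 5639395141356544) (.ev (nat_lit 276) (nat_lit 4096) (.ev (nat_lit
 468) (nat_lit 268435456) (.ev (nat_lit 1204) (nat_lit 70368744177664) (.ev (nat_lit 1600) (nat_lit 2684387920)
 .dd)))))) (.ch (nat_lit 18) (.ev (nat_lit 52) (nat_lit 5708664641982544) (.ev (nat_lit 660) (nat_lit
 536870912) (.ev (nat_lit 1172) (nat_lit 1099511628288) (.ev (nat_lit 1236) (nat_lit 131072) (.ev (nat_lit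
 1332) (nat_lit 2048) (.ev (nat_lit 1780) (nat_lit 1024) (.ev (nat_lit 2256) (nat_lit 2147483648) (.ev (nat_lit
 2269) (nat_lit 262144) .dd))))))))))))) (.br (nat_lit 29) (.br (nat_lit 23) (.br (nat_lit 22) (.ch (nat_lit
 19) (.ev (nat_lit 52) (nat_lit 8796900853760) (.ev (nat_lit 276) (nat_lit 2147483648) (.ev (nat_lit 308)
 (nat_lit 1099511627776) (.ev (nat_lit 404) (nat_lit 1125899906842624) (.ev (nat_lit 820) (nat_lit
 4503599627370496) (.ev (nat_lit 1140) (nat_lit 70368744177664) (.ev (nat_lit 1396) (nat_lit 64) (.ev (nat_lit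
 1492) (nat_lit 16) (.ev (nat_lit 1652) (nat_lit 512) (.ev (nat_lit 2144) (nat_lit 4096) (.ev (nat_lit 2157)
 (nat_lit 1024) .dd)))))))))))) (.ch (nat_lit 22) (.ev (nat_lit 52) (nat_lit 1127001565987328) (.ev (nat_lit
 96) (nat_lit 4582765272374352) .dd)))) (.br (nat_lit 24) (.ch (nat_lit 23) (.ev (nat_lit 52) (nat_lit
 5638295627373120) (.ev (nat_lit 148) (nat_lit 70368744177664) (.ev (nat_lit 180) (nat_lit 1099511627776) (.ev
 (nat_lit 724) (nat_lit 537133056) (.ev (nat_lit 1300) (nat_lit 268435456) (.ev (nat_lit 1748) (nat_lit 1024)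
 (.ev (nat_lit 1844) (nat_lit 32768) (.ev (nat_lit 2036) (nat_lit 2147483648) (.ev (nat_lit 2112) (nat_lit 16)
 (.ev (nat_lit 2125) (nat_lit 2097152) .dd))))))))))) (.br (nat_lit 26) (.ch (nat_lit 24) (.ev (nat_lit 52)
 (nat_lit 1205064744044032) (.ev (nat_lit 84) (nat_lit 4503599627370496) (.ev (nat_lit 224) (nat_lit
 1102466947152) .dd)))) (.ch (nat_lit 26) (.ev (nat_lit 52) (nat_lit 4504701823746064) (.ev (nat_lit 148)
 (nat_lit 2048) (.ev (nat_lit 180) (nat_lit 33280) (.ev (nat_lit 916) (nat_lit 2097152) (.ev (nat_lit 1440)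
 (nat_lit 1205065012483136) .dd))))))))) (.br (nat_lit 34) (.br (nat_lit 31) (.ch (nat_lit 29) (.ev (nat_lit
 52) (nat_lit 4573969177149520) (.ev (nat_lit 468) (nat_lit 2048) (.ev (nat_lit 884) (nat_lit 8796093022208)
 (.ev (nat_lit 1236) (nat_lit 2097152) (.ev (nat_lit 1460) (nat_lit 131072) (.ev (nat_lit 2212) (nat_lit 1024)
 (.ev (nat_lit 2560) (nat_lit 1126999418470400) (.nd (nat_lit 3024) (.br (nat_lit 9) (.br (nat_lit 4) (.ch
 (nat_lit 2) (.ev (nat_lit 3040) (nat_lit 2147484160) (.ev (nat_lit 3053) (nat_lit 4096) .dd))) (.br (nat_lit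
 6) (.ch (nat_lit 4) (.ev (nat_lit 3040) (nat_lit 2147487744) (.ev (nat_lit 3053) (nat_lit 512) .dd))) (.ch
 (nat_lit 6) (.ev (nat_lit 3040) (nat_lit 2147484160) (.ev (nat_lit 3053) (nat_lit 4096) .dd))))) (.br (nat_lit
 15) (.ch (nat_lit 9) (.ev (nat_lit 3040) (nat_lit 2147488256) .dd)) (.br (nat_lit 18) (.ch (nat_lit 15) (.ev
 (nat_lit 3040) (nat_lit 4608) (.ev (nat_lit 3053) (nat_lit 2147483648) .dd))) (.ch (nat_lit 18) (.ev (nat_lit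
 3040) (nat_lit 2147488256) .dd)))))))))))))) (.br (nat_lit 33) (.ch (nat_lit 31) (.ev (nat_lit 52) (nat_lit
 1206166405513808) (.ev (nat_lit 84) (nat_lit 131072) (.ev (nat_lit 628) (nat_lit 32768) (.ev (nat_lit 1204)
 (nat_lit 2048) (.ev (nat_lit 1236) (nat_lit 4503599627370496) (.ev (nat_lit 2896) (nat_lit 536875008) (.nd
 (nat_lit 3024) (.br (nat_lit 6) (.br (nat_lit 4) (.ch (nat_lit 1) (.ev (nat_lit 3040) (nat_lit 268436480)
 .dd)) (.ch (nat_lit 4) (.ev (nat_lit 3040) (nat_lit 268436480) .dd))) (.br (nat_lit 10) (.ch (nat_lit 6) (.ev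
 (nat_lit 3040) (nat_lit 1024) (.ev (nat_lit 3053) (nat_lit 268435456) .dd))) (.br (nat_lit 18) (.ch (nat_lit
 10) (.ev (nat_lit 3040) (nat_lit 268435456) (.ev (nat_lit 3053) (nat_lit 1024) .dd))) (.ch (nat_lit 18) (.ev
 (nat_lit 3040) (nat_lit 268436480) .dd))))))))))))) (.ch (nat_lit 33) (.ev (nat_lit 52) (nat_lit
 4513496037331024) (.ev (nat_lit 564) (nat_lit 1125899906842624) (.ev (nat_lit 896) (nat_lit 70370894188032)
 .dd)))))) (.br (nat_lit 36) (.ch (nat_lit 34) (.ev (nat_lit 52) (nat_lit 4504699409695760) (.ev (nat_lit 116)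
 (nat_lit 536870912) (.ev (nat_lit 628) (nat_lit 512) (.ev (nat_lit 1012) (nat_lit 4096) (.ev (nat_lit 1300)
 (nat_lit 70368744177664) (.ev (nat_lit 1364) (nat_lit 8796093022208) (.ev (nat_lit 1428) (nat_lit 262144) (.ev
 (nat_lit 1556) (nat_lit 2048) (.ev (nat_lit 2624) (nat_lit 64) (.nd (nat_lit 3024) (.br (nat_lit 10) (.br
 (nat_lit 9) (.ch (nat_lit 7) (.ev (nat_lit 3040) (nat_lit 1125899906842624) (.ev (nat_lit 3053) (nat_lit
 2147483648) .dd))) (.ch (nat_lit 9) (.ev (nat_lit 3056) (nat_lit 1125899906842624) (.ev (nat_lit 3069)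
 (nat_lit 2147483648) .dd)))) (.br (nat_lit 15) (.ch (nat_lit 10) (.ev (nat_lit 3040) (nat_lit
 1125902054326272) .dd)) (.br (nat_lit 18) (.ch (nat_lit 15) (.ev (nat_lit 3040) (nat_lit 2147483648) (.ev
 (nat_lit 3053) (nat_lit 1125899906842624) .dd))) (.ch (nat_lit 18) (.ev (nat_lit 3040) (nat_lit
 1125899906842624) (.ev (nat_lit 3053) (nat_lit 2147483648) .dd))))))))))))))))) (.br (nat_lit 38) (.ch
 (nat_lit 36) (.ev (nat_lit 52) (nat_lit 1196271335415360) (.ev (nat_lit 532) (nat_lit 16) (.ev (nat_lit 1408)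
 (nat_lit 4513495502946304) .dd)))) (.ch (nat_lit 38) (.ev (nat_lit 52) (nat_lit 8799045814800) (.ev (nat_lit
 84) (nat_lit 2097152) (.ev (nat_lit 116) (nat_lit 262144) (.ev (nat_lit 468) (nat_lit 70368744177664) (.ev
 (nat_lit 628) (nat_lit 64) (.ev (nat_lit 852) (nat_lit 1125899906842624) (.ev (nat_lit 1044) (nat_lit
 1099511627776) (.ev (nat_lit 1364) (nat_lit 131072) (.ev (nat_lit 2448) (nat_lit 4503599627403264) (.nd
 (nat_lit 3024) (.br (nat_lit 12) (.br (nat_lit 9) (.ch (nat_lit 2) (.ev (nat_lit 3040) (nat_lit 1024) (.ev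
 (nat_lit 3053) (nat_lit 4096) .dd))) (.ch (nat_lit 9) (.ev (nat_lit 3040) (nat_lit 4096) (.ev (nat_lit 3053)
 (nat_lit 1024) .dd)))) (.br (nat_lit 15) (.ch (nat_lit 12) (.ev (nat_lit 3040) (nat_lit 4096) (.ev (nat_lit
 3053) (nat_lit 1024) .dd))) (.ch (nat_lit 15) (.ev (nat_lit 3040) (nat_lit 5120) .dd)))))))))))))))))))) (.br
 (nat_lit 54) (.br (nat_lit 47) (.br (nat_lit 43) (.br (nat_lit 42) (.ch (nat_lit 39) (.ev (nat_lit 52)
 (nat_lit 4512397867877968) (.ev (nat_lit 308) (nat_lit 32768) (.ev (nat_lit 788) (nat_lit 536870912) (.ev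
 (nat_lit 1588) (nat_lit 2097152) (.ev (nat_lit 2544) (nat_lit 1125899906844672) (.ev (nat_lit 2928) (nat_lit
 268435456) (.nd (nat_lit 3024) (.br (nat_lit 12) (.br (nat_lit 9) (.ch (nat_lit 2) (.ev (nat_lit 3040)
 (nat_lit 1099512025088) (.ev (nat_lit 3053) (nat_lit 70368744177664) .dd))) (.ch (nat_lit 9) (.ev (nat_lit
 3040) (nat_lit 70368744308736) (.ev (nat_lit 3072) (nat_lit 4096) (.ev (nat_lit 3120) (nat_lit 1099511889920)
 .dd))))) (.br (nat_lit 15) (.ch (nat_lit 12) (.ev (nat_lit 3040) (nat_lit 71468256202752) .dd)) (.ch (nat_lit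
 15) (.ev (nat_lit 3040) (nat_lit 1099511631872) (.ev (nat_lit 3056) (nat_lit 70368744177664) (.ev (nat_lit
 3072) (nat_lit 393216) .dd)))))))))))))) (.ch (nat_lit 42) (.ev (nat_lit 52) (nat_lit 79165374336080) (.ev
 (nat_lit 704) (nat_lit 5630601464025600) .dd)))) (.br (nat_lit 44) (.ch (nat_lit 43) (.ev (nat_lit 52)
 (nat_lit 4503602045817856) (.ev (nat_lit 340) (nat_lit 536870912) (.ev (nat_lit 468) (nat_lit
 1125899906842624) (.ev (nat_lit 1300) (nat_lit 2048) (.ev (nat_lit 1844) (nat_lit 1099511627776) (.ev (nat_lit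
 2640) (nat_lit 70368744177664) (.nd (nat_lit 3024) (.br (nat_lit 10) (.br (nat_lit 2) (.ch (nat_lit 1) (.ev
 (nat_lit 3040) (nat_lit 8796093022800) .dd)) (.br (nat_lit 7) (.ch (nat_lit 2) (.ev (nat_lit 3040) (nat_lit
 8796093022784) (.ev (nat_lit 3053) (nat_lit 16) .dd))) (.ch (nat_lit 7) (.ev (nat_lit 3040) (nat_lit
 8796093022720) (.ev (nat_lit 3056) (nat_lit 80) .dd))))) (.br (nat_lit 12) (.ch (nat_lit 10) (.ev (nat_lit
 3040) (nat_lit 8796093022736) (.ev (nat_lit 3053) (nat_lit 64) .dd))) (.br (nat_lit 18) (.ch (nat_lit 12) (.ev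
 (nat_lit 3040) (nat_lit 8796093022800) .dd)) (.ch (nat_lit 18) (.ev (nat_lit 3040) (nat_lit 80) (.ev (nat_lit
 3056) (nat_lit 8796093022720) .dd)))))))))))))) (.br (nat_lit 46) (.ch (nat_lit 44) (.ev (nat_lit 52) (nat_lit
 1099514120208) (.ev (nat_lit 352) (nat_lit 5708667324241472) .dd))) (.ch (nat_lit 46) (.ev (nat_lit 52)
 (nat_lit 71470405524496) (.ev (nat_lit 244) (nat_lit 4503599627370496) (.ev (nat_lit 596) (nat_lit 512) (.ev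
 (nat_lit 1216) (nat_lit 1134696805466176) .dd)))))))) (.br (nat_lit 50) (.br (nat_lit 48) (.ch (nat_lit 47)
 (.ev (nat_lit 52) (nat_lit 1197370312235520) (.ev (nat_lit 84) (nat_lit 262144) (.ev (nat_lit 340) (nat_lit
 8796093022208) (.ev (nat_lit 788) (nat_lit 131072) (.ev (nat_lit 1012) (nat_lit 268435456) (.ev (nat_lit 1172)
 (nat_lit 16) (.ev (nat_lit 1492) (nat_lit 32768) (.ev (nat_lit 1876) (nat_lit 64) (.nd (nat_lit 3024) (.br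
 (nat_lit 12) (.br (nat_lit 11) (.ch (nat_lit 9) (.ev (nat_lit 3040) (nat_lit 4503600164241408) (.ev (nat_lit
 3053) (nat_lit 1024) .dd))) (.ch (nat_lit 11) (.ev (nat_lit 3040) (nat_lit 1024) (.fin (nat_lit
 576462401572389439))))) (.br (nat_lit 15) (.ch (nat_lit 12) (.ev (nat_lit 3040) (nat_lit 4503600164242432)
 .dd)) (.ch (nat_lit 15) (.ev (nat_lit 3040) (nat_lit 4503600164241408) (.ev (nat_lit 3053) (nat_lit 1024)
 .dd))))))))))))))) (.br (nat_lit 49) (.ch (nat_lit 48) (.ev (nat_lit 52) (nat_lit 4503602580422656) (.ev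
 (nat_lit 212) (nat_lit 70368744177664) (.ev (nat_lit 404) (nat_lit 2048) (.ev (nat_lit 468) (nat_lit 4096)
 (.ev (nat_lit 1428) (nat_lit 131072) (.ev (nat_lit 1652) (nat_lit 16) (.ev (nat_lit 2752) (nat_lit 32768) (.nd
 (nat_lit 3024) (.br (nat_lit 9) (.br (nat_lit 4) (.ch (nat_lit 1) (.ev (nat_lit 3040) (nat_lit 1099511629376)
 (.ev (nat_lit 3056) (nat_lit 1125899906842624) (.ev (nat_lit 3104) (nat_lit 2097152) (.ev (nat_lit 3117)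
 (nat_lit 8796093022208) .dd))))) (.ch (nat_lit 4) (.ev (nat_lit 3040) (nat_lit 1135795513590848) (.ev (nat_lit
 3053) (nat_lit 512) .dd)))) (.br (nat_lit 10) (.ch (nat_lit 9) (.ev (nat_lit 3040) (nat_lit 1125899908939776)
 (.ev (nat_lit 3056) (nat_lit 1099511627776) (.ev (nat_lit 3072) (nat_lit 576) (.ev (nat_lit 3104) (nat_lit
 8796093023232) .dd))))) (.br (nat_lit 15) (.ch (nat_lit 10) (.ev (nat_lit 3040) (nat_lit 1135795513590272)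
 (.ev (nat_lit 3072) (nat_lit 1024) (.ev (nat_lit 3085) (nat_lit 64) .dd)))) (.ch (nat_lit 15) (.ev (nat_lit
 3040) (nat_lit 1134696001962560) (.ev (nat_lit 3056) (nat_lit 1099511627776) (.ev (nat_lit 3069) (nat_lit
 1024) .dd)))))))))))))))) (.ch (nat_lit 49) (.ev (nat_lit 52) (nat_lit 1197368967994880) (.ev (nat_lit 116)
 (nat_lit 131072) (.ev (nat_lit 468) (nat_lit 2147483648) (.ev (nat_lit 628) (nat_lit 16) (.ev (nat_lit 1588)
 (nat_lit 262144) (.ev (nat_lit 1952) (nat_lit 4512395722489920) .dd))))))))) (.br (nat_lit 51) (.ch (nat_lit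
 50) (.ev (nat_lit 52) (nat_lit 4582767151190528) (.ev (nat_lit 276) (nat_lit 268435456) (.ev (nat_lit 692)
 (nat_lit 1024) (.ev (nat_lit 980) (nat_lit 1125899906842624) (.ev (nat_lit 1684) (nat_lit 2048) (.ev (nat_lit
 1888) (nat_lit 1099511890000) .dd))))))) (.br (nat_lit 53) (.ch (nat_lit 51) (.ev (nat_lit 52) (nat_lit
 4512396259365904) (.ev (nat_lit 532) (nat_lit 512) (.ev (nat_lit 948) (nat_lit 70368744177664) (.ev (nat_lit
 980) (nat_lit 268435456) (.ev (nat_lit 1332) (nat_lit 1125899906842624) (.ev (nat_lit 1396) (nat_lit 32768)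
 (.ev (nat_lit 1972) (nat_lit 131072) (.nd (nat_lit 3024) (.br (nat_lit 11) (.br (nat_lit 7) (.ch (nat_lit 1)
 (.ev (nat_lit 3040) (nat_lit 1101659113536) (.ev (nat_lit 3053) (nat_lit 262144) .dd))) (.br (nat_lit 10) (.ch
 (nat_lit 7) (.ev (nat_lit 3040) (nat_lit 1099511891968) (.ev (nat_lit 3056) (nat_lit 2147483712) .dd))) (.ch
 (nat_lit 10) (.ev (nat_lit 3040) (nat_lit 1101659373632) (.ev (nat_lit 3053) (nat_lit 2048) .dd))))) (.br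
 (nat_lit 12) (.ch (nat_lit 11) (.ev (nat_lit 3040) (nat_lit 1101659113536) (.ev (nat_lit 3053) (nat_lit
 262144) .dd))) (.br (nat_lit 18) (.ch (nat_lit 12) (.ev (nat_lit 3040) (nat_lit 1101659375680) .dd)) (.ch
 (nat_lit 18) (.ev (nat_lit 3040) (nat_lit 262208) (.ev (nat_lit 3088) (nat_lit 1099511627776) (.ev (nat_lit
 3120) (nat_lit 2147485696) .dd)))))))))))))))) (.ch (nat_lit 53) (.ev (nat_lit 52) (nat_lit 4582767417497152)
 (.ev (nat_lit 596) (nat_lit 1099511627776) (.ev (nat_lit 1568) (nat_lit 1125899909236752) .dd)))))))) (.br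
 (nat_lit 64) (.br (nat_lit 57) (.br (nat_lit 55) (.ch (nat_lit 54) (.ev (nat_lit 52) (nat_lit
 1205067162223104) (.ev (nat_lit 180) (nat_lit 64) (.ev (nat_lit 436) (nat_lit 1040) (.ev (nat_lit 1108)
 (nat_lit 1099511627776) (.ev (nat_lit 1812) (nat_lit 2048) (.ev (nat_lit 1972) (nat_lit 262144) (.nd (nat_lit
 3024) (.br (nat_lit 6) (.br (nat_lit 4) (.ch (nat_lit 2) (.ev (nat_lit 3040) (nat_lit 4503600164241408) (.ev
 (nat_lit 3053) (nat_lit 4096) .dd))) (.ch (nat_lit 4) (.ev (nat_lit 3040) (nat_lit 4503600164245504) .dd)))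
 (.br (nat_lit 11) (.ch (nat_lit 6) (.ev (nat_lit 3040) (nat_lit 4503600164241408) (.ev (nat_lit 3053) (nat_lit
 4096) .dd))) (.ch (nat_lit 11) (.ev (nat_lit 3040) (nat_lit 4096) (.fin (nat_lit
 576462401572389439)))))))))))))) (.ch (nat_lit 55) (.ev (nat_lit 52) (nat_lit 70369281054208) (.ev (nat_lit
 116) (nat_lit 2097152) (.ev (nat_lit 212) (nat_lit 268435456) (.ev (nat_lit 276) (nat_lit 1125899906842624)
 (.ev (nat_lit 788) (nat_lit 4503599627370496) (.ev (nat_lit 852) (nat_lit 2147483648) (.ev (nat_lit 1044)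
 (nat_lit 32832) (.ev (nat_lit 1524) (nat_lit 1099511627776) (.ev (nat_lit 1716) (nat_lit 131072) (.nd (nat_lit
 3024) (.br (nat_lit 10) (.br (nat_lit 4) (.ch (nat_lit 2) (.ev (nat_lit 3040) (nat_lit 8796093286400) (.ev
 (nat_lit 3053) (nat_lit 16) .dd))) (.br (nat_lit 7) (.ch (nat_lit 4) (.ev (nat_lit 3040) (nat_lit
 8796093286416) .dd)) (.ch (nat_lit 7) (.ev (nat_lit 3040) (nat_lit 8796093024272) (.ev (nat_lit 3053) (nat_lit
 262144) .dd))))) (.br (nat_lit 12) (.ch (nat_lit 10) (.ev (nat_lit 3040) (nat_lit 262160) (.ev (nat_lit 3136)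
 (nat_lit 8796093024256) .dd))) (.br (nat_lit 15) (.ch (nat_lit 12) (.ev (nat_lit 3040) (nat_lit 8796093284368)
 (.ev (nat_lit 3053) (nat_lit 2048) .dd))) (.ch (nat_lit 15) (.ev (nat_lit 3040) (nat_lit 8796093286400) (.ev
 (nat_lit 3053) (nat_lit 16) .dd)))))))))))))))))) (.br (nat_lit 58) (.ch (nat_lit 57) (.ev (nat_lit 52)
 (nat_lit 1125899908942416) (.ev (nat_lit 320) (nat_lit 4583866929419264) .dd))) (.br (nat_lit 62) (.ch
 (nat_lit 58) (.ev (nat_lit 52) (nat_lit 1206165061271632) (.ev (nat_lit 212) (nat_lit 4096) (.ev (nat_lit 372)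
 (nat_lit 4503599627370496) (.ev (nat_lit 948) (nat_lit 2048) (.ev (nat_lit 1076) (nat_lit 1024) (.nd (nat_lit
 3024) (.br (nat_lit 10) (.br (nat_lit 7) (.ch (nat_lit 6) (.ev (nat_lit 3040) (nat_lit 2149581312) (.ev
 (nat_lit 3053) (nat_lit 131072) .dd))) (.br (nat_lit 9) (.ch (nat_lit 7) (.ev (nat_lit 3040) (nat_lit 131584)
 (.ev (nat_lit 3136) (nat_lit 2149580800) .dd))) (.ch (nat_lit 9) (.ev (nat_lit 3040) (nat_lit 2149711872) (.ev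
 (nat_lit 3053) (nat_lit 512) .dd))))) (.br (nat_lit 11) (.ch (nat_lit 10) (.ev (nat_lit 3040) (nat_lit
 2149581312) (.ev (nat_lit 3053) (nat_lit 131072) .dd))) (.br (nat_lit 12) (.ch (nat_lit 11) (.ev (nat_lit
 3040) (nat_lit 2149712384) .dd)) (.ch (nat_lit 12) (.ev (nat_lit 3040) (nat_lit 2147615232) (.ev (nat_lit
 3053) (nat_lit 2097152) .dd))))))))))))) (.ch (nat_lit 62) (.ev (nat_lit 52) (nat_lit 537302528) (.ev (nat_lit
 244) (nat_lit 8796093022208) (.ev (nat_lit 564) (nat_lit 70368744177664) (.ev (nat_lit 692) (nat_lit 64) (.ev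
 (nat_lit 1684) (nat_lit 1125899906842624) (.ev (nat_lit 2244) (nat_lit 2147483648) (.ev (nat_lit 2276)
 (nat_lit 2097152) (.ev (nat_lit 2608) (nat_lit 1099780063232) (.ev (nat_lit 2976) (nat_lit 4503599627370496)
 (.nd (nat_lit 3024) (.br (nat_lit 10) (.br (nat_lit 2) (.ch (nat_lit 1) (.ev (nat_lit 3040) (nat_lit 2048)
 (.ev (nat_lit 3053) (nat_lit 16) .dd))) (.br (nat_lit 7) (.ch (nat_lit 2) (.ev (nat_lit 3040) (nat_lit 2064)
 .dd)) (.ch (nat_lit 7) (.ev (nat_lit 3040) (nat_lit 2064) .dd)))) (.br (nat_lit 11) (.ch (nat_lit 10) (.ev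
 (nat_lit 3040) (nat_lit 16) (.ev (nat_lit 3053) (nat_lit 2048) .dd))) (.br (nat_lit 18) (.ch (nat_lit 11) (.ev
 (nat_lit 3040) (nat_lit 16) (.ev (nat_lit 3053) (nat_lit 2048) .dd))) (.ch (nat_lit 18) (.ev (nat_lit 3040)
 (nat_lit 2064) .dd))))))))))))))))))) (.br (nat_lit 68) (.br (nat_lit 65) (.ch (nat_lit 64) (.ev (nat_lit 52)
 (nat_lit 4575070567535680) (.ev (nat_lit 372) (nat_lit 131072) (.ev (nat_lit 756) (nat_lit 2048) (.ev (nat_lit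
 916) (nat_lit 262144) (.ev (nat_lit 1108) (nat_lit 16) (.ev (nat_lit 1428) (nat_lit 2097152) (.ev (nat_lit
 1696) (nat_lit 1134696268333568) .dd)))))))) (.br (nat_lit 67) (.ch (nat_lit 65) (.ev (nat_lit 52) (nat_lit
 4582766612449296) (.ev (nat_lit 564) (nat_lit 268435456) (.ev (nat_lit 800) (nat_lit 1126999957476928) .dd))))
 (.ch (nat_lit 67) (.ev (nat_lit 52) (nat_lit 80264617400384) (.ev (nat_lit 532) (nat_lit 1024) (.ev (nat_lit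
 1908) (nat_lit 2097152) (.ev (nat_lit 1940) (nat_lit 4503599627370496) (.ev (nat_lit 2132) (nat_lit 262144)
 (.ev (nat_lit 2212) (nat_lit 16) (.ev (nat_lit 2336) (nat_lit 1125900443746304) (.nd (nat_lit 3024) (.br
 (nat_lit 12) (.br (nat_lit 11) (.ch (nat_lit 9) (.ev (nat_lit 3040) (nat_lit 2147484160) .dd)) (.ch (nat_lit
 11) (.ev (nat_lit 3040) (nat_lit 2147483648) (.ev (nat_lit 3053) (nat_lit 512) .dd)))) (.br (nat_lit 15) (.ch
 (nat_lit 12) (.ev (nat_lit 3040) (nat_lit 2147484160) .dd)) (.ch (nat_lit 15) (.ev (nat_lit 3040) (nat_lit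
 512) (.ev (nat_lit 3053) (nat_lit 2147483648) .dd)))))))))))))))) (.br (nat_lit 69) (.ch (nat_lit 68) (.ev
 (nat_lit 52) (nat_lit 4575068422179856) (.ev (nat_lit 864) (nat_lit 1134698416181824) .dd))) (.br (nat_lit 70)
 (.ch (nat_lit 69) (.ev (nat_lit 52) (nat_lit 1197371117799504) (.ev (nat_lit 116) (nat_lit 4512395720392704)
 (.ev (nat_lit 308) (nat_lit 512) (.ev (nat_lit 340) (nat_lit 131072) (.ev (nat_lit 1108) (nat_lit 32768) (.ev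
 (nat_lit 2304) (nat_lit 5120) .dd))))))) (.ch (nat_lit 70) (.ev (nat_lit 52) (nat_lit 70369015107648) (.ev
 (nat_lit 436) (nat_lit 1099511627776) (.ev (nat_lit 768) (nat_lit 5638298311626256) .dd))))))))))))

/-- Subtrie. -/
noncomputable def T2 : Tr := (.ev (nat_lit 20) (nat_lit 89965340169216) (.nd (nat_lit 33) (.br (nat_lit 39)
 (.br (nat_lit 19) (.br (nat_lit 8) (.br (nat_lit 4) (.br (nat_lit 3) (.ch (nat_lit 1) (.ev (nat_lit 52)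
 (nat_lit 4789610106456160) (.ev (nat_lit 116) (nat_lit 16) (.ev (nat_lit 916) (nat_lit 4194304) (.ev (nat_lit
 980) (nat_lit 67108864) (.ev (nat_lit 1268) (nat_lit 8796093022208) (.ev (nat_lit 1588) (nat_lit
 1125899906842624) (.ev (nat_lit 1652) (nat_lit 562949953421312) (.ev (nat_lit 2100) (nat_lit 2199023255552)
 (.nd (nat_lit 3024) (.br (nat_lit 10) (.br (nat_lit 5) (.ch (nat_lit 0) (.ev (nat_lit 3040) (nat_lit
 140737488421376) .dd)) (.br (nat_lit 7) (.ch (nat_lit 5) (.ev (nat_lit 3040) (nat_lit 140737488420864) (.ev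
 (nat_lit 3053) (nat_lit 512) .dd))) (.ch (nat_lit 7) (.ev (nat_lit 3040) (nat_lit 140737488421376) .dd))))
 (.br (nat_lit 13) (.ch (nat_lit 10) (.ev (nat_lit 3040) (nat_lit 512) (.ev (nat_lit 3056) (nat_lit 65536) (.ev
 (nat_lit 3069) (nat_lit 140737488355328) .dd)))) (.br (nat_lit 15) (.ch (nat_lit 13) (.ev (nat_lit 3040)
 (nat_lit 140737488420864) (.ev (nat_lit 3053) (nat_lit 512) .dd))) (.ch (nat_lit 15) (.ev (nat_lit 3040)
 (nat_lit 140737488355840) (.ev (nat_lit 3053) (nat_lit 65536) .dd)))))))))))))))) (.ch (nat_lit 3) (.ev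
 (nat_lit 52) (nat_lit 4928011136797248) (.ev (nat_lit 308) (nat_lit 32) (.ev (nat_lit 596) (nat_lit 65536)
 (.ev (nat_lit 884) (nat_lit 1125899906842624) (.ev (nat_lit 1492) (nat_lit 4398046511104) (.ev (nat_lit 1812)
 (nat_lit 137438953472) (.nd (nat_lit 3024) (.br (nat_lit 12) (.br (nat_lit 7) (.ch (nat_lit 0) (.ev (nat_lit
 3040) (nat_lit 8796160131088) (.ev (nat_lit 3053) (nat_lit 562949953421312) .dd))) (.ch (nat_lit 7) (.ev
 (nat_lit 3040) (nat_lit 571746046443520) (.ev (nat_lit 3056) (nat_lit 67108864) (.ev (nat_lit 3069) (nat_lit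
 16) .dd))))) (.br (nat_lit 15) (.ch (nat_lit 12) (.ev (nat_lit 3040) (nat_lit 571746113552400) .dd)) (.br
 (nat_lit 16) (.ch (nat_lit 15) (.ev (nat_lit 3040) (nat_lit 571746046443536) (.ev (nat_lit 3053) (nat_lit
 67108864) .dd))) (.ch (nat_lit 16) (.ev (nat_lit 3040) (nat_lit 562950020530192) (.ev (nat_lit 3053) (nat_lit
 8796093022208) .dd))))))))))))))) (.br (nat_lit 5) (.ch (nat_lit 4) (.ev (nat_lit 52) (nat_lit
 5772573551952416) (.ev (nat_lit 180) (nat_lit 562949953421312) (.ev (nat_lit 404) (nat_lit 281474976710656)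
 (.ev (nat_lit 1716) (nat_lit 64) (.ev (nat_lit 2164) (nat_lit 16) (.ev (nat_lit 2276) (nat_lit 4194304) (.ev
 (nat_lit 2864) (nat_lit 16777216) (.nd (nat_lit 3024) (.br (nat_lit 10) (.br (nat_lit 6) (.ch (nat_lit 2) (.ev
 (nat_lit 3040) (nat_lit 13194139535360) (.ev (nat_lit 3053) (nat_lit 131072) .dd))) (.br (nat_lit 7) (.ch
 (nat_lit 6) (.ev (nat_lit 3040) (nat_lit 13194139535360) (.ev (nat_lit 3053) (nat_lit 131072) .dd))) (.ch
 (nat_lit 7) (.ev (nat_lit 3040) (nat_lit 13194139666432) .dd)))) (.br (nat_lit 11) (.ch (nat_lit 10) (.ev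
 (nat_lit 3040) (nat_lit 13194139666432) .dd)) (.br (nat_lit 12) (.ch (nat_lit 11) (.ev (nat_lit 3040) (nat_lit
 133120) (.ev (nat_lit 3056) (nat_lit 13194139533312) .dd))) (.ch (nat_lit 12) (.ev (nat_lit 3040) (nat_lit
 13194139664384) (.ev (nat_lit 3053) (nat_lit 2048) .dd))))))))))))))) (.br (nat_lit 7) (.ch (nat_lit 5) (.ev
 (nat_lit 52) (nat_lit 1548249878102032) (.ev (nat_lit 308) (nat_lit 65536) (.ev (nat_lit 564) (nat_lit
 2199023255552) (.ev (nat_lit 916) (nat_lit 4503599627370496) (.ev (nat_lit 1492) (nat_lit 562949953421312)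
 (.ev (nat_lit 1780) (nat_lit 8796093022208) (.ev (nat_lit 2036) (nat_lit 2048) (.ev (nat_lit 2212) (nat_lit
 32) (.ev (nat_lit 2832) (nat_lit 512) (.nd (nat_lit 3024) (.br (nat_lit 10) (.br (nat_lit 6) (.ch (nat_lit 2)
 (.ev (nat_lit 3040) (nat_lit 4398050705472) (.ev (nat_lit 3053) (nat_lit 16777216) .dd))) (.ch (nat_lit 6)
 (.ev (nat_lit 3040) (nat_lit 20971520) (.ev (nat_lit 3072) (nat_lit 4398046511168) .dd)))) (.br (nat_lit 13)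
 (.ch (nat_lit 10) (.ev (nat_lit 3040) (nat_lit 4398067482688) .dd)) (.ch (nat_lit 13) (.ev (nat_lit 3040)
 (nat_lit 4398063288384) (.ev (nat_lit 3053) (nat_lit 4194304) .dd)))))))))))))))) (.ch (nat_lit 7) (.ev
 (nat_lit 52) (nat_lit 6333324414945328) (.ev (nat_lit 596) (nat_lit 16777216) (.ev (nat_lit 756) (nat_lit 512)
 (.ev (nat_lit 1524) (nat_lit 4398046511104) (.ev (nat_lit 2496) (nat_lit 290271069732864) (.ev (nat_lit 2912)
 (nat_lit 64) (.nd (nat_lit 3024) (.br (nat_lit 10) (.br (nat_lit 6) (.ch (nat_lit 2) (.ev (nat_lit 3040)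
 (nat_lit 2199090364416) (.ev (nat_lit 3056) (nat_lit 65536) (.ev (nat_lit 3072) (nat_lit 4325376) .dd)))) (.ch
 (nat_lit 6) (.ev (nat_lit 3040) (nat_lit 2199094755328) .dd))) (.br (nat_lit 13) (.ch (nat_lit 10) (.ev
 (nat_lit 3040) (nat_lit 4259840) (.ev (nat_lit 3072) (nat_lit 2199023255552) (.ev (nat_lit 3120) (nat_lit
 67239936) .dd)))) (.ch (nat_lit 13) (.ev (nat_lit 3040) (nat_lit 2199094689792) (.ev (nat_lit 3053) (nat_lit
 65536) .dd)))))))))))))))) (.br (nat_lit 15) (.br (nat_lit 11) (.ch (nat_lit 8) (.ev (nat_lit 52) (nat_lit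
 4512395808473088) (.ev (nat_lit 628) (nat_lit 562949953421312) (.ev (nat_lit 820) (nat_lit 16) (.ev (nat_lit
 1012) (nat_lit 140737488355328) (.ev (nat_lit 1236) (nat_lit 64) (.ev (nat_lit 1268) (nat_lit 65536) (.ev
 (nat_lit 1332) (nat_lit 2199023255552) (.ev (nat_lit 2100) (nat_lit 2048) (.nd (nat_lit 3024) (.br (nat_lit 7)
 (.br (nat_lit 2) (.ch (nat_lit 0) (.ev (nat_lit 3040) (nat_lit 1411910369148960) (.ev (nat_lit 3053) (nat_lit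
 512) .dd))) (.ch (nat_lit 2) (.ev (nat_lit 3040) (nat_lit 1407512322638368) (.ev (nat_lit 3053) (nat_lit
 4398046511104) .dd)))) (.br (nat_lit 11) (.ch (nat_lit 7) (.ev (nat_lit 3040) (nat_lit 1411772930196000) (.ev
 (nat_lit 3053) (nat_lit 137438953472) .dd))) (.br (nat_lit 16) (.ch (nat_lit 11) (.ev (nat_lit 3040) (nat_lit
 4535485595680) (.ev (nat_lit 3088) (nat_lit 512) (.ev (nat_lit 3136) (nat_lit 1407374883553280) .dd)))) (.ch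
 (nat_lit 16) (.ev (nat_lit 3040) (nat_lit 1411910369018368) (.ev (nat_lit 3072) (nat_lit 131104)
 .dd)))))))))))))))) (.br (nat_lit 12) (.ch (nat_lit 11) (.ev (nat_lit 52) (nat_lit 574082525497408) (.ev
 (nat_lit 116) (nat_lit 4503599627370496) (.ev (nat_lit 404) (nat_lit 67108864) (.ev (nat_lit 884) (nat_lit
 4194304) (.ev (nat_lit 948) (nat_lit 281474976710656) (.ev (nat_lit 1076) (nat_lit 4398046511104) (.ev
 (nat_lit 1556) (nat_lit 140737488355328) (.ev (nat_lit 1588) (nat_lit 131072) (.ev (nat_lit 1748) (nat_lit 32)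
 (.nd (nat_lit 3024) (.br (nat_lit 12) (.br (nat_lit 5) (.ch (nat_lit 2) (.ev (nat_lit 3040) (nat_lit
 1125899906843136) (.ev (nat_lit 3053) (nat_lit 16) .dd))) (.br (nat_lit 7) (.ch (nat_lit 5) (.ev (nat_lit
 3040) (nat_lit 528) (.ev (nat_lit 3053) (nat_lit 1125899906842624) .dd))) (.ch (nat_lit 7) (.ev (nat_lit 3040)
 (nat_lit 1125899906843152) .dd)))) (.br (nat_lit 13) (.ch (nat_lit 12) (.ev (nat_lit 3040) (nat_lit
 1125899906843152) .dd)) (.br (nat_lit 15) (.ch (nat_lit 13) (.ev (nat_lit 3072) (nat_lit 1125899906842624)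
 (.ev (nat_lit 3104) (nat_lit 16) (.ev (nat_lit 3117) (nat_lit 512) .dd)))) (.ch (nat_lit 15) (.ev (nat_lit
 3040) (nat_lit 1125899906843152) .dd)))))))))))))))) (.ch (nat_lit 12) (.ev (nat_lit 52) (nat_lit
 4785074671389280) (.ev (nat_lit 372) (nat_lit 16) (.ev (nat_lit 832) (nat_lit 1845117971333120) .dd)))))) (.br
 (nat_lit 16) (.ch (nat_lit 15) (.ev (nat_lit 52) (nat_lit 433207669555808) (.ev (nat_lit 1044) (nat_lit
 562949953421312) (.ev (nat_lit 1556) (nat_lit 137438953472) (.ev (nat_lit 1716) (nat_lit 1125899906842624)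
 (.ev (nat_lit 2576) (nat_lit 4503599627370512) (.ev (nat_lit 2992) (nat_lit 2048) (.nd (nat_lit 3024) (.br
 (nat_lit 11) (.ch (nat_lit 7) (.ev (nat_lit 3040) (nat_lit 4398046576640) .dd)) (.br (nat_lit 13) (.ch
 (nat_lit 11) (.ev (nat_lit 3040) (nat_lit 65536) (.ev (nat_lit 3053) (nat_lit 4398046511104) .dd))) (.ch
 (nat_lit 13) (.ev (nat_lit 3040) (nat_lit 4398046511104) (.ev (nat_lit 3053) (nat_lit 65536) .dd)))))))))))))
 (.br (nat_lit 18) (.ch (nat_lit 16) (.ev (nat_lit 52) (nat_lit 6201383024003104) (.ev (nat_lit 180) (nat_lit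
 16777216) (.ev (nat_lit 992) (nat_lit 428809601942096) .dd)))) (.ch (nat_lit 18) (.ev (nat_lit 52) (nat_lit
 5638433150074960) (.ev (nat_lit 180) (nat_lit 65536) (.ev (nat_lit 500) (nat_lit 512) (.ev (nat_lit 532)
 (nat_lit 4398046511104) (.ev (nat_lit 852) (nat_lit 2048) (.ev (nat_lit 1044) (nat_lit 32) (.nd (nat_lit 3024)
 (.br (nat_lit 10) (.br (nat_lit 2) (.ch (nat_lit 0) (.ev (nat_lit 3040) (nat_lit 424411488452608) (.ev
 (nat_lit 3072) (nat_lit 4194304) (.ev (nat_lit 3085) (nat_lit 562949953421312) .dd)))) (.ch (nat_lit 2) (.ev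
 (nat_lit 3040) (nat_lit 985162418618368) (.ev (nat_lit 3056) (nat_lit 2199023255552) (.ev (nat_lit 3069)
 (nat_lit 4194304) .dd))))) (.br (nat_lit 12) (.ch (nat_lit 10) (.ev (nat_lit 3040) (nat_lit 142936511741952)
 (.ev (nat_lit 3072) (nat_lit 562949953421312) (.ev (nat_lit 3088) (nat_lit 281474980904960) .dd)))) (.br
 (nat_lit 16) (.ch (nat_lit 12) (.ev (nat_lit 3040) (nat_lit 846623957712896) (.ev (nat_lit 3053) (nat_lit
 140737488355328) .dd))) (.ch (nat_lit 16) (.ev (nat_lit 3040) (nat_lit 705886469226496) (.ev (nat_lit 3056)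
 (nat_lit 131072) (.ev (nat_lit 3069) (nat_lit 281474976710656) .dd))))))))))))))))))) (.br (nat_lit 29) (.br
 (nat_lit 23) (.br (nat_lit 22) (.ch (nat_lit 19) (.ev (nat_lit 52) (nat_lit 573945069897728) (.ev (nat_lit
 660) (nat_lit 16) (.ev (nat_lit 692) (nat_lit 4398046511104) (.ev (nat_lit 724) (nat_lit 4194304) (.ev
 (nat_lit 756) (nat_lit 140737488355328) (.ev (nat_lit 1812) (nat_lit 281474976710656) (.ev (nat_lit 2176)
 (nat_lit 5629499550990368) (.ev (nat_lit 2432) (nat_lit 576) (.nd (nat_lit 3024) (.ch (nat_lit 15) (.fin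
 (nat_lit 576465700104127044))))))))))))) (.ch (nat_lit 22) (.ev (nat_lit 52) (nat_lit 2117796850827776) (.ev
 (nat_lit 84) (nat_lit 4503599627370496) (.ev (nat_lit 212) (nat_lit 67110912) (.ev (nat_lit 340) (nat_lit 16)
 (.ev (nat_lit 884) (nat_lit 64) (.ev (nat_lit 1620) (nat_lit 4194304) (.ev (nat_lit 2800) (nat_lit 131072)
 (.nd (nat_lit 3024) (.br (nat_lit 12) (.br (nat_lit 11) (.ch (nat_lit 2) (.ev (nat_lit 3040) (nat_lit
 8796093087776) .dd)) (.ch (nat_lit 11) (.ev (nat_lit 3040) (nat_lit 32) (.ev (nat_lit 3072) (nat_lit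
 8796093022208) (.ev (nat_lit 3085) (nat_lit 65536) .dd))))) (.br (nat_lit 15) (.ch (nat_lit 12) (.ev (nat_lit
 3040) (nat_lit 8796093087776) .dd)) (.br (nat_lit 16) (.ch (nat_lit 15) (.ev (nat_lit 3040) (nat_lit 65536)
 (.ev (nat_lit 3056) (nat_lit 32) (.ev (nat_lit 3069) (nat_lit 8796093022208) .dd)))) (.ch (nat_lit 16) (.ev
 (nat_lit 3040) (nat_lit 65568) (.ev (nat_lit 3053) (nat_lit 8796093022208) .dd)))))))))))))))) (.br (nat_lit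
 24) (.ch (nat_lit 23) (.ev (nat_lit 52) (nat_lit 6067242601155136) (.ev (nat_lit 852) (nat_lit 67108864) (.ev
 (nat_lit 1108) (nat_lit 562949953421312) (.ev (nat_lit 1844) (nat_lit 32) (.ev (nat_lit 2224) (nat_lit
 20971536) (.ev (nat_lit 2237) (nat_lit 65536) .dd))))))) (.br (nat_lit 26) (.ch (nat_lit 24) (.ev (nat_lit 52)
 (nat_lit 1563505534763552) (.ev (nat_lit 276) (nat_lit 67108864) (.ev (nat_lit 340) (nat_lit 4194304) (.ev
 (nat_lit 404) (nat_lit 2048) (.ev (nat_lit 1280) (nat_lit 5066687036653648) .dd)))))) (.ch (nat_lit 26) (.ev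
 (nat_lit 52) (nat_lit 5211822559002640) (.ev (nat_lit 84) (nat_lit 64) (.ev (nat_lit 148) (nat_lit 512) (.ev
 (nat_lit 596) (nat_lit 32) (.ev (nat_lit 724) (nat_lit 1125899906842624) (.ev (nat_lit 1012) (nat_lit
 281474976710656) (.ev (nat_lit 1172) (nat_lit 16777216) (.ev (nat_lit 1684) (nat_lit 67108864) (.ev (nat_lit
 2080) (nat_lit 8796093024256) (.ev (nat_lit 2093) (nat_lit 2199023255552) .dd)))))))))))))) (.br (nat_lit 34)
 (.br (nat_lit 31) (.ch (nat_lit 29) (.ev (nat_lit 52) (nat_lit 4785074692161616) (.ev (nat_lit 384) (nat_lit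
 1845117950560800) .dd))) (.br (nat_lit 33) (.ch (nat_lit 31) (.ev (nat_lit 52) (nat_lit 1416170976641648) (.ev
 (nat_lit 212) (nat_lit 2199023255552) (.ev (nat_lit 372) (nat_lit 4194304) (.ev (nat_lit 928) (nat_lit
 5211822638630912) .dd))))) (.ch (nat_lit 33) (.ev (nat_lit 52) (nat_lit 5079743804211312) (.ev (nat_lit 276)
 (nat_lit 512) (.ev (nat_lit 468) (nat_lit 2199023255552) (.ev (nat_lit 852) (nat_lit 281474976710656) (.ev
 (nat_lit 1012) (nat_lit 2048) (.ev (nat_lit 1140) (nat_lit 140737488355328) (.ev (nat_lit 1664) (nat_lit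
 1126037350187008) .dd)))))))))) (.br (nat_lit 36) (.ch (nat_lit 34) (.ev (nat_lit 52) (nat_lit
 4925812176453648) (.ev (nat_lit 244) (nat_lit 64) (.ev (nat_lit 404) (nat_lit 2199023255552) (.ev (nat_lit
 500) (nat_lit 137438953472) (.ev (nat_lit 532) (nat_lit 562949953421312) (.ev (nat_lit 1012) (nat_lit 512)
 (.ev (nat_lit 1204) (nat_lit 2048) (.ev (nat_lit 1876) (nat_lit 8796093022208) (.nd (nat_lit 3024) (.br
 (nat_lit 10) (.br (nat_lit 5) (.ch (nat_lit 2) (.ev (nat_lit 3040) (nat_lit 1125899906842656) (.ev (nat_lit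
 3088) (nat_lit 4194304) (.ev (nat_lit 3120) (nat_lit 4398046576640) .dd)))) (.ch (nat_lit 5) (.ev (nat_lit
 3040) (nat_lit 4398050770976) (.ev (nat_lit 3053) (nat_lit 1125899906842624) .dd)))) (.br (nat_lit 13) (.ch
 (nat_lit 10) (.ev (nat_lit 3040) (nat_lit 1130297953419296) (.ev (nat_lit 3053) (nat_lit 4194304) .dd))) (.ch
 (nat_lit 13) (.ev (nat_lit 3040) (nat_lit 4259840) (.ev (nat_lit 3088) (nat_lit 1125899906842624) (.ev
 (nat_lit 3120) (nat_lit 4398046511136) .dd)))))))))))))))) (.br (nat_lit 38) (.ch (nat_lit 36) (.ev (nat_lit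
 52) (nat_lit 1834122905389632) (.ev (nat_lit 436) (nat_lit 65536) (.ev (nat_lit 564) (nat_lit 281474976710656)
 (.ev (nat_lit 1524) (nat_lit 8796093022208) (.nd (nat_lit 3024) (.br (nat_lit 13) (.br (nat_lit 2) (.ch
 (nat_lit 0) (.ev (nat_lit 3040) (nat_lit 4505798667534352) (.ev (nat_lit 3053) (nat_lit 32) .dd))) (.ch
 (nat_lit 2) (.ev (nat_lit 3040) (nat_lit 2199023255584) (.ev (nat_lit 3056) (nat_lit 16) (.ev (nat_lit 3088)
 (nat_lit 16777216) (.ev (nat_lit 3104) (nat_lit 131072) (.ev (nat_lit 3117) (nat_lit 4503599627370496)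
 .dd))))))) (.br (nat_lit 15) (.ch (nat_lit 13) (.ev (nat_lit 3040) (nat_lit 4505798667534368) (.ev (nat_lit
 3053) (nat_lit 16) .dd))) (.br (nat_lit 16) (.ch (nat_lit 15) (.ev (nat_lit 3040) (nat_lit 4505798667403280)
 (.ev (nat_lit 3056) (nat_lit 131104) .dd))) (.ch (nat_lit 16) (.ev (nat_lit 3040) (nat_lit 4503599644278800)
 (.ev (nat_lit 3056) (nat_lit 2199023255584) .dd)))))))))))) (.ch (nat_lit 38) (.ev (nat_lit 52) (nat_lit
 296868206610960) (.ev (nat_lit 116) (nat_lit 64) (.ev (nat_lit 148) (nat_lit 137438953472) (.ev (nat_lit 180)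
 (nat_lit 32) (.ev (nat_lit 660) (nat_lit 4503599627370496) (.ev (nat_lit 788) (nat_lit 4194304) (.ev (nat_lit
 916) (nat_lit 131072) (.ev (nat_lit 2004) (nat_lit 1125899906842624) (.ev (nat_lit 2816) (nat_lit
 140737488355328) (.nd (nat_lit 3024) (.br (nat_lit 11) (.br (nat_lit 7) (.ch (nat_lit 2) (.ev (nat_lit 3040)
 (nat_lit 562949953421312) (.ev (nat_lit 3056) (nat_lit 16777216) (.ev (nat_lit 3069) (nat_lit 65536) .dd))))
 (.ch (nat_lit 7) (.ev (nat_lit 3040) (nat_lit 562949970264064) .dd))) (.br (nat_lit 13) (.ch (nat_lit 11) (.ev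
 (nat_lit 3040) (nat_lit 562949970264064) .dd)) (.br (nat_lit 15) (.ch (nat_lit 13) (.ev (nat_lit 3040)
 (nat_lit 562949970198528) (.ev (nat_lit 3053) (nat_lit 65536) .dd))) (.ch (nat_lit 15) (.ev (nat_lit 3040)
 (nat_lit 16777216) (.ev (nat_lit 3072) (nat_lit 65536) (.ev (nat_lit 3085) (nat_lit 562949953421312)
 .dd))))))))))))))))))))))) (.br (nat_lit 54) (.br (nat_lit 47) (.br (nat_lit 43) (.br (nat_lit 42) (.ch
 (nat_lit 39) (.ev (nat_lit 52) (nat_lit 4516931226829424) (.ev (nat_lit 212) (nat_lit 140737488355328) (.ev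
 (nat_lit 788) (nat_lit 1125899906842624) (.ev (nat_lit 948) (nat_lit 2199023255552) (.ev (nat_lit 1536)
 (nat_lit 844424997439488) .dd)))))) (.ch (nat_lit 42) (.ev (nat_lit 52) (nat_lit 296868160538736) (.ev
 (nat_lit 372) (nat_lit 4503599627370496) (.ev (nat_lit 500) (nat_lit 67108864) (.ev (nat_lit 660) (nat_lit
 131072) (.ev (nat_lit 948) (nat_lit 137438953472) (.ev (nat_lit 1460) (nat_lit 1125899906842624) (.ev (nat_lit
 2672) (nat_lit 562949953421312) (.nd (nat_lit 3024) (.br (nat_lit 10) (.br (nat_lit 6) (.ch (nat_lit 5) (.ev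
 (nat_lit 3040) (nat_lit 512) (.ev (nat_lit 3053) (nat_lit 140737488355328) .dd))) (.br (nat_lit 7) (.ch
 (nat_lit 6) (.ev (nat_lit 3040) (nat_lit 140737488355840) .dd)) (.ch (nat_lit 7) (.ev (nat_lit 3040) (nat_lit
 140737488355840) .dd)))) (.br (nat_lit 11) (.ch (nat_lit 10) (.ev (nat_lit 3040) (nat_lit 140737488355840)
 .dd)) (.br (nat_lit 16) (.ch (nat_lit 11) (.ev (nat_lit 3040) (nat_lit 140737488355328) (.ev (nat_lit 3053)
 (nat_lit 512) .dd))) (.ch (nat_lit 16) (.ev (nat_lit 3040) (nat_lit 512) (.ev (nat_lit 3053) (nat_lit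
 140737488355328) .dd)))))))))))))))) (.br (nat_lit 44) (.ch (nat_lit 43) (.ev (nat_lit 52) (nat_lit
 5213884206153728) (.ev (nat_lit 256) (nat_lit 1416308436568688) .dd))) (.br (nat_lit 46) (.ch (nat_lit 44)
 (.ev (nat_lit 52) (nat_lit 985162502572048) (.ev (nat_lit 276) (nat_lit 2199023255552) (.ev (nat_lit 596)
 (nat_lit 4398046511104) (.ev (nat_lit 960) (nat_lit 5638433070383712) .dd))))) (.ch (nat_lit 46) (.ev (nat_lit
 52) (nat_lit 6597086742544) (.ev (nat_lit 84) (nat_lit 4194304) (.ev (nat_lit 212) (nat_lit 137438953472) (.ev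
 (nat_lit 340) (nat_lit 64) (.ev (nat_lit 820) (nat_lit 1125899906842624) (.ev (nat_lit 1120) (nat_lit
 5497558205989408) .dd)))))))))) (.br (nat_lit 50) (.br (nat_lit 48) (.ch (nat_lit 47) (.ev (nat_lit 52)
 (nat_lit 1409711366736384) (.ev (nat_lit 116) (nat_lit 131072) (.ev (nat_lit 148) (nat_lit 67108864) (.ev
 (nat_lit 468) (nat_lit 140737488355328) (.ev (nat_lit 692) (nat_lit 562949953421312) (.ev (nat_lit 1364)
 (nat_lit 64) (.ev (nat_lit 1460) (nat_lit 4503599627370512) (.ev (nat_lit 1780) (nat_lit 65536) (.ev (nat_lit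
 2048) (nat_lit 8796093022240) (.ev (nat_lit 2061) (nat_lit 4398046511104) .dd))))))))))) (.br (nat_lit 49)
 (.ch (nat_lit 48) (.ev (nat_lit 52) (nat_lit 5354621631463456) (.ev (nat_lit 276) (nat_lit 140737488355328)
 (.ev (nat_lit 480) (nat_lit 1134833522903632) .dd)))) (.ch (nat_lit 49) (.ev (nat_lit 52) (nat_lit
 1829724804352544) (.ev (nat_lit 148) (nat_lit 281474976710656) (.ev (nat_lit 660) (nat_lit 4194304) (.ev
 (nat_lit 788) (nat_lit 131072) (.ev (nat_lit 1204) (nat_lit 67108864) (.ev (nat_lit 1428) (nat_lit 64) (.ev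
 (nat_lit 3008) (nat_lit 2199023255552) (.nd (nat_lit 3024) (.br (nat_lit 10) (.br (nat_lit 2) (.ch (nat_lit 0)
 (.ev (nat_lit 3040) (nat_lit 4512395720458256) (.ev (nat_lit 3053) (nat_lit 4398046511104) .dd))) (.ch
 (nat_lit 2) (.ev (nat_lit 3040) (nat_lit 8796093087744) (.ev (nat_lit 3056) (nat_lit 4398046511104) (.ev
 (nat_lit 3088) (nat_lit 16) (.ev (nat_lit 3101) (nat_lit 4503599627370496) .dd)))))) (.br (nat_lit 11) (.ch
 (nat_lit 10) (.ev (nat_lit 3040) (nat_lit 13194139533328) (.ev (nat_lit 3056) (nat_lit 4503599627436032)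
 .dd))) (.br (nat_lit 15) (.ch (nat_lit 11) (.ev (nat_lit 3040) (nat_lit 4516793766903824) (.ev (nat_lit 3053)
 (nat_lit 65536) .dd))) (.ch (nat_lit 15) (.ev (nat_lit 3040) (nat_lit 4507997673881616) (.ev (nat_lit 3056)
 (nat_lit 8796093087744) .dd))))))))))))))))) (.br (nat_lit 51) (.ch (nat_lit 50) (.ev (nat_lit 52) (nat_lit
 4655332299309568) (.ev (nat_lit 244) (nat_lit 4194304) (.ev (nat_lit 372) (nat_lit 1125899906842624) (.ev
 (nat_lit 884) (nat_lit 16) (.ev (nat_lit 1076) (nat_lit 16777216) (.ev (nat_lit 1460) (nat_lit 64) (.ev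
 (nat_lit 1524) (nat_lit 562949953421312) (.ev (nat_lit 1748) (nat_lit 4398046511104) (.nd (nat_lit 3024) (.br
 (nat_lit 11) (.br (nat_lit 7) (.ch (nat_lit 6) (.ev (nat_lit 3040) (nat_lit 281474976712736) (.ev (nat_lit
 3053) (nat_lit 137438953472) .dd))) (.ch (nat_lit 7) (.ev (nat_lit 3040) (nat_lit 281612415666208) .dd))) (.br
 (nat_lit 12) (.ch (nat_lit 11) (.ev (nat_lit 3040) (nat_lit 137438955552) (.ev (nat_lit 3053) (nat_lit
 281474976710656) .dd))) (.br (nat_lit 15) (.ch (nat_lit 12) (.ev (nat_lit 3040) (nat_lit 281612415666176) (.ev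
 (nat_lit 3053) (nat_lit 32) .dd))) (.ch (nat_lit 15) (.ev (nat_lit 3040) (nat_lit 281474976710688) (.ev
 (nat_lit 3056) (nat_lit 137438953472) (.ev (nat_lit 3069) (nat_lit 2048) .dd))))))))))))))))) (.br (nat_lit
 53) (.ch (nat_lit 51) (.ev (nat_lit 52) (nat_lit 4941342698438672) (.ev (nat_lit 724) (nat_lit 64) (.ev
 (nat_lit 948) (nat_lit 67108864) (.ev (nat_lit 1312) (nat_lit 1688849877174816) .dd))))) (.ch (nat_lit 53)
 (.ev (nat_lit 52) (nat_lit 4512395804410464) (.ev (nat_lit 84) (nat_lit 1125899906842624) (.ev (nat_lit 148)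
 (nat_lit 140737488355328) (.ev (nat_lit 212) (nat_lit 281474976710656) (.ev (nat_lit 1012) (nat_lit
 137438953472) (.ev (nat_lit 2212) (nat_lit 562949953421312) (.ev (nat_lit 2324) (nat_lit 16) (.ev (nat_lit
 2512) (nat_lit 67584) (.ev (nat_lit 2964) (nat_lit 2199023255552) (.nd (nat_lit 3024) (.br (nat_lit 12) (.br
 (nat_lit 5) (.ch (nat_lit 2) (.ev (nat_lit 3040) (nat_lit 4194304) (.ev (nat_lit 3053) (nat_lit 4398046511104)
 .dd))) (.br (nat_lit 7) (.ch (nat_lit 5) (.ev (nat_lit 3040) (nat_lit 4194304) (.ev (nat_lit 3053) (nat_lit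
 4398046511104) .dd))) (.ch (nat_lit 7) (.ev (nat_lit 3040) (nat_lit 4398050705408) .dd)))) (.br (nat_lit 13)
 (.ch (nat_lit 12) (.ev (nat_lit 3040) (nat_lit 4398050705408) .dd)) (.br (nat_lit 16) (.ch (nat_lit 13) (.ev
 (nat_lit 3040) (nat_lit 4398046511104) (.ev (nat_lit 3053) (nat_lit 4194304) .dd))) (.ch (nat_lit 16) (.ev
 (nat_lit 3040) (nat_lit 4398050705408) .dd)))))))))))))))))))) (.br (nat_lit 64) (.br (nat_lit 57) (.br
 (nat_lit 55) (.ch (nat_lit 54) (.ev (nat_lit 52) (nat_lit 1134696021033472) (.ev (nat_lit 192) (nat_lit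
 5495496621688944) .dd))) (.ch (nat_lit 55) (.ev (nat_lit 52) (nat_lit 565286482805280) (.ev (nat_lit 448)
 (nat_lit 6064906159917136) .dd)))) (.br (nat_lit 58) (.ch (nat_lit 57) (.ev (nat_lit 52) (nat_lit
 1411772951104112) (.ev (nat_lit 148) (nat_lit 2199023255552) (.ev (nat_lit 340) (nat_lit 4503599627370496)
 (.ev (nat_lit 436) (nat_lit 562949953421312) (.ev (nat_lit 1792) (nat_lit 149671087570944) .dd)))))) (.br
 (nat_lit 62) (.ch (nat_lit 58) (.ev (nat_lit 52) (nat_lit 1136895023186000) (.ev (nat_lit 128) (nat_lit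
 5493297619536416) .dd))) (.ch (nat_lit 62) (.ev (nat_lit 52) (nat_lit 569684533576192) (.ev (nat_lit 468)
 (nat_lit 281474976710656) (.ev (nat_lit 544) (nat_lit 5779033132435568) .dd))))))) (.br (nat_lit 68) (.br
 (nat_lit 65) (.ch (nat_lit 64) (.ev (nat_lit 52) (nat_lit 4648872618033248) (.ev (nat_lit 180) (nat_lit
 8796093022208) (.ev (nat_lit 244) (nat_lit 131072) (.ev (nat_lit 500) (nat_lit 2199023255552) (.ev (nat_lit
 724) (nat_lit 16) (.ev (nat_lit 756) (nat_lit 281474976710656) (.ev (nat_lit 1300) (nat_lit 67108864) (.ev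
 (nat_lit 1332) (nat_lit 512) (.ev (nat_lit 2480) (nat_lit 4196352) (.ev (nat_lit 2950) (nat_lit
 1125899906842624) (.ev (nat_lit 2957) (nat_lit 562949953421312) .dd)))))))))))) (.br (nat_lit 67) (.ch
 (nat_lit 65) (.ev (nat_lit 52) (nat_lit 4939006316054576) (.ev (nat_lit 308) (nat_lit 562949953421312) (.ev
 (nat_lit 980) (nat_lit 512) (.ev (nat_lit 1140) (nat_lit 137438953472) (.ev (nat_lit 1236) (nat_lit
 1125899906842624) (.ev (nat_lit 2016) (nat_lit 2199027449920) .dd))))))) (.ch (nat_lit 67) (.ev (nat_lit 52)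
 (nat_lit 857756508751936) (.ev (nat_lit 244) (nat_lit 16) (.ev (nat_lit 1140) (nat_lit 512) (.ev (nat_lit
 1364) (nat_lit 4194304) (.ev (nat_lit 1396) (nat_lit 65536) (.ev (nat_lit 1812) (nat_lit 67108864) (.ev
 (nat_lit 2592) (nat_lit 1128098930098176) (.nd (nat_lit 3024) (.br (nat_lit 7) (.br (nat_lit 2) (.ch (nat_lit
 0) (.ev (nat_lit 3040) (nat_lit 4644337132503072) .dd)) (.br (nat_lit 6) (.ch (nat_lit 2) (.ev (nat_lit 3040)
 (nat_lit 140737505132576) (.ev (nat_lit 3053) (nat_lit 4503599627370496) .dd))) (.ch (nat_lit 6) (.ev (nat_lit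
 3040) (nat_lit 4644337132503040) (.ev (nat_lit 3053) (nat_lit 32) .dd))))) (.br (nat_lit 10) (.ch (nat_lit 7)
 (.ev (nat_lit 3040) (nat_lit 4644337132503072) .dd)) (.br (nat_lit 12) (.ch (nat_lit 10) (.ev (nat_lit 3040)
 (nat_lit 16777248) (.ev (nat_lit 3104) (nat_lit 4503599627370496) (.ev (nat_lit 3117) (nat_lit
 140737488355328) .dd)))) (.ch (nat_lit 12) (.ev (nat_lit 3040) (nat_lit 4644337115725856) (.ev (nat_lit 3053)
 (nat_lit 16777216) .dd))))))))))))))))) (.br (nat_lit 69) (.ch (nat_lit 68) (.ev (nat_lit 52) (nat_lit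
 4505936177661968) (.ev (nat_lit 372) (nat_lit 64) (.ev (nat_lit 736) (nat_lit 2124256465060384) .dd)))) (.br
 (nat_lit 70) (.ch (nat_lit 69) (.ev (nat_lit 52) (nat_lit 1829587419924592) (.ev (nat_lit 404) (nat_lit 512)
 (.ev (nat_lit 628) (nat_lit 8796093022208) (.ev (nat_lit 1140) (nat_lit 281474976710656) (.ev (nat_lit 1184)
 (nat_lit 4510334153064448) .dd)))))) (.ch (nat_lit 70) (.ev (nat_lit 52) (nat_lit 140737492746304) (.ev
 (nat_lit 436) (nat_lit 4398046511104) (.ev (nat_lit 1268) (nat_lit 32) (.ev (nat_lit 1364) (nat_lit 16) (.ev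
 (nat_lit 1492) (nat_lit 16777216) (.ev (nat_lit 1556) (nat_lit 2199023255552) (.ev (nat_lit 1940) (nat_lit
 4503599627370496) (.ev (nat_lit 2464) (nat_lit 1688849860264448) (.nd (nat_lit 3024) (.br (nat_lit 6) (.br
 (nat_lit 2) (.ch (nat_lit 0) (.ev (nat_lit 3040) (nat_lit 8933599084544) (.ev (nat_lit 3088) (nat_lit
 281474976712704) .dd))) (.ch (nat_lit 2) (.ev (nat_lit 3040) (nat_lit 290408575797248) .dd))) (.br (nat_lit
 11) (.ch (nat_lit 6) (.ev (nat_lit 3040) (nat_lit 290408575797248) .dd)) (.br (nat_lit 15) (.ch (nat_lit 11)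
 (.ev (nat_lit 3040) (nat_lit 281612482775040) (.ev (nat_lit 3053) (nat_lit 8796093022208) .dd))) (.ch (nat_lit
 15) (.ev (nat_lit 3040) (nat_lit 281474976712704) (.ev (nat_lit 3104) (nat_lit 8796093022208) (.fin (nat_lit
 576465700104127044))))))))))))))))))))))))))

/-- Subtrie. -/
noncomputable def T8 : Tr := (.ev (nat_lit 20) (nat_lit 1634014488171520) (.nd (nat_lit 33) (.br (nat_lit 39)
 (.br (nat_lit 19) (.br (nat_lit 8) (.br (nat_lit 4) (.br (nat_lit 3) (.ch (nat_lit 1) (.ev (nat_lit 52)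
 (nat_lit 4504492980701280) (.ev (nat_lit 532) (nat_lit 65536) (.ev (nat_lit 596) (nat_lit 562949953421312)
 (.ev (nat_lit 788) (nat_lit 16) (.ev (nat_lit 1172) (nat_lit 1099511627776) (.ev (nat_lit 1204) (nat_lit 512)
 (.ev (nat_lit 1460) (nat_lit 268435456) (.ev (nat_lit 1620) (nat_lit 262144) (.ev (nat_lit 2068) (nat_lit
 32768) (.nd (nat_lit 3024) (.br (nat_lit 13) (.br (nat_lit 8) (.ch (nat_lit 4) (.ev (nat_lit 3040) (nat_lit
 17600780173312) .dd)) (.br (nat_lit 10) (.ch (nat_lit 8) (.ev (nat_lit 3040) (nat_lit 17592190238720) (.ev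
 (nat_lit 3053) (nat_lit 8589934592) .dd))) (.ch (nat_lit 10) (.ev (nat_lit 3040) (nat_lit 8594128896) (.ev
 (nat_lit 3053) (nat_lit 17592186044416) .dd))))) (.br (nat_lit 16) (.ch (nat_lit 13) (.ev (nat_lit 3040)
 (nat_lit 17592186044416) (.ev (nat_lit 3056) (nat_lit 8589934592) (.ev (nat_lit 3069) (nat_lit 4194304)
 .dd)))) (.br (nat_lit 18) (.ch (nat_lit 16) (.ev (nat_lit 3040) (nat_lit 17600780173312) .dd)) (.ch (nat_lit
 18) (.ev (nat_lit 3040) (nat_lit 8594128896) (.ev (nat_lit 3053) (nat_lit 17592186044416) .dd)))))))))))))))))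
 (.ch (nat_lit 3) (.ev (nat_lit 52) (nat_lit 4521191817775680) (.ev (nat_lit 340) (nat_lit 68719476736) (.ev
 (nat_lit 372) (nat_lit 262144) (.ev (nat_lit 820) (nat_lit 268435456) (.ev (nat_lit 1088) (nat_lit
 564882688770096) .dd))))))) (.br (nat_lit 5) (.ch (nat_lit 4) (.ev (nat_lit 52) (nat_lit 4522635190927904)
 (.ev (nat_lit 276) (nat_lit 131072) (.ev (nat_lit 308) (nat_lit 64) (.ev (nat_lit 596) (nat_lit 8589934592)
 (.ev (nat_lit 724) (nat_lit 262144) (.ev (nat_lit 1204) (nat_lit 2048) (.ev (nat_lit 1824) (nat_lit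
 563499713462288) .dd)))))))) (.br (nat_lit 7) (.ch (nat_lit 5) (.ev (nat_lit 52) (nat_lit 19035563622416) (.ev
 (nat_lit 244) (nat_lit 32) (.ev (nat_lit 308) (nat_lit 4194304) (.ev (nat_lit 576) (nat_lit 5067107926903360)
 .dd))))) (.ch (nat_lit 7) (.ev (nat_lit 52) (nat_lit 5068276157941808) (.ev (nat_lit 180) (nat_lit 4194304)
 (.ev (nat_lit 404) (nat_lit 512) (.ev (nat_lit 948) (nat_lit 274877906944) (.ev (nat_lit 1856) (nat_lit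
 17592454676544) .dd))))))))) (.br (nat_lit 15) (.br (nat_lit 11) (.ch (nat_lit 8) (.ev (nat_lit 52) (nat_lit
 4523124821622784) (.ev (nat_lit 468) (nat_lit 512) (.ev (nat_lit 724) (nat_lit 16) (.ev (nat_lit 1044)
 (nat_lit 562949953421312) (.ev (nat_lit 1588) (nat_lit 32) (.ev (nat_lit 1760) (nat_lit 68719675456)
 .dd))))))) (.br (nat_lit 12) (.ch (nat_lit 11) (.ev (nat_lit 52) (nat_lit 564676799072320) (.ev (nat_lit 756)
 (nat_lit 131072) (.ev (nat_lit 1108) (nat_lit 17592186044416) (.ev (nat_lit 1472) (nat_lit 4503874509472304)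
 .dd))))) (.ch (nat_lit 12) (.ev (nat_lit 52) (nat_lit 4521192082344544) (.ev (nat_lit 244) (nat_lit 16) (.ev
 (nat_lit 308) (nat_lit 562949953421312) (.ev (nat_lit 1108) (nat_lit 8589934592) (.ev (nat_lit 1140) (nat_lit
 274877906944) (.ev (nat_lit 1780) (nat_lit 1099511627776) (.nd (nat_lit 3024) (.br (nat_lit 13) (.br (nat_lit
 6) (.ch (nat_lit 3) (.ev (nat_lit 3040) (nat_lit 549760008192) (.ev (nat_lit 3053) (nat_lit 68719476736)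
 .dd))) (.br (nat_lit 8) (.ch (nat_lit 6) (.ev (nat_lit 3040) (nat_lit 618475290624) (.ev (nat_lit 3053)
 (nat_lit 4194304) .dd))) (.ch (nat_lit 8) (.ev (nat_lit 3040) (nat_lit 618479484928) .dd)))) (.br (nat_lit 14)
 (.ch (nat_lit 13) (.ev (nat_lit 3040) (nat_lit 618479484928) .dd)) (.br (nat_lit 16) (.ch (nat_lit 14) (.ev
 (nat_lit 3072) (nat_lit 4194304) (.ev (nat_lit 3104) (nat_lit 68719476736) (.ev (nat_lit 3117) (nat_lit
 549755813888) .dd)))) (.ch (nat_lit 16) (.ev (nat_lit 3040) (nat_lit 618479484928) .dd))))))))))))))) (.br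
 (nat_lit 16) (.ch (nat_lit 15) (.ev (nat_lit 52) (nat_lit 68724097632) (.ev (nat_lit 340) (nat_lit 16) (.ev
 (nat_lit 564) (nat_lit 4503599627370496) (.ev (nat_lit 628) (nat_lit 562949953421312) (.ev (nat_lit 1748)
 (nat_lit 1099511627776) (.ev (nat_lit 1876) (nat_lit 65536) (.ev (nat_lit 2384) (nat_lit 558345748480) (.nd
 (nat_lit 3024) (.br (nat_lit 10) (.br (nat_lit 6) (.ch (nat_lit 3) (.ev (nat_lit 3040) (nat_lit
 17867332386816) (.ev (nat_lit 3053) (nat_lit 2048) .dd))) (.br (nat_lit 8) (.ch (nat_lit 6) (.ev (nat_lit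
 3040) (nat_lit 275146344448) (.ev (nat_lit 3053) (nat_lit 17592186044416) .dd))) (.ch (nat_lit 8) (.ev
 (nat_lit 3040) (nat_lit 17867063953408) (.ev (nat_lit 3053) (nat_lit 268435456) .dd))))) (.br (nat_lit 13)
 (.ch (nat_lit 10) (.ev (nat_lit 3040) (nat_lit 17867063953408) (.ev (nat_lit 3053) (nat_lit 268435456) .dd)))
 (.br (nat_lit 14) (.ch (nat_lit 13) (.ev (nat_lit 3040) (nat_lit 17592454479872) (.ev (nat_lit 3104) (nat_lit
 2048) (.ev (nat_lit 3117) (nat_lit 274877906944) .dd)))) (.ch (nat_lit 14) (.ev (nat_lit 3040) (nat_lit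
 17867332388864) .dd)))))))))))))) (.br (nat_lit 18) (.ch (nat_lit 16) (.ev (nat_lit 52) (nat_lit
 5067649097074720) (.ev (nat_lit 116) (nat_lit 68719476736) (.ev (nat_lit 148) (nat_lit 512) (.ev (nat_lit
 1024) (nat_lit 18425678168144) .dd))))) (.ch (nat_lit 18) (.ev (nat_lit 52) (nat_lit 4521544269201488) (.ev
 (nat_lit 788) (nat_lit 32) (.ev (nat_lit 1140) (nat_lit 131072) (.ev (nat_lit 2068) (nat_lit 512) (.nd
 (nat_lit 3024) (.br (nat_lit 15) (.br (nat_lit 9) (.ch (nat_lit 3) (.ev (nat_lit 3040) (nat_lit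
 564599225122816) (.ev (nat_lit 3072) (nat_lit 264192) .dd))) (.ch (nat_lit 9) (.ev (nat_lit 3040) (nat_lit
 1649271965696) (.ev (nat_lit 3053) (nat_lit 562949953421312) .dd)))) (.br (nat_lit 16) (.ch (nat_lit 15) (.ev
 (nat_lit 3040) (nat_lit 564049469573120) (.ev (nat_lit 3053) (nat_lit 549755813888) .dd))) (.br (nat_lit 18)
 (.ch (nat_lit 16) (.ev (nat_lit 3040) (nat_lit 563499709499392) (.ev (nat_lit 3088) (nat_lit 65536) (.ev
 (nat_lit 3136) (nat_lit 1099515822080) .dd)))) (.ch (nat_lit 18) (.ev (nat_lit 3040) (nat_lit 564599225321472)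
 (.ev (nat_lit 3053) (nat_lit 65536) .dd)))))))))))))))) (.br (nat_lit 29) (.br (nat_lit 23) (.br (nat_lit 22)
 (.ch (nat_lit 19) (.ev (nat_lit 52) (nat_lit 581367042115584) (.ev (nat_lit 532) (nat_lit 1099511627776) (.ev
 (nat_lit 1056) (nat_lit 4503676940976752) .dd)))) (.ch (nat_lit 22) (.ev (nat_lit 52) (nat_lit
 582191406940672) (.ev (nat_lit 84) (nat_lit 68719476736) (.ev (nat_lit 148) (nat_lit 4503599627370496) (.ev
 (nat_lit 500) (nat_lit 2048) (.ev (nat_lit 608) (nat_lit 283740930160) .dd))))))) (.br (nat_lit 24) (.ch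
 (nat_lit 23) (.ev (nat_lit 52) (nat_lit 4503608217438784) (.ev (nat_lit 244) (nat_lit 268435456) (.ev (nat_lit
 308) (nat_lit 17592186044416) (.ev (nat_lit 340) (nat_lit 549755813888) (.ev (nat_lit 436) (nat_lit
 1099511627776) (.ev (nat_lit 692) (nat_lit 562949953421312) (.ev (nat_lit 820) (nat_lit 262144) (.ev (nat_lit
 1236) (nat_lit 16) (.ev (nat_lit 1268) (nat_lit 4259840) (.ev (nat_lit 2192) (nat_lit 343597416448) (.ev
 (nat_lit 2205) (nat_lit 32) .dd)))))))))))) (.br (nat_lit 26) (.ch (nat_lit 24) (.ev (nat_lit 52) (nat_lit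
 17669495521824) (.ev (nat_lit 468) (nat_lit 4503599627370496) (.ev (nat_lit 532) (nat_lit 562949953421312)
 (.ev (nat_lit 564) (nat_lit 131072) (.ev (nat_lit 660) (nat_lit 262144) (.ev (nat_lit 1332) (nat_lit 32768)
 (.ev (nat_lit 2288) (nat_lit 824906352656) (.nd (nat_lit 3024) (.ch (nat_lit 15) (.fin (nat_lit
 576465700104127040)))))))))))) (.ch (nat_lit 26) (.ev (nat_lit 52) (nat_lit 5067657687007248) (.ev (nat_lit
 180) (nat_lit 64) (.ev (nat_lit 788) (nat_lit 68719476736) (.ev (nat_lit 1396) (nat_lit 17592186044416) (.ev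
 (nat_lit 1556) (nat_lit 274877906944) (.ev (nat_lit 1908) (nat_lit 268435456) (.nd (nat_lit 3024) (.br
 (nat_lit 13) (.br (nat_lit 9) (.ch (nat_lit 8) (.ev (nat_lit 3040) (nat_lit 549755849248) .dd)) (.br (nat_lit
 10) (.ch (nat_lit 9) (.ev (nat_lit 3040) (nat_lit 549755849216) (.ev (nat_lit 3053) (nat_lit 32) .dd))) (.ch
 (nat_lit 10) (.ev (nat_lit 3040) (nat_lit 549755815968) (.ev (nat_lit 3056) (nat_lit 33280) .dd))))) (.br
 (nat_lit 14) (.ch (nat_lit 13) (.ev (nat_lit 3040) (nat_lit 549755846688) (.ev (nat_lit 3056) (nat_lit 2560)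
 .dd))) (.br (nat_lit 15) (.ch (nat_lit 14) (.ev (nat_lit 3040) (nat_lit 35360) (.ev (nat_lit 3053) (nat_lit
 549755813888) .dd))) (.ch (nat_lit 15) (.ev (nat_lit 3040) (nat_lit 549755849248) .dd)))))))))))))))) (.br
 (nat_lit 34) (.br (nat_lit 31) (.ch (nat_lit 29) (.ev (nat_lit 52) (nat_lit 4521810561630288) (.ev (nat_lit
 180) (nat_lit 562949953421312) (.ev (nat_lit 308) (nat_lit 65536) (.ev (nat_lit 628) (nat_lit 1099511627776)
 (.ev (nat_lit 692) (nat_lit 8589934592) (.ev (nat_lit 852) (nat_lit 274877906944) (.ev (nat_lit 1908) (nat_lit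
 32) (.ev (nat_lit 2100) (nat_lit 131072) (.nd (nat_lit 3024) (.br (nat_lit 13) (.br (nat_lit 10) (.ch (nat_lit
 4) (.ev (nat_lit 3040) (nat_lit 512) (.ev (nat_lit 3053) (nat_lit 2048) .dd))) (.ch (nat_lit 10) (.ev (nat_lit
 3040) (nat_lit 2048) (.ev (nat_lit 3053) (nat_lit 512) .dd)))) (.br (nat_lit 14) (.ch (nat_lit 13) (.ev
 (nat_lit 3040) (nat_lit 2560) .dd)) (.br (nat_lit 15) (.ch (nat_lit 14) (.ev (nat_lit 3040) (nat_lit 2560)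
 .dd)) (.ch (nat_lit 15) (.ev (nat_lit 3040) (nat_lit 512) (.ev (nat_lit 3053) (nat_lit 2048)
 .dd)))))))))))))))) (.br (nat_lit 33) (.ch (nat_lit 31) (.ev (nat_lit 52) (nat_lit 1924145676912) (.ev
 (nat_lit 372) (nat_lit 68719476736) (.ev (nat_lit 660) (nat_lit 268435456) (.ev (nat_lit 852) (nat_lit
 4503599627370496) (.ev (nat_lit 1248) (nat_lit 580550733760512) .dd)))))) (.ch (nat_lit 33) (.ev (nat_lit 52)
 (nat_lit 5085593734217840) (.ev (nat_lit 948) (nat_lit 512) (.ev (nat_lit 1044) (nat_lit 65536) (.ev (nat_lit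
 1428) (nat_lit 549755813888) (.ev (nat_lit 1844) (nat_lit 4194304) (.nd (nat_lit 3024) (.br (nat_lit 9) (.br
 (nat_lit 6) (.ch (nat_lit 3) (.ev (nat_lit 3040) (nat_lit 264192) (.ev (nat_lit 3104) (nat_lit 163840) .dd)))
 (.ch (nat_lit 6) (.ev (nat_lit 3040) (nat_lit 165888) (.ev (nat_lit 3053) (nat_lit 262144) .dd)))) (.br
 (nat_lit 10) (.ch (nat_lit 9) (.ev (nat_lit 3040) (nat_lit 165888) (.ev (nat_lit 3053) (nat_lit 262144) .dd)))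
 (.br (nat_lit 18) (.ch (nat_lit 10) (.ev (nat_lit 3040) (nat_lit 425984) (.ev (nat_lit 3053) (nat_lit 2048)
 .dd))) (.ch (nat_lit 18) (.ev (nat_lit 3040) (nat_lit 428032) .dd)))))))))))))) (.br (nat_lit 36) (.ch
 (nat_lit 34) (.ev (nat_lit 52) (nat_lit 4504707997532176) (.ev (nat_lit 416) (nat_lit 581435497187936) .dd)))
 (.br (nat_lit 38) (.ch (nat_lit 36) (.ev (nat_lit 52) (nat_lit 563018677127744) (.ev (nat_lit 212) (nat_lit
 274877906944) (.ev (nat_lit 852) (nat_lit 131072) (.ev (nat_lit 1716) (nat_lit 16) (.ev (nat_lit 1876)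
 (nat_lit 1099511627776) (.ev (nat_lit 1972) (nat_lit 268435456) (.ev (nat_lit 2004) (nat_lit 549755813888)
 (.nd (nat_lit 3024) (.br (nat_lit 6) (.br (nat_lit 4) (.ch (nat_lit 3) (.ev (nat_lit 3040) (nat_lit
 4521200403611680) (.ev (nat_lit 3053) (nat_lit 65536) .dd))) (.ch (nat_lit 4) (.ev (nat_lit 3040) (nat_lit
 17600776306688) (.ev (nat_lit 3056) (nat_lit 4503599627370496) (.ev (nat_lit 3069) (nat_lit 32) .dd))))) (.br
 (nat_lit 15) (.ch (nat_lit 6) (.ev (nat_lit 3040) (nat_lit 4521200403349504) (.ev (nat_lit 3072) (nat_lit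
 262144) (.ev (nat_lit 3088) (nat_lit 65568) .dd)))) (.br (nat_lit 18) (.ch (nat_lit 15) (.ev (nat_lit 3040)
 (nat_lit 4503608217567264) (.ev (nat_lit 3056) (nat_lit 17592186044416) (.ev (nat_lit 3069) (nat_lit 65536)
 .dd)))) (.ch (nat_lit 18) (.ev (nat_lit 3040) (nat_lit 4521191813742624) (.ev (nat_lit 3053) (nat_lit
 8589934592) .dd))))))))))))))) (.ch (nat_lit 38) (.ev (nat_lit 52) (nat_lit 352455756304) (.ev (nat_lit 84)
 (nat_lit 32) (.ev (nat_lit 564) (nat_lit 32768) (.ev (nat_lit 788) (nat_lit 262144) (.ev (nat_lit 1524)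
 (nat_lit 17592186044416) (.ev (nat_lit 2368) (nat_lit 4325376) (.ev (nat_lit 2880) (nat_lit 4503599627370496)
 (.nd (nat_lit 3024) (.br (nat_lit 8) (.br (nat_lit 4) (.ch (nat_lit 3) (.ev (nat_lit 3040) (nat_lit
 1649267441728) (.ev (nat_lit 3088) (nat_lit 562949953486848) .dd))) (.ch (nat_lit 4) (.ev (nat_lit 3040)
 (nat_lit 564599220928576) .dd))) (.br (nat_lit 15) (.ch (nat_lit 8) (.ev (nat_lit 3040) (nat_lit
 564049465114688) (.ev (nat_lit 3053) (nat_lit 549755813888) .dd))) (.br (nat_lit 16) (.ch (nat_lit 15) (.ev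
 (nat_lit 3040) (nat_lit 562949953486848) (.ev (nat_lit 3104) (nat_lit 549755813888) (.fin (nat_lit
 576465700104127040))))) (.ch (nat_lit 16) (.ev (nat_lit 3040) (nat_lit 564599220928576) .dd)))))))))))))))))))
 (.br (nat_lit 54) (.br (nat_lit 47) (.br (nat_lit 43) (.br (nat_lit 42) (.ch (nat_lit 39) (.ev (nat_lit 52)
 (nat_lit 4522093760742000) (.ev (nat_lit 84) (nat_lit 262144) (.ev (nat_lit 468) (nat_lit 131072) (.ev
 (nat_lit 756) (nat_lit 32768) (.ev (nat_lit 1364) (nat_lit 268435456) (.ev (nat_lit 2656) (nat_lit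
 1099511627776) (.nd (nat_lit 3024) (.br (nat_lit 8) (.br (nat_lit 4) (.ch (nat_lit 3) (.ev (nat_lit 3040)
 (nat_lit 65536) (.ev (nat_lit 3056) (nat_lit 562949953421312) (.ev (nat_lit 3069) (nat_lit 2048) .dd)))) (.ch
 (nat_lit 4) (.ev (nat_lit 3040) (nat_lit 67584) (.ev (nat_lit 3053) (nat_lit 562949953421312) .dd)))) (.br
 (nat_lit 13) (.ch (nat_lit 8) (.ev (nat_lit 3040) (nat_lit 67584) (.ev (nat_lit 3053) (nat_lit
 562949953421312) .dd))) (.br (nat_lit 15) (.ch (nat_lit 13) (.ev (nat_lit 3040) (nat_lit 562949953486848) (.ev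
 (nat_lit 3053) (nat_lit 2048) .dd))) (.ch (nat_lit 15) (.ev (nat_lit 3040) (nat_lit 562949953421312) (.ev
 (nat_lit 3104) (nat_lit 65536) (.ev (nat_lit 3117) (nat_lit 2048) .dd))))))))))))))) (.ch (nat_lit 42) (.ev
 (nat_lit 52) (nat_lit 17592190568560) (.ev (nat_lit 692) (nat_lit 1099511627776) (.ev (nat_lit 724) (nat_lit
 549755813888) (.ev (nat_lit 1076) (nat_lit 562949953421312) (.ev (nat_lit 1300) (nat_lit 4503599627370496)
 (.ev (nat_lit 1332) (nat_lit 274877906944) (.nd (nat_lit 3024) (.br (nat_lit 8) (.br (nat_lit 4) (.ch (nat_lit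
 3) (.ev (nat_lit 3040) (nat_lit 68988043776) (.ev (nat_lit 3072) (nat_lit 8589934592) (.ev (nat_lit 3085)
 (nat_lit 32768) .dd)))) (.ch (nat_lit 4) (.ev (nat_lit 3040) (nat_lit 77309575680) (.ev (nat_lit 3053)
 (nat_lit 268435456) .dd)))) (.br (nat_lit 9) (.ch (nat_lit 8) (.ev (nat_lit 3040) (nat_lit 68988043776) (.ev
 (nat_lit 3072) (nat_lit 8589934592) (.ev (nat_lit 3085) (nat_lit 32768) .dd)))) (.br (nat_lit 18) (.ch
 (nat_lit 9) (.ev (nat_lit 3040) (nat_lit 8858501632) (.ev (nat_lit 3120) (nat_lit 68719509504) .dd))) (.ch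
 (nat_lit 18) (.ev (nat_lit 3040) (nat_lit 77577879552) (.ev (nat_lit 3088) (nat_lit 131584) .dd)))))))))))))))
 (.br (nat_lit 44) (.ch (nat_lit 43) (.ev (nat_lit 52) (nat_lit 5066558439587840) (.ev (nat_lit 436) (nat_lit
 65536) (.ev (nat_lit 596) (nat_lit 1099511627776) (.ev (nat_lit 692) (nat_lit 64) (.ev (nat_lit 1780) (nat_lit
 17592186044416) (.ev (nat_lit 1908) (nat_lit 549755813888) (.ev (nat_lit 2004) (nat_lit 68719476736) (.ev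
 (nat_lit 2244) (nat_lit 2048) (.ev (nat_lit 2400) (nat_lit 4194320) (.nd (nat_lit 3024) (.br (nat_lit 10) (.br
 (nat_lit 6) (.ch (nat_lit 3) (.ev (nat_lit 3040) (nat_lit 274877907488) .dd)) (.br (nat_lit 8) (.ch (nat_lit
 6) (.ev (nat_lit 3040) (nat_lit 274877906976) (.ev (nat_lit 3053) (nat_lit 512) .dd))) (.ch (nat_lit 8) (.ev
 (nat_lit 3040) (nat_lit 544) (.ev (nat_lit 3053) (nat_lit 274877906944) .dd))))) (.br (nat_lit 13) (.ch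
 (nat_lit 10) (.ev (nat_lit 3040) (nat_lit 274877906976) (.ev (nat_lit 3053) (nat_lit 512) .dd))) (.br (nat_lit
 16) (.ch (nat_lit 13) (.ev (nat_lit 3040) (nat_lit 544) (.ev (nat_lit 3053) (nat_lit 274877906944) .dd))) (.ch
 (nat_lit 16) (.ev (nat_lit 3040) (nat_lit 274877907456) (.ev (nat_lit 3053) (nat_lit 32) .dd)))))))))))))))))
 (.br (nat_lit 46) (.ch (nat_lit 44) (.ev (nat_lit 52) (nat_lit 581916529461264) (.ev (nat_lit 244) (nat_lit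
 549755813888) (.ev (nat_lit 308) (nat_lit 8589934592) (.ev (nat_lit 692) (nat_lit 4194304) (.ev (nat_lit 884)
 (nat_lit 268435456) (.ev (nat_lit 1332) (nat_lit 4503599627370496) (.ev (nat_lit 1728) (nat_lit 68719510112)
 .dd)))))))) (.ch (nat_lit 46) (.ev (nat_lit 52) (nat_lit 19241453684752) (.ev (nat_lit 436) (nat_lit 4194304)
 (.ev (nat_lit 756) (nat_lit 274877906944) (.ev (nat_lit 1396) (nat_lit 64) (.ev (nat_lit 1716) (nat_lit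
 262144) (.ev (nat_lit 1940) (nat_lit 268435456) (.ev (nat_lit 2164) (nat_lit 68719476736) (.ev (nat_lit 2244)
 (nat_lit 4503599627370496) (.ev (nat_lit 2352) (nat_lit 562958543388672) (.nd (nat_lit 3024) (.br (nat_lit 15)
 (.ch (nat_lit 9) (.ev (nat_lit 3040) (nat_lit 32) (.ev (nat_lit 3053) (nat_lit 512) .dd))) (.br (nat_lit 16)
 (.ch (nat_lit 15) (.ev (nat_lit 3040) (nat_lit 544) .dd)) (.ch (nat_lit 16) (.ev (nat_lit 3040) (nat_lit 512)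
 (.ev (nat_lit 3053) (nat_lit 32) .dd))))))))))))))))))) (.br (nat_lit 50) (.br (nat_lit 48) (.ch (nat_lit 47)
 (.ev (nat_lit 52) (nat_lit 1374393731584) (.ev (nat_lit 84) (nat_lit 549755813888) (.ev (nat_lit 500) (nat_lit
 4503599627370496) (.ev (nat_lit 532) (nat_lit 17592186044416) (.ev (nat_lit 820) (nat_lit 68719476736) (.ev
 (nat_lit 1108) (nat_lit 562949953421312) (.ev (nat_lit 1620) (nat_lit 268435456) (.ev (nat_lit 2768) (nat_lit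
 16) (.nd (nat_lit 3024) (.br (nat_lit 9) (.br (nat_lit 8) (.ch (nat_lit 6) (.ev (nat_lit 3040) (nat_lit
 262208) (.ev (nat_lit 3056) (nat_lit 131072) (.ev (nat_lit 3072) (nat_lit 98304) (.ev (nat_lit 3104) (nat_lit
 8589934624) .dd))))) (.ch (nat_lit 8) (.ev (nat_lit 3040) (nat_lit 491616) (.ev (nat_lit 3053) (nat_lit
 8589934592) .dd)))) (.br (nat_lit 15) (.ch (nat_lit 9) (.ev (nat_lit 3040) (nat_lit 8590163968) (.ev (nat_lit
 3056) (nat_lit 64) (.ev (nat_lit 3104) (nat_lit 262144) (.ev (nat_lit 3117) (nat_lit 32) .dd))))) (.br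
 (nat_lit 18) (.ch (nat_lit 15) (.ev (nat_lit 3040) (nat_lit 8590360672) (.ev (nat_lit 3053) (nat_lit 65536)
 .dd))) (.ch (nat_lit 18) (.ev (nat_lit 3040) (nat_lit 360544) (.ev (nat_lit 3056) (nat_lit 131072) (.ev
 (nat_lit 3069) (nat_lit 8589934592) .dd))))))))))))))))) (.br (nat_lit 49) (.ch (nat_lit 48) (.ev (nat_lit 52)
 (nat_lit 5084219349139488) (.ev (nat_lit 212) (nat_lit 32768) (.ev (nat_lit 660) (nat_lit 16) (.ev (nat_lit
 756) (nat_lit 2048) (.ev (nat_lit 1044) (nat_lit 1099511627776) (.ev (nat_lit 1504) (nat_lit 824633918016)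
 .dd))))))) (.ch (nat_lit 49) (.ev (nat_lit 52) (nat_lit 564874367240736) (.ev (nat_lit 628) (nat_lit
 17592186044416) (.ev (nat_lit 692) (nat_lit 65536) (.ev (nat_lit 884) (nat_lit 262144) (.ev (nat_lit 1268)
 (nat_lit 8589934592) (.ev (nat_lit 1620) (nat_lit 16) (.ev (nat_lit 1652) (nat_lit 4194304) (.ev (nat_lit
 2784) (nat_lit 64) (.nd (nat_lit 3024) (.br (nat_lit 9) (.br (nat_lit 6) (.ch (nat_lit 3) (.ev (nat_lit 3040)
 (nat_lit 4503599627370496) (.ev (nat_lit 3056) (nat_lit 68719476736) (.ev (nat_lit 3069) (nat_lit 131072)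
 .dd)))) (.ch (nat_lit 6) (.ev (nat_lit 3040) (nat_lit 4503668346847232) (.ev (nat_lit 3053) (nat_lit 131072)
 .dd)))) (.br (nat_lit 14) (.ch (nat_lit 9) (.ev (nat_lit 3040) (nat_lit 4503599627501568) (.ev (nat_lit 3053)
 (nat_lit 68719476736) .dd))) (.br (nat_lit 18) (.ch (nat_lit 14) (.ev (nat_lit 3040) (nat_lit
 4503599627501568) (.ev (nat_lit 3053) (nat_lit 68719476736) .dd))) (.ch (nat_lit 18) (.ev (nat_lit 3040)
 (nat_lit 68719476736) (.ev (nat_lit 3088) (nat_lit 131072) (.ev (nat_lit 3101) (nat_lit 4503599627370496)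
 .dd))))))))))))))))))) (.br (nat_lit 51) (.ch (nat_lit 50) (.ev (nat_lit 52) (nat_lit 4521741569458688) (.ev
 (nat_lit 1076) (nat_lit 4194304) (.ev (nat_lit 1172) (nat_lit 562949953421376) (.ev (nat_lit 1396) (nat_lit
 1099511627776) (.ev (nat_lit 1588) (nat_lit 16) (.ev (nat_lit 1940) (nat_lit 32) (.ev (nat_lit 2964) (nat_lit
 274877906944) (.nd (nat_lit 3024) (.br (nat_lit 9) (.br (nat_lit 4) (.ch (nat_lit 3) (.ev (nat_lit 3040)
 (nat_lit 268699648) (.ev (nat_lit 3088) (nat_lit 77309411328) .dd))) (.ch (nat_lit 4) (.ev (nat_lit 3040)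
 (nat_lit 77309673472) (.ev (nat_lit 3072) (nat_lit 268435456) (.ev (nat_lit 3085) (nat_lit 2048) .dd))))) (.br
 (nat_lit 10) (.ch (nat_lit 9) (.ev (nat_lit 3040) (nat_lit 77577848832) (.ev (nat_lit 3053) (nat_lit 262144)
 .dd))) (.br (nat_lit 15) (.ch (nat_lit 10) (.ev (nat_lit 3040) (nat_lit 77309673472) (.ev (nat_lit 3072)
 (nat_lit 268435456) (.ev (nat_lit 3085) (nat_lit 2048) .dd)))) (.ch (nat_lit 15) (.ev (nat_lit 3040) (nat_lit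
 77578108928) (.ev (nat_lit 3053) (nat_lit 2048) .dd))))))))))))))) (.br (nat_lit 53) (.ch (nat_lit 51) (.ev
 (nat_lit 52) (nat_lit 4504149387444240) (.ev (nat_lit 276) (nat_lit 32768) (.ev (nat_lit 372) (nat_lit
 268435456) (.ev (nat_lit 532) (nat_lit 8589934592) (.ev (nat_lit 1108) (nat_lit 64) (.ev (nat_lit 1524)
 (nat_lit 1099511627776) (.ev (nat_lit 1556) (nat_lit 2048) (.ev (nat_lit 1876) (nat_lit 17592186044416) (.ev
 (nat_lit 2132) (nat_lit 32) (.ev (nat_lit 2324) (nat_lit 68719476736) (.ev (nat_lit 2848) (nat_lit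
 274877906944) (.nd (nat_lit 3024) (.br (nat_lit 10) (.br (nat_lit 6) (.ch (nat_lit 3) (.ev (nat_lit 3040)
 (nat_lit 562949953815040) .dd)) (.br (nat_lit 8) (.ch (nat_lit 6) (.ev (nat_lit 3040) (nat_lit
 562949953683968) (.ev (nat_lit 3053) (nat_lit 131072) .dd))) (.ch (nat_lit 8) (.ev (nat_lit 3040) (nat_lit
 562949953815040) .dd)))) (.br (nat_lit 14) (.ch (nat_lit 10) (.ev (nat_lit 3040) (nat_lit 562949953814528)
 (.ev (nat_lit 3053) (nat_lit 512) .dd))) (.br (nat_lit 16) (.ch (nat_lit 14) (.ev (nat_lit 3040) (nat_lit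
 131584) (.ev (nat_lit 3056) (nat_lit 562949953683456) .dd))) (.ch (nat_lit 16) (.ev (nat_lit 3040) (nat_lit
 562949953814528) (.ev (nat_lit 3053) (nat_lit 512) .dd))))))))))))))))))) (.ch (nat_lit 53) (.ev (nat_lit 52)
 (nat_lit 4503668615414368) (.ev (nat_lit 288) (nat_lit 582474879305744) .dd))))))) (.br (nat_lit 64) (.br
 (nat_lit 57) (.br (nat_lit 55) (.ch (nat_lit 54) (.ev (nat_lit 52) (nat_lit 343870243328) (.ev (nat_lit 84)
 (nat_lit 16) (.ev (nat_lit 436) (nat_lit 17592186044416) (.ev (nat_lit 564) (nat_lit 2048) (.ev (nat_lit 1152)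
 (nat_lit 5068207438430304) .dd)))))) (.ch (nat_lit 55) (.ev (nat_lit 52) (nat_lit 580610859008544) (.ev
 (nat_lit 160) (nat_lit 4505532635711568) .dd)))) (.br (nat_lit 58) (.ch (nat_lit 57) (.ev (nat_lit 52)
 (nat_lit 893357460080) (.ev (nat_lit 916) (nat_lit 262144) (.ev (nat_lit 948) (nat_lit 4503599627370496) (.ev
 (nat_lit 1076) (nat_lit 1099511627776) (.ev (nat_lit 1140) (nat_lit 32768) (.ev (nat_lit 1236) (nat_lit
 268435456) (.ev (nat_lit 1652) (nat_lit 17592186044416) (.ev (nat_lit 2068) (nat_lit 131072) (.nd (nat_lit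
 3024) (.br (nat_lit 13) (.br (nat_lit 10) (.ch (nat_lit 4) (.ev (nat_lit 3040) (nat_lit 8589934592) (.ev
 (nat_lit 3053) (nat_lit 562949953421312) .dd))) (.ch (nat_lit 10) (.ev (nat_lit 3040) (nat_lit
 562958543355904) .dd))) (.br (nat_lit 15) (.ch (nat_lit 13) (.ev (nat_lit 3040) (nat_lit 8589934592) (.ev
 (nat_lit 3053) (nat_lit 562949953421312) .dd))) (.br (nat_lit 16) (.ch (nat_lit 15) (.ev (nat_lit 3040)
 (nat_lit 562949953421312) (.ev (nat_lit 3053) (nat_lit 8589934592) .dd))) (.ch (nat_lit 16) (.ev (nat_lit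
 3040) (nat_lit 562958543355904) .dd))))))))))))))) (.br (nat_lit 62) (.ch (nat_lit 58) (.ev (nat_lit 52)
 (nat_lit 1649536237648) (.ev (nat_lit 212) (nat_lit 512) (.ev (nat_lit 276) (nat_lit 2048) (.ev (nat_lit 404)
 (nat_lit 274877906944) (.ev (nat_lit 500) (nat_lit 131072) (.ev (nat_lit 1268) (nat_lit 562949953421312) (.ev
 (nat_lit 1460) (nat_lit 68719476736) (.ev (nat_lit 1620) (nat_lit 32) (.ev (nat_lit 1844) (nat_lit 8589934592)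
 (.ev (nat_lit 2704) (nat_lit 4503599627370496) (.nd (nat_lit 3024) (.br (nat_lit 8) (.br (nat_lit 6) (.ch
 (nat_lit 4) (.ev (nat_lit 3040) (nat_lit 17592186044416) (.ev (nat_lit 3053) (nat_lit 4194304) .dd))) (.ch
 (nat_lit 6) (.ev (nat_lit 3040) (nat_lit 4194304) (.ev (nat_lit 3053) (nat_lit 17592186044416) .dd)))) (.br
 (nat_lit 10) (.ch (nat_lit 8) (.ev (nat_lit 3040) (nat_lit 4194304) (.ev (nat_lit 3053) (nat_lit
 17592186044416) .dd))) (.br (nat_lit 15) (.ch (nat_lit 10) (.ev (nat_lit 3040) (nat_lit 17592190238720) .dd))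
 (.ch (nat_lit 15) (.ev (nat_lit 3056) (nat_lit 4194304) (.ev (nat_lit 3069) (nat_lit 17592186044416)
 .dd)))))))))))))))))) (.ch (nat_lit 62) (.ev (nat_lit 52) (nat_lit 580550734021120) (.ev (nat_lit 116)
 (nat_lit 32) (.ev (nat_lit 148) (nat_lit 274877906944) (.ev (nat_lit 276) (nat_lit 4503599627370496) (.ev
 (nat_lit 820) (nat_lit 549755813888) (.ev (nat_lit 1376) (nat_lit 1168499607632) .dd)))))))))) (.br (nat_lit
 68) (.br (nat_lit 65) (.ch (nat_lit 64) (.ev (nat_lit 52) (nat_lit 4505248894877792) (.ev (nat_lit 404)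
 (nat_lit 2048) (.ev (nat_lit 436) (nat_lit 8589934592) (.ev (nat_lit 596) (nat_lit 17592186044416) (.ev
 (nat_lit 820) (nat_lit 16) (.ev (nat_lit 980) (nat_lit 131072) (.ev (nat_lit 1300) (nat_lit 274877906944) (.ev
 (nat_lit 1364) (nat_lit 262144) (.ev (nat_lit 1492) (nat_lit 4194304) (.ev (nat_lit 2720) (nat_lit 268435456)
 (.nd (nat_lit 3024) (.br (nat_lit 14) (.br (nat_lit 9) (.ch (nat_lit 4) (.ev (nat_lit 3040) (nat_lit
 68719510016) (.ev (nat_lit 3053) (nat_lit 562949953421312) .dd))) (.br (nat_lit 10) (.ch (nat_lit 9) (.ev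
 (nat_lit 3040) (nat_lit 563018672898048) (.ev (nat_lit 3056) (nat_lit 33280) .dd))) (.ch (nat_lit 10) (.ev
 (nat_lit 3040) (nat_lit 563018672931328) .dd)))) (.br (nat_lit 15) (.ch (nat_lit 14) (.ev (nat_lit 3040)
 (nat_lit 33280) (.ev (nat_lit 3056) (nat_lit 563018672898048) .dd))) (.br (nat_lit 18) (.ch (nat_lit 15) (.ev
 (nat_lit 3040) (nat_lit 563018672931328) .dd)) (.ch (nat_lit 18) (.ev (nat_lit 3040) (nat_lit 562949953454592)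
 (.ev (nat_lit 3053) (nat_lit 68719476736) .dd)))))))))))))))))) (.br (nat_lit 67) (.ch (nat_lit 65) (.ev
 (nat_lit 52) (nat_lit 4504149383645232) (.ev (nat_lit 404) (nat_lit 32768) (.ev (nat_lit 672) (nat_lit
 581994111042112) .dd)))) (.ch (nat_lit 67) (.ev (nat_lit 52) (nat_lit 564676798842944) (.ev (nat_lit 372)
 (nat_lit 16) (.ev (nat_lit 852) (nat_lit 512) (.ev (nat_lit 980) (nat_lit 32768) (.ev (nat_lit 1204) (nat_lit
 4503599627370496) (.ev (nat_lit 1632) (nat_lit 17867068473376) .dd))))))))) (.br (nat_lit 69) (.ch (nat_lit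
 68) (.ev (nat_lit 52) (nat_lit 4505248899041296) (.ev (nat_lit 116) (nat_lit 268435456) (.ev (nat_lit 404)
 (nat_lit 131072) (.ev (nat_lit 512) (nat_lit 580894327112288) .dd))))) (.br (nat_lit 70) (.ch (nat_lit 69)
 (.ev (nat_lit 52) (nat_lit 564599493757040) (.ev (nat_lit 756) (nat_lit 512) (.ev (nat_lit 916) (nat_lit
 68719476736) (.ev (nat_lit 1172) (nat_lit 8589934592) (.ev (nat_lit 1652) (nat_lit 65536) (.ev (nat_lit 1812)
 (nat_lit 131072) (.nd (nat_lit 3024) (.br (nat_lit 8) (.br (nat_lit 6) (.ch (nat_lit 4) (.ev (nat_lit 3040)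
 (nat_lit 17867063951360) (.ev (nat_lit 3104) (nat_lit 4503599627403264) .dd))) (.ch (nat_lit 6) (.ev (nat_lit
 3040) (nat_lit 4503874505310208) (.ev (nat_lit 3053) (nat_lit 17592186044416) .dd)))) (.br (nat_lit 14) (.ch
 (nat_lit 8) (.ev (nat_lit 3040) (nat_lit 4503874505310208) (.ev (nat_lit 3053) (nat_lit 17592186044416) .dd)))
 (.br (nat_lit 15) (.ch (nat_lit 14) (.ev (nat_lit 3040) (nat_lit 4521466691354624) .dd)) (.ch (nat_lit 15)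
 (.ev (nat_lit 3040) (nat_lit 4521191813447680) (.ev (nat_lit 3053) (nat_lit 274877906944) .dd))))))))))))))
 (.ch (nat_lit 70) (.ev (nat_lit 52) (nat_lit 17944646451264) (.ev (nat_lit 148) (nat_lit 32768) (.ev (nat_lit
 180) (nat_lit 1099511627776) (.ev (nat_lit 916) (nat_lit 16) (.ev (nat_lit 1012) (nat_lit 512) (.ev (nat_lit
 1684) (nat_lit 2048) (.ev (nat_lit 2528) (nat_lit 563499709235200) (.nd (nat_lit 3024) (.br (nat_lit 13) (.br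
 (nat_lit 6) (.ch (nat_lit 4) (.ev (nat_lit 3040) (nat_lit 32) (.ev (nat_lit 3053) (nat_lit 4503599627370496)
 .dd))) (.ch (nat_lit 6) (.ev (nat_lit 3040) (nat_lit 4503599627370496) (.ev (nat_lit 3053) (nat_lit 32)
 .dd)))) (.br (nat_lit 18) (.ch (nat_lit 13) (.ev (nat_lit 3040) (nat_lit 4503599627370496) (.ev (nat_lit 3053)
 (nat_lit 32) .dd))) (.ch (nat_lit 18) (.ev (nat_lit 3040) (nat_lit 4503599627370528) .dd)))))))))))))))))))))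

/-- The trie. -/
noncomputable def T : Tr := .nd (nat_lit 1000000) (.br (nat_lit 7) (.br (nat_lit 2) (.br (nat_lit 1) (.ch
 (nat_lit 0) (.ev (nat_lit 0) (nat_lit 9007199254740991) .dd)) (.ch (nat_lit 1) T1)) (.br (nat_lit 3) (.ch
 (nat_lit 2) T2) (.br (nat_lit 4) (.ch (nat_lit 3) (.ev (nat_lit 0) (nat_lit 9007199254740991) .dd)) (.ch
 (nat_lit 4) (.ev (nat_lit 0) (nat_lit 9007199254740991) .dd))))) (.br (nat_lit 9) (.br (nat_lit 8) (.ch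
 (nat_lit 7) (.ev (nat_lit 0) (nat_lit 9007199254740991) .dd)) (.ch (nat_lit 8) T8)) (.br (nat_lit 14) (.ch
 (nat_lit 9) (.ev (nat_lit 0) (nat_lit 9007199254740991) .dd)) (.br (nat_lit 18) (.ch (nat_lit 14) (.ev
 (nat_lit 0) (nat_lit 9007199254740991) .dd)) (.ch (nat_lit 18) (.ev (nat_lit 0) (nat_lit 9007199254740991)
 .dd))))))

/-- The possible values. -/
noncomputable def oks : List ℕ := [7, 66]

/-- The parameters. -/
noncomputable def S : Pr := ⟨fun i l e => lget mz (lget [] (lget [] tabs i) l) e, oks, [(nat_lit 0), (nat_lit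
 1), (nat_lit 0)], T, (nat_lit 9007199254740991), (nat_lit 2287041271849359), (nat_lit 53), [(nat_lit 279193),
 (nat_lit 87122173451996128837)], [(nat_lit 361), (nat_lit 5041)]⟩

/-- Nothing known. -/
noncomputable def cs0 : Cs := (.cons (nat_lit 19) (nat_lit 0) (nat_lit 1) (.cons (nat_lit 71) (nat_lit 0) (nat_lit 1) .nil))

theorem part_1 : part S cs0 (nat_lit 1) = true := by decide +kernel

theorem part_2 : part S cs0 (nat_lit 2) = true := by decide +kernel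

theorem part_8 : part S cs0 (nat_lit 8) = true := by decide +kernel

/-- Data of a prime. -/
noncomputable def D0 : PD := ⟨(nat_lit 19), (nat_lit 2), (210, 3, 5), (67, 193, 280), (183, 17, 194)⟩

theorem D0_ok : D0.Ok := pdb_sound (s := 9) (C := ⟨⟨21, 6, -28, 11, 14, 17, -4, 7, -1⟩, (2, 11, 15)⟩) (by show Nat.Prime 19; norm_num) (by decide +kernel)

/-- Lines of the first type. -/
noncomputable def Cl0 : List C1 := [⟨⟨11, 14, -28, 21, 6, 7, 4, -7, -5⟩, (12, 16, 13)⟩,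
  ⟨⟨0, 0, 0, 0, 0, 0, 0, 0, 0⟩, (0, 0, 0)⟩,
  ⟨⟨0, 0, 0, 0, 0, 0, 0, 0, 0⟩, (0, 0, 0)⟩,
  ⟨⟨9, 6, -32, 1, 26, 7, 8, -1, -1⟩, (8, 3, 5)⟩,
  ⟨⟨-9, -6, -23, -1, -26, 8, 8, -1, -7⟩, (13, 12, 18)⟩,
  ⟨⟨0, 0, 0, 0, 0, 0, 0, 0, 0⟩, (0, 0, 0)⟩,
  ⟨⟨0, 0, 0, 0, 0, 0, 0, 0, 0⟩, (0, 0, 0)⟩,
  ⟨⟨9, -6, -32, 1, -26, 7, 8, 1, -1⟩, (5, 9, 15)⟩,
  ⟨⟨0, 0, 0, 0, 0, 0, 0, 0, 0⟩, (0, 0, 0)⟩,
  ⟨⟨21, -6, -28, 11, -14, 17, -4, -7, -1⟩, (16, 12, 6)⟩,
  ⟨⟨0, 0, 0, 0, 0, 0, 0, 0, 0⟩, (0, 0, 0)⟩,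
  ⟨⟨0, 0, 0, 0, 0, 0, 0, 0, 0⟩, (0, 0, 0)⟩,
  ⟨⟨0, 0, 0, 0, 0, 0, 0, 0, 0⟩, (0, 0, 0)⟩,
  ⟨⟨0, 0, 0, 0, 0, 0, 0, 0, 0⟩, (0, 0, 0)⟩,
  ⟨⟨11, -14, -28, 21, -6, 7, 4, 7, -5⟩, (5, 13, 7)⟩,
  ⟨⟨0, 0, 0, 0, 0, 0, 0, 0, 0⟩, (0, 0, 0)⟩,
  ⟨⟨0, 0, 0, 0, 0, 0, 0, 0, 0⟩, (0, 0, 0)⟩,
  ⟨⟨0, 0, 0, 0, 0, 0, 0, 0, 0⟩, (0, 0, 0)⟩,
  ⟨⟨-9, 6, -23, -1, 26, 8, 8, 1, -7⟩, (16, 6, 9)⟩]

/-- Data of a prime. -/
noncomputable def D1 : PD := ⟨(nat_lit 71), (nat_lit 2), (72, 9, 33), (3977, 4536, 3372), (4173, 4400, 3526)⟩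

theorem D1_ok : D1.Ok := pdb_sound (s := 11) (C := ⟨⟨59, 34, -112, -29, 94, 37, -24, -3, -11⟩, (59, 42, 47)⟩) (by show Nat.Prime 71; norm_num) (by decide +kernel)

/-- Lines of the first type. -/
noncomputable def Cl1 : List C1 := [⟨⟨-59, -34, -53, 29, -94, 8, 24, 3, -35⟩, (17, 47, 34)⟩,
  ⟨⟨0, 0, 0, 0, 0, 0, 0, 0, 0⟩, (0, 0, 0)⟩,
  ⟨⟨49, -74, -77, 79, 14, 28, 12, 21, -29⟩, (59, 56, 13)⟩,
  ⟨⟨0, 0, 0, 0, 0, 0, 0, 0, 0⟩, (0, 0, 0)⟩,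
  ⟨⟨0, 0, 0, 0, 0, 0, 0, 0, 0⟩, (0, 0, 0)⟩,
  ⟨⟨0, 0, 0, 0, 0, 0, 0, 0, 0⟩, (0, 0, 0)⟩,
  ⟨⟨79, -14, -107, 49, 74, 28, -12, 21, -17⟩, (44, 21, 5)⟩,
  ⟨⟨0, 0, 0, 0, 0, 0, 0, 0, 0⟩, (0, 0, 0)⟩,
  ⟨⟨0, 0, 0, 0, 0, 0, 0, 0, 0⟩, (0, 0, 0)⟩,
  ⟨⟨39, 66, -92, -89, 46, 37, -8, -19, -23⟩, (13, 65, 21)⟩,
  ⟨⟨19, 46, -107, -91, -26, 8, 12, -27, -19⟩, (7, 30, 53)⟩,
  ⟨⟨0, 0, 0, 0, 0, 0, 0, 0, 0⟩, (0, 0, 0)⟩,
  ⟨⟨0, 0, 0, 0, 0, 0, 0, 0, 0⟩, (0, 0, 0)⟩,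
  ⟨⟨99, 6, -67, 11, -94, 32, -4, -11, -31⟩, (13, 33, 59)⟩,
  ⟨⟨-39, -66, -53, -89, 46, 52, 8, 19, -31⟩, (17, 57, 22)⟩,
  ⟨⟨0, 0, 0, 0, 0, 0, 0, 0, 0⟩, (0, 0, 0)⟩,
  ⟨⟨0, 0, 0, 0, 0, 0, 0, 0, 0⟩, (0, 0, 0)⟩,
  ⟨⟨19, -46, -107, -91, 26, 8, 12, 27, -19⟩, (15, 44, 2)⟩,
  ⟨⟨0, 0, 0, 0, 0, 0, 0, 0, 0⟩, (0, 0, 0)⟩,
  ⟨⟨0, 0, 0, 0, 0, 0, 0, 0, 0⟩, (0, 0, 0)⟩,
  ⟨⟨51, 66, -88, -59, 74, 67, -20, -5, -17⟩, (59, 64, 59)⟩,
  ⟨⟨49, 74, -77, 79, -14, 28, 12, -21, -29⟩, (6, 43, 29)⟩,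
  ⟨⟨0, 0, 0, 0, 0, 0, 0, 0, 0⟩, (0, 0, 0)⟩,
  ⟨⟨0, 0, 0, 0, 0, 0, 0, 0, 0⟩, (0, 0, 0)⟩,
  ⟨⟨0, 0, 0, 0, 0, 0, 0, 0, 0⟩, (0, 0, 0)⟩,
  ⟨⟨31, 74, -83, -81, 54, 68, -16, -13, -19⟩, (8, 2, 60)⟩,
  ⟨⟨0, 0, 0, 0, 0, 0, 0, 0, 0⟩, (0, 0, 0)⟩,
  ⟨⟨11, 94, -43, -99, 6, 32, 4, -11, -35⟩, (69, 18, 38)⟩,
  ⟨⟨-51, 66, -37, 59, 74, 8, 20, -5, -37⟩, (25, 56, 25)⟩,
  ⟨⟨0, 0, 0, 0, 0, 0, 0, 0, 0⟩, (0, 0, 0)⟩,
  ⟨⟨39, -66, -92, -89, -46, 37, -8, 19, -23⟩, (43, 2, 64)⟩,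
  ⟨⟨0, 0, 0, 0, 0, 0, 0, 0, 0⟩, (0, 0, 0)⟩,
  ⟨⟨59, -34, -112, -29, -94, 37, -24, 3, -11⟩, (9, 4, 18)⟩,
  ⟨⟨0, 0, 0, 0, 0, 0, 0, 0, 0⟩, (0, 0, 0)⟩,
  ⟨⟨0, 0, 0, 0, 0, 0, 0, 0, 0⟩, (0, 0, 0)⟩,
  ⟨⟨-59, 34, -53, 29, 94, 8, 24, -3, -35⟩, (8, 43, 16)⟩,
  ⟨⟨0, 0, 0, 0, 0, 0, 0, 0, 0⟩, (0, 0, 0)⟩,
  ⟨⟨11, -94, -43, -99, -6, 32, 4, 11, -35⟩, (2, 53, 33)⟩,
  ⟨⟨0, 0, 0, 0, 0, 0, 0, 0, 0⟩, (0, 0, 0)⟩,
  ⟨⟨0, 0, 0, 0, 0, 0, 0, 0, 0⟩, (0, 0, 0)⟩,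
  ⟨⟨51, -66, -88, -59, -74, 67, -20, 5, -17⟩, (18, 46, 18)⟩,
  ⟨⟨-19, -46, -88, -91, -26, 83, -12, 27, -7⟩, (26, 61, 65)⟩,
  ⟨⟨0, 0, 0, 0, 0, 0, 0, 0, 0⟩, (0, 0, 0)⟩,
  ⟨⟨0, 0, 0, 0, 0, 0, 0, 0, 0⟩, (0, 0, 0)⟩,
  ⟨⟨0, 0, 0, 0, 0, 0, 0, 0, 0⟩, (0, 0, 0)⟩,
  ⟨⟨-19, 46, -88, -91, 26, 83, -12, -27, -7⟩, (18, 4, 45)⟩,
  ⟨⟨0, 0, 0, 0, 0, 0, 0, 0, 0⟩, (0, 0, 0)⟩,
  ⟨⟨0, 0, 0, 0, 0, 0, 0, 0, 0⟩, (0, 0, 0)⟩,
  ⟨⟨0, 0, 0, 0, 0, 0, 0, 0, 0⟩, (0, 0, 0)⟩,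
  ⟨⟨0, 0, 0, 0, 0, 0, 0, 0, 0⟩, (0, 0, 0)⟩,
  ⟨⟨0, 0, 0, 0, 0, 0, 0, 0, 0⟩, (0, 0, 0)⟩,
  ⟨⟨0, 0, 0, 0, 0, 0, 0, 0, 0⟩, (0, 0, 0)⟩,
  ⟨⟨99, -6, -67, 11, 94, 32, -4, 11, -31⟩, (48, 29, 54)⟩,
  ⟨⟨0, 0, 0, 0, 0, 0, 0, 0, 0⟩, (0, 0, 0)⟩,
  ⟨⟨0, 0, 0, 0, 0, 0, 0, 0, 0⟩, (0, 0, 0)⟩,
  ⟨⟨0, 0, 0, 0, 0, 0, 0, 0, 0⟩, (0, 0, 0)⟩,
  ⟨⟨-51, -66, -37, 59, -74, 8, 20, 5, -37⟩, (55, 38, 55)⟩,
  ⟨⟨0, 0, 0, 0, 0, 0, 0, 0, 0⟩, (0, 0, 0)⟩,
  ⟨⟨0, 0, 0, 0, 0, 0, 0, 0, 0⟩, (0, 0, 0)⟩,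
  ⟨⟨-31, -74, -52, -81, 54, 13, 16, 13, -35⟩, (64, 55, 54)⟩,
  ⟨⟨-31, 74, -52, -81, -54, 13, 16, -13, -35⟩, (11, 15, 47)⟩,
  ⟨⟨-39, 66, -53, -89, -46, 52, 8, -19, -31⟩, (58, 65, 50)⟩,
  ⟨⟨0, 0, 0, 0, 0, 0, 0, 0, 0⟩, (0, 0, 0)⟩,
  ⟨⟨79, 14, -107, 49, -74, 28, -12, -21, -17⟩, (57, 3, 21)⟩,
  ⟨⟨0, 0, 0, 0, 0, 0, 0, 0, 0⟩, (0, 0, 0)⟩,
  ⟨⟨0, 0, 0, 0, 0, 0, 0, 0, 0⟩, (0, 0, 0)⟩,
  ⟨⟨31, -74, -83, -81, -54, 68, -16, 13, -19⟩, (61, 33, 67)⟩,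
  ⟨⟨0, 0, 0, 0, 0, 0, 0, 0, 0⟩, (0, 0, 0)⟩,
  ⟨⟨0, 0, 0, 0, 0, 0, 0, 0, 0⟩, (0, 0, 0)⟩,
  ⟨⟨0, 0, 0, 0, 0, 0, 0, 0, 0⟩, (0, 0, 0)⟩,
  ⟨⟨0, 0, 0, 0, 0, 0, 0, 0, 0⟩, (0, 0, 0)⟩]

/-- Data of a prime. -/
noncomputable def Dm : PD := ⟨(nat_lit 53), (nat_lit 2), (2545, 8, 14), (2610, 800, 1557), (1968, 957, 2439)⟩

theorem Dm_ok : Dm.Ok := pdb_sound (s := 12) (C := ⟨⟨-13, 2, -76, -47, -58, 31, 18, -15, -13⟩, (40, 6, 18)⟩) (by show Nat.Prime 53; norm_num) (by decide +kernel)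

/-- Lines of the first type. -/
noncomputable def Clm : List C1 := [⟨⟨13, -2, -89, -47, -58, 16, 18, -15, -5⟩, (17, 16, 48)⟩,
  ⟨⟨-23, 38, -56, 43, 58, 1, 18, -9, -23⟩, (9, 50, 16)⟩,
  ⟨⟨-23, -38, -56, 43, -58, 1, 18, 9, -23⟩, (18, 47, 32)⟩,
  ⟨⟨-13, -2, -76, -47, 58, 31, 18, 15, -13⟩, (20, 3, 9)⟩,
  ⟨⟨0, 0, 0, 0, 0, 0, 0, 0, 0⟩, (0, 0, 0)⟩,
  ⟨⟨0, 0, 0, 0, 0, 0, 0, 0, 0⟩, (0, 0, 0)⟩,
  ⟨⟨0, 0, 0, 0, 0, 0, 0, 0, 0⟩, (0, 0, 0)⟩,
  ⟨⟨23, -38, -79, -43, -58, 44, -18, 9, -5⟩, (29, 8, 28)⟩,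
  ⟨⟨33, -18, -89, 67, 2, 4, 2, 23, -7⟩, (12, 34, 20)⟩,
  ⟨⟨0, 0, 0, 0, 0, 0, 0, 0, 0⟩, (0, 0, 0)⟩,
  ⟨⟨0, 0, 0, 0, 0, 0, 0, 0, 0⟩, (0, 0, 0)⟩,
  ⟨⟨0, 0, 0, 0, 0, 0, 0, 0, 0⟩, (0, 0, 0)⟩,
  ⟨⟨0, 0, 0, 0, 0, 0, 0, 0, 0⟩, (0, 0, 0)⟩,
  ⟨⟨27, 42, -76, 7, 58, 49, 22, -7, -5⟩, (1, 14, 44)⟩,
  ⟨⟨33, 18, -89, 67, -2, 4, 2, -23, -7⟩, (44, 1, 38)⟩,
  ⟨⟨0, 0, 0, 0, 0, 0, 0, 0, 0⟩, (0, 0, 0)⟩,
  ⟨⟨0, 0, 0, 0, 0, 0, 0, 0, 0⟩, (0, 0, 0)⟩,
  ⟨⟨0, 0, 0, 0, 0, 0, 0, 0, 0⟩, (0, 0, 0)⟩,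
  ⟨⟨0, 0, 0, 0, 0, 0, 0, 0, 0⟩, (0, 0, 0)⟩,
  ⟨⟨57, 42, -56, -37, 62, 41, -10, 1, -19⟩, (20, 27, 3)⟩,
  ⟨⟨13, 2, -89, -47, 58, 16, 18, 15, -5⟩, (50, 19, 4)⟩,
  ⟨⟨0, 0, 0, 0, 0, 0, 0, 0, 0⟩, (0, 0, 0)⟩,
  ⟨⟨0, 0, 0, 0, 0, 0, 0, 0, 0⟩, (0, 0, 0)⟩,
  ⟨⟨57, -42, -56, -37, -62, 41, -10, -1, -19⟩, (16, 11, 13)⟩,
  ⟨⟨0, 0, 0, 0, 0, 0, 0, 0, 0⟩, (0, 0, 0)⟩,
  ⟨⟨7, 58, -56, 27, 42, 49, 22, -7, -17⟩, (20, 9, 25)⟩,
  ⟨⟨0, 0, 0, 0, 0, 0, 0, 0, 0⟩, (0, 0, 0)⟩,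
  ⟨⟨67, -2, -71, 33, 18, 56, -2, 23, -5⟩, (28, 13, 49)⟩,
  ⟨⟨0, 0, 0, 0, 0, 0, 0, 0, 0⟩, (0, 0, 0)⟩,
  ⟨⟨0, 0, 0, 0, 0, 0, 0, 0, 0⟩, (0, 0, 0)⟩,
  ⟨⟨23, 38, -79, -43, 58, 44, -18, -9, -5⟩, (20, 11, 12)⟩,
  ⟨⟨0, 0, 0, 0, 0, 0, 0, 0, 0⟩, (0, 0, 0)⟩,
  ⟨⟨7, -58, -56, 27, -42, 49, 22, 7, -17⟩, (17, 5, 8)⟩,
  ⟨⟨0, 0, 0, 0, 0, 0, 0, 0, 0⟩, (0, 0, 0)⟩,
  ⟨⟨67, 2, -71, 33, -18, 56, -2, -23, -5⟩, (8, 34, 14)⟩,
  ⟨⟨27, -42, -76, 7, -58, 49, 22, 7, -5⟩, (50, 11, 27)⟩,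
  ⟨⟨0, 0, 0, 0, 0, 0, 0, 0, 0⟩, (0, 0, 0)⟩,
  ⟨⟨0, 0, 0, 0, 0, 0, 0, 0, 0⟩, (0, 0, 0)⟩,
  ⟨⟨0, 0, 0, 0, 0, 0, 0, 0, 0⟩, (0, 0, 0)⟩,
  ⟨⟨0, 0, 0, 0, 0, 0, 0, 0, 0⟩, (0, 0, 0)⟩,
  ⟨⟨0, 0, 0, 0, 0, 0, 0, 0, 0⟩, (0, 0, 0)⟩,
  ⟨⟨0, 0, 0, 0, 0, 0, 0, 0, 0⟩, (0, 0, 0)⟩,
  ⟨⟨0, 0, 0, 0, 0, 0, 0, 0, 0⟩, (0, 0, 0)⟩,
  ⟨⟨0, 0, 0, 0, 0, 0, 0, 0, 0⟩, (0, 0, 0)⟩,
  ⟨⟨0, 0, 0, 0, 0, 0, 0, 0, 0⟩, (0, 0, 0)⟩,
  ⟨⟨-37, 62, -4, -57, -42, 1, 10, -1, -29⟩, (22, 21, 27)⟩,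
  ⟨⟨0, 0, 0, 0, 0, 0, 0, 0, 0⟩, (0, 0, 0)⟩,
  ⟨⟨0, 0, 0, 0, 0, 0, 0, 0, 0⟩, (0, 0, 0)⟩,
  ⟨⟨0, 0, 0, 0, 0, 0, 0, 0, 0⟩, (0, 0, 0)⟩,
  ⟨⟨0, 0, 0, 0, 0, 0, 0, 0, 0⟩, (0, 0, 0)⟩,
  ⟨⟨0, 0, 0, 0, 0, 0, 0, 0, 0⟩, (0, 0, 0)⟩,
  ⟨⟨-37, -62, -4, -57, 42, 1, 10, 1, -29⟩, (6, 25, 17)⟩,
  ⟨⟨0, 0, 0, 0, 0, 0, 0, 0, 0⟩, (0, 0, 0)⟩]

/-- Unit moves. -/
noncomputable def U : List Mv := [mz,
  mz,
  mz,
  mz,
  mz,
  ⟨⟨-1, 0, 1, 0, 1, 0, 0, 0, 1⟩, .nil, (nat_lit 18), (nat_lit 9), (nat_lit 4), (nat_lit 1), (0, 0, 0), [], 18⟩,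
  ⟨⟨-1, 0, 1, 0, -1, 0, 0, 0, 1⟩, .nil, (nat_lit 0), (nat_lit 12), (nat_lit 1), (nat_lit 0), (0, 0, 0), [], 7⟩,
  mz,
  mz,
  mz,
  ⟨⟨1, 0, 0, 0, -1, 0, 0, 0, 1⟩, .nil, (nat_lit 18), (nat_lit 14), (nat_lit 2), (nat_lit 1), (0, 0, 0), [], 10⟩,
  ⟨⟨-1, 0, 1, 0, -1, 0, 0, 0, 1⟩, .nil, (nat_lit 0), (nat_lit 12), (nat_lit 1), (nat_lit 0), (0, 0, 0), [], 7⟩,
  ⟨⟨-1, 0, 1, 0, -1, 0, 0, 0, 1⟩, .nil, (nat_lit 0), (nat_lit 12), (nat_lit 1), (nat_lit 0), (0, 0, 0), [], 7⟩,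
  ⟨⟨-1, 0, 1, 0, 1, 0, 0, 0, 1⟩, .nil, (nat_lit 18), (nat_lit 9), (nat_lit 4), (nat_lit 1), (0, 0, 0), [], 18⟩,
  mz,
  ⟨⟨-1, 0, 1, 0, 1, 0, 0, 0, 1⟩, .nil, (nat_lit 18), (nat_lit 9), (nat_lit 4), (nat_lit 1), (0, 0, 0), [], 18⟩,
  ⟨⟨1, 0, 0, 0, -1, 0, 0, 0, 1⟩, .nil, (nat_lit 18), (nat_lit 14), (nat_lit 2), (nat_lit 1), (0, 0, 0), [], 10⟩,
  ⟨⟨1, 0, 0, 0, -1, 0, 0, 0, 1⟩, .nil, (nat_lit 18), (nat_lit 14), (nat_lit 2), (nat_lit 1), (0, 0, 0), [], 10⟩,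
  mz]

theorem v_ty : tyb Dm S.ty1 Clm = true := by decide +kernel

theorem v_ty0 : tyb D0 (S.tys.getD 0 0) Cl0 = true := by decide +kernel

theorem v_ty1 : tyb D1 (S.tys.getD 1 0) Cl1 = true := by decide +kernel

theorem v_msc : mscb S D0 [D1] Dm (nat_lit 262) = true := by decide +kernel

theorem v_mv0 : mvsn (nat_lit 5111821009) S D0 [D1] Dm (nat_lit 262) 0 D0 = true := by decide +kernel

theorem v_mv1 : mvsn (nat_lit 5111821009) S D0 [D1] Dm (nat_lit 262) 1 D1 = true := by decide +kernel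

theorem v_mm : mmsn (nat_lit 5111821009) S D0 [D1] Dm (nat_lit 262) = true := by decide +kernel

theorem v_un : unb S D0 (nat_lit 262) U = true := by decide +kernel

theorem v_ok : okb S.oks [(0, 0, 0), (0, 0, 0)] = true := by decide +kernel

theorem v_part : ∀ d < D0.p, (nat_lit 262).testBit d = true → part S (zc (D0 :: [D1])) d = true := by
  intro d hd h
  have h1 : ∀ d < 19, (nat_lit 262).testBit d = true → d = 1 ∨ d = 2 ∨ d = 8 := by decide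
  rcases h1 d hd h with rfl | rfl | rfl
  · exact part_1
  · exact part_2
  · exact part_8

theorem main (n : ℕ) (ho : Odd n) (hr : ¬ Rep n) (h0 : Split 19 n) (h1 : Split 71 n) (hm : Split 53 n) :
    n ∈ EE := by
  refine concln (W := nat_lit 5111821009) (S := S) (P0 := D0) (Pl := [D1]) (Pm := Dm) (cn := nat_lit 262) ?_ Dm_ok v_ty ?_ ?_ v_msc ?_ v_mm v_un v_part v_ok
    n ho hr ?_ hm
  · simp only [List.forall_mem_cons]
    exact ⟨D0_ok, D1_ok, fun _ h => absurd h (by simp)⟩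
  · exact all2 (φ := fun j P => ∃ L, tyb P (S.tys.getD j 0) L = true) ⟨_, v_ty0⟩ ⟨_, v_ty1⟩
  · exact all2 (φ := fun j P => Nat.ble (S.pks.getD j 0) (Nat.pow P.p P.K) = true) (by decide +kernel) (by decide +kernel)
  · exact all2 (φ := fun i P => mvsn (nat_lit 5111821009) S D0 [D1] Dm (nat_lit 262) i P = true) v_mv0 v_mv1
  · simp only [List.forall_mem_cons]
    exact ⟨h0, h1, fun _ h => absurd h (by simp)⟩

end Pool.Agent.Work.MP_9954fe_nt.P19_71_53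

namespace Pool.Agent.Work.MP_9954fe_nt.P31_47_71

/-- Dummy move. -/
noncomputable def mz : Mv := ⟨⟨0, 0, 0, 0, 0, 0, 0, 0, 0⟩, .nil, (nat_lit 0), (nat_lit 0), (nat_lit 0), (nat_lit 0), (0, 0, 0), [], 0⟩

/-- Moves. -/
noncomputable def t0_1 : List Mv := [
  ⟨⟨3, 20, 29, -4, 25, -18, 26, 8, -7⟩, (.cons (nat_lit 10329) (nat_lit 21285) (nat_lit 4930) (nat_lit 1)
 (.cons (nat_lit 1951) (nat_lit 291) (nat_lit 25) (nat_lit 1) .nil)), (nat_lit 42), (nat_lit 59), (nat_lit 31),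
 (nat_lit 1), (26, 17, 29), [819, 1578], 17⟩,
  ⟨⟨23, -12, -36, -4, 25, -18, 26, 8, -7⟩, (.cons (nat_lit 3271) (nat_lit 12916) (nat_lit 935) (nat_lit 1)
 (.cons (nat_lit 634) (nat_lit 2106) (nat_lit 1999) (nat_lit 1) .nil)), (nat_lit 5), (nat_lit 66), (nat_lit
 66), (nat_lit 1), (3, 17, 29), [21957, 779], 19⟩,
  ⟨⟨3, 20, 29, -4, 25, -18, 26, 8, -7⟩, (.cons (nat_lit 10329) (nat_lit 21285) (nat_lit 4930) (nat_lit 1)
 (.cons (nat_lit 1951) (nat_lit 291) (nat_lit 25) (nat_lit 1) .nil)), (nat_lit 42), (nat_lit 59), (nat_lit 31),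
 (nat_lit 1), (26, 17, 29), [819, 1578], 17⟩,
  ⟨⟨3, 20, 29, -4, 25, -18, 26, 8, -7⟩, (.cons (nat_lit 10329) (nat_lit 21285) (nat_lit 4930) (nat_lit 1)
 (.cons (nat_lit 1951) (nat_lit 291) (nat_lit 25) (nat_lit 1) .nil)), (nat_lit 42), (nat_lit 59), (nat_lit 31),
 (nat_lit 1), (26, 17, 29), [819, 1578], 17⟩,
  ⟨⟨23, -12, -36, -4, 25, -18, 26, 8, -7⟩, (.cons (nat_lit 3271) (nat_lit 12916) (nat_lit 935) (nat_lit 1)
 (.cons (nat_lit 634) (nat_lit 2106) (nat_lit 1999) (nat_lit 1) .nil)), (nat_lit 5), (nat_lit 66), (nat_lit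
 66), (nat_lit 1), (3, 17, 29), [21957, 779], 19⟩,
  ⟨⟨3, 20, 29, -4, 25, -18, 26, 8, -7⟩, (.cons (nat_lit 10329) (nat_lit 21285) (nat_lit 4930) (nat_lit 1)
 (.cons (nat_lit 1951) (nat_lit 291) (nat_lit 25) (nat_lit 1) .nil)), (nat_lit 42), (nat_lit 59), (nat_lit 31),
 (nat_lit 1), (26, 17, 29), [819, 1578], 17⟩,
  ⟨⟨3, 20, 29, -4, 25, -18, 26, 8, -7⟩, (.cons (nat_lit 10329) (nat_lit 21285) (nat_lit 4930) (nat_lit 1)
 (.cons (nat_lit 1951) (nat_lit 291) (nat_lit 25) (nat_lit 1) .nil)), (nat_lit 42), (nat_lit 59), (nat_lit 31),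
 (nat_lit 1), (26, 17, 29), [819, 1578], 17⟩,
  ⟨⟨23, -12, -36, 4, -25, 18, 26, 8, -7⟩, (.cons (nat_lit 10345) (nat_lit 11678) (nat_lit 29062) (nat_lit 1)
 (.cons (nat_lit 416) (nat_lit 434) (nat_lit 692) (nat_lit 1) .nil)), (nat_lit 65), (nat_lit 25), (nat_lit 32),
 (nat_lit 1), (3, 14, 29), [26410, 1800], 65⟩,
  ⟨⟨3, 20, 29, -4, 25, -18, 26, 8, -7⟩, (.cons (nat_lit 10329) (nat_lit 21285) (nat_lit 4930) (nat_lit 1)
 (.cons (nat_lit 1951) (nat_lit 291) (nat_lit 25) (nat_lit 1) .nil)), (nat_lit 42), (nat_lit 59), (nat_lit 31),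
 (nat_lit 1), (26, 17, 29), [819, 1578], 17⟩,
  ⟨⟨23, -12, -36, 4, -25, 18, 26, 8, -7⟩, (.cons (nat_lit 10345) (nat_lit 11678) (nat_lit 29062) (nat_lit 1)
 (.cons (nat_lit 416) (nat_lit 434) (nat_lit 692) (nat_lit 1) .nil)), (nat_lit 65), (nat_lit 25), (nat_lit 32),
 (nat_lit 1), (3, 14, 29), [26410, 1800], 65⟩,
  ⟨⟨3, 20, 29, -4, 25, -18, 26, 8, -7⟩, (.cons (nat_lit 10329) (nat_lit 21285) (nat_lit 4930) (nat_lit 1)
 (.cons (nat_lit 1951) (nat_lit 291) (nat_lit 25) (nat_lit 1) .nil)), (nat_lit 42), (nat_lit 59), (nat_lit 31),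
 (nat_lit 1), (26, 17, 29), [819, 1578], 17⟩,
  ⟨⟨23, -12, -36, -4, 25, -18, 26, 8, -7⟩, (.cons (nat_lit 3271) (nat_lit 12916) (nat_lit 935) (nat_lit 1)
 (.cons (nat_lit 634) (nat_lit 2106) (nat_lit 1999) (nat_lit 1) .nil)), (nat_lit 5), (nat_lit 66), (nat_lit
 66), (nat_lit 1), (3, 17, 29), [21957, 779], 19⟩,
  ⟨⟨3, 20, 29, -4, 25, -18, 26, 8, -7⟩, (.cons (nat_lit 10329) (nat_lit 21285) (nat_lit 4930) (nat_lit 1)
 (.cons (nat_lit 1951) (nat_lit 291) (nat_lit 25) (nat_lit 1) .nil)), (nat_lit 42), (nat_lit 59), (nat_lit 31),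
 (nat_lit 1), (26, 17, 29), [819, 1578], 17⟩,
  ⟨⟨23, -12, -36, 4, -25, 18, 26, 8, -7⟩, (.cons (nat_lit 10345) (nat_lit 11678) (nat_lit 29062) (nat_lit 1)
 (.cons (nat_lit 416) (nat_lit 434) (nat_lit 692) (nat_lit 1) .nil)), (nat_lit 65), (nat_lit 25), (nat_lit 32),
 (nat_lit 1), (3, 14, 29), [26410, 1800], 65⟩,
  ⟨⟨3, 20, 29, -4, 25, -18, 26, 8, -7⟩, (.cons (nat_lit 10329) (nat_lit 21285) (nat_lit 4930) (nat_lit 1)
 (.cons (nat_lit 1951) (nat_lit 291) (nat_lit 25) (nat_lit 1) .nil)), (nat_lit 42), (nat_lit 59), (nat_lit 31),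
 (nat_lit 1), (26, 17, 29), [819, 1578], 17⟩,
  ⟨⟨3, 20, 29, -4, 25, -18, 26, 8, -7⟩, (.cons (nat_lit 10329) (nat_lit 21285) (nat_lit 4930) (nat_lit 1)
 (.cons (nat_lit 1951) (nat_lit 291) (nat_lit 25) (nat_lit 1) .nil)), (nat_lit 42), (nat_lit 59), (nat_lit 31),
 (nat_lit 1), (26, 17, 29), [819, 1578], 17⟩,
  ⟨⟨23, -12, -36, -4, 25, -18, 26, 8, -7⟩, (.cons (nat_lit 3271) (nat_lit 12916) (nat_lit 935) (nat_lit 1)
 (.cons (nat_lit 634) (nat_lit 2106) (nat_lit 1999) (nat_lit 1) .nil)), (nat_lit 5), (nat_lit 66), (nat_lit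
 66), (nat_lit 1), (3, 17, 29), [21957, 779], 19⟩,
  ⟨⟨3, 20, 29, -4, 25, -18, 26, 8, -7⟩, (.cons (nat_lit 10329) (nat_lit 21285) (nat_lit 4930) (nat_lit 1)
 (.cons (nat_lit 1951) (nat_lit 291) (nat_lit 25) (nat_lit 1) .nil)), (nat_lit 42), (nat_lit 59), (nat_lit 31),
 (nat_lit 1), (26, 17, 29), [819, 1578], 17⟩,
  ⟨⟨23, -12, -36, -4, 25, -18, 26, 8, -7⟩, (.cons (nat_lit 3271) (nat_lit 12916) (nat_lit 935) (nat_lit 1)
 (.cons (nat_lit 634) (nat_lit 2106) (nat_lit 1999) (nat_lit 1) .nil)), (nat_lit 5), (nat_lit 66), (nat_lit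
 66), (nat_lit 1), (3, 17, 29), [21957, 779], 19⟩,
  ⟨⟨3, 20, 29, 4, -25, 18, 26, 8, -7⟩, (.cons (nat_lit 29043) (nat_lit 18841) (nat_lit 22172) (nat_lit 1)
 (.cons (nat_lit 1699) (nat_lit 647) (nat_lit 1961) (nat_lit 1) .nil)), (nat_lit 55), (nat_lit 60), (nat_lit
 70), (nat_lit 1), (26, 14, 29), [15793, 1330], 15⟩,
  ⟨⟨3, 20, 29, 4, -25, 18, 26, 8, -7⟩, (.cons (nat_lit 29043) (nat_lit 18841) (nat_lit 22172) (nat_lit 1)
 (.cons (nat_lit 1699) (nat_lit 647) (nat_lit 1961) (nat_lit 1) .nil)), (nat_lit 55), (nat_lit 60), (nat_lit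
 70), (nat_lit 1), (26, 14, 29), [15793, 1330], 15⟩,
  ⟨⟨3, 20, 29, -4, 25, -18, 26, 8, -7⟩, (.cons (nat_lit 10329) (nat_lit 21285) (nat_lit 4930) (nat_lit 1)
 (.cons (nat_lit 1951) (nat_lit 291) (nat_lit 25) (nat_lit 1) .nil)), (nat_lit 42), (nat_lit 59), (nat_lit 31),
 (nat_lit 1), (26, 17, 29), [819, 1578], 17⟩,
  ⟨⟨3, 20, 29, -4, 25, -18, 26, 8, -7⟩, (.cons (nat_lit 10329) (nat_lit 21285) (nat_lit 4930) (nat_lit 1)
 (.cons (nat_lit 1951) (nat_lit 291) (nat_lit 25) (nat_lit 1) .nil)), (nat_lit 42), (nat_lit 59), (nat_lit 31),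
 (nat_lit 1), (26, 17, 29), [819, 1578], 17⟩,
  ⟨⟨3, 20, 29, 4, -25, 18, 26, 8, -7⟩, (.cons (nat_lit 29043) (nat_lit 18841) (nat_lit 22172) (nat_lit 1)
 (.cons (nat_lit 1699) (nat_lit 647) (nat_lit 1961) (nat_lit 1) .nil)), (nat_lit 55), (nat_lit 60), (nat_lit
 70), (nat_lit 1), (26, 14, 29), [15793, 1330], 15⟩,
  ⟨⟨3, 20, 29, -4, 25, -18, 26, 8, -7⟩, (.cons (nat_lit 10329) (nat_lit 21285) (nat_lit 4930) (nat_lit 1)
 (.cons (nat_lit 1951) (nat_lit 291) (nat_lit 25) (nat_lit 1) .nil)), (nat_lit 42), (nat_lit 59), (nat_lit 31),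
 (nat_lit 1), (26, 17, 29), [819, 1578], 17⟩,
  ⟨⟨23, -12, -36, 4, -25, 18, 26, 8, -7⟩, (.cons (nat_lit 10345) (nat_lit 11678) (nat_lit 29062) (nat_lit 1)
 (.cons (nat_lit 416) (nat_lit 434) (nat_lit 692) (nat_lit 1) .nil)), (nat_lit 65), (nat_lit 25), (nat_lit 32),
 (nat_lit 1), (3, 14, 29), [26410, 1800], 65⟩,
  ⟨⟨3, 20, 29, 4, -25, 18, 26, 8, -7⟩, (.cons (nat_lit 29043) (nat_lit 18841) (nat_lit 22172) (nat_lit 1)
 (.cons (nat_lit 1699) (nat_lit 647) (nat_lit 1961) (nat_lit 1) .nil)), (nat_lit 55), (nat_lit 60), (nat_lit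
 70), (nat_lit 1), (26, 14, 29), [15793, 1330], 15⟩,
  ⟨⟨3, 20, 29, -4, 25, -18, 26, 8, -7⟩, (.cons (nat_lit 10329) (nat_lit 21285) (nat_lit 4930) (nat_lit 1)
 (.cons (nat_lit 1951) (nat_lit 291) (nat_lit 25) (nat_lit 1) .nil)), (nat_lit 42), (nat_lit 59), (nat_lit 31),
 (nat_lit 1), (26, 17, 29), [819, 1578], 17⟩,
  ⟨⟨23, -12, -36, 4, -25, 18, 26, 8, -7⟩, (.cons (nat_lit 10345) (nat_lit 11678) (nat_lit 29062) (nat_lit 1)
 (.cons (nat_lit 416) (nat_lit 434) (nat_lit 692) (nat_lit 1) .nil)), (nat_lit 65), (nat_lit 25), (nat_lit 32),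
 (nat_lit 1), (3, 14, 29), [26410, 1800], 65⟩,
  ⟨⟨3, 20, 29, 4, -25, 18, 26, 8, -7⟩, (.cons (nat_lit 29043) (nat_lit 18841) (nat_lit 22172) (nat_lit 1)
 (.cons (nat_lit 1699) (nat_lit 647) (nat_lit 1961) (nat_lit 1) .nil)), (nat_lit 55), (nat_lit 60), (nat_lit
 70), (nat_lit 1), (26, 14, 29), [15793, 1330], 15⟩,
  ⟨⟨3, 20, 29, -4, 25, -18, 26, 8, -7⟩, (.cons (nat_lit 10329) (nat_lit 21285) (nat_lit 4930) (nat_lit 1)
 (.cons (nat_lit 1951) (nat_lit 291) (nat_lit 25) (nat_lit 1) .nil)), (nat_lit 42), (nat_lit 59), (nat_lit 31),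
 (nat_lit 1), (26, 17, 29), [819, 1578], 17⟩]

/-- Moves. -/
noncomputable def t0_4 : List Mv := [
  ⟨⟨-33, 8, 17, 4, 15, 28, -6, 24, -11⟩, (.cons (nat_lit 9483) (nat_lit 19565) (nat_lit 10748) (nat_lit 1)
 (.cons (nat_lit 1364) (nat_lit 37) (nat_lit 1214) (nat_lit 1) .nil)), (nat_lit 37), (nat_lit 29), (nat_lit
 57), (nat_lit 1), (23, 16, 7), [19532, 1734], 30⟩,
  ⟨⟨27, 16, -28, -4, -15, -28, -6, 24, -11⟩, (.cons (nat_lit 19008) (nat_lit 12086) (nat_lit 25737) (nat_lit 1)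
 (.cons (nat_lit 286) (nat_lit 1762) (nat_lit 860) (nat_lit 1) .nil)), (nat_lit 42), (nat_lit 68), (nat_lit
 38), (nat_lit 1), (15, 15, 7), [9457, 1704], 8⟩,
  ⟨⟨27, 16, -28, -4, -15, -28, -6, 24, -11⟩, (.cons (nat_lit 19008) (nat_lit 12086) (nat_lit 25737) (nat_lit 1)
 (.cons (nat_lit 286) (nat_lit 1762) (nat_lit 860) (nat_lit 1) .nil)), (nat_lit 42), (nat_lit 68), (nat_lit
 38), (nat_lit 1), (15, 15, 7), [9457, 1704], 8⟩,
  ⟨⟨27, 16, -28, -4, -15, -28, -6, 24, -11⟩, (.cons (nat_lit 19008) (nat_lit 12086) (nat_lit 25737) (nat_lit 1)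
 (.cons (nat_lit 286) (nat_lit 1762) (nat_lit 860) (nat_lit 1) .nil)), (nat_lit 42), (nat_lit 68), (nat_lit
 38), (nat_lit 1), (15, 15, 7), [9457, 1704], 8⟩,
  ⟨⟨-33, 8, 17, -4, -15, -28, -6, 24, -11⟩, (.cons (nat_lit 698) (nat_lit 820) (nat_lit 957) (nat_lit 1) (.cons
 (nat_lit 842) (nat_lit 917) (nat_lit 719) (nat_lit 1) .nil)), (nat_lit 35), (nat_lit 64), (nat_lit 4),
 (nat_lit 1), (23, 15, 7), [9476, 1751], 35⟩,
  ⟨⟨-33, 8, 17, 4, 15, 28, -6, 24, -11⟩, (.cons (nat_lit 9483) (nat_lit 19565) (nat_lit 10748) (nat_lit 1)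
 (.cons (nat_lit 1364) (nat_lit 37) (nat_lit 1214) (nat_lit 1) .nil)), (nat_lit 37), (nat_lit 29), (nat_lit
 57), (nat_lit 1), (23, 16, 7), [19532, 1734], 30⟩,
  ⟨⟨-33, 8, 17, -4, -15, -28, -6, 24, -11⟩, (.cons (nat_lit 698) (nat_lit 820) (nat_lit 957) (nat_lit 1) (.cons
 (nat_lit 842) (nat_lit 917) (nat_lit 719) (nat_lit 1) .nil)), (nat_lit 35), (nat_lit 64), (nat_lit 4),
 (nat_lit 1), (23, 15, 7), [9476, 1751], 35⟩,
  ⟨⟨27, 16, -28, -4, -15, -28, -6, 24, -11⟩, (.cons (nat_lit 19008) (nat_lit 12086) (nat_lit 25737) (nat_lit 1)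
 (.cons (nat_lit 286) (nat_lit 1762) (nat_lit 860) (nat_lit 1) .nil)), (nat_lit 42), (nat_lit 68), (nat_lit
 38), (nat_lit 1), (15, 15, 7), [9457, 1704], 8⟩,
  ⟨⟨27, 16, -28, -4, -15, -28, -6, 24, -11⟩, (.cons (nat_lit 19008) (nat_lit 12086) (nat_lit 25737) (nat_lit 1)
 (.cons (nat_lit 286) (nat_lit 1762) (nat_lit 860) (nat_lit 1) .nil)), (nat_lit 42), (nat_lit 68), (nat_lit
 38), (nat_lit 1), (15, 15, 7), [9457, 1704], 8⟩,
  ⟨⟨27, 16, -28, -4, -15, -28, -6, 24, -11⟩, (.cons (nat_lit 19008) (nat_lit 12086) (nat_lit 25737) (nat_lit 1)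
 (.cons (nat_lit 286) (nat_lit 1762) (nat_lit 860) (nat_lit 1) .nil)), (nat_lit 42), (nat_lit 68), (nat_lit
 38), (nat_lit 1), (15, 15, 7), [9457, 1704], 8⟩,
  ⟨⟨27, 16, -28, -4, -15, -28, -6, 24, -11⟩, (.cons (nat_lit 19008) (nat_lit 12086) (nat_lit 25737) (nat_lit 1)
 (.cons (nat_lit 286) (nat_lit 1762) (nat_lit 860) (nat_lit 1) .nil)), (nat_lit 42), (nat_lit 68), (nat_lit
 38), (nat_lit 1), (15, 15, 7), [9457, 1704], 8⟩,
  ⟨⟨27, 16, -28, -4, -15, -28, -6, 24, -11⟩, (.cons (nat_lit 19008) (nat_lit 12086) (nat_lit 25737) (nat_lit 1)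
 (.cons (nat_lit 286) (nat_lit 1762) (nat_lit 860) (nat_lit 1) .nil)), (nat_lit 42), (nat_lit 68), (nat_lit
 38), (nat_lit 1), (15, 15, 7), [9457, 1704], 8⟩,
  ⟨⟨27, 16, -28, 4, 15, 28, -6, 24, -11⟩, (.cons (nat_lit 18671) (nat_lit 20264) (nat_lit 19571) (nat_lit 1)
 (.cons (nat_lit 2208) (nat_lit 1514) (nat_lit 1825) (nat_lit 1) .nil)), (nat_lit 70), (nat_lit 53), (nat_lit
 66), (nat_lit 1), (15, 16, 7), [20072, 606], 52⟩,
  ⟨⟨27, 16, -28, -4, -15, -28, -6, 24, -11⟩, (.cons (nat_lit 19008) (nat_lit 12086) (nat_lit 25737) (nat_lit 1)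
 (.cons (nat_lit 286) (nat_lit 1762) (nat_lit 860) (nat_lit 1) .nil)), (nat_lit 42), (nat_lit 68), (nat_lit
 38), (nat_lit 1), (15, 15, 7), [9457, 1704], 8⟩,
  ⟨⟨27, 16, -28, -4, -15, -28, -6, 24, -11⟩, (.cons (nat_lit 19008) (nat_lit 12086) (nat_lit 25737) (nat_lit 1)
 (.cons (nat_lit 286) (nat_lit 1762) (nat_lit 860) (nat_lit 1) .nil)), (nat_lit 42), (nat_lit 68), (nat_lit
 38), (nat_lit 1), (15, 15, 7), [9457, 1704], 8⟩,
  ⟨⟨-33, 8, 17, 4, 15, 28, -6, 24, -11⟩, (.cons (nat_lit 9483) (nat_lit 19565) (nat_lit 10748) (nat_lit 1)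
 (.cons (nat_lit 1364) (nat_lit 37) (nat_lit 1214) (nat_lit 1) .nil)), (nat_lit 37), (nat_lit 29), (nat_lit
 57), (nat_lit 1), (23, 16, 7), [19532, 1734], 30⟩,
  ⟨⟨27, 16, -28, -4, -15, -28, -6, 24, -11⟩, (.cons (nat_lit 19008) (nat_lit 12086) (nat_lit 25737) (nat_lit 1)
 (.cons (nat_lit 286) (nat_lit 1762) (nat_lit 860) (nat_lit 1) .nil)), (nat_lit 42), (nat_lit 68), (nat_lit
 38), (nat_lit 1), (15, 15, 7), [9457, 1704], 8⟩,
  ⟨⟨27, 16, -28, -4, -15, -28, -6, 24, -11⟩, (.cons (nat_lit 19008) (nat_lit 12086) (nat_lit 25737) (nat_lit 1)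
 (.cons (nat_lit 286) (nat_lit 1762) (nat_lit 860) (nat_lit 1) .nil)), (nat_lit 42), (nat_lit 68), (nat_lit
 38), (nat_lit 1), (15, 15, 7), [9457, 1704], 8⟩,
  ⟨⟨27, 16, -28, -4, -15, -28, -6, 24, -11⟩, (.cons (nat_lit 19008) (nat_lit 12086) (nat_lit 25737) (nat_lit 1)
 (.cons (nat_lit 286) (nat_lit 1762) (nat_lit 860) (nat_lit 1) .nil)), (nat_lit 42), (nat_lit 68), (nat_lit
 38), (nat_lit 1), (15, 15, 7), [9457, 1704], 8⟩,
  ⟨⟨27, 16, -28, -4, -15, -28, -6, 24, -11⟩, (.cons (nat_lit 19008) (nat_lit 12086) (nat_lit 25737) (nat_lit 1)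
 (.cons (nat_lit 286) (nat_lit 1762) (nat_lit 860) (nat_lit 1) .nil)), (nat_lit 42), (nat_lit 68), (nat_lit
 38), (nat_lit 1), (15, 15, 7), [9457, 1704], 8⟩,
  ⟨⟨27, 16, -28, 4, 15, 28, -6, 24, -11⟩, (.cons (nat_lit 18671) (nat_lit 20264) (nat_lit 19571) (nat_lit 1)
 (.cons (nat_lit 2208) (nat_lit 1514) (nat_lit 1825) (nat_lit 1) .nil)), (nat_lit 70), (nat_lit 53), (nat_lit
 66), (nat_lit 1), (15, 16, 7), [20072, 606], 52⟩,
  ⟨⟨-33, 8, 17, -4, -15, -28, -6, 24, -11⟩, (.cons (nat_lit 698) (nat_lit 820) (nat_lit 957) (nat_lit 1) (.cons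
 (nat_lit 842) (nat_lit 917) (nat_lit 719) (nat_lit 1) .nil)), (nat_lit 35), (nat_lit 64), (nat_lit 4),
 (nat_lit 1), (23, 15, 7), [9476, 1751], 35⟩,
  ⟨⟨27, 16, -28, -4, -15, -28, -6, 24, -11⟩, (.cons (nat_lit 19008) (nat_lit 12086) (nat_lit 25737) (nat_lit 1)
 (.cons (nat_lit 286) (nat_lit 1762) (nat_lit 860) (nat_lit 1) .nil)), (nat_lit 42), (nat_lit 68), (nat_lit
 38), (nat_lit 1), (15, 15, 7), [9457, 1704], 8⟩,
  ⟨⟨27, 16, -28, -4, -15, -28, -6, 24, -11⟩, (.cons (nat_lit 19008) (nat_lit 12086) (nat_lit 25737) (nat_lit 1)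
 (.cons (nat_lit 286) (nat_lit 1762) (nat_lit 860) (nat_lit 1) .nil)), (nat_lit 42), (nat_lit 68), (nat_lit
 38), (nat_lit 1), (15, 15, 7), [9457, 1704], 8⟩,
  ⟨⟨27, 16, -28, 4, 15, 28, -6, 24, -11⟩, (.cons (nat_lit 18671) (nat_lit 20264) (nat_lit 19571) (nat_lit 1)
 (.cons (nat_lit 2208) (nat_lit 1514) (nat_lit 1825) (nat_lit 1) .nil)), (nat_lit 70), (nat_lit 53), (nat_lit
 66), (nat_lit 1), (15, 16, 7), [20072, 606], 52⟩,
  ⟨⟨-33, 8, 17, 4, 15, 28, -6, 24, -11⟩, (.cons (nat_lit 9483) (nat_lit 19565) (nat_lit 10748) (nat_lit 1)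
 (.cons (nat_lit 1364) (nat_lit 37) (nat_lit 1214) (nat_lit 1) .nil)), (nat_lit 37), (nat_lit 29), (nat_lit
 57), (nat_lit 1), (23, 16, 7), [19532, 1734], 30⟩,
  ⟨⟨-33, 8, 17, -4, -15, -28, -6, 24, -11⟩, (.cons (nat_lit 698) (nat_lit 820) (nat_lit 957) (nat_lit 1) (.cons
 (nat_lit 842) (nat_lit 917) (nat_lit 719) (nat_lit 1) .nil)), (nat_lit 35), (nat_lit 64), (nat_lit 4),
 (nat_lit 1), (23, 15, 7), [9476, 1751], 35⟩,
  ⟨⟨-33, 8, 17, -4, -15, -28, -6, 24, -11⟩, (.cons (nat_lit 698) (nat_lit 820) (nat_lit 957) (nat_lit 1) (.cons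
 (nat_lit 842) (nat_lit 917) (nat_lit 719) (nat_lit 1) .nil)), (nat_lit 35), (nat_lit 64), (nat_lit 4),
 (nat_lit 1), (23, 15, 7), [9476, 1751], 35⟩,
  ⟨⟨-33, 8, 17, 4, 15, 28, -6, 24, -11⟩, (.cons (nat_lit 9483) (nat_lit 19565) (nat_lit 10748) (nat_lit 1)
 (.cons (nat_lit 1364) (nat_lit 37) (nat_lit 1214) (nat_lit 1) .nil)), (nat_lit 37), (nat_lit 29), (nat_lit
 57), (nat_lit 1), (23, 16, 7), [19532, 1734], 30⟩,
  ⟨⟨27, 16, -28, 4, 15, 28, -6, 24, -11⟩, (.cons (nat_lit 18671) (nat_lit 20264) (nat_lit 19571) (nat_lit 1)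
 (.cons (nat_lit 2208) (nat_lit 1514) (nat_lit 1825) (nat_lit 1) .nil)), (nat_lit 70), (nat_lit 53), (nat_lit
 66), (nat_lit 1), (15, 16, 7), [20072, 606], 52⟩,
  ⟨⟨27, 16, -28, -4, -15, -28, -6, 24, -11⟩, (.cons (nat_lit 19008) (nat_lit 12086) (nat_lit 25737) (nat_lit 1)
 (.cons (nat_lit 286) (nat_lit 1762) (nat_lit 860) (nat_lit 1) .nil)), (nat_lit 42), (nat_lit 68), (nat_lit
 38), (nat_lit 1), (15, 15, 7), [9457, 1704], 8⟩]

/-- Moves. -/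
noncomputable def t0_6 : List Mv := [
  ⟨⟨1, -12, 35, -16, -25, -2, 22, -16, -5⟩, (.cons (nat_lit 19049) (nat_lit 27811) (nat_lit 11555) (nat_lit 1)
 (.cons (nat_lit 571) (nat_lit 640) (nat_lit 1013) (nat_lit 1) .nil)), (nat_lit 27), (nat_lit 12), (nat_lit
 25), (nat_lit 1), (1, 15, 22), [18461, 1800], 57⟩,
  ⟨⟨21, -4, -40, 16, 25, 2, 22, -16, -5⟩, (.cons (nat_lit 21670) (nat_lit 21293) (nat_lit 18379) (nat_lit 1)
 (.cons (nat_lit 1972) (nat_lit 535) (nat_lit 1877) (nat_lit 1) .nil)), (nat_lit 14), (nat_lit 46), (nat_lit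
 20), (nat_lit 1), (21, 16, 22), [12199, 672], 30⟩,
  ⟨⟨1, -12, 35, -16, -25, -2, 22, -16, -5⟩, (.cons (nat_lit 19049) (nat_lit 27811) (nat_lit 11555) (nat_lit 1)
 (.cons (nat_lit 571) (nat_lit 640) (nat_lit 1013) (nat_lit 1) .nil)), (nat_lit 27), (nat_lit 12), (nat_lit
 25), (nat_lit 1), (1, 15, 22), [18461, 1800], 57⟩,
  ⟨⟨1, -12, 35, -16, -25, -2, 22, -16, -5⟩, (.cons (nat_lit 19049) (nat_lit 27811) (nat_lit 11555) (nat_lit 1)
 (.cons (nat_lit 571) (nat_lit 640) (nat_lit 1013) (nat_lit 1) .nil)), (nat_lit 27), (nat_lit 12), (nat_lit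
 25), (nat_lit 1), (1, 15, 22), [18461, 1800], 57⟩,
  ⟨⟨1, -12, 35, -16, -25, -2, 22, -16, -5⟩, (.cons (nat_lit 19049) (nat_lit 27811) (nat_lit 11555) (nat_lit 1)
 (.cons (nat_lit 571) (nat_lit 640) (nat_lit 1013) (nat_lit 1) .nil)), (nat_lit 27), (nat_lit 12), (nat_lit
 25), (nat_lit 1), (1, 15, 22), [18461, 1800], 57⟩,
  ⟨⟨21, -4, -40, -16, -25, -2, 22, -16, -5⟩, (.cons (nat_lit 24108) (nat_lit 6469) (nat_lit 2252) (nat_lit 1)
 (.cons (nat_lit 2202) (nat_lit 1052) (nat_lit 1953) (nat_lit 1) .nil)), (nat_lit 65), (nat_lit 15), (nat_lit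
 6), (nat_lit 1), (21, 15, 22), [6072, 1565], 65⟩,
  ⟨⟨21, -4, -40, 16, 25, 2, 22, -16, -5⟩, (.cons (nat_lit 21670) (nat_lit 21293) (nat_lit 18379) (nat_lit 1)
 (.cons (nat_lit 1972) (nat_lit 535) (nat_lit 1877) (nat_lit 1) .nil)), (nat_lit 14), (nat_lit 46), (nat_lit
 20), (nat_lit 1), (21, 16, 22), [12199, 672], 30⟩,
  ⟨⟨21, -4, -40, -16, -25, -2, 22, -16, -5⟩, (.cons (nat_lit 24108) (nat_lit 6469) (nat_lit 2252) (nat_lit 1)
 (.cons (nat_lit 2202) (nat_lit 1052) (nat_lit 1953) (nat_lit 1) .nil)), (nat_lit 65), (nat_lit 15), (nat_lit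
 6), (nat_lit 1), (21, 15, 22), [6072, 1565], 65⟩,
  ⟨⟨1, -12, 35, -16, -25, -2, 22, -16, -5⟩, (.cons (nat_lit 19049) (nat_lit 27811) (nat_lit 11555) (nat_lit 1)
 (.cons (nat_lit 571) (nat_lit 640) (nat_lit 1013) (nat_lit 1) .nil)), (nat_lit 27), (nat_lit 12), (nat_lit
 25), (nat_lit 1), (1, 15, 22), [18461, 1800], 57⟩,
  ⟨⟨1, -12, 35, -16, -25, -2, 22, -16, -5⟩, (.cons (nat_lit 19049) (nat_lit 27811) (nat_lit 11555) (nat_lit 1)
 (.cons (nat_lit 571) (nat_lit 640) (nat_lit 1013) (nat_lit 1) .nil)), (nat_lit 27), (nat_lit 12), (nat_lit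
 25), (nat_lit 1), (1, 15, 22), [18461, 1800], 57⟩,
  ⟨⟨1, -12, 35, -16, -25, -2, 22, -16, -5⟩, (.cons (nat_lit 19049) (nat_lit 27811) (nat_lit 11555) (nat_lit 1)
 (.cons (nat_lit 571) (nat_lit 640) (nat_lit 1013) (nat_lit 1) .nil)), (nat_lit 27), (nat_lit 12), (nat_lit
 25), (nat_lit 1), (1, 15, 22), [18461, 1800], 57⟩,
  ⟨⟨21, -4, -40, -16, -25, -2, 22, -16, -5⟩, (.cons (nat_lit 24108) (nat_lit 6469) (nat_lit 2252) (nat_lit 1)
 (.cons (nat_lit 2202) (nat_lit 1052) (nat_lit 1953) (nat_lit 1) .nil)), (nat_lit 65), (nat_lit 15), (nat_lit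
 6), (nat_lit 1), (21, 15, 22), [6072, 1565], 65⟩,
  ⟨⟨1, -12, 35, -16, -25, -2, 22, -16, -5⟩, (.cons (nat_lit 19049) (nat_lit 27811) (nat_lit 11555) (nat_lit 1)
 (.cons (nat_lit 571) (nat_lit 640) (nat_lit 1013) (nat_lit 1) .nil)), (nat_lit 27), (nat_lit 12), (nat_lit
 25), (nat_lit 1), (1, 15, 22), [18461, 1800], 57⟩,
  ⟨⟨1, -12, 35, -16, -25, -2, 22, -16, -5⟩, (.cons (nat_lit 19049) (nat_lit 27811) (nat_lit 11555) (nat_lit 1)
 (.cons (nat_lit 571) (nat_lit 640) (nat_lit 1013) (nat_lit 1) .nil)), (nat_lit 27), (nat_lit 12), (nat_lit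
 25), (nat_lit 1), (1, 15, 22), [18461, 1800], 57⟩,
  ⟨⟨1, -12, 35, 16, 25, 2, 22, -16, -5⟩, (.cons (nat_lit 23499) (nat_lit 12259) (nat_lit 4310) (nat_lit 1)
 (.cons (nat_lit 1036) (nat_lit 1157) (nat_lit 608) (nat_lit 1) .nil)), (nat_lit 22), (nat_lit 51), (nat_lit
 28), (nat_lit 1), (1, 16, 22), [23139, 907], 63⟩,
  ⟨⟨21, -4, -40, -16, -25, -2, 22, -16, -5⟩, (.cons (nat_lit 24108) (nat_lit 6469) (nat_lit 2252) (nat_lit 1)
 (.cons (nat_lit 2202) (nat_lit 1052) (nat_lit 1953) (nat_lit 1) .nil)), (nat_lit 65), (nat_lit 15), (nat_lit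
 6), (nat_lit 1), (21, 15, 22), [6072, 1565], 65⟩,
  ⟨⟨21, -4, -40, 16, 25, 2, 22, -16, -5⟩, (.cons (nat_lit 21670) (nat_lit 21293) (nat_lit 18379) (nat_lit 1)
 (.cons (nat_lit 1972) (nat_lit 535) (nat_lit 1877) (nat_lit 1) .nil)), (nat_lit 14), (nat_lit 46), (nat_lit
 20), (nat_lit 1), (21, 16, 22), [12199, 672], 30⟩,
  ⟨⟨1, -12, 35, -16, -25, -2, 22, -16, -5⟩, (.cons (nat_lit 19049) (nat_lit 27811) (nat_lit 11555) (nat_lit 1)
 (.cons (nat_lit 571) (nat_lit 640) (nat_lit 1013) (nat_lit 1) .nil)), (nat_lit 27), (nat_lit 12), (nat_lit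
 25), (nat_lit 1), (1, 15, 22), [18461, 1800], 57⟩,
  ⟨⟨21, -4, -40, -16, -25, -2, 22, -16, -5⟩, (.cons (nat_lit 24108) (nat_lit 6469) (nat_lit 2252) (nat_lit 1)
 (.cons (nat_lit 2202) (nat_lit 1052) (nat_lit 1953) (nat_lit 1) .nil)), (nat_lit 65), (nat_lit 15), (nat_lit
 6), (nat_lit 1), (21, 15, 22), [6072, 1565], 65⟩,
  ⟨⟨21, -4, -40, 16, 25, 2, 22, -16, -5⟩, (.cons (nat_lit 21670) (nat_lit 21293) (nat_lit 18379) (nat_lit 1)
 (.cons (nat_lit 1972) (nat_lit 535) (nat_lit 1877) (nat_lit 1) .nil)), (nat_lit 14), (nat_lit 46), (nat_lit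
 20), (nat_lit 1), (21, 16, 22), [12199, 672], 30⟩,
  ⟨⟨1, -12, 35, -16, -25, -2, 22, -16, -5⟩, (.cons (nat_lit 19049) (nat_lit 27811) (nat_lit 11555) (nat_lit 1)
 (.cons (nat_lit 571) (nat_lit 640) (nat_lit 1013) (nat_lit 1) .nil)), (nat_lit 27), (nat_lit 12), (nat_lit
 25), (nat_lit 1), (1, 15, 22), [18461, 1800], 57⟩,
  ⟨⟨1, -12, 35, -16, -25, -2, 22, -16, -5⟩, (.cons (nat_lit 19049) (nat_lit 27811) (nat_lit 11555) (nat_lit 1)
 (.cons (nat_lit 571) (nat_lit 640) (nat_lit 1013) (nat_lit 1) .nil)), (nat_lit 27), (nat_lit 12), (nat_lit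
 25), (nat_lit 1), (1, 15, 22), [18461, 1800], 57⟩,
  ⟨⟨1, -12, 35, -16, -25, -2, 22, -16, -5⟩, (.cons (nat_lit 19049) (nat_lit 27811) (nat_lit 11555) (nat_lit 1)
 (.cons (nat_lit 571) (nat_lit 640) (nat_lit 1013) (nat_lit 1) .nil)), (nat_lit 27), (nat_lit 12), (nat_lit
 25), (nat_lit 1), (1, 15, 22), [18461, 1800], 57⟩,
  ⟨⟨1, -12, 35, 16, 25, 2, 22, -16, -5⟩, (.cons (nat_lit 23499) (nat_lit 12259) (nat_lit 4310) (nat_lit 1)
 (.cons (nat_lit 1036) (nat_lit 1157) (nat_lit 608) (nat_lit 1) .nil)), (nat_lit 22), (nat_lit 51), (nat_lit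
 28), (nat_lit 1), (1, 16, 22), [23139, 907], 63⟩,
  ⟨⟨1, -12, 35, 16, 25, 2, 22, -16, -5⟩, (.cons (nat_lit 23499) (nat_lit 12259) (nat_lit 4310) (nat_lit 1)
 (.cons (nat_lit 1036) (nat_lit 1157) (nat_lit 608) (nat_lit 1) .nil)), (nat_lit 22), (nat_lit 51), (nat_lit
 28), (nat_lit 1), (1, 16, 22), [23139, 907], 63⟩,
  ⟨⟨1, -12, 35, -16, -25, -2, 22, -16, -5⟩, (.cons (nat_lit 19049) (nat_lit 27811) (nat_lit 11555) (nat_lit 1)
 (.cons (nat_lit 571) (nat_lit 640) (nat_lit 1013) (nat_lit 1) .nil)), (nat_lit 27), (nat_lit 12), (nat_lit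
 25), (nat_lit 1), (1, 15, 22), [18461, 1800], 57⟩,
  ⟨⟨21, -4, -40, 16, 25, 2, 22, -16, -5⟩, (.cons (nat_lit 21670) (nat_lit 21293) (nat_lit 18379) (nat_lit 1)
 (.cons (nat_lit 1972) (nat_lit 535) (nat_lit 1877) (nat_lit 1) .nil)), (nat_lit 14), (nat_lit 46), (nat_lit
 20), (nat_lit 1), (21, 16, 22), [12199, 672], 30⟩,
  ⟨⟨1, -12, 35, -16, -25, -2, 22, -16, -5⟩, (.cons (nat_lit 19049) (nat_lit 27811) (nat_lit 11555) (nat_lit 1)
 (.cons (nat_lit 571) (nat_lit 640) (nat_lit 1013) (nat_lit 1) .nil)), (nat_lit 27), (nat_lit 12), (nat_lit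
 25), (nat_lit 1), (1, 15, 22), [18461, 1800], 57⟩,
  ⟨⟨1, -12, 35, -16, -25, -2, 22, -16, -5⟩, (.cons (nat_lit 19049) (nat_lit 27811) (nat_lit 11555) (nat_lit 1)
 (.cons (nat_lit 571) (nat_lit 640) (nat_lit 1013) (nat_lit 1) .nil)), (nat_lit 27), (nat_lit 12), (nat_lit
 25), (nat_lit 1), (1, 15, 22), [18461, 1800], 57⟩,
  ⟨⟨1, -12, 35, 16, 25, 2, 22, -16, -5⟩, (.cons (nat_lit 23499) (nat_lit 12259) (nat_lit 4310) (nat_lit 1)
 (.cons (nat_lit 1036) (nat_lit 1157) (nat_lit 608) (nat_lit 1) .nil)), (nat_lit 22), (nat_lit 51), (nat_lit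
 28), (nat_lit 1), (1, 16, 22), [23139, 907], 63⟩,
  ⟨⟨1, -12, 35, -16, -25, -2, 22, -16, -5⟩, (.cons (nat_lit 19049) (nat_lit 27811) (nat_lit 11555) (nat_lit 1)
 (.cons (nat_lit 571) (nat_lit 640) (nat_lit 1013) (nat_lit 1) .nil)), (nat_lit 27), (nat_lit 12), (nat_lit
 25), (nat_lit 1), (1, 15, 22), [18461, 1800], 57⟩]

/-- Moves. -/
noncomputable def t0_8 : List Mv := [
  ⟨⟨-31, 0, 0, 10, 19, -30, -4, -20, -19⟩, (.cons (nat_lit 17880) (nat_lit 10674) (nat_lit 28306) (nat_lit 1)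
 (.cons (nat_lit 2208) (nat_lit 291) (nat_lit 1993) (nat_lit 1) .nil)), (nat_lit 70), (nat_lit 42), (nat_lit
 12), (nat_lit 1), (0, 5, 29), [19958, 167], 36⟩,
  ⟨⟨-31, 0, 0, -10, -19, 30, -4, -20, -19⟩, (.cons (nat_lit 18714) (nat_lit 22983) (nat_lit 5336) (nat_lit 1)
 (.cons (nat_lit 919) (nat_lit 647) (nat_lit 825) (nat_lit 1) .nil)), (nat_lit 16), (nat_lit 65), (nat_lit 68),
 (nat_lit 1), (0, 26, 29), [28609, 1843], 62⟩,
  ⟨⟨-31, 0, 0, -10, -19, 30, -4, -20, -19⟩, (.cons (nat_lit 18714) (nat_lit 22983) (nat_lit 5336) (nat_lit 1)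
 (.cons (nat_lit 919) (nat_lit 647) (nat_lit 825) (nat_lit 1) .nil)), (nat_lit 16), (nat_lit 65), (nat_lit 68),
 (nat_lit 1), (0, 26, 29), [28609, 1843], 62⟩,
  ⟨⟨-31, 0, 0, -10, -19, 30, -4, -20, -19⟩, (.cons (nat_lit 18714) (nat_lit 22983) (nat_lit 5336) (nat_lit 1)
 (.cons (nat_lit 919) (nat_lit 647) (nat_lit 825) (nat_lit 1) .nil)), (nat_lit 16), (nat_lit 65), (nat_lit 68),
 (nat_lit 1), (0, 26, 29), [28609, 1843], 62⟩,
  ⟨⟨-31, 0, 0, 10, 19, -30, -4, -20, -19⟩, (.cons (nat_lit 17880) (nat_lit 10674) (nat_lit 28306) (nat_lit 1)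
 (.cons (nat_lit 2208) (nat_lit 291) (nat_lit 1993) (nat_lit 1) .nil)), (nat_lit 70), (nat_lit 42), (nat_lit
 12), (nat_lit 1), (0, 5, 29), [19958, 167], 36⟩,
  ⟨⟨-31, 0, 0, 10, 19, -30, -4, -20, -19⟩, (.cons (nat_lit 17880) (nat_lit 10674) (nat_lit 28306) (nat_lit 1)
 (.cons (nat_lit 2208) (nat_lit 291) (nat_lit 1993) (nat_lit 1) .nil)), (nat_lit 70), (nat_lit 42), (nat_lit
 12), (nat_lit 1), (0, 5, 29), [19958, 167], 36⟩,
  ⟨⟨-31, 0, 0, -10, -19, 30, -4, -20, -19⟩, (.cons (nat_lit 18714) (nat_lit 22983) (nat_lit 5336) (nat_lit 1)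
 (.cons (nat_lit 919) (nat_lit 647) (nat_lit 825) (nat_lit 1) .nil)), (nat_lit 16), (nat_lit 65), (nat_lit 68),
 (nat_lit 1), (0, 26, 29), [28609, 1843], 62⟩,
  ⟨⟨27, -20, -19, 10, 19, -30, -4, -20, -19⟩, (.cons (nat_lit 26014) (nat_lit 474) (nat_lit 645) (nat_lit 1)
 (.cons (nat_lit 1928) (nat_lit 2106) (nat_lit 583) (nat_lit 1) .nil)), (nat_lit 63), (nat_lit 50), (nat_lit
 21), (nat_lit 1), (29, 5, 29), [11597, 543], 67⟩,
  ⟨⟨27, -20, -19, -10, -19, 30, -4, -20, -19⟩, (.cons (nat_lit 4112) (nat_lit 3489) (nat_lit 20016) (nat_lit 1)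
 (.cons (nat_lit 491) (nat_lit 434) (nat_lit 2047) (nat_lit 1) .nil)), (nat_lit 36), (nat_lit 3), (nat_lit 49),
 (nat_lit 1), (29, 26, 29), [28183, 1232], 38⟩,
  ⟨⟨27, -20, -19, 10, 19, -30, -4, -20, -19⟩, (.cons (nat_lit 26014) (nat_lit 474) (nat_lit 645) (nat_lit 1)
 (.cons (nat_lit 1928) (nat_lit 2106) (nat_lit 583) (nat_lit 1) .nil)), (nat_lit 63), (nat_lit 50), (nat_lit
 21), (nat_lit 1), (29, 5, 29), [11597, 543], 67⟩,
  ⟨⟨-31, 0, 0, 10, 19, -30, -4, -20, -19⟩, (.cons (nat_lit 17880) (nat_lit 10674) (nat_lit 28306) (nat_lit 1)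
 (.cons (nat_lit 2208) (nat_lit 291) (nat_lit 1993) (nat_lit 1) .nil)), (nat_lit 70), (nat_lit 42), (nat_lit
 12), (nat_lit 1), (0, 5, 29), [19958, 167], 36⟩,
  ⟨⟨-31, 0, 0, 10, 19, -30, -4, -20, -19⟩, (.cons (nat_lit 17880) (nat_lit 10674) (nat_lit 28306) (nat_lit 1)
 (.cons (nat_lit 2208) (nat_lit 291) (nat_lit 1993) (nat_lit 1) .nil)), (nat_lit 70), (nat_lit 42), (nat_lit
 12), (nat_lit 1), (0, 5, 29), [19958, 167], 36⟩,
  ⟨⟨27, -20, -19, -10, -19, 30, -4, -20, -19⟩, (.cons (nat_lit 4112) (nat_lit 3489) (nat_lit 20016) (nat_lit 1)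
 (.cons (nat_lit 491) (nat_lit 434) (nat_lit 2047) (nat_lit 1) .nil)), (nat_lit 36), (nat_lit 3), (nat_lit 49),
 (nat_lit 1), (29, 26, 29), [28183, 1232], 38⟩,
  ⟨⟨27, -20, -19, -10, -19, 30, -4, -20, -19⟩, (.cons (nat_lit 4112) (nat_lit 3489) (nat_lit 20016) (nat_lit 1)
 (.cons (nat_lit 491) (nat_lit 434) (nat_lit 2047) (nat_lit 1) .nil)), (nat_lit 36), (nat_lit 3), (nat_lit 49),
 (nat_lit 1), (29, 26, 29), [28183, 1232], 38⟩,
  ⟨⟨-31, 0, 0, 10, 19, -30, -4, -20, -19⟩, (.cons (nat_lit 17880) (nat_lit 10674) (nat_lit 28306) (nat_lit 1)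
 (.cons (nat_lit 2208) (nat_lit 291) (nat_lit 1993) (nat_lit 1) .nil)), (nat_lit 70), (nat_lit 42), (nat_lit
 12), (nat_lit 1), (0, 5, 29), [19958, 167], 36⟩,
  ⟨⟨-31, 0, 0, 10, 19, -30, -4, -20, -19⟩, (.cons (nat_lit 17880) (nat_lit 10674) (nat_lit 28306) (nat_lit 1)
 (.cons (nat_lit 2208) (nat_lit 291) (nat_lit 1993) (nat_lit 1) .nil)), (nat_lit 70), (nat_lit 42), (nat_lit
 12), (nat_lit 1), (0, 5, 29), [19958, 167], 36⟩,
  ⟨⟨27, -20, -19, -10, -19, 30, -4, -20, -19⟩, (.cons (nat_lit 4112) (nat_lit 3489) (nat_lit 20016) (nat_lit 1)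
 (.cons (nat_lit 491) (nat_lit 434) (nat_lit 2047) (nat_lit 1) .nil)), (nat_lit 36), (nat_lit 3), (nat_lit 49),
 (nat_lit 1), (29, 26, 29), [28183, 1232], 38⟩,
  ⟨⟨-31, 0, 0, -10, -19, 30, -4, -20, -19⟩, (.cons (nat_lit 18714) (nat_lit 22983) (nat_lit 5336) (nat_lit 1)
 (.cons (nat_lit 919) (nat_lit 647) (nat_lit 825) (nat_lit 1) .nil)), (nat_lit 16), (nat_lit 65), (nat_lit 68),
 (nat_lit 1), (0, 26, 29), [28609, 1843], 62⟩,
  ⟨⟨27, -20, -19, 10, 19, -30, -4, -20, -19⟩, (.cons (nat_lit 26014) (nat_lit 474) (nat_lit 645) (nat_lit 1)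
 (.cons (nat_lit 1928) (nat_lit 2106) (nat_lit 583) (nat_lit 1) .nil)), (nat_lit 63), (nat_lit 50), (nat_lit
 21), (nat_lit 1), (29, 5, 29), [11597, 543], 67⟩,
  ⟨⟨27, -20, -19, 10, 19, -30, -4, -20, -19⟩, (.cons (nat_lit 26014) (nat_lit 474) (nat_lit 645) (nat_lit 1)
 (.cons (nat_lit 1928) (nat_lit 2106) (nat_lit 583) (nat_lit 1) .nil)), (nat_lit 63), (nat_lit 50), (nat_lit
 21), (nat_lit 1), (29, 5, 29), [11597, 543], 67⟩,
  ⟨⟨-31, 0, 0, 10, 19, -30, -4, -20, -19⟩, (.cons (nat_lit 17880) (nat_lit 10674) (nat_lit 28306) (nat_lit 1)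
 (.cons (nat_lit 2208) (nat_lit 291) (nat_lit 1993) (nat_lit 1) .nil)), (nat_lit 70), (nat_lit 42), (nat_lit
 12), (nat_lit 1), (0, 5, 29), [19958, 167], 36⟩,
  ⟨⟨-31, 0, 0, 10, 19, -30, -4, -20, -19⟩, (.cons (nat_lit 17880) (nat_lit 10674) (nat_lit 28306) (nat_lit 1)
 (.cons (nat_lit 2208) (nat_lit 291) (nat_lit 1993) (nat_lit 1) .nil)), (nat_lit 70), (nat_lit 42), (nat_lit
 12), (nat_lit 1), (0, 5, 29), [19958, 167], 36⟩,
  ⟨⟨27, -20, -19, -10, -19, 30, -4, -20, -19⟩, (.cons (nat_lit 4112) (nat_lit 3489) (nat_lit 20016) (nat_lit 1)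
 (.cons (nat_lit 491) (nat_lit 434) (nat_lit 2047) (nat_lit 1) .nil)), (nat_lit 36), (nat_lit 3), (nat_lit 49),
 (nat_lit 1), (29, 26, 29), [28183, 1232], 38⟩,
  ⟨⟨-31, 0, 0, 10, 19, -30, -4, -20, -19⟩, (.cons (nat_lit 17880) (nat_lit 10674) (nat_lit 28306) (nat_lit 1)
 (.cons (nat_lit 2208) (nat_lit 291) (nat_lit 1993) (nat_lit 1) .nil)), (nat_lit 70), (nat_lit 42), (nat_lit
 12), (nat_lit 1), (0, 5, 29), [19958, 167], 36⟩,
  ⟨⟨-31, 0, 0, 10, 19, -30, -4, -20, -19⟩, (.cons (nat_lit 17880) (nat_lit 10674) (nat_lit 28306) (nat_lit 1)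
 (.cons (nat_lit 2208) (nat_lit 291) (nat_lit 1993) (nat_lit 1) .nil)), (nat_lit 70), (nat_lit 42), (nat_lit
 12), (nat_lit 1), (0, 5, 29), [19958, 167], 36⟩,
  ⟨⟨-31, 0, 0, 10, 19, -30, -4, -20, -19⟩, (.cons (nat_lit 17880) (nat_lit 10674) (nat_lit 28306) (nat_lit 1)
 (.cons (nat_lit 2208) (nat_lit 291) (nat_lit 1993) (nat_lit 1) .nil)), (nat_lit 70), (nat_lit 42), (nat_lit
 12), (nat_lit 1), (0, 5, 29), [19958, 167], 36⟩,
  ⟨⟨-31, 0, 0, 10, 19, -30, -4, -20, -19⟩, (.cons (nat_lit 17880) (nat_lit 10674) (nat_lit 28306) (nat_lit 1)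
 (.cons (nat_lit 2208) (nat_lit 291) (nat_lit 1993) (nat_lit 1) .nil)), (nat_lit 70), (nat_lit 42), (nat_lit
 12), (nat_lit 1), (0, 5, 29), [19958, 167], 36⟩,
  ⟨⟨-31, 0, 0, 10, 19, -30, -4, -20, -19⟩, (.cons (nat_lit 17880) (nat_lit 10674) (nat_lit 28306) (nat_lit 1)
 (.cons (nat_lit 2208) (nat_lit 291) (nat_lit 1993) (nat_lit 1) .nil)), (nat_lit 70), (nat_lit 42), (nat_lit
 12), (nat_lit 1), (0, 5, 29), [19958, 167], 36⟩,
  ⟨⟨-31, 0, 0, 10, 19, -30, -4, -20, -19⟩, (.cons (nat_lit 17880) (nat_lit 10674) (nat_lit 28306) (nat_lit 1)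
 (.cons (nat_lit 2208) (nat_lit 291) (nat_lit 1993) (nat_lit 1) .nil)), (nat_lit 70), (nat_lit 42), (nat_lit
 12), (nat_lit 1), (0, 5, 29), [19958, 167], 36⟩,
  ⟨⟨27, -20, -19, 10, 19, -30, -4, -20, -19⟩, (.cons (nat_lit 26014) (nat_lit 474) (nat_lit 645) (nat_lit 1)
 (.cons (nat_lit 1928) (nat_lit 2106) (nat_lit 583) (nat_lit 1) .nil)), (nat_lit 63), (nat_lit 50), (nat_lit
 21), (nat_lit 1), (29, 5, 29), [11597, 543], 67⟩,
  ⟨⟨-31, 0, 0, 10, 19, -30, -4, -20, -19⟩, (.cons (nat_lit 17880) (nat_lit 10674) (nat_lit 28306) (nat_lit 1)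
 (.cons (nat_lit 2208) (nat_lit 291) (nat_lit 1993) (nat_lit 1) .nil)), (nat_lit 70), (nat_lit 42), (nat_lit
 12), (nat_lit 1), (0, 5, 29), [19958, 167], 36⟩]

/-- Moves. -/
noncomputable def t0_19 : List Mv := [
  ⟨⟨-9, 8, -31, -10, -29, 0, 20, -4, -31⟩, (.cons (nat_lit 21643) (nat_lit 14735) (nat_lit 10269) (nat_lit 1)
 (.cons (nat_lit 95) (nat_lit 552) (nat_lit 533) (nat_lit 1) .nil)), (nat_lit 49), (nat_lit 32), (nat_lit 35),
 (nat_lit 1), (2, 16, 30), [13374, 1208], 44⟩,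
  ⟨⟨-9, 8, -31, -10, -29, 0, 20, -4, -31⟩, (.cons (nat_lit 21643) (nat_lit 14735) (nat_lit 10269) (nat_lit 1)
 (.cons (nat_lit 95) (nat_lit 552) (nat_lit 533) (nat_lit 1) .nil)), (nat_lit 49), (nat_lit 32), (nat_lit 35),
 (nat_lit 1), (2, 16, 30), [13374, 1208], 44⟩,
  ⟨⟨-9, 8, -31, -10, -29, 0, 20, -4, -31⟩, (.cons (nat_lit 21643) (nat_lit 14735) (nat_lit 10269) (nat_lit 1)
 (.cons (nat_lit 95) (nat_lit 552) (nat_lit 533) (nat_lit 1) .nil)), (nat_lit 49), (nat_lit 32), (nat_lit 35),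
 (nat_lit 1), (2, 16, 30), [13374, 1208], 44⟩,
  ⟨⟨-9, 8, -31, -10, -29, 0, 20, -4, -31⟩, (.cons (nat_lit 21643) (nat_lit 14735) (nat_lit 10269) (nat_lit 1)
 (.cons (nat_lit 95) (nat_lit 552) (nat_lit 533) (nat_lit 1) .nil)), (nat_lit 49), (nat_lit 32), (nat_lit 35),
 (nat_lit 1), (2, 16, 30), [13374, 1208], 44⟩,
  ⟨⟨29, -12, 0, 10, 29, 0, 20, -4, -31⟩, (.cons (nat_lit 20720) (nat_lit 16478) (nat_lit 13284) (nat_lit 1)
 (.cons (nat_lit 1842) (nat_lit 1061) (nat_lit 1124) (nat_lit 1) .nil)), (nat_lit 18), (nat_lit 35), (nat_lit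
 57), (nat_lit 1), (28, 15, 30), [28346, 2201], 14⟩,
  ⟨⟨-9, 8, -31, -10, -29, 0, 20, -4, -31⟩, (.cons (nat_lit 21643) (nat_lit 14735) (nat_lit 10269) (nat_lit 1)
 (.cons (nat_lit 95) (nat_lit 552) (nat_lit 533) (nat_lit 1) .nil)), (nat_lit 49), (nat_lit 32), (nat_lit 35),
 (nat_lit 1), (2, 16, 30), [13374, 1208], 44⟩,
  ⟨⟨-9, 8, -31, -10, -29, 0, 20, -4, -31⟩, (.cons (nat_lit 21643) (nat_lit 14735) (nat_lit 10269) (nat_lit 1)
 (.cons (nat_lit 95) (nat_lit 552) (nat_lit 533) (nat_lit 1) .nil)), (nat_lit 49), (nat_lit 32), (nat_lit 35),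
 (nat_lit 1), (2, 16, 30), [13374, 1208], 44⟩,
  ⟨⟨29, -12, 0, 10, 29, 0, 20, -4, -31⟩, (.cons (nat_lit 20720) (nat_lit 16478) (nat_lit 13284) (nat_lit 1)
 (.cons (nat_lit 1842) (nat_lit 1061) (nat_lit 1124) (nat_lit 1) .nil)), (nat_lit 18), (nat_lit 35), (nat_lit
 57), (nat_lit 1), (28, 15, 30), [28346, 2201], 14⟩,
  ⟨⟨29, -12, 0, 10, 29, 0, 20, -4, -31⟩, (.cons (nat_lit 20720) (nat_lit 16478) (nat_lit 13284) (nat_lit 1)
 (.cons (nat_lit 1842) (nat_lit 1061) (nat_lit 1124) (nat_lit 1) .nil)), (nat_lit 18), (nat_lit 35), (nat_lit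
 57), (nat_lit 1), (28, 15, 30), [28346, 2201], 14⟩,
  ⟨⟨-9, 8, -31, -10, -29, 0, 20, -4, -31⟩, (.cons (nat_lit 21643) (nat_lit 14735) (nat_lit 10269) (nat_lit 1)
 (.cons (nat_lit 95) (nat_lit 552) (nat_lit 533) (nat_lit 1) .nil)), (nat_lit 49), (nat_lit 32), (nat_lit 35),
 (nat_lit 1), (2, 16, 30), [13374, 1208], 44⟩,
  ⟨⟨-9, 8, -31, 10, 29, 0, 20, -4, -31⟩, (.cons (nat_lit 20973) (nat_lit 27323) (nat_lit 28556) (nat_lit 1)
 (.cons (nat_lit 179) (nat_lit 1665) (nat_lit 1030) (nat_lit 1) .nil)), (nat_lit 24), (nat_lit 16), (nat_lit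
 1), (nat_lit 0), (2, 15, 30), [11675, 1684], 1⟩,
  ⟨⟨-9, 8, -31, -10, -29, 0, 20, -4, -31⟩, (.cons (nat_lit 21643) (nat_lit 14735) (nat_lit 10269) (nat_lit 1)
 (.cons (nat_lit 95) (nat_lit 552) (nat_lit 533) (nat_lit 1) .nil)), (nat_lit 49), (nat_lit 32), (nat_lit 35),
 (nat_lit 1), (2, 16, 30), [13374, 1208], 44⟩,
  ⟨⟨-9, 8, -31, 10, 29, 0, 20, -4, -31⟩, (.cons (nat_lit 20973) (nat_lit 27323) (nat_lit 28556) (nat_lit 1)
 (.cons (nat_lit 179) (nat_lit 1665) (nat_lit 1030) (nat_lit 1) .nil)), (nat_lit 24), (nat_lit 16), (nat_lit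
 1), (nat_lit 0), (2, 15, 30), [11675, 1684], 1⟩,
  ⟨⟨-9, 8, -31, 10, 29, 0, 20, -4, -31⟩, (.cons (nat_lit 20973) (nat_lit 27323) (nat_lit 28556) (nat_lit 1)
 (.cons (nat_lit 179) (nat_lit 1665) (nat_lit 1030) (nat_lit 1) .nil)), (nat_lit 24), (nat_lit 16), (nat_lit
 1), (nat_lit 0), (2, 15, 30), [11675, 1684], 1⟩,
  ⟨⟨-9, 8, -31, -10, -29, 0, 20, -4, -31⟩, (.cons (nat_lit 21643) (nat_lit 14735) (nat_lit 10269) (nat_lit 1)
 (.cons (nat_lit 95) (nat_lit 552) (nat_lit 533) (nat_lit 1) .nil)), (nat_lit 49), (nat_lit 32), (nat_lit 35),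
 (nat_lit 1), (2, 16, 30), [13374, 1208], 44⟩,
  ⟨⟨-9, 8, -31, 10, 29, 0, 20, -4, -31⟩, (.cons (nat_lit 20973) (nat_lit 27323) (nat_lit 28556) (nat_lit 1)
 (.cons (nat_lit 179) (nat_lit 1665) (nat_lit 1030) (nat_lit 1) .nil)), (nat_lit 24), (nat_lit 16), (nat_lit
 1), (nat_lit 0), (2, 15, 30), [11675, 1684], 1⟩,
  ⟨⟨29, -12, 0, 10, 29, 0, 20, -4, -31⟩, (.cons (nat_lit 20720) (nat_lit 16478) (nat_lit 13284) (nat_lit 1)
 (.cons (nat_lit 1842) (nat_lit 1061) (nat_lit 1124) (nat_lit 1) .nil)), (nat_lit 18), (nat_lit 35), (nat_lit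
 57), (nat_lit 1), (28, 15, 30), [28346, 2201], 14⟩,
  ⟨⟨-9, 8, -31, 10, 29, 0, 20, -4, -31⟩, (.cons (nat_lit 20973) (nat_lit 27323) (nat_lit 28556) (nat_lit 1)
 (.cons (nat_lit 179) (nat_lit 1665) (nat_lit 1030) (nat_lit 1) .nil)), (nat_lit 24), (nat_lit 16), (nat_lit
 1), (nat_lit 0), (2, 15, 30), [11675, 1684], 1⟩,
  ⟨⟨29, -12, 0, -10, -29, 0, 20, -4, -31⟩, (.cons (nat_lit 7144) (nat_lit 25088) (nat_lit 19193) (nat_lit 1)
 (.cons (nat_lit 2208) (nat_lit 435) (nat_lit 1473) (nat_lit 1) .nil)), (nat_lit 70), (nat_lit 0), (nat_lit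
 37), (nat_lit 1), (28, 16, 30), [5093, 2101], 40⟩,
  ⟨⟨29, -12, 0, -10, -29, 0, 20, -4, -31⟩, (.cons (nat_lit 7144) (nat_lit 25088) (nat_lit 19193) (nat_lit 1)
 (.cons (nat_lit 2208) (nat_lit 435) (nat_lit 1473) (nat_lit 1) .nil)), (nat_lit 70), (nat_lit 0), (nat_lit
 37), (nat_lit 1), (28, 16, 30), [5093, 2101], 40⟩,
  ⟨⟨-9, 8, -31, -10, -29, 0, 20, -4, -31⟩, (.cons (nat_lit 21643) (nat_lit 14735) (nat_lit 10269) (nat_lit 1)
 (.cons (nat_lit 95) (nat_lit 552) (nat_lit 533) (nat_lit 1) .nil)), (nat_lit 49), (nat_lit 32), (nat_lit 35),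
 (nat_lit 1), (2, 16, 30), [13374, 1208], 44⟩,
  ⟨⟨-9, 8, -31, -10, -29, 0, 20, -4, -31⟩, (.cons (nat_lit 21643) (nat_lit 14735) (nat_lit 10269) (nat_lit 1)
 (.cons (nat_lit 95) (nat_lit 552) (nat_lit 533) (nat_lit 1) .nil)), (nat_lit 49), (nat_lit 32), (nat_lit 35),
 (nat_lit 1), (2, 16, 30), [13374, 1208], 44⟩,
  ⟨⟨29, -12, 0, -10, -29, 0, 20, -4, -31⟩, (.cons (nat_lit 7144) (nat_lit 25088) (nat_lit 19193) (nat_lit 1)
 (.cons (nat_lit 2208) (nat_lit 435) (nat_lit 1473) (nat_lit 1) .nil)), (nat_lit 70), (nat_lit 0), (nat_lit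
 37), (nat_lit 1), (28, 16, 30), [5093, 2101], 40⟩,
  ⟨⟨-9, 8, -31, -10, -29, 0, 20, -4, -31⟩, (.cons (nat_lit 21643) (nat_lit 14735) (nat_lit 10269) (nat_lit 1)
 (.cons (nat_lit 95) (nat_lit 552) (nat_lit 533) (nat_lit 1) .nil)), (nat_lit 49), (nat_lit 32), (nat_lit 35),
 (nat_lit 1), (2, 16, 30), [13374, 1208], 44⟩,
  ⟨⟨29, -12, 0, -10, -29, 0, 20, -4, -31⟩, (.cons (nat_lit 7144) (nat_lit 25088) (nat_lit 19193) (nat_lit 1)
 (.cons (nat_lit 2208) (nat_lit 435) (nat_lit 1473) (nat_lit 1) .nil)), (nat_lit 70), (nat_lit 0), (nat_lit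
 37), (nat_lit 1), (28, 16, 30), [5093, 2101], 40⟩,
  ⟨⟨-9, 8, -31, -10, -29, 0, 20, -4, -31⟩, (.cons (nat_lit 21643) (nat_lit 14735) (nat_lit 10269) (nat_lit 1)
 (.cons (nat_lit 95) (nat_lit 552) (nat_lit 533) (nat_lit 1) .nil)), (nat_lit 49), (nat_lit 32), (nat_lit 35),
 (nat_lit 1), (2, 16, 30), [13374, 1208], 44⟩,
  ⟨⟨29, -12, 0, 10, 29, 0, 20, -4, -31⟩, (.cons (nat_lit 20720) (nat_lit 16478) (nat_lit 13284) (nat_lit 1)
 (.cons (nat_lit 1842) (nat_lit 1061) (nat_lit 1124) (nat_lit 1) .nil)), (nat_lit 18), (nat_lit 35), (nat_lit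
 57), (nat_lit 1), (28, 15, 30), [28346, 2201], 14⟩,
  ⟨⟨-9, 8, -31, -10, -29, 0, 20, -4, -31⟩, (.cons (nat_lit 21643) (nat_lit 14735) (nat_lit 10269) (nat_lit 1)
 (.cons (nat_lit 95) (nat_lit 552) (nat_lit 533) (nat_lit 1) .nil)), (nat_lit 49), (nat_lit 32), (nat_lit 35),
 (nat_lit 1), (2, 16, 30), [13374, 1208], 44⟩,
  ⟨⟨-9, 8, -31, -10, -29, 0, 20, -4, -31⟩, (.cons (nat_lit 21643) (nat_lit 14735) (nat_lit 10269) (nat_lit 1)
 (.cons (nat_lit 95) (nat_lit 552) (nat_lit 533) (nat_lit 1) .nil)), (nat_lit 49), (nat_lit 32), (nat_lit 35),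
 (nat_lit 1), (2, 16, 30), [13374, 1208], 44⟩,
  ⟨⟨-9, 8, -31, -10, -29, 0, 20, -4, -31⟩, (.cons (nat_lit 21643) (nat_lit 14735) (nat_lit 10269) (nat_lit 1)
 (.cons (nat_lit 95) (nat_lit 552) (nat_lit 533) (nat_lit 1) .nil)), (nat_lit 49), (nat_lit 32), (nat_lit 35),
 (nat_lit 1), (2, 16, 30), [13374, 1208], 44⟩,
  ⟨⟨-9, 8, -31, -10, -29, 0, 20, -4, -31⟩, (.cons (nat_lit 21643) (nat_lit 14735) (nat_lit 10269) (nat_lit 1)
 (.cons (nat_lit 95) (nat_lit 552) (nat_lit 533) (nat_lit 1) .nil)), (nat_lit 49), (nat_lit 32), (nat_lit 35),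
 (nat_lit 1), (2, 16, 30), [13374, 1208], 44⟩]

/-- Moves. -/
noncomputable def t1_1 : List Mv := [
  mz,
  ⟨⟨45, 16, -1, -22, 35, 36, 20, 28, -37⟩, (.cons (nat_lit 26341) (nat_lit 27638) (nat_lit 1) (nat_lit 21917)
 (.cons (nat_lit 472) (nat_lit 2204) (nat_lit 1486) (nat_lit 1) .nil)), (nat_lit 54), (nat_lit 66), (nat_lit
 37), (nat_lit 1), (34, 45, 36), [1760, 934], 56⟩,
  ⟨⟨-49, 12, 36, 2, 35, -36, -28, -20, -13⟩, (.cons (nat_lit 5260) (nat_lit 7036) (nat_lit 28384) (nat_lit 1)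
 (.cons (nat_lit 1161) (nat_lit 194) (nat_lit 1206) (nat_lit 1) .nil)), (nat_lit 61), (nat_lit 19), (nat_lit
 30), (nat_lit 1), (17, 30, 3), [16698, 1351], 4⟩,
  ⟨⟨39, 8, -56, 2, 45, 14, -12, 12, -37⟩, (.cons (nat_lit 29790) (nat_lit 23669) (nat_lit 20574) (nat_lit 1)
 (.cons (nat_lit 1122) (nat_lit 1160) (nat_lit 1126) (nat_lit 1) .nil)), (nat_lit 70), (nat_lit 30), (nat_lit
 35), (nat_lit 1), (14, 20, 21), [19714, 1728], 52⟩,
  mz,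
  ⟨⟨-45, -16, 44, 22, -35, 14, -20, -28, -17⟩, (.cons (nat_lit 20054) (nat_lit 29658) (nat_lit 11935) (nat_lit
 1) (.cons (nat_lit 1382) (nat_lit 676) (nat_lit 2038) (nat_lit 1) .nil)), (nat_lit 15), (nat_lit 36), (nat_lit
 68), (nat_lit 1), (12, 38, 21), [1753, 99], 41⟩,
  mz,
  mz,
  mz,
  ⟨⟨27, 32, -47, 40, -17, 0, 10, -16, -47⟩, (.cons (nat_lit 6023) (nat_lit 15725) (nat_lit 21003) (nat_lit 1)
 (.cons (nat_lit 1562) (nat_lit 1560) (nat_lit 1) (nat_lit 1363) .nil)), (nat_lit 0), (nat_lit 9), (nat_lit 5),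
 (nat_lit 1), (43, 8, 2), [2033, 179], 15⟩,
  mz,
  ⟨⟨17, 48, -17, 40, -17, -40, -10, 16, -37⟩, (.cons (nat_lit 21056) (nat_lit 21365) (nat_lit 8227) (nat_lit 1)
 (.cons (nat_lit 1602) (nat_lit 1282) (nat_lit 178) (nat_lit 1) .nil)), (nat_lit 14), (nat_lit 16), (nat_lit
 1), (nat_lit 0), (25, 45, 24), [16599, 933], 29⟩,
  ⟨⟨21, 44, 8, -20, 23, -30, 38, 8, -37⟩, (.cons (nat_lit 16899) (nat_lit 3462) (nat_lit 14738) (nat_lit 1)
 (.cons (nat_lit 88) (nat_lit 1873) (nat_lit 197) (nat_lit 1) .nil)), (nat_lit 35), (nat_lit 12), (nat_lit 5),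
 (nat_lit 1), (29, 44, 1), [2909, 2199], 39⟩,
  mz,
  ⟨⟨-51, -4, 19, -2, 45, -14, -12, -12, -37⟩, (.cons (nat_lit 7954) (nat_lit 20601) (nat_lit 13702) (nat_lit 1)
 (.cons (nat_lit 414) (nat_lit 95) (nat_lit 51) (nat_lit 1) .nil)), (nat_lit 37), (nat_lit 4), (nat_lit 63),
 (nat_lit 1), (25, 36, 28), [11355, 2196], 48⟩,
  ⟨⟨9, 4, -61, 40, 23, -10, 22, -32, -29⟩, (.cons (nat_lit 6856) (nat_lit 9884) (nat_lit 10517) (nat_lit 1)
 (.cons (nat_lit 892) (nat_lit 661) (nat_lit 1320) (nat_lit 1) .nil)), (nat_lit 37), (nat_lit 19), (nat_lit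
 32), (nat_lit 1), (18, 33, 44), [7633, 927], 1⟩,
  ⟨⟨-13, 36, 45, 40, 23, -30, -22, 32, -7⟩, (.cons (nat_lit 29258) (nat_lit 25754) (nat_lit 11813) (nat_lit 1)
 (.cons (nat_lit 2015) (nat_lit 1298) (nat_lit 2026) (nat_lit 1) .nil)), (nat_lit 48), (nat_lit 61), (nat_lit
 14), (nat_lit 1), (5, 28, 41), [6080, 977], 32⟩,
  mz,
  ⟨⟨19, 0, -63, 0, -47, 0, 42, 0, -23⟩, (.cons (nat_lit 23766) (nat_lit 29227) (nat_lit 27795) (nat_lit 1)
 (.cons (nat_lit 1748) (nat_lit 1366) (nat_lit 963) (nat_lit 1) .nil)), (nat_lit 47), (nat_lit 47), (nat_lit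
 34), (nat_lit 1), (16, 0, 23), [16208, 1564], 51⟩,
  ⟨⟨-39, 32, 8, -20, -33, -20, 6, 24, -41⟩, (.cons (nat_lit 29693) (nat_lit 4758) (nat_lit 16809) (nat_lit 1)
 (.cons (nat_lit 1775) (nat_lit 303) (nat_lit 587) (nat_lit 1) .nil)), (nat_lit 9), (nat_lit 19), (nat_lit 5),
 (nat_lit 1), (25, 8, 7), [24824, 1575], 66⟩,
  ⟨⟨17, -36, 28, 20, -23, -50, 38, 8, -1⟩, (.cons (nat_lit 15632) (nat_lit 9775) (nat_lit 11847) (nat_lit 1)
 (.cons (nat_lit 1665) (nat_lit 1449) (nat_lit 1658) (nat_lit 1) .nil)), (nat_lit 69), (nat_lit 18), (nat_lit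
 37), (nat_lit 1), (2, 30, 10), [27445, 406], 57⟩,
  ⟨⟨21, 32, -49, 2, -35, -36, -28, 20, -13⟩, (.cons (nat_lit 29313) (nat_lit 4869) (nat_lit 4899) (nat_lit 1)
 (.cons (nat_lit 333) (nat_lit 1589) (nat_lit 1486) (nat_lit 1) .nil)), (nat_lit 39), (nat_lit 7), (nat_lit 6),
 (nat_lit 1), (30, 23, 7), [380, 500], 1⟩,
  ⟨⟨45, 8, -49, -20, 33, -20, 6, -24, -41⟩, (.cons (nat_lit 11043) (nat_lit 16373) (nat_lit 17207) (nat_lit 1)
 (.cons (nat_lit 1469) (nat_lit 751) (nat_lit 243) (nat_lit 1) .nil)), (nat_lit 7), (nat_lit 30), (nat_lit 56),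
 (nat_lit 1), (40, 24, 21), [12200, 2095], 34⟩,
  mz,
  mz,
  ⟨⟨39, -32, -31, -20, -33, 40, -6, -24, -35⟩, (.cons (nat_lit 8939) (nat_lit 2706) (nat_lit 26182) (nat_lit 1)
 (.cons (nat_lit 483) (nat_lit 547) (nat_lit 1099) (nat_lit 1) .nil)), (nat_lit 28), (nat_lit 38), (nat_lit
 29), (nat_lit 1), (28, 23, 21), [12960, 178], 3⟩,
  ⟨⟨-21, 32, -28, -2, -35, -34, 28, 20, -41⟩, (.cons (nat_lit 28096) (nat_lit 12893) (nat_lit 1736) (nat_lit 1)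
 (.cons (nat_lit 1274) (nat_lit 140) (nat_lit 1035) (nat_lit 1) .nil)), (nat_lit 19), (nat_lit 26), (nat_lit
 57), (nat_lit 1), (30, 23, 7), [5947, 41], 33⟩,
  ⟨⟨17, 36, -45, -20, -23, -30, 38, -8, -37⟩, (.cons (nat_lit 6062) (nat_lit 19761) (nat_lit 21167) (nat_lit 1)
 (.cons (nat_lit 404) (nat_lit 600) (nat_lit 653) (nat_lit 1) .nil)), (nat_lit 42), (nat_lit 46), (nat_lit 46),
 (nat_lit 1), (45, 30, 37), [24021, 403], 66⟩,
  ⟨⟨-45, -8, -4, 20, -33, -40, -6, 24, -35⟩, (.cons (nat_lit 9016) (nat_lit 29686) (nat_lit 4029) (nat_lit 1)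
 (.cons (nat_lit 1239) (nat_lit 596) (nat_lit 450) (nat_lit 1) .nil)), (nat_lit 9), (nat_lit 9), (nat_lit 50),
 (nat_lit 1), (29, 8, 7), [10595, 1881], 66⟩,
  ⟨⟨19, 0, 44, 0, -47, 0, 42, 0, -19⟩, (.cons (nat_lit 29790) (nat_lit 14434) (nat_lit 9884) (nat_lit 1) (.cons
 (nat_lit 1626) (nat_lit 16) (nat_lit 1962) (nat_lit 1) .nil)), (nat_lit 70), (nat_lit 16), (nat_lit 3),
 (nat_lit 1), (31, 0, 24), [12819, 1160], 40⟩,
  mz,
  ⟨⟨9, -4, -61, -40, 23, 10, 22, 32, -29⟩, (.cons (nat_lit 21512) (nat_lit 2467) (nat_lit 11292) (nat_lit 1)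
 (.cons (nat_lit 361) (nat_lit 1237) (nat_lit 105) (nat_lit 1) .nil)), (nat_lit 5), (nat_lit 48), (nat_lit 32),
 (nat_lit 1), (36, 28, 41), [16512, 807], 37⟩,
  ⟨⟨-9, 4, -52, 40, -23, -30, -22, -32, -7⟩, (.cons (nat_lit 18394) (nat_lit 3061) (nat_lit 1728) (nat_lit 1)
 (.cons (nat_lit 2082) (nat_lit 45) (nat_lit 1124) (nat_lit 1) .nil)), (nat_lit 11), (nat_lit 29), (nat_lit
 52), (nat_lit 1), (18, 14, 44), [4298, 100], 2⟩,
  ⟨⟨-39, -8, -17, 2, 45, -16, 12, -12, -49⟩, (.cons (nat_lit 25098) (nat_lit 8698) (nat_lit 14508) (nat_lit 1)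
 (.cons (nat_lit 1332) (nat_lit 777) (nat_lit 592) (nat_lit 1) .nil)), (nat_lit 48), (nat_lit 21), (nat_lit
 29), (nat_lit 1), (3, 36, 28), [1544, 820], 45⟩,
  mz,
  ⟨⟨17, 36, 28, 20, 23, -50, 38, -8, -1⟩, (.cons (nat_lit 9865) (nat_lit 19111) (nat_lit 6845) (nat_lit 1)
 (.cons (nat_lit 168) (nat_lit 1196) (nat_lit 34) (nat_lit 1) .nil)), (nat_lit 59), (nat_lit 5), (nat_lit 56),
 (nat_lit 1), (28, 44, 46), [11995, 734], 21⟩,
  ⟨⟨27, -32, -47, -40, -17, 0, 10, 16, -47⟩, (.cons (nat_lit 10179) (nat_lit 17819) (nat_lit 21595) (nat_lit 1)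
 (.cons (nat_lit 59) (nat_lit 2000) (nat_lit 1111) (nat_lit 1) .nil)), (nat_lit 14), (nat_lit 42), (nat_lit
 47), (nat_lit 1), (46, 45, 24), [9657, 313], 38⟩,
  mz,
  ⟨⟨17, -48, -17, 40, 17, -40, -10, -16, -37⟩, (.cons (nat_lit 726) (nat_lit 27886) (nat_lit 23767) (nat_lit 1)
 (.cons (nat_lit 894) (nat_lit 1313) (nat_lit 256) (nat_lit 1) .nil)), (nat_lit 29), (nat_lit 53), (nat_lit 2),
 (nat_lit 1), (6, 39, 2), [18245, 1675], 69⟩,
  mz,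
  mz,
  mz,
  ⟨⟨-25, -12, -36, 22, 35, -36, 20, -28, -37⟩, (.cons (nat_lit 22819) (nat_lit 19006) (nat_lit 21426) (nat_lit
 1) (.cons (nat_lit 498) (nat_lit 997) (nat_lit 1471) (nat_lit 1) .nil)), (nat_lit 7), (nat_lit 9), (nat_lit
 3), (nat_lit 1), (9, 9, 21), [6163, 687], 54⟩,
  mz,
  ⟨⟨51, 4, -32, 2, -45, -16, 12, 12, -49⟩, (.cons (nat_lit 14556) (nat_lit 20761) (nat_lit 1) (nat_lit 8060)
 (.cons (nat_lit 1664) (nat_lit 1547) (nat_lit 331) (nat_lit 1) .nil)), (nat_lit 20), (nat_lit 22), (nat_lit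
 5), (nat_lit 1), (7, 27, 21), [5693, 2095], 30⟩,
  ⟨⟨-21, -32, -28, -2, 35, -34, 28, -20, -41⟩, (.cons (nat_lit 15000) (nat_lit 22369) (nat_lit 1548) (nat_lit
 1) (.cons (nat_lit 1271) (nat_lit 1430) (nat_lit 1918) (nat_lit 1) .nil)), (nat_lit 48), (nat_lit 42),
 (nat_lit 17), (nat_lit 1), (33, 30, 3), [23173, 2109], 9⟩,
  ⟨⟨-45, 16, 44, -22, -35, -14, -20, 28, -17⟩, (.cons (nat_lit 4143) (nat_lit 16583) (nat_lit 18258) (nat_lit
 1) (.cons (nat_lit 1571) (nat_lit 299) (nat_lit 225) (nat_lit 1) .nil)), (nat_lit 67), (nat_lit 47), (nat_lit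
 43), (nat_lit 1), (34, 2, 36), [20513, 1643], 35⟩]

/-- Moves. -/
noncomputable def t1_4 : List Mv := [
  mz,
  ⟨⟨45, 16, -1, 22, -35, -36, 20, 28, -37⟩, (.cons (nat_lit 10651) (nat_lit 12168) (nat_lit 14884) (nat_lit 1)
 (.cons (nat_lit 217) (nat_lit 236) (nat_lit 197) (nat_lit 1) .nil)), (nat_lit 39), (nat_lit 25), (nat_lit 67),
 (nat_lit 1), (34, 2, 36), [16934, 114], 1⟩,
  ⟨⟨21, -32, -49, 2, 35, -36, -28, -20, -13⟩, (.cons (nat_lit 2167) (nat_lit 21819) (nat_lit 1) (nat_lit 1550)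
 (.cons (nat_lit 578) (nat_lit 370) (nat_lit 1159) (nat_lit 1) .nil)), (nat_lit 54), (nat_lit 24), (nat_lit
 13), (nat_lit 1), (33, 30, 3), [9158, 1915], 56⟩,
  ⟨⟨39, 8, -56, -2, -45, -14, -12, 12, -37⟩, (.cons (nat_lit 28104) (nat_lit 29394) (nat_lit 1) (nat_lit 9579)
 (.cons (nat_lit 1190) (nat_lit 1050) (nat_lit 1824) (nat_lit 1) .nil)), (nat_lit 20), (nat_lit 9), (nat_lit
 28), (nat_lit 1), (14, 27, 21), [1082, 1193], 30⟩,
  mz,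
  ⟨⟨-45, -16, 44, -22, 35, -14, -20, -28, -17⟩, (.cons (nat_lit 19243) (nat_lit 3492) (nat_lit 2836) (nat_lit
 1) (.cons (nat_lit 823) (nat_lit 911) (nat_lit 1116) (nat_lit 1) .nil)), (nat_lit 37), (nat_lit 8), (nat_lit
 10), (nat_lit 1), (12, 9, 21), [9611, 287], 38⟩,
  mz,
  mz,
  mz,
  ⟨⟨-17, -48, 0, 40, -17, 0, 10, -16, -47⟩, (.cons (nat_lit 6999) (nat_lit 14998) (nat_lit 4298) (nat_lit 1)
 (.cons (nat_lit 1728) (nat_lit 1589) (nat_lit 1) (nat_lit 846) .nil)), (nat_lit 57), (nat_lit 61), (nat_lit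
 4), (nat_lit 1), (6, 8, 2), [29409, 2059], 56⟩,
  mz,
  ⟨⟨17, 48, -17, -40, 17, 40, -10, 16, -37⟩, (.cons (nat_lit 6554) (nat_lit 15836) (nat_lit 13302) (nat_lit 1)
 (.cons (nat_lit 1779) (nat_lit 466) (nat_lit 398) (nat_lit 1) .nil)), (nat_lit 29), (nat_lit 32), (nat_lit
 61), (nat_lit 1), (25, 2, 24), [29653, 342], 69⟩,
  ⟨⟨17, -36, -45, -20, 23, -30, 38, 8, -37⟩, (.cons (nat_lit 13297) (nat_lit 14822) (nat_lit 12343) (nat_lit 1)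
 (.cons (nat_lit 570) (nat_lit 1135) (nat_lit 2077) (nat_lit 1) .nil)), (nat_lit 5), (nat_lit 15), (nat_lit 3),
 (nat_lit 1), (19, 44, 1), [22216, 178], 37⟩,
  mz,
  ⟨⟨39, -8, -56, 2, -45, 14, -12, -12, -37⟩, (.cons (nat_lit 10943) (nat_lit 8070) (nat_lit 11761) (nat_lit 1)
 (.cons (nat_lit 349) (nat_lit 1415) (nat_lit 132) (nat_lit 1) .nil)), (nat_lit 32), (nat_lit 67), (nat_lit
 27), (nat_lit 1), (3, 11, 28), [22942, 1334], 48⟩,
  ⟨⟨13, -36, 32, 40, 23, -10, 22, -32, -29⟩, (.cons (nat_lit 14981) (nat_lit 1909) (nat_lit 20914) (nat_lit 1)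
 (.cons (nat_lit 236) (nat_lit 1454) (nat_lit 1085) (nat_lit 1) .nil)), (nat_lit 69), (nat_lit 24), (nat_lit
 10), (nat_lit 1), (26, 33, 44), [2191, 128], 14⟩,
  ⟨⟨-13, 36, 45, 40, 23, -30, -22, 32, -7⟩, (.cons (nat_lit 29258) (nat_lit 25754) (nat_lit 11813) (nat_lit 1)
 (.cons (nat_lit 2015) (nat_lit 1298) (nat_lit 2026) (nat_lit 1) .nil)), (nat_lit 48), (nat_lit 61), (nat_lit
 14), (nat_lit 1), (5, 28, 41), [6080, 977], 32⟩,
  mz,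
  ⟨⟨19, 0, -63, 0, -47, 0, 42, 0, -23⟩, (.cons (nat_lit 23766) (nat_lit 29227) (nat_lit 27795) (nat_lit 1)
 (.cons (nat_lit 1748) (nat_lit 1366) (nat_lit 963) (nat_lit 1) .nil)), (nat_lit 47), (nat_lit 47), (nat_lit
 34), (nat_lit 1), (16, 0, 23), [16208, 1564], 51⟩,
  ⟨⟨45, -8, -49, 20, 33, 20, 6, 24, -41⟩, (.cons (nat_lit 26388) (nat_lit 5426) (nat_lit 14735) (nat_lit 1)
 (.cons (nat_lit 2116) (nat_lit 1643) (nat_lit 1452) (nat_lit 1) .nil)), (nat_lit 7), (nat_lit 44), (nat_lit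
 64), (nat_lit 1), (29, 39, 7), [12789, 9], 34⟩,
  ⟨⟨17, -36, 28, -20, 23, 50, 38, 8, -1⟩, (.cons (nat_lit 15796) (nat_lit 29028) (nat_lit 22859) (nat_lit 1)
 (.cons (nat_lit 1095) (nat_lit 1205) (nat_lit 1666) (nat_lit 1) .nil)), (nat_lit 13), (nat_lit 49), (nat_lit
 34), (nat_lit 1), (2, 17, 10), [14711, 663], 17⟩,
  ⟨⟨-49, -12, 36, 2, -35, -36, -28, 20, -13⟩, (.cons (nat_lit 9444) (nat_lit 6649) (nat_lit 19805) (nat_lit 1)
 (.cons (nat_lit 748) (nat_lit 808) (nat_lit 499) (nat_lit 1) .nil)), (nat_lit 67), (nat_lit 49), (nat_lit 34),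
 (nat_lit 1), (24, 23, 7), [14871, 406], 35⟩,
  ⟨⟨45, 8, -49, 20, -33, 20, 6, -24, -41⟩, (.cons (nat_lit 6511) (nat_lit 21339) (nat_lit 5230) (nat_lit 1)
 (.cons (nat_lit 557) (nat_lit 381) (nat_lit 2009) (nat_lit 1) .nil)), (nat_lit 8), (nat_lit 9), (nat_lit 5),
 (nat_lit 1), (40, 23, 21), [29469, 1651], 36⟩,
  mz,
  mz,
  ⟨⟨39, -32, -31, 20, 33, -40, -6, -24, -35⟩, (.cons (nat_lit 1187) (nat_lit 18772) (nat_lit 11917) (nat_lit 1)
 (.cons (nat_lit 2065) (nat_lit 979) (nat_lit 1224) (nat_lit 1) .nil)), (nat_lit 61), (nat_lit 16), (nat_lit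
 63), (nat_lit 1), (28, 24, 21), [14800, 1162], 63⟩,
  ⟨⟨-21, 32, -28, -2, -35, -34, 28, 20, -41⟩, (.cons (nat_lit 28096) (nat_lit 12893) (nat_lit 1736) (nat_lit 1)
 (.cons (nat_lit 1274) (nat_lit 140) (nat_lit 1035) (nat_lit 1) .nil)), (nat_lit 19), (nat_lit 26), (nat_lit
 57), (nat_lit 1), (30, 23, 7), [5947, 41], 33⟩,
  ⟨⟨21, -44, 8, 20, 23, 30, 38, -8, -37⟩, (.cons (nat_lit 17265) (nat_lit 9631) (nat_lit 22877) (nat_lit 1)
 (.cons (nat_lit 1596) (nat_lit 1542) (nat_lit 1322) (nat_lit 1) .nil)), (nat_lit 55), (nat_lit 12), (nat_lit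
 4), (nat_lit 1), (39, 17, 37), [15909, 230], 26⟩,
  ⟨⟨39, 32, -31, 20, -33, -40, -6, 24, -35⟩, (.cons (nat_lit 10789) (nat_lit 28168) (nat_lit 27475) (nat_lit 1)
 (.cons (nat_lit 2004) (nat_lit 156) (nat_lit 262) (nat_lit 1) .nil)), (nat_lit 9), (nat_lit 61), (nat_lit 26),
 (nat_lit 1), (25, 8, 7), [24261, 894], 5⟩,
  ⟨⟨19, 0, 44, 0, -47, 0, 42, 0, -19⟩, (.cons (nat_lit 29790) (nat_lit 14434) (nat_lit 9884) (nat_lit 1) (.cons
 (nat_lit 1626) (nat_lit 16) (nat_lit 1962) (nat_lit 1) .nil)), (nat_lit 70), (nat_lit 16), (nat_lit 3),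
 (nat_lit 1), (31, 0, 24), [12819, 1160], 40⟩,
  mz,
  ⟨⟨9, -4, -61, 40, -23, -10, 22, 32, -29⟩, (.cons (nat_lit 28289) (nat_lit 9359) (nat_lit 19155) (nat_lit 1)
 (.cons (nat_lit 1469) (nat_lit 1394) (nat_lit 1785) (nat_lit 1) .nil)), (nat_lit 42), (nat_lit 26), (nat_lit
 65), (nat_lit 1), (36, 19, 41), [19588, 1696], 66⟩,
  ⟨⟨-13, -36, 45, 40, -23, -30, -22, -32, -7⟩, (.cons (nat_lit 14178) (nat_lit 12897) (nat_lit 8808) (nat_lit
 1) (.cons (nat_lit 2007) (nat_lit 1130) (nat_lit 43) (nat_lit 1) .nil)), (nat_lit 22), (nat_lit 53), (nat_lit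
 53), (nat_lit 1), (26, 14, 44), [13652, 194], 65⟩,
  ⟨⟨-39, -8, -17, 2, 45, -16, 12, -12, -49⟩, (.cons (nat_lit 25098) (nat_lit 8698) (nat_lit 14508) (nat_lit 1)
 (.cons (nat_lit 1332) (nat_lit 777) (nat_lit 592) (nat_lit 1) .nil)), (nat_lit 48), (nat_lit 21), (nat_lit
 29), (nat_lit 1), (3, 36, 28), [1544, 820], 45⟩,
  mz,
  ⟨⟨17, 36, 28, 20, 23, -50, 38, -8, -1⟩, (.cons (nat_lit 9865) (nat_lit 19111) (nat_lit 6845) (nat_lit 1)
 (.cons (nat_lit 168) (nat_lit 1196) (nat_lit 34) (nat_lit 1) .nil)), (nat_lit 59), (nat_lit 5), (nat_lit 56),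
 (nat_lit 1), (28, 44, 46), [11995, 734], 21⟩,
  ⟨⟨27, -32, -47, -40, -17, 0, 10, 16, -47⟩, (.cons (nat_lit 10179) (nat_lit 17819) (nat_lit 21595) (nat_lit 1)
 (.cons (nat_lit 59) (nat_lit 2000) (nat_lit 1111) (nat_lit 1) .nil)), (nat_lit 14), (nat_lit 42), (nat_lit
 47), (nat_lit 1), (46, 45, 24), [9657, 313], 38⟩,
  mz,
  ⟨⟨17, -48, -17, 40, 17, -40, -10, -16, -37⟩, (.cons (nat_lit 726) (nat_lit 27886) (nat_lit 23767) (nat_lit 1)
 (.cons (nat_lit 894) (nat_lit 1313) (nat_lit 256) (nat_lit 1) .nil)), (nat_lit 29), (nat_lit 53), (nat_lit 2),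
 (nat_lit 1), (6, 39, 2), [18245, 1675], 69⟩,
  mz,
  mz,
  mz,
  ⟨⟨-25, -12, -36, -22, -35, 36, 20, -28, -37⟩, (.cons (nat_lit 5656) (nat_lit 19289) (nat_lit 26871) (nat_lit
 1) (.cons (nat_lit 1732) (nat_lit 963) (nat_lit 1300) (nat_lit 1) .nil)), (nat_lit 53), (nat_lit 30), (nat_lit
 44), (nat_lit 1), (9, 38, 21), [8187, 2083], 51⟩,
  mz,
  ⟨⟨51, 4, -32, 2, -45, -16, 12, 12, -49⟩, (.cons (nat_lit 14556) (nat_lit 20761) (nat_lit 1) (nat_lit 8060)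
 (.cons (nat_lit 1664) (nat_lit 1547) (nat_lit 331) (nat_lit 1) .nil)), (nat_lit 20), (nat_lit 22), (nat_lit
 5), (nat_lit 1), (7, 27, 21), [5693, 2095], 30⟩,
  ⟨⟨-21, -32, -28, 2, -35, 34, 28, -20, -41⟩, (.cons (nat_lit 11577) (nat_lit 21604) (nat_lit 24070) (nat_lit
 1) (.cons (nat_lit 2082) (nat_lit 411) (nat_lit 2054) (nat_lit 1) .nil)), (nat_lit 53), (nat_lit 65), (nat_lit
 64), (nat_lit 1), (33, 17, 3), [23625, 483], 51⟩,
  ⟨⟨-45, 16, 44, -22, -35, -14, -20, 28, -17⟩, (.cons (nat_lit 4143) (nat_lit 16583) (nat_lit 18258) (nat_lit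
 1) (.cons (nat_lit 1571) (nat_lit 299) (nat_lit 225) (nat_lit 1) .nil)), (nat_lit 67), (nat_lit 47), (nat_lit
 43), (nat_lit 1), (34, 2, 36), [20513, 1643], 35⟩]

/-- Moves. -/
noncomputable def t1_6 : List Mv := [
  mz,
  ⟨⟨45, 16, -1, 22, -35, -36, 20, 28, -37⟩, (.cons (nat_lit 10651) (nat_lit 12168) (nat_lit 14884) (nat_lit 1)
 (.cons (nat_lit 217) (nat_lit 236) (nat_lit 197) (nat_lit 1) .nil)), (nat_lit 39), (nat_lit 25), (nat_lit 67),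
 (nat_lit 1), (34, 2, 36), [16934, 114], 1⟩,
  ⟨⟨-49, 12, 36, -2, -35, 36, -28, -20, -13⟩, (.cons (nat_lit 7964) (nat_lit 13113) (nat_lit 2586) (nat_lit 1)
 (.cons (nat_lit 1674) (nat_lit 1981) (nat_lit 1580) (nat_lit 1) .nil)), (nat_lit 15), (nat_lit 23), (nat_lit
 20), (nat_lit 1), (17, 17, 3), [4512, 362], 41⟩,
  ⟨⟨39, 8, -56, -2, -45, -14, -12, 12, -37⟩, (.cons (nat_lit 28104) (nat_lit 29394) (nat_lit 1) (nat_lit 9579)
 (.cons (nat_lit 1190) (nat_lit 1050) (nat_lit 1824) (nat_lit 1) .nil)), (nat_lit 20), (nat_lit 9), (nat_lit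
 28), (nat_lit 1), (14, 27, 21), [1082, 1193], 30⟩,
  mz,
  ⟨⟨-45, -16, 44, 22, -35, 14, -20, -28, -17⟩, (.cons (nat_lit 20054) (nat_lit 29658) (nat_lit 11935) (nat_lit
 1) (.cons (nat_lit 1382) (nat_lit 676) (nat_lit 2038) (nat_lit 1) .nil)), (nat_lit 15), (nat_lit 36), (nat_lit
 68), (nat_lit 1), (12, 38, 21), [1753, 99], 41⟩,
  mz,
  mz,
  mz,
  ⟨⟨27, 32, -47, -40, 17, 0, 10, -16, -47⟩, (.cons (nat_lit 1190) (nat_lit 2834) (nat_lit 18720) (nat_lit 1)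
 (.cons (nat_lit 1211) (nat_lit 1316) (nat_lit 278) (nat_lit 1) .nil)), (nat_lit 49), (nat_lit 30), (nat_lit
 44), (nat_lit 1), (43, 39, 2), [23094, 152], 26⟩,
  mz,
  ⟨⟨17, 48, -17, 40, -17, -40, -10, 16, -37⟩, (.cons (nat_lit 21056) (nat_lit 21365) (nat_lit 8227) (nat_lit 1)
 (.cons (nat_lit 1602) (nat_lit 1282) (nat_lit 178) (nat_lit 1) .nil)), (nat_lit 14), (nat_lit 16), (nat_lit
 1), (nat_lit 0), (25, 45, 24), [16599, 933], 29⟩,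
  ⟨⟨17, -36, -45, -20, 23, -30, 38, 8, -37⟩, (.cons (nat_lit 13297) (nat_lit 14822) (nat_lit 12343) (nat_lit 1)
 (.cons (nat_lit 570) (nat_lit 1135) (nat_lit 2077) (nat_lit 1) .nil)), (nat_lit 5), (nat_lit 15), (nat_lit 3),
 (nat_lit 1), (19, 44, 1), [22216, 178], 37⟩,
  mz,
  ⟨⟨-51, -4, 19, -2, 45, -14, -12, -12, -37⟩, (.cons (nat_lit 7954) (nat_lit 20601) (nat_lit 13702) (nat_lit 1)
 (.cons (nat_lit 414) (nat_lit 95) (nat_lit 51) (nat_lit 1) .nil)), (nat_lit 37), (nat_lit 4), (nat_lit 63),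
 (nat_lit 1), (25, 36, 28), [11355, 2196], 48⟩,
  ⟨⟨9, 4, -61, 40, 23, -10, 22, -32, -29⟩, (.cons (nat_lit 6856) (nat_lit 9884) (nat_lit 10517) (nat_lit 1)
 (.cons (nat_lit 892) (nat_lit 661) (nat_lit 1320) (nat_lit 1) .nil)), (nat_lit 37), (nat_lit 19), (nat_lit
 32), (nat_lit 1), (18, 33, 44), [7633, 927], 1⟩,
  ⟨⟨-13, 36, 45, 40, 23, -30, -22, 32, -7⟩, (.cons (nat_lit 29258) (nat_lit 25754) (nat_lit 11813) (nat_lit 1)
 (.cons (nat_lit 2015) (nat_lit 1298) (nat_lit 2026) (nat_lit 1) .nil)), (nat_lit 48), (nat_lit 61), (nat_lit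
 14), (nat_lit 1), (5, 28, 41), [6080, 977], 32⟩,
  mz,
  ⟨⟨19, 0, -63, 0, -47, 0, 42, 0, -23⟩, (.cons (nat_lit 23766) (nat_lit 29227) (nat_lit 27795) (nat_lit 1)
 (.cons (nat_lit 1748) (nat_lit 1366) (nat_lit 963) (nat_lit 1) .nil)), (nat_lit 47), (nat_lit 47), (nat_lit
 34), (nat_lit 1), (16, 0, 23), [16208, 1564], 51⟩,
  ⟨⟨45, -8, -49, 20, 33, 20, 6, 24, -41⟩, (.cons (nat_lit 26388) (nat_lit 5426) (nat_lit 14735) (nat_lit 1)
 (.cons (nat_lit 2116) (nat_lit 1643) (nat_lit 1452) (nat_lit 1) .nil)), (nat_lit 7), (nat_lit 44), (nat_lit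
 64), (nat_lit 1), (29, 39, 7), [12789, 9], 34⟩,
  ⟨⟨17, -36, 28, 20, -23, -50, 38, 8, -1⟩, (.cons (nat_lit 15632) (nat_lit 9775) (nat_lit 11847) (nat_lit 1)
 (.cons (nat_lit 1665) (nat_lit 1449) (nat_lit 1658) (nat_lit 1) .nil)), (nat_lit 69), (nat_lit 18), (nat_lit
 37), (nat_lit 1), (2, 30, 10), [27445, 406], 57⟩,
  ⟨⟨-49, -12, 36, -2, 35, 36, -28, 20, -13⟩, (.cons (nat_lit 23397) (nat_lit 6006) (nat_lit 12874) (nat_lit 1)
 (.cons (nat_lit 1608) (nat_lit 788) (nat_lit 1091) (nat_lit 1) .nil)), (nat_lit 37), (nat_lit 18), (nat_lit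
 36), (nat_lit 1), (24, 24, 7), [13641, 1201], 38⟩,
  ⟨⟨45, 8, -49, -20, 33, -20, 6, -24, -41⟩, (.cons (nat_lit 11043) (nat_lit 16373) (nat_lit 17207) (nat_lit 1)
 (.cons (nat_lit 1469) (nat_lit 751) (nat_lit 243) (nat_lit 1) .nil)), (nat_lit 7), (nat_lit 30), (nat_lit 56),
 (nat_lit 1), (40, 24, 21), [12200, 2095], 34⟩,
  mz,
  mz,
  ⟨⟨39, -32, -31, 20, 33, -40, -6, -24, -35⟩, (.cons (nat_lit 1187) (nat_lit 18772) (nat_lit 11917) (nat_lit 1)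
 (.cons (nat_lit 2065) (nat_lit 979) (nat_lit 1224) (nat_lit 1) .nil)), (nat_lit 61), (nat_lit 16), (nat_lit
 63), (nat_lit 1), (28, 24, 21), [14800, 1162], 63⟩,
  ⟨⟨-21, 32, -28, 2, 35, 34, 28, 20, -41⟩, (.cons (nat_lit 18913) (nat_lit 7644) (nat_lit 8686) (nat_lit 1)
 (.cons (nat_lit 1838) (nat_lit 1744) (nat_lit 888) (nat_lit 1) .nil)), (nat_lit 7), (nat_lit 48), (nat_lit 5),
 (nat_lit 1), (30, 24, 7), [583, 1675], 54⟩,
  ⟨⟨17, 36, -45, 20, 23, 30, 38, -8, -37⟩, (.cons (nat_lit 10452) (nat_lit 10668) (nat_lit 14219) (nat_lit 1)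
 (.cons (nat_lit 2117) (nat_lit 855) (nat_lit 53) (nat_lit 1) .nil)), (nat_lit 37), (nat_lit 15), (nat_lit 50),
 (nat_lit 1), (45, 17, 37), [8656, 982], 1⟩,
  ⟨⟨39, 32, -31, -20, 33, 40, -6, 24, -35⟩, (.cons (nat_lit 26762) (nat_lit 20513) (nat_lit 5397) (nat_lit 1)
 (.cons (nat_lit 1918) (nat_lit 830) (nat_lit 472) (nat_lit 1) .nil)), (nat_lit 61), (nat_lit 14), (nat_lit 1),
 (nat_lit 1), (25, 39, 7), [4415, 1058], 63⟩,
  ⟨⟨23, 0, -63, 0, 47, 0, 42, 0, -19⟩, (.cons (nat_lit 22923) (nat_lit 29069) (nat_lit 25123) (nat_lit 1)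
 (.cons (nat_lit 1042) (nat_lit 1942) (nat_lit 601) (nat_lit 1) .nil)), (nat_lit 68), (nat_lit 70), (nat_lit
 31), (nat_lit 1), (40, 0, 24), [29531, 252], 38⟩,
  mz,
  ⟨⟨13, 36, 32, -40, 23, 10, 22, 32, -29⟩, (.cons (nat_lit 14182) (nat_lit 4893) (nat_lit 12167) (nat_lit 1)
 (.cons (nat_lit 1754) (nat_lit 1724) (nat_lit 1609) (nat_lit 1) .nil)), (nat_lit 31), (nat_lit 54), (nat_lit
 18), (nat_lit 1), (5, 28, 41), [15703, 2076], 65⟩,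
  ⟨⟨-9, 4, -52, 40, -23, -30, -22, -32, -7⟩, (.cons (nat_lit 18394) (nat_lit 3061) (nat_lit 1728) (nat_lit 1)
 (.cons (nat_lit 2082) (nat_lit 45) (nat_lit 1124) (nat_lit 1) .nil)), (nat_lit 11), (nat_lit 29), (nat_lit
 52), (nat_lit 1), (18, 14, 44), [4298, 100], 2⟩,
  ⟨⟨-39, -8, -17, 2, 45, -16, 12, -12, -49⟩, (.cons (nat_lit 25098) (nat_lit 8698) (nat_lit 14508) (nat_lit 1)
 (.cons (nat_lit 1332) (nat_lit 777) (nat_lit 592) (nat_lit 1) .nil)), (nat_lit 48), (nat_lit 21), (nat_lit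
 29), (nat_lit 1), (3, 36, 28), [1544, 820], 45⟩,
  mz,
  ⟨⟨17, 36, 28, 20, 23, -50, 38, -8, -1⟩, (.cons (nat_lit 9865) (nat_lit 19111) (nat_lit 6845) (nat_lit 1)
 (.cons (nat_lit 168) (nat_lit 1196) (nat_lit 34) (nat_lit 1) .nil)), (nat_lit 59), (nat_lit 5), (nat_lit 56),
 (nat_lit 1), (28, 44, 46), [11995, 734], 21⟩,
  ⟨⟨27, -32, -47, 40, 17, 0, 10, 16, -47⟩, (.cons (nat_lit 29741) (nat_lit 17234) (nat_lit 9698) (nat_lit 1)
 (.cons (nat_lit 316) (nat_lit 2207) (nat_lit 738) (nat_lit 1) .nil)), (nat_lit 49), (nat_lit 65), (nat_lit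
 64), (nat_lit 1), (46, 2, 24), [12492, 417], 26⟩,
  mz,
  ⟨⟨17, -48, -17, 40, 17, -40, -10, -16, -37⟩, (.cons (nat_lit 726) (nat_lit 27886) (nat_lit 23767) (nat_lit 1)
 (.cons (nat_lit 894) (nat_lit 1313) (nat_lit 256) (nat_lit 1) .nil)), (nat_lit 29), (nat_lit 53), (nat_lit 2),
 (nat_lit 1), (6, 39, 2), [18245, 1675], 69⟩,
  mz,
  mz,
  mz,
  ⟨⟨45, -16, -1, 22, 35, -36, 20, -28, -37⟩, (.cons (nat_lit 12396) (nat_lit 1220) (nat_lit 20679) (nat_lit 1)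
 (.cons (nat_lit 630) (nat_lit 554) (nat_lit 296) (nat_lit 1) .nil)), (nat_lit 57), (nat_lit 61), (nat_lit 42),
 (nat_lit 1), (12, 9, 21), [5686, 2097], 17⟩,
  mz,
  ⟨⟨51, 4, -32, 2, -45, -16, 12, 12, -49⟩, (.cons (nat_lit 14556) (nat_lit 20761) (nat_lit 1) (nat_lit 8060)
 (.cons (nat_lit 1664) (nat_lit 1547) (nat_lit 331) (nat_lit 1) .nil)), (nat_lit 20), (nat_lit 22), (nat_lit
 5), (nat_lit 1), (7, 27, 21), [5693, 2095], 30⟩,
  ⟨⟨-21, -32, -28, -2, 35, -34, 28, -20, -41⟩, (.cons (nat_lit 15000) (nat_lit 22369) (nat_lit 1548) (nat_lit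
 1) (.cons (nat_lit 1271) (nat_lit 1430) (nat_lit 1918) (nat_lit 1) .nil)), (nat_lit 48), (nat_lit 42),
 (nat_lit 17), (nat_lit 1), (33, 30, 3), [23173, 2109], 9⟩,
  ⟨⟨-45, 16, 44, 22, 35, 14, -20, 28, -17⟩, (.cons (nat_lit 26836) (nat_lit 6442) (nat_lit 17079) (nat_lit 1)
 (.cons (nat_lit 484) (nat_lit 1371) (nat_lit 438) (nat_lit 1) .nil)), (nat_lit 61), (nat_lit 54), (nat_lit
 50), (nat_lit 1), (34, 45, 36), [24913, 834], 4⟩]

/-- Moves. -/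
noncomputable def t1_8 : List Mv := [
  mz,
  ⟨⟨-25, 12, -36, -22, 35, 36, 20, 28, -37⟩, (.cons (nat_lit 25416) (nat_lit 588) (nat_lit 18760) (nat_lit 1)
 (.cons (nat_lit 1079) (nat_lit 710) (nat_lit 405) (nat_lit 1) .nil)), (nat_lit 48), (nat_lit 59), (nat_lit
 47), (nat_lit 1), (2, 45, 36), [4325, 699], 9⟩,
  ⟨⟨21, -32, -49, 2, 35, -36, -28, -20, -13⟩, (.cons (nat_lit 2167) (nat_lit 21819) (nat_lit 1) (nat_lit 1550)
 (.cons (nat_lit 578) (nat_lit 370) (nat_lit 1159) (nat_lit 1) .nil)), (nat_lit 54), (nat_lit 24), (nat_lit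
 13), (nat_lit 1), (33, 30, 3), [9158, 1915], 56⟩,
  ⟨⟨-51, 4, 19, -2, -45, -14, -12, 12, -37⟩, (.cons (nat_lit 14394) (nat_lit 18785) (nat_lit 24271) (nat_lit 1)
 (.cons (nat_lit 361) (nat_lit 1112) (nat_lit 790) (nat_lit 1) .nil)), (nat_lit 5), (nat_lit 61), (nat_lit 26),
 (nat_lit 1), (7, 27, 21), [27338, 1146], 41⟩,
  mz,
  ⟨⟨25, -12, -61, -22, 35, -14, -20, -28, -17⟩, (.cons (nat_lit 9734) (nat_lit 2437) (nat_lit 1416) (nat_lit 1)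
 (.cons (nat_lit 211) (nat_lit 781) (nat_lit 2056) (nat_lit 1) .nil)), (nat_lit 25), (nat_lit 39), (nat_lit
 30), (nat_lit 1), (9, 9, 21), [24178, 1791], 68⟩,
  mz,
  mz,
  mz,
  ⟨⟨27, 32, -47, -40, 17, 0, 10, -16, -47⟩, (.cons (nat_lit 1190) (nat_lit 2834) (nat_lit 18720) (nat_lit 1)
 (.cons (nat_lit 1211) (nat_lit 1316) (nat_lit 278) (nat_lit 1) .nil)), (nat_lit 49), (nat_lit 30), (nat_lit
 44), (nat_lit 1), (43, 39, 2), [23094, 152], 26⟩,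
  mz,
  ⟨⟨17, 48, -17, 40, -17, -40, -10, 16, -37⟩, (.cons (nat_lit 21056) (nat_lit 21365) (nat_lit 8227) (nat_lit 1)
 (.cons (nat_lit 1602) (nat_lit 1282) (nat_lit 178) (nat_lit 1) .nil)), (nat_lit 14), (nat_lit 16), (nat_lit
 1), (nat_lit 0), (25, 45, 24), [16599, 933], 29⟩,
  ⟨⟨17, -36, -45, -20, 23, -30, 38, 8, -37⟩, (.cons (nat_lit 13297) (nat_lit 14822) (nat_lit 12343) (nat_lit 1)
 (.cons (nat_lit 570) (nat_lit 1135) (nat_lit 2077) (nat_lit 1) .nil)), (nat_lit 5), (nat_lit 15), (nat_lit 3),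
 (nat_lit 1), (19, 44, 1), [22216, 178], 37⟩,
  mz,
  ⟨⟨-51, -4, 19, -2, 45, -14, -12, -12, -37⟩, (.cons (nat_lit 7954) (nat_lit 20601) (nat_lit 13702) (nat_lit 1)
 (.cons (nat_lit 414) (nat_lit 95) (nat_lit 51) (nat_lit 1) .nil)), (nat_lit 37), (nat_lit 4), (nat_lit 63),
 (nat_lit 1), (25, 36, 28), [11355, 2196], 48⟩,
  ⟨⟨13, -36, 32, -40, -23, 10, 22, -32, -29⟩, (.cons (nat_lit 13089) (nat_lit 28083) (nat_lit 9020) (nat_lit 1)
 (.cons (nat_lit 1166) (nat_lit 1678) (nat_lit 736) (nat_lit 1) .nil)), (nat_lit 59), (nat_lit 44), (nat_lit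
 58), (nat_lit 1), (26, 14, 44), [8837, 989], 50⟩,
  ⟨⟨-9, -4, -52, -40, -23, 30, -22, 32, -7⟩, (.cons (nat_lit 29335) (nat_lit 15644) (nat_lit 23056) (nat_lit 1)
 (.cons (nat_lit 137) (nat_lit 1193) (nat_lit 580) (nat_lit 1) .nil)), (nat_lit 65), (nat_lit 30), (nat_lit
 52), (nat_lit 1), (36, 19, 41), [29364, 1823], 25⟩,
  mz,
  ⟨⟨19, 0, -63, 0, -47, 0, 42, 0, -23⟩, (.cons (nat_lit 23766) (nat_lit 29227) (nat_lit 27795) (nat_lit 1)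
 (.cons (nat_lit 1748) (nat_lit 1366) (nat_lit 963) (nat_lit 1) .nil)), (nat_lit 47), (nat_lit 47), (nat_lit
 34), (nat_lit 1), (16, 0, 23), [16208, 1564], 51⟩,
  ⟨⟨-39, 32, 8, -20, -33, -20, 6, 24, -41⟩, (.cons (nat_lit 29693) (nat_lit 4758) (nat_lit 16809) (nat_lit 1)
 (.cons (nat_lit 1775) (nat_lit 303) (nat_lit 587) (nat_lit 1) .nil)), (nat_lit 9), (nat_lit 19), (nat_lit 5),
 (nat_lit 1), (25, 8, 7), [24824, 1575], 66⟩,
  ⟨⟨17, -36, 28, -20, 23, 50, 38, 8, -1⟩, (.cons (nat_lit 15796) (nat_lit 29028) (nat_lit 22859) (nat_lit 1)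
 (.cons (nat_lit 1095) (nat_lit 1205) (nat_lit 1666) (nat_lit 1) .nil)), (nat_lit 13), (nat_lit 49), (nat_lit
 34), (nat_lit 1), (2, 17, 10), [14711, 663], 17⟩,
  ⟨⟨21, 32, -49, 2, -35, -36, -28, 20, -13⟩, (.cons (nat_lit 29313) (nat_lit 4869) (nat_lit 4899) (nat_lit 1)
 (.cons (nat_lit 333) (nat_lit 1589) (nat_lit 1486) (nat_lit 1) .nil)), (nat_lit 39), (nat_lit 7), (nat_lit 6),
 (nat_lit 1), (30, 23, 7), [380, 500], 1⟩,
  ⟨⟨-39, -32, 8, -20, 33, -20, 6, -24, -41⟩, (.cons (nat_lit 29790) (nat_lit 18018) (nat_lit 19051) (nat_lit 1)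
 (.cons (nat_lit 1868) (nat_lit 2069) (nat_lit 1794) (nat_lit 1) .nil)), (nat_lit 70), (nat_lit 14), (nat_lit
 64), (nat_lit 1), (28, 24, 21), [23066, 1202], 15⟩,
  mz,
  mz,
  ⟨⟨-45, 8, -4, 20, 33, -40, -6, -24, -35⟩, (.cons (nat_lit 29790) (nat_lit 2709) (nat_lit 12787) (nat_lit 1)
 (.cons (nat_lit 1084) (nat_lit 431) (nat_lit 1459) (nat_lit 1) .nil)), (nat_lit 70), (nat_lit 22), (nat_lit
 68), (nat_lit 1), (40, 24, 21), [28693, 1820], 2⟩,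
  ⟨⟨49, -12, -13, 2, 35, 34, 28, 20, -41⟩, (.cons (nat_lit 12834) (nat_lit 20145) (nat_lit 27969) (nat_lit 1)
 (.cons (nat_lit 747) (nat_lit 1170) (nat_lit 2110) (nat_lit 1) .nil)), (nat_lit 25), (nat_lit 54), (nat_lit
 69), (nat_lit 1), (24, 24, 7), [3129, 500], 68⟩,
  ⟨⟨17, 36, -45, -20, -23, -30, 38, -8, -37⟩, (.cons (nat_lit 6062) (nat_lit 19761) (nat_lit 21167) (nat_lit 1)
 (.cons (nat_lit 404) (nat_lit 600) (nat_lit 653) (nat_lit 1) .nil)), (nat_lit 42), (nat_lit 46), (nat_lit 46),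
 (nat_lit 1), (45, 30, 37), [24021, 403], 66⟩,
  ⟨⟨-45, -8, -4, 20, -33, -40, -6, 24, -35⟩, (.cons (nat_lit 9016) (nat_lit 29686) (nat_lit 4029) (nat_lit 1)
 (.cons (nat_lit 1239) (nat_lit 596) (nat_lit 450) (nat_lit 1) .nil)), (nat_lit 9), (nat_lit 9), (nat_lit 50),
 (nat_lit 1), (29, 8, 7), [10595, 1881], 66⟩,
  ⟨⟨23, 0, -63, 0, 47, 0, 42, 0, -19⟩, (.cons (nat_lit 22923) (nat_lit 29069) (nat_lit 25123) (nat_lit 1)
 (.cons (nat_lit 1042) (nat_lit 1942) (nat_lit 601) (nat_lit 1) .nil)), (nat_lit 68), (nat_lit 70), (nat_lit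
 31), (nat_lit 1), (40, 0, 24), [29531, 252], 38⟩,
  mz,
  ⟨⟨9, -4, -61, 40, -23, -10, 22, 32, -29⟩, (.cons (nat_lit 28289) (nat_lit 9359) (nat_lit 19155) (nat_lit 1)
 (.cons (nat_lit 1469) (nat_lit 1394) (nat_lit 1785) (nat_lit 1) .nil)), (nat_lit 42), (nat_lit 26), (nat_lit
 65), (nat_lit 1), (36, 19, 41), [19588, 1696], 66⟩,
  ⟨⟨-9, 4, -52, -40, 23, 30, -22, -32, -7⟩, (.cons (nat_lit 26100) (nat_lit 9935) (nat_lit 14922) (nat_lit 1)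
 (.cons (nat_lit 883) (nat_lit 402) (nat_lit 1168) (nat_lit 1) .nil)), (nat_lit 55), (nat_lit 64), (nat_lit
 54), (nat_lit 1), (18, 33, 44), [20404, 345], 26⟩,
  ⟨⟨51, -4, -32, -2, -45, 16, 12, -12, -49⟩, (.cons (nat_lit 2170) (nat_lit 6423) (nat_lit 702) (nat_lit 1)
 (.cons (nat_lit 203) (nat_lit 1335) (nat_lit 1734) (nat_lit 1) .nil)), (nat_lit 32), (nat_lit 6), (nat_lit
 53), (nat_lit 1), (25, 11, 28), [25329, 345], 48⟩,
  mz,
  ⟨⟨17, 36, 28, -20, -23, 50, 38, -8, -1⟩, (.cons (nat_lit 16538) (nat_lit 22126) (nat_lit 8608) (nat_lit 1)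
 (.cons (nat_lit 961) (nat_lit 1130) (nat_lit 196) (nat_lit 1) .nil)), (nat_lit 31), (nat_lit 4), (nat_lit 30),
 (nat_lit 1), (28, 3, 46), [13406, 381], 6⟩,
  ⟨⟨-17, 48, 0, -40, -17, 0, 10, 16, -47⟩, (.cons (nat_lit 1975) (nat_lit 20995) (nat_lit 1885) (nat_lit 1)
 (.cons (nat_lit 599) (nat_lit 1807) (nat_lit 312) (nat_lit 1) .nil)), (nat_lit 5), (nat_lit 50), (nat_lit 51),
 (nat_lit 1), (25, 45, 24), [17697, 2099], 51⟩,
  mz,
  ⟨⟨17, -48, -17, -40, -17, 40, -10, -16, -37⟩, (.cons (nat_lit 13378) (nat_lit 5000) (nat_lit 15208) (nat_lit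
 1) (.cons (nat_lit 1210) (nat_lit 127) (nat_lit 172) (nat_lit 1) .nil)), (nat_lit 66), (nat_lit 68), (nat_lit
 22), (nat_lit 1), (6, 8, 2), [470, 1456], 27⟩,
  mz,
  mz,
  mz,
  ⟨⟨45, -16, -1, 22, 35, -36, 20, -28, -37⟩, (.cons (nat_lit 12396) (nat_lit 1220) (nat_lit 20679) (nat_lit 1)
 (.cons (nat_lit 630) (nat_lit 554) (nat_lit 296) (nat_lit 1) .nil)), (nat_lit 57), (nat_lit 61), (nat_lit 42),
 (nat_lit 1), (12, 9, 21), [5686, 2097], 17⟩,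
  mz,
  ⟨⟨51, 4, -32, 2, -45, -16, 12, 12, -49⟩, (.cons (nat_lit 14556) (nat_lit 20761) (nat_lit 1) (nat_lit 8060)
 (.cons (nat_lit 1664) (nat_lit 1547) (nat_lit 331) (nat_lit 1) .nil)), (nat_lit 20), (nat_lit 22), (nat_lit
 5), (nat_lit 1), (7, 27, 21), [5693, 2095], 30⟩,
  ⟨⟨-21, -32, -28, -2, 35, -34, 28, -20, -41⟩, (.cons (nat_lit 15000) (nat_lit 22369) (nat_lit 1548) (nat_lit
 1) (.cons (nat_lit 1271) (nat_lit 1430) (nat_lit 1918) (nat_lit 1) .nil)), (nat_lit 48), (nat_lit 42),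
 (nat_lit 17), (nat_lit 1), (33, 30, 3), [23173, 2109], 9⟩,
  ⟨⟨-45, 16, 44, -22, -35, -14, -20, 28, -17⟩, (.cons (nat_lit 4143) (nat_lit 16583) (nat_lit 18258) (nat_lit
 1) (.cons (nat_lit 1571) (nat_lit 299) (nat_lit 225) (nat_lit 1) .nil)), (nat_lit 67), (nat_lit 47), (nat_lit
 43), (nat_lit 1), (34, 2, 36), [20513, 1643], 35⟩]

/-- Moves. -/
noncomputable def t1_19 : List Mv := [
  mz,
  ⟨⟨-25, 12, -36, 22, -35, -36, 20, 28, -37⟩, (.cons (nat_lit 12782) (nat_lit 23591) (nat_lit 13758) (nat_lit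
 1) (.cons (nat_lit 206) (nat_lit 375) (nat_lit 1748) (nat_lit 1) .nil)), (nat_lit 19), (nat_lit 60), (nat_lit
 46), (nat_lit 1), (2, 2, 36), [7900, 1430], 33⟩,
  ⟨⟨21, -32, -49, 2, 35, -36, -28, -20, -13⟩, (.cons (nat_lit 2167) (nat_lit 21819) (nat_lit 1) (nat_lit 1550)
 (.cons (nat_lit 578) (nat_lit 370) (nat_lit 1159) (nat_lit 1) .nil)), (nat_lit 54), (nat_lit 24), (nat_lit
 13), (nat_lit 1), (33, 30, 3), [9158, 1915], 56⟩,
  ⟨⟨39, 8, -56, 2, 45, 14, -12, 12, -37⟩, (.cons (nat_lit 29790) (nat_lit 23669) (nat_lit 20574) (nat_lit 1)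
 (.cons (nat_lit 1122) (nat_lit 1160) (nat_lit 1126) (nat_lit 1) .nil)), (nat_lit 70), (nat_lit 30), (nat_lit
 35), (nat_lit 1), (14, 20, 21), [19714, 1728], 52⟩,
  mz,
  ⟨⟨25, -12, -61, -22, 35, -14, -20, -28, -17⟩, (.cons (nat_lit 9734) (nat_lit 2437) (nat_lit 1416) (nat_lit 1)
 (.cons (nat_lit 211) (nat_lit 781) (nat_lit 2056) (nat_lit 1) .nil)), (nat_lit 25), (nat_lit 39), (nat_lit
 30), (nat_lit 1), (9, 9, 21), [24178, 1791], 68⟩,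
  mz,
  mz,
  mz,
  ⟨⟨-17, -48, 0, 40, -17, 0, 10, -16, -47⟩, (.cons (nat_lit 6999) (nat_lit 14998) (nat_lit 4298) (nat_lit 1)
 (.cons (nat_lit 1728) (nat_lit 1589) (nat_lit 1) (nat_lit 846) .nil)), (nat_lit 57), (nat_lit 61), (nat_lit
 4), (nat_lit 1), (6, 8, 2), [29409, 2059], 56⟩,
  mz,
  ⟨⟨17, 48, -17, 40, -17, -40, -10, 16, -37⟩, (.cons (nat_lit 21056) (nat_lit 21365) (nat_lit 8227) (nat_lit 1)
 (.cons (nat_lit 1602) (nat_lit 1282) (nat_lit 178) (nat_lit 1) .nil)), (nat_lit 14), (nat_lit 16), (nat_lit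
 1), (nat_lit 0), (25, 45, 24), [16599, 933], 29⟩,
  ⟨⟨17, -36, -45, -20, 23, -30, 38, 8, -37⟩, (.cons (nat_lit 13297) (nat_lit 14822) (nat_lit 12343) (nat_lit 1)
 (.cons (nat_lit 570) (nat_lit 1135) (nat_lit 2077) (nat_lit 1) .nil)), (nat_lit 5), (nat_lit 15), (nat_lit 3),
 (nat_lit 1), (19, 44, 1), [22216, 178], 37⟩,
  mz,
  ⟨⟨39, -8, -56, 2, -45, 14, -12, -12, -37⟩, (.cons (nat_lit 10943) (nat_lit 8070) (nat_lit 11761) (nat_lit 1)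
 (.cons (nat_lit 349) (nat_lit 1415) (nat_lit 132) (nat_lit 1) .nil)), (nat_lit 32), (nat_lit 67), (nat_lit
 27), (nat_lit 1), (3, 11, 28), [22942, 1334], 48⟩,
  ⟨⟨9, 4, -61, 40, 23, -10, 22, -32, -29⟩, (.cons (nat_lit 6856) (nat_lit 9884) (nat_lit 10517) (nat_lit 1)
 (.cons (nat_lit 892) (nat_lit 661) (nat_lit 1320) (nat_lit 1) .nil)), (nat_lit 37), (nat_lit 19), (nat_lit
 32), (nat_lit 1), (18, 33, 44), [7633, 927], 1⟩,
  ⟨⟨-13, 36, 45, 40, 23, -30, -22, 32, -7⟩, (.cons (nat_lit 29258) (nat_lit 25754) (nat_lit 11813) (nat_lit 1)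
 (.cons (nat_lit 2015) (nat_lit 1298) (nat_lit 2026) (nat_lit 1) .nil)), (nat_lit 48), (nat_lit 61), (nat_lit
 14), (nat_lit 1), (5, 28, 41), [6080, 977], 32⟩,
  mz,
  ⟨⟨19, 0, -63, 0, -47, 0, 42, 0, -23⟩, (.cons (nat_lit 23766) (nat_lit 29227) (nat_lit 27795) (nat_lit 1)
 (.cons (nat_lit 1748) (nat_lit 1366) (nat_lit 963) (nat_lit 1) .nil)), (nat_lit 47), (nat_lit 47), (nat_lit
 34), (nat_lit 1), (16, 0, 23), [16208, 1564], 51⟩,
  ⟨⟨45, -8, -49, -20, -33, -20, 6, 24, -41⟩, (.cons (nat_lit 1753) (nat_lit 22942) (nat_lit 10885) (nat_lit 1)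
 (.cons (nat_lit 2079) (nat_lit 1295) (nat_lit 493) (nat_lit 1) .nil)), (nat_lit 33), (nat_lit 24), (nat_lit
 37), (nat_lit 1), (29, 8, 7), [8917, 2045], 1⟩,
  ⟨⟨21, 44, -29, 20, -23, -50, 38, 8, -1⟩, (.cons (nat_lit 7114) (nat_lit 26452) (nat_lit 15039) (nat_lit 1)
 (.cons (nat_lit 262) (nat_lit 2170) (nat_lit 671) (nat_lit 1) .nil)), (nat_lit 57), (nat_lit 33), (nat_lit
 22), (nat_lit 1), (8, 30, 10), [10349, 77], 61⟩,
  ⟨⟨21, 32, -49, 2, -35, -36, -28, 20, -13⟩, (.cons (nat_lit 29313) (nat_lit 4869) (nat_lit 4899) (nat_lit 1)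
 (.cons (nat_lit 333) (nat_lit 1589) (nat_lit 1486) (nat_lit 1) .nil)), (nat_lit 39), (nat_lit 7), (nat_lit 6),
 (nat_lit 1), (30, 23, 7), [380, 500], 1⟩,
  ⟨⟨-39, -32, 8, -20, 33, -20, 6, -24, -41⟩, (.cons (nat_lit 29790) (nat_lit 18018) (nat_lit 19051) (nat_lit 1)
 (.cons (nat_lit 1868) (nat_lit 2069) (nat_lit 1794) (nat_lit 1) .nil)), (nat_lit 70), (nat_lit 14), (nat_lit
 64), (nat_lit 1), (28, 24, 21), [23066, 1202], 15⟩,
  mz,
  mz,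
  ⟨⟨-45, 8, -4, 20, 33, -40, -6, -24, -35⟩, (.cons (nat_lit 29790) (nat_lit 2709) (nat_lit 12787) (nat_lit 1)
 (.cons (nat_lit 1084) (nat_lit 431) (nat_lit 1459) (nat_lit 1) .nil)), (nat_lit 70), (nat_lit 22), (nat_lit
 68), (nat_lit 1), (40, 24, 21), [28693, 1820], 2⟩,
  ⟨⟨-21, 32, -28, -2, -35, -34, 28, 20, -41⟩, (.cons (nat_lit 28096) (nat_lit 12893) (nat_lit 1736) (nat_lit 1)
 (.cons (nat_lit 1274) (nat_lit 140) (nat_lit 1035) (nat_lit 1) .nil)), (nat_lit 19), (nat_lit 26), (nat_lit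
 57), (nat_lit 1), (30, 23, 7), [5947, 41], 33⟩,
  ⟨⟨21, -44, 8, -20, -23, -30, 38, -8, -37⟩, (.cons (nat_lit 14207) (nat_lit 15682) (nat_lit 13742) (nat_lit 1)
 (.cons (nat_lit 1429) (nat_lit 481) (nat_lit 2204) (nat_lit 1) .nil)), (nat_lit 65), (nat_lit 51), (nat_lit
 64), (nat_lit 1), (39, 30, 37), [28558, 1625], 25⟩,
  ⟨⟨39, 32, -31, -20, 33, 40, -6, 24, -35⟩, (.cons (nat_lit 26762) (nat_lit 20513) (nat_lit 5397) (nat_lit 1)
 (.cons (nat_lit 1918) (nat_lit 830) (nat_lit 472) (nat_lit 1) .nil)), (nat_lit 61), (nat_lit 14), (nat_lit 1),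
 (nat_lit 1), (25, 39, 7), [4415, 1058], 63⟩,
  ⟨⟨19, 0, 44, 0, -47, 0, 42, 0, -19⟩, (.cons (nat_lit 29790) (nat_lit 14434) (nat_lit 9884) (nat_lit 1) (.cons
 (nat_lit 1626) (nat_lit 16) (nat_lit 1962) (nat_lit 1) .nil)), (nat_lit 70), (nat_lit 16), (nat_lit 3),
 (nat_lit 1), (31, 0, 24), [12819, 1160], 40⟩,
  mz,
  ⟨⟨9, -4, -61, 40, -23, -10, 22, 32, -29⟩, (.cons (nat_lit 28289) (nat_lit 9359) (nat_lit 19155) (nat_lit 1)
 (.cons (nat_lit 1469) (nat_lit 1394) (nat_lit 1785) (nat_lit 1) .nil)), (nat_lit 42), (nat_lit 26), (nat_lit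
 65), (nat_lit 1), (36, 19, 41), [19588, 1696], 66⟩,
  ⟨⟨-13, -36, 45, -40, 23, 30, -22, -32, -7⟩, (.cons (nat_lit 12291) (nat_lit 24554) (nat_lit 17750) (nat_lit
 1) (.cons (nat_lit 292) (nat_lit 1196) (nat_lit 369) (nat_lit 1) .nil)), (nat_lit 57), (nat_lit 68), (nat_lit
 42), (nat_lit 1), (26, 33, 44), [9584, 768], 10⟩,
  ⟨⟨51, -4, -32, 2, 45, -16, 12, -12, -49⟩, (.cons (nat_lit 29790) (nat_lit 27802) (nat_lit 24429) (nat_lit 1)
 (.cons (nat_lit 1770) (nat_lit 69) (nat_lit 122) (nat_lit 1) .nil)), (nat_lit 70), (nat_lit 63), (nat_lit 64),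
 (nat_lit 1), (25, 36, 28), [22318, 21], 52⟩,
  mz,
  ⟨⟨17, 36, 28, 20, 23, -50, 38, -8, -1⟩, (.cons (nat_lit 9865) (nat_lit 19111) (nat_lit 6845) (nat_lit 1)
 (.cons (nat_lit 168) (nat_lit 1196) (nat_lit 34) (nat_lit 1) .nil)), (nat_lit 59), (nat_lit 5), (nat_lit 56),
 (nat_lit 1), (28, 44, 46), [11995, 734], 21⟩,
  ⟨⟨-17, 48, 0, -40, -17, 0, 10, 16, -47⟩, (.cons (nat_lit 1975) (nat_lit 20995) (nat_lit 1885) (nat_lit 1)
 (.cons (nat_lit 599) (nat_lit 1807) (nat_lit 312) (nat_lit 1) .nil)), (nat_lit 5), (nat_lit 50), (nat_lit 51),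
 (nat_lit 1), (25, 45, 24), [17697, 2099], 51⟩,
  mz,
  ⟨⟨17, -48, -17, 40, 17, -40, -10, -16, -37⟩, (.cons (nat_lit 726) (nat_lit 27886) (nat_lit 23767) (nat_lit 1)
 (.cons (nat_lit 894) (nat_lit 1313) (nat_lit 256) (nat_lit 1) .nil)), (nat_lit 29), (nat_lit 53), (nat_lit 2),
 (nat_lit 1), (6, 39, 2), [18245, 1675], 69⟩,
  mz,
  mz,
  mz,
  ⟨⟨45, -16, -1, 22, 35, -36, 20, -28, -37⟩, (.cons (nat_lit 12396) (nat_lit 1220) (nat_lit 20679) (nat_lit 1)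
 (.cons (nat_lit 630) (nat_lit 554) (nat_lit 296) (nat_lit 1) .nil)), (nat_lit 57), (nat_lit 61), (nat_lit 42),
 (nat_lit 1), (12, 9, 21), [5686, 2097], 17⟩,
  mz,
  ⟨⟨51, 4, -32, 2, -45, -16, 12, 12, -49⟩, (.cons (nat_lit 14556) (nat_lit 20761) (nat_lit 1) (nat_lit 8060)
 (.cons (nat_lit 1664) (nat_lit 1547) (nat_lit 331) (nat_lit 1) .nil)), (nat_lit 20), (nat_lit 22), (nat_lit
 5), (nat_lit 1), (7, 27, 21), [5693, 2095], 30⟩,
  ⟨⟨49, 12, -13, -2, 35, -34, 28, -20, -41⟩, (.cons (nat_lit 2348) (nat_lit 25167) (nat_lit 5038) (nat_lit 1)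
 (.cons (nat_lit 233) (nat_lit 1296) (nat_lit 790) (nat_lit 1) .nil)), (nat_lit 5), (nat_lit 50), (nat_lit 3),
 (nat_lit 1), (17, 30, 3), [18967, 840], 70⟩,
  ⟨⟨-45, 16, 44, -22, -35, -14, -20, 28, -17⟩, (.cons (nat_lit 4143) (nat_lit 16583) (nat_lit 18258) (nat_lit
 1) (.cons (nat_lit 1571) (nat_lit 299) (nat_lit 225) (nat_lit 1) .nil)), (nat_lit 67), (nat_lit 47), (nat_lit
 43), (nat_lit 1), (34, 2, 36), [20513, 1643], 35⟩]

/-- Moves. -/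
noncomputable def t4_1 : List Mv := [
  mz,
  ⟨⟨-75, 20, 43, -10, -21, -70, -12, 60, -13⟩, (.cons (nat_lit 27719) (nat_lit 10310) (nat_lit 23255) (nat_lit
 1) (.cons (nat_lit 337) (nat_lit 304) (nat_lit 1415) (nat_lit 1) .nil)), (nat_lit 55), (nat_lit 0), (nat_lit
 0), (nat_lit 0), (51, 21, 11), [15397, 98], 0⟩,
  mz,
  ⟨⟨-75, -16, 23, 4, -55, 48, -10, -40, -49⟩, (.cons (nat_lit 19776) (nat_lit 794) (nat_lit 20343) (nat_lit 1)
 (.cons (nat_lit 1833) (nat_lit 249) (nat_lit 1191) (nat_lit 1) .nil)), (nat_lit 42), (nat_lit 0), (nat_lit 0),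
 (nat_lit 0), (1, 70, 38), [7818, 1898], 0⟩,
  ⟨⟨27, 68, 16, 64, -15, -62, -6, 48, -43⟩, (.cons (nat_lit 4733) (nat_lit 18083) (nat_lit 15494) (nat_lit 1)
 (.cons (nat_lit 973) (nat_lit 1402) (nat_lit 1576) (nat_lit 1) .nil)), (nat_lit 46), (nat_lit 0), (nat_lit 0),
 (nat_lit 0), (60, 16, 34), [12540, 1174], 0⟩,
  ⟨⟨-33, 20, -59, -64, -15, 62, -6, -48, -43⟩, (.cons (nat_lit 17084) (nat_lit 28781) (nat_lit 18801) (nat_lit
 1) (.cons (nat_lit 1494) (nat_lit 310) (nat_lit 1520) (nat_lit 1) .nil)), (nat_lit 12), (nat_lit 0), (nat_lit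
 0), (nat_lit 0), (23, 36, 30), [10253, 2062], 0⟩,
  mz,
  ⟨⟨-29, 72, 20, 56, 25, -68, -38, 16, -35⟩, (.cons (nat_lit 6102) (nat_lit 2069) (nat_lit 813) (nat_lit 1)
 (.cons (nat_lit 756) (nat_lit 294) (nat_lit 693) (nat_lit 1) .nil)), (nat_lit 8), (nat_lit 0), (nat_lit 0),
 (nat_lit 0), (33, 44, 31), [19400, 1719], 0⟩,
  ⟨⟨3, 40, -76, 64, 25, -12, 26, -32, -67⟩, (.cons (nat_lit 10980) (nat_lit 12913) (nat_lit 10560) (nat_lit 1)
 (.cons (nat_lit 1610) (nat_lit 1595) (nat_lit 2024) (nat_lit 1) .nil)), (nat_lit 7), (nat_lit 0), (nat_lit 0),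
 (nat_lit 0), (14, 62, 3), [12060, 1820], 0⟩,
  mz,
  mz,
  ⟨⟨33, -20, -92, 64, 15, -2, 6, 48, -49⟩, (.cons (nat_lit 24232) (nat_lit 1823) (nat_lit 22479) (nat_lit 1)
 (.cons (nat_lit 421) (nat_lit 17) (nat_lit 386) (nat_lit 1) .nil)), (nat_lit 12), (nat_lit 0), (nat_lit 0),
 (nat_lit 0), (67, 3, 38), [23589, 838], 0⟩,
  ⟨⟨-51, -52, -5, 44, -15, -82, -42, 24, -25⟩, (.cons (nat_lit 25224) (nat_lit 4935) (nat_lit 6505) (nat_lit 1)
 (.cons (nat_lit 1001) (nat_lit 1159) (nat_lit 481) (nat_lit 1) .nil)), (nat_lit 5), (nat_lit 0), (nat_lit 0),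
 (nat_lit 0), (61, 49, 21), [1153, 1973], 0⟩,
  mz,
  mz,
  ⟨⟨-9, 76, -11, -44, -15, -38, 42, 24, -67⟩, (.cons (nat_lit 15061) (nat_lit 23238) (nat_lit 11178) (nat_lit
 1) (.cons (nat_lit 625) (nat_lit 157) (nat_lit 1916) (nat_lit 1) .nil)), (nat_lit 67), (nat_lit 0), (nat_lit
 0), (nat_lit 0), (25, 67, 49), [27365, 845], 0⟩,
  ⟨⟨17, 24, -89, -36, -55, -12, 54, -24, -53⟩, (.cons (nat_lit 29) (nat_lit 11676) (nat_lit 7704) (nat_lit 1)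
 (.cons (nat_lit 2116) (nat_lit 1059) (nat_lit 537) (nat_lit 1) .nil)), (nat_lit 22), (nat_lit 0), (nat_lit 0),
 (nat_lit 0), (7, 52, 64), [18336, 367], 0⟩,
  mz,
  ⟨⟨9, 56, -64, 56, 25, 12, 38, -16, -73⟩, (.cons (nat_lit 9461) (nat_lit 15448) (nat_lit 15720) (nat_lit 1)
 (.cons (nat_lit 670) (nat_lit 1395) (nat_lit 1044) (nat_lit 1) .nil)), (nat_lit 69), (nat_lit 0), (nat_lit 0),
 (nat_lit 0), (56, 25, 55), [3938, 1491], 0⟩,
  ⟨⟨-61, -48, 25, -44, 55, 32, -22, -8, -55⟩, (.cons (nat_lit 432) (nat_lit 29439) (nat_lit 319) (nat_lit 1)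
 (.cons (nat_lit 257) (nat_lit 291) (nat_lit 393) (nat_lit 1) .nil)), (nat_lit 44), (nat_lit 0), (nat_lit 0),
 (nat_lit 0), (9, 3, 37), [19132, 1086], 0⟩,
  mz,
  mz,
  ⟨⟨17, -24, 72, -36, 55, 48, 54, 24, -1⟩, (.cons (nat_lit 29790) (nat_lit 24561) (nat_lit 21750) (nat_lit 1)
 (.cons (nat_lit 2208) (nat_lit 2046) (nat_lit 967) (nat_lit 1) .nil)), (nat_lit 22), (nat_lit 0), (nat_lit 0),
 (nat_lit 0), (28, 66, 43), [2044, 1983], 0⟩,
  ⟨⟨-61, 48, 25, 44, 55, -32, -22, 8, -55⟩, (.cons (nat_lit 23227) (nat_lit 6955) (nat_lit 8919) (nat_lit 1)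
 (.cons (nat_lit 2083) (nat_lit 1874) (nat_lit 2135) (nat_lit 1) .nil)), (nat_lit 24), (nat_lit 0), (nat_lit
 0), (nat_lit 0), (13, 43, 14), [5675, 373], 0⟩,
  ⟨⟨-39, 40, -41, -44, -55, 12, 22, -8, -77⟩, (.cons (nat_lit 19509) (nat_lit 4802) (nat_lit 7898) (nat_lit 1)
 (.cons (nat_lit 1035) (nat_lit 1891) (nat_lit 525) (nat_lit 1) .nil)), (nat_lit 19), (nat_lit 0), (nat_lit 0),
 (nat_lit 0), (2, 15, 28), [26046, 1665], 0⟩,
  mz,
  ⟨⟨9, 16, -89, -10, 69, 20, 60, 12, -49⟩, (.cons (nat_lit 6488) (nat_lit 28334) (nat_lit 5813) (nat_lit 1)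
 (.cons (nat_lit 142) (nat_lit 1796) (nat_lit 445) (nat_lit 1) .nil)), (nat_lit 47), (nat_lit 0), (nat_lit 0),
 (nat_lit 0), (44, 30, 33), [19859, 1418], 0⟩,
  mz,
  mz,
  ⟨⟨-13, -72, 36, -70, 11, 30, -4, -44, -49⟩, (.cons (nat_lit 23578) (nat_lit 21063) (nat_lit 20795) (nat_lit
 1) (.cons (nat_lit 256) (nat_lit 1392) (nat_lit 1145) (nat_lit 1) .nil)), (nat_lit 43), (nat_lit 0), (nat_lit
 0), (nat_lit 0), (29, 36, 69), [22742, 516], 0⟩,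
  mz,
  ⟨⟨-33, -68, -4, -50, 11, 80, -44, 4, -29⟩, (.cons (nat_lit 2033) (nat_lit 17357) (nat_lit 15962) (nat_lit 1)
 (.cons (nat_lit 2136) (nat_lit 291) (nat_lit 436) (nat_lit 1) .nil)), (nat_lit 68), (nat_lit 0), (nat_lit 0),
 (nat_lit 0), (61, 58, 34), [1755, 1550], 0⟩,
  mz,
  ⟨⟨-29, -72, 20, 56, -25, -68, -38, -16, -35⟩, (.cons (nat_lit 1686) (nat_lit 27544) (nat_lit 2125) (nat_lit
 1) (.cons (nat_lit 1335) (nat_lit 1253) (nat_lit 29) (nat_lit 1) .nil)), (nat_lit 8), (nat_lit 0), (nat_lit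
 0), (nat_lit 0), (27, 36, 6), [4913, 17], 0⟩,
  ⟨⟨75, 20, -32, -10, 21, 80, 12, 60, -25⟩, (.cons (nat_lit 29790) (nat_lit 10062) (nat_lit 24559) (nat_lit 1)
 (.cons (nat_lit 2208) (nat_lit 1946) (nat_lit 585) (nat_lit 1) .nil)), (nat_lit 34), (nat_lit 0), (nat_lit 0),
 (nat_lit 0), (30, 67, 19), [6413, 2080], 0⟩,
  mz,
  ⟨⟨3, -40, -76, 64, -25, -12, 26, 32, -67⟩, (.cons (nat_lit 25396) (nat_lit 12853) (nat_lit 29164) (nat_lit 1)
 (.cons (nat_lit 2134) (nat_lit 98) (nat_lit 871) (nat_lit 1) .nil)), (nat_lit 7), (nat_lit 0), (nat_lit 0),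
 (nat_lit 0), (58, 54, 53), [3080, 2038], 0⟩,
  mz,
  ⟨⟨17, -24, -89, -36, 55, -12, 54, 24, -53⟩, (.cons (nat_lit 17098) (nat_lit 21403) (nat_lit 3033) (nat_lit 1)
 (.cons (nat_lit 1210) (nat_lit 933) (nat_lit 39) (nat_lit 1) .nil)), (nat_lit 22), (nat_lit 0), (nat_lit 0),
 (nat_lit 0), (5, 27, 66), [1699, 812], 0⟩,
  ⟨⟨-23, -72, 32, 64, -25, -52, -26, -32, -41⟩, (.cons (nat_lit 26700) (nat_lit 14679) (nat_lit 991) (nat_lit
 1) (.cons (nat_lit 1415) (nat_lit 390) (nat_lit 1038) (nat_lit 1) .nil)), (nat_lit 18), (nat_lit 0), (nat_lit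
 0), (nat_lit 0), (21, 28, 33), [15864, 2070], 0⟩,
  mz,
  mz,
  ⟨⟨-65, 24, -7, -4, 55, 52, 10, 40, -59⟩, (.cons (nat_lit 19494) (nat_lit 18443) (nat_lit 26094) (nat_lit 1)
 (.cons (nat_lit 2022) (nat_lit 1974) (nat_lit 1232) (nat_lit 1) .nil)), (nat_lit 50), (nat_lit 0), (nat_lit
 0), (nat_lit 0), (43, 66, 48), [23929, 1152], 0⟩,
  ⟨⟨11, -72, -36, 50, -11, 30, 44, -4, -73⟩, (.cons (nat_lit 3238) (nat_lit 29458) (nat_lit 6254) (nat_lit 1)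
 (.cons (nat_lit 446) (nat_lit 942) (nat_lit 81) (nat_lit 1) .nil)), (nat_lit 64), (nat_lit 0), (nat_lit 0),
 (nat_lit 0), (69, 49, 63), [27632, 234], 0⟩,
  ⟨⟨-39, -40, -41, 44, -55, -12, 22, 8, -77⟩, (.cons (nat_lit 23663) (nat_lit 11792) (nat_lit 28979) (nat_lit
 1) (.cons (nat_lit 1270) (nat_lit 1511) (nat_lit 26) (nat_lit 1) .nil)), (nat_lit 23), (nat_lit 0), (nat_lit
 0), (nat_lit 0), (46, 10, 5), [16250, 1947], 0⟩,
  mz,
  ⟨⟨51, 52, -56, -44, 15, -38, 42, -24, -67⟩, (.cons (nat_lit 17195) (nat_lit 12960) (nat_lit 17069) (nat_lit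
 1) (.cons (nat_lit 938) (nat_lit 561) (nat_lit 617) (nat_lit 1) .nil)), (nat_lit 5), (nat_lit 0), (nat_lit 0),
 (nat_lit 0), (52, 15, 47), [9143, 274], 0⟩,
  ⟨⟨9, -16, 80, 10, 69, 10, 60, -12, -11⟩, (.cons (nat_lit 28714) (nat_lit 12442) (nat_lit 1) (nat_lit 25141)
 (.cons (nat_lit 2079) (nat_lit 1010) (nat_lit 1894) (nat_lit 1) .nil)), (nat_lit 54), (nat_lit 0), (nat_lit
 0), (nat_lit 0), (33, 13, 7), [3478, 978], 0⟩,
  ⟨⟨51, 4, 40, 10, 69, -20, 60, -12, -49⟩, (.cons (nat_lit 29790) (nat_lit 10813) (nat_lit 15625) (nat_lit 1)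
 (.cons (nat_lit 2208) (nat_lit 1144) (nat_lit 1784) (nat_lit 1) .nil)), (nat_lit 48), (nat_lit 0), (nat_lit
 0), (nat_lit 0), (13, 29, 32), [27886, 2123], 0⟩,
  ⟨⟨9, -56, -64, -56, 25, -12, 38, 16, -73⟩, (.cons (nat_lit 20305) (nat_lit 8333) (nat_lit 8728) (nat_lit 1)
 (.cons (nat_lit 1602) (nat_lit 2150) (nat_lit 1657) (nat_lit 1) .nil)), (nat_lit 39), (nat_lit 0), (nat_lit
 0), (nat_lit 0), (4, 54, 9), [4359, 1578], 0⟩,
  ⟨⟨-75, 16, 23, 4, 55, 48, -10, 40, -49⟩, (.cons (nat_lit 3602) (nat_lit 2244) (nat_lit 17) (nat_lit 1) (.cons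
 (nat_lit 189) (nat_lit 235) (nat_lit 1306) (nat_lit 1) .nil)), (nat_lit 42), (nat_lit 0), (nat_lit 0),
 (nat_lit 0), (26, 45, 65), [19887, 1340], 0⟩,
  ⟨⟨9, -76, -20, 44, 15, -82, -42, -24, -25⟩, (.cons (nat_lit 7276) (nat_lit 25852) (nat_lit 26219) (nat_lit 1)
 (.cons (nat_lit 703) (nat_lit 1413) (nat_lit 746) (nat_lit 1) .nil)), (nat_lit 67), (nat_lit 0), (nat_lit 0),
 (nat_lit 0), (1, 68, 19), [15707, 932], 0⟩,
  mz,
  ⟨⟨13, -72, 23, 70, 11, -40, 4, -44, -53⟩, (.cons (nat_lit 29390) (nat_lit 17674) (nat_lit 22518) (nat_lit 1)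
 (.cons (nat_lit 1577) (nat_lit 546) (nat_lit 2004) (nat_lit 1) .nil)), (nat_lit 43), (nat_lit 0), (nat_lit 0),
 (nat_lit 0), (14, 59, 48), [7761, 1644], 0⟩,
  ⟨⟨51, -4, -91, -10, 69, -10, 60, 12, -11⟩, (.cons (nat_lit 26531) (nat_lit 21757) (nat_lit 14157) (nat_lit 1)
 (.cons (nat_lit 1944) (nat_lit 1254) (nat_lit 661) (nat_lit 1) .nil)), (nat_lit 26), (nat_lit 0), (nat_lit 0),
 (nat_lit 0), (21, 46, 8), [869, 1770], 0⟩,
  ⟨⟨75, -20, -32, 10, 21, -80, 12, -60, -25⟩, (.cons (nat_lit 29790) (nat_lit 20585) (nat_lit 3205) (nat_lit 1)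
 (.cons (nat_lit 2208) (nat_lit 951) (nat_lit 1395) (nat_lit 1) .nil)), (nat_lit 55), (nat_lit 0), (nat_lit 0),
 (nat_lit 0), (52, 59, 14), [2070, 106], 0⟩,
  mz,
  ⟨⟨-11, -72, -25, 50, 11, -80, -44, -4, -29⟩, (.cons (nat_lit 16664) (nat_lit 3912) (nat_lit 23348) (nat_lit
 1) (.cons (nat_lit 1072) (nat_lit 914) (nat_lit 1798) (nat_lit 1) .nil)), (nat_lit 29), (nat_lit 0), (nat_lit
 0), (nat_lit 0), (38, 8, 10), [27521, 1235], 0⟩,
  ⟨⟨-75, -20, 43, -10, 21, -70, -12, -60, -13⟩, (.cons (nat_lit 27980) (nat_lit 24448) (nat_lit 4706) (nat_lit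
 1) (.cons (nat_lit 1787) (nat_lit 1844) (nat_lit 1190) (nat_lit 1) .nil)), (nat_lit 55), (nat_lit 0), (nat_lit
 0), (nat_lit 0), (2, 5, 6), [126, 2174], 0⟩,
  mz,
  mz,
  mz,
  ⟨⟨11, 72, -36, -50, -11, -30, 44, 4, -73⟩, (.cons (nat_lit 3947) (nat_lit 9508) (nat_lit 29121) (nat_lit 1)
 (.cons (nat_lit 280) (nat_lit 1468) (nat_lit 1580) (nat_lit 1) .nil)), (nat_lit 29), (nat_lit 0), (nat_lit 0),
 (nat_lit 0), (4, 27, 16), [9075, 1500], 0⟩,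
  mz,
  ⟨⟨9, -28, -85, 70, 11, -30, -4, 44, -49⟩, (.cons (nat_lit 5100) (nat_lit 9297) (nat_lit 16643) (nat_lit 1)
 (.cons (nat_lit 1730) (nat_lit 1470) (nat_lit 23) (nat_lit 1) .nil)), (nat_lit 31), (nat_lit 0), (nat_lit 0),
 (nat_lit 0), (14, 30, 49), [4800, 201], 0⟩,
  ⟨⟨75, -16, -52, 4, 55, -52, 10, -40, -59⟩, (.cons (nat_lit 29790) (nat_lit 4943) (nat_lit 3072) (nat_lit 1)
 (.cons (nat_lit 2208) (nat_lit 1084) (nat_lit 235) (nat_lit 1) .nil)), (nat_lit 65), (nat_lit 0), (nat_lit 0),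
 (nat_lit 0), (51, 51, 21), [21188, 1528], 0⟩,
  mz,
  ⟨⟨33, 20, -92, 64, -15, -2, 6, -48, -49⟩, (.cons (nat_lit 3568) (nat_lit 29056) (nat_lit 24554) (nat_lit 1)
 (.cons (nat_lit 151) (nat_lit 968) (nat_lit 924) (nat_lit 1) .nil)), (nat_lit 12), (nat_lit 0), (nat_lit 0),
 (nat_lit 0), (45, 55, 34), [24789, 1545], 0⟩,
  ⟨⟨13, 72, 23, 70, -11, -40, 4, 44, -53⟩, (.cons (nat_lit 26768) (nat_lit 28362) (nat_lit 4423) (nat_lit 1)
 (.cons (nat_lit 237) (nat_lit 4) (nat_lit 2141) (nat_lit 1) .nil)), (nat_lit 43), (nat_lit 0), (nat_lit 0),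
 (nat_lit 0), (20, 64, 28), [5228, 795], 0⟩,
  ⟨⟨-3, -40, -73, 64, 25, -52, -26, 32, -41⟩, (.cons (nat_lit 17256) (nat_lit 22774) (nat_lit 5503) (nat_lit 1)
 (.cons (nat_lit 1359) (nat_lit 1914) (nat_lit 477) (nat_lit 1) .nil)), (nat_lit 33), (nat_lit 0), (nat_lit 0),
 (nat_lit 0), (56, 36, 12), [28864, 1249], 0⟩,
  ⟨⟨37, -48, -73, -36, -55, 48, 54, -24, -1⟩, (.cons (nat_lit 25270) (nat_lit 4974) (nat_lit 11436) (nat_lit 1)
 (.cons (nat_lit 317) (nat_lit 2122) (nat_lit 243) (nat_lit 1) .nil)), (nat_lit 16), (nat_lit 0), (nat_lit 0),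
 (nat_lit 0), (11, 20, 41), [15728, 692], 0⟩]

/-- Moves. -/
noncomputable def t4_4 : List Mv := [
  mz,
  ⟨⟨63, 40, -56, -10, -21, -70, -12, 60, -13⟩, (.cons (nat_lit 17) (nat_lit 10287) (nat_lit 27739) (nat_lit 1)
 (.cons (nat_lit 1731) (nat_lit 542) (nat_lit 2120) (nat_lit 1) .nil)), (nat_lit 58), (nat_lit 0), (nat_lit 0),
 (nat_lit 0), (31, 21, 11), [9183, 145], 0⟩,
  mz,
  ⟨⟨65, -24, -72, -4, 55, -48, -10, -40, -49⟩, (.cons (nat_lit 29790) (nat_lit 5664) (nat_lit 21385) (nat_lit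
 1) (.cons (nat_lit 2208) (nat_lit 1454) (nat_lit 141) (nat_lit 1) .nil)), (nat_lit 3), (nat_lit 0), (nat_lit
 0), (nat_lit 0), (37, 1, 38), [21959, 964], 0⟩,
  ⟨⟨27, 68, 16, 64, -15, -62, -6, 48, -43⟩, (.cons (nat_lit 4733) (nat_lit 18083) (nat_lit 15494) (nat_lit 1)
 (.cons (nat_lit 973) (nat_lit 1402) (nat_lit 1576) (nat_lit 1) .nil)), (nat_lit 46), (nat_lit 0), (nat_lit 0),
 (nat_lit 0), (60, 16, 34), [12540, 1174], 0⟩,
  ⟨⟨-33, 20, -59, -64, -15, 62, -6, -48, -43⟩, (.cons (nat_lit 17084) (nat_lit 28781) (nat_lit 18801) (nat_lit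
 1) (.cons (nat_lit 1494) (nat_lit 310) (nat_lit 1520) (nat_lit 1) .nil)), (nat_lit 12), (nat_lit 0), (nat_lit
 0), (nat_lit 0), (23, 36, 30), [10253, 2062], 0⟩,
  mz,
  ⟨⟨-29, 72, 20, -56, -25, 68, -38, 16, -35⟩, (.cons (nat_lit 6209) (nat_lit 5812) (nat_lit 20213) (nat_lit 1)
 (.cons (nat_lit 1885) (nat_lit 826) (nat_lit 1661) (nat_lit 1) .nil)), (nat_lit 36), (nat_lit 0), (nat_lit 0),
 (nat_lit 0), (33, 27, 31), [26931, 1647], 0⟩,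
  ⟨⟨23, -72, 9, 64, 25, -12, 26, -32, -67⟩, (.cons (nat_lit 6617) (nat_lit 19914) (nat_lit 17699) (nat_lit 1)
 (.cons (nat_lit 1727) (nat_lit 520) (nat_lit 1554) (nat_lit 1) .nil)), (nat_lit 49), (nat_lit 0), (nat_lit 0),
 (nat_lit 0), (60, 62, 3), [17173, 410], 0⟩,
  mz,
  mz,
  ⟨⟨-27, 68, 43, 64, 15, -2, 6, 48, -49⟩, (.cons (nat_lit 909) (nat_lit 9308) (nat_lit 5792) (nat_lit 1) (.cons
 (nat_lit 1835) (nat_lit 1722) (nat_lit 1185) (nat_lit 1) .nil)), (nat_lit 15), (nat_lit 0), (nat_lit 0),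
 (nat_lit 0), (42, 3, 38), [13718, 1167], 0⟩,
  ⟨⟨9, 76, -20, 44, -15, -82, -42, 24, -25⟩, (.cons (nat_lit 25658) (nat_lit 927) (nat_lit 13536) (nat_lit 1)
 (.cons (nat_lit 1302) (nat_lit 1003) (nat_lit 857) (nat_lit 1) .nil)), (nat_lit 67), (nat_lit 0), (nat_lit 0),
 (nat_lit 0), (31, 49, 21), [5410, 375], 0⟩,
  mz,
  mz,
  ⟨⟨-9, 76, -11, 44, 15, 38, 42, 24, -67⟩, (.cons (nat_lit 9111) (nat_lit 9789) (nat_lit 18740) (nat_lit 1)
 (.cons (nat_lit 1199) (nat_lit 737) (nat_lit 1781) (nat_lit 1) .nil)), (nat_lit 11), (nat_lit 0), (nat_lit 0),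
 (nat_lit 0), (25, 4, 49), [20201, 92], 0⟩,
  ⟨⟨17, 24, -89, -36, -55, -12, 54, -24, -53⟩, (.cons (nat_lit 29) (nat_lit 11676) (nat_lit 7704) (nat_lit 1)
 (.cons (nat_lit 2116) (nat_lit 1059) (nat_lit 537) (nat_lit 1) .nil)), (nat_lit 22), (nat_lit 0), (nat_lit 0),
 (nat_lit 0), (7, 52, 64), [18336, 367], 0⟩,
  mz,
  ⟨⟨9, 56, -64, -56, -25, -12, 38, -16, -73⟩, (.cons (nat_lit 26543) (nat_lit 11792) (nat_lit 1340) (nat_lit 1)
 (.cons (nat_lit 1711) (nat_lit 2037) (nat_lit 18) (nat_lit 1) .nil)), (nat_lit 39), (nat_lit 0), (nat_lit 0),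
 (nat_lit 0), (56, 46, 55), [13682, 1098], 0⟩,
  ⟨⟨-61, -48, 25, 44, -55, -32, -22, -8, -55⟩, (.cons (nat_lit 7003) (nat_lit 5633) (nat_lit 12193) (nat_lit 1)
 (.cons (nat_lit 1176) (nat_lit 647) (nat_lit 1120) (nat_lit 1) .nil)), (nat_lit 24), (nat_lit 0), (nat_lit 0),
 (nat_lit 0), (9, 68, 37), [25443, 67], 0⟩,
  mz,
  mz,
  ⟨⟨37, 48, -73, -36, 55, 48, 54, 24, -1⟩, (.cons (nat_lit 18491) (nat_lit 24252) (nat_lit 5898) (nat_lit 1)
 (.cons (nat_lit 95) (nat_lit 1009) (nat_lit 2001) (nat_lit 1) .nil)), (nat_lit 16), (nat_lit 0), (nat_lit 0),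
 (nat_lit 0), (15, 66, 43), [5150, 1325], 0⟩,
  ⟨⟨39, -40, -80, 44, 55, -32, -22, 8, -55⟩, (.cons (nat_lit 12160) (nat_lit 10047) (nat_lit 24198) (nat_lit 1)
 (.cons (nat_lit 502) (nat_lit 899) (nat_lit 1007) (nat_lit 1) .nil)), (nat_lit 19), (nat_lit 0), (nat_lit 0),
 (nat_lit 0), (1, 43, 14), [6831, 232], 0⟩,
  ⟨⟨-39, 40, -41, 44, 55, -12, 22, -8, -77⟩, (.cons (nat_lit 12776) (nat_lit 9473) (nat_lit 1431) (nat_lit 1)
 (.cons (nat_lit 1385) (nat_lit 85) (nat_lit 876) (nat_lit 1) .nil)), (nat_lit 23), (nat_lit 0), (nat_lit 0),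
 (nat_lit 0), (2, 56, 28), [4930, 616], 0⟩,
  mz,
  ⟨⟨51, -4, 40, 10, -69, -20, 60, 12, -49⟩, (.cons (nat_lit 19009) (nat_lit 4259) (nat_lit 1) (nat_lit 14415)
 (.cons (nat_lit 622) (nat_lit 682) (nat_lit 503) (nat_lit 1) .nil)), (nat_lit 48), (nat_lit 0), (nat_lit 0),
 (nat_lit 0), (60, 41, 33), [29156, 150], 0⟩,
  mz,
  mz,
  ⟨⟨-13, -72, 36, 70, -11, -30, -4, -44, -49⟩, (.cons (nat_lit 3872) (nat_lit 6700) (nat_lit 2423) (nat_lit 1)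
 (.cons (nat_lit 2138) (nat_lit 405) (nat_lit 1730) (nat_lit 1) .nil)), (nat_lit 62), (nat_lit 0), (nat_lit 0),
 (nat_lit 0), (29, 35, 69), [517, 93], 0⟩,
  mz,
  ⟨⟨-11, 72, -25, 50, -11, -80, -44, 4, -29⟩, (.cons (nat_lit 25776) (nat_lit 5978) (nat_lit 2226) (nat_lit 1)
 (.cons (nat_lit 1553) (nat_lit 434) (nat_lit 911) (nat_lit 1) .nil)), (nat_lit 29), (nat_lit 0), (nat_lit 0),
 (nat_lit 0), (44, 13, 34), [5631, 231], 0⟩,
  mz,
  ⟨⟨-9, 56, -55, -56, 25, 68, -38, -16, -35⟩, (.cons (nat_lit 14987) (nat_lit 1549) (nat_lit 17818) (nat_lit 1)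
 (.cons (nat_lit 881) (nat_lit 1442) (nat_lit 1682) (nat_lit 1) .nil)), (nat_lit 69), (nat_lit 0), (nat_lit 0),
 (nat_lit 0), (50, 35, 6), [21823, 1021], 0⟩,
  ⟨⟨75, 20, -32, 10, -21, -80, 12, 60, -25⟩, (.cons (nat_lit 23236) (nat_lit 25293) (nat_lit 26433) (nat_lit 1)
 (.cons (nat_lit 838) (nat_lit 1338) (nat_lit 512) (nat_lit 1) .nil)), (nat_lit 55), (nat_lit 0), (nat_lit 0),
 (nat_lit 0), (30, 4, 19), [23505, 850], 0⟩,
  mz,
  ⟨⟨3, -40, -76, 64, -25, -12, 26, 32, -67⟩, (.cons (nat_lit 25396) (nat_lit 12853) (nat_lit 29164) (nat_lit 1)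
 (.cons (nat_lit 2134) (nat_lit 98) (nat_lit 871) (nat_lit 1) .nil)), (nat_lit 7), (nat_lit 0), (nat_lit 0),
 (nat_lit 0), (58, 54, 53), [3080, 2038], 0⟩,
  mz,
  ⟨⟨17, -24, -89, -36, 55, -12, 54, 24, -53⟩, (.cons (nat_lit 17098) (nat_lit 21403) (nat_lit 3033) (nat_lit 1)
 (.cons (nat_lit 1210) (nat_lit 933) (nat_lit 39) (nat_lit 1) .nil)), (nat_lit 22), (nat_lit 0), (nat_lit 0),
 (nat_lit 0), (5, 27, 66), [1699, 812], 0⟩,
  ⟨⟨-23, -72, 32, -64, 25, 52, -26, -32, -41⟩, (.cons (nat_lit 7615) (nat_lit 28826) (nat_lit 1) (nat_lit 7285)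
 (.cons (nat_lit 1281) (nat_lit 473) (nat_lit 232) (nat_lit 1) .nil)), (nat_lit 49), (nat_lit 0), (nat_lit 0),
 (nat_lit 0), (21, 43, 33), [25766, 269], 0⟩,
  mz,
  mz,
  ⟨⟨75, 16, -52, 4, -55, -52, 10, 40, -59⟩, (.cons (nat_lit 20024) (nat_lit 19104) (nat_lit 11829) (nat_lit 1)
 (.cons (nat_lit 238) (nat_lit 1885) (nat_lit 1) (nat_lit 188) .nil)), (nat_lit 65), (nat_lit 0), (nat_lit 0),
 (nat_lit 0), (5, 5, 48), [13225, 1196], 0⟩,
  ⟨⟨11, -72, -36, -50, 11, -30, 44, -4, -73⟩, (.cons (nat_lit 18216) (nat_lit 24472) (nat_lit 20636) (nat_lit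
 1) (.cons (nat_lit 1372) (nat_lit 961) (nat_lit 1868) (nat_lit 1) .nil)), (nat_lit 29), (nat_lit 0), (nat_lit
 0), (nat_lit 0), (69, 22, 63), [442, 1799], 0⟩,
  ⟨⟨61, 48, -36, -44, 55, 12, 22, 8, -77⟩, (.cons (nat_lit 3263) (nat_lit 17276) (nat_lit 18730) (nat_lit 1)
 (.cons (nat_lit 2194) (nat_lit 1545) (nat_lit 1578) (nat_lit 1) .nil)), (nat_lit 24), (nat_lit 0), (nat_lit
 0), (nat_lit 0), (30, 61, 5), [15728, 326], 0⟩,
  mz,
  ⟨⟨51, 52, -56, 44, -15, 38, 42, -24, -67⟩, (.cons (nat_lit 9303) (nat_lit 3628) (nat_lit 17967) (nat_lit 1)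
 (.cons (nat_lit 2125) (nat_lit 691) (nat_lit 2053) (nat_lit 1) .nil)), (nat_lit 4), (nat_lit 0), (nat_lit 0),
 (nat_lit 0), (52, 56, 47), [12947, 2203], 0⟩,
  ⟨⟨9, -16, 80, -10, -69, -10, 60, -12, -11⟩, (.cons (nat_lit 29790) (nat_lit 4387) (nat_lit 12264) (nat_lit 1)
 (.cons (nat_lit 2208) (nat_lit 1937) (nat_lit 1247) (nat_lit 1) .nil)), (nat_lit 47), (nat_lit 0), (nat_lit
 0), (nat_lit 0), (33, 58, 7), [26767, 1684], 0⟩,
  ⟨⟨9, -16, -89, -10, -69, 20, 60, -12, -49⟩, (.cons (nat_lit 11018) (nat_lit 11545) (nat_lit 20920) (nat_lit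
 1) (.cons (nat_lit 1145) (nat_lit 1989) (nat_lit 514) (nat_lit 1) .nil)), (nat_lit 47), (nat_lit 0), (nat_lit
 0), (nat_lit 0), (19, 42, 32), [14178, 1473], 0⟩,
  ⟨⟨9, -56, -64, -56, 25, -12, 38, 16, -73⟩, (.cons (nat_lit 20305) (nat_lit 8333) (nat_lit 8728) (nat_lit 1)
 (.cons (nat_lit 1602) (nat_lit 2150) (nat_lit 1657) (nat_lit 1) .nil)), (nat_lit 39), (nat_lit 0), (nat_lit
 0), (nat_lit 0), (4, 54, 9), [4359, 1578], 0⟩,
  ⟨⟨-75, 16, 23, -4, -55, -48, -10, 40, -49⟩, (.cons (nat_lit 23654) (nat_lit 6706) (nat_lit 28292) (nat_lit 1)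
 (.cons (nat_lit 1507) (nat_lit 1264) (nat_lit 1) (nat_lit 1598) .nil)), (nat_lit 65), (nat_lit 0), (nat_lit
 0), (nat_lit 0), (26, 26, 65), [8766, 1196], 0⟩,
  ⟨⟨9, -76, -20, 44, 15, -82, -42, -24, -25⟩, (.cons (nat_lit 7276) (nat_lit 25852) (nat_lit 26219) (nat_lit 1)
 (.cons (nat_lit 703) (nat_lit 1413) (nat_lit 746) (nat_lit 1) .nil)), (nat_lit 67), (nat_lit 0), (nat_lit 0),
 (nat_lit 0), (1, 68, 19), [15707, 932], 0⟩,
  mz,
  ⟨⟨13, -72, 23, 70, 11, -40, 4, -44, -53⟩, (.cons (nat_lit 29390) (nat_lit 17674) (nat_lit 22518) (nat_lit 1)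
 (.cons (nat_lit 1577) (nat_lit 546) (nat_lit 2004) (nat_lit 1) .nil)), (nat_lit 43), (nat_lit 0), (nat_lit 0),
 (nat_lit 0), (14, 59, 48), [7761, 1644], 0⟩,
  ⟨⟨9, 16, 80, -10, 69, -10, 60, 12, -11⟩, (.cons (nat_lit 1581) (nat_lit 14340) (nat_lit 11590) (nat_lit 1)
 (.cons (nat_lit 2192) (nat_lit 1707) (nat_lit 1272) (nat_lit 1) .nil)), (nat_lit 47), (nat_lit 0), (nat_lit
 0), (nat_lit 0), (58, 46, 8), [4622, 2099], 0⟩,
  ⟨⟨75, -20, -32, 10, 21, -80, 12, -60, -25⟩, (.cons (nat_lit 29790) (nat_lit 20585) (nat_lit 3205) (nat_lit 1)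
 (.cons (nat_lit 2208) (nat_lit 951) (nat_lit 1395) (nat_lit 1) .nil)), (nat_lit 55), (nat_lit 0), (nat_lit 0),
 (nat_lit 0), (52, 59, 14), [2070, 106], 0⟩,
  mz,
  ⟨⟨-11, -72, -25, 50, 11, -80, -44, -4, -29⟩, (.cons (nat_lit 16664) (nat_lit 3912) (nat_lit 23348) (nat_lit
 1) (.cons (nat_lit 1072) (nat_lit 914) (nat_lit 1798) (nat_lit 1) .nil)), (nat_lit 29), (nat_lit 0), (nat_lit
 0), (nat_lit 0), (38, 8, 10), [27521, 1235], 0⟩,
  ⟨⟨63, -40, -56, 10, -21, 70, -12, -60, -13⟩, (.cons (nat_lit 21029) (nat_lit 16919) (nat_lit 14140) (nat_lit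
 1) (.cons (nat_lit 1733) (nat_lit 1748) (nat_lit 1816) (nat_lit 1) .nil)), (nat_lit 1), (nat_lit 0), (nat_lit
 0), (nat_lit 0), (4, 66, 6), [9000, 1272], 0⟩,
  mz,
  mz,
  mz,
  ⟨⟨11, 72, -36, -50, -11, -30, 44, 4, -73⟩, (.cons (nat_lit 3947) (nat_lit 9508) (nat_lit 29121) (nat_lit 1)
 (.cons (nat_lit 280) (nat_lit 1468) (nat_lit 1580) (nat_lit 1) .nil)), (nat_lit 29), (nat_lit 0), (nat_lit 0),
 (nat_lit 0), (4, 27, 16), [9075, 1500], 0⟩,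
  mz,
  ⟨⟨-13, 72, 36, -70, -11, 30, -4, 44, -49⟩, (.cons (nat_lit 12761) (nat_lit 19091) (nat_lit 2795) (nat_lit 1)
 (.cons (nat_lit 421) (nat_lit 1038) (nat_lit 1243) (nat_lit 1) .nil)), (nat_lit 43), (nat_lit 0), (nat_lit 0),
 (nat_lit 0), (35, 41, 49), [9515, 419], 0⟩,
  ⟨⟨-65, -24, -7, -4, -55, 52, 10, -40, -59⟩, (.cons (nat_lit 25359) (nat_lit 19365) (nat_lit 29616) (nat_lit
 1) (.cons (nat_lit 1269) (nat_lit 1443) (nat_lit 1394) (nat_lit 1) .nil)), (nat_lit 50), (nat_lit 0), (nat_lit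
 0), (nat_lit 0), (41, 20, 21), [28544, 1475], 0⟩,
  mz,
  ⟨⟨-27, -68, 43, 64, -15, -2, 6, -48, -49⟩, (.cons (nat_lit 29611) (nat_lit 12100) (nat_lit 16043) (nat_lit 1)
 (.cons (nat_lit 1541) (nat_lit 1053) (nat_lit 877) (nat_lit 1) .nil)), (nat_lit 15), (nat_lit 0), (nat_lit 0),
 (nat_lit 0), (60, 55, 34), [16049, 652], 0⟩,
  ⟨⟨-9, -28, -76, 70, -11, -40, 4, 44, -53⟩, (.cons (nat_lit 16750) (nat_lit 7260) (nat_lit 21961) (nat_lit 1)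
 (.cons (nat_lit 1220) (nat_lit 1218) (nat_lit 637) (nat_lit 1) .nil)), (nat_lit 57), (nat_lit 0), (nat_lit 0),
 (nat_lit 0), (8, 64, 28), [5479, 184], 0⟩,
  ⟨⟨-23, 72, 32, 64, 25, -52, -26, 32, -41⟩, (.cons (nat_lit 4676) (nat_lit 8327) (nat_lit 17468) (nat_lit 1)
 (.cons (nat_lit 333) (nat_lit 1564) (nat_lit 1370) (nat_lit 1) .nil)), (nat_lit 18), (nat_lit 0), (nat_lit 0),
 (nat_lit 0), (27, 36, 12), [3590, 685], 0⟩,
  ⟨⟨17, 24, 72, 36, 55, -48, 54, -24, -1⟩, (.cons (nat_lit 29790) (nat_lit 16916) (nat_lit 5835) (nat_lit 1)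
 (.cons (nat_lit 2208) (nat_lit 1122) (nat_lit 1556) (nat_lit 1) .nil)), (nat_lit 70), (nat_lit 0), (nat_lit
 0), (nat_lit 0), (30, 51, 41), [10291, 526], 0⟩]

/-- Moves. -/
noncomputable def t4_6 : List Mv := [
  mz,
  ⟨⟨-75, 20, 43, -10, -21, -70, -12, 60, -13⟩, (.cons (nat_lit 27719) (nat_lit 10310) (nat_lit 23255) (nat_lit
 1) (.cons (nat_lit 337) (nat_lit 304) (nat_lit 1415) (nat_lit 1) .nil)), (nat_lit 55), (nat_lit 0), (nat_lit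
 0), (nat_lit 0), (51, 21, 11), [15397, 98], 0⟩,
  mz,
  ⟨⟨65, -24, -72, -4, 55, -48, -10, -40, -49⟩, (.cons (nat_lit 29790) (nat_lit 5664) (nat_lit 21385) (nat_lit
 1) (.cons (nat_lit 2208) (nat_lit 1454) (nat_lit 141) (nat_lit 1) .nil)), (nat_lit 3), (nat_lit 0), (nat_lit
 0), (nat_lit 0), (37, 1, 38), [21959, 964], 0⟩,
  ⟨⟨-33, -20, -59, 64, -15, -62, -6, 48, -43⟩, (.cons (nat_lit 23028) (nat_lit 7542) (nat_lit 13182) (nat_lit
 1) (.cons (nat_lit 1941) (nat_lit 8) (nat_lit 1200) (nat_lit 1) .nil)), (nat_lit 51), (nat_lit 0), (nat_lit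
 0), (nat_lit 0), (45, 16, 34), [17910, 375], 0⟩,
  ⟨⟨27, -68, 16, 64, 15, -62, -6, -48, -43⟩, (.cons (nat_lit 14387) (nat_lit 6349) (nat_lit 25301) (nat_lit 1)
 (.cons (nat_lit 869) (nat_lit 680) (nat_lit 614) (nat_lit 1) .nil)), (nat_lit 46), (nat_lit 0), (nat_lit 0),
 (nat_lit 0), (7, 35, 30), [24038, 1502], 0⟩,
  mz,
  ⟨⟨-29, 72, 20, -56, -25, 68, -38, 16, -35⟩, (.cons (nat_lit 6209) (nat_lit 5812) (nat_lit 20213) (nat_lit 1)
 (.cons (nat_lit 1885) (nat_lit 826) (nat_lit 1661) (nat_lit 1) .nil)), (nat_lit 36), (nat_lit 0), (nat_lit 0),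
 (nat_lit 0), (33, 27, 31), [26931, 1647], 0⟩,
  ⟨⟨3, 40, -76, 64, 25, -12, 26, -32, -67⟩, (.cons (nat_lit 10980) (nat_lit 12913) (nat_lit 10560) (nat_lit 1)
 (.cons (nat_lit 1610) (nat_lit 1595) (nat_lit 2024) (nat_lit 1) .nil)), (nat_lit 7), (nat_lit 0), (nat_lit 0),
 (nat_lit 0), (14, 62, 3), [12060, 1820], 0⟩,
  mz,
  mz,
  ⟨⟨33, -20, -92, 64, 15, -2, 6, 48, -49⟩, (.cons (nat_lit 24232) (nat_lit 1823) (nat_lit 22479) (nat_lit 1)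
 (.cons (nat_lit 421) (nat_lit 17) (nat_lit 386) (nat_lit 1) .nil)), (nat_lit 12), (nat_lit 0), (nat_lit 0),
 (nat_lit 0), (67, 3, 38), [23589, 838], 0⟩,
  ⟨⟨-51, -52, -5, 44, -15, -82, -42, 24, -25⟩, (.cons (nat_lit 25224) (nat_lit 4935) (nat_lit 6505) (nat_lit 1)
 (.cons (nat_lit 1001) (nat_lit 1159) (nat_lit 481) (nat_lit 1) .nil)), (nat_lit 5), (nat_lit 0), (nat_lit 0),
 (nat_lit 0), (61, 49, 21), [1153, 1973], 0⟩,
  mz,
  mz,
  ⟨⟨51, -52, -56, -44, -15, -38, 42, 24, -67⟩, (.cons (nat_lit 17587) (nat_lit 13412) (nat_lit 21200) (nat_lit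
 1) (.cons (nat_lit 1490) (nat_lit 2005) (nat_lit 83) (nat_lit 1) .nil)), (nat_lit 5), (nat_lit 0), (nat_lit
 0), (nat_lit 0), (24, 67, 49), [7041, 234], 0⟩,
  ⟨⟨17, 24, -89, 36, 55, 12, 54, -24, -53⟩, (.cons (nat_lit 29165) (nat_lit 15460) (nat_lit 9096) (nat_lit 1)
 (.cons (nat_lit 1547) (nat_lit 2049) (nat_lit 1818) (nat_lit 1) .nil)), (nat_lit 70), (nat_lit 0), (nat_lit
 0), (nat_lit 0), (7, 19, 64), [4471, 2135], 0⟩,
  mz,
  ⟨⟨29, -72, -9, -56, -25, -12, 38, -16, -73⟩, (.cons (nat_lit 17132) (nat_lit 12479) (nat_lit 7577) (nat_lit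
 1) (.cons (nat_lit 1203) (nat_lit 125) (nat_lit 253) (nat_lit 1) .nil)), (nat_lit 8), (nat_lit 0), (nat_lit
 0), (nat_lit 0), (70, 46, 55), [17225, 440], 0⟩,
  ⟨⟨39, 40, -80, -44, 55, 32, -22, -8, -55⟩, (.cons (nat_lit 1492) (nat_lit 24540) (nat_lit 3276) (nat_lit 1)
 (.cons (nat_lit 2187) (nat_lit 2106) (nat_lit 64) (nat_lit 1) .nil)), (nat_lit 23), (nat_lit 0), (nat_lit 0),
 (nat_lit 0), (28, 3, 37), [23054, 1838], 0⟩,
  mz,
  mz,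
  ⟨⟨17, -24, 72, 36, -55, -48, 54, 24, -1⟩, (.cons (nat_lit 26176) (nat_lit 16540) (nat_lit 12758) (nat_lit 1)
 (.cons (nat_lit 380) (nat_lit 1297) (nat_lit 767) (nat_lit 1) .nil)), (nat_lit 70), (nat_lit 0), (nat_lit 0),
 (nat_lit 0), (28, 5, 43), [3335, 309], 0⟩,
  ⟨⟨-61, 48, 25, 44, 55, -32, -22, 8, -55⟩, (.cons (nat_lit 23227) (nat_lit 6955) (nat_lit 8919) (nat_lit 1)
 (.cons (nat_lit 2083) (nat_lit 1874) (nat_lit 2135) (nat_lit 1) .nil)), (nat_lit 24), (nat_lit 0), (nat_lit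
 0), (nat_lit 0), (13, 43, 14), [5675, 373], 0⟩,
  ⟨⟨-39, 40, -41, 44, 55, -12, 22, -8, -77⟩, (.cons (nat_lit 12776) (nat_lit 9473) (nat_lit 1431) (nat_lit 1)
 (.cons (nat_lit 1385) (nat_lit 85) (nat_lit 876) (nat_lit 1) .nil)), (nat_lit 23), (nat_lit 0), (nat_lit 0),
 (nat_lit 0), (2, 56, 28), [4930, 616], 0⟩,
  mz,
  ⟨⟨51, -4, 40, 10, -69, -20, 60, 12, -49⟩, (.cons (nat_lit 19009) (nat_lit 4259) (nat_lit 1) (nat_lit 14415)
 (.cons (nat_lit 622) (nat_lit 682) (nat_lit 503) (nat_lit 1) .nil)), (nat_lit 48), (nat_lit 0), (nat_lit 0),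
 (nat_lit 0), (60, 41, 33), [29156, 150], 0⟩,
  mz,
  mz,
  ⟨⟨-13, -72, 36, 70, -11, -30, -4, -44, -49⟩, (.cons (nat_lit 3872) (nat_lit 6700) (nat_lit 2423) (nat_lit 1)
 (.cons (nat_lit 2138) (nat_lit 405) (nat_lit 1730) (nat_lit 1) .nil)), (nat_lit 62), (nat_lit 0), (nat_lit 0),
 (nat_lit 0), (29, 35, 69), [517, 93], 0⟩,
  mz,
  ⟨⟨-11, 72, -25, -50, 11, 80, -44, 4, -29⟩, (.cons (nat_lit 18044) (nat_lit 27844) (nat_lit 16779) (nat_lit 1)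
 (.cons (nat_lit 1342) (nat_lit 2106) (nat_lit 60) (nat_lit 1) .nil)), (nat_lit 64), (nat_lit 0), (nat_lit 0),
 (nat_lit 0), (44, 58, 34), [18735, 516], 0⟩,
  mz,
  ⟨⟨-9, 56, -55, -56, 25, 68, -38, -16, -35⟩, (.cons (nat_lit 14987) (nat_lit 1549) (nat_lit 17818) (nat_lit 1)
 (.cons (nat_lit 881) (nat_lit 1442) (nat_lit 1682) (nat_lit 1) .nil)), (nat_lit 69), (nat_lit 0), (nat_lit 0),
 (nat_lit 0), (50, 35, 6), [21823, 1021], 0⟩,
  ⟨⟨75, 20, -32, -10, 21, 80, 12, 60, -25⟩, (.cons (nat_lit 29790) (nat_lit 10062) (nat_lit 24559) (nat_lit 1)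
 (.cons (nat_lit 2208) (nat_lit 1946) (nat_lit 585) (nat_lit 1) .nil)), (nat_lit 34), (nat_lit 0), (nat_lit 0),
 (nat_lit 0), (30, 67, 19), [6413, 2080], 0⟩,
  mz,
  ⟨⟨23, 72, 9, 64, -25, -12, 26, 32, -67⟩, (.cons (nat_lit 15229) (nat_lit 5817) (nat_lit 6603) (nat_lit 1)
 (.cons (nat_lit 639) (nat_lit 1124) (nat_lit 1106) (nat_lit 1) .nil)), (nat_lit 49), (nat_lit 0), (nat_lit 0),
 (nat_lit 0), (66, 54, 53), [21493, 769], 0⟩,
  mz,
  ⟨⟨17, -24, -89, -36, 55, -12, 54, 24, -53⟩, (.cons (nat_lit 17098) (nat_lit 21403) (nat_lit 3033) (nat_lit 1)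
 (.cons (nat_lit 1210) (nat_lit 933) (nat_lit 39) (nat_lit 1) .nil)), (nat_lit 22), (nat_lit 0), (nat_lit 0),
 (nat_lit 0), (5, 27, 66), [1699, 812], 0⟩,
  ⟨⟨-23, -72, 32, 64, -25, -52, -26, -32, -41⟩, (.cons (nat_lit 26700) (nat_lit 14679) (nat_lit 991) (nat_lit
 1) (.cons (nat_lit 1415) (nat_lit 390) (nat_lit 1038) (nat_lit 1) .nil)), (nat_lit 18), (nat_lit 0), (nat_lit
 0), (nat_lit 0), (21, 28, 33), [15864, 2070], 0⟩,
  mz,
  mz,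
  ⟨⟨-65, 24, -7, 4, -55, -52, 10, 40, -59⟩, (.cons (nat_lit 821) (nat_lit 3528) (nat_lit 11148) (nat_lit 1)
 (.cons (nat_lit 1877) (nat_lit 935) (nat_lit 1) (nat_lit 1128) .nil)), (nat_lit 3), (nat_lit 0), (nat_lit 0),
 (nat_lit 0), (43, 5, 48), [11921, 1807], 0⟩,
  ⟨⟨11, -72, -36, -50, 11, -30, 44, -4, -73⟩, (.cons (nat_lit 18216) (nat_lit 24472) (nat_lit 20636) (nat_lit
 1) (.cons (nat_lit 1372) (nat_lit 961) (nat_lit 1868) (nat_lit 1) .nil)), (nat_lit 29), (nat_lit 0), (nat_lit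
 0), (nat_lit 0), (69, 22, 63), [442, 1799], 0⟩,
  ⟨⟨-39, -40, -41, -44, 55, 12, 22, 8, -77⟩, (.cons (nat_lit 21033) (nat_lit 15448) (nat_lit 23239) (nat_lit 1)
 (.cons (nat_lit 1848) (nat_lit 1228) (nat_lit 497) (nat_lit 1) .nil)), (nat_lit 19), (nat_lit 0), (nat_lit 0),
 (nat_lit 0), (46, 61, 5), [15416, 185], 0⟩,
  mz,
  ⟨⟨51, 52, -56, -44, 15, -38, 42, -24, -67⟩, (.cons (nat_lit 17195) (nat_lit 12960) (nat_lit 17069) (nat_lit
 1) (.cons (nat_lit 938) (nat_lit 561) (nat_lit 617) (nat_lit 1) .nil)), (nat_lit 5), (nat_lit 0), (nat_lit 0),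
 (nat_lit 0), (52, 15, 47), [9143, 274], 0⟩,
  ⟨⟨51, 4, -91, -10, -69, -10, 60, -12, -11⟩, (.cons (nat_lit 23257) (nat_lit 13082) (nat_lit 28408) (nat_lit
 1) (.cons (nat_lit 2069) (nat_lit 1823) (nat_lit 448) (nat_lit 1) .nil)), (nat_lit 26), (nat_lit 0), (nat_lit
 0), (nat_lit 0), (45, 58, 7), [14352, 838], 0⟩,
  ⟨⟨51, 4, 40, 10, 69, -20, 60, -12, -49⟩, (.cons (nat_lit 29790) (nat_lit 10813) (nat_lit 15625) (nat_lit 1)
 (.cons (nat_lit 2208) (nat_lit 1144) (nat_lit 1784) (nat_lit 1) .nil)), (nat_lit 48), (nat_lit 0), (nat_lit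
 0), (nat_lit 0), (13, 29, 32), [27886, 2123], 0⟩,
  ⟨⟨29, 72, -9, 56, -25, 12, 38, 16, -73⟩, (.cons (nat_lit 11970) (nat_lit 21868) (nat_lit 27404) (nat_lit 1)
 (.cons (nat_lit 1687) (nat_lit 1343) (nat_lit 783) (nat_lit 1) .nil)), (nat_lit 36), (nat_lit 0), (nat_lit 0),
 (nat_lit 0), (5, 17, 9), [19194, 1083], 0⟩,
  ⟨⟨65, 24, -72, -4, -55, -48, -10, 40, -49⟩, (.cons (nat_lit 19032) (nat_lit 17710) (nat_lit 19949) (nat_lit
 1) (.cons (nat_lit 608) (nat_lit 334) (nat_lit 1) (nat_lit 658) .nil)), (nat_lit 3), (nat_lit 0), (nat_lit 0),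
 (nat_lit 0), (39, 26, 65), [20169, 1807], 0⟩,
  ⟨⟨-51, 52, -5, -44, -15, 82, -42, -24, -25⟩, (.cons (nat_lit 19567) (nat_lit 10300) (nat_lit 28075) (nat_lit
 1) (.cons (nat_lit 272) (nat_lit 33) (nat_lit 532) (nat_lit 1) .nil)), (nat_lit 4), (nat_lit 0), (nat_lit 0),
 (nat_lit 0), (18, 3, 19), [16204, 1169], 0⟩,
  mz,
  ⟨⟨13, -72, 23, -70, -11, 40, 4, -44, -53⟩, (.cons (nat_lit 10108) (nat_lit 1936) (nat_lit 7430) (nat_lit 1)
 (.cons (nat_lit 1904) (nat_lit 1251) (nat_lit 1795) (nat_lit 1) .nil)), (nat_lit 62), (nat_lit 0), (nat_lit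
 0), (nat_lit 0), (14, 12, 48), [29457, 1315], 0⟩,
  ⟨⟨9, 16, 80, -10, 69, -10, 60, 12, -11⟩, (.cons (nat_lit 1581) (nat_lit 14340) (nat_lit 11590) (nat_lit 1)
 (.cons (nat_lit 2192) (nat_lit 1707) (nat_lit 1272) (nat_lit 1) .nil)), (nat_lit 47), (nat_lit 0), (nat_lit
 0), (nat_lit 0), (58, 46, 8), [4622, 2099], 0⟩,
  ⟨⟨75, -20, -32, 10, 21, -80, 12, -60, -25⟩, (.cons (nat_lit 29790) (nat_lit 20585) (nat_lit 3205) (nat_lit 1)
 (.cons (nat_lit 2208) (nat_lit 951) (nat_lit 1395) (nat_lit 1) .nil)), (nat_lit 55), (nat_lit 0), (nat_lit 0),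
 (nat_lit 0), (52, 59, 14), [2070, 106], 0⟩,
  mz,
  ⟨⟨-11, -72, -25, 50, 11, -80, -44, -4, -29⟩, (.cons (nat_lit 16664) (nat_lit 3912) (nat_lit 23348) (nat_lit
 1) (.cons (nat_lit 1072) (nat_lit 914) (nat_lit 1798) (nat_lit 1) .nil)), (nat_lit 29), (nat_lit 0), (nat_lit
 0), (nat_lit 0), (38, 8, 10), [27521, 1235], 0⟩,
  ⟨⟨-75, -20, 43, -10, 21, -70, -12, -60, -13⟩, (.cons (nat_lit 27980) (nat_lit 24448) (nat_lit 4706) (nat_lit
 1) (.cons (nat_lit 1787) (nat_lit 1844) (nat_lit 1190) (nat_lit 1) .nil)), (nat_lit 55), (nat_lit 0), (nat_lit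
 0), (nat_lit 0), (2, 5, 6), [126, 2174], 0⟩,
  mz,
  mz,
  mz,
  ⟨⟨11, 72, -36, -50, -11, -30, 44, 4, -73⟩, (.cons (nat_lit 3947) (nat_lit 9508) (nat_lit 29121) (nat_lit 1)
 (.cons (nat_lit 280) (nat_lit 1468) (nat_lit 1580) (nat_lit 1) .nil)), (nat_lit 29), (nat_lit 0), (nat_lit 0),
 (nat_lit 0), (4, 27, 16), [9075, 1500], 0⟩,
  mz,
  ⟨⟨-13, 72, 36, 70, 11, -30, -4, 44, -49⟩, (.cons (nat_lit 7883) (nat_lit 21737) (nat_lit 5729) (nat_lit 1)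
 (.cons (nat_lit 1466) (nat_lit 2008) (nat_lit 1762) (nat_lit 1) .nil)), (nat_lit 62), (nat_lit 0), (nat_lit
 0), (nat_lit 0), (35, 30, 49), [3753, 718], 0⟩,
  ⟨⟨-65, -24, -7, 4, 55, -52, 10, -40, -59⟩, (.cons (nat_lit 19742) (nat_lit 27710) (nat_lit 8397) (nat_lit 1)
 (.cons (nat_lit 1646) (nat_lit 1031) (nat_lit 47) (nat_lit 1) .nil)), (nat_lit 3), (nat_lit 0), (nat_lit 0),
 (nat_lit 0), (41, 51, 21), [20457, 964], 0⟩,
  mz,
  ⟨⟨33, 20, -92, -64, 15, 2, 6, -48, -49⟩, (.cons (nat_lit 954) (nat_lit 4140) (nat_lit 11514) (nat_lit 1)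
 (.cons (nat_lit 1480) (nat_lit 683) (nat_lit 420) (nat_lit 1) .nil)), (nat_lit 51), (nat_lit 0), (nat_lit 0),
 (nat_lit 0), (45, 16, 34), [10453, 1032], 0⟩,
  ⟨⟨-9, -28, -76, -70, 11, 40, 4, 44, -53⟩, (.cons (nat_lit 12822) (nat_lit 17107) (nat_lit 29197) (nat_lit 1)
 (.cons (nat_lit 1513) (nat_lit 1517) (nat_lit 823) (nat_lit 1) .nil)), (nat_lit 31), (nat_lit 0), (nat_lit 0),
 (nat_lit 0), (8, 7, 28), [8812, 1282], 0⟩,
  ⟨⟨-3, -40, -73, 64, 25, -52, -26, 32, -41⟩, (.cons (nat_lit 17256) (nat_lit 22774) (nat_lit 5503) (nat_lit 1)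
 (.cons (nat_lit 1359) (nat_lit 1914) (nat_lit 477) (nat_lit 1) .nil)), (nat_lit 33), (nat_lit 0), (nat_lit 0),
 (nat_lit 0), (56, 36, 12), [28864, 1249], 0⟩,
  ⟨⟨17, 24, 72, 36, 55, -48, 54, -24, -1⟩, (.cons (nat_lit 29790) (nat_lit 16916) (nat_lit 5835) (nat_lit 1)
 (.cons (nat_lit 2208) (nat_lit 1122) (nat_lit 1556) (nat_lit 1) .nil)), (nat_lit 70), (nat_lit 0), (nat_lit
 0), (nat_lit 0), (30, 51, 41), [10291, 526], 0⟩]

/-- Moves. -/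
noncomputable def t4_8 : List Mv := [
  mz,
  ⟨⟨-75, 20, 43, -10, -21, -70, -12, 60, -13⟩, (.cons (nat_lit 27719) (nat_lit 10310) (nat_lit 23255) (nat_lit
 1) (.cons (nat_lit 337) (nat_lit 304) (nat_lit 1415) (nat_lit 1) .nil)), (nat_lit 55), (nat_lit 0), (nat_lit
 0), (nat_lit 0), (51, 21, 11), [15397, 98], 0⟩,
  mz,
  ⟨⟨65, -24, -72, -4, 55, -48, -10, -40, -49⟩, (.cons (nat_lit 29790) (nat_lit 5664) (nat_lit 21385) (nat_lit
 1) (.cons (nat_lit 2208) (nat_lit 1454) (nat_lit 141) (nat_lit 1) .nil)), (nat_lit 3), (nat_lit 0), (nat_lit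
 0), (nat_lit 0), (37, 1, 38), [21959, 964], 0⟩,
  ⟨⟨27, 68, 16, 64, -15, -62, -6, 48, -43⟩, (.cons (nat_lit 4733) (nat_lit 18083) (nat_lit 15494) (nat_lit 1)
 (.cons (nat_lit 973) (nat_lit 1402) (nat_lit 1576) (nat_lit 1) .nil)), (nat_lit 46), (nat_lit 0), (nat_lit 0),
 (nat_lit 0), (60, 16, 34), [12540, 1174], 0⟩,
  ⟨⟨27, -68, 16, 64, 15, -62, -6, -48, -43⟩, (.cons (nat_lit 14387) (nat_lit 6349) (nat_lit 25301) (nat_lit 1)
 (.cons (nat_lit 869) (nat_lit 680) (nat_lit 614) (nat_lit 1) .nil)), (nat_lit 46), (nat_lit 0), (nat_lit 0),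
 (nat_lit 0), (7, 35, 30), [24038, 1502], 0⟩,
  mz,
  ⟨⟨-9, -56, -55, -56, -25, 68, -38, 16, -35⟩, (.cons (nat_lit 2897) (nat_lit 26228) (nat_lit 8359) (nat_lit 1)
 (.cons (nat_lit 1546) (nat_lit 1900) (nat_lit 909) (nat_lit 1) .nil)), (nat_lit 69), (nat_lit 0), (nat_lit 0),
 (nat_lit 0), (69, 27, 31), [3486, 1224], 0⟩,
  ⟨⟨3, 40, -76, 64, 25, -12, 26, -32, -67⟩, (.cons (nat_lit 10980) (nat_lit 12913) (nat_lit 10560) (nat_lit 1)
 (.cons (nat_lit 1610) (nat_lit 1595) (nat_lit 2024) (nat_lit 1) .nil)), (nat_lit 7), (nat_lit 0), (nat_lit 0),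
 (nat_lit 0), (14, 62, 3), [12060, 1820], 0⟩,
  mz,
  mz,
  ⟨⟨33, -20, -92, 64, 15, -2, 6, 48, -49⟩, (.cons (nat_lit 24232) (nat_lit 1823) (nat_lit 22479) (nat_lit 1)
 (.cons (nat_lit 421) (nat_lit 17) (nat_lit 386) (nat_lit 1) .nil)), (nat_lit 12), (nat_lit 0), (nat_lit 0),
 (nat_lit 0), (67, 3, 38), [23589, 838], 0⟩,
  ⟨⟨9, 76, -20, 44, -15, -82, -42, 24, -25⟩, (.cons (nat_lit 25658) (nat_lit 927) (nat_lit 13536) (nat_lit 1)
 (.cons (nat_lit 1302) (nat_lit 1003) (nat_lit 857) (nat_lit 1) .nil)), (nat_lit 67), (nat_lit 0), (nat_lit 0),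
 (nat_lit 0), (31, 49, 21), [5410, 375], 0⟩,
  mz,
  mz,
  ⟨⟨51, -52, -56, -44, -15, -38, 42, 24, -67⟩, (.cons (nat_lit 17587) (nat_lit 13412) (nat_lit 21200) (nat_lit
 1) (.cons (nat_lit 1490) (nat_lit 2005) (nat_lit 83) (nat_lit 1) .nil)), (nat_lit 5), (nat_lit 0), (nat_lit
 0), (nat_lit 0), (24, 67, 49), [7041, 234], 0⟩,
  ⟨⟨17, 24, -89, -36, -55, -12, 54, -24, -53⟩, (.cons (nat_lit 29) (nat_lit 11676) (nat_lit 7704) (nat_lit 1)
 (.cons (nat_lit 2116) (nat_lit 1059) (nat_lit 537) (nat_lit 1) .nil)), (nat_lit 22), (nat_lit 0), (nat_lit 0),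
 (nat_lit 0), (7, 52, 64), [18336, 367], 0⟩,
  mz,
  ⟨⟨9, 56, -64, -56, -25, -12, 38, -16, -73⟩, (.cons (nat_lit 26543) (nat_lit 11792) (nat_lit 1340) (nat_lit 1)
 (.cons (nat_lit 1711) (nat_lit 2037) (nat_lit 18) (nat_lit 1) .nil)), (nat_lit 39), (nat_lit 0), (nat_lit 0),
 (nat_lit 0), (56, 46, 55), [13682, 1098], 0⟩,
  ⟨⟨-61, -48, 25, -44, 55, 32, -22, -8, -55⟩, (.cons (nat_lit 432) (nat_lit 29439) (nat_lit 319) (nat_lit 1)
 (.cons (nat_lit 257) (nat_lit 291) (nat_lit 393) (nat_lit 1) .nil)), (nat_lit 44), (nat_lit 0), (nat_lit 0),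
 (nat_lit 0), (9, 3, 37), [19132, 1086], 0⟩,
  mz,
  mz,
  ⟨⟨37, 48, -73, 36, -55, -48, 54, 24, -1⟩, (.cons (nat_lit 8846) (nat_lit 20658) (nat_lit 11773) (nat_lit 1)
 (.cons (nat_lit 513) (nat_lit 724) (nat_lit 2083) (nat_lit 1) .nil)), (nat_lit 38), (nat_lit 0), (nat_lit 0),
 (nat_lit 0), (15, 5, 43), [602, 1014], 0⟩,
  ⟨⟨-61, 48, 25, -44, -55, 32, -22, 8, -55⟩, (.cons (nat_lit 9018) (nat_lit 13614) (nat_lit 23821) (nat_lit 1)
 (.cons (nat_lit 941) (nat_lit 745) (nat_lit 2042) (nat_lit 1) .nil)), (nat_lit 44), (nat_lit 0), (nat_lit 0),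
 (nat_lit 0), (13, 28, 14), [25226, 1994], 0⟩,
  ⟨⟨-39, 40, -41, 44, 55, -12, 22, -8, -77⟩, (.cons (nat_lit 12776) (nat_lit 9473) (nat_lit 1431) (nat_lit 1)
 (.cons (nat_lit 1385) (nat_lit 85) (nat_lit 876) (nat_lit 1) .nil)), (nat_lit 23), (nat_lit 0), (nat_lit 0),
 (nat_lit 0), (2, 56, 28), [4930, 616], 0⟩,
  mz,
  ⟨⟨9, 16, -89, 10, -69, -20, 60, 12, -49⟩, (.cons (nat_lit 10701) (nat_lit 24799) (nat_lit 22969) (nat_lit 1)
 (.cons (nat_lit 1117) (nat_lit 1997) (nat_lit 1678) (nat_lit 1) .nil)), (nat_lit 54), (nat_lit 0), (nat_lit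
 0), (nat_lit 0), (44, 41, 33), [22966, 667], 0⟩,
  mz,
  mz,
  ⟨⟨9, 28, -85, -70, 11, 30, -4, -44, -49⟩, (.cons (nat_lit 817) (nat_lit 21324) (nat_lit 20715) (nat_lit 1)
 (.cons (nat_lit 2141) (nat_lit 300) (nat_lit 769) (nat_lit 1) .nil)), (nat_lit 57), (nat_lit 0), (nat_lit 0),
 (nat_lit 0), (40, 36, 69), [21, 375], 0⟩,
  mz,
  ⟨⟨-33, -68, -4, -50, 11, 80, -44, 4, -29⟩, (.cons (nat_lit 2033) (nat_lit 17357) (nat_lit 15962) (nat_lit 1)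
 (.cons (nat_lit 2136) (nat_lit 291) (nat_lit 436) (nat_lit 1) .nil)), (nat_lit 68), (nat_lit 0), (nat_lit 0),
 (nat_lit 0), (61, 58, 34), [1755, 1550], 0⟩,
  mz,
  ⟨⟨-29, -72, 20, 56, -25, -68, -38, -16, -35⟩, (.cons (nat_lit 1686) (nat_lit 27544) (nat_lit 2125) (nat_lit
 1) (.cons (nat_lit 1335) (nat_lit 1253) (nat_lit 29) (nat_lit 1) .nil)), (nat_lit 8), (nat_lit 0), (nat_lit
 0), (nat_lit 0), (27, 36, 6), [4913, 17], 0⟩,
  ⟨⟨-63, 40, 7, 10, -21, -80, 12, 60, -25⟩, (.cons (nat_lit 9466) (nat_lit 21985) (nat_lit 694) (nat_lit 1)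
 (.cons (nat_lit 1512) (nat_lit 1717) (nat_lit 2016) (nat_lit 1) .nil)), (nat_lit 58), (nat_lit 0), (nat_lit
 0), (nat_lit 0), (60, 4, 19), [11864, 897], 0⟩,
  mz,
  ⟨⟨3, -40, -76, -64, 25, 12, 26, 32, -67⟩, (.cons (nat_lit 23157) (nat_lit 644) (nat_lit 11024) (nat_lit 1)
 (.cons (nat_lit 2025) (nat_lit 1162) (nat_lit 557) (nat_lit 1) .nil)), (nat_lit 33), (nat_lit 0), (nat_lit 0),
 (nat_lit 0), (58, 17, 53), [7986, 403], 0⟩,
  mz,
  ⟨⟨17, -24, -89, 36, -55, 12, 54, 24, -53⟩, (.cons (nat_lit 24426) (nat_lit 26110) (nat_lit 8534) (nat_lit 1)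
 (.cons (nat_lit 1176) (nat_lit 135) (nat_lit 371) (nat_lit 1) .nil)), (nat_lit 70), (nat_lit 0), (nat_lit 0),
 (nat_lit 0), (5, 44, 66), [16786, 2200], 0⟩,
  ⟨⟨-23, -72, 32, -64, 25, 52, -26, -32, -41⟩, (.cons (nat_lit 7615) (nat_lit 28826) (nat_lit 1) (nat_lit 7285)
 (.cons (nat_lit 1281) (nat_lit 473) (nat_lit 232) (nat_lit 1) .nil)), (nat_lit 49), (nat_lit 0), (nat_lit 0),
 (nat_lit 0), (21, 43, 33), [25766, 269], 0⟩,
  mz,
  mz,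
  ⟨⟨75, 16, -52, 4, -55, -52, 10, 40, -59⟩, (.cons (nat_lit 20024) (nat_lit 19104) (nat_lit 11829) (nat_lit 1)
 (.cons (nat_lit 238) (nat_lit 1885) (nat_lit 1) (nat_lit 188) .nil)), (nat_lit 65), (nat_lit 0), (nat_lit 0),
 (nat_lit 0), (5, 5, 48), [13225, 1196], 0⟩,
  ⟨⟨11, -72, -36, 50, -11, 30, 44, -4, -73⟩, (.cons (nat_lit 3238) (nat_lit 29458) (nat_lit 6254) (nat_lit 1)
 (.cons (nat_lit 446) (nat_lit 942) (nat_lit 81) (nat_lit 1) .nil)), (nat_lit 64), (nat_lit 0), (nat_lit 0),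
 (nat_lit 0), (69, 49, 63), [27632, 234], 0⟩,
  ⟨⟨-39, -40, -41, -44, 55, 12, 22, 8, -77⟩, (.cons (nat_lit 21033) (nat_lit 15448) (nat_lit 23239) (nat_lit 1)
 (.cons (nat_lit 1848) (nat_lit 1228) (nat_lit 497) (nat_lit 1) .nil)), (nat_lit 19), (nat_lit 0), (nat_lit 0),
 (nat_lit 0), (46, 61, 5), [15416, 185], 0⟩,
  mz,
  ⟨⟨51, 52, -56, -44, 15, -38, 42, -24, -67⟩, (.cons (nat_lit 17195) (nat_lit 12960) (nat_lit 17069) (nat_lit
 1) (.cons (nat_lit 938) (nat_lit 561) (nat_lit 617) (nat_lit 1) .nil)), (nat_lit 5), (nat_lit 0), (nat_lit 0),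
 (nat_lit 0), (52, 15, 47), [9143, 274], 0⟩,
  ⟨⟨51, 4, -91, 10, 69, 10, 60, -12, -11⟩, (.cons (nat_lit 4848) (nat_lit 7129) (nat_lit 18195) (nat_lit 1)
 (.cons (nat_lit 600) (nat_lit 1669) (nat_lit 860) (nat_lit 1) .nil)), (nat_lit 48), (nat_lit 0), (nat_lit 0),
 (nat_lit 0), (45, 13, 7), [13451, 1495], 0⟩,
  ⟨⟨51, 4, 40, -10, -69, 20, 60, -12, -49⟩, (.cons (nat_lit 17298) (nat_lit 8027) (nat_lit 12033) (nat_lit 1)
 (.cons (nat_lit 1346) (nat_lit 972) (nat_lit 1125) (nat_lit 1) .nil)), (nat_lit 26), (nat_lit 0), (nat_lit 0),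
 (nat_lit 0), (13, 42, 32), [24084, 1802], 0⟩,
  ⟨⟨29, 72, -9, -56, 25, -12, 38, 16, -73⟩, (.cons (nat_lit 12327) (nat_lit 27753) (nat_lit 13711) (nat_lit 1)
 (.cons (nat_lit 1077) (nat_lit 1046) (nat_lit 764) (nat_lit 1) .nil)), (nat_lit 8), (nat_lit 0), (nat_lit 0),
 (nat_lit 0), (5, 54, 9), [25671, 1907], 0⟩,
  ⟨⟨65, 24, -72, -4, -55, -48, -10, 40, -49⟩, (.cons (nat_lit 19032) (nat_lit 17710) (nat_lit 19949) (nat_lit
 1) (.cons (nat_lit 608) (nat_lit 334) (nat_lit 1) (nat_lit 658) .nil)), (nat_lit 3), (nat_lit 0), (nat_lit 0),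
 (nat_lit 0), (39, 26, 65), [20169, 1807], 0⟩,
  ⟨⟨9, -76, -20, 44, 15, -82, -42, -24, -25⟩, (.cons (nat_lit 7276) (nat_lit 25852) (nat_lit 26219) (nat_lit 1)
 (.cons (nat_lit 703) (nat_lit 1413) (nat_lit 746) (nat_lit 1) .nil)), (nat_lit 67), (nat_lit 0), (nat_lit 0),
 (nat_lit 0), (1, 68, 19), [15707, 932], 0⟩,
  mz,
  ⟨⟨13, -72, 23, 70, 11, -40, 4, -44, -53⟩, (.cons (nat_lit 29390) (nat_lit 17674) (nat_lit 22518) (nat_lit 1)
 (.cons (nat_lit 1577) (nat_lit 546) (nat_lit 2004) (nat_lit 1) .nil)), (nat_lit 43), (nat_lit 0), (nat_lit 0),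
 (nat_lit 0), (14, 59, 48), [7761, 1644], 0⟩,
  ⟨⟨9, 16, 80, -10, 69, -10, 60, 12, -11⟩, (.cons (nat_lit 1581) (nat_lit 14340) (nat_lit 11590) (nat_lit 1)
 (.cons (nat_lit 2192) (nat_lit 1707) (nat_lit 1272) (nat_lit 1) .nil)), (nat_lit 47), (nat_lit 0), (nat_lit
 0), (nat_lit 0), (58, 46, 8), [4622, 2099], 0⟩,
  ⟨⟨75, -20, -32, 10, 21, -80, 12, -60, -25⟩, (.cons (nat_lit 29790) (nat_lit 20585) (nat_lit 3205) (nat_lit 1)
 (.cons (nat_lit 2208) (nat_lit 951) (nat_lit 1395) (nat_lit 1) .nil)), (nat_lit 55), (nat_lit 0), (nat_lit 0),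
 (nat_lit 0), (52, 59, 14), [2070, 106], 0⟩,
  mz,
  ⟨⟨-11, -72, -25, 50, 11, -80, -44, -4, -29⟩, (.cons (nat_lit 16664) (nat_lit 3912) (nat_lit 23348) (nat_lit
 1) (.cons (nat_lit 1072) (nat_lit 914) (nat_lit 1798) (nat_lit 1) .nil)), (nat_lit 29), (nat_lit 0), (nat_lit
 0), (nat_lit 0), (38, 8, 10), [27521, 1235], 0⟩,
  ⟨⟨-75, -20, 43, 10, -21, 70, -12, -60, -13⟩, (.cons (nat_lit 19547) (nat_lit 24171) (nat_lit 19078) (nat_lit
 1) (.cons (nat_lit 805) (nat_lit 649) (nat_lit 735) (nat_lit 1) .nil)), (nat_lit 34), (nat_lit 0), (nat_lit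
 0), (nat_lit 0), (2, 66, 6), [3010, 2165], 0⟩,
  mz,
  mz,
  mz,
  ⟨⟨11, 72, -36, -50, -11, -30, 44, 4, -73⟩, (.cons (nat_lit 3947) (nat_lit 9508) (nat_lit 29121) (nat_lit 1)
 (.cons (nat_lit 280) (nat_lit 1468) (nat_lit 1580) (nat_lit 1) .nil)), (nat_lit 29), (nat_lit 0), (nat_lit 0),
 (nat_lit 0), (4, 27, 16), [9075, 1500], 0⟩,
  mz,
  ⟨⟨-13, 72, 36, 70, 11, -30, -4, 44, -49⟩, (.cons (nat_lit 7883) (nat_lit 21737) (nat_lit 5729) (nat_lit 1)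
 (.cons (nat_lit 1466) (nat_lit 2008) (nat_lit 1762) (nat_lit 1) .nil)), (nat_lit 62), (nat_lit 0), (nat_lit
 0), (nat_lit 0), (35, 30, 49), [3753, 718], 0⟩,
  ⟨⟨75, -16, -52, 4, 55, -52, 10, -40, -59⟩, (.cons (nat_lit 29790) (nat_lit 4943) (nat_lit 3072) (nat_lit 1)
 (.cons (nat_lit 2208) (nat_lit 1084) (nat_lit 235) (nat_lit 1) .nil)), (nat_lit 65), (nat_lit 0), (nat_lit 0),
 (nat_lit 0), (51, 51, 21), [21188, 1528], 0⟩,
  mz,
  ⟨⟨-27, -68, 43, -64, 15, 2, 6, -48, -49⟩, (.cons (nat_lit 28792) (nat_lit 7297) (nat_lit 29595) (nat_lit 1)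
 (.cons (nat_lit 1528) (nat_lit 163) (nat_lit 1172) (nat_lit 1) .nil)), (nat_lit 46), (nat_lit 0), (nat_lit 0),
 (nat_lit 0), (60, 16, 34), [5977, 2160], 0⟩,
  ⟨⟨-9, -28, -76, -70, 11, 40, 4, 44, -53⟩, (.cons (nat_lit 12822) (nat_lit 17107) (nat_lit 29197) (nat_lit 1)
 (.cons (nat_lit 1513) (nat_lit 1517) (nat_lit 823) (nat_lit 1) .nil)), (nat_lit 31), (nat_lit 0), (nat_lit 0),
 (nat_lit 0), (8, 7, 28), [8812, 1282], 0⟩,
  ⟨⟨-23, 72, 32, 64, 25, -52, -26, 32, -41⟩, (.cons (nat_lit 4676) (nat_lit 8327) (nat_lit 17468) (nat_lit 1)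
 (.cons (nat_lit 333) (nat_lit 1564) (nat_lit 1370) (nat_lit 1) .nil)), (nat_lit 18), (nat_lit 0), (nat_lit 0),
 (nat_lit 0), (27, 36, 12), [3590, 685], 0⟩,
  ⟨⟨17, 24, 72, 36, 55, -48, 54, -24, -1⟩, (.cons (nat_lit 29790) (nat_lit 16916) (nat_lit 5835) (nat_lit 1)
 (.cons (nat_lit 2208) (nat_lit 1122) (nat_lit 1556) (nat_lit 1) .nil)), (nat_lit 70), (nat_lit 0), (nat_lit
 0), (nat_lit 0), (30, 51, 41), [10291, 526], 0⟩]

/-- Moves. -/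
noncomputable def t4_19 : List Mv := [
  mz,
  ⟨⟨-75, 20, 43, -10, -21, -70, -12, 60, -13⟩, (.cons (nat_lit 27719) (nat_lit 10310) (nat_lit 23255) (nat_lit
 1) (.cons (nat_lit 337) (nat_lit 304) (nat_lit 1415) (nat_lit 1) .nil)), (nat_lit 55), (nat_lit 0), (nat_lit
 0), (nat_lit 0), (51, 21, 11), [15397, 98], 0⟩,
  mz,
  ⟨⟨-75, -16, 23, -4, 55, -48, -10, -40, -49⟩, (.cons (nat_lit 15816) (nat_lit 23832) (nat_lit 1326) (nat_lit
 1) (.cons (nat_lit 565) (nat_lit 661) (nat_lit 2162) (nat_lit 1) .nil)), (nat_lit 65), (nat_lit 0), (nat_lit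
 0), (nat_lit 0), (1, 1, 38), [12571, 1528], 0⟩,
  ⟨⟨27, 68, 16, 64, -15, -62, -6, 48, -43⟩, (.cons (nat_lit 4733) (nat_lit 18083) (nat_lit 15494) (nat_lit 1)
 (.cons (nat_lit 973) (nat_lit 1402) (nat_lit 1576) (nat_lit 1) .nil)), (nat_lit 46), (nat_lit 0), (nat_lit 0),
 (nat_lit 0), (60, 16, 34), [12540, 1174], 0⟩,
  ⟨⟨27, -68, 16, 64, 15, -62, -6, -48, -43⟩, (.cons (nat_lit 14387) (nat_lit 6349) (nat_lit 25301) (nat_lit 1)
 (.cons (nat_lit 869) (nat_lit 680) (nat_lit 614) (nat_lit 1) .nil)), (nat_lit 46), (nat_lit 0), (nat_lit 0),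
 (nat_lit 0), (7, 35, 30), [24038, 1502], 0⟩,
  mz,
  ⟨⟨-29, 72, 20, 56, 25, -68, -38, 16, -35⟩, (.cons (nat_lit 6102) (nat_lit 2069) (nat_lit 813) (nat_lit 1)
 (.cons (nat_lit 756) (nat_lit 294) (nat_lit 693) (nat_lit 1) .nil)), (nat_lit 8), (nat_lit 0), (nat_lit 0),
 (nat_lit 0), (33, 44, 31), [19400, 1719], 0⟩,
  ⟨⟨23, -72, 9, -64, -25, 12, 26, -32, -67⟩, (.cons (nat_lit 18149) (nat_lit 19602) (nat_lit 283) (nat_lit 1)
 (.cons (nat_lit 841) (nat_lit 907) (nat_lit 1500) (nat_lit 1) .nil)), (nat_lit 18), (nat_lit 0), (nat_lit 0),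
 (nat_lit 0), (60, 9, 3), [11391, 1929], 0⟩,
  mz,
  mz,
  ⟨⟨-27, 68, 43, 64, 15, -2, 6, 48, -49⟩, (.cons (nat_lit 909) (nat_lit 9308) (nat_lit 5792) (nat_lit 1) (.cons
 (nat_lit 1835) (nat_lit 1722) (nat_lit 1185) (nat_lit 1) .nil)), (nat_lit 15), (nat_lit 0), (nat_lit 0),
 (nat_lit 0), (42, 3, 38), [13718, 1167], 0⟩,
  ⟨⟨9, 76, -20, -44, 15, 82, -42, 24, -25⟩, (.cons (nat_lit 11597) (nat_lit 10279) (nat_lit 12078) (nat_lit 1)
 (.cons (nat_lit 446) (nat_lit 1254) (nat_lit 146) (nat_lit 1) .nil)), (nat_lit 11), (nat_lit 0), (nat_lit 0),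
 (nat_lit 0), (31, 22, 21), [23201, 468], 0⟩,
  mz,
  mz,
  ⟨⟨-9, 76, -11, 44, 15, 38, 42, 24, -67⟩, (.cons (nat_lit 9111) (nat_lit 9789) (nat_lit 18740) (nat_lit 1)
 (.cons (nat_lit 1199) (nat_lit 737) (nat_lit 1781) (nat_lit 1) .nil)), (nat_lit 11), (nat_lit 0), (nat_lit 0),
 (nat_lit 0), (25, 4, 49), [20201, 92], 0⟩,
  ⟨⟨17, 24, -89, -36, -55, -12, 54, -24, -53⟩, (.cons (nat_lit 29) (nat_lit 11676) (nat_lit 7704) (nat_lit 1)
 (.cons (nat_lit 2116) (nat_lit 1059) (nat_lit 537) (nat_lit 1) .nil)), (nat_lit 22), (nat_lit 0), (nat_lit 0),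
 (nat_lit 0), (7, 52, 64), [18336, 367], 0⟩,
  mz,
  ⟨⟨9, 56, -64, -56, -25, -12, 38, -16, -73⟩, (.cons (nat_lit 26543) (nat_lit 11792) (nat_lit 1340) (nat_lit 1)
 (.cons (nat_lit 1711) (nat_lit 2037) (nat_lit 18) (nat_lit 1) .nil)), (nat_lit 39), (nat_lit 0), (nat_lit 0),
 (nat_lit 0), (56, 46, 55), [13682, 1098], 0⟩,
  ⟨⟨-61, -48, 25, -44, 55, 32, -22, -8, -55⟩, (.cons (nat_lit 432) (nat_lit 29439) (nat_lit 319) (nat_lit 1)
 (.cons (nat_lit 257) (nat_lit 291) (nat_lit 393) (nat_lit 1) .nil)), (nat_lit 44), (nat_lit 0), (nat_lit 0),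
 (nat_lit 0), (9, 3, 37), [19132, 1086], 0⟩,
  mz,
  mz,
  ⟨⟨17, -24, 72, -36, 55, 48, 54, 24, -1⟩, (.cons (nat_lit 29790) (nat_lit 24561) (nat_lit 21750) (nat_lit 1)
 (.cons (nat_lit 2208) (nat_lit 2046) (nat_lit 967) (nat_lit 1) .nil)), (nat_lit 22), (nat_lit 0), (nat_lit 0),
 (nat_lit 0), (28, 66, 43), [2044, 1983], 0⟩,
  ⟨⟨-61, 48, 25, 44, 55, -32, -22, 8, -55⟩, (.cons (nat_lit 23227) (nat_lit 6955) (nat_lit 8919) (nat_lit 1)
 (.cons (nat_lit 2083) (nat_lit 1874) (nat_lit 2135) (nat_lit 1) .nil)), (nat_lit 24), (nat_lit 0), (nat_lit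
 0), (nat_lit 0), (13, 43, 14), [5675, 373], 0⟩,
  ⟨⟨61, -48, -36, 44, 55, -12, 22, -8, -77⟩, (.cons (nat_lit 1616) (nat_lit 25942) (nat_lit 29767) (nat_lit 1)
 (.cons (nat_lit 589) (nat_lit 103) (nat_lit 547) (nat_lit 1) .nil)), (nat_lit 44), (nat_lit 0), (nat_lit 0),
 (nat_lit 0), (26, 56, 28), [9104, 2073], 0⟩,
  mz,
  ⟨⟨51, -4, 40, 10, -69, -20, 60, 12, -49⟩, (.cons (nat_lit 19009) (nat_lit 4259) (nat_lit 1) (nat_lit 14415)
 (.cons (nat_lit 622) (nat_lit 682) (nat_lit 503) (nat_lit 1) .nil)), (nat_lit 48), (nat_lit 0), (nat_lit 0),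
 (nat_lit 0), (60, 41, 33), [29156, 150], 0⟩,
  mz,
  mz,
  ⟨⟨-13, -72, 36, 70, -11, -30, -4, -44, -49⟩, (.cons (nat_lit 3872) (nat_lit 6700) (nat_lit 2423) (nat_lit 1)
 (.cons (nat_lit 2138) (nat_lit 405) (nat_lit 1730) (nat_lit 1) .nil)), (nat_lit 62), (nat_lit 0), (nat_lit 0),
 (nat_lit 0), (29, 35, 69), [517, 93], 0⟩,
  mz,
  ⟨⟨-11, 72, -25, 50, -11, -80, -44, 4, -29⟩, (.cons (nat_lit 25776) (nat_lit 5978) (nat_lit 2226) (nat_lit 1)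
 (.cons (nat_lit 1553) (nat_lit 434) (nat_lit 911) (nat_lit 1) .nil)), (nat_lit 29), (nat_lit 0), (nat_lit 0),
 (nat_lit 0), (44, 13, 34), [5631, 231], 0⟩,
  mz,
  ⟨⟨-29, -72, 20, -56, 25, 68, -38, -16, -35⟩, (.cons (nat_lit 7391) (nat_lit 6756) (nat_lit 1) (nat_lit 4092)
 (.cons (nat_lit 12) (nat_lit 1519) (nat_lit 2152) (nat_lit 1) .nil)), (nat_lit 36), (nat_lit 0), (nat_lit 0),
 (nat_lit 0), (27, 35, 6), [13503, 598], 0⟩,
  ⟨⟨75, 20, -32, 10, -21, -80, 12, 60, -25⟩, (.cons (nat_lit 23236) (nat_lit 25293) (nat_lit 26433) (nat_lit 1)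
 (.cons (nat_lit 838) (nat_lit 1338) (nat_lit 512) (nat_lit 1) .nil)), (nat_lit 55), (nat_lit 0), (nat_lit 0),
 (nat_lit 0), (30, 4, 19), [23505, 850], 0⟩,
  mz,
  ⟨⟨3, -40, -76, 64, -25, -12, 26, 32, -67⟩, (.cons (nat_lit 25396) (nat_lit 12853) (nat_lit 29164) (nat_lit 1)
 (.cons (nat_lit 2134) (nat_lit 98) (nat_lit 871) (nat_lit 1) .nil)), (nat_lit 7), (nat_lit 0), (nat_lit 0),
 (nat_lit 0), (58, 54, 53), [3080, 2038], 0⟩,
  mz,
  ⟨⟨17, -24, -89, -36, 55, -12, 54, 24, -53⟩, (.cons (nat_lit 17098) (nat_lit 21403) (nat_lit 3033) (nat_lit 1)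
 (.cons (nat_lit 1210) (nat_lit 933) (nat_lit 39) (nat_lit 1) .nil)), (nat_lit 22), (nat_lit 0), (nat_lit 0),
 (nat_lit 0), (5, 27, 66), [1699, 812], 0⟩,
  ⟨⟨-23, -72, 32, 64, -25, -52, -26, -32, -41⟩, (.cons (nat_lit 26700) (nat_lit 14679) (nat_lit 991) (nat_lit
 1) (.cons (nat_lit 1415) (nat_lit 390) (nat_lit 1038) (nat_lit 1) .nil)), (nat_lit 18), (nat_lit 0), (nat_lit
 0), (nat_lit 0), (21, 28, 33), [15864, 2070], 0⟩,
  mz,
  mz,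
  ⟨⟨75, 16, -52, 4, -55, -52, 10, 40, -59⟩, (.cons (nat_lit 20024) (nat_lit 19104) (nat_lit 11829) (nat_lit 1)
 (.cons (nat_lit 238) (nat_lit 1885) (nat_lit 1) (nat_lit 188) .nil)), (nat_lit 65), (nat_lit 0), (nat_lit 0),
 (nat_lit 0), (5, 5, 48), [13225, 1196], 0⟩,
  ⟨⟨33, 68, -37, -50, 11, -30, 44, -4, -73⟩, (.cons (nat_lit 1783) (nat_lit 6136) (nat_lit 8674) (nat_lit 1)
 (.cons (nat_lit 367) (nat_lit 637) (nat_lit 129) (nat_lit 1) .nil)), (nat_lit 53), (nat_lit 0), (nat_lit 0),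
 (nat_lit 0), (65, 22, 63), [3529, 765], 0⟩,
  ⟨⟨-39, -40, -41, -44, 55, 12, 22, 8, -77⟩, (.cons (nat_lit 21033) (nat_lit 15448) (nat_lit 23239) (nat_lit 1)
 (.cons (nat_lit 1848) (nat_lit 1228) (nat_lit 497) (nat_lit 1) .nil)), (nat_lit 19), (nat_lit 0), (nat_lit 0),
 (nat_lit 0), (46, 61, 5), [15416, 185], 0⟩,
  mz,
  ⟨⟨-9, -76, -11, -44, 15, -38, 42, -24, -67⟩, (.cons (nat_lit 17475) (nat_lit 20196) (nat_lit 28926) (nat_lit
 1) (.cons (nat_lit 519) (nat_lit 1554) (nat_lit 1416) (nat_lit 1) .nil)), (nat_lit 67), (nat_lit 0), (nat_lit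
 0), (nat_lit 0), (66, 15, 47), [8349, 86], 0⟩,
  ⟨⟨51, 4, -91, 10, 69, 10, 60, -12, -11⟩, (.cons (nat_lit 4848) (nat_lit 7129) (nat_lit 18195) (nat_lit 1)
 (.cons (nat_lit 600) (nat_lit 1669) (nat_lit 860) (nat_lit 1) .nil)), (nat_lit 48), (nat_lit 0), (nat_lit 0),
 (nat_lit 0), (45, 13, 7), [13451, 1495], 0⟩,
  ⟨⟨9, -16, -89, -10, -69, 20, 60, -12, -49⟩, (.cons (nat_lit 11018) (nat_lit 11545) (nat_lit 20920) (nat_lit
 1) (.cons (nat_lit 1145) (nat_lit 1989) (nat_lit 514) (nat_lit 1) .nil)), (nat_lit 47), (nat_lit 0), (nat_lit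
 0), (nat_lit 0), (19, 42, 32), [14178, 1473], 0⟩,
  ⟨⟨9, -56, -64, -56, 25, -12, 38, 16, -73⟩, (.cons (nat_lit 20305) (nat_lit 8333) (nat_lit 8728) (nat_lit 1)
 (.cons (nat_lit 1602) (nat_lit 2150) (nat_lit 1657) (nat_lit 1) .nil)), (nat_lit 39), (nat_lit 0), (nat_lit
 0), (nat_lit 0), (4, 54, 9), [4359, 1578], 0⟩,
  ⟨⟨65, 24, -72, -4, -55, -48, -10, 40, -49⟩, (.cons (nat_lit 19032) (nat_lit 17710) (nat_lit 19949) (nat_lit
 1) (.cons (nat_lit 608) (nat_lit 334) (nat_lit 1) (nat_lit 658) .nil)), (nat_lit 3), (nat_lit 0), (nat_lit 0),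
 (nat_lit 0), (39, 26, 65), [20169, 1807], 0⟩,
  ⟨⟨9, -76, -20, 44, 15, -82, -42, -24, -25⟩, (.cons (nat_lit 7276) (nat_lit 25852) (nat_lit 26219) (nat_lit 1)
 (.cons (nat_lit 703) (nat_lit 1413) (nat_lit 746) (nat_lit 1) .nil)), (nat_lit 67), (nat_lit 0), (nat_lit 0),
 (nat_lit 0), (1, 68, 19), [15707, 932], 0⟩,
  mz,
  ⟨⟨13, -72, 23, 70, 11, -40, 4, -44, -53⟩, (.cons (nat_lit 29390) (nat_lit 17674) (nat_lit 22518) (nat_lit 1)
 (.cons (nat_lit 1577) (nat_lit 546) (nat_lit 2004) (nat_lit 1) .nil)), (nat_lit 43), (nat_lit 0), (nat_lit 0),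
 (nat_lit 0), (14, 59, 48), [7761, 1644], 0⟩,
  ⟨⟨9, 16, 80, -10, 69, -10, 60, 12, -11⟩, (.cons (nat_lit 1581) (nat_lit 14340) (nat_lit 11590) (nat_lit 1)
 (.cons (nat_lit 2192) (nat_lit 1707) (nat_lit 1272) (nat_lit 1) .nil)), (nat_lit 47), (nat_lit 0), (nat_lit
 0), (nat_lit 0), (58, 46, 8), [4622, 2099], 0⟩,
  ⟨⟨75, -20, -32, -10, -21, 80, 12, -60, -25⟩, (.cons (nat_lit 29182) (nat_lit 1490) (nat_lit 10557) (nat_lit
 1) (.cons (nat_lit 746) (nat_lit 320) (nat_lit 205) (nat_lit 1) .nil)), (nat_lit 34), (nat_lit 0), (nat_lit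
 0), (nat_lit 0), (52, 12, 14), [26112, 1131], 0⟩,
  mz,
  ⟨⟨-33, 68, -4, -50, -11, 80, -44, -4, -29⟩, (.cons (nat_lit 3004) (nat_lit 27763) (nat_lit 16221) (nat_lit 1)
 (.cons (nat_lit 1903) (nat_lit 1596) (nat_lit 530) (nat_lit 1) .nil)), (nat_lit 68), (nat_lit 0), (nat_lit 0),
 (nat_lit 0), (43, 63, 10), [10096, 1033], 0⟩,
  ⟨⟨-75, -20, 43, -10, 21, -70, -12, -60, -13⟩, (.cons (nat_lit 27980) (nat_lit 24448) (nat_lit 4706) (nat_lit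
 1) (.cons (nat_lit 1787) (nat_lit 1844) (nat_lit 1190) (nat_lit 1) .nil)), (nat_lit 55), (nat_lit 0), (nat_lit
 0), (nat_lit 0), (2, 5, 6), [126, 2174], 0⟩,
  mz,
  mz,
  mz,
  ⟨⟨33, -68, -37, -50, -11, -30, 44, 4, -73⟩, (.cons (nat_lit 28226) (nat_lit 20949) (nat_lit 9460) (nat_lit 1)
 (.cons (nat_lit 1224) (nat_lit 1822) (nat_lit 875) (nat_lit 1) .nil)), (nat_lit 53), (nat_lit 0), (nat_lit 0),
 (nat_lit 0), (12, 27, 16), [19710, 372], 0⟩,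
  mz,
  ⟨⟨-13, 72, 36, -70, -11, 30, -4, 44, -49⟩, (.cons (nat_lit 12761) (nat_lit 19091) (nat_lit 2795) (nat_lit 1)
 (.cons (nat_lit 421) (nat_lit 1038) (nat_lit 1243) (nat_lit 1) .nil)), (nat_lit 43), (nat_lit 0), (nat_lit 0),
 (nat_lit 0), (35, 41, 49), [9515, 419], 0⟩,
  ⟨⟨75, -16, -52, 4, 55, -52, 10, -40, -59⟩, (.cons (nat_lit 29790) (nat_lit 4943) (nat_lit 3072) (nat_lit 1)
 (.cons (nat_lit 2208) (nat_lit 1084) (nat_lit 235) (nat_lit 1) .nil)), (nat_lit 65), (nat_lit 0), (nat_lit 0),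
 (nat_lit 0), (51, 51, 21), [21188, 1528], 0⟩,
  mz,
  ⟨⟨33, 20, -92, 64, -15, -2, 6, -48, -49⟩, (.cons (nat_lit 3568) (nat_lit 29056) (nat_lit 24554) (nat_lit 1)
 (.cons (nat_lit 151) (nat_lit 968) (nat_lit 924) (nat_lit 1) .nil)), (nat_lit 12), (nat_lit 0), (nat_lit 0),
 (nat_lit 0), (45, 55, 34), [24789, 1545], 0⟩,
  ⟨⟨13, 72, 23, 70, -11, -40, 4, 44, -53⟩, (.cons (nat_lit 26768) (nat_lit 28362) (nat_lit 4423) (nat_lit 1)
 (.cons (nat_lit 237) (nat_lit 4) (nat_lit 2141) (nat_lit 1) .nil)), (nat_lit 43), (nat_lit 0), (nat_lit 0),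
 (nat_lit 0), (20, 64, 28), [5228, 795], 0⟩,
  ⟨⟨-3, -40, -73, -64, -25, 52, -26, 32, -41⟩, (.cons (nat_lit 10777) (nat_lit 27643) (nat_lit 3041) (nat_lit
 1) (.cons (nat_lit 733) (nat_lit 1179) (nat_lit 821) (nat_lit 1) .nil)), (nat_lit 7), (nat_lit 0), (nat_lit
 0), (nat_lit 0), (56, 35, 12), [10932, 346], 0⟩,
  ⟨⟨37, -48, -73, 36, 55, -48, 54, -24, -1⟩, (.cons (nat_lit 14554) (nat_lit 9056) (nat_lit 24634) (nat_lit 1)
 (.cons (nat_lit 1035) (nat_lit 1651) (nat_lit 381) (nat_lit 1) .nil)), (nat_lit 38), (nat_lit 0), (nat_lit 0),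
 (nat_lit 0), (11, 51, 41), [19999, 949], 0⟩]

/-- All the moves. -/
noncomputable def tabs : List (List (List Mv)) := [[[], t0_1, [], [], t0_4, [], t0_6, [], t0_8, [], [], [], [],
 [], [], [], [], [], [], t0_19], [[], t1_1, [], [], t1_4, [], t1_6, [], t1_8, [], [], [], [], [], [], [], [],
 [], [], t1_19], [], [], [[], t4_1, [], [], t4_4, [], t4_6, [], t4_8, [], [], [], [], [], [], [], [], [], [],
 t4_19]]

/-- Subtrie. -/
noncomputable def T1 : Tr := (.ev (nat_lit 20) (nat_lit 337133628057542789522) (.nd (nat_lit 33) (.br (nat_lit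
 25) (.br (nat_lit 14) (.br (nat_lit 5) (.br (nat_lit 2) (.ch (nat_lit 1) (.ev (nat_lit 52) (nat_lit
 756334675627660808232) (.ev (nat_lit 84) (nat_lit 32768) (.ev (nat_lit 116) (nat_lit 1143492092887040) (.ev
 (nat_lit 180) (nat_lit 17179869184) (.ev (nat_lit 244) (nat_lit 4194304) (.nd (nat_lit 800) (.br (nat_lit 16)
 (.br (nat_lit 13) (.br (nat_lit 4) (.ch (nat_lit 0) (.ev (nat_lit 816) (nat_lit 1180591620788345896960) .dd))
 (.ch (nat_lit 4) (.ev (nat_lit 816) (nat_lit 1180591620717478412288) (.ev (nat_lit 1024) (nat_lit 2147483648)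
 (.fin (nat_lit 576474496213926468)))))) (.br (nat_lit 15) (.ch (nat_lit 13) (.ev (nat_lit 816) (nat_lit
 1180591620719626420224) (.ev (nat_lit 829) (nat_lit 68719476736) .dd))) (.ch (nat_lit 15) (.ev (nat_lit 816)
 (nat_lit 1180591620788278788096) (.ev (nat_lit 829) (nat_lit 67108864) .dd))))) (.br (nat_lit 21) (.br
 (nat_lit 19) (.ch (nat_lit 16) (.ev (nat_lit 816) (nat_lit 1180591620717411827712) (.ev (nat_lit 1012)
 (nat_lit 68719476736) (.ev (nat_lit 1024) (nat_lit 67108864) (.ev (nat_lit 1037) (nat_lit 2147483648) .dd)))))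
 (.ch (nat_lit 19) (.ev (nat_lit 816) (nat_lit 68787109888) (.ev (nat_lit 916) (nat_lit 2147483648) (.ev
 (nat_lit 925) (nat_lit 1180591620717411303424) .dd))))) (.br (nat_lit 23) (.ch (nat_lit 21) (.ev (nat_lit 816)
 (nat_lit 1180591620786198413312) (.ev (nat_lit 829) (nat_lit 2147483648) .dd))) (.br (nat_lit 28) (.ch
 (nat_lit 23) (.ev (nat_lit 816) (nat_lit 70934593536) (.ev (nat_lit 829) (nat_lit 1180591620717411303424)
 .dd))) (.ch (nat_lit 28) (.ev (nat_lit 816) (nat_lit 70934069248) (.ev (nat_lit 916) (nat_lit 524288) (.ev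
 (nat_lit 925) (nat_lit 1180591620717411303424) .dd))))))))))))))) (.br (nat_lit 3) (.ch (nat_lit 2) (.ev
 (nat_lit 52) (nat_lit 608761695074496811008) (.ev (nat_lit 84) (nat_lit 2147483648) (.ev (nat_lit 116)
 (nat_lit 30786325577728) (.ev (nat_lit 180) (nat_lit 541065216) (.ev (nat_lit 244) (nat_lit 140737488355328)
 (.nd (nat_lit 800) (.br (nat_lit 9) (.br (nat_lit 4) (.br (nat_lit 1) (.ch (nat_lit 0) (.ev (nat_lit 816)
 (nat_lit 1328165573324284395560) .dd)) (.ch (nat_lit 1) (.ev (nat_lit 816) (nat_lit 1328165573324284395560)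
 .dd))) (.br (nat_lit 7) (.ch (nat_lit 4) (.ev (nat_lit 816) (nat_lit 1180591620734591205416) (.ev (nat_lit
 916) (nat_lit 16777216) (.ev (nat_lit 925) (nat_lit 147573952589676412928) .dd)))) (.br (nat_lit 8) (.ch
 (nat_lit 7) (.ev (nat_lit 816) (nat_lit 1328165573324284362792) (.ev (nat_lit 829) (nat_lit 32768) .dd))) (.ch
 (nat_lit 8) (.ev (nat_lit 816) (nat_lit 1180591620734591205384) (.ev (nat_lit 1012) (nat_lit 16777216) (.ev
 (nat_lit 1280) (nat_lit 32) (.ev (nat_lit 1293) (nat_lit 147573952589676412928) .dd)))))))) (.br (nat_lit 21)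
 (.br (nat_lit 13) (.ch (nat_lit 9) (.ev (nat_lit 816) (nat_lit 1328165573307104526376) (.ev (nat_lit 829)
 (nat_lit 17179869184) .dd))) (.br (nat_lit 20) (.ch (nat_lit 13) (.ev (nat_lit 816) (nat_lit
 1328165573324284395528) (.ev (nat_lit 829) (nat_lit 32) .dd))) (.ch (nat_lit 20) (.ev (nat_lit 816) (nat_lit
 1328165573324267585544) (.ev (nat_lit 848) (nat_lit 16777216) (.ev (nat_lit 880) (nat_lit 32768) (.ev (nat_lit
 893) (nat_lit 32) .dd))))))) (.br (nat_lit 28) (.ch (nat_lit 21) (.ev (nat_lit 816) (nat_lit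
 1328165573307104493608) (.ev (nat_lit 1012) (nat_lit 32768) (.ev (nat_lit 1021) (nat_lit 17179869184) .dd))))
 (.br (nat_lit 29) (.ch (nat_lit 28) (.ev (nat_lit 816) (nat_lit 147573952606873092096) (.ev (nat_lit 1296)
 (nat_lit 32) (.fin (nat_lit 576462401569243712))))) (.ch (nat_lit 29) (.ev (nat_lit 816) (nat_lit
 1328165573307104526376) (.ev (nat_lit 829) (nat_lit 17179869184) .dd)))))))))))))) (.ch (nat_lit 3) (.ev
 (nat_lit 52) (nat_lit 147593102029934854152) (.ev (nat_lit 84) (nat_lit 140737488617472) (.ev (nat_lit 116)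
 (nat_lit 1180591620734591176704) (.ev (nat_lit 148) (nat_lit 32) (.ev (nat_lit 180) (nat_lit
 590295810358705651712) (.ev (nat_lit 212) (nat_lit 4398583382016) (.ev (nat_lit 576) (nat_lit
 18446744073709551616) (.nd (nat_lit 800) (.br (nat_lit 13) (.br (nat_lit 7) (.br (nat_lit 1) (.ch (nat_lit 0)
 (.ev (nat_lit 816) (nat_lit 17592203345920) (.ev (nat_lit 829) (nat_lit 67108864) .dd))) (.br (nat_lit 4) (.ch
 (nat_lit 1) (.ev (nat_lit 816) (nat_lit 17592270454784) .dd)) (.ch (nat_lit 4) (.ev (nat_lit 816) (nat_lit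
 17592270454784) .dd)))) (.br (nat_lit 8) (.ch (nat_lit 7) (.ev (nat_lit 816) (nat_lit 17592186568704) (.ev
 (nat_lit 916) (nat_lit 67108864) (.ev (nat_lit 925) (nat_lit 16777216) .dd)))) (.br (nat_lit 11) (.ch (nat_lit
 8) (.ev (nat_lit 816) (nat_lit 17592253153280) (.ev (nat_lit 1012) (nat_lit 16777216) (.ev (nat_lit 1021)
 (nat_lit 524288) .dd)))) (.ch (nat_lit 11) (.ev (nat_lit 816) (nat_lit 84410368) (.ev (nat_lit 829) (nat_lit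
 17592186044416) .dd)))))) (.br (nat_lit 23) (.br (nat_lit 19) (.ch (nat_lit 13) (.ev (nat_lit 816) (nat_lit
 17592270454784) .dd)) (.br (nat_lit 20) (.ch (nat_lit 19) (.ev (nat_lit 816) (nat_lit 17592270454784) .dd))
 (.ch (nat_lit 20) (.ev (nat_lit 816) (nat_lit 17592270454784) .dd)))) (.br (nat_lit 28) (.br (nat_lit 26) (.ch
 (nat_lit 23) (.ev (nat_lit 816) (nat_lit 84410368) (.ev (nat_lit 829) (nat_lit 17592186044416) .dd))) (.ch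
 (nat_lit 26) (.ev (nat_lit 816) (nat_lit 17592270454784) .dd))) (.br (nat_lit 29) (.ch (nat_lit 28) (.ev
 (nat_lit 816) (nat_lit 17592269930496) (.ev (nat_lit 829) (nat_lit 524288) .dd))) (.ch (nat_lit 29) (.ev
 (nat_lit 816) (nat_lit 16777216) (.ev (nat_lit 960) (nat_lit 67108864) (.fin (nat_lit
 576461302086976042)))))))))))))))))))) (.br (nat_lit 11) (.br (nat_lit 9) (.ch (nat_lit 5) (.ev (nat_lit 52)
 (nat_lit 166020701063668305928) (.ev (nat_lit 84) (nat_lit 1143492092887040) (.ev (nat_lit 116) (nat_lit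
 140738025226240) (.ev (nat_lit 148) (nat_lit 274877906976) (.ev (nat_lit 180) (nat_lit 1180591620717411303424)
 (.ev (nat_lit 212) (nat_lit 17179869184) (.ev (nat_lit 608) (nat_lit 18014398509481984) (.nd (nat_lit 800)
 (.br (nat_lit 21) (.br (nat_lit 11) (.ch (nat_lit 1) (.ev (nat_lit 816) (nat_lit 557056) (.ev (nat_lit 1136)
 (nat_lit 590295810427425128448) (.ev (nat_lit 1149) (nat_lit 8796093022208) .dd)))) (.br (nat_lit 13) (.ch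
 (nat_lit 11) (.ev (nat_lit 816) (nat_lit 590295810427425128448) (.ev (nat_lit 1072) (nat_lit 32768) (.fin
 (nat_lit 576479993747948112))))) (.ch (nat_lit 13) (.ev (nat_lit 816) (nat_lit 8796093579264) (.ev (nat_lit
 1012) (nat_lit 68719476736) (.ev (nat_lit 1021) (nat_lit 590295810358705651712) .dd)))))) (.br (nat_lit 25)
 (.br (nat_lit 23) (.ch (nat_lit 21) (.ev (nat_lit 816) (nat_lit 590295819223518150656) (.ev (nat_lit 916)
 (nat_lit 524288) (.ev (nat_lit 925) (nat_lit 32768) .dd)))) (.ch (nat_lit 23) (.ev (nat_lit 816) (nat_lit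
 590295819223518674944) (.ev (nat_lit 829) (nat_lit 32768) .dd)))) (.br (nat_lit 26) (.ch (nat_lit 25) (.ev
 (nat_lit 816) (nat_lit 590295819223518674944) (.ev (nat_lit 829) (nat_lit 32768) .dd))) (.ch (nat_lit 26) (.ev
 (nat_lit 816) (nat_lit 8796093579264) (.ev (nat_lit 1012) (nat_lit 68719476736) (.ev (nat_lit 1021) (nat_lit
 590295810358705651712) .dd)))))))))))))))) (.ch (nat_lit 9) (.ev (nat_lit 52) (nat_lit 18447887566427918368)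
 (.ev (nat_lit 84) (nat_lit 147573952864554614784) (.ev (nat_lit 180) (nat_lit 1180591620786130780160) (.nd
 (nat_lit 800) (.br (nat_lit 15) (.br (nat_lit 7) (.br (nat_lit 1) (.ch (nat_lit 0) (.ev (nat_lit 816) (nat_lit
 153950955241480) (.ev (nat_lit 916) (nat_lit 590295810358705651712) (.ev (nat_lit 925) (nat_lit
 18014398509481984) .dd)))) (.br (nat_lit 4) (.ch (nat_lit 1) (.ev (nat_lit 816) (nat_lit
 590295964309660893192) (.ev (nat_lit 829) (nat_lit 18014398509481984) .dd))) (.ch (nat_lit 4) (.ev (nat_lit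
 816) (nat_lit 590295823570025054216) (.ev (nat_lit 916) (nat_lit 140737488355328) (.ev (nat_lit 1012) (nat_lit
 2147483648) (.ev (nat_lit 1021) (nat_lit 18014398509481984) .dd))))))) (.br (nat_lit 8) (.ch (nat_lit 7) (.ev
 (nat_lit 816) (nat_lit 18159553371701256) (.ev (nat_lit 916) (nat_lit 8796093022208) (.ev (nat_lit 925)
 (nat_lit 590295810358705651712) .dd)))) (.br (nat_lit 13) (.ch (nat_lit 8) (.ev (nat_lit 816) (nat_lit
 590313969912077352968) (.ev (nat_lit 829) (nat_lit 8796093022208) .dd))) (.ch (nat_lit 13) (.ev (nat_lit 816)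
 (nat_lit 590295823570025054208) (.ev (nat_lit 916) (nat_lit 2147483648) (.ev (nat_lit 992) (nat_lit
 18014398509481984) (.ev (nat_lit 1012) (nat_lit 140737488355328) (.ev (nat_lit 1021) (nat_lit 8) .dd)))))))))
 (.br (nat_lit 21) (.br (nat_lit 18) (.ch (nat_lit 15) (.ev (nat_lit 816) (nat_lit 590295959894434512896) (.ev
 (nat_lit 916) (nat_lit 8) (.ev (nat_lit 1012) (nat_lit 18014398509481984) (.ev (nat_lit 1024) (nat_lit
 4415226380288) .dd))))) (.br (nat_lit 20) (.ch (nat_lit 18) (.ev (nat_lit 816) (nat_lit 18155155325190152)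
 (.ev (nat_lit 916) (nat_lit 590295810358705651712) (.ev (nat_lit 1104) (nat_lit 8796093022208) (.ev (nat_lit
 1117) (nat_lit 4398046511104) .dd))))) (.ch (nat_lit 20) (.ev (nat_lit 816) (nat_lit 590295823572172537864)
 (.ev (nat_lit 916) (nat_lit 18014398509481984) (.ev (nat_lit 925) (nat_lit 140737488355328) .dd)))))) (.br
 (nat_lit 26) (.br (nat_lit 25) (.ch (nat_lit 21) (.ev (nat_lit 816) (nat_lit 590295964292481024008) (.ev
 (nat_lit 960) (nat_lit 18014398509481984) (.ev (nat_lit 973) (nat_lit 17179869184) .dd)))) (.ch (nat_lit 25)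
 (.ev (nat_lit 816) (nat_lit 590313978708170375168) (.ev (nat_lit 829) (nat_lit 8) .dd)))) (.br (nat_lit 29)
 (.ch (nat_lit 26) (.ev (nat_lit 816) (nat_lit 590313978708170375176) .dd)) (.ch (nat_lit 29) (.ev (nat_lit
 816) (nat_lit 590313974290796511240) (.ev (nat_lit 916) (nat_lit 2147483648) (.ev (nat_lit 928) (nat_lit
 17179869184) (.ev (nat_lit 941) (nat_lit 4398046511104) .dd))))))))))))))) (.br (nat_lit 12) (.ch (nat_lit 11)
 (.ev (nat_lit 52) (nat_lit 756335805942777511936) (.ev (nat_lit 84) (nat_lit 262144) (.ev (nat_lit 116)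
 (nat_lit 16777216) (.ev (nat_lit 148) (nat_lit 4096) (.ev (nat_lit 180) (nat_lit 68719476736) (.ev (nat_lit
 212) (nat_lit 4398046511104) (.nd (nat_lit 800) (.br (nat_lit 15) (.br (nat_lit 8) (.br (nat_lit 4) (.ch
 (nat_lit 1) (.ev (nat_lit 816) (nat_lit 1180591620719630123048) (.ev (nat_lit 829) (nat_lit 8796093022208)
 .dd))) (.br (nat_lit 7) (.ch (nat_lit 4) (.ev (nat_lit 816) (nat_lit 8798311841824) (.ev (nat_lit 916)
 (nat_lit 8) (.ev (nat_lit 925) (nat_lit 1180591620717411303424) .dd)))) (.ch (nat_lit 7) (.ev (nat_lit 816)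
 (nat_lit 1180591620719558819848) (.ev (nat_lit 916) (nat_lit 67108864) (.ev (nat_lit 992) (nat_lit
 8796093022208) (.ev (nat_lit 1012) (nat_lit 4194304) (.ev (nat_lit 1021) (nat_lit 32) .dd)))))))) (.br
 (nat_lit 11) (.ch (nat_lit 8) (.ev (nat_lit 816) (nat_lit 1180591620717482606600) (.ev (nat_lit 916) (nat_lit
 32) (.ev (nat_lit 1012) (nat_lit 8796093022208) (.ev (nat_lit 1024) (nat_lit 2147516416) .dd))))) (.br
 (nat_lit 13) (.ch (nat_lit 11) (.ev (nat_lit 816) (nat_lit 1180591620719630090280) (.ev (nat_lit 960) (nat_lit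
 8796093022208) (.ev (nat_lit 973) (nat_lit 32768) .dd)))) (.ch (nat_lit 13) (.ev (nat_lit 816) (nat_lit
 1180591629515723145224) (.ev (nat_lit 829) (nat_lit 32) .dd)))))) (.br (nat_lit 20) (.br (nat_lit 16) (.ch
 (nat_lit 15) (.ev (nat_lit 816) (nat_lit 1180591629513508519976) (.ev (nat_lit 916) (nat_lit 67108864) (.ev
 (nat_lit 928) (nat_lit 32768) (.ev (nat_lit 941) (nat_lit 2147483648) .dd))))) (.br (nat_lit 18) (.ch (nat_lit
 16) (.ev (nat_lit 816) (nat_lit 1180591620719630123048) (.ev (nat_lit 829) (nat_lit 8796093022208) .dd))) (.ch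
 (nat_lit 18) (.ev (nat_lit 816) (nat_lit 1180591620719558819880) (.ev (nat_lit 916) (nat_lit 4194304) (.ev
 (nat_lit 1012) (nat_lit 67108864) (.ev (nat_lit 1021) (nat_lit 8796093022208) .dd))))))) (.br (nat_lit 26)
 (.br (nat_lit 25) (.ch (nat_lit 20) (.ev (nat_lit 816) (nat_lit 1180591629515723145248) (.ev (nat_lit 829)
 (nat_lit 8) .dd))) (.ch (nat_lit 25) (.ev (nat_lit 816) (nat_lit 8796164358176) (.ev (nat_lit 916) (nat_lit
 1180591620717411303424) (.ev (nat_lit 1104) (nat_lit 8) (.ev (nat_lit 1117) (nat_lit 2147483648) .dd))))))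
 (.br (nat_lit 29) (.ch (nat_lit 26) (.ev (nat_lit 816) (nat_lit 1180591620719625928744) (.ev (nat_lit 916)
 (nat_lit 8796093022208) (.ev (nat_lit 925) (nat_lit 4194304) .dd)))) (.ch (nat_lit 29) (.ev (nat_lit 816)
 (nat_lit 1180591629515723145256) .dd)))))))))))))) (.ch (nat_lit 12) (.ev (nat_lit 52) (nat_lit
 1180592918416094134272) (.ev (nat_lit 84) (nat_lit 147573952589676412928) (.ev (nat_lit 116) (nat_lit
 590295810358705655808) (.ev (nat_lit 148) (nat_lit 2684354560) (.ev (nat_lit 212) (nat_lit 32) (.nd (nat_lit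
 800) (.br (nat_lit 11) (.br (nat_lit 7) (.br (nat_lit 1) (.ch (nat_lit 0) (.ev (nat_lit 816) (nat_lit
 18446744142433779720) (.ev (nat_lit 1012) (nat_lit 18014398509481984) (.ev (nat_lit 1021) (nat_lit
 17179869184) .dd)))) (.br (nat_lit 4) (.ch (nat_lit 1) (.ev (nat_lit 816) (nat_lit 18464758558123130888) .dd))
 (.ch (nat_lit 4) (.ev (nat_lit 816) (nat_lit 18464758489403129856) (.ev (nat_lit 916) (nat_lit 8) (.fin
 (nat_lit 576474496213926468))))))) (.br (nat_lit 8) (.ch (nat_lit 7) (.ev (nat_lit 816) (nat_lit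
 18464758558118936584) (.ev (nat_lit 829) (nat_lit 4194304) .dd))) (.br (nat_lit 9) (.ch (nat_lit 8) (.ev
 (nat_lit 816) (nat_lit 18464758558123130888) .dd)) (.ch (nat_lit 9) (.ev (nat_lit 816) (nat_lit
 18014467233710080) (.ev (nat_lit 916) (nat_lit 17179869184) (.ev (nat_lit 960) (nat_lit 8) (.ev (nat_lit 973)
 (nat_lit 18446744073709551616) .dd)))))))) (.br (nat_lit 20) (.br (nat_lit 13) (.ch (nat_lit 11) (.ev (nat_lit
 816) (nat_lit 18014467233677320) (.ev (nat_lit 928) (nat_lit 18446744073709551616) (.ev (nat_lit 1012)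
 (nat_lit 17179869184) (.ev (nat_lit 1021) (nat_lit 32768) .dd))))) (.br (nat_lit 19) (.ch (nat_lit 13) (.ev
 (nat_lit 816) (nat_lit 18014415694069760) (.ev (nat_lit 916) (nat_lit 18446744073709584384) (.ev (nat_lit 960)
 (nat_lit 68719476736) (.ev (nat_lit 973) (nat_lit 8) .dd))))) (.ch (nat_lit 19) (.ev (nat_lit 816) (nat_lit
 18464758558123130888) .dd)))) (.br (nat_lit 26) (.br (nat_lit 25) (.ch (nat_lit 20) (.ev (nat_lit 816)
 (nat_lit 18464758489399427072) (.ev (nat_lit 928) (nat_lit 68719476736) (.ev (nat_lit 1012) (nat_lit 32776)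
 (.ev (nat_lit 1021) (nat_lit 4194304) .dd))))) (.ch (nat_lit 25) (.ev (nat_lit 816) (nat_lit
 18464758558123130880) (.ev (nat_lit 829) (nat_lit 8) .dd)))) (.br (nat_lit 28) (.ch (nat_lit 26) (.ev (nat_lit
 816) (nat_lit 18464758558122606592) (.ev (nat_lit 916) (nat_lit 8) (.ev (nat_lit 925) (nat_lit 524288) .dd))))
 (.ch (nat_lit 28) (.ev (nat_lit 816) (nat_lit 85903572992) (.ev (nat_lit 916) (nat_lit 18446744073710075904)
 (.ev (nat_lit 1012) (nat_lit 8) (.ev (nat_lit 1021) (nat_lit 18014398509481984) .dd))))))))))))))))))) (.br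
 (nat_lit 19) (.br (nat_lit 16) (.br (nat_lit 15) (.ch (nat_lit 14) (.ev (nat_lit 52) (nat_lit
 1180592900636993126440) (.ev (nat_lit 84) (nat_lit 17592202821632) (.ev (nat_lit 116) (nat_lit 524288) (.ev
 (nat_lit 148) (nat_lit 18464758472219033600) (.ev (nat_lit 244) (nat_lit 4194304) (.nd (nat_lit 800) (.br
 (nat_lit 18) (.br (nat_lit 9) (.br (nat_lit 4) (.ch (nat_lit 0) (.ev (nat_lit 816) (nat_lit
 590295810634120466432) (.ev (nat_lit 944) (nat_lit 67108864) (.ev (nat_lit 957) (nat_lit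
 147573952589676412928) .dd)))) (.ch (nat_lit 4) (.ev (nat_lit 816) (nat_lit 590295810633650700288) (.ev
 (nat_lit 1012) (nat_lit 536870912) (.ev (nat_lit 1380) (nat_lit 4096) (.ev (nat_lit 1389) (nat_lit
 147573952589676412928) .dd)))))) (.br (nat_lit 11) (.ch (nat_lit 9) (.ev (nat_lit 816) (nat_lit
 737869763223863955456) (.ev (nat_lit 829) (nat_lit 32768) .dd))) (.br (nat_lit 15) (.ch (nat_lit 11) (.ev
 (nat_lit 816) (nat_lit 737869763223863988224) .dd)) (.ch (nat_lit 15) (.ev (nat_lit 816) (nat_lit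
 590295810634187542528) (.ev (nat_lit 916) (nat_lit 32768) (.ev (nat_lit 925) (nat_lit 147573952589676412928)
 .dd))))))) (.br (nat_lit 25) (.br (nat_lit 21) (.ch (nat_lit 18) (.ev (nat_lit 816) (nat_lit 275414814720)
 (.ev (nat_lit 1012) (nat_lit 67108864) (.ev (nat_lit 1574) (nat_lit 737869762948382064640) .dd)))) (.br
 (nat_lit 23) (.ch (nat_lit 21) (.ev (nat_lit 816) (nat_lit 737869762948986081280) (.ev (nat_lit 829) (nat_lit
 274877906944) .dd))) (.ch (nat_lit 23) (.ev (nat_lit 816) (nat_lit 274945052672) (.ev (nat_lit 848) (nat_lit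
 536870912) (.ev (nat_lit 896) (nat_lit 147573952589676412928) (.ev (nat_lit 909) (nat_lit
 590295810358705651712) .dd))))))) (.br (nat_lit 26) (.ch (nat_lit 25) (.ev (nat_lit 816) (nat_lit
 147573952865158303744) (.ev (nat_lit 864) (nat_lit 32768) (.ev (nat_lit 877) (nat_lit 590295810358705651712)
 .dd)))) (.br (nat_lit 28) (.ch (nat_lit 26) (.ev (nat_lit 816) (nat_lit 147573952864621461504) (.ev (nat_lit
 960) (nat_lit 536870912) (.ev (nat_lit 1380) (nat_lit 4096) (.ev (nat_lit 1389) (nat_lit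
 590295810358705651712) .dd))))) (.ch (nat_lit 28) (.ev (nat_lit 816) (nat_lit 737869763223863988224)
 .dd))))))))))))) (.ch (nat_lit 15) (.ev (nat_lit 52) (nat_lit 590297077067522248704) (.ev (nat_lit 84)
 (nat_lit 18014398509514752) (.ev (nat_lit 128) (nat_lit 1346612348459251925032) .dd))))) (.br (nat_lit 18)
 (.ch (nat_lit 16) (.ev (nat_lit 52) (nat_lit 147574119715981000736) (.ev (nat_lit 116) (nat_lit
 18446744073713745920) (.ev (nat_lit 148) (nat_lit 18014400656965632) (.ev (nat_lit 180) (nat_lit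
 1770887431076116955136) (.ev (nat_lit 212) (nat_lit 1125899906842624) (.ev (nat_lit 308) (nat_lit
 4398046511104) (.ev (nat_lit 528) (nat_lit 8) (.nd (nat_lit 800) (.br (nat_lit 11) (.br (nat_lit 8) (.br
 (nat_lit 4) (.ch (nat_lit 0) (.ev (nat_lit 816) (nat_lit 68736782336) (.ev (nat_lit 1024) (nat_lit
 274877906944) (.ev (nat_lit 1156) (nat_lit 67108864) (.ev (nat_lit 1165) (nat_lit 17179869184) .dd))))) (.ch
 (nat_lit 4) (.ev (nat_lit 816) (nat_lit 360861663232) (.ev (nat_lit 829) (nat_lit 4096) .dd)))) (.br (nat_lit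
 9) (.ch (nat_lit 8) (.ev (nat_lit 816) (nat_lit 360844886016) (.ev (nat_lit 916) (nat_lit 4096) (.ev (nat_lit
 925) (nat_lit 16777216) .dd)))) (.ch (nat_lit 9) (.ev (nat_lit 816) (nat_lit 343614164992) (.ev (nat_lit 1024)
 (nat_lit 524288) (.ev (nat_lit 1156) (nat_lit 17179869184) (.ev (nat_lit 1165) (nat_lit 67108864) .dd)))))))
 (.br (nat_lit 19) (.br (nat_lit 16) (.ch (nat_lit 11) (.ev (nat_lit 816) (nat_lit 274962321408) (.ev (nat_lit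
 928) (nat_lit 68719476736) (.ev (nat_lit 941) (nat_lit 17179869184) .dd)))) (.ch (nat_lit 16) (.ev (nat_lit
 816) (nat_lit 292075081728) (.ev (nat_lit 832) (nat_lit 67108864) (.ev (nat_lit 845) (nat_lit 68719476736)
 .dd))))) (.br (nat_lit 20) (.ch (nat_lit 19) (.ev (nat_lit 816) (nat_lit 85916651520) (.ev (nat_lit 916)
 (nat_lit 67108864) (.ev (nat_lit 925) (nat_lit 274877906944) .dd)))) (.br (nat_lit 28) (.ch (nat_lit 20) (.ev
 (nat_lit 816) (nat_lit 85966983168) (.ev (nat_lit 916) (nat_lit 274877906944) (.ev (nat_lit 925) (nat_lit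
 16777216) .dd)))) (.ch (nat_lit 28) (.ev (nat_lit 816) (nat_lit 274961793024) (.ev (nat_lit 916) (nat_lit
 68719476736) (.ev (nat_lit 944) (nat_lit 4096) (.ev (nat_lit 1654) (nat_lit 17180393472) .dd))))))))))))))))))
 (.ch (nat_lit 18) (.ev (nat_lit 52) (nat_lit 1918479539078887903232) (.ev (nat_lit 96) (nat_lit
 18447900846395785256) .dd))))) (.br (nat_lit 21) (.br (nat_lit 20) (.ch (nat_lit 19) (.ev (nat_lit 52)
 (nat_lit 590295819515576225792) (.ev (nat_lit 64) (nat_lit 1346631620409707462696) .dd))) (.ch (nat_lit 20)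
 (.ev (nat_lit 52) (nat_lit 737887918172968587272) (.ev (nat_lit 84) (nat_lit 17592186044416) (.ev (nat_lit
 116) (nat_lit 32) (.ev (nat_lit 180) (nat_lit 16777216) (.ev (nat_lit 192) (nat_lit 1199039504160112279552)
 .dd))))))) (.br (nat_lit 22) (.ch (nat_lit 21) (.ev (nat_lit 52) (nat_lit 737869903703587950600) (.ev (nat_lit
 64) (nat_lit 1199057536221695737888) .dd))) (.ch (nat_lit 22) (.ev (nat_lit 52) (nat_lit
 737869763240440401952) (.ev (nat_lit 84) (nat_lit 1125902071103488) (.ev (nat_lit 116) (nat_lit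
 18464758472219033600) (.ev (nat_lit 148) (nat_lit 17592186044416) (.ev (nat_lit 180) (nat_lit 4194304) (.ev
 (nat_lit 212) (nat_lit 262144) (.nd (nat_lit 800) (.br (nat_lit 18) (.br (nat_lit 15) (.br (nat_lit 13) (.ch
 (nat_lit 9) (.ev (nat_lit 816) (nat_lit 1180591774718362648584) .dd)) (.ch (nat_lit 13) (.ev (nat_lit 816)
 (nat_lit 1180591633980874293256) (.ev (nat_lit 829) (nat_lit 140737488355328) .dd)))) (.br (nat_lit 16) (.ch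
 (nat_lit 15) (.ev (nat_lit 816) (nat_lit 1180591774717825777672) (.ev (nat_lit 829) (nat_lit 536870912) .dd)))
 (.ch (nat_lit 16) (.ev (nat_lit 816) (nat_lit 145204858322952) (.ev (nat_lit 944) (nat_lit 8796093022208) (.ev
 (nat_lit 957) (nat_lit 1180591620717411303424) .dd)))))) (.br (nat_lit 23) (.br (nat_lit 20) (.ch (nat_lit 18)
 (.ev (nat_lit 816) (nat_lit 1180591774718295539720) (.ev (nat_lit 829) (nat_lit 67108864) .dd))) (.ch (nat_lit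
 20) (.ev (nat_lit 816) (nat_lit 1180591629582827782144) (.ev (nat_lit 1012) (nat_lit 140737488355336) (.ev
 (nat_lit 1021) (nat_lit 4398046511104) .dd))))) (.br (nat_lit 25) (.ch (nat_lit 23) (.ev (nat_lit 816)
 (nat_lit 1180591633980337422344) (.ev (nat_lit 916) (nat_lit 536870912) (.ev (nat_lit 925) (nat_lit
 140737488355328) .dd)))) (.br (nat_lit 28) (.ch (nat_lit 25) (.ev (nat_lit 816) (nat_lit 154000884236296) (.ev
 (nat_lit 1012) (nat_lit 67108864) (.ev (nat_lit 1021) (nat_lit 1180591620717411303424) .dd)))) (.ch (nat_lit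
 28) (.ev (nat_lit 816) (nat_lit 145136138846216) (.ev (nat_lit 1012) (nat_lit 1180591629513504325632) (.ev
 (nat_lit 1021) (nat_lit 68719476736) .dd)))))))))))))))))))) (.br (nat_lit 33) (.br (nat_lit 28) (.br (nat_lit
 26) (.ch (nat_lit 25) (.ev (nat_lit 52) (nat_lit 1328165573377975685152) (.ev (nat_lit 84) (nat_lit
 18014398509481984) (.ev (nat_lit 116) (nat_lit 4398046511104) (.ev (nat_lit 148) (nat_lit 1134970877771776)
 (.ev (nat_lit 180) (nat_lit 18446744073709551616) (.ev (nat_lit 244) (nat_lit 17179869184) (.nd (nat_lit 800)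
 (.br (nat_lit 18) (.br (nat_lit 9) (.br (nat_lit 7) (.ch (nat_lit 0) (.ev (nat_lit 816) (nat_lit
 590295968688917708808) (.ev (nat_lit 829) (nat_lit 67108864) .dd))) (.br (nat_lit 8) (.ch (nat_lit 7) (.ev
 (nat_lit 816) (nat_lit 158330278903816) (.ev (nat_lit 916) (nat_lit 590295810358705651712) (.ev (nat_lit 925)
 (nat_lit 262144) .dd)))) (.ch (nat_lit 8) (.ev (nat_lit 816) (nat_lit 158329741508616) (.ev (nat_lit 848)
 (nat_lit 524288) (.ev (nat_lit 1040) (nat_lit 536870912) (.ev (nat_lit 1204) (nat_lit 590295810358705651712)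
 (.ev (nat_lit 1213) (nat_lit 262144) .dd)))))))) (.br (nat_lit 13) (.ch (nat_lit 9) (.ev (nat_lit 816)
 (nat_lit 590295968688917184520) (.ev (nat_lit 916) (nat_lit 67108864) (.ev (nat_lit 925) (nat_lit 524288)
 .dd)))) (.br (nat_lit 15) (.ch (nat_lit 13) (.ev (nat_lit 816) (nat_lit 590295827951496462344) (.ev (nat_lit
 829) (nat_lit 140737488355328) .dd))) (.ch (nat_lit 15) (.ev (nat_lit 816) (nat_lit 590295951096798773256)
 (.ev (nat_lit 829) (nat_lit 17592186044416) .dd)))))) (.br (nat_lit 23) (.br (nat_lit 19) (.ch (nat_lit 18)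
 (.ev (nat_lit 816) (nat_lit 590295951096798773248) (.ev (nat_lit 1088) (nat_lit 8) (.ev (nat_lit 1101)
 (nat_lit 17592186044416) .dd)))) (.br (nat_lit 20) (.ch (nat_lit 19) (.ev (nat_lit 816) (nat_lit
 590295968688984817672) .dd)) (.ch (nat_lit 20) (.ev (nat_lit 816) (nat_lit 17592790548488) (.ev (nat_lit 916)
 (nat_lit 140737488355328) (.ev (nat_lit 1156) (nat_lit 590295810358705651712) (.ev (nat_lit 1165) (nat_lit
 262144) .dd))))))) (.br (nat_lit 28) (.br (nat_lit 26) (.ch (nat_lit 23) (.ev (nat_lit 816) (nat_lit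
 158329742295048) (.ev (nat_lit 944) (nat_lit 536870912) (.ev (nat_lit 957) (nat_lit 590295810358705651712)
 .dd)))) (.ch (nat_lit 26) (.ev (nat_lit 816) (nat_lit 158330278903816) (.ev (nat_lit 916) (nat_lit
 590295810358705651712) (.ev (nat_lit 925) (nat_lit 262144) .dd))))) (.br (nat_lit 29) (.ch (nat_lit 28) (.ev
 (nat_lit 816) (nat_lit 590295968688984817672) .dd)) (.ch (nat_lit 29) (.ev (nat_lit 816) (nat_lit
 590295810358706438152) (.ev (nat_lit 916) (nat_lit 17592253153280) (.ev (nat_lit 1012) (nat_lit 536870912)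
 (.ev (nat_lit 1021) (nat_lit 140737488355328) .dd))))))))))))))))) (.br (nat_lit 27) (.ch (nat_lit 26) (.ev
 (nat_lit 52) (nat_lit 18032077220118560) (.ev (nat_lit 96) (nat_lit 1936909407848063569928) .dd))) (.ch
 (nat_lit 27) (.ev (nat_lit 52) (nat_lit 590313842420356251688) (.ev (nat_lit 84) (nat_lit 8796093022208) (.ev
 (nat_lit 128) (nat_lit 1346613588708834414592) .dd)))))) (.br (nat_lit 31) (.br (nat_lit 29) (.ch (nat_lit 28)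
 (.ev (nat_lit 52) (nat_lit 1770887448754206838784) (.ev (nat_lit 84) (nat_lit 4398063288320) (.ev (nat_lit 96)
 (nat_lit 166039986773013561384) .dd)))) (.ch (nat_lit 29) (.ev (nat_lit 52) (nat_lit 1199056529084597436448)
 (.ev (nat_lit 84) (nat_lit 147573952591823896576) (.ev (nat_lit 116) (nat_lit 4398047035392) (.ev (nat_lit
 148) (nat_lit 17592186044416) (.ev (nat_lit 180) (nat_lit 8) (.ev (nat_lit 288) (nat_lit
 590296936258629275648) .dd)))))))) (.br (nat_lit 32) (.ch (nat_lit 31) (.ev (nat_lit 52) (nat_lit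
 166038737452389109800) (.ev (nat_lit 84) (nat_lit 262144) (.ev (nat_lit 116) (nat_lit 590296936258612494336)
 (.ev (nat_lit 148) (nat_lit 4741644419072) (.ev (nat_lit 180) (nat_lit 140737488355328) (.ev (nat_lit 212)
 (nat_lit 32768) (.nd (nat_lit 800) (.br (nat_lit 13) (.br (nat_lit 8) (.br (nat_lit 7) (.ch (nat_lit 4) (.ev
 (nat_lit 816) (nat_lit 17720934400) (.ev (nat_lit 916) (nat_lit 1180591620717411303424) (.ev (nat_lit 925)
 (nat_lit 16777216) .dd)))) (.ch (nat_lit 7) (.ev (nat_lit 816) (nat_lit 1180591620735128043520) (.ev (nat_lit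
 1012) (nat_lit 4194304) (.ev (nat_lit 1021) (nat_lit 16777216) .dd))))) (.br (nat_lit 9) (.ch (nat_lit 8) (.ev
 (nat_lit 816) (nat_lit 17737711616) (.ev (nat_lit 829) (nat_lit 1180591620717411303424) .dd))) (.br (nat_lit
 11) (.ch (nat_lit 9) (.ev (nat_lit 816) (nat_lit 1180591620717969145856) (.ev (nat_lit 829) (nat_lit
 17179869184) .dd))) (.ch (nat_lit 11) (.ev (nat_lit 816) (nat_lit 1180591620735149015040) .dd))))) (.br
 (nat_lit 21) (.br (nat_lit 15) (.ch (nat_lit 13) (.ev (nat_lit 816) (nat_lit 1180591620735132237824) (.ev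
 (nat_lit 829) (nat_lit 16777216) .dd))) (.br (nat_lit 20) (.ch (nat_lit 15) (.ev (nat_lit 816) (nat_lit
 1180591620734595366912) (.ev (nat_lit 916) (nat_lit 536870912) (.ev (nat_lit 925) (nat_lit 16777216) .dd))))
 (.ch (nat_lit 20) (.ev (nat_lit 816) (nat_lit 1180591620735149015040) .dd)))) (.br (nat_lit 25) (.ch (nat_lit
 21) (.ev (nat_lit 816) (nat_lit 1180591620717969145856) (.ev (nat_lit 829) (nat_lit 17179869184) .dd))) (.br
 (nat_lit 26) (.ch (nat_lit 25) (.ev (nat_lit 816) (nat_lit 1180591620735144820736) (.ev (nat_lit 829) (nat_lit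
 4194304) .dd))) (.ch (nat_lit 26) (.ev (nat_lit 816) (nat_lit 1180591620734607949824) (.ev (nat_lit 916)
 (nat_lit 4194304) (.ev (nat_lit 925) (nat_lit 536870912) .dd)))))))))))))))) (.ch (nat_lit 32) (.ev (nat_lit
 52) (nat_lit 608760582113195491328) (.ev (nat_lit 116) (nat_lit 17592186048544) (.ev (nat_lit 148) (nat_lit
 4194304) (.ev (nat_lit 244) (nat_lit 536870920) (.nd (nat_lit 800) (.br (nat_lit 18) (.br (nat_lit 9) (.br
 (nat_lit 4) (.ch (nat_lit 0) (.ev (nat_lit 816) (nat_lit 1180592887629684670464) (.ev (nat_lit 829) (nat_lit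
 147573952589676412928) .dd))) (.ch (nat_lit 4) (.ev (nat_lit 816) (nat_lit 1328166839944482914304) (.ev
 (nat_lit 864) (nat_lit 262144) (.ev (nat_lit 877) (nat_lit 274877906944) .dd))))) (.br (nat_lit 15) (.ch
 (nat_lit 9) (.ev (nat_lit 816) (nat_lit 1328166840219361083392) .dd)) (.ch (nat_lit 15) (.ev (nat_lit 816)
 (nat_lit 1328166840219361083392) .dd)))) (.br (nat_lit 20) (.br (nat_lit 19) (.ch (nat_lit 18) (.ev (nat_lit
 816) (nat_lit 147575219501949517824) (.ev (nat_lit 1012) (nat_lit 1180591620717411303424) (.ev (nat_lit 1021)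
 (nat_lit 262144) .dd)))) (.ch (nat_lit 19) (.ev (nat_lit 816) (nat_lit 1328166839944483176448) (.ev (nat_lit
 829) (nat_lit 274877906944) .dd)))) (.br (nat_lit 21) (.ch (nat_lit 20) (.ev (nat_lit 816) (nat_lit
 1328166840219360821248) (.ev (nat_lit 829) (nat_lit 262144) .dd))) (.br (nat_lit 29) (.ch (nat_lit 21) (.ev
 (nat_lit 816) (nat_lit 1328165714044576333824) (.ev (nat_lit 1012) (nat_lit 274877906944) (.ev (nat_lit 1021)
 (nat_lit 1125899906842624) .dd)))) (.ch (nat_lit 29) (.ev (nat_lit 816) (nat_lit 1328166699481872728064) (.ev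
 (nat_lit 829) (nat_lit 140737488355328) .dd)))))))))))))))) (.br (nat_lit 42) (.br (nat_lit 36) (.br (nat_lit
 35) (.ch (nat_lit 33) (.ev (nat_lit 52) (nat_lit 737870902319525134336) (.ev (nat_lit 116) (nat_lit
 18014415689351168) (.ev (nat_lit 148) (nat_lit 140737488355328) (.ev (nat_lit 180) (nat_lit
 1199038364791120855040) (.ev (nat_lit 212) (nat_lit 8) (.ev (nat_lit 244) (nat_lit 536870912) (.nd (nat_lit
 800) (.br (nat_lit 18) (.br (nat_lit 8) (.br (nat_lit 1) (.ch (nat_lit 0) (.ev (nat_lit 816) (nat_lit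
 17660923121696) .dd)) (.br (nat_lit 4) (.ch (nat_lit 1) (.ev (nat_lit 816) (nat_lit 17660923121696) .dd)) (.ch
 (nat_lit 4) (.ev (nat_lit 816) (nat_lit 17592186601504) (.ev (nat_lit 928) (nat_lit 68719476736) (.ev (nat_lit
 1312) (nat_lit 4096) (.ev (nat_lit 1508) (nat_lit 262144) (.ev (nat_lit 1517) (nat_lit 16777216) .dd))))))))
 (.br (nat_lit 15) (.ch (nat_lit 8) (.ev (nat_lit 816) (nat_lit 17592186044416) (.ev (nat_lit 916) (nat_lit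
 68719480832) (.ev (nat_lit 1012) (nat_lit 524288) (.ev (nat_lit 1350) (nat_lit 17072160) .dd))))) (.br
 (nat_lit 16) (.ch (nat_lit 15) (.ev (nat_lit 816) (nat_lit 68720037920) (.ev (nat_lit 1024) (nat_lit
 17592186044416) (.ev (nat_lit 1380) (nat_lit 262144) (.ev (nat_lit 1389) (nat_lit 16777216) .dd))))) (.ch
 (nat_lit 16) (.ev (nat_lit 816) (nat_lit 17660923121696) .dd))))) (.br (nat_lit 21) (.br (nat_lit 19) (.ch
 (nat_lit 18) (.ev (nat_lit 816) (nat_lit 17660906049568) (.ev (nat_lit 1360) (nat_lit 16777216) (.ev (nat_lit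
 1428) (nat_lit 262144) (.ev (nat_lit 1437) (nat_lit 32768) .dd))))) (.br (nat_lit 20) (.ch (nat_lit 19) (.ev
 (nat_lit 816) (nat_lit 17660923121696) .dd)) (.ch (nat_lit 20) (.ev (nat_lit 816) (nat_lit 17592186568704)
 (.ev (nat_lit 1264) (nat_lit 4096) (.ev (nat_lit 1350) (nat_lit 17072160) (.ev (nat_lit 1357) (nat_lit
 68719476736) .dd))))))) (.br (nat_lit 28) (.br (nat_lit 26) (.ch (nat_lit 21) (.ev (nat_lit 816) (nat_lit
 17076256) (.ev (nat_lit 916) (nat_lit 17592186044416) (.ev (nat_lit 1012) (nat_lit 68719476736) (.ev (nat_lit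
 1021) (nat_lit 524288) .dd))))) (.ch (nat_lit 26) (.ev (nat_lit 816) (nat_lit 17592203640864) (.ev (nat_lit
 916) (nat_lit 4096) (.ev (nat_lit 925) (nat_lit 68719476736) .dd))))) (.br (nat_lit 29) (.ch (nat_lit 28) (.ev
 (nat_lit 816) (nat_lit 68736552992) (.ev (nat_lit 916) (nat_lit 17592186044416) (.ev (nat_lit 925) (nat_lit
 524288) .dd)))) (.ch (nat_lit 29) (.ev (nat_lit 816) (nat_lit 68736552992) (.fin (nat_lit
 576461302086976042)))))))))))))))) (.ch (nat_lit 35) (.ev (nat_lit 52) (nat_lit 1199057659296110608384) (.ev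
 (nat_lit 84) (nat_lit 147573952589693190144) (.ev (nat_lit 148) (nat_lit 8) (.ev (nat_lit 180) (nat_lit
 590295810375885520896) (.ev (nat_lit 212) (nat_lit 17592186048512) (.ev (nat_lit 308) (nat_lit 32) (.nd
 (nat_lit 800) (.br (nat_lit 15) (.br (nat_lit 8) (.br (nat_lit 4) (.ch (nat_lit 1) (.ev (nat_lit 816) (nat_lit
 71408320512) .dd)) (.br (nat_lit 7) (.ch (nat_lit 4) (.ev (nat_lit 816) (nat_lit 2151710720) (.ev (nat_lit
 1040) (nat_lit 68719476736) (.ev (nat_lit 1156) (nat_lit 262144) (.ev (nat_lit 1165) (nat_lit 536870912)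
 .dd))))) (.ch (nat_lit 7) (.ev (nat_lit 816) (nat_lit 68719509504) (.ev (nat_lit 916) (nat_lit 262144) (.ev
 (nat_lit 1012) (nat_lit 2147483648) (.ev (nat_lit 1056) (nat_lit 4194304) (.ev (nat_lit 1069) (nat_lit
 536870912) .dd)))))))) (.br (nat_lit 11) (.ch (nat_lit 8) (.ev (nat_lit 816) (nat_lit 71408287744) (.ev
 (nat_lit 829) (nat_lit 32768) .dd))) (.br (nat_lit 13) (.ch (nat_lit 11) (.ev (nat_lit 816) (nat_lit
 2688581632) (.ev (nat_lit 916) (nat_lit 262144) (.ev (nat_lit 925) (nat_lit 68719476736) .dd)))) (.ch (nat_lit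
 13) (.ev (nat_lit 816) (nat_lit 2688843776) (.ev (nat_lit 829) (nat_lit 68719476736) .dd)))))) (.br (nat_lit
 19) (.br (nat_lit 16) (.ch (nat_lit 15) (.ev (nat_lit 816) (nat_lit 69260541952) (.ev (nat_lit 916) (nat_lit
 32768) (.ev (nat_lit 1156) (nat_lit 2147483648) (.ev (nat_lit 1165) (nat_lit 262144) .dd))))) (.br (nat_lit
 18) (.ch (nat_lit 16) (.ev (nat_lit 816) (nat_lit 71408320512) .dd)) (.ch (nat_lit 18) (.ev (nat_lit 816)
 (nat_lit 71403864064) (.ev (nat_lit 928) (nat_lit 262144) (.ev (nat_lit 941) (nat_lit 4194304) .dd)))))) (.br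
 (nat_lit 25) (.br (nat_lit 21) (.ch (nat_lit 19) (.ev (nat_lit 816) (nat_lit 71408320512) .dd)) (.ch (nat_lit
 21) (.ev (nat_lit 816) (nat_lit 68723933184) (.ev (nat_lit 928) (nat_lit 32768) (.ev (nat_lit 1712) (nat_lit
 2684354560) .dd))))) (.br (nat_lit 28) (.ch (nat_lit 25) (.ev (nat_lit 816) (nat_lit 71404126208) (.ev
 (nat_lit 829) (nat_lit 4194304) .dd))) (.ch (nat_lit 28) (.ev (nat_lit 816) (nat_lit 69260804096) (.ev
 (nat_lit 916) (nat_lit 2147483648) (.ev (nat_lit 925) (nat_lit 32768) .dd))))))))))))))))) (.br (nat_lit 38)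
 (.ch (nat_lit 36) (.ev (nat_lit 52) (nat_lit 1199038386870020997160) (.ev (nat_lit 84) (nat_lit
 147573952589676711936) (.ev (nat_lit 148) (nat_lit 19140298420518912) (.ev (nat_lit 244) (nat_lit
 590295810358705651712) (.ev (nat_lit 276) (nat_lit 140737488355328) (.ev (nat_lit 758) (nat_lit 274877906944)
 (.nd (nat_lit 800) (.br (nat_lit 16) (.br (nat_lit 7) (.br (nat_lit 4) (.ch (nat_lit 1) (.ev (nat_lit 816)
 (nat_lit 8796093546496) .dd)) (.ch (nat_lit 4) (.ev (nat_lit 816) (nat_lit 8796093022208) (.ev (nat_lit 829)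
 (nat_lit 524288) .dd)))) (.br (nat_lit 8) (.ch (nat_lit 7) (.ev (nat_lit 816) (nat_lit 8796093546496) .dd))
 (.br (nat_lit 11) (.ch (nat_lit 8) (.ev (nat_lit 816) (nat_lit 8796093546496) .dd)) (.ch (nat_lit 11) (.fin
 (nat_lit 576479993747948112)))))) (.br (nat_lit 23) (.br (nat_lit 19) (.ch (nat_lit 16) (.ev (nat_lit 816)
 (nat_lit 524288) (.ev (nat_lit 829) (nat_lit 8796093022208) .dd))) (.br (nat_lit 20) (.ch (nat_lit 19) (.ev
 (nat_lit 816) (nat_lit 8796093546496) .dd)) (.ch (nat_lit 20) (.ev (nat_lit 816) (nat_lit 8796093546496)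
 .dd)))) (.br (nat_lit 25) (.ch (nat_lit 23) (.ev (nat_lit 816) (nat_lit 8796093546496) .dd)) (.br (nat_lit 26)
 (.ch (nat_lit 25) (.ev (nat_lit 816) (nat_lit 8796093546496) .dd)) (.ch (nat_lit 26) (.ev (nat_lit 816)
 (nat_lit 8796093022208) (.ev (nat_lit 829) (nat_lit 524288) .dd))))))))))))))) (.ch (nat_lit 38) (.ev (nat_lit
 52) (nat_lit 166038865011257671688) (.ev (nat_lit 148) (nat_lit 590295810635731042304) (.ev (nat_lit 192)
 (nat_lit 1180592764278294974496) .dd)))))) (.br (nat_lit 45) (.br (nat_lit 44) (.ch (nat_lit 42) (.ev (nat_lit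
 52) (nat_lit 18466042719517573152) (.ev (nat_lit 84) (nat_lit 4096) (.ev (nat_lit 116) (nat_lit 4400193994752)
 (.ev (nat_lit 180) (nat_lit 8796093022208) (.ev (nat_lit 212) (nat_lit 20971520) (.ev (nat_lit 244) (nat_lit
 590295810358705651712) (.nd (nat_lit 800) (.br (nat_lit 21) (.br (nat_lit 16) (.br (nat_lit 11) (.ch (nat_lit
 7) (.ev (nat_lit 816) (nat_lit 1328165573375874301960) (.ev (nat_lit 916) (nat_lit 274877906944) (.ev (nat_lit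
 925) (nat_lit 262144) .dd)))) (.ch (nat_lit 11) (.ev (nat_lit 816) (nat_lit 1328165573582032994312) (.ev
 (nat_lit 829) (nat_lit 68719476736) .dd)))) (.br (nat_lit 18) (.ch (nat_lit 16) (.ev (nat_lit 816) (nat_lit
 1328165573650752471048) .dd)) (.br (nat_lit 19) (.ch (nat_lit 18) (.ev (nat_lit 816) (nat_lit
 1180591621061008949256) (.ev (nat_lit 1012) (nat_lit 67108864) (.ev (nat_lit 1021) (nat_lit
 147573952589676412928) .dd)))) (.ch (nat_lit 19) (.ev (nat_lit 816) (nat_lit 1328165573650752471048) .dd)))))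
 (.br (nat_lit 26) (.br (nat_lit 23) (.ch (nat_lit 21) (.ev (nat_lit 816) (nat_lit 1328165573307087978504) (.ev
 (nat_lit 848) (nat_lit 274877906944) (.ev (nat_lit 880) (nat_lit 67108864) (.ev (nat_lit 893) (nat_lit
 68719476736) .dd))))) (.br (nat_lit 25) (.ch (nat_lit 23) (.ev (nat_lit 816) (nat_lit 1180591621061076058120)
 (.ev (nat_lit 829) (nat_lit 147573952589676412928) .dd))) (.ch (nat_lit 25) (.ev (nat_lit 816) (nat_lit
 1180591621061076058120) (.ev (nat_lit 829) (nat_lit 147573952589676412928) .dd))))) (.br (nat_lit 28) (.ch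
 (nat_lit 26) (.ev (nat_lit 816) (nat_lit 1328165573307154825224) (.ev (nat_lit 1012) (nat_lit 274877906944)
 (.ev (nat_lit 1632) (nat_lit 68719738880) .dd)))) (.br (nat_lit 29) (.ch (nat_lit 28) (.ev (nat_lit 816)
 (nat_lit 147573952864621690880) (.ev (nat_lit 1332) (nat_lit 68719476736) (.fin (nat_lit
 576462401569243712))))) (.ch (nat_lit 29) (.ev (nat_lit 816) (nat_lit 1328165573650685362184) (.ev (nat_lit
 829) (nat_lit 67108864) .dd))))))))))))))) (.ch (nat_lit 44) (.ev (nat_lit 52) (nat_lit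
 1770887444272403976232) (.ev (nat_lit 84) (nat_lit 17301504) (.ev (nat_lit 116) (nat_lit 68791042048) (.ev
 (nat_lit 148) (nat_lit 17592186044416) (.ev (nat_lit 180) (nat_lit 18446744073709551616) (.ev (nat_lit 212)
 (nat_lit 147573952589676412928) (.ev (nat_lit 624) (nat_lit 32768) (.nd (nat_lit 800) (.br (nat_lit 13) (.br
 (nat_lit 1) (.ch (nat_lit 0) (.ev (nat_lit 816) (nat_lit 1266929989844992) (.ev (nat_lit 829) (nat_lit
 18014398509481984) .dd))) (.br (nat_lit 9) (.ch (nat_lit 1) (.ev (nat_lit 816) (nat_lit 292594647040) (.ev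
 (nat_lit 916) (nat_lit 18014398509481984) (.ev (nat_lit 1072) (nat_lit 1125899906842624) (.ev (nat_lit 1085)
 (nat_lit 140737488355328) .dd))))) (.ch (nat_lit 9) (.ev (nat_lit 816) (nat_lit 19281310782586880) (.ev
 (nat_lit 1734) (nat_lit 17716740096) .dd))))) (.br (nat_lit 26) (.br (nat_lit 16) (.ch (nat_lit 13) (.ev
 (nat_lit 816) (nat_lit 18014691104129024) (.ev (nat_lit 1012) (nat_lit 140737488355328) (.ev (nat_lit 1021)
 (nat_lit 1125899906842624) .dd)))) (.ch (nat_lit 16) (.ev (nat_lit 816) (nat_lit 19281036441550848) (.ev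
 (nat_lit 928) (nat_lit 17179869184) (.ev (nat_lit 941) (nat_lit 274877906944) .dd))))) (.br (nat_lit 29) (.ch
 (nat_lit 26) (.ev (nat_lit 816) (nat_lit 18014415689351168) (.ev (nat_lit 928) (nat_lit 536870912) (.ev
 (nat_lit 1012) (nat_lit 1125899906842624) (.ev (nat_lit 1136) (nat_lit 140737488355328) (.ev (nat_lit 1149)
 (nat_lit 274877906944) .dd)))))) (.ch (nat_lit 29) (.ev (nat_lit 816) (nat_lit 19281328499326976)
 .dd))))))))))))))) (.br (nat_lit 46) (.ch (nat_lit 45) (.ev (nat_lit 52) (nat_lit 1789334337946283966464) (.ev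
 (nat_lit 96) (nat_lit 147593101978999722024) .dd))) (.ch (nat_lit 46) (.ev (nat_lit 52) (nat_lit
 1328166716868504616992) (.ev (nat_lit 84) (nat_lit 4398046511104) (.ev (nat_lit 128) (nat_lit
 608760718658732560392) .dd)))))))))))

/-- Subtrie. -/
noncomputable def T4 : Tr := (.ev (nat_lit 20) (nat_lit 1185410626527972032520) (.nd (nat_lit 33) (.br (nat_lit
 25) (.br (nat_lit 14) (.br (nat_lit 5) (.br (nat_lit 2) (.ch (nat_lit 1) (.ev (nat_lit 52) (nat_lit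
 756316577390844186800) (.ev (nat_lit 64) (nat_lit 332333864064010258690) .dd))) (.br (nat_lit 3) (.ch (nat_lit
 2) (.ev (nat_lit 52) (nat_lit 904182631264667834496) (.ev (nat_lit 84) (nat_lit 70368744177682) (.ev (nat_lit
 116) (nat_lit 36893769639575683328) (.ev (nat_lit 688) (nat_lit 147573952589676412928) (.nd (nat_lit 800) (.br
 (nat_lit 19) (.br (nat_lit 5) (.br (nat_lit 2) (.ch (nat_lit 1) (.ev (nat_lit 816) (nat_lit 17592190304256)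
 (.ev (nat_lit 928) (nat_lit 32800) .dd))) (.ch (nat_lit 2) (.ev (nat_lit 816) (nat_lit 4292640) (.ev (nat_lit
 829) (nat_lit 17592186044416) .dd)))) (.br (nat_lit 15) (.ch (nat_lit 5) (.ev (nat_lit 816) (nat_lit
 17592186142752) (.ev (nat_lit 829) (nat_lit 4194304) .dd))) (.ch (nat_lit 15) (.ev (nat_lit 816) (nat_lit
 17592186142720) (.ev (nat_lit 1056) (nat_lit 32) (.ev (nat_lit 1069) (nat_lit 4194304) .dd)))))) (.br (nat_lit
 21) (.br (nat_lit 20) (.ch (nat_lit 19) (.ev (nat_lit 816) (nat_lit 4259872) (.ev (nat_lit 916) (nat_lit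
 17592186044416) (.ev (nat_lit 925) (nat_lit 32768) .dd)))) (.ch (nat_lit 20) (.ev (nat_lit 816) (nat_lit
 4227104) (.ev (nat_lit 1012) (nat_lit 65536) (.ev (nat_lit 1021) (nat_lit 17592186044416) .dd))))) (.br
 (nat_lit 26) (.ch (nat_lit 21) (.ev (nat_lit 816) (nat_lit 17592190337024) (.ev (nat_lit 829) (nat_lit 32)
 .dd))) (.br (nat_lit 27) (.ch (nat_lit 26) (.ev (nat_lit 816) (nat_lit 17592190337056) .dd)) (.ch (nat_lit 27)
 (.ev (nat_lit 816) (nat_lit 17592190337056) .dd)))))))))))) (.ch (nat_lit 3) (.ev (nat_lit 52) (nat_lit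
 184469129655679484176) (.ev (nat_lit 84) (nat_lit 281474976710656) (.ev (nat_lit 148) (nat_lit
 590295810358705651712) (.ev (nat_lit 276) (nat_lit 17592186044416) (.nd (nat_lit 800) (.br (nat_lit 13) (.br
 (nat_lit 4) (.br (nat_lit 1) (.ch (nat_lit 0) (.ev (nat_lit 816) (nat_lit 18737297168175011874) (.ev (nat_lit
 832) (nat_lit 295147905179352825856) (.ev (nat_lit 916) (nat_lit 128) (.ev (nat_lit 1024) (nat_lit
 17179869184) (.ev (nat_lit 1156) (nat_lit 524288) (.ev (nat_lit 1508) (nat_lit 8589934592) (.ev (nat_lit 1517)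
 (nat_lit 8388608) .dd)))))))) (.br (nat_lit 2) (.ch (nat_lit 1) (.ev (nat_lit 816) (nat_lit
 313594649819998126080) (.ev (nat_lit 1012) (nat_lit 70368744706080) (.ev (nat_lit 1472) (nat_lit 2048) (.ev
 (nat_lit 1488) (nat_lit 8388608) (.ev (nat_lit 1520) (nat_lit 2251799813685248) (.ev (nat_lit 1536) (nat_lit
 8589934592) (.ev (nat_lit 1552) (nat_lit 128) (.fin (nat_lit 576462401572389433)))))))))) (.ch (nat_lit 2)
 (.ev (nat_lit 816) (nat_lit 313885201823550740642) (.ev (nat_lit 829) (nat_lit 549755813888) .dd))))) (.br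
 (nat_lit 5) (.ch (nat_lit 4) (.ev (nat_lit 816) (nat_lit 313885201823550675104) (.ev (nat_lit 916) (nat_lit
 65536) (.ev (nat_lit 1156) (nat_lit 2) (.ev (nat_lit 1165) (nat_lit 549755813888) .dd))))) (.br (nat_lit 12)
 (.ch (nat_lit 5) (.ev (nat_lit 816) (nat_lit 313596971997154842786) (.ev (nat_lit 829) (nat_lit
 288230376151711744) .dd))) (.ch (nat_lit 12) (.ev (nat_lit 816) (nat_lit 295438458299596935298) (.ev (nat_lit
 928) (nat_lit 32) (.ev (nat_lit 1012) (nat_lit 2048) (.ev (nat_lit 1040) (nat_lit 18446744073709617152)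
 .dd)))))))) (.br (nat_lit 20) (.br (nat_lit 15) (.ch (nat_lit 13) (.ev (nat_lit 816) (nat_lit
 313885202356126685346) (.ev (nat_lit 829) (nat_lit 17179869184) .dd))) (.br (nat_lit 19) (.ch (nat_lit 15)
 (.ev (nat_lit 816) (nat_lit 313882950564894539906) (.ev (nat_lit 1254) (nat_lit 2251808412014624) .dd))) (.ch
 (nat_lit 19) (.ev (nat_lit 816) (nat_lit 295438458299596478498) (.ev (nat_lit 916) (nat_lit
 18446744073709551616) (.ev (nat_lit 928) (nat_lit 524288) (.ev (nat_lit 941) (nat_lit 128) .dd))))))) (.br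
 (nat_lit 28) (.br (nat_lit 24) (.ch (nat_lit 20) (.ev (nat_lit 816) (nat_lit 313885202364708229250) (.ev
 (nat_lit 916) (nat_lit 2048) (.ev (nat_lit 1332) (nat_lit 8388608) (.ev (nat_lit 1380) (nat_lit 8589934592)
 (.ev (nat_lit 1389) (nat_lit 32) .dd)))))) (.ch (nat_lit 24) (.ev (nat_lit 816) (nat_lit
 313882879646394030114) (.ev (nat_lit 916) (nat_lit 549756338304) (.ev (nat_lit 1462) (nat_lit
 2322177156186112) .dd))))) (.br (nat_lit 29) (.ch (nat_lit 28) (.ev (nat_lit 816) (nat_lit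
 295150227923445289122) (.ev (nat_lit 944) (nat_lit 18446744073709551616) (.ev (nat_lit 1012) (nat_lit 2048)
 (.ev (nat_lit 1021) (nat_lit 288230376151711744) .dd))))) (.ch (nat_lit 29) (.ev (nat_lit 816) (nat_lit
 313885201806370871328) (.ev (nat_lit 916) (nat_lit 130) (.ev (nat_lit 1024) (nat_lit 17179869184) (.ev
 (nat_lit 1037) (nat_lit 549755813888) .dd))))))))))))))))) (.br (nat_lit 11) (.br (nat_lit 9) (.ch (nat_lit 5)
 (.ev (nat_lit 52) (nat_lit 461168953686472268178) (.ev (nat_lit 84) (nat_lit 68719476736) (.ev (nat_lit 96)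
 (nat_lit 627481487699662700576) .dd)))) (.ch (nat_lit 9) (.ev (nat_lit 52) (nat_lit 350777792752297447730)
 (.ev (nat_lit 84) (nat_lit 70437463656448) (.ev (nat_lit 148) (nat_lit 563499709235200) (.ev (nat_lit 180)
 (nat_lit 17179869312) (.nd (nat_lit 800) (.br (nat_lit 12) (.br (nat_lit 2) (.br (nat_lit 1) (.ch (nat_lit 0)
 (.ev (nat_lit 816) (nat_lit 590298062158519369728) (.ev (nat_lit 916) (nat_lit 65536) (.ev (nat_lit 1024)
 (nat_lit 147573952589676412928) (.ev (nat_lit 1037) (nat_lit 8388608) .dd))))) (.ch (nat_lit 1) (.ev (nat_lit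
 816) (nat_lit 147576204389490163712) (.ev (nat_lit 916) (nat_lit 32768) (.ev (nat_lit 1012) (nat_lit
 590295810358705651712) (.ev (nat_lit 1021) (nat_lit 8388608) .dd)))))) (.br (nat_lit 5) (.ch (nat_lit 2) (.ev
 (nat_lit 816) (nat_lit 737872014748195848192) (.ev (nat_lit 829) (nat_lit 8388608) .dd))) (.br (nat_lit 6)
 (.ch (nat_lit 5) (.ev (nat_lit 816) (nat_lit 737872014748204236800) .dd)) (.ch (nat_lit 6) (.ev (nat_lit 816)
 (nat_lit 737872014748204236800) .dd))))) (.br (nat_lit 19) (.br (nat_lit 15) (.ch (nat_lit 12) (.ev (nat_lit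
 816) (nat_lit 737872014748204236800) .dd)) (.br (nat_lit 18) (.ch (nat_lit 15) (.ev (nat_lit 816) (nat_lit
 147573952589676511232) (.ev (nat_lit 1012) (nat_lit 2251799813685248) (.ev (nat_lit 1220) (nat_lit
 590295810358705651712) (.ev (nat_lit 1229) (nat_lit 8388608) .dd))))) (.ch (nat_lit 18) (.ev (nat_lit 816)
 (nat_lit 590298062158527823872) (.ev (nat_lit 829) (nat_lit 147573952589676412928) .dd))))) (.br (nat_lit 21)
 (.ch (nat_lit 19) (.ev (nat_lit 816) (nat_lit 2251799822139392) (.ev (nat_lit 960) (nat_lit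
 147573952589676445696) (.ev (nat_lit 973) (nat_lit 590295810358705651712) .dd)))) (.br (nat_lit 28) (.ch
 (nat_lit 21) (.ev (nat_lit 816) (nat_lit 737872014748195815424) (.ev (nat_lit 916) (nat_lit 32768) (.ev
 (nat_lit 925) (nat_lit 8388608) .dd)))) (.ch (nat_lit 28) (.ev (nat_lit 816) (nat_lit 147576204389498519552)
 (.ev (nat_lit 1156) (nat_lit 65536) (.ev (nat_lit 1165) (nat_lit 590295810358705651712) .dd)))))))))))))))
 (.br (nat_lit 12) (.ch (nat_lit 11) (.ev (nat_lit 52) (nat_lit 1088359677176842815490) (.ev (nat_lit 84)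
 (nat_lit 68719542656) (.ev (nat_lit 116) (nat_lit 4194304) (.ev (nat_lit 180) (nat_lit 2251808403619872) (.nd
 (nat_lit 800) (.br (nat_lit 18) (.br (nat_lit 12) (.br (nat_lit 4) (.ch (nat_lit 0) (.ev (nat_lit 816)
 (nat_lit 549755850752) (.ev (nat_lit 916) (nat_lit 16) (.ev (nat_lit 928) (nat_lit 281474976710656) (.ev
 (nat_lit 941) (nat_lit 288230376151711744) .dd))))) (.ch (nat_lit 4) (.ev (nat_lit 816) (nat_lit
 288512400884273168) .dd))) (.br (nat_lit 13) (.ch (nat_lit 12) (.ev (nat_lit 816) (nat_lit 288512400884240400)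
 (.ev (nat_lit 829) (nat_lit 32768) .dd))) (.ch (nat_lit 13) (.ev (nat_lit 816) (nat_lit 288230925907562496)
 (.ev (nat_lit 944) (nat_lit 16) (.ev (nat_lit 957) (nat_lit 281474976710656) .dd)))))) (.br (nat_lit 25) (.br
 (nat_lit 21) (.ch (nat_lit 18) (.ev (nat_lit 816) (nat_lit 288512400884236304) (.ev (nat_lit 848) (nat_lit
 32768) (.ev (nat_lit 861) (nat_lit 4096) .dd)))) (.ch (nat_lit 21) (.ev (nat_lit 816) (nat_lit
 288230925907562512) (.ev (nat_lit 829) (nat_lit 281474976710656) .dd)))) (.br (nat_lit 28) (.ch (nat_lit 25)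
 (.ev (nat_lit 816) (nat_lit 288511851128459280) (.ev (nat_lit 829) (nat_lit 549755813888) .dd))) (.br (nat_lit
 29) (.ch (nat_lit 28) (.ev (nat_lit 816) (nat_lit 288512400884273168) .dd)) (.ch (nat_lit 29) (.ev (nat_lit
 816) (nat_lit 288511851128459280) (.ev (nat_lit 829) (nat_lit 549755813888) .dd))))))))))))) (.ch (nat_lit 12)
 (.ev (nat_lit 52) (nat_lit 295437631441074127248) (.ev (nat_lit 84) (nat_lit 68719480832) (.ev (nat_lit 116)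
 (nat_lit 166023511421743005698) (.ev (nat_lit 148) (nat_lit 524288) (.ev (nat_lit 180) (nat_lit 32) (.ev
 (nat_lit 212) (nat_lit 36893488147419136000) (.nd (nat_lit 800) (.br (nat_lit 21) (.br (nat_lit 6) (.br
 (nat_lit 1) (.ch (nat_lit 0) (.ev (nat_lit 816) (nat_lit 67584) (.ev (nat_lit 880) (nat_lit 17179869184) (.ev
 (nat_lit 896) (nat_lit 590295810358705651712) (.ev (nat_lit 916) (nat_lit 4194304) (.ev (nat_lit 925) (nat_lit
 8388608) .dd)))))) (.ch (nat_lit 1) (.ev (nat_lit 816) (nat_lit 17192519680) (.ev (nat_lit 829) (nat_lit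
 590295810358705651712) .dd)))) (.br (nat_lit 19) (.ch (nat_lit 6) (.ev (nat_lit 816) (nat_lit
 590295810358709913600) (.ev (nat_lit 960) (nat_lit 17179869184) (.ev (nat_lit 973) (nat_lit 8388608) .dd))))
 (.br (nat_lit 20) (.ch (nat_lit 19) (.ev (nat_lit 816) (nat_lit 590295810375898171392) .dd)) (.ch (nat_lit 20)
 (.ev (nat_lit 816) (nat_lit 17184129024) (.ev (nat_lit 1012) (nat_lit 2048) (.ev (nat_lit 1188) (nat_lit
 8388608) (.ev (nat_lit 1197) (nat_lit 590295810358705651712) .dd)))))))) (.br (nat_lit 26) (.br (nat_lit 24)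
 (.ch (nat_lit 21) (.ev (nat_lit 816) (nat_lit 17184129024) (.ev (nat_lit 916) (nat_lit 8388608) (.ev (nat_lit
 1012) (nat_lit 2048) (.ev (nat_lit 1021) (nat_lit 590295810358705651712) .dd))))) (.br (nat_lit 25) (.ch
 (nat_lit 24) (.ev (nat_lit 816) (nat_lit 590295810375885588480) (.ev (nat_lit 1156) (nat_lit 4194304) (.ev
 (nat_lit 1165) (nat_lit 8388608) .dd)))) (.ch (nat_lit 25) (.ev (nat_lit 816) (nat_lit 590295810375898171392)
 .dd)))) (.br (nat_lit 27) (.ch (nat_lit 26) (.ev (nat_lit 816) (nat_lit 17192519680) (.ev (nat_lit 829)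
 (nat_lit 590295810358705651712) .dd))) (.br (nat_lit 29) (.ch (nat_lit 27) (.ev (nat_lit 816) (nat_lit
 590295810358718302208) (.ev (nat_lit 829) (nat_lit 17179869184) .dd))) (.ch (nat_lit 29) (.ev (nat_lit 816)
 (nat_lit 590295810375898105856) (.ev (nat_lit 829) (nat_lit 65536) .dd)))))))))))))))))) (.br (nat_lit 19)
 (.br (nat_lit 16) (.br (nat_lit 15) (.ch (nat_lit 14) (.ev (nat_lit 52) (nat_lit 1196354550434080) (.ev
 (nat_lit 84) (nat_lit 36893488147419103232) (.ev (nat_lit 116) (nat_lit 18446744073709551616) (.ev (nat_lit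
 148) (nat_lit 281474976710656) (.ev (nat_lit 180) (nat_lit 8388608) (.nd (nat_lit 800) (.br (nat_lit 15) (.br
 (nat_lit 6) (.br (nat_lit 2) (.ch (nat_lit 1) (.ev (nat_lit 816) (nat_lit 2832891713159168) (.ev (nat_lit
 1012) (nat_lit 885443715546648412288) (.ev (nat_lit 1380) (nat_lit 32768) (.ev (nat_lit 1392) (nat_lit 4096)
 (.ev (nat_lit 1412) (nat_lit 524288) (.ev (nat_lit 1428) (nat_lit 16) (.ev (nat_lit 1444) (nat_lit
 147573952589676412928) (.fin (nat_lit 576462401572389433)))))))))) (.br (nat_lit 4) (.ch (nat_lit 2) (.ev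
 (nat_lit 816) (nat_lit 738160808632651387010) (.ev (nat_lit 916) (nat_lit 17592186044416) (.ev (nat_lit 928)
 (nat_lit 295147905179352825856) (.ev (nat_lit 941) (nat_lit 16) .dd))))) (.ch (nat_lit 4) (.ev (nat_lit 816)
 (nat_lit 590584621835346776066) (.ev (nat_lit 916) (nat_lit 295150156979166511120) (.ev (nat_lit 1360)
 (nat_lit 32768) (.ev (nat_lit 1380) (nat_lit 147573952589676937216) (.ev (nat_lit 1389) (nat_lit 128)
 .dd)))))))) (.br (nat_lit 12) (.ch (nat_lit 6) (.ev (nat_lit 816) (nat_lit 1033305916654423150720) (.ev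
 (nat_lit 916) (nat_lit 18) (.ev (nat_lit 1024) (nat_lit 562949953421312) (.ev (nat_lit 1037) (nat_lit
 2251799813685248) .dd))))) (.br (nat_lit 13) (.ch (nat_lit 12) (.ev (nat_lit 816) (nat_lit
 1033308168454236835986) (.ev (nat_lit 829) (nat_lit 562949953421312) .dd))) (.ch (nat_lit 13) (.ev (nat_lit
 816) (nat_lit 738160263274879258754) (.ev (nat_lit 832) (nat_lit 4194304) (.ev (nat_lit 916) (nat_lit 16) (.ev
 (nat_lit 1024) (nat_lit 562949953421312) (.ev (nat_lit 1156) (nat_lit 295147905179352825856) (.ev (nat_lit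
 1392) (nat_lit 524288) (.ev (nat_lit 1405) (nat_lit 32768) .dd))))))))))) (.br (nat_lit 20) (.br (nat_lit 18)
 (.ch (nat_lit 15) (.ev (nat_lit 816) (nat_lit 1033020501028038545554) (.ev (nat_lit 829) (nat_lit
 288230376151711744) .dd))) (.br (nat_lit 19) (.ch (nat_lit 18) (.ev (nat_lit 816) (nat_lit
 1033020483435852497042) (.ev (nat_lit 944) (nat_lit 17592186044416) (.ev (nat_lit 1012) (nat_lit 4096) (.ev
 (nat_lit 1021) (nat_lit 288230376151711744) .dd))))) (.ch (nat_lit 19) (.ev (nat_lit 816) (nat_lit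
 295438968447217696914) (.ev (nat_lit 1264) (nat_lit 8589934592) (.ev (nat_lit 1380) (nat_lit
 147573952589676412928) (.ev (nat_lit 1508) (nat_lit 32768) (.ev (nat_lit 1520) (nat_lit 524288) (.ev (nat_lit
 1600) (nat_lit 590295810358705655808) .dd))))))))) (.br (nat_lit 24) (.br (nat_lit 21) (.ch (nat_lit 20) (.ev
 (nat_lit 816) (nat_lit 1033306479604376572050) (.ev (nat_lit 829) (nat_lit 2251799813685248) .dd))) (.ch
 (nat_lit 21) (.ev (nat_lit 816) (nat_lit 1033308731395599761554) (.ev (nat_lit 916) (nat_lit 4096) (.ev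
 (nat_lit 1312) (nat_lit 8589934592) (.ev (nat_lit 1380) (nat_lit 524288) (.ev (nat_lit 1389) (nat_lit 32768)
 .dd))))))) (.br (nat_lit 27) (.ch (nat_lit 24) (.ev (nat_lit 816) (nat_lit 1033308713253658460306) (.ev
 (nat_lit 928) (nat_lit 8589934592) (.ev (nat_lit 1012) (nat_lit 4096) (.ev (nat_lit 1040) (nat_lit
 18141941858304) .dd))))) (.ch (nat_lit 27) (.ev (nat_lit 816) (nat_lit 1033306479054620758160) (.ev (nat_lit
 916) (nat_lit 549755813888) (.ev (nat_lit 1156) (nat_lit 2) (.ev (nat_lit 1165) (nat_lit 2251799813685248)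
 .dd)))))))))))))))) (.ch (nat_lit 15) (.ev (nat_lit 52) (nat_lit 885447374781475723410) (.ev (nat_lit 84)
 (nat_lit 147862253334576529408) (.ev (nat_lit 116) (nat_lit 8589934592) (.ev (nat_lit 148) (nat_lit 32) (.ev
 (nat_lit 180) (nat_lit 17592186044416) (.ev (nat_lit 774) (nat_lit 17179869184) (.nd (nat_lit 800) (.br
 (nat_lit 13) (.br (nat_lit 4) (.br (nat_lit 1) (.ch (nat_lit 0) (.ev (nat_lit 816) (nat_lit
 55340795720846278912) (.ev (nat_lit 829) (nat_lit 65536) .dd))) (.br (nat_lit 2) (.ch (nat_lit 1) (.ev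
 (nat_lit 816) (nat_lit 55340795720846344448) .dd)) (.ch (nat_lit 2) (.ev (nat_lit 816) (nat_lit
 18447307023671427328) (.ev (nat_lit 916) (nat_lit 549755813888) (.ev (nat_lit 925) (nat_lit
 36893488147419103232) .dd)))))) (.br (nat_lit 6) (.ch (nat_lit 4) (.ev (nat_lit 816) (nat_lit
 55340795171090530304) (.ev (nat_lit 1012) (nat_lit 549755813888) (.ev (nat_lit 1021) (nat_lit 256) .dd))))
 (.br (nat_lit 12) (.ch (nat_lit 6) (.ev (nat_lit 816) (nat_lit 18446744623473819648) (.ev (nat_lit 916)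
 (nat_lit 256) (.ev (nat_lit 960) (nat_lit 562949953421312) (.ev (nat_lit 973) (nat_lit 36893488147419103232)
 .dd))))) (.ch (nat_lit 12) (.ev (nat_lit 816) (nat_lit 55340795720846344448) .dd))))) (.br (nat_lit 21) (.br
 (nat_lit 18) (.ch (nat_lit 13) (.ev (nat_lit 816) (nat_lit 18446744623473754112) (.ev (nat_lit 928) (nat_lit
 562949953421312) (.ev (nat_lit 1012) (nat_lit 36893488147419103488) (.ev (nat_lit 1021) (nat_lit 65536)
 .dd))))) (.br (nat_lit 19) (.ch (nat_lit 18) (.ev (nat_lit 816) (nat_lit 18447307573427241216) (.ev (nat_lit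
 829) (nat_lit 36893488147419103232) .dd))) (.ch (nat_lit 19) (.ev (nat_lit 816) (nat_lit 563499717689600) (.ev
 (nat_lit 916) (nat_lit 36893488147419103232) (.ev (nat_lit 925) (nat_lit 18446744073709551616) .dd)))))) (.br
 (nat_lit 25) (.br (nat_lit 24) (.ch (nat_lit 21) (.ev (nat_lit 816) (nat_lit 563499709300992) (.ev (nat_lit
 916) (nat_lit 18446744073709551616) (.ev (nat_lit 1012) (nat_lit 8388608) (.ev (nat_lit 1021) (nat_lit
 36893488147419103232) .dd))))) (.ch (nat_lit 24) (.ev (nat_lit 816) (nat_lit 55340795171082141952) (.ev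
 (nat_lit 1012) (nat_lit 8388608) (.ev (nat_lit 1021) (nat_lit 549755813888) .dd))))) (.br (nat_lit 28) (.ch
 (nat_lit 25) (.ev (nat_lit 816) (nat_lit 55340795720846344448) .dd)) (.ch (nat_lit 28) (.ev (nat_lit 816)
 (nat_lit 549764268288) (.ev (nat_lit 916) (nat_lit 36893488147419103232) (.fin (nat_lit
 576465700110418480)))))))))))))))))) (.br (nat_lit 18) (.ch (nat_lit 16) (.ev (nat_lit 52) (nat_lit
 479615715902119510432) (.ev (nat_lit 64) (nat_lit 609034725552734935058) .dd))) (.ch (nat_lit 18) (.ev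
 (nat_lit 52) (nat_lit 1033308432337027012738) (.ev (nat_lit 84) (nat_lit 36894051097372524560) (.ev (nat_lit
 160) (nat_lit 18447958020454908192) .dd)))))) (.br (nat_lit 21) (.br (nat_lit 20) (.ch (nat_lit 19) (.ev
 (nat_lit 52) (nat_lit 590298133171517102098) (.ev (nat_lit 84) (nat_lit 37181718523570815104) (.ev (nat_lit
 116) (nat_lit 524320) (.ev (nat_lit 212) (nat_lit 256) (.ev (nat_lit 320) (nat_lit 17592186044416) (.nd
 (nat_lit 800) (.br (nat_lit 19) (.br (nat_lit 13) (.br (nat_lit 5) (.ch (nat_lit 4) (.ev (nat_lit 816)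
 (nat_lit 18448714398550720512) (.ev (nat_lit 916) (nat_lit 147573952589676412928) (.ev (nat_lit 925) (nat_lit
 295147905179352825856) .dd)))) (.ch (nat_lit 5) (.ev (nat_lit 816) (nat_lit 313596619577903546368) (.ev
 (nat_lit 829) (nat_lit 147573952589676412928) .dd)))) (.br (nat_lit 15) (.ch (nat_lit 13) (.ev (nat_lit 816)
 (nat_lit 461170009217626537984) (.ev (nat_lit 829) (nat_lit 562949953421312) .dd))) (.ch (nat_lit 15) (.ev
 (nat_lit 816) (nat_lit 461170572167579959296) .dd)))) (.br (nat_lit 27) (.br (nat_lit 25) (.ch (nat_lit 19)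
 (.ev (nat_lit 816) (nat_lit 442722420718986854400) (.ev (nat_lit 916) (nat_lit 281474976710656) (.ev (nat_lit
 976) (nat_lit 18446744073709551616) (.ev (nat_lit 989) (nat_lit 1125899906842624) .dd))))) (.ch (nat_lit 25)
 (.ev (nat_lit 816) (nat_lit 166022666988222939136) (.ev (nat_lit 976) (nat_lit 295147905179352825856) (.ev
 (nat_lit 989) (nat_lit 4194304) .dd))))) (.br (nat_lit 28) (.ch (nat_lit 27) (.ev (nat_lit 816) (nat_lit
 461170572167579959296) .dd)) (.br (nat_lit 29) (.ch (nat_lit 28) (.ev (nat_lit 816) (nat_lit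
 295149312554240573440) (.ev (nat_lit 832) (nat_lit 147573952589676412928) (.fin (nat_lit
 576465700110418480))))) (.ch (nat_lit 29) (.ev (nat_lit 816) (nat_lit 1970324841168896) (.ev (nat_lit 916)
 (nat_lit 18446744073709551616) (.ev (nat_lit 1012) (nat_lit 147573952589676412928) (.ev (nat_lit 1021)
 (nat_lit 295147905179352825856) .dd)))))))))))))))) (.ch (nat_lit 20) (.ev (nat_lit 52) (nat_lit
 774763532656690401408) (.ev (nat_lit 84) (nat_lit 289919226012008448) (.ev (nat_lit 116) (nat_lit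
 549755813888) (.ev (nat_lit 180) (nat_lit 17592186044464) (.ev (nat_lit 212) (nat_lit 18448995873523236864)
 (.nd (nat_lit 800) (.br (nat_lit 20) (.br (nat_lit 15) (.br (nat_lit 5) (.ch (nat_lit 4) (.ev (nat_lit 816)
 (nat_lit 295147975556686940160) (.ev (nat_lit 1012) (nat_lit 256) (.ev (nat_lit 1021) (nat_lit 2) .dd)))) (.ch
 (nat_lit 5) (.ev (nat_lit 816) (nat_lit 295147975556686940416) (.ev (nat_lit 829) (nat_lit 2) .dd)))) (.br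
 (nat_lit 18) (.ch (nat_lit 15) (.ev (nat_lit 816) (nat_lit 295147975556686940418) .dd)) (.ch (nat_lit 18) (.ev
 (nat_lit 816) (nat_lit 295147975556686940418) .dd)))) (.br (nat_lit 25) (.br (nat_lit 21) (.ch (nat_lit 20)
 (.ev (nat_lit 816) (nat_lit 295147975556686938370) (.ev (nat_lit 829) (nat_lit 2048) .dd))) (.ch (nat_lit 21)
 (.ev (nat_lit 816) (nat_lit 295147905187942760706) (.ev (nat_lit 1012) (nat_lit 2048) (.ev (nat_lit 1021)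
 (nat_lit 70368744177664) .dd))))) (.br (nat_lit 26) (.ch (nat_lit 25) (.ev (nat_lit 816) (nat_lit
 70377334114562) (.ev (nat_lit 829) (nat_lit 295147905179352825856) .dd))) (.br (nat_lit 28) (.ch (nat_lit 26)
 (.ev (nat_lit 816) (nat_lit 295147975548097005826) (.ev (nat_lit 829) (nat_lit 8589934592) .dd))) (.ch
 (nat_lit 28) (.ev (nat_lit 816) (nat_lit 295147975556686938368) (.ev (nat_lit 864) (nat_lit 2) (.ev (nat_lit
 877) (nat_lit 2048) .dd)))))))))))))))) (.br (nat_lit 22) (.ch (nat_lit 21) (.ev (nat_lit 52) (nat_lit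
 737872859748660482434) (.ev (nat_lit 84) (nat_lit 70368744212480) (.ev (nat_lit 116) (nat_lit
 1143492092887040) (.ev (nat_lit 148) (nat_lit 18446744073709551616) (.ev (nat_lit 180) (nat_lit
 36893488147419103232) (.ev (nat_lit 212) (nat_lit 295147905179357020160) (.nd (nat_lit 800) (.br (nat_lit 15)
 (.br (nat_lit 6) (.br (nat_lit 5) (.ch (nat_lit 2) (.ev (nat_lit 816) (nat_lit 288230444871188528) .dd)) (.ch
 (nat_lit 5) (.ev (nat_lit 816) (nat_lit 288230444871188528) .dd))) (.br (nat_lit 12) (.ch (nat_lit 6) (.ev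
 (nat_lit 816) (nat_lit 68719476768) (.ev (nat_lit 916) (nat_lit 288230376151711744) (.ev (nat_lit 925)
 (nat_lit 16) .dd)))) (.br (nat_lit 13) (.ch (nat_lit 12) (.ev (nat_lit 816) (nat_lit 288230444871188528) .dd))
 (.ch (nat_lit 13) (.ev (nat_lit 816) (nat_lit 288230444871188528) .dd))))) (.br (nat_lit 25) (.br (nat_lit 18)
 (.ch (nat_lit 15) (.ev (nat_lit 816) (nat_lit 288230376151711760) (.ev (nat_lit 1012) (nat_lit 32) (.ev
 (nat_lit 1021) (nat_lit 68719476736) .dd)))) (.br (nat_lit 20) (.ch (nat_lit 18) (.ev (nat_lit 816) (nat_lit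
 288230444871188528) .dd)) (.ch (nat_lit 20) (.ev (nat_lit 816) (nat_lit 288230376151711792) (.ev (nat_lit 829)
 (nat_lit 68719476736) .dd))))) (.br (nat_lit 27) (.ch (nat_lit 25) (.ev (nat_lit 816) (nat_lit
 288230376151711792) (.ev (nat_lit 829) (nat_lit 68719476736) .dd))) (.br (nat_lit 28) (.ch (nat_lit 27) (.ev
 (nat_lit 816) (nat_lit 48) (.ev (nat_lit 848) (nat_lit 288230376151711744) (.ev (nat_lit 861) (nat_lit
 68719476736) .dd)))) (.ch (nat_lit 28) (.ev (nat_lit 816) (nat_lit 32) (.ev (nat_lit 1040) (nat_lit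
 288230376151711744) (.ev (nat_lit 1508) (nat_lit 16) (.ev (nat_lit 1517) (nat_lit 68719476736)
 .dd))))))))))))))))) (.ch (nat_lit 22) (.ev (nat_lit 52) (nat_lit 738160879009981370784) (.ev (nat_lit 84)
 (nat_lit 281543696189442) (.ev (nat_lit 212) (nat_lit 8589934608) (.ev (nat_lit 244) (nat_lit 17592186044416)
 (.ev (nat_lit 384) (nat_lit 8388608) (.nd (nat_lit 800) (.br (nat_lit 19) (.br (nat_lit 6) (.br (nat_lit 1)
 (.ch (nat_lit 0) (.ev (nat_lit 816) (nat_lit 350489263300388323328) (.ev (nat_lit 829) (nat_lit 4194304)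
 .dd))) (.br (nat_lit 4) (.ch (nat_lit 1) (.ev (nat_lit 816) (nat_lit 350489263300392517632) .dd)) (.ch
 (nat_lit 4) (.ev (nat_lit 816) (nat_lit 55341358121035497472) (.ev (nat_lit 1024) (nat_lit
 295147905179357020160) .dd))))) (.br (nat_lit 12) (.ch (nat_lit 6) (.ev (nat_lit 816) (nat_lit
 1125899911036928) (.ev (nat_lit 1012) (nat_lit 55340232221128654848) (.ev (nat_lit 1021) (nat_lit
 295147905179352825856) .dd)))) (.br (nat_lit 13) (.ch (nat_lit 12) (.ev (nat_lit 816) (nat_lit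
 350489263300392517632) .dd)) (.ch (nat_lit 13) (.ev (nat_lit 816) (nat_lit 1125899911036928) (.ev (nat_lit
 916) (nat_lit 332041393326771929088) (.ev (nat_lit 925) (nat_lit 18446744073709551616) .dd))))))) (.br
 (nat_lit 25) (.br (nat_lit 21) (.ch (nat_lit 19) (.ev (nat_lit 816) (nat_lit 350488137400485675008) (.ev
 (nat_lit 829) (nat_lit 1125899906842624) .dd))) (.br (nat_lit 24) (.ch (nat_lit 21) (.ev (nat_lit 816)
 (nat_lit 313594649253066571776) (.fin (nat_lit 576461302059713084)))) (.ch (nat_lit 24) (.ev (nat_lit 816)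
 (nat_lit 350489263300392517632) .dd)))) (.br (nat_lit 27) (.br (nat_lit 26) (.ch (nat_lit 25) (.ev (nat_lit
 816) (nat_lit 55340232221132849152) (.ev (nat_lit 916) (nat_lit 295147905179352825856) (.ev (nat_lit 925)
 (nat_lit 1125899906842624) .dd)))) (.ch (nat_lit 26) (.ev (nat_lit 816) (nat_lit 332042519226682966016) (.ev
 (nat_lit 829) (nat_lit 18446744073709551616) .dd)))) (.br (nat_lit 28) (.ch (nat_lit 27) (.ev (nat_lit 816)
 (nat_lit 350489263300392517632) .dd)) (.ch (nat_lit 28) (.ev (nat_lit 816) (nat_lit 350489263300392517632)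
 .dd))))))))))))))))) (.br (nat_lit 33) (.br (nat_lit 28) (.br (nat_lit 26) (.ch (nat_lit 25) (.ev (nat_lit 52)
 (nat_lit 147865068702818931106) (.ev (nat_lit 84) (nat_lit 1125899906908160) (.ev (nat_lit 116) (nat_lit
 590295810358705653760) (.ev (nat_lit 148) (nat_lit 18446744090889420800) (.nd (nat_lit 800) (.br (nat_lit 12)
 (.br (nat_lit 4) (.br (nat_lit 1) (.ch (nat_lit 0) (.ev (nat_lit 816) (nat_lit 36893769630994137104) (.ev
 (nat_lit 1012) (nat_lit 295147905179353350144) (.ev (nat_lit 1021) (nat_lit 17592186044416) .dd)))) (.ch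
 (nat_lit 1) (.ev (nat_lit 816) (nat_lit 36893787223172317200) (.ev (nat_lit 1012) (nat_lit 8388608) (.ev
 (nat_lit 1021) (nat_lit 295147905179352825856) .dd))))) (.br (nat_lit 5) (.ch (nat_lit 4) (.ev (nat_lit 816)
 (nat_lit 36893787223180181520) (.ev (nat_lit 944) (nat_lit 524288) (.ev (nat_lit 957) (nat_lit
 295147905179352825856) .dd)))) (.ch (nat_lit 5) (.ev (nat_lit 816) (nat_lit 332041410927556821008) (.ev
 (nat_lit 829) (nat_lit 281474976710656) .dd))))) (.br (nat_lit 24) (.br (nat_lit 13) (.ch (nat_lit 12) (.ev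
 (nat_lit 816) (nat_lit 332041410918966886416) (.ev (nat_lit 916) (nat_lit 8589934592) (.ev (nat_lit 925)
 (nat_lit 281474976710656) .dd)))) (.ch (nat_lit 13) (.ev (nat_lit 816) (nat_lit 295147922780137717760) (.ev
 (nat_lit 1012) (nat_lit 36893769622395813888) (.ev (nat_lit 1021) (nat_lit 16) .dd))))) (.br (nat_lit 25) (.ch
 (nat_lit 24) (.ev (nat_lit 816) (nat_lit 332041692402525143056) (.ev (nat_lit 829) (nat_lit 8388608) .dd)))
 (.br (nat_lit 27) (.ch (nat_lit 25) (.ev (nat_lit 816) (nat_lit 332041692393943597072) (.ev (nat_lit 829)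
 (nat_lit 8589934592) .dd))) (.ch (nat_lit 27) (.ev (nat_lit 816) (nat_lit 332041692402533531664)
 .dd)))))))))))) (.br (nat_lit 27) (.ch (nat_lit 26) (.ev (nat_lit 52) (nat_lit 36894139702552068514) (.ev
 (nat_lit 84) (nat_lit 289356276059144192) (.ev (nat_lit 116) (nat_lit 295147905179352825856) (.ev (nat_lit
 148) (nat_lit 4096) (.ev (nat_lit 180) (nat_lit 8388608) (.nd (nat_lit 800) (.br (nat_lit 20) (.br (nat_lit 6)
 (.br (nat_lit 4) (.ch (nat_lit 0) (.ev (nat_lit 816) (nat_lit 2251799813685248) (.ev (nat_lit 916) (nat_lit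
 281474976710672) (.ev (nat_lit 1012) (nat_lit 166020696663385964544) (.ev (nat_lit 1412) (nat_lit 2048) (.ev
 (nat_lit 1421) (nat_lit 590295810358705651712) .dd)))))) (.br (nat_lit 5) (.ch (nat_lit 4) (.ev (nat_lit 816)
 (nat_lit 608742835907391916048) (.ev (nat_lit 1024) (nat_lit 147573952589676412928) (.ev (nat_lit 1037)
 (nat_lit 2251799813685248) .dd)))) (.ch (nat_lit 5) (.ev (nat_lit 816) (nat_lit 590298343633496049680) (.ev
 (nat_lit 1012) (nat_lit 147573952589676412928) (.ev (nat_lit 1021) (nat_lit 18446744073709551616) .dd))))))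
 (.br (nat_lit 13) (.ch (nat_lit 6) (.ev (nat_lit 816) (nat_lit 737872296223172462592) (.ev (nat_lit 916)
 (nat_lit 16) (.ev (nat_lit 925) (nat_lit 18446744073709551616) .dd)))) (.br (nat_lit 15) (.ch (nat_lit 13)
 (.ev (nat_lit 816) (nat_lit 756319040296882014224) .dd)) (.ch (nat_lit 15) (.ev (nat_lit 816) (nat_lit
 166023229938176360464) (.ev (nat_lit 1380) (nat_lit 590295810358705651712) (.ev (nat_lit 1389) (nat_lit 2048)
 .dd))))))) (.br (nat_lit 25) (.br (nat_lit 21) (.ch (nat_lit 20) (.ev (nat_lit 816) (nat_lit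
 166020978138362675216) (.ev (nat_lit 1188) (nat_lit 2251799813685248) (.ev (nat_lit 1360) (nat_lit
 590295810358705651712) (.ev (nat_lit 1373) (nat_lit 2048) .dd))))) (.br (nat_lit 24) (.ch (nat_lit 21) (.ev
 (nat_lit 816) (nat_lit 147576485864466808832) (.ev (nat_lit 1156) (nat_lit 18446744073709551616) (.ev (nat_lit
 1264) (nat_lit 16) (.ev (nat_lit 1488) (nat_lit 590295810358705651712) (.ev (nat_lit 1501) (nat_lit 2048)
 .dd)))))) (.ch (nat_lit 24) (.ev (nat_lit 816) (nat_lit 756316788497068328976) (.ev (nat_lit 829) (nat_lit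
 2251799813685248) .dd))))) (.br (nat_lit 28) (.br (nat_lit 26) (.ch (nat_lit 25) (.ev (nat_lit 816) (nat_lit
 756319040296882014224) .dd)) (.ch (nat_lit 26) (.ev (nat_lit 816) (nat_lit 756319040296882014224) .dd))) (.br
 (nat_lit 29) (.ch (nat_lit 28) (.ev (nat_lit 816) (nat_lit 147576485864466808832) (.ev (nat_lit 1236) (nat_lit
 18446744073709551616) (.ev (nat_lit 1264) (nat_lit 16) (.ev (nat_lit 1380) (nat_lit 590295810358705651712)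
 (.ev (nat_lit 1389) (nat_lit 2048) .dd)))))) (.ch (nat_lit 29) (.ev (nat_lit 816) (nat_lit
 756316788497068328976) (.ev (nat_lit 829) (nat_lit 2251799813685248) .dd)))))))))))))) (.ch (nat_lit 27) (.ev
 (nat_lit 52) (nat_lit 627190160600554635298) (.ev (nat_lit 84) (nat_lit 128) (.ev (nat_lit 148) (nat_lit
 18446744073709551616) (.ev (nat_lit 180) (nat_lit 8390656) (.ev (nat_lit 212) (nat_lit 288230376151711760)
 (.ev (nat_lit 276) (nat_lit 295147905179352825856) (.ev (nat_lit 308) (nat_lit 524288) (.nd (nat_lit 800) (.br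
 (nat_lit 19) (.br (nat_lit 5) (.br (nat_lit 1) (.ch (nat_lit 0) (.ev (nat_lit 816) (nat_lit
 147577400675320992000) (.ev (nat_lit 829) (nat_lit 549755813888) .dd))) (.br (nat_lit 2) (.ch (nat_lit 1) (.ev
 (nat_lit 816) (nat_lit 147577401225076805888) .dd)) (.ch (nat_lit 2) (.ev (nat_lit 816) (nat_lit
 147577401225076805888) .dd)))) (.br (nat_lit 6) (.ch (nat_lit 5) (.ev (nat_lit 816) (nat_lit
 147576275325169963264) (.ev (nat_lit 829) (nat_lit 1125899906842624) .dd))) (.br (nat_lit 15) (.ch (nat_lit 6)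
 (.ev (nat_lit 816) (nat_lit 147577330856332627968) (.ev (nat_lit 832) (nat_lit 256) (.ev (nat_lit 845)
 (nat_lit 70368744177664) .dd)))) (.ch (nat_lit 15) (.ev (nat_lit 816) (nat_lit 147576275325169963264) (.ev
 (nat_lit 829) (nat_lit 1125899906842624) .dd)))))) (.br (nat_lit 24) (.br (nat_lit 20) (.ch (nat_lit 19) (.ev
 (nat_lit 816) (nat_lit 2322185737732352) (.ev (nat_lit 916) (nat_lit 147573953139432226816) (.ev (nat_lit 992)
 (nat_lit 1125899906842624) (.ev (nat_lit 1005) (nat_lit 4096) .dd))))) (.br (nat_lit 21) (.ch (nat_lit 20)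
 (.ev (nat_lit 816) (nat_lit 147575149408083251456) (.ev (nat_lit 916) (nat_lit 2251799813685248) (.ev (nat_lit
 925) (nat_lit 17179869184) .dd)))) (.ch (nat_lit 21) (.ev (nat_lit 816) (nat_lit 147576204956425781504) (.ev
 (nat_lit 916) (nat_lit 4096) (.ev (nat_lit 992) (nat_lit 1125899906842624) (.ev (nat_lit 1005) (nat_lit
 70368744177664) .dd))))))) (.br (nat_lit 26) (.br (nat_lit 25) (.ch (nat_lit 24) (.ev (nat_lit 816) (nat_lit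
 147574023508176408832) (.ev (nat_lit 1012) (nat_lit 1125899906842624) (.ev (nat_lit 1024) (nat_lit
 2251799813685248) (.ev (nat_lit 1037) (nat_lit 17179869184) .dd))))) (.ch (nat_lit 25) (.ev (nat_lit 816)
 (nat_lit 147574023525356277760) (.ev (nat_lit 916) (nat_lit 2251799813685248) (.ev (nat_lit 960) (nat_lit
 1125899906842880) .dd))))) (.br (nat_lit 28) (.ch (nat_lit 26) (.ev (nat_lit 816) (nat_lit 3448618220523520)
 (.ev (nat_lit 916) (nat_lit 147573952589676412928) (.ev (nat_lit 928) (nat_lit 256) (.ev (nat_lit 941)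
 (nat_lit 17179869184) .dd))))) (.ch (nat_lit 28) (.ev (nat_lit 816) (nat_lit 2322735493546240) (.ev (nat_lit
 916) (nat_lit 1125899906846720) (.ev (nat_lit 925) (nat_lit 147573952589676412928) .dd))))))))))))))))))) (.br
 (nat_lit 31) (.br (nat_lit 29) (.ch (nat_lit 28) (.ev (nat_lit 52) (nat_lit 590586380590094784786) (.ev
 (nat_lit 84) (nat_lit 18447025548686786688) (.ev (nat_lit 116) (nat_lit 8388640) (.ev (nat_lit 244) (nat_lit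
 295147905179352825856) (.ev (nat_lit 400) (nat_lit 549755813888) (.nd (nat_lit 800) (.br (nat_lit 19) (.br
 (nat_lit 6) (.br (nat_lit 1) (.ch (nat_lit 0) (.ev (nat_lit 816) (nat_lit 36894614047326011392) (.ev (nat_lit
 1024) (nat_lit 147574515539629834240) .dd))) (.br (nat_lit 2) (.ch (nat_lit 1) (.ev (nat_lit 816) (nat_lit
 184469129586955845632) .dd)) (.ch (nat_lit 2) (.ev (nat_lit 816) (nat_lit 1688849860263936) (.ev (nat_lit 916)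
 (nat_lit 184467440737095516160) (.ev (nat_lit 925) (nat_lit 65536) .dd)))))) (.br (nat_lit 12) (.ch (nat_lit
 6) (.ev (nat_lit 816) (nat_lit 184468566637002424320) (.ev (nat_lit 829) (nat_lit 562949953421312) .dd))) (.br
 (nat_lit 15) (.ch (nat_lit 12) (.ev (nat_lit 816) (nat_lit 184469129586955845632) .dd)) (.ch (nat_lit 15) (.ev
 (nat_lit 816) (nat_lit 36894051097372590080) (.ev (nat_lit 916) (nat_lit 147573952589676412928) (.ev (nat_lit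
 925) (nat_lit 1125899906842624) .dd))))))) (.br (nat_lit 24) (.br (nat_lit 20) (.ch (nat_lit 19) (.ev (nat_lit
 816) (nat_lit 184469129586955845632) .dd)) (.br (nat_lit 21) (.ch (nat_lit 20) (.ev (nat_lit 816) (nat_lit
 184469129586955845632) .dd)) (.ch (nat_lit 21) (.ev (nat_lit 816) (nat_lit 147574515539629899776) (.fin
 (nat_lit 576461302059713084)))))) (.br (nat_lit 28) (.br (nat_lit 26) (.ch (nat_lit 24) (.ev (nat_lit 816)
 (nat_lit 184468003687049003008) (.ev (nat_lit 829) (nat_lit 1125899906842624) .dd))) (.ch (nat_lit 26) (.ev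
 (nat_lit 816) (nat_lit 184469129586955845632) .dd))) (.br (nat_lit 29) (.ch (nat_lit 28) (.ev (nat_lit 816)
 (nat_lit 1688849860263936) (.ev (nat_lit 1012) (nat_lit 36893488147419168768) (.ev (nat_lit 1021) (nat_lit
 147573952589676412928) .dd)))) (.ch (nat_lit 29) (.ev (nat_lit 816) (nat_lit 184469129586955845632)
 .dd))))))))))))) (.ch (nat_lit 29) (.ev (nat_lit 52) (nat_lit 18447658953287500080) (.ev (nat_lit 64) (nat_lit
 1070202782501566945410) .dd)))) (.br (nat_lit 32) (.ch (nat_lit 31) (.ev (nat_lit 52) (nat_lit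
 166311759939844968736) (.ev (nat_lit 64) (nat_lit 922338681515009476754) .dd))) (.ch (nat_lit 32) (.ev
 (nat_lit 52) (nat_lit 608743187845602641936) (.ev (nat_lit 64) (nat_lit 479907253609251803554) .dd)))))) (.br
 (nat_lit 42) (.br (nat_lit 36) (.br (nat_lit 35) (.ch (nat_lit 33) (.ev (nat_lit 52) (nat_lit
 774766629353871638546) (.ev (nat_lit 84) (nat_lit 18734974467041200256) (.ev (nat_lit 116) (nat_lit
 281474976714752) (.ev (nat_lit 148) (nat_lit 17592186044416) (.ev (nat_lit 180) (nat_lit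
 295147905179352825856) (.ev (nat_lit 212) (nat_lit 68719476736) (.nd (nat_lit 800) (.br (nat_lit 12) (.br
 (nat_lit 2) (.br (nat_lit 1) (.ch (nat_lit 0) (.ev (nat_lit 816) (nat_lit 633318698123520) (.ev (nat_lit 1012)
 (nat_lit 8388608) (.ev (nat_lit 1520) (nat_lit 32800) .dd)))) (.ch (nat_lit 1) (.ev (nat_lit 816) (nat_lit
 562949953945888) (.ev (nat_lit 848) (nat_lit 8388608) (.ev (nat_lit 896) (nat_lit 32768) (.ev (nat_lit 909)
 (nat_lit 70368744177664) .dd)))))) (.br (nat_lit 4) (.ch (nat_lit 2) (.ev (nat_lit 816) (nat_lit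
 633318706544928) .dd)) (.br (nat_lit 6) (.ch (nat_lit 4) (.ev (nat_lit 816) (nat_lit 562949961810208) (.ev
 (nat_lit 1012) (nat_lit 524288) (.ev (nat_lit 1296) (nat_lit 70368744177664) (.ev (nat_lit 1309) (nat_lit
 32768) .dd))))) (.ch (nat_lit 6) (.ev (nat_lit 816) (nat_lit 8945952) (.ev (nat_lit 864) (nat_lit
 562949953421312) (.ev (nat_lit 877) (nat_lit 70368744177664) .dd))))))) (.br (nat_lit 27) (.br (nat_lit 21)
 (.ch (nat_lit 12) (.ev (nat_lit 816) (nat_lit 70368753090848) (.ev (nat_lit 916) (nat_lit 562949953421312)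
 (.ev (nat_lit 925) (nat_lit 32768) .dd)))) (.br (nat_lit 24) (.ch (nat_lit 21) (.ev (nat_lit 816) (nat_lit
 633318705987872) (.ev (nat_lit 944) (nat_lit 524288) (.ev (nat_lit 957) (nat_lit 32768) .dd)))) (.ch (nat_lit
 24) (.ev (nat_lit 816) (nat_lit 562949953978624) (.ev (nat_lit 960) (nat_lit 8388608) (.ev (nat_lit 1296)
 (nat_lit 70368744177664) (.ev (nat_lit 1309) (nat_lit 32) .dd))))))) (.br (nat_lit 28) (.ch (nat_lit 27) (.ev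
 (nat_lit 816) (nat_lit 633318706544672) (.ev (nat_lit 829) (nat_lit 256) .dd))) (.br (nat_lit 29) (.ch
 (nat_lit 28) (.ev (nat_lit 816) (nat_lit 70368753123616) (.ev (nat_lit 829) (nat_lit 562949953421312) .dd)))
 (.ch (nat_lit 29) (.ev (nat_lit 816) (nat_lit 633318706544928) .dd)))))))))))))) (.ch (nat_lit 35) (.ev
 (nat_lit 52) (nat_lit 18450685281738164480) (.ev (nat_lit 64) (nat_lit 1070199756173116281010) .dd)))) (.br
 (nat_lit 38) (.ch (nat_lit 36) (.ev (nat_lit 52) (nat_lit 313885430582098264242) (.ev (nat_lit 84) (nat_lit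
 36893488147423330304) (.ev (nat_lit 116) (nat_lit 4352) (.ev (nat_lit 148) (nat_lit 590295810358705651712)
 (.ev (nat_lit 192) (nat_lit 147575712366627194880) .dd)))))) (.ch (nat_lit 38) (.ev (nat_lit 52) (nat_lit
 461456832785835198464) (.ev (nat_lit 64) (nat_lit 627193608669019247026) .dd))))) (.br (nat_lit 45) (.br
 (nat_lit 44) (.ch (nat_lit 42) (.ev (nat_lit 52) (nat_lit 350492096217867716656) (.ev (nat_lit 84) (nat_lit
 288230376151712128) (.ev (nat_lit 116) (nat_lit 281474985103360) (.ev (nat_lit 212) (nat_lit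
 147573952589680607232) (.nd (nat_lit 800) (.br (nat_lit 19) (.br (nat_lit 5) (.br (nat_lit 1) (.ch (nat_lit 0)
 (.ev (nat_lit 816) (nat_lit 2) (.ev (nat_lit 1040) (nat_lit 590295810358705651712) (.ev (nat_lit 1412)
 (nat_lit 68719476736) (.ev (nat_lit 1421) (nat_lit 70368744177664) .dd))))) (.ch (nat_lit 1) (.ev (nat_lit
 816) (nat_lit 590295810427425128450) (.ev (nat_lit 829) (nat_lit 70368744177664) .dd)))) (.br (nat_lit 13)
 (.ch (nat_lit 5) (.ev (nat_lit 816) (nat_lit 590295880796169306114) .dd)) (.br (nat_lit 18) (.ch (nat_lit 13)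
 (.ev (nat_lit 816) (nat_lit 590295810427425128450) (.ev (nat_lit 829) (nat_lit 70368744177664) .dd))) (.ch
 (nat_lit 18) (.ev (nat_lit 816) (nat_lit 590295880796169306114) .dd))))) (.br (nat_lit 25) (.br (nat_lit 21)
 (.ch (nat_lit 19) (.ev (nat_lit 816) (nat_lit 590295880796169306114) .dd)) (.br (nat_lit 24) (.ch (nat_lit 21)
 (.ev (nat_lit 816) (nat_lit 68719476738) (.ev (nat_lit 848) (nat_lit 590295810358705651712) (.ev (nat_lit 861)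
 (nat_lit 70368744177664) .dd)))) (.ch (nat_lit 24) (.ev (nat_lit 816) (nat_lit 590295880796169306114) .dd))))
 (.br (nat_lit 26) (.ch (nat_lit 25) (.ev (nat_lit 816) (nat_lit 590295810427425128448) (.ev (nat_lit 1012)
 (nat_lit 2) (.ev (nat_lit 1021) (nat_lit 70368744177664) .dd)))) (.br (nat_lit 28) (.ch (nat_lit 26) (.ev
 (nat_lit 816) (nat_lit 590295880796169306114) .dd)) (.ch (nat_lit 28) (.ev (nat_lit 816) (nat_lit
 70368744177666) (.ev (nat_lit 916) (nat_lit 590295810358705651712) (.ev (nat_lit 925) (nat_lit 68719476736)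
 .dd)))))))))))))) (.ch (nat_lit 44) (.ev (nat_lit 52) (nat_lit 627477810907009063072) (.ev (nat_lit 64)
 (nat_lit 461172630547845382418) .dd)))) (.br (nat_lit 46) (.ch (nat_lit 45) (.ev (nat_lit 52) (nat_lit
 904179622451089539472) (.ev (nat_lit 84) (nat_lit 36894614047326011394) (.ev (nat_lit 148) (nat_lit
 17179873280) (.ev (nat_lit 180) (nat_lit 549755813888) (.ev (nat_lit 244) (nat_lit 2251799813685248) (.nd
 (nat_lit 800) (.br (nat_lit 13) (.br (nat_lit 5) (.br (nat_lit 4) (.ch (nat_lit 2) (.ev (nat_lit 816) (nat_lit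
 13107232) (.ev (nat_lit 832) (nat_lit 2048) (.ev (nat_lit 845) (nat_lit 147573952589676412928) .dd)))) (.ch
 (nat_lit 4) (.ev (nat_lit 816) (nat_lit 147573952589684803616) (.ev (nat_lit 928) (nat_lit 4194304) (.ev
 (nat_lit 941) (nat_lit 524288) .dd))))) (.br (nat_lit 12) (.ch (nat_lit 5) (.ev (nat_lit 816) (nat_lit
 13109248) (.ev (nat_lit 880) (nat_lit 32) (.ev (nat_lit 893) (nat_lit 147573952589676412928) .dd)))) (.ch
 (nat_lit 12) (.ev (nat_lit 816) (nat_lit 147573952589689520160) (.ev (nat_lit 829) (nat_lit 2048) .dd)))))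
 (.br (nat_lit 19) (.br (nat_lit 18) (.ch (nat_lit 13) (.ev (nat_lit 816) (nat_lit 13109280) (.ev (nat_lit 829)
 (nat_lit 147573952589676412928) .dd))) (.ch (nat_lit 18) (.ev (nat_lit 816) (nat_lit 147573952589685327872)
 (.ev (nat_lit 1012) (nat_lit 32) (.ev (nat_lit 1021) (nat_lit 4194304) .dd))))) (.br (nat_lit 20) (.ch
 (nat_lit 19) (.ev (nat_lit 816) (nat_lit 147573952589688997920) (.ev (nat_lit 829) (nat_lit 524288) .dd)))
 (.br (nat_lit 21) (.ch (nat_lit 20) (.ev (nat_lit 816) (nat_lit 147573952589689522176) (.ev (nat_lit 829)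
 (nat_lit 32) .dd))) (.ch (nat_lit 21) (.ev (nat_lit 816) (nat_lit 147573952589680609312) (.ev (nat_lit 864)
 (nat_lit 524288) (.ev (nat_lit 877) (nat_lit 8388608) .dd))))))))))))))) (.ch (nat_lit 46) (.ev (nat_lit 52)
 (nat_lit 479907816086746728480) (.ev (nat_lit 84) (nat_lit 18446744623469559824) (.ev (nat_lit 192) (nat_lit
 590295880744638157186) .dd)))))))))))

/-- Subtrie. -/
noncomputable def T6 : Tr := (.ev (nat_lit 20) (nat_lit 1204101889341113010466) (.nd (nat_lit 33) (.br (nat_lit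
 25) (.br (nat_lit 14) (.br (nat_lit 5) (.br (nat_lit 2) (.ch (nat_lit 1) (.ev (nat_lit 52) (nat_lit
 737914952876283924632) (.ev (nat_lit 84) (nat_lit 67108864) (.ev (nat_lit 116) (nat_lit 2147483648) (.ev
 (nat_lit 160) (nat_lit 332044225763214950400) .dd))))) (.br (nat_lit 3) (.ch (nat_lit 2) (.ev (nat_lit 52)
 (nat_lit 885482559162221858944) (.ev (nat_lit 84) (nat_lit 17594333528072) (.ev (nat_lit 116) (nat_lit
 145135534866432) (.ev (nat_lit 180) (nat_lit 36893488147419103232) (.ev (nat_lit 212) (nat_lit 16) (.nd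
 (nat_lit 800) (.br (nat_lit 7) (.br (nat_lit 5) (.br (nat_lit 1) (.ch (nat_lit 0) (.ev (nat_lit 816) (nat_lit
 147582968585024241664) (.ev (nat_lit 829) (nat_lit 17179869184) .dd))) (.ch (nat_lit 1) (.ev (nat_lit 816)
 (nat_lit 9016012527632384) (.ev (nat_lit 1012) (nat_lit 65536) (.ev (nat_lit 1021) (nat_lit
 147573952589676412928) .dd))))) (.br (nat_lit 6) (.ch (nat_lit 5) (.ev (nat_lit 816) (nat_lit 8813272956928)
 (.ev (nat_lit 848) (nat_lit 9007199254740992) (.ev (nat_lit 861) (nat_lit 147573952589676412928) .dd)))) (.ch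
 (nat_lit 6) (.ev (nat_lit 816) (nat_lit 9016012527632384) (.ev (nat_lit 1156) (nat_lit 65536) (.ev (nat_lit
 1165) (nat_lit 147573952589676412928) .dd)))))) (.br (nat_lit 13) (.br (nat_lit 11) (.ch (nat_lit 7) (.ev
 (nat_lit 816) (nat_lit 147582968602204110848) .dd)) (.ch (nat_lit 11) (.ev (nat_lit 816) (nat_lit
 147573961402949369856) (.ev (nat_lit 829) (nat_lit 9007199254740992) .dd)))) (.br (nat_lit 14) (.ch (nat_lit
 13) (.ev (nat_lit 816) (nat_lit 9007216434675712) (.ev (nat_lit 916) (nat_lit 147573952589676412928) (.ev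
 (nat_lit 925) (nat_lit 8796093022208) .dd)))) (.br (nat_lit 18) (.ch (nat_lit 14) (.ev (nat_lit 816) (nat_lit
 147582959806111088640) (.ev (nat_lit 829) (nat_lit 8796093022208) .dd))) (.ch (nat_lit 18) (.ev (nat_lit 816)
 (nat_lit 147582968585024176128) (.ev (nat_lit 916) (nat_lit 17179869184) (.ev (nat_lit 925) (nat_lit 65536)
 .dd))))))))))))))) (.ch (nat_lit 3) (.ev (nat_lit 52) (nat_lit 184504041351027884056) (.ev (nat_lit 84)
 (nat_lit 590295810358706241664) (.ev (nat_lit 116) (nat_lit 2251799813685248) (.ev (nat_lit 148) (nat_lit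
 9024791440785408) (.nd (nat_lit 800) (.br (nat_lit 14) (.br (nat_lit 6) (.br (nat_lit 1) (.ch (nat_lit 0) (.ev
 (nat_lit 816) (nat_lit 295148045942678355968) (.ev (nat_lit 916) (nat_lit 4398046511104) (.ev (nat_lit 925)
 (nat_lit 4096) .dd)))) (.br (nat_lit 2) (.ch (nat_lit 1) (.ev (nat_lit 816) (nat_lit 295147909594646319104)
 (.ev (nat_lit 1012) (nat_lit 262144) (.ev (nat_lit 1024) (nat_lit 140746078289920) .dd)))) (.ch (nat_lit 2)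
 (.ev (nat_lit 816) (nat_lit 295148050340724871168) .dd)))) (.br (nat_lit 7) (.ch (nat_lit 6) (.ev (nat_lit
 816) (nat_lit 295147909603236515840) (.ev (nat_lit 829) (nat_lit 140737488355328) .dd))) (.br (nat_lit 9) (.ch
 (nat_lit 7) (.ev (nat_lit 816) (nat_lit 295148050332067827712) (.ev (nat_lit 1104) (nat_lit 8589934592) (.ev
 (nat_lit 1117) (nat_lit 67108864) .dd)))) (.ch (nat_lit 9) (.ev (nat_lit 816) (nat_lit 295147909603236515840)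
 (.ev (nat_lit 829) (nat_lit 140737488355328) .dd)))))) (.br (nat_lit 18) (.br (nat_lit 15) (.ch (nat_lit 14)
 (.ev (nat_lit 816) (nat_lit 145161304674304) (.ev (nat_lit 916) (nat_lit 262144) (.ev (nat_lit 1012) (nat_lit
 295147905179352825856) (.ev (nat_lit 1021) (nat_lit 67108864) .dd))))) (.br (nat_lit 16) (.ch (nat_lit 15)
 (.ev (nat_lit 816) (nat_lit 295148050323544739840) (.ev (nat_lit 928) (nat_lit 262144) (.ev (nat_lit 941)
 (nat_lit 17179869184) .dd)))) (.ch (nat_lit 16) (.ev (nat_lit 816) (nat_lit 145144192172032) (.ev (nat_lit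
 916) (nat_lit 4096) (.ev (nat_lit 1024) (nat_lit 295147905179352825856) (.ev (nat_lit 1037) (nat_lit
 17179869184) .dd))))))) (.br (nat_lit 24) (.br (nat_lit 19) (.ch (nat_lit 18) (.ev (nat_lit 816) (nat_lit
 295148050323545001984) (.ev (nat_lit 829) (nat_lit 17179869184) .dd))) (.ch (nat_lit 19) (.ev (nat_lit 816)
 (nat_lit 295148045934088421376) (.ev (nat_lit 916) (nat_lit 4096) (.ev (nat_lit 1136) (nat_lit 4406636445696)
 .dd))))) (.br (nat_lit 26) (.ch (nat_lit 24) (.ev (nat_lit 816) (nat_lit 145161304936448) (.ev (nat_lit 916)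
 (nat_lit 295147905179352825856) (.ev (nat_lit 925) (nat_lit 67108864) .dd)))) (.ch (nat_lit 26) (.ev (nat_lit
 816) (nat_lit 295148045942678360064) (.ev (nat_lit 829) (nat_lit 4398046511104) .dd))))))))))))))) (.br
 (nat_lit 11) (.br (nat_lit 9) (.ch (nat_lit 5) (.ev (nat_lit 52) (nat_lit 442730869368545349784) (.ev (nat_lit
 116) (nat_lit 36894059893465546752) (.ev (nat_lit 148) (nat_lit 17592186044416) (.ev (nat_lit 180) (nat_lit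
 68719476736) (.ev (nat_lit 212) (nat_lit 65536) (.nd (nat_lit 800) (.br (nat_lit 12) (.br (nat_lit 6) (.br
 (nat_lit 1) (.ch (nat_lit 0) (.ev (nat_lit 816) (nat_lit 140737488355328) (.ev (nat_lit 916) (nat_lit
 36028805608898560) (.ev (nat_lit 1012) (nat_lit 17180393472) (.ev (nat_lit 1488) (nat_lit
 590295810358705651712) (.ev (nat_lit 1501) (nat_lit 2251799813685248) .dd)))))) (.br (nat_lit 2) (.ch (nat_lit
 1) (.ev (nat_lit 816) (nat_lit 36169551687188480) (.ev (nat_lit 1236) (nat_lit 524288) (.ev (nat_lit 1332)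
 (nat_lit 2251799813685248) (.ev (nat_lit 1360) (nat_lit 590295810367295586304) .dd))))) (.ch (nat_lit 2) (.ev
 (nat_lit 816) (nat_lit 590334231718796984320) .dd)))) (.br (nat_lit 9) (.ch (nat_lit 6) (.ev (nat_lit 816)
 (nat_lit 590334231718796984320) .dd)) (.br (nat_lit 11) (.ch (nat_lit 9) (.ev (nat_lit 816) (nat_lit
 590334090964128759808) (.ev (nat_lit 1024) (nat_lit 17179869184) (.ev (nat_lit 1037) (nat_lit 140737488355328)
 .dd)))) (.ch (nat_lit 11) (.ev (nat_lit 816) (nat_lit 590334090981308628992) (.ev (nat_lit 829) (nat_lit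
 140737488355328) .dd)))))) (.br (nat_lit 23) (.br (nat_lit 14) (.ch (nat_lit 12) (.ev (nat_lit 816) (nat_lit
 590334231718796984320) .dd)) (.br (nat_lit 19) (.ch (nat_lit 14) (.ev (nat_lit 816) (nat_lit
 36028822789292032) (.ev (nat_lit 1188) (nat_lit 140737488355328) (.ev (nat_lit 1520) (nat_lit
 2251799813685248) (.ev (nat_lit 1533) (nat_lit 590295810358705651712) .dd))))) (.ch (nat_lit 19) (.ev (nat_lit
 816) (nat_lit 590334231701616590848) (.ev (nat_lit 1012) (nat_lit 17179869184) (.ev (nat_lit 1021) (nat_lit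
 524288) .dd)))))) (.br (nat_lit 26) (.br (nat_lit 24) (.ch (nat_lit 23) (.ev (nat_lit 816) (nat_lit
 590334090981308628992) (.ev (nat_lit 829) (nat_lit 140737488355328) .dd))) (.ch (nat_lit 24) (.ev (nat_lit
 816) (nat_lit 36169551687188480) (.ev (nat_lit 1156) (nat_lit 524288) (.ev (nat_lit 1332) (nat_lit
 590295810358705651712) (.ev (nat_lit 1616) (nat_lit 2251808403619840) .dd)))))) (.br (nat_lit 29) (.ch
 (nat_lit 26) (.ev (nat_lit 816) (nat_lit 36169560277647360) (.ev (nat_lit 1508) (nat_lit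
 590295810358705651712) (.ev (nat_lit 1517) (nat_lit 2251799813685248) .dd)))) (.ch (nat_lit 29) (.ev (nat_lit
 816) (nat_lit 590334231710206525440) (.ev (nat_lit 916) (nat_lit 524288) (.ev (nat_lit 925) (nat_lit
 8589934592) .dd))))))))))))))) (.ch (nat_lit 9) (.ev (nat_lit 52) (nat_lit 332086446923889250320) (.ev
 (nat_lit 84) (nat_lit 140737488420864) (.ev (nat_lit 116) (nat_lit 262272) (.ev (nat_lit 148) (nat_lit
 2147483648) (.ev (nat_lit 192) (nat_lit 737872590978188050440) .dd))))))) (.br (nat_lit 12) (.ch (nat_lit 11)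
 (.ev (nat_lit 52) (nat_lit 1069956913568235913216) (.ev (nat_lit 116) (nat_lit 68719476736) (.ev (nat_lit 128)
 (nat_lit 2265004758077592) .dd)))) (.ch (nat_lit 12) (.ev (nat_lit 52) (nat_lit 295148076703234130064) (.ev
 (nat_lit 84) (nat_lit 147573952589676412928) (.ev (nat_lit 96) (nat_lit 627237149348802924552) .dd))))))) (.br
 (nat_lit 19) (.br (nat_lit 16) (.br (nat_lit 15) (.ch (nat_lit 14) (.ev (nat_lit 52) (nat_lit 154019675045896)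
 (.ev (nat_lit 84) (nat_lit 36028797018963968) (.ev (nat_lit 116) (nat_lit 590295827959481630720) (.ev (nat_lit
 148) (nat_lit 9007199254740992) (.ev (nat_lit 180) (nat_lit 562949953421312) (.ev (nat_lit 212) (nat_lit
 36893488147419103232) (.nd (nat_lit 800) (.br (nat_lit 15) (.br (nat_lit 11) (.br (nat_lit 6) (.ch (nat_lit 1)
 (.ev (nat_lit 816) (nat_lit 442721857769096351744) (.ev (nat_lit 928) (nat_lit 2251799813685248) (.ev (nat_lit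
 1332) (nat_lit 524288) (.ev (nat_lit 1584) (nat_lit 144) .dd))))) (.br (nat_lit 7) (.ch (nat_lit 6) (.ev
 (nat_lit 816) (nat_lit 442724109568910561424) .dd)) (.ch (nat_lit 7) (.ev (nat_lit 816) (nat_lit
 442724109568910561424) .dd)))) (.br (nat_lit 12) (.ch (nat_lit 11) (.ev (nat_lit 816) (nat_lit
 147576204389490626704) (.fin (nat_lit 576448107945345614)))) (.br (nat_lit 14) (.ch (nat_lit 12) (.ev (nat_lit
 816) (nat_lit 442724109568910561424) .dd)) (.ch (nat_lit 14) (.ev (nat_lit 816) (nat_lit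
 147573952589676941456) (.ev (nat_lit 916) (nat_lit 295147905179352825856) (.ev (nat_lit 1012) (nat_lit
 2251799813685248) (.ev (nat_lit 1021) (nat_lit 67108864) .dd)))))))) (.br (nat_lit 19) (.br (nat_lit 16) (.ch
 (nat_lit 15) (.ev (nat_lit 816) (nat_lit 295147905179352825856) (.ev (nat_lit 916) (nat_lit 2251799813685376)
 (.ev (nat_lit 1012) (nat_lit 67108864) (.ev (nat_lit 1488) (nat_lit 16) (.ev (nat_lit 1508) (nat_lit
 147573952589676937216) (.ev (nat_lit 1517) (nat_lit 4096) .dd))))))) (.br (nat_lit 18) (.ch (nat_lit 16) (.ev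
 (nat_lit 816) (nat_lit 442721857769096876048) (.ev (nat_lit 916) (nat_lit 128) (.ev (nat_lit 925) (nat_lit
 2251799813685248) .dd)))) (.ch (nat_lit 18) (.ev (nat_lit 816) (nat_lit 442724109568910561424) .dd)))) (.br
 (nat_lit 24) (.br (nat_lit 23) (.ch (nat_lit 19) (.ev (nat_lit 816) (nat_lit 295150156979233624192) (.ev
 (nat_lit 1508) (nat_lit 16) (.ev (nat_lit 1520) (nat_lit 524288) (.ev (nat_lit 1533) (nat_lit
 147573952589676412928) .dd))))) (.ch (nat_lit 23) (.ev (nat_lit 816) (nat_lit 147576204389490626704) (.ev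
 (nat_lit 916) (nat_lit 295147905179352825856) (.ev (nat_lit 925) (nat_lit 67108864) .dd))))) (.br (nat_lit 26)
 (.ch (nat_lit 24) (.ev (nat_lit 816) (nat_lit 147576204389557211264) (.ev (nat_lit 1024) (nat_lit
 295147905179352825856) (.ev (nat_lit 1536) (nat_lit 524304) .dd)))) (.ch (nat_lit 26) (.ev (nat_lit 816)
 (nat_lit 295147905179419934720) (.ev (nat_lit 1254) (nat_lit 147576204389490626704) .dd))))))))))))))) (.ch
 (nat_lit 15) (.ev (nat_lit 52) (nat_lit 885446108146228269200) (.ev (nat_lit 116) (nat_lit 567347999932416)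
 (.ev (nat_lit 148) (nat_lit 36929534536624177152) (.ev (nat_lit 224) (nat_lit 147582968610861088776) .dd))))))
 (.br (nat_lit 18) (.ch (nat_lit 16) (.ev (nat_lit 52) (nat_lit 479651541839234990208) (.ev (nat_lit 84)
 (nat_lit 590295810358705651720) (.ev (nat_lit 116) (nat_lit 17179869184) (.ev (nat_lit 160) (nat_lit
 11826426592956432) .dd))))) (.ch (nat_lit 18) (.ev (nat_lit 52) (nat_lit 1033029067875096268928) (.ev (nat_lit
 84) (nat_lit 17592186044416) (.ev (nat_lit 116) (nat_lit 36893488147419103232) (.ev (nat_lit 148) (nat_lit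
 4398046511104) (.ev (nat_lit 180) (nat_lit 68719476752) (.nd (nat_lit 800) (.br (nat_lit 12) (.br (nat_lit 5)
 (.br (nat_lit 1) (.ch (nat_lit 0) (.ev (nat_lit 816) (nat_lit 36600560245538824) (.ev (nat_lit 829) (nat_lit
 524288) .dd))) (.br (nat_lit 2) (.ch (nat_lit 1) (.ev (nat_lit 816) (nat_lit 36600560245800968) (.ev (nat_lit
 829) (nat_lit 262144) .dd))) (.ch (nat_lit 2) (.ev (nat_lit 816) (nat_lit 36600560246063112) .dd)))) (.br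
 (nat_lit 7) (.ch (nat_lit 5) (.ev (nat_lit 816) (nat_lit 36591746973171712) (.ev (nat_lit 944) (nat_lit 8)
 (.ev (nat_lit 1680) (nat_lit 8813272891392) .dd)))) (.br (nat_lit 11) (.ch (nat_lit 7) (.ev (nat_lit 816)
 (nat_lit 571763226837000) (.ev (nat_lit 916) (nat_lit 262144) (.ev (nat_lit 925) (nat_lit 36028797018963968)
 .dd)))) (.ch (nat_lit 11) (.ev (nat_lit 816) (nat_lit 36600560246063104) (.ev (nat_lit 829) (nat_lit 8)
 .dd)))))) (.br (nat_lit 16) (.br (nat_lit 13) (.ch (nat_lit 12) (.ev (nat_lit 816) (nat_lit 36600560246063112)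
 .dd)) (.br (nat_lit 15) (.ch (nat_lit 13) (.ev (nat_lit 816) (nat_lit 36600560246063112) .dd)) (.ch (nat_lit
 15) (.ev (nat_lit 816) (nat_lit 562949953683464) (.ev (nat_lit 848) (nat_lit 36028797018963968) (.ev (nat_lit
 1012) (nat_lit 17179869184) (.ev (nat_lit 1168) (nat_lit 524288) (.ev (nat_lit 1181) (nat_lit 8796093022208)
 .dd)))))))) (.br (nat_lit 19) (.br (nat_lit 18) (.ch (nat_lit 16) (.ev (nat_lit 816) (nat_lit
 36600543066193920) (.ev (nat_lit 1156) (nat_lit 8) (.ev (nat_lit 1165) (nat_lit 17179869184) .dd)))) (.ch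
 (nat_lit 18) (.ev (nat_lit 816) (nat_lit 36600543065669632) (.ev (nat_lit 916) (nat_lit 8) (.ev (nat_lit 1012)
 (nat_lit 524288) (.ev (nat_lit 1021) (nat_lit 17179869184) .dd)))))) (.br (nat_lit 26) (.ch (nat_lit 19) (.ev
 (nat_lit 816) (nat_lit 36037610291855368) (.ev (nat_lit 928) (nat_lit 524288) (.ev (nat_lit 1120) (nat_lit
 262144) (.ev (nat_lit 1133) (nat_lit 562949953421312) .dd))))) (.ch (nat_lit 26) (.ev (nat_lit 816) (nat_lit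
 36591764152516616) (.ev (nat_lit 1156) (nat_lit 8796093022208) (.ev (nat_lit 1165) (nat_lit 524288)
 .dd))))))))))))))))) (.br (nat_lit 21) (.br (nat_lit 20) (.ch (nat_lit 19) (.ev (nat_lit 52) (nat_lit
 590334099846120935440) (.ev (nat_lit 84) (nat_lit 4398047035392) (.ev (nat_lit 116) (nat_lit 9024791440785416)
 (.ev (nat_lit 180) (nat_lit 562949953421312) (.ev (nat_lit 212) (nat_lit 128) (.ev (nat_lit 276) (nat_lit
 36893488147419103232) (.nd (nat_lit 800) (.br (nat_lit 12) (.br (nat_lit 5) (.br (nat_lit 1) (.ch (nat_lit 0)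
 (.ev (nat_lit 816) (nat_lit 295148045919055773696) (.ev (nat_lit 829) (nat_lit 147573952589676412928) .dd)))
 (.br (nat_lit 2) (.ch (nat_lit 1) (.ev (nat_lit 816) (nat_lit 442721857771243831296) (.ev (nat_lit 829)
 (nat_lit 140737488355328) .dd))) (.ch (nat_lit 2) (.ev (nat_lit 816) (nat_lit 442721998508732186624) .dd))))
 (.br (nat_lit 9) (.ch (nat_lit 5) (.ev (nat_lit 816) (nat_lit 147574093329312251904) (.ev (nat_lit 928)
 (nat_lit 67108864) (.ev (nat_lit 941) (nat_lit 295147905179352825856) .dd)))) (.br (nat_lit 11) (.ch (nat_lit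
 9) (.ev (nat_lit 816) (nat_lit 442721857771243831296) (.ev (nat_lit 829) (nat_lit 140737488355328) .dd))) (.ch
 (nat_lit 11) (.ev (nat_lit 816) (nat_lit 147574093329312251904) (.fin (nat_lit 576448107945345614))))))) (.br
 (nat_lit 15) (.br (nat_lit 13) (.ch (nat_lit 12) (.ev (nat_lit 816) (nat_lit 442721998506584702976) (.ev
 (nat_lit 829) (nat_lit 2147483648) .dd))) (.br (nat_lit 14) (.ch (nat_lit 13) (.ev (nat_lit 816) (nat_lit
 295148045919055773696) (.ev (nat_lit 829) (nat_lit 147573952589676412928) .dd))) (.ch (nat_lit 14) (.ev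
 (nat_lit 816) (nat_lit 442721857771243831296) (.ev (nat_lit 829) (nat_lit 140737488355328) .dd))))) (.br
 (nat_lit 24) (.br (nat_lit 18) (.ch (nat_lit 15) (.ev (nat_lit 816) (nat_lit 295148045918988664832) (.ev
 (nat_lit 1012) (nat_lit 67108864) (.ev (nat_lit 1021) (nat_lit 147573952589676412928) .dd)))) (.ch (nat_lit
 18) (.ev (nat_lit 816) (nat_lit 147574093327164768256) (.ev (nat_lit 916) (nat_lit 295147905179352825856) (.ev
 (nat_lit 944) (nat_lit 67108864) (.ev (nat_lit 957) (nat_lit 2147483648) .dd)))))) (.br (nat_lit 29) (.ch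
 (nat_lit 24) (.ev (nat_lit 816) (nat_lit 147574093327231877120) (.ev (nat_lit 916) (nat_lit
 295147905179352825856) (.ev (nat_lit 925) (nat_lit 2147483648) .dd)))) (.ch (nat_lit 29) (.ev (nat_lit 816)
 (nat_lit 442721998506584702976) (.ev (nat_lit 829) (nat_lit 2147483648) .dd))))))))))))))) (.ch (nat_lit 20)
 (.ev (nat_lit 52) (nat_lit 774763391921337208968) (.ev (nat_lit 84) (nat_lit 36028797018963968) (.ev (nat_lit
 116) (nat_lit 295147905179352825856) (.ev (nat_lit 148) (nat_lit 2251799880794112) (.ev (nat_lit 180) (nat_lit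
 562949953421312) (.ev (nat_lit 224) (nat_lit 9037994170253328) .dd)))))))) (.br (nat_lit 22) (.ch (nat_lit 21)
 (.ev (nat_lit 52) (nat_lit 737881725660662927496) (.ev (nat_lit 84) (nat_lit 2147483648) (.ev (nat_lit 116)
 (nat_lit 8864812498960) (.ev (nat_lit 148) (nat_lit 21990299664384) (.nd (nat_lit 800) (.br (nat_lit 12) (.br
 (nat_lit 5) (.br (nat_lit 1) (.ch (nat_lit 0) (.ev (nat_lit 816) (nat_lit 36893488147419103232) (.ev (nat_lit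
 916) (nat_lit 36028797018963968) (.ev (nat_lit 925) (nat_lit 295147905179352825856) .dd)))) (.ch (nat_lit 1)
 (.ev (nat_lit 816) (nat_lit 332041393326771929088) (.ev (nat_lit 829) (nat_lit 36028797018963968) .dd)))) (.br
 (nat_lit 9) (.ch (nat_lit 5) (.ev (nat_lit 816) (nat_lit 36028797018963968) (.fin (nat_lit
 576453605500338741)))) (.ch (nat_lit 9) (.ev (nat_lit 816) (nat_lit 295183933976371789824) (.ev (nat_lit 829)
 (nat_lit 36893488147419103232) .dd))))) (.br (nat_lit 23) (.br (nat_lit 14) (.ch (nat_lit 12) (.ev (nat_lit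
 816) (nat_lit 332077422123790893056) .dd)) (.ch (nat_lit 14) (.ev (nat_lit 816) (nat_lit
 332077422123790893056) .dd))) (.br (nat_lit 26) (.ch (nat_lit 23) (.ev (nat_lit 816) (nat_lit
 295147905179352825856) (.ev (nat_lit 1156) (nat_lit 36028797018963968) (.ev (nat_lit 1165) (nat_lit
 36893488147419103232) .dd)))) (.br (nat_lit 29) (.ch (nat_lit 26) (.ev (nat_lit 816) (nat_lit
 332077422123790893056) .dd)) (.ch (nat_lit 29) (.ev (nat_lit 816) (nat_lit 36929516944438067200) (.ev (nat_lit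
 829) (nat_lit 295147905179352825856) .dd))))))))))))) (.ch (nat_lit 22) (.ev (nat_lit 52) (nat_lit
 737908606512348598400) (.ev (nat_lit 84) (nat_lit 67108864) (.ev (nat_lit 116) (nat_lit 140739635838976) (.ev
 (nat_lit 148) (nat_lit 295147905179352825856) (.ev (nat_lit 180) (nat_lit 9007199254741008) (.ev (nat_lit 544)
 (nat_lit 4398046511104) (.nd (nat_lit 800) (.br (nat_lit 12) (.br (nat_lit 9) (.br (nat_lit 6) (.ch (nat_lit
 2) (.ev (nat_lit 816) (nat_lit 36893505816914821128) (.ev (nat_lit 829) (nat_lit 8796093022208) .dd))) (.ch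
 (nat_lit 6) (.ev (nat_lit 816) (nat_lit 36893514604417908744) (.ev (nat_lit 829) (nat_lit 8589934592) .dd))))
 (.br (nat_lit 11) (.ch (nat_lit 9) (.ev (nat_lit 816) (nat_lit 36893497020821798920) (.ev (nat_lit 829)
 (nat_lit 17592186044416) .dd))) (.ch (nat_lit 11) (.ev (nat_lit 816) (nat_lit 8804683218944) (.ev (nat_lit
 1012) (nat_lit 8) (.ev (nat_lit 1024) (nat_lit 17592186044416) (.ev (nat_lit 1120) (nat_lit
 36893488216138579968) .dd))))))) (.br (nat_lit 15) (.br (nat_lit 13) (.ch (nat_lit 12) (.ev (nat_lit 816)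
 (nat_lit 36893514613007843336) .dd)) (.ch (nat_lit 13) (.ev (nat_lit 816) (nat_lit 36893505808324886536) (.ev
 (nat_lit 1012) (nat_lit 8589934592) (.ev (nat_lit 1021) (nat_lit 8796093022208) .dd))))) (.br (nat_lit 24)
 (.ch (nat_lit 15) (.ev (nat_lit 816) (nat_lit 36893505816914558984) (.ev (nat_lit 944) (nat_lit 8796093022208)
 (.ev (nat_lit 957) (nat_lit 262144) .dd)))) (.br (nat_lit 29) (.ch (nat_lit 24) (.ev (nat_lit 816) (nat_lit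
 36893514604417908744) (.ev (nat_lit 829) (nat_lit 8589934592) .dd))) (.ch (nat_lit 29) (.ev (nat_lit 816)
 (nat_lit 36893514613007843328) (.ev (nat_lit 829) (nat_lit 8) .dd))))))))))))))))))) (.br (nat_lit 33) (.br
 (nat_lit 28) (.br (nat_lit 26) (.ch (nat_lit 25) (.ev (nat_lit 52) (nat_lit 147612796207329448064) (.ev
 (nat_lit 84) (nat_lit 885443715538058477576) (.ev (nat_lit 116) (nat_lit 67108864) (.ev (nat_lit 148) (nat_lit
 8821862825984) (.ev (nat_lit 212) (nat_lit 262144) (.ev (nat_lit 416) (nat_lit 16) (.nd (nat_lit 800) (.br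
 (nat_lit 13) (.br (nat_lit 7) (.br (nat_lit 6) (.ch (nat_lit 1) (.ev (nat_lit 816) (nat_lit
 36902658074395344896) .dd)) (.ch (nat_lit 6) (.ev (nat_lit 816) (nat_lit 36902658074395279360) (.ev (nat_lit
 829) (nat_lit 65536) .dd)))) (.br (nat_lit 11) (.ch (nat_lit 7) (.ev (nat_lit 816) (nat_lit
 36902517336906989568) (.ev (nat_lit 829) (nat_lit 140737488355328) .dd))) (.ch (nat_lit 11) (.ev (nat_lit 816)
 (nat_lit 9007199255330816) (.ev (nat_lit 1012) (nat_lit 36893488147419103232) (.ev (nat_lit 1024) (nat_lit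
 140737488355328) (.ev (nat_lit 1120) (nat_lit 21990232555520) .dd))))))) (.br (nat_lit 16) (.br (nat_lit 15)
 (.ch (nat_lit 13) (.ev (nat_lit 816) (nat_lit 36902658074395344896) .dd)) (.ch (nat_lit 15) (.ev (nat_lit 816)
 (nat_lit 36902658074394755072) (.ev (nat_lit 1012) (nat_lit 65536) (.ev (nat_lit 1021) (nat_lit 524288)
 .dd))))) (.br (nat_lit 19) (.ch (nat_lit 16) (.ev (nat_lit 816) (nat_lit 9169926976241664) (.ev (nat_lit 829)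
 (nat_lit 36893488147419103232) .dd))) (.br (nat_lit 24) (.ch (nat_lit 19) (.ev (nat_lit 816) (nat_lit
 36893650875140079616) (.ev (nat_lit 944) (nat_lit 524288) (.ev (nat_lit 957) (nat_lit 9007199254740992)
 .dd)))) (.ch (nat_lit 24) (.ev (nat_lit 816) (nat_lit 36902658074394820608) (.ev (nat_lit 829) (nat_lit
 524288) .dd))))))))))))))) (.br (nat_lit 27) (.ch (nat_lit 26) (.ev (nat_lit 52) (nat_lit
 36903075983369961600) (.ev (nat_lit 84) (nat_lit 4096) (.ev (nat_lit 148) (nat_lit 295183933978519273472) (.ev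
 (nat_lit 180) (nat_lit 2251799813685248) (.ev (nat_lit 212) (nat_lit 140737488355336) (.nd (nat_lit 800) (.br
 (nat_lit 15) (.br (nat_lit 5) (.br (nat_lit 2) (.ch (nat_lit 0) (.ev (nat_lit 816) (nat_lit
 737869776142522187776) (.ev (nat_lit 829) (nat_lit 16) .dd))) (.ch (nat_lit 2) (.ev (nat_lit 816) (nat_lit
 737869767346429165584) (.ev (nat_lit 829) (nat_lit 8796093022208) .dd)))) (.br (nat_lit 7) (.ch (nat_lit 5)
 (.ev (nat_lit 816) (nat_lit 737869776142522187792) .dd)) (.br (nat_lit 14) (.ch (nat_lit 7) (.ev (nat_lit 816)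
 (nat_lit 737869776142522187776) (.ev (nat_lit 829) (nat_lit 16) .dd))) (.ch (nat_lit 14) (.ev (nat_lit 816)
 (nat_lit 147573956987723513872) (.ev (nat_lit 916) (nat_lit 8796093022208) (.ev (nat_lit 925) (nat_lit
 590295810358705651712) .dd))))))) (.br (nat_lit 23) (.br (nat_lit 16) (.ch (nat_lit 15) (.ev (nat_lit 816)
 (nat_lit 147573965783816011776) (.ev (nat_lit 916) (nat_lit 524288) (.ev (nat_lit 1280) (nat_lit
 590295810358705651712) (.ev (nat_lit 1293) (nat_lit 16) .dd))))) (.br (nat_lit 18) (.ch (nat_lit 16) (.ev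
 (nat_lit 816) (nat_lit 737869776142522187792) .dd)) (.ch (nat_lit 18) (.ev (nat_lit 816) (nat_lit
 147573961385769959440) (.ev (nat_lit 1296) (nat_lit 590295810358705651712) (.fin (nat_lit
 576462401575535169))))))) (.br (nat_lit 24) (.ch (nat_lit 23) (.ev (nat_lit 816) (nat_lit
 737869776142522187792) .dd)) (.br (nat_lit 26) (.ch (nat_lit 24) (.ev (nat_lit 816) (nat_lit
 737869776142521663488) (.ev (nat_lit 944) (nat_lit 524288) (.ev (nat_lit 957) (nat_lit 16) .dd)))) (.ch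
 (nat_lit 26) (.ev (nat_lit 816) (nat_lit 13194140123136) (.ev (nat_lit 896) (nat_lit 16) (.ev (nat_lit 944)
 (nat_lit 147573952589676412928) (.ev (nat_lit 957) (nat_lit 590295810358705651712) .dd)))))))))))))))) (.ch
 (nat_lit 27) (.ev (nat_lit 52) (nat_lit 627198886327043031048) (.ev (nat_lit 116) (nat_lit 17179873280) (.ev
 (nat_lit 148) (nat_lit 16) (.ev (nat_lit 180) (nat_lit 786432) (.ev (nat_lit 560) (nat_lit 2251799813685248)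
 (.nd (nat_lit 800) (.br (nat_lit 12) (.br (nat_lit 5) (.br (nat_lit 2) (.ch (nat_lit 1) (.ev (nat_lit 816)
 (nat_lit 147574106521304301696) (.ev (nat_lit 928) (nat_lit 36028797018963968) (.ev (nat_lit 941) (nat_lit
 295147905179352825856) .dd)))) (.ch (nat_lit 2) (.ev (nat_lit 816) (nat_lit 295148059110980714624) (.ev
 (nat_lit 832) (nat_lit 147573952589676412928) (.ev (nat_lit 845) (nat_lit 36028797018963968) .dd))))) (.br
 (nat_lit 9) (.ch (nat_lit 5) (.ev (nat_lit 816) (nat_lit 36182728646852608) (.ev (nat_lit 1024) (nat_lit 128)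
 (.ev (nat_lit 1156) (nat_lit 147573952589676412928) (.ev (nat_lit 1165) (nat_lit 295147905179352825856)
 .dd))))) (.ch (nat_lit 9) (.ev (nat_lit 816) (nat_lit 442757899760187736064) (.ev (nat_lit 916) (nat_lit 128)
 (.ev (nat_lit 925) (nat_lit 140737488355328) .dd)))))) (.br (nat_lit 15) (.br (nat_lit 13) (.ch (nat_lit 12)
 (.ev (nat_lit 816) (nat_lit 442758036099629580416) (.ev (nat_lit 829) (nat_lit 4398046511104) .dd))) (.ch
 (nat_lit 13) (.ev (nat_lit 816) (nat_lit 36173932553830528) (.ev (nat_lit 1024) (nat_lit 8796093022208) (.ev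
 (nat_lit 1156) (nat_lit 295147905179352825856) (.ev (nat_lit 1165) (nat_lit 147573952589676412928) .dd))))))
 (.br (nat_lit 19) (.ch (nat_lit 15) (.ev (nat_lit 816) (nat_lit 295184087907999678464) (.ev (nat_lit 916)
 (nat_lit 147573952589676412928) (.ev (nat_lit 925) (nat_lit 128) .dd)))) (.br (nat_lit 23) (.ch (nat_lit 19)
 (.ev (nat_lit 816) (nat_lit 442757895362141225088) (.ev (nat_lit 916) (nat_lit 4398046511104) (.ev (nat_lit
 925) (nat_lit 140737488355328) .dd)))) (.ch (nat_lit 23) (.ev (nat_lit 816) (nat_lit 147574093327164768384)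
 (.ev (nat_lit 916) (nat_lit 36028797018963968) (.ev (nat_lit 944) (nat_lit 4398046511104) (.ev (nat_lit 1760)
 (nat_lit 295147913975445848064) .dd)))))))))))))))))) (.br (nat_lit 31) (.br (nat_lit 29) (.ch (nat_lit 28)
 (.ev (nat_lit 52) (nat_lit 590298079845194928144) (.ev (nat_lit 84) (nat_lit 147574093327231877120) (.ev
 (nat_lit 116) (nat_lit 65536) (.ev (nat_lit 148) (nat_lit 36028797018963968) (.ev (nat_lit 180) (nat_lit
 36894051097372524544) (.ev (nat_lit 368) (nat_lit 2147483648) (.nd (nat_lit 800) (.br (nat_lit 6) (.br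
 (nat_lit 2) (.br (nat_lit 1) (.ch (nat_lit 0) (.ev (nat_lit 816) (nat_lit 295156921174700589064) (.ev (nat_lit
 916) (nat_lit 524288) (.ev (nat_lit 976) (nat_lit 128) (.ev (nat_lit 989) (nat_lit 4398046511104) .dd)))))
 (.ch (nat_lit 1) (.ev (nat_lit 816) (nat_lit 295156925572747624584) .dd))) (.br (nat_lit 5) (.ch (nat_lit 2)
 (.ev (nat_lit 816) (nat_lit 295156916776654602368) (.ev (nat_lit 916) (nat_lit 8) (.ev (nat_lit 925) (nat_lit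
 8796093022208) .dd)))) (.ch (nat_lit 5) (.ev (nat_lit 816) (nat_lit 9020393394798592) (.ev (nat_lit 832)
 (nat_lit 8) (.fin (nat_lit 576465700110418516))))))) (.br (nat_lit 9) (.br (nat_lit 7) (.ch (nat_lit 6) (.ev
 (nat_lit 816) (nat_lit 295156925572747624576) (.ev (nat_lit 829) (nat_lit 8) .dd))) (.ch (nat_lit 7) (.ev
 (nat_lit 816) (nat_lit 9020393394798728) (.ev (nat_lit 829) (nat_lit 295147905179352825856) .dd)))) (.br
 (nat_lit 15) (.ch (nat_lit 9) (.ev (nat_lit 816) (nat_lit 295156916776654602240) (.ev (nat_lit 916) (nat_lit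
 128) (.ev (nat_lit 1012) (nat_lit 8) (.ev (nat_lit 1021) (nat_lit 8796093022208) .dd))))) (.br (nat_lit 24)
 (.ch (nat_lit 15) (.ev (nat_lit 816) (nat_lit 295156925572747624584) .dd)) (.ch (nat_lit 24) (.ev (nat_lit
 816) (nat_lit 295147909577399861384) (.ev (nat_lit 976) (nat_lit 8796093022208) (.ev (nat_lit 989) (nat_lit
 9007199254740992) .dd)))))))))))))))) (.ch (nat_lit 29) (.ev (nat_lit 52) (nat_lit 36741366520545296) (.ev
 (nat_lit 84) (nat_lit 147573970181862461440) (.ev (nat_lit 116) (nat_lit 4398046511104) (.ev (nat_lit 180)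
 (nat_lit 9007199254740992) (.ev (nat_lit 212) (nat_lit 590295810360853135360) (.ev (nat_lit 244) (nat_lit
 2251799813685248) (.ev (nat_lit 432) (nat_lit 524288) (.nd (nat_lit 800) (.br (nat_lit 13) (.br (nat_lit 5)
 (.br (nat_lit 2) (.ch (nat_lit 1) (.ev (nat_lit 816) (nat_lit 332041393326771929224) (.ev (nat_lit 829)
 (nat_lit 8589934592) .dd))) (.ch (nat_lit 2) (.ev (nat_lit 816) (nat_lit 332041393335361863808) (.ev (nat_lit
 829) (nat_lit 8) .dd)))) (.br (nat_lit 7) (.ch (nat_lit 5) (.ev (nat_lit 816) (nat_lit 8589934728) (.fin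
 (nat_lit 576453605500338741)))) (.br (nat_lit 11) (.ch (nat_lit 7) (.ev (nat_lit 816) (nat_lit
 36893488156009037960) (.ev (nat_lit 829) (nat_lit 295147905179352825856) .dd))) (.ch (nat_lit 11) (.ev
 (nat_lit 816) (nat_lit 295147905187942760576) (.ev (nat_lit 1040) (nat_lit 36893488147419103240) .dd))))))
 (.br (nat_lit 23) (.br (nat_lit 14) (.ch (nat_lit 13) (.ev (nat_lit 816) (nat_lit 332041393326771929216) (.ev
 (nat_lit 880) (nat_lit 8) (.ev (nat_lit 893) (nat_lit 8589934592) .dd)))) (.br (nat_lit 16) (.ch (nat_lit 14)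
 (.ev (nat_lit 816) (nat_lit 36893488147419103368) (.ev (nat_lit 1188) (nat_lit 295147905179352825856) (.ev
 (nat_lit 1197) (nat_lit 8589934592) .dd)))) (.ch (nat_lit 16) (.ev (nat_lit 816) (nat_lit
 332041393335361863816) .dd)))) (.br (nat_lit 26) (.ch (nat_lit 23) (.ev (nat_lit 816) (nat_lit
 332041393335361863816) .dd)) (.br (nat_lit 29) (.ch (nat_lit 26) (.ev (nat_lit 816) (nat_lit
 332041393326771929096) (.ev (nat_lit 1056) (nat_lit 128) (.ev (nat_lit 1069) (nat_lit 8589934592) .dd)))) (.ch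
 (nat_lit 29) (.ev (nat_lit 816) (nat_lit 332041393326771929216) (.ev (nat_lit 1012) (nat_lit 8) (.ev (nat_lit
 1021) (nat_lit 8589934592) .dd)))))))))))))))))) (.br (nat_lit 32) (.ch (nat_lit 31) (.ev (nat_lit 52)
 (nat_lit 147585800937781858312) (.ev (nat_lit 84) (nat_lit 590331839155725139968) (.ev (nat_lit 148) (nat_lit
 295147905179352825856) (.ev (nat_lit 180) (nat_lit 16) (.nd (nat_lit 800) (.br (nat_lit 15) (.br (nat_lit 7)
 (.br (nat_lit 1) (.ch (nat_lit 0) (.ev (nat_lit 816) (nat_lit 36893488216138842240) (.ev (nat_lit 916)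
 (nat_lit 140737488420864) (.ev (nat_lit 992) (nat_lit 4398046511104) (.ev (nat_lit 1005) (nat_lit 17179869184)
 .dd))))) (.br (nat_lit 2) (.ch (nat_lit 1) (.ev (nat_lit 816) (nat_lit 36893492631365025792) (.ev (nat_lit
 916) (nat_lit 140737488355328) (.ev (nat_lit 928) (nat_lit 262144) (.ev (nat_lit 941) (nat_lit 128) .dd)))))
 (.ch (nat_lit 2) (.ev (nat_lit 816) (nat_lit 36893633368853643392) .dd)))) (.br (nat_lit 9) (.ch (nat_lit 7)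
 (.ev (nat_lit 816) (nat_lit 36893633300133904512) (.ev (nat_lit 832) (nat_lit 262144) (.ev (nat_lit 845)
 (nat_lit 68719476736) .dd)))) (.br (nat_lit 14) (.ch (nat_lit 9) (.ev (nat_lit 816) (nat_lit 145221434540032)
 (.ev (nat_lit 916) (nat_lit 36893488147419103232) (.ev (nat_lit 925) (nat_lit 128) .dd)))) (.ch (nat_lit 14)
 (.ev (nat_lit 816) (nat_lit 140823388028928) (.ev (nat_lit 1012) (nat_lit 4398046511104) (.ev (nat_lit 1024)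
 (nat_lit 36893488147419103232) (.ev (nat_lit 1037) (nat_lit 128) .dd)))))))) (.br (nat_lit 23) (.br (nat_lit
 18) (.ch (nat_lit 15) (.ev (nat_lit 816) (nat_lit 36893633368853577856) (.ev (nat_lit 829) (nat_lit 65536)
 .dd))) (.br (nat_lit 19) (.ch (nat_lit 18) (.ev (nat_lit 816) (nat_lit 36893628884907786368) (.ev (nat_lit
 916) (nat_lit 17179869184) (.ev (nat_lit 992) (nat_lit 4398046511104) (.ev (nat_lit 1005) (nat_lit
 68719476736) .dd))))) (.ch (nat_lit 19) (.ev (nat_lit 816) (nat_lit 36893488216138907776) (.ev (nat_lit 916)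
 (nat_lit 4415226380288) (.ev (nat_lit 925) (nat_lit 140737488355328) .dd)))))) (.br (nat_lit 26) (.br (nat_lit
 24) (.ch (nat_lit 23) (.ev (nat_lit 816) (nat_lit 140823387766912) (.ev (nat_lit 916) (nat_lit
 36893488147419103232) (.ev (nat_lit 960) (nat_lit 4398046773248) .dd)))) (.ch (nat_lit 24) (.ev (nat_lit 816)
 (nat_lit 36893633368853643392) .dd))) (.br (nat_lit 29) (.ch (nat_lit 26) (.ev (nat_lit 816) (nat_lit
 36893628970807132288) (.ev (nat_lit 829) (nat_lit 4398046511104) .dd))) (.ch (nat_lit 29) (.ev (nat_lit 816)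
 (nat_lit 36893628970807132288) (.ev (nat_lit 829) (nat_lit 4398046511104) .dd))))))))))))) (.ch (nat_lit 32)
 (.ev (nat_lit 52) (nat_lit 590305393798757744656) (.ev (nat_lit 84) (nat_lit 147573952589676412928) (.ev
 (nat_lit 148) (nat_lit 8) (.ev (nat_lit 180) (nat_lit 2251799813951488) (.ev (nat_lit 212) (nat_lit
 36028797018963968) (.ev (nat_lit 276) (nat_lit 36893488147419103232) (.nd (nat_lit 800) (.br (nat_lit 11) (.br
 (nat_lit 6) (.br (nat_lit 5) (.ch (nat_lit 0) (.ev (nat_lit 816) (nat_lit 295148063509027291264) .dd)) (.ch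
 (nat_lit 5) (.ev (nat_lit 816) (nat_lit 158329674465280) (.nd (nat_lit 1808) (.br (nat_lit 11) (.ch (nat_lit
 4) (.ev (nat_lit 1824) (nat_lit 295147905179352825984) .dd)) (.ch (nat_lit 11) (.fin (nat_lit
 576465700110418516)))))))) (.br (nat_lit 7) (.ch (nat_lit 6) (.ev (nat_lit 816) (nat_lit
 295147922771538935936) (.ev (nat_lit 829) (nat_lit 140737488355328) .dd))) (.br (nat_lit 9) (.ch (nat_lit 7)
 (.ev (nat_lit 816) (nat_lit 295147922771538935936) (.ev (nat_lit 829) (nat_lit 140737488355328) .dd))) (.ch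
 (nat_lit 9) (.ev (nat_lit 816) (nat_lit 295148063509027225600) (.ev (nat_lit 944) (nat_lit 128) (.ev (nat_lit
 957) (nat_lit 65536) .dd))))))) (.br (nat_lit 19) (.br (nat_lit 12) (.ch (nat_lit 11) (.ev (nat_lit 816)
 (nat_lit 295148045916841246848) (.ev (nat_lit 829) (nat_lit 17592186044416) .dd))) (.br (nat_lit 18) (.ch
 (nat_lit 12) (.ev (nat_lit 816) (nat_lit 295148063509027291264) .dd)) (.ch (nat_lit 18) (.ev (nat_lit 816)
 (nat_lit 295148063509027291264) .dd)))) (.br (nat_lit 23) (.ch (nat_lit 19) (.ev (nat_lit 816) (nat_lit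
 295147922771538935808) (.ev (nat_lit 928) (nat_lit 128) (.ev (nat_lit 941) (nat_lit 140737488355328) .dd))))
 (.br (nat_lit 29) (.ch (nat_lit 23) (.ev (nat_lit 816) (nat_lit 295148045916841246848) (.ev (nat_lit 829)
 (nat_lit 17592186044416) .dd))) (.ch (nat_lit 29) (.ev (nat_lit 816) (nat_lit 158329674465408) (.ev (nat_lit
 829) (nat_lit 295147905179352825856) .dd)))))))))))))))))) (.br (nat_lit 42) (.br (nat_lit 36) (.br (nat_lit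
 35) (.ch (nat_lit 33) (.ev (nat_lit 52) (nat_lit 774765516100558913552) (.ev (nat_lit 116) (nat_lit
 36591746972647424) (.ev (nat_lit 148) (nat_lit 295147905179352825864) (.ev (nat_lit 180) (nat_lit 68719476736)
 (.ev (nat_lit 212) (nat_lit 140737488420864) (.nd (nat_lit 800) (.br (nat_lit 13) (.br (nat_lit 7) (.br
 (nat_lit 1) (.ch (nat_lit 0) (.ev (nat_lit 816) (nat_lit 9024808620658688) (.ev (nat_lit 916) (nat_lit 128)
 (.ev (nat_lit 925) (nat_lit 524288) .dd)))) (.ch (nat_lit 1) (.ev (nat_lit 816) (nat_lit 9024808621183104)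
 .dd))) (.br (nat_lit 9) (.ch (nat_lit 7) (.ev (nat_lit 816) (nat_lit 9007216435138688) (.ev (nat_lit 829)
 (nat_lit 17592186044416) .dd))) (.ch (nat_lit 9) (.ev (nat_lit 816) (nat_lit 9007216435134592) (.ev (nat_lit
 928) (nat_lit 4096) (.ev (nat_lit 941) (nat_lit 17592186044416) .dd)))))) (.br (nat_lit 18) (.br (nat_lit 15)
 (.ch (nat_lit 13) (.ev (nat_lit 816) (nat_lit 9024808621179008) (.ev (nat_lit 829) (nat_lit 4096) .dd))) (.ch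
 (nat_lit 15) (.ev (nat_lit 816) (nat_lit 9024808620658688) (.ev (nat_lit 928) (nat_lit 128) (.ev (nat_lit 941)
 (nat_lit 524288) .dd))))) (.br (nat_lit 23) (.ch (nat_lit 18) (.ev (nat_lit 816) (nat_lit 9007199255265408)
 (.ev (nat_lit 1040) (nat_lit 4096) (.ev (nat_lit 1776) (nat_lit 17609365913600) .dd)))) (.br (nat_lit 26) (.ch
 (nat_lit 23) (.ev (nat_lit 816) (nat_lit 528512) (.ev (nat_lit 1012) (nat_lit 9007216434610176) (.ev (nat_lit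
 1021) (nat_lit 17592186044416) .dd)))) (.ch (nat_lit 26) (.ev (nat_lit 816) (nat_lit 17609366441984) (.ev
 (nat_lit 832) (nat_lit 9007199254740992) (.ev (nat_lit 845) (nat_lit 128) .dd))))))))))))))) (.ch (nat_lit 35)
 (.ev (nat_lit 52) (nat_lit 38997487071526912) (.ev (nat_lit 84) (nat_lit 885443715538058481664) (.ev (nat_lit
 116) (nat_lit 8) (.ev (nat_lit 160) (nat_lit 184476465616583458960) .dd)))))) (.br (nat_lit 38) (.ch (nat_lit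
 36) (.ev (nat_lit 52) (nat_lit 295159186256767746200) (.ev (nat_lit 84) (nat_lit 184467440737095516160) (.ev
 (nat_lit 116) (nat_lit 8796093022208) (.ev (nat_lit 148) (nat_lit 140737488355328) (.ev (nat_lit 212) (nat_lit
 524288) (.ev (nat_lit 308) (nat_lit 8589934592) (.nd (nat_lit 800) (.br (nat_lit 14) (.br (nat_lit 12) (.br
 (nat_lit 11) (.ch (nat_lit 6) (.ev (nat_lit 816) (nat_lit 590332402105678106624) (.ev (nat_lit 829) (nat_lit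
 262144) .dd))) (.ch (nat_lit 11) (.ev (nat_lit 816) (nat_lit 590296373308659404800) (.ev (nat_lit 829)
 (nat_lit 36028797018963968) .dd)))) (.br (nat_lit 13) (.ch (nat_lit 12) (.ev (nat_lit 816) (nat_lit
 590332402105678368768) .dd)) (.ch (nat_lit 13) (.ev (nat_lit 816) (nat_lit 590331839155724881920) (.ev
 (nat_lit 944) (nat_lit 562949953421312) (.ev (nat_lit 957) (nat_lit 65536) .dd)))))) (.br (nat_lit 23) (.br
 (nat_lit 18) (.ch (nat_lit 14) (.ev (nat_lit 816) (nat_lit 590332402105678106624) (.ev (nat_lit 829) (nat_lit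
 262144) .dd))) (.ch (nat_lit 18) (.ev (nat_lit 816) (nat_lit 590331839155724877824) (.ev (nat_lit 916)
 (nat_lit 562949953421312) (.ev (nat_lit 928) (nat_lit 65536) (.ev (nat_lit 941) (nat_lit 4096) .dd)))))) (.br
 (nat_lit 26) (.ch (nat_lit 23) (.ev (nat_lit 816) (nat_lit 562949953753088) (.ev (nat_lit 848) (nat_lit
 36028797018963968) (.ev (nat_lit 861) (nat_lit 590295810358705651712) .dd)))) (.br (nat_lit 29) (.ch (nat_lit
 26) (.ev (nat_lit 816) (nat_lit 590332402105678368768) .dd)) (.ch (nat_lit 29) (.ev (nat_lit 816) (nat_lit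
 590332402105678303232) (.ev (nat_lit 829) (nat_lit 65536) .dd))))))))))))))) (.ch (nat_lit 38) (.ev (nat_lit
 52) (nat_lit 442767047714111553544) (.ev (nat_lit 116) (nat_lit 2147483648) (.ev (nat_lit 160) (nat_lit
 627192130925454430352) .dd)))))) (.br (nat_lit 45) (.br (nat_lit 44) (.ch (nat_lit 42) (.ev (nat_lit 52)
 (nat_lit 332044366431983829008) (.ev (nat_lit 96) (nat_lit 737914812209729638536) .dd))) (.ch (nat_lit 44)
 (.ev (nat_lit 52) (nat_lit 627189311702411841672) (.ev (nat_lit 84) (nat_lit 295147905179352825856) (.ev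
 (nat_lit 96) (nat_lit 147621961759948800016) .dd))))) (.br (nat_lit 46) (.ch (nat_lit 45) (.ev (nat_lit 52)
 (nat_lit 885480470090061447312) (.ev (nat_lit 84) (nat_lit 147573952589676412928) (.ev (nat_lit 148) (nat_lit
 17179869184) (.ev (nat_lit 160) (nat_lit 36904755944795738120) .dd))))) (.ch (nat_lit 46) (.ev (nat_lit 52)
 (nat_lit 479627185535033278464) (.ev (nat_lit 84) (nat_lit 8796093284352) (.ev (nat_lit 116) (nat_lit 16) (.ev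
 (nat_lit 148) (nat_lit 19327352840) (.nd (nat_lit 800) (.br (nat_lit 13) (.br (nat_lit 6) (.br (nat_lit 5)
 (.ch (nat_lit 1) (.ev (nat_lit 816) (nat_lit 590331984291259551744) (.ev (nat_lit 829) (nat_lit 128) .dd)))
 (.ch (nat_lit 5) (.ev (nat_lit 816) (nat_lit 590295955494240583680) (.ev (nat_lit 896) (nat_lit 128) (.ev
 (nat_lit 944) (nat_lit 36028797018963968) (.ev (nat_lit 957) (nat_lit 4096) .dd)))))) (.br (nat_lit 9) (.ch
 (nat_lit 6) (.ev (nat_lit 816) (nat_lit 590331984291259551872) .dd)) (.br (nat_lit 12) (.ch (nat_lit 9) (.ev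
 (nat_lit 816) (nat_lit 36173932553896064) (.ev (nat_lit 916) (nat_lit 590295810358705651712) (.ev (nat_lit
 925) (nat_lit 4096) .dd)))) (.ch (nat_lit 12) (.ev (nat_lit 816) (nat_lit 590331984291259551872) .dd))))) (.br
 (nat_lit 19) (.br (nat_lit 16) (.ch (nat_lit 13) (.ev (nat_lit 816) (nat_lit 36173932553900160) (.ev (nat_lit
 829) (nat_lit 590295810358705651712) .dd))) (.br (nat_lit 18) (.ch (nat_lit 16) (.ev (nat_lit 816) (nat_lit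
 590331843553771196416) (.ev (nat_lit 944) (nat_lit 140737488355328) (.ev (nat_lit 957) (nat_lit 128) .dd))))
 (.ch (nat_lit 18) (.ev (nat_lit 816) (nat_lit 590331979893212971136) (.ev (nat_lit 1332) (nat_lit 4096) (.fin
 (nat_lit 576462401575535169))))))) (.br (nat_lit 24) (.ch (nat_lit 19) (.ev (nat_lit 816) (nat_lit
 590331843553771192320) (.ev (nat_lit 916) (nat_lit 140737488355328) (.ev (nat_lit 1380) (nat_lit 128) (.ev
 (nat_lit 1389) (nat_lit 4096) .dd))))) (.br (nat_lit 29) (.ch (nat_lit 24) (.ev (nat_lit 816) (nat_lit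
 590331984291259551744) (.ev (nat_lit 829) (nat_lit 128) .dd))) (.ch (nat_lit 29) (.ev (nat_lit 816) (nat_lit
 590331984291259551872) .dd)))))))))))))))))))

/-- Subtrie. -/
noncomputable def T8 : Tr := (.ev (nat_lit 20) (nat_lit 1830869753019811336466) (.nd (nat_lit 33) (.br (nat_lit
 25) (.br (nat_lit 14) (.br (nat_lit 5) (.br (nat_lit 2) (.ch (nat_lit 1) (.ev (nat_lit 52) (nat_lit
 147610201564444098728) (.ev (nat_lit 84) (nat_lit 144678704964960256) (.ev (nat_lit 116) (nat_lit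
 288230376223014912) (.ev (nat_lit 148) (nat_lit 295147905179352825856) (.ev (nat_lit 180) (nat_lit
 281543696187392) (.ev (nat_lit 244) (nat_lit 524288) (.nd (nat_lit 800) (.br (nat_lit 16) (.br (nat_lit 12)
 (.br (nat_lit 8) (.ch (nat_lit 3) (.ev (nat_lit 816) (nat_lit 17594333530112) .dd)) (.ch (nat_lit 8) (.ev
 (nat_lit 816) (nat_lit 17594333530112) .dd))) (.br (nat_lit 13) (.ch (nat_lit 12) (.ev (nat_lit 816) (nat_lit
 2147483648) (.ev (nat_lit 916) (nat_lit 2048) (.ev (nat_lit 925) (nat_lit 17592186044416) .dd)))) (.ch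
 (nat_lit 13) (.ev (nat_lit 816) (nat_lit 17592186046464) (.ev (nat_lit 829) (nat_lit 2147483648) .dd))))) (.br
 (nat_lit 18) (.br (nat_lit 17) (.ch (nat_lit 16) (.ev (nat_lit 816) (nat_lit 2048) (.fin (nat_lit
 576442610352603711)))) (.ch (nat_lit 17) (.ev (nat_lit 816) (nat_lit 17594333530112) .dd))) (.br (nat_lit 19)
 (.ch (nat_lit 18) (.ev (nat_lit 816) (nat_lit 17592186044416) (.ev (nat_lit 1156) (nat_lit 2048) (.ev (nat_lit
 1165) (nat_lit 2147483648) .dd)))) (.br (nat_lit 29) (.ch (nat_lit 19) (.ev (nat_lit 816) (nat_lit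
 17594333528064) (.ev (nat_lit 829) (nat_lit 2048) .dd))) (.ch (nat_lit 29) (.ev (nat_lit 816) (nat_lit
 2147485696) (.ev (nat_lit 829) (nat_lit 17592186044416) .dd))))))))))))))) (.br (nat_lit 3) (.ch (nat_lit 2)
 (.ev (nat_lit 52) (nat_lit 295472728195906144384) (.ev (nat_lit 84) (nat_lit 147573952589676412928) (.ev
 (nat_lit 116) (nat_lit 17592186044424) (.ev (nat_lit 148) (nat_lit 32) (.ev (nat_lit 180) (nat_lit
 281474976710656) (.ev (nat_lit 336) (nat_lit 17179869184) (.nd (nat_lit 800) (.br (nat_lit 13) (.br (nat_lit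
 6) (.br (nat_lit 4) (.ch (nat_lit 2) (.ev (nat_lit 816) (nat_lit 144326296996937728) (.ev (nat_lit 829)
 (nat_lit 8796093022208) .dd))) (.ch (nat_lit 4) (.ev (nat_lit 816) (nat_lit 144335093089959936) .dd))) (.br
 (nat_lit 11) (.ch (nat_lit 6) (.ev (nat_lit 816) (nat_lit 144335093089959936) .dd)) (.br (nat_lit 12) (.ch
 (nat_lit 11) (.ev (nat_lit 816) (nat_lit 144194355601604608) (.ev (nat_lit 829) (nat_lit 140737488355328)
 .dd))) (.ch (nat_lit 12) (.ev (nat_lit 816) (nat_lit 144264724345782272) (.ev (nat_lit 829) (nat_lit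
 70368744177664) .dd)))))) (.br (nat_lit 19) (.br (nat_lit 16) (.ch (nat_lit 13) (.ev (nat_lit 816) (nat_lit
 144264722198298624) (.ev (nat_lit 916) (nat_lit 2147483648) (.ev (nat_lit 925) (nat_lit 70368744177664)
 .dd)))) (.br (nat_lit 18) (.ch (nat_lit 16) (.ev (nat_lit 816) (nat_lit 144326294849454080) (.fin (nat_lit
 576461302078587464)))) (.ch (nat_lit 18) (.ev (nat_lit 816) (nat_lit 144335093089959936) .dd)))) (.br (nat_lit
 20) (.ch (nat_lit 19) (.ev (nat_lit 816) (nat_lit 144264724345782272) (.ev (nat_lit 829) (nat_lit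
 70368744177664) .dd))) (.br (nat_lit 29) (.ch (nat_lit 20) (.ev (nat_lit 816) (nat_lit 144335093085765632)
 (.ev (nat_lit 829) (nat_lit 4194304) .dd))) (.ch (nat_lit 29) (.ev (nat_lit 816) (nat_lit 211108384210944)
 (.ev (nat_lit 944) (nat_lit 8796093022208) (.fin (nat_lit 576474496205537867))))))))))))))))) (.ch (nat_lit 3)
 (.ev (nat_lit 52) (nat_lit 147754668666566737928) (.ev (nat_lit 84) (nat_lit 549755813920) (.ev (nat_lit 116)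
 (nat_lit 288230376151711744) (.ev (nat_lit 128) (nat_lit 295148415370540877952) .dd))))))) (.br (nat_lit 11)
 (.br (nat_lit 9) (.ch (nat_lit 5) (.ev (nat_lit 52) (nat_lit 442722209614977304712) (.ev (nat_lit 84) (nat_lit
 140737488355328) (.ev (nat_lit 116) (nat_lit 343597383680) (.ev (nat_lit 148) (nat_lit 17179869184) (.ev
 (nat_lit 180) (nat_lit 8796093546496) (.ev (nat_lit 448) (nat_lit 32) (.ev (nat_lit 726) (nat_lit
 288230376151711744) (.nd (nat_lit 800) (.br (nat_lit 15) (.br (nat_lit 8) (.br (nat_lit 4) (.ch (nat_lit 2)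
 (.ev (nat_lit 816) (nat_lit 180725077526970368) .dd)) (.ch (nat_lit 4) (.ev (nat_lit 816) (nat_lit
 180725077526970368) .dd))) (.br (nat_lit 12) (.ch (nat_lit 8) (.ev (nat_lit 816) (nat_lit 180707485340925952)
 (.ev (nat_lit 829) (nat_lit 17592186044416) .dd))) (.br (nat_lit 13) (.ch (nat_lit 12) (.ev (nat_lit 816)
 (nat_lit 180706935585112064) (.fin (nat_lit 576474496186663496)))) (.ch (nat_lit 13) (.ev (nat_lit 816)
 (nat_lit 180725077526970368) .dd))))) (.br (nat_lit 20) (.br (nat_lit 17) (.ch (nat_lit 15) (.ev (nat_lit 816)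
 (nat_lit 144696280508006400) (.ev (nat_lit 829) (nat_lit 36028797018963968) .dd))) (.br (nat_lit 18) (.ch
 (nat_lit 17) (.ev (nat_lit 816) (nat_lit 180725077526970368) .dd)) (.ch (nat_lit 18) (.ev (nat_lit 816)
 (nat_lit 180725077526970368) .dd)))) (.br (nat_lit 22) (.ch (nat_lit 20) (.ev (nat_lit 816) (nat_lit
 180724527771156480) (.ev (nat_lit 829) (nat_lit 549755813888) .dd))) (.br (nat_lit 29) (.ch (nat_lit 22) (.ev
 (nat_lit 816) (nat_lit 180162127573549056) (.ev (nat_lit 829) (nat_lit 562949953421312) .dd))) (.ch (nat_lit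
 29) (.ev (nat_lit 816) (nat_lit 36592296728199168) (.ev (nat_lit 944) (nat_lit 17592186044416) (.fin (nat_lit
 576474496205537867)))))))))))))))))) (.ch (nat_lit 9) (.ev (nat_lit 52) (nat_lit 295616578608370810912) (.ev
 (nat_lit 96) (nat_lit 147574736354644330632) .dd)))) (.br (nat_lit 12) (.ch (nat_lit 11) (.ev (nat_lit 52)
 (nat_lit 442758678507023763456) (.ev (nat_lit 128) (nat_lit 432636455991378088) .dd))) (.ch (nat_lit 12) (.ev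
 (nat_lit 52) (nat_lit 295580770537769533568) (.ev (nat_lit 84) (nat_lit 562949953421312) (.ev (nat_lit 128)
 (nat_lit 147609981475292186664) .dd))))))) (.br (nat_lit 19) (.br (nat_lit 16) (.br (nat_lit 15) (.ch (nat_lit
 14) (.ev (nat_lit 52) (nat_lit 144335178448242728) (.ev (nat_lit 84) (nat_lit 562949953421312) (.ev (nat_lit
 116) (nat_lit 282025269919744) (.ev (nat_lit 148) (nat_lit 12582912) (.ev (nat_lit 180) (nat_lit
 147573952589676412928) (.ev (nat_lit 244) (nat_lit 274877906944) (.nd (nat_lit 800) (.br (nat_lit 6) (.br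
 (nat_lit 3) (.br (nat_lit 2) (.ch (nat_lit 1) (.ev (nat_lit 816) (nat_lit 295436135555571646592) (.ev (nat_lit
 832) (nat_lit 17592186044416) (.ev (nat_lit 845) (nat_lit 36028797018963968) .dd)))) (.ch (nat_lit 2) (.ev
 (nat_lit 816) (nat_lit 295472181944776654848) (.ev (nat_lit 829) (nat_lit 128) .dd)))) (.br (nat_lit 4) (.ch
 (nat_lit 3) (.ev (nat_lit 816) (nat_lit 295436153147690582144) (.ev (nat_lit 916) (nat_lit 36028797018963968)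
 (.ev (nat_lit 925) (nat_lit 67108864) .dd)))) (.ch (nat_lit 4) (.ev (nat_lit 816) (nat_lit 36046389272117248)
 (.ev (nat_lit 1040) (nat_lit 128) (.ev (nat_lit 1664) (nat_lit 295436135555504537600) .dd)))))) (.br (nat_lit
 12) (.br (nat_lit 9) (.ch (nat_lit 6) (.ev (nat_lit 816) (nat_lit 36028797086072960) (.ev (nat_lit 1012)
 (nat_lit 288247968337756160) (.ev (nat_lit 1021) (nat_lit 295147905179352825856) .dd)))) (.ch (nat_lit 9) (.ev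
 (nat_lit 816) (nat_lit 295436153147690582144) (.ev (nat_lit 928) (nat_lit 36028797018963968) (.ev (nat_lit
 941) (nat_lit 67108864) .dd))))) (.br (nat_lit 19) (.ch (nat_lit 12) (.ev (nat_lit 816) (nat_lit
 324276765423829120) (.ev (nat_lit 829) (nat_lit 295147905179352825856) .dd))) (.br (nat_lit 22) (.ch (nat_lit
 19) (.ev (nat_lit 816) (nat_lit 324276765423828992) (.ev (nat_lit 928) (nat_lit 128) (.ev (nat_lit 941)
 (nat_lit 295147905179352825856) .dd)))) (.ch (nat_lit 22) (.ev (nat_lit 816) (nat_lit 295472181944776654976)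
 .dd)))))))))))))) (.ch (nat_lit 15) (.ev (nat_lit 52) (nat_lit 295292442651298105472) (.ev (nat_lit 84)
 (nat_lit 8813272891392) (.ev (nat_lit 116) (nat_lit 147573952589676412960) (.ev (nat_lit 148) (nat_lit
 70643626278912) (.ev (nat_lit 212) (nat_lit 288230376151711744) (.nd (nat_lit 800) (.br (nat_lit 13) (.br
 (nat_lit 8) (.br (nat_lit 2) (.ch (nat_lit 1) (.ev (nat_lit 816) (nat_lit 562950028918792) (.ev (nat_lit 928)
 (nat_lit 549755813888) (.ev (nat_lit 1056) (nat_lit 17592186044416) (.ev (nat_lit 1069) (nat_lit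
 36028797018963968) .dd))))) (.br (nat_lit 4) (.ch (nat_lit 2) (.ev (nat_lit 816) (nat_lit 36609888981352456)
 (.ev (nat_lit 829) (nat_lit 8388608) .dd))) (.ch (nat_lit 4) (.ev (nat_lit 816) (nat_lit 36046389213396992)
 (.ev (nat_lit 916) (nat_lit 549755813896) (.ev (nat_lit 1012) (nat_lit 562949953421312) (.ev (nat_lit 1021)
 (nat_lit 67108864) .dd))))))) (.br (nat_lit 9) (.ch (nat_lit 8) (.ev (nat_lit 816) (nat_lit 36592296736587784)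
 (.ev (nat_lit 916) (nat_lit 17592186044416) (.ev (nat_lit 925) (nat_lit 67108864) .dd)))) (.br (nat_lit 11)
 (.ch (nat_lit 9) (.ev (nat_lit 816) (nat_lit 581091903668224) (.ev (nat_lit 916) (nat_lit 36028797018963968)
 (.ev (nat_lit 1012) (nat_lit 67108864) (.ev (nat_lit 1021) (nat_lit 8) .dd))))) (.ch (nat_lit 11) (.ev
 (nat_lit 816) (nat_lit 36609888914243592) (.ev (nat_lit 916) (nat_lit 8388608) (.ev (nat_lit 925) (nat_lit
 67108864) .dd))))))) (.br (nat_lit 18) (.br (nat_lit 15) (.ch (nat_lit 13) (.ev (nat_lit 816) (nat_lit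
 36029346841886728) (.ev (nat_lit 832) (nat_lit 562949953421312) (.fin (nat_lit 576456903979647550))))) (.br
 (nat_lit 17) (.ch (nat_lit 15) (.ev (nat_lit 816) (nat_lit 581091970777096) (.ev (nat_lit 829) (nat_lit
 36028797018963968) .dd))) (.ch (nat_lit 17) (.ev (nat_lit 816) (nat_lit 36609888922632192) (.ev (nat_lit 916)
 (nat_lit 8) (.ev (nat_lit 925) (nat_lit 67108864) .dd)))))) (.br (nat_lit 20) (.br (nat_lit 19) (.ch (nat_lit
 18) (.ev (nat_lit 816) (nat_lit 36609888922632200) (.ev (nat_lit 829) (nat_lit 67108864) .dd))) (.ch (nat_lit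
 19) (.ev (nat_lit 816) (nat_lit 36046939036319744) (.ev (nat_lit 916) (nat_lit 562949953421312) (.ev (nat_lit
 925) (nat_lit 8) .dd))))) (.br (nat_lit 22) (.ch (nat_lit 20) (.ev (nat_lit 816) (nat_lit 36609339166818312)
 (.ev (nat_lit 1012) (nat_lit 67108864) (.ev (nat_lit 1021) (nat_lit 549755813888) .dd)))) (.ch (nat_lit 22)
 (.ev (nat_lit 816) (nat_lit 36609888989741064) .dd)))))))))))))) (.br (nat_lit 18) (.ch (nat_lit 16) (.ev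
 (nat_lit 52) (nat_lit 442902521273913442464) (.ev (nat_lit 116) (nat_lit 288230376151711744) (.ev (nat_lit
 148) (nat_lit 67108864) (.ev (nat_lit 180) (nat_lit 68719476736) (.ev (nat_lit 212) (nat_lit 562949953423360)
 (.nd (nat_lit 800) (.br (nat_lit 11) (.br (nat_lit 4) (.br (nat_lit 2) (.ch (nat_lit 1) (.ev (nat_lit 816)
 (nat_lit 294209454080) (.ev (nat_lit 916) (nat_lit 524288) (.ev (nat_lit 925) (nat_lit 8) .dd)))) (.br
 (nat_lit 3) (.ch (nat_lit 2) (.ev (nat_lit 816) (nat_lit 19327877128) (.ev (nat_lit 916) (nat_lit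
 274877906944) (.ev (nat_lit 925) (nat_lit 4194304) .dd)))) (.ch (nat_lit 3) (.ev (nat_lit 816) (nat_lit
 292062494728) (.ev (nat_lit 829) (nat_lit 2147483648) .dd))))) (.br (nat_lit 7) (.ch (nat_lit 4) (.ev (nat_lit
 816) (nat_lit 294209978368) (.ev (nat_lit 829) (nat_lit 8) .dd))) (.br (nat_lit 9) (.ch (nat_lit 7) (.ev
 (nat_lit 816) (nat_lit 294209978376) .dd)) (.ch (nat_lit 9) (.ev (nat_lit 816) (nat_lit 294209978376) .dd)))))
 (.br (nat_lit 17) (.br (nat_lit 15) (.ch (nat_lit 11) (.ev (nat_lit 816) (nat_lit 294205784072) (.ev (nat_lit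
 829) (nat_lit 4194304) .dd))) (.br (nat_lit 16) (.ch (nat_lit 15) (.ev (nat_lit 816) (nat_lit 4194312) (.ev
 (nat_lit 916) (nat_lit 274877906944) (.ev (nat_lit 1012) (nat_lit 524288) (.ev (nat_lit 1056) (nat_lit
 2147483648) (.ev (nat_lit 1069) (nat_lit 17179869184) .dd)))))) (.ch (nat_lit 16) (.ev (nat_lit 816) (nat_lit
 277029584896) (.ev (nat_lit 928) (nat_lit 8) (.ev (nat_lit 1744) (nat_lit 17180393472) .dd)))))) (.br (nat_lit
 19) (.br (nat_lit 18) (.ch (nat_lit 17) (.ev (nat_lit 816) (nat_lit 2148007944) (.ev (nat_lit 1040) (nat_lit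
 4194304) (.ev (nat_lit 1156) (nat_lit 274877906944) (.ev (nat_lit 1165) (nat_lit 17179869184) .dd))))) (.ch
 (nat_lit 18) (.ev (nat_lit 816) (nat_lit 17184587784) (.ev (nat_lit 928) (nat_lit 274877906944) (.ev (nat_lit
 941) (nat_lit 2147483648) .dd))))) (.br (nat_lit 20) (.ch (nat_lit 19) (.ev (nat_lit 816) (nat_lit
 294209978376) .dd)) (.ch (nat_lit 20) (.ev (nat_lit 816) (nat_lit 19331547136) (.ev (nat_lit 916) (nat_lit 8)
 (.ev (nat_lit 1156) (nat_lit 524288) (.ev (nat_lit 1165) (nat_lit 274877906944) .dd)))))))))))))))) (.ch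
 (nat_lit 18) (.ev (nat_lit 52) (nat_lit 443154626372574382208) (.ev (nat_lit 84) (nat_lit 17592722915328) (.ev
 (nat_lit 148) (nat_lit 32) (.ev (nat_lit 180) (nat_lit 524288) (.ev (nat_lit 192) (nat_lit 36670997717319688)
 .dd)))))))) (.br (nat_lit 21) (.br (nat_lit 20) (.ch (nat_lit 19) (.ev (nat_lit 52) (nat_lit
 36108872397621248) (.ev (nat_lit 64) (nat_lit 443155206090617520296) .dd))) (.ch (nat_lit 20) (.ev (nat_lit
 52) (nat_lit 147574374890738286728) (.ev (nat_lit 84) (nat_lit 79164837199872) (.ev (nat_lit 116) (nat_lit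
 180143985094819840) (.ev (nat_lit 148) (nat_lit 288230376151711776) (.ev (nat_lit 180) (nat_lit 2048) (.ev
 (nat_lit 276) (nat_lit 274877906944) (.nd (nat_lit 800) (.br (nat_lit 15) (.br (nat_lit 9) (.br (nat_lit 8)
 (.ch (nat_lit 1) (.ev (nat_lit 816) (nat_lit 295147922771605979136) (.ev (nat_lit 944) (nat_lit 549755813888)
 (.ev (nat_lit 957) (nat_lit 562949953421312) .dd)))) (.ch (nat_lit 8) (.ev (nat_lit 816) (nat_lit
 295148468679129169920) (.ev (nat_lit 829) (nat_lit 17592186044416) .dd)))) (.br (nat_lit 11) (.ch (nat_lit 9)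
 (.ev (nat_lit 816) (nat_lit 295148486271248105472) (.ev (nat_lit 829) (nat_lit 67108864) .dd))) (.br (nat_lit
 12) (.ch (nat_lit 11) (.ev (nat_lit 816) (nat_lit 295148486271248105472) (.ev (nat_lit 829) (nat_lit 67108864)
 .dd))) (.ch (nat_lit 12) (.ev (nat_lit 816) (nat_lit 295148468129373356032) (.nd (nat_lit 1808) (.br (nat_lit
 5) (.ch (nat_lit 1) (.ev (nat_lit 1824) (nat_lit 18141941858304) .dd)) (.ch (nat_lit 5) (.fin (nat_lit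
 576474496186663496)))))))))) (.br (nat_lit 18) (.br (nat_lit 16) (.ch (nat_lit 15) (.ev (nat_lit 816) (nat_lit
 295148486271315214336) .dd)) (.br (nat_lit 17) (.ch (nat_lit 16) (.ev (nat_lit 816) (nat_lit
 295148486271315214336) .dd)) (.ch (nat_lit 17) (.ev (nat_lit 816) (nat_lit 581091962388480) (.ev (nat_lit 829)
 (nat_lit 295147905179352825856) .dd))))) (.br (nat_lit 20) (.ch (nat_lit 18) (.ev (nat_lit 816) (nat_lit
 295148486271315214336) .dd)) (.br (nat_lit 22) (.ch (nat_lit 20) (.ev (nat_lit 816) (nat_lit 580542206574592)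
 (.ev (nat_lit 928) (nat_lit 549755813888) (.ev (nat_lit 941) (nat_lit 295147905179352825856) .dd)))) (.ch
 (nat_lit 22) (.ev (nat_lit 816) (nat_lit 581091962388480) (.ev (nat_lit 829) (nat_lit 295147905179352825856)
 .dd)))))))))))))))) (.br (nat_lit 22) (.ch (nat_lit 21) (.ev (nat_lit 52) (nat_lit 147574938319576367240) (.ev
 (nat_lit 84) (nat_lit 288230376151711744) (.ev (nat_lit 116) (nat_lit 17592186044416) (.ev (nat_lit 128)
 (nat_lit 295328128675101018144) .dd))))) (.ch (nat_lit 22) (.ev (nat_lit 52) (nat_lit 147898845923358802080)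
 (.ev (nat_lit 84) (nat_lit 144115188075855872) (.ev (nat_lit 116) (nat_lit 295147922771547258880) (.ev
 (nat_lit 148) (nat_lit 536872960) (.ev (nat_lit 276) (nat_lit 68719476736) (.ev (nat_lit 656) (nat_lit
 67108864) (.ev (nat_lit 790) (nat_lit 4194304) (.nd (nat_lit 800) (.br (nat_lit 12) (.br (nat_lit 7) (.br
 (nat_lit 3) (.ch (nat_lit 2) (.ev (nat_lit 816) (nat_lit 290273217216520) (.ev (nat_lit 829) (nat_lit
 140737488355328) .dd))) (.ch (nat_lit 3) (.ev (nat_lit 816) (nat_lit 431008558088200) (.ev (nat_lit 829)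
 (nat_lit 2147483648) .dd)))) (.br (nat_lit 9) (.ch (nat_lit 7) (.ev (nat_lit 816) (nat_lit 149533581377544)
 (.fin (nat_lit 576487690322002498)))) (.ch (nat_lit 9) (.ev (nat_lit 816) (nat_lit 8798240505856) (.ev
 (nat_lit 832) (nat_lit 281474976710656) (.ev (nat_lit 944) (nat_lit 8) (.ev (nat_lit 957) (nat_lit
 140737488355328) .dd))))))) (.br (nat_lit 16) (.br (nat_lit 15) (.ch (nat_lit 12) (.ev (nat_lit 816) (nat_lit
 431008558088200) (.ev (nat_lit 829) (nat_lit 2147483648) .dd))) (.ch (nat_lit 15) (.ev (nat_lit 816) (nat_lit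
 2147483656) (.ev (nat_lit 916) (nat_lit 140737488355328) (.ev (nat_lit 1012) (nat_lit 281474976710656) (.ev
 (nat_lit 1021) (nat_lit 8796093022208) .dd)))))) (.br (nat_lit 19) (.ch (nat_lit 16) (.ev (nat_lit 816)
 (nat_lit 140737488355336) (.ev (nat_lit 928) (nat_lit 281474976710656) (.ev (nat_lit 944) (nat_lit
 8796093022208) (.ev (nat_lit 957) (nat_lit 2147483648) .dd))))) (.br (nat_lit 29) (.ch (nat_lit 19) (.ev
 (nat_lit 816) (nat_lit 431010705571840) (.ev (nat_lit 829) (nat_lit 8) .dd))) (.ch (nat_lit 29) (.ev (nat_lit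
 816) (nat_lit 422214612549640) (.ev (nat_lit 829) (nat_lit 8796093022208) .dd)))))))))))))))))))) (.br
 (nat_lit 33) (.br (nat_lit 28) (.br (nat_lit 26) (.ch (nat_lit 25) (.ev (nat_lit 52) (nat_lit
 147898845702171656352) (.ev (nat_lit 84) (nat_lit 536870912) (.ev (nat_lit 96) (nat_lit 295292469260306614280)
 .dd)))) (.br (nat_lit 27) (.ch (nat_lit 26) (.ev (nat_lit 52) (nat_lit 651547146977440) (.ev (nat_lit 84)
 (nat_lit 295292020642314979328) (.ev (nat_lit 116) (nat_lit 36028797018963968) (.ev (nat_lit 148) (nat_lit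
 288230376151711744) (.ev (nat_lit 180) (nat_lit 147574234064653123584) (.nd (nat_lit 800) (.br (nat_lit 15)
 (.br (nat_lit 9) (.br (nat_lit 6) (.ch (nat_lit 3) (.ev (nat_lit 816) (nat_lit 8798241030152) (.ev (nat_lit
 829) (nat_lit 140737488355328) .dd))) (.ch (nat_lit 6) (.ev (nat_lit 816) (nat_lit 149535729385472) (.ev
 (nat_lit 829) (nat_lit 8) .dd)))) (.br (nat_lit 11) (.ch (nat_lit 9) (.ev (nat_lit 816) (nat_lit
 8798241030144) (.ev (nat_lit 916) (nat_lit 8) (.ev (nat_lit 925) (nat_lit 140737488355328) .dd)))) (.ch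
 (nat_lit 11) (.ev (nat_lit 816) (nat_lit 8796093546504) (.ev (nat_lit 916) (nat_lit 2147483648) (.ev (nat_lit
 925) (nat_lit 140737488355328) .dd)))))) (.br (nat_lit 18) (.br (nat_lit 16) (.ch (nat_lit 15) (.ev (nat_lit
 816) (nat_lit 149535728861192) (.ev (nat_lit 829) (nat_lit 524288) .dd))) (.ch (nat_lit 16) (.ev (nat_lit 816)
 (nat_lit 140737488879616) (.ev (nat_lit 1024) (nat_lit 8) (.fin (nat_lit 576461302078587464)))))) (.br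
 (nat_lit 22) (.ch (nat_lit 18) (.ev (nat_lit 816) (nat_lit 140739636363272) (.ev (nat_lit 829) (nat_lit
 8796093022208) .dd))) (.br (nat_lit 29) (.ch (nat_lit 22) (.ev (nat_lit 816) (nat_lit 149535729385480) .dd))
 (.ch (nat_lit 29) (.ev (nat_lit 816) (nat_lit 140739635838976) (.ev (nat_lit 1012) (nat_lit 8796093022208)
 (.ev (nat_lit 1024) (nat_lit 524288) (.ev (nat_lit 1037) (nat_lit 8) .dd)))))))))))))))) (.ch (nat_lit 27)
 (.ev (nat_lit 52) (nat_lit 862088054439976) (.ev (nat_lit 64) (nat_lit 443190452874960701568) .dd))))) (.br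
 (nat_lit 31) (.br (nat_lit 29) (.ch (nat_lit 28) (.ev (nat_lit 52) (nat_lit 432433611061331968) (.ev (nat_lit
 64) (nat_lit 442758881351953809576) .dd))) (.ch (nat_lit 29) (.ev (nat_lit 52) (nat_lit 37093485660078112)
 (.ev (nat_lit 84) (nat_lit 549755813888) (.ev (nat_lit 148) (nat_lit 147573970181862457344) (.ev (nat_lit 180)
 (nat_lit 128) (.ev (nat_lit 244) (nat_lit 8) (.nd (nat_lit 800) (.br (nat_lit 15) (.br (nat_lit 8) (.br
 (nat_lit 4) (.ch (nat_lit 3) (.ev (nat_lit 816) (nat_lit 295580250745736792064) .dd)) (.br (nat_lit 7) (.ch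
 (nat_lit 4) (.ev (nat_lit 816) (nat_lit 432345564236480512) (.ev (nat_lit 916) (nat_lit 295147905179352825856)
 (.ev (nat_lit 1012) (nat_lit 2048) (.ev (nat_lit 1021) (nat_lit 2147483648) .dd))))) (.ch (nat_lit 7) (.ev
 (nat_lit 816) (nat_lit 295580250745736792064) .dd)))) (.br (nat_lit 9) (.ch (nat_lit 8) (.ev (nat_lit 816)
 (nat_lit 295436135557652547584) (.ev (nat_lit 916) (nat_lit 8388608) (.ev (nat_lit 925) (nat_lit
 144115188075855872) .dd)))) (.br (nat_lit 13) (.ch (nat_lit 9) (.ev (nat_lit 816) (nat_lit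
 295580250745736792064) .dd)) (.ch (nat_lit 13) (.ev (nat_lit 816) (nat_lit 295580250745728403456) (.ev
 (nat_lit 829) (nat_lit 8388608) .dd)))))) (.br (nat_lit 19) (.br (nat_lit 16) (.ch (nat_lit 15) (.ev (nat_lit
 816) (nat_lit 432345566383966208) (.ev (nat_lit 829) (nat_lit 295147905179352825856) .dd))) (.br (nat_lit 18)
 (.ch (nat_lit 16) (.ev (nat_lit 816) (nat_lit 432345564236482560) (.ev (nat_lit 1156) (nat_lit
 295147905179352825856) (.ev (nat_lit 1165) (nat_lit 2147483648) .dd)))) (.ch (nat_lit 18) (.ev (nat_lit 816)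
 (nat_lit 295292020369585078272) (.ev (nat_lit 1156) (nat_lit 288230376151711744) (.ev (nat_lit 1165) (nat_lit
 2048) .dd)))))) (.br (nat_lit 22) (.br (nat_lit 20) (.ch (nat_lit 19) (.ev (nat_lit 816) (nat_lit
 295580250745736790016) (.ev (nat_lit 829) (nat_lit 2048) .dd))) (.ch (nat_lit 20) (.ev (nat_lit 816) (nat_lit
 144115188084770816) (.ev (nat_lit 944) (nat_lit 295147905179352825856) (.ev (nat_lit 1792) (nat_lit
 288230378299195392) .dd))))) (.br (nat_lit 29) (.ch (nat_lit 22) (.ev (nat_lit 816) (nat_lit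
 295147905179361738752) (.ev (nat_lit 848) (nat_lit 144115188075855872) (.ev (nat_lit 1012) (nat_lit
 2147483648) (.ev (nat_lit 1168) (nat_lit 2048) (.ev (nat_lit 1181) (nat_lit 288230376151711744) .dd)))))) (.ch
 (nat_lit 29) (.ev (nat_lit 816) (nat_lit 295580250745727877120) (.ev (nat_lit 928) (nat_lit 2048) (.ev
 (nat_lit 1120) (nat_lit 8388608) (.ev (nat_lit 1133) (nat_lit 524288) .dd))))))))))))))))) (.br (nat_lit 32)
 (.ch (nat_lit 31) (.ev (nat_lit 52) (nat_lit 148006888044115263528) (.ev (nat_lit 84) (nat_lit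
 140737488355328) (.ev (nat_lit 128) (nat_lit 295184286181411522688) .dd)))) (.ch (nat_lit 32) (.ev (nat_lit
 52) (nat_lit 642202905085952) (.ev (nat_lit 84) (nat_lit 140738025226240) (.ev (nat_lit 116) (nat_lit
 295148186654329536520) (.ev (nat_lit 212) (nat_lit 549760008192) (.ev (nat_lit 244) (nat_lit 128) (.ev
 (nat_lit 464) (nat_lit 288230376151711744) (.nd (nat_lit 800) (.br (nat_lit 13) (.br (nat_lit 6) (.br (nat_lit
 4) (.ch (nat_lit 1) (.ev (nat_lit 816) (nat_lit 180144259981115392) (.ev (nat_lit 832) (nat_lit 32) (.ev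
 (nat_lit 916) (nat_lit 147573952589676412928) (.ev (nat_lit 925) (nat_lit 17592186044416) .dd))))) (.ch
 (nat_lit 4) (.ev (nat_lit 816) (nat_lit 147573952864562708512) (.ev (nat_lit 1012) (nat_lit
 180143985094819840) (.ev (nat_lit 1021) (nat_lit 17592186044416) .dd))))) (.br (nat_lit 8) (.ch (nat_lit 6)
 (.ev (nat_lit 816) (nat_lit 147754114441835184160) (.ev (nat_lit 829) (nat_lit 8388608) .dd))) (.ch (nat_lit
 8) (.ev (nat_lit 816) (nat_lit 147609981661573283872) (.ev (nat_lit 928) (nat_lit 8388608) (.ev (nat_lit 1012)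
 (nat_lit 17592186044416) (.ev (nat_lit 1021) (nat_lit 144115188075855872) .dd))))))) (.br (nat_lit 18) (.br
 (nat_lit 17) (.ch (nat_lit 13) (.ev (nat_lit 816) (nat_lit 147754096849649139712) (.ev (nat_lit 916) (nat_lit
 32) (.fin (nat_lit 576456903979647550))))) (.ch (nat_lit 17) (.ev (nat_lit 816) (nat_lit 180161577289252896)
 (.ev (nat_lit 832) (nat_lit 274877906944) (.ev (nat_lit 845) (nat_lit 147573952589676412928) .dd))))) (.br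
 (nat_lit 19) (.ch (nat_lit 18) (.ev (nat_lit 816) (nat_lit 147718085644824608800) (.ev (nat_lit 829) (nat_lit
 36028797018963968) .dd))) (.br (nat_lit 22) (.ch (nat_lit 19) (.ev (nat_lit 816) (nat_lit
 147754114441835184160) (.ev (nat_lit 829) (nat_lit 8388608) .dd))) (.ch (nat_lit 22) (.ev (nat_lit 816)
 (nat_lit 147754114441843572736) (.ev (nat_lit 829) (nat_lit 32) .dd)))))))))))))))))) (.br (nat_lit 42) (.br
 (nat_lit 36) (.br (nat_lit 35) (.ch (nat_lit 33) (.ev (nat_lit 52) (nat_lit 147718077400697798656) (.ev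
 (nat_lit 84) (nat_lit 703687450165248) (.ev (nat_lit 116) (nat_lit 36028797018964000) (.ev (nat_lit 148)
 (nat_lit 288300744895889544) (.ev (nat_lit 180) (nat_lit 2048) (.ev (nat_lit 480) (nat_lit 68719476736) (.nd
 (nat_lit 800) (.br (nat_lit 9) (.br (nat_lit 6) (.ch (nat_lit 2) (.ev (nat_lit 816) (nat_lit
 295148204264232845312) .dd)) (.br (nat_lit 8) (.ch (nat_lit 6) (.ev (nat_lit 816) (nat_lit 17180393472) (.ev
 (nat_lit 928) (nat_lit 17592186044416) (.ev (nat_lit 1012) (nat_lit 295147905179352825856) (.ev (nat_lit 1136)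
 (nat_lit 281474976710656) (.ev (nat_lit 1149) (nat_lit 536870912) .dd)))))) (.ch (nat_lit 8) (.ev (nat_lit
 816) (nat_lit 295148186654866931712) (.ev (nat_lit 1696) (nat_lit 17609365913600) .dd))))) (.br (nat_lit 20)
 (.br (nat_lit 13) (.ch (nat_lit 9) (.ev (nat_lit 816) (nat_lit 295148204246516105216) (.ev (nat_lit 928)
 (nat_lit 17179869184) (.ev (nat_lit 941) (nat_lit 536870912) .dd)))) (.ch (nat_lit 13) (.ev (nat_lit 816)
 (nat_lit 17609903308800) (.ev (nat_lit 1012) (nat_lit 281474976710656) (.ev (nat_lit 1021) (nat_lit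
 295147905179352825856) .dd))))) (.br (nat_lit 29) (.ch (nat_lit 20) (.ev (nat_lit 816) (nat_lit
 295148204264232321024) (.ev (nat_lit 829) (nat_lit 524288) .dd))) (.ch (nat_lit 29) (.ev (nat_lit 816)
 (nat_lit 17609902784512) (.ev (nat_lit 916) (nat_lit 524288) (.ev (nat_lit 1072) (nat_lit
 295147905179352825856) (.ev (nat_lit 1085) (nat_lit 281474976710656) .dd)))))))))))))))) (.ch (nat_lit 35)
 (.ev (nat_lit 52) (nat_lit 180857293339363328) (.ev (nat_lit 84) (nat_lit 295147905179352825856) (.ev (nat_lit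
 116) (nat_lit 17592186044416) (.ev (nat_lit 148) (nat_lit 288230444871188480) (.ev (nat_lit 212) (nat_lit 40)
 (.ev (nat_lit 352) (nat_lit 70368744177664) (.ev (nat_lit 742) (nat_lit 17179869184) (.nd (nat_lit 800) (.br
 (nat_lit 8) (.br (nat_lit 6) (.br (nat_lit 4) (.ch (nat_lit 3) (.ev (nat_lit 816) (nat_lit
 147573952590213283968) (.ev (nat_lit 928) (nat_lit 2147483648) (.ev (nat_lit 1012) (nat_lit 281474976710656)
 (.ev (nat_lit 1021) (nat_lit 4194304) .dd))))) (.ch (nat_lit 4) (.ev (nat_lit 816) (nat_lit 281477665259520)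
 (.ev (nat_lit 832) (nat_lit 147573952589676412928) (.ev (nat_lit 845) (nat_lit 128) .dd))))) (.br (nat_lit 7)
 (.ch (nat_lit 6) (.ev (nat_lit 816) (nat_lit 147573952591823896704) (.ev (nat_lit 1012) (nat_lit 541065216)
 (.ev (nat_lit 1021) (nat_lit 281474976710656) .dd)))) (.ch (nat_lit 7) (.ev (nat_lit 816) (nat_lit
 147573952590217478272) (.fin (nat_lit 576487690322002498)))))) (.br (nat_lit 16) (.br (nat_lit 11) (.ch
 (nat_lit 8) (.ev (nat_lit 816) (nat_lit 147574234067341672576) .dd)) (.ch (nat_lit 11) (.ev (nat_lit 816)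
 (nat_lit 147574234066804801664) (.ev (nat_lit 829) (nat_lit 536870912) .dd)))) (.br (nat_lit 18) (.ch (nat_lit
 16) (.ev (nat_lit 816) (nat_lit 147573952592364961792) (.ev (nat_lit 916) (nat_lit 128) (.ev (nat_lit 925)
 (nat_lit 281474976710656) .dd)))) (.br (nat_lit 20) (.ch (nat_lit 18) (.ev (nat_lit 816) (nat_lit
 147574234065194188928) (.ev (nat_lit 829) (nat_lit 2147483648) .dd))) (.ch (nat_lit 20) (.ev (nat_lit 816)
 (nat_lit 147574234065194188928) (.ev (nat_lit 829) (nat_lit 2147483648) .dd))))))))))))))))) (.br (nat_lit 38)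
 (.ch (nat_lit 36) (.ev (nat_lit 52) (nat_lit 295436434711326490792) (.ev (nat_lit 84) (nat_lit
 140737488355328) (.ev (nat_lit 116) (nat_lit 147573952589676412928) (.ev (nat_lit 148) (nat_lit
 144185556820033536) (.ev (nat_lit 180) (nat_lit 524288) (.ev (nat_lit 244) (nat_lit 2048) (.nd (nat_lit 800)
 (.br (nat_lit 13) (.br (nat_lit 3) (.br (nat_lit 2) (.ch (nat_lit 1) (.ev (nat_lit 816) (nat_lit
 36029071901065216) (.ev (nat_lit 916) (nat_lit 549755813888) (.ev (nat_lit 1024) (nat_lit 562949953421312)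
 (.ev (nat_lit 1037) (nat_lit 8796093022208) .dd))))) (.ch (nat_lit 2) (.ev (nat_lit 816) (nat_lit
 36592296728199168) (.ev (nat_lit 916) (nat_lit 4194304) (.ev (nat_lit 1012) (nat_lit 274877906944) (.ev
 (nat_lit 1021) (nat_lit 8796093022208) .dd)))))) (.br (nat_lit 6) (.ch (nat_lit 3) (.ev (nat_lit 816) (nat_lit
 36592571610300416) (.ev (nat_lit 829) (nat_lit 8796093022208) .dd))) (.br (nat_lit 7) (.ch (nat_lit 6) (.ev
 (nat_lit 816) (nat_lit 36601367703322624) .dd)) (.ch (nat_lit 7) (.ev (nat_lit 816) (nat_lit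
 36601367703322624) .dd))))) (.br (nat_lit 20) (.br (nat_lit 16) (.ch (nat_lit 13) (.ev (nat_lit 816) (nat_lit
 36601367703322624) .dd)) (.br (nat_lit 19) (.ch (nat_lit 16) (.ev (nat_lit 816) (nat_lit 563499713429504) (.ev
 (nat_lit 1012) (nat_lit 36028797018963968) (.ev (nat_lit 1220) (nat_lit 274877906944) (.ev (nat_lit 1229)
 (nat_lit 8796093022208) .dd))))) (.ch (nat_lit 19) (.ev (nat_lit 816) (nat_lit 36038417749901312) (.ev
 (nat_lit 829) (nat_lit 562949953421312) .dd))))) (.br (nat_lit 22) (.ch (nat_lit 20) (.ev (nat_lit 816)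
 (nat_lit 36038142867800064) (.ev (nat_lit 960) (nat_lit 562949957615616) (.ev (nat_lit 973) (nat_lit
 274877906944) .dd)))) (.br (nat_lit 29) (.ch (nat_lit 22) (.ev (nat_lit 816) (nat_lit 36592571606106112) (.ev
 (nat_lit 916) (nat_lit 4194304) (.ev (nat_lit 925) (nat_lit 8796093022208) .dd)))) (.ch (nat_lit 29) (.ev
 (nat_lit 816) (nat_lit 36600543069601792) (.ev (nat_lit 1156) (nat_lit 549755813888) (.ev (nat_lit 1165)
 (nat_lit 274877906944) .dd)))))))))))))))) (.ch (nat_lit 38) (.ev (nat_lit 52) (nat_lit 443046267043262760968)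
 (.ev (nat_lit 84) (nat_lit 32) (.ev (nat_lit 116) (nat_lit 274949210112) (.ev (nat_lit 148) (nat_lit
 144185556820033536) (.ev (nat_lit 180) (nat_lit 562949953421440) (.ev (nat_lit 244) (nat_lit 281474976710656)
 (.nd (nat_lit 800) (.br (nat_lit 9) (.br (nat_lit 4) (.br (nat_lit 3) (.ch (nat_lit 1) (.ev (nat_lit 816)
 (nat_lit 17663053004800) .dd)) (.ch (nat_lit 3) (.ev (nat_lit 816) (nat_lit 17594333528064) (.ev (nat_lit 829)
 (nat_lit 68719476736) .dd)))) (.br (nat_lit 7) (.ch (nat_lit 4) (.ev (nat_lit 816) (nat_lit 70866960384) (.ev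
 (nat_lit 829) (nat_lit 17592186044416) .dd))) (.br (nat_lit 8) (.ch (nat_lit 7) (.ev (nat_lit 816) (nat_lit
 17663053004800) .dd)) (.ch (nat_lit 8) (.ev (nat_lit 816) (nat_lit 17660905521152) (.ev (nat_lit 829) (nat_lit
 2147483648) .dd)))))) (.br (nat_lit 13) (.br (nat_lit 11) (.ch (nat_lit 9) (.ev (nat_lit 816) (nat_lit
 17663053004800) .dd)) (.br (nat_lit 12) (.ch (nat_lit 11) (.ev (nat_lit 816) (nat_lit 17592186044416) (.ev
 (nat_lit 864) (nat_lit 2147483648) (.ev (nat_lit 877) (nat_lit 68719476736) .dd)))) (.ch (nat_lit 12) (.ev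
 (nat_lit 816) (nat_lit 17663053004800) .dd)))) (.br (nat_lit 16) (.ch (nat_lit 13) (.ev (nat_lit 816) (nat_lit
 17663053004800) .dd)) (.br (nat_lit 17) (.ch (nat_lit 16) (.ev (nat_lit 816) (nat_lit 68719476736) (.fin
 (nat_lit 576442610352603711)))) (.ch (nat_lit 17) (.ev (nat_lit 816) (nat_lit 17663053004800)
 .dd)))))))))))))))) (.br (nat_lit 45) (.br (nat_lit 44) (.ch (nat_lit 42) (.ev (nat_lit 52) (nat_lit
 295148627026453727264) (.ev (nat_lit 64) (nat_lit 148042687936561414280) .dd))) (.ch (nat_lit 44) (.ev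
 (nat_lit 52) (nat_lit 432636387200600232) (.ev (nat_lit 96) (nat_lit 442758678575814541312) .dd)))) (.br
 (nat_lit 46) (.ch (nat_lit 45) (.ev (nat_lit 52) (nat_lit 295473237544591687808) (.ev (nat_lit 84) (nat_lit
 549822922752) (.ev (nat_lit 128) (nat_lit 147718076868600530984) .dd)))) (.ch (nat_lit 46) (.ev (nat_lit 52)
 (nat_lit 443155065419696965664) (.ev (nat_lit 84) (nat_lit 70385924046848) (.ev (nat_lit 180) (nat_lit
 277025390600) (.ev (nat_lit 212) (nat_lit 8388608) (.nd (nat_lit 800) (.br (nat_lit 12) (.br (nat_lit 4) (.br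
 (nat_lit 3) (.ch (nat_lit 1) (.ev (nat_lit 816) (nat_lit 149533585571968) (.ev (nat_lit 832) (nat_lit
 36028797018963968) (.ev (nat_lit 845) (nat_lit 549755813888) .dd)))) (.ch (nat_lit 3) (.ev (nat_lit 816)
 (nat_lit 36170084263133312) (.ev (nat_lit 928) (nat_lit 8796093022208) (.ev (nat_lit 941) (nat_lit 4194304)
 .dd))))) (.br (nat_lit 11) (.ch (nat_lit 4) (.ev (nat_lit 816) (nat_lit 36178330604535936) (.ev (nat_lit 829)
 (nat_lit 549755813888) .dd))) (.ch (nat_lit 11) (.ev (nat_lit 816) (nat_lit 150083341385856) (.ev (nat_lit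
 829) (nat_lit 36028797018963968) .dd))))) (.br (nat_lit 18) (.br (nat_lit 17) (.ch (nat_lit 12) (.ev (nat_lit
 816) (nat_lit 36169534511513728) (.ev (nat_lit 880) (nat_lit 8796093022208) (.ev (nat_lit 893) (nat_lit
 549755813888) .dd)))) (.ch (nat_lit 17) (.ev (nat_lit 816) (nat_lit 36170084267327488) (.ev (nat_lit 1012)
 (nat_lit 128) (.ev (nat_lit 1021) (nat_lit 8796093022208) .dd))))) (.br (nat_lit 19) (.ch (nat_lit 18) (.ev
 (nat_lit 816) (nat_lit 36178880356155520) (.ev (nat_lit 829) (nat_lit 4194304) .dd))) (.br (nat_lit 20) (.ch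
 (nat_lit 19) (.ev (nat_lit 816) (nat_lit 36178880360349696) (.ev (nat_lit 829) (nat_lit 128) .dd))) (.ch
 (nat_lit 20) (.ev (nat_lit 816) (nat_lit 36038142867800192) (.ev (nat_lit 864) (nat_lit 4194304) (.ev (nat_lit
 877) (nat_lit 140737488355328) .dd)))))))))))))))))))))

/-- Subtrie. -/
noncomputable def T19 : Tr := (.ev (nat_lit 20) (nat_lit 479906959303660339378) (.nd (nat_lit 33) (.br (nat_lit
 25) (.br (nat_lit 14) (.br (nat_lit 5) (.br (nat_lit 2) (.ch (nat_lit 1) (.ev (nat_lit 52) (nat_lit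
 608805824729540726792) (.ev (nat_lit 84) (nat_lit 4227072) (.ev (nat_lit 116) (nat_lit 1185203306744428626176)
 (.ev (nat_lit 148) (nat_lit 281474976710656) (.nd (nat_lit 800) (.br (nat_lit 14) (.br (nat_lit 12) (.br
 (nat_lit 5) (.ch (nat_lit 4) (.ev (nat_lit 816) (nat_lit 17592186570752) (.ev (nat_lit 1156) (nat_lit
 562949953421312) (.ev (nat_lit 1165) (nat_lit 144115188075855872) .dd)))) (.ch (nat_lit 5) (.ev (nat_lit 816)
 (nat_lit 144132780261902336) (.ev (nat_lit 916) (nat_lit 562949953421312) (.ev (nat_lit 925) (nat_lit 524288)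
 .dd))))) (.br (nat_lit 13) (.ch (nat_lit 12) (.ev (nat_lit 816) (nat_lit 144695730215845888) (.ev (nat_lit
 829) (nat_lit 2048) .dd))) (.ch (nat_lit 13) (.ev (nat_lit 816) (nat_lit 144695730215847936) .dd)))) (.br
 (nat_lit 19) (.br (nat_lit 18) (.ch (nat_lit 14) (.ev (nat_lit 816) (nat_lit 144695730215323648) (.ev (nat_lit
 829) (nat_lit 524288) .dd))) (.ch (nat_lit 18) (.ev (nat_lit 816) (nat_lit 144678138029803520) (.ev (nat_lit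
 829) (nat_lit 17592186044416) .dd)))) (.br (nat_lit 21) (.ch (nat_lit 19) (.ev (nat_lit 816) (nat_lit
 580542139990016) (.ev (nat_lit 916) (nat_lit 2048) (.ev (nat_lit 925) (nat_lit 144115188075855872) .dd))))
 (.br (nat_lit 26) (.ch (nat_lit 21) (.ev (nat_lit 816) (nat_lit 17592186570752) (.ev (nat_lit 1012) (nat_lit
 144115188075855872) (.ev (nat_lit 1021) (nat_lit 562949953421312) .dd)))) (.ch (nat_lit 26) (.ev (nat_lit 816)
 (nat_lit 144115188076382208) (.ev (nat_lit 848) (nat_lit 17592186044416) (.ev (nat_lit 861) (nat_lit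
 562949953421312) .dd)))))))))))))) (.br (nat_lit 3) (.ch (nat_lit 2) (.ev (nat_lit 52) (nat_lit
 608797160586487535616) (.ev (nat_lit 96) (nat_lit 1185356948092678603016) .dd))) (.ch (nat_lit 3) (.ev
 (nat_lit 52) (nat_lit 4810416148082360584) (.ev (nat_lit 84) (nat_lit 1770887431084706891776) (.ev (nat_lit
 116) (nat_lit 524288) (.ev (nat_lit 148) (nat_lit 87960930226176) (.ev (nat_lit 592) (nat_lit 16777216) (.nd
 (nat_lit 800) (.br (nat_lit 14) (.br (nat_lit 10) (.br (nat_lit 5) (.ch (nat_lit 4) (.ev (nat_lit 816)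
 (nat_lit 18456032747941003264) (.ev (nat_lit 829) (nat_lit 140737488355328) .dd))) (.br (nat_lit 8) (.ch
 (nat_lit 5) (.ev (nat_lit 816) (nat_lit 18447166286174617600) (.ev (nat_lit 829) (nat_lit 9007199254740992)
 .dd))) (.ch (nat_lit 8) (.ev (nat_lit 816) (nat_lit 18456173485429358592) .dd)))) (.br (nat_lit 12) (.ch
 (nat_lit 10) (.ev (nat_lit 816) (nat_lit 18456173485429358592) .dd)) (.br (nat_lit 13) (.ch (nat_lit 12) (.ev
 (nat_lit 816) (nat_lit 9288674231451648) (.ev (nat_lit 916) (nat_lit 140737488355328) (.ev (nat_lit 925)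
 (nat_lit 18446744073709551616) .dd)))) (.ch (nat_lit 13) (.ev (nat_lit 816) (nat_lit 18456173485429358592)
 .dd))))) (.br (nat_lit 17) (.br (nat_lit 15) (.ch (nat_lit 14) (.ev (nat_lit 816) (nat_lit
 18456173485429358592) .dd)) (.br (nat_lit 16) (.ch (nat_lit 15) (.ev (nat_lit 816) (nat_lit
 18446744073709551616) (.ev (nat_lit 960) (nat_lit 140737488355328) (.fin (nat_lit 576448107897111118))))) (.ch
 (nat_lit 16) (.ev (nat_lit 816) (nat_lit 18456173485429358592) .dd)))) (.br (nat_lit 21) (.br (nat_lit 18)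
 (.ch (nat_lit 17) (.ev (nat_lit 816) (nat_lit 18455892010452647936) (.ev (nat_lit 829) (nat_lit
 281474976710656) .dd))) (.ch (nat_lit 18) (.ev (nat_lit 816) (nat_lit 18456173485429358592) .dd))) (.br
 (nat_lit 22) (.ch (nat_lit 21) (.ev (nat_lit 816) (nat_lit 18455892010452647936) (.ev (nat_lit 829) (nat_lit
 281474976710656) .dd))) (.ch (nat_lit 22) (.ev (nat_lit 816) (nat_lit 422212465065984) (.ev (nat_lit 1012)
 (nat_lit 18446744073709551616) (.ev (nat_lit 1021) (nat_lit 9007199254740992) .dd))))))))))))))))) (.br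
 (nat_lit 11) (.br (nat_lit 9) (.ch (nat_lit 5) (.ev (nat_lit 52) (nat_lit 18456103116706158856) (.ev (nat_lit
 84) (nat_lit 1180735735905487159296) (.ev (nat_lit 148) (nat_lit 17592186044416) (.ev (nat_lit 180) (nat_lit
 557056) (.ev (nat_lit 212) (nat_lit 36028797018963968) (.ev (nat_lit 276) (nat_lit 8796093022208) (.ev
 (nat_lit 496) (nat_lit 8589934592) (.nd (nat_lit 800) (.br (nat_lit 19) (.br (nat_lit 12) (.br (nat_lit 10)
 (.ch (nat_lit 4) (.ev (nat_lit 816) (nat_lit 594908059327086460928) (.ev (nat_lit 916) (nat_lit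
 18014398509481984) (.ev (nat_lit 925) (nat_lit 140737488355328) .dd)))) (.ch (nat_lit 10) (.ev (nat_lit 816)
 (nat_lit 4630263366890291200) (.ev (nat_lit 928) (nat_lit 590295951096194007040) .dd)))) (.br (nat_lit 14)
 (.ch (nat_lit 12) (.ev (nat_lit 816) (nat_lit 594926214463084298240) .dd)) (.ch (nat_lit 14) (.ev (nat_lit
 816) (nat_lit 590296514046147428352) (.ev (nat_lit 1012) (nat_lit 4611686018427387904) (.ev (nat_lit 1021)
 (nat_lit 18014398509481984) .dd)))))) (.br (nat_lit 22) (.br (nat_lit 20) (.ch (nat_lit 19) (.ev (nat_lit 816)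
 (nat_lit 594925651513130876928) (.ev (nat_lit 829) (nat_lit 562949953421312) .dd))) (.ch (nat_lit 20) (.ev
 (nat_lit 816) (nat_lit 594908200064574816256) (.ev (nat_lit 829) (nat_lit 18014398509481984) .dd)))) (.br
 (nat_lit 24) (.ch (nat_lit 22) (.ev (nat_lit 816) (nat_lit 594926214463084298240) .dd)) (.br (nat_lit 26) (.ch
 (nat_lit 24) (.ev (nat_lit 816) (nat_lit 4630404104378646528) (.ev (nat_lit 829) (nat_lit
 590295810358705651712) .dd))) (.ch (nat_lit 26) (.ev (nat_lit 816) (nat_lit 4629841154425225216) (.ev (nat_lit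
 1056) (nat_lit 590295810358705651712) (.ev (nat_lit 1069) (nat_lit 562949953421312) .dd))))))))))))))))) (.ch
 (nat_lit 9) (.ev (nat_lit 52) (nat_lit 18636194333833302272) (.ev (nat_lit 84) (nat_lit 590295810358705651712)
 (.ev (nat_lit 116) (nat_lit 140737488355336) (.ev (nat_lit 148) (nat_lit 2048) (.ev (nat_lit 180) (nat_lit
 8796093022208) (.nd (nat_lit 800) (.br (nat_lit 14) (.br (nat_lit 7) (.br (nat_lit 4) (.ch (nat_lit 3) (.ev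
 (nat_lit 816) (nat_lit 1185221391503092383744) (.ev (nat_lit 829) (nat_lit 562949953421312) .dd))) (.ch
 (nat_lit 4) (.ev (nat_lit 816) (nat_lit 1185221391503092383744) (.ev (nat_lit 829) (nat_lit 562949953421312)
 .dd)))) (.br (nat_lit 8) (.ch (nat_lit 7) (.ev (nat_lit 816) (nat_lit 1180610198065874239488) (.ev (nat_lit
 832) (nat_lit 4611686018427387904) (.ev (nat_lit 845) (nat_lit 70368744177664) .dd)))) (.ch (nat_lit 8) (.ev
 (nat_lit 816) (nat_lit 1185221884084301594624) (.ev (nat_lit 916) (nat_lit 70368744177664) (.ev (nat_lit 925)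
 (nat_lit 32768) .dd)))))) (.br (nat_lit 19) (.br (nat_lit 15) (.ch (nat_lit 14) (.ev (nat_lit 816) (nat_lit
 1185203940054536323072) (.ev (nat_lit 829) (nat_lit 18014398509481984) .dd))) (.ch (nat_lit 15) (.ev (nat_lit
 816) (nat_lit 1185221954453045772288) (.ev (nat_lit 829) (nat_lit 32768) .dd)))) (.br (nat_lit 22) (.ch
 (nat_lit 19) (.ev (nat_lit 816) (nat_lit 1180610268434618417152) (.ev (nat_lit 829) (nat_lit
 4611686018427387904) .dd))) (.br (nat_lit 24) (.ch (nat_lit 22) (.ev (nat_lit 816) (nat_lit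
 4630333735634501632) (.ev (nat_lit 829) (nat_lit 1180591620717411303424) .dd))) (.ch (nat_lit 24) (.ev
 (nat_lit 816) (nat_lit 1185221954453045772288) (.ev (nat_lit 829) (nat_lit 32768) .dd))))))))))))))) (.br
 (nat_lit 12) (.ch (nat_lit 11) (.ev (nat_lit 52) (nat_lit 613418082493998303232) (.ev (nat_lit 84) (nat_lit
 1180591620717428080640) (.ev (nat_lit 116) (nat_lit 8589934592) (.ev (nat_lit 192) (nat_lit
 144405459149820168) .dd))))) (.ch (nat_lit 12) (.ev (nat_lit 52) (nat_lit 1180736254874992247040) (.ev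
 (nat_lit 84) (nat_lit 590295810358705651712) (.ev (nat_lit 116) (nat_lit 2048) (.ev (nat_lit 128) (nat_lit
 23122043445468237832) .dd)))))))) (.br (nat_lit 19) (.br (nat_lit 16) (.br (nat_lit 15) (.ch (nat_lit 14) (.ev
 (nat_lit 52) (nat_lit 1185347641826240104712) (.ev (nat_lit 84) (nat_lit 16777216) (.ev (nat_lit 116) (nat_lit
 9007199254740992) (.ev (nat_lit 148) (nat_lit 8589938688) (.ev (nat_lit 180) (nat_lit 17592186568704) (.nd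
 (nat_lit 800) (.br (nat_lit 13) (.br (nat_lit 8) (.br (nat_lit 5) (.ch (nat_lit 4) (.ev (nat_lit 816) (nat_lit
 608779427654364332032) (.ev (nat_lit 916) (nat_lit 4194304) (.ev (nat_lit 925) (nat_lit 18014398509481984)
 .dd)))) (.br (nat_lit 7) (.ch (nat_lit 5) (.ev (nat_lit 816) (nat_lit 608796879102924587008) (.ev (nat_lit
 829) (nat_lit 562949953421312) .dd))) (.ch (nat_lit 7) (.ev (nat_lit 816) (nat_lit 608797160577901297664) (.ev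
 (nat_lit 829) (nat_lit 281474976710656) .dd))))) (.br (nat_lit 10) (.ch (nat_lit 8) (.ev (nat_lit 816)
 (nat_lit 54887620462804992) (.ev (nat_lit 916) (nat_lit 18446744073709551616) (.ev (nat_lit 925) (nat_lit
 590295810358705651712) .dd)))) (.br (nat_lit 12) (.ch (nat_lit 10) (.ev (nat_lit 816) (nat_lit
 54887620462772224) (.ev (nat_lit 916) (nat_lit 590295810358705651712) (.ev (nat_lit 1136) (nat_lit
 18446744073709584384) .dd)))) (.ch (nat_lit 12) (.ev (nat_lit 816) (nat_lit 608779427654368493568) (.ev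
 (nat_lit 1104) (nat_lit 32768) (.ev (nat_lit 1117) (nat_lit 18014398509481984) .dd))))))) (.br (nat_lit 18)
 (.br (nat_lit 14) (.ch (nat_lit 13) (.ev (nat_lit 816) (nat_lit 608761131780882300928) (.ev (nat_lit 1012)
 (nat_lit 36028797018963968) (.ev (nat_lit 1024) (nat_lit 281474976743424) .dd)))) (.br (nat_lit 16) (.ch
 (nat_lit 14) (.ev (nat_lit 816) (nat_lit 590350697979168456704) (.ev (nat_lit 829) (nat_lit
 18446744073709551616) .dd))) (.ch (nat_lit 16) (.ev (nat_lit 816) (nat_lit 608743398857345368064) (.ev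
 (nat_lit 916) (nat_lit 36028797018963968) (.ev (nat_lit 1012) (nat_lit 4194304) (.ev (nat_lit 1021) (nat_lit
 18014398509481984) .dd))))))) (.br (nat_lit 22) (.br (nat_lit 21) (.ch (nat_lit 18) (.ev (nat_lit 816)
 (nat_lit 608797442052878008320) .dd)) (.ch (nat_lit 21) (.ev (nat_lit 816) (nat_lit 608760850305905623040)
 (.ev (nat_lit 928) (nat_lit 36028797018963968) (.ev (nat_lit 941) (nat_lit 562949953421312) .dd))))) (.br
 (nat_lit 26) (.ch (nat_lit 22) (.ev (nat_lit 816) (nat_lit 608797160577901297664) (.ev (nat_lit 829) (nat_lit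
 281474976710656) .dd))) (.ch (nat_lit 26) (.ev (nat_lit 816) (nat_lit 608796879102920392704) (.ev (nat_lit
 1024) (nat_lit 4194304) (.ev (nat_lit 1037) (nat_lit 562949953421312) .dd))))))))))))))) (.ch (nat_lit 15)
 (.ev (nat_lit 52) (nat_lit 595052033777691269120) (.ev (nat_lit 96) (nat_lit 1199102074901474869512) .dd))))
 (.br (nat_lit 18) (.ch (nat_lit 16) (.ev (nat_lit 52) (nat_lit 4792348973010551040) (.ev (nat_lit 84) (nat_lit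
 562949953945600) (.ev (nat_lit 116) (nat_lit 9007199254745088) (.ev (nat_lit 148) (nat_lit
 590295810367299780608) (.ev (nat_lit 212) (nat_lit 18446744073709551616) (.ev (nat_lit 256) (nat_lit
 1180609635115937564680) .dd))))))) (.ch (nat_lit 18) (.ev (nat_lit 52) (nat_lit 1771058990083016235008) (.ev
 (nat_lit 84) (nat_lit 36028797018963968) (.ev (nat_lit 116) (nat_lit 4611686018427387904) (.ev (nat_lit 148)
 (nat_lit 79164837200128) (.ev (nat_lit 244) (nat_lit 524288) (.ev (nat_lit 512) (nat_lit 562949953421312) (.nd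
 (nat_lit 800) (.br (nat_lit 14) (.br (nat_lit 10) (.br (nat_lit 8) (.ch (nat_lit 7) (.ev (nat_lit 816)
 (nat_lit 18446761665912406024) .dd)) (.ch (nat_lit 8) (.ev (nat_lit 816) (nat_lit 18446744073726328840) (.ev
 (nat_lit 880) (nat_lit 32768) (.ev (nat_lit 893) (nat_lit 17592186044416) .dd))))) (.br (nat_lit 12) (.ch
 (nat_lit 10) (.ev (nat_lit 816) (nat_lit 18446761665912406016) (.ev (nat_lit 829) (nat_lit 8) .dd))) (.br
 (nat_lit 13) (.ch (nat_lit 12) (.ev (nat_lit 816) (nat_lit 18446744073726361608) (.ev (nat_lit 829) (nat_lit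
 17592186044416) .dd))) (.ch (nat_lit 13) (.ev (nat_lit 816) (nat_lit 18446744073726328840) (.ev (nat_lit 1012)
 (nat_lit 32768) (.ev (nat_lit 1021) (nat_lit 17592186044416) .dd))))))) (.br (nat_lit 19) (.br (nat_lit 15)
 (.ch (nat_lit 14) (.ev (nat_lit 816) (nat_lit 18446744073709584392) (.ev (nat_lit 1056) (nat_lit 16777216)
 (.ev (nat_lit 1069) (nat_lit 17592186044416) .dd)))) (.br (nat_lit 18) (.ch (nat_lit 15) (.ev (nat_lit 816)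
 (nat_lit 18446761665912406024) .dd)) (.ch (nat_lit 18) (.ev (nat_lit 816) (nat_lit 18446744073726361600) (.ev
 (nat_lit 1188) (nat_lit 8) (.ev (nat_lit 1197) (nat_lit 17592186044416) .dd)))))) (.br (nat_lit 21) (.ch
 (nat_lit 19) (.ev (nat_lit 816) (nat_lit 17592202821640) (.ev (nat_lit 1012) (nat_lit 32768) (.ev (nat_lit
 1021) (nat_lit 18446744073709551616) .dd)))) (.br (nat_lit 22) (.ch (nat_lit 21) (.ev (nat_lit 816) (nat_lit
 17592202854400) (.fin (nat_lit 576468998621184572)))) (.ch (nat_lit 22) (.ev (nat_lit 816) (nat_lit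
 18446761665912373256) (.ev (nat_lit 829) (nat_lit 32768) .dd))))))))))))))))) (.br (nat_lit 21) (.br (nat_lit
 20) (.ch (nat_lit 19) (.ev (nat_lit 52) (nat_lit 590331918329151789056) (.ev (nat_lit 84) (nat_lit
 18014398509481984) (.ev (nat_lit 116) (nat_lit 18447307023667167232) (.ev (nat_lit 180) (nat_lit
 299067162755072) (.ev (nat_lit 244) (nat_lit 9007199254740992) (.nd (nat_lit 800) (.br (nat_lit 16) (.br
 (nat_lit 8) (.br (nat_lit 4) (.ch (nat_lit 3) (.ev (nat_lit 816) (nat_lit 4755941944008376584) (.ev (nat_lit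
 916) (nat_lit 524288) (.ev (nat_lit 925) (nat_lit 1180591620717411303424) .dd)))) (.br (nat_lit 7) (.ch
 (nat_lit 4) (.ev (nat_lit 816) (nat_lit 1185347421923931848968) (.ev (nat_lit 829) (nat_lit 140737488355328)
 .dd))) (.ch (nat_lit 7) (.ev (nat_lit 816) (nat_lit 1185347562661420204040) (.ev (nat_lit 829) (nat_lit 256)
 .dd))))) (.br (nat_lit 12) (.ch (nat_lit 8) (.ev (nat_lit 816) (nat_lit 4755941943991599368) (.ev (nat_lit
 916) (nat_lit 16777216) (.ev (nat_lit 1156) (nat_lit 524288) (.ev (nat_lit 1165) (nat_lit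
 1180591620717411303424) .dd))))) (.br (nat_lit 14) (.ch (nat_lit 12) (.ev (nat_lit 816) (nat_lit
 1180735735905504461064) (.ev (nat_lit 916) (nat_lit 140737488355328) (.ev (nat_lit 925) (nat_lit
 4611686018427387904) .dd)))) (.ch (nat_lit 14) (.ev (nat_lit 816) (nat_lit 1185347562661420204296) .dd)))))
 (.br (nat_lit 20) (.br (nat_lit 18) (.ch (nat_lit 16) (.ev (nat_lit 816) (nat_lit 1185203306735839215624) (.ev
 (nat_lit 916) (nat_lit 140737488355584) (.ev (nat_lit 1012) (nat_lit 144115188075855872) (.ev (nat_lit 1021)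
 (nat_lit 16777216) .dd))))) (.br (nat_lit 19) (.ch (nat_lit 18) (.ev (nat_lit 816) (nat_lit 140737505132808)
 (.ev (nat_lit 848) (nat_lit 4611686018427387904) (.ev (nat_lit 1040) (nat_lit 144115188075855872) (.ev
 (nat_lit 1204) (nat_lit 524288) (.ev (nat_lit 1213) (nat_lit 1180591620717411303424) .dd)))))) (.ch (nat_lit
 19) (.ev (nat_lit 816) (nat_lit 1185347562661403427080) (.ev (nat_lit 829) (nat_lit 16777216) .dd))))) (.br
 (nat_lit 22) (.br (nat_lit 21) (.ch (nat_lit 20) (.ev (nat_lit 816) (nat_lit 1185347562661420204032) (.ev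
 (nat_lit 1088) (nat_lit 8) (.ev (nat_lit 1101) (nat_lit 256) .dd)))) (.ch (nat_lit 21) (.ev (nat_lit 816)
 (nat_lit 1185203447473343824136) (.ev (nat_lit 944) (nat_lit 144115188075855872) (.ev (nat_lit 957) (nat_lit
 524288) .dd))))) (.br (nat_lit 24) (.ch (nat_lit 22) (.ev (nat_lit 816) (nat_lit 1185347562661420204296) .dd))
 (.ch (nat_lit 24) (.ev (nat_lit 816) (nat_lit 4755941944008376584) (.ev (nat_lit 916) (nat_lit 524288) (.ev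
 (nat_lit 925) (nat_lit 1180591620717411303424) .dd))))))))))))))) (.ch (nat_lit 20) (.ev (nat_lit 52) (nat_lit
 594925932988112310280) (.ev (nat_lit 84) (nat_lit 36099165779918848) (.ev (nat_lit 116) (nat_lit
 1199038373587213877248) (.ev (nat_lit 148) (nat_lit 8589934592) (.ev (nat_lit 180) (nat_lit 9007199254741248)
 (.nd (nat_lit 800) (.br (nat_lit 15) (.br (nat_lit 8) (.br (nat_lit 7) (.ch (nat_lit 4) (.ev (nat_lit 816)
 (nat_lit 562949953456128) (.ev (nat_lit 916) (nat_lit 17592186044416) (.ev (nat_lit 925) (nat_lit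
 144115188075855872) .dd)))) (.ch (nat_lit 7) (.ev (nat_lit 816) (nat_lit 144695730215356416) .dd))) (.br
 (nat_lit 10) (.ch (nat_lit 8) (.ev (nat_lit 816) (nat_lit 144695730215356416) .dd)) (.br (nat_lit 12) (.ch
 (nat_lit 10) (.ev (nat_lit 816) (nat_lit 580542139498496) (.ev (nat_lit 1012) (nat_lit 2048) (.ev (nat_lit
 1021) (nat_lit 144115188075855872) .dd)))) (.ch (nat_lit 12) (.ev (nat_lit 816) (nat_lit 144695730215354368)
 (.ev (nat_lit 829) (nat_lit 2048) .dd)))))) (.br (nat_lit 20) (.br (nat_lit 17) (.ch (nat_lit 15) (.ev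
 (nat_lit 816) (nat_lit 144695730215323648) (.ev (nat_lit 829) (nat_lit 32768) .dd))) (.br (nat_lit 19) (.ch
 (nat_lit 17) (.ev (nat_lit 816) (nat_lit 144132780261935104) (.ev (nat_lit 829) (nat_lit 562949953421312)
 .dd))) (.ch (nat_lit 19) (.ev (nat_lit 816) (nat_lit 144678138029309952) (.ev (nat_lit 916) (nat_lit 2048)
 (.ev (nat_lit 925) (nat_lit 17592186044416) .dd)))))) (.br (nat_lit 21) (.ch (nat_lit 20) (.ev (nat_lit 816)
 (nat_lit 17592186079232) (.ev (nat_lit 916) (nat_lit 562949953421312) (.ev (nat_lit 925) (nat_lit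
 144115188075855872) .dd)))) (.br (nat_lit 24) (.ch (nat_lit 21) (.ev (nat_lit 816) (nat_lit 580542139500544)
 (.ev (nat_lit 829) (nat_lit 144115188075855872) .dd))) (.ch (nat_lit 24) (.ev (nat_lit 816) (nat_lit
 144695730215323648) (.ev (nat_lit 829) (nat_lit 32768) .dd))))))))))))))) (.br (nat_lit 22) (.ch (nat_lit 21)
 (.ev (nat_lit 52) (nat_lit 590305802728969343240) (.ev (nat_lit 84) (nat_lit 36099165763141632) (.ev (nat_lit
 116) (nat_lit 18446744073709551616) (.ev (nat_lit 148) (nat_lit 32768) (.ev (nat_lit 180) (nat_lit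
 4611686018427389952) (.ev (nat_lit 224) (nat_lit 1180753776692296679424) .dd))))))) (.ch (nat_lit 22) (.ev
 (nat_lit 52) (nat_lit 594944158492850163968) (.ev (nat_lit 84) (nat_lit 144123984168878080) (.ev (nat_lit 148)
 (nat_lit 1199038364791120855040) (.ev (nat_lit 180) (nat_lit 140737488355328) (.ev (nat_lit 212) (nat_lit
 4194304) (.ev (nat_lit 244) (nat_lit 2048) (.ev (nat_lit 672) (nat_lit 17592186044416) (.nd (nat_lit 800) (.br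
 (nat_lit 14) (.br (nat_lit 8) (.br (nat_lit 5) (.ch (nat_lit 4) (.ev (nat_lit 816) (nat_lit 9007207844675592)
 (.ev (nat_lit 916) (nat_lit 18014398509481984) (.ev (nat_lit 1012) (nat_lit 281474976710656) (.ev (nat_lit
 1021) (nat_lit 16777216) .dd))))) (.ch (nat_lit 5) (.ev (nat_lit 816) (nat_lit 18295873502969864) (.ev
 (nat_lit 832) (nat_lit 8589934592) (.ev (nat_lit 845) (nat_lit 9007199254740992) .dd))))) (.br (nat_lit 12)
 (.ch (nat_lit 8) (.ev (nat_lit 816) (nat_lit 27303081330868232) (.ev (nat_lit 829) (nat_lit 16777216) .dd)))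
 (.ch (nat_lit 12) (.ev (nat_lit 816) (nat_lit 18295882092904456) (.ev (nat_lit 829) (nat_lit 9007199254740992)
 .dd))))) (.br (nat_lit 18) (.br (nat_lit 15) (.ch (nat_lit 14) (.ev (nat_lit 816) (nat_lit 27303081347645440)
 (.ev (nat_lit 829) (nat_lit 8) .dd))) (.ch (nat_lit 15) (.ev (nat_lit 816) (nat_lit 18014407116193800) (.fin
 (nat_lit 576448107897111118))))) (.br (nat_lit 20) (.ch (nat_lit 18) (.ev (nat_lit 816) (nat_lit
 9288674248228872) (.ev (nat_lit 916) (nat_lit 8589934592) (.ev (nat_lit 925) (nat_lit 18014398509481984)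
 .dd)))) (.br (nat_lit 22) (.ch (nat_lit 20) (.ev (nat_lit 816) (nat_lit 9007207861452800) (.ev (nat_lit 832)
 (nat_lit 281474976710656) (.ev (nat_lit 944) (nat_lit 8) (.ev (nat_lit 957) (nat_lit 18014398509481984)
 .dd))))) (.ch (nat_lit 22) (.ev (nat_lit 816) (nat_lit 18014407099416584) (.ev (nat_lit 928) (nat_lit
 281474976710656) (.ev (nat_lit 944) (nat_lit 16777216) (.ev (nat_lit 957) (nat_lit 9007199254740992)
 .dd)))))))))))))))))))))) (.br (nat_lit 33) (.br (nat_lit 28) (.br (nat_lit 26) (.ch (nat_lit 25) (.ev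
 (nat_lit 52) (nat_lit 1180628282833148875008) (.ev (nat_lit 84) (nat_lit 18590859261785407488) (.ev (nat_lit
 116) (nat_lit 18014398509481984) (.ev (nat_lit 160) (nat_lit 594916952185722374152) .dd))))) (.br (nat_lit 27)
 (.ch (nat_lit 26) (.ev (nat_lit 52) (nat_lit 27672517258805504) (.ev (nat_lit 116) (nat_lit
 1180591902192388014080) (.ev (nat_lit 148) (nat_lit 590295810358705655808) (.ev (nat_lit 180) (nat_lit
 4611694814520410112) (.ev (nat_lit 212) (nat_lit 140737488355328) (.ev (nat_lit 640) (nat_lit 524288) (.nd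
 (nat_lit 800) (.br (nat_lit 16) (.br (nat_lit 10) (.ch (nat_lit 7) (.ev (nat_lit 816) (nat_lit
 18590859261785407496) (.ev (nat_lit 1012) (nat_lit 36028797018963968) (.ev (nat_lit 1021) (nat_lit 2048)
 .dd)))) (.br (nat_lit 15) (.ch (nat_lit 10) (.ev (nat_lit 816) (nat_lit 18482772870728517640) (.ev (nat_lit
 829) (nat_lit 144115188075855872) .dd))) (.ch (nat_lit 15) (.ev (nat_lit 816) (nat_lit 18590859261785407496)
 (.ev (nat_lit 1012) (nat_lit 36028797018963968) (.ev (nat_lit 1021) (nat_lit 2048) .dd)))))) (.br (nat_lit 21)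
 (.br (nat_lit 20) (.ch (nat_lit 16) (.ev (nat_lit 816) (nat_lit 18482772870728517640) (.ev (nat_lit 829)
 (nat_lit 144115188075855872) .dd))) (.ch (nat_lit 20) (.ev (nat_lit 816) (nat_lit 18590859261785407488) (.ev
 (nat_lit 1136) (nat_lit 36028797018966016) (.ev (nat_lit 1149) (nat_lit 8) .dd))))) (.br (nat_lit 22) (.ch
 (nat_lit 21) (.ev (nat_lit 816) (nat_lit 36028797018966016) (.ev (nat_lit 1072) (nat_lit 144115188075855872)
 (.fin (nat_lit 576468998621184572))))) (.ch (nat_lit 22) (.ev (nat_lit 816) (nat_lit 36028797018966024) (.ev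
 (nat_lit 916) (nat_lit 18446744073709551616) (.ev (nat_lit 925) (nat_lit 144115188075855872)
 .dd))))))))))))))) (.ch (nat_lit 27) (.ev (nat_lit 52) (nat_lit 594935380000624377864) (.ev (nat_lit 84)
 (nat_lit 144115188075855872) (.ev (nat_lit 116) (nat_lit 70368744177664) (.ev (nat_lit 148) (nat_lit
 1180591620717411303424) (.ev (nat_lit 276) (nat_lit 524288) (.nd (nat_lit 800) (.br (nat_lit 16) (.br (nat_lit
 10) (.br (nat_lit 7) (.ch (nat_lit 3) (.ev (nat_lit 816) (nat_lit 18446884811197909248) (.ev (nat_lit 928)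
 (nat_lit 36028797018963968) (.ev (nat_lit 1056) (nat_lit 8796093022208) (.ev (nat_lit 1069) (nat_lit 4096)
 .dd))))) (.br (nat_lit 8) (.ch (nat_lit 7) (.ev (nat_lit 816) (nat_lit 18482922404309897216) (.ev (nat_lit
 916) (nat_lit 256) (.ev (nat_lit 925) (nat_lit 2048) .dd)))) (.ch (nat_lit 8) (.ev (nat_lit 816) (nat_lit
 36169534507325696) (.ev (nat_lit 916) (nat_lit 8796093022208) (.ev (nat_lit 925) (nat_lit
 18446744073709551616) .dd)))))) (.br (nat_lit 13) (.ch (nat_lit 10) (.ev (nat_lit 816) (nat_lit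
 36178330600345856) (.ev (nat_lit 916) (nat_lit 2048) (.ev (nat_lit 925) (nat_lit 18446744073709551616) .dd))))
 (.br (nat_lit 14) (.ch (nat_lit 13) (.ev (nat_lit 816) (nat_lit 18482922404309895424) (.ev (nat_lit 829)
 (nat_lit 4096) .dd))) (.ch (nat_lit 14) (.ev (nat_lit 816) (nat_lit 149533581381632) (.ev (nat_lit 916)
 (nat_lit 36028797018966016) (.ev (nat_lit 1012) (nat_lit 256) (.ev (nat_lit 1021) (nat_lit
 18446744073709551616) .dd)))))))) (.br (nat_lit 19) (.br (nat_lit 17) (.ch (nat_lit 16) (.ev (nat_lit 816)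
 (nat_lit 18482772870728521728) (.ev (nat_lit 832) (nat_lit 256) (.fin (nat_lit 576487690357654102))))) (.br
 (nat_lit 18) (.ch (nat_lit 17) (.ev (nat_lit 816) (nat_lit 18482781666821544192) (.ev (nat_lit 829) (nat_lit
 140737488355328) .dd))) (.ch (nat_lit 18) (.ev (nat_lit 816) (nat_lit 18482922404309899520) .dd)))) (.br
 (nat_lit 22) (.br (nat_lit 21) (.ch (nat_lit 19) (.ev (nat_lit 816) (nat_lit 36037593111992576) (.ev (nat_lit
 916) (nat_lit 140737488355328) (.ev (nat_lit 925) (nat_lit 18446744073709551616) .dd)))) (.ch (nat_lit 21)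
 (.ev (nat_lit 816) (nat_lit 149533581383936) (.ev (nat_lit 1012) (nat_lit 18446744073709551616) (.ev (nat_lit
 1021) (nat_lit 36028797018963968) .dd))))) (.br (nat_lit 24) (.ch (nat_lit 22) (.ev (nat_lit 816) (nat_lit
 36178330600341760) (.ev (nat_lit 916) (nat_lit 18446744073709555712) (.ev (nat_lit 925) (nat_lit 2048) .dd))))
 (.ch (nat_lit 24) (.ev (nat_lit 816) (nat_lit 36178330600347904) (.ev (nat_lit 829) (nat_lit
 18446744073709551616) .dd)))))))))))))))) (.br (nat_lit 31) (.br (nat_lit 29) (.ch (nat_lit 28) (.ev (nat_lit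
 52) (nat_lit 1771031634233717201152) (.ev (nat_lit 116) (nat_lit 18446744073710075904) (.ev (nat_lit 148)
 (nat_lit 18014398509481984) (.ev (nat_lit 180) (nat_lit 9007199271518208) (.ev (nat_lit 212) (nat_lit
 562949953421312) (.ev (nat_lit 244) (nat_lit 4611686018427387904) (.ev (nat_lit 710) (nat_lit
 36028797018963968) (.nd (nat_lit 800) (.br (nat_lit 13) (.br (nat_lit 8) (.br (nat_lit 4) (.ch (nat_lit 3)
 (.ev (nat_lit 816) (nat_lit 281474976710664) (.ev (nat_lit 928) (nat_lit 140737488355328) (.ev (nat_lit 941)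
 (nat_lit 8796093022208) .dd)))) (.br (nat_lit 7) (.ch (nat_lit 4) (.ev (nat_lit 816) (nat_lit 290271069732864)
 (.ev (nat_lit 1012) (nat_lit 140737488355328) (.ev (nat_lit 1021) (nat_lit 8) .dd)))) (.ch (nat_lit 7) (.ev
 (nat_lit 816) (nat_lit 149533581377544) (.ev (nat_lit 829) (nat_lit 281474976710656) .dd))))) (.br (nat_lit
 10) (.ch (nat_lit 8) (.ev (nat_lit 816) (nat_lit 422212465065992) (.ev (nat_lit 829) (nat_lit 8796093022208)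
 .dd))) (.br (nat_lit 12) (.ch (nat_lit 10) (.ev (nat_lit 816) (nat_lit 431008558088192) (.ev (nat_lit 829)
 (nat_lit 8) .dd))) (.ch (nat_lit 12) (.ev (nat_lit 816) (nat_lit 431008558088200) .dd))))) (.br (nat_lit 18)
 (.br (nat_lit 15) (.ch (nat_lit 13) (.ev (nat_lit 816) (nat_lit 431008558088200) .dd)) (.br (nat_lit 16) (.ch
 (nat_lit 15) (.ev (nat_lit 816) (nat_lit 149533581377544) (.ev (nat_lit 829) (nat_lit 281474976710656) .dd)))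
 (.ch (nat_lit 16) (.ev (nat_lit 816) (nat_lit 281474976710664) (.fin (nat_lit 576487690357654102)))))) (.br
 (nat_lit 24) (.br (nat_lit 22) (.ch (nat_lit 18) (.ev (nat_lit 816) (nat_lit 431008558088192) (.ev (nat_lit
 829) (nat_lit 8) .dd))) (.ch (nat_lit 22) (.ev (nat_lit 816) (nat_lit 149533581377544) (.ev (nat_lit 829)
 (nat_lit 281474976710656) .dd)))) (.br (nat_lit 26) (.ch (nat_lit 24) (.ev (nat_lit 816) (nat_lit
 431008558088200) .dd)) (.ch (nat_lit 26) (.ev (nat_lit 816) (nat_lit 281474976710664) (.ev (nat_lit 916)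
 (nat_lit 8796093022208) (.ev (nat_lit 925) (nat_lit 140737488355328) .dd))))))))))))))))) (.ch (nat_lit 29)
 (.ev (nat_lit 52) (nat_lit 1203705158332336603392) (.ev (nat_lit 84) (nat_lit 16781312) (.ev (nat_lit 116)
 (nat_lit 590295810358705653760) (.ev (nat_lit 180) (nat_lit 524288) (.ev (nat_lit 256) (nat_lit
 153139988106575880) .dd))))))) (.br (nat_lit 32) (.ch (nat_lit 31) (.ev (nat_lit 52) (nat_lit
 18618470206372057352) (.ev (nat_lit 128) (nat_lit 1775535638472794081280) .dd))) (.ch (nat_lit 32) (.ev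
 (nat_lit 52) (nat_lit 613381904172004706304) (.ev (nat_lit 84) (nat_lit 17592186044416) (.ev (nat_lit 180)
 (nat_lit 36169534507319304) (.nd (nat_lit 800) (.br (nat_lit 16) (.br (nat_lit 12) (.br (nat_lit 5) (.ch
 (nat_lit 3) (.ev (nat_lit 816) (nat_lit 144115188080050432) (.ev (nat_lit 1012) (nat_lit 281474976710656) (.ev
 (nat_lit 1188) (nat_lit 4096) (.ev (nat_lit 1197) (nat_lit 1180591620717411303424) .dd))))) (.ch (nat_lit 5)
 (.ev (nat_lit 816) (nat_lit 1180736017380468068608) .dd))) (.br (nat_lit 14) (.ch (nat_lit 12) (.ev (nat_lit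
 816) (nat_lit 1180736017380468068352) (.ev (nat_lit 829) (nat_lit 256) .dd))) (.br (nat_lit 15) (.ch (nat_lit
 14) (.ev (nat_lit 816) (nat_lit 144396663056765184) (.ev (nat_lit 829) (nat_lit 1180591620717411303424) .dd)))
 (.ch (nat_lit 15) (.ev (nat_lit 816) (nat_lit 1180736017380468068608) .dd))))) (.br (nat_lit 22) (.br (nat_lit
 17) (.ch (nat_lit 16) (.ev (nat_lit 816) (nat_lit 1180736017380468064256) (.ev (nat_lit 960) (nat_lit 256)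
 (.ev (nat_lit 973) (nat_lit 4096) .dd)))) (.br (nat_lit 19) (.ch (nat_lit 17) (.ev (nat_lit 816) (nat_lit
 1180736017380463870208) (.ev (nat_lit 1156) (nat_lit 4194304) (.ev (nat_lit 1165) (nat_lit 4096) .dd)))) (.ch
 (nat_lit 19) (.ev (nat_lit 816) (nat_lit 1180591902192392212736) (.ev (nat_lit 829) (nat_lit
 144115188075855872) .dd))))) (.br (nat_lit 24) (.ch (nat_lit 22) (.ev (nat_lit 816) (nat_lit
 144115188080050432) (.ev (nat_lit 916) (nat_lit 4096) (.ev (nat_lit 1012) (nat_lit 281474976710656) (.ev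
 (nat_lit 1021) (nat_lit 1180591620717411303424) .dd))))) (.br (nat_lit 26) (.ch (nat_lit 24) (.ev (nat_lit
 816) (nat_lit 144396663056765184) (.ev (nat_lit 829) (nat_lit 1180591620717411303424) .dd))) (.ch (nat_lit 26)
 (.ev (nat_lit 816) (nat_lit 144396663052566528) (.ev (nat_lit 880) (nat_lit 256) (.ev (nat_lit 896) (nat_lit
 1180591620717411303424) (.ev (nat_lit 916) (nat_lit 4194304) (.ev (nat_lit 925) (nat_lit 4096)
 .dd)))))))))))))))))) (.br (nat_lit 42) (.br (nat_lit 36) (.br (nat_lit 35) (.ch (nat_lit 33) (.ev (nat_lit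
 52) (nat_lit 595051620369896046592) (.ev (nat_lit 64) (nat_lit 1199102488309270092040) .dd))) (.ch (nat_lit
 35) (.ev (nat_lit 52) (nat_lit 1199237235666850416896) (.ev (nat_lit 84) (nat_lit 351843720888320) (.ev
 (nat_lit 116) (nat_lit 16777216) (.ev (nat_lit 180) (nat_lit 8) (.ev (nat_lit 212) (nat_lit 9007199254740992)
 (.ev (nat_lit 224) (nat_lit 594907513969323315200) .dd)))))))) (.br (nat_lit 38) (.ch (nat_lit 36) (.ev
 (nat_lit 52) (nat_lit 1199047671057555128328) (.ev (nat_lit 84) (nat_lit 562949953421312) (.ev (nat_lit 116)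
 (nat_lit 4665738010048856064) (.ev (nat_lit 148) (nat_lit 140737488361472) (.ev (nat_lit 212) (nat_lit
 8589934592) (.ev (nat_lit 276) (nat_lit 32768) (.nd (nat_lit 800) (.br (nat_lit 16) (.br (nat_lit 12) (.br
 (nat_lit 7) (.ch (nat_lit 4) (.ev (nat_lit 816) (nat_lit 590439995915526209792) (.ev (nat_lit 829) (nat_lit
 4194304) .dd))) (.ch (nat_lit 7) (.ev (nat_lit 816) (nat_lit 144185556824228096) (.ev (nat_lit 832) (nat_lit
 524288) (.ev (nat_lit 845) (nat_lit 590295810358705651712) .dd))))) (.br (nat_lit 13) (.ch (nat_lit 12) (.ev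
 (nat_lit 816) (nat_lit 590439995915530403840) (.ev (nat_lit 829) (nat_lit 256) .dd))) (.ch (nat_lit 13) (.ev
 (nat_lit 816) (nat_lit 590439925546786226432) (.ev (nat_lit 829) (nat_lit 70368744177664) .dd))))) (.br
 (nat_lit 20) (.br (nat_lit 18) (.ch (nat_lit 16) (.ev (nat_lit 816) (nat_lit 590295880727454548224) (.ev
 (nat_lit 829) (nat_lit 144115188075855872) .dd))) (.ch (nat_lit 18) (.ev (nat_lit 816) (nat_lit
 590439995915529879808) (.ev (nat_lit 829) (nat_lit 524288) .dd)))) (.br (nat_lit 24) (.ch (nat_lit 20) (.ev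
 (nat_lit 816) (nat_lit 590439995915526209792) (.ev (nat_lit 829) (nat_lit 4194304) .dd))) (.br (nat_lit 26)
 (.ch (nat_lit 24) (.ev (nat_lit 816) (nat_lit 590439995915530403840) (.ev (nat_lit 829) (nat_lit 256) .dd)))
 (.ch (nat_lit 26) (.ev (nat_lit 816) (nat_lit 144185556820558080) (.ev (nat_lit 916) (nat_lit
 590295810358705651712) (.ev (nat_lit 925) (nat_lit 4194304) .dd)))))))))))))))) (.ch (nat_lit 38) (.ev
 (nat_lit 52) (nat_lit 18509944002091452424) (.ev (nat_lit 84) (nat_lit 562949953421312) (.ev (nat_lit 148)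
 (nat_lit 8589934592) (.ev (nat_lit 160) (nat_lit 1775643601718531330304) .dd))))))) (.br (nat_lit 45) (.br
 (nat_lit 44) (.ch (nat_lit 42) (.ev (nat_lit 52) (nat_lit 23077165778864736256) (.ev (nat_lit 84) (nat_lit
 180143985111597056) (.ev (nat_lit 116) (nat_lit 70368744181760) (.ev (nat_lit 148) (nat_lit
 1770887431076116955136) (.ev (nat_lit 180) (nat_lit 281474976710664) (.nd (nat_lit 800) (.br (nat_lit 14) (.br
 (nat_lit 8) (.br (nat_lit 7) (.ch (nat_lit 3) (.ev (nat_lit 816) (nat_lit 9015995351957760) .dd)) (.ch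
 (nat_lit 7) (.ev (nat_lit 816) (nat_lit 9015995351957760) .dd))) (.br (nat_lit 10) (.ch (nat_lit 8) (.ev
 (nat_lit 816) (nat_lit 9015995351957760) .dd)) (.br (nat_lit 13) (.ch (nat_lit 10) (.ev (nat_lit 816) (nat_lit
 9015995351957760) .dd)) (.ch (nat_lit 13) (.ev (nat_lit 816) (nat_lit 9015995351957760) .dd))))) (.br (nat_lit
 20) (.br (nat_lit 16) (.ch (nat_lit 14) (.ev (nat_lit 816) (nat_lit 9015995351957760) .dd)) (.br (nat_lit 18)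
 (.ch (nat_lit 16) (.ev (nat_lit 816) (nat_lit 9015995347763456) (.ev (nat_lit 829) (nat_lit 4194304) .dd)))
 (.ch (nat_lit 18) (.ev (nat_lit 816) (nat_lit 9015995351957760) .dd)))) (.br (nat_lit 21) (.ch (nat_lit 20)
 (.ev (nat_lit 816) (nat_lit 256) (.ev (nat_lit 1012) (nat_lit 4194304) (.nd (nat_lit 1808) (.br (nat_lit 11)
 (.ch (nat_lit 6) (.fin (nat_lit 576448107915985471))) (.ch (nat_lit 11) (.ev (nat_lit 1824) (nat_lit
 9015995347763200) .dd))))))) (.br (nat_lit 26) (.ch (nat_lit 21) (.ev (nat_lit 816) (nat_lit 9015995351957760)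
 .dd)) (.ch (nat_lit 26) (.ev (nat_lit 816) (nat_lit 9015995347763200) (.ev (nat_lit 928) (nat_lit 256) (.ev
 (nat_lit 941) (nat_lit 4194304) .dd))))))))))))))) (.ch (nat_lit 44) (.ev (nat_lit 52) (nat_lit
 1775643522553689937928) (.ev (nat_lit 84) (nat_lit 36169534507319296) (.ev (nat_lit 116) (nat_lit 256) (.ev
 (nat_lit 148) (nat_lit 18464758472219033600) (.ev (nat_lit 160) (nat_lit 9658118749847552) .dd))))))) (.br
 (nat_lit 46) (.ch (nat_lit 45) (.ev (nat_lit 52) (nat_lit 1789371277078800924928) (.ev (nat_lit 84) (nat_lit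
 144115188080050176) (.ev (nat_lit 148) (nat_lit 4096) (.ev (nat_lit 180) (nat_lit 8) (.ev (nat_lit 212)
 (nat_lit 2048) (.ev (nat_lit 244) (nat_lit 524288) (.nd (nat_lit 800) (.br (nat_lit 15) (.br (nat_lit 5) (.br
 (nat_lit 4) (.ch (nat_lit 3) (.ev (nat_lit 816) (nat_lit 4638716412284633088) .dd)) (.ch (nat_lit 4) (.ev
 (nat_lit 816) (nat_lit 9015995347763200) (.ev (nat_lit 928) (nat_lit 4611686018427387904) (.ev (nat_lit 941)
 (nat_lit 18014398509481984) .dd))))) (.br (nat_lit 7) (.ch (nat_lit 5) (.ev (nat_lit 816) (nat_lit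
 4638716412284633088) .dd)) (.br (nat_lit 10) (.ch (nat_lit 7) (.ev (nat_lit 816) (nat_lit 4638716412284633088)
 .dd)) (.ch (nat_lit 10) (.ev (nat_lit 816) (nat_lit 4620702013775151104) (.ev (nat_lit 829) (nat_lit
 18014398509481984) .dd)))))) (.br (nat_lit 21) (.br (nat_lit 18) (.ch (nat_lit 15) (.ev (nat_lit 816) (nat_lit
 4638716412284633088) .dd)) (.br (nat_lit 20) (.ch (nat_lit 18) (.ev (nat_lit 816) (nat_lit
 4638716412284633088) .dd)) (.ch (nat_lit 20) (.ev (nat_lit 816) (nat_lit 4611686018427387904) (.ev (nat_lit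
 1012) (nat_lit 18014398509481984) (.nd (nat_lit 1808) (.br (nat_lit 6) (.ch (nat_lit 3) (.ev (nat_lit 1824)
 (nat_lit 9015995347763200) .dd)) (.ch (nat_lit 6) (.fin (nat_lit 576448107915985471)))))))))) (.br (nat_lit
 24) (.ch (nat_lit 21) (.ev (nat_lit 816) (nat_lit 4638716412284633088) .dd)) (.br (nat_lit 26) (.ch (nat_lit
 24) (.ev (nat_lit 816) (nat_lit 4638716412284633088) .dd)) (.ch (nat_lit 26) (.ev (nat_lit 816) (nat_lit
 4638716412284633088) .dd)))))))))))))) (.ch (nat_lit 46) (.ev (nat_lit 52) (nat_lit 1180745605130448570368)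
 (.ev (nat_lit 84) (nat_lit 590295880727449829376) (.ev (nat_lit 148) (nat_lit 4194304) (.ev (nat_lit 160)
 (nat_lit 23112622821263544584) .dd))))))))))))

/-- The trie. -/
noncomputable def T : Tr := .nd (nat_lit 1000000) (.br (nat_lit 9) (.br (nat_lit 5) (.br (nat_lit 3) (.br
 (nat_lit 1) (.ch (nat_lit 0) (.ev (nat_lit 0) (nat_lit 2361183241434822606847) .dd)) (.ch (nat_lit 1) T1))
 (.br (nat_lit 4) (.ch (nat_lit 3) (.ev (nat_lit 0) (nat_lit 2361183241434822606847) .dd)) (.ch (nat_lit 4)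
 T4))) (.br (nat_lit 7) (.br (nat_lit 6) (.ch (nat_lit 5) (.ev (nat_lit 0) (nat_lit 2361183241434822606847)
 .dd)) (.ch (nat_lit 6) T6)) (.br (nat_lit 8) (.ch (nat_lit 7) (.ev (nat_lit 0) (nat_lit
 2361183241434822606847) .dd)) (.ch (nat_lit 8) T8)))) (.br (nat_lit 16) (.br (nat_lit 11) (.br (nat_lit 10)
 (.ch (nat_lit 9) (.ev (nat_lit 0) (nat_lit 2361183241434822606847) .dd)) (.ch (nat_lit 10) (.ev (nat_lit 0)
 (nat_lit 2361183241434822606847) .dd))) (.br (nat_lit 12) (.ch (nat_lit 11) (.ev (nat_lit 0) (nat_lit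
 2361183241434822606847) .dd)) (.ch (nat_lit 12) (.ev (nat_lit 0) (nat_lit 2361183241434822606847) .dd)))) (.br
 (nat_lit 19) (.br (nat_lit 17) (.ch (nat_lit 16) (.ev (nat_lit 0) (nat_lit 2361183241434822606847) .dd)) (.ch
 (nat_lit 17) (.ev (nat_lit 0) (nat_lit 2361183241434822606847) .dd))) (.br (nat_lit 30) (.ch (nat_lit 19) T19)
 (.ch (nat_lit 30) (.ev (nat_lit 0) (nat_lit 2361183241434822606847) .dd))))))

/-- The possible values. -/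
noncomputable def oks : List ℕ := [21, 34, 115, 460, 706, 1035, 2218]

/-- The parameters. -/
noncomputable def S : Pr := ⟨fun i l e => lget mz (lget [] (lget [] tabs i) l) e, oks, [(nat_lit 0), (nat_lit
 1), (nat_lit 0), (nat_lit 0)], T, (nat_lit 2361183241434822606847), (nat_lit 87122173451996128837), (nat_lit
 71), [(nat_lit 1073946281), (nat_lit 12800101590481)], [(nat_lit 29791), (nat_lit 2209)]⟩

/-- Nothing known. -/
noncomputable def cs0 : Cs := (.cons (nat_lit 31) (nat_lit 0) (nat_lit 1) (.cons (nat_lit 47) (nat_lit 0) (nat_lit 1) .nil))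

theorem part_1 : part S cs0 (nat_lit 1) = true := by decide +kernel

theorem part_4 : part S cs0 (nat_lit 4) = true := by decide +kernel

theorem part_6 : part S cs0 (nat_lit 6) = true := by decide +kernel

theorem part_8 : part S cs0 (nat_lit 8) = true := by decide +kernel

theorem part_19 : part S cs0 (nat_lit 19) = true := by decide +kernel

/-- Data of a prime. -/
noncomputable def D0 : PD := ⟨(nat_lit 31), (nat_lit 3), (16772, 8, 13), (22384, 27737, 22381), (13159, 15341, 21428)⟩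

theorem D0_ok : D0.Ok := pdb_sound (s := 3) (C := ⟨⟨11, 26, -43, -19, 34, 32, -12, -3, -1⟩, (11, 12, 19)⟩) (by show Nat.Prime 31; norm_num) (by decide +kernel)

/-- Lines of the first type. -/
noncomputable def Cl0 : List C1 := [⟨⟨-11, -26, -32, 19, -34, 13, 12, 3, -13⟩, (22, 24, 7)⟩,
  ⟨⟨0, 0, 0, 0, 0, 0, 0, 0, 0⟩, (0, 0, 0)⟩,
  ⟨⟨0, 0, 0, 0, 0, 0, 0, 0, 0⟩, (0, 0, 0)⟩,
  ⟨⟨29, 26, -37, 21, 6, 32, 8, -11, -7⟩, (2, 10, 23)⟩,
  ⟨⟨0, 0, 0, 0, 0, 0, 0, 0, 0⟩, (0, 0, 0)⟩,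
  ⟨⟨21, 6, -53, 29, 26, 8, 8, -11, -1⟩, (6, 26, 20)⟩,
  ⟨⟨0, 0, 0, 0, 0, 0, 0, 0, 0⟩, (0, 0, 0)⟩,
  ⟨⟨29, -26, -37, 21, -6, 32, 8, 11, -7⟩, (27, 11, 16)⟩,
  ⟨⟨0, 0, 0, 0, 0, 0, 0, 0, 0⟩, (0, 0, 0)⟩,
  ⟨⟨-9, -6, -43, -41, 14, 28, 4, 13, -5⟩, (4, 1, 12)⟩,
  ⟨⟨9, -6, -52, -41, -14, 13, -4, 13, -1⟩, (29, 16, 25)⟩,
  ⟨⟨21, -6, -53, 29, -26, 8, 8, 11, -1⟩, (7, 20, 13)⟩,
  ⟨⟨9, 6, -52, -41, 14, 13, -4, -13, -1⟩, (28, 24, 22)⟩,
  ⟨⟨0, 0, 0, 0, 0, 0, 0, 0, 0⟩, (0, 0, 0)⟩,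
  ⟨⟨0, 0, 0, 0, 0, 0, 0, 0, 0⟩, (0, 0, 0)⟩,
  ⟨⟨0, 0, 0, 0, 0, 0, 0, 0, 0⟩, (0, 0, 0)⟩,
  ⟨⟨11, -26, -43, -19, -34, 32, -12, 3, -1⟩, (25, 16, 15)⟩,
  ⟨⟨-9, 6, -43, -41, -14, 28, 4, -13, -5⟩, (3, 24, 9)⟩,
  ⟨⟨0, 0, 0, 0, 0, 0, 0, 0, 0⟩, (0, 0, 0)⟩,
  ⟨⟨0, 0, 0, 0, 0, 0, 0, 0, 0⟩, (0, 0, 0)⟩,
  ⟨⟨0, 0, 0, 0, 0, 0, 0, 0, 0⟩, (0, 0, 0)⟩,
  ⟨⟨0, 0, 0, 0, 0, 0, 0, 0, 0⟩, (0, 0, 0)⟩,
  ⟨⟨0, 0, 0, 0, 0, 0, 0, 0, 0⟩, (0, 0, 0)⟩,
  ⟨⟨0, 0, 0, 0, 0, 0, 0, 0, 0⟩, (0, 0, 0)⟩,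
  ⟨⟨0, 0, 0, 0, 0, 0, 0, 0, 0⟩, (0, 0, 0)⟩,
  ⟨⟨0, 0, 0, 0, 0, 0, 0, 0, 0⟩, (0, 0, 0)⟩,
  ⟨⟨0, 0, 0, 0, 0, 0, 0, 0, 0⟩, (0, 0, 0)⟩,
  ⟨⟨0, 0, 0, 0, 0, 0, 0, 0, 0⟩, (0, 0, 0)⟩,
  ⟨⟨0, 0, 0, 0, 0, 0, 0, 0, 0⟩, (0, 0, 0)⟩,
  ⟨⟨0, 0, 0, 0, 0, 0, 0, 0, 0⟩, (0, 0, 0)⟩,
  ⟨⟨-11, 26, -32, 19, 34, 13, 12, -3, -13⟩, (28, 8, 23)⟩]

/-- Data of a prime. -/
noncomputable def D1 : PD := ⟨(nat_lit 47), (nat_lit 2), (1034, 1, 9), (105, 517, 2039), (987, 5, 190)⟩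

theorem D1_ok : D1.Ok := pdb_sound (s := 1) (C := ⟨⟨47, 2, -76, 47, -2, 29, 0, -21, -1⟩, (2, 45, 26)⟩) (by show Nat.Prime 47; norm_num) (by decide +kernel)

/-- Lines of the first type. -/
noncomputable def Cl1 : List C1 := [⟨⟨47, -2, -76, 47, 2, 29, 0, 21, -1⟩, (9, 38, 23)⟩,
  ⟨⟨0, 0, 0, 0, 0, 0, 0, 0, 0⟩, (0, 0, 0)⟩,
  ⟨⟨0, 0, 0, 0, 0, 0, 0, 0, 0⟩, (0, 0, 0)⟩,
  ⟨⟨0, 0, 0, 0, 0, 0, 0, 0, 0⟩, (0, 0, 0)⟩,
  ⟨⟨17, 22, -76, -63, 18, 19, -4, -19, -7⟩, (10, 21, 17)⟩,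
  ⟨⟨0, 0, 0, 0, 0, 0, 0, 0, 0⟩, (0, 0, 0)⟩,
  ⟨⟨57, -18, -61, -23, -62, 4, -8, 5, -17⟩, (3, 26, 7)⟩,
  ⟨⟨57, 18, -61, -23, 62, 4, -8, -5, -17⟩, (16, 29, 6)⟩,
  ⟨⟨53, -22, -64, -13, -62, 29, -12, -3, -13⟩, (46, 10, 2)⟩,
  ⟨⟨0, 0, 0, 0, 0, 0, 0, 0, 0⟩, (0, 0, 0)⟩,
  ⟨⟨43, -38, -59, 3, -42, 56, -16, -11, -1⟩, (35, 9, 46)⟩,
  ⟨⟨0, 0, 0, 0, 0, 0, 0, 0, 0⟩, (0, 0, 0)⟩,
  ⟨⟨0, 0, 0, 0, 0, 0, 0, 0, 0⟩, (0, 0, 0)⟩,
  ⟨⟨-17, -22, -59, -63, 18, 44, 4, 19, -11⟩, (15, 39, 2)⟩,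
  ⟨⟨0, 0, 0, 0, 0, 0, 0, 0, 0⟩, (0, 0, 0)⟩,
  ⟨⟨0, 0, 0, 0, 0, 0, 0, 0, 0⟩, (0, 0, 0)⟩,
  ⟨⟨0, 0, 0, 0, 0, 0, 0, 0, 0⟩, (0, 0, 0)⟩,
  ⟨⟨53, 22, -64, -13, 62, 29, -12, 3, -13⟩, (41, 13, 12)⟩,
  ⟨⟨0, 0, 0, 0, 0, 0, 0, 0, 0⟩, (0, 0, 0)⟩,
  ⟨⟨0, 0, 0, 0, 0, 0, 0, 0, 0⟩, (0, 0, 0)⟩,
  ⟨⟨0, 0, 0, 0, 0, 0, 0, 0, 0⟩, (0, 0, 0)⟩,
  ⟨⟨0, 0, 0, 0, 0, 0, 0, 0, 0⟩, (0, 0, 0)⟩,
  ⟨⟨0, 0, 0, 0, 0, 0, 0, 0, 0⟩, (0, 0, 0)⟩,
  ⟨⟨43, 38, -59, 3, 42, 56, -16, 11, -1⟩, (5, 8, 20)⟩,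
  ⟨⟨3, -42, -59, 43, -38, 16, 16, 11, -17⟩, (39, 42, 20)⟩,
  ⟨⟨0, 0, 0, 0, 0, 0, 0, 0, 0⟩, (0, 0, 0)⟩,
  ⟨⟨0, 0, 0, 0, 0, 0, 0, 0, 0⟩, (0, 0, 0)⟩,
  ⟨⟨0, 0, 0, 0, 0, 0, 0, 0, 0⟩, (0, 0, 0)⟩,
  ⟨⟨0, 0, 0, 0, 0, 0, 0, 0, 0⟩, (0, 0, 0)⟩,
  ⟨⟨0, 0, 0, 0, 0, 0, 0, 0, 0⟩, (0, 0, 0)⟩,
  ⟨⟨-13, -62, -16, 53, -22, 11, 12, 3, -25⟩, (34, 6, 12)⟩,
  ⟨⟨0, 0, 0, 0, 0, 0, 0, 0, 0⟩, (0, 0, 0)⟩,
  ⟨⟨0, 0, 0, 0, 0, 0, 0, 0, 0⟩, (0, 0, 0)⟩,
  ⟨⟨0, 0, 0, 0, 0, 0, 0, 0, 0⟩, (0, 0, 0)⟩,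
  ⟨⟨17, -22, -76, -63, -18, 19, -4, 19, -7⟩, (15, 8, 2)⟩,
  ⟨⟨0, 0, 0, 0, 0, 0, 0, 0, 0⟩, (0, 0, 0)⟩,
  ⟨⟨0, 0, 0, 0, 0, 0, 0, 0, 0⟩, (0, 0, 0)⟩,
  ⟨⟨3, 42, -59, 43, 38, 16, 16, -11, -17⟩, (38, 12, 46)⟩,
  ⟨⟨0, 0, 0, 0, 0, 0, 0, 0, 0⟩, (0, 0, 0)⟩,
  ⟨⟨-13, 62, -16, 53, 22, 11, 12, -3, -25⟩, (37, 1, 2)⟩,
  ⟨⟨23, 62, -19, 57, -18, 4, 8, -5, -25⟩, (29, 31, 6)⟩,
  ⟨⟨23, -62, -19, 57, 18, 4, 8, 5, -25⟩, (26, 44, 7)⟩,
  ⟨⟨0, 0, 0, 0, 0, 0, 0, 0, 0⟩, (0, 0, 0)⟩,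
  ⟨⟨-17, 22, -59, -63, -18, 44, 4, -19, -11⟩, (10, 26, 17)⟩,
  ⟨⟨0, 0, 0, 0, 0, 0, 0, 0, 0⟩, (0, 0, 0)⟩,
  ⟨⟨0, 0, 0, 0, 0, 0, 0, 0, 0⟩, (0, 0, 0)⟩,
  ⟨⟨0, 0, 0, 0, 0, 0, 0, 0, 0⟩, (0, 0, 0)⟩]

/-- Data of a prime. -/
noncomputable def Dm : PD := ⟨(nat_lit 71), (nat_lit 2), (72, 9, 33), (3977, 4536, 3372), (4173, 4400, 3526)⟩

theorem Dm_ok : Dm.Ok := pdb_sound (s := 11) (C := ⟨⟨59, 34, -112, -29, 94, 37, -24, -3, -11⟩, (59, 42, 47)⟩) (by show Nat.Prime 71; norm_num) (by decide +kernel)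

/-- Lines of the first type. -/
noncomputable def Clm : List C1 := [⟨⟨-59, -34, -53, 29, -94, 8, 24, 3, -35⟩, (17, 47, 34)⟩,
  ⟨⟨0, 0, 0, 0, 0, 0, 0, 0, 0⟩, (0, 0, 0)⟩,
  ⟨⟨49, -74, -77, 79, 14, 28, 12, 21, -29⟩, (59, 56, 13)⟩,
  ⟨⟨0, 0, 0, 0, 0, 0, 0, 0, 0⟩, (0, 0, 0)⟩,
  ⟨⟨0, 0, 0, 0, 0, 0, 0, 0, 0⟩, (0, 0, 0)⟩,
  ⟨⟨0, 0, 0, 0, 0, 0, 0, 0, 0⟩, (0, 0, 0)⟩,
  ⟨⟨79, -14, -107, 49, 74, 28, -12, 21, -17⟩, (44, 21, 5)⟩,
  ⟨⟨0, 0, 0, 0, 0, 0, 0, 0, 0⟩, (0, 0, 0)⟩,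
  ⟨⟨0, 0, 0, 0, 0, 0, 0, 0, 0⟩, (0, 0, 0)⟩,
  ⟨⟨39, 66, -92, -89, 46, 37, -8, -19, -23⟩, (13, 65, 21)⟩,
  ⟨⟨19, 46, -107, -91, -26, 8, 12, -27, -19⟩, (7, 30, 53)⟩,
  ⟨⟨0, 0, 0, 0, 0, 0, 0, 0, 0⟩, (0, 0, 0)⟩,
  ⟨⟨0, 0, 0, 0, 0, 0, 0, 0, 0⟩, (0, 0, 0)⟩,
  ⟨⟨99, 6, -67, 11, -94, 32, -4, -11, -31⟩, (13, 33, 59)⟩,
  ⟨⟨-39, -66, -53, -89, 46, 52, 8, 19, -31⟩, (17, 57, 22)⟩,
  ⟨⟨0, 0, 0, 0, 0, 0, 0, 0, 0⟩, (0, 0, 0)⟩,
  ⟨⟨0, 0, 0, 0, 0, 0, 0, 0, 0⟩, (0, 0, 0)⟩,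
  ⟨⟨19, -46, -107, -91, 26, 8, 12, 27, -19⟩, (15, 44, 2)⟩,
  ⟨⟨0, 0, 0, 0, 0, 0, 0, 0, 0⟩, (0, 0, 0)⟩,
  ⟨⟨0, 0, 0, 0, 0, 0, 0, 0, 0⟩, (0, 0, 0)⟩,
  ⟨⟨51, 66, -88, -59, 74, 67, -20, -5, -17⟩, (59, 64, 59)⟩,
  ⟨⟨49, 74, -77, 79, -14, 28, 12, -21, -29⟩, (6, 43, 29)⟩,
  ⟨⟨0, 0, 0, 0, 0, 0, 0, 0, 0⟩, (0, 0, 0)⟩,
  ⟨⟨0, 0, 0, 0, 0, 0, 0, 0, 0⟩, (0, 0, 0)⟩,
  ⟨⟨0, 0, 0, 0, 0, 0, 0, 0, 0⟩, (0, 0, 0)⟩,
  ⟨⟨31, 74, -83, -81, 54, 68, -16, -13, -19⟩, (8, 2, 60)⟩,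
  ⟨⟨0, 0, 0, 0, 0, 0, 0, 0, 0⟩, (0, 0, 0)⟩,
  ⟨⟨11, 94, -43, -99, 6, 32, 4, -11, -35⟩, (69, 18, 38)⟩,
  ⟨⟨-51, 66, -37, 59, 74, 8, 20, -5, -37⟩, (25, 56, 25)⟩,
  ⟨⟨0, 0, 0, 0, 0, 0, 0, 0, 0⟩, (0, 0, 0)⟩,
  ⟨⟨39, -66, -92, -89, -46, 37, -8, 19, -23⟩, (43, 2, 64)⟩,
  ⟨⟨0, 0, 0, 0, 0, 0, 0, 0, 0⟩, (0, 0, 0)⟩,
  ⟨⟨59, -34, -112, -29, -94, 37, -24, 3, -11⟩, (9, 4, 18)⟩,
  ⟨⟨0, 0, 0, 0, 0, 0, 0, 0, 0⟩, (0, 0, 0)⟩,
  ⟨⟨0, 0, 0, 0, 0, 0, 0, 0, 0⟩, (0, 0, 0)⟩,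
  ⟨⟨-59, 34, -53, 29, 94, 8, 24, -3, -35⟩, (8, 43, 16)⟩,
  ⟨⟨0, 0, 0, 0, 0, 0, 0, 0, 0⟩, (0, 0, 0)⟩,
  ⟨⟨11, -94, -43, -99, -6, 32, 4, 11, -35⟩, (2, 53, 33)⟩,
  ⟨⟨0, 0, 0, 0, 0, 0, 0, 0, 0⟩, (0, 0, 0)⟩,
  ⟨⟨0, 0, 0, 0, 0, 0, 0, 0, 0⟩, (0, 0, 0)⟩,
  ⟨⟨51, -66, -88, -59, -74, 67, -20, 5, -17⟩, (18, 46, 18)⟩,
  ⟨⟨-19, -46, -88, -91, -26, 83, -12, 27, -7⟩, (26, 61, 65)⟩,
  ⟨⟨0, 0, 0, 0, 0, 0, 0, 0, 0⟩, (0, 0, 0)⟩,
  ⟨⟨0, 0, 0, 0, 0, 0, 0, 0, 0⟩, (0, 0, 0)⟩,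
  ⟨⟨0, 0, 0, 0, 0, 0, 0, 0, 0⟩, (0, 0, 0)⟩,
  ⟨⟨-19, 46, -88, -91, 26, 83, -12, -27, -7⟩, (18, 4, 45)⟩,
  ⟨⟨0, 0, 0, 0, 0, 0, 0, 0, 0⟩, (0, 0, 0)⟩,
  ⟨⟨0, 0, 0, 0, 0, 0, 0, 0, 0⟩, (0, 0, 0)⟩,
  ⟨⟨0, 0, 0, 0, 0, 0, 0, 0, 0⟩, (0, 0, 0)⟩,
  ⟨⟨0, 0, 0, 0, 0, 0, 0, 0, 0⟩, (0, 0, 0)⟩,
  ⟨⟨0, 0, 0, 0, 0, 0, 0, 0, 0⟩, (0, 0, 0)⟩,
  ⟨⟨0, 0, 0, 0, 0, 0, 0, 0, 0⟩, (0, 0, 0)⟩,
  ⟨⟨99, -6, -67, 11, 94, 32, -4, 11, -31⟩, (48, 29, 54)⟩,
  ⟨⟨0, 0, 0, 0, 0, 0, 0, 0, 0⟩, (0, 0, 0)⟩,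
  ⟨⟨0, 0, 0, 0, 0, 0, 0, 0, 0⟩, (0, 0, 0)⟩,
  ⟨⟨0, 0, 0, 0, 0, 0, 0, 0, 0⟩, (0, 0, 0)⟩,
  ⟨⟨-51, -66, -37, 59, -74, 8, 20, 5, -37⟩, (55, 38, 55)⟩,
  ⟨⟨0, 0, 0, 0, 0, 0, 0, 0, 0⟩, (0, 0, 0)⟩,
  ⟨⟨0, 0, 0, 0, 0, 0, 0, 0, 0⟩, (0, 0, 0)⟩,
  ⟨⟨-31, -74, -52, -81, 54, 13, 16, 13, -35⟩, (64, 55, 54)⟩,
  ⟨⟨-31, 74, -52, -81, -54, 13, 16, -13, -35⟩, (11, 15, 47)⟩,
  ⟨⟨-39, 66, -53, -89, -46, 52, 8, -19, -31⟩, (58, 65, 50)⟩,
  ⟨⟨0, 0, 0, 0, 0, 0, 0, 0, 0⟩, (0, 0, 0)⟩,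
  ⟨⟨79, 14, -107, 49, -74, 28, -12, -21, -17⟩, (57, 3, 21)⟩,
  ⟨⟨0, 0, 0, 0, 0, 0, 0, 0, 0⟩, (0, 0, 0)⟩,
  ⟨⟨0, 0, 0, 0, 0, 0, 0, 0, 0⟩, (0, 0, 0)⟩,
  ⟨⟨31, -74, -83, -81, -54, 68, -16, 13, -19⟩, (61, 33, 67)⟩,
  ⟨⟨0, 0, 0, 0, 0, 0, 0, 0, 0⟩, (0, 0, 0)⟩,
  ⟨⟨0, 0, 0, 0, 0, 0, 0, 0, 0⟩, (0, 0, 0)⟩,
  ⟨⟨0, 0, 0, 0, 0, 0, 0, 0, 0⟩, (0, 0, 0)⟩,
  ⟨⟨0, 0, 0, 0, 0, 0, 0, 0, 0⟩, (0, 0, 0)⟩]

/-- Unit moves. -/
noncomputable def U : List Mv := [mz,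
  mz,
  ⟨⟨1, 0, 0, 0, -1, 0, 0, 0, 1⟩, .nil, (nat_lit 30), (nat_lit 30), (nat_lit 29), (nat_lit 1), (0, 0, 0), [], 3⟩,
  mz,
  mz,
  mz,
  mz,
  mz,
  mz,
  mz,
  mz,
  mz,
  mz,
  ⟨⟨1, 0, 0, 0, -1, 0, 0, 0, 1⟩, .nil, (nat_lit 30), (nat_lit 30), (nat_lit 29), (nat_lit 1), (0, 0, 0), [], 3⟩,
  ⟨⟨1, 0, 0, 0, -1, 0, 0, 0, 1⟩, .nil, (nat_lit 30), (nat_lit 30), (nat_lit 29), (nat_lit 1), (0, 0, 0), [], 3⟩,
  ⟨⟨-1, 0, 1, 0, -1, 0, 0, 0, 1⟩, .nil, (nat_lit 0), (nat_lit 15), (nat_lit 1), (nat_lit 0), (0, 0, 0), [], 16⟩,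
  mz,
  mz,
  ⟨⟨-1, 0, 1, 0, -1, 0, 0, 0, 1⟩, .nil, (nat_lit 0), (nat_lit 15), (nat_lit 1), (nat_lit 0), (0, 0, 0), [], 16⟩,
  mz,
  ⟨⟨-1, 0, 1, 0, 1, 0, 0, 0, 1⟩, .nil, (nat_lit 30), (nat_lit 16), (nat_lit 1), (nat_lit 1), (0, 0, 0), [], 17⟩,
  ⟨⟨-1, 0, 1, 0, 1, 0, 0, 0, 1⟩, .nil, (nat_lit 30), (nat_lit 16), (nat_lit 1), (nat_lit 1), (0, 0, 0), [], 17⟩,
  ⟨⟨-1, 0, 1, 0, -1, 0, 0, 0, 1⟩, .nil, (nat_lit 0), (nat_lit 15), (nat_lit 1), (nat_lit 0), (0, 0, 0), [], 16⟩,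
  ⟨⟨-1, 0, 1, 0, 1, 0, 0, 0, 1⟩, .nil, (nat_lit 30), (nat_lit 16), (nat_lit 1), (nat_lit 1), (0, 0, 0), [], 17⟩,
  ⟨⟨1, 0, 0, 0, -1, 0, 0, 0, 1⟩, .nil, (nat_lit 30), (nat_lit 30), (nat_lit 29), (nat_lit 1), (0, 0, 0), [], 3⟩,
  ⟨⟨-1, 0, 1, 0, 1, 0, 0, 0, 1⟩, .nil, (nat_lit 30), (nat_lit 16), (nat_lit 1), (nat_lit 1), (0, 0, 0), [], 17⟩,
  ⟨⟨1, 0, 0, 0, -1, 0, 0, 0, 1⟩, .nil, (nat_lit 30), (nat_lit 30), (nat_lit 29), (nat_lit 1), (0, 0, 0), [], 3⟩,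
  ⟨⟨-1, 0, 1, 0, -1, 0, 0, 0, 1⟩, .nil, (nat_lit 0), (nat_lit 15), (nat_lit 1), (nat_lit 0), (0, 0, 0), [], 16⟩,
  ⟨⟨-1, 0, 1, 0, 1, 0, 0, 0, 1⟩, .nil, (nat_lit 30), (nat_lit 16), (nat_lit 1), (nat_lit 1), (0, 0, 0), [], 17⟩,
  ⟨⟨-1, 0, 1, 0, -1, 0, 0, 0, 1⟩, .nil, (nat_lit 0), (nat_lit 15), (nat_lit 1), (nat_lit 0), (0, 0, 0), [], 16⟩,
  mz]

theorem v_ty : tyb Dm S.ty1 Clm = true := by decide +kernel

theorem v_ty0 : tyb D0 (S.tys.getD 0 0) Cl0 = true := by decide +kernel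

theorem v_ty1 : tyb D1 (S.tys.getD 1 0) Cl1 = true := by decide +kernel

theorem v_msc : mscb S D0 [D1] Dm (nat_lit 524626) = true := by decide +kernel

theorem v_mv0 : mvsn (nat_lit 331739736079) S D0 [D1] Dm (nat_lit 524626) 0 D0 = true := by decide +kernel

theorem v_mv1 : mvsn (nat_lit 331739736079) S D0 [D1] Dm (nat_lit 524626) 1 D1 = true := by decide +kernel

theorem v_mm : mmsn (nat_lit 331739736079) S D0 [D1] Dm (nat_lit 524626) = true := by decide +kernel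

theorem v_un : unb S D0 (nat_lit 524626) U = true := by decide +kernel

theorem v_ok : okb S.oks [(0, 0, 0), (0, 0, 0), (0, 5, 3), (0, 0, 0), (0, 0, 0), (1, 32, 1), (0, 0, 0)] = true := by decide +kernel

theorem v_part : ∀ d < D0.p, (nat_lit 524626).testBit d = true → part S (zc (D0 :: [D1])) d = true := by
  intro d hd h
  have h1 : ∀ d < 31, (nat_lit 524626).testBit d = true → d = 1 ∨ d = 4 ∨ d = 6 ∨ d = 8 ∨ d = 19 := by decide
  rcases h1 d hd h with rfl | rfl | rfl | rfl | rfl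
  · exact part_1
  · exact part_4
  · exact part_6
  · exact part_8
  · exact part_19

theorem main (n : ℕ) (ho : Odd n) (hr : ¬ Rep n) (h0 : Split 31 n) (h1 : Split 47 n) (hm : Split 71 n) :
    n ∈ EE := by
  refine concln (W := nat_lit 331739736079) (S := S) (P0 := D0) (Pl := [D1]) (Pm := Dm) (cn := nat_lit 524626) ?_ Dm_ok v_ty ?_ ?_ v_msc ?_ v_mm v_un v_part v_ok
    n ho hr ?_ hm
  · simp only [List.forall_mem_cons]
    exact ⟨D0_ok, D1_ok, fun _ h => absurd h (by simp)⟩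
  · exact all2 (φ := fun j P => ∃ L, tyb P (S.tys.getD j 0) L = true) ⟨_, v_ty0⟩ ⟨_, v_ty1⟩
  · exact all2 (φ := fun j P => Nat.ble (S.pks.getD j 0) (Nat.pow P.p P.K) = true) (by decide +kernel) (by decide +kernel)
  · exact all2 (φ := fun i P => mvsn (nat_lit 331739736079) S D0 [D1] Dm (nat_lit 524626) i P = true) v_mv0 v_mv1
  · simp only [List.forall_mem_cons]
    exact ⟨h0, h1, fun _ h => absurd h (by simp)⟩

end Pool.Agent.Work.MP_9954fe_nt.P31_47_71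

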